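import Pool.Agent.Lib.MP_5854e1_co.DecRow

/-!
# Sparse corrections
-/

set_option autoImplicit false
set_option maxRecDepth 100000

namespace Pool.Agent.Lib.MP_5854e1_co.Cz

noncomputable section

noncomputable def tz57 : DT := (.nd (nat_lit 15) (.nd (nat_lit 6) (.nd (nat_lit 16) 
(.nd (nat_lit 26) (.nd (nat_lit 8) (.nd (nat_lit 18) (.nd (nat_lit 19) (.nd (nat_lit 7) 
(.nd (nat_lit 11) (.nd (nat_lit 4) (.nd (nat_lit 20) 
(.lf (nat_lit 23068717) (dlOf (nat_lit 2) (nat_lit 0x104e8000ac04002c002003c0008b50682))) 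
(.lf (nat_lit 17825837) (dlOf (nat_lit 1) (nat_lit 0x8004000400088f0e02)))) 
(.lf (nat_lit 1346371645) (dlOf (nat_lit 1) (nat_lit 0x40018f60001)))) (.nd (nat_lit 10) 
(.nd (nat_lit 28) (.lf (nat_lit 536877101) (dlOf (nat_lit 1) (nat_lit 0x40001800a601))) 
(.lf (nat_lit 4026538029) (dlOf (nat_lit 1) (nat_lit 0x8001800a601)))) (.nd (nat_lit 4) 
(.lf (nat_lit 3489664045) (dlOf (nat_lit 1) (nat_lit 0x200028006081))) 
(.lf (nat_lit 3489664061) (dlOf (nat_lit 1) (nat_lit 0x1c0028006081)))))) (.nd (nat_lit 4) 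
(.nd (nat_lit 9) (.nd (nat_lit 11) 
(.lf (nat_lit 2952794285) (dlOf (nat_lit 1) (nat_lit 0xc0008007d81))) 
(.lf (nat_lit 805308589) (dlOf (nat_lit 1) (nat_lit 0x1c0028004901)))) (.nd (nat_lit 10) 
(.lf (nat_lit 1476401837) (dlOf (nat_lit 1) (nat_lit 0x6001800b781))) 
(.lf (nat_lit 939527853) (dlOf (nat_lit 1) (nat_lit 0x400400020008007282))))) (.nd (nat_lit 9) 
(.nd (nat_lit 12) (.lf (nat_lit 2097341) (dlOf (nat_lit 1) (nat_lit 0x400400020018150382))) 
(.lf (nat_lit 2952794301) (dlOf (nat_lit 1) (nat_lit 0x58008000800200060008007e83)))) 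
(.nd (nat_lit 10) (.lf (nat_lit 1476399805) (dlOf (nat_lit 1) (nat_lit 0x400200020008008c82))) 
(.lf (nat_lit 4294971069) (dlOf (nat_lit 1) (nat_lit 0xe0018007281))))))) (.nd (nat_lit 23) 
(.nd (nat_lit 25) (.nd (nat_lit 4) (.nd (nat_lit 27) 
(.lf (nat_lit 1611137069) (dlOf (nat_lit 2) (nat_lit 0xe0298000000800480080030002001a00080f0d03))) 
(.lf (nat_lit 134742061) (dlOf (nat_lit 2) (nat_lit 0x403b000ac8180a0980)))) 
(.lf (nat_lit 134742077) (dlOf (nat_lit 4) (nat_lit 0xf40760003202006c03b0001181002001d8000880801e0008015c00200f000080a0c83)))) 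
(.nd (nat_lit 4) (.nd (nat_lit 9) 
(.lf (nat_lit 36175917) (dlOf (nat_lit 1) (nat_lit 0x30008002400200280009040983))) 
(.lf (nat_lit 50856493) (dlOf (nat_lit 1) (nat_lit 0x1000194d8a81)))) 
(.lf (nat_lit 56100029) (dlOf (nat_lit 1) (nat_lit 0x20019732c81))))) (.nd (nat_lit 20) 
(.nd (nat_lit 4) (.nd (nat_lit 9) 
(.lf (nat_lit 15204397) (dlOf (nat_lit 8) (nat_lit 0x111e3500716fb0018ae28000d44c0002f840099e35002d6fb002f2e28019944c0002e84000ee350005efb0000b20802178d4004dbec0002c0200f3efc8002f45c03c38e2023fc6a00b1e348057f1a0019b8ce0005c580075e2b80736fb0001b7d4024f7140111b89809adc4801ae8f8025d44c01b2a25802bd12002aa552003f09200aa7b5802fbc38000a858024bbf20077c680038e3380056fa8029ee26029d44b00021060018e350000c4080610008056c002019800087c0683))) 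
(.lf (nat_lit 8914477) (dlOf (nat_lit 1) (nat_lit 0x8000200960008513782)))) 
(.lf (nat_lit 44564541) (dlOf (nat_lit 1) (nat_lit 0x60029320001)))) (.nd (nat_lit 21) 
(.lf (nat_lit 9961517) (dlOf (nat_lit 11) (nat_lit 0x94ae0002902000aa560001401002f52b80009c08001295c0004c0400354ae005ca560001282000352b80004408004a95c00154ac0000c040004a570000581002f52b80002808002295c00010040070004002800185a0d02))) 
(.lf (nat_lit 45613101) (dlOf (nat_lit 1) (nat_lit 0x88008000400200020009340283))))))) 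
(.nd (nat_lit 4) (.nd (nat_lit 20) (.nd (nat_lit 9) (.nd (nat_lit 29) (.nd (nat_lit 22) 
(.nd (nat_lit 27) 
(.lf (nat_lit 4295229485) (dlOf (nat_lit 2) (nat_lit 0x4000e0001402001200080c0d81))) 
(.lf (nat_lit 4429447213) (dlOf (nat_lit 2) (nat_lit 0x4000e0001402001200080c0d81)))) 
(.lf (nat_lit 63176749) (dlOf (nat_lit 1) (nat_lit 0x8008000c002000200099f0983)))) 
(.nd (nat_lit 19) (.lf (nat_lit 537133101) (dlOf (nat_lit 1) (nat_lit 0xc0008020581))) 
(.lf (nat_lit 1879834669) (dlOf (nat_lit 2) (nat_lit 0x1837c0007a04000c00200020008390b02))))) 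
(.nd (nat_lit 11) (.lf (nat_lit 2359853) (dlOf (nat_lit 1) (nat_lit 0x340008150e81))) 
(.lf (nat_lit 46402093) (dlOf (nat_lit 6) (nat_lit 0x95fe0004a460005401000257f80028804000abfc001410200035fe000a0010004aff0002d2300027008000400200280009385182))))) 
(.nd (nat_lit 7) (.nd (nat_lit 22) 
(.lf (nat_lit 1343488045) (dlOf (nat_lit 2) (nat_lit 0x404e800048080048008008400200160008260803))) 
(.lf (nat_lit 30670893) (dlOf (nat_lit 3) (nat_lit 0x1060a8001c808001ae0c0000a04000800200020008e40e02)))) 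
(.nd (nat_lit 9) (.lf (nat_lit 36963501) (dlOf (nat_lit 1) (nat_lit 0x10008000c00200060009072c03))) 
(.lf (nat_lit 20190893) (dlOf (nat_lit 1) (nat_lit 0x5180080004002014c00089da003)))))) 
(.nd (nat_lit 27) (.nd (nat_lit 19) 
(.lf (nat_lit 1342439485) (dlOf (nat_lit 3) (nat_lit 0xc37a0015602000a24900066818030d00))) 
(.lf (nat_lit 49020989) (dlOf (nat_lit 1) (nat_lit 0x2420019460001)))) (.nd (nat_lit 29) 
(.lf (nat_lit 134479933) (dlOf (nat_lit 5) (nat_lit 0xa042014a018803700c00038058029e01100b100000050c300278100013805a006001c004d0050004ec2002f815000ec096002c041000601e80b200c401d4060015602c003900a00b90044047c000000cd1400be054001e02580070104002407a029e031007f018001700b0006402802a801101020000003305019c00080010002032a0008030d03))) 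
(.lf (nat_lit 671350845) (dlOf (nat_lit 1) (nat_lit 0x40018160701))))))) (.nd (nat_lit 11) 
(.nd (nat_lit 10) (.nd (nat_lit 18) (.nd (nat_lit 19) 
(.lf (nat_lit 46137645) (dlOf (nat_lit 1) (nat_lit 0x40029380b01))) 
(.lf (nat_lit 23593261) (dlOf (nat_lit 1) (nat_lit 0x8008000400200020008b80503)))) (.nd (nat_lit 7) 
(.nd (nat_lit 12) 
(.lf (nat_lit 3490971949) (dlOf (nat_lit 1) (nat_lit 0x40008002000200080008047a03))) 
(.lf (nat_lit 20189485) (dlOf (nat_lit 1) (nat_lit 0x8008000c002000200089d8083)))) 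
(.lf (nat_lit 3408301) (dlOf (nat_lit 1) (nat_lit 0x1940008200781))))) (.nd (nat_lit 7) 
(.nd (nat_lit 27) (.lf (nat_lit 1853) (dlOf (nat_lit 1) (nat_lit 0xe0018003e01))) 
(.lf (nat_lit 6576670525) (dlOf (nat_lit 1) (nat_lit 0x20018003e01)))) (.nd (nat_lit 4) 
(.lf (nat_lit 8127917) (dlOf (nat_lit 1) (nat_lit 0x400200020008513602))) (.nd (nat_lit 29) 
(.lf (nat_lit 5502928317) (dlOf (nat_lit 1) (nat_lit 0x50008009c00201440008003603))) 
(.lf (nat_lit 4966057405) (dlOf (nat_lit 1) (nat_lit 0xb8008012c00200d20008003603))))))) 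
(.nd (nat_lit 31) (.nd (nat_lit 7) (.nd (nat_lit 27) (.nd (nat_lit 29) 
(.lf (nat_lit 1073748269) (dlOf (nat_lit 1) (nat_lit 0x40040002000800ab82))) 
(.lf (nat_lit 536877357) (dlOf (nat_lit 1) (nat_lit 0x5000800300020018000800ab83)))) 
(.lf (nat_lit 4429191469) (dlOf (nat_lit 1) (nat_lit 0x40040002000800ab82)))) (.nd (nat_lit 18) 
(.lf (nat_lit 46664109) (dlOf (nat_lit 1) (nat_lit 0x800400020009384e82))) (.nd (nat_lit 21) 
(.lf (nat_lit 5771626925) (dlOf (nat_lit 1) (nat_lit 0x20028004e81))) 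
(.lf (nat_lit 5773724077) (dlOf (nat_lit 1) (nat_lit 0x8004000200080e4e82)))))) (.nd (nat_lit 4) 
(.nd (nat_lit 7) (.nd (nat_lit 27) (.nd (nat_lit 29) 
(.lf (nat_lit 2415925549) (dlOf (nat_lit 1) (nat_lit 0x40040002000800ab82))) 
(.lf (nat_lit 4026538285) (dlOf (nat_lit 1) (nat_lit 0x800800040020002000800ab83)))) 
(.lf (nat_lit 3623885101) (dlOf (nat_lit 1) (nat_lit 0x800800040020002000800ab83)))) 
(.lf (nat_lit 3490187693) (dlOf (nat_lit 1) (nat_lit 0x20018004e81)))) (.nd (nat_lit 9) 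
(.lf (nat_lit 3489668413) (dlOf (nat_lit 1) (nat_lit 0x40040004000800c902))) 
(.lf (nat_lit 2952793917) (dlOf (nat_lit 1) (nat_lit 0x400401e20008007582)))))))) (.nd (nat_lit 28) 
(.nd (nat_lit 8) (.nd (nat_lit 4) (.nd (nat_lit 9) (.nd (nat_lit 29) (.nd (nat_lit 11) 
(.lf (nat_lit 201850925) (dlOf (nat_lit 2) (nat_lit 0x403b000638180a0980))) 
(.lf (nat_lit 4362082349) (dlOf (nat_lit 1) (nat_lit 0x80040002001800a602)))) (.nd (nat_lit 30) 
(.lf (nat_lit 738721837) (dlOf (nat_lit 2) (nat_lit 0xe0298000000800480080030002001a00080f0d03))) 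
(.lf (nat_lit 3959947309) (dlOf (nat_lit 2) (nat_lit 0x3408c007d70200080018170001))))) 
(.nd (nat_lit 7) 
(.lf (nat_lit 3422552621) (dlOf (nat_lit 1) (nat_lit 0x20008000c00200060008001483))) 
(.nd (nat_lit 11) (.lf (nat_lit 2751465133) (dlOf (nat_lit 1) (nat_lit 0x1c0028003a81))) 
(.lf (nat_lit 3959426733) (dlOf (nat_lit 1) (nat_lit 0x920028007281)))))) (.nd (nat_lit 12) 
(.nd (nat_lit 18) 
(.lf (nat_lit 201850941) (dlOf (nat_lit 4) (nat_lit 0xf40760001a02006c03b0000581002001d8000280801e0008015c00200f000080a0c83))) 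
(.nd (nat_lit 27) 
(.lf (nat_lit 3288596541) (dlOf (nat_lit 1) (nat_lit 0x300080010002000a0008090003))) 
(.lf (nat_lit 201588797) (dlOf (nat_lit 5) (nat_lit 0xa042014a018803700c00038058029e01100b100000050c300278100013805a006001d004d0050004ec2002f815400ec096002c041000601e80b200c401d4060015602c003900a00b90044047c000000cd1400be055001e02580070104002407a029e031007f018001700b0006402802a801101020000003305019c00080010002032a0008030d03))))) 
(.nd (nat_lit 7) 
(.lf (nat_lit 2751470141) (dlOf (nat_lit 3) (nat_lit 0x14448003c22000051040001dc180120880000000400d00040046000800b482))) 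
(.lf (nat_lit 3422557373) (dlOf (nat_lit 1) (nat_lit 0x18008001400200040008009503)))))) 
(.nd (nat_lit 4) (.nd (nat_lit 11) (.nd (nat_lit 7) 
(.lf (nat_lit 2885945133) (dlOf (nat_lit 1) (nat_lit 0xa0028143d81))) (.nd (nat_lit 12) 
(.lf (nat_lit 6106907053) (dlOf (nat_lit 1) (nat_lit 0x80018001001))) 
(.lf (nat_lit 67113389) (dlOf (nat_lit 1) (nat_lit 0x400400180008008482))))) (.nd (nat_lit 27) 
(.nd (nat_lit 29) (.lf (nat_lit 4362082605) (dlOf (nat_lit 1) (nat_lit 0x40040002000800ab82))) 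
(.lf (nat_lit 2751469869) (dlOf (nat_lit 1) (nat_lit 0x40040002000800ab82)))) (.nd (nat_lit 31) 
(.lf (nat_lit 201333037) (dlOf (nat_lit 1) (nat_lit 0x800800040020002000800ab83))) 
(.lf (nat_lit 2348816685) (dlOf (nat_lit 1) (nat_lit 0x80080014002000c000800ab83)))))) 
(.nd (nat_lit 9) (.nd (nat_lit 7) (.nd (nat_lit 11) 
(.lf (nat_lit 2752774461) (dlOf (nat_lit 3) (nat_lit 0x800100000c0800802c80000404007c00400160018048502))) 
(.lf (nat_lit 2751465789) (dlOf (nat_lit 1) (nat_lit 0x40028004c81)))) 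
(.lf (nat_lit 6106908093) (dlOf (nat_lit 1) (nat_lit 0x4800800c4002005a0008003603)))) 
(.nd (nat_lit 7) (.nd (nat_lit 11) 
(.lf (nat_lit 3825207101) (dlOf (nat_lit 1) (nat_lit 0x20008003e01))) 
(.lf (nat_lit 603983677) (dlOf (nat_lit 1) (nat_lit 0x400400020018007582)))) 
(.lf (nat_lit 4496559037) (dlOf (nat_lit 1) (nat_lit 0x100080008002000200080e5d03))))))) 
(.nd (nat_lit 7) (.nd (nat_lit 4) (.nd (nat_lit 9) (.nd (nat_lit 18) (.nd (nat_lit 8) 
(.lf (nat_lit 3154640941) (dlOf (nat_lit 1) (nat_lit 0x200182f0801))) 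
(.lf (nat_lit 469768493) (dlOf (nat_lit 1) (nat_lit 0x2002800ab81)))) (.nd (nat_lit 27) 
(.lf (nat_lit 1409548333) (dlOf (nat_lit 1) (nat_lit 0xc0008020581))) 
(.lf (nat_lit 3691249709) (dlOf (nat_lit 7) (nat_lit 0x301700028088001c042000a019000600c0001542800380b8000c054000e022000300c80038060000402800140000002a070008017000500a80004044000c021000400c800280600014000000520e000402e0003015000300880014042000c01800028850007017000280a8002c044000e021000200c800380600009818001c05c001602a00050110004808400140320008018000500000012c3800280080048002003800080e0803))))) 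
(.nd (nat_lit 18) (.nd (nat_lit 27) 
(.lf (nat_lit 335545901) (dlOf (nat_lit 1) (nat_lit 0x40018003781))) 
(.lf (nat_lit 6375343661) (dlOf (nat_lit 1) (nat_lit 0x60028003781)))) 
(.lf (nat_lit 6375605805) (dlOf (nat_lit 1) (nat_lit 0x20018003781))))) (.nd (nat_lit 8) 
(.nd (nat_lit 19) (.nd (nat_lit 30) 
(.lf (nat_lit 470024253) (dlOf (nat_lit 3) (nat_lit 0xc37a0015602000a24900066818030d00))) 
(.lf (nat_lit 1543766077) (dlOf (nat_lit 1) (nat_lit 0x40018160701)))) 
(.lf (nat_lit 471597117) (dlOf (nat_lit 1) (nat_lit 0x8008000400200020008350a03)))) 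
(.nd (nat_lit 11) (.lf (nat_lit 6376915261) (dlOf (nat_lit 1) (nat_lit 0x2a0008090b81))) 
(.lf (nat_lit 1410074941) (dlOf (nat_lit 1) (nat_lit 0x200280f4c81)))))) (.nd (nat_lit 8) 
(.nd (nat_lit 10) (.nd (nat_lit 12) 
(.lf (nat_lit 6376131245) (dlOf (nat_lit 1) (nat_lit 0x20018095681))) (.nd (nat_lit 30) 
(.lf (nat_lit 469768877) (dlOf (nat_lit 1) (nat_lit 0x2002800b781))) 
(.lf (nat_lit 3690994349) (dlOf (nat_lit 1) (nat_lit 0x180020008000800b782))))) (.nd (nat_lit 9) 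
(.nd (nat_lit 4) 
(.lf (nat_lit 472646829) (dlOf (nat_lit 1) (nat_lit 0x480080028002000200089e2c03))) 
(.lf (nat_lit 1409293501) (dlOf (nat_lit 1) (nat_lit 0xa800800140020068000800c203)))) 
(.nd (nat_lit 11) 
(.lf (nat_lit 3690993325) (dlOf (nat_lit 1) (nat_lit 0x140008008c0020058000800a003))) 
(.lf (nat_lit 4227862189) (dlOf (nat_lit 1) (nat_lit 0x60028007281)))))) (.nd (nat_lit 29) 
(.nd (nat_lit 4) (.nd (nat_lit 9) 
(.lf (nat_lit 3690993069) (dlOf (nat_lit 1) (nat_lit 0xa8008001400200020008009903))) 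
(.lf (nat_lit 4764732333) (dlOf (nat_lit 1) (nat_lit 0x4800400200008005d02)))) 
(.lf (nat_lit 4630513085) (dlOf (nat_lit 1) (nat_lit 0x1800400320008003602)))) (.nd (nat_lit 4) 
(.nd (nat_lit 18) (.lf (nat_lit 4227860909) (dlOf (nat_lit 1) (nat_lit 0x180028004e81))) 
(.lf (nat_lit 6377703853) (dlOf (nat_lit 1) (nat_lit 0x8004000200080e4e82)))) 
(.lf (nat_lit 4227865533) (dlOf (nat_lit 2) (nat_lit 0x1008000208020006002800be01))))))))) 
(.nd (nat_lit 18) (.nd (nat_lit 4) (.nd (nat_lit 26) (.nd (nat_lit 10) (.nd (nat_lit 24) 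
(.nd (nat_lit 30) (.nd (nat_lit 20) 
(.lf (nat_lit 134807597) (dlOf (nat_lit 1) (nat_lit 0x3c00080c0d81))) 
(.lf (nat_lit 10027053) (dlOf (nat_lit 3) (nat_lit 0x21cc000060100180e60000200802600080074002006a00085a0d03)))) 
(.nd (nat_lit 7) 
(.lf (nat_lit 3892903981) (dlOf (nat_lit 2) (nat_lit 0xc0330008012000000100060008002c00200020008290e03))) 
(.lf (nat_lit 3355509677) (dlOf (nat_lit 1) (nat_lit 0x64004000400180a2682))))) (.nd (nat_lit 19) 
(.nd (nat_lit 22) 
(.lf (nat_lit 27328557) (dlOf (nat_lit 2) (nat_lit 0x3519800084080020008000800200040008cd0803))) 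
(.lf (nat_lit 23134253) (dlOf (nat_lit 6) (nat_lit 0x145e780222f24000d6360002a06005c000000140100165e780006008048306c021183400d8bc800945e1003b2e3c004d636007ab14003d58480422c20023557c00b4abd005a55b001d2ad401f553c00b8a9d000951a802725cc02412e4001c971004e07c800040a0008b06c00117900000e0400040018b60901)))) 
(.nd (nat_lit 21) (.lf (nat_lit 26804269) (dlOf (nat_lit 1) (nat_lit 0x40028c70881))) 
(.lf (nat_lit 24707117) (dlOf (nat_lit 5) (nat_lit 0x42f5400216140001604000cbd50000a0100045ea80001408002af540000804000800200060008bb0d82)))))) 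
(.nd (nat_lit 27) (.nd (nat_lit 9) (.nd (nat_lit 19) 
(.lf (nat_lit 60884141) (dlOf (nat_lit 1) (nat_lit 0x4002000200098c2c02))) 
(.lf (nat_lit 51971245) (dlOf (nat_lit 1) (nat_lit 0x800400020009512c02)))) (.nd (nat_lit 8) 
(.lf (nat_lit 1342246573) (dlOf (nat_lit 1) (nat_lit 0x20008007281))) 
(.lf (nat_lit 7933869) (dlOf (nat_lit 1) (nat_lit 0x20028517981))))) (.nd (nat_lit 7) 
(.nd (nat_lit 12) (.lf (nat_lit 5502993965) (dlOf (nat_lit 1) (nat_lit 0x40018003781))) 
(.lf (nat_lit 3355514413) (dlOf (nat_lit 1) (nat_lit 0x4004000200080a9c02)))) 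
(.lf (nat_lit 671156141) (dlOf (nat_lit 1) (nat_lit 0x4f8008046c00201aa0008144303)))))) 
(.nd (nat_lit 30) (.nd (nat_lit 9) (.nd (nat_lit 7) 
(.lf (nat_lit 470876205) (dlOf (nat_lit 3) (nat_lit 0x202620005402007c131000210181c0680))) 
(.nd (nat_lit 27) (.lf (nat_lit 4899014061) (dlOf (nat_lit 1) (nat_lit 0x400200020008053602))) 
(.lf (nat_lit 4496360877) (dlOf (nat_lit 1) (nat_lit 0x150008009c00200380008053603))))) 
(.nd (nat_lit 8) 
(.lf (nat_lit 69274157) (dlOf (nat_lit 3) (nat_lit 0x608c00023008006846000114040004002000e0008905182))) 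
(.nd (nat_lit 11) (.lf (nat_lit 2617312045) (dlOf (nat_lit 1) (nat_lit 0x3a00280a2201))) 
(.lf (nat_lit 5301668653) (dlOf (nat_lit 2) (nat_lit 0x200d400478040044004001c0008005c02)))))) 
(.nd (nat_lit 7) (.nd (nat_lit 9) (.nd (nat_lit 19) 
(.lf (nat_lit 1677787181) (dlOf (nat_lit 1) (nat_lit 0xa0008001c00200020008090003))) 
(.lf (nat_lit 3557359661) (dlOf (nat_lit 1) (nat_lit 0x11800400a400081c0682)))) 
(.lf (nat_lit 6241191469) (dlOf (nat_lit 1) (nat_lit 0x40018053781)))) (.nd (nat_lit 9) 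
(.nd (nat_lit 10) (.lf (nat_lit 1409876397) (dlOf (nat_lit 1) (nat_lit 0x360028090781))) 
(.lf (nat_lit 1543572909) (dlOf (nat_lit 1) (nat_lit 0x8008000400200020008146d03)))) 
(.lf (nat_lit 5704321965) (dlOf (nat_lit 1) (nat_lit 0x400400020008055d02))))))) (.nd (nat_lit 27) 
(.nd (nat_lit 9) (.nd (nat_lit 21) (.nd (nat_lit 22) (.nd (nat_lit 7) 
(.lf (nat_lit 1611202621) (dlOf (nat_lit 1) (nat_lit 0x68008005000200240008110783))) 
(.lf (nat_lit 1342767293) (dlOf (nat_lit 3) (nat_lit 0x1e0e28000c80800d071400062040010004005400180c0382)))) 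
(.nd (nat_lit 26) 
(.lf (nat_lit 3494445117) (dlOf (nat_lit 2) (nat_lit 0x801a000380840014023002400f000260200068008001400200140008220b83))) 
(.lf (nat_lit 2756247613) (dlOf (nat_lit 2) (nat_lit 0x801a000380840014023002400f000260200068008001400200140008220b83))))) 
(.nd (nat_lit 7) (.nd (nat_lit 19) 
(.lf (nat_lit 10551613) (dlOf (nat_lit 1) (nat_lit 0x200185f8501))) 
(.lf (nat_lit 58261821) (dlOf (nat_lit 2) (nat_lit 0x3b3b4000f6040050004008c00197d7c82)))) 
(.lf (nat_lit 23658685) (dlOf (nat_lit 1) (nat_lit 0x20028b80381))))) (.nd (nat_lit 8) 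
(.nd (nat_lit 11) (.lf (nat_lit 7930429) (dlOf (nat_lit 1) (nat_lit 0xc0028511501))) 
(.nd (nat_lit 12) (.lf (nat_lit 44632637) (dlOf (nat_lit 1) (nat_lit 0x20029325201))) 
(.lf (nat_lit 7936573) (dlOf (nat_lit 3) (nat_lit 0xc558000330100052ac0000000800b800800400020006000851b483))))) 
(.nd (nat_lit 19) (.nd (nat_lit 26) 
(.lf (nat_lit 2952861501) (dlOf (nat_lit 15) (nat_lit 0xe002800160060002e82003900a00030018000b8080038054000401a000e0010001501800980a800200340002018001200100014c200008068000a404005005200080140004008800a80180050004000510a0024029000100880078018000a00c0078028000e0060002602000500a00012c0800c0050006400c0004a04003201400050030001201000880b40008a0400fc02800080060002102000e0168000e40800e0008004c0020034000800a103))) 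
(.lf (nat_lit 604051261) (dlOf (nat_lit 3) (nat_lit 0xa01e0001080800081140001c040068002001a000800a102)))) 
(.lf (nat_lit 20518717) (dlOf (nat_lit 3) (nat_lit 0x4a5a000251d80010810000a96c00054a2000ea3c0000f0389da100)))))) 
(.nd (nat_lit 7) (.nd (nat_lit 10) (.nd (nat_lit 8) (.nd (nat_lit 12) 
(.lf (nat_lit 738787389) (dlOf (nat_lit 1) (nat_lit 0x68008005000200240008110783))) 
(.lf (nat_lit 3691057213) (dlOf (nat_lit 2) (nat_lit 0x2400400008018007d00)))) 
(.lf (nat_lit 474022205) (dlOf (nat_lit 13) (nat_lit 0x1c00c0003f02000e0060001e8100020030000d80800400180006a04001800c00034020004006000180100070030000a80800300180004004002400c0001e02000e006000060100070030000240800300180000004002400400020009000b82)))) 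
(.nd (nat_lit 9) (.lf (nat_lit 1543572797) (dlOf (nat_lit 1) (nat_lit 0x400400020008146902))) 
(.nd (nat_lit 26) (.lf (nat_lit 1476466493) (dlOf (nat_lit 1) (nat_lit 0x4000800a101))) 
(.lf (nat_lit 3691059005) (dlOf (nat_lit 2) (nat_lit 0x805a00039020014000800a101)))))) 
(.nd (nat_lit 9) (.nd (nat_lit 30) (.nd (nat_lit 19) 
(.lf (nat_lit 939590077) (dlOf (nat_lit 2) (nat_lit 0x100d000108080008008001c002000600080b0883))) 
(.lf (nat_lit 1008271805) (dlOf (nat_lit 1) (nat_lit 0xe0028b17a81)))) (.nd (nat_lit 8) 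
(.lf (nat_lit 1543572669) (dlOf (nat_lit 1) (nat_lit 0x2c00200280008146302))) 
(.lf (nat_lit 1812005309) (dlOf (nat_lit 2) (nat_lit 0x100d000108080008008001c002000600080b0883))))) 
(.nd (nat_lit 8) (.lf (nat_lit 6376458941) (dlOf (nat_lit 1) (nat_lit 0x400200020008095782))) 
(.nd (nat_lit 10) 
(.lf (nat_lit 134290365) (dlOf (nat_lit 2) (nat_lit 0xc408600000020030000800be01))) 
(.lf (nat_lit 201394109) (dlOf (nat_lit 2) (nat_lit 0x18094000090200020018004381))))))))) 
(.nd (nat_lit 20) (.nd (nat_lit 28) (.nd (nat_lit 19) (.nd (nat_lit 26) (.nd (nat_lit 27) 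
(.nd (nat_lit 4) (.nd (nat_lit 7) 
(.lf (nat_lit 3221553453) (dlOf (nat_lit 1) (nat_lit 0x1c0008137a01))) 
(.lf (nat_lit 330925) (dlOf (nat_lit 1) (nat_lit 0x140028006281)))) 
(.lf (nat_lit 21299389) (dlOf (nat_lit 1) (nat_lit 0x20018a31a01)))) (.nd (nat_lit 4) 
(.nd (nat_lit 29) 
(.lf (nat_lit 134545453) (dlOf (nat_lit 3) (nat_lit 0x1a81080020082004403e001d01e800500e400840620002019002c0088000a04000880440003004009800400200018070902))) 
(.lf (nat_lit 1745158189) (dlOf (nat_lit 1) (nat_lit 0x4002000200080b0402)))) 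
(.lf (nat_lit 3355770941) (dlOf (nat_lit 3) (nat_lit 0x4a02f000030100220178000140805280080270002011a0008110e03))))) 
(.nd (nat_lit 27) (.nd (nat_lit 4) 
(.lf (nat_lit 3288662061) (dlOf (nat_lit 2) (nat_lit 0x1ea02e00cd01680056410042000801b800201c600080a0983))) 
(.lf (nat_lit 3288662077) (dlOf (nat_lit 3) (nat_lit 0x1c02e0001b01001e0170000d00806280080260002022e00080a0c83)))) 
(.nd (nat_lit 8) (.nd (nat_lit 9) 
(.lf (nat_lit 201654317) (dlOf (nat_lit 1) (nat_lit 0x60018070801))) 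
(.lf (nat_lit 4496624173) (dlOf (nat_lit 1) (nat_lit 0x4002000200080e5182)))) 
(.lf (nat_lit 3959750957) (dlOf (nat_lit 1) (nat_lit 0x20018138401)))))) (.nd (nat_lit 10) 
(.nd (nat_lit 4) 
(.lf (nat_lit 2949165) (dlOf (nat_lit 3) (nat_lit 0xc0180002a020184000000080181e0900))) 
(.nd (nat_lit 21) 
(.lf (nat_lit 21823549) (dlOf (nat_lit 2) (nat_lit 0x8d916004bc380000f410005000800a800200580008a70703))) 
(.lf (nat_lit 11337789) (dlOf (nat_lit 12) (nat_lit 0x24f9e000160200127cf0000a8100063e7800048080049f3c0001c040010f9e0000d0200127cf000060100053e780002c080049f3c0020f96000060400087cf000028100063e7800010080051f3c00000040050004000c0018690e02))))) 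
(.nd (nat_lit 7) (.lf (nat_lit 537726509) (dlOf (nat_lit 1) (nat_lit 0x200180f7181))) 
(.nd (nat_lit 9) (.lf (nat_lit 32310445) (dlOf (nat_lit 1) (nat_lit 0x400200020008ef2c02))) 
(.lf (nat_lit 537726637) (dlOf (nat_lit 1) (nat_lit 0x23400280f7281))))))) (.nd (nat_lit 4) 
(.nd (nat_lit 26) (.nd (nat_lit 7) (.nd (nat_lit 8) 
(.lf (nat_lit 4026859565) (dlOf (nat_lit 2) (nat_lit 0x1ea02e00cd01680031c10042000801b800201c600080a0983))) 
(.lf (nat_lit 805634349) (dlOf (nat_lit 2) (nat_lit 0xc0000001d0200380018157a01)))) 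
(.lf (nat_lit 402981037) (dlOf (nat_lit 1) (nat_lit 0x1400180c1581)))) (.nd (nat_lit 29) 
(.nd (nat_lit 7) 
(.lf (nat_lit 2617573421) (dlOf (nat_lit 1) (nat_lit 0x980080024002001c0008100783))) 
(.lf (nat_lit 335872173) (dlOf (nat_lit 1) (nat_lit 0x1600180c1581)))) (.nd (nat_lit 9) 
(.lf (nat_lit 872742957) (dlOf (nat_lit 1) (nat_lit 0x4002000200080b0402))) 
(.lf (nat_lit 4096067117) (dlOf (nat_lit 1) (nat_lit 0x18002000e00080e3782)))))) (.nd (nat_lit 30) 
(.nd (nat_lit 7) (.nd (nat_lit 27) 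
(.lf (nat_lit 268763197) (dlOf (nat_lit 4) (nat_lit 0x14054001002900270140000806c0141810000c05200480280050582002301400282808022800800f000200080008131683))) 
(.lf (nat_lit 2550464573) (dlOf (nat_lit 1) (nat_lit 0x4004000200080c1402)))) 
(.lf (nat_lit 335872189) (dlOf (nat_lit 1) (nat_lit 0x4002000200080c1a02)))) (.nd (nat_lit 7) 
(.nd (nat_lit 8) 
(.lf (nat_lit 4026859581) (dlOf (nat_lit 3) (nat_lit 0x1c02e0000f01001e0170000700806280080260002022e00080a0c83))) 
(.lf (nat_lit 3557103421) (dlOf (nat_lit 3) (nat_lit 0x2500000008c0800800000003c0401c4002000a000812a102)))) 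
(.lf (nat_lit 3489995709) (dlOf (nat_lit 1) (nat_lit 0x6001800be01))))))) (.nd (nat_lit 24) 
(.nd (nat_lit 19) (.nd (nat_lit 8) (.nd (nat_lit 4) 
(.lf (nat_lit 16056365) (dlOf (nat_lit 1) (nat_lit 0x400400020008860802))) 
(.lf (nat_lit 1376317) (dlOf (nat_lit 2) (nat_lit 0x34a6e001a3ee0009d8280c0d00)))) (.nd (nat_lit 7) 
(.lf (nat_lit 11862317) (dlOf (nat_lit 1) (nat_lit 0xc00086c0501))) 
(.lf (nat_lit 49613229) (dlOf (nat_lit 1) (nat_lit 0x20019464e81))))) (.nd (nat_lit 7) 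
(.nd (nat_lit 9) (.nd (nat_lit 21) 
(.lf (nat_lit 10289197) (dlOf (nat_lit 1) (nat_lit 0x64002005600085c0c02))) 
(.lf (nat_lit 2755461165) (dlOf (nat_lit 2) (nat_lit 0x400f0000a8080030008000400200060008190903)))) 
(.lf (nat_lit 12386861) (dlOf (nat_lit 11) (nat_lit 0x137560009b2a0001f820006dd580016ca80006c080023756000fb2a0001a020008dd58002eca800054080017756000bb2a00011820008dd580008008003eeac0003a040023756000fb2a00006020007dd5800024080046eac000f6540000004000600286c0e81)))) 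
(.nd (nat_lit 4) (.lf (nat_lit 8193965) (dlOf (nat_lit 1) (nat_lit 0x4a0028514301))) 
(.lf (nat_lit 5773263037) (dlOf (nat_lit 1) (nat_lit 0x80080004002000200080c1703)))))) 
(.nd (nat_lit 9) (.nd (nat_lit 19) (.nd (nat_lit 4) (.nd (nat_lit 21) 
(.lf (nat_lit 30736429) (dlOf (nat_lit 3) (nat_lit 0x13a2800093a800005040003cb700000018e40e00))) 
(.lf (nat_lit 62193709) (dlOf (nat_lit 6) (nat_lit 0x1a194000b02700006c100008740002037e0014194000802700002c200040740002037e00161940006027000028200040740002037e00161940005027000024200038740002037e00161940002027000020200008008000400200020009970c83)))) 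
(.lf (nat_lit 20254013) (dlOf (nat_lit 1) (nat_lit 0x4800289d6901)))) (.nd (nat_lit 23) 
(.lf (nat_lit 18677805) (dlOf (nat_lit 2) (nat_lit 0x446f800090080110008012800200240008960a03))) 
(.lf (nat_lit 27066413) (dlOf (nat_lit 4) (nat_lit 0x568d20005f02006791d007ea348001741000f647403ef238019791a00cfc85807de3e003f710c00ef87f0001a34007dc7f8000a824009800401600018ca0682))))) 
(.nd (nat_lit 4) (.nd (nat_lit 7) 
(.lf (nat_lit 56429101) (dlOf (nat_lit 1) (nat_lit 0x3a0019735181))) 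
(.lf (nat_lit 20256429) (dlOf (nat_lit 1) (nat_lit 0x4002000200089da002)))) (.nd (nat_lit 7) 
(.lf (nat_lit 58526269) (dlOf (nat_lit 1) (nat_lit 0x200297e5201))) 
(.lf (nat_lit 20780733) (dlOf (nat_lit 1) (nat_lit 0x200189da001)))))))))) (.nd (nat_lit 4) 
(.nd (nat_lit 26) (.nd (nat_lit 10) (.nd (nat_lit 9) (.nd (nat_lit 16) (.nd (nat_lit 22) 
(.nd (nat_lit 19) (.nd (nat_lit 18) 
(.lf (nat_lit 5368709229) (dlOf (nat_lit 1) (nat_lit 0x20028000181))) 
(.lf (nat_lit 9699437) (dlOf (nat_lit 1) (nat_lit 0x560018570a81)))) (.nd (nat_lit 27) 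
(.lf (nat_lit 4027056237) (dlOf (nat_lit 2) (nat_lit 0x2030000060181c1500))) 
(.lf (nat_lit 134742125) (dlOf (nat_lit 2) (nat_lit 0x5f021803680fc00000080060004002200080a1502))))) 
(.nd (nat_lit 18) (.nd (nat_lit 7) 
(.lf (nat_lit 12583021) (dlOf (nat_lit 1) (nat_lit 0x200186d1501))) 
(.lf (nat_lit 1346371821) (dlOf (nat_lit 1) (nat_lit 0xc0008f60a81)))) (.nd (nat_lit 20) 
(.lf (nat_lit 63176813) (dlOf (nat_lit 1) (nat_lit 0x400299f2481))) 
(.lf (nat_lit 24379501) (dlOf (nat_lit 1) (nat_lit 0x100028b91501)))))) (.nd (nat_lit 8) 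
(.nd (nat_lit 21) (.nd (nat_lit 22) 
(.lf (nat_lit 4026859629) (dlOf (nat_lit 6) (nat_lit 0x901b000480d00001c08006406c00280340000682001901b000c80d00001808006006c002e0340000582000b01b000900d000140520000006002800180a1501))) 
(.lf (nat_lit 38076525) (dlOf (nat_lit 1) (nat_lit 0x10008000800200020009122483)))) 
(.lf (nat_lit 3492085869) (dlOf (nat_lit 1) (nat_lit 0x88004000800080a1502)))) (.nd (nat_lit 7) 
(.nd (nat_lit 19) (.lf (nat_lit 43057517) (dlOf (nat_lit 1) (nat_lit 0x2800292a0f81))) 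
(.lf (nat_lit 25756013) (dlOf (nat_lit 2) (nat_lit 0x470a80008c0800b8008004800200180008c10a03)))) 
(.lf (nat_lit 33098221) (dlOf (nat_lit 2) (nat_lit 0x4333800000080108008001800200040008f54f03)))))) 
(.nd (nat_lit 7) (.nd (nat_lit 28) (.nd (nat_lit 11) (.nd (nat_lit 27) 
(.lf (nat_lit 2684359533) (dlOf (nat_lit 1) (nat_lit 0x20028008f81))) 
(.lf (nat_lit 2281706349) (dlOf (nat_lit 1) (nat_lit 0x20028008f81)))) (.nd (nat_lit 16) 
(.lf (nat_lit 5368712045) (dlOf (nat_lit 1) (nat_lit 0x400400020008005c02))) 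
(.lf (nat_lit 46467949) (dlOf (nat_lit 1) (nat_lit 0x400400020009385c02))))) (.nd (nat_lit 16) 
(.nd (nat_lit 27) 
(.lf (nat_lit 6710889325) (dlOf (nat_lit 1) (nat_lit 0x8008000400200020008005c03))) 
(.lf (nat_lit 2013268845) (dlOf (nat_lit 1) (nat_lit 0x400400020008005c02)))) 
(.lf (nat_lit 4563471213) (dlOf (nat_lit 1) (nat_lit 0x8008000400200020008095c03))))) 
(.nd (nat_lit 8) (.nd (nat_lit 11) (.nd (nat_lit 28) 
(.lf (nat_lit 6039798509) (dlOf (nat_lit 1) (nat_lit 0x8008000400200020008002103))) 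
(.lf (nat_lit 4160750317) (dlOf (nat_lit 1) (nat_lit 0x800400020008002102)))) (.nd (nat_lit 16) 
(.lf (nat_lit 57412333) (dlOf (nat_lit 1) (nat_lit 0x8400200060009795a02))) 
(.lf (nat_lit 50399981) (dlOf (nat_lit 1) (nat_lit 0xc004000200094c5a02))))) (.nd (nat_lit 12) 
(.nd (nat_lit 19) (.lf (nat_lit 536871917) (dlOf (nat_lit 1) (nat_lit 0x20008002881))) 
(.lf (nat_lit 1344799725) (dlOf (nat_lit 2) (nat_lit 0x607300336018982880)))) 
(.lf (nat_lit 1342182381) (dlOf (nat_lit 1) (nat_lit 0x4c0028009201))))))) (.nd (nat_lit 28) 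
(.nd (nat_lit 11) (.nd (nat_lit 8) (.nd (nat_lit 12) 
(.lf (nat_lit 52758125) (dlOf (nat_lit 1) (nat_lit 0x20019573901))) (.nd (nat_lit 27) 
(.lf (nat_lit 2684360301) (dlOf (nat_lit 1) (nat_lit 0x440018009c81))) 
(.lf (nat_lit 2281707117) (dlOf (nat_lit 1) (nat_lit 0x40018009c81))))) (.nd (nat_lit 7) 
(.lf (nat_lit 50398573) (dlOf (nat_lit 1) (nat_lit 0xa00294c3481))) (.nd (nat_lit 19) 
(.lf (nat_lit 19994093) (dlOf (nat_lit 1) (nat_lit 0x200189d9c01))) 
(.lf (nat_lit 7935469) (dlOf (nat_lit 1) (nat_lit 0x280008519c01)))))) (.nd (nat_lit 18) 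
(.nd (nat_lit 7) (.nd (nat_lit 8) 
(.lf (nat_lit 134220909) (dlOf (nat_lit 1) (nat_lit 0x8008000400200020008006083))) 
(.lf (nat_lit 4294970733) (dlOf (nat_lit 1) (nat_lit 0x400400020008006b02)))) 
(.lf (nat_lit 19991789) (dlOf (nat_lit 1) (nat_lit 0x4002000200089d6502)))) (.nd (nat_lit 7) 
(.nd (nat_lit 8) 
(.lf (nat_lit 2818841709) (dlOf (nat_lit 2) (nat_lit 0x70350000a008011000800040020038000812c083))) 
(.lf (nat_lit 20188525) (dlOf (nat_lit 1) (nat_lit 0x200289d6b01)))) 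
(.lf (nat_lit 20188909) (dlOf (nat_lit 1) (nat_lit 0x4002000200089d7402)))))) (.nd (nat_lit 29) 
(.nd (nat_lit 27) (.nd (nat_lit 7) (.nd (nat_lit 8) 
(.lf (nat_lit 3489664109) (dlOf (nat_lit 1) (nat_lit 0x240028006081))) 
(.lf (nat_lit 1342180717) (dlOf (nat_lit 1) (nat_lit 0x400400020008006b02)))) 
(.lf (nat_lit 3489926381) (dlOf (nat_lit 1) (nat_lit 0x60028006501)))) (.nd (nat_lit 7) 
(.nd (nat_lit 8) (.lf (nat_lit 2550140013) (dlOf (nat_lit 1) (nat_lit 0x400400020008006082))) 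
(.lf (nat_lit 2550140269) (dlOf (nat_lit 1) (nat_lit 0x400400020008006b02)))) 
(.lf (nat_lit 1476400877) (dlOf (nat_lit 1) (nat_lit 0x1a001800a001))))) (.nd (nat_lit 11) 
(.nd (nat_lit 7) (.lf (nat_lit 2952795245) (dlOf (nat_lit 1) (nat_lit 0x400400020008009402))) 
(.lf (nat_lit 4026533613) (dlOf (nat_lit 1) (nat_lit 0x560018003b01)))) (.nd (nat_lit 8) 
(.lf (nat_lit 1879051373) (dlOf (nat_lit 1) (nat_lit 0x8008000400200020008006083))) 
(.lf (nat_lit 1879051629) (dlOf (nat_lit 1) (nat_lit 0x400400020008006b02)))))))) (.nd (nat_lit 28) 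
(.nd (nat_lit 29) (.nd (nat_lit 27) (.nd (nat_lit 7) (.nd (nat_lit 10) (.nd (nat_lit 16) 
(.lf (nat_lit 3288858733) (dlOf (nat_lit 2) (nat_lit 0x2030000060181c1500))) 
(.lf (nat_lit 3288662125) (dlOf (nat_lit 6) (nat_lit 0x901b000480d00001c08006406c00280340000682001901b000c80d00001808006006c002e0340000582000b01b000900d000140520000006002800180a1501)))) 
(.lf (nat_lit 3288337517) (dlOf (nat_lit 1) (nat_lit 0x8008000400200040008006083)))) 
(.nd (nat_lit 9) (.nd (nat_lit 11) 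
(.lf (nat_lit 67698925) (dlOf (nat_lit 1) (nat_lit 0x200282d0601))) 
(.lf (nat_lit 4362078445) (dlOf (nat_lit 1) (nat_lit 0x400400020008004b82)))) 
(.lf (nat_lit 67109613) (dlOf (nat_lit 1) (nat_lit 0x8008000400200020008002103))))) 
(.nd (nat_lit 9) (.nd (nat_lit 7) 
(.lf (nat_lit 201850989) (dlOf (nat_lit 2) (nat_lit 0x5f021803680fc00000080060004002200080a1502))) 
(.lf (nat_lit 201328877) (dlOf (nat_lit 1) (nat_lit 0x400400020008004b82)))) (.nd (nat_lit 10) 
(.nd (nat_lit 30) 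
(.lf (nat_lit 6643778285) (dlOf (nat_lit 1) (nat_lit 0x8008000400200020008002103))) 
(.lf (nat_lit 3422552813) (dlOf (nat_lit 1) (nat_lit 0x400400020008002102)))) 
(.lf (nat_lit 201328365) (dlOf (nat_lit 1) (nat_lit 0x580018003b01)))))) (.nd (nat_lit 16) 
(.nd (nat_lit 7) (.nd (nat_lit 8) 
(.lf (nat_lit 2885684333) (dlOf (nat_lit 1) (nat_lit 0x20018006081))) 
(.lf (nat_lit 5033167725) (dlOf (nat_lit 1) (nat_lit 0x400400020008005c02)))) (.nd (nat_lit 8) 
(.lf (nat_lit 2885945069) (dlOf (nat_lit 1) (nat_lit 0x8008001c002000a0008143b03))) 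
(.nd (nat_lit 9) (.lf (nat_lit 2752512493) (dlOf (nat_lit 1) (nat_lit 0x20028017d01))) 
(.lf (nat_lit 2751726573) (dlOf (nat_lit 1) (nat_lit 0x20018002881)))))) (.nd (nat_lit 7) 
(.nd (nat_lit 18) (.lf (nat_lit 3825270893) (dlOf (nat_lit 1) (nat_lit 0xac002002c00080b0002))) 
(.lf (nat_lit 2753888365) (dlOf (nat_lit 1) (nat_lit 0x88004000800080a1502)))) (.nd (nat_lit 8) 
(.nd (nat_lit 18) 
(.lf (nat_lit 1677787373) (dlOf (nat_lit 2) (nat_lit 0xe80a2007403a0004c028090480))) 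
(.lf (nat_lit 1678049517) (dlOf (nat_lit 1) (nat_lit 0x20018156e81)))) 
(.lf (nat_lit 2751792109) (dlOf (nat_lit 2) (nat_lit 0xc3f0014510200020018002881))))))) 
(.nd (nat_lit 8) (.nd (nat_lit 10) (.nd (nat_lit 9) (.nd (nat_lit 12) 
(.lf (nat_lit 3154706669) (dlOf (nat_lit 1) (nat_lit 0x80080018002002a0008310603))) 
(.lf (nat_lit 3557036269) (dlOf (nat_lit 1) (nat_lit 0x40028128081)))) (.nd (nat_lit 11) 
(.nd (nat_lit 12) (.lf (nat_lit 2617311981) (dlOf (nat_lit 1) (nat_lit 0x4004000200080a2102))) 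
(.lf (nat_lit 3557036781) (dlOf (nat_lit 1) (nat_lit 0x18004004e0008128e02)))) 
(.lf (nat_lit 4094167789) (dlOf (nat_lit 2) (nat_lit 0x24013000700180178000000500c00b000400020018005a02))))) 
(.nd (nat_lit 30) (.nd (nat_lit 7) 
(.lf (nat_lit 2483031149) (dlOf (nat_lit 1) (nat_lit 0x400400020008006082))) 
(.lf (nat_lit 2483031277) (dlOf (nat_lit 1) (nat_lit 0x400400020008006502)))) (.nd (nat_lit 16) 
(.nd (nat_lit 29) 
(.lf (nat_lit 1409289325) (dlOf (nat_lit 1) (nat_lit 0x8008000400200020008006083))) 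
(.lf (nat_lit 1946160237) (dlOf (nat_lit 1) (nat_lit 0x8008000400200020008006083)))) 
(.lf (nat_lit 1543572589) (dlOf (nat_lit 1) (nat_lit 0x8008000400200040008146083)))))) 
(.nd (nat_lit 7) (.nd (nat_lit 9) (.nd (nat_lit 12) (.nd (nat_lit 27) 
(.lf (nat_lit 1946160493) (dlOf (nat_lit 1) (nat_lit 0x400400020008006b02))) 
(.lf (nat_lit 4227861869) (dlOf (nat_lit 1) (nat_lit 0x400400020008006b02)))) 
(.lf (nat_lit 4227865965) (dlOf (nat_lit 1) (nat_lit 0x1b800800780020004000800c903)))) 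
(.nd (nat_lit 29) (.lf (nat_lit 4764732269) (dlOf (nat_lit 1) (nat_lit 0x400400020008005c02))) 
(.lf (nat_lit 5301603181) (dlOf (nat_lit 1) (nat_lit 0x400400020008005c02))))) (.nd (nat_lit 9) 
(.nd (nat_lit 10) (.lf (nat_lit 2080440813) (dlOf (nat_lit 1) (nat_lit 0x800400280008091382))) 
(.nd (nat_lit 11) (.lf (nat_lit 6375867885) (dlOf (nat_lit 1) (nat_lit 0x140028003601))) 
(.lf (nat_lit 4227861997) (dlOf (nat_lit 1) (nat_lit 0x400400020008006f02))))) (.nd (nat_lit 12) 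
(.lf (nat_lit 4093707245) (dlOf (nat_lit 1) (nat_lit 0x40008002881))) 
(.lf (nat_lit 469767149) (dlOf (nat_lit 1) (nat_lit 0x480028009201))))))))) (.nd (nat_lit 10) 
(.nd (nat_lit 18) (.nd (nat_lit 27) (.nd (nat_lit 8) (.nd (nat_lit 9) (.nd (nat_lit 16) 
(.nd (nat_lit 21) (.lf (nat_lit 1409810557) (dlOf (nat_lit 1) (nat_lit 0x60028090081))) 
(.lf (nat_lit 23593085) (dlOf (nat_lit 2) (nat_lit 0x6d97e001fa0200020028b80081)))) 
(.lf (nat_lit 2753626237) (dlOf (nat_lit 2) (nat_lit 0x160078002a4040004004000a0018090082)))) 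
(.nd (nat_lit 7) (.nd (nat_lit 28) 
(.lf (nat_lit 5368711805) (dlOf (nat_lit 1) (nat_lit 0x48008004800200060008005403))) 
(.lf (nat_lit 6710889085) (dlOf (nat_lit 1) (nat_lit 0x400200020008005402)))) 
(.lf (nat_lit 1880623869) (dlOf (nat_lit 1) (nat_lit 0x40018b05a81))))) (.nd (nat_lit 7) 
(.nd (nat_lit 12) (.nd (nat_lit 19) 
(.lf (nat_lit 5368711549) (dlOf (nat_lit 1) (nat_lit 0x20008002800200120008004e83))) 
(.lf (nat_lit 3490187645) (dlOf (nat_lit 1) (nat_lit 0x20018004e81)))) 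
(.lf (nat_lit 4362082685) (dlOf (nat_lit 1) (nat_lit 0x40040002000800af02)))) (.nd (nat_lit 26) 
(.lf (nat_lit 5637145597) (dlOf (nat_lit 1) (nat_lit 0x400400020008002882))) 
(.lf (nat_lit 3825206269) (dlOf (nat_lit 1) (nat_lit 0x20018002881)))))) (.nd (nat_lit 29) 
(.nd (nat_lit 12) (.nd (nat_lit 7) (.nd (nat_lit 8) 
(.lf (nat_lit 1208027773) (dlOf (nat_lit 1) (nat_lit 0x20028095401))) 
(.lf (nat_lit 1476921725) (dlOf (nat_lit 1) (nat_lit 0x400182d4e81)))) 
(.lf (nat_lit 4429251069) (dlOf (nat_lit 1) (nat_lit 0x3000400100008017e02)))) (.nd (nat_lit 8) 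
(.lf (nat_lit 1476401277) (dlOf (nat_lit 1) (nat_lit 0x8000800a881))) (.nd (nat_lit 26) 
(.lf (nat_lit 4429191549) (dlOf (nat_lit 1) (nat_lit 0x40040002000800af02))) 
(.lf (nat_lit 469768573) (dlOf (nat_lit 1) (nat_lit 0x2000800af01)))))) (.nd (nat_lit 7) 
(.nd (nat_lit 8) (.nd (nat_lit 16) 
(.lf (nat_lit 5301602941) (dlOf (nat_lit 2) (nat_lit 0x7009800100080028008001800200160008005403))) 
(.lf (nat_lit 6376458877) (dlOf (nat_lit 1) (nat_lit 0x400400020018095402)))) 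
(.lf (nat_lit 4227931005) (dlOf (nat_lit 1) (nat_lit 0x1e001800bc81)))) (.nd (nat_lit 9) 
(.nd (nat_lit 21) (.lf (nat_lit 1744896253) (dlOf (nat_lit 1) (nat_lit 0x400400020008090a82))) 
(.lf (nat_lit 1008795901) (dlOf (nat_lit 1) (nat_lit 0x60028f82901)))) 
(.lf (nat_lit 3892382461) (dlOf (nat_lit 2) (nat_lit 0x4023800074080010008000c00200060008105a83))))))) 
(.nd (nat_lit 8) (.nd (nat_lit 16) (.nd (nat_lit 26) (.nd (nat_lit 9) (.nd (nat_lit 11) 
(.lf (nat_lit 3491496061) (dlOf (nat_lit 2) (nat_lit 0x5808a000ae018090080))) 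
(.lf (nat_lit 135006333) (dlOf (nat_lit 1) (nat_lit 0x14400080f4781)))) 
(.lf (nat_lit 5100538493) (dlOf (nat_lit 3) (nat_lit 0x10190001140800200a80007004000c004000c00180d5402)))) 
(.nd (nat_lit 9) (.nd (nat_lit 11) 
(.lf (nat_lit 5301862525) (dlOf (nat_lit 2) (nat_lit 0x8300440006a040010004001a00080c0d02))) 
(.lf (nat_lit 4228647037) (dlOf (nat_lit 1) (nat_lit 0x800200040008114782)))) 
(.lf (nat_lit 6376131197) (dlOf (nat_lit 2) (nat_lit 0x1c011000000080140008003000200180008095403))))) 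
(.nd (nat_lit 28) (.nd (nat_lit 19) 
(.lf (nat_lit 11862141) (dlOf (nat_lit 2) (nat_lit 0x2f1358008080800600080018002001600086c0083))) 
(.nd (nat_lit 26) 
(.lf (nat_lit 1900669) (dlOf (nat_lit 2) (nat_lit 0x2553000930080060008005800200380008150083))) 
(.lf (nat_lit 2753364093) (dlOf (nat_lit 2) (nat_lit 0x58087000a9018090080))))) (.nd (nat_lit 11) 
(.nd (nat_lit 19) (.lf (nat_lit 402980989) (dlOf (nat_lit 1) (nat_lit 0xc00180c0d01))) 
(.lf (nat_lit 3491561597) (dlOf (nat_lit 2) (nat_lit 0x170228002b804001c00200080008090082)))) 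
(.lf (nat_lit 1410140285) (dlOf (nat_lit 1) (nat_lit 0x80080004002000200080f4783)))))) 
(.nd (nat_lit 11) (.nd (nat_lit 26) (.nd (nat_lit 7) (.nd (nat_lit 28) 
(.lf (nat_lit 5905842557) (dlOf (nat_lit 1) (nat_lit 0x3b400401f80008155a82))) 
(.lf (nat_lit 4026794365) (dlOf (nat_lit 6) (nat_lit 0x601b000400d00376408001406c000603400dd882001101b000900d00376008003806c002003400dd782000701b0000000800c800800b400200300008090783)))) 
(.lf (nat_lit 23396861) (dlOf (nat_lit 2) (nat_lit 0xd916000a5018b80d80)))) (.nd (nat_lit 30) 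
(.lf (nat_lit 6509822333) (dlOf (nat_lit 1) (nat_lit 0x3b400401f80008155a82))) 
(.lf (nat_lit 3288596861) (dlOf (nat_lit 7) (nat_lit 0x603600c2c81000301b005f880801680b800e9004001005c0074702000e02e003a301001401b0000000804c8008000400200160008090783))))) 
(.nd (nat_lit 9) (.nd (nat_lit 28) (.nd (nat_lit 19) 
(.lf (nat_lit 5570300285) (dlOf (nat_lit 1) (nat_lit 0x4004000200080d4e82))) 
(.lf (nat_lit 57411965) (dlOf (nat_lit 1) (nat_lit 0x48008006c00200080009794e83)))) 
(.nd (nat_lit 16) (.lf (nat_lit 6308497789) (dlOf (nat_lit 1) (nat_lit 0x4004000200080d4e82))) 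
(.lf (nat_lit 3624208765) (dlOf (nat_lit 1) (nat_lit 0x20018144e81))))) (.nd (nat_lit 7) 
(.nd (nat_lit 19) (.lf (nat_lit 46467965) (dlOf (nat_lit 1) (nat_lit 0x180019385c01))) 
(.lf (nat_lit 54332285) (dlOf (nat_lit 1) (nat_lit 0x800400040009655c02)))) 
(.lf (nat_lit 5570300925) (dlOf (nat_lit 1) (nat_lit 0x28008000c002000600080d5f03)))))))) 
(.nd (nat_lit 16) (.nd (nat_lit 18) (.nd (nat_lit 27) (.nd (nat_lit 9) (.nd (nat_lit 26) 
(.lf (nat_lit 3489664381) (dlOf (nat_lit 1) (nat_lit 0x40028006c01))) (.nd (nat_lit 28) 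
(.lf (nat_lit 3288337789) (dlOf (nat_lit 2) (nat_lit 0x1203500090188000ec1000a8008003400200080008006c03))) 
(.lf (nat_lit 2483031421) (dlOf (nat_lit 1) (nat_lit 0xc004000e0018006c02))))) (.nd (nat_lit 12) 
(.nd (nat_lit 7) (.lf (nat_lit 536872829) (dlOf (nat_lit 1) (nat_lit 0x400200020008004102))) 
(.lf (nat_lit 4362078205) (dlOf (nat_lit 1) (nat_lit 0x400400020008004702)))) (.nd (nat_lit 8) 
(.lf (nat_lit 2214598269) (dlOf (nat_lit 1) (nat_lit 0x20028009d81))) 
(.lf (nat_lit 8394621) (dlOf (nat_lit 1) (nat_lit 0x80020002000851a302)))))) (.nd (nat_lit 7) 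
(.nd (nat_lit 8) 
(.lf (nat_lit 1744832125) (dlOf (nat_lit 4) (nat_lit 0xc0070000540200100380001681001a01c00005c080008008001800200060008003983))) 
(.lf (nat_lit 3690993021) (dlOf (nat_lit 1) (nat_lit 0x50008000400200020008009903)))) 
(.nd (nat_lit 8) 
(.lf (nat_lit 201328381) (dlOf (nat_lit 2) (nat_lit 0x702080011c080028008002800200040008003b83))) 
(.nd (nat_lit 12) 
(.lf (nat_lit 469764093) (dlOf (nat_lit 1) (nat_lit 0x8008000400200020008004703))) 
(.lf (nat_lit 1543510013) (dlOf (nat_lit 1) (nat_lit 0x2240040266000800a602))))))) (.nd (nat_lit 8) 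
(.nd (nat_lit 26) (.nd (nat_lit 23) 
(.lf (nat_lit 5637408381) (dlOf (nat_lit 3) (nat_lit 0xa1012801c0060000140801940240000002000c00180d3981))) 
(.lf (nat_lit 8652413) (dlOf (nat_lit 1) (nat_lit 0x400400020008513982)))) (.nd (nat_lit 7) 
(.nd (nat_lit 27) (.lf (nat_lit 5167646333) (dlOf (nat_lit 2) (nat_lit 0x6013000000180d3980))) 
(.lf (nat_lit 6375605885) (dlOf (nat_lit 1) (nat_lit 0x8008001000200020008003983)))) 
(.lf (nat_lit 67900669) (dlOf (nat_lit 1) (nat_lit 0xfc0018339581))))) (.nd (nat_lit 9) 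
(.nd (nat_lit 19) (.nd (nat_lit 11) 
(.lf (nat_lit 5637408125) (dlOf (nat_lit 1) (nat_lit 0x4004000200080d3582))) 
(.lf (nat_lit 3489926525) (dlOf (nat_lit 1) (nat_lit 0x1000200020008006c02)))) (.nd (nat_lit 20) 
(.lf (nat_lit 61605245) (dlOf (nat_lit 1) (nat_lit 0x20029923581))) 
(.lf (nat_lit 43779453) (dlOf (nat_lit 1) (nat_lit 0x5800092a3581))))) (.nd (nat_lit 20) 
(.lf (nat_lit 67901309) (dlOf (nat_lit 1) (nat_lit 0x8001833a301))) 
(.lf (nat_lit 8132477) (dlOf (nat_lit 1) (nat_lit 0x800800040020002000851a303))))))) 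
(.nd (nat_lit 8) (.nd (nat_lit 12) (.nd (nat_lit 18) (.nd (nat_lit 19) 
(.lf (nat_lit 4966123133) (dlOf (nat_lit 2) (nat_lit 0x13c036000350200100018003981))) 
(.lf (nat_lit 43583101) (dlOf (nat_lit 2) (nat_lit 0x164ab000168192a3980)))) (.nd (nat_lit 23) 
(.lf (nat_lit 53282429) (dlOf (nat_lit 1) (nat_lit 0x260019573981))) 
(.lf (nat_lit 61671037) (dlOf (nat_lit 2) (nat_lit 0x10b98800859bc0042be6002019400100270000b4280018008000c00200020009923983))))) 
(.nd (nat_lit 20) (.nd (nat_lit 28) 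
(.lf (nat_lit 6039868541) (dlOf (nat_lit 1) (nat_lit 0x160018009501))) 
(.lf (nat_lit 4160820349) (dlOf (nat_lit 1) (nat_lit 0x120018009501)))) (.nd (nat_lit 7) 
(.lf (nat_lit 19994237) (dlOf (nat_lit 1) (nat_lit 0x400289d9d81))) 
(.lf (nat_lit 19995901) (dlOf (nat_lit 1) (nat_lit 0x400189dc601)))))) (.nd (nat_lit 9) 
(.nd (nat_lit 11) (.nd (nat_lit 7) 
(.lf (nat_lit 6375671165) (dlOf (nat_lit 1) (nat_lit 0xa0008005400200220008003583))) 
(.lf (nat_lit 43320829) (dlOf (nat_lit 1) (nat_lit 0x20004000200192a3682)))) (.nd (nat_lit 12) 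
(.nd (nat_lit 20) (.lf (nat_lit 1409355133) (dlOf (nat_lit 1) (nat_lit 0xc00200040008006c02))) 
(.lf (nat_lit 19991933) (dlOf (nat_lit 2) (nat_lit 0x40d4400076040014004007600189d6c02)))) 
(.lf (nat_lit 2483101053) (dlOf (nat_lit 2) (nat_lit 0x4004000bd80400c0004002e000800c902))))) 
(.nd (nat_lit 12) (.nd (nat_lit 26) (.nd (nat_lit 7) 
(.lf (nat_lit 536938365) (dlOf (nat_lit 1) (nat_lit 0x400200020008004102))) 
(.lf (nat_lit 1342246909) (dlOf (nat_lit 1) (nat_lit 0x8008002000200040008007a83)))) 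
(.nd (nat_lit 18) 
(.lf (nat_lit 4362143613) (dlOf (nat_lit 1) (nat_lit 0x30008003c00200140008004103))) 
(.lf (nat_lit 2751793021) (dlOf (nat_lit 1) (nat_lit 0x20008004101))))) (.nd (nat_lit 18) 
(.lf (nat_lit 8460157) (dlOf (nat_lit 1) (nat_lit 0x900080004002000c000851a303))) 
(.lf (nat_lit 8198013) (dlOf (nat_lit 1) (nat_lit 0x80020002000851a302))))))))))) (.nd (nat_lit 4) 
(.nd (nat_lit 18) (.nd (nat_lit 7) (.nd (nat_lit 19) (.nd (nat_lit 16) (.nd (nat_lit 26) 
(.nd (nat_lit 22) (.nd (nat_lit 27) (.nd (nat_lit 9) 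
(.lf (nat_lit 3490742317) (dlOf (nat_lit 3) (nat_lit 0x4f07b4000400402303da0001b0200020028020581))) 
(.lf (nat_lit 4563437101) (dlOf (nat_lit 1) (nat_lit 0xc0018003781)))) (.nd (nat_lit 11) 
(.lf (nat_lit 1744864813) (dlOf (nat_lit 1) (nat_lit 0x20018003781))) 
(.lf (nat_lit 671125037) (dlOf (nat_lit 5) (nat_lit 0x804c00020180001000000160180010098002803a0040018000900800060014002000400160000002b8700120028001480800580400000004000800400100018007182))))) 
(.nd (nat_lit 20) (.nd (nat_lit 21) 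
(.lf (nat_lit 3493888045) (dlOf (nat_lit 2) (nat_lit 0x402be007ab02000600181b0001))) 
(.lf (nat_lit 14712877) (dlOf (nat_lit 1) (nat_lit 0x980080054002004a0008770403)))) 
(.nd (nat_lit 24) (.lf (nat_lit 13664301) (dlOf (nat_lit 1) (nat_lit 0x400400020008740602))) 
(.lf (nat_lit 30441517) (dlOf (nat_lit 1) (nat_lit 0x2120008e30001)))))) (.nd (nat_lit 6) 
(.nd (nat_lit 9) (.nd (nat_lit 8) 
(.lf (nat_lit 2752544813) (dlOf (nat_lit 3) (nat_lit 0x4f07fc000400402303fe0001b0200020028020581))) 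
(.lf (nat_lit 201365805) (dlOf (nat_lit 4) (nat_lit 0x9c094001f102004e04a00270230007b4100138128003d6040010004000a000800ab82)))) 
(.nd (nat_lit 11) (.lf (nat_lit 738231853) (dlOf (nat_lit 1) (nat_lit 0x720008003781))) 
(.lf (nat_lit 2754645549) (dlOf (nat_lit 1) (nat_lit 0x400080018002001000080f7183))))) 
(.nd (nat_lit 8) (.nd (nat_lit 10) 
(.lf (nat_lit 604017261) (dlOf (nat_lit 1) (nat_lit 0x40008008981))) 
(.lf (nat_lit 67147373) (dlOf (nat_lit 1) (nat_lit 0x30008003800200080008009c83)))) 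
(.nd (nat_lit 10) (.lf (nat_lit 5167418221) (dlOf (nat_lit 1) (nat_lit 0x400400020008055c02))) 
(.lf (nat_lit 469796717) (dlOf (nat_lit 1) (nat_lit 0x800400200008004002))))))) (.nd (nat_lit 8) 
(.nd (nat_lit 20) (.nd (nat_lit 11) (.nd (nat_lit 22) 
(.lf (nat_lit 27361325) (dlOf (nat_lit 1) (nat_lit 0x20018cd0801))) 
(.lf (nat_lit 23167021) (dlOf (nat_lit 2) (nat_lit 0x78b0800008018b60900)))) (.nd (nat_lit 6) 
(.lf (nat_lit 6442555949) (dlOf (nat_lit 1) (nat_lit 0x800180fb301))) 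
(.lf (nat_lit 5838572653) (dlOf (nat_lit 1) (nat_lit 0x80080004002000200080f6083))))) 
(.nd (nat_lit 23) (.nd (nat_lit 26) 
(.lf (nat_lit 3490807853) (dlOf (nat_lit 3) (nat_lit 0x2187b402182b0000200400e01ed00810ac00006c1000d000800b8002004a0008020583))) 
(.lf (nat_lit 2752610349) (dlOf (nat_lit 3) (nat_lit 0x2187fc02182ba000200400e01ff00810ae80006c1000d000800b8002004a0008020583)))) 
(.nd (nat_lit 21) (.lf (nat_lit 13729837) (dlOf (nat_lit 1) (nat_lit 0x100018740601))) 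
(.lf (nat_lit 28409901) (dlOf (nat_lit 2) (nat_lit 0x46c2000090080110008012800200240008d90a03)))))) 
(.nd (nat_lit 6) (.nd (nat_lit 11) (.nd (nat_lit 21) 
(.lf (nat_lit 2952888621) (dlOf (nat_lit 1) (nat_lit 0x20008010701))) 
(.lf (nat_lit 2195757) (dlOf (nat_lit 1) (nat_lit 0x400400020018150502)))) 
(.lf (nat_lit 6442555693) (dlOf (nat_lit 1) (nat_lit 0x100080004002000200080fab83)))) 
(.nd (nat_lit 10) 
(.lf (nat_lit 4697719149) (dlOf (nat_lit 9) (nat_lit 0x400d00002a0400dc068000401f0000a02004701a00004c0800b00d00002404003c0680016032001000f8000141800500d00024064001601f0000203000e01a000600c8001803e0000306000c034000c0190004007c000040c000400400840018090f82))) 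
(.lf (nat_lit 134319469) (dlOf (nat_lit 1) (nat_lit 0x8008006400200140008006b03))))))) 
(.nd (nat_lit 16) (.nd (nat_lit 22) (.nd (nat_lit 28) (.nd (nat_lit 29) (.nd (nat_lit 20) 
(.nd (nat_lit 21) (.lf (nat_lit 1074298925) (dlOf (nat_lit 2) (nat_lit 0x2000006bf0181b0000))) 
(.lf (nat_lit 2654253) (dlOf (nat_lit 2) (nat_lit 0xb80000002804016c00200020008180d82)))) 
(.lf (nat_lit 9994285) (dlOf (nat_lit 7) (nat_lit 0x121f00000580400732da000280200cd96d004dc9700311bcc0004a0c002b4180000c020061a0c000058100070000000280801b80080074002005c00085a0d03)))) 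
(.nd (nat_lit 26) 
(.lf (nat_lit 2819129389) (dlOf (nat_lit 5) (nat_lit 0x60230000a80800081140004804001408a0002202001005700030230000841001700080048002005c00081a0683))) 
(.lf (nat_lit 1678278701) (dlOf (nat_lit 1) (nat_lit 0x14002001a00081d0d82))))) (.nd (nat_lit 8) 
(.nd (nat_lit 21) (.lf (nat_lit 805863469) (dlOf (nat_lit 1) (nat_lit 0x14002001a00081d0d82))) 
(.lf (nat_lit 3492315181) (dlOf (nat_lit 2) (nat_lit 0x421e500390a98000741000d00080034002003000080c0d83)))) 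
(.nd (nat_lit 26) 
(.lf (nat_lit 1342734637) (dlOf (nat_lit 9) (nat_lit 0x3e22600191070016068c000e40c00683460006f0200161f3000308100290b88001780801985c4000ba04008c2e20005b02004e1710002d01000911180010808016000801ec002004c00080c0503))) 
(.lf (nat_lit 470319405) (dlOf (nat_lit 9) (nat_lit 0x3e2260019106001606cc000e40c00683660006f0200161f2000350100290b98001780801985cc000ba04008c2e60005b02004e1730002d01000910f80012c08016000801ec002004c00080c0503)))))) 
(.nd (nat_lit 24) (.nd (nat_lit 21) (.nd (nat_lit 26) 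
(.lf (nat_lit 4751405) (dlOf (nat_lit 1) (nat_lit 0x100080008002000600082b0403))) 
(.lf (nat_lit 474513453) (dlOf (nat_lit 1) (nat_lit 0x80080004002000200091a0283)))) 
(.lf (nat_lit 15237165) (dlOf (nat_lit 8) (nat_lit 0x300000005f0200301ab00420d2804e0000000ba0c008c000000590200780000002c01002000000015c0805d97d40184356018e1a700e70d280770000000a81401a834e00c41a50088000000108180020008047c002000c00087c0683)))) 
(.nd (nat_lit 20) (.nd (nat_lit 25) 
(.lf (nat_lit 21528621) (dlOf (nat_lit 1) (nat_lit 0x20018a40381))) 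
(.lf (nat_lit 55083053) (dlOf (nat_lit 8) (nat_lit 0x7262000092e80003608000498c002c4bc0004253800112540003210004898c002a4bc000c253800112540003010002498c00164c4000925d00002c1800393180001404002098800024a500004820002262000492e800010080078004000a00196a0c82)))) 
(.lf (nat_lit 24674349) (dlOf (nat_lit 2) (nat_lit 0xad2a000160200180018bb0d81)))))) 
(.nd (nat_lit 21) (.nd (nat_lit 26) (.nd (nat_lit 27) 
(.lf (nat_lit 3221848109) (dlOf (nat_lit 1) (nat_lit 0x180080038002000a00081a0d83))) 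
(.lf (nat_lit 3892936749) (dlOf (nat_lit 4) (nat_lit 0x4400000055020030020000b00f80110064008803000031080002036000a00f8005006400280300002f08000e00182a0b01)))) 
(.nd (nat_lit 20) (.lf (nat_lit 3557392429) (dlOf (nat_lit 1) (nat_lit 0x10a00281e0881))) 
(.lf (nat_lit 471433261) (dlOf (nat_lit 1) (nat_lit 0x200082f0e01))))) (.nd (nat_lit 20) 
(.nd (nat_lit 25) (.lf (nat_lit 3492380717) (dlOf (nat_lit 1) (nat_lit 0x600280c0d81))) 
(.lf (nat_lit 36274221) (dlOf (nat_lit 1) (nat_lit 0x30008002400200280009060983)))) 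
(.nd (nat_lit 9) 
(.lf (nat_lit 24739885) (dlOf (nat_lit 4) (nat_lit 0x1ed2a0001602000d69500002810005b4a800010080008008001000200100008bb0d83))) 
(.lf (nat_lit 20548141) (dlOf (nat_lit 2) (nat_lit 0x1f078001e802000e00089d5181)))))))) 
(.nd (nat_lit 9) (.nd (nat_lit 11) (.nd (nat_lit 12) (.nd (nat_lit 6) (.nd (nat_lit 8) 
(.lf (nat_lit 402751661) (dlOf (nat_lit 1) (nat_lit 0x24004000c0008090602))) 
(.lf (nat_lit 4026630573) (dlOf (nat_lit 2) (nat_lit 0xa036000d0158029181000f0008004400200120008017183)))) 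
(.nd (nat_lit 10) (.nd (nat_lit 26) 
(.lf (nat_lit 3491332589) (dlOf (nat_lit 1) (nat_lit 0x40008090d01))) 
(.lf (nat_lit 2753135085) (dlOf (nat_lit 1) (nat_lit 0x40008090d01)))) 
(.lf (nat_lit 1345422829) (dlOf (nat_lit 2) (nat_lit 0x70b28006c8080030008003c002000c0008bb3603))))) 
(.nd (nat_lit 6) (.nd (nat_lit 16) 
(.lf (nat_lit 3355481261) (dlOf (nat_lit 2) (nat_lit 0x2280140104008006e00300ea0000019e4200098008001000200180008009503))) 
(.lf (nat_lit 20550829) (dlOf (nat_lit 2) (nat_lit 0x38030033c8189d9500)))) (.nd (nat_lit 16) 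
(.lf (nat_lit 2281739757) (dlOf (nat_lit 1) (nat_lit 0x20018009c01))) (.nd (nat_lit 19) 
(.lf (nat_lit 3355547117) (dlOf (nat_lit 1) (nat_lit 0x70008002c002001000080a9c03))) 
(.lf (nat_lit 7968237) (dlOf (nat_lit 1) (nat_lit 0xc20008519c01))))))) (.nd (nat_lit 16) 
(.nd (nat_lit 6) (.nd (nat_lit 20) (.nd (nat_lit 23) 
(.lf (nat_lit 2818607533) (dlOf (nat_lit 1) (nat_lit 0x20008004e81))) 
(.lf (nat_lit 58755501) (dlOf (nat_lit 1) (nat_lit 0x4002000200097e4e82)))) 
(.lf (nat_lit 2754644397) (dlOf (nat_lit 1) (nat_lit 0x200180f4e81)))) (.nd (nat_lit 8) 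
(.lf (nat_lit 2550172909) (dlOf (nat_lit 1) (nat_lit 0x20018006501))) 
(.lf (nat_lit 37259757) (dlOf (nat_lit 1) (nat_lit 0x200190d4f01))))) (.nd (nat_lit 8) 
(.nd (nat_lit 6) (.nd (nat_lit 20) 
(.lf (nat_lit 939624621) (dlOf (nat_lit 1) (nat_lit 0x20018144901))) 
(.lf (nat_lit 3492907181) (dlOf (nat_lit 1) (nat_lit 0x4200280f4901)))) 
(.lf (nat_lit 1812040941) (dlOf (nat_lit 1) (nat_lit 0x60018146501)))) (.nd (nat_lit 10) 
(.lf (nat_lit 1946257837) (dlOf (nat_lit 1) (nat_lit 0x5a0028004e81))) 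
(.lf (nat_lit 5838577069) (dlOf (nat_lit 1) (nat_lit 0x600180fcc01))))))) (.nd (nat_lit 6) 
(.nd (nat_lit 8) (.nd (nat_lit 10) (.nd (nat_lit 26) 
(.lf (nat_lit 5368744621) (dlOf (nat_lit 2) (nat_lit 0x62009000048080270008018c00200100008005683))) 
(.lf (nat_lit 5167418029) (dlOf (nat_lit 1) (nat_lit 0x40028055681)))) (.nd (nat_lit 20) 
(.nd (nat_lit 26) (.lf (nat_lit 1342213805) (dlOf (nat_lit 1) (nat_lit 0x1000200060008007282))) 
(.lf (nat_lit 4227894957) (dlOf (nat_lit 2) (nat_lit 0xe04f00005018007280)))) 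
(.lf (nat_lit 2754645677) (dlOf (nat_lit 1) (nat_lit 0x2c004000200080f7282))))) (.nd (nat_lit 10) 
(.nd (nat_lit 26) (.nd (nat_lit 28) 
(.lf (nat_lit 5368744877) (dlOf (nat_lit 5) (nat_lit 0x402a0003f0200020150001b01001500a80108050003000a0000f060030015002300a000000100090008003000200100008005d03))) 
(.lf (nat_lit 6710922157) (dlOf (nat_lit 3) (nat_lit 0x800b0004805400580280000e060012016000a00a800000100080008000400200460008005d03)))) 
(.lf (nat_lit 4764765101) (dlOf (nat_lit 3) (nat_lit 0xa01600020028000601000380100000004000400400120008005d02)))) 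
(.nd (nat_lit 27) (.lf (nat_lit 4362110893) (dlOf (nat_lit 1) (nat_lit 0xa0008004301))) 
(.lf (nat_lit 469796781) (dlOf (nat_lit 1) (nat_lit 0x4004000a0008004302)))))) (.nd (nat_lit 16) 
(.nd (nat_lit 8) (.nd (nat_lit 19) 
(.lf (nat_lit 5570071277) (dlOf (nat_lit 3) (nat_lit 0x50028000540400240320001002003a0018005a01))) 
(.lf (nat_lit 6377999085) (dlOf (nat_lit 1) (nat_lit 0x800180e5a01)))) (.nd (nat_lit 10) 
(.nd (nat_lit 26) (.lf (nat_lit 1073775597) (dlOf (nat_lit 1) (nat_lit 0x58004000e0008002882))) 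
(.lf (nat_lit 4362109933) (dlOf (nat_lit 1) (nat_lit 0x400400020018002882)))) 
(.lf (nat_lit 4362110957) (dlOf (nat_lit 1) (nat_lit 0x580018004601))))) (.nd (nat_lit 8) 
(.nd (nat_lit 10) 
(.lf (nat_lit 3556870893) (dlOf (nat_lit 2) (nat_lit 0x330000000300800180080058002000e00080d5a03))) 
(.lf (nat_lit 3087107821) (dlOf (nat_lit 1) (nat_lit 0x28008000400200080008143b03)))) 
(.nd (nat_lit 19) 
(.lf (nat_lit 4697719789) (dlOf (nat_lit 2) (nat_lit 0x201a002520080090008003400200120008092883))) 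
(.nd (nat_lit 20) (.lf (nat_lit 1611236333) (dlOf (nat_lit 1) (nat_lit 0x240018122881))) 
(.lf (nat_lit 49906669) (dlOf (nat_lit 1) (nat_lit 0x80080004002000200094c2883)))))))))) 
(.nd (nat_lit 16) (.nd (nat_lit 26) (.nd (nat_lit 7) (.nd (nat_lit 27) (.nd (nat_lit 19) 
(.nd (nat_lit 29) (.nd (nat_lit 9) (.nd (nat_lit 20) 
(.lf (nat_lit 44335149) (dlOf (nat_lit 6) (nat_lit 0x2263e001331380006c1000498f80024c4e003c60f00072dc00002c2000518f80030c4e003060f000a2dc0000282000598f80034c4e003060f00032dc0000242000518f80034c4e003660f000a2dc0000202000100080038002000200092f0c83))) 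
(.lf (nat_lit 30703661) (dlOf (nat_lit 8) (nat_lit 0x4b2360047740003aad60001c81800a56b0000de04006eb580006e0203475ad0000b010072ad68000440800256b40000a04007f23802f35ad0013ad6000000180118008000400200100008e40e03)))) 
(.lf (nat_lit 3221520941) (dlOf (nat_lit 3) (nat_lit 0x1c0000000900801180000004004009800400520008128002)))) 
(.nd (nat_lit 6) (.nd (nat_lit 9) 
(.lf (nat_lit 2684649517) (dlOf (nat_lit 2) (nat_lit 0x500ec0369604001400400040008100782))) 
(.lf (nat_lit 4026827309) (dlOf (nat_lit 5) (nat_lit 0xb0100000a80800080d4000c0400002304000a00b000100100030058000740800c80080074002006e0008090e83)))) 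
(.lf (nat_lit 4026827117) (dlOf (nat_lit 1) (nat_lit 0xd0008005400200760008090783))))) 
(.nd (nat_lit 20) (.nd (nat_lit 21) 
(.lf (nat_lit 819245) (dlOf (nat_lit 1) (nat_lit 0x214800800b800208340008020583))) 
(.lf (nat_lit 11305005) (dlOf (nat_lit 1) (nat_lit 0x400400040008690682)))) (.nd (nat_lit 8) 
(.nd (nat_lit 21) (.lf (nat_lit 22839341) (dlOf (nat_lit 1) (nat_lit 0xa0008b30681))) 
(.lf (nat_lit 1346142253) (dlOf (nat_lit 1) (nat_lit 0xcc00400020008e60282)))) 
(.lf (nat_lit 8165677) (dlOf (nat_lit 1) (nat_lit 0x2000851ab81)))))) (.nd (nat_lit 9) 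
(.nd (nat_lit 28) (.nd (nat_lit 29) 
(.lf (nat_lit 1208254509) (dlOf (nat_lit 2) (nat_lit 0x10148000803000006080038004000400080b0402))) 
(.lf (nat_lit 671383597) (dlOf (nat_lit 8) (nat_lit 0xf00b80348056000a00b00010038000bc2008100b80530056005402a0093014000e802c012c00e00d6004000170700db0158000b408069009401800440002b0400360220001501001f0128000740802b009400022040ca800209a40008170c02)))) 
(.nd (nat_lit 29) 
(.lf (nat_lit 1476689965) (dlOf (nat_lit 5) (nat_lit 0x300600020022000a00e00060000000cc200030060000c022001600f00050070000c8200018060001401e000a00e0001883000200c00050044001c01e000c00e00080000000c0280038008003800200020008120803))) 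
(.lf (nat_lit 3087302701) (dlOf (nat_lit 4) (nat_lit 0x150038000bc080050080004c0380004019002900c0046801c0005c14001400e0002d0200020008170c01))))) 
(.nd (nat_lit 6) (.nd (nat_lit 10) 
(.lf (nat_lit 135037485) (dlOf (nat_lit 1) (nat_lit 0x400281b0e81))) 
(.lf (nat_lit 5234787885) (dlOf (nat_lit 1) (nat_lit 0x800180d3781)))) 
(.lf (nat_lit 2818871917) (dlOf (nat_lit 1) (nat_lit 0x400200020008128982)))))) (.nd (nat_lit 20) 
(.nd (nat_lit 6) (.nd (nat_lit 8) (.nd (nat_lit 19) 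
(.lf (nat_lit 298669) (dlOf (nat_lit 1) (nat_lit 0x8008000c00200020008007283))) 
(.lf (nat_lit 537693869) (dlOf (nat_lit 1) (nat_lit 0x6a8008010c002007e00080f7283)))) 
(.lf (nat_lit 36473261) (dlOf (nat_lit 1) (nat_lit 0x20019074e81)))) (.nd (nat_lit 8) 
(.lf (nat_lit 5772182765) (dlOf (nat_lit 1) (nat_lit 0x98008005c00200240008092e83))) 
(.lf (nat_lit 23364077) (dlOf (nat_lit 1) (nat_lit 0x8008001000200020008b80d03))))) 
(.nd (nat_lit 21) (.nd (nat_lit 6) 
(.lf (nat_lit 39094701) (dlOf (nat_lit 1) (nat_lit 0x20019194e81))) 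
(.lf (nat_lit 47483373) (dlOf (nat_lit 1) (nat_lit 0x40019404f01)))) (.nd (nat_lit 10) 
(.nd (nat_lit 22) (.lf (nat_lit 1345620397) (dlOf (nat_lit 1) (nat_lit 0x20008d74e81))) 
(.lf (nat_lit 49580461) (dlOf (nat_lit 1) (nat_lit 0x400200020009464e82)))) 
(.lf (nat_lit 8160685) (dlOf (nat_lit 1) (nat_lit 0x400200020008513602))))))) (.nd (nat_lit 29) 
(.nd (nat_lit 28) (.nd (nat_lit 6) (.nd (nat_lit 9) 
(.lf (nat_lit 3422847021) (dlOf (nat_lit 2) (nat_lit 0x48076017e102000e0018120781))) 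
(.nd (nat_lit 19) 
(.lf (nat_lit 3288629805) (dlOf (nat_lit 5) (nat_lit 0xb0100000a80800080d4000c0400002304000a00b000100100030058000780800c80080074002006e0008090e83))) 
(.lf (nat_lit 202146349) (dlOf (nat_lit 1) (nat_lit 0x400281b0e81))))) (.nd (nat_lit 8) 
(.lf (nat_lit 2349105261) (dlOf (nat_lit 2) (nat_lit 0x6000000000040020002002000080a1502))) 
(.lf (nat_lit 3288629613) (dlOf (nat_lit 1) (nat_lit 0xd0008005400200760008090783))))) 
(.nd (nat_lit 19) (.nd (nat_lit 6) (.nd (nat_lit 8) 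
(.lf (nat_lit 1543798829) (dlOf (nat_lit 8) (nat_lit 0x6900940180044000340400360220001981001e017006900ac001401600020070001604010201700a600ac00a80540126028001d0058025801c01ac0080002b0e01b602b0001501001f0128000740802b009400022040ca800209a40008170c02))) 
(.lf (nat_lit 1409581357) (dlOf (nat_lit 1) (nat_lit 0x8008000400200020008047a03)))) 
(.lf (nat_lit 2483322989) (dlOf (nat_lit 2) (nat_lit 0x6000000000040020002002000080a1502)))) 
(.nd (nat_lit 9) (.lf (nat_lit 471629869) (dlOf (nat_lit 1) (nat_lit 0x2800200040008360a02))) 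
(.lf (nat_lit 472681005) (dlOf (nat_lit 1) (nat_lit 0x140018a45181)))))) (.nd (nat_lit 27) 
(.nd (nat_lit 20) (.nd (nat_lit 28) 
(.lf (nat_lit 3825500205) (dlOf (nat_lit 4) (nat_lit 0x150038000b0080050080004c0380004019002900c0046801c0005614001400e0002a0200020008170c01))) 
(.lf (nat_lit 3020193837) (dlOf (nat_lit 3) (nat_lit 0x2e406000027020174030005c01480009410037800800a000200120008150403)))) 
(.nd (nat_lit 7) 
(.lf (nat_lit 4095508525) (dlOf (nat_lit 1) (nat_lit 0x80080004002000200080d0503))) 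
(.lf (nat_lit 2754907821) (dlOf (nat_lit 1) (nat_lit 0xec00080f7281))))) (.nd (nat_lit 7) 
(.nd (nat_lit 8) (.nd (nat_lit 30) 
(.lf (nat_lit 1006927917) (dlOf (nat_lit 1) (nat_lit 0x2000800c4002000e00080e0a03))) 
(.lf (nat_lit 2080669741) (dlOf (nat_lit 2) (nat_lit 0x10148000803000006080038004000400080b0402)))) 
(.lf (nat_lit 6376161581) (dlOf (nat_lit 4) (nat_lit 0x10878001180800104340007404000821a000807a0001c028090b00)))) 
(.nd (nat_lit 10) 
(.lf (nat_lit 5033459885) (dlOf (nat_lit 1) (nat_lit 0x80080004002000200080c1583))) 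
(.lf (nat_lit 1008501933) (dlOf (nat_lit 1) (nat_lit 0xa0018d12c01)))))))) (.nd (nat_lit 19) 
(.nd (nat_lit 30) (.nd (nat_lit 28) (.nd (nat_lit 21) (.nd (nat_lit 7) (.nd (nat_lit 9) 
(.lf (nat_lit 6509920301) (dlOf (nat_lit 1) (nat_lit 0x64004002a0008160582))) 
(.lf (nat_lit 364077) (dlOf (nat_lit 1) (nat_lit 0x1c0008007181)))) 
(.lf (nat_lit 8751277) (dlOf (nat_lit 1) (nat_lit 0x60028514901)))) (.nd (nat_lit 7) 
(.nd (nat_lit 9) (.lf (nat_lit 6651949) (dlOf (nat_lit 1) (nat_lit 0x8008000400200020008440b03))) 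
(.lf (nat_lit 3506733) (dlOf (nat_lit 1) (nat_lit 0x340008200e81)))) 
(.lf (nat_lit 31818925) (dlOf (nat_lit 1) (nat_lit 0x400400040008e92c02))))) (.nd (nat_lit 26) 
(.nd (nat_lit 27) (.lf (nat_lit 4563763245) (dlOf (nat_lit 1) (nat_lit 0x44002001e00080d0382))) 
(.lf (nat_lit 4697980973) (dlOf (nat_lit 1) (nat_lit 0x44002001e00080d0382)))) (.nd (nat_lit 20) 
(.lf (nat_lit 2617606189) (dlOf (nat_lit 1) (nat_lit 0x4c00400040008100782))) 
(.lf (nat_lit 471171117) (dlOf (nat_lit 1) (nat_lit 0xc00082a0701)))))) (.nd (nat_lit 28) 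
(.nd (nat_lit 27) (.nd (nat_lit 26) (.nd (nat_lit 29) 
(.lf (nat_lit 3221585965) (dlOf (nat_lit 8) (nat_lit 0x1e20238082811400c4088000404101b9017803980b80005c18039808e0002c0200440560185027804e0134001c0960258047005a022002380c800a80620002011011f00500003050006011c026c064000090401ba0320000401000a02b007d80c8000060800d008e0052046011a017807a005000000100028002005c0008150902))) 
(.lf (nat_lit 5905940525) (dlOf (nat_lit 1) (nat_lit 0x64004002a0008160582)))) 
(.lf (nat_lit 3288694829) (dlOf (nat_lit 2) (nat_lit 0x1001a000100180c0d80)))) (.nd (nat_lit 6) 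
(.nd (nat_lit 26) 
(.lf (nat_lit 3355803693) (dlOf (nat_lit 4) (nat_lit 0x402f00c2481000b017805f840800600bc02f9a04002000200160008120782))) 
(.lf (nat_lit 3959783469) (dlOf (nat_lit 18) (nat_lit 0x20c08a0003302015604500ef0000000c01002a011c0005e040b0008e0156045002d0220000b818050011c043c08c0002d04036004700c2022807e011001d408204ec02f000160500e600000004c08003813c008408c0001104026804f00020258090011c016008a01b20440000605012802780250134043008e02240460037022805781100610062033600a0000588005d01900002408062013c038409c002e046004c019000018200db013c0cd409c019404d02190230060011408140880332043006a01a80fe00c8009c04e0006011000028b00fe02b0094813c00a409a0020047024f01900a00044000081802400ac0380032009000880000c1807a8158010009e006404e0231019009480440000214098408e02a0046008a02280ef8110043c08600a804200a7020806000e40e6805e053202e030100a0000005814b000801ec00200060008150803)))) 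
(.lf (nat_lit 5503290093) (dlOf (nat_lit 2) (nat_lit 0x20094000c0480002804000c00080e5a01))))) 
(.nd (nat_lit 6) (.nd (nat_lit 7) 
(.lf (nat_lit 1346732077) (dlOf (nat_lit 1) (nat_lit 0x8008000400200020009000283))) 
(.nd (nat_lit 10) 
(.lf (nat_lit 3493169325) (dlOf (nat_lit 2) (nat_lit 0x681800000502003400080f4901))) 
(.lf (nat_lit 1880458413) (dlOf (nat_lit 1) (nat_lit 0x400400020008982c02))))) (.nd (nat_lit 26) 
(.lf (nat_lit 5637505133) (dlOf (nat_lit 1) (nat_lit 0x30008001800200080008100b83))) 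
(.lf (nat_lit 6241484909) (dlOf (nat_lit 1) (nat_lit 0x30008001800200080008100b83))))))) 
(.nd (nat_lit 20) (.nd (nat_lit 8) (.nd (nat_lit 23) (.nd (nat_lit 26) 
(.lf (nat_lit 2819457069) (dlOf (nat_lit 1) (nat_lit 0x4a0018290a01))) 
(.lf (nat_lit 3557654573) (dlOf (nat_lit 1) (nat_lit 0x4a0018290a01)))) 
(.lf (nat_lit 42827821) (dlOf (nat_lit 1) (nat_lit 0x40019280281)))) (.nd (nat_lit 6) 
(.nd (nat_lit 25) 
(.lf (nat_lit 472746413) (dlOf (nat_lit 1) (nat_lit 0x8008033000200020008aa4e83))) 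
(.lf (nat_lit 36538797) (dlOf (nat_lit 1) (nat_lit 0x60019074e81)))) 
(.lf (nat_lit 1343062381) (dlOf (nat_lit 1) (nat_lit 0x18008000400200040008150a03))))) 
(.nd (nat_lit 25) (.nd (nat_lit 22) (.nd (nat_lit 9) 
(.lf (nat_lit 1346207789) (dlOf (nat_lit 11) (nat_lit 0x3c15d0001201000a067000400000003208000c2be0000f0201c4158004d0ab0003051403e819e000a0cb017604b00ba020c03780e60008021000800e00002c50082856001382ac004412401140678005832c067012c033608300f5039800028400430560024819e0000904021015801190678000201002b056000502ac00be0cf014004b005d020c035c0e6000070c0008157000008100910d7001286a4044c2b0005415600810aa8023050800f027a01f4139006309c0092833c00fc19400b80c6014704b0064020c035c0e60002072009f00d00000088134800845d000207120008e60283))) 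
(.lf (nat_lit 12419629) (dlOf (nat_lit 12) (nat_lit 0xbdd580056ca80007e08000f6540003d020011bab0006d950000d810004eeac00076540003404000fbab0006d950000a810003eeac00176540002304000fbab0003d9500008010002eeac00076540001d04000fbab0006d9500003010003eeac0001204001f756000bb2a000000286c0e80)))) 
(.nd (nat_lit 6) (.lf (nat_lit 8230317) (dlOf (nat_lit 1) (nat_lit 0x40028519901))) 
(.lf (nat_lit 8226925) (dlOf (nat_lit 1) (nat_lit 0x4c0018514781))))) (.nd (nat_lit 7) 
(.nd (nat_lit 8) (.lf (nat_lit 56461869) (dlOf (nat_lit 1) (nat_lit 0x20004002c0009735182))) 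
(.lf (nat_lit 45973805) (dlOf (nat_lit 1) (nat_lit 0xe20029380b01)))) (.nd (nat_lit 6) 
(.lf (nat_lit 37586093) (dlOf (nat_lit 1) (nat_lit 0x1800090d2c01))) 
(.lf (nat_lit 45973741) (dlOf (nat_lit 1) (nat_lit 0x960029380a81)))))))))) (.nd (nat_lit 6) 
(.nd (nat_lit 28) (.nd (nat_lit 18) (.nd (nat_lit 9) (.nd (nat_lit 26) (.nd (nat_lit 7) 
(.nd (nat_lit 10) 
(.lf (nat_lit 3221848125) (dlOf (nat_lit 1) (nat_lit 0x2100080094002002a00081a1403))) 
(.lf (nat_lit 1610712125) (dlOf (nat_lit 1) (nat_lit 0x160028092881)))) (.nd (nat_lit 16) 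
(.lf (nat_lit 23625917) (dlOf (nat_lit 2) (nat_lit 0x2a5e48000480801c8008000c00200140008b80383))) 
(.lf (nat_lit 2195645) (dlOf (nat_lit 1) (nat_lit 0x8008000400200020008150383))))) 
(.nd (nat_lit 16) (.nd (nat_lit 10) 
(.lf (nat_lit 2752544829) (dlOf (nat_lit 1) (nat_lit 0x24004001a0018020702))) 
(.lf (nat_lit 3288370237) (dlOf (nat_lit 1) (nat_lit 0x800400020008006082)))) (.nd (nat_lit 19) 
(.lf (nat_lit 2348908605) (dlOf (nat_lit 1) (nat_lit 0xa0008020701))) 
(.lf (nat_lit 2755231805) (dlOf (nat_lit 10) (nat_lit 0x40cc000205e000702e000180b40004044001c70a0004066000302e000100b40004044000201b000e3050004033000181700004044000401b000e284000203300018170003c05e000402d00050110001006c003881800180cc000e05e000302e0001006c003841000080cc000a05c0003016800100880004036001c10a0002066000702e000080b4003800c00080cc000405c000102b800280b40024044001bf0a000e040000700e8006b810007000800dc00200080008130883)))))) 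
(.nd (nat_lit 8) (.nd (nat_lit 10) (.nd (nat_lit 7) (.nd (nat_lit 19) 
(.lf (nat_lit 2751502909) (dlOf (nat_lit 3) (nat_lit 0x1441200042080003b8200021048001c408006800800380020014000800b483))) 
(.lf (nat_lit 2752027197) (dlOf (nat_lit 1) (nat_lit 0x40020002000800b482)))) 
(.lf (nat_lit 19960509) (dlOf (nat_lit 1) (nat_lit 0x4002000200089d8c82)))) (.nd (nat_lit 27) 
(.lf (nat_lit 2147518013) (dlOf (nat_lit 6) (nat_lit 0x6002800280000004e0800c800a00620000000482000300280002008001801400780000000504000400500020000000001000180080030002000e0008003783))) 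
(.lf (nat_lit 1207993917) (dlOf (nat_lit 2) (nat_lit 0x880cc004404400380110011007801a00280002614000c004002c0018003782))))) 
(.nd (nat_lit 30) (.nd (nat_lit 10) (.nd (nat_lit 19) 
(.lf (nat_lit 59870013) (dlOf (nat_lit 1) (nat_lit 0x8008004800200020009845c03))) 
(.lf (nat_lit 20548413) (dlOf (nat_lit 2) (nat_lit 0xc1d200017c040050004001200089d5c02)))) 
(.lf (nat_lit 8951613) (dlOf (nat_lit 1) (nat_lit 0x2002851a101)))) (.nd (nat_lit 7) 
(.nd (nat_lit 12) 
(.lf (nat_lit 1275104061) (dlOf (nat_lit 5) (nat_lit 0x100140029204000400a00147020002005000a3010001002800508080010008001000200040008005c03))) 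
(.lf (nat_lit 1677761341) (dlOf (nat_lit 2) (nat_lit 0x801400afd020002001800bc81)))) 
(.lf (nat_lit 5368744893) (dlOf (nat_lit 2) (nat_lit 0x100a800000080018008000c00200040008005d03))))))) 
(.nd (nat_lit 16) (.nd (nat_lit 19) (.nd (nat_lit 7) (.nd (nat_lit 8) 
(.lf (nat_lit 671383613) (dlOf (nat_lit 14) (nat_lit 0x2a025000d701003b012801a8088001440800b404a006a0220003e820065012801a8088000f80800ec04a000a0220003d02001b012800d8088000ea08005804a00080220003a02003d012801a8088000e60800f004a000340200780250001801003c012801a80880005208012804a006e0220000f82000801280006c08066000801dc00201ee0008170d03))) 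
(.nd (nat_lit 9) (.lf (nat_lit 4362371389) (dlOf (nat_lit 1) (nat_lit 0x4002000e0008048502))) 
(.lf (nat_lit 8689469) (dlOf (nat_lit 1) (nat_lit 0x2002851a101))))) 
(.lf (nat_lit 3441085) (dlOf (nat_lit 1) (nat_lit 0x20018200881)))) (.nd (nat_lit 8) 
(.nd (nat_lit 22) 
(.lf (nat_lit 10256445) (dlOf (nat_lit 3) (nat_lit 0xf18c002f7ac0014d040073c63003cdeb00050c1000a8008013c002002600085c0d03))) 
(.lf (nat_lit 22839357) (dlOf (nat_lit 12) (nat_lit 0x3da940001702001ed4a0000b0100116fa0009b52800024080031be8001cd4a0000702000c6fa0003b5280001a08003dbe8001cd4a000060200036a500002c08003b7d00039a94001cd46000030300096a500001408007b52800159a400004040018df4000f6a50002b348000000c006800400020018b30e02)))) 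
(.nd (nat_lit 10) 
(.lf (nat_lit 51151165) (dlOf (nat_lit 2) (nat_lit 0xb7400001ec080010008003400200100009507c83))) 
(.lf (nat_lit 8164669) (dlOf (nat_lit 1) (nat_lit 0x20018519901)))))) (.nd (nat_lit 7) 
(.nd (nat_lit 23) (.nd (nat_lit 20) 
(.lf (nat_lit 3288694845) (dlOf (nat_lit 1) (nat_lit 0x80080004002000200080c1403))) 
(.lf (nat_lit 1409085) (dlOf (nat_lit 3) (nat_lit 0x210980005580800805800019a040004004000400180c0d02)))) 
(.nd (nat_lit 21) (.lf (nat_lit 47546429) (dlOf (nat_lit 1) (nat_lit 0xd80019400001))) 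
(.lf (nat_lit 62226493) (dlOf (nat_lit 1) (nat_lit 0x400400020009980e02))))) (.nd (nat_lit 8) 
(.nd (nat_lit 9) (.lf (nat_lit 13992125) (dlOf (nat_lit 1) (nat_lit 0x20018750381))) 
(.lf (nat_lit 20289213) (dlOf (nat_lit 1) (nat_lit 0x4002000200089da002)))) 
(.lf (nat_lit 8226749) (dlOf (nat_lit 1) (nat_lit 0x1f000801ac00200080008514383))))))) 
(.nd (nat_lit 26) (.nd (nat_lit 16) (.nd (nat_lit 30) (.nd (nat_lit 8) (.nd (nat_lit 9) 
(.lf (nat_lit 2952826941) (dlOf (nat_lit 1) (nat_lit 0x260028007d01))) 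
(.lf (nat_lit 4563437117) (dlOf (nat_lit 4) (nat_lit 0x604200070000000b81000180b00002604000c000000000200340028003781)))) 
(.nd (nat_lit 7) (.lf (nat_lit 402688829) (dlOf (nat_lit 1) (nat_lit 0x1400400080008005c02))) 
(.lf (nat_lit 6710922173) (dlOf (nat_lit 3) (nat_lit 0x400a000038080038058001c02a000000400060018005d01))))) 
(.nd (nat_lit 7) (.nd (nat_lit 19) 
(.lf (nat_lit 3490742333) (dlOf (nat_lit 1) (nat_lit 0x24004001a0018020702))) 
(.lf (nat_lit 3492315197) (dlOf (nat_lit 2) (nat_lit 0x150fe0001500801400080030002001600080c1403)))) 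
(.nd (nat_lit 8) 
(.lf (nat_lit 1342734525) (dlOf (nat_lit 4) (nat_lit 0x7e2370026113000e0838000c38a00481c1002f0d1801685cc000641c008448e0040243002711b800d0898006841c00401cd002b0e280048704008c3460056173000188a001f111800048080440008039c002029e00080c0383))) 
(.lf (nat_lit 1345880509) (dlOf (nat_lit 1) (nat_lit 0x20008e07001)))))) (.nd (nat_lit 19) 
(.nd (nat_lit 7) (.nd (nat_lit 8) 
(.lf (nat_lit 4697718845) (dlOf (nat_lit 3) (nat_lit 0x401a006e1c0800700d00369a0402e400400600008090002))) 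
(.lf (nat_lit 5637245757) (dlOf (nat_lit 1) (nat_lit 0x600080014002001c0008055c03)))) 
(.lf (nat_lit 1342281405) (dlOf (nat_lit 1) (nat_lit 0x6002800a001)))) (.nd (nat_lit 7) 
(.nd (nat_lit 18) 
(.lf (nat_lit 3492380733) (dlOf (nat_lit 3) (nat_lit 0x743ce000550200d01e700ce09b0001501001e00080058002001200080c1403))) 
(.lf (nat_lit 1346207805) (dlOf (nat_lit 2) (nat_lit 0x39306c819c03600048e08001800400020008e60602)))) 
(.lf (nat_lit 5774082493) (dlOf (nat_lit 1) (nat_lit 0x200180f7a81)))))) (.nd (nat_lit 10) 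
(.nd (nat_lit 18) (.nd (nat_lit 7) (.nd (nat_lit 8) 
(.lf (nat_lit 2483126333) (dlOf (nat_lit 1) (nat_lit 0xa0008020701))) 
(.lf (nat_lit 6376948029) (dlOf (nat_lit 1) (nat_lit 0x800200040008090b82)))) (.nd (nat_lit 9) 
(.lf (nat_lit 470319293) (dlOf (nat_lit 5) (nat_lit 0x5423700090d9800505c40005e0c010446e000817100017020001113000187c000582e60002171000160400130b98000940801900080134002002000080c0383))) 
(.lf (nat_lit 5167418045) (dlOf (nat_lit 1) (nat_lit 0x108008002800200020008055783))))) 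
(.nd (nat_lit 16) (.nd (nat_lit 27) 
(.lf (nat_lit 3020193853) (dlOf (nat_lit 2) (nat_lit 0xb0000000a1818150480))) 
(.lf (nat_lit 1543798845) (dlOf (nat_lit 14) (nat_lit 0x2a025000d301003b012801a8088001440800b404a006a0220003e820065012801a8088000f80800ec04a000a0220003d02001b012800d8088000ea08005804a00080220003a02003d012801a8088000e60800f004a0002e0200780250001581003c012801a80880004608012804a006e0220000d02000801280005808066000801dc00201ee0008170d03)))) 
(.lf (nat_lit 474316861) (dlOf (nat_lit 1) (nat_lit 0x20019140e01))))) (.nd (nat_lit 8) 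
(.nd (nat_lit 7) (.nd (nat_lit 16) 
(.lf (nat_lit 335578685) (dlOf (nat_lit 4) (nat_lit 0x2c026001e012002600880007818003004c0030024000170400040130001009000100280028006000000800900028003781))) 
(.lf (nat_lit 6241224253) (dlOf (nat_lit 8) (nat_lit 0x14001400ad0028035800c000580c004800a0002b020046014001a00900158014000540c0040028002e01200210028000a4180038050005800a000050400360140011009000e8014000040c000c026002401200140028000001800e0008003400200060008053783)))) 
(.lf (nat_lit 3691026109) (dlOf (nat_lit 1) (nat_lit 0x16002800a001)))) (.nd (nat_lit 9) 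
(.nd (nat_lit 11) (.lf (nat_lit 469800253) (dlOf (nat_lit 1) (nat_lit 0x5400400100018009902))) 
(.lf (nat_lit 1409387837) (dlOf (nat_lit 1) (nat_lit 0x400200020008006902)))) 
(.lf (nat_lit 1410107197) (dlOf (nat_lit 5) (nat_lit 0xc07700020330000d81000981dc00240ec003606600100000000d42000401c40005c0400380e20002a02007a00180f3e01)))))))) 
(.nd (nat_lit 8) (.nd (nat_lit 9) (.nd (nat_lit 7) (.nd (nat_lit 16) (.nd (nat_lit 18) 
(.nd (nat_lit 11) (.nd (nat_lit 19) 
(.lf (nat_lit 18907261) (dlOf (nat_lit 1) (nat_lit 0x400200020008970482))) 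
(.lf (nat_lit 537428093) (dlOf (nat_lit 8) (nat_lit 0x1902d00140148007c066001e022001400f8008442800d816800a80a400220330010011000a007c004201400700b40056052000a01980070088004803e000c008001078600ba02d80668144036807e01b20320021011800808280260144003d60400540aa0016902002a05d000202a000d8000002a40c004400400220018090082)))) 
(.lf (nat_lit 1543538813) (dlOf (nat_lit 1) (nat_lit 0x14002000c0008004782)))) (.nd (nat_lit 26) 
(.lf (nat_lit 3491528829) (dlOf (nat_lit 2) (nat_lit 0xbc1140015c0200020028090081))) 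
(.lf (nat_lit 2753331325) (dlOf (nat_lit 2) (nat_lit 0xc137000fa818090080))))) (.nd (nat_lit 10) 
(.nd (nat_lit 11) (.lf (nat_lit 23691389) (dlOf (nat_lit 2) (nat_lit 0x14cbf000fd018b80080))) 
(.lf (nat_lit 3493169277) (dlOf (nat_lit 4) (nat_lit 0x1c80c0000080100950600000340806c8300000000401f8002004200080f4782)))) 
(.nd (nat_lit 18) 
(.lf (nat_lit 2617349245) (dlOf (nat_lit 1) (nat_lit 0x300080074002000a00080a9503))) 
(.lf (nat_lit 19764349) (dlOf (nat_lit 1) (nat_lit 0x200289d9501)))))) (.nd (nat_lit 28) 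
(.nd (nat_lit 10) (.nd (nat_lit 16) 
(.lf (nat_lit 19955965) (dlOf (nat_lit 1) (nat_lit 0x4002000200089d0a82))) (.nd (nat_lit 27) 
(.lf (nat_lit 2684453117) (dlOf (nat_lit 2) (nat_lit 0x280ec0007204002c00200080008014602))) 
(.lf (nat_lit 1744929021) (dlOf (nat_lit 1) (nat_lit 0x8008000800200020008090a83))))) 
(.nd (nat_lit 11) (.lf (nat_lit 3355481341) (dlOf (nat_lit 1) (nat_lit 0x120008009581))) 
(.lf (nat_lit 67149053) (dlOf (nat_lit 1) (nat_lit 0x2001800c601))))) (.nd (nat_lit 16) 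
(.nd (nat_lit 10) (.nd (nat_lit 18) 
(.lf (nat_lit 1345880317) (dlOf (nat_lit 1) (nat_lit 0x40004000a0008e02902))) 
(.lf (nat_lit 1409581309) (dlOf (nat_lit 1) (nat_lit 0xa0018047101)))) 
(.lf (nat_lit 268469501) (dlOf (nat_lit 1) (nat_lit 0x800400040008052f02)))) (.nd (nat_lit 19) 
(.lf (nat_lit 3691086077) (dlOf (nat_lit 1) (nat_lit 0x180080024002001a0008010703))) 
(.lf (nat_lit 3154739453) (dlOf (nat_lit 1) (nat_lit 0x20008002c002000e0008310683))))))) 
(.nd (nat_lit 18) (.nd (nat_lit 30) (.nd (nat_lit 10) (.nd (nat_lit 12) 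
(.lf (nat_lit 6710921853) (dlOf (nat_lit 2) (nat_lit 0x200580007e040004002000c0008005402))) 
(.lf (nat_lit 67148413) (dlOf (nat_lit 1) (nat_lit 0x24001800b681)))) (.nd (nat_lit 19) 
(.lf (nat_lit 61900413) (dlOf (nat_lit 7) (nat_lit 0x16b38c000a8040085c4a00aece30002982009f671800148080123b500095d960028eca002f74c0012389000099c4004ace10001687003967180006c0800cb38c0002e040070002001c0009923982))) 
(.lf (nat_lit 52987517) (dlOf (nat_lit 1) (nat_lit 0x4000400020009573982))))) (.nd (nat_lit 26) 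
(.nd (nat_lit 10) 
(.lf (nat_lit 5368744573) (dlOf (nat_lit 2) (nat_lit 0x800480000004011000400300008005402))) 
(.lf (nat_lit 3758130813) (dlOf (nat_lit 3) (nat_lit 0x500000000b40800d00000002e04002000200020008003982)))) 
(.nd (nat_lit 19) 
(.lf (nat_lit 3556804221) (dlOf (nat_lit 17) (nat_lit 0xf000c002800400440000001501802f80180074000000530401140060002901000901d00013c0800480e80009a0400740740004c02001203a0002581004401d0000d4080058038000600400240e60010031004f0138024805c011c02c00ac01500670070024802c01f400a004e000000168a00680070000b0080258038010000c0014004004800000006c200080058002401c0038006002200000005c2000400180002804007800c00960000000882004f000000040080048008000400200dc0008003983))) 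
(.lf (nat_lit 6375900797) (dlOf (nat_lit 1) (nat_lit 0x1c0018003981)))))) (.nd (nat_lit 16) 
(.nd (nat_lit 7) (.nd (nat_lit 23) 
(.lf (nat_lit 5234787965) (dlOf (nat_lit 2) (nat_lit 0x5c014000000180d3980))) 
(.lf (nat_lit 8685181) (dlOf (nat_lit 2) (nat_lit 0x223b6600afd9500016828513980)))) 
(.lf (nat_lit 56920829) (dlOf (nat_lit 1) (nat_lit 0x200019795a81)))) (.nd (nat_lit 10) 
(.lf (nat_lit 45976189) (dlOf (nat_lit 3) (nat_lit 0x2a0e80078cb2000f62300011418005d7ec0007004000800400040009385402))) 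
(.nd (nat_lit 19) 
(.lf (nat_lit 8750717) (dlOf (nat_lit 3) (nat_lit 0xb61ee00020f50000281003319c40174cdc00b8643005c2de802e1378017094600b83cf00000078513980))) 
(.lf (nat_lit 61703805) (dlOf (nat_lit 2) (nat_lit 0x1d0650006409c0002d04000c0029923981)))))))) 
(.nd (nat_lit 10) (.nd (nat_lit 11) (.nd (nat_lit 18) (.nd (nat_lit 9) (.nd (nat_lit 12) 
(.lf (nat_lit 4026630653) (dlOf (nat_lit 1) (nat_lit 0xa0008017e01))) 
(.lf (nat_lit 1476432381) (dlOf (nat_lit 1) (nat_lit 0x8008008000200300008008683)))) 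
(.nd (nat_lit 12) (.lf (nat_lit 335578109) (dlOf (nat_lit 1) (nat_lit 0x180008002881))) 
(.lf (nat_lit 1342215165) (dlOf (nat_lit 4) (nat_lit 0x1411c004a202001a08e0025081000a0470010f00801000080064002001e0008009203))))) 
(.nd (nat_lit 26) (.nd (nat_lit 9) 
(.lf (nat_lit 5905875453) (dlOf (nat_lit 3) (nat_lit 0x25012800174080130094000b804004400400040008157e02))) 
(.lf (nat_lit 38110205) (dlOf (nat_lit 1) (nat_lit 0x400200420009132882)))) (.nd (nat_lit 12) 
(.lf (nat_lit 3959718397) (dlOf (nat_lit 4) (nat_lit 0x1a80f80004404009007c0001c02001c03e0000d818127e00))) 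
(.lf (nat_lit 3557069309) (dlOf (nat_lit 1) (nat_lit 0x20018128681)))))) (.nd (nat_lit 16) 
(.nd (nat_lit 9) (.nd (nat_lit 18) 
(.lf (nat_lit 2754644349) (dlOf (nat_lit 1) (nat_lit 0x4002000200080f4e82))) (.nd (nat_lit 19) 
(.lf (nat_lit 4496591229) (dlOf (nat_lit 1) (nat_lit 0x4004000200080e4e82))) 
(.lf (nat_lit 36473213) (dlOf (nat_lit 1) (nat_lit 0x40019074e81))))) (.nd (nat_lit 7) 
(.lf (nat_lit 2550176637) (dlOf (nat_lit 1) (nat_lit 0x2001800bc81))) 
(.lf (nat_lit 2818874365) (dlOf (nat_lit 1) (nat_lit 0x3000800080020004000812bf03))))) 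
(.nd (nat_lit 7) (.nd (nat_lit 12) (.nd (nat_lit 20) 
(.lf (nat_lit 36538749) (dlOf (nat_lit 1) (nat_lit 0x20019074e81))) 
(.lf (nat_lit 33393021) (dlOf (nat_lit 1) (nat_lit 0x20018f54e81)))) 
(.lf (nat_lit 6442555773) (dlOf (nat_lit 1) (nat_lit 0x80080004002000200080faf03)))) 
(.nd (nat_lit 12) (.lf (nat_lit 48073213) (dlOf (nat_lit 1) (nat_lit 0x14002000c0009404f82))) 
(.lf (nat_lit 6442555901) (dlOf (nat_lit 1) (nat_lit 0x600180fb281))))))) (.nd (nat_lit 28) 
(.nd (nat_lit 9) (.nd (nat_lit 11) (.nd (nat_lit 16) (.nd (nat_lit 18) 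
(.lf (nat_lit 1744864637) (dlOf (nat_lit 1) (nat_lit 0x20018003581))) 
(.lf (nat_lit 52725117) (dlOf (nat_lit 1) (nat_lit 0x400400020009573582)))) 
(.lf (nat_lit 8750461) (dlOf (nat_lit 1) (nat_lit 0x20028513581)))) (.nd (nat_lit 12) 
(.lf (nat_lit 3288370557) (dlOf (nat_lit 2) (nat_lit 0x140460003b0200220028006c01))) 
(.lf (nat_lit 134323581) (dlOf (nat_lit 1) (nat_lit 0xe0001800c901))))) (.nd (nat_lit 18) 
(.nd (nat_lit 16) (.lf (nat_lit 8427389) (dlOf (nat_lit 1) (nat_lit 0x80020002000851a302))) 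
(.lf (nat_lit 8492925) (dlOf (nat_lit 1) (nat_lit 0x48008000c002000e000851a303)))) 
(.nd (nat_lit 20) (.lf (nat_lit 67934077) (dlOf (nat_lit 1) (nat_lit 0x6001833a301))) 
(.lf (nat_lit 8165245) (dlOf (nat_lit 1) (nat_lit 0x40020002000851a302)))))) (.nd (nat_lit 26) 
(.nd (nat_lit 9) (.nd (nat_lit 7) 
(.lf (nat_lit 4563436925) (dlOf (nat_lit 1) (nat_lit 0x240018003581))) 
(.lf (nat_lit 1342213629) (dlOf (nat_lit 1) (nat_lit 0xc00400160008006f82)))) (.nd (nat_lit 29) 
(.lf (nat_lit 2415953789) (dlOf (nat_lit 1) (nat_lit 0x18008000400200040008004103))) 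
(.lf (nat_lit 4026566525) (dlOf (nat_lit 1) (nat_lit 0x20018004101))))) (.nd (nat_lit 7) 
(.nd (nat_lit 19) (.lf (nat_lit 4096099709) (dlOf (nat_lit 1) (nat_lit 0x200280e3581))) 
(.lf (nat_lit 4095575421) (dlOf (nat_lit 1) (nat_lit 0x4004000200080e3582)))) (.nd (nat_lit 11) 
(.lf (nat_lit 2617284093) (dlOf (nat_lit 1) (nat_lit 0x7000400140008009c02))) 
(.lf (nat_lit 4227894781) (dlOf (nat_lit 1) (nat_lit 0xa0008006f81))))))))))))

end

end Pool.Agent.Lib.MP_5854e1_co.Cz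

namespace Pool.Agent.Lib.MP_5854e1_co.Cz

noncomputable section

noncomputable def tz58 : DT := (.nd (nat_lit 4) (.nd (nat_lit 15) (.nd (nat_lit 18) 
(.nd (nat_lit 7) (.nd (nat_lit 19) (.nd (nat_lit 10) (.nd (nat_lit 26) (.nd (nat_lit 5) 
(.nd (nat_lit 9) (.nd (nat_lit 8) (.nd (nat_lit 20) 
(.lf (nat_lit 58728525) (dlOf (nat_lit 1) (nat_lit 0x4004000200097e0002))) 
(.lf (nat_lit 13639757) (dlOf (nat_lit 2) (nat_lit 0x680000003f0200540018730d01)))) 
(.lf (nat_lit 1057101) (dlOf (nat_lit 1) (nat_lit 0x400200020008068902)))) (.nd (nat_lit 21) 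
(.lf (nat_lit 34613837) (dlOf (nat_lit 1) (nat_lit 0xc0018fb5281))) 
(.lf (nat_lit 36710989) (dlOf (nat_lit 1) (nat_lit 0x460019075281))))) (.nd (nat_lit 8) 
(.nd (nat_lit 6) (.nd (nat_lit 22) 
(.lf (nat_lit 27271213) (dlOf (nat_lit 1) (nat_lit 0x2160028cc0881))) 
(.lf (nat_lit 23076909) (dlOf (nat_lit 1) (nat_lit 0xc0008000c00200180008b50683)))) 
(.lf (nat_lit 38805613) (dlOf (nat_lit 1) (nat_lit 0x8008000800200020009162483)))) 
(.nd (nat_lit 11) (.lf (nat_lit 2105645) (dlOf (nat_lit 1) (nat_lit 0x800400c00008150502))) 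
(.lf (nat_lit 14637) (dlOf (nat_lit 1) (nat_lit 0x800800040020002000800ab83)))))) (.nd (nat_lit 8) 
(.nd (nat_lit 6) (.nd (nat_lit 5) 
(.lf (nat_lit 4362090509) (dlOf (nat_lit 1) (nat_lit 0x10008030c002005e000800a603))) 
(.nd (nat_lit 11) 
(.lf (nat_lit 473964589) (dlOf (nat_lit 2) (nat_lit 0x2642ce000190200020028fe0281))) 
(.lf (nat_lit 4362090541) (dlOf (nat_lit 1) (nat_lit 0xc0040002001800a602))))) (.nd (nat_lit 11) 
(.lf (nat_lit 473964621) (dlOf (nat_lit 2) (nat_lit 0x18c2c6000e14d0001046000301f00007010002800200020008fe0682))) 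
(.nd (nat_lit 12) (.lf (nat_lit 469772365) (dlOf (nat_lit 1) (nat_lit 0x800400040018004702))) 
(.lf (nat_lit 4362090573) (dlOf (nat_lit 1) (nat_lit 0xc0020002000800a682)))))) (.nd (nat_lit 5) 
(.nd (nat_lit 20) (.nd (nat_lit 30) 
(.lf (nat_lit 2483043149) (dlOf (nat_lit 2) (nat_lit 0x3d015001d8040000c01c00ada060002000800bc81))) 
(.lf (nat_lit 1409301325) (dlOf (nat_lit 2) (nat_lit 0x9e0520056d01800bc80)))) 
(.lf (nat_lit 2754624333) (dlOf (nat_lit 2) (nat_lit 0x2045002a90180fbc80)))) (.nd (nat_lit 6) 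
(.lf (nat_lit 4362090797) (dlOf (nat_lit 1) (nat_lit 0x40040002000800ab82))) 
(.lf (nat_lit 469776749) (dlOf (nat_lit 1) (nat_lit 0xc0040002000800ac82))))))) (.nd (nat_lit 11) 
(.nd (nat_lit 8) (.nd (nat_lit 5) (.nd (nat_lit 9) (.nd (nat_lit 30) 
(.lf (nat_lit 2147492877) (dlOf (nat_lit 2) (nat_lit 0x805000e880400a8004005a0018002882))) 
(.lf (nat_lit 3221234701) (dlOf (nat_lit 1) (nat_lit 0x40008002881)))) 
(.lf (nat_lit 19936781) (dlOf (nat_lit 1) (nat_lit 0x28002000800089d9c02)))) (.nd (nat_lit 12) 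
(.lf (nat_lit 335554093) (dlOf (nat_lit 1) (nat_lit 0x60028003781))) 
(.lf (nat_lit 2214606381) (dlOf (nat_lit 1) (nat_lit 0x4000080008002001c0008009c03))))) 
(.nd (nat_lit 27) (.nd (nat_lit 5) (.nd (nat_lit 6) 
(.lf (nat_lit 51389709) (dlOf (nat_lit 1) (nat_lit 0x20019513001))) 
(.lf (nat_lit 2952803661) (dlOf (nat_lit 1) (nat_lit 0x660008009901)))) 
(.lf (nat_lit 1342191405) (dlOf (nat_lit 2) (nat_lit 0xe09d000404700008010005000800280020004000800a103)))) 
(.nd (nat_lit 26) 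
(.lf (nat_lit 6039811341) (dlOf (nat_lit 1) (nat_lit 0x88008003c00200020008009683))) 
(.lf (nat_lit 3422565645) (dlOf (nat_lit 1) (nat_lit 0x800200020008009682)))))) (.nd (nat_lit 5) 
(.nd (nat_lit 9) (.nd (nat_lit 8) 
(.lf (nat_lit 3019910157) (dlOf (nat_lit 3) (nat_lit 0xc00e0002a81005600000004c080010008003400200040008005f83))) 
(.lf (nat_lit 4227869965) (dlOf (nat_lit 4) (nat_lit 0x120190000840800680c80003e0400080640001e0200360028006681)))) 
(.nd (nat_lit 26) (.nd (nat_lit 27) 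
(.lf (nat_lit 5905591821) (dlOf (nat_lit 1) (nat_lit 0x2b8008005000200fe0008007083))) 
(.lf (nat_lit 3087019533) (dlOf (nat_lit 1) (nat_lit 0x20018007081)))) 
(.lf (nat_lit 3959434765) (dlOf (nat_lit 2) (nat_lit 0x80000005204002c002000c0008007082))))) 
(.nd (nat_lit 8) (.nd (nat_lit 6) 
(.lf (nat_lit 2754620973) (dlOf (nat_lit 3) (nat_lit 0x201d0002a01000100e8001440800280080018002000a00080f7183))) 
(.nd (nat_lit 26) 
(.lf (nat_lit 2952805485) (dlOf (nat_lit 2) (nat_lit 0x1001a00640010000a010003800800040020002000800c083))) 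
(.lf (nat_lit 603995245) (dlOf (nat_lit 1) (nat_lit 0x5000800280020046000800c083))))) 
(.nd (nat_lit 26) (.lf (nat_lit 1342193005) (dlOf (nat_lit 1) (nat_lit 0x40040002000800c902))) 
(.lf (nat_lit 4227874157) (dlOf (nat_lit 2) (nat_lit 0x9806400662020540001800c901)))))))) 
(.nd (nat_lit 21) (.nd (nat_lit 29) (.nd (nat_lit 28) (.nd (nat_lit 5) (.nd (nat_lit 6) 
(.nd (nat_lit 10) (.lf (nat_lit 9969677) (dlOf (nat_lit 1) (nat_lit 0x180080014002006000085a0a03))) 
(.lf (nat_lit 56108045) (dlOf (nat_lit 1) (nat_lit 0x20019732881)))) 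
(.lf (nat_lit 38283853) (dlOf (nat_lit 1) (nat_lit 0x110008008400200080009135283)))) 
(.nd (nat_lit 20) 
(.lf (nat_lit 55058477) (dlOf (nat_lit 6) (nat_lit 0x1c03d0000d81000209f000104b4000407a0000b06000612d000050100040968000240800084b40001004004c002000600096a0c82))) 
(.lf (nat_lit 9969709) (dlOf (nat_lit 12) (nat_lit 0x9a95c00054ac0002904000aa570001401002152b80009c08002295c0004c0401294ae00b8a560001282000252b8000440800ca95c00654ac0000c040004a57000252b00002c10011a95c000140400214ae00009020014a57000452b0000201000e0008025c00201e400085a0d03))))) 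
(.nd (nat_lit 9) (.nd (nat_lit 5) (.nd (nat_lit 20) 
(.lf (nat_lit 3624411149) (dlOf (nat_lit 4) (nat_lit 0xa0000005901000600000002c0800600000000804002000200040008190182))) 
(.lf (nat_lit 3491241997) (dlOf (nat_lit 2) (nat_lit 0x1002300000e040008004001a0018080102)))) 
(.lf (nat_lit 474488877) (dlOf (nat_lit 1) (nat_lit 0xa0019180281)))) (.nd (nat_lit 26) 
(.lf (nat_lit 1342710285) (dlOf (nat_lit 3) (nat_lit 0x14247010911e0008741005d05500000004000c004000400080c0d82))) 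
(.lf (nat_lit 470295053) (dlOf (nat_lit 3) (nat_lit 0x944780021c02004423c0010b8180c0d80)))))) 
(.nd (nat_lit 5) (.nd (nat_lit 26) (.nd (nat_lit 27) 
(.lf (nat_lit 805838861) (dlOf (nat_lit 2) (nat_lit 0x1c0a8000403000030088000381800800080034002001e00081c0383))) 
(.lf (nat_lit 2819104781) (dlOf (nat_lit 4) (nat_lit 0x3e01f802ad80801680fc0156804003c0e4000fc0200f600081a0481)))) 
(.nd (nat_lit 20) (.nd (nat_lit 27) 
(.lf (nat_lit 1678254093) (dlOf (nat_lit 2) (nat_lit 0x1c0a8000403000030088000381800800080034002001e00081c0383))) 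
(.lf (nat_lit 2886213645) (dlOf (nat_lit 4) (nat_lit 0xa0000007101000600000002c0800600000000804002000200040008190182)))) 
(.lf (nat_lit 2753044493) (dlOf (nat_lit 2) (nat_lit 0x10022400036040008004001a0018080102))))) 
(.nd (nat_lit 26) (.nd (nat_lit 28) 
(.lf (nat_lit 1611145261) (dlOf (nat_lit 2) (nat_lit 0xc029800900d40014042000a01d0005000000000280058008006c002000a00080f0d03))) 
(.lf (nat_lit 805838893) (dlOf (nat_lit 1) (nat_lit 0x3d000200be00081c0a02)))) (.nd (nat_lit 30) 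
(.lf (nat_lit 738730029) (dlOf (nat_lit 2) (nat_lit 0xc029800900d40014042000a01d0005000000000280058008006c002000a00080f0d03))) 
(.lf (nat_lit 3959955501) (dlOf (nat_lit 2) (nat_lit 0xaa040003eb818170000))))))) (.nd (nat_lit 24) 
(.nd (nat_lit 6) (.nd (nat_lit 5) (.nd (nat_lit 26) 
(.lf (nat_lit 1344806925) (dlOf (nat_lit 1) (nat_lit 0x20018980001))) 
(.lf (nat_lit 1009262605) (dlOf (nat_lit 1) (nat_lit 0x4002000200090d0182)))) (.nd (nat_lit 22) 
(.nd (nat_lit 28) (.lf (nat_lit 2629677) (dlOf (nat_lit 1) (nat_lit 0x220002003c0008180d82))) 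
(.lf (nat_lit 3492290605) (dlOf (nat_lit 2) (nat_lit 0x141140002302002a00180c0d81)))) 
(.lf (nat_lit 15212589) (dlOf (nat_lit 2) (nat_lit 0x2740000210187c0680))))) (.nd (nat_lit 20) 
(.nd (nat_lit 9) (.lf (nat_lit 3492290637) (dlOf (nat_lit 1) (nat_lit 0x1200280c1501))) 
(.lf (nat_lit 472394317) (dlOf (nat_lit 4) (nat_lit 0x28214000c0ea0001d0400040850000e01000304280006c080038008000400200060008985283)))) 
(.nd (nat_lit 26) (.nd (nat_lit 28) 
(.lf (nat_lit 3678285) (dlOf (nat_lit 1) (nat_lit 0x40028210f01))) 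
(.lf (nat_lit 3493339213) (dlOf (nat_lit 2) (nat_lit 0xc00000005818120f80)))) 
(.lf (nat_lit 2755141709) (dlOf (nat_lit 2) (nat_lit 0xc00000005818120f80)))))) (.nd (nat_lit 20) 
(.nd (nat_lit 23) (.nd (nat_lit 6) 
(.lf (nat_lit 19406861) (dlOf (nat_lit 1) (nat_lit 0x8008000400200020008990583))) 
(.lf (nat_lit 23601485) (dlOf (nat_lit 1) (nat_lit 0x400200020008b80602)))) (.nd (nat_lit 5) 
(.lf (nat_lit 61349901) (dlOf (nat_lit 1) (nat_lit 0x7000201400009920002))) 
(.lf (nat_lit 27795501) (dlOf (nat_lit 1) (nat_lit 0x400400020008d20802))))) (.nd (nat_lit 8) 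
(.nd (nat_lit 10) (.lf (nat_lit 58204685) (dlOf (nat_lit 1) (nat_lit 0x88002003200097c7b02))) 
(.lf (nat_lit 20459021) (dlOf (nat_lit 1) (nat_lit 0x400289d7081)))) 
(.lf (nat_lit 58204429) (dlOf (nat_lit 1) (nat_lit 0x50002001a00097c3a02)))))))) (.nd (nat_lit 5) 
(.nd (nat_lit 6) (.nd (nat_lit 8) (.nd (nat_lit 19) (.nd (nat_lit 10) (.nd (nat_lit 11) 
(.lf (nat_lit 2105485) (dlOf (nat_lit 2) (nat_lit 0x2e80c0007604000400400060018150102))) 
(.lf (nat_lit 3221235853) (dlOf (nat_lit 1) (nat_lit 0x18008000400200140008004803)))) 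
(.nd (nat_lit 26) (.lf (nat_lit 15501) (dlOf (nat_lit 1) (nat_lit 0x800800040020002000800c203))) 
(.lf (nat_lit 4227873933) (dlOf (nat_lit 1) (nat_lit 0x40040002000800c202))))) (.nd (nat_lit 29) 
(.nd (nat_lit 21) 
(.lf (nat_lit 1409818765) (dlOf (nat_lit 21) (nat_lit 0x68e05c0002e81025402e000160081a38170000ae040ff40b80005602041a05c000290104e602e000144082480170000a004140c0b80004f02002605c0002701050302e000134082810170000980401b80b800a40240052010800128180048170004c04800220210001e83001002e0018809000e40420003b06000205c008701200430084000740c00540b80003702005c05f00d602e0085812c0040072009e03000f2012007f00840044016000361000b005c008f012004b00840002e0c00240b800160210000882071d02e000000080060008056800207cc0008090103))) 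
(.lf (nat_lit 23601293) (dlOf (nat_lit 1) (nat_lit 0xc00200060008b80102)))) (.nd (nat_lit 27) 
(.lf (nat_lit 537403533) (dlOf (nat_lit 2) (nat_lit 0x22017000000040068004000e0008090102))) 
(.lf (nat_lit 3892846733) (dlOf (nat_lit 1) (nat_lit 0x20018280481)))))) (.nd (nat_lit 25) 
(.nd (nat_lit 21) (.nd (nat_lit 19) 
(.lf (nat_lit 5167393165) (dlOf (nat_lit 1) (nat_lit 0x40008004e81))) 
(.lf (nat_lit 4698155405) (dlOf (nat_lit 1) (nat_lit 0x2c00400020008124e82)))) (.nd (nat_lit 10) 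
(.lf (nat_lit 1881155981) (dlOf (nat_lit 1) (nat_lit 0x3c0018e24e81))) 
(.lf (nat_lit 2754620813) (dlOf (nat_lit 1) (nat_lit 0x200180f6c81))))) (.nd (nat_lit 19) 
(.nd (nat_lit 23) (.lf (nat_lit 36710797) (dlOf (nat_lit 1) (nat_lit 0x40019074e81))) 
(.lf (nat_lit 45099405) (dlOf (nat_lit 1) (nat_lit 0x400400020019324e82)))) (.nd (nat_lit 10) 
(.lf (nat_lit 38283661) (dlOf (nat_lit 1) (nat_lit 0x400400020009134e82))) 
(.lf (nat_lit 61351309) (dlOf (nat_lit 1) (nat_lit 0x2c0019923601))))))) (.nd (nat_lit 11) 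
(.nd (nat_lit 8) (.nd (nat_lit 9) (.nd (nat_lit 12) 
(.lf (nat_lit 14164173) (dlOf (nat_lit 1) (nat_lit 0x800400380018750482))) 
(.lf (nat_lit 1342189773) (dlOf (nat_lit 1) (nat_lit 0x520028008001)))) (.nd (nat_lit 20) 
(.lf (nat_lit 1476408013) (dlOf (nat_lit 1) (nat_lit 0x98004002c0018008c82))) 
(.lf (nat_lit 19935949) (dlOf (nat_lit 1) (nat_lit 0x80080004002000200089d8c83))))) 
(.nd (nat_lit 26) (.lf (nat_lit 4563411405) (dlOf (nat_lit 1) (nat_lit 0xae0008001101))) 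
(.nd (nat_lit 28) (.lf (nat_lit 738206157) (dlOf (nat_lit 1) (nat_lit 0x20028001101))) 
(.lf (nat_lit 3154125261) (dlOf (nat_lit 2) (nat_lit 0x2811c0007804000c00400180018001102)))))) 
(.nd (nat_lit 9) (.nd (nat_lit 12) (.nd (nat_lit 10) 
(.lf (nat_lit 671099341) (dlOf (nat_lit 1) (nat_lit 0x20028004e81))) 
(.lf (nat_lit 1409297869) (dlOf (nat_lit 1) (nat_lit 0x400200020008006d02)))) (.nd (nat_lit 8) 
(.lf (nat_lit 1342191821) (dlOf (nat_lit 2) (nat_lit 0x3027401480040068004000a000800a882))) 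
(.lf (nat_lit 1342192077) (dlOf (nat_lit 2) (nat_lit 0x2204e8003d408005000800380020010000800b083))))) 
(.nd (nat_lit 26) 
(.lf (nat_lit 5368720333) (dlOf (nat_lit 1) (nat_lit 0x8008000400200020008005d83))) 
(.lf (nat_lit 4764740557) (dlOf (nat_lit 1) (nat_lit 0x400400020008005d82))))))) (.nd (nat_lit 6) 
(.nd (nat_lit 8) (.nd (nat_lit 9) (.nd (nat_lit 10) (.nd (nat_lit 27) 
(.lf (nat_lit 3221235885) (dlOf (nat_lit 1) (nat_lit 0x260018004901))) 
(.lf (nat_lit 4429195437) (dlOf (nat_lit 1) (nat_lit 0x800400020008004902)))) 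
(.lf (nat_lit 36709549) (dlOf (nat_lit 1) (nat_lit 0x800200020009072c02)))) (.nd (nat_lit 27) 
(.lf (nat_lit 4294979245) (dlOf (nat_lit 1) (nat_lit 0x20008007281))) 
(.lf (nat_lit 939536045) (dlOf (nat_lit 2) (nat_lit 0x401a0001e818007280))))) (.nd (nat_lit 21) 
(.nd (nat_lit 11) (.nd (nat_lit 9) 
(.lf (nat_lit 3221758381) (dlOf (nat_lit 1) (nat_lit 0x1000200260008170782))) 
(.lf (nat_lit 4362086317) (dlOf (nat_lit 2) (nat_lit 0x900000002e04003400200220008004302)))) 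
(.nd (nat_lit 22) (.lf (nat_lit 3490195885) (dlOf (nat_lit 1) (nat_lit 0x20018004e81))) 
(.lf (nat_lit 46672301) (dlOf (nat_lit 1) (nat_lit 0x20029384e81))))) (.nd (nat_lit 19) 
(.nd (nat_lit 9) (.lf (nat_lit 2754619821) (dlOf (nat_lit 1) (nat_lit 0x200180f4e81))) 
(.lf (nat_lit 19934125) (dlOf (nat_lit 1) (nat_lit 0x2c00189d5d01)))) (.nd (nat_lit 20) 
(.lf (nat_lit 6377974189) (dlOf (nat_lit 1) (nat_lit 0x8008000c002000200080e4e83))) 
(.lf (nat_lit 20457901) (dlOf (nat_lit 1) (nat_lit 0x400289d4e81))))))) (.nd (nat_lit 8) 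
(.nd (nat_lit 9) (.nd (nat_lit 11) (.nd (nat_lit 20) 
(.lf (nat_lit 3892846829) (dlOf (nat_lit 1) (nat_lit 0x80080018002002a0008280603))) 
(.lf (nat_lit 471343341) (dlOf (nat_lit 1) (nat_lit 0x800082e0601)))) (.nd (nat_lit 10) 
(.lf (nat_lit 8927469) (dlOf (nat_lit 1) (nat_lit 0x18001851a901))) 
(.lf (nat_lit 2754620653) (dlOf (nat_lit 1) (nat_lit 0x400080f6501))))) (.nd (nat_lit 10) 
(.nd (nat_lit 11) (.lf (nat_lit 3691000557) (dlOf (nat_lit 1) (nat_lit 0x3c800204640008008e02))) 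
(.lf (nat_lit 6377974509) (dlOf (nat_lit 2) (nat_lit 0x60740000c0180e5a00)))) 
(.lf (nat_lit 469772013) (dlOf (nat_lit 1) (nat_lit 0x240018003b01))))) (.nd (nat_lit 9) 
(.nd (nat_lit 11) (.nd (nat_lit 26) 
(.lf (nat_lit 1342710253) (dlOf (nat_lit 1) (nat_lit 0x4002000200080c0d02))) 
(.lf (nat_lit 470295021) (dlOf (nat_lit 1) (nat_lit 0x4002000200080c0d02)))) (.nd (nat_lit 26) 
(.lf (nat_lit 536885741) (dlOf (nat_lit 1) (nat_lit 0xe000800b281))) 
(.lf (nat_lit 201341421) (dlOf (nat_lit 1) (nat_lit 0x4000800040020004000800b283))))) 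
(.nd (nat_lit 19) (.nd (nat_lit 21) 
(.lf (nat_lit 2751472621) (dlOf (nat_lit 1) (nat_lit 0x20018002881))) 
(.lf (nat_lit 4095747053) (dlOf (nat_lit 1) (nat_lit 0x2c004001600080e2882)))) (.nd (nat_lit 23) 
(.lf (nat_lit 1344807917) (dlOf (nat_lit 1) (nat_lit 0x70008000800200040008982883))) 
(.lf (nat_lit 44573677) (dlOf (nat_lit 1) (nat_lit 0x20029322881)))))))))) (.nd (nat_lit 26) 
(.nd (nat_lit 6) (.nd (nat_lit 5) (.nd (nat_lit 29) (.nd (nat_lit 19) (.nd (nat_lit 10) 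
(.nd (nat_lit 30) (.nd (nat_lit 22) 
(.lf (nat_lit 134488077) (dlOf (nat_lit 9) (nat_lit 0x180bc0013804001805e0009b02000202f0004d0100a80178002580800280bc0011a04000805e0008b02003802f0004281006201780020c080068008006400200100008030483))) 
(.lf (nat_lit 12853261) (dlOf (nat_lit 3) (nat_lit 0x14c6c001461b0000982000e31b0000440800c80080064002000e00086e0383)))) 
(.nd (nat_lit 7) 
(.lf (nat_lit 1342447629) (dlOf (nat_lit 45) (nat_lit 0x12691238933090c5c94478000223a172711b831187dc477c3a223b41cf17460e6893407140e1438624f41c1023d0dd899885cc005800a001601e28f824714741218c9c88f000b44742db2237025d0fb89fa07444fd039e294e1cd14800e28224870c4d3038202dc1bb13100b980057c704fb091c262c4861f4e23c0f1711b85c08744384439e1f0e1cd0a520e281a807041f082e60015e141ea22470f3d12189f388f04ec046e17a01d1020f0e789d887343dbc38a10ac1c10e6a0b98005745005089387e6848e16be2451f7d12184680904911847819a223a1dc111b81ab08d416f03f812141f709cc0fa836607ac11dc3cc00281dc00160eb8f9687447c883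9e05001cd08d20e58fe2871447e038639281c109230df83f686ec160c2f0269a1730a370b782fc01a00008000001583c29c624714e71218cd888f006084742ea2237149b0e88a05073c3ac039a2a021c506a80e1885587043fcc2e600157182a0824700611228a82090c0038482335623c01e811d0cd688dc02ac3f810961f700080f58a430744523839e33941cd15030e28301070c544838200241bf03970dd806785e0571c2e6003a16f000ab1509111238452890c3aa047819ea23704eb0e8868c873423c838a02ec1c106bc0b980055448119091c118447802e81d1030c0e28005302000688f00029604014848e0a7e23c00cc0e8824007140028a100d5c48e0ad823c03b80e88119873c13a838a001430a008c1e800640c2003405fc018c1280013b0800ce1e800670c2000b0608019c2fe00cc0940009c85001d11e000e08dc004439a0011306060a23c024a11b81c08734003c38a000e608062224702f012182f788f0169446e00e81d1007d0e681660714001ba1c49a048e24ce243172011e0b9388dc0c6c3ee23c61d10fd20e78ba50734499838a03721c312750e0818606ec4c902e6000216f013000280850000001b24022b848e119c2430c6411e049008dc25883a204f21cf09490e68511071425c83820aa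21730006c0a144a1238a26890c64204782df6237025c0fb89e207441bf439e291a1cd144f0e289cb870406d43761ef41730006b8c0a3b12384f7090c36e847815e823709180e8800c073c2e5839a137e1c50a160e0839385cc001ac281a6c48e0cb0243094711e035388dc17e03a212481cd06560e2831007040c702e6000d5123f382471f77121922808f0773446e00781fc075e0fb8f9a07442ff039e04e61cd1fbf0e28e6807042398376008417813070b9802405bc0019e3c532448e29ac24319a011e0ba688dc52143a204041cf01d90e68a7387144e7038202a4173000670a14591238a2c890c63fc478000a23a190211b820a07dc4f643a2217c1cf19230e68a2b87140a6038628c61c100020df826e06ec53fc2e6000cd1e12442470853121866188f02a3046e11341d109260e684a1871423bc382022a17300066090523123828d090c1d704780aae23704f40e8845e0734146038a0a141c103530b980032c482dc891c15ec4860efe23c056d11b82d9874414ac39a0cb81c504270e080b705cc0019424106439e000c60202b01cf000620108301238012090c42484780af22370b2f0e8852f073c098439a14e81c5024a0b9800270482fb88f0088046e04ca1d102310e781040714001361403e047801c21cf0004d0204c411e000e08dc00643a202c61cf00870e2800258281e288f001cc3a2031c1cf00f00e280025420002873c0008e04001839e0004602000e1cf0001e8100130e78000b4080c408f000483a203161cf001e0e28000842002c873c00040040adc4780001d0200f01cf0000d010c111238664890c4a0c4781e8a2370b230e885da0734303438a164c1c10b5c0b98000004803d000801b000202140008030483)))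 
(.lf (nat_lit 3221498253) (dlOf (nat_lit 1) (nat_lit 0x74002002e0008114e82))))) (.nd (nat_lit 11) 
(.lf (nat_lit 50603021) (dlOf (nat_lit 1) (nat_lit 0xa00294c2881))) 
(.lf (nat_lit 46410765) (dlOf (nat_lit 1) (nat_lit 0x60029385f81))))) (.nd (nat_lit 7) 
(.nd (nat_lit 8) (.lf (nat_lit 8134669) (dlOf (nat_lit 1) (nat_lit 0x400200020008510002))) 
(.lf (nat_lit 19674381) (dlOf (nat_lit 1) (nat_lit 0x4002000200089d9682)))) (.nd (nat_lit 8) 
(.nd (nat_lit 28) 
(.lf (nat_lit 1843341) (dlOf (nat_lit 2) (nat_lit 0x252e0000ec080008008003c002002c0008150103))) 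
(.lf (nat_lit 3491504269) (dlOf (nat_lit 2) (nat_lit 0xc02300006c04000800200060008090102)))) 
(.lf (nat_lit 38545805) (dlOf (nat_lit 1) (nat_lit 0x80029134e81)))))) (.nd (nat_lit 31) 
(.nd (nat_lit 27) (.nd (nat_lit 28) 
(.lf (nat_lit 537141261) (dlOf (nat_lit 2) (nat_lit 0xc05c001d02c8006841000f0008004c00200320008030483))) 
(.lf (nat_lit 805576717) (dlOf (nat_lit 1) (nat_lit 0xc00400060008130482)))) 
(.lf (nat_lit 671358989) (dlOf (nat_lit 2) (nat_lit 0x4c04a003802200600828160480)))) 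
(.nd (nat_lit 7) (.nd (nat_lit 8) (.nd (nat_lit 19) 
(.lf (nat_lit 3087278093) (dlOf (nat_lit 2) (nat_lit 0x3200e80017c080148008009000200620008160483))) 
(.lf (nat_lit 2819366925) (dlOf (nat_lit 2) (nat_lit 0x20218005c4080390008018400200300008250183)))) 
(.lf (nat_lit 2818846477) (dlOf (nat_lit 1) (nat_lit 0x18000801b8002014e0008127483)))) 
(.lf (nat_lit 2818846861) (dlOf (nat_lit 1) (nat_lit 0x40028127d81)))))) (.nd (nat_lit 23) 
(.nd (nat_lit 28) (.nd (nat_lit 27) (.nd (nat_lit 19) (.nd (nat_lit 29) 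
(.lf (nat_lit 6442721325) (dlOf (nat_lit 1) (nat_lit 0x3000400040008190802))) 
(.lf (nat_lit 537141293) (dlOf (nat_lit 3) (nat_lit 0x660000000bc0802680000005c040054002004c0008030c02)))) 
(.lf (nat_lit 2891821) (dlOf (nat_lit 1) (nat_lit 0x180080004002000200081d0603)))) (.nd (nat_lit 8) 
(.lf (nat_lit 134488109) (dlOf (nat_lit 1) (nat_lit 0x20018030c01))) 
(.lf (nat_lit 3892584749) (dlOf (nat_lit 1) (nat_lit 0xc8008005400200320008160703))))) 
(.nd (nat_lit 8) (.nd (nat_lit 19) (.nd (nat_lit 27) 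
(.lf (nat_lit 1342447661) (dlOf (nat_lit 1) (nat_lit 0x8008000400200020008030c03))) 
(.lf (nat_lit 939794477) (dlOf (nat_lit 1) (nat_lit 0x200028180681)))) 
(.lf (nat_lit 1346117677) (dlOf (nat_lit 1) (nat_lit 0x20018e50981)))) (.nd (nat_lit 7) 
(.lf (nat_lit 3490980141) (dlOf (nat_lit 2) (nat_lit 0x40f3000070080028008001400200080008047a03))) 
(.lf (nat_lit 1880893869) (dlOf (nat_lit 1) (nat_lit 0x800400040008c94e82)))))) (.nd (nat_lit 19) 
(.nd (nat_lit 24) (.nd (nat_lit 9) 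
(.lf (nat_lit 44310573) (dlOf (nat_lit 6) (nat_lit 0xd18f80068c4e0001b04003063e001a31380002c1000b98f8005cc4e0000a04002063e00123138000241000b98f80060c4e0000804000c00192f0c81))) 
(.lf (nat_lit 8660525) (dlOf (nat_lit 1) (nat_lit 0x8008000c00200020008513783)))) (.nd (nat_lit 20) 
(.lf (nat_lit 25436205) (dlOf (nat_lit 1) (nat_lit 0x100018c00601))) 
(.lf (nat_lit 30679085) (dlOf (nat_lit 1) (nat_lit 0x8008002000200020008e40e03))))) 
(.nd (nat_lit 20) 
(.lf (nat_lit 59514925) (dlOf (nat_lit 5) (nat_lit 0x5499f80154cf80142595005126a0000902003419f80074cf800c8595001826a00008c2001d99f80002a0400fccfc003867c00242ca800b13500001e10007400400020009800282))) 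
(.nd (nat_lit 24) (.lf (nat_lit 45883437) (dlOf (nat_lit 1) (nat_lit 0x140019360281))) 
(.lf (nat_lit 29106221) (dlOf (nat_lit 1) (nat_lit 0x40018dc0b01)))))))) (.nd (nat_lit 19) 
(.nd (nat_lit 11) (.nd (nat_lit 27) (.nd (nat_lit 29) (.nd (nat_lit 21) 
(.lf (nat_lit 29630541) (dlOf (nat_lit 2) (nat_lit 0x102b8300043018e30180))) 
(.lf (nat_lit 35921997) (dlOf (nat_lit 1) (nat_lit 0x380019010001)))) (.nd (nat_lit 5) 
(.lf (nat_lit 537141325) (dlOf (nat_lit 2) (nat_lit 0xd02c000010080040008004800200400008030f83))) 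
(.lf (nat_lit 1879318637) (dlOf (nat_lit 1) (nat_lit 0xc0002000200080d1502))))) (.nd (nat_lit 7) 
(.nd (nat_lit 29) 
(.lf (nat_lit 134488141) (dlOf (nat_lit 4) (nat_lit 0x300c40000804000c022000020200380310016008800000100018008006000200120008030f83))) 
(.lf (nat_lit 671359053) (dlOf (nat_lit 2) (nat_lit 0x2404a000000200020008160901)))) 
(.nd (nat_lit 8) 
(.lf (nat_lit 4697891021) (dlOf (nat_lit 2) (nat_lit 0x3c0380050011000168280c1800))) 
(.lf (nat_lit 5772682189) (dlOf (nat_lit 1) (nat_lit 0x400200020008092882)))))) (.nd (nat_lit 5) 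
(.nd (nat_lit 8) (.lf (nat_lit 35924557) (dlOf (nat_lit 1) (nat_lit 0x20019015281))) 
(.nd (nat_lit 9) (.lf (nat_lit 3624152397) (dlOf (nat_lit 1) (nat_lit 0x460028146a01))) 
(.lf (nat_lit 20196173) (dlOf (nat_lit 1) (nat_lit 0x4002000200089d5c02))))) (.nd (nat_lit 7) 
(.lf (nat_lit 3489938797) (dlOf (nat_lit 1) (nat_lit 0x40040002000800c902))) 
(.lf (nat_lit 57944813) (dlOf (nat_lit 2) (nat_lit 0x1a5230002a8d00001c08001c004018c0019795a02)))))) 
(.nd (nat_lit 21) (.nd (nat_lit 23) (.nd (nat_lit 8) (.nd (nat_lit 22) 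
(.lf (nat_lit 5773205581) (dlOf (nat_lit 2) (nat_lit 0x15a131000078180b0600))) 
(.lf (nat_lit 6037581) (dlOf (nat_lit 1) (nat_lit 0x400400020008420182)))) 
(.lf (nat_lit 1843533) (dlOf (nat_lit 1) (nat_lit 0x400400060018150602)))) (.nd (nat_lit 20) 
(.lf (nat_lit 59514957) (dlOf (nat_lit 2) (nat_lit 0x12e67b009c2c9004a9394027c9a60003608001a0019800681))) 
(.lf (nat_lit 10231885) (dlOf (nat_lit 1) (nat_lit 0x4002000200085c0f82))))) (.nd (nat_lit 7) 
(.nd (nat_lit 5) (.nd (nat_lit 22) 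
(.lf (nat_lit 53223501) (dlOf (nat_lit 1) (nat_lit 0x400200020009570002))) 
(.lf (nat_lit 7086157) (dlOf (nat_lit 1) (nat_lit 0x4004000200084b0182)))) 
(.lf (nat_lit 8135021) (dlOf (nat_lit 1) (nat_lit 0x20028510f81)))) (.nd (nat_lit 10) 
(.lf (nat_lit 53223885) (dlOf (nat_lit 1) (nat_lit 0x600080028002000c0009571103))) 
(.lf (nat_lit 8136141) (dlOf (nat_lit 1) (nat_lit 0x20008513601)))))))) (.nd (nat_lit 27) 
(.nd (nat_lit 7) (.nd (nat_lit 28) (.nd (nat_lit 6) (.nd (nat_lit 30) 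
(.lf (nat_lit 4362346509) (dlOf (nat_lit 2) (nat_lit 0xa0520037b018030a00))) 
(.lf (nat_lit 5436088333) (dlOf (nat_lit 1) (nat_lit 0x1b80080014002001800080c0003)))) 
(.nd (nat_lit 21) (.lf (nat_lit 4899217485) (dlOf (nat_lit 1) (nat_lit 0x200280d0001))) 
(.lf (nat_lit 69476429) (dlOf (nat_lit 1) (nat_lit 0x2a0018a20001))))) (.nd (nat_lit 5) 
(.nd (nat_lit 6) (.nd (nat_lit 19) 
(.lf (nat_lit 1409556493) (dlOf (nat_lit 2) (nat_lit 0xc05c001d02c8006a41000f0008004c00200320008030483))) 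
(.lf (nat_lit 3557564429) (dlOf (nat_lit 1) (nat_lit 0x80002002a0008270182)))) 
(.lf (nat_lit 1409556557) (dlOf (nat_lit 2) (nat_lit 0xd02c000010080040008004800200400008030f83)))) 
(.nd (nat_lit 19) 
(.lf (nat_lit 1409556525) (dlOf (nat_lit 3) (nat_lit 0x660000000b008026800000056040054002004c0008030c02))) 
(.lf (nat_lit 4096532525) (dlOf (nat_lit 1) (nat_lit 0x58002007e0008120382)))))) (.nd (nat_lit 6) 
(.nd (nat_lit 5) (.nd (nat_lit 8) (.nd (nat_lit 12) 
(.lf (nat_lit 2753306765) (dlOf (nat_lit 2) (nat_lit 0x630448000d8080040008000800200100008090103))) 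
(.lf (nat_lit 3557044365) (dlOf (nat_lit 1) (nat_lit 0x40028127d81)))) 
(.lf (nat_lit 3557046157) (dlOf (nat_lit 1) (nat_lit 0x2002812a301)))) (.nd (nat_lit 8) 
(.lf (nat_lit 4362874541) (dlOf (nat_lit 1) (nat_lit 0x400200020008117282))) 
(.lf (nat_lit 4093913517) (dlOf (nat_lit 1) (nat_lit 0xc00400040008004e82))))) (.nd (nat_lit 9) 
(.nd (nat_lit 8) (.lf (nat_lit 5436088525) (dlOf (nat_lit 1) (nat_lit 0x200080c1b81))) 
(.lf (nat_lit 872686029) (dlOf (nat_lit 1) (nat_lit 0x20018091101)))) (.nd (nat_lit 10) 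
(.lf (nat_lit 2751734733) (dlOf (nat_lit 1) (nat_lit 0x380080008002000c0008002883))) 
(.lf (nat_lit 2751739853) (dlOf (nat_lit 1) (nat_lit 0x8002800a601))))))) (.nd (nat_lit 29) 
(.nd (nat_lit 28) (.nd (nat_lit 5) (.nd (nat_lit 6) 
(.lf (nat_lit 201596941) (dlOf (nat_lit 9) (nat_lit 0x180bc0013804001805e0009b02000202f0004d0100a80178002580800280bc0011a04000805e0008b02003802f0004281006201780020c080068008006400200100008030483))) 
(.nd (nat_lit 7) 
(.lf (nat_lit 201597005) (dlOf (nat_lit 4) (nat_lit 0x300c40000804000c022000020200380310016008800000100018008006000200120008030f83))) 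
(.lf (nat_lit 4496567245) (dlOf (nat_lit 3) (nat_lit 0x101900006c0800180c80003004011c004003600080e5d82))))) 
(.nd (nat_lit 7) (.lf (nat_lit 201596973) (dlOf (nat_lit 1) (nat_lit 0x20018030c01))) 
(.lf (nat_lit 4496567213) (dlOf (nat_lit 1) (nat_lit 0x1f000800ec002003a00080e5d03))))) 
(.nd (nat_lit 5) (.nd (nat_lit 6) (.nd (nat_lit 19) 
(.lf (nat_lit 470032397) (dlOf (nat_lit 45) (nat_lit 0x12691238933090c5c94478000223a172711b831187dc477c3a223b41cf17460e6893407140e1438624f41c1023d0dd899885c40058008001601e28f824714741218c9c88f000b44742db2237025d0fb89fa07444fd039e294e1cd14800e28224870c4d3038202dc1bb13100b880057c704fb091c262c4861f4e23c0f1711b85c08744384439e1f0e1cd0a520e281a807041f082e20015e141ea22470f3d12189f388f04ec046e17a01d1020f0e789d887343dbc38a10ac1c10e6a0b88005745005089387e6848e16be2451f7d12184680904911847819a223a1dc111b81ab08d416f03f412141f709cc0fa836607ac11dc3cc00281dc00160eb8f9687447c8839e05001cd08d20e58fe2871447e038639281c1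09230df83f686ec160c2ec269a1710a370b782fc01bc0008000001583c29c624714e71218cd888f006084742ea2237149b0e88a05073c3ac039a2a021c506a80e1885587043fcc2e200157182a0824700611228a82090c0038482335623c01e811d0cd688dc02ac3f410961f700080f58a430744523839e33941cd15030e28301070c544838200241bf03970dd806785d8571c2e2003a16f000ab1509111238452890c3aa047819ea23704eb0e8868c873423c838a02ec1c106bc0b880055448119091c118447802e81d1030c0e28005302000688f00029604014848e0a7e23c00cc0e8824007140028a100d5c48e0ad823c03b80e88119873c13a838a001430a008c1e800640c0803405e8018c1280013b0800ce1e800670c0800b05f4019c2f400cc0940009c85001d11e000e08dc004439a0011706060a23c024a11b81c08734003c38a000e508062224702f012182f788f0169446e00e81d1007d0e681660714001b81c49a048e24ce243172011e0b9388dc0c6c3ee23c61d10fd20e78ba50734499838a03721c312750e0818606ec4c902e2000216f013000200850000001b24022b848e119c2430c6411e049008dc25883a204f21cf09490e68511071425c83820aa21710006c0a144a1238a26890c64204782df62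37025c0fb89e207441bf439e291a1cd144f0e289cb870406d43761ef41710006b8c0a3b12384f7090c36e847815e823709180e8800c073c2e5839a137e1c50a160e0839385c4001ac281a6c48e0cb0243094711e035388dc17e03a212481cd06560e2831007040c702e2000d5123f382471f77121922808f0773446e00781fa075e0fb8f9a07442ff039e04e61cd1fbf0e28e6807042398376008417613070b8802405bc0019e3c532448e29ac24319a011e0ba688dc52143a204041cf01d90e68a7387144e7038202a4171000670a14591238a2c890c63fc478000a23a190211b820a07dc4f643a2217c1cf19230e68a2b87140a6038628c61c100020df826e06ec53fc2e2000cd1e12442470853121866188f02a3046e11341d109260e684a1871423bc382022a17100066090523123828d090c1d704780aae23704f40e8845e0734146038a0a141c103530b880032c482dc891c15ec4860efe23c056d11b82d9874414ac39a0cb81c504270e080b705c40019424106439e000c60202b01cf000620108301238012090c42484780af22370b2f0e8852f073c098439a14e81c5024a0b8800270482fb88f0088046e04ca1d102310e781040714001361403e047801c21cf0004d0204c411e000e08dc00643a202c61cf00870e2800258281e288f001cc3a2031c1cf00f00e280025420002873c0007e04001839e0003e02000e1cf0001b8100130e78000a0080c408f000483a203161cf001e0e28000702002c873c00036040adc478000180200f01cf0000a810c111238664890c4a0c4781e8a2370b230e885da0734303438a164c1c10b5c0b88000004803d000801b000202140008030483)))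 
(.lf (nat_lit 471605261) (dlOf (nat_lit 2) (nat_lit 0x381f800bf8040038002001a0008350282)))) 
(.lf (nat_lit 474226765) (dlOf (nat_lit 2) (nat_lit 0x10b6006d2c0800100080008002000600090e0003)))) 
(.nd (nat_lit 30) 
(.lf (nat_lit 470032429) (dlOf (nat_lit 1) (nat_lit 0x8008000400200020008030c03))) 
(.lf (nat_lit 5838741549) (dlOf (nat_lit 1) (nat_lit 0x30004000c0008190902)))))) (.nd (nat_lit 5) 
(.nd (nat_lit 30) (.nd (nat_lit 8) (.nd (nat_lit 10) 
(.lf (nat_lit 5301870605) (dlOf (nat_lit 1) (nat_lit 0x1b80080014002001800080c0003))) 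
(.lf (nat_lit 1009003533) (dlOf (nat_lit 1) (nat_lit 0x4000200020009005f82)))) 
(.lf (nat_lit 738470669) (dlOf (nat_lit 1) (nat_lit 0x40028095b01)))) (.nd (nat_lit 6) 
(.nd (nat_lit 28) 
(.lf (nat_lit 1812209677) (dlOf (nat_lit 1) (nat_lit 0x2100080160002002a0008180483))) 
(.lf (nat_lit 4228128781) (dlOf (nat_lit 2) (nat_lit 0xa04b0064f818030a00)))) 
(.lf (nat_lit 6377185357) (dlOf (nat_lit 2) (nat_lit 0x15a122000078180b0600))))) (.nd (nat_lit 6) 
(.nd (nat_lit 7) (.nd (nat_lit 8) 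
(.lf (nat_lit 1812209709) (dlOf (nat_lit 1) (nat_lit 0x200028180681))) 
(.lf (nat_lit 2885953325) (dlOf (nat_lit 1) (nat_lit 0x20028143d81)))) 
(.lf (nat_lit 4228655277) (dlOf (nat_lit 1) (nat_lit 0x20018114901)))) (.nd (nat_lit 8) 
(.lf (nat_lit 1006903405) (dlOf (nat_lit 1) (nat_lit 0xc0002000200080d1502))) 
(.lf (nat_lit 3154387309) (dlOf (nat_lit 1) (nat_lit 0x800400040018160a02)))))))))) 
(.nd (nat_lit 18) (.nd (nat_lit 19) (.nd (nat_lit 7) (.nd (nat_lit 5) (.nd (nat_lit 8) 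
(.nd (nat_lit 6) (.nd (nat_lit 10) (.nd (nat_lit 21) 
(.lf (nat_lit 26255373) (dlOf (nat_lit 1) (nat_lit 0x8008000400200020008c20103))) 
(.lf (nat_lit 15769613) (dlOf (nat_lit 1) (nat_lit 0x900080034002001c0008830183)))) 
(.nd (nat_lit 9) (.nd (nat_lit 11) 
(.lf (nat_lit 3623920653) (dlOf (nat_lit 1) (nat_lit 0x3400400560008002882))) 
(.lf (nat_lit 402697229) (dlOf (nat_lit 2) (nat_lit 0x4f00d0000f0080008008001400200020008005f83)))) 
(.lf (nat_lit 5972733453) (dlOf (nat_lit 1) (nat_lit 0x800200060008007082))))) (.nd (nat_lit 21) 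
(.lf (nat_lit 25206861) (dlOf (nat_lit 1) (nat_lit 0x12400200260008bf0d02))) (.nd (nat_lit 25) 
(.lf (nat_lit 10526797) (dlOf (nat_lit 1) (nat_lit 0x4004000200085f1602))) 
(.lf (nat_lit 44081229) (dlOf (nat_lit 2) (nat_lit 0x852c0000fc0800180080004002000800092c0603)))))) 
(.nd (nat_lit 6) (.nd (nat_lit 10) (.nd (nat_lit 12) 
(.lf (nat_lit 19964173) (dlOf (nat_lit 1) (nat_lit 0x200189d0a81))) 
(.lf (nat_lit 19968269) (dlOf (nat_lit 1) (nat_lit 0x800289d8081)))) (.nd (nat_lit 9) 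
(.lf (nat_lit 1342221581) (dlOf (nat_lit 1) (nat_lit 0x100028006681))) 
(.lf (nat_lit 2952834829) (dlOf (nat_lit 1) (nat_lit 0x28008001000200060008007483))))) 
(.nd (nat_lit 9) (.nd (nat_lit 10) 
(.lf (nat_lit 6376431949) (dlOf (nat_lit 1) (nat_lit 0x2a0018090d01))) 
(.lf (nat_lit 50373965) (dlOf (nat_lit 1) (nat_lit 0x200094c3301)))) (.nd (nat_lit 20) 
(.lf (nat_lit 1409334093) (dlOf (nat_lit 2) (nat_lit 0x140a4000c0120056d02800bc80))) 
(.lf (nat_lit 19970893) (dlOf (nat_lit 1) (nat_lit 0x200189dbc81))))))) (.nd (nat_lit 30) 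
(.nd (nat_lit 21) (.nd (nat_lit 6) (.nd (nat_lit 22) 
(.lf (nat_lit 17866797) (dlOf (nat_lit 1) (nat_lit 0x2400200020008900b02))) 
(.lf (nat_lit 13672493) (dlOf (nat_lit 1) (nat_lit 0x4e0028740601)))) 
(.lf (nat_lit 6442498925) (dlOf (nat_lit 1) (nat_lit 0x800800040020002000800bc83)))) 
(.nd (nat_lit 6) (.nd (nat_lit 9) 
(.lf (nat_lit 23109677) (dlOf (nat_lit 2) (nat_lit 0x9d54c004e9fa00008028b60900))) 
(.lf (nat_lit 2754653741) (dlOf (nat_lit 4) (nat_lit 0x1003a0005402000801d000288100040100001380800e000800dc002001800080f7183)))) 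
(.lf (nat_lit 19969133) (dlOf (nat_lit 1) (nat_lit 0x14004000400189d9402))))) (.nd (nat_lit 8) 
(.nd (nat_lit 9) (.nd (nat_lit 10) 
(.lf (nat_lit 1543544877) (dlOf (nat_lit 1) (nat_lit 0xc00080b0001))) 
(.lf (nat_lit 1879092269) (dlOf (nat_lit 1) (nat_lit 0x60018006081)))) 
(.lf (nat_lit 1610656301) (dlOf (nat_lit 1) (nat_lit 0x40028005181)))) (.nd (nat_lit 6) 
(.nd (nat_lit 22) (.lf (nat_lit 5771403565) (dlOf (nat_lit 1) (nat_lit 0x2c0018000b01))) 
(.lf (nat_lit 1346412845) (dlOf (nat_lit 1) (nat_lit 0x1c0018f60b01)))) 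
(.lf (nat_lit 5972736877) (dlOf (nat_lit 1) (nat_lit 0x800800040020002000800bc83))))))) 
(.nd (nat_lit 11) (.nd (nat_lit 27) (.nd (nat_lit 21) (.nd (nat_lit 6) (.nd (nat_lit 9) 
(.lf (nat_lit 2755699117) (dlOf (nat_lit 2) (nat_lit 0x1160590000000800200080038002003200081b0783))) 
(.lf (nat_lit 2214634413) (dlOf (nat_lit 2) (nat_lit 0x804c0001c04000400200020008002682)))) 
(.nd (nat_lit 9) (.lf (nat_lit 2755698925) (dlOf (nat_lit 2) (nat_lit 0x240b20003c0181b0480))) 
(.lf (nat_lit 1073784557) (dlOf (nat_lit 1) (nat_lit 0x800400020008003b02))))) (.nd (nat_lit 5) 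
(.lf (nat_lit 11575437) (dlOf (nat_lit 2) (nat_lit 0x1aa280003b02000200186c0101))) 
(.nd (nat_lit 10) (.lf (nat_lit 10526893) (dlOf (nat_lit 1) (nat_lit 0x6e00185f4c01))) 
(.lf (nat_lit 36742317) (dlOf (nat_lit 1) (nat_lit 0x248008033800200c20009072c03)))))) 
(.nd (nat_lit 5) (.nd (nat_lit 8) (.nd (nat_lit 26) 
(.lf (nat_lit 671129805) (dlOf (nat_lit 3) (nat_lit 0x18058001d102000602c000e78180b0480))) 
(.lf (nat_lit 1543545037) (dlOf (nat_lit 3) (nat_lit 0x18058001d102000602c000e78180b0480)))) 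
(.nd (nat_lit 6) (.lf (nat_lit 2281743245) (dlOf (nat_lit 1) (nat_lit 0xc0028002581))) 
(.lf (nat_lit 3691033549) (dlOf (nat_lit 2) (nat_lit 0x2a022001f00c8000001000100080084002000e0008009203))))) 
(.nd (nat_lit 6) (.nd (nat_lit 8) 
(.lf (nat_lit 3355489453) (dlOf (nat_lit 2) (nat_lit 0xa0050033c818009500))) 
(.lf (nat_lit 671130029) (dlOf (nat_lit 1) (nat_lit 0x800080028002004800080b0783)))) 
(.lf (nat_lit 201369325) (dlOf (nat_lit 1) (nat_lit 0x400400020008003b02)))))) (.nd (nat_lit 28) 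
(.nd (nat_lit 5) (.nd (nat_lit 10) (.nd (nat_lit 21) 
(.lf (nat_lit 2818615693) (dlOf (nat_lit 1) (nat_lit 0x8000200320008004e82))) 
(.lf (nat_lit 31500685) (dlOf (nat_lit 2) (nat_lit 0x14cce00b0d0200080028e94e81)))) 
(.lf (nat_lit 3288378765) (dlOf (nat_lit 1) (nat_lit 0x140008006c81)))) (.nd (nat_lit 8) 
(.lf (nat_lit 43181) (dlOf (nat_lit 1) (nat_lit 0x20028004901))) (.nd (nat_lit 20) 
(.nd (nat_lit 27) (.lf (nat_lit 3758139821) (dlOf (nat_lit 1) (nat_lit 0x20028084e81))) 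
(.lf (nat_lit 2818615725) (dlOf (nat_lit 1) (nat_lit 0x20018004e81)))) 
(.lf (nat_lit 2754652589) (dlOf (nat_lit 1) (nat_lit 0x4002000200080f4e82)))))) (.nd (nat_lit 6) 
(.nd (nat_lit 5) (.nd (nat_lit 8) 
(.lf (nat_lit 6376434317) (dlOf (nat_lit 1) (nat_lit 0x400200020008095482))) 
(.lf (nat_lit 872458637) (dlOf (nat_lit 1) (nat_lit 0x100028004e81)))) 
(.lf (nat_lit 3154160045) (dlOf (nat_lit 1) (nat_lit 0x20028084e81)))) (.nd (nat_lit 8) 
(.nd (nat_lit 5) 
(.lf (nat_lit 1342224589) (dlOf (nat_lit 2) (nat_lit 0x40274014800400140040006001800a882))) 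
(.lf (nat_lit 1342221549) (dlOf (nat_lit 1) (nat_lit 0x20028006501)))) (.nd (nat_lit 9) 
(.lf (nat_lit 1409330637) (dlOf (nat_lit 1) (nat_lit 0x400200020008006d02))) 
(.lf (nat_lit 3489709005) (dlOf (nat_lit 1) (nat_lit 0xb0000800be81))))))))) (.nd (nat_lit 6) 
(.nd (nat_lit 5) (.nd (nat_lit 24) (.nd (nat_lit 28) (.nd (nat_lit 20) (.nd (nat_lit 7) 
(.nd (nat_lit 21) 
(.lf (nat_lit 1678286861) (dlOf (nat_lit 9) (nat_lit 0xc7010c001c404004805a000c402021a02d0003a81022e0168001d00803600b4000dc041ff405a0006d02033402d000360100630168001a80800380080090002010c00081d0083))) 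
(.lf (nat_lit 11051021) (dlOf (nat_lit 9) (nat_lit 0x248f9a009e7cb00351e5800d0f2400cc000000430a00bc7cd000210100e53e6803b9f2c00187920004106002ba0b0001f810151d0480899f340324f9600a23c901e40000000ec2801868240078f9a0003a0400a9a090001c01004c3e68000440801a0008010400200040008660103)))) 
(.lf (nat_lit 8958861) (dlOf (nat_lit 1) (nat_lit 0x720018519001)))) (.nd (nat_lit 23) 
(.lf (nat_lit 2753077261) (dlOf (nat_lit 3) (nat_lit 0x140ff8000a00800087fc0004e04004000200060008080102))) 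
(.lf (nat_lit 10002445) (dlOf (nat_lit 1) (nat_lit 0x580080040002002400085a0a03))))) 
(.nd (nat_lit 7) (.nd (nat_lit 20) (.nd (nat_lit 26) 
(.lf (nat_lit 805871629) (dlOf (nat_lit 9) (nat_lit 0xc7010c002e804004805a0015602021a02d0008101022e0168004040803600b4001f6041ff405a000fa02033402d0007c8100630168003dc0800380080090002010c00081d0083))) 
(.lf (nat_lit 3557335053) (dlOf (nat_lit 2) (nat_lit 0x40c0004a002000200281c0481)))) 
(.lf (nat_lit 3491274765) (dlOf (nat_lit 3) (nat_lit 0x140f68000500800087b40002604004000200060008080102)))) 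
(.nd (nat_lit 26) 
(.lf (nat_lit 1342742669) (dlOf (nat_lit 2) (nat_lit 0xe22f00020d18000ec100118008002c002000200080c0103))) 
(.lf (nat_lit 470327437) (dlOf (nat_lit 2) (nat_lit 0xe22f00020d98000ec100118008002c002000200080c0103)))))) 
(.nd (nat_lit 7) (.nd (nat_lit 21) (.nd (nat_lit 8) 
(.lf (nat_lit 21536781) (dlOf (nat_lit 1) (nat_lit 0x900080028002000e0008a40003))) 
(.lf (nat_lit 25731341) (dlOf (nat_lit 1) (nat_lit 0x20028c10701)))) (.nd (nat_lit 23) 
(.lf (nat_lit 19439629) (dlOf (nat_lit 1) (nat_lit 0x4004000200189a0a02))) 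
(.lf (nat_lit 27828237) (dlOf (nat_lit 4) (nat_lit 0x21604000bf020028b0200575720022ab8c003d5a2003ea0a00045050007577000000080220008004c00200100008d30183))))) 
(.nd (nat_lit 10) (.lf (nat_lit 23634061) (dlOf (nat_lit 1) (nat_lit 0xc00200060008b80102))) 
(.lf (nat_lit 20493453) (dlOf (nat_lit 1) (nat_lit 0x400089d9501)))))) (.nd (nat_lit 29) 
(.nd (nat_lit 7) (.nd (nat_lit 20) (.nd (nat_lit 21) 
(.lf (nat_lit 21536813) (dlOf (nat_lit 4) (nat_lit 0xa962000188100016f98000bc080056f1c002f65c000110400020008a40381))) 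
(.lf (nat_lit 32022573) (dlOf (nat_lit 1) (nat_lit 0x20028ed0281)))) 
(.lf (nat_lit 10002477) (dlOf (nat_lit 13) (nat_lit 0x971e78000c0080269f00013079e0002c04005ba0c00c6d050016e5ac004329e00fc94d00594a2004824d40194890017842100701e880230f2801b4000000291800e7a0a0020cb5800964b800391fe0046448005b210802a0000000501c001741400148ff005500000009c18051e828022b2d6002d94d000fc97806a64b801b11fe00368cf00dc3e000009efc0378890017c42100171eb006a0f3c01147940088000000128f0002d06000080080290000000220401d74180149a0a005b1e8802d8000000181001bb41800c1a0a000058200570000000280803f6830010f414008996b002f0000000202001c00080a04002017800085a0d03)))) 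
(.nd (nat_lit 22) (.lf (nat_lit 1345888685) (dlOf (nat_lit 1) (nat_lit 0x60018e06e81))) 
(.lf (nat_lit 58237357) (dlOf (nat_lit 1) (nat_lit 0x5a00097c6e81))))) (.nd (nat_lit 26) 
(.nd (nat_lit 27) (.nd (nat_lit 30) 
(.lf (nat_lit 805871661) (dlOf (nat_lit 3) (nat_lit 0x1804100070200000541000c8000000280400c4002007e00081d0d82))) 
(.lf (nat_lit 1879613485) (dlOf (nat_lit 1) (nat_lit 0x40028240881)))) 
(.lf (nat_lit 2819137581) (dlOf (nat_lit 1) (nat_lit 0x11800400a400081a0682)))) (.nd (nat_lit 9) 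
(.lf (nat_lit 1678286893) (dlOf (nat_lit 3) (nat_lit 0x1804100070200000541000c8000000280400c4002007e00081d0d82))) 
(.lf (nat_lit 4094206509) (dlOf (nat_lit 1) (nat_lit 0x400400020008018a82))))))) (.nd (nat_lit 22) 
(.nd (nat_lit 21) (.nd (nat_lit 8) (.nd (nat_lit 27) 
(.lf (nat_lit 67674189) (dlOf (nat_lit 2) (nat_lit 0x204b8002240800700080008002004200082d0183))) 
(.lf (nat_lit 3154681933) (dlOf (nat_lit 6) (nat_lit 0x240160002c80807b818c04640be01ce058011502b808b014c03a409c022a04901330230076010c0448080005003c011d01b808980d8045406001d802b0115014808a809c0450042024c020011800f8089806804d003202260180114009808d8028047401201d400100cc000000224e0060015c03a806e017a03600dd00f804b8064036003001ac00a00d7004804a80000011024045c0be017805800fc02b808a814c001809202400460008020008f00dc03f806c022c030011401080840080045c03e026a019011100c008a004c0468014023600900d4000806400000010c5000d80c600f405f005502c0001815c00040a600b2046007d01b800080d801bc04000f201f00ca00c804b806001dc01400d40090033000000214780090008090c00206ba0008310183))))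 
(.nd (nat_lit 5) (.lf (nat_lit 3892879693) (dlOf (nat_lit 1) (nat_lit 0x20028280781))) 
(.lf (nat_lit 25731437) (dlOf (nat_lit 1) (nat_lit 0x40028c10a01))))) (.nd (nat_lit 20) 
(.nd (nat_lit 7) (.lf (nat_lit 4096303181) (dlOf (nat_lit 1) (nat_lit 0x600180f1681))) 
(.lf (nat_lit 1009295821) (dlOf (nat_lit 1) (nat_lit 0x200090e1101)))) (.nd (nat_lit 26) 
(.lf (nat_lit 3493371981) (dlOf (nat_lit 2) (nat_lit 0x3034000181080001608012400400260008120f82))) 
(.lf (nat_lit 2755174477) (dlOf (nat_lit 2) (nat_lit 0x3034000181080001608012400400260008120f82)))))) 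
(.nd (nat_lit 7) (.nd (nat_lit 24) (.nd (nat_lit 26) 
(.lf (nat_lit 3494420557) (dlOf (nat_lit 2) (nat_lit 0x1020500015018220d00))) (.nd (nat_lit 27) 
(.lf (nat_lit 2756223053) (dlOf (nat_lit 2) (nat_lit 0x1021a00015818220d00))) 
(.lf (nat_lit 474521677) (dlOf (nat_lit 1) (nat_lit 0x400191a0681))))) (.nd (nat_lit 8) 
(.lf (nat_lit 21536845) (dlOf (nat_lit 1) (nat_lit 0x4000400080008a40502))) 
(.lf (nat_lit 23634253) (dlOf (nat_lit 1) (nat_lit 0x8008000400200020008b80603))))) 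
(.nd (nat_lit 5) (.lf (nat_lit 39365069) (dlOf (nat_lit 1) (nat_lit 0x8008000400200020009194e83))) 
(.nd (nat_lit 8) (.lf (nat_lit 40413933) (dlOf (nat_lit 1) (nat_lit 0x1000291f5a01))) 
(.lf (nat_lit 33073645) (dlOf (nat_lit 1) (nat_lit 0x60028f54f01))))))))) (.nd (nat_lit 5) 
(.nd (nat_lit 19) (.nd (nat_lit 30) (.nd (nat_lit 6) (.nd (nat_lit 22) (.nd (nat_lit 27) 
(.nd (nat_lit 7) (.nd (nat_lit 26) 
(.lf (nat_lit 4563705869) (dlOf (nat_lit 3) (nat_lit 0x802f00c8e8100030178064680801d00080018002004600080c0003))) 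
(.lf (nat_lit 2214895629) (dlOf (nat_lit 2) (nat_lit 0x1f000a0003b0200240028100101)))) 
(.lf (nat_lit 11837581) (dlOf (nat_lit 2) (nat_lit 0x90100007604000c002000200086c0102)))) 
(.nd (nat_lit 7) (.nd (nat_lit 29) 
(.lf (nat_lit 4697923597) (dlOf (nat_lit 3) (nat_lit 0x802f00e3501000301780719c0801d00080018002004600080c0003))) 
(.lf (nat_lit 3087310861) (dlOf (nat_lit 6) (nat_lit 0x1e802c000fa0401280160007c02001800b0003d81004f0058001d40802c002c000e6040270002002a0008170482)))) 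
(.lf (nat_lit 4697923981) (dlOf (nat_lit 1) (nat_lit 0x800180c5d81))))) (.nd (nat_lit 20) 
(.nd (nat_lit 25) 
(.lf (nat_lit 2755960845) (dlOf (nat_lit 5) (nat_lit 0xc0a80004053000c02800058134004007a00ae60a0018054000c02980038140002809a001203d0057285000e02a0007014c00200a0001a04d000d01e802b9028006015000240a60012050000d026800680f4015c61400e4002002400081c0682))) 
(.lf (nat_lit 38051853) (dlOf (nat_lit 1) (nat_lit 0x8008000400200020009120183)))) (.nd (nat_lit 8) 
(.lf (nat_lit 24420365) (dlOf (nat_lit 1) (nat_lit 0x41000802a400201d00008b90683))) 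
(.lf (nat_lit 47490317) (dlOf (nat_lit 1) (nat_lit 0xc0019403001)))))) (.nd (nat_lit 8) 
(.nd (nat_lit 20) (.nd (nat_lit 7) 
(.lf (nat_lit 5167685709) (dlOf (nat_lit 1) (nat_lit 0x440008100501))) 
(.lf (nat_lit 4697923789) (dlOf (nat_lit 2) (nat_lit 0x201c000168180c1800)))) (.nd (nat_lit 9) 
(.lf (nat_lit 24420429) (dlOf (nat_lit 1) (nat_lit 0x20008b90f01))) 
(.lf (nat_lit 39103053) (dlOf (nat_lit 1) (nat_lit 0x580019195281))))) (.nd (nat_lit 7) 
(.nd (nat_lit 9) (.lf (nat_lit 11837773) (dlOf (nat_lit 1) (nat_lit 0x4002000200086c0602))) 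
(.lf (nat_lit 20228941) (dlOf (nat_lit 1) (nat_lit 0x4002000200089d5c02)))) 
(.lf (nat_lit 2400717) (dlOf (nat_lit 1) (nat_lit 0x5a0008150a01)))))) (.nd (nat_lit 27) 
(.nd (nat_lit 6) (.nd (nat_lit 26) (.nd (nat_lit 22) 
(.lf (nat_lit 5369012237) (dlOf (nat_lit 1) (nat_lit 0x400080008002000800080c0003))) 
(.lf (nat_lit 3494158349) (dlOf (nat_lit 5) (nat_lit 0xc0a80004053000c02800058134004007a0056b0a0018054000c02980038140002809a001203d002b505000e02a0007014c00200a0001a04d000d01e8015a428006015000240a60012050000d026800680f400ad01400e4002002400081c0682)))) 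
(.nd (nat_lit 9) 
(.lf (nat_lit 3825508365) (dlOf (nat_lit 6) (nat_lit 0x1e802c000fa0401280160007c02001800b0003d81004f0058001d40802c002c000e6040270002002a0008170482))) 
(.lf (nat_lit 1946460685) (dlOf (nat_lit 1) (nat_lit 0xc00400160008090d82))))) (.nd (nat_lit 7) 
(.lf (nat_lit 1881451085) (dlOf (nat_lit 1) (nat_lit 0xa0028f05281))) (.nd (nat_lit 8) 
(.lf (nat_lit 5369012429) (dlOf (nat_lit 1) (nat_lit 0x200180c1801))) 
(.lf (nat_lit 1610916301) (dlOf (nat_lit 1) (nat_lit 0x80018091101)))))) (.nd (nat_lit 28) 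
(.nd (nat_lit 26) (.nd (nat_lit 31) 
(.lf (nat_lit 5503229965) (dlOf (nat_lit 1) (nat_lit 0x400080008002000800080c0003))) 
(.lf (nat_lit 3355746317) (dlOf (nat_lit 1) (nat_lit 0x400280f0181)))) 
(.lf (nat_lit 3422855181) (dlOf (nat_lit 3) (nat_lit 0x6e033000210101190190000ec0802000080010002007a0008120103)))) 
(.nd (nat_lit 6) (.nd (nat_lit 7) 
(.lf (nat_lit 1476698125) (dlOf (nat_lit 1) (nat_lit 0x6800200360008140182))) 
(.lf (nat_lit 6377744781) (dlOf (nat_lit 1) (nat_lit 0x4004000400080e4e82)))) 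
(.lf (nat_lit 5772714445) (dlOf (nat_lit 1) (nat_lit 0x20008091101))))))) (.nd (nat_lit 20) 
(.nd (nat_lit 6) (.nd (nat_lit 21) (.nd (nat_lit 28) (.nd (nat_lit 7) 
(.lf (nat_lit 9216013) (dlOf (nat_lit 1) (nat_lit 0x400200020008530002))) 
(.lf (nat_lit 537700749) (dlOf (nat_lit 1) (nat_lit 0x9800800ac002005c00080f4e83)))) 
(.nd (nat_lit 26) 
(.lf (nat_lit 1343004685) (dlOf (nat_lit 37) (nat_lit 0x966091c4b04486269623c000a11d06f888dc04a03ee1c481d100940e7871107344b2438a25961c100030df800986ec2f342e60014d1c0e042470a4312183ef08f090a446e05801d100860e784a087341dc038a0f5c1c10dc90b98005305046c091c24bc48612ba23c135c11b8225074420e839a11f21c508d60e0835a85cc002962441e848e216a24310de11e080288dc1e5c3a218f81cd104d0e283e187041a242e60014a1225b2247131d12189b608f049ec46e025a1f70e210e88002073c408c39a25bc1c512d80e0800186fc30642e6001451813982470890121851488f035cc46e07121d107620e684f18714215c382019c173000a20914ca1238a5d890c5548478001823a0fd811b81b287dc4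0283a201701cf10060e68a648714530c38200201bf01800dd86f005cc002863829dc48e15ac2430ad411e04ee88dc0a243a2113e1cd0a630e28187070405482e6001421201a622f033804a0004f41013d88bc04b836601a40b500b3056803a02945310128083a09313e904880e682403fd01020290080012b005880d000c0b44004075a0000009d8f057f04a000a02040027408066c36600360b5005b0568033829452fc128028609313e3048809282403fec10201580800207005880a000c07c000407620000009c8e03c804a0004e00801a02500024e0401241280012402000c0940008c0101ef12380c7890c100c47803781c501960e080044c2804888bc0494128000ef040248094000c0408003b41006e091c0180486099e23c001811b813b8714001cc14049c48e01a6243051211e003308dc094838a01ac1c10006e8612c8123895d890c4d284781bda237001e0fe00a287dc00103d61c441d106f00e7870e87340408396258e1c512c90e0800386fc0cdc37600741b30c810b9800182d44b18128244e09100b40480708820400101001d480030284000000364c83fe091c2134486114023c080d11b830f0744008039e0d561cd082a0e2847407040050366022a17312cc04a091f824400141201c2c0810e97001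81118000001b0441c0848e148424307ec11e122108dc0afc3a2014c1cf09410e683b807141e503821ac8173033d04a000f0244001ae3021f048e11ba24308e211e099a08dc0f0c3a200301cf071d0e68434071420ac382015a173034a04a00340244001ac3020d848e108a243089111e024e88dc18203a20ff61cd084a0e2841a07040e882e6000d51225a2247131c12189af08f04a0046e06b01f70e190e88060873c409039a25ac1c512d40e0826f06ec38382e6000cf18230c24710a412188f088f03ff446e1b3c1d10fce0e6889f071445e43821428173000670914bb1238010091452ac4862a8823c002911d07e488dc0b503ee1ffa1d1087f0e787fd87340a5c39629721c5010f0e18a5e0704052037e086e1bb0f2f0b980033488547091c2bf4486161623c0b2b11b840407442d8c39a17781c50b9f0e084ed05cc001982418f848e0cd8243069a11e01c188dc0e243a20c061cd06270e2831e07040c702e6000cb12094424705b912182a588f0174c46e003c22f037e0e882a90734154c38a0b001c1016e0b980032850027091c003c45e000422600010d18003182001608dc000f804007038a000300215822470b3b12185b408f0393c46e098a1d107160e685438714285038202f2173002c04a00000050036000801e800202140008130483)))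 
(.lf (nat_lit 470589453) (dlOf (nat_lit 37) (nat_lit 0x966091c4b04486269623c000a11d06f888dc04a03ee1c481d100940e7871107344b2438a25961c100030df800986ec2f342e20014d1c0e042470a4312183ef08f090a446e05801d100860e784a087341dc038a0f5c1c10dc90b88005305046c091c24bc48612ba23c135c11b8225074420e839a11f21c508d60e0835a85c4002962441e848e216a24310de11e080288dc1e5c3a218f81cd104d0e283e187041a242e20014a1225b2247131d12189b608f049ec46e025a1f70e210e88002073c408c39a25bc1c512d80e0800186fc30642e2001451813982470890121851488f035cc46e07121d107620e684f18714215c382019c171000a20914ca1238a5d890c5548478001823a0fd811b81b287dc40283a201701cf10060e68a648714530c38200201bf01800dd86f005c4002863829dc48e15ac2430ad411e04ee88dc0a243a2113e1cd0a630e28187070405482e2001421201a622f033804a0004f41013d88bc04b835801a40b500b3056803a02945310128083a09313e904880e682403fd01020290080012b007080d001c0b44004075a0000009d8f057f04a000a02040027408066c35800360b5005b0568033829452fc128028609313e304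8809282403fec10201580800207007080a001c07c000407620000009c8e03c804a0004e00801a02500024c0401241280012402000c0940008e0101ef12380c7890c100c47803781c501960e080045c2804888bc0494128000ec040248094000c0408003a81006e091c0180486099e23c001811b813b8714001ca14049c48e01a6243051211e003308dc094838a01ac1c10006e0612c8123895d890c4d284781bda237001e0fd00a287dc00103d61c441d106f00e7870e87340408396258e1c512c90e0800386fc0cdc37600741ac0c810b8800182d44b18128244e09100b40480708820400101001d480070284000000364c83fe091c2134486114023c080d11b830f0744008039e0d561cd082a0e2847407040050358022a17112cc04a091f824400141201c2c0810e9700381118000001b0441c0848e148424307ec11e122108dc0afc3a2014c1cf09410e683b807141e503821ac8171033d04a000f0244001ae3021f048e11ba24308e211e099a08dc0f0c3a200301cf071d0e68434071420ac382015a171034a04a00340244001ac3020d848e108a243089111e024e88dc18203a20ff61cd084a0e2841a07040e882e2000d51225a2247131c12189af08f04a0046e06b01f70e190e88060873c409039a25ac1c512d4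0e0826f06ec38382e2000cf18230c24710a412188f088f03ff446e1b3c1d10fce0e6889f071445e43821428171000670914bb1238010091452ac4862a8823c002911d07e488dc0b503ee1ffa1d1087f0e787fd87340a5c39629721c5010f0e18a5e0704052037e086e1bb0f2f0b880033488547091c2bf4486161623c0b2b11b840407442d8c39a17781c50b9f0e084ed05c4001982418f848e0cd8243069a11e01c188dc0e243a20c061cd06270e2831e07040c702e2000cb12094424705b912182a588f0174c46e003c22f037e0e882a90734154c38a0b001c1016e0b880032850027091c003c45e000422600010d98003182001608dc000f804007038a0002b0215822470b3b12185b408f0393c46e098a1d107160e685438714285038202f2171002c04a00000050036000801e800202140008130483))))) 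
(.nd (nat_lit 10) (.lf (nat_lit 11313165) (dlOf (nat_lit 1) (nat_lit 0xc0008690081))) 
(.nd (nat_lit 11) (.lf (nat_lit 61645837) (dlOf (nat_lit 1) (nat_lit 0x8008000400200020009922883))) 
(.lf (nat_lit 19704845) (dlOf (nat_lit 2) (nat_lit 0x752b8000280800c80080008002001200089d5f83)))))) 
(.nd (nat_lit 7) (.nd (nat_lit 23) (.nd (nat_lit 26) 
(.lf (nat_lit 1343004749) (dlOf (nat_lit 2) (nat_lit 0x222c00000018130d00))) 
(.lf (nat_lit 470589517) (dlOf (nat_lit 2) (nat_lit 0x222c00000018130d00)))) 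
(.lf (nat_lit 9216077) (dlOf (nat_lit 2) (nat_lit 0x668cc00090040008004000a0018530602)))) 
(.nd (nat_lit 21) (.nd (nat_lit 26) 
(.lf (nat_lit 135045581) (dlOf (nat_lit 1) (nat_lit 0x600281b0a01))) 
(.lf (nat_lit 202154445) (dlOf (nat_lit 1) (nat_lit 0x600281b0a01)))) (.nd (nat_lit 23) 
(.lf (nat_lit 53256653) (dlOf (nat_lit 1) (nat_lit 0x9f0008047400201700009571103))) 
(.lf (nat_lit 61645261) (dlOf (nat_lit 1) (nat_lit 0x400400020009921102))))))) (.nd (nat_lit 23) 
(.nd (nat_lit 7) (.nd (nat_lit 6) (.nd (nat_lit 9) 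
(.lf (nat_lit 1344053261) (dlOf (nat_lit 1) (nat_lit 0x2600283b0101))) 
(.lf (nat_lit 8172045) (dlOf (nat_lit 1) (nat_lit 0x40028518681)))) 
(.lf (nat_lit 6070605) (dlOf (nat_lit 1) (nat_lit 0x8008000400200020008420783)))) (.nd (nat_lit 26) 
(.nd (nat_lit 28) 
(.lf (nat_lit 1876109) (dlOf (nat_lit 2) (nat_lit 0x50e88000ec080008008000400200020008150103))) 
(.lf (nat_lit 3491537037) (dlOf (nat_lit 2) (nat_lit 0x85500000004000800400060008090102)))) 
(.lf (nat_lit 2753339533) (dlOf (nat_lit 1) (nat_lit 0xc00200060008090102))))) (.nd (nat_lit 21) 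
(.nd (nat_lit 6) 
(.lf (nat_lit 10264589) (dlOf (nat_lit 5) (nat_lit 0x1b7a0004ec08001558c0009fc8001390400036f40006c810003b7a0003600802100080028002004400085c0483))) 
(.lf (nat_lit 10264653) (dlOf (nat_lit 5) (nat_lit 0xe7c3e0071db800011020001e3180026f58000300800137ac00004020029c63001adeb0000001001080080100002000600085c0f83)))) 
(.nd (nat_lit 24) (.lf (nat_lit 45916173) (dlOf (nat_lit 1) (nat_lit 0x8008000c00200020009370183))) 
(.lf (nat_lit 29138957) (dlOf (nat_lit 1) (nat_lit 0x8008000400200020008dc0583)))))))) 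
(.nd (nat_lit 29) (.nd (nat_lit 20) (.nd (nat_lit 8) (.nd (nat_lit 6) (.nd (nat_lit 7) 
(.nd (nat_lit 21) (.lf (nat_lit 4497453) (dlOf (nat_lit 1) (nat_lit 0x60008003400200440008290003))) 
(.lf (nat_lit 44343341) (dlOf (nat_lit 4) (nat_lit 0x4c7c0000b02000c63e00053138000281000218f80008c4e0000804001800192f0c81)))) 
(.lf (nat_lit 4563706029) (dlOf (nat_lit 1) (nat_lit 0x88008000c002001c00080c1583)))) 
(.nd (nat_lit 7) 
(.lf (nat_lit 3494158445) (dlOf (nat_lit 1) (nat_lit 0x380080030002001000081c1503))) 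
(.lf (nat_lit 5436123885) (dlOf (nat_lit 2) (nat_lit 0x400c400050040018004000e00080e5a02))))) 
(.nd (nat_lit 26) (.nd (nat_lit 30) 
(.lf (nat_lit 6442754349) (dlOf (nat_lit 2) (nat_lit 0x780d0000c2040014002000400081b0502))) 
(.lf (nat_lit 3221528877) (dlOf (nat_lit 1) (nat_lit 0x40018124901)))) (.nd (nat_lit 32) 
(.lf (nat_lit 1543807277) (dlOf (nat_lit 1) (nat_lit 0xb8008006000200140008187a03))) 
(.lf (nat_lit 5838774573) (dlOf (nat_lit 2) (nat_lit 0x780d0000c8040014002000400081b0502)))))) 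
(.nd (nat_lit 21) (.nd (nat_lit 19) (.nd (nat_lit 22) 
(.lf (nat_lit 9740333) (dlOf (nat_lit 1) (nat_lit 0x48008000800200040008580383))) 
(.lf (nat_lit 30711853) (dlOf (nat_lit 1) (nat_lit 0x800400040008e40e02)))) (.nd (nat_lit 22) 
(.lf (nat_lit 10264621) (dlOf (nat_lit 2) (nat_lit 0x5388a0002a02000600285c0c01))) 
(.lf (nat_lit 22847533) (dlOf (nat_lit 2) (nat_lit 0xedd00002b018b30680))))) (.nd (nat_lit 7) 
(.nd (nat_lit 23) 
(.lf (nat_lit 1346150445) (dlOf (nat_lit 1) (nat_lit 0xb8008005c002002e0008e60283))) 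
(.lf (nat_lit 45916205) (dlOf (nat_lit 1) (nat_lit 0x400400020009370982)))) (.nd (nat_lit 6) 
(.lf (nat_lit 20231853) (dlOf (nat_lit 1) (nat_lit 0x4002000200089da002))) 
(.lf (nat_lit 8168173) (dlOf (nat_lit 1) (nat_lit 0x800803dc00201080008512103))))))) 
(.nd (nat_lit 7) (.nd (nat_lit 8) (.nd (nat_lit 26) (.nd (nat_lit 27) 
(.lf (nat_lit 3758399533) (dlOf (nat_lit 3) (nat_lit 0x2e406000026020174030005c01480009010037800800a000200120008170403))) 
(.lf (nat_lit 3087310893) (dlOf (nat_lit 4) (nat_lit 0x380480026023000d010000900740038038001e019000d00c00010030031400e0002f1200d4024005001180140080010c03a005601c005000c8023803c045c00e008e0000001709002500e8000b4080e20008007000202ce0008170c03)))) 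
(.nd (nat_lit 6) (.nd (nat_lit 9) 
(.lf (nat_lit 3825508397) (dlOf (nat_lit 4) (nat_lit 0x380480026023000d010000900740038038001e019000d00c00010030031400e0002c1200d4024005001180140080010c03a005601c005000c8023803c045c00e008e0000001589002500e8000a8080e20008007000202ce0008170c03))) 
(.lf (nat_lit 6376172077) (dlOf (nat_lit 1) (nat_lit 0x400200060008095182)))) 
(.lf (nat_lit 2755960941) (dlOf (nat_lit 1) (nat_lit 0x380080030002001000081c1503))))) 
(.nd (nat_lit 26) (.lf (nat_lit 671392045) (dlOf (nat_lit 2) (nat_lit 0x2002600261018188400))) 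
(.nd (nat_lit 28) (.lf (nat_lit 3959726381) (dlOf (nat_lit 1) (nat_lit 0x40018124901))) 
(.lf (nat_lit 4228161837) (dlOf (nat_lit 1) (nat_lit 0xa0008047a01)))))) (.nd (nat_lit 6) 
(.nd (nat_lit 11) (.nd (nat_lit 8) 
(.lf (nat_lit 5033468077) (dlOf (nat_lit 1) (nat_lit 0x100080004002000200080c1583))) 
(.lf (nat_lit 3959726509) (dlOf (nat_lit 1) (nat_lit 0x34002008c0008127182)))) (.nd (nat_lit 26) 
(.lf (nat_lit 2013571501) (dlOf (nat_lit 1) (nat_lit 0x100028124e81))) 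
(.lf (nat_lit 738503085) (dlOf (nat_lit 1) (nat_lit 0x40028094e81))))) (.nd (nat_lit 8) 
(.lf (nat_lit 2013571821) (dlOf (nat_lit 2) (nat_lit 0x4804c001602100300068000a0180080008009400200020008125a03))) 
(.nd (nat_lit 9) (.lf (nat_lit 3959726573) (dlOf (nat_lit 1) (nat_lit 0x24002000e0008127d02))) 
(.lf (nat_lit 2751767533) (dlOf (nat_lit 1) (nat_lit 0x8008000400200020008002883))))))))))) 
(.nd (nat_lit 5) (.nd (nat_lit 18) (.nd (nat_lit 30) (.nd (nat_lit 15) (.nd (nat_lit 21) 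
(.nd (nat_lit 10) (.nd (nat_lit 22) (.nd (nat_lit 6) (.nd (nat_lit 19) (.nd (nat_lit 7) 
(.lf (nat_lit 470818845) (dlOf (nat_lit 1) (nat_lit 0x518008028c002005200081b0683))) 
(.lf (nat_lit 2550147485) (dlOf (nat_lit 1) (nat_lit 0x2d0008009000200040008004e83)))) 
(.nd (nat_lit 20) (.nd (nat_lit 27) 
(.lf (nat_lit 537403421) (dlOf (nat_lit 1) (nat_lit 0x280008000400200560008090003))) 
(.lf (nat_lit 2819104797) (dlOf (nat_lit 12) (nat_lit 0x700fc000b404017407e00057020a94072010a01f800138100c181c8031c07e0004d0408980720002601043703900012c0828681c8035407e000370400280720001a8104d5039000a80fc0006808002c07e0000502004203f000020181a0580)))) 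
(.lf (nat_lit 9969693) (dlOf (nat_lit 1) (nat_lit 0x480080094002003400085a0a83))))) 
(.nd (nat_lit 26) 
(.lf (nat_lit 134750301) (dlOf (nat_lit 3) (nat_lit 0x220150001081000e00a8000800801080080024002003a00080a1203))) 
(.lf (nat_lit 201859165) (dlOf (nat_lit 3) (nat_lit 0x220160000581000e00b0000280801080080024002003a00080a1203))))) 
(.nd (nat_lit 6) (.nd (nat_lit 19) 
(.lf (nat_lit 473964573) (dlOf (nat_lit 2) (nat_lit 0x7c2ce000000200100018fe0101))) 
(.nd (nat_lit 24) (.lf (nat_lit 4726813) (dlOf (nat_lit 1) (nat_lit 0x1200182b0101))) 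
(.lf (nat_lit 21504029) (dlOf (nat_lit 1) (nat_lit 0x1c00200020008a40082))))) (.nd (nat_lit 19) 
(.lf (nat_lit 473964637) (dlOf (nat_lit 4) (nat_lit 0x62169002f0b40000741005605a0000380400182d2000180200460028fe0881))) 
(.lf (nat_lit 21504093) (dlOf (nat_lit 1) (nat_lit 0x240028a40701)))))) (.nd (nat_lit 9) 
(.nd (nat_lit 6) (.nd (nat_lit 8) 
(.lf (nat_lit 39330973) (dlOf (nat_lit 1) (nat_lit 0x400200020009192b82))) 
(.lf (nat_lit 134233501) (dlOf (nat_lit 2) (nat_lit 0x2800ec017c06c00079040006001800ca81)))) 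
(.nd (nat_lit 7) (.nd (nat_lit 26) 
(.lf (nat_lit 2952805469) (dlOf (nat_lit 10) (nat_lit 0x13002800178080078014000ba04001000a0005502000402c00010150000805c0014026004600500080010001503000b00b00044056000402a00100148001009c000802e000400800610028004000800880000005314000802c00020028001441000380a4000802e000e0020002283001f0020000b80800200100005a040088002000a000800c002))) 
(.lf (nat_lit 603995229) (dlOf (nat_lit 13) (nat_lit 0x38058001400e00100000002f03000d00b0005805400340000005d060012016000800a80050000000b80c02d002200052020014016000800a8049804400440000005108000e016001500a804e804400440200002007000e001800880080038000000501000040160002281000200b00010c0800080580008404001002c00100070002002000200b0000f80800080580007a0401bc0020002000800c002)))) 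
(.lf (nat_lit 43001309) (dlOf (nat_lit 1) (nat_lit 0x4004000200092a3602))))) (.nd (nat_lit 26) 
(.nd (nat_lit 27) (.lf (nat_lit 2415929245) (dlOf (nat_lit 1) (nat_lit 0x400400020008004282))) 
(.lf (nat_lit 4429195165) (dlOf (nat_lit 1) (nat_lit 0x8008000400200020008004283)))) 
(.nd (nat_lit 27) (.nd (nat_lit 29) 
(.lf (nat_lit 4362086301) (dlOf (nat_lit 1) (nat_lit 0xc002001e0008004282))) 
(.lf (nat_lit 2751473565) (dlOf (nat_lit 1) (nat_lit 0x400200020008004282)))) 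
(.lf (nat_lit 469772189) (dlOf (nat_lit 1) (nat_lit 0x40028004281))))))) (.nd (nat_lit 26) 
(.nd (nat_lit 6) (.nd (nat_lit 19) (.nd (nat_lit 22) (.nd (nat_lit 23) 
(.lf (nat_lit 52437021) (dlOf (nat_lit 1) (nat_lit 0x1800400200019530102))) 
(.lf (nat_lit 27271197) (dlOf (nat_lit 1) (nat_lit 0x8008000400200020008cc0683)))) 
(.lf (nat_lit 23076893) (dlOf (nat_lit 3) (nat_lit 0x28000000838080240000003460401f400200420008b50482)))) 
(.nd (nat_lit 22) (.lf (nat_lit 2629661) (dlOf (nat_lit 1) (nat_lit 0x1800200020008180582))) 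
(.lf (nat_lit 48767005) (dlOf (nat_lit 5) (nat_lit 0x175180012808002f5700015dd0000aeae00057518002b8680015c0a000ad8900056a60002b4400015a100004314000ae510001693800126b80007e0c0005d440003d02001e0029420101))))) 
(.nd (nat_lit 8) (.nd (nat_lit 9) 
(.lf (nat_lit 3678301) (dlOf (nat_lit 1) (nat_lit 0x1300008211201))) 
(.lf (nat_lit 53488221) (dlOf (nat_lit 1) (nat_lit 0x80080050002000600095f5303)))) 
(.lf (nat_lit 19935581) (dlOf (nat_lit 1) (nat_lit 0x800289d8381))))) (.nd (nat_lit 7) 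
(.nd (nat_lit 6) 
(.lf (nat_lit 2755141661) (dlOf (nat_lit 2) (nat_lit 0x10860003f404001800400040008120902))) 
(.nd (nat_lit 8) 
(.lf (nat_lit 2754621021) (dlOf (nat_lit 1) (nat_lit 0x180080010002000200080f7183))) 
(.lf (nat_lit 2754619741) (dlOf (nat_lit 1) (nat_lit 0x400180f4e81))))) (.nd (nat_lit 8) 
(.nd (nat_lit 11) (.lf (nat_lit 472917149) (dlOf (nat_lit 1) (nat_lit 0x7400200340008b52b82))) 
(.lf (nat_lit 2754624669) (dlOf (nat_lit 1) (nat_lit 0x400180fc201)))) 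
(.lf (nat_lit 2754619805) (dlOf (nat_lit 1) (nat_lit 0x200180f4e81))))))) (.nd (nat_lit 6) 
(.nd (nat_lit 20) (.nd (nat_lit 21) (.nd (nat_lit 26) (.nd (nat_lit 27) 
(.lf (nat_lit 805871645) (dlOf (nat_lit 2) (nat_lit 0x22044000110181d0580))) 
(.lf (nat_lit 2819137565) (dlOf (nat_lit 6) (nat_lit 0x660350001380802801a80009a0402a00d40004c02009006a000248100070350000d00802300080028002006600081a0583)))) 
(.nd (nat_lit 7) 
(.lf (nat_lit 4362641437) (dlOf (nat_lit 2) (nat_lit 0xa20198000700800700080018002001c00080c0583))) 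
(.lf (nat_lit 4362119069) (dlOf (nat_lit 1) (nat_lit 0x80008004281))))) (.nd (nat_lit 19) 
(.lf (nat_lit 14721053) (dlOf (nat_lit 1) (nat_lit 0x400200020008770102))) (.nd (nat_lit 22) 
(.lf (nat_lit 11051037) (dlOf (nat_lit 3) (nat_lit 0xb784b00125010027c25800274080208008000c00200320008660483))) 
(.lf (nat_lit 48799773) (dlOf (nat_lit 1) (nat_lit 0x100029430601)))))) (.nd (nat_lit 21) 
(.nd (nat_lit 22) (.nd (nat_lit 23) 
(.lf (nat_lit 470851613) (dlOf (nat_lit 3) (nat_lit 0xc8024000290100570120001400800480080074002001e00081c0583))) 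
(.lf (nat_lit 59809821) (dlOf (nat_lit 1) (nat_lit 0x20008000800200080009830603)))) 
(.nd (nat_lit 25) 
(.lf (nat_lit 13672477) (dlOf (nat_lit 2) (nat_lit 0x704d0c003e000000d1828740480))) 
(.lf (nat_lit 47226909) (dlOf (nat_lit 1) (nat_lit 0x200093c0081))))) (.nd (nat_lit 7) 
(.nd (nat_lit 8) 
(.lf (nat_lit 2755174429) (dlOf (nat_lit 3) (nat_lit 0x300bc000805c000fd02000402f00030170003f008001c00400080008120902))) 
(.lf (nat_lit 19968797) (dlOf (nat_lit 1) (nat_lit 0x80080010002000200089d8f83)))) 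
(.nd (nat_lit 11) (.lf (nat_lit 7381149) (dlOf (nat_lit 1) (nat_lit 0x10008000c002000200084b0483))) 
(.lf (nat_lit 19970205) (dlOf (nat_lit 1) (nat_lit 0x80080008002000200089da883))))))) 
(.nd (nat_lit 7) (.nd (nat_lit 8) (.nd (nat_lit 9) (.nd (nat_lit 19) 
(.lf (nat_lit 10526813) (dlOf (nat_lit 1) (nat_lit 0x4004000200085f1902))) 
(.lf (nat_lit 21536861) (dlOf (nat_lit 2) (nat_lit 0x15ed3000176800033a86001dcdd0004e6c000cee880006818013c00400500008a40702)))) 
(.lf (nat_lit 4966098525) (dlOf (nat_lit 1) (nat_lit 0x400400020008003902)))) (.nd (nat_lit 20) 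
(.nd (nat_lit 21) (.lf (nat_lit 46178653) (dlOf (nat_lit 1) (nat_lit 0x2a0029380e01))) 
(.lf (nat_lit 10527069) (dlOf (nat_lit 1) (nat_lit 0x2200185f8d01)))) 
(.lf (nat_lit 3187037) (dlOf (nat_lit 2) (nat_lit 0x1497e000560200060018200681))))) 
(.nd (nat_lit 24) (.nd (nat_lit 8) 
(.lf (nat_lit 45789) (dlOf (nat_lit 1) (nat_lit 0x400400020008008c82))) 
(.lf (nat_lit 5033208797) (dlOf (nat_lit 1) (nat_lit 0x400400020008005e02)))) (.nd (nat_lit 9) 
(.lf (nat_lit 50897373) (dlOf (nat_lit 1) (nat_lit 0x600080330002017800094d7c83))) 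
(.lf (nat_lit 50373597) (dlOf (nat_lit 1) (nat_lit 0x400194c2881)))))))) (.nd (nat_lit 7) 
(.nd (nat_lit 19) (.nd (nat_lit 6) (.nd (nat_lit 8) (.nd (nat_lit 10) 
(.lf (nat_lit 1343266845) (dlOf (nat_lit 3) (nat_lit 0xdc0540005202004402a000280181e0580))) 
(.lf (nat_lit 4094733341) (dlOf (nat_lit 1) (nat_lit 0x400200020008056002)))) (.nd (nat_lit 9) 
(.nd (nat_lit 26) 
(.lf (nat_lit 6039811357) (dlOf (nat_lit 1) (nat_lit 0x48008002400200040008009703))) 
(.lf (nat_lit 3422565661) (dlOf (nat_lit 8) (nat_lit 0x9803400500180007604001400d0003a81000a0068001c4080040034000e004002001a0006202001000d0003081000600680000008007800800b800200200008009703)))) 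
(.lf (nat_lit 1342192413) (dlOf (nat_lit 1) (nat_lit 0x7000800280020010000800bb83))))) 
(.nd (nat_lit 8) (.nd (nat_lit 11) (.nd (nat_lit 29) 
(.lf (nat_lit 3491799133) (dlOf (nat_lit 1) (nat_lit 0xac00400420008090002))) 
(.lf (nat_lit 1881186397) (dlOf (nat_lit 2) (nat_lit 0x1a83880003804001000400080008e40882)))) 
(.lf (nat_lit 3623893085) (dlOf (nat_lit 2) (nat_lit 0x6018000300bc001405c000402d0007014000280500014024000e0050006001000300000042c2800140040008001800a782)))) 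
(.nd (nat_lit 10) (.lf (nat_lit 1346380125) (dlOf (nat_lit 1) (nat_lit 0x20008f60e01))) 
(.nd (nat_lit 12) (.lf (nat_lit 4227870045) (dlOf (nat_lit 1) (nat_lit 0x14002000e0008006a82))) 
(.lf (nat_lit 3288350045) (dlOf (nat_lit 1) (nat_lit 0xac001800c901))))))) (.nd (nat_lit 15) 
(.nd (nat_lit 20) (.nd (nat_lit 26) 
(.lf (nat_lit 3221757981) (dlOf (nat_lit 1) (nat_lit 0x400200120008170002))) (.nd (nat_lit 28) 
(.lf (nat_lit 3288866845) (dlOf (nat_lit 2) (nat_lit 0x30030000800000eb0080008004000200181d0a02))) 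
(.lf (nat_lit 3557302301) (dlOf (nat_lit 1) (nat_lit 0x5800081b0481))))) (.nd (nat_lit 21) 
(.lf (nat_lit 1343758365) (dlOf (nat_lit 1) (nat_lit 0x400400020008360682))) 
(.lf (nat_lit 3493339165) (dlOf (nat_lit 2) (nat_lit 0x1080c003d004001800400040008120902))))) 
(.nd (nat_lit 26) (.nd (nat_lit 20) (.nd (nat_lit 28) 
(.lf (nat_lit 3221790749) (dlOf (nat_lit 2) (nat_lit 0x200000000018190980))) 
(.lf (nat_lit 1879613469) (dlOf (nat_lit 1) (nat_lit 0x40028240681)))) 
(.lf (nat_lit 3493371933) (dlOf (nat_lit 3) (nat_lit 0x300bc000805c000f402000402f00030170003cc08001c00400080008120902)))) 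
(.nd (nat_lit 27) (.nd (nat_lit 28) 
(.lf (nat_lit 1678286877) (dlOf (nat_lit 2) (nat_lit 0x64013000ac06a0001c0400e800281d0581))) 
(.lf (nat_lit 3557335069) (dlOf (nat_lit 9) (nat_lit 0x680c00005a0202000610002b8101390308001380809001840009a0405240c20004c0202240610002481000b0308001200807701840006e0401dc002002e00081c0582)))) 
(.lf (nat_lit 3959988253) (dlOf (nat_lit 2) (nat_lit 0x200000000018190980))))))) (.nd (nat_lit 8) 
(.nd (nat_lit 15) (.nd (nat_lit 6) (.nd (nat_lit 10) 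
(.lf (nat_lit 3221235869) (dlOf (nat_lit 1) (nat_lit 0xc40028004801))) (.nd (nat_lit 26) 
(.lf (nat_lit 1342188701) (dlOf (nat_lit 1) (nat_lit 0x1800200100008006282))) 
(.lf (nat_lit 1409297565) (dlOf (nat_lit 1) (nat_lit 0x38008000400200040008006283))))) 
(.nd (nat_lit 26) (.lf (nat_lit 1342192861) (dlOf (nat_lit 1) (nat_lit 0x100020006000800c482))) 
(.lf (nat_lit 4227874013) (dlOf (nat_lit 1) (nat_lit 0x40020004000800c482))))) (.nd (nat_lit 9) 
(.nd (nat_lit 10) (.lf (nat_lit 3623921821) (dlOf (nat_lit 1) (nat_lit 0x1c00008004801))) 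
(.nd (nat_lit 21) (.lf (nat_lit 1346938013) (dlOf (nat_lit 2) (nat_lit 0x208400044019102b80))) 
(.lf (nat_lit 1344840861) (dlOf (nat_lit 1) (nat_lit 0x20018982b81))))) (.nd (nat_lit 26) 
(.lf (nat_lit 1342221981) (dlOf (nat_lit 1) (nat_lit 0x400400020008007202))) 
(.lf (nat_lit 4227903133) (dlOf (nat_lit 1) (nat_lit 0x20008007201)))))) (.nd (nat_lit 26) 
(.nd (nat_lit 10) (.nd (nat_lit 32) (.nd (nat_lit 15) 
(.lf (nat_lit 3489671581) (dlOf (nat_lit 1) (nat_lit 0x20018004e81))) 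
(.lf (nat_lit 1342220701) (dlOf (nat_lit 1) (nat_lit 0x40028004e81)))) (.nd (nat_lit 27) 
(.lf (nat_lit 5368719773) (dlOf (nat_lit 1) (nat_lit 0x400400020008004e82))) 
(.lf (nat_lit 5771372957) (dlOf (nat_lit 2) (nat_lit 0x11014003854080060008000c002000a0008004e83))))) 
(.nd (nat_lit 9) 
(.lf (nat_lit 1342193053) (dlOf (nat_lit 1) (nat_lit 0x3000800040020004000800ca83))) 
(.lf (nat_lit 1073751965) (dlOf (nat_lit 1) (nat_lit 0x20028004281))))) (.nd (nat_lit 9) 
(.nd (nat_lit 10) (.nd (nat_lit 20) 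
(.lf (nat_lit 3288344989) (dlOf (nat_lit 1) (nat_lit 0x400400020008004e82))) 
(.lf (nat_lit 6376401309) (dlOf (nat_lit 1) (nat_lit 0x400400020008094e82)))) 
(.lf (nat_lit 4227874205) (dlOf (nat_lit 1) (nat_lit 0x18002000c000800ca82)))) (.nd (nat_lit 6) 
(.lf (nat_lit 4227873693) (dlOf (nat_lit 1) (nat_lit 0x80040002001800bc82))) 
(.lf (nat_lit 4095779805) (dlOf (nat_lit 1) (nat_lit 0x4200180e2881))))))))) (.nd (nat_lit 28) 
(.nd (nat_lit 15) (.nd (nat_lit 7) (.nd (nat_lit 19) (.nd (nat_lit 26) (.nd (nat_lit 23) 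
(.nd (nat_lit 6) (.nd (nat_lit 27) 
(.lf (nat_lit 537141277) (dlOf (nat_lit 2) (nat_lit 0x14017c002a804008c00200780008030902))) 
(.lf (nat_lit 671359005) (dlOf (nat_lit 6) (nat_lit 0x140250013011002ffc100020094017fc04002004a0086022005fe82000a01280260088017f208001804a00bf00200120008160481)))) 
(.lf (nat_lit 4832110173) (dlOf (nat_lit 1) (nat_lit 0x4004000200080d3902)))) (.nd (nat_lit 21) 
(.lf (nat_lit 25436189) (dlOf (nat_lit 2) (nat_lit 0x60b01000d9818c00480))) 
(.lf (nat_lit 44310557) (dlOf (nat_lit 3) (nat_lit 0x83190004185c0002c080020c640010617000028292f0580))))) 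
(.nd (nat_lit 27) (.nd (nat_lit 29) 
(.lf (nat_lit 4362346525) (dlOf (nat_lit 1) (nat_lit 0x1800080060002004c0008030b83))) 
(.lf (nat_lit 1677991965) (dlOf (nat_lit 1) (nat_lit 0x20028130481)))) (.nd (nat_lit 6) 
(.lf (nat_lit 2349080605) (dlOf (nat_lit 1) (nat_lit 0x3c002001a00080a0902))) 
(.lf (nat_lit 2349080669) (dlOf (nat_lit 5) (nat_lit 0x80ac003405000c4024004f00e0000642001000ac001405000a2024006100e002d805400f4004000180c000e028000038100050140000000800b80080018002001400080a1203)))))) 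
(.nd (nat_lit 8) (.nd (nat_lit 20) (.nd (nat_lit 26) 
(.lf (nat_lit 2891805) (dlOf (nat_lit 2) (nat_lit 0x1753f0007140800200080004002000600081d0483))) 
(.lf (nat_lit 2754355229) (dlOf (nat_lit 1) (nat_lit 0x280080008002000e00080e0483)))) 
(.nd (nat_lit 21) (.lf (nat_lit 22814749) (dlOf (nat_lit 1) (nat_lit 0xc00400020008b30482))) 
(.lf (nat_lit 45883421) (dlOf (nat_lit 3) (nat_lit 0x1b1d000007e040004e800003d0200020029360101))))) 
(.nd (nat_lit 6) (.lf (nat_lit 8140061) (dlOf (nat_lit 1) (nat_lit 0x40018519701))) 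
(.nd (nat_lit 9) (.lf (nat_lit 50080093) (dlOf (nat_lit 2) (nat_lit 0x2546001610194c4e80))) 
(.lf (nat_lit 19671901) (dlOf (nat_lit 1) (nat_lit 0x200189d5c01))))))) (.nd (nat_lit 6) 
(.nd (nat_lit 8) (.nd (nat_lit 10) 
(.lf (nat_lit 9707677) (dlOf (nat_lit 1) (nat_lit 0x20018571281))) (.nd (nat_lit 19) 
(.lf (nat_lit 42214557) (dlOf (nat_lit 2) (nat_lit 0x419600044019242b80))) 
(.lf (nat_lit 36447389) (dlOf (nat_lit 1) (nat_lit 0x400200040009072b82))))) (.nd (nat_lit 10) 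
(.lf (nat_lit 46410653) (dlOf (nat_lit 1) (nat_lit 0x40029385c81))) (.nd (nat_lit 12) 
(.lf (nat_lit 2885953437) (dlOf (nat_lit 1) (nat_lit 0xe80028144281))) 
(.lf (nat_lit 8140701) (dlOf (nat_lit 1) (nat_lit 0x6c0040032000851a302)))))) (.nd (nat_lit 8) 
(.nd (nat_lit 9) (.lf (nat_lit 3892584669) (dlOf (nat_lit 1) (nat_lit 0xa20008160581))) 
(.lf (nat_lit 8139485) (dlOf (nat_lit 1) (nat_lit 0x8008000400200020008518c83)))) (.nd (nat_lit 10) 
(.lf (nat_lit 738470877) (dlOf (nat_lit 1) (nat_lit 0x100028095e01))) (.nd (nat_lit 11) 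
(.lf (nat_lit 2751739869) (dlOf (nat_lit 1) (nat_lit 0x2002800a601))) 
(.lf (nat_lit 8138717) (dlOf (nat_lit 1) (nat_lit 0x20018517a81)))))))) (.nd (nat_lit 19) 
(.nd (nat_lit 30) (.nd (nat_lit 23) (.nd (nat_lit 26) 
(.lf (nat_lit 2684657693) (dlOf (nat_lit 2) (nat_lit 0x3e8000003e4040004004004e0008110482))) 
(.nd (nat_lit 27) 
(.lf (nat_lit 2214895645) (dlOf (nat_lit 2) (nat_lit 0x28804c000fc04001000400040008100482))) 
(.lf (nat_lit 6644080669) (dlOf (nat_lit 2) (nat_lit 0x4000000548180e0500))))) (.nd (nat_lit 6) 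
(.nd (nat_lit 20) (.lf (nat_lit 44343325) (dlOf (nat_lit 1) (nat_lit 0x400192f0581))) 
(.lf (nat_lit 32808989) (dlOf (nat_lit 1) (nat_lit 0xe0018f20601)))) 
(.lf (nat_lit 9740381) (dlOf (nat_lit 1) (nat_lit 0x8008002000200100008580703))))) (.nd (nat_lit 6) 
(.nd (nat_lit 26) 
(.lf (nat_lit 1208262685) (dlOf (nat_lit 2) (nat_lit 0x804a0003b02000200080b0101))) 
(.nd (nat_lit 31) (.lf (nat_lit 1678024733) (dlOf (nat_lit 1) (nat_lit 0x20028140b81))) 
(.lf (nat_lit 3825508381) (dlOf (nat_lit 5) (nat_lit 0x26005800c00240028004006a000000ae84000900a800300240024004001e000000ae0400890058042802402e80000015906010e00b00b800000055c1001c0008002000200200008170903))))) 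
(.nd (nat_lit 27) 
(.lf (nat_lit 3221528925) (dlOf (nat_lit 3) (nat_lit 0x2300980118042004c01d003d80dc01a804a012600900011060040026002680dc0004008003400200ba0008124e82))) 
(.lf (nat_lit 1745133917) (dlOf (nat_lit 1) (nat_lit 0xe00080a7101)))))) (.nd (nat_lit 21) 
(.nd (nat_lit 23) (.nd (nat_lit 7) 
(.lf (nat_lit 1875997) (dlOf (nat_lit 1) (nat_lit 0x30008001800200020008150003))) 
(.lf (nat_lit 35432861) (dlOf (nat_lit 1) (nat_lit 0x60019014e81)))) (.nd (nat_lit 6) 
(.nd (nat_lit 20) (.lf (nat_lit 42770461) (dlOf (nat_lit 1) (nat_lit 0x20029280101))) 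
(.lf (nat_lit 27041821) (dlOf (nat_lit 1) (nat_lit 0x20018ca0581)))) 
(.lf (nat_lit 48014429) (dlOf (nat_lit 1) (nat_lit 0x8008000800200020009402903))))) 
(.nd (nat_lit 6) (.nd (nat_lit 8) 
(.lf (nat_lit 2754387997) (dlOf (nat_lit 4) (nat_lit 0x608440046e0403f442202f81f901570b48008981800888440044604005c004002c00080e0482))) 
(.lf (nat_lit 8169757) (dlOf (nat_lit 1) (nat_lit 0x280028514b81)))) (.nd (nat_lit 7) 
(.lf (nat_lit 8173405) (dlOf (nat_lit 1) (nat_lit 0x800800040020002000851a303))) 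
(.lf (nat_lit 8172765) (dlOf (nat_lit 1) (nat_lit 0x8008000400200020008519503)))))))) 
(.nd (nat_lit 27) (.nd (nat_lit 30) (.nd (nat_lit 6) (.nd (nat_lit 29) (.nd (nat_lit 7) 
(.lf (nat_lit 2483298333) (dlOf (nat_lit 1) (nat_lit 0x3c002001a00080a0902))) 
(.lf (nat_lit 4563673245) (dlOf (nat_lit 3) (nat_lit 0x360330001201000801980008c0800f80080074002004000080c1283)))) 
(.nd (nat_lit 15) (.lf (nat_lit 805576733) (dlOf (nat_lit 1) (nat_lit 0x20028130481))) 
(.lf (nat_lit 805609501) (dlOf (nat_lit 1) (nat_lit 0x20028140b81))))) (.nd (nat_lit 7) 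
(.nd (nat_lit 15) 
(.lf (nat_lit 2483298397) (dlOf (nat_lit 5) (nat_lit 0x80ac003405000c4024004f00e0000bc2001000ac001405000a2024006100e002d805400f40040002e0c000e0280000e8100050140000000800b80080018002001400080a1203))) 
(.lf (nat_lit 5167685725) (dlOf (nat_lit 1) (nat_lit 0xc00200020008100702)))) 
(.lf (nat_lit 4563673309) (dlOf (nat_lit 2) (nat_lit 0x6011000168180c1c80))))) (.nd (nat_lit 19) 
(.nd (nat_lit 7) (.nd (nat_lit 6) (.nd (nat_lit 26) 
(.lf (nat_lit 1342447645) (dlOf (nat_lit 2) (nat_lit 0xa8128001f80200020028030901))) 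
(.lf (nat_lit 1409556509) (dlOf (nat_lit 2) (nat_lit 0x14017c002b204008c00200780008030902)))) 
(.lf (nat_lit 1881418333) (dlOf (nat_lit 9) (nat_lit 0x4e0e30030071001501ec000500c003c1c4003407b0001302000c071800081ec0003c08019c1c600020e2003e03d8000681801081ec000320400501c600120e2001003d80000c1800701ec000020400641c6002c0e2000806c002601ec000001001b800400300008f05302)))) 
(.nd (nat_lit 8) (.lf (nat_lit 1881418397) (dlOf (nat_lit 1) (nat_lit 0x17400400480008f05582))) 
(.lf (nat_lit 3489933725) (dlOf (nat_lit 1) (nat_lit 0x400200020008004e82))))) (.nd (nat_lit 6) 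
(.nd (nat_lit 15) 
(.lf (nat_lit 3492552733) (dlOf (nat_lit 1) (nat_lit 0x280080008002000e00080e0483))) 
(.nd (nat_lit 20) 
(.lf (nat_lit 3492585501) (dlOf (nat_lit 4) (nat_lit 0x607f00046e0403f43f802f81e701570b28008981800887f00043e04005c004002c00080e0482))) 
(.lf (nat_lit 1346150429) (dlOf (nat_lit 4) (nat_lit 0x2a0a1803f833401640ea00a8073000188401080a18096033405200ea02460730001804005f0a1803884ec018c27200ce0cd008d03a803e01cc0005e18000c00200020008e60102))))) 
(.nd (nat_lit 7) 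
(.lf (nat_lit 1346150493) (dlOf (nat_lit 4) (nat_lit 0x1c434e016e163011f0a60065052c029c284010c13800b2092003f03bc047c1ae016c0d600b7061001c82dc001c13e01ec07b004d039003a011801fc05c00e402d000100000002c98064053002fc1ae0000904007216300c70a6001c852800b424800720ed00c006b801c835400d419400720c2002903d8000005006f80082c2c00206a20008e60883))) 
(.lf (nat_lit 4094468317) (dlOf (nat_lit 1) (nat_lit 0x40028050a01))))))) (.nd (nat_lit 30) 
(.nd (nat_lit 15) (.nd (nat_lit 19) (.nd (nat_lit 7) (.nd (nat_lit 21) 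
(.lf (nat_lit 470032413) (dlOf (nat_lit 2) (nat_lit 0xa8128001e60200020028030901))) 
(.lf (nat_lit 472129565) (dlOf (nat_lit 1) (nat_lit 0x240018850601)))) 
(.lf (nat_lit 4697890973) (dlOf (nat_lit 3) (nat_lit 0x36033000088100080198000400800f80080074002004000080c1283)))) 
(.nd (nat_lit 20) (.lf (nat_lit 1007427613) (dlOf (nat_lit 1) (nat_lit 0x20018350681))) 
(.lf (nat_lit 471605277) (dlOf (nat_lit 1) (nat_lit 0x2000400100008350682))))) (.nd (nat_lit 6) 
(.nd (nat_lit 26) 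
(.lf (nat_lit 3087310877) (dlOf (nat_lit 5) (nat_lit 0x26005800c00240028004006a000000ac04000900a800300240024004001e000000ab8400890058042802402e80000015406010e00b00b80000005481001c0008002000200200008170903))) 
(.lf (nat_lit 2617548829) (dlOf (nat_lit 1) (nat_lit 0x1800280f0501)))) 
(.lf (nat_lit 4697923805) (dlOf (nat_lit 1) (nat_lit 0x88008000c002001c00080c1a03))))) 
(.nd (nat_lit 19) (.nd (nat_lit 29) (.nd (nat_lit 6) 
(.lf (nat_lit 1543774237) (dlOf (nat_lit 6) (nat_lit 0x1402500130110019a810002009400cd204002004a00860220033402000a0128026008800cc808001804a0065b0200120008160481))) 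
(.lf (nat_lit 5772681693) (dlOf (nat_lit 1) (nat_lit 0x8008000400200020008091283)))) 
(.nd (nat_lit 15) 
(.lf (nat_lit 4228128797) (dlOf (nat_lit 1) (nat_lit 0x1800080060002004c0008030b83))) 
(.lf (nat_lit 2080677917) (dlOf (nat_lit 2) (nat_lit 0x804a0003b02000200080b0101))))) 
(.nd (nat_lit 15) (.nd (nat_lit 26) 
(.lf (nat_lit 5773205533) (dlOf (nat_lit 2) (nat_lit 0x5413c00b70978000ec100008008007c002006200080b0103))) 
(.lf (nat_lit 6377185309) (dlOf (nat_lit 2) (nat_lit 0x5412f00b70900000ec100008008007c002006200080b0103)))) 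
(.nd (nat_lit 26) 
(.lf (nat_lit 5773238301) (dlOf (nat_lit 2) (nat_lit 0x402380003b02002a00180b0101))) 
(.lf (nat_lit 6377218077) (dlOf (nat_lit 2) (nat_lit 0x4021a0003b02002a00180b0101)))))))))) 
(.nd (nat_lit 6) (.nd (nat_lit 18) (.nd (nat_lit 15) (.nd (nat_lit 30) (.nd (nat_lit 10) 
(.nd (nat_lit 19) (.nd (nat_lit 22) (.nd (nat_lit 7) (.nd (nat_lit 8) 
(.lf (nat_lit 4362090557) (dlOf (nat_lit 1) (nat_lit 0x180020010000800a602))) 
(.lf (nat_lit 1057085) (dlOf (nat_lit 1) (nat_lit 0x400400020008068502)))) 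
(.lf (nat_lit 10429) (dlOf (nat_lit 1) (nat_lit 0x1800400040008004902)))) (.nd (nat_lit 20) 
(.nd (nat_lit 21) (.lf (nat_lit 46145597) (dlOf (nat_lit 1) (nat_lit 0x400400240019380002))) 
(.lf (nat_lit 23076925) (dlOf (nat_lit 1) (nat_lit 0x20018b50e01)))) 
(.lf (nat_lit 13639741) (dlOf (nat_lit 1) (nat_lit 0x820008730b81))))) (.nd (nat_lit 9) 
(.nd (nat_lit 20) 
(.lf (nat_lit 805838909) (dlOf (nat_lit 1) (nat_lit 0x8008003c002000a00081c0c03))) 
(.lf (nat_lit 2755141693) (dlOf (nat_lit 2) (nat_lit 0x3f8000002ac04005000200040008120d02)))) 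
(.lf (nat_lit 470295101) (dlOf (nat_lit 2) (nat_lit 0x15091c0009e040008004000400080c1082))))) 
(.nd (nat_lit 7) (.nd (nat_lit 12) 
(.lf (nat_lit 2147493437) (dlOf (nat_lit 2) (nat_lit 0x900000000a040014002001c0008003782))) 
(.lf (nat_lit 2214606397) (dlOf (nat_lit 1) (nat_lit 0x140028009c01)))) (.nd (nat_lit 11) 
(.lf (nat_lit 41428157) (dlOf (nat_lit 1) (nat_lit 0x100019242c81))) 
(.lf (nat_lit 134233277) (dlOf (nat_lit 1) (nat_lit 0x800800040020002000800c203)))))) 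
(.nd (nat_lit 9) (.nd (nat_lit 19) (.nd (nat_lit 7) 
(.lf (nat_lit 1346379837) (dlOf (nat_lit 2) (nat_lit 0x402d002fc604001000400040008f60002))) 
(.lf (nat_lit 1342192829) (dlOf (nat_lit 1) (nat_lit 0x40040002000800c202)))) (.nd (nat_lit 20) 
(.nd (nat_lit 21) 
(.lf (nat_lit 1678254141) (dlOf (nat_lit 1) (nat_lit 0x8008003c002000a00081c0c03))) 
(.lf (nat_lit 3492290621) (dlOf (nat_lit 1) (nat_lit 0x780080050002003800080c1403)))) 
(.lf (nat_lit 3493339197) (dlOf (nat_lit 2) (nat_lit 0x3f8000002ac04005000200040008120d02))))) 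
(.nd (nat_lit 8) (.nd (nat_lit 10) 
(.lf (nat_lit 1342710333) (dlOf (nat_lit 2) (nat_lit 0x15091c000ac040008004000400080c1082))) 
(.lf (nat_lit 6375351869) (dlOf (nat_lit 1) (nat_lit 0xc00400020018003782)))) (.nd (nat_lit 27) 
(.lf (nat_lit 3825215293) (dlOf (nat_lit 2) (nat_lit 0x201f000700b8000d4100010008003400200160008003e03))) 
(.lf (nat_lit 1811949373) (dlOf (nat_lit 1) (nat_lit 0x20018003e01))))))) (.nd (nat_lit 28) 
(.nd (nat_lit 8) (.nd (nat_lit 9) (.nd (nat_lit 19) (.nd (nat_lit 20) 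
(.lf (nat_lit 46178365) (dlOf (nat_lit 1) (nat_lit 0x400200020009380002))) 
(.lf (nat_lit 13672509) (dlOf (nat_lit 1) (nat_lit 0xa0018740d81)))) 
(.lf (nat_lit 2755174461) (dlOf (nat_lit 2) (nat_lit 0xb40680043021001f008c010c03c001560800020018120d01)))) 
(.nd (nat_lit 7) 
(.lf (nat_lit 2751511101) (dlOf (nat_lit 2) (nat_lit 0x820900021040001dc1000380080028002000c000800b483))) 
(.lf (nat_lit 19968701) (dlOf (nat_lit 1) (nat_lit 0x4002000200089d8c82))))) (.nd (nat_lit 11) 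
(.nd (nat_lit 7) (.lf (nat_lit 10527037) (dlOf (nat_lit 1) (nat_lit 0x4004000200085f8502))) 
(.lf (nat_lit 58237373) (dlOf (nat_lit 1) (nat_lit 0x1e00297c7001)))) (.nd (nat_lit 9) 
(.lf (nat_lit 2751506749) (dlOf (nat_lit 1) (nat_lit 0x180028004c81))) 
(.lf (nat_lit 1677769533) (dlOf (nat_lit 1) (nat_lit 0x10004000e000800bc82)))))) (.nd (nat_lit 9) 
(.nd (nat_lit 21) (.nd (nat_lit 7) 
(.lf (nat_lit 3489709373) (dlOf (nat_lit 1) (nat_lit 0x20002001e000800c902))) 
(.lf (nat_lit 1342742717) (dlOf (nat_lit 3) (nat_lit 0xb091c006038a0003204001c24700030e680088714000620c0014004001200180c0382)))) 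
(.nd (nat_lit 20) (.lf (nat_lit 4096303165) (dlOf (nat_lit 1) (nat_lit 0x800180f1201))) 
(.lf (nat_lit 3493371965) (dlOf (nat_lit 2) (nat_lit 0xb40680043021001f008c010c03c001560800020018120d01))))) 
(.nd (nat_lit 8) (.nd (nat_lit 26) 
(.lf (nat_lit 4563445309) (dlOf (nat_lit 4) (nat_lit 0x181080004082000a03d00030000000b82000780f000100300001304000a03d00080000000001000800080010002000a0008003783))) 
(.lf (nat_lit 335586877) (dlOf (nat_lit 4) (nat_lit 0x40260002012003b00880007818000804c00040240001704000201300010090001000c000000c00a800400140008003782)))) 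
(.nd (nat_lit 10) 
(.lf (nat_lit 402697021) (dlOf (nat_lit 2) (nat_lit 0x7009800180480017c08000c004001e0008005c02))) 
(.lf (nat_lit 3623921469) (dlOf (nat_lit 8) (nat_lit 0x3005c000a0180001a82000600e8013001000080060003106000c01d000700e000a801000080060003008001803000060000000b81000180c00005a0400680600002a02000401d00080020000a4100008008012400200060008003e03)))))))) 
(.nd (nat_lit 15) (.nd (nat_lit 27) (.nd (nat_lit 30) (.nd (nat_lit 9) (.nd (nat_lit 8) 
(.nd (nat_lit 21) (.lf (nat_lit 59514941) (dlOf (nat_lit 2) (nat_lit 0x1c594000aa019800600))) 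
(.lf (nat_lit 49029181) (dlOf (nat_lit 1) (nat_lit 0x480019460001)))) 
(.lf (nat_lit 51126589) (dlOf (nat_lit 2) (nat_lit 0xd7400001ec080048008002000200040009507c83)))) 
(.nd (nat_lit 10) (.nd (nat_lit 12) 
(.lf (nat_lit 46410557) (dlOf (nat_lit 1) (nat_lit 0x180019385c01))) 
(.lf (nat_lit 537672509) (dlOf (nat_lit 1) (nat_lit 0x400180fbc81)))) 
(.lf (nat_lit 8664893) (dlOf (nat_lit 1) (nat_lit 0x40020002000851a102))))) (.nd (nat_lit 26) 
(.nd (nat_lit 7) (.nd (nat_lit 9) 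
(.lf (nat_lit 1342447677) (dlOf (nat_lit 8) (nat_lit 0x2dc492018622b00be0e380056018067092402e445600021d200cb0e380055c200a38924032047e024c22b01350f800a2871c020038c02661bd002d0be007985e8002ac240010492003c23f0006782000911f800338080038930054049201b623f001e11e801808c40224456014a1f201480f800190790053438e012c1c601410de802385f0044c2f4000cd1c025c2490001124006308fc005047a004823100a9115804407c804b43e000241e400400e48097071c045837a004c17c00fa0bd000330700168008049000200540008030d03))) 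
(.lf (nat_lit 1881418301) (dlOf (nat_lit 1) (nat_lit 0x8002000e0008f05202)))) 
(.lf (nat_lit 1346643133) (dlOf (nat_lit 1) (nat_lit 0x340018fe2c81)))) (.nd (nat_lit 31) 
(.lf (nat_lit 1677991997) (dlOf (nat_lit 1) (nat_lit 0x220028130801))) 
(.lf (nat_lit 3825475645) (dlOf (nat_lit 2) (nat_lit 0x1402000014818160700)))))) (.nd (nat_lit 26) 
(.nd (nat_lit 31) (.nd (nat_lit 29) 
(.lf (nat_lit 134488125) (dlOf (nat_lit 4) (nat_lit 0xa2031005200880050c1003880c401cc022000cd0400a00310052008800330100048008004c002001e0008030d03))) 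
(.lf (nat_lit 671359037) (dlOf (nat_lit 2) (nat_lit 0x38044000090200020018160701)))) 
(.nd (nat_lit 10) (.lf (nat_lit 3087278141) (dlOf (nat_lit 2) (nat_lit 0x1402000015018160700))) 
(.lf (nat_lit 2818847805) (dlOf (nat_lit 1) (nat_lit 0x40008006000200720008129283))))) 
(.nd (nat_lit 28) (.nd (nat_lit 7) 
(.lf (nat_lit 201596989) (dlOf (nat_lit 4) (nat_lit 0xa2031005200880050c1003880c401cc022000cd0400a00310052008800330100048008004c002001e0008030d03))) 
(.lf (nat_lit 4496567229) (dlOf (nat_lit 2) (nat_lit 0x20190000000800700080018002001400080e5d03)))) 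
(.nd (nat_lit 19) (.nd (nat_lit 30) 
(.lf (nat_lit 470032445) (dlOf (nat_lit 8) (nat_lit 0x2dc492018622b00be0e380056018067092402e445600021d200cb0e380055c200a38924032047e024c22b01350f800a2871c020038c02661bd002d0c30079860c002ac240010492003c23f0006782000911f800338080038930054049201b623f001e11e801808c40224456014a1f301480f800190790053438e012c1c601410de80238618044c306000cd1c025c2490001124006308fc005047a004823100a9115804407cc04b43e000241e400400e48097071c045837a004c18600fa0c1800330700168008049000200540008030d03))) 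
(.lf (nat_lit 1543774269) (dlOf (nat_lit 2) (nat_lit 0x38044000090200020018160701)))) 
(.lf (nat_lit 6376136765) (dlOf (nat_lit 1) (nat_lit 0x1a0018090001))))))) (.nd (nat_lit 19) 
(.nd (nat_lit 8) (.nd (nat_lit 26) (.nd (nat_lit 27) 
(.lf (nat_lit 3758399549) (dlOf (nat_lit 2) (nat_lit 0xb0000000a1818170480))) 
(.lf (nat_lit 3087310909) (dlOf (nat_lit 3) (nat_lit 0x300e800d8070000ea0801ac0140096008004a000000000180168008009400200020008170d03)))) 
(.nd (nat_lit 9) 
(.lf (nat_lit 3825508413) (dlOf (nat_lit 3) (nat_lit 0x300e800d8070000ea0801ac0140096008004a000000000180168008009400200020008170d03))) 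
(.lf (nat_lit 6375646781) (dlOf (nat_lit 2) (nat_lit 0x5613100009818003780))))) (.nd (nat_lit 26) 
(.nd (nat_lit 7) (.nd (nat_lit 27) 
(.lf (nat_lit 537174333) (dlOf (nat_lit 1) (nat_lit 0x48008000400200060008048503))) 
(.lf (nat_lit 671392061) (dlOf (nat_lit 9) (nat_lit 0x1001d00100040007801400e80000005d08001e0080010002801d0000000b80c00800580032026000100e80200060000a810015805800a8026008300e801d80600154020000530a001202c001501300098020004800a007a000000288500460040025001400dc00400600000002804000c0040004801400c40000004c0600220080004002801d0000000940c00d400400080008188502)))) 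
(.lf (nat_lit 2400701) (dlOf (nat_lit 1) (nat_lit 0x160008150881)))) (.nd (nat_lit 11) 
(.lf (nat_lit 4362379581) (dlOf (nat_lit 1) (nat_lit 0x10008015400200020008048503))) 
(.lf (nat_lit 2751772989) (dlOf (nat_lit 1) (nat_lit 0x90001800ab81)))))) (.nd (nat_lit 20) 
(.nd (nat_lit 9) 
(.lf (nat_lit 21798973) (dlOf (nat_lit 4) (nat_lit 0xc6a2000370200063510001b0100251a88000000800900080070002000a0008a70703))) 
(.lf (nat_lit 36481597) (dlOf (nat_lit 1) (nat_lit 0x740009075201)))) (.nd (nat_lit 7) 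
(.nd (nat_lit 8) (.nd (nat_lit 21) (.nd (nat_lit 22) 
(.lf (nat_lit 10264637) (dlOf (nat_lit 6) (nat_lit 0xfe3180059c08002718c001f7ac00166040049c630025deb00053410002718c002f7ac0014c0400b7c630058deb00050c1000780080008002003000085c0d03))) 
(.lf (nat_lit 22847549) (dlOf (nat_lit 12) (nat_lit 0x86f48001b808007b5280002e040045a940001602001cdf4000f6a50004b348000240c0039be8001ed4a000766900003818001b7d00019a940000d040008df4000f6a5000030100073528003da8c0000604000ad4a00076a3000014100063528000d9a40000404001cdf4000f6a50000b348000000c0058004000e0018b30e02)))) 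
(.lf (nat_lit 1346150461) (dlOf (nat_lit 4) (nat_lit 0x1a40f8002470200b407c0012281001e03e0008300801280080010002008c0008e60603)))) 
(.lf (nat_lit 1876285) (dlOf (nat_lit 1) (nat_lit 0x400400020008150582)))) 
(.lf (nat_lit 1876157) (dlOf (nat_lit 1) (nat_lit 0x200028150381)))))))) (.nd (nat_lit 30) 
(.nd (nat_lit 9) (.nd (nat_lit 10) (.nd (nat_lit 8) (.nd (nat_lit 15) (.nd (nat_lit 18) 
(.lf (nat_lit 471343229) (dlOf (nat_lit 1) (nat_lit 0x800182e0481))) (.nd (nat_lit 19) 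
(.lf (nat_lit 5301870717) (dlOf (nat_lit 2) (nat_lit 0x80088000d40801280080008002002c00080c0d03))) 
(.lf (nat_lit 2753306749) (dlOf (nat_lit 2) (nat_lit 0x58087000a9018090080))))) (.nd (nat_lit 7) 
(.lf (nat_lit 11575421) (dlOf (nat_lit 5) (nat_lit 0x54e2a002110200147150010801002038a80083c0800a09ac00404040004002000200086c0082))) 
(.lf (nat_lit 19964157) (dlOf (nat_lit 1) (nat_lit 0x10002000200089d0a82))))) (.nd (nat_lit 32) 
(.nd (nat_lit 7) (.lf (nat_lit 2754619773) (dlOf (nat_lit 1) (nat_lit 0x10002000200080f4e82))) 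
(.nd (nat_lit 11) (.lf (nat_lit 470295037) (dlOf (nat_lit 2) (nat_lit 0x2a23c0010e0180c0d80))) 
(.lf (nat_lit 39070205) (dlOf (nat_lit 1) (nat_lit 0x400200040009194f82))))) (.nd (nat_lit 11) 
(.lf (nat_lit 6509830525) (dlOf (nat_lit 1) (nat_lit 0x20028155a81))) (.nd (nat_lit 12) 
(.lf (nat_lit 5033208189) (dlOf (nat_lit 1) (nat_lit 0x400400020008004e82))) 
(.lf (nat_lit 4362090877) (dlOf (nat_lit 1) (nat_lit 0x2002800af01))))))) (.nd (nat_lit 12) 
(.nd (nat_lit 19) (.nd (nat_lit 11) (.nd (nat_lit 26) 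
(.lf (nat_lit 4966065533) (dlOf (nat_lit 1) (nat_lit 0x400400020008003582))) 
(.lf (nat_lit 4630521213) (dlOf (nat_lit 1) (nat_lit 0x20028003581)))) (.nd (nat_lit 27) 
(.lf (nat_lit 4294978941) (dlOf (nat_lit 1) (nat_lit 0x400400020008006c02))) 
(.lf (nat_lit 2550148477) (dlOf (nat_lit 1) (nat_lit 0x400400020008006c02))))) (.nd (nat_lit 7) 
(.nd (nat_lit 21) (.lf (nat_lit 43787645) (dlOf (nat_lit 1) (nat_lit 0x400192a3581))) 
(.lf (nat_lit 8136061) (dlOf (nat_lit 1) (nat_lit 0x68004005c0018513582)))) 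
(.lf (nat_lit 1009296893) (dlOf (nat_lit 1) (nat_lit 0x5600190e3681))))) (.nd (nat_lit 15) 
(.nd (nat_lit 18) (.lf (nat_lit 20460669) (dlOf (nat_lit 1) (nat_lit 0x4004000200189d9502))) 
(.nd (nat_lit 20) (.lf (nat_lit 19674237) (dlOf (nat_lit 1) (nat_lit 0x4002000200089d9502))) 
(.lf (nat_lit 8139901) (dlOf (nat_lit 1) (nat_lit 0x80018519501))))) (.nd (nat_lit 7) 
(.lf (nat_lit 67941501) (dlOf (nat_lit 1) (nat_lit 0xe0018339501))) 
(.lf (nat_lit 2617292285) (dlOf (nat_lit 1) (nat_lit 0x20018009c01))))))) (.nd (nat_lit 15) 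
(.nd (nat_lit 18) (.nd (nat_lit 8) (.nd (nat_lit 10) 
(.lf (nat_lit 19933821) (dlOf (nat_lit 5) (nat_lit 0x16142000218100080a100010808005053c0001204002029e0000002000c00089d5401))) 
(.lf (nat_lit 8922749) (dlOf (nat_lit 4) (nat_lit 0x2993080001c04014c9840000a020044a4a004d26100329304014496a000000800020008513981)))) 
(.nd (nat_lit 12) 
(.lf (nat_lit 4362086269) (dlOf (nat_lit 2) (nat_lit 0x8066000802d00012028004100))) 
(.lf (nat_lit 8402813) (dlOf (nat_lit 1) (nat_lit 0xc0020002000851a302))))) (.nd (nat_lit 7) 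
(.nd (nat_lit 8) 
(.lf (nat_lit 8660605) (dlOf (nat_lit 3) (nat_lit 0x2fb5c0007d98000aeca8000b4180108574019029e001806e00012838513980))) 
(.nd (nat_lit 20) (.lf (nat_lit 67909501) (dlOf (nat_lit 1) (nat_lit 0x8001833a301))) 
(.lf (nat_lit 8140669) (dlOf (nat_lit 1) (nat_lit 0x80020002000851a302))))) (.nd (nat_lit 11) 
(.lf (nat_lit 50603005) (dlOf (nat_lit 1) (nat_lit 0x2a00294c2881))) 
(.lf (nat_lit 20196349) (dlOf (nat_lit 1) (nat_lit 0xd8002000600089d5f02)))))) (.nd (nat_lit 8) 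
(.nd (nat_lit 19) (.nd (nat_lit 20) 
(.lf (nat_lit 2147526269) (dlOf (nat_lit 2) (nat_lit 0x20150001a818003980))) 
(.lf (nat_lit 61908605) (dlOf (nat_lit 2) (nat_lit 0x6143e0002d0200020019923981)))) 
(.lf (nat_lit 52995709) (dlOf (nat_lit 1) (nat_lit 0x20029573981)))) (.nd (nat_lit 12) 
(.nd (nat_lit 7) (.nd (nat_lit 26) (.lf (nat_lit 42877) (dlOf (nat_lit 1) (nat_lit 0x20028004101))) 
(.lf (nat_lit 4362119037) (dlOf (nat_lit 1) (nat_lit 0x80080004002000c0008004103)))) 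
(.lf (nat_lit 1009296381) (dlOf (nat_lit 1) (nat_lit 0x4004000200190e2882)))) (.nd (nat_lit 7) 
(.nd (nat_lit 18) (.lf (nat_lit 8435581) (dlOf (nat_lit 1) (nat_lit 0x28008000c0020004000851a303))) 
(.lf (nat_lit 67942269) (dlOf (nat_lit 1) (nat_lit 0x100020002000833a302)))) 
(.lf (nat_lit 2952838141) (dlOf (nat_lit 1) (nat_lit 0x20002000c000800bf02)))))))) (.nd (nat_lit 8) 
(.nd (nat_lit 10) (.nd (nat_lit 19) (.nd (nat_lit 7) (.nd (nat_lit 11) 
(.lf (nat_lit 5436088445) (dlOf (nat_lit 1) (nat_lit 0x100080008002000400080c0c83))) 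
(.lf (nat_lit 1811982461) (dlOf (nat_lit 1) (nat_lit 0x10008001800200040008004783)))) 
(.nd (nat_lit 9) (.nd (nat_lit 27) 
(.lf (nat_lit 1409589501) (dlOf (nat_lit 1) (nat_lit 0x20018047101))) 
(.lf (nat_lit 1543807229) (dlOf (nat_lit 2) (nat_lit 0x600f00259018187100)))) 
(.lf (nat_lit 1345628925) (dlOf (nat_lit 1) (nat_lit 0x3c0008dd5a81))))) (.nd (nat_lit 15) 
(.nd (nat_lit 26) (.lf (nat_lit 3892846717) (dlOf (nat_lit 1) (nat_lit 0x7000400200008280482))) 
(.lf (nat_lit 1409818749) (dlOf (nat_lit 8) (nat_lit 0x1902d00140148007c066001e022001400f8007f02800d816800a80a400220330010011000a007c003f61400700b40056052000a01980070088004803e000c008000fd0600ba02d80668144036807e01b20320021011800780280260144003ac0400540aa0016502002a05d000202a000d8000002b80c004400400220018090082)))) 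
(.nd (nat_lit 7) (.nd (nat_lit 11) 
(.lf (nat_lit 3491537021) (dlOf (nat_lit 2) (nat_lit 0xc137000f1818090080))) 
(.lf (nat_lit 1410115709) (dlOf (nat_lit 1) (nat_lit 0x1000180f4781)))) 
(.lf (nat_lit 3892879613) (dlOf (nat_lit 1) (nat_lit 0x20008002c002000e0008280683)))))) 
(.nd (nat_lit 15) (.nd (nat_lit 29) (.nd (nat_lit 18) 
(.lf (nat_lit 1207969405) (dlOf (nat_lit 2) (nat_lit 0xfe0140001a818003980))) 
(.lf (nat_lit 5637416573) (dlOf (nat_lit 3) (nat_lit 0x338094016c0300000a04011e014002c009802d0008000000c003c004000800080d3982)))) 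
(.nd (nat_lit 9) (.lf (nat_lit 6039811197) (dlOf (nat_lit 1) (nat_lit 0x20028009501))) 
(.lf (nat_lit 1744840317) (dlOf (nat_lit 2) (nat_lit 0x100380002a018003980))))) (.nd (nat_lit 31) 
(.nd (nat_lit 29) 
(.lf (nat_lit 1208002173) (dlOf (nat_lit 2) (nat_lit 0x4200500006a04001000200040008003982))) 
(.lf (nat_lit 1744873085) (dlOf (nat_lit 1) (nat_lit 0x80008003981)))) (.nd (nat_lit 9) 
(.lf (nat_lit 3355489405) (dlOf (nat_lit 1) (nat_lit 0x20028009501))) 
(.lf (nat_lit 3556812413) (dlOf (nat_lit 16) (nat_lit 0x28001801c800801240000002a03006d003000b0000000a608031800c0005202000c06e0001a81001f00b0000c00800100580005e04009c0e6015202700ec00b804d0058013402a00dc00e01030060032002c025800a009a000000168a00930070000b0080120038000380400fc02e0066016007f00700278030017c00c00f6004009f00000006c38064805c030c02c001a00e0101006000780000002e140044000000140200660060096000000044100500000000200400c40180000f02000e0028003981))))))) 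
(.nd (nat_lit 10) (.nd (nat_lit 9) (.nd (nat_lit 7) (.nd (nat_lit 11) 
(.lf (nat_lit 5905850749) (dlOf (nat_lit 1) (nat_lit 0x20028155a81))) (.nd (nat_lit 15) 
(.lf (nat_lit 1345333629) (dlOf (nat_lit 1) (nat_lit 0x60028b54e81))) 
(.lf (nat_lit 5368752509) (dlOf (nat_lit 1) (nat_lit 0x400200020008004e82))))) (.nd (nat_lit 15) 
(.lf (nat_lit 1342710269) (dlOf (nat_lit 2) (nat_lit 0x2a23c0010c8180c0d80))) 
(.lf (nat_lit 3959726589) (dlOf (nat_lit 5) (nat_lit 0x25001f00dd00380730018031a0000001104011401f0000780812d80f8070001c00340000000e03023701f00d400380003608047800400240018127e02))))) 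
(.nd (nat_lit 12) (.nd (nat_lit 11) 
(.lf (nat_lit 3221234685) (dlOf (nat_lit 1) (nat_lit 0x20008002881))) 
(.lf (nat_lit 4094700541) (dlOf (nat_lit 1) (nat_lit 0x400200260008055f02)))) (.nd (nat_lit 26) 
(.lf (nat_lit 1476408317) (dlOf (nat_lit 1) (nat_lit 0x38008001c00200380008009203))) 
(.lf (nat_lit 3691000829) (dlOf (nat_lit 2) (nat_lit 0x9202a00260018009200)))))) (.nd (nat_lit 7) 
(.nd (nat_lit 11) (.nd (nat_lit 15) (.nd (nat_lit 26) 
(.lf (nat_lit 5502936445) (dlOf (nat_lit 1) (nat_lit 0x400400020008003582))) 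
(.lf (nat_lit 6106916221) (dlOf (nat_lit 1) (nat_lit 0x20028003581)))) 
(.lf (nat_lit 1610917245) (dlOf (nat_lit 1) (nat_lit 0x20028093581)))) (.nd (nat_lit 27) 
(.lf (nat_lit 3288345981) (dlOf (nat_lit 2) (nat_lit 0x280d400076040044002000e0008006c02))) 
(.lf (nat_lit 4227870077) (dlOf (nat_lit 2) (nat_lit 0x40320001b818006c00))))) (.nd (nat_lit 26) 
(.nd (nat_lit 9) (.lf (nat_lit 3489967613) (dlOf (nat_lit 1) (nat_lit 0x40028006f81))) 
(.lf (nat_lit 1476407293) (dlOf (nat_lit 1) (nat_lit 0x180080018002000e0008007a83)))) 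
(.nd (nat_lit 11) (.lf (nat_lit 1543518205) (dlOf (nat_lit 1) (nat_lit 0x1c0040064000800a602))) 
(.lf (nat_lit 3690999805) (dlOf (nat_lit 1) (nat_lit 0x1400200060008007a82))))))))))))

end

end Pool.Agent.Lib.MP_5854e1_co.Cz

namespace Pool.Agent.Lib.MP_5854e1_co.Cz

noncomputable section

noncomputable def tz59 : DT := (.nd (nat_lit 15) (.nd (nat_lit 5) (.nd (nat_lit 18) 
(.nd (nat_lit 6) (.nd (nat_lit 19) (.nd (nat_lit 10) (.nd (nat_lit 8) (.nd (nat_lit 20) 
(.nd (nat_lit 11) (.nd (nat_lit 22) 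
(.lf (nat_lit 25239565) (dlOf (nat_lit 1) (nat_lit 0xc00400040008bf0482))) 
(.lf (nat_lit 12656653) (dlOf (nat_lit 1) (nat_lit 0x124002008600086d0682)))) 
(.lf (nat_lit 4362156045) (dlOf (nat_lit 1) (nat_lit 0xd800800440020012000800a603)))) 
(.nd (nat_lit 23) (.nd (nat_lit 4) 
(.lf (nat_lit 1122317) (dlOf (nat_lit 1) (nat_lit 0x580018070181))) 
(.lf (nat_lit 1345396765) (dlOf (nat_lit 1) (nat_lit 0xc00200060008ba0602)))) (.nd (nat_lit 7) 
(.nd (nat_lit 24) (.lf (nat_lit 43065357) (dlOf (nat_lit 1) (nat_lit 0x800292a0001))) 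
(.lf (nat_lit 26288141) (dlOf (nat_lit 1) (nat_lit 0x1a0028c30001)))) 
(.lf (nat_lit 30482573) (dlOf (nat_lit 1) (nat_lit 0x18008001800200100008e30483)))))) 
(.nd (nat_lit 4) (.nd (nat_lit 9) 
(.lf (nat_lit 1744904461) (dlOf (nat_lit 1) (nat_lit 0x1c0008090a81))) 
(.lf (nat_lit 5167459085) (dlOf (nat_lit 2) (nat_lit 0x701400000c080008008000400200020008055b03)))) 
(.nd (nat_lit 7) (.lf (nat_lit 671164701) (dlOf (nat_lit 1) (nat_lit 0x240028144b81))) 
(.nd (nat_lit 26) (.lf (nat_lit 4563478941) (dlOf (nat_lit 1) (nat_lit 0x100028094e81))) 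
(.lf (nat_lit 3154192797) (dlOf (nat_lit 1) (nat_lit 0xfc0008104e81))))))) (.nd (nat_lit 4) 
(.nd (nat_lit 22) (.nd (nat_lit 9) (.nd (nat_lit 8) 
(.lf (nat_lit 5368785933) (dlOf (nat_lit 1) (nat_lit 0x400200020008005f82))) 
(.lf (nat_lit 2617324813) (dlOf (nat_lit 1) (nat_lit 0x14004000800180a9682)))) (.nd (nat_lit 11) 
(.lf (nat_lit 3355522573) (dlOf (nat_lit 1) (nat_lit 0x200180a9c01))) 
(.lf (nat_lit 1342254605) (dlOf (nat_lit 1) (nat_lit 0x20028007081))))) (.nd (nat_lit 23) 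
(.nd (nat_lit 24) (.lf (nat_lit 1346448397) (dlOf (nat_lit 1) (nat_lit 0x8002000e0008f65f82))) 
(.lf (nat_lit 54602765) (dlOf (nat_lit 4) (nat_lit 0x164c60002b0100212630001540802e13180090988000130401ba0029655f81)))) 
(.lf (nat_lit 46214157) (dlOf (nat_lit 2) (nat_lit 0x515fb00009819385f80))))) (.nd (nat_lit 7) 
(.nd (nat_lit 8) (.lf (nat_lit 738274333) (dlOf (nat_lit 1) (nat_lit 0x120018096001))) 
(.lf (nat_lit 872490269) (dlOf (nat_lit 1) (nat_lit 0x240008093101)))) (.nd (nat_lit 26) 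
(.nd (nat_lit 8) (.lf (nat_lit 2281780381) (dlOf (nat_lit 1) (nat_lit 0x960018009501))) 
(.lf (nat_lit 536946589) (dlOf (nat_lit 1) (nat_lit 0x400200020008004282)))) (.nd (nat_lit 21) 
(.lf (nat_lit 1140925597) (dlOf (nat_lit 1) (nat_lit 0x1e0028002b81))) 
(.lf (nat_lit 4095812765) (dlOf (nat_lit 1) (nat_lit 0x4002000200080e2b82)))))))) (.nd (nat_lit 4) 
(.nd (nat_lit 21) (.nd (nat_lit 7) (.nd (nat_lit 9) 
(.lf (nat_lit 10035213) (dlOf (nat_lit 1) (nat_lit 0x80080004002000200085b0483))) 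
(.lf (nat_lit 1880695309) (dlOf (nat_lit 2) (nat_lit 0x837c0139404003800400040008b37b02)))) 
(.nd (nat_lit 8) (.nd (nat_lit 26) 
(.lf (nat_lit 3491307661) (dlOf (nat_lit 4) (nat_lit 0xe023000b4116000360400021e6000040100020f10001055000000080028004001e0008090102))) 
(.lf (nat_lit 2753110157) (dlOf (nat_lit 4) (nat_lit 0xe022400b4110000360400021f8000040100021020001056400000080028004001e0008090102)))) 
(.lf (nat_lit 2753110413) (dlOf (nat_lit 1) (nat_lit 0x40018090781))))) (.nd (nat_lit 20) 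
(.nd (nat_lit 22) (.nd (nat_lit 24) 
(.lf (nat_lit 11083789) (dlOf (nat_lit 2) (nat_lit 0x4000000076040024002000a0008660102))) 
(.lf (nat_lit 27861005) (dlOf (nat_lit 4) (nat_lit 0x145720014ab8c00414140008c060032ae4002657180012828001160c01955c800b8ae3003c505000228180040008000c002001c0008d30183)))) 
(.nd (nat_lit 7) (.lf (nat_lit 15278093) (dlOf (nat_lit 1) (nat_lit 0x4002000200087d0102))) 
(.lf (nat_lit 23666829) (dlOf (nat_lit 2) (nat_lit 0x30b7000c720800732a8003187000100000001d858b80100))))) 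
(.nd (nat_lit 9) (.nd (nat_lit 10) 
(.lf (nat_lit 3743757) (dlOf (nat_lit 1) (nat_lit 0x20018220381))) 
(.lf (nat_lit 20524045) (dlOf (nat_lit 1) (nat_lit 0x14002002a00089d5f82)))) 
(.lf (nat_lit 20524557) (dlOf (nat_lit 2) (nat_lit 0x5a06000190189d7080)))))) (.nd (nat_lit 26) 
(.nd (nat_lit 21) (.nd (nat_lit 30) (.nd (nat_lit 23) 
(.lf (nat_lit 134815773) (dlOf (nat_lit 1) (nat_lit 0x400280c0a81))) 
(.lf (nat_lit 42541085) (dlOf (nat_lit 2) (nat_lit 0xaa00000000019260100)))) (.nd (nat_lit 22) 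
(.lf (nat_lit 3221823517) (dlOf (nat_lit 2) (nat_lit 0x24000000000040030002001e0008190982))) 
(.lf (nat_lit 3494453277) (dlOf (nat_lit 1) (nat_lit 0x40008001800200020008230483))))) 
(.nd (nat_lit 23) (.lf (nat_lit 36249629) (dlOf (nat_lit 2) (nat_lit 0xc0780003b02002e0029050101))) 
(.lf (nat_lit 11083805) (dlOf (nat_lit 1) (nat_lit 0x88002000a0008660482))))) (.nd (nat_lit 22) 
(.nd (nat_lit 29) (.lf (nat_lit 201924637) (dlOf (nat_lit 1) (nat_lit 0x400280c0a81))) 
(.lf (nat_lit 3960021021) (dlOf (nat_lit 2) (nat_lit 0x24000000000040030002001e0008190982)))) 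
(.nd (nat_lit 27) 
(.lf (nat_lit 2756255773) (dlOf (nat_lit 1) (nat_lit 0x40008001800200020008230483))) 
(.lf (nat_lit 474554397) (dlOf (nat_lit 8) (nat_lit 0x1650ab00b3850c035427602c20cd0122042801081d4000941805942ac02c8143011909d80b2833404a410a000430a02de15601730a1809304ec05b819a025c085000208500a20ab0048050c016c11a0003b060058156002c0a18000e810006050c0007204000c2ac0003802000200291a0101)))))))) 
(.nd (nat_lit 4) (.nd (nat_lit 7) (.nd (nat_lit 19) (.nd (nat_lit 9) (.nd (nat_lit 22) 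
(.lf (nat_lit 16851021) (dlOf (nat_lit 6) (nat_lit 0x19719c0018004005ba2e0119c68007ce338001f1580101ed60008c0a0061d170002e42004b71a002438ce001f5b400587b580022c30010f45c02438d00101c670020ada00114014010ded6000890c0009c680010e338002201000e80080098002000200088e0183))) 
(.lf (nat_lit 12656717) (dlOf (nat_lit 1) (nat_lit 0x80080004002000200086d0f03)))) (.nd (nat_lit 8) 
(.nd (nat_lit 10) (.lf (nat_lit 31533645) (dlOf (nat_lit 1) (nat_lit 0x8008000400200020008e95283))) 
(.lf (nat_lit 1610688077) (dlOf (nat_lit 1) (nat_lit 0x400200020008093882)))) 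
(.lf (nat_lit 1342256973) (dlOf (nat_lit 1) (nat_lit 0x3c002000a000800a202))))) (.nd (nat_lit 8) 
(.nd (nat_lit 20) (.lf (nat_lit 42541133) (dlOf (nat_lit 2) (nat_lit 0x38470001b019260680))) 
(.lf (nat_lit 1343823949) (dlOf (nat_lit 1) (nat_lit 0x8008000400200020008370183)))) 
(.nd (nat_lit 10) (.nd (nat_lit 20) 
(.lf (nat_lit 23667021) (dlOf (nat_lit 1) (nat_lit 0x400200060008b80602))) 
(.lf (nat_lit 28909901) (dlOf (nat_lit 1) (nat_lit 0x8008000400200020008da0783)))) 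
(.lf (nat_lit 7943501) (dlOf (nat_lit 1) (nat_lit 0x400200020008519902)))))) (.nd (nat_lit 30) 
(.nd (nat_lit 27) (.nd (nat_lit 9) (.nd (nat_lit 19) 
(.lf (nat_lit 805380301) (dlOf (nat_lit 2) (nat_lit 0x1b409e0168038007301300091c1800680080028002000e0008090483))) 
(.lf (nat_lit 14229709) (dlOf (nat_lit 1) (nat_lit 0x120028750481)))) 
(.lf (nat_lit 20001485) (dlOf (nat_lit 1) (nat_lit 0x4002000200089d8c82)))) (.nd (nat_lit 8) 
(.nd (nat_lit 31) 
(.lf (nat_lit 939598029) (dlOf (nat_lit 2) (nat_lit 0x34024001100f8008f01001080080030002004800080b0483))) 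
(.lf (nat_lit 3087081677) (dlOf (nat_lit 1) (nat_lit 0x1200180b0481)))) (.nd (nat_lit 9) 
(.lf (nat_lit 2818646477) (dlOf (nat_lit 1) (nat_lit 0xa4400205080008081102))) 
(.lf (nat_lit 5234568141) (dlOf (nat_lit 2) (nat_lit 0xa02f000d017000084100060008000400200020008055d83)))))) 
(.nd (nat_lit 29) (.nd (nat_lit 8) (.nd (nat_lit 9) 
(.lf (nat_lit 3221299405) (dlOf (nat_lit 2) (nat_lit 0xa6020000e2818090480))) 
(.lf (nat_lit 1342255821) (dlOf (nat_lit 1) (nat_lit 0xc4002002a0008008c82)))) 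
(.lf (nat_lit 5704330189) (dlOf (nat_lit 2) (nat_lit 0xe01b002100c800d802c000540c001800400060008055d82)))) 
(.nd (nat_lit 27) (.nd (nat_lit 31) 
(.lf (nat_lit 1677795533) (dlOf (nat_lit 2) (nat_lit 0x1b409e0168038007301300091c1800680080028002000e0008090483))) 
(.lf (nat_lit 3825279181) (dlOf (nat_lit 1) (nat_lit 0x1200180b0481)))) (.nd (nat_lit 31) 
(.lf (nat_lit 1812013261) (dlOf (nat_lit 2) (nat_lit 0x34024001100f8008f01001080080030002004800080b0483))) 
(.lf (nat_lit 3959496909) (dlOf (nat_lit 2) (nat_lit 0xa6020000e2818090480)))))))) (.nd (nat_lit 7) 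
(.nd (nat_lit 8) (.nd (nat_lit 11) (.nd (nat_lit 19) (.nd (nat_lit 20) 
(.lf (nat_lit 4563476573) (dlOf (nat_lit 1) (nat_lit 0xc002000a0008090082))) 
(.lf (nat_lit 38871133) (dlOf (nat_lit 1) (nat_lit 0x140029170881)))) 
(.lf (nat_lit 42541149) (dlOf (nat_lit 4) (nat_lit 0x40000001d0200a60000000e0100030000000600800480080030002002c0009260883)))) 
(.nd (nat_lit 9) 
(.lf (nat_lit 469843037) (dlOf (nat_lit 14) (nat_lit 0x607e0002c8100050a7000101f8000b00800082c2000a14e000403f00015c1800201f80009e0400082c2000614e000a03f00013818001853800280fc0004d04000407e000230100030a7000401f800240480004506000607e0002001000403f0000fc08005053800300fc0003d0400101650000e01000303f0000000800400080054002001a000800c003))) 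
(.lf (nat_lit 44640861) (dlOf (nat_lit 1) (nat_lit 0x400200020009325302))))) (.nd (nat_lit 26) 
(.nd (nat_lit 11) (.nd (nat_lit 27) 
(.lf (nat_lit 805380445) (dlOf (nat_lit 2) (nat_lit 0xbe02600005018090680))) 
(.lf (nat_lit 939598173) (dlOf (nat_lit 1) (nat_lit 0x200080040002003200080b0683)))) 
(.lf (nat_lit 1744906589) (dlOf (nat_lit 1) (nat_lit 0xe0028094e81)))) (.nd (nat_lit 27) 
(.lf (nat_lit 1677795677) (dlOf (nat_lit 2) (nat_lit 0xbe02600005018090680))) 
(.lf (nat_lit 1812013405) (dlOf (nat_lit 1) (nat_lit 0x200080040002003200080b0683)))))) 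
(.nd (nat_lit 10) (.nd (nat_lit 20) (.nd (nat_lit 8) 
(.lf (nat_lit 4563476701) (dlOf (nat_lit 1) (nat_lit 0x880080014002002e0008090a03))) 
(.nd (nat_lit 9) 
(.lf (nat_lit 1543580125) (dlOf (nat_lit 1) (nat_lit 0x4c000809b4002025a0008144e83))) 
(.lf (nat_lit 1610687453) (dlOf (nat_lit 1) (nat_lit 0x20018092881))))) (.nd (nat_lit 8) 
(.lf (nat_lit 7942877) (dlOf (nat_lit 1) (nat_lit 0x20018518c81))) (.nd (nat_lit 11) 
(.lf (nat_lit 40968669) (dlOf (nat_lit 1) (nat_lit 0x40029207c81))) 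
(.lf (nat_lit 37300701) (dlOf (nat_lit 1) (nat_lit 0x38008000c002000200090d4e83)))))) 
(.nd (nat_lit 8) (.nd (nat_lit 26) 
(.lf (nat_lit 402728157) (dlOf (nat_lit 1) (nat_lit 0x20028092e01))) 
(.lf (nat_lit 2080449757) (dlOf (nat_lit 2) (nat_lit 0x5002800028080018008003400200260008092e03)))) 
(.nd (nat_lit 26) 
(.lf (nat_lit 2952869341) (dlOf (nat_lit 4) (nat_lit 0xc0280006a02001600a0001c8100010050000e0080248008006c002000a0008009b03))) 
(.nd (nat_lit 27) 
(.lf (nat_lit 604059101) (dlOf (nat_lit 4) (nat_lit 0x20000000fc0800080000003804000c07e000000200160018009b01))) 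
(.lf (nat_lit 3691066845) (dlOf (nat_lit 3) (nat_lit 0xc01b0002881000600a8001140800a8008002000200240008009b03)))))))))) 
(.nd (nat_lit 28) (.nd (nat_lit 21) (.nd (nat_lit 4) (.nd (nat_lit 31) (.nd (nat_lit 27) 
(.nd (nat_lit 20) (.nd (nat_lit 9) 
(.lf (nat_lit 537206797) (dlOf (nat_lit 2) (nat_lit 0x8090001c604000800200040008050182))) 
(.lf (nat_lit 339469) (dlOf (nat_lit 1) (nat_lit 0x1b500080700002037e0008007083)))) 
(.nd (nat_lit 6) (.lf (nat_lit 1384461) (dlOf (nat_lit 1) (nat_lit 0x100080004002000200080c0483))) 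
(.lf (nat_lit 43851853) (dlOf (nat_lit 3) (nat_lit 0x30c0e0067681000d60700338c0802700080224002002c00092a0003))))) 
(.nd (nat_lit 7) (.nd (nat_lit 26) 
(.lf (nat_lit 134553613) (dlOf (nat_lit 2) (nat_lit 0x3803b00112018070500))) 
(.lf (nat_lit 201662477) (dlOf (nat_lit 2) (nat_lit 0x3803b00119818070500)))) 
(.lf (nat_lit 1745166477) (dlOf (nat_lit 1) (nat_lit 0x200180c0f81))))) (.nd (nat_lit 26) 
(.nd (nat_lit 6) (.nd (nat_lit 19) 
(.lf (nat_lit 3355779085) (dlOf (nat_lit 1) (nat_lit 0x800400020018110082))) 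
(.lf (nat_lit 2819432461) (dlOf (nat_lit 8) (nat_lit 0x2280de002805b002401a000700ac001641000600de000b10201bc04600c2022800200e402f00420160020000448500e20230064811403040420154020000440400e0023005f811402f80420162020000430400e502300648114030c0420162020000428400b8023005700840010608008400401340018280182)))) 
(.lf (nat_lit 3892650061) (dlOf (nat_lit 2) (nat_lit 0x240ac000203500005828180700)))) 
(.nd (nat_lit 6) (.nd (nat_lit 22) 
(.lf (nat_lit 2349146125) (dlOf (nat_lit 2) (nat_lit 0x16801e002400d000000280d0480))) 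
(.lf (nat_lit 2755993613) (dlOf (nat_lit 1) (nat_lit 0x200181c0681)))) 
(.lf (nat_lit 2349146189) (dlOf (nat_lit 25) (nat_lit 0x5300540452010029f007000158180e30090004c03803c2015002700780558034000a81411340560382024001300e00ed80540b6801a027e00000029860184015800e0090004c038006c0150022007800e0000000a418011401e055400d000288200540160094002408500000004b06041a02c062800f0003803c049c01a041000901fb0000001283011280b018a403c000e00f0227006812e802408dc000000490c001802c047800f00eb002407480000004808002600f005b00680011c1010700b013ac05604280150010007815a00340228012042a00000023070003016028380ac00fc02a03e400000022840382015810b805401080000004206065802b0002081020c016022580ac0030038030c015020500680e100000007e1802dc056002e01500f00068000f8180f000b001b0056002601c0025004812680000007a1408f0056002601c013f00a8055003400880000003c0a003e0100000e01001a008000600380003608015c0200001a02004601000300070000641002000400002804145c05604280150021009801a004007e4000000000a006a00080d0d01))))))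 
(.nd (nat_lit 19) (.nd (nat_lit 6) (.nd (nat_lit 7) (.nd (nat_lit 26) (.nd (nat_lit 29) 
(.lf (nat_lit 134553629) (dlOf (nat_lit 8) (nat_lit 0x2200760002a02028c03b000140100e201d80009c0800f80ec000420400900760002002000203b0000f81012801d80006c0803500080494002014a0008070603))) 
(.lf (nat_lit 3892650013) (dlOf (nat_lit 3) (nat_lit 0xf02a800980d0006c02800029060004055000801a000200500004e0c007c00400440008180102)))) 
(.lf (nat_lit 201662493) (dlOf (nat_lit 8) (nat_lit 0x2200760001602028c03b0000a0100e201d80004c0801200ec0001a04007c0760000c02000203b0000581012801d80001c0803500080494002014a0008070603)))) 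
(.lf (nat_lit 51717277) (dlOf (nat_lit 1) (nat_lit 0x220019512b81)))) (.nd (nat_lit 7) 
(.nd (nat_lit 9) 
(.lf (nat_lit 738533725) (dlOf (nat_lit 3) (nat_lit 0xe052000901a0000808000240360021c08000e052000901a0004006c004340c0074004000400180a7102))) 
(.lf (nat_lit 2886018909) (dlOf (nat_lit 2) (nat_lit 0x200f40000a04000400400040008143f82)))) 
(.lf (nat_lit 2886018013) (dlOf (nat_lit 1) (nat_lit 0x800400080018142882))))) (.nd (nat_lit 20) 
(.nd (nat_lit 23) (.nd (nat_lit 22) 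
(.lf (nat_lit 2819432477) (dlOf (nat_lit 1) (nat_lit 0x80028280481))) 
(.lf (nat_lit 21831709) (dlOf (nat_lit 1) (nat_lit 0x20028a70481)))) (.nd (nat_lit 24) 
(.lf (nat_lit 9248797) (dlOf (nat_lit 1) (nat_lit 0x170008000400200260008530103))) 
(.lf (nat_lit 59580445) (dlOf (nat_lit 3) (nat_lit 0x73a0000248080069d00000000400d0004007a0009810602))))) 
(.nd (nat_lit 6) (.nd (nat_lit 22) 
(.lf (nat_lit 2753372189) (dlOf (nat_lit 1) (nat_lit 0x400400020008090002))) 
(.lf (nat_lit 39657501) (dlOf (nat_lit 2) (nat_lit 0x612b8002c9480003b04000200191b0101)))) 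
(.lf (nat_lit 1909213) (dlOf (nat_lit 1) (nat_lit 0xa0018150b81))))))) (.nd (nat_lit 8) 
(.nd (nat_lit 24) (.nd (nat_lit 4) (.nd (nat_lit 6) (.nd (nat_lit 7) 
(.lf (nat_lit 2433037) (dlOf (nat_lit 4) (nat_lit 0x5548e00476020026a470023a8100145238011d008003800801b800200080008160683))) 
(.lf (nat_lit 11870349) (dlOf (nat_lit 2) (nat_lit 0x50c7e000c61d0005302800117e800548080003b0a005600286c0101)))) 
(.lf (nat_lit 35990093) (dlOf (nat_lit 1) (nat_lit 0x20019015281)))) (.nd (nat_lit 6) 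
(.nd (nat_lit 7) (.lf (nat_lit 11345949) (dlOf (nat_lit 1) (nat_lit 0x8008001400200020008690483))) 
(.lf (nat_lit 36514461) (dlOf (nat_lit 1) (nat_lit 0x20019075581)))) 
(.lf (nat_lit 37036125) (dlOf (nat_lit 1) (nat_lit 0x20019081981))))) (.nd (nat_lit 19) 
(.nd (nat_lit 4) (.nd (nat_lit 9) 
(.lf (nat_lit 24453133) (dlOf (nat_lit 2) (nat_lit 0x9da440036d12000110400020018ba0381))) 
(.lf (nat_lit 23405069) (dlOf (nat_lit 2) (nat_lit 0x1ccc8a80f9644407530de03b786b01b7000000594280168008000c002001a0008b80d83)))) 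
(.lf (nat_lit 32841821) (dlOf (nat_lit 1) (nat_lit 0x400200020008f30882)))) (.nd (nat_lit 4) 
(.nd (nat_lit 10) (.lf (nat_lit 29171725) (dlOf (nat_lit 1) (nat_lit 0x400400020018dd0a02))) 
(.lf (nat_lit 19737613) (dlOf (nat_lit 1) (nat_lit 0x4002000200089d5f82)))) 
(.lf (nat_lit 23928925) (dlOf (nat_lit 1) (nat_lit 0x1f000401620008b80002)))))) (.nd (nat_lit 6) 
(.nd (nat_lit 10) (.nd (nat_lit 4) (.nd (nat_lit 11) 
(.lf (nat_lit 8200589) (dlOf (nat_lit 1) (nat_lit 0x400200020008511002))) 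
(.lf (nat_lit 2754947469) (dlOf (nat_lit 1) (nat_lit 0x200180f4e81)))) 
(.lf (nat_lit 36514205) (dlOf (nat_lit 1) (nat_lit 0x40019074e81)))) (.nd (nat_lit 7) 
(.lf (nat_lit 58533133) (dlOf (nat_lit 1) (nat_lit 0x4002000200097e3002))) 
(.lf (nat_lit 20262285) (dlOf (nat_lit 2) (nat_lit 0x4d61e0001902000400189d6c81))))) 
(.nd (nat_lit 7) (.nd (nat_lit 4) (.nd (nat_lit 9) 
(.lf (nat_lit 11870541) (dlOf (nat_lit 1) (nat_lit 0x20008002c002001600086c0603))) 
(.lf (nat_lit 20261709) (dlOf (nat_lit 1) (nat_lit 0x4002000200089d5c02)))) 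
(.lf (nat_lit 7151965) (dlOf (nat_lit 1) (nat_lit 0x2a00184b0901)))) (.nd (nat_lit 9) 
(.nd (nat_lit 20) (.lf (nat_lit 61678029) (dlOf (nat_lit 1) (nat_lit 0x400200020009921102))) 
(.lf (nat_lit 12394957) (dlOf (nat_lit 1) (nat_lit 0x1c00186c0a01)))) (.nd (nat_lit 20) 
(.lf (nat_lit 49095629) (dlOf (nat_lit 1) (nat_lit 0x2000800d800200280009462883))) 
(.lf (nat_lit 8201165) (dlOf (nat_lit 1) (nat_lit 0x140018512881))))))))) (.nd (nat_lit 27) 
(.nd (nat_lit 6) (.nd (nat_lit 30) (.nd (nat_lit 26) (.nd (nat_lit 4) 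
(.lf (nat_lit 4563738637) (dlOf (nat_lit 3) (nat_lit 0x802a0004012006768200030080026940800180080010002003000080d0003))) 
(.lf (nat_lit 4563738653) (dlOf (nat_lit 1) (nat_lit 0x5c004001200080d0082)))) (.nd (nat_lit 7) 
(.lf (nat_lit 2483363853) (dlOf (nat_lit 2) (nat_lit 0x16801e002400d000000280d0480))) 
(.lf (nat_lit 872751245) (dlOf (nat_lit 1) (nat_lit 0x200180c0f81))))) (.nd (nat_lit 4) 
(.nd (nat_lit 7) (.nd (nat_lit 19) (.nd (nat_lit 22) 
(.lf (nat_lit 1409622029) (dlOf (nat_lit 2) (nat_lit 0x80900016604000800200040008050182))) 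
(.lf (nat_lit 3494191117) (dlOf (nat_lit 1) (nat_lit 0x200181c0681)))) 
(.lf (nat_lit 1343037453) (dlOf (nat_lit 1) (nat_lit 0x80018140081)))) 
(.lf (nat_lit 5637480845) (dlOf (nat_lit 1) (nat_lit 0x14004000200180f5d82)))) (.nd (nat_lit 19) 
(.lf (nat_lit 1879384093) (dlOf (nat_lit 1) (nat_lit 0x120018110b01))) 
(.lf (nat_lit 1346183197) (dlOf (nat_lit 2) (nat_lit 0x2982ac01300cd00017828e60100)))))) 
(.nd (nat_lit 11) (.nd (nat_lit 19) (.nd (nat_lit 26) 
(.lf (nat_lit 4563738701) (dlOf (nat_lit 2) (nat_lit 0x10088000e80801700080164002005800080d0503))) 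
(.lf (nat_lit 2483363917) (dlOf (nat_lit 25) (nat_lit 0x5300540452010029f007000174180e30090004c03803c2015002700780558034000b61411340560382024001300e00ed80540b6801a027e0000002d060184015800e0090004c038006c0150022007800e0000000b218011401e055400d0002c0200540170094002008500000005206041a02e062800e8003803c049c01a041000801fb0000001443011280b818a403a000e00f0227006812e802008dc000000500c001802e047800e80eb002007480000004f08002600f005b0068001381010700b813ac05604280150010007815a00340228010042a00000026870003017028380ac00fc02a03e400000026040382015810b805401080000004906065802b0002401020c017022580ac0030038030c015020500680e100000008c1802dc056002e01500f0006800114180f000b801b0056002601c002500401268000000881408f0056002601c013f00a805500340088000000430a003e0100000e01001a008000600380003608015c0200001a02004601000300070000641002000400002804145c05604280150021009801a004007e4000000000a006a00080d0d01)))) 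
(.lf (nat_lit 1346183245) (dlOf (nat_lit 2) (nat_lit 0x670b00034027000070080054004000c0008e60682)))) 
(.nd (nat_lit 8) (.nd (nat_lit 7) 
(.lf (nat_lit 1344612941) (dlOf (nat_lit 1) (nat_lit 0x200288c5281))) 
(.lf (nat_lit 3490000077) (dlOf (nat_lit 1) (nat_lit 0xf000800b0002003a0008006403)))) 
(.nd (nat_lit 4) 
(.lf (nat_lit 3490003789) (dlOf (nat_lit 3) (nat_lit 0x417000adc02001c0b80056d01800bc80))) 
(.lf (nat_lit 3489999197) (dlOf (nat_lit 1) (nat_lit 0xe0008005800200800008004e83))))))) 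
(.nd (nat_lit 32) (.nd (nat_lit 4) (.nd (nat_lit 11) (.nd (nat_lit 19) 
(.lf (nat_lit 2617581581) (dlOf (nat_lit 11) (nat_lit 0x300240004a0201e802f000218100c1017803b00a403080240004206026002f01dc0090001041000400bc0007e04002005e0003d02042002e000a00900a80044000760c00440240001602018402f00a60090000441000400bc00100240000004006a0028100101))) 
(.lf (nat_lit 470622221) (dlOf (nat_lit 1) (nat_lit 0x80018140081)))) (.nd (nat_lit 6) 
(.lf (nat_lit 3624217997) (dlOf (nat_lit 5) (nat_lit 0x400800140036001000000006c18016011400d80800142036004100000002c200238114013008000b2000000050300010228000240800e8008014800200020008146c83))) 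
(.lf (nat_lit 472721997) (dlOf (nat_lit 1) (nat_lit 0x20018a45281))))) (.nd (nat_lit 22) 
(.lf (nat_lit 1006968861) (dlOf (nat_lit 1) (nat_lit 0x120018110b01))) 
(.lf (nat_lit 474292253) (dlOf (nat_lit 1) (nat_lit 0xac00400180009120082))))) (.nd (nat_lit 6) 
(.nd (nat_lit 29) (.nd (nat_lit 4) (.nd (nat_lit 10) 
(.lf (nat_lit 4697956365) (dlOf (nat_lit 3) (nat_lit 0x802a0004012003a20200030080010280800180080010002003000080d0003))) 
(.lf (nat_lit 5771701261) (dlOf (nat_lit 2) (nat_lit 0x1029e000240200020018005f81)))) 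
(.lf (nat_lit 4697956381) (dlOf (nat_lit 1) (nat_lit 0x5c004001200080d0082)))) (.nd (nat_lit 7) 
(.lf (nat_lit 5234827277) (dlOf (nat_lit 1) (nat_lit 0x14800801d8002001a00080f0003))) 
(.lf (nat_lit 5234827661) (dlOf (nat_lit 1) (nat_lit 0x2380080278002002e00080f5d83))))) 
(.nd (nat_lit 19) (.nd (nat_lit 7) 
(.lf (nat_lit 4697956429) (dlOf (nat_lit 2) (nat_lit 0x10088000e00801700080164002005800080d0503))) 
(.lf (nat_lit 5234827469) (dlOf (nat_lit 1) (nat_lit 0x310008014c002003c00080f1803)))) 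
(.nd (nat_lit 4) (.lf (nat_lit 5773271245) (dlOf (nat_lit 1) (nat_lit 0x4002000200080c1802))) 
(.lf (nat_lit 5773271261) (dlOf (nat_lit 1) (nat_lit 0x18004001200180c1a02)))))))))) 
(.nd (nat_lit 28) (.nd (nat_lit 19) (.nd (nat_lit 6) (.nd (nat_lit 18) (.nd (nat_lit 4) 
(.nd (nat_lit 21) (.nd (nat_lit 20) (.nd (nat_lit 10) 
(.lf (nat_lit 3221299245) (dlOf (nat_lit 1) (nat_lit 0x400200060008090002))) 
(.lf (nat_lit 3288411181) (dlOf (nat_lit 1) (nat_lit 0x980080140002004e0008006083)))) 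
(.nd (nat_lit 8) (.lf (nat_lit 30482477) (dlOf (nat_lit 1) (nat_lit 0x8008000400200020008e30003))) 
(.lf (nat_lit 59842861) (dlOf (nat_lit 1) (nat_lit 0x28008001800200080009840b03))))) 
(.nd (nat_lit 9) (.nd (nat_lit 22) 
(.lf (nat_lit 27336749) (dlOf (nat_lit 1) (nat_lit 0x60028cd0801))) 
(.lf (nat_lit 23142445) (dlOf (nat_lit 3) (nat_lit 0xf80000005004001156c0001002002c0008b60901)))) 
(.nd (nat_lit 10) (.lf (nat_lit 35727917) (dlOf (nat_lit 1) (nat_lit 0x20019015181))) 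
(.lf (nat_lit 2754686509) (dlOf (nat_lit 3) (nat_lit 0x78074000a804002c0400004e02000600180f7181)))))) 
(.nd (nat_lit 8) (.nd (nat_lit 7) 
(.lf (nat_lit 13705277) (dlOf (nat_lit 1) (nat_lit 0x8008001c00200040008740d83))) 
(.lf (nat_lit 134294717) (dlOf (nat_lit 1) (nat_lit 0x20028006301)))) (.nd (nat_lit 9) 
(.lf (nat_lit 201406781) (dlOf (nat_lit 1) (nat_lit 0x4001800ab81))) (.nd (nat_lit 12) 
(.lf (nat_lit 2751539005) (dlOf (nat_lit 1) (nat_lit 0x120008003e01))) 
(.lf (nat_lit 604059453) (dlOf (nat_lit 2) (nat_lit 0xc07e000403c001b01c80010818017000800680020002000800a103))))))) 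
(.nd (nat_lit 9) (.nd (nat_lit 20) (.nd (nat_lit 4) (.nd (nat_lit 26) 
(.lf (nat_lit 134553645) (dlOf (nat_lit 4) (nat_lit 0xc8042000402080108044000500c013c08400480110000f0200270088000600800100080094002003a0008070903))) 
(.lf (nat_lit 201662509) (dlOf (nat_lit 17) (nat_lit 0x5b204200bb02080e080f805e4072015e03102410088000a03014f810806f007c000203d015f01c805580c40aa4022000270c001c041000120100e002080ab0044000460800040aa000a04b030a021800a81080ec4082001004002ab01f816980f40b84074005e03901a801c002000d40b5c02805900130068009015f80440004440015c082000210200260410001001006a021000b80440003a080b380220001c0204dc0110000d8100e10088000680808b0044000320409d8022000180203fa0110000b8100a400b0000180800b80580000a040004004002e0018070802)))) 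
(.lf (nat_lit 3355779133) (dlOf (nat_lit 3) (nat_lit 0x1100d0019805e00006040004034005701780001410155000802a800200740008110e03)))) 
(.nd (nat_lit 7) 
(.lf (nat_lit 62201901) (dlOf (nat_lit 8) (nat_lit 0x752c8000a93c000360800054b6002ca51000451e000128a8000321000494b6002aa51000c51e000128a8000301000254b60016a59000952780002c18003a96c000140400214b20002a3a0000482000252c8004a93c00010080078004000a0019970c82))) 
(.lf (nat_lit 2754947501) (dlOf (nat_lit 1) (nat_lit 0x200180f4e81))))) (.nd (nat_lit 10) 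
(.nd (nat_lit 11) 
(.lf (nat_lit 6442787373) (dlOf (nat_lit 4) (nat_lit 0x101c000c80bc000804a00020180001e0400060178000e80800300bc0006e040008004003400081b0e82))) 
(.lf (nat_lit 53815853) (dlOf (nat_lit 1) (nat_lit 0x200095f5181)))) (.nd (nat_lit 7) 
(.nd (nat_lit 20) (.lf (nat_lit 4429524525) (dlOf (nat_lit 1) (nat_lit 0x60008117181))) 
(.lf (nat_lit 2754948653) (dlOf (nat_lit 3) (nat_lit 0x1401d0002a01000a00e80014408027000800e4002001000080f7183)))) 
(.lf (nat_lit 20264621) (dlOf (nat_lit 1) (nat_lit 0x4002000200089da002))))))) (.nd (nat_lit 8) 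
(.nd (nat_lit 21) (.nd (nat_lit 4) 
(.lf (nat_lit 1208033389) (dlOf (nat_lit 1) (nat_lit 0x4c004001a0008090182))) (.nd (nat_lit 9) 
(.nd (nat_lit 10) (.nd (nat_lit 18) 
(.lf (nat_lit 1208033405) (dlOf (nat_lit 1) (nat_lit 0xa000400120008090282))) 
(.lf (nat_lit 1074077821) (dlOf (nat_lit 1) (nat_lit 0x40028090081)))) 
(.lf (nat_lit 6039876733) (dlOf (nat_lit 1) (nat_lit 0x1a0018009501)))) 
(.lf (nat_lit 3355517565) (dlOf (nat_lit 1) (nat_lit 0x400280a1901))))) (.nd (nat_lit 18) 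
(.nd (nat_lit 9) (.lf (nat_lit 18948221) (dlOf (nat_lit 1) (nat_lit 0x400200020008970482))) 
(.lf (nat_lit 20002429) (dlOf (nat_lit 1) (nat_lit 0x24002004e00089d9d82)))) (.nd (nat_lit 7) 
(.lf (nat_lit 19210365) (dlOf (nat_lit 1) (nat_lit 0x8008000400200020008970483))) 
(.lf (nat_lit 23404797) (dlOf (nat_lit 1) (nat_lit 0x1c00400260008b80482)))))) (.nd (nat_lit 4) 
(.nd (nat_lit 9) (.nd (nat_lit 7) 
(.lf (nat_lit 738533741) (dlOf (nat_lit 1) (nat_lit 0xa80080064002003200080a7603))) 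
(.nd (nat_lit 11) 
(.lf (nat_lit 21307885) (dlOf (nat_lit 1) (nat_lit 0x1f800801d800200040008a37383))) 
(.lf (nat_lit 3758172653) (dlOf (nat_lit 1) (nat_lit 0x2400180d4f01))))) (.nd (nat_lit 18) 
(.nd (nat_lit 27) 
(.lf (nat_lit 4362150893) (dlOf (nat_lit 1) (nat_lit 0x30008001000200060008002883))) 
(.lf (nat_lit 201401325) (dlOf (nat_lit 1) (nat_lit 0x60018002881)))) 
(.lf (nat_lit 38085613) (dlOf (nat_lit 1) (nat_lit 0xe0009132881))))) (.nd (nat_lit 10) 
(.nd (nat_lit 7) (.lf (nat_lit 3355521917) (dlOf (nat_lit 1) (nat_lit 0x200280a9001))) 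
(.lf (nat_lit 38085629) (dlOf (nat_lit 1) (nat_lit 0x4002002c0009132882)))) (.nd (nat_lit 9) 
(.lf (nat_lit 52766077) (dlOf (nat_lit 1) (nat_lit 0x800801b000200640009573583))) (.nd (nat_lit 12) 
(.lf (nat_lit 536946557) (dlOf (nat_lit 1) (nat_lit 0xd00080004002000c0008004103))) 
(.lf (nat_lit 8468349) (dlOf (nat_lit 1) (nat_lit 0x80020002000851a302))))))))) (.nd (nat_lit 21) 
(.nd (nat_lit 29) (.nd (nat_lit 4) (.nd (nat_lit 18) (.nd (nat_lit 6) (.nd (nat_lit 23) 
(.lf (nat_lit 4362674221) (dlOf (nat_lit 1) (nat_lit 0x80080028002001000080d0f03))) 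
(.lf (nat_lit 42541101) (dlOf (nat_lit 1) (nat_lit 0x73800201160009260282)))) 
(.lf (nat_lit 67707117) (dlOf (nat_lit 1) (nat_lit 0xc00282d0601)))) (.nd (nat_lit 20) 
(.nd (nat_lit 23) (.lf (nat_lit 5054509) (dlOf (nat_lit 1) (nat_lit 0xa0028300681))) 
(.lf (nat_lit 30220333) (dlOf (nat_lit 1) (nat_lit 0x400200020008e30002)))) 
(.lf (nat_lit 27074605) (dlOf (nat_lit 8) (nat_lit 0x111c8e80716208018ab5a000d4690002f840099c8e802d620802f2b5a01994690002e84000ec8e8005e208000b208021723a004d8820002c0200f3d448002e6e8047f23a016391c00afc8d8033646803c31f000058f40075c7980736208001b100024f5ad0111ad6009ad6ac04ba8d203654680057a328035d17402aa54e003f00300aa7b4802fbc30000a858024b512007791b0038c8d00056200029eb58029d46800022860018c8e8000c4080610008056c00201980008ca0683))))) 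
(.nd (nat_lit 6) (.nd (nat_lit 18) 
(.lf (nat_lit 42541117) (dlOf (nat_lit 1) (nat_lit 0x300029260601))) 
(.lf (nat_lit 22880317) (dlOf (nat_lit 3) (nat_lit 0x1582000018080022c100000a04009400400020008b30e02)))) 
(.nd (nat_lit 20) (.lf (nat_lit 8988285) (dlOf (nat_lit 1) (nat_lit 0x20028513981))) 
(.lf (nat_lit 43591293) (dlOf (nat_lit 2) (nat_lit 0x22bb60002d02002000192a3981)))))) 
(.nd (nat_lit 26) (.nd (nat_lit 27) (.nd (nat_lit 6) 
(.lf (nat_lit 1611210797) (dlOf (nat_lit 4) (nat_lit 0x80190001180800c00c80008a04001c064000430200020018110501))) 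
(.lf (nat_lit 537469037) (dlOf (nat_lit 1) (nat_lit 0x4400080a1501)))) (.nd (nat_lit 18) 
(.lf (nat_lit 3892912173) (dlOf (nat_lit 4) (nat_lit 0x1408e000510200020510000281000102a00020144000c09e000c02400020110000002800d80080028002001c0008290e03))) 
(.lf (nat_lit 2819432493) (dlOf (nat_lit 2) (nat_lit 0x220340023d818280700))))) (.nd (nat_lit 20) 
(.nd (nat_lit 22) 
(.lf (nat_lit 738795565) (dlOf (nat_lit 4) (nat_lit 0x80190001240800c00c80009004001c064000460200020018110501))) 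
(.lf (nat_lit 2756255789) (dlOf (nat_lit 2) (nat_lit 0xc80000005004004400200160008230602)))) 
(.nd (nat_lit 4) (.lf (nat_lit 2753110189) (dlOf (nat_lit 1) (nat_lit 0x40028090301))) 
(.lf (nat_lit 2753110141) (dlOf (nat_lit 5) (nat_lit 0x3c10e00211020034087001078100040ab0008080801a021c002a404003000400040018090082))))))) 
(.nd (nat_lit 7) (.nd (nat_lit 4) (.nd (nat_lit 20) (.nd (nat_lit 22) (.nd (nat_lit 23) 
(.lf (nat_lit 2957357) (dlOf (nat_lit 3) (nat_lit 0x206c800201c400500ca000406300050060000a828041800000020040014002003400081e0902))) 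
(.lf (nat_lit 11345965) (dlOf (nat_lit 1) (nat_lit 0xa0008690681)))) 
(.lf (nat_lit 7151661) (dlOf (nat_lit 1) (nat_lit 0x4002000200084b0002)))) (.nd (nat_lit 6) 
(.lf (nat_lit 4005933) (dlOf (nat_lit 1) (nat_lit 0x3000400020008260d82))) 
(.lf (nat_lit 45686893) (dlOf (nat_lit 1) (nat_lit 0x1d8008016c002009e0009352483))))) 
(.nd (nat_lit 6) (.nd (nat_lit 8) 
(.lf (nat_lit 11345981) (dlOf (nat_lit 12) (nat_lit 0x3cf9e0001602001e7cf0000a8100114a800099f3c000240800312a0001c7cf0000702000c4a800039f3c0001a08003d2a0001c7cf000060200033e780002c08003a5400038f9e001c7cb000030300093e7800014080079f3c0014eae00004040018950000f3e780029d5c000000c006800400020018690e02))) 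
(.lf (nat_lit 7943485) (dlOf (nat_lit 1) (nat_lit 0x400200020008519902)))) (.nd (nat_lit 8) 
(.nd (nat_lit 9) (.lf (nat_lit 23666813) (dlOf (nat_lit 2) (nat_lit 0x3ecbf000fd018b80080))) 
(.lf (nat_lit 61679229) (dlOf (nat_lit 2) (nat_lit 0x219400016819923980)))) 
(.lf (nat_lit 61416829) (dlOf (nat_lit 1) (nat_lit 0x800400020009923582)))))) (.nd (nat_lit 4) 
(.nd (nat_lit 11) (.nd (nat_lit 12) 
(.lf (nat_lit 32318637) (dlOf (nat_lit 1) (nat_lit 0x400200040008ef2c02))) 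
(.lf (nat_lit 20526253) (dlOf (nat_lit 2) (nat_lit 0x34510033c8189d9500)))) (.nd (nat_lit 6) 
(.lf (nat_lit 20524717) (dlOf (nat_lit 1) (nat_lit 0x4004000400189d7282))) 
(.lf (nat_lit 33106413) (dlOf (nat_lit 1) (nat_lit 0x60028f54f01))))) (.nd (nat_lit 6) 
(.nd (nat_lit 9) (.lf (nat_lit 7940285) (dlOf (nat_lit 1) (nat_lit 0x40018514901))) 
(.nd (nat_lit 12) (.lf (nat_lit 7938749) (dlOf (nat_lit 1) (nat_lit 0x8008000400200020008511e83))) 
(.lf (nat_lit 8204989) (dlOf (nat_lit 1) (nat_lit 0x400200020008518c82))))) (.nd (nat_lit 9) 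
(.nd (nat_lit 10) (.lf (nat_lit 33368573) (dlOf (nat_lit 1) (nat_lit 0x60018f54f81))) 
(.lf (nat_lit 20526589) (dlOf (nat_lit 1) (nat_lit 0x1000089d9c01)))) 
(.lf (nat_lit 49882109) (dlOf (nat_lit 1) (nat_lit 0x800294c2881))))))))) (.nd (nat_lit 26) 
(.nd (nat_lit 4) (.nd (nat_lit 27) (.nd (nat_lit 19) (.nd (nat_lit 30) (.nd (nat_lit 6) 
(.nd (nat_lit 18) (.lf (nat_lit 805380141) (dlOf (nat_lit 2) (nat_lit 0x805400393818090000))) 
(.lf (nat_lit 4563738669) (dlOf (nat_lit 1) (nat_lit 0x8004000a00080d0382)))) 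
(.lf (nat_lit 4563479405) (dlOf (nat_lit 1) (nat_lit 0x40028095c01)))) (.nd (nat_lit 18) 
(.nd (nat_lit 20) (.lf (nat_lit 1881219117) (dlOf (nat_lit 1) (nat_lit 0x80008e60281))) 
(.lf (nat_lit 1343299629) (dlOf (nat_lit 3) (nat_lit 0x12616300be0aa802f050805c825e02020bc00ee04a805d8208000a81c010c2c600e215500630a1008c04bc02a0178013e095006b0410001143800d80080004002000200081e0683)))) 
(.lf (nat_lit 1342513197) (dlOf (nat_lit 1) (nat_lit 0x98002004a0008040682))))) (.nd (nat_lit 18) 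
(.nd (nat_lit 7) (.nd (nat_lit 9) 
(.lf (nat_lit 3494453293) (dlOf (nat_lit 2) (nat_lit 0xc80000005c04004400200160008230602))) 
(.lf (nat_lit 1342775853) (dlOf (nat_lit 2) (nat_lit 0xc22b0001e0180c0e80)))) 
(.lf (nat_lit 3491307693) (dlOf (nat_lit 1) (nat_lit 0x40028090301)))) (.nd (nat_lit 20) 
(.lf (nat_lit 1343037485) (dlOf (nat_lit 1) (nat_lit 0xe0008140601))) 
(.lf (nat_lit 1346183213) (dlOf (nat_lit 5) (nat_lit 0xb415800030ab0038033c003c12c0010083000301080002c3003c0560005428a000c13d0079067800a82c80054154002a0a2001104b000d020c00540e6000e021001500e00030068000143401c02b0002a145001409e8038033c0001010005840a002e1ae00080af8039056000582aa002c145000e0a1000a84f4002027000e40cf001606300060258000003003d800405900008e60282)))))) 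
(.nd (nat_lit 9) (.nd (nat_lit 6) (.nd (nat_lit 7) (.nd (nat_lit 31) 
(.lf (nat_lit 4697956397) (dlOf (nat_lit 1) (nat_lit 0x8004000a00080d0382))) 
(.lf (nat_lit 2550472749) (dlOf (nat_lit 1) (nat_lit 0x4c002000200080c0d82)))) 
(.lf (nat_lit 5773271213) (dlOf (nat_lit 1) (nat_lit 0x18004001200180c1582)))) (.nd (nat_lit 7) 
(.lf (nat_lit 3624217965) (dlOf (nat_lit 1) (nat_lit 0x280080024002000c0008146b03))) 
(.lf (nat_lit 4697695469) (dlOf (nat_lit 1) (nat_lit 0x7800200420008092e82))))) (.nd (nat_lit 7) 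
(.nd (nat_lit 8) (.nd (nat_lit 11) 
(.lf (nat_lit 5774058029) (dlOf (nat_lit 1) (nat_lit 0x800180f8a81))) 
(.lf (nat_lit 5771438637) (dlOf (nat_lit 1) (nat_lit 0x570008033400202f60008005183)))) 
(.lf (nat_lit 2013342509) (dlOf (nat_lit 2) (nat_lit 0x80140037a04000800400020018005c02)))) 
(.nd (nat_lit 8) (.lf (nat_lit 5234567853) (dlOf (nat_lit 1) (nat_lit 0x24004000e0008055682))) 
(.lf (nat_lit 5234568109) (dlOf (nat_lit 3) (nat_lit 0x602e0001b01000a017000000080048008000c00200040008055d03))))))) 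
(.nd (nat_lit 6) (.nd (nat_lit 8) (.nd (nat_lit 7) (.nd (nat_lit 19) 
(.lf (nat_lit 2550472765) (dlOf (nat_lit 1) (nat_lit 0x8004000200080c1402))) 
(.lf (nat_lit 1346183229) (dlOf (nat_lit 2) (nat_lit 0xc1b2002470200060008e60601)))) 
(.nd (nat_lit 9) (.lf (nat_lit 5773271229) (dlOf (nat_lit 1) (nat_lit 0x4002000200080c1702))) 
(.lf (nat_lit 1342254781) (dlOf (nat_lit 2) (nat_lit 0x3438a0000e0200060018007281))))) 
(.nd (nat_lit 9) (.nd (nat_lit 7) 
(.lf (nat_lit 3624217917) (dlOf (nat_lit 1) (nat_lit 0x10008001000200020008146903))) 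
(.lf (nat_lit 1342775741) (dlOf (nat_lit 1) (nat_lit 0x84004001200080c0882)))) (.nd (nat_lit 12) 
(.lf (nat_lit 2415994685) (dlOf (nat_lit 1) (nat_lit 0x8008002800200160008003e03))) 
(.nd (nat_lit 27) 
(.lf (nat_lit 2952869693) (dlOf (nat_lit 17) (nat_lit 0xec028000e0060002e82003d00a00090018000b808001004e0005502001c0270002a01001301380014c0800c8050006800c0005104002e01400170030001401000500000009c040010028000e0060002602000600a0002801800096080020028000e0060002502000500a0003001800090080020028000800a00030000001141801e8050003000c0004204001800a0001c81000900500001c08010000800340020078000800a103))) 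
(.lf (nat_lit 1476474685) (dlOf (nat_lit 7) (nat_lit 0x280f00068072000a036000340300050000001080800280d000140000002304001203400130000000781000180000003804003c07e0000002001c001800a101))))))) 
(.nd (nat_lit 8) (.nd (nat_lit 27) (.nd (nat_lit 19) 
(.lf (nat_lit 4563476605) (dlOf (nat_lit 2) (nat_lit 0x980000000004000800200440008090282))) 
(.lf (nat_lit 3491307645) (dlOf (nat_lit 5) (nat_lit 0x3c114001fc02003408a000fd0100040a88007800801a0228002b804003000400040018090082)))) 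
(.nd (nat_lit 7) (.nd (nat_lit 9) 
(.lf (nat_lit 5234827389) (dlOf (nat_lit 1) (nat_lit 0x200280f0d01))) 
(.lf (nat_lit 5234567805) (dlOf (nat_lit 1) (nat_lit 0x360008001c002006e0008055403)))) 
(.lf (nat_lit 4697695485) (dlOf (nat_lit 3) (nat_lit 0x300000001c0800280000000004003400200360008092f02))))) 
(.nd (nat_lit 11) (.nd (nat_lit 27) 
(.lf (nat_lit 5100348797) (dlOf (nat_lit 1) (nat_lit 0x60018053581))) 
(.lf (nat_lit 4697695613) (dlOf (nat_lit 1) (nat_lit 0x40018093581)))) (.nd (nat_lit 7) 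
(.lf (nat_lit 1880172925) (dlOf (nat_lit 1) (nat_lit 0x38004000200087a4e82))) 
(.lf (nat_lit 1342255101) (dlOf (nat_lit 1) (nat_lit 0x8008000c00200060008007a83)))))))) 
(.nd (nat_lit 7) (.nd (nat_lit 30) (.nd (nat_lit 18) (.nd (nat_lit 4) (.nd (nat_lit 9) 
(.lf (nat_lit 471408685) (dlOf (nat_lit 1) (nat_lit 0x400182f0e01))) 
(.lf (nat_lit 470360621) (dlOf (nat_lit 2) (nat_lit 0xc22b0001e0180c0e80)))) (.nd (nat_lit 6) 
(.nd (nat_lit 8) (.lf (nat_lit 2617319485) (dlOf (nat_lit 1) (nat_lit 0x800280a0001))) 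
(.lf (nat_lit 474030397) (dlOf (nat_lit 11) (nat_lit 0x280180007e04001c00c0003d02000e0060001a8100060030000d00800280180005404000800c0002002000a0060000f0100060030000300800300180001204001800c0000002000c0019000b81)))) 
(.lf (nat_lit 1009329789) (dlOf (nat_lit 2) (nat_lit 0x8207a802c817c0005a080004004000400090e3982))))) 
(.nd (nat_lit 19) (.nd (nat_lit 31) 
(.lf (nat_lit 470097965) (dlOf (nat_lit 1) (nat_lit 0x98002004a0008040682))) 
(.lf (nat_lit 2617581613) (dlOf (nat_lit 2) (nat_lit 0x10016006d2c0802080080060002003e0008100783)))) 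
(.nd (nat_lit 9) (.lf (nat_lit 470622253) (dlOf (nat_lit 1) (nat_lit 0xe0008140601))) 
(.lf (nat_lit 473770541) (dlOf (nat_lit 2) (nat_lit 0x203340011604000400200020008fa5182)))))) 
(.nd (nat_lit 4) (.nd (nat_lit 9) (.nd (nat_lit 6) 
(.lf (nat_lit 4228456493) (dlOf (nat_lit 1) (nat_lit 0x80080028002001000080d0f03))) 
(.lf (nat_lit 1409884269) (dlOf (nat_lit 1) (nat_lit 0x4400080a1501)))) (.nd (nat_lit 10) 
(.lf (nat_lit 5838807597) (dlOf (nat_lit 4) (nat_lit 0x101c000c80bc000804a00020180001e0400060178000e80800300bc0006e040008004003400081b0e82))) 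
(.lf (nat_lit 6375417389) (dlOf (nat_lit 1) (nat_lit 0xc00400020018003782))))) (.nd (nat_lit 6) 
(.nd (nat_lit 8) (.lf (nat_lit 6375417405) (dlOf (nat_lit 2) (nat_lit 0x813400000018003780))) 
(.lf (nat_lit 3691067197) (dlOf (nat_lit 4) (nat_lit 0x500a8001a80800280280007204001001400038020006000800a101)))) 
(.nd (nat_lit 8) (.lf (nat_lit 1946493053) (dlOf (nat_lit 1) (nat_lit 0x40028090081))) 
(.lf (nat_lit 1409363325) (dlOf (nat_lit 2) (nat_lit 0x40570001b818006c00))))))) (.nd (nat_lit 6) 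
(.nd (nat_lit 4) (.nd (nat_lit 8) (.nd (nat_lit 9) 
(.lf (nat_lit 6377250989) (dlOf (nat_lit 1) (nat_lit 0x18004001200180c1582))) 
(.lf (nat_lit 4227935917) (dlOf (nat_lit 1) (nat_lit 0x580080010002000a0008007283)))) 
(.nd (nat_lit 9) (.lf (nat_lit 1543581101) (dlOf (nat_lit 1) (nat_lit 0x240028146d01))) 
(.lf (nat_lit 5704330157) (dlOf (nat_lit 4) (nat_lit 0x1a8064005c0140001104002000a0000101000e0050000000801c0008004800200120008055d03))))) 
(.nd (nat_lit 8) (.nd (nat_lit 9) 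
(.lf (nat_lit 2080448701) (dlOf (nat_lit 1) (nat_lit 0x10008001800200040008090703))) 
(.lf (nat_lit 6376467133) (dlOf (nat_lit 1) (nat_lit 0x400200020008095782)))) (.nd (nat_lit 9) 
(.lf (nat_lit 470360509) (dlOf (nat_lit 1) (nat_lit 0x84004001200080c0882))) 
(.lf (nat_lit 5704330173) (dlOf (nat_lit 2) (nat_lit 0x100280000004000400200040008055d02)))))) 
(.nd (nat_lit 8) (.nd (nat_lit 4) (.nd (nat_lit 9) 
(.lf (nat_lit 3154714861) (dlOf (nat_lit 1) (nat_lit 0x400400020008310602))) 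
(.lf (nat_lit 469837549) (dlOf (nat_lit 1) (nat_lit 0x20008003b01)))) (.nd (nat_lit 11) 
(.lf (nat_lit 2080449789) (dlOf (nat_lit 1) (nat_lit 0x8008002c00200200008092f03))) 
(.lf (nat_lit 1409363197) (dlOf (nat_lit 1) (nat_lit 0x8008000400200020008006603))))) 
(.nd (nat_lit 9) (.nd (nat_lit 10) (.nd (nat_lit 11) 
(.lf (nat_lit 2080449005) (dlOf (nat_lit 2) (nat_lit 0x10128000000800f8008000400200440008091383))) 
(.lf (nat_lit 3154192877) (dlOf (nat_lit 1) (nat_lit 0x80018104f01)))) 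
(.lf (nat_lit 1543581165) (dlOf (nat_lit 1) (nat_lit 0x120028146f01)))) (.nd (nat_lit 4) 
(.lf (nat_lit 3019973613) (dlOf (nat_lit 1) (nat_lit 0xc00180d2881))) 
(.lf (nat_lit 6375678973) (dlOf (nat_lit 1) (nat_lit 0x900018002881))))))))))) (.nd (nat_lit 5) 
(.nd (nat_lit 18) (.nd (nat_lit 6) (.nd (nat_lit 4) (.nd (nat_lit 19) (.nd (nat_lit 27) 
(.nd (nat_lit 23) (.nd (nat_lit 7) (.nd (nat_lit 10) 
(.lf (nat_lit 5435924493) (dlOf (nat_lit 1) (nat_lit 0x34000200cc0008030002))) 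
(.lf (nat_lit 5637254157) (dlOf (nat_lit 1) (nat_lit 0xbc004008e0018055f82)))) 
(.lf (nat_lit 872522125) (dlOf (nat_lit 1) (nat_lit 0x8008000800200020008091003)))) 
(.nd (nat_lit 8) (.nd (nat_lit 20) 
(.lf (nat_lit 44146701) (dlOf (nat_lit 1) (nat_lit 0x800292d0001))) 
(.lf (nat_lit 47292429) (dlOf (nat_lit 1) (nat_lit 0x3c004000600093c0002)))) 
(.lf (nat_lit 8500493) (dlOf (nat_lit 1) (nat_lit 0x800400020008519682))))) (.nd (nat_lit 7) 
(.nd (nat_lit 28) (.nd (nat_lit 29) 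
(.lf (nat_lit 2348916749) (dlOf (nat_lit 2) (nat_lit 0x6400e00000018020480))) 
(.lf (nat_lit 2885787661) (dlOf (nat_lit 2) (nat_lit 0xb00e0009801000180080004004000a0008070182)))) 
(.nd (nat_lit 26) 
(.lf (nat_lit 3623985165) (dlOf (nat_lit 2) (nat_lit 0xb00e8009801000164080004004000a0008070182))) 
(.lf (nat_lit 5301706765) (dlOf (nat_lit 1) (nat_lit 0x34000200cc0008030002))))) (.nd (nat_lit 8) 
(.lf (nat_lit 3355555469) (dlOf (nat_lit 1) (nat_lit 0x2000280a9e01))) (.nd (nat_lit 11) 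
(.lf (nat_lit 4697728397) (dlOf (nat_lit 1) (nat_lit 0x400400020008093602))) 
(.lf (nat_lit 134327693) (dlOf (nat_lit 1) (nat_lit 0x300018006c81))))))) (.nd (nat_lit 28) 
(.nd (nat_lit 10) (.nd (nat_lit 7) (.nd (nat_lit 21) 
(.lf (nat_lit 21602317) (dlOf (nat_lit 1) (nat_lit 0x8008000400200020008a50083))) 
(.lf (nat_lit 11116557) (dlOf (nat_lit 2) (nat_lit 0x1ea50c0007604000400200020008660102)))) 
(.lf (nat_lit 23699597) (dlOf (nat_lit 1) (nat_lit 0xc00200060008b80102)))) (.nd (nat_lit 9) 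
(.lf (nat_lit 20556813) (dlOf (nat_lit 2) (nat_lit 0x4000000000040008002002000089d5f82))) 
(.lf (nat_lit 20557325) (dlOf (nat_lit 2) (nat_lit 0x1e81800052040003204000200089d7081))))) 
(.nd (nat_lit 21) (.nd (nat_lit 20) (.nd (nat_lit 26) 
(.lf (nat_lit 5771993101) (dlOf (nat_lit 4) (nat_lit 0x280a00382c0400b405001c0302000802800df1818030000))) 
(.lf (nat_lit 6375972877) (dlOf (nat_lit 4) (nat_lit 0x280a0031660400b40500189b02000802800c3c818030000)))) 
(.lf (nat_lit 471441421) (dlOf (nat_lit 1) (nat_lit 0x400400020018300582)))) (.nd (nat_lit 26) 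
(.lf (nat_lit 1881776141) (dlOf (nat_lit 1) (nat_lit 0xc0029010181))) 
(.lf (nat_lit 4096368653) (dlOf (nat_lit 1) (nat_lit 0x400200020008100002))))))) (.nd (nat_lit 7) 
(.nd (nat_lit 19) (.nd (nat_lit 23) (.nd (nat_lit 8) (.nd (nat_lit 27) 
(.lf (nat_lit 2483134493) (dlOf (nat_lit 3) (nat_lit 0x1b015001300a000c740800dc054001a028002c9028020480))) 
(.lf (nat_lit 2348916765) (dlOf (nat_lit 3) (nat_lit 0x1b015001300a0017a00800dc054001a02800593828020480)))) 
(.nd (nat_lit 26) 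
(.lf (nat_lit 1744937245) (dlOf (nat_lit 1) (nat_lit 0x18008001000200040008090a83))) 
(.lf (nat_lit 738304285) (dlOf (nat_lit 1) (nat_lit 0x800200020008090a82))))) (.nd (nat_lit 20) 
(.nd (nat_lit 24) (.lf (nat_lit 10592285) (dlOf (nat_lit 1) (nat_lit 0xa0018600301))) 
(.lf (nat_lit 27369501) (dlOf (nat_lit 1) (nat_lit 0x60018cd0681)))) 
(.lf (nat_lit 13738013) (dlOf (nat_lit 2) (nat_lit 0x120511000d1818740480))))) (.nd (nat_lit 21) 
(.nd (nat_lit 9) (.nd (nat_lit 22) 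
(.lf (nat_lit 1879679005) (dlOf (nat_lit 1) (nat_lit 0x200182c0681))) 
(.lf (nat_lit 55156765) (dlOf (nat_lit 1) (nat_lit 0xc002000400096c0302)))) 
(.lf (nat_lit 50962973) (dlOf (nat_lit 1) (nat_lit 0xf00080048002005000094d8703)))) 
(.nd (nat_lit 20) (.lf (nat_lit 1881776157) (dlOf (nat_lit 1) (nat_lit 0x2a0009010601))) 
(.lf (nat_lit 45719581) (dlOf (nat_lit 1) (nat_lit 0x4004000c0009360102)))))) (.nd (nat_lit 11) 
(.nd (nat_lit 28) (.nd (nat_lit 12) (.nd (nat_lit 20) 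
(.lf (nat_lit 35759261) (dlOf (nat_lit 1) (nat_lit 0x1800200040009012b82))) 
(.lf (nat_lit 36807837) (dlOf (nat_lit 1) (nat_lit 0x40019072b81)))) 
(.lf (nat_lit 20559005) (dlOf (nat_lit 1) (nat_lit 0x200189d9501)))) (.nd (nat_lit 8) 
(.lf (nat_lit 4095845533) (dlOf (nat_lit 1) (nat_lit 0x100080008002000400080e2b83))) 
(.nd (nat_lit 9) (.lf (nat_lit 6375450013) (dlOf (nat_lit 1) (nat_lit 0x20028003601))) 
(.lf (nat_lit 939632541) (dlOf (nat_lit 1) (nat_lit 0x38008000400200020008144283)))))) 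
(.nd (nat_lit 9) (.nd (nat_lit 26) (.nd (nat_lit 10) 
(.lf (nat_lit 4563511709) (dlOf (nat_lit 1) (nat_lit 0x300028094e81))) 
(.lf (nat_lit 6576778653) (dlOf (nat_lit 1) (nat_lit 0xa0018146d01)))) (.nd (nat_lit 20) 
(.lf (nat_lit 5838580125) (dlOf (nat_lit 1) (nat_lit 0x4004000200080f4e82))) 
(.lf (nat_lit 6376499613) (dlOf (nat_lit 1) (nat_lit 0x400400020008094e82))))) (.nd (nat_lit 27) 
(.lf (nat_lit 5637254045) (dlOf (nat_lit 2) (nat_lit 0x4004000380200020028055c81))) 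
(.lf (nat_lit 5771471773) (dlOf (nat_lit 1) (nat_lit 0x6c0018005c81)))))))) (.nd (nat_lit 8) 
(.nd (nat_lit 19) (.nd (nat_lit 7) (.nd (nat_lit 20) (.nd (nat_lit 24) (.nd (nat_lit 27) 
(.lf (nat_lit 4630618189) (dlOf (nat_lit 1) (nat_lit 0x20028020601))) 
(.lf (nat_lit 4764835917) (dlOf (nat_lit 1) (nat_lit 0x20028020601)))) (.nd (nat_lit 23) 
(.lf (nat_lit 16883789) (dlOf (nat_lit 1) (nat_lit 0x4002000400088e0182))) 
(.lf (nat_lit 25272397) (dlOf (nat_lit 16) (nat_lit 0x5313c8001680802709e4000b204040800000052020186000000288100d60000001400806780000009e04001c6a2009e27900900000001341800e09e400600000004c0401442790002481004f13c8001200808880000008c0403a0000000450201a40000002201004e13c80010c0803a89e40000004012400200180008bf0d02))))) 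
(.nd (nat_lit 12) (.nd (nat_lit 21) 
(.lf (nat_lit 2752618573) (dlOf (nat_lit 6) (nat_lit 0x160d40050901000a0500027cc080050280013e4040028140009f002001809e00000018020900))) 
(.lf (nat_lit 61972557) (dlOf (nat_lit 1) (nat_lit 0x10008000400200020009920003)))) 
(.lf (nat_lit 20033613) (dlOf (nat_lit 1) (nat_lit 0x80080004002000200089d7d83))))) 
(.nd (nat_lit 29) (.nd (nat_lit 12) (.nd (nat_lit 26) 
(.lf (nat_lit 3221332173) (dlOf (nat_lit 2) (nat_lit 0x3014c001806e0020020000e2838090480))) 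
(.lf (nat_lit 6509666509) (dlOf (nat_lit 2) (nat_lit 0xc80240023702001000080b0481)))) 
(.nd (nat_lit 9) (.lf (nat_lit 3355555021) (dlOf (nat_lit 1) (nat_lit 0x200180a9501))) 
(.lf (nat_lit 20034253) (dlOf (nat_lit 1) (nat_lit 0x80080004002000400089d8c83))))) 
(.nd (nat_lit 26) (.nd (nat_lit 28) 
(.lf (nat_lit 5905686733) (dlOf (nat_lit 2) (nat_lit 0xc80220023702001000080b0481))) 
(.lf (nat_lit 805413069) (dlOf (nat_lit 3) (nat_lit 0x3300980049204005409e001a03800bd01300091c18003000800cc002005a0008090483)))) 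
(.nd (nat_lit 27) 
(.lf (nat_lit 1677828301) (dlOf (nat_lit 3) (nat_lit 0x3300980049204005409e001a03800bd01300091c18003000800cc002005a0008090483))) 
(.lf (nat_lit 3959529677) (dlOf (nat_lit 2) (nat_lit 0x3014c001806e0020020000e2838090480))))))) 
(.nd (nat_lit 21) (.nd (nat_lit 26) (.nd (nat_lit 28) 
(.lf (nat_lit 3221856333) (dlOf (nat_lit 1) (nat_lit 0x1600181a1501))) 
(.lf (nat_lit 1342808141) (dlOf (nat_lit 1) (nat_lit 0x200180d0f01)))) (.nd (nat_lit 20) 
(.nd (nat_lit 28) (.lf (nat_lit 3960053837) (dlOf (nat_lit 2) (nat_lit 0x1802f0009d8181a1880))) 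
(.lf (nat_lit 470392909) (dlOf (nat_lit 1) (nat_lit 0x200180d0f01)))) 
(.lf (nat_lit 68788301) (dlOf (nat_lit 1) (nat_lit 0x400400020008780002))))) (.nd (nat_lit 20) 
(.nd (nat_lit 7) (.nd (nat_lit 9) 
(.lf (nat_lit 472490077) (dlOf (nat_lit 2) (nat_lit 0x808c02ca604000400400020018991982))) 
(.lf (nat_lit 44673629) (dlOf (nat_lit 1) (nat_lit 0x400200020009325302)))) 
(.lf (nat_lit 57256669) (dlOf (nat_lit 5) (nat_lit 0x1155de00033020082aef000188100375778000b8080752bbc0000004000400400020009795902)))) 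
(.nd (nat_lit 4) (.lf (nat_lit 1345956429) (dlOf (nat_lit 1) (nat_lit 0x80018e25281))) 
(.lf (nat_lit 1345956445) (dlOf (nat_lit 1) (nat_lit 0x12800200f20008e25302))))))) 
(.nd (nat_lit 21) (.nd (nat_lit 26) (.nd (nat_lit 4) (.nd (nat_lit 7) 
(.lf (nat_lit 3493962061) (dlOf (nat_lit 2) (nat_lit 0x502800011c0800b000800d8002000400081b0603))) 
(.lf (nat_lit 43622861) (dlOf (nat_lit 1) (nat_lit 0xe00192a1101)))) (.nd (nat_lit 27) 
(.nd (nat_lit 28) 
(.lf (nat_lit 5905686877) (dlOf (nat_lit 6) (nat_lit 0xa38000000ac04036c000000540201960000002981014100000004c0804c0000000240400d8002000200080b0682))) 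
(.lf (nat_lit 805413213) (dlOf (nat_lit 6) (nat_lit 0x2600980001c0400ac04c0000d0200a80260000501002b0130000240801f809800000040004002001c0008090682)))) 
(.lf (nat_lit 1476501853) (dlOf (nat_lit 1) (nat_lit 0x400200020008010902))))) (.nd (nat_lit 4) 
(.nd (nat_lit 10) 
(.lf (nat_lit 738304333) (dlOf (nat_lit 6) (nat_lit 0x10154002806c00026040004055000401b800400d8000480c00080aa000c0300001102000402a800280dc0003e08000c0a6001a04c000a01a80078084001403a000000a00200028090d01))) 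
(.lf (nat_lit 3825315149) (dlOf (nat_lit 1) (nat_lit 0xc40028146a01)))) (.nd (nat_lit 11) 
(.nd (nat_lit 29) 
(.lf (nat_lit 6509666653) (dlOf (nat_lit 6) (nat_lit 0xa38000000ac04036c000000540201960000002981014100000004c0804c0000000240400d8002000200080b0682))) 
(.lf (nat_lit 1677828445) (dlOf (nat_lit 6) (nat_lit 0x2600980001c0400ac04c0000d0200a80260000501002b0130000240801f809800000040004002001c0008090682)))) 
(.lf (nat_lit 738306397) (dlOf (nat_lit 1) (nat_lit 0x10008001000200040008094e83)))))) 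
(.nd (nat_lit 22) (.nd (nat_lit 4) 
(.lf (nat_lit 1345429965) (dlOf (nat_lit 1) (nat_lit 0x1680028bb1101))) (.nd (nat_lit 9) 
(.lf (nat_lit 61448669) (dlOf (nat_lit 1) (nat_lit 0x380019921281))) 
(.lf (nat_lit 36807645) (dlOf (nat_lit 1) (nat_lit 0x20019072881))))) (.nd (nat_lit 7) 
(.nd (nat_lit 9) 
(.lf (nat_lit 57256285) (dlOf (nat_lit 7) (nat_lit 0x1695de0150b0200aaaef00a8501005557780541c080282bbc02a0c0402f15dc00351020104aef00000019794e80))) 
(.lf (nat_lit 7971677) (dlOf (nat_lit 1) (nat_lit 0x20008512581)))) 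
(.lf (nat_lit 7972317) (dlOf (nat_lit 1) (nat_lit 0x8008000400200020008513603)))))))) 
(.nd (nat_lit 4) (.nd (nat_lit 6) (.nd (nat_lit 20) (.nd (nat_lit 26) (.nd (nat_lit 28) 
(.nd (nat_lit 27) (.nd (nat_lit 21) (.nd (nat_lit 32) 
(.lf (nat_lit 1610981389) (dlOf (nat_lit 1) (nat_lit 0x5e00080b0001))) 
(.lf (nat_lit 5905948685) (dlOf (nat_lit 1) (nat_lit 0x70008000c002000a0008160483)))) 
(.lf (nat_lit 2465805) (dlOf (nat_lit 5) (nat_lit 0x18724001c388000e177002b58300060ea8003072400203880010177002b50400090ea800487240014388000a177002b484000a0ea8005072400143880004177002b4048160680)))) 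
(.nd (nat_lit 19) 
(.lf (nat_lit 3355811853) (dlOf (nat_lit 26) (nat_lit 0x2e406402a801200025020104019815200c804e805802be021001a00f0050006c02cc02e04b8012011d008808b802401f8000000431604ec03201bb01600050078057c02400b601101b5004803a0000000841c134c064001601e02a4009001500440014000000410a00e8032009c009000100100d900c8062c02401ce0110001f83006c019001000480007c0801e406401b60120001e8205d1018822d0048133c0220003b0603f003201f40090095004400500000003a08006603100bf00900a40044000720c0030062009c012003f0088000e01800880c4003c024009e0110001b8300350088000d8080008044000420400040240001e02002e0120000e01007f0090000640805c00c8003006201c6012002b00880005c2004980c803dc0240001504007003201050090000501004400480002604001806603f4032000700f008d8048000221002400240000f02033403201b90090000001011e8008114400209fc0008120103))) 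
(.lf (nat_lit 2819465229) (dlOf (nat_lit 9) (nat_lit 0x807e0063e02001e0360031381000b01b0018840800c80d800c2804001806c0061302002a036002dc01000801b0016700800100d800b0c040048004000e00082a0282))))) 
(.nd (nat_lit 29) (.lf (nat_lit 1342545933) (dlOf (nat_lit 1) (nat_lit 0x1fc002005a0008050a02))) 
(.nd (nat_lit 31) 
(.lf (nat_lit 1879416845) (dlOf (nat_lit 3) (nat_lit 0x20610009d8100050308004e4080020008000800200040008130483))) 
(.lf (nat_lit 4026900493) (dlOf (nat_lit 2) (nat_lit 0x301200152808019000800bc00200ae00080c0803)))))) 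
(.nd (nat_lit 27) (.nd (nat_lit 11) (.nd (nat_lit 19) 
(.lf (nat_lit 3288702989) (dlOf (nat_lit 2) (nat_lit 0x3012002bcc08019000800bc00200ae00080c0803))) 
(.lf (nat_lit 3557662733) (dlOf (nat_lit 9) (nat_lit 0x807e00bd302001e038005de01000b01c002ed80800c80e00175204001807000ba802002a038005a201000801c002cc40800100e001636040048004000e00082a0282)))) 
(.nd (nat_lit 7) (.lf (nat_lit 70102029) (dlOf (nat_lit 2) (nat_lit 0x5603900009818ec5f80))) 
(.lf (nat_lit 4630882701) (dlOf (nat_lit 1) (nat_lit 0x260008124e81))))) (.nd (nat_lit 29) 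
(.nd (nat_lit 31) (.lf (nat_lit 470130701) (dlOf (nat_lit 1) (nat_lit 0x1fc002005a0008050a02))) 
(.lf (nat_lit 2617614349) (dlOf (nat_lit 23) (nat_lit 0x8d80bc0009404030c060067a02f0155017006580a400086100a5405e0180029000210202140178001040800880bc0008004069c05e0003f02035402f0001f0101ab0178000f40803980c0001405e053602e001f009014500440007614011c05e02d802e0001d0200060170000900800700b8000400400c805c0001e02006002e0000d0101aa01700005c0803a80bc05d405c000160402d802e0000a01016701700004c080bd80b8000240401fc06005c402f0000882001d0170000280809100bc0000004005c00400020018100102)))) 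
(.nd (nat_lit 28) (.lf (nat_lit 738566157) (dlOf (nat_lit 1) (nat_lit 0x5e00080b0001))) 
(.lf (nat_lit 1007001613) (dlOf (nat_lit 3) (nat_lit 0x20650009d8100050328004e4080020008000800200040008130483))))))) 
(.nd (nat_lit 22) (.nd (nat_lit 23) (.nd (nat_lit 9) 
(.lf (nat_lit 37068813) (dlOf (nat_lit 1) (nat_lit 0x400200800009090002))) 
(.lf (nat_lit 20295181) (dlOf (nat_lit 1) (nat_lit 0x1800289d7081)))) (.nd (nat_lit 7) 
(.lf (nat_lit 27107341) (dlOf (nat_lit 1) (nat_lit 0x20028ca0481))) 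
(.lf (nat_lit 11903117) (dlOf (nat_lit 1) (nat_lit 0x8002000600086c0102))))) (.nd (nat_lit 19) 
(.nd (nat_lit 21) 
(.lf (nat_lit 30777357) (dlOf (nat_lit 2) (nat_lit 0xeb270008534000364100078008002c00200060008e50583))) 
(.nd (nat_lit 24) 
(.lf (nat_lit 7708685) (dlOf (nat_lit 2) (nat_lit 0xb258002be040008002000200084d0582))) 
(.lf (nat_lit 24485901) (dlOf (nat_lit 3) (nat_lit 0xebc9000c5d700004c1000daf24001d75c000110400040008ba0381))))) 
(.nd (nat_lit 7) 
(.lf (nat_lit 22913037) (dlOf (nat_lit 11) (nat_lit 0x1c75880215a900048d460018668001fa58400ed2bc004c0000002187010ceb1001eb52000d1a8c011ccce001b4b0802a25780338000000420e011ed48000266800038000000820c00ac0000003f0200540000001e8102480000000ec0800800000007404001c00000039020011d700001c01001c6a40000440800600080018002002a0008b40103))) 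
(.lf (nat_lit 8233357) (dlOf (nat_lit 1) (nat_lit 0x1000200020008511002))))))) (.nd (nat_lit 21) 
(.nd (nat_lit 28) (.nd (nat_lit 22) (.nd (nat_lit 26) (.nd (nat_lit 29) 
(.lf (nat_lit 6442819661) (dlOf (nat_lit 1) (nat_lit 0x800181c0f01))) 
(.lf (nat_lit 1610981453) (dlOf (nat_lit 1) (nat_lit 0x2ac00080b0601)))) 
(.lf (nat_lit 738566221) (dlOf (nat_lit 1) (nat_lit 0x2ac00080b0601)))) (.nd (nat_lit 7) 
(.lf (nat_lit 29728845) (dlOf (nat_lit 6) (nat_lit 0x1fc8d0002c8080147614014b374012791b0092c8d0006620000aee320011090001078600413a2800ed8c200e49d4000448b0078cdd0053646c0297234000f880000fb8c80243c30001101800dbbfa0063d150007d47802d66e8025b236012f91a0008c4000145c64002e1200038f0c00837450015b748011d8c200ea9d4000430e0011c8d800d64680010a08003c00400460018e30182))) 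
(.lf (nat_lit 29728973) (dlOf (nat_lit 1) (nat_lit 0x34800200d00008e30482))))) (.nd (nat_lit 27) 
(.nd (nat_lit 22) (.lf (nat_lit 4563771469) (dlOf (nat_lit 1) (nat_lit 0x200280d0501))) 
(.lf (nat_lit 1346740301) (dlOf (nat_lit 1) (nat_lit 0x40019000681)))) (.nd (nat_lit 26) 
(.lf (nat_lit 4697989197) (dlOf (nat_lit 1) (nat_lit 0x200280d0501))) 
(.lf (nat_lit 5838839885) (dlOf (nat_lit 1) (nat_lit 0x800181c0f01)))))) (.nd (nat_lit 8) 
(.nd (nat_lit 9) (.lf (nat_lit 4038733) (dlOf (nat_lit 1) (nat_lit 0x8008000400200020008270d03))) 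
(.nd (nat_lit 19) (.lf (nat_lit 473279053) (dlOf (nat_lit 1) (nat_lit 0xc00400020018e35282))) 
(.lf (nat_lit 36547149) (dlOf (nat_lit 1) (nat_lit 0x400400020009075282))))) (.nd (nat_lit 7) 
(.nd (nat_lit 9) (.lf (nat_lit 11903309) (dlOf (nat_lit 1) (nat_lit 0x80080010002000200086c0603))) 
(.lf (nat_lit 20294477) (dlOf (nat_lit 1) (nat_lit 0x4002000200089d5c02)))) (.nd (nat_lit 9) 
(.lf (nat_lit 8237517) (dlOf (nat_lit 1) (nat_lit 0x400400040018518682))) 
(.lf (nat_lit 8233933) (dlOf (nat_lit 1) (nat_lit 0x400200020008512882)))))))) (.nd (nat_lit 19) 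
(.nd (nat_lit 6) (.nd (nat_lit 23) (.nd (nat_lit 27) (.nd (nat_lit 22) 
(.lf (nat_lit 3758465053) (dlOf (nat_lit 1) (nat_lit 0x200281e0681))) 
(.lf (nat_lit 3494223901) (dlOf (nat_lit 2) (nat_lit 0x621400031040001080000fa00c0004002000e00081d0a02)))) 
(.nd (nat_lit 28) (.nd (nat_lit 29) 
(.lf (nat_lit 3355811869) (dlOf (nat_lit 16) (nat_lit 0x1d00f0008100800d00b80068040000201e000d683002401000028c0809f0080001420402ec0400009f0202b00200003f0101450100001e4080130080000f00404e40400007702020c0200003b01007d0100001c80805580800005404019c0400002702002a0200000c010014017000c00800000008005400200560008120482))) 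
(.lf (nat_lit 3892682781) (dlOf (nat_lit 1) (nat_lit 0x34004001a00081b0582)))) 
(.lf (nat_lit 5234860061) (dlOf (nat_lit 1) (nat_lit 0xe00008100081))))) (.nd (nat_lit 20) 
(.nd (nat_lit 21) (.lf (nat_lit 12951581) (dlOf (nat_lit 1) (nat_lit 0x4002000200086f0582))) 
(.lf (nat_lit 48603165) (dlOf (nat_lit 1) (nat_lit 0x10004000a0009420102)))) (.nd (nat_lit 7) 
(.lf (nat_lit 9805853) (dlOf (nat_lit 1) (nat_lit 0x48008000400200040008580083))) 
(.lf (nat_lit 43361693) (dlOf (nat_lit 1) (nat_lit 0x3200192a3601)))))) (.nd (nat_lit 21) 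
(.nd (nat_lit 27) (.nd (nat_lit 28) 
(.lf (nat_lit 6442819677) (dlOf (nat_lit 3) (nat_lit 0x60148000540800380a40018006000c0000000a0381c1200))) 
(.lf (nat_lit 4563771485) (dlOf (nat_lit 1) (nat_lit 0x2200080d0701)))) (.nd (nat_lit 26) 
(.lf (nat_lit 4697989213) (dlOf (nat_lit 1) (nat_lit 0x2200080d0701))) 
(.lf (nat_lit 5838839901) (dlOf (nat_lit 3) (nat_lit 0x60148000ac0800380a4001800a000c000000150381c1200))))) 
(.nd (nat_lit 26) (.nd (nat_lit 29) 
(.lf (nat_lit 3492126813) (dlOf (nat_lit 4) (nat_lit 0xa81140002e02001a08a000108100040450000800800d0008004c002001000080a1203))) 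
(.lf (nat_lit 1881514077) (dlOf (nat_lit 3) (nat_lit 0x600e30000e8100d307180007008025800800b000200280008f40883)))) 
(.lf (nat_lit 2753929309) (dlOf (nat_lit 4) (nat_lit 0xa810e0001802001a087000058100040438000280800d0008004c002001000080a1203)))))) 
(.nd (nat_lit 8) (.nd (nat_lit 21) (.nd (nat_lit 6) (.nd (nat_lit 22) 
(.lf (nat_lit 27107357) (dlOf (nat_lit 1) (nat_lit 0x40018ca0581))) 
(.lf (nat_lit 22913053) (dlOf (nat_lit 6) (nat_lit 0xef10009c00000204040017bbe0002d9d800780000035a0c0080000000af020003bc40004e81001700000006008000800801e4002000e0008b40483)))) 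
(.lf (nat_lit 471707357) (dlOf (nat_lit 1) (nat_lit 0x200283d7381)))) (.nd (nat_lit 6) 
(.nd (nat_lit 20) (.lf (nat_lit 11378717) (dlOf (nat_lit 1) (nat_lit 0xc00400060008690482))) 
(.lf (nat_lit 1346215965) (dlOf (nat_lit 2) (nat_lit 0x20d900123018e70600)))) 
(.lf (nat_lit 20816093) (dlOf (nat_lit 1) (nat_lit 0xa00289e4201))))) (.nd (nat_lit 20) 
(.nd (nat_lit 6) (.nd (nat_lit 10) 
(.lf (nat_lit 1343070493) (dlOf (nat_lit 1) (nat_lit 0x120028150701))) 
(.lf (nat_lit 5772256541) (dlOf (nat_lit 1) (nat_lit 0x58004001e0008093102)))) 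
(.lf (nat_lit 26059101) (dlOf (nat_lit 1) (nat_lit 0x40008003800200100008c10903)))) 
(.nd (nat_lit 7) (.nd (nat_lit 9) 
(.lf (nat_lit 12427549) (dlOf (nat_lit 1) (nat_lit 0x11a00086c0481))) 
(.lf (nat_lit 8237853) (dlOf (nat_lit 1) (nat_lit 0x8008001000200020008518f83)))) 
(.lf (nat_lit 54372765) (dlOf (nat_lit 1) (nat_lit 0x40029654e81))))))))) (.nd (nat_lit 4) 
(.nd (nat_lit 18) (.nd (nat_lit 7) (.nd (nat_lit 28) (.nd (nat_lit 19) (.nd (nat_lit 31) 
(.nd (nat_lit 9) (.nd (nat_lit 21) (.nd (nat_lit 20) 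
(.lf (nat_lit 5905686573) (dlOf (nat_lit 2) (nat_lit 0x22c0000065f8180b0000))) 
(.lf (nat_lit 30515245) (dlOf (nat_lit 1) (nat_lit 0x400200020008e30002)))) (.nd (nat_lit 22) 
(.lf (nat_lit 27369517) (dlOf (nat_lit 1) (nat_lit 0x40028cd0801))) 
(.lf (nat_lit 23175213) (dlOf (nat_lit 6) (nat_lit 0x20d830001501002961580006008160b5f801a1978000100403becbf000070100036bf00000c08000800801b4002000a0008b60903))))) 
(.nd (nat_lit 6) (.nd (nat_lit 8) 
(.lf (nat_lit 41001517) (dlOf (nat_lit 1) (nat_lit 0x20029208a81))) 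
(.lf (nat_lit 108333) (dlOf (nat_lit 1) (nat_lit 0x260018003d81)))) 
(.lf (nat_lit 8499821) (dlOf (nat_lit 1) (nat_lit 0x20028518981))))) (.nd (nat_lit 6) 
(.nd (nat_lit 20) (.nd (nat_lit 29) 
(.lf (nat_lit 2348916781) (dlOf (nat_lit 1) (nat_lit 0xcc0008020581))) 
(.lf (nat_lit 3959529517) (dlOf (nat_lit 4) (nat_lit 0xe280980130c04043404c00985020018026004bb018090000)))) 
(.lf (nat_lit 2752618541) (dlOf (nat_lit 2) (nat_lit 0x920e70000d818020580)))) (.nd (nat_lit 8) 
(.lf (nat_lit 6576778349) (dlOf (nat_lit 1) (nat_lit 0x400400020008146082))) 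
(.lf (nat_lit 6576778605) (dlOf (nat_lit 1) (nat_lit 0x400400020008146b02)))))) (.nd (nat_lit 21) 
(.nd (nat_lit 23) (.nd (nat_lit 27) (.nd (nat_lit 29) 
(.lf (nat_lit 3221856301) (dlOf (nat_lit 2) (nat_lit 0x4c01e0000740800d0008000c002002a00081a0d83))) 
(.lf (nat_lit 537501741) (dlOf (nat_lit 1) (nat_lit 0x4004000200180a0982)))) 
(.lf (nat_lit 134848557) (dlOf (nat_lit 1) (nat_lit 0x2600080c0d81)))) 
(.lf (nat_lit 42573869) (dlOf (nat_lit 1) (nat_lit 0x28008000800200020009260283)))) 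
(.nd (nat_lit 8) 
(.lf (nat_lit 24748077) (dlOf (nat_lit 4) (nat_lit 0x97aa00016020002bd5000028100045ea800010080040008005400200180008bb0d83))) 
(.nd (nat_lit 12) (.lf (nat_lit 23699757) (dlOf (nat_lit 1) (nat_lit 0x8008000400200020008b80503))) 
(.lf (nat_lit 20558125) (dlOf (nat_lit 1) (nat_lit 0x1800189d8081))))))) (.nd (nat_lit 30) 
(.nd (nat_lit 9) (.nd (nat_lit 19) (.nd (nat_lit 26) 
(.lf (nat_lit 805412909) (dlOf (nat_lit 2) (nat_lit 0xc04c00384018090000))) 
(.lf (nat_lit 2483134509) (dlOf (nat_lit 1) (nat_lit 0xcc0008020581)))) (.nd (nat_lit 6) 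
(.nd (nat_lit 20) (.lf (nat_lit 470392877) (dlOf (nat_lit 1) (nat_lit 0x4002000200080d0982))) 
(.lf (nat_lit 471441453) (dlOf (nat_lit 1) (nat_lit 0x60028300b01)))) 
(.lf (nat_lit 470392941) (dlOf (nat_lit 2) (nat_lit 0x222310001b8180d1500))))) (.nd (nat_lit 6) 
(.nd (nat_lit 11) (.lf (nat_lit 2617353005) (dlOf (nat_lit 1) (nat_lit 0x5600280a2201))) 
(.lf (nat_lit 5234600749) (dlOf (nat_lit 1) (nat_lit 0x800200020008055c02)))) 
(.lf (nat_lit 469873261) (dlOf (nat_lit 1) (nat_lit 0x1c00200120008008982))))) (.nd (nat_lit 19) 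
(.nd (nat_lit 9) (.nd (nat_lit 10) 
(.lf (nat_lit 3490816045) (dlOf (nat_lit 2) (nat_lit 0x920b70000d818020580))) 
(.lf (nat_lit 3489770541) (dlOf (nat_lit 1) (nat_lit 0x340028006081)))) (.nd (nat_lit 8) 
(.lf (nat_lit 6241232429) (dlOf (nat_lit 2) (nat_lit 0x401400016818053780))) 
(.lf (nat_lit 5704362797) (dlOf (nat_lit 1) (nat_lit 0x400200020008055c02))))) (.nd (nat_lit 6) 
(.nd (nat_lit 26) (.lf (nat_lit 1342808109) (dlOf (nat_lit 1) (nat_lit 0x4002000200080d0982))) 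
(.lf (nat_lit 1409916973) (dlOf (nat_lit 1) (nat_lit 0x4004000200180a0982)))) 
(.lf (nat_lit 1342808173) (dlOf (nat_lit 2) (nat_lit 0x222310001b8180d1500))))))) (.nd (nat_lit 8) 
(.nd (nat_lit 9) (.nd (nat_lit 6) (.nd (nat_lit 10) 
(.lf (nat_lit 6442559661) (dlOf (nat_lit 1) (nat_lit 0x4004000200080f4902))) (.nd (nat_lit 21) 
(.lf (nat_lit 33662125) (dlOf (nat_lit 1) (nat_lit 0x100018f52c01))) 
(.lf (nat_lit 31564973) (dlOf (nat_lit 1) (nat_lit 0x800400040018e92c02))))) (.nd (nat_lit 11) 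
(.lf (nat_lit 4697728237) (dlOf (nat_lit 1) (nat_lit 0x400400020008092e82))) (.nd (nat_lit 27) 
(.lf (nat_lit 3825315053) (dlOf (nat_lit 1) (nat_lit 0x8008000800200020008146503))) 
(.lf (nat_lit 1812049133) (dlOf (nat_lit 1) (nat_lit 0x60018146501)))))) (.nd (nat_lit 19) 
(.nd (nat_lit 10) (.nd (nat_lit 12) 
(.lf (nat_lit 3556879085) (dlOf (nat_lit 1) (nat_lit 0x10002002400080d5a02))) 
(.lf (nat_lit 113389) (dlOf (nat_lit 1) (nat_lit 0x24001800b981)))) 
(.lf (nat_lit 108269) (dlOf (nat_lit 1) (nat_lit 0x20018003b01)))) (.nd (nat_lit 26) 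
(.lf (nat_lit 633581) (dlOf (nat_lit 2) (nat_lit 0xfb7a00015018005a00))) 
(.lf (nat_lit 738831085) (dlOf (nat_lit 2) (nat_lit 0x204e0000c018125a00)))))) (.nd (nat_lit 6) 
(.nd (nat_lit 29) (.nd (nat_lit 11) 
(.lf (nat_lit 3491865005) (dlOf (nat_lit 1) (nat_lit 0x820008090781))) (.nd (nat_lit 22) 
(.lf (nat_lit 50440621) (dlOf (nat_lit 1) (nat_lit 0x98002002200094c4e82))) 
(.lf (nat_lit 37857709) (dlOf (nat_lit 1) (nat_lit 0x200090d4e81))))) (.nd (nat_lit 26) 
(.nd (nat_lit 28) (.lf (nat_lit 5905686957) (dlOf (nat_lit 1) (nat_lit 0x200280b0781))) 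
(.lf (nat_lit 4026638765) (dlOf (nat_lit 3) (nat_lit 0x301b0029180800480b80146004004000400060008017182)))) 
(.lf (nat_lit 3959529901) (dlOf (nat_lit 2) (nat_lit 0x3601e00430018090780))))) (.nd (nat_lit 20) 
(.nd (nat_lit 10) (.lf (nat_lit 1073848813) (dlOf (nat_lit 1) (nat_lit 0xc00400060008017d02))) 
(.lf (nat_lit 61449709) (dlOf (nat_lit 1) (nat_lit 0x800400680009923602)))) (.nd (nat_lit 23) 
(.lf (nat_lit 1345431021) (dlOf (nat_lit 2) (nat_lit 0xa0b28006c8080058008003800200040008bb3603))) 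
(.lf (nat_lit 61973997) (dlOf (nat_lit 2) (nat_lit 0x1952d8005c8080008008000c00200020009923603)))))))) 
(.nd (nat_lit 31) (.nd (nat_lit 20) (.nd (nat_lit 6) (.nd (nat_lit 29) (.nd (nat_lit 7) 
(.nd (nat_lit 19) 
(.lf (nat_lit 1409654829) (dlOf (nat_lit 1) (nat_lit 0x280080018002000a0008070903))) 
(.lf (nat_lit 892973) (dlOf (nat_lit 1) (nat_lit 0x400400020008030c02)))) 
(.lf (nat_lit 59090093) (dlOf (nat_lit 1) (nat_lit 0x670008012400200c200097e2c03)))) 
(.nd (nat_lit 26) (.nd (nat_lit 28) 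
(.lf (nat_lit 537239597) (dlOf (nat_lit 2) (nat_lit 0x402e8012016c00480b4000c05800011048070800))) 
(.lf (nat_lit 805675053) (dlOf (nat_lit 10) (nat_lit 0x25c02a8022015009300a604f804e01770260002812c076408a03de03c023501b801680c4034c060026202d01f0016005f0090048802e043801601bc0090123004400c0020031e00a003600301358000000205806c40aa02a00530000782026e02b00bf015407500a602ee04e01f402601440128006c08604fa037027401900ff809000f402c05b40130068009002d804009a801404400000000710008302980ec804c05e40140000d06005e056014502a8060814c05b809c002204a00b001b80002430004014c0001004013c0ac02ca0550093029801080c8006c026000030a0012053000008100010098000000801c0008007000200de0008180903)))) 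
(.lf (nat_lit 1678090285) (dlOf (nat_lit 4) (nat_lit 0x18f02a8098814c0001e08001c0a600f80130000682000702980000408020800800d000200040008180803))))) 
(.nd (nat_lit 8) (.nd (nat_lit 9) 
(.lf (nat_lit 5838839917) (dlOf (nat_lit 2) (nat_lit 0x30190000dc0800a8008001c002003000081c1503))) 
(.lf (nat_lit 52799085) (dlOf (nat_lit 1) (nat_lit 0x120019573901)))) 
(.lf (nat_lit 4429560685) (dlOf (nat_lit 1) (nat_lit 0x6001811bc81))))) (.nd (nat_lit 9) 
(.nd (nat_lit 19) (.nd (nat_lit 23) 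
(.lf (nat_lit 7708717) (dlOf (nat_lit 1) (nat_lit 0x80080004002000200084d0b03))) 
(.lf (nat_lit 32874541) (dlOf (nat_lit 2) (nat_lit 0x7003c0000e818f30280)))) (.nd (nat_lit 6) 
(.nd (nat_lit 22) 
(.lf (nat_lit 27107373) (dlOf (nat_lit 8) (nat_lit 0x300000005f02003011d004208b804e0000000ba0c008c000000590200780000002c01002000000015c0805dae0c018423a018e11b00e708b80770000000a81401a823600c41170088000000114180020008047c002000c0008ca0683))) 
(.lf (nat_lit 22913069) (dlOf (nat_lit 1) (nat_lit 0xa400200800008b40782)))) 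
(.lf (nat_lit 18718957) (dlOf (nat_lit 1) (nat_lit 0x180028970601))))) (.nd (nat_lit 10) 
(.nd (nat_lit 8) 
(.lf (nat_lit 12427821) (dlOf (nat_lit 12) (nat_lit 0x9dd58000fc08003eeac00076540003d04000fbab0001b010005dd58000eca80006808001b7560003b2a00015020006dd580008c080036eac0004004001b7560001d020009bab00006010006dd580002408003eeac00000040014004000400186c0e82))) 
(.lf (nat_lit 20294445) (dlOf (nat_lit 1) (nat_lit 0x280080004002000400089d5c03)))) 
(.nd (nat_lit 19) (.lf (nat_lit 20295213) (dlOf (nat_lit 1) (nat_lit 0x10004000200089d7182))) 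
(.lf (nat_lit 471707181) (dlOf (nat_lit 1) (nat_lit 0x200283d7181))))))) (.nd (nat_lit 29) 
(.nd (nat_lit 26) (.nd (nat_lit 6) (.nd (nat_lit 7) 
(.lf (nat_lit 3355811885) (dlOf (nat_lit 10) (nat_lit 0x1001a0185302000802f00c250100250178009003403092080244040000c00a00c2102000a0050061000801f80bc046001a017f70402e202f014d006805f84100b300bc04cc01a017cd04000802f008a0100000001008e00080ad800202800008120783))) 
(.lf (nat_lit 3490556333) (dlOf (nat_lit 1) (nat_lit 0x20018004e81)))) (.nd (nat_lit 21) 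
(.lf (nat_lit 6442819693) (dlOf (nat_lit 2) (nat_lit 0x30190000dc0800a8008001c002003000081c1503))) 
(.lf (nat_lit 3492126829) (dlOf (nat_lit 1) (nat_lit 0x400080028002001200080a1503))))) 
(.nd (nat_lit 19) (.nd (nat_lit 27) 
(.lf (nat_lit 3288703021) (dlOf (nat_lit 2) (nat_lit 0x801a00130020000801000080080004002000200080c0d83))) 
(.lf (nat_lit 2617614381) (dlOf (nat_lit 3) (nat_lit 0x2c02c00da58101720178000000804a80080080002005a0008100783)))) 
(.lf (nat_lit 3557662765) (dlOf (nat_lit 1) (nat_lit 0x10400082a0801))))) (.nd (nat_lit 6) 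
(.nd (nat_lit 19) (.nd (nat_lit 9) 
(.lf (nat_lit 3758465069) (dlOf (nat_lit 1) (nat_lit 0x200281e0881))) 
(.lf (nat_lit 2754981421) (dlOf (nat_lit 3) (nat_lit 0x18074000a80400140400004e02000400180f7181)))) 
(.nd (nat_lit 21) (.lf (nat_lit 2819465261) (dlOf (nat_lit 1) (nat_lit 0x10400082a0801))) 
(.lf (nat_lit 4096630829) (dlOf (nat_lit 2) (nat_lit 0x840000000002002a0018140d01))))) 
(.nd (nat_lit 7) 
(.lf (nat_lit 2753929325) (dlOf (nat_lit 1) (nat_lit 0x400080028002001200080a1503))) 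
(.nd (nat_lit 8) (.lf (nat_lit 2754456813) (dlOf (nat_lit 1) (nat_lit 0x200280f6501))) 
(.lf (nat_lit 4094536685) (dlOf (nat_lit 1) (nat_lit 0x400400020008055e82))))))))) (.nd (nat_lit 6) 
(.nd (nat_lit 28) (.nd (nat_lit 31) (.nd (nat_lit 8) (.nd (nat_lit 7) (.nd (nat_lit 10) 
(.lf (nat_lit 25272381) (dlOf (nat_lit 2) (nat_lit 0x463510004f818bf0b80))) 
(.lf (nat_lit 1610720317) (dlOf (nat_lit 1) (nat_lit 0x40028092881)))) (.nd (nat_lit 9) 
(.lf (nat_lit 25796797) (dlOf (nat_lit 1) (nat_lit 0x400200020008c10382))) (.nd (nat_lit 10) 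
(.lf (nat_lit 8237757) (dlOf (nat_lit 1) (nat_lit 0x400200020008518c82))) 
(.lf (nat_lit 20033213) (dlOf (nat_lit 1) (nat_lit 0x8d8008027c00201aa00089d7283)))))) 
(.nd (nat_lit 11) (.nd (nat_lit 18) 
(.lf (nat_lit 4429291837) (dlOf (nat_lit 1) (nat_lit 0x800400040008048502))) 
(.lf (nat_lit 46506301) (dlOf (nat_lit 1) (nat_lit 0x6b800806e8002032e0009380b83)))) 
(.nd (nat_lit 9) (.lf (nat_lit 7973181) (dlOf (nat_lit 1) (nat_lit 0x400200020008514c82))) 
(.lf (nat_lit 20556605) (dlOf (nat_lit 1) (nat_lit 0x8002000200089d5c02)))))) (.nd (nat_lit 18) 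
(.nd (nat_lit 7) (.nd (nat_lit 19) 
(.lf (nat_lit 2348916797) (dlOf (nat_lit 3) (nat_lit 0x8807800c40120003404017e02a00a701400090094028803c000801000ef004800000300230008006800200440008020703))) 
(.lf (nat_lit 3221856317) (dlOf (nat_lit 1) (nat_lit 0x8004002800081a1402)))) (.nd (nat_lit 9) 
(.lf (nat_lit 6442559677) (dlOf (nat_lit 1) (nat_lit 0x1000180f4901))) 
(.lf (nat_lit 6576778941) (dlOf (nat_lit 1) (nat_lit 0x4a0018147281))))) (.nd (nat_lit 19) 
(.nd (nat_lit 21) (.lf (nat_lit 2756026429) (dlOf (nat_lit 1) (nat_lit 0x600081d0c01))) 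
(.lf (nat_lit 2753929277) (dlOf (nat_lit 1) (nat_lit 0x200180a0c81)))) 
(.lf (nat_lit 2819465277) (dlOf (nat_lit 1) (nat_lit 0xf340020a5400082a0a02)))))) (.nd (nat_lit 31) 
(.nd (nat_lit 8) (.nd (nat_lit 9) (.nd (nat_lit 26) (.nd (nat_lit 30) 
(.lf (nat_lit 805412925) (dlOf (nat_lit 2) (nat_lit 0xc02600385818090000))) 
(.lf (nat_lit 1879154749) (dlOf (nat_lit 2) (nat_lit 0x20410009d818030d00)))) 
(.lf (nat_lit 1006739517) (dlOf (nat_lit 2) (nat_lit 0x203a0009d818030d00)))) (.nd (nat_lit 7) 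
(.lf (nat_lit 6241232445) (dlOf (nat_lit 8) (nat_lit 0x330028014e00500500018000b0180100050000400a0002b040076014001a0028000a81000880140005204001402800400050000282003100a00060014000040800680280004005000200080000018003000800b0002000a0008053783))) 
(.lf (nat_lit 1342289597) (dlOf (nat_lit 1) (nat_lit 0x6002800a001))))) (.nd (nat_lit 9) 
(.nd (nat_lit 7) (.lf (nat_lit 1409396029) (dlOf (nat_lit 1) (nat_lit 0x220018006901))) 
(.lf (nat_lit 1881252285) (dlOf (nat_lit 1) (nat_lit 0x20028e81081)))) (.nd (nat_lit 27) 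
(.lf (nat_lit 5637253949) (dlOf (nat_lit 4) (nat_lit 0x70054000c0080016104001e0020004e8100030010002380800b000800ac00200040008055c03))) 
(.lf (nat_lit 5771471677) (dlOf (nat_lit 1) (nat_lit 0x540018005c01)))))) (.nd (nat_lit 18) 
(.nd (nat_lit 7) (.nd (nat_lit 19) 
(.lf (nat_lit 2483134525) (dlOf (nat_lit 3) (nat_lit 0x8807400c40100003404017e02a00a701400090094028803a000801000ef004000000300230008006800200440008020703))) 
(.lf (nat_lit 3492388925) (dlOf (nat_lit 1) (nat_lit 0x380080030002000600080c1403)))) 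
(.lf (nat_lit 3493961917) (dlOf (nat_lit 1) (nat_lit 0x4002000200081b0382)))) (.nd (nat_lit 19) 
(.nd (nat_lit 21) (.lf (nat_lit 3494223933) (dlOf (nat_lit 1) (nat_lit 0x600081d0c01))) 
(.lf (nat_lit 3492126781) (dlOf (nat_lit 1) (nat_lit 0x200180a0c81)))) (.nd (nat_lit 8) 
(.lf (nat_lit 3557662781) (dlOf (nat_lit 1) (nat_lit 0xf340020a5400082a0a02))) 
(.lf (nat_lit 3492652861) (dlOf (nat_lit 1) (nat_lit 0x4002000200080f3e02)))))))) (.nd (nat_lit 8) 
(.nd (nat_lit 10) (.nd (nat_lit 21) (.nd (nat_lit 27) (.nd (nat_lit 22) 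
(.lf (nat_lit 5435924605) (dlOf (nat_lit 2) (nat_lit 0x201d000080080008008000400200080008030d03))) 
(.lf (nat_lit 3493961853) (dlOf (nat_lit 2) (nat_lit 0x1804c000fd0181b0080)))) (.nd (nat_lit 7) 
(.lf (nat_lit 6375972989) (dlOf (nat_lit 1) (nat_lit 0x23400400340008030d02))) 
(.lf (nat_lit 3691094269) (dlOf (nat_lit 1) (nat_lit 0x20018010701))))) (.nd (nat_lit 9) 
(.nd (nat_lit 20) (.lf (nat_lit 19243133) (dlOf (nat_lit 1) (nat_lit 0x400200020008970482))) 
(.lf (nat_lit 58040445) (dlOf (nat_lit 1) (nat_lit 0xc004000200197b3582)))) 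
(.lf (nat_lit 20032125) (dlOf (nat_lit 2) (nat_lit 0x440640009c040018004000600089d5402))))) 
(.nd (nat_lit 18) (.nd (nat_lit 9) 
(.lf (nat_lit 8500349) (dlOf (nat_lit 1) (nat_lit 0x800400020008519502))) (.nd (nat_lit 21) 
(.lf (nat_lit 9021053) (dlOf (nat_lit 3) (nat_lit 0x1415900110a780009410004053c0004804000c00200020008513982))) 
(.lf (nat_lit 53061245) (dlOf (nat_lit 1) (nat_lit 0xc00400060009573982))))) (.nd (nat_lit 7) 
(.nd (nat_lit 23) 
(.lf (nat_lit 6375712381) (dlOf (nat_lit 3) (nat_lit 0xe0a9000882fc0006a08011019e010e0ac00016828003980))) 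
(.lf (nat_lit 8758909) (dlOf (nat_lit 2) (nat_lit 0x4e3cf00000018513980)))) 
(.lf (nat_lit 3490032893) (dlOf (nat_lit 1) (nat_lit 0x20008006601)))))) (.nd (nat_lit 18) 
(.nd (nat_lit 7) (.nd (nat_lit 9) (.nd (nat_lit 10) 
(.lf (nat_lit 61448573) (dlOf (nat_lit 1) (nat_lit 0x1f800200020009921002))) 
(.lf (nat_lit 20032893) (dlOf (nat_lit 1) (nat_lit 0x2c00189d6c01)))) 
(.lf (nat_lit 8501117) (dlOf (nat_lit 1) (nat_lit 0x600080004002001a000851a303)))) 
(.nd (nat_lit 26) (.nd (nat_lit 28) 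
(.lf (nat_lit 1073848829) (dlOf (nat_lit 1) (nat_lit 0x80008017e01))) 
(.lf (nat_lit 4026638845) (dlOf (nat_lit 1) (nat_lit 0x10008000400200140008017e03)))) 
(.nd (nat_lit 9) (.lf (nat_lit 6375450109) (dlOf (nat_lit 1) (nat_lit 0x800200020008003682))) 
(.lf (nat_lit 6375449597) (dlOf (nat_lit 1) (nat_lit 0x800800b400200100008002883)))))) 
(.nd (nat_lit 11) (.nd (nat_lit 9) (.nd (nat_lit 10) 
(.lf (nat_lit 20296189) (dlOf (nat_lit 1) (nat_lit 0x4002000200089d8682))) 
(.lf (nat_lit 43361789) (dlOf (nat_lit 3) (nat_lit 0x1692e0007202000d497000380192a3680)))) 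
(.nd (nat_lit 22) (.lf (nat_lit 335913981) (dlOf (nat_lit 1) (nat_lit 0x4600180e2881))) 
(.lf (nat_lit 38118397) (dlOf (nat_lit 1) (nat_lit 0x400200380009132882))))) (.nd (nat_lit 7) 
(.nd (nat_lit 10) (.lf (nat_lit 36546941) (dlOf (nat_lit 1) (nat_lit 0x20019074e81))) 
(.lf (nat_lit 3490033021) (dlOf (nat_lit 1) (nat_lit 0x4002000c0008006c02)))) (.nd (nat_lit 21) 
(.lf (nat_lit 48081405) (dlOf (nat_lit 1) (nat_lit 0x1800200040009404f82))) 
(.lf (nat_lit 33401341) (dlOf (nat_lit 1) (nat_lit 0x1000400060008f54f82))))))))))))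

end

end Pool.Agent.Lib.MP_5854e1_co.Cz

namespace Pool.Agent.Lib.MP_5854e1_co.Cz

noncomputable section

noncomputable def tz60 : DT := (.nd (nat_lit 15) (.nd (nat_lit 18) (.nd (nat_lit 6) 
(.nd (nat_lit 5) (.nd (nat_lit 19) (.nd (nat_lit 28) (.nd (nat_lit 7) (.nd (nat_lit 23) 
(.nd (nat_lit 20) (.nd (nat_lit 11) (.nd (nat_lit 29) 
(.lf (nat_lit 1140981773) (dlOf (nat_lit 1) (nat_lit 0x4002000a0008040002))) 
(.lf (nat_lit 604110861) (dlOf (nat_lit 1) (nat_lit 0x20018020101)))) (.nd (nat_lit 4) 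
(.lf (nat_lit 5972822029) (dlOf (nat_lit 1) (nat_lit 0x400400020008144702))) 
(.lf (nat_lit 6576803357) (dlOf (nat_lit 2) (nat_lit 0x6008800064080028008000c00200060008147103))))) 
(.nd (nat_lit 4) (.nd (nat_lit 22) 
(.lf (nat_lit 68288525) (dlOf (nat_lit 1) (nat_lit 0x40018500181))) 
(.lf (nat_lit 5373965) (dlOf (nat_lit 1) (nat_lit 0x100028360181)))) 
(.lf (nat_lit 2752643101) (dlOf (nat_lit 1) (nat_lit 0x400400020008020482))))) (.nd (nat_lit 21) 
(.nd (nat_lit 22) 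
(.lf (nat_lit 25296909) (dlOf (nat_lit 3) (nat_lit 0x2c688001d6080019efe0013b0600038d1000a7bf8004e4100098008007800200320008bf0483))) 
(.nd (nat_lit 24) 
(.lf (nat_lit 12713997) (dlOf (nat_lit 1) (nat_lit 0x41000802a400201d000086d0683))) 
(.lf (nat_lit 29491213) (dlOf (nat_lit 1) (nat_lit 0x20018e10281))))) (.nd (nat_lit 20) 
(.lf (nat_lit 44171277) (dlOf (nat_lit 1) (nat_lit 0x800292d0001))) 
(.lf (nat_lit 15859725) (dlOf (nat_lit 6) (nat_lit 0x84688009d0040018f0e004d702000a8e700023fb80029f8c0018f8a000a77f00043ba00029dac0014eb80002522000328500135850001a39c000cfc600087c500033bf80021dac0004eb8004d50c000c7f700053e280029dd00018a54000c522000528d00029428009a61c003000400060008840282)))))) 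
(.nd (nat_lit 4) (.nd (nat_lit 31) (.nd (nat_lit 12) 
(.lf (nat_lit 1610745485) (dlOf (nat_lit 4) (nat_lit 0x781680005e0400640b40002c02001e05a0000f018093a00))) 
(.lf (nat_lit 20059789) (dlOf (nat_lit 2) (nat_lit 0x237880007802002800289d9e01)))) 
(.nd (nat_lit 9) 
(.lf (nat_lit 3221363853) (dlOf (nat_lit 2) (nat_lit 0x380230001e40805680080024002004c000811c203))) 
(.lf (nat_lit 3355580045) (dlOf (nat_lit 2) (nat_lit 0x330180000000800300080074002000c00080a9e03))))) 
(.nd (nat_lit 8) (.nd (nat_lit 9) 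
(.lf (nat_lit 6509694109) (dlOf (nat_lit 1) (nat_lit 0x40018146281))) 
(.lf (nat_lit 1744964253) (dlOf (nat_lit 1) (nat_lit 0xc00200020008095582)))) (.nd (nat_lit 9) 
(.lf (nat_lit 3221364125) (dlOf (nat_lit 5) (nat_lit 0xd0118001320400380400008602000e0460000281002f0230000100800f000800400020018000811ca83))) 
(.lf (nat_lit 3221363613) (dlOf (nat_lit 1) (nat_lit 0x18001811bc81))))))) (.nd (nat_lit 7) 
(.nd (nat_lit 26) (.nd (nat_lit 20) (.nd (nat_lit 21) (.nd (nat_lit 29) 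
(.lf (nat_lit 4697751565) (dlOf (nat_lit 1) (nat_lit 0x270008000c00200060008090003))) 
(.lf (nat_lit 2013397005) (dlOf (nat_lit 1) (nat_lit 0x4002000a0008040002)))) 
(.lf (nat_lit 1344405517) (dlOf (nat_lit 11) (nat_lit 0x1c39c0016002001e1cc000af81000711d80008710002b008001c39c00156020012242000211b00008740001439800021c400010e00003643000108ec000446c00041d000020e600008700001b014000448c000a242000311b00010730000c38800041c00006b86000712300010908000c476000a23600030e800018730001c38800061c0000678800011210003380800089180008484000c23b000211b00020740000839800021c400020e0000334400010008003c002006a0008760583)))) 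
(.nd (nat_lit 4) (.lf (nat_lit 1880227853) (dlOf (nat_lit 1) (nat_lit 0x800187e0001))) 
(.lf (nat_lit 3490840605) (dlOf (nat_lit 1) (nat_lit 0x400400020008020482))))) (.nd (nat_lit 8) 
(.nd (nat_lit 20) (.lf (nat_lit 2617376781) (dlOf (nat_lit 2) (nat_lit 0xe02c008f48180a0000))) 
(.lf (nat_lit 470941709) (dlOf (nat_lit 1) (nat_lit 0x1140018200281)))) (.nd (nat_lit 4) 
(.lf (nat_lit 2617382157) (dlOf (nat_lit 2) (nat_lit 0x80b8000f204001c004005800080a9682))) 
(.lf (nat_lit 2617382173) (dlOf (nat_lit 1) (nat_lit 0xc004000400080a9702)))))) (.nd (nat_lit 4) 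
(.nd (nat_lit 27) (.nd (nat_lit 10) 
(.lf (nat_lit 5167513997) (dlOf (nat_lit 1) (nat_lit 0xc000202b80008075d82))) 
(.lf (nat_lit 5637277069) (dlOf (nat_lit 1) (nat_lit 0x6c00280d3601)))) (.nd (nat_lit 29) 
(.lf (nat_lit 4764860813) (dlOf (nat_lit 1) (nat_lit 0x1b000401540008035d82))) 
(.lf (nat_lit 2080506253) (dlOf (nat_lit 2) (nat_lit 0x7009c000404c001600400880028091001))))) 
(.nd (nat_lit 26) (.nd (nat_lit 8) 
(.lf (nat_lit 5772543133) (dlOf (nat_lit 2) (nat_lit 0xae039000fc018092b80))) 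
(.lf (nat_lit 805445021) (dlOf (nat_lit 1) (nat_lit 0x80008001c002005e000811ca83)))) 
(.nd (nat_lit 21) 
(.lf (nat_lit 474088605) (dlOf (nat_lit 4) (nat_lit 0x482ce0026166000b0a180028310008802c0044015000448600080b380060598004c02c0016015000440400070668001f8080008008004000200080009082b83))) 
(.lf (nat_lit 4095870109) (dlOf (nat_lit 1) (nat_lit 0x4002000200080e2b82)))))))) (.nd (nat_lit 4) 
(.nd (nat_lit 21) (.nd (nat_lit 26) (.nd (nat_lit 22) (.nd (nat_lit 27) 
(.lf (nat_lit 1342832653) (dlOf (nat_lit 2) (nat_lit 0x4d6223020e0cc800044100fd0008038000201d000080e0383))) 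
(.lf (nat_lit 134873101) (dlOf (nat_lit 5) (nat_lit 0x28025000c8118001805e0007c0600040460003d8100010250001d4080018128001805e0007304004600180d0481)))) 
(.lf (nat_lit 21626893) (dlOf (nat_lit 1) (nat_lit 0x2580080004002003c0008a50083)))) 
(.nd (nat_lit 28) 
(.lf (nat_lit 201981965) (dlOf (nat_lit 5) (nat_lit 0x28025000c8118001805e0007c0600040460003d8100010250001d4080018128001805e0007304004600180d0481))) 
(.lf (nat_lit 470417421) (dlOf (nat_lit 2) (nat_lit 0x4d621f020e0ce800044100fd0008038000201d000080e0383))))) 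
(.nd (nat_lit 23) (.nd (nat_lit 20) (.nd (nat_lit 27) 
(.lf (nat_lit 4096393229) (dlOf (nat_lit 2) (nat_lit 0xc0a400cda0200080028100001))) 
(.lf (nat_lit 472514573) (dlOf (nat_lit 2) (nat_lit 0x1858000000040004004000a00089b0182)))) 
(.nd (nat_lit 26) 
(.lf (nat_lit 3493462029) (dlOf (nat_lit 2) (nat_lit 0xa809000100400071504003e0008140a01))) 
(.lf (nat_lit 2755264525) (dlOf (nat_lit 2) (nat_lit 0xa8090001004000cbf04003e0008140a01))))) 
(.nd (nat_lit 22) (.nd (nat_lit 24) 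
(.lf (nat_lit 11141133) (dlOf (nat_lit 2) (nat_lit 0x514a4801b63c900130c7004180000007610018c00400f60018660102))) 
(.lf (nat_lit 27918349) (dlOf (nat_lit 6) (nat_lit 0x5daa00066d4f001f6638002301800db54000cda9e003ecc70004583001c6a8001ab53c008598e00089060034d50002f6a7800d331c001100c0025aa00012d4f00096638002181800500080110002003a0008d40183)))) 
(.nd (nat_lit 20) (.lf (nat_lit 15335437) (dlOf (nat_lit 1) (nat_lit 0x4c00287e0481))) 
(.lf (nat_lit 16384013) (dlOf (nat_lit 1) (nat_lit 0x4002000200088a0182))))))) (.nd (nat_lit 26) 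
(.nd (nat_lit 20) (.nd (nat_lit 21) (.nd (nat_lit 29) (.nd (nat_lit 7) 
(.lf (nat_lit 134873117) (dlOf (nat_lit 2) (nat_lit 0x150208000000800c80080068002004000080d0883))) 
(.lf (nat_lit 55183773) (dlOf (nat_lit 1) (nat_lit 0x4002000200096d4e82)))) (.nd (nat_lit 28) 
(.lf (nat_lit 537526301) (dlOf (nat_lit 2) (nat_lit 0x403100ee30180a0900))) 
(.lf (nat_lit 805961757) (dlOf (nat_lit 3) (nat_lit 0x1680ac019a102006601300000018200a80))))) 
(.nd (nat_lit 9) (.lf (nat_lit 11141149) (dlOf (nat_lit 1) (nat_lit 0x7c800203b20008660482))) 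
(.lf (nat_lit 23724573) (dlOf (nat_lit 1) (nat_lit 0x20008b80d81))))) (.nd (nat_lit 7) 
(.nd (nat_lit 21) (.lf (nat_lit 26869789) (dlOf (nat_lit 1) (nat_lit 0x400400020018c80582))) 
(.lf (nat_lit 3493462045) (dlOf (nat_lit 2) (nat_lit 0x50150002809000140400000006000c0008140b81)))) 
(.lf (nat_lit 35260829) (dlOf (nat_lit 1) (nat_lit 0x8008000800200020009014e83))))) 
(.nd (nat_lit 28) (.nd (nat_lit 20) (.nd (nat_lit 27) 
(.lf (nat_lit 1678376989) (dlOf (nat_lit 3) (nat_lit 0x1680ac01d0602006601300000018200a80))) 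
(.lf (nat_lit 201981981) (dlOf (nat_lit 2) (nat_lit 0x150208000000800c80080068002004000080d0883)))) 
(.lf (nat_lit 2755264541) (dlOf (nat_lit 2) (nat_lit 0x50150002809000140400000006000c0008140b81)))) 
(.nd (nat_lit 27) (.nd (nat_lit 31) 
(.lf (nat_lit 1409941533) (dlOf (nat_lit 2) (nat_lit 0x403100d2e0180a0900))) 
(.lf (nat_lit 3557425181) (dlOf (nat_lit 1) (nat_lit 0x3c000201d800081f0682)))) 
(.lf (nat_lit 470417437) (dlOf (nat_lit 1) (nat_lit 0x8004002200080e0a02)))))))) (.nd (nat_lit 30) 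
(.nd (nat_lit 19) (.nd (nat_lit 4) (.nd (nat_lit 7) (.nd (nat_lit 25) (.nd (nat_lit 8) 
(.lf (nat_lit 4295098413) (dlOf (nat_lit 2) (nat_lit 0x300e000040080020008000400200020008070903))) 
(.lf (nat_lit 805444397) (dlOf (nat_lit 1) (nat_lit 0x5800800080020050000811bc83)))) 
(.nd (nat_lit 20) 
(.lf (nat_lit 52559917) (dlOf (nat_lit 5) (nat_lit 0x956098044b044022d7f80102bfa008f595001c29ec023d4d2000240e0094c13004260880252ff001017f4009ab2a004a53480008c30020304c00fd7f80001504008ec13003f608801faff000f17f40080b2a003f53480003c3001b0008003c00200260009550283))) 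
(.lf (nat_lit 47317037) (dlOf (nat_lit 6) (nat_lit 0xd2f4c00697780001b040030bd3001a5de00002c1000baf4c005d7780000a040020bd300125de0000241000baf4c00617780000804000c00193d0c81))))) 
(.nd (nat_lit 9) (.nd (nat_lit 22) 
(.lf (nat_lit 3154248109) (dlOf (nat_lit 1) (nat_lit 0xc80008028400205740008136e83))) 
(.lf (nat_lit 2755789229) (dlOf (nat_lit 1) (nat_lit 0x6000081b0781)))) 
(.lf (nat_lit 4563536813) (dlOf (nat_lit 2) (nat_lit 0x150148000e40804480080078002000a0008095d03))))) 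
(.nd (nat_lit 27) (.nd (nat_lit 7) (.nd (nat_lit 21) 
(.lf (nat_lit 25296957) (dlOf (nat_lit 1) (nat_lit 0x200080004002002e0008bf0b83))) 
(.lf (nat_lit 52559933) (dlOf (nat_lit 3) (nat_lit 0x98240008b29000aa02000960800082fe4004164e000940600020029550601)))) 
(.lf (nat_lit 3020030397) (dlOf (nat_lit 1) (nat_lit 0x200280e7a81)))) (.nd (nat_lit 8) 
(.nd (nat_lit 9) 
(.lf (nat_lit 5301731389) (dlOf (nat_lit 5) (nat_lit 0x301f800880f8004807400280370004000002b982800200fc004807c002803a001501b80030000015ca14003c07e001e03e000f01d000780dc015c810003c07c002203a001001b802b8c1800100080020002000e0008051683))) 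
(.lf (nat_lit 4496426557) (dlOf (nat_lit 1) (nat_lit 0x20008053781)))) 
(.lf (nat_lit 469899069) (dlOf (nat_lit 4) (nat_lit 0x20584001829c0002e04000c14e000304e8000b4100258274004811c0001e040002001800a101)))))) 
(.nd (nat_lit 21) (.nd (nat_lit 4) (.nd (nat_lit 26) (.nd (nat_lit 7) 
(.lf (nat_lit 805961773) (dlOf (nat_lit 1) (nat_lit 0xc00400160008200d82))) 
(.lf (nat_lit 9046189) (dlOf (nat_lit 1) (nat_lit 0x18008000c002000a0008514903)))) 
(.nd (nat_lit 27) 
(.lf (nat_lit 67764269) (dlOf (nat_lit 1) (nat_lit 0x160008007c002000a00082e0e03))) 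
(.lf (nat_lit 3154772013) (dlOf (nat_lit 4) (nat_lit 0x1408e000510200020510000281000102a00020144000c09e000c02400020110000002800d80080028002001c0008320e03))))) 
(.nd (nat_lit 20) (.nd (nat_lit 26) 
(.lf (nat_lit 805961789) (dlOf (nat_lit 2) (nat_lit 0x7004c0009c04002400200100008201402))) 
(.lf (nat_lit 470417469) (dlOf (nat_lit 1) (nat_lit 0x2c002000200080e0c02)))) 
(.lf (nat_lit 10092605) (dlOf (nat_lit 4) (nat_lit 0xc5a2000370200062d10001b0100251688000000800900080070002000a00085b0703))))) 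
(.nd (nat_lit 20) (.nd (nat_lit 4) (.nd (nat_lit 23) 
(.lf (nat_lit 472514605) (dlOf (nat_lit 1) (nat_lit 0x10004001000089b0982))) 
(.lf (nat_lit 11141165) (dlOf (nat_lit 1) (nat_lit 0x40028660781)))) 
(.lf (nat_lit 32113853) (dlOf (nat_lit 1) (nat_lit 0x400200020008ef2c82)))) (.nd (nat_lit 22) 
(.lf (nat_lit 45744173) (dlOf (nat_lit 2) (nat_lit 0x836b900012019360280))) (.nd (nat_lit 23) 
(.lf (nat_lit 24772653) (dlOf (nat_lit 1) (nat_lit 0x40008bb0d81))) 
(.lf (nat_lit 16384045) (dlOf (nat_lit 1) (nat_lit 0x4004000200088a0702)))))))) (.nd (nat_lit 31) 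
(.nd (nat_lit 28) (.nd (nat_lit 4) (.nd (nat_lit 9) (.nd (nat_lit 27) 
(.lf (nat_lit 5368840237) (dlOf (nat_lit 1) (nat_lit 0x400400020008040382))) 
(.lf (nat_lit 5503057965) (dlOf (nat_lit 1) (nat_lit 0x400400020008040382)))) 
(.lf (nat_lit 1812074029) (dlOf (nat_lit 1) (nat_lit 0x400200020008147182)))) (.nd (nat_lit 7) 
(.lf (nat_lit 5435949117) (dlOf (nat_lit 5) (nat_lit 0x301f800880f80048074002803500040000015ac2800200fc004807c002803a001501a8003000000ad414003c07e001e03e000f01d000780d400ad210003c07c002203a001001a8015a01800100080020002000e0008051683))) 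
(.lf (nat_lit 1744964285) (dlOf (nat_lit 1) (nat_lit 0x400200020008095782))))) (.nd (nat_lit 19) 
(.nd (nat_lit 4) (.nd (nat_lit 20) 
(.lf (nat_lit 1344405549) (dlOf (nat_lit 1) (nat_lit 0x80008760b01))) 
(.lf (nat_lit 1880227885) (dlOf (nat_lit 2) (nat_lit 0x2d838c014c0f60000b04000200087e0281)))) 
(.lf (nat_lit 1342314301) (dlOf (nat_lit 1) (nat_lit 0x18008000c0020002000800a103)))) 
(.nd (nat_lit 4) (.nd (nat_lit 7) 
(.lf (nat_lit 1344929837) (dlOf (nat_lit 2) (nat_lit 0xc0158000000189a0280))) 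
(.lf (nat_lit 1881801901) (dlOf (nat_lit 1) (nat_lit 0x40029042c01)))) 
(.lf (nat_lit 1342832701) (dlOf (nat_lit 1) (nat_lit 0x2c002000200080e0c02)))))) (.nd (nat_lit 29) 
(.nd (nat_lit 4) (.nd (nat_lit 28) (.nd (nat_lit 19) 
(.lf (nat_lit 3288465453) (dlOf (nat_lit 1) (nat_lit 0x20018020581))) 
(.lf (nat_lit 3221880877) (dlOf (nat_lit 1) (nat_lit 0x12000800a4002006200081a0d83)))) 
(.nd (nat_lit 7) 
(.lf (nat_lit 3492413485) (dlOf (nat_lit 1) (nat_lit 0x58008003c002003400080c0d83))) 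
(.lf (nat_lit 3490318765) (dlOf (nat_lit 1) (nat_lit 0x20028004e81))))) (.nd (nat_lit 19) 
(.lf (nat_lit 3288465469) (dlOf (nat_lit 1) (nat_lit 0x60028020701))) 
(.lf (nat_lit 3221880893) (dlOf (nat_lit 3) (nat_lit 0x170150010c07e00c0033004100e80018000000a81400f40800040038003c00b0001441802c00080014002002000081a1403))))) 
(.nd (nat_lit 4) (.nd (nat_lit 8) (.nd (nat_lit 9) 
(.lf (nat_lit 4026662957) (dlOf (nat_lit 1) (nat_lit 0x20018020581))) 
(.lf (nat_lit 3892445741) (dlOf (nat_lit 1) (nat_lit 0x3c00200020008118a82)))) 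
(.lf (nat_lit 3959560493) (dlOf (nat_lit 2) (nat_lit 0x380230002dc0805680080024002004c000811ab83)))) 
(.nd (nat_lit 7) (.lf (nat_lit 4026662973) (dlOf (nat_lit 1) (nat_lit 0x60028020701))) 
(.lf (nat_lit 3758227901) (dlOf (nat_lit 1) (nat_lit 0xc0028107001))))))))) (.nd (nat_lit 5) 
(.nd (nat_lit 30) (.nd (nat_lit 4) (.nd (nat_lit 7) (.nd (nat_lit 19) (.nd (nat_lit 24) 
(.nd (nat_lit 11) (.nd (nat_lit 22) 
(.lf (nat_lit 2416050253) (dlOf (nat_lit 1) (nat_lit 0x1520008020901))) 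
(.lf (nat_lit 12714061) (dlOf (nat_lit 1) (nat_lit 0x200086d0f01)))) 
(.lf (nat_lit 2751600717) (dlOf (nat_lit 1) (nat_lit 0x1a001800a681)))) (.nd (nat_lit 21) 
(.nd (nat_lit 23) 
(.lf (nat_lit 16908365) (dlOf (nat_lit 3) (nat_lit 0x1f06ac00118040254bea00421ab000448288e0180))) 
(.lf (nat_lit 25296973) (dlOf (nat_lit 4) (nat_lit 0x4dc8b0018e1c00009a08015b22c00c78700002302001dc38000110080090008002000200400008bf0d03)))) 
(.nd (nat_lit 9) 
(.lf (nat_lit 52559949) (dlOf (nat_lit 2) (nat_lit 0xb1820005cbf9002e593801329e800c94d0000380a00100029550681))) 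
(.lf (nat_lit 53611085) (dlOf (nat_lit 1) (nat_lit 0xc00195f5281)))))) (.nd (nat_lit 9) 
(.nd (nat_lit 20) 
(.lf (nat_lit 805961805) (dlOf (nat_lit 3) (nat_lit 0x2d80140003002001e00a00015818201500))) 
(.nd (nat_lit 21) (.lf (nat_lit 10092621) (dlOf (nat_lit 1) (nat_lit 0x1bc00085b0901))) 
(.lf (nat_lit 45744205) (dlOf (nat_lit 1) (nat_lit 0x20008001000200040009360683))))) 
(.nd (nat_lit 20) (.lf (nat_lit 38406733) (dlOf (nat_lit 1) (nat_lit 0x400200020009135282))) 
(.lf (nat_lit 1008339533) (dlOf (nat_lit 1) (nat_lit 0x400200340008b55282)))))) (.nd (nat_lit 9) 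
(.nd (nat_lit 8) 
(.lf (nat_lit 4630642893) (dlOf (nat_lit 1) (nat_lit 0x10008000400200020008031803))) 
(.nd (nat_lit 19) (.lf (nat_lit 48368077) (dlOf (nat_lit 1) (nat_lit 0x800400020009404e82))) 
(.lf (nat_lit 46795213) (dlOf (nat_lit 1) (nat_lit 0xb8008003c002005c0009384e83))))) 
(.nd (nat_lit 20) (.nd (nat_lit 11) 
(.lf (nat_lit 32113613) (dlOf (nat_lit 1) (nat_lit 0x400400020008ef2882))) 
(.lf (nat_lit 4563536845) (dlOf (nat_lit 1) (nat_lit 0x48008003400200080008095d83)))) 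
(.nd (nat_lit 8) (.lf (nat_lit 20058829) (dlOf (nat_lit 1) (nat_lit 0x80080004002000200089d8c83))) 
(.lf (nat_lit 38929357) (dlOf (nat_lit 1) (nat_lit 0x400400020009192882))))))) (.nd (nat_lit 21) 
(.nd (nat_lit 8) (.nd (nat_lit 7) (.nd (nat_lit 19) 
(.lf (nat_lit 738328669) (dlOf (nat_lit 4) (nat_lit 0x2e0148002ba0400080a40015902005a052000ac018090080))) 
(.lf (nat_lit 537526365) (dlOf (nat_lit 5) (nat_lit 0x2051000c01f800068100040144003807e000c0320008003800060200068144003007e0016032000900380002c200078144000407e001a032000d003800028200088008003c002000a00080a1203)))) 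
(.lf (nat_lit 805444829) (dlOf (nat_lit 1) (nat_lit 0x14000811c481)))) (.nd (nat_lit 9) 
(.nd (nat_lit 11) (.lf (nat_lit 469898717) (dlOf (nat_lit 1) (nat_lit 0x1400400040008009b02))) 
(.lf (nat_lit 805440989) (dlOf (nat_lit 1) (nat_lit 0x58008000800200500008116d83)))) 
(.lf (nat_lit 537002973) (dlOf (nat_lit 1) (nat_lit 0x400400020018002882))))) (.nd (nat_lit 19) 
(.nd (nat_lit 20) 
(.lf (nat_lit 52559965) (dlOf (nat_lit 8) (nat_lit 0x52304c0003a0404fd82600e2bfc00715950000701805db04c0003604007d8260038bfc001d59500006018030b048015182200ccbfb00535fd0033aca400b165000b8a7b003453480002c400042ca4000120400158240008bfb0006594800000180420008010c002002e0009550883))) 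
(.nd (nat_lit 22) (.lf (nat_lit 3276893) (dlOf (nat_lit 1) (nat_lit 0x19800401080008200002))) 
(.lf (nat_lit 24248413) (dlOf (nat_lit 2) (nat_lit 0x16d140002a0200040018b91201))))) 
(.nd (nat_lit 12) (.lf (nat_lit 32112733) (dlOf (nat_lit 1) (nat_lit 0x400200020008ef0082))) 
(.lf (nat_lit 20582493) (dlOf (nat_lit 1) (nat_lit 0x80080004002000200089d7d83))))))) 
(.nd (nat_lit 26) (.nd (nat_lit 28) (.nd (nat_lit 4) (.nd (nat_lit 8) 
(.lf (nat_lit 3221880909) (dlOf (nat_lit 1) (nat_lit 0x3c002000c00081a1502))) 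
(.lf (nat_lit 1208090957) (dlOf (nat_lit 1) (nat_lit 0x1800400020008090d02)))) (.nd (nat_lit 27) 
(.lf (nat_lit 5368840285) (dlOf (nat_lit 1) (nat_lit 0x8008002000200040008040703))) 
(.lf (nat_lit 5503058013) (dlOf (nat_lit 1) (nat_lit 0x8008002000200040008040703))))) 
(.nd (nat_lit 29) (.nd (nat_lit 4) (.nd (nat_lit 7) 
(.lf (nat_lit 1345979469) (dlOf (nat_lit 1) (nat_lit 0x140018e22881))) 
(.lf (nat_lit 3491889613) (dlOf (nat_lit 1) (nat_lit 0x400200020008090a02)))) 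
(.lf (nat_lit 1346503005) (dlOf (nat_lit 1) (nat_lit 0x400400060008f77102)))) (.nd (nat_lit 20) 
(.nd (nat_lit 27) (.lf (nat_lit 4026662989) (dlOf (nat_lit 1) (nat_lit 0x1400200060008020902))) 
(.lf (nat_lit 2013397069) (dlOf (nat_lit 1) (nat_lit 0x5e0008040501)))) 
(.lf (nat_lit 1880227917) (dlOf (nat_lit 1) (nat_lit 0x4002000200087e0682)))))) (.nd (nat_lit 11) 
(.nd (nat_lit 4) (.nd (nat_lit 7) (.nd (nat_lit 19) 
(.lf (nat_lit 1140981837) (dlOf (nat_lit 1) (nat_lit 0x5e0008040501))) 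
(.lf (nat_lit 1678377037) (dlOf (nat_lit 1) (nat_lit 0x40028201881)))) 
(.lf (nat_lit 3959556045) (dlOf (nat_lit 1) (nat_lit 0xe0008114481)))) (.nd (nat_lit 8) 
(.lf (nat_lit 1409941597) (dlOf (nat_lit 5) (nat_lit 0x2051000c01f8000c0100040144003807e000c03200080038000b8200068144003007e00160320009003800084200078144000407e001a032000d003800080200088008003c002000a00080a1203))) 
(.lf (nat_lit 1946288477) (dlOf (nat_lit 1) (nat_lit 0x40008000400200140008014e83))))) 
(.nd (nat_lit 7) (.nd (nat_lit 8) (.nd (nat_lit 27) 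
(.lf (nat_lit 1677858893) (dlOf (nat_lit 3) (nat_lit 0x5404e0011681000c02b0008740800c00080008002000e000811a683))) 
(.lf (nat_lit 3959560269) (dlOf (nat_lit 1) (nat_lit 0x1880040030000811a682)))) 
(.lf (nat_lit 6241258317) (dlOf (nat_lit 1) (nat_lit 0x5800280d5c01)))) (.nd (nat_lit 4) 
(.lf (nat_lit 6377573069) (dlOf (nat_lit 1) (nat_lit 0x800180e5881))) 
(.lf (nat_lit 6377573085) (dlOf (nat_lit 1) (nat_lit 0x200280e5901)))))))) (.nd (nat_lit 30) 
(.nd (nat_lit 9) (.nd (nat_lit 26) (.nd (nat_lit 4) (.nd (nat_lit 8) 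
(.lf (nat_lit 537526381) (dlOf (nat_lit 1) (nat_lit 0x100080010002000400080a1503))) 
(.nd (nat_lit 19) 
(.lf (nat_lit 4697751917) (dlOf (nat_lit 7) (nat_lit 0x480bc0002804004c05e0001302000c02f00020168001007c0000a0c002005e000802d000800f8000101800500bc003005a0000304001002f00040168001007c000040c009c00400be0018090f82))) 
(.lf (nat_lit 60424557) (dlOf (nat_lit 1) (nat_lit 0x60029857601))))) (.nd (nat_lit 7) 
(.lf (nat_lit 6576802173) (dlOf (nat_lit 1) (nat_lit 0x400400020008144e82))) 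
(.lf (nat_lit 20057341) (dlOf (nat_lit 1) (nat_lit 0x10008000c002000200089d6603))))) 
(.nd (nat_lit 28) (.nd (nat_lit 4) 
(.lf (nat_lit 738328813) (dlOf (nat_lit 1) (nat_lit 0x20018090a81))) (.nd (nat_lit 11) 
(.lf (nat_lit 738328701) (dlOf (nat_lit 2) (nat_lit 0x710340032819801900000000006000c0018090281))) 
(.lf (nat_lit 4362209405) (dlOf (nat_lit 1) (nat_lit 0x1380008004781))))) (.nd (nat_lit 10) 
(.nd (nat_lit 11) (.lf (nat_lit 5167513725) (dlOf (nat_lit 1) (nat_lit 0x220008070c81))) 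
(.lf (nat_lit 469895293) (dlOf (nat_lit 1) (nat_lit 0x3000400360008004782)))) 
(.lf (nat_lit 2617382013) (dlOf (nat_lit 1) (nat_lit 0x10004000200080a9502)))))) (.nd (nat_lit 4) 
(.nd (nat_lit 7) (.nd (nat_lit 8) 
(.lf (nat_lit 8524397) (dlOf (nat_lit 2) (nat_lit 0x3cdfa00a300200040008518981))) 
(.lf (nat_lit 738331501) (dlOf (nat_lit 1) (nat_lit 0x2460018095c01)))) (.nd (nat_lit 28) 
(.lf (nat_lit 671221485) (dlOf (nat_lit 1) (nat_lit 0xa0008000800200140008143b03))) 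
(.lf (nat_lit 3087140589) (dlOf (nat_lit 2) (nat_lit 0x280000000502002e0018143b01))))) 
(.nd (nat_lit 8) (.nd (nat_lit 19) 
(.lf (nat_lit 5100406397) (dlOf (nat_lit 2) (nat_lit 0x3200900200020000b4100008008000800200060008053983))) 
(.nd (nat_lit 20) (.lf (nat_lit 9045629) (dlOf (nat_lit 2) (nat_lit 0x843cf00000018513980))) 
(.lf (nat_lit 43648637) (dlOf (nat_lit 2) (nat_lit 0x64ab000168192a3980))))) (.nd (nat_lit 19) 
(.lf (nat_lit 8525693) (dlOf (nat_lit 1) (nat_lit 0x80020002000851a302))) 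
(.lf (nat_lit 8001405) (dlOf (nat_lit 1) (nat_lit 0x40020002000851a302))))))) (.nd (nat_lit 4) 
(.nd (nat_lit 28) (.nd (nat_lit 8) (.nd (nat_lit 9) (.nd (nat_lit 27) 
(.lf (nat_lit 5368840301) (dlOf (nat_lit 1) (nat_lit 0x134004003e0008040b82))) 
(.lf (nat_lit 5503058029) (dlOf (nat_lit 1) (nat_lit 0x134004003e0008040b82)))) 
(.lf (nat_lit 1610745453) (dlOf (nat_lit 2) (nat_lit 0x1681680008e04001000200160008093902)))) 
(.nd (nat_lit 7) 
(.lf (nat_lit 3221364077) (dlOf (nat_lit 1) (nat_lit 0x80080058002000a000811c903))) 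
(.lf (nat_lit 1073873389) (dlOf (nat_lit 1) (nat_lit 0x460028017d01))))) (.nd (nat_lit 9) 
(.nd (nat_lit 7) (.nd (nat_lit 8) 
(.lf (nat_lit 1409941613) (dlOf (nat_lit 1) (nat_lit 0x100080010002000400080a1503))) 
(.lf (nat_lit 1346503021) (dlOf (nat_lit 1) (nat_lit 0x1920008f77601)))) 
(.lf (nat_lit 1543638253) (dlOf (nat_lit 1) (nat_lit 0x20028146501)))) (.nd (nat_lit 7) 
(.nd (nat_lit 8) (.lf (nat_lit 5637277293) (dlOf (nat_lit 1) (nat_lit 0xc004000600080d3902))) 
(.lf (nat_lit 6241258349) (dlOf (nat_lit 1) (nat_lit 0x4004000200080d5c02)))) 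
(.lf (nat_lit 4093774573) (dlOf (nat_lit 1) (nat_lit 0x20028005a01)))))) (.nd (nat_lit 7) 
(.nd (nat_lit 8) (.nd (nat_lit 9) 
(.lf (nat_lit 1346502781) (dlOf (nat_lit 1) (nat_lit 0x1b800805a800200180008f72003))) 
(.nd (nat_lit 10) (.lf (nat_lit 1744964221) (dlOf (nat_lit 1) (nat_lit 0x400200020008095402))) 
(.lf (nat_lit 3355580029) (dlOf (nat_lit 1) (nat_lit 0x200180a9d81))))) (.nd (nat_lit 10) 
(.nd (nat_lit 11) (.lf (nat_lit 1610744189) (dlOf (nat_lit 2) (nat_lit 0x24051000e3818091000))) 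
(.lf (nat_lit 3556903293) (dlOf (nat_lit 1) (nat_lit 0x4c00280d4e81)))) 
(.lf (nat_lit 3490323837) (dlOf (nat_lit 1) (nat_lit 0x2002800c901))))) (.nd (nat_lit 8) 
(.nd (nat_lit 10) (.nd (nat_lit 19) 
(.lf (nat_lit 1208090877) (dlOf (nat_lit 2) (nat_lit 0x7009c000404c001600400880028090a81))) 
(.lf (nat_lit 1343881469) (dlOf (nat_lit 1) (nat_lit 0x34002001a0008370682)))) 
(.lf (nat_lit 1610745085) (dlOf (nat_lit 3) (nat_lit 0x3a035000e00e80007c1000480740003604001800200040008092f02)))) 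
(.nd (nat_lit 11) (.lf (nat_lit 3355574781) (dlOf (nat_lit 1) (nat_lit 0x400280a1481))) 
(.lf (nat_lit 1677859325) (dlOf (nat_lit 1) (nat_lit 0x800800040020002000811b283)))))))))) 
(.nd (nat_lit 4) (.nd (nat_lit 19) (.nd (nat_lit 6) (.nd (nat_lit 5) (.nd (nat_lit 30) 
(.nd (nat_lit 26) (.nd (nat_lit 20) (.nd (nat_lit 8) (.nd (nat_lit 22) 
(.lf (nat_lit 6442844173) (dlOf (nat_lit 2) (nat_lit 0x9c202a022d0098000441022c800808940020a0600081d0383))) 
(.lf (nat_lit 29753357) (dlOf (nat_lit 1) (nat_lit 0x400200080008e30002)))) 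
(.lf (nat_lit 8787213) (dlOf (nat_lit 1) (nat_lit 0x8008000400200020008519683)))) (.nd (nat_lit 7) 
(.nd (nat_lit 22) (.lf (nat_lit 9830413) (dlOf (nat_lit 1) (nat_lit 0x900080028002000e0008580003))) 
(.lf (nat_lit 55967757) (dlOf (nat_lit 1) (nat_lit 0x800800e400200340009700183)))) 
(.lf (nat_lit 11927693) (dlOf (nat_lit 2) (nat_lit 0x3034000c40e00071c040030d4e00100000001d8586c0100))))) 
(.nd (nat_lit 7) (.nd (nat_lit 27) (.nd (nat_lit 31) 
(.lf (nat_lit 4362469389) (dlOf (nat_lit 1) (nat_lit 0x60018090001))) 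
(.lf (nat_lit 6509953037) (dlOf (nat_lit 5) (nat_lit 0x60260009d8100060130004e4080088098001b204002c04c000d802006c0028170481)))) 
(.nd (nat_lit 9) (.lf (nat_lit 738590733) (dlOf (nat_lit 1) (nat_lit 0x200180b0001))) 
(.lf (nat_lit 201720333) (dlOf (nat_lit 1) (nat_lit 0x400400460008090d82))))) (.nd (nat_lit 8) 
(.lf (nat_lit 604373133) (dlOf (nat_lit 2) (nat_lit 0xf0038003e00800700080050002003c00081a0483))) 
(.lf (nat_lit 335939981) (dlOf (nat_lit 1) (nat_lit 0x1000800a0002000200080e4e83)))))) 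
(.nd (nat_lit 28) (.nd (nat_lit 27) (.nd (nat_lit 26) (.nd (nat_lit 32) 
(.lf (nat_lit 1611005965) (dlOf (nat_lit 1) (nat_lit 0x200180b0001))) 
(.lf (nat_lit 5905973261) (dlOf (nat_lit 5) (nat_lit 0x60250009d8100060128004e4080088094001b204002c04a000d802006c0028170481)))) 
(.lf (nat_lit 3288727565) (dlOf (nat_lit 3) (nat_lit 0x80b800cc05a0007c04002202d000168180d0480)))) 
(.nd (nat_lit 29) 
(.lf (nat_lit 3355836429) (dlOf (nat_lit 23) (nat_lit 0x8d80c80009404030c066067a0320155018806580b000086100a54064018002c000210202140190001040800880c80008004069c0640003f0203540320001f0101ab0190000f40803980cc00140640536031001f009014500440007614011c06402d80310001d0200060188000880800700c40003e0400c80620001e0200600310000c8101aa01880005c0803a80c805d4062000150402d80310000a01016701880004c080bd80c4000240401fc06605c40320000882001d0188000280809100c80000004005c00400020018120102))) 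
(.lf (nat_lit 3892707341) (dlOf (nat_lit 1) (nat_lit 0x10200081d0481))))) (.nd (nat_lit 26) 
(.nd (nat_lit 20) (.nd (nat_lit 29) 
(.lf (nat_lit 5637537805) (dlOf (nat_lit 1) (nat_lit 0x40008001000200020008100003))) 
(.lf (nat_lit 4026925069) (dlOf (nat_lit 3) (nat_lit 0x80b800cc05a0007c04002202d000140180d0480)))) 
(.lf (nat_lit 1343619085) (dlOf (nat_lit 9) (nat_lit 0x442c2002209d0011047002e90180038584002013a000a08e005cf03000f0b080078274002811c00b9106000e161000804e800282380171e0c00342c2001a09d000e047002d10180058584004813a000408e0059f0300010b080008274016640800302c2001209d0005047002cc41800c80080014002000800082c0283)))) 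
(.nd (nat_lit 27) 
(.lf (nat_lit 6241517581) (dlOf (nat_lit 1) (nat_lit 0x40008001000200020008100003))) 
(.lf (nat_lit 5838864397) (dlOf (nat_lit 2) (nat_lit 0x9c202a022d0098000441022c800808940020a0600081d0383))))))) 
(.nd (nat_lit 28) (.nd (nat_lit 22) (.nd (nat_lit 7) (.nd (nat_lit 20) (.nd (nat_lit 29) 
(.lf (nat_lit 3355836461) (dlOf (nat_lit 7) (nat_lit 0x802f00c250100140178061240800100bc02fd204000805e017e102000a02f00be68100830190000000801580080028002009a0008120783))) 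
(.lf (nat_lit 3892707373) (dlOf (nat_lit 3) (nat_lit 0x5e00a0027804f00f3023808801180400088019604300f301c006e80c803b006002ce0230027011003b8070043002a0120014001900200015078053011c029808c014a044007c021804f80c0000841400d0004000c00181d0682)))) 
(.lf (nat_lit 9830445) (dlOf (nat_lit 4) (nat_lit 0xa3cc000170100014a78000b0080056138002ef98000110400020008580381)))) 
(.nd (nat_lit 8) (.lf (nat_lit 36045997) (dlOf (nat_lit 1) (nat_lit 0x80009012c01))) 
(.lf (nat_lit 4362469805) (dlOf (nat_lit 1) (nat_lit 0x20008090781))))) (.nd (nat_lit 20) 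
(.nd (nat_lit 23) (.lf (nat_lit 54919213) (dlOf (nat_lit 1) (nat_lit 0x8008000800200aa0009670403))) 
(.lf (nat_lit 12976173) (dlOf (nat_lit 1) (nat_lit 0x2400186f0d81)))) 
(.lf (nat_lit 55967789) (dlOf (nat_lit 1) (nat_lit 0x8008000c00200020009700983))))) 
(.nd (nat_lit 27) (.nd (nat_lit 7) (.nd (nat_lit 26) 
(.lf (nat_lit 2416312365) (dlOf (nat_lit 1) (nat_lit 0x200180d0b01))) 
(.lf (nat_lit 1409679405) (dlOf (nat_lit 2) (nat_lit 0x100000005004003000400180008070902)))) 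
(.lf (nat_lit 335940013) (dlOf (nat_lit 1) (nat_lit 0x800180e4e81)))) (.nd (nat_lit 20) 
(.nd (nat_lit 26) (.lf (nat_lit 2550530093) (dlOf (nat_lit 1) (nat_lit 0x200180d0b01))) 
(.nd (nat_lit 29) 
(.lf (nat_lit 2617638957) (dlOf (nat_lit 1) (nat_lit 0x10008002c00200120008110683))) 
(.lf (nat_lit 3154509869) (dlOf (nat_lit 3) (nat_lit 0x400070022403201390118077008804800380292015000b0020001503800d011c0008a040090004001c00181f0682))))) 
(.lf (nat_lit 471203885) (dlOf (nat_lit 1) (nat_lit 0xc004000600082c0802))))))) (.nd (nat_lit 8) 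
(.nd (nat_lit 29) (.nd (nat_lit 22) (.nd (nat_lit 26) (.nd (nat_lit 20) 
(.lf (nat_lit 2490445) (dlOf (nat_lit 1) (nat_lit 0x40028160f01))) 
(.lf (nat_lit 9830477) (dlOf (nat_lit 1) (nat_lit 0x4000400080008580502)))) (.nd (nat_lit 27) 
(.lf (nat_lit 3288727629) (dlOf (nat_lit 4) (nat_lit 0x808000052020460020001800f800134100180080003003e0004c04000400280d0d01))) 
(.lf (nat_lit 4496687181) (dlOf (nat_lit 1) (nat_lit 0xc0028120501))))) (.nd (nat_lit 5) 
(.nd (nat_lit 23) (.lf (nat_lit 54919245) (dlOf (nat_lit 2) (nat_lit 0x69cd00000019670600))) 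
(.lf (nat_lit 29753421) (dlOf (nat_lit 6) (nat_lit 0x87c8d0002c808002ea3c022f51201019ba00b0c8d804e6468001f216000b8f80005c790014e3c4009310a0069880005cc3f802f56b0020ab5600f3468002a9dd00033da40021e180008924004da8f0031d44804a66e802bb236014591a0094c858025620000f30fe00437190026ad60045d6ac00e5ed2013af0c000440d006dd478036ea2401fb374014591b0099c8d001d642c00671e4001f8f10050c400011e1fc00aeb5800fb5ab001ea340001d1740179ed2010ef0c0004310004ad448022e46c00df23400058800003ad6001256ac0010a1803b800400620018e30182)))) 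
(.lf (nat_lit 55967853) (dlOf (nat_lit 1) (nat_lit 0x40029702481))))) (.nd (nat_lit 26) 
(.nd (nat_lit 28) (.nd (nat_lit 7) 
(.lf (nat_lit 1611006029) (dlOf (nat_lit 1) (nat_lit 0x30004001600080b0602))) 
(.lf (nat_lit 2818965709) (dlOf (nat_lit 1) (nat_lit 0x400400020008130482)))) (.nd (nat_lit 21) 
(.lf (nat_lit 4026925133) (dlOf (nat_lit 4) (nat_lit 0x80800004b020460020001800f800118100180080003003e0004504000400280d0d01))) 
(.lf (nat_lit 1881538637) (dlOf (nat_lit 2) (nat_lit 0x903d000000080278008005000200700008f40683))))) 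
(.nd (nat_lit 5) (.lf (nat_lit 738590797) (dlOf (nat_lit 1) (nat_lit 0x30004001600080b0602))) 
(.nd (nat_lit 21) (.lf (nat_lit 4228251757) (dlOf (nat_lit 1) (nat_lit 0x80018090001))) 
(.lf (nat_lit 2753953901) (dlOf (nat_lit 2) (nat_lit 0x6021c0001c040014002002000080a1502))))))) 
(.nd (nat_lit 5) (.nd (nat_lit 7) (.nd (nat_lit 9) (.nd (nat_lit 22) 
(.lf (nat_lit 11927885) (dlOf (nat_lit 1) (nat_lit 0x4002000600086c0602))) 
(.lf (nat_lit 58065229) (dlOf (nat_lit 8) (nat_lit 0xc4320005a18c000ec0800210c800075020010864000388100084320001c0080042190000c40400210c800061020012864000000197b8900)))) 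
(.lf (nat_lit 20319053) (dlOf (nat_lit 1) (nat_lit 0x4002000200089d5c02)))) (.nd (nat_lit 11) 
(.lf (nat_lit 21365197) (dlOf (nat_lit 1) (nat_lit 0x20018a37101))) 
(.lf (nat_lit 473303501) (dlOf (nat_lit 1) (nat_lit 0x20018e94e81))))) (.nd (nat_lit 9) 
(.nd (nat_lit 11) (.nd (nat_lit 26) 
(.lf (nat_lit 134611437) (dlOf (nat_lit 1) (nat_lit 0x1c0018090d01))) 
(.lf (nat_lit 201720301) (dlOf (nat_lit 1) (nat_lit 0x1c0018090d01)))) 
(.lf (nat_lit 1745226221) (dlOf (nat_lit 1) (nat_lit 0x3400180e4f01)))) 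
(.lf (nat_lit 38142957) (dlOf (nat_lit 1) (nat_lit 0x60800202740009132882))))))) (.nd (nat_lit 7) 
(.nd (nat_lit 6) (.nd (nat_lit 21) (.nd (nat_lit 5) (.nd (nat_lit 26) (.nd (nat_lit 22) 
(.nd (nat_lit 27) (.nd (nat_lit 28) 
(.lf (nat_lit 917517) (dlOf (nat_lit 1) (nat_lit 0x28008005000200180008030483))) 
(.lf (nat_lit 1343094797) (dlOf (nat_lit 1) (nat_lit 0xa0018150001)))) 
(.lf (nat_lit 2819489805) (dlOf (nat_lit 1) (nat_lit 0x380080020002001200082b0283)))) 
(.lf (nat_lit 5111821) (dlOf (nat_lit 1) (nat_lit 0x40028310101)))) (.nd (nat_lit 28) 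
(.lf (nat_lit 68026381) (dlOf (nat_lit 1) (nat_lit 0x8008006c002007000083a0103))) 
(.lf (nat_lit 3557687309) (dlOf (nat_lit 1) (nat_lit 0x380080020002001200082b0283))))) 
(.nd (nat_lit 23) (.nd (nat_lit 24) 
(.lf (nat_lit 917549) (dlOf (nat_lit 1) (nat_lit 0x40028030c01))) 
(.lf (nat_lit 17694765) (dlOf (nat_lit 3) (nat_lit 0x94958000140801124ac00000040004004005a00188f0e02)))) 
(.lf (nat_lit 59637805) (dlOf (nat_lit 1) (nat_lit 0x18008000800200020009820283))))) 
(.nd (nat_lit 8) (.nd (nat_lit 5) (.nd (nat_lit 10) 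
(.lf (nat_lit 19792397) (dlOf (nat_lit 1) (nat_lit 0x4004000200089d1482))) 
(.lf (nat_lit 2754481677) (dlOf (nat_lit 1) (nat_lit 0x1c00180f7081)))) 
(.lf (nat_lit 19796525) (dlOf (nat_lit 1) (nat_lit 0x8008001c002000600089d8983)))) 
(.nd (nat_lit 10) (.lf (nat_lit 19796237) (dlOf (nat_lit 1) (nat_lit 0x1c00289d8081))) 
(.lf (nat_lit 8262925) (dlOf (nat_lit 1) (nat_lit 0x20008519681)))))) (.nd (nat_lit 8) 
(.nd (nat_lit 11) (.nd (nat_lit 21) (.nd (nat_lit 22) 
(.lf (nat_lit 917581) (dlOf (nat_lit 4) (nat_lit 0x1a0f8800c85d0004c15e00220a3000058400020f88000240801e07c401002e80000004003e0028030f81))) 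
(.lf (nat_lit 13500493) (dlOf (nat_lit 1) (nat_lit 0x12400200260008730d02)))) (.nd (nat_lit 20) 
(.lf (nat_lit 4096655437) (dlOf (nat_lit 1) (nat_lit 0x400400020008151602))) 
(.lf (nat_lit 4063309) (dlOf (nat_lit 8) (nat_lit 0x70000000140100370b0001b01c40004e0800980000002502005e160002d071801e81c400e80ca0002208002607100010328000841001f8000000400400fc2bc00820d90036000000000180118008015400201900008270d03))))) 
(.nd (nat_lit 5) (.lf (nat_lit 473827917) (dlOf (nat_lit 1) (nat_lit 0x11800400020008fa5282))) 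
(.lf (nat_lit 19795053) (dlOf (nat_lit 1) (nat_lit 0x80080004002000200089d6083))))) 
(.nd (nat_lit 5) (.nd (nat_lit 12) 
(.lf (nat_lit 19794765) (dlOf (nat_lit 1) (nat_lit 0x4002000200089d5c02))) 
(.lf (nat_lit 19798861) (dlOf (nat_lit 1) (nat_lit 0x4002000200089dbc82)))) (.nd (nat_lit 9) 
(.lf (nat_lit 19796333) (dlOf (nat_lit 1) (nat_lit 0x180080018002000800089d8383))) 
(.nd (nat_lit 11) (.lf (nat_lit 19796845) (dlOf (nat_lit 1) (nat_lit 0x4004000400089d8f82))) 
(.lf (nat_lit 19794797) (dlOf (nat_lit 1) (nat_lit 0x80080004002000200089d5c03)))))))) 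
(.nd (nat_lit 11) (.nd (nat_lit 9) (.nd (nat_lit 20) (.nd (nat_lit 6) 
(.lf (nat_lit 19796365) (dlOf (nat_lit 1) (nat_lit 0x400289d8381))) (.nd (nat_lit 12) 
(.lf (nat_lit 23986381) (dlOf (nat_lit 1) (nat_lit 0x2000400020008b80482))) 
(.lf (nat_lit 19796173) (dlOf (nat_lit 2) (nat_lit 0x630540004c040008002000600089d8002))))) 
(.nd (nat_lit 5) (.nd (nat_lit 8) 
(.lf (nat_lit 5773328589) (dlOf (nat_lit 1) (nat_lit 0x8002000200080c1802))) 
(.lf (nat_lit 8259021) (dlOf (nat_lit 1) (nat_lit 0x78008000400200080008513603)))) 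
(.lf (nat_lit 48104621) (dlOf (nat_lit 3) (nat_lit 0xc67e0002c81000633f0001600800500080018002000a0009402c03))))) 
(.nd (nat_lit 10) (.nd (nat_lit 5) (.nd (nat_lit 8) 
(.lf (nat_lit 19796685) (dlOf (nat_lit 1) (nat_lit 0x80080004002000200089d8c83))) 
(.lf (nat_lit 472777677) (dlOf (nat_lit 6) (nat_lit 0x1e0b2805a100800a059402ce00400642ca014ea020054165009a20100020b2800000080038008000800200060008b02883)))) 
(.lf (nat_lit 19792621) (dlOf (nat_lit 1) (nat_lit 0x80080004002000200089d2103)))) (.nd (nat_lit 6) 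
(.lf (nat_lit 19797677) (dlOf (nat_lit 1) (nat_lit 0x4002000200089da002))) (.nd (nat_lit 12) 
(.lf (nat_lit 8259309) (dlOf (nat_lit 1) (nat_lit 0x160018513b01))) 
(.lf (nat_lit 19797741) (dlOf (nat_lit 1) (nat_lit 0x100080004002000400089da003))))))) 
(.nd (nat_lit 5) (.nd (nat_lit 24) (.nd (nat_lit 20) 
(.lf (nat_lit 49154445) (dlOf (nat_lit 1) (nat_lit 0x20009464e81))) (.nd (nat_lit 25) 
(.lf (nat_lit 1008601485) (dlOf (nat_lit 1) (nat_lit 0x400400020008e34e82))) 
(.lf (nat_lit 35522957) (dlOf (nat_lit 1) (nat_lit 0x8008000400200020009014e83))))) 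
(.nd (nat_lit 8) (.lf (nat_lit 19799181) (dlOf (nat_lit 1) (nat_lit 0x80080004002000200089dc203))) 
(.nd (nat_lit 10) (.lf (nat_lit 32377229) (dlOf (nat_lit 1) (nat_lit 0x400200020008ef4e82))) 
(.lf (nat_lit 19795341) (dlOf (nat_lit 2) (nat_lit 0x82e1600255878000641000700080014002000e00089d6c83)))))) 
(.nd (nat_lit 8) (.nd (nat_lit 9) (.nd (nat_lit 6) 
(.lf (nat_lit 8259757) (dlOf (nat_lit 1) (nat_lit 0x20008514901))) 
(.lf (nat_lit 2754481389) (dlOf (nat_lit 4) (nat_lit 0x1c04500230058000d81000301ac00940ce00080660003022801c010400e807e008c02e006f01380638088010c038010201b003200a8000b860012019c006c0cc008205d0020022801d8104006807e018802e00c30168036809c00bc04c004001c003600a8000b4600318008018c002030e00080f6503)))) 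
(.nd (nat_lit 10) (.lf (nat_lit 46009005) (dlOf (nat_lit 1) (nat_lit 0x1000400100009385682))) 
(.lf (nat_lit 2754481837) (dlOf (nat_lit 2) (nat_lit 0x4011000060040014002000200080f7282))))) 
(.nd (nat_lit 12) (.lf (nat_lit 36571565) (dlOf (nat_lit 1) (nat_lit 0x50002001a0009074e82))) 
(.lf (nat_lit 19798445) (dlOf (nat_lit 1) (nat_lit 0x400089daf81))))))))) (.nd (nat_lit 21) 
(.nd (nat_lit 5) (.nd (nat_lit 28) (.nd (nat_lit 6) (.nd (nat_lit 26) (.nd (nat_lit 19) 
(.nd (nat_lit 30) (.nd (nat_lit 7) (.nd (nat_lit 22) 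
(.lf (nat_lit 6442844189) (dlOf (nat_lit 1) (nat_lit 0x78008000c002002a00081d0a03))) 
(.lf (nat_lit 12976157) (dlOf (nat_lit 1) (nat_lit 0x2600186f0581)))) 
(.lf (nat_lit 51774621) (dlOf (nat_lit 2) (nat_lit 0x123640008f36000469300044039512b80)))) 
(.nd (nat_lit 27) 
(.lf (nat_lit 1611005981) (dlOf (nat_lit 2) (nat_lit 0x2d80a001a4032000178280b0100))) 
(.lf (nat_lit 3355836445) (dlOf (nat_lit 3) (nat_lit 0x10c05c001ad02000a02e00000018120480))))) 
(.nd (nat_lit 20) (.lf (nat_lit 917533) (dlOf (nat_lit 2) (nat_lit 0x616a000f3018030900))) 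
(.lf (nat_lit 39714845) (dlOf (nat_lit 2) (nat_lit 0x6290c002d4720003b04000200191d0101))))) 
(.nd (nat_lit 29) (.nd (nat_lit 7) 
(.lf (nat_lit 3288727581) (dlOf (nat_lit 2) (nat_lit 0x28036007d0190000001000e80080034002005400080d0883))) 
(.lf (nat_lit 4362469789) (dlOf (nat_lit 1) (nat_lit 0x20008090781)))) (.nd (nat_lit 22) 
(.lf (nat_lit 738590749) (dlOf (nat_lit 2) (nat_lit 0x2d80a001a4032000178280b0100))) 
(.lf (nat_lit 2756050973) (dlOf (nat_lit 1) (nat_lit 0x400181e0581)))))) (.nd (nat_lit 8) 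
(.nd (nat_lit 7) (.nd (nat_lit 10) 
(.lf (nat_lit 9830493) (dlOf (nat_lit 2) (nat_lit 0x15d20800168ec00333b8001d9780004cb9800ce0c40006818013c00400500008580702))) 
(.lf (nat_lit 51774557) (dlOf (nat_lit 1) (nat_lit 0x580019512901)))) 
(.lf (nat_lit 14024925) (dlOf (nat_lit 1) (nat_lit 0x28008001c00200100008750583)))) 
(.nd (nat_lit 24) (.nd (nat_lit 27) 
(.lf (nat_lit 4295360861) (dlOf (nat_lit 1) (nat_lit 0x80080018002000200081a0683))) 
(.lf (nat_lit 4429578589) (dlOf (nat_lit 1) (nat_lit 0x80080018002000200081a0683)))) 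
(.nd (nat_lit 7) 
(.lf (nat_lit 21365085) (dlOf (nat_lit 2) (nat_lit 0x8c7380006c0800300080030002000c0008a34e83))) 
(.lf (nat_lit 50725853) (dlOf (nat_lit 1) (nat_lit 0xc002001000094c2882))))))) (.nd (nat_lit 30) 
(.nd (nat_lit 26) (.nd (nat_lit 27) 
(.lf (nat_lit 4563795997) (dlOf (nat_lit 1) (nat_lit 0x600280e0581))) 
(.lf (nat_lit 4698013725) (dlOf (nat_lit 2) (nat_lit 0x301980005408005000800f0002005000080e0583)))) 
(.nd (nat_lit 20) 
(.lf (nat_lit 2617638941) (dlOf (nat_lit 2) (nat_lit 0x398000003e404002400200140008110482))) 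
(.lf (nat_lit 1008074781) (dlOf (nat_lit 1) (nat_lit 0x10004000600189b0602))))) (.nd (nat_lit 19) 
(.nd (nat_lit 20) (.nd (nat_lit 22) 
(.lf (nat_lit 4026925085) (dlOf (nat_lit 2) (nat_lit 0x28036007d0190000001000e80080034002005400080d0883))) 
(.lf (nat_lit 3494248477) (dlOf (nat_lit 1) (nat_lit 0x1200080008002003400081e0583)))) 
(.lf (nat_lit 1343619101) (dlOf (nat_lit 1) (nat_lit 0x2000082c0681)))) (.nd (nat_lit 6) 
(.lf (nat_lit 1343094813) (dlOf (nat_lit 1) (nat_lit 0x88004000e0018150002))) 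
(.lf (nat_lit 4095607773) (dlOf (nat_lit 1) (nat_lit 0x200280e2881))))))) (.nd (nat_lit 26) 
(.nd (nat_lit 10) (.nd (nat_lit 28) (.nd (nat_lit 19) (.nd (nat_lit 32) 
(.lf (nat_lit 1611006013) (dlOf (nat_lit 2) (nat_lit 0x1c0aa00080370004b0280b0480))) 
(.lf (nat_lit 5905973309) (dlOf (nat_lit 1) (nat_lit 0x4400400220018170d02)))) 
(.lf (nat_lit 917565) (dlOf (nat_lit 4) (nat_lit 0x1303e200a0174003f0b5003382bc0190146001560a00be1f100600ba002782bc0130146000cd08008a1f100460ba0003301000f0008005000200920008030d03)))) 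
(.nd (nat_lit 20) (.lf (nat_lit 4026925117) (dlOf (nat_lit 2) (nat_lit 0x4bc0200003c0180d0b80))) 
(.lf (nat_lit 1343619133) (dlOf (nat_lit 1) (nat_lit 0x80080004002000200082c0a03))))) 
(.nd (nat_lit 6) (.nd (nat_lit 23) 
(.lf (nat_lit 399165) (dlOf (nat_lit 1) (nat_lit 0x2001800a101))) 
(.lf (nat_lit 8787773) (dlOf (nat_lit 1) (nat_lit 0x2002851a101)))) (.nd (nat_lit 8) 
(.lf (nat_lit 8783485) (dlOf (nat_lit 3) (nat_lit 0x90ac804a853c0004a08001429e000240200020018513981))) 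
(.lf (nat_lit 3490057597) (dlOf (nat_lit 1) (nat_lit 0x8008000400200020008006c03)))))) 
(.nd (nat_lit 27) (.nd (nat_lit 31) (.nd (nat_lit 6) (.nd (nat_lit 7) 
(.lf (nat_lit 1946550333) (dlOf (nat_lit 1) (nat_lit 0x4002000400080c1402))) 
(.lf (nat_lit 69076157) (dlOf (nat_lit 1) (nat_lit 0x1c00188a2c81)))) 
(.lf (nat_lit 604373117) (dlOf (nat_lit 3) (nat_lit 0xe0070007e0100080038003e00800780080070002002200081a0483)))) 
(.nd (nat_lit 7) (.nd (nat_lit 30) 
(.lf (nat_lit 6509953085) (dlOf (nat_lit 1) (nat_lit 0x4400400220018170d02))) 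
(.lf (nat_lit 3288727613) (dlOf (nat_lit 2) (nat_lit 0x4bc0200003c0180d0b80)))) 
(.lf (nat_lit 2483421373) (dlOf (nat_lit 1) (nat_lit 0x7c002000200081b0382))))) (.nd (nat_lit 6) 
(.nd (nat_lit 8) (.nd (nat_lit 10) 
(.lf (nat_lit 738590781) (dlOf (nat_lit 2) (nat_lit 0x1c0aa00080370004b0280b0480))) 
(.lf (nat_lit 471733309) (dlOf (nat_lit 1) (nat_lit 0xc00083d9281)))) 
(.lf (nat_lit 470155581) (dlOf (nat_lit 1) (nat_lit 0x8008010400200020008068503)))) 
(.nd (nat_lit 8) (.lf (nat_lit 2080768125) (dlOf (nat_lit 1) (nat_lit 0x200180c0d01))) 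
(.lf (nat_lit 2349203837) (dlOf (nat_lit 1) (nat_lit 0x200281b0781)))))))) (.nd (nat_lit 6) 
(.nd (nat_lit 5) (.nd (nat_lit 8) (.nd (nat_lit 22) (.nd (nat_lit 10) (.nd (nat_lit 23) 
(.lf (nat_lit 1881538589) (dlOf (nat_lit 2) (nat_lit 0x4e08e0001f818f40100))) 
(.lf (nat_lit 61210653) (dlOf (nat_lit 1) (nat_lit 0x280080004002001000098e0103)))) 
(.lf (nat_lit 19794973) (dlOf (nat_lit 1) (nat_lit 0x4002000200089d6002)))) (.nd (nat_lit 20) 
(.lf (nat_lit 15073309) (dlOf (nat_lit 1) (nat_lit 0xc00287b0681))) 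
(.lf (nat_lit 32899101) (dlOf (nat_lit 1) (nat_lit 0xe0018f40601))))) (.nd (nat_lit 9) 
(.nd (nat_lit 10) (.lf (nat_lit 19792157) (dlOf (nat_lit 1) (nat_lit 0x4002000200089d0a82))) 
(.lf (nat_lit 8262941) (dlOf (nat_lit 1) (nat_lit 0x60028519701)))) (.nd (nat_lit 7) 
(.nd (nat_lit 11) (.lf (nat_lit 19796765) (dlOf (nat_lit 1) (nat_lit 0x4004000200089d8f82))) 
(.lf (nat_lit 19794717) (dlOf (nat_lit 1) (nat_lit 0x200089d5c01)))) 
(.lf (nat_lit 8263581) (dlOf (nat_lit 1) (nat_lit 0x1a800800940020010000851a303)))))) 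
(.nd (nat_lit 12) (.nd (nat_lit 8) (.nd (nat_lit 19) (.nd (nat_lit 26) 
(.lf (nat_lit 1881538621) (dlOf (nat_lit 1) (nat_lit 0x6800400340008f40602))) 
(.lf (nat_lit 2753953853) (dlOf (nat_lit 1) (nat_lit 0xa00080008002000200080a0c83)))) 
(.lf (nat_lit 4063293) (dlOf (nat_lit 2) (nat_lit 0x50b00004038c00081b2001007100050328002602800380080014002000a0008270b83)))) 
(.nd (nat_lit 9) (.lf (nat_lit 20840765) (dlOf (nat_lit 1) (nat_lit 0x3000800a4002004600089e5e03))) 
(.lf (nat_lit 19792701) (dlOf (nat_lit 1) (nat_lit 0x200089d2301))))) (.nd (nat_lit 9) 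
(.nd (nat_lit 8) (.lf (nat_lit 19796157) (dlOf (nat_lit 1) (nat_lit 0x80080004002000200089d7e83))) 
(.lf (nat_lit 19796413) (dlOf (nat_lit 1) (nat_lit 0x30002000c00089d8582)))) (.nd (nat_lit 7) 
(.lf (nat_lit 19796541) (dlOf (nat_lit 1) (nat_lit 0x600289d8981))) (.nd (nat_lit 11) 
(.lf (nat_lit 19796669) (dlOf (nat_lit 1) (nat_lit 0x80080004002000200089d8c83))) 
(.lf (nat_lit 19798717) (dlOf (nat_lit 1) (nat_lit 0x380080008002000a00089db903)))))))) 
(.nd (nat_lit 5) (.nd (nat_lit 19) (.nd (nat_lit 26) (.nd (nat_lit 22) 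
(.lf (nat_lit 2490461) (dlOf (nat_lit 1) (nat_lit 0x1300008161201))) 
(.lf (nat_lit 48627805) (dlOf (nat_lit 2) (nat_lit 0x340000000402000a0009420881)))) 
(.nd (nat_lit 7) 
(.lf (nat_lit 2753953885) (dlOf (nat_lit 5) (nat_lit 0x6021c0003404002010e00018020006087000058100120438000280800600080038002002e00080a1203))) 
(.lf (nat_lit 473301981) (dlOf (nat_lit 1) (nat_lit 0x20018e92881))))) (.nd (nat_lit 11) 
(.nd (nat_lit 12) (.nd (nat_lit 24) 
(.lf (nat_lit 4096655453) (dlOf (nat_lit 1) (nat_lit 0x400400020008151902))) 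
(.lf (nat_lit 19791965) (dlOf (nat_lit 1) (nat_lit 0x8008000c002000200089d0083)))) (.nd (nat_lit 7) 
(.lf (nat_lit 19796573) (dlOf (nat_lit 1) (nat_lit 0x32000801e0002008600089d8983))) 
(.lf (nat_lit 19797213) (dlOf (nat_lit 1) (nat_lit 0x80080004002000200089d9503))))) 
(.nd (nat_lit 7) (.nd (nat_lit 24) 
(.lf (nat_lit 1345194333) (dlOf (nat_lit 1) (nat_lit 0xc00400060008b04e82))) 
(.lf (nat_lit 19794269) (dlOf (nat_lit 1) (nat_lit 0x4004000200089d4e82)))) 
(.lf (nat_lit 1345194717) (dlOf (nat_lit 6) (nat_lit 0x420b28000b80801e8594000200400302ca0000f020070165000070100350b2800000080038008000400200020008b05903)))))) 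
(.nd (nat_lit 7) (.nd (nat_lit 20) (.nd (nat_lit 11) 
(.lf (nat_lit 61736317) (dlOf (nat_lit 1) (nat_lit 0x80080040002000a0009923583))) 
(.lf (nat_lit 2754481533) (dlOf (nat_lit 3) (nat_lit 0x80840003b0200920420001d0180f6c00)))) 
(.nd (nat_lit 8) (.lf (nat_lit 11927677) (dlOf (nat_lit 2) (nat_lit 0x3e715001078186c0080))) 
(.lf (nat_lit 8263549) (dlOf (nat_lit 1) (nat_lit 0x6800800340020002000851a303))))) 
(.nd (nat_lit 8) (.nd (nat_lit 10) 
(.lf (nat_lit 19792125) (dlOf (nat_lit 1) (nat_lit 0x200089d0a81))) (.nd (nat_lit 24) 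
(.lf (nat_lit 2754481405) (dlOf (nat_lit 1) (nat_lit 0x300080008002000600080f6603))) 
(.lf (nat_lit 19795197) (dlOf (nat_lit 1) (nat_lit 0x10004000200089d6602))))) (.nd (nat_lit 9) 
(.lf (nat_lit 20320765) (dlOf (nat_lit 1) (nat_lit 0x4002000200089d8682))) 
(.lf (nat_lit 19794941) (dlOf (nat_lit 1) (nat_lit 0x6000289d5f01))))))))))) (.nd (nat_lit 4) 
(.nd (nat_lit 18) (.nd (nat_lit 5) (.nd (nat_lit 31) (.nd (nat_lit 21) (.nd (nat_lit 27) 
(.nd (nat_lit 6) (.nd (nat_lit 10) (.nd (nat_lit 24) (.nd (nat_lit 7) (.nd (nat_lit 28) 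
(.lf (nat_lit 67272717) (dlOf (nat_lit 1) (nat_lit 0x8008006c00200700008090103))) 
(.lf (nat_lit 5704417293) (dlOf (nat_lit 1) (nat_lit 0x40028070001)))) 
(.lf (nat_lit 1610776973) (dlOf (nat_lit 4) (nat_lit 0x1806a0015802000c035000678100060248002580801280080120002005e0008091003)))) 
(.nd (nat_lit 19) (.lf (nat_lit 25329677) (dlOf (nat_lit 1) (nat_lit 0x20028bf0481))) 
(.lf (nat_lit 55214093) (dlOf (nat_lit 1) (nat_lit 0xa000200d200096d0002))))) (.nd (nat_lit 9) 
(.lf (nat_lit 46304269) (dlOf (nat_lit 1) (nat_lit 0x100009385f81))) 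
(.lf (nat_lit 805473805) (dlOf (nat_lit 1) (nat_lit 0x20028117081))))) (.nd (nat_lit 19) 
(.nd (nat_lit 8) (.lf (nat_lit 604143693) (dlOf (nat_lit 1) (nat_lit 0x13000200fa0008030702))) 
(.lf (nat_lit 170829) (dlOf (nat_lit 5) (nat_lit 0x20364016080400141b2000800c0057d82000a06c80156c08004036400aa40400180040104001800bc82)))) 
(.nd (nat_lit 7) (.lf (nat_lit 42631245) (dlOf (nat_lit 1) (nat_lit 0x4004008e0009260682))) 
(.lf (nat_lit 14319821) (dlOf (nat_lit 1) (nat_lit 0x18008000400200020008750483)))))) 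
(.nd (nat_lit 26) (.nd (nat_lit 28) (.nd (nat_lit 19) 
(.lf (nat_lit 5503090701) (dlOf (nat_lit 3) (nat_lit 0x802a0002014001300980038044001c020000200e003e806000400a800380500058026000200e0003002801f3c280028008007400200200008060a03))) 
(.lf (nat_lit 134905869) (dlOf (nat_lit 6) (nat_lit 0x5c04a00270178001f4100400128021408c004202f000f0150001f02000500bc000f404005c094001602f0003a82001d025000680bc000e6080270004002a00080d0482)))) 
(.nd (nat_lit 7) (.lf (nat_lit 6308397069) (dlOf (nat_lit 1) (nat_lit 0x40028070001))) 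
(.lf (nat_lit 6308397453) (dlOf (nat_lit 3) (nat_lit 0xa00c8019f0080058060009cc04001000400040008075d82))))) 
(.nd (nat_lit 7) (.nd (nat_lit 19) 
(.lf (nat_lit 5033328653) (dlOf (nat_lit 1) (nat_lit 0x8008000800200040008060a03))) 
(.lf (nat_lit 202014733) (dlOf (nat_lit 6) (nat_lit 0x5c04a00270178001f4100400128021408c004202f000f0150001f02000500bc000f404005c094001602f0003a82001d025000680bc000e6080270004002a00080d0482)))) 
(.nd (nat_lit 6) (.lf (nat_lit 474121869) (dlOf (nat_lit 1) (nat_lit 0x80080004002000200090e3a03))) 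
(.lf (nat_lit 5301765069) (dlOf (nat_lit 2) (nat_lit 0x2008802474080010008000c00200020008092883))))))) 
(.nd (nat_lit 22) (.nd (nat_lit 6) (.nd (nat_lit 20) (.nd (nat_lit 10) 
(.lf (nat_lit 44204045) (dlOf (nat_lit 1) (nat_lit 0x18000092d0001))) 
(.lf (nat_lit 36340749) (dlOf (nat_lit 1) (nat_lit 0x800200020009072882)))) (.nd (nat_lit 7) 
(.lf (nat_lit 11698701) (dlOf (nat_lit 1) (nat_lit 0x800186c0d81))) 
(.lf (nat_lit 3309709) (dlOf (nat_lit 2) (nat_lit 0x709f800104b80007608000400400020018200102))))) 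
(.nd (nat_lit 8) (.nd (nat_lit 9) 
(.lf (nat_lit 52592717) (dlOf (nat_lit 2) (nat_lit 0x12ec10009c593804aa9e8027d4d00003808001a0019550681))) 
(.lf (nat_lit 36342349) (dlOf (nat_lit 1) (nat_lit 0x20019075281)))) 
(.lf (nat_lit 3309901) (dlOf (nat_lit 1) (nat_lit 0x2c00200020008200602))))) (.nd (nat_lit 19) 
(.nd (nat_lit 6) (.lf (nat_lit 15892493) (dlOf (nat_lit 1) (nat_lit 0x20018840281))) 
(.nd (nat_lit 7) 
(.lf (nat_lit 24281165) (dlOf (nat_lit 1) (nat_lit 0x3300080004002008e0008b90f03))) 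
(.lf (nat_lit 57838029) (dlOf (nat_lit 3) (nat_lit 0x22a7d00b4101000d53e801729ac02bf6080108004007a0019794e82))))) 
(.nd (nat_lit 8) (.nd (nat_lit 23) 
(.lf (nat_lit 24805389) (dlOf (nat_lit 1) (nat_lit 0x1c20008bb0081))) 
(.lf (nat_lit 16416781) (dlOf (nat_lit 5) (nat_lit 0x49f540048fa8000890400147d500153ea000220100071f540054fa8000860400167d500113ea0002141000b00080118002004e00088a0183)))) 
(.lf (nat_lit 8033549) (dlOf (nat_lit 1) (nat_lit 0x60028519681))))))) (.nd (nat_lit 6) 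
(.nd (nat_lit 28) (.nd (nat_lit 26) (.nd (nat_lit 8) (.nd (nat_lit 19) 
(.lf (nat_lit 2684518413) (dlOf (nat_lit 3) (nat_lit 0xa0320001f01000d0058000ec0801b00080038002000e0008080103))) 
(.lf (nat_lit 3893002253) (dlOf (nat_lit 1) (nat_lit 0x2c00082c0101)))) 
(.lf (nat_lit 3355611917) (dlOf (nat_lit 1) (nat_lit 0x800280a8f81)))) (.nd (nat_lit 19) 
(.nd (nat_lit 20) (.lf (nat_lit 3288498189) (dlOf (nat_lit 1) (nat_lit 0x80018030481))) 
(.lf (nat_lit 2752675853) (dlOf (nat_lit 2) (nat_lit 0x300860003e018030480)))) 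
(.lf (nat_lit 2754248717) (dlOf (nat_lit 2) (nat_lit 0x8224000f8040008004001600080d0482))))) 
(.nd (nat_lit 21) (.nd (nat_lit 20) (.nd (nat_lit 30) 
(.lf (nat_lit 2952953869) (dlOf (nat_lit 1) (nat_lit 0xa4004001e0008030002))) 
(.lf (nat_lit 4026695693) (dlOf (nat_lit 1) (nat_lit 0x80018030481)))) 
(.lf (nat_lit 3490873357) (dlOf (nat_lit 2) (nat_lit 0x300890003e018030480)))) (.nd (nat_lit 19) 
(.lf (nat_lit 3491921933) (dlOf (nat_lit 1) (nat_lit 0x3c00400020008090002))) 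
(.lf (nat_lit 3492446221) (dlOf (nat_lit 2) (nat_lit 0x8230000f8040008004001600080d0482)))))) 
(.nd (nat_lit 26) (.nd (nat_lit 7) (.nd (nat_lit 19) (.nd (nat_lit 20) 
(.lf (nat_lit 4026695757) (dlOf (nat_lit 5) (nat_lit 0xe80400001d020054020000d0058000601001d008000a40160000404008c02000380058000001000f8008015000200520008030f83))) 
(.lf (nat_lit 3490873421) (dlOf (nat_lit 2) (nat_lit 0x580000000804001400200120008030f82)))) 
(.lf (nat_lit 3492446285) (dlOf (nat_lit 3) (nat_lit 0xc045000158080080228000a804006c004000400180d0d02)))) 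
(.nd (nat_lit 8) 
(.lf (nat_lit 3758264525) (dlOf (nat_lit 1) (nat_lit 0x20008000c00200040008128003))) 
(.lf (nat_lit 3491922381) (dlOf (nat_lit 3) (nat_lit 0xe1c20000c8100070e1000060080098008006800200080008090a03))))) 
(.nd (nat_lit 8) (.nd (nat_lit 19) (.nd (nat_lit 20) 
(.lf (nat_lit 3288498253) (dlOf (nat_lit 5) (nat_lit 0xe80400001d020054020000d0058000601001d008000a40160000404008c02000380058000001000f8008015000200520008030f83))) 
(.lf (nat_lit 2752675917) (dlOf (nat_lit 2) (nat_lit 0x580000000804001400200120008030f82)))) 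
(.nd (nat_lit 21) (.lf (nat_lit 4228546637) (dlOf (nat_lit 1) (nat_lit 0x4002000200080f1502))) 
(.lf (nat_lit 2754248781) (dlOf (nat_lit 3) (nat_lit 0xc04380013c08008021c0009a04006c004000400180d0d02))))) 
(.nd (nat_lit 7) (.lf (nat_lit 2751629133) (dlOf (nat_lit 1) (nat_lit 0x400400060008003e82))) 
(.lf (nat_lit 2753724877) (dlOf (nat_lit 1) (nat_lit 0x400200020008090a02)))))))) (.nd (nat_lit 26) 
(.nd (nat_lit 19) (.nd (nat_lit 28) (.nd (nat_lit 21) (.nd (nat_lit 8) (.nd (nat_lit 20) 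
(.lf (nat_lit 25329709) (dlOf (nat_lit 1) (nat_lit 0x22c00200900008bf0b02))) 
(.lf (nat_lit 47349805) (dlOf (nat_lit 4) (nat_lit 0x57a60000b02000cbd300055de000028100022f4c00097780000804001800193d0c81)))) 
(.lf (nat_lit 170285) (dlOf (nat_lit 1) (nat_lit 0x800800040020002000800ab83)))) (.nd (nat_lit 6) 
(.lf (nat_lit 52592685) (dlOf (nat_lit 5) (nat_lit 0x54b04c01558220142b2a005153480009020034304c007582200c8b2a001853480008c2001db04c0002a0400fd8260038c110024595000b29a40001e10007400400020009550282))) 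
(.nd (nat_lit 20) 
(.lf (nat_lit 44204141) (dlOf (nat_lit 2) (nat_lit 0x9988001b2040004004000200192d0a82))) 
(.lf (nat_lit 24281197) (dlOf (nat_lit 1) (nat_lit 0x20018b91501)))))) (.nd (nat_lit 29) 
(.nd (nat_lit 6) (.nd (nat_lit 20) 
(.lf (nat_lit 3624042541) (dlOf (nat_lit 2) (nat_lit 0x400a000000080018008000c002000a00080b0003))) 
(.lf (nat_lit 3490873389) (dlOf (nat_lit 2) (nat_lit 0x241a300015818030c00)))) 
(.lf (nat_lit 1342341613) (dlOf (nat_lit 1) (nat_lit 0x60028017381)))) (.nd (nat_lit 30) 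
(.lf (nat_lit 2952953901) (dlOf (nat_lit 2) (nat_lit 0x300e000094080048008002800200040008030403))) 
(.lf (nat_lit 4026695725) (dlOf (nat_lit 4) (nat_lit 0x1240140000602002400a0000281002500500000c0800c8008002800200240008030c03)))))) 
(.nd (nat_lit 20) (.nd (nat_lit 21) (.nd (nat_lit 22) (.nd (nat_lit 27) (.nd (nat_lit 28) 
(.lf (nat_lit 3221913645) (dlOf (nat_lit 6) (nat_lit 0x1e01780003c0801100bc0001c04008405e0000a02003a02f0000481009a0178000000800e00080238002000200081b0603))) 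
(.lf (nat_lit 805994541) (dlOf (nat_lit 4) (nat_lit 0x3c02b0000804c0006608021c0ac00840130001902005002b0000c40803d8008002400200020008210603)))) 
(.lf (nat_lit 134905901) (dlOf (nat_lit 1) (nat_lit 0x18002000c00080d0b02)))) (.nd (nat_lit 24) 
(.lf (nat_lit 4882477) (dlOf (nat_lit 1) (nat_lit 0x100080008002000600082d0403))) 
(.lf (nat_lit 21659693) (dlOf (nat_lit 1) (nat_lit 0xa0008a60d01))))) (.nd (nat_lit 6) 
(.lf (nat_lit 3492446253) (dlOf (nat_lit 1) (nat_lit 0x200180d0b01))) 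
(.lf (nat_lit 61507053) (dlOf (nat_lit 1) (nat_lit 0x800400040009923602))))) (.nd (nat_lit 7) 
(.nd (nat_lit 22) (.nd (nat_lit 24) 
(.lf (nat_lit 3833901) (dlOf (nat_lit 2) (nat_lit 0x58000000140200080008230d81))) 
(.lf (nat_lit 54165549) (dlOf (nat_lit 1) (nat_lit 0x400200020009630282)))) 
(.lf (nat_lit 24805421) (dlOf (nat_lit 5) (nat_lit 0x257aa0001602000cbd50000a0100055ea800014080032f540000804000400400100008bb0d82)))) 
(.nd (nat_lit 10) (.lf (nat_lit 8030381) (dlOf (nat_lit 1) (nat_lit 0xe40018514901))) 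
(.lf (nat_lit 8033453) (dlOf (nat_lit 1) (nat_lit 0x1c0018519501))))))) (.nd (nat_lit 8) 
(.nd (nat_lit 27) (.nd (nat_lit 29) (.nd (nat_lit 6) (.nd (nat_lit 28) 
(.lf (nat_lit 3288498221) (dlOf (nat_lit 4) (nat_lit 0x1240140000602002400a0000281002500500000c0800c8008002800200240008030c03))) 
(.lf (nat_lit 2483191853) (dlOf (nat_lit 2) (nat_lit 0x1080a8008805000440100000a038070900)))) 
(.lf (nat_lit 2214757101) (dlOf (nat_lit 1) (nat_lit 0x4004000200080a2102)))) (.nd (nat_lit 19) 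
(.lf (nat_lit 2752675885) (dlOf (nat_lit 2) (nat_lit 0x241b800017018030c00))) (.nd (nat_lit 21) 
(.lf (nat_lit 1678409773) (dlOf (nat_lit 4) (nat_lit 0x3c02b0000804c0006408021c0ac00840130001882005002b0000c00803d8008002400200020008210603))) 
(.lf (nat_lit 2754248749) (dlOf (nat_lit 1) (nat_lit 0x200180d0b01)))))) (.nd (nat_lit 19) 
(.nd (nat_lit 9) (.nd (nat_lit 30) 
(.lf (nat_lit 2348974125) (dlOf (nat_lit 3) (nat_lit 0x40000000880800180a8000c01c000140400240018070801))) 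
(.lf (nat_lit 3422715949) (dlOf (nat_lit 2) (nat_lit 0x38030000ac04002400200180008070682)))) 
(.lf (nat_lit 4228022829) (dlOf (nat_lit 3) (nat_lit 0x60062000240200660310000f818018000)))) 
(.nd (nat_lit 6) (.nd (nat_lit 29) 
(.lf (nat_lit 202014765) (dlOf (nat_lit 1) (nat_lit 0x18002000c00080d0b02))) 
(.lf (nat_lit 3960111149) (dlOf (nat_lit 6) (nat_lit 0x1e01780003c0801100bc0001c04008405e0000a02003a02f0000481009a0178000000800e00080238002000200081b0603)))) 
(.lf (nat_lit 738888429) (dlOf (nat_lit 5) (nat_lit 0x2502a800480dc004c0440002a06000a01d0001401004101b8000600800c01540000004005400400460008125a02)))))) 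
(.nd (nat_lit 28) (.nd (nat_lit 6) (.nd (nat_lit 7) 
(.lf (nat_lit 2751633709) (dlOf (nat_lit 1) (nat_lit 0x1900040092001800ab82))) 
(.lf (nat_lit 2751629229) (dlOf (nat_lit 1) (nat_lit 0x18008000400200060008004303)))) 
(.nd (nat_lit 7) (.lf (nat_lit 2751629165) (dlOf (nat_lit 1) (nat_lit 0x400200040008004002))) 
(.nd (nat_lit 9) 
(.lf (nat_lit 4362240493) (dlOf (nat_lit 3) (nat_lit 0x6e0000055201004a000000000080008008012400200740008017d03))) 
(.lf (nat_lit 3959587821) (dlOf (nat_lit 1) (nat_lit 0x240028112881)))))) (.nd (nat_lit 22) 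
(.nd (nat_lit 6) 
(.lf (nat_lit 6378127789) (dlOf (nat_lit 1) (nat_lit 0x18008000400200060008116e83))) 
(.nd (nat_lit 29) 
(.lf (nat_lit 469926381) (dlOf (nat_lit 1) (nat_lit 0x48008003c002001a0008017d03))) 
(.lf (nat_lit 5301764589) (dlOf (nat_lit 1) (nat_lit 0x20018091381))))) (.nd (nat_lit 7) 
(.lf (nat_lit 474120557) (dlOf (nat_lit 1) (nat_lit 0x15200290e0f81))) 
(.lf (nat_lit 474120685) (dlOf (nat_lit 1) (nat_lit 0xc00190e1381))))))))) (.nd (nat_lit 5) 
(.nd (nat_lit 6) (.nd (nat_lit 30) (.nd (nat_lit 19) (.nd (nat_lit 27) (.nd (nat_lit 20) 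
(.nd (nat_lit 7) (.nd (nat_lit 26) (.nd (nat_lit 28) 
(.lf (nat_lit 537296909) (dlOf (nat_lit 1) (nat_lit 0x10008000400200020008080103))) 
(.lf (nat_lit 4563828749) (dlOf (nat_lit 2) (nat_lit 0x5f80620000002001c00280f0a01)))) 
(.lf (nat_lit 67534861) (dlOf (nat_lit 1) (nat_lit 0x400181f0181)))) 
(.lf (nat_lit 428429) (dlOf (nat_lit 1) (nat_lit 0x54002000e0008004e82)))) (.nd (nat_lit 7) 
(.nd (nat_lit 8) (.lf (nat_lit 16154637) (dlOf (nat_lit 1) (nat_lit 0x90008002400200320008870183))) 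
(.lf (nat_lit 51807501) (dlOf (nat_lit 1) (nat_lit 0x280029513001)))) 
(.lf (nat_lit 11960461) (dlOf (nat_lit 1) (nat_lit 0xc002000600086c0102))))) (.nd (nat_lit 9) 
(.nd (nat_lit 26) 
(.lf (nat_lit 4698046477) (dlOf (nat_lit 2) (nat_lit 0x7200c4012680400c8004004600080f0a02))) 
(.lf (nat_lit 470188045) (dlOf (nat_lit 1) (nat_lit 0x1c0018080481)))) (.nd (nat_lit 26) 
(.lf (nat_lit 134644237) (dlOf (nat_lit 2) (nat_lit 0x20094006202f0010e828090d80))) 
(.lf (nat_lit 201753101) (dlOf (nat_lit 2) (nat_lit 0x4e0310006c818090d80)))))) (.nd (nat_lit 8) 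
(.nd (nat_lit 22) (.nd (nat_lit 7) 
(.lf (nat_lit 2752414221) (dlOf (nat_lit 3) (nat_lit 0xa4490004b902005224800257018018400))) 
(.lf (nat_lit 19830925) (dlOf (nat_lit 1) (nat_lit 0x20004000c00189da882)))) (.nd (nat_lit 20) 
(.nd (nat_lit 23) 
(.lf (nat_lit 21921805) (dlOf (nat_lit 2) (nat_lit 0x3a5fc001b004000400400020018a80482))) 
(.lf (nat_lit 13533197) (dlOf (nat_lit 1) (nat_lit 0xc00400040008730482)))) 
(.lf (nat_lit 22970381) (dlOf (nat_lit 1) (nat_lit 0x400200020008b40102))))) (.nd (nat_lit 7) 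
(.nd (nat_lit 12) (.lf (nat_lit 19824909) (dlOf (nat_lit 1) (nat_lit 0x3a00289d0a81))) 
(.lf (nat_lit 19829005) (dlOf (nat_lit 1) (nat_lit 0x2a00289d8081)))) 
(.lf (nat_lit 35555725) (dlOf (nat_lit 1) (nat_lit 0x3e0009014e81)))))) (.nd (nat_lit 28) 
(.nd (nat_lit 7) (.nd (nat_lit 10) (.nd (nat_lit 26) (.nd (nat_lit 29) 
(.lf (nat_lit 1074167821) (dlOf (nat_lit 1) (nat_lit 0x200280d0481))) 
(.lf (nat_lit 3758522381) (dlOf (nat_lit 1) (nat_lit 0x800400020008260182)))) 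
(.lf (nat_lit 1678147597) (dlOf (nat_lit 2) (nat_lit 0x815800fa20400e8004000800081a0002)))) 
(.lf (nat_lit 1745257485) (dlOf (nat_lit 1) (nat_lit 0x4004000200080e2882)))) (.nd (nat_lit 26) 
(.lf (nat_lit 3221651853) (dlOf (nat_lit 2) (nat_lit 0x2204500405818170780))) 
(.lf (nat_lit 1678147981) (dlOf (nat_lit 2) (nat_lit 0x7b02b0038b808023000800e0002001c00081a0783))))) 
(.nd (nat_lit 26) (.nd (nat_lit 7) (.nd (nat_lit 20) 
(.lf (nat_lit 1342603277) (dlOf (nat_lit 1) (nat_lit 0x1c0018080481))) 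
(.lf (nat_lit 1343651853) (dlOf (nat_lit 2) (nat_lit 0x404e802c9c0801c000800a8002006200082d0283)))) 
(.lf (nat_lit 3490090381) (dlOf (nat_lit 1) (nat_lit 0x400400020018006c82)))) (.nd (nat_lit 29) 
(.lf (nat_lit 1409712141) (dlOf (nat_lit 1) (nat_lit 0x10008000400200020008080103))) 
(.lf (nat_lit 1946583053) (dlOf (nat_lit 1) (nat_lit 0x200280d0481))))))) (.nd (nat_lit 19) 
(.nd (nat_lit 24) (.nd (nat_lit 28) (.nd (nat_lit 9) 
(.lf (nat_lit 1074167885) (dlOf (nat_lit 1) (nat_lit 0x200280d0d01))) 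
(.lf (nat_lit 39225933) (dlOf (nat_lit 1) (nat_lit 0x1c0019195281)))) (.nd (nat_lit 26) 
(.lf (nat_lit 1476821069) (dlOf (nat_lit 1) (nat_lit 0x2140008200001))) 
(.lf (nat_lit 1946583117) (dlOf (nat_lit 1) (nat_lit 0x200280d0d01))))) (.nd (nat_lit 22) 
(.nd (nat_lit 8) (.lf (nat_lit 26640461) (dlOf (nat_lit 1) (nat_lit 0x8008000c00200060008c50703))) 
(.lf (nat_lit 17203533) (dlOf (nat_lit 1) (nat_lit 0x4004000400088e0782)))) (.nd (nat_lit 23) 
(.lf (nat_lit 54952013) (dlOf (nat_lit 1) (nat_lit 0x400400020009670602))) 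
(.lf (nat_lit 29786189) (dlOf (nat_lit 3) (nat_lit 0x3574500022408028ba2801893a8000860400060008e30181)))))) 
(.nd (nat_lit 7) (.nd (nat_lit 21) (.nd (nat_lit 20) 
(.lf (nat_lit 47087693) (dlOf (nat_lit 2) (nat_lit 0x82618001180800180080004002000800093a0603))) 
(.lf (nat_lit 43941965) (dlOf (nat_lit 3) (nat_lit 0x11d400032ce700076590033b418005339c019c6040010004000800192a0002)))) 
(.nd (nat_lit 26) 
(.lf (nat_lit 1346273357) (dlOf (nat_lit 4) (nat_lit 0x500200028004019da08002400800100010067602000500200028004019c6080008004000e0018e80002))) 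
(.lf (nat_lit 473858125) (dlOf (nat_lit 1) (nat_lit 0x18002000e0008fc0682))))) (.nd (nat_lit 21) 
(.nd (nat_lit 8) 
(.lf (nat_lit 5773361357) (dlOf (nat_lit 1) (nat_lit 0x300080018002000200080c1803))) 
(.nd (nat_lit 11) (.lf (nat_lit 537821645) (dlOf (nat_lit 1) (nat_lit 0x9600081b0a01))) 
(.lf (nat_lit 1008634317) (dlOf (nat_lit 1) (nat_lit 0x8008000400200020008e94e83))))) 
(.nd (nat_lit 9) (.lf (nat_lit 8291789) (dlOf (nat_lit 1) (nat_lit 0x30008000800200020008513603))) 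
(.lf (nat_lit 41845709) (dlOf (nat_lit 1) (nat_lit 0x400400020009242882)))))))) (.nd (nat_lit 6) 
(.nd (nat_lit 7) (.nd (nat_lit 30) (.nd (nat_lit 20) (.nd (nat_lit 25) (.nd (nat_lit 27) 
(.lf (nat_lit 4563828781) (dlOf (nat_lit 7) (nat_lit 0x14032000240201080190001181007100c8000880816080c4000060408a406200002020b9a031005100a00258044000000c014400200be00080f0d02))) 
(.lf (nat_lit 4698046509) (dlOf (nat_lit 7) (nat_lit 0x14032000240201080190001181007100c8000880816080c4000060408a406200002020b9a031005100a00258044000000c014400200be00080f0d02)))) 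
(.lf (nat_lit 33980461) (dlOf (nat_lit 1) (nat_lit 0x1e000400c80008f90282)))) (.nd (nat_lit 8) 
(.lf (nat_lit 473858093) (dlOf (nat_lit 7) (nat_lit 0x1b428a0000b02009016800010ac00768514006819e00340960013041800028300368514001019e00009040038168006d0a28000201000205140000e0400882d001a014500080678000001805c8008029400201000008fc0283))) 
(.lf (nat_lit 11960621) (dlOf (nat_lit 1) (nat_lit 0x80080004002000200086c0503))))) 
(.nd (nat_lit 9) (.nd (nat_lit 20) (.nd (nat_lit 26) 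
(.lf (nat_lit 4026957869) (dlOf (nat_lit 2) (nat_lit 0x80d40009e040024004003c00080e0602))) 
(.lf (nat_lit 3288760365) (dlOf (nat_lit 2) (nat_lit 0x80d4000ac040024004003c00080e0602)))) 
(.lf (nat_lit 1343651885) (dlOf (nat_lit 1) (nat_lit 0x28002000400082d0a02)))) 
(.lf (nat_lit 3490611757) (dlOf (nat_lit 5) (nat_lit 0x26855004902a4000240400da15401810a90000801003605500003e0400502a40001c0200420018018001))))) 
(.nd (nat_lit 8) (.nd (nat_lit 10) (.nd (nat_lit 22) (.nd (nat_lit 26) 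
(.lf (nat_lit 134643885) (dlOf (nat_lit 2) (nat_lit 0x1a03000014818090300))) 
(.lf (nat_lit 201752749) (dlOf (nat_lit 2) (nat_lit 0x1a03000014818090300)))) 
(.lf (nat_lit 21397677) (dlOf (nat_lit 1) (nat_lit 0x60018a31581)))) (.nd (nat_lit 12) 
(.lf (nat_lit 1880523949) (dlOf (nat_lit 1) (nat_lit 0x4004001a00189e2c02))) 
(.lf (nat_lit 8819885) (dlOf (nat_lit 2) (nat_lit 0x292ce00140000033c828519500))))) 
(.nd (nat_lit 26) (.nd (nat_lit 10) 
(.lf (nat_lit 3490089389) (dlOf (nat_lit 1) (nat_lit 0x400200020008004e82))) 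
(.lf (nat_lit 8291757) (dlOf (nat_lit 1) (nat_lit 0x400200020008513602)))) (.nd (nat_lit 27) 
(.lf (nat_lit 1678148013) (dlOf (nat_lit 2) (nat_lit 0x10056007170181a0780))) 
(.lf (nat_lit 3959849389) (dlOf (nat_lit 5) (nat_lit 0x1e811401c6204018c08a00e30020002045007178100470228038b8080300008006c00200440008170783))))))) 
(.nd (nat_lit 8) (.nd (nat_lit 19) (.nd (nat_lit 7) (.nd (nat_lit 20) (.nd (nat_lit 28) 
(.lf (nat_lit 3221651565) (dlOf (nat_lit 2) (nat_lit 0xb011801a9e040040004002c0008170002))) 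
(.lf (nat_lit 805732461) (dlOf (nat_lit 2) (nat_lit 0x17815801a9e040130004000200081a0002)))) 
(.lf (nat_lit 14057581) (dlOf (nat_lit 1) (nat_lit 0x8008000400200020008750283)))) 
(.lf (nat_lit 50760429) (dlOf (nat_lit 1) (nat_lit 0x5a00194c5a01)))) (.nd (nat_lit 7) 
(.nd (nat_lit 26) (.lf (nat_lit 5773361261) (dlOf (nat_lit 1) (nat_lit 0x2a00180c0a81))) 
(.lf (nat_lit 6377341037) (dlOf (nat_lit 1) (nat_lit 0x2a00180c0a81)))) 
(.lf (nat_lit 40798957) (dlOf (nat_lit 1) (nat_lit 0x400091f5a01))))) (.nd (nat_lit 27) 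
(.nd (nat_lit 9) (.nd (nat_lit 11) 
(.lf (nat_lit 3490611693) (dlOf (nat_lit 3) (nat_lit 0x20c4600001102002023000007818017380))) 
(.lf (nat_lit 47614445) (dlOf (nat_lit 1) (nat_lit 0x400200040009404f02)))) (.nd (nat_lit 7) 
(.lf (nat_lit 20355949) (dlOf (nat_lit 1) (nat_lit 0x1c00189dbc81))) 
(.lf (nat_lit 8294381) (dlOf (nat_lit 1) (nat_lit 0x40018517a81))))) (.nd (nat_lit 26) 
(.nd (nat_lit 10) (.nd (nat_lit 19) 
(.lf (nat_lit 134644205) (dlOf (nat_lit 2) (nat_lit 0x7c082000020200020018090d01))) 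
(.lf (nat_lit 5772313069) (dlOf (nat_lit 1) (nat_lit 0xd20008091381)))) 
(.lf (nat_lit 1476822509) (dlOf (nat_lit 2) (nat_lit 0x801e800300d00018054000c020000600600030024000c0000022e0e000c0028203601)))) 
(.nd (nat_lit 29) 
(.lf (nat_lit 201753069) (dlOf (nat_lit 2) (nat_lit 0x7c082000020200020018090d01))) 
(.lf (nat_lit 2886107629) (dlOf (nat_lit 1) (nat_lit 0x28008001800200020008157d03)))))))))) 
(.nd (nat_lit 5) (.nd (nat_lit 30) (.nd (nat_lit 18) (.nd (nat_lit 26) (.nd (nat_lit 21) 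
(.nd (nat_lit 19) (.nd (nat_lit 11) (.nd (nat_lit 22) 
(.lf (nat_lit 2684518429) (dlOf (nat_lit 2) (nat_lit 0x7600680081008029000800d800200200008080483))) 
(.lf (nat_lit 12746781) (dlOf (nat_lit 1) (nat_lit 0x17000400a000086e0a02)))) (.nd (nat_lit 6) 
(.lf (nat_lit 170013) (dlOf (nat_lit 1) (nat_lit 0x4001800a601))) 
(.lf (nat_lit 170077) (dlOf (nat_lit 3) (nat_lit 0x1d4fc0004a6d0010a02000753f0005a9b4004000800080020006000800a782))))) 
(.nd (nat_lit 29) (.nd (nat_lit 20) 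
(.lf (nat_lit 134905885) (dlOf (nat_lit 2) (nat_lit 0x2815000000040004004000400180d0882))) 
(.lf (nat_lit 10125341) (dlOf (nat_lit 1) (nat_lit 0x200285b0481)))) (.nd (nat_lit 6) 
(.lf (nat_lit 805994525) (dlOf (nat_lit 4) (nat_lit 0x9201580368026001b3040064056000c281000d02b0005c4080570008000c00200a00008210483))) 
(.lf (nat_lit 537559133) (dlOf (nat_lit 5) (nat_lit 0x801440003404000c0a2001603f0000c02001a028800280fc00580640000b06004a05100220190000281000c80080040002000400080a1203)))))) 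
(.nd (nat_lit 7) (.nd (nat_lit 6) (.nd (nat_lit 9) 
(.lf (nat_lit 15368221) (dlOf (nat_lit 1) (nat_lit 0x400187e0581))) 
(.lf (nat_lit 23757341) (dlOf (nat_lit 1) (nat_lit 0x100080004002001a0008b80d83)))) 
(.nd (nat_lit 8) (.lf (nat_lit 45776989) (dlOf (nat_lit 1) (nat_lit 0x400200020009360882))) 
(.lf (nat_lit 2261341) (dlOf (nat_lit 2) (nat_lit 0x94a8000560200040018150681))))) 
(.nd (nat_lit 23) (.nd (nat_lit 20) 
(.lf (nat_lit 35816605) (dlOf (nat_lit 1) (nat_lit 0x2400200080009012b82))) 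
(.lf (nat_lit 36865181) (dlOf (nat_lit 1) (nat_lit 0x20019072b81)))) (.nd (nat_lit 10) 
(.lf (nat_lit 44204189) (dlOf (nat_lit 1) (nat_lit 0x8004001a00092d1282))) 
(.lf (nat_lit 48399517) (dlOf (nat_lit 1) (nat_lit 0x800400020009402b82))))))) (.nd (nat_lit 28) 
(.nd (nat_lit 6) (.nd (nat_lit 27) (.nd (nat_lit 8) 
(.lf (nat_lit 2752675869) (dlOf (nat_lit 2) (nat_lit 0xa089000504300028210002b00c001000400060008030902))) 
(.lf (nat_lit 2214761757) (dlOf (nat_lit 1) (nat_lit 0x1e00080a9701)))) (.nd (nat_lit 19) 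
(.lf (nat_lit 6643941405) (dlOf (nat_lit 1) (nat_lit 0x19c00200360008090482))) 
(.lf (nat_lit 202014749) (dlOf (nat_lit 2) (nat_lit 0x2815400000040004004000400180d0882))))) 
(.nd (nat_lit 7) (.nd (nat_lit 11) 
(.lf (nat_lit 4362240349) (dlOf (nat_lit 4) (nat_lit 0x3b80cc000440400780660001802000603300006818014e80))) 
(.lf (nat_lit 738363741) (dlOf (nat_lit 1) (nat_lit 0x400400020008094e82)))) 
(.lf (nat_lit 2214761693) (dlOf (nat_lit 1) (nat_lit 0x4004000200080a9502))))) (.nd (nat_lit 19) 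
(.nd (nat_lit 6) (.nd (nat_lit 8) (.nd (nat_lit 29) 
(.lf (nat_lit 4630675485) (dlOf (nat_lit 1) (nat_lit 0xe000400020018050582))) 
(.lf (nat_lit 5167546397) (dlOf (nat_lit 1) (nat_lit 0x2400080a0a81)))) 
(.lf (nat_lit 5301765405) (dlOf (nat_lit 2) (nat_lit 0x60088000a4080008008001400200020008093103)))) 
(.nd (nat_lit 7) (.lf (nat_lit 469926237) (dlOf (nat_lit 1) (nat_lit 0x40028014e81))) 
(.lf (nat_lit 474121437) (dlOf (nat_lit 1) (nat_lit 0x6400090e2e01))))) (.nd (nat_lit 20) 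
(.nd (nat_lit 21) 
(.lf (nat_lit 470450205) (dlOf (nat_lit 2) (nat_lit 0x8674000280400f4004002a00080f0582))) 
(.lf (nat_lit 472547357) (dlOf (nat_lit 5) (nat_lit 0x2029a000407c0012302000f03e0009100800082f0002a4040004178000f202002200289b0601)))) 
(.lf (nat_lit 1008369693) (dlOf (nat_lit 2) (nat_lit 0x605d800000080018008000800200140008b70103))))))) 
(.nd (nat_lit 6) (.nd (nat_lit 21) (.nd (nat_lit 7) (.nd (nat_lit 8) 
(.lf (nat_lit 4295393309) (dlOf (nat_lit 3) (nat_lit 0x4c02c0095102001a016004a80181c0a00))) 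
(.lf (nat_lit 21397789) (dlOf (nat_lit 1) (nat_lit 0x1c60008a34001)))) (.nd (nat_lit 8) 
(.nd (nat_lit 27) 
(.lf (nat_lit 4362502301) (dlOf (nat_lit 1) (nat_lit 0x10008000800200040008090203))) 
(.lf (nat_lit 738623645) (dlOf (nat_lit 1) (nat_lit 0x200180c1281)))) 
(.lf (nat_lit 38177181) (dlOf (nat_lit 1) (nat_lit 0x8008000c00200040009134e83))))) 
(.nd (nat_lit 19) (.nd (nat_lit 20) (.nd (nat_lit 22) 
(.lf (nat_lit 2523165) (dlOf (nat_lit 1) (nat_lit 0x400400020008170a02))) 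
(.lf (nat_lit 48660509) (dlOf (nat_lit 2) (nat_lit 0xdca680001f819420100)))) (.nd (nat_lit 8) 
(.lf (nat_lit 62291997) (dlOf (nat_lit 1) (nat_lit 0x1bc00200e40009990302))) 
(.lf (nat_lit 58097949) (dlOf (nat_lit 1) (nat_lit 0x4c00197b8001))))) (.nd (nat_lit 7) 
(.nd (nat_lit 8) (.lf (nat_lit 4096029) (dlOf (nat_lit 1) (nat_lit 0x420018280481))) 
(.lf (nat_lit 19824925) (dlOf (nat_lit 1) (nat_lit 0x680080004002000200089d0a83)))) 
(.lf (nat_lit 41845917) (dlOf (nat_lit 2) (nat_lit 0x25210002200801d800800e0002003a0009242b83)))))) 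
(.nd (nat_lit 7) (.nd (nat_lit 8) (.nd (nat_lit 9) (.nd (nat_lit 19) 
(.lf (nat_lit 33980509) (dlOf (nat_lit 2) (nat_lit 0x25fd00013018f90880))) 
(.lf (nat_lit 473858141) (dlOf (nat_lit 2) (nat_lit 0x42980000b0200020018fc0881)))) 
(.lf (nat_lit 474384989) (dlOf (nat_lit 2) (nat_lit 0x5815f00010819165300)))) (.nd (nat_lit 11) 
(.nd (nat_lit 20) (.lf (nat_lit 2752414045) (dlOf (nat_lit 2) (nat_lit 0x281fa00015818014e80))) 
(.lf (nat_lit 1999197) (dlOf (nat_lit 2) (nat_lit 0x22950000ac04000c00200080008150682)))) 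
(.lf (nat_lit 40274269) (dlOf (nat_lit 1) (nat_lit 0x10002000c00091f4e82))))) (.nd (nat_lit 8) 
(.nd (nat_lit 19) (.lf (nat_lit 14057693) (dlOf (nat_lit 1) (nat_lit 0x800400040008750582))) 
(.nd (nat_lit 23) 
(.lf (nat_lit 68059357) (dlOf (nat_lit 1) (nat_lit 0x200080004002000200083e0583))) 
(.lf (nat_lit 26116317) (dlOf (nat_lit 1) (nat_lit 0xc00200060008c10582))))) (.nd (nat_lit 9) 
(.lf (nat_lit 20354525) (dlOf (nat_lit 1) (nat_lit 0x400089d9b01))) 
(.lf (nat_lit 2751890397) (dlOf (nat_lit 1) (nat_lit 0x20028002881)))))))) (.nd (nat_lit 28) 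
(.nd (nat_lit 27) (.nd (nat_lit 18) (.nd (nat_lit 19) (.nd (nat_lit 6) (.nd (nat_lit 26) 
(.lf (nat_lit 5368872989) (dlOf (nat_lit 2) (nat_lit 0x100a8007f40800a8008002c00200360008060a83))) 
(.lf (nat_lit 3288498205) (dlOf (nat_lit 1) (nat_lit 0x20018030901)))) 
(.lf (nat_lit 5435984221) (dlOf (nat_lit 2) (nat_lit 0x1004401b8c04000800200020008094e82)))) 
(.nd (nat_lit 26) 
(.lf (nat_lit 3221913629) (dlOf (nat_lit 21) (nat_lit 0x5200b8004700408dc05c002370202d402e001150101970170008a0080ff80fc07ec066000603003b101700ed803c0044c1401c405c001fc02021002e000f90101260178007b80809300bc003d60403b005e008a02e000f482005b0178006cc0809680bc0033a04005405e0018502017a02f000c18100d10178006080805300bc002f00405a005e0017302015802f000b88101260178005bc080a980bc00000040004004000200081b0482))) 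
(.lf (nat_lit 1678409757) (dlOf (nat_lit 4) (nat_lit 0x9201580368026001a3040064056000be81000d02b0005cc080570008000c00200a00008210483))))) 
(.nd (nat_lit 8) (.nd (nat_lit 7) 
(.lf (nat_lit 3288760349) (dlOf (nat_lit 2) (nat_lit 0x38000001f202001c00080e0481))) 
(.lf (nat_lit 1611038877) (dlOf (nat_lit 1) (nat_lit 0x200180c1281)))) (.nd (nat_lit 26) 
(.lf (nat_lit 3221651869) (dlOf (nat_lit 2) (nat_lit 0x378118012408a0080c0400020028170781))) 
(.lf (nat_lit 1678147997) (dlOf (nat_lit 3) (nat_lit 0x2802b0003004c01c600800a40ac003c013007170281a0780)))))) 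
(.nd (nat_lit 7) (.nd (nat_lit 26) (.nd (nat_lit 6) (.nd (nat_lit 29) 
(.lf (nat_lit 5503090717) (dlOf (nat_lit 2) (nat_lit 0x100a8008480800a8008002c00200360008060a83))) 
(.lf (nat_lit 6039961629) (dlOf (nat_lit 1) (nat_lit 0x20008070481)))) 
(.lf (nat_lit 3892485213) (dlOf (nat_lit 1) (nat_lit 0x4000815c001)))) (.nd (nat_lit 19) 
(.lf (nat_lit 3422715933) (dlOf (nat_lit 2) (nat_lit 0x1a00d00060000008981000100080024002000a0008070483))) 
(.lf (nat_lit 3960111133) (dlOf (nat_lit 21) (nat_lit 0x5200b8004700408dc05c002370202d402e001150101970170008a0080ff80fc07ec066000603003b101700ed803c0044c1401c405c001fa02021002e000f98101260178007b80809300bc003d60403b005e008a02e000f482005b01780068c0809680bc0033204005405e0017d02017a02f000bd0100d10178005e40805300bc002ec0402b005e001730202d002f000b88101260178005bc080a980bc00000040004004000200081b0482))))) 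
(.nd (nat_lit 12) (.nd (nat_lit 8) 
(.lf (nat_lit 1208126109) (dlOf (nat_lit 1) (nat_lit 0x40028095581))) 
(.lf (nat_lit 3959849373) (dlOf (nat_lit 3) (nat_lit 0x9808a00e3002000804500717018170780)))) 
(.nd (nat_lit 10) (.lf (nat_lit 3355612061) (dlOf (nat_lit 1) (nat_lit 0x1400280a9101))) 
(.lf (nat_lit 3892483997) (dlOf (nat_lit 1) (nat_lit 0xa38008000400200fe000815a303))))))) 
(.nd (nat_lit 31) (.nd (nat_lit 7) (.nd (nat_lit 6) (.nd (nat_lit 9) (.nd (nat_lit 18) 
(.lf (nat_lit 1346535453) (dlOf (nat_lit 1) (nat_lit 0xac00400180008fa0082))) 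
(.lf (nat_lit 1343651869) (dlOf (nat_lit 1) (nat_lit 0xc002000200082d0682)))) 
(.lf (nat_lit 1342341661) (dlOf (nat_lit 1) (nat_lit 0x1a0008017f01)))) (.nd (nat_lit 20) 
(.lf (nat_lit 1409974365) (dlOf (nat_lit 5) (nat_lit 0x801440006004000c0a2001603f0001702001a028800280fc00580640002106004a05100220190000801000c80080040002000400080a1203))) 
(.lf (nat_lit 6377078877) (dlOf (nat_lit 1) (nat_lit 0x4004000200080a1982))))) (.nd (nat_lit 18) 
(.nd (nat_lit 6) (.lf (nat_lit 5772575901) (dlOf (nat_lit 1) (nat_lit 0x400400020008092b82))) 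
(.lf (nat_lit 1342341597) (dlOf (nat_lit 1) (nat_lit 0x80028017181)))) (.nd (nat_lit 26) 
(.lf (nat_lit 5773361309) (dlOf (nat_lit 1) (nat_lit 0xc00180c1281))) 
(.lf (nat_lit 6377341085) (dlOf (nat_lit 1) (nat_lit 0xc00180c1281)))))) (.nd (nat_lit 18) 
(.nd (nat_lit 9) (.nd (nat_lit 6) (.nd (nat_lit 20) 
(.lf (nat_lit 4026695709) (dlOf (nat_lit 1) (nat_lit 0x20018030901))) 
(.lf (nat_lit 3490873373) (dlOf (nat_lit 2) (nat_lit 0xa08c00050448002821c002ba0c001000400060008030902)))) 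
(.lf (nat_lit 3489827165) (dlOf (nat_lit 1) (nat_lit 0x20008004e81)))) (.nd (nat_lit 21) 
(.lf (nat_lit 4228022813) (dlOf (nat_lit 1) (nat_lit 0x4004002a0008017f02))) 
(.lf (nat_lit 3491922461) (dlOf (nat_lit 4) (nat_lit 0xe1ad000b40100040e2800306b80028608001038a000cd0200020028090d81))))) 
(.nd (nat_lit 9) (.nd (nat_lit 6) (.nd (nat_lit 7) 
(.lf (nat_lit 4026957853) (dlOf (nat_lit 2) (nat_lit 0x38000001f302001c00080e0481))) 
(.lf (nat_lit 4228284573) (dlOf (nat_lit 1) (nat_lit 0x10008000800200040008090203)))) 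
(.lf (nat_lit 3493757021) (dlOf (nat_lit 1) (nat_lit 0x4002000200081b0002)))) (.nd (nat_lit 20) 
(.lf (nat_lit 3490611741) (dlOf (nat_lit 2) (nat_lit 0x20aa0010140800c0008006400200360008017f03))) 
(.lf (nat_lit 3491660317) (dlOf (nat_lit 1) (nat_lit 0x3000008090d81))))))))) (.nd (nat_lit 6) 
(.nd (nat_lit 28) (.nd (nat_lit 18) (.nd (nat_lit 27) (.nd (nat_lit 8) (.nd (nat_lit 19) 
(.nd (nat_lit 21) 
(.lf (nat_lit 3288498237) (dlOf (nat_lit 11) (nat_lit 0x110100005a40800c0080002ce040014040000a00b000b302000500580058c08022008000cc0160014d040002020000a58100970100043802c0028608002004000b401e00a7009801e003c00276100078040005400b0006682000b0100013802c0019808009c004000c0018030d02))) 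
(.lf (nat_lit 52592701) (dlOf (nat_lit 2) (nat_lit 0x1cb29000aa019550600)))) (.nd (nat_lit 9) 
(.lf (nat_lit 58359869) (dlOf (nat_lit 1) (nat_lit 0x1a00197e0001))) 
(.lf (nat_lit 8029757) (dlOf (nat_lit 1) (nat_lit 0x400200020008513782))))) (.nd (nat_lit 7) 
(.lf (nat_lit 4362240317) (dlOf (nat_lit 1) (nat_lit 0x80028014c01))) (.nd (nat_lit 10) 
(.lf (nat_lit 168381) (dlOf (nat_lit 1) (nat_lit 0x20018008581))) 
(.lf (nat_lit 1610778045) (dlOf (nat_lit 1) (nat_lit 0x180080004002000e0008093603)))))) 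
(.nd (nat_lit 26) (.nd (nat_lit 7) 
(.lf (nat_lit 134905917) (dlOf (nat_lit 2) (nat_lit 0xf01880078044000f0080050004000800080d0b82))) 
(.nd (nat_lit 8) (.lf (nat_lit 1208126141) (dlOf (nat_lit 1) (nat_lit 0x60028095781))) 
(.lf (nat_lit 2818736573) (dlOf (nat_lit 1) (nat_lit 0x10008001c002003000080e7a83))))) 
(.nd (nat_lit 19) (.nd (nat_lit 29) 
(.lf (nat_lit 3422715965) (dlOf (nat_lit 2) (nat_lit 0x24066000210200020018070e01))) 
(.lf (nat_lit 6107070525) (dlOf (nat_lit 2) (nat_lit 0x20054008bc04000800400040018051682)))) 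
(.lf (nat_lit 202014781) (dlOf (nat_lit 2) (nat_lit 0xf01880078044000f0080050004000800080d0b82)))))) 
(.nd (nat_lit 9) (.nd (nat_lit 7) (.nd (nat_lit 19) (.nd (nat_lit 22) 
(.lf (nat_lit 62292029) (dlOf (nat_lit 1) (nat_lit 0x20009990781))) 
(.lf (nat_lit 24543293) (dlOf (nat_lit 1) (nat_lit 0x1c0008ba0c01)))) 
(.lf (nat_lit 21921853) (dlOf (nat_lit 1) (nat_lit 0x8008000400200020008a80d03)))) 
(.nd (nat_lit 21) 
(.lf (nat_lit 1611038909) (dlOf (nat_lit 1) (nat_lit 0x18008000c002000400080c1703))) 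
(.lf (nat_lit 23494845) (dlOf (nat_lit 1) (nat_lit 0x20018b80381))))) (.nd (nat_lit 8) 
(.nd (nat_lit 7) (.lf (nat_lit 8816189) (dlOf (nat_lit 1) (nat_lit 0x20002000a0008513782))) 
(.lf (nat_lit 19829437) (dlOf (nat_lit 1) (nat_lit 0x80080004002000200089d8c83)))) 
(.nd (nat_lit 20) 
(.lf (nat_lit 431933) (dlOf (nat_lit 3) (nat_lit 0x119c800072040014c1e00038020002001800a101))) 
(.lf (nat_lit 20354877) (dlOf (nat_lit 4) (nat_lit 0x1abb8000d00400095dc00066020008aee000210189da100))))))) 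
(.nd (nat_lit 26) (.nd (nat_lit 30) (.nd (nat_lit 31) (.nd (nat_lit 7) 
(.lf (nat_lit 268599357) (dlOf (nat_lit 4) (nat_lit 0x1402c0010015002700a0000801c008ec10000c02a00480140023a82002300a0011d008022800800f0002000800080a1683))) 
(.lf (nat_lit 805473981) (dlOf (nat_lit 1) (nat_lit 0x400200020008117282)))) (.nd (nat_lit 8) 
(.lf (nat_lit 6711050301) (dlOf (nat_lit 2) (nat_lit 0x20054013e404000800400040018051682))) 
(.lf (nat_lit 2416083261) (dlOf (nat_lit 1) (nat_lit 0xa0018048501))))) (.nd (nat_lit 18) 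
(.nd (nat_lit 8) (.nd (nat_lit 9) 
(.lf (nat_lit 4026695741) (dlOf (nat_lit 11) (nat_lit 0x110100005a40800c0080002ce040014040000a00b000b302000500580058c08022008000cc0160014d040002020000a58100970100043802c0028608002004000b401e00a7009801e003c00276100078040005400b0006682000b0100013802c0019808009c004000c0018030d02))) 
(.lf (nat_lit 1342341693) (dlOf (nat_lit 1) (nat_lit 0x400400020008018202)))) 
(.lf (nat_lit 1342341437) (dlOf (nat_lit 1) (nat_lit 0x20008000400200020008014c03)))) 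
(.nd (nat_lit 7) (.nd (nat_lit 8) 
(.lf (nat_lit 5637570621) (dlOf (nat_lit 2) (nat_lit 0x340340053d0200580018111681))) 
(.lf (nat_lit 3492710205) (dlOf (nat_lit 1) (nat_lit 0x10004001e00080f3e02)))) 
(.lf (nat_lit 1344701629) (dlOf (nat_lit 2) (nat_lit 0x100750000e018982c80)))))) (.nd (nat_lit 30) 
(.nd (nat_lit 27) (.nd (nat_lit 12) 
(.lf (nat_lit 4630675517) (dlOf (nat_lit 3) (nat_lit 0x10058000800a0048c040004016000200280122c100018008000800200100008051683))) 
(.lf (nat_lit 3020066877) (dlOf (nat_lit 1) (nat_lit 0x60018127d01)))) (.nd (nat_lit 8) 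
(.nd (nat_lit 9) 
(.lf (nat_lit 4764893245) (dlOf (nat_lit 3) (nat_lit 0x10058000800a00a150400040160002002802850100018008000800200100008051683))) 
(.lf (nat_lit 469926461) (dlOf (nat_lit 1) (nat_lit 0x20008018b01)))) 
(.lf (nat_lit 469926205) (dlOf (nat_lit 1) (nat_lit 0x20008000400200020008014c03))))) 
(.nd (nat_lit 19) (.nd (nat_lit 8) (.nd (nat_lit 9) 
(.lf (nat_lit 6241550397) (dlOf (nat_lit 2) (nat_lit 0x3403400ad10200580018111681))) 
(.lf (nat_lit 4228022845) (dlOf (nat_lit 3) (nat_lit 0xe80320021b0100740190010cc080068008002000200160008018203)))) 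
(.lf (nat_lit 4228022589) (dlOf (nat_lit 1) (nat_lit 0x80028014c01)))) (.nd (nat_lit 20) 
(.lf (nat_lit 4228546621) (dlOf (nat_lit 2) (nat_lit 0x11019000138080228008000c002001e00080f1403))) 
(.lf (nat_lit 4095377469) (dlOf (nat_lit 1) (nat_lit 0x4004000200080a1682)))))))) (.nd (nat_lit 9) 
(.nd (nat_lit 8) (.nd (nat_lit 10) (.nd (nat_lit 18) (.nd (nat_lit 11) 
(.lf (nat_lit 28475517) (dlOf (nat_lit 1) (nat_lit 0x400200020008da0482))) 
(.lf (nat_lit 939690109) (dlOf (nat_lit 1) (nat_lit 0x60008144781)))) (.nd (nat_lit 7) 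
(.lf (nat_lit 21397629) (dlOf (nat_lit 2) (nat_lit 0x853c0004804005c00400540008a30c82))) 
(.lf (nat_lit 19824893) (dlOf (nat_lit 1) (nat_lit 0x4002000200089d0a82))))) (.nd (nat_lit 7) 
(.nd (nat_lit 11) 
(.lf (nat_lit 6377866365) (dlOf (nat_lit 1) (nat_lit 0x1100080104002000800080e2a83))) 
(.lf (nat_lit 171133) (dlOf (nat_lit 1) (nat_lit 0x800800040020002000800c103)))) 
(.lf (nat_lit 5772313853) (dlOf (nat_lit 2) (nat_lit 0x4e1310000f818092f00))))) (.nd (nat_lit 10) 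
(.nd (nat_lit 7) (.nd (nat_lit 11) 
(.lf (nat_lit 21397885) (dlOf (nat_lit 1) (nat_lit 0x7800800c000200260008a35a83))) 
(.lf (nat_lit 3490089341) (dlOf (nat_lit 1) (nat_lit 0x400200020008004e82)))) (.nd (nat_lit 19) 
(.lf (nat_lit 2886107645) (dlOf (nat_lit 1) (nat_lit 0x28008000800200020008157e03))) 
(.lf (nat_lit 2752414205) (dlOf (nat_lit 3) (nat_lit 0x2083f0000220200681f80000e018017e00))))) 
(.nd (nat_lit 11) (.nd (nat_lit 7) 
(.lf (nat_lit 43681149) (dlOf (nat_lit 1) (nat_lit 0x4004000200092a3582))) 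
(.lf (nat_lit 8820221) (dlOf (nat_lit 3) (nat_lit 0x557d800580080042bec000e204002400200080008519c02)))) 
(.nd (nat_lit 12) (.lf (nat_lit 805473661) (dlOf (nat_lit 1) (nat_lit 0x20018116c01))) 
(.lf (nat_lit 1409457533) (dlOf (nat_lit 1) (nat_lit 0x800800040020002000800c903))))))) 
(.nd (nat_lit 27) (.nd (nat_lit 7) (.nd (nat_lit 10) (.nd (nat_lit 8) 
(.lf (nat_lit 5435984509) (dlOf (nat_lit 1) (nat_lit 0x40008095401))) 
(.lf (nat_lit 604408701) (dlOf (nat_lit 2) (nat_lit 0x801e800300d00018054000c020000600600030024000c0000022e0e000c0028205c01)))) 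
(.nd (nat_lit 18) (.lf (nat_lit 8558461) (dlOf (nat_lit 1) (nat_lit 0x40008000c002000c000851a303))) 
(.lf (nat_lit 8296317) (dlOf (nat_lit 1) (nat_lit 0x80020002000851a302))))) (.nd (nat_lit 8) 
(.lf (nat_lit 49974013) (dlOf (nat_lit 1) (nat_lit 0x4004000200094c5a82))) (.nd (nat_lit 21) 
(.lf (nat_lit 38437885) (dlOf (nat_lit 1) (nat_lit 0x3f4002023e0009132882))) 
(.lf (nat_lit 36340733) (dlOf (nat_lit 1) (nat_lit 0x800200020009072882)))))) (.nd (nat_lit 10) 
(.nd (nat_lit 7) (.nd (nat_lit 8) 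
(.lf (nat_lit 1208126077) (dlOf (nat_lit 1) (nat_lit 0x400400020008095402))) 
(.lf (nat_lit 473074557) (dlOf (nat_lit 2) (nat_lit 0x70b2800688080030008003c002000c0008c95c03)))) 
(.lf (nat_lit 1208386557) (dlOf (nat_lit 1) (nat_lit 0x8200180e2881)))) (.nd (nat_lit 8) 
(.lf (nat_lit 6375507581) (dlOf (nat_lit 2) (nat_lit 0x1013500016818003980))) (.nd (nat_lit 12) 
(.lf (nat_lit 3959588733) (dlOf (nat_lit 1) (nat_lit 0xc00200020008114102))) 
(.lf (nat_lit 3892483965) (dlOf (nat_lit 1) (nat_lit 0x798008000400200c0000815a303))))))))))))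

end

end Pool.Agent.Lib.MP_5854e1_co.Cz

namespace Pool.Agent.Lib.MP_5854e1_co.Cz

noncomputable section

noncomputable def tz61 : DT := (.nd (nat_lit 15) (.nd (nat_lit 6) (.nd (nat_lit 19) 
(.nd (nat_lit 28) (.nd (nat_lit 18) (.nd (nat_lit 4) (.nd (nat_lit 10) (.nd (nat_lit 5) 
(.nd (nat_lit 23) (.nd (nat_lit 30) (.nd (nat_lit 20) (.nd (nat_lit 26) 
(.lf (nat_lit 2147680269) (dlOf (nat_lit 1) (nat_lit 0x17600280c0001))) 
(.lf (nat_lit 4899143693) (dlOf (nat_lit 1) (nat_lit 0x8008000400200400008090083)))) 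
(.lf (nat_lit 18022413) (dlOf (nat_lit 2) (nat_lit 0x499ec001b204000800200020008900582)))) 
(.nd (nat_lit 11) (.nd (nat_lit 26) 
(.lf (nat_lit 1073938445) (dlOf (nat_lit 1) (nat_lit 0x20028030481))) 
(.lf (nat_lit 1275265037) (dlOf (nat_lit 1) (nat_lit 0x17600280c0001)))) 
(.lf (nat_lit 5905778701) (dlOf (nat_lit 1) (nat_lit 0x400200020008144702))))) (.nd (nat_lit 7) 
(.nd (nat_lit 20) (.lf (nat_lit 14876685) (dlOf (nat_lit 1) (nat_lit 0x1a0028790001))) 
(.lf (nat_lit 43188237) (dlOf (nat_lit 1) (nat_lit 0x1000292a0001)))) (.nd (nat_lit 24) 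
(.lf (nat_lit 48433549) (dlOf (nat_lit 1) (nat_lit 0x40029404e81))) 
(.lf (nat_lit 31656333) (dlOf (nat_lit 2) (nat_lit 0x1533f000a999c0161208002c004006a0018e94e82)))))) 
(.nd (nat_lit 20) (.nd (nat_lit 9) (.nd (nat_lit 23) 
(.lf (nat_lit 3288530989) (dlOf (nat_lit 2) (nat_lit 0x1101a8000a00801100080004002003c0008070903))) 
(.lf (nat_lit 25362477) (dlOf (nat_lit 2) (nat_lit 0x19b0ac0009e04000800200040008c00602)))) 
(.lf (nat_lit 2294317) (dlOf (nat_lit 1) (nat_lit 0x100028150e81)))) (.nd (nat_lit 7) 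
(.lf (nat_lit 18022445) (dlOf (nat_lit 1) (nat_lit 0x160008900b01))) 
(.lf (nat_lit 36899245) (dlOf (nat_lit 1) (nat_lit 0x4004004e0009074e82)))))) (.nd (nat_lit 8) 
(.nd (nat_lit 5) (.nd (nat_lit 9) (.nd (nat_lit 11) 
(.lf (nat_lit 40043533) (dlOf (nat_lit 1) (nat_lit 0x400191f2881))) 
(.lf (nat_lit 46337037) (dlOf (nat_lit 2) (nat_lit 0x8bd300009819385f80)))) 
(.lf (nat_lit 43189773) (dlOf (nat_lit 1) (nat_lit 0x600292a3681)))) (.nd (nat_lit 7) 
(.lf (nat_lit 6509760045) (dlOf (nat_lit 1) (nat_lit 0x400200020008147182))) 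
(.lf (nat_lit 32703661) (dlOf (nat_lit 1) (nat_lit 0x400200020008ef2c02))))) (.nd (nat_lit 7) 
(.nd (nat_lit 26) 
(.lf (nat_lit 2684556557) (dlOf (nat_lit 2) (nat_lit 0x1003200040158001e41000580080004002003a00080a9683))) 
(.lf (nat_lit 2214794509) (dlOf (nat_lit 1) (nat_lit 0x200180a9681)))) 
(.lf (nat_lit 20123021) (dlOf (nat_lit 1) (nat_lit 0x80080008002000200089d6c83)))))) 
(.nd (nat_lit 32) (.nd (nat_lit 30) (.nd (nat_lit 7) (.nd (nat_lit 20) 
(.lf (nat_lit 25362461) (dlOf (nat_lit 2) (nat_lit 0x6a34a4025597e0060c1b000d9838c00480))) 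
(.lf (nat_lit 2752708637) (dlOf (nat_lit 1) (nat_lit 0x10008000400200060008030903)))) 
(.lf (nat_lit 35849373) (dlOf (nat_lit 1) (nat_lit 0x1800200020009012b82)))) (.nd (nat_lit 5) 
(.nd (nat_lit 7) 
(.lf (nat_lit 1073938461) (dlOf (nat_lit 1) (nat_lit 0x48008001400200080008030903))) 
(.lf (nat_lit 3221424541) (dlOf (nat_lit 1) (nat_lit 0x10008000400200020008114e83)))) 
(.nd (nat_lit 8) 
(.lf (nat_lit 1073938493) (dlOf (nat_lit 2) (nat_lit 0x2009c0027604000400400020008030d02))) 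
(.lf (nat_lit 3959626045) (dlOf (nat_lit 1) (nat_lit 0xc0040002000811ab82)))))) (.nd (nat_lit 5) 
(.nd (nat_lit 11) (.nd (nat_lit 26) 
(.lf (nat_lit 4832034845) (dlOf (nat_lit 1) (nat_lit 0x5800801f400200840008090083))) 
(.lf (nat_lit 5570232349) (dlOf (nat_lit 1) (nat_lit 0x1c004000e0008090082)))) (.nd (nat_lit 7) 
(.lf (nat_lit 6509760029) (dlOf (nat_lit 1) (nat_lit 0x20028147101))) 
(.lf (nat_lit 4966255005) (dlOf (nat_lit 1) (nat_lit 0x400400020008094e82))))) (.nd (nat_lit 8) 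
(.nd (nat_lit 9) (.lf (nat_lit 6442647613) (dlOf (nat_lit 1) (nat_lit 0x400400020008120d02))) 
(.lf (nat_lit 4362273341) (dlOf (nat_lit 1) (nat_lit 0xd8008018000200440008018b03)))) 
(.lf (nat_lit 6509759805) (dlOf (nat_lit 1) (nat_lit 0xf4004008a0018146902))))))) (.nd (nat_lit 4) 
(.nd (nat_lit 26) (.nd (nat_lit 7) (.nd (nat_lit 5) (.nd (nat_lit 20) (.nd (nat_lit 21) 
(.nd (nat_lit 22) 
(.lf (nat_lit 1074200589) (dlOf (nat_lit 7) (nat_lit 0x190052001400b0003e8200540148001f00800180a4000f6040110052000750200a8029000398100150148000000800c80080034002001000080d0483))) 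
(.lf (nat_lit 54984717) (dlOf (nat_lit 1) (nat_lit 0x20019680001)))) 
(.lf (nat_lit 2555917) (dlOf (nat_lit 1) (nat_lit 0x20018170381)))) 
(.lf (nat_lit 9895949) (dlOf (nat_lit 1) (nat_lit 0x8008000400200020008590083)))) (.nd (nat_lit 22) 
(.lf (nat_lit 1611071533) (dlOf (nat_lit 1) (nat_lit 0xb800080d0381))) 
(.lf (nat_lit 13041709) (dlOf (nat_lit 4) (nat_lit 0x8c8000016020002640000028100043200000100800400080054002001800086f0d83))))) 
(.nd (nat_lit 20) (.nd (nat_lit 21) 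
(.lf (nat_lit 134676621) (dlOf (nat_lit 3) (nat_lit 0x11201d808c80d80006c0800380000000002004e0008090101))) 
(.lf (nat_lit 23527565) (dlOf (nat_lit 2) (nat_lit 0x1a5cd003726780007608000c00200060008b80102)))) 
(.lf (nat_lit 11993229) (dlOf (nat_lit 2) (nat_lit 0x30c7e0026628000330900061840002cb7200025a500012c30000ec3801280080004002000400086c0103))))) 
(.nd (nat_lit 5) (.nd (nat_lit 27) (.nd (nat_lit 29) 
(.lf (nat_lit 4362535053) (dlOf (nat_lit 1) (nat_lit 0x5c004003a0008090102))) 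
(.lf (nat_lit 1678180493) (dlOf (nat_lit 1) (nat_lit 0x8002000600081a0102)))) (.nd (nat_lit 7) 
(.lf (nat_lit 2886139917) (dlOf (nat_lit 1) (nat_lit 0x8008000400200020008160483))) 
(.lf (nat_lit 201785485) (dlOf (nat_lit 3) (nat_lit 0x11201d808c80d80006c0800380000000002004e0008090101))))) 
(.nd (nat_lit 8) (.nd (nat_lit 31) 
(.lf (nat_lit 738656301) (dlOf (nat_lit 1) (nat_lit 0xb800080d0381))) 
(.lf (nat_lit 2886139949) (dlOf (nat_lit 1) (nat_lit 0x60008160581)))) 
(.lf (nat_lit 4362535213) (dlOf (nat_lit 1) (nat_lit 0x400200020008090502)))))) (.nd (nat_lit 21) 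
(.nd (nat_lit 5) (.nd (nat_lit 22) (.nd (nat_lit 26) 
(.lf (nat_lit 3892772893) (dlOf (nat_lit 2) (nat_lit 0x900c0029f4080058008007c00200040008250683))) 
(.lf (nat_lit 201785373) (dlOf (nat_lit 2) (nat_lit 0x20208011200800b000800a000200560008090003)))) 
(.lf (nat_lit 13041693) (dlOf (nat_lit 4) (nat_lit 0x631b0003186c0002c080038c6c0001402000c636000330d8000141000780080060002001e00086f0583)))) 
(.nd (nat_lit 9) (.lf (nat_lit 134676541) (dlOf (nat_lit 1) (nat_lit 0x400400500018090002))) 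
(.lf (nat_lit 8848957) (dlOf (nat_lit 1) (nat_lit 0x80028513781))))) (.nd (nat_lit 22) 
(.nd (nat_lit 7) 
(.lf (nat_lit 2754019357) (dlOf (nat_lit 1) (nat_lit 0x480080010002000e00080b0983))) 
(.lf (nat_lit 44501405) (dlOf (nat_lit 1) (nat_lit 0x400200020009324e82)))) (.nd (nat_lit 20) 
(.lf (nat_lit 48693277) (dlOf (nat_lit 4) (nat_lit 0x73b36804288800008608018ec000003f0200296000001e819420100))) 
(.lf (nat_lit 49741853) (dlOf (nat_lit 2) (nat_lit 0x12b5b0001d8194a0100)))))))) (.nd (nat_lit 4) 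
(.nd (nat_lit 5) (.nd (nat_lit 31) (.nd (nat_lit 29) (.nd (nat_lit 7) (.nd (nat_lit 8) 
(.lf (nat_lit 471007245) (dlOf (nat_lit 1) (nat_lit 0x40018230181))) 
(.lf (nat_lit 268632333) (dlOf (nat_lit 1) (nat_lit 0x4002000200080e0a82)))) 
(.lf (nat_lit 1543703949) (dlOf (nat_lit 7) (nat_lit 0x8a019004b003000a0000000360c01f80580072019003900300208000000321001cc0580082019003f003002080000001610023405800860190043003002200000001410001c05800020000000482002e00000001c0800c0008000800200100008146c83)))) 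
(.nd (nat_lit 7) (.nd (nat_lit 18) 
(.lf (nat_lit 1946353677) (dlOf (nat_lit 1) (nat_lit 0x20028030481))) 
(.lf (nat_lit 1946615821) (dlOf (nat_lit 7) (nat_lit 0x190052001400b0003e8200540148001f00800180a4000f6040110052000750200a8029000398100150148000000800c80080034002001000080d0483)))) 
(.lf (nat_lit 805765261) (dlOf (nat_lit 1) (nat_lit 0x8002000600081a0102))))) (.nd (nat_lit 26) 
(.nd (nat_lit 7) (.lf (nat_lit 3493004301) (dlOf (nat_lit 1) (nat_lit 0x200180f2881))) 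
(.nd (nat_lit 8) 
(.lf (nat_lit 3493005453) (dlOf (nat_lit 1) (nat_lit 0x80080004002000200080f4803))) 
(.lf (nat_lit 4026993037) (dlOf (nat_lit 1) (nat_lit 0x3c00180f4e81))))) (.nd (nat_lit 9) 
(.nd (nat_lit 10) (.lf (nat_lit 4228317325) (dlOf (nat_lit 1) (nat_lit 0x5c004003a0008090102))) 
(.lf (nat_lit 2617447565) (dlOf (nat_lit 1) (nat_lit 0x4004000200080a9502)))) 
(.lf (nat_lit 3556971149) (dlOf (nat_lit 1) (nat_lit 0xc00028128c01)))))) (.nd (nat_lit 18) 
(.nd (nat_lit 9) (.nd (nat_lit 27) 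
(.lf (nat_lit 4026728493) (dlOf (nat_lit 2) (nat_lit 0xf800d40648068034403101a101800ce00a801e8052008e023018801000b8802c000442401ec00400c60018070802))) 
(.lf (nat_lit 5234688045) (dlOf (nat_lit 1) (nat_lit 0x4a0028090c81)))) (.nd (nat_lit 7) 
(.nd (nat_lit 8) (.lf (nat_lit 3494052397) (dlOf (nat_lit 1) (nat_lit 0x20004000400081b0e82))) 
(.lf (nat_lit 3556972333) (dlOf (nat_lit 1) (nat_lit 0x2d80080130002005c000812a103)))) 
(.lf (nat_lit 805506733) (dlOf (nat_lit 1) (nat_lit 0x20018117281))))) (.nd (nat_lit 27) 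
(.nd (nat_lit 7) (.nd (nat_lit 20) 
(.lf (nat_lit 1342636077) (dlOf (nat_lit 4) (nat_lit 0x30249000a11900050748000540c0098462000180201ea000000080180a0900))) 
(.lf (nat_lit 3491168301) (dlOf (nat_lit 3) (nat_lit 0xb0000000a00803680000001804003c00200060008070902)))) 
(.lf (nat_lit 3490122157) (dlOf (nat_lit 1) (nat_lit 0x20018004e81)))) (.nd (nat_lit 26) 
(.nd (nat_lit 30) 
(.lf (nat_lit 2550595629) (dlOf (nat_lit 1) (nat_lit 0x300080004002000a00081b0003))) 
(.lf (nat_lit 3624337453) (dlOf (nat_lit 1) (nat_lit 0x60008160581)))) (.nd (nat_lit 8) 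
(.lf (nat_lit 470220845) (dlOf (nat_lit 9) (nat_lit 0x2024c001212480018920027047a0194232008c118802008b000183de00021ee00cc0e90007072000843780002a1801a0249009311f804788f40144464013c1d200660e40050871c00e437a00d21bc00014890087124802d88fc0003808023049200ca23f0000d8200c412480cd88fc01b4462003822b0000d04002c124800064080550924025047e02962310091115800a08a0000c304000180c01b224900b111f807008c4018c4560001708006a00180a0801))) 
(.lf (nat_lit 4228317485) (dlOf (nat_lit 1) (nat_lit 0x400200020008090502)))))))) (.nd (nat_lit 26) 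
(.nd (nat_lit 29) (.nd (nat_lit 18) (.nd (nat_lit 5) (.nd (nat_lit 7) 
(.lf (nat_lit 3490906141) (dlOf (nat_lit 1) (nat_lit 0x10008000400200060008030903))) 
(.lf (nat_lit 3493005469) (dlOf (nat_lit 2) (nat_lit 0xb0220000c00800100080004002000400080f4803)))) 
(.lf (nat_lit 3493005117) (dlOf (nat_lit 2) (nat_lit 0x200700005a040080004000a00180f3e02)))) 
(.nd (nat_lit 21) (.lf (nat_lit 1342636061) (dlOf (nat_lit 1) (nat_lit 0x200180a0601))) 
(.lf (nat_lit 3492216861) (dlOf (nat_lit 1) (nat_lit 0x480080010002000e00080b0983))))) 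
(.nd (nat_lit 5) (.nd (nat_lit 27) (.nd (nat_lit 30) 
(.lf (nat_lit 5100470301) (dlOf (nat_lit 2) (nat_lit 0x18038003f404000400400040008090082))) 
(.lf (nat_lit 6174212125) (dlOf (nat_lit 1) (nat_lit 0x1c004000e0008090082)))) 
(.lf (nat_lit 6308429853) (dlOf (nat_lit 6) (nat_lit 0x40300015f0200b4018000a201001400c0004dc0802280600026804004c030000000200220018080081)))) 
(.nd (nat_lit 7) (.nd (nat_lit 27) 
(.lf (nat_lit 2952986685) (dlOf (nat_lit 1) (nat_lit 0x900028080901))) 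
(.lf (nat_lit 5234688061) (dlOf (nat_lit 4) (nat_lit 0xc01700058080015a808002805c00120200056982000d010002b440800c8008005400200120008091683)))) 
(.lf (nat_lit 805765309) (dlOf (nat_lit 1) (nat_lit 0x80080004002000400081a0383)))))) 
(.nd (nat_lit 29) (.nd (nat_lit 12) (.nd (nat_lit 5) (.nd (nat_lit 18) 
(.lf (nat_lit 5704450077) (dlOf (nat_lit 6) (nat_lit 0x40300015a0200b4018000a201001400c0004dc0802280600026804004c030000000200220018080081))) 
(.lf (nat_lit 470220829) (dlOf (nat_lit 1) (nat_lit 0x200180a0601)))) 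
(.lf (nat_lit 5838667837) (dlOf (nat_lit 1) (nat_lit 0x400400020008120d02)))) (.nd (nat_lit 7) 
(.lf (nat_lit 3556970525) (dlOf (nat_lit 1) (nat_lit 0x38008003800200160008127a83))) 
(.lf (nat_lit 3556971165) (dlOf (nat_lit 1) (nat_lit 0x40018128c81))))) (.nd (nat_lit 5) 
(.nd (nat_lit 7) (.nd (nat_lit 21) 
(.lf (nat_lit 1946353693) (dlOf (nat_lit 1) (nat_lit 0x48008001400200080008030903))) 
(.lf (nat_lit 1008926749) (dlOf (nat_lit 2) (nat_lit 0x103a0000000800080080014002000a0008fe0103)))) 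
(.nd (nat_lit 9) 
(.lf (nat_lit 872613021) (dlOf (nat_lit 1) (nat_lit 0x88008000400200060008092b83))) 
(.lf (nat_lit 6241323677) (dlOf (nat_lit 1) (nat_lit 0x10008000c002000600080d5583))))) 
(.nd (nat_lit 7) (.nd (nat_lit 8) 
(.lf (nat_lit 1946353725) (dlOf (nat_lit 2) (nat_lit 0x2009c0027604000400400020008030d02))) 
(.lf (nat_lit 3020101437) (dlOf (nat_lit 1) (nat_lit 0x380080004002000a000812a103)))) 
(.lf (nat_lit 4228317373) (dlOf (nat_lit 2) (nat_lit 0x30058000120200060018090381))))))))) 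
(.nd (nat_lit 21) (.nd (nat_lit 5) (.nd (nat_lit 4) (.nd (nat_lit 20) (.nd (nat_lit 26) 
(.nd (nat_lit 27) (.lf (nat_lit 537591821) (dlOf (nat_lit 1) (nat_lit 0x39600080c0801))) 
(.nd (nat_lit 29) (.lf (nat_lit 134938637) (dlOf (nat_lit 1) (nat_lit 0x200180e0081))) 
(.lf (nat_lit 2819293197) (dlOf (nat_lit 1) (nat_lit 0x40008220281))))) (.nd (nat_lit 27) 
(.lf (nat_lit 1410007053) (dlOf (nat_lit 1) (nat_lit 0x39600080c0801))) 
(.lf (nat_lit 202047501) (dlOf (nat_lit 1) (nat_lit 0x200180e0081))))) (.nd (nat_lit 18) 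
(.nd (nat_lit 9) (.nd (nat_lit 22) 
(.lf (nat_lit 18546701) (dlOf (nat_lit 2) (nat_lit 0x55d60031f018950280))) 
(.lf (nat_lit 22741005) (dlOf (nat_lit 1) (nat_lit 0x20018b20101)))) 
(.lf (nat_lit 3491430925) (dlOf (nat_lit 2) (nat_lit 0x681ed0010e818090d80)))) (.nd (nat_lit 9) 
(.nd (nat_lit 22) (.lf (nat_lit 3491692557) (dlOf (nat_lit 1) (nat_lit 0x80028090001))) 
(.lf (nat_lit 23003149) (dlOf (nat_lit 1) (nat_lit 0xc00200080008b40102)))) 
(.lf (nat_lit 39782925) (dlOf (nat_lit 1) (nat_lit 0x1800191f5001)))))) (.nd (nat_lit 26) 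
(.nd (nat_lit 18) (.nd (nat_lit 20) (.nd (nat_lit 29) 
(.lf (nat_lit 134938653) (dlOf (nat_lit 3) (nat_lit 0xe8013c0044c040270000001f202006400180e0481))) 
(.lf (nat_lit 3893035037) (dlOf (nat_lit 1) (nat_lit 0x8008000400200020008300683)))) 
(.lf (nat_lit 18546717) (dlOf (nat_lit 1) (nat_lit 0x20018950681)))) (.nd (nat_lit 22) 
(.lf (nat_lit 59703325) (dlOf (nat_lit 1) (nat_lit 0x400400020009820102))) 
(.lf (nat_lit 21954589) (dlOf (nat_lit 2) (nat_lit 0x13e98000124018a80900))))) (.nd (nat_lit 27) 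
(.nd (nat_lit 7) (.nd (nat_lit 28) 
(.lf (nat_lit 4362797085) (dlOf (nat_lit 3) (nat_lit 0x27c033000d18100160198005cc080230008000c00200ac0008100483))) 
(.lf (nat_lit 3557490717) (dlOf (nat_lit 1) (nat_lit 0xc0028220681)))) 
(.lf (nat_lit 2752186013) (dlOf (nat_lit 1) (nat_lit 0x240028003a81)))) (.nd (nat_lit 28) 
(.lf (nat_lit 202047517) (dlOf (nat_lit 3) (nat_lit 0xe801380044c040270000001f302006400180e0481))) 
(.lf (nat_lit 4228579357) (dlOf (nat_lit 3) (nat_lit 0x27c032000d98100160190005c4080230008000c00200ac0008100483))))))) 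
(.nd (nat_lit 18) (.nd (nat_lit 20) (.nd (nat_lit 31) (.nd (nat_lit 4) (.nd (nat_lit 28) 
(.lf (nat_lit 4362797101) (dlOf (nat_lit 4) (nat_lit 0x1d40660003202018a0330001881002c0198000c00801c8008003800200600008100603))) 
(.lf (nat_lit 1410007085) (dlOf (nat_lit 2) (nat_lit 0x1b40980002102000800280c0d81)))) 
(.lf (nat_lit 1410007101) (dlOf (nat_lit 6) (nat_lit 0x6c40a40005802002206b004002e805a016801780ae094605200c4019800a809401d4044005201f004800e00220048000ae2c008806600026020008033000048100a601980000008024800800a8002003c00080c1403)))) 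
(.nd (nat_lit 10) 
(.lf (nat_lit 4228579373) (dlOf (nat_lit 4) (nat_lit 0x1d40640003302018a0320001901002c0190000c40801c8008003800200600008100603))) 
(.lf (nat_lit 3490384941) (dlOf (nat_lit 1) (nat_lit 0x80028006081))))) (.nd (nat_lit 26) 
(.nd (nat_lit 28) 
(.lf (nat_lit 1769517) (dlOf (nat_lit 5) (nat_lit 0x3f0b800b885a8001015e004a0a3016600a80020000000541800102f20230170014d0b50009028c04cc02a000290a01221f1008a0000000881000307c400282e80001704003a0018130801))) 
(.lf (nat_lit 1343946797) (dlOf (nat_lit 2) (nat_lit 0x42d600020c900039028380e00)))) 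
(.nd (nat_lit 7) 
(.lf (nat_lit 4095410221) (dlOf (nat_lit 2) (nat_lit 0x3001c00000040010002000600080b0d02))) 
(.lf (nat_lit 68879533) (dlOf (nat_lit 1) (nat_lit 0x4004000600087e2c02)))))) (.nd (nat_lit 4) 
(.nd (nat_lit 7) (.nd (nat_lit 22) 
(.lf (nat_lit 470745133) (dlOf (nat_lit 1) (nat_lit 0x5800400020008170402))) 
(.lf (nat_lit 5177389) (dlOf (nat_lit 4) (nat_lit 0x5e5fb80017c080042fdc000ba04010d81c0058bf7002a59280cea9e009614cc000540a004c0028320681)))) 
(.nd (nat_lit 23) (.lf (nat_lit 56558765) (dlOf (nat_lit 1) (nat_lit 0x400200020009732c02))) 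
(.lf (nat_lit 48170157) (dlOf (nat_lit 1) (nat_lit 0x120009402c01))))) (.nd (nat_lit 23) 
(.nd (nat_lit 24) (.lf (nat_lit 5177405) (dlOf (nat_lit 1) (nat_lit 0x400200580008320902))) 
(.lf (nat_lit 21954621) (dlOf (nat_lit 2) (nat_lit 0x8b9d0009d818a80d00)))) (.nd (nat_lit 20) 
(.lf (nat_lit 13566013) (dlOf (nat_lit 2) (nat_lit 0x462d10004f818730b80))) 
(.lf (nat_lit 14614589) (dlOf (nat_lit 1) (nat_lit 0x80018770481)))))))) (.nd (nat_lit 4) 
(.nd (nat_lit 18) (.nd (nat_lit 28) (.nd (nat_lit 20) (.nd (nat_lit 5) (.nd (nat_lit 7) 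
(.lf (nat_lit 2754281485) (dlOf (nat_lit 3) (nat_lit 0x4419a0007c0200020cd0003a8180d0480))) 
(.lf (nat_lit 40569229) (dlOf (nat_lit 1) (nat_lit 0x800191f4e81)))) 
(.lf (nat_lit 11206701) (dlOf (nat_lit 1) (nat_lit 0xc0008000c00200180008670683)))) 
(.nd (nat_lit 5) (.nd (nat_lit 8) 
(.lf (nat_lit 16449549) (dlOf (nat_lit 1) (nat_lit 0x200188a0181))) 
(.lf (nat_lit 20649229) (dlOf (nat_lit 1) (nat_lit 0x200289d9681)))) 
(.lf (nat_lit 16449581) (dlOf (nat_lit 1) (nat_lit 0x1000188a0701))))) (.nd (nat_lit 5) 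
(.nd (nat_lit 7) (.nd (nat_lit 10) 
(.lf (nat_lit 3492478989) (dlOf (nat_lit 3) (nat_lit 0x441b60007c0200020db0003a8180d0480))) 
(.lf (nat_lit 1346044941) (dlOf (nat_lit 1) (nat_lit 0x3c0018e22881)))) 
(.lf (nat_lit 4096459149) (dlOf (nat_lit 1) (nat_lit 0x1120018115d81)))) (.nd (nat_lit 7) 
(.nd (nat_lit 26) 
(.lf (nat_lit 1344995373) (dlOf (nat_lit 2) (nat_lit 0x30a68000380800280080014002000800089b0983))) 
(.lf (nat_lit 472580141) (dlOf (nat_lit 2) (nat_lit 0x17014500ba09e805d033c024c0380000008003000089c0281)))) 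
(.lf (nat_lit 6378160557) (dlOf (nat_lit 2) (nat_lit 0x58000015f404000c00200140008116e82)))))) 
(.nd (nat_lit 5) (.nd (nat_lit 7) (.nd (nat_lit 9) (.nd (nat_lit 11) 
(.lf (nat_lit 46071821) (dlOf (nat_lit 1) (nat_lit 0x180029380001))) 
(.lf (nat_lit 3492743181) (dlOf (nat_lit 1) (nat_lit 0x480080028002000a00080f4703)))) 
(.lf (nat_lit 8324621) (dlOf (nat_lit 2) (nat_lit 0x786700006c04000400400040008513682)))) 
(.nd (nat_lit 10) (.nd (nat_lit 8) 
(.lf (nat_lit 3080333) (dlOf (nat_lit 2) (nat_lit 0x509f8000ec080008008000400200020008200103))) 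
(.lf (nat_lit 2754550669) (dlOf (nat_lit 1) (nat_lit 0x1a00180fbc81)))) (.nd (nat_lit 24) 
(.lf (nat_lit 2754550925) (dlOf (nat_lit 1) (nat_lit 0x80080008002000200080fc203))) 
(.lf (nat_lit 19864717) (dlOf (nat_lit 1) (nat_lit 0x80080004002000200089dc203)))))) 
(.nd (nat_lit 9) (.nd (nat_lit 20) 
(.lf (nat_lit 11468845) (dlOf (nat_lit 8) (nat_lit 0x5328f8000a80814f90b409e035e030a168028101a811580300ac4000000220c040452100d7290000c0f60000200c0a7ca42005e520000078200f1290800294800001c080404a420000d02013e521000008186a0800))) 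
(.lf (nat_lit 20906029) (dlOf (nat_lit 1) (nat_lit 0xf800089f0401)))) (.nd (nat_lit 8) 
(.nd (nat_lit 12) 
(.lf (nat_lit 24052269) (dlOf (nat_lit 11) (nat_lit 0x130bc00097c40001f820006c2f00015f100006c0800230bc000f7c40001a020008c2f0002df10000540800170bc000b7c400011820008c2f00008008003e1780003c0400230bc000f7c400006020007c2f000024080046178000ef88000000400060028b80e81))) 
(.lf (nat_lit 19862061) (dlOf (nat_lit 1) (nat_lit 0x1a00289d8981)))) 
(.lf (nat_lit 2754550573) (dlOf (nat_lit 1) (nat_lit 0xe00180fbc81))))))) (.nd (nat_lit 20) 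
(.nd (nat_lit 5) (.nd (nat_lit 8) (.nd (nat_lit 7) 
(.lf (nat_lit 11206685) (dlOf (nat_lit 3) (nat_lit 0x28000000830080240000003660401f400200420008670482))) 
(.nd (nat_lit 10) (.lf (nat_lit 32178333) (dlOf (nat_lit 1) (nat_lit 0x100028ef0501))) 
(.lf (nat_lit 19860637) (dlOf (nat_lit 1) (nat_lit 0x2800189d6281))))) (.nd (nat_lit 9) 
(.lf (nat_lit 19864989) (dlOf (nat_lit 1) (nat_lit 0x10004000a00189dca82))) 
(.lf (nat_lit 19864477) (dlOf (nat_lit 1) (nat_lit 0x80080004002000200089dbc83))))) 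
(.nd (nat_lit 8) (.nd (nat_lit 23) 
(.lf (nat_lit 472580157) (dlOf (nat_lit 3) (nat_lit 0x3106c80092408017050c00b819a001c704000200189c0601))) 
(.lf (nat_lit 11206717) (dlOf (nat_lit 1) (nat_lit 0x20018670e01)))) (.nd (nat_lit 7) 
(.lf (nat_lit 3080509) (dlOf (nat_lit 1) (nat_lit 0x400400020008200582))) 
(.lf (nat_lit 6378160573) (dlOf (nat_lit 1) (nat_lit 0x160018117001)))))) (.nd (nat_lit 8) 
(.nd (nat_lit 22) (.nd (nat_lit 26) (.nd (nat_lit 18) 
(.lf (nat_lit 45809693) (dlOf (nat_lit 3) (nat_lit 0x146189000902000010c1000f939400909a60003f04000c0029360101))) 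
(.lf (nat_lit 20906013) (dlOf (nat_lit 1) (nat_lit 0x2b80080004002004e00089f0103)))) 
(.nd (nat_lit 9) 
(.lf (nat_lit 473890845) (dlOf (nat_lit 2) (nat_lit 0xb7050c054019a0002f0400020018fc0101))) 
(.lf (nat_lit 2755592733) (dlOf (nat_lit 1) (nat_lit 0x2000081b0d81))))) (.nd (nat_lit 5) 
(.lf (nat_lit 16711709) (dlOf (nat_lit 1) (nat_lit 0x6800188d0681))) 
(.lf (nat_lit 25100349) (dlOf (nat_lit 2) (nat_lit 0x8d2900027018be1400))))) (.nd (nat_lit 7) 
(.nd (nat_lit 10) (.lf (nat_lit 8063261) (dlOf (nat_lit 2) (nat_lit 0x24af2000e30200020028514b81))) 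
(.lf (nat_lit 8328477) (dlOf (nat_lit 1) (nat_lit 0x1c0018519701)))) (.nd (nat_lit 12) 
(.lf (nat_lit 8325021) (dlOf (nat_lit 1) (nat_lit 0x5c0028514281))) 
(.lf (nat_lit 8329117) (dlOf (nat_lit 1) (nat_lit 0x22000800040020074000851a303)))))))))) 
(.nd (nat_lit 18) (.nd (nat_lit 28) (.nd (nat_lit 5) (.nd (nat_lit 8) (.nd (nat_lit 19) 
(.nd (nat_lit 20) (.nd (nat_lit 4) (.nd (nat_lit 30) 
(.lf (nat_lit 4496490573) (dlOf (nat_lit 1) (nat_lit 0xc0028090501))) 
(.lf (nat_lit 3422748749) (dlOf (nat_lit 1) (nat_lit 0x1c004000200080a0002)))) 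
(.lf (nat_lit 2818776157) (dlOf (nat_lit 1) (nat_lit 0x480020002000812c002)))) (.nd (nat_lit 21) 
(.lf (nat_lit 68354125) (dlOf (nat_lit 1) (nat_lit 0x400200020008570182))) 
(.lf (nat_lit 62062669) (dlOf (nat_lit 2) (nat_lit 0xa5ec00000019940600))))) (.nd (nat_lit 7) 
(.nd (nat_lit 10) (.nd (nat_lit 20) 
(.lf (nat_lit 2754281549) (dlOf (nat_lit 3) (nat_lit 0x2010e0004f020004087000268180d0d00))) 
(.lf (nat_lit 33226829) (dlOf (nat_lit 1) (nat_lit 0x20008002000200020008f50003)))) 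
(.lf (nat_lit 8068173) (dlOf (nat_lit 1) (nat_lit 0x2002851bf01)))) (.nd (nat_lit 21) 
(.lf (nat_lit 25886925) (dlOf (nat_lit 1) (nat_lit 0x40018c10481))) 
(.lf (nat_lit 7012557) (dlOf (nat_lit 1) (nat_lit 0xc004000200084b0482)))))) (.nd (nat_lit 4) 
(.nd (nat_lit 7) (.nd (nat_lit 26) 
(.lf (nat_lit 134414669) (dlOf (nat_lit 1) (nat_lit 0x9c0018014c81))) 
(.lf (nat_lit 201523533) (dlOf (nat_lit 1) (nat_lit 0x9c0018014c81)))) (.nd (nat_lit 9) 
(.nd (nat_lit 11) 
(.lf (nat_lit 2753757645) (dlOf (nat_lit 3) (nat_lit 0xe1d40000c8100070ea000060080098008006800200080008090a03))) 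
(.lf (nat_lit 46860749) (dlOf (nat_lit 1) (nat_lit 0x400400020009384e82)))) 
(.lf (nat_lit 36373453) (dlOf (nat_lit 1) (nat_lit 0x400400020009072882))))) (.nd (nat_lit 7) 
(.nd (nat_lit 9) (.nd (nat_lit 29) 
(.lf (nat_lit 4362273117) (dlOf (nat_lit 4) (nat_lit 0x808e0002e02009804700011010016023000034080090008009800200700008014e83))) 
(.lf (nat_lit 3825402205) (dlOf (nat_lit 1) (nat_lit 0x40028154e81)))) 
(.lf (nat_lit 8066909) (dlOf (nat_lit 1) (nat_lit 0x5800800040020012000851a303)))) 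
(.nd (nat_lit 19) (.lf (nat_lit 1610810333) (dlOf (nat_lit 1) (nat_lit 0x60008092881))) 
(.lf (nat_lit 69927901) (dlOf (nat_lit 1) (nat_lit 0x400400020008e12882))))))) (.nd (nat_lit 7) 
(.nd (nat_lit 8) (.nd (nat_lit 21) (.nd (nat_lit 4) 
(.lf (nat_lit 6107103341) (dlOf (nat_lit 1) (nat_lit 0xc00400060008090182))) (.nd (nat_lit 9) 
(.lf (nat_lit 2684556413) (dlOf (nat_lit 3) (nat_lit 0xc064000602b002748200030158013600800780080034002003000080a9503))) 
(.lf (nat_lit 5503126141) (dlOf (nat_lit 1) (nat_lit 0x400400020008095402))))) (.nd (nat_lit 9) 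
(.nd (nat_lit 10) (.lf (nat_lit 19071101) (dlOf (nat_lit 1) (nat_lit 0x40018970481))) 
(.lf (nat_lit 20649085) (dlOf (nat_lit 1) (nat_lit 0x200289d9501)))) 
(.lf (nat_lit 54200957) (dlOf (nat_lit 1) (nat_lit 0x18800400100009655402))))) (.nd (nat_lit 12) 
(.nd (nat_lit 9) (.lf (nat_lit 1610810749) (dlOf (nat_lit 1) (nat_lit 0x20028093581))) 
(.nd (nat_lit 10) 
(.lf (nat_lit 46861181) (dlOf (nat_lit 2) (nat_lit 0x195d8002460200040009385c01))) 
(.lf (nat_lit 3959621501) (dlOf (nat_lit 1) (nat_lit 0x400200020008114102))))) (.nd (nat_lit 23) 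
(.lf (nat_lit 3892516733) (dlOf (nat_lit 1) (nat_lit 0x7b8008000400200c0000815a303))) 
(.lf (nat_lit 8591229) (dlOf (nat_lit 1) (nat_lit 0x28008000c0020006000851a303)))))) 
(.nd (nat_lit 26) (.nd (nat_lit 9) (.nd (nat_lit 4) 
(.lf (nat_lit 8067565) (dlOf (nat_lit 1) (nat_lit 0x4001851b281))) 
(.lf (nat_lit 37423613) (dlOf (nat_lit 1) (nat_lit 0x4002000200090d4f82)))) (.nd (nat_lit 8) 
(.lf (nat_lit 2818772733) (dlOf (nat_lit 1) (nat_lit 0xa0018127481))) 
(.lf (nat_lit 47907837) (dlOf (nat_lit 1) (nat_lit 0x20004000c0019402882))))) (.nd (nat_lit 4) 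
(.nd (nat_lit 19) 
(.lf (nat_lit 4362273261) (dlOf (nat_lit 2) (nat_lit 0x1a802b00a60000000001000c0008021c002004a0008017d03))) 
(.lf (nat_lit 2753233389) (dlOf (nat_lit 1) (nat_lit 0x30008001000200040008090d03)))) 
(.nd (nat_lit 19) 
(.lf (nat_lit 4362273277) (dlOf (nat_lit 5) (nat_lit 0x1f02b002f815009f40560006706003e056006002a012c00ac000cc0c00900ac04f802b0002082001b02b013680ac0007e08031400400180008017e02))) 
(.lf (nat_lit 2753233405) (dlOf (nat_lit 2) (nat_lit 0x6c3f8001680200040028090d81)))))))) 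
(.nd (nat_lit 4) (.nd (nat_lit 26) (.nd (nat_lit 5) (.nd (nat_lit 8) (.nd (nat_lit 19) 
(.lf (nat_lit 1881342029) (dlOf (nat_lit 1) (nat_lit 0x80008ea0601))) 
(.lf (nat_lit 3492479053) (dlOf (nat_lit 3) (nat_lit 0x201140005602000408a0002a0180d0d00)))) 
(.nd (nat_lit 27) (.nd (nat_lit 9) 
(.lf (nat_lit 268632397) (dlOf (nat_lit 1) (nat_lit 0x70800801fc00201a000080e0d03))) 
(.lf (nat_lit 3489864525) (dlOf (nat_lit 1) (nat_lit 0x3c0020004000800bc82)))) (.nd (nat_lit 7) 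
(.lf (nat_lit 5773132109) (dlOf (nat_lit 1) (nat_lit 0xe800800b8002000400080a6683))) 
(.lf (nat_lit 4697817549) (dlOf (nat_lit 1) (nat_lit 0x40008091101)))))) (.nd (nat_lit 7) 
(.nd (nat_lit 8) 
(.lf (nat_lit 3624078445) (dlOf (nat_lit 1) (nat_lit 0x8008000400200020008146083))) 
(.lf (nat_lit 268634989) (dlOf (nat_lit 1) (nat_lit 0x4004000200080e5c02)))) (.nd (nat_lit 19) 
(.nd (nat_lit 27) 
(.lf (nat_lit 1342374381) (dlOf (nat_lit 1) (nat_lit 0x48008002800200120008017383))) 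
(.lf (nat_lit 939721197) (dlOf (nat_lit 1) (nat_lit 0x20008001800200020008157d03)))) 
(.lf (nat_lit 3491430893) (dlOf (nat_lit 1) (nat_lit 0x30008001000200040008090d03)))))) 
(.nd (nat_lit 7) (.nd (nat_lit 5) (.nd (nat_lit 19) 
(.lf (nat_lit 472055885) (dlOf (nat_lit 1) (nat_lit 0x1e0018800001))) (.nd (nat_lit 21) 
(.lf (nat_lit 6376063053) (dlOf (nat_lit 2) (nat_lit 0x400a00006404000800200020008071602))) 
(.lf (nat_lit 472580173) (dlOf (nat_lit 1) (nat_lit 0x74002001600089c0682))))) (.nd (nat_lit 9) 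
(.lf (nat_lit 1543703917) (dlOf (nat_lit 2) (nat_lit 0x1a00800016818146b00))) 
(.lf (nat_lit 4630711149) (dlOf (nat_lit 1) (nat_lit 0x400400020008095c02))))) (.nd (nat_lit 8) 
(.nd (nat_lit 9) (.lf (nat_lit 3556972749) (dlOf (nat_lit 1) (nat_lit 0x4002812a881))) 
(.lf (nat_lit 3556971213) (dlOf (nat_lit 1) (nat_lit 0x20018128c81)))) (.nd (nat_lit 9) 
(.lf (nat_lit 3556973005) (dlOf (nat_lit 2) (nat_lit 0x801c0003d408003000800040020002000812b083))) 
(.lf (nat_lit 5167580109) (dlOf (nat_lit 1) (nat_lit 0x400180d2881))))))) (.nd (nat_lit 5) 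
(.nd (nat_lit 8) (.nd (nat_lit 26) (.nd (nat_lit 9) (.nd (nat_lit 10) 
(.lf (nat_lit 6308429917) (dlOf (nat_lit 3) (nat_lit 0x200070001781002500c800000080140008008c00200360008080703))) 
(.lf (nat_lit 1344472157) (dlOf (nat_lit 1) (nat_lit 0xca0018802901)))) 
(.lf (nat_lit 2013464157) (dlOf (nat_lit 4) (nat_lit 0x5004c0004d02004602600023010093013000114080058008001800200120008093903)))) 
(.nd (nat_lit 19) (.nd (nat_lit 30) 
(.lf (nat_lit 4630708317) (dlOf (nat_lit 1) (nat_lit 0x400400020008090082))) 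
(.lf (nat_lit 5704450141) (dlOf (nat_lit 3) (nat_lit 0x200070001781002500c800000080140008008c00200360008080703)))) 
(.lf (nat_lit 472580189) (dlOf (nat_lit 5) (nat_lit 0x1402480001c0200ce0e5007805e001b008c000160c00981780000702004612f002005e0000001000080080138002005e00089c0883))))) 
(.nd (nat_lit 7) 
(.lf (nat_lit 469959005) (dlOf (nat_lit 1) (nat_lit 0x48008002800200120008014e83))) 
(.nd (nat_lit 9) (.nd (nat_lit 10) 
(.lf (nat_lit 1342374365) (dlOf (nat_lit 1) (nat_lit 0x48008002800200120008017183))) 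
(.lf (nat_lit 3624078813) (dlOf (nat_lit 1) (nat_lit 0x1e0008146d81)))) 
(.lf (nat_lit 2013463517) (dlOf (nat_lit 4) (nat_lit 0x18004c01a410200c002600d1f81000d0130067fc0801a800800c800200140008092883)))))) 
(.nd (nat_lit 20) (.nd (nat_lit 7) (.nd (nat_lit 27) 
(.lf (nat_lit 5637342589) (dlOf (nat_lit 1) (nat_lit 0x200280d3581))) 
(.lf (nat_lit 4697818493) (dlOf (nat_lit 1) (nat_lit 0x400400020008093582)))) (.nd (nat_lit 26) 
(.nd (nat_lit 31) 
(.lf (nat_lit 939721213) (dlOf (nat_lit 7) (nat_lit 0x24c03000ec00b007b004804a001002bc00401500000002e86009300c003b802c01b4012012800400af00100558000000b8180284000000520200ee00b0098002004f00080304000000510800a400400026010013005800108080400008002c00200160008157e03))) 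
(.lf (nat_lit 3087204861) (dlOf (nat_lit 1) (nat_lit 0xa0008157e01)))) 
(.lf (nat_lit 469959165) (dlOf (nat_lit 1) (nat_lit 0xa000400020018017e02))))) (.nd (nat_lit 7) 
(.nd (nat_lit 8) (.lf (nat_lit 1008404093) (dlOf (nat_lit 2) (nat_lit 0x3209900016818bb3980))) 
(.lf (nat_lit 1880819069) (dlOf (nat_lit 1) (nat_lit 0x180018bb3581)))) (.nd (nat_lit 9) 
(.lf (nat_lit 3491430909) (dlOf (nat_lit 2) (nat_lit 0x6c3d4001680200040028090d81))) 
(.nd (nat_lit 19) (.lf (nat_lit 3493004285) (dlOf (nat_lit 1) (nat_lit 0x200180f2881))) 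
(.lf (nat_lit 1346044925) (dlOf (nat_lit 1) (nat_lit 0xe0018e22881)))))))))) (.nd (nat_lit 19) 
(.nd (nat_lit 4) (.nd (nat_lit 29) (.nd (nat_lit 30) (.nd (nat_lit 8) (.nd (nat_lit 21) 
(.lf (nat_lit 6442909773) (dlOf (nat_lit 1) (nat_lit 0x400400020008220d02))) 
(.lf (nat_lit 48693325) (dlOf (nat_lit 2) (nat_lit 0x350800000019420680)))) (.nd (nat_lit 20) 
(.nd (nat_lit 21) 
(.lf (nat_lit 4362535245) (dlOf (nat_lit 1) (nat_lit 0x58008001c002002a0008090603))) 
(.lf (nat_lit 23527757) (dlOf (nat_lit 1) (nat_lit 0x8008001400200020008b80603)))) 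
(.lf (nat_lit 11993421) (dlOf (nat_lit 2) (nat_lit 0x40633001630c00049800000660c008c004004800186c0602))))) 
(.nd (nat_lit 5) (.nd (nat_lit 26) 
(.lf (nat_lit 1074200653) (dlOf (nat_lit 3) (nat_lit 0x1a027000278100110138001340800c0008000c002001200080d0d03))) 
(.nd (nat_lit 27) (.lf (nat_lit 3557228621) (dlOf (nat_lit 1) (nat_lit 0x400400180018170702))) 
(.lf (nat_lit 5838929997) (dlOf (nat_lit 1) (nat_lit 0x400400020008220d02))))) (.nd (nat_lit 7) 
(.nd (nat_lit 8) 
(.lf (nat_lit 1346830445) (dlOf (nat_lit 2) (nat_lit 0x81f00013804000400200040009032482))) 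
(.lf (nat_lit 3493265773) (dlOf (nat_lit 1) (nat_lit 0x4480080004002005e0008105503)))) 
(.lf (nat_lit 1208421101) (dlOf (nat_lit 3) (nat_lit 0x2b0140000a00800680a00003c04018c004001000080e5a02)))))) 
(.nd (nat_lit 30) (.nd (nat_lit 5) (.nd (nat_lit 8) (.nd (nat_lit 31) 
(.lf (nat_lit 738656333) (dlOf (nat_lit 1) (nat_lit 0x200280d0501))) 
(.lf (nat_lit 2886139981) (dlOf (nat_lit 1) (nat_lit 0xe800800d4002008c0008160903)))) 
(.lf (nat_lit 805765453) (dlOf (nat_lit 1) (nat_lit 0x200281a0601)))) (.nd (nat_lit 8) 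
(.lf (nat_lit 738656365) (dlOf (nat_lit 1) (nat_lit 0x3000080d0b81))) 
(.lf (nat_lit 2755068269) (dlOf (nat_lit 1) (nat_lit 0x4480080004002005e0008105503))))) 
(.nd (nat_lit 26) (.nd (nat_lit 5) (.nd (nat_lit 28) 
(.lf (nat_lit 1611071565) (dlOf (nat_lit 1) (nat_lit 0x200280d0501))) 
(.lf (nat_lit 1879507021) (dlOf (nat_lit 1) (nat_lit 0x400400020008190702)))) 
(.lf (nat_lit 1611071597) (dlOf (nat_lit 1) (nat_lit 0x3000080d0b81)))) (.nd (nat_lit 8) 
(.lf (nat_lit 1946615885) (dlOf (nat_lit 3) (nat_lit 0x1a0270002b0100110138001500800c0008000c002001200080d0d03))) 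
(.nd (nat_lit 27) (.lf (nat_lit 1678180685) (dlOf (nat_lit 1) (nat_lit 0x200281a0601))) 
(.lf (nat_lit 4228317517) (dlOf (nat_lit 1) (nat_lit 0x58008001c002002a0008090603)))))))) 
(.nd (nat_lit 5) (.nd (nat_lit 21) (.nd (nat_lit 7) (.nd (nat_lit 25) 
(.lf (nat_lit 471269469) (dlOf (nat_lit 1) (nat_lit 0x800282e0401))) 
(.lf (nat_lit 35061853) (dlOf (nat_lit 2) (nat_lit 0x5c2eac0019726000260400020028fd0881)))) 
(.lf (nat_lit 805765341) (dlOf (nat_lit 1) (nat_lit 0x18400400a200081a0482)))) (.nd (nat_lit 9) 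
(.nd (nat_lit 7) (.lf (nat_lit 57083229) (dlOf (nat_lit 1) (nat_lit 0x840029793401))) 
(.lf (nat_lit 28770525) (dlOf (nat_lit 1) (nat_lit 0x20018da0581)))) (.nd (nat_lit 22) 
(.lf (nat_lit 62327389) (dlOf (nat_lit 1) (nat_lit 0x200299a5301))) 
(.lf (nat_lit 41355869) (dlOf (nat_lit 3) (nat_lit 0x1f0000000680800a800000032040038002002a0009245302)))))) 
(.nd (nat_lit 26) (.nd (nat_lit 27) (.nd (nat_lit 7) 
(.lf (nat_lit 805765245) (dlOf (nat_lit 4) (nat_lit 0x100ac001fc020012056000fd81001202b0007e80800200080044002000800081a0083))) 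
(.lf (nat_lit 57084669) (dlOf (nat_lit 2) (nat_lit 0x2af900008819795a80)))) (.nd (nat_lit 8) 
(.lf (nat_lit 134676605) (dlOf (nat_lit 6) (nat_lit 0x30054003c00400080820015f020004041000af010083020800570080198104002b6040040004001a0008090082))) 
(.lf (nat_lit 134676861) (dlOf (nat_lit 1) (nat_lit 0x40008090781))))) (.nd (nat_lit 27) 
(.nd (nat_lit 29) 
(.lf (nat_lit 4362535037) (dlOf (nat_lit 3) (nat_lit 0x440660021102003c03300107818090080))) 
(.lf (nat_lit 1678180477) (dlOf (nat_lit 4) (nat_lit 0x100ac002110200120560010801001202b00083c0800200080044002000800081a0083)))) 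
(.nd (nat_lit 28) 
(.lf (nat_lit 201785469) (dlOf (nat_lit 6) (nat_lit 0x300580040404000808200155020004041000aa010083020800548080198104002a2040040004001a0008090082))) 
(.lf (nat_lit 4228317309) (dlOf (nat_lit 3) (nat_lit 0x44064001fc02003c032000fd018090080)))))))) 
(.nd (nat_lit 7) (.nd (nat_lit 20) (.nd (nat_lit 11) (.nd (nat_lit 4) (.nd (nat_lit 22) 
(.nd (nat_lit 27) (.lf (nat_lit 4094623821) (dlOf (nat_lit 1) (nat_lit 0x20028050001))) 
(.lf (nat_lit 470745165) (dlOf (nat_lit 1) (nat_lit 0x60028170701)))) 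
(.lf (nat_lit 13566029) (dlOf (nat_lit 16) (nat_lit 0x5313580014c0802709ac000a40404080000004b020186000000250100d60000001240806780000009004001c5a2009e26b00900000001181800e09ac00600000004504014426b0002101004f1358001040808880000007e0403a00000003e0201a40000001e81004e1358000f00803a89ac0000004012400200180008730d02)))) 
(.nd (nat_lit 5) (.lf (nat_lit 3490644317) (dlOf (nat_lit 1) (nat_lit 0x2c00200020008014e82))) 
(.lf (nat_lit 70190717) (dlOf (nat_lit 2) (nat_lit 0x83880001404000800200020008fa3982))))) 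
(.nd (nat_lit 5) (.nd (nat_lit 8) 
(.lf (nat_lit 3492743245) (dlOf (nat_lit 1) (nat_lit 0x400180f4701))) 
(.lf (nat_lit 2754550605) (dlOf (nat_lit 2) (nat_lit 0x903c801548080068008001c002001400080fbc83)))) 
(.nd (nat_lit 4) (.lf (nat_lit 19860589) (dlOf (nat_lit 1) (nat_lit 0x4004000200089d6082))) 
(.lf (nat_lit 19864701) (dlOf (nat_lit 1) (nat_lit 0x4004000200089dc102)))))) (.nd (nat_lit 4) 
(.nd (nat_lit 5) (.nd (nat_lit 8) (.nd (nat_lit 9) 
(.lf (nat_lit 20906061) (dlOf (nat_lit 1) (nat_lit 0x80080004002000200089f0603))) 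
(.lf (nat_lit 62851661) (dlOf (nat_lit 1) (nat_lit 0x100080004002000600099a5283)))) 
(.lf (nat_lit 8328525) (dlOf (nat_lit 1) (nat_lit 0x400200020008519902)))) (.nd (nat_lit 21) 
(.lf (nat_lit 6226029) (dlOf (nat_lit 1) (nat_lit 0xc0018420481))) 
(.lf (nat_lit 3493789805) (dlOf (nat_lit 1) (nat_lit 0x64004001000081b0002))))) (.nd (nat_lit 5) 
(.nd (nat_lit 10) 
(.lf (nat_lit 473890909) (dlOf (nat_lit 4) (nat_lit 0x5b029800e014b016e06b80002c18085053004281ae0000904021614c010a06b80000010062000800b800203440008fc0883))) 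
(.lf (nat_lit 8330333) (dlOf (nat_lit 1) (nat_lit 0x4e001851c001)))) (.nd (nat_lit 8) 
(.nd (nat_lit 9) (.lf (nat_lit 8328317) (dlOf (nat_lit 1) (nat_lit 0xa0018519501))) 
(.lf (nat_lit 43976317) (dlOf (nat_lit 2) (nat_lit 0x6854a000168192a3980)))) 
(.lf (nat_lit 8329085) (dlOf (nat_lit 1) (nat_lit 0xb800800080020026000851a303))))))) 
(.nd (nat_lit 9) (.nd (nat_lit 8) (.nd (nat_lit 4) (.nd (nat_lit 5) 
(.lf (nat_lit 5772346573) (dlOf (nat_lit 1) (nat_lit 0x400400020008092d82))) 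
(.lf (nat_lit 5772346605) (dlOf (nat_lit 1) (nat_lit 0x400400020008092e82)))) (.nd (nat_lit 10) 
(.nd (nat_lit 23) (.lf (nat_lit 68092125) (dlOf (nat_lit 1) (nat_lit 0xe00283e0581))) 
(.lf (nat_lit 26149085) (dlOf (nat_lit 1) (nat_lit 0x800200040008c10582)))) 
(.lf (nat_lit 19864797) (dlOf (nat_lit 1) (nat_lit 0xc004000600089dc482))))) (.nd (nat_lit 21) 
(.nd (nat_lit 5) (.nd (nat_lit 26) 
(.lf (nat_lit 3491693005) (dlOf (nat_lit 1) (nat_lit 0x8008000c00200060008090a03))) 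
(.lf (nat_lit 2753495501) (dlOf (nat_lit 1) (nat_lit 0x400200020008090a02)))) 
(.lf (nat_lit 2752446957) (dlOf (nat_lit 1) (nat_lit 0x400200020008017d02)))) (.nd (nat_lit 10) 
(.nd (nat_lit 11) (.lf (nat_lit 3493790157) (dlOf (nat_lit 1) (nat_lit 0xc004001400081b0a02))) 
(.lf (nat_lit 41880013) (dlOf (nat_lit 2) (nat_lit 0xa667005e2019244e80)))) 
(.lf (nat_lit 8324557) (dlOf (nat_lit 1) (nat_lit 0x168008000400200140008513603)))))) 
(.nd (nat_lit 4) (.nd (nat_lit 5) (.nd (nat_lit 20) 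
(.lf (nat_lit 3492742093) (dlOf (nat_lit 1) (nat_lit 0x180080014002000400080f2883))) 
(.lf (nat_lit 31392717) (dlOf (nat_lit 1) (nat_lit 0x400400020008e92882)))) (.nd (nat_lit 8) 
(.lf (nat_lit 19858157) (dlOf (nat_lit 1) (nat_lit 0x4004000200089d2102))) 
(.lf (nat_lit 3492742125) (dlOf (nat_lit 1) (nat_lit 0x200180f2881))))) (.nd (nat_lit 5) 
(.nd (nat_lit 11) (.nd (nat_lit 20) 
(.lf (nat_lit 3492742109) (dlOf (nat_lit 1) (nat_lit 0x4004000400080f2882))) 
(.lf (nat_lit 50267101) (dlOf (nat_lit 1) (nat_lit 0xa0008006c002001e00094c2883)))) 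
(.lf (nat_lit 4094626781) (dlOf (nat_lit 1) (nat_lit 0x400400020008055e02)))) (.nd (nat_lit 8) 
(.lf (nat_lit 19864317) (dlOf (nat_lit 1) (nat_lit 0x200189db981))) 
(.lf (nat_lit 3492743165) (dlOf (nat_lit 1) (nat_lit 0x500080004002000600080f4703))))))))))) 
(.nd (nat_lit 4) (.nd (nat_lit 5) (.nd (nat_lit 6) (.nd (nat_lit 18) (.nd (nat_lit 31) 
(.nd (nat_lit 21) (.nd (nat_lit 27) (.nd (nat_lit 8) (.nd (nat_lit 11) (.nd (nat_lit 23) 
(.lf (nat_lit 1342406669) (dlOf (nat_lit 6) (nat_lit 0xde1cd000d60100600e68006a80802f07340035004000c39a001a70200181cd000d3018020480))) 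
(.lf (nat_lit 25395213) (dlOf (nat_lit 1) (nat_lit 0x14002000a0008c00082)))) 
(.lf (nat_lit 5905811469) (dlOf (nat_lit 1) (nat_lit 0x400200020008144702)))) (.nd (nat_lit 7) 
(.lf (nat_lit 1611366669) (dlOf (nat_lit 1) (nat_lit 0xc00400060008167402))) 
(.lf (nat_lit 8624013) (dlOf (nat_lit 1) (nat_lit 0x40020002000851a302))))) (.nd (nat_lit 26) 
(.nd (nat_lit 9) 
(.lf (nat_lit 939753485) (dlOf (nat_lit 3) (nat_lit 0xe00b00070048004000800180000014e08000600b00300020000001000180080068002002a0008160483))) 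
(.lf (nat_lit 671318541) (dlOf (nat_lit 1) (nat_lit 0x1c00200260008158402)))) (.nd (nat_lit 20) 
(.nd (nat_lit 28) 
(.lf (nat_lit 201555981) (dlOf (nat_lit 3) (nat_lit 0x2c00bc002380400a005e0011b0200060018020481))) 
(.lf (nat_lit 469991437) (dlOf (nat_lit 4) (nat_lit 0x9c1cd000a70100a30e6800530080670734001d404000c00200160008020482)))) 
(.lf (nat_lit 471040013) (dlOf (nat_lit 1) (nat_lit 0x8008000c00200060008250283)))))) 
(.nd (nat_lit 8) (.nd (nat_lit 7) (.nd (nat_lit 9) 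
(.lf (nat_lit 44269581) (dlOf (nat_lit 2) (nat_lit 0x55130007a4b80237c1000700080014002000400092e0003))) 
(.lf (nat_lit 23298573) (dlOf (nat_lit 2) (nat_lit 0x8fd8b000b2818b80d80)))) 
(.lf (nat_lit 62095501) (dlOf (nat_lit 1) (nat_lit 0x20019950f81)))) (.nd (nat_lit 10) 
(.nd (nat_lit 19) (.lf (nat_lit 35883405) (dlOf (nat_lit 1) (nat_lit 0x400400020009014e82))) 
(.lf (nat_lit 20679053) (dlOf (nat_lit 1) (nat_lit 0x4004000200089d4e82)))) 
(.lf (nat_lit 8095117) (dlOf (nat_lit 1) (nat_lit 0x8008000400200020008513603)))))) 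
(.nd (nat_lit 26) (.nd (nat_lit 8) (.nd (nat_lit 19) (.nd (nat_lit 9) 
(.lf (nat_lit 4026761229) (dlOf (nat_lit 1) (nat_lit 0x20018090001))) 
(.lf (nat_lit 2550366733) (dlOf (nat_lit 2) (nat_lit 0xa00f801680280410000001650600040008090d81)))) 
(.nd (nat_lit 21) 
(.lf (nat_lit 2819325965) (dlOf (nat_lit 2) (nat_lit 0x130230029a0080320008001000200420008240283))) 
(.lf (nat_lit 3492511757) (dlOf (nat_lit 1) (nat_lit 0x100080014002001200080d0483))))) 
(.nd (nat_lit 7) 
(.lf (nat_lit 2684589325) (dlOf (nat_lit 2) (nat_lit 0xa80c8000f2040058004000400080a9682))) 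
(.nd (nat_lit 9) (.lf (nat_lit 2416148877) (dlOf (nat_lit 1) (nat_lit 0xa0028090781))) 
(.lf (nat_lit 2818805645) (dlOf (nat_lit 1) (nat_lit 0x40018127781)))))) (.nd (nat_lit 28) 
(.nd (nat_lit 9) (.nd (nat_lit 7) 
(.lf (nat_lit 2754314253) (dlOf (nat_lit 1) (nat_lit 0x100080014002001200080d0483))) 
(.lf (nat_lit 2349039757) (dlOf (nat_lit 2) (nat_lit 0x2c01e0003b02000e0028090101)))) 
(.nd (nat_lit 10) 
(.lf (nat_lit 3288564237) (dlOf (nat_lit 2) (nat_lit 0x5b80c80704056038402401b30068005942002f0008003c00200260008090d83))) 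
(.lf (nat_lit 2754842125) (dlOf (nat_lit 1) (nat_lit 0x4004000200080f7082))))) (.nd (nat_lit 7) 
(.nd (nat_lit 19) 
(.lf (nat_lit 3691216909) (dlOf (nat_lit 2) (nat_lit 0x180700094004008c002005000080a0482))) 
(.lf (nat_lit 3557523469) (dlOf (nat_lit 2) (nat_lit 0x9023002a30080020008001000200060008240283)))) 
(.lf (nat_lit 2483257485) (dlOf (nat_lit 3) (nat_lit 0xd80a4000760400100440003602005e0008090101))))))) 
(.nd (nat_lit 21) (.nd (nat_lit 7) (.nd (nat_lit 22) (.nd (nat_lit 9) (.nd (nat_lit 20) 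
(.lf (nat_lit 4228349965) (dlOf (nat_lit 1) (nat_lit 0x100028090001))) 
(.lf (nat_lit 9928717) (dlOf (nat_lit 1) (nat_lit 0x8008000400200020008590083)))) 
(.lf (nat_lit 1008699917) (dlOf (nat_lit 2) (nat_lit 0x30308000a0080010008001000200040008f55003)))) 
(.nd (nat_lit 23) 
(.lf (nat_lit 21987341) (dlOf (nat_lit 3) (nat_lit 0x897f0009d8100074bf8004e4080010008007400200280008a80483))) 
(.nd (nat_lit 25) 
(.lf (nat_lit 13598733) (dlOf (nat_lit 5) (nat_lit 0x9b8700003af50001d768003dbc4009abd2003b5dc0020ae880135728009aa8a00095360011a1300024b80009a5b0000524200268890004ec7800470e0001b5ea00056f1000aaf4800dd7700082ba2002d5ca0016aa2800b54d8005a84c00052e0001696c000b49080016340001391c0031d060018e1c000cebb40062de200315dc001eae8800c55140062a6c00314260018970000c4b60001648400311120018842000c3e3c0038000000d920001f5d100118420003601000880080030002012e0008730483))) 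
(.lf (nat_lit 47153165) (dlOf (nat_lit 1) (nat_lit 0x800293b0001)))))) (.nd (nat_lit 26) 
(.nd (nat_lit 8) (.nd (nat_lit 28) 
(.lf (nat_lit 3221717133) (dlOf (nat_lit 2) (nat_lit 0x380000000004000400200020008170102))) 
(.lf (nat_lit 1342668941) (dlOf (nat_lit 2) (nat_lit 0x288f0001846e001e22f001511300070838001c346003e15100060408005000000076240048004004800180c0102)))) 
(.lf (nat_lit 3490155917) (dlOf (nat_lit 1) (nat_lit 0x20018006c81)))) (.nd (nat_lit 28) 
(.lf (nat_lit 3959914637) (dlOf (nat_lit 2) (nat_lit 0x380000000004000400200020008170102))) 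
(.lf (nat_lit 470253709) (dlOf (nat_lit 2) (nat_lit 0x288f0001846e001e22f001511300070830001c366003e15100060408005000000076240048004004800180c0102)))))) 
(.nd (nat_lit 19) (.nd (nat_lit 22) (.nd (nat_lit 8) (.nd (nat_lit 28) 
(.lf (nat_lit 3637261) (dlOf (nat_lit 1) (nat_lit 0x10008000800200040008210683))) 
(.lf (nat_lit 3493298189) (dlOf (nat_lit 4) (nat_lit 0x102000048074000fa080008080000a01d0003d82000800e8001dc080078008002c00200340008110483)))) 
(.lf (nat_lit 12026125) (dlOf (nat_lit 1) (nat_lit 0xc00186c0481)))) (.nd (nat_lit 7) 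
(.lf (nat_lit 24608781) (dlOf (nat_lit 3) (nat_lit 0x97920012bae0000982001a5e48000440800700080064002001a0008ba0383))) 
(.lf (nat_lit 23560333) (dlOf (nat_lit 2) (nat_lit 0x35cd0000ec080008008001000200060008b80103))))) 
(.nd (nat_lit 10) (.nd (nat_lit 20) 
(.lf (nat_lit 28278797) (dlOf (nat_lit 2) (nat_lit 0x5734005e9818d80280))) 
(.lf (nat_lit 473923597) (dlOf (nat_lit 6) (nat_lit 0x28560011120400142b000060cf004160200050ac0001833c0105608001412c0082802001408d003a1818fc0000)))) 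
(.lf (nat_lit 36668429) (dlOf (nat_lit 1) (nat_lit 0x400200040009072882))))))) (.nd (nat_lit 18) 
(.nd (nat_lit 29) (.nd (nat_lit 20) (.nd (nat_lit 19) (.nd (nat_lit 27) (.nd (nat_lit 26) 
(.lf (nat_lit 4295196749) (dlOf (nat_lit 1) (nat_lit 0x200180a0f01))) 
(.lf (nat_lit 1141080141) (dlOf (nat_lit 1) (nat_lit 0x200280b0601)))) (.nd (nat_lit 8) 
(.lf (nat_lit 4429414477) (dlOf (nat_lit 1) (nat_lit 0x200180a0f01))) 
(.lf (nat_lit 4697850189) (dlOf (nat_lit 1) (nat_lit 0xc80080028002001600080a6683))))) 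
(.nd (nat_lit 7) (.nd (nat_lit 28) 
(.lf (nat_lit 2850893) (dlOf (nat_lit 1) (nat_lit 0x80080004002000200081c0d03))) 
(.lf (nat_lit 3492511821) (dlOf (nat_lit 3) (nat_lit 0x403d6000560200281eb00080e90001501000580080070002000400080d0d03)))) 
(.lf (nat_lit 55280589) (dlOf (nat_lit 1) (nat_lit 0x4004000200096d2882))))) (.nd (nat_lit 9) 
(.nd (nat_lit 26) (.lf (nat_lit 3490938957) (dlOf (nat_lit 1) (nat_lit 0x40018030f81))) 
(.lf (nat_lit 68386893) (dlOf (nat_lit 2) (nat_lit 0x1094800201900011808002c00400280008570182)))) 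
(.nd (nat_lit 8) (.lf (nat_lit 36932173) (dlOf (nat_lit 1) (nat_lit 0x20019075281))) 
(.lf (nat_lit 20155213) (dlOf (nat_lit 1) (nat_lit 0x4002000200089d5c02)))))) (.nd (nat_lit 9) 
(.nd (nat_lit 26) (.nd (nat_lit 28) 
(.lf (nat_lit 4966285389) (dlOf (nat_lit 1) (nat_lit 0x20028090001))) 
(.lf (nat_lit 2013495373) (dlOf (nat_lit 1) (nat_lit 0x200280b0601)))) (.nd (nat_lit 19) 
(.lf (nat_lit 2752741453) (dlOf (nat_lit 1) (nat_lit 0x40018030f81))) 
(.lf (nat_lit 2754314317) (dlOf (nat_lit 3) (nat_lit 0x403fa0004f0200281fd00080f38001341000580080070002000400080d0d03))))) 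
(.nd (nat_lit 8) (.nd (nat_lit 11) 
(.lf (nat_lit 1677951565) (dlOf (nat_lit 1) (nat_lit 0x340018128d81))) 
(.lf (nat_lit 1881901645) (dlOf (nat_lit 1) (nat_lit 0x20029165281)))) (.nd (nat_lit 7) 
(.nd (nat_lit 28) (.lf (nat_lit 4899179341) (dlOf (nat_lit 2) (nat_lit 0x2032000470180d5c00))) 
(.lf (nat_lit 6241356621) (dlOf (nat_lit 1) (nat_lit 0x3800280d5c01)))) 
(.lf (nat_lit 4832068557) (dlOf (nat_lit 1) (nat_lit 0x200180d2881))))))) (.nd (nat_lit 28) 
(.nd (nat_lit 21) (.nd (nat_lit 7) (.nd (nat_lit 22) (.nd (nat_lit 9) 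
(.lf (nat_lit 3892805709) (dlOf (nat_lit 4) (nat_lit 0xe029801f0138004409200500370035010001f0068008c032007c0130004608000501b0003007c004803000240090004584002901b80148080008403e0052019001c005000224280040008002000200020008280183))) 
(.lf (nat_lit 68651597) (dlOf (nat_lit 1) (nat_lit 0x320008665281)))) (.nd (nat_lit 19) 
(.lf (nat_lit 38240333) (dlOf (nat_lit 1) (nat_lit 0x400400020019130002))) 
(.lf (nat_lit 21987405) (dlOf (nat_lit 2) (nat_lit 0x4ebc00011018a80f80))))) (.nd (nat_lit 8) 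
(.lf (nat_lit 14123213) (dlOf (nat_lit 1) (nat_lit 0x1800400020008750482))) (.nd (nat_lit 11) 
(.lf (nat_lit 8880589) (dlOf (nat_lit 1) (nat_lit 0x400200020008511102))) 
(.lf (nat_lit 60262861) (dlOf (nat_lit 1) (nat_lit 0x4004000a0019844e82)))))) (.nd (nat_lit 7) 
(.nd (nat_lit 19) (.nd (nat_lit 20) 
(.lf (nat_lit 48726093) (dlOf (nat_lit 1) (nat_lit 0x1400400020009420682))) 
(.lf (nat_lit 12025933) (dlOf (nat_lit 1) (nat_lit 0xc00186c0001)))) (.nd (nat_lit 20) 
(.lf (nat_lit 45056077) (dlOf (nat_lit 1) (nat_lit 0x1680019320001))) 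
(.lf (nat_lit 16744525) (dlOf (nat_lit 2) (nat_lit 0x1025f5000448188e0180))))) (.nd (nat_lit 8) 
(.lf (nat_lit 19894989) (dlOf (nat_lit 1) (nat_lit 0x4002000200089d8c82))) (.nd (nat_lit 9) 
(.lf (nat_lit 32475597) (dlOf (nat_lit 1) (nat_lit 0x400200040008ef4e82))) 
(.lf (nat_lit 19893197) (dlOf (nat_lit 1) (nat_lit 0x19c00189d5d81))))))) (.nd (nat_lit 26) 
(.nd (nat_lit 7) (.nd (nat_lit 8) (.nd (nat_lit 9) 
(.lf (nat_lit 1346863181) (dlOf (nat_lit 1) (nat_lit 0x400400020019040002))) 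
(.lf (nat_lit 1342669389) (dlOf (nat_lit 1) (nat_lit 0x1c00180c1181)))) 
(.lf (nat_lit 1342669133) (dlOf (nat_lit 1) (nat_lit 0x580080068002001400080c0603)))) 
(.nd (nat_lit 8) (.lf (nat_lit 5772379341) (dlOf (nat_lit 1) (nat_lit 0x40028092d81))) 
(.lf (nat_lit 5771856333) (dlOf (nat_lit 2) (nat_lit 0x202800707018004e80))))) (.nd (nat_lit 19) 
(.nd (nat_lit 8) (.nd (nat_lit 9) 
(.lf (nat_lit 4096229453) (dlOf (nat_lit 1) (nat_lit 0x80080004002000200080e0003))) 
(.lf (nat_lit 470254157) (dlOf (nat_lit 1) (nat_lit 0x1c00180c1181)))) 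
(.lf (nat_lit 470253901) (dlOf (nat_lit 1) (nat_lit 0x580080068002001400080c0603)))) 
(.nd (nat_lit 21) (.lf (nat_lit 471826509) (dlOf (nat_lit 1) (nat_lit 0x400400100008520182))) 
(.lf (nat_lit 473923661) (dlOf (nat_lit 4) (nat_lit 0x82c00007802000415f0002b01000d0b0000602700006c080124004000c0008fc0682))))))))) 
(.nd (nat_lit 28) (.nd (nat_lit 7) (.nd (nat_lit 18) (.nd (nat_lit 26) (.nd (nat_lit 19) 
(.nd (nat_lit 6) (.nd (nat_lit 23) 
(.lf (nat_lit 134447149) (dlOf (nat_lit 3) (nat_lit 0x248128032c05e0002004008a04a00cc01780006c10033800801dc00200320008020583))) 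
(.lf (nat_lit 25395245) (dlOf (nat_lit 2) (nat_lit 0x1d765f8000c8080130008003000200120008c00603)))) 
(.lf (nat_lit 4424045) (dlOf (nat_lit 1) (nat_lit 0x20008290a01)))) (.nd (nat_lit 22) 
(.nd (nat_lit 23) (.lf (nat_lit 537624621) (dlOf (nat_lit 1) (nat_lit 0x8004001c00080e0602))) 
(.lf (nat_lit 42696749) (dlOf (nat_lit 1) (nat_lit 0x240029270981)))) (.nd (nat_lit 20) 
(.lf (nat_lit 21725229) (dlOf (nat_lit 4) (nat_lit 0x709d8000a40800684ec000500400042760000802000a0018a60d01))) 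
(.lf (nat_lit 14385197) (dlOf (nat_lit 1) (nat_lit 0x58008003000200600008750003)))))) 
(.nd (nat_lit 9) (.nd (nat_lit 20) (.nd (nat_lit 29) 
(.lf (nat_lit 201556013) (dlOf (nat_lit 3) (nat_lit 0x248128032c05e0002004008a04a00cc01780006c10033800801dc00200320008020583))) 
(.lf (nat_lit 1812168749) (dlOf (nat_lit 6) (nat_lit 0x5200b0002081002a005800480100007e0800040160003b0200100000001c81000200c0000d40801b0008003400200280008160583)))) 
(.lf (nat_lit 2752741421) (dlOf (nat_lit 17) (nat_lit 0x640ad00a70500000c81004802800006204023c140000300200980e50012072002302d0004415a00040ac000f055001a0284021414000ac098000d003000d000c013c0040002f1800740e500230720027838001701be00540b5007405a001e02b400e8154016c0a100e4050003f027001cc1300002091000a0030041800c01e00040002e2000420e500020568054828000440040002d0800340a0000160100120728000ac0800b039401341400002804002c0a000012810002050000090080060280000260401201ca000110200160a00000781001c0500000340804d82800000004003800400080018030c02))))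 
(.nd (nat_lit 6) (.lf (nat_lit 6509792813) (dlOf (nat_lit 1) (nat_lit 0x400200020008147182))) 
(.lf (nat_lit 4899179373) (dlOf (nat_lit 1) (nat_lit 0x4004000200080d5c02)))))) (.nd (nat_lit 19) 
(.nd (nat_lit 26) (.nd (nat_lit 6) (.nd (nat_lit 9) (.nd (nat_lit 20) 
(.lf (nat_lit 13074477) (dlOf (nat_lit 1) (nat_lit 0x10004000400086f0d82))) 
(.lf (nat_lit 30900269) (dlOf (nat_lit 1) (nat_lit 0x400400360008e50b02)))) 
(.lf (nat_lit 134709805) (dlOf (nat_lit 3) (nat_lit 0xc0220003602000a03100000018090e80)))) 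
(.nd (nat_lit 8) (.lf (nat_lit 3637357) (dlOf (nat_lit 1) (nat_lit 0x320028211501))) 
(.lf (nat_lit 134709613) (dlOf (nat_lit 2) (nat_lit 0x80ec00e8a04007c00400280008090782))))) 
(.nd (nat_lit 8) (.nd (nat_lit 9) 
(.lf (nat_lit 2753003565) (dlOf (nat_lit 4) (nat_lit 0x340e700140000000a01000d039c04e41b2004c0cb0024060008302ec02ac162028a0a6006704e80ac021c00540fc027c07a00bb006803e80200060000000221c003a0e800010738000141000200080100002007a0008070803))) 
(.lf (nat_lit 201818669) (dlOf (nat_lit 3) (nat_lit 0xc0220003602000a03100000018090e80)))) 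
(.nd (nat_lit 6) (.nd (nat_lit 27) 
(.lf (nat_lit 3288826157) (dlOf (nat_lit 2) (nat_lit 0x2000000096040018002001400081b0502))) 
(.lf (nat_lit 2886172973) (dlOf (nat_lit 1) (nat_lit 0x20008188401)))) 
(.lf (nat_lit 201818477) (dlOf (nat_lit 2) (nat_lit 0x80ec019dc04007c00400280008090782)))))) 
(.nd (nat_lit 22) (.nd (nat_lit 23) 
(.lf (nat_lit 17793069) (dlOf (nat_lit 1) (nat_lit 0x80080020002000200088f0e03))) 
(.lf (nat_lit 59736109) (dlOf (nat_lit 2) (nat_lit 0xbc67e00000019820280)))) (.nd (nat_lit 9) 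
(.nd (nat_lit 23) 
(.lf (nat_lit 21987373) (dlOf (nat_lit 2) (nat_lit 0x2580000005604000c00200020008a80c02))) 
(.lf (nat_lit 13598765) (dlOf (nat_lit 1) (nat_lit 0x20018730b01)))) 
(.lf (nat_lit 24085037) (dlOf (nat_lit 12) (nat_lit 0xbc2f00055f100007e08000ef880003d02001185e0006be20000d810004e1780006f880003404000f85e0006be20000a810003e1780016f880002304000f85e0003be200008010002e1780006f880001e04000f85e0006be200003010003e1780001204001f0bc000b7c400000028b80e80))))))) 
(.nd (nat_lit 6) (.nd (nat_lit 8) (.nd (nat_lit 9) (.nd (nat_lit 26) 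
(.lf (nat_lit 2684589229) (dlOf (nat_lit 5) (nat_lit 0x2ca032002718101950190013440813900ec00078040ef80760054039000000280a9500))) 
(.lf (nat_lit 3422786733) (dlOf (nat_lit 3) (nat_lit 0x59c0760003c02011003b000000180a9500)))) 
(.nd (nat_lit 10) 
(.lf (nat_lit 4899179181) (dlOf (nat_lit 1) (nat_lit 0x100080004002000200080d5683))) 
(.nd (nat_lit 18) 
(.lf (nat_lit 2754842285) (dlOf (nat_lit 1) (nat_lit 0x300080010002000600080f7283))) 
(.lf (nat_lit 1074237101) (dlOf (nat_lit 1) (nat_lit 0x38008000c002000200080f7283)))))) 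
(.nd (nat_lit 11) (.nd (nat_lit 10) 
(.lf (nat_lit 51085741) (dlOf (nat_lit 1) (nat_lit 0x9600094f6e81))) 
(.lf (nat_lit 8095149) (dlOf (nat_lit 1) (nat_lit 0x400200020008513602)))) (.nd (nat_lit 20) 
(.nd (nat_lit 23) (.lf (nat_lit 5436049837) (dlOf (nat_lit 1) (nat_lit 0xe0008094e81))) 
(.lf (nat_lit 58952109) (dlOf (nat_lit 1) (nat_lit 0x200197e4e81)))) 
(.lf (nat_lit 36932013) (dlOf (nat_lit 1) (nat_lit 0x40019074e81)))))) (.nd (nat_lit 9) 
(.nd (nat_lit 8) (.nd (nat_lit 18) 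
(.lf (nat_lit 738951405) (dlOf (nat_lit 1) (nat_lit 0xa0028166e81))) 
(.lf (nat_lit 35094765) (dlOf (nat_lit 1) (nat_lit 0x20018fd1e81)))) (.nd (nat_lit 20) 
(.lf (nat_lit 3288564205) (dlOf (nat_lit 1) (nat_lit 0x2000400020018090d02))) 
(.lf (nat_lit 9667053) (dlOf (nat_lit 1) (nat_lit 0x800200020008577d02))))) (.nd (nat_lit 11) 
(.nd (nat_lit 19) (.lf (nat_lit 2751693805) (dlOf (nat_lit 1) (nat_lit 0x20008002881))) 
(.nd (nat_lit 20) (.lf (nat_lit 36406253) (dlOf (nat_lit 1) (nat_lit 0x8008000c00200020009072883))) 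
(.lf (nat_lit 50037741) (dlOf (nat_lit 1) (nat_lit 0x17400194c2881))))) (.nd (nat_lit 8) 
(.lf (nat_lit 57379565) (dlOf (nat_lit 1) (nat_lit 0xe0029795a01))) 
(.lf (nat_lit 2818805741) (dlOf (nat_lit 1) (nat_lit 0x20018127a81)))))))) (.nd (nat_lit 27) 
(.nd (nat_lit 31) (.nd (nat_lit 7) (.nd (nat_lit 19) (.nd (nat_lit 6) (.nd (nat_lit 9) 
(.lf (nat_lit 1342406701) (dlOf (nat_lit 4) (nat_lit 0x520744000a404025839a000500201481d1000b0e28000d01000380080058002003a0008020583))) 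
(.lf (nat_lit 805536301) (dlOf (nat_lit 1) (nat_lit 0x5000400180008128002)))) 
(.lf (nat_lit 5100505965) (dlOf (nat_lit 1) (nat_lit 0x80080004002000200080d5c03)))) 
(.nd (nat_lit 20) (.nd (nat_lit 21) 
(.lf (nat_lit 1410039853) (dlOf (nat_lit 1) (nat_lit 0x8004001c00080e0602))) 
(.lf (nat_lit 1345028141) (dlOf (nat_lit 1) (nat_lit 0xc004000800089d0982)))) 
(.lf (nat_lit 1343979565) (dlOf (nat_lit 2) (nat_lit 0xe0b100090470000f4100008008000400200040008390b03))))) 
(.nd (nat_lit 6) (.nd (nat_lit 8) 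
(.lf (nat_lit 335773869) (dlOf (nat_lit 1) (nat_lit 0x200180a2d81))) 
(.lf (nat_lit 1345814957) (dlOf (nat_lit 1) (nat_lit 0x1c0018e06e81)))) 
(.lf (nat_lit 1346601965) (dlOf (nat_lit 1) (nat_lit 0x28004001a0018fe2882))))) (.nd (nat_lit 8) 
(.nd (nat_lit 20) (.nd (nat_lit 19) 
(.lf (nat_lit 2953019437) (dlOf (nat_lit 1) (nat_lit 0x80018090901))) 
(.lf (nat_lit 3557523501) (dlOf (nat_lit 1) (nat_lit 0x108008002400200160008240803)))) 
(.nd (nat_lit 18) 
(.lf (nat_lit 3490938925) (dlOf (nat_lit 17) (nat_lit 0x240b50001a010032052005382800005e0802401400002e02011e0a000016810046061002602d40048168001e0ad00110520001028c00d0142010a0a0005604b000680180068006009e002000160c002a061803a030800e816a00460b4004f058002e02bc00e815a00780a400b60508072028001f813800e6096000104880050018020c00600f00020001590002105a8001029002a414000220020001504001a0500000a40800b02d401341400002804002c0a0000128100020500000900800602800002604012016a000110200160a00000781001c0500000340804d82800000004003800400080018030c02)))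 
(.lf (nat_lit 3491201069) (dlOf (nat_lit 4) (nat_lit 0x540a00000a00803a87a001842a0008413c00bb09c0000302001d85400000604005c004003e0018070902))))) 
(.nd (nat_lit 7) (.nd (nat_lit 6) 
(.lf (nat_lit 4027023661) (dlOf (nat_lit 2) (nat_lit 0x2000000084040018002001400081b0502))) 
(.lf (nat_lit 3490155885) (dlOf (nat_lit 1) (nat_lit 0x20018006b01)))) (.nd (nat_lit 18) 
(.lf (nat_lit 4026761709) (dlOf (nat_lit 1) (nat_lit 0x2000400020018090d02))) 
(.lf (nat_lit 3490677229) (dlOf (nat_lit 1) (nat_lit 0x20018017381))))))) (.nd (nat_lit 26) 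
(.nd (nat_lit 6) (.nd (nat_lit 8) (.nd (nat_lit 19) 
(.lf (nat_lit 939753517) (dlOf (nat_lit 6) (nat_lit 0x5200b0002081002a005800480100007e0800040160003b0200100000001c81000200c0000d40801b0008003400200280008160583))) 
(.lf (nat_lit 5772116013) (dlOf (nat_lit 1) (nat_lit 0x400200020008080502)))) 
(.lf (nat_lit 4697850157) (dlOf (nat_lit 1) (nat_lit 0x14002001e00080a5a02)))) (.nd (nat_lit 8) 
(.nd (nat_lit 9) (.lf (nat_lit 5234722029) (dlOf (nat_lit 1) (nat_lit 0x1a00080d2e81))) 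
(.lf (nat_lit 1476889325) (dlOf (nat_lit 2) (nat_lit 0x803000000040058004000a00082d5a02)))) 
(.lf (nat_lit 3087237613) (dlOf (nat_lit 1) (nat_lit 0x320028157d01))))) (.nd (nat_lit 19) 
(.nd (nat_lit 8) (.nd (nat_lit 9) 
(.lf (nat_lit 469991469) (dlOf (nat_lit 4) (nat_lit 0x520744000a404025839a000500201481d1000b0e28000d01000380080058002003a0008020583))) 
(.lf (nat_lit 1543733805) (dlOf (nat_lit 1) (nat_lit 0x420008158001)))) (.nd (nat_lit 7) 
(.lf (nat_lit 1008959789) (dlOf (nat_lit 8) (nat_lit 0x1c0c60001602000e0630000a81000703180003808003818c000180400281cc000a063000802f80001818005018c000080400100c60000002001c0029000b01))) 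
(.lf (nat_lit 474450349) (dlOf (nat_lit 1) (nat_lit 0x40009164e81))))) (.nd (nat_lit 18) 
(.nd (nat_lit 6) (.lf (nat_lit 6376095789) (dlOf (nat_lit 1) (nat_lit 0x400200020008080502))) 
(.lf (nat_lit 472613101) (dlOf (nat_lit 1) (nat_lit 0x800289c1e81)))) (.nd (nat_lit 8) 
(.lf (nat_lit 473923629) (dlOf (nat_lit 7) (nat_lit 0x9c0ac00008558027019e0126096009404180002c2804e8560025019e0138096008d041800028200440560022c19e0000904011a1580091067800020100440560023019e000070400ea158007206780100258000000c000800400300018fc0282))) 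
(.lf (nat_lit 471826733) (dlOf (nat_lit 1) (nat_lit 0x1920008520701)))))))))) (.nd (nat_lit 5) 
(.nd (nat_lit 19) (.nd (nat_lit 28) (.nd (nat_lit 18) (.nd (nat_lit 26) (.nd (nat_lit 23) 
(.nd (nat_lit 27) (.nd (nat_lit 6) (.nd (nat_lit 21) 
(.lf (nat_lit 4295196701) (dlOf (nat_lit 1) (nat_lit 0xb800080a0901))) 
(.lf (nat_lit 52658205) (dlOf (nat_lit 3) (nat_lit 0x767480024808006b3a4000000400d0004007a0009560602)))) 
(.lf (nat_lit 3758326109) (dlOf (nat_lit 1) (nat_lit 0x8008000400200020008130903)))) 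
(.nd (nat_lit 32) (.lf (nat_lit 134447133) (dlOf (nat_lit 2) (nat_lit 0xba02f000c5818020480))) 
(.lf (nat_lit 4429414429) (dlOf (nat_lit 1) (nat_lit 0xb800080a0901))))) (.nd (nat_lit 6) 
(.nd (nat_lit 7) 
(.lf (nat_lit 25395229) (dlOf (nat_lit 3) (nat_lit 0x5e2cbf000d98100e365f800614080060008000400200080008c00483))) 
(.lf (nat_lit 42173597) (dlOf (nat_lit 1) (nat_lit 0x8008000400200020009242b83)))) 
(.lf (nat_lit 63144029) (dlOf (nat_lit 2) (nat_lit 0x43330004165000044080020004001600099e0882))))) 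
(.nd (nat_lit 7) (.nd (nat_lit 20) (.nd (nat_lit 27) 
(.lf (nat_lit 4899176477) (dlOf (nat_lit 1) (nat_lit 0x600280d0001))) 
(.lf (nat_lit 201555997) (dlOf (nat_lit 2) (nat_lit 0xba02f0007d818020480)))) 
(.lf (nat_lit 2752741405) (dlOf (nat_lit 1) (nat_lit 0x18008000c002000e0008030903)))) 
(.nd (nat_lit 6) (.nd (nat_lit 8) 
(.lf (nat_lit 3422786717) (dlOf (nat_lit 1) (nat_lit 0x200180a9501))) 
(.lf (nat_lit 6107138461) (dlOf (nat_lit 1) (nat_lit 0x400400020008094e82)))) 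
(.lf (nat_lit 5033395165) (dlOf (nat_lit 1) (nat_lit 0x400400040018092882)))))) (.nd (nat_lit 21) 
(.nd (nat_lit 27) (.nd (nat_lit 20) (.nd (nat_lit 22) 
(.lf (nat_lit 1611104285) (dlOf (nat_lit 1) (nat_lit 0x880080024002005a00080e0583))) 
(.lf (nat_lit 21463069) (dlOf (nat_lit 1) (nat_lit 0x8008000c00200020008a40083)))) 
(.lf (nat_lit 22511645) (dlOf (nat_lit 1) (nat_lit 0x980018af0701)))) (.nd (nat_lit 9) 
(.nd (nat_lit 26) 
(.lf (nat_lit 2819063837) (dlOf (nat_lit 1) (nat_lit 0x48008003c002000c0008190683))) 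
(.lf (nat_lit 3959914525) (dlOf (nat_lit 1) (nat_lit 0x400200020008170002)))) 
(.lf (nat_lit 134709789) (dlOf (nat_lit 2) (nat_lit 0x2041000501f8005a4100058008000400200060008090d83))))) 
(.nd (nat_lit 25) (.nd (nat_lit 22) (.nd (nat_lit 24) 
(.lf (nat_lit 10977309) (dlOf (nat_lit 1) (nat_lit 0x18008000400200060008650503))) 
(.lf (nat_lit 27754525) (dlOf (nat_lit 1) (nat_lit 0x10008001c00200060008d20683)))) 
(.lf (nat_lit 15171613) (dlOf (nat_lit 1) (nat_lit 0x200187c0581)))) (.nd (nat_lit 6) 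
(.nd (nat_lit 7) 
(.lf (nat_lit 48726045) (dlOf (nat_lit 3) (nat_lit 0x332e7a010972f004bac100010c18006dcf40036e5e000410400020029420101))) 
(.lf (nat_lit 44534173) (dlOf (nat_lit 1) (nat_lit 0x48008002c00200040009324e83)))) 
(.lf (nat_lit 44534365) (dlOf (nat_lit 1) (nat_lit 0x20009325301))))))) (.nd (nat_lit 6) 
(.nd (nat_lit 7) (.nd (nat_lit 26) (.nd (nat_lit 20) (.nd (nat_lit 27) 
(.lf (nat_lit 2953019421) (dlOf (nat_lit 1) (nat_lit 0x80018090481))) 
(.lf (nat_lit 1476624413) (dlOf (nat_lit 3) (nat_lit 0x7000e000410200380070001a8180a0580)))) 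
(.lf (nat_lit 3490938909) (dlOf (nat_lit 1) (nat_lit 0x18008000c002000e0008030903)))) 
(.nd (nat_lit 18) 
(.lf (nat_lit 3691216925) (dlOf (nat_lit 5) (nat_lit 0x4080740184038006a0160002d03001100e80016408045807401a002c0005704000e01d005400e0000141000180080164002012400080a0583))) 
(.lf (nat_lit 1009221661) (dlOf (nat_lit 1) (nat_lit 0x4800190a0101))))) (.nd (nat_lit 8) 
(.nd (nat_lit 10) (.lf (nat_lit 4563632285) (dlOf (nat_lit 1) (nat_lit 0x94002022c00080a2b82))) 
(.nd (nat_lit 27) 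
(.lf (nat_lit 872645789) (dlOf (nat_lit 1) (nat_lit 0x48008000400200020008092b83))) 
(.lf (nat_lit 5301830813) (dlOf (nat_lit 2) (nat_lit 0x400c0000403a001f90400480018092b81))))) 
(.nd (nat_lit 10) (.lf (nat_lit 2416148893) (dlOf (nat_lit 1) (nat_lit 0x100028090781))) 
(.lf (nat_lit 3489897885) (dlOf (nat_lit 3) (nat_lit 0x3a15c000448100e70fd0001e408005000800e0002003a000800ca83)))))) 
(.nd (nat_lit 8) (.nd (nat_lit 9) (.nd (nat_lit 29) 
(.lf (nat_lit 4563632221) (dlOf (nat_lit 2) (nat_lit 0x100cc0316604010c004005600080a1982))) 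
(.lf (nat_lit 5100503133) (dlOf (nat_lit 1) (nat_lit 0x4004000600180d0082)))) 
(.lf (nat_lit 5167613533) (dlOf (nat_lit 1) (nat_lit 0x14800801b8002003c00080d3903)))) 
(.nd (nat_lit 26) (.nd (nat_lit 11) 
(.lf (nat_lit 4563632477) (dlOf (nat_lit 1) (nat_lit 0x200280a7101))) 
(.lf (nat_lit 1344768349) (dlOf (nat_lit 1) (nat_lit 0x20028984e81)))) (.nd (nat_lit 27) 
(.lf (nat_lit 1409515869) (dlOf (nat_lit 1) (nat_lit 0x20028014e81))) 
(.lf (nat_lit 1543733597) (dlOf (nat_lit 5) (nat_lit 0x65013003980640190006000800100750000000a02803a809801fc03200ee003008700000009820000806400d0006003e001000128300020000000600800a800800b0002007a0008154e83)))))))) 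
(.nd (nat_lit 18) (.nd (nat_lit 20) (.nd (nat_lit 21) (.nd (nat_lit 26) (.nd (nat_lit 6) 
(.lf (nat_lit 537624605) (dlOf (nat_lit 26) (nat_lit 0x2a40660023d0202be05d01eb02d012b815c08c80a4058003301ef01100f9007c07540000023c1003ce0330011d01031102e817781680c580ae07d4052001b020000d00d80f6806605be02202ed00f8008cc480b480cc00464040afc0ba056605a02c702b81d2814800140800718033000401581528088015803e002311204b205d01f802d0130015c0c740a40648033007101580ff808807e803e03500000011789006403a000301740cb806605be000001168400b00198008b008097017402ac0b403b4033008b0110008ac2000a815c0044c0401c006600224020010074006500000088c1004980cc0042a04005406600211020138033001070100910198008240804b00cc004020401a40660020002014e033000ff01000102d00038088041c000001fa06004407400c0029009d80cc0228000001f3080162033000f88100900198007bc080f980cc000000400cc004002a00180e0482))) 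
(.lf (nat_lit 38503389) (dlOf (nat_lit 1) (nat_lit 0x880009132881)))) (.nd (nat_lit 31) 
(.lf (nat_lit 1410039837) (dlOf (nat_lit 26) (nat_lit 0x2a40660023d0202be05d01eb02d012b815c08c80a4058003301ef01100f9007c07540000023c1003ce0330011d01031102e817781680c580ae07d4052001b020000d00d80f6806605be02202ed00f8008cc480b480cc00464040afc0ba056605a02c702b81d2814800140800718033000401581528088015803e002311204b205d01f802d0130015c0c740a40648033007101580ff808807e803e03500000011789006403a000301740cb806605be000001168400b00198008b008097017402ac0b403b4033008b0110008ac2000a815c0044c040054066002210200e00330011001000803a003280000043e08024c06600211020138033001060100910198008200804b00cc004020401a4066001ff02014e033000ff01000102d00038088041c000001fc06004407400c0029009d80cc0228000001f2080162033000f88100900198007bc080f980cc000000400cc004002a00180e0482))) 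
(.lf (nat_lit 3557523485) (dlOf (nat_lit 3) (nat_lit 0x20450031f8100020228018cc0802a800801f800200820008240683))))) 
(.nd (nat_lit 7) (.nd (nat_lit 26) 
(.lf (nat_lit 1345028125) (dlOf (nat_lit 1) (nat_lit 0x200189d0601))) (.nd (nat_lit 27) 
(.lf (nat_lit 4096491549) (dlOf (nat_lit 1) (nat_lit 0x28008000400200020008120083))) 
(.lf (nat_lit 472612893) (dlOf (nat_lit 14) (nat_lit 0x482be00054020004160001f03e0001181000c0360000411a000207d000403e0000d82000f01f00006a0400540f80003402002607c0001981001303e00008c0800981f00003e0400400f80001e02002607c0000d81001303e00004c0800505800034118001c07d002c03e0000442001b047c00000040074004002000089c0102))))) 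
(.nd (nat_lit 6) (.lf (nat_lit 48990621) (dlOf (nat_lit 1) (nat_lit 0x100080460002000e0009464e83))) 
(.lf (nat_lit 69960157) (dlOf (nat_lit 1) (nat_lit 0x80018e27c81)))))) (.nd (nat_lit 21) 
(.nd (nat_lit 26) (.nd (nat_lit 6) (.nd (nat_lit 27) 
(.lf (nat_lit 1343979549) (dlOf (nat_lit 1) (nat_lit 0xe0018390a01))) 
(.lf (nat_lit 5773164573) (dlOf (nat_lit 2) (nat_lit 0x704f000076040004004000200180b0102)))) 
(.lf (nat_lit 14385501) (dlOf (nat_lit 1) (nat_lit 0x400200020008750902)))) (.nd (nat_lit 27) 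
(.lf (nat_lit 2753265693) (dlOf (nat_lit 1) (nat_lit 0xc00400060018090002))) 
(.lf (nat_lit 6377144349) (dlOf (nat_lit 2) (nat_lit 0x704bc00076040004004000200180b0102))))) 
(.nd (nat_lit 7) 
(.lf (nat_lit 45842461) (dlOf (nat_lit 3) (nat_lit 0x5f0e00008604007ea8c003e3f10001f829360100))) 
(.nd (nat_lit 8) (.lf (nat_lit 8094365) (dlOf (nat_lit 1) (nat_lit 0x700018511c01))) 
(.lf (nat_lit 8099741) (dlOf (nat_lit 1) (nat_lit 0x40020002000851a302))))))) (.nd (nat_lit 21) 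
(.nd (nat_lit 24) (.nd (nat_lit 20) (.nd (nat_lit 6) 
(.lf (nat_lit 1015837) (dlOf (nat_lit 1) (nat_lit 0x20018050b81))) 
(.lf (nat_lit 2752479581) (dlOf (nat_lit 1) (nat_lit 0x400080030002000c0008014e83)))) 
(.nd (nat_lit 22) 
(.lf (nat_lit 69173277) (dlOf (nat_lit 1) (nat_lit 0x13000800b8002004400088c0103))) 
(.lf (nat_lit 14647325) (dlOf (nat_lit 1) (nat_lit 0xc80018770101))))) (.nd (nat_lit 7) 
(.nd (nat_lit 20) 
(.lf (nat_lit 21987357) (dlOf (nat_lit 9) (nat_lit 0x1e9a1e0024c0200b6d0f001248100bf68780092008044343c0048e0401e9a1e00246020076d0f0011981002e6878007e808005b43c003f004003800400840018a80902))) 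
(.lf (nat_lit 23035933) (dlOf (nat_lit 1) (nat_lit 0x30008000400200020008b40483)))) 
(.nd (nat_lit 6) 
(.lf (nat_lit 56591517) (dlOf (nat_lit 1) (nat_lit 0x100008007800200340009732b83))) 
(.lf (nat_lit 56591325) (dlOf (nat_lit 1) (nat_lit 0x400200020009732882)))))) (.nd (nat_lit 6) 
(.nd (nat_lit 7) (.nd (nat_lit 20) 
(.lf (nat_lit 28278813) (dlOf (nat_lit 1) (nat_lit 0x20018d80681))) 
(.lf (nat_lit 473923613) (dlOf (nat_lit 5) (nat_lit 0x16b0ab00b98334058c12c021c08d016a0428000c4281360558099419a0504096028f0428000c02010f055802e427204400cd01f504b003b0234086010a0002f0c0020156000706680030258002c10a0002e0800020028fc0101)))) 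
(.nd (nat_lit 8) (.lf (nat_lit 1345290397) (dlOf (nat_lit 1) (nat_lit 0x3c0018b50501))) 
(.lf (nat_lit 58689949) (dlOf (nat_lit 1) (nat_lit 0x4002000200097e4e82))))) (.nd (nat_lit 7) 
(.nd (nat_lit 23) (.lf (nat_lit 20938845) (dlOf (nat_lit 1) (nat_lit 0x2400189f0781))) 
(.lf (nat_lit 12550237) (dlOf (nat_lit 2) (nat_lit 0x27178002a2ca0001804001000186d1201)))) 
(.nd (nat_lit 20) (.lf (nat_lit 3492774877) (dlOf (nat_lit 1) (nat_lit 0x4002000200080f2882))) 
(.nd (nat_lit 22) 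
(.lf (nat_lit 37716957) (dlOf (nat_lit 1) (nat_lit 0x380080008002000200090d2883))) 
(.lf (nat_lit 8356829) (dlOf (nat_lit 1) (nat_lit 0x800200020008512882)))))))))) (.nd (nat_lit 6) 
(.nd (nat_lit 18) (.nd (nat_lit 7) (.nd (nat_lit 8) (.nd (nat_lit 26) (.nd (nat_lit 9) 
(.lf (nat_lit 1342406717) (dlOf (nat_lit 1) (nat_lit 0xcc00400460018020702))) 
(.lf (nat_lit 805536317) (dlOf (nat_lit 1) (nat_lit 0x300018128201)))) (.nd (nat_lit 21) 
(.lf (nat_lit 469991485) (dlOf (nat_lit 1) (nat_lit 0xcc00400460018020702))) 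
(.lf (nat_lit 1008959549) (dlOf (nat_lit 4) (nat_lit 0x3018400180be00744040006061000d02f801d0c10004018400200be0073a0400160029000001))))) 
(.nd (nat_lit 10) (.nd (nat_lit 26) 
(.lf (nat_lit 3087237437) (dlOf (nat_lit 1) (nat_lit 0x280008154c01))) 
(.lf (nat_lit 3825434941) (dlOf (nat_lit 1) (nat_lit 0x280008154c01)))) (.nd (nat_lit 9) 
(.lf (nat_lit 20155709) (dlOf (nat_lit 1) (nat_lit 0x4800289d6901))) 
(.lf (nat_lit 20682557) (dlOf (nat_lit 3) (nat_lit 0xd4a20006a3c0001182000252d8001a944000d4780001e06000200289da101)))))) 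
(.nd (nat_lit 8) (.nd (nat_lit 20) 
(.lf (nat_lit 3355672765) (dlOf (nat_lit 1) (nat_lit 0x4004000c00180b3302))) 
(.lf (nat_lit 13861053) (dlOf (nat_lit 1) (nat_lit 0x400200020008750382)))) (.nd (nat_lit 10) 
(.nd (nat_lit 21) (.lf (nat_lit 754109) (dlOf (nat_lit 1) (nat_lit 0x7a0004033e0008017a82))) 
(.lf (nat_lit 69960125) (dlOf (nat_lit 1) (nat_lit 0x400400020008e27a82)))) (.nd (nat_lit 27) 
(.lf (nat_lit 4832069053) (dlOf (nat_lit 1) (nat_lit 0x90008012c002004a00080d3603))) 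
(.lf (nat_lit 5234722237) (dlOf (nat_lit 1) (nat_lit 0x30008010c002014e00080d3603))))))) 
(.nd (nat_lit 19) (.nd (nat_lit 7) (.nd (nat_lit 29) (.nd (nat_lit 10) (.nd (nat_lit 22) 
(.lf (nat_lit 9928765) (dlOf (nat_lit 5) (nat_lit 0x19d0eb00d1074c009438e00081c500200e1000205cc00ad618067c3ac03441d300270e38000871400803840056a0a03461d601500e980078728002038e00181c5000d0e1000585e000ad21c06603ac02ce1d300070e5000f871c002438a003c1c2000a0bc0015a0380c6800803940020aaa0008591683))) 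
(.lf (nat_lit 47677501) (dlOf (nat_lit 1) (nat_lit 0xa40019400001)))) 
(.lf (nat_lit 496701) (dlOf (nat_lit 1) (nat_lit 0xa60008009281)))) (.nd (nat_lit 8) 
(.nd (nat_lit 26) 
(.lf (nat_lit 1611104317) (dlOf (nat_lit 4) (nat_lit 0x205002dd02081720100023c07004e203000030148002007c0028034004000d00070008011d85016e81040b98080011e038026b0180001007c001c034003400d00020008011d440000813c0ba808204f4040009201c00ef00c0002003e000601a000d0068011d0400be800801e400213fa00080e1683))) 
(.lf (nat_lit 738689085) (dlOf (nat_lit 4) (nat_lit 0x205002dd02081720100023c07004e203000030148002007c0028034004000d00070008028305016e81040b98080011e038026b0180001007c001c034003400d000200080282c40000813c0ba808204f4040009201c00ef00c0002003e000601a000d006802828400be800801e400213fa00080e1683)))) 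
(.lf (nat_lit 2886172989) (dlOf (nat_lit 3) (nat_lit 0x500000013808001010c0007e04000c00400020008188502))))) 
(.nd (nat_lit 21) (.nd (nat_lit 26) 
(.lf (nat_lit 1342668989) (dlOf (nat_lit 3) (nat_lit 0x1512380088734005438a0003206001624700060e680058714000620c000c004003400180c0382))) 
(.lf (nat_lit 3288826045) (dlOf (nat_lit 2) (nat_lit 0x7800000024040014002000400081b0382)))) 
(.lf (nat_lit 23560381) (dlOf (nat_lit 1) (nat_lit 0x40018b80381))))) (.nd (nat_lit 20) 
(.nd (nat_lit 23) 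
(.lf (nat_lit 21987389) (dlOf (nat_lit 2) (nat_lit 0x8d83001b0000005581000a8008002000200540008a80d03))) 
(.lf (nat_lit 13598781) (dlOf (nat_lit 6) (nat_lit 0x7b8c6000a1020069c630037deb0001e010011f18c00337ac0002a04003dc630000b81001fe31800054080028008004400200120008730b83)))) 
(.nd (nat_lit 7) (.nd (nat_lit 22) 
(.lf (nat_lit 473923645) (dlOf (nat_lit 2) (nat_lit 0x160d9000304e000e02340048e0c00ac004000a0008fc0602))) 
(.lf (nat_lit 25133117) (dlOf (nat_lit 1) (nat_lit 0x10008000c00200060008be1403)))) 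
(.lf (nat_lit 18841789) (dlOf (nat_lit 1) (nat_lit 0x1c0028970481))))))) (.nd (nat_lit 8) 
(.nd (nat_lit 31) (.nd (nat_lit 10) (.nd (nat_lit 9) (.nd (nat_lit 26) 
(.lf (nat_lit 5774213245) (dlOf (nat_lit 1) (nat_lit 0x40018123581))) 
(.lf (nat_lit 6378193021) (dlOf (nat_lit 1) (nat_lit 0x420018123581)))) (.nd (nat_lit 18) 
(.lf (nat_lit 6107138685) (dlOf (nat_lit 1) (nat_lit 0x10008000400200020008095403))) 
(.lf (nat_lit 46107261) (dlOf (nat_lit 1) (nat_lit 0x140029385401))))) (.nd (nat_lit 20) 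
(.nd (nat_lit 19) 
(.lf (nat_lit 8881789) (dlOf (nat_lit 2) (nat_lit 0x9ed7000a7660005bb2a0110c7c00016848513980))) 
(.lf (nat_lit 61834877) (dlOf (nat_lit 1) (nat_lit 0x1000400840019923982)))) (.nd (nat_lit 9) 
(.lf (nat_lit 8361085) (dlOf (nat_lit 1) (nat_lit 0x8008000400200020008519503))) 
(.lf (nat_lit 44009085) (dlOf (nat_lit 1) (nat_lit 0xc004000600092a3982)))))) (.nd (nat_lit 27) 
(.nd (nat_lit 10) (.nd (nat_lit 18) 
(.lf (nat_lit 2483257469) (dlOf (nat_lit 7) (nat_lit 0x80a8003f8040024020001fa020054010004100700079c1000080a80028020000800e000f183001601500098054003c008000c0540015202039c0028090081))) 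
(.lf (nat_lit 3221717117) (dlOf (nat_lit 1) (nat_lit 0xa0028170081)))) (.nd (nat_lit 7) 
(.lf (nat_lit 2684589181) (dlOf (nat_lit 7) (nat_lit 0xf40760016b02034003b000b50100cc01d8005a40804800ec002d00406180760001502003003b0000a0180a9500))) 
(.lf (nat_lit 2684589309) (dlOf (nat_lit 3) (nat_lit 0x10a01d8004d00807b80ec0000004000c004007200180a9582))))) 
(.nd (nat_lit 7) (.nd (nat_lit 18) 
(.lf (nat_lit 2349039741) (dlOf (nat_lit 12) (nat_lit 0x26008000d003800422080070020003400e0010802002f008001180380041e08000c020005600e000ff82002400800048038003fc08008001c001fc02007e01000270070007e4100108038003f004008001c001f702005a010002b0070007d41000f803c002d20405a4002001a0008090082))) 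
(.lf (nat_lit 3959914621) (dlOf (nat_lit 1) (nat_lit 0xa0028170081)))) (.nd (nat_lit 10) 
(.lf (nat_lit 2617475325) (dlOf (nat_lit 1) (nat_lit 0x200280b4601))) 
(.lf (nat_lit 3422786813) (dlOf (nat_lit 2) (nat_lit 0x2140760000002000200280a9581))))))) 
(.nd (nat_lit 10) (.nd (nat_lit 26) (.nd (nat_lit 11) (.nd (nat_lit 9) (.nd (nat_lit 19) 
(.lf (nat_lit 3087237629) (dlOf (nat_lit 5) (nat_lit 0x22400b002a004802600000005c0c040c0160104009007d0000000b418039802c0004e0401b0016000260200d00028157e01))) 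
(.lf (nat_lit 754173) (dlOf (nat_lit 1) (nat_lit 0x8008007800200460008017e03)))) 
(.lf (nat_lit 2147714045) (dlOf (nat_lit 1) (nat_lit 0x2c00180e2881)))) (.nd (nat_lit 7) 
(.lf (nat_lit 4966287741) (dlOf (nat_lit 1) (nat_lit 0x400400020008094e82))) 
(.lf (nat_lit 39029245) (dlOf (nat_lit 1) (nat_lit 0x38008001c00200080009194f83))))) 
(.nd (nat_lit 7) (.nd (nat_lit 18) 
(.lf (nat_lit 2483257725) (dlOf (nat_lit 1) (nat_lit 0x280080004002000a0008090783))) 
(.lf (nat_lit 1409778045) (dlOf (nat_lit 1) (nat_lit 0x10008000800200020008090783)))) 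
(.nd (nat_lit 9) (.nd (nat_lit 18) 
(.lf (nat_lit 1677951485) (dlOf (nat_lit 4) (nat_lit 0x90000000338100090000001980802400000007e04008000400200008127e02))) 
(.lf (nat_lit 2752479741) (dlOf (nat_lit 5) (nat_lit 0x11b87e0015c2b2002c157000110300940fc0000780812607e001442b20001c0404a61f800540ac80006c1009b8008009000201960008017e03)))) 
(.lf (nat_lit 1275298813) (dlOf (nat_lit 1) (nat_lit 0x4004000200080e2882)))))) (.nd (nat_lit 7) 
(.nd (nat_lit 9) (.lf (nat_lit 61572477) (dlOf (nat_lit 1) (nat_lit 0x400400020009923582))) 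
(.nd (nat_lit 18) (.lf (nat_lit 8099709) (dlOf (nat_lit 1) (nat_lit 0x40020002000851a302))) 
(.lf (nat_lit 8361853) (dlOf (nat_lit 1) (nat_lit 0x40020002000851a302))))) (.nd (nat_lit 26) 
(.nd (nat_lit 9) 
(.lf (nat_lit 2684589565) (dlOf (nat_lit 4) (nat_lit 0x2bd01d80037c0815000ec001b2040a800760000c02002e00080a9c01))) 
(.lf (nat_lit 8624125) (dlOf (nat_lit 1) (nat_lit 0x2001851a601)))) (.nd (nat_lit 12) 
(.lf (nat_lit 474187261) (dlOf (nat_lit 2) (nat_lit 0x1402e4000216e0002e0290e3680))) 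
(.lf (nat_lit 3422787069) (dlOf (nat_lit 4) (nat_lit 0x11c407600440390006c82046e01d800030080ef80ec00000040634002020000080a9c02))))))))))))

end

end Pool.Agent.Lib.MP_5854e1_co.Cz

namespace Pool.Agent.Lib.MP_5854e1_co.Cz

noncomputable section

noncomputable def tz62 : DT := (.nd (nat_lit 15) (.nd (nat_lit 5) (.nd (nat_lit 4) (.nd (nat_lit 6) 
(.nd (nat_lit 18) (.nd (nat_lit 19) (.nd (nat_lit 26) (.nd (nat_lit 23) (.nd (nat_lit 30) 
(.nd (nat_lit 7) (.nd (nat_lit 8) 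
(.lf (nat_lit 4697759757) (dlOf (nat_lit 9) (nat_lit 0x180bc002805a000a01f00dd5830005017800400b4001803e01baa06000a02f00090168005007c037500c001005e001602d000900f806e981800580bc0373204002c05e01b2a02004802f00d9481000b017806c9c080060008012800200020008090003))) 
(.lf (nat_lit 805448973) (dlOf (nat_lit 2) (nat_lit 0xe009800090080068008002400200140008116683)))) 
(.lf (nat_lit 3285133) (dlOf (nat_lit 2) (nat_lit 0x55bf0002a9e000154d8000a0680004fc00001d858200100)))) 
(.nd (nat_lit 7) (.nd (nat_lit 20) 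
(.lf (nat_lit 4026671117) (dlOf (nat_lit 1) (nat_lit 0x80018020481))) 
(.lf (nat_lit 3490848781) (dlOf (nat_lit 5) (nat_lit 0xd0e380025808011880c000fa0400804060007502004620300039818030480)))) 
(.lf (nat_lit 3221372045) (dlOf (nat_lit 1) (nat_lit 0x2000811c201))))) (.nd (nat_lit 7) 
(.nd (nat_lit 20) (.nd (nat_lit 22) 
(.lf (nat_lit 25305101) (dlOf (nat_lit 5) (nat_lit 0x9b1a200037920001bc500135d60009ae8e003b73a0020b9780135adc0012d4a000f5820011a1b00024b30009a58800051dc00268930004ec780046344001af24002d758000aba3800ddce80082e5e002d6b70016b5280015608005a86c00052cc0016962000b47700016320001391c00319a10018c68800cde280062e74003d72f0018b5b800c5a940062b0400314360018966000c4b1000163b8003112600187fb800c3dfc0038000000d920001f72f00117fb8003601000880080030002012e0008bf0483))) 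
(.lf (nat_lit 12722189) (dlOf (nat_lit 2) (nat_lit 0x2892000088186e0380)))) 
(.lf (nat_lit 11673613) (dlOf (nat_lit 1) (nat_lit 0x100080020002000a00086c0003)))) 
(.lf (nat_lit 8533133) (dlOf (nat_lit 1) (nat_lit 0xc00400020008519502))))) (.nd (nat_lit 28) 
(.nd (nat_lit 30) (.nd (nat_lit 7) (.nd (nat_lit 20) 
(.lf (nat_lit 2214731789) (dlOf (nat_lit 1) (nat_lit 0x20018080101))) 
(.lf (nat_lit 2752651277) (dlOf (nat_lit 5) (nat_lit 0xd0ec800258080118860000fa0400804300007502004621800039818030480)))) 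
(.lf (nat_lit 6509702797) (dlOf (nat_lit 1) (nat_lit 0x20008147181)))) (.nd (nat_lit 27) 
(.lf (nat_lit 5435957261) (dlOf (nat_lit 3) (nat_lit 0x100fc00180740010035003e803000301f800200f80024074000e0350001000001f3c2800c00080050002001a0008060a03))) 
(.lf (nat_lit 3422691341) (dlOf (nat_lit 7) (nat_lit 0x100c80007e0400100640003e02003e0320001e81000c0198000ec0800180cc0007404000c066000380200080008060101))))) 
(.nd (nat_lit 9) (.nd (nat_lit 8) (.nd (nat_lit 20) 
(.lf (nat_lit 3691126797) (dlOf (nat_lit 1) (nat_lit 0x200028040201))) 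
(.lf (nat_lit 470949901) (dlOf (nat_lit 1) (nat_lit 0x400080060002004e0008210283)))) 
(.lf (nat_lit 2617390349) (dlOf (nat_lit 1) (nat_lit 0x200080004002001800080a9683)))) 
(.nd (nat_lit 10) 
(.lf (nat_lit 3154256397) (dlOf (nat_lit 1) (nat_lit 0xbf0008000400200480008137b03))) 
(.lf (nat_lit 5838614029) (dlOf (nat_lit 2) (nat_lit 0x300d000064040010002000200080f7082))))))) 
(.nd (nat_lit 21) (.nd (nat_lit 27) (.nd (nat_lit 7) (.nd (nat_lit 20) (.nd (nat_lit 22) 
(.lf (nat_lit 1342840845) (dlOf (nat_lit 2) (nat_lit 0xe199000088180e0380))) 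
(.lf (nat_lit 21635085) (dlOf (nat_lit 1) (nat_lit 0x8008000400200020008a50083)))) 
(.lf (nat_lit 26877965) (dlOf (nat_lit 1) (nat_lit 0xc00200040008c80482)))) (.nd (nat_lit 8) 
(.lf (nat_lit 1343889549) (dlOf (nat_lit 1) (nat_lit 0x8008000400200020008370483))) 
(.lf (nat_lit 1611278733) (dlOf (nat_lit 1) (nat_lit 0x30004002a0018124e82))))) (.nd (nat_lit 26) 
(.lf (nat_lit 134881293) (dlOf (nat_lit 10) (nat_lit 0x78012803cc08c01ee02f00f501500888030000fa140478094024a046011e017808e80a8000f81004d408c0007b0201a80460003d01002702500078118009005e003802a00290060001d4280310118000e80400bc094003a046002f017801500a8000e61001c808c000720200a6046003401b000000100eb00080180002002800080d0483))) 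
(.nd (nat_lit 28) 
(.lf (nat_lit 201990157) (dlOf (nat_lit 10) (nat_lit 0x78012803cc08c01ee02f00f501500888030000fa140478094024a046011e017808e80a8000f81004d408c0007b0201a80460003d01002702500078118009005e003802a00290060001d4280310118000e80400bc094003a046002f017801500a8000e61001c808c000720200a6046003401b000000100eb00080180002002800080d0483))) 
(.lf (nat_lit 470425613) (dlOf (nat_lit 2) (nat_lit 0xe19d000088180e0380)))))) (.nd (nat_lit 23) 
(.nd (nat_lit 26) (.nd (nat_lit 8) 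
(.lf (nat_lit 3492421645) (dlOf (nat_lit 5) (nat_lit 0x6881c000fa04003840e0007c02000c2070003a8100051038001cc0800a00080014002001800080d0483))) 
(.lf (nat_lit 36316429) (dlOf (nat_lit 1) (nat_lit 0x20019073001)))) (.nd (nat_lit 27) 
(.lf (nat_lit 2754224141) (dlOf (nat_lit 5) (nat_lit 0x68870000fa0400384380007c02000c21c0003a81000510e0001cc0800a00080014002001800080d0483))) 
(.lf (nat_lit 472522765) (dlOf (nat_lit 1) (nat_lit 0x200089b0181))))) (.nd (nat_lit 20) 
(.nd (nat_lit 24) 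
(.lf (nat_lit 11149325) (dlOf (nat_lit 6) (nat_lit 0x24561000c2ad80010c1003915840170abe000255b00511e48001082006b1584064cab60004104000256101232af8153956c000760c0004ab60001102003a0028660101))) 
(.lf (nat_lit 27926541) (dlOf (nat_lit 6) (nat_lit 0x2cb5400231a9e000cd3d00686638002302000337e80079b1600c0d5000936a7800134f400319b00006cd7006766380022c40002b7e8016daa0011cd4f004969f000234f400699b000d2cc7000448700036fd002cb5400229a9e0040d3e001f66c0036331c0011018013daa00002d4f004766380021818005000800d400200100008d40183)))) 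
(.lf (nat_lit 16392205) (dlOf (nat_lit 1) (nat_lit 0x400088a0181))))))) (.nd (nat_lit 31) 
(.nd (nat_lit 7) (.nd (nat_lit 28) (.nd (nat_lit 19) (.nd (nat_lit 20) (.nd (nat_lit 26) 
(.lf (nat_lit 5905981453) (dlOf (nat_lit 5) (nat_lit 0x10094003002e0013b04001a0170009c81001600b8003640800100c8005002e000d80400460028170481))) 
(.lf (nat_lit 201728013) (dlOf (nat_lit 2) (nat_lit 0x3a03b0037d818090000)))) 
(.lf (nat_lit 62267405) (dlOf (nat_lit 1) (nat_lit 0x20029990081)))) (.nd (nat_lit 20) 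
(.lf (nat_lit 15605773) (dlOf (nat_lit 2) (nat_lit 0x7135c00bea040024004002c0018810282))) 
(.lf (nat_lit 22945805) (dlOf (nat_lit 2) (nat_lit 0x480000007604003000200040008b40102))))) 
(.nd (nat_lit 30) (.nd (nat_lit 27) 
(.lf (nat_lit 4563804173) (dlOf (nat_lit 1) (nat_lit 0x40008001c002004000080e0083))) 
(.lf (nat_lit 4698021901) (dlOf (nat_lit 1) (nat_lit 0x40008001c002004000080e0083)))) 
(.nd (nat_lit 20) 
(.lf (nat_lit 1881546765) (dlOf (nat_lit 2) (nat_lit 0x403c8033b4080018008001c002001a0008f40003))) 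
(.lf (nat_lit 1343627277) (dlOf (nat_lit 2) (nat_lit 0x381f801722040038002001a00082c0282)))))) 
(.nd (nat_lit 21) (.nd (nat_lit 26) 
(.lf (nat_lit 134619533) (dlOf (nat_lit 2) (nat_lit 0x3603b003a0818090780))) (.nd (nat_lit 27) 
(.lf (nat_lit 4362477965) (dlOf (nat_lit 2) (nat_lit 0x8603300717018090780))) 
(.lf (nat_lit 201728397) (dlOf (nat_lit 3) (nat_lit 0x10c07600cea02000603b00670018090780))))) 
(.nd (nat_lit 8) (.nd (nat_lit 19) 
(.lf (nat_lit 11935885) (dlOf (nat_lit 1) (nat_lit 0xc002000600086c0102))) 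
(.lf (nat_lit 3022989) (dlOf (nat_lit 2) (nat_lit 0x384fc0007604000400400020018200102)))) 
(.lf (nat_lit 473311629) (dlOf (nat_lit 1) (nat_lit 0x4000400080008e94e82)))))) (.nd (nat_lit 26) 
(.nd (nat_lit 27) (.nd (nat_lit 7) (.nd (nat_lit 28) 
(.lf (nat_lit 3221626893) (dlOf (nat_lit 1) (nat_lit 0x200080010002000c0008160103))) 
(.lf (nat_lit 4026933261) (dlOf (nat_lit 2) (nat_lit 0xe0120000b8180d0480)))) 
(.lf (nat_lit 3490065805) (dlOf (nat_lit 1) (nat_lit 0x400400060008006c82)))) (.nd (nat_lit 19) 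
(.nd (nat_lit 29) 
(.lf (nat_lit 3355844621) (dlOf (nat_lit 29) (nat_lit 0x7500c8000960406cc064004e0120002502028801981f200c80b54062047802c007200900010c2800400cc0f1406406ae02c000210301ca019814080c80d00062027002c019a0090001042812180c802940580004004054e0320001f8102320190000f80812800c80007a0401a4064051803101ca0090147804406ec0000003b0a056803202b00188000e8100bf80c800072040738064004e0310001b0200010188000880803500c4000420400140620001f02000203200590188000781002200c400032040098066017403202c701880005c1815180c80ab8062000150400e003201d20188000501011680c4000260408c00620001202004003303d30190000441000180c8000200403380640000f02027a031000050102770190000000803d80080a5800200060008120103))) 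
(.lf (nat_lit 3892715533) (dlOf (nat_lit 2) (nat_lit 0x2602c005dd0181d0480)))) 
(.lf (nat_lit 2819497997) (dlOf (nat_lit 1) (nat_lit 0x20004000c00082b0282))))) (.nd (nat_lit 27) 
(.nd (nat_lit 28) (.nd (nat_lit 30) 
(.lf (nat_lit 6509961229) (dlOf (nat_lit 5) (nat_lit 0x10098003002e0013b04001a0170009c81001600b8003640800100c8005002e000d80400460028170481))) 
(.lf (nat_lit 3288735757) (dlOf (nat_lit 2) (nat_lit 0xe0120000e0180d0480)))) (.nd (nat_lit 19) 
(.lf (nat_lit 3020300301) (dlOf (nat_lit 5) (nat_lit 0xf00c8009d004002405c004d702001202d0026b01000801680134c08020000800e400200020008220283))) 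
(.lf (nat_lit 3557695501) (dlOf (nat_lit 1) (nat_lit 0x20004000c00082b0282))))) (.nd (nat_lit 28) 
(.lf (nat_lit 3959824397) (dlOf (nat_lit 1) (nat_lit 0x200080010002000c0008160103))) 
(.nd (nat_lit 29) (.lf (nat_lit 2617647117) (dlOf (nat_lit 1) (nat_lit 0xc004000c0008130082))) 
(.lf (nat_lit 3154518029) (dlOf (nat_lit 1) (nat_lit 0x10200081f0481))))))))) (.nd (nat_lit 18) 
(.nd (nat_lit 28) (.nd (nat_lit 29) (.nd (nat_lit 19) (.nd (nat_lit 7) (.nd (nat_lit 8) 
(.lf (nat_lit 53619277) (dlOf (nat_lit 1) (nat_lit 0xa00195f5281))) (.nd (nat_lit 22) 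
(.lf (nat_lit 3285325) (dlOf (nat_lit 1) (nat_lit 0xa0018200601))) 
(.lf (nat_lit 41034061) (dlOf (nat_lit 1) (nat_lit 0x400200020009218902))))) (.nd (nat_lit 9) 
(.lf (nat_lit 3221372109) (dlOf (nat_lit 1) (nat_lit 0x14c0020038000811c202))) 
(.lf (nat_lit 20067021) (dlOf (nat_lit 1) (nat_lit 0x80080004002000200089d8c83))))) 
(.nd (nat_lit 20) (.nd (nat_lit 8) (.nd (nat_lit 21) 
(.lf (nat_lit 42606669) (dlOf (nat_lit 1) (nat_lit 0x20019260681))) 
(.lf (nat_lit 23732301) (dlOf (nat_lit 1) (nat_lit 0xc0018b80001)))) 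
(.lf (nat_lit 50995533) (dlOf (nat_lit 1) (nat_lit 0x200294e8901)))) (.nd (nat_lit 7) 
(.lf (nat_lit 10100813) (dlOf (nat_lit 1) (nat_lit 0x4002000200085b0902))) 
(.lf (nat_lit 14295245) (dlOf (nat_lit 1) (nat_lit 0xc0028750481)))))) (.nd (nat_lit 8) 
(.nd (nat_lit 11) (.nd (nat_lit 19) 
(.lf (nat_lit 2752651341) (dlOf (nat_lit 4) (nat_lit 0x5c1d7002e0e180001010008875c0040386000020400241d700130e18000001002a8008008c00201900008030f83))) 
(.lf (nat_lit 2754224205) (dlOf (nat_lit 3) (nat_lit 0x2e21a00240eb8004070c001c0000004f08002e21a00270eb800f070c00180000004d08003e00180d0d01)))) 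
(.nd (nat_lit 9) (.lf (nat_lit 3959568461) (dlOf (nat_lit 1) (nat_lit 0x14000811a681))) 
(.lf (nat_lit 3959568973) (dlOf (nat_lit 1) (nat_lit 0x2002811b601))))) (.nd (nat_lit 7) 
(.nd (nat_lit 10) (.lf (nat_lit 3892453709) (dlOf (nat_lit 1) (nat_lit 0x400200020008128902))) 
(.lf (nat_lit 2818712909) (dlOf (nat_lit 1) (nat_lit 0x3400180d3301)))) (.nd (nat_lit 11) 
(.lf (nat_lit 2751603661) (dlOf (nat_lit 1) (nat_lit 0x1000200020008002882))) 
(.lf (nat_lit 738339789) (dlOf (nat_lit 1) (nat_lit 0x18008001c00200020008095d83))))))) 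
(.nd (nat_lit 30) (.nd (nat_lit 11) (.nd (nat_lit 26) (.nd (nat_lit 27) 
(.lf (nat_lit 2416058445) (dlOf (nat_lit 1) (nat_lit 0x80008030f81))) 
(.lf (nat_lit 2550276173) (dlOf (nat_lit 1) (nat_lit 0x80008030f81)))) (.nd (nat_lit 27) 
(.lf (nat_lit 4630650957) (dlOf (nat_lit 1) (nat_lit 0x2a0008040501))) 
(.lf (nat_lit 4764868685) (dlOf (nat_lit 1) (nat_lit 0x2a0008040501))))) (.nd (nat_lit 7) 
(.lf (nat_lit 805449293) (dlOf (nat_lit 2) (nat_lit 0x600e0006f818117180))) (.nd (nat_lit 9) 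
(.lf (nat_lit 474098125) (dlOf (nat_lit 1) (nat_lit 0x1000200040009084e82))) 
(.lf (nat_lit 4563545037) (dlOf (nat_lit 2) (nat_lit 0x40290000c018095d80)))))) (.nd (nat_lit 19) 
(.nd (nat_lit 8) (.nd (nat_lit 20) 
(.lf (nat_lit 1346510925) (dlOf (nat_lit 1) (nat_lit 0x400400040008f80602))) 
(.lf (nat_lit 3490848845) (dlOf (nat_lit 4) (nat_lit 0x5c1c5002e0d7000010100088714004035c000020400241c500130d70000001002a8008008c00201900008030f83)))) 
(.lf (nat_lit 1543646541) (dlOf (nat_lit 1) (nat_lit 0x20008146a01)))) (.nd (nat_lit 10) 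
(.nd (nat_lit 31) 
(.lf (nat_lit 1344938061) (dlOf (nat_lit 1) (nat_lit 0x58008001c002000c00089a0683))) 
(.lf (nat_lit 3492421709) (dlOf (nat_lit 3) (nat_lit 0x2e20500240e2800406b8001c0000005608002e20500270e2800f06b800180000005408003e00180d0d01)))) 
(.lf (nat_lit 1345987661) (dlOf (nat_lit 2) (nat_lit 0x7e0850033f018e22880))))))) (.nd (nat_lit 21) 
(.nd (nat_lit 19) (.nd (nat_lit 28) (.nd (nat_lit 8) (.nd (nat_lit 22) 
(.lf (nat_lit 3288735821) (dlOf (nat_lit 4) (nat_lit 0x1700400004d02009c020000260100500100001180802300080040002012c00080d0d03))) 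
(.lf (nat_lit 54927437) (dlOf (nat_lit 1) (nat_lit 0xb8008005000200020009670603)))) 
(.lf (nat_lit 17178957) (dlOf (nat_lit 1) (nat_lit 0x600188e0781)))) (.nd (nat_lit 26) 
(.nd (nat_lit 29) 
(.lf (nat_lit 5637546061) (dlOf (nat_lit 3) (nat_lit 0xa01d0003a81002600e8001d00801380080044002002a0008100503))) 
(.lf (nat_lit 4026933325) (dlOf (nat_lit 4) (nat_lit 0x1700400004602009c020000228100500100000fc0802300080040002012c00080d0d03)))) 
(.lf (nat_lit 6241525837) (dlOf (nat_lit 3) (nat_lit 0xa01d0003a81002600e8001d00801380080044002002a0008100503))))) 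
(.nd (nat_lit 9) (.nd (nat_lit 7) (.nd (nat_lit 22) 
(.lf (nat_lit 42868813) (dlOf (nat_lit 1) (nat_lit 0x4004008e0009280682))) 
(.lf (nat_lit 13508685) (dlOf (nat_lit 2) (nat_lit 0x5c6300023018730d00)))) 
(.lf (nat_lit 5773336781) (dlOf (nat_lit 1) (nat_lit 0x8002000200080c1802)))) (.nd (nat_lit 10) 
(.lf (nat_lit 2752389709) (dlOf (nat_lit 1) (nat_lit 0x100080010002000a0008018d83))) 
(.lf (nat_lit 4095616589) (dlOf (nat_lit 1) (nat_lit 0x400280e3881)))))) (.nd (nat_lit 20) 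
(.nd (nat_lit 7) (.nd (nat_lit 8) (.nd (nat_lit 9) 
(.lf (nat_lit 1881546829) (dlOf (nat_lit 9) (nat_lit 0x2a07a0000b81003003d0000580800c038800580f4000120400040e2001603d0000441000481e8000200400680f40000b02002c07a0000281002503d0000000801380080004002000a0008f40683))) 
(.lf (nat_lit 19800653) (dlOf (nat_lit 1) (nat_lit 0x600189d1601)))) 
(.lf (nat_lit 3023181) (dlOf (nat_lit 1) (nat_lit 0x20018200601)))) (.nd (nat_lit 11) 
(.lf (nat_lit 44966861) (dlOf (nat_lit 1) (nat_lit 0x400400020009322882))) 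
(.lf (nat_lit 2754493389) (dlOf (nat_lit 1) (nat_lit 0x8a00180fbe81))))) (.nd (nat_lit 19) 
(.nd (nat_lit 7) (.nd (nat_lit 9) 
(.lf (nat_lit 58073421) (dlOf (nat_lit 8) (nat_lit 0x18864000c4318001d810002a190000ea04001d0c80007102000e86400038010006432000188080032190000c204001d0c80000002000200097b8901))) 
(.lf (nat_lit 20327245) (dlOf (nat_lit 1) (nat_lit 0x4002000200089d5c02)))) 
(.lf (nat_lit 3547597) (dlOf (nat_lit 1) (nat_lit 0x5a0008200a01)))) (.nd (nat_lit 7) 
(.nd (nat_lit 8) 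
(.lf (nat_lit 1346248781) (dlOf (nat_lit 4) (nat_lit 0x20020033b40800485b0000c008000c0010067603000400200018004019c6080004004000a0018e80002))) 
(.lf (nat_lit 2755535181) (dlOf (nat_lit 5) (nat_lit 0x1702a00100144000980801600a800560510002582009002a00ac814c00a00a200780500002004006202a0072014c000c0a20003f06053200181b0601)))) 
(.lf (nat_lit 8267213) (dlOf (nat_lit 1) (nat_lit 0x400200020008513602))))))))) (.nd (nat_lit 19) 
(.nd (nat_lit 18) (.nd (nat_lit 31) (.nd (nat_lit 6) (.nd (nat_lit 7) (.nd (nat_lit 8) 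
(.nd (nat_lit 20) 
(.lf (nat_lit 63053853) (dlOf (nat_lit 2) (nat_lit 0x772d8803b939401308200050189000250499c0100))) 
(.lf (nat_lit 1343365149) (dlOf (nat_lit 1) (nat_lit 0x800400020008210682)))) 
(.lf (nat_lit 41034013) (dlOf (nat_lit 1) (nat_lit 0x1a00080134002000e0009218003)))) 
(.nd (nat_lit 21) 
(.lf (nat_lit 474096797) (dlOf (nat_lit 5) (nat_lit 0xc31020130859c0198288005a0ce0034062007682c800b40e604be016027300a810b0000001122806c440803161a1025c0b380130310058c16404b6016026c00a810b000000110200530408038416700320a200e08058075402a04440000004386004009d802d0334000fc08011c00200060009082b82))) 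
(.nd (nat_lit 22) (.lf (nat_lit 35792029) (dlOf (nat_lit 1) (nat_lit 0xa0019012b81))) 
(.lf (nat_lit 48374941) (dlOf (nat_lit 3) (nat_lit 0x83a0800224080259d040011004000800400040019402b82)))))) 
(.nd (nat_lit 8) (.nd (nat_lit 20) (.nd (nat_lit 26) 
(.lf (nat_lit 4966195293) (dlOf (nat_lit 1) (nat_lit 0x800400040008040702))) 
(.lf (nat_lit 5033304157) (dlOf (nat_lit 1) (nat_lit 0x800400040008040702)))) 
(.lf (nat_lit 24256605) (dlOf (nat_lit 2) (nat_lit 0x12be00002a0200020018b91201)))) 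
(.nd (nat_lit 7) 
(.lf (nat_lit 805453149) (dlOf (nat_lit 1) (nat_lit 0x70008003c002000c000811c903))) 
(.nd (nat_lit 9) 
(.lf (nat_lit 469906909) (dlOf (nat_lit 2) (nat_lit 0x585940003804000800400040018009b02))) 
(.lf (nat_lit 5773599709) (dlOf (nat_lit 1) (nat_lit 0x4004000200080e2882))))))) (.nd (nat_lit 8) 
(.nd (nat_lit 26) (.nd (nat_lit 20) (.nd (nat_lit 28) 
(.lf (nat_lit 2281840669) (dlOf (nat_lit 1) (nat_lit 0x400400020008080482))) 
(.lf (nat_lit 4160888861) (dlOf (nat_lit 1) (nat_lit 0x38008003800200200008060483)))) 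
(.lf (nat_lit 3490848797) (dlOf (nat_lit 5) (nat_lit 0x1d042600f021100041038045880c002ba1001ec42600fc21100911018005701807d884c03f442201d4203000ac8300f5109807b884403a8406001570600560028030901)))) 
(.nd (nat_lit 7) 
(.lf (nat_lit 2752651293) (dlOf (nat_lit 5) (nat_lit 0x1d045000f0226000410e00458860002b01001ec45000fc226009110c00055c1807d88a003f444c01d4218000aa0300f5114007b889803a8430001520600560028030901))) 
(.nd (nat_lit 9) 
(.lf (nat_lit 4095878301) (dlOf (nat_lit 1) (nat_lit 0x100080008002000200080e2b83))) 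
(.lf (nat_lit 6509702813) (dlOf (nat_lit 1) (nat_lit 0x20008147201)))))) (.nd (nat_lit 7) 
(.nd (nat_lit 6) (.nd (nat_lit 10) 
(.lf (nat_lit 3959564573) (dlOf (nat_lit 1) (nat_lit 0x400400020008114b82))) 
(.lf (nat_lit 2617390365) (dlOf (nat_lit 2) (nat_lit 0x805a0000002000400280a9701)))) 
(.lf (nat_lit 3355583325) (dlOf (nat_lit 1) (nat_lit 0x1000280a2581)))) (.nd (nat_lit 9) 
(.nd (nat_lit 12) (.lf (nat_lit 3221368221) (dlOf (nat_lit 1) (nat_lit 0x400400020008116d02))) 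
(.lf (nat_lit 3221372317) (dlOf (nat_lit 3) (nat_lit 0x2c048001901b800400b8009c040002c01d00160028002243002780800010c0400fc0020028000811ca82)))) 
(.lf (nat_lit 3221371805) (dlOf (nat_lit 1) (nat_lit 0x12002811bc81))))))) (.nd (nat_lit 30) 
(.nd (nat_lit 22) (.nd (nat_lit 7) (.nd (nat_lit 26) (.nd (nat_lit 6) (.nd (nat_lit 27) 
(.lf (nat_lit 6442852381) (dlOf (nat_lit 2) (nat_lit 0xcc02a002a00980005010043800801a0002000a00081e0583))) 
(.lf (nat_lit 4698021917) (dlOf (nat_lit 4) (nat_lit 0x8d8066000150202da0330000a0100010170000140804000080034002000200080e0583)))) 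
(.lf (nat_lit 26615901) (dlOf (nat_lit 1) (nat_lit 0x80018c50881)))) (.nd (nat_lit 6) 
(.nd (nat_lit 9) 
(.lf (nat_lit 4496695325) (dlOf (nat_lit 1) (nat_lit 0x1780080090002004e0008120083))) 
(.lf (nat_lit 201728541) (dlOf (nat_lit 2) (nat_lit 0xb20410000e018090d80)))) 
(.lf (nat_lit 4496695389) (dlOf (nat_lit 4) (nat_lit 0x5c808c0002a0400f40680034033003a019000680c0000241000a4068000c033000c01800004418030800801a400200c20008120703))))) 
(.nd (nat_lit 26) (.nd (nat_lit 8) 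
(.lf (nat_lit 51782813) (dlOf (nat_lit 2) (nat_lit 0x11fa40008f36000469300044039512b80))) 
(.lf (nat_lit 134619549) (dlOf (nat_lit 2) (nat_lit 0x2e03b003a0818090780)))) (.nd (nat_lit 6) 
(.nd (nat_lit 27) (.lf (nat_lit 4362477981) (dlOf (nat_lit 2) (nat_lit 0x9803300717018090780))) 
(.lf (nat_lit 201728413) (dlOf (nat_lit 2) (nat_lit 0x8203b00675018090780)))) 
(.lf (nat_lit 2751865821) (dlOf (nat_lit 1) (nat_lit 0x20018002881)))))) (.nd (nat_lit 6) 
(.nd (nat_lit 25) (.nd (nat_lit 21) 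
(.lf (nat_lit 12984349) (dlOf (nat_lit 2) (nat_lit 0x8d4880032a340001404001000186f0581))) 
(.lf (nat_lit 15081501) (dlOf (nat_lit 2) (nat_lit 0x44750000d00800680080024002001a00087b0683)))) 
(.nd (nat_lit 8) (.lf (nat_lit 48635933) (dlOf (nat_lit 1) (nat_lit 0x400400020009420102))) 
(.lf (nat_lit 58073373) (dlOf (nat_lit 2) (nat_lit 0x1c0000013f02000c00097b8001))))) 
(.nd (nat_lit 7) (.nd (nat_lit 10) 
(.lf (nat_lit 48635997) (dlOf (nat_lit 3) (nat_lit 0x1000000000c01008e0000000100800f8008003800200180009420883))) 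
(.lf (nat_lit 57025629) (dlOf (nat_lit 1) (nat_lit 0x1a0009792901)))) 
(.lf (nat_lit 38151133) (dlOf (nat_lit 1) (nat_lit 0x400200020009132882)))))) (.nd (nat_lit 28) 
(.nd (nat_lit 26) (.nd (nat_lit 27) 
(.lf (nat_lit 3221626909) (dlOf (nat_lit 2) (nat_lit 0xa02f00110170052441000c00080008002001c0008160503))) 
(.lf (nat_lit 3355844637) (dlOf (nat_lit 4) (nat_lit 0x270180008100800c80d001e005c001ad04001402e00000018120480)))) 
(.nd (nat_lit 27) (.lf (nat_lit 3288735773) (dlOf (nat_lit 2) (nat_lit 0x2032000000180d0880))) 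
(.lf (nat_lit 3959824413) (dlOf (nat_lit 2) (nat_lit 0xa02f001101700580c1000c00080008002001c0008160503))))) 
(.nd (nat_lit 29) (.nd (nat_lit 20) 
(.lf (nat_lit 1346773021) (dlOf (nat_lit 8) (nat_lit 0x1650ab00b3850c035427602c20cd0122042801081d4000941805942ac02c8143011909d80b2833404a410a000430a02de15601730a1809304ec05b819a025c085000208500a20ab0048050c016c11a0003b060058156002c0a18000e810006050c0007204000c2ac000380200020029000101))) 
(.lf (nat_lit 1343627293) (dlOf (nat_lit 1) (nat_lit 0x20004001000082c0682)))) (.nd (nat_lit 21) 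
(.nd (nat_lit 31) (.lf (nat_lit 1879449629) (dlOf (nat_lit 1) (nat_lit 0x20028150001))) 
(.lf (nat_lit 4026933277) (dlOf (nat_lit 2) (nat_lit 0x2032000000180d0880)))) 
(.lf (nat_lit 1881546781) (dlOf (nat_lit 4) (nat_lit 0x3208e0001f8100020470000f40800384ec00000040030002000a0008f40102)))))))) 
(.nd (nat_lit 21) (.nd (nat_lit 26) (.nd (nat_lit 18) (.nd (nat_lit 23) (.nd (nat_lit 29) 
(.nd (nat_lit 8) (.nd (nat_lit 27) 
(.lf (nat_lit 3221889053) (dlOf (nat_lit 6) (nat_lit 0x2da045016002100b600cc0044c0c01b008c0021f020100046000f021800830100060118003e404002004e000ae02006e00281b0481))) 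
(.lf (nat_lit 134881309) (dlOf (nat_lit 2) (nat_lit 0xa013000000180d0880)))) 
(.lf (nat_lit 50995485) (dlOf (nat_lit 2) (nat_lit 0x715180025c04000c004000600194e8002)))) 
(.nd (nat_lit 6) (.lf (nat_lit 805969949) (dlOf (nat_lit 1) (nat_lit 0x160028200a81))) 
(.lf (nat_lit 537534557) (dlOf (nat_lit 6) (nat_lit 0x205d000c02c000c8144000340c00440a2000603f000301900006018001017400500b00028051000101f800300c8000161400140b0004c051000201f800b80c8000141000200b00000702000e00280a1201))))) 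
(.nd (nat_lit 20) 
(.lf (nat_lit 42606621) (dlOf (nat_lit 2) (nat_lit 0x2a6e7a000000200040009260101))) 
(.lf (nat_lit 10100765) (dlOf (nat_lit 1) (nat_lit 0x80080004002000200085b0483))))) 
(.nd (nat_lit 6) (.nd (nat_lit 20) 
(.lf (nat_lit 2819498013) (dlOf (nat_lit 1) (nat_lit 0x68002000400082b0682))) 
(.lf (nat_lit 39723037) (dlOf (nat_lit 2) (nat_lit 0xa5218002a8e400192e20003b06000800291d0101)))) 
(.lf (nat_lit 3490586973) (dlOf (nat_lit 1) (nat_lit 0x50002000c0008014e82))))) (.nd (nat_lit 28) 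
(.nd (nat_lit 27) (.nd (nat_lit 29) 
(.lf (nat_lit 4362739741) (dlOf (nat_lit 1) (nat_lit 0x4004000200080e0b02))) 
(.lf (nat_lit 1678385181) (dlOf (nat_lit 1) (nat_lit 0x160028200a81)))) (.nd (nat_lit 29) 
(.lf (nat_lit 201990173) (dlOf (nat_lit 2) (nat_lit 0xa013000000180d0880))) 
(.lf (nat_lit 3960086557) (dlOf (nat_lit 6) (nat_lit 0x2da045016002100b600cc0044c0c01b008c00223020100046000f021800838100060118003e604002004e000ae02006e00281b0481))))) 
(.nd (nat_lit 6) (.nd (nat_lit 8) (.nd (nat_lit 18) 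
(.lf (nat_lit 4228522013) (dlOf (nat_lit 1) (nat_lit 0x4004000200080e0b02))) 
(.lf (nat_lit 3557695517) (dlOf (nat_lit 1) (nat_lit 0x68002000400082b0682)))) 
(.lf (nat_lit 4095616285) (dlOf (nat_lit 1) (nat_lit 0x54004000400080e3102)))) (.nd (nat_lit 8) 
(.lf (nat_lit 1409949789) (dlOf (nat_lit 6) (nat_lit 0x205d000c02c000c8144000600c00440a2000603f00030190000b818001017400500b00028051000101f800300c8000421400140b0004c051000201f800b80c8000401000200b00001d02000e00280a1201))) 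
(.lf (nat_lit 4094568797) (dlOf (nat_lit 1) (nat_lit 0x68008003c00200300008054e83))))))) 
(.nd (nat_lit 7) (.nd (nat_lit 6) (.nd (nat_lit 20) (.nd (nat_lit 8) 
(.lf (nat_lit 11149341) (dlOf (nat_lit 1) (nat_lit 0x100018660481))) (.nd (nat_lit 18) 
(.lf (nat_lit 23732509) (dlOf (nat_lit 1) (nat_lit 0xc0018b80481))) 
(.lf (nat_lit 19800349) (dlOf (nat_lit 1) (nat_lit 0x200089d0a81))))) (.nd (nat_lit 23) 
(.nd (nat_lit 26) 
(.lf (nat_lit 3493470237) (dlOf (nat_lit 1) (nat_lit 0x70008001c00200380008140b83))) 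
(.lf (nat_lit 2755272733) (dlOf (nat_lit 1) (nat_lit 0x70008001c00200380008140b83)))) 
(.lf (nat_lit 45752349) (dlOf (nat_lit 2) (nat_lit 0x6e7b80001f819360100))))) (.nd (nat_lit 9) 
(.nd (nat_lit 8) (.nd (nat_lit 10) 
(.lf (nat_lit 1344938077) (dlOf (nat_lit 2) (nat_lit 0x4a163000058189a0880))) 
(.lf (nat_lit 37364829) (dlOf (nat_lit 1) (nat_lit 0x200090d2901)))) 
(.lf (nat_lit 49949021) (dlOf (nat_lit 1) (nat_lit 0xa00294c4e81)))) (.nd (nat_lit 22) 
(.lf (nat_lit 1345989213) (dlOf (nat_lit 3) (nat_lit 0x2b057c01541ae00b609b005b0458000182002e857c01841ae000000400560028e25301))) 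
(.lf (nat_lit 58337885) (dlOf (nat_lit 1) (nat_lit 0x400297e5301)))))) (.nd (nat_lit 8) 
(.nd (nat_lit 9) (.nd (nat_lit 11) (.nd (nat_lit 12) 
(.lf (nat_lit 53093533) (dlOf (nat_lit 1) (nat_lit 0x8008000800200040009572b83))) 
(.lf (nat_lit 8008861) (dlOf (nat_lit 2) (nat_lit 0x1a59c0028000006790400120018519501)))) 
(.lf (nat_lit 19803293) (dlOf (nat_lit 1) (nat_lit 0x200289d6281)))) (.nd (nat_lit 20) 
(.lf (nat_lit 36317853) (dlOf (nat_lit 1) (nat_lit 0x20019075581))) 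
(.lf (nat_lit 1345989277) (dlOf (nat_lit 1) (nat_lit 0x20018e25581))))) (.nd (nat_lit 9) 
(.nd (nat_lit 25) 
(.lf (nat_lit 1009396125) (dlOf (nat_lit 1) (nat_lit 0x18008000400200020009164e83))) 
(.lf (nat_lit 36317597) (dlOf (nat_lit 1) (nat_lit 0x20019074e81)))) (.nd (nat_lit 12) 
(.lf (nat_lit 8267677) (dlOf (nat_lit 1) (nat_lit 0x800400040008514282))) 
(.lf (nat_lit 8271773) (dlOf (nat_lit 1) (nat_lit 0x7280080064002011a000851a303)))))))))) 
(.nd (nat_lit 28) (.nd (nat_lit 18) (.nd (nat_lit 4) (.nd (nat_lit 7) (.nd (nat_lit 19) 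
(.nd (nat_lit 11) (.nd (nat_lit 20) (.nd (nat_lit 8) 
(.lf (nat_lit 25305133) (dlOf (nat_lit 1) (nat_lit 0x20018bf0b01))) 
(.lf (nat_lit 671229741) (dlOf (nat_lit 1) (nat_lit 0xb800200020008143d82)))) (.nd (nat_lit 22) 
(.lf (nat_lit 2752651309) (dlOf (nat_lit 2) (nat_lit 0x34450005210100017028030c00))) 
(.lf (nat_lit 47325229) (dlOf (nat_lit 2) (nat_lit 0x2bd300015de00006c1000180080050002000800093d0c83))))) 
(.nd (nat_lit 6) (.nd (nat_lit 12) 
(.lf (nat_lit 3959564589) (dlOf (nat_lit 1) (nat_lit 0x400400020008114b82))) 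
(.lf (nat_lit 3959568685) (dlOf (nat_lit 1) (nat_lit 0x2000811ab81)))) (.nd (nat_lit 10) 
(.lf (nat_lit 3221367149) (dlOf (nat_lit 2) (nat_lit 0xcc01c014640200020018114e81))) 
(.lf (nat_lit 3221372269) (dlOf (nat_lit 1) (nat_lit 0x10800800240020026000811c903)))))) 
(.nd (nat_lit 21) (.nd (nat_lit 6) (.nd (nat_lit 26) 
(.lf (nat_lit 537534509) (dlOf (nat_lit 1) (nat_lit 0x40004001800080a0982))) 
(.lf (nat_lit 67772461) (dlOf (nat_lit 1) (nat_lit 0x280080004002000200082e0e03)))) 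
(.lf (nat_lit 537534573) (dlOf (nat_lit 1) (nat_lit 0x8002000600080a1502)))) (.nd (nat_lit 20) 
(.nd (nat_lit 22) 
(.lf (nat_lit 11149357) (dlOf (nat_lit 2) (nat_lit 0x3956c0369604003000400020008660782))) 
(.lf (nat_lit 48898093) (dlOf (nat_lit 1) (nat_lit 0xc002011e0009440282)))) (.nd (nat_lit 22) 
(.lf (nat_lit 54140973) (dlOf (nat_lit 1) (nat_lit 0x800200020009630282))) 
(.lf (nat_lit 24780845) (dlOf (nat_lit 1) (nat_lit 0x1000400040008bb0d82))))))) (.nd (nat_lit 30) 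
(.nd (nat_lit 8) (.nd (nat_lit 6) (.nd (nat_lit 12) 
(.lf (nat_lit 32646317) (dlOf (nat_lit 1) (nat_lit 0x2e0018ef2c01))) 
(.lf (nat_lit 8008877) (dlOf (nat_lit 2) (nat_lit 0x3b4b38004800000cf208001000200020008519502)))) 
(.nd (nat_lit 9) (.lf (nat_lit 28451053) (dlOf (nat_lit 1) (nat_lit 0x180028da0601))) 
(.lf (nat_lit 671229677) (dlOf (nat_lit 1) (nat_lit 0x3400400060008143b02))))) (.nd (nat_lit 9) 
(.nd (nat_lit 11) (.lf (nat_lit 11674093) (dlOf (nat_lit 1) (nat_lit 0x2a00086c0d01))) 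
(.lf (nat_lit 33171949) (dlOf (nat_lit 2) (nat_lit 0x2333800000080280008004c002004e0008f54f03)))) 
(.lf (nat_lit 738339821) (dlOf (nat_lit 1) (nat_lit 0x8008000400200020008095e83))))) 
(.nd (nat_lit 6) (.nd (nat_lit 27) (.nd (nat_lit 10) 
(.lf (nat_lit 3758236077) (dlOf (nat_lit 1) (nat_lit 0x10008004400200500008106e83))) 
(.lf (nat_lit 3221368237) (dlOf (nat_lit 1) (nat_lit 0x400400020008116d02)))) (.nd (nat_lit 8) 
(.lf (nat_lit 1744972461) (dlOf (nat_lit 1) (nat_lit 0x20028095681))) 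
(.lf (nat_lit 1812081069) (dlOf (nat_lit 1) (nat_lit 0x200028144e81))))) (.nd (nat_lit 8) 
(.lf (nat_lit 3959564525) (dlOf (nat_lit 1) (nat_lit 0x400400020008114b82))) (.nd (nat_lit 10) 
(.lf (nat_lit 1677861869) (dlOf (nat_lit 1) (nat_lit 0x280080018002000a0008112883))) 
(.lf (nat_lit 5905721325) (dlOf (nat_lit 1) (nat_lit 0xc0018144601)))))))) (.nd (nat_lit 6) 
(.nd (nat_lit 19) (.nd (nat_lit 23) (.nd (nat_lit 7) (.nd (nat_lit 31) 
(.lf (nat_lit 1140990013) (dlOf (nat_lit 3) (nat_lit 0x2003000100000091808000400c0048b0200020018051681))) 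
(.lf (nat_lit 3288473661) (dlOf (nat_lit 2) (nat_lit 0x880100000f4080068008001000200220008020703)))) 
(.lf (nat_lit 1208101565) (dlOf (nat_lit 1) (nat_lit 0x400200020008095782)))) (.nd (nat_lit 8) 
(.nd (nat_lit 22) 
(.lf (nat_lit 25305149) (dlOf (nat_lit 6) (nat_lit 0x7b22c000a10200699160037c380001e010011e45800330e00002404003d9160000901001fc8b000040080028008004400200120008bf0b83))) 
(.lf (nat_lit 12722237) (dlOf (nat_lit 1) (nat_lit 0x80080004002000200086e0c03)))) 
(.nd (nat_lit 21) (.lf (nat_lit 59908413) (dlOf (nat_lit 1) (nat_lit 0x140019840b81))) 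
(.lf (nat_lit 28451133) (dlOf (nat_lit 1) (nat_lit 0x40028da0701)))))) (.nd (nat_lit 9) 
(.nd (nat_lit 20) (.nd (nat_lit 22) 
(.lf (nat_lit 537534525) (dlOf (nat_lit 2) (nat_lit 0x40590000d0180a0c80))) 
(.lf (nat_lit 21635133) (dlOf (nat_lit 5) (nat_lit 0x19d0a280d10508009426c0008134002009880020388015cc18067c28a0344142002709b000084d0008026200ae50a034614501500a1000784e4002026c0018134000d098800583a4015c81c066028a02ce142000709c800f84d80024268003c131000a074802b8c380c6800803940020aaa0008a51683)))) 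
(.lf (nat_lit 41558077) (dlOf (nat_lit 1) (nat_lit 0xc40019240001)))) (.nd (nat_lit 10) 
(.lf (nat_lit 36317757) (dlOf (nat_lit 1) (nat_lit 0x940009075201))) 
(.lf (nat_lit 8005181) (dlOf (nat_lit 1) (nat_lit 0x9400400040018513782)))))) (.nd (nat_lit 7) 
(.nd (nat_lit 8) (.nd (nat_lit 9) 
(.lf (nat_lit 28450941) (dlOf (nat_lit 1) (nat_lit 0x400200020008da0482))) 
(.lf (nat_lit 1744972413) (dlOf (nat_lit 2) (nat_lit 0x405a000000200020008095401)))) 
(.lf (nat_lit 8533885) (dlOf (nat_lit 1) (nat_lit 0x800800040020004000851a303)))) (.nd (nat_lit 19) 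
(.nd (nat_lit 9) (.nd (nat_lit 27) 
(.lf (nat_lit 1073881597) (dlOf (nat_lit 2) (nat_lit 0xb00a40000004001000400320008017e02))) 
(.lf (nat_lit 3355582973) (dlOf (nat_lit 1) (nat_lit 0xd00080104002002c00080a1483)))) 
(.lf (nat_lit 201466877) (dlOf (nat_lit 1) (nat_lit 0x20018002881)))) (.nd (nat_lit 8) 
(.lf (nat_lit 50995453) (dlOf (nat_lit 1) (nat_lit 0x4a00294e7a81))) (.nd (nat_lit 10) 
(.lf (nat_lit 56240637) (dlOf (nat_lit 1) (nat_lit 0xc00400020009734f82))) 
(.lf (nat_lit 8009213) (dlOf (nat_lit 3) (nat_lit 0x64afb000b001001757d8001c4080078008002c002000e0008519c03))))))))) 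
(.nd (nat_lit 21) (.nd (nat_lit 27) (.nd (nat_lit 4) (.nd (nat_lit 20) (.nd (nat_lit 22) 
(.lf (nat_lit 537272365) (dlOf (nat_lit 2) (nat_lit 0x102d800b01500004408000c00400040018070802))) 
(.nd (nat_lit 23) (.lf (nat_lit 54927405) (dlOf (nat_lit 1) (nat_lit 0xb80009670401))) 
(.lf (nat_lit 12984365) (dlOf (nat_lit 2) (nat_lit 0xaa4c0001602001800186f0d81))))) 
(.nd (nat_lit 6) (.nd (nat_lit 24) 
(.lf (nat_lit 9838637) (dlOf (nat_lit 2) (nat_lit 0x30f00000b80800180080038002006c0008580383))) 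
(.lf (nat_lit 26615853) (dlOf (nat_lit 1) (nat_lit 0x980080054002004a0008c50403)))) 
(.lf (nat_lit 43918829) (dlOf (nat_lit 2) (nat_lit 0x18a860024602000400092a3601))))) 
(.nd (nat_lit 26) (.nd (nat_lit 6) (.nd (nat_lit 19) 
(.lf (nat_lit 5905981501) (dlOf (nat_lit 1) (nat_lit 0xcc00400040018170d02))) 
(.lf (nat_lit 925757) (dlOf (nat_lit 2) (nat_lit 0x2554800049860009d828030d00)))) 
(.lf (nat_lit 8791677) (dlOf (nat_lit 2) (nat_lit 0x723cf00000018513980)))) (.nd (nat_lit 30) 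
(.lf (nat_lit 6509961277) (dlOf (nat_lit 1) (nat_lit 0xcc00400040018170d02))) 
(.lf (nat_lit 3288735805) (dlOf (nat_lit 14) (nat_lit 0x43010000284080280080000f004010c04000043020086020000210100430100000e40802180800007004010c04000036020086020000180100260100000bc0802180800005a04001c016000240200860200001001004201000003c0800a000801a4002006c00080d0b83)))))) 
(.nd (nat_lit 6) (.nd (nat_lit 29) (.nd (nat_lit 7) 
(.lf (nat_lit 3355844653) (dlOf (nat_lit 13) (nat_lit 0x100d0030a6040054068002802f00c2502002301a000380bc03092080050068002802f00c2102000f0178061040800100d003080040004068017e902000e034000d017805f841000100bc02fb404003805e017cd0200060320021b01008c019000000080480008026000200b40008120783))) 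
(.lf (nat_lit 201728429) (dlOf (nat_lit 3) (nat_lit 0xb007600cea02002803b00670018090780)))) 
(.nd (nat_lit 19) 
(.lf (nat_lit 3892715565) (dlOf (nat_lit 16) (nat_lit 0x111819007e80c0085c05a032602c8178015404200a4013404d036b01a019900bc033005c009802c01f801401170050021000c08b4003004d00100017c80134819008f80c007a605a02bf02c8132015400800a8031e0520037026815700d0018405e007602e023d014013700500fec00600500020002e8f022d02d006b80bc07cc0060005906072605a028501781ea000c000b00c00200b400d20030002b82008102d00015408101019002340c6003206200040308103818000b80be085a05a033d02c8126816001640ac00d805505a202a01b4814c09200a003ae04f016f025813a01280018092003804804c1023825b011807b808802c8043009f021029081041114080002603904bf01c005d80d4103c06403f203101a1018020800bc0d9005a08e002c05000158071009c001c04a042a023006d011009b807000bc03407c001501e000a0066804c0f18016082e00707d30020207000c012c002039e0000002a3300080160001180819800b00008a0402680c603a80580006027023f811c11e008c022c0440293021824481040fc40800896038012b018017900b40fa4058099202b02f90058001087820d00b00007e040c9c0580003c0205ca02c0001b0100d002d0009000c00064080c380b4005202f02db0018000c41863b00080ab800209d200081d0683)))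 
(.lf (nat_lit 2819498029) (dlOf (nat_lit 1) (nat_lit 0x3c002000600082b0a02))))) (.nd (nat_lit 7) 
(.nd (nat_lit 4) (.lf (nat_lit 134619245) (dlOf (nat_lit 2) (nat_lit 0x6e03b00653818090000))) 
(.lf (nat_lit 1745234301) (dlOf (nat_lit 1) (nat_lit 0x6a00280e4e81)))) (.nd (nat_lit 26) 
(.lf (nat_lit 134619629) (dlOf (nat_lit 1) (nat_lit 0x7c00200400008090d02))) 
(.lf (nat_lit 201728493) (dlOf (nat_lit 1) (nat_lit 0x7c00200400008090d02))))))) (.nd (nat_lit 4) 
(.nd (nat_lit 22) (.nd (nat_lit 6) (.nd (nat_lit 19) 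
(.lf (nat_lit 61218861) (dlOf (nat_lit 1) (nat_lit 0x4002000200098e0282))) 
(.lf (nat_lit 11411501) (dlOf (nat_lit 2) (nat_lit 0x14686000078186a0800)))) (.nd (nat_lit 19) 
(.lf (nat_lit 2753962093) (dlOf (nat_lit 1) (nat_lit 0x3400280a1501))) 
(.lf (nat_lit 53354605) (dlOf (nat_lit 1) (nat_lit 0x30008000c002000200095a0a83))))) 
(.nd (nat_lit 7) (.nd (nat_lit 9) 
(.lf (nat_lit 48635949) (dlOf (nat_lit 1) (nat_lit 0x20019420281))) 
(.lf (nat_lit 41822765) (dlOf (nat_lit 1) (nat_lit 0x80009245181)))) (.nd (nat_lit 6) 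
(.nd (nat_lit 10) (.lf (nat_lit 23994797) (dlOf (nat_lit 1) (nat_lit 0x260008b80781))) 
(.lf (nat_lit 8267181) (dlOf (nat_lit 1) (nat_lit 0x20018513601)))) 
(.lf (nat_lit 40774381) (dlOf (nat_lit 2) (nat_lit 0x560b00035e28000a81000300080008002000600091f5a03)))))) 
(.nd (nat_lit 7) (.nd (nat_lit 9) (.nd (nat_lit 6) 
(.lf (nat_lit 8269885) (dlOf (nat_lit 1) (nat_lit 0x100028517d01))) (.nd (nat_lit 19) 
(.lf (nat_lit 11935869) (dlOf (nat_lit 2) (nat_lit 0xc715001078186c0080))) 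
(.lf (nat_lit 2755534973) (dlOf (nat_lit 5) (nat_lit 0x1640000022d0200c00f900660260007a01001083e40174098001e704003205300080280005101000b80080028002006000081b0083))))) 
(.nd (nat_lit 6) (.lf (nat_lit 19800637) (dlOf (nat_lit 1) (nat_lit 0xc00189d1501))) 
(.nd (nat_lit 8) 
(.lf (nat_lit 61744765) (dlOf (nat_lit 7) (nat_lit 0x2f95de00054020158aef000298100b75778001480800e2bb800180000002d040122aef0000d81000657780005c0800a00080100002000a0009923983))) 
(.lf (nat_lit 8271741) (dlOf (nat_lit 1) (nat_lit 0x8800800040020014000851a303)))))) 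
(.nd (nat_lit 12) (.nd (nat_lit 8) (.nd (nat_lit 19) 
(.lf (nat_lit 23470269) (dlOf (nat_lit 2) (nat_lit 0xdd9f400466e4000320400080028b80381))) 
(.lf (nat_lit 2755535037) (dlOf (nat_lit 9) (nat_lit 0x14507a801703cc00bc1e2028206c013903580a3019c00180be001405d003e02e0023816800380aa0018053002c02900008144003809e006e0460065020800200fc04ec078009603b01ce01c80a200e0004806a00a8026013901100a4806c004c02802860070122001800700040070000000323e00760390001881000602f8000bc08046014c000560400980a60002a0202720f8000707b002903bc04a01dc00400ed000d0760000817400280b800c4058004d02a0015813000c0096027604a00ed022800c00fc004c076026c02e009700e0016805400ec02400120110012008003d802c03e8008004c00200009190001035003a015000380a2000804e014f022800080d80010064000402100c80058000444800903c4011c0a800ee0530006028800000200db80080ba800206f600081b0383)))) 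
(.lf (nat_lit 3547581) (dlOf (nat_lit 1) (nat_lit 0x160008200881)))) (.nd (nat_lit 6) 
(.nd (nat_lit 8) (.lf (nat_lit 19804861) (dlOf (nat_lit 1) (nat_lit 0x4002000200089d8c82))) 
(.lf (nat_lit 19804605) (dlOf (nat_lit 1) (nat_lit 0x200289d8581)))) 
(.lf (nat_lit 19806973) (dlOf (nat_lit 1) (nat_lit 0x200289db981))))))))) (.nd (nat_lit 26) 
(.nd (nat_lit 4) (.nd (nat_lit 7) (.nd (nat_lit 31) (.nd (nat_lit 19) (.nd (nat_lit 6) 
(.nd (nat_lit 21) (.lf (nat_lit 5637546029) (dlOf (nat_lit 2) (nat_lit 0x201d00016018100380))) 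
(.lf (nat_lit 1881546797) (dlOf (nat_lit 1) (nat_lit 0x30004001c0008f40282)))) 
(.lf (nat_lit 4697760109) (dlOf (nat_lit 7) (nat_lit 0x80d0003405e000201f0000a03000c0178000807c0002608002c05e001e02d000c00f8000141800200bc001405a000a01f00002030007017800380b4002403e0000306001202f00080168005007c000040c005400400540018090f82)))) 
(.nd (nat_lit 20) (.nd (nat_lit 21) 
(.lf (nat_lit 805969965) (dlOf (nat_lit 1) (nat_lit 0x60008001800200120008200d83))) 
(.lf (nat_lit 1344938029) (dlOf (nat_lit 3) (nat_lit 0x18169000c00e0000601000605a400302d0001c145000c0678005807400000140040004000600089a0282)))) 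
(.lf (nat_lit 1343889453) (dlOf (nat_lit 1) (nat_lit 0x120028370001))))) (.nd (nat_lit 6) 
(.nd (nat_lit 9) (.nd (nat_lit 20) (.nd (nat_lit 22) 
(.lf (nat_lit 3624017965) (dlOf (nat_lit 1) (nat_lit 0xc004001800180b0002))) 
(.lf (nat_lit 3493994541) (dlOf (nat_lit 2) (nat_lit 0x10520001022000000080008004000400181b0002)))) 
(.lf (nat_lit 3490848813) (dlOf (nat_lit 2) (nat_lit 0x34426005210100015828030c00)))) 
(.lf (nat_lit 3490587181) (dlOf (nat_lit 1) (nat_lit 0x20008001000200060008018003)))) 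
(.nd (nat_lit 8) (.lf (nat_lit 3492159597) (dlOf (nat_lit 1) (nat_lit 0x3400280a1501))) 
(.lf (nat_lit 3489807213) (dlOf (nat_lit 1) (nat_lit 0x1bc000800bc81)))))) (.nd (nat_lit 8) 
(.nd (nat_lit 19) (.nd (nat_lit 6) (.nd (nat_lit 10) 
(.lf (nat_lit 5637284013) (dlOf (nat_lit 1) (nat_lit 0x3200180d0601))) 
(.lf (nat_lit 1344677037) (dlOf (nat_lit 1) (nat_lit 0x80018922c01)))) 
(.lf (nat_lit 1881546989) (dlOf (nat_lit 1) (nat_lit 0x20018f41e81)))) (.nd (nat_lit 6) 
(.nd (nat_lit 10) 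
(.lf (nat_lit 1344153773) (dlOf (nat_lit 1) (nat_lit 0x80080004002000200083d4903))) 
(.lf (nat_lit 1880761517) (dlOf (nat_lit 1) (nat_lit 0x800200060008b52c02)))) 
(.lf (nat_lit 1345202925) (dlOf (nat_lit 3) (nat_lit 0x1c1780002a020010164000205c0000401000a8008001000200080008b05a03))))) 
(.nd (nat_lit 11) (.nd (nat_lit 6) 
(.lf (nat_lit 5637285293) (dlOf (nat_lit 1) (nat_lit 0x3e00280d3601))) 
(.lf (nat_lit 4697760749) (dlOf (nat_lit 1) (nat_lit 0x20018092881)))) (.nd (nat_lit 18) 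
(.lf (nat_lit 3490326957) (dlOf (nat_lit 1) (nat_lit 0x20028004e81))) (.nd (nat_lit 27) 
(.lf (nat_lit 3490064813) (dlOf (nat_lit 1) (nat_lit 0x20018004e81))) 
(.lf (nat_lit 3624282541) (dlOf (nat_lit 1) (nat_lit 0x20028144e81)))))))) (.nd (nat_lit 30) 
(.nd (nat_lit 29) (.nd (nat_lit 18) (.nd (nat_lit 27) 
(.lf (nat_lit 2416058429) (dlOf (nat_lit 1) (nat_lit 0x20018030d01))) 
(.lf (nat_lit 2550276157) (dlOf (nat_lit 1) (nat_lit 0x20018030d01)))) (.nd (nat_lit 27) 
(.lf (nat_lit 4563804221) (dlOf (nat_lit 1) (nat_lit 0x4c00280e1681))) 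
(.lf (nat_lit 4698021949) (dlOf (nat_lit 1) (nat_lit 0x4c00280e1681))))) (.nd (nat_lit 6) 
(.nd (nat_lit 7) 
(.lf (nat_lit 805969981) (dlOf (nat_lit 1) (nat_lit 0xb8008003400200060008201403))) 
(.lf (nat_lit 805449405) (dlOf (nat_lit 1) (nat_lit 0xa0008117281)))) 
(.lf (nat_lit 805449213) (dlOf (nat_lit 1) (nat_lit 0x20018116f81))))) (.nd (nat_lit 8) 
(.nd (nat_lit 19) (.nd (nat_lit 18) (.nd (nat_lit 27) 
(.lf (nat_lit 4026671165) (dlOf (nat_lit 2) (nat_lit 0x880100000f4080068008001000200220008020703))) 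
(.lf (nat_lit 2013405245) (dlOf (nat_lit 3) (nat_lit 0x2003000100000142a08000400c00a140200020018051681)))) 
(.lf (nat_lit 4026933309) (dlOf (nat_lit 14) (nat_lit 0x43010000284080280080000f004010c04000041020086020000200100430100000f80802180800007804010c0400003b02004c0200001a8100430100000cc0802180800006404001c0160002a020086020000128100420100000500800a000801a4002006c00080d0b83)))) 
(.nd (nat_lit 11) (.nd (nat_lit 21) 
(.lf (nat_lit 5772025917) (dlOf (nat_lit 1) (nat_lit 0x20028040481))) 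
(.lf (nat_lit 1344938045) (dlOf (nat_lit 2) (nat_lit 0x103a8006f40800500080010002000200089a0603)))) 
(.nd (nat_lit 6) (.lf (nat_lit 1345989181) (dlOf (nat_lit 1) (nat_lit 0x3c0028e25201))) 
(.lf (nat_lit 1344153725) (dlOf (nat_lit 1) (nat_lit 0xe00183d4781)))))) (.nd (nat_lit 6) 
(.nd (nat_lit 9) (.lf (nat_lit 5773600061) (dlOf (nat_lit 1) (nat_lit 0x3800280e3281))) 
(.lf (nat_lit 1342322493) (dlOf (nat_lit 2) (nat_lit 0x1185940003c040018004000c001800a102)))) 
(.nd (nat_lit 10) (.lf (nat_lit 3490064765) (dlOf (nat_lit 1) (nat_lit 0x20018004e81))) 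
(.lf (nat_lit 5637285245) (dlOf (nat_lit 1) (nat_lit 0x600180d3581)))))))) (.nd (nat_lit 30) 
(.nd (nat_lit 18) (.nd (nat_lit 31) (.nd (nat_lit 6) (.nd (nat_lit 32) (.nd (nat_lit 4) 
(.lf (nat_lit 472522797) (dlOf (nat_lit 2) (nat_lit 0xe850800000040004004003200089b0982))) 
(.lf (nat_lit 1006772541) (dlOf (nat_lit 1) (nat_lit 0x18008000400200060008068503)))) 
(.nd (nat_lit 27) (.lf (nat_lit 4630650925) (dlOf (nat_lit 1) (nat_lit 0x400400020008040382))) 
(.lf (nat_lit 4764868653) (dlOf (nat_lit 1) (nat_lit 0x400400020008040382))))) (.nd (nat_lit 27) 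
(.lf (nat_lit 4630650989) (dlOf (nat_lit 1) (nat_lit 0x88004004c0008040b82))) 
(.lf (nat_lit 4764868717) (dlOf (nat_lit 1) (nat_lit 0x88004004c0008040b82))))) (.nd (nat_lit 4) 
(.nd (nat_lit 7) 
(.lf (nat_lit 3154780205) (dlOf (nat_lit 3) (nat_lit 0xa002c0000502001c024001f00a0000001001000080010002005c0008320e03))) 
(.lf (nat_lit 3154256301) (dlOf (nat_lit 2) (nat_lit 0x20340028200800d0008004c00200080008136e83)))) 
(.nd (nat_lit 6) 
(.lf (nat_lit 2617389885) (dlOf (nat_lit 4) (nat_lit 0x180c400918040058062000e02c0024582000501880122408011000800c0002004800080a8f83))) 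
(.lf (nat_lit 2617390205) (dlOf (nat_lit 1) (nat_lit 0x500080008002001e00080a9503)))))) 
(.nd (nat_lit 4) (.nd (nat_lit 7) (.nd (nat_lit 20) 
(.lf (nat_lit 3154518061) (dlOf (nat_lit 3) (nat_lit 0x5e00a0027804f00f3023808801180400088019604300f301c006e80c803b006002ce0230027011003b8070043002a0120014001900200015078053011c029808c014a044007c021804f80c00008a1400d0004000c00181f0682))) 
(.lf (nat_lit 471212077) (dlOf (nat_lit 2) (nat_lit 0x3703f0001d80800200080014002004000082c0803)))) 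
(.nd (nat_lit 8) (.lf (nat_lit 472261805) (dlOf (nat_lit 1) (nat_lit 0x20002000e0008922c02))) 
(.lf (nat_lit 473311661) (dlOf (nat_lit 1) (nat_lit 0xf0008006400200080008e94e83))))) 
(.nd (nat_lit 7) (.nd (nat_lit 20) 
(.lf (nat_lit 2617647165) (dlOf (nat_lit 3) (nat_lit 0x4a02c000030100220160000140805280080270002011a0008130e03))) 
(.lf (nat_lit 471212093) (dlOf (nat_lit 1) (nat_lit 0x200080018002001800082c0a03)))) 
(.lf (nat_lit 1009132733) (dlOf (nat_lit 1) (nat_lit 0xd0008001400200260009082c83)))))) 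
(.nd (nat_lit 29) (.nd (nat_lit 6) (.nd (nat_lit 18) (.nd (nat_lit 4) (.nd (nat_lit 10) 
(.lf (nat_lit 1409949741) (dlOf (nat_lit 1) (nat_lit 0x40004001800080a0982))) 
(.lf (nat_lit 5838613549) (dlOf (nat_lit 1) (nat_lit 0x300080084002000400080f6083)))) 
(.lf (nat_lit 1409949757) (dlOf (nat_lit 2) (nat_lit 0x4059000190180a0c80)))) (.nd (nat_lit 31) 
(.lf (nat_lit 1410211885) (dlOf (nat_lit 1) (nat_lit 0x500080010002001400081b0003))) 
(.lf (nat_lit 3557695533) (dlOf (nat_lit 1) (nat_lit 0x3c002000600082b0a02))))) (.nd (nat_lit 7) 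
(.nd (nat_lit 8) (.lf (nat_lit 1409949805) (dlOf (nat_lit 1) (nat_lit 0x8002000600080a1502))) 
(.lf (nat_lit 1409428845) (dlOf (nat_lit 2) (nat_lit 0x581640002604003c00400160008006b02)))) 
(.lf (nat_lit 3556911853) (dlOf (nat_lit 2) (nat_lit 0x980000001804000c002000800080d5a02))))) 
(.nd (nat_lit 4) (.nd (nat_lit 6) (.nd (nat_lit 7) 
(.lf (nat_lit 6241525805) (dlOf (nat_lit 2) (nat_lit 0x201d00017818100380))) 
(.lf (nat_lit 6241266349) (dlOf (nat_lit 1) (nat_lit 0x200080d5681)))) (.nd (nat_lit 8) 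
(.lf (nat_lit 4228259949) (dlOf (nat_lit 1) (nat_lit 0x1c002000a0008090002))) 
(.lf (nat_lit 6241266541) (dlOf (nat_lit 1) (nat_lit 0x200280d5c01))))) (.nd (nat_lit 6) 
(.nd (nat_lit 18) (.lf (nat_lit 6376005693) (dlOf (nat_lit 1) (nat_lit 0x20028040481))) 
(.lf (nat_lit 1946558525) (dlOf (nat_lit 1) (nat_lit 0x200180c1401)))) (.nd (nat_lit 10) 
(.lf (nat_lit 6376270461) (dlOf (nat_lit 1) (nat_lit 0x1400400040008095402))) 
(.lf (nat_lit 6375745149) (dlOf (nat_lit 1) (nat_lit 0x1400400060008003982))))))))))) 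
(.nd (nat_lit 4) (.nd (nat_lit 28) (.nd (nat_lit 18) (.nd (nat_lit 5) (.nd (nat_lit 19) 
(.nd (nat_lit 6) (.nd (nat_lit 24) (.nd (nat_lit 7) (.nd (nat_lit 8) (.nd (nat_lit 20) 
(.lf (nat_lit 6107078669) (dlOf (nat_lit 2) (nat_lit 0x2002801d60080008008000800200060008060a03))) 
(.lf (nat_lit 2752684045) (dlOf (nat_lit 16) (nat_lit 0xf01ff004d0ae8028857001a02840009c08028620f02470ff80ab07a408742ba041215c02400a100026c3007c07fc031c2ba01881420004d03025810781ad07fc08c43d2066e15d03310ae019905080012c1800ec41e01821ff003b0f4804a857402502b80166142000468600c30ff804c85740011808046841e04841ff01630f4810b057408a02840008b0a01b21ff00960ae800228100df083c0ad83fe037e1e902960ae814b05080010a1400fc3fe0008402040820f03670ff80fa87a400442d005fa15d02c00a100020c3013b892002dc46600b80000003e830287124005d08cc00a80000007c06071c24801d9119808b0000000ea0c0e4c49003b423301100000001cc180668008027c00201760008030483)))) 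
(.lf (nat_lit 2281878797) (dlOf (nat_lit 1) (nat_lit 0x4004000200080a9682)))) (.nd (nat_lit 9) 
(.lf (nat_lit 40019085) (dlOf (nat_lit 1) (nat_lit 0x3600291f2b01))) 
(.lf (nat_lit 6509735565) (dlOf (nat_lit 1) (nat_lit 0x20008147181))))) (.nd (nat_lit 21) 
(.nd (nat_lit 20) (.lf (nat_lit 25337869) (dlOf (nat_lit 2) (nat_lit 0x9a10001390200020028bf0481))) 
(.lf (nat_lit 51552269) (dlOf (nat_lit 1) (nat_lit 0x400400020009510002)))) (.nd (nat_lit 22) 
(.lf (nat_lit 27435021) (dlOf (nat_lit 1) (nat_lit 0x400400080008ce0182))) 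
(.lf (nat_lit 56795149) (dlOf (nat_lit 1) (nat_lit 0x8008000400200020009760183)))))) 
(.nd (nat_lit 8) (.nd (nat_lit 20) (.nd (nat_lit 21) (.nd (nat_lit 7) 
(.lf (nat_lit 25337933) (dlOf (nat_lit 2) (nat_lit 0x58000000a4040008002000c0008bf0d02))) 
(.lf (nat_lit 2885853389) (dlOf (nat_lit 2) (nat_lit 0x400000074408001800800bc002002200080b0483)))) 
(.nd (nat_lit 24) (.lf (nat_lit 69378125) (dlOf (nat_lit 1) (nat_lit 0x10004000a0008940682))) 
(.lf (nat_lit 52600909) (dlOf (nat_lit 3) (nat_lit 0x960900015008012b04000a964e0040a7a00225340010262c000701400b400400160019550682))))) 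
(.nd (nat_lit 7) (.nd (nat_lit 22) 
(.lf (nat_lit 62038093) (dlOf (nat_lit 2) (nat_lit 0x643600000019940600))) 
(.lf (nat_lit 24289357) (dlOf (nat_lit 1) (nat_lit 0x80080004002001c0008b90f03)))) 
(.lf (nat_lit 9609421) (dlOf (nat_lit 1) (nat_lit 0x220028571801))))) (.nd (nat_lit 7) 
(.nd (nat_lit 10) (.nd (nat_lit 26) 
(.lf (nat_lit 2818744653) (dlOf (nat_lit 1) (nat_lit 0x200280f8901))) 
(.lf (nat_lit 738369869) (dlOf (nat_lit 5) (nat_lit 0x1009a000e03700013020002026800380dc000c06c0002406001a04e0001101000a02700007c0801480080004002002e0008090d03)))) 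
(.lf (nat_lit 3221400909) (dlOf (nat_lit 1) (nat_lit 0x40018116a01)))) (.nd (nat_lit 9) 
(.lf (nat_lit 35826125) (dlOf (nat_lit 1) (nat_lit 0x8008000400200020009014e83))) 
(.lf (nat_lit 2751637453) (dlOf (nat_lit 1) (nat_lit 0x80018004481))))))) (.nd (nat_lit 21) 
(.nd (nat_lit 27) (.nd (nat_lit 20) (.nd (nat_lit 26) 
(.lf (nat_lit 3221921805) (dlOf (nat_lit 2) (nat_lit 0x101000035c04040800401ee00081b0082))) 
(.lf (nat_lit 1678417933) (dlOf (nat_lit 1) (nat_lit 0xc00400040008210082)))) (.nd (nat_lit 7) 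
(.lf (nat_lit 22716429) (dlOf (nat_lit 1) (nat_lit 0x400200020008b10182))) 
(.lf (nat_lit 56273293) (dlOf (nat_lit 2) (nat_lit 0xc93600c1b0200020029734e81))))) 
(.nd (nat_lit 26) (.nd (nat_lit 29) 
(.lf (nat_lit 134914061) (dlOf (nat_lit 1) (nat_lit 0xc4002008a00080e0082))) 
(.lf (nat_lit 2819268621) (dlOf (nat_lit 2) (nat_lit 0x200e80008b0200220018210181)))) 
(.nd (nat_lit 29) (.lf (nat_lit 202022925) (dlOf (nat_lit 1) (nat_lit 0xc4002008a00080e0082))) 
(.lf (nat_lit 3960119309) (dlOf (nat_lit 2) (nat_lit 0x101000049204040800401ee00081b0082)))))) 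
(.nd (nat_lit 25) (.nd (nat_lit 6) (.nd (nat_lit 20) (.nd (nat_lit 24) 
(.lf (nat_lit 2754256909) (dlOf (nat_lit 27) (nat_lit 0x1bc3fe001a60202461ff000d08100640ff8006800801587fc0014404050c3fe0009f02081e24c002a12281de07fc0f942ba02ce15c016e0000001f43016a8930035046e044a20f02820ff800987d40aa42ba00fa15c00930000001f04004289300018406009e1ff00010f9800287a400043be00e215d0005093800284740014228000a0000003d8b038c0ff817b0574000f4080fd8498016224500ed11b81d207fc0ed82ba029c15c02680000001d4380d307fc01582ba000740407f224c00ea11b81d387fc00383d2077415d01e80000001cc301c787fc09402ba000720401b01ff0001f8101620ff8000f80802707fc000780405903fe0002e02005024c019b0ff8000ac100290930069c3fe0002904034c1ff0001401007b0ff8000700801807fc0003404003c3fe000170200d41ff0000a8100030ff80003c0812789300de83fe046615d014f0ae0000002000f00080350002005200080d0483))) 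
(.lf (nat_lit 19570701) (dlOf (nat_lit 1) (nat_lit 0x4002000200089c0102)))) 
(.lf (nat_lit 16424973) (dlOf (nat_lit 6) (nat_lit 0x5cfaa00667d4001f3988002241800d9f5400ccfa8003e7310004403001c3ea801a9f500084e62000860600347d5002f3ea000d1cc40010a0c0024faa00127d4000939880020c1800500080110002003a00088a0183)))) 
(.nd (nat_lit 7) 
(.lf (nat_lit 2754256973) (dlOf (nat_lit 3) (nat_lit 0x33092802043fa0004f0400ca24a00900fe8001341000800080078002004c00080d0d03))) 
(.lf (nat_lit 69903309) (dlOf (nat_lit 1) (nat_lit 0x71c00400680008e12882))))) (.nd (nat_lit 20) 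
(.nd (nat_lit 10) (.lf (nat_lit 48930829) (dlOf (nat_lit 1) (nat_lit 0x400200060009450182))) 
(.lf (nat_lit 36348941) (dlOf (nat_lit 1) (nat_lit 0x400200020009072882)))) (.nd (nat_lit 23) 
(.lf (nat_lit 54173709) (dlOf (nat_lit 1) (nat_lit 0x400400020009640182))) 
(.lf (nat_lit 45785101) (dlOf (nat_lit 1) (nat_lit 0x20019360001)))))))) (.nd (nat_lit 26) 
(.nd (nat_lit 19) (.nd (nat_lit 20) (.nd (nat_lit 6) (.nd (nat_lit 8) (.nd (nat_lit 9) 
(.nd (nat_lit 21) 
(.lf (nat_lit 2684526637) (dlOf (nat_lit 2) (nat_lit 0x38030000ac04002400200180008090682))) 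
(.lf (nat_lit 52600877) (dlOf (nat_lit 2) (nat_lit 0x91826000240200020019550281)))) 
(.lf (nat_lit 134390317) (dlOf (nat_lit 1) (nat_lit 0x20008000c00200040008018003)))) 
(.lf (nat_lit 178477) (dlOf (nat_lit 1) (nat_lit 0x2001800ab81)))) (.nd (nat_lit 7) 
(.lf (nat_lit 175213) (dlOf (nat_lit 1) (nat_lit 0x20028006081))) 
(.lf (nat_lit 2281874157) (dlOf (nat_lit 1) (nat_lit 0x4004000200080a2102))))) (.nd (nat_lit 7) 
(.nd (nat_lit 21) 
(.lf (nat_lit 30580781) (dlOf (nat_lit 3) (nat_lit 0x96e900001408011374800000040004004005a0018e40e02))) 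
(.lf (nat_lit 62038061) (dlOf (nat_lit 1) (nat_lit 0x8008000800200aa0009940403)))) 
(.lf (nat_lit 34776237) (dlOf (nat_lit 1) (nat_lit 0x800400040008fb2c02))))) (.nd (nat_lit 21) 
(.nd (nat_lit 22) (.lf (nat_lit 42639405) (dlOf (nat_lit 1) (nat_lit 0x20029260281))) 
(.lf (nat_lit 21667885) (dlOf (nat_lit 11) (nat_lit 0x89840002902000a4c10001401002f26100009c0800113080004c040034984005c4c10001282000326100004408004930800149820000c0400044c20000581002f2610000280800213080001004007000400280018a60d02)))) 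
(.nd (nat_lit 20) (.lf (nat_lit 11182125) (dlOf (nat_lit 1) (nat_lit 0x80080010002000c0008670683))) 
(.lf (nat_lit 3842093) (dlOf (nat_lit 2) (nat_lit 0xb80000002804016c00200020008230d82)))))) 
(.nd (nat_lit 8) (.nd (nat_lit 29) (.nd (nat_lit 27) 
(.lf (nat_lit 5435990061) (dlOf (nat_lit 1) (nat_lit 0x1a0018090001))) 
(.lf (nat_lit 6643949613) (dlOf (nat_lit 1) (nat_lit 0x20008001000200040008090783)))) 
(.nd (nat_lit 7) (.nd (nat_lit 19) 
(.lf (nat_lit 2752684077) (dlOf (nat_lit 3) (nat_lit 0x624900021230000bc1000b8924001448c003a1b800017038030c00))) 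
(.lf (nat_lit 1678417965) (dlOf (nat_lit 4) (nat_lit 0x15d02b0057804c000640807380ac02220130001882016302b0000c00805f80080010002001a0008210603)))) 
(.lf (nat_lit 3825380525) (dlOf (nat_lit 1) (nat_lit 0x400400020008146282))))) (.nd (nat_lit 6) 
(.nd (nat_lit 9) (.lf (nat_lit 201499053) (dlOf (nat_lit 1) (nat_lit 0x100028017181))) 
(.lf (nat_lit 3959596973) (dlOf (nat_lit 1) (nat_lit 0x60018114301)))) (.nd (nat_lit 7) 
(.nd (nat_lit 9) (.lf (nat_lit 2751641965) (dlOf (nat_lit 1) (nat_lit 0x5a001800ac81))) 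
(.lf (nat_lit 1141025645) (dlOf (nat_lit 1) (nat_lit 0x8008000400200020008095c03)))) 
(.lf (nat_lit 4362248685) (dlOf (nat_lit 2) (nat_lit 0x405600c9000000000100140008033800200a40008017d03)))))))) 
(.nd (nat_lit 29) (.nd (nat_lit 19) (.nd (nat_lit 6) (.nd (nat_lit 5) (.nd (nat_lit 20) 
(.nd (nat_lit 8) 
(.lf (nat_lit 1074176013) (dlOf (nat_lit 6) (nat_lit 0x7d0148001f40803600a4000f8040198052000750200ea029000398100150148000000800800080008002001c00080d0483))) 
(.lf (nat_lit 29794573) (dlOf (nat_lit 1) (nat_lit 0x20018e30701)))) (.nd (nat_lit 21) 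
(.lf (nat_lit 47620109) (dlOf (nat_lit 1) (nat_lit 0x40029400001))) 
(.lf (nat_lit 24551437) (dlOf (nat_lit 3) (nat_lit 0x4b4880004808007da440002204004800400440018ba0382))))) 
(.nd (nat_lit 7) (.nd (nat_lit 20) 
(.lf (nat_lit 13017133) (dlOf (nat_lit 5) (nat_lit 0x419000020aea0001604000c6400000a01000432000001408002990000008040008002000600086f0d82))) 
(.lf (nat_lit 30842925) (dlOf (nat_lit 1) (nat_lit 0x400200020008e50b02)))) 
(.lf (nat_lit 8828077) (dlOf (nat_lit 2) (nat_lit 0x29b3e006790200200008519501))))) 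
(.nd (nat_lit 8) (.nd (nat_lit 24) (.nd (nat_lit 9) 
(.lf (nat_lit 1074176077) (dlOf (nat_lit 3) (nat_lit 0x360270002781001e0138001340800100080018002001000080d0d03))) 
(.lf (nat_lit 41331277) (dlOf (nat_lit 1) (nat_lit 0x300029245281)))) (.nd (nat_lit 5) 
(.lf (nat_lit 29794381) (dlOf (nat_lit 3) (nat_lit 0x1f047400112040255706004211d00043028e30180))) 
(.lf (nat_lit 21405805) (dlOf (nat_lit 1) (nat_lit 0x560018a30a81))))) (.nd (nat_lit 7) 
(.lf (nat_lit 11968845) (dlOf (nat_lit 1) (nat_lit 0x80080004002000200086c0603))) 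
(.lf (nat_lit 38183885) (dlOf (nat_lit 1) (nat_lit 0x20019132881)))))) (.nd (nat_lit 24) 
(.nd (nat_lit 23) (.nd (nat_lit 5) (.nd (nat_lit 6) 
(.lf (nat_lit 36612493) (dlOf (nat_lit 1) (nat_lit 0x400200020009074e82))) 
(.lf (nat_lit 8303949) (dlOf (nat_lit 1) (nat_lit 0x140028519901)))) 
(.lf (nat_lit 36611245) (dlOf (nat_lit 1) (nat_lit 0x800200040009072c02)))) (.nd (nat_lit 5) 
(.nd (nat_lit 6) (.lf (nat_lit 9347085) (dlOf (nat_lit 1) (nat_lit 0xa80008540281))) 
(.lf (nat_lit 43950157) (dlOf (nat_lit 1) (nat_lit 0x80080004002000600092a0003)))) 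
(.lf (nat_lit 11444269) (dlOf (nat_lit 1) (nat_lit 0x200286a0801))))) (.nd (nat_lit 5) 
(.nd (nat_lit 6) (.lf (nat_lit 21929997) (dlOf (nat_lit 1) (nat_lit 0x18008000800200040008a80483))) 
(.nd (nat_lit 9) (.lf (nat_lit 25075789) (dlOf (nat_lit 1) (nat_lit 0x340028be1501))) 
(.lf (nat_lit 32418381) (dlOf (nat_lit 1) (nat_lit 0x400200020008ef5282))))) (.nd (nat_lit 7) 
(.lf (nat_lit 17735725) (dlOf (nat_lit 1) (nat_lit 0x180080004002000e00088f0e03))) 
(.lf (nat_lit 54438317) (dlOf (nat_lit 1) (nat_lit 0x40029654e81))))))) (.nd (nat_lit 7) 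
(.nd (nat_lit 5) (.nd (nat_lit 30) (.nd (nat_lit 22) 
(.lf (nat_lit 738631693) (dlOf (nat_lit 5) (nat_lit 0x100d0031f404002806e0173f02000203700b9781000a027000500fc028d2080070002004400080c0002))) 
(.lf (nat_lit 2756091917) (dlOf (nat_lit 1) (nat_lit 0x16800802ec002000600081f0683)))) 
(.nd (nat_lit 26) 
(.lf (nat_lit 1611046925) (dlOf (nat_lit 5) (nat_lit 0x100d0038e604002806e015e102000203700ae881000a027000500fc02898080070002004400080c0002))) 
(.lf (nat_lit 1678155789) (dlOf (nat_lit 1) (nat_lit 0x800281a0001))))) (.nd (nat_lit 20) 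
(.nd (nat_lit 30) 
(.lf (nat_lit 2819006509) (dlOf (nat_lit 11) (nat_lit 0x4403500eb00fc0004e0802cc07e000260200e6072013301f8000941003981c80004804024407e0001d0201b203f0000d010001034804180fc0003208014007e000170200e60720000681012101f800000080e60008030400202b00008150403))) 
(.lf (nat_lit 3892748333) (dlOf (nat_lit 1) (nat_lit 0x20028220801)))) (.nd (nat_lit 6) 
(.lf (nat_lit 2752946221) (dlOf (nat_lit 1) (nat_lit 0x20028070801))) 
(.lf (nat_lit 2755043693) (dlOf (nat_lit 1) (nat_lit 0x2d8008005800200040008105503)))))) 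
(.nd (nat_lit 30) (.nd (nat_lit 5) (.nd (nat_lit 6) (.nd (nat_lit 8) 
(.lf (nat_lit 537305229) (dlOf (nat_lit 3) (nat_lit 0x405f0001b01000c02e004881640000008016000200480008090102))) 
(.lf (nat_lit 738632077) (dlOf (nat_lit 3) (nat_lit 0x80b40002005002f70200010028017b008039000800c4002000e00080c5d83)))) 
(.lf (nat_lit 537829581) (dlOf (nat_lit 1) (nat_lit 0xc00080014002000e00081b0483)))) 
(.lf (nat_lit 537305261) (dlOf (nat_lit 1) (nat_lit 0x20028090301)))) (.nd (nat_lit 5) 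
(.nd (nat_lit 6) (.lf (nat_lit 1611047309) (dlOf (nat_lit 1) (nat_lit 0x50002001400080c5d82))) 
(.lf (nat_lit 1611047117) (dlOf (nat_lit 3) (nat_lit 0x2035000168100020260000a80800680080018002003000080c1803)))) 
(.lf (nat_lit 1611047085) (dlOf (nat_lit 2) (nat_lit 0x401f80006c0800100080014002000600080c1583)))))))) 
(.nd (nat_lit 26) (.nd (nat_lit 5) (.nd (nat_lit 10) (.nd (nat_lit 27) (.nd (nat_lit 19) 
(.nd (nat_lit 20) (.nd (nat_lit 18) 
(.lf (nat_lit 1346543629) (dlOf (nat_lit 1) (nat_lit 0x8008000400200020008fb0083))) 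
(.lf (nat_lit 3494289421) (dlOf (nat_lit 1) (nat_lit 0x16800802ec002000600081f0683)))) 
(.nd (nat_lit 31) (.lf (nat_lit 1343397901) (dlOf (nat_lit 1) (nat_lit 0x20018220181))) 
(.lf (nat_lit 3490881549) (dlOf (nat_lit 16) (nat_lit 0xf01ed004d0ac0028855c01a02840009c0802861fa02470f680ab075008742b0041215702400a100026c3007c07b4031c2b001881420004d0302580fd01ad07b408c43a8066e15803310ab819905080012c1800ec3f401821ed003b0ea004a856002502ae0166142000468600c30f6804c8560001180804683f404841ed01630ea010b056008a02840008b0a01b21ed00960ac000228100df07e80ad83da037e1d402960ac014b05080010a1400fc3da000840204081fa03670f680fa875000442c805fa15802c00a100020c3013b88c002dc43c00b80000003e830287118005d087800a80000007c06071c23001d910f008b0000000ea0c0e4c46003b421e01100000001cc180668008027c00201760008030483))))) 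
(.nd (nat_lit 21) (.nd (nat_lit 18) 
(.lf (nat_lit 806002701) (dlOf (nat_lit 1) (nat_lit 0xc00400040008210082))) 
(.lf (nat_lit 3491667981) (dlOf (nat_lit 1) (nat_lit 0x400200020008090002)))) (.nd (nat_lit 6) 
(.lf (nat_lit 3492454413) (dlOf (nat_lit 27) (nat_lit 0x1bc3da001ae0202461ed000d48100640f680069c0801587b40014404050c3da0009f02081e234002a11681de07b40f942b002ce157016e0000001f43016a88d00350444044a1fa02820f68009878c0aa42b000fa15700930000001f04004288d0013c3da000c1e100010ef00028750000439400e21580005091800284740014228000a0000003d8b038c0f6817b0560000f4080fd8468016222d00ed11101d207b40ed82b0029c15702680000001d4380d307b401582b0000740407f223400ea11101d387b400383a8077415801e80000001cc301c787b409402b0000720401b01ed000238101620f68001180802707b4000880405903da00034020050234019b0f68000c01002908d0069c3da0002e04034c1ed0001681007b0f68000840801807b40003e04003c3da0001c0200d41ed0000d0100030f68000500812788d00de83da0466158014f0ab8000002000f00080350002005200080d0483)))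 
(.lf (nat_lit 3492454477) (dlOf (nat_lit 3) (nat_lit 0x3308c802043d6000560400ca23200900f58001501000800080078002004c00080d0d03)))))) 
(.nd (nat_lit 6) (.nd (nat_lit 7) 
(.lf (nat_lit 4698054669) (dlOf (nat_lit 3) (nat_lit 0x1004a00951020006025004a80180f0a00))) 
(.nd (nat_lit 11) 
(.lf (nat_lit 6308405645) (dlOf (nat_lit 3) (nat_lit 0x2201900090048019f0100080060009cc0400c000400380008075d82))) 
(.lf (nat_lit 5771536781) (dlOf (nat_lit 2) (nat_lit 0x700a001c2804000800200060008004e82))))) 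
(.nd (nat_lit 7) (.nd (nat_lit 8) 
(.lf (nat_lit 1476567117) (dlOf (nat_lit 1) (nat_lit 0x13000200fa0008050702))) 
(.lf (nat_lit 5773107533) (dlOf (nat_lit 1) (nat_lit 0x1c004004400180a6682)))) 
(.lf (nat_lit 6308405453) (dlOf (nat_lit 2) (nat_lit 0x300190001e818071800)))))) (.nd (nat_lit 29) 
(.nd (nat_lit 7) (.nd (nat_lit 18) 
(.lf (nat_lit 1346020365) (dlOf (nat_lit 1) (nat_lit 0x40028e22881))) 
(.lf (nat_lit 3492717581) (dlOf (nat_lit 1) (nat_lit 0x2200080004002003c00080f2883)))) 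
(.nd (nat_lit 6) (.lf (nat_lit 5637318029) (dlOf (nat_lit 1) (nat_lit 0x200180d3601))) 
(.lf (nat_lit 5637317837) (dlOf (nat_lit 1) (nat_lit 0x4004000200080d2d82))))) (.nd (nat_lit 8) 
(.nd (nat_lit 11) (.lf (nat_lit 2013439501) (dlOf (nat_lit 1) (nat_lit 0x800400020008093682))) 
(.lf (nat_lit 805481997) (dlOf (nat_lit 1) (nat_lit 0x2a0008117081)))) (.nd (nat_lit 7) 
(.lf (nat_lit 3087181581) (dlOf (nat_lit 1) (nat_lit 0x400400020008143b82))) 
(.lf (nat_lit 805481869) (dlOf (nat_lit 2) (nat_lit 0x40000000160200140008116c81))))))) 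
(.nd (nat_lit 18) (.nd (nat_lit 29) (.nd (nat_lit 6) (.nd (nat_lit 9) (.nd (nat_lit 20) 
(.lf (nat_lit 1346543661) (dlOf (nat_lit 6) (nat_lit 0x208b80003604001845c00022250002106800406880001610000845c000a2250006106800406880001410000c45c000e225000b106800506880001210001c44a001620d00090d1000020180008008000400200040008fb0c83))) 
(.lf (nat_lit 3490881581) (dlOf (nat_lit 3) (nat_lit 0x623100021170000b01000b88c4001445c003a1a300015838030c00)))) 
(.lf (nat_lit 1342349869) (dlOf (nat_lit 1) (nat_lit 0x800400020008018002)))) 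
(.lf (nat_lit 5637317869) (dlOf (nat_lit 1) (nat_lit 0x4004000200080d2e82)))) (.nd (nat_lit 7) 
(.nd (nat_lit 19) 
(.lf (nat_lit 1879220269) (dlOf (nat_lit 2) (nat_lit 0x60ad8006842c00030080008004000600180a0902))) 
(.lf (nat_lit 806002733) (dlOf (nat_lit 4) (nat_lit 0x15d02b0057804c000660807380ac02220130001902016302b0000c40805f80080010002001a0008210603)))) 
(.lf (nat_lit 805482157) (dlOf (nat_lit 1) (nat_lit 0x1800200140008117282))))) (.nd (nat_lit 32) 
(.nd (nat_lit 6) (.nd (nat_lit 7) 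
(.lf (nat_lit 1881055789) (dlOf (nat_lit 1) (nat_lit 0x200028de8a81))) 
(.lf (nat_lit 3490097581) (dlOf (nat_lit 1) (nat_lit 0x20018004e81)))) 
(.lf (nat_lit 3493241197) (dlOf (nat_lit 1) (nat_lit 0x2d8008005800200040008105503)))) 
(.nd (nat_lit 7) (.nd (nat_lit 27) 
(.lf (nat_lit 4563836973) (dlOf (nat_lit 14) (nat_lit 0x380250001c8100090128000e00804180c40005a04026006201a203000570140005800000048100340060000230200de0300001101003501880010080000400800500000000c0200ae0280000401007401880000c0806180c40000404027006200001020326031000b012801c8070000000c0084004000e00180f0d02))) 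
(.lf (nat_lit 4698054701) (dlOf (nat_lit 14) (nat_lit 0x380250001c8100090128000e00804180c40005a04026006201a203000570140005800000048100340060000230200de0300001101003501880010080000400800500000000c0200ae0280000401007401880000c0806180c40000404027006200001020326031000b012801c8070000000c0084004000e00180f0d02)))) 
(.lf (nat_lit 5772320941) (dlOf (nat_lit 1) (nat_lit 0x3400400600008090602))))))) (.nd (nat_lit 29) 
(.nd (nat_lit 5) (.nd (nat_lit 7) (.nd (nat_lit 27) (.nd (nat_lit 8) 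
(.lf (nat_lit 4630683661) (dlOf (nat_lit 3) (nat_lit 0x4402800951020018014004a8018060a00))) 
(.lf (nat_lit 3556942093) (dlOf (nat_lit 1) (nat_lit 0x2180008103a01)))) (.nd (nat_lit 6) 
(.lf (nat_lit 3691159565) (dlOf (nat_lit 1) (nat_lit 0xa4004001e0008050002))) 
(.lf (nat_lit 472031309) (dlOf (nat_lit 1) (nat_lit 0x400400020008800002))))) (.nd (nat_lit 6) 
(.nd (nat_lit 8) 
(.lf (nat_lit 1409720461) (dlOf (nat_lit 3) (nat_lit 0x405f0001b01000c02e004881640000008016000200480008090102))) 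
(.lf (nat_lit 5704425869) (dlOf (nat_lit 1) (nat_lit 0x10008000400201620008075d83)))) 
(.nd (nat_lit 11) (.lf (nat_lit 1410245069) (dlOf (nat_lit 1) (nat_lit 0x9600081b0a01))) 
(.lf (nat_lit 473082317) (dlOf (nat_lit 1) (nat_lit 0x1c00401180008c94e82)))))) (.nd (nat_lit 6) 
(.nd (nat_lit 18) (.nd (nat_lit 32) (.nd (nat_lit 19) 
(.lf (nat_lit 3691159597) (dlOf (nat_lit 2) (nat_lit 0x300e800090080048008002800200040008050403))) 
(.lf (nat_lit 472555565) (dlOf (nat_lit 2) (nat_lit 0xc0158000000189c0280)))) (.nd (nat_lit 27) 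
(.lf (nat_lit 4630683693) (dlOf (nat_lit 3) (nat_lit 0x1140140001c81006f00a0000e0080128008009400200020008060d03))) 
(.lf (nat_lit 4764901421) (dlOf (nat_lit 3) (nat_lit 0x1140140001c81006f00a0000e0080128008009400200020008060d03))))) 
(.nd (nat_lit 7) (.lf (nat_lit 473866285) (dlOf (nat_lit 1) (nat_lit 0x40028fc0281))) 
(.lf (nat_lit 1409720493) (dlOf (nat_lit 1) (nat_lit 0x20028090301))))) (.nd (nat_lit 7) 
(.lf (nat_lit 1543679341) (dlOf (nat_lit 1) (nat_lit 0x1a0028146b01))) (.nd (nat_lit 8) 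
(.lf (nat_lit 473604333) (dlOf (nat_lit 1) (nat_lit 0x20028f61e81))) (.nd (nat_lit 22) 
(.lf (nat_lit 469934573) (dlOf (nat_lit 1) (nat_lit 0x6400200080008017d02))) 
(.lf (nat_lit 474128877) (dlOf (nat_lit 2) (nat_lit 0x30490000e00800180080004002000200090e1383)))))))) 
(.nd (nat_lit 5) (.nd (nat_lit 6) (.nd (nat_lit 7) (.nd (nat_lit 18) 
(.lf (nat_lit 2080546829) (dlOf (nat_lit 1) (nat_lit 0xb00008090001))) 
(.lf (nat_lit 1946591245) (dlOf (nat_lit 6) (nat_lit 0x7d0148001f40803600a4000f8040198052000750200ea029000398100150148000000800800080008002001c00080d0483)))) 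
(.nd (nat_lit 21) (.lf (nat_lit 872851853) (dlOf (nat_lit 1) (nat_lit 0x6c002001200080e4e82))) 
(.lf (nat_lit 6377875853) (dlOf (nat_lit 1) (nat_lit 0x1c00180e4e81))))) (.nd (nat_lit 7) 
(.nd (nat_lit 12) (.nd (nat_lit 18) 
(.lf (nat_lit 4228554829) (dlOf (nat_lit 1) (nat_lit 0x4800800ac002000c00080f1503))) 
(.lf (nat_lit 1946591309) (dlOf (nat_lit 3) (nat_lit 0x360270002b01001e0138001500800100080018002001000080d0d03)))) 
(.lf (nat_lit 3154292813) (dlOf (nat_lit 1) (nat_lit 0xa0018157d81)))) (.nd (nat_lit 11) 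
(.lf (nat_lit 5301773261) (dlOf (nat_lit 2) (nat_lit 0x80440123a04000400200020008092882))) 
(.lf (nat_lit 6241299405) (dlOf (nat_lit 1) (nat_lit 0x1f200180d5d81)))))) (.nd (nat_lit 30) 
(.nd (nat_lit 19) (.nd (nat_lit 7) (.nd (nat_lit 21) 
(.lf (nat_lit 5301772333) (dlOf (nat_lit 1) (nat_lit 0x1a0018090001))) 
(.lf (nat_lit 1008902189) (dlOf (nat_lit 1) (nat_lit 0x80008fc0281)))) 
(.lf (nat_lit 1008116909) (dlOf (nat_lit 1) (nat_lit 0x180080004002000200089e2c03)))) 
(.nd (nat_lit 20) 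
(.lf (nat_lit 3154812973) (dlOf (nat_lit 4) (nat_lit 0x200600006204001806c0003002000201800017818330b00))) 
(.lf (nat_lit 1008377901) (dlOf (nat_lit 1) (nat_lit 0x4c0028b80981))))) (.nd (nat_lit 7) 
(.nd (nat_lit 9) 
(.lf (nat_lit 4228554797) (dlOf (nat_lit 1) (nat_lit 0x8008042000200e600080f0d83))) 
(.nd (nat_lit 11) 
(.lf (nat_lit 4228031021) (dlOf (nat_lit 2) (nat_lit 0x2809a0001f02000e0018018001))) 
(.lf (nat_lit 6376827437) (dlOf (nat_lit 1) (nat_lit 0x400200020008095182))))) (.nd (nat_lit 6) 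
(.nd (nat_lit 8) (.lf (nat_lit 4095123629) (dlOf (nat_lit 1) (nat_lit 0x400400020008062d82))) 
(.lf (nat_lit 6378135981) (dlOf (nat_lit 1) (nat_lit 0x400400020008116e82)))) 
(.lf (nat_lit 4093815533) (dlOf (nat_lit 1) (nat_lit 0x30008001c00200020008005a03)))))))))) 
(.nd (nat_lit 6) (.nd (nat_lit 5) (.nd (nat_lit 29) (.nd (nat_lit 19) (.nd (nat_lit 7) 
(.nd (nat_lit 21) (.nd (nat_lit 28) (.nd (nat_lit 8) (.nd (nat_lit 18) 
(.lf (nat_lit 25337885) (dlOf (nat_lit 1) (nat_lit 0x400200020008bf0882))) 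
(.lf (nat_lit 13017117) (dlOf (nat_lit 4) (nat_lit 0x298d80018c36000160400246360000a01000531b0003186c0000a080004002000a00086f0582)))) 
(.lf (nat_lit 2281874205) (dlOf (nat_lit 1) (nat_lit 0x600180a2101)))) (.nd (nat_lit 20) 
(.nd (nat_lit 27) 
(.lf (nat_lit 4630683677) (dlOf (nat_lit 2) (nat_lit 0x8050002d004001c004000c0008060a82))) 
(.lf (nat_lit 4764901405) (dlOf (nat_lit 2) (nat_lit 0x8050002c804001c004000c0008060a82)))) 
(.lf (nat_lit 3490881565) (dlOf (nat_lit 5) (nat_lit 0x451180005740802508c0002b80400104680166230000ac8200ab11800055c0800180080264002006c0008030903))))) 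
(.nd (nat_lit 18) (.nd (nat_lit 20) 
(.lf (nat_lit 69378077) (dlOf (nat_lit 1) (nat_lit 0x400400040008940102))) 
(.lf (nat_lit 24289309) (dlOf (nat_lit 1) (nat_lit 0x400200020008b90902)))) (.nd (nat_lit 22) 
(.lf (nat_lit 2531357) (dlOf (nat_lit 1) (nat_lit 0x10002000c0008170a02))) 
(.lf (nat_lit 48668701) (dlOf (nat_lit 2) (nat_lit 0x5ca680001f819420100)))))) (.nd (nat_lit 10) 
(.nd (nat_lit 8) (.lf (nat_lit 21405853) (dlOf (nat_lit 1) (nat_lit 0x480018a31281))) 
(.nd (nat_lit 18) (.lf (nat_lit 3221399965) (dlOf (nat_lit 1) (nat_lit 0x200018114e81))) 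
(.lf (nat_lit 62302621) (dlOf (nat_lit 1) (nat_lit 0x4002000200099a4e82))))) (.nd (nat_lit 9) 
(.nd (nat_lit 21) (.lf (nat_lit 4697793693) (dlOf (nat_lit 1) (nat_lit 0x400400020008092b82))) 
(.lf (nat_lit 35824797) (dlOf (nat_lit 1) (nat_lit 0x2000200020009012b82)))) 
(.lf (nat_lit 3288770205) (dlOf (nat_lit 1) (nat_lit 0x400180f3a81)))))) (.nd (nat_lit 21) 
(.nd (nat_lit 27) (.nd (nat_lit 23) (.nd (nat_lit 28) 
(.lf (nat_lit 67805213) (dlOf (nat_lit 1) (nat_lit 0x2e00182f0a01))) 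
(.lf (nat_lit 1409982493) (dlOf (nat_lit 1) (nat_lit 0x80080004002000200080b0983)))) 
(.nd (nat_lit 20) 
(.lf (nat_lit 42639389) (dlOf (nat_lit 2) (nat_lit 0x2b80000000004001c00400060009260102))) 
(.lf (nat_lit 10133533) (dlOf (nat_lit 1) (nat_lit 0x2300080238002003800085b0483))))) 
(.nd (nat_lit 18) (.nd (nat_lit 26) 
(.lf (nat_lit 134914077) (dlOf (nat_lit 2) (nat_lit 0x668000003e404007c00200d600080e0482))) 
(.lf (nat_lit 202022941) (dlOf (nat_lit 2) (nat_lit 0x668000003e604007c00200d600080e0482)))) 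
(.nd (nat_lit 7) (.lf (nat_lit 5772321821) (dlOf (nat_lit 1) (nat_lit 0x260018092881))) 
(.lf (nat_lit 5772321181) (dlOf (nat_lit 4) (nat_lit 0x909f002184c401bc2600016006002c130000af010008098800364080018008009c00200560008091003)))))) 
(.nd (nat_lit 18) (.nd (nat_lit 7) (.nd (nat_lit 22) 
(.lf (nat_lit 11182109) (dlOf (nat_lit 1) (nat_lit 0x1000200040008670482))) 
(.lf (nat_lit 15376413) (dlOf (nat_lit 1) (nat_lit 0x4004000200187e0582)))) 
(.lf (nat_lit 53126301) (dlOf (nat_lit 1) (nat_lit 0x18008000400200060009572b83)))) 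
(.nd (nat_lit 7) (.nd (nat_lit 8) 
(.lf (nat_lit 473866269) (dlOf (nat_lit 2) (nat_lit 0x6828600320cd00017828fc0100))) 
(.lf (nat_lit 19833117) (dlOf (nat_lit 1) (nat_lit 0x4002000200089d0a82)))) 
(.lf (nat_lit 8300445) (dlOf (nat_lit 1) (nat_lit 0x60028514281))))))) (.nd (nat_lit 26) 
(.nd (nat_lit 28) (.nd (nat_lit 8) (.nd (nat_lit 19) (.nd (nat_lit 27) 
(.lf (nat_lit 2684526621) (dlOf (nat_lit 2) (nat_lit 0x1a00d00060000008981000100080024002000a0008090483))) 
(.lf (nat_lit 6039969821) (dlOf (nat_lit 2) (nat_lit 0xa01a000704080008008001800200060008080483)))) 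
(.lf (nat_lit 537567261) (dlOf (nat_lit 1) (nat_lit 0x80080004002000200080b0983)))) 
(.nd (nat_lit 7) 
(.lf (nat_lit 2818744605) (dlOf (nat_lit 3) (nat_lit 0x40058002002a001000e000800600060018002000800120000009707000b00300040c0800180080004002000200080f8003))) 
(.lf (nat_lit 3892492189) (dlOf (nat_lit 1) (nat_lit 0x758008000400200f6000815a303))))) 
(.nd (nat_lit 19) (.nd (nat_lit 7) 
(.lf (nat_lit 805482013) (dlOf (nat_lit 1) (nat_lit 0x40002001e0008117102))) 
(.lf (nat_lit 805740701) (dlOf (nat_lit 1) (nat_lit 0x200181a0201)))) (.nd (nat_lit 20) 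
(.lf (nat_lit 806002717) (dlOf (nat_lit 4) (nat_lit 0xa700ac0404013000d982018502b000614080c18158002e204038400400840008210482))) 
(.lf (nat_lit 1880793117) (dlOf (nat_lit 2) (nat_lit 0x605e000000080018008000800200140008b90103)))))) 
(.nd (nat_lit 30) (.nd (nat_lit 10) (.nd (nat_lit 11) (.nd (nat_lit 19) (.nd (nat_lit 20) 
(.lf (nat_lit 4899119133) (dlOf (nat_lit 1) (nat_lit 0x180018080081))) 
(.lf (nat_lit 2752684061) (dlOf (nat_lit 5) (nat_lit 0x45124000560080250920002ae0400104980166248000aa0200ab1240005480800180080264002006c0008030903)))) 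
(.lf (nat_lit 3154812957) (dlOf (nat_lit 2) (nat_lit 0x4016004d6018330a00)))) 
(.lf (nat_lit 2751641629) (dlOf (nat_lit 1) (nat_lit 0x800800040020002000800a603)))) 
(.nd (nat_lit 7) (.lf (nat_lit 2751636509) (dlOf (nat_lit 1) (nat_lit 0xe0028002881))) 
(.lf (nat_lit 872588445) (dlOf (nat_lit 1) (nat_lit 0x178008005c002000a0008092b83))))) 
(.nd (nat_lit 7) (.nd (nat_lit 9) 
(.lf (nat_lit 1678417949) (dlOf (nat_lit 4) (nat_lit 0xa700ac0404013000d182018502b0005f4080c18158002e604038400400840008210482))) 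
(.lf (nat_lit 4228031005) (dlOf (nat_lit 1) (nat_lit 0x20018017f01)))) (.nd (nat_lit 8) 
(.lf (nat_lit 1678155933) (dlOf (nat_lit 1) (nat_lit 0x200181a0201))) (.nd (nat_lit 9) 
(.lf (nat_lit 1678156189) (dlOf (nat_lit 1) (nat_lit 0x4004000200181a0782))) 
(.lf (nat_lit 3959596957) (dlOf (nat_lit 1) (nat_lit 0x1c00200060008114282))))))))) 
(.nd (nat_lit 31) (.nd (nat_lit 7) (.nd (nat_lit 10) (.nd (nat_lit 18) (.nd (nat_lit 8) 
(.lf (nat_lit 67805245) (dlOf (nat_lit 1) (nat_lit 0x3600182f0d01))) 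
(.lf (nat_lit 4362248509) (dlOf (nat_lit 3) (nat_lit 0x100b4013b004001005a009bd0200040008014c01)))) 
(.nd (nat_lit 26) (.nd (nat_lit 29) 
(.lf (nat_lit 1074176061) (dlOf (nat_lit 1) (nat_lit 0x1a00080d0b81))) 
(.lf (nat_lit 5906014269) (dlOf (nat_lit 1) (nat_lit 0x20008180801)))) 
(.lf (nat_lit 1946591293) (dlOf (nat_lit 1) (nat_lit 0x1a00080d0b81))))) (.nd (nat_lit 8) 
(.nd (nat_lit 9) (.lf (nat_lit 38183997) (dlOf (nat_lit 1) (nat_lit 0x20019132881))) 
(.lf (nat_lit 8824381) (dlOf (nat_lit 2) (nat_lit 0x8b3c40000a04005c00400040008513782)))) 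
(.nd (nat_lit 20) (.lf (nat_lit 440125) (dlOf (nat_lit 1) (nat_lit 0x1a000800a101))) 
(.lf (nat_lit 20363069) (dlOf (nat_lit 5) (nat_lit 0x94b400068020006a5a0002101000552d8001a944000d4780002306000aa5b0003528800328f00003c0c0014004001800089da102)))))) 
(.nd (nat_lit 18) (.nd (nat_lit 8) (.nd (nat_lit 10) (.nd (nat_lit 27) 
(.lf (nat_lit 4295139517) (dlOf (nat_lit 1) (nat_lit 0x10008001000200040008090383))) 
(.lf (nat_lit 4429357245) (dlOf (nat_lit 1) (nat_lit 0x20018090381)))) 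
(.lf (nat_lit 58369213) (dlOf (nat_lit 1) (nat_lit 0x780080020002006e00097e2c83)))) 
(.nd (nat_lit 10) 
(.lf (nat_lit 43164093) (dlOf (nat_lit 1) (nat_lit 0x200080070002002000092a1083))) 
(.lf (nat_lit 2013439421) (dlOf (nat_lit 1) (nat_lit 0xa0018093601))))) (.nd (nat_lit 19) 
(.nd (nat_lit 10) 
(.lf (nat_lit 23503037) (dlOf (nat_lit 2) (nat_lit 0x1af240002404000800200020008b80382))) 
(.lf (nat_lit 41329853) (dlOf (nat_lit 1) (nat_lit 0x8a0029242c81)))) (.nd (nat_lit 20) 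
(.lf (nat_lit 3055805) (dlOf (nat_lit 1) (nat_lit 0x5000800d800200100008200383))) 
(.lf (nat_lit 5773369533) (dlOf (nat_lit 1) (nat_lit 0x4004000200080c1702))))))) (.nd (nat_lit 26) 
(.nd (nat_lit 28) (.nd (nat_lit 12) (.nd (nat_lit 18) 
(.lf (nat_lit 2684526653) (dlOf (nat_lit 2) (nat_lit 0x24066000210200020018090e01))) 
(.lf (nat_lit 2819006525) (dlOf (nat_lit 2) (nat_lit 0x9a03f00014818150480)))) (.nd (nat_lit 7) 
(.lf (nat_lit 3892490301) (dlOf (nat_lit 2) (nat_lit 0x80238000940800d8008001c00200020008157d03))) 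
(.lf (nat_lit 2281878717) (dlOf (nat_lit 1) (nat_lit 0x4004000200080a9502))))) (.nd (nat_lit 7) 
(.nd (nat_lit 8) 
(.lf (nat_lit 3490881597) (dlOf (nat_lit 8) (nat_lit 0xed0f5803a0748009c2800032000000a18400071190004ec0800c07ac001b20401903f4023c1eb00370f50016878c00203c200f61d2002b0b20005056c001c2800006000000668a00590fd008207ac00643d4001e1e3006b0e9000a85900018280000cc0e000a2310003a8100031188001d0080220008034400200a20008030d03))) 
(.lf (nat_lit 4026704189) (dlOf (nat_lit 1) (nat_lit 0x1000400020018048502)))) (.nd (nat_lit 10) 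
(.lf (nat_lit 3493503165) (dlOf (nat_lit 1) (nat_lit 0x400200020008155502))) 
(.lf (nat_lit 3489840317) (dlOf (nat_lit 1) (nat_lit 0x80040002001800c202)))))) (.nd (nat_lit 19) 
(.nd (nat_lit 8) (.nd (nat_lit 9) 
(.lf (nat_lit 2752684093) (dlOf (nat_lit 8) (nat_lit 0xed0fe803a079c009c2800032000000a18400071250004ec0800c07f4001b204019041e0010203011e0fe801b87f000b43ea00f61e7002b0b400050544001c2800006000000668a0059107808207f400643f8001e1f5006b0f3800a85a00018280000cc0e000a2490003a8100031248001d0080220008034400200a20008030d03))) 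
(.lf (nat_lit 2214770237) (dlOf (nat_lit 1) (nat_lit 0x1400180a9c01)))) (.nd (nat_lit 11) 
(.lf (nat_lit 4228030781) (dlOf (nat_lit 3) (nat_lit 0x100b000894040010058004280200040008014c01))) 
(.lf (nat_lit 3959601469) (dlOf (nat_lit 1) (nat_lit 0x40040002001811ab82))))) (.nd (nat_lit 20) 
(.nd (nat_lit 8) (.lf (nat_lit 4228554813) (dlOf (nat_lit 1) (nat_lit 0x4004000800080f1402))) 
(.lf (nat_lit 2752161597) (dlOf (nat_lit 1) (nat_lit 0x400400020018003e02)))) (.nd (nat_lit 7) 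
(.lf (nat_lit 4095385661) (dlOf (nat_lit 3) (nat_lit 0x80900004044802830100018210000c0bc00a0b04000400180a1681))) 
(.lf (nat_lit 2755305661) (dlOf (nat_lit 1) (nat_lit 0x400200020008155502))))))))) (.nd (nat_lit 7) 
(.nd (nat_lit 5) (.nd (nat_lit 11) (.nd (nat_lit 8) (.nd (nat_lit 21) (.nd (nat_lit 9) 
(.lf (nat_lit 33988701) (dlOf (nat_lit 2) (nat_lit 0x5c18540018bfa000260400020028f90881))) 
(.lf (nat_lit 2281874013) (dlOf (nat_lit 1) (nat_lit 0x200080a1681)))) (.nd (nat_lit 10) 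
(.lf (nat_lit 48668765) (dlOf (nat_lit 2) (nat_lit 0x2e04f40003804000800200020009420882))) 
(.lf (nat_lit 19838045) (dlOf (nat_lit 1) (nat_lit 0x4004000200089d9382))))) (.nd (nat_lit 18) 
(.nd (nat_lit 9) 
(.lf (nat_lit 4362248541) (dlOf (nat_lit 7) (nat_lit 0x5811c01dc05a0002e04000c047001e0168000b410014811c0004404002008e0001b02000c0470000c810006023800060080050008011800200700008014e83))) 
(.lf (nat_lit 2281878365) (dlOf (nat_lit 1) (nat_lit 0x200280a8f81)))) (.nd (nat_lit 19) 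
(.nd (nat_lit 20) 
(.lf (nat_lit 3624313181) (dlOf (nat_lit 5) (nat_lit 0x4040010e01b0086806c08f4028002a0000001405011301b0099806c0b8c028028400c001f000000098280f0005002b4018015a005000128300f200a00008c08091000803e800205c20008154e83))) 
(.lf (nat_lit 2755043677) (dlOf (nat_lit 1) (nat_lit 0x420008104e81)))) 
(.lf (nat_lit 2007389) (dlOf (nat_lit 2) (nat_lit 0x154a8000560200060018150681)))))) 
(.nd (nat_lit 30) (.nd (nat_lit 8) (.nd (nat_lit 20) 
(.lf (nat_lit 44477021) (dlOf (nat_lit 1) (nat_lit 0x400200120009325302))) 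
(.lf (nat_lit 62302813) (dlOf (nat_lit 2) (nat_lit 0x304d4000000199a5300)))) (.nd (nat_lit 9) 
(.lf (nat_lit 738371933) (dlOf (nat_lit 9) (nat_lit 0x90320001816800040b2001804b00060210076a428002819000140b4000605900020258003810803b4e14014c0b401da502000a05a00ed181000f02c8000812c03b3e0800180b2000c04b00ece82000302d007508080400104037320400a000400de0018094e82))) 
(.lf (nat_lit 46050141) (dlOf (nat_lit 1) (nat_lit 0x10008000800200040009385c03))))) 
(.nd (nat_lit 10) (.nd (nat_lit 12) 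
(.lf (nat_lit 1141025117) (dlOf (nat_lit 1) (nat_lit 0x8008000400200020008094e83))) 
(.lf (nat_lit 1677900125) (dlOf (nat_lit 1) (nat_lit 0x500020010000811ab82)))) (.nd (nat_lit 8) 
(.lf (nat_lit 3892493405) (dlOf (nat_lit 1) (nat_lit 0x6001815c001))) 
(.lf (nat_lit 3221400925) (dlOf (nat_lit 1) (nat_lit 0x8008003c002001a0008116a83))))))) 
(.nd (nat_lit 9) (.nd (nat_lit 19) (.nd (nat_lit 8) 
(.lf (nat_lit 8828029) (dlOf (nat_lit 1) (nat_lit 0x38002000c0008519502))) (.nd (nat_lit 12) 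
(.lf (nat_lit 3221400957) (dlOf (nat_lit 2) (nat_lit 0x180b80006e04003c004000e0018116c02))) 
(.lf (nat_lit 805485949) (dlOf (nat_lit 1) (nat_lit 0x2680080220002003a000811c903))))) 
(.nd (nat_lit 10) (.lf (nat_lit 5772321149) (dlOf (nat_lit 2) (nat_lit 0x10413000000018091000))) 
(.nd (nat_lit 20) (.lf (nat_lit 53126525) (dlOf (nat_lit 1) (nat_lit 0x20029573581))) 
(.lf (nat_lit 43689341) (dlOf (nat_lit 1) (nat_lit 0x200292a3581)))))) (.nd (nat_lit 21) 
(.nd (nat_lit 8) (.nd (nat_lit 10) 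
(.lf (nat_lit 6241299069) (dlOf (nat_lit 1) (nat_lit 0x200180d5401))) 
(.lf (nat_lit 1476830845) (dlOf (nat_lit 23) (nat_lit 0x9000a003100300009e0802c8028002c00c000268200d300a0033003000e001200e0000000260400da00a003000300009608013407400ae03400140150001201801900e8001406e007a03400023830024021804580a801c8040000450600b8043008301d002f00dc01a4068013202a007701000070000000881c0120086011403a00a401b802900d0020405401080200002186000401a00010808025010c012c07400a4034005700a001400300174000000400c000c0200001f0100060100000f40802f010c02540740118037006c010000c00300007814027c086006603a003201b804d80d001c40400206014007a0060023002401840000003b1200780140001c01005900a000a00000006c08013808600a603400af00a0028803000d801200ea0000001a86006f0000000d008021810c0224074011c037003401a003600800098000000330c003a03a001d01b801c009c01180400002d08008e0140063006000000100020008006800200080008203983)))) 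
(.nd (nat_lit 12) 
(.lf (nat_lit 3959596925) (dlOf (nat_lit 1) (nat_lit 0x8008001c00200020008114103))) 
(.nd (nat_lit 23) 
(.lf (nat_lit 3892492157) (dlOf (nat_lit 1) (nat_lit 0x1100080004002002a000815a303))) 
(.lf (nat_lit 8566653) (dlOf (nat_lit 1) (nat_lit 0x28008000c0020004000851a303)))))) 
(.nd (nat_lit 12) (.nd (nat_lit 8) 
(.lf (nat_lit 52864637) (dlOf (nat_lit 1) (nat_lit 0xc00200060009573982))) (.nd (nat_lit 10) 
(.lf (nat_lit 473082749) (dlOf (nat_lit 2) (nat_lit 0xa0b2800688080058008003800200040008c95c03))) 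
(.lf (nat_lit 8300413) (dlOf (nat_lit 1) (nat_lit 0x60018514101))))) (.nd (nat_lit 18) 
(.lf (nat_lit 8042365) (dlOf (nat_lit 1) (nat_lit 0x40020002000851a302))) 
(.lf (nat_lit 8304509) (dlOf (nat_lit 1) (nat_lit 0x80020002000851a302)))))))) (.nd (nat_lit 5) 
(.nd (nat_lit 18) (.nd (nat_lit 8) (.nd (nat_lit 11) (.nd (nat_lit 12) 
(.lf (nat_lit 474129629) (dlOf (nat_lit 1) (nat_lit 0x80080004002000200090e2e03))) 
(.lf (nat_lit 2281878749) (dlOf (nat_lit 1) (nat_lit 0x4004000200080a9502)))) (.nd (nat_lit 9) 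
(.nd (nat_lit 10) (.lf (nat_lit 3959597277) (dlOf (nat_lit 1) (nat_lit 0x20028114a81))) 
(.lf (nat_lit 179421) (dlOf (nat_lit 1) (nat_lit 0x2002800c481)))) 
(.lf (nat_lit 2754784989) (dlOf (nat_lit 1) (nat_lit 0x24004000200180f7382))))) (.nd (nat_lit 9) 
(.nd (nat_lit 10) (.nd (nat_lit 19) 
(.lf (nat_lit 474128861) (dlOf (nat_lit 1) (nat_lit 0x200190e1281))) 
(.lf (nat_lit 473604573) (dlOf (nat_lit 1) (nat_lit 0x3400400300018f67c82)))) 
(.lf (nat_lit 3489836509) (dlOf (nat_lit 1) (nat_lit 0x18008000400200020008006d83)))) 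
(.nd (nat_lit 20) (.lf (nat_lit 1677894621) (dlOf (nat_lit 1) (nat_lit 0x20018112881))) 
(.lf (nat_lit 1880269789) (dlOf (nat_lit 1) (nat_lit 0x4c00201f80008802882)))))) (.nd (nat_lit 26) 
(.nd (nat_lit 10) (.nd (nat_lit 19) 
(.lf (nat_lit 805741021) (dlOf (nat_lit 1) (nat_lit 0x200080014002000400081a0b83))) 
(.lf (nat_lit 5772321245) (dlOf (nat_lit 1) (nat_lit 0x400080020002000c0008091283)))) 
(.nd (nat_lit 8) (.lf (nat_lit 20360925) (dlOf (nat_lit 1) (nat_lit 0x4004000200089d7382))) 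
(.lf (nat_lit 20362717) (dlOf (nat_lit 1) (nat_lit 0x180080004002000200089d9b03))))) 
(.nd (nat_lit 9) (.nd (nat_lit 8) 
(.lf (nat_lit 68067549) (dlOf (nat_lit 1) (nat_lit 0x4002000200083e0582))) 
(.lf (nat_lit 1678156253) (dlOf (nat_lit 1) (nat_lit 0x200080014002000400081a0b83)))) 
(.nd (nat_lit 19) 
(.lf (nat_lit 2751898589) (dlOf (nat_lit 2) (nat_lit 0x4110012ea0200020028002881))) 
(.lf (nat_lit 472818653) (dlOf (nat_lit 1) (nat_lit 0xb60018b02881))))))) (.nd (nat_lit 8) 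
(.nd (nat_lit 10) (.nd (nat_lit 11) (.nd (nat_lit 19) 
(.lf (nat_lit 738369789) (dlOf (nat_lit 4) (nat_lit 0x1806a0015802000c035000678100060248002580801280080120002005e0008090a83))) 
(.lf (nat_lit 9085181) (dlOf (nat_lit 1) (nat_lit 0x20028524601)))) 
(.lf (nat_lit 178429) (dlOf (nat_lit 1) (nat_lit 0x800800040020002000800a983)))) (.nd (nat_lit 11) 
(.nd (nat_lit 12) (.lf (nat_lit 5772322045) (dlOf (nat_lit 1) (nat_lit 0x1000200160008092f02))) 
(.lf (nat_lit 2617423101) (dlOf (nat_lit 1) (nat_lit 0x4004000200080a9582)))) 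
(.lf (nat_lit 3221400829) (dlOf (nat_lit 1) (nat_lit 0x40018116601))))) (.nd (nat_lit 19) 
(.nd (nat_lit 9) (.nd (nat_lit 29) 
(.lf (nat_lit 4362248701) (dlOf (nat_lit 2) (nat_lit 0xcc0ac012002b00033028017e00))) 
(.lf (nat_lit 5972861437) (dlOf (nat_lit 1) (nat_lit 0x80008157e01)))) (.nd (nat_lit 11) 
(.lf (nat_lit 1880531965) (dlOf (nat_lit 1) (nat_lit 0x1600289e2881))) 
(.lf (nat_lit 59943933) (dlOf (nat_lit 1) (nat_lit 0x1800400040009845f02))))) (.nd (nat_lit 18) 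
(.nd (nat_lit 9) (.lf (nat_lit 8037885) (dlOf (nat_lit 1) (nat_lit 0x20028513681))) 
(.lf (nat_lit 36348925) (dlOf (nat_lit 1) (nat_lit 0x20019072881)))) (.nd (nat_lit 22) 
(.lf (nat_lit 3492717565) (dlOf (nat_lit 1) (nat_lit 0x4002000200080f2882))) 
(.lf (nat_lit 32416765) (dlOf (nat_lit 1) (nat_lit 0xe0028ef2881))))))))))))

end

end Pool.Agent.Lib.MP_5854e1_co.Cz

namespace Pool.Agent.Lib.MP_5854e1_co.Cz

noncomputable section

noncomputable def tz63 : DT := (.nd (nat_lit 15) (.nd (nat_lit 4) (.nd (nat_lit 5) (.nd (nat_lit 6) 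
(.nd (nat_lit 7) (.nd (nat_lit 26) (.nd (nat_lit 20) (.nd (nat_lit 29) (.nd (nat_lit 27) 
(.nd (nat_lit 22) (.nd (nat_lit 30) 
(.lf (nat_lit 2147688461) (dlOf (nat_lit 1) (nat_lit 0x14200280c0001))) 
(.lf (nat_lit 1073946637) (dlOf (nat_lit 1) (nat_lit 0x800200020008030482)))) (.nd (nat_lit 10) 
(.lf (nat_lit 21962765) (dlOf (nat_lit 1) (nat_lit 0x800200160008a80482))) 
(.lf (nat_lit 46345229) (dlOf (nat_lit 1) (nat_lit 0x400200020009385f82))))) (.nd (nat_lit 18) 
(.nd (nat_lit 19) (.lf (nat_lit 6576873485) (dlOf (nat_lit 1) (nat_lit 0x20028170481))) 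
(.lf (nat_lit 134946829) (dlOf (nat_lit 3) (nat_lit 0x301d00056408002804c002680400d0004004200080e0082)))) 
(.lf (nat_lit 3624345613) (dlOf (nat_lit 5) (nat_lit 0x1680dc000fa04003806e0007c0200280370003a81001701b8001cc0800600080044002012e0008170483))))) 
(.nd (nat_lit 30) (.nd (nat_lit 8) 
(.lf (nat_lit 537600013) (dlOf (nat_lit 4) (nat_lit 0x480be0007d02002805f0003e01000302f8001cc0800500080108002004400080d0483))) 
(.lf (nat_lit 2684564749) (dlOf (nat_lit 2) (nat_lit 0x1380c8000f20402d800400d800180a9682)))) 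
(.nd (nat_lit 11) (.lf (nat_lit 1881350157) (dlOf (nat_lit 1) (nat_lit 0x360008eb0001))) 
(.lf (nat_lit 5905786893) (dlOf (nat_lit 1) (nat_lit 0x400200020008144702)))))) (.nd (nat_lit 18) 
(.nd (nat_lit 19) (.nd (nat_lit 8) 
(.lf (nat_lit 3490914317) (dlOf (nat_lit 1) (nat_lit 0x28008000800200120008030483))) 
(.lf (nat_lit 1253645) (dlOf (nat_lit 1) (nat_lit 0xe00180a3a01)))) (.nd (nat_lit 10) 
(.nd (nat_lit 22) (.lf (nat_lit 26943501) (dlOf (nat_lit 1) (nat_lit 0x800400040008c90102))) 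
(.lf (nat_lit 22749197) (dlOf (nat_lit 3) (nat_lit 0x81608000eadc0001b0200064b38000c4080010008000400200160008b20103)))) 
(.lf (nat_lit 54209549) (dlOf (nat_lit 1) (nat_lit 0x60029655f81))))) (.nd (nat_lit 24) 
(.nd (nat_lit 21) (.lf (nat_lit 9904141) (dlOf (nat_lit 1) (nat_lit 0xb8008000400200160008590083))) 
(.nd (nat_lit 25) 
(.lf (nat_lit 3612685) (dlOf (nat_lit 4) (nat_lit 0x10aa200a0c020006551005058100022a88028280800680080094002000e0008210683))) 
(.lf (nat_lit 37167117) (dlOf (nat_lit 1) (nat_lit 0x4002008000090b0002))))) (.nd (nat_lit 8) 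
(.nd (nat_lit 21) 
(.lf (nat_lit 23011341) (dlOf (nat_lit 2) (nat_lit 0x51557201b695e001307f004180000007610018c00400f60018b40102))) 
(.lf (nat_lit 29302797) (dlOf (nat_lit 1) (nat_lit 0x400200020008df0102)))) 
(.lf (nat_lit 58138893) (dlOf (nat_lit 1) (nat_lit 0xce00297c3a01))))))) (.nd (nat_lit 27) 
(.nd (nat_lit 28) (.nd (nat_lit 8) (.nd (nat_lit 20) 
(.lf (nat_lit 5972893709) (dlOf (nat_lit 1) (nat_lit 0x20028170481))) 
(.lf (nat_lit 2752716813) (dlOf (nat_lit 1) (nat_lit 0x28008000800200120008030483)))) 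
(.lf (nat_lit 1141058317) (dlOf (nat_lit 16) (nat_lit 0x4a8098000680401e804c000330201c202600180128000c8100590098001404a000310401ba026000180100a10130000bc0806d00980005c04037404c0002d0201bc026000160100440130000ac0800300980005004038404c00018020060026000090100410130000440806500980000004000c00400060018095b02)))) 
(.nd (nat_lit 30) (.nd (nat_lit 9) 
(.lf (nat_lit 5167587341) (dlOf (nat_lit 2) (nat_lit 0x802800dc602000400180d0001))) 
(.lf (nat_lit 5167588877) (dlOf (nat_lit 1) (nat_lit 0x200180d3681)))) (.nd (nat_lit 19) 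
(.lf (nat_lit 1946361869) (dlOf (nat_lit 1) (nat_lit 0x800200020008030482))) 
(.lf (nat_lit 1410015245) (dlOf (nat_lit 4) (nat_lit 0x480be0007d02002805f0003e01000302f8001cc0800500080108002004400080d0483)))))) 
(.nd (nat_lit 18) (.nd (nat_lit 19) (.nd (nat_lit 29) 
(.lf (nat_lit 1275273229) (dlOf (nat_lit 1) (nat_lit 0x14200280c0001))) 
(.lf (nat_lit 5033369613) (dlOf (nat_lit 1) (nat_lit 0x20008090001)))) 
(.lf (nat_lit 202055693) (dlOf (nat_lit 3) (nat_lit 0x301d00055008002804c002680400d0004004200080e0082)))) 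
(.nd (nat_lit 21) (.nd (nat_lit 28) 
(.lf (nat_lit 2886148109) (dlOf (nat_lit 5) (nat_lit 0x1680dc000fa04003806e0007c0200280370003a81001701b8001cc0800600080044002012e0008170483))) 
(.lf (nat_lit 3154583565) (dlOf (nat_lit 1) (nat_lit 0x20018260281)))) 
(.lf (nat_lit 1009197069) (dlOf (nat_lit 1) (nat_lit 0x20029090101))))))) (.nd (nat_lit 11) 
(.nd (nat_lit 18) (.nd (nat_lit 10) (.nd (nat_lit 19) (.nd (nat_lit 27) 
(.lf (nat_lit 2416124045) (dlOf (nat_lit 1) (nat_lit 0x2c0008090101))) 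
(.lf (nat_lit 2550341773) (dlOf (nat_lit 1) (nat_lit 0x2c0008090101)))) (.nd (nat_lit 8) 
(.lf (nat_lit 12263565) (dlOf (nat_lit 1) (nat_lit 0x80080010002000200086c0103))) 
(.lf (nat_lit 8069517) (dlOf (nat_lit 1) (nat_lit 0x20018511001))))) (.nd (nat_lit 9) 
(.nd (nat_lit 26) (.lf (nat_lit 2684564621) (dlOf (nat_lit 1) (nat_lit 0x4002000200080a9502))) 
(.lf (nat_lit 2617455757) (dlOf (nat_lit 3) (nat_lit 0x8000000f881000100000028c080048008007c002000800080a9503)))) 
(.lf (nat_lit 4160960141) (dlOf (nat_lit 1) (nat_lit 0x280080064002001200080a9e03))))) 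
(.nd (nat_lit 21) (.nd (nat_lit 8) (.nd (nat_lit 26) 
(.lf (nat_lit 134684813) (dlOf (nat_lit 1) (nat_lit 0x8008000c00200060008090103))) 
(.lf (nat_lit 201793677) (dlOf (nat_lit 1) (nat_lit 0x8008000c00200060008090103)))) 
(.lf (nat_lit 54993293) (dlOf (nat_lit 3) (nat_lit 0x140780043602000a101000b01e0010cc1000880080104002000a0009685d83)))) 
(.nd (nat_lit 19) (.nd (nat_lit 20) 
(.lf (nat_lit 23535757) (dlOf (nat_lit 2) (nat_lit 0x25a28000ec080050008002400200260008b80103))) 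
(.lf (nat_lit 12001421) (dlOf (nat_lit 1) (nat_lit 0xc002000600086c0102)))) 
(.lf (nat_lit 3088525) (dlOf (nat_lit 2) (nat_lit 0x225e8000ec080100008001800200060008200103)))))) 
(.nd (nat_lit 10) (.nd (nat_lit 21) (.nd (nat_lit 18) (.nd (nat_lit 8) 
(.lf (nat_lit 1677928589) (dlOf (nat_lit 2) (nat_lit 0x80000000a0200020018114801))) 
(.lf (nat_lit 4093847949) (dlOf (nat_lit 1) (nat_lit 0xc00400060008004e82)))) (.nd (nat_lit 20) 
(.lf (nat_lit 2080844173) (dlOf (nat_lit 1) (nat_lit 0x600080e4e81))) 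
(.lf (nat_lit 60238221) (dlOf (nat_lit 1) (nat_lit 0x60029844e81))))) (.nd (nat_lit 25) 
(.nd (nat_lit 26) (.lf (nat_lit 5773666701) (dlOf (nat_lit 1) (nat_lit 0x4004000600080e4e82))) 
(.lf (nat_lit 6377646477) (dlOf (nat_lit 1) (nat_lit 0x4004000600080e4e82)))) 
(.lf (nat_lit 35858829) (dlOf (nat_lit 1) (nat_lit 0x8008000400200020009014e83))))) 
(.nd (nat_lit 8) (.nd (nat_lit 18) 
(.lf (nat_lit 3489873037) (dlOf (nat_lit 1) (nat_lit 0x1900040092001800c202))) 
(.lf (nat_lit 19872909) (dlOf (nat_lit 1) (nat_lit 0xb800089dc201)))) (.nd (nat_lit 18) 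
(.nd (nat_lit 20) 
(.lf (nat_lit 1543712141) (dlOf (nat_lit 7) (nat_lit 0x7003200280060000d82000e016000e8064005000c002e0000000c8400090160010806400740000000b06002202c002800c80120000000140c001403200220000000482000c00000001c080050008001000200460008146c83))) 
(.lf (nat_lit 20131213) (dlOf (nat_lit 2) (nat_lit 0x5d61e0001902000200189d6c81)))) 
(.lf (nat_lit 3490131341) (dlOf (nat_lit 2) (nat_lit 0x380f6000190200020028006c81)))))))) 
(.nd (nat_lit 8) (.nd (nat_lit 19) (.nd (nat_lit 20) (.nd (nat_lit 26) (.nd (nat_lit 7) 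
(.nd (nat_lit 18) 
(.lf (nat_lit 6442655821) (dlOf (nat_lit 2) (nat_lit 0x500e8002404a001401a000900c00002c200008008001c00200020008120f83))) 
(.lf (nat_lit 48701517) (dlOf (nat_lit 2) (nat_lit 0x25fe0001a8080008008000800200040009420683)))) 
(.lf (nat_lit 8597709) (dlOf (nat_lit 1) (nat_lit 0x60028518001)))) (.nd (nat_lit 28) 
(.nd (nat_lit 27) 
(.lf (nat_lit 1141055565) (dlOf (nat_lit 1) (nat_lit 0x200080034002000c0008090003))) 
(.lf (nat_lit 3422756941) (dlOf (nat_lit 1) (nat_lit 0x80080030002000400080a0003)))) 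
(.nd (nat_lit 21) 
(.lf (nat_lit 5838676045) (dlOf (nat_lit 2) (nat_lit 0x500e8002404a001401a000900c00002c200008008001c00200020008120f83))) 
(.lf (nat_lit 472064077) (dlOf (nat_lit 1) (nat_lit 0x8008000400200020008800003)))))) 
(.nd (nat_lit 24) (.nd (nat_lit 26) (.nd (nat_lit 22) 
(.lf (nat_lit 3490914381) (dlOf (nat_lit 4) (nat_lit 0x3c3a4000040200141d20000101001c0e90000000800e0008002c00200040008030f83))) 
(.lf (nat_lit 47390797) (dlOf (nat_lit 1) (nat_lit 0x4004002800193e1602)))) (.nd (nat_lit 29) 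
(.lf (nat_lit 68362317) (dlOf (nat_lit 1) (nat_lit 0x20028570181))) 
(.lf (nat_lit 2752716877) (dlOf (nat_lit 4) (nat_lit 0x3c3ce000040200141e70000101001c0f38000000800e0008002c00200040008030f83))))) 
(.nd (nat_lit 9) (.lf (nat_lit 62070861) (dlOf (nat_lit 1) (nat_lit 0x400400020009940602))) 
(.nd (nat_lit 21) (.lf (nat_lit 51849805) (dlOf (nat_lit 1) (nat_lit 0x40019515281))) 
(.lf (nat_lit 53946957) (dlOf (nat_lit 1) (nat_lit 0x48002000600095f5282))))))) (.nd (nat_lit 18) 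
(.nd (nat_lit 21) (.nd (nat_lit 26) 
(.lf (nat_lit 537600077) (dlOf (nat_lit 4) (nat_lit 0x700ba0004f02003c05d0002681000202c0000e80802000080084002000600080d0d03))) 
(.lf (nat_lit 1410015309) (dlOf (nat_lit 4) (nat_lit 0x700ba0005602003c05d0002a01000202c0001040802000080084002000600080d0d03)))) 
(.nd (nat_lit 9) (.nd (nat_lit 26) 
(.lf (nat_lit 3492487245) (dlOf (nat_lit 3) (nat_lit 0x1e0d90002b01000f06c8001500800380080004002000200080d0d03))) 
(.lf (nat_lit 2754289741) (dlOf (nat_lit 3) (nat_lit 0x1e0cb0002781000f0658001340800380080004002000200080d0d03)))) 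
(.lf (nat_lit 32189005) (dlOf (nat_lit 1) (nat_lit 0x1c0008ef5281))))) (.nd (nat_lit 22) 
(.nd (nat_lit 20) 
(.lf (nat_lit 470753357) (dlOf (nat_lit 1) (nat_lit 0x10008000400200020008170703))) 
(.lf (nat_lit 20914253) (dlOf (nat_lit 2) (nat_lit 0x3a7780009e04002c004001a00189f0602)))) 
(.nd (nat_lit 23) 
(.lf (nat_lit 21962829) (dlOf (nat_lit 3) (nat_lit 0x1322c000987000002020017c8b000ce1c00000008000800400360018a80f82))) 
(.lf (nat_lit 13574221) (dlOf (nat_lit 2) (nat_lit 0x24000000460200080008730d01))))))) 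
(.nd (nat_lit 21) (.nd (nat_lit 9) (.nd (nat_lit 18) (.nd (nat_lit 7) 
(.lf (nat_lit 738926925) (dlOf (nat_lit 1) (nat_lit 0x38008002000200080008148903))) 
(.lf (nat_lit 4697825741) (dlOf (nat_lit 3) (nat_lit 0x405c0003a02000600300015018091100)))) 
(.nd (nat_lit 26) (.lf (nat_lit 3491701197) (dlOf (nat_lit 1) (nat_lit 0x400200020008090a02))) 
(.lf (nat_lit 2753503693) (dlOf (nat_lit 3) (nat_lit 0x30828000c3a80001904000a20a00030ea000060100068008008c002002c0008090a03))))) 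
(.nd (nat_lit 7) (.nd (nat_lit 26) 
(.lf (nat_lit 2818781005) (dlOf (nat_lit 1) (nat_lit 0xc00400020008127782))) 
(.lf (nat_lit 3556978509) (dlOf (nat_lit 1) (nat_lit 0xc00400020008127782)))) (.nd (nat_lit 11) 
(.lf (nat_lit 43459533) (dlOf (nat_lit 1) (nat_lit 0x4004000200092a2882))) 
(.lf (nat_lit 6241332173) (dlOf (nat_lit 1) (nat_lit 0x200180d5d81)))))) (.nd (nat_lit 7) 
(.nd (nat_lit 19) (.nd (nat_lit 20) 
(.lf (nat_lit 23535949) (dlOf (nat_lit 1) (nat_lit 0x400200020008b80602))) 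
(.lf (nat_lit 12001613) (dlOf (nat_lit 1) (nat_lit 0x80080004002000200086c0603)))) (.nd (nat_lit 9) 
(.lf (nat_lit 1345265997) (dlOf (nat_lit 1) (nat_lit 0x8008003c00200100008b28903))) 
(.lf (nat_lit 2754558797) (dlOf (nat_lit 1) (nat_lit 0x4004000200180fbc82))))) (.nd (nat_lit 11) 
(.nd (nat_lit 9) (.nd (nat_lit 19) 
(.lf (nat_lit 1345790413) (dlOf (nat_lit 1) (nat_lit 0xa00008de7a81))) 
(.lf (nat_lit 24060365) (dlOf (nat_lit 1) (nat_lit 0x1c0018b80a01)))) 
(.lf (nat_lit 8070093) (dlOf (nat_lit 1) (nat_lit 0x400200020008512882)))) (.nd (nat_lit 18) 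
(.lf (nat_lit 45296077) (dlOf (nat_lit 1) (nat_lit 0x400200020009324e82))) 
(.lf (nat_lit 40315341) (dlOf (nat_lit 1) (nat_lit 0x4004000200091f4e82))))))))) (.nd (nat_lit 31) 
(.nd (nat_lit 18) (.nd (nat_lit 7) (.nd (nat_lit 26) (.nd (nat_lit 19) (.nd (nat_lit 20) 
(.nd (nat_lit 23) (.nd (nat_lit 27) 
(.lf (nat_lit 1342382125) (dlOf (nat_lit 1) (nat_lit 0x28004002e0008020582))) 
(.lf (nat_lit 134422573) (dlOf (nat_lit 1) (nat_lit 0x20008020581)))) 
(.lf (nat_lit 25370669) (dlOf (nat_lit 1) (nat_lit 0x400400020008c00602)))) 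
(.lf (nat_lit 7544877) (dlOf (nat_lit 1) (nat_lit 0x200284b0001)))) (.nd (nat_lit 21) 
(.nd (nat_lit 20) (.nd (nat_lit 22) 
(.lf (nat_lit 42672173) (dlOf (nat_lit 1) (nat_lit 0x6c0019270981))) 
(.lf (nat_lit 21700653) (dlOf (nat_lit 7) (nat_lit 0x1235a4000580400739a4000280200cdcd2004de47003132700004a0c002bae60000c020061d73000058100070000000280801b80080074002005c0008a60d03)))) 
(.lf (nat_lit 22749229) (dlOf (nat_lit 5) (nat_lit 0x2cb0400da58100055820003ab68019da0800216080004adc000956d0033b018003ab68019c604019400200420008b20782)))) 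
(.nd (nat_lit 6) (.lf (nat_lit 1345003565) (dlOf (nat_lit 1) (nat_lit 0x10004000200089b0982))) 
(.lf (nat_lit 48963693) (dlOf (nat_lit 1) (nat_lit 0x5c00400080009452482)))))) (.nd (nat_lit 27) 
(.nd (nat_lit 29) (.nd (nat_lit 6) (.nd (nat_lit 9) 
(.lf (nat_lit 4362805293) (dlOf (nat_lit 4) (nat_lit 0x15280cc000640401600820608033000188202a00198000c008080800802f000200220008100603))) 
(.lf (nat_lit 335751725) (dlOf (nat_lit 1) (nat_lit 0x10008001400200040008095183)))) 
(.lf (nat_lit 67314029) (dlOf (nat_lit 1) (nat_lit 0x400080b0a01)))) (.nd (nat_lit 32) 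
(.lf (nat_lit 604184621) (dlOf (nat_lit 6) (nat_lit 0xc808a00069020050045008801f8000a81000280d8000440400a408a011c03f000301b000084180170114021c07e0008035000901a0000002001e8008000800200940008080683))) 
(.lf (nat_lit 4899151917) (dlOf (nat_lit 2) (nat_lit 0x1a80880004a040068004001000080a0d02))))) 
(.nd (nat_lit 19) (.nd (nat_lit 28) 
(.lf (nat_lit 201531437) (dlOf (nat_lit 1) (nat_lit 0x20008020581))) 
(.lf (nat_lit 469966893) (dlOf (nat_lit 1) (nat_lit 0x28004002e0008020582)))) 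
(.lf (nat_lit 1007362093) (dlOf (nat_lit 2) (nat_lit 0x1837c0007a04000c00200020008300b02)))))) 
(.nd (nat_lit 6) (.nd (nat_lit 8) (.nd (nat_lit 9) (.nd (nat_lit 19) 
(.lf (nat_lit 36906157) (dlOf (nat_lit 1) (nat_lit 0x800200040009072c02))) 
(.lf (nat_lit 1881875629) (dlOf (nat_lit 1) (nat_lit 0x400200020009102c02)))) 
(.lf (nat_lit 20133549) (dlOf (nat_lit 1) (nat_lit 0x4002000200089da002)))) (.nd (nat_lit 23) 
(.lf (nat_lit 1409493421) (dlOf (nat_lit 1) (nat_lit 0x20028004e81))) 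
(.lf (nat_lit 58927533) (dlOf (nat_lit 1) (nat_lit 0x4002000200097e4e82))))) (.nd (nat_lit 9) 
(.nd (nat_lit 21) 
(.lf (nat_lit 9642477) (dlOf (nat_lit 1) (nat_lit 0x748008029c00201c00008577d03))) 
(.lf (nat_lit 11739629) (dlOf (nat_lit 1) (nat_lit 0x60004005000186c0d02)))) (.nd (nat_lit 8) 
(.lf (nat_lit 8594157) (dlOf (nat_lit 1) (nat_lit 0x20028512101))) 
(.lf (nat_lit 36381677) (dlOf (nat_lit 1) (nat_lit 0x120009072881))))))) (.nd (nat_lit 21) 
(.nd (nat_lit 25) (.nd (nat_lit 26) (.nd (nat_lit 7) 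
(.lf (nat_lit 5637611565) (dlOf (nat_lit 4) (nat_lit 0xa00e8002802c00540000002906000e00f000138100030078000940800080080018002005a0008120d03))) 
(.lf (nat_lit 1346839725) (dlOf (nat_lit 2) (nat_lit 0x203340005a04000800400040019042c02)))) 
(.nd (nat_lit 8) 
(.lf (nat_lit 6241591341) (dlOf (nat_lit 4) (nat_lit 0xa00e8002802c00540000002906000e00f000138100030078000940800080080018002005a0008120d03))) 
(.lf (nat_lit 4362543405) (dlOf (nat_lit 1) (nat_lit 0x400200020008090502))))) (.nd (nat_lit 20) 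
(.nd (nat_lit 7) (.lf (nat_lit 54993005) (dlOf (nat_lit 1) (nat_lit 0x20029680a81))) 
(.lf (nat_lit 34021613) (dlOf (nat_lit 1) (nat_lit 0x20018f91e81)))) (.nd (nat_lit 6) 
(.lf (nat_lit 52371501) (dlOf (nat_lit 2) (nat_lit 0xbc00000000019530280))) 
(.lf (nat_lit 43460205) (dlOf (nat_lit 1) (nat_lit 0x200080004002000200092a3903)))))) 
(.nd (nat_lit 19) (.nd (nat_lit 6) (.nd (nat_lit 22) 
(.lf (nat_lit 19341357) (dlOf (nat_lit 2) (nat_lit 0xb234800174080018008006800200080008980e03))) 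
(.lf (nat_lit 15147053) (dlOf (nat_lit 1) (nat_lit 0x98002000200087c0682)))) (.nd (nat_lit 7) 
(.lf (nat_lit 28778605) (dlOf (nat_lit 1) (nat_lit 0x400200020008da0482))) 
(.lf (nat_lit 1344742381) (dlOf (nat_lit 1) (nat_lit 0x800200020008982882))))) (.nd (nat_lit 10) 
(.nd (nat_lit 20) 
(.lf (nat_lit 11477037) (dlOf (nat_lit 3) (nat_lit 0x180000000880800e98800038c100001404000800086a0801))) 
(.lf (nat_lit 25108525) (dlOf (nat_lit 1) (nat_lit 0x1400200100008be0d82)))) 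
(.lf (nat_lit 19872813) (dlOf (nat_lit 1) (nat_lit 0x200289dbf01))))))) (.nd (nat_lit 29) 
(.nd (nat_lit 11) (.nd (nat_lit 8) (.nd (nat_lit 6) (.nd (nat_lit 18) 
(.lf (nat_lit 3490914349) (dlOf (nat_lit 1) (nat_lit 0x20028030c01))) (.nd (nat_lit 20) 
(.lf (nat_lit 3624345645) (dlOf (nat_lit 3) (nat_lit 0x3e02a000158100020150000a80801a8008002800200200008170c03))) 
(.lf (nat_lit 3491176493) (dlOf (nat_lit 3) (nat_lit 0x360000000a00801f80000001804000400200020008070902))))) 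
(.lf (nat_lit 3493797997) (dlOf (nat_lit 1) (nat_lit 0xc004000200081b0002)))) (.nd (nat_lit 6) 
(.nd (nat_lit 27) (.lf (nat_lit 2416386349) (dlOf (nat_lit 1) (nat_lit 0x2600281b0501))) 
(.lf (nat_lit 2550604077) (dlOf (nat_lit 1) (nat_lit 0x2600281b0501)))) (.nd (nat_lit 7) 
(.lf (nat_lit 3556979053) (dlOf (nat_lit 1) (nat_lit 0x2e0018128381))) 
(.lf (nat_lit 3492750317) (dlOf (nat_lit 2) (nat_lit 0x60100063ec0800480080014002000600080f2883)))))) 
(.nd (nat_lit 6) (.nd (nat_lit 7) (.nd (nat_lit 8) 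
(.lf (nat_lit 6509768237) (dlOf (nat_lit 1) (nat_lit 0x400200020008147182))) 
(.lf (nat_lit 3489869101) (dlOf (nat_lit 1) (nat_lit 0x20008000400200060008006803)))) 
(.nd (nat_lit 8) (.lf (nat_lit 3492751533) (dlOf (nat_lit 1) (nat_lit 0x4004000200080f4902))) 
(.nd (nat_lit 12) (.lf (nat_lit 3490130349) (dlOf (nat_lit 1) (nat_lit 0x20018004e81))) 
(.lf (nat_lit 3556981165) (dlOf (nat_lit 1) (nat_lit 0x1a0008010c00200aa000812af83)))))) 
(.nd (nat_lit 12) (.nd (nat_lit 18) 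
(.lf (nat_lit 6509768045) (dlOf (nat_lit 1) (nat_lit 0x300018146b01))) 
(.lf (nat_lit 3490131309) (dlOf (nat_lit 1) (nat_lit 0x20028006b01)))) 
(.lf (nat_lit 3489873261) (dlOf (nat_lit 1) (nat_lit 0x8002800c901)))))) (.nd (nat_lit 7) 
(.nd (nat_lit 28) (.nd (nat_lit 18) (.nd (nat_lit 10) (.nd (nat_lit 19) 
(.lf (nat_lit 2752716845) (dlOf (nat_lit 1) (nat_lit 0x20028030c01))) 
(.lf (nat_lit 3893043245) (dlOf (nat_lit 1) (nat_lit 0x8008000400200020008310003)))) 
(.lf (nat_lit 2818784301) (dlOf (nat_lit 1) (nat_lit 0x25000805d0002029c000812bf03)))) 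
(.nd (nat_lit 26) (.lf (nat_lit 3892781101) (dlOf (nat_lit 1) (nat_lit 0x20018260801))) 
(.lf (nat_lit 2886148141) (dlOf (nat_lit 3) (nat_lit 0x3e029000170100020148000b40801a8008002800200200008170c03))))) 
(.nd (nat_lit 18) (.nd (nat_lit 6) (.nd (nat_lit 20) 
(.lf (nat_lit 4228587565) (dlOf (nat_lit 4) (nat_lit 0x15280c8000660401600740608032000190202a00190000c408080800802f000200220008100603))) 
(.lf (nat_lit 4095418413) (dlOf (nat_lit 2) (nat_lit 0xa007000000180b0d00)))) 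
(.lf (nat_lit 4160960109) (dlOf (nat_lit 1) (nat_lit 0xc004002e00080a9c82)))) (.nd (nat_lit 8) 
(.lf (nat_lit 4096729133) (dlOf (nat_lit 1) (nat_lit 0x400200020008160502))) 
(.lf (nat_lit 4228325677) (dlOf (nat_lit 1) (nat_lit 0x400200020008090502)))))) (.nd (nat_lit 6) 
(.nd (nat_lit 8) (.nd (nat_lit 11) 
(.lf (nat_lit 2751669933) (dlOf (nat_lit 1) (nat_lit 0x20028003a81))) 
(.lf (nat_lit 4027002541) (dlOf (nat_lit 1) (nat_lit 0x200180f7281)))) (.nd (nat_lit 9) 
(.lf (nat_lit 4094896557) (dlOf (nat_lit 1) (nat_lit 0x40028054e81))) 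
(.lf (nat_lit 2751670189) (dlOf (nat_lit 1) (nat_lit 0x400400020008004302))))) (.nd (nat_lit 8) 
(.nd (nat_lit 12) (.lf (nat_lit 2885888237) (dlOf (nat_lit 1) (nat_lit 0xc0028144b81))) 
(.lf (nat_lit 3892525293) (dlOf (nat_lit 1) (nat_lit 0x40020002000815a902)))) 
(.lf (nat_lit 2818784749) (dlOf (nat_lit 1) (nat_lit 0xc40020024000812cd02))))))))) 
(.nd (nat_lit 5) (.nd (nat_lit 18) (.nd (nat_lit 30) (.nd (nat_lit 6) (.nd (nat_lit 26) 
(.nd (nat_lit 20) (.nd (nat_lit 25) (.nd (nat_lit 7) (.nd (nat_lit 27) 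
(.lf (nat_lit 2952994845) (dlOf (nat_lit 5) (nat_lit 0xdc00400830018001681002a0010000ae040094008000560200e8004007c00180001410033000800e000200200008080583))) 
(.lf (nat_lit 5234696221) (dlOf (nat_lit 1) (nat_lit 0x4004001000080a0a82)))) 
(.lf (nat_lit 2818782621) (dlOf (nat_lit 1) (nat_lit 0x40028129901)))) (.nd (nat_lit 21) 
(.lf (nat_lit 37953565) (dlOf (nat_lit 1) (nat_lit 0x400190f0101))) 
(.lf (nat_lit 44245021) (dlOf (nat_lit 3) (nat_lit 0x463e000e3138005541000898f80050c4e0013804000400092e0081))))) 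
(.nd (nat_lit 19) (.nd (nat_lit 7) 
(.lf (nat_lit 26419229) (dlOf (nat_lit 1) (nat_lit 0x20008c40581))) 
(.lf (nat_lit 39002269) (dlOf (nat_lit 1) (nat_lit 0xa0019190501)))) (.nd (nat_lit 22) 
(.lf (nat_lit 45817885) (dlOf (nat_lit 2) (nat_lit 0x7f2728000f8080098008002800200040009360103))) 
(.lf (nat_lit 24846365) (dlOf (nat_lit 1) (nat_lit 0x800200020008bc0982)))))) (.nd (nat_lit 19) 
(.nd (nat_lit 7) (.nd (nat_lit 27) 
(.lf (nat_lit 604184605) (dlOf (nat_lit 4) (nat_lit 0x490022000420202d80110002081000e00b0000d4080080008004c002008a0008080583))) 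
(.lf (nat_lit 4496498717) (dlOf (nat_lit 1) (nat_lit 0x1780080090002004e0008090083)))) 
(.lf (nat_lit 872621213) (dlOf (nat_lit 1) (nat_lit 0x400200020008092b82)))) (.nd (nat_lit 32) 
(.lf (nat_lit 67837981) (dlOf (nat_lit 1) (nat_lit 0x8008000400200020008310583))) 
(.lf (nat_lit 4362805277) (dlOf (nat_lit 2) (nat_lit 0x40e01980068c080168008009000200240008100483)))))) 
(.nd (nat_lit 7) (.nd (nat_lit 8) (.nd (nat_lit 9) 
(.lf (nat_lit 4496498781) (dlOf (nat_lit 4) (nat_lit 0x5c802c0002a0400f4038003401b003a00d00068060000241000a4038000c01b000c00c00004418030800801a400200c20008090703))) 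
(.lf (nat_lit 32189021) (dlOf (nat_lit 2) (nat_lit 0x6a4300012818ef5300)))) 
(.lf (nat_lit 67314013) (dlOf (nat_lit 1) (nat_lit 0x80080004002000200080b0903)))) (.nd (nat_lit 8) 
(.nd (nat_lit 9) (.lf (nat_lit 9117917) (dlOf (nat_lit 1) (nat_lit 0xa0028524201))) 
(.lf (nat_lit 2818783965) (dlOf (nat_lit 1) (nat_lit 0xc0020002000812b982)))) (.nd (nat_lit 11) 
(.lf (nat_lit 57877469) (dlOf (nat_lit 1) (nat_lit 0x800080004002000a0009792883))) 
(.lf (nat_lit 2818784221) (dlOf (nat_lit 2) (nat_lit 0x6030800301080098c08001c0040016000812bf02))))))) 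
(.nd (nat_lit 8) (.nd (nat_lit 26) (.nd (nat_lit 31) (.nd (nat_lit 28) 
(.lf (nat_lit 1073946653) (dlOf (nat_lit 2) (nat_lit 0x3a029000aa018030900))) 
(.lf (nat_lit 6174220317) (dlOf (nat_lit 3) (nat_lit 0xe00a000fe8100030058007a0080050008007800200060008090083)))) 
(.nd (nat_lit 7) (.lf (nat_lit 3491962909) (dlOf (nat_lit 1) (nat_lit 0x40028090001))) 
(.lf (nat_lit 3624086685) (dlOf (nat_lit 1) (nat_lit 0x40028146281))))) (.nd (nat_lit 28) 
(.nd (nat_lit 7) (.nd (nat_lit 10) 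
(.lf (nat_lit 5570240541) (dlOf (nat_lit 3) (nat_lit 0xe00a001090100030058007e8080050008007800200060008090083))) 
(.lf (nat_lit 1141058589) (dlOf (nat_lit 3) (nat_lit 0x24026000170100f20130000b00800400080010002000c0008096003)))) 
(.lf (nat_lit 1677928605) (dlOf (nat_lit 1) (nat_lit 0x400200020008114802)))) (.nd (nat_lit 7) 
(.nd (nat_lit 19) (.lf (nat_lit 1946361885) (dlOf (nat_lit 2) (nat_lit 0x3a029000ac818030900))) 
(.lf (nat_lit 4228587549) (dlOf (nat_lit 2) (nat_lit 0x40e0190006cc080168008009000200240008100483)))) 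
(.lf (nat_lit 3556979357) (dlOf (nat_lit 1) (nat_lit 0x20028128c81)))))) (.nd (nat_lit 6) 
(.nd (nat_lit 9) (.nd (nat_lit 10) 
(.lf (nat_lit 6241331613) (dlOf (nat_lit 1) (nat_lit 0x200280d4e81))) (.nd (nat_lit 12) 
(.lf (nat_lit 3489869213) (dlOf (nat_lit 1) (nat_lit 0x20008006d01))) 
(.lf (nat_lit 3489873309) (dlOf (nat_lit 2) (nat_lit 0x2f07e8000f204000c0040008000800ca82))))) 
(.nd (nat_lit 10) 
(.lf (nat_lit 3422761885) (dlOf (nat_lit 1) (nat_lit 0xa80080058002000200080a9103))) 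
(.lf (nat_lit 3959629725) (dlOf (nat_lit 1) (nat_lit 0x20028114281))))) (.nd (nat_lit 10) 
(.nd (nat_lit 7) 
(.lf (nat_lit 3825410397) (dlOf (nat_lit 4) (nat_lit 0x20022000100500190000000500c0020014007a0000001302002b0050000940801580080248002007e0008154e83))) 
(.nd (nat_lit 11) (.lf (nat_lit 1611342301) (dlOf (nat_lit 1) (nat_lit 0x400400060018137c82))) 
(.lf (nat_lit 3624085981) (dlOf (nat_lit 1) (nat_lit 0x20028144e81))))) (.nd (nat_lit 7) 
(.lf (nat_lit 3221437789) (dlOf (nat_lit 1) (nat_lit 0x54001811c901))) (.nd (nat_lit 27) 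
(.lf (nat_lit 3489869277) (dlOf (nat_lit 2) (nat_lit 0xe1e300019018006d80))) 
(.lf (nat_lit 3624087005) (dlOf (nat_lit 1) (nat_lit 0x400028146d81))))))))) (.nd (nat_lit 19) 
(.nd (nat_lit 21) (.nd (nat_lit 26) (.nd (nat_lit 7) (.nd (nat_lit 20) (.nd (nat_lit 27) 
(.lf (nat_lit 537337885) (dlOf (nat_lit 1) (nat_lit 0x8008000800200020008090003))) 
(.lf (nat_lit 3624345629) (dlOf (nat_lit 7) (nat_lit 0x180037008f01a80590000002ba0c025c06e010c000000ae02012101b809d8000002b208048806e027c000000ab8200120000004f4080090000002700400ac00200120008170902)))) 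
(.lf (nat_lit 56041501) (dlOf (nat_lit 2) (nat_lit 0x775a5003ba9e8013135c00500f800025049710100)))) 
(.nd (nat_lit 6) 
(.lf (nat_lit 54993053) (dlOf (nat_lit 1) (nat_lit 0x1c0008013400202380009681283))) 
(.lf (nat_lit 43459805) (dlOf (nat_lit 1) (nat_lit 0x200292a2e01))))) (.nd (nat_lit 27) 
(.nd (nat_lit 29) (.lf (nat_lit 4362543133) (dlOf (nat_lit 1) (nat_lit 0x400400020008090002))) 
(.lf (nat_lit 1678188573) (dlOf (nat_lit 1) (nat_lit 0x8004000200081a0002)))) (.nd (nat_lit 29) 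
(.lf (nat_lit 201793565) (dlOf (nat_lit 1) (nat_lit 0x800400020008090002))) 
(.lf (nat_lit 2886148125) (dlOf (nat_lit 7) (nat_lit 0x180037008f01a80590000002b00c025c06e010c000000ab82012101b809d8000002a808048806e027c000000a90200120000004f4080090000002700400ac00200120008170902)))))) 
(.nd (nat_lit 8) (.nd (nat_lit 22) (.nd (nat_lit 23) 
(.lf (nat_lit 2564125) (dlOf (nat_lit 1) (nat_lit 0x20008170a01))) 
(.lf (nat_lit 27729949) (dlOf (nat_lit 1) (nat_lit 0x8004000a0018d20682)))) (.nd (nat_lit 6) 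
(.lf (nat_lit 48701469) (dlOf (nat_lit 3) (nat_lit 0x98220004a02001ab290001d819420100))) 
(.lf (nat_lit 40313949) (dlOf (nat_lit 1) (nat_lit 0x200291f2901))))) (.nd (nat_lit 6) 
(.nd (nat_lit 23) (.lf (nat_lit 472328605) (dlOf (nat_lit 2) (nat_lit 0x207c0053e818984e80))) 
(.lf (nat_lit 44509597) (dlOf (nat_lit 1) (nat_lit 0x20019324e81)))) (.nd (nat_lit 7) 
(.lf (nat_lit 57092445) (dlOf (nat_lit 1) (nat_lit 0xc0029794e81))) 
(.lf (nat_lit 1345790429) (dlOf (nat_lit 1) (nat_lit 0x20018de7c81))))))) (.nd (nat_lit 20) 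
(.nd (nat_lit 8) (.nd (nat_lit 10) (.nd (nat_lit 21) (.nd (nat_lit 22) 
(.lf (nat_lit 59711517) (dlOf (nat_lit 1) (nat_lit 0x40029820101))) 
(.lf (nat_lit 21962781) (dlOf (nat_lit 2) (nat_lit 0x50b6400049004000800400040008a80902)))) 
(.lf (nat_lit 11477021) (dlOf (nat_lit 1) (nat_lit 0x10004000800086a0602)))) (.nd (nat_lit 7) 
(.lf (nat_lit 4094635037) (dlOf (nat_lit 1) (nat_lit 0x400200020008056002))) 
(.lf (nat_lit 2754555037) (dlOf (nat_lit 1) (nat_lit 0x200280f6281))))) (.nd (nat_lit 26) 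
(.nd (nat_lit 6) (.lf (nat_lit 1345265949) (dlOf (nat_lit 1) (nat_lit 0x400400060018b28002))) 
(.lf (nat_lit 3490652509) (dlOf (nat_lit 1) (nat_lit 0x100028014e81)))) (.nd (nat_lit 7) 
(.lf (nat_lit 2754554205) (dlOf (nat_lit 1) (nat_lit 0x4004000200080f4e82))) 
(.lf (nat_lit 472850909) (dlOf (nat_lit 3) (nat_lit 0x40b28001e80800c05940000004000400400ba0018b17c82)))))) 
(.nd (nat_lit 6) (.nd (nat_lit 24) (.nd (nat_lit 7) (.nd (nat_lit 9) 
(.lf (nat_lit 473899037) (dlOf (nat_lit 2) (nat_lit 0xf84e40005e040098004003c0008fc0102))) 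
(.lf (nat_lit 2755600925) (dlOf (nat_lit 2) (nat_lit 0x405c0007c02000c00081b0d81)))) 
(.lf (nat_lit 41886877) (dlOf (nat_lit 2) (nat_lit 0x1d484000880200240009242b81)))) 
(.nd (nat_lit 21) (.nd (nat_lit 23) 
(.lf (nat_lit 52371485) (dlOf (nat_lit 1) (nat_lit 0x2800400280019530102))) 
(.lf (nat_lit 27205661) (dlOf (nat_lit 1) (nat_lit 0x40028cc0681)))) 
(.lf (nat_lit 20914205) (dlOf (nat_lit 2) (nat_lit 0x70000000760400b000200b400089f0102))))) 
(.nd (nat_lit 8) (.nd (nat_lit 10) 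
(.lf (nat_lit 473899101) (dlOf (nat_lit 4) (nat_lit 0xaa20200380d0007d053002642960122142010106b808703580134194011c0b70068057807501ec01c0050010e000000058d00660a60046035c000120801b0298011a0d70063014800300000000010018000400340008fc0882))) 
(.lf (nat_lit 50275421) (dlOf (nat_lit 1) (nat_lit 0x200194c2901)))) (.nd (nat_lit 11) 
(.lf (nat_lit 2040157) (dlOf (nat_lit 1) (nat_lit 0x500080014002000a0008150683))) 
(.lf (nat_lit 58665309) (dlOf (nat_lit 1) (nat_lit 0x180080004002000400097e4e83))))))))) 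
(.nd (nat_lit 30) (.nd (nat_lit 18) (.nd (nat_lit 6) (.nd (nat_lit 19) (.nd (nat_lit 26) 
(.nd (nat_lit 9) 
(.lf (nat_lit 6442655805) (dlOf (nat_lit 2) (nat_lit 0x18007400c0025006000d00300060002ac10000c00400100018120d02))) 
(.lf (nat_lit 3087213117) (dlOf (nat_lit 1) (nat_lit 0x160018158b01)))) (.nd (nat_lit 8) 
(.lf (nat_lit 2752716861) (dlOf (nat_lit 8) (nat_lit 0x707f401f83ce001430400161e70006c81000b0f380033c08005879c0019c0401683ce000cd0200781e70006601000b0f380032c0802b8008017800200140008030d03))) 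
(.lf (nat_lit 6509767997) (dlOf (nat_lit 1) (nat_lit 0x2880028146901))))) (.nd (nat_lit 8) 
(.nd (nat_lit 7) (.nd (nat_lit 26) 
(.lf (nat_lit 134946877) (dlOf (nat_lit 3) (nat_lit 0x780450010b81004200780310000000000801f8002000800080e0d82))) 
(.lf (nat_lit 202055741) (dlOf (nat_lit 3) (nat_lit 0x780450010a01004200700310000000000801f8002000800080e0d82)))) 
(.lf (nat_lit 8073917) (dlOf (nat_lit 1) (nat_lit 0x400200020008518c82)))) (.nd (nat_lit 20) 
(.lf (nat_lit 46866749) (dlOf (nat_lit 2) (nat_lit 0x539f0000780800780080018002000c0009380b83))) 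
(.lf (nat_lit 20652349) (dlOf (nat_lit 1) (nat_lit 0x1800289d0b81)))))) (.nd (nat_lit 7) 
(.nd (nat_lit 9) (.nd (nat_lit 8) 
(.lf (nat_lit 2684564605) (dlOf (nat_lit 3) (nat_lit 0x50190013a40800700c8009b00401bc004005000180a9502))) 
(.lf (nat_lit 4764935549) (dlOf (nat_lit 1) (nat_lit 0x400400020008093582)))) (.nd (nat_lit 10) 
(.lf (nat_lit 54209149) (dlOf (nat_lit 4) (nat_lit 0x498800064940002302000924a000114080019310000700400f8004002e0009655402))) 
(.lf (nat_lit 61548157) (dlOf (nat_lit 1) (nat_lit 0x38008002000200060009923983))))) 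
(.nd (nat_lit 11) (.nd (nat_lit 8) 
(.lf (nat_lit 2617455869) (dlOf (nat_lit 3) (nat_lit 0x60000000940800080000004604003c002000a00080a9582))) 
(.lf (nat_lit 3087213053) (dlOf (nat_lit 5) (nat_lit 0x20400b00a8004805880000005c0c03c801601a200900d00000000b41801f802c0004e0401100160002602016c0028157e01)))) 
(.nd (nat_lit 9) (.nd (nat_lit 19) 
(.lf (nat_lit 39004669) (dlOf (nat_lit 2) (nat_lit 0x449200004819194f80))) 
(.lf (nat_lit 37431805) (dlOf (nat_lit 1) (nat_lit 0x20002000800090d4f82)))) 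
(.lf (nat_lit 738405373) (dlOf (nat_lit 1) (nat_lit 0x18008001800200020008095f03))))))) 
(.nd (nat_lit 20) (.nd (nat_lit 6) (.nd (nat_lit 29) (.nd (nat_lit 19) (.nd (nat_lit 21) 
(.lf (nat_lit 6442917949) (dlOf (nat_lit 2) (nat_lit 0x400e8002004a001001a000800c000260200008008000400200020008220b83))) 
(.lf (nat_lit 48701501) (dlOf (nat_lit 1) (nat_lit 0xc0009420601)))) 
(.lf (nat_lit 21962813) (dlOf (nat_lit 3) (nat_lit 0xe458002f0e00014d040073916003cc3800050c1000a8008013c00200260008a80d03)))) 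
(.nd (nat_lit 8) (.nd (nat_lit 27) 
(.lf (nat_lit 3020365885) (dlOf (nat_lit 1) (nat_lit 0x600282a0a01))) 
(.lf (nat_lit 738664509) (dlOf (nat_lit 1) (nat_lit 0x30008001c002000e00080d0483)))) 
(.lf (nat_lit 805773629) (dlOf (nat_lit 1) (nat_lit 0x200281a0581))))) (.nd (nat_lit 7) 
(.nd (nat_lit 8) (.nd (nat_lit 19) 
(.lf (nat_lit 4362543229) (dlOf (nat_lit 3) (nat_lit 0x440660021102003c03300107818090080))) 
(.lf (nat_lit 19865725) (dlOf (nat_lit 1) (nat_lit 0x8100080128002033200089d0283)))) 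
(.lf (nat_lit 2550604157) (dlOf (nat_lit 1) (nat_lit 0x1a400081b0781)))) 
(.lf (nat_lit 8860925) (dlOf (nat_lit 1) (nat_lit 0x80018519581))))) (.nd (nat_lit 19) 
(.nd (nat_lit 21) (.nd (nat_lit 22) 
(.lf (nat_lit 9904189) (dlOf (nat_lit 5) (nat_lit 0x17169140b9b4860061a410016d1f801c68ec002747200799dc002b587030bd22817e690c005747e0005a3b000fd1c8015a82818ce9140aeb486000fa410008d1d8001e8e400073b8005690c062fa4502c0d218002e904001f476000fa390006cee0015a03017780080550002059e0008591683))) 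
(.lf (nat_lit 47652925) (dlOf (nat_lit 1) (nat_lit 0xb20019400001)))) (.nd (nat_lit 9) 
(.lf (nat_lit 62332989) (dlOf (nat_lit 1) (nat_lit 0x2800199a0001))) 
(.lf (nat_lit 2755076669) (dlOf (nat_lit 1) (nat_lit 0x380018108201))))) (.nd (nat_lit 6) 
(.nd (nat_lit 7) (.lf (nat_lit 473899069) (dlOf (nat_lit 2) (nat_lit 0x80d800123818fc0600))) 
(.lf (nat_lit 2753503677) (dlOf (nat_lit 2) (nat_lit 0x207440000004001000400100018090882)))) 
(.nd (nat_lit 8) (.nd (nat_lit 9) 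
(.lf (nat_lit 8336509) (dlOf (nat_lit 1) (nat_lit 0x400200020008519502))) 
(.lf (nat_lit 43984509) (dlOf (nat_lit 1) (nat_lit 0x4004000200192a3982)))) 
(.lf (nat_lit 8337277) (dlOf (nat_lit 1) (nat_lit 0x11000800040020034000851a303)))))))) 
(.nd (nat_lit 26) (.nd (nat_lit 6) (.nd (nat_lit 7) (.nd (nat_lit 18) (.nd (nat_lit 20) 
(.lf (nat_lit 1346576445) (dlOf (nat_lit 1) (nat_lit 0x1400200300008fd0782))) 
(.lf (nat_lit 3490914365) (dlOf (nat_lit 8) (nat_lit 0x707ac01f83a4001430400161d20006c81000b0e900033c0800587480019c0401683a4000cd0200781d20006601000b0e900032c0802b8008017800200140008030d03)))) 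
(.nd (nat_lit 31) 
(.lf (nat_lit 1611079741) (dlOf (nat_lit 1) (nat_lit 0x30008001c002000e00080d0483))) 
(.lf (nat_lit 3758563389) (dlOf (nat_lit 1) (nat_lit 0x600282a0a01))))) (.nd (nat_lit 10) 
(.nd (nat_lit 8) (.lf (nat_lit 1879253181) (dlOf (nat_lit 1) (nat_lit 0x8002000200080c0382))) 
(.lf (nat_lit 1611342269) (dlOf (nat_lit 1) (nat_lit 0x8008000400200020008137a83)))) 
(.nd (nat_lit 11) (.lf (nat_lit 1344742589) (dlOf (nat_lit 2) (nat_lit 0x20750000e018982c80))) 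
(.lf (nat_lit 3489873085) (dlOf (nat_lit 1) (nat_lit 0x40040002000800c202)))))) (.nd (nat_lit 28) 
(.nd (nat_lit 7) (.nd (nat_lit 8) 
(.lf (nat_lit 3355653245) (dlOf (nat_lit 1) (nat_lit 0x200180a9501))) (.nd (nat_lit 9) 
(.lf (nat_lit 3221433725) (dlOf (nat_lit 1) (nat_lit 0x40008116c01))) 
(.lf (nat_lit 3892524925) (dlOf (nat_lit 1) (nat_lit 0x2a800804c400202a8000815a303))))) 
(.nd (nat_lit 8) (.lf (nat_lit 3221433597) (dlOf (nat_lit 1) (nat_lit 0x20008116601))) 
(.lf (nat_lit 5905786877) (dlOf (nat_lit 1) (nat_lit 0x20028144701))))) (.nd (nat_lit 10) 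
(.nd (nat_lit 9) (.lf (nat_lit 3490130301) (dlOf (nat_lit 1) (nat_lit 0x400400020018004e82))) 
(.lf (nat_lit 5771832189) (dlOf (nat_lit 1) (nat_lit 0x140028005c01)))) (.nd (nat_lit 7) 
(.lf (nat_lit 3489869181) (dlOf (nat_lit 1) (nat_lit 0x20028006c01))) 
(.lf (nat_lit 3489869309) (dlOf (nat_lit 1) (nat_lit 0x10008000400200060008006f83))))))) 
(.nd (nat_lit 27) (.nd (nat_lit 7) (.nd (nat_lit 6) (.nd (nat_lit 8) (.nd (nat_lit 9) 
(.lf (nat_lit 3557236797) (dlOf (nat_lit 2) (nat_lit 0x800000028604005800200300008170482))) 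
(.lf (nat_lit 3556979261) (dlOf (nat_lit 1) (nat_lit 0x20028128981)))) 
(.lf (nat_lit 1678188861) (dlOf (nat_lit 1) (nat_lit 0x200281a0581)))) (.nd (nat_lit 11) 
(.lf (nat_lit 3556980093) (dlOf (nat_lit 1) (nat_lit 0x20018129901))) 
(.lf (nat_lit 1409498493) (dlOf (nat_lit 1) (nat_lit 0x2002800c901))))) (.nd (nat_lit 8) 
(.nd (nat_lit 11) (.lf (nat_lit 4096467133) (dlOf (nat_lit 1) (nat_lit 0x20028111701))) 
(.lf (nat_lit 3556980925) (dlOf (nat_lit 1) (nat_lit 0x3440020126000812a882)))) (.nd (nat_lit 6) 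
(.lf (nat_lit 3556981181) (dlOf (nat_lit 1) (nat_lit 0xc0020002000812af82))) 
(.lf (nat_lit 1141058557) (dlOf (nat_lit 5) (nat_lit 0x18098000940403c004c0003f0201860260001f0100e30130000f4080038008000400200200008095f03)))))) 
(.nd (nat_lit 18) (.nd (nat_lit 6) (.nd (nat_lit 31) 
(.lf (nat_lit 5838676029) (dlOf (nat_lit 2) (nat_lit 0x18007400c0025006000d00300060002ac10000c00400100018120d02))) 
(.lf (nat_lit 3691192381) (dlOf (nat_lit 1) (nat_lit 0x9000280a0901)))) (.nd (nat_lit 9) 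
(.lf (nat_lit 6377119869) (dlOf (nat_lit 1) (nat_lit 0x4004000200080a2002))) 
(.lf (nat_lit 6375548541) (dlOf (nat_lit 2) (nat_lit 0x2c1520001a818003980))))) (.nd (nat_lit 6) 
(.nd (nat_lit 7) (.nd (nat_lit 29) 
(.lf (nat_lit 5838938173) (dlOf (nat_lit 2) (nat_lit 0x400e8002004a001001a000800c000260200008008000400200020008220b83))) 
(.lf (nat_lit 4228325437) (dlOf (nat_lit 1) (nat_lit 0x20004000e0018090002)))) 
(.lf (nat_lit 4228325565) (dlOf (nat_lit 2) (nat_lit 0x580b00002404000400400060018090382)))) 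
(.lf (nat_lit 4228325501) (dlOf (nat_lit 3) (nat_lit 0x44064001fc02003c032000fd018090080)))))))))) 
(.nd (nat_lit 5) (.nd (nat_lit 4) (.nd (nat_lit 18) (.nd (nat_lit 6) (.nd (nat_lit 26) 
(.nd (nat_lit 20) (.nd (nat_lit 29) (.nd (nat_lit 19) (.nd (nat_lit 9) (.nd (nat_lit 21) 
(.lf (nat_lit 1342414861) (dlOf (nat_lit 5) (nat_lit 0x721238006b008006891c003540401c848e001a8020014247000d3818020480))) 
(.lf (nat_lit 44277773) (dlOf (nat_lit 1) (nat_lit 0x1c400092e0001)))) 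
(.lf (nat_lit 2550374925) (dlOf (nat_lit 2) (nat_lit 0x150027010b013006a0084002ca0c003c00400040018090d82)))) 
(.nd (nat_lit 23) 
(.lf (nat_lit 3492519949) (dlOf (nat_lit 2) (nat_lit 0x1503da0007c02000200180d0481))) 
(.nd (nat_lit 24) (.lf (nat_lit 11247629) (dlOf (nat_lit 1) (nat_lit 0x20018680101))) 
(.lf (nat_lit 28024845) (dlOf (nat_lit 1) (nat_lit 0x90008002400200320008d50183)))))) 
(.nd (nat_lit 30) (.nd (nat_lit 9) (.nd (nat_lit 19) 
(.lf (nat_lit 939761677) (dlOf (nat_lit 1) (nat_lit 0xc00200040008170482))) 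
(.lf (nat_lit 2819334157) (dlOf (nat_lit 1) (nat_lit 0x38008002000200120008240283)))) 
(.lf (nat_lit 5234730509) (dlOf (nat_lit 1) (nat_lit 0x200080d3681)))) (.nd (nat_lit 9) 
(.nd (nat_lit 10) 
(.lf (nat_lit 2013503501) (dlOf (nat_lit 1) (nat_lit 0x4e00080044002023c00080c0003))) 
(.lf (nat_lit 5905818637) (dlOf (nat_lit 2) (nat_lit 0x4012805128080018008001000200020008142883)))) 
(.lf (nat_lit 4026769933) (dlOf (nat_lit 2) (nat_lit 0xf4020000a6818090d80)))))) (.nd (nat_lit 21) 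
(.nd (nat_lit 23) (.nd (nat_lit 19) 
(.lf (nat_lit 18063373) (dlOf (nat_lit 1) (nat_lit 0x20018900581))) 
(.lf (nat_lit 22781965) (dlOf (nat_lit 2) (nat_lit 0x22b700006c040014004000a0008b20102)))) 
(.nd (nat_lit 7) (.lf (nat_lit 43230221) (dlOf (nat_lit 1) (nat_lit 0x180080020002000c00092a2883))) 
(.lf (nat_lit 9675149) (dlOf (nat_lit 1) (nat_lit 0x200028575d81))))) (.nd (nat_lit 7) 
(.nd (nat_lit 9) (.lf (nat_lit 62103565) (dlOf (nat_lit 1) (nat_lit 0x20019950001))) 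
(.lf (nat_lit 41132557) (dlOf (nat_lit 1) (nat_lit 0x120029227b01)))) (.nd (nat_lit 8) 
(.lf (nat_lit 50046093) (dlOf (nat_lit 1) (nat_lit 0x6400294c2b01))) 
(.lf (nat_lit 20689805) (dlOf (nat_lit 1) (nat_lit 0x80080010002000200089d9003))))))) 
(.nd (nat_lit 27) (.nd (nat_lit 19) (.nd (nat_lit 7) (.nd (nat_lit 9) 
(.lf (nat_lit 1141088269) (dlOf (nat_lit 1) (nat_lit 0x4e00080044002023c00080c0003))) 
(.lf (nat_lit 3288572429) (dlOf (nat_lit 3) (nat_lit 0x7c010008ec064055c02b02300120068007c0a6801a008c000000b287006700580039008024800802f4002003e0008090d83)))) 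
(.lf (nat_lit 2483265677) (dlOf (nat_lit 2) (nat_lit 0x2c01e0003b02000e0028090101)))) 
(.nd (nat_lit 7) (.nd (nat_lit 9) 
(.lf (nat_lit 2754322445) (dlOf (nat_lit 2) (nat_lit 0x1503fe0007c02000200180d0481))) 
(.lf (nat_lit 4362841613) (dlOf (nat_lit 1) (nat_lit 0x20028117081)))) 
(.lf (nat_lit 4362840461) (dlOf (nat_lit 1) (nat_lit 0xb4004006c0008114e82))))) (.nd (nat_lit 7) 
(.nd (nat_lit 10) (.nd (nat_lit 28) 
(.lf (nat_lit 1812176909) (dlOf (nat_lit 1) (nat_lit 0xc00200040008170482))) 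
(.lf (nat_lit 469999629) (dlOf (nat_lit 6) (nat_lit 0x1c0123800908f00029c08057048e0014c0200042470009001000312380047808000891c002360401b400400340018020482)))) 
(.lf (nat_lit 1275307021) (dlOf (nat_lit 1) (nat_lit 0xa0004000200080e2882)))) (.nd (nat_lit 8) 
(.lf (nat_lit 2349047949) (dlOf (nat_lit 3) (nat_lit 0xd80a4000760400100440003602005e0008090101))) 
(.lf (nat_lit 473147789) (dlOf (nat_lit 1) (nat_lit 0x400400020008d14e82))))))) (.nd (nat_lit 20) 
(.nd (nat_lit 27) (.nd (nat_lit 24) (.nd (nat_lit 26) (.nd (nat_lit 7) (.nd (nat_lit 32) 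
(.lf (nat_lit 268673101) (dlOf (nat_lit 1) (nat_lit 0x900080044002000400080e0003))) 
(.lf (nat_lit 4563640397) (dlOf (nat_lit 4) (nat_lit 0x16019003100b400b402a000c01200019840023016800c80ac000803600c20120001904002b016800200480006208039c004001c00080b0602)))) 
(.lf (nat_lit 6174253261) (dlOf (nat_lit 1) (nat_lit 0xa00180d0881)))) (.nd (nat_lit 10) 
(.lf (nat_lit 3020136525) (dlOf (nat_lit 1) (nat_lit 0x20008130181))) 
(.lf (nat_lit 3557012557) (dlOf (nat_lit 1) (nat_lit 0x98002000a0008129302))))) (.nd (nat_lit 9) 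
(.lf (nat_lit 59482189) (dlOf (nat_lit 2) (nat_lit 0xb0cf6005c664002e2c90013139400c89a6000360a00100029800681))) 
(.lf (nat_lit 23306829) (dlOf (nat_lit 1) (nat_lit 0xa4002000e0008b81182))))) (.nd (nat_lit 8) 
(.nd (nat_lit 26) (.nd (nat_lit 28) 
(.lf (nat_lit 6040035405) (dlOf (nat_lit 1) (nat_lit 0x800180b0001))) 
(.lf (nat_lit 4697858125) (dlOf (nat_lit 4) (nat_lit 0x16019003100b400b402a000c01200019040023016800c80ac000803600c20120001884002b016800200480006008039c004001c00080b0602)))) 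
(.lf (nat_lit 5570273357) (dlOf (nat_lit 1) (nat_lit 0xc004000200180d0002)))) (.nd (nat_lit 7) 
(.lf (nat_lit 738437965) (dlOf (nat_lit 1) (nat_lit 0x20028095c01))) (.nd (nat_lit 9) 
(.lf (nat_lit 5234730445) (dlOf (nat_lit 1) (nat_lit 0x400280d3601))) 
(.lf (nat_lit 2885919693) (dlOf (nat_lit 1) (nat_lit 0x48008001c00200f80008142883))))))) 
(.nd (nat_lit 9) (.nd (nat_lit 22) (.nd (nat_lit 8) 
(.lf (nat_lit 6376628301) (dlOf (nat_lit 1) (nat_lit 0x8008000400200020008090003))) 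
(.lf (nat_lit 9675085) (dlOf (nat_lit 1) (nat_lit 0x3e0008574c81)))) (.nd (nat_lit 7) 
(.lf (nat_lit 24354893) (dlOf (nat_lit 1) (nat_lit 0x240008b90f01))) 
(.lf (nat_lit 14393549) (dlOf (nat_lit 1) (nat_lit 0x20028750481))))) (.nd (nat_lit 8) 
(.nd (nat_lit 19) (.lf (nat_lit 36940365) (dlOf (nat_lit 1) (nat_lit 0x20019075281))) 
(.lf (nat_lit 62630477) (dlOf (nat_lit 1) (nat_lit 0x4002000400099a5282)))) (.nd (nat_lit 7) 
(.lf (nat_lit 20163405) (dlOf (nat_lit 1) (nat_lit 0x4002000200089d5c02))) 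
(.lf (nat_lit 58434509) (dlOf (nat_lit 1) (nat_lit 0x4000197e2881)))))))) (.nd (nat_lit 6) 
(.nd (nat_lit 20) (.nd (nat_lit 7) (.nd (nat_lit 22) (.nd (nat_lit 27) (.nd (nat_lit 21) 
(.lf (nat_lit 2416418829) (dlOf (nat_lit 5) (nat_lit 0x401200050088003803c001801a00ae608000801200030088003803c001801a00ae508001401200090088002803c001401a00ae408001401200090088002803c001001a00ae308000400081c0681))) 
(.lf (nat_lit 69705741) (dlOf (nat_lit 1) (nat_lit 0x20028bc0181)))) (.nd (nat_lit 9) 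
(.lf (nat_lit 2550636557) (dlOf (nat_lit 5) (nat_lit 0x401200050088003803c001801a0056b08000801200030088003803c001801a0056a08001401200090088002803c001401a0056908001401200090088002803c001001a0056808000400081c0681))) 
(.lf (nat_lit 1745330701) (dlOf (nat_lit 1) (nat_lit 0x20018117b01))))) (.nd (nat_lit 19) 
(.lf (nat_lit 48734221) (dlOf (nat_lit 2) (nat_lit 0x8aa4001d10080020008000400200140009420003))) 
(.nd (nat_lit 25) 
(.lf (nat_lit 13606925) (dlOf (nat_lit 3) (nat_lit 0x52de20013b0200036f10009c818730480))) 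
(.lf (nat_lit 47161357) (dlOf (nat_lit 1) (nat_lit 0x3e00293b0001)))))) (.nd (nat_lit 8) 
(.nd (nat_lit 30) (.nd (nat_lit 9) 
(.lf (nat_lit 23568525) (dlOf (nat_lit 2) (nat_lit 0x47b4a00015a3400ced0600116130025afe000400000007618003c00400060018b80102))) 
(.lf (nat_lit 42968717) (dlOf (nat_lit 1) (nat_lit 0x200192a3a01)))) (.nd (nat_lit 26) 
(.lf (nat_lit 3221725325) (dlOf (nat_lit 2) (nat_lit 0x400000000004000400200340008170102))) 
(.lf (nat_lit 3959922829) (dlOf (nat_lit 2) (nat_lit 0x400000000004000400200340008170102))))) 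
(.nd (nat_lit 11) (.nd (nat_lit 21) 
(.lf (nat_lit 1342677389) (dlOf (nat_lit 1) (nat_lit 0x200180c0781))) 
(.lf (nat_lit 1881645453) (dlOf (nat_lit 1) (nat_lit 0x5800200060008f95d82)))) 
(.lf (nat_lit 4563904909) (dlOf (nat_lit 1) (nat_lit 0xc00400020008124e82)))))) (.nd (nat_lit 21) 
(.nd (nat_lit 23) (.nd (nat_lit 7) (.nd (nat_lit 19) 
(.lf (nat_lit 4095189005) (dlOf (nat_lit 1) (nat_lit 0x800200060008070002))) 
(.lf (nat_lit 1881120781) (dlOf (nat_lit 1) (nat_lit 0x50800402540008e20002)))) 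
(.lf (nat_lit 51882381) (dlOf (nat_lit 1) (nat_lit 0x9000400720009514e82)))) (.nd (nat_lit 22) 
(.lf (nat_lit 9936909) (dlOf (nat_lit 1) (nat_lit 0x400200020008590082))) 
(.lf (nat_lit 30908429) (dlOf (nat_lit 2) (nat_lit 0x4b040001b204000800200020008e50582))))) 
(.nd (nat_lit 19) (.nd (nat_lit 9) 
(.lf (nat_lit 2755108877) (dlOf (nat_lit 1) (nat_lit 0x60018110481))) 
(.lf (nat_lit 58171917) (dlOf (nat_lit 1) (nat_lit 0x3e00197c7b01)))) (.nd (nat_lit 8) 
(.nd (nat_lit 23) (.lf (nat_lit 20946957) (dlOf (nat_lit 1) (nat_lit 0x80080004002000200089f0003))) 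
(.lf (nat_lit 46112781) (dlOf (nat_lit 2) (nat_lit 0xf48c0039f819380000)))) 
(.lf (nat_lit 41919757) (dlOf (nat_lit 1) (nat_lit 0x2400400060019243002))))))) (.nd (nat_lit 19) 
(.nd (nat_lit 21) (.nd (nat_lit 7) (.nd (nat_lit 20) 
(.lf (nat_lit 3892813901) (dlOf (nat_lit 6) (nat_lit 0xf00b0001800402200b0002c057007a029804401380218092000e046008901b803a00c002200420100020007700f801d806802200320024018003a0098044002801740120008c220088057001d01b802a00d8015803e00c4018005400500320024001161c021c0b0001a0570030029804400dc020404000ca01f008800c80028060021c01400b8009000448a000500c800220080030008007800200100008280183))) 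
(.lf (nat_lit 68657229) (dlOf (nat_lit 1) (nat_lit 0x28008001c00200020008660003)))) 
(.nd (nat_lit 26) 
(.lf (nat_lit 805806285) (dlOf (nat_lit 2) (nat_lit 0x480980048e040010004003200081a0482))) 
(.lf (nat_lit 1678221517) (dlOf (nat_lit 2) (nat_lit 0x480980048e040010004003200081a0482))))) 
(.nd (nat_lit 22) (.nd (nat_lit 9) 
(.lf (nat_lit 1009229901) (dlOf (nat_lit 2) (nat_lit 0x903a8000000802780080050002007000090a0683))) 
(.lf (nat_lit 53979725) (dlOf (nat_lit 1) (nat_lit 0x4002000200095f5282)))) (.nd (nat_lit 8) 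
(.lf (nat_lit 48734285) (dlOf (nat_lit 2) (nat_lit 0x1daf00000480800900080020002003c0009420683))) 
(.lf (nat_lit 23568717) (dlOf (nat_lit 2) (nat_lit 0x1b69200020018b80600)))))) (.nd (nat_lit 28) 
(.nd (nat_lit 7) (.nd (nat_lit 20) 
(.lf (nat_lit 21995597) (dlOf (nat_lit 2) (nat_lit 0x19784000220200060008a80f81))) 
(.lf (nat_lit 41918541) (dlOf (nat_lit 1) (nat_lit 0x8008000800200020009240003)))) (.nd (nat_lit 9) 
(.lf (nat_lit 42968269) (dlOf (nat_lit 1) (nat_lit 0x4002000200092a2d82))) 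
(.lf (nat_lit 19903181) (dlOf (nat_lit 1) (nat_lit 0x4002000200089d8c82))))) (.nd (nat_lit 9) 
(.nd (nat_lit 20) 
(.lf (nat_lit 1343201357) (dlOf (nat_lit 1) (nat_lit 0x8008002000200020008190703))) 
(.lf (nat_lit 473931853) (dlOf (nat_lit 1) (nat_lit 0x17c00400940008fc0682)))) (.nd (nat_lit 10) 
(.lf (nat_lit 3490685517) (dlOf (nat_lit 1) (nat_lit 0x3000201340008018b02))) 
(.lf (nat_lit 4095714893) (dlOf (nat_lit 1) (nat_lit 0x80080004002000200080e3883))))))))) 
(.nd (nat_lit 26) (.nd (nat_lit 19) (.nd (nat_lit 18) (.nd (nat_lit 28) (.nd (nat_lit 22) 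
(.nd (nat_lit 6) (.nd (nat_lit 7) 
(.lf (nat_lit 3758333981) (dlOf (nat_lit 1) (nat_lit 0x4800400220008130002))) 
(.lf (nat_lit 1610851485) (dlOf (nat_lit 1) (nat_lit 0x800400080018092b82)))) 
(.lf (nat_lit 9675101) (dlOf (nat_lit 1) (nat_lit 0x15000800f4002003c0008574e83)))) 
(.nd (nat_lit 6) (.nd (nat_lit 21) 
(.lf (nat_lit 29597725) (dlOf (nat_lit 1) (nat_lit 0x680018e20681))) 
(.lf (nat_lit 56860701) (dlOf (nat_lit 1) (nat_lit 0x40029770101)))) 
(.lf (nat_lit 24354909) (dlOf (nat_lit 2) (nat_lit 0x789e40005c0400e000400100018b91202))))) 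
(.nd (nat_lit 29) (.nd (nat_lit 7) 
(.lf (nat_lit 1342414877) (dlOf (nat_lit 3) (nat_lit 0xf02a800502020258247000c5818020480))) 
(.lf (nat_lit 5637383325) (dlOf (nat_lit 1) (nat_lit 0x7000280d2b81)))) (.nd (nat_lit 6) 
(.lf (nat_lit 939761693) (dlOf (nat_lit 2) (nat_lit 0x280980008044002300400020028170901))) 
(.lf (nat_lit 805544285) (dlOf (nat_lit 2) (nat_lit 0x205400006818124e80)))))) (.nd (nat_lit 25) 
(.nd (nat_lit 7) (.nd (nat_lit 21) (.nd (nat_lit 22) 
(.lf (nat_lit 805806109) (dlOf (nat_lit 1) (nat_lit 0x400281a0001))) 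
(.lf (nat_lit 13082653) (dlOf (nat_lit 3) (nat_lit 0x235220015a8d00005410006548800028040008004008000186f0582)))) 
(.lf (nat_lit 2596893) (dlOf (nat_lit 3) (nat_lit 0xe910000f4840005a400004d1f000368e8001347000099db003e8070003d20001f3c0800700080040002003a0008170a03)))) 
(.nd (nat_lit 8) (.lf (nat_lit 1881645213) (dlOf (nat_lit 1) (nat_lit 0x800200800008f91282))) 
(.lf (nat_lit 1342677405) (dlOf (nat_lit 1) (nat_lit 0xa00180c0781))))) (.nd (nat_lit 22) 
(.nd (nat_lit 7) (.lf (nat_lit 36151325) (dlOf (nat_lit 2) (nat_lit 0xc0980003b02002e0029030101))) 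
(.lf (nat_lit 44542365) (dlOf (nat_lit 1) (nat_lit 0x8008002800200020009324e83)))) (.nd (nat_lit 6) 
(.lf (nat_lit 48734237) (dlOf (nat_lit 10) (nat_lit 0x26e9f0018f1a200df73c007eac10038bfdc01d9efe00dcf2c0002507000fc688095dcf4049eb0400b4ff700ee7bf80010c2802f5cf400084040302e7a000410201136b80001f810040b5c0000f808024dcec0007a0400b2e7a00876ba0001d82006daa30000000804a80080108002004e0009420103))) 
(.lf (nat_lit 40346717) (dlOf (nat_lit 1) (nat_lit 0x200291f2901))))))) (.nd (nat_lit 20) 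
(.nd (nat_lit 8) (.nd (nat_lit 6) (.nd (nat_lit 22) 
(.lf (nat_lit 537632797) (dlOf (nat_lit 4) (nat_lit 0x5b0052001198101860290008c40813801480045e040010004000e00080e0482))) 
(.lf (nat_lit 21733405) (dlOf (nat_lit 4) (nat_lit 0x381d2001fd0200440e9000fe01001a0748007e80805c8008041000200180008a60a83)))) 
(.nd (nat_lit 10) (.nd (nat_lit 11) 
(.lf (nat_lit 59482205) (dlOf (nat_lit 8) (nat_lit 0x5219f80003a0404fccfc00e266700712ca8000701805d99f80003604007ccfc0038667001d2ca8000601803099f40150cf800cc66600533328033965000b0b2600b84e6003426a00002c40004165000012040014cfa000866600062ca000000180420008010c002002e0009800883))) 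
(.lf (nat_lit 3492788317) (dlOf (nat_lit 3) (nat_lit 0x503d8008540800281ec00400040024002001000080fa782)))) 
(.lf (nat_lit 34317405) (dlOf (nat_lit 1) (nat_lit 0x60028fb2901))))) (.nd (nat_lit 7) 
(.nd (nat_lit 6) (.lf (nat_lit 3490685213) (dlOf (nat_lit 1) (nat_lit 0xe0002013c0008014002))) 
(.lf (nat_lit 3490685277) (dlOf (nat_lit 1) (nat_lit 0x6000200080008014e82)))) (.nd (nat_lit 21) 
(.lf (nat_lit 38511581) (dlOf (nat_lit 1) (nat_lit 0x1800200f40009132882))) 
(.lf (nat_lit 36414429) (dlOf (nat_lit 1) (nat_lit 0x20019072881)))))) (.nd (nat_lit 6) 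
(.nd (nat_lit 7) (.nd (nat_lit 18) 
(.lf (nat_lit 45850653) (dlOf (nat_lit 2) (nat_lit 0x98f8f00021819360100))) (.nd (nat_lit 21) 
(.lf (nat_lit 10461213) (dlOf (nat_lit 1) (nat_lit 0x4004000200185e0b82))) 
(.lf (nat_lit 4169757) (dlOf (nat_lit 1) (nat_lit 0x400400020008290002))))) (.nd (nat_lit 8) 
(.lf (nat_lit 37725341) (dlOf (nat_lit 1) (nat_lit 0x10004000a00190d2b82))) 
(.lf (nat_lit 58698141) (dlOf (nat_lit 1) (nat_lit 0x4002000200097e4e82))))) (.nd (nat_lit 8) 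
(.nd (nat_lit 7) (.lf (nat_lit 58433629) (dlOf (nat_lit 1) (nat_lit 0x2e00297e0081))) 
(.lf (nat_lit 8107229) (dlOf (nat_lit 1) (nat_lit 0x400400020008519502)))) (.nd (nat_lit 9) 
(.lf (nat_lit 46113117) (dlOf (nat_lit 2) (nat_lit 0x2800000084040074004001c0009380e02))) 
(.lf (nat_lit 8107869) (dlOf (nat_lit 1) (nat_lit 0x40020002000851a302)))))))) (.nd (nat_lit 28) 
(.nd (nat_lit 6) (.nd (nat_lit 19) (.nd (nat_lit 10) (.nd (nat_lit 18) 
(.lf (nat_lit 1812176925) (dlOf (nat_lit 2) (nat_lit 0x280980008044002480400020028170901))) 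
(.lf (nat_lit 2753011741) (dlOf (nat_lit 1) (nat_lit 0x3c00200460008070602)))) (.nd (nat_lit 11) 
(.lf (nat_lit 2751702045) (dlOf (nat_lit 1) (nat_lit 0x60028002881))) 
(.lf (nat_lit 738438173) (dlOf (nat_lit 1) (nat_lit 0x20018096001))))) (.nd (nat_lit 7) 
(.nd (nat_lit 8) 
(.lf (nat_lit 2753273885) (dlOf (nat_lit 1) (nat_lit 0x8008000400200020008090003))) 
(.lf (nat_lit 2752487709) (dlOf (nat_lit 1) (nat_lit 0xe0002013c0008014002)))) (.nd (nat_lit 9) 
(.lf (nat_lit 67875229) (dlOf (nat_lit 1) (nat_lit 0x40018338381))) 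
(.lf (nat_lit 67876765) (dlOf (nat_lit 1) (nat_lit 0x2001833a301)))))) (.nd (nat_lit 7) 
(.nd (nat_lit 8) (.nd (nat_lit 10) 
(.lf (nat_lit 5570273373) (dlOf (nat_lit 1) (nat_lit 0x4004000200080d0082))) 
(.lf (nat_lit 604480605) (dlOf (nat_lit 2) (nat_lit 0x44048000d002000200282d2901)))) 
(.lf (nat_lit 67876701) (dlOf (nat_lit 1) (nat_lit 0x2001833a301)))) (.nd (nat_lit 9) 
(.nd (nat_lit 8) (.lf (nat_lit 67876061) (dlOf (nat_lit 1) (nat_lit 0x400400020008339502))) 
(.lf (nat_lit 2751707613) (dlOf (nat_lit 1) (nat_lit 0xa0008009c002002c000800b283)))) 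
(.nd (nat_lit 11) (.lf (nat_lit 604480477) (dlOf (nat_lit 1) (nat_lit 0x200182d2881))) 
(.lf (nat_lit 738438109) (dlOf (nat_lit 1) (nat_lit 0xa0028095e01))))))) (.nd (nat_lit 27) 
(.nd (nat_lit 29) (.nd (nat_lit 8) (.nd (nat_lit 6) 
(.lf (nat_lit 1410048029) (dlOf (nat_lit 4) (nat_lit 0x5b0052001198101860290008c40813801480045e040010004000e00080e0482))) 
(.lf (nat_lit 335781981) (dlOf (nat_lit 1) (nat_lit 0x200080a1981)))) (.nd (nat_lit 7) 
(.lf (nat_lit 1409524061) (dlOf (nat_lit 2) (nat_lit 0x900000008c0800200080134002000c0008014e83))) 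
(.lf (nat_lit 1409524189) (dlOf (nat_lit 1) (nat_lit 0x40008017181))))) (.nd (nat_lit 19) 
(.nd (nat_lit 7) (.lf (nat_lit 872915229) (dlOf (nat_lit 1) (nat_lit 0x40008108001))) 
(.lf (nat_lit 872653981) (dlOf (nat_lit 1) (nat_lit 0x20008000400200020008092b83)))) 
(.nd (nat_lit 20) (.lf (nat_lit 4096499741) (dlOf (nat_lit 1) (nat_lit 0x400200020008120082))) 
(.lf (nat_lit 4095451165) (dlOf (nat_lit 1) (nat_lit 0x19000800f4002007400080b0a83)))))) 
(.nd (nat_lit 18) (.nd (nat_lit 31) (.nd (nat_lit 19) 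
(.lf (nat_lit 469999645) (dlOf (nat_lit 3) (nat_lit 0xf02a800a970202582470007d818020480))) 
(.lf (nat_lit 1009491997) (dlOf (nat_lit 2) (nat_lit 0x800eb000218191a0100)))) (.nd (nat_lit 30) 
(.lf (nat_lit 2617483293) (dlOf (nat_lit 1) (nat_lit 0x80080004002000200080c0703))) 
(.lf (nat_lit 3691225117) (dlOf (nat_lit 1) (nat_lit 0x800180b0481))))) (.nd (nat_lit 7) 
(.nd (nat_lit 19) (.lf (nat_lit 1009229853) (dlOf (nat_lit 2) (nat_lit 0x4e0890001f8190a0100))) 
(.lf (nat_lit 473931805) (dlOf (nat_lit 2) (nat_lit 0x5050c0005e0400d400400400008fc0102)))) 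
(.lf (nat_lit 472361373) (dlOf (nat_lit 1) (nat_lit 0x800400020008984e82))))))))) (.nd (nat_lit 4) 
(.nd (nat_lit 18) (.nd (nat_lit 19) (.nd (nat_lit 8) (.nd (nat_lit 7) (.nd (nat_lit 9) 
(.nd (nat_lit 27) (.nd (nat_lit 30) 
(.lf (nat_lit 4563640365) (dlOf (nat_lit 1) (nat_lit 0x3c004000200080b0402))) 
(.lf (nat_lit 1342414893) (dlOf (nat_lit 8) (nat_lit 0x891c000aa0403b448e004c23c000290200871238001440804e091c000a00403bc48e002c23c0001a0200531238000cc08012891c000640400f800400560018020582)))) 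
(.nd (nat_lit 26) (.lf (nat_lit 4697858093) (dlOf (nat_lit 1) (nat_lit 0x3c004000200080b0402))) 
(.lf (nat_lit 469999661) (dlOf (nat_lit 8) (nat_lit 0x891c000aa0403b448e004c23c000290200871238001440804e091c000a00403bc48e002c23c0001a0200531238000cc08012891c000640400f800400560018020582))))) 
(.nd (nat_lit 10) 
(.lf (nat_lit 805544493) (dlOf (nat_lit 4) (nat_lit 0x804b0001201001d028800480e8000400800740a2000404b000d01d00007c180068008004800200140008128003))) 
(.lf (nat_lit 2754850349) (dlOf (nat_lit 3) (nat_lit 0x20074000a80400400400004e02000400180f7181))))) 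
(.nd (nat_lit 9) (.nd (nat_lit 10) (.nd (nat_lit 26) 
(.lf (nat_lit 4026769581) (dlOf (nat_lit 1) (nat_lit 0x60018090301))) 
(.lf (nat_lit 3288572077) (dlOf (nat_lit 1) (nat_lit 0x60018090301)))) 
(.lf (nat_lit 55813293) (dlOf (nat_lit 1) (nat_lit 0x800800c0002002600096d2c03)))) (.nd (nat_lit 6) 
(.lf (nat_lit 6509801133) (dlOf (nat_lit 1) (nat_lit 0x20008147281))) 
(.lf (nat_lit 57912045) (dlOf (nat_lit 1) (nat_lit 0x400200020009795a02)))))) (.nd (nat_lit 6) 
(.nd (nat_lit 9) (.nd (nat_lit 7) (.nd (nat_lit 11) 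
(.lf (nat_lit 1008967981) (dlOf (nat_lit 10) (nat_lit 0x2a0630000b0100150318000540800a818c0001c0400100c60000d0200280630000601000403180002c0800e0398004c0c6002605f0000303001703180001008008018c0000004003400400240019000b02))) 
(.lf (nat_lit 2751707437) (dlOf (nat_lit 1) (nat_lit 0x22800801140020094000800ab83)))) 
(.lf (nat_lit 537108909) (dlOf (nat_lit 1) (nat_lit 0x400400060008017182)))) (.nd (nat_lit 26) 
(.lf (nat_lit 6308473645) (dlOf (nat_lit 1) (nat_lit 0xb80080040002000200080d5c03))) 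
(.lf (nat_lit 6241364781) (dlOf (nat_lit 1) (nat_lit 0x200080164002000200080d5c03))))) 
(.nd (nat_lit 7) (.nd (nat_lit 26) 
(.lf (nat_lit 6308473709) (dlOf (nat_lit 1) (nat_lit 0x4004000200080d5c02))) 
(.lf (nat_lit 5570276205) (dlOf (nat_lit 1) (nat_lit 0x80080004002000200080d5c03)))) 
(.nd (nat_lit 20) (.nd (nat_lit 26) 
(.lf (nat_lit 4026769901) (dlOf (nat_lit 2) (nat_lit 0x22a032001401200004c1001780080014002007c0008090d03))) 
(.lf (nat_lit 3288572397) (dlOf (nat_lit 2) (nat_lit 0x22a03200140120000501001780080014002007c0008090d03)))) 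
(.lf (nat_lit 9675245) (dlOf (nat_lit 1) (nat_lit 0x2400400080018577d02))))))) (.nd (nat_lit 20) 
(.nd (nat_lit 6) (.nd (nat_lit 12) (.nd (nat_lit 24) (.nd (nat_lit 21) 
(.lf (nat_lit 3557531693) (dlOf (nat_lit 17) (nat_lit 0x140680005f02000c07800080390004018400280bc0018042000901f8001543000381e000200e40008061000702f00040108002007e000540c0004078000a03900040184001c0bc0010042000901f8001483000381c8001c0c2000a05e000a021000400fc000a21400040f00004072000703080030108000981000240e40010061000802f00048108001c07e0004b0a0006060000202e800114100010180001c0ba0003f04000c05b000c01b800100d800140680003308000c06f000802d800400d800180680003208000406f000802d800300d800180680003108000a06f000602d800280e0001c06e000c036000501a0000c0300010168000100400080dc001205a0000382000c037800380d00000608001000400080018240802))) 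
(.lf (nat_lit 472621101) (dlOf (nat_lit 2) (nat_lit 0x30a68000380800280080014002000800089d0983)))) 
(.nd (nat_lit 22) 
(.lf (nat_lit 59482157) (dlOf (nat_lit 5) (nat_lit 0x9533f004499f0022ccce0102665008f2ca801c1398023c9a8000240e009467e004233e0025199c0100cca009a595004a26a00008c3002019f800fccce0001504008e67e003f33e001f999c00f0cca0080595003f26a00003c3001b0008003c00200260009800283))) 
(.lf (nat_lit 21733421) (dlOf (nat_lit 3) (nat_lit 0x213b0000601001809d8000200802600080074002006a0008a60d03))))) 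
(.nd (nat_lit 7) (.lf (nat_lit 67876397) (dlOf (nat_lit 1) (nat_lit 0x400400020008339c02))) 
(.lf (nat_lit 67874989) (dlOf (nat_lit 1) (nat_lit 0x40018337d81))))) (.nd (nat_lit 7) 
(.nd (nat_lit 8) (.lf (nat_lit 19641965) (dlOf (nat_lit 1) (nat_lit 0xa400089d9c81))) 
(.lf (nat_lit 202095469) (dlOf (nat_lit 1) (nat_lit 0x3e00180fbc81)))) (.nd (nat_lit 9) 
(.lf (nat_lit 69968109) (dlOf (nat_lit 1) (nat_lit 0x38008000400200020008e21e83))) 
(.lf (nat_lit 67871469) (dlOf (nat_lit 1) (nat_lit 0x8008000400200020008332103)))))) 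
(.nd (nat_lit 21) (.nd (nat_lit 22) (.nd (nat_lit 23) 
(.lf (nat_lit 1343987757) (dlOf (nat_lit 1) (nat_lit 0x20018390b01))) 
(.lf (nat_lit 10199085) (dlOf (nat_lit 1) (nat_lit 0x80080004002000200085c0c03)))) 
(.lf (nat_lit 22781997) (dlOf (nat_lit 4) (nat_lit 0x656e0002ab68019da0800155b80002ada0067602000756e0002ab68019c608000800400260018b20782)))) 
(.nd (nat_lit 6) (.nd (nat_lit 24) 
(.lf (nat_lit 45850669) (dlOf (nat_lit 3) (nat_lit 0x1f5ae40004804000ed70000190200020009360281))) 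
(.lf (nat_lit 29073453) (dlOf (nat_lit 2) (nat_lit 0xb4ff000174080018008006800200080008db0e03)))) 
(.nd (nat_lit 8) (.lf (nat_lit 8102637) (dlOf (nat_lit 1) (nat_lit 0x400400020008512102))) 
(.lf (nat_lit 50045933) (dlOf (nat_lit 1) (nat_lit 0xa00294c2881)))))))) (.nd (nat_lit 21) 
(.nd (nat_lit 28) (.nd (nat_lit 19) (.nd (nat_lit 20) (.nd (nat_lit 23) (.nd (nat_lit 7) 
(.lf (nat_lit 1678221357) (dlOf (nat_lit 4) (nat_lit 0xae015800fae04013c0ac007d60200ac056003ea8181a0000))) 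
(.lf (nat_lit 1745330605) (dlOf (nat_lit 3) (nat_lit 0x70228003010c004800000b01060002045000101f002be81001180080034002002c0008116e83)))) 
(.nd (nat_lit 6) 
(.lf (nat_lit 13082669) (dlOf (nat_lit 4) (nat_lit 0x55260000b010006a8f80001408002547c0000804001c002000200086f0d82))) 
(.lf (nat_lit 42442861) (dlOf (nat_lit 1) (nat_lit 0x8008000400200020009251c03))))) 
(.nd (nat_lit 24) (.nd (nat_lit 25) 
(.lf (nat_lit 2753011757) (dlOf (nat_lit 3) (nat_lit 0x1a021c000560400a416205a0087009403d000088180098008020400200080008070803))) 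
(.lf (nat_lit 35102765) (dlOf (nat_lit 1) (nat_lit 0x40008000400200020008fd0283)))) 
(.nd (nat_lit 7) (.lf (nat_lit 30908461) (dlOf (nat_lit 1) (nat_lit 0x160008e50b01))) 
(.lf (nat_lit 51881133) (dlOf (nat_lit 1) (nat_lit 0x100029512c01)))))) (.nd (nat_lit 22) 
(.nd (nat_lit 8) 
(.lf (nat_lit 17801261) (dlOf (nat_lit 2) (nat_lit 0x7a26000000080050008000c002000c00088f0e03))) 
(.lf (nat_lit 2752487725) (dlOf (nat_lit 1) (nat_lit 0x8008024400201740008014903)))) 
(.nd (nat_lit 23) (.lf (nat_lit 21995565) (dlOf (nat_lit 1) (nat_lit 0x6400200560008a80c02))) 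
(.lf (nat_lit 13606957) (dlOf (nat_lit 1) (nat_lit 0x400200020008730b02)))))) (.nd (nat_lit 6) 
(.nd (nat_lit 7) (.nd (nat_lit 8) 
(.lf (nat_lit 3491209261) (dlOf (nat_lit 2) (nat_lit 0x2182dc0014000000280400040018070901))) 
(.lf (nat_lit 3490685229) (dlOf (nat_lit 1) (nat_lit 0x8008024400201740008014903)))) 
(.nd (nat_lit 11) (.lf (nat_lit 805806509) (dlOf (nat_lit 1) (nat_lit 0x14004003800081a0782))) 
(.lf (nat_lit 3490163117) (dlOf (nat_lit 1) (nat_lit 0x20018004e81))))) (.nd (nat_lit 7) 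
(.nd (nat_lit 27) 
(.lf (nat_lit 2416418925) (dlOf (nat_lit 3) (nat_lit 0x20090000dc0800100480006c040020004001a00081c1502))) 
(.lf (nat_lit 2550636653) (dlOf (nat_lit 3) (nat_lit 0x20090000dc0800100480006c040020004001a00081c1502)))) 
(.lf (nat_lit 1476897517) (dlOf (nat_lit 1) (nat_lit 0x200282d5a01)))))) (.nd (nat_lit 19) 
(.nd (nat_lit 24) (.nd (nat_lit 6) (.nd (nat_lit 25) 
(.lf (nat_lit 15179821) (dlOf (nat_lit 2) (nat_lit 0x895970035ecb6010965a007ea7e000d52c400e462e000540c001400287c0681))) 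
(.lf (nat_lit 48734253) (dlOf (nat_lit 4) (nat_lit 0x1aa380009008001551c0004604001aa8c0001902000c0019420281)))) 
(.lf (nat_lit 1344775149) (dlOf (nat_lit 2) (nat_lit 0x140e60066c0200040018982881)))) 
(.nd (nat_lit 8) (.nd (nat_lit 20) 
(.lf (nat_lit 19374125) (dlOf (nat_lit 1) (nat_lit 0x40018990b01))) 
(.lf (nat_lit 24617005) (dlOf (nat_lit 1) (nat_lit 0x800803e0002009c0008ba0a03)))) 
(.lf (nat_lit 23568685) (dlOf (nat_lit 1) (nat_lit 0xc0008b80501))))) (.nd (nat_lit 7) 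
(.nd (nat_lit 20) (.nd (nat_lit 8) 
(.lf (nat_lit 24093229) (dlOf (nat_lit 12) (nat_lit 0x9c2f0000fc08003e1780006f880003d04000f85e0001b010005c2f0000df100006808001b0bc00037c400015020006c2f00008c0800361780004004001b0bc0001e02000985e00006010006c2f00002408003e1780000004001400400040018b80e82))) 
(.lf (nat_lit 3492788525) (dlOf (nat_lit 1) (nat_lit 0x80080008002000200080fab83)))) 
(.nd (nat_lit 6) 
(.lf (nat_lit 473931821) (dlOf (nat_lit 5) (nat_lit 0xe6158001b0a28039833c000160c004419e0000a02005a0cf000040100240ac0024833c0000008036400400180008fc0282))) 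
(.lf (nat_lit 12558445) (dlOf (nat_lit 1) (nat_lit 0x4004000200086d1502))))) (.nd (nat_lit 8) 
(.lf (nat_lit 36676781) (dlOf (nat_lit 1) (nat_lit 0x800200040009072c02))) 
(.lf (nat_lit 49260973) (dlOf (nat_lit 1) (nat_lit 0x20009464e81)))))))) (.nd (nat_lit 6) 
(.nd (nat_lit 18) (.nd (nat_lit 19) (.nd (nat_lit 28) (.nd (nat_lit 20) (.nd (nat_lit 27) 
(.lf (nat_lit 4295204925) (dlOf (nat_lit 1) (nat_lit 0x4004000200080b0c02))) 
(.lf (nat_lit 4429422653) (dlOf (nat_lit 1) (nat_lit 0x4004000200080b0c02)))) (.nd (nat_lit 7) 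
(.lf (nat_lit 20163901) (dlOf (nat_lit 1) (nat_lit 0x8800289d6901))) 
(.lf (nat_lit 13869245) (dlOf (nat_lit 1) (nat_lit 0x20018750381))))) (.nd (nat_lit 26) 
(.nd (nat_lit 22) 
(.lf (nat_lit 1342414909) (dlOf (nat_lit 2) (nat_lit 0x6892400043c80001c04002c0008020701))) 
(.lf (nat_lit 1346609213) (dlOf (nat_lit 1) (nat_lit 0x8008016000200020008fe0003)))) 
(.nd (nat_lit 21) 
(.lf (nat_lit 469999677) (dlOf (nat_lit 2) (nat_lit 0x6892400043c80001d04002c0008020701))) 
(.lf (nat_lit 1008967741) (dlOf (nat_lit 4) (nat_lit 0xb0308005017c00e8808002c0c2001405f003a182000d0308006017c00e7408003800400220019000002)))))) 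
(.nd (nat_lit 12) (.nd (nat_lit 7) (.nd (nat_lit 8) 
(.lf (nat_lit 59482173) (dlOf (nat_lit 3) (nat_lit 0x8cfa0008594000aa02000933d800819900040b24000940600020029800601))) 
(.lf (nat_lit 473669949) (dlOf (nat_lit 2) (nat_lit 0x21180003d818f97c80)))) 
(.lf (nat_lit 9150653) (dlOf (nat_lit 1) (nat_lit 0x400200020008523302)))) (.nd (nat_lit 10) 
(.nd (nat_lit 21) (.lf (nat_lit 67875133) (dlOf (nat_lit 2) (nat_lit 0xa0dc00012018338180))) 
(.lf (nat_lit 19640637) (dlOf (nat_lit 1) (nat_lit 0x2600289d8181)))) 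
(.lf (nat_lit 19643709) (dlOf (nat_lit 1) (nat_lit 0x4002000600089dc902)))))) (.nd (nat_lit 7) 
(.nd (nat_lit 21) (.nd (nat_lit 8) (.nd (nat_lit 19) 
(.lf (nat_lit 4362575933) (dlOf (nat_lit 1) (nat_lit 0xe0028090001))) 
(.lf (nat_lit 13606973) (dlOf (nat_lit 2) (nat_lit 0xae318000a8080080008007000200a80008730b83)))) 
(.lf (nat_lit 604480829) (dlOf (nat_lit 1) (nat_lit 0x200182d3281)))) (.nd (nat_lit 8) 
(.nd (nat_lit 22) (.lf (nat_lit 1009229885) (dlOf (nat_lit 1) (nat_lit 0x68004003400090a0602))) 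
(.lf (nat_lit 23568445) (dlOf (nat_lit 1) (nat_lit 0x80018b80001)))) 
(.lf (nat_lit 40346941) (dlOf (nat_lit 1) (nat_lit 0x800191f3281))))) (.nd (nat_lit 8) 
(.nd (nat_lit 9) (.nd (nat_lit 10) 
(.lf (nat_lit 23568573) (dlOf (nat_lit 3) (nat_lit 0x26b3e8000c808009da440002404002c00400100008b80382))) 
(.lf (nat_lit 1881121981) (dlOf (nat_lit 1) (nat_lit 0x400400120018e22c82)))) (.nd (nat_lit 10) 
(.lf (nat_lit 6376368829) (dlOf (nat_lit 1) (nat_lit 0x400200020008095782))) 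
(.lf (nat_lit 19902141) (dlOf (nat_lit 1) (nat_lit 0x3400189d7281))))) (.nd (nat_lit 10) 
(.nd (nat_lit 19) 
(.lf (nat_lit 1745330621) (dlOf (nat_lit 1) (nat_lit 0x18008000400200040008117003))) 
(.lf (nat_lit 42967485) (dlOf (nat_lit 1) (nat_lit 0x1400292a1081)))) 
(.lf (nat_lit 4095714749) (dlOf (nat_lit 1) (nat_lit 0x600080e3601))))))) (.nd (nat_lit 8) 
(.nd (nat_lit 19) (.nd (nat_lit 18) (.nd (nat_lit 7) (.nd (nat_lit 26) (.nd (nat_lit 10) 
(.lf (nat_lit 9674877) (dlOf (nat_lit 2) (nat_lit 0x2b48a0013a410012cee000080180098008006400200b20008570d03))) 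
(.lf (nat_lit 2684597373) (dlOf (nat_lit 1) (nat_lit 0x8008000c002000400080a9503)))) 
(.nd (nat_lit 27) 
(.lf (nat_lit 2483265661) (dlOf (nat_lit 12) (nat_lit 0x26008000d0038003f8080070020003400e000fd82002f00800118038003f408000c020005600e000f682002400800048038003d808008001c001ea02007e010002700700079c100108038003cc04008001c001e502005a010002b00700078c1000f803c002ca0405a4002001a0008090082))) 
(.lf (nat_lit 2349047933) (dlOf (nat_lit 7) (nat_lit 0x80a8004220400240200020f02002c02a001300a800808100150040010401c001f904000202a000a00800020038003ea0c000c0540015702039c0028090081))))) 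
(.nd (nat_lit 10) (.lf (nat_lit 22257917) (dlOf (nat_lit 1) (nat_lit 0x400200020008ab7102))) 
(.lf (nat_lit 2684597501) (dlOf (nat_lit 1) (nat_lit 0x200180a9581))))) (.nd (nat_lit 29) 
(.nd (nat_lit 9) (.nd (nat_lit 21) 
(.lf (nat_lit 3221725309) (dlOf (nat_lit 1) (nat_lit 0x40018170081))) 
(.lf (nat_lit 23568509) (dlOf (nat_lit 2) (nat_lit 0x2f13c800780080060008001800200160008b80083)))) 
(.lf (nat_lit 8889981) (dlOf (nat_lit 2) (nat_lit 0x883cf00000018513980)))) (.nd (nat_lit 11) 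
(.nd (nat_lit 21) (.lf (nat_lit 3959922813) (dlOf (nat_lit 1) (nat_lit 0x40018170081))) 
(.lf (nat_lit 1881645181) (dlOf (nat_lit 1) (nat_lit 0x140008f90c81)))) 
(.lf (nat_lit 1946658941) (dlOf (nat_lit 2) (nat_lit 0x101f0000d00800280080008002000600080f4783)))))) 
(.nd (nat_lit 11) (.nd (nat_lit 9) (.nd (nat_lit 20) 
(.lf (nat_lit 5774221437) (dlOf (nat_lit 1) (nat_lit 0x400200040008123582))) 
(.lf (nat_lit 6004861) (dlOf (nat_lit 1) (nat_lit 0x20028420481)))) 
(.lf (nat_lit 53192317) (dlOf (nat_lit 1) (nat_lit 0x40029573981)))) (.nd (nat_lit 26) 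
(.nd (nat_lit 9) (.lf (nat_lit 134981757) (dlOf (nat_lit 2) (nat_lit 0x404a0001c0180f4780))) 
(.lf (nat_lit 19638909) (dlOf (nat_lit 1) (nat_lit 0x2200089d5401)))) (.nd (nat_lit 12) 
(.lf (nat_lit 4228622461) (dlOf (nat_lit 1) (nat_lit 0x20028114781))) 
(.lf (nat_lit 67876989) (dlOf (nat_lit 1) (nat_lit 0x6002833a881))))))) (.nd (nat_lit 29) 
(.nd (nat_lit 21) (.nd (nat_lit 18) (.nd (nat_lit 7) 
(.lf (nat_lit 67876733) (dlOf (nat_lit 1) (nat_lit 0x8001833a301))) 
(.lf (nat_lit 3288572413) (dlOf (nat_lit 2) (nat_lit 0xe400b0006e018090d80)))) (.nd (nat_lit 11) 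
(.lf (nat_lit 42967421) (dlOf (nat_lit 1) (nat_lit 0x6c00292a1001))) 
(.lf (nat_lit 3490163069) (dlOf (nat_lit 1) (nat_lit 0x20018004e81))))) (.nd (nat_lit 10) 
(.nd (nat_lit 11) (.lf (nat_lit 11772285) (dlOf (nat_lit 1) (nat_lit 0x32c004003000186c0782))) 
(.lf (nat_lit 8108413) (dlOf (nat_lit 1) (nat_lit 0x40040002000851af02)))) (.nd (nat_lit 9) 
(.lf (nat_lit 61580669) (dlOf (nat_lit 1) (nat_lit 0x8008000400200020009923583))) 
(.lf (nat_lit 8370045) (dlOf (nat_lit 1) (nat_lit 0x40020002000851a302)))))) (.nd (nat_lit 7) 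
(.nd (nat_lit 10) (.nd (nat_lit 26) 
(.lf (nat_lit 805544317) (dlOf (nat_lit 1) (nat_lit 0x20002004e0008125a82))) 
(.lf (nat_lit 1677959549) (dlOf (nat_lit 1) (nat_lit 0x20002004e0008125a82)))) (.nd (nat_lit 9) 
(.nd (nat_lit 27) (.lf (nat_lit 4832077181) (dlOf (nat_lit 1) (nat_lit 0x200280d3581))) 
(.lf (nat_lit 5234730365) (dlOf (nat_lit 1) (nat_lit 0x4004000200080d3582)))) 
(.lf (nat_lit 3892557693) (dlOf (nat_lit 1) (nat_lit 0x40020002000815a302))))) (.nd (nat_lit 18) 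
(.nd (nat_lit 27) (.lf (nat_lit 4026769917) (dlOf (nat_lit 2) (nat_lit 0xe400b0006e818090d80))) 
(.lf (nat_lit 671326717) (dlOf (nat_lit 1) (nat_lit 0x40008001400200060008157e03)))) 
(.lf (nat_lit 2752487933) (dlOf (nat_lit 2) (nat_lit 0x60164000150200040028017e01)))))))))))

end

end Pool.Agent.Lib.MP_5854e1_co.Cz

namespace Pool.Agent.Lib.MP_5854e1_co.Cz

noncomputable section

noncomputable def tz64 : DT := (.nd (nat_lit 17) (.nd (nat_lit 18) (.nd (nat_lit 16) 
(.nd (nat_lit 8) (.nd (nat_lit 3) (.nd (nat_lit 26) (.nd (nat_lit 22) (.nd (nat_lit 6) 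
(.nd (nat_lit 29) (.nd (nat_lit 19) 
(.lf (nat_lit 25182208) (dlOf (nat_lit 1) (nat_lit 0x800400020008be0002))) 
(.lf (nat_lit 1074282496) (dlOf (nat_lit 1) (nat_lit 0xa00181b0001)))) (.nd (nat_lit 28) 
(.lf (nat_lit 1611153408) (dlOf (nat_lit 3) (nat_lit 0x6033006eec08008000000000040054002006000080f0002))) 
(.lf (nat_lit 805847040) (dlOf (nat_lit 4) (nat_lit 0x400000068d00802c0000034620400580000000002001000081c0001))))) 
(.nd (nat_lit 11) (.nd (nat_lit 21) 
(.lf (nat_lit 805847104) (dlOf (nat_lit 2) (nat_lit 0x5800b8000640800380080020002004000081c0c83))) 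
(.lf (nat_lit 3492298816) (dlOf (nat_lit 3) (nat_lit 0x1e03ce0014a0201621e7000000180c1400)))) 
(.nd (nat_lit 10) (.lf (nat_lit 3492829248) (dlOf (nat_lit 1) (nat_lit 0x400180fa681))) 
(.lf (nat_lit 2550156352) (dlOf (nat_lit 1) (nat_lit 0x1c0028006081)))))) (.nd (nat_lit 20) 
(.nd (nat_lit 6) (.nd (nat_lit 21) 
(.lf (nat_lit 55066624) (dlOf (nat_lit 1) (nat_lit 0x1000296a0001))) 
(.lf (nat_lit 15220736) (dlOf (nat_lit 2) (nat_lit 0x20eea0066702000200287c0001)))) 
(.lf (nat_lit 3494395968) (dlOf (nat_lit 2) (nat_lit 0x700000004e04003000200160008211782)))) 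
(.nd (nat_lit 9) (.nd (nat_lit 19) 
(.lf (nat_lit 30425088) (dlOf (nat_lit 1) (nat_lit 0x34004000c0008e30002))) 
(.lf (nat_lit 30949376) (dlOf (nat_lit 1) (nat_lit 0x1e0018e50001)))) 
(.lf (nat_lit 33049088) (dlOf (nat_lit 1) (nat_lit 0x20008f54f81)))))) (.nd (nat_lit 6) 
(.nd (nat_lit 27) (.nd (nat_lit 19) 
(.lf (nat_lit 68173824) (dlOf (nat_lit 1) (nat_lit 0x2e0028430001))) (.nd (nat_lit 28) 
(.lf (nat_lit 1678262272) (dlOf (nat_lit 4) (nat_lit 0x400000076640802c000003b2c0400580000000002001000081c0001))) 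
(.lf (nat_lit 1946697728) (dlOf (nat_lit 1) (nat_lit 0xa00181b0001))))) (.nd (nat_lit 10) 
(.nd (nat_lit 20) 
(.lf (nat_lit 738738176) (dlOf (nat_lit 3) (nat_lit 0x603300610808008000000000040054002006000080f0002))) 
(.lf (nat_lit 471351296) (dlOf (nat_lit 1) (nat_lit 0x4004001000082e0002)))) 
(.lf (nat_lit 3691009024) (dlOf (nat_lit 2) (nat_lit 0x3e0180021c018009200))))) (.nd (nat_lit 9) 
(.nd (nat_lit 30) (.nd (nat_lit 21) 
(.lf (nat_lit 4362616896) (dlOf (nat_lit 1) (nat_lit 0x10008009c002002200080b0c83))) 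
(.lf (nat_lit 2754101312) (dlOf (nat_lit 5) (nat_lit 0x8c1f50001981006c0fa8000c80801407d40006004001c3ea0002f02001c00080c1781)))) 
(.nd (nat_lit 27) 
(.lf (nat_lit 1678262336) (dlOf (nat_lit 2) (nat_lit 0x5800b8000680800380080020002004000081c0c83))) 
(.lf (nat_lit 4228399168) (dlOf (nat_lit 1) (nat_lit 0x10008009c002002200080b0c83))))) 
(.nd (nat_lit 10) (.nd (nat_lit 27) 
(.lf (nat_lit 4362099264) (dlOf (nat_lit 3) (nat_lit 0x4580cc000cc04025c06600000020094000800b481))) 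
(.lf (nat_lit 201349696) (dlOf (nat_lit 1) (nat_lit 0x40040002000800b482)))) 
(.lf (nat_lit 2754629184) (dlOf (nat_lit 2) (nat_lit 0xa00e8000000800080080060002000400080f7183))))))) 
(.nd (nat_lit 31) (.nd (nat_lit 26) (.nd (nat_lit 20) (.nd (nat_lit 28) (.nd (nat_lit 7) 
(.nd (nat_lit 21) 
(.lf (nat_lit 1611153416) (dlOf (nat_lit 3) (nat_lit 0xb015001bf40800700a800de6040014004000400080f0a02))) 
(.lf (nat_lit 15220744) (dlOf (nat_lit 2) (nat_lit 0x3723a8001f6040078004007600087c0482)))) 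
(.lf (nat_lit 8931464) (dlOf (nat_lit 1) (nat_lit 0x8008000400200080008514803)))) (.nd (nat_lit 6) 
(.lf (nat_lit 805324808) (dlOf (nat_lit 1) (nat_lit 0xc0028004701))) (.nd (nat_lit 7) 
(.lf (nat_lit 1342718536) (dlOf (nat_lit 2) (nat_lit 0xe1540001c0180c1100))) 
(.lf (nat_lit 1879069384) (dlOf (nat_lit 1) (nat_lit 0x400200020008008c82)))))) (.nd (nat_lit 21) 
(.nd (nat_lit 22) (.lf (nat_lit 26755080) (dlOf (nat_lit 1) (nat_lit 0x8008000400200020008c70283))) 
(.lf (nat_lit 22560776) (dlOf (nat_lit 1) (nat_lit 0x300008b00001)))) (.nd (nat_lit 7) 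
(.lf (nat_lit 16269320) (dlOf (nat_lit 1) (nat_lit 0x10008001800200020008880003))) 
(.lf (nat_lit 20466312) (dlOf (nat_lit 1) (nat_lit 0x200289d5481)))))) (.nd (nat_lit 19) 
(.nd (nat_lit 6) (.nd (nat_lit 12) 
(.lf (nat_lit 1543522312) (dlOf (nat_lit 1) (nat_lit 0x100080074002002a0008004703))) 
(.lf (nat_lit 4362098696) (dlOf (nat_lit 1) (nat_lit 0x48008000c002000c000800a603)))) 
(.lf (nat_lit 4362093640) (dlOf (nat_lit 1) (nat_lit 0x8800804e4002009a0008002883)))) 
(.nd (nat_lit 9) (.nd (nat_lit 28) 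
(.lf (nat_lit 738738184) (dlOf (nat_lit 3) (nat_lit 0xb01500329c0800700a801938040014004000400080f0a02))) 
(.lf (nat_lit 1007173640) (dlOf (nat_lit 1) (nat_lit 0x400400020018210282)))) (.nd (nat_lit 6) 
(.lf (nat_lit 604520968) (dlOf (nat_lit 2) (nat_lit 0xc03d000401a000380a80018040000200c0003004800180000027c1c0004004000200182e8002))) 
(.lf (nat_lit 470303304) (dlOf (nat_lit 2) (nat_lit 0xe1540001c0180c1100))))))) (.nd (nat_lit 6) 
(.nd (nat_lit 10) (.nd (nat_lit 29) (.nd (nat_lit 7) 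
(.lf (nat_lit 3624419336) (dlOf (nat_lit 1) (nat_lit 0x10004006c00081a0482))) 
(.lf (nat_lit 3221244040) (dlOf (nat_lit 1) (nat_lit 0xb40028004801)))) (.nd (nat_lit 26) 
(.lf (nat_lit 2819112968) (dlOf (nat_lit 4) (nat_lit 0x80d40013c02000606a0009d8100030350004e80802280080168002003e00081a0483))) 
(.lf (nat_lit 2886221832) (dlOf (nat_lit 1) (nat_lit 0x10004006c00081a0482))))) (.nd (nat_lit 7) 
(.nd (nat_lit 9) (.lf (nat_lit 2415936520) (dlOf (nat_lit 1) (nat_lit 0xc0028002881))) 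
(.lf (nat_lit 2617267720) (dlOf (nat_lit 2) (nat_lit 0x2c002803038080018008000800200060008009c03)))) 
(.lf (nat_lit 2281723528) (dlOf (nat_lit 1) (nat_lit 0x280028009e01))))) (.nd (nat_lit 19) 
(.nd (nat_lit 9) (.nd (nat_lit 26) 
(.lf (nat_lit 3490725960) (dlOf (nat_lit 1) (nat_lit 0x98008000400200040008020883))) 
(.lf (nat_lit 2752528456) (dlOf (nat_lit 1) (nat_lit 0x98008000400200040008020883)))) 
(.lf (nat_lit 3422569032) (dlOf (nat_lit 2) (nat_lit 0xa01b800060080020008001400200060008001583)))) 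
(.nd (nat_lit 21) 
(.lf (nat_lit 3221766216) (dlOf (nat_lit 1) (nat_lit 0x8008005c00200340008180e03))) 
(.nd (nat_lit 26) 
(.lf (nat_lit 3492298824) (dlOf (nat_lit 3) (nat_lit 0x80f38000b808002879c00058040034004009200080c1482))) 
(.lf (nat_lit 2754101320) (dlOf (nat_lit 31) (nat_lit 0x2160fc801a0548002aa0807843f2001530202561fa0007e8100220fd0003a00800387e8001a40405fc3f4000a102021c1fa0005001017f0fd000278080bf87e80013a0405fc3f40009c02027e1fa0004d0100980fd0002640805607e8001300405fc3f4000970202fe1fa0004b01017f0fd000254080c087e8001280405b83f4000930202bc1fa0004881011a0fd000224080a307e8001100401cc3f40008602011c1fa000428101660fd0002100808107e8001060402d83f40008202007a1fa0004081017f0fd000200080c987e8000e4040524494001823500cd108810f07e400883d6001c1e300080b48004054c00a42760000012141e00180c1881))))))))) 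
(.nd (nat_lit 28) (.nd (nat_lit 7) (.nd (nat_lit 3) (.nd (nat_lit 11) (.nd (nat_lit 6) 
(.nd (nat_lit 19) 
(.lf (nat_lit 40911104) (dlOf (nat_lit 2) (nat_lit 0x239f0001a0080020008000800200020009202a03))) 
(.lf (nat_lit 604520704) (dlOf (nat_lit 2) (nat_lit 0xe80fc0000004003400400cc00182e2a02)))) 
(.lf (nat_lit 1811957568) (dlOf (nat_lit 2) (nat_lit 0x2a0250001b018003e00)))) (.nd (nat_lit 6) 
(.nd (nat_lit 9) (.lf (nat_lit 2751482112) (dlOf (nat_lit 1) (nat_lit 0x400401120008004b82))) 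
(.lf (nat_lit 49826560) (dlOf (nat_lit 1) (nat_lit 0x14004000a00094c5a82)))) 
(.lf (nat_lit 19942720) (dlOf (nat_lit 1) (nat_lit 0x5200289d6901))))) (.nd (nat_lit 6) 
(.nd (nat_lit 10) (.nd (nat_lit 11) 
(.lf (nat_lit 1065224) (dlOf (nat_lit 1) (nat_lit 0x60028067c01))) 
(.lf (nat_lit 536889608) (dlOf (nat_lit 1) (nat_lit 0x20008000400200020008004b83)))) 
(.nd (nat_lit 12) 
(.lf (nat_lit 5435835656) (dlOf (nat_lit 1) (nat_lit 0x58008008800200580008002f83))) 
(.lf (nat_lit 8410376) (dlOf (nat_lit 1) (nat_lit 0x1d00080048002004a0008519603))))) 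
(.nd (nat_lit 9) (.lf (nat_lit 2113864) (dlOf (nat_lit 1) (nat_lit 0x400400020008150602))) 
(.lf (nat_lit 19942216) (dlOf (nat_lit 1) (nat_lit 0x4002000200089d5c02)))))) (.nd (nat_lit 11) 
(.nd (nat_lit 6) (.nd (nat_lit 19) (.nd (nat_lit 23) 
(.lf (nat_lit 1744847240) (dlOf (nat_lit 1) (nat_lit 0x20018001001))) 
(.lf (nat_lit 8405384) (dlOf (nat_lit 1) (nat_lit 0x800200020008511002)))) 
(.lf (nat_lit 52969864) (dlOf (nat_lit 1) (nat_lit 0x20029571001)))) (.nd (nat_lit 9) 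
(.lf (nat_lit 43008456) (dlOf (nat_lit 1) (nat_lit 0x4004000200192a1102))) 
(.lf (nat_lit 4362094536) (dlOf (nat_lit 1) (nat_lit 0xc00400140008004482))))) (.nd (nat_lit 21) 
(.nd (nat_lit 3) (.nd (nat_lit 6) 
(.lf (nat_lit 56117632) (dlOf (nat_lit 1) (nat_lit 0x420019734e81))) 
(.lf (nat_lit 2885704640) (dlOf (nat_lit 1) (nat_lit 0x52000800be01)))) 
(.lf (nat_lit 5368728520) (dlOf (nat_lit 1) (nat_lit 0x8008000400200020008005d83)))) 
(.nd (nat_lit 10) (.lf (nat_lit 36718984) (dlOf (nat_lit 1) (nat_lit 0x20019074e81))) 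
(.nd (nat_lit 24) (.lf (nat_lit 2754629000) (dlOf (nat_lit 1) (nat_lit 0x200280f6c81))) 
(.lf (nat_lit 19942792) (dlOf (nat_lit 1) (nat_lit 0x4000289d6c81)))))))) (.nd (nat_lit 9) 
(.nd (nat_lit 12) (.nd (nat_lit 3) (.nd (nat_lit 6) (.nd (nat_lit 7) 
(.lf (nat_lit 3019915520) (dlOf (nat_lit 1) (nat_lit 0x80018000a81))) 
(.lf (nat_lit 3489679744) (dlOf (nat_lit 1) (nat_lit 0x400200020008004e82)))) 
(.lf (nat_lit 3489680704) (dlOf (nat_lit 1) (nat_lit 0x800200020008006902)))) (.nd (nat_lit 6) 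
(.lf (nat_lit 2483047688) (dlOf (nat_lit 1) (nat_lit 0x18008000800200040008006683))) 
(.nd (nat_lit 7) (.lf (nat_lit 473449800) (dlOf (nat_lit 1) (nat_lit 0x400400040018f53302))) 
(.lf (nat_lit 3556787656) (dlOf (nat_lit 1) (nat_lit 0x120028003601)))))) (.nd (nat_lit 6) 
(.nd (nat_lit 7) 
(.lf (nat_lit 1476415752) (dlOf (nat_lit 1) (nat_lit 0x38008000400200020008008083))) 
(.lf (nat_lit 2550160776) (dlOf (nat_lit 1) (nat_lit 0x26001800c901)))) (.nd (nat_lit 26) 
(.nd (nat_lit 7) (.lf (nat_lit 1342201160) (dlOf (nat_lit 1) (nat_lit 0x13e001800c901))) 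
(.lf (nat_lit 1342200264) (dlOf (nat_lit 1) (nat_lit 0x4002800b001)))) (.nd (nat_lit 3) 
(.lf (nat_lit 1409310016) (dlOf (nat_lit 1) (nat_lit 0x1c002800c901))) 
(.lf (nat_lit 1409310024) (dlOf (nat_lit 2) (nat_lit 0xc814400af204003c0040002001800c902))))))) 
(.nd (nat_lit 6) (.nd (nat_lit 10) (.nd (nat_lit 12) (.nd (nat_lit 26) 
(.lf (nat_lit 2013285128) (dlOf (nat_lit 1) (nat_lit 0x20002000c0008005b02))) 
(.lf (nat_lit 5301619464) (dlOf (nat_lit 1) (nat_lit 0x880080138002004c0008005b03)))) 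
(.lf (nat_lit 469785352) (dlOf (nat_lit 1) (nat_lit 0xcc001800b981)))) (.nd (nat_lit 12) 
(.lf (nat_lit 1543522056) (dlOf (nat_lit 8) (nat_lit 0x3dc05c000240201fa02e000110100fb0170000800807f00b80003e04004005c0001d02001c02e0000d810040017000028080070008006c00200020008003b83))) 
(.lf (nat_lit 2952812296) (dlOf (nat_lit 2) (nat_lit 0x3400d001318080110008006c00200ea000800a003))))) 
(.nd (nat_lit 26) (.nd (nat_lit 10) (.nd (nat_lit 27) 
(.lf (nat_lit 6710905800) (dlOf (nat_lit 1) (nat_lit 0x8008000800200020008005d83))) 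
(.lf (nat_lit 5771381704) (dlOf (nat_lit 1) (nat_lit 0x40018005d81)))) 
(.lf (nat_lit 2952810440) (dlOf (nat_lit 3) (nat_lit 0x100e0027d4080020070013e8040004004000c0008007a82)))) 
(.nd (nat_lit 3) 
(.lf (nat_lit 1543522112) (dlOf (nat_lit 10) (nat_lit 0x52012800a007c01a80260003606008602500390110033007c0190026000340800b602e004d0060000c81001b0030000620401ac05c000402d006c0060000c01802880b800c005000a0025000d00f802a804c0005c14022c05c0114028008b0128049007c023c026011400c000168600230170002009400a003e005000c0001584001f00f8000480802b0008008c00200020008003e03))) 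
(.nd (nat_lit 29) (.lf (nat_lit 4764748744) (dlOf (nat_lit 1) (nat_lit 0x400400020008005d82))) 
(.lf (nat_lit 5301619656) (dlOf (nat_lit 5) (nat_lit 0x6401f0000880801700f8000140400c407c000060200d003e00000018005d80)))))))))) 
(.nd (nat_lit 6) (.nd (nat_lit 28) (.nd (nat_lit 19) (.nd (nat_lit 10) (.nd (nat_lit 8) 
(.nd (nat_lit 20) (.nd (nat_lit 3) 
(.lf (nat_lit 1677803520) (dlOf (nat_lit 1) (nat_lit 0x1800400080008090002))) 
(.lf (nat_lit 44122120) (dlOf (nat_lit 1) (nat_lit 0x8004000400192c0002)))) (.nd (nat_lit 22) 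
(.lf (nat_lit 17907720) (dlOf (nat_lit 1) (nat_lit 0x2e0028900581))) 
(.lf (nat_lit 13713416) (dlOf (nat_lit 1) (nat_lit 0x1c00400120008740002))))) (.nd (nat_lit 7) 
(.nd (nat_lit 9) 
(.lf (nat_lit 671172872) (dlOf (nat_lit 1) (nat_lit 0x68008004400200180008144b83))) 
(.lf (nat_lit 20007688) (dlOf (nat_lit 2) (nat_lit 0x9c8d001ce45000256780005c0c0004002000200089d5b02)))) 
(.lf (nat_lit 8470920) (dlOf (nat_lit 1) (nat_lit 0x400200020008511002))))) (.nd (nat_lit 7) 
(.nd (nat_lit 3) 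
(.lf (nat_lit 738282496) (dlOf (nat_lit 2) (nat_lit 0x681680008004005400400020018095f02))) 
(.nd (nat_lit 8) (.lf (nat_lit 6039885320) (dlOf (nat_lit 1) (nat_lit 0x100018009c01))) 
(.lf (nat_lit 1275151624) (dlOf (nat_lit 1) (nat_lit 0x8008000400200020008092f83))))) 
(.nd (nat_lit 3) (.lf (nat_lit 20010624) (dlOf (nat_lit 1) (nat_lit 0x100080004002000200089d9d83))) 
(.nd (nat_lit 8) (.nd (nat_lit 9) 
(.lf (nat_lit 2818655368) (dlOf (nat_lit 1) (nat_lit 0x400280d2b01))) 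
(.lf (nat_lit 4899030664) (dlOf (nat_lit 1) (nat_lit 0x80008053a01)))) 
(.lf (nat_lit 536954760) (dlOf (nat_lit 1) (nat_lit 0x20028004181))))))) (.nd (nat_lit 3) 
(.nd (nat_lit 20) (.nd (nat_lit 21) (.nd (nat_lit 22) 
(.lf (nat_lit 1678327808) (dlOf (nat_lit 1) (nat_lit 0x80080038002001800081e0003))) 
(.lf (nat_lit 2756263936) (dlOf (nat_lit 1) (nat_lit 0x1800400020008230002)))) 
(.lf (nat_lit 27869184) (dlOf (nat_lit 2) (nat_lit 0x12b98017ca0400a800400020008d30002)))) 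
(.nd (nat_lit 9) (.lf (nat_lit 28917760) (dlOf (nat_lit 1) (nat_lit 0x800200040008da0002))) 
(.lf (nat_lit 37308928) (dlOf (nat_lit 1) (nat_lit 0x8002000200090d4f82))))) (.nd (nat_lit 27) 
(.nd (nat_lit 7) (.nd (nat_lit 9) (.nd (nat_lit 26) 
(.lf (nat_lit 1611218952) (dlOf (nat_lit 1) (nat_lit 0x80028110001))) 
(.lf (nat_lit 4362682376) (dlOf (nat_lit 1) (nat_lit 0x78008000c002000600080d0683)))) 
(.lf (nat_lit 50938376) (dlOf (nat_lit 5) (nat_lit 0x1c546000968100042a30004080801315400028a9e0003d04002255000012a78000f0100148008024c002007a00094d8003)))) 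
(.nd (nat_lit 8) (.lf (nat_lit 23675016) (dlOf (nat_lit 1) (nat_lit 0x400200020008b80102))) 
(.lf (nat_lit 609672) (dlOf (nat_lit 1) (nat_lit 0x400400120008006c82))))) (.nd (nat_lit 26) 
(.nd (nat_lit 29) (.lf (nat_lit 134823944) (dlOf (nat_lit 1) (nat_lit 0xa8004001e00080c0802))) 
(.lf (nat_lit 2819178504) (dlOf (nat_lit 1) (nat_lit 0x80080008002000c00081d0003)))) 
(.nd (nat_lit 29) (.lf (nat_lit 201932808) (dlOf (nat_lit 1) (nat_lit 0xa8004001e00080c0802))) 
(.lf (nat_lit 738803720) (dlOf (nat_lit 1) (nat_lit 0x80028110001)))))))) (.nd (nat_lit 27) 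
(.nd (nat_lit 3) (.nd (nat_lit 11) (.nd (nat_lit 19) 
(.lf (nat_lit 805388288) (dlOf (nat_lit 1) (nat_lit 0x1800400080008090002))) (.nd (nat_lit 22) 
(.lf (nat_lit 805912576) (dlOf (nat_lit 1) (nat_lit 0x80080038002001800081e0003))) 
(.lf (nat_lit 3494461440) (dlOf (nat_lit 1) (nat_lit 0x1800400020008230002))))) (.nd (nat_lit 7) 
(.lf (nat_lit 1409371392) (dlOf (nat_lit 1) (nat_lit 0x20028006601))) (.nd (nat_lit 8) 
(.lf (nat_lit 1342265472) (dlOf (nat_lit 2) (nat_lit 0x20f38013080800580080028002000c000800a883))) 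
(.lf (nat_lit 1946242432) (dlOf (nat_lit 1) (nat_lit 0x1100028006c01)))))) (.nd (nat_lit 7) 
(.nd (nat_lit 8) (.nd (nat_lit 10) 
(.lf (nat_lit 3556854280) (dlOf (nat_lit 1) (nat_lit 0xc004000200080d5002))) 
(.lf (nat_lit 6241207816) (dlOf (nat_lit 2) (nat_lit 0x60130001d018053680)))) 
(.lf (nat_lit 4094247176) (dlOf (nat_lit 1) (nat_lit 0x400200040008027c02)))) (.nd (nat_lit 8) 
(.lf (nat_lit 1342265992) (dlOf (nat_lit 1) (nat_lit 0x50008007c0020056000800b683))) 
(.nd (nat_lit 10) (.lf (nat_lit 5100355976) (dlOf (nat_lit 1) (nat_lit 0x800400020008051002))) 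
(.lf (nat_lit 268518792) (dlOf (nat_lit 1) (nat_lit 0x40028053601))))))) (.nd (nat_lit 29) 
(.nd (nat_lit 3) (.nd (nat_lit 7) 
(.lf (nat_lit 3691069696) (dlOf (nat_lit 1) (nat_lit 0x20028010701))) (.nd (nat_lit 10) 
(.lf (nat_lit 469846144) (dlOf (nat_lit 1) (nat_lit 0x4c00400120008004782))) 
(.lf (nat_lit 5773542528) (dlOf (nat_lit 1) (nat_lit 0x4004000200080e2a82))))) (.nd (nat_lit 8) 
(.nd (nat_lit 11) 
(.lf (nat_lit 471941128) (dlOf (nat_lit 2) (nat_lit 0x111d8003640800300080004002003800086d0583))) 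
(.lf (nat_lit 3623962632) (dlOf (nat_lit 1) (nat_lit 0x20028004701)))) 
(.lf (nat_lit 3623962376) (dlOf (nat_lit 1) (nat_lit 0xc00200040008003b82))))) (.nd (nat_lit 7) 
(.nd (nat_lit 8) (.nd (nat_lit 9) 
(.lf (nat_lit 4228464648) (dlOf (nat_lit 1) (nat_lit 0x78008000c002000600080d0683))) 
(.lf (nat_lit 6375425544) (dlOf (nat_lit 1) (nat_lit 0x380018003681)))) 
(.lf (nat_lit 5234576136) (dlOf (nat_lit 1) (nat_lit 0x400200020008055b02)))) (.nd (nat_lit 3) 
(.nd (nat_lit 19) 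
(.lf (nat_lit 5301682304) (dlOf (nat_lit 2) (nat_lit 0x1403a0005102000a0008012001))) 
(.lf (nat_lit 3154722944) (dlOf (nat_lit 1) (nat_lit 0x20028310481)))) 
(.lf (nat_lit 4227943816) (dlOf (nat_lit 1) (nat_lit 0x6d400200560008006c82)))))))) 
(.nd (nat_lit 28) (.nd (nat_lit 19) (.nd (nat_lit 3) (.nd (nat_lit 20) (.nd (nat_lit 7) 
(.lf (nat_lit 14762048) (dlOf (nat_lit 1) (nat_lit 0x8c00400020008770502))) 
(.lf (nat_lit 4276416) (dlOf (nat_lit 1) (nat_lit 0xc00400060008290402)))) (.nd (nat_lit 9) 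
(.nd (nat_lit 23) 
(.lf (nat_lit 2752593984) (dlOf (nat_lit 3) (nat_lit 0x521fd001f0f38000141006807f403503ce000000400240028020781))) 
(.lf (nat_lit 26296384) (dlOf (nat_lit 1) (nat_lit 0x20018c30501)))) 
(.lf (nat_lit 20008512) (dlOf (nat_lit 1) (nat_lit 0x4c002001000089d7182))))) (.nd (nat_lit 8) 
(.nd (nat_lit 20) (.nd (nat_lit 7) 
(.lf (nat_lit 738279496) (dlOf (nat_lit 1) (nat_lit 0x40028090001))) 
(.lf (nat_lit 10567880) (dlOf (nat_lit 1) (nat_lit 0x100080008002000400085f5883)))) 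
(.nd (nat_lit 9) (.lf (nat_lit 20009032) (dlOf (nat_lit 1) (nat_lit 0x200089d7d81))) 
(.lf (nat_lit 11616840) (dlOf (nat_lit 1) (nat_lit 0x80080004002000200086c1103))))) 
(.nd (nat_lit 7) (.nd (nat_lit 10) 
(.lf (nat_lit 2755739976) (dlOf (nat_lit 1) (nat_lit 0x200081b0601))) 
(.lf (nat_lit 2818655560) (dlOf (nat_lit 1) (nat_lit 0xa00280d3301)))) 
(.lf (nat_lit 1208043976) (dlOf (nat_lit 1) (nat_lit 0x2400200280008094e82)))))) (.nd (nat_lit 29) 
(.nd (nat_lit 3) (.nd (nat_lit 7) (.nd (nat_lit 11) 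
(.lf (nat_lit 201932864) (dlOf (nat_lit 4) (nat_lit 0x3a0160001981002f00b0000c80800a005800060040104004006000180c1782))) 
(.lf (nat_lit 7948352) (dlOf (nat_lit 1) (nat_lit 0x400200020008514702)))) 
(.lf (nat_lit 8996544) (dlOf (nat_lit 1) (nat_lit 0x20028513a81)))) (.nd (nat_lit 7) 
(.nd (nat_lit 8) (.lf (nat_lit 3221831752) (dlOf (nat_lit 1) (nat_lit 0x10002000600081a1482))) 
(.lf (nat_lit 23675208) (dlOf (nat_lit 2) (nat_lit 0x470a000130080018008001c002002a0008b80603)))) 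
(.lf (nat_lit 7946696) (dlOf (nat_lit 2) (nat_lit 0x255500000018511100))))) (.nd (nat_lit 3) 
(.nd (nat_lit 22) 
(.lf (nat_lit 537477184) (dlOf (nat_lit 3) (nat_lit 0xe05f0001201001502f80008c0800b800800dc00200f200080a0d03))) 
(.lf (nat_lit 2756264000) (dlOf (nat_lit 1) (nat_lit 0x88008003400200020008230e03)))) 
(.nd (nat_lit 9) (.nd (nat_lit 21) (.nd (nat_lit 26) 
(.lf (nat_lit 537477192) (dlOf (nat_lit 1) (nat_lit 0x400280a0e81))) 
(.lf (nat_lit 3960029256) (dlOf (nat_lit 2) (nat_lit 0x808c0000002000200181a1881)))) 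
(.lf (nat_lit 2754166856) (dlOf (nat_lit 1) (nat_lit 0x6400180c1881)))) 
(.lf (nat_lit 2753118792) (dlOf (nat_lit 2) (nat_lit 0x6a1ff00013018091100))))))) (.nd (nat_lit 26) 
(.nd (nat_lit 9) (.nd (nat_lit 3) (.nd (nat_lit 19) (.nd (nat_lit 20) 
(.lf (nat_lit 1476476992) (dlOf (nat_lit 1) (nat_lit 0x20028010001))) 
(.lf (nat_lit 3490791488) (dlOf (nat_lit 3) (nat_lit 0x521eb001f0e90000141006807ac03503a4000000400240028020781)))) 
(.lf (nat_lit 3494461504) (dlOf (nat_lit 1) (nat_lit 0x88008003400200020008230e03)))) 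
(.nd (nat_lit 10) (.nd (nat_lit 8) 
(.lf (nat_lit 3492364360) (dlOf (nat_lit 1) (nat_lit 0x200280c1481))) 
(.lf (nat_lit 4563485000) (dlOf (nat_lit 2) (nat_lit 0x17806800bc01f00d200a808180480000010050000400680008090c82)))) 
(.nd (nat_lit 7) (.nd (nat_lit 32) 
(.lf (nat_lit 402736200) (dlOf (nat_lit 1) (nat_lit 0x800801b8002006e0008092883))) 
(.lf (nat_lit 4697703496) (dlOf (nat_lit 1) (nat_lit 0x8008049c00200d40008092883)))) 
(.lf (nat_lit 1342262472) (dlOf (nat_lit 1) (nat_lit 0x15000200040008006382)))))) (.nd (nat_lit 7) 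
(.nd (nat_lit 3) 
(.lf (nat_lit 3623962432) (dlOf (nat_lit 2) (nat_lit 0x380000005a040174002001a0008003e02))) 
(.nd (nat_lit 8) (.lf (nat_lit 3491316296) (dlOf (nat_lit 2) (nat_lit 0x6a1ed00013018091100))) 
(.lf (nat_lit 6174100296) (dlOf (nat_lit 1) (nat_lit 0x1a0018055c01))))) (.nd (nat_lit 8) 
(.nd (nat_lit 10) (.lf (nat_lit 1342264008) (dlOf (nat_lit 1) (nat_lit 0x800200060008008c82))) 
(.lf (nat_lit 1342262984) (dlOf (nat_lit 1) (nat_lit 0x120018007301)))) 
(.lf (nat_lit 5234576328) (dlOf (nat_lit 6) (nat_lit 0x5017000200840004c08002c060001802e00080108000841800380c0002005c00020040008030000020100080180000040800c0008000400200120008055d83)))))) 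
(.nd (nat_lit 11) (.nd (nat_lit 31) (.nd (nat_lit 10) (.nd (nat_lit 3) 
(.lf (nat_lit 474562624) (dlOf (nat_lit 2) (nat_lit 0x41430011e0191a0600))) 
(.lf (nat_lit 1409892424) (dlOf (nat_lit 2) (nat_lit 0x26017c00048040090002009600080a0e02)))) 
(.nd (nat_lit 21) (.lf (nat_lit 2080457800) (dlOf (nat_lit 1) (nat_lit 0x400400020008092882))) 
(.lf (nat_lit 6377522248) (dlOf (nat_lit 1) (nat_lit 0x4004000200080e2882))))) (.nd (nat_lit 3) 
(.lf (nat_lit 3691069504) (dlOf (nat_lit 1) (nat_lit 0x1c00200040008010002))) (.nd (nat_lit 8) 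
(.lf (nat_lit 2483110472) (dlOf (nat_lit 1) (nat_lit 0xc00400040008018802))) 
(.lf (nat_lit 3691069768) (dlOf (nat_lit 1) (nat_lit 0x780008010781)))))) (.nd (nat_lit 8) 
(.nd (nat_lit 9) (.nd (nat_lit 10) 
(.lf (nat_lit 469846216) (dlOf (nat_lit 1) (nat_lit 0x10800200080008004982))) 
(.lf (nat_lit 1409371336) (dlOf (nat_lit 1) (nat_lit 0x600080030002000e0008006383)))) 
(.lf (nat_lit 4227944136) (dlOf (nat_lit 1) (nat_lit 0x60018007301)))) (.nd (nat_lit 7) 
(.lf (nat_lit 5704338248) (dlOf (nat_lit 2) (nat_lit 0x500c800568080010008005400200340008055c03))) 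
(.nd (nat_lit 12) 
(.lf (nat_lit 5704338376) (dlOf (nat_lit 10) (nat_lit 0xa80640005a0400f40320002c02005000b0001581005d00d80248064013c0160002a0600a801b002700c8027802c000520c00fc036004800b0000302004800d801e806401400160000406008001b002d00c8021002c000040c014c036001001900460058015801c0000010020c004001e0018055d82))) 
(.lf (nat_lit 4227947464) (dlOf (nat_lit 9) (nat_lit 0x1a00c80026e04001c0640011802000a0320008801000301900043c0800080c80021c0400200640010d020002032000860100070190000000805a0008000c002000c000800be83))))))))))) 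
(.nd (nat_lit 28) (.nd (nat_lit 3) (.nd (nat_lit 6) (.nd (nat_lit 16) (.nd (nat_lit 20) 
(.nd (nat_lit 29) (.nd (nat_lit 19) (.nd (nat_lit 21) (.nd (nat_lit 26) 
(.lf (nat_lit 6442729472) (dlOf (nat_lit 1) (nat_lit 0x400281a0001))) 
(.lf (nat_lit 1141129216) (dlOf (nat_lit 1) (nat_lit 0x40028110001)))) 
(.lf (nat_lit 44318720) (dlOf (nat_lit 1) (nat_lit 0x24004000e00092f0002)))) (.nd (nat_lit 23) 
(.lf (nat_lit 17580032) (dlOf (nat_lit 1) (nat_lit 0x34004000c00088e0002))) 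
(.lf (nat_lit 9191424) (dlOf (nat_lit 1) (nat_lit 0x400200020008530002))))) (.nd (nat_lit 7) 
(.nd (nat_lit 26) (.nd (nat_lit 30) 
(.lf (nat_lit 2684633088) (dlOf (nat_lit 1) (nat_lit 0x4002000200080f0002))) 
(.lf (nat_lit 3758374912) (dlOf (nat_lit 1) (nat_lit 0x10800400280008160002)))) 
(.lf (nat_lit 1678000128) (dlOf (nat_lit 1) (nat_lit 0x800400020008130002)))) (.nd (nat_lit 8) 
(.lf (nat_lit 4832118400) (dlOf (nat_lit 1) (nat_lit 0x80080004002000200080d3983))) 
(.lf (nat_lit 4899228544) (dlOf (nat_lit 1) (nat_lit 0x1200080d5c01)))))) (.nd (nat_lit 7) 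
(.nd (nat_lit 19) (.nd (nat_lit 21) 
(.lf (nat_lit 5521408) (dlOf (nat_lit 1) (nat_lit 0x140018390001))) 
(.lf (nat_lit 3424256) (dlOf (nat_lit 4) (nat_lit 0x1ded480769408005ee6403b1e04002773201d6d0200040028200001)))) 
(.lf (nat_lit 27017216) (dlOf (nat_lit 1) (nat_lit 0x8008000400200020008ca0003)))) 
(.nd (nat_lit 10) (.lf (nat_lit 20204416) (dlOf (nat_lit 1) (nat_lit 0x4002000200089d5c02))) 
(.lf (nat_lit 8148864) (dlOf (nat_lit 1) (nat_lit 0x2001851a301)))))) (.nd (nat_lit 8) 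
(.nd (nat_lit 21) (.nd (nat_lit 22) (.nd (nat_lit 26) 
(.lf (nat_lit 671432704) (dlOf (nat_lit 2) (nat_lit 0x3008c003c0040028002000a0008190002))) 
(.lf (nat_lit 604323840) (dlOf (nat_lit 1) (nat_lit 0x20008160001)))) 
(.lf (nat_lit 2756001792) (dlOf (nat_lit 1) (nat_lit 0x80080008002008200081d0003)))) 
(.nd (nat_lit 20) (.nd (nat_lit 25) 
(.lf (nat_lit 10829824) (dlOf (nat_lit 1) (nat_lit 0x8008000400200020008630003))) 
(.lf (nat_lit 44384256) (dlOf (nat_lit 1) (nat_lit 0x400200020009300002)))) 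
(.lf (nat_lit 37044224) (dlOf (nat_lit 1) (nat_lit 0x20019080001))))) (.nd (nat_lit 7) 
(.nd (nat_lit 11) (.nd (nat_lit 20) 
(.lf (nat_lit 46481664) (dlOf (nat_lit 1) (nat_lit 0x2800400120019380a82))) 
(.lf (nat_lit 58016000) (dlOf (nat_lit 1) (nat_lit 0x80080004002000200097a2a03)))) 
(.lf (nat_lit 20273408) (dlOf (nat_lit 2) (nat_lit 0x94d60002402000200189da981)))) (.nd (nat_lit 9) 
(.lf (nat_lit 19746176) (dlOf (nat_lit 1) (nat_lit 0x2e00189d6c01))) 
(.lf (nat_lit 20269952) (dlOf (nat_lit 1) (nat_lit 0x4002000200089d5c02))))))) (.nd (nat_lit 16) 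
(.nd (nat_lit 19) (.nd (nat_lit 20) (.nd (nat_lit 26) 
(.lf (nat_lit 671367232) (dlOf (nat_lit 3) (nat_lit 0x202500030810004014000080080110008001400200e00008170d83))) 
(.lf (nat_lit 2349088832) (dlOf (nat_lit 1) (nat_lit 0x20008002c002002400080a0d03)))) 
(.nd (nat_lit 8) (.nd (nat_lit 23) 
(.lf (nat_lit 1327168) (dlOf (nat_lit 3) (nat_lit 0x5382c0029e0e3015b03880a681940001010044c2c002260e300cf06c808d80000000010003c004001a00080b0782))) 
(.lf (nat_lit 26492992) (dlOf (nat_lit 1) (nat_lit 0x1180008c50501)))) 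
(.lf (nat_lit 20204352) (dlOf (nat_lit 1) (nat_lit 0x4002000200089d5c02))))) (.nd (nat_lit 23) 
(.nd (nat_lit 7) (.nd (nat_lit 22) 
(.lf (nat_lit 802880) (dlOf (nat_lit 1) (nat_lit 0xc0028020781))) 
(.lf (nat_lit 21774400) (dlOf (nat_lit 1) (nat_lit 0x400200020008a70782)))) 
(.lf (nat_lit 19684032) (dlOf (nat_lit 1) (nat_lit 0x4002000200089db982)))) (.nd (nat_lit 20) 
(.nd (nat_lit 22) 
(.lf (nat_lit 9191488) (dlOf (nat_lit 2) (nat_lit 0xc43310062169000174100010008004400200020008530503))) 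
(.lf (nat_lit 13385792) (dlOf (nat_lit 1) (nat_lit 0x8008000400200020008721783)))) 
(.lf (nat_lit 10240064) (dlOf (nat_lit 3) (nat_lit 0x6a45000124080098b4400000040004004000200085c0d82)))))) 
(.nd (nat_lit 7) (.nd (nat_lit 19) (.nd (nat_lit 23) 
(.lf (nat_lit 3892658240) (dlOf (nat_lit 1) (nat_lit 0x20018180501))) 
(.lf (nat_lit 25509952) (dlOf (nat_lit 2) (nat_lit 0x360f8001ac60015dc08009800400060008c10002)))) 
(.nd (nat_lit 21) (.nd (nat_lit 22) 
(.lf (nat_lit 9257024) (dlOf (nat_lit 2) (nat_lit 0xf0fa000174080008008001c00200020008530503))) 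
(.lf (nat_lit 13451328) (dlOf (nat_lit 2) (nat_lit 0x500000004e040060002001c0008721782)))) 
(.lf (nat_lit 2754428992) (dlOf (nat_lit 1) (nat_lit 0x200280e0e01))))) (.nd (nat_lit 8) 
(.nd (nat_lit 10) (.lf (nat_lit 21315776) (dlOf (nat_lit 1) (nat_lit 0xe000400340008a31b02))) 
(.lf (nat_lit 58541248) (dlOf (nat_lit 2) (nat_lit 0x1a1fc00000040020004000400197e2d02)))) 
(.nd (nat_lit 11) 
(.lf (nat_lit 23413184) (dlOf (nat_lit 2) (nat_lit 0x54000000000200080008b80881))) 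
(.lf (nat_lit 51202496) (dlOf (nat_lit 1) (nat_lit 0x8008000400200020009514e83)))))))) 
(.nd (nat_lit 16) (.nd (nat_lit 6) (.nd (nat_lit 20) (.nd (nat_lit 26) (.nd (nat_lit 7) 
(.nd (nat_lit 8) (.nd (nat_lit 22) 
(.lf (nat_lit 42745864) (dlOf (nat_lit 1) (nat_lit 0x40019280001))) 
(.lf (nat_lit 13385736) (dlOf (nat_lit 1) (nat_lit 0x20008720801)))) 
(.lf (nat_lit 52708616) (dlOf (nat_lit 2) (nat_lit 0x222538004c4080090008001800200100009572f83)))) 
(.nd (nat_lit 8) (.lf (nat_lit 280712) (dlOf (nat_lit 1) (nat_lit 0x8008000c00200020008004803))) 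
(.lf (nat_lit 19680136) (dlOf (nat_lit 1) (nat_lit 0x80080004002000200089d5c03))))) 
(.nd (nat_lit 27) (.nd (nat_lit 29) (.nd (nat_lit 31) 
(.lf (nat_lit 4362354696) (dlOf (nat_lit 1) (nat_lit 0x4c00400760008030582))) 
(.lf (nat_lit 2214871048) (dlOf (nat_lit 1) (nat_lit 0x400080e0001)))) 
(.lf (nat_lit 1678000136) (dlOf (nat_lit 1) (nat_lit 0xe0008004000200180008130483)))) 
(.nd (nat_lit 8) 
(.lf (nat_lit 1812217864) (dlOf (nat_lit 2) (nat_lit 0xe0000003a4080068008003800200180008180483))) 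
(.lf (nat_lit 4496575240) (dlOf (nat_lit 4) (nat_lit 0x1101a0000b80800a00d000100660002b040028034000d0198000a81001c80080018002005a00080e5b03)))))) 
(.nd (nat_lit 19) (.nd (nat_lit 10) (.nd (nat_lit 21) (.nd (nat_lit 22) 
(.lf (nat_lit 18104328) (dlOf (nat_lit 1) (nat_lit 0x58008002c002000c0008910583))) 
(.lf (nat_lit 22298632) (dlOf (nat_lit 1) (nat_lit 0x400400020018ac0002)))) 
(.lf (nat_lit 16007176) (dlOf (nat_lit 1) (nat_lit 0xa0018850281)))) (.nd (nat_lit 7) 
(.lf (nat_lit 20204552) (dlOf (nat_lit 1) (nat_lit 0x200289d5f81))) 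
(.lf (nat_lit 20204936) (dlOf (nat_lit 1) (nat_lit 0x80080010002000e00089d6c83))))) 
(.nd (nat_lit 21) (.nd (nat_lit 24) 
(.lf (nat_lit 10240008) (dlOf (nat_lit 1) (nat_lit 0xa000085c0481))) 
(.lf (nat_lit 60571656) (dlOf (nat_lit 1) (nat_lit 0x180080024002000c00098b0003)))) 
(.nd (nat_lit 10) 
(.lf (nat_lit 29114376) (dlOf (nat_lit 2) (nat_lit 0x6553800580080008008001000200040008dc0583))) 
(.lf (nat_lit 8143880) (dlOf (nat_lit 1) (nat_lit 0x2680018512881))))))) (.nd (nat_lit 9) 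
(.nd (nat_lit 26) (.nd (nat_lit 8) (.nd (nat_lit 19) 
(.lf (nat_lit 671367240) (dlOf (nat_lit 2) (nat_lit 0x19200f80005c080028008009800200160008170f03))) 
(.lf (nat_lit 21774408) (dlOf (nat_lit 1) (nat_lit 0x400400020008a70882)))) 
(.lf (nat_lit 11813192) (dlOf (nat_lit 1) (nat_lit 0x4002000200086c0602)))) (.nd (nat_lit 27) 
(.lf (nat_lit 67387464) (dlOf (nat_lit 1) (nat_lit 0x400280f0681))) 
(.lf (nat_lit 2349088840) (dlOf (nat_lit 1) (nat_lit 0x4004000800080a0e82))))) (.nd (nat_lit 8) 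
(.nd (nat_lit 10) (.nd (nat_lit 21) 
(.lf (nat_lit 3959702088) (dlOf (nat_lit 1) (nat_lit 0x1000200040008128d02))) 
(.lf (nat_lit 23347784) (dlOf (nat_lit 1) (nat_lit 0x400200020008b81102)))) 
(.lf (nat_lit 1610892872) (dlOf (nat_lit 1) (nat_lit 0x140028093801)))) (.nd (nat_lit 7) 
(.lf (nat_lit 4496575304) (dlOf (nat_lit 2) (nat_lit 0x301a00051c0800200080010002000c00080e5c03))) 
(.nd (nat_lit 11) 
(.lf (nat_lit 50086856) (dlOf (nat_lit 1) (nat_lit 0x8800800b0002006a00094c2883))) 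
(.lf (nat_lit 4496575432) (dlOf (nat_lit 8) (nat_lit 0x40034000f019801900c8001406000220230000e85001001a000300cc00580640001b06001a034000f019801880c800640460001808005603200190110000541000580c8000280400b80640072022000088200030110000000803280080654002006000080e5d83)))))))) 
(.nd (nat_lit 19) (.nd (nat_lit 29) (.nd (nat_lit 7) (.nd (nat_lit 20) (.nd (nat_lit 6) 
(.lf (nat_lit 3288678408) (dlOf (nat_lit 1) (nat_lit 0x370008003400200e400080c0803))) 
(.lf (nat_lit 23413320) (dlOf (nat_lit 1) (nat_lit 0x400200020008b81102)))) (.nd (nat_lit 21) 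
(.lf (nat_lit 30752776) (dlOf (nat_lit 2) (nat_lit 0x948c0009c0200020018e50581))) 
(.lf (nat_lit 16072712) (dlOf (nat_lit 2) (nat_lit 0x273100536818860280))))) (.nd (nat_lit 20) 
(.nd (nat_lit 22) 
(.lf (nat_lit 1208303752) (dlOf (nat_lit 2) (nat_lit 0x2031000101800010058000460c000c004000600180c0f02))) 
(.lf (nat_lit 21315720) (dlOf (nat_lit 4) (nat_lit 0x1428a000a139000409a000283a40006a10002028a0004142000809c800304d0001c1d2000340a0010145000709c800284d0000540c004400400180018a30f02)))) 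
(.lf (nat_lit 11878536) (dlOf (nat_lit 1) (nat_lit 0x100080008002003c00086c0103))))) 
(.nd (nat_lit 26) (.nd (nat_lit 30) 
(.lf (nat_lit 671432712) (dlOf (nat_lit 2) (nat_lit 0x14046000000200480018190001))) 
(.lf (nat_lit 3892658184) (dlOf (nat_lit 1) (nat_lit 0x280008180001)))) (.nd (nat_lit 6) 
(.nd (nat_lit 10) (.lf (nat_lit 604323848) (dlOf (nat_lit 1) (nat_lit 0x400400060018160002))) 
(.lf (nat_lit 2751808520) (dlOf (nat_lit 2) (nat_lit 0x487e000082b2015d40400060018002881)))) 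
(.lf (nat_lit 2753904712) (dlOf (nat_lit 1) (nat_lit 0x4004000200080a0e82)))))) (.nd (nat_lit 21) 
(.nd (nat_lit 22) (.nd (nat_lit 20) 
(.lf (nat_lit 2819440648) (dlOf (nat_lit 1) (nat_lit 0x8004000c0018290282))) 
(.lf (nat_lit 69025800) (dlOf (nat_lit 1) (nat_lit 0x400400020008880002)))) (.nd (nat_lit 6) 
(.nd (nat_lit 23) (.lf (nat_lit 21839880) (dlOf (nat_lit 1) (nat_lit 0x800400020008a70002))) 
(.lf (nat_lit 13451272) (dlOf (nat_lit 1) (nat_lit 0x400400020018720802)))) 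
(.lf (nat_lit 21839944) (dlOf (nat_lit 1) (nat_lit 0xa0008a70881))))) (.nd (nat_lit 6) 
(.nd (nat_lit 20) (.lf (nat_lit 15548424) (dlOf (nat_lit 1) (nat_lit 0x17c0028800281))) 
(.lf (nat_lit 29179912) (dlOf (nat_lit 1) (nat_lit 0x160008026400200520008dd0583)))) 
(.nd (nat_lit 7) (.lf (nat_lit 23937352) (dlOf (nat_lit 1) (nat_lit 0x400200140008b80602))) 
(.nd (nat_lit 8) (.lf (nat_lit 19746504) (dlOf (nat_lit 1) (nat_lit 0x10600189d7301))) 
(.lf (nat_lit 58542536) (dlOf (nat_lit 1) (nat_lit 0x104004002c00097e4e82)))))))))) 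
(.nd (nat_lit 27) (.nd (nat_lit 16) (.nd (nat_lit 3) (.nd (nat_lit 6) (.nd (nat_lit 29) 
(.nd (nat_lit 20) (.nd (nat_lit 22) 
(.lf (nat_lit 4563681280) (dlOf (nat_lit 17) (nat_lit 0x9a00cc02e840400780660174102008c03300ba0010007019805cfc0803980cc02e7604014c0660173802029a03300b9a010075019805ccc0803480cc02e64040028068014570201e8033009eb010105019804f400807900cc027900403dc066013c7020122033009e3010076019804f1408032800800a0002006200080c0003))) 
(.lf (nat_lit 3494133760) (dlOf (nat_lit 4) (nat_lit 0x1c0a8001a053000102880088114034801000040a8000205100d1f02000302280676c0801400080158002001600081b0003)))) 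
(.lf (nat_lit 1343504384) (dlOf (nat_lit 1) (nat_lit 0xc00400020018280002)))) (.nd (nat_lit 8) 
(.nd (nat_lit 30) (.lf (nat_lit 805584896) (dlOf (nat_lit 1) (nat_lit 0x800400020008130002))) 
(.lf (nat_lit 1879326720) (dlOf (nat_lit 1) (nat_lit 0x800080e0001)))) 
(.lf (nat_lit 4094443776) (dlOf (nat_lit 1) (nat_lit 0xc00400060008050a82))))) (.nd (nat_lit 10) 
(.nd (nat_lit 19) (.nd (nat_lit 29) 
(.lf (nat_lit 1342455872) (dlOf (nat_lit 4) (nat_lit 0x1608cc001438e001c1bd000230300070de8001140800b871c004837a000360400100008030d81))) 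
(.lf (nat_lit 1879326784) (dlOf (nat_lit 1) (nat_lit 0x80080004002000200080e0c83)))) 
(.lf (nat_lit 1346125888) (dlOf (nat_lit 2) (nat_lit 0x8814d003d06c80091c1002b000800dc002001c0008e60603)))) 
(.nd (nat_lit 7) 
(.lf (nat_lit 3489946944) (dlOf (nat_lit 1) (nat_lit 0xa0008009c002002c000800c903))) 
(.lf (nat_lit 1410090688) (dlOf (nat_lit 1) (nat_lit 0x200180f3a81)))))) (.nd (nat_lit 26) 
(.nd (nat_lit 6) (.nd (nat_lit 19) (.nd (nat_lit 11) (.nd (nat_lit 29) 
(.lf (nat_lit 1342455816) (dlOf (nat_lit 3) (nat_lit 0x1048e001823c000ac020006123800208f00019e08007800400700008030482))) 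
(.lf (nat_lit 805584904) (dlOf (nat_lit 1) (nat_lit 0xe0008004000200180008130483)))) 
(.lf (nat_lit 3493087240) (dlOf (nat_lit 2) (nat_lit 0x54044000270180f4700)))) (.nd (nat_lit 21) 
(.lf (nat_lit 1344028680) (dlOf (nat_lit 1) (nat_lit 0x4004000200083a0582))) 
(.lf (nat_lit 1346125832) (dlOf (nat_lit 1) (nat_lit 0x8008004c002000e0008e60003))))) 
(.nd (nat_lit 21) (.nd (nat_lit 32) 
(.lf (nat_lit 1342455880) (dlOf (nat_lit 1) (nat_lit 0x68008007c00200b20008030f03))) 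
(.lf (nat_lit 5637423176) (dlOf (nat_lit 1) (nat_lit 0x200280e1681)))) 
(.lf (nat_lit 3492036680) (dlOf (nat_lit 2) (nat_lit 0x4044000100180a0e00))))) (.nd (nat_lit 29) 
(.nd (nat_lit 6) (.nd (nat_lit 19) 
(.lf (nat_lit 4630790152) (dlOf (nat_lit 1) (nat_lit 0x4004000200080c0002))) 
(.lf (nat_lit 3557572616) (dlOf (nat_lit 1) (nat_lit 0x100008270001)))) 
(.lf (nat_lit 2483306568) (dlOf (nat_lit 3) (nat_lit 0x13e0220001001000101100002c0800a80080034002001a00080a0e03)))) 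
(.nd (nat_lit 7) (.nd (nat_lit 31) 
(.lf (nat_lit 5167661064) (dlOf (nat_lit 1) (nat_lit 0x400400d000080f0002))) 
(.lf (nat_lit 3020177416) (dlOf (nat_lit 1) (nat_lit 0x400400020008150002)))) 
(.lf (nat_lit 5167661192) (dlOf (nat_lit 4) (nat_lit 0x8028001a00d0001b02000a0068000d00800e80080006404003c004002e00180f0e02))))))) 
(.nd (nat_lit 31) (.nd (nat_lit 3) (.nd (nat_lit 6) (.nd (nat_lit 8) (.nd (nat_lit 20) 
(.lf (nat_lit 4563746816) (dlOf (nat_lit 1) (nat_lit 0x800080070002002200080d0003))) 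
(.lf (nat_lit 1343569920) (dlOf (nat_lit 1) (nat_lit 0x180018290001)))) 
(.lf (nat_lit 1345669888) (dlOf (nat_lit 1) (nat_lit 0x34004001e0008dd5a82)))) (.nd (nat_lit 7) 
(.nd (nat_lit 8) 
(.lf (nat_lit 1346191424) (dlOf (nat_lit 2) (nat_lit 0xaf816000150a682c5836401001b00b6e09c05a5046802d81f00048e1c0f14004147e0008e60602))) 
(.lf (nat_lit 1410156352) (dlOf (nat_lit 4) (nat_lit 0x3080000005c0400100ae000405300220000000b41800281500004c040258002007800080f3e02)))) 
(.lf (nat_lit 6241468608) (dlOf (nat_lit 1) (nat_lit 0xa0004000200180f1b02))))) (.nd (nat_lit 7) 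
(.nd (nat_lit 6) (.nd (nat_lit 8) 
(.lf (nat_lit 1410156552) (dlOf (nat_lit 2) (nat_lit 0x1602f8001380800880080010002005400080f4703))) 
(.lf (nat_lit 1410156296) (dlOf (nat_lit 6) (nat_lit 0xa05f0002a01000402e80018160000a20800140be0003302000a05f0000c81000402f800058080090008007000200aa00080f3b83)))) 
(.lf (nat_lit 4563746888) (dlOf (nat_lit 2) (nat_lit 0x200c40011a040078004000200080d0482)))) 
(.nd (nat_lit 11) (.nd (nat_lit 26) 
(.lf (nat_lit 5637488776) (dlOf (nat_lit 4) (nat_lit 0x3a02600060120000d8100040098000680400cc0000003202008c00280f0e01))) 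
(.lf (nat_lit 872759432) (dlOf (nat_lit 2) (nat_lit 0x90016000120180c0e00)))) 
(.lf (nat_lit 1410156680) (dlOf (nat_lit 1) (nat_lit 0x100080064002008200080f4803)))))) 
(.nd (nat_lit 3) (.nd (nat_lit 6) (.nd (nat_lit 22) 
(.lf (nat_lit 2953134080) (dlOf (nat_lit 2) (nat_lit 0xc01b00343018160000))) 
(.lf (nat_lit 3494199296) (dlOf (nat_lit 1) (nat_lit 0x80080008002008200081d0003)))) 
(.nd (nat_lit 8) (.nd (nat_lit 19) 
(.lf (nat_lit 4026875968) (dlOf (nat_lit 2) (nat_lit 0x1400f000190180c1780))) 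
(.lf (nat_lit 3492626496) (dlOf (nat_lit 1) (nat_lit 0x200280e0e01)))) 
(.lf (nat_lit 3493152576) (dlOf (nat_lit 1) (nat_lit 0x400080f3e01))))) (.nd (nat_lit 19) 
(.nd (nat_lit 11) (.nd (nat_lit 20) 
(.lf (nat_lit 4026875912) (dlOf (nat_lit 1) (nat_lit 0x370008003400200e400080c0803))) 
(.lf (nat_lit 3491053576) (dlOf (nat_lit 1) (nat_lit 0xa800200080008050002)))) (.nd (nat_lit 7) 
(.lf (nat_lit 3490008328) (dlOf (nat_lit 1) (nat_lit 0x80018006681))) 
(.lf (nat_lit 3493152904) (dlOf (nat_lit 1) (nat_lit 0x4004000200080f4802))))) (.nd (nat_lit 7) 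
(.nd (nat_lit 29) (.lf (nat_lit 3557638152) (dlOf (nat_lit 1) (nat_lit 0x8004000c0018290282))) 
(.lf (nat_lit 4094509064) (dlOf (nat_lit 1) (nat_lit 0x80008050001)))) (.nd (nat_lit 6) 
(.lf (nat_lit 3490532744) (dlOf (nat_lit 1) (nat_lit 0x120008006c81))) 
(.lf (nat_lit 4095558088) (dlOf (nat_lit 1) (nat_lit 0x12a00280e1101))))))))) (.nd (nat_lit 32) 
(.nd (nat_lit 30) (.nd (nat_lit 3) (.nd (nat_lit 6) (.nd (nat_lit 8) (.nd (nat_lit 16) 
(.lf (nat_lit 1006911488) (dlOf (nat_lit 1) (nat_lit 0x800080e0001))) 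
(.lf (nat_lit 2617589760) (dlOf (nat_lit 2) (nat_lit 0xa009001bf4080108008008000200520008100003)))) 
(.lf (nat_lit 3154395392) (dlOf (nat_lit 1) (nat_lit 0x20018160701)))) (.nd (nat_lit 29) 
(.lf (nat_lit 470040640) (dlOf (nat_lit 4) (nat_lit 0x1608cc001438e001c1bd000248300070de8001200800b871c004837a000380400100008030d81))) 
(.lf (nat_lit 1006911552) (dlOf (nat_lit 1) (nat_lit 0x80080004002000200080e0c83))))) 
(.nd (nat_lit 19) (.nd (nat_lit 6) (.nd (nat_lit 16) (.nd (nat_lit 26) 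
(.lf (nat_lit 939802632) (dlOf (nat_lit 2) (nat_lit 0xe0000005e0080068008003800200180008180483))) 
(.lf (nat_lit 470040584) (dlOf (nat_lit 3) (nat_lit 0x1048e001823c000ac020006123800208f00019e08007800400700008030482)))) 
(.lf (nat_lit 2617589768) (dlOf (nat_lit 4) (nat_lit 0x1d007801dd808007003c00eea0400600400000002001a0028100001)))) 
(.lf (nat_lit 470040648) (dlOf (nat_lit 1) (nat_lit 0x68008007c00200b20008030f03)))) 
(.nd (nat_lit 6) (.nd (nat_lit 16) 
(.lf (nat_lit 471613448) (dlOf (nat_lit 3) (nat_lit 0x382c2001614e000904e8005023800c201000542c2002214e001204e800a823800b7210009c002001a0008360282))) 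
(.lf (nat_lit 471678984) (dlOf (nat_lit 1) (nat_lit 0x1600183c0001)))) 
(.lf (nat_lit 473711816) (dlOf (nat_lit 1) (nat_lit 0x12800200f20008fa2d02)))))) (.nd (nat_lit 3) 
(.nd (nat_lit 16) (.nd (nat_lit 6) 
(.lf (nat_lit 2013544448) (dlOf (nat_lit 1) (nat_lit 0x40028110001))) 
(.lf (nat_lit 1543782464) (dlOf (nat_lit 3) (nat_lit 0x202500035010004014000080080110008001400200e00008170d83)))) 
(.nd (nat_lit 26) (.lf (nat_lit 4161093632) (dlOf (nat_lit 1) (nat_lit 0x20008120001))) 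
(.nd (nat_lit 31) 
(.lf (nat_lit 1543847936) (dlOf (nat_lit 2) (nat_lit 0x3008c0029e040028002000a0008190002))) 
(.lf (nat_lit 3691331584) (dlOf (nat_lit 2) (nat_lit 0xc01c0060d818160000)))))) (.nd (nat_lit 6) 
(.nd (nat_lit 7) (.nd (nat_lit 16) 
(.lf (nat_lit 4228136968) (dlOf (nat_lit 1) (nat_lit 0x4c00400760008030582))) 
(.lf (nat_lit 1543847944) (dlOf (nat_lit 2) (nat_lit 0x1808c0000004002400400140008190002)))) 
(.lf (nat_lit 2080718984) (dlOf (nat_lit 2) (nat_lit 0x3400c40004804000c004000600180c0e02)))) 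
(.nd (nat_lit 7) 
(.lf (nat_lit 1543782472) (dlOf (nat_lit 2) (nat_lit 0x19200f80005c080028008009800200160008170f03))) 
(.nd (nat_lit 10) 
(.lf (nat_lit 2080719048) (dlOf (nat_lit 1) (nat_lit 0x280080128002000600080c1783))) 
(.lf (nat_lit 3624160456) (dlOf (nat_lit 5) (nat_lit 0x2e036001001a00088000000640c002006c00120000001182001901b000480d0006c00000022060006036000b0000000841001b0008002c002001c0008146383)))))))) 
(.nd (nat_lit 6) (.nd (nat_lit 3) (.nd (nat_lit 19) (.nd (nat_lit 16) (.nd (nat_lit 26) 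
(.lf (nat_lit 4697899008) (dlOf (nat_lit 17) (nat_lit 0x9a00cc02bc8040078066015e302008c03300af10100070198057840803980cc02bba04014c066015da02029a03300aeb0100750198057540803480cc02ba8040028068014740201e8033009e7810105019804f240807900cc0277e0403dc066013be020122033009de810076019804ef008032800800a0002006200080c0003))) 
(.lf (nat_lit 5838749696) (dlOf (nat_lit 1) (nat_lit 0x400281a0001)))) 
(.lf (nat_lit 4697964544) (dlOf (nat_lit 1) (nat_lit 0x800080070002002200080d0003)))) 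
(.nd (nat_lit 26) 
(.lf (nat_lit 5773213696) (dlOf (nat_lit 16) (nat_lit 0xb612f0065f81005a0978032f40802d84bc0197804000c25e00cbb0200b612f0065c8100670978032cc0803304bc0195804019025e00cab0200c012f0065501005b0978032a40803104bc0195004016025e00ca70200ce12f0065301005a0978032940800084c000000040028004003400080b0002))) 
(.lf (nat_lit 6377193472) (dlOf (nat_lit 16) (nat_lit 0xb61200038a81005a090001c500802d848000e2604000c240007120200b612000386010067090001c1808032048000e06040198240007020200c01200038081005b090001c0008033848000dfe040188240006fe0200b01200037e81005a090001bf008000848400000040028004003400080b0002))))) 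
(.nd (nat_lit 16) (.nd (nat_lit 19) 
(.lf (nat_lit 4765007880) (dlOf (nat_lit 1) (nat_lit 0x4004000200080c0002))) (.nd (nat_lit 26) 
(.lf (nat_lit 5773213704) (dlOf (nat_lit 9) (nat_lit 0x15a13f0091099002984c40396c0c021c26201cb102001613e00890988072bc1005804fc000427a015c13200da70300ad09f800b04f402a826401b3b06000e13200d9c0100720978031e00805684fc013827c00901320112098807b04c003d025e000000c00bc00180b0001))) 
(.lf (nat_lit 6377193480) (dlOf (nat_lit 9) (nat_lit 0x15a132009109180298488032b60c021c2440194e02001613100890910065301005804c80004260015c12300bf10300ad099000b04c002a8246017d206000e12300be7010072090001b700805684c8013826200901230112091007b048403d0240000000c00bc00180b0001))))) 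
(.nd (nat_lit 7) (.lf (nat_lit 5234835464) (dlOf (nat_lit 1) (nat_lit 0x200180f0001))) 
(.nd (nat_lit 8) 
(.lf (nat_lit 5234835592) (dlOf (nat_lit 3) (nat_lit 0x2c030006a00a0001b02000600d0000d00800700080018002000200080f0e03))) 
(.lf (nat_lit 6375686536) (dlOf (nat_lit 1) (nat_lit 0x2200080038002001e0008001003))))))) 
(.nd (nat_lit 3) (.nd (nat_lit 7) (.nd (nat_lit 16) (.nd (nat_lit 26) 
(.lf (nat_lit 5773213760) (dlOf (nat_lit 19) (nat_lit 0xd604fc03c02640007404012013f007b0990001cc1037904fc1ce42640007204004a13f00230990001c41007784fc06a42640007004015013f03530990001bc1007a04c8000dc04036027e00881320001302003e09f802904c800048080a4027e05b8132000110200ca09f814384c80004208001027e04461320001002023909900007c0814704c80003804051427e059e1320000d82000109f8000640800804fc003c2640001804007213f000f099000000100630008007c002001400080b0503))) 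
(.lf (nat_lit 6377193536) (dlOf (nat_lit 19) (nat_lit 0xd604c803c024600074040120132007b0918001cc1037904c81ce42460007204004a13200230918001c41007784c806a42460007004015013203530918001bc1007a048c000dc04036026400881230001302003e0990029048c00048080a4026405b8123000110200ca0990143848c0004208001026404461230001002023909180007c08147048c00038040514264059e1230000d8200010990000640800804c8003c24600018040072132000f091800000100630008007c002001400080b0503)))) 
(.lf (nat_lit 4697964608) (dlOf (nat_lit 2) (nat_lit 0x140290004c0180d0480)))) (.nd (nat_lit 8) 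
(.lf (nat_lit 5772689600) (dlOf (nat_lit 1) (nat_lit 0x1bc0008090781))) 
(.lf (nat_lit 5772165568) (dlOf (nat_lit 1) (nat_lit 0x40028091081))))) (.nd (nat_lit 7) 
(.nd (nat_lit 16) (.nd (nat_lit 26) 
(.lf (nat_lit 5773213768) (dlOf (nat_lit 2) (nat_lit 0x104c400026040004004000400080b0602))) 
(.lf (nat_lit 6377193544) (dlOf (nat_lit 2) (nat_lit 0x1048800020040004004000400080b0602)))) 
(.lf (nat_lit 4697964616) (dlOf (nat_lit 2) (nat_lit 0x26c0520001502001400080d0481)))) 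
(.nd (nat_lit 8) (.nd (nat_lit 16) 
(.lf (nat_lit 4697899208) (dlOf (nat_lit 3) (nat_lit 0x388050000340400300280001802002000080c1781))) 
(.lf (nat_lit 5773279432) (dlOf (nat_lit 3) (nat_lit 0x613c0001d0100050af0000680800180080010002000200080c1783)))) 
(.lf (nat_lit 5772165576) (dlOf (nat_lit 8) (nat_lit 0xe0478006c23a0001704001011e0000b01000808f00004408004047800040f60001004001011e0000201000808f0000080800204780000004001c00200120008091102))))))))))) 
(.nd (nat_lit 3) (.nd (nat_lit 18) (.nd (nat_lit 29) (.nd (nat_lit 19) (.nd (nat_lit 6) 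
(.nd (nat_lit 28) (.nd (nat_lit 9) (.nd (nat_lit 24) (.nd (nat_lit 16) (.nd (nat_lit 20) 
(.lf (nat_lit 44187648) (dlOf (nat_lit 1) (nat_lit 0x4002000200092d0002))) 
(.lf (nat_lit 47333376) (dlOf (nat_lit 1) (nat_lit 0x200193d0001)))) 
(.lf (nat_lit 6442663936) (dlOf (nat_lit 1) (nat_lit 0x1a0028130001)))) (.nd (nat_lit 10) 
(.nd (nat_lit 16) (.lf (nat_lit 52576256) (dlOf (nat_lit 1) (nat_lit 0x3400400080009550002))) 
(.lf (nat_lit 52641792) (dlOf (nat_lit 1) (nat_lit 0x218008008800200820009560003)))) 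
(.lf (nat_lit 20075520) (dlOf (nat_lit 1) (nat_lit 0x30004000200189d9202))))) (.nd (nat_lit 7) 
(.nd (nat_lit 10) (.lf (nat_lit 3288547840) (dlOf (nat_lit 1) (nat_lit 0x1c60008090d81))) 
(.lf (nat_lit 20078080) (dlOf (nat_lit 1) (nat_lit 0x800289dcd01)))) (.nd (nat_lit 8) 
(.lf (nat_lit 20076160) (dlOf (nat_lit 1) (nat_lit 0x80080018002000200089d9d83))) (.nd (nat_lit 20) 
(.lf (nat_lit 54741888) (dlOf (nat_lit 1) (nat_lit 0x20029655c01))) 
(.lf (nat_lit 20138880) (dlOf (nat_lit 1) (nat_lit 0x80080004002000200089d5c03))))))) 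
(.nd (nat_lit 27) (.nd (nat_lit 7) (.nd (nat_lit 16) (.nd (nat_lit 22) 
(.lf (nat_lit 2416066560) (dlOf (nat_lit 1) (nat_lit 0x60018030001))) 
(.lf (nat_lit 1346519040) (dlOf (nat_lit 1) (nat_lit 0x20008f80001)))) 
(.lf (nat_lit 5704466432) (dlOf (nat_lit 2) (nat_lit 0x1806402fc2040070002001e00080a0002)))) 
(.nd (nat_lit 8) (.lf (nat_lit 4563552896) (dlOf (nat_lit 1) (nat_lit 0x20018095481))) 
(.lf (nat_lit 3489815936) (dlOf (nat_lit 1) (nat_lit 0x3c002800c901))))) (.nd (nat_lit 8) 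
(.nd (nat_lit 16) (.lf (nat_lit 2550284288) (dlOf (nat_lit 1) (nat_lit 0x60018030001))) 
(.lf (nat_lit 5838684160) (dlOf (nat_lit 1) (nat_lit 0x1a0028130001)))) (.nd (nat_lit 7) 
(.lf (nat_lit 4697769216) (dlOf (nat_lit 1) (nat_lit 0x3400200040008092f02))) 
(.lf (nat_lit 2617398144) (dlOf (nat_lit 1) (nat_lit 0x400080008002001a00080a9003))))))) 
(.nd (nat_lit 30) (.nd (nat_lit 16) (.nd (nat_lit 7) 
(.lf (nat_lit 25313344) (dlOf (nat_lit 2) (nat_lit 0x2b9160003e018bf0b80))) 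
(.lf (nat_lit 13779136) (dlOf (nat_lit 1) (nat_lit 0x8008000400200020008750403)))) (.nd (nat_lit 8) 
(.nd (nat_lit 20) 
(.lf (nat_lit 4496506944) (dlOf (nat_lit 3) (nat_lit 0x1800e000e006c00080340047606002a01c001800d80008068008ea0c0038004000600080a1682))) 
(.lf (nat_lit 28524608) (dlOf (nat_lit 1) (nat_lit 0xc00400020008da0002)))) 
(.lf (nat_lit 20138816) (dlOf (nat_lit 1) (nat_lit 0x4004000200189d5c02))))) (.nd (nat_lit 7) 
(.nd (nat_lit 22) (.nd (nat_lit 26) 
(.lf (nat_lit 1073889344) (dlOf (nat_lit 1) (nat_lit 0x30008000400200080008020783))) 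
(.lf (nat_lit 3288481856) (dlOf (nat_lit 1) (nat_lit 0x88004000e0008030d82)))) 
(.lf (nat_lit 1346519104) (dlOf (nat_lit 1) (nat_lit 0x400200020008f80502)))) (.nd (nat_lit 8) 
(.lf (nat_lit 5435965632) (dlOf (nat_lit 1) (nat_lit 0x400400300008075802))) (.nd (nat_lit 10) 
(.lf (nat_lit 3221375424) (dlOf (nat_lit 2) (nat_lit 0x40000172f02000e0018114e81))) 
(.lf (nat_lit 3221376448) (dlOf (nat_lit 2) (nat_lit 0x1b80bc001d604001800200040008116d02)))))))) 
(.nd (nat_lit 20) (.nd (nat_lit 24) (.nd (nat_lit 30) (.nd (nat_lit 8) 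
(.lf (nat_lit 67780608) (dlOf (nat_lit 1) (nat_lit 0x1e00182e0001))) (.nd (nat_lit 16) 
(.lf (nat_lit 46809344) (dlOf (nat_lit 1) (nat_lit 0x70008001000200280009380a83))) 
(.lf (nat_lit 46874880) (dlOf (nat_lit 1) (nat_lit 0x1c004000e0009380a82))))) (.nd (nat_lit 6) 
(.nd (nat_lit 27) 
(.lf (nat_lit 3221897216) (dlOf (nat_lit 4) (nat_lit 0xb10118032de04021008c0196e0200ae04600cb68181b0000))) 
(.lf (nat_lit 5772034048) (dlOf (nat_lit 2) (nat_lit 0x3847c02e6804000c00400020018050002)))) 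
(.lf (nat_lit 5772034112) (dlOf (nat_lit 3) (nat_lit 0x1829e000614e00060a68002850c015cc10001c29e000214d00010a1802b94180050008004c00200240008051683))))) 
(.nd (nat_lit 7) (.nd (nat_lit 8) (.nd (nat_lit 21) 
(.lf (nat_lit 21708800) (dlOf (nat_lit 1) (nat_lit 0xc800800bc00200540008a60003))) 
(.lf (nat_lit 28000256) (dlOf (nat_lit 1) (nat_lit 0x200018d50001)))) 
(.lf (nat_lit 57297664) (dlOf (nat_lit 1) (nat_lit 0xb0008003800200080009795a83)))) 
(.nd (nat_lit 6) (.lf (nat_lit 51003520) (dlOf (nat_lit 1) (nat_lit 0x230004001600094e3682))) 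
(.lf (nat_lit 25903296) (dlOf (nat_lit 1) (nat_lit 0x800400020008c10402)))))) (.nd (nat_lit 6) 
(.nd (nat_lit 16) (.nd (nat_lit 8) 
(.lf (nat_lit 3817472) (dlOf (nat_lit 1) (nat_lit 0x20018230001))) (.nd (nat_lit 24) 
(.lf (nat_lit 473579776) (dlOf (nat_lit 4) (nat_lit 0x142d8001214f000407b8001a018005053c000c1ee0006604001014f000307b8000001003d0008012800200100008f62a03))) 
(.lf (nat_lit 20594944) (dlOf (nat_lit 1) (nat_lit 0x4002000200089d0a82))))) (.nd (nat_lit 21) 
(.lf (nat_lit 1343963136) (dlOf (nat_lit 1) (nat_lit 0x20028380001))) (.nd (nat_lit 23) 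
(.lf (nat_lit 3883008) (dlOf (nat_lit 1) (nat_lit 0x60028240001))) 
(.lf (nat_lit 45826048) (dlOf (nat_lit 1) (nat_lit 0x8008000800200040009360003)))))) 
(.nd (nat_lit 7) (.nd (nat_lit 24) 
(.lf (nat_lit 10108992) (dlOf (nat_lit 6) (nat_lit 0x25ec300004a0400bf8bc0003b0c0001182002edeb00006008007ef580000a04001b8c60011bd6000000285b0780))) 
(.lf (nat_lit 60440640) (dlOf (nat_lit 1) (nat_lit 0x400200020009860502)))) 
(.lf (nat_lit 1345994944) (dlOf (nat_lit 1) (nat_lit 0x3e0028e20781))))))) (.nd (nat_lit 30) 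
(.nd (nat_lit 16) (.nd (nat_lit 6) (.nd (nat_lit 31) (.nd (nat_lit 26) 
(.lf (nat_lit 5100421120) (dlOf (nat_lit 1) (nat_lit 0x20028070001))) (.nd (nat_lit 28) 
(.lf (nat_lit 604127232) (dlOf (nat_lit 2) (nat_lit 0x10088076a8080098008002c00200680008030003))) 
(.lf (nat_lit 5167529984) (dlOf (nat_lit 1) (nat_lit 0xc00200020008080002))))) (.nd (nat_lit 19) 
(.nd (nat_lit 22) 
(.lf (nat_lit 2952937472) (dlOf (nat_lit 10) (nat_lit 0x2380100379a04007400801bcb0200b600400de5010061002006f100801e00100377c0400c400801bbc0200a200400daa81003b002006d3c0803380100369c04002800200340008030002))) 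
(.lf (nat_lit 2755805184) (dlOf (nat_lit 2) (nat_lit 0x8845601da502000200081b0001)))) 
(.lf (nat_lit 3154788352) (dlOf (nat_lit 1) (nat_lit 0x240008320001))))) (.nd (nat_lit 9) 
(.nd (nat_lit 10) (.lf (nat_lit 5301747904) (dlOf (nat_lit 1) (nat_lit 0x400400300008075802))) 
(.lf (nat_lit 1007830208) (dlOf (nat_lit 2) (nat_lit 0x240f100011818802d00)))) 
(.lf (nat_lit 805457600) (dlOf (nat_lit 1) (nat_lit 0x1000200060008117282))))) (.nd (nat_lit 26) 
(.nd (nat_lit 6) (.nd (nat_lit 19) (.nd (nat_lit 27) 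
(.lf (nat_lit 2953003008) (dlOf (nat_lit 2) (nat_lit 0x45007000000040058002007c0008080002))) 
(.lf (nat_lit 939737088) (dlOf (nat_lit 1) (nat_lit 0x100080034002000a0008160003)))) 
(.lf (nat_lit 2819309568) (dlOf (nat_lit 1) (nat_lit 0x500018230001)))) (.nd (nat_lit 7) 
(.lf (nat_lit 537085760) (dlOf (nat_lit 1) (nat_lit 0x400400020008003e02))) 
(.lf (nat_lit 2818792128) (dlOf (nat_lit 1) (nat_lit 0x2001812b981))))) (.nd (nat_lit 8) 
(.nd (nat_lit 19) (.nd (nat_lit 22) 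
(.lf (nat_lit 604192768) (dlOf (nat_lit 1) (nat_lit 0x20004000c0008080002))) 
(.lf (nat_lit 2755870720) (dlOf (nat_lit 4) (nat_lit 0x2607900ed281000103c80768c0800981e403a84040004004001400181b0002)))) 
(.lf (nat_lit 3154853888) (dlOf (nat_lit 2) (nat_lit 0x30064004d804001400200040008350002)))) 
(.nd (nat_lit 6) (.lf (nat_lit 5167596800) (dlOf (nat_lit 1) (nat_lit 0x4004002600080d2f02))) 
(.lf (nat_lit 738935232) (dlOf (nat_lit 1) (nat_lit 0x800400240008157002))))))) (.nd (nat_lit 28) 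
(.nd (nat_lit 6) (.nd (nat_lit 7) (.nd (nat_lit 16) (.nd (nat_lit 26) 
(.lf (nat_lit 3892985856) (dlOf (nat_lit 1) (nat_lit 0x100080004002000400082c0003))) 
(.lf (nat_lit 3960094720) (dlOf (nat_lit 4) (nat_lit 0xb10118039a804021008c01cd30200ae04600e690181b0000)))) 
(.lf (nat_lit 1812152320) (dlOf (nat_lit 1) (nat_lit 0x100080034002000a0008160003)))) 
(.nd (nat_lit 9) (.lf (nat_lit 5905795200) (dlOf (nat_lit 1) (nat_lit 0x400400020008144782))) 
(.lf (nat_lit 1744980608) (dlOf (nat_lit 1) (nat_lit 0x400200020008095482))))) (.nd (nat_lit 8) 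
(.nd (nat_lit 9) (.lf (nat_lit 3959571520) (dlOf (nat_lit 2) (nat_lit 0x9000000ae8818112880))) 
(.lf (nat_lit 3959577152) (dlOf (nat_lit 14) (nat_lit 0xbe0540050020001980fc01b4070018c0160003b85007b02a00390100000ec0801fc0a80048030006e017800680b8024c028000710a009e0540103017808080b800c401e0007008004e02f000340100a901780019c0804b00bc000cc0400fc0a801d802f00c901700018c1802680bc000c40400cc0a8003e041000201c804d00bc030c05c000610a00c802f000300100060288000200804f815000440a00124040009601f800b00e00280066009a02f000f0170000004018800080260002013c000811b483)))) 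
(.nd (nat_lit 7) (.lf (nat_lit 3959572800) (dlOf (nat_lit 2) (nat_lit 0x100400001e818114c80))) 
(.lf (nat_lit 3959572416) (dlOf (nat_lit 1) (nat_lit 0x28002000e0008114402)))))) (.nd (nat_lit 16) 
(.nd (nat_lit 6) (.nd (nat_lit 7) (.nd (nat_lit 8) 
(.lf (nat_lit 6376013824) (dlOf (nat_lit 2) (nat_lit 0x3844002bac04000c00400020018050002))) 
(.lf (nat_lit 6378111232) (dlOf (nat_lit 1) (nat_lit 0x10008001000200020008112b03)))) 
(.lf (nat_lit 6377062528) (dlOf (nat_lit 1) (nat_lit 0x4004000200080a2002)))) (.nd (nat_lit 19) 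
(.nd (nat_lit 26) (.lf (nat_lit 4026679360) (dlOf (nat_lit 1) (nat_lit 0x88004000e0008030d82))) 
(.lf (nat_lit 1946304576) (dlOf (nat_lit 1) (nat_lit 0x30008000400200080008020783)))) 
(.lf (nat_lit 6376013888) (dlOf (nat_lit 3) (nat_lit 0x18280000613f000609f000284d000ad610001c280000213e000109a0015a8180050008004c00200240008051683))))) 
(.nd (nat_lit 7) (.nd (nat_lit 9) 
(.lf (nat_lit 6308446208) (dlOf (nat_lit 2) (nat_lit 0x180640369a040070002001e00080a0002))) 
(.lf (nat_lit 4026745344) (dlOf (nat_lit 1) (nat_lit 0x1c60008090d81)))) (.nd (nat_lit 10) 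
(.lf (nat_lit 6376606336) (dlOf (nat_lit 1) (nat_lit 0x1c00200020008095482))) 
(.lf (nat_lit 4160968320) (dlOf (nat_lit 2) (nat_lit 0x800ac002f8040018004002c00080a9d82))))))))) 
(.nd (nat_lit 6) (.nd (nat_lit 21) (.nd (nat_lit 26) (.nd (nat_lit 16) (.nd (nat_lit 22) 
(.nd (nat_lit 19) (.nd (nat_lit 27) 
(.lf (nat_lit 4026941440) (dlOf (nat_lit 1) (nat_lit 0x4600080d0001))) 
(.lf (nat_lit 3355852800) (dlOf (nat_lit 1) (nat_lit 0x40018130001)))) 
(.lf (nat_lit 2819506176) (dlOf (nat_lit 1) (nat_lit 0x800082c0001)))) (.nd (nat_lit 23) 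
(.lf (nat_lit 3494264832) (dlOf (nat_lit 1) (nat_lit 0x2c80080080002008a00081e0003))) 
(.lf (nat_lit 12992512) (dlOf (nat_lit 2) (nat_lit 0x8c720147402001400286f0001))))) 
(.nd (nat_lit 22) (.nd (nat_lit 19) 
(.lf (nat_lit 1611087872) (dlOf (nat_lit 2) (nat_lit 0x3002801f34080068008001c002007e00080d0003))) 
(.lf (nat_lit 59719680) (dlOf (nat_lit 1) (nat_lit 0x20029820001)))) (.nd (nat_lit 24) 
(.lf (nat_lit 4669440) (dlOf (nat_lit 1) (nat_lit 0xa00182a0001))) 
(.lf (nat_lit 21446656) (dlOf (nat_lit 1) (nat_lit 0x90008002c00200160008a40003)))))) 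
(.nd (nat_lit 27) (.nd (nat_lit 30) (.nd (nat_lit 7) 
(.lf (nat_lit 2756067328) (dlOf (nat_lit 1) (nat_lit 0x2c80080080002008a00081e0003))) 
(.lf (nat_lit 4362485888) (dlOf (nat_lit 4) (nat_lit 0xc08e0024a0200f2047001238100230238006e00800e80080124002003a0008090083)))) 
(.nd (nat_lit 19) (.lf (nat_lit 3288743936) (dlOf (nat_lit 1) (nat_lit 0x4600080d0001))) 
(.lf (nat_lit 3557703680) (dlOf (nat_lit 1) (nat_lit 0x800082c0001))))) (.nd (nat_lit 29) 
(.nd (nat_lit 20) (.lf (nat_lit 2617655296) (dlOf (nat_lit 1) (nat_lit 0x20018130001))) 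
(.lf (nat_lit 471220224) (dlOf (nat_lit 1) (nat_lit 0x400282d0001)))) (.nd (nat_lit 7) 
(.lf (nat_lit 738672640) (dlOf (nat_lit 2) (nat_lit 0x3002803520080068008001c002007e00080d0003))) 
(.lf (nat_lit 4228268160) (dlOf (nat_lit 4) (nat_lit 0xc080002320200f20400011781002302000068c0800e80080124002003a0008090083))))))) 
(.nd (nat_lit 8) (.nd (nat_lit 20) (.nd (nat_lit 28) (.nd (nat_lit 19) 
(.lf (nat_lit 61292544) (dlOf (nat_lit 1) (nat_lit 0xa0019910001))) 
(.lf (nat_lit 3096576) (dlOf (nat_lit 1) (nat_lit 0x20028200001)))) (.nd (nat_lit 10) 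
(.lf (nat_lit 3492759552) (dlOf (nat_lit 1) (nat_lit 0x4004000600180f4702))) 
(.lf (nat_lit 3492692992) (dlOf (nat_lit 1) (nat_lit 0x200080f2881))))) (.nd (nat_lit 19) 
(.nd (nat_lit 9) (.lf (nat_lit 37109760) (dlOf (nat_lit 1) (nat_lit 0x200190a0001))) 
(.lf (nat_lit 58147328) (dlOf (nat_lit 2) (nat_lit 0x4b0940015d02000200297c7b01)))) 
(.nd (nat_lit 23) (.lf (nat_lit 2755608576) (dlOf (nat_lit 1) (nat_lit 0x600081b0001))) 
(.lf (nat_lit 29310976) (dlOf (nat_lit 1) (nat_lit 0x3c00400160008df0002)))))) (.nd (nat_lit 9) 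
(.nd (nat_lit 16) (.nd (nat_lit 7) 
(.lf (nat_lit 69615872) (dlOf (nat_lit 1) (nat_lit 0x20018b72b01))) 
(.lf (nat_lit 19814784) (dlOf (nat_lit 1) (nat_lit 0xa0000800cc002015e00089daf83)))) 
(.nd (nat_lit 22) (.lf (nat_lit 20398336) (dlOf (nat_lit 1) (nat_lit 0x4002000200089d0a82))) 
(.lf (nat_lit 58147072) (dlOf (nat_lit 5) (nat_lit 0x1a612800db092003d7ea0001183002cc250027e1240004408000b09400518490001082002dc250000100800c800802c0002003c00097c2b03))))) 
(.nd (nat_lit 7) (.nd (nat_lit 10) 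
(.lf (nat_lit 19815168) (dlOf (nat_lit 1) (nat_lit 0x200289db981))) 
(.lf (nat_lit 8275712) (dlOf (nat_lit 1) (nat_lit 0x270008039c00201180008513b83)))) 
(.lf (nat_lit 20335488) (dlOf (nat_lit 1) (nat_lit 0x4002000200089d5c02))))))) (.nd (nat_lit 19) 
(.nd (nat_lit 26) (.nd (nat_lit 22) (.nd (nat_lit 30) (.nd (nat_lit 16) (.nd (nat_lit 7) 
(.nd (nat_lit 21) (.lf (nat_lit 17186880) (dlOf (nat_lit 1) (nat_lit 0x4002000200088e0002))) 
(.lf (nat_lit 2506816) (dlOf (nat_lit 1) (nat_lit 0x5c00200be0008160d02)))) 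
(.lf (nat_lit 134627776) (dlOf (nat_lit 2) (nat_lit 0x1600000000018090880)))) (.nd (nat_lit 20) 
(.lf (nat_lit 805781568) (dlOf (nat_lit 1) (nat_lit 0x200281a0001))) 
(.lf (nat_lit 9912384) (dlOf (nat_lit 1) (nat_lit 0x10008001400200040008591683))))) 
(.nd (nat_lit 7) (.nd (nat_lit 28) 
(.lf (nat_lit 1074151488) (dlOf (nat_lit 1) (nat_lit 0x100080004002000200080c1783))) 
(.lf (nat_lit 4026941504) (dlOf (nat_lit 3) (nat_lit 0x300160007c02000400b000148180d0b80)))) 
(.lf (nat_lit 3221635520) (dlOf (nat_lit 2) (nat_lit 0x8c03c0002e018170880))))) (.nd (nat_lit 23) 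
(.nd (nat_lit 24) (.lf (nat_lit 1346781248) (dlOf (nat_lit 2) (nat_lit 0x41430011e019000600))) 
(.lf (nat_lit 54935616) (dlOf (nat_lit 2) (nat_lit 0x1340000001e019670500)))) (.nd (nat_lit 7) 
(.lf (nat_lit 48644160) (dlOf (nat_lit 1) (nat_lit 0x60019420601))) 
(.lf (nat_lit 14041280) (dlOf (nat_lit 1) (nat_lit 0x8008000400200020008750403)))))) 
(.nd (nat_lit 7) (.nd (nat_lit 9) (.nd (nat_lit 27) 
(.lf (nat_lit 3288744000) (dlOf (nat_lit 3) (nat_lit 0x300160007c02000400b000118180d0b80))) 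
(.lf (nat_lit 4496703552) (dlOf (nat_lit 3) (nat_lit 0x1801a000e00cc000806400a0c06002a0340018019800080c8014160c003800400060008131682)))) 
(.nd (nat_lit 8) (.lf (nat_lit 2755084864) (dlOf (nat_lit 1) (nat_lit 0x40018108501))) 
(.lf (nat_lit 3288811328) (dlOf (nat_lit 1) (nat_lit 0x80080004002000200080f3e03))))) 
(.nd (nat_lit 29) (.nd (nat_lit 27) 
(.lf (nat_lit 4362486208) (dlOf (nat_lit 1) (nat_lit 0x3400200140008090882))) 
(.lf (nat_lit 201736640) (dlOf (nat_lit 2) (nat_lit 0x1600000000018090880)))) (.nd (nat_lit 28) 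
(.lf (nat_lit 3959833024) (dlOf (nat_lit 2) (nat_lit 0x8c03c0002d818170880))) 
(.lf (nat_lit 4228268480) (dlOf (nat_lit 1) (nat_lit 0x3400200140008090882))))))) (.nd (nat_lit 21) 
(.nd (nat_lit 28) (.nd (nat_lit 22) (.nd (nat_lit 8) 
(.lf (nat_lit 2752397888) (dlOf (nat_lit 2) (nat_lit 0x1a15900007018018b80))) 
(.lf (nat_lit 2752397632) (dlOf (nat_lit 2) (nat_lit 0x21fa004b9018014c00)))) (.nd (nat_lit 16) 
(.lf (nat_lit 14565440) (dlOf (nat_lit 1) (nat_lit 0x30008005400200020008770503))) 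
(.lf (nat_lit 21971008) (dlOf (nat_lit 1) (nat_lit 0xc004000c0008a80d82))))) (.nd (nat_lit 8) 
(.nd (nat_lit 7) 
(.lf (nat_lit 1343176768) (dlOf (nat_lit 3) (nat_lit 0x4408000e0950002302000c014000114080008008002400200880008190503))) 
(.lf (nat_lit 6376278720) (dlOf (nat_lit 1) (nat_lit 0x400200020008095782)))) (.nd (nat_lit 9) 
(.lf (nat_lit 3490595136) (dlOf (nat_lit 2) (nat_lit 0x21e8001ec018014c00))) 
(.lf (nat_lit 1344161600) (dlOf (nat_lit 2) (nat_lit 0x6848e00121c5000000283d3e00)))))) 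
(.nd (nat_lit 8) (.nd (nat_lit 12) (.nd (nat_lit 22) 
(.lf (nat_lit 473907264) (dlOf (nat_lit 2) (nat_lit 0x1029a000a0d900123828fc0600))) 
(.lf (nat_lit 25116736) (dlOf (nat_lit 1) (nat_lit 0x3c004003e0018be1402)))) (.nd (nat_lit 7) 
(.lf (nat_lit 8278080) (dlOf (nat_lit 1) (nat_lit 0x300008517d01))) 
(.lf (nat_lit 2754567360) (dlOf (nat_lit 1) (nat_lit 0x80080004002000200080fc203))))) 
(.nd (nat_lit 12) (.nd (nat_lit 7) 
(.lf (nat_lit 20857152) (dlOf (nat_lit 1) (nat_lit 0x400189e5f01))) 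
(.lf (nat_lit 1345274304) (dlOf (nat_lit 2) (nat_lit 0xb0b28000000800f8008001c00200960008b37003)))) 
(.nd (nat_lit 10) (.lf (nat_lit 19878208) (dlOf (nat_lit 1) (nat_lit 0x4004000400189d8202))) 
(.lf (nat_lit 8279360) (dlOf (nat_lit 1) (nat_lit 0x40018519901)))))))))) (.nd (nat_lit 16) 
(.nd (nat_lit 18) (.nd (nat_lit 26) (.nd (nat_lit 6) (.nd (nat_lit 7) (.nd (nat_lit 19) 
(.nd (nat_lit 27) (.nd (nat_lit 8) (.nd (nat_lit 31) 
(.lf (nat_lit 5100421128) (dlOf (nat_lit 1) (nat_lit 0x40028070001))) 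
(.lf (nat_lit 2952937480) (dlOf (nat_lit 4) (nat_lit 0x7800200762c080290010036e60400d4058004802a00a200e0044001000bc006000000a006a0008030001)))) 
(.lf (nat_lit 4295115016) (dlOf (nat_lit 1) (nat_lit 0x20028090481)))) (.nd (nat_lit 29) 
(.lf (nat_lit 1476542472) (dlOf (nat_lit 1) (nat_lit 0x20008050001))) 
(.lf (nat_lit 5234638856) (dlOf (nat_lit 1) (nat_lit 0x8008000400200020008070003))))) 
(.nd (nat_lit 30) (.nd (nat_lit 20) 
(.lf (nat_lit 134889480) (dlOf (nat_lit 4) (nat_lit 0xa00bc000fa04004405e0007c02002802f000398180d0480))) 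
(.lf (nat_lit 24789000) (dlOf (nat_lit 3) (nat_lit 0xf69200af0010008b490055240800a00080040002001c0008bb0003)))) 
(.nd (nat_lit 28) (.lf (nat_lit 3221897224) (dlOf (nat_lit 2) (nat_lit 0x88037003a20181b0000))) 
(.lf (nat_lit 1342849032) (dlOf (nat_lit 4) (nat_lit 0x2223100af001000811680577c0800108cc001445a0154904000800080f0001)))))) 
(.nd (nat_lit 8) (.nd (nat_lit 9) (.nd (nat_lit 10) 
(.lf (nat_lit 9584776) (dlOf (nat_lit 5) (nat_lit 0x1e90c001b482000da3f0006d1d8004e8e4001b3b8000360c00d7a430001d1f8000d4100016914000f486000fa410007d1f8003e8ec002b472000f9dc0001a070004d2280046904002347e000da3b000bd1c8002e77000056180080004000c0008570e02))) 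
(.lf (nat_lit 3221380232) (dlOf (nat_lit 1) (nat_lit 0x2001811c201)))) 
(.lf (nat_lit 20076168) (dlOf (nat_lit 1) (nat_lit 0xa400189d9e01)))) (.nd (nat_lit 11) 
(.nd (nat_lit 23) (.nd (nat_lit 27) 
(.lf (nat_lit 1610760584) (dlOf (nat_lit 5) (nat_lit 0x20108005580800100d40019e040004042000cd0200060320004b018091000))) 
(.lf (nat_lit 4697768328) (dlOf (nat_lit 1) (nat_lit 0x740018091001)))) 
(.lf (nat_lit 8536456) (dlOf (nat_lit 1) (nat_lit 0x400200020008511002)))) (.nd (nat_lit 10) 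
(.lf (nat_lit 3490335112) (dlOf (nat_lit 1) (nat_lit 0x400200020008004e82))) 
(.lf (nat_lit 134368648) (dlOf (nat_lit 1) (nat_lit 0x20028006c81))))))) (.nd (nat_lit 20) 
(.nd (nat_lit 28) (.nd (nat_lit 7) (.nd (nat_lit 10) (.nd (nat_lit 19) 
(.lf (nat_lit 25313352) (dlOf (nat_lit 1) (nat_lit 0x400080098002010a0008bf0c83))) 
(.lf (nat_lit 537542728) (dlOf (nat_lit 1) (nat_lit 0x7600180a0e81)))) 
(.lf (nat_lit 152648) (dlOf (nat_lit 1) (nat_lit 0x20018009301)))) 
(.lf (nat_lit 3221375432) (dlOf (nat_lit 1) (nat_lit 0x60008114e81)))) (.nd (nat_lit 10) 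
(.nd (nat_lit 19) (.lf (nat_lit 1346519112) (dlOf (nat_lit 1) (nat_lit 0x7400400180008f80602))) 
(.lf (nat_lit 805978184) (dlOf (nat_lit 2) (nat_lit 0x980ac000100200060008201481)))) 
(.nd (nat_lit 9) 
(.lf (nat_lit 5637293128) (dlOf (nat_lit 1) (nat_lit 0x180080004002000400080d2883))) 
(.lf (nat_lit 4697769544) (dlOf (nat_lit 1) (nat_lit 0x20018093801)))))) (.nd (nat_lit 7) 
(.nd (nat_lit 8) (.nd (nat_lit 9) 
(.lf (nat_lit 24264776) (dlOf (nat_lit 1) (nat_lit 0x8008000400200020008b90e03))) 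
(.lf (nat_lit 11682376) (dlOf (nat_lit 1) (nat_lit 0x80080004002000200086c1103)))) 
(.lf (nat_lit 3293512) (dlOf (nat_lit 1) (nat_lit 0x8008000400200020008200603)))) (.nd (nat_lit 8) 
(.lf (nat_lit 58344648) (dlOf (nat_lit 2) (nat_lit 0x292ca0000000800580080044002002c00097e2d03))) 
(.lf (nat_lit 20073416) (dlOf (nat_lit 1) (nat_lit 0x40004000a00089d5d82))))))) (.nd (nat_lit 30) 
(.nd (nat_lit 8) (.nd (nat_lit 27) (.nd (nat_lit 32) (.nd (nat_lit 6) 
(.lf (nat_lit 604127240) (dlOf (nat_lit 2) (nat_lit 0x3300b005280440044000000000600440008030001))) 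
(.lf (nat_lit 604127304) (dlOf (nat_lit 1) (nat_lit 0x80018030681)))) (.nd (nat_lit 28) 
(.lf (nat_lit 4899094536) (dlOf (nat_lit 1) (nat_lit 0x800400020008070002))) 
(.lf (nat_lit 5167529992) (dlOf (nat_lit 1) (nat_lit 0x800200040008080002))))) (.nd (nat_lit 6) 
(.nd (nat_lit 28) 
(.lf (nat_lit 201998344) (dlOf (nat_lit 4) (nat_lit 0xa00bc000fa04004405e0007c02002802f000398180d0480))) 
(.lf (nat_lit 470433800) (dlOf (nat_lit 4) (nat_lit 0x2223100b9f010008116805cf40800108cc001445a016bb04000800080f0001)))) 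
(.lf (nat_lit 1007831624) (dlOf (nat_lit 1) (nat_lit 0xc0018805201))))) (.nd (nat_lit 10) 
(.nd (nat_lit 6) 
(.lf (nat_lit 738347784) (dlOf (nat_lit 2) (nat_lit 0x201480004096000403400017038095b00))) 
(.lf (nat_lit 738347976) (dlOf (nat_lit 2) (nat_lit 0x420410000e818095d80)))) (.nd (nat_lit 9) 
(.lf (nat_lit 2617398536) (dlOf (nat_lit 1) (nat_lit 0x200180a9601))) 
(.lf (nat_lit 201475848) (dlOf (nat_lit 2) (nat_lit 0x3004100023818003b80)))))) (.nd (nat_lit 28) 
(.nd (nat_lit 6) (.nd (nat_lit 29) (.nd (nat_lit 7) 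
(.lf (nat_lit 3422699528) (dlOf (nat_lit 3) (nat_lit 0x100cc00e66040008066007320200160028060001))) 
(.lf (nat_lit 1275216264) (dlOf (nat_lit 1) (nat_lit 0x1400400020008091002)))) (.nd (nat_lit 11) 
(.lf (nat_lit 3960094728) (dlOf (nat_lit 2) (nat_lit 0x88037006768181b0000))) 
(.lf (nat_lit 3959576584) (dlOf (nat_lit 2) (nat_lit 0x80178015500800780080094002004c000811a603))))) 
(.nd (nat_lit 10) 
(.lf (nat_lit 1678393416) (dlOf (nat_lit 2) (nat_lit 0x5001580000004003800400140008201882))) 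
(.lf (nat_lit 3959571528) (dlOf (nat_lit 2) (nat_lit 0x4e00000ae8818112880))))) (.nd (nat_lit 7) 
(.nd (nat_lit 19) (.lf (nat_lit 3691134984) (dlOf (nat_lit 1) (nat_lit 0xa0008050001))) 
(.lf (nat_lit 4096409608) (dlOf (nat_lit 1) (nat_lit 0x400400b80008110002)))) (.nd (nat_lit 6) 
(.nd (nat_lit 8) (.lf (nat_lit 4094839432) (dlOf (nat_lit 1) (nat_lit 0x40028055481))) 
(.lf (nat_lit 5838622088) (dlOf (nat_lit 1) (nat_lit 0xa00180f6c81)))) 
(.lf (nat_lit 1543654600) (dlOf (nat_lit 7) (nat_lit 0x2008800780260003404000400000019810034015800180a0005404a00140220017009800c80300004008003800000019080015012800f80880084026000230600460250025011001f804c000440c004804a001c022002b009800084180068008002c00200480008146383)))))))) 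
(.nd (nat_lit 28) (.nd (nat_lit 21) (.nd (nat_lit 26) (.nd (nat_lit 23) (.nd (nat_lit 6) 
(.nd (nat_lit 29) (.nd (nat_lit 7) 
(.lf (nat_lit 6442860552) (dlOf (nat_lit 1) (nat_lit 0xa00081e0001))) 
(.lf (nat_lit 21381512) (dlOf (nat_lit 1) (nat_lit 0x20028a35c81)))) (.nd (nat_lit 27) 
(.lf (nat_lit 537280520) (dlOf (nat_lit 1) (nat_lit 0x40028070501))) 
(.lf (nat_lit 2818981896) (dlOf (nat_lit 2) (nat_lit 0x406c015180200020018140001))))) 
(.nd (nat_lit 8) (.lf (nat_lit 134627912) (dlOf (nat_lit 2) (nat_lit 0x3c04600013018091100))) 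
(.lf (nat_lit 17187144) (dlOf (nat_lit 1) (nat_lit 0x8200288e0781))))) (.nd (nat_lit 7) 
(.nd (nat_lit 19) (.nd (nat_lit 20) 
(.lf (nat_lit 12992520) (dlOf (nat_lit 4) (nat_lit 0x918f002e8e0400d4c78000857a00b9f02003831e0008189400b0c1a016bb06000200186f0001))) 
(.lf (nat_lit 30818312) (dlOf (nat_lit 1) (nat_lit 0x40018e50581)))) 
(.lf (nat_lit 13516808) (dlOf (nat_lit 1) (nat_lit 0x4800200f00008730482)))) (.nd (nat_lit 8) 
(.lf (nat_lit 8800392) (dlOf (nat_lit 1) (nat_lit 0x400400040018514802))) 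
(.lf (nat_lit 8798600) (dlOf (nat_lit 1) (nat_lit 0xc00400080008511002)))))) (.nd (nat_lit 6) 
(.nd (nat_lit 8) (.nd (nat_lit 22) 
(.lf (nat_lit 2349219848) (dlOf (nat_lit 1) (nat_lit 0x3a00081c0401))) 
(.lf (nat_lit 2756067336) (dlOf (nat_lit 5) (nat_lit 0x1000e0173e02000605500b5d81000e01c80578008000815000040a600020500002027005524200038008000c002000400081e0003)))) 
(.lf (nat_lit 4362486024) (dlOf (nat_lit 1) (nat_lit 0x700080054002007a0008090483)))) 
(.nd (nat_lit 7) (.nd (nat_lit 19) 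
(.lf (nat_lit 201736776) (dlOf (nat_lit 2) (nat_lit 0x3c04600013018091100))) 
(.lf (nat_lit 2752397896) (dlOf (nat_lit 5) (nat_lit 0x13a15900bd0ab8000901004e856403ec2ae0002004011c1590000f8101020ab800074080088008003c002001e0008018d03)))) 
(.lf (nat_lit 4362486216) (dlOf (nat_lit 16) (nat_lit 0x18047000178100290238000b00801e011c000540400f008e000202d0000f82003c023800080b40003a0800100a60080047000101680007018003814c010c08e000202d0000d030001029801d011c000405a00019060078047000101680005810022011c000405a000140400080530041023800080b4000260c00f008e0001202000202d000078100010168000340801e011c0001204004400200940008090982)))))) 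
(.nd (nat_lit 7) (.nd (nat_lit 22) (.nd (nat_lit 6) (.nd (nat_lit 10) 
(.lf (nat_lit 19808776) (dlOf (nat_lit 1) (nat_lit 0x800801ac002005e00089d1483))) 
(.lf (nat_lit 2755022344) (dlOf (nat_lit 1) (nat_lit 0x4002000200080f7002)))) 
(.lf (nat_lit 11944264) (dlOf (nat_lit 2) (nat_lit 0x52d8000238186c0600)))) (.nd (nat_lit 6) 
(.nd (nat_lit 19) 
(.lf (nat_lit 15089672) (dlOf (nat_lit 6) (nat_lit 0x12957009d47500801f5c0134fac00807d4000d3d600029eac0028f52004675f000539980139cc800c7e2c02751d401c27d700073998018a0180099f5c00c240400111d4018a7d7002dc8200b93eb801694080290008003c002004600087b0283))) 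
(.lf (nat_lit 15613960) (dlOf (nat_lit 2) (nat_lit 0x124f0016a0080010008000c00200040008810283)))) 
(.lf (nat_lit 23478600) (dlOf (nat_lit 1) (nat_lit 0x10008000400200020008b80603))))) 
(.nd (nat_lit 8) (.nd (nat_lit 6) (.nd (nat_lit 20) 
(.lf (nat_lit 23478408) (dlOf (nat_lit 1) (nat_lit 0x8008000400200020008b80103))) 
(.lf (nat_lit 11944072) (dlOf (nat_lit 1) (nat_lit 0x4002000200086c0102)))) 
(.lf (nat_lit 19815112) (dlOf (nat_lit 1) (nat_lit 0x200289db981)))) (.nd (nat_lit 9) 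
(.lf (nat_lit 8274312) (dlOf (nat_lit 1) (nat_lit 0x3400400060008511002))) 
(.lf (nat_lit 2754501512) (dlOf (nat_lit 1) (nat_lit 0x400180fbc81))))))) (.nd (nat_lit 26) 
(.nd (nat_lit 7) (.nd (nat_lit 8) (.nd (nat_lit 20) 
(.lf (nat_lit 3494264840) (dlOf (nat_lit 5) (nat_lit 0x380720173e020002054000102980008140000809c016bb08000800700af001000302a805524080038008000c002000400081e0003))) 
(.lf (nat_lit 1343635464) (dlOf (nat_lit 3) (nat_lit 0x382c2001614e000904e800502380174a1000542c2002214e001204e800a82380168a10009c002001a00082d0282)))) 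
(.nd (nat_lit 9) (.lf (nat_lit 805716232) (dlOf (nat_lit 1) (nat_lit 0x47800401e600081a0482))) 
(.lf (nat_lit 1344161544) (dlOf (nat_lit 2) (nat_lit 0x1092400b447e00b81c7000288383d3b80))))) 
(.nd (nat_lit 8) (.nd (nat_lit 6) (.nd (nat_lit 11) 
(.lf (nat_lit 5773344904) (dlOf (nat_lit 1) (nat_lit 0x600080c0e01))) 
(.lf (nat_lit 3492694152) (dlOf (nat_lit 2) (nat_lit 0x4011000060040014002000200080f4802)))) 
(.lf (nat_lit 3490073800) (dlOf (nat_lit 1) (nat_lit 0x8008000400200020008006383)))) 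
(.nd (nat_lit 19) (.lf (nat_lit 5772820872) (dlOf (nat_lit 1) (nat_lit 0x140028091001))) 
(.lf (nat_lit 5772296584) (dlOf (nat_lit 2) (nat_lit 0x1098800084c0002c008006c00400060008091002)))))) 
(.nd (nat_lit 27) (.nd (nat_lit 29) (.nd (nat_lit 30) 
(.lf (nat_lit 2483437576) (dlOf (nat_lit 1) (nat_lit 0x3a00081c0401))) 
(.lf (nat_lit 1409695752) (dlOf (nat_lit 1) (nat_lit 0x40028070501)))) (.nd (nat_lit 6) 
(.lf (nat_lit 4094577416) (dlOf (nat_lit 2) (nat_lit 0x180000000b8080010008005800200080008055b03))) 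
(.lf (nat_lit 1946566728) (dlOf (nat_lit 1) (nat_lit 0x80080064002000600080c1483))))) 
(.nd (nat_lit 6) (.nd (nat_lit 29) 
(.lf (nat_lit 5838880776) (dlOf (nat_lit 1) (nat_lit 0xa00081e0001))) 
(.lf (nat_lit 3154526216) (dlOf (nat_lit 2) (nat_lit 0x802c003280181f0480)))) (.nd (nat_lit 8) 
(.lf (nat_lit 6377324744) (dlOf (nat_lit 1) (nat_lit 0x4002000200080c1b82))) 
(.lf (nat_lit 4228268488) (dlOf (nat_lit 16) (nat_lit 0x18040000178100290200000b00801e0100000540400f0080000202c000100200040260020010000040580001f0600780400001016000070100038130010c080000202c0000d030001026001d0100000405800019060078040000101600005810022010000040580001404000804c0041020000080b0000260c00f00800001202000202c000078100010160000380801e01000001204004400200940008090982))))))))) 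
(.nd (nat_lit 18) (.nd (nat_lit 6) (.nd (nat_lit 7) (.nd (nat_lit 29) (.nd (nat_lit 25) 
(.nd (nat_lit 8) (.nd (nat_lit 19) 
(.lf (nat_lit 15941640) (dlOf (nat_lit 1) (nat_lit 0x400400020008850282))) 
(.lf (nat_lit 13320200) (dlOf (nat_lit 2) (nat_lit 0x215e8015b404000400200020008720802)))) 
(.nd (nat_lit 9) 
(.lf (nat_lit 3556987144) (dlOf (nat_lit 1) (nat_lit 0x8008000400200020008128083))) 
(.lf (nat_lit 268651272) (dlOf (nat_lit 2) (nat_lit 0x20100000b8080028008002c002000800080e5b03))))) 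
(.nd (nat_lit 24) (.nd (nat_lit 8) 
(.lf (nat_lit 44253192) (dlOf (nat_lit 1) (nat_lit 0x80080004002000200092e0003))) 
(.lf (nat_lit 36390152) (dlOf (nat_lit 1) (nat_lit 0x20019072f81)))) (.nd (nat_lit 22) 
(.lf (nat_lit 52641800) (dlOf (nat_lit 1) (nat_lit 0x68008000400200160009560083))) 
(.lf (nat_lit 56836104) (dlOf (nat_lit 1) (nat_lit 0x400400020009770002)))))) (.nd (nat_lit 27) 
(.nd (nat_lit 26) (.nd (nat_lit 8) (.nd (nat_lit 11) 
(.lf (nat_lit 2953003016) (dlOf (nat_lit 11) (nat_lit 0x880700029204011c0380012a02002001c0009301003300e000434080018070001de0401c0036000e902002001c0007381000600e00035c08008007000006040064038000010200040018080481))) 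
(.lf (nat_lit 5905795080) (dlOf (nat_lit 1) (nat_lit 0x400200020008144702)))) 
(.lf (nat_lit 1611350280) (dlOf (nat_lit 2) (nat_lit 0x806400071818133580)))) (.nd (nat_lit 10) 
(.lf (nat_lit 604192776) (dlOf (nat_lit 1) (nat_lit 0xc8008028c00200940008080483))) 
(.lf (nat_lit 2751677448) (dlOf (nat_lit 1) (nat_lit 0xac0018002881))))) (.nd (nat_lit 8) 
(.nd (nat_lit 19) (.nd (nat_lit 26) 
(.lf (nat_lit 939737096) (dlOf (nat_lit 2) (nat_lit 0x3007000cce04003c002000e0008160002))) 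
(.lf (nat_lit 1812152328) (dlOf (nat_lit 2) (nat_lit 0x30070017f804003c002000e0008160002)))) 
(.lf (nat_lit 2819309576) (dlOf (nat_lit 4) (nat_lit 0x40de00b790200260340058c010008037802c5c0800c8008005800200180008230283)))) 
(.nd (nat_lit 9) (.lf (nat_lit 2885896456) (dlOf (nat_lit 1) (nat_lit 0x80028144b81))) 
(.lf (nat_lit 2818791176) (dlOf (nat_lit 3) (nat_lit 0x2046004e68100010390000000803b000801300020074000812a003))))))) 
(.nd (nat_lit 8) (.nd (nat_lit 20) (.nd (nat_lit 26) (.nd (nat_lit 9) 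
(.lf (nat_lit 23281800) (dlOf (nat_lit 1) (nat_lit 0x8008002800200200008b80103))) 
(.lf (nat_lit 4160968328) (dlOf (nat_lit 3) (nat_lit 0xc0056001601a0001202000f01580000008006800800d0002002e00080a9e03)))) 
(.nd (nat_lit 11) 
(.lf (nat_lit 1275281544) (dlOf (nat_lit 2) (nat_lit 0x7005000000040080004000600080c0e02))) 
(.lf (nat_lit 4228597896) (dlOf (nat_lit 1) (nat_lit 0x1240028114801))))) (.nd (nat_lit 9) 
(.nd (nat_lit 21) 
(.lf (nat_lit 9650312) (dlOf (nat_lit 4) (nat_lit 0x39260001b01000fd258018691401134860037a410012d1f801868ec00bf47200079f3001ecef8000e5e400372f00011977000ecbb000d65cc003b2e4005f9570044bd98017dec400f6ec0005f75d0007873800b24c800190ac000684e000a36a0000d4c8008d7400015146000320400120028570e01))) 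
(.lf (nat_lit 62079112) (dlOf (nat_lit 1) (nat_lit 0x52000202ce0009950e02)))) 
(.lf (nat_lit 4094904968) (dlOf (nat_lit 1) (nat_lit 0x4004006c0008055482))))) (.nd (nat_lit 31) 
(.nd (nat_lit 21) (.nd (nat_lit 27) 
(.lf (nat_lit 5368922504) (dlOf (nat_lit 1) (nat_lit 0x6e0018091001))) 
(.lf (nat_lit 402866568) (dlOf (nat_lit 1) (nat_lit 0x1400400020008091002)))) (.nd (nat_lit 9) 
(.lf (nat_lit 69945736) (dlOf (nat_lit 1) (nat_lit 0x20028e14e81))) 
(.lf (nat_lit 20136840) (dlOf (nat_lit 1) (nat_lit 0x400189d2581))))) (.nd (nat_lit 11) 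
(.nd (nat_lit 9) 
(.lf (nat_lit 3288547720) (dlOf (nat_lit 1) (nat_lit 0x50008002c00200160008090783))) 
(.lf (nat_lit 3959637896) (dlOf (nat_lit 1) (nat_lit 0x20018114181)))) (.nd (nat_lit 19) 
(.lf (nat_lit 3221441928) (dlOf (nat_lit 1) (nat_lit 0x1c0018116c81))) 
(.lf (nat_lit 3490401672) (dlOf (nat_lit 1) (nat_lit 0x20008006c81)))))))) (.nd (nat_lit 28) 
(.nd (nat_lit 12) (.nd (nat_lit 20) (.nd (nat_lit 9) (.nd (nat_lit 26) (.nd (nat_lit 27) 
(.lf (nat_lit 4295180360) (dlOf (nat_lit 1) (nat_lit 0x200280a0e01))) 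
(.lf (nat_lit 134430792) (dlOf (nat_lit 1) (nat_lit 0x400400020008020882)))) 
(.lf (nat_lit 201539656) (dlOf (nat_lit 1) (nat_lit 0x400400020008020882)))) (.nd (nat_lit 7) 
(.lf (nat_lit 3288547912) (dlOf (nat_lit 1) (nat_lit 0xbc00400860008091102))) 
(.lf (nat_lit 216776) (dlOf (nat_lit 1) (nat_lit 0x800400020018007302))))) (.nd (nat_lit 7) 
(.nd (nat_lit 21) (.lf (nat_lit 22233416) (dlOf (nat_lit 1) (nat_lit 0x40018ab7f01))) 
(.lf (nat_lit 28524872) (dlOf (nat_lit 1) (nat_lit 0x8008000400200020008da0783)))) 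
(.lf (nat_lit 20139208) (dlOf (nat_lit 1) (nat_lit 0x80080004002000200089d6383))))) 
(.nd (nat_lit 7) (.nd (nat_lit 8) (.nd (nat_lit 11) 
(.lf (nat_lit 8605768) (dlOf (nat_lit 1) (nat_lit 0x20028517d81))) 
(.lf (nat_lit 219208) (dlOf (nat_lit 2) (nat_lit 0x1002a00220020006001800a681)))) 
(.lf (nat_lit 3758314824) (dlOf (nat_lit 2) (nat_lit 0x2401c801200b8009004e00a350600020018129901)))) 
(.nd (nat_lit 8) (.nd (nat_lit 20) 
(.lf (nat_lit 217800) (dlOf (nat_lit 1) (nat_lit 0x400200020008008c82))) 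
(.lf (nat_lit 20140744) (dlOf (nat_lit 1) (nat_lit 0xf00080004002005200089d8c83)))) 
(.lf (nat_lit 3221445576) (dlOf (nat_lit 6) (nat_lit 0x8023000464080050118001c08a00110040016046000a02280043c100040118002408a0010e040014046000a0228004341001f800800400020002000811be83)))))) 
(.nd (nat_lit 31) (.nd (nat_lit 27) (.nd (nat_lit 7) 
(.lf (nat_lit 1342390344) (dlOf (nat_lit 2) (nat_lit 0x22490001b818020880))) 
(.lf (nat_lit 268651464) (dlOf (nat_lit 5) (nat_lit 0xe01b0000e81005a0140000600800280a00002a0400640500001102000c00180e5d81)))) 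
(.nd (nat_lit 26) (.lf (nat_lit 4697833544) (dlOf (nat_lit 1) (nat_lit 0x4004000200080a1682))) 
(.lf (nat_lit 469975112) (dlOf (nat_lit 2) (nat_lit 0x22490001b818020880))))) (.nd (nat_lit 8) 
(.nd (nat_lit 9) (.lf (nat_lit 4095951944) (dlOf (nat_lit 1) (nat_lit 0x4004000200080e2882))) 
(.lf (nat_lit 4026745416) (dlOf (nat_lit 1) (nat_lit 0xbc00400860008091102)))) (.nd (nat_lit 7) 
(.lf (nat_lit 3489877320) (dlOf (nat_lit 1) (nat_lit 0x80018006981))) 
(.lf (nat_lit 4095951304) (dlOf (nat_lit 1) (nat_lit 0x30008001c002000200080e1103)))))))) 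
(.nd (nat_lit 7) (.nd (nat_lit 20) (.nd (nat_lit 6) (.nd (nat_lit 19) (.nd (nat_lit 9) 
(.nd (nat_lit 26) 
(.lf (nat_lit 2572296) (dlOf (nat_lit 3) (nat_lit 0x10a5c00dd901000852e006ec4080010008010000200160008170003))) 
(.lf (nat_lit 1009205256) (dlOf (nat_lit 1) (nat_lit 0x80080004002000200090a0003)))) 
(.lf (nat_lit 1476872712) (dlOf (nat_lit 1) (nat_lit 0x4004000200082d5002)))) (.nd (nat_lit 8) 
(.lf (nat_lit 17776648) (dlOf (nat_lit 1) (nat_lit 0x28004006c00188f0482))) (.nd (nat_lit 12) 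
(.lf (nat_lit 472858888) (dlOf (nat_lit 2) (nat_lit 0x42ca000fd0200ca0018b27c01))) 
(.lf (nat_lit 19878152) (dlOf (nat_lit 1) (nat_lit 0x4004000400189d8082)))))) (.nd (nat_lit 8) 
(.nd (nat_lit 9) (.nd (nat_lit 10) 
(.lf (nat_lit 3557245000) (dlOf (nat_lit 1) (nat_lit 0xc0018170681))) 
(.lf (nat_lit 5772362824) (dlOf (nat_lit 1) (nat_lit 0x800400020008092882)))) 
(.lf (nat_lit 3097160) (dlOf (nat_lit 2) (nat_lit 0x1c2a4000158080010008001000200020008201103)))) 
(.nd (nat_lit 9) 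
(.lf (nat_lit 6376341832) (dlOf (nat_lit 6) (nat_lit 0xe609000009c0802784800004c0403b4240000240201de120000118100010908000000801d8008003400200620008090c83))) 
(.lf (nat_lit 19876680) (dlOf (nat_lit 1) (nat_lit 0x4002000200089d5c02)))))) (.nd (nat_lit 19) 
(.nd (nat_lit 21) (.nd (nat_lit 8) (.nd (nat_lit 26) 
(.lf (nat_lit 1343701000) (dlOf (nat_lit 1) (nat_lit 0x160018330001))) 
(.lf (nat_lit 4095164424) (dlOf (nat_lit 1) (nat_lit 0x2800200020008070002)))) 
(.lf (nat_lit 47662344) (dlOf (nat_lit 1) (nat_lit 0x100080084002003e0009402f83)))) 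
(.nd (nat_lit 6) (.lf (nat_lit 3620872) (dlOf (nat_lit 1) (nat_lit 0x3800200120008210402))) 
(.nd (nat_lit 25) 
(.lf (nat_lit 3620936) (dlOf (nat_lit 4) (nat_lit 0x11c5110088264803a131c000640c0028992001e4c700300000000c0180049444000c0000002b0400060008210e01))) 
(.lf (nat_lit 37175368) (dlOf (nat_lit 1) (nat_lit 0x8008000c002000200090b0603)))))) 
(.nd (nat_lit 21) (.nd (nat_lit 24) (.nd (nat_lit 23) 
(.lf (nat_lit 69156872) (dlOf (nat_lit 1) (nat_lit 0x4004000200088c0002))) 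
(.lf (nat_lit 10436616) (dlOf (nat_lit 1) (nat_lit 0x2a00285d0481)))) (.nd (nat_lit 22) 
(.lf (nat_lit 52379656) (dlOf (nat_lit 1) (nat_lit 0x8008000400200020009530003))) 
(.lf (nat_lit 23019528) (dlOf (nat_lit 2) (nat_lit 0x272c100196a04001000200080008b40002))))) 
(.nd (nat_lit 23) (.lf (nat_lit 20922376) (dlOf (nat_lit 2) (nat_lit 0x11b26004a70189f0000))) 
(.lf (nat_lit 29310984) (dlOf (nat_lit 1) (nat_lit 0x280080008002000a0008df0003))))))) 
(.nd (nat_lit 6) (.nd (nat_lit 8) (.nd (nat_lit 26) (.nd (nat_lit 22) (.nd (nat_lit 11) 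
(.lf (nat_lit 537346184) (dlOf (nat_lit 1) (nat_lit 0x8008000400200020008090103))) 
(.lf (nat_lit 477320) (dlOf (nat_lit 1) (nat_lit 0x400400920008004802)))) (.nd (nat_lit 19) 
(.lf (nat_lit 23543944) (dlOf (nat_lit 1) (nat_lit 0x800200040008b80102))) 
(.lf (nat_lit 47136904) (dlOf (nat_lit 1) (nat_lit 0x4004000200093b0f02))))) (.nd (nat_lit 10) 
(.nd (nat_lit 11) 
(.lf (nat_lit 1409761416) (dlOf (nat_lit 1) (nat_lit 0x8008000400200020008090103))) 
(.lf (nat_lit 1946634376) (dlOf (nat_lit 1) (nat_lit 0x400180f4801)))) 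
(.lf (nat_lit 604456072) (dlOf (nat_lit 1) (nat_lit 0x200082d2b01))))) (.nd (nat_lit 19) 
(.nd (nat_lit 23) 
(.lf (nat_lit 5772886408) (dlOf (nat_lit 2) (nat_lit 0xa8000002c00400cc00400060018091002))) 
(.lf (nat_lit 43467144) (dlOf (nat_lit 1) (nat_lit 0x200292a1001)))) (.nd (nat_lit 9) 
(.lf (nat_lit 8339848) (dlOf (nat_lit 1) (nat_lit 0x20018511001))) 
(.lf (nat_lit 2754567048) (dlOf (nat_lit 1) (nat_lit 0xb4002002400080fbc82)))))) (.nd (nat_lit 28) 
(.nd (nat_lit 8) (.nd (nat_lit 10) 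
(.lf (nat_lit 1678196936) (dlOf (nat_lit 1) (nat_lit 0x80080008002000200081a0403))) 
(.lf (nat_lit 47662280) (dlOf (nat_lit 7) (nat_lit 0x33af000225524000500800aebc0006d54900013020043af00023d524000380800cebc000735490000d820039af0001c552400006080062bc000595490017000000000180040008000400200020009402d03)))) 
(.lf (nat_lit 57099208) (dlOf (nat_lit 1) (nat_lit 0xa0029792881)))) (.nd (nat_lit 8) 
(.nd (nat_lit 10) 
(.lf (nat_lit 805781704) (dlOf (nat_lit 1) (nat_lit 0x80080008002000200081a0403))) 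
(.lf (nat_lit 3490139336) (dlOf (nat_lit 3) (nat_lit 0x581100003202000a0d6000304400008c1000600080058002000c0008006383)))) 
(.lf (nat_lit 1476871112) (dlOf (nat_lit 1) (nat_lit 0x1800282d2881)))))))))))

end

end Pool.Agent.Lib.MP_5854e1_co.Cz
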