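import Pool.Agent.Lib.MP_5854e1_co.DecRow

/-!
# Sparse corrections
-/

set_option autoImplicit false
set_option maxRecDepth 100000

namespace Pool.Agent.Lib.MP_5854e1_co.Cz

noncomputable section

noncomputable def tz79 : DT := (.nd (nat_lit 4) (.nd (nat_lit 18) (.nd (nat_lit 17) 
(.nd (nat_lit 28) (.nd (nat_lit 5) (.nd (nat_lit 19) (.nd (nat_lit 6) (.nd (nat_lit 8) 
(.nd (nat_lit 10) (.nd (nat_lit 21) 
(.lf (nat_lit 3959504909) (dlOf (nat_lit 1) (nat_lit 0x20018090001))) 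
(.lf (nat_lit 44122125) (dlOf (nat_lit 1) (nat_lit 0x2400292c0001)))) (.nd (nat_lit 20) 
(.lf (nat_lit 46222349) (dlOf (nat_lit 2) (nat_lit 0x4a4d0003cdc800184a8000560600080029385f81))) 
(.lf (nat_lit 59853837) (dlOf (nat_lit 1) (nat_lit 0x4000400040009845f82))))) (.nd (nat_lit 11) 
(.nd (nat_lit 21) (.lf (nat_lit 738279693) (dlOf (nat_lit 1) (nat_lit 0xe0018090a81))) 
(.lf (nat_lit 10567949) (dlOf (nat_lit 1) (nat_lit 0x11800285f7d01)))) (.nd (nat_lit 7) 
(.lf (nat_lit 671172877) (dlOf (nat_lit 1) (nat_lit 0x1400400020008144b82))) 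
(.lf (nat_lit 48318861) (dlOf (nat_lit 1) (nat_lit 0x400200040009404e82)))))) (.nd (nat_lit 26) 
(.nd (nat_lit 9) (.nd (nat_lit 7) 
(.lf (nat_lit 16859213) (dlOf (nat_lit 6) (nat_lit 0xc78ce000c0020067d170002e42004af1a002638ce004bbea000bdf4800ad6d002324d8001b00500857b580103c38001182c0027908014fc6800abe3380056fa8026e4d80014f6b00045860025e8b804d71a002778ce005fbea000ddf4800cd6d0022e4d8002500500847b58004bc380011228000b8d00013c670005df500022018042800801dc002009200088e0183))) 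
(.lf (nat_lit 6576750797) (dlOf (nat_lit 2) (nat_lit 0x480000046e04003c002001800080b0482)))) 
(.nd (nat_lit 8) (.lf (nat_lit 20009677) (dlOf (nat_lit 1) (nat_lit 0x4002000200089d8c82))) 
(.lf (nat_lit 2818655181) (dlOf (nat_lit 1) (nat_lit 0x1600180d2881))))) (.nd (nat_lit 7) 
(.nd (nat_lit 29) 
(.lf (nat_lit 2348892493) (dlOf (nat_lit 2) (nat_lit 0x1014000178080058008002c00200060008014c83))) 
(.lf (nat_lit 738279757) (dlOf (nat_lit 1) (nat_lit 0x7000400080008090d02)))) (.nd (nat_lit 27) 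
(.nd (nat_lit 31) 
(.lf (nat_lit 5972771021) (dlOf (nat_lit 2) (nat_lit 0x480000046e04003c002001800080b0482))) 
(.lf (nat_lit 3825287373) (dlOf (nat_lit 2) (nat_lit 0x2007c0044036000c017000e88380b0480)))) 
(.lf (nat_lit 1812021453) (dlOf (nat_lit 2) (nat_lit 0xe0090001c03e006801a00b60000008f02000b8008002c00200b400080b0483))))))) 
(.nd (nat_lit 20) (.nd (nat_lit 21) (.nd (nat_lit 10) (.nd (nat_lit 26) (.nd (nat_lit 6) 
(.lf (nat_lit 134823949) (dlOf (nat_lit 1) (nat_lit 0x180080010002000400080c0803))) 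
(.lf (nat_lit 3221831757) (dlOf (nat_lit 1) (nat_lit 0x600081a1501)))) (.nd (nat_lit 27) 
(.lf (nat_lit 4362682381) (dlOf (nat_lit 1) (nat_lit 0x19800080d0681))) 
(.lf (nat_lit 201932813) (dlOf (nat_lit 1) (nat_lit 0x180080010002000400080c0803))))) 
(.nd (nat_lit 9) (.lf (nat_lit 46746637) (dlOf (nat_lit 1) (nat_lit 0x5c002000c0009385f82))) 
(.lf (nat_lit 609805) (dlOf (nat_lit 1) (nat_lit 0x240008007081))))) (.nd (nat_lit 7) 
(.nd (nat_lit 23) (.lf (nat_lit 2754166797) (dlOf (nat_lit 1) (nat_lit 0x7800180c0801))) 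
(.lf (nat_lit 27869197) (dlOf (nat_lit 2) (nat_lit 0x7505000228080188008005000200280008d30183)))) 
(.lf (nat_lit 23675021) (dlOf (nat_lit 1) (nat_lit 0xc00200060008b80102))))) (.nd (nat_lit 21) 
(.nd (nat_lit 6) (.nd (nat_lit 10) 
(.lf (nat_lit 68763661) (dlOf (nat_lit 1) (nat_lit 0x80018740001))) 
(.lf (nat_lit 56181773) (dlOf (nat_lit 1) (nat_lit 0x20009732881)))) 
(.lf (nat_lit 14237901) (dlOf (nat_lit 1) (nat_lit 0x400400020008750482)))) (.nd (nat_lit 8) 
(.nd (nat_lit 22) (.lf (nat_lit 2755215373) (dlOf (nat_lit 1) (nat_lit 0x140018130481))) 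
(.lf (nat_lit 16334861) (dlOf (nat_lit 4) (nat_lit 0x20ab2000b10200ae56900452b4000a1564003ca7a003e474000438500072a2800000080220008004c00200100008890183)))) 
(.nd (nat_lit 6) 
(.lf (nat_lit 58278157) (dlOf (nat_lit 2) (nat_lit 0xe5778007000800b0008004c002000200097d7403))) 
(.lf (nat_lit 37307341) (dlOf (nat_lit 1) (nat_lit 0x80080004002000200090d2883)))))))) 
(.nd (nat_lit 7) (.nd (nat_lit 19) (.nd (nat_lit 6) (.nd (nat_lit 9) (.nd (nat_lit 22) 
(.lf (nat_lit 27344941) (dlOf (nat_lit 2) (nat_lit 0x4b61000060040024004000a0008cd0802))) 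
(.lf (nat_lit 23150637) (dlOf (nat_lit 1) (nat_lit 0x20018b60901)))) (.nd (nat_lit 10) 
(.lf (nat_lit 59853357) (dlOf (nat_lit 1) (nat_lit 0xc0029845181))) 
(.lf (nat_lit 2885766701) (dlOf (nat_lit 1) (nat_lit 0x20028007181))))) (.nd (nat_lit 8) 
(.lf (nat_lit 12664941) (dlOf (nat_lit 1) (nat_lit 0x1000286d1501))) (.nd (nat_lit 20) 
(.lf (nat_lit 1677803885) (dlOf (nat_lit 1) (nat_lit 0x620028090781))) 
(.lf (nat_lit 43073901) (dlOf (nat_lit 1) (nat_lit 0x2c00292a0f81)))))) (.nd (nat_lit 29) 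
(.nd (nat_lit 6) (.nd (nat_lit 10) 
(.lf (nat_lit 134823981) (dlOf (nat_lit 3) (nat_lit 0x600500008c08005000000040040058002003a00080c0d82))) 
(.lf (nat_lit 609325) (dlOf (nat_lit 1) (nat_lit 0x20028006081)))) 
(.lf (nat_lit 45695085) (dlOf (nat_lit 1) (nat_lit 0x5c00400080009352482)))) (.nd (nat_lit 6) 
(.nd (nat_lit 27) 
(.lf (nat_lit 537477165) (dlOf (nat_lit 3) (nat_lit 0x42059000138100b902c80000008020000800b400200c200080a0983))) 
(.lf (nat_lit 3892920365) (dlOf (nat_lit 3) (nat_lit 0xa002c0000502001c024001f00a0000001001000080010002005c0008290e03)))) 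
(.lf (nat_lit 537477229) (dlOf (nat_lit 1) (nat_lit 0x168008005c002009e00080a1503)))))) 
(.nd (nat_lit 10) (.nd (nat_lit 6) (.nd (nat_lit 8) (.nd (nat_lit 9) 
(.lf (nat_lit 4362160301) (dlOf (nat_lit 1) (nat_lit 0x60018004901))) 
(.lf (nat_lit 2147568301) (dlOf (nat_lit 1) (nat_lit 0x8008000400200020008095683)))) 
(.lf (nat_lit 2348892589) (dlOf (nat_lit 1) (nat_lit 0xc00400040008017182)))) (.nd (nat_lit 8) 
(.nd (nat_lit 9) (.lf (nat_lit 58278125) (dlOf (nat_lit 1) (nat_lit 0x4a00297d6e81))) 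
(.lf (nat_lit 50416365) (dlOf (nat_lit 1) (nat_lit 0x80080054002000200094c5a03)))) 
(.lf (nat_lit 2818655213) (dlOf (nat_lit 1) (nat_lit 0x4004000200080d2882))))) (.nd (nat_lit 26) 
(.nd (nat_lit 9) 
(.lf (nat_lit 6039884973) (dlOf (nat_lit 2) (nat_lit 0x58000006620200060018009501))) 
(.lf (nat_lit 609965) (dlOf (nat_lit 1) (nat_lit 0x400400920008007282)))) (.nd (nat_lit 27) 
(.lf (nat_lit 67196077) (dlOf (nat_lit 2) (nat_lit 0x381b401440d90033c828009500))) 
(.nd (nat_lit 30) 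
(.lf (nat_lit 6643864749) (dlOf (nat_lit 2) (nat_lit 0x4002300960108001807800cc40c001400200040008009502))) 
(.lf (nat_lit 3422639277) (dlOf (nat_lit 1) (nat_lit 0x40018009501))))))))) (.nd (nat_lit 30) 
(.nd (nat_lit 7) (.nd (nat_lit 5) (.nd (nat_lit 8) (.nd (nat_lit 11) (.nd (nat_lit 19) 
(.nd (nat_lit 21) (.lf (nat_lit 1006714893) (dlOf (nat_lit 1) (nat_lit 0x1080008020481))) 
(.lf (nat_lit 471941133) (dlOf (nat_lit 11) (nat_lit 0x1c39c0016002001e1cc000af81000711d80008710002b008001c39c00156020012242000211b00008740001439800021c400010e00003643000108ec000446c00041d000020e600008700001b014000448c000a242000311b00010730000c38800041c00006b86000712300010908000c476000a23600030e800018730001c38800061c0000678800011210003380800089180008484000c23b000211b00020740000839800021c400020e0000334400010008003c002006a00086d0583)))) 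
(.lf (nat_lit 474562573) (dlOf (nat_lit 2) (nat_lit 0x190ab8000000801800080130002000800091a0003)))) 
(.nd (nat_lit 10) (.lf (nat_lit 469846029) (dlOf (nat_lit 1) (nat_lit 0x70004002c0008004702))) 
(.lf (nat_lit 6710971405) (dlOf (nat_lit 1) (nat_lit 0x28008000400200020008005f83))))) 
(.nd (nat_lit 6) (.lf (nat_lit 1008288013) (dlOf (nat_lit 1) (nat_lit 0x800400020008b47402))) 
(.lf (nat_lit 2483110221) (dlOf (nat_lit 2) (nat_lit 0x1014000004080058008002c00200060008014c83))))) 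
(.nd (nat_lit 6) (.nd (nat_lit 19) (.nd (nat_lit 21) 
(.lf (nat_lit 3087089709) (dlOf (nat_lit 2) (nat_lit 0x1808001afe040014004000600080b0002))) 
(.lf (nat_lit 471941165) (dlOf (nat_lit 1) (nat_lit 0x800086d0b01)))) (.nd (nat_lit 20) 
(.lf (nat_lit 474562605) (dlOf (nat_lit 2) (nat_lit 0x414d0000e8191a0280))) 
(.lf (nat_lit 471416877) (dlOf (nat_lit 2) (nat_lit 0x42d600020c9000390282f0e00))))) 
(.nd (nat_lit 8) 
(.lf (nat_lit 469848685) (dlOf (nat_lit 5) (nat_lit 0x210e8029180800108740148404000843a00a3902000821d00518018008980))) 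
(.nd (nat_lit 9) (.lf (nat_lit 805388653) (dlOf (nat_lit 1) (nat_lit 0x620028090781))) 
(.lf (nat_lit 4563487597) (dlOf (nat_lit 1) (nat_lit 0x14000804ec002004c0008095c03))))))) 
(.nd (nat_lit 6) (.nd (nat_lit 9) (.nd (nat_lit 5) 
(.lf (nat_lit 472467853) (dlOf (nat_lit 1) (nat_lit 0x240008984e81))) (.nd (nat_lit 8) 
(.lf (nat_lit 469846189) (dlOf (nat_lit 1) (nat_lit 0x120018004901))) (.nd (nat_lit 11) 
(.lf (nat_lit 3087090093) (dlOf (nat_lit 2) (nat_lit 0x4801d00c1f8180b0780))) 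
(.lf (nat_lit 474040749) (dlOf (nat_lit 1) (nat_lit 0x400400020009004e82)))))) (.nd (nat_lit 5) 
(.lf (nat_lit 4563487629) (dlOf (nat_lit 1) (nat_lit 0x20018095c81))) (.nd (nat_lit 8) 
(.lf (nat_lit 5234576045) (dlOf (nat_lit 2) (nat_lit 0xc017000044080050008001800200200008055683))) 
(.lf (nat_lit 5234576301) (dlOf (nat_lit 3) (nat_lit 0x1802e0001b010002017000000080058008004c00200020008055d03)))))) 
(.nd (nat_lit 5) (.nd (nat_lit 8) (.nd (nat_lit 31) 
(.lf (nat_lit 939606221) (dlOf (nat_lit 2) (nat_lit 0xe0090001c03e006801a00b60000008f02000b8008002c00200b400080b0483))) 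
(.lf (nat_lit 3087089869) (dlOf (nat_lit 2) (nat_lit 0x2007c0044036000c017000e88380b0480)))) 
(.lf (nat_lit 5234576333) (dlOf (nat_lit 2) (nat_lit 0x60300003017000084100030008002000200160008055d83)))) 
(.nd (nat_lit 9) (.nd (nat_lit 19) 
(.lf (nat_lit 4563484909) (dlOf (nat_lit 2) (nat_lit 0x1400900053c0800c0008002000200720008090a83))) 
(.lf (nat_lit 3154723053) (dlOf (nat_lit 2) (nat_lit 0x28064000f604000400400060018310602)))) 
(.lf (nat_lit 2617328365) (dlOf (nat_lit 1) (nat_lit 0x400002011200080a2102))))))) 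
(.nd (nat_lit 11) (.nd (nat_lit 26) (.nd (nat_lit 8) (.nd (nat_lit 5) (.nd (nat_lit 7) 
(.lf (nat_lit 3492364301) (dlOf (nat_lit 1) (nat_lit 0x7800180c0801))) 
(.lf (nat_lit 3491840141) (dlOf (nat_lit 2) (nat_lit 0x5e0240001b018090100)))) 
(.lf (nat_lit 1343307821) (dlOf (nat_lit 6) (nat_lit 0xe1ad0002b0100f00d6803286a001542c603f415500710a1000a84e01b1c25e00aa12b016f0920085839405b0194017c0bc001905b8005029c01d413e018a095000a041003901c806e007800020380109014000d805001ac000000542e003a1ad000258100860d6800106a006382aa00081420685097801a849005781ca00bc0bc00530538008027c03c412a001a072015901e005600a0000c0280006000000229000030ce80009c08264000826040021c4600081e0683)))) 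
(.nd (nat_lit 5) (.nd (nat_lit 6) 
(.lf (nat_lit 4160836877) (dlOf (nat_lit 1) (nat_lit 0xa0018009681))) 
(.lf (nat_lit 3493937485) (dlOf (nat_lit 2) (nat_lit 0x481a80008c04000c004000800181b0602)))) 
(.lf (nat_lit 5773542701) (dlOf (nat_lit 1) (nat_lit 0x15800280e3201))))) (.nd (nat_lit 6) 
(.nd (nat_lit 5) (.nd (nat_lit 10) 
(.lf (nat_lit 4228464653) (dlOf (nat_lit 1) (nat_lit 0x19800080d0681))) 
(.lf (nat_lit 6241207309) (dlOf (nat_lit 1) (nat_lit 0x98008000c002000c0008052883)))) 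
(.lf (nat_lit 1409892397) (dlOf (nat_lit 3) (nat_lit 0x42059000118100b902c80000008020000800b400200c200080a0983)))) 
(.nd (nat_lit 5) (.nd (nat_lit 7) 
(.lf (nat_lit 3691069773) (dlOf (nat_lit 1) (nat_lit 0x20018010801))) 
(.lf (nat_lit 6377522125) (dlOf (nat_lit 1) (nat_lit 0x3800080004002018c00080e2883)))) 
(.lf (nat_lit 1409892461) (dlOf (nat_lit 1) (nat_lit 0x168008005c002009e00080a1503)))))) 
(.nd (nat_lit 7) (.nd (nat_lit 9) (.nd (nat_lit 5) (.nd (nat_lit 22) 
(.lf (nat_lit 5637229581) (dlOf (nat_lit 2) (nat_lit 0x70050000000400e000400260018055f82))) 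
(.lf (nat_lit 1346456589) (dlOf (nat_lit 3) (nat_lit 0xac0000005602003c14f000507a8000c81000d8008007400200060008f65f83)))) 
(.lf (nat_lit 3556854125) (dlOf (nat_lit 1) (nat_lit 0x4600080d4e81)))) (.nd (nat_lit 10) 
(.lf (nat_lit 3556854285) (dlOf (nat_lit 1) (nat_lit 0x4004000200080d5002))) (.nd (nat_lit 26) 
(.lf (nat_lit 1342262797) (dlOf (nat_lit 1) (nat_lit 0x170008000400200200008007083))) 
(.lf (nat_lit 4227943949) (dlOf (nat_lit 1) (nat_lit 0x120018007081)))))) (.nd (nat_lit 5) 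
(.nd (nat_lit 6) (.nd (nat_lit 27) 
(.lf (nat_lit 1409371533) (dlOf (nat_lit 5) (nat_lit 0x520630000d81004f02e800380cc00180100001a06004c0660000c810010030000201740001608000800200020008006c82))) 
(.lf (nat_lit 4227943821) (dlOf (nat_lit 2) (nat_lit 0x48c0000001602079e0018006c81)))) 
(.nd (nat_lit 8) (.lf (nat_lit 4227944141) (dlOf (nat_lit 1) (nat_lit 0x20018007301))) 
(.lf (nat_lit 5704338381) (dlOf (nat_lit 2) (nat_lit 0x13003600a201900580058000a81801d8008002400200160008055d83))))) 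
(.nd (nat_lit 6) 
(.lf (nat_lit 5704338349) (dlOf (nat_lit 7) (nat_lit 0x2780640008a040050014000160200400190000901005c00c8025802800022080044032006200a000010200470050000000801000080074002001c0008055d03))) 
(.nd (nat_lit 10) (.lf (nat_lit 3556854509) (dlOf (nat_lit 1) (nat_lit 0x200180d5a01))) 
(.lf (nat_lit 1342263021) (dlOf (nat_lit 1) (nat_lit 0x10800200080008007402)))))))))) 
(.nd (nat_lit 30) (.nd (nat_lit 21) (.nd (nat_lit 5) (.nd (nat_lit 6) (.nd (nat_lit 27) 
(.nd (nat_lit 20) (.nd (nat_lit 8) (.nd (nat_lit 19) 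
(.lf (nat_lit 12795917) (dlOf (nat_lit 3) (nat_lit 0xe636000c30d80004c1000d98d8001cc360001104000400086e0381))) 
(.lf (nat_lit 34291725) (dlOf (nat_lit 1) (nat_lit 0x400400020008fb0002)))) 
(.lf (nat_lit 2684572941) (dlOf (nat_lit 1) (nat_lit 0x1400280a9681)))) (.nd (nat_lit 23) 
(.lf (nat_lit 2752725005) (dlOf (nat_lit 7) (nat_lit 0x1c3fe0009b0201581ff00010f48002581000087fc0011a04000c3fe0008b02003e1ff0004281009a0ff80020c0800100080040002001c0008030483))) 
(.lf (nat_lit 9650189) (dlOf (nat_lit 1) (nat_lit 0x40018570001))))) (.nd (nat_lit 26) 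
(.nd (nat_lit 28) 
(.lf (nat_lit 6576881677) (dlOf (nat_lit 1) (nat_lit 0x10008000400200040008170483))) 
(.lf (nat_lit 939737101) (dlOf (nat_lit 3) (nat_lit 0x5802c0028012002e000000a703003f005800000080068008006800200300008160483)))) 
(.nd (nat_lit 8) (.nd (nat_lit 19) 
(.lf (nat_lit 471023629) (dlOf (nat_lit 1) (nat_lit 0x60018240281))) 
(.lf (nat_lit 3154853901) (dlOf (nat_lit 2) (nat_lit 0x180000002804000400200060008350102)))) 
(.lf (nat_lit 738413325) (dlOf (nat_lit 1) (nat_lit 0x140018095b01)))))) (.nd (nat_lit 7) 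
(.nd (nat_lit 22) (.nd (nat_lit 19) 
(.lf (nat_lit 2752725069) (dlOf (nat_lit 4) (nat_lit 0xa1fd00020f38000101000487f400183ce000020400381fd00180f3800000100030008000800200100008030f83))) 
(.lf (nat_lit 537608269) (dlOf (nat_lit 4) (nat_lit 0x2c0640004f02001605d0002681001102d8000e80800b80080080002002600080d0d03)))) 
(.nd (nat_lit 23) (.lf (nat_lit 22233165) (dlOf (nat_lit 1) (nat_lit 0x400400020008ab1602))) 
(.lf (nat_lit 47398989) (dlOf (nat_lit 1) (nat_lit 0x6200293e1601))))) (.nd (nat_lit 8) 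
(.lf (nat_lit 14368973) (dlOf (nat_lit 1) (nat_lit 0xe0028750481))) (.nd (nat_lit 9) 
(.lf (nat_lit 54741453) (dlOf (nat_lit 1) (nat_lit 0x180008000400200520009654e83))) 
(.lf (nat_lit 268651469) (dlOf (nat_lit 1) (nat_lit 0x100080008002000200080e5d83))))))) 
(.nd (nat_lit 7) (.nd (nat_lit 24) (.nd (nat_lit 10) (.nd (nat_lit 26) 
(.lf (nat_lit 939737133) (dlOf (nat_lit 6) (nat_lit 0x200b0002381000a005800280000007e0800200000003902001200b0001a8100060000000c00801580080020002002e0008160583))) 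
(.nd (nat_lit 29) (.lf (nat_lit 4362289197) (dlOf (nat_lit 1) (nat_lit 0x400400020008020682))) 
(.lf (nat_lit 604192813) (dlOf (nat_lit 10) (nat_lit 0x201080009c0800d00f0000480400a807800020000001182002801e0000880801680f00014000000210400140000001001000200000007c0801000f000040000001404007a03c002c01d800b80e8000000c034000200020008080682))))) 
(.nd (nat_lit 6) (.lf (nat_lit 6509776429) (dlOf (nat_lit 1) (nat_lit 0x400200020008147182))) 
(.lf (nat_lit 2818792557) (dlOf (nat_lit 2) (nat_lit 0xd01f8000a008004000800c00020052000812c083))))) 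
(.nd (nat_lit 19) (.nd (nat_lit 20) 
(.lf (nat_lit 25378861) (dlOf (nat_lit 1) (nat_lit 0x4e0028c00601))) 
(.lf (nat_lit 30621741) (dlOf (nat_lit 1) (nat_lit 0x180080004002000e0008e40e03)))) 
(.lf (nat_lit 21708845) (dlOf (nat_lit 13) (nat_lit 0x974b00000c008026b5a401312c00002c04005bd7300c6eb88016f344004396400fcdf100596f40048376401953d201789b600704b30023257c01b4000000291800e7d710020e68800972380039b4000469e9005b4db002a0000000501c0017ae20014da0005500000009c18051f5c4022b9a2002dcb0000fe47806a723801b1b400036d7300dc6b48000b5a003793d2017c9b600174b4006a258001152be0088000000128f0002eb9800080080290000000220401d7ae60149d71005b4b3002d8000000181001bbae600c1d71000058200570000000280803f75cc010fae20089cd1002f0000000202001c00080a0400201780008a60d03))))) 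
(.nd (nat_lit 6) (.nd (nat_lit 9) 
(.lf (nat_lit 22233261) (dlOf (nat_lit 1) (nat_lit 0x6e0018ab4c01))) 
(.lf (nat_lit 4362817197) (dlOf (nat_lit 1) (nat_lit 0x1240028117281)))) (.nd (nat_lit 8) 
(.lf (nat_lit 216813) (dlOf (nat_lit 1) (nat_lit 0x20018007401))) 
(.lf (nat_lit 9650669) (dlOf (nat_lit 1) (nat_lit 0xa8008008400200380008577d03))))))) 
(.nd (nat_lit 19) (.nd (nat_lit 7) (.nd (nat_lit 6) (.nd (nat_lit 5) (.nd (nat_lit 8) 
(.lf (nat_lit 23282189) (dlOf (nat_lit 2) (nat_lit 0x3f911000b2818b80d80))) 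
(.lf (nat_lit 20136717) (dlOf (nat_lit 1) (nat_lit 0x400189d2101)))) 
(.lf (nat_lit 2753774125) (dlOf (nat_lit 4) (nat_lit 0x9875c0030386000360400081d70001a0100030eb80000008005000800b4002000e0008090e83)))) 
(.nd (nat_lit 5) (.nd (nat_lit 9) 
(.lf (nat_lit 472072269) (dlOf (nat_lit 1) (nat_lit 0x8008001400200020008800003))) 
(.lf (nat_lit 36915789) (dlOf (nat_lit 1) (nat_lit 0x20019075281)))) 
(.lf (nat_lit 2753773933) (dlOf (nat_lit 2) (nat_lit 0x2439e00e160200020008090781))))) 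
(.nd (nat_lit 11) (.nd (nat_lit 6) (.nd (nat_lit 20) 
(.lf (nat_lit 23281805) (dlOf (nat_lit 2) (nat_lit 0x1ad060003b0200020018b80101))) 
(.lf (nat_lit 3358861) (dlOf (nat_lit 2) (nat_lit 0x18a8e0003b0200040018200101)))) 
(.lf (nat_lit 2753774029) (dlOf (nat_lit 3) (nat_lit 0xc1d40000c8100070ea000060080088008000800200500008090a03)))) 
(.nd (nat_lit 26) (.nd (nat_lit 10) 
(.lf (nat_lit 49498509) (dlOf (nat_lit 1) (nat_lit 0xc0029464e81))) 
(.lf (nat_lit 20139405) (dlOf (nat_lit 2) (nat_lit 0x746bf0000580803180080014002000200089d6c83)))) 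
(.nd (nat_lit 5) (.lf (nat_lit 2754824589) (dlOf (nat_lit 1) (nat_lit 0x1200080f4e81))) 
(.lf (nat_lit 69421485) (dlOf (nat_lit 1) (nat_lit 0x8008000400200020008964e83))))))) 
(.nd (nat_lit 6) (.nd (nat_lit 20) (.nd (nat_lit 22) (.nd (nat_lit 26) 
(.lf (nat_lit 2834445) (dlOf (nat_lit 1) (nat_lit 0x80080008002000200081c0483))) 
(.lf (nat_lit 2754297869) (dlOf (nat_lit 5) (nat_lit 0x28334000fa04006019a0007c02000c0cd0003a8100030668001cc0800080080008002000400080d0483)))) 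
(.lf (nat_lit 7028749) (dlOf (nat_lit 1) (nat_lit 0x400084b0001)))) (.nd (nat_lit 5) 
(.lf (nat_lit 2755346445) (dlOf (nat_lit 1) (nat_lit 0x40028160181))) 
(.lf (nat_lit 37439917) (dlOf (nat_lit 1) (nat_lit 0x200190d4e81))))) (.nd (nat_lit 20) 
(.nd (nat_lit 5) (.nd (nat_lit 7) 
(.lf (nat_lit 2834509) (dlOf (nat_lit 2) (nat_lit 0x50000000000181c0d00))) 
(.lf (nat_lit 7028941) (dlOf (nat_lit 1) (nat_lit 0x600284b0481)))) 
(.lf (nat_lit 48971885) (dlOf (nat_lit 1) (nat_lit 0x400400020009452482)))) (.nd (nat_lit 8) 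
(.nd (nat_lit 9) (.lf (nat_lit 45826125) (dlOf (nat_lit 2) (nat_lit 0x367700000019360680))) 
(.lf (nat_lit 58411597) (dlOf (nat_lit 1) (nat_lit 0x400097e5281)))) 
(.lf (nat_lit 473645389) (dlOf (nat_lit 1) (nat_lit 0xa8008040c002017e0008f78903)))))))) 
(.nd (nat_lit 31) (.nd (nat_lit 5) (.nd (nat_lit 19) (.nd (nat_lit 26) (.nd (nat_lit 6) 
(.nd (nat_lit 27) (.lf (nat_lit 1073954829) (dlOf (nat_lit 1) (nat_lit 0x1400400300008030482))) 
(.lf (nat_lit 6308446221) (dlOf (nat_lit 3) (nat_lit 0xc01b000500580252010003006c01276040034002001200080a0a02)))) 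
(.lf (nat_lit 1073954893) (dlOf (nat_lit 1) (nat_lit 0x400400060018030f82)))) (.nd (nat_lit 6) 
(.nd (nat_lit 28) 
(.lf (nat_lit 5972901901) (dlOf (nat_lit 1) (nat_lit 0x10008000400200040008170483))) 
(.lf (nat_lit 1946370061) (dlOf (nat_lit 1) (nat_lit 0x1400400300008030482)))) 
(.lf (nat_lit 1946370125) (dlOf (nat_lit 1) (nat_lit 0x400400060018030f82))))) (.nd (nat_lit 6) 
(.nd (nat_lit 8) (.nd (nat_lit 20) 
(.lf (nat_lit 1345011725) (dlOf (nat_lit 2) (nat_lit 0x1858000000040004004000a00089d0182))) 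
(.lf (nat_lit 1343963149) (dlOf (nat_lit 1) (nat_lit 0x20028380781)))) 
(.lf (nat_lit 6378176781) (dlOf (nat_lit 1) (nat_lit 0x400200020008127402)))) (.nd (nat_lit 20) 
(.nd (nat_lit 27) 
(.lf (nat_lit 1410023501) (dlOf (nat_lit 4) (nat_lit 0x2c0640005602001605d0002a01001102d8001040800b80080080002002600080d0d03))) 
(.lf (nat_lit 6376079437) (dlOf (nat_lit 2) (nat_lit 0x400a00006404001000200020008071602)))) 
(.lf (nat_lit 5773148237) (dlOf (nat_lit 1) (nat_lit 0x2a00080004002000200080a1683)))))) 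
(.nd (nat_lit 20) (.nd (nat_lit 26) (.nd (nat_lit 19) (.nd (nat_lit 29) 
(.lf (nat_lit 1476608045) (dlOf (nat_lit 6) (nat_lit 0xc808a00069020050045008801f8000a81000280d8000440400a408a011c03f000301b000084180170114021c07e0008035000901a0000002001e80080008002009400080a0683))) 
(.lf (nat_lit 6308446253) (dlOf (nat_lit 10) (nat_lit 0x600e8004006404b002c0002906001401d000400c802b0058000500c001c03a00040190001382000400c8000980801f807400dc0320002504003c01b001b00580003010042002c0001604004400e0000a02004a01b001400c8000201002c8008009c002000200080a0d03)))) 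
(.lf (nat_lit 1345011757) (dlOf (nat_lit 1) (nat_lit 0x10004001000089d0982)))) (.nd (nat_lit 27) 
(.lf (nat_lit 5704466477) (dlOf (nat_lit 10) (nat_lit 0x600e8004006404b002c0002906001401d000400c802b0058000500c001c03a00040190001382000400c8000980801f807400dc0320002504003c01b001b00580003010042002c0001604004400e0000a02004a01b001400c8000201002c8008009c002000200080a0d03))) 
(.lf (nat_lit 1812152365) (dlOf (nat_lit 6) (nat_lit 0x200b0002381000a005800280000007e0800200000003902001200b0001a8100060000000c00801580080020002002e0008160583))))) 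
(.nd (nat_lit 6) (.nd (nat_lit 7) (.nd (nat_lit 19) 
(.lf (nat_lit 1343438893) (dlOf (nat_lit 1) (nat_lit 0x400400020008240882))) 
(.lf (nat_lit 1343963181) (dlOf (nat_lit 1) (nat_lit 0x20008380e01)))) 
(.lf (nat_lit 1345537197) (dlOf (nat_lit 2) (nat_lit 0x182340005f0200080008d12c01)))) 
(.lf (nat_lit 1880309869) (dlOf (nat_lit 1) (nat_lit 0x800200060008832482)))))) (.nd (nat_lit 7) 
(.nd (nat_lit 10) (.nd (nat_lit 20) (.nd (nat_lit 5) (.nd (nat_lit 9) 
(.lf (nat_lit 3492495373) (dlOf (nat_lit 5) (nat_lit 0x2836c000fa0400601b60007c02000c0db0003a81000306d8001cc0800080080008002000400080d0483))) 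
(.lf (nat_lit 3288547853) (dlOf (nat_lit 2) (nat_lit 0x3fc03601b10158005941005a0008007000200040008090d83)))) 
(.lf (nat_lit 4228071469) (dlOf (nat_lit 1) (nat_lit 0x400400020008020682)))) (.nd (nat_lit 6) 
(.nd (nat_lit 19) 
(.lf (nat_lit 3490922509) (dlOf (nat_lit 7) (nat_lit 0x1c3da0009b0201581ed00010ea0002581000087b40011a04000c3da0008b02003e1ed0004281009a0f680020c0800100080040002001c0008030483))) 
(.lf (nat_lit 3493543949) (dlOf (nat_lit 1) (nat_lit 0x40028160181)))) 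
(.lf (nat_lit 3490922573) (dlOf (nat_lit 4) (nat_lit 0xa1eb00020e90000101000487ac00183a4000020400381eb00180e9000000100030008000800200100008030f83))))) 
(.nd (nat_lit 11) (.nd (nat_lit 9) 
(.lf (nat_lit 3493020685) (dlOf (nat_lit 1) (nat_lit 0x200280f2881))) 
(.lf (nat_lit 4160968205) (dlOf (nat_lit 1) (nat_lit 0x800180a9c01)))) (.nd (nat_lit 5) 
(.lf (nat_lit 3624094797) (dlOf (nat_lit 1) (nat_lit 0x8008000400200020008146083))) 
(.lf (nat_lit 3490401325) (dlOf (nat_lit 1) (nat_lit 0x240028006081)))))) (.nd (nat_lit 5) 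
(.nd (nat_lit 29) (.nd (nat_lit 8) (.nd (nat_lit 11) 
(.lf (nat_lit 3288547469) (dlOf (nat_lit 4) (nat_lit 0xb4c05c04fc02d023a013002900440006c1009300000000802000203c003000201bb0000000000c01a800200040008090102))) 
(.lf (nat_lit 3493021837) (dlOf (nat_lit 1) (nat_lit 0x11e00280f4801)))) 
(.lf (nat_lit 3422765965) (dlOf (nat_lit 1) (nat_lit 0x200280a2581)))) (.nd (nat_lit 8) 
(.nd (nat_lit 9) 
(.lf (nat_lit 4026744973) (dlOf (nat_lit 4) (nat_lit 0xb4c05c04fc02d023a013002900440006c1009300000000802000203c003000201bb0000000000c01a800200040008090102))) 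
(.lf (nat_lit 4160968333) (dlOf (nat_lit 2) (nat_lit 0x140158000880800180080058002002400080a9e03)))) 
(.lf (nat_lit 4026745229) (dlOf (nat_lit 1) (nat_lit 0x58008002800200140008090783))))) 
(.nd (nat_lit 6) (.nd (nat_lit 8) 
(.lf (nat_lit 3493021869) (dlOf (nat_lit 1) (nat_lit 0x2e00280f4901))) 
(.lf (nat_lit 4094904749) (dlOf (nat_lit 1) (nat_lit 0x800400020008054e82)))) (.nd (nat_lit 8) 
(.lf (nat_lit 3556987117) (dlOf (nat_lit 1) (nat_lit 0x8008000400200020008128083))) 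
(.nd (nat_lit 26) 
(.lf (nat_lit 4026745325) (dlOf (nat_lit 1) (nat_lit 0x1900080074002004a0008090d03))) 
(.lf (nat_lit 3288547821) (dlOf (nat_lit 1) (nat_lit 0x1900080074002004a0008090d03))))))))))) 
(.nd (nat_lit 5) (.nd (nat_lit 6) (.nd (nat_lit 17) (.nd (nat_lit 28) (.nd (nat_lit 8) 
(.nd (nat_lit 29) (.nd (nat_lit 7) (.nd (nat_lit 20) 
(.lf (nat_lit 3288678413) (dlOf (nat_lit 1) (nat_lit 0x15800400cc00080c0802))) 
(.lf (nat_lit 16072717) (dlOf (nat_lit 2) (nat_lit 0x4faa00027d400534028860280)))) 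
(.lf (nat_lit 11878541) (dlOf (nat_lit 1) (nat_lit 0x80080008002000600086c0103)))) 
(.nd (nat_lit 27) (.nd (nat_lit 26) 
(.lf (nat_lit 5905924109) (dlOf (nat_lit 1) (nat_lit 0x30008003000200120008160483))) 
(.lf (nat_lit 604323853) (dlOf (nat_lit 1) (nat_lit 0x6800200360008160182)))) (.nd (nat_lit 7) 
(.lf (nat_lit 671432717) (dlOf (nat_lit 1) (nat_lit 0x18008002400200060008190183))) 
(.lf (nat_lit 2818916493) (dlOf (nat_lit 1) (nat_lit 0x20028130281)))))) (.nd (nat_lit 7) 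
(.nd (nat_lit 9) (.nd (nat_lit 10) 
(.lf (nat_lit 41238797) (dlOf (nat_lit 1) (nat_lit 0x80019223a01))) 
(.lf (nat_lit 58541325) (dlOf (nat_lit 2) (nat_lit 0xe3a08000dc0800c00080090002000800097e3003)))) 
(.lf (nat_lit 345869) (dlOf (nat_lit 1) (nat_lit 0x140028003b81)))) (.nd (nat_lit 21) 
(.nd (nat_lit 19) 
(.lf (nat_lit 39143821) (dlOf (nat_lit 3) (nat_lit 0x65948029f808001289c014da040020002000a0009194e82))) 
(.lf (nat_lit 537741709) (dlOf (nat_lit 1) (nat_lit 0x200280f4e81)))) (.nd (nat_lit 11) 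
(.lf (nat_lit 8208781) (dlOf (nat_lit 1) (nat_lit 0x400200020008511002))) 
(.lf (nat_lit 62736781) (dlOf (nat_lit 1) (nat_lit 0x200099a4e81))))))) (.nd (nat_lit 27) 
(.nd (nat_lit 7) (.nd (nat_lit 20) (.nd (nat_lit 29) 
(.lf (nat_lit 4563746829) (dlOf (nat_lit 1) (nat_lit 0x18002000600080d0002))) 
(.lf (nat_lit 4026875917) (dlOf (nat_lit 1) (nat_lit 0x15800400cc00080c0802)))) (.nd (nat_lit 9) 
(.lf (nat_lit 1346191373) (dlOf (nat_lit 6) (nat_lit 0x2856001d5c0400142b000060cf0072a8200050ac0001833c01ca808001412c00e5102001408d00676018e60000))) 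
(.lf (nat_lit 1345669645) (dlOf (nat_lit 1) (nat_lit 0x120028dd5001))))) (.nd (nat_lit 8) 
(.lf (nat_lit 3491577997) (dlOf (nat_lit 2) (nat_lit 0x102300006c04000800200060008090102))) 
(.nd (nat_lit 26) 
(.lf (nat_lit 5637489037) (dlOf (nat_lit 1) (nat_lit 0x2000080148002009e00080f5d83))) 
(.lf (nat_lit 6241468813) (dlOf (nat_lit 1) (nat_lit 0x108008010c002008c00080f5d83)))))) 
(.nd (nat_lit 26) (.nd (nat_lit 29) 
(.lf (nat_lit 4697964557) (dlOf (nat_lit 1) (nat_lit 0x18002000600080d0002))) 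
(.lf (nat_lit 4161093645) (dlOf (nat_lit 1) (nat_lit 0xa0002000c0008120102)))) (.nd (nat_lit 7) 
(.nd (nat_lit 22) (.nd (nat_lit 30) 
(.lf (nat_lit 2617589773) (dlOf (nat_lit 26) (nat_lit 0x2e405e02a801200025020104018015200bc04e805202be021001a00f0050006c02cc02e04b8012011d008808b802401f8000000431604ec02f01bb01480050078057c02400b601101b5004803a0000000841c134c05e001601e02a4009001500440014000000410a00e802f009c009000100100d900bc062c02401ce0110001f83006c017801000480007c0801e405e01b60120001e8205d1017022d0048133c0220003b0603f002f01f40090095004400500000003a08006602e00bf00900a40044000720c003005c009c012003f0088000e01800880b8003c024009e0110001b8300350088000d8080008044000460400040240001e02002e0120000e81007f0090000680805c00bc003005c01c6012002b00880005c2004980bc03dc0240001604007002f01050090000501004400480002604001806003f402f000700f008d8048000221002400240000e02033402f01b90090000001011e8008114400209fc0008100103))) 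
(.lf (nat_lit 1543847949) (dlOf (nat_lit 1) (nat_lit 0x18008002400200060008190183)))) 
(.lf (nat_lit 474300429) (dlOf (nat_lit 1) (nat_lit 0x8008000400200020009130083)))) 
(.lf (nat_lit 1007503757) (dlOf (nat_lit 1) (nat_lit 0x400083d4e81))))))) (.nd (nat_lit 24) 
(.nd (nat_lit 28) (.nd (nat_lit 7) (.nd (nat_lit 20) 
(.lf (nat_lit 2886156301) (dlOf (nat_lit 1) (nat_lit 0x14002000e0008170482))) (.nd (nat_lit 21) 
(.lf (nat_lit 9912333) (dlOf (nat_lit 1) (nat_lit 0x138008000800200220008590083))) 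
(.lf (nat_lit 3620877) (dlOf (nat_lit 4) (nat_lit 0x5496400a0c0200264b20050581001425900282808003800801b800200080008210683))))) 
(.nd (nat_lit 26) 
(.lf (nat_lit 134693005) (dlOf (nat_lit 3) (nat_lit 0x1a01d8000d80800180000000004002c00200080008090102))) 
(.lf (nat_lit 201801869) (dlOf (nat_lit 3) (nat_lit 0x1a01d8000d80800180000000004002c00200080008090102))))) 
(.nd (nat_lit 10) (.nd (nat_lit 9) (.nd (nat_lit 11) 
(.lf (nat_lit 3624353805) (dlOf (nat_lit 1) (nat_lit 0x14002000e0008170482))) 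
(.lf (nat_lit 3492759565) (dlOf (nat_lit 1) (nat_lit 0x600280f4701)))) 
(.lf (nat_lit 1345274381) (dlOf (nat_lit 2) (nat_lit 0xc2ca00a690200500018b37b01)))) 
(.nd (nat_lit 7) (.lf (nat_lit 4563878925) (dlOf (nat_lit 1) (nat_lit 0x960028122881))) 
(.lf (nat_lit 4095690125) (dlOf (nat_lit 1) (nat_lit 0x4004000200080e3602)))))) (.nd (nat_lit 21) 
(.nd (nat_lit 8) (.nd (nat_lit 20) (.nd (nat_lit 22) 
(.lf (nat_lit 17776653) (dlOf (nat_lit 1) (nat_lit 0x800088f0781))) 
(.lf (nat_lit 21970957) (dlOf (nat_lit 5) (nat_lit 0x1ac30004ec080015b4c000a0dc001390400035860006c810003ac3000360080210008002800200440008a80483)))) 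
(.lf (nat_lit 23019533) (dlOf (nat_lit 6) (nat_lit 0x18b04001256e00010c10000ac1001c95b800b8ada00514af000108200c9ac1003595b80004104054eb04000156e0091ab68000760c00056080001102003a0028b40101)))) 
(.nd (nat_lit 7) (.lf (nat_lit 51332365) (dlOf (nat_lit 1) (nat_lit 0x20008000c00200020009513003))) 
(.lf (nat_lit 51857805) (dlOf (nat_lit 1) (nat_lit 0x200029514e81))))) (.nd (nat_lit 19) 
(.nd (nat_lit 8) (.nd (nat_lit 9) 
(.lf (nat_lit 19349517) (dlOf (nat_lit 2) (nat_lit 0x524500035c080010008001400200080008990583))) 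
(.lf (nat_lit 58147341) (dlOf (nat_lit 3) (nat_lit 0x357e100609810010bf0802ca80801b80080144002004200097c7b03)))) 
(.lf (nat_lit 58147085) (dlOf (nat_lit 1) (nat_lit 0x200197c3a01)))) (.nd (nat_lit 23) 
(.lf (nat_lit 20922381) (dlOf (nat_lit 1) (nat_lit 0x4002000200089f0002))) 
(.lf (nat_lit 29310989) (dlOf (nat_lit 1) (nat_lit 0x60018df0101)))))))) (.nd (nat_lit 19) 
(.nd (nat_lit 8) (.nd (nat_lit 28) (.nd (nat_lit 9) (.nd (nat_lit 17) 
(.lf (nat_lit 1392717) (dlOf (nat_lit 1) (nat_lit 0x100080004002000200080c0f83))) (.nd (nat_lit 26) 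
(.lf (nat_lit 1611087949) (dlOf (nat_lit 2) (nat_lit 0xe02a000b0048000e01000b00080028002002e00080d0503))) 
(.lf (nat_lit 738672717) (dlOf (nat_lit 2) (nat_lit 0xe02a000b0048000e81000b00080028002002e00080d0503))))) 
(.nd (nat_lit 17) (.nd (nat_lit 21) 
(.lf (nat_lit 42289741) (dlOf (nat_lit 1) (nat_lit 0x20029245281))) 
(.lf (nat_lit 35998285) (dlOf (nat_lit 1) (nat_lit 0x20019015281)))) 
(.lf (nat_lit 51857997) (dlOf (nat_lit 1) (nat_lit 0x400400020009515282))))) (.nd (nat_lit 32) 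
(.nd (nat_lit 20) (.nd (nat_lit 26) 
(.lf (nat_lit 2550480973) (dlOf (nat_lit 1) (nat_lit 0x8002002200080c1502))) 
(.lf (nat_lit 3154460749) (dlOf (nat_lit 2) (nat_lit 0x240ac0002035000058281a0700)))) 
(.lf (nat_lit 1008025677) (dlOf (nat_lit 1) (nat_lit 0x8008000400200020008980003)))) 
(.nd (nat_lit 7) (.nd (nat_lit 27) 
(.lf (nat_lit 4563746893) (dlOf (nat_lit 1) (nat_lit 0x1b00080074002002600080d0503))) 
(.lf (nat_lit 4697964621) (dlOf (nat_lit 1) (nat_lit 0x1b00080074002002600080d0503)))) 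
(.lf (nat_lit 5637488845) (dlOf (nat_lit 1) (nat_lit 0x1400080058002005600080f1803)))))) 
(.nd (nat_lit 30) (.nd (nat_lit 17) (.nd (nat_lit 7) 
(.lf (nat_lit 20269901) (dlOf (nat_lit 1) (nat_lit 0x4002000200089d5c02))) 
(.lf (nat_lit 58016205) (dlOf (nat_lit 1) (nat_lit 0x200097a7a81)))) (.nd (nat_lit 21) 
(.nd (nat_lit 23) 
(.lf (nat_lit 805781837) (dlOf (nat_lit 1) (nat_lit 0x200080010002000400081a0603))) 
(.lf (nat_lit 25641293) (dlOf (nat_lit 1) (nat_lit 0x20018c10801)))) 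
(.lf (nat_lit 23544141) (dlOf (nat_lit 1) (nat_lit 0x1000200020008b80602))))) (.nd (nat_lit 17) 
(.nd (nat_lit 26) (.lf (nat_lit 1610957133) (dlOf (nat_lit 1) (nat_lit 0x200180a6681))) 
(.lf (nat_lit 3691331917) (dlOf (nat_lit 2) (nat_lit 0x90000008ac080020008002c002001e0008160783)))) 
(.nd (nat_lit 7) (.nd (nat_lit 20) 
(.lf (nat_lit 1678197069) (dlOf (nat_lit 1) (nat_lit 0x200080010002000400081a0603))) 
(.lf (nat_lit 1345798477) (dlOf (nat_lit 1) (nat_lit 0x800200320008df8902)))) 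
(.lf (nat_lit 1476871117) (dlOf (nat_lit 1) (nat_lit 0x2400282d2881))))))) (.nd (nat_lit 7) 
(.nd (nat_lit 17) (.nd (nat_lit 20) (.nd (nat_lit 9) (.nd (nat_lit 21) 
(.lf (nat_lit 9257037) (dlOf (nat_lit 1) (nat_lit 0x400400020018530602))) 
(.lf (nat_lit 53297229) (dlOf (nat_lit 1) (nat_lit 0x60019581681)))) 
(.lf (nat_lit 36522573) (dlOf (nat_lit 1) (nat_lit 0x20019075281)))) (.nd (nat_lit 21) 
(.lf (nat_lit 69025869) (dlOf (nat_lit 1) (nat_lit 0xc00200060008880682))) (.nd (nat_lit 22) 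
(.lf (nat_lit 1346191437) (dlOf (nat_lit 4) (nat_lit 0x82c00007802000415f0002a01000d0b00006027000070080124004000c0008e60682))) 
(.lf (nat_lit 33374285) (dlOf (nat_lit 1) (nat_lit 0xb00080028002000c0008f50003)))))) 
(.nd (nat_lit 21) (.nd (nat_lit 22) 
(.lf (nat_lit 1343176781) (dlOf (nat_lit 1) (nat_lit 0x60028190701))) (.nd (nat_lit 23) 
(.lf (nat_lit 21971021) (dlOf (nat_lit 5) (nat_lit 0xe755e0071a5500011020001c8b000261c0000300800130e000004020029916001ac38000000100108008010000200060008a80f83))) 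
(.lf (nat_lit 13582413) (dlOf (nat_lit 3) (nat_lit 0x2b8c60007bd600023020006e3180016f580007e08001400400120008730d02))))) 
(.nd (nat_lit 8) 
(.lf (nat_lit 20922445) (dlOf (nat_lit 2) (nat_lit 0x676600009e040008004000a00189f0602))) 
(.lf (nat_lit 472858957) (dlOf (nat_lit 1) (nat_lit 0x400008b28901)))))) (.nd (nat_lit 17) 
(.nd (nat_lit 20) (.nd (nat_lit 21) 
(.lf (nat_lit 5772231117) (dlOf (nat_lit 1) (nat_lit 0x4400400960008091102))) 
(.lf (nat_lit 61686221) (dlOf (nat_lit 1) (nat_lit 0x200029921101)))) (.nd (nat_lit 22) 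
(.nd (nat_lit 8) (.lf (nat_lit 5773279437) (dlOf (nat_lit 1) (nat_lit 0x8002000200080c1802))) 
(.lf (nat_lit 12403149) (dlOf (nat_lit 1) (nat_lit 0x5080080640002057400086c0a03)))) 
(.nd (nat_lit 9) (.lf (nat_lit 8212941) (dlOf (nat_lit 1) (nat_lit 0x20018518681))) 
(.lf (nat_lit 8209357) (dlOf (nat_lit 1) (nat_lit 0x400200020008512882)))))) (.nd (nat_lit 20) 
(.nd (nat_lit 8) (.lf (nat_lit 19878605) (dlOf (nat_lit 1) (nat_lit 0x4002000200089d8c82))) 
(.nd (nat_lit 11) 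
(.lf (nat_lit 24068557) (dlOf (nat_lit 1) (nat_lit 0x508008064000205740008b80a03))) 
(.lf (nat_lit 32459213) (dlOf (nat_lit 1) (nat_lit 0x40018ef4e81))))) (.nd (nat_lit 21) 
(.lf (nat_lit 3491709389) (dlOf (nat_lit 3) (nat_lit 0x307d4000c3840001904000a1f500030e1000060100068008008c002002c0008090a03))) 
(.lf (nat_lit 2755609037) (dlOf (nat_lit 1) (nat_lit 0xc004001400081b0a02))))))))) 
(.nd (nat_lit 17) (.nd (nat_lit 26) (.nd (nat_lit 19) (.nd (nat_lit 7) (.nd (nat_lit 6) 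
(.nd (nat_lit 20) (.nd (nat_lit 21) (.nd (nat_lit 28) 
(.lf (nat_lit 3221569581) (dlOf (nat_lit 1) (nat_lit 0x20018140601))) 
(.lf (nat_lit 1342521389) (dlOf (nat_lit 1) (nat_lit 0x480008040681)))) 
(.lf (nat_lit 6635565) (dlOf (nat_lit 1) (nat_lit 0x400400020008440b02)))) (.nd (nat_lit 8) 
(.nd (nat_lit 21) (.lf (nat_lit 30752813) (dlOf (nat_lit 1) (nat_lit 0x2400200020008e50b02))) 
(.lf (nat_lit 7684141) (dlOf (nat_lit 1) (nat_lit 0x4004000200084d0b02)))) 
(.lf (nat_lit 11878701) (dlOf (nat_lit 1) (nat_lit 0x80080004002000200086c0503))))) 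
(.nd (nat_lit 8) (.nd (nat_lit 27) 
(.lf (nat_lit 4563746925) (dlOf (nat_lit 3) (nat_lit 0x3c0520002d02000a029000160180d0b80))) 
(.lf (nat_lit 4697964653) (dlOf (nat_lit 3) (nat_lit 0x3c0520002d02000a029000160180d0b80)))) 
(.lf (nat_lit 1074086253) (dlOf (nat_lit 1) (nat_lit 0x120028090781))))) (.nd (nat_lit 21) 
(.nd (nat_lit 8) (.nd (nat_lit 24) 
(.lf (nat_lit 42288301) (dlOf (nat_lit 1) (nat_lit 0x180009242c01))) 
(.lf (nat_lit 59065517) (dlOf (nat_lit 1) (nat_lit 0x800297e2c01)))) 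
(.lf (nat_lit 39143853) (dlOf (nat_lit 1) (nat_lit 0x400200020009194e82)))) (.nd (nat_lit 23) 
(.lf (nat_lit 1344619693) (dlOf (nat_lit 1) (nat_lit 0x1000088c2c01))) 
(.lf (nat_lit 61162669) (dlOf (nat_lit 1) (nat_lit 0x1800080004002002600098c2c03)))))) 
(.nd (nat_lit 21) (.nd (nat_lit 10) (.nd (nat_lit 20) (.nd (nat_lit 22) (.nd (nat_lit 23) 
(.lf (nat_lit 1343045677) (dlOf (nat_lit 1) (nat_lit 0x10008000400200020008140603))) 
(.lf (nat_lit 42811437) (dlOf (nat_lit 1) (nat_lit 0x28008000800200020009280283)))) 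
(.lf (nat_lit 5062701) (dlOf (nat_lit 4) (nat_lit 0x5e33100017c080041988000ba04010ccf20058662002a2c800ce938c09609a2000540a004c0028300681)))) 
(.nd (nat_lit 23) (.lf (nat_lit 18694189) (dlOf (nat_lit 1) (nat_lit 0x80028960a01))) 
(.lf (nat_lit 27082797) (dlOf (nat_lit 2) (nat_lit 0x2ce900022818ca0680))))) (.nd (nat_lit 7) 
(.nd (nat_lit 9) (.lf (nat_lit 3490532397) (dlOf (nat_lit 1) (nat_lit 0x3bc00401960008006082))) 
(.lf (nat_lit 537742893) (dlOf (nat_lit 2) (nat_lit 0x1602f8001380800880080010002005400080f7183)))) 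
(.nd (nat_lit 9) (.lf (nat_lit 55395501) (dlOf (nat_lit 1) (nat_lit 0x4004000200096d2c02))) 
(.lf (nat_lit 537743021) (dlOf (nat_lit 1) (nat_lit 0x100080064002008200080f7283)))))) 
(.nd (nat_lit 7) (.nd (nat_lit 20) (.nd (nat_lit 23) 
(.lf (nat_lit 2965549) (dlOf (nat_lit 2) (nat_lit 0x2f0000000400800180080004002001a00081e0903))) 
(.lf (nat_lit 11354157) (dlOf (nat_lit 2) (nat_lit 0xe9270002b018690680)))) 
(.lf (nat_lit 1346191405) (dlOf (nat_lit 7) (nat_lit 0x9c0ac00008558027019e0126096009404180002c2804e8560025019e0138096008d041800028200440560022c19e0000904011a1580091067800020100440560023019e000070400ea158007206780100258000000c000800400300018e60282)))) 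
(.nd (nat_lit 6) (.lf (nat_lit 36522413) (dlOf (nat_lit 1) (nat_lit 0x20019074e81))) 
(.lf (nat_lit 50152429) (dlOf (nat_lit 1) (nat_lit 0x200294c2881))))))) (.nd (nat_lit 31) 
(.nd (nat_lit 27) (.nd (nat_lit 6) (.nd (nat_lit 29) (.nd (nat_lit 32) 
(.lf (nat_lit 67452973) (dlOf (nat_lit 3) (nat_lit 0x940a400b304b80598078007401c0130007004a0000001503000c812c00e001c002c00700060000001142000f0008012400200240008140683))) 
(.lf (nat_lit 4362420269) (dlOf (nat_lit 5) (nat_lit 0xe04700008010041023803a80cc024805a0000f060496033000070102240198000340800300080030002002a0008070803)))) 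
(.lf (nat_lit 604323885) (dlOf (nat_lit 1) (nat_lit 0x240018160701)))) (.nd (nat_lit 7) 
(.lf (nat_lit 1946501485) (dlOf (nat_lit 1) (nat_lit 0x120028090781))) 
(.lf (nat_lit 69552877) (dlOf (nat_lit 1) (nat_lit 0x800400060008b45a02))))) (.nd (nat_lit 19) 
(.nd (nat_lit 22) (.lf (nat_lit 470106157) (dlOf (nat_lit 1) (nat_lit 0x480008040681))) 
(.lf (nat_lit 474300461) (dlOf (nat_lit 6) (nat_lit 0x208b80003604001845c00022250002105800406c80001610000845c000a2250006105800406c80001410000c45c000e225000b105800506c80001210001c44a001620b00090d9000020180008008000400200040009130c83)))) 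
(.nd (nat_lit 9) 
(.lf (nat_lit 470630445) (dlOf (nat_lit 1) (nat_lit 0x10008000400200020008140603))) 
(.lf (nat_lit 473778733) (dlOf (nat_lit 1) (nat_lit 0x20028fa5181)))))) (.nd (nat_lit 30) 
(.nd (nat_lit 6) (.nd (nat_lit 27) 
(.lf (nat_lit 2483372077) (dlOf (nat_lit 2) (nat_lit 0x4701500220040019001c0004106010a00280e0601))) 
(.nd (nat_lit 28) 
(.lf (nat_lit 2349154349) (dlOf (nat_lit 2) (nat_lit 0x4701500220040019001c0003a06010a00280e0601))) 
(.lf (nat_lit 2617589805) (dlOf (nat_lit 1) (nat_lit 0x18008002c00200080008100783))))) 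
(.nd (nat_lit 8) (.lf (nat_lit 2751809261) (dlOf (nat_lit 1) (nat_lit 0xc00400160008003b02))) 
(.lf (nat_lit 2751808493) (dlOf (nat_lit 1) (nat_lit 0x20028002881))))) (.nd (nat_lit 6) 
(.nd (nat_lit 19) (.nd (nat_lit 28) 
(.lf (nat_lit 3959767085) (dlOf (nat_lit 1) (nat_lit 0x20018140601))) 
(.lf (nat_lit 4228202541) (dlOf (nat_lit 7) (nat_lit 0x2420550158026811a01300568096029c040003801d801300e80634064011a03101c301600ac8090042003002a0000000080d0018020000780c80001e0801640a2000804a0079020000180ec00080700008037002401b000400cc065c06401240310070018000100bc0001c3008180640000d02000204d000f02600078100010806400140240000485001d02a80000c080078008001800202280008070903)))) 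
(.lf (nat_lit 4096606253) (dlOf (nat_lit 2) (nat_lit 0x301900000004001000200060008140d02)))) 
(.nd (nat_lit 7) (.lf (nat_lit 4094511981) (dlOf (nat_lit 1) (nat_lit 0x4800200140008055c02))) 
(.lf (nat_lit 3557114093) (dlOf (nat_lit 1) (nat_lit 0x20018130701)))))))) (.nd (nat_lit 30) 
(.nd (nat_lit 24) (.nd (nat_lit 6) (.nd (nat_lit 21) (.nd (nat_lit 26) (.nd (nat_lit 22) 
(.lf (nat_lit 34029613) (dlOf (nat_lit 1) (nat_lit 0x40008000400200020008f90283))) 
(.lf (nat_lit 13058093) (dlOf (nat_lit 1) (nat_lit 0x400086f0d81)))) (.nd (nat_lit 20) 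
(.lf (nat_lit 738672685) (dlOf (nat_lit 1) (nat_lit 0x2a0008011400200ec00080d0383))) 
(.lf (nat_lit 2752987181) (dlOf (nat_lit 2) (nat_lit 0x4821c00044040078004002e0018070802))))) 
(.nd (nat_lit 7) 
(.lf (nat_lit 15155245) (dlOf (nat_lit 1) (nat_lit 0x960008009000200b800087c0683))) 
(.lf (nat_lit 36652205) (dlOf (nat_lit 1) (nat_lit 0x8008000400200040009072c03))))) 
(.nd (nat_lit 7) (.nd (nat_lit 8) 
(.lf (nat_lit 6242413) (dlOf (nat_lit 1) (nat_lit 0x80018420481))) 
(.lf (nat_lit 2755084653) (dlOf (nat_lit 1) (nat_lit 0x6b0008000400200e00008105503)))) 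
(.nd (nat_lit 8) (.lf (nat_lit 35078381) (dlOf (nat_lit 1) (nat_lit 0x100018fd1e81))) 
(.lf (nat_lit 604455917) (dlOf (nat_lit 1) (nat_lit 0x80080004002000200082d2883)))))) 
(.nd (nat_lit 21) (.nd (nat_lit 19) 
(.lf (nat_lit 21446701) (dlOf (nat_lit 1) (nat_lit 0x48008000800200040008a40383))) 
(.nd (nat_lit 20) (.nd (nat_lit 22) 
(.lf (nat_lit 17776685) (dlOf (nat_lit 2) (nat_lit 0x129f80000502000c00088f0e01))) 
(.lf (nat_lit 21970989) (dlOf (nat_lit 2) (nat_lit 0x531ce000330200060028a80c01)))) 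
(.lf (nat_lit 23019565) (dlOf (nat_lit 3) (nat_lit 0x3582005f8408003ac1002f9a04001400400060008b40782))))) 
(.nd (nat_lit 8) (.nd (nat_lit 6) 
(.lf (nat_lit 27738157) (dlOf (nat_lit 3) (nat_lit 0x3ac0a0002a010008b998000c0080060008003000200020008d20803))) 
(.lf (nat_lit 19878125) (dlOf (nat_lit 1) (nat_lit 0x4004000400189d8082)))) (.nd (nat_lit 11) 
(.lf (nat_lit 58147245) (dlOf (nat_lit 4) (nat_lit 0xe80000050881000ac2100282008010df84013de040100002009200097c6e82))) 
(.lf (nat_lit 54479277) (dlOf (nat_lit 1) (nat_lit 0x20029654e81))))))) (.nd (nat_lit 7) 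
(.nd (nat_lit 29) (.nd (nat_lit 20) (.nd (nat_lit 19) 
(.lf (nat_lit 5637619757) (dlOf (nat_lit 8) (nat_lit 0x140380003002004a01e002f00e8001802c007c0000002908001c00d000100080038000000500c003401a0002702000a00d000e001000c000400500000002508001601d00006010005000000028080008008037c00200020008120d03))) 
(.lf (nat_lit 1343176749) (dlOf (nat_lit 1) (nat_lit 0x5800400020008190402)))) (.nd (nat_lit 6) 
(.lf (nat_lit 3491184685) (dlOf (nat_lit 3) (nat_lit 0x530000000a0080218000000180400a400200140008070902))) 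
(.lf (nat_lit 3493282157) (dlOf (nat_lit 1) (nat_lit 0x6b0008000400200e00008105503))))) 
(.nd (nat_lit 10) (.nd (nat_lit 26) 
(.lf (nat_lit 1611087917) (dlOf (nat_lit 1) (nat_lit 0x2a0008011400200ec00080d0383))) 
(.lf (nat_lit 6241599533) (dlOf (nat_lit 8) (nat_lit 0x140380003002004a01e002f00e8001802c007c0000002908001c00d000100080038000000500c003401a0002702000a00d000e001000c000400500000002508001601d00006010005000000028080008008037c00200020008120d03)))) 
(.nd (nat_lit 9) (.lf (nat_lit 4027010093) (dlOf (nat_lit 1) (nat_lit 0x4004000400080f6082))) 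
(.lf (nat_lit 4096214573) (dlOf (nat_lit 1) (nat_lit 0x80080004002000200080e3783)))))) 
(.nd (nat_lit 6) (.nd (nat_lit 8) (.nd (nat_lit 9) 
(.lf (nat_lit 1346847917) (dlOf (nat_lit 2) (nat_lit 0x2c19a0002d0200100019042c01))) 
(.lf (nat_lit 1074220717) (dlOf (nat_lit 1) (nat_lit 0x400180f7281)))) (.nd (nat_lit 11) 
(.lf (nat_lit 1345274285) (dlOf (nat_lit 1) (nat_lit 0x960018b36e81))) 
(.lf (nat_lit 3490138541) (dlOf (nat_lit 1) (nat_lit 0x400200020008004e82))))) (.nd (nat_lit 9) 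
(.lf (nat_lit 6376341741) (dlOf (nat_lit 2) (nat_lit 0x66122000a9018090a80))) (.nd (nat_lit 21) 
(.lf (nat_lit 1476872941) (dlOf (nat_lit 1) (nat_lit 0x10004000200082d5a02))) 
(.lf (nat_lit 6377917165) (dlOf (nat_lit 2) (nat_lit 0x110980000a00800100080004002000200080e5a03))))))))))) 
(.nd (nat_lit 17) (.nd (nat_lit 6) (.nd (nat_lit 18) (.nd (nat_lit 28) (.nd (nat_lit 19) 
(.nd (nat_lit 7) (.nd (nat_lit 5) (.nd (nat_lit 10) (.nd (nat_lit 20) 
(.lf (nat_lit 21053469) (dlOf (nat_lit 1) (nat_lit 0x20028a00701))) 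
(.lf (nat_lit 47267869) (dlOf (nat_lit 2) (nat_lit 0x12f4c002be04000c002000600093c0082)))) 
(.nd (nat_lit 8) (.lf (nat_lit 2818655261) (dlOf (nat_lit 1) (nat_lit 0x1800280d2881))) 
(.lf (nat_lit 1610695965) (dlOf (nat_lit 1) (nat_lit 0x4004002a0008093102))))) (.nd (nat_lit 10) 
(.lf (nat_lit 46222141) (dlOf (nat_lit 1) (nat_lit 0xa000400020009385c02))) (.nd (nat_lit 26) 
(.lf (nat_lit 1073825597) (dlOf (nat_lit 1) (nat_lit 0x800200020008003e02))) 
(.lf (nat_lit 2751547197) (dlOf (nat_lit 1) (nat_lit 0x8008000400200020008003e03)))))) 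
(.nd (nat_lit 12) (.nd (nat_lit 9) 
(.lf (nat_lit 36783261) (dlOf (nat_lit 1) (nat_lit 0x800200020009072b82))) 
(.lf (nat_lit 2147568285) (dlOf (nat_lit 1) (nat_lit 0x8008000400200020008095583)))) 
(.nd (nat_lit 27) 
(.lf (nat_lit 67196061) (dlOf (nat_lit 2) (nat_lit 0x2836400cf204000c00200160008009502))) 
(.lf (nat_lit 6643864733) (dlOf (nat_lit 2) (nat_lit 0x140230006010801988100008008005c00200120008009503)))))) 
(.nd (nat_lit 5) (.nd (nat_lit 22) (.nd (nat_lit 26) (.nd (nat_lit 29) 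
(.lf (nat_lit 134823965) (dlOf (nat_lit 1) (nat_lit 0xf0004002400080c0a82))) 
(.lf (nat_lit 2819178525) (dlOf (nat_lit 1) (nat_lit 0x5800081d0481)))) 
(.lf (nat_lit 201932829) (dlOf (nat_lit 1) (nat_lit 0xf0004002400080c0a82)))) (.nd (nat_lit 26) 
(.lf (nat_lit 4800541) (dlOf (nat_lit 1) (nat_lit 0x800080020002001200082b0103))) 
(.lf (nat_lit 2756263965) (dlOf (nat_lit 1) (nat_lit 0x5800400040018230482))))) (.nd (nat_lit 20) 
(.nd (nat_lit 30) (.nd (nat_lit 26) 
(.lf (nat_lit 537477181) (dlOf (nat_lit 3) (nat_lit 0x1405f0000d8100cb02c8000680801e000800bc00200ce00080a0c83))) 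
(.lf (nat_lit 738803773) (dlOf (nat_lit 2) (nat_lit 0xc02d002030080010008001000200020008110783)))) 
(.nd (nat_lit 29) 
(.lf (nat_lit 3221831741) (dlOf (nat_lit 3) (nat_lit 0x5022800150080078118000a20400ec004001200081a1402))) 
(.lf (nat_lit 1611219005) (dlOf (nat_lit 2) (nat_lit 0xc02d0038c4080010008001000200020008110783))))) 
(.nd (nat_lit 9) 
(.lf (nat_lit 2755215421) (dlOf (nat_lit 5) (nat_lit 0x802f000e20100020110007080800080880038004000405e001ae0200020028130881))) 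
(.lf (nat_lit 7952957) (dlOf (nat_lit 1) (nat_lit 0x18004000a000851b482))))))) (.nd (nat_lit 7) 
(.nd (nat_lit 26) (.nd (nat_lit 8) (.nd (nat_lit 19) (.nd (nat_lit 20) 
(.lf (nat_lit 3087089693) (dlOf (nat_lit 1) (nat_lit 0x200080b0001))) 
(.lf (nat_lit 1343307805) (dlOf (nat_lit 2) (nat_lit 0x1802a000290181e0580)))) 
(.lf (nat_lit 3494461469) (dlOf (nat_lit 1) (nat_lit 0x5800400040018230482)))) (.nd (nat_lit 5) 
(.lf (nat_lit 4697703709) (dlOf (nat_lit 2) (nat_lit 0x680480005204009800400fa0008093102))) 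
(.lf (nat_lit 5637229373) (dlOf (nat_lit 4) (nat_lit 0x3002000584080018050000c0040009d04001c0140002001000238100088008001000200120008055c03))))) 
(.nd (nat_lit 5) (.nd (nat_lit 9) (.nd (nat_lit 20) 
(.lf (nat_lit 474562589) (dlOf (nat_lit 3) (nat_lit 0x24156000f0a1800784ec003c19a0004a08004415600220a1801104ec008819a0004308000600191a0101))) 
(.lf (nat_lit 4095295517) (dlOf (nat_lit 1) (nat_lit 0x28008000400200020008090083)))) 
(.lf (nat_lit 2483110429) (dlOf (nat_lit 1) (nat_lit 0x20018017f01)))) (.nd (nat_lit 9) 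
(.lf (nat_lit 1409892413) (dlOf (nat_lit 3) (nat_lit 0x1405f000198100cb02c8000c80801e000800bc00200ce00080a0c83))) 
(.lf (nat_lit 6241207869) (dlOf (nat_lit 8) (nat_lit 0x13e01400a7002802f000c000580c002c00a0002b02004201400240028000a8100098050006c00a0002904000801400100028000141000d0050006000a0000204000a014000e0028000001000f000800d800200020008053783)))))) 
(.nd (nat_lit 5) (.nd (nat_lit 27) (.nd (nat_lit 8) (.nd (nat_lit 21) 
(.lf (nat_lit 268518557) (dlOf (nat_lit 1) (nat_lit 0x100008052b81))) 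
(.lf (nat_lit 4095820957) (dlOf (nat_lit 1) (nat_lit 0x400080e2b81)))) 
(.lf (nat_lit 5637229469) (dlOf (nat_lit 2) (nat_lit 0x60140001e018055c80)))) (.nd (nat_lit 8) 
(.nd (nat_lit 11) (.lf (nat_lit 4160836765) (dlOf (nat_lit 1) (nat_lit 0x20008009501))) 
(.lf (nat_lit 1543589021) (dlOf (nat_lit 1) (nat_lit 0x400400020008146282)))) 
(.lf (nat_lit 4697702813) (dlOf (nat_lit 2) (nat_lit 0xab009000534080118008007800200ee0008091003))))) 
(.nd (nat_lit 8) (.nd (nat_lit 9) 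
(.lf (nat_lit 2952872125) (dlOf (nat_lit 1) (nat_lit 0x20018010381))) (.nd (nat_lit 20) 
(.lf (nat_lit 5234576061) (dlOf (nat_lit 2) (nat_lit 0x280540002c040008004000c0018055782))) 
(.lf (nat_lit 6376475325) (dlOf (nat_lit 1) (nat_lit 0x400200020008095782))))) (.nd (nat_lit 9) 
(.lf (nat_lit 3556854205) (dlOf (nat_lit 1) (nat_lit 0x1800280d4e81))) (.nd (nat_lit 26) 
(.lf (nat_lit 5234576317) (dlOf (nat_lit 1) (nat_lit 0x48008002000200140008055d03))) 
(.lf (nat_lit 5704338365) (dlOf (nat_lit 2) (nat_lit 0xe00280000004002800200180008055d02))))))))) 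
(.nd (nat_lit 28) (.nd (nat_lit 19) (.nd (nat_lit 5) (.nd (nat_lit 20) (.nd (nat_lit 26) 
(.nd (nat_lit 21) (.lf (nat_lit 671432733) (dlOf (nat_lit 1) (nat_lit 0x90002000c0008190602))) 
(.lf (nat_lit 27607069) (dlOf (nat_lit 1) (nat_lit 0x20018d00681)))) (.nd (nat_lit 22) 
(.nd (nat_lit 27) (.lf (nat_lit 4362420253) (dlOf (nat_lit 1) (nat_lit 0x20018070601))) 
(.lf (nat_lit 2349154333) (dlOf (nat_lit 3) (nat_lit 0x75015003b004000346080094054003a01000450070005cc1804000080020002003600080e0483)))) 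
(.lf (nat_lit 2756001821) (dlOf (nat_lit 1) (nat_lit 0x50008000c002000200081d0a03))))) 
(.nd (nat_lit 21) (.nd (nat_lit 23) 
(.lf (nat_lit 1392669) (dlOf (nat_lit 2) (nat_lit 0x29bf000fc0180c0900))) 
(.lf (nat_lit 9781277) (dlOf (nat_lit 1) (nat_lit 0x400200040008580082)))) (.nd (nat_lit 9) 
(.lf (nat_lit 3489821) (dlOf (nat_lit 1) (nat_lit 0x90004002c0018200002))) 
(.lf (nat_lit 58016285) (dlOf (nat_lit 1) (nat_lit 0x200197a8701)))))) (.nd (nat_lit 10) 
(.nd (nat_lit 8) 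
(.lf (nat_lit 3355787325) (dlOf (nat_lit 3) (nat_lit 0x22034001b017800800340000c0c0040068003a02f0008006800014180258008009400200160008110e03))) 
(.lf (nat_lit 25510205) (dlOf (nat_lit 1) (nat_lit 0xa0028c10701)))) (.nd (nat_lit 9) 
(.lf (nat_lit 5369054525) (dlOf (nat_lit 1) (nat_lit 0x400180e3281))) 
(.lf (nat_lit 345917) (dlOf (nat_lit 2) (nat_lit 0x2c1d8000d4080008008000400200020008003e03)))))) 
(.nd (nat_lit 21) (.nd (nat_lit 5) (.nd (nat_lit 20) (.nd (nat_lit 22) 
(.lf (nat_lit 9256989) (dlOf (nat_lit 1) (nat_lit 0x138008000400200200008530103))) 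
(.lf (nat_lit 21839901) (dlOf (nat_lit 1) (nat_lit 0x230008023800200380008a70483)))) 
(.nd (nat_lit 24) 
(.lf (nat_lit 39665693) (dlOf (nat_lit 2) (nat_lit 0xa2570002929000187ae0003b06000800291b0101))) 
(.lf (nat_lit 22888477) (dlOf (nat_lit 1) (nat_lit 0x3c00400020008b30482))))) (.nd (nat_lit 22) 
(.lf (nat_lit 868413) (dlOf (nat_lit 2) (nat_lit 0x35592001a9860009d828030d00))) 
(.lf (nat_lit 5062717) (dlOf (nat_lit 1) (nat_lit 0x400200580008300902))))) (.nd (nat_lit 5) 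
(.nd (nat_lit 7) (.nd (nat_lit 20) (.nd (nat_lit 24) 
(.lf (nat_lit 2754428957) (dlOf (nat_lit 1) (nat_lit 0x4004000200180e0482))) 
(.lf (nat_lit 53297181) (dlOf (nat_lit 1) (nat_lit 0xc0019580581)))) 
(.lf (nat_lit 29179933) (dlOf (nat_lit 1) (nat_lit 0x20018dd0c81)))) 
(.lf (nat_lit 19745693) (dlOf (nat_lit 1) (nat_lit 0x800189d5c81)))) (.nd (nat_lit 7) 
(.nd (nat_lit 23) (.lf (nat_lit 53297213) (dlOf (nat_lit 1) (nat_lit 0x40019581201))) 
(.lf (nat_lit 11354173) (dlOf (nat_lit 12) (nat_lit 0x84a28001b8080079f3c0002c040044f9e0001502001c950000f3e780049d5c000240c00392a0001e7cf00073ab80003818001a5400018f9e0000d040008950000f3e7800030100071f3c003cf960000604000a7cf00073e5800014100061f3c000ceae0000404001c950000f3e780009d5c000000c0058004000e0018690e02)))) 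
(.lf (nat_lit 8213181) (dlOf (nat_lit 1) (nat_lit 0x400200020008518c82))))))) (.nd (nat_lit 27) 
(.nd (nat_lit 31) (.nd (nat_lit 5) (.nd (nat_lit 19) 
(.lf (nat_lit 4563746845) (dlOf (nat_lit 1) (nat_lit 0x100008003c002001200080d0083))) 
(.lf (nat_lit 1346191389) (dlOf (nat_lit 5) (nat_lit 0x16b0ab00b98334058c12c021c08d016a0428000c4281360558099419a0504096028f0428000c02010f055802e427204400cd01f504b003b0234086010a0002f0c0020156000706680030258002c10a0002e0800020028e60101)))) 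
(.nd (nat_lit 19) (.lf (nat_lit 4563746877) (dlOf (nat_lit 2) (nat_lit 0x4a029000470180d0480))) 
(.lf (nat_lit 1346191421) (dlOf (nat_lit 2) (nat_lit 0x160d9000304e000e02340048e0c00ac004000a0008e60602))))) 
(.nd (nat_lit 8) (.nd (nat_lit 19) (.nd (nat_lit 22) 
(.lf (nat_lit 2483372061) (dlOf (nat_lit 3) (nat_lit 0x75015003b004000366080094054003a01000450070005c41804000080020002003600080e0483))) 
(.lf (nat_lit 3494199325) (dlOf (nat_lit 1) (nat_lit 0x80004001600081d0a02)))) 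
(.lf (nat_lit 3492626461) (dlOf (nat_lit 1) (nat_lit 0x4004000200180e0482)))) (.nd (nat_lit 7) 
(.nd (nat_lit 10) 
(.lf (nat_lit 3557114141) (dlOf (nat_lit 1) (nat_lit 0x300080024002000e0008130703))) 
(.lf (nat_lit 3490008349) (dlOf (nat_lit 1) (nat_lit 0x80018006781)))) 
(.lf (nat_lit 3490007453) (dlOf (nat_lit 1) (nat_lit 0x400200020008004e82)))))) (.nd (nat_lit 29) 
(.nd (nat_lit 26) (.nd (nat_lit 5) (.nd (nat_lit 7) 
(.lf (nat_lit 4697964573) (dlOf (nat_lit 1) (nat_lit 0x100008003c002001200080d0083))) 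
(.lf (nat_lit 5773279389) (dlOf (nat_lit 1) (nat_lit 0x14004000200080c1282)))) 
(.lf (nat_lit 4697964605) (dlOf (nat_lit 2) (nat_lit 0x4a029000470180d0480)))) (.nd (nat_lit 22) 
(.nd (nat_lit 30) 
(.lf (nat_lit 2617589789) (dlOf (nat_lit 4) (nat_lit 0x250040000a10205a002000340098001f8100148080000480401a800200040008100482))) 
(.lf (nat_lit 1543847965) (dlOf (nat_lit 1) (nat_lit 0x90002000c0008190602)))) 
(.lf (nat_lit 474300445) (dlOf (nat_lit 2) (nat_lit 0x84260000502003e0029130581))))) 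
(.nd (nat_lit 31) (.nd (nat_lit 5) 
(.lf (nat_lit 6377259165) (dlOf (nat_lit 1) (nat_lit 0x14004000200080c1282))) 
(.lf (nat_lit 6375687741) (dlOf (nat_lit 3) (nat_lit 0x168548005417e0001304000615e0003066000000100008008000c00200040008003783)))) 
(.nd (nat_lit 26) 
(.lf (nat_lit 4161093661) (dlOf (nat_lit 2) (nat_lit 0x7c0158006b4080130008021c00200380008120483))) 
(.nd (nat_lit 30) 
(.lf (nat_lit 3154460701) (dlOf (nat_lit 3) (nat_lit 0xf02a800980d0006c02800029060004055000801a000200500004e0c007c004004400081a0102))) 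
(.lf (nat_lit 4228202525) (dlOf (nat_lit 1) (nat_lit 0x20018070601)))))))))) (.nd (nat_lit 8) 
(.nd (nat_lit 5) (.nd (nat_lit 18) (.nd (nat_lit 9) (.nd (nat_lit 26) (.nd (nat_lit 19) 
(.nd (nat_lit 24) 
(.lf (nat_lit 4563484765) (dlOf (nat_lit 3) (nat_lit 0x48000003fe040068000001f80200020018090081))) 
(.lf (nat_lit 16859229) (dlOf (nat_lit 2) (nat_lit 0x19bec000188188e0400)))) 
(.lf (nat_lit 537477213) (dlOf (nat_lit 5) (nat_lit 0x8174006c0b00076051002e01f80006820016014400cc07e00680320000c03003e02c0013014400b007e005e0320000584000102e800f816000c00a2006803f0034019000028280048008086c002002a00080a1203)))) 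
(.nd (nat_lit 7) (.nd (nat_lit 19) 
(.lf (nat_lit 604061789) (dlOf (nat_lit 1) (nat_lit 0x20028010281))) 
(.lf (nat_lit 1409892445) (dlOf (nat_lit 5) (nat_lit 0x8174006c0b00076051002e01f8000c020016014400cc07e00680320001703003e02c0013014400b007e005e0320001084000102e800f816000c00a2006803f0034019000080280048008086c002002a00080a1203)))) 
(.lf (nat_lit 2080457949) (dlOf (nat_lit 1) (nat_lit 0x8008000c00200020008092e03))))) 
(.nd (nat_lit 7) (.nd (nat_lit 22) 
(.lf (nat_lit 1345931869) (dlOf (nat_lit 1) (nat_lit 0x1e0008e25301))) 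
(.lf (nat_lit 41503325) (dlOf (nat_lit 1) (nat_lit 0x20019245301)))) (.nd (nat_lit 10) 
(.nd (nat_lit 19) 
(.lf (nat_lit 6377523933) (dlOf (nat_lit 2) (nat_lit 0x3805800050040004004000600180e5902))) 
(.lf (nat_lit 57232093) (dlOf (nat_lit 7) (nat_lit 0x14b38c000660400a59c600031020052ced000c6760000b81000833b4000200400199da0000f020048ced00086760012b38c000000c0008004001a0009795902)))) 
(.lf (nat_lit 2885766877) (dlOf (nat_lit 1) (nat_lit 0x1c0028007381)))))) (.nd (nat_lit 25) 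
(.nd (nat_lit 7) (.nd (nat_lit 12) 
(.lf (nat_lit 4094509149) (dlOf (nat_lit 1) (nat_lit 0x100018050081))) 
(.lf (nat_lit 348253) (dlOf (nat_lit 1) (nat_lit 0x20018007d81)))) (.nd (nat_lit 9) 
(.nd (nat_lit 22) (.lf (nat_lit 1208303837) (dlOf (nat_lit 1) (nat_lit 0x400180c1c81))) 
(.lf (nat_lit 21315805) (dlOf (nat_lit 1) (nat_lit 0x20028a31c81)))) 
(.lf (nat_lit 69552861) (dlOf (nat_lit 1) (nat_lit 0x60018b45901))))) (.nd (nat_lit 19) 
(.nd (nat_lit 9) (.lf (nat_lit 37044317) (dlOf (nat_lit 1) (nat_lit 0x20019081981))) 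
(.lf (nat_lit 38095453) (dlOf (nat_lit 1) (nat_lit 0x800400020019135302)))) (.nd (nat_lit 10) 
(.lf (nat_lit 52248669) (dlOf (nat_lit 1) (nat_lit 0x40019521981))) 
(.lf (nat_lit 34423901) (dlOf (nat_lit 1) (nat_lit 0x60028fb2901))))))) (.nd (nat_lit 10) 
(.nd (nat_lit 18) (.nd (nat_lit 21) (.nd (nat_lit 9) (.nd (nat_lit 27) 
(.lf (nat_lit 4563484797) (dlOf (nat_lit 2) (nat_lit 0x2c80000000004001800200160008090282))) 
(.lf (nat_lit 1208041597) (dlOf (nat_lit 1) (nat_lit 0x20028090281)))) 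
(.lf (nat_lit 2617328253) (dlOf (nat_lit 1) (nat_lit 0x400080010002001400080a1903)))) 
(.nd (nat_lit 19) (.nd (nat_lit 24) 
(.lf (nat_lit 3491840125) (dlOf (nat_lit 2) (nat_lit 0x160078002b8040004004000a0018090082))) 
(.lf (nat_lit 18956413) (dlOf (nat_lit 1) (nat_lit 0x10008000400200020008970483)))) 
(.lf (nat_lit 23675005) (dlOf (nat_lit 2) (nat_lit 0xccbf000fd018b80080))))) (.nd (nat_lit 19) 
(.nd (nat_lit 20) (.nd (nat_lit 26) 
(.lf (nat_lit 5637488765) (dlOf (nat_lit 2) (nat_lit 0xd013000084080080008000c002006800080f0d03))) 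
(.lf (nat_lit 6241468541) (dlOf (nat_lit 1) (nat_lit 0x200180f0c81)))) 
(.lf (nat_lit 11878525) (dlOf (nat_lit 2) (nat_lit 0x6ce2a0020f02000200286c0081)))) 
(.nd (nat_lit 7) (.lf (nat_lit 3491577981) (dlOf (nat_lit 2) (nat_lit 0x2a08a000ae018090080))) 
(.lf (nat_lit 20791549) (dlOf (nat_lit 1) (nat_lit 0x400189e4601)))))) (.nd (nat_lit 9) 
(.nd (nat_lit 7) (.nd (nat_lit 26) (.nd (nat_lit 28) 
(.lf (nat_lit 6039884925) (dlOf (nat_lit 1) (nat_lit 0x20028009501))) 
(.lf (nat_lit 4160836733) (dlOf (nat_lit 1) (nat_lit 0xc0018009501)))) 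
(.lf (nat_lit 6643864701) (dlOf (nat_lit 1) (nat_lit 0xa0018009501)))) (.nd (nat_lit 26) 
(.lf (nat_lit 4697703677) (dlOf (nat_lit 2) (nat_lit 0x44000000000200020018092f01))) 
(.lf (nat_lit 2080457981) (dlOf (nat_lit 2) (nat_lit 0xb80e40003e04000800400160008092f02))))) 
(.nd (nat_lit 19) (.nd (nat_lit 20) 
(.lf (nat_lit 4966139517) (dlOf (nat_lit 2) (nat_lit 0x500360003502000e0018003981))) 
(.lf (nat_lit 61949565) (dlOf (nat_lit 2) (nat_lit 0x1abf100015ed8003ac7400054520002d0800040009923981)))) 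
(.nd (nat_lit 18) (.lf (nat_lit 8996477) (dlOf (nat_lit 2) (nat_lit 0x623cf00000018513980))) 
(.lf (nat_lit 61687421) (dlOf (nat_lit 1) (nat_lit 0x6000200140009923982)))))))) (.nd (nat_lit 7) 
(.nd (nat_lit 27) (.nd (nat_lit 5) (.nd (nat_lit 10) (.nd (nat_lit 19) (.nd (nat_lit 11) 
(.lf (nat_lit 5972771165) (dlOf (nat_lit 2) (nat_lit 0x80000005602000200180b0681))) 
(.lf (nat_lit 4362164573) (dlOf (nat_lit 1) (nat_lit 0x10001800ab81)))) (.nd (nat_lit 20) 
(.lf (nat_lit 57231709) (dlOf (nat_lit 1) (nat_lit 0x8800800b0002006a0009794e83))) 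
(.lf (nat_lit 37308765) (dlOf (nat_lit 1) (nat_lit 0x200190d4e81))))) (.nd (nat_lit 9) 
(.lf (nat_lit 3490012509) (dlOf (nat_lit 1) (nat_lit 0x50001800c901))) 
(.lf (nat_lit 536954717) (dlOf (nat_lit 1) (nat_lit 0x10008000800200020008003f83))))) 
(.nd (nat_lit 11) (.nd (nat_lit 9) (.nd (nat_lit 20) 
(.lf (nat_lit 268518781) (dlOf (nat_lit 1) (nat_lit 0x700028053581))) 
(.lf (nat_lit 1345406333) (dlOf (nat_lit 1) (nat_lit 0xc00400020008bb3582)))) 
(.lf (nat_lit 8476541) (dlOf (nat_lit 1) (nat_lit 0x80020002000851a302)))) (.nd (nat_lit 10) 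
(.lf (nat_lit 36522365) (dlOf (nat_lit 1) (nat_lit 0x20019074e81))) 
(.lf (nat_lit 20008317) (dlOf (nat_lit 1) (nat_lit 0x4004000200089d6c02)))))) (.nd (nat_lit 26) 
(.nd (nat_lit 32) (.nd (nat_lit 29) 
(.lf (nat_lit 1476477277) (dlOf (nat_lit 1) (nat_lit 0x400200020008010902))) 
(.lf (nat_lit 939606365) (dlOf (nat_lit 9) (nat_lit 0x5800000051020086000000278100210000001300800b8068000880400580000003a02004a0000001c8100210000000e00801900000006a0400d4002002600080b0682)))) 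
(.nd (nat_lit 5) 
(.lf (nat_lit 6576750941) (dlOf (nat_lit 2) (nat_lit 0x80000005602000200180b0681))) 
(.lf (nat_lit 4697702781) (dlOf (nat_lit 2) (nat_lit 0x10802a0000002003e0008091001))))) 
(.nd (nat_lit 11) (.nd (nat_lit 28) (.nd (nat_lit 29) 
(.lf (nat_lit 2348892509) (dlOf (nat_lit 1) (nat_lit 0x540008014e81))) 
(.lf (nat_lit 1812021597) (dlOf (nat_lit 9) (nat_lit 0x5800000051020086000000278100210000001300800b8068000880400580000003a02004a0000001c8100210000000e00801900000006a0400d4002002600080b0682)))) 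
(.lf (nat_lit 5301682525) (dlOf (nat_lit 1) (nat_lit 0x40028017101)))) (.nd (nat_lit 12) 
(.lf (nat_lit 6377523549) (dlOf (nat_lit 2) (nat_lit 0x4028000401300010088005a20c0010004000800180e4e82))) 
(.lf (nat_lit 469850461) (dlOf (nat_lit 2) (nat_lit 0x17113000f083000cf80801a80040032000800ab82))))))) 
(.nd (nat_lit 5) (.nd (nat_lit 9) (.nd (nat_lit 10) (.nd (nat_lit 11) 
(.lf (nat_lit 58016221) (dlOf (nat_lit 1) (nat_lit 0x400097a7c81))) 
(.lf (nat_lit 1543588317) (dlOf (nat_lit 1) (nat_lit 0x20008144e81)))) (.nd (nat_lit 11) 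
(.lf (nat_lit 7947741) (dlOf (nat_lit 1) (nat_lit 0x10008000400200020008513603))) 
(.lf (nat_lit 1543589341) (dlOf (nat_lit 2) (nat_lit 0x9012800200880005c080124004000a0018146d82))))) 
(.nd (nat_lit 18) (.nd (nat_lit 20) 
(.lf (nat_lit 4362159069) (dlOf (nat_lit 1) (nat_lit 0x20018002881))) 
(.lf (nat_lit 36783069) (dlOf (nat_lit 1) (nat_lit 0x100019072881)))) (.nd (nat_lit 10) 
(.lf (nat_lit 34423773) (dlOf (nat_lit 1) (nat_lit 0x1c0028fb2881))) 
(.lf (nat_lit 8214493) (dlOf (nat_lit 1) (nat_lit 0xe00080004002003a000851a603)))))) 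
(.nd (nat_lit 12) (.nd (nat_lit 9) (.nd (nat_lit 10) 
(.lf (nat_lit 48056829) (dlOf (nat_lit 1) (nat_lit 0x400200020009404f82))) 
(.lf (nat_lit 6375425533) (dlOf (nat_lit 1) (nat_lit 0x400200020008003682)))) (.nd (nat_lit 11) 
(.nd (nat_lit 18) 
(.lf (nat_lit 4026614781) (dlOf (nat_lit 2) (nat_lit 0x805c0126d0200080028002881))) 
(.lf (nat_lit 6375687165) (dlOf (nat_lit 1) (nat_lit 0x1a0018002881)))) 
(.lf (nat_lit 5167467517) (dlOf (nat_lit 1) (nat_lit 0x20018055f01))))) (.nd (nat_lit 10) 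
(.nd (nat_lit 18) 
(.lf (nat_lit 1342263805) (dlOf (nat_lit 4) (nat_lit 0x6221002588100021108012b40800108840094e04007400400700008008682))) 
(.lf (nat_lit 20271613) (dlOf (nat_lit 1) (nat_lit 0x200089d8681)))) (.nd (nat_lit 19) 
(.lf (nat_lit 6643865085) (dlOf (nat_lit 1) (nat_lit 0x20018009c01))) 
(.lf (nat_lit 20534781) (dlOf (nat_lit 1) (nat_lit 0x40004002600089d9c02)))))))))) (.nd (nat_lit 5) 
(.nd (nat_lit 29) (.nd (nat_lit 18) (.nd (nat_lit 7) (.nd (nat_lit 28) (.nd (nat_lit 19) 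
(.nd (nat_lit 23) (.lf (nat_lit 1073954845) (dlOf (nat_lit 1) (nat_lit 0x10002000a0008030902))) 
(.lf (nat_lit 25378845) (dlOf (nat_lit 2) (nat_lit 0x705836003e000000d9828c00480)))) 
(.nd (nat_lit 20) (.nd (nat_lit 21) 
(.lf (nat_lit 4931613) (dlOf (nat_lit 1) (nat_lit 0x800080020002001200082d0103))) 
(.lf (nat_lit 11223069) (dlOf (nat_lit 4) (nat_lit 0x39584004620400ac0000020c02006055b00202a90007c8100078008002c002003c0008670483)))) 
(.lf (nat_lit 45826077) (dlOf (nat_lit 4) (nat_lit 0x73a7f004288c00008608018e91c0003f02002948e0001e819360100))))) 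
(.nd (nat_lit 20) (.nd (nat_lit 26) 
(.lf (nat_lit 1476608029) (dlOf (nat_lit 4) (nat_lit 0x490022000420202d80110002081000e00b8000d4080080008004c002008a00080a0583))) 
(.nd (nat_lit 27) (.lf (nat_lit 5704466461) (dlOf (nat_lit 2) (nat_lit 0xc01b0009c0180a0a80))) 
(.lf (nat_lit 3691200541) (dlOf (nat_lit 5) (nat_lit 0xdc00400830018001681002a0010000ae040094008000560200e8004007c00180001410033000800e0002002000080a0583))))) 
(.nd (nat_lit 19) 
(.lf (nat_lit 3490922525) (dlOf (nat_lit 3) (nat_lit 0x6443c0015d02006e230000ab818030900))) 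
(.lf (nat_lit 1343963165) (dlOf (nat_lit 1) (nat_lit 0x20028380a81)))))) (.nd (nat_lit 20) 
(.nd (nat_lit 8) (.nd (nat_lit 9) 
(.lf (nat_lit 61031581) (dlOf (nat_lit 2) (nat_lit 0x4b93000440198c2b80))) 
(.lf (nat_lit 268651165) (dlOf (nat_lit 1) (nat_lit 0x380080054002000600080e5583)))) 
(.nd (nat_lit 6) (.nd (nat_lit 10) 
(.lf (nat_lit 1346587037) (dlOf (nat_lit 1) (nat_lit 0x1000200020008fe4e82))) 
(.lf (nat_lit 3489881501) (dlOf (nat_lit 2) (nat_lit 0x2e87e8000f20400b80020034000800ca82)))) 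
(.lf (nat_lit 8603101) (dlOf (nat_lit 1) (nat_lit 0x8008000c00200020008513603))))) (.nd (nat_lit 6) 
(.nd (nat_lit 8) (.nd (nat_lit 10) 
(.lf (nat_lit 3493021853) (dlOf (nat_lit 1) (nat_lit 0x8400280f4801))) 
(.lf (nat_lit 473121949) (dlOf (nat_lit 2) (nat_lit 0x211f000b8818d12b80)))) 
(.lf (nat_lit 39012765) (dlOf (nat_lit 1) (nat_lit 0x8008000400200020009194e83)))) 
(.nd (nat_lit 11) (.lf (nat_lit 473121757) (dlOf (nat_lit 1) (nat_lit 0x20018d12881))) 
(.lf (nat_lit 20138973) (dlOf (nat_lit 1) (nat_lit 0x1b00080014002003600089d5e03))))))) 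
(.nd (nat_lit 19) (.nd (nat_lit 21) (.nd (nat_lit 27) (.nd (nat_lit 6) 
(.lf (nat_lit 1523741) (dlOf (nat_lit 1) (nat_lit 0x200180e0b81))) 
(.lf (nat_lit 21446749) (dlOf (nat_lit 1) (nat_lit 0x8008002000200100008a40703)))) 
(.nd (nat_lit 26) 
(.lf (nat_lit 3624353821) (dlOf (nat_lit 3) (nat_lit 0xb000000574080020000002b204001c00200060008170902))) 
(.lf (nat_lit 201801757) (dlOf (nat_lit 1) (nat_lit 0x8008000c00200040008090003))))) 
(.nd (nat_lit 6) (.nd (nat_lit 22) (.nd (nat_lit 24) 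
(.lf (nat_lit 3492233245) (dlOf (nat_lit 1) (nat_lit 0x4c004000400080b0982))) 
(.lf (nat_lit 19349533) (dlOf (nat_lit 1) (nat_lit 0x20018990a01)))) 
(.lf (nat_lit 48709661) (dlOf (nat_lit 3) (nat_lit 0x5e3440008604007ed70003e98b0001f829420100)))) 
(.nd (nat_lit 7) (.lf (nat_lit 57100637) (dlOf (nat_lit 1) (nat_lit 0x20019794e81))) 
(.lf (nat_lit 57101021) (dlOf (nat_lit 1) (nat_lit 0x1800400020009795902)))))) (.nd (nat_lit 6) 
(.nd (nat_lit 20) (.nd (nat_lit 7) (.nd (nat_lit 8) 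
(.lf (nat_lit 59719709) (dlOf (nat_lit 1) (nat_lit 0x1800400200019820102))) 
(.lf (nat_lit 472858909) (dlOf (nat_lit 2) (nat_lit 0x482ca0003e0200020018b28001)))) 
(.lf (nat_lit 32457885) (dlOf (nat_lit 1) (nat_lit 0x20028ef2b81)))) (.nd (nat_lit 21) 
(.lf (nat_lit 23019549) (dlOf (nat_lit 1) (nat_lit 0x80018b40481))) 
(.lf (nat_lit 473907229) (dlOf (nat_lit 2) (nat_lit 0x16828600d413900120668000bc180008008000400200020008fc0103))))) 
(.nd (nat_lit 8) (.nd (nat_lit 7) 
(.lf (nat_lit 8341085) (dlOf (nat_lit 1) (nat_lit 0x40018513901))) 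
(.lf (nat_lit 5772362973) (dlOf (nat_lit 1) (nat_lit 0x2a0018092e01)))) (.nd (nat_lit 9) 
(.lf (nat_lit 3097053) (dlOf (nat_lit 1) (nat_lit 0xa0018200b81))) 
(.lf (nat_lit 3492758493) (dlOf (nat_lit 1) (nat_lit 0x4002000200080f2882)))))))) (.nd (nat_lit 28) 
(.nd (nat_lit 27) (.nd (nat_lit 31) (.nd (nat_lit 6) (.nd (nat_lit 10) (.nd (nat_lit 18) 
(.lf (nat_lit 604192797) (dlOf (nat_lit 3) (nat_lit 0x15c03000040000002082000c00b0000d4080090008039000200300008080583))) 
(.lf (nat_lit 1611087901) (dlOf (nat_lit 8) (nat_lit 0x640b4005205700170028008481800f816800bc0ae003c0050010883000d02d000e015c002c00a0021006002205a002002b800780140041e0c00240ae0020202000a057000fd01001302b8007e408035800808bc002008000080d0083)))) 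
(.lf (nat_lit 604455965) (dlOf (nat_lit 1) (nat_lit 0x400182d2881)))) (.nd (nat_lit 8) 
(.lf (nat_lit 1611087965) (dlOf (nat_lit 2) (nat_lit 0x380fc00082040004002002200080d0702))) 
(.lf (nat_lit 604457309) (dlOf (nat_lit 1) (nat_lit 0x1800282d4e81))))) (.nd (nat_lit 20) 
(.nd (nat_lit 21) (.lf (nat_lit 3758571549) (dlOf (nat_lit 1) (nat_lit 0x1000282b0681))) 
(.lf (nat_lit 2754035741) (dlOf (nat_lit 1) (nat_lit 0x4c004000400080b0982)))) (.nd (nat_lit 7) 
(.lf (nat_lit 2752725021) (dlOf (nat_lit 3) (nat_lit 0x644660015802006e248000a9018030900))) 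
(.lf (nat_lit 2755084701) (dlOf (nat_lit 1) (nat_lit 0x20028106881)))))) (.nd (nat_lit 6) 
(.nd (nat_lit 18) (.nd (nat_lit 8) (.nd (nat_lit 10) 
(.lf (nat_lit 1812152349) (dlOf (nat_lit 2) (nat_lit 0x50058000000800180080018002002c0008160483))) 
(.lf (nat_lit 2885895197) (dlOf (nat_lit 1) (nat_lit 0x1800400020018142882)))) 
(.lf (nat_lit 2818789661) (dlOf (nat_lit 1) (nat_lit 0x20028128081)))) (.nd (nat_lit 31) 
(.lf (nat_lit 738672669) (dlOf (nat_lit 8) (nat_lit 0x640b4005205700170028007f41800f816800bc0ae003c005000fe03000d02d000e015c002c00a001fb06002205a002002b80078014003f40c00140ae001e8020026057000f381000902b80078008035800808bc002008000080d0083))) 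
(.lf (nat_lit 2886156317) (dlOf (nat_lit 3) (nat_lit 0xb000000560080020000002a804001c00200060008170902))))) 
(.nd (nat_lit 8) (.nd (nat_lit 10) 
(.lf (nat_lit 738672733) (dlOf (nat_lit 2) (nat_lit 0x380fc00082040004002002200080d0702))) 
(.lf (nat_lit 2818792541) (dlOf (nat_lit 17) (nat_lit 0xa00d8000bc04001807e0005d0200340360002e010001021000900fc000a8080010084000203f00029820009021000100d8001c0360005106000e03600020110001401000181c8003807e001a03600040110001142000180fc0008404000406c000400200060360001f81000901b0000f40800200fc0005e04005407e0002e02000a03f0001681000401f80009c08004000800b0002003e000812c003)))) 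
(.nd (nat_lit 11) 
(.lf (nat_lit 671303517) (dlOf (nat_lit 1) (nat_lit 0x18008000c00200040008143f83))) 
(.lf (nat_lit 2818789213) (dlOf (nat_lit 1) (nat_lit 0xa8008001c00200180008127783))))))) 
(.nd (nat_lit 30) (.nd (nat_lit 27) (.nd (nat_lit 7) (.nd (nat_lit 18) 
(.lf (nat_lit 2953003037) (dlOf (nat_lit 11) (nat_lit 0xe500e0008806c000b4080334038000590201be01c001800a80015c100420070000ac0405140360002a02006001b0001481002b00d80002408075807000ac036000050400c601c002e00d80001010000807000004041a9400401740018080582))) 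
(.lf (nat_lit 3020374045) (dlOf (nat_lit 1) (nat_lit 0x1000282b0681)))) (.nd (nat_lit 6) 
(.lf (nat_lit 872629405) (dlOf (nat_lit 1) (nat_lit 0x50008000400200020008092b83))) 
(.lf (nat_lit 805523165) (dlOf (nat_lit 1) (nat_lit 0x3c00400060008117382))))) (.nd (nat_lit 18) 
(.nd (nat_lit 7) 
(.lf (nat_lit 939737117) (dlOf (nat_lit 2) (nat_lit 0x50058000000800180080018002002c0008160483))) 
(.lf (nat_lit 5301814429) (dlOf (nat_lit 3) (nat_lit 0x500c000422040028056001f902000a0008092b81)))) 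
(.nd (nat_lit 6) 
(.lf (nat_lit 3154591773) (dlOf (nat_lit 1) (nat_lit 0x8008000400200020008270683))) 
(.lf (nat_lit 1009205341) (dlOf (nat_lit 3) (nat_lit 0x600e30000e8100d307180007008025800800b0002002800090a0883)))))) 
(.nd (nat_lit 26) (.nd (nat_lit 27) (.nd (nat_lit 7) 
(.lf (nat_lit 1880309789) (dlOf (nat_lit 1) (nat_lit 0x800200020008830602))) 
(.lf (nat_lit 4026745245) (dlOf (nat_lit 1) (nat_lit 0x30008001c00200160008090783)))) 
(.nd (nat_lit 9) (.lf (nat_lit 6308446237) (dlOf (nat_lit 2) (nat_lit 0xc01b0009c0180a0a80))) 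
(.lf (nat_lit 4160968221) (dlOf (nat_lit 1) (nat_lit 0x1c00280a9c01))))) (.nd (nat_lit 7) 
(.nd (nat_lit 18) (.lf (nat_lit 1946370077) (dlOf (nat_lit 1) (nat_lit 0x10002000a0008030902))) 
(.lf (nat_lit 4095164445) (dlOf (nat_lit 1) (nat_lit 0x80080004002000c0008070103)))) 
(.nd (nat_lit 6) 
(.lf (nat_lit 1946634397) (dlOf (nat_lit 1) (nat_lit 0x200080028002001e00080f4803))) 
(.lf (nat_lit 4095951325) (dlOf (nat_lit 1) (nat_lit 0x80080004002000200080e1283))))))))) 
(.nd (nat_lit 6) (.nd (nat_lit 30) (.nd (nat_lit 26) (.nd (nat_lit 19) (.nd (nat_lit 28) 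
(.nd (nat_lit 23) (.nd (nat_lit 27) 
(.lf (nat_lit 6442663997) (dlOf (nat_lit 1) (nat_lit 0x20018130801))) 
(.lf (nat_lit 134430781) (dlOf (nat_lit 1) (nat_lit 0x20028020701)))) (.nd (nat_lit 7) 
(.lf (nat_lit 25378877) (dlOf (nat_lit 1) (nat_lit 0xa0018c00d81))) 
(.lf (nat_lit 47662269) (dlOf (nat_lit 1) (nat_lit 0x18008007800200360009402c83))))) 
(.nd (nat_lit 7) (.nd (nat_lit 27) 
(.lf (nat_lit 2953003069) (dlOf (nat_lit 2) (nat_lit 0x1c40300022000004c5828080900))) 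
(.lf (nat_lit 939737149) (dlOf (nat_lit 2) (nat_lit 0xb00000003a04000400200120008160702)))) 
(.nd (nat_lit 9) 
(.lf (nat_lit 805781693) (dlOf (nat_lit 2) (nat_lit 0x205400070088000481000080080008002000200081a0383))) 
(.lf (nat_lit 268651197) (dlOf (nat_lit 3) (nat_lit 0x501400006c0800280a000030040020004006600180e5782)))))) 
(.nd (nat_lit 8) (.nd (nat_lit 7) (.nd (nat_lit 23) 
(.lf (nat_lit 21971005) (dlOf (nat_lit 6) (nat_lit 0xfc8b00059c080026458001f0e0001660400499160025c38000534100026458002f0e00014c0400b79160058c3800050c100078008000800200300008a80d03))) 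
(.lf (nat_lit 13582397) (dlOf (nat_lit 1) (nat_lit 0x10008002800200080008730b83)))) 
(.lf (nat_lit 5980349) (dlOf (nat_lit 1) (nat_lit 0x20018420481)))) (.nd (nat_lit 7) 
(.nd (nat_lit 20) 
(.lf (nat_lit 46874941) (dlOf (nat_lit 3) (nat_lit 0x273e0001501000639f000078080060008000400200080009380b83))) 
(.lf (nat_lit 5980477) (dlOf (nat_lit 1) (nat_lit 0x980080018002000c0008420703)))) 
(.lf (nat_lit 737725) (dlOf (nat_lit 1) (nat_lit 0x20008017a81)))))) (.nd (nat_lit 27) 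
(.nd (nat_lit 8) (.nd (nat_lit 20) 
(.lf (nat_lit 604192829) (dlOf (nat_lit 1) (nat_lit 0x27400202ba0008080902))) 
(.lf (nat_lit 2752725053) (dlOf (nat_lit 5) (nat_lit 0x2707f401203ce001430400301fd00130f38003641003707f401a03ce000cd04009e1fd00490f3800330100050008000400200060008030d03)))) 
(.nd (nat_lit 18) (.lf (nat_lit 68370749) (dlOf (nat_lit 1) (nat_lit 0x180018570701))) 
(.lf (nat_lit 4362551613) (dlOf (nat_lit 1) (nat_lit 0x20028090581))))) (.nd (nat_lit 29) 
(.nd (nat_lit 32) (.lf (nat_lit 201539645) (dlOf (nat_lit 1) (nat_lit 0x20028020701))) 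
(.lf (nat_lit 4496506941) (dlOf (nat_lit 4) (nat_lit 0x4038000a01a0023b02000800e0003006c00200340047506000201c000a00d0011d01000600080060002001200080a1683)))) 
(.nd (nat_lit 7) (.lf (nat_lit 2886156349) (dlOf (nat_lit 1) (nat_lit 0x1c00400060008170d02))) 
(.lf (nat_lit 1006846141) (dlOf (nat_lit 1) (nat_lit 0x20008000c002000600080c0383))))))) 
(.nd (nat_lit 27) (.nd (nat_lit 29) (.nd (nat_lit 8) (.nd (nat_lit 18) (.nd (nat_lit 20) 
(.lf (nat_lit 1073954877) (dlOf (nat_lit 2) (nat_lit 0x200b0004ec080138008001000200040008030d03))) 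
(.lf (nat_lit 3490922557) (dlOf (nat_lit 5) (nat_lit 0x2707ac01203a4001430400301eb00130e90003641003707ac01a03a4000cd04009e1eb00490e9000330100050008000400200060008030d03)))) 
(.lf (nat_lit 1344749629) (dlOf (nat_lit 1) (nat_lit 0x20028980001)))) (.nd (nat_lit 7) 
(.lf (nat_lit 3493021501) (dlOf (nat_lit 2) (nat_lit 0x2a03d8000d40800100080174002000400080f3e03))) 
(.lf (nat_lit 3491709373) (dlOf (nat_lit 2) (nat_lit 0x206fc0000004001000400100018090882))))) 
(.nd (nat_lit 7) (.nd (nat_lit 8) 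
(.lf (nat_lit 1946370109) (dlOf (nat_lit 2) (nat_lit 0x200b0004ec080138008001000200040008030d03))) 
(.lf (nat_lit 3758315325) (dlOf (nat_lit 1) (nat_lit 0x5800800040020004000812a103)))) 
(.nd (nat_lit 18) 
(.lf (nat_lit 1879261373) (dlOf (nat_lit 3) (nat_lit 0x2605500120290000c8100018154002409c0003104002e00080c0381))) 
(.lf (nat_lit 1678196925) (dlOf (nat_lit 1) (nat_lit 0x58002000200081a0382)))))) (.nd (nat_lit 26) 
(.nd (nat_lit 11) (.nd (nat_lit 7) 
(.lf (nat_lit 3624353853) (dlOf (nat_lit 1) (nat_lit 0x1c00400060008170d02))) 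
(.lf (nat_lit 3893051581) (dlOf (nat_lit 1) (nat_lit 0x400400060018310482)))) (.nd (nat_lit 8) 
(.lf (nat_lit 5503142589) (dlOf (nat_lit 2) (nat_lit 0x3004c0002c040098002000c0008095782))) 
(.lf (nat_lit 1476872637) (dlOf (nat_lit 1) (nat_lit 0x400182d4e81))))) (.nd (nat_lit 31) 
(.nd (nat_lit 28) 
(.lf (nat_lit 1812152381) (dlOf (nat_lit 2) (nat_lit 0xb00000003804000400200120008160702))) 
(.lf (nat_lit 5838684221) (dlOf (nat_lit 1) (nat_lit 0x20018130881)))) (.nd (nat_lit 8) 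
(.lf (nat_lit 4228071485) (dlOf (nat_lit 1) (nat_lit 0x20008020881))) 
(.lf (nat_lit 4228333885) (dlOf (nat_lit 1) (nat_lit 0x20028090581)))))))) (.nd (nat_lit 18) 
(.nd (nat_lit 31) (.nd (nat_lit 21) (.nd (nat_lit 26) (.nd (nat_lit 10) 
(.lf (nat_lit 1879261565) (dlOf (nat_lit 1) (nat_lit 0x200280c0781))) 
(.lf (nat_lit 5637358973) (dlOf (nat_lit 1) (nat_lit 0x4a00180d3581)))) (.nd (nat_lit 8) 
(.lf (nat_lit 1677936765) (dlOf (nat_lit 1) (nat_lit 0x980008114781))) 
(.lf (nat_lit 1006846333) (dlOf (nat_lit 1) (nat_lit 0xe00180c0781))))) (.nd (nat_lit 7) 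
(.nd (nat_lit 9) 
(.lf (nat_lit 23281789) (dlOf (nat_lit 5) (nat_lit 0x5597e001fc020014cbf000fd81002065f8007e80800a09e4003c004000400200020008b80082))) 
(.lf (nat_lit 54217341) (dlOf (nat_lit 4) (nat_lit 0x612d0008081000200f40008c0c000827c000412d000d081000500f40008a10001027c000212d000d081000600f40007010004c00400040019655402)))) 
(.nd (nat_lit 9) (.nd (nat_lit 11) 
(.lf (nat_lit 20140541) (dlOf (nat_lit 2) (nat_lit 0xb29c0094e040004004000e00089d8682))) 
(.lf (nat_lit 472074749) (dlOf (nat_lit 2) (nat_lit 0x142d00002a0200280028804f81)))) 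
(.lf (nat_lit 40059901) (dlOf (nat_lit 1) (nat_lit 0x8004000600091f2882)))))) (.nd (nat_lit 8) 
(.nd (nat_lit 10) (.nd (nat_lit 26) 
(.lf (nat_lit 4026744957) (dlOf (nat_lit 6) (nat_lit 0x9801e00202020026030000a901000a0180004f40801400c0002700400a405c000000200380018090081))) 
(.lf (nat_lit 3288547453) (dlOf (nat_lit 6) (nat_lit 0x9801e001e0020026030000ae01000a0180004f40801400c0002700400a405c000000200380018090081)))) 
(.nd (nat_lit 7) 
(.lf (nat_lit 2684572797) (dlOf (nat_lit 1) (nat_lit 0x200080004002000200080a9503))) 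
(.lf (nat_lit 4095952125) (dlOf (nat_lit 1) (nat_lit 0x4004000200080e2f02))))) (.nd (nat_lit 7) 
(.nd (nat_lit 9) (.nd (nat_lit 10) 
(.lf (nat_lit 3288547709) (dlOf (nat_lit 2) (nat_lit 0x301b005f0c080180008003c002002e0008090783))) 
(.lf (nat_lit 3221446013) (dlOf (nat_lit 1) (nat_lit 0x250008033c002004e000811c903)))) 
(.lf (nat_lit 3892533117) (dlOf (nat_lit 1) (nat_lit 0x7d8008002400200c4000815a303)))) 
(.nd (nat_lit 10) 
(.lf (nat_lit 3556987901) (dlOf (nat_lit 1) (nat_lit 0x30008001800200100008129203))) 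
(.lf (nat_lit 3556986877) (dlOf (nat_lit 1) (nat_lit 0x30008011400200140008127a83))))))) 
(.nd (nat_lit 28) (.nd (nat_lit 10) (.nd (nat_lit 7) (.nd (nat_lit 8) (.nd (nat_lit 9) 
(.lf (nat_lit 1678196861) (dlOf (nat_lit 2) (nat_lit 0x26056001078181a0080))) 
(.lf (nat_lit 46090877) (dlOf (nat_lit 8) (nat_lit 0x1ed26000d68c0012b41000b57f8001ebf6000460a00136930002b460001da1c004ad04001b6210004aff0003d7ec0054000000451000036a1000fb4d0007d9dc0026c4200f83ac000f1be80078950003c440001e050000f02600060000000862c0060758000420200136930005b46000ada08002abf600023ac000512a0000e030006544c004a92e00182420001783000ca4b8000b80807d000800200020ab00009385403)))) 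
(.lf (nat_lit 2755084669) (dlOf (nat_lit 1) (nat_lit 0x20028105a81)))) (.nd (nat_lit 21) 
(.lf (nat_lit 2752463357) (dlOf (nat_lit 4) (nat_lit 0x3403f0000220201881f80000e0100900fc00006c080088008000800200100008017e03))) 
(.lf (nat_lit 19874301) (dlOf (nat_lit 1) (nat_lit 0x40002000200089d1482))))) (.nd (nat_lit 9) 
(.nd (nat_lit 20) (.lf (nat_lit 52905341) (dlOf (nat_lit 1) (nat_lit 0x8008000400200020009573583))) 
(.lf (nat_lit 43468157) (dlOf (nat_lit 1) (nat_lit 0x8004000200092a3582)))) (.nd (nat_lit 8) 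
(.lf (nat_lit 8865405) (dlOf (nat_lit 1) (nat_lit 0x20018513981))) 
(.lf (nat_lit 8345469) (dlOf (nat_lit 1) (nat_lit 0x800800080020002000851a303)))))) 
(.nd (nat_lit 7) (.nd (nat_lit 8) (.nd (nat_lit 19) 
(.lf (nat_lit 805781629) (dlOf (nat_lit 2) (nat_lit 0x26056000fd0181a0080))) 
(.lf (nat_lit 6376341629) (dlOf (nat_lit 2) (nat_lit 0x10812a000000200020018090281)))) 
(.nd (nat_lit 11) (.lf (nat_lit 3493282173) (dlOf (nat_lit 1) (nat_lit 0x20028105a81))) 
(.lf (nat_lit 3490138493) (dlOf (nat_lit 1) (nat_lit 0x400200020008004e82))))) (.nd (nat_lit 8) 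
(.lf (nat_lit 1476872957) (dlOf (nat_lit 1) (nat_lit 0x4004000200082d5a82))) (.nd (nat_lit 27) 
(.lf (nat_lit 4563878909) (dlOf (nat_lit 1) (nat_lit 0xe000400660008122882))) 
(.lf (nat_lit 4698096637) (dlOf (nat_lit 1) (nat_lit 0x400400020008122882))))))))))))

end

end Pool.Agent.Lib.MP_5854e1_co.Cz

namespace Pool.Agent.Lib.MP_5854e1_co.Cz

noncomputable section

noncomputable def tz80 : DT := (.nd (nat_lit 2) (.nd (nat_lit 0) (.nd (nat_lit 5) (.nd (nat_lit 18) 
(.nd (nat_lit 28) (.nd (nat_lit 7) (.nd (nat_lit 20) (.nd (nat_lit 31) (.nd (nat_lit 8) 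
(.nd (nat_lit 19) (.lf (nat_lit 14729216) (dlOf (nat_lit 1) (nat_lit 0x400400020018770002))) 
(.lf (nat_lit 4362649600) (dlOf (nat_lit 1) (nat_lit 0x8c002003800080c0002)))) (.nd (nat_lit 9) 
(.lf (nat_lit 54575360) (dlOf (nat_lit 1) (nat_lit 0x120029650a81))) 
(.lf (nat_lit 201377536) (dlOf (nat_lit 2) (nat_lit 0x20082000470200020018003b81))))) 
(.nd (nat_lit 6) (.nd (nat_lit 8) 
(.lf (nat_lit 2751513600) (dlOf (nat_lit 1) (nat_lit 0x20018002881))) 
(.lf (nat_lit 3288386816) (dlOf (nat_lit 1) (nat_lit 0x70008008800200720008006603)))) 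
(.nd (nat_lit 21) 
(.lf (nat_lit 2756231232) (dlOf (nat_lit 4) (nat_lit 0x88108001380400040840009b0200020420004d018220b80))) 
(.lf (nat_lit 2754134080) (dlOf (nat_lit 1) (nat_lit 0x2a00080c1781)))))) (.nd (nat_lit 6) 
(.nd (nat_lit 19) (.nd (nat_lit 22) 
(.lf (nat_lit 9486336) (dlOf (nat_lit 1) (nat_lit 0x400200020008560002))) 
(.lf (nat_lit 47235072) (dlOf (nat_lit 1) (nat_lit 0x21800800c0002007000093c0003)))) 
(.lf (nat_lit 24690688) (dlOf (nat_lit 1) (nat_lit 0xe0018bb0001)))) (.nd (nat_lit 8) 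
(.nd (nat_lit 19) (.lf (nat_lit 2752561216) (dlOf (nat_lit 1) (nat_lit 0xc00400040008020782))) 
(.lf (nat_lit 2755182656) (dlOf (nat_lit 1) (nat_lit 0x60028120d81)))) 
(.lf (nat_lit 19972928) (dlOf (nat_lit 1) (nat_lit 0x8e00189d2301)))))) (.nd (nat_lit 19) 
(.nd (nat_lit 8) (.nd (nat_lit 6) (.nd (nat_lit 11) 
(.lf (nat_lit 8443008) (dlOf (nat_lit 1) (nat_lit 0x20018519501))) 
(.lf (nat_lit 8445056) (dlOf (nat_lit 1) (nat_lit 0x1a000800280020010000851c183)))) 
(.lf (nat_lit 19972800) (dlOf (nat_lit 1) (nat_lit 0x90002002a00089d1e82)))) (.nd (nat_lit 9) 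
(.nd (nat_lit 11) (.lf (nat_lit 6106957184) (dlOf (nat_lit 1) (nat_lit 0x120018003581))) 
(.lf (nat_lit 4295019904) (dlOf (nat_lit 1) (nat_lit 0x1880028006c01)))) (.nd (nat_lit 11) 
(.lf (nat_lit 6039851904) (dlOf (nat_lit 1) (nat_lit 0x10008003c00200240008009003))) 
(.lf (nat_lit 19975040) (dlOf (nat_lit 1) (nat_lit 0x80080004002000200089d5c03)))))) 
(.nd (nat_lit 29) (.nd (nat_lit 6) 
(.lf (nat_lit 44613760) (dlOf (nat_lit 1) (nat_lit 0x8008000400200020009320303))) (.nd (nat_lit 8) 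
(.lf (nat_lit 14205120) (dlOf (nat_lit 1) (nat_lit 0x800400020008750402))) 
(.lf (nat_lit 50905536) (dlOf (nat_lit 1) (nat_lit 0x8600294d7a81))))) (.nd (nat_lit 6) 
(.lf (nat_lit 3892887680) (dlOf (nat_lit 1) (nat_lit 0x720008280481))) (.nd (nat_lit 26) 
(.lf (nat_lit 1611186368) (dlOf (nat_lit 1) (nat_lit 0x40028105801))) 
(.lf (nat_lit 738771136) (dlOf (nat_lit 1) (nat_lit 0x40028105801)))))))) (.nd (nat_lit 27) 
(.nd (nat_lit 6) (.nd (nat_lit 8) (.nd (nat_lit 7) (.nd (nat_lit 9) 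
(.lf (nat_lit 5100322816) (dlOf (nat_lit 1) (nat_lit 0x20018050001))) 
(.lf (nat_lit 1345896960) (dlOf (nat_lit 1) (nat_lit 0x48008000400200080008e07b03)))) 
(.lf (nat_lit 5100324480) (dlOf (nat_lit 1) (nat_lit 0x3800200040008053982)))) (.nd (nat_lit 19) 
(.lf (nat_lit 3556819200) (dlOf (nat_lit 1) (nat_lit 0x800400020008080a82))) (.nd (nat_lit 21) 
(.lf (nat_lit 1343799552) (dlOf (nat_lit 1) (nat_lit 0x1800018370701))) 
(.lf (nat_lit 1345896704) (dlOf (nat_lit 5) (nat_lit 0x70a9000403dc00281240006806000c152000707b80040248000cc0c00081240006402000c152000607b80040248000000c01bc00400260008e02b02)))))) 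
(.nd (nat_lit 8) (.nd (nat_lit 19) 
(.lf (nat_lit 3490758720) (dlOf (nat_lit 1) (nat_lit 0xc00400040008020782))) (.nd (nat_lit 20) 
(.lf (nat_lit 3494428736) (dlOf (nat_lit 4) (nat_lit 0x88108001380400040840009b0200020420004d018220b80))) 
(.lf (nat_lit 3493380160) (dlOf (nat_lit 1) (nat_lit 0x60028120d81))))) (.nd (nat_lit 9) 
(.lf (nat_lit 1346421056) (dlOf (nat_lit 2) (nat_lit 0x41170000a018f60c00))) 
(.lf (nat_lit 3492857664) (dlOf (nat_lit 3) (nat_lit 0xb40380002e0201a001c000168180f3e00)))))) 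
(.nd (nat_lit 19) (.nd (nat_lit 7) (.nd (nat_lit 6) (.nd (nat_lit 8) 
(.lf (nat_lit 469815808) (dlOf (nat_lit 1) (nat_lit 0x80028008681))) 
(.lf (nat_lit 474005760) (dlOf (nat_lit 2) (nat_lit 0x40050002000800594100028008000c002001e0009000a83)))) 
(.lf (nat_lit 3623929664) (dlOf (nat_lit 10) (nat_lit 0x17005c0014019003d00c0000d81802b00b80034032007c0180001a03000b00e8011007000dc008013e0030001904002600e801d007001580080162003000180401e6018005b00b8019403a010e01800b2002002580000005c1801b0064042403000e0017006e007403f4030021e00f00f0002007c00000005a20006003a0002c02002601d00040020000ac10046007402e4008000290403b80018003e01)))) 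
(.nd (nat_lit 6) (.nd (nat_lit 11) 
(.lf (nat_lit 1008779392) (dlOf (nat_lit 1) (nat_lit 0x120008f73681))) 
(.lf (nat_lit 1476450432) (dlOf (nat_lit 1) (nat_lit 0x40040002001800a882)))) 
(.lf (nat_lit 6376442560) (dlOf (nat_lit 1) (nat_lit 0x8008000400200020008095783))))) 
(.nd (nat_lit 22) (.nd (nat_lit 8) 
(.lf (nat_lit 4228431872) (dlOf (nat_lit 1) (nat_lit 0x8c002003800080c0002))) 
(.lf (nat_lit 3154690304) (dlOf (nat_lit 4) (nat_lit 0x400b0009060400200580047c02001002c0023d818310700)))) 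
(.nd (nat_lit 6) (.lf (nat_lit 474529792) (dlOf (nat_lit 1) (nat_lit 0x800191a0001))) 
(.lf (nat_lit 474529856) (dlOf (nat_lit 2) (nat_lit 0xf04b000481cc00478080050004001200091a0602)))))))) 
(.nd (nat_lit 6) (.nd (nat_lit 28) (.nd (nat_lit 21) (.nd (nat_lit 23) (.nd (nat_lit 29) 
(.nd (nat_lit 7) (.lf (nat_lit 3355754496) (dlOf (nat_lit 1) (nat_lit 0x400280f0001))) 
(.lf (nat_lit 4496608128) (dlOf (nat_lit 1) (nat_lit 0x1200280e5c01)))) (.nd (nat_lit 32) 
(.lf (nat_lit 1745141760) (dlOf (nat_lit 1) (nat_lit 0x4002000200080b0002))) 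
(.lf (nat_lit 6040109056) (dlOf (nat_lit 1) (nat_lit 0x8b0002041e00080f0002))))) (.nd (nat_lit 19) 
(.lf (nat_lit 12894208) (dlOf (nat_lit 2) (nat_lit 0x1d4880000004009c004008400086e0002))) 
(.nd (nat_lit 22) (.lf (nat_lit 59555840) (dlOf (nat_lit 1) (nat_lit 0x8004000e0009810002))) 
(.lf (nat_lit 13418496) (dlOf (nat_lit 1) (nat_lit 0x20028720001)))))) (.nd (nat_lit 7) 
(.nd (nat_lit 19) (.nd (nat_lit 20) 
(.lf (nat_lit 10797056) (dlOf (nat_lit 1) (nat_lit 0x8008000400200020008630003))) 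
(.lf (nat_lit 37011456) (dlOf (nat_lit 1) (nat_lit 0x400200040009080002)))) (.nd (nat_lit 8) 
(.lf (nat_lit 45924352) (dlOf (nat_lit 1) (nat_lit 0xc0029370001))) 
(.lf (nat_lit 54313216) (dlOf (nat_lit 1) (nat_lit 0x400400020009650a82))))) (.nd (nat_lit 8) 
(.lf (nat_lit 23380096) (dlOf (nat_lit 1) (nat_lit 0x800800e800200420008b80083))) (.nd (nat_lit 10) 
(.lf (nat_lit 20237184) (dlOf (nat_lit 1) (nat_lit 0x4002000200089d5c02))) 
(.lf (nat_lit 8181632) (dlOf (nat_lit 1) (nat_lit 0x40020002000851a302))))))) (.nd (nat_lit 26) 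
(.nd (nat_lit 30) (.nd (nat_lit 27) (.nd (nat_lit 29) 
(.lf (nat_lit 4563714048) (dlOf (nat_lit 1) (nat_lit 0x800080040002000200080c0003))) 
(.lf (nat_lit 2953101312) (dlOf (nat_lit 2) (nat_lit 0x1000a001950080148008005000200220008120003)))) 
(.lf (nat_lit 4697931776) (dlOf (nat_lit 1) (nat_lit 0x800080040002000200080c0003)))) 
(.nd (nat_lit 20) (.lf (nat_lit 1342488576) (dlOf (nat_lit 1) (nat_lit 0x20028040001))) 
(.lf (nat_lit 1343537152) (dlOf (nat_lit 1) (nat_lit 0x40008290001))))) (.nd (nat_lit 29) 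
(.nd (nat_lit 8) (.nd (nat_lit 30) 
(.lf (nat_lit 470073344) (dlOf (nat_lit 1) (nat_lit 0x20028040001))) 
(.lf (nat_lit 3691298816) (dlOf (nat_lit 1) (nat_lit 0x20018120001)))) 
(.lf (nat_lit 1543815424) (dlOf (nat_lit 1) (nat_lit 0x2a0028187101)))) (.nd (nat_lit 19) 
(.nd (nat_lit 27) (.lf (nat_lit 872726528) (dlOf (nat_lit 1) (nat_lit 0x4002000200080b0002))) 
(.lf (nat_lit 3154427904) (dlOf (nat_lit 1) (nat_lit 0x8008005400200020008170003)))) 
(.lf (nat_lit 4096573440) (dlOf (nat_lit 1) (nat_lit 0x400400020018130002))))))) (.nd (nat_lit 28) 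
(.nd (nat_lit 20) (.nd (nat_lit 19) (.nd (nat_lit 8) (.nd (nat_lit 26) 
(.lf (nat_lit 1208270912) (dlOf (nat_lit 8) (nat_lit 0x77c029004101300878030000e40c01e005200071020074028000110100400140000840801000a0000400400080500001f020008029003201400006c1003000080038002003a00080b0503))) 
(.lf (nat_lit 5570347072) (dlOf (nat_lit 1) (nat_lit 0x200280f0501)))) 
(.lf (nat_lit 313152) (dlOf (nat_lit 1) (nat_lit 0x3400400a60008003e02)))) (.nd (nat_lit 22) 
(.lf (nat_lit 9224256) (dlOf (nat_lit 2) (nat_lit 0x3e58c000ba04007c004004a0008530502))) 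
(.nd (nat_lit 23) (.lf (nat_lit 21807168) (dlOf (nat_lit 1) (nat_lit 0x8008000400200020008a70783))) 
(.lf (nat_lit 13418560) (dlOf (nat_lit 2) (nat_lit 0xff17800777a00003204000a0028721781)))))) 
(.nd (nat_lit 21) (.nd (nat_lit 7) (.nd (nat_lit 23) 
(.lf (nat_lit 1359936) (dlOf (nat_lit 1) (nat_lit 0xc00280b0781))) 
(.lf (nat_lit 26525760) (dlOf (nat_lit 3) (nat_lit 0x71a2c0092cda00160000001a818006ed2c0008a040044002002a0008c50502)))) 
(.lf (nat_lit 47497408) (dlOf (nat_lit 1) (nat_lit 0x60029400781)))) (.nd (nat_lit 8) 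
(.lf (nat_lit 24428608) (dlOf (nat_lit 1) (nat_lit 0x8008000400200020008ba0c83))) (.nd (nat_lit 19) 
(.lf (nat_lit 20237120) (dlOf (nat_lit 1) (nat_lit 0x4002000200089d5c02))) 
(.lf (nat_lit 20761408) (dlOf (nat_lit 1) (nat_lit 0x4002000200089d5c02))))))) (.nd (nat_lit 26) 
(.nd (nat_lit 31) (.nd (nat_lit 19) 
(.lf (nat_lit 6174326848) (dlOf (nat_lit 1) (nat_lit 0x200280f0501))) 
(.lf (nat_lit 1346158656) (dlOf (nat_lit 2) (nat_lit 0xa058c012029a00aa0d9003006c00091c200168008000400200140008e60603)))) 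
(.nd (nat_lit 8) (.lf (nat_lit 4026843200) (dlOf (nat_lit 2) (nat_lit 0x202d000100180a0d00))) 
(.lf (nat_lit 3087319360) (dlOf (nat_lit 1) (nat_lit 0x60028188601))))) (.nd (nat_lit 27) 
(.nd (nat_lit 19) 
(.lf (nat_lit 5167693888) (dlOf (nat_lit 3) (nat_lit 0xb00a00088010000c0060054006001401400120020001000c00a7e0c008800400240018111682))) 
(.lf (nat_lit 4096573504) (dlOf (nat_lit 1) (nat_lit 0x8008000400200020008131683)))) 
(.nd (nat_lit 22) 
(.lf (nat_lit 2080686144) (dlOf (nat_lit 8) (nat_lit 0x77c029004101300878030000e40c01e005200071020074028000110100400140000840801000a0000400400080500001f020008029003201400006c1003000080038002003a00080b0503))) 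
(.lf (nat_lit 474267712) (dlOf (nat_lit 1) (nat_lit 0x400200020009100502))))))))) (.nd (nat_lit 18) 
(.nd (nat_lit 8) (.nd (nat_lit 19) (.nd (nat_lit 28) (.nd (nat_lit 29) (.nd (nat_lit 6) 
(.lf (nat_lit 10535072) (dlOf (nat_lit 1) (nat_lit 0x2400285f4601))) (.nd (nat_lit 21) 
(.lf (nat_lit 47235168) (dlOf (nat_lit 1) (nat_lit 0x100080008002000400093c0783))) 
(.lf (nat_lit 19972192) (dlOf (nat_lit 1) (nat_lit 0x2000189d0081))))) (.nd (nat_lit 10) 
(.nd (nat_lit 27) 
(.lf (nat_lit 4831887392) (dlOf (nat_lit 1) (nat_lit 0x8008004400200140008050003))) 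
(.lf (nat_lit 671137824) (dlOf (nat_lit 1) (nat_lit 0x2400200a000080b0002)))) 
(.lf (nat_lit 4831890464) (dlOf (nat_lit 1) (nat_lit 0xc00200020008056002))))) (.nd (nat_lit 6) 
(.nd (nat_lit 26) (.nd (nat_lit 27) 
(.lf (nat_lit 6174064672) (dlOf (nat_lit 1) (nat_lit 0x80080028002000a0008050003))) 
(.lf (nat_lit 5234540576) (dlOf (nat_lit 1) (nat_lit 0x6c00200120008050002)))) 
(.lf (nat_lit 5704302624) (dlOf (nat_lit 1) (nat_lit 0x8008003c00200120008050003)))) 
(.nd (nat_lit 9) (.nd (nat_lit 10) 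
(.lf (nat_lit 471908448) (dlOf (nat_lit 2) (nat_lit 0x2047600041d0000e48286b0480))) 
(.lf (nat_lit 1946209376) (dlOf (nat_lit 1) (nat_lit 0xc00400080018006082)))) 
(.lf (nat_lit 6710938208) (dlOf (nat_lit 1) (nat_lit 0x20028005381)))))) (.nd (nat_lit 20) 
(.nd (nat_lit 22) (.nd (nat_lit 6) 
(.lf (nat_lit 3154690080) (dlOf (nat_lit 2) (nat_lit 0x14a02c001f9818310000))) 
(.lf (nat_lit 3154690144) (dlOf (nat_lit 1) (nat_lit 0x5c002003a0008310482)))) (.nd (nat_lit 24) 
(.lf (nat_lit 474529824) (dlOf (nat_lit 4) (nat_lit 0xaa08d001103e8001001000a025800100ea0003e04008009600230398000e01000280080004002000600091a0183))) 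
(.lf (nat_lit 21544992) (dlOf (nat_lit 2) (nat_lit 0x294276013c12a005b086803580000007610013400201460008a40102))))) 
(.nd (nat_lit 28) (.nd (nat_lit 21) (.nd (nat_lit 23) 
(.lf (nat_lit 2753085472) (dlOf (nat_lit 2) (nat_lit 0x507f80000a04001000200040008080682))) 
(.lf (nat_lit 26787872) (dlOf (nat_lit 1) (nat_lit 0x300018c70701)))) 
(.lf (nat_lit 24690720) (dlOf (nat_lit 1) (nat_lit 0x20008001000200080008bb0703)))) 
(.nd (nat_lit 6) (.nd (nat_lit 31) 
(.lf (nat_lit 1343799328) (dlOf (nat_lit 1) (nat_lit 0x1c0008000400200320008370003))) 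
(.lf (nat_lit 3491282976) (dlOf (nat_lit 2) (nat_lit 0x507b00000a04001000200040008080682)))) 
(.lf (nat_lit 1343799392) (dlOf (nat_lit 1) (nat_lit 0x20018370481))))))) (.nd (nat_lit 7) 
(.nd (nat_lit 6) (.nd (nat_lit 26) (.nd (nat_lit 9) (.nd (nat_lit 20) 
(.lf (nat_lit 268485920) (dlOf (nat_lit 1) (nat_lit 0x18008004000200060008053103))) 
(.lf (nat_lit 5772461344) (dlOf (nat_lit 1) (nat_lit 0x400400020008093102)))) 
(.lf (nat_lit 8441632) (dlOf (nat_lit 1) (nat_lit 0x51c004023a0008517482)))) (.nd (nat_lit 10) 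
(.lf (nat_lit 3154690336) (dlOf (nat_lit 2) (nat_lit 0xbc02c0023d818310700))) 
(.lf (nat_lit 6375392544) (dlOf (nat_lit 1) (nat_lit 0x20008002000200060008003103))))) 
(.nd (nat_lit 10) (.nd (nat_lit 20) (.nd (nat_lit 28) 
(.lf (nat_lit 4831889760) (dlOf (nat_lit 1) (nat_lit 0x20018054e81))) 
(.lf (nat_lit 1342228832) (dlOf (nat_lit 2) (nat_lit 0x388f00388a040010004000a0018004e82)))) 
(.lf (nat_lit 19974496) (dlOf (nat_lit 2) (nat_lit 0x5daa006458189d4e80)))) (.nd (nat_lit 9) 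
(.lf (nat_lit 3490237792) (dlOf (nat_lit 1) (nat_lit 0x400200020008006a82))) 
(.lf (nat_lit 2751514464) (dlOf (nat_lit 1) (nat_lit 0x18008000800200020008003f83)))))) 
(.nd (nat_lit 10) (.nd (nat_lit 12) (.nd (nat_lit 6) 
(.lf (nat_lit 5234543520) (dlOf (nat_lit 1) (nat_lit 0x400400020008055c82))) (.nd (nat_lit 26) 
(.lf (nat_lit 4026581984) (dlOf (nat_lit 4) (nat_lit 0xcc06a01d1f02003802b0093281000801a8046cc080180008000c00200860008002883))) 
(.lf (nat_lit 6106956768) (dlOf (nat_lit 1) (nat_lit 0x4004001a0018002882))))) (.nd (nat_lit 9) 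
(.lf (nat_lit 1476450720) (dlOf (nat_lit 1) (nat_lit 0x40020002000800af82))) (.nd (nat_lit 27) 
(.lf (nat_lit 67163040) (dlOf (nat_lit 2) (nat_lit 0x5834c0040e04007000200080008009102))) 
(.lf (nat_lit 6643831712) (dlOf (nat_lit 4) (nat_lit 0x10046000c020000700e8008681800900740040e04002403a002030200200018009101)))))) 
(.nd (nat_lit 26) (.nd (nat_lit 9) 
(.lf (nat_lit 8439200) (dlOf (nat_lit 1) (nat_lit 0x400200020008513602))) (.nd (nat_lit 19) 
(.lf (nat_lit 8439712) (dlOf (nat_lit 1) (nat_lit 0x640028514281))) 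
(.lf (nat_lit 575392) (dlOf (nat_lit 1) (nat_lit 0x8008000400200020008004283))))) (.nd (nat_lit 6) 
(.nd (nat_lit 29) (.lf (nat_lit 5435868576) (dlOf (nat_lit 1) (nat_lit 0x400200020008003602))) 
(.lf (nat_lit 4898997664) (dlOf (nat_lit 1) (nat_lit 0x20008000c00200020008053603)))) 
(.lf (nat_lit 4898997728) (dlOf (nat_lit 1) (nat_lit 0x800802dc00201300008053603)))))))) 
(.nd (nat_lit 30) (.nd (nat_lit 19) (.nd (nat_lit 26) (.nd (nat_lit 7) (.nd (nat_lit 20) 
(.nd (nat_lit 8) (.lf (nat_lit 29671456) (dlOf (nat_lit 1) (nat_lit 0x8008000400200020008e30003))) 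
(.lf (nat_lit 23380256) (dlOf (nat_lit 2) (nat_lit 0x57038000e8080010008000800200040008b80503)))) 
(.nd (nat_lit 21) 
(.lf (nat_lit 9748512) (dlOf (nat_lit 2) (nat_lit 0x128000000760400e4004000c0018580102))) 
(.lf (nat_lit 24428576) (dlOf (nat_lit 1) (nat_lit 0x10008000400200020008ba0a03))))) 
(.nd (nat_lit 6) (.nd (nat_lit 27) 
(.lf (nat_lit 537182368) (dlOf (nat_lit 1) (nat_lit 0x8008000c00200040008044603))) 
(.lf (nat_lit 402964640) (dlOf (nat_lit 1) (nat_lit 0x80080004002000200080c1303)))) 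
(.lf (nat_lit 4697932000) (dlOf (nat_lit 6) (nat_lit 0x4017800100b4001c03e0000e06000a02f00070168004807c0001a0c001405e000e02d000800f8000301800280bc000405a000e01f0000583001400f8000000800180080034002000800080c1a83))))) 
(.nd (nat_lit 29) (.nd (nat_lit 7) 
(.lf (nat_lit 471121952) (dlOf (nat_lit 1) (nat_lit 0x2000200240008270602))) (.nd (nat_lit 8) 
(.lf (nat_lit 335855776) (dlOf (nat_lit 1) (nat_lit 0x80080004002000200080c1303))) 
(.lf (nat_lit 6509871520) (dlOf (nat_lit 1) (nat_lit 0x20028156b81))))) (.nd (nat_lit 6) 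
(.nd (nat_lit 28) (.lf (nat_lit 604291104) (dlOf (nat_lit 1) (nat_lit 0x2000400100018130602))) 
(.lf (nat_lit 872726560) (dlOf (nat_lit 7) (nat_lit 0x3e203901f301a00fa8098048403602e6017010a00b000138300f380e407a406803d4026012500d80b9805c049002c0004d0c0006039000601a00038098004402e00043080002039000101a00010098000840c0a1807205180340288013008c009409dc03604b40170001f06002201c801180d0009804c003801b001b00b8000f0280080008003c002000400080b0183)))) 
(.lf (nat_lit 872726624) (dlOf (nat_lit 2) (nat_lit 0xc036003848180b0780)))))) (.nd (nat_lit 7) 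
(.nd (nat_lit 23) (.nd (nat_lit 21) (.nd (nat_lit 6) (.nd (nat_lit 22) 
(.lf (nat_lit 4362911776) (dlOf (nat_lit 1) (nat_lit 0x4002000200081a0002))) 
(.lf (nat_lit 21807136) (dlOf (nat_lit 1) (nat_lit 0x20028a70481)))) 
(.lf (nat_lit 1884512) (dlOf (nat_lit 1) (nat_lit 0x20028150681)))) (.nd (nat_lit 9) 
(.lf (nat_lit 2754396192) (dlOf (nat_lit 1) (nat_lit 0x7000801d0002005000080e0483))) 
(.lf (nat_lit 19715616) (dlOf (nat_lit 2) (nat_lit 0x3b1e9000480000181c080010002000200089d9c02))))) 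
(.nd (nat_lit 22) (.nd (nat_lit 24) 
(.lf (nat_lit 9224224) (dlOf (nat_lit 3) (nat_lit 0x456894005701e00046040005a2500022818530180))) 
(.lf (nat_lit 59555872) (dlOf (nat_lit 2) (nat_lit 0xa1f40009012000360400020029810681)))) 
(.lf (nat_lit 13418528) (dlOf (nat_lit 1) (nat_lit 0x20018720b01))))) (.nd (nat_lit 6) 
(.nd (nat_lit 8) (.nd (nat_lit 9) 
(.lf (nat_lit 2753347744) (dlOf (nat_lit 1) (nat_lit 0x20018090201))) 
(.lf (nat_lit 19715744) (dlOf (nat_lit 1) (nat_lit 0x10002000400089d9f82)))) 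
(.lf (nat_lit 36489632) (dlOf (nat_lit 1) (nat_lit 0x5000200320009074e82)))) (.nd (nat_lit 8) 
(.lf (nat_lit 471646432) (dlOf (nat_lit 20) (nat_lit 0x3c0bd000150100810b080400274000440802202c2000a14e008804e800084180440584022413a003a08e000100300870b080440274015011c0001f0600ca161007704e802b02380003c0c00142c2002409d0062047000074180068584005813a008808e0000e03005404700006c0802e0584017413a00c808e0000d0300870b0804402740001a08022013a0000c02007609d0000581003a04e8000280804402740001004021813a00007020060161007a04e8000181000382740000a0401d013a000020200060008370581))) 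
(.lf (nat_lit 8177120) (dlOf (nat_lit 1) (nat_lit 0x400200020008513602))))))) (.nd (nat_lit 26) 
(.nd (nat_lit 31) (.nd (nat_lit 20) (.nd (nat_lit 6) (.nd (nat_lit 29) 
(.lf (nat_lit 1208270880) (dlOf (nat_lit 3) (nat_lit 0x4d404a02da008000230200ba0128001140800780080048002002a00080b0183))) 
(.nd (nat_lit 32) 
(.lf (nat_lit 1745141792) (dlOf (nat_lit 7) (nat_lit 0x3e203901f301a00fa8098048403602e6017010a00b000138300f380e407a406803d4026012500d80b9805c049002c0004d0c0006039000601a00038098004402e00043080002039000101a00010098000840c0a1807205180340288013008c009409dc03604b40170001f06002201c801180d0009804c003801b001b00b8000f0280080008003c002000400080b0183))) 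
(.lf (nat_lit 6040109088) (dlOf (nat_lit 3) (nat_lit 0x580880009e04002c0440002a02000200180f0501))))) 
(.lf (nat_lit 1745141856) (dlOf (nat_lit 2) (nat_lit 0xc0360065b0180b0780)))) (.nd (nat_lit 6) 
(.nd (nat_lit 19) 
(.lf (nat_lit 1343537184) (dlOf (nat_lit 2) (nat_lit 0x230470002080800c0008006c00200620008290603))) 
(.lf (nat_lit 5773246496) (dlOf (nat_lit 1) (nat_lit 0x80080004002000200080b0183)))) 
(.lf (nat_lit 1346158688) (dlOf (nat_lit 2) (nat_lit 0x429a000000200040008e60901))))) 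
(.nd (nat_lit 6) (.nd (nat_lit 9) (.nd (nat_lit 19) 
(.lf (nat_lit 4026843168) (dlOf (nat_lit 10) (nat_lit 0xc00d8001c06800040320006018000200a4038c614006006c0010034000a019000480c0001c056000e02900e3106001801b000480d0002c064001003000070148071782800780d8038a004001806c00320340009018006f581800a00d80004068000803200dea83000101b006c6c0800100d8035ac04000406c01ac302000200180a0901))) 
(.lf (nat_lit 3492593696) (dlOf (nat_lit 1) (nat_lit 0x7000801d0002005000080e0483)))) 
(.lf (nat_lit 3491545632) (dlOf (nat_lit 1) (nat_lit 0x400200300008090d82)))) (.nd (nat_lit 7) 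
(.nd (nat_lit 8) 
(.lf (nat_lit 3492069472) (dlOf (nat_lit 2) (nat_lit 0xdc2b40001302000400280a1301))) 
(.lf (nat_lit 3489974624) (dlOf (nat_lit 2) (nat_lit 0x300c000af2818004e80)))) 
(.lf (nat_lit 3493124064) (dlOf (nat_lit 2) (nat_lit 0x903d802bec080040008002c002000e00080fa603)))))) 
(.nd (nat_lit 31) (.nd (nat_lit 8) (.nd (nat_lit 7) (.nd (nat_lit 19) 
(.lf (nat_lit 2080686112) (dlOf (nat_lit 3) (nat_lit 0x4d404a02da008000230200ba0128001140800780080048002002a00080b0183))) 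
(.lf (nat_lit 6377226272) (dlOf (nat_lit 1) (nat_lit 0x80080004002000200080b0183)))) 
(.lf (nat_lit 1409597600) (dlOf (nat_lit 1) (nat_lit 0xe0008044301)))) (.nd (nat_lit 6) 
(.nd (nat_lit 27) 
(.lf (nat_lit 1409597728) (dlOf (nat_lit 1) (nat_lit 0x170008002800200040008047803))) 
(.lf (nat_lit 1543815456) (dlOf (nat_lit 2) (nat_lit 0x800000a5c0200020028187801)))) 
(.lf (nat_lit 1410127840) (dlOf (nat_lit 2) (nat_lit 0xb03b80020198015f6080020004004800180fa602))))) 
(.nd (nat_lit 29) (.nd (nat_lit 19) (.nd (nat_lit 27) 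
(.lf (nat_lit 3288645664) (dlOf (nat_lit 10) (nat_lit 0xc00d8001c06800040320006018000200a40322c14006006c0010034000a019000480c0001c056000e02900c8a86001801b000480d0002c064001003000070148064442800780d8031d604001806c003203400090180061c01800a00d80004068000803200c3783000101b005ec00800100d802ee204000406c0175f02000200180a0901))) 
(.lf (nat_lit 3422863392) (dlOf (nat_lit 1) (nat_lit 0x2a0008130481)))) 
(.lf (nat_lit 3557605408) (dlOf (nat_lit 2) (nat_lit 0x3c00c0008c0200140008270601)))) 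
(.nd (nat_lit 6) (.nd (nat_lit 7) 
(.lf (nat_lit 3825516832) (dlOf (nat_lit 1) (nat_lit 0x3800400060018187802))) 
(.lf (nat_lit 3825516704) (dlOf (nat_lit 1) (nat_lit 0x8008000400200020008184303)))) 
(.lf (nat_lit 3959734752) (dlOf (nat_lit 1) (nat_lit 0x800200020008127d02)))))))))) 
(.nd (nat_lit 18) (.nd (nat_lit 6) (.nd (nat_lit 28) (.nd (nat_lit 5) (.nd (nat_lit 20) 
(.nd (nat_lit 26) (.nd (nat_lit 21) (.nd (nat_lit 8) 
(.lf (nat_lit 4831890433) (dlOf (nat_lit 1) (nat_lit 0x8008000800200020008055f03))) 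
(.lf (nat_lit 6039851777) (dlOf (nat_lit 1) (nat_lit 0x400200060008008f82)))) (.nd (nat_lit 7) 
(.lf (nat_lit 14729217) (dlOf (nat_lit 1) (nat_lit 0x8008000400200020008770003))) 
(.lf (nat_lit 23642241) (dlOf (nat_lit 1) (nat_lit 0x400200020008b80102))))) (.nd (nat_lit 7) 
(.nd (nat_lit 8) (.lf (nat_lit 2751513601) (dlOf (nat_lit 1) (nat_lit 0x20018002881))) 
(.lf (nat_lit 4496344321) (dlOf (nat_lit 1) (nat_lit 0x1000400040018052f02)))) (.nd (nat_lit 8) 
(.lf (nat_lit 1811988609) (dlOf (nat_lit 1) (nat_lit 0x158004007600080b0102))) 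
(.lf (nat_lit 69257601) (dlOf (nat_lit 2) (nat_lit 0x1c043802c3c080278008000400200100008904e83)))))) 
(.nd (nat_lit 9) (.nd (nat_lit 19) (.nd (nat_lit 22) 
(.lf (nat_lit 26263553) (dlOf (nat_lit 1) (nat_lit 0xdc0018c20001))) 
(.lf (nat_lit 22069249) (dlOf (nat_lit 1) (nat_lit 0x3000800c000200720008a90003)))) 
(.nd (nat_lit 7) 
(.lf (nat_lit 10010625) (dlOf (nat_lit 7) (nat_lit 0x87300376404001439801bb10200081d600030e500008714000c2f000e8508000c1ca000e0e2800085e001d080c000c3ac000c1ca000c0e2800605e001d061000043ac00041ca000c0e2800605e001d0010031c002003600085a0002))) 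
(.lf (nat_lit 62441857) (dlOf (nat_lit 1) (nat_lit 0x400299a4e81))))) (.nd (nat_lit 7) 
(.nd (nat_lit 11) 
(.lf (nat_lit 58245633) (dlOf (nat_lit 2) (nat_lit 0x2952d800c2964001b20802e400401a600197c7b02))) 
(.lf (nat_lit 33081857) (dlOf (nat_lit 2) (nat_lit 0x41398000ae04000c00400020018f54f82)))) 
(.lf (nat_lit 19972993) (dlOf (nat_lit 1) (nat_lit 0x4004000200089d2582)))))) (.nd (nat_lit 19) 
(.nd (nat_lit 8) (.nd (nat_lit 10) (.nd (nat_lit 20) 
(.lf (nat_lit 14729249) (dlOf (nat_lit 1) (nat_lit 0x1c00200080008770182))) 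
(.lf (nat_lit 68206625) (dlOf (nat_lit 1) (nat_lit 0x100080008002000a0008450603)))) 
(.nd (nat_lit 7) (.lf (nat_lit 4831890465) (dlOf (nat_lit 1) (nat_lit 0x800200020008056002))) 
(.lf (nat_lit 3288390817) (dlOf (nat_lit 1) (nat_lit 0x2000800080020006000800c203))))) 
(.nd (nat_lit 23) (.nd (nat_lit 30) 
(.lf (nat_lit 4496344353) (dlOf (nat_lit 1) (nat_lit 0x400400020008053102))) 
(.lf (nat_lit 5570086177) (dlOf (nat_lit 1) (nat_lit 0x400400020008053102)))) (.nd (nat_lit 7) 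
(.lf (nat_lit 8439073) (dlOf (nat_lit 1) (nat_lit 0x20028513101))) 
(.lf (nat_lit 8442273) (dlOf (nat_lit 1) (nat_lit 0x1000400020008518382)))))) (.nd (nat_lit 21) 
(.nd (nat_lit 27) (.nd (nat_lit 22) 
(.lf (nat_lit 42516513) (dlOf (nat_lit 2) (nat_lit 0x9aef0004b69000258aa001287e000c2ab0000382800380080024002000c0009260183))) 
(.lf (nat_lit 21544993) (dlOf (nat_lit 4) (nat_lit 0x7884ec0398254017a10d000230300be09d805884a8022021a0092000000228400b609d805484a8020021a000380600020028a40181)))) 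
(.nd (nat_lit 26) 
(.lf (nat_lit 134791201) (dlOf (nat_lit 1) (nat_lit 0x600080020002001c00080b0a03))) 
(.lf (nat_lit 201900065) (dlOf (nat_lit 1) (nat_lit 0x600080020002001c00080b0a03))))) 
(.nd (nat_lit 20) (.nd (nat_lit 10) (.nd (nat_lit 22) 
(.lf (nat_lit 19447841) (dlOf (nat_lit 1) (nat_lit 0x200189a0e81))) 
(.lf (nat_lit 48807969) (dlOf (nat_lit 2) (nat_lit 0xd824000720200060029430681)))) 
(.lf (nat_lit 40420385) (dlOf (nat_lit 1) (nat_lit 0xc00191f2881)))) (.nd (nat_lit 7) 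
(.lf (nat_lit 2755182625) (dlOf (nat_lit 2) (nat_lit 0x8067000602080028088003c036000290800200028120981))) 
(.lf (nat_lit 37276065) (dlOf (nat_lit 1) (nat_lit 0x4002004400090d4e82)))))))) (.nd (nat_lit 29) 
(.nd (nat_lit 7) (.nd (nat_lit 5) (.nd (nat_lit 10) (.nd (nat_lit 8) 
(.lf (nat_lit 1345896961) (dlOf (nat_lit 4) (nat_lit 0x5422a0018114000b002001608a80038c0800504540000004015400400180018e07b02))) 
(.lf (nat_lit 474005761) (dlOf (nat_lit 2) (nat_lit 0x82d800160050003000800594180018008001400200040009000a83)))) 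
(.nd (nat_lit 12) (.lf (nat_lit 5704305665) (dlOf (nat_lit 1) (nat_lit 0x400400020008055f02))) 
(.lf (nat_lit 469818369) (dlOf (nat_lit 1) (nat_lit 0x4002800bf01))))) (.nd (nat_lit 19) 
(.lf (nat_lit 470859809) (dlOf (nat_lit 3) (nat_lit 0x42b4000dc02000201e0006b8181c0600))) 
(.nd (nat_lit 20) 
(.lf (nat_lit 474529825) (dlOf (nat_lit 2) (nat_lit 0x6c12c00e4085008b03a804701cc00240340003e0a005c00291a0181))) 
(.lf (nat_lit 3493380129) (dlOf (nat_lit 2) (nat_lit 0x8067000602080028088003c036000290800200028120981)))))) 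
(.nd (nat_lit 8) (.nd (nat_lit 26) 
(.lf (nat_lit 1476450433) (dlOf (nat_lit 1) (nat_lit 0x2002800a881))) 
(.lf (nat_lit 3691042945) (dlOf (nat_lit 2) (nat_lit 0x8050014ac040020004000a000800a882)))) 
(.nd (nat_lit 10) (.nd (nat_lit 5) 
(.lf (nat_lit 5704305537) (dlOf (nat_lit 1) (nat_lit 0x400400020008055c02))) 
(.lf (nat_lit 470335905) (dlOf (nat_lit 1) (nat_lit 0x80080004002000400080c0783)))) 
(.nd (nat_lit 11) (.lf (nat_lit 3691042177) (dlOf (nat_lit 1) (nat_lit 0x100028009901))) 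
(.lf (nat_lit 1409342849) (dlOf (nat_lit 1) (nat_lit 0x38002800c901))))))) (.nd (nat_lit 7) 
(.nd (nat_lit 5) (.nd (nat_lit 10) (.nd (nat_lit 19) 
(.lf (nat_lit 1881194497) (dlOf (nat_lit 1) (nat_lit 0x20008e40001))) 
(.lf (nat_lit 3154690049) (dlOf (nat_lit 5) (nat_lit 0xa80b00082e04003c0580040402000602c001f7810001016000f940800b8008008400200980008310003)))) 
(.nd (nat_lit 27) (.lf (nat_lit 6174067713) (dlOf (nat_lit 1) (nat_lit 0x400400020008055f02))) 
(.lf (nat_lit 5234543617) (dlOf (nat_lit 1) (nat_lit 0x400400020008055f02))))) (.nd (nat_lit 8) 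
(.nd (nat_lit 9) (.lf (nat_lit 1881719841) (dlOf (nat_lit 1) (nat_lit 0x1c0028fe2881))) 
(.lf (nat_lit 6308283937) (dlOf (nat_lit 1) (nat_lit 0x380018053701)))) 
(.lf (nat_lit 5100324129) (dlOf (nat_lit 1) (nat_lit 0x400400020008053102))))) (.nd (nat_lit 8) 
(.nd (nat_lit 9) (.nd (nat_lit 10) 
(.lf (nat_lit 939573377) (dlOf (nat_lit 1) (nat_lit 0x158004007600080b0102))) 
(.lf (nat_lit 4160803969) (dlOf (nat_lit 1) (nat_lit 0x100018009501)))) 
(.lf (nat_lit 5234543233) (dlOf (nat_lit 1) (nat_lit 0x20018055481)))) (.nd (nat_lit 10) 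
(.nd (nat_lit 11) (.lf (nat_lit 5100323201) (dlOf (nat_lit 1) (nat_lit 0x20018051001))) 
(.lf (nat_lit 5234542977) (dlOf (nat_lit 1) (nat_lit 0x100028054e81)))) 
(.lf (nat_lit 4095788417) (dlOf (nat_lit 1) (nat_lit 0x1e00180e3581)))))))) (.nd (nat_lit 7) 
(.nd (nat_lit 28) (.nd (nat_lit 26) (.nd (nat_lit 19) (.nd (nat_lit 27) (.nd (nat_lit 8) 
(.lf (nat_lit 8437825) (dlOf (nat_lit 1) (nat_lit 0x18008001400200020008510003))) 
(.lf (nat_lit 2146625) (dlOf (nat_lit 1) (nat_lit 0x400400020008150602)))) (.nd (nat_lit 5) 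
(.lf (nat_lit 134270273) (dlOf (nat_lit 1) (nat_lit 0x20008006901))) 
(.lf (nat_lit 6039851873) (dlOf (nat_lit 1) (nat_lit 0x4004000c0008008f82))))) (.nd (nat_lit 9) 
(.nd (nat_lit 20) 
(.lf (nat_lit 21545025) (dlOf (nat_lit 2) (nat_lit 0x904a8000fc04004800400960008a40482))) 
(.lf (nat_lit 3719233) (dlOf (nat_lit 1) (nat_lit 0x100008220c81)))) (.nd (nat_lit 5) 
(.lf (nat_lit 20496961) (dlOf (nat_lit 1) (nat_lit 0x4002000200089d1582))) 
(.lf (nat_lit 60344929) (dlOf (nat_lit 1) (nat_lit 0x3400400060009845382)))))) (.nd (nat_lit 27) 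
(.nd (nat_lit 31) (.nd (nat_lit 9) 
(.lf (nat_lit 4898996289) (dlOf (nat_lit 1) (nat_lit 0x400400020008050002))) 
(.lf (nat_lit 4898997825) (dlOf (nat_lit 1) (nat_lit 0x800805fc00203280008053803)))) 
(.nd (nat_lit 8) 
(.lf (nat_lit 2755182657) (dlOf (nat_lit 2) (nat_lit 0x150340003018c003c0840020023000800f000058280220008004c00200020008120e03))) 
(.lf (nat_lit 2755707201) (dlOf (nat_lit 1) (nat_lit 0x20004001400081b0602))))) (.nd (nat_lit 9) 
(.nd (nat_lit 30) (.lf (nat_lit 4496343105) (dlOf (nat_lit 1) (nat_lit 0x400400020008050002))) 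
(.lf (nat_lit 5570084929) (dlOf (nat_lit 1) (nat_lit 0x400400020008050002)))) 
(.lf (nat_lit 5570086465) (dlOf (nat_lit 1) (nat_lit 0x400400020008053802)))))) (.nd (nat_lit 27) 
(.nd (nat_lit 20) (.nd (nat_lit 10) (.nd (nat_lit 21) 
(.lf (nat_lit 5100322881) (dlOf (nat_lit 1) (nat_lit 0x400400020008050002))) 
(.lf (nat_lit 1881194561) (dlOf (nat_lit 2) (nat_lit 0xb0718005440800100080010002000a0008e40603)))) 
(.nd (nat_lit 8) 
(.lf (nat_lit 5100324417) (dlOf (nat_lit 1) (nat_lit 0x8008000800200020008053803))) 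
(.lf (nat_lit 3489717569) (dlOf (nat_lit 4) (nat_lit 0x121f400090f9801a081000587c8009d20400183e4004d8020012002800c901))))) 
(.nd (nat_lit 19) (.lf (nat_lit 1880145985) (dlOf (nat_lit 1) (nat_lit 0x400200020008760e02))) 
(.nd (nat_lit 21) (.lf (nat_lit 1343799361) (dlOf (nat_lit 1) (nat_lit 0x20028370001))) 
(.lf (nat_lit 3493380161) (dlOf (nat_lit 2) (nat_lit 0x150340003018c003c0840020023000800f00005c280220008004c00200020008120e03)))))) 
(.nd (nat_lit 9) (.nd (nat_lit 5) (.nd (nat_lit 19) 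
(.lf (nat_lit 6308282433) (dlOf (nat_lit 1) (nat_lit 0x400400020008050002))) 
(.lf (nat_lit 474529857) (dlOf (nat_lit 5) (nat_lit 0x7f812c040a084020903a010281cc0047810016812c00ac0730011982005804b002b01cc004620800b812c0002084002f0398008bc1800f00080024002000a00091a0603)))) 
(.lf (nat_lit 472957025) (dlOf (nat_lit 1) (nat_lit 0x60008b61981)))) (.nd (nat_lit 10) 
(.nd (nat_lit 5) 
(.lf (nat_lit 472435265) (dlOf (nat_lit 2) (nat_lit 0x80468000b4080030008000c00200080008985203))) 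
(.lf (nat_lit 5234543201) (dlOf (nat_lit 1) (nat_lit 0x20018055381)))) (.nd (nat_lit 8) 
(.lf (nat_lit 6308283969) (dlOf (nat_lit 1) (nat_lit 0x400400020008053802))) 
(.lf (nat_lit 1476450113) (dlOf (nat_lit 2) (nat_lit 0x203c0003401800a100)))))))) (.nd (nat_lit 8) 
(.nd (nat_lit 19) (.nd (nat_lit 26) (.nd (nat_lit 5) (.nd (nat_lit 10) 
(.lf (nat_lit 939573441) (dlOf (nat_lit 1) (nat_lit 0x200180b0401))) 
(.lf (nat_lit 51430593) (dlOf (nat_lit 1) (nat_lit 0x8008000400200020009512d03)))) 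
(.lf (nat_lit 8442593) (dlOf (nat_lit 1) (nat_lit 0x400200020008518c82)))) (.nd (nat_lit 5) 
(.nd (nat_lit 27) 
(.lf (nat_lit 4898996417) (dlOf (nat_lit 1) (nat_lit 0xf800801ac00200800008050783))) 
(.lf (nat_lit 1811988673) (dlOf (nat_lit 1) (nat_lit 0x200180b0401)))) 
(.lf (nat_lit 3288386785) (dlOf (nat_lit 2) (nat_lit 0xc01b0000c4080020008016000200260008006503))))) 
(.nd (nat_lit 5) (.nd (nat_lit 10) (.nd (nat_lit 26) 
(.lf (nat_lit 1611186369) (dlOf (nat_lit 1) (nat_lit 0x300028105801))) 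
(.lf (nat_lit 738771137) (dlOf (nat_lit 1) (nat_lit 0x300028105801)))) 
(.lf (nat_lit 33080513) (dlOf (nat_lit 1) (nat_lit 0x8008001c002000a0008f52d03)))) 
(.nd (nat_lit 20) (.lf (nat_lit 17350881) (dlOf (nat_lit 1) (nat_lit 0x4004000200088e0582))) 
(.lf (nat_lit 28885217) (dlOf (nat_lit 1) (nat_lit 0x400200020008da0582)))))) (.nd (nat_lit 5) 
(.nd (nat_lit 11) (.nd (nat_lit 9) 
(.lf (nat_lit 58245569) (dlOf (nat_lit 1) (nat_lit 0xe00097c7001))) 
(.lf (nat_lit 4026582977) (dlOf (nat_lit 1) (nat_lit 0x140018004401)))) (.nd (nat_lit 20) 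
(.nd (nat_lit 27) (.lf (nat_lit 5704305601) (dlOf (nat_lit 1) (nat_lit 0x400400020008055d82))) 
(.lf (nat_lit 1275120577) (dlOf (nat_lit 1) (nat_lit 0x1c00200040008005d82)))) 
(.lf (nat_lit 4094741441) (dlOf (nat_lit 1) (nat_lit 0x74004000e0008055d82))))) (.nd (nat_lit 12) 
(.nd (nat_lit 9) (.lf (nat_lit 3489713633) (dlOf (nat_lit 1) (nat_lit 0x180028006e01))) 
(.nd (nat_lit 19) (.lf (nat_lit 2348860385) (dlOf (nat_lit 1) (nat_lit 0x40028002881))) 
(.lf (nat_lit 68731873) (dlOf (nat_lit 1) (nat_lit 0x160018722881))))) (.nd (nat_lit 26) 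
(.lf (nat_lit 536926177) (dlOf (nat_lit 2) (nat_lit 0x480a40055f020002002800a601))) 
(.nd (nat_lit 27) 
(.lf (nat_lit 4362131425) (dlOf (nat_lit 6) (nat_lit 0x301980158408073016c01d00b4014005200910230040011400a806600e0016002af87002902a0015014c006008e0496033002a90400b7019800f400807280cc000000400200040034001800a602))) 
(.lf (nat_lit 469817313) (dlOf (nat_lit 3) (nat_lit 0x82320005118802bec1000208c8001046200081ee00010e9000106f000aa41400480020004000800a602)))))))))) 
(.nd (nat_lit 5) (.nd (nat_lit 6) (.nd (nat_lit 26) (.nd (nat_lit 21) (.nd (nat_lit 29) 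
(.nd (nat_lit 8) (.nd (nat_lit 22) 
(.lf (nat_lit 2282012673) (dlOf (nat_lit 2) (nat_lit 0x700880612c080010008000c002000a0008100003))) 
(.lf (nat_lit 12894209) (dlOf (nat_lit 5) (nat_lit 0x6a4a00075140003a4c006eac18001d494000ea3c000b5140005a4c006ea820002d4940016a3c000f5140007a4c006ea020002d4940016a3c000f5140007a4c006e982000d00080008002000a00086e0003)))) 
(.lf (nat_lit 17613057) (dlOf (nat_lit 1) (nat_lit 0x3800188e0701)))) (.nd (nat_lit 28) 
(.lf (nat_lit 2684665857) (dlOf (nat_lit 1) (nat_lit 0x400200020008130002))) (.nd (nat_lit 30) 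
(.lf (nat_lit 2953101313) (dlOf (nat_lit 2) (nat_lit 0xc028006280200020008120001))) 
(.lf (nat_lit 1879359489) (dlOf (nat_lit 1) (nat_lit 0x200280f0001)))))) (.nd (nat_lit 7) 
(.nd (nat_lit 8) (.nd (nat_lit 23) 
(.lf (nat_lit 37011457) (dlOf (nat_lit 1) (nat_lit 0xc00200060009080002))) 
(.lf (nat_lit 62177281) (dlOf (nat_lit 1) (nat_lit 0x40029970001)))) 
(.lf (nat_lit 20240641) (dlOf (nat_lit 1) (nat_lit 0x80080004002000200089da983)))) (.nd (nat_lit 9) 
(.nd (nat_lit 23) (.lf (nat_lit 3457153) (dlOf (nat_lit 1) (nat_lit 0x400200020008200102))) 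
(.lf (nat_lit 11845761) (dlOf (nat_lit 1) (nat_lit 0x8002000200086c0102)))) 
(.lf (nat_lit 19715713) (dlOf (nat_lit 2) (nat_lit 0x16adc0003d8189d9d80)))))) (.nd (nat_lit 27) 
(.nd (nat_lit 28) (.nd (nat_lit 31) 
(.lf (nat_lit 4362387457) (dlOf (nat_lit 1) (nat_lit 0x100018050001))) 
(.lf (nat_lit 2214903809) (dlOf (nat_lit 1) (nat_lit 0x20008110001)))) (.nd (nat_lit 19) 
(.lf (nat_lit 5167693825) (dlOf (nat_lit 1) (nat_lit 0x400400040018110002))) 
(.lf (nat_lit 4096573441) (dlOf (nat_lit 1) (nat_lit 0x680080004002000c0008130003))))) 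
(.nd (nat_lit 30) (.nd (nat_lit 29) 
(.lf (nat_lit 2617556993) (dlOf (nat_lit 3) (nat_lit 0x1602b00b4a010004016000d440801680080084002002c00080f0003))) 
(.lf (nat_lit 1006944257) (dlOf (nat_lit 1) (nat_lit 0x200280f0001)))) (.nd (nat_lit 9) 
(.lf (nat_lit 4228169729) (dlOf (nat_lit 1) (nat_lit 0x100018050001))) 
(.lf (nat_lit 3959734785) (dlOf (nat_lit 1) (nat_lit 0x60028127f01))))))) (.nd (nat_lit 8) 
(.nd (nat_lit 21) (.nd (nat_lit 19) (.nd (nat_lit 26) (.nd (nat_lit 27) 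
(.lf (nat_lit 4026843201) (dlOf (nat_lit 8) (nat_lit 0x25a02e011c0168000801003380b802c805a0001304000202e0000781003c0170000300806600b8035005a0000b04011002e00005010005017000024080b2000801dc002002000080a0d03))) 
(.lf (nat_lit 1208270913) (dlOf (nat_lit 2) (nat_lit 0x6a028000108180b0500)))) 
(.lf (nat_lit 2080686145) (dlOf (nat_lit 2) (nat_lit 0x6a028000108180b0500)))) (.nd (nat_lit 26) 
(.lf (nat_lit 1343012929) (dlOf (nat_lit 4) (nat_lit 0xf0924004c3e0003a1c700010de80025820007892400483e0001e1c700090e3000706f40010a14003c49200221f0000f0e38002101803c8008007c00200540008130b83))) 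
(.lf (nat_lit 470597697) (dlOf (nat_lit 4) (nat_lit 0xf0924004c3e0003a1c700010de80025820007892400483e0001e1c700090e3000706f40010a14003c49200221f0000f0e38002101803c8008007c00200540008130b83))))) 
(.nd (nat_lit 11) (.nd (nat_lit 19) (.nd (nat_lit 26) 
(.lf (nat_lit 3492069441) (dlOf (nat_lit 1) (nat_lit 0x8004000800080a0d82))) 
(.lf (nat_lit 2753871937) (dlOf (nat_lit 2) (nat_lit 0x641980056009000100280a0d00)))) 
(.lf (nat_lit 1346158657) (dlOf (nat_lit 3) (nat_lit 0x3d0a680091c08034053001241ae001540400040028e60601)))) 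
(.nd (nat_lit 9) (.lf (nat_lit 3493124161) (dlOf (nat_lit 1) (nat_lit 0x10002000400080fa682))) 
(.nd (nat_lit 20) (.lf (nat_lit 1344588353) (dlOf (nat_lit 1) (nat_lit 0x60008865201))) 
(.lf (nat_lit 53791297) (dlOf (nat_lit 1) (nat_lit 0x18002002000095f5202))))))) (.nd (nat_lit 26) 
(.nd (nat_lit 7) (.nd (nat_lit 19) (.nd (nat_lit 30) 
(.lf (nat_lit 6442762561) (dlOf (nat_lit 3) (nat_lit 0x80640005202001002f000230181b0600))) 
(.lf (nat_lit 3221537089) (dlOf (nat_lit 1) (nat_lit 0x3000200300008124c02)))) 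
(.lf (nat_lit 1884481) (dlOf (nat_lit 1) (nat_lit 0xc0018150601)))) (.nd (nat_lit 9) 
(.lf (nat_lit 36489665) (dlOf (nat_lit 1) (nat_lit 0x8002006e0009074e82))) 
(.lf (nat_lit 5771676609) (dlOf (nat_lit 1) (nat_lit 0x80018005d81))))) (.nd (nat_lit 19) 
(.nd (nat_lit 7) (.nd (nat_lit 28) 
(.lf (nat_lit 3959734593) (dlOf (nat_lit 1) (nat_lit 0x3000200300008124c02))) 
(.lf (nat_lit 5838782785) (dlOf (nat_lit 3) (nat_lit 0x80640004b02001002f0001f8181b0600)))) 
(.lf (nat_lit 2751776705) (dlOf (nat_lit 1) (nat_lit 0x400200020008004402)))) (.nd (nat_lit 27) 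
(.lf (nat_lit 4362912065) (dlOf (nat_lit 1) (nat_lit 0x200281a0601))) 
(.lf (nat_lit 4228694337) (dlOf (nat_lit 1) (nat_lit 0x200281a0601)))))))) (.nd (nat_lit 30) 
(.nd (nat_lit 19) (.nd (nat_lit 29) (.nd (nat_lit 6) (.nd (nat_lit 31) (.nd (nat_lit 20) 
(.lf (nat_lit 4362387489) (dlOf (nat_lit 1) (nat_lit 0x800200080008050502))) 
(.lf (nat_lit 26525729) (dlOf (nat_lit 4) (nat_lit 0x66ca70001101006e00000002c0801080000000004022800200b40008c50182)))) 
(.nd (nat_lit 27) (.lf (nat_lit 6442762273) (dlOf (nat_lit 1) (nat_lit 0x200281b0001))) 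
(.lf (nat_lit 2282012705) (dlOf (nat_lit 4) (nat_lit 0x12c0220005e0200220110002e81004c00880016c08011800800f8002004a0008100503))))) 
(.nd (nat_lit 7) (.lf (nat_lit 314721) (dlOf (nat_lit 1) (nat_lit 0x28008000400200020008006a83))) 
(.lf (nat_lit 20241121) (dlOf (nat_lit 1) (nat_lit 0x28008000c002000400089db983))))) 
(.nd (nat_lit 7) (.nd (nat_lit 6) (.nd (nat_lit 26) 
(.lf (nat_lit 805617697) (dlOf (nat_lit 1) (nat_lit 0x2c00400080008140c02))) 
(.lf (nat_lit 872726561) (dlOf (nat_lit 12) (nat_lit 0x2c039001501a000c009800100360024017000400b0001383000a80e40054068002e026000100d8009005c001002c0004d0c00300260002201001e01c800e80d0008804c0040017000400b00010c2801000e4007c0680044026000400d8009005c001002c000420c0014039000901a000600980008036000a0170001f05000701c800380d0002404c00120170001e04000c01c800500d000140360003b0600060340001c01000d01c800680d0003004c000c01b0001b84001501a0000cc0801a80080010002000600080b0183)))) 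
(.lf (nat_lit 2755969121) (dlOf (nat_lit 1) (nat_lit 0x4002000200081c1382)))) (.nd (nat_lit 27) 
(.lf (nat_lit 537182369) (dlOf (nat_lit 1) (nat_lit 0xe0008044601))) 
(.lf (nat_lit 3087319201) (dlOf (nat_lit 1) (nat_lit 0x8008000400200020008184603)))))) 
(.nd (nat_lit 20) (.nd (nat_lit 23) (.nd (nat_lit 22) (.nd (nat_lit 7) 
(.lf (nat_lit 470597665) (dlOf (nat_lit 1) (nat_lit 0x8008000400200020008130883))) 
(.lf (nat_lit 4362911905) (dlOf (nat_lit 1) (nat_lit 0x1c00281a0201)))) (.nd (nat_lit 24) 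
(.lf (nat_lit 5029921) (dlOf (nat_lit 1) (nat_lit 0x24002007200082f0702))) 
(.lf (nat_lit 21807137) (dlOf (nat_lit 1) (nat_lit 0x20028a70481))))) (.nd (nat_lit 21) 
(.nd (nat_lit 24) 
(.lf (nat_lit 42778657) (dlOf (nat_lit 2) (nat_lit 0x10f5700085dba005aea300197070000382000380080020002000e0009280183))) 
(.lf (nat_lit 59555873) (dlOf (nat_lit 2) (nat_lit 0x543e800e20240164e80000360600060009810681)))) 
(.lf (nat_lit 28098593) (dlOf (nat_lit 2) (nat_lit 0x3d577800228080018008000800200020008d50603))))) 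
(.nd (nat_lit 7) (.nd (nat_lit 9) (.nd (nat_lit 21) 
(.lf (nat_lit 27050017) (dlOf (nat_lit 1) (nat_lit 0x20028ca0601))) 
(.lf (nat_lit 2755444769) (dlOf (nat_lit 1) (nat_lit 0x400200020008190682)))) (.nd (nat_lit 10) 
(.lf (nat_lit 2753348129) (dlOf (nat_lit 1) (nat_lit 0x1000200040008090d82))) 
(.lf (nat_lit 8177185) (dlOf (nat_lit 1) (nat_lit 0x20018513701))))) (.nd (nat_lit 6) 
(.nd (nat_lit 8) (.lf (nat_lit 8180385) (dlOf (nat_lit 1) (nat_lit 0x400200020008518c82))) 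
(.lf (nat_lit 8177057) (dlOf (nat_lit 1) (nat_lit 0x400200020008513602)))) 
(.lf (nat_lit 471646433) (dlOf (nat_lit 30) (nat_lit 0x480bd0001501002804e80009808084058401bc29c024c09d000110301350b08065053804d013a012e08e0001084011e0b0803e8538047413a01d408e0001004011a0b0803b8538046c13a01ac08e0000f8401170b0803c8538046013a01ba08e0000f0401110b0804b8538044c13a01b008e0000e8400fc0b080018538045413a018008e0000e0400fe0b080008538044c13a017a08e0000d84011b0b080350538047413a01ae08e0000d0400360a7007b82740002808045c2c200f414e011904e8000481808a82740002204045413a0001002017816100550a7007382740001a0c04502c2022809d0000602011304e80002c0808a0584045013a0000a0401d809d000048100e904e800020080030584045413a0000704022a16100010a7008b02740000c0c04802c200b214e013304e800014180760274000080400202c2022409d000018201160b0808a8274000040803502c201d409d000008200c80b080198538033013a012a08e00000048370580))))))) 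
(.nd (nat_lit 26) (.nd (nat_lit 28) (.nd (nat_lit 27) (.nd (nat_lit 7) 
(.lf (nat_lit 3221537313) (dlOf (nat_lit 1) (nat_lit 0xc002001c0008127f02))) 
(.lf (nat_lit 1074053537) (dlOf (nat_lit 1) (nat_lit 0x400400020008090782)))) (.nd (nat_lit 6) 
(.nd (nat_lit 29) (.nd (nat_lit 31) 
(.lf (nat_lit 1208270881) (dlOf (nat_lit 2) (nat_lit 0x3a02500380040001181000780080034002002a00080b0183))) 
(.lf (nat_lit 3355754529) (dlOf (nat_lit 3) (nat_lit 0xc0320000b010005018800050080098008000c002000800080f0603)))) 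
(.lf (nat_lit 1745141793) (dlOf (nat_lit 12) (nat_lit 0x2c039001501a000c009800100360024017000400b0001383000a80e40054068002e026000100d8009005c001002c0004d0c00300260002201001e01c800e80d0008804c0040017000400b00010c2801000e4007c0680044026000400d8009005c001002c000420c0014039000901a000600980008036000a0170001f05000701c800380d0002404c00120170001e04000c01c800500d000140360003b0600060340001c01000d01c800680d0003004c000c01b0001b84001501a0000cc0801a80080010002000600080b0183)))) 
(.lf (nat_lit 1208270945) (dlOf (nat_lit 1) (nat_lit 0x58004003000080b0782))))) (.nd (nat_lit 19) 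
(.nd (nat_lit 6) (.nd (nat_lit 20) 
(.lf (nat_lit 4026843169) (dlOf (nat_lit 5) (nat_lit 0x5c80d80350068017c03200c6018006500ac031805201c6a0c001203600e3481000a01a000100c0038ce08025006c016a03500b101a004a80c8029006001380290035011006fb0380068008000c002002800080a0903))) 
(.lf (nat_lit 1343537185) (dlOf (nat_lit 1) (nat_lit 0x580080068002001c0008290603)))) 
(.lf (nat_lit 4026843233) (dlOf (nat_lit 1) (nat_lit 0x20002001400080a1282)))) (.nd (nat_lit 20) 
(.lf (nat_lit 1343012897) (dlOf (nat_lit 1) (nat_lit 0x8008000400200020008130883))) 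
(.nd (nat_lit 31) 
(.lf (nat_lit 1346158625) (dlOf (nat_lit 7) (nat_lit 0x601028091059801f02c60246143012709d809404e4049819a00e20cb00fd03a803f01cc014c03e010e01a008200000003868029050c0001a0405f428602fc13b017e0668000301802e050c0001604032428600fc13b008d09c805203340001410054428602a413b014e0668000001800f0008000400200fa0008e60183))) 
(.lf (nat_lit 3493642273) (dlOf (nat_lit 1) (nat_lit 0x400200020008190682))))))) (.nd (nat_lit 27) 
(.nd (nat_lit 28) (.nd (nat_lit 29) 
(.lf (nat_lit 3288645665) (dlOf (nat_lit 5) (nat_lit 0x5c80d80350068017c03200c6018006500ac03180520191d0c001203600c8e01000a01a000100c00323408025006c016a03500b101a004a80c8029006001380290035011006208380068008000c002002800080a0903))) 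
(.lf (nat_lit 1678032929) (dlOf (nat_lit 1) (nat_lit 0x2c00400080008140c02)))) (.nd (nat_lit 8) 
(.lf (nat_lit 3557605409) (dlOf (nat_lit 2) (nat_lit 0x4c00c0008a0200060018270601))) 
(.lf (nat_lit 1409597729) (dlOf (nat_lit 3) (nat_lit 0x30000028f408010817c014560401b4004003a0018047802))))) 
(.nd (nat_lit 31) (.nd (nat_lit 6) (.nd (nat_lit 8) 
(.lf (nat_lit 2080686113) (dlOf (nat_lit 2) (nat_lit 0x3a02500380040001181000780080034002002a00080b0183))) 
(.lf (nat_lit 1543815457) (dlOf (nat_lit 3) (nat_lit 0x120000052f010019000002970080010008006800200020008187803)))) 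
(.lf (nat_lit 2080686177) (dlOf (nat_lit 1) (nat_lit 0x58004003000080b0782)))) (.nd (nat_lit 7) 
(.lf (nat_lit 4228169761) (dlOf (nat_lit 1) (nat_lit 0x800200080008050502))) 
(.lf (nat_lit 4228694177) (dlOf (nat_lit 1) (nat_lit 0x1c00281a0201))))))))))) (.nd (nat_lit 0) 
(.nd (nat_lit 18) (.nd (nat_lit 5) (.nd (nat_lit 26) (.nd (nat_lit 28) (.nd (nat_lit 20) 
(.nd (nat_lit 9) (.nd (nat_lit 6) (.nd (nat_lit 7) 
(.lf (nat_lit 4831890436) (dlOf (nat_lit 1) (nat_lit 0x8008000800200020008055f83))) 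
(.lf (nat_lit 6576717956) (dlOf (nat_lit 2) (nat_lit 0x4601b000208180b0100)))) 
(.lf (nat_lit 42516548) (dlOf (nat_lit 1) (nat_lit 0x60009260601)))) (.nd (nat_lit 6) 
(.nd (nat_lit 8) (.lf (nat_lit 5905632772) (dlOf (nat_lit 1) (nat_lit 0xc00400020008007002))) 
(.lf (nat_lit 6039851780) (dlOf (nat_lit 1) (nat_lit 0x800400020008008f82)))) 
(.lf (nat_lit 8439748) (dlOf (nat_lit 1) (nat_lit 0x20028514401))))) (.nd (nat_lit 6) 
(.nd (nat_lit 9) (.nd (nat_lit 21) 
(.lf (nat_lit 10010628) (dlOf (nat_lit 9) (nat_lit 0x101d300050e50008871401d4a0c00403a600ea402000c1d6001b0e5000b871400602f000e3108001e1d6000c0e500078714002c2f000e3008000a1d6000b0e50009071400342f000e2f08001c1d600090e50008871400402f000e2e08001c000006750100070000033a40800200080038002000800085a0003))) 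
(.lf (nat_lit 16302084) (dlOf (nat_lit 2) (nat_lit 0x937400b090200020028880001)))) 
(.lf (nat_lit 58245636) (dlOf (nat_lit 1) (nat_lit 0x18008002c002001c00097c7b03)))) 
(.nd (nat_lit 7) (.nd (nat_lit 9) 
(.lf (nat_lit 3719236) (dlOf (nat_lit 1) (nat_lit 0xf0008002c002001e0008220d03))) 
(.lf (nat_lit 11584068) (dlOf (nat_lit 1) (nat_lit 0x5c002001800086c1102)))) 
(.lf (nat_lit 19977412) (dlOf (nat_lit 1) (nat_lit 0x8600189d9501)))))) (.nd (nat_lit 29) 
(.nd (nat_lit 10) (.nd (nat_lit 6) (.nd (nat_lit 9) 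
(.lf (nat_lit 1345372164) (dlOf (nat_lit 1) (nat_lit 0x60008b60001))) 
(.lf (nat_lit 1345896964) (dlOf (nat_lit 4) (nat_lit 0xc8454002c228001600400341150007181000e08b80020454000000800cc00400300018e07b02)))) 
(.nd (nat_lit 7) (.lf (nat_lit 3493380164) (dlOf (nat_lit 1) (nat_lit 0x3a0008120e81))) 
(.lf (nat_lit 1345896900) (dlOf (nat_lit 1) (nat_lit 0x18008000400200040008e07003))))) 
(.nd (nat_lit 8) (.nd (nat_lit 6) 
(.lf (nat_lit 268486276) (dlOf (nat_lit 1) (nat_lit 0x38008002400200300008053a03))) 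
(.lf (nat_lit 1346946244) (dlOf (nat_lit 2) (nat_lit 0x211a00012819102d00)))) (.nd (nat_lit 19) 
(.lf (nat_lit 2550193540) (dlOf (nat_lit 1) (nat_lit 0x80040002000800c902))) 
(.lf (nat_lit 3490241924) (dlOf (nat_lit 2) (nat_lit 0x9057000cce04001c0040002000800c902)))))) 
(.nd (nat_lit 11) (.nd (nat_lit 32) (.nd (nat_lit 6) 
(.lf (nat_lit 939573380) (dlOf (nat_lit 3) (nat_lit 0x5e013002e808801740380004a06000a026000201080010410025000800d0002008600080b0103))) 
(.lf (nat_lit 3087057220) (dlOf (nat_lit 3) (nat_lit 0xb80360004f02004801b000268180b0600)))) 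
(.nd (nat_lit 27) (.lf (nat_lit 5100322884) (dlOf (nat_lit 1) (nat_lit 0x400400040018050002))) 
(.lf (nat_lit 6308282436) (dlOf (nat_lit 1) (nat_lit 0x8008000400200020008050003))))) 
(.nd (nat_lit 10) (.nd (nat_lit 7) 
(.lf (nat_lit 4026587140) (dlOf (nat_lit 1) (nat_lit 0x6001800a601))) 
(.lf (nat_lit 5234543236) (dlOf (nat_lit 1) (nat_lit 0x220008055481)))) (.nd (nat_lit 12) 
(.nd (nat_lit 27) (.lf (nat_lit 6174067716) (dlOf (nat_lit 1) (nat_lit 0x400400020008055f82))) 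
(.lf (nat_lit 5234543620) (dlOf (nat_lit 1) (nat_lit 0x20008001000200040008055f83)))) 
(.lf (nat_lit 2952846340) (dlOf (nat_lit 1) (nat_lit 0xc0020002000800bf02)))))))) (.nd (nat_lit 10) 
(.nd (nat_lit 6) (.nd (nat_lit 27) (.nd (nat_lit 7) (.nd (nat_lit 9) 
(.lf (nat_lit 68206596) (dlOf (nat_lit 1) (nat_lit 0x6800400020018450002))) 
(.lf (nat_lit 2755707396) (dlOf (nat_lit 3) (nat_lit 0x1821a000a681000110b8001f00800f00080040002002600081b0d83)))) 
(.lf (nat_lit 5972738180) (dlOf (nat_lit 2) (nat_lit 0x4601b000208180b0100)))) (.nd (nat_lit 8) 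
(.nd (nat_lit 7) (.lf (nat_lit 6376439812) (dlOf (nat_lit 1) (nat_lit 0xa0018090001))) 
(.lf (nat_lit 1811988612) (dlOf (nat_lit 3) (nat_lit 0x5e013002e808801740380004a06000a026000201080010410025000800d0002008600080b0103)))) 
(.nd (nat_lit 19) (.lf (nat_lit 474005764) (dlOf (nat_lit 1) (nat_lit 0xa0029000a81))) 
(.lf (nat_lit 3154690308) (dlOf (nat_lit 4) (nat_lit 0x1c02c002418100090160012080800480b0008fa04000800200240008310702)))))) 
(.nd (nat_lit 8) (.nd (nat_lit 11) (.nd (nat_lit 19) 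
(.lf (nat_lit 5570084932) (dlOf (nat_lit 1) (nat_lit 0x400400020008050002))) (.nd (nat_lit 20) 
(.lf (nat_lit 2754134084) (dlOf (nat_lit 1) (nat_lit 0x1200080c1881))) 
(.lf (nat_lit 2755182660) (dlOf (nat_lit 1) (nat_lit 0x3a0008120e81))))) (.nd (nat_lit 9) 
(.lf (nat_lit 4362131524) (dlOf (nat_lit 5) (nat_lit 0x4054001168100e40198008a40811400cc0043a0408b40660021502003e002800a681))) 
(.lf (nat_lit 472435268) (dlOf (nat_lit 1) (nat_lit 0x400400040008985202))))) (.nd (nat_lit 9) 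
(.nd (nat_lit 22) 
(.lf (nat_lit 3825254724) (dlOf (nat_lit 3) (nat_lit 0xb80360005602004801b0002a0180b0600))) 
(.lf (nat_lit 2755707204) (dlOf (nat_lit 3) (nat_lit 0x1010a8000fc0801288900005404002c002002e00081b0602)))) 
(.nd (nat_lit 12) (.lf (nat_lit 5167434564) (dlOf (nat_lit 1) (nat_lit 0x400200020008055c02))) 
(.lf (nat_lit 4227914564) (dlOf (nat_lit 1) (nat_lit 0x680080020002000e000800bc83))))))) 
(.nd (nat_lit 30) (.nd (nat_lit 6) (.nd (nat_lit 27) (.nd (nat_lit 9) 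
(.lf (nat_lit 2751513604) (dlOf (nat_lit 1) (nat_lit 0x20008002881))) 
(.lf (nat_lit 2214647300) (dlOf (nat_lit 1) (nat_lit 0x2200080070002004c0008009c03)))) 
(.nd (nat_lit 8) (.lf (nat_lit 2885733892) (dlOf (nat_lit 1) (nat_lit 0x20028007001))) 
(.lf (nat_lit 1006683908) (dlOf (nat_lit 1) (nat_lit 0xc002000a0008003b82))))) (.nd (nat_lit 7) 
(.nd (nat_lit 8) (.lf (nat_lit 4898997828) (dlOf (nat_lit 1) (nat_lit 0x400400020008053802))) 
(.lf (nat_lit 2751514436) (dlOf (nat_lit 3) (nat_lit 0x703380009c08027819c0004c04012400400a60018003e02)))) 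
(.lf (nat_lit 68732100) (dlOf (nat_lit 1) (nat_lit 0x60018722d01))))) (.nd (nat_lit 7) 
(.nd (nat_lit 9) (.nd (nat_lit 6) 
(.lf (nat_lit 5704305668) (dlOf (nat_lit 1) (nat_lit 0x400400020008055f82))) 
(.lf (nat_lit 4093691204) (dlOf (nat_lit 2) (nat_lit 0xe80000005004007c00200340008003302)))) 
(.nd (nat_lit 27) 
(.lf (nat_lit 1677774340) (dlOf (nat_lit 1) (nat_lit 0x8008000400200020008007003))) 
(.lf (nat_lit 3959475716) (dlOf (nat_lit 1) (nat_lit 0x800400020008007002))))) (.nd (nat_lit 8) 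
(.lf (nat_lit 6375392900) (dlOf (nat_lit 1) (nat_lit 0x80018003a01))) (.nd (nat_lit 11) 
(.lf (nat_lit 6375392644) (dlOf (nat_lit 1) (nat_lit 0x4004001a0018003582))) 
(.lf (nat_lit 3288391044) (dlOf (nat_lit 6) (nat_lit 0x9005a004e602005a02d00272810031017002080b4009a808008c05c005202d0026982002901b00000008053800802e00020048000800c903))))))))) 
(.nd (nat_lit 6) (.nd (nat_lit 19) (.nd (nat_lit 7) (.nd (nat_lit 24) (.nd (nat_lit 9) 
(.lf (nat_lit 47235108) (dlOf (nat_lit 1) (nat_lit 0x108008006c002000a00093c0203))) 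
(.nd (nat_lit 12) (.lf (nat_lit 268486180) (dlOf (nat_lit 1) (nat_lit 0x1c00400040008053702))) 
(.lf (nat_lit 3355498020) (dlOf (nat_lit 1) (nat_lit 0x8008000400200020008009c03))))) 
(.nd (nat_lit 20) (.nd (nat_lit 23) 
(.lf (nat_lit 52477988) (dlOf (nat_lit 1) (nat_lit 0xc00400020009540702))) 
(.lf (nat_lit 27312164) (dlOf (nat_lit 2) (nat_lit 0x2296c0165204000400400020018cd0682)))) 
(.lf (nat_lit 22069284) (dlOf (nat_lit 1) (nat_lit 0x80028a90501))))) (.nd (nat_lit 11) 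
(.nd (nat_lit 24) (.nd (nat_lit 23) (.nd (nat_lit 26) 
(.lf (nat_lit 1476448932) (dlOf (nat_lit 1) (nat_lit 0x400200020008008c82))) 
(.lf (nat_lit 604033700) (dlOf (nat_lit 1) (nat_lit 0x400200020008008c82)))) 
(.lf (nat_lit 8442532) (dlOf (nat_lit 1) (nat_lit 0x400200020008518c82)))) (.nd (nat_lit 9) 
(.lf (nat_lit 16826532) (dlOf (nat_lit 1) (nat_lit 0x4004000200188e0482))) 
(.lf (nat_lit 19976868) (dlOf (nat_lit 1) (nat_lit 0x4002000200089d8c82))))) (.nd (nat_lit 8) 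
(.nd (nat_lit 20) 
(.lf (nat_lit 2885734052) (dlOf (nat_lit 9) (nat_lit 0x4280b8024403401180180002009800100140234004000340c010a02e009000d0046006002240040003208010602d0069012003480680150030010c014009b0088034802c00f000c010200200530008000c45002880b8020005a00d2024006500d00428050027002200d200b00300030034000801480020002f14003003100670000000b81003280000005804032c06200660000001502001200a000400180004808008800400140018007202))) 
(.lf (nat_lit 2754662052) (dlOf (nat_lit 4) (nat_lit 0x300880005c0400600440002c02000201d000150180f7200)))) 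
(.nd (nat_lit 9) 
(.lf (nat_lit 3489717668) (dlOf (nat_lit 7) (nat_lit 0x87d000043e6000760400021f4000388100010fa0001c00800407d0000c40400043e80006102000e1f4000e08680028000000000c00080040006001800cb02))) 
(.nd (nat_lit 26) (.lf (nat_lit 5234543524) (dlOf (nat_lit 1) (nat_lit 0x400200020008055c82))) 
(.lf (nat_lit 5167434660) (dlOf (nat_lit 1) (nat_lit 0x400200500008055c82)))))))) (.nd (nat_lit 22) 
(.nd (nat_lit 20) (.nd (nat_lit 26) (.nd (nat_lit 27) 
(.lf (nat_lit 3221798948) (dlOf (nat_lit 1) (nat_lit 0x2f400200200008190b82))) 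
(.lf (nat_lit 134791204) (dlOf (nat_lit 1) (nat_lit 0x200180b0b81)))) (.nd (nat_lit 29) 
(.lf (nat_lit 201900068) (dlOf (nat_lit 4) (nat_lit 0xa0460002b0100010150000d40800300d800004040138004003600080b0a82))) 
(.lf (nat_lit 3959996452) (dlOf (nat_lit 16) (nat_lit 0x6301b80100080000c80800b406e000630200e003c0003001001301e0001740804d80ec0005004018c0760002702008a03e00560070000641001200f800d001c00220000000c0300b201f006180380002e0800d807c007a00e0037006000f00000002c10032c07c01a200e006d0000000501800e800000014040010000000050200020000000101005301e0052800000000080118004004a0018190a82))))) 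
(.nd (nat_lit 23) (.nd (nat_lit 26) 
(.lf (nat_lit 3491282980) (dlOf (nat_lit 2) (nat_lit 0x2c82b8000000200020018080901))) 
(.lf (nat_lit 2753085476) (dlOf (nat_lit 2) (nat_lit 0x730a9000000080150008004400200280008080803)))) 
(.lf (nat_lit 10010660) (dlOf (nat_lit 2) (nat_lit 0x1a81a10002b0185a0b80))))) (.nd (nat_lit 21) 
(.nd (nat_lit 31) (.nd (nat_lit 20) 
(.lf (nat_lit 13156388) (dlOf (nat_lit 3) (nat_lit 0x3a1d0002d01000d20c00011c080028008000400200120008700a83))) 
(.lf (nat_lit 5816356) (dlOf (nat_lit 1) (nat_lit 0x4004000200083e0602)))) (.nd (nat_lit 26) 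
(.lf (nat_lit 3494428708) (dlOf (nat_lit 11) (nat_lit 0x24e033812b010403c404401d001b0011a04020c03381038104039c044010601b001190401db03380ec010402d004400a401b0011884024a03381270104040c04401ea01b0011804023f03381210104043004401fe01b0011784016e033802b01040190044001a01b001170402440338123010403f004401aa01b001168402440330025818403840ba01b205c025a01f800600b8004c05a002002700090130080008804a403800da01500450020007b468120019801300c201c205d00d902e0071015c095407e008c03e001b017001180b4003404e00100260115011009e807001580280076002000f58f000701700048098003c608000c004006c0018220902))) 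
(.lf (nat_lit 2756231204) (dlOf (nat_lit 11) (nat_lit 0x24e033812b010403c404401d001b0012604020c03381038104039c044010601b001250401db03380ec010402d004400a401b0012484024a03381270104040c04401ea01b0012404023f03381210104043004401fe01b0012384016e033802b01040190044001a01b001230402440338123010403f004401aa01b001228402440330025818403840ba01b205c025a01f800600b8004c05a002002700090130080008804a403800da01500450020007fc68120019801300c201c205d00d902e0071015c095407e008c03e001b017001180b4003404e00100260115011009e807001580280076002000fe8f000701700048098003ea08000c004006c0018220902))))) 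
(.nd (nat_lit 7) (.nd (nat_lit 20) 
(.lf (nat_lit 32030756) (dlOf (nat_lit 1) (nat_lit 0x18008000800200020008ee0703))) 
(.lf (nat_lit 16302116) (dlOf (nat_lit 1) (nat_lit 0x80008009400200340008880603)))) 
(.lf (nat_lit 40421796) (dlOf (nat_lit 1) (nat_lit 0x200291f4e81))))))) (.nd (nat_lit 7) 
(.nd (nat_lit 19) (.nd (nat_lit 8) (.nd (nat_lit 9) (.nd (nat_lit 23) 
(.lf (nat_lit 1346420836) (dlOf (nat_lit 6) (nat_lit 0x12152000f0a7800603dc000940c00382a4001a14f000d07b800181fc000861000342a4001c14f001107b80010418007845400080000003f04000215200010a78000ec100010008002800200060008f60103))) 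
(.lf (nat_lit 46186596) (dlOf (nat_lit 2) (nat_lit 0x2ea00001d819380100)))) 
(.lf (nat_lit 5234543204) (dlOf (nat_lit 1) (nat_lit 0x40028055381)))) (.nd (nat_lit 12) 
(.lf (nat_lit 2550189412) (dlOf (nat_lit 1) (nat_lit 0x80028006a81))) 
(.lf (nat_lit 3489717604) (dlOf (nat_lit 1) (nat_lit 0x150000800c901))))) (.nd (nat_lit 22) 
(.nd (nat_lit 10) (.nd (nat_lit 26) 
(.lf (nat_lit 1342751076) (dlOf (nat_lit 1) (nat_lit 0x600080c0701))) 
(.lf (nat_lit 470335844) (dlOf (nat_lit 1) (nat_lit 0x600080c0701)))) 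
(.lf (nat_lit 3490237796) (dlOf (nat_lit 1) (nat_lit 0x400200020008006a82)))) (.nd (nat_lit 8) 
(.lf (nat_lit 474529892) (dlOf (nat_lit 1) (nat_lit 0x10002000600091a0982))) (.nd (nat_lit 10) 
(.lf (nat_lit 23642468) (dlOf (nat_lit 1) (nat_lit 0x20008000800200020008b80703))) 
(.lf (nat_lit 49857892) (dlOf (nat_lit 1) (nat_lit 0x1000294c3481))))))) (.nd (nat_lit 27) 
(.nd (nat_lit 8) (.nd (nat_lit 10) (.nd (nat_lit 11) 
(.lf (nat_lit 3825254628) (dlOf (nat_lit 1) (nat_lit 0x1600280b0481))) 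
(.lf (nat_lit 4026583268) (dlOf (nat_lit 1) (nat_lit 0x8008002000200020008004b03)))) 
(.lf (nat_lit 335594724) (dlOf (nat_lit 1) (nat_lit 0x40008002e01)))) (.nd (nat_lit 11) 
(.lf (nat_lit 2751513572) (dlOf (nat_lit 2) (nat_lit 0x201a4025d604004c00400060018002882))) 
(.lf (nat_lit 5704305636) (dlOf (nat_lit 1) (nat_lit 0x100080074002001a0008055e83))))) 
(.nd (nat_lit 10) (.nd (nat_lit 8) 
(.lf (nat_lit 1811988708) (dlOf (nat_lit 1) (nat_lit 0x200280b0481))) 
(.lf (nat_lit 5234543588) (dlOf (nat_lit 2) (nat_lit 0x202f0000e818055e80)))) (.nd (nat_lit 26) 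
(.nd (nat_lit 31) (.lf (nat_lit 4966106340) (dlOf (nat_lit 1) (nat_lit 0x4c0018002e01))) 
(.lf (nat_lit 2818622692) (dlOf (nat_lit 1) (nat_lit 0x40028082e01)))) 
(.lf (nat_lit 6106957028) (dlOf (nat_lit 1) (nat_lit 0x400200020008002e02))))))))) (.nd (nat_lit 5) 
(.nd (nat_lit 6) (.nd (nat_lit 31) (.nd (nat_lit 21) (.nd (nat_lit 26) (.nd (nat_lit 27) 
(.nd (nat_lit 7) 
(.lf (nat_lit 1879883780) (dlOf (nat_lit 1) (nat_lit 0x80080004002000200083c0003))) 
(.lf (nat_lit 47499652) (dlOf (nat_lit 1) (nat_lit 0x400400060009404e82)))) (.nd (nat_lit 30) 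
(.lf (nat_lit 134529028) (dlOf (nat_lit 1) (nat_lit 0x70008000400200020008060003))) 
(.lf (nat_lit 1208270852) (dlOf (nat_lit 1) (nat_lit 0xf8008014c002004800080b0003))))) 
(.nd (nat_lit 7) (.nd (nat_lit 27) 
(.lf (nat_lit 604291076) (dlOf (nat_lit 2) (nat_lit 0x100d0014d004004000400060008130002))) 
(.nd (nat_lit 28) 
(.lf (nat_lit 201637892) (dlOf (nat_lit 1) (nat_lit 0x70008000400200020008060003))) 
(.lf (nat_lit 2080686084) (dlOf (nat_lit 1) (nat_lit 0xf8008014c002004800080b0003))))) 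
(.nd (nat_lit 29) (.lf (nat_lit 5704564868) (dlOf (nat_lit 1) (nat_lit 0x4004000200080f0e02))) 
(.lf (nat_lit 6241435780) (dlOf (nat_lit 1) (nat_lit 0x4004000200080f0e82)))))) (.nd (nat_lit 19) 
(.nd (nat_lit 10) (.nd (nat_lit 20) 
(.lf (nat_lit 48545796) (dlOf (nat_lit 1) (nat_lit 0x1720019410001))) 
(.lf (nat_lit 7651332) (dlOf (nat_lit 1) (nat_lit 0x8002000c00084c0002)))) 
(.lf (nat_lit 56935428) (dlOf (nat_lit 1) (nat_lit 0x20019792881)))) (.nd (nat_lit 7) 
(.nd (nat_lit 20) (.lf (nat_lit 2932740) (dlOf (nat_lit 1) (nat_lit 0x80080004002000200081d0003))) 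
(.lf (nat_lit 1346158596) (dlOf (nat_lit 3) (nat_lit 0x280d70076081001406b8038580800380080004002000a0008e60003)))) 
(.nd (nat_lit 11) (.lf (nat_lit 8180100) (dlOf (nat_lit 1) (nat_lit 0x800200020008518382))) 
(.lf (nat_lit 36489604) (dlOf (nat_lit 1) (nat_lit 0x3800200240009074e82))))))) (.nd (nat_lit 26) 
(.nd (nat_lit 29) (.nd (nat_lit 20) (.nd (nat_lit 7) 
(.lf (nat_lit 3494166532) (dlOf (nat_lit 1) (nat_lit 0x200081c0001))) 
(.lf (nat_lit 6711197828) (dlOf (nat_lit 1) (nat_lit 0x80080004002000200080c0e03)))) 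
(.nd (nat_lit 19) (.lf (nat_lit 3491020804) (dlOf (nat_lit 1) (nat_lit 0x8a0018050001))) 
(.lf (nat_lit 3493642244) (dlOf (nat_lit 3) (nat_lit 0x407b00b4601000303d8057ec0800300080060002001c0008190003))))) 
(.nd (nat_lit 19) (.nd (nat_lit 28) 
(.lf (nat_lit 3758407684) (dlOf (nat_lit 1) (nat_lit 0x20028170001))) 
(.lf (nat_lit 2953101316) (dlOf (nat_lit 14) (nat_lit 0x3002e0035015000a009c001c042003e01e000100d000d006000c801c011805c005a02a0036013801c008c009c042008601e003600d000d0060005c02600460020031f8a001c017001900a8005c04e00120230017010800d8078003c034002c01800020098008000800c7828005c05c005e02a000e01380008084006403c00100180031c86001b017001a00a8004c04e0004021002500f0006806000c6c18008005c006602a00230138010008c0054042006201e003200d000b806000240260048002003198a001d0148012808000d002e005001400280088066001800c5018002c0040062502001002900020100008005c0030022006220800040290002010000e805c00c360c00340520010020002200b80008050004402201520060030c06003b0030016e40800480b400300200057a0400220028120001))))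 
(.lf (nat_lit 2819407876) (dlOf (nat_lit 1) (nat_lit 0x60008260001))))) (.nd (nat_lit 20) 
(.nd (nat_lit 27) (.nd (nat_lit 19) 
(.lf (nat_lit 2755969028) (dlOf (nat_lit 1) (nat_lit 0x200081c0001))) 
(.lf (nat_lit 4096573444) (dlOf (nat_lit 1) (nat_lit 0x8008000400200020008130003)))) 
(.nd (nat_lit 28) 
(.lf (nat_lit 6644088836) (dlOf (nat_lit 2) (nat_lit 0x100000181c040024002000200080f0002))) 
(.lf (nat_lit 3691298820) (dlOf (nat_lit 3) (nat_lit 0xd40150034301000e0168015d00800100080014002000e0008120003))))) 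
(.nd (nat_lit 9) (.nd (nat_lit 19) 
(.lf (nat_lit 2752823300) (dlOf (nat_lit 1) (nat_lit 0x8a0018050001))) 
(.lf (nat_lit 2755444740) (dlOf (nat_lit 3) (nat_lit 0x407900a8e81000303c80525c0800300080060002001c0008190003)))) 
(.lf (nat_lit 2754924036) (dlOf (nat_lit 1) (nat_lit 0x80080008002000200080f7003))))))) 
(.nd (nat_lit 30) (.nd (nat_lit 20) (.nd (nat_lit 21) (.nd (nat_lit 8) (.nd (nat_lit 19) 
(.lf (nat_lit 2349121604) (dlOf (nat_lit 1) (nat_lit 0x60008002c002000a00080c1883))) 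
(.lf (nat_lit 13418564) (dlOf (nat_lit 1) (nat_lit 0x2a0008721881)))) 
(.lf (nat_lit 4362912068) (dlOf (nat_lit 2) (nat_lit 0x62000000000181a0600)))) (.nd (nat_lit 7) 
(.lf (nat_lit 23380548) (dlOf (nat_lit 1) (nat_lit 0x8008000400200020008b81103))) (.nd (nat_lit 8) 
(.lf (nat_lit 31769796) (dlOf (nat_lit 2) (nat_lit 0x1d54b00094a4e002751c8001289c0004a10001c004001a0018e92d02))) 
(.lf (nat_lit 23380420) (dlOf (nat_lit 1) (nat_lit 0x4c004000c0008b80902)))))) (.nd (nat_lit 21) 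
(.nd (nat_lit 23) (.nd (nat_lit 9) 
(.lf (nat_lit 22331460) (dlOf (nat_lit 2) (nat_lit 0x137a8000e604000400400020018ac0d82))) 
(.lf (nat_lit 52218436) (dlOf (nat_lit 3) (nat_lit 0x200000029010001080800090080018008000800200040009515203)))) 
(.nd (nat_lit 24) 
(.lf (nat_lit 9748548) (dlOf (nat_lit 2) (nat_lit 0x45a45001ad21800e6904007b47e0009a39001ccee0001f830011000801e800200640008580483))) 
(.lf (nat_lit 26525764) (dlOf (nat_lit 1) (nat_lit 0x3c00200020008c50582))))) (.nd (nat_lit 7) 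
(.lf (nat_lit 49596996) (dlOf (nat_lit 1) (nat_lit 0x8008000400200020009465203))) (.nd (nat_lit 8) 
(.lf (nat_lit 3457220) (dlOf (nat_lit 1) (nat_lit 0x1180080018002006c0008200403))) 
(.lf (nat_lit 57983428) (dlOf (nat_lit 1) (nat_lit 0x4004000200097a7a82))))))) (.nd (nat_lit 26) 
(.nd (nat_lit 28) (.nd (nat_lit 7) 
(.lf (nat_lit 1208270916) (dlOf (nat_lit 2) (nat_lit 0x600a00002e040004004000400080b0582))) 
(.lf (nat_lit 5369020612) (dlOf (nat_lit 2) (nat_lit 0x70080001d00800280080048002000600080c1703)))) 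
(.nd (nat_lit 19) 
(.lf (nat_lit 4026843204) (dlOf (nat_lit 5) (nat_lit 0x14c05c0001e0200b202e000090100520170000440803080b80001e040134004014600080a0d02))) 
(.lf (nat_lit 1346158660) (dlOf (nat_lit 2) (nat_lit 0x22414a0005f018e60600))))) (.nd (nat_lit 8) 
(.nd (nat_lit 9) (.nd (nat_lit 27) 
(.lf (nat_lit 3288645700) (dlOf (nat_lit 8) (nat_lit 0x25a02e011c0168000801003380b802c805a0001304000202e0000781003c0170000300806600b8035005a0000b04011002e00005010005017000024080b2000801dc002002000080a0e03))) 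
(.lf (nat_lit 2080686148) (dlOf (nat_lit 2) (nat_lit 0x600a00002e040004004000400080b0582)))) 
(.lf (nat_lit 3959734852) (dlOf (nat_lit 8) (nat_lit 0x7400e002d000000090100010038000460400e801c0002202007400e00240000000801000e00000003c0400980000001d02007400e0007000000070100058008001000200900008128d03)))) 
(.nd (nat_lit 19) (.lf (nat_lit 1409597764) (dlOf (nat_lit 1) (nat_lit 0x20018047f01))) 
(.lf (nat_lit 4228694340) (dlOf (nat_lit 2) (nat_lit 0x62000000000181a0600)))))))) 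
(.nd (nat_lit 31) (.nd (nat_lit 20) (.nd (nat_lit 6) (.nd (nat_lit 7) (.nd (nat_lit 8) 
(.nd (nat_lit 19) 
(.lf (nat_lit 6040109092) (dlOf (nat_lit 5) (nat_lit 0xb8080000b40401d00460002a02009602300014810028011800024080158008000c002001200080f0583))) 
(.lf (nat_lit 59555876) (dlOf (nat_lit 20) (nat_lit 0x3a2000085018003e7410002283001f3a080010c0805022000006c0400450180003502001e88000113a08000c010027220000490180020741000178300113a08000a408008a0300004c0400450180001f020002880001740600007810006202c0054e820001704005c87f000643f0026202c00a101400f074100241f90000583000221fc00450160001504006e741000090100644058000440800ea02c000200400350160000302002280b00001010001cfb801921fc00b101600103f300000049810700)))) 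
(.lf (nat_lit 46451492) (dlOf (nat_lit 1) (nat_lit 0xa0029385c01)))) (.nd (nat_lit 8) 
(.nd (nat_lit 26) (.lf (nat_lit 671400100) (dlOf (nat_lit 1) (nat_lit 0x100028184901))) 
(.lf (nat_lit 1543815332) (dlOf (nat_lit 1) (nat_lit 0x100028184901)))) 
(.lf (nat_lit 46975396) (dlOf (nat_lit 1) (nat_lit 0x40029384e81))))) (.nd (nat_lit 9) 
(.nd (nat_lit 7) (.lf (nat_lit 56935780) (dlOf (nat_lit 1) (nat_lit 0x20019793481))) 
(.lf (nat_lit 402964708) (dlOf (nat_lit 1) (nat_lit 0x4004000200080c1b02)))) (.nd (nat_lit 23) 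
(.lf (nat_lit 1610925668) (dlOf (nat_lit 1) (nat_lit 0x20018093901))) 
(.lf (nat_lit 8701540) (dlOf (nat_lit 1) (nat_lit 0x20018513901)))))) (.nd (nat_lit 7) 
(.nd (nat_lit 6) (.nd (nat_lit 21) 
(.lf (nat_lit 22855716) (dlOf (nat_lit 1) (nat_lit 0x20028b30501))) (.nd (nat_lit 23) 
(.lf (nat_lit 1346158628) (dlOf (nat_lit 1) (nat_lit 0xc8004002a0008e60202))) 
(.lf (nat_lit 45924388) (dlOf (nat_lit 1) (nat_lit 0x400200020009370702))))) (.nd (nat_lit 12) 
(.lf (nat_lit 11845988) (dlOf (nat_lit 1) (nat_lit 0x80080008002000200086c0703))) 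
(.lf (nat_lit 8180068) (dlOf (nat_lit 1) (nat_lit 0x800200020008518382))))) (.nd (nat_lit 8) 
(.nd (nat_lit 6) (.nd (nat_lit 10) 
(.lf (nat_lit 20239012) (dlOf (nat_lit 1) (nat_lit 0x4002000200089d8c82))) 
(.lf (nat_lit 20240036) (dlOf (nat_lit 1) (nat_lit 0x4002000200089da002)))) 
(.lf (nat_lit 20241124) (dlOf (nat_lit 1) (nat_lit 0x180080010002000200089db983)))) 
(.nd (nat_lit 10) (.lf (nat_lit 49596836) (dlOf (nat_lit 1) (nat_lit 0x20009464e81))) 
(.lf (nat_lit 8177060) (dlOf (nat_lit 1) (nat_lit 0x400200020008513602))))))) (.nd (nat_lit 30) 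
(.nd (nat_lit 26) (.nd (nat_lit 27) (.nd (nat_lit 28) 
(.lf (nat_lit 6442762276) (dlOf (nat_lit 1) (nat_lit 0x200281b0001))) 
(.lf (nat_lit 2416230436) (dlOf (nat_lit 1) (nat_lit 0x100080004002000600080b0a83)))) 
(.nd (nat_lit 19) 
(.lf (nat_lit 2282012708) (dlOf (nat_lit 3) (nat_lit 0x2008800178080028044000b604001c00400060008100502))) 
(.lf (nat_lit 2819407908) (dlOf (nat_lit 1) (nat_lit 0x20028260601))))) (.nd (nat_lit 21) 
(.nd (nat_lit 28) (.lf (nat_lit 6644088868) (dlOf (nat_lit 1) (nat_lit 0x400280f0581))) 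
(.lf (nat_lit 3154427940) (dlOf (nat_lit 2) (nat_lit 0x300500004c04000800400120018170682)))) 
(.nd (nat_lit 7) 
(.lf (nat_lit 2754396196) (dlOf (nat_lit 3) (nat_lit 0x11088008d80801808440044a040008004000400080e0482))) 
(.lf (nat_lit 2754924196) (dlOf (nat_lit 2) (nat_lit 0x50086000150180f7200)))))) (.nd (nat_lit 6) 
(.nd (nat_lit 19) (.nd (nat_lit 26) 
(.lf (nat_lit 4026843172) (dlOf (nat_lit 1) (nat_lit 0xf80080024002004800080a0903))) 
(.lf (nat_lit 3288645668) (dlOf (nat_lit 1) (nat_lit 0xf80080024002004800080a0903)))) 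
(.lf (nat_lit 3492593700) (dlOf (nat_lit 3) (nat_lit 0x10fe0008d80801807f00044a040008004000400080e0482)))) 
(.nd (nat_lit 28) (.nd (nat_lit 7) 
(.lf (nat_lit 3288645732) (dlOf (nat_lit 1) (nat_lit 0x20002001400080a1382))) 
(.lf (nat_lit 3221537252) (dlOf (nat_lit 7) (nat_lit 0x1c80380004804000c01c0002302017a00e00c9006004b0000000440c00cc01c007800c000e0000000741801c8038000380400a401c0001b02007c0028127301)))) 
(.nd (nat_lit 11) (.lf (nat_lit 4026843236) (dlOf (nat_lit 1) (nat_lit 0x1200080a1281))) 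
(.lf (nat_lit 3493120100) (dlOf (nat_lit 2) (nat_lit 0x408b000268180f4700)))))))))) 
(.nd (nat_lit 18) (.nd (nat_lit 5) (.nd (nat_lit 26) (.nd (nat_lit 7) (.nd (nat_lit 6) 
(.nd (nat_lit 11) (.nd (nat_lit 19) 
(.lf (nat_lit 14729221) (dlOf (nat_lit 1) (nat_lit 0x8008000400200020008770003))) (.nd (nat_lit 21) 
(.lf (nat_lit 10010629) (dlOf (nat_lit 1) (nat_lit 0x280080058002002600085a0583))) 
(.lf (nat_lit 3493380101) (dlOf (nat_lit 1) (nat_lit 0x20018120001))))) (.nd (nat_lit 9) 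
(.nd (nat_lit 10) (.lf (nat_lit 2415974405) (dlOf (nat_lit 1) (nat_lit 0x2e001800a601))) 
(.lf (nat_lit 5234543621) (dlOf (nat_lit 1) (nat_lit 0x8008001000200040008055f83)))) 
(.lf (nat_lit 57199109) (dlOf (nat_lit 1) (nat_lit 0xa0029795001))))) (.nd (nat_lit 19) 
(.nd (nat_lit 9) (.nd (nat_lit 27) 
(.lf (nat_lit 5100322885) (dlOf (nat_lit 1) (nat_lit 0x400400060018050002))) 
(.lf (nat_lit 6308282437) (dlOf (nat_lit 1) (nat_lit 0x400400040018050002)))) 
(.lf (nat_lit 41994821) (dlOf (nat_lit 1) (nat_lit 0x400400060009245202)))) (.nd (nat_lit 8) 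
(.lf (nat_lit 3493380165) (dlOf (nat_lit 4) (nat_lit 0x1500000001c080008108000403c0000404000c042000600f00000c100048008000c002008e0008120e83))) 
(.lf (nat_lit 1342751045) (dlOf (nat_lit 1) (nat_lit 0x80080004002000200080c0603)))))) 
(.nd (nat_lit 10) (.nd (nat_lit 9) (.nd (nat_lit 8) (.nd (nat_lit 21) 
(.lf (nat_lit 1342750853) (dlOf (nat_lit 1) (nat_lit 0xa8008001c002000e00080c0103))) 
(.lf (nat_lit 23642245) (dlOf (nat_lit 1) (nat_lit 0xc00200020008b80102)))) (.nd (nat_lit 11) 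
(.lf (nat_lit 5100323205) (dlOf (nat_lit 1) (nat_lit 0x8008000400200020008051003))) 
(.lf (nat_lit 57198981) (dlOf (nat_lit 1) (nat_lit 0x1740019794e81))))) (.nd (nat_lit 6) 
(.nd (nat_lit 11) (.lf (nat_lit 19977093) (dlOf (nat_lit 1) (nat_lit 0x2400189d9001))) 
(.lf (nat_lit 19975045) (dlOf (nat_lit 1) (nat_lit 0x200089d5c01)))) 
(.lf (nat_lit 1342231493) (dlOf (nat_lit 1) (nat_lit 0x20008009201))))) (.nd (nat_lit 8) 
(.nd (nat_lit 6) (.nd (nat_lit 29) 
(.lf (nat_lit 268486277) (dlOf (nat_lit 1) (nat_lit 0xd0008005c002000e0008053a03))) 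
(.lf (nat_lit 5100324485) (dlOf (nat_lit 1) (nat_lit 0x400400020008053a02)))) 
(.lf (nat_lit 1346946245) (dlOf (nat_lit 3) (nat_lit 0x160b180080328008817a0002806001411a00012819102d00)))) 
(.nd (nat_lit 28) (.nd (nat_lit 6) (.nd (nat_lit 23) 
(.lf (nat_lit 3892364677) (dlOf (nat_lit 1) (nat_lit 0xa0028083601))) 
(.lf (nat_lit 8439173) (dlOf (nat_lit 1) (nat_lit 0x400200020008513602)))) 
(.lf (nat_lit 2147534277) (dlOf (nat_lit 1) (nat_lit 0x40008003601)))) (.nd (nat_lit 9) 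
(.lf (nat_lit 268486021) (dlOf (nat_lit 1) (nat_lit 0x18008001c00200060008053603))) 
(.lf (nat_lit 4026582917) (dlOf (nat_lit 3) (nat_lit 0x402b000090100020170000400800b80080090002005c0008004183)))))))) 
(.nd (nat_lit 8) (.nd (nat_lit 6) (.nd (nat_lit 7) (.nd (nat_lit 10) (.nd (nat_lit 19) 
(.lf (nat_lit 5704302597) (dlOf (nat_lit 1) (nat_lit 0x20028050001))) 
(.lf (nat_lit 2755182597) (dlOf (nat_lit 1) (nat_lit 0x20018120001)))) (.nd (nat_lit 9) 
(.lf (nat_lit 2751513605) (dlOf (nat_lit 1) (nat_lit 0x20018002881))) 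
(.lf (nat_lit 6375392773) (dlOf (nat_lit 1) (nat_lit 0x800800ac00200280008003683))))) 
(.nd (nat_lit 9) (.nd (nat_lit 10) 
(.lf (nat_lit 470335621) (dlOf (nat_lit 1) (nat_lit 0xa8008001c002000e00080c0103))) 
(.lf (nat_lit 3288386693) (dlOf (nat_lit 1) (nat_lit 0x5c0008006101)))) 
(.lf (nat_lit 6375392901) (dlOf (nat_lit 2) (nat_lit 0x2500000005e04002000200120008003a02))))) 
(.nd (nat_lit 19) (.nd (nat_lit 10) (.nd (nat_lit 27) 
(.lf (nat_lit 4898996293) (dlOf (nat_lit 1) (nat_lit 0xa0008001c00200020008050003))) 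
(.lf (nat_lit 5570084933) (dlOf (nat_lit 1) (nat_lit 0x400400020008050002)))) 
(.lf (nat_lit 4898997317) (dlOf (nat_lit 1) (nat_lit 0x80028052881)))) (.nd (nat_lit 9) 
(.nd (nat_lit 20) 
(.lf (nat_lit 3154690117) (dlOf (nat_lit 3) (nat_lit 0x1ac058003fc02000c02c001fa018310000))) 
(.lf (nat_lit 2755182661) (dlOf (nat_lit 4) (nat_lit 0x1500000001c080008108000403c0000404000c042000600f00000c100048008000c002008e0008120e83)))) 
(.lf (nat_lit 472435269) (dlOf (nat_lit 5) (nat_lit 0x16160000904e0001c81000802340005a0400042c00002b020012160000704e0000001000b0008000c002002c0008985203)))))) 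
(.nd (nat_lit 7) (.nd (nat_lit 10) (.nd (nat_lit 6) 
(.lf (nat_lit 3154690309) (dlOf (nat_lit 2) (nat_lit 0x1bc02c0023d818310700))) (.nd (nat_lit 29) 
(.lf (nat_lit 470335813) (dlOf (nat_lit 1) (nat_lit 0x80080004002000200080c0603))) 
(.lf (nat_lit 6375915845) (dlOf (nat_lit 2) (nat_lit 0x12000000cf804002c002005c0008015f82))))) 
(.nd (nat_lit 6) (.lf (nat_lit 604036357) (dlOf (nat_lit 1) (nat_lit 0x40020002000800c602))) 
(.nd (nat_lit 11) (.lf (nat_lit 4093691205) (dlOf (nat_lit 1) (nat_lit 0x80008003301))) 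
(.lf (nat_lit 1409338693) (dlOf (nat_lit 2) (nat_lit 0x600600007018006980)))))) (.nd (nat_lit 9) 
(.nd (nat_lit 10) (.nd (nat_lit 30) 
(.lf (nat_lit 4496343429) (dlOf (nat_lit 1) (nat_lit 0x400400020008051002))) 
(.lf (nat_lit 5570085253) (dlOf (nat_lit 1) (nat_lit 0x400400020008051002)))) 
(.lf (nat_lit 6375392645) (dlOf (nat_lit 1) (nat_lit 0xc00400020008003602)))) (.nd (nat_lit 6) 
(.nd (nat_lit 10) (.lf (nat_lit 5704305541) (dlOf (nat_lit 1) (nat_lit 0x400400040018055c02))) 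
(.lf (nat_lit 2348861317) (dlOf (nat_lit 1) (nat_lit 0x20028004181)))) 
(.lf (nat_lit 2751514565) (dlOf (nat_lit 1) (nat_lit 0x28008005000200080008004403)))))))) 
(.nd (nat_lit 26) (.nd (nat_lit 19) (.nd (nat_lit 6) (.nd (nat_lit 8) (.nd (nat_lit 7) 
(.nd (nat_lit 9) (.lf (nat_lit 25215013) (dlOf (nat_lit 1) (nat_lit 0x8008000400200020008bf0903))) 
(.lf (nat_lit 2281756197) (dlOf (nat_lit 1) (nat_lit 0x400400020008009c02)))) 
(.lf (nat_lit 19976869) (dlOf (nat_lit 1) (nat_lit 0x4002000200089d8c82)))) (.nd (nat_lit 9) 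
(.lf (nat_lit 1476448549) (dlOf (nat_lit 1) (nat_lit 0x3c0028008081))) (.nd (nat_lit 10) 
(.lf (nat_lit 19976997) (dlOf (nat_lit 1) (nat_lit 0x2200189d8f81))) 
(.lf (nat_lit 19975973) (dlOf (nat_lit 1) (nat_lit 0x24004000200089d7482)))))) (.nd (nat_lit 28) 
(.nd (nat_lit 8) (.nd (nat_lit 7) 
(.lf (nat_lit 44089445) (dlOf (nat_lit 1) (nat_lit 0x1400092c0d81))) 
(.lf (nat_lit 2147534053) (dlOf (nat_lit 1) (nat_lit 0x1c0018002e01)))) (.nd (nat_lit 20) 
(.lf (nat_lit 671138149) (dlOf (nat_lit 1) (nat_lit 0x200180b0701))) 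
(.lf (nat_lit 3195237) (dlOf (nat_lit 1) (nat_lit 0x40018200701))))) (.nd (nat_lit 7) 
(.nd (nat_lit 8) (.lf (nat_lit 1881194597) (dlOf (nat_lit 1) (nat_lit 0x800400020008e40982))) 
(.lf (nat_lit 3493904741) (dlOf (nat_lit 1) (nat_lit 0x35000201a000081b0702)))) (.nd (nat_lit 31) 
(.lf (nat_lit 939573477) (dlOf (nat_lit 1) (nat_lit 0x200280b0481))) 
(.lf (nat_lit 3087057125) (dlOf (nat_lit 1) (nat_lit 0x1600280b0481))))))) (.nd (nat_lit 30) 
(.nd (nat_lit 23) (.nd (nat_lit 6) (.nd (nat_lit 7) (.nd (nat_lit 20) 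
(.lf (nat_lit 134791205) (dlOf (nat_lit 4) (nat_lit 0xa0460002b0100010150000d40800300d800004040138004003600080b0b82))) 
(.lf (nat_lit 22593573) (dlOf (nat_lit 2) (nat_lit 0x400000007818b00800)))) 
(.lf (nat_lit 537444773) (dlOf (nat_lit 1) (nat_lit 0x220028090781)))) 
(.lf (nat_lit 36225125) (dlOf (nat_lit 2) (nat_lit 0x9c12b803a89380005104000c0019050981)))) 
(.nd (nat_lit 6) (.nd (nat_lit 20) 
(.lf (nat_lit 48807973) (dlOf (nat_lit 1) (nat_lit 0x20029430781))) 
(.lf (nat_lit 10010661) (dlOf (nat_lit 8) (nat_lit 0x40e9800085e00027e0800203a600101ca00060e2800305e00027c100030394001e1c5000c0bc0004f0180008758001439400121c500050bc0004c8200020758001c39400181c500090bc0004c4200040758002839400161c5000c0bc0004c0200038758000439400181c500030bc0004bc2000280080004002000600085a0c03)))) 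
(.lf (nat_lit 42516581) (dlOf (nat_lit 2) (nat_lit 0x3674800000080018008000400200020009260983))))) 
(.nd (nat_lit 20) (.nd (nat_lit 8) (.nd (nat_lit 22) 
(.lf (nat_lit 3221798949) (dlOf (nat_lit 16) (nat_lit 0x6301b80100080000c80800b406e000630200e003c0003001001301e0001740804d80ec0005004018c0760002702008a03e00560070000641001200f800d001c00220000000c0300b201f006180380002e0800d807c007a00e0037006000f00000002c10032c07c01a200e006d0000000501800e800000014040010000000050200020000000101005301e0052800000000080118004004a0018190b82))) 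
(.lf (nat_lit 3494428709) (dlOf (nat_lit 37) (nat_lit 0x25606702070208008d41000303cc00d00d82988067057f031019c017c52fc082024a0370124018819e80b40d2804c258c02212cc00d81e40018012400600580000011a0f13e903389f18104007805a00d00261227011091f806c00466183fd00ce00280620ffb020800600c438440441c2c01b0011906101a033880a01043a900441d2e01b0011684012e03380cd810400e8044002801b001140400b3033802d81040044e0803480ce003604100030110008981803a019c019c0820022504083a0670143020800888100e6819c04940820168022000500d800884200a4019c02b00820008022001100302d103380f80104004360809ec0ce01a605f000f029004880dc0078004001fd0a0004052000fe0100010290007e80800f0088003de0406f01e204a406b14b903305de01844b780ba25ac05c09e302c089f015c532407e0c4e03e027701d83b800b81dc005a11f20270868013096380880070042259201c082a00d88268054212802814c6004055300105438000003da6006581e201ac06b14bc03305cf81844b600ba25a805c085702c08bc815c530c07e0c7803e07ae01703ca00b4235804e105602612c90110965807023a00360f8601508340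0a0187001016000041428000000f6160ffd0330404018438840ba1c3205c038902c06cf015c402807e071203e02c0017015f80b4112804e07860260e220110712007018780360f2e015060800a014480100df8004098a000000f5940ffb03305b18184408c0ba204805c076202c07e7015c401807e0c0603e094101704a080b420e804e0e3a0260e1d011071100701aac03618f801507fb00a044f801015480040e2c000000f5140437033026f0170060007e066e022001300e0007a42820183c414480d62a880660b0b03089b601744d780b8145205811e102b8aa900fc1a6807c099e03b07de01703f600b4257404e11c4026134a01109a58070228003621bc015089100a056a0010152c00416d0000000f417006603587e481982cac0c224f605d128002e06b981603ff40ae1fb003f038301f000c00ec90a405c488402d135c013899a009837b4044005801e0df100e0406806c401402a093a01409dd00202e98008393c000001e72e03de0f101270358a5d81982a380c225b205d12d102e04e6016046180ae009c05214ca01f831f00f803700760e0402e0702016846c009c21f004c259002212cc00e03fe006c41e802a106c0140a77002025100082b04000001e630031e0f100d30358a5581982bf40c2263a05d131c0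2e0448016042900ae297603f066c01f003000ec290c05c148402d092f013846e80984aec044258201c084d00d885a8054211402815ac00405b9001059d8000003ca5c0b500cc025a05d035802e01b280fc0514044025001c000f2060f2f03304ed018430640ba1c1c05c00ce02c050a015c378007e063803e0dc901706b200b41ad404e015a0260c8101105e6807004540360d1201503a200a00a9001005b800402f2000000f1940004011000758080878198003a80405200cc000605d001001f80038088000c038001d30a10fe066000402e8060817002e007e010c02e00a6016800c00981bc0044012801c002000d8007485014b81980408044001d1040052066000c01f800500700039e0c00800cc001cd02075a06703b102081420088088c0360000008009a0018220901)))) 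
(.lf (nat_lit 1342751013) (dlOf (nat_lit 1) (nat_lit 0x80080004002000200080c0503)))) 
(.nd (nat_lit 21) 
(.lf (nat_lit 3491282981) (dlOf (nat_lit 2) (nat_lit 0x730ae000000080150008004400200280008080903))) 
(.lf (nat_lit 3493380133) (dlOf (nat_lit 3) (nat_lit 0x683d400180d8000e06700090208003006c00016140004082000000200260028120a01))))))) 
(.nd (nat_lit 6) (.nd (nat_lit 19) (.nd (nat_lit 7) (.nd (nat_lit 8) 
(.lf (nat_lit 68206629) (dlOf (nat_lit 1) (nat_lit 0x238008011400200040008450603))) 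
(.nd (nat_lit 9) (.lf (nat_lit 469813541) (dlOf (nat_lit 1) (nat_lit 0x520018004b81))) 
(.lf (nat_lit 201377573) (dlOf (nat_lit 1) (nat_lit 0x28c00200440008003d02))))) (.nd (nat_lit 8) 
(.lf (nat_lit 69257893) (dlOf (nat_lit 2) (nat_lit 0x2cc0000003a0200060018905601))) 
(.nd (nat_lit 27) 
(.lf (nat_lit 4898997669) (dlOf (nat_lit 2) (nat_lit 0x80380008e0200020018053601))) 
(.lf (nat_lit 6375392677) (dlOf (nat_lit 1) (nat_lit 0x8008018400200560008003603)))))) 
(.nd (nat_lit 20) (.nd (nat_lit 22) (.nd (nat_lit 27) 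
(.lf (nat_lit 3557343269) (dlOf (nat_lit 1) (nat_lit 0x400281c0601))) 
(.lf (nat_lit 201900069) (dlOf (nat_lit 1) (nat_lit 0x80080004002000200080b0a83)))) 
(.lf (nat_lit 2756231205) (dlOf (nat_lit 37) (nat_lit 0x25606702070208009341000303cc00d00d82988067057f031019c017c52fc082024a0370124018819e80b40d2804c258c02212cc00d81e4001801240060058000001260f13e903389f18104007805a00d00261227011091f806c00496183fd00ce00280620ffb020800600c438440441c2c01b0012506101a033880a01043a900441d2e01b0012284012e03380cd810400e8044002801b0011e8400b3033802d8104004780803480ce003604100030110008ec1803a019c019c0820023a04083a06701430208008dc100e6819c04940820168022000500d8008d8200a4019c02b008200080220011a8302d103380f80104004600809ec0ce01a605f000f029004880dc0078004002120a00040520010881000102900083c0800f0088004020406f01e204a406b14b903305de01844b780ba25ac05c09e302c089f015c532407e0c4e03e027701d83b800b81dc005a11f20270868013096380880070042259201c082a00d88268054212802814c60040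55300105438000003fe6006581e201ac06b14bc03305cf81844b600ba25a805c085702c08bc815c530c07e0c7803e07ae01703ca00b4235804e105602612c90110965807023a00360f86015083400a0187001016000041428000000ff160ffd0330404018438840ba1c3205c038902c06cf015c402807e071203e02c0017015f80b4112804e07860260e220110712007018780360f2e015060800a014480100df8004098a000000fe940ffb03305b18184408c0ba204805c076202c07e7015c401807e0c0603e094101704a080b420e804e0e3a0260e1d011071100701aac03618f801507fb00a044f801015480040e2c000000fe140437033026f0170060007e066e022001300e0007ec2820183c414480d62a880660b0b03089b601744d780b8145205811e102b8aa900fc1a6807c099e03b07de01703f600b4257404e11c4026134a01109a58070228003621bc015089100a056a0010152c00416d0000000fd17006603587e481982cac0c224f605d128002e06b981603ff40ae1fb003f038301f000c00ec90a405c488402d135c013899a009837b4044005801e0df100e0406806c401402a093a01409dd00202e98008393c000001f92e03de0f101270358a5d81982a380c225b205d12d102e04e6016046180ae009c0521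4ca01f831f00f803700760e0402e0702016846c009c21f004c259002212cc00e03fe006c41e802a106c0140a77002025100082b04000001f830031e0f100d30358a5581982bf40c2263a05d131c02e0448016042900ae297603f066c01f003000ec290c05c148402d092f013846e80984aec044258201c084d00d885a8054211402815ac00405b9001059d8000003ee5c0b500cc025a05d035802e01b280fc0514044025001c000fb060f2f03304ed018430640ba1c1c05c00ce02c050a015c378007e063803e0dc901706b200b41ad404e015a0260c8101105e6807004540360d1201503a200a00a9001005b800402f2000000fa9400040110007ac080878198003d20405200cc000605d001001f80038088000c038001e80a10fe066000402e8060817002e007e010c02e00a6016800c00981bc0044012801c002000d80079c5014b81980408044001e6040052066000c01f80050070003c80c00800cc001e202075a06703b102081420088088c0360000008009a0018220901)))) 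
(.nd (nat_lit 21) 
(.lf (nat_lit 2753085477) (dlOf (nat_lit 2) (nat_lit 0x1f42a4000000200300008080881))) 
(.lf (nat_lit 2755182629) (dlOf (nat_lit 3) (nat_lit 0x683d400180d8000e06700090208003006c00016140004082000000200260028120a01)))))) 
(.nd (nat_lit 27) (.nd (nat_lit 7) (.nd (nat_lit 9) 
(.lf (nat_lit 2755707237) (dlOf (nat_lit 4) (nat_lit 0x2c229001c10e80140854000680c007043a00032020042229003110a80007c1000680080054002002200081b0703))) 
(.lf (nat_lit 5704305509) (dlOf (nat_lit 1) (nat_lit 0x20008055c01)))) (.nd (nat_lit 8) 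
(.lf (nat_lit 3019949285) (dlOf (nat_lit 1) (nat_lit 0x800200060008082e02))) (.nd (nat_lit 9) 
(.lf (nat_lit 4898997733) (dlOf (nat_lit 1) (nat_lit 0xa000200420008053602))) 
(.lf (nat_lit 2751513573) (dlOf (nat_lit 2) (nat_lit 0xf034804bac080020008000400200040008002883)))))) 
(.nd (nat_lit 7) (.nd (nat_lit 8) 
(.lf (nat_lit 474529893) (dlOf (nat_lit 2) (nat_lit 0x29825801a010800ec07400780398020006400084140288004002400091a0982))) 
(.lf (nat_lit 1543553381) (dlOf (nat_lit 1) (nat_lit 0x200180b0701)))) (.nd (nat_lit 9) 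
(.lf (nat_lit 469817829) (dlOf (nat_lit 1) (nat_lit 0x2c001800b281))) (.nd (nat_lit 11) 
(.lf (nat_lit 6375392229) (dlOf (nat_lit 1) (nat_lit 0x2c00200020008002882))) 
(.lf (nat_lit 2080426981) (dlOf (nat_lit 1) (nat_lit 0x60018005e81)))))))))) (.nd (nat_lit 5) 
(.nd (nat_lit 28) (.nd (nat_lit 23) (.nd (nat_lit 6) (.nd (nat_lit 7) (.nd (nat_lit 26) 
(.nd (nat_lit 29) (.lf (nat_lit 2282012677) (dlOf (nat_lit 1) (nat_lit 0x20028100001))) 
(.lf (nat_lit 6040109061) (dlOf (nat_lit 2) (nat_lit 0xb00000181c040010002001400080f0002)))) 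
(.nd (nat_lit 8) (.nd (nat_lit 19) 
(.lf (nat_lit 604291077) (dlOf (nat_lit 1) (nat_lit 0x10008001400200020008130003))) 
(.lf (nat_lit 2755444741) (dlOf (nat_lit 3) (nat_lit 0x1003c8054740800801e40292e04000800400120008190002)))) 
(.lf (nat_lit 2751776517) (dlOf (nat_lit 1) (nat_lit 0x400400020008003b82))))) (.nd (nat_lit 8) 
(.nd (nat_lit 10) (.lf (nat_lit 1074053253) (dlOf (nat_lit 1) (nat_lit 0x400400020008090102))) 
(.lf (nat_lit 5436130437) (dlOf (nat_lit 1) (nat_lit 0x18004001000180e2b02)))) (.nd (nat_lit 10) 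
(.lf (nat_lit 36489605) (dlOf (nat_lit 1) (nat_lit 0x120009074e81))) (.nd (nat_lit 19) 
(.lf (nat_lit 52741509) (dlOf (nat_lit 1) (nat_lit 0x200019573601))) 
(.lf (nat_lit 8177029) (dlOf (nat_lit 1) (nat_lit 0x400200020008513602))))))) (.nd (nat_lit 26) 
(.nd (nat_lit 11) (.nd (nat_lit 30) 
(.lf (nat_lit 4429496389) (dlOf (nat_lit 2) (nat_lit 0x38027000270180f1880))) 
(.lf (nat_lit 1208270917) (dlOf (nat_lit 2) (nat_lit 0x120280000b8180b0580)))) (.nd (nat_lit 9) 
(.lf (nat_lit 19713093) (dlOf (nat_lit 1) (nat_lit 0x5800189d6081))) 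
(.lf (nat_lit 52218437) (dlOf (nat_lit 1) (nat_lit 0x400400060009515202))))) (.nd (nat_lit 21) 
(.nd (nat_lit 27) 
(.lf (nat_lit 3288645701) (dlOf (nat_lit 8) (nat_lit 0x11602e00b70168000801004680b80003e0401e005c00b002d0000982009c01700003c0804100b8000180402b005c012402d000058200b3017003f80b400014080040004014800080a0e02))) 
(.lf (nat_lit 2349121605) (dlOf (nat_lit 2) (nat_lit 0xb00a00021e040008004002200180c1882)))) 
(.lf (nat_lit 2753871941) (dlOf (nat_lit 1) (nat_lit 0x4002000200080a0d02)))))) (.nd (nat_lit 19) 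
(.nd (nat_lit 20) (.nd (nat_lit 6) (.nd (nat_lit 21) 
(.lf (nat_lit 12894213) (dlOf (nat_lit 2) (nat_lit 0x2a91803a800800300080024002003600086e0003))) 
(.lf (nat_lit 10797061) (dlOf (nat_lit 1) (nat_lit 0x8008008c00200380008630003)))) 
(.lf (nat_lit 31769797) (dlOf (nat_lit 2) (nat_lit 0x66a96001b549c0100a3900012838e92d00)))) 
(.nd (nat_lit 25) (.nd (nat_lit 6) 
(.lf (nat_lit 26525701) (dlOf (nat_lit 1) (nat_lit 0x8008000400200020008c50003))) 
(.lf (nat_lit 26525765) (dlOf (nat_lit 6) (nat_lit 0x6f6538000700800b329c0003604003dab40128ca7005e61a800aa66c00034100019b080022c860000a02002364300004c0802e0008002400200420008c50603)))) 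
(.nd (nat_lit 7) 
(.lf (nat_lit 62177285) (dlOf (nat_lit 4) (nat_lit 0x43a000481bf00070270071a818000874000b037e000219400060270071a4200008740009c37e0006194000102700719c2000b0008002800200100009970003))) 
(.lf (nat_lit 43304325) (dlOf (nat_lit 1) (nat_lit 0x4004000200092a3602)))))) (.nd (nat_lit 6) 
(.nd (nat_lit 21) (.nd (nat_lit 20) 
(.lf (nat_lit 42778629) (dlOf (nat_lit 1) (nat_lit 0x5e000200c80009280002))) 
(.lf (nat_lit 10272773) (dlOf (nat_lit 1) (nat_lit 0x800285c0001)))) (.nd (nat_lit 25) 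
(.lf (nat_lit 12369925) (dlOf (nat_lit 1) (nat_lit 0x200186c0001))) 
(.lf (nat_lit 45924357) (dlOf (nat_lit 1) (nat_lit 0xe000200120009370002))))) (.nd (nat_lit 9) 
(.nd (nat_lit 20) 
(.lf (nat_lit 13418565) (dlOf (nat_lit 5) (nat_lit 0x8ed650012dc84024a53e000540601d5aca00ea94f80014410002bf3c0009e04034f5de01ab2da005d7e2002680000009c10001800200020008721882))) 
(.lf (nat_lit 10272837) (dlOf (nat_lit 2) (nat_lit 0x20000000740800080080004002000400085c0e83)))) 
(.lf (nat_lit 33344069) (dlOf (nat_lit 2) (nat_lit 0x12a1c000947e0002f828f55200))))))) 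
(.nd (nat_lit 26) (.nd (nat_lit 6) (.nd (nat_lit 7) (.nd (nat_lit 19) 
(.lf (nat_lit 1879359493) (dlOf (nat_lit 1) (nat_lit 0x58004001200080f0002))) (.nd (nat_lit 31) 
(.lf (nat_lit 1346158597) (dlOf (nat_lit 2) (nat_lit 0x1e14c00760818e60000))) 
(.lf (nat_lit 3493642245) (dlOf (nat_lit 3) (nat_lit 0x1003d805a300800801ec02bf604000800400120008190002))))) 
(.nd (nat_lit 27) 
(.lf (nat_lit 5637456005) (dlOf (nat_lit 1) (nat_lit 0x25800801a4002009000080f0e03))) 
(.lf (nat_lit 402964613) (dlOf (nat_lit 1) (nat_lit 0x200280c0e01))))) (.nd (nat_lit 8) 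
(.nd (nat_lit 19) 
(.lf (nat_lit 4026843205) (dlOf (nat_lit 9) (nat_lit 0x500000004002028a02e01580168000801005400b800c005a0001f0400de02e0000f0100ce017001800b40001a08044405c009002d000058200cb0170000280804600b8000000401bc00400f000080a0d02))) 
(.lf (nat_lit 1346158661) (dlOf (nat_lit 2) (nat_lit 0x1d014a0005f018e60600)))) (.nd (nat_lit 9) 
(.lf (nat_lit 3489975621) (dlOf (nat_lit 4) (nat_lit 0x304480004408001823000381160000e04000608c00020458000341000780080018002000e0008006983))) 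
(.lf (nat_lit 3489979205) (dlOf (nat_lit 1) (nat_lit 0x4001800bc81)))))) (.nd (nat_lit 29) 
(.nd (nat_lit 6) (.nd (nat_lit 7) (.nd (nat_lit 8) 
(.lf (nat_lit 474267653) (dlOf (nat_lit 1) (nat_lit 0x8008000400200020009100003))) 
(.lf (nat_lit 1543815429) (dlOf (nat_lit 1) (nat_lit 0x11000400400008187202)))) 
(.lf (nat_lit 5704564869) (dlOf (nat_lit 1) (nat_lit 0x200280f0e01)))) (.nd (nat_lit 7) 
(.lf (nat_lit 2483339333) (dlOf (nat_lit 1) (nat_lit 0x200180c1401))) 
(.lf (nat_lit 473745861) (dlOf (nat_lit 2) (nat_lit 0x7010a00c130200020018fa4e81))))) 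
(.nd (nat_lit 30) (.nd (nat_lit 7) (.nd (nat_lit 31) 
(.lf (nat_lit 1006944261) (dlOf (nat_lit 1) (nat_lit 0x58004001200080f0002))) 
(.lf (nat_lit 3154427909) (dlOf (nat_lit 1) (nat_lit 0x700008170001)))) 
(.lf (nat_lit 1009041541) (dlOf (nat_lit 1) (nat_lit 0x8008000400200040009012283)))) 
(.nd (nat_lit 6) (.nd (nat_lit 7) 
(.lf (nat_lit 4096573445) (dlOf (nat_lit 1) (nat_lit 0x400400020018130002))) 
(.lf (nat_lit 1946468485) (dlOf (nat_lit 1) (nat_lit 0x400400020008090102)))) 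
(.lf (nat_lit 2080686149) (dlOf (nat_lit 2) (nat_lit 0x120280000b8180b0580)))))))) 
(.nd (nat_lit 28) (.nd (nat_lit 6) (.nd (nat_lit 19) (.nd (nat_lit 26) (.nd (nat_lit 27) 
(.nd (nat_lit 9) (.lf (nat_lit 6442762277) (dlOf (nat_lit 1) (nat_lit 0x8e00281b0001))) 
(.lf (nat_lit 23380517) (dlOf (nat_lit 11) (nat_lit 0x23e45400430de0001604004d9150000a810026c8a801661bc0001c0800070de0000d0200cb915000cc3b80060000000180c008b22a0043911000bc758012e1bc0000c10002722a00119110009c758006e1bc003a3ee000050a00219150011c3780001010003e4540000604000b0de000000200060028b80e01)))) 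
(.nd (nat_lit 7) 
(.lf (nat_lit 6040109093) (dlOf (nat_lit 4) (nat_lit 0x1740230020010800a008000a403a0002a080186023000148100bd0118000240803c0008022c002014400080f0583))) 
(.lf (nat_lit 671400101) (dlOf (nat_lit 1) (nat_lit 0x20028184901))))) (.nd (nat_lit 8) 
(.nd (nat_lit 30) (.lf (nat_lit 4362387493) (dlOf (nat_lit 1) (nat_lit 0xe0008050581))) 
(.lf (nat_lit 3288645669) (dlOf (nat_lit 1) (nat_lit 0x80080004002000200080a0903)))) 
(.lf (nat_lit 2751776549) (dlOf (nat_lit 1) (nat_lit 0x400200020008003d02))))) (.nd (nat_lit 7) 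
(.nd (nat_lit 22) (.nd (nat_lit 23) 
(.lf (nat_lit 2819407909) (dlOf (nat_lit 1) (nat_lit 0x40028260601))) 
(.lf (nat_lit 59555877) (dlOf (nat_lit 11) (nat_lit 0x3da20001a90180064741000168300704400039203001ece820002c06011088000644060000ac10072a20001c101800de741000150300644060000a40805ea2000135018000060402fc880005040600001410028a03000008040285018015a741000010201024400026a0300000008049800200f00009810782)))) 
(.lf (nat_lit 13418533) (dlOf (nat_lit 1) (nat_lit 0xb400200200008720b02)))) (.nd (nat_lit 8) 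
(.lf (nat_lit 36489893) (dlOf (nat_lit 1) (nat_lit 0xe0009075601))) 
(.lf (nat_lit 8177061) (dlOf (nat_lit 1) (nat_lit 0x400200020008513602)))))) (.nd (nat_lit 7) 
(.nd (nat_lit 19) (.nd (nat_lit 8) 
(.lf (nat_lit 9748581) (dlOf (nat_lit 1) (nat_lit 0x280080004002000e0008580783))) (.nd (nat_lit 20) 
(.lf (nat_lit 2408805) (dlOf (nat_lit 2) (nat_lit 0x3416a0001a018150700))) 
(.lf (nat_lit 3457381) (dlOf (nat_lit 3) (nat_lit 0x186e640006804003f732000330200060008200701))))) 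
(.nd (nat_lit 8) (.lf (nat_lit 42778725) (dlOf (nat_lit 1) (nat_lit 0x80080014002000e0009280983))) 
(.nd (nat_lit 26) (.lf (nat_lit 135053669) (dlOf (nat_lit 1) (nat_lit 0x200181b0701))) 
(.lf (nat_lit 202162533) (dlOf (nat_lit 1) (nat_lit 0x200181b0701)))))) (.nd (nat_lit 9) 
(.nd (nat_lit 29) 
(.lf (nat_lit 3221537253) (dlOf (nat_lit 9) (nat_lit 0xf400e0083006002a0000000480c011401c002a00c001900000008c1835880381ae40180d180000001103006c007003a8030011c0000002006006000e0000f0100a50070057803001fc0000001d06001e00e0000e01062500700006c0800e80080070002003c0008127303))) 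
(.lf (nat_lit 5905891813) (dlOf (nat_lit 2) (nat_lit 0x500b8012c8080138008009000200240008157d03)))) 
(.lf (nat_lit 4496608229) (dlOf (nat_lit 1) (nat_lit 0xa00280e5e81)))))) (.nd (nat_lit 26) 
(.nd (nat_lit 30) (.nd (nat_lit 6) (.nd (nat_lit 7) 
(.lf (nat_lit 2550448165) (dlOf (nat_lit 1) (nat_lit 0x100080004002000600080b0b83))) 
(.lf (nat_lit 4697931941) (dlOf (nat_lit 1) (nat_lit 0x80080018002001400080c1383)))) 
(.nd (nat_lit 7) (.lf (nat_lit 268746853) (dlOf (nat_lit 1) (nat_lit 0x400200020008120782))) 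
(.lf (nat_lit 4697932005) (dlOf (nat_lit 7) (nat_lit 0x1802d000f00f8003981000100b40018a04003005e001802d001700f8001941800600bc005005a002c01f00032030010017800600b4004403e0006206002202f000d016800b807c000be0c0004004000e00180c1b82))))) 
(.nd (nat_lit 19) (.nd (nat_lit 20) 
(.lf (nat_lit 4026843173) (dlOf (nat_lit 1) (nat_lit 0x80080004002000200080a0903))) 
(.lf (nat_lit 1343537189) (dlOf (nat_lit 3) (nat_lit 0x7c0000057781000b047000c01f80141408036000200020008290702)))) 
(.nd (nat_lit 6) (.lf (nat_lit 1346158629) (dlOf (nat_lit 1) (nat_lit 0x20008e60201))) 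
(.lf (nat_lit 1346158693) (dlOf (nat_lit 6) (nat_lit 0x9d0a6804f036401b41b00000e06006614d004206c8000301009c853404d41b20000a04002014d0000301002b0a6801b8364000000800e8004002e0008e60982)))))) 
(.nd (nat_lit 19) (.nd (nat_lit 8) (.nd (nat_lit 7) 
(.lf (nat_lit 4228169765) (dlOf (nat_lit 1) (nat_lit 0xe0008050581))) 
(.lf (nat_lit 1543815333) (dlOf (nat_lit 1) (nat_lit 0x20028184901)))) (.nd (nat_lit 6) 
(.lf (nat_lit 1409597733) (dlOf (nat_lit 1) (nat_lit 0x80028047801))) 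
(.lf (nat_lit 3557086565) (dlOf (nat_lit 1) (nat_lit 0xa0008129901))))) (.nd (nat_lit 6) 
(.nd (nat_lit 27) (.lf (nat_lit 3557605413) (dlOf (nat_lit 1) (nat_lit 0x400200020008270702))) 
(.lf (nat_lit 1007468581) (dlOf (nat_lit 1) (nat_lit 0x4002000200083c0582)))) (.nd (nat_lit 7) 
(.lf (nat_lit 6376180325) (dlOf (nat_lit 2) (nat_lit 0x380a00006204000800200020008095382))) 
(.lf (nat_lit 473744357) (dlOf (nat_lit 1) (nat_lit 0x6c004005e0008fa2882))))))))))))

end

end Pool.Agent.Lib.MP_5854e1_co.Cz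

namespace Pool.Agent.Lib.MP_5854e1_co.Cz

noncomputable section

noncomputable def tz81 : DT := (.nd (nat_lit 0) (.nd (nat_lit 5) (.nd (nat_lit 2) (.nd (nat_lit 18) 
(.nd (nat_lit 28) (.nd (nat_lit 6) (.nd (nat_lit 19) (.nd (nat_lit 7) (.nd (nat_lit 20) 
(.nd (nat_lit 21) (.lf (nat_lit 12632080) (dlOf (nat_lit 1) (nat_lit 0x600186d0681))) 
(.lf (nat_lit 23117840) (dlOf (nat_lit 2) (nat_lit 0x540000013c818b60500)))) 
(.lf (nat_lit 15777808) (dlOf (nat_lit 1) (nat_lit 0x1800400040018830202)))) (.nd (nat_lit 26) 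
(.lf (nat_lit 4429236112) (dlOf (nat_lit 1) (nat_lit 0x400200020008004202))) (.nd (nat_lit 29) 
(.lf (nat_lit 6509610896) (dlOf (nat_lit 1) (nat_lit 0x20028004201))) 
(.lf (nat_lit 2751514512) (dlOf (nat_lit 2) (nat_lit 0x4034800038080010008000400200040008004203)))))) 
(.nd (nat_lit 20) (.nd (nat_lit 29) (.nd (nat_lit 32) 
(.lf (nat_lit 67682320) (dlOf (nat_lit 1) (nat_lit 0x2000182d0001))) 
(.lf (nat_lit 4362649616) (dlOf (nat_lit 5) (nat_lit 0xd40640001102001e0320000481001c0190000140800e80c80000804006c004006800080c0102)))) 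
(.nd (nat_lit 9) 
(.lf (nat_lit 2756231184) (dlOf (nat_lit 4) (nat_lit 0x1019c00040820044f04000c067000a02080110810001819c0084204001400400140008220882))) 
(.lf (nat_lit 2752043536) (dlOf (nat_lit 1) (nat_lit 0x3c002800b281))))) (.nd (nat_lit 9) 
(.nd (nat_lit 10) (.lf (nat_lit 3719184) (dlOf (nat_lit 1) (nat_lit 0x80008000400200180008220503))) 
(.lf (nat_lit 39371792) (dlOf (nat_lit 1) (nat_lit 0x8008000c00200020009192883)))) 
(.lf (nat_lit 58245648) (dlOf (nat_lit 2) (nat_lit 0x1652d8000000800200080040002001800097c7b83)))))) 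
(.nd (nat_lit 8) (.nd (nat_lit 19) (.nd (nat_lit 10) (.nd (nat_lit 21) 
(.lf (nat_lit 16826448) (dlOf (nat_lit 2) (nat_lit 0x15b2d00690c5c0320420015c0310002f8488e0200))) 
(.lf (nat_lit 14729296) (dlOf (nat_lit 2) (nat_lit 0xa9bbc0004a04000c00400080018770702)))) 
(.nd (nat_lit 9) 
(.lf (nat_lit 4898997328) (dlOf (nat_lit 1) (nat_lit 0xe00080010002000a0008052883))) 
(.lf (nat_lit 1208010320) (dlOf (nat_lit 1) (nat_lit 0x60018003881))))) (.nd (nat_lit 20) 
(.nd (nat_lit 22) 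
(.lf (nat_lit 67682384) (dlOf (nat_lit 2) (nat_lit 0xa0153007504b8029007803580000005f08000200182d0201))) 
(.lf (nat_lit 2756231248) (dlOf (nat_lit 7) (nat_lit 0x1a00000006404009c0d0005e04200f0011808f00780005a10003c0d000c4063001d021009a80a403cc046024a01e00d400b80390020014c0000002c120048068002f021007b808c047803c0002b080038068002a021007a808c047403c0002a08005206801110118000a4109fc000803d000200960008220d03)))) 
(.nd (nat_lit 9) 
(.lf (nat_lit 2755182672) (dlOf (nat_lit 4) (nat_lit 0x1d40d201040440072012003980800005a1003800d201d20440026021806f80900380040006c01f00015860056022000088080400008000800204420008121003))) 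
(.lf (nat_lit 62442064) (dlOf (nat_lit 1) (nat_lit 0x4004000200099a5282)))))) (.nd (nat_lit 7) 
(.nd (nat_lit 9) (.nd (nat_lit 11) 
(.lf (nat_lit 25739600) (dlOf (nat_lit 1) (nat_lit 0x8008000800200020008c10803))) 
(.lf (nat_lit 4362127696) (dlOf (nat_lit 1) (nat_lit 0x20028004d81)))) 
(.lf (nat_lit 4831890256) (dlOf (nat_lit 1) (nat_lit 0x8008000800200020008055c03)))) 
(.nd (nat_lit 9) (.nd (nat_lit 10) 
(.lf (nat_lit 50905552) (dlOf (nat_lit 1) (nat_lit 0x4002002400094d7b02))) 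
(.lf (nat_lit 19975632) (dlOf (nat_lit 2) (nat_lit 0xb3614001c6040004004000400189d6d02)))) 
(.lf (nat_lit 604034000) (dlOf (nat_lit 1) (nat_lit 0x400200020008009202))))))) (.nd (nat_lit 6) 
(.nd (nat_lit 10) (.nd (nat_lit 26) (.nd (nat_lit 7) (.nd (nat_lit 8) 
(.lf (nat_lit 3494428688) (dlOf (nat_lit 4) (nat_lit 0x1019c0004082009dd04000c067000a02080272410001819c0136c04001400400140008220882))) 
(.lf (nat_lit 1345896720) (dlOf (nat_lit 5) (nat_lit 0x20a9000483ec00481240000e0600040fb0000681000607d8000300800303ec0000004019800400460008e03b02)))) 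
(.nd (nat_lit 8) (.lf (nat_lit 5234543248) (dlOf (nat_lit 1) (nat_lit 0x160008055501))) 
(.lf (nat_lit 3490236816) (dlOf (nat_lit 1) (nat_lit 0x400200020008004e82))))) (.nd (nat_lit 27) 
(.lf (nat_lit 3557343248) (dlOf (nat_lit 2) (nat_lit 0x2701c0000000800480080038002002600081c0483))) 
(.nd (nat_lit 30) (.lf (nat_lit 3154690064) (dlOf (nat_lit 1) (nat_lit 0x40008310001))) 
(.lf (nat_lit 4228431888) (dlOf (nat_lit 5) (nat_lit 0xd40620002702001e0310000f81001c01880006c0800e80c40003404006c004006800080c0102)))))) 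
(.nd (nat_lit 7) (.nd (nat_lit 11) (.nd (nat_lit 19) 
(.lf (nat_lit 4026582032) (dlOf (nat_lit 2) (nat_lit 0x4017000100ac024dc08000800400280008002882))) 
(.lf (nat_lit 1344848912) (dlOf (nat_lit 1) (nat_lit 0x10008000c00200060008982883)))) 
(.lf (nat_lit 402705424) (dlOf (nat_lit 1) (nat_lit 0x2dc00400400008005f82)))) (.nd (nat_lit 8) 
(.lf (nat_lit 1879100560) (dlOf (nat_lit 1) (nat_lit 0x40018006201))) (.nd (nat_lit 30) 
(.lf (nat_lit 805357456) (dlOf (nat_lit 1) (nat_lit 0x400400020008004202))) 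
(.lf (nat_lit 4026582928) (dlOf (nat_lit 1) (nat_lit 0x80018004201))))))) (.nd (nat_lit 27) 
(.nd (nat_lit 8) (.nd (nat_lit 19) (.nd (nat_lit 10) 
(.lf (nat_lit 1881194576) (dlOf (nat_lit 1) (nat_lit 0x260028e40701))) 
(.lf (nat_lit 5100323920) (dlOf (nat_lit 1) (nat_lit 0x8008000800200020008052883)))) 
(.nd (nat_lit 20) 
(.lf (nat_lit 3494428752) (dlOf (nat_lit 7) (nat_lit 0x1a00000006204009c0d0005e04200f0011808f00780005810003c0d000c4063001d021009a80a403cc046024a01e00d400b80390020014c0000002b120048068002f021007b808c047803c0002a080038068002a021007a808c047403c0002908005206801110118000a0109fc000803d000200960008220d03))) 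
(.lf (nat_lit 3493380176) (dlOf (nat_lit 4) (nat_lit 0x1d40d20104044007201200398080000581003800d201d20440026021806f80900380040006c01f00015060056022000088080400008000800204420008121003))))) 
(.nd (nat_lit 7) (.nd (nat_lit 26) 
(.lf (nat_lit 6174067536) (dlOf (nat_lit 1) (nat_lit 0x400400020008055c02))) 
(.lf (nat_lit 5704305488) (dlOf (nat_lit 1) (nat_lit 0x400400020008055c02)))) (.nd (nat_lit 10) 
(.lf (nat_lit 5704305616) (dlOf (nat_lit 1) (nat_lit 0x2800400040008055d82))) 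
(.lf (nat_lit 4026582992) (dlOf (nat_lit 1) (nat_lit 0x100018004501)))))) (.nd (nat_lit 10) 
(.nd (nat_lit 31) (.nd (nat_lit 8) 
(.lf (nat_lit 474529872) (dlOf (nat_lit 1) (nat_lit 0x600091a0701))) 
(.lf (nat_lit 5234543440) (dlOf (nat_lit 1) (nat_lit 0x18800800f800200400008055c03)))) 
(.nd (nat_lit 7) 
(.lf (nat_lit 3154690128) (dlOf (nat_lit 17) (nat_lit 0x40e06401410300034816407e409804720330111018800380b8019805604aa016011100a0111001409680000005f18053e02c0002c8102b50160001540815e00b0000a8040aa40580005302055a02c000290102b40160001440815400b0000a00406280580004d02054602c000260102c001600012c0815780b00009404002c0700003302002c0380001801000901c0000bc0800500b00000004006400401980018310202))) 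
(.lf (nat_lit 3154690256) (dlOf (nat_lit 2) (nat_lit 0x2602c00048018310500))))) (.nd (nat_lit 7) 
(.nd (nat_lit 9) (.lf (nat_lit 6308283472) (dlOf (nat_lit 1) (nat_lit 0x400400020018052882))) 
(.lf (nat_lit 6375392848) (dlOf (nat_lit 1) (nat_lit 0x400400020008003882)))) 
(.lf (nat_lit 6308283856) (dlOf (nat_lit 1) (nat_lit 0x20008053601)))))))) (.nd (nat_lit 6) 
(.nd (nat_lit 26) (.nd (nat_lit 28) (.nd (nat_lit 7) (.nd (nat_lit 22) (.nd (nat_lit 27) 
(.nd (nat_lit 20) 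
(.lf (nat_lit 2684665872) (dlOf (nat_lit 5) (nat_lit 0x880ac0008c0400cc064004602b0001b02002a019001080ac0002a080004000000000200480028130101))) 
(.lf (nat_lit 1359888) (dlOf (nat_lit 1) (nat_lit 0x4002000200080b0482)))) (.nd (nat_lit 29) 
(.lf (nat_lit 134529040) (dlOf (nat_lit 1) (nat_lit 0x860018060481))) 
(.lf (nat_lit 6040109072) (dlOf (nat_lit 2) (nat_lit 0xd808400336040008004000400080f0482))))) 
(.nd (nat_lit 19) 
(.lf (nat_lit 12894224) (dlOf (nat_lit 6) (nat_lit 0xbd494000aa3c00055140009a4c00005020008d4940016a3c00095140008a4c00001420007d494000ea3c000d5140007a4c00001020009d4940036a3c0013514000ba4c00000c200145494004aa3c002b5140015a4c0000082000400080008002000e00086e0503))) 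
(.lf (nat_lit 21807120) (dlOf (nat_lit 1) (nat_lit 0x6780080110002002c0008a70483))))) 
(.nd (nat_lit 9) (.nd (nat_lit 19) 
(.lf (nat_lit 35965328) (dlOf (nat_lit 1) (nat_lit 0x20019014e81))) 
(.lf (nat_lit 33343888) (dlOf (nat_lit 1) (nat_lit 0x40028f54e81)))) 
(.lf (nat_lit 313232) (dlOf (nat_lit 1) (nat_lit 0x20028004201))))) (.nd (nat_lit 29) 
(.nd (nat_lit 27) (.nd (nat_lit 19) 
(.lf (nat_lit 4563714064) (dlOf (nat_lit 2) (nat_lit 0x10170057800800300080050002002400080c0003))) 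
(.lf (nat_lit 3492593680) (dlOf (nat_lit 3) (nat_lit 0x7287e80007604002c4680003802000400180e0101)))) 
(.nd (nat_lit 10) 
(.lf (nat_lit 4697931792) (dlOf (nat_lit 2) (nat_lit 0x1017005cf80800300080050002002400080c0003))) 
(.lf (nat_lit 5771676688) (dlOf (nat_lit 1) (nat_lit 0xe0008000400200360008005f83))))) 
(.nd (nat_lit 30) (.nd (nat_lit 31) 
(.lf (nat_lit 805617680) (dlOf (nat_lit 1) (nat_lit 0x8008000400200020008140a03))) 
(.lf (nat_lit 2953101328) (dlOf (nat_lit 2) (nat_lit 0x1180b4000be04002400200040008120202)))) 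
(.nd (nat_lit 27) 
(.lf (nat_lit 1879359504) (dlOf (nat_lit 1) (nat_lit 0x16400080d88002070800080f0103))) 
(.lf (nat_lit 4161060880) (dlOf (nat_lit 1) (nat_lit 0x80080004002000200080f0383))))))) 
(.nd (nat_lit 29) (.nd (nat_lit 20) (.nd (nat_lit 27) (.nd (nat_lit 31) 
(.lf (nat_lit 4362387472) (dlOf (nat_lit 1) (nat_lit 0x60018050481))) 
(.lf (nat_lit 2214903824) (dlOf (nat_lit 1) (nat_lit 0xc00400040008110102)))) (.nd (nat_lit 30) 
(.nd (nat_lit 31) (.lf (nat_lit 201637904) (dlOf (nat_lit 1) (nat_lit 0x860018060481))) 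
(.lf (nat_lit 2349121552) (dlOf (nat_lit 1) (nat_lit 0x280004000200080c0982)))) 
(.lf (nat_lit 3422863376) (dlOf (nat_lit 5) (nat_lit 0x6280cc036c0580004a0400d0033007e01600010c101aa00cc0e9005800041040aca032021e01580028064000760c0dd400400760018130102))))) 
(.nd (nat_lit 8) (.nd (nat_lit 19) 
(.lf (nat_lit 471121936) (dlOf (nat_lit 1) (nat_lit 0x18002000a0008270282))) 
(.lf (nat_lit 473743376) (dlOf (nat_lit 1) (nat_lit 0xa0018fa0001)))) 
(.lf (nat_lit 473744656) (dlOf (nat_lit 10) (nat_lit 0x25057c011c1ae00c609b00670458000e42002f057c00082bc00ba0d7003304d8000e02002c857c00301ae000370400ba15f005a06b8037026c01cc1160003608009815f004c06b80009810032857c01681ae000240400b415f005806b80008c1002a857c01541ae000220400fa160008506c803e0270020c11a0000008003a0028fa3001))))) 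
(.nd (nat_lit 27) (.nd (nat_lit 19) (.nd (nat_lit 30) 
(.lf (nat_lit 604291088) (dlOf (nat_lit 1) (nat_lit 0xa0028130281))) 
(.lf (nat_lit 1678032912) (dlOf (nat_lit 1) (nat_lit 0x8008000400200020008140a03)))) 
(.lf (nat_lit 2754396176) (dlOf (nat_lit 3) (nat_lit 0x72883c0007604002c4980003802000400180e0101)))) 
(.nd (nat_lit 9) (.nd (nat_lit 30) 
(.lf (nat_lit 1006944272) (dlOf (nat_lit 1) (nat_lit 0x16400080d88002070800080f0103))) 
(.lf (nat_lit 4228169744) (dlOf (nat_lit 1) (nat_lit 0x60018050481)))) 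
(.lf (nat_lit 3959734800) (dlOf (nat_lit 1) (nat_lit 0xc00200160008128402))))))) (.nd (nat_lit 8) 
(.nd (nat_lit 23) (.nd (nat_lit 27) (.nd (nat_lit 9) (.nd (nat_lit 26) 
(.lf (nat_lit 268746832) (dlOf (nat_lit 1) (nat_lit 0x40028120501))) 
(.lf (nat_lit 872726608) (dlOf (nat_lit 1) (nat_lit 0x2a00080b0681)))) 
(.lf (nat_lit 314960) (dlOf (nat_lit 1) (nat_lit 0x20028007181)))) (.nd (nat_lit 7) 
(.nd (nat_lit 26) (.lf (nat_lit 1745141840) (dlOf (nat_lit 1) (nat_lit 0x2a00080b0681))) 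
(.lf (nat_lit 2349121616) (dlOf (nat_lit 1) (nat_lit 0x180080004002000200080c1903)))) 
(.lf (nat_lit 5772199120) (dlOf (nat_lit 2) (nat_lit 0x380a00006204000800200020008092d82))))) 
(.nd (nat_lit 20) (.nd (nat_lit 19) 
(.lf (nat_lit 29671504) (dlOf (nat_lit 2) (nat_lit 0x18e9d40002f818e30200))) (.nd (nat_lit 22) 
(.lf (nat_lit 42778704) (dlOf (nat_lit 1) (nat_lit 0xa0019280701))) 
(.lf (nat_lit 13418576) (dlOf (nat_lit 1) (nat_lit 0x4000800c0002006c0008721903))))) 
(.nd (nat_lit 9) (.nd (nat_lit 24) 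
(.lf (nat_lit 9748560) (dlOf (nat_lit 1) (nat_lit 0x10008019c002002c0008580503))) 
(.lf (nat_lit 26525776) (dlOf (nat_lit 5) (nat_lit 0x566c200009808032b610024990c000250400e4987000100100016430000600800c8008000c00200140008c50703)))) 
(.lf (nat_lit 49597008) (dlOf (nat_lit 1) (nat_lit 0x20009465281)))))) (.nd (nat_lit 10) 
(.nd (nat_lit 26) (.nd (nat_lit 21) 
(.lf (nat_lit 5905891664) (dlOf (nat_lit 1) (nat_lit 0x800400020008154d82))) 
(.lf (nat_lit 23380304) (dlOf (nat_lit 2) (nat_lit 0xa50d40009404021000400300008b80602)))) 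
(.nd (nat_lit 7) (.lf (nat_lit 3959734608) (dlOf (nat_lit 1) (nat_lit 0x5800400060018124d82))) 
(.lf (nat_lit 6509871568) (dlOf (nat_lit 2) (nat_lit 0x500b80291c080138008009000200240008157103))))) 
(.nd (nat_lit 7) (.nd (nat_lit 19) 
(.lf (nat_lit 56935760) (dlOf (nat_lit 4) (nat_lit 0xa2f6800217b000054080010bdc0002202003e5e900142198000401002e8008000800200040009793303))) 
(.lf (nat_lit 50120016) (dlOf (nat_lit 1) (nat_lit 0x8004000200094c3302)))) 
(.lf (nat_lit 19715536) (dlOf (nat_lit 1) (nat_lit 0x8004000200189d9b02)))))))) (.nd (nat_lit 28) 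
(.nd (nat_lit 8) (.nd (nat_lit 18) (.nd (nat_lit 6) (.nd (nat_lit 19) (.nd (nat_lit 7) 
(.nd (nat_lit 9) (.lf (nat_lit 1097748) (dlOf (nat_lit 1) (nat_lit 0x20008070401))) 
(.lf (nat_lit 536926740) (dlOf (nat_lit 1) (nat_lit 0x26e000800b281)))) 
(.lf (nat_lit 1811988628) (dlOf (nat_lit 1) (nat_lit 0x200280b0181)))) (.nd (nat_lit 20) 
(.nd (nat_lit 9) (.nd (nat_lit 22) 
(.lf (nat_lit 4362649620) (dlOf (nat_lit 2) (nat_lit 0x1b027801480c800180620002c06002c00080c0181))) 
(.lf (nat_lit 4767764) (dlOf (nat_lit 1) (nat_lit 0xb8008000c002000200082b0083)))) 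
(.lf (nat_lit 40421908) (dlOf (nat_lit 1) (nat_lit 0x10004000a00091f5082)))) (.nd (nat_lit 21) 
(.lf (nat_lit 1622036) (dlOf (nat_lit 1) (nat_lit 0x400400160018100402))) 
(.lf (nat_lit 3719188) (dlOf (nat_lit 2) (nat_lit 0x1c97a0002e0200020028220581)))))) 
(.nd (nat_lit 19) (.nd (nat_lit 23) (.nd (nat_lit 9) 
(.lf (nat_lit 4831887444) (dlOf (nat_lit 1) (nat_lit 0x60028050001))) 
(.lf (nat_lit 6106957396) (dlOf (nat_lit 1) (nat_lit 0x100018003881)))) (.nd (nat_lit 21) 
(.lf (nat_lit 25215060) (dlOf (nat_lit 1) (nat_lit 0x1000400080008bf0d82))) 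
(.lf (nat_lit 10534996) (dlOf (nat_lit 1) (nat_lit 0x400285f1701))))) (.nd (nat_lit 20) 
(.nd (nat_lit 22) 
(.lf (nat_lit 67682388) (dlOf (nat_lit 2) (nat_lit 0xc02960000002000a00282d0281))) 
(.lf (nat_lit 2756231252) (dlOf (nat_lit 1) (nat_lit 0x20018220d81)))) 
(.lf (nat_lit 2755182676) (dlOf (nat_lit 1) (nat_lit 0x2900080044002000e0008121083)))))) 
(.nd (nat_lit 23) (.nd (nat_lit 29) (.nd (nat_lit 6) (.nd (nat_lit 7) 
(.lf (nat_lit 2282012692) (dlOf (nat_lit 5) (nat_lit 0x48044000500400240220002702001201100012810006008800090080068008004c002001a0008100383))) 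
(.lf (nat_lit 3457172) (dlOf (nat_lit 1) (nat_lit 0x14000400380008200182)))) 
(.lf (nat_lit 1208270932) (dlOf (nat_lit 3) (nat_lit 0x25012802a00600120022007a0080001684000e01380005c08002000800b8002002600080b0683)))) 
(.nd (nat_lit 6) (.nd (nat_lit 7) 
(.lf (nat_lit 2754396180) (dlOf (nat_lit 3) (nat_lit 0x202107800118080c7083c0008a040018004000a00080e0182))) 
(.lf (nat_lit 671400084) (dlOf (nat_lit 1) (nat_lit 0x40028184001)))) 
(.lf (nat_lit 1745141844) (dlOf (nat_lit 20) (nat_lit 0xd900000013c0806e0000000980402b80000004b020136036008c018801f8064000900c026406c0116031003600c80011c1800200d80024032000450401320360086018804b8064000880c027c06c0118031009f00c80010c1804480d801ec0620124022000100c804b00500008414007806c0004102012003600840188041806402d0000000400801380360092018804400640007c0c00b80320003d02012c036008b018804a8064000780c014806c0044019004f0000000ec1804800d80200062011201900b50000000e02006c00000006a0402b800000034020134036007f018804e0064000660c0024004000800180b0682)))))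 
(.nd (nat_lit 20) (.nd (nat_lit 19) 
(.lf (nat_lit 12894228) (dlOf (nat_lit 6) (nat_lit 0x2a8f0001d260002d808000aa4a000351e0005a8a000252600000e10000ea4a000951e0006a8a000352600000c100016a4a000751e0006a8a0003d26000008100016a4a000d51e0006a8a0003d26000002100010004000600086e0582))) 
(.lf (nat_lit 11321364) (dlOf (nat_lit 1) (nat_lit 0x20028690201)))) (.nd (nat_lit 6) 
(.nd (nat_lit 21) 
(.lf (nat_lit 26525716) (dlOf (nat_lit 4) (nat_lit 0x22fb0a001ff020071d85000fe81002b0000007f00801b800802f0002008c0008c50083))) 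
(.lf (nat_lit 62177300) (dlOf (nat_lit 1) (nat_lit 0x10004002a0009970182)))) 
(.lf (nat_lit 26525780) (dlOf (nat_lit 2) (nat_lit 0x2cec28000ac080010008000400200400008c50783))))))) 
(.nd (nat_lit 7) (.nd (nat_lit 9) (.nd (nat_lit 11) (.nd (nat_lit 6) 
(.lf (nat_lit 8442132) (dlOf (nat_lit 1) (nat_lit 0xc0018518081))) (.nd (nat_lit 19) 
(.lf (nat_lit 11845972) (dlOf (nat_lit 1) (nat_lit 0x200186c0681))) 
(.lf (nat_lit 4362912084) (dlOf (nat_lit 1) (nat_lit 0x400281a0681))))) (.nd (nat_lit 6) 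
(.lf (nat_lit 3288386836) (dlOf (nat_lit 3) (nat_lit 0xe02b000098100060158000480802b8008011000200580008006703))) 
(.nd (nat_lit 10) (.lf (nat_lit 2885994836) (dlOf (nat_lit 1) (nat_lit 0x6e0028144e01))) 
(.lf (nat_lit 19979604) (dlOf (nat_lit 1) (nat_lit 0x8800189dc901)))))) (.nd (nat_lit 10) 
(.nd (nat_lit 6) (.nd (nat_lit 11) 
(.lf (nat_lit 6643827476) (dlOf (nat_lit 1) (nat_lit 0x800400020008002102))) 
(.lf (nat_lit 4831890196) (dlOf (nat_lit 1) (nat_lit 0x400400020008055b82)))) 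
(.lf (nat_lit 4831890260) (dlOf (nat_lit 1) (nat_lit 0x9000800e8002004a0008055c03)))) 
(.nd (nat_lit 18) (.nd (nat_lit 27) 
(.lf (nat_lit 2751514388) (dlOf (nat_lit 2) (nat_lit 0x13c04600ae01e00011828003c00))) 
(.lf (nat_lit 201377556) (dlOf (nat_lit 2) (nat_lit 0xbc041006f01e800380e0000460c001400200040008003c02)))) 
(.lf (nat_lit 2751776532) (dlOf (nat_lit 1) (nat_lit 0x60008003c01)))))) (.nd (nat_lit 6) 
(.nd (nat_lit 29) (.nd (nat_lit 10) 
(.lf (nat_lit 4295018900) (dlOf (nat_lit 1) (nat_lit 0xa0018004e81))) (.nd (nat_lit 20) 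
(.lf (nat_lit 2147534228) (dlOf (nat_lit 2) (nat_lit 0x1c000000a8818003600))) 
(.lf (nat_lit 61916564) (dlOf (nat_lit 1) (nat_lit 0x14004000a0009923602))))) (.nd (nat_lit 9) 
(.nd (nat_lit 26) (.lf (nat_lit 3892364692) (dlOf (nat_lit 2) (nat_lit 0x3a03f000e2818083600))) 
(.lf (nat_lit 738248084) (dlOf (nat_lit 2) (nat_lit 0x2000000e1818003600)))) 
(.lf (nat_lit 4831890324) (dlOf (nat_lit 1) (nat_lit 0x20018055c81))))) (.nd (nat_lit 27) 
(.nd (nat_lit 10) (.lf (nat_lit 3221537236) (dlOf (nat_lit 2) (nat_lit 0x1c00000249018127100))) 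
(.lf (nat_lit 4898997716) (dlOf (nat_lit 1) (nat_lit 0x18008002c002000e0008053603)))) 
(.nd (nat_lit 9) (.nd (nat_lit 30) 
(.lf (nat_lit 4496344532) (dlOf (nat_lit 1) (nat_lit 0x80080030002000c0008053603))) 
(.lf (nat_lit 5570086356) (dlOf (nat_lit 1) (nat_lit 0x20008000c00200020008053603)))) 
(.lf (nat_lit 2348861396) (dlOf (nat_lit 1) (nat_lit 0x400400500008004502)))))))) (.nd (nat_lit 6) 
(.nd (nat_lit 29) (.nd (nat_lit 18) (.nd (nat_lit 26) (.nd (nat_lit 10) 
(.lf (nat_lit 1343275028) (dlOf (nat_lit 2) (nat_lit 0x10d68017d40800180080010002000800081e0483))) 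
(.lf (nat_lit 268485652) (dlOf (nat_lit 1) (nat_lit 0xc0018052881)))) (.nd (nat_lit 8) 
(.lf (nat_lit 3557343252) (dlOf (nat_lit 2) (nat_lit 0x24038000000181c0480))) 
(.lf (nat_lit 5704305428) (dlOf (nat_lit 1) (nat_lit 0x400400020008055b82))))) (.nd (nat_lit 19) 
(.nd (nat_lit 26) (.nd (nat_lit 20) 
(.lf (nat_lit 1342488596) (dlOf (nat_lit 1) (nat_lit 0x50008000400200100008040483))) 
(.lf (nat_lit 1343537172) (dlOf (nat_lit 1) (nat_lit 0x600080058002000c0008290483)))) 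
(.nd (nat_lit 7) 
(.lf (nat_lit 470073364) (dlOf (nat_lit 1) (nat_lit 0x50008000400200100008040483))) 
(.lf (nat_lit 1543815316) (dlOf (nat_lit 1) (nat_lit 0x40028184001))))) (.nd (nat_lit 20) 
(.lf (nat_lit 3492593684) (dlOf (nat_lit 3) (nat_lit 0x2020fd000118080c707e80008a040018004000a00080e0182))) 
(.lf (nat_lit 1344061460) (dlOf (nat_lit 1) (nat_lit 0x4002000200083b0482)))))) (.nd (nat_lit 30) 
(.nd (nat_lit 27) (.nd (nat_lit 7) (.nd (nat_lit 18) 
(.lf (nat_lit 805879828) (dlOf (nat_lit 6) (nat_lit 0x5e0168000bc08033014801c008a00cc02d006e016003e005c0005814027805a0002b02002202d000038100200168000000806f80080004002000200081d0283))) 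
(.lf (nat_lit 2953101332) (dlOf (nat_lit 15) (nat_lit 0x6a023015900d0005004c04b800400028080016023014b00d00ab00080004c0c015005c00e602a0068013801b0084015403c00960180000e06008c017005580a8026004e00be021008600f003400600003618021405c012e02a007a013802b808401d803c00e80180000c060076017004800a801b804e00c4021007600f002f00600002e1801d805c011c02a007c0138025008401b803c00c40180000a060095017004f80a801b404e010602100a100f003c00600002618006405c00560270060010804200780034030000100a00640270011010801700780001c0c01dc05c00a602700420108043807801a003400580180000606006300a009380180000a08015002802360060000182009301480368080022402e00620140066008804300180000018005c00400180008120302)))) 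
(.lf (nat_lit 5100323988) (dlOf (nat_lit 1) (nat_lit 0x40018052b81)))) (.nd (nat_lit 11) 
(.nd (nat_lit 7) (.lf (nat_lit 3154427924) (dlOf (nat_lit 1) (nat_lit 0x2a0018170381))) 
(.lf (nat_lit 939573396) (dlOf (nat_lit 1) (nat_lit 0x200280b0181)))) (.nd (nat_lit 8) 
(.lf (nat_lit 5301652500) (dlOf (nat_lit 1) (nat_lit 0x400200020008005f82))) 
(.lf (nat_lit 5234543380) (dlOf (nat_lit 1) (nat_lit 0x400400020008055b82)))))) (.nd (nat_lit 7) 
(.nd (nat_lit 9) (.nd (nat_lit 18) 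
(.lf (nat_lit 4228431892) (dlOf (nat_lit 2) (nat_lit 0x17009001280310060018000580500005810014400400be00080c0282))) 
(.lf (nat_lit 1879359508) (dlOf (nat_lit 1) (nat_lit 0x2a00280f0281)))) (.nd (nat_lit 8) 
(.lf (nat_lit 4026587668) (dlOf (nat_lit 1) (nat_lit 0x44001800b281))) 
(.lf (nat_lit 6174067476) (dlOf (nat_lit 1) (nat_lit 0x400400020008055b82))))) (.nd (nat_lit 8) 
(.lf (nat_lit 4094741140) (dlOf (nat_lit 3) (nat_lit 0x100fe0000f81000107e80006c0800c8008002000200060008055503))) 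
(.nd (nat_lit 9) (.lf (nat_lit 1879099796) (dlOf (nat_lit 1) (nat_lit 0x160018004e81))) 
(.lf (nat_lit 4026582932) (dlOf (nat_lit 1) (nat_lit 0x1a0018004201)))))))) (.nd (nat_lit 8) 
(.nd (nat_lit 26) (.nd (nat_lit 19) (.nd (nat_lit 7) (.nd (nat_lit 10) 
(.lf (nat_lit 6174064724) (dlOf (nat_lit 1) (nat_lit 0x400400020008050002))) 
(.lf (nat_lit 2952844372) (dlOf (nat_lit 1) (nat_lit 0x1c00400040008009302)))) (.nd (nat_lit 10) 
(.lf (nat_lit 4026583252) (dlOf (nat_lit 1) (nat_lit 0x400200160008004a02))) 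
(.lf (nat_lit 5100324052) (dlOf (nat_lit 2) (nat_lit 0x40000003b0200020018052d81))))) 
(.nd (nat_lit 18) (.nd (nat_lit 20) 
(.lf (nat_lit 3494428756) (dlOf (nat_lit 1) (nat_lit 0x20018220d81))) 
(.lf (nat_lit 3493380180) (dlOf (nat_lit 1) (nat_lit 0x2900080044002000e0008121083)))) 
(.lf (nat_lit 5773246548) (dlOf (nat_lit 2) (nat_lit 0x1801e000168180b0680))))) (.nd (nat_lit 27) 
(.nd (nat_lit 18) 
(.lf (nat_lit 5704302676) (dlOf (nat_lit 1) (nat_lit 0x8008000400200020008050003))) 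
(.nd (nat_lit 29) 
(.lf (nat_lit 2483339348) (dlOf (nat_lit 3) (nat_lit 0x28202a019f01400009c1000d00a000000040128002000200080c1602))) 
(.lf (nat_lit 872726612) (dlOf (nat_lit 20) (nat_lit 0xd900000013c0806e0000000980402b80000004b020136036008c018801f8064000900c026406c0116031003600c80011c1800200d80024032000450401320360086018804b8064000880c027c06c0118031009f00c80010c1804480d801ec0620124022000100c804b00500008414007806c0004102012003600840188041806402d0000000400801380360092018804400640007c0c00b80320003d02012c036008b018804a8064000780c014806c0044019004f0000000ec1804800d80200062011201900b50000000e02006c00000006a0402b800000034020134036007f018804e0064000660c0024004000800180b0682))))) 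
(.nd (nat_lit 18) 
(.lf (nat_lit 3154690132) (dlOf (nat_lit 4) (nat_lit 0x11c060008e02a0004812800980620074015008e00a000f0010000801c06580c80334060002702c80318150070009803f0033004f018800100b80044056002402801f100b00d80014060c000000361a02b806401d703000f581500624098003404a0207019809180c4000c05c043001601d400a001b8008000002c000c00400500018310282))) 
(.nd (nat_lit 19) 
(.lf (nat_lit 2080686164) (dlOf (nat_lit 3) (nat_lit 0x25012802a00600120022007a0080001684000e01380005c08002000800b8002002600080b0683))) 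
(.lf (nat_lit 6377226324) (dlOf (nat_lit 2) (nat_lit 0x1801e000168180b0680))))))) (.nd (nat_lit 9) 
(.nd (nat_lit 10) (.nd (nat_lit 18) (.nd (nat_lit 26) 
(.lf (nat_lit 1342751060) (dlOf (nat_lit 1) (nat_lit 0x200280c0681))) 
(.lf (nat_lit 470335828) (dlOf (nat_lit 1) (nat_lit 0x200280c0681)))) 
(.lf (nat_lit 4228694356) (dlOf (nat_lit 1) (nat_lit 0x400281a0681)))) (.nd (nat_lit 7) 
(.nd (nat_lit 26) (.lf (nat_lit 1342233940) (dlOf (nat_lit 1) (nat_lit 0x2c001800c901))) 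
(.lf (nat_lit 4227915092) (dlOf (nat_lit 1) (nat_lit 0x46001800c901)))) (.nd (nat_lit 27) 
(.lf (nat_lit 5100324308) (dlOf (nat_lit 1) (nat_lit 0x48008005400200240008053603))) 
(.lf (nat_lit 6308283860) (dlOf (nat_lit 1) (nat_lit 0x80080020002000c0008053603)))))) 
(.nd (nat_lit 32) (.nd (nat_lit 7) (.nd (nat_lit 26) 
(.lf (nat_lit 1342233428) (dlOf (nat_lit 1) (nat_lit 0x364004030c000800bc82))) 
(.lf (nat_lit 4227914580) (dlOf (nat_lit 2) (nat_lit 0x8500c8016020400040040016001800bc82)))) 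
(.lf (nat_lit 4026582996) (dlOf (nat_lit 1) (nat_lit 0x50008002800200360008004503)))) 
(.nd (nat_lit 7) (.nd (nat_lit 27) 
(.lf (nat_lit 6174067540) (dlOf (nat_lit 1) (nat_lit 0xb800800a800200d20008055c03))) 
(.lf (nat_lit 5234543444) (dlOf (nat_lit 1) (nat_lit 0x1800800d000201480008055c03)))) 
(.lf (nat_lit 5704305620) (dlOf (nat_lit 1) (nat_lit 0x20028055d81)))))))))) (.nd (nat_lit 18) 
(.nd (nat_lit 2) (.nd (nat_lit 6) (.nd (nat_lit 29) (.nd (nat_lit 19) (.nd (nat_lit 20) 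
(.nd (nat_lit 8) (.nd (nat_lit 21) (.nd (nat_lit 30) 
(.lf (nat_lit 4496343088) (dlOf (nat_lit 1) (nat_lit 0x20008050001))) 
(.lf (nat_lit 5570084912) (dlOf (nat_lit 1) (nat_lit 0x8008001800200020008050003)))) 
(.lf (nat_lit 23117872) (dlOf (nat_lit 2) (nat_lit 0x14c1b00007818b60900)))) (.nd (nat_lit 7) 
(.lf (nat_lit 8439600) (dlOf (nat_lit 1) (nat_lit 0xa0008513d81))) 
(.lf (nat_lit 8439216) (dlOf (nat_lit 1) (nat_lit 0x400200020008513602))))) (.nd (nat_lit 24) 
(.nd (nat_lit 22) 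
(.lf (nat_lit 1343275056) (dlOf (nat_lit 1) (nat_lit 0x80080008002000200081e0703))) 
(.lf (nat_lit 5292080) (dlOf (nat_lit 1) (nat_lit 0x2c0018340981)))) (.nd (nat_lit 7) 
(.lf (nat_lit 17874992) (dlOf (nat_lit 1) (nat_lit 0x800018900b81))) 
(.lf (nat_lit 19972784) (dlOf (nat_lit 1) (nat_lit 0x178002004c00089d1d82)))))) (.nd (nat_lit 7) 
(.nd (nat_lit 21) (.nd (nat_lit 24) 
(.lf (nat_lit 3494428720) (dlOf (nat_lit 3) (nat_lit 0x2811c0000804003808e000030200060008220b01))) 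
(.lf (nat_lit 21545008) (dlOf (nat_lit 2) (nat_lit 0x214500015818a40380)))) (.nd (nat_lit 9) 
(.lf (nat_lit 23642160) (dlOf (nat_lit 1) (nat_lit 0xa0028b80001))) 
(.lf (nat_lit 20500016) (dlOf (nat_lit 1) (nat_lit 0x28004000200089d7182))))) (.nd (nat_lit 8) 
(.nd (nat_lit 21) 
(.lf (nat_lit 1346946224) (dlOf (nat_lit 3) (nat_lit 0x2c24e00160340002f820001093800174080008008000c002000e0009102c03))) 
(.lf (nat_lit 1344849072) (dlOf (nat_lit 5) (nat_lit 0x16160000904e0001c81000802340005a0400042c00002b020012160000704e0000001000b0008000c002002c0008982c03)))) 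
(.lf (nat_lit 58245552) (dlOf (nat_lit 1) (nat_lit 0x200197c6e81)))))) (.nd (nat_lit 10) 
(.nd (nat_lit 19) (.nd (nat_lit 27) (.nd (nat_lit 26) 
(.lf (nat_lit 5100322864) (dlOf (nat_lit 1) (nat_lit 0x20028050001))) 
(.lf (nat_lit 4898996272) (dlOf (nat_lit 1) (nat_lit 0x400400020008050002)))) (.nd (nat_lit 28) 
(.lf (nat_lit 6039846960) (dlOf (nat_lit 1) (nat_lit 0x800400020008000002))) 
(.lf (nat_lit 6308282416) (dlOf (nat_lit 1) (nat_lit 0x20008050001))))) (.nd (nat_lit 7) 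
(.nd (nat_lit 8) 
(.lf (nat_lit 2756231216) (dlOf (nat_lit 3) (nat_lit 0x2811c0000804003808e000030200060008220b01))) 
(.lf (nat_lit 3154690352) (dlOf (nat_lit 2) (nat_lit 0x1602c00000018310700)))) 
(.lf (nat_lit 3154690224) (dlOf (nat_lit 5) (nat_lit 0x6805800a8602007a0180053c01001500c801e8060014cc08023002c002c01400517028310480))))) 
(.nd (nat_lit 7) (.nd (nat_lit 8) (.nd (nat_lit 20) 
(.lf (nat_lit 2885733936) (dlOf (nat_lit 6) (nat_lit 0x8680b8044405a018802400fd00d007d8060015802e01f401401130088061802c02f000c021200200580008001606008200b8041805a018202400f800d00788060014c02e01de01401090088060802c02c000c020c002005400080015c6011380c404e405e01aa0000002a83022d01880a180bc0430020006200a00dd000000150280d380c4000a20400b400400180018007182))) 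
(.lf (nat_lit 2754661936) (dlOf (nat_lit 4) (nat_lit 0x5100e8001500802a8074000a204000804001d201f000270280f7180)))) 
(.lf (nat_lit 4026582832) (dlOf (nat_lit 1) (nat_lit 0x50008002800200340008003d83)))) 
(.nd (nat_lit 9) (.nd (nat_lit 26) 
(.lf (nat_lit 3892364720) (dlOf (nat_lit 1) (nat_lit 0x1400400020008083602))) 
(.lf (nat_lit 4898997680) (dlOf (nat_lit 2) (nat_lit 0xc0380008e0200020018053601)))) 
(.lf (nat_lit 4026582960) (dlOf (nat_lit 1) (nat_lit 0xe800801f8002006e0008004383))))))) 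
(.nd (nat_lit 7) (.nd (nat_lit 11) (.nd (nat_lit 8) (.nd (nat_lit 9) (.nd (nat_lit 20) 
(.lf (nat_lit 1346420848) (dlOf (nat_lit 11) (nat_lit 0x14152000c0a7800503dc0009c0c00282a4001a14f000a07b8001341800084540009204002c2a4001814f000a07b80030000000861000282a4001814f000907b800108180028454000800400282a4001814f000b07b800303c80007c1000202a4001814f000a07b8000f01800185480007604001c2a4000a14f001408a8000dc180068008001c00200020008f60183))) 
(.lf (nat_lit 47235184) (dlOf (nat_lit 1) (nat_lit 0x100080008002000400093c0d03)))) 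
(.lf (nat_lit 5100324464) (dlOf (nat_lit 1) (nat_lit 0x400200020008053982)))) (.nd (nat_lit 19) 
(.lf (nat_lit 11583856) (dlOf (nat_lit 1) (nat_lit 0x200286c0781))) (.nd (nat_lit 20) 
(.lf (nat_lit 5771936112) (dlOf (nat_lit 2) (nat_lit 0x1200000182204002c002005c0008017602))) 
(.lf (nat_lit 4095263088) (dlOf (nat_lit 2) (nat_lit 0x2800000b040200140018085801)))))) 
(.nd (nat_lit 19) (.nd (nat_lit 8) 
(.lf (nat_lit 3623929968) (dlOf (nat_lit 2) (nat_lit 0x12805c001c01b002d00c0000d01800900080078002003e0008004783))) 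
(.nd (nat_lit 22) (.lf (nat_lit 3154168176) (dlOf (nat_lit 1) (nat_lit 0x60028084e81))) 
(.lf (nat_lit 37800304) (dlOf (nat_lit 1) (nat_lit 0x80080004002000200090d4e83))))) 
(.nd (nat_lit 20) (.nd (nat_lit 21) 
(.lf (nat_lit 46713200) (dlOf (nat_lit 1) (nat_lit 0x98008004c00200160009384e83))) 
(.lf (nat_lit 69781872) (dlOf (nat_lit 1) (nat_lit 0x1800400020008c74e82)))) 
(.lf (nat_lit 37276016) (dlOf (nat_lit 1) (nat_lit 0x2000090d4e81)))))) (.nd (nat_lit 8) 
(.nd (nat_lit 19) (.nd (nat_lit 9) (.nd (nat_lit 12) 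
(.lf (nat_lit 19972336) (dlOf (nat_lit 1) (nat_lit 0x120002002c00089d0a82))) 
(.lf (nat_lit 8442096) (dlOf (nat_lit 1) (nat_lit 0x60018518081)))) (.nd (nat_lit 12) 
(.lf (nat_lit 2751514352) (dlOf (nat_lit 1) (nat_lit 0x40028003b01))) 
(.lf (nat_lit 2952845040) (dlOf (nat_lit 1) (nat_lit 0x10002800a001))))) (.nd (nat_lit 20) 
(.lf (nat_lit 474530032) (dlOf (nat_lit 1) (nat_lit 0x4600291a1e81))) (.nd (nat_lit 21) 
(.lf (nat_lit 14205168) (dlOf (nat_lit 1) (nat_lit 0x20028750701))) 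
(.lf (nat_lit 1345896688) (dlOf (nat_lit 2) (nat_lit 0x10e000519c080028008000800200040008e01e83)))))) 
(.nd (nat_lit 9) (.nd (nat_lit 10) 
(.lf (nat_lit 40421872) (dlOf (nat_lit 1) (nat_lit 0x200291f4f01))) (.nd (nat_lit 23) 
(.lf (nat_lit 4898997744) (dlOf (nat_lit 1) (nat_lit 0x28008000c00200020008053603))) 
(.lf (nat_lit 8439280) (dlOf (nat_lit 1) (nat_lit 0x400200020008513602))))) (.nd (nat_lit 20) 
(.nd (nat_lit 28) (.lf (nat_lit 2147533808) (dlOf (nat_lit 1) (nat_lit 0xc0018002881))) 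
(.lf (nat_lit 4026582000) (dlOf (nat_lit 2) (nat_lit 0x602b00932818002880)))) 
(.lf (nat_lit 3492856816) (dlOf (nat_lit 1) (nat_lit 0x80080008002000200080f2883)))))))) 
(.nd (nat_lit 10) (.nd (nat_lit 19) (.nd (nat_lit 6) (.nd (nat_lit 20) (.nd (nat_lit 9) 
(.lf (nat_lit 25215028) (dlOf (nat_lit 2) (nat_lit 0x54279000e6818bf0b80))) (.nd (nat_lit 11) 
(.lf (nat_lit 469815860) (dlOf (nat_lit 1) (nat_lit 0xe0008008981))) 
(.lf (nat_lit 69257780) (dlOf (nat_lit 1) (nat_lit 0x60008905181))))) (.nd (nat_lit 26) 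
(.nd (nat_lit 22) 
(.lf (nat_lit 1343275060) (dlOf (nat_lit 2) (nat_lit 0x270000000940800180080038002001600081e0783))) 
(.lf (nat_lit 13680692) (dlOf (nat_lit 1) (nat_lit 0x400200020008740702)))) (.nd (nat_lit 27) 
(.lf (nat_lit 68206644) (dlOf (nat_lit 2) (nat_lit 0x7480000004a04027c00200420008450782))) 
(.lf (nat_lit 470859828) (dlOf (nat_lit 4) (nat_lit 0x220b180ba8554043828401460be016a04a806302080524000000250e0076131000110100130a480000008031800804d000200b800081c0783)))))) 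
(.nd (nat_lit 26) (.nd (nat_lit 7) (.nd (nat_lit 28) 
(.lf (nat_lit 671137908) (dlOf (nat_lit 3) (nat_lit 0x1601280056008017809400284040010002000200080b0082))) 
(.lf (nat_lit 3087057012) (dlOf (nat_lit 1) (nat_lit 0x200280b0081)))) 
(.lf (nat_lit 4026582004) (dlOf (nat_lit 1) (nat_lit 0x10008000800200060008002883)))) 
(.nd (nat_lit 22) (.nd (nat_lit 27) 
(.lf (nat_lit 3825254516) (dlOf (nat_lit 1) (nat_lit 0x200280b0081))) 
(.lf (nat_lit 1543553140) (dlOf (nat_lit 3) (nat_lit 0x1601280057408017809400284040010002000200080b0082)))) 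
(.lf (nat_lit 2755706996) (dlOf (nat_lit 3) (nat_lit 0x4b105001b87500046008018841400a81d4001178281b0080)))))) 
(.nd (nat_lit 26) (.nd (nat_lit 21) (.nd (nat_lit 22) 
(.lf (nat_lit 3221798964) (dlOf (nat_lit 1) (nat_lit 0x13c00400120008191302))) (.nd (nat_lit 24) 
(.lf (nat_lit 3494428724) (dlOf (nat_lit 7) (nat_lit 0xa901a001080c602c004200f1014809c808c049c03c01e40170052004001400000038e240078052002a01e000e302008c034000d018c026808400320290008012802e008c007c042009601e004700b802a8020004c000001c51600040680027011800d00780050000001bd080040029000bd01003a00f0002500807d0008015c002001e0008220b83))) 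
(.lf (nat_lit 21545012) (dlOf (nat_lit 2) (nat_lit 0x2014500012018a40400))))) (.nd (nat_lit 6) 
(.nd (nat_lit 20) (.lf (nat_lit 15253556) (dlOf (nat_lit 2) (nat_lit 0x2c9cd000128187c0780))) 
(.lf (nat_lit 3493380148) (dlOf (nat_lit 5) (nat_lit 0x5d01a40314088016a02400b60100003007c0038e1400040d20010044002b012002280800038c1003140d2019c04400c501200620080001003e001c50a01800440061012000200800037a0c018800404820008120d02)))) 
(.lf (nat_lit 44616180) (dlOf (nat_lit 1) (nat_lit 0x28e0019324f01))))) (.nd (nat_lit 27) 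
(.nd (nat_lit 20) (.nd (nat_lit 22) 
(.lf (nat_lit 67682356) (dlOf (nat_lit 1) (nat_lit 0x200182d0001))) 
(.lf (nat_lit 2756231220) (dlOf (nat_lit 7) (nat_lit 0xa901a001080c602c004200f1014809c808c049c03c01e40170052004001400000038e240078052002a01e000e302008c034000d018c026808400320290008012802e008c007c042009601e004700b802a8020004c000001c51600040680027011800d00780050000001bd080040029000c181003a00f0002500807d0008015c002001e0008220b83)))) 
(.lf (nat_lit 2755182644) (dlOf (nat_lit 5) (nat_lit 0x5d01a40314088016a02400b60100003007c0038e1400040d20010044002b012002280800038c1003140d2019c04400c501200620080001003e001c50a01800440061012000200800037a0c018800404820008120d02)))) 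
(.nd (nat_lit 6) (.nd (nat_lit 8) 
(.lf (nat_lit 3154690100) (dlOf (nat_lit 2) (nat_lit 0x1f80b0007f804000400400080008310002))) 
(.lf (nat_lit 3154690356) (dlOf (nat_lit 7) (nat_lit 0x1fb0160011fc0810000b0008fc0406bc058003f80202b002c001fb810201016000f88080ae80b0007c20400a000200a80008310702)))) 
(.lf (nat_lit 474530036) (dlOf (nat_lit 2) (nat_lit 0x260468002340800300080004002000600091a2483))))))) 
(.nd (nat_lit 6) (.nd (nat_lit 8) (.nd (nat_lit 11) (.nd (nat_lit 9) 
(.lf (nat_lit 62440500) (dlOf (nat_lit 1) (nat_lit 0x4004000200099a2882))) 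
(.lf (nat_lit 4898997812) (dlOf (nat_lit 1) (nat_lit 0x400400020008053782)))) (.nd (nat_lit 7) 
(.nd (nat_lit 28) 
(.lf (nat_lit 3288386612) (dlOf (nat_lit 1) (nat_lit 0xb000800fc00200900008006083))) 
(.lf (nat_lit 2483080244) (dlOf (nat_lit 1) (nat_lit 0x800200020008006082)))) 
(.lf (nat_lit 1409342644) (dlOf (nat_lit 1) (nat_lit 0x10002800c201))))) (.nd (nat_lit 7) 
(.nd (nat_lit 27) 
(.lf (nat_lit 2751514420) (dlOf (nat_lit 1) (nat_lit 0x68008000c002000e0008003d83))) 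
(.lf (nat_lit 201377588) (dlOf (nat_lit 1) (nat_lit 0x20008003d81)))) (.nd (nat_lit 9) 
(.nd (nat_lit 23) (.lf (nat_lit 4898997684) (dlOf (nat_lit 2) (nat_lit 0x201c00047018053600))) 
(.lf (nat_lit 8439220) (dlOf (nat_lit 1) (nat_lit 0x8008000400200020008513603)))) 
(.lf (nat_lit 2751514548) (dlOf (nat_lit 2) (nat_lit 0x181a400100cc000a0610001020000200b40000614003c00400020018004382)))))) 
(.nd (nat_lit 27) (.nd (nat_lit 28) (.nd (nat_lit 9) 
(.lf (nat_lit 4898997748) (dlOf (nat_lit 2) (nat_lit 0x801c00042818053600))) 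
(.lf (nat_lit 4362131444) (dlOf (nat_lit 1) (nat_lit 0x2001800a601)))) (.nd (nat_lit 7) 
(.lf (nat_lit 268486004) (dlOf (nat_lit 2) (nat_lit 0x800a000018080010008001400200100008053503))) 
(.lf (nat_lit 4630562292) (dlOf (nat_lit 1) (nat_lit 0x800400060008003602))))) (.nd (nat_lit 7) 
(.nd (nat_lit 8) (.lf (nat_lit 6106957428) (dlOf (nat_lit 1) (nat_lit 0x400400020008003982))) 
(.lf (nat_lit 2348861300) (dlOf (nat_lit 1) (nat_lit 0x400400020018004082)))) (.nd (nat_lit 11) 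
(.nd (nat_lit 26) (.lf (nat_lit 4966106612) (dlOf (nat_lit 1) (nat_lit 0x400400020008003602))) 
(.lf (nat_lit 6106957300) (dlOf (nat_lit 1) (nat_lit 0xc00400060008003602)))) 
(.lf (nat_lit 4227911156) (dlOf (nat_lit 1) (nat_lit 0x20028006f01))))))))) (.nd (nat_lit 2) 
(.nd (nat_lit 21) (.nd (nat_lit 8) (.nd (nat_lit 26) (.nd (nat_lit 28) (.nd (nat_lit 22) 
(.nd (nat_lit 23) (.nd (nat_lit 27) (.nd (nat_lit 6) 
(.lf (nat_lit 537182384) (dlOf (nat_lit 1) (nat_lit 0x800400020018044d82))) 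
(.lf (nat_lit 33865840) (dlOf (nat_lit 1) (nat_lit 0x20018f61d01)))) (.nd (nat_lit 29) 
(.lf (nat_lit 4429496368) (dlOf (nat_lit 1) (nat_lit 0x4004000200080f0f82))) 
(.lf (nat_lit 1745141808) (dlOf (nat_lit 2) (nat_lit 0x3c0140011e0180b0480))))) (.nd (nat_lit 9) 
(.lf (nat_lit 27050032) (dlOf (nat_lit 4) (nat_lit 0x1fa9ea00820000001b82000aa7a8000d80800353d400dc0000000004010a0018ca0701))) 
(.lf (nat_lit 42256944) (dlOf (nat_lit 2) (nat_lit 0x2126c0011604002400400260009245182))))) 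
(.nd (nat_lit 19) (.nd (nat_lit 6) 
(.lf (nat_lit 30720048) (dlOf (nat_lit 2) (nat_lit 0x3a00000007818e40e80))) 
(.lf (nat_lit 38060144) (dlOf (nat_lit 1) (nat_lit 0x20009122481)))) (.nd (nat_lit 23) 
(.lf (nat_lit 21807152) (dlOf (nat_lit 1) (nat_lit 0x400400020008a70582))) 
(.lf (nat_lit 13418544) (dlOf (nat_lit 6) (nat_lit 0x7718000537a60003604006dc60003ee2f0019ef4c0006a0c000f8c00015c5e0013de98000d01800df1780005604005b8c00049c5e0004de98000a8180010008004c002000a0008720f83)))))) 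
(.nd (nat_lit 7) (.nd (nat_lit 6) 
(.lf (nat_lit 268746800) (dlOf (nat_lit 1) (nat_lit 0x40018120381))) 
(.lf (nat_lit 4026843248) (dlOf (nat_lit 1) (nat_lit 0x500080070002007800080a1583)))) 
(.nd (nat_lit 27) (.nd (nat_lit 30) 
(.lf (nat_lit 4563714224) (dlOf (nat_lit 6) (nat_lit 0x4017800100b4001c03e0000e06000a02f00070168004807c0001a0c001405e000e02d000800f8000301800280bc000405a000e01f0000583001400f8000000800180080034002000800080c1603))) 
(.lf (nat_lit 5637456048) (dlOf (nat_lit 1) (nat_lit 0x100080008002000400080f1603)))) 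
(.lf (nat_lit 4697931952) (dlOf (nat_lit 2) (nat_lit 0xe301a807180c0010805601ce02900eb012807100840390036018e01900e000b0073804c039402001c600d00e30038000c86801680080330002041400080c1603)))))) 
(.nd (nat_lit 29) (.nd (nat_lit 27) (.nd (nat_lit 6) 
(.lf (nat_lit 68468784) (dlOf (nat_lit 2) (nat_lit 0x13200000007818580e80))) 
(.lf (nat_lit 3288645744) (dlOf (nat_lit 1) (nat_lit 0x500080070002007800080a1583)))) 
(.nd (nat_lit 30) (.lf (nat_lit 2349121584) (dlOf (nat_lit 2) (nat_lit 0x600d0001a8180c0f80))) 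
(.lf (nat_lit 3422863408) (dlOf (nat_lit 3) (nat_lit 0x380000002d02001a0000000b818130680))))) 
(.nd (nat_lit 7) (.nd (nat_lit 32) 
(.lf (nat_lit 872726576) (dlOf (nat_lit 2) (nat_lit 0x3c0140011e0180b0480))) 
(.lf (nat_lit 5167693872) (dlOf (nat_lit 1) (nat_lit 0x800400020008110d02)))) 
(.lf (nat_lit 2753347760) (dlOf (nat_lit 1) (nat_lit 0x18008002c00200080008090303)))))) 
(.nd (nat_lit 6) (.nd (nat_lit 26) (.nd (nat_lit 27) (.nd (nat_lit 29) 
(.lf (nat_lit 6442762544) (dlOf (nat_lit 2) (nat_lit 0x134068000202e000310281b0500))) 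
(.lf (nat_lit 537182512) (dlOf (nat_lit 3) (nat_lit 0x30000012a008010817c0092c0401b4004003a0018048402)))) 
(.lf (nat_lit 671400240) (dlOf (nat_lit 3) (nat_lit 0x120000026481001900000131c080010008006800200020008188403)))) 
(.nd (nat_lit 27) (.nd (nat_lit 28) 
(.lf (nat_lit 3825516848) (dlOf (nat_lit 1) (nat_lit 0x40028187a01))) 
(.lf (nat_lit 1409597744) (dlOf (nat_lit 2) (nat_lit 0xe02700033018047a00)))) 
(.lf (nat_lit 1543815472) (dlOf (nat_lit 2) (nat_lit 0xc80000005002000a0018187a01))))) 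
(.nd (nat_lit 7) (.nd (nat_lit 11) 
(.lf (nat_lit 21283184) (dlOf (nat_lit 1) (nat_lit 0x400400020008a35802))) (.nd (nat_lit 22) 
(.lf (nat_lit 1880410480) (dlOf (nat_lit 2) (nat_lit 0x201c6000e90200020018924e81))) 
(.lf (nat_lit 39111024) (dlOf (nat_lit 1) (nat_lit 0x8008009400200220009194e83))))) 
(.nd (nat_lit 19) (.lf (nat_lit 1610925040) (dlOf (nat_lit 1) (nat_lit 0xa0018092881))) 
(.nd (nat_lit 22) (.lf (nat_lit 1008518128) (dlOf (nat_lit 1) (nat_lit 0xa0018d12881))) 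
(.lf (nat_lit 48022512) (dlOf (nat_lit 1) (nat_lit 0xa0029402881)))))))) (.nd (nat_lit 6) 
(.nd (nat_lit 19) (.nd (nat_lit 9) (.nd (nat_lit 20) (.nd (nat_lit 22) 
(.lf (nat_lit 27574320) (dlOf (nat_lit 1) (nat_lit 0x8008000800200020008d00983))) 
(.lf (nat_lit 6602800) (dlOf (nat_lit 3) (nat_lit 0x15a679004d3310033164000089c600523ef00630000000e430076138c0f289a20000e0400040018430e81)))) 
(.lf (nat_lit 7651376) (dlOf (nat_lit 3) (nat_lit 0x15ac0e004d5fb80332c9400094f0005298900630000000e43007629e00f294cc0000e04000400184c0e81)))) 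
(.nd (nat_lit 10) 
(.lf (nat_lit 23380528) (dlOf (nat_lit 3) (nat_lit 0xb91600005010005c8b000000080048008001800200140008b80f03))) 
(.lf (nat_lit 2754924080) (dlOf (nat_lit 2) (nat_lit 0x1d6088000270180f7180))))) (.nd (nat_lit 10) 
(.nd (nat_lit 31) (.nd (nat_lit 20) (.nd (nat_lit 22) 
(.lf (nat_lit 2932784) (dlOf (nat_lit 2) (nat_lit 0x65472000a04d0002b0281d0680))) 
(.lf (nat_lit 7127088) (dlOf (nat_lit 1) (nat_lit 0x4004000400084b0002)))) 
(.lf (nat_lit 3981360) (dlOf (nat_lit 2) (nat_lit 0x3c5560001b018260e80)))) (.nd (nat_lit 26) 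
(.lf (nat_lit 3492593712) (dlOf (nat_lit 5) (nat_lit 0xcac3f6000560200101d6002a0a20000b4100e007f00002604000c3f80001202000a00280e0681))) 
(.lf (nat_lit 2754396208) (dlOf (nat_lit 5) (nat_lit 0xcac420000560200101eb002a0a20000b4100e008440002604000c4220001202000a00280e0681))))) 
(.nd (nat_lit 8) (.lf (nat_lit 36488240) (dlOf (nat_lit 1) (nat_lit 0x20029072881))) 
(.lf (nat_lit 20764464) (dlOf (nat_lit 1) (nat_lit 0x200289da101)))))) (.nd (nat_lit 11) 
(.nd (nat_lit 8) (.nd (nat_lit 7) (.nd (nat_lit 9) 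
(.lf (nat_lit 23380080) (dlOf (nat_lit 1) (nat_lit 0x30008019400200720008b80003))) 
(.lf (nat_lit 20238960) (dlOf (nat_lit 1) (nat_lit 0x4004000200189d8982)))) 
(.lf (nat_lit 1346158832) (dlOf (nat_lit 3) (nat_lit 0x282cc0084002000c1660041e818e61e80)))) 
(.nd (nat_lit 7) (.nd (nat_lit 12) 
(.lf (nat_lit 23380336) (dlOf (nat_lit 1) (nat_lit 0x98002003a0008b80782))) 
(.lf (nat_lit 8180080) (dlOf (nat_lit 1) (nat_lit 0x20018518381)))) 
(.lf (nat_lit 473220080) (dlOf (nat_lit 1) (nat_lit 0x1400200040008dd2882))))) (.nd (nat_lit 24) 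
(.nd (nat_lit 19) 
(.lf (nat_lit 472172912) (dlOf (nat_lit 1) (nat_lit 0x1280080004002002200088c4e83))) 
(.nd (nat_lit 20) 
(.lf (nat_lit 49072496) (dlOf (nat_lit 1) (nat_lit 0x10008000c00200020009464e83))) 
(.lf (nat_lit 41732464) (dlOf (nat_lit 1) (nat_lit 0xe0029244e81))))) (.nd (nat_lit 7) 
(.lf (nat_lit 57461104) (dlOf (nat_lit 1) (nat_lit 0x400200020009794e82))) 
(.lf (nat_lit 57461232) (dlOf (nat_lit 1) (nat_lit 0x20009794f01)))))))) (.nd (nat_lit 30) 
(.nd (nat_lit 19) (.nd (nat_lit 7) (.nd (nat_lit 20) (.nd (nat_lit 8) (.nd (nat_lit 21) 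
(.nd (nat_lit 26) 
(.lf (nat_lit 2684665908) (dlOf (nat_lit 5) (nat_lit 0x8016000080ac00e880800040560074302000202b0039d010002015801ce4080008008001000200040008130783))) 
(.lf (nat_lit 872726580) (dlOf (nat_lit 2) (nat_lit 0x7280d8039806201d802200b400c8077005000240040023c0c000200180b0481)))) 
(.lf (nat_lit 14991412) (dlOf (nat_lit 1) (nat_lit 0x200187a0e01)))) 
(.lf (nat_lit 537182516) (dlOf (nat_lit 1) (nat_lit 0x80028048401)))) (.nd (nat_lit 6) 
(.lf (nat_lit 24428596) (dlOf (nat_lit 1) (nat_lit 0x10008000400200020008ba0a83))) 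
(.nd (nat_lit 21) 
(.lf (nat_lit 9748596) (dlOf (nat_lit 3) (nat_lit 0x747a0024d02000294f0005a018580d80))) 
(.lf (nat_lit 3457140) (dlOf (nat_lit 2) (nat_lit 0x144ab0000247d00118028200080)))))) 
(.nd (nat_lit 9) (.nd (nat_lit 22) 
(.lf (nat_lit 335855796) (dlOf (nat_lit 1) (nat_lit 0x4004000200080c1682))) 
(.lf (nat_lit 21282996) (dlOf (nat_lit 1) (nat_lit 0x400400020008a31682)))) 
(.lf (nat_lit 313012) (dlOf (nat_lit 1) (nat_lit 0x400400ce0008003a82))))) (.nd (nat_lit 11) 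
(.nd (nat_lit 23) (.nd (nat_lit 6) (.nd (nat_lit 20) 
(.lf (nat_lit 2754396212) (dlOf (nat_lit 1) (nat_lit 0x400280e0701))) 
(.lf (nat_lit 2753347636) (dlOf (nat_lit 1) (nat_lit 0x80028090001)))) 
(.lf (nat_lit 4362911860) (dlOf (nat_lit 3) (nat_lit 0x4f023802700b40046008021c05a0048024001178281a0080)))) 
(.nd (nat_lit 20) (.nd (nat_lit 21) 
(.lf (nat_lit 9224244) (dlOf (nat_lit 2) (nat_lit 0x131a250011b818530480))) 
(.lf (nat_lit 11321396) (dlOf (nat_lit 1) (nat_lit 0x8008000400200020008690783)))) 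
(.lf (nat_lit 27050036) (dlOf (nat_lit 11) (nat_lit 0x3cea4001e61a0002e0400513a10001401009eb30804d595c01d2c4801355ed00d5a7a007ad3cc036e740016139e00c29bf804dcc8c01fa5f601212f900b297b805c0e2802b0000000251e004b6570023a7a00144e8000966fe00472fb00251c500240000000441c02429ea00440000000a0200aca7a800580000002608020c000000050201060000000201003900000000c0804700000000004038800200300008ca0782))))) 
(.nd (nat_lit 20) (.nd (nat_lit 6) 
(.lf (nat_lit 36489780) (dlOf (nat_lit 1) (nat_lit 0x600009075181))) 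
(.lf (nat_lit 36489588) (dlOf (nat_lit 1) (nat_lit 0x2400200100009074e82)))) (.nd (nat_lit 23) 
(.lf (nat_lit 35441204) (dlOf (nat_lit 1) (nat_lit 0x400200020009015182))) 
(.lf (nat_lit 60607028) (dlOf (nat_lit 1) (nat_lit 0x4004000400098c5182))))))) (.nd (nat_lit 26) 
(.nd (nat_lit 27) (.nd (nat_lit 6) 
(.lf (nat_lit 3492593716) (dlOf (nat_lit 1) (nat_lit 0x400280e0701))) (.nd (nat_lit 7) 
(.nd (nat_lit 29) (.lf (nat_lit 5637455988) (dlOf (nat_lit 1) (nat_lit 0x200280f0a81))) 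
(.lf (nat_lit 4026843252) (dlOf (nat_lit 2) (nat_lit 0x101b00038c0801080080064002006400080a1603)))) 
(.lf (nat_lit 3489975796) (dlOf (nat_lit 3) (nat_lit 0x383000000a04000c180000040200020008006f01))))) 
(.nd (nat_lit 28) (.nd (nat_lit 29) 
(.lf (nat_lit 1208270900) (dlOf (nat_lit 3) (nat_lit 0x26004e007200a0011b82003f0148002040800200080014002000200080b0483))) 
(.lf (nat_lit 1745141812) (dlOf (nat_lit 2) (nat_lit 0x7280d8039806201d802200b400c8077005000240040023c0c000200180b0481)))) 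
(.nd (nat_lit 7) 
(.lf (nat_lit 5773246516) (dlOf (nat_lit 3) (nat_lit 0xf0150008f00806580000046e04000c002000600080b0482))) 
(.lf (nat_lit 3624193204) (dlOf (nat_lit 1) (nat_lit 0x400400020008146282)))))) (.nd (nat_lit 6) 
(.nd (nat_lit 19) (.nd (nat_lit 7) 
(.lf (nat_lit 2080686132) (dlOf (nat_lit 3) (nat_lit 0x26004e007200a0011b82003f0148002040800200080014002000200080b0483))) 
(.lf (nat_lit 3825516724) (dlOf (nat_lit 1) (nat_lit 0x8008000400200020008184f03)))) 
(.nd (nat_lit 20) (.lf (nat_lit 4096573492) (dlOf (nat_lit 1) (nat_lit 0x400400020008131002))) 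
(.lf (nat_lit 6377226292) (dlOf (nat_lit 3) (nat_lit 0xf0150008f00806580000046e04000c002000600080b0482))))) 
(.nd (nat_lit 27) (.nd (nat_lit 28) 
(.lf (nat_lit 3288645748) (dlOf (nat_lit 2) (nat_lit 0x101b00038c0801080080064002006400080a1603))) 
(.lf (nat_lit 6241435764) (dlOf (nat_lit 1) (nat_lit 0x200280f0a81)))) (.nd (nat_lit 7) 
(.lf (nat_lit 4228694132) (dlOf (nat_lit 3) (nat_lit 0x4f020002700b00049008021c0580048024001238281a0080))) 
(.lf (nat_lit 3959734772) (dlOf (nat_lit 3) (nat_lit 0x1800e000110100090000000700802100080010002001a0008127e03))))))))))) 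
(.nd (nat_lit 5) (.nd (nat_lit 2) (.nd (nat_lit 26) (.nd (nat_lit 18) (.nd (nat_lit 19) 
(.nd (nat_lit 8) (.nd (nat_lit 10) (.nd (nat_lit 20) (.nd (nat_lit 6) (.nd (nat_lit 9) 
(.lf (nat_lit 23117841) (dlOf (nat_lit 2) (nat_lit 0xa0000013c818b60500))) 
(.lf (nat_lit 536926737) (dlOf (nat_lit 1) (nat_lit 0x38002800b281)))) 
(.lf (nat_lit 536926289) (dlOf (nat_lit 1) (nat_lit 0x400200b6000800a702)))) (.nd (nat_lit 21) 
(.nd (nat_lit 22) (.lf (nat_lit 1097745) (dlOf (nat_lit 1) (nat_lit 0x400200020008070282))) 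
(.lf (nat_lit 47235089) (dlOf (nat_lit 1) (nat_lit 0x2600193c0001)))) 
(.lf (nat_lit 15777809) (dlOf (nat_lit 1) (nat_lit 0x180080024002000a0008830203))))) 
(.nd (nat_lit 9) (.nd (nat_lit 7) (.nd (nat_lit 27) 
(.lf (nat_lit 805356561) (dlOf (nat_lit 1) (nat_lit 0x4e0008002881))) 
(.lf (nat_lit 3892364305) (dlOf (nat_lit 1) (nat_lit 0x10004000e0008082882)))) 
(.lf (nat_lit 36750481) (dlOf (nat_lit 1) (nat_lit 0x400400020009072b82)))) (.nd (nat_lit 6) 
(.lf (nat_lit 2147534353) (dlOf (nat_lit 1) (nat_lit 0x10008000400200040008003703))) 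
(.lf (nat_lit 6308283985) (dlOf (nat_lit 1) (nat_lit 0x60028053881)))))) (.nd (nat_lit 6) 
(.nd (nat_lit 7) (.nd (nat_lit 9) (.nd (nat_lit 12) 
(.lf (nat_lit 10535185) (dlOf (nat_lit 2) (nat_lit 0x3936001468040048004000200085f7d02))) 
(.lf (nat_lit 8442129) (dlOf (nat_lit 1) (nat_lit 0x80018518081)))) 
(.lf (nat_lit 4026582801) (dlOf (nat_lit 2) (nat_lit 0xc80d40004604005000200f20008003c02)))) 
(.nd (nat_lit 9) (.lf (nat_lit 2818621841) (dlOf (nat_lit 1) (nat_lit 0x800400020008081002))) 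
(.lf (nat_lit 6039847825) (dlOf (nat_lit 1) (nat_lit 0x800400020008002582))))) (.nd (nat_lit 10) 
(.nd (nat_lit 7) 
(.lf (nat_lit 4026583377) (dlOf (nat_lit 1) (nat_lit 0x8008002000200020008004e03))) 
(.nd (nat_lit 9) (.lf (nat_lit 19976657) (dlOf (nat_lit 1) (nat_lit 0x180080040002000800089d8683))) 
(.lf (nat_lit 2952844241) (dlOf (nat_lit 1) (nat_lit 0x400400100018009202))))) (.nd (nat_lit 27) 
(.lf (nat_lit 5100324305) (dlOf (nat_lit 1) (nat_lit 0x8008000800200020008053603))) 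
(.lf (nat_lit 6308283857) (dlOf (nat_lit 1) (nat_lit 0x400400020018053602))))))) (.nd (nat_lit 22) 
(.nd (nat_lit 6) (.nd (nat_lit 10) (.nd (nat_lit 20) (.nd (nat_lit 23) 
(.lf (nat_lit 2670609) (dlOf (nat_lit 1) (nat_lit 0x10008004c00200040008190783))) 
(.lf (nat_lit 27836433) (dlOf (nat_lit 1) (nat_lit 0x40018d30301)))) 
(.lf (nat_lit 3493380113) (dlOf (nat_lit 1) (nat_lit 0x60028120881)))) (.nd (nat_lit 7) 
(.lf (nat_lit 20499473) (dlOf (nat_lit 3) (nat_lit 0x3352b8019a8e000112c00000e060028960000000189d5f80))) 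
(.lf (nat_lit 1344849041) (dlOf (nat_lit 2) (nat_lit 0x4160000804e000220100028008000c00200040008982b83))))) 
(.nd (nat_lit 7) (.nd (nat_lit 9) 
(.lf (nat_lit 3493380177) (dlOf (nat_lit 2) (nat_lit 0x40220000809000080400002a0601040008121001))) 
(.lf (nat_lit 44616273) (dlOf (nat_lit 2) (nat_lit 0x77b9f003edaec0007c08002000400020009325282)))) 
(.nd (nat_lit 8) (.lf (nat_lit 1342750929) (dlOf (nat_lit 1) (nat_lit 0x4004000200080c0482))) 
(.lf (nat_lit 50905553) (dlOf (nat_lit 1) (nat_lit 0x10004000200094d7b02)))))) (.nd (nat_lit 9) 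
(.nd (nat_lit 24) (.nd (nat_lit 7) 
(.lf (nat_lit 3494428689) (dlOf (nat_lit 21) (nat_lit 0x1d033800d8104006004400d6906004c0670016020800c008801ad00c00100ce000404100180110027a818013019c00580820030022004f4830026033800c0088013ce0800040ce000c041004f3020001033800c8088013ca0800440ce002c041001801100278c180028104013be0400980ce001004100180110027741800c008801392040060044009c0020030022001100d8026dc10003819c00080820030022004db030002033800b01040014044009b406004c06700160208025a810013019c0028082009680400400670020020800f0088003c036009600800080670016020800c0088012be0c0038044000000200080008220881))) 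
(.lf (nat_lit 41469073) (dlOf (nat_lit 1) (nat_lit 0x20019242b81)))) (.nd (nat_lit 6) 
(.lf (nat_lit 21544977) (dlOf (nat_lit 2) (nat_lit 0x14af940000004000400200020008a40002))) 
(.lf (nat_lit 21545041) (dlOf (nat_lit 14) (nat_lit 0x12009d807184a802a021a0007206000a13b000380100de09d805704a8020421a0006f060078142000328101300a280858508011427200840e90003084009e0a280350508000c00801c424c000420200781260001b0100ea09d808004a8034021a000210601de13b0109095006d0434000400c0460276023a12a00fd0868000701801284ec0100254000e10d0000c03000709d80000008012000801ac00200060008a40503))))) 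
(.nd (nat_lit 6) (.nd (nat_lit 11) 
(.lf (nat_lit 58245649) (dlOf (nat_lit 1) (nat_lit 0x4004000200197c7c02))) 
(.lf (nat_lit 40421905) (dlOf (nat_lit 2) (nat_lit 0x86070000980800080080028002000800091f5083)))) 
(.lf (nat_lit 40422097) (dlOf (nat_lit 1) (nat_lit 0x800191f5881))))))) (.nd (nat_lit 6) 
(.nd (nat_lit 10) (.nd (nat_lit 19) (.nd (nat_lit 27) (.nd (nat_lit 21) (.nd (nat_lit 20) 
(.lf (nat_lit 2953101329) (dlOf (nat_lit 3) (nat_lit 0x3005a0005f0200a801400fb0030001641007e0008026000200400008120203))) 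
(.lf (nat_lit 1343537169) (dlOf (nat_lit 3) (nat_lit 0x80ee0002502000207700011818290300)))) 
(.nd (nat_lit 7) (.lf (nat_lit 23379985) (dlOf (nat_lit 1) (nat_lit 0x2400400060018b80002))) 
(.lf (nat_lit 19185809) (dlOf (nat_lit 1) (nat_lit 0xba0028970481))))) (.nd (nat_lit 7) 
(.nd (nat_lit 8) 
(.lf (nat_lit 939835409) (dlOf (nat_lit 1) (nat_lit 0xd80080004002009000081b0283))) 
(.lf (nat_lit 671400209) (dlOf (nat_lit 1) (nat_lit 0x2a0028187d01)))) 
(.lf (nat_lit 671400081) (dlOf (nat_lit 1) (nat_lit 0x7800400100008183f82))))) (.nd (nat_lit 8) 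
(.nd (nat_lit 21) (.nd (nat_lit 22) 
(.lf (nat_lit 2819407889) (dlOf (nat_lit 1) (nat_lit 0x20028260201))) 
(.lf (nat_lit 21807121) (dlOf (nat_lit 1) (nat_lit 0x8008000400200020008a70483)))) 
(.lf (nat_lit 3492593681) (dlOf (nat_lit 2) (nat_lit 0x5bc1fa0001d8180e0100)))) (.nd (nat_lit 7) 
(.lf (nat_lit 51167505) (dlOf (nat_lit 1) (nat_lit 0x8008000400200020009507403))) 
(.lf (nat_lit 57461137) (dlOf (nat_lit 1) (nat_lit 0x20019794e81)))))) (.nd (nat_lit 20) 
(.nd (nat_lit 27) (.nd (nat_lit 8) 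
(.lf (nat_lit 312337) (dlOf (nat_lit 1) (nat_lit 0x400400a80008002882))) 
(.lf (nat_lit 313105) (dlOf (nat_lit 1) (nat_lit 0x800400080008003c02)))) (.nd (nat_lit 11) 
(.lf (nat_lit 2013578257) (dlOf (nat_lit 1) (nat_lit 0x1c0018122881))) 
(.lf (nat_lit 5771676689) (dlOf (nat_lit 1) (nat_lit 0x400200020008005f82))))) (.nd (nat_lit 7) 
(.lf (nat_lit 60083217) (dlOf (nat_lit 1) (nat_lit 0x20009845f81))) (.nd (nat_lit 19) 
(.lf (nat_lit 43304081) (dlOf (nat_lit 1) (nat_lit 0x4004000200092a2b82))) 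
(.lf (nat_lit 41731217) (dlOf (nat_lit 1) (nat_lit 0x120008000400200020009242b83))))))) 
(.nd (nat_lit 30) (.nd (nat_lit 7) (.nd (nat_lit 8) (.nd (nat_lit 19) 
(.lf (nat_lit 268746833) (dlOf (nat_lit 1) (nat_lit 0xc0008003000200200008120503))) 
(.lf (nat_lit 13418577) (dlOf (nat_lit 2) (nat_lit 0x1ab594011929f00428178000a818007000800c8002004c0008721903)))) 
(.lf (nat_lit 2818889553) (dlOf (nat_lit 1) (nat_lit 0x4002812a201)))) (.nd (nat_lit 19) 
(.lf (nat_lit 4563714257) (dlOf (nat_lit 1) (nat_lit 0x600180c1b81))) 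
(.lf (nat_lit 1884369) (dlOf (nat_lit 1) (nat_lit 0x400400020008150482))))) (.nd (nat_lit 27) 
(.nd (nat_lit 8) 
(.lf (nat_lit 1346158673) (dlOf (nat_lit 2) (nat_lit 0x2d053001b41ae000000400020018e60701))) 
(.lf (nat_lit 3221537105) (dlOf (nat_lit 4) (nat_lit 0x15c014000610200d400a000200100670050000fc0801680080090002003c0008124d03)))) 
(.nd (nat_lit 29) 
(.lf (nat_lit 1208270929) (dlOf (nat_lit 15) (nat_lit 0x22c04c000540201160260002981008b013001e8008000a40801200000004f0200940000001c01000c01380008808045809c0004204014804e000200201160270000e81008b01380006008012009c0002804021c04e0001102011402700008010005013800080280000008002c004000800080b0682))) 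
(.lf (nat_lit 1745141841) (dlOf (nat_lit 5) (nat_lit 0xa100000013c0803480000009804000c06c0064031000300c80320000000701001a40000003502000400080b0681)))))))) 
(.nd (nat_lit 29) (.nd (nat_lit 6) (.nd (nat_lit 7) (.nd (nat_lit 19) (.nd (nat_lit 9) 
(.nd (nat_lit 10) (.lf (nat_lit 471121937) (dlOf (nat_lit 1) (nat_lit 0xe800400020008270302))) 
(.lf (nat_lit 473220113) (dlOf (nat_lit 1) (nat_lit 0x40018dd2881)))) 
(.lf (nat_lit 335595025) (dlOf (nat_lit 1) (nat_lit 0x340028003701)))) (.nd (nat_lit 28) 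
(.nd (nat_lit 32) (.lf (nat_lit 67682321) (dlOf (nat_lit 1) (nat_lit 0x78002001000082d0002))) 
(.lf (nat_lit 4362649617) (dlOf (nat_lit 1) (nat_lit 0x94002005600080c0182)))) 
(.lf (nat_lit 3557343249) (dlOf (nat_lit 2) (nat_lit 0x3301c0000000800c00080008002003600081c0483))))) 
(.nd (nat_lit 8) (.nd (nat_lit 10) 
(.lf (nat_lit 471646353) (dlOf (nat_lit 3) (nat_lit 0x842c2007c09d0008e8200950b08003ec0800200080014002002c0008370483))) 
(.lf (nat_lit 473744529) (dlOf (nat_lit 1) (nat_lit 0x8008000400200020008fa2b83)))) 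
(.nd (nat_lit 10) (.nd (nat_lit 18) 
(.lf (nat_lit 472435089) (dlOf (nat_lit 2) (nat_lit 0x404680301c080028008001800200060008984e83))) 
(.lf (nat_lit 4496607633) (dlOf (nat_lit 1) (nat_lit 0x80080008002000200080e4e83)))) 
(.lf (nat_lit 335594897) (dlOf (nat_lit 1) (nat_lit 0xc0008003601)))))) (.nd (nat_lit 8) 
(.nd (nat_lit 11) (.nd (nat_lit 7) (.nd (nat_lit 18) 
(.lf (nat_lit 474529873) (dlOf (nat_lit 1) (nat_lit 0xa00091a0701))) 
(.lf (nat_lit 2349121617) (dlOf (nat_lit 1) (nat_lit 0x2c002001200080c1902)))) 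
(.lf (nat_lit 470335697) (dlOf (nat_lit 1) (nat_lit 0x4004000200080c0482)))) (.nd (nat_lit 9) 
(.nd (nat_lit 27) 
(.lf (nat_lit 4362131537) (dlOf (nat_lit 4) (nat_lit 0xe806600147020096033000a28100ca01980050c08013000800900020038000800a703))) 
(.lf (nat_lit 469817425) (dlOf (nat_lit 1) (nat_lit 0x40040002000800a702)))) 
(.lf (nat_lit 69257809) (dlOf (nat_lit 1) (nat_lit 0x8008000c00200040008905283))))) 
(.nd (nat_lit 10) (.nd (nat_lit 7) 
(.lf (nat_lit 1409597777) (dlOf (nat_lit 1) (nat_lit 0x400400020008048202))) (.nd (nat_lit 11) 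
(.lf (nat_lit 6509871569) (dlOf (nat_lit 3) (nat_lit 0x8017005530100030130001805c0148e080018004000a0008157102))) 
(.lf (nat_lit 472435153) (dlOf (nat_lit 1) (nat_lit 0x30008000c00200060008984e83))))) 
(.nd (nat_lit 7) 
(.lf (nat_lit 3288386897) (dlOf (nat_lit 1) (nat_lit 0x8008006400200560008006a03))) 
(.nd (nat_lit 9) 
(.lf (nat_lit 3288387025) (dlOf (nat_lit 2) (nat_lit 0x4a01a800000080070008002c00200500008006d03))) 
(.lf (nat_lit 4362131409) (dlOf (nat_lit 1) (nat_lit 0x40040004000800a602)))))))) (.nd (nat_lit 28) 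
(.nd (nat_lit 6) (.nd (nat_lit 18) (.nd (nat_lit 8) (.nd (nat_lit 20) 
(.lf (nat_lit 2756231185) (dlOf (nat_lit 21) (nat_lit 0x1d033800d81040060044007c006004c0670016020800c008800f7e0c00440ce002c0410018011001154180028104008a20400980ce0010041001801100113c18002019c0008082003002200224830026033800b010400600440044806004c067001801100111810000819c00180820044504000206700190110011101000c0088008840400600440042b020030022001100d80109c10003819c0008082003002200210830002033800b010400140440041f06004c067000a020800f5810013019c0058082003d40400400670020020800f0088003c036003cf0800080670016020800c0088007940c0038044000000200080008220881))) 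
(.lf (nat_lit 2755182609) (dlOf (nat_lit 1) (nat_lit 0x60028120881)))) (.nd (nat_lit 7) 
(.lf (nat_lit 604033297) (dlOf (nat_lit 1) (nat_lit 0x3c0028008081))) 
(.lf (nat_lit 2751514513) (dlOf (nat_lit 2) (nat_lit 0x180900000004001400400020018004202))))) 
(.nd (nat_lit 9) (.nd (nat_lit 19) 
(.lf (nat_lit 1812250641) (dlOf (nat_lit 1) (nat_lit 0xd80080004002009000081b0283))) 
(.lf (nat_lit 2754396177) (dlOf (nat_lit 2) (nat_lit 0x5bc20f0001d8180e0100)))) 
(.lf (nat_lit 3959734801) (dlOf (nat_lit 2) (nat_lit 0x60000000000200180008128401))))) 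
(.nd (nat_lit 7) (.nd (nat_lit 8) (.nd (nat_lit 20) 
(.lf (nat_lit 2754134097) (dlOf (nat_lit 3) (nat_lit 0xc0658000d00801d032c00064040008002000400080c1902))) 
(.lf (nat_lit 2755182673) (dlOf (nat_lit 2) (nat_lit 0x40220000809000080400002b0601040008121001)))) 
(.lf (nat_lit 3959734609) (dlOf (nat_lit 1) (nat_lit 0x400200080008124d82)))) (.nd (nat_lit 10) 
(.lf (nat_lit 2754922961) (dlOf (nat_lit 1) (nat_lit 0x20008000c002002200080f4e83))) 
(.lf (nat_lit 4898997713) (dlOf (nat_lit 2) (nat_lit 0x480700011a04001000200020008053602)))))) 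
(.nd (nat_lit 19) (.nd (nat_lit 10) (.nd (nat_lit 6) 
(.lf (nat_lit 5167693841) (dlOf (nat_lit 2) (nat_lit 0xe0070001c018110180))) (.nd (nat_lit 27) 
(.lf (nat_lit 872726609) (dlOf (nat_lit 5) (nat_lit 0xa100000013c0803480000009804000c06c0064031000300c80320000000701001a40000003502000400080b0681))) 
(.lf (nat_lit 2080686161) (dlOf (nat_lit 15) (nat_lit 0x22c04c000540201160260002981008b013001e8008000a40801200000004f0200940000001c01000c01380008808045809c0004204014804e000200201160270000e81008b01380006008012009c0002804021c04e0001102011402700008010005013800080280000008002c004000800080b0682))))) 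
(.nd (nat_lit 7) (.lf (nat_lit 6375392785) (dlOf (nat_lit 1) (nat_lit 0x400400020008003702))) 
(.nd (nat_lit 27) 
(.lf (nat_lit 3019949201) (dlOf (nat_lit 1) (nat_lit 0x10008000400200060008082b83))) 
(.lf (nat_lit 6375392401) (dlOf (nat_lit 1) (nat_lit 0x20028002b81)))))) (.nd (nat_lit 30) 
(.nd (nat_lit 6) 
(.lf (nat_lit 3154690065) (dlOf (nat_lit 2) (nat_lit 0x3100b00000004003400200020008310002))) 
(.nd (nat_lit 8) 
(.lf (nat_lit 3154690129) (dlOf (nat_lit 10) (nat_lit 0x80050002e81000c016000a80ac000b00809ec058000540203f602c000290101f5016000144080ce80b0000a00407c80580004c02037802c0002501000901c0000cc08009000800d8002005e0008310203))) 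
(.lf (nat_lit 3154690385) (dlOf (nat_lit 2) (nat_lit 0x14802c00000018310800))))) (.nd (nat_lit 7) 
(.nd (nat_lit 20) 
(.lf (nat_lit 4228431889) (dlOf (nat_lit 2) (nat_lit 0x5900c8000080400c8002004600080c0202))) 
(.lf (nat_lit 4095262737) (dlOf (nat_lit 1) (nat_lit 0x24002000c0008080002)))) 
(.lf (nat_lit 4095262865) (dlOf (nat_lit 1) (nat_lit 0x1000801a8002004e0008081083))))))))) 
(.nd (nat_lit 26) (.nd (nat_lit 18) (.nd (nat_lit 6) (.nd (nat_lit 19) (.nd (nat_lit 24) 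
(.nd (nat_lit 11) (.nd (nat_lit 7) (.nd (nat_lit 20) 
(.lf (nat_lit 14729237) (dlOf (nat_lit 2) (nat_lit 0xce348007a8080130008009400200440008770083))) 
(.lf (nat_lit 47235093) (dlOf (nat_lit 1) (nat_lit 0x4004000200093c0002)))) 
(.lf (nat_lit 939573397) (dlOf (nat_lit 2) (nat_lit 0x10026000e0110000f81001f000800ec002006400080b0183)))) 
(.nd (nat_lit 8) (.lf (nat_lit 4026587157) (dlOf (nat_lit 1) (nat_lit 0xa001800a601))) 
(.lf (nat_lit 6710938389) (dlOf (nat_lit 1) (nat_lit 0x120018005b81))))) (.nd (nat_lit 21) 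
(.nd (nat_lit 22) (.lf (nat_lit 16826389) (dlOf (nat_lit 1) (nat_lit 0x4002000200088e0002))) 
(.lf (nat_lit 21020693) (dlOf (nat_lit 1) (nat_lit 0x1400400060008a00582)))) (.nd (nat_lit 7) 
(.lf (nat_lit 52477973) (dlOf (nat_lit 1) (nat_lit 0x400400020009540502))) 
(.lf (nat_lit 19979669) (dlOf (nat_lit 1) (nat_lit 0x1a00189dca01)))))) (.nd (nat_lit 21) 
(.nd (nat_lit 20) (.nd (nat_lit 7) 
(.lf (nat_lit 134791189) (dlOf (nat_lit 1) (nat_lit 0x3c002001200080b0902))) 
(.lf (nat_lit 537444501) (dlOf (nat_lit 2) (nat_lit 0x20240002a818090180)))) (.nd (nat_lit 8) 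
(.nd (nat_lit 10) (.lf (nat_lit 1343799317) (dlOf (nat_lit 1) (nat_lit 0x20028370001))) 
(.lf (nat_lit 60345365) (dlOf (nat_lit 1) (nat_lit 0x3400200060009845f82)))) 
(.lf (nat_lit 1343799573) (dlOf (nat_lit 1) (nat_lit 0x20028370701))))) (.nd (nat_lit 25) 
(.nd (nat_lit 9) (.lf (nat_lit 3493380117) (dlOf (nat_lit 1) (nat_lit 0x4000400220018120882))) 
(.lf (nat_lit 1345896981) (dlOf (nat_lit 1) (nat_lit 0x10004001c0008e07d82)))) (.nd (nat_lit 7) 
(.lf (nat_lit 48807957) (dlOf (nat_lit 2) (nat_lit 0x1304c0005804000400400020019430502))) 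
(.lf (nat_lit 37276053) (dlOf (nat_lit 1) (nat_lit 0x4002004200090d4e82))))))) (.nd (nat_lit 7) 
(.nd (nat_lit 29) (.nd (nat_lit 8) 
(.lf (nat_lit 25215061) (dlOf (nat_lit 3) (nat_lit 0x6113c8000b0080088d440004204000400400020018bf0d82))) 
(.nd (nat_lit 11) (.nd (nat_lit 20) 
(.lf (nat_lit 6576718165) (dlOf (nat_lit 1) (nat_lit 0x200280b0681))) 
(.lf (nat_lit 3195221) (dlOf (nat_lit 2) (nat_lit 0x1e51100005018200680)))) 
(.lf (nat_lit 575829) (dlOf (nat_lit 1) (nat_lit 0x8008000400200020008004e03))))) (.nd (nat_lit 8) 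
(.nd (nat_lit 28) (.lf (nat_lit 4831887445) (dlOf (nat_lit 1) (nat_lit 0x40028050001))) 
(.lf (nat_lit 6174064725) (dlOf (nat_lit 1) (nat_lit 0x400400020008050002)))) (.nd (nat_lit 11) 
(.lf (nat_lit 939573589) (dlOf (nat_lit 1) (nat_lit 0x6c002005800080b0682))) 
(.lf (nat_lit 4026583381) (dlOf (nat_lit 1) (nat_lit 0x100008004e01)))))) (.nd (nat_lit 8) 
(.nd (nat_lit 23) (.nd (nat_lit 27) 
(.lf (nat_lit 5100324053) (dlOf (nat_lit 1) (nat_lit 0x20018052d81))) 
(.lf (nat_lit 6308283605) (dlOf (nat_lit 1) (nat_lit 0x800400020008052d82)))) 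
(.lf (nat_lit 8438997) (dlOf (nat_lit 1) (nat_lit 0x800200020008512d82)))) (.nd (nat_lit 10) 
(.nd (nat_lit 11) (.lf (nat_lit 50905557) (dlOf (nat_lit 1) (nat_lit 0x400194d7b01))) 
(.lf (nat_lit 39373269) (dlOf (nat_lit 1) (nat_lit 0x20009194e81)))) 
(.lf (nat_lit 8443349) (dlOf (nat_lit 3) (nat_lit 0x7c4cd003d24a80018f88000480c002cb12007c4cd00010028519b00))))))) 
(.nd (nat_lit 20) (.nd (nat_lit 23) (.nd (nat_lit 6) (.nd (nat_lit 7) (.nd (nat_lit 27) 
(.lf (nat_lit 1342488597) (dlOf (nat_lit 1) (nat_lit 0x1c004001a0008040482))) 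
(.lf (nat_lit 1208270869) (dlOf (nat_lit 1) (nat_lit 0x80080004002000200080b0083)))) 
(.lf (nat_lit 2408597) (dlOf (nat_lit 1) (nat_lit 0x1000400020008150182)))) (.nd (nat_lit 7) 
(.lf (nat_lit 56935765) (dlOf (nat_lit 1) (nat_lit 0x20019793381))) 
(.lf (nat_lit 3221537237) (dlOf (nat_lit 2) (nat_lit 0x5a00000249018127100))))) (.nd (nat_lit 19) 
(.nd (nat_lit 21) 
(.lf (nat_lit 12894229) (dlOf (nat_lit 8) (nat_lit 0x3151e0018a8a000d5260002d20c005ea4a000751e0001a8a0005a01800ad494002ea3c00055140005a4c00059c2000454940056a3c00315140019a4c00007420009d4940016a3c0013514000aa4c00007020007d4940026a3c00135140005a4c00006c20008d494001ea3c00115140003a4c000068200308008000c002000c00086e0583))) 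
(.nd (nat_lit 24) (.lf (nat_lit 10797077) (dlOf (nat_lit 1) (nat_lit 0x1000200020008630582))) 
(.lf (nat_lit 27574293) (dlOf (nat_lit 1) (nat_lit 0x1800400060008d00402))))) (.nd (nat_lit 6) 
(.nd (nat_lit 24) (.lf (nat_lit 42778645) (dlOf (nat_lit 1) (nat_lit 0x280019280081))) 
(.lf (nat_lit 59555861) (dlOf (nat_lit 1) (nat_lit 0x600080030002002e0009810503)))) 
(.lf (nat_lit 13418581) (dlOf (nat_lit 2) (nat_lit 0x31bd50001e818721980)))))) (.nd (nat_lit 19) 
(.nd (nat_lit 6) (.nd (nat_lit 7) (.nd (nat_lit 25) 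
(.lf (nat_lit 22331413) (dlOf (nat_lit 1) (nat_lit 0x200080018002002a0008ac0103))) 
(.lf (nat_lit 55885845) (dlOf (nat_lit 1) (nat_lit 0x200196e0481)))) 
(.lf (nat_lit 3457173) (dlOf (nat_lit 2) (nat_lit 0x149220007c8e4004c45b00005038200180)))) 
(.nd (nat_lit 7) (.nd (nat_lit 8) 
(.lf (nat_lit 26525781) (dlOf (nat_lit 2) (nat_lit 0xeca700000018c50780))) 
(.lf (nat_lit 3457365) (dlOf (nat_lit 2) (nat_lit 0x248800007018200680)))) 
(.lf (nat_lit 13942997) (dlOf (nat_lit 1) (nat_lit 0x400200020008750502))))) (.nd (nat_lit 21) 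
(.nd (nat_lit 22) 
(.lf (nat_lit 18661397) (dlOf (nat_lit 2) (nat_lit 0x233a1800220080020008000800200320008960383))) 
(.lf (nat_lit 22855701) (dlOf (nat_lit 1) (nat_lit 0x1500080004002000c0008b30283)))) 
(.nd (nat_lit 6) (.nd (nat_lit 31) 
(.lf (nat_lit 1346158613) (dlOf (nat_lit 6) (nat_lit 0x1f8598003da0400f02cc001eb02009e166000f50100710b30007480802b8598003a20400dc00400040008e60082))) 
(.lf (nat_lit 3493642261) (dlOf (nat_lit 1) (nat_lit 0x80018190501)))) 
(.lf (nat_lit 1346158677) (dlOf (nat_lit 1) (nat_lit 0xc4004001e0008e60802)))))))) 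
(.nd (nat_lit 28) (.nd (nat_lit 6) (.nd (nat_lit 19) (.nd (nat_lit 7) (.nd (nat_lit 8) 
(.nd (nat_lit 9) (.lf (nat_lit 2751513621) (dlOf (nat_lit 1) (nat_lit 0x20018002881))) 
(.lf (nat_lit 4362131989) (dlOf (nat_lit 1) (nat_lit 0x40040002000800b282)))) 
(.lf (nat_lit 3288386837) (dlOf (nat_lit 5) (nat_lit 0x400ac0002604001c0560001202002802e0000801001001700003c0801a80080178002004a0008006703)))) 
(.nd (nat_lit 9) 
(.lf (nat_lit 1811988629) (dlOf (nat_lit 2) (nat_lit 0x10026000e0110000f81001f000800ec002006400080b0183))) 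
(.lf (nat_lit 2885734037) (dlOf (nat_lit 2) (nat_lit 0x12805c001c01a002d00c0000d01800900080078002003e0008007203))))) 
(.nd (nat_lit 18) (.nd (nat_lit 20) (.nd (nat_lit 27) 
(.lf (nat_lit 4362649621) (dlOf (nat_lit 1) (nat_lit 0x1c00180c0201))) 
(.lf (nat_lit 201900053) (dlOf (nat_lit 1) (nat_lit 0x3c002001200080b0902)))) 
(.lf (nat_lit 2755182613) (dlOf (nat_lit 1) (nat_lit 0x4000400220018120882)))) (.nd (nat_lit 7) 
(.lf (nat_lit 2755444757) (dlOf (nat_lit 1) (nat_lit 0x80018190501))) 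
(.lf (nat_lit 4362911893) (dlOf (nat_lit 2) (nat_lit 0x17805a000050181a0180)))))) (.nd (nat_lit 7) 
(.nd (nat_lit 8) (.nd (nat_lit 9) 
(.lf (nat_lit 2349121621) (dlOf (nat_lit 7) (nat_lit 0xc0280001e8100290140000f00800500a00007604012c050000370200a00280001b01004d0140000d40800300080008002001000080c1983))) 
(.nd (nat_lit 10) 
(.lf (nat_lit 6643827285) (dlOf (nat_lit 1) (nat_lit 0x20008000400200040008001683))) 
(.lf (nat_lit 6106957397) (dlOf (nat_lit 1) (nat_lit 0x400400020008003882))))) (.nd (nat_lit 11) 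
(.nd (nat_lit 27) (.lf (nat_lit 5972738389) (dlOf (nat_lit 1) (nat_lit 0x200280b0681))) 
(.lf (nat_lit 1811988821) (dlOf (nat_lit 1) (nat_lit 0x6c002005800080b0682)))) 
(.lf (nat_lit 2348861781) (dlOf (nat_lit 1) (nat_lit 0x20028004e01))))) (.nd (nat_lit 10) 
(.nd (nat_lit 8) (.lf (nat_lit 6107218133) (dlOf (nat_lit 1) (nat_lit 0x8004000400080c1c02))) 
(.lf (nat_lit 4496343509) (dlOf (nat_lit 1) (nat_lit 0x400200020008051182)))) (.nd (nat_lit 27) 
(.nd (nat_lit 29) (.lf (nat_lit 5435868373) (dlOf (nat_lit 1) (nat_lit 0x400200020008002d82))) 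
(.lf (nat_lit 4898997461) (dlOf (nat_lit 1) (nat_lit 0x800400020008052d82)))) 
(.lf (nat_lit 5570086101) (dlOf (nat_lit 1) (nat_lit 0x10008000400200020008052d83))))))) 
(.nd (nat_lit 18) (.nd (nat_lit 7) (.nd (nat_lit 6) (.nd (nat_lit 27) 
(.lf (nat_lit 3557343253) (dlOf (nat_lit 2) (nat_lit 0x4c0700000002000200181c0481))) 
(.nd (nat_lit 30) (.lf (nat_lit 3154690069) (dlOf (nat_lit 2) (nat_lit 0x8202c001fa018310000))) 
(.lf (nat_lit 4228431893) (dlOf (nat_lit 2) (nat_lit 0x1b024001480c400180600002c06002c00080c0281))))) 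
(.nd (nat_lit 21) (.lf (nat_lit 5704302677) (dlOf (nat_lit 1) (nat_lit 0x400400040018050002))) 
(.lf (nat_lit 471908437) (dlOf (nat_lit 2) (nat_lit 0x90030000000800c80080064002000200086b0303))))) 
(.nd (nat_lit 11) (.nd (nat_lit 10) 
(.lf (nat_lit 1409859733) (dlOf (nat_lit 2) (nat_lit 0x20240002a818090180))) 
(.lf (nat_lit 6375392405) (dlOf (nat_lit 1) (nat_lit 0x30008002000200100008002b83)))) 
(.nd (nat_lit 8) (.lf (nat_lit 3691042965) (dlOf (nat_lit 1) (nat_lit 0x24002000c000800a882))) 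
(.lf (nat_lit 5167434645) (dlOf (nat_lit 1) (nat_lit 0x20018055c81)))))) (.nd (nat_lit 6) 
(.nd (nat_lit 29) (.nd (nat_lit 7) (.nd (nat_lit 31) 
(.lf (nat_lit 470073365) (dlOf (nat_lit 1) (nat_lit 0x1c004001a0008040482))) 
(.lf (nat_lit 2617557013) (dlOf (nat_lit 1) (nat_lit 0x400280f0501)))) 
(.lf (nat_lit 473744533) (dlOf (nat_lit 2) (nat_lit 0x1583640011204010400400580008fa2b82)))) 
(.nd (nat_lit 7) (.nd (nat_lit 30) 
(.lf (nat_lit 3154427925) (dlOf (nat_lit 1) (nat_lit 0x60008170481))) 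
(.lf (nat_lit 2080686101) (dlOf (nat_lit 1) (nat_lit 0x80080004002000200080b0083)))) 
(.lf (nat_lit 4228694165) (dlOf (nat_lit 2) (nat_lit 0x178053000050181a0180))))) (.nd (nat_lit 7) 
(.nd (nat_lit 8) (.nd (nat_lit 22) 
(.lf (nat_lit 2483339349) (dlOf (nat_lit 1) (nat_lit 0x80080004002000400080c1683))) 
(.lf (nat_lit 474267733) (dlOf (nat_lit 1) (nat_lit 0x20019100701)))) 
(.lf (nat_lit 1009041749) (dlOf (nat_lit 1) (nat_lit 0x400400020009017082)))) 
(.lf (nat_lit 471646421) (dlOf (nat_lit 1) (nat_lit 0x20018370501))))))))) (.nd (nat_lit 18) 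
(.nd (nat_lit 28) (.nd (nat_lit 2) (.nd (nat_lit 19) (.nd (nat_lit 8) (.nd (nat_lit 22) 
(.nd (nat_lit 9) (.nd (nat_lit 20) 
(.lf (nat_lit 25215025) (dlOf (nat_lit 1) (nat_lit 0x26000800e800200660008bf0b03))) 
(.lf (nat_lit 68206641) (dlOf (nat_lit 2) (nat_lit 0x920e0002906e8018037000a41b000520d6001a0668013832c00a418800520c2002905a0018821400e00e4003606d0027032001000e80003a3c00c000400100008450702)))) 
(.nd (nat_lit 7) (.lf (nat_lit 41994801) (dlOf (nat_lit 1) (nat_lit 0x20029245181))) 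
(.lf (nat_lit 3959475889) (dlOf (nat_lit 1) (nat_lit 0x400200020008007282))))) (.nd (nat_lit 6) 
(.nd (nat_lit 7) 
(.lf (nat_lit 23117873) (dlOf (nat_lit 3) (nat_lit 0x23c8b0011e1c00004a0801318360000f0200120008b60901))) 
(.lf (nat_lit 2755707057) (dlOf (nat_lit 1) (nat_lit 0x80080040002000c00081b0303)))) 
(.lf (nat_lit 47235185) (dlOf (nat_lit 1) (nat_lit 0x200293c0d81))))) (.nd (nat_lit 7) 
(.nd (nat_lit 6) (.lf (nat_lit 10535217) (dlOf (nat_lit 1) (nat_lit 0x4002000200085f8402))) 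
(.nd (nat_lit 9) (.lf (nat_lit 3892364657) (dlOf (nat_lit 1) (nat_lit 0x60028083501))) 
(.lf (nat_lit 6643831665) (dlOf (nat_lit 1) (nat_lit 0x4004000c0008008f82))))) (.nd (nat_lit 6) 
(.lf (nat_lit 4898997681) (dlOf (nat_lit 2) (nat_lit 0x100380008e0200020018053601))) 
(.nd (nat_lit 12) (.lf (nat_lit 3892364273) (dlOf (nat_lit 1) (nat_lit 0x20028082881))) 
(.lf (nat_lit 604034033) (dlOf (nat_lit 1) (nat_lit 0x20018009201))))))) (.nd (nat_lit 24) 
(.nd (nat_lit 7) (.nd (nat_lit 22) (.nd (nat_lit 26) 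
(.lf (nat_lit 3221798961) (dlOf (nat_lit 1) (nat_lit 0x60008191101))) 
(.lf (nat_lit 3959996465) (dlOf (nat_lit 1) (nat_lit 0x60008191101)))) 
(.lf (nat_lit 13156401) (dlOf (nat_lit 1) (nat_lit 0x8800400020008701102)))) (.nd (nat_lit 6) 
(.lf (nat_lit 41469105) (dlOf (nat_lit 2) (nat_lit 0x1498e00025819242c00))) 
(.lf (nat_lit 40421873) (dlOf (nat_lit 1) (nat_lit 0x200291f4f01))))) (.nd (nat_lit 6) 
(.nd (nat_lit 20) (.nd (nat_lit 25) 
(.lf (nat_lit 21545009) (dlOf (nat_lit 1) (nat_lit 0x5000200020008a40382))) 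
(.lf (nat_lit 55099441) (dlOf (nat_lit 1) (nat_lit 0x200296b0a81)))) 
(.lf (nat_lit 26787889) (dlOf (nat_lit 12) (nat_lit 0x21b6a900017c0800cb548000bc040119aa40005d021a22d5200086a00026336805b999200059080008d520002a8100166a90001500802a3548017daa2002cd4f0002903001f6a900014408002b5480065aa20004b0400bed5200016960000c010003b54800004040050004008a0018c70902)))) 
(.nd (nat_lit 7) (.lf (nat_lit 21545073) (dlOf (nat_lit 2) (nat_lit 0x717b00000002000a0008a40d81))) 
(.lf (nat_lit 58245617) (dlOf (nat_lit 1) (nat_lit 0x800297c7401))))))) (.nd (nat_lit 6) 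
(.nd (nat_lit 26) (.nd (nat_lit 20) (.nd (nat_lit 8) (.nd (nat_lit 21) 
(.lf (nat_lit 21545013) (dlOf (nat_lit 1) (nat_lit 0x2400400720008a40482))) 
(.lf (nat_lit 15253557) (dlOf (nat_lit 2) (nat_lit 0x154e68000940800080080018002000600087c0783)))) 
(.lf (nat_lit 8443189) (dlOf (nat_lit 1) (nat_lit 0x3f80080004002009a0008519903)))) 
(.nd (nat_lit 21) (.lf (nat_lit 26787893) (dlOf (nat_lit 1) (nat_lit 0xc0028c70b01))) 
(.lf (nat_lit 3719221) (dlOf (nat_lit 2) (nat_lit 0x47d0001380200020008220a81))))) 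
(.nd (nat_lit 11) (.nd (nat_lit 19) 
(.lf (nat_lit 68206645) (dlOf (nat_lit 5) (nat_lit 0xe05f800702e000380d60002e06001000000015810126000000094080008000000460400d000200060008450782))) 
(.nd (nat_lit 20) (.lf (nat_lit 2756231221) (dlOf (nat_lit 2) (nat_lit 0xa801e000e2818220b80))) 
(.lf (nat_lit 2755182645) (dlOf (nat_lit 2) (nat_lit 0x160690015022000500900028040001c50800fe0008120d01))))) 
(.nd (nat_lit 7) (.lf (nat_lit 4362127669) (dlOf (nat_lit 1) (nat_lit 0xe0008004c01))) 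
(.lf (nat_lit 2885733557) (dlOf (nat_lit 11) (nat_lit 0x17201c00c800d80748010052c0060002408017201c00c800d8074001005280060002208018001c00ed00200008010062007003bc0080001f04007601c005400200007410000807000036040414062015e0000000c8200e801880538000000300803f0062012e0000000b0200f50188048800000028080030004002c0018006282)))))) 
(.nd (nat_lit 10) (.nd (nat_lit 7) (.nd (nat_lit 20) 
(.lf (nat_lit 4831887477) (dlOf (nat_lit 1) (nat_lit 0x20018050201))) 
(.lf (nat_lit 47235189) (dlOf (nat_lit 1) (nat_lit 0x100080008002000400093c0d83)))) 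
(.nd (nat_lit 8) 
(.lf (nat_lit 4831887605) (dlOf (nat_lit 1) (nat_lit 0x8008000400200020008050a83))) 
(.lf (nat_lit 2348860405) (dlOf (nat_lit 1) (nat_lit 0x11c0028002881))))) (.nd (nat_lit 8) 
(.nd (nat_lit 7) (.lf (nat_lit 50381941) (dlOf (nat_lit 1) (nat_lit 0x600294c2a01))) 
(.nd (nat_lit 9) (.lf (nat_lit 4966106357) (dlOf (nat_lit 1) (nat_lit 0x340018002e81))) 
(.lf (nat_lit 2751514357) (dlOf (nat_lit 1) (nat_lit 0x198008003c00200080008003b83))))) 
(.nd (nat_lit 11) 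
(.lf (nat_lit 6643832309) (dlOf (nat_lit 2) (nat_lit 0x300800028804001000400040008009c02))) 
(.lf (nat_lit 3288387061) (dlOf (nat_lit 1) (nat_lit 0x8008002000200020008006f83)))))))) 
(.nd (nat_lit 6) (.nd (nat_lit 2) (.nd (nat_lit 19) (.nd (nat_lit 7) (.nd (nat_lit 8) 
(.nd (nat_lit 26) (.lf (nat_lit 1880145969) (dlOf (nat_lit 1) (nat_lit 0x80018760b81))) 
(.lf (nat_lit 470859825) (dlOf (nat_lit 4) (nat_lit 0x1e0000000a808033858c02702b8004c15500820a4803504b803701c800760d4008905d80108264004412a001c0220000e8b006b0ae0022052400b825c00800e4000105d8000702800d8008008c002009a00081c0703)))) 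
(.lf (nat_lit 4160804145) (dlOf (nat_lit 1) (nat_lit 0x160018009881)))) (.nd (nat_lit 11) 
(.lf (nat_lit 2617300145) (dlOf (nat_lit 1) (nat_lit 0x8008000400200020008009503))) 
(.lf (nat_lit 1879100593) (dlOf (nat_lit 1) (nat_lit 0xc002000a0008006282))))) (.nd (nat_lit 7) 
(.nd (nat_lit 9) (.nd (nat_lit 21) 
(.lf (nat_lit 3557343281) (dlOf (nat_lit 3) (nat_lit 0x8011000148100040248000812000b0024000800500080000000702800280080024002001000081c0703))) 
(.lf (nat_lit 3492331569) (dlOf (nat_lit 7) (nat_lit 0xdbc1b6031808b000190203c206d80ed822c000600804d81b60002e0202aa0db002805b8000b410018036c000560404a01b60002902000200180c0e81)))) 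
(.lf (nat_lit 472435249) (dlOf (nat_lit 2) (nat_lit 0x304e00022c080028008000c00200020008985183)))) 
(.nd (nat_lit 8) 
(.lf (nat_lit 3154690225) (dlOf (nat_lit 3) (nat_lit 0x280b001512040054032007a0180053d828310480))) 
(.lf (nat_lit 472435121) (dlOf (nat_lit 1) (nat_lit 0x10008000c00200020008984e83)))))) 
(.nd (nat_lit 19) (.nd (nat_lit 9) (.nd (nat_lit 7) (.nd (nat_lit 26) 
(.lf (nat_lit 1343275061) (dlOf (nat_lit 3) (nat_lit 0x160000001281002d0000000880800080080010002000e00081e0783))) 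
(.lf (nat_lit 470859829) (dlOf (nat_lit 12) (nat_lit 0x4f42b8020012e00c8072004f02ec0410132009c089000170600030ae0000b408075858c04842aa00cc14201ae05f008d825403f41040300000000158700011030044058c01282aa017a142012f098806904b000dc1ce01280be004405b8029825401041040014000000128c00100aa802202f801100000002306013216300890aa8061050805d826201ae0be000b05b801b02bc026412a011008200270000000885000a05540120284009a0be000c04a80038208000401401482620001202016615c000060100040ae00001c080c58570060429200da099006600000000020024800802dc00201aa00081c0783)))) 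
(.lf (nat_lit 1342233781) (dlOf (nat_lit 1) (nat_lit 0x8002800c201)))) (.nd (nat_lit 26) 
(.lf (nat_lit 268486197) (dlOf (nat_lit 5) (nat_lit 0xe0070000e01005a00a000060080028050000280400640280001102000c0018053781))) 
(.lf (nat_lit 6375392821) (dlOf (nat_lit 1) (nat_lit 0x40018003781))))) (.nd (nat_lit 20) 
(.nd (nat_lit 10) (.lf (nat_lit 3494428725) (dlOf (nat_lit 2) (nat_lit 0xa801e000e2818220b80))) 
(.lf (nat_lit 472433717) (dlOf (nat_lit 1) (nat_lit 0x400400020018982882)))) (.nd (nat_lit 7) 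
(.nd (nat_lit 21) (.lf (nat_lit 1343799349) (dlOf (nat_lit 1) (nat_lit 0x20028370001))) 
(.lf (nat_lit 3493380149) (dlOf (nat_lit 2) (nat_lit 0x160690015022000500900028040001c50800fe0008120d01)))) 
(.lf (nat_lit 4095262901) (dlOf (nat_lit 2) (nat_lit 0x800000026818081700))))))) (.nd (nat_lit 7) 
(.nd (nat_lit 8) (.nd (nat_lit 12) (.nd (nat_lit 9) 
(.lf (nat_lit 6174064753) (dlOf (nat_lit 1) (nat_lit 0x400400020008050182))) 
(.lf (nat_lit 6375392881) (dlOf (nat_lit 1) (nat_lit 0x400400020008003982)))) (.nd (nat_lit 11) 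
(.lf (nat_lit 3691041905) (dlOf (nat_lit 1) (nat_lit 0x1c00400040008009402))) 
(.lf (nat_lit 2952846449) (dlOf (nat_lit 2) (nat_lit 0x401c0001781800c100))))) (.nd (nat_lit 9) 
(.nd (nat_lit 10) 
(.lf (nat_lit 4095263089) (dlOf (nat_lit 2) (nat_lit 0x8000015dc040020002000e0008085802))) 
(.nd (nat_lit 11) (.lf (nat_lit 6375392625) (dlOf (nat_lit 1) (nat_lit 0x20028003501))) 
(.lf (nat_lit 4227915121) (dlOf (nat_lit 2) (nat_lit 0x180320033381800c900))))) (.nd (nat_lit 27) 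
(.lf (nat_lit 4026582897) (dlOf (nat_lit 1) (nat_lit 0x8008001c00200020008004083))) 
(.lf (nat_lit 3623929713) (dlOf (nat_lit 1) (nat_lit 0x400400020018004082)))))) (.nd (nat_lit 2) 
(.nd (nat_lit 9) (.nd (nat_lit 8) 
(.lf (nat_lit 474530033) (dlOf (nat_lit 1) (nat_lit 0x4004001400191a1e82))) (.nd (nat_lit 11) 
(.lf (nat_lit 6308283889) (dlOf (nat_lit 1) (nat_lit 0x400400020008053602))) 
(.lf (nat_lit 4227911153) (dlOf (nat_lit 1) (nat_lit 0x400200020008006f02))))) (.nd (nat_lit 11) 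
(.nd (nat_lit 20) (.lf (nat_lit 3623928817) (dlOf (nat_lit 1) (nat_lit 0x20028002881))) 
(.lf (nat_lit 3492856817) (dlOf (nat_lit 1) (nat_lit 0x780080004002000e00080f2883)))) 
(.lf (nat_lit 6710938609) (dlOf (nat_lit 1) (nat_lit 0x140018005f01))))) (.nd (nat_lit 10) 
(.nd (nat_lit 19) (.lf (nat_lit 6174064885) (dlOf (nat_lit 1) (nat_lit 0x400400020008050a82))) 
(.lf (nat_lit 3154690293) (dlOf (nat_lit 1) (nat_lit 0x8400200600008310602)))) (.nd (nat_lit 8) 
(.lf (nat_lit 4026582773) (dlOf (nat_lit 2) (nat_lit 0x203400023818003b80))) 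
(.lf (nat_lit 6308283893) (dlOf (nat_lit 1) (nat_lit 0x60008053601))))))))) (.nd (nat_lit 2) 
(.nd (nat_lit 21) (.nd (nat_lit 30) (.nd (nat_lit 20) (.nd (nat_lit 8) (.nd (nat_lit 26) 
(.nd (nat_lit 19) (.lf (nat_lit 4295278641) (dlOf (nat_lit 1) (nat_lit 0x14004000200080f0e82))) 
(.nd (nat_lit 23) (.lf (nat_lit 5029937) (dlOf (nat_lit 1) (nat_lit 0x200080004002000400082f0903))) 
(.lf (nat_lit 13418545) (dlOf (nat_lit 6) (nat_lit 0x1ee8f801571b802f78c0018bc5e00bdde9801e6f40004ae12002cf6f00050000000d84805e7180030f8bc0179bd3002fde80000d02005ef18003138bc016dbd3002cde80000b82003e71780005a0402fb8c0018dc5e00bede98018ef400005610003c00401220008720f82))))) 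
(.nd (nat_lit 28) (.nd (nat_lit 7) 
(.lf (nat_lit 4362387505) (dlOf (nat_lit 1) (nat_lit 0x8008000800200040008050683))) 
(.lf (nat_lit 2751776433) (dlOf (nat_lit 1) (nat_lit 0x400400020008003a82)))) (.nd (nat_lit 29) 
(.lf (nat_lit 2483339313) (dlOf (nat_lit 6) (nat_lit 0xcc0560b0202201fe00a002d00000006c1014e804400034020160022000170100840110000b40802380880005604001400403a600180c0e82))) 
(.lf (nat_lit 872726577) (dlOf (nat_lit 2) (nat_lit 0x400c4000c03200060140011e0380b0480)))))) 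
(.nd (nat_lit 29) (.nd (nat_lit 6) 
(.lf (nat_lit 6442762545) (dlOf (nat_lit 1) (nat_lit 0x400181b0501))) 
(.lf (nat_lit 313201) (dlOf (nat_lit 1) (nat_lit 0x20028004081)))) (.nd (nat_lit 27) 
(.lf (nat_lit 537182513) (dlOf (nat_lit 3) (nat_lit 0x3a05f0025001002102f8012580800e00080004002002e0008048403))) 
(.lf (nat_lit 671400241) (dlOf (nat_lit 3) (nat_lit 0x160000026481000b00000131c080010008001800200260008188403)))))) 
(.nd (nat_lit 6) (.nd (nat_lit 19) (.nd (nat_lit 24) 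
(.lf (nat_lit 9748529) (dlOf (nat_lit 2) (nat_lit 0x9a450009d218000d0100010008014800200760008580383))) 
(.lf (nat_lit 26525745) (dlOf (nat_lit 2) (nat_lit 0x21ec280071c080098008013800200240008c50483)))) 
(.nd (nat_lit 22) 
(.lf (nat_lit 27050033) (dlOf (nat_lit 2) (nat_lit 0x5b4f500119d08000dc100048008004400200260008ca0703))) 
(.lf (nat_lit 22855729) (dlOf (nat_lit 1) (nat_lit 0x40008000400200040008b30703))))) 
(.nd (nat_lit 9) (.nd (nat_lit 19) 
(.lf (nat_lit 9748593) (dlOf (nat_lit 1) (nat_lit 0x1ac002002a0008580d82))) 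
(.lf (nat_lit 471646321) (dlOf (nat_lit 2) (nat_lit 0x408584001f6040008002000e0008370482)))) 
(.lf (nat_lit 43304561) (dlOf (nat_lit 1) (nat_lit 0x4004000200092a3982)))))) (.nd (nat_lit 26) 
(.nd (nat_lit 27) (.nd (nat_lit 6) (.nd (nat_lit 7) 
(.lf (nat_lit 3221537329) (dlOf (nat_lit 6) (nat_lit 0x7c01c000e00c000200000008c1800980380004404008c01c0001e02002800e00110000000701000980380003604002c002004c0008128002))) 
(.lf (nat_lit 5637456049) (dlOf (nat_lit 2) (nat_lit 0x806800066040024004000a00180f1602)))) 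
(.lf (nat_lit 4026843249) (dlOf (nat_lit 8) (nat_lit 0x1680d0004806000580290000d83001b01b000d00c8007405600100240000c84007001b002c00c80110060008802b00350120000602800b00d800e8068003a030003401480002c2002680d80104068007e03000310148000282002080d800c0068008203000310148000242002b80d800f8068007c03000340148000202003580080090002000600080a1583)))) 
(.nd (nat_lit 19) (.nd (nat_lit 29) 
(.lf (nat_lit 1208270897) (dlOf (nat_lit 2) (nat_lit 0x6c013801f80280046e080038004001400180b0482))) 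
(.lf (nat_lit 1745141809) (dlOf (nat_lit 2) (nat_lit 0x400c4000c03200060140011e0380b0480)))) 
(.lf (nat_lit 5773246513) (dlOf (nat_lit 2) (nat_lit 0x4a02a0011e0180b0480))))) (.nd (nat_lit 8) 
(.nd (nat_lit 31) (.nd (nat_lit 19) 
(.lf (nat_lit 2080686129) (dlOf (nat_lit 2) (nat_lit 0x6c013801f80280046e080038004001400180b0482))) 
(.lf (nat_lit 6377226289) (dlOf (nat_lit 2) (nat_lit 0x4a02a0011e0180b0480)))) (.nd (nat_lit 6) 
(.lf (nat_lit 4228169777) (dlOf (nat_lit 1) (nat_lit 0x8008000800200040008050683))) 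
(.lf (nat_lit 3288645745) (dlOf (nat_lit 8) (nat_lit 0x1680d0004806000580290000d83001b01b000d00c8007405600100240000c84007001b002c00c80110060008802b00350120000602800b00d800e8068003a030003401480002c2002680d80104068007e03000310148000282002080d800c0068008203000310148000242002b80d800f8068007c03000340148000202003580080090002000600080a1583))))) 
(.nd (nat_lit 27) (.nd (nat_lit 28) 
(.lf (nat_lit 3825516849) (dlOf (nat_lit 2) (nat_lit 0x60150001c818187a00))) 
(.lf (nat_lit 1409597745) (dlOf (nat_lit 1) (nat_lit 0x10008000400200060008047a03)))) 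
(.nd (nat_lit 32) 
(.lf (nat_lit 1543815473) (dlOf (nat_lit 1) (nat_lit 0x10008000c00200100008187a03))) 
(.lf (nat_lit 5838782769) (dlOf (nat_lit 1) (nat_lit 0x400181b0501)))))))) (.nd (nat_lit 19) 
(.nd (nat_lit 6) (.nd (nat_lit 7) (.nd (nat_lit 20) (.nd (nat_lit 22) 
(.lf (nat_lit 27574321) (dlOf (nat_lit 1) (nat_lit 0x5800400120018d00a02))) 
(.lf (nat_lit 6602801) (dlOf (nat_lit 2) (nat_lit 0xd513440003204002800400020008430f02)))) 
(.lf (nat_lit 7651377) (dlOf (nat_lit 2) (nat_lit 0xd529980003c040028004000200084c0f02)))) 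
(.nd (nat_lit 8) (.lf (nat_lit 2754924209) (dlOf (nat_lit 1) (nat_lit 0x200280f7281))) 
(.lf (nat_lit 49596849) (dlOf (nat_lit 1) (nat_lit 0x20009464e81))))) (.nd (nat_lit 7) 
(.nd (nat_lit 9) 
(.lf (nat_lit 3492069489) (dlOf (nat_lit 2) (nat_lit 0x680ad80006c0800180080018002000200080a1583))) 
(.lf (nat_lit 52741745) (dlOf (nat_lit 1) (nat_lit 0x200019573981)))) (.nd (nat_lit 8) 
(.lf (nat_lit 19185905) (dlOf (nat_lit 1) (nat_lit 0xb20028970601))) 
(.lf (nat_lit 473220081) (dlOf (nat_lit 1) (nat_lit 0x400400020008dd2882)))))) (.nd (nat_lit 20) 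
(.nd (nat_lit 31) (.nd (nat_lit 8) (.nd (nat_lit 23) 
(.lf (nat_lit 2932785) (dlOf (nat_lit 2) (nat_lit 0x2c09a004e0000002b0281d0680))) 
(.lf (nat_lit 11321393) (dlOf (nat_lit 1) (nat_lit 0xc0028690701)))) 
(.lf (nat_lit 19715377) (dlOf (nat_lit 1) (nat_lit 0x200189d9881)))) (.nd (nat_lit 26) 
(.lf (nat_lit 3492593713) (dlOf (nat_lit 3) (nat_lit 0xb848e02fc1fb00080f20001581805d07f000026040004004000800080e0682))) 
(.lf (nat_lit 2754396209) (dlOf (nat_lit 3) (nat_lit 0x5f842000101f6002e0d60001581805d084400026040004004000800080e0682))))) 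
(.nd (nat_lit 10) (.nd (nat_lit 26) 
(.lf (nat_lit 3493642289) (dlOf (nat_lit 1) (nat_lit 0x40008190981))) 
(.lf (nat_lit 2755444785) (dlOf (nat_lit 2) (nat_lit 0x47000000000080028008001400200020008190903)))) 
(.nd (nat_lit 7) (.lf (nat_lit 20764465) (dlOf (nat_lit 1) (nat_lit 0x200289da101))) 
(.lf (nat_lit 473744561) (dlOf (nat_lit 15) (nat_lit 0x1782c000ea0d9006104e00298234000e81001f81b2000730200fc0d90003901005a0af80030578016c1ae00c809b006404580017028018857c00182bc00600d7003604d801c022c000b414004c2be00260d70001c02000a0af8002835c0006c08019c2ba00ac0d5003c0650029026800f01140076000000198600710ae80268354014013400c408a002a0000000c02800305740005c0402241b20000802001c0d90000301006e06c80001008066858003501b2019409c00d10468000002002e8008004000200080008fa2c03)))))))) 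
(.nd (nat_lit 29) (.nd (nat_lit 6) (.nd (nat_lit 20) (.nd (nat_lit 8) (.nd (nat_lit 7) 
(.nd (nat_lit 10) 
(.lf (nat_lit 3492069429) (dlOf (nat_lit 2) (nat_lit 0xe054c00068040018002000a00080a0b02))) 
(.lf (nat_lit 57459765) (dlOf (nat_lit 1) (nat_lit 0x800200060009792882)))) 
(.lf (nat_lit 4563714229) (dlOf (nat_lit 7) (nat_lit 0x1802d000f00f8003981000100b40019804003005e001802d001700f8001901800600bc005005a002c01f00031830010017800600b4004403e0006106002202f000d016800b807c000be0c0004004000e00180c1702)))) 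
(.nd (nat_lit 21) (.lf (nat_lit 3221537077) (dlOf (nat_lit 1) (nat_lit 0x1000200100008124c02))) 
(.lf (nat_lit 23380277) (dlOf (nat_lit 1) (nat_lit 0x20018b80581))))) (.nd (nat_lit 19) 
(.nd (nat_lit 21) (.lf (nat_lit 9748533) (dlOf (nat_lit 1) (nat_lit 0xa0018580481))) 
(.lf (nat_lit 24428597) (dlOf (nat_lit 1) (nat_lit 0x20008000c00200060008ba0a83)))) 
(.nd (nat_lit 8) (.nd (nat_lit 24) 
(.lf (nat_lit 10272821) (dlOf (nat_lit 1) (nat_lit 0x44004000400185c0d02))) 
(.lf (nat_lit 27050037) (dlOf (nat_lit 3) (nat_lit 0x2d3d00004a040040000000000200300008ca0781)))) 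
(.lf (nat_lit 8181045) (dlOf (nat_lit 1) (nat_lit 0x400200020008519902)))))) (.nd (nat_lit 8) 
(.nd (nat_lit 7) (.nd (nat_lit 20) 
(.lf (nat_lit 1074053237) (dlOf (nat_lit 1) (nat_lit 0x800400020008090082))) 
(.lf (nat_lit 9748597) (dlOf (nat_lit 2) (nat_lit 0x3d1e80010f3c0000008001000400140008580d82)))) 
(.nd (nat_lit 9) (.lf (nat_lit 29671669) (dlOf (nat_lit 1) (nat_lit 0x800800f0002002e0008e30603))) 
(.lf (nat_lit 50645749) (dlOf (nat_lit 1) (nat_lit 0x4002000200094c5a02))))) (.nd (nat_lit 19) 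
(.nd (nat_lit 27) 
(.lf (nat_lit 4563714421) (dlOf (nat_lit 1) (nat_lit 0xc80080270002008a00080c5803))) 
(.lf (nat_lit 4697932149) (dlOf (nat_lit 1) (nat_lit 0xc80080270002008a00080c5803)))) 
(.nd (nat_lit 7) (.lf (nat_lit 36489589) (dlOf (nat_lit 1) (nat_lit 0x7e0009074e81))) 
(.lf (nat_lit 48022517) (dlOf (nat_lit 1) (nat_lit 0x20029402881))))))) (.nd (nat_lit 28) 
(.nd (nat_lit 7) (.nd (nat_lit 8) (.nd (nat_lit 21) 
(.lf (nat_lit 1745141813) (dlOf (nat_lit 2) (nat_lit 0x2011000380500047808003c004000600080b0482))) 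
(.lf (nat_lit 2753871925) (dlOf (nat_lit 1) (nat_lit 0xe00280a0a81)))) 
(.lf (nat_lit 3959734581) (dlOf (nat_lit 1) (nat_lit 0x1000200100008124c02)))) (.nd (nat_lit 6) 
(.nd (nat_lit 8) (.lf (nat_lit 537182389) (dlOf (nat_lit 1) (nat_lit 0x400200020008044f02))) 
(.lf (nat_lit 5905891765) (dlOf (nat_lit 1) (nat_lit 0x20028157781)))) 
(.lf (nat_lit 3959734773) (dlOf (nat_lit 2) (nat_lit 0xb400e00011018127e00))))) (.nd (nat_lit 30) 
(.nd (nat_lit 32) 
(.lf (nat_lit 872726581) (dlOf (nat_lit 2) (nat_lit 0x2011000380500047808003c004000600080b0482))) 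
(.lf (nat_lit 5167693877) (dlOf (nat_lit 2) (nat_lit 0x300500160e040020004000a0008111002)))) 
(.nd (nat_lit 6) (.nd (nat_lit 19) 
(.lf (nat_lit 4026843189) (dlOf (nat_lit 7) (nat_lit 0x56405c030c02d008d0130001681805a80b8008405a0002c0400ea02e006701680002c1000700b80000e04014c05c021c02d000018200bd016800008080768008016c002006400080a0a83))) 
(.lf (nat_lit 4096573493) (dlOf (nat_lit 2) (nat_lit 0x202a00534818131000)))) 
(.lf (nat_lit 1946468469) (dlOf (nat_lit 1) (nat_lit 0x800400020008090082)))))))))))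

end

end Pool.Agent.Lib.MP_5854e1_co.Cz

namespace Pool.Agent.Lib.MP_5854e1_co.Cz

noncomputable section

noncomputable def tz82 : DT := (.nd (nat_lit 2) (.nd (nat_lit 5) (.nd (nat_lit 4) (.nd (nat_lit 28) 
(.nd (nat_lit 18) (.nd (nat_lit 7) (.nd (nat_lit 10) (.nd (nat_lit 19) (.nd (nat_lit 9) 
(.nd (nat_lit 22) (.nd (nat_lit 20) 
(.lf (nat_lit 25214984) (dlOf (nat_lit 1) (nat_lit 0x8008000400200020008bf0483))) 
(.lf (nat_lit 9486344) (dlOf (nat_lit 1) (nat_lit 0x2e0018560481)))) (.nd (nat_lit 8) 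
(.lf (nat_lit 47235080) (dlOf (nat_lit 1) (nat_lit 0x80080058002000c00093c0003))) 
(.lf (nat_lit 30458120) (dlOf (nat_lit 1) (nat_lit 0x3a0018e30701))))) (.nd (nat_lit 6) 
(.lf (nat_lit 4362131976) (dlOf (nat_lit 2) (nat_lit 0x4880cc017ee0400680040008000800b282))) 
(.lf (nat_lit 11584072) (dlOf (nat_lit 1) (nat_lit 0x44002001800086c1102))))) (.nd (nat_lit 20) 
(.nd (nat_lit 21) (.nd (nat_lit 6) 
(.lf (nat_lit 42516488) (dlOf (nat_lit 1) (nat_lit 0x400400020009260002))) 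
(.lf (nat_lit 2756231240) (dlOf (nat_lit 3) (nat_lit 0x1b021001700780004a08002c084005201e00012028220c80)))) 
(.nd (nat_lit 9) 
(.lf (nat_lit 19447816) (dlOf (nat_lit 1) (nat_lit 0x1600080264002005200089a0583))) 
(.lf (nat_lit 40421896) (dlOf (nat_lit 1) (nat_lit 0x8000800d0002010e00091f5003))))) 
(.nd (nat_lit 6) (.nd (nat_lit 9) 
(.lf (nat_lit 18399240) (dlOf (nat_lit 1) (nat_lit 0x14000400040008930002))) 
(.lf (nat_lit 58245640) (dlOf (nat_lit 1) (nat_lit 0xf00080048002005000097c7b03)))) 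
(.lf (nat_lit 2755182664) (dlOf (nat_lit 2) (nat_lit 0x202400100100000941000d80080028002002e0008120f03)))))) 
(.nd (nat_lit 6) (.nd (nat_lit 8) (.nd (nat_lit 11) 
(.lf (nat_lit 4898997256) (dlOf (nat_lit 1) (nat_lit 0xb20018052881))) (.nd (nat_lit 19) 
(.lf (nat_lit 4831890440) (dlOf (nat_lit 1) (nat_lit 0x400400020008055f82))) 
(.lf (nat_lit 60345352) (dlOf (nat_lit 1) (nat_lit 0x400200020009845f82))))) (.nd (nat_lit 23) 
(.lf (nat_lit 6039852296) (dlOf (nat_lit 1) (nat_lit 0x400200020008009602))) 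
(.lf (nat_lit 8443144) (dlOf (nat_lit 1) (nat_lit 0x14c0008519601))))) (.nd (nat_lit 29) 
(.nd (nat_lit 30) (.lf (nat_lit 4496344136) (dlOf (nat_lit 1) (nat_lit 0x400400020008052882))) 
(.lf (nat_lit 5570085960) (dlOf (nat_lit 1) (nat_lit 0x400400020008052882)))) (.nd (nat_lit 9) 
(.lf (nat_lit 4898997320) (dlOf (nat_lit 1) (nat_lit 0x400400020008052882))) 
(.lf (nat_lit 6106957384) (dlOf (nat_lit 1) (nat_lit 0x400400020008003802))))))) (.nd (nat_lit 30) 
(.nd (nat_lit 6) (.nd (nat_lit 19) (.nd (nat_lit 9) 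
(.lf (nat_lit 8438152) (dlOf (nat_lit 1) (nat_lit 0x400200020008511002))) 
(.lf (nat_lit 19977096) (dlOf (nat_lit 1) (nat_lit 0x70008000c002000200089d9003)))) 
(.nd (nat_lit 8) (.lf (nat_lit 23642248) (dlOf (nat_lit 1) (nat_lit 0x800200020008b80102))) 
(.lf (nat_lit 37276040) (dlOf (nat_lit 1) (nat_lit 0x4002000200090d4e82))))) (.nd (nat_lit 11) 
(.nd (nat_lit 8) (.lf (nat_lit 738771144) (dlOf (nat_lit 1) (nat_lit 0x20018105981))) 
(.lf (nat_lit 43041224) (dlOf (nat_lit 1) (nat_lit 0x1b0008006800200c800092a1103)))) 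
(.nd (nat_lit 9) (.lf (nat_lit 8440008) (dlOf (nat_lit 1) (nat_lit 0x400200020008514982))) 
(.lf (nat_lit 57199304) (dlOf (nat_lit 1) (nat_lit 0x1880019795801)))))) (.nd (nat_lit 27) 
(.nd (nat_lit 6) (.nd (nat_lit 10) 
(.lf (nat_lit 1140900232) (dlOf (nat_lit 1) (nat_lit 0x60028001001))) 
(.lf (nat_lit 3288386952) (dlOf (nat_lit 1) (nat_lit 0x8008002000200020008006c83)))) 
(.lf (nat_lit 3288386760) (dlOf (nat_lit 2) (nat_lit 0x280d80004056000140400960008006381)))) 
(.nd (nat_lit 26) (.nd (nat_lit 29) 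
(.lf (nat_lit 1208009096) (dlOf (nat_lit 1) (nat_lit 0xc00400060008001002))) 
(.lf (nat_lit 3892363656) (dlOf (nat_lit 1) (nat_lit 0x20028081001)))) 
(.lf (nat_lit 6106956168) (dlOf (nat_lit 1) (nat_lit 0x180018001001))))))) (.nd (nat_lit 22) 
(.nd (nat_lit 29) (.nd (nat_lit 6) (.nd (nat_lit 7) (.nd (nat_lit 9) 
(.lf (nat_lit 9224200) (dlOf (nat_lit 2) (nat_lit 0x1b7c5006f9018530000))) 
(.lf (nat_lit 19715592) (dlOf (nat_lit 1) (nat_lit 0x600080064002003e00089d9c03)))) 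
(.nd (nat_lit 20) (.lf (nat_lit 5369020552) (dlOf (nat_lit 1) (nat_lit 0x400280c0e01))) 
(.lf (nat_lit 11845768) (dlOf (nat_lit 1) (nat_lit 0x8002000400086c0102))))) (.nd (nat_lit 20) 
(.nd (nat_lit 8) (.nd (nat_lit 19) 
(.lf (nat_lit 3288645704) (dlOf (nat_lit 9) (nat_lit 0x500000004002028a02e01580168000801005400b800c005a0001f0400de02e0000f0100ce017001800b40001a08044405c009002d000058200cb0170000280804600b8000000401bc00400f000080a0e02))) 
(.lf (nat_lit 9224264) (dlOf (nat_lit 2) (nat_lit 0x39ed00026018530600)))) 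
(.lf (nat_lit 6442762568) (dlOf (nat_lit 3) (nat_lit 0x4064000402c00029820001019000c80bc00080580004706005e00181b0601)))) 
(.nd (nat_lit 7) (.lf (nat_lit 9748552) (dlOf (nat_lit 1) (nat_lit 0x400400140018580482))) 
(.lf (nat_lit 20239048) (dlOf (nat_lit 1) (nat_lit 0x4002000200089d8c82)))))) (.nd (nat_lit 26) 
(.nd (nat_lit 7) (.nd (nat_lit 30) 
(.lf (nat_lit 4966367240) (dlOf (nat_lit 1) (nat_lit 0x200080c0001))) 
(.lf (nat_lit 1745141768) (dlOf (nat_lit 2) (nat_lit 0x7000e00458066013003200bb00d005f882001c8008006c002007c00080b0003)))) 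
(.lf (nat_lit 537182344) (dlOf (nat_lit 1) (nat_lit 0x20018043d01)))) (.nd (nat_lit 27) 
(.lf (nat_lit 1678032904) (dlOf (nat_lit 4) (nat_lit 0x80070002480800080380011e04001401c0005a0200180008140581))) 
(.nd (nat_lit 30) (.lf (nat_lit 5033476104) (dlOf (nat_lit 1) (nat_lit 0x200080c0001))) 
(.lf (nat_lit 6107217928) (dlOf (nat_lit 1) (nat_lit 0x8004000200080c0002))))))) (.nd (nat_lit 19) 
(.nd (nat_lit 21) (.nd (nat_lit 7) 
(.lf (nat_lit 21282824) (dlOf (nat_lit 1) (nat_lit 0x60008000400200180008a30003))) 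
(.lf (nat_lit 21282952) (dlOf (nat_lit 1) (nat_lit 0x20008000800200060008a30f03)))) 
(.nd (nat_lit 8) (.lf (nat_lit 24428552) (dlOf (nat_lit 1) (nat_lit 0x20008000800200060008ba0003))) 
(.lf (nat_lit 23380232) (dlOf (nat_lit 1) (nat_lit 0x2c002001c0008b80482))))) (.nd (nat_lit 20) 
(.nd (nat_lit 6) (.lf (nat_lit 13418504) (dlOf (nat_lit 1) (nat_lit 0x58008010c002005a0008720803))) 
(.lf (nat_lit 21807176) (dlOf (nat_lit 1) (nat_lit 0x20028a70881)))) (.nd (nat_lit 7) 
(.lf (nat_lit 24952840) (dlOf (nat_lit 1) (nat_lit 0x2000200460008bd0582))) 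
(.lf (nat_lit 8176008) (dlOf (nat_lit 1) (nat_lit 0x400200020008511002)))))))) (.nd (nat_lit 26) 
(.nd (nat_lit 18) (.nd (nat_lit 8) (.nd (nat_lit 6) (.nd (nat_lit 11) (.nd (nat_lit 7) 
(.lf (nat_lit 1343799304) (dlOf (nat_lit 1) (nat_lit 0x20028370001))) 
(.lf (nat_lit 1342750856) (dlOf (nat_lit 1) (nat_lit 0x8002000200080c0102)))) (.nd (nat_lit 10) 
(.lf (nat_lit 3492857864) (dlOf (nat_lit 2) (nat_lit 0x300400004e02000200180f4701))) 
(.lf (nat_lit 6710938632) (dlOf (nat_lit 1) (nat_lit 0x180018005f81))))) (.nd (nat_lit 10) 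
(.nd (nat_lit 20) 
(.lf (nat_lit 3494428744) (dlOf (nat_lit 3) (nat_lit 0x1b021001700780004c08002c084005201e00012828220c80))) 
(.lf (nat_lit 3493380168) (dlOf (nat_lit 2) (nat_lit 0x202400100100000981000d80080028002002e0008120f03)))) 
(.nd (nat_lit 27) 
(.lf (nat_lit 5100323912) (dlOf (nat_lit 1) (nat_lit 0x8008000400200020008052883))) 
(.lf (nat_lit 6308283464) (dlOf (nat_lit 1) (nat_lit 0x8008000400200020008052883)))))) 
(.nd (nat_lit 27) (.nd (nat_lit 10) (.nd (nat_lit 6) 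
(.lf (nat_lit 1345896712) (dlOf (nat_lit 2) (nat_lit 0xd07d80037c0800d8008000c00200340008e03a03))) 
(.lf (nat_lit 1342751048) (dlOf (nat_lit 1) (nat_lit 0x8008000c002000200080c0603)))) 
(.nd (nat_lit 7) 
(.lf (nat_lit 268485896) (dlOf (nat_lit 1) (nat_lit 0x38008005400200060008052f83))) 
(.lf (nat_lit 4026582920) (dlOf (nat_lit 5) (nat_lit 0x400ac0002604001c0560001202002802e0000801001001700003c0801a80080178002004a0008004183))))) 
(.nd (nat_lit 7) (.nd (nat_lit 9) 
(.lf (nat_lit 5772461320) (dlOf (nat_lit 1) (nat_lit 0x400400020008092f82))) 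
(.lf (nat_lit 3623929608) (dlOf (nat_lit 11) (nat_lit 0x17201d00c800e00748010052c0060002408017201d00c800e0074001005280060002208018001d00ed00200008010062007403bc0080001f04007601d005400200007410000807400036040414062015e0000000c8200e801880538000000300803f0062012e0000000b0200f50188048800000028080030004002c0018003b82)))) 
(.nd (nat_lit 10) (.lf (nat_lit 5772460424) (dlOf (nat_lit 1) (nat_lit 0x140028091001))) 
(.lf (nat_lit 6308283784) (dlOf (nat_lit 2) (nat_lit 0x4032001540200020028053601))))))) 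
(.nd (nat_lit 30) (.nd (nat_lit 32) (.nd (nat_lit 27) (.nd (nat_lit 31) 
(.lf (nat_lit 805617672) (dlOf (nat_lit 4) (nat_lit 0x80070002480800080380011e04001401c000580200180008140581))) 
(.lf (nat_lit 2953101320) (dlOf (nat_lit 1) (nat_lit 0x800200040008120002)))) 
(.lf (nat_lit 402964488) (dlOf (nat_lit 1) (nat_lit 0x114004005600080c0002)))) (.nd (nat_lit 27) 
(.nd (nat_lit 31) (.lf (nat_lit 4563714056) (dlOf (nat_lit 1) (nat_lit 0x38004001800080c0002))) 
(.lf (nat_lit 6711197704) (dlOf (nat_lit 1) (nat_lit 0x8004000200080c0002)))) 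
(.lf (nat_lit 4697931784) (dlOf (nat_lit 1) (nat_lit 0x38004001800080c0002))))) (.nd (nat_lit 6) 
(.nd (nat_lit 7) (.nd (nat_lit 19) (.nd (nat_lit 27) 
(.lf (nat_lit 1342488584) (dlOf (nat_lit 1) (nat_lit 0x1c00400040008040482))) 
(.lf (nat_lit 6308544520) (dlOf (nat_lit 1) (nat_lit 0x80080004002000200080f0003)))) 
(.lf (nat_lit 1346158600) (dlOf (nat_lit 1) (nat_lit 0xc8004002a0008e60002)))) (.nd (nat_lit 27) 
(.lf (nat_lit 5637456008) (dlOf (nat_lit 3) (nat_lit 0x400680006a0400d00000003202001e00080f0e01))) 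
(.lf (nat_lit 6308544648) (dlOf (nat_lit 1) (nat_lit 0x200280f0f01))))) (.nd (nat_lit 7) 
(.nd (nat_lit 11) 
(.lf (nat_lit 1346158664) (dlOf (nat_lit 3) (nat_lit 0x2c0a60028035c002b4080390294000be0200020018e60601))) 
(.lf (nat_lit 3493124168) (dlOf (nat_lit 1) (nat_lit 0x180080014002000400080fa683)))) 
(.lf (nat_lit 3489975752) (dlOf (nat_lit 1) (nat_lit 0x20018006d01))))))) (.nd (nat_lit 29) 
(.nd (nat_lit 7) (.nd (nat_lit 8) (.nd (nat_lit 27) (.nd (nat_lit 30) 
(.lf (nat_lit 335855624) (dlOf (nat_lit 1) (nat_lit 0x114004005600080c0002))) 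
(.lf (nat_lit 5704564744) (dlOf (nat_lit 1) (nat_lit 0x80080004002000200080f0003)))) 
(.nd (nat_lit 9) (.lf (nat_lit 470073352) (dlOf (nat_lit 1) (nat_lit 0x1c00400040008040482))) 
(.lf (nat_lit 469817864) (dlOf (nat_lit 1) (nat_lit 0x100040004001800b282))))) (.nd (nat_lit 6) 
(.lf (nat_lit 473744648) (dlOf (nat_lit 1) (nat_lit 0x20018fa2f81))) (.nd (nat_lit 18) 
(.lf (nat_lit 470335816) (dlOf (nat_lit 1) (nat_lit 0x8008000c002000200080c0603))) 
(.lf (nat_lit 5838782792) (dlOf (nat_lit 3) (nat_lit 0x4064000402c00026020001019000c80bc00080580004006005e00181b0601)))))) 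
(.nd (nat_lit 18) (.nd (nat_lit 6) (.nd (nat_lit 8) 
(.lf (nat_lit 470335624) (dlOf (nat_lit 1) (nat_lit 0x8002000200080c0102))) 
(.lf (nat_lit 473483656) (dlOf (nat_lit 1) (nat_lit 0x400200020008f54e82)))) 
(.lf (nat_lit 469816264) (dlOf (nat_lit 1) (nat_lit 0x60008009201)))) (.nd (nat_lit 6) 
(.nd (nat_lit 30) (.lf (nat_lit 335855752) (dlOf (nat_lit 1) (nat_lit 0x200280c0f01))) 
(.lf (nat_lit 1409597576) (dlOf (nat_lit 1) (nat_lit 0x20018043d01)))) 
(.lf (nat_lit 473744584) (dlOf (nat_lit 3) (nat_lit 0x2b057c01541ae00b609b005b0458000182002e857c01841ae000000400560028fa2d01)))))) 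
(.nd (nat_lit 30) (.nd (nat_lit 6) (.nd (nat_lit 27) (.nd (nat_lit 7) 
(.lf (nat_lit 872726536) (dlOf (nat_lit 2) (nat_lit 0x7000e00458066013003200bb00d006d382001c8008006c002007c00080b0003))) 
(.lf (nat_lit 3019948424) (dlOf (nat_lit 1) (nat_lit 0x400400020008081002)))) (.nd (nat_lit 19) 
(.lf (nat_lit 1007730696) (dlOf (nat_lit 1) (nat_lit 0x400200020008760582))) 
(.lf (nat_lit 3154690056) (dlOf (nat_lit 2) (nat_lit 0x2c02c001f7818310000))))) (.nd (nat_lit 7) 
(.nd (nat_lit 8) (.lf (nat_lit 3154690120) (dlOf (nat_lit 2) (nat_lit 0xbe02c00019818310080))) 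
(.lf (nat_lit 3154690376) (dlOf (nat_lit 4) (nat_lit 0x80b00022204005c0580011002005a02c00000018310780)))) 
(.lf (nat_lit 5167434696) (dlOf (nat_lit 3) (nat_lit 0x80340002102000401a00010018055d80))))) 
(.nd (nat_lit 7) (.nd (nat_lit 6) (.nd (nat_lit 8) 
(.lf (nat_lit 4096573448) (dlOf (nat_lit 1) (nat_lit 0x2200028130001))) 
(.lf (nat_lit 6375392520) (dlOf (nat_lit 1) (nat_lit 0x20008005c002000a0008002f83)))) 
(.nd (nat_lit 8) (.lf (nat_lit 4096311368) (dlOf (nat_lit 1) (nat_lit 0x4004000200080f1682))) 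
(.lf (nat_lit 4093691208) (dlOf (nat_lit 1) (nat_lit 0x400400020008003302))))) (.nd (nat_lit 9) 
(.lf (nat_lit 6241435784) (dlOf (nat_lit 1) (nat_lit 0x25800801a4002009000080f0f03))) 
(.nd (nat_lit 11) (.lf (nat_lit 4095788680) (dlOf (nat_lit 1) (nat_lit 0x4002000200080e3a02))) 
(.lf (nat_lit 4227911304) (dlOf (nat_lit 2) (nat_lit 0x1c09e000e30200020028007181)))))))))) 
(.nd (nat_lit 18) (.nd (nat_lit 28) (.nd (nat_lit 7) (.nd (nat_lit 6) (.nd (nat_lit 10) 
(.nd (nat_lit 19) (.nd (nat_lit 20) 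
(.lf (nat_lit 14729240) (dlOf (nat_lit 3) (nat_lit 0x1692b000f581004ce348007a80800c0008006c00200080008770083))) 
(.lf (nat_lit 28360728) (dlOf (nat_lit 1) (nat_lit 0xc00400040008d90402)))) (.nd (nat_lit 20) 
(.lf (nat_lit 4362649624) (dlOf (nat_lit 4) (nat_lit 0x61c066000230200780000001001001b00000002c080670008034c00201a400080c0403))) 
(.lf (nat_lit 24690712) (dlOf (nat_lit 1) (nat_lit 0x260018bb0481))))) (.nd (nat_lit 8) 
(.nd (nat_lit 9) (.lf (nat_lit 2751513624) (dlOf (nat_lit 1) (nat_lit 0x20018002881))) 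
(.lf (nat_lit 19979800) (dlOf (nat_lit 1) (nat_lit 0x8400189dcf01)))) 
(.lf (nat_lit 4898997528) (dlOf (nat_lit 1) (nat_lit 0x10008000400200020008053083))))) 
(.nd (nat_lit 8) (.nd (nat_lit 10) (.nd (nat_lit 22) 
(.lf (nat_lit 42516568) (dlOf (nat_lit 1) (nat_lit 0xe0009260801))) 
(.lf (nat_lit 21545048) (dlOf (nat_lit 7) (nat_lit 0x34851404e42840212139002209b008e83a402981b40004c0c02d614501430a1009204e400f826c02140e900a706d00012c300bb851404e027200be1340165074800100200c9851404f8272007e13401660748000fc200ad05140414272020e0e90001f03003f0000000c80803b8008059000200200008a40603)))) 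
(.lf (nat_lit 36750424) (dlOf (nat_lit 1) (nat_lit 0x400400020009072902)))) (.nd (nat_lit 9) 
(.lf (nat_lit 574808) (dlOf (nat_lit 1) (nat_lit 0x18008000400200080008003383))) 
(.lf (nat_lit 4831890264) (dlOf (nat_lit 1) (nat_lit 0x30008000800200040008055c03)))))) 
(.nd (nat_lit 26) (.nd (nat_lit 11) (.nd (nat_lit 6) 
(.lf (nat_lit 5502977432) (dlOf (nat_lit 1) (nat_lit 0xc00200060008003602))) (.nd (nat_lit 21) 
(.lf (nat_lit 46186712) (dlOf (nat_lit 1) (nat_lit 0x400400040009380982))) 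
(.lf (nat_lit 2146520) (dlOf (nat_lit 1) (nat_lit 0x40028150481))))) (.nd (nat_lit 9) 
(.lf (nat_lit 4429236440) (dlOf (nat_lit 1) (nat_lit 0x1740028004a81))) 
(.lf (nat_lit 19978968) (dlOf (nat_lit 1) (nat_lit 0x80080004002000200089db983))))) 
(.nd (nat_lit 10) (.nd (nat_lit 11) (.nd (nat_lit 27) 
(.lf (nat_lit 3825254616) (dlOf (nat_lit 3) (nat_lit 0x90000003a20400500000008102000400280b0481))) 
(.lf (nat_lit 1811988696) (dlOf (nat_lit 2) (nat_lit 0x53012000f007c00780340023c06000600080b0481)))) 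
(.lf (nat_lit 2751514840) (dlOf (nat_lit 1) (nat_lit 0x28008002400200060008004a83)))) 
(.nd (nat_lit 6) (.lf (nat_lit 201377432) (dlOf (nat_lit 1) (nat_lit 0x1ce0018003a81))) 
(.nd (nat_lit 9) (.lf (nat_lit 4898997720) (dlOf (nat_lit 1) (nat_lit 0x40028053601))) 
(.lf (nat_lit 2751514584) (dlOf (nat_lit 2) (nat_lit 0x301000002604004000400300008004502)))))))) 
(.nd (nat_lit 8) (.nd (nat_lit 11) (.nd (nat_lit 7) (.nd (nat_lit 6) (.nd (nat_lit 26) 
(.lf (nat_lit 805879832) (dlOf (nat_lit 1) (nat_lit 0x400080008002000200081d0483))) 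
(.lf (nat_lit 4228431896) (dlOf (nat_lit 2) (nat_lit 0x1560190000700804280080060002008800080c0483)))) 
(.lf (nat_lit 3154690136) (dlOf (nat_lit 2) (nat_lit 0x13e02c00027018310380)))) (.nd (nat_lit 22) 
(.nd (nat_lit 31) 
(.lf (nat_lit 939573464) (dlOf (nat_lit 2) (nat_lit 0x53012000f007c00780340023c06000600080b0481))) 
(.lf (nat_lit 3087057112) (dlOf (nat_lit 3) (nat_lit 0x90000003a20400500000008102000400280b0481)))) 
(.lf (nat_lit 1346420952) (dlOf (nat_lit 3) (nat_lit 0xc39c000c0fb000170200180da0000b0080050008002000200220008f60983))))) 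
(.nd (nat_lit 9) (.nd (nat_lit 7) (.nd (nat_lit 26) 
(.lf (nat_lit 6710938648) (dlOf (nat_lit 1) (nat_lit 0x100018006001))) 
(.lf (nat_lit 3154168856) (dlOf (nat_lit 1) (nat_lit 0x800400040018086002)))) (.nd (nat_lit 6) 
(.lf (nat_lit 3691042968) (dlOf (nat_lit 1) (nat_lit 0xc0020002000800a882))) 
(.lf (nat_lit 4026583256) (dlOf (nat_lit 2) (nat_lit 0x1c06a0003b02004e0008004a81))))) 
(.nd (nat_lit 10) (.nd (nat_lit 29) 
(.lf (nat_lit 2415974936) (dlOf (nat_lit 1) (nat_lit 0x80040002000800b282))) 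
(.lf (nat_lit 4026587672) (dlOf (nat_lit 6) (nat_lit 0x9005a00a7b02005a02d0053d010031017002080b4014d208008c05c005202d0053402002901b00000008053800802e00020048000800b283)))) 
(.lf (nat_lit 1342234136) (dlOf (nat_lit 1) (nat_lit 0x6000200ee000800cf02)))))) (.nd (nat_lit 26) 
(.nd (nat_lit 27) (.nd (nat_lit 29) (.nd (nat_lit 7) 
(.lf (nat_lit 1342751064) (dlOf (nat_lit 1) (nat_lit 0x80080004002000200080c0683))) 
(.lf (nat_lit 268485592) (dlOf (nat_lit 1) (nat_lit 0x30008002000200060008052883)))) 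
(.nd (nat_lit 10) 
(.lf (nat_lit 6174067544) (dlOf (nat_lit 1) (nat_lit 0x28008000400200040008055c03))) 
(.lf (nat_lit 4026582872) (dlOf (nat_lit 1) (nat_lit 0x60018003f81))))) (.nd (nat_lit 6) 
(.lf (nat_lit 5772461336) (dlOf (nat_lit 1) (nat_lit 0x8008000400200020008093083))) 
(.nd (nat_lit 7) 
(.lf (nat_lit 5234543448) (dlOf (nat_lit 1) (nat_lit 0x280080008002000a0008055c03))) 
(.lf (nat_lit 5772461016) (dlOf (nat_lit 1) (nat_lit 0x400400020008092882)))))) (.nd (nat_lit 7) 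
(.nd (nat_lit 6) (.nd (nat_lit 10) 
(.lf (nat_lit 474005784) (dlOf (nat_lit 1) (nat_lit 0x20029000a81))) 
(.lf (nat_lit 6375392536) (dlOf (nat_lit 1) (nat_lit 0x28008002000200060008003083)))) 
(.lf (nat_lit 470335832) (dlOf (nat_lit 1) (nat_lit 0x80080004002000200080c0683)))) 
(.nd (nat_lit 11) 
(.lf (nat_lit 6375392216) (dlOf (nat_lit 1) (nat_lit 0x28008005800200020008002883))) 
(.nd (nat_lit 27) (.lf (nat_lit 5167434712) (dlOf (nat_lit 1) (nat_lit 0x40018055e01))) 
(.lf (nat_lit 3154168792) (dlOf (nat_lit 1) (nat_lit 0x40028085e01))))))))) (.nd (nat_lit 6) 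
(.nd (nat_lit 30) (.nd (nat_lit 19) (.nd (nat_lit 20) (.nd (nat_lit 27) (.nd (nat_lit 8) 
(.lf (nat_lit 805617688) (dlOf (nat_lit 2) (nat_lit 0x1801c0015802000c0008140a81))) 
(.lf (nat_lit 537182488) (dlOf (nat_lit 1) (nat_lit 0x5400400140008047f02)))) (.nd (nat_lit 7) 
(.lf (nat_lit 2617557016) (dlOf (nat_lit 1) (nat_lit 0x1e00080f0501))) 
(.lf (nat_lit 671400088) (dlOf (nat_lit 1) (nat_lit 0x1d00028184081))))) (.nd (nat_lit 21) 
(.nd (nat_lit 23) (.lf (nat_lit 471121944) (dlOf (nat_lit 1) (nat_lit 0xc0008270481))) 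
(.lf (nat_lit 26525720) (dlOf (nat_lit 3) (nat_lit 0x2bd85000fe810084ec28007f00800c0008001000200080008c50083)))) 
(.nd (nat_lit 8) (.lf (nat_lit 16039960) (dlOf (nat_lit 1) (nat_lit 0x400200020008860482))) 
(.lf (nat_lit 20239128) (dlOf (nat_lit 1) (nat_lit 0x4004000200089d8f82)))))) (.nd (nat_lit 23) 
(.nd (nat_lit 20) (.nd (nat_lit 21) 
(.lf (nat_lit 21807128) (dlOf (nat_lit 1) (nat_lit 0x20028a70481))) 
(.lf (nat_lit 2754396184) (dlOf (nat_lit 4) (nat_lit 0x5c3ea0003202001c1f5000188100030fa8000bc0800b800800a4002006200080e0383)))) 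
(.lf (nat_lit 18661400) (dlOf (nat_lit 1) (nat_lit 0x90002000c0008960402)))) (.nd (nat_lit 10) 
(.nd (nat_lit 24) (.lf (nat_lit 42778648) (dlOf (nat_lit 1) (nat_lit 0x240019280081))) 
(.lf (nat_lit 59555864) (dlOf (nat_lit 3) (nat_lit 0x1a87f000aa010023404800250080078008002c00200360009810603)))) 
(.lf (nat_lit 46976024) (dlOf (nat_lit 1) (nat_lit 0x40019386001)))))) (.nd (nat_lit 27) 
(.nd (nat_lit 28) (.nd (nat_lit 26) 
(.lf (nat_lit 3758407704) (dlOf (nat_lit 1) (nat_lit 0xc00400020008170082))) (.nd (nat_lit 29) 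
(.lf (nat_lit 3288645656) (dlOf (nat_lit 2) (nat_lit 0x80d80339c040024002007200080a0902))) 
(.lf (nat_lit 1678032920) (dlOf (nat_lit 2) (nat_lit 0x1801c0015d02000c0008140a81))))) 
(.nd (nat_lit 19) 
(.lf (nat_lit 4026843160) (dlOf (nat_lit 2) (nat_lit 0x80d803a74040024002007200080a0902))) 
(.nd (nat_lit 20) 
(.lf (nat_lit 3492593688) (dlOf (nat_lit 4) (nat_lit 0x5c3c60002f02001c1e3000170100030f18000b00800b800800a4002006200080e0383))) 
(.lf (nat_lit 1346158616) (dlOf (nat_lit 5) (nat_lit 0x85a400742cc001ed040010166000f50100220b3000748080068598003a204014000400120008e60082)))))) 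
(.nd (nat_lit 7) (.nd (nat_lit 28) (.nd (nat_lit 29) 
(.lf (nat_lit 3355754520) (dlOf (nat_lit 1) (nat_lit 0x4004000200180f0502))) 
(.lf (nat_lit 3892625432) (dlOf (nat_lit 1) (nat_lit 0x400400020008170502)))) 
(.lf (nat_lit 4161060888) (dlOf (nat_lit 1) (nat_lit 0xa00080f0501)))) (.nd (nat_lit 10) 
(.lf (nat_lit 1543815320) (dlOf (nat_lit 1) (nat_lit 0x1d00028184081))) 
(.lf (nat_lit 3624193176) (dlOf (nat_lit 1) (nat_lit 0x20008000400200040008146203))))))) 
(.nd (nat_lit 7) (.nd (nat_lit 19) (.nd (nat_lit 27) (.nd (nat_lit 10) (.nd (nat_lit 20) 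
(.lf (nat_lit 268746840) (dlOf (nat_lit 1) (nat_lit 0x600080004002001e0008120603))) 
(.lf (nat_lit 9748568) (dlOf (nat_lit 7) (nat_lit 0x20d228060690c025b4820045a3f001fd1d802be8e4023f3b8005d9da00029880001d22805a690c02634820027a3f003ad1c800fe77002533b4000520e0125a410013cee00014410074e91402ff48201099dc000238300cdd228057690402d73b800046060111a450076d20803b67700008a0c007000400100008580602)))) 
(.nd (nat_lit 8) (.lf (nat_lit 56935512) (dlOf (nat_lit 1) (nat_lit 0x20019792901))) 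
(.lf (nat_lit 313176) (dlOf (nat_lit 1) (nat_lit 0x20028003f81))))) (.nd (nat_lit 8) 
(.nd (nat_lit 26) (.lf (nat_lit 1208270936) (dlOf (nat_lit 2) (nat_lit 0x2c027000208180b0700))) 
(.lf (nat_lit 2080686168) (dlOf (nat_lit 2) (nat_lit 0x2c027000208180b0700)))) (.nd (nat_lit 9) 
(.lf (nat_lit 3959734616) (dlOf (nat_lit 7) (nat_lit 0x1c0014000640200da00a0003101008d0050001840802e0028000880400040ac010800a000200200960050000fc08025800800b800200320008124e03))) 
(.lf (nat_lit 2885994328) (dlOf (nat_lit 1) (nat_lit 0x20018143f81)))))) (.nd (nat_lit 25) 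
(.nd (nat_lit 8) (.nd (nat_lit 20) 
(.lf (nat_lit 9224280) (dlOf (nat_lit 1) (nat_lit 0x400400020008530702))) 
(.lf (nat_lit 1346158680) (dlOf (nat_lit 2) (nat_lit 0xe80000004c04003c004000a0008e60802)))) 
(.lf (nat_lit 17613144) (dlOf (nat_lit 1) (nat_lit 0x3c00188e0881)))) (.nd (nat_lit 9) 
(.nd (nat_lit 10) 
(.lf (nat_lit 42778712) (dlOf (nat_lit 2) (nat_lit 0x2ef000004c040008002005c0009280802))) 
(.lf (nat_lit 34391128) (dlOf (nat_lit 1) (nat_lit 0x40028fb2901)))) 
(.lf (nat_lit 52218456) (dlOf (nat_lit 2) (nat_lit 0x5600000000019515300)))))) (.nd (nat_lit 26) 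
(.nd (nat_lit 9) (.nd (nat_lit 19) (.nd (nat_lit 20) 
(.lf (nat_lit 4563714264) (dlOf (nat_lit 4) (nat_lit 0x80b0000340400080580001902000202c0000c0180c1c00))) 
(.lf (nat_lit 3457240) (dlOf (nat_lit 2) (nat_lit 0x33f80005cc080048008001c002000c0008200483)))) 
(.lf (nat_lit 135053528) (dlOf (nat_lit 2) (nat_lit 0x280000038204000c004000400081b0482)))) 
(.nd (nat_lit 8) (.lf (nat_lit 2818889432) (dlOf (nat_lit 1) (nat_lit 0xa000812a001))) 
(.lf (nat_lit 60083160) (dlOf (nat_lit 1) (nat_lit 0xc0019845e01))))) (.nd (nat_lit 19) 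
(.nd (nat_lit 8) (.lf (nat_lit 5033476312) (dlOf (nat_lit 1) (nat_lit 0x4002000200080c1902))) 
(.lf (nat_lit 6509871576) (dlOf (nat_lit 1) (nat_lit 0x280080170002000a0008157103)))) 
(.nd (nat_lit 27) (.lf (nat_lit 4362911960) (dlOf (nat_lit 1) (nat_lit 0xc004000200081a0482))) 
(.nd (nat_lit 28) 
(.lf (nat_lit 202162392) (dlOf (nat_lit 2) (nat_lit 0x280000038204000c004000400081b0482))) 
(.lf (nat_lit 4228694232) (dlOf (nat_lit 1) (nat_lit 0xc004000200081a0482))))))))))) 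
(.nd (nat_lit 6) (.nd (nat_lit 18) (.nd (nat_lit 4) (.nd (nat_lit 27) (.nd (nat_lit 22) 
(.nd (nat_lit 7) (.nd (nat_lit 8) (.nd (nat_lit 9) 
(.lf (nat_lit 52477992) (dlOf (nat_lit 1) (nat_lit 0x400400020009540802))) 
(.lf (nat_lit 60344872) (dlOf (nat_lit 1) (nat_lit 0x18008001000200060009845183)))) 
(.nd (nat_lit 9) 
(.lf (nat_lit 268485928) (dlOf (nat_lit 3) (nat_lit 0x500a00006c0800280500003004002000400660018053182))) 
(.lf (nat_lit 19972904) (dlOf (nat_lit 1) (nat_lit 0x18002000400089d2202))))) (.nd (nat_lit 8) 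
(.lf (nat_lit 604033704) (dlOf (nat_lit 1) (nat_lit 0x400200020008008c82))) (.nd (nat_lit 9) 
(.lf (nat_lit 3489717672) (dlOf (nat_lit 8) (nat_lit 0xc1f5000180100060fa8000bc0800307d40005c0400183ea0002d0200101f5000028100060fa8000080800187d400000040010004000a001800cb82))) 
(.lf (nat_lit 19973032) (dlOf (nat_lit 1) (nat_lit 0x4004000200089d2682)))))) (.nd (nat_lit 19) 
(.nd (nat_lit 7) (.nd (nat_lit 20) 
(.lf (nat_lit 2755706920) (dlOf (nat_lit 1) (nat_lit 0x11c004001600081b0002))) 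
(.lf (nat_lit 22069288) (dlOf (nat_lit 1) (nat_lit 0x8008000800200060008a90583)))) 
(.lf (nat_lit 2755707304) (dlOf (nat_lit 1) (nat_lit 0x4002000a00081b0782)))) (.nd (nat_lit 21) 
(.nd (nat_lit 26) 
(.lf (nat_lit 3494428712) (dlOf (nat_lit 2) (nat_lit 0x40ce000a041000a6028220980))) 
(.lf (nat_lit 2756231208) (dlOf (nat_lit 2) (nat_lit 0x40ce000a041000ae828220980)))) 
(.lf (nat_lit 15253544) (dlOf (nat_lit 1) (nat_lit 0x200287c0681)))))) (.nd (nat_lit 26) 
(.nd (nat_lit 11) (.nd (nat_lit 28) 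
(.lf (nat_lit 671137832) (dlOf (nat_lit 2) (nat_lit 0x180900369c040004004006400180b0002))) 
(.nd (nat_lit 31) 
(.lf (nat_lit 939573288) (dlOf (nat_lit 2) (nat_lit 0x1012806d3808012800800d8002004000080b0003))) 
(.lf (nat_lit 3087056936) (dlOf (nat_lit 1) (nat_lit 0x180080018002000400080b0003))))) 
(.nd (nat_lit 7) (.lf (nat_lit 4697672488) (dlOf (nat_lit 1) (nat_lit 0xc00400060008005c02))) 
(.lf (nat_lit 1476450472) (dlOf (nat_lit 1) (nat_lit 0x2002800a881))))) (.nd (nat_lit 7) 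
(.nd (nat_lit 8) (.lf (nat_lit 470859816) (dlOf (nat_lit 1) (nat_lit 0x4002000c00081c0682))) 
(.nd (nat_lit 9) (.lf (nat_lit 6375392552) (dlOf (nat_lit 1) (nat_lit 0x9400200060008003182))) 
(.lf (nat_lit 1275120424) (dlOf (nat_lit 1) (nat_lit 0x120018005c01))))) (.nd (nat_lit 8) 
(.nd (nat_lit 9) 
(.lf (nat_lit 3154690216) (dlOf (nat_lit 3) (nat_lit 0x2602c0054481001500c801c8060014f60800b800201660008310482))) 
(.lf (nat_lit 469818024) (dlOf (nat_lit 1) (nat_lit 0x6000200ee000800b782)))) 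
(.lf (nat_lit 6643831720) (dlOf (nat_lit 1) (nat_lit 0x400400040018009102))))))) (.nd (nat_lit 19) 
(.nd (nat_lit 29) (.nd (nat_lit 7) (.nd (nat_lit 8) (.nd (nat_lit 9) 
(.lf (nat_lit 10534968) (dlOf (nat_lit 2) (nat_lit 0xe3280006190c00048080058004002000185f0b82))) 
(.lf (nat_lit 268486200) (dlOf (nat_lit 1) (nat_lit 0x10008000800200020008053783)))) 
(.lf (nat_lit 8443192) (dlOf (nat_lit 1) (nat_lit 0x400200020008519902)))) (.nd (nat_lit 8) 
(.nd (nat_lit 10) 
(.lf (nat_lit 3623930040) (dlOf (nat_lit 1) (nat_lit 0x40008003c002006e0008004903))) 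
(.lf (nat_lit 36750520) (dlOf (nat_lit 1) (nat_lit 0x400400020009072c82)))) (.nd (nat_lit 11) 
(.lf (nat_lit 268486072) (dlOf (nat_lit 1) (nat_lit 0x18008000c00200020008053603))) 
(.lf (nat_lit 1342229944) (dlOf (nat_lit 1) (nat_lit 0xc0018006d01)))))) (.nd (nat_lit 9) 
(.nd (nat_lit 8) (.lf (nat_lit 1880145976) (dlOf (nat_lit 1) (nat_lit 0x20008760c01))) 
(.nd (nat_lit 26) (.lf (nat_lit 3087057208) (dlOf (nat_lit 2) (nat_lit 0x40000000b8180b0580))) 
(.lf (nat_lit 3825254712) (dlOf (nat_lit 2) (nat_lit 0x40000000b8180b0580))))) (.nd (nat_lit 12) 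
(.nd (nat_lit 8) (.lf (nat_lit 6308283960) (dlOf (nat_lit 1) (nat_lit 0x13800200020008053782))) 
(.lf (nat_lit 4026582840) (dlOf (nat_lit 2) (nat_lit 0xc01b0000c4080020008016000200260008003e03)))) 
(.nd (nat_lit 10) 
(.lf (nat_lit 4227914552) (dlOf (nat_lit 2) (nat_lit 0x10019002bf808001000800100020002000800bc83))) 
(.lf (nat_lit 1879103288) (dlOf (nat_lit 1) (nat_lit 0x800800080020002000800a103))))))) 
(.nd (nat_lit 20) (.nd (nat_lit 21) (.nd (nat_lit 26) (.nd (nat_lit 8) 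
(.lf (nat_lit 3494428728) (dlOf (nat_lit 8) (nat_lit 0x2c00f00071c0800a0108006005200a001e001100b8007142000700780038604003803c001a302000201e000c7810018034000e8108001c04600b401e0004a04000800f000000080070008019400200820008220b83))) 
(.lf (nat_lit 575288) (dlOf (nat_lit 1) (nat_lit 0xc0008003e01)))) (.nd (nat_lit 27) 
(.lf (nat_lit 2756231224) (dlOf (nat_lit 8) (nat_lit 0x2c00f00071c0800a0108006005200a001e001100b8007142000700780038604003803c001b302000201e000c7810018034000e8108001c04600b401e0004a04000800f000000080070008019400200820008220b83))) 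
(.lf (nat_lit 474529848) (dlOf (nat_lit 3) (nat_lit 0x1282580006404007412c0003102007000291a0501))))) 
(.nd (nat_lit 23) (.lf (nat_lit 23642168) (dlOf (nat_lit 1) (nat_lit 0x8008000400200020008b80003))) 
(.lf (nat_lit 15253560) (dlOf (nat_lit 1) (nat_lit 0x4002000200087c0882))))) (.nd (nat_lit 21) 
(.nd (nat_lit 9) (.lf (nat_lit 471384120) (dlOf (nat_lit 1) (nat_lit 0x1c00282f1101))) 
(.lf (nat_lit 51956280) (dlOf (nat_lit 1) (nat_lit 0x80019515201)))) (.nd (nat_lit 26) 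
(.nd (nat_lit 28) (.lf (nat_lit 3719224) (dlOf (nat_lit 1) (nat_lit 0x100028220b01))) 
(.lf (nat_lit 3493380152) (dlOf (nat_lit 1) (nat_lit 0x40028120d01)))) 
(.lf (nat_lit 2755182648) (dlOf (nat_lit 1) (nat_lit 0x40028120d01)))))))) (.nd (nat_lit 28) 
(.nd (nat_lit 19) (.nd (nat_lit 29) (.nd (nat_lit 7) (.nd (nat_lit 21) (.nd (nat_lit 26) 
(.nd (nat_lit 27) (.lf (nat_lit 4295278632) (dlOf (nat_lit 1) (nat_lit 0xb8004008600080f0c02))) 
(.nd (nat_lit 30) 
(.lf (nat_lit 2282012712) (dlOf (nat_lit 1) (nat_lit 0x10008001000200060008100683))) 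
(.lf (nat_lit 1208270888) (dlOf (nat_lit 1) (nat_lit 0x8002000200080b0382))))) (.nd (nat_lit 8) 
(.nd (nat_lit 30) 
(.lf (nat_lit 4362387496) (dlOf (nat_lit 2) (nat_lit 0x15c000000000200040008050581))) 
(.lf (nat_lit 3288645672) (dlOf (nat_lit 1) (nat_lit 0xa00080a0901)))) 
(.lf (nat_lit 6509871400) (dlOf (nat_lit 1) (nat_lit 0x20008000400200080008154603))))) 
(.nd (nat_lit 4) (.nd (nat_lit 9) 
(.lf (nat_lit 27574312) (dlOf (nat_lit 1) (nat_lit 0x400400020008d00782))) 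
(.lf (nat_lit 35965480) (dlOf (nat_lit 1) (nat_lit 0x20029015181)))) 
(.lf (nat_lit 24428600) (dlOf (nat_lit 2) (nat_lit 0x3d800000000200440018ba0b01))))) 
(.nd (nat_lit 4) (.nd (nat_lit 8) 
(.lf (nat_lit 317608) (dlOf (nat_lit 1) (nat_lit 0xc0040002000800a882))) 
(.lf (nat_lit 52741544) (dlOf (nat_lit 1) (nat_lit 0x8008004800200020009573603)))) (.nd (nat_lit 8) 
(.lf (nat_lit 59032760) (dlOf (nat_lit 1) (nat_lit 0xa00197e2c81))) 
(.lf (nat_lit 313272) (dlOf (nat_lit 1) (nat_lit 0x28008000400200020008004383)))))) 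
(.nd (nat_lit 30) (.nd (nat_lit 4) (.nd (nat_lit 7) 
(.lf (nat_lit 4899261224) (dlOf (nat_lit 2) (nat_lit 0x20064001c00f00140030007a4180008008000c002000600080d5c03))) 
(.lf (nat_lit 537182376) (dlOf (nat_lit 2) (nat_lit 0x18148014a204001c002000e0008044c02)))) 
(.lf (nat_lit 2684665912) (dlOf (nat_lit 1) (nat_lit 0x30008000800200060008130d83)))) 
(.nd (nat_lit 26) (.nd (nat_lit 32) 
(.lf (nat_lit 1745141800) (dlOf (nat_lit 3) (nat_lit 0xe01c002380cc0005808005c07401a2038008701b800180d4047c06601000320022012000c008c010003e01d401a003a0080000ac5802f8008007400200a800080b0383))) 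
(.lf (nat_lit 6040109096) (dlOf (nat_lit 1) (nat_lit 0x200180f0601)))) 
(.lf (nat_lit 1678032936) (dlOf (nat_lit 4) (nat_lit 0x806c000080400040360000302000201b00001018140e80)))))) 
(.nd (nat_lit 4) (.nd (nat_lit 20) (.nd (nat_lit 21) (.nd (nat_lit 22) 
(.lf (nat_lit 59555880) (dlOf (nat_lit 2) (nat_lit 0x1280900012819810800))) 
(.lf (nat_lit 13418536) (dlOf (nat_lit 1) (nat_lit 0x50008011400200540008720d03)))) 
(.lf (nat_lit 2754396200) (dlOf (nat_lit 9) (nat_lit 0xf1090001d0083180848023c3f40b12155057109c0001c820004084800282aa001e138000378300021090006055400082700002206002421200020aa80008410007884800043f40001c04003a212001e0fd0009855400282700001b08002421200180aa00000010042000801c8002008a00080e0503)))) 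
(.nd (nat_lit 21) 
(.lf (nat_lit 27050024) (dlOf (nat_lit 2) (nat_lit 0x454f5000700000017c100030008001c002004a0008ca0683))) 
(.lf (nat_lit 2755444776) (dlOf (nat_lit 1) (nat_lit 0x40008190881))))) (.nd (nat_lit 7) 
(.nd (nat_lit 8) (.lf (nat_lit 36489784) (dlOf (nat_lit 1) (nat_lit 0x8008000400200020009075203))) 
(.lf (nat_lit 19715896) (dlOf (nat_lit 1) (nat_lit 0x200289da101)))) (.nd (nat_lit 8) 
(.lf (nat_lit 1884344) (dlOf (nat_lit 1) (nat_lit 0x80028150381))) 
(.lf (nat_lit 8177080) (dlOf (nat_lit 1) (nat_lit 0x400200020008513602))))))) (.nd (nat_lit 30) 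
(.nd (nat_lit 27) (.nd (nat_lit 7) (.nd (nat_lit 26) (.nd (nat_lit 31) 
(.lf (nat_lit 805617704) (dlOf (nat_lit 4) (nat_lit 0x806c000080400040360000302000201b00001018140e80))) 
(.lf (nat_lit 2953101352) (dlOf (nat_lit 2) (nat_lit 0x6014006f0030000001000280080030002000c0008120703)))) 
(.lf (nat_lit 872726568) (dlOf (nat_lit 3) (nat_lit 0xe01c002380cc0005e08005c07401a2038008701b800180d4047c06601000320022012000c008c010003e01d401a003a0080000b85802f8008007400200a800080b0383)))) 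
(.lf (nat_lit 4563714216) (dlOf (nat_lit 1) (nat_lit 0x80080018002001400080c1483)))) 
(.nd (nat_lit 4) (.nd (nat_lit 7) (.nd (nat_lit 22) 
(.lf (nat_lit 470073384) (dlOf (nat_lit 3) (nat_lit 0x4c48e0005302000624700030b88000d41000e8008000400200140008040583))) 
(.lf (nat_lit 474267688) (dlOf (nat_lit 1) (nat_lit 0x10008000400200020009100383)))) 
(.lf (nat_lit 473744552) (dlOf (nat_lit 1) (nat_lit 0x3c0028fa2c01)))) (.nd (nat_lit 7) 
(.lf (nat_lit 470073400) (dlOf (nat_lit 1) (nat_lit 0x20028040701))) 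
(.lf (nat_lit 473745848) (dlOf (nat_lit 2) (nat_lit 0x1408500609818fa4e80)))))) (.nd (nat_lit 26) 
(.nd (nat_lit 4) (.nd (nat_lit 19) (.nd (nat_lit 29) 
(.lf (nat_lit 1342488616) (dlOf (nat_lit 3) (nat_lit 0x4c48e0005302000624700030b98000d41000e8008000400200140008040583))) 
(.lf (nat_lit 4026843176) (dlOf (nat_lit 1) (nat_lit 0xa00080a0901)))) 
(.lf (nat_lit 3492593704) (dlOf (nat_lit 9) (nat_lit 0xf0fe8001d00831807f4023c3d00b1215f057109c0001c82000407f400282be001e138000378300020fe8006057c0008270000220600241fd00020af8000841000787f400043d00001c04003a1fd001e0f40009857c00282700001b0800241fd00180af00000010042000801c8002008a00080e0503)))) 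
(.nd (nat_lit 21) (.lf (nat_lit 1342488632) (dlOf (nat_lit 1) (nat_lit 0x20028040701))) 
(.lf (nat_lit 3492069432) (dlOf (nat_lit 1) (nat_lit 0x200180a0b81))))) (.nd (nat_lit 27) 
(.nd (nat_lit 4) 
(.lf (nat_lit 1409597608) (dlOf (nat_lit 2) (nat_lit 0x181480097804001c002000e0008044c02))) 
(.lf (nat_lit 3557087032) (dlOf (nat_lit 1) (nat_lit 0x280080004002001a000812a103)))) 
(.nd (nat_lit 31) (.lf (nat_lit 2080686120) (dlOf (nat_lit 1) (nat_lit 0x8002000200080b0382))) 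
(.lf (nat_lit 4228169768) (dlOf (nat_lit 2) (nat_lit 0x15c000000000200040008050581))))))))) 
(.nd (nat_lit 7) (.nd (nat_lit 8) (.nd (nat_lit 9) (.nd (nat_lit 4) (.nd (nat_lit 18) 
(.nd (nat_lit 11) (.nd (nat_lit 19) 
(.lf (nat_lit 47235176) (dlOf (nat_lit 1) (nat_lit 0x3200293c0781))) 
(.lf (nat_lit 474529896) (dlOf (nat_lit 2) (nat_lit 0x5d025802e4108015407400c90398001082002680080048002000800091a0983)))) 
(.lf (nat_lit 4362127464) (dlOf (nat_lit 2) (nat_lit 0x1c0ac000e30200020028004701)))) 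
(.nd (nat_lit 19) (.nd (nat_lit 20) 
(.lf (nat_lit 4026843240) (dlOf (nat_lit 1) (nat_lit 0x48002009600080a1402))) 
(.lf (nat_lit 9748584) (dlOf (nat_lit 1) (nat_lit 0xf800801dc00200560008580783)))) 
(.nd (nat_lit 20) (.lf (nat_lit 42778728) (dlOf (nat_lit 1) (nat_lit 0x128002000e0009280982))) 
(.lf (nat_lit 1346158696) (dlOf (nat_lit 2) (nat_lit 0x17029a00160d900005028e60980)))))) 
(.nd (nat_lit 26) (.nd (nat_lit 11) (.nd (nat_lit 21) 
(.lf (nat_lit 5234540664) (dlOf (nat_lit 1) (nat_lit 0x20008050201))) 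
(.lf (nat_lit 18923640) (dlOf (nat_lit 1) (nat_lit 0x1e8008000400200500008970483)))) 
(.lf (nat_lit 579704) (dlOf (nat_lit 1) (nat_lit 0xc0020010000800a882)))) (.nd (nat_lit 18) 
(.lf (nat_lit 6376439928) (dlOf (nat_lit 1) (nat_lit 0x60018090201))) (.nd (nat_lit 19) 
(.lf (nat_lit 5704564856) (dlOf (nat_lit 1) (nat_lit 0x4002003800080f0b82))) 
(.lf (nat_lit 471646328) (dlOf (nat_lit 9) (nat_lit 0x2402c2000814e008c04e804b02380026810000c13a00132020086161004004e802c02380022a0c00842c2002c09d0030047000450180100584003c11c000ff0400441610007b8100800b08008053800c817a00f809d00900470003a4280010238001ce04001800400260018370482))))))) 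
(.nd (nat_lit 12) (.nd (nat_lit 23) (.nd (nat_lit 10) (.nd (nat_lit 22) 
(.lf (nat_lit 3556821608) (dlOf (nat_lit 1) (nat_lit 0x20028085381))) 
(.lf (nat_lit 54577768) (dlOf (nat_lit 1) (nat_lit 0x20029655381)))) 
(.lf (nat_lit 5435868776) (dlOf (nat_lit 1) (nat_lit 0x1e0018003901)))) (.nd (nat_lit 4) 
(.nd (nat_lit 18) (.lf (nat_lit 46713448) (dlOf (nat_lit 1) (nat_lit 0x8008000400200020009385383))) 
(.lf (nat_lit 60082792) (dlOf (nat_lit 1) (nat_lit 0x8008000400200020009845383)))) 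
(.lf (nat_lit 61654648) (dlOf (nat_lit 2) (nat_lit 0x1a1d000009819923980))))) (.nd (nat_lit 4) 
(.nd (nat_lit 18) (.nd (nat_lit 27) 
(.lf (nat_lit 1342231144) (dlOf (nat_lit 1) (nat_lit 0x80028008981))) 
(.lf (nat_lit 1476448872) (dlOf (nat_lit 1) (nat_lit 0x5800400040018008982)))) 
(.lf (nat_lit 20238952) (dlOf (nat_lit 1) (nat_lit 0x200189d8981)))) (.nd (nat_lit 18) 
(.lf (nat_lit 6643832440) (dlOf (nat_lit 1) (nat_lit 0x400200020008009d02))) 
(.lf (nat_lit 20239992) (dlOf (nat_lit 1) (nat_lit 0x1c0008006400200d200089d9d03))))))) 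
(.nd (nat_lit 4) (.nd (nat_lit 9) (.nd (nat_lit 18) (.nd (nat_lit 22) (.nd (nat_lit 26) 
(.lf (nat_lit 671138152) (dlOf (nat_lit 2) (nat_lit 0x340000002902000a00080b0701))) 
(.lf (nat_lit 1543553384) (dlOf (nat_lit 2) (nat_lit 0x340000002902000a00080b0701)))) 
(.lf (nat_lit 2755707240) (dlOf (nat_lit 7) (nat_lit 0x811480130874006842a0003106006221d0001801000110b8000a40800188a4003043a0026217001610a800094200170874002842a00021040050229003b10a800070100020008006c002000200081b0703)))) 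
(.nd (nat_lit 27) (.nd (nat_lit 10) 
(.lf (nat_lit 3457384) (dlOf (nat_lit 2) (nat_lit 0x9fc00003204000c00200040008200702))) 
(.lf (nat_lit 3490504040) (dlOf (nat_lit 1) (nat_lit 0x2002800c901)))) (.nd (nat_lit 26) 
(.lf (nat_lit 135053672) (dlOf (nat_lit 1) (nat_lit 0xc004000200081b0702))) 
(.lf (nat_lit 202162536) (dlOf (nat_lit 1) (nat_lit 0xc004000200081b0702)))))) (.nd (nat_lit 11) 
(.nd (nat_lit 12) (.lf (nat_lit 19972968) (dlOf (nat_lit 1) (nat_lit 0xc00189d2581))) 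
(.lf (nat_lit 8442728) (dlOf (nat_lit 1) (nat_lit 0x18008001400200020008518f83)))) 
(.nd (nat_lit 12) (.nd (nat_lit 26) 
(.lf (nat_lit 4831890280) (dlOf (nat_lit 1) (nat_lit 0x40028055c01))) 
(.lf (nat_lit 5704305512) (dlOf (nat_lit 1) (nat_lit 0x400400020018055c02)))) 
(.lf (nat_lit 2550193000) (dlOf (nat_lit 1) (nat_lit 0x2e001800bc81)))))) (.nd (nat_lit 9) 
(.nd (nat_lit 11) (.nd (nat_lit 26) (.nd (nat_lit 27) 
(.lf (nat_lit 5100324216) (dlOf (nat_lit 1) (nat_lit 0x20008053501))) 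
(.lf (nat_lit 6308283768) (dlOf (nat_lit 1) (nat_lit 0x40028053501)))) 
(.lf (nat_lit 6375392632) (dlOf (nat_lit 2) (nat_lit 0xd00d800000080018008001c00200080008003503)))) 
(.nd (nat_lit 10) 
(.lf (nat_lit 3288385912) (dlOf (nat_lit 1) (nat_lit 0x1000800a4002005e0008004e83))) 
(.nd (nat_lit 12) (.lf (nat_lit 3288386936) (dlOf (nat_lit 1) (nat_lit 0x400200160008006b82))) 
(.lf (nat_lit 3489717624) (dlOf (nat_lit 1) (nat_lit 0x3000800080020008000800c903)))))) 
(.nd (nat_lit 26) (.nd (nat_lit 20) (.nd (nat_lit 27) 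
(.lf (nat_lit 5368761208) (dlOf (nat_lit 1) (nat_lit 0x8008000400200020008005c03))) 
(.lf (nat_lit 4697672568) (dlOf (nat_lit 1) (nat_lit 0x20018005c01)))) 
(.lf (nat_lit 19975032) (dlOf (nat_lit 1) (nat_lit 0x80080038002001e00089d5c03)))) 
(.nd (nat_lit 18) (.nd (nat_lit 10) 
(.lf (nat_lit 872467320) (dlOf (nat_lit 1) (nat_lit 0x20008000400200040008005c03))) 
(.lf (nat_lit 2751514488) (dlOf (nat_lit 1) (nat_lit 0x28008004000200040008004083)))) 
(.nd (nat_lit 29) 
(.lf (nat_lit 4496608120) (dlOf (nat_lit 1) (nat_lit 0x8008007400200de00080e5c03))) 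
(.lf (nat_lit 738511736) (dlOf (nat_lit 1) (nat_lit 0x400400020018095c02))))))))) (.nd (nat_lit 11) 
(.nd (nat_lit 8) (.nd (nat_lit 26) (.nd (nat_lit 28) (.nd (nat_lit 9) 
(.lf (nat_lit 3892887784) (dlOf (nat_lit 1) (nat_lit 0x20028280601))) (.nd (nat_lit 10) 
(.lf (nat_lit 19972840) (dlOf (nat_lit 1) (nat_lit 0x118002001200089d2102))) 
(.lf (nat_lit 313064) (dlOf (nat_lit 1) (nat_lit 0x20028003b01))))) (.nd (nat_lit 4) 
(.nd (nat_lit 9) (.lf (nat_lit 1344323816) (dlOf (nat_lit 1) (nat_lit 0x200286b0601))) 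
(.lf (nat_lit 4026582760) (dlOf (nat_lit 1) (nat_lit 0x120018003b01)))) 
(.lf (nat_lit 4160799480) (dlOf (nat_lit 1) (nat_lit 0x160018002101))))) (.nd (nat_lit 9) 
(.nd (nat_lit 10) (.nd (nat_lit 19) 
(.lf (nat_lit 5838782696) (dlOf (nat_lit 1) (nat_lit 0x8004000200081b0482))) 
(.lf (nat_lit 471646440) (dlOf (nat_lit 1) (nat_lit 0x58008003c00200360008370603)))) 
(.lf (nat_lit 6375392488) (dlOf (nat_lit 2) (nat_lit 0x80b80008604000c004000e0008002e02)))) 
(.nd (nat_lit 4) 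
(.lf (nat_lit 2751514344) (dlOf (nat_lit 1) (nat_lit 0x18008002000200060008003b03))) 
(.nd (nat_lit 10) (.lf (nat_lit 6643831544) (dlOf (nat_lit 1) (nat_lit 0x400200060008008f82))) 
(.lf (nat_lit 2752300792) (dlOf (nat_lit 1) (nat_lit 0x8008001c00200020008003b83))))))) 
(.nd (nat_lit 10) (.nd (nat_lit 4) (.nd (nat_lit 26) 
(.lf (nat_lit 3221537256) (dlOf (nat_lit 2) (nat_lit 0xb400e00011018127300))) 
(.lf (nat_lit 3959734760) (dlOf (nat_lit 2) (nat_lit 0x1000000000080118008008000200100008127d03)))) 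
(.nd (nat_lit 9) 
(.lf (nat_lit 3959734776) (dlOf (nat_lit 7) (nat_lit 0xc0070004003000100000002406002000e000b00600060000000440c001801c000600c000b0000000801800380380003e04002001c000c00c00050000000741800c00380003604010800400040018127e02))) 
(.nd (nat_lit 18) 
(.lf (nat_lit 2751513592) (dlOf (nat_lit 2) (nat_lit 0x103400747c080010008005400200040008002883))) 
(.lf (nat_lit 473744376) (dlOf (nat_lit 2) (nat_lit 0x90678005020c0000008009000400120008fa2882)))))) 
(.nd (nat_lit 27) (.nd (nat_lit 9) (.nd (nat_lit 18) 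
(.lf (nat_lit 4563453416) (dlOf (nat_lit 1) (nat_lit 0x20018003601))) 
(.lf (nat_lit 1610925544) (dlOf (nat_lit 1) (nat_lit 0x400400020018093602)))) 
(.lf (nat_lit 313320) (dlOf (nat_lit 1) (nat_lit 0x40028004601)))) (.nd (nat_lit 9) 
(.nd (nat_lit 29) 
(.lf (nat_lit 5502977512) (dlOf (nat_lit 1) (nat_lit 0x8008000400200020008003603))) 
(.lf (nat_lit 1744881128) (dlOf (nat_lit 1) (nat_lit 0x20008000400200040008003603)))) 
(.lf (nat_lit 1006684136) (dlOf (nat_lit 1) (nat_lit 0x20018004601))))))) (.nd (nat_lit 28) 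
(.nd (nat_lit 4) (.nd (nat_lit 8) (.nd (nat_lit 18) (.nd (nat_lit 27) 
(.lf (nat_lit 3288386792) (dlOf (nat_lit 1) (nat_lit 0x50008001c00200040008006503))) 
(.lf (nat_lit 2885733608) (dlOf (nat_lit 1) (nat_lit 0x7c00200380008006502)))) 
(.lf (nat_lit 314600) (dlOf (nat_lit 1) (nat_lit 0x40028006501)))) (.nd (nat_lit 12) 
(.lf (nat_lit 4831889896) (dlOf (nat_lit 1) (nat_lit 0x8008000400200020008054e83))) 
(.lf (nat_lit 4362131944) (dlOf (nat_lit 1) (nat_lit 0x46001800b281))))) (.nd (nat_lit 19) 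
(.nd (nat_lit 29) (.nd (nat_lit 9) 
(.lf (nat_lit 8444408) (dlOf (nat_lit 1) (nat_lit 0x5b800800040020130000851b283))) 
(.lf (nat_lit 5368761336) (dlOf (nat_lit 1) (nat_lit 0x540018005f01)))) (.nd (nat_lit 26) 
(.lf (nat_lit 1610664952) (dlOf (nat_lit 1) (nat_lit 0x8008000400200020008005f03))) 
(.lf (nat_lit 5033217016) (dlOf (nat_lit 1) (nat_lit 0x8c0018005f01))))) (.nd (nat_lit 8) 
(.lf (nat_lit 40422136) (dlOf (nat_lit 1) (nat_lit 0x4004000200091f5a02))) 
(.lf (nat_lit 60345336) (dlOf (nat_lit 1) (nat_lit 0x20008000c00200060009845f03)))))) 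
(.nd (nat_lit 26) (.nd (nat_lit 10) (.nd (nat_lit 8) 
(.lf (nat_lit 4026583272) (dlOf (nat_lit 1) (nat_lit 0x7800200660008004b02))) (.nd (nat_lit 9) 
(.lf (nat_lit 6174067176) (dlOf (nat_lit 1) (nat_lit 0x400400020008054e82))) 
(.lf (nat_lit 5234543592) (dlOf (nat_lit 2) (nat_lit 0x16017000000080090008008c00200100008055e83))))) 
(.nd (nat_lit 4) 
(.lf (nat_lit 3489975784) (dlOf (nat_lit 1) (nat_lit 0x8008002000200020008006e83))) 
(.lf (nat_lit 3624193528) (dlOf (nat_lit 1) (nat_lit 0x6e0028146f81))))) (.nd (nat_lit 9) 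
(.nd (nat_lit 4) (.nd (nat_lit 12) 
(.lf (nat_lit 5704305128) (dlOf (nat_lit 1) (nat_lit 0x8008000400200020008054e83))) 
(.lf (nat_lit 469817832) (dlOf (nat_lit 1) (nat_lit 0x2c001800b281)))) 
(.lf (nat_lit 3691043064) (dlOf (nat_lit 2) (nat_lit 0x401d0001781800a980)))) (.nd (nat_lit 20) 
(.lf (nat_lit 5704305640) (dlOf (nat_lit 2) (nat_lit 0x800c80002c080068008007c00200140008055e83))) 
(.lf (nat_lit 4094741480) (dlOf (nat_lit 2) (nat_lit 0x303d000016040010002000e0008055e82))))))))))) 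
(.nd (nat_lit 4) (.nd (nat_lit 5) (.nd (nat_lit 6) (.nd (nat_lit 26) (.nd (nat_lit 18) 
(.nd (nat_lit 7) (.nd (nat_lit 19) (.nd (nat_lit 8) (.nd (nat_lit 9) 
(.lf (nat_lit 4831890444) (dlOf (nat_lit 1) (nat_lit 0x60028055f81))) 
(.lf (nat_lit 268486156) (dlOf (nat_lit 1) (nat_lit 0x40008053681)))) 
(.lf (nat_lit 2281755404) (dlOf (nat_lit 1) (nat_lit 0x1c0018008f81)))) (.nd (nat_lit 23) 
(.nd (nat_lit 20) 
(.lf (nat_lit 19447820) (dlOf (nat_lit 1) (nat_lit 0x180080028002000800089a0683))) 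
(.lf (nat_lit 3491282956) (dlOf (nat_lit 3) (nat_lit 0x130fe0004340800107f00020c04001000200260008080082)))) 
(.nd (nat_lit 24) (.lf (nat_lit 11059212) (dlOf (nat_lit 2) (nat_lit 0x6c3c90001d818660100))) 
(.lf (nat_lit 27836428) (dlOf (nat_lit 1) (nat_lit 0x400200020008d30182)))))) (.nd (nat_lit 29) 
(.nd (nat_lit 8) (.nd (nat_lit 21) 
(.lf (nat_lit 6576717964) (dlOf (nat_lit 3) (nat_lit 0x520070002181006800d8037001c00082080070004002400180b0102))) 
(.lf (nat_lit 2146444) (dlOf (nat_lit 1) (nat_lit 0x800400020018150102)))) 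
(.lf (nat_lit 31508876) (dlOf (nat_lit 1) (nat_lit 0xc0028e94e81)))) (.nd (nat_lit 8) 
(.nd (nat_lit 19) 
(.lf (nat_lit 939573388) (dlOf (nat_lit 4) (nat_lit 0x4026003b0110005007400280380004a0800260260002181004e0130015808800f0042006401d003c00e000104280210008002000200bc00080b0103))) 
(.lf (nat_lit 537444492) (dlOf (nat_lit 1) (nat_lit 0x8008002400200020008090103)))) 
(.lf (nat_lit 1610664332) (dlOf (nat_lit 1) (nat_lit 0x20400400120008004e82)))))) (.nd (nat_lit 27) 
(.nd (nat_lit 8) (.nd (nat_lit 22) (.nd (nat_lit 29) 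
(.lf (nat_lit 4563714060) (dlOf (nat_lit 6) (nat_lit 0x280bc002005a001001f00c8e830005017800380b4002003e0191c06000802f00050168003007c032360c001405e000e01f00c8d02000200f806208080010008000c002000600080c0003))) 
(.lf (nat_lit 805617676) (dlOf (nat_lit 1) (nat_lit 0x20018140a01)))) (.nd (nat_lit 19) 
(.lf (nat_lit 14991372) (dlOf (nat_lit 1) (nat_lit 0x200287a0181))) 
(.lf (nat_lit 21807116) (dlOf (nat_lit 1) (nat_lit 0x20028a70481))))) (.nd (nat_lit 7) 
(.lf (nat_lit 41206028) (dlOf (nat_lit 1) (nat_lit 0x400200020009223a02))) (.nd (nat_lit 11) 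
(.lf (nat_lit 8176012) (dlOf (nat_lit 1) (nat_lit 0x20018511001))) 
(.lf (nat_lit 50645388) (dlOf (nat_lit 1) (nat_lit 0x4004003400094c4e82)))))) (.nd (nat_lit 28) 
(.nd (nat_lit 29) (.lf (nat_lit 1208270860) (dlOf (nat_lit 1) (nat_lit 0x4004000200080b0002))) 
(.nd (nat_lit 31) 
(.lf (nat_lit 6040109068) (dlOf (nat_lit 2) (nat_lit 0xc40460036021001a0088005e01800200080018002001800080f0483))) 
(.lf (nat_lit 3892625420) (dlOf (nat_lit 1) (nat_lit 0x360008170081))))) (.nd (nat_lit 7) 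
(.lf (nat_lit 4697931788) (dlOf (nat_lit 6) (nat_lit 0x280bc002005a001001f00e35030005017800380b4002003e01c6906000802f00050168003007c038d00c001405e000e01f00e3382000200f806fb0080010008000c002000600080c0003))) 
(.lf (nat_lit 5771676044) (dlOf (nat_lit 2) (nat_lit 0x2005000e140200040018004e81))))))) 
(.nd (nat_lit 27) (.nd (nat_lit 7) (.nd (nat_lit 19) (.nd (nat_lit 8) 
(.lf (nat_lit 1678032908) (dlOf (nat_lit 1) (nat_lit 0x20018140a01))) 
(.lf (nat_lit 3288386828) (dlOf (nat_lit 1) (nat_lit 0x380080034002004a0008006683)))) 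
(.nd (nat_lit 20) (.nd (nat_lit 28) 
(.lf (nat_lit 4362649612) (dlOf (nat_lit 1) (nat_lit 0x1c00180c0081))) 
(.lf (nat_lit 3557343244) (dlOf (nat_lit 2) (nat_lit 0x3501c0000000801980080024002004600081c0483)))) 
(.lf (nat_lit 2753085452) (dlOf (nat_lit 3) (nat_lit 0x131088003e0080010844001e204001000200260008080082))))) 
(.nd (nat_lit 8) (.nd (nat_lit 19) 
(.lf (nat_lit 5972738188) (dlOf (nat_lit 3) (nat_lit 0x520070002181006800d8037001c00082080070004002400180b0102))) 
(.lf (nat_lit 1409859724) (dlOf (nat_lit 1) (nat_lit 0x8008002400200020008090103)))) 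
(.nd (nat_lit 10) (.lf (nat_lit 3556821388) (dlOf (nat_lit 1) (nat_lit 0x20028084e81))) 
(.lf (nat_lit 3288386956) (dlOf (nat_lit 1) (nat_lit 0x7800200660008006c82)))))) (.nd (nat_lit 30) 
(.nd (nat_lit 29) (.nd (nat_lit 8) 
(.lf (nat_lit 2617557004) (dlOf (nat_lit 3) (nat_lit 0xc02f000150100050170000a0080098008000c002000800080f0103))) 
(.lf (nat_lit 6643831564) (dlOf (nat_lit 1) (nat_lit 0x200080010002001c0008008f83)))) 
(.nd (nat_lit 7) (.lf (nat_lit 3154690316) (dlOf (nat_lit 2) (nat_lit 0x1402c0023f818310700))) 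
(.lf (nat_lit 3154168204) (dlOf (nat_lit 1) (nat_lit 0x20028084e81))))) (.nd (nat_lit 18) 
(.nd (nat_lit 7) (.lf (nat_lit 4228431884) (dlOf (nat_lit 1) (nat_lit 0x1c00180c0081))) 
(.lf (nat_lit 1811988620) (dlOf (nat_lit 4) (nat_lit 0x4026003b0110005007400280380004a0800260260002181004e0130015808800f0042006401d003c00e000104280210008002000200bc00080b0103)))) 
(.nd (nat_lit 28) (.lf (nat_lit 3422863372) (dlOf (nat_lit 1) (nat_lit 0x18004001a0008130082))) 
(.lf (nat_lit 2080686092) (dlOf (nat_lit 1) (nat_lit 0x4004000200080b0002)))))))) (.nd (nat_lit 7) 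
(.nd (nat_lit 18) (.nd (nat_lit 26) (.nd (nat_lit 21) (.nd (nat_lit 8) 
(.lf (nat_lit 3494428748) (dlOf (nat_lit 4) (nat_lit 0x2380780005804014003c0002b02007c01e00015018220d00))) 
(.nd (nat_lit 28) (.lf (nat_lit 671138124) (dlOf (nat_lit 1) (nat_lit 0xc004001000180b0602))) 
(.lf (nat_lit 3087057228) (dlOf (nat_lit 2) (nat_lit 0x140000000278180b0600))))) (.nd (nat_lit 8) 
(.lf (nat_lit 3493380172) (dlOf (nat_lit 2) (nat_lit 0x1e06800070318006810800200520016023000801080050078002002e0010008001d00000002c500248008002400200180008120f83))) 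
(.nd (nat_lit 20) (.lf (nat_lit 2146636) (dlOf (nat_lit 1) (nat_lit 0x4004000a0008150602))) 
(.lf (nat_lit 24166732) (dlOf (nat_lit 2) (nat_lit 0x6ec1b00019018b80600)))))) (.nd (nat_lit 8) 
(.nd (nat_lit 20) 
(.lf (nat_lit 2756231244) (dlOf (nat_lit 4) (nat_lit 0x2380780005a04014003c0002c02007c01e00015818220d00))) 
(.lf (nat_lit 2755182668) (dlOf (nat_lit 2) (nat_lit 0x1e06800070318006810800200520016023000801080050078002002e0010008001d00000002c500248008002400200180008120f83)))) 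
(.nd (nat_lit 30) (.nd (nat_lit 10) 
(.lf (nat_lit 2755707212) (dlOf (nat_lit 2) (nat_lit 0x8c45201c6215000200281b0600))) 
(.lf (nat_lit 604034380) (dlOf (nat_lit 1) (nat_lit 0x30008001000200040008009903)))) 
(.nd (nat_lit 27) (.lf (nat_lit 3825254732) (dlOf (nat_lit 2) (nat_lit 0x1400000002b0180b0600))) 
(.lf (nat_lit 1543553356) (dlOf (nat_lit 1) (nat_lit 0xc004001000180b0602))))))) (.nd (nat_lit 8) 
(.nd (nat_lit 26) (.nd (nat_lit 19) 
(.lf (nat_lit 6174326860) (dlOf (nat_lit 1) (nat_lit 0x200280f0601))) 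
(.lf (nat_lit 3981388) (dlOf (nat_lit 2) (nat_lit 0x1655800012018261500)))) (.nd (nat_lit 27) 
(.lf (nat_lit 2483339340) (dlOf (nat_lit 12) (nat_lit 0x3805401a20280001e820047015008f80a0000780800880500003b0201d40280001c81003a0140000dc0804380a00006c040200050000350200300280001a0100170140000640802000a00002a04000c0500001302000200180c1501))) 
(.nd (nat_lit 30) (.lf (nat_lit 2349121612) (dlOf (nat_lit 1) (nat_lit 0x200180c1881))) 
(.lf (nat_lit 5570347084) (dlOf (nat_lit 1) (nat_lit 0x200280f0601)))))) (.nd (nat_lit 9) 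
(.nd (nat_lit 19) (.nd (nat_lit 20) 
(.lf (nat_lit 1409597772) (dlOf (nat_lit 2) (nat_lit 0x20170000d004001c00400160008048002))) 
(.lf (nat_lit 3457356) (dlOf (nat_lit 2) (nat_lit 0x653a28000c8080020008001000200080008200603)))) 
(.lf (nat_lit 23904588) (dlOf (nat_lit 1) (nat_lit 0x20018b80601)))) (.nd (nat_lit 12) 
(.nd (nat_lit 20) (.lf (nat_lit 4496608076) (dlOf (nat_lit 1) (nat_lit 0x4004000200080e5c02))) 
(.lf (nat_lit 20237132) (dlOf (nat_lit 1) (nat_lit 0x4002000200089d5c02)))) (.nd (nat_lit 10) 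
(.lf (nat_lit 537713484) (dlOf (nat_lit 2) (nat_lit 0xb03b0002019800aa4080020004004800180fbc82))) 
(.lf (nat_lit 2818889548) (dlOf (nat_lit 1) (nat_lit 0x2002812a201)))))))) (.nd (nat_lit 27) 
(.nd (nat_lit 8) (.nd (nat_lit 18) (.nd (nat_lit 10) (.nd (nat_lit 22) 
(.lf (nat_lit 3825254604) (dlOf (nat_lit 2) (nat_lit 0x490000003a20400c8002001000080b0482))) 
(.nd (nat_lit 26) 
(.lf (nat_lit 3493904588) (dlOf (nat_lit 2) (nat_lit 0xd807e001d102000200181b0481))) 
(.lf (nat_lit 2755707084) (dlOf (nat_lit 4) (nat_lit 0x4e8898003a20401d042a001cd02005c224000e28181b0480))))) 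
(.nd (nat_lit 12) (.lf (nat_lit 5100324044) (dlOf (nat_lit 1) (nat_lit 0x1800200020008052d82))) 
(.lf (nat_lit 67163340) (dlOf (nat_lit 2) (nat_lit 0x41a60067c0200020018009501))))) 
(.nd (nat_lit 20) (.nd (nat_lit 21) 
(.lf (nat_lit 5369020620) (dlOf (nat_lit 1) (nat_lit 0x4002000200080c1782))) 
(.lf (nat_lit 2408652) (dlOf (nat_lit 1) (nat_lit 0xc00400060008150482)))) 
(.lf (nat_lit 3457228) (dlOf (nat_lit 1) (nat_lit 0x8008000c00200020008200483))))) 
(.nd (nat_lit 18) (.nd (nat_lit 9) (.nd (nat_lit 11) 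
(.lf (nat_lit 11583948) (dlOf (nat_lit 2) (nat_lit 0x12f38a800000080008008000c002000600086c0983))) 
(.lf (nat_lit 1344850380) (dlOf (nat_lit 1) (nat_lit 0x400400020018984e82)))) 
(.lf (nat_lit 536922060) (dlOf (nat_lit 2) (nat_lit 0x405f00006818004480)))) (.nd (nat_lit 21) 
(.lf (nat_lit 21283276) (dlOf (nat_lit 1) (nat_lit 0x8008000400200020008a37103))) 
(.lf (nat_lit 23380428) (dlOf (nat_lit 2) (nat_lit 0x332fc0000004001800400060008b80982)))))) 
(.nd (nat_lit 26) (.nd (nat_lit 18) (.nd (nat_lit 28) 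
(.lf (nat_lit 671137996) (dlOf (nat_lit 2) (nat_lit 0x2e023000e88180b0480))) (.nd (nat_lit 31) 
(.lf (nat_lit 939573452) (dlOf (nat_lit 2) (nat_lit 0x1760240011e0180b0480))) 
(.lf (nat_lit 3087057100) (dlOf (nat_lit 2) (nat_lit 0x490000003a20400c8002001000080b0482))))) 
(.nd (nat_lit 19) (.nd (nat_lit 32) 
(.lf (nat_lit 402964684) (dlOf (nat_lit 1) (nat_lit 0x200280c1781))) 
(.lf (nat_lit 4697931980) (dlOf (nat_lit 3) (nat_lit 0x80580001a02000402c0000c0180c1780)))) 
(.lf (nat_lit 135053516) (dlOf (nat_lit 1) (nat_lit 0x200081b0481))))) (.nd (nat_lit 8) 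
(.nd (nat_lit 18) (.nd (nat_lit 28) 
(.lf (nat_lit 1811988684) (dlOf (nat_lit 2) (nat_lit 0x1760240011e0180b0480))) 
(.lf (nat_lit 1543553228) (dlOf (nat_lit 2) (nat_lit 0x2e023000e88180b0480)))) 
(.lf (nat_lit 202162380) (dlOf (nat_lit 1) (nat_lit 0x200081b0481)))) (.nd (nat_lit 11) 
(.lf (nat_lit 3691041740) (dlOf (nat_lit 1) (nat_lit 0x20018009201))) 
(.lf (nat_lit 4227914700) (dlOf (nat_lit 1) (nat_lit 0x1000800100020002000800be83))))))))) 
(.nd (nat_lit 28) (.nd (nat_lit 18) (.nd (nat_lit 10) (.nd (nat_lit 19) (.nd (nat_lit 6) 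
(.nd (nat_lit 9) (.nd (nat_lit 20) 
(.lf (nat_lit 52477996) (dlOf (nat_lit 1) (nat_lit 0x400400020009540982))) 
(.lf (nat_lit 68206636) (dlOf (nat_lit 3) (nat_lit 0x10504a4082817e026c0b8020a01000ae0000000a41400fc0000004b0200680028450681)))) 
(.nd (nat_lit 8) (.nd (nat_lit 26) 
(.lf (nat_lit 6039847468) (dlOf (nat_lit 1) (nat_lit 0xc00400080008001482))) 
(.lf (nat_lit 3422601772) (dlOf (nat_lit 1) (nat_lit 0x400200020008001482)))) 
(.lf (nat_lit 5033216812) (dlOf (nat_lit 1) (nat_lit 0x160018005c01))))) (.nd (nat_lit 7) 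
(.nd (nat_lit 8) (.lf (nat_lit 47235180) (dlOf (nat_lit 1) (nat_lit 0x200293c0b01))) 
(.lf (nat_lit 4831890284) (dlOf (nat_lit 1) (nat_lit 0x8008000400200020008055c03)))) 
(.lf (nat_lit 8444652) (dlOf (nat_lit 1) (nat_lit 0x2001851b981))))) (.nd (nat_lit 21) 
(.nd (nat_lit 22) (.nd (nat_lit 6) 
(.lf (nat_lit 4362649644) (dlOf (nat_lit 2) (nat_lit 0x13800000000040124002007e00080c0b02))) 
(.lf (nat_lit 17350764) (dlOf (nat_lit 1) (nat_lit 0xc00188e0481)))) (.nd (nat_lit 24) 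
(.lf (nat_lit 2756231212) (dlOf (nat_lit 3) (nat_lit 0x1680000001202002400000008818220a80))) 
(.lf (nat_lit 21545004) (dlOf (nat_lit 2) (nat_lit 0xe5f28000000800f0008023800201140008a40303))))) 
(.nd (nat_lit 6) (.nd (nat_lit 22) 
(.lf (nat_lit 2754134060) (dlOf (nat_lit 7) (nat_lit 0xe903340008112009e088000120301d106680008224011c1100002206023e0cd0001001012106680007c0804483340003a04002019a0001b02001000180c0d01))) 
(.lf (nat_lit 15253548) (dlOf (nat_lit 2) (nat_lit 0x9c9cf000258187c0680)))) 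
(.lf (nat_lit 37276140) (dlOf (nat_lit 1) (nat_lit 0x4002000200090d4f02)))))) (.nd (nat_lit 6) 
(.nd (nat_lit 7) (.nd (nat_lit 9) 
(.lf (nat_lit 19979308) (dlOf (nat_lit 1) (nat_lit 0xe00189dbf01))) (.nd (nat_lit 23) 
(.lf (nat_lit 2147534380) (dlOf (nat_lit 1) (nat_lit 0x1c00200040008003782))) 
(.lf (nat_lit 8439340) (dlOf (nat_lit 1) (nat_lit 0xa0004005e0008513782))))) (.nd (nat_lit 8) 
(.lf (nat_lit 60867756) (dlOf (nat_lit 1) (nat_lit 0x80080008002000400098c2c03))) (.nd (nat_lit 9) 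
(.lf (nat_lit 4898997676) (dlOf (nat_lit 2) (nat_lit 0xc0380008e0200020018053601))) 
(.lf (nat_lit 2751514540) (dlOf (nat_lit 1) (nat_lit 0x800200020008004302)))))) (.nd (nat_lit 7) 
(.nd (nat_lit 27) 
(.lf (nat_lit 4898997868) (dlOf (nat_lit 1) (nat_lit 0x800801ec00200e20008053903))) 
(.lf (nat_lit 5570086508) (dlOf (nat_lit 1) (nat_lit 0x400400020008053902)))) (.nd (nat_lit 12) 
(.lf (nat_lit 43566572) (dlOf (nat_lit 1) (nat_lit 0x200292a3601))) (.nd (nat_lit 26) 
(.lf (nat_lit 2684409324) (dlOf (nat_lit 1) (nat_lit 0x400200020008009c02))) 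
(.lf (nat_lit 6643832300) (dlOf (nat_lit 2) (nat_lit 0x5010000510080020008000800200040008009c03)))))))) 
(.nd (nat_lit 8) (.nd (nat_lit 24) (.nd (nat_lit 30) (.nd (nat_lit 19) (.nd (nat_lit 26) 
(.lf (nat_lit 134529068) (dlOf (nat_lit 1) (nat_lit 0x400400020008060602))) 
(.lf (nat_lit 201637932) (dlOf (nat_lit 1) (nat_lit 0x400400020008060602)))) (.nd (nat_lit 21) 
(.lf (nat_lit 13418540) (dlOf (nat_lit 2) (nat_lit 0x65770000a20400a800200560008720d02))) 
(.lf (nat_lit 2932780) (dlOf (nat_lit 1) (nat_lit 0x400181d0601))))) (.nd (nat_lit 26) 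
(.nd (nat_lit 9) (.lf (nat_lit 1745141804) (dlOf (nat_lit 1) (nat_lit 0x800080b0401))) 
(.lf (nat_lit 3221537324) (dlOf (nat_lit 8) (nat_lit 0x7400e002d000000090100010038000460400e801c0002202007400e00240000000801000e00000003c0400980000001d02007400e0007000000070100058008001000200900008128003)))) 
(.nd (nat_lit 6) 
(.lf (nat_lit 3825516716) (dlOf (nat_lit 1) (nat_lit 0x8008000400200020008184c03))) 
(.lf (nat_lit 3288645740) (dlOf (nat_lit 1) (nat_lit 0x1800080058002007c00080a1483)))))) 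
(.nd (nat_lit 19) (.nd (nat_lit 9) (.nd (nat_lit 20) 
(.lf (nat_lit 27574316) (dlOf (nat_lit 1) (nat_lit 0x8008000800200020008d00883))) 
(.lf (nat_lit 62177324) (dlOf (nat_lit 5) (nat_lit 0x10df800181380001c08000409c0000d0200041bf000060100040df8001013800016080018004000e0009970c02)))) 
(.nd (nat_lit 7) 
(.lf (nat_lit 23380524) (dlOf (nat_lit 3) (nat_lit 0x3d87000007810066c8b002b61c00000e080050004000c0008b80e82))) 
(.lf (nat_lit 20240044) (dlOf (nat_lit 1) (nat_lit 0x4002000200089da002))))) (.nd (nat_lit 6) 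
(.nd (nat_lit 20) 
(.lf (nat_lit 59555884) (dlOf (nat_lit 2) (nat_lit 0xd9d0000000040014004001c0009810982))) 
(.lf (nat_lit 27050028) (dlOf (nat_lit 3) (nat_lit 0x60d98409de9ea00374f3001c9d080090e40007c41c000200000029070019b3081365890004e9f402114f5009ca7a00012c280fe0008021800200880008ca0683)))) 
(.lf (nat_lit 51167340) (dlOf (nat_lit 1) (nat_lit 0x20019501e81)))))) (.nd (nat_lit 6) 
(.nd (nat_lit 10) (.nd (nat_lit 26) (.nd (nat_lit 29) 
(.lf (nat_lit 6442762540) (dlOf (nat_lit 2) (nat_lit 0xc01a0001840800180080014002000400081b0503))) 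
(.lf (nat_lit 5905891628) (dlOf (nat_lit 1) (nat_lit 0x800400040008154902)))) 
(.lf (nat_lit 6509871404) (dlOf (nat_lit 1) (nat_lit 0x800400040008154902)))) (.nd (nat_lit 7) 
(.lf (nat_lit 313132) (dlOf (nat_lit 1) (nat_lit 0x20028003d81))) 
(.lf (nat_lit 8177068) (dlOf (nat_lit 1) (nat_lit 0x400200020008513602))))) (.nd (nat_lit 11) 
(.nd (nat_lit 7) (.lf (nat_lit 56935788) (dlOf (nat_lit 1) (nat_lit 0x840019793481))) 
(.nd (nat_lit 26) 
(.lf (nat_lit 3221537260) (dlOf (nat_lit 8) (nat_lit 0xaa0038054801802200000001183016c00700b4803004dc000000220601c000e00aa00000008410017003800ac01800020000000f03014c00700a5803004540000001c06028e00e0000d810130007000068080220008009c00200080008127303))) 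
(.lf (nat_lit 6509871596) (dlOf (nat_lit 5) (nat_lit 0x10026000e00b800174100010098001802e0005c04001c01700028010025013001e805c0008408001c004000e0008157302))))) 
(.nd (nat_lit 19) (.lf (nat_lit 47499756) (dlOf (nat_lit 2) (nat_lit 0x4a7a00043819404f00))) 
(.lf (nat_lit 33343980) (dlOf (nat_lit 1) (nat_lit 0x40028f54f01)))))))) (.nd (nat_lit 29) 
(.nd (nat_lit 26) (.nd (nat_lit 10) (.nd (nat_lit 18) (.nd (nat_lit 8) (.nd (nat_lit 19) 
(.lf (nat_lit 1343275052) (dlOf (nat_lit 2) (nat_lit 0x1321ad000258181e0680))) 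
(.lf (nat_lit 3494428716) (dlOf (nat_lit 3) (nat_lit 0x1680000001202002400000008818220a80)))) 
(.lf (nat_lit 3489717036) (dlOf (nat_lit 2) (nat_lit 0x307000131204000c0020002000800bc82)))) 
(.nd (nat_lit 19) (.nd (nat_lit 6) 
(.lf (nat_lit 1342488620) (dlOf (nat_lit 1) (nat_lit 0x800200020008040682))) 
(.lf (nat_lit 268746860) (dlOf (nat_lit 1) (nat_lit 0x460008000400200ba0008120b03)))) 
(.nd (nat_lit 31) 
(.lf (nat_lit 1346158636) (dlOf (nat_lit 5) (nat_lit 0x3f081401902d000f616600640a2803f033c02000380000b0c0002205002f0b4001e0598008028a00680cf003700e0000283002a85a000642cc00a8145006006780310070000121401602d200a816800330b30038851400f428400c80cf005506300338070000002001e0004000a0018e60282))) 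
(.lf (nat_lit 3493642284) (dlOf (nat_lit 1) (nat_lit 0x8008000400200020008190803)))))) 
(.nd (nat_lit 6) (.nd (nat_lit 7) 
(.lf (nat_lit 268486188) (dlOf (nat_lit 2) (nat_lit 0x300a000060080088008013000200180008053783))) 
(.nd (nat_lit 8) 
(.lf (nat_lit 1344849068) (dlOf (nat_lit 2) (nat_lit 0x80468000b4080030008000c00200080008982c03))) 
(.lf (nat_lit 268486060) (dlOf (nat_lit 1) (nat_lit 0x18008001000200040008053603))))) 
(.lf (nat_lit 2550189292) (dlOf (nat_lit 1) (nat_lit 0x400400020018006502))))) (.nd (nat_lit 7) 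
(.nd (nat_lit 8) (.nd (nat_lit 10) (.nd (nat_lit 18) 
(.lf (nat_lit 470859820) (dlOf (nat_lit 2) (nat_lit 0xc108180620350012c16300530aa80b0850803f826202d40be007f04a802a820806040000004b14001400181c0681))) 
(.lf (nat_lit 470073388) (dlOf (nat_lit 1) (nat_lit 0x800200020008040682)))) 
(.lf (nat_lit 473744428) (dlOf (nat_lit 3) (nat_lit 0x120d90033e81000106c8019f00800a8008000400200200008fa2883)))) 
(.nd (nat_lit 6) (.nd (nat_lit 18) 
(.lf (nat_lit 474005804) (dlOf (nat_lit 8) (nat_lit 0x7000a0001602003c0050000a81001e0028000380800e8014000180400642d800120fa001f002800a80040000c1000101f4003a0050000202000407d000f80140000008002800200020009000b02))) 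
(.lf (nat_lit 5838782764) (dlOf (nat_lit 2) (nat_lit 0xc01a0001900800180080014002000400081b0503)))) 
(.lf (nat_lit 5704305516) (dlOf (nat_lit 1) (nat_lit 0x8008000400200020008055c03))))) 
(.nd (nat_lit 6) (.nd (nat_lit 8) 
(.lf (nat_lit 473220268) (dlOf (nat_lit 2) (nat_lit 0x60b0000088080010008001000200060008dd2c03))) 
(.nd (nat_lit 9) 
(.lf (nat_lit 3691042220) (dlOf (nat_lit 4) (nat_lit 0x200a80296c0800e00540148a04001402a00a3c0200120008009901))) 
(.lf (nat_lit 5704305580) (dlOf (nat_lit 1) (nat_lit 0x20028055d01))))) (.nd (nat_lit 9) 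
(.lf (nat_lit 2617300460) (dlOf (nat_lit 1) (nat_lit 0x400200020008009c02))) 
(.lf (nat_lit 473744364) (dlOf (nat_lit 5) (nat_lit 0x2c1b20066f02003208d002e00100020b00016ec0800b8258009f20400c0004003a0008fa2882))))))) 
(.nd (nat_lit 6) (.nd (nat_lit 18) (.nd (nat_lit 26) (.nd (nat_lit 7) (.nd (nat_lit 8) 
(.lf (nat_lit 6308283948) (dlOf (nat_lit 1) (nat_lit 0x400400020008053782))) 
(.lf (nat_lit 4026582828) (dlOf (nat_lit 1) (nat_lit 0x100018003d81)))) 
(.lf (nat_lit 4026582700) (dlOf (nat_lit 1) (nat_lit 0x8008000400200660008003a83)))) 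
(.nd (nat_lit 8) (.nd (nat_lit 9) 
(.lf (nat_lit 4228431916) (dlOf (nat_lit 2) (nat_lit 0x13800000000040124002007e00080c0b02))) 
(.lf (nat_lit 6375392812) (dlOf (nat_lit 1) (nat_lit 0x20028003781)))) 
(.lf (nat_lit 872464684) (dlOf (nat_lit 1) (nat_lit 0x20018000b01))))) (.nd (nat_lit 26) 
(.nd (nat_lit 7) (.nd (nat_lit 30) 
(.lf (nat_lit 2953101356) (dlOf (nat_lit 2) (nat_lit 0x370030000000800280080030002000c0008120703))) 
(.lf (nat_lit 1879359532) (dlOf (nat_lit 1) (nat_lit 0x2c004000800080f0b02)))) 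
(.lf (nat_lit 3087319212) (dlOf (nat_lit 1) (nat_lit 0x8008000400200020008184c03)))) 
(.nd (nat_lit 27) (.nd (nat_lit 19) (.nd (nat_lit 32) 
(.lf (nat_lit 872726572) (dlOf (nat_lit 1) (nat_lit 0x800080b0401))) 
(.lf (nat_lit 5167693868) (dlOf (nat_lit 1) (nat_lit 0x20028110c01)))) 
(.lf (nat_lit 4095524908) (dlOf (nat_lit 1) (nat_lit 0x4002000200080d0482)))) (.nd (nat_lit 9) 
(.lf (nat_lit 1006944300) (dlOf (nat_lit 1) (nat_lit 0x2c004000800080f0b02))) 
(.lf (nat_lit 6375654956) (dlOf (nat_lit 1) (nat_lit 0x20028003781))))))) (.nd (nat_lit 9) 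
(.nd (nat_lit 7) (.nd (nat_lit 18) 
(.lf (nat_lit 3154690156) (dlOf (nat_lit 4) (nat_lit 0x1d00b0015220400ec0580095e02000a02c0002e818310480))) 
(.lf (nat_lit 4026843244) (dlOf (nat_lit 1) (nat_lit 0x1800080058002007c00080a1483)))) 
(.nd (nat_lit 8) (.lf (nat_lit 1881194732) (dlOf (nat_lit 1) (nat_lit 0x40028e41e81))) 
(.nd (nat_lit 11) (.lf (nat_lit 5100323308) (dlOf (nat_lit 1) (nat_lit 0x20018051381))) 
(.lf (nat_lit 1881721324) (dlOf (nat_lit 1) (nat_lit 0x280028fe4f01)))))) (.nd (nat_lit 8) 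
(.nd (nat_lit 10) (.lf (nat_lit 5234543212) (dlOf (nat_lit 2) (nat_lit 0x202b00000018055380))) 
(.nd (nat_lit 27) 
(.lf (nat_lit 5100324460) (dlOf (nat_lit 1) (nat_lit 0x8008000800200020008053903))) 
(.lf (nat_lit 6308284012) (dlOf (nat_lit 1) (nat_lit 0x400400020008053902))))) (.nd (nat_lit 10) 
(.lf (nat_lit 6174067564) (dlOf (nat_lit 1) (nat_lit 0x400400020008055c02))) 
(.lf (nat_lit 4026582892) (dlOf (nat_lit 1) (nat_lit 0x70008008800200720008004003)))))))))) 
(.nd (nat_lit 18) (.nd (nat_lit 28) (.nd (nat_lit 5) (.nd (nat_lit 6) (.nd (nat_lit 19) 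
(.nd (nat_lit 22) (.nd (nat_lit 8) (.nd (nat_lit 26) 
(.lf (nat_lit 6442500124) (dlOf (nat_lit 1) (nat_lit 0x320018090001))) 
(.lf (nat_lit 4898996252) (dlOf (nat_lit 1) (nat_lit 0x5000800d000200100008050003)))) 
(.lf (nat_lit 4831887644) (dlOf (nat_lit 1) (nat_lit 0x8008008800200020008050a83)))) 
(.nd (nat_lit 21) 
(.lf (nat_lit 2755706908) (dlOf (nat_lit 3) (nat_lit 0xc114800f8874007042a01da606000c229002610e800a885403b480c0074002001200081b0002))) 
(.lf (nat_lit 14729244) (dlOf (nat_lit 2) (nat_lit 0x13e3500007008013800800f400200060008770103))))) 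
(.nd (nat_lit 20) (.nd (nat_lit 23) 
(.lf (nat_lit 19447836) (dlOf (nat_lit 1) (nat_lit 0xc00289a0c01))) 
(.lf (nat_lit 11059228) (dlOf (nat_lit 1) (nat_lit 0xd00018660481)))) (.nd (nat_lit 21) 
(.nd (nat_lit 23) 
(.lf (nat_lit 2753085468) (dlOf (nat_lit 5) (nat_lit 0x384e002a260400c02a4014ae02004015200a4601002b1080000000800d0008006400200160008080503))) 
(.lf (nat_lit 10010652) (dlOf (nat_lit 9) (nat_lit 0x483ac00041ca00010bc000848180008758000439400021c500150bc000844200040758003c39400341c500150bc000840200008758000839400261c500110bc00083c2000687300038338001550400221cc00080ce0005501000287300020376002e19c000a90300080e6000544080bd80080170002002200085a0a83)))) 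
(.nd (nat_lit 22) (.lf (nat_lit 3719196) (dlOf (nat_lit 1) (nat_lit 0x10002000c0008220a02))) 
(.lf (nat_lit 24690716) (dlOf (nat_lit 1) (nat_lit 0x38008000400200040008bb0503))))))) 
(.nd (nat_lit 9) (.nd (nat_lit 7) (.nd (nat_lit 10) (.nd (nat_lit 19) 
(.lf (nat_lit 10535004) (dlOf (nat_lit 1) (nat_lit 0x80080004002000200085f1883))) 
(.lf (nat_lit 21545052) (dlOf (nat_lit 9) (nat_lit 0x5c8514025028400121390001a0300be0a2804a85080006608032828a0003202016a142000178100d40a28058850800281d20001f06018c14500a40a1000103a40003c0c031828a01381420000e8200350a1000070080018008003400200280008a40703)))) 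
(.nd (nat_lit 20) (.lf (nat_lit 574556) (dlOf (nat_lit 1) (nat_lit 0x400200020008002902))) 
(.lf (nat_lit 39371868) (dlOf (nat_lit 1) (nat_lit 0x20019192901))))) (.nd (nat_lit 8) 
(.lf (nat_lit 4429236444) (dlOf (nat_lit 1) (nat_lit 0x1880028004a81))) (.nd (nat_lit 19) 
(.lf (nat_lit 604034524) (dlOf (nat_lit 2) (nat_lit 0x400f0000d004000400400020018009b02))) 
(.lf (nat_lit 8967644) (dlOf (nat_lit 1) (nat_lit 0x400200020008519b02)))))) (.nd (nat_lit 8) 
(.nd (nat_lit 10) (.nd (nat_lit 11) 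
(.lf (nat_lit 8442588) (dlOf (nat_lit 1) (nat_lit 0x800200020008518c82))) 
(.lf (nat_lit 19978972) (dlOf (nat_lit 1) (nat_lit 0x80080004002000200089db983)))) (.nd (nat_lit 7) 
(.lf (nat_lit 6106957404) (dlOf (nat_lit 1) (nat_lit 0x140018003901))) 
(.lf (nat_lit 2885734108) (dlOf (nat_lit 1) (nat_lit 0x300080048002002c0008007383))))) 
(.nd (nat_lit 27) (.lf (nat_lit 4898997212) (dlOf (nat_lit 1) (nat_lit 0x400400020008052882))) 
(.nd (nat_lit 30) (.lf (nat_lit 4496344028) (dlOf (nat_lit 1) (nat_lit 0x400400020008052882))) 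
(.lf (nat_lit 5570085852) (dlOf (nat_lit 1) (nat_lit 0x400400020008052882)))))))) (.nd (nat_lit 29) 
(.nd (nat_lit 11) (.nd (nat_lit 20) (.nd (nat_lit 8) (.nd (nat_lit 6) 
(.lf (nat_lit 21545020) (dlOf (nat_lit 1) (nat_lit 0x68008008000200720008a40483))) 
(.lf (nat_lit 2146428) (dlOf (nat_lit 1) (nat_lit 0x40028150081)))) (.nd (nat_lit 7) 
(.lf (nat_lit 54575420) (dlOf (nat_lit 1) (nat_lit 0x200029650b81))) 
(.lf (nat_lit 50905532) (dlOf (nat_lit 1) (nat_lit 0x7a00294d7a81))))) (.nd (nat_lit 6) 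
(.nd (nat_lit 7) (.lf (nat_lit 13680700) (dlOf (nat_lit 1) (nat_lit 0x6ac00203360008740d82))) 
(.lf (nat_lit 56149180) (dlOf (nat_lit 1) (nat_lit 0x400400020009732c82)))) (.nd (nat_lit 7) 
(.lf (nat_lit 19972220) (dlOf (nat_lit 1) (nat_lit 0x4004000200189d0282))) 
(.lf (nat_lit 19976700) (dlOf (nat_lit 1) (nat_lit 0x300080064002001600089d8683)))))) 
(.nd (nat_lit 6) (.nd (nat_lit 9) (.nd (nat_lit 8) 
(.lf (nat_lit 134270012) (dlOf (nat_lit 1) (nat_lit 0xa40018006081))) 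
(.lf (nat_lit 201382204) (dlOf (nat_lit 1) (nat_lit 0x2000800ab81)))) (.nd (nat_lit 19) 
(.lf (nat_lit 69257788) (dlOf (nat_lit 2) (nat_lit 0x708c000b8000000be08003c00400480018905202))) 
(.lf (nat_lit 44616252) (dlOf (nat_lit 1) (nat_lit 0x20029325201))))) (.nd (nat_lit 8) 
(.lf (nat_lit 60344956) (dlOf (nat_lit 1) (nat_lit 0x2400200080009845402))) (.nd (nat_lit 26) 
(.lf (nat_lit 4295019900) (dlOf (nat_lit 1) (nat_lit 0x1740028006c01))) 
(.lf (nat_lit 3288386940) (dlOf (nat_lit 2) (nat_lit 0x1c06a0003b02004e0008006c01))))))) 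
(.nd (nat_lit 8) (.nd (nat_lit 6) (.nd (nat_lit 7) 
(.lf (nat_lit 2756231228) (dlOf (nat_lit 2) (nat_lit 0x40d0002201e0004c028220b80))) 
(.nd (nat_lit 22) 
(.lf (nat_lit 671137980) (dlOf (nat_lit 9) (nat_lit 0xa024000101180008000000640c00200480003002002c02400080108000bc1000180900005c0400280480002d020014024000160100060120003808c000300800040360000002000e00280b0381))) 
(.lf (nat_lit 2755707068) (dlOf (nat_lit 1) (nat_lit 0x500080008002004800081b0383))))) 
(.nd (nat_lit 9) (.nd (nat_lit 7) 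
(.lf (nat_lit 3825254524) (dlOf (nat_lit 1) (nat_lit 0x200080b0081))) 
(.lf (nat_lit 4831887612) (dlOf (nat_lit 1) (nat_lit 0x60028050a81)))) (.nd (nat_lit 26) 
(.lf (nat_lit 4831890044) (dlOf (nat_lit 1) (nat_lit 0x800400060008055402))) 
(.lf (nat_lit 5033216636) (dlOf (nat_lit 1) (nat_lit 0x40018005401)))))) (.nd (nat_lit 26) 
(.nd (nat_lit 7) (.nd (nat_lit 31) 
(.lf (nat_lit 1610662204) (dlOf (nat_lit 1) (nat_lit 0x1000200040008000b82))) 
(.lf (nat_lit 3758145852) (dlOf (nat_lit 1) (nat_lit 0x400400020008080b82)))) 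
(.lf (nat_lit 2818621884) (dlOf (nat_lit 1) (nat_lit 0x8008000400200020008081083)))) 
(.nd (nat_lit 7) (.nd (nat_lit 9) 
(.lf (nat_lit 2755707196) (dlOf (nat_lit 1) (nat_lit 0x200281b0581))) 
(.lf (nat_lit 2751514428) (dlOf (nat_lit 1) (nat_lit 0x30008005400200080008003e03)))) 
(.lf (nat_lit 2751514556) (dlOf (nat_lit 1) (nat_lit 0x700080060002001e0008004383)))))))) 
(.nd (nat_lit 29) (.nd (nat_lit 5) (.nd (nat_lit 7) (.nd (nat_lit 6) (.nd (nat_lit 8) 
(.nd (nat_lit 20) 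
(.lf (nat_lit 474529820) (dlOf (nat_lit 6) (nat_lit 0x3c0960018042801801d4000940c04a012c0252085012403a808f81cc0004034000410a003608d0001e81000104b0000e808012825800070040070004001c00091a0102))) 
(.lf (nat_lit 3491282972) (dlOf (nat_lit 5) (nat_lit 0x384e002d040400c02b80162102004015c00aff01002b0fd8000000800d0008006400200160008080503)))) 
(.nd (nat_lit 26) (.lf (nat_lit 1476450588) (dlOf (nat_lit 1) (nat_lit 0x14004000c000800ab02))) 
(.lf (nat_lit 3691043100) (dlOf (nat_lit 3) (nat_lit 0x1601b0001401000e00d801b00500004c0800bc0040010000800ab02))))) 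
(.nd (nat_lit 10) (.lf (nat_lit 474529884) (dlOf (nat_lit 1) (nat_lit 0x800091a0881))) 
(.nd (nat_lit 26) (.lf (nat_lit 1476449372) (dlOf (nat_lit 1) (nat_lit 0x120018009381))) 
(.lf (nat_lit 3691041884) (dlOf (nat_lit 1) (nat_lit 0x8400400240008009382)))))) (.nd (nat_lit 8) 
(.nd (nat_lit 10) (.nd (nat_lit 26) 
(.lf (nat_lit 1342750876) (dlOf (nat_lit 1) (nat_lit 0x4004000200180c0182))) 
(.lf (nat_lit 470335644) (dlOf (nat_lit 1) (nat_lit 0x4004000200180c0182)))) 
(.lf (nat_lit 1344849052) (dlOf (nat_lit 2) (nat_lit 0x304e000220080028008000c00200020008982b83)))) 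
(.nd (nat_lit 6) (.nd (nat_lit 9) 
(.lf (nat_lit 3489717660) (dlOf (nat_lit 2) (nat_lit 0x387c8000f20400200040016000800ca82))) 
(.lf (nat_lit 5704305564) (dlOf (nat_lit 1) (nat_lit 0x400400020008055c82)))) 
(.lf (nat_lit 6710938588) (dlOf (nat_lit 1) (nat_lit 0x120018005e01)))))) (.nd (nat_lit 8) 
(.nd (nat_lit 22) (.nd (nat_lit 7) (.nd (nat_lit 9) 
(.lf (nat_lit 3492331580) (dlOf (nat_lit 1) (nat_lit 0x4600080c1401))) 
(.lf (nat_lit 268486204) (dlOf (nat_lit 1) (nat_lit 0x18008000800200020008053783)))) 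
(.nd (nat_lit 6) 
(.lf (nat_lit 470335676) (dlOf (nat_lit 3) (nat_lit 0x7048e00061c50001782000e1238000b808003800800dc002000c00080c0383))) 
(.lf (nat_lit 1345896700) (dlOf (nat_lit 2) (nat_lit 0xa152000607b800602480029e0c00e8004001e0008e02902))))) 
(.nd (nat_lit 19) 
(.lf (nat_lit 474005564) (dlOf (nat_lit 4) (nat_lit 0x2001801d100800485b0000c006000c001003a18300040018001800400e74080004004000a0019000002))) 
(.nd (nat_lit 26) 
(.lf (nat_lit 3494428732) (dlOf (nat_lit 2) (nat_lit 0x40d0002201e0004c028220b80))) 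
(.lf (nat_lit 474529852) (dlOf (nat_lit 1) (nat_lit 0x18002000800091a0602)))))) (.nd (nat_lit 6) 
(.nd (nat_lit 7) (.nd (nat_lit 9) 
(.lf (nat_lit 3556819260) (dlOf (nat_lit 1) (nat_lit 0x400200020008080b82))) 
(.lf (nat_lit 5704305468) (dlOf (nat_lit 1) (nat_lit 0x40028055c01)))) 
(.lf (nat_lit 469816252) (dlOf (nat_lit 1) (nat_lit 0x20008009201)))) (.nd (nat_lit 7) 
(.lf (nat_lit 2483079548) (dlOf (nat_lit 1) (nat_lit 0x40028004e81))) 
(.lf (nat_lit 469815804) (dlOf (nat_lit 1) (nat_lit 0xc0028008681))))))) (.nd (nat_lit 8) 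
(.nd (nat_lit 5) (.nd (nat_lit 27) (.nd (nat_lit 6) (.nd (nat_lit 7) 
(.lf (nat_lit 4094214684) (dlOf (nat_lit 1) (nat_lit 0x8008000400200020008018703))) 
(.lf (nat_lit 4095262876) (dlOf (nat_lit 1) (nat_lit 0x1a0018081281)))) 
(.lf (nat_lit 1881194588) (dlOf (nat_lit 2) (nat_lit 0x240f60001d0200240028e40881)))) 
(.nd (nat_lit 10) (.nd (nat_lit 30) 
(.lf (nat_lit 3154690076) (dlOf (nat_lit 2) (nat_lit 0x9602c001fe018310000))) 
(.lf (nat_lit 4228431900) (dlOf (nat_lit 26) (nat_lit 0x23b80c8000700400b00640002702006c0320001281048b02b0353815011cc0a6008c05103fa02804ff013439480961d4c04a0b77024002781103ab407e0c0003e03a301e023600ec2fb00740860039047b01c025900dc034c06c06d203504a501a023800cc40b406404e00310f7f018014680bc1ae005c0df202c026d013821b00900034040094601c09dd00b84eb005824d80280c0400d02f6006055f800401dc000000244e01c2053003c0288003014030e8096032004a0185024057a80fc041407c000203a00fd01b110680c8273806007ce02c058900b822600581000028000400d005a0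0300008c90163015003e80a6187004b0c6002506af80fc0aac07c149203a000501b07dc00c8002c0620b7803003b8017033a80b00d70048032801c04d800b82d00058000444405b809a014404800f7023022600e816280620b0e030003c01580cc80a00ac404c01a0020014300f8009807803b80280bb8013054800604d9002416440100360005083700209d900000004050010009a00460480f8601d083380c4413c060025e027037900480007c3815d80e815ac0620d2e0300000f0303f40188000740800500c80f880620001c0400260310000d8100320188000500810880c400026041854074010c03206f2018824a80c0000241001440620001002003c03a007301880003c100b480c80001c04028009a000204b016902487a900e8053806c1768032107b018882f80c011f8056026a02700c900d819f00540108018018c009000068e032501d004b00c815980620000c06097c03a06310188062004c000401200040080d2800000002c3001100e813340640b260310060000000028200aa00c4000120400300620000202002e03206b0018834300c00010000000000805a000080c0501)))) 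
(.lf (nat_lit 2013318172) (dlOf (nat_lit 1) (nat_lit 0x8008000400200020008006003))))) 
(.nd (nat_lit 6) (.nd (nat_lit 7) 
(.lf (nat_lit 1881194556) (dlOf (nat_lit 1) (nat_lit 0x20028e40601))) (.nd (nat_lit 31) 
(.lf (nat_lit 939573436) (dlOf (nat_lit 9) (nat_lit 0x48094000640400140180003102001002500018010016012800480800005e08001c04a0002e02001402500010100000b410006009400040400002c040006025000801000006010009000800c4002001a00080b0383))) 
(.lf (nat_lit 3087057084) (dlOf (nat_lit 4) (nat_lit 0x6c03e000201b0001782001300f8004006c0005c08002403e0002c02000a00180b0381))))) 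
(.nd (nat_lit 9) (.nd (nat_lit 7) 
(.lf (nat_lit 3087057020) (dlOf (nat_lit 1) (nat_lit 0x200080b0081))) 
(.lf (nat_lit 6174064892) (dlOf (nat_lit 1) (nat_lit 0x400400020008050a82)))) (.nd (nat_lit 10) 
(.lf (nat_lit 4160799484) (dlOf (nat_lit 1) (nat_lit 0x160018002101))) 
(.lf (nat_lit 4026582780) (dlOf (nat_lit 6) (nat_lit 0x101a8001580801100d4004c068000a02a0002383002101a000b80a80008c08000406a0014034000e0150000e01800280d80004404078c004001e0018003b82))))))) 
(.nd (nat_lit 30) (.nd (nat_lit 11) (.nd (nat_lit 5) (.nd (nat_lit 6) 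
(.lf (nat_lit 3154690332) (dlOf (nat_lit 2) (nat_lit 0x602c0023d818310700))) 
(.lf (nat_lit 5100323804) (dlOf (nat_lit 1) (nat_lit 0x400400020008052882)))) 
(.lf (nat_lit 3154166076) (dlOf (nat_lit 1) (nat_lit 0x400400020008080b82)))) (.nd (nat_lit 5) 
(.nd (nat_lit 7) (.lf (nat_lit 5234543388) (dlOf (nat_lit 1) (nat_lit 0x20018055c01))) 
(.lf (nat_lit 5167434652) (dlOf (nat_lit 1) (nat_lit 0x400400020018055c82)))) 
(.lf (nat_lit 5167434556) (dlOf (nat_lit 1) (nat_lit 0x20018055c01))))) (.nd (nat_lit 6) 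
(.nd (nat_lit 9) (.nd (nat_lit 20) 
(.lf (nat_lit 6174064924) (dlOf (nat_lit 1) (nat_lit 0x8008002c00200020008050a83))) 
(.lf (nat_lit 4094738716) (dlOf (nat_lit 1) (nat_lit 0x8008000400200020008050a83)))) 
(.lf (nat_lit 2013317916) (dlOf (nat_lit 1) (nat_lit 0x10008000400200060008005c03)))) 
(.nd (nat_lit 7) (.lf (nat_lit 4026582876) (dlOf (nat_lit 1) (nat_lit 0xe0008003f81))) 
(.nd (nat_lit 27) 
(.lf (nat_lit 4026581980) (dlOf (nat_lit 2) (nat_lit 0x30158049940800280080048002001a0008002883))) 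
(.lf (nat_lit 6308283356) (dlOf (nat_lit 1) (nat_lit 0x400400020008052882)))))))))) 
(.nd (nat_lit 5) (.nd (nat_lit 28) (.nd (nat_lit 21) (.nd (nat_lit 30) (.nd (nat_lit 6) 
(.nd (nat_lit 8) (.nd (nat_lit 7) 
(.lf (nat_lit 4362911772) (dlOf (nat_lit 1) (nat_lit 0x200181a0001))) 
(.lf (nat_lit 2753347740) (dlOf (nat_lit 2) (nat_lit 0x10c1120002f0200120028090181)))) 
(.nd (nat_lit 10) (.nd (nat_lit 19) 
(.lf (nat_lit 6509871388) (dlOf (nat_lit 1) (nat_lit 0xb400200040008154002))) 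
(.lf (nat_lit 46973212) (dlOf (nat_lit 2) (nat_lit 0xd331000598080118008008c00200240009380a83)))) 
(.lf (nat_lit 314652) (dlOf (nat_lit 1) (nat_lit 0x20028006781))))) (.nd (nat_lit 10) 
(.nd (nat_lit 8) (.nd (nat_lit 20) 
(.lf (nat_lit 2349121628) (dlOf (nat_lit 1) (nat_lit 0x80080004002000400080c1b03))) 
(.lf (nat_lit 9748572) (dlOf (nat_lit 7) (nat_lit 0x31a450006d21800c6904005347e00059f3000fcef800c677000072e400039250001a090002d2280056904001347e00179dc00019840007d208000c808003e91400674860011a410001d1f8004e7700003e14001b48a0013a430009d20800467700003c10001348a000fa410007cee000074180190008017000200600008580703)))) 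
(.lf (nat_lit 537182556) (dlOf (nat_lit 4) (nat_lit 0x2e000000100100270000000740800f800000038040138002000c0008048d02)))) 
(.nd (nat_lit 7) (.lf (nat_lit 34391132) (dlOf (nat_lit 1) (nat_lit 0xa0028fb2901))) 
(.nd (nat_lit 11) (.lf (nat_lit 317148) (dlOf (nat_lit 1) (nat_lit 0x2002800a001))) 
(.lf (nat_lit 315100) (dlOf (nat_lit 1) (nat_lit 0x940008007381))))))) (.nd (nat_lit 27) 
(.nd (nat_lit 8) (.nd (nat_lit 7) (.nd (nat_lit 26) 
(.lf (nat_lit 3758407708) (dlOf (nat_lit 1) (nat_lit 0x60008170101))) 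
(.lf (nat_lit 1678032924) (dlOf (nat_lit 19) (nat_lit 0x11401400055020184052017d02780b380e003ec04c015c0180002505004502a002400440008c0806bc0a4048804f01ad01e811d00e006b0058037202600c500e807200600007e2001f409e0003e02045205202bb027809900f40aac070045802c0228013009c0074051803003fa00f0001e89018602780b500e002940300003a06032804f016f01c007e009802b00300003908000404f0001c01003902a004c813004d808e026c0340136012004600440040020000350e012e0540093008804f8028000660c00340200002b0200b204f0000d0100570260009811c0002608015009e0001202000e010000020100120080000080804a815001a805a012001100bb0050000002004b0008027000207240008140b03)))) 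
(.lf (nat_lit 1074053276) (dlOf (nat_lit 2) (nat_lit 0x108052000202600017828090180)))) 
(.nd (nat_lit 6) (.lf (nat_lit 5905891612) (dlOf (nat_lit 1) (nat_lit 0xb400200040008154002))) 
(.lf (nat_lit 3221537116) (dlOf (nat_lit 1) (nat_lit 0x1000200100008124e82))))) (.nd (nat_lit 26) 
(.nd (nat_lit 29) 
(.lf (nat_lit 1208270876) (dlOf (nat_lit 2) (nat_lit 0xc6025004d0040000ec1000200080178002001000080b0103))) 
(.nd (nat_lit 31) 
(.lf (nat_lit 1745141788) (dlOf (nat_lit 5) (nat_lit 0x23d80e411f406808fa02602ab0128232806c115002e01860120002507000d01c800780d0004004c0030017002c00b00010c2800680e4003c068001e026000100d800f805c008c02c00100130002087000401a0000ec0800d80080004002000200080b0103))) 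
(.lf (nat_lit 3892625436) (dlOf (nat_lit 2) (nat_lit 0x100900004044013a10400140018170501))))) 
(.nd (nat_lit 6) (.lf (nat_lit 3422863388) (dlOf (nat_lit 1) (nat_lit 0x1000200160008130482))) 
(.lf (nat_lit 3959734620) (dlOf (nat_lit 7) (nat_lit 0xa90050001900804e0028000c60400140ac013e00a0002202000500500010c0800b015402940140010000000210300040000000640800d0008008c00200020008124e03))))))) 
(.nd (nat_lit 19) (.nd (nat_lit 23) (.nd (nat_lit 8) 
(.lf (nat_lit 3457052) (dlOf (nat_lit 1) (nat_lit 0x400200020008200002))) 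
(.lf (nat_lit 20234524) (dlOf (nat_lit 1) (nat_lit 0x1200080004002000200089d0a83)))) 
(.nd (nat_lit 6) (.nd (nat_lit 20) 
(.lf (nat_lit 27574300) (dlOf (nat_lit 1) (nat_lit 0x40018d00681))) 
(.lf (nat_lit 16039964) (dlOf (nat_lit 1) (nat_lit 0x500080028002000a0008860683)))) 
(.lf (nat_lit 28623068) (dlOf (nat_lit 1) (nat_lit 0x30008000400200020008da0583))))) 
(.nd (nat_lit 7) (.nd (nat_lit 20) 
(.lf (nat_lit 2754396188) (dlOf (nat_lit 2) (nat_lit 0x16211001130180e0480))) (.nd (nat_lit 22) 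
(.lf (nat_lit 45924380) (dlOf (nat_lit 1) (nat_lit 0x6e0019370601))) 
(.lf (nat_lit 24952860) (dlOf (nat_lit 1) (nat_lit 0x2a0028bd0a81))))) (.nd (nat_lit 11) 
(.lf (nat_lit 8180380) (dlOf (nat_lit 1) (nat_lit 0x1000200020008518c82))) 
(.lf (nat_lit 36489884) (dlOf (nat_lit 1) (nat_lit 0x20019075581))))))) (.nd (nat_lit 30) 
(.nd (nat_lit 27) (.nd (nat_lit 29) (.nd (nat_lit 6) (.nd (nat_lit 7) (.nd (nat_lit 31) 
(.lf (nat_lit 268746780) (dlOf (nat_lit 1) (nat_lit 0x40018120081))) 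
(.lf (nat_lit 2416230428) (dlOf (nat_lit 1) (nat_lit 0x800180b0981)))) 
(.lf (nat_lit 4563714204) (dlOf (nat_lit 4) (nat_lit 0x200b80004804001005c001401e000118200070178000700800180080160002006000080c1283)))) 
(.lf (nat_lit 268746844) (dlOf (nat_lit 1) (nat_lit 0xc00400020018120702)))) (.nd (nat_lit 26) 
(.lf (nat_lit 805617692) (dlOf (nat_lit 19) (nat_lit 0x11401400054020184052017d02780b380e003ec04c015c0180002505004502a002400440008c0806bc0a4048804f01ad01e811d00e006b0058037202600c500e807200600007e2001f409e0003e02045205202bb027809900f40aac070045802c0228013009c0074051803003fa00f0001e89018602780b500e002940300003a06032804f016f01c007e009802b00300003908000404f0001c01003902a004c813004d808e026c0340136012004600440040020000350e012e0540093008804f8028000660c00340200002b0200b204f0000c8100570260009811c0002608015009e0001202000e010000018100120080000080804a815001a805a012001100bb0050000002004b0008027000207240008140b03))) 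
(.lf (nat_lit 872726556) (dlOf (nat_lit 5) (nat_lit 0x23d80e411f406808fa02602ab0128232806c115002e01860120002507000d01c800780d0004004c0030017002c00b00010c2800680e4003c068001e026000100d800f805c008c02c00100130002087000401a0000ec0800d80080004002000200080b0103))))) 
(.nd (nat_lit 7) (.nd (nat_lit 26) 
(.lf (nat_lit 2550448156) (dlOf (nat_lit 1) (nat_lit 0x800180b0981))) 
(.lf (nat_lit 2617557020) (dlOf (nat_lit 1) (nat_lit 0x400280f0501)))) (.nd (nat_lit 6) 
(.nd (nat_lit 21) 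
(.lf (nat_lit 4697931932) (dlOf (nat_lit 4) (nat_lit 0x200b80002204001005c001401e000080200070178000240800180080160002006000080c1283))) 
(.lf (nat_lit 1009041564) (dlOf (nat_lit 1) (nat_lit 0x20009012b81)))) 
(.lf (nat_lit 471646428) (dlOf (nat_lit 2) (nat_lit 0x2a161002104e80008410003000800a400200860008370583)))))) 
(.nd (nat_lit 19) (.nd (nat_lit 7) (.nd (nat_lit 20) 
(.lf (nat_lit 2080686108) (dlOf (nat_lit 2) (nat_lit 0xc6025004d0040000ec1000200080178002001000080b0103))) 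
(.lf (nat_lit 1343537180) (dlOf (nat_lit 3) (nat_lit 0x400300011d0200b409d0045047000000100440008011400200140008290483)))) 
(.nd (nat_lit 8) 
(.lf (nat_lit 1946468508) (dlOf (nat_lit 2) (nat_lit 0x108052000202600017828090180))) 
(.lf (nat_lit 5838782876) (dlOf (nat_lit 1) (nat_lit 0x120008001c002003000081b0783))))) 
(.nd (nat_lit 21) (.nd (nat_lit 7) (.nd (nat_lit 26) 
(.lf (nat_lit 5773246492) (dlOf (nat_lit 1) (nat_lit 0x600080004002000a00080b0103))) 
(.lf (nat_lit 6377226268) (dlOf (nat_lit 1) (nat_lit 0x600080004002000a00080b0103)))) 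
(.lf (nat_lit 3491545244) (dlOf (nat_lit 2) (nat_lit 0x3f06d8021823001141160002f06000c0028090181)))) 
(.nd (nat_lit 6) (.nd (nat_lit 20) 
(.lf (nat_lit 3492593692) (dlOf (nat_lit 2) (nat_lit 0x161fc001130180e0480))) 
(.lf (nat_lit 1346158620) (dlOf (nat_lit 34) (nat_lit 0x7859c000c0360005404026816304a70a1825404ec11a0272006a12704a80668000c4300018598001c2760008139001e03a800f81cc007c03e001201a0001807083e0a1842604ec21e427210760cd000178404000a18000b8080b9050c0488276011a13901440668000b4201fa850c000580400ec2860002b0207f0143000150100da0a18000a40800a050c000500408cc28601a40cd000120202320a1807a033400044080ad028601f00cd0001002017b0a1807483340003e0809bc286005e13b004b09c809883340003a10090c286032213b004c09c80f683340003810094c286005613b003d09c80a2033400034100440286005e13b000406680006418121050c036019a000180405f814300db09d80a503340002c0c088028603cc13b01f80668000541806a050c024c19a000140401e014300af06680004c1002e850c00024040bc02c6094414304a909d825503340002210032028601a213b00cf06680004018077050c0138276062e0cd000078302c20a1806483340001c0801e428607b00cd000068200c70a18000300802f050c0c1c27607b00cd000058301090a1806204ec030c19a0000a06003e0028e60101))))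 
(.lf (nat_lit 1346158684) (dlOf (nat_lit 4) (nat_lit 0x14214c00a106b80002c10033053001981ae000090400cc14c006606b8000001000c0008000800200040008e60883)))))))) 
(.nd (nat_lit 6) (.nd (nat_lit 21) (.nd (nat_lit 28) (.nd (nat_lit 22) (.nd (nat_lit 7) 
(.lf (nat_lit 1745141820) (dlOf (nat_lit 2) (nat_lit 0x64032000e014001170280b0480))) 
(.lf (nat_lit 6442762428) (dlOf (nat_lit 1) (nat_lit 0x4004001800081b0382)))) (.nd (nat_lit 8) 
(.lf (nat_lit 12894268) (dlOf (nat_lit 1) (nat_lit 0x4004000600086e0c02))) 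
(.lf (nat_lit 21283132) (dlOf (nat_lit 1) (nat_lit 0x10008000400200020008a34c03))))) 
(.nd (nat_lit 7) (.nd (nat_lit 32) 
(.lf (nat_lit 872726588) (dlOf (nat_lit 2) (nat_lit 0x64032000e014001170280b0480))) 
(.lf (nat_lit 5167693884) (dlOf (nat_lit 3) (nat_lit 0x2805000240080054004000a014000a0020014fc100150008000400200020008111683)))) 
(.lf (nat_lit 402964668) (dlOf (nat_lit 1) (nat_lit 0x200280c1701))))) (.nd (nat_lit 8) 
(.nd (nat_lit 9) (.nd (nat_lit 19) 
(.lf (nat_lit 31768636) (dlOf (nat_lit 1) (nat_lit 0x8008000c00200020008e90003))) 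
(.lf (nat_lit 1346158652) (dlOf (nat_lit 3) (nat_lit 0x44298000c0d7000b08200160a50002f80800480080028002000c0008e60603)))) 
(.lf (nat_lit 23380540) (dlOf (nat_lit 1) (nat_lit 0x20008001000200060008b81003)))) 
(.nd (nat_lit 11) (.lf (nat_lit 8181052) (dlOf (nat_lit 1) (nat_lit 0x400200020008519902))) 
(.lf (nat_lit 20237628) (dlOf (nat_lit 1) (nat_lit 0x6400289d6901)))))) (.nd (nat_lit 7) 
(.nd (nat_lit 26) (.nd (nat_lit 9) (.nd (nat_lit 8) (.nd (nat_lit 19) 
(.lf (nat_lit 4966367356) (dlOf (nat_lit 1) (nat_lit 0x200180c0c81))) 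
(.lf (nat_lit 135053436) (dlOf (nat_lit 1) (nat_lit 0x400080004002000200081b0083)))) 
(.lf (nat_lit 49596796) (dlOf (nat_lit 1) (nat_lit 0xc0029464e81)))) (.nd (nat_lit 10) 
(.lf (nat_lit 46975612) (dlOf (nat_lit 1) (nat_lit 0x300080054002001c0009385403))) 
(.lf (nat_lit 8701564) (dlOf (nat_lit 2) (nat_lit 0x1f13080001c04000800400040018513982))))) 
(.nd (nat_lit 28) (.nd (nat_lit 27) 
(.lf (nat_lit 4362911868) (dlOf (nat_lit 2) (nat_lit 0xd002d0011a0181a0080))) 
(.lf (nat_lit 202162300) (dlOf (nat_lit 1) (nat_lit 0x400080004002000200081b0083)))) 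
(.nd (nat_lit 20) (.lf (nat_lit 4228694140) (dlOf (nat_lit 2) (nat_lit 0xd002c001260181a0080))) 
(.lf (nat_lit 471646332) (dlOf (nat_lit 3) (nat_lit 0xa2161003504e8003f0100310584001f0040014002001c0008370482)))))) 
(.nd (nat_lit 9) (.nd (nat_lit 21) (.nd (nat_lit 26) (.nd (nat_lit 29) 
(.lf (nat_lit 3221537276) (dlOf (nat_lit 2) (nat_lit 0x60000000000200180008127801))) 
(.lf (nat_lit 5905891836) (dlOf (nat_lit 9) (nat_lit 0xf0128003005c000ba08004004a000c0170002e02000700b80014408007005c000a004006402e0004c0200300170002501001400b8001200800d80e0006c064002402f00500128017805c007c000000420c003e0028157e01)))) 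
(.lf (nat_lit 3959734780) (dlOf (nat_lit 2) (nat_lit 0x4e00000011018127e00)))) (.nd (nat_lit 10) 
(.lf (nat_lit 33343996) (dlOf (nat_lit 1) (nat_lit 0xc0008f54f81))) 
(.lf (nat_lit 4096050684) (dlOf (nat_lit 1) (nat_lit 0xe00280e3681))))) (.nd (nat_lit 8) 
(.nd (nat_lit 10) (.lf (nat_lit 1345637116) (dlOf (nat_lit 1) (nat_lit 0x100008dd5a01))) 
(.lf (nat_lit 2885994236) (dlOf (nat_lit 3) (nat_lit 0x1202c000d0148000b01000080000002e04002c004000e0018143b82)))) 
(.nd (nat_lit 11) (.lf (nat_lit 52741116) (dlOf (nat_lit 1) (nat_lit 0x8008000400200020009572883))) 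
(.lf (nat_lit 4496608252) (dlOf (nat_lit 1) (nat_lit 0x4004000200080e5f02))))))))))))

end

end Pool.Agent.Lib.MP_5854e1_co.Cz

namespace Pool.Agent.Lib.MP_5854e1_co.Cz

noncomputable section

noncomputable def tz83 : DT := (.nd (nat_lit 2) (.nd (nat_lit 5) (.nd (nat_lit 4) (.nd (nat_lit 28) 
(.nd (nat_lit 18) (.nd (nat_lit 10) (.nd (nat_lit 6) (.nd (nat_lit 20) (.nd (nat_lit 23) 
(.nd (nat_lit 7) (.lf (nat_lit 4362649609) (dlOf (nat_lit 1) (nat_lit 0x1c00280c0001))) 
(.nd (nat_lit 8) (.lf (nat_lit 1811988617) (dlOf (nat_lit 1) (nat_lit 0x100004006400080b0102))) 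
(.lf (nat_lit 6039851913) (dlOf (nat_lit 1) (nat_lit 0x80018009001))))) (.nd (nat_lit 19) 
(.nd (nat_lit 21) (.lf (nat_lit 25214985) (dlOf (nat_lit 2) (nat_lit 0x2aa79000a6818bf0480))) 
(.lf (nat_lit 14729225) (dlOf (nat_lit 1) (nat_lit 0x400400020018770002)))) 
(.lf (nat_lit 42516489) (dlOf (nat_lit 1) (nat_lit 0x14000200380009260002))))) (.nd (nat_lit 7) 
(.nd (nat_lit 21) (.nd (nat_lit 22) 
(.lf (nat_lit 9486345) (dlOf (nat_lit 1) (nat_lit 0x7e0018560481))) 
(.lf (nat_lit 47235081) (dlOf (nat_lit 1) (nat_lit 0x4004000200093c0002)))) 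
(.lf (nat_lit 19972105) (dlOf (nat_lit 1) (nat_lit 0x4800189d0001)))) (.nd (nat_lit 19) 
(.lf (nat_lit 24166537) (dlOf (nat_lit 1) (nat_lit 0x400200020008b80102))) 
(.lf (nat_lit 12107913) (dlOf (nat_lit 1) (nat_lit 0x4002000200086c0102)))))) (.nd (nat_lit 7) 
(.nd (nat_lit 8) (.nd (nat_lit 19) 
(.lf (nat_lit 25215049) (dlOf (nat_lit 1) (nat_lit 0x16000801b8002000e0008bf0c83))) 
(.nd (nat_lit 20) 
(.lf (nat_lit 21545033) (dlOf (nat_lit 1) (nat_lit 0x60008001000200400008a40503))) 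
(.lf (nat_lit 2755182665) (dlOf (nat_lit 2) (nat_lit 0x5012000400800004a08008000400220008120f02))))) 
(.nd (nat_lit 9) (.lf (nat_lit 2755707209) (dlOf (nat_lit 2) (nat_lit 0x28215000200181b0600))) 
(.lf (nat_lit 60345161) (dlOf (nat_lit 1) (nat_lit 0xf8008002000200160009845c03))))) 
(.nd (nat_lit 8) (.nd (nat_lit 19) 
(.lf (nat_lit 1811988681) (dlOf (nat_lit 1) (nat_lit 0x200180b0481))) 
(.lf (nat_lit 14205129) (dlOf (nat_lit 1) (nat_lit 0x20028750481)))) (.nd (nat_lit 27) 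
(.lf (nat_lit 4898997193) (dlOf (nat_lit 1) (nat_lit 0x800801fc002009a0008052883))) 
(.lf (nat_lit 5570085833) (dlOf (nat_lit 1) (nat_lit 0x400400020008052882))))))) (.nd (nat_lit 7) 
(.nd (nat_lit 26) (.nd (nat_lit 19) (.nd (nat_lit 6) (.nd (nat_lit 9) 
(.lf (nat_lit 8439049) (dlOf (nat_lit 1) (nat_lit 0x20028512f81))) 
(.lf (nat_lit 1073792777) (dlOf (nat_lit 1) (nat_lit 0x400400020008003b82)))) 
(.lf (nat_lit 57722185) (dlOf (nat_lit 2) (nat_lit 0x1c28000040080008008000400200020009793303)))) 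
(.nd (nat_lit 8) (.lf (nat_lit 39371785) (dlOf (nat_lit 1) (nat_lit 0xc00200020009192882))) 
(.lf (nat_lit 39372041) (dlOf (nat_lit 1) (nat_lit 0xc0019192f81))))) (.nd (nat_lit 9) 
(.nd (nat_lit 27) (.lf (nat_lit 4898997513) (dlOf (nat_lit 1) (nat_lit 0x400400020008052f82))) 
(.nd (nat_lit 30) (.lf (nat_lit 4496344329) (dlOf (nat_lit 1) (nat_lit 0x400400020008052f82))) 
(.lf (nat_lit 5570086153) (dlOf (nat_lit 1) (nat_lit 0x400400020008052f82))))) (.nd (nat_lit 8) 
(.lf (nat_lit 5570086409) (dlOf (nat_lit 1) (nat_lit 0x360018053681))) 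
(.lf (nat_lit 2348861193) (dlOf (nat_lit 1) (nat_lit 0x60028003b81)))))) (.nd (nat_lit 6) 
(.nd (nat_lit 8) (.nd (nat_lit 9) 
(.lf (nat_lit 574601) (dlOf (nat_lit 1) (nat_lit 0x8008000400200020008002b03))) 
(.lf (nat_lit 8439433) (dlOf (nat_lit 1) (nat_lit 0x400200020008513a02)))) (.nd (nat_lit 23) 
(.lf (nat_lit 6106957193) (dlOf (nat_lit 1) (nat_lit 0xe0018003601))) 
(.lf (nat_lit 8439177) (dlOf (nat_lit 1) (nat_lit 0x400200020008513602))))) (.nd (nat_lit 12) 
(.nd (nat_lit 19) (.lf (nat_lit 2818622665) (dlOf (nat_lit 1) (nat_lit 0x20028082d81))) 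
(.lf (nat_lit 53003465) (dlOf (nat_lit 1) (nat_lit 0x100019572d81)))) 
(.lf (nat_lit 67163337) (dlOf (nat_lit 1) (nat_lit 0x3000400160008009502))))))) (.nd (nat_lit 6) 
(.nd (nat_lit 24) (.nd (nat_lit 21) (.nd (nat_lit 26) (.nd (nat_lit 11) 
(.lf (nat_lit 42778633) (dlOf (nat_lit 1) (nat_lit 0x400200020009280002))) 
(.lf (nat_lit 313353) (dlOf (nat_lit 1) (nat_lit 0xc00400940008004702)))) (.nd (nat_lit 30) 
(.lf (nat_lit 604291081) (dlOf (nat_lit 1) (nat_lit 0xc004000a0008130002))) 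
(.lf (nat_lit 1678032905) (dlOf (nat_lit 12) (nat_lit 0x8022004d0070018803000580000009c08001a022003a00700128030005c004000e0000004d85000402100048088010401c003200c0001002000080000013418000c044007400e0004b0200030110025003800480000008d06000600e00046010004011001e003800280000008b06000e0220040007000228100020088012001c0008504009400e0004201000900700020c080008008015800200020008140583))))) 
(.nd (nat_lit 7) (.lf (nat_lit 16039945) (dlOf (nat_lit 1) (nat_lit 0x400400020008860282))) 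
(.nd (nat_lit 8) (.lf (nat_lit 3457161) (dlOf (nat_lit 1) (nat_lit 0x40008200101))) 
(.lf (nat_lit 36489609) (dlOf (nat_lit 1) (nat_lit 0x180009074e81)))))) (.nd (nat_lit 19) 
(.nd (nat_lit 7) (.nd (nat_lit 8) 
(.lf (nat_lit 25477129) (dlOf (nat_lit 1) (nat_lit 0x820018c10001))) 
(.lf (nat_lit 23380233) (dlOf (nat_lit 1) (nat_lit 0x3000803d800201020008b80483)))) 
(.lf (nat_lit 21282953) (dlOf (nat_lit 1) (nat_lit 0x400400020008a30f02)))) (.nd (nat_lit 20) 
(.nd (nat_lit 7) (.lf (nat_lit 21807113) (dlOf (nat_lit 1) (nat_lit 0x1c00400080008a70482))) 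
(.lf (nat_lit 23904393) (dlOf (nat_lit 1) (nat_lit 0x8008000800200020008b80103)))) 
(.nd (nat_lit 21) (.lf (nat_lit 27049993) (dlOf (nat_lit 1) (nat_lit 0x278002001e0008ca0482))) 
(.lf (nat_lit 58507273) (dlOf (nat_lit 1) (nat_lit 0x80080004002000200097e0003))))))) 
(.nd (nat_lit 7) (.nd (nat_lit 9) (.nd (nat_lit 19) (.nd (nat_lit 10) 
(.lf (nat_lit 3758407753) (dlOf (nat_lit 1) (nat_lit 0x40018170681))) 
(.lf (nat_lit 314441) (dlOf (nat_lit 1) (nat_lit 0x400400ce0008006082)))) (.nd (nat_lit 22) 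
(.lf (nat_lit 42778697) (dlOf (nat_lit 1) (nat_lit 0x40019280601))) 
(.lf (nat_lit 21807177) (dlOf (nat_lit 2) (nat_lit 0x8b9d00013018a70880))))) (.nd (nat_lit 8) 
(.lf (nat_lit 3959734857) (dlOf (nat_lit 6) (nat_lit 0x7c01c000e00c000200000008c1800980380004404008c01c0001e02002800e00110000000701000980380003604002c002004c0008128d02))) 
(.nd (nat_lit 20) (.lf (nat_lit 4899261257) (dlOf (nat_lit 1) (nat_lit 0x200080d5c01))) 
(.lf (nat_lit 20237129) (dlOf (nat_lit 1) (nat_lit 0x4002000200089d5c02)))))) (.nd (nat_lit 8) 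
(.nd (nat_lit 19) (.nd (nat_lit 22) 
(.lf (nat_lit 6107218121) (dlOf (nat_lit 1) (nat_lit 0xc004000200080c1b82))) 
(.lf (nat_lit 21283017) (dlOf (nat_lit 1) (nat_lit 0x48008000400200160008a31b83)))) 
(.lf (nat_lit 4362911945) (dlOf (nat_lit 1) (nat_lit 0x200281a0481)))) (.nd (nat_lit 9) 
(.lf (nat_lit 3221537225) (dlOf (nat_lit 1) (nat_lit 0x1400200280008127102))) 
(.lf (nat_lit 20761545) (dlOf (nat_lit 1) (nat_lit 0x4002000200089d5d82)))))))) (.nd (nat_lit 26) 
(.nd (nat_lit 29) (.nd (nat_lit 18) (.nd (nat_lit 8) (.nd (nat_lit 11) (.nd (nat_lit 6) 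
(.lf (nat_lit 1345896969) (dlOf (nat_lit 1) (nat_lit 0xc0008e07b01))) 
(.lf (nat_lit 3493380169) (dlOf (nat_lit 2) (nat_lit 0x5012000400800004c08008000400220008120f02)))) 
(.nd (nat_lit 10) 
(.lf (nat_lit 3623929865) (dlOf (nat_lit 2) (nat_lit 0x201880015008015800800b400200a80008004703))) 
(.lf (nat_lit 6710938633) (dlOf (nat_lit 1) (nat_lit 0x400400020008005f82))))) (.nd (nat_lit 6) 
(.nd (nat_lit 7) (.lf (nat_lit 2415970057) (dlOf (nat_lit 1) (nat_lit 0x400400020008003b82))) 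
(.lf (nat_lit 268485001) (dlOf (nat_lit 1) (nat_lit 0x20008001400200060008051003)))) 
(.nd (nat_lit 9) (.lf (nat_lit 1342230985) (dlOf (nat_lit 1) (nat_lit 0xe0008008681))) 
(.lf (nat_lit 1476449225) (dlOf (nat_lit 1) (nat_lit 0x400200020008009202)))))) (.nd (nat_lit 27) 
(.nd (nat_lit 6) (.nd (nat_lit 20) 
(.lf (nat_lit 4563714057) (dlOf (nat_lit 6) (nat_lit 0x1003e0191602000602d00c8a8100020168064440800180b4000403e0187004000402d000100f8061bc100080008000c002010800080c0003))) 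
(.lf (nat_lit 1343537161) (dlOf (nat_lit 1) (nat_lit 0x180080028002000c0008290003)))) 
(.lf (nat_lit 3489975625) (dlOf (nat_lit 1) (nat_lit 0x38008001800200060008006983)))) 
(.nd (nat_lit 6) (.nd (nat_lit 32) 
(.lf (nat_lit 402964489) (dlOf (nat_lit 1) (nat_lit 0x8004000200080c0002))) 
(.lf (nat_lit 4697931785) (dlOf (nat_lit 6) (nat_lit 0x1003e01c6302000602d00e310100020168071780800180b4000403e01bd604000402d000100f806f54100080008000c002010800080c0003)))) 
(.lf (nat_lit 5772199113) (dlOf (nat_lit 1) (nat_lit 0x100028092d81)))))) (.nd (nat_lit 32) 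
(.nd (nat_lit 6) (.nd (nat_lit 18) (.nd (nat_lit 7) 
(.lf (nat_lit 805357577) (dlOf (nat_lit 1) (nat_lit 0x60008004701))) 
(.lf (nat_lit 939573385) (dlOf (nat_lit 1) (nat_lit 0x100004006400080b0102)))) (.nd (nat_lit 31) 
(.lf (nat_lit 805617673) (dlOf (nat_lit 12) (nat_lit 0x8022004d0070018803000580000009c08001a022003a00700128030005c004000e0000004d85000402100048088010401c003200c0001002000080000013418000c044007400e0004b0200030110025003800480000008d06000600e00046010004011001e003800280000008b06000e0220040007000228100020088012001c0008504009400e0004201000900700020c080008008015800200020008140583))) 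
(.lf (nat_lit 2953101321) (dlOf (nat_lit 1) (nat_lit 0x88008011400200360008120003))))) 
(.nd (nat_lit 7) (.lf (nat_lit 4026582857) (dlOf (nat_lit 1) (nat_lit 0x140018003e81))) 
(.lf (nat_lit 939573449) (dlOf (nat_lit 1) (nat_lit 0x200180b0481))))) (.nd (nat_lit 6) 
(.nd (nat_lit 8) (.lf (nat_lit 5100324361) (dlOf (nat_lit 1) (nat_lit 0x880018053681))) 
(.nd (nat_lit 27) (.lf (nat_lit 5100324105) (dlOf (nat_lit 1) (nat_lit 0x400400020008052f82))) 
(.lf (nat_lit 6308283657) (dlOf (nat_lit 1) (nat_lit 0x400400020008052f82))))) (.nd (nat_lit 8) 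
(.lf (nat_lit 6308544713) (dlOf (nat_lit 1) (nat_lit 0x180080004002000200080f1b83))) 
(.nd (nat_lit 27) 
(.lf (nat_lit 5100323785) (dlOf (nat_lit 1) (nat_lit 0x8008000800200020008052883))) 
(.lf (nat_lit 6308283337) (dlOf (nat_lit 1) (nat_lit 0x400400020008052882)))))))) (.nd (nat_lit 6) 
(.nd (nat_lit 30) (.nd (nat_lit 8) (.nd (nat_lit 18) (.nd (nat_lit 20) 
(.lf (nat_lit 471908361) (dlOf (nat_lit 1) (nat_lit 0x200286b0001))) 
(.lf (nat_lit 470859785) (dlOf (nat_lit 2) (nat_lit 0x302aa001a095005f28281c0480)))) 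
(.nd (nat_lit 22) (.lf (nat_lit 335855625) (dlOf (nat_lit 1) (nat_lit 0x8004000200080c0002))) 
(.lf (nat_lit 474267657) (dlOf (nat_lit 1) (nat_lit 0x400200020009100002))))) (.nd (nat_lit 10) 
(.lf (nat_lit 3154690313) (dlOf (nat_lit 2) (nat_lit 0xb602c0023d818310700))) 
(.lf (nat_lit 2483080457) (dlOf (nat_lit 1) (nat_lit 0x20028006681))))) (.nd (nat_lit 7) 
(.nd (nat_lit 18) (.nd (nat_lit 20) (.nd (nat_lit 27) 
(.lf (nat_lit 3557343241) (dlOf (nat_lit 2) (nat_lit 0xb00e0003c00400c8004005a00081c0482))) 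
(.lf (nat_lit 4228431881) (dlOf (nat_lit 1) (nat_lit 0x1c00280c0001)))) 
(.lf (nat_lit 4095262729) (dlOf (nat_lit 2) (nat_lit 0x385800030000019150400060018080001)))) 
(.lf (nat_lit 4096573449) (dlOf (nat_lit 1) (nat_lit 0x1d00028130001)))) (.nd (nat_lit 8) 
(.lf (nat_lit 4095788681) (dlOf (nat_lit 1) (nat_lit 0x4004000800080e3a02))) 
(.lf (nat_lit 5704305545) (dlOf (nat_lit 2) (nat_lit 0x80600013804001800200040008055c02)))))) 
(.nd (nat_lit 18) (.nd (nat_lit 8) (.nd (nat_lit 7) 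
(.lf (nat_lit 474529865) (dlOf (nat_lit 1) (nat_lit 0x5000800ac002003e00091a0603))) 
(.nd (nat_lit 19) (.lf (nat_lit 6375392457) (dlOf (nat_lit 1) (nat_lit 0x20028002d81))) 
(.lf (nat_lit 1009304777) (dlOf (nat_lit 1) (nat_lit 0x8004000200090e2d82))))) (.nd (nat_lit 7) 
(.lf (nat_lit 3154168649) (dlOf (nat_lit 1) (nat_lit 0x1400400020008085c02))) (.nd (nat_lit 9) 
(.lf (nat_lit 472435145) (dlOf (nat_lit 1) (nat_lit 0x28008000c00200020008984e83))) 
(.lf (nat_lit 4094741449) (dlOf (nat_lit 2) (nat_lit 0x3e07c00007408008800800bc00200320008055d83)))))) 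
(.nd (nat_lit 7) (.nd (nat_lit 10) 
(.lf (nat_lit 2483339337) (dlOf (nat_lit 1) (nat_lit 0x180080004002000200080c1483))) 
(.lf (nat_lit 473744457) (dlOf (nat_lit 2) (nat_lit 0x1c1b20067c0200020018fa2881)))) 
(.nd (nat_lit 19) (.nd (nat_lit 29) 
(.lf (nat_lit 335855817) (dlOf (nat_lit 1) (nat_lit 0x80080004002000c00080c1b83))) 
(.lf (nat_lit 6241435849) (dlOf (nat_lit 1) (nat_lit 0x18008010c002003600080f1b83)))) 
(.lf (nat_lit 4228694217) (dlOf (nat_lit 1) (nat_lit 0x200281a0481))))))))) (.nd (nat_lit 18) 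
(.nd (nat_lit 8) (.nd (nat_lit 19) (.nd (nat_lit 29) (.nd (nat_lit 21) (.nd (nat_lit 10) 
(.nd (nat_lit 20) 
(.lf (nat_lit 29409305) (dlOf (nat_lit 1) (nat_lit 0x20008000c00200060008e00483))) 
(.lf (nat_lit 1097753) (dlOf (nat_lit 1) (nat_lit 0x1200018070481)))) 
(.lf (nat_lit 8444953) (dlOf (nat_lit 1) (nat_lit 0x358008007c0020080000851bf03)))) 
(.nd (nat_lit 6) (.lf (nat_lit 2146457) (dlOf (nat_lit 1) (nat_lit 0x8008000400200020008150183))) 
(.nd (nat_lit 22) (.lf (nat_lit 44089433) (dlOf (nat_lit 1) (nat_lit 0x4004000400092c0702))) 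
(.lf (nat_lit 14729305) (dlOf (nat_lit 1) (nat_lit 0x20018770801)))))) (.nd (nat_lit 7) 
(.nd (nat_lit 10) (.lf (nat_lit 2755706905) (dlOf (nat_lit 2) (nat_lit 0x1621d00ed30181b0000))) 
(.nd (nat_lit 12) (.lf (nat_lit 5167434777) (dlOf (nat_lit 1) (nat_lit 0x800400020008056002))) 
(.lf (nat_lit 604036121) (dlOf (nat_lit 1) (nat_lit 0x2002800bf01))))) (.nd (nat_lit 6) 
(.nd (nat_lit 10) (.lf (nat_lit 5234543257) (dlOf (nat_lit 1) (nat_lit 0x600008055501))) 
(.lf (nat_lit 4026582681) (dlOf (nat_lit 1) (nat_lit 0x680080010002004c0008003a83)))) 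
(.lf (nat_lit 2751514841) (dlOf (nat_lit 2) (nat_lit 0xf0210000dc0800280080008002000c0008004a83)))))) 
(.nd (nat_lit 26) (.nd (nat_lit 20) (.nd (nat_lit 9) (.nd (nat_lit 6) 
(.lf (nat_lit 17350681) (dlOf (nat_lit 1) (nat_lit 0x6e00288e0001))) 
(.lf (nat_lit 21545049) (dlOf (nat_lit 9) (nat_lit 0xa5b6806104ec02b4254011810d0002b0400b209d804584a801bc21a0005506005613b001409500014c10013053c003c2920004e04003c14f0001b8100b709d805084a8020821a0001306016c13b009b09500398434000240c02f0276011c12a008308680004018020800800d400200100008a40683)))) 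
(.nd (nat_lit 7) (.lf (nat_lit 50905625) (dlOf (nat_lit 2) (nat_lit 0x78f400033d4000f88294d8700))) 
(.lf (nat_lit 575129) (dlOf (nat_lit 1) (nat_lit 0x400200020008003a82))))) (.nd (nat_lit 28) 
(.nd (nat_lit 22) (.lf (nat_lit 3719193) (dlOf (nat_lit 1) (nat_lit 0xa80018220a01))) 
(.lf (nat_lit 24690713) (dlOf (nat_lit 1) (nat_lit 0x220018bb0501)))) (.nd (nat_lit 9) 
(.lf (nat_lit 3491282969) (dlOf (nat_lit 2) (nat_lit 0x207f0029ea04021c00400400008080502))) 
(.lf (nat_lit 1345896985) (dlOf (nat_lit 4) (nat_lit 0x3845c000c22c001005a0002283002008b80010c08009045c00000040124004003a0008e07e82)))))) 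
(.nd (nat_lit 27) (.nd (nat_lit 20) (.nd (nat_lit 29) 
(.lf (nat_lit 4362649625) (dlOf (nat_lit 4) (nat_lit 0xe0c06600023020050004015900000008010004000000016040328002001800080c0402))) 
(.lf (nat_lit 1678295065) (dlOf (nat_lit 3) (nat_lit 0x480d400200480002404041e054008c00880008c100048008008c002000400081d0403)))) 
(.lf (nat_lit 2753085465) (dlOf (nat_lit 2) (nat_lit 0x2084402cb804021c00400400008080502)))) 
(.nd (nat_lit 6) (.nd (nat_lit 22) 
(.lf (nat_lit 4228431897) (dlOf (nat_lit 4) (nat_lit 0x61c064000230200780000001001001b00000002c080670008034c00201a400080c0503))) 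
(.lf (nat_lit 474529817) (dlOf (nat_lit 2) (nat_lit 0x4825800780ea004c073000208391a0100)))) 
(.lf (nat_lit 738771161) (dlOf (nat_lit 1) (nat_lit 0x400400020008105d82))))))) (.nd (nat_lit 10) 
(.nd (nat_lit 6) (.nd (nat_lit 12) (.nd (nat_lit 7) (.nd (nat_lit 28) 
(.lf (nat_lit 671138073) (dlOf (nat_lit 1) (nat_lit 0x200280b0481))) 
(.lf (nat_lit 939573529) (dlOf (nat_lit 1) (nat_lit 0xc00180b0481)))) 
(.lf (nat_lit 4095263129) (dlOf (nat_lit 1) (nat_lit 0x1120018086481)))) (.nd (nat_lit 11) 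
(.lf (nat_lit 8442137) (dlOf (nat_lit 1) (nat_lit 0x8008000c00200020008518083))) (.nd (nat_lit 26) 
(.lf (nat_lit 1476450585) (dlOf (nat_lit 1) (nat_lit 0x4000800180020008000800ab03))) 
(.lf (nat_lit 3691043097) (dlOf (nat_lit 2) (nat_lit 0x5900d8000a008002000800fc0020008000800ab03)))))) 
(.nd (nat_lit 11) (.nd (nat_lit 26) 
(.lf (nat_lit 1342751065) (dlOf (nat_lit 1) (nat_lit 0x400180c0681))) (.nd (nat_lit 29) 
(.lf (nat_lit 470335833) (dlOf (nat_lit 1) (nat_lit 0x400180c0681))) 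
(.lf (nat_lit 3154690393) (dlOf (nat_lit 2) (nat_lit 0xaa0160000000800c8008008800200640008310883))))) 
(.nd (nat_lit 26) (.nd (nat_lit 7) 
(.lf (nat_lit 536926553) (dlOf (nat_lit 1) (nat_lit 0x10002800ab81))) 
(.lf (nat_lit 3489712601) (dlOf (nat_lit 1) (nat_lit 0x1400400040008004e82)))) (.nd (nat_lit 27) 
(.lf (nat_lit 2751514969) (dlOf (nat_lit 1) (nat_lit 0x3400400380008004e02))) 
(.lf (nat_lit 201378137) (dlOf (nat_lit 1) (nat_lit 0x20008004e01))))))) (.nd (nat_lit 7) 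
(.nd (nat_lit 26) (.nd (nat_lit 27) 
(.lf (nat_lit 5100324121) (dlOf (nat_lit 1) (nat_lit 0x400400020008053082))) 
(.lf (nat_lit 6308283673) (dlOf (nat_lit 1) (nat_lit 0x400400020008053082)))) (.nd (nat_lit 6) 
(.nd (nat_lit 27) 
(.lf (nat_lit 4898997529) (dlOf (nat_lit 1) (nat_lit 0x8008000400200020008053083))) 
(.lf (nat_lit 5570086169) (dlOf (nat_lit 1) (nat_lit 0x400400020008053082)))) 
(.lf (nat_lit 3288386905) (dlOf (nat_lit 1) (nat_lit 0xe800801f8002006e0008006a83))))) 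
(.nd (nat_lit 28) (.nd (nat_lit 27) 
(.lf (nat_lit 4898997721) (dlOf (nat_lit 1) (nat_lit 0x400400020008053602))) (.nd (nat_lit 30) 
(.lf (nat_lit 4496344537) (dlOf (nat_lit 1) (nat_lit 0x400400020008053602))) 
(.lf (nat_lit 5570086361) (dlOf (nat_lit 1) (nat_lit 0x400400020008053602))))) (.nd (nat_lit 11) 
(.nd (nat_lit 27) 
(.lf (nat_lit 5100324313) (dlOf (nat_lit 1) (nat_lit 0x8008000400200020008053603))) 
(.lf (nat_lit 6308283865) (dlOf (nat_lit 1) (nat_lit 0x8008000400200020008053603)))) 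
(.lf (nat_lit 4227911129) (dlOf (nat_lit 1) (nat_lit 0xe0008006d81)))))))) (.nd (nat_lit 6) 
(.nd (nat_lit 29) (.nd (nat_lit 19) (.nd (nat_lit 20) (.nd (nat_lit 10) 
(.lf (nat_lit 3288645657) (dlOf (nat_lit 1) (nat_lit 0x200080030002004000080a0903))) 
(.lf (nat_lit 318489) (dlOf (nat_lit 1) (nat_lit 0xc0040002000800bf02)))) (.nd (nat_lit 21) 
(.lf (nat_lit 18137113) (dlOf (nat_lit 1) (nat_lit 0x20008001000200080008910b83))) 
(.nd (nat_lit 22) (.lf (nat_lit 62177305) (dlOf (nat_lit 1) (nat_lit 0x40019970401))) 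
(.lf (nat_lit 24428569) (dlOf (nat_lit 1) (nat_lit 0x8008000400200020008ba0a03)))))) 
(.nd (nat_lit 20) (.nd (nat_lit 23) 
(.lf (nat_lit 3557605401) (dlOf (nat_lit 1) (nat_lit 0x80008270481))) (.nd (nat_lit 24) 
(.lf (nat_lit 9224217) (dlOf (nat_lit 1) (nat_lit 0x2b8008000800200420008530103))) 
(.lf (nat_lit 59555865) (dlOf (nat_lit 2) (nat_lit 0x1d0fe0004741000ad029810600))))) 
(.nd (nat_lit 7) (.nd (nat_lit 21) 
(.lf (nat_lit 18661401) (dlOf (nat_lit 1) (nat_lit 0x1000400040018960482))) 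
(.lf (nat_lit 1346158617) (dlOf (nat_lit 2) (nat_lit 0x2850c0005e0400ac00400200008e60102)))) 
(.lf (nat_lit 8180377) (dlOf (nat_lit 1) (nat_lit 0x400200020008518c82)))))) (.nd (nat_lit 26) 
(.nd (nat_lit 27) (.nd (nat_lit 30) 
(.lf (nat_lit 805617689) (dlOf (nat_lit 1) (nat_lit 0x2e0008140b01))) 
(.lf (nat_lit 4026843161) (dlOf (nat_lit 1) (nat_lit 0x200080030002004000080a0903)))) 
(.nd (nat_lit 8) (.nd (nat_lit 28) 
(.lf (nat_lit 1745141785) (dlOf (nat_lit 2) (nat_lit 0x2039003201a00038098000c02c0004108000400280b0101))) 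
(.lf (nat_lit 4161060889) (dlOf (nat_lit 1) (nat_lit 0x600280f0501)))) 
(.lf (nat_lit 671400217) (dlOf (nat_lit 1) (nat_lit 0x580028187f81))))) (.nd (nat_lit 28) 
(.nd (nat_lit 30) (.lf (nat_lit 604291097) (dlOf (nat_lit 1) (nat_lit 0x400400040008130482))) 
(.lf (nat_lit 1678032921) (dlOf (nat_lit 1) (nat_lit 0x2e0008140b01)))) (.nd (nat_lit 7) 
(.lf (nat_lit 872726553) (dlOf (nat_lit 2) (nat_lit 0x2039003201a00038098000c02c0004108000400280b0101))) 
(.lf (nat_lit 1009041561) (dlOf (nat_lit 1) (nat_lit 0x60029012b81))))))) (.nd (nat_lit 27) 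
(.nd (nat_lit 28) (.nd (nat_lit 9) (.nd (nat_lit 19) (.nd (nat_lit 20) 
(.lf (nat_lit 3758407769) (dlOf (nat_lit 3) (nat_lit 0x4406a0002902001c03500013818170800))) 
(.lf (nat_lit 26525785) (dlOf (nat_lit 2) (nat_lit 0x14bd0000b008022800801c0002007c0008c50803)))) 
(.nd (nat_lit 22) 
(.lf (nat_lit 9224281) (dlOf (nat_lit 4) (nat_lit 0x2d1e8000c0080009a48001083c0001304000893a000649c8000a3bc0004f94001e752000a38f800040300100008007c00200040008530703))) 
(.lf (nat_lit 13418585) (dlOf (nat_lit 1) (nat_lit 0x20008721a81))))) (.nd (nat_lit 7) 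
(.nd (nat_lit 21) 
(.lf (nat_lit 52218457) (dlOf (nat_lit 2) (nat_lit 0x1a304c0003e04000800400440009515302))) 
(.lf (nat_lit 33344089) (dlOf (nat_lit 1) (nat_lit 0x400400040018f55302)))) 
(.lf (nat_lit 20241113) (dlOf (nat_lit 1) (nat_lit 0x80080008002000200089db983))))) 
(.nd (nat_lit 7) (.nd (nat_lit 26) 
(.lf (nat_lit 6174326873) (dlOf (nat_lit 2) (nat_lit 0x40058000000800180080004002000200080f0703))) 
(.lf (nat_lit 872726617) (dlOf (nat_lit 3) (nat_lit 0x1402a0003502003203800160198000a41000580080088002001e00080b0703)))) 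
(.nd (nat_lit 26) (.nd (nat_lit 30) 
(.lf (nat_lit 6711197913) (dlOf (nat_lit 1) (nat_lit 0x8004000200080c1902))) 
(.lf (nat_lit 5637456089) (dlOf (nat_lit 1) (nat_lit 0x4004000200080f1902)))) 
(.lf (nat_lit 5704564953) (dlOf (nat_lit 1) (nat_lit 0x4004000200180f1902)))))) (.nd (nat_lit 28) 
(.nd (nat_lit 26) (.nd (nat_lit 29) 
(.lf (nat_lit 1208270937) (dlOf (nat_lit 12) (nat_lit 0x4404e0004102002a0140001601000700a0000ac0801600a40002c04009005200120280000702002a0148000340807800a401440500110026009200600001c2001900a40000c0400e80520000202006c02900000810033013000000080298008014c002000400080b0703))) 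
(.lf (nat_lit 1745141849) (dlOf (nat_lit 3) (nat_lit 0x1402a0003502003203800160198000a41000580080088002001e00080b0703)))) 
(.nd (nat_lit 7) (.nd (nat_lit 30) 
(.lf (nat_lit 2349121625) (dlOf (nat_lit 1) (nat_lit 0x40004000400080c1a82))) 
(.lf (nat_lit 5570347097) (dlOf (nat_lit 2) (nat_lit 0x40058000000800180080004002000200080f0703)))) 
(.lf (nat_lit 5033476313) (dlOf (nat_lit 1) (nat_lit 0x80080004002000200080c1903))))) 
(.nd (nat_lit 7) (.nd (nat_lit 22) 
(.lf (nat_lit 2080686169) (dlOf (nat_lit 12) (nat_lit 0x4404e0004102002a0140001601000700a0000ac0801600a40002c04009005200120280000702002a0148000340807800a401440500110026009200600001c2001900a40000c0400e80520000202006c02900000810033013000000080298008014c002000400080b0703))) 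
(.lf (nat_lit 474267737) (dlOf (nat_lit 1) (nat_lit 0x38004001e0009100702)))) (.nd (nat_lit 8) 
(.lf (nat_lit 402964697) (dlOf (nat_lit 1) (nat_lit 0x200280c1901))) 
(.lf (nat_lit 473745881) (dlOf (nat_lit 1) (nat_lit 0xf80008fa4e81)))))))))) (.nd (nat_lit 28) 
(.nd (nat_lit 18) (.nd (nat_lit 26) (.nd (nat_lit 24) (.nd (nat_lit 8) (.nd (nat_lit 19) 
(.nd (nat_lit 10) (.nd (nat_lit 9) 
(.lf (nat_lit 5292073) (dlOf (nat_lit 1) (nat_lit 0x40018340801))) 
(.lf (nat_lit 40944169) (dlOf (nat_lit 1) (nat_lit 0xc0029208901)))) (.nd (nat_lit 7) 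
(.lf (nat_lit 134269993) (dlOf (nat_lit 1) (nat_lit 0x1ce0018006081))) 
(.lf (nat_lit 134270121) (dlOf (nat_lit 2) (nat_lit 0x20082000470200020018006281))))) 
(.nd (nat_lit 4) (.nd (nat_lit 21) 
(.lf (nat_lit 42516521) (dlOf (nat_lit 1) (nat_lit 0x400400040009260202))) (.nd (nat_lit 22) 
(.lf (nat_lit 11059241) (dlOf (nat_lit 1) (nat_lit 0x18008000800200020008660683))) 
(.lf (nat_lit 15253545) (dlOf (nat_lit 1) (nat_lit 0x200287c0681))))) (.nd (nat_lit 6) 
(.lf (nat_lit 134791225) (dlOf (nat_lit 1) (nat_lit 0x28004000800180b1502))) 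
(.lf (nat_lit 46713465) (dlOf (nat_lit 1) (nat_lit 0x30008001c00200020009385403)))))) 
(.nd (nat_lit 4) (.nd (nat_lit 6) 
(.lf (nat_lit 1610664745) (dlOf (nat_lit 2) (nat_lit 0x2000000e1818005c00))) (.nd (nat_lit 7) 
(.lf (nat_lit 4831890281) (dlOf (nat_lit 1) (nat_lit 0x8008003400200100008055c03))) 
(.lf (nat_lit 4831889897) (dlOf (nat_lit 1) (nat_lit 0x8008000400200020008054e83))))) 
(.nd (nat_lit 6) (.nd (nat_lit 9) 
(.lf (nat_lit 8443193) (dlOf (nat_lit 1) (nat_lit 0xbf8008000400203280008519903))) 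
(.lf (nat_lit 575289) (dlOf (nat_lit 2) (nat_lit 0x80000006a04016000200100008003e02)))) 
(.lf (nat_lit 3892364793) (dlOf (nat_lit 1) (nat_lit 0x40028083681)))))) (.nd (nat_lit 4) 
(.nd (nat_lit 9) (.nd (nat_lit 7) (.nd (nat_lit 19) (.nd (nat_lit 21) 
(.lf (nat_lit 21020713) (dlOf (nat_lit 1) (nat_lit 0x400400020008a00a02))) 
(.lf (nat_lit 52477993) (dlOf (nat_lit 1) (nat_lit 0x400400020009540882)))) 
(.lf (nat_lit 24690729) (dlOf (nat_lit 1) (nat_lit 0x140018bb0a81)))) (.nd (nat_lit 6) 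
(.lf (nat_lit 51430569) (dlOf (nat_lit 1) (nat_lit 0x3a0029512c01))) 
(.lf (nat_lit 28885225) (dlOf (nat_lit 1) (nat_lit 0x400200020008da0602))))) (.nd (nat_lit 20) 
(.nd (nat_lit 8) (.lf (nat_lit 58772009) (dlOf (nat_lit 1) (nat_lit 0x800197e5181))) 
(.lf (nat_lit 54577961) (dlOf (nat_lit 1) (nat_lit 0x3400200020009655c02)))) (.nd (nat_lit 7) 
(.lf (nat_lit 60344873) (dlOf (nat_lit 1) (nat_lit 0x4680080004002005c0009845183))) 
(.lf (nat_lit 19976873) (dlOf (nat_lit 1) (nat_lit 0x4002000200089d8c82)))))) (.nd (nat_lit 6) 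
(.nd (nat_lit 8) (.nd (nat_lit 19) 
(.lf (nat_lit 25215033) (dlOf (nat_lit 1) (nat_lit 0x40028bf0b81))) 
(.lf (nat_lit 55099449) (dlOf (nat_lit 2) (nat_lit 0x32a30000900800200080010002000600096b0c83)))) 
(.lf (nat_lit 19972409) (dlOf (nat_lit 1) (nat_lit 0x800800b0002001200089d0b83)))) (.nd (nat_lit 8) 
(.nd (nat_lit 9) (.lf (nat_lit 18923641) (dlOf (nat_lit 1) (nat_lit 0x8008000400200020008970483))) 
(.lf (nat_lit 20499065) (dlOf (nat_lit 1) (nat_lit 0x18008000c002003400089d5403)))) 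
(.nd (nat_lit 7) (.lf (nat_lit 19975033) (dlOf (nat_lit 1) (nat_lit 0x10004000200189d5c02))) 
(.lf (nat_lit 19979257) (dlOf (nat_lit 1) (nat_lit 0x7b00080420002008200089dbf03)))))))) 
(.nd (nat_lit 29) (.nd (nat_lit 4) (.nd (nat_lit 9) (.nd (nat_lit 7) (.nd (nat_lit 11) 
(.lf (nat_lit 4496344361) (dlOf (nat_lit 1) (nat_lit 0x400400020008053182))) 
(.lf (nat_lit 3288386857) (dlOf (nat_lit 1) (nat_lit 0x20018006801)))) 
(.lf (nat_lit 5570086313) (dlOf (nat_lit 1) (nat_lit 0x400018053601)))) (.nd (nat_lit 6) 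
(.nd (nat_lit 8) 
(.lf (nat_lit 4496344617) (dlOf (nat_lit 1) (nat_lit 0x8008000400200020008053703))) 
(.lf (nat_lit 1275120425) (dlOf (nat_lit 2) (nat_lit 0x1c000000a8818005c00)))) 
(.lf (nat_lit 5570086505) (dlOf (nat_lit 1) (nat_lit 0x400200060008053902))))) (.nd (nat_lit 6) 
(.nd (nat_lit 7) (.nd (nat_lit 9) 
(.lf (nat_lit 201900089) (dlOf (nat_lit 1) (nat_lit 0x28004000800180b1502))) 
(.lf (nat_lit 4496344633) (dlOf (nat_lit 1) (nat_lit 0x17800400040018053782)))) 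
(.lf (nat_lit 68732089) (dlOf (nat_lit 1) (nat_lit 0x8008000400200020008722c83)))) (.nd (nat_lit 7) 
(.lf (nat_lit 3288385913) (dlOf (nat_lit 3) (nat_lit 0x2405c000802b0090482000701580471808005800800f400200640008004e83))) 
(.nd (nat_lit 8) (.lf (nat_lit 67163385) (dlOf (nat_lit 1) (nat_lit 0xe0028009501))) 
(.lf (nat_lit 3288387065) (dlOf (nat_lit 1) (nat_lit 0x100008006f81))))))) (.nd (nat_lit 32) 
(.nd (nat_lit 6) (.nd (nat_lit 4) (.nd (nat_lit 19) 
(.lf (nat_lit 2752561193) (dlOf (nat_lit 1) (nat_lit 0xb800200860008020502))) 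
(.lf (nat_lit 1678295081) (dlOf (nat_lit 1) (nat_lit 0x400080008002000200081d0a83)))) 
(.lf (nat_lit 2756231225) (dlOf (nat_lit 13) (nat_lit 0x4303400128108040004601d801e000e38400360340020010803b0046022c01e003a00b8007182800181a003380b6002804200ce016007980a4033804a015602300de00f0067005c016401a009000800050000007146001901a0029c046015201e000e1830031034001e0108026c05201b6023010900f0006cc2801f81a000500840062029004b011802600780033a14018804601da01e000c7820051034000b8108034805201e2023009600f0006142800c81a00050084019802300dd00f000250200290078001260400400d0001404200d901180028078000c010004c0840116023005000f000000189eb800803e800200920008220b83)))) 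
(.nd (nat_lit 7) (.lf (nat_lit 604036201) (dlOf (nat_lit 1) (nat_lit 0x14004000c000800c082))) 
(.nd (nat_lit 20) 
(.lf (nat_lit 2885733609) (dlOf (nat_lit 10) (nat_lit 0x17005c001401e003d00c0000d81802b00b8003403c007c0180001a03000b00e0011006c00dc008013e0030001904002600e001d006c01580080162003000180401e6018005b00b80194038010e01800b2002002580000005c1801b0064042403000e0017006e007003f4030021e00f00f0002007c00000005a2000600380002c02002601c00040020000ac10046007002e4008000290403b80018006501))) 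
(.lf (nat_lit 2754661609) (dlOf (nat_lit 3) (nat_lit 0xb40380002e0201a001c000168180f6500)))))) 
(.nd (nat_lit 4) (.nd (nat_lit 7) (.nd (nat_lit 8) 
(.lf (nat_lit 4898997801) (dlOf (nat_lit 1) (nat_lit 0x800400020008053702))) 
(.lf (nat_lit 4898997545) (dlOf (nat_lit 1) (nat_lit 0x400400020008053182)))) 
(.lf (nat_lit 4898997673) (dlOf (nat_lit 2) (nat_lit 0x201c00047018053600)))) (.nd (nat_lit 6) 
(.lf (nat_lit 4898997689) (dlOf (nat_lit 2) (nat_lit 0x80380008e0200020018053601))) 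
(.lf (nat_lit 5033216633) (dlOf (nat_lit 1) (nat_lit 0x4c0018005401)))))))) (.nd (nat_lit 6) 
(.nd (nat_lit 19) (.nd (nat_lit 27) (.nd (nat_lit 4) (.nd (nat_lit 24) (.nd (nat_lit 8) 
(.nd (nat_lit 11) (.lf (nat_lit 4362387497) (dlOf (nat_lit 1) (nat_lit 0x400200060008050602))) 
(.lf (nat_lit 313385) (dlOf (nat_lit 1) (nat_lit 0x19000400f40008004702)))) 
(.lf (nat_lit 4899261225) (dlOf (nat_lit 1) (nat_lit 0x200080d5c01)))) (.nd (nat_lit 7) 
(.nd (nat_lit 20) 
(.lf (nat_lit 27574313) (dlOf (nat_lit 1) (nat_lit 0x40008000c00200020008d00803))) 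
(.lf (nat_lit 30720041) (dlOf (nat_lit 2) (nat_lit 0x40e8a000b6018e40d80)))) (.nd (nat_lit 9) 
(.lf (nat_lit 21282985) (dlOf (nat_lit 1) (nat_lit 0x50008000400200200008a31483))) 
(.lf (nat_lit 20240041) (dlOf (nat_lit 1) (nat_lit 0x4002000200089da002)))))) (.nd (nat_lit 8) 
(.nd (nat_lit 26) 
(.lf (nat_lit 2684665913) (dlOf (nat_lit 2) (nat_lit 0x780a4002ca04000c00200220008130d82))) 
(.lf (nat_lit 3288645689) (dlOf (nat_lit 5) (nat_lit 0x7202e007e0168001681003980b8029405a0002c04012402d0000181002c0168000080804700080078002011400080a0b83)))) 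
(.nd (nat_lit 7) (.nd (nat_lit 22) 
(.lf (nat_lit 537182521) (dlOf (nat_lit 1) (nat_lit 0x8008000c00200040008048483))) 
(.lf (nat_lit 21283129) (dlOf (nat_lit 1) (nat_lit 0x8008000400200020008a34c03)))) 
(.lf (nat_lit 41206201) (dlOf (nat_lit 1) (nat_lit 0x800400020009226f02)))))) (.nd (nat_lit 32) 
(.nd (nat_lit 29) (.nd (nat_lit 30) 
(.lf (nat_lit 2282012713) (dlOf (nat_lit 3) (nat_lit 0x1202a000900e8004806000140000004e08000a012000300800010c100030008000c00200040008100683))) 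
(.lf (nat_lit 1208270889) (dlOf (nat_lit 3) (nat_lit 0x40009401800100002f0400c002500580040000b81000180080148002013400080b0383)))) 
(.lf (nat_lit 1745141801) (dlOf (nat_lit 14) (nat_lit 0x2f0068017402a000310403de03800ad01200528068077802a0003008008003a03f801c01e800dc09e006a080e033002201881f180900334046008c01e03f000d00120060060c02a028e010003d0020026800c00180000002f20034a03a03b401c01df80dc0f5006a079803303bf019000400c408e0060074802402e101180da8084007c040002201f03cc00d00d980540b2c020002000300040000000b89015e80e00af406e05b203300e5011815f00680ad002a00380030001687000f01d01f080e00f0406e07c403303d4019006a80b8005c0520714024012d0118099807c004003c07a601a00ad00c017a805406940200020009004d0018000b08815800e00a3406e05be033021c019001e80900ac4034045601500100018000ac401de80e00e6006e0776033022501201d4806800700060002a0c07f203803dc01b821500cc0e70064048002403ef00d0078805400380120094003000148900ee01c008500dc054c066024e024012700d00940054000301804a80700116033000090200b801c006b80cc02b0048000110600d003800a001980000010022800806b400206bc00080b0383))))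 
(.nd (nat_lit 7) (.nd (nat_lit 26) 
(.lf (nat_lit 4429496361) (dlOf (nat_lit 1) (nat_lit 0xb8004008600080f0d02))) 
(.lf (nat_lit 5570347049) (dlOf (nat_lit 2) (nat_lit 0x1806800024040004004000200180f0382)))) 
(.lf (nat_lit 6107218089) (dlOf (nat_lit 1) (nat_lit 0x8004000200080c1482)))))) (.nd (nat_lit 4) 
(.nd (nat_lit 20) (.nd (nat_lit 24) (.nd (nat_lit 25) 
(.lf (nat_lit 9224233) (dlOf (nat_lit 1) (nat_lit 0x1080080088002000c0008530383))) 
(.lf (nat_lit 42778665) (dlOf (nat_lit 1) (nat_lit 0x400200020009280202)))) 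
(.lf (nat_lit 59555881) (dlOf (nat_lit 3) (nat_lit 0x287f0000581002943f8000000800180080018002002a0009810883)))) 
(.nd (nat_lit 7) (.nd (nat_lit 21) 
(.lf (nat_lit 27050025) (dlOf (nat_lit 4) (nat_lit 0x140000005f0200020000002e81002aa7a800153d0000a808002800400c80018ca0682))) 
(.lf (nat_lit 2755444777) (dlOf (nat_lit 1) (nat_lit 0x400200520008190882)))) 
(.lf (nat_lit 8177065) (dlOf (nat_lit 1) (nat_lit 0x400200020008513602))))) (.nd (nat_lit 9) 
(.nd (nat_lit 24) 
(.lf (nat_lit 10272825) (dlOf (nat_lit 1) (nat_lit 0x180080014002000800085c0d03))) 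
(.lf (nat_lit 27050041) (dlOf (nat_lit 1) (nat_lit 0x4c002000c0008ca0882)))) (.nd (nat_lit 7) 
(.lf (nat_lit 33344057) (dlOf (nat_lit 1) (nat_lit 0x20018f55201))) 
(.lf (nat_lit 67950265) (dlOf (nat_lit 1) (nat_lit 0x40040006000833a002))))))) (.nd (nat_lit 7) 
(.nd (nat_lit 8) (.nd (nat_lit 4) (.nd (nat_lit 21) 
(.lf (nat_lit 33865833) (dlOf (nat_lit 1) (nat_lit 0x8008000400200020008f61a03))) 
(.lf (nat_lit 2753871977) (dlOf (nat_lit 2) (nat_lit 0x2c0e8000098180a1400)))) (.nd (nat_lit 9) 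
(.lf (nat_lit 5369020537) (dlOf (nat_lit 1) (nat_lit 0x80080004002000400080c0b83))) 
(.lf (nat_lit 60082809) (dlOf (nat_lit 1) (nat_lit 0x80019845401))))) (.nd (nat_lit 10) 
(.nd (nat_lit 19) 
(.lf (nat_lit 6442762601) (dlOf (nat_lit 1) (nat_lit 0x18008000c002000400081b0703))) 
(.lf (nat_lit 1884521) (dlOf (nat_lit 1) (nat_lit 0x400200020008150702)))) 
(.lf (nat_lit 316777) (dlOf (nat_lit 1) (nat_lit 0x20028009901))))) (.nd (nat_lit 26) 
(.nd (nat_lit 8) (.nd (nat_lit 10) 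
(.lf (nat_lit 19185897) (dlOf (nat_lit 1) (nat_lit 0x200028970601))) (.nd (nat_lit 11) 
(.lf (nat_lit 1610925289) (dlOf (nat_lit 1) (nat_lit 0x20008092e81))) 
(.lf (nat_lit 314601) (dlOf (nat_lit 1) (nat_lit 0x3400400a60008006502))))) (.nd (nat_lit 4) 
(.lf (nat_lit 3221537257) (dlOf (nat_lit 4) (nat_lit 0x12001c007e00c003c0000000881801c803800c4018005e0000000e03002800700006c0800a0008001000200300008127303))) 
(.lf (nat_lit 3221537273) (dlOf (nat_lit 2) (nat_lit 0x800001466040048004002c0008127802))))) 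
(.nd (nat_lit 4) (.nd (nat_lit 27) 
(.lf (nat_lit 6509871593) (dlOf (nat_lit 6) (nat_lit 0x18098002402e0005d04001a026001700b800170100008070006c02e0005004002201700026010002013000a805c0008a08009000400300018157302))) 
(.lf (nat_lit 3959734761) (dlOf (nat_lit 2) (nat_lit 0x1c00000513818127d00)))) (.nd (nat_lit 9) 
(.lf (nat_lit 3959734777) (dlOf (nat_lit 6) (nat_lit 0xb7e00e04cf006021b8000000480c163801c0b1600c055d000000088182d280380f6801804800000001003059300702bf8030160c0000001d06005600e0000d818127e00))) 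
(.lf (nat_lit 738511865) (dlOf (nat_lit 1) (nat_lit 0x20018095f01))))))))) (.nd (nat_lit 29) 
(.nd (nat_lit 26) (.nd (nat_lit 6) (.nd (nat_lit 7) (.nd (nat_lit 4) (.nd (nat_lit 18) 
(.lf (nat_lit 3490758697) (dlOf (nat_lit 1) (nat_lit 0xb800200860008020502))) 
(.lf (nat_lit 1346158633) (dlOf (nat_lit 3) (nat_lit 0x23102800a05a000a02cc00341450027067800202c800a0038000290e001c16800130b3000a033c0054038000270800440028e60201)))) 
(.nd (nat_lit 21) 
(.lf (nat_lit 3494428729) (dlOf (nat_lit 13) (nat_lit 0x4303400128108040004601d801e000e38400360340020010803b0046022c01e003a00b8007182800181a003380b6002804200ce016007980a4033804a015602300de00f0067005c016401a009000800050000007146001901a0029c046015201e000e1830031034001e0108026c05201b6023010900f00068c2801f81a000500840062029004b011802600780033214018804601da01e000c7820051034000b8108034805201e2023009600f0005f42800c81a00050084019802300dd00f000250200290078001260400400d0001404200d901180028078000ac10004c0840116023005000f000000189eb800803e800200920008220b83)))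 
(.lf (nat_lit 3492331577) (dlOf (nat_lit 1) (nat_lit 0x2a00080c1301))))) (.nd (nat_lit 10) 
(.nd (nat_lit 4) 
(.lf (nat_lit 1342751145) (dlOf (nat_lit 1) (nat_lit 0x80080004002000400080c0783))) 
(.nd (nat_lit 20) 
(.lf (nat_lit 3623930041) (dlOf (nat_lit 2) (nat_lit 0x34015002a00300002c1000c8008004c00200280008004903))) 
(.lf (nat_lit 3492858041) (dlOf (nat_lit 1) (nat_lit 0x4004000200080f4902))))) (.nd (nat_lit 11) 
(.lf (nat_lit 1346946233) (dlOf (nat_lit 1) (nat_lit 0x20029102c81))) 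
(.lf (nat_lit 3489979577) (dlOf (nat_lit 1) (nat_lit 0x46000800c201)))))) (.nd (nat_lit 4) 
(.nd (nat_lit 7) (.nd (nat_lit 8) 
(.lf (nat_lit 3492069481) (dlOf (nat_lit 1) (nat_lit 0x200180a1401))) 
(.lf (nat_lit 1342751081) (dlOf (nat_lit 1) (nat_lit 0x80080004002000200080c0703)))) 
(.lf (nat_lit 6710938601) (dlOf (nat_lit 1) (nat_lit 0x100018005e81)))) (.nd (nat_lit 8) 
(.nd (nat_lit 27) (.lf (nat_lit 6710938233) (dlOf (nat_lit 1) (nat_lit 0x400200020008005402))) 
(.lf (nat_lit 402705017) (dlOf (nat_lit 1) (nat_lit 0x40008005401)))) (.nd (nat_lit 7) 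
(.nd (nat_lit 10) (.lf (nat_lit 4563714425) (dlOf (nat_lit 1) (nat_lit 0x30002000200080c5902))) 
(.lf (nat_lit 268486009) (dlOf (nat_lit 2) (nat_lit 0x29009801980340005808000c00400040008053502)))) 
(.lf (nat_lit 268486137) (dlOf (nat_lit 1) (nat_lit 0xc80080060002002a0008053683))))))) 
(.nd (nat_lit 4) (.nd (nat_lit 8) (.nd (nat_lit 6) (.nd (nat_lit 7) 
(.lf (nat_lit 471908393) (dlOf (nat_lit 1) (nat_lit 0x80080020002000c00086b0003))) 
(.nd (nat_lit 10) (.lf (nat_lit 335855785) (dlOf (nat_lit 1) (nat_lit 0x4004000200080c1482))) 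
(.lf (nat_lit 473744553) (dlOf (nat_lit 5) (nat_lit 0x160d90003b8100010b0000a8364000c138000208d0003b04000f06c8001d408011058000b41b2006c09c003f04680000020025000800b400200020008fa2c03))))) 
(.nd (nat_lit 19) (.lf (nat_lit 5704302697) (dlOf (nat_lit 1) (nat_lit 0x20028050101))) 
(.lf (nat_lit 474529897) (dlOf (nat_lit 2) (nat_lit 0x104b0000bc0800a80080038002002e00091a0a03))))) 
(.nd (nat_lit 11) (.nd (nat_lit 18) 
(.lf (nat_lit 470335849) (dlOf (nat_lit 1) (nat_lit 0x80080004002000200080c0703))) 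
(.lf (nat_lit 5838782825) (dlOf (nat_lit 1) (nat_lit 0x18008000c002000400081b0703)))) 
(.nd (nat_lit 7) 
(.lf (nat_lit 5704305513) (dlOf (nat_lit 1) (nat_lit 0x80080020002000c0008055c03))) 
(.lf (nat_lit 5704305129) (dlOf (nat_lit 1) (nat_lit 0x8008000400200020008054e83)))))) 
(.nd (nat_lit 6) (.nd (nat_lit 7) (.nd (nat_lit 20) 
(.lf (nat_lit 474529849) (dlOf (nat_lit 1) (nat_lit 0x98008001c002002000091a0583))) 
(.lf (nat_lit 471384121) (dlOf (nat_lit 1) (nat_lit 0x4002000200082f1102)))) (.nd (nat_lit 8) 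
(.lf (nat_lit 471646393) (dlOf (nat_lit 2) (nat_lit 0xcc11c001010200020018370481))) 
(.lf (nat_lit 5704305593) (dlOf (nat_lit 1) (nat_lit 0x400400020008055d02))))) (.nd (nat_lit 7) 
(.nd (nat_lit 9) 
(.lf (nat_lit 471646329) (dlOf (nat_lit 12) (nat_lit 0x4d0584000829c012a09d00a70470004d0200178584001429c004a09d000a0470004c4200420584021413a001408e0008a8300250b080198274002280800242c2004009d0008802008b0b080460274026c11c0010a060032161001504e8003fc100090584003413a000f704013a16100090a7001882f4026013a015608e0007485000204e80048238001ce0800342c2001609d00071028370480))) 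
(.lf (nat_lit 3556821625) (dlOf (nat_lit 1) (nat_lit 0x40028085401)))) (.nd (nat_lit 8) 
(.lf (nat_lit 3691043065) (dlOf (nat_lit 2) (nat_lit 0x1201d0001781800a980))) 
(.lf (nat_lit 2483080697) (dlOf (nat_lit 1) (nat_lit 0x20028006f81)))))))) (.nd (nat_lit 27) 
(.nd (nat_lit 7) (.nd (nat_lit 18) (.nd (nat_lit 11) (.nd (nat_lit 4) (.nd (nat_lit 9) 
(.lf (nat_lit 805879849) (dlOf (nat_lit 1) (nat_lit 0x400080008002000200081d0a83))) 
(.lf (nat_lit 4094214697) (dlOf (nat_lit 1) (nat_lit 0x10008000400200020008018903)))) 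
(.lf (nat_lit 4093690937) (dlOf (nat_lit 1) (nat_lit 0x8008000400200020008002883)))) 
(.nd (nat_lit 4) (.nd (nat_lit 8) 
(.lf (nat_lit 2952846441) (dlOf (nat_lit 3) (nat_lit 0x1601a0001401000e00d001b004c0004c0800bc0040010000800c082))) 
(.lf (nat_lit 6174067561) (dlOf (nat_lit 1) (nat_lit 0x20008000c00200020008055c03)))) 
(.lf (nat_lit 4026587449) (dlOf (nat_lit 1) (nat_lit 0xa001800ab81))))) (.nd (nat_lit 30) 
(.nd (nat_lit 8) (.nd (nat_lit 26) 
(.lf (nat_lit 2953101353) (dlOf (nat_lit 2) (nat_lit 0x601400180030000001000280080030002000c0008120703))) 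
(.lf (nat_lit 872726569) (dlOf (nat_lit 14) (nat_lit 0x2f0068017402a000340403de03800ad01200528068077802a0003308008003a03f801c01e800dc09e006a080e033002201881f180900334046008c01e03f000d00120060060c02a028e010003d0020026800c00180000003220034a03a03b401c01df80dc0f5006a079803303bf019000400c408e0060074802402e101180da8084007c040002201f03cc00d00d980540b2c020002000300040000000c49015e80e00af406e05b203300e5011815f00680ad002a00380030001807000f01d01f080e00f0406e07c403303d4019006a80b8005c0520714024012d0118099807c004003c07a601a00ad00c017a805406940200020009004d0018000bc8815800e00a3406e05be033021c019001e80900ac4034045601500100018000b8401de80e00e6006e0776033022501201d4806800700060002d0c07f203803dc01b821500cc0e70064048002403ef00d0078805400380120094003000160900ee01c008500dc054c066024e024012700d00940054000301804a80700116033000090200b801c006b80cc02b0048000110600d003800a001980000010022800806b400206bc00080b0383)))) 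
(.lf (nat_lit 5100587817) (dlOf (nat_lit 1) (nat_lit 0x4002000200080d5c02)))) (.nd (nat_lit 32) 
(.lf (nat_lit 1879359529) (dlOf (nat_lit 1) (nat_lit 0x200180f0a81))) 
(.lf (nat_lit 6174326825) (dlOf (nat_lit 2) (nat_lit 0x1806800024040004004000200180f0382)))))) 
(.nd (nat_lit 8) (.nd (nat_lit 11) (.nd (nat_lit 18) 
(.lf (nat_lit 4095262889) (dlOf (nat_lit 1) (nat_lit 0x7c00200260008081482))) 
(.lf (nat_lit 6241435817) (dlOf (nat_lit 1) (nat_lit 0x4004000200080f1482)))) (.nd (nat_lit 4) 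
(.lf (nat_lit 4026583273) (dlOf (nat_lit 2) (nat_lit 0xd01a8000b0080068008000800200740008004b03))) 
(.lf (nat_lit 805357753) (dlOf (nat_lit 1) (nat_lit 0x20028004901))))) (.nd (nat_lit 6) 
(.nd (nat_lit 9) (.nd (nat_lit 10) 
(.lf (nat_lit 1946468777) (dlOf (nat_lit 1) (nat_lit 0x400400020008090782))) 
(.lf (nat_lit 5100324265) (dlOf (nat_lit 1) (nat_lit 0x8c0018053601)))) 
(.lf (nat_lit 4026582953) (dlOf (nat_lit 1) (nat_lit 0xa0008004301)))) (.nd (nat_lit 9) 
(.lf (nat_lit 6174067177) (dlOf (nat_lit 1) (nat_lit 0x400400020008054e82))) 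
(.lf (nat_lit 4094741481) (dlOf (nat_lit 1) (nat_lit 0x800200020008055e82))))))) (.nd (nat_lit 26) 
(.nd (nat_lit 8) (.nd (nat_lit 9) (.nd (nat_lit 7) 
(.lf (nat_lit 4161060905) (dlOf (nat_lit 1) (nat_lit 0x200280f0981))) 
(.lf (nat_lit 6308544681) (dlOf (nat_lit 1) (nat_lit 0x80080004002000200080f1483)))) 
(.nd (nat_lit 10) (.lf (nat_lit 5234543145) (dlOf (nat_lit 1) (nat_lit 0x20018055181))) 
(.lf (nat_lit 6308283945) (dlOf (nat_lit 1) (nat_lit 0x8008000400200020008053703))))) 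
(.nd (nat_lit 30) (.nd (nat_lit 7) 
(.lf (nat_lit 5234543465) (dlOf (nat_lit 1) (nat_lit 0x80080040002000a0008055c03))) 
(.lf (nat_lit 5234543081) (dlOf (nat_lit 1) (nat_lit 0x400400020008054e82)))) (.nd (nat_lit 4) 
(.lf (nat_lit 6308283689) (dlOf (nat_lit 1) (nat_lit 0x400400020008053182))) 
(.lf (nat_lit 2013317497) (dlOf (nat_lit 1) (nat_lit 0x8008000400200020008004e83)))))) 
(.nd (nat_lit 7) (.nd (nat_lit 18) (.nd (nat_lit 4) 
(.lf (nat_lit 3154168617) (dlOf (nat_lit 2) (nat_lit 0x3a03f000e2818085c00))) 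
(.lf (nat_lit 3154690105) (dlOf (nat_lit 2) (nat_lit 0xd80b0007c4040018002001e0008310002)))) 
(.nd (nat_lit 30) (.lf (nat_lit 1006944297) (dlOf (nat_lit 1) (nat_lit 0x200180f0a81))) 
(.nd (nat_lit 31) 
(.lf (nat_lit 2080686121) (dlOf (nat_lit 3) (nat_lit 0x4000940180010000320400c002500580040000c41000180080148002013400080b0383))) 
(.lf (nat_lit 4228169769) (dlOf (nat_lit 1) (nat_lit 0x400200060008050602)))))) (.nd (nat_lit 4) 
(.nd (nat_lit 6) 
(.lf (nat_lit 3154690217) (dlOf (nat_lit 2) (nat_lit 0x180b00151204000800200220008310482))) 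
(.lf (nat_lit 6375392489) (dlOf (nat_lit 1) (nat_lit 0x20028002e81)))) (.nd (nat_lit 18) 
(.lf (nat_lit 6375392761) (dlOf (nat_lit 1) (nat_lit 0x400400020008003682))) 
(.lf (nat_lit 6375654905) (dlOf (nat_lit 1) (nat_lit 0x400200020008003682))))))))))) 
(.nd (nat_lit 4) (.nd (nat_lit 26) (.nd (nat_lit 18) (.nd (nat_lit 8) (.nd (nat_lit 19) 
(.nd (nat_lit 5) (.nd (nat_lit 6) (.nd (nat_lit 9) (.nd (nat_lit 20) 
(.lf (nat_lit 52477965) (dlOf (nat_lit 1) (nat_lit 0x8008000400200020009540183))) 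
(.lf (nat_lit 47235085) (dlOf (nat_lit 1) (nat_lit 0x4004000200093c0002)))) 
(.lf (nat_lit 1879100941) (dlOf (nat_lit 1) (nat_lit 0x20018007081)))) (.nd (nat_lit 23) 
(.nd (nat_lit 7) (.lf (nat_lit 16826445) (dlOf (nat_lit 2) (nat_lit 0xf965a000458188e0180))) 
(.lf (nat_lit 3087057101) (dlOf (nat_lit 2) (nat_lit 0x1801b000e88180b0480)))) (.nd (nat_lit 9) 
(.lf (nat_lit 25215053) (dlOf (nat_lit 2) (nat_lit 0x591600026818bf0d00))) 
(.lf (nat_lit 11584077) (dlOf (nat_lit 1) (nat_lit 0x20002000a00086c1182)))))) (.nd (nat_lit 9) 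
(.nd (nat_lit 7) (.nd (nat_lit 20) 
(.lf (nat_lit 23117869) (dlOf (nat_lit 6) (nat_lit 0x56c18000ac3400054080019930000ac2b0000c02011b6bf00004008079b2fc0001c040021836000090200040018b60901))) 
(.lf (nat_lit 13680685) (dlOf (nat_lit 1) (nat_lit 0x8008000400200020008740603)))) 
(.lf (nat_lit 60867757) (dlOf (nat_lit 1) (nat_lit 0x80080008002000400098c2c03)))) (.nd (nat_lit 6) 
(.lf (nat_lit 1208010285) (dlOf (nat_lit 1) (nat_lit 0x400200020008003782))) 
(.lf (nat_lit 5100324461) (dlOf (nat_lit 1) (nat_lit 0x400200020008053902)))))) (.nd (nat_lit 20) 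
(.nd (nat_lit 21) (.nd (nat_lit 5) (.nd (nat_lit 6) 
(.lf (nat_lit 1342750861) (dlOf (nat_lit 2) (nat_lit 0x3055000080000003b04000a00180c0101))) 
(.lf (nat_lit 3494428749) (dlOf (nat_lit 5) (nat_lit 0x2e068001d0210017008c020003c0002c08010a01e0001581000b03400068108009c046004201e000a00b8000a82800780780005204007400200120008220d02)))) 
(.nd (nat_lit 22) 
(.lf (nat_lit 805879853) (dlOf (nat_lit 1) (nat_lit 0x40008000c002000200081d0d83))) 
(.lf (nat_lit 21545005) (dlOf (nat_lit 2) (nat_lit 0x30a78000c40800180080038002006c0008a40383))))) 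
(.nd (nat_lit 22) (.nd (nat_lit 23) 
(.lf (nat_lit 3492331533) (dlOf (nat_lit 1) (nat_lit 0x4002014400080c0802))) 
(.lf (nat_lit 11059213) (dlOf (nat_lit 2) (nat_lit 0x543c90001d818660100)))) (.nd (nat_lit 5) 
(.lf (nat_lit 23642253) (dlOf (nat_lit 1) (nat_lit 0x800200060008b80102))) 
(.lf (nat_lit 15253549) (dlOf (nat_lit 1) (nat_lit 0x200087c0681)))))) (.nd (nat_lit 5) 
(.nd (nat_lit 6) (.nd (nat_lit 23) 
(.lf (nat_lit 1622029) (dlOf (nat_lit 1) (nat_lit 0x28008001000200040008100183))) 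
(.lf (nat_lit 10010637) (dlOf (nat_lit 1) (nat_lit 0x2a00085a0a01)))) (.nd (nat_lit 9) 
(.nd (nat_lit 21) 
(.lf (nat_lit 43565133) (dlOf (nat_lit 2) (nat_lit 0x454a00021f7806d2c1000080080010002000400092a0003))) 
(.lf (nat_lit 3493380173) (dlOf (nat_lit 2) (nat_lit 0x100340002818c0038084000a029000a01180028084002803c000a017000500400002c4802680080034002001a0008120f83)))) 
(.lf (nat_lit 51956301) (dlOf (nat_lit 1) (nat_lit 0xa0019515281))))) (.nd (nat_lit 21) 
(.lf (nat_lit 10010669) (dlOf (nat_lit 5) (nat_lit 0x41cc000148100010e60000a0080008730000180401903980000802000200185a0d01))) 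
(.nd (nat_lit 22) (.lf (nat_lit 3493380141) (dlOf (nat_lit 1) (nat_lit 0x5000200020008120c02))) 
(.lf (nat_lit 24690733) (dlOf (nat_lit 1) (nat_lit 0x240018bb0d81)))))))) (.nd (nat_lit 28) 
(.nd (nat_lit 7) (.nd (nat_lit 5) (.nd (nat_lit 9) (.nd (nat_lit 10) 
(.lf (nat_lit 23642445) (dlOf (nat_lit 1) (nat_lit 0x8008001000200020008b80603))) 
(.lf (nat_lit 19979597) (dlOf (nat_lit 1) (nat_lit 0x3a00189dc901)))) 
(.lf (nat_lit 19979085) (dlOf (nat_lit 2) (nat_lit 0xad7e000565f800230ac015f60c0020004006600189dbc82)))) 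
(.nd (nat_lit 6) (.nd (nat_lit 11) 
(.lf (nat_lit 19977005) (dlOf (nat_lit 1) (nat_lit 0x200289d8f81))) 
(.lf (nat_lit 5368761133) (dlOf (nat_lit 1) (nat_lit 0xc00200060008005c02)))) 
(.lf (nat_lit 4831890285) (dlOf (nat_lit 1) (nat_lit 0x8008000400200020008055c03))))) 
(.nd (nat_lit 25) (.nd (nat_lit 6) 
(.lf (nat_lit 2281751437) (dlOf (nat_lit 1) (nat_lit 0x20028002581))) (.nd (nat_lit 30) 
(.lf (nat_lit 2818621901) (dlOf (nat_lit 1) (nat_lit 0x400200020008081102))) 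
(.lf (nat_lit 3892363725) (dlOf (nat_lit 1) (nat_lit 0x400400020008081102))))) (.nd (nat_lit 6) 
(.lf (nat_lit 35703181) (dlOf (nat_lit 1) (nat_lit 0x5c00400860009014e82))) (.nd (nat_lit 9) 
(.lf (nat_lit 43565517) (dlOf (nat_lit 1) (nat_lit 0x200292a1101))) 
(.lf (nat_lit 53527501) (dlOf (nat_lit 1) (nat_lit 0x80080010002000200095f2883))))))) 
(.nd (nat_lit 5) (.nd (nat_lit 6) (.nd (nat_lit 7) (.nd (nat_lit 10) 
(.lf (nat_lit 6710938381) (dlOf (nat_lit 1) (nat_lit 0x40018005b01))) 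
(.lf (nat_lit 2952843021) (dlOf (nat_lit 1) (nat_lit 0x20028007481)))) 
(.lf (nat_lit 5637196173) (dlOf (nat_lit 1) (nat_lit 0x20008004e81)))) (.nd (nat_lit 7) 
(.nd (nat_lit 9) (.lf (nat_lit 1342233933) (dlOf (nat_lit 1) (nat_lit 0x1380020004000800c902))) 
(.lf (nat_lit 1342233421) (dlOf (nat_lit 3) (nat_lit 0x82320004118800207b800043a400041bc0057d850004119000288c400aa40800480020004000800bc82)))) 
(.lf (nat_lit 5234543565) (dlOf (nat_lit 1) (nat_lit 0x20008055d81))))) (.nd (nat_lit 6) 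
(.nd (nat_lit 7) (.nd (nat_lit 19) 
(.lf (nat_lit 5771411757) (dlOf (nat_lit 1) (nat_lit 0x740018000b01))) 
(.lf (nat_lit 1343799597) (dlOf (nat_lit 1) (nat_lit 0x8008000400200020008370703)))) 
(.lf (nat_lit 1345896877) (dlOf (nat_lit 1) (nat_lit 0x800400040008e06e82)))) (.nd (nat_lit 7) 
(.nd (nat_lit 27) (.lf (nat_lit 6174067565) (dlOf (nat_lit 1) (nat_lit 0x400400020008055c02))) 
(.lf (nat_lit 5234543469) (dlOf (nat_lit 1) (nat_lit 0x400400020008055c02)))) 
(.lf (nat_lit 268485613) (dlOf (nat_lit 2) (nat_lit 0x400a00619c0800200080014002000a0008052883)))))))) 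
(.nd (nat_lit 5) (.nd (nat_lit 6) (.nd (nat_lit 30) (.nd (nat_lit 19) (.nd (nat_lit 21) 
(.nd (nat_lit 9) (.nd (nat_lit 22) 
(.lf (nat_lit 2282012685) (dlOf (nat_lit 2) (nat_lit 0xd00240007604005c004003c0018100102))) 
(.lf (nat_lit 12894221) (dlOf (nat_lit 3) (nat_lit 0x23522000fa8d0000481000f548800022040014004007600186e0382)))) 
(.lf (nat_lit 314893) (dlOf (nat_lit 1) (nat_lit 0x40028007081)))) (.nd (nat_lit 7) 
(.nd (nat_lit 9) (.lf (nat_lit 24428557) (dlOf (nat_lit 2) (nat_lit 0x2eb500008818ba0380))) 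
(.lf (nat_lit 23380493) (dlOf (nat_lit 2) (nat_lit 0xdfe45406ff222038786f0183c35801ec6fc036636a001650c00160028b80d81)))) 
(.lf (nat_lit 56935565) (dlOf (nat_lit 1) (nat_lit 0x11e0019792b01))))) (.nd (nat_lit 20) 
(.nd (nat_lit 10) (.lf (nat_lit 9224205) (dlOf (nat_lit 1) (nat_lit 0xc00200020008530002))) 
(.lf (nat_lit 19713037) (dlOf (nat_lit 1) (nat_lit 0x200189d5f81)))) (.nd (nat_lit 7) 
(.nd (nat_lit 21) (.lf (nat_lit 10272781) (dlOf (nat_lit 1) (nat_lit 0x200185c0481))) 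
(.lf (nat_lit 29147149) (dlOf (nat_lit 1) (nat_lit 0x20028dd0a01)))) 
(.lf (nat_lit 1884301) (dlOf (nat_lit 2) (nat_lit 0x25290000ec080100008001800200060008150103)))))) 
(.nd (nat_lit 31) (.nd (nat_lit 7) (.nd (nat_lit 19) 
(.lf (nat_lit 1343537165) (dlOf (nat_lit 1) (nat_lit 0x1c0008290181))) 
(.lf (nat_lit 1343012877) (dlOf (nat_lit 12) (nat_lit 0xc1238006090c003c478001c237000e0e680050714002c382000c173000a6880b6111b85a107140029808001038a001450200542470025121800888f0004446e00221cd002a0e28010870400542e600143100054094000a04880028204002760c00481280013902001e247000e121800788f0004046e000c1f700100e6800687140010382000c1bb00060b980058250007012200160030006c8d001404a000360085a808dc04ac38a000d7040028237000d0b98003581000c891c004c48600121f700020e6800c87140034382001817300066878130480)))) 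
(.nd (nat_lit 8) (.lf (nat_lit 5637456013) (dlOf (nat_lit 1) (nat_lit 0x4004000200080f0f82))) 
(.lf (nat_lit 5771676045) (dlOf (nat_lit 2) (nat_lit 0x2805000e140200040018004e81))))) 
(.nd (nat_lit 20) (.nd (nat_lit 29) 
(.lf (nat_lit 3355754509) (dlOf (nat_lit 1) (nat_lit 0x400280f0181))) 
(.lf (nat_lit 3892625421) (dlOf (nat_lit 2) (nat_lit 0x300500004c04000800400120018170102)))) 
(.nd (nat_lit 7) (.lf (nat_lit 3491020813) (dlOf (nat_lit 1) (nat_lit 0x40018050181))) 
(.lf (nat_lit 3491545229) (dlOf (nat_lit 1) (nat_lit 0xc00200060008090102))))))) (.nd (nat_lit 7) 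
(.nd (nat_lit 23) (.nd (nat_lit 8) (.nd (nat_lit 9) 
(.lf (nat_lit 1208270925) (dlOf (nat_lit 1) (nat_lit 0xa00280b0601))) 
(.lf (nat_lit 1881459277) (dlOf (nat_lit 1) (nat_lit 0x80028f05281)))) (.nd (nat_lit 12) 
(.lf (nat_lit 20237133) (dlOf (nat_lit 1) (nat_lit 0x4002000200089d5c02))) 
(.lf (nat_lit 3489979213) (dlOf (nat_lit 1) (nat_lit 0x3800800080020004000800bc83))))) 
(.nd (nat_lit 20) (.nd (nat_lit 25) 
(.lf (nat_lit 9224269) (dlOf (nat_lit 2) (nat_lit 0x7cf6800120080030008003c002001a0008530603))) 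
(.lf (nat_lit 42778701) (dlOf (nat_lit 2) (nat_lit 0x3bc00001c019280680)))) (.nd (nat_lit 8) 
(.lf (nat_lit 10272845) (dlOf (nat_lit 1) (nat_lit 0x200185c0f81))) 
(.lf (nat_lit 11845965) (dlOf (nat_lit 1) (nat_lit 0x10002000200086c0602)))))) (.nd (nat_lit 8) 
(.nd (nat_lit 19) (.nd (nat_lit 27) 
(.lf (nat_lit 5369020621) (dlOf (nat_lit 1) (nat_lit 0x80080140002005600080c1803))) 
(.lf (nat_lit 4697931981) (dlOf (nat_lit 2) (nat_lit 0x1002c000168180c1800)))) 
(.lf (nat_lit 135053517) (dlOf (nat_lit 1) (nat_lit 0x4002000200081b0482)))) (.nd (nat_lit 11) 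
(.lf (nat_lit 8177101) (dlOf (nat_lit 1) (nat_lit 0x400200020008513602))) 
(.lf (nat_lit 3489975757) (dlOf (nat_lit 1) (nat_lit 0x80018006d01))))))) (.nd (nat_lit 21) 
(.nd (nat_lit 6) (.nd (nat_lit 23) (.nd (nat_lit 7) (.nd (nat_lit 8) (.nd (nat_lit 27) 
(.lf (nat_lit 2953101357) (dlOf (nat_lit 2) (nat_lit 0x39003000000080028008002c002000a0008120703))) 
(.lf (nat_lit 1208270893) (dlOf (nat_lit 1) (nat_lit 0x58004003000080b0402)))) 
(.lf (nat_lit 6442762541) (dlOf (nat_lit 2) (nat_lit 0x402a000258181b0500)))) (.nd (nat_lit 8) 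
(.lf (nat_lit 313517) (dlOf (nat_lit 1) (nat_lit 0x20028004901))) 
(.lf (nat_lit 313773) (dlOf (nat_lit 1) (nat_lit 0x20028004e81))))) (.nd (nat_lit 19) 
(.lf (nat_lit 9748525) (dlOf (nat_lit 2) (nat_lit 0x57cc00008818580380))) (.nd (nat_lit 20) 
(.lf (nat_lit 42778669) (dlOf (nat_lit 1) (nat_lit 0x73800201160009280282))) 
(.lf (nat_lit 27050029) (dlOf (nat_lit 2) (nat_lit 0x3f5984006ac4802254f500d7a7a004253cc00e4720000540c00140028ca0681)))))) 
(.nd (nat_lit 7) (.nd (nat_lit 22) 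
(.lf (nat_lit 268746861) (dlOf (nat_lit 1) (nat_lit 0x20008001000200080008120b83))) 
(.lf (nat_lit 38060141) (dlOf (nat_lit 1) (nat_lit 0x8008000800200020009122483)))) 
(.lf (nat_lit 5905891821) (dlOf (nat_lit 1) (nat_lit 0x280080170002000a0008157d03))))) 
(.nd (nat_lit 19) (.nd (nat_lit 7) (.nd (nat_lit 20) 
(.lf (nat_lit 27574317) (dlOf (nat_lit 1) (nat_lit 0x1000400040018d00882))) (.nd (nat_lit 22) 
(.lf (nat_lit 62177325) (dlOf (nat_lit 6) (nat_lit 0x1c04e0000d8100020e8000106fc000409c0000b0600061bf000050100040df8000240800086fc0001004004c00200060009970c82))) 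
(.lf (nat_lit 24428589) (dlOf (nat_lit 1) (nat_lit 0x800400020008ba0a02))))) (.nd (nat_lit 6) 
(.nd (nat_lit 8) (.lf (nat_lit 20240045) (dlOf (nat_lit 1) (nat_lit 0x4002000200089da002))) 
(.lf (nat_lit 49596845) (dlOf (nat_lit 1) (nat_lit 0x20009464e81)))) 
(.lf (nat_lit 23380461) (dlOf (nat_lit 1) (nat_lit 0x2a0008b80d01))))) (.nd (nat_lit 8) 
(.nd (nat_lit 6) (.nd (nat_lit 7) 
(.lf (nat_lit 3492593709) (dlOf (nat_lit 2) (nat_lit 0xc1fc000080180e0600))) 
(.lf (nat_lit 19715245) (dlOf (nat_lit 2) (nat_lit 0x62ad80138c080018008000c002000400089d9503)))) 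
(.lf (nat_lit 57461485) (dlOf (nat_lit 1) (nat_lit 0x8008001400200060009795a03)))) (.nd (nat_lit 9) 
(.lf (nat_lit 8177069) (dlOf (nat_lit 1) (nat_lit 0x400200020008513602))) 
(.lf (nat_lit 8177581) (dlOf (nat_lit 1) (nat_lit 0xe0028514301))))))))) (.nd (nat_lit 28) 
(.nd (nat_lit 7) (.nd (nat_lit 19) (.nd (nat_lit 9) (.nd (nat_lit 18) (.nd (nat_lit 5) 
(.lf (nat_lit 4362127693) (dlOf (nat_lit 1) (nat_lit 0x400200020008004d82))) (.nd (nat_lit 6) 
(.lf (nat_lit 68206637) (dlOf (nat_lit 3) (nat_lit 0x9413d00b309480598080007402a0130010004a0000001503000c815800e002a002c01000060000001082000f0008012400200240008450683))) 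
(.lf (nat_lit 4362127469) (dlOf (nat_lit 2) (nat_lit 0x605600003818004780))))) (.nd (nat_lit 5) 
(.lf (nat_lit 2752823309) (dlOf (nat_lit 1) (nat_lit 0x40018050181))) (.nd (nat_lit 20) 
(.lf (nat_lit 2214903853) (dlOf (nat_lit 1) (nat_lit 0x60008110681))) 
(.lf (nat_lit 68468781) (dlOf (nat_lit 1) (nat_lit 0x160008007c002000a0008580e03)))))) 
(.nd (nat_lit 10) (.nd (nat_lit 6) 
(.lf (nat_lit 4496608045) (dlOf (nat_lit 1) (nat_lit 0x100080004002000200080e5c03))) 
(.lf (nat_lit 604033645) (dlOf (nat_lit 1) (nat_lit 0x260008008981)))) (.nd (nat_lit 5) 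
(.lf (nat_lit 4898997773) (dlOf (nat_lit 2) (nat_lit 0x1c038000360200020018053681))) 
(.lf (nat_lit 2754661933) (dlOf (nat_lit 2) (nat_lit 0x300400004e02000200180f7181)))))) 
(.nd (nat_lit 5) (.nd (nat_lit 21) (.nd (nat_lit 22) 
(.lf (nat_lit 67682381) (dlOf (nat_lit 2) (nat_lit 0x40788000825c0011208002c004002800082d0182))) 
(.lf (nat_lit 2756231245) (dlOf (nat_lit 5) (nat_lit 0x2e068001d0210017008c020003c0002d08010a01e0001601000b03400068108009c046004201e000a00b8000ac2800780780005404007400200120008220d02)))) 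
(.nd (nat_lit 6) (.lf (nat_lit 2754134029) (dlOf (nat_lit 1) (nat_lit 0x4002014400080c0802))) 
(.lf (nat_lit 2755182669) (dlOf (nat_lit 2) (nat_lit 0x100340002818c0038084000a029000a01180028084002803c000a017000500400002c4802680080034002001a0008120f83))))) 
(.nd (nat_lit 18) (.nd (nat_lit 20) (.nd (nat_lit 29) 
(.lf (nat_lit 4362649645) (dlOf (nat_lit 2) (nat_lit 0x680000000280400b0002005e00080c0d82))) 
(.lf (nat_lit 1678295085) (dlOf (nat_lit 1) (nat_lit 0x40008000c002000200081d0d83)))) 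
(.lf (nat_lit 2755182637) (dlOf (nat_lit 1) (nat_lit 0x5000200020008120c02)))) (.nd (nat_lit 20) 
(.lf (nat_lit 2754396205) (dlOf (nat_lit 2) (nat_lit 0xc211000098180e0600))) 
(.lf (nat_lit 2755444781) (dlOf (nat_lit 2) (nat_lit 0xd8000000000200040028190901))))))) 
(.nd (nat_lit 5) (.nd (nat_lit 8) (.nd (nat_lit 18) (.nd (nat_lit 30) 
(.lf (nat_lit 4898996429) (dlOf (nat_lit 1) (nat_lit 0x88008036c002014e0008050883))) 
(.lf (nat_lit 3825254605) (dlOf (nat_lit 2) (nat_lit 0x1801b000e88180b0480)))) (.nd (nat_lit 6) 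
(.lf (nat_lit 2753347725) (dlOf (nat_lit 2) (nat_lit 0x3c08900fe0440000d8100020008000800200300008090103))) 
(.nd (nat_lit 19) (.lf (nat_lit 5033476301) (dlOf (nat_lit 1) (nat_lit 0x8004000200080c1802))) 
(.lf (nat_lit 202162381) (dlOf (nat_lit 1) (nat_lit 0x4002000200081b0482)))))) (.nd (nat_lit 6) 
(.nd (nat_lit 10) (.nd (nat_lit 27) 
(.lf (nat_lit 1677773197) (dlOf (nat_lit 1) (nat_lit 0x20028004e81))) 
(.lf (nat_lit 2885732749) (dlOf (nat_lit 1) (nat_lit 0x50008002400200140008004e83)))) 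
(.lf (nat_lit 3288386957) (dlOf (nat_lit 2) (nat_lit 0xd01a8000b0080068008000800200740008006c83)))) 
(.nd (nat_lit 9) (.nd (nat_lit 10) 
(.lf (nat_lit 738247117) (dlOf (nat_lit 1) (nat_lit 0x1000200040008001102))) 
(.lf (nat_lit 4898997709) (dlOf (nat_lit 1) (nat_lit 0x28008000c00200020008053603)))) 
(.lf (nat_lit 4362126285) (dlOf (nat_lit 1) (nat_lit 0x8000400020008002882)))))) (.nd (nat_lit 27) 
(.nd (nat_lit 8) (.nd (nat_lit 11) 
(.lf (nat_lit 4898996397) (dlOf (nat_lit 1) (nat_lit 0x20028050601))) 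
(.lf (nat_lit 6509611181) (dlOf (nat_lit 1) (nat_lit 0x400400020008004902)))) (.nd (nat_lit 9) 
(.nd (nat_lit 10) (.lf (nat_lit 2755707309) (dlOf (nat_lit 1) (nat_lit 0xc002000a00081b0782))) 
(.lf (nat_lit 4898997677) (dlOf (nat_lit 2) (nat_lit 0xc0380008e0200020018053601)))) 
(.lf (nat_lit 2751514541) (dlOf (nat_lit 1) (nat_lit 0x800200020008004302))))) (.nd (nat_lit 11) 
(.nd (nat_lit 8) 
(.lf (nat_lit 5033476269) (dlOf (nat_lit 1) (nat_lit 0x80080028002002a00080c1583))) 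
(.lf (nat_lit 201377709) (dlOf (nat_lit 1) (nat_lit 0x20008004301)))) (.nd (nat_lit 18) 
(.lf (nat_lit 1275120045) (dlOf (nat_lit 1) (nat_lit 0x40018004e81))) 
(.lf (nat_lit 4496607661) (dlOf (nat_lit 1) (nat_lit 0x80080004002000200080e4e83)))))))) 
(.nd (nat_lit 8) (.nd (nat_lit 19) (.nd (nat_lit 30) (.nd (nat_lit 18) (.nd (nat_lit 5) 
(.lf (nat_lit 1007730701) (dlOf (nat_lit 1) (nat_lit 0x400200020008760582))) 
(.lf (nat_lit 470859821) (dlOf (nat_lit 3) (nat_lit 0x12616300be0aa802f050805c826202020be00ee04a805d8208000a81c010c2c600e215500630a1008c04c402a017c013e095006b0410001083800d80080004002000200081c0683)))) 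
(.nd (nat_lit 6) (.nd (nat_lit 10) 
(.lf (nat_lit 2617557005) (dlOf (nat_lit 1) (nat_lit 0x4004000200080f0182))) 
(.lf (nat_lit 1007993869) (dlOf (nat_lit 1) (nat_lit 0x20008000800200020008922883)))) 
(.lf (nat_lit 474267725) (dlOf (nat_lit 1) (nat_lit 0x400400040009100602))))) (.nd (nat_lit 5) 
(.nd (nat_lit 6) 
(.lf (nat_lit 6376442509) (dlOf (nat_lit 1) (nat_lit 0x8008000400200020008095483))) 
(.lf (nat_lit 2080686157) (dlOf (nat_lit 1) (nat_lit 0xa00280b0601)))) (.nd (nat_lit 6) 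
(.nd (nat_lit 9) (.lf (nat_lit 2080686125) (dlOf (nat_lit 1) (nat_lit 0x58004003000080b0402))) 
(.lf (nat_lit 6375654957) (dlOf (nat_lit 1) (nat_lit 0x20028003781)))) 
(.lf (nat_lit 5704302701) (dlOf (nat_lit 1) (nat_lit 0x20028050181)))))) (.nd (nat_lit 29) 
(.nd (nat_lit 5) (.nd (nat_lit 7) 
(.lf (nat_lit 470597645) (dlOf (nat_lit 12) (nat_lit 0xc1238006090c003c478001c237000e0e680050714002c382000c171000a6880b6111b85a107140029808001038a001450200542470025121800888f0004446e00221cd002a0e28010870400542e200143100054094000a04880028204002760c00481280013902001e247000e121800788f0004046e000c1f700100e6800687140010382000c1bb00060b880058250007012200160070006c8d001404a000360085a808dc04ac38a000d7040028237000d0b88003581000c891c004c48600121f700020e6800c87140034382001817100066878130480))) 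
(.nd (nat_lit 18) 
(.lf (nat_lit 470335629) (dlOf (nat_lit 2) (nat_lit 0x3055000080000003b04000a00180c0101))) 
(.lf (nat_lit 471646349) (dlOf (nat_lit 2) (nat_lit 0x10e1610007c018370480))))) (.nd (nat_lit 22) 
(.lf (nat_lit 3557343277) (dlOf (nat_lit 1) (nat_lit 0x18002000a00081c0682))) 
(.lf (nat_lit 474529837) (dlOf (nat_lit 1) (nat_lit 0x40004004800091a0282))))) (.nd (nat_lit 5) 
(.nd (nat_lit 6) 
(.lf (nat_lit 3154690061) (dlOf (nat_lit 5) (nat_lit 0x1180b0007fc0405f0058003fd02009002c001fd0100010160000000801a8008004000200c80008310003))) 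
(.nd (nat_lit 7) 
(.lf (nat_lit 3154690125) (dlOf (nat_lit 25) (nat_lit 0xe002c0006e81003101600036c0836600b00016a040218058000b402009e02c00059810de30160007001c00164081ec4058000b1020700063061f02f82ad016019a00ae0ad2053027202480a9810001f40780d2c037055801b026c80c00e9405a075202b005d013809500941a940320d3201805e20098018003c1a280140cd4009052e00082ba8000001125c00240c60046058066902b832780dc148406c05d402d066400c835e8060004401e0c8a00a061a0048175000413b0000000881a00ec0180004381014003182f7817c149c0b00cf4057054c029812881240034080006603c068d01b82a580d811fc06006e002d03a9015801b809c1adc0320d12018053c00983410028196c0120a0e0010548000000218a8165018c15ac0be0996058067d02b8026814c00a0092013a040001401e032180dc131806c068003002f9016818480ac003c04e0d9401906cc00c028d004c19700140c820090453000828480000010a54014c0300008402022e0180004181001200c8001e40802f80b00001e0401380580000e02026802c0000681003f016000030081dc80b00001604000c0580000902000c02c000028100380160000100806d00b000000040330002005c0008310182)))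 
(.lf (nat_lit 3154690253) (dlOf (nat_lit 7) (nat_lit 0x14405800a9702000802c0054601002b016002a080800080b00150204003405800a8002000601600514018310480))))) 
(.nd (nat_lit 6) 
(.lf (nat_lit 4228431917) (dlOf (nat_lit 2) (nat_lit 0x680000000280400b0002005e00080c0d82))) 
(.lf (nat_lit 3154690157) (dlOf (nat_lit 1) (nat_lit 0x60018310481))))))) (.nd (nat_lit 27) 
(.nd (nat_lit 5) (.nd (nat_lit 6) (.nd (nat_lit 7) 
(.lf (nat_lit 4094741261) (dlOf (nat_lit 9) (nat_lit 0x308b0000c8080010458002820e000310400041160001801000208b0000bc0800084580005c04000422c0002d0200081160001601000208b000060080020008002c00200080008055b03))) 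
(.lf (nat_lit 4095263117) (dlOf (nat_lit 1) (nat_lit 0x2f400200120008085d82)))) (.nd (nat_lit 7) 
(.lf (nat_lit 1409342285) (dlOf (nat_lit 2) (nat_lit 0x480a400ada020002002800bc81))) 
(.nd (nat_lit 9) (.lf (nat_lit 3019948493) (dlOf (nat_lit 1) (nat_lit 0x400400020008081102))) 
(.lf (nat_lit 5704305613) (dlOf (nat_lit 1) (nat_lit 0x13800200020008055d82)))))) (.nd (nat_lit 7) 
(.nd (nat_lit 6) (.nd (nat_lit 9) 
(.lf (nat_lit 1409597741) (dlOf (nat_lit 2) (nat_lit 0x406600017818047a00))) 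
(.lf (nat_lit 4094741293) (dlOf (nat_lit 1) (nat_lit 0x50008001800200080008055c03)))) 
(.lf (nat_lit 5704305517) (dlOf (nat_lit 1) (nat_lit 0x8008000400200020008055c03)))) 
(.nd (nat_lit 11) (.lf (nat_lit 1409860013) (dlOf (nat_lit 1) (nat_lit 0x220028090781))) 
(.lf (nat_lit 3556821421) (dlOf (nat_lit 1) (nat_lit 0x40028084e81)))))) (.nd (nat_lit 11) 
(.nd (nat_lit 6) (.nd (nat_lit 5) 
(.lf (nat_lit 3154690317) (dlOf (nat_lit 2) (nat_lit 0x3a02c0023d818310700))) 
(.lf (nat_lit 5838782765) (dlOf (nat_lit 2) (nat_lit 0x402a000210181b0500)))) (.nd (nat_lit 20) 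
(.nd (nat_lit 29) (.lf (nat_lit 471908685) (dlOf (nat_lit 1) (nat_lit 0x1c00186b0781))) 
(.lf (nat_lit 1008779597) (dlOf (nat_lit 1) (nat_lit 0xa0008f78901)))) 
(.lf (nat_lit 6376440141) (dlOf (nat_lit 1) (nat_lit 0x680080024002002a0008090d03))))) 
(.nd (nat_lit 19) (.nd (nat_lit 5) (.nd (nat_lit 6) 
(.lf (nat_lit 3154168205) (dlOf (nat_lit 1) (nat_lit 0x220018084e81))) 
(.lf (nat_lit 4227914573) (dlOf (nat_lit 6) (nat_lit 0x2902680150130006008004960320057d840003019002b7008073015001d00a6014004b009101f804000f800a806400e00160056d0700b70190025940807280c8000000400200040034001800bc82)))) 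
(.lf (nat_lit 3154168237) (dlOf (nat_lit 1) (nat_lit 0x60028084e81)))) (.nd (nat_lit 18) 
(.lf (nat_lit 6376966541) (dlOf (nat_lit 1) (nat_lit 0x3400200200008094e82))) 
(.lf (nat_lit 472697229) (dlOf (nat_lit 1) (nat_lit 0x400400020018a44e82)))))))))) (.nd (nat_lit 6) 
(.nd (nat_lit 18) (.nd (nat_lit 19) (.nd (nat_lit 5) (.nd (nat_lit 26) (.nd (nat_lit 9) 
(.nd (nat_lit 21) (.nd (nat_lit 25) 
(.lf (nat_lit 13680669) (dlOf (nat_lit 2) (nat_lit 0x15738a80068c080008008000c00200040008740483))) 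
(.lf (nat_lit 47235101) (dlOf (nat_lit 3) (nat_lit 0xb5fb000af810002afd8004f4080070008000c002001400093c0083)))) 
(.nd (nat_lit 20) 
(.lf (nat_lit 1881194525) (dlOf (nat_lit 2) (nat_lit 0x103c8000000800080080014002000a0008e40103))) 
(.lf (nat_lit 28360733) (dlOf (nat_lit 1) (nat_lit 0x8008000400200020008d90683))))) 
(.nd (nat_lit 7) (.nd (nat_lit 8) 
(.lf (nat_lit 2684404253) (dlOf (nat_lit 1) (nat_lit 0x400200020008001482))) 
(.lf (nat_lit 5234543389) (dlOf (nat_lit 1) (nat_lit 0x20018055c01)))) 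
(.lf (nat_lit 19977885) (dlOf (nat_lit 1) (nat_lit 0x80080018002000600089d9f83))))) 
(.nd (nat_lit 8) (.nd (nat_lit 9) 
(.lf (nat_lit 4898996253) (dlOf (nat_lit 1) (nat_lit 0x60028050001))) (.nd (nat_lit 10) 
(.lf (nat_lit 6643827229) (dlOf (nat_lit 1) (nat_lit 0xc00400080008001482))) 
(.lf (nat_lit 6375392797) (dlOf (nat_lit 1) (nat_lit 0x800800e0002001a0008003703))))) 
(.nd (nat_lit 7) 
(.lf (nat_lit 5704305437) (dlOf (nat_lit 2) (nat_lit 0x4032001540200020028055c01))) 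
(.nd (nat_lit 10) 
(.lf (nat_lit 6643831709) (dlOf (nat_lit 1) (nat_lit 0x10008003c00200240008009103))) 
(.lf (nat_lit 2751514525) (dlOf (nat_lit 2) (nat_lit 0x240800001a0200020008004281))))))) 
(.nd (nat_lit 10) (.nd (nat_lit 7) (.nd (nat_lit 8) 
(.lf (nat_lit 5771411517) (dlOf (nat_lit 1) (nat_lit 0xb20018000001))) (.nd (nat_lit 21) 
(.lf (nat_lit 474005821) (dlOf (nat_lit 11) (nat_lit 0x50030000fc0800400180007a04000800c0003502000c0060001a0100080030000a80800300180004004002400c0001e02000c006000060100070030000240800300180000004001000200040009000b82))) 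
(.lf (nat_lit 10535229) (dlOf (nat_lit 1) (nat_lit 0x200285f8501))))) (.nd (nat_lit 8) 
(.nd (nat_lit 11) (.lf (nat_lit 19976893) (dlOf (nat_lit 1) (nat_lit 0x4002000200089d8c82))) 
(.lf (nat_lit 5167434429) (dlOf (nat_lit 2) (nat_lit 0x1401c000160200060018055781)))) 
(.lf (nat_lit 4227914685) (dlOf (nat_lit 5) (nat_lit 0x404d0010c0100e40190008500811400c8004100408b40640020002003e002800be01))))) 
(.nd (nat_lit 26) (.nd (nat_lit 7) (.lf (nat_lit 51005) (dlOf (nat_lit 1) (nat_lit 0x20018003e01))) 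
(.nd (nat_lit 27) (.lf (nat_lit 5100324285) (dlOf (nat_lit 1) (nat_lit 0xc400201480008053602))) 
(.lf (nat_lit 6308283837) (dlOf (nat_lit 1) (nat_lit 0xe000201240008053602))))) (.nd (nat_lit 7) 
(.lf (nat_lit 3288386877) (dlOf (nat_lit 1) (nat_lit 0xa0008006901))) (.nd (nat_lit 30) 
(.lf (nat_lit 4496344509) (dlOf (nat_lit 1) (nat_lit 0x50008003800200040008053603))) 
(.lf (nat_lit 5570086333) (dlOf (nat_lit 1) (nat_lit 0xc800800c800200d20008053603)))))))) 
(.nd (nat_lit 28) (.nd (nat_lit 20) (.nd (nat_lit 22) (.nd (nat_lit 26) (.nd (nat_lit 21) 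
(.lf (nat_lit 3221798941) (dlOf (nat_lit 1) (nat_lit 0x37800200160008190982))) 
(.lf (nat_lit 19447837) (dlOf (nat_lit 1) (nat_lit 0x200189a0c81)))) (.nd (nat_lit 27) 
(.nd (nat_lit 29) 
(.lf (nat_lit 4362649629) (dlOf (nat_lit 2) (nat_lit 0x1560198000700804280080060002008800080c0583))) 
(.lf (nat_lit 1678295069) (dlOf (nat_lit 1) (nat_lit 0x400080008002000200081d0583)))) 
(.lf (nat_lit 3959996445) (dlOf (nat_lit 1) (nat_lit 0x37800200160008190982))))) (.nd (nat_lit 7) 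
(.nd (nat_lit 24) (.lf (nat_lit 13156381) (dlOf (nat_lit 1) (nat_lit 0x20008700981))) 
(.lf (nat_lit 29933597) (dlOf (nat_lit 1) (nat_lit 0x40018e30001)))) 
(.lf (nat_lit 57199005) (dlOf (nat_lit 1) (nat_lit 0x400400020009794e82))))) (.nd (nat_lit 26) 
(.nd (nat_lit 7) (.nd (nat_lit 22) 
(.lf (nat_lit 3719197) (dlOf (nat_lit 1) (nat_lit 0x10008000c00200040008220a03))) 
(.lf (nat_lit 24690717) (dlOf (nat_lit 1) (nat_lit 0x240018bb0581)))) 
(.lf (nat_lit 39371933) (dlOf (nat_lit 1) (nat_lit 0x13000200080009192b82)))) (.nd (nat_lit 5) 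
(.nd (nat_lit 21) 
(.lf (nat_lit 2753085469) (dlOf (nat_lit 2) (nat_lit 0x14420016770200060018080501))) 
(.lf (nat_lit 2755182621) (dlOf (nat_lit 3) (nat_lit 0x18020000fd0100090330004018400400bc001205c000902b800b8100002805e001c022000100e80058058003f0280054004000a0018120902)))) 
(.lf (nat_lit 2755182653) (dlOf (nat_lit 3) (nat_lit 0x20078002d00401380d00058063004d021000300a40154046009801e001f00b8005583802300080130002000c0008120d03)))))) 
(.nd (nat_lit 5) (.nd (nat_lit 26) (.nd (nat_lit 7) (.nd (nat_lit 21) 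
(.lf (nat_lit 3491282973) (dlOf (nat_lit 2) (nat_lit 0x143f6015080200060018080501))) 
(.lf (nat_lit 3493380125) (dlOf (nat_lit 3) (nat_lit 0x18020000f40100090330004018400400bc001205c000902b800b8100002805e001c022000100e80058058003cc280054004000a0018120902)))) 
(.lf (nat_lit 1344849053) (dlOf (nat_lit 2) (nat_lit 0xc160000604e000220100018008000400200100008982b83)))) 
(.nd (nat_lit 31) (.nd (nat_lit 22) 
(.lf (nat_lit 470335517) (dlOf (nat_lit 1) (nat_lit 0x80080004002000200080c0003))) 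
(.lf (nat_lit 474529821) (dlOf (nat_lit 9) (nat_lit 0xbd0258060410a02ee075017c039803f8068000941404e812c0286085014303a80a001cc03f4034000430a0290096015004280a701d405280e6021c01a0002085001504e003a02340024118008607d000903e001901c800b8056001200f0001f8800070468000f4080578258014c11a000807d00900398000ec2000c025800140e60003a0400040960001c8191a0100)))) 
(.nd (nat_lit 8) 
(.lf (nat_lit 3557343261) (dlOf (nat_lit 2) (nat_lit 0x3301c0000d40800880080020002003e00081c0583))) 
(.lf (nat_lit 3154690333) (dlOf (nat_lit 2) (nat_lit 0x802c0023d818310700)))))) (.nd (nat_lit 8) 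
(.nd (nat_lit 21) (.nd (nat_lit 7) 
(.lf (nat_lit 474529853) (dlOf (nat_lit 2) (nat_lit 0xa80e800520730011e0291a0600))) 
(.lf (nat_lit 1342750909) (dlOf (nat_lit 3) (nat_lit 0x7048e00061c50001902000e1238000c408003800800dc002000c00080c0383)))) 
(.nd (nat_lit 20) (.lf (nat_lit 3492331581) (dlOf (nat_lit 1) (nat_lit 0x1200080c1401))) 
(.lf (nat_lit 3493380157) (dlOf (nat_lit 3) (nat_lit 0x20078002d00401380d00058063004d021000300a40154046009801e001f00b8005583802300080130002000c0008120d03))))) 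
(.nd (nat_lit 26) (.lf (nat_lit 1342751037) (dlOf (nat_lit 1) (nat_lit 0x4004000200180c0582))) 
(.lf (nat_lit 470335805) (dlOf (nat_lit 1) (nat_lit 0x4004000200180c0582)))))))) (.nd (nat_lit 29) 
(.nd (nat_lit 19) (.nd (nat_lit 5) (.nd (nat_lit 30) (.nd (nat_lit 20) (.nd (nat_lit 9) 
(.lf (nat_lit 2214903837) (dlOf (nat_lit 1) (nat_lit 0x920008110481))) 
(.lf (nat_lit 21283357) (dlOf (nat_lit 1) (nat_lit 0x400400020008a37f02)))) (.nd (nat_lit 21) 
(.lf (nat_lit 26525725) (dlOf (nat_lit 1) (nat_lit 0xc80018c50101))) 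
(.lf (nat_lit 62177309) (dlOf (nat_lit 1) (nat_lit 0x40019970581))))) (.nd (nat_lit 26) 
(.nd (nat_lit 27) (.lf (nat_lit 1074053149) (dlOf (nat_lit 1) (nat_lit 0x800400020008090002))) 
(.lf (nat_lit 1208270877) (dlOf (nat_lit 2) (nat_lit 0x7004a0003b02000e00180b0101)))) 
(.nd (nat_lit 27) 
(.lf (nat_lit 3288645661) (dlOf (nat_lit 2) (nat_lit 0x801b0063c0080070008000c002006c00080a0903))) 
(.lf (nat_lit 3422863389) (dlOf (nat_lit 2) (nat_lit 0x3e8000003e6040004004004e0008130482)))))) 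
(.nd (nat_lit 7) (.nd (nat_lit 8) (.nd (nat_lit 20) 
(.lf (nat_lit 2483339325) (dlOf (nat_lit 1) (nat_lit 0x60008002c002000a00080c1403))) 
(.lf (nat_lit 24428605) (dlOf (nat_lit 1) (nat_lit 0x8008000400200020008ba0c03)))) 
(.lf (nat_lit 20237629) (dlOf (nat_lit 1) (nat_lit 0x5a00289d6901)))) (.nd (nat_lit 26) 
(.lf (nat_lit 6442762429) (dlOf (nat_lit 2) (nat_lit 0x480b80005804016c002000a00081b0382))) 
(.lf (nat_lit 5838782653) (dlOf (nat_lit 1) (nat_lit 0x4004001800081b0382)))))) (.nd (nat_lit 20) 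
(.nd (nat_lit 21) (.nd (nat_lit 5) (.nd (nat_lit 22) 
(.lf (nat_lit 42778653) (dlOf (nat_lit 2) (nat_lit 0xaa00000000019280100))) 
(.lf (nat_lit 21807133) (dlOf (nat_lit 1) (nat_lit 0x8008000400200020008a70483)))) (.nd (nat_lit 8) 
(.lf (nat_lit 42778685) (dlOf (nat_lit 1) (nat_lit 0x300029280601))) 
(.lf (nat_lit 51167549) (dlOf (nat_lit 2) (nat_lit 0xcaca0007b0200040019507c81))))) 
(.nd (nat_lit 7) (.nd (nat_lit 23) 
(.lf (nat_lit 3492593693) (dlOf (nat_lit 4) (nat_lit 0x2787f00046e0404a83f801621e70011302004a0fe00087c0800080080004002000c00080e0483))) 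
(.lf (nat_lit 11321373) (dlOf (nat_lit 1) (nat_lit 0xc00400020008690482)))) 
(.lf (nat_lit 36489885) (dlOf (nat_lit 1) (nat_lit 0x20019075581))))) (.nd (nat_lit 5) 
(.nd (nat_lit 7) (.nd (nat_lit 21) 
(.lf (nat_lit 10272797) (dlOf (nat_lit 2) (nat_lit 0x1588ec001180185c0900))) 
(.lf (nat_lit 1346158621) (dlOf (nat_lit 2) (nat_lit 0xb7050c054019a0002f0400020018e60101)))) 
(.nd (nat_lit 9) (.lf (nat_lit 35441053) (dlOf (nat_lit 1) (nat_lit 0x400200020009014e82))) 
(.lf (nat_lit 8181661) (dlOf (nat_lit 1) (nat_lit 0x2001851a301))))) (.nd (nat_lit 22) 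
(.lf (nat_lit 10272829) (dlOf (nat_lit 2) (nat_lit 0x5e8970009d8185c0d00))) 
(.lf (nat_lit 22855741) (dlOf (nat_lit 1) (nat_lit 0x400200020008b30e02))))))) (.nd (nat_lit 26) 
(.nd (nat_lit 5) (.nd (nat_lit 27) (.nd (nat_lit 30) 
(.lf (nat_lit 805617693) (dlOf (nat_lit 3) (nat_lit 0x6204c0000f810027026000078080020008001400200260008140b83))) 
(.lf (nat_lit 4026843165) (dlOf (nat_lit 2) (nat_lit 0x801b007150080070008000c002006c00080a0903)))) 
(.nd (nat_lit 31) (.nd (nat_lit 32) 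
(.lf (nat_lit 1745141789) (dlOf (nat_lit 10) (nat_lit 0x500e40028068001a026000300d8003005c00094140100072007c03400410130018805c009802c000430a007e039003d01a0020009800480360042017003400b0001043000500e40038068000401b0001d83000101a0000e80800e00d00007204002407200038020006017000098100050130000480801980080010002000200080b0103))) 
(.lf (nat_lit 6040109085) (dlOf (nat_lit 2) (nat_lit 0x4000000298180f0500)))) 
(.lf (nat_lit 3892625437) (dlOf (nat_lit 1) (nat_lit 0x1140008170501))))) (.nd (nat_lit 27) 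
(.nd (nat_lit 8) 
(.lf (nat_lit 2684665917) (dlOf (nat_lit 2) (nat_lit 0x30072000000200020028130e01))) 
(.lf (nat_lit 537182525) (dlOf (nat_lit 2) (nat_lit 0xe02700033018048500)))) (.nd (nat_lit 28) 
(.lf (nat_lit 671400253) (dlOf (nat_lit 2) (nat_lit 0xc80000005002000a0018188501))) 
(.lf (nat_lit 3087319357) (dlOf (nat_lit 1) (nat_lit 0x40028188501)))))) (.nd (nat_lit 28) 
(.nd (nat_lit 7) (.nd (nat_lit 19) 
(.lf (nat_lit 1678032925) (dlOf (nat_lit 3) (nat_lit 0x6204c0000f810027026000078080020008001400200260008140b83))) 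
(.lf (nat_lit 2754396189) (dlOf (nat_lit 4) (nat_lit 0x2788440046e0404a842201621f90011302004a10880088c0800080080004002000c00080e0483)))) 
(.lf (nat_lit 2751776669) (dlOf (nat_lit 1) (nat_lit 0x400400020008004282)))) (.nd (nat_lit 5) 
(.nd (nat_lit 27) 
(.lf (nat_lit 872726557) (dlOf (nat_lit 10) (nat_lit 0x500e40028068001a026000300d8003005c00094140100072007c03400410130018805c009802c000430a007e039003d01a0020009800480360042017003400b0001043000500e40038068000401b0001d83000101a0000e80800e00d00007204002407200038020006017000098100050130000480801980080010002000200080b0103))) 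
(.lf (nat_lit 2080686109) (dlOf (nat_lit 2) (nat_lit 0x7004a0003b02000e00180b0101)))) 
(.nd (nat_lit 19) 
(.lf (nat_lit 5167693885) (dlOf (nat_lit 4) (nat_lit 0xe014000d0020001000c00a800c000c028001400400020018014fc18006001000a7a0400dc00400360018111682))) 
(.lf (nat_lit 4096573501) (dlOf (nat_lit 1) (nat_lit 0x400400020008131682))))))))) 
(.nd (nat_lit 30) (.nd (nat_lit 8) (.nd (nat_lit 18) (.nd (nat_lit 21) (.nd (nat_lit 11) 
(.nd (nat_lit 19) (.lf (nat_lit 16826461) (dlOf (nat_lit 1) (nat_lit 0x1400288e0401))) 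
(.lf (nat_lit 3154690141) (dlOf (nat_lit 1) (nat_lit 0x800200240008310402)))) (.nd (nat_lit 5) 
(.lf (nat_lit 2885734109) (dlOf (nat_lit 1) (nat_lit 0x40008003c002006e0008007383))) 
(.lf (nat_lit 6509611133) (dlOf (nat_lit 1) (nat_lit 0x800200020008004782))))) (.nd (nat_lit 5) 
(.nd (nat_lit 9) (.nd (nat_lit 19) 
(.lf (nat_lit 10535005) (dlOf (nat_lit 1) (nat_lit 0x80080004002000200085f1903))) 
(.lf (nat_lit 33079389) (dlOf (nat_lit 1) (nat_lit 0xc0028f50081)))) 
(.lf (nat_lit 69257821) (dlOf (nat_lit 2) (nat_lit 0x5e07900012818905300)))) (.nd (nat_lit 7) 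
(.lf (nat_lit 18923645) (dlOf (nat_lit 1) (nat_lit 0x10008000400200020008970483))) 
(.lf (nat_lit 19972349) (dlOf (nat_lit 1) (nat_lit 0x4002000200089d0a82)))))) (.nd (nat_lit 20) 
(.nd (nat_lit 5) (.nd (nat_lit 19) 
(.lf (nat_lit 872726621) (dlOf (nat_lit 2) (nat_lit 0xb406c0070902000400280b0781))) 
(.lf (nat_lit 42778717) (dlOf (nat_lit 4) (nat_lit 0x40000001d0200a60000000e0100030000000600800480080030002002c0009280883)))) 
(.nd (nat_lit 9) (.lf (nat_lit 313469) (dlOf (nat_lit 1) (nat_lit 0x20028004781))) 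
(.lf (nat_lit 5234804349) (dlOf (nat_lit 1) (nat_lit 0x200280d3981))))) (.nd (nat_lit 19) 
(.nd (nat_lit 21) (.lf (nat_lit 9748573) (dlOf (nat_lit 1) (nat_lit 0x10002000e0008580702))) 
(.lf (nat_lit 37011549) (dlOf (nat_lit 1) (nat_lit 0x400200040009081982)))) (.nd (nat_lit 5) 
(.lf (nat_lit 8180445) (dlOf (nat_lit 1) (nat_lit 0x400200020008518c82))) 
(.lf (nat_lit 2753347709) (dlOf (nat_lit 2) (nat_lit 0xbc10e001520200020028090081))))))) 
(.nd (nat_lit 5) (.nd (nat_lit 7) (.nd (nat_lit 18) (.nd (nat_lit 11) 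
(.lf (nat_lit 3195229) (dlOf (nat_lit 2) (nat_lit 0x212fc000ac04000c00200080008200682))) 
(.lf (nat_lit 4831889757) (dlOf (nat_lit 1) (nat_lit 0x400200020008054e82)))) (.nd (nat_lit 22) 
(.lf (nat_lit 537182557) (dlOf (nat_lit 2) (nat_lit 0x20170000d004001c00400160008048d02))) 
(.lf (nat_lit 21283165) (dlOf (nat_lit 1) (nat_lit 0x60018a34e81))))) (.nd (nat_lit 11) 
(.nd (nat_lit 10) (.lf (nat_lit 4630561757) (dlOf (nat_lit 1) (nat_lit 0x1000400020008002882))) 
(.lf (nat_lit 4362131421) (dlOf (nat_lit 2) (nat_lit 0x220033002a881800a600)))) (.nd (nat_lit 9) 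
(.lf (nat_lit 4831889885) (dlOf (nat_lit 1) (nat_lit 0x20018054e81))) 
(.lf (nat_lit 6710938589) (dlOf (nat_lit 1) (nat_lit 0x400400020008005e02)))))) (.nd (nat_lit 11) 
(.nd (nat_lit 12) (.nd (nat_lit 27) 
(.lf (nat_lit 2751514493) (dlOf (nat_lit 1) (nat_lit 0x20028004101))) 
(.lf (nat_lit 201377661) (dlOf (nat_lit 1) (nat_lit 0x20018004101)))) (.nd (nat_lit 18) 
(.lf (nat_lit 8443773) (dlOf (nat_lit 1) (nat_lit 0x480080010002000a000851a303))) 
(.lf (nat_lit 8181629) (dlOf (nat_lit 1) (nat_lit 0x80020002000851a302))))) (.nd (nat_lit 7) 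
(.nd (nat_lit 10) (.lf (nat_lit 6710937981) (dlOf (nat_lit 1) (nat_lit 0x400400020008004e82))) 
(.lf (nat_lit 2483084669) (dlOf (nat_lit 1) (nat_lit 0x40040002001800c902)))) (.nd (nat_lit 9) 
(.lf (nat_lit 134270461) (dlOf (nat_lit 1) (nat_lit 0x20008006f81))) 
(.lf (nat_lit 5301652477) (dlOf (nat_lit 1) (nat_lit 0x1e0018005f01)))))))) (.nd (nat_lit 26) 
(.nd (nat_lit 5) (.nd (nat_lit 8) (.nd (nat_lit 18) (.nd (nat_lit 19) 
(.lf (nat_lit 6174064733) (dlOf (nat_lit 1) (nat_lit 0x400400020008050082))) 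
(.lf (nat_lit 1343799389) (dlOf (nat_lit 1) (nat_lit 0x80028370401)))) (.nd (nat_lit 19) 
(.nd (nat_lit 27) (.lf (nat_lit 4026843229) (dlOf (nat_lit 2) (nat_lit 0xb000f0000c0180a1200))) 
(.lf (nat_lit 1745141853) (dlOf (nat_lit 2) (nat_lit 0xb406c00cb602000400280b0781)))) 
(.lf (nat_lit 1346158685) (dlOf (nat_lit 4) (nat_lit 0x5b029800e014b016e06b80002c18085053004281ae0000904021614c010a06b80000010062000800b800203440008e60883))))) 
(.nd (nat_lit 31) (.nd (nat_lit 9) 
(.lf (nat_lit 1346421085) (dlOf (nat_lit 1) (nat_lit 0x10008002000200020008f60e03))) 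
(.lf (nat_lit 5771414365) (dlOf (nat_lit 1) (nat_lit 0x960018005c01)))) (.nd (nat_lit 12) 
(.lf (nat_lit 3489974621) (dlOf (nat_lit 1) (nat_lit 0x18008001400200080008004e83))) 
(.lf (nat_lit 4026587485) (dlOf (nat_lit 1) (nat_lit 0x400020006000800ab82)))))) (.nd (nat_lit 10) 
(.nd (nat_lit 11) (.nd (nat_lit 7) 
(.lf (nat_lit 1074053245) (dlOf (nat_lit 1) (nat_lit 0xc0028090081))) 
(.lf (nat_lit 5905891837) (dlOf (nat_lit 1) (nat_lit 0x20018157e01)))) (.nd (nat_lit 27) 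
(.lf (nat_lit 3221276797) (dlOf (nat_lit 1) (nat_lit 0xb80008004781))) 
(.lf (nat_lit 3623929981) (dlOf (nat_lit 1) (nat_lit 0x6000800ac00200400008004783))))) 
(.nd (nat_lit 8) (.nd (nat_lit 29) 
(.lf (nat_lit 3355497597) (dlOf (nat_lit 1) (nat_lit 0x400200020008009502))) 
(.lf (nat_lit 6039852157) (dlOf (nat_lit 2) (nat_lit 0x5010000754080020008000800200040008009503)))) 
(.lf (nat_lit 3892364669) (dlOf (nat_lit 1) (nat_lit 0x400400160018083582)))))) (.nd (nat_lit 5) 
(.nd (nat_lit 9) (.nd (nat_lit 18) (.nd (nat_lit 10) 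
(.lf (nat_lit 5704302685) (dlOf (nat_lit 1) (nat_lit 0x8008000800200020008050083))) 
(.lf (nat_lit 4093690973) (dlOf (nat_lit 1) (nat_lit 0x1b60018002901)))) (.nd (nat_lit 12) 
(.lf (nat_lit 3288645725) (dlOf (nat_lit 2) (nat_lit 0xb000f000170180a1200))) 
(.lf (nat_lit 3557085277) (dlOf (nat_lit 1) (nat_lit 0xc00200020008127d82))))) (.nd (nat_lit 7) 
(.nd (nat_lit 21) (.lf (nat_lit 6106957405) (dlOf (nat_lit 1) (nat_lit 0x400400020008003902))) 
(.lf (nat_lit 4095788637) (dlOf (nat_lit 1) (nat_lit 0x2200180e3901)))) (.nd (nat_lit 8) 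
(.lf (nat_lit 4093692637) (dlOf (nat_lit 1) (nat_lit 0x8008000400200020008005903))) 
(.lf (nat_lit 6106956765) (dlOf (nat_lit 1) (nat_lit 0x800400080018002882)))))) (.nd (nat_lit 8) 
(.nd (nat_lit 10) (.nd (nat_lit 18) 
(.lf (nat_lit 5704302717) (dlOf (nat_lit 1) (nat_lit 0x20028050281))) 
(.lf (nat_lit 1946468477) (dlOf (nat_lit 1) (nat_lit 0xc0028090081)))) 
(.lf (nat_lit 3422606461) (dlOf (nat_lit 1) (nat_lit 0x400200020008009502)))) (.nd (nat_lit 10) 
(.nd (nat_lit 7) 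
(.lf (nat_lit 3288385917) (dlOf (nat_lit 1) (nat_lit 0x48008003c002008a0008004e83))) 
(.lf (nat_lit 3959734781) (dlOf (nat_lit 4) (nat_lit 0xba007005c003002040000002206017400e00020000000701005480380003604002c004001a0008127e02)))) 
(.nd (nat_lit 11) (.lf (nat_lit 6375392637) (dlOf (nat_lit 1) (nat_lit 0x400400020008003582))) 
(.lf (nat_lit 1409342845) (dlOf (nat_lit 1) (nat_lit 0x2a002800c901))))))))))))

end

end Pool.Agent.Lib.MP_5854e1_co.Cz

namespace Pool.Agent.Lib.MP_5854e1_co.Cz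

noncomputable section

noncomputable def tz84 : DT := (.nd (nat_lit 4) (.nd (nat_lit 2) (.nd (nat_lit 5) (.nd (nat_lit 18) 
(.nd (nat_lit 6) (.nd (nat_lit 28) (.nd (nat_lit 20) (.nd (nat_lit 30) (.nd (nat_lit 22) 
(.nd (nat_lit 21) 
(.lf (nat_lit 4362715136) (dlOf (nat_lit 1) (nat_lit 0x20008000c002001a00080e0003))) 
(.lf (nat_lit 27901952) (dlOf (nat_lit 1) (nat_lit 0x48008000c002000c0008d40003)))) 
(.nd (nat_lit 8) 
(.lf (nat_lit 21610496) (dlOf (nat_lit 3) (nat_lit 0x17af401734020003d7a00b99018a50000))) 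
(.lf (nat_lit 46776576) (dlOf (nat_lit 1) (nat_lit 0x20019380a81))))) (.nd (nat_lit 8) 
(.nd (nat_lit 19) (.lf (nat_lit 3355557888) (dlOf (nat_lit 1) (nat_lit 0x7c00180a0001))) 
(.lf (nat_lit 3892953088) (dlOf (nat_lit 3) (nat_lit 0xc02800e0e020006000006510182a0000)))) 
(.lf (nat_lit 5972805376) (dlOf (nat_lit 1) (nat_lit 0x20028143b81))))) (.nd (nat_lit 8) 
(.nd (nat_lit 22) (.nd (nat_lit 7) 
(.lf (nat_lit 54116352) (dlOf (nat_lit 1) (nat_lit 0xa0019620001))) 
(.lf (nat_lit 2753151104) (dlOf (nat_lit 1) (nat_lit 0x5800400700008090082)))) (.nd (nat_lit 9) 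
(.lf (nat_lit 16367616) (dlOf (nat_lit 2) (nat_lit 0xe56b00328018890000))) 
(.lf (nat_lit 33147392) (dlOf (nat_lit 1) (nat_lit 0x5400400200018f54f82))))) (.nd (nat_lit 7) 
(.nd (nat_lit 19) (.lf (nat_lit 59883776) (dlOf (nat_lit 1) (nat_lit 0x400400020009840a82))) 
(.lf (nat_lit 20562176) (dlOf (nat_lit 1) (nat_lit 0x4002000200089d0a82)))) 
(.lf (nat_lit 7985024) (dlOf (nat_lit 1) (nat_lit 0x800800040020002000851a303)))))) 
(.nd (nat_lit 19) (.nd (nat_lit 9) (.nd (nat_lit 26) (.nd (nat_lit 27) 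
(.lf (nat_lit 4563517440) (dlOf (nat_lit 1) (nat_lit 0x1380080040002006e0008090003))) 
(.lf (nat_lit 4697735168) (dlOf (nat_lit 1) (nat_lit 0x1380080040002006e0008090003)))) 
(.lf (nat_lit 2617360384) (dlOf (nat_lit 1) (nat_lit 0x7c00180a0001)))) (.nd (nat_lit 7) 
(.nd (nat_lit 8) (.lf (nat_lit 4026647040) (dlOf (nat_lit 1) (nat_lit 0x80018017e81))) 
(.lf (nat_lit 939640576) (dlOf (nat_lit 1) (nat_lit 0x40028143b81)))) 
(.lf (nat_lit 4563520384) (dlOf (nat_lit 1) (nat_lit 0x20028095c01))))) (.nd (nat_lit 8) 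
(.nd (nat_lit 7) (.nd (nat_lit 20) 
(.lf (nat_lit 4228497408) (dlOf (nat_lit 1) (nat_lit 0x20008000c002001a00080e0003))) 
(.lf (nat_lit 471449600) (dlOf (nat_lit 1) (nat_lit 0x100018300001)))) 
(.lf (nat_lit 3491348608) (dlOf (nat_lit 1) (nat_lit 0x5800400700008090082)))) (.nd (nat_lit 7) 
(.nd (nat_lit 20) (.lf (nat_lit 5774098688) (dlOf (nat_lit 2) (nat_lit 0x80280001f8180f2a00))) 
(.lf (nat_lit 473547008) (dlOf (nat_lit 1) (nat_lit 0x680080098002000c0008f62a03)))) 
(.lf (nat_lit 3491348864) (dlOf (nat_lit 1) (nat_lit 0x20018090781))))))) (.nd (nat_lit 7) 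
(.nd (nat_lit 31) (.nd (nat_lit 10) (.nd (nat_lit 20) (.nd (nat_lit 19) 
(.lf (nat_lit 10600512) (dlOf (nat_lit 1) (nat_lit 0x80008002c002000c0008600d83))) 
(.lf (nat_lit 21610560) (dlOf (nat_lit 3) (nat_lit 0x2d3b540121da80001ed300017678015cc1002d7b54011bda80002ecf002b9418067800814a0002033c0008a51683)))) 
(.nd (nat_lit 22) (.lf (nat_lit 17940544) (dlOf (nat_lit 1) (nat_lit 0x100018900d81))) 
(.lf (nat_lit 13746240) (dlOf (nat_lit 1) (nat_lit 0x400400020008750002))))) (.nd (nat_lit 9) 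
(.lf (nat_lit 1677837376) (dlOf (nat_lit 1) (nat_lit 0x800400040018112882))) 
(.lf (nat_lit 4697736768) (dlOf (nat_lit 1) (nat_lit 0x20028093801))))) (.nd (nat_lit 26) 
(.nd (nat_lit 30) (.nd (nat_lit 27) 
(.lf (nat_lit 2416033856) (dlOf (nat_lit 3) (nat_lit 0x940480002302008202400010018020780))) 
(.lf (nat_lit 2550251584) (dlOf (nat_lit 3) (nat_lit 0x9404c0002302008202600010018020780)))) 
(.nd (nat_lit 8) 
(.lf (nat_lit 3221864512) (dlOf (nat_lit 1) (nat_lit 0x200080074002008a00081a1403))) 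
(.lf (nat_lit 3492923200) (dlOf (nat_lit 3) (nat_lit 0x6027005600a8000b81004e00b8032c04e0006015000168380f3e00))))) 
(.nd (nat_lit 11) (.nd (nat_lit 27) 
(.lf (nat_lit 2483142720) (dlOf (nat_lit 2) (nat_lit 0x72015003a80a00000008000800400020008030d82))) 
(.lf (nat_lit 2348924992) (dlOf (nat_lit 2) (nat_lit 0x72015003a80a00000008000800400020008030d82)))) 
(.nd (nat_lit 8) 
(.lf (nat_lit 3959544384) (dlOf (nat_lit 2) (nat_lit 0x30046001801c0001dc10001000800080020002000811b483))) 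
(.lf (nat_lit 6509677888) (dlOf (nat_lit 1) (nat_lit 0x2740028146901))))))) (.nd (nat_lit 8) 
(.nd (nat_lit 11) (.nd (nat_lit 28) (.nd (nat_lit 12) 
(.lf (nat_lit 5503041728) (dlOf (nat_lit 1) (nat_lit 0x180018031701))) 
(.lf (nat_lit 20566208) (dlOf (nat_lit 1) (nat_lit 0x400289d7f01)))) (.nd (nat_lit 9) 
(.lf (nat_lit 1476509888) (dlOf (nat_lit 1) (nat_lit 0xc80080074002001a0008010403))) 
(.lf (nat_lit 2617361088) (dlOf (nat_lit 1) (nat_lit 0xec00180a1e81))))) (.nd (nat_lit 9) 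
(.nd (nat_lit 28) (.lf (nat_lit 122048) (dlOf (nat_lit 1) (nat_lit 0x800800040020002000800c203))) 
(.lf (nat_lit 3489782976) (dlOf (nat_lit 1) (nat_lit 0x84000800c201)))) 
(.lf (nat_lit 1744947904) (dlOf (nat_lit 1) (nat_lit 0x8008000400200020008095783))))) 
(.nd (nat_lit 10) (.nd (nat_lit 19) 
(.lf (nat_lit 11649472) (dlOf (nat_lit 2) (nat_lit 0x4c0000000002000800086c0881))) 
(.nd (nat_lit 26) 
(.lf (nat_lit 3491348928) (dlOf (nat_lit 3) (nat_lit 0xdc8794000b80401203ca000a1e200040a18000001800c000801ac002000e0008090883))) 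
(.lf (nat_lit 2753151424) (dlOf (nat_lit 3) (nat_lit 0xdc87dc000b604001440800901f700040a18000001800c000801ac002000e0008090883))))) 
(.nd (nat_lit 12) (.lf (nat_lit 4697736640) (dlOf (nat_lit 1) (nat_lit 0x20028093601))) 
(.lf (nat_lit 7984576) (dlOf (nat_lit 1) (nat_lit 0x20028519a01)))))))) (.nd (nat_lit 30) 
(.nd (nat_lit 6) (.nd (nat_lit 20) (.nd (nat_lit 27) (.nd (nat_lit 19) (.nd (nat_lit 21) 
(.lf (nat_lit 6442827776) (dlOf (nat_lit 1) (nat_lit 0x600080028002002400081d0003))) 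
(.lf (nat_lit 10862592) (dlOf (nat_lit 2) (nat_lit 0x6c258009e4080118008008c00200040008640003)))) 
(.nd (nat_lit 7) (.lf (nat_lit 42844160) (dlOf (nat_lit 1) (nat_lit 0x400400020009280002))) 
(.lf (nat_lit 2754464128) (dlOf (nat_lit 1) (nat_lit 0x200180f4e81))))) (.nd (nat_lit 26) 
(.nd (nat_lit 19) 
(.lf (nat_lit 134594560) (dlOf (nat_lit 2) (nat_lit 0x501f800ce0080048008000c00200040008080003))) 
(.lf (nat_lit 2819473408) (dlOf (nat_lit 1) (nat_lit 0xe800800c8002002200082a0003)))) 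
(.nd (nat_lit 28) 
(.lf (nat_lit 201703424) (dlOf (nat_lit 2) (nat_lit 0x501f800ee0080048008000c00200040008080003))) 
(.lf (nat_lit 2617622528) (dlOf (nat_lit 5) (nat_lit 0x7b00b800e2a04002c060006002f0037e82003d017801a700800680bc00d2c04016400401820008100002)))))) 
(.nd (nat_lit 8) (.nd (nat_lit 7) (.nd (nat_lit 19) 
(.lf (nat_lit 7716864) (dlOf (nat_lit 1) (nat_lit 0x400084d0001))) 
(.lf (nat_lit 22921216) (dlOf (nat_lit 2) (nat_lit 0xbbc400000018b40000)))) 
(.lf (nat_lit 20306048) (dlOf (nat_lit 1) (nat_lit 0x200080010002000600089da883)))) 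
(.nd (nat_lit 9) (.nd (nat_lit 21) 
(.lf (nat_lit 60145920) (dlOf (nat_lit 1) (nat_lit 0xd10008033400201120009840a83))) 
(.lf (nat_lit 58048768) (dlOf (nat_lit 1) (nat_lit 0x280080064002003000097b7a83)))) 
(.nd (nat_lit 7) (.lf (nat_lit 8242944) (dlOf (nat_lit 1) (nat_lit 0x10008000400200020008513b83))) 
(.lf (nat_lit 20302720) (dlOf (nat_lit 1) (nat_lit 0x4002000200089d5c02))))))) (.nd (nat_lit 8) 
(.nd (nat_lit 20) (.nd (nat_lit 27) (.nd (nat_lit 19) 
(.lf (nat_lit 6442827840) (dlOf (nat_lit 1) (nat_lit 0x80080004002000200081d0c83))) 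
(.lf (nat_lit 53329984) (dlOf (nat_lit 1) (nat_lit 0x400200020009590502)))) (.nd (nat_lit 26) 
(.lf (nat_lit 5234868288) (dlOf (nat_lit 3) (nat_lit 0x70060003801400540040018018000c0050014fc1000c80080064002000e0008111683))) 
(.lf (nat_lit 738574400) (dlOf (nat_lit 2) (nat_lit 0xb8c0aa05d60370026011000f00780006c100024004000200080b0502))))) 
(.nd (nat_lit 7) (.nd (nat_lit 22) 
(.lf (nat_lit 1425472) (dlOf (nat_lit 1) (nat_lit 0x48008001c002001400080c0d83))) 
(.lf (nat_lit 47562816) (dlOf (nat_lit 1) (nat_lit 0x5e0029400001)))) 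
(.lf (nat_lit 8248000) (dlOf (nat_lit 1) (nat_lit 0x40020098000851b982))))) (.nd (nat_lit 7) 
(.nd (nat_lit 26) (.lf (nat_lit 378688) (dlOf (nat_lit 2) (nat_lit 0x9ee1600019018003e00))) 
(.lf (nat_lit 2483406656) (dlOf (nat_lit 1) (nat_lit 0x600180f3e01)))) (.nd (nat_lit 9) 
(.nd (nat_lit 12) 
(.lf (nat_lit 23445952) (dlOf (nat_lit 2) (nat_lit 0x1000000000002000a0008b80881))) 
(.lf (nat_lit 8245696) (dlOf (nat_lit 1) (nat_lit 0x400200020008518602)))) 
(.lf (nat_lit 19780544) (dlOf (nat_lit 1) (nat_lit 0x80080004002000200089d9203))))))) 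
(.nd (nat_lit 31) (.nd (nat_lit 6) (.nd (nat_lit 32) (.nd (nat_lit 8) (.nd (nat_lit 21) 
(.lf (nat_lit 1346748416) (dlOf (nat_lit 1) (nat_lit 0x80019000001))) 
(.lf (nat_lit 1881522176) (dlOf (nat_lit 1) (nat_lit 0x20018f40001)))) 
(.lf (nat_lit 1345702656) (dlOf (nat_lit 1) (nat_lit 0x2c00400020008dd5a82)))) (.nd (nat_lit 26) 
(.lf (nat_lit 5637521408) (dlOf (nat_lit 1) (nat_lit 0xc0028100001))) (.nd (nat_lit 27) 
(.lf (nat_lit 6241501184) (dlOf (nat_lit 1) (nat_lit 0xc0028100001))) 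
(.lf (nat_lit 5838848000) (dlOf (nat_lit 1) (nat_lit 0x600080028002002400081d0003)))))) 
(.nd (nat_lit 29) (.nd (nat_lit 22) 
(.lf (nat_lit 5838848064) (dlOf (nat_lit 1) (nat_lit 0x80080004002000200081d0c83))) 
(.lf (nat_lit 1346748480) (dlOf (nat_lit 2) (nat_lit 0xf04b000481cc0047808005000400120009000602)))) 
(.nd (nat_lit 21) 
(.lf (nat_lit 1610989632) (dlOf (nat_lit 2) (nat_lit 0xb8c0aa05d60370026011000f007800070100024004000200080b0502))) 
(.lf (nat_lit 1881522240) (dlOf (nat_lit 2) (nat_lit 0x2107180047c0800580080008002000e0008f40603)))))) 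
(.nd (nat_lit 28) (.nd (nat_lit 26) (.nd (nat_lit 27) 
(.lf (nat_lit 3221602304) (dlOf (nat_lit 1) (nat_lit 0x180028160001))) 
(.lf (nat_lit 3355820032) (dlOf (nat_lit 4) (nat_lit 0x1180ac03b5404008c05601da802009801200653818120000)))) 
(.nd (nat_lit 27) 
(.lf (nat_lit 3288711168) (dlOf (nat_lit 2) (nat_lit 0xd803c001e000000000280c0000))) 
(.lf (nat_lit 3959799808) (dlOf (nat_lit 1) (nat_lit 0x180028160001))))) (.nd (nat_lit 19) 
(.nd (nat_lit 6) 
(.lf (nat_lit 4026908672) (dlOf (nat_lit 2) (nat_lit 0xd803c001e000000000280c0000))) 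
(.lf (nat_lit 4026908736) (dlOf (nat_lit 3) (nat_lit 0x28080007c0280003504011200f000190180c1780)))) 
(.nd (nat_lit 10) 
(.lf (nat_lit 3557670912) (dlOf (nat_lit 1) (nat_lit 0xe800800c8002002200082a0003))) 
(.lf (nat_lit 3492660224) (dlOf (nat_lit 1) (nat_lit 0x200180f2881))))))))) (.nd (nat_lit 18) 
(.nd (nat_lit 6) (.nd (nat_lit 19) (.nd (nat_lit 7) (.nd (nat_lit 11) (.nd (nat_lit 20) 
(.nd (nat_lit 24) (.lf (nat_lit 6375456800) (dlOf (nat_lit 1) (nat_lit 0x400400020008000002))) 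
(.lf (nat_lit 16891936) (dlOf (nat_lit 1) (nat_lit 0x4002000200088e0002)))) (.nd (nat_lit 21) 
(.lf (nat_lit 9551904) (dlOf (nat_lit 1) (nat_lit 0xc00400020008560502))) 
(.lf (nat_lit 15843360) (dlOf (nat_lit 1) (nat_lit 0x400400020008840682))))) (.nd (nat_lit 8) 
(.lf (nat_lit 939640864) (dlOf (nat_lit 1) (nat_lit 0x20028144701))) (.nd (nat_lit 26) 
(.lf (nat_lit 5905697056) (dlOf (nat_lit 1) (nat_lit 0x20008144b81))) 
(.lf (nat_lit 2751580448) (dlOf (nat_lit 1) (nat_lit 0x400400020008004b82)))))) (.nd (nat_lit 10) 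
(.nd (nat_lit 9) (.nd (nat_lit 11) 
(.lf (nat_lit 1946272160) (dlOf (nat_lit 1) (nat_lit 0x8008000400200020008016b83))) 
(.lf (nat_lit 39963040) (dlOf (nat_lit 1) (nat_lit 0x780080140002002c00091f4e83)))) 
(.nd (nat_lit 28) (.lf (nat_lit 3221347232) (dlOf (nat_lit 1) (nat_lit 0x2001811bc81))) 
(.lf (nat_lit 805428128) (dlOf (nat_lit 1) (nat_lit 0x6c0020032000811bc82))))) (.nd (nat_lit 8) 
(.nd (nat_lit 9) 
(.lf (nat_lit 4697736352) (dlOf (nat_lit 1) (nat_lit 0x8008001400200160008092b83))) 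
(.lf (nat_lit 1812057760) (dlOf (nat_lit 2) (nat_lit 0x90110000b80800780080004002001a0008147203)))) 
(.nd (nat_lit 26) (.lf (nat_lit 536987552) (dlOf (nat_lit 1) (nat_lit 0x20008004281))) 
(.lf (nat_lit 3959539616) (dlOf (nat_lit 1) (nat_lit 0x20028114281))))))) (.nd (nat_lit 21) 
(.nd (nat_lit 31) (.nd (nat_lit 28) (.nd (nat_lit 22) 
(.lf (nat_lit 1678360608) (dlOf (nat_lit 3) (nat_lit 0x2002d0001b01000b01680005c0801b80080030002004000081f0b03))) 
(.lf (nat_lit 21610528) (dlOf (nat_lit 1) (nat_lit 0x20018a50701)))) (.nd (nat_lit 30) 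
(.lf (nat_lit 805945376) (dlOf (nat_lit 3) (nat_lit 0x2002d0001b01000b01680005c0801b80080030002004000081f0b03))) 
(.lf (nat_lit 1879687200) (dlOf (nat_lit 1) (nat_lit 0x4004000200182d0682))))) (.nd (nat_lit 26) 
(.nd (nat_lit 27) (.lf (nat_lit 3221864480) (dlOf (nat_lit 1) (nat_lit 0xa0002004e00081a0b02))) 
(.lf (nat_lit 3892953120) (dlOf (nat_lit 2) (nat_lit 0x1402c000a014000fd0282a0a80)))) 
(.lf (nat_lit 3960061984) (dlOf (nat_lit 1) (nat_lit 0xa0002004e00081a0b02))))) (.nd (nat_lit 20) 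
(.nd (nat_lit 26) (.nd (nat_lit 28) 
(.lf (nat_lit 2736160) (dlOf (nat_lit 3) (nat_lit 0x12a470001b01000c5238000580801780080050002004200081a0b03))) 
(.lf (nat_lit 3492397088) (dlOf (nat_lit 1) (nat_lit 0xba00080c0b01)))) (.nd (nat_lit 28) 
(.lf (nat_lit 2754199584) (dlOf (nat_lit 1) (nat_lit 0xba00080c0b01))) 
(.lf (nat_lit 4096376864) (dlOf (nat_lit 2) (nat_lit 0x80000004e0400a400200020008100182))))) 
(.nd (nat_lit 8) (.nd (nat_lit 23) 
(.lf (nat_lit 24756256) (dlOf (nat_lit 4) (nat_lit 0x10bce00075db8000c010004af38002576e0002e04000ebce00010818bb0700))) 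
(.lf (nat_lit 16367648) (dlOf (nat_lit 1) (nat_lit 0xc00400020008890602)))) 
(.lf (nat_lit 7984416) (dlOf (nat_lit 1) (nat_lit 0x18008004000201560008519783))))))) 
(.nd (nat_lit 10) (.nd (nat_lit 8) (.nd (nat_lit 7) (.nd (nat_lit 12) (.nd (nat_lit 20) 
(.lf (nat_lit 12697696) (dlOf (nat_lit 3) (nat_lit 0x180000001f02000f51b000000186d1280))) 
(.lf (nat_lit 24232032) (dlOf (nat_lit 2) (nat_lit 0x3cb4a4024597e010ec820079614003ca5d80002014000800400620018b91302)))) 
(.lf (nat_lit 20041824) (dlOf (nat_lit 1) (nat_lit 0x200189d7d81)))) (.nd (nat_lit 9) 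
(.nd (nat_lit 21) (.lf (nat_lit 5503041760) (dlOf (nat_lit 1) (nat_lit 0x100018031a81))) 
(.lf (nat_lit 44155104) (dlOf (nat_lit 1) (nat_lit 0x600292d1a81)))) 
(.lf (nat_lit 7983840) (dlOf (nat_lit 1) (nat_lit 0x8008000400200020008518c83))))) (.nd (nat_lit 9) 
(.nd (nat_lit 7) (.nd (nat_lit 19) 
(.lf (nat_lit 4563519840) (dlOf (nat_lit 1) (nat_lit 0x18008001000200020008094e83))) 
(.lf (nat_lit 33147232) (dlOf (nat_lit 1) (nat_lit 0x3000200020008f54e82)))) 
(.lf (nat_lit 1073856992) (dlOf (nat_lit 1) (nat_lit 0x20018017d01)))) (.nd (nat_lit 7) 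
(.nd (nat_lit 27) (.lf (nat_lit 805428064) (dlOf (nat_lit 1) (nat_lit 0x2001811bc81))) 
(.lf (nat_lit 134339424) (dlOf (nat_lit 1) (nat_lit 0x380040110000800bc82)))) 
(.lf (nat_lit 474072032) (dlOf (nat_lit 3) (nat_lit 0x414d002710100070a180008334009a408000800200020009082882)))))) 
(.nd (nat_lit 28) (.nd (nat_lit 7) (.nd (nat_lit 11) 
(.lf (nat_lit 34194528) (dlOf (nat_lit 1) (nat_lit 0x60028fb2901))) 
(.lf (nat_lit 6509677664) (dlOf (nat_lit 1) (nat_lit 0x8008000400200020008146083)))) 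
(.nd (nat_lit 8) (.nd (nat_lit 9) 
(.lf (nat_lit 7980256) (dlOf (nat_lit 1) (nat_lit 0x70008004000200180008512e03))) 
(.lf (nat_lit 5905696480) (dlOf (nat_lit 1) (nat_lit 0x1e0018143a81)))) (.nd (nat_lit 9) 
(.lf (nat_lit 7980512) (dlOf (nat_lit 1) (nat_lit 0x400200020008513602))) 
(.lf (nat_lit 645088) (dlOf (nat_lit 2) (nat_lit 0x1953f002bec0800680080030002000c000800a603)))))) 
(.nd (nat_lit 8) (.nd (nat_lit 9) (.nd (nat_lit 26) 
(.lf (nat_lit 402769120) (dlOf (nat_lit 1) (nat_lit 0x400400020008092e02))) 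
(.lf (nat_lit 2080490720) (dlOf (nat_lit 1) (nat_lit 0x400400020008092e02)))) 
(.lf (nat_lit 5838589664) (dlOf (nat_lit 1) (nat_lit 0x4002000200080f7382)))) (.nd (nat_lit 11) 
(.lf (nat_lit 469882336) (dlOf (nat_lit 1) (nat_lit 0x20018009b01))) 
(.lf (nat_lit 3489779168) (dlOf (nat_lit 1) (nat_lit 0x20018006e01)))))))) (.nd (nat_lit 21) 
(.nd (nat_lit 28) (.nd (nat_lit 23) (.nd (nat_lit 27) (.nd (nat_lit 6) (.nd (nat_lit 19) 
(.nd (nat_lit 26) 
(.lf (nat_lit 1610989600) (dlOf (nat_lit 13) (nat_lit 0x130144000400400980a2004e033003a010000900080003e10002c0400001e02001a0510000e010027028800680cc0002e0809e40a003c604501e3022018d00c809a404004de01c014000b80a400580001c2008000a0014e04401c7019010080800388038014a01700a500b000034381128140086c0400000c0401be050008a01000002c101368140078808a03c2044030f019012800800954038000e01b018500b80c38058000142400d40a0002c04500d60190019808000e0038002001700004860270028013180800000008004c004001a00080b0182))) 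
(.lf (nat_lit 3288711200) (dlOf (nat_lit 2) (nat_lit 0x4000000000180c0b00)))) 
(.lf (nat_lit 22921248) (dlOf (nat_lit 2) (nat_lit 0xbb4e00030818b40500)))) (.nd (nat_lit 7) 
(.lf (nat_lit 18727008) (dlOf (nat_lit 1) (nat_lit 0x400200020008970482))) 
(.lf (nat_lit 2751841248) (dlOf (nat_lit 1) (nat_lit 0x400200020008002882))))) (.nd (nat_lit 26) 
(.nd (nat_lit 6) (.nd (nat_lit 30) 
(.lf (nat_lit 134594592) (dlOf (nat_lit 2) (nat_lit 0x200000000804001800200240008080682))) 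
(.lf (nat_lit 3355820064) (dlOf (nat_lit 2) (nat_lit 0xb802b00030818120500)))) 
(.lf (nat_lit 1745207392) (dlOf (nat_lit 1) (nat_lit 0x200180d1c81)))) (.nd (nat_lit 29) 
(.lf (nat_lit 201703456) (dlOf (nat_lit 2) (nat_lit 0x200000000804001800200240008080682))) 
(.lf (nat_lit 738574368) (dlOf (nat_lit 13) (nat_lit 0x130144000400400980a2004e033003a010000900080003e10002c0400001e02001a0510000e010027028800680cc0002e0809e40a003c604501e3022018d00c809a404004de01c014000b80a400580001c2008000a0014e04401c7019010080800388038014a01700a500b000034381128140086c0400000c0401be050008a01000002c101368140078808a03c2044030f019012800800954038000e01b018500b80c38058000142400d40a0002c04500d60190019808000e0038002001700004860270028013180800000008004c004001a00080b0182)))))) 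
(.nd (nat_lit 22) (.nd (nat_lit 7) 
(.lf (nat_lit 9814048) (dlOf (nat_lit 1) (nat_lit 0x4e0028580101))) 
(.lf (nat_lit 8767136) (dlOf (nat_lit 1) (nat_lit 0x840018513a81)))) (.nd (nat_lit 6) 
(.nd (nat_lit 24) 
(.lf (nat_lit 12959776) (dlOf (nat_lit 2) (nat_lit 0x16a90000b546000016080014004000c00086f0702))) 
(.lf (nat_lit 29736992) (dlOf (nat_lit 1) (nat_lit 0x400400020008e30002)))) 
(.lf (nat_lit 29737056) (dlOf (nat_lit 1) (nat_lit 0xc0008e30481)))))) (.nd (nat_lit 26) 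
(.nd (nat_lit 29) (.nd (nat_lit 6) (.nd (nat_lit 22) 
(.lf (nat_lit 5637521440) (dlOf (nat_lit 1) (nat_lit 0x60028100101))) 
(.lf (nat_lit 1346748448) (dlOf (nat_lit 4) (nat_lit 0xaa08d001103e8001001000a025800100ea0003e04008009600230398000e0100028008000400200060009000183)))) 
(.lf (nat_lit 1476771936) (dlOf (nat_lit 3) (nat_lit 0xc00b800280580004022000401000070070001001000040040014000000e488000300b8005dc0800400080008002000800081a0483)))) 
(.nd (nat_lit 27) (.nd (nat_lit 30) 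
(.lf (nat_lit 5100650528) (dlOf (nat_lit 1) (nat_lit 0x4004007a0008110102))) 
(.lf (nat_lit 4026908704) (dlOf (nat_lit 2) (nat_lit 0x4000000000180c0b00)))) 
(.lf (nat_lit 5234868256) (dlOf (nat_lit 1) (nat_lit 0xc002000a0008110702))))) (.nd (nat_lit 19) 
(.nd (nat_lit 27) (.lf (nat_lit 6241501216) (dlOf (nat_lit 1) (nat_lit 0x60028100101))) 
(.nd (nat_lit 29) 
(.lf (nat_lit 2617622560) (dlOf (nat_lit 1) (nat_lit 0x3d8008004000201880008100503))) 
(.lf (nat_lit 3154493472) (dlOf (nat_lit 1) (nat_lit 0x400281c0701))))) (.nd (nat_lit 6) 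
(.lf (nat_lit 471716896) (dlOf (nat_lit 1) (nat_lit 0xa00283d9201))) 
(.lf (nat_lit 4094544224) (dlOf (nat_lit 1) (nat_lit 0x40028054e81))))))) (.nd (nat_lit 6) 
(.nd (nat_lit 31) (.nd (nat_lit 7) (.nd (nat_lit 20) 
(.lf (nat_lit 1881522208) (dlOf (nat_lit 1) (nat_lit 0x800200040008f40182))) 
(.lf (nat_lit 11911200) (dlOf (nat_lit 2) (nat_lit 0x41aa28020d4980038a8286c0000)))) 
(.nd (nat_lit 9) (.lf (nat_lit 20306336) (dlOf (nat_lit 1) (nat_lit 0x4002000a00089daf82))) 
(.lf (nat_lit 20304800) (dlOf (nat_lit 1) (nat_lit 0x80080004002000400089d9103))))) 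
(.nd (nat_lit 20) (.nd (nat_lit 7) 
(.lf (nat_lit 3492134944) (dlOf (nat_lit 7) (nat_lit 0x220450064580800e02280322a0400701140191102003408a00c3801001e0450061bc080020228030da040028004002600180a0902))) 
(.lf (nat_lit 2754464160) (dlOf (nat_lit 1) (nat_lit 0x200180f4e81)))) (.nd (nat_lit 26) 
(.lf (nat_lit 3493708064) (dlOf (nat_lit 1) (nat_lit 0x8004000200081b0502))) 
(.lf (nat_lit 2755510560) (dlOf (nat_lit 1) (nat_lit 0x8004000200081b0502)))))) (.nd (nat_lit 7) 
(.nd (nat_lit 8) (.nd (nat_lit 26) 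
(.lf (nat_lit 3492135008) (dlOf (nat_lit 2) (nat_lit 0x60bf00040450000541000180080060002003200080a1303))) 
(.lf (nat_lit 2753937504) (dlOf (nat_lit 2) (nat_lit 0x202a40000302000400180a1281)))) 
(.nd (nat_lit 19) 
(.lf (nat_lit 11911520) (dlOf (nat_lit 6) (nat_lit 0xb0a8a0057d260000ac080076a28003d4980002a82009ca8a004ed2600002608007aa28003d4980000902001da8a000ed260000200800e8002000400086c0682))) 
(.lf (nat_lit 23970144) (dlOf (nat_lit 1) (nat_lit 0x20018b80681))))) (.nd (nat_lit 8) 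
(.nd (nat_lit 11) (.lf (nat_lit 11911392) (dlOf (nat_lit 1) (nat_lit 0x1c00186c0481))) 
(.lf (nat_lit 8243424) (dlOf (nat_lit 2) (nat_lit 0x20b440006604000800400140018514a82)))) 
(.nd (nat_lit 9) (.lf (nat_lit 8242656) (dlOf (nat_lit 1) (nat_lit 0x400200020008513602))) 
(.lf (nat_lit 3492661216) (dlOf (nat_lit 1) (nat_lit 0x200080f4581)))))))))) (.nd (nat_lit 6) 
(.nd (nat_lit 18) (.nd (nat_lit 5) (.nd (nat_lit 29) (.nd (nat_lit 27) (.nd (nat_lit 19) 
(.nd (nat_lit 20) (.nd (nat_lit 7) 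
(.lf (nat_lit 4295081988) (dlOf (nat_lit 1) (nat_lit 0x400400020008050002))) 
(.lf (nat_lit 116868) (dlOf (nat_lit 1) (nat_lit 0x360018004781)))) (.nd (nat_lit 22) 
(.lf (nat_lit 26329092) (dlOf (nat_lit 1) (nat_lit 0x20028c30001))) 
(.lf (nat_lit 47300612) (dlOf (nat_lit 1) (nat_lit 0x28004001000093d0002))))) (.nd (nat_lit 7) 
(.nd (nat_lit 8) (.lf (nat_lit 19513348) (dlOf (nat_lit 1) (nat_lit 0x600080018002000200089b0003))) 
(.lf (nat_lit 20562180) (dlOf (nat_lit 1) (nat_lit 0x4002000200089d0a82)))) 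
(.lf (nat_lit 12173444) (dlOf (nat_lit 1) (nat_lit 0x800086c0101))))) (.nd (nat_lit 28) 
(.nd (nat_lit 7) (.nd (nat_lit 8) (.nd (nat_lit 30) 
(.lf (nat_lit 4429299716) (dlOf (nat_lit 1) (nat_lit 0x400400020008050002))) 
(.lf (nat_lit 3355557892) (dlOf (nat_lit 1) (nat_lit 0xbe00180a0001)))) 
(.lf (nat_lit 3355563268) (dlOf (nat_lit 1) (nat_lit 0x2c004000800080a9602)))) (.nd (nat_lit 8) 
(.lf (nat_lit 1208076932) (dlOf (nat_lit 1) (nat_lit 0x20008095481))) 
(.lf (nat_lit 134339972) (dlOf (nat_lit 1) (nat_lit 0x4000800c901))))) (.nd (nat_lit 26) 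
(.nd (nat_lit 30) 
(.lf (nat_lit 4697735172) (dlOf (nat_lit 2) (nat_lit 0x2017806e640800e0008006000200420008090003))) 
(.lf (nat_lit 3623993348) (dlOf (nat_lit 9) (nat_lit 0x10170003006c00040300008002005e98400040170000809400080320006018005e684000801700040094000c032000c018005e28400020170001806c00080300004002005e204000301680008090001802a00020120005008800100180177818000c05a0008024000100a80020048002002200bb60a000e02d000301200018054001402400120110002001002ea83000100b4001002a000a0110002003002ea4200018008000c002000c0008080003)))) 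
(.nd (nat_lit 8) (.lf (nat_lit 470925316) (dlOf (nat_lit 1) (nat_lit 0x560018200001))) 
(.lf (nat_lit 3691102468) (dlOf (nat_lit 1) (nat_lit 0x400400020018010702))))))) (.nd (nat_lit 19) 
(.nd (nat_lit 11) (.nd (nat_lit 8) (.nd (nat_lit 7) 
(.lf (nat_lit 2885795844) (dlOf (nat_lit 9) (nat_lit 0x101700030068000403000080020031f04000401700008094000803c00060180031c04000801700040094000c03c000c0180031904000201700018068000803000040020031784000301680008090000402e000c01400050088001001800c4e18000c05a0008024000400b800080500020022006210a000e02d00030120002805c000c0280012011000200100185c3000100b40010028000a0110002003001850200018008000c002000c0008080003))) 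
(.lf (nat_lit 6107021444) (dlOf (nat_lit 1) (nat_lit 0x8008000400200020008030e03)))) 
(.nd (nat_lit 26) (.lf (nat_lit 2952904964) (dlOf (nat_lit 1) (nat_lit 0x1c002003c0008010702))) 
(.lf (nat_lit 604094724) (dlOf (nat_lit 1) (nat_lit 0x4400200060008010702))))) (.nd (nat_lit 7) 
(.nd (nat_lit 9) (.lf (nat_lit 1677842436) (dlOf (nat_lit 1) (nat_lit 0x2001811a601))) 
(.lf (nat_lit 2754727428) (dlOf (nat_lit 1) (nat_lit 0x400080028002000e00080f7003)))) 
(.nd (nat_lit 8) 
(.lf (nat_lit 1812057220) (dlOf (nat_lit 2) (nat_lit 0x18044000120200060018146101))) 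
(.lf (nat_lit 4227980676) (dlOf (nat_lit 3) (nat_lit 0x80640066502000c0320033201800c900)))))) 
(.nd (nat_lit 7) (.nd (nat_lit 26) (.nd (nat_lit 27) 
(.lf (nat_lit 805945348) (dlOf (nat_lit 1) (nat_lit 0xa00181f0001))) 
(.lf (nat_lit 3892953092) (dlOf (nat_lit 1) (nat_lit 0x200182a0001)))) (.nd (nat_lit 21) 
(.lf (nat_lit 1678360580) (dlOf (nat_lit 1) (nat_lit 0xa00181f0001))) 
(.lf (nat_lit 1009369092) (dlOf (nat_lit 6) (nat_lit 0x3014c00200a0001004d00e3503000302b0000814c001c0a0000c04d00e3484000402b0002814c00200a0000e04d00e3404000402b0002814c00200a0000e04d00e3384000402b0003014c037d808000400400020009130002))))) 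
(.nd (nat_lit 21) 
(.lf (nat_lit 6375981188) (dlOf (nat_lit 5) (nat_lit 0xc405e004e02d0026015801880a800980520062025003700d80140060009802e0052016002600a8013004c0098024004c00d00270058013002400f8008004c00100250000000d49800080bc000c05a003a02a0034012801a806c0020024001800b004e0020000d04000100a800a404a007201b002e00b001f0010000541400f804a0000c0205320028030e01))) 
(.lf (nat_lit 6378078340) (dlOf (nat_lit 1) (nat_lit 0x400200020008103a02))))))) (.nd (nat_lit 19) 
(.nd (nat_lit 7) (.nd (nat_lit 26) (.nd (nat_lit 30) (.nd (nat_lit 20) 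
(.lf (nat_lit 21086244) (dlOf (nat_lit 2) (nat_lit 0x6c81800084080010008000800200020008a10583))) 
(.lf (nat_lit 1163300) (dlOf (nat_lit 1) (nat_lit 0x18008000400200020008080583)))) (.nd (nat_lit 8) 
(.lf (nat_lit 4160864292) (dlOf (nat_lit 2) (nat_lit 0x180ac0000004000400400040018030582))) 
(.lf (nat_lit 3221347108) (dlOf (nat_lit 1) (nat_lit 0xbb80080610002009e000811bc83))))) 
(.nd (nat_lit 9) (.nd (nat_lit 27) 
(.lf (nat_lit 5435932708) (dlOf (nat_lit 1) (nat_lit 0xc00008040201))) 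
(.lf (nat_lit 5301714980) (dlOf (nat_lit 1) (nat_lit 0xc00008040201)))) 
(.lf (nat_lit 2751584804) (dlOf (nat_lit 1) (nat_lit 0x40020002000800b282))))) (.nd (nat_lit 11) 
(.nd (nat_lit 9) (.nd (nat_lit 10) 
(.lf (nat_lit 1344389284) (dlOf (nat_lit 1) (nat_lit 0x60008740481))) 
(.lf (nat_lit 474072228) (dlOf (nat_lit 2) (nat_lit 0xb0b40002059800082ac000414a00010a18001049000241880004096000800b80048054000be28004000400040019082c02)))) 
(.nd (nat_lit 10) (.lf (nat_lit 8508068) (dlOf (nat_lit 1) (nat_lit 0x400200020008518c82))) 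
(.lf (nat_lit 20043428) (dlOf (nat_lit 1) (nat_lit 0x4002000200089da002))))) (.nd (nat_lit 8) 
(.nd (nat_lit 10) (.lf (nat_lit 5905696932) (dlOf (nat_lit 1) (nat_lit 0x400400020008144882))) 
(.lf (nat_lit 3825323172) (dlOf (nat_lit 1) (nat_lit 0x8008000400200020008146283)))) 
(.nd (nat_lit 23) (.lf (nat_lit 805423524) (dlOf (nat_lit 1) (nat_lit 0xb800400340018114e82))) 
(.lf (nat_lit 58837412) (dlOf (nat_lit 1) (nat_lit 0x4002000200097e4e82))))))) (.nd (nat_lit 31) 
(.nd (nat_lit 21) (.nd (nat_lit 20) (.nd (nat_lit 22) 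
(.lf (nat_lit 4362715172) (dlOf (nat_lit 3) (nat_lit 0xb02c0009015c009009e00520320001784006901680000008080000801d400200e400080e0b83))) 
(.lf (nat_lit 21610532) (dlOf (nat_lit 1) (nat_lit 0x500028a50901)))) 
(.lf (nat_lit 1687588) (dlOf (nat_lit 1) (nat_lit 0x4002005c0008110582)))) (.nd (nat_lit 9) 
(.nd (nat_lit 24) 
(.lf (nat_lit 11124772) (dlOf (nat_lit 1) (nat_lit 0x1378008016000205060008660503))) 
(.lf (nat_lit 27901988) (dlOf (nat_lit 1) (nat_lit 0x20018d40601)))) 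
(.lf (nat_lit 473547300) (dlOf (nat_lit 1) (nat_lit 0x40018f68781))))) (.nd (nat_lit 26) 
(.nd (nat_lit 21) (.nd (nat_lit 27) 
(.lf (nat_lit 3221864484) (dlOf (nat_lit 1) (nat_lit 0x58008013000200c800081a0b03))) 
(.lf (nat_lit 3892953124) (dlOf (nat_lit 5) (nat_lit 0x10016000e00a0007fc100030058002c028001fd04000a054000700b00060050003f40c006802c002a014000fc0282a0a80)))) 
(.lf (nat_lit 3492397092) (dlOf (nat_lit 1) (nat_lit 0x74004025400080c0b02)))) (.nd (nat_lit 21) 
(.nd (nat_lit 28) 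
(.lf (nat_lit 3960061988) (dlOf (nat_lit 1) (nat_lit 0x58008013000200c800081a0b03))) 
(.lf (nat_lit 4228497444) (dlOf (nat_lit 3) (nat_lit 0xb02880090140009009000520310001784006901600000008080000801d400200e400080e0b83)))) 
(.lf (nat_lit 2754199588) (dlOf (nat_lit 1) (nat_lit 0x74004025400080c0b02)))))))) (.nd (nat_lit 5) 
(.nd (nat_lit 26) (.nd (nat_lit 19) (.nd (nat_lit 30) (.nd (nat_lit 21) (.nd (nat_lit 10) 
(.nd (nat_lit 20) 
(.lf (nat_lit 805683204) (dlOf (nat_lit 3) (nat_lit 0x10044000300b80544c1000501100292e04000c00200020008180002))) 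
(.lf (nat_lit 18202628) (dlOf (nat_lit 1) (nat_lit 0x800200020008920002)))) (.nd (nat_lit 9) 
(.lf (nat_lit 47563780) (dlOf (nat_lit 1) (nat_lit 0x8008000400200020009402883))) 
(.lf (nat_lit 380420) (dlOf (nat_lit 1) (nat_lit 0x400400020008007002))))) (.nd (nat_lit 23) 
(.nd (nat_lit 9) (.lf (nat_lit 23445508) (dlOf (nat_lit 1) (nat_lit 0x8008000400200020008b80003))) 
(.lf (nat_lit 3523076) (dlOf (nat_lit 2) (nat_lit 0x400e000a6818200d80)))) (.nd (nat_lit 24) 
(.lf (nat_lit 10862596) (dlOf (nat_lit 1) (nat_lit 0x400400020008640002))) 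
(.lf (nat_lit 61194244) (dlOf (nat_lit 1) (nat_lit 0x1000198d0001)))))) (.nd (nat_lit 28) 
(.nd (nat_lit 27) (.nd (nat_lit 29) 
(.lf (nat_lit 3221602308) (dlOf (nat_lit 2) (nat_lit 0x38118000880400d800400080018160002))) 
(.lf (nat_lit 1610989572) (dlOf (nat_lit 4) (nat_lit 0x101a0035a408001806c013d20400440a4000c020004db0280b0000)))) 
(.lf (nat_lit 3355820036) (dlOf (nat_lit 2) (nat_lit 0xbe02b00000018120000)))) (.nd (nat_lit 20) 
(.nd (nat_lit 29) 
(.lf (nat_lit 1342554116) (dlOf (nat_lit 1) (nat_lit 0x78008002000200160008050003))) 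
(.lf (nat_lit 4026908676) (dlOf (nat_lit 2) (nat_lit 0x4401e000000180c0000)))) 
(.lf (nat_lit 1343602692) (dlOf (nat_lit 1) (nat_lit 0x200080034002000200082b0003)))))) 
(.nd (nat_lit 20) (.nd (nat_lit 21) (.nd (nat_lit 27) 
(.lf (nat_lit 537772036) (dlOf (nat_lit 2) (nat_lit 0x20120017fc080050008000c00200080008180003))) 
(.lf (nat_lit 2819473412) (dlOf (nat_lit 1) (nat_lit 0x6800800f8002001800082a0003)))) 
(.nd (nat_lit 10) (.lf (nat_lit 2998276) (dlOf (nat_lit 1) (nat_lit 0x400281f0001))) 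
(.lf (nat_lit 3492660228) (dlOf (nat_lit 1) (nat_lit 0x4002000200080f2882))))) (.nd (nat_lit 7) 
(.nd (nat_lit 23) (.lf (nat_lit 22921220) (dlOf (nat_lit 2) (nat_lit 0x53bc40066d018b40000))) 
(.lf (nat_lit 14532612) (dlOf (nat_lit 1) (nat_lit 0x8008002400200020008760003)))) 
(.lf (nat_lit 20824196) (dlOf (nat_lit 1) (nat_lit 0x4004000200089e2282)))))) (.nd (nat_lit 31) 
(.nd (nat_lit 27) (.nd (nat_lit 19) (.nd (nat_lit 28) 
(.lf (nat_lit 1678098436) (dlOf (nat_lit 3) (nat_lit 0x10044000300b805a0810005011002bf604000c00200020008180002))) 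
(.lf (nat_lit 6241501188) (dlOf (nat_lit 1) (nat_lit 0x60028100001)))) (.nd (nat_lit 10) 
(.lf (nat_lit 1410187268) (dlOf (nat_lit 2) (nat_lit 0x2012002e48080050008000c00200080008180003))) 
(.lf (nat_lit 69059588) (dlOf (nat_lit 1) (nat_lit 0x80080004002000200088a2883))))) 
(.nd (nat_lit 10) (.nd (nat_lit 28) 
(.lf (nat_lit 738574340) (dlOf (nat_lit 4) (nat_lit 0x101a001f0008001806c008900400440a4000c020002108280b0000))) 
(.lf (nat_lit 470138884) (dlOf (nat_lit 1) (nat_lit 0x78008002000200160008050003)))) 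
(.lf (nat_lit 1009107972) (dlOf (nat_lit 12) (nat_lit 0x2038c00caa0400101c6006540200080e30032981000407180194808002038c00c740400101c60062d02003c0e30031181000707180186408002038c00c240400041c600020e2002cc0200030718004038800b1208004c004003e0009082882))))) 
(.nd (nat_lit 11) (.nd (nat_lit 27) (.nd (nat_lit 19) 
(.lf (nat_lit 3288711172) (dlOf (nat_lit 2) (nat_lit 0x4401e000000180c0000))) 
(.lf (nat_lit 3557670916) (dlOf (nat_lit 1) (nat_lit 0x6800800f8002001800082a0003)))) 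
(.nd (nat_lit 28) 
(.lf (nat_lit 3959799812) (dlOf (nat_lit 2) (nat_lit 0x38118000a40400d800400080018160002))) 
(.lf (nat_lit 2617622532) (dlOf (nat_lit 2) (nat_lit 0xa203400000018100000))))) (.nd (nat_lit 7) 
(.nd (nat_lit 19) (.lf (nat_lit 2754989572) (dlOf (nat_lit 1) (nat_lit 0x8004000800080f7002))) 
(.lf (nat_lit 2754465284) (dlOf (nat_lit 1) (nat_lit 0x200180f7001)))) 
(.lf (nat_lit 2754464132) (dlOf (nat_lit 1) (nat_lit 0x200180f4e81))))))) (.nd (nat_lit 20) 
(.nd (nat_lit 26) (.nd (nat_lit 28) (.nd (nat_lit 27) (.nd (nat_lit 7) (.nd (nat_lit 31) 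
(.lf (nat_lit 1074118692) (dlOf (nat_lit 1) (nat_lit 0x280080004002000a00080b0a83))) 
(.lf (nat_lit 3221602340) (dlOf (nat_lit 2) (nat_lit 0xaa02f00000018160900)))) 
(.lf (nat_lit 19780260) (dlOf (nat_lit 1) (nat_lit 0x80080004002000200089d8c83)))) 
(.nd (nat_lit 30) 
(.lf (nat_lit 134594596) (dlOf (nat_lit 2) (nat_lit 0x480c40005004000c00200080008080902))) 
(.lf (nat_lit 3355820068) (dlOf (nat_lit 22) (nat_lit 0x40000000ea040bac05c0d7602b054701500de80a0054c04e068602500c801201730080042c03a08a201300440060033002c010c014000641a0c3002b000308106010158001800813c009407e8048010c01e027c009800178201c6804c000ba0403500560492025013a01201b2804c000b61004c80260005a02003000f0002c8100b30128059003c000b0080bcc0560002902014402b000140100350158000940800600ac000480419380560a2e02a003b0070000881800500ac0003e0409f40560001e02000a02e024a0158000804c000360c00540560001a02002002b0000c01001c0158000000813900081a0c00205000008120503))))) 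
(.nd (nat_lit 19) (.nd (nat_lit 21) 
(.lf (nat_lit 805683236) (dlOf (nat_lit 2) (nat_lit 0x20026000200200100008180701))) 
(.lf (nat_lit 3492134948) (dlOf (nat_lit 1) (nat_lit 0x2200080a0901)))) (.nd (nat_lit 8) 
(.lf (nat_lit 1879949348) (dlOf (nat_lit 1) (nat_lit 0x60018490001))) 
(.lf (nat_lit 3492661028) (dlOf (nat_lit 1) (nat_lit 0x4002000200080f3d02)))))) (.nd (nat_lit 27) 
(.nd (nat_lit 21) (.nd (nat_lit 29) 
(.lf (nat_lit 4362453028) (dlOf (nat_lit 6) (nat_lit 0x2b814c0c2c08e011202d002900c0000402017b011c032005a0000f04047c033000070102c801980003408001814c027408e000030401360028080801))) 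
(.lf (nat_lit 1678098468) (dlOf (nat_lit 2) (nat_lit 0x200260000c0200100008180701)))) 
(.nd (nat_lit 19) (.lf (nat_lit 2753937444) (dlOf (nat_lit 1) (nat_lit 0x200080a0901))) 
(.lf (nat_lit 4096639012) (dlOf (nat_lit 3) (nat_lit 0x334058006c02b800901401ff409e00c6043022e01a808680a40005e1c06380480001102000a0028140b81))))) 
(.nd (nat_lit 28) (.nd (nat_lit 7) 
(.lf (nat_lit 3959799844) (dlOf (nat_lit 1) (nat_lit 0x20008000400200020008160803))) 
(.lf (nat_lit 4496670884) (dlOf (nat_lit 1) (nat_lit 0x8008000400200020008111483)))) 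
(.nd (nat_lit 29) 
(.lf (nat_lit 2617622564) (dlOf (nat_lit 23) (nat_lit 0x140000000750200c60000003a0100630000001cc080308000000e404064c068001e031008c0158001a8180c700d00008062001c02b0003483000d01580019c0800180ac000cc04077406802460330085018805080c005e405600a20280081013803c00940188048001602000ba00e80be804c002001e02d200c002100580200028000c2400004060008802b00340130007809400d003c0076013000b00480017838012804c000ba04006c06400080300051015800e0094001c0480076013000900480016c3800280ac000b404022c01e000580201e00340001481003201580009c080cf80d004b006600240310004015000e009c000441402dc0560001f02002c02b0000d8100040158000680802a00ac00032040024062001c02b000400000000018208800825fc002002c0008100503))) 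
(.lf (nat_lit 4228235300) (dlOf (nat_lit 6) (nat_lit 0x2aa055016602601100100054805802a60180000805024002000003c0808800c80001c0404780640000d02000804c000702000000c1000b0008003400200100008080903))))))) 
(.nd (nat_lit 19) (.nd (nat_lit 21) (.nd (nat_lit 8) (.nd (nat_lit 26) 
(.lf (nat_lit 3491086372) (dlOf (nat_lit 3) (nat_lit 0x203d80014c0800301ec000a404004000200100008060582))) 
(.lf (nat_lit 2752888868) (dlOf (nat_lit 3) (nat_lit 0x203c80014c0800301e4000a404004000200100008060582)))) 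
(.lf (nat_lit 60148516) (dlOf (nat_lit 1) (nat_lit 0x400400020009845c02)))) (.nd (nat_lit 7) 
(.nd (nat_lit 8) (.lf (nat_lit 11911204) (dlOf (nat_lit 1) (nat_lit 0x4000800a4002003600086c0003))) 
(.lf (nat_lit 11911460) (dlOf (nat_lit 1) (nat_lit 0x14002000a00086c0502)))) 
(.lf (nat_lit 20304548) (dlOf (nat_lit 1) (nat_lit 0x4002000200089d8c82))))) (.nd (nat_lit 7) 
(.nd (nat_lit 8) (.nd (nat_lit 23) 
(.lf (nat_lit 22921252) (dlOf (nat_lit 7) (nat_lit 0x191bc40003c01018dda7000184080a5ed38000c00400100000003f02002e0000001a010093de200006c0801b800800e800200240008b40503))) 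
(.lf (nat_lit 14532644) (dlOf (nat_lit 1) (nat_lit 0x8008000400200020008760683)))) 
(.lf (nat_lit 8246564) (dlOf (nat_lit 2) (nat_lit 0x200000018018519780)))) (.nd (nat_lit 8) 
(.lf (nat_lit 471715492) (dlOf (nat_lit 1) (nat_lit 0x1e00083d7201))) 
(.lf (nat_lit 8242596) (dlOf (nat_lit 1) (nat_lit 0x400200020008513602))))))))) (.nd (nat_lit 28) 
(.nd (nat_lit 8) (.nd (nat_lit 21) (.nd (nat_lit 26) (.nd (nat_lit 19) (.nd (nat_lit 18) 
(.nd (nat_lit 9) (.nd (nat_lit 20) (.nd (nat_lit 23) 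
(.lf (nat_lit 16891972) (dlOf (nat_lit 1) (nat_lit 0x4002000200088e0002))) 
(.lf (nat_lit 25280580) (dlOf (nat_lit 1) (nat_lit 0x400400020008bf0c02)))) 
(.lf (nat_lit 17940548) (dlOf (nat_lit 1) (nat_lit 0x100018900e81)))) 
(.lf (nat_lit 3355563588) (dlOf (nat_lit 1) (nat_lit 0xe00280a9c01)))) (.nd (nat_lit 20) 
(.lf (nat_lit 1610989636) (dlOf (nat_lit 2) (nat_lit 0x8702a802b8150000409e012e037007101b004d8088027c03c00cc019001c0058000984800900080014002003400080b0583))) 
(.nd (nat_lit 22) 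
(.lf (nat_lit 1425476) (dlOf (nat_lit 2) (nat_lit 0xd05800000004004c004001e00080c0e82))) 
(.lf (nat_lit 55951428) (dlOf (nat_lit 5) (nat_lit 0x8304c002840401254d200131020060a690009701005c5348002f40800a80080034002002200096f0603)))))) 
(.nd (nat_lit 5) (.nd (nat_lit 22) (.nd (nat_lit 29) 
(.lf (nat_lit 3221864516) (dlOf (nat_lit 2) (nat_lit 0x1c0050001d80800a000800d000200bc00081a1403))) 
(.lf (nat_lit 537509956) (dlOf (nat_lit 1) (nat_lit 0x1c002001600080a0d02)))) 
(.lf (nat_lit 21610564) (dlOf (nat_lit 5) (nat_lit 0x1f6a0000bb4c0013da40005ed00002f50c0022014000bb540009da80002ed30003f6800027a860010f0a000fdaa0009ed300057680002ba860010e080011daa0009ed300057680002fa860010d0800d40008a51881)))) 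
(.nd (nat_lit 11) (.lf (nat_lit 537509988) (dlOf (nat_lit 1) (nat_lit 0x200180a1281))) 
(.lf (nat_lit 645220) (dlOf (nat_lit 1) (nat_lit 0x20001800a801)))))) (.nd (nat_lit 11) 
(.nd (nat_lit 27) (.nd (nat_lit 5) (.nd (nat_lit 9) 
(.lf (nat_lit 5435932740) (dlOf (nat_lit 2) (nat_lit 0x1803f0003f018040480))) 
(.lf (nat_lit 2753151556) (dlOf (nat_lit 2) (nat_lit 0x6a0ff800098080298008001400200080008091103)))) 
(.lf (nat_lit 604356708) (dlOf (nat_lit 4) (nat_lit 0xc00b00008044000401e000800e0001001800100000027e1800080300018016000700a80008044000801e000400e00010038001000c000800400040000009c0a001000b0003a00800f80080130002006600081a0483)))) 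
(.nd (nat_lit 18) (.nd (nat_lit 19) 
(.lf (nat_lit 2348924996) (dlOf (nat_lit 6) (nat_lit 0x800a802a8050005c0180000b0302b7015019600a00a74030001a0000000a84000b01500400080041c03a000a018001700b806d0040020801e00fa00e00800068018003001b8010000141600020240000881000a01400003c0805c80080344002001e0008030e83))) 
(.lf (nat_lit 3960062020) (dlOf (nat_lit 3) (nat_lit 0x66011401a0084017c03f00b601980130024000a81401fc08c013004300b002000014418018800800cc002005c00081a1883)))) 
(.lf (nat_lit 738574404) (dlOf (nat_lit 2) (nat_lit 0x8702a802b8150000409e012e037007101b004d8088027c03c00cc019001c0058000944800900080014002003400080b0583))))) 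
(.nd (nat_lit 7) (.nd (nat_lit 9) 
(.lf (nat_lit 3959543876) (dlOf (nat_lit 1) (nat_lit 0x40020002000811a682))) (.nd (nat_lit 27) 
(.lf (nat_lit 2751584836) (dlOf (nat_lit 2) (nat_lit 0x390aa0000c008001000800040020004000800b503))) 
(.lf (nat_lit 3959544388) (dlOf (nat_lit 2) (nat_lit 0x409c00520230001802811b500))))) 
(.nd (nat_lit 5) 
(.lf (nat_lit 3825323204) (dlOf (nat_lit 1) (nat_lit 0x8008000400200020008146383))) 
(.lf (nat_lit 6509678308) (dlOf (nat_lit 1) (nat_lit 0x400400020008147382))))))) (.nd (nat_lit 20) 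
(.nd (nat_lit 22) (.nd (nat_lit 5) (.nd (nat_lit 23) 
(.lf (nat_lit 52543556) (dlOf (nat_lit 1) (nat_lit 0x80029550601))) 
(.lf (nat_lit 10600516) (dlOf (nat_lit 3) (nat_lit 0x1065000102810009328000000080058008003c00200060008600d83)))) 
(.lf (nat_lit 44155108) (dlOf (nat_lit 1) (nat_lit 0x2400292d1b01)))) (.nd (nat_lit 7) 
(.nd (nat_lit 9) (.lf (nat_lit 48611396) (dlOf (nat_lit 1) (nat_lit 0x20029420601))) 
(.lf (nat_lit 23446084) (dlOf (nat_lit 1) (nat_lit 0x400200020008b81102)))) 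
(.lf (nat_lit 48350404) (dlOf (nat_lit 2) (nat_lit 0x14000000000080010008002c00200660009402d03))))) 
(.nd (nat_lit 22) (.nd (nat_lit 7) (.nd (nat_lit 11) 
(.lf (nat_lit 11649604) (dlOf (nat_lit 1) (nat_lit 0x4002000200086c1102))) 
(.lf (nat_lit 45468228) (dlOf (nat_lit 1) (nat_lit 0x20029325201)))) 
(.lf (nat_lit 20042436) (dlOf (nat_lit 1) (nat_lit 0x80080004002000200089d8c83)))) (.nd (nat_lit 5) 
(.nd (nat_lit 9) (.lf (nat_lit 24232004) (dlOf (nat_lit 1) (nat_lit 0x400400020008b90e02))) 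
(.lf (nat_lit 8241732) (dlOf (nat_lit 1) (nat_lit 0x800400060008511582)))) 
(.lf (nat_lit 7981284) (dlOf (nat_lit 1) (nat_lit 0x400400020008514b02))))))) (.nd (nat_lit 20) 
(.nd (nat_lit 5) (.nd (nat_lit 7) (.nd (nat_lit 26) (.nd (nat_lit 10) 
(.lf (nat_lit 671205700) (dlOf (nat_lit 1) (nat_lit 0x400200280008144d02))) 
(.lf (nat_lit 1611253060) (dlOf (nat_lit 2) (nat_lit 0x204e0000c018123300)))) (.nd (nat_lit 30) 
(.lf (nat_lit 2751580484) (dlOf (nat_lit 1) (nat_lit 0x8008000800200020008004d03))) 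
(.lf (nat_lit 1677838660) (dlOf (nat_lit 1) (nat_lit 0xc0028114d01))))) (.nd (nat_lit 9) 
(.lf (nat_lit 23445956) (dlOf (nat_lit 2) (nat_lit 0xcab60001a818b80900))) (.nd (nat_lit 10) 
(.lf (nat_lit 121796) (dlOf (nat_lit 1) (nat_lit 0x4001800be01))) 
(.lf (nat_lit 5905696708) (dlOf (nat_lit 1) (nat_lit 0x400400020008144402)))))) (.nd (nat_lit 10) 
(.nd (nat_lit 7) (.nd (nat_lit 22) 
(.lf (nat_lit 3288449380) (dlOf (nat_lit 1) (nat_lit 0x400400020008014f02))) 
(.lf (nat_lit 2755772772) (dlOf (nat_lit 1) (nat_lit 0xa00281b0701)))) 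
(.lf (nat_lit 2751579108) (dlOf (nat_lit 1) (nat_lit 0x20008002881)))) (.nd (nat_lit 11) 
(.lf (nat_lit 116068) (dlOf (nat_lit 1) (nat_lit 0x400400020008003482))) 
(.lf (nat_lit 3221343588) (dlOf (nat_lit 1) (nat_lit 0x20028116a81)))))) (.nd (nat_lit 18) 
(.nd (nat_lit 7) (.nd (nat_lit 10) 
(.lf (nat_lit 20040516) (dlOf (nat_lit 1) (nat_lit 0x4002000200089d5c02))) 
(.lf (nat_lit 7980868) (dlOf (nat_lit 1) (nat_lit 0x40008513e01)))) (.nd (nat_lit 5) 
(.nd (nat_lit 19) 
(.lf (nat_lit 11649476) (dlOf (nat_lit 2) (nat_lit 0x18a320002002000400186c0901))) 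
(.lf (nat_lit 2753151428) (dlOf (nat_lit 5) (nat_lit 0x4b8840023840801da1f800900fb0003878001e82d2010e159005c0a9004204e8019826a0002014011c1f80000f8100910fc0000780805607e0000000400a800400680018090902)))) 
(.lf (nat_lit 7984612) (dlOf (nat_lit 1) (nat_lit 0x8008002000200080008519b03))))) (.nd (nat_lit 5) 
(.nd (nat_lit 9) (.nd (nat_lit 10) 
(.lf (nat_lit 3522884) (dlOf (nat_lit 4) (nat_lit 0x68d04000266b00262748018936000064100060d04002e4e9002f26c0000c41800f1a080018cd6002a4e9006f26c000312800006014001000400280018200602))) 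
(.lf (nat_lit 50185540) (dlOf (nat_lit 2) (nat_lit 0x63a18000340800600080028002000800094c3303)))) 
(.lf (nat_lit 8243012) (dlOf (nat_lit 1) (nat_lit 0x400200020008513e02)))) (.nd (nat_lit 19) 
(.lf (nat_lit 11911524) (dlOf (nat_lit 2) (nat_lit 0xea458000d0080010008000c002001000086c0703))) 
(.lf (nat_lit 2755510628) (dlOf (nat_lit 3) (nat_lit 0x120058000c80800600e40005e04004400400a400181b0702)))))))) 
(.nd (nat_lit 7) (.nd (nat_lit 18) (.nd (nat_lit 10) (.nd (nat_lit 5) (.nd (nat_lit 9) 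
(.nd (nat_lit 27) 
(.lf (nat_lit 2483142724) (dlOf (nat_lit 6) (nat_lit 0x800a802a8050005c0180000a8302b7015019600a00a74030001a0000000a04000b01500400080041c03c000a018001700b806d0040020801e00fa00e00800068018003001b8012000131600020240000881000a01400003c0805c80080344002001e0008030e83))) 
(.lf (nat_lit 5301715012) (dlOf (nat_lit 1) (nat_lit 0xde0008040481)))) 
(.lf (nat_lit 3491349060) (dlOf (nat_lit 2) (nat_lit 0x6a0f6800098080298008001400200080008091103)))) 
(.nd (nat_lit 8) (.lf (nat_lit 1342816356) (dlOf (nat_lit 1) (nat_lit 0x4002000200080d1382))) 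
(.lf (nat_lit 4563519844) (dlOf (nat_lit 1) (nat_lit 0xc0018094e81))))) (.nd (nat_lit 8) 
(.nd (nat_lit 5) (.nd (nat_lit 9) 
(.lf (nat_lit 6375457860) (dlOf (nat_lit 1) (nat_lit 0x400400020008002882))) 
(.lf (nat_lit 2617366084) (dlOf (nat_lit 1) (nat_lit 0x200280a9c01)))) 
(.lf (nat_lit 1345439332) (dlOf (nat_lit 3) (nat_lit 0xce165000198100030b28000c8080018008000800200620008bb3903)))) 
(.nd (nat_lit 9) 
(.lf (nat_lit 4093756740) (dlOf (nat_lit 1) (nat_lit 0x30008001c00200020008003303))) 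
(.lf (nat_lit 3087124292) (dlOf (nat_lit 1) (nat_lit 0x8008000400200020008143e03)))))) 
(.nd (nat_lit 5) (.nd (nat_lit 21) (.nd (nat_lit 19) (.nd (nat_lit 22) 
(.lf (nat_lit 4026908740) (dlOf (nat_lit 3) (nat_lit 0x10040000b8040094046000c00c0001d0280c1880))) 
(.lf (nat_lit 474333252) (dlOf (nat_lit 12) (nat_lit 0x312300018908001046c00081ce00010e2000187000029a18000c46c0014502000624600180e700010710000c38400041be000a185000412300010908001446c00041cc00030e200030700001b218000448c0002242000111d80020700001ae10000448c0002242000511d800088d800043a000021cc00010e2000187000019e20000c48c000624200060e800008730001038800081c000066860002121000188ec001046c00061d000030e600010710000c380000cc0e000207f0005e810006049000281fc0016e08001845c0012225000b0d90000701800780080008002006a0009150d83)))) 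
(.lf (nat_lit 5772263492) (dlOf (nat_lit 1) (nat_lit 0x180018090001)))) (.nd (nat_lit 8) 
(.nd (nat_lit 29) (.lf (nat_lit 3492134980) (dlOf (nat_lit 2) (nat_lit 0xca08b000100180a0e00))) 
(.lf (nat_lit 1881522244) (dlOf (nat_lit 17) (nat_lit 0xc07a000b18101f1071805181ec002920802b41c600da07b000a102012c0718004cc080e8838c00300f60012f04001a0e30009701010507180047408084038c001d20401641c6000e80200f00e30007381011b07180039408144038c001c80400401c6000e20200b00e30007081000f071800380080b7038c00194040060002000c0008f40602)))) 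
(.lf (nat_lit 3492661060) (dlOf (nat_lit 1) (nat_lit 0x1200280f3e01))))) (.nd (nat_lit 8) 
(.nd (nat_lit 21) (.lf (nat_lit 1346748516) (dlOf (nat_lit 1) (nat_lit 0x1000200060009000982))) 
(.lf (nat_lit 3492135012) (dlOf (nat_lit 4) (nat_lit 0x81140001d02000208a0000b81000203e80000c0801200080084002003400080a1383)))) 
(.nd (nat_lit 20) (.nd (nat_lit 26) 
(.lf (nat_lit 1879949668) (dlOf (nat_lit 2) (nat_lit 0x2c1b8000150200160018490701))) 
(.lf (nat_lit 1007534436) (dlOf (nat_lit 2) (nat_lit 0x2c1b8000150200160018490701)))) 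
(.lf (nat_lit 3493708132) (dlOf (nat_lit 3) (nat_lit 0x120058000c80800600e40005e04004400400a400181b0702))))))) 
(.nd (nat_lit 26) (.nd (nat_lit 10) (.nd (nat_lit 5) (.nd (nat_lit 8) 
(.lf (nat_lit 2952904900) (dlOf (nat_lit 2) (nat_lit 0x201c000b9018010400))) 
(.lf (nat_lit 3491348932) (dlOf (nat_lit 5) (nat_lit 0x4b87ec03b43cc01201e4008e0f10003872c01e82ca00b815c00870aa004204e8019826a0002014011c1e60000f8100910f3000078080560798000000400a800400680018090902)))) 
(.nd (nat_lit 8) (.nd (nat_lit 11) 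
(.lf (nat_lit 1343865060) (dlOf (nat_lit 2) (nat_lit 0x50b2800084080008008000400200020008370583))) 
(.lf (nat_lit 939641060) (dlOf (nat_lit 3) (nat_lit 0x2004a000e0200000c820009012800280800003008006c004000c0008144b02)))) 
(.lf (nat_lit 5771479524) (dlOf (nat_lit 1) (nat_lit 0x400400020008004e82))))) (.nd (nat_lit 9) 
(.nd (nat_lit 21) (.lf (nat_lit 5772526820) (dlOf (nat_lit 1) (nat_lit 0x40008092e01))) 
(.lf (nat_lit 1345438948) (dlOf (nat_lit 1) (nat_lit 0x800400020018bb2e02)))) (.nd (nat_lit 5) 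
(.lf (nat_lit 805424836) (dlOf (nat_lit 2) (nat_lit 0xc0000000a0200100018117281))) 
(.nd (nat_lit 11) (.lf (nat_lit 3492660964) (dlOf (nat_lit 1) (nat_lit 0x4002000200080f3a82))) 
(.lf (nat_lit 805424868) (dlOf (nat_lit 1) (nat_lit 0x20028117381))))))) (.nd (nat_lit 19) 
(.nd (nat_lit 5) (.nd (nat_lit 10) 
(.lf (nat_lit 2080751812) (dlOf (nat_lit 1) (nat_lit 0xbc004000200180c1702))) (.nd (nat_lit 12) 
(.lf (nat_lit 474072260) (dlOf (nat_lit 5) (nat_lit 0x4018000140100010a60000852800041ae00025060140169009d0b3005080600003e0c000c2d2000601800009829082d00))) 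
(.lf (nat_lit 2617365700) (dlOf (nat_lit 1) (nat_lit 0x100080004002000200080a9503))))) 
(.nd (nat_lit 9) 
(.lf (nat_lit 1946272228) (dlOf (nat_lit 1) (nat_lit 0x78008000800200040008017303))) 
(.lf (nat_lit 1009107940) (dlOf (nat_lit 1) (nat_lit 0x260009082881))))) (.nd (nat_lit 5) 
(.nd (nat_lit 8) (.lf (nat_lit 6375981252) (dlOf (nat_lit 1) (nat_lit 0x400400020008031702))) 
(.nd (nat_lit 20) (.lf (nat_lit 4094280132) (dlOf (nat_lit 1) (nat_lit 0x400400020008037002))) 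
(.lf (nat_lit 473547204) (dlOf (nat_lit 1) (nat_lit 0x40018f67a81))))) (.nd (nat_lit 18) 
(.lf (nat_lit 6375981284) (dlOf (nat_lit 1) (nat_lit 0x1c00400020018031b02))) 
(.lf (nat_lit 1007534308) (dlOf (nat_lit 1) (nat_lit 0x640018490481))))))))))) (.nd (nat_lit 5) 
(.nd (nat_lit 2) (.nd (nat_lit 6) (.nd (nat_lit 18) (.nd (nat_lit 19) (.nd (nat_lit 10) 
(.nd (nat_lit 24) (.nd (nat_lit 30) (.nd (nat_lit 22) (.nd (nat_lit 27) 
(.lf (nat_lit 2483142672) (dlOf (nat_lit 2) (nat_lit 0x1400e8060f00800500080004002001c0008030883))) 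
(.lf (nat_lit 2348924944) (dlOf (nat_lit 2) (nat_lit 0x1400f006e680800500080004002001c0008030883)))) 
(.lf (nat_lit 12697616) (dlOf (nat_lit 1) (nat_lit 0x200186d0681)))) (.nd (nat_lit 7) 
(.nd (nat_lit 9) (.lf (nat_lit 5972805648) (dlOf (nat_lit 1) (nat_lit 0x400200020008144702))) 
(.lf (nat_lit 1073857040) (dlOf (nat_lit 5) (nat_lit 0x4c0290024f81000e0148012780803b00a40092a0400b0052004930200100018018401)))) 
(.lf (nat_lit 1409403280) (dlOf (nat_lit 1) (nat_lit 0x20008004e81))))) (.nd (nat_lit 20) 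
(.nd (nat_lit 21) 
(.lf (nat_lit 25280528) (dlOf (nat_lit 1) (nat_lit 0x1780080004002001c0008bf0883))) 
(.lf (nat_lit 23183376) (dlOf (nat_lit 2) (nat_lit 0x350000004f20400e0002000e0008b60502)))) 
(.nd (nat_lit 8) (.lf (nat_lit 24231952) (dlOf (nat_lit 1) (nat_lit 0x20018b90681))) 
(.lf (nat_lit 20037904) (dlOf (nat_lit 1) (nat_lit 0x4002000200089d0a82)))))) (.nd (nat_lit 8) 
(.nd (nat_lit 11) (.nd (nat_lit 20) 
(.lf (nat_lit 469877776) (dlOf (nat_lit 1) (nat_lit 0x80028002881))) 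
(.lf (nat_lit 36815888) (dlOf (nat_lit 1) (nat_lit 0x4a0029072881)))) (.nd (nat_lit 7) 
(.nd (nat_lit 24) (.lf (nat_lit 1346489360) (dlOf (nat_lit 1) (nat_lit 0x380008f65f81))) 
(.lf (nat_lit 54643728) (dlOf (nat_lit 1) (nat_lit 0x140019655f81)))) 
(.lf (nat_lit 6576786576) (dlOf (nat_lit 1) (nat_lit 0x20028146201))))) (.nd (nat_lit 9) 
(.nd (nat_lit 28) (.lf (nat_lit 3221343632) (dlOf (nat_lit 1) (nat_lit 0x800400040008116c82))) 
(.lf (nat_lit 805424528) (dlOf (nat_lit 1) (nat_lit 0x8008000400200040008116c83)))) 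
(.nd (nat_lit 27) (.nd (nat_lit 29) 
(.lf (nat_lit 116624) (dlOf (nat_lit 1) (nat_lit 0x20028004201))) 
(.lf (nat_lit 536987536) (dlOf (nat_lit 2) (nat_lit 0x3817c0001c04002c00400180018004202)))) 
(.lf (nat_lit 939640720) (dlOf (nat_lit 1) (nat_lit 0x200028144201))))))) (.nd (nat_lit 21) 
(.nd (nat_lit 8) (.nd (nat_lit 20) (.nd (nat_lit 26) (.nd (nat_lit 29) 
(.lf (nat_lit 134856720) (dlOf (nat_lit 3) (nat_lit 0x78082001603d00d22820032020801180f4034860800cc004003200080d0882))) 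
(.lf (nat_lit 3892953104) (dlOf (nat_lit 3) (nat_lit 0x12024000400e801e9810002806400080300074804000200282a0a01)))) 
(.lf (nat_lit 201965584) (dlOf (nat_lit 3) (nat_lit 0x78082001603d00ed5020032020801180f403b500800cc004003200080d0882)))) 
(.lf (nat_lit 10076176) (dlOf (nat_lit 1) (nat_lit 0x4002000200085b0482)))) (.nd (nat_lit 7) 
(.lf (nat_lit 34194704) (dlOf (nat_lit 1) (nat_lit 0x400200020008fb3002))) (.nd (nat_lit 9) 
(.lf (nat_lit 641424) (dlOf (nat_lit 1) (nat_lit 0x8008000400200020008004e83))) 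
(.lf (nat_lit 2752104336) (dlOf (nat_lit 2) (nat_lit 0x480900001c04000c00200020008004202)))))) 
(.nd (nat_lit 20) (.nd (nat_lit 27) (.nd (nat_lit 23) 
(.lf (nat_lit 2736144) (dlOf (nat_lit 3) (nat_lit 0x2000004a901000651f802394080048008001c002004c00081a0a03))) 
(.lf (nat_lit 27901968) (dlOf (nat_lit 2) (nat_lit 0x12d5100086a780033320000be0c009c004001a0008d40202)))) 
(.nd (nat_lit 8) 
(.lf (nat_lit 1009369104) (dlOf (nat_lit 2) (nat_lit 0x780000002804000400200080009130102))) 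
(.lf (nat_lit 5774098704) (dlOf (nat_lit 1) (nat_lit 0x8002001a00080f3a02))))) (.nd (nat_lit 7) 
(.nd (nat_lit 23) 
(.lf (nat_lit 24756240) (dlOf (nat_lit 5) (nat_lit 0x1caf2000dd75a002cb090001583000f5e40006aeb4000360800417900016bad0000d0200075e4000064080040008002400200040008bb0103))) 
(.lf (nat_lit 16367632) (dlOf (nat_lit 14) (nat_lit 0x3cad40004402001e56a000324580010c1000495a800308ea0004104001056a0006245800211d4000800c002cad4000648b000423a8000f81800415a80018916000c4750001e83000e2b50000f00800315a80007604003cad40018568000a23a8000dc1800391d40006c040038ad40003502001056a00052458000d01000795a80018916000000400020018890281)))) 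
(.nd (nat_lit 10) (.lf (nat_lit 20564880) (dlOf (nat_lit 1) (nat_lit 0x200289d5c81))) 
(.lf (nat_lit 7980944) (dlOf (nat_lit 1) (nat_lit 0x20028514201)))))))) (.nd (nat_lit 26) 
(.nd (nat_lit 20) (.nd (nat_lit 29) (.nd (nat_lit 19) (.nd (nat_lit 21) 
(.lf (nat_lit 12959760) (dlOf (nat_lit 1) (nat_lit 0x7e00086f0101))) 
(.lf (nat_lit 44417040) (dlOf (nat_lit 1) (nat_lit 0xac0019310081)))) (.nd (nat_lit 7) 
(.lf (nat_lit 13484048) (dlOf (nat_lit 1) (nat_lit 0x240018730881))) 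
(.lf (nat_lit 36555152) (dlOf (nat_lit 1) (nat_lit 0x20019074e81))))) (.nd (nat_lit 28) 
(.nd (nat_lit 30) (.lf (nat_lit 4832215056) (dlOf (nat_lit 1) (nat_lit 0x1c400200820008110002))) 
(.lf (nat_lit 5905956880) (dlOf (nat_lit 1) (nat_lit 0x40018170881)))) (.nd (nat_lit 21) 
(.nd (nat_lit 30) 
(.lf (nat_lit 805683216) (dlOf (nat_lit 13) (nat_lit 0x4015800800aa00160530041025002600c802d081401340ac00e60550061029800a01380010098010804a000201a004680c8008c062007e01200b418a004c019005a000800c812802cfa040060064000201300b2782000f02b0057fc08016815402bfa0400b40aa015fc02006005500af681002002b00208114021405a014ec0600140560014c81001402b0002815400900a6001a051003c025001d80c807f0026000200a0001000000000482e2800804180020a1e0008180503))) 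
(.lf (nat_lit 1879425040) (dlOf (nat_lit 1) (nat_lit 0x30004000a0018140102)))) 
(.lf (nat_lit 1881522192) (dlOf (nat_lit 1) (nat_lit 0x800200100008f40002)))))) (.nd (nat_lit 19) 
(.nd (nat_lit 9) (.nd (nat_lit 22) 
(.lf (nat_lit 1343602704) (dlOf (nat_lit 1) (nat_lit 0x180080008002000600082b0283))) 
(.lf (nat_lit 22396944) (dlOf (nat_lit 1) (nat_lit 0xaa000203160008ad0202)))) 
(.lf (nat_lit 1345702416) (dlOf (nat_lit 1) (nat_lit 0x300080004002000c0008dd5083)))) 
(.nd (nat_lit 7) (.nd (nat_lit 21) 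
(.lf (nat_lit 14532624) (dlOf (nat_lit 1) (nat_lit 0x10008000400200040008760283))) 
(.lf (nat_lit 16629776) (dlOf (nat_lit 1) (nat_lit 0x400288c0681)))) 
(.lf (nat_lit 33409424) (dlOf (nat_lit 1) (nat_lit 0x20018f54e81)))))) (.nd (nat_lit 29) 
(.nd (nat_lit 31) (.nd (nat_lit 10) 
(.lf (nat_lit 68534288) (dlOf (nat_lit 1) (nat_lit 0x19c00085b0281))) 
(.lf (nat_lit 70110224) (dlOf (nat_lit 2) (nat_lit 0xd80e4000ac04000c00200300008ec5f82)))) 
(.nd (nat_lit 27) (.nd (nat_lit 30) 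
(.lf (nat_lit 6509936656) (dlOf (nat_lit 1) (nat_lit 0x40018170881))) 
(.lf (nat_lit 3288711184) (dlOf (nat_lit 1) (nat_lit 0x200280c0881)))) 
(.lf (nat_lit 2617622544) (dlOf (nat_lit 2) (nat_lit 0x30150002a4080160008001c00200900008100203))))) 
(.nd (nat_lit 8) (.nd (nat_lit 10) (.nd (nat_lit 27) 
(.lf (nat_lit 1678098448) (dlOf (nat_lit 13) (nat_lit 0x100158010408a010a02d00b2983000802b00100154002c0a6008204a004c01900545428026815801cc0aa00c205300140270002013002100940004034008d019001180c400fc0240151414009803200a888100190250054380800c00c80004026014e804005a05500a4c81002d02a8052600800781580291a0400c00aa0147e0200140560014981001402b0002815400900a6001a051003c025001d80c807f0026000200a0001000000000482e2800804180020a1e0008180503))) 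
(.lf (nat_lit 1007009808) (dlOf (nat_lit 1) (nat_lit 0x30004000a0018140102)))) 
(.lf (nat_lit 2751841296) (dlOf (nat_lit 1) (nat_lit 0x400200020008002882)))) (.nd (nat_lit 7) 
(.lf (nat_lit 1009108240) (dlOf (nat_lit 2) (nat_lit 0x30718000cc0800f0008019800200a00009083003))) 
(.lf (nat_lit 1008585104) (dlOf (nat_lit 1) (nat_lit 0x100028dd4e81)))))))) (.nd (nat_lit 18) 
(.nd (nat_lit 29) (.nd (nat_lit 20) (.nd (nat_lit 9) (.nd (nat_lit 24) (.nd (nat_lit 27) 
(.nd (nat_lit 28) (.lf (nat_lit 5435932752) (dlOf (nat_lit 1) (nat_lit 0x20028040501))) 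
(.lf (nat_lit 2483142736) (dlOf (nat_lit 1) (nat_lit 0x40018031001)))) 
(.lf (nat_lit 2348925008) (dlOf (nat_lit 1) (nat_lit 0x40018031001)))) (.nd (nat_lit 23) 
(.lf (nat_lit 16891984) (dlOf (nat_lit 2) (nat_lit 0x69a1b0035887e0005f04001200188e0201))) 
(.lf (nat_lit 25280592) (dlOf (nat_lit 2) (nat_lit 0x800000027818bf0d00))))) (.nd (nat_lit 10) 
(.nd (nat_lit 11) 
(.lf (nat_lit 2617360976) (dlOf (nat_lit 2) (nat_lit 0x601580011c0800080080008002000200080a1683))) 
(.lf (nat_lit 58837584) (dlOf (nat_lit 1) (nat_lit 0x4002000400097e5282)))) 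
(.lf (nat_lit 4496410192) (dlOf (nat_lit 1) (nat_lit 0xa0028053881))))) (.nd (nat_lit 7) 
(.nd (nat_lit 8) (.nd (nat_lit 9) 
(.lf (nat_lit 26329168) (dlOf (nat_lit 1) (nat_lit 0x40018c30701))) 
(.lf (nat_lit 7980624) (dlOf (nat_lit 1) (nat_lit 0x1000400020008513882)))) (.nd (nat_lit 9) 
(.lf (nat_lit 11649360) (dlOf (nat_lit 1) (nat_lit 0x2000286c0601))) 
(.lf (nat_lit 20038480) (dlOf (nat_lit 1) (nat_lit 0x4002000200089d2482))))) (.nd (nat_lit 9) 
(.nd (nat_lit 10) 
(.lf (nat_lit 3491348944) (dlOf (nat_lit 5) (nat_lit 0x27c3fa02861e800a30af804004e000c826e000190a00bc1fd01160f40000601006607f405b43d0019e15f000a0a7805584e0020c26e000170c040e1fd02a70f4011d8578000000c011c00200040008090a02))) 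
(.lf (nat_lit 20567504) (dlOf (nat_lit 1) (nat_lit 0x1c00189d9b01)))) (.nd (nat_lit 8) 
(.lf (nat_lit 7979728) (dlOf (nat_lit 2) (nat_lit 0x7200000019018512000))) 
(.lf (nat_lit 7981008) (dlOf (nat_lit 1) (nat_lit 0x400400020008514502))))))) (.nd (nat_lit 11) 
(.nd (nat_lit 7) (.nd (nat_lit 26) (.nd (nat_lit 8) 
(.lf (nat_lit 5905695824) (dlOf (nat_lit 1) (nat_lit 0x240018142881))) 
(.lf (nat_lit 4026646864) (dlOf (nat_lit 1) (nat_lit 0x1400400020008014d82)))) (.nd (nat_lit 19) 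
(.lf (nat_lit 5301715024) (dlOf (nat_lit 1) (nat_lit 0x20028040501))) 
(.lf (nat_lit 3960062032) (dlOf (nat_lit 4) (nat_lit 0x258130013808a00e004200ad0048000b820050810c028c08000e8038000138300020138000000803c800801e4002007800081a1903))))) 
(.nd (nat_lit 9) (.nd (nat_lit 19) 
(.lf (nat_lit 1881260496) (dlOf (nat_lit 10) (nat_lit 0x980328000fc0804a01940007a0402600ca000360201320650001a0100970328000a80804b8194000400402540ca0000c02012a06500004810095032800101580000008002c00400060008e81102))) 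
(.lf (nat_lit 2753151440) (dlOf (nat_lit 5) (nat_lit 0x27c42402861fa00a30aa804004e000c826e000190a00bc21201160fd00006010066084805b43f4019e155000a0a7805584e0020c26e000170c040e21202a70fd011d8550000000c011c00200040008090a02)))) 
(.lf (nat_lit 3087124432) (dlOf (nat_lit 1) (nat_lit 0xd80028144501))))) (.nd (nat_lit 8) 
(.nd (nat_lit 9) (.nd (nat_lit 26) 
(.lf (nat_lit 5905696848) (dlOf (nat_lit 1) (nat_lit 0x400400020008144702))) 
(.lf (nat_lit 1677838416) (dlOf (nat_lit 1) (nat_lit 0x8008000400200020008114703)))) 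
(.lf (nat_lit 2754727504) (dlOf (nat_lit 1) (nat_lit 0x200280f7181)))) (.nd (nat_lit 26) 
(.nd (nat_lit 10) 
(.lf (nat_lit 671205712) (dlOf (nat_lit 3) (nat_lit 0x1a01c0000b01000200e000010080030008002800200080008144d83))) 
(.lf (nat_lit 805424464) (dlOf (nat_lit 1) (nat_lit 0x40028116a01)))) (.nd (nat_lit 7) 
(.nd (nat_lit 12) (.lf (nat_lit 1677838672) (dlOf (nat_lit 2) (nat_lit 0x804c00012818114d80))) 
(.lf (nat_lit 2751584592) (dlOf (nat_lit 1) (nat_lit 0xc001800ab81)))) 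
(.lf (nat_lit 738314704) (dlOf (nat_lit 1) (nat_lit 0x60028094e81)))))))) (.nd (nat_lit 30) 
(.nd (nat_lit 22) (.nd (nat_lit 31) (.nd (nat_lit 9) (.nd (nat_lit 19) (.nd (nat_lit 20) 
(.lf (nat_lit 738574416) (dlOf (nat_lit 2) (nat_lit 0x4029800080d40001c08012800400d000080b0682))) 
(.lf (nat_lit 1425488) (dlOf (nat_lit 2) (nat_lit 0x370000000ac0800080080008002002a00080c1003)))) 
(.lf (nat_lit 901200) (dlOf (nat_lit 1) (nat_lit 0x20028031001)))) (.nd (nat_lit 10) 
(.lf (nat_lit 45468240) (dlOf (nat_lit 2) (nat_lit 0x1200000000019325280))) 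
(.lf (nat_lit 8767056) (dlOf (nat_lit 1) (nat_lit 0x100018513881))))) (.nd (nat_lit 26) 
(.nd (nat_lit 27) (.lf (nat_lit 2416296016) (dlOf (nat_lit 2) (nat_lit 0x801d000240180d0d00))) 
(.lf (nat_lit 2550513744) (dlOf (nat_lit 2) (nat_lit 0x801c000278180d0d00)))) (.nd (nat_lit 8) 
(.lf (nat_lit 6509936720) (dlOf (nat_lit 1) (nat_lit 0x20028171001))) 
(.lf (nat_lit 2755510608) (dlOf (nat_lit 1) (nat_lit 0x200181b0601)))))) (.nd (nat_lit 21) 
(.nd (nat_lit 19) (.nd (nat_lit 20) 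
(.lf (nat_lit 29737040) (dlOf (nat_lit 2) (nat_lit 0xfb374019191c00dac8d00154240003a0060004f69003d78600017c380118008005c00200180008e30203))) 
(.lf (nat_lit 55951440) (dlOf (nat_lit 2) (nat_lit 0x1985348000380802180080054002007200096f0703)))) 
(.lf (nat_lit 13484112) (dlOf (nat_lit 2) (nat_lit 0x680000009004000c00200020008730d02)))) 
(.nd (nat_lit 8) (.lf (nat_lit 48611408) (dlOf (nat_lit 1) (nat_lit 0x400400060019420702))) 
(.lf (nat_lit 23445840) (dlOf (nat_lit 2) (nat_lit 0x4ebc800019018b80600)))))) (.nd (nat_lit 19) 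
(.nd (nat_lit 28) (.nd (nat_lit 7) (.nd (nat_lit 32) 
(.lf (nat_lit 1610989648) (dlOf (nat_lit 2) (nat_lit 0x4029800080d40001c08012800400d000080b0682))) 
(.lf (nat_lit 5905956944) (dlOf (nat_lit 1) (nat_lit 0x20028171001)))) 
(.lf (nat_lit 1208336592) (dlOf (nat_lit 1) (nat_lit 0x200180c1b81)))) (.nd (nat_lit 21) 
(.nd (nat_lit 22) 
(.lf (nat_lit 4026908752) (dlOf (nat_lit 7) (nat_lit 0x12009400e804201e001e003200d8016005400a8020006c0090001a07009200f0000c8080048094014403c000310400220050001701008800f001980000004e080054046000e00c0000e8280c1900))) 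
(.lf (nat_lit 1346748496) (dlOf (nat_lit 1) (nat_lit 0x60009000701)))) 
(.lf (nat_lit 1881522256) (dlOf (nat_lit 5) (nat_lit 0x6901c6015c07b0001f8202070718000d808002038c000680404ac1c6000070200520018f40701))))) 
(.nd (nat_lit 8) (.nd (nat_lit 7) 
(.lf (nat_lit 3492661328) (dlOf (nat_lit 1) (nat_lit 0x4002000200080f4702))) 
(.lf (nat_lit 6377291984) (dlOf (nat_lit 1) (nat_lit 0x4002000200080c1b82)))) (.nd (nat_lit 10) 
(.lf (nat_lit 3493708112) (dlOf (nat_lit 1) (nat_lit 0x200181b0601))) 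
(.lf (nat_lit 1880999248) (dlOf (nat_lit 2) (nat_lit 0x1080000001e04001000200160008dd3302))))))))) 
(.nd (nat_lit 18) (.nd (nat_lit 6) (.nd (nat_lit 21) (.nd (nat_lit 10) (.nd (nat_lit 26) 
(.nd (nat_lit 22) (.nd (nat_lit 23) 
(.lf (nat_lit 2550251540) (dlOf (nat_lit 1) (nat_lit 0x8008000400200020008020483))) 
(.lf (nat_lit 25280532) (dlOf (nat_lit 1) (nat_lit 0x18008000400200020008bf0883)))) 
(.nd (nat_lit 19) (.lf (nat_lit 47300628) (dlOf (nat_lit 1) (nat_lit 0x4004000200093d0282))) 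
(.lf (nat_lit 21610516) (dlOf (nat_lit 3) (nat_lit 0x16756800a9bd40005104000e00000023018a50280))))) 
(.nd (nat_lit 9) (.nd (nat_lit 19) 
(.lf (nat_lit 1007796244) (dlOf (nat_lit 1) (nat_lit 0x2c002000600087b0482))) (.nd (nat_lit 27) 
(.lf (nat_lit 4362715156) (dlOf (nat_lit 1) (nat_lit 0x4004000200080e0a02))) 
(.lf (nat_lit 4228497428) (dlOf (nat_lit 1) (nat_lit 0x4004000200080e0a02))))) (.nd (nat_lit 12) 
(.lf (nat_lit 3556887060) (dlOf (nat_lit 1) (nat_lit 0x3c00280d5081))) 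
(.lf (nat_lit 3959544340) (dlOf (nat_lit 1) (nat_lit 0x48004000a001811b282)))))) (.nd (nat_lit 8) 
(.nd (nat_lit 7) (.nd (nat_lit 9) 
(.lf (nat_lit 6174133268) (dlOf (nat_lit 1) (nat_lit 0x400400020008055f82))) 
(.lf (nat_lit 5838589460) (dlOf (nat_lit 2) (nat_lit 0x38068001c032000c0178000c81800900080060002000200080f7083)))) 
(.nd (nat_lit 19) 
(.lf (nat_lit 474072212) (dlOf (nat_lit 6) (nat_lit 0x90b30002c408005059c00202cc000615700030ab00010510001028600080ce000406280010310002802c0018015000300000021c60001059c000819c0008604000616700030b300028510001419c0006016000a00a800214300040534000f204004c004000a0009082b82))) 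
(.lf (nat_lit 1008321684) (dlOf (nat_lit 1) (nat_lit 0x400400020008b52b82))))) (.nd (nat_lit 28) 
(.nd (nat_lit 30) 
(.lf (nat_lit 2751579924) (dlOf (nat_lit 2) (nat_lit 0x8282c4043410e0002304001c0028003c01))) 
(.lf (nat_lit 5972805396) (dlOf (nat_lit 1) (nat_lit 0x40018143c01)))) (.nd (nat_lit 7) 
(.lf (nat_lit 3087124244) (dlOf (nat_lit 1) (nat_lit 0x10008000800200020008143c03))) 
(.lf (nat_lit 6241240468) (dlOf (nat_lit 2) (nat_lit 0x10004000aa018053600))))))) (.nd (nat_lit 7) 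
(.nd (nat_lit 24) (.nd (nat_lit 22) (.nd (nat_lit 26) 
(.lf (nat_lit 3493445652) (dlOf (nat_lit 1) (nat_lit 0x40018140a01))) 
(.lf (nat_lit 2755248148) (dlOf (nat_lit 1) (nat_lit 0x40018140a01)))) (.nd (nat_lit 9) 
(.lf (nat_lit 48873492) (dlOf (nat_lit 1) (nat_lit 0x1280019440081))) 
(.lf (nat_lit 41009684) (dlOf (nat_lit 1) (nat_lit 0x20019208701))))) (.nd (nat_lit 20) 
(.nd (nat_lit 23) (.lf (nat_lit 19513364) (dlOf (nat_lit 1) (nat_lit 0x2c004000400089b0482))) 
(.lf (nat_lit 27901972) (dlOf (nat_lit 19) (nat_lit 0x1fed52000140100da6a90000980800d354800259920001f040048d52002166480007410016b54800059920001a0400d6d5200036648000641000a3548004199200018040056d520000b8100456a90003332400028080049aa40001002004ad52000078100246a900003408006354800018040125aa4004ccc90000282002e6a900000c0802d354800004040135aa400001020088d5200026648000001000d8008000400200080008d40303)))) 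
(.nd (nat_lit 19) (.lf (nat_lit 28426260) (dlOf (nat_lit 1) (nat_lit 0x40028d90381))) 
(.lf (nat_lit 24756244) (dlOf (nat_lit 10) (nat_lit 0xb0bc800545d680022c24000b40c02314da00059020006a6d0002c0100eb53680015c0809ea9b4000a80403e14da00033020032c1b0046557001ea9b4000580c01b979000d8bad000018200025e4000008080138008016400200020008bb0283)))))) 
(.nd (nat_lit 10) (.nd (nat_lit 9) (.nd (nat_lit 11) 
(.lf (nat_lit 1881260436) (dlOf (nat_lit 2) (nat_lit 0xa8064005402f800594100030008002c00200020008e81003))) 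
(.lf (nat_lit 20564372) (dlOf (nat_lit 1) (nat_lit 0x200080004002000200089d4e83)))) 
(.nd (nat_lit 8) (.lf (nat_lit 20042388) (dlOf (nat_lit 1) (nat_lit 0x4002000200089d8c82))) 
(.lf (nat_lit 20040596) (dlOf (nat_lit 1) (nat_lit 0x80080004002000200089d5c83))))) 
(.nd (nat_lit 19) (.nd (nat_lit 23) 
(.lf (nat_lit 1345439124) (dlOf (nat_lit 3) (nat_lit 0x3a09d000f90100e70b28006cc080108008001800200920008bb3603))) 
(.lf (nat_lit 61982100) (dlOf (nat_lit 1) (nat_lit 0xc00200120009923602)))) 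
(.lf (nat_lit 53069204) (dlOf (nat_lit 1) (nat_lit 0x40019573601))))))) (.nd (nat_lit 8) 
(.nd (nat_lit 26) (.nd (nat_lit 24) (.nd (nat_lit 7) (.nd (nat_lit 27) 
(.lf (nat_lit 3221864532) (dlOf (nat_lit 1) (nat_lit 0x200081a1601))) 
(.lf (nat_lit 134856788) (dlOf (nat_lit 3) (nat_lit 0x203800014810020021801280fc0004a0800a4004005600080d0d82)))) 
(.nd (nat_lit 27) (.lf (nat_lit 2952904916) (dlOf (nat_lit 1) (nat_lit 0x400400020008010502))) 
(.lf (nat_lit 4697735380) (dlOf (nat_lit 1) (nat_lit 0x20028090901))))) (.nd (nat_lit 9) 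
(.nd (nat_lit 23) 
(.lf (nat_lit 16891988) (dlOf (nat_lit 2) (nat_lit 0x450d8000c43f0001b0288e0280))) 
(.lf (nat_lit 25280596) (dlOf (nat_lit 3) (nat_lit 0x80000003302003400000012818bf0d80)))) 
(.lf (nat_lit 20044372) (dlOf (nat_lit 1) (nat_lit 0x1880080030002000e00089db683))))) 
(.nd (nat_lit 19) (.nd (nat_lit 7) (.nd (nat_lit 27) 
(.lf (nat_lit 2483142740) (dlOf (nat_lit 1) (nat_lit 0x38008004c00200080008031083))) 
(.lf (nat_lit 2348925012) (dlOf (nat_lit 1) (nat_lit 0x38008004c00200080008031083)))) 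
(.lf (nat_lit 1275184340) (dlOf (nat_lit 1) (nat_lit 0x400400020008092d82)))) (.nd (nat_lit 21) 
(.nd (nat_lit 29) 
(.lf (nat_lit 201965652) (dlOf (nat_lit 3) (nat_lit 0x203800014810020021801280fc0004a0800a4004005600080d0d82))) 
(.lf (nat_lit 3960062036) (dlOf (nat_lit 2) (nat_lit 0x5500500008808082000809b8002009e00081a1983)))) 
(.lf (nat_lit 4096376916) (dlOf (nat_lit 2) (nat_lit 0x3104d00000c0400a800400020008100682)))))) 
(.nd (nat_lit 30) (.nd (nat_lit 9) (.nd (nat_lit 10) 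
(.lf (nat_lit 2751580500) (dlOf (nat_lit 1) (nat_lit 0x400400020008004e02))) 
(.lf (nat_lit 49923412) (dlOf (nat_lit 2) (nat_lit 0x2550000088194c3380)))) (.nd (nat_lit 10) 
(.lf (nat_lit 4563520340) (dlOf (nat_lit 1) (nat_lit 0x20028095c01))) 
(.lf (nat_lit 671205204) (dlOf (nat_lit 1) (nat_lit 0x400200060008143f02))))) (.nd (nat_lit 26) 
(.nd (nat_lit 7) (.nd (nat_lit 10) 
(.lf (nat_lit 5905697108) (dlOf (nat_lit 1) (nat_lit 0x400400020008144e02))) 
(.lf (nat_lit 3221343572) (dlOf (nat_lit 1) (nat_lit 0x400400020008116a02)))) 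
(.lf (nat_lit 1881260500) (dlOf (nat_lit 5) (nat_lit 0x2780ca0002202013e0650000481009d0328000140804d01940000004005400400100008e81182)))) 
(.nd (nat_lit 27) (.lf (nat_lit 1677838676) (dlOf (nat_lit 1) (nat_lit 0x400400020008114e02))) 
(.lf (nat_lit 3959540052) (dlOf (nat_lit 1) (nat_lit 0x400400020008114e02)))))))) (.nd (nat_lit 26) 
(.nd (nat_lit 20) (.nd (nat_lit 6) (.nd (nat_lit 28) (.nd (nat_lit 19) (.nd (nat_lit 27) 
(.lf (nat_lit 1610989588) (dlOf (nat_lit 2) (nat_lit 0x1814800340400023004000200280b0081))) 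
(.lf (nat_lit 3355820052) (dlOf (nat_lit 3) (nat_lit 0x400ac00056040028056000000200100008120381)))) 
(.lf (nat_lit 51232788) (dlOf (nat_lit 2) (nat_lit 0x86088000aca000054f6000aa69002b0049510000)))) 
(.nd (nat_lit 10) (.nd (nat_lit 31) 
(.lf (nat_lit 1879425044) (dlOf (nat_lit 1) (nat_lit 0x12000804b000200b80008140183))) 
(.lf (nat_lit 4026908692) (dlOf (nat_lit 7) (nat_lit 0x30034023600400c8022010c30200200110085e01000d0088042e0080080044020e40400300220106202000a00080c0a81)))) 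
(.nd (nat_lit 7) (.lf (nat_lit 3492660244) (dlOf (nat_lit 1) (nat_lit 0x200180f2881))) 
(.lf (nat_lit 3490040980) (dlOf (nat_lit 1) (nat_lit 0x20018006201)))))) (.nd (nat_lit 29) 
(.nd (nat_lit 10) (.nd (nat_lit 22) 
(.lf (nat_lit 901204) (dlOf (nat_lit 1) (nat_lit 0x2e0018031081))) 
(.lf (nat_lit 13484116) (dlOf (nat_lit 3) (nat_lit 0x549c400019810021000000094080010008000c00200040008730d83)))) 
(.lf (nat_lit 379988) (dlOf (nat_lit 1) (nat_lit 0x20028006081)))) (.nd (nat_lit 21) 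
(.nd (nat_lit 28) 
(.lf (nat_lit 1610989652) (dlOf (nat_lit 7) (nat_lit 0x3e053001e026001600d40064042004601d001f00c001000280001c1c00140a600080350006010800080600001a1000200a600120210000602000501080002808006014c0018042000a01800004830038029801e808400000080058002000200080b0682))) 
(.lf (nat_lit 4026908756) (dlOf (nat_lit 2) (nat_lit 0x36020001e009800080280007a0c0008004000e00080c1982)))) 
(.lf (nat_lit 1881522260) (dlOf (nat_lit 4) (nat_lit 0x1c41c60000a02019c0e3000030101a807180000008035000800b000200840008f40783)))))) 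
(.nd (nat_lit 19) (.nd (nat_lit 6) (.nd (nat_lit 7) 
(.lf (nat_lit 5619732) (dlOf (nat_lit 1) (nat_lit 0x200183b0481))) (.nd (nat_lit 23) 
(.lf (nat_lit 3522708) (dlOf (nat_lit 1) (nat_lit 0x6400400d00008200182))) 
(.lf (nat_lit 11911316) (dlOf (nat_lit 4) (nat_lit 0x9ea8a006452600008c080262a28015f49800022820098a8a005752600007008006c002002000086c0182))))) 
(.nd (nat_lit 8) 
(.lf (nat_lit 55951444) (dlOf (nat_lit 2) (nat_lit 0x45348000780800080080008002001000096f0783))) 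
(.lf (nat_lit 11911508) (dlOf (nat_lit 9) (nat_lit 0x39ea2801c14980002b0200d6a8a006b5260000aa08035ea2801ad4980002a020033a4c00014c0806bd450035a930000130401af51400d6a4c0000481003e545001f2930000110401b551400d7a4c00004010002000800b8002002800086c0683))))) 
(.nd (nat_lit 22) (.nd (nat_lit 6) (.nd (nat_lit 7) 
(.lf (nat_lit 54381588) (dlOf (nat_lit 1) (nat_lit 0x28008000400200020009655f83))) 
(.lf (nat_lit 37603732) (dlOf (nat_lit 1) (nat_lit 0x80080004002000200090d4e83)))) 
(.lf (nat_lit 4046932) (dlOf (nat_lit 2) (nat_lit 0x420d900000018270d80)))) (.nd (nat_lit 8) 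
(.nd (nat_lit 23) 
(.lf (nat_lit 22921236) (dlOf (nat_lit 2) (nat_lit 0x35de2000034080330008001000200100008b40383))) 
(.lf (nat_lit 14532628) (dlOf (nat_lit 1) (nat_lit 0x10008000400200040008760383)))) 
(.lf (nat_lit 8242964) (dlOf (nat_lit 2) (nat_lit 0x1d82d1005001a80008c100020008008400200080008513c03))))))) 
(.nd (nat_lit 31) (.nd (nat_lit 28) (.nd (nat_lit 27) (.nd (nat_lit 29) (.nd (nat_lit 32) 
(.lf (nat_lit 67485716) (dlOf (nat_lit 1) (nat_lit 0x400200020008180302))) 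
(.lf (nat_lit 4362453012) (dlOf (nat_lit 3) (nat_lit 0x501900003808014000000000040004004001a0008080402)))) 
(.lf (nat_lit 4899323924) (dlOf (nat_lit 1) (nat_lit 0x80008110281)))) (.nd (nat_lit 6) 
(.lf (nat_lit 738574356) (dlOf (nat_lit 2) (nat_lit 0x1814800340400024804000200280b0081))) 
(.lf (nat_lit 738574420) (dlOf (nat_lit 7) (nat_lit 0x3e053001e026001600d40064042004601d001f00c001000280001c1c00140a600080350006010800080600001a1000200a600120210000602000501080002808006014c0018042000a01800004830038029801e808400000080058002000200080b0682))))) 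
(.nd (nat_lit 19) (.nd (nat_lit 20) 
(.lf (nat_lit 1007009812) (dlOf (nat_lit 1) (nat_lit 0x12000804b000200b80008140183))) 
(.lf (nat_lit 471187476) (dlOf (nat_lit 1) (nat_lit 0x1000182b0401)))) (.nd (nat_lit 6) 
(.lf (nat_lit 470663188) (dlOf (nat_lit 2) (nat_lit 0x610300018254015ca08007800200360008150002))) 
(.lf (nat_lit 470663380) (dlOf (nat_lit 2) (nat_lit 0x4000000360200660008150501)))))) 
(.nd (nat_lit 7) (.nd (nat_lit 6) (.nd (nat_lit 27) 
(.lf (nat_lit 3288711188) (dlOf (nat_lit 7) (nat_lit 0x30034023780400c8022010400200200110081c81000d0088040d408008004401fe404003002200fdb02000a00080c0a81))) 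
(.nd (nat_lit 29) 
(.lf (nat_lit 2617622548) (dlOf (nat_lit 6) (nat_lit 0x2000340001a0100b801a0000cc08001803c0005c0402e8068000200f000160200b401a0000000804500080060002019e0008100383))) 
(.lf (nat_lit 4228235284) (dlOf (nat_lit 4) (nat_lit 0x5403a00330188000441001080e8008c062002202b00008030001000000000080178008005c00200040008080383))))) 
(.nd (nat_lit 9) (.lf (nat_lit 2886060372) (dlOf (nat_lit 1) (nat_lit 0x160028144e01))) 
(.lf (nat_lit 4094544724) (dlOf (nat_lit 1) (nat_lit 0x800200040008055c02))))) (.nd (nat_lit 10) 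
(.nd (nat_lit 9) (.lf (nat_lit 2754464148) (dlOf (nat_lit 1) (nat_lit 0x4002000200080f4e82))) 
(.lf (nat_lit 2754468756) (dlOf (nat_lit 1) (nat_lit 0x400180fbc81)))) (.nd (nat_lit 6) 
(.lf (nat_lit 2751842196) (dlOf (nat_lit 1) (nat_lit 0x400200020008004202))) 
(.lf (nat_lit 2886059988) (dlOf (nat_lit 1) (nat_lit 0x20028144501)))))))))) (.nd (nat_lit 7) 
(.nd (nat_lit 19) (.nd (nat_lit 26) (.nd (nat_lit 18) (.nd (nat_lit 20) (.nd (nat_lit 6) 
(.nd (nat_lit 2) (.nd (nat_lit 21) (.nd (nat_lit 27) 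
(.lf (nat_lit 2684469296) (dlOf (nat_lit 1) (nat_lit 0x2c00400280008030702))) 
(.lf (nat_lit 6308347952) (dlOf (nat_lit 1) (nat_lit 0x2f8004014a0008050002)))) 
(.lf (nat_lit 23183408) (dlOf (nat_lit 8) (nat_lit 0x5355a0000a80814fa70809e0246030a0d7028101c811580540ac4000000220c0404ab600d755a800c25c8000200c0a7d56c005eab5000078200f155b0002aad40001c08040556c0000d02013eab600000818b60900)))) 
(.nd (nat_lit 21) (.lf (nat_lit 16891956) (dlOf (nat_lit 1) (nat_lit 0x4002000200088e0002))) 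
(.lf (nat_lit 10600500) (dlOf (nat_lit 1) (nat_lit 0x88002001e0008600682))))) (.nd (nat_lit 9) 
(.nd (nat_lit 27) (.lf (nat_lit 116848) (dlOf (nat_lit 1) (nat_lit 0x400400020008004782))) 
(.lf (nat_lit 939640944) (dlOf (nat_lit 1) (nat_lit 0x2000400020008144782)))) (.nd (nat_lit 2) 
(.nd (nat_lit 10) 
(.lf (nat_lit 1744947824) (dlOf (nat_lit 2) (nat_lit 0x2016800000080008008000c00200060008095403))) 
(.lf (nat_lit 805424752) (dlOf (nat_lit 1) (nat_lit 0x20028117181)))) 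
(.lf (nat_lit 805424756) (dlOf (nat_lit 1) (nat_lit 0x8008000400200020008117183)))))) 
(.nd (nat_lit 24) (.nd (nat_lit 22) (.nd (nat_lit 6) (.nd (nat_lit 28) 
(.lf (nat_lit 1163312) (dlOf (nat_lit 1) (nat_lit 0x180008080601))) 
(.lf (nat_lit 3490824240) (dlOf (nat_lit 2) (nat_lit 0xd071c0004004000400400040008020582)))) 
(.lf (nat_lit 1880211568) (dlOf (nat_lit 1) (nat_lit 0x2c002000600087b1d02)))) (.nd (nat_lit 23) 
(.lf (nat_lit 5357616) (dlOf (nat_lit 1) (nat_lit 0x20008350981))) 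
(.lf (nat_lit 47300656) (dlOf (nat_lit 1) (nat_lit 0x14004000c00093d0d02))))) (.nd (nat_lit 6) 
(.nd (nat_lit 2) (.lf (nat_lit 22134832) (dlOf (nat_lit 1) (nat_lit 0x100002002a0008a90702))) 
(.lf (nat_lit 20040500) (dlOf (nat_lit 1) (nat_lit 0x4002000200089d5c02)))) (.nd (nat_lit 8) 
(.lf (nat_lit 20041840) (dlOf (nat_lit 1) (nat_lit 0x200189d7d81))) 
(.lf (nat_lit 20040560) (dlOf (nat_lit 1) (nat_lit 0x280080004002000200089d5c03))))))) 
(.nd (nat_lit 2) (.nd (nat_lit 29) (.nd (nat_lit 8) (.nd (nat_lit 9) 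
(.lf (nat_lit 3355820080) (dlOf (nat_lit 2) (nat_lit 0x8e00000000018120d80))) 
(.lf (nat_lit 23446064) (dlOf (nat_lit 1) (nat_lit 0x20008b80f01)))) 
(.lf (nat_lit 11911472) (dlOf (nat_lit 2) (nat_lit 0x4a458001a8080b5000801dc002009200086c0503)))) 
(.nd (nat_lit 28) (.nd (nat_lit 31) 
(.lf (nat_lit 1610989616) (dlOf (nat_lit 1) (nat_lit 0x30002001800080b0482))) 
(.lf (nat_lit 3758473264) (dlOf (nat_lit 1) (nat_lit 0x10008000c002000200081f0983)))) 
(.nd (nat_lit 30) 
(.lf (nat_lit 805683248) (dlOf (nat_lit 23) (nat_lit 0xbc0560001781001102b0000b80804681580005a0402cc0ac0002c02027a0560000901004602b00004408083815402d80a8018005300f80290071813801ec09800ea04a00f0022805400dc03e4062000603000ff01680bc00b003ec024018400a00d2003007c800000020440b080aa04fc053027c02700690130029c09400140470075022806b00dc0044068036603100f701680f180b0000404803a6016023500900dc8028025000c03140000000792012002b0096014c01dc0a4004804c0129025009900c80320062009202f00e4016002900ac0030052024a013001700800520028000c00c0000e1e035605601ae029801c0138021809400980320022018803a80bc0458058008602b0003014801a80900ea0026004c01001c5005002100200001a3c01e00ac0000c0201020560000581001902700420128000140801c0094000090200aa0320000401000a02b003e00c80000e08004c0ac00cc04a007f01900001818002015400640a6001404e0133025004e0114041406401ba031000d00500001440012815800008040310064000030201340320000081000302a80290138001009400c4032020e009800000281fb80080a0c00206c60008180903)))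 
(.lf (nat_lit 4026908720) (dlOf (nat_lit 8) (nat_lit 0x1600fc01a004e018a01e01310090000d82002b80fc026804e001602100f600f000d806c05780240052009000b000802280000006a2400e004e018c01e013e0090000d01804f0078025c0240002e0400100110001681002600f007580480005608016804c019a01e000200d80b7004802cc0220028009000150680c0f80)))))) 
(.nd (nat_lit 20) (.nd (nat_lit 28) (.nd (nat_lit 6) 
(.lf (nat_lit 1610989620) (dlOf (nat_lit 22) (nat_lit 0x7c014c040806a01f2021010100e8082806000ac01402440000012487000a0298005006000200000024806005a056003b029801d8130011c06a004e021002e00e801b806000b801401200000012389000100c0009140800b80600042a0400280a60002021002300c00083818002814c002404200c2018000fe030018010800e8060003f40800780a60038021006f00c0007e0180020084003ee040018042001f20200bc053000601080328060003e20c017c0a600c4021000f8020020010802a8060003de0800f0000001c502044a05501e202a0028813c08b806e0388036000601801150088089803c03dc0190031005800250500310154018406e00c2022006100f00024c20038815401d406e000910400c4055005201b80024010036815401b006e0072022005400f00000c20030808800000040088002000400080b0482)))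 
(.lf (nat_lit 54902900) (dlOf (nat_lit 1) (nat_lit 0x80019661f01)))) (.nd (nat_lit 27) 
(.lf (nat_lit 2416295988) (dlOf (nat_lit 2) (nat_lit 0xb2020000e68180d0b80))) 
(.lf (nat_lit 2550513716) (dlOf (nat_lit 2) (nat_lit 0xb2020000e68180d0b80))))) (.nd (nat_lit 22) 
(.lf (nat_lit 1425460) (dlOf (nat_lit 3) (nat_lit 0x2780000038e04023c000001bd02000c00180c0d01))) 
(.lf (nat_lit 47562804) (dlOf (nat_lit 1) (nat_lit 0x5c0029400001))))))) (.nd (nat_lit 29) 
(.nd (nat_lit 11) (.nd (nat_lit 27) (.nd (nat_lit 28) (.nd (nat_lit 6) 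
(.lf (nat_lit 3288711216) (dlOf (nat_lit 7) (nat_lit 0x138104026807e014a027003d0108093007800b00360324012008a0048000d84002c809c0006a0400a807e0154027012900f00c900480006810026004c021c01e0189009007880440005c10020c04c01de0110001682009e013008d807806600240216011000158480c0e80))) 
(.lf (nat_lit 5435932784) (dlOf (nat_lit 2) (nat_lit 0x403000020158000141000100080008002000c0008040d03)))) 
(.nd (nat_lit 2) 
(.lf (nat_lit 2483142704) (dlOf (nat_lit 2) (nat_lit 0x1e02a00240140000481000100080018002002e0008030c83))) 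
(.lf (nat_lit 2483142708) (dlOf (nat_lit 2) (nat_lit 0x700a000242040034002003e0008030d02))))) 
(.nd (nat_lit 2) (.nd (nat_lit 18) (.nd (nat_lit 30) 
(.lf (nat_lit 2348924976) (dlOf (nat_lit 2) (nat_lit 0x1e02a00240140000581000100080018002002e0008030c83))) 
(.lf (nat_lit 3422666800) (dlOf (nat_lit 1) (nat_lit 0x2c00400280008030702)))) 
(.lf (nat_lit 2617622576) (dlOf (nat_lit 1) (nat_lit 0x2b000800ac00200ec0008100d83)))) 
(.lf (nat_lit 2348924980) (dlOf (nat_lit 2) (nat_lit 0x700a000242040034002003e0008030d02))))) 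
(.nd (nat_lit 6) (.nd (nat_lit 2) (.nd (nat_lit 8) 
(.lf (nat_lit 473025072) (dlOf (nat_lit 2) (nat_lit 0x1708f800230080060008002c00200160008c35183))) 
(.lf (nat_lit 6509677872) (dlOf (nat_lit 1) (nat_lit 0x2740028146881)))) 
(.lf (nat_lit 335661620) (dlOf (nat_lit 1) (nat_lit 0x400400040008095182)))) (.nd (nat_lit 2) 
(.nd (nat_lit 8) (.lf (nat_lit 6509678192) (dlOf (nat_lit 1) (nat_lit 0x20028147181))) 
(.lf (nat_lit 472238448) (dlOf (nat_lit 1) (nat_lit 0x2a0028924e81)))) 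
(.lf (nat_lit 6509678196) (dlOf (nat_lit 1) (nat_lit 0x400400020008147182)))))) (.nd (nat_lit 6) 
(.nd (nat_lit 10) (.nd (nat_lit 27) (.nd (nat_lit 18) 
(.lf (nat_lit 2752626736) (dlOf (nat_lit 2) (nat_lit 0xd07640004004000400400040008020582))) 
(.lf (nat_lit 1678098480) (dlOf (nat_lit 2) (nat_lit 0xc4804c0002204003000200a20008180882)))) 
(.nd (nat_lit 2) (.lf (nat_lit 738574384) (dlOf (nat_lit 1) (nat_lit 0x30002001800080b0482))) 
(.lf (nat_lit 738574388) (dlOf (nat_lit 22) (nat_lit 0x7c014c040806a01f2021010100e8082806000ac01402440000012487000a0298005006000200000024806005a056003b029801d8130011c06a004e021002e00e801b806000b801401200000012389000100c0009140800b8060004220400280a60002021002300c0008301800c00840074030001fc04000a053000901080308060003f40c00780a60038021006f00c0007e0180020084003ee040018042001f30200bc053000601080328060003e20c017c0a600c4021000f8020020010802a8060003de0800f0000001c502044a05501e202a0028813c08b806e0388036000601801150088089803c03dc0190031005800250500310154018406e00c2022006100f00024c20038815401d406e000910400c4055005201b80024010036815401b006e0072022005400f00001c20030808800000040088002000400080b0482)))))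 
(.nd (nat_lit 8) (.nd (nat_lit 9) 
(.lf (nat_lit 2754989104) (dlOf (nat_lit 1) (nat_lit 0x400400a800080f6082))) 
(.lf (nat_lit 2754727472) (dlOf (nat_lit 2) (nat_lit 0x108050001e016000288280f7180)))) 
(.nd (nat_lit 2) (.lf (nat_lit 2751579952) (dlOf (nat_lit 1) (nat_lit 0x60028003d81))) 
(.lf (nat_lit 1812057396) (dlOf (nat_lit 1) (nat_lit 0x20018146881)))))) (.nd (nat_lit 8) 
(.nd (nat_lit 2) (.nd (nat_lit 11) 
(.lf (nat_lit 5301715056) (dlOf (nat_lit 2) (nat_lit 0x403000020158000141000100080008002000c0008040d03))) 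
(.lf (nat_lit 5972805744) (dlOf (nat_lit 1) (nat_lit 0x400400020008144782)))) (.nd (nat_lit 18) 
(.lf (nat_lit 5301715060) (dlOf (nat_lit 1) (nat_lit 0x20008040d81))) 
(.lf (nat_lit 2753937524) (dlOf (nat_lit 1) (nat_lit 0x28004000800080a1602))))) (.nd (nat_lit 18) 
(.lf (nat_lit 1812056432) (dlOf (nat_lit 2) (nat_lit 0x7002c0219c04000400400040018144e82))) 
(.nd (nat_lit 21) (.lf (nat_lit 6376769904) (dlOf (nat_lit 1) (nat_lit 0x20028094e81))) 
(.lf (nat_lit 2754988400) (dlOf (nat_lit 1) (nat_lit 0x4004000600080f4e82))))))))) 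
(.nd (nat_lit 21) (.nd (nat_lit 2) (.nd (nat_lit 6) (.nd (nat_lit 18) (.nd (nat_lit 26) 
(.nd (nat_lit 27) (.lf (nat_lit 3221864496) (dlOf (nat_lit 1) (nat_lit 0x600081a0e81))) 
(.lf (nat_lit 3892953136) (dlOf (nat_lit 6) (nat_lit 0x40ae0054019002500c00003818001806400100300000d0400180190000601000101b80010064000140800840320008018000000282a0b80)))) 
(.nd (nat_lit 20) 
(.lf (nat_lit 3154755632) (dlOf (nat_lit 1) (nat_lit 0x90008009800200620008320e83))) 
(.lf (nat_lit 471449648) (dlOf (nat_lit 1) (nat_lit 0x40028300b81))))) (.nd (nat_lit 8) 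
(.nd (nat_lit 9) (.lf (nat_lit 1344132144) (dlOf (nat_lit 1) (nat_lit 0xa00283d9201))) 
(.lf (nat_lit 471715376) (dlOf (nat_lit 1) (nat_lit 0x1200083d7181)))) 
(.lf (nat_lit 1879949616) (dlOf (nat_lit 1) (nat_lit 0x240018490501))))) (.nd (nat_lit 11) 
(.nd (nat_lit 20) (.nd (nat_lit 26) 
(.lf (nat_lit 5772001648) (dlOf (nat_lit 2) (nat_lit 0x1601b002a9018035800))) 
(.lf (nat_lit 6375981424) (dlOf (nat_lit 2) (nat_lit 0x1601b0057d818035800)))) 
(.lf (nat_lit 2753151344) (dlOf (nat_lit 2) (nat_lit 0x15e1078033b808008000800a0002000c0008090783)))) 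
(.nd (nat_lit 18) (.nd (nat_lit 20) 
(.lf (nat_lit 3490302320) (dlOf (nat_lit 1) (nat_lit 0x20028004e81))) 
(.lf (nat_lit 39438704) (dlOf (nat_lit 1) (nat_lit 0x94002000c0009194e82)))) 
(.lf (nat_lit 55429488) (dlOf (nat_lit 1) (nat_lit 0xc00296d4e81)))))) (.nd (nat_lit 20) 
(.nd (nat_lit 18) (.nd (nat_lit 22) (.nd (nat_lit 26) (.nd (nat_lit 29) 
(.lf (nat_lit 134856756) (dlOf (nat_lit 1) (nat_lit 0x200180d0b81))) 
(.lf (nat_lit 3892953140) (dlOf (nat_lit 2) (nat_lit 0x1008e000802c000200380009c180030008004c002005800082a0c03)))) 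
(.lf (nat_lit 201965620) (dlOf (nat_lit 1) (nat_lit 0x200180d0b81)))) 
(.lf (nat_lit 21610548) (dlOf (nat_lit 5) (nat_lit 0xddaa0008ed300047680002ba86005ee08000bdaa0008ed300057680002fa86005ed080011daa000aed30006f680002ba86005ec080011daa0005ed3000576800023a86005e90800d60008a51001)))) 
(.nd (nat_lit 9) (.nd (nat_lit 23) 
(.lf (nat_lit 5095476) (dlOf (nat_lit 1) (nat_lit 0x100008300781))) 
(.lf (nat_lit 13484084) (dlOf (nat_lit 2) (nat_lit 0x15c000001cd0200020018730b81)))) 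
(.lf (nat_lit 51235380) (dlOf (nat_lit 2) (nat_lit 0x55940000a6300033408011000400400009515182))))) 
(.nd (nat_lit 9) (.nd (nat_lit 10) (.nd (nat_lit 18) 
(.lf (nat_lit 26853428) (dlOf (nat_lit 2) (nat_lit 0x5c00000012818c80780))) 
(.lf (nat_lit 27115572) (dlOf (nat_lit 2) (nat_lit 0x710d80004a04004400400080008ca0782)))) 
(.lf (nat_lit 56214580) (dlOf (nat_lit 1) (nat_lit 0x400400020009732882)))) (.nd (nat_lit 26) 
(.lf (nat_lit 3491349044) (dlOf (nat_lit 2) (nat_lit 0x9c1ea00000018090f80))) 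
(.lf (nat_lit 2753151540) (dlOf (nat_lit 2) (nat_lit 0x9c1fc00000018090f80))))))) (.nd (nat_lit 18) 
(.nd (nat_lit 22) (.nd (nat_lit 2) (.nd (nat_lit 20) (.nd (nat_lit 27) 
(.lf (nat_lit 2754199600) (dlOf (nat_lit 1) (nat_lit 0x100080008002000200080c0f83))) 
(.lf (nat_lit 1009369136) (dlOf (nat_lit 2) (nat_lit 0x602800038134000f608004000400100009130d02)))) 
(.nd (nat_lit 6) (.lf (nat_lit 20564784) (dlOf (nat_lit 1) (nat_lit 0x4002000200089d5c02))) 
(.lf (nat_lit 54116464) (dlOf (nat_lit 1) (nat_lit 0x4f000800f4002009e0009622483))))) 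
(.nd (nat_lit 9) (.nd (nat_lit 20) 
(.lf (nat_lit 4096376884) (dlOf (nat_lit 3) (nat_lit 0x3ac26800243020054134005a0000008fc1001d0008000800200180008100483))) 
(.lf (nat_lit 3784756) (dlOf (nat_lit 1) (nat_lit 0x180018220a81)))) 
(.lf (nat_lit 1345964596) (dlOf (nat_lit 1) (nat_lit 0x20028e25181))))) (.nd (nat_lit 6) 
(.nd (nat_lit 2) (.lf (nat_lit 7983152) (dlOf (nat_lit 1) (nat_lit 0x400200020008517c02))) 
(.nd (nat_lit 8) (.lf (nat_lit 41536052) (dlOf (nat_lit 1) (nat_lit 0x400400020019245182))) 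
(.lf (nat_lit 58310964) (dlOf (nat_lit 1) (nat_lit 0xc004000600097d7b02))))) (.nd (nat_lit 10) 
(.nd (nat_lit 11) (.lf (nat_lit 7983476) (dlOf (nat_lit 1) (nat_lit 0x40028518381))) 
(.lf (nat_lit 57264500) (dlOf (nat_lit 1) (nat_lit 0x1e0029794e81)))) 
(.lf (nat_lit 7980404) (dlOf (nat_lit 1) (nat_lit 0x180018513501)))))) (.nd (nat_lit 8) 
(.nd (nat_lit 9) (.nd (nat_lit 2) (.nd (nat_lit 20) 
(.lf (nat_lit 11386928) (dlOf (nat_lit 1) (nat_lit 0x140028690681))) 
(.lf (nat_lit 4046896) (dlOf (nat_lit 1) (nat_lit 0x2e0028270b01)))) (.nd (nat_lit 22) 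
(.lf (nat_lit 4046900) (dlOf (nat_lit 2) (nat_lit 0x90160000de818270b80))) 
(.lf (nat_lit 16629812) (dlOf (nat_lit 2) (nat_lit 0x2c1f800048080098008004c002004800088c0883))))) 
(.nd (nat_lit 11) (.nd (nat_lit 26) 
(.lf (nat_lit 3493708336) (dlOf (nat_lit 2) (nat_lit 0x80680000a8181b0f00))) 
(.lf (nat_lit 2755510832) (dlOf (nat_lit 2) (nat_lit 0x80680000a0181b0f00)))) 
(.lf (nat_lit 62769712) (dlOf (nat_lit 1) (nat_lit 0x800800a8002002000099a5183))))) 
(.nd (nat_lit 25) (.nd (nat_lit 2) (.nd (nat_lit 6) 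
(.lf (nat_lit 3492661552) (dlOf (nat_lit 1) (nat_lit 0x8004001000180f4b82))) 
(.lf (nat_lit 473811312) (dlOf (nat_lit 1) (nat_lit 0x8008000400200080008fa4e83)))) 
(.lf (nat_lit 2754464116) (dlOf (nat_lit 1) (nat_lit 0x200180f4e81)))) (.nd (nat_lit 2) 
(.nd (nat_lit 22) (.lf (nat_lit 36555120) (dlOf (nat_lit 1) (nat_lit 0x20019074e81))) 
(.lf (nat_lit 49138032) (dlOf (nat_lit 1) (nat_lit 0x20009464e81)))) 
(.lf (nat_lit 50185524) (dlOf (nat_lit 1) (nat_lit 0x400294c3201))))))))) (.nd (nat_lit 6) 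
(.nd (nat_lit 8) (.nd (nat_lit 10) (.nd (nat_lit 27) (.nd (nat_lit 2) (.nd (nat_lit 18) 
(.nd (nat_lit 26) (.lf (nat_lit 5368823984) (dlOf (nat_lit 1) (nat_lit 0x100018031601))) 
(.lf (nat_lit 1140965552) (dlOf (nat_lit 2) (nat_lit 0x106003008380000006408001000400180008031602)))) 
(.lf (nat_lit 52805808) (dlOf (nat_lit 1) (nat_lit 0x400200020009570682)))) 
(.lf (nat_lit 1610727604) (dlOf (nat_lit 2) (nat_lit 0x403f00014818090680)))) (.nd (nat_lit 2) 
(.nd (nat_lit 19) (.lf (nat_lit 5503041712) (dlOf (nat_lit 1) (nat_lit 0x20018031601))) 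
(.lf (nat_lit 6375981232) (dlOf (nat_lit 2) (nat_lit 0x1da0140000c80803b800802e800200100008031603)))) 
(.nd (nat_lit 26) (.lf (nat_lit 5772001460) (dlOf (nat_lit 1) (nat_lit 0x1c00400020018031682))) 
(.lf (nat_lit 6375981236) (dlOf (nat_lit 3) (nat_lit 0xa4028000150100210138000a008014000800cc00200a40008031683)))))) 
(.nd (nat_lit 11) (.nd (nat_lit 20) (.nd (nat_lit 21) 
(.lf (nat_lit 474072240) (dlOf (nat_lit 6) (nat_lit 0x130b40005059800442b0002e15600100a2800b050c004424800200cf001304b0007020c003002e001a0150002f8c00030b40003859800102b0000415600050a28000850c000c248000e0cf00030398004005c000802a0005d16000e169000600c0001601000605a400402cc00120180002a0300130b4800885980048030000450600460029082c01))) 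
(.lf (nat_lit 48350384) (dlOf (nat_lit 3) (nat_lit 0x2dd100016868000335a80010000000be1000040000005402002e0009402c01)))) 
(.nd (nat_lit 2) (.lf (nat_lit 36816048) (dlOf (nat_lit 1) (nat_lit 0x800400060009072c02))) 
(.lf (nat_lit 3492923060) (dlOf (nat_lit 1) (nat_lit 0x4004000c00080f3a82))))) (.nd (nat_lit 2) 
(.nd (nat_lit 18) 
(.lf (nat_lit 1812057264) (dlOf (nat_lit 2) (nat_lit 0x6013000060080038008000400200020008146283))) 
(.lf (nat_lit 2754464944) (dlOf (nat_lit 1) (nat_lit 0x200180f6281)))) (.nd (nat_lit 9) 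
(.lf (nat_lit 1409404084) (dlOf (nat_lit 1) (nat_lit 0x400400020008006282))) 
(.lf (nat_lit 6576787124) (dlOf (nat_lit 1) (nat_lit 0x40018147281))))))) (.nd (nat_lit 30) 
(.nd (nat_lit 10) (.nd (nat_lit 18) (.nd (nat_lit 23) 
(.lf (nat_lit 2147600816) (dlOf (nat_lit 1) (nat_lit 0x400400020008094e82))) 
(.lf (nat_lit 58837424) (dlOf (nat_lit 1) (nat_lit 0x4002000200097e4e82)))) (.nd (nat_lit 9) 
(.nd (nat_lit 22) (.lf (nat_lit 36555184) (dlOf (nat_lit 1) (nat_lit 0x20019074e81))) 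
(.lf (nat_lit 57526704) (dlOf (nat_lit 1) (nat_lit 0x400400020009794e82)))) 
(.lf (nat_lit 19782576) (dlOf (nat_lit 1) (nat_lit 0x1600289dbd81))))) (.nd (nat_lit 23) 
(.nd (nat_lit 9) (.lf (nat_lit 4899063216) (dlOf (nat_lit 1) (nat_lit 0x400200020008053602))) 
(.lf (nat_lit 536987568) (dlOf (nat_lit 1) (nat_lit 0x4002000a0008004382)))) (.nd (nat_lit 2) 
(.lf (nat_lit 8504752) (dlOf (nat_lit 1) (nat_lit 0x400200020008513602))) 
(.lf (nat_lit 8504756) (dlOf (nat_lit 1) (nat_lit 0x400200020008513602)))))) (.nd (nat_lit 28) 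
(.nd (nat_lit 2) (.nd (nat_lit 10) 
(.lf (nat_lit 3355562928) (dlOf (nat_lit 1) (nat_lit 0xe000280a9181))) 
(.lf (nat_lit 3959539632) (dlOf (nat_lit 2) (nat_lit 0x400000000018114380)))) (.nd (nat_lit 9) 
(.lf (nat_lit 1073856948) (dlOf (nat_lit 1) (nat_lit 0x8008000400200020008017783))) 
(.nd (nat_lit 10) (.lf (nat_lit 3355562932) (dlOf (nat_lit 1) (nat_lit 0xc400280a9181))) 
(.lf (nat_lit 1677838260) (dlOf (nat_lit 1) (nat_lit 0x20028114381)))))) (.nd (nat_lit 10) 
(.nd (nat_lit 11) (.nd (nat_lit 21) 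
(.lf (nat_lit 4026646960) (dlOf (nat_lit 1) (nat_lit 0x280028017481))) 
(.lf (nat_lit 1881260464) (dlOf (nat_lit 1) (nat_lit 0x1c004000e0008e81002)))) 
(.lf (nat_lit 1342294448) (dlOf (nat_lit 1) (nat_lit 0x40028004e81)))) (.nd (nat_lit 26) 
(.lf (nat_lit 6308349360) (dlOf (nat_lit 1) (nat_lit 0x800400020018053602))) 
(.lf (nat_lit 6241240496) (dlOf (nat_lit 1) (nat_lit 0x8008000800200020008053603)))))))) 
(.nd (nat_lit 2) (.nd (nat_lit 9) (.nd (nat_lit 8) (.nd (nat_lit 28) (.nd (nat_lit 18) 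
(.lf (nat_lit 604094704) (dlOf (nat_lit 1) (nat_lit 0x60008010701))) (.nd (nat_lit 19) 
(.lf (nat_lit 11911408) (dlOf (nat_lit 3) (nat_lit 0x106a8a008352600043a0801aaa280127498001030286c0480))) 
(.lf (nat_lit 20824304) (dlOf (nat_lit 2) (nat_lit 0x45b0000785380004092004b206000200189e4501))))) 
(.nd (nat_lit 18) 
(.lf (nat_lit 2952904944) (dlOf (nat_lit 3) (nat_lit 0x30000007280800080000039004005800200320008010702))) 
(.nd (nat_lit 19) (.lf (nat_lit 1346748656) (dlOf (nat_lit 1) (nat_lit 0x460029001e81))) 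
(.lf (nat_lit 1343078640) (dlOf (nat_lit 1) (nat_lit 0x2000400080008150702)))))) (.nd (nat_lit 26) 
(.nd (nat_lit 10) (.lf (nat_lit 38652400) (dlOf (nat_lit 1) (nat_lit 0x8008000800200020009134f03))) 
(.nd (nat_lit 23) (.lf (nat_lit 4697736688) (dlOf (nat_lit 1) (nat_lit 0x20028093601))) 
(.lf (nat_lit 8504816) (dlOf (nat_lit 1) (nat_lit 0x400200020008513602))))) (.nd (nat_lit 10) 
(.lf (nat_lit 2751584752) (dlOf (nat_lit 1) (nat_lit 0x800800040020002000800b283))) 
(.nd (nat_lit 27) (.lf (nat_lit 4899063280) (dlOf (nat_lit 1) (nat_lit 0x400200020008053602))) 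
(.lf (nat_lit 4496410096) (dlOf (nat_lit 1) (nat_lit 0x120028053601))))))) (.nd (nat_lit 20) 
(.nd (nat_lit 18) (.nd (nat_lit 8) 
(.lf (nat_lit 939640560) (dlOf (nat_lit 2) (nat_lit 0x18044000290200060018143b01))) 
(.lf (nat_lit 38388720) (dlOf (nat_lit 1) (nat_lit 0x400200020009132882)))) (.nd (nat_lit 28) 
(.lf (nat_lit 2751841264) (dlOf (nat_lit 1) (nat_lit 0xc00200020008002882))) 
(.lf (nat_lit 4094018544) (dlOf (nat_lit 1) (nat_lit 0xc004000e0008002882))))) (.nd (nat_lit 28) 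
(.nd (nat_lit 10) (.lf (nat_lit 36815856) (dlOf (nat_lit 1) (nat_lit 0x8008000800200060009072883))) 
(.lf (nat_lit 8243184) (dlOf (nat_lit 2) (nat_lit 0x1ac7a000e23400030220000c8180008008001400200020008514603)))) 
(.nd (nat_lit 31) (.lf (nat_lit 1345438704) (dlOf (nat_lit 1) (nat_lit 0xc00400040018bb2882))) 
(.lf (nat_lit 3492922352) (dlOf (nat_lit 1) (nat_lit 0x980080040002002200080f2883))))))) 
(.nd (nat_lit 10) (.nd (nat_lit 9) (.nd (nat_lit 8) (.nd (nat_lit 19) (.nd (nat_lit 21) 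
(.lf (nat_lit 1346748660) (dlOf (nat_lit 2) (nat_lit 0x26046800234080030008000400200060009002483))) 
(.lf (nat_lit 1881522420) (dlOf (nat_lit 1) (nat_lit 0x140008009400200520008f42483)))) 
(.lf (nat_lit 12435700) (dlOf (nat_lit 1) (nat_lit 0x2000086c0481)))) (.nd (nat_lit 11) 
(.lf (nat_lit 1881260532) (dlOf (nat_lit 1) (nat_lit 0x20018e81401))) 
(.lf (nat_lit 2751584756) (dlOf (nat_lit 1) (nat_lit 0x6c001800b281))))) (.nd (nat_lit 12) 
(.nd (nat_lit 8) (.lf (nat_lit 738839284) (dlOf (nat_lit 1) (nat_lit 0x20008125a01))) 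
(.lf (nat_lit 2751841268) (dlOf (nat_lit 1) (nat_lit 0x400200020008002882)))) (.nd (nat_lit 18) 
(.lf (nat_lit 20568820) (dlOf (nat_lit 1) (nat_lit 0x4002000200089db982))) 
(.lf (nat_lit 19782388) (dlOf (nat_lit 1) (nat_lit 0x4002000200089db982)))))) (.nd (nat_lit 27) 
(.nd (nat_lit 8) (.nd (nat_lit 9) 
(.lf (nat_lit 20305140) (dlOf (nat_lit 1) (nat_lit 0x28008000c002000600089d9503))) 
(.lf (nat_lit 5905696500) (dlOf (nat_lit 1) (nat_lit 0x400400020008143b82)))) (.nd (nat_lit 9) 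
(.nd (nat_lit 11) (.lf (nat_lit 8504820) (dlOf (nat_lit 1) (nat_lit 0x400200020008513602))) 
(.lf (nat_lit 805424628) (dlOf (nat_lit 2) (nat_lit 0x804c00012818116f00)))) 
(.lf (nat_lit 7981044) (dlOf (nat_lit 1) (nat_lit 0x400400020008514682))))) (.nd (nat_lit 26) 
(.nd (nat_lit 9) 
(.lf (nat_lit 6308349428) (dlOf (nat_lit 2) (nat_lit 0x600c800558080030008005800200060008053603))) 
(.lf (nat_lit 939640820) (dlOf (nat_lit 3) (nat_lit 0x320000000c8100020000000600800380080010002000a0008144683)))) 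
(.nd (nat_lit 11) 
(.lf (nat_lit 4496410100) (dlOf (nat_lit 1) (nat_lit 0x28008000400200040008053603))) 
(.lf (nat_lit 1543622132) (dlOf (nat_lit 3) (nat_lit 0x1a01a0000a81000200d000010080030008002800200080008146f03))))))))))))

end

end Pool.Agent.Lib.MP_5854e1_co.Cz

namespace Pool.Agent.Lib.MP_5854e1_co.Cz

noncomputable section

noncomputable def tz85 : DT := (.nd (nat_lit 2) (.nd (nat_lit 5) (.nd (nat_lit 6) (.nd (nat_lit 18) 
(.nd (nat_lit 27) (.nd (nat_lit 4) (.nd (nat_lit 20) (.nd (nat_lit 32) (.nd (nat_lit 24) 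
(.nd (nat_lit 7) (.nd (nat_lit 8) 
(.lf (nat_lit 44154888) (dlOf (nat_lit 1) (nat_lit 0x4004000200092d0002))) 
(.lf (nat_lit 1677838600) (dlOf (nat_lit 1) (nat_lit 0xc00400020008114b82)))) (.nd (nat_lit 8) 
(.lf (nat_lit 1611252872) (dlOf (nat_lit 2) (nat_lit 0x1c0ae000250200060018122b01))) 
(.lf (nat_lit 8503688) (dlOf (nat_lit 1) (nat_lit 0x800200020008511002))))) (.nd (nat_lit 19) 
(.nd (nat_lit 22) (.lf (nat_lit 25280520) (dlOf (nat_lit 1) (nat_lit 0x20028bf0481))) 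
(.lf (nat_lit 21086216) (dlOf (nat_lit 1) (nat_lit 0xa800400640008a10482)))) (.nd (nat_lit 7) 
(.lf (nat_lit 21610504) (dlOf (nat_lit 2) (nat_lit 0x3d7a00b9f018a50000))) 
(.lf (nat_lit 23707784) (dlOf (nat_lit 1) (nat_lit 0x800200020008b80102)))))) (.nd (nat_lit 11) 
(.nd (nat_lit 19) (.nd (nat_lit 26) 
(.lf (nat_lit 6711001096) (dlOf (nat_lit 1) (nat_lit 0x400400020008030002))) 
(.lf (nat_lit 4630626312) (dlOf (nat_lit 1) (nat_lit 0x800400020008030002)))) 
(.lf (nat_lit 4362715144) (dlOf (nat_lit 2) (nat_lit 0xa800000000040004002003800080e0582)))) 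
(.nd (nat_lit 8) (.lf (nat_lit 5905696776) (dlOf (nat_lit 1) (nat_lit 0x400200020008144702))) 
(.lf (nat_lit 5905697032) (dlOf (nat_lit 1) (nat_lit 0x400400020008144b82)))))) (.nd (nat_lit 8) 
(.nd (nat_lit 19) (.nd (nat_lit 22) 
(.lf (nat_lit 17940488) (dlOf (nat_lit 1) (nat_lit 0x400400020008900582))) 
(.lf (nat_lit 47300616) (dlOf (nat_lit 1) (nat_lit 0x4002000200093d0002)))) (.nd (nat_lit 7) 
(.lf (nat_lit 3784712) (dlOf (nat_lit 1) (nat_lit 0x80028220001))) 
(.lf (nat_lit 7981192) (dlOf (nat_lit 1) (nat_lit 0x10002000a0008514802))))) (.nd (nat_lit 7) 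
(.nd (nat_lit 9) (.lf (nat_lit 41009416) (dlOf (nat_lit 1) (nat_lit 0xc00400080019203582))) 
(.lf (nat_lit 3492923144) (dlOf (nat_lit 4) (nat_lit 0xac061006902f0002017000040b200b6057005402000220058000321c00800bc004a040000b00b000060180178164000405e0001404000400180f3b81)))) 
(.lf (nat_lit 20041096) (dlOf (nat_lit 1) (nat_lit 0x4002002000089d6c82)))))) (.nd (nat_lit 10) 
(.nd (nat_lit 20) (.nd (nat_lit 19) (.nd (nat_lit 9) 
(.lf (nat_lit 14794776) (dlOf (nat_lit 2) (nat_lit 0x1a4bea010243f0095018800f80ac003d410000400200060008770082))) 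
(.lf (nat_lit 4362197528) (dlOf (nat_lit 3) (nat_lit 0x806600bfa02000c033005fc81800b280)))) 
(.nd (nat_lit 22) (.lf (nat_lit 1879687192) (dlOf (nat_lit 1) (nat_lit 0xc002000200082d0402))) 
(.lf (nat_lit 29999128) (dlOf (nat_lit 1) (nat_lit 0x800400080018e30002))))) (.nd (nat_lit 24) 
(.nd (nat_lit 26) 
(.lf (nat_lit 3493445656) (dlOf (nat_lit 6) (nat_lit 0x4044000a016000ff82000e01680058088001c028001fe060014066000a02f00060170004c0b2005e057001a017800d80b400dc044006401d002100d800400580078028001fd180012040001d017800f80b4003ce0c000405e001e602000e0028140a81))) 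
(.lf (nat_lit 2755248152) (dlOf (nat_lit 6) (nat_lit 0x4044000a016000f682000e01680058088001c028001ec060014066000a02f00060170004c0b2005e057001a017800d80b400dc044006401d002100d800400580078028001eb180012040001d017800f80b4003a40c000405e001d102000e0028140a81)))) 
(.nd (nat_lit 19) (.lf (nat_lit 26329112) (dlOf (nat_lit 1) (nat_lit 0x20028c30081))) 
(.lf (nat_lit 24756248) (dlOf (nat_lit 4) (nat_lit 0x5af24003575c0001604008cbc900135d700005010005af24003575c000050400180028bb0481)))))) 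
(.nd (nat_lit 7) (.nd (nat_lit 8) 
(.lf (nat_lit 805424664) (dlOf (nat_lit 1) (nat_lit 0x400400020008117102))) 
(.lf (nat_lit 3221343512) (dlOf (nat_lit 1) (nat_lit 0x400400020008116702)))) (.nd (nat_lit 8) 
(.lf (nat_lit 6509677720) (dlOf (nat_lit 1) (nat_lit 0x40008146201))) (.nd (nat_lit 26) 
(.lf (nat_lit 5905696664) (dlOf (nat_lit 1) (nat_lit 0x800400080008144202))) 
(.lf (nat_lit 2751580056) (dlOf (nat_lit 1) (nat_lit 0x40008004201)))))))) (.nd (nat_lit 30) 
(.nd (nat_lit 4) (.nd (nat_lit 7) (.nd (nat_lit 10) (.nd (nat_lit 26) 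
(.lf (nat_lit 2281816072) (dlOf (nat_lit 1) (nat_lit 0x740028040001))) 
(.lf (nat_lit 4764844040) (dlOf (nat_lit 1) (nat_lit 0x800400020008030002)))) 
(.lf (nat_lit 402768904) (dlOf (nat_lit 1) (nat_lit 0x26c0018092881)))) (.nd (nat_lit 8) 
(.nd (nat_lit 9) (.lf (nat_lit 2818688136) (dlOf (nat_lit 1) (nat_lit 0xd000280d2b01))) 
(.lf (nat_lit 5234608776) (dlOf (nat_lit 2) (nat_lit 0x700540005204002c00200020008055482)))) 
(.lf (nat_lit 2617365384) (dlOf (nat_lit 1) (nat_lit 0xec00280a9001))))) (.nd (nat_lit 7) 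
(.nd (nat_lit 8) (.nd (nat_lit 9) 
(.lf (nat_lit 2819211288) (dlOf (nat_lit 1) (nat_lit 0x200081f0481))) 
(.lf (nat_lit 201447960) (dlOf (nat_lit 1) (nat_lit 0x4000800b281)))) 
(.lf (nat_lit 939641112) (dlOf (nat_lit 2) (nat_lit 0x404a000802000070828144b80)))) 
(.nd (nat_lit 8) (.lf (nat_lit 939640984) (dlOf (nat_lit 1) (nat_lit 0x60028144801))) 
(.lf (nat_lit 4496410008) (dlOf (nat_lit 1) (nat_lit 0x10008000400200020008053603)))))) 
(.nd (nat_lit 7) (.nd (nat_lit 26) (.nd (nat_lit 4) (.nd (nat_lit 8) 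
(.lf (nat_lit 5774098952) (dlOf (nat_lit 1) (nat_lit 0x200280f8001))) 
(.lf (nat_lit 5774098696) (dlOf (nat_lit 1) (nat_lit 0x200080010002000e00080f3583)))) 
(.lf (nat_lit 3892953112) (dlOf (nat_lit 2) (nat_lit 0x600c801d00080028008004c002005400082a0a03)))) 
(.nd (nat_lit 10) (.nd (nat_lit 19) 
(.lf (nat_lit 6107021320) (dlOf (nat_lit 1) (nat_lit 0x400400020008030002))) 
(.lf (nat_lit 4228497416) (dlOf (nat_lit 2) (nat_lit 0xa800000000040004002003800080e0582)))) 
(.lf (nat_lit 2080490504) (dlOf (nat_lit 1) (nat_lit 0x3880018092881))))) (.nd (nat_lit 4) 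
(.nd (nat_lit 8) 
(.lf (nat_lit 5503041672) (dlOf (nat_lit 2) (nat_lit 0x2017004c0040000d41000500080014002002c0008030e03))) 
(.nd (nat_lit 9) 
(.lf (nat_lit 1812057480) (dlOf (nat_lit 3) (nat_lit 0x2004a000e0200000c820009012800280800003008006c004000c0008146c82))) 
(.lf (nat_lit 3959539592) (dlOf (nat_lit 1) (nat_lit 0x8008000400200020008114183))))) 
(.nd (nat_lit 10) (.lf (nat_lit 2013381016) (dlOf (nat_lit 1) (nat_lit 0x60018036481))) 
(.lf (nat_lit 6308349336) (dlOf (nat_lit 3) (nat_lit 0x803200154020008018000200a800250100010008001000200080008053603)))))))) 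
(.nd (nat_lit 4) (.nd (nat_lit 28) (.nd (nat_lit 20) (.nd (nat_lit 26) (.nd (nat_lit 22) 
(.nd (nat_lit 27) (.nd (nat_lit 8) 
(.lf (nat_lit 537247752) (dlOf (nat_lit 1) (nat_lit 0x20018070501))) 
(.lf (nat_lit 378632) (dlOf (nat_lit 2) (nat_lit 0x6c2b00028818003b80)))) (.nd (nat_lit 29) 
(.lf (nat_lit 3355820040) (dlOf (nat_lit 14) (nat_lit 0x3210158076140818d00ac03b0604000405601d7f02002002b00ebf01031d0158075700813000ac03696040a3805601b3702001202f000d0168035f41008380cc067806402220310023016001180a400fc02e050e01200a4008803b80240196a2400bc064013c012006248200280190030900800600bc001805a009af04001202e03ad01580000010080800806a000201c80008120003))) 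
(.lf (nat_lit 3892690952) (dlOf (nat_lit 1) (nat_lit 0x400281c0281))))) (.nd (nat_lit 7) 
(.nd (nat_lit 21) 
(.lf (nat_lit 12959752) (dlOf (nat_lit 3) (nat_lit 0x2952300b9f010014a91805aec0800700080008002000400086f0003))) 
(.lf (nat_lit 48611336) (dlOf (nat_lit 1) (nat_lit 0x8008000400200020009420003)))) 
(.lf (nat_lit 40225160) (dlOf (nat_lit 1) (nat_lit 0x80080008002000200091f4e83))))) 
(.nd (nat_lit 29) (.nd (nat_lit 27) (.nd (nat_lit 30) 
(.lf (nat_lit 4362453000) (dlOf (nat_lit 1) (nat_lit 0x560028080001))) 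
(.lf (nat_lit 3288711176) (dlOf (nat_lit 5) (nat_lit 0x1007c0160a04004401a00b0402000201f0057f0100150120000000808b800800c0002024400080c0803)))) 
(.lf (nat_lit 4496670728) (dlOf (nat_lit 1) (nat_lit 0x2400400200018110002)))) (.nd (nat_lit 7) 
(.lf (nat_lit 2756034568) (dlOf (nat_lit 5) (nat_lit 0x1602a0009814c00280a0001604d000b01e8021942800c815000600a60052050002c026801600f4010c81400280a80036053002a0280015813400b007a008630a0036054001b0298008014400a80a0005404d002901e8021803000200080100002000600081d0003))) 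
(.lf (nat_lit 2754464136) (dlOf (nat_lit 1) (nat_lit 0x200180f4e81)))))) (.nd (nat_lit 7) 
(.nd (nat_lit 19) (.nd (nat_lit 9) 
(.lf (nat_lit 30785544) (dlOf (nat_lit 1) (nat_lit 0xc0028e50581))) 
(.lf (nat_lit 43369992) (dlOf (nat_lit 1) (nat_lit 0x400292a3681)))) (.nd (nat_lit 23) 
(.lf (nat_lit 22921224) (dlOf (nat_lit 3) (nat_lit 0xbad480065a810252de20000000800f8008000400200020008b40003))) 
(.lf (nat_lit 14532616) (dlOf (nat_lit 1) (nat_lit 0x20028760001))))) (.nd (nat_lit 10) 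
(.nd (nat_lit 8) 
(.lf (nat_lit 11911304) (dlOf (nat_lit 2) (nat_lit 0x28ea2801474980001d8286c0100))) 
(.nd (nat_lit 11) (.lf (nat_lit 8241544) (dlOf (nat_lit 1) (nat_lit 0x80008511001))) 
(.lf (nat_lit 56478088) (dlOf (nat_lit 1) (nat_lit 0x800400080009734e82))))) (.nd (nat_lit 24) 
(.lf (nat_lit 2754989448) (dlOf (nat_lit 1) (nat_lit 0x1400080f6c81))) 
(.lf (nat_lit 20303240) (dlOf (nat_lit 2) (nat_lit 0x770b0000640800400080010002000800089d6c83))))))) 
(.nd (nat_lit 26) (.nd (nat_lit 19) (.nd (nat_lit 22) (.nd (nat_lit 29) 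
(.lf (nat_lit 1342554120) (dlOf (nat_lit 1) (nat_lit 0x88008007800200120008050583))) 
(.lf (nat_lit 4026908680) (dlOf (nat_lit 5) (nat_lit 0x1007c00ab804004401a0055b02000201f002aa8100150120000000808b800800c0002024400080c0803)))) 
(.lf (nat_lit 3494232072) (dlOf (nat_lit 5) (nat_lit 0x1602a0009814c00280a0001604d000b01e803a142800c815000600a60052050002c026801600f401d081400280a80036053002a0280015813400b007a00e830a0036054001b0298008014400a80a0005404d002901e803a003000200080100002000600081d0003)))) 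
(.nd (nat_lit 10) (.nd (nat_lit 7) 
(.lf (nat_lit 1343078408) (dlOf (nat_lit 1) (nat_lit 0x1800400420018150002))) 
(.lf (nat_lit 1879949448) (dlOf (nat_lit 1) (nat_lit 0x800200020008490102)))) (.nd (nat_lit 8) 
(.lf (nat_lit 3492660232) (dlOf (nat_lit 1) (nat_lit 0x200180f2881))) 
(.lf (nat_lit 1344128776) (dlOf (nat_lit 2) (nat_lit 0x5b11f802087c0000a2080010004003e00183d3b82)))))) 
(.nd (nat_lit 27) (.nd (nat_lit 7) (.nd (nat_lit 8) 
(.lf (nat_lit 1409662984) (dlOf (nat_lit 1) (nat_lit 0x20018070501))) 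
(.lf (nat_lit 2483406600) (dlOf (nat_lit 2) (nat_lit 0x30150000dc0800200080008002000200080f3b83)))) 
(.lf (nat_lit 335923592) (dlOf (nat_lit 1) (nat_lit 0x1000180e4e81)))) (.nd (nat_lit 29) 
(.nd (nat_lit 31) 
(.lf (nat_lit 470138888) (dlOf (nat_lit 1) (nat_lit 0x88008007800200120008050583))) 
(.lf (nat_lit 2617622536) (dlOf (nat_lit 24) (nat_lit 0x13018800280b0012b0080018062007e02c004ab8200230160023a80800480c40058058008e9040088031003201600237c1000700b400f1004000401e007760201f802e00389010040018008c00bc03f005c0070b0601a402f00383810031018008d80bc043c05c006fd0601d602f0037b010124017801bbc0808800bc02f805c006b704015e02f0035b010132017801a8c0809500bc00d3404043805e00693020002031001f60100c4017800f800803400bc007be040020058003dd0200020310005017800200ac000000c025c00400500008100002)))) 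
(.nd (nat_lit 7) (.lf (nat_lit 4228235272) (dlOf (nat_lit 1) (nat_lit 0x560028080001))) 
(.lf (nat_lit 1007534216) (dlOf (nat_lit 1) (nat_lit 0x800200020008490102)))))))) (.nd (nat_lit 26) 
(.nd (nat_lit 19) (.nd (nat_lit 30) (.nd (nat_lit 7) (.nd (nat_lit 20) 
(.lf (nat_lit 17154072) (dlOf (nat_lit 1) (nat_lit 0x4002000200088e0002))) 
(.lf (nat_lit 26591256) (dlOf (nat_lit 2) (nat_lit 0x1a570601029d40095017800f80a4003f810000400200060008c50082)))) 
(.nd (nat_lit 20) (.lf (nat_lit 54902936) (dlOf (nat_lit 1) (nat_lit 0xe0019662b81))) 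
(.lf (nat_lit 11911320) (dlOf (nat_lit 4) (nat_lit 0x8c5450046a930000460401295140094a4c0001141000c545000169300003804000600086c0181))))) 
(.nd (nat_lit 28) (.nd (nat_lit 29) 
(.lf (nat_lit 3221602328) (dlOf (nat_lit 2) (nat_lit 0x381180000004000800200040008160502))) 
(.lf (nat_lit 1610989592) (dlOf (nat_lit 2) (nat_lit 0x400a4001a03400110100006806c0046810007c002004400080b0082)))) 
(.nd (nat_lit 22) 
(.lf (nat_lit 1342554136) (dlOf (nat_lit 1) (nat_lit 0x78008003400200120008050a83))) 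
(.lf (nat_lit 3494232088) (dlOf (nat_lit 1) (nat_lit 0x24002001a00081d0a02)))))) (.nd (nat_lit 22) 
(.nd (nat_lit 10) (.nd (nat_lit 20) 
(.lf (nat_lit 537772056) (dlOf (nat_lit 1) (nat_lit 0xc0018180601))) 
(.lf (nat_lit 1346224152) (dlOf (nat_lit 2) (nat_lit 0xc1b2002470200020018e70601)))) 
(.lf (nat_lit 3492660248) (dlOf (nat_lit 1) (nat_lit 0x200180f2881)))) (.nd (nat_lit 7) 
(.lf (nat_lit 22921240) (dlOf (nat_lit 2) (nat_lit 0x27f7880024a0200040028b40481))) 
(.nd (nat_lit 8) (.lf (nat_lit 8242840) (dlOf (nat_lit 1) (nat_lit 0x40028513a81))) 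
(.lf (nat_lit 8247704) (dlOf (nat_lit 1) (nat_lit 0x4001851af81))))))) (.nd (nat_lit 27) 
(.nd (nat_lit 11) (.nd (nat_lit 19) (.nd (nat_lit 22) 
(.lf (nat_lit 4362453016) (dlOf (nat_lit 3) (nat_lit 0x950238054380804a811c028fc040068002005a0008080502))) 
(.lf (nat_lit 2756034584) (dlOf (nat_lit 1) (nat_lit 0x24002001a00081d0a02)))) 
(.lf (nat_lit 1410187288) (dlOf (nat_lit 1) (nat_lit 0xc0018180601)))) (.nd (nat_lit 7) 
(.lf (nat_lit 70110232) (dlOf (nat_lit 1) (nat_lit 0x5c00200020008ec6002))) (.nd (nat_lit 9) 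
(.lf (nat_lit 2754464152) (dlOf (nat_lit 1) (nat_lit 0x200180f4e81))) 
(.lf (nat_lit 2754468760) (dlOf (nat_lit 2) (nat_lit 0x1811400a8c040040004001000180fbc82)))))) 
(.nd (nat_lit 29) (.nd (nat_lit 22) (.nd (nat_lit 31) 
(.lf (nat_lit 470138904) (dlOf (nat_lit 1) (nat_lit 0x78008003400200120008050a83))) 
(.lf (nat_lit 2617622552) (dlOf (nat_lit 1) (nat_lit 0xe8008003000200720008100483)))) 
(.lf (nat_lit 474333208) (dlOf (nat_lit 1) (nat_lit 0x400400020009150182)))) (.nd (nat_lit 28) 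
(.nd (nat_lit 30) 
(.lf (nat_lit 738574360) (dlOf (nat_lit 2) (nat_lit 0x400a4001a03400110100006806c0049810007c002004400080b0082))) 
(.lf (nat_lit 3959799832) (dlOf (nat_lit 2) (nat_lit 0x381180000004000800200040008160502)))) 
(.lf (nat_lit 4228235288) (dlOf (nat_lit 3) (nat_lit 0x950200059f40804a810002bda040068002005a0008080502))))))))) 
(.nd (nat_lit 4) (.nd (nat_lit 29) (.nd (nat_lit 20) (.nd (nat_lit 18) (.nd (nat_lit 28) 
(.nd (nat_lit 11) (.nd (nat_lit 8) 
(.lf (nat_lit 3221864520) (dlOf (nat_lit 2) (nat_lit 0x280120002e02000400081a1481))) 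
(.lf (nat_lit 23707976) (dlOf (nat_lit 1) (nat_lit 0x40018b80601)))) (.nd (nat_lit 7) 
(.lf (nat_lit 645192) (dlOf (nat_lit 2) (nat_lit 0x40d70011001800a680))) 
(.lf (nat_lit 6576787144) (dlOf (nat_lit 1) (nat_lit 0x400400020008147302))))) (.nd (nat_lit 27) 
(.nd (nat_lit 31) (.lf (nat_lit 268550216) (dlOf (nat_lit 1) (nat_lit 0x20028061681))) 
(.lf (nat_lit 2416033864) (dlOf (nat_lit 1) (nat_lit 0x800200040008020882)))) (.nd (nat_lit 7) 
(.lf (nat_lit 2550251592) (dlOf (nat_lit 1) (nat_lit 0x800200040008020882))) 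
(.lf (nat_lit 4697736136) (dlOf (nat_lit 1) (nat_lit 0x18008012c00200140008092883)))))) 
(.nd (nat_lit 22) (.nd (nat_lit 7) (.nd (nat_lit 21) 
(.lf (nat_lit 3288711240) (dlOf (nat_lit 2) (nat_lit 0x48084021003c00b60090001a0380c1480))) 
(.lf (nat_lit 3492134984) (dlOf (nat_lit 13) (nat_lit 0x1382300070116000240401f208c00e704580008c100058230000c116000220401bc08c00ec0458000801003f023001e41160001f04002008c00110458000781005902300003a04000c1160001c02012c08c008e04580003410050023002841160000b04000808b000050100cf0460027022c00000080184004008c00180a0e02)))) 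
(.lf (nat_lit 1208336584) (dlOf (nat_lit 1) (nat_lit 0x200180c1b81)))) (.nd (nat_lit 7) 
(.nd (nat_lit 8) (.lf (nat_lit 23446088) (dlOf (nat_lit 1) (nat_lit 0x2000200080008b81102))) 
(.lf (nat_lit 23970120) (dlOf (nat_lit 1) (nat_lit 0x3000200640008b80602)))) 
(.lf (nat_lit 23445960) (dlOf (nat_lit 1) (nat_lit 0x420018b80981)))))) (.nd (nat_lit 9) 
(.nd (nat_lit 23) (.nd (nat_lit 18) (.nd (nat_lit 7) 
(.lf (nat_lit 3490824264) (dlOf (nat_lit 1) (nat_lit 0x20028020881))) 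
(.lf (nat_lit 3491348936) (dlOf (nat_lit 1) (nat_lit 0x400200020008090982)))) (.nd (nat_lit 21) 
(.lf (nat_lit 1425480) (dlOf (nat_lit 2) (nat_lit 0x30b0000094080020008000c002001200080c0f03))) 
(.lf (nat_lit 37077064) (dlOf (nat_lit 1) (nat_lit 0x8008000c00200020009090603))))) 
(.nd (nat_lit 7) (.nd (nat_lit 8) 
(.lf (nat_lit 47563848) (dlOf (nat_lit 1) (nat_lit 0x800400020009402882))) 
(.lf (nat_lit 11911496) (dlOf (nat_lit 2) (nat_lit 0x35448011a9160004704001600286c0601)))) 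
(.lf (nat_lit 47563976) (dlOf (nat_lit 1) (nat_lit 0x40009402d01))))) (.nd (nat_lit 8) 
(.nd (nat_lit 11) (.nd (nat_lit 19) 
(.lf (nat_lit 11649608) (dlOf (nat_lit 1) (nat_lit 0x4002000200086c1102))) 
(.lf (nat_lit 3491349064) (dlOf (nat_lit 2) (nat_lit 0x4e0f6800098080378008001400200100008091103)))) 
(.lf (nat_lit 56216136) (dlOf (nat_lit 1) (nat_lit 0x400400020009735202)))) (.nd (nat_lit 7) 
(.lf (nat_lit 20040520) (dlOf (nat_lit 1) (nat_lit 0x4002000200089d5c02))) 
(.lf (nat_lit 51495880) (dlOf (nat_lit 1) (nat_lit 0x400400020009512882))))))) (.nd (nat_lit 31) 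
(.nd (nat_lit 8) (.nd (nat_lit 10) (.nd (nat_lit 18) (.nd (nat_lit 11) 
(.lf (nat_lit 537509960) (dlOf (nat_lit 1) (nat_lit 0x400180a0e81))) 
(.lf (nat_lit 5905696840) (dlOf (nat_lit 1) (nat_lit 0x200018144701)))) (.nd (nat_lit 26) 
(.lf (nat_lit 1610989640) (dlOf (nat_lit 3) (nat_lit 0x405500010000000a81000080d40000004002c002008200080b0602))) 
(.lf (nat_lit 738574408) (dlOf (nat_lit 3) (nat_lit 0x405500010000000ac1000080d40000004002c002008200080b0602))))) 
(.nd (nat_lit 7) (.nd (nat_lit 26) 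
(.lf (nat_lit 5905695816) (dlOf (nat_lit 1) (nat_lit 0x400400020008142882))) 
(.lf (nat_lit 1677837384) (dlOf (nat_lit 1) (nat_lit 0x400200020008112882)))) 
(.lf (nat_lit 1009108168) (dlOf (nat_lit 11) (nat_lit 0xd838800500ec0002804001c0e30001301001f07180007c08020838c0003c0400ac1c60001d0200960e3002003b00007010005838c002c0ec0001b04000a0e30008071000681d8000060c00241c6000010200220e300010710008036400bc0ec000000803be0029082d01))))) 
(.nd (nat_lit 7) (.nd (nat_lit 9) (.nd (nat_lit 10) 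
(.lf (nat_lit 5905697096) (dlOf (nat_lit 1) (nat_lit 0x20028144d01))) 
(.lf (nat_lit 1880999240) (dlOf (nat_lit 1) (nat_lit 0x400400700008dd3302)))) 
(.lf (nat_lit 5905696584) (dlOf (nat_lit 1) (nat_lit 0x10004000a0008143e82)))) (.nd (nat_lit 9) 
(.lf (nat_lit 1881260488) (dlOf (nat_lit 5) (nat_lit 0x29c0ca0000f0201400650000381009d0328000100804f01940000004005400400160008e81102))) 
(.nd (nat_lit 26) 
(.lf (nat_lit 1610728392) (dlOf (nat_lit 1) (nat_lit 0x10008001000200040008092883))) 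
(.lf (nat_lit 1677837256) (dlOf (nat_lit 1) (nat_lit 0x80028112881))))))) (.nd (nat_lit 19) 
(.nd (nat_lit 10) (.nd (nat_lit 7) (.nd (nat_lit 18) 
(.lf (nat_lit 2752626760) (dlOf (nat_lit 1) (nat_lit 0x20028020881))) 
(.lf (nat_lit 2753937480) (dlOf (nat_lit 1) (nat_lit 0x1000180a0e81)))) 
(.lf (nat_lit 4227980232) (dlOf (nat_lit 1) (nat_lit 0x2001800be81)))) (.nd (nat_lit 27) 
(.lf (nat_lit 2751579208) (dlOf (nat_lit 1) (nat_lit 0x400400020008002882))) 
(.lf (nat_lit 3959538760) (dlOf (nat_lit 1) (nat_lit 0x400400020008112882))))) (.nd (nat_lit 20) 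
(.nd (nat_lit 21) 
(.lf (nat_lit 3960062024) (dlOf (nat_lit 3) (nat_lit 0x40820015302011c04600bc021804a01080318080019a038004d004800000300090008009c00200b000081a1883))) 
(.nd (nat_lit 28) (.lf (nat_lit 2754199624) (dlOf (nat_lit 1) (nat_lit 0x5400080c1881))) 
(.lf (nat_lit 4096376904) (dlOf (nat_lit 2) (nat_lit 0x98000000000400cc002000c0008100602))))) 
(.nd (nat_lit 7) 
(.lf (nat_lit 2753151560) (dlOf (nat_lit 2) (nat_lit 0x4e0ff800098080378008001400200100008091103))) 
(.lf (nat_lit 2753151432) (dlOf (nat_lit 1) (nat_lit 0x400200020008090982)))))))) (.nd (nat_lit 7) 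
(.nd (nat_lit 10) (.nd (nat_lit 26) (.nd (nat_lit 18) (.nd (nat_lit 8) (.nd (nat_lit 9) 
(.lf (nat_lit 33144920) (dlOf (nat_lit 1) (nat_lit 0x220028f50001))) 
(.lf (nat_lit 58837592) (dlOf (nat_lit 1) (nat_lit 0x4004000200097e5302)))) 
(.lf (nat_lit 4026646872) (dlOf (nat_lit 1) (nat_lit 0x800400020008014e02)))) (.nd (nat_lit 8) 
(.nd (nat_lit 9) (.lf (nat_lit 3492135000) (dlOf (nat_lit 1) (nat_lit 0x14004000200180a1102))) 
(.lf (nat_lit 42322520) (dlOf (nat_lit 1) (nat_lit 0x20019245301)))) 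
(.lf (nat_lit 11911512) (dlOf (nat_lit 4) (nat_lit 0x85d4500432930000560400c35140013a4c00015410004545000069300001204000200086c0681))))) 
(.nd (nat_lit 28) (.nd (nat_lit 8) 
(.lf (nat_lit 5435932760) (dlOf (nat_lit 3) (nat_lit 0x2f8000000a60401b4000000520200160008040601))) 
(.lf (nat_lit 3288449368) (dlOf (nat_lit 1) (nat_lit 0x80008014d81)))) (.nd (nat_lit 18) 
(.nd (nat_lit 19) 
(.lf (nat_lit 5301715032) (dlOf (nat_lit 3) (nat_lit 0x2f8000000980401b40000004b0200160008040601))) 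
(.lf (nat_lit 4096376920) (dlOf (nat_lit 1) (nat_lit 0x60008100701)))) 
(.lf (nat_lit 872792152) (dlOf (nat_lit 1) (nat_lit 0xc004000200180d1782)))))) (.nd (nat_lit 18) 
(.nd (nat_lit 8) (.nd (nat_lit 9) (.nd (nat_lit 19) 
(.lf (nat_lit 6377555032) (dlOf (nat_lit 1) (nat_lit 0x1980080058002001800080e2903))) 
(.lf (nat_lit 34194520) (dlOf (nat_lit 1) (nat_lit 0x60028fb2901)))) 
(.lf (nat_lit 2617366104) (dlOf (nat_lit 2) (nat_lit 0x20178000f00800100080004002000200080a9c03)))) 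
(.nd (nat_lit 9) (.lf (nat_lit 1611253080) (dlOf (nat_lit 2) (nat_lit 0x204e0000d818123380))) 
(.lf (nat_lit 7980888) (dlOf (nat_lit 1) (nat_lit 0x400400020008513f82))))) (.nd (nat_lit 19) 
(.nd (nat_lit 20) (.nd (nat_lit 21) 
(.lf (nat_lit 38126680) (dlOf (nat_lit 1) (nat_lit 0x400200020009132902))) 
(.lf (nat_lit 1009108056) (dlOf (nat_lit 1) (nat_lit 0x8008064400201600009082903)))) 
(.lf (nat_lit 51758168) (dlOf (nat_lit 1) (nat_lit 0x100019512901)))) 
(.lf (nat_lit 34456664) (dlOf (nat_lit 1) (nat_lit 0x80028fb2901)))))) (.nd (nat_lit 8) 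
(.nd (nat_lit 21) (.nd (nat_lit 11) (.nd (nat_lit 18) (.nd (nat_lit 19) 
(.lf (nat_lit 59883736) (dlOf (nat_lit 1) (nat_lit 0x400400020009840982))) 
(.lf (nat_lit 1343865048) (dlOf (nat_lit 1) (nat_lit 0x200028370501)))) 
(.lf (nat_lit 2080751832) (dlOf (nat_lit 1) (nat_lit 0x200280c1901)))) (.nd (nat_lit 18) 
(.nd (nat_lit 26) (.lf (nat_lit 116952) (dlOf (nat_lit 1) (nat_lit 0x20028004a81))) 
(.lf (nat_lit 5972805848) (dlOf (nat_lit 1) (nat_lit 0x20028144a81)))) 
(.lf (nat_lit 2886060248) (dlOf (nat_lit 1) (nat_lit 0x8008000400200020008144a83))))) 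
(.nd (nat_lit 19) (.nd (nat_lit 18) (.nd (nat_lit 20) 
(.lf (nat_lit 2212056) (dlOf (nat_lit 2) (nat_lit 0x98a5c0011b818150480))) 
(.lf (nat_lit 3260632) (dlOf (nat_lit 1) (nat_lit 0x1000200020008200482)))) 
(.lf (nat_lit 3522776) (dlOf (nat_lit 2) (nat_lit 0x1c6600011b818200480)))) (.nd (nat_lit 9) 
(.lf (nat_lit 7981272) (dlOf (nat_lit 1) (nat_lit 0x20028514a81))) (.nd (nat_lit 11) 
(.lf (nat_lit 8245976) (dlOf (nat_lit 1) (nat_lit 0x400200020008518c82))) 
(.lf (nat_lit 49924824) (dlOf (nat_lit 1) (nat_lit 0x8400294c5901))))))) (.nd (nat_lit 9) 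
(.nd (nat_lit 19) (.nd (nat_lit 18) (.nd (nat_lit 26) 
(.lf (nat_lit 4697735640) (dlOf (nat_lit 2) (nat_lit 0x100178000000801b00080034002002e0008091203))) 
(.lf (nat_lit 1946272216) (dlOf (nat_lit 1) (nat_lit 0x60008000400200060008017103)))) 
(.lf (nat_lit 21348824) (dlOf (nat_lit 1) (nat_lit 0x748008029c00201c00008a37103)))) 
(.nd (nat_lit 10) (.nd (nat_lit 26) 
(.lf (nat_lit 3491348952) (dlOf (nat_lit 1) (nat_lit 0x10008000800200040008090b03))) 
(.lf (nat_lit 2753151448) (dlOf (nat_lit 1) (nat_lit 0x10008000800200040008090b03)))) 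
(.lf (nat_lit 7984600) (dlOf (nat_lit 2) (nat_lit 0x92f00004004006400400060008519b02))))) 
(.nd (nat_lit 11) (.nd (nat_lit 18) 
(.lf (nat_lit 3087123416) (dlOf (nat_lit 1) (nat_lit 0x8008000400200020008142883))) 
(.nd (nat_lit 20) (.lf (nat_lit 3492660184) (dlOf (nat_lit 1) (nat_lit 0x200080f2881))) 
(.lf (nat_lit 8242136) (dlOf (nat_lit 1) (nat_lit 0x400200020008512882))))) (.nd (nat_lit 27) 
(.lf (nat_lit 4831955928) (dlOf (nat_lit 1) (nat_lit 0x20008055e01))) 
(.lf (nat_lit 5234609112) (dlOf (nat_lit 1) (nat_lit 0x20008055e01)))))))))) (.nd (nat_lit 6) 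
(.nd (nat_lit 18) (.nd (nat_lit 9) (.nd (nat_lit 19) (.nd (nat_lit 4) (.nd (nat_lit 20) 
(.nd (nat_lit 7) 
(.lf (nat_lit 4563517736) (dlOf (nat_lit 6) (nat_lit 0x700b4002002a0000e04000c03400130178000181000100d0006c05e0000504001202f00002010010017800000080030008001000200080008090b03))) 
(.nd (nat_lit 8) (.lf (nat_lit 1812057256) (dlOf (nat_lit 1) (nat_lit 0x40028146281))) 
(.lf (nat_lit 3825322408) (dlOf (nat_lit 1) (nat_lit 0xd80018144e81))))) (.nd (nat_lit 21) 
(.nd (nat_lit 26) (.lf (nat_lit 3490824232) (dlOf (nat_lit 1) (nat_lit 0x20028020501))) 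
(.lf (nat_lit 2752626728) (dlOf (nat_lit 1) (nat_lit 0x20028020501)))) 
(.lf (nat_lit 28426280) (dlOf (nat_lit 1) (nat_lit 0x80028d90801))))) (.nd (nat_lit 7) 
(.nd (nat_lit 8) (.nd (nat_lit 20) 
(.lf (nat_lit 29474872) (dlOf (nat_lit 1) (nat_lit 0x3c00200080008e10902))) 
(.lf (nat_lit 6376505400) (dlOf (nat_lit 1) (nat_lit 0x500028090001)))) (.nd (nat_lit 27) 
(.lf (nat_lit 6509677880) (dlOf (nat_lit 1) (nat_lit 0x2640028146901))) 
(.lf (nat_lit 1543621944) (dlOf (nat_lit 1) (nat_lit 0xb400400120008146902))))) (.nd (nat_lit 10) 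
(.nd (nat_lit 27) 
(.lf (nat_lit 1610727608) (dlOf (nat_lit 2) (nat_lit 0x401f8000000800200080010002001c0008090703))) 
(.lf (nat_lit 4697735352) (dlOf (nat_lit 1) (nat_lit 0x20008002000200200008090703)))) 
(.lf (nat_lit 55690424) (dlOf (nat_lit 1) (nat_lit 0x200196d2c81)))))) (.nd (nat_lit 30) 
(.nd (nat_lit 21) (.nd (nat_lit 4) (.nd (nat_lit 20) 
(.lf (nat_lit 3154755624) (dlOf (nat_lit 1) (nat_lit 0x800200020008320d82))) 
(.lf (nat_lit 1687592) (dlOf (nat_lit 1) (nat_lit 0x4004000a0008110582)))) 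
(.lf (nat_lit 47826104) (dlOf (nat_lit 1) (nat_lit 0x220009402c81)))) (.nd (nat_lit 8) 
(.nd (nat_lit 20) (.lf (nat_lit 1009369128) (dlOf (nat_lit 1) (nat_lit 0x12a0009130981))) 
(.lf (nat_lit 24756264) (dlOf (nat_lit 6) (nat_lit 0xd77a0000e02000cbd400065de800034100022f50002577a0000c040014bd400075de80002c100012f5000000040024004000e0008bb0a02)))) 
(.lf (nat_lit 7986472) (dlOf (nat_lit 1) (nat_lit 0x16002851c601))))) (.nd (nat_lit 26) 
(.nd (nat_lit 27) (.nd (nat_lit 21) 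
(.lf (nat_lit 3221864488) (dlOf (nat_lit 6) (nat_lit 0x8003e0000c81007001f0000600807600f80002c04026807c000c00e0000a8200200070000500800b80080084002008c00081a0c03))) 
(.lf (nat_lit 3492397096) (dlOf (nat_lit 1) (nat_lit 0x1000280c0c01)))) (.nd (nat_lit 4) 
(.lf (nat_lit 3892953128) (dlOf (nat_lit 2) (nat_lit 0x2057000101b8001806400040300002f08000800082a0b01))) 
(.lf (nat_lit 3892953144) (dlOf (nat_lit 1) (nat_lit 0x200182a0c01))))) (.nd (nat_lit 4) 
(.nd (nat_lit 27) (.lf (nat_lit 3557408808) (dlOf (nat_lit 1) (nat_lit 0x200281f0781))) 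
(.lf (nat_lit 3960061992) (dlOf (nat_lit 3) (nat_lit 0xd80f8005c01c0001904001203e00190070000601000b80080048002005200081a0d03)))) 
(.lf (nat_lit 1409925176) (dlOf (nat_lit 1) (nat_lit 0x30004000600080a0b82))))))) (.nd (nat_lit 7) 
(.nd (nat_lit 4) (.nd (nat_lit 11) (.nd (nat_lit 10) (.nd (nat_lit 19) 
(.lf (nat_lit 41009704) (dlOf (nat_lit 1) (nat_lit 0x20019208881))) 
(.lf (nat_lit 5774098984) (dlOf (nat_lit 1) (nat_lit 0x448004017000080f8882)))) 
(.lf (nat_lit 2617366056) (dlOf (nat_lit 2) (nat_lit 0x80bc00022040004004000200180a9c02)))) 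
(.nd (nat_lit 8) 
(.lf (nat_lit 2751584808) (dlOf (nat_lit 2) (nat_lit 0x204400298808001800800040020006000800b283))) 
(.nd (nat_lit 22) 
(.lf (nat_lit 5637262120) (dlOf (nat_lit 1) (nat_lit 0x20008000400200040008055c03))) 
(.lf (nat_lit 1346489128) (dlOf (nat_lit 2) (nat_lit 0x2808b80044c04000400200020008f65c02)))))) 
(.nd (nat_lit 19) (.nd (nat_lit 8) 
(.lf (nat_lit 3959544376) (dlOf (nat_lit 1) (nat_lit 0x5000800040020002000811b403))) 
(.lf (nat_lit 20040504) (dlOf (nat_lit 1) (nat_lit 0x4002000200089d5c02)))) (.nd (nat_lit 21) 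
(.lf (nat_lit 39438904) (dlOf (nat_lit 1) (nat_lit 0x40019195201))) 
(.lf (nat_lit 41536056) (dlOf (nat_lit 1) (nat_lit 0xc0019245201)))))) (.nd (nat_lit 11) 
(.nd (nat_lit 12) (.nd (nat_lit 26) 
(.lf (nat_lit 536987560) (dlOf (nat_lit 1) (nat_lit 0x20028004301))) 
(.lf (nat_lit 2751580072) (dlOf (nat_lit 1) (nat_lit 0x400400020008004302)))) (.nd (nat_lit 4) 
(.lf (nat_lit 8508072) (dlOf (nat_lit 1) (nat_lit 0x400200020008518c82))) 
(.lf (nat_lit 20043704) (dlOf (nat_lit 1) (nat_lit 0x8002000600089da502))))) (.nd (nat_lit 8) 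
(.nd (nat_lit 4) (.lf (nat_lit 51497640) (dlOf (nat_lit 1) (nat_lit 0x8008000400200020009515603))) 
(.lf (nat_lit 4563520184) (dlOf (nat_lit 4) (nat_lit 0x20056000c02700070090000a41800280bc000804e000a0120001403002400900002c080ed80080584002005a0008095703)))) 
(.nd (nat_lit 12) (.lf (nat_lit 20564904) (dlOf (nat_lit 1) (nat_lit 0xc004005600089d5d02))) 
(.lf (nat_lit 3221347240) (dlOf (nat_lit 1) (nat_lit 0x11400400e4001811bd02)))))))) 
(.nd (nat_lit 4) (.nd (nat_lit 21) (.nd (nat_lit 26) (.nd (nat_lit 20) (.nd (nat_lit 22) 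
(.nd (nat_lit 28) (.nd (nat_lit 27) 
(.lf (nat_lit 6442827816) (dlOf (nat_lit 1) (nat_lit 0x200281d0a01))) 
(.lf (nat_lit 3355820072) (dlOf (nat_lit 1) (nat_lit 0x80008120681)))) (.nd (nat_lit 32) 
(.lf (nat_lit 805683240) (dlOf (nat_lit 3) (nat_lit 0x920560001b810004022800a810c0018058000140600300018180881))) 
(.lf (nat_lit 5100650536) (dlOf (nat_lit 1) (nat_lit 0x4000400300008110282))))) (.nd (nat_lit 7) 
(.lf (nat_lit 12959784) (dlOf (nat_lit 3) (nat_lit 0x155250000701000aa928000340800680080030002002400086f0a03))) 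
(.lf (nat_lit 54902952) (dlOf (nat_lit 1) (nat_lit 0x40029662c01))))) (.nd (nat_lit 19) 
(.nd (nat_lit 7) 
(.lf (nat_lit 3491086376) (dlOf (nat_lit 2) (nat_lit 0xa0600001240800100080004002000a0008060583))) 
(.lf (nat_lit 43369896) (dlOf (nat_lit 1) (nat_lit 0x1800192a3601)))) (.nd (nat_lit 22) 
(.lf (nat_lit 10338344) (dlOf (nat_lit 1) (nat_lit 0x80080008002000600085d0583))) 
(.lf (nat_lit 22921256) (dlOf (nat_lit 4) (nat_lit 0x4a0000002b010014de580003808008ef2c0001404003000200320008b40682)))))) 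
(.nd (nat_lit 27) (.nd (nat_lit 20) (.nd (nat_lit 29) 
(.lf (nat_lit 3288711208) (dlOf (nat_lit 3) (nat_lit 0xce01e002f00180009010014807800b40060002204000400280c0c01))) 
(.lf (nat_lit 1678098472) (dlOf (nat_lit 7) (nat_lit 0x7802a80868150035c0a600fc05200e90270036013000180940378045004501b802280c40018060037802d01d001600400048014c014026a00600010000000408800c81380001e0405340ac00ce053000e027000d013005b00940314032014001600fb004c00180140000e12038c013000068100410250000200808f80c80000604011400200420008180802)))) 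
(.lf (nat_lit 2752888872) (dlOf (nat_lit 2) (nat_lit 0xa0590001240800100080004002000a0008060583)))) 
(.nd (nat_lit 8) (.nd (nat_lit 30) 
(.lf (nat_lit 2617622568) (dlOf (nat_lit 3) (nat_lit 0x2000000168100080000000b00805a80080020002021a0008100683))) 
(.lf (nat_lit 5838848040) (dlOf (nat_lit 1) (nat_lit 0x200281d0a01)))) 
(.lf (nat_lit 470663464) (dlOf (nat_lit 2) (nat_lit 0x28000006150200360008150701)))))) 
(.nd (nat_lit 8) (.nd (nat_lit 19) (.nd (nat_lit 7) (.nd (nat_lit 20) 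
(.lf (nat_lit 2753937448) (dlOf (nat_lit 1) (nat_lit 0x20004000e00080a0902))) 
(.lf (nat_lit 3522600) (dlOf (nat_lit 2) (nat_lit 0x346820027335801613a4000000c001400400060008200002)))) 
(.lf (nat_lit 1009108136) (dlOf (nat_lit 2) (nat_lit 0x120718001640802c0008008c00200820009082c03)))) 
(.nd (nat_lit 7) (.nd (nat_lit 22) 
(.lf (nat_lit 4046888) (dlOf (nat_lit 1) (nat_lit 0x40028270981))) 
(.lf (nat_lit 16629800) (dlOf (nat_lit 1) (nat_lit 0x800080004002003600088c0783)))) 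
(.lf (nat_lit 19780264) (dlOf (nat_lit 1) (nat_lit 0x4002000200089d8c82))))) (.nd (nat_lit 7) 
(.nd (nat_lit 10) (.nd (nat_lit 12) 
(.lf (nat_lit 70109992) (dlOf (nat_lit 1) (nat_lit 0x64004004a0008ec5c02))) 
(.lf (nat_lit 2754468648) (dlOf (nat_lit 1) (nat_lit 0x4004000200080fbc82)))) 
(.lf (nat_lit 8242984) (dlOf (nat_lit 1) (nat_lit 0x1000200040008513d02)))) (.nd (nat_lit 9) 
(.nd (nat_lit 11) (.lf (nat_lit 3522984) (dlOf (nat_lit 1) (nat_lit 0x20018200781))) 
(.lf (nat_lit 2754464168) (dlOf (nat_lit 1) (nat_lit 0x200180f4e81)))) 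
(.lf (nat_lit 20304808) (dlOf (nat_lit 1) (nat_lit 0x180080008002000200089d9103))))))) 
(.nd (nat_lit 21) (.nd (nat_lit 29) (.nd (nat_lit 22) (.nd (nat_lit 7) (.nd (nat_lit 8) 
(.lf (nat_lit 51235384) (dlOf (nat_lit 1) (nat_lit 0x140008006400200540009515203))) 
(.lf (nat_lit 8771384) (dlOf (nat_lit 1) (nat_lit 0x800800040020002000851a103)))) 
(.lf (nat_lit 4496670904) (dlOf (nat_lit 1) (nat_lit 0x40028111981)))) (.nd (nat_lit 20) 
(.nd (nat_lit 31) 
(.lf (nat_lit 1346748472) (dlOf (nat_lit 3) (nat_lit 0x1282580005e04007412c0002e0200700029000501))) 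
(.lf (nat_lit 3494232120) (dlOf (nat_lit 2) (nat_lit 0x2900000000002018000181d0b01)))) 
(.lf (nat_lit 55951416) (dlOf (nat_lit 2) (nat_lit 0xd53480000c0800100080028002004800096f0503))))) 
(.nd (nat_lit 26) (.nd (nat_lit 19) 
(.lf (nat_lit 1610989624) (dlOf (nat_lit 2) (nat_lit 0x2300aa01420370004e8280b0480))) 
(.lf (nat_lit 1879949368) (dlOf (nat_lit 1) (nat_lit 0x620018490001)))) (.nd (nat_lit 27) 
(.nd (nat_lit 7) 
(.lf (nat_lit 2756034616) (dlOf (nat_lit 2) (nat_lit 0x2900000000002018000181d0b01))) 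
(.lf (nat_lit 604356792) (dlOf (nat_lit 1) (nat_lit 0x4002000a00081a0482)))) (.nd (nat_lit 8) 
(.lf (nat_lit 738574392) (dlOf (nat_lit 2) (nat_lit 0x2300aa01420370004e8280b0480))) 
(.lf (nat_lit 2886059832) (dlOf (nat_lit 2) (nat_lit 0x1c00d8000800800f8008002400200060008143e03))))))) 
(.nd (nat_lit 7) (.nd (nat_lit 20) (.nd (nat_lit 9) (.nd (nat_lit 22) (.nd (nat_lit 29) 
(.lf (nat_lit 3492134968) (dlOf (nat_lit 2) (nat_lit 0x60460000b00800180080010002000a00080a0b83))) 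
(.lf (nat_lit 1881522232) (dlOf (nat_lit 3) (nat_lit 0x12071800f038800841c0002c07a000803c00000c2802e038c00841c400220e0001803d00000020051000802c800209be0008f40503)))) 
(.lf (nat_lit 48611384) (dlOf (nat_lit 2) (nat_lit 0x58260002e0200020029420501)))) 
(.nd (nat_lit 19) 
(.lf (nat_lit 1344653880) (dlOf (nat_lit 1) (nat_lit 0x70008001c00200100008925203))) 
(.lf (nat_lit 36555320) (dlOf (nat_lit 1) (nat_lit 0x20019075201))))) (.nd (nat_lit 19) 
(.nd (nat_lit 8) (.lf (nat_lit 11911224) (dlOf (nat_lit 1) (nat_lit 0x42c00201b600086c0002))) 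
(.lf (nat_lit 3522872) (dlOf (nat_lit 2) (nat_lit 0x706820040335801593a400809b0000260800060028200581)))) 
(.nd (nat_lit 10) 
(.lf (nat_lit 16629816) (dlOf (nat_lit 2) (nat_lit 0x19c0000000002009400088c0901))) 
(.lf (nat_lit 8248376) (dlOf (nat_lit 1) (nat_lit 0x4001851bf01)))))) (.nd (nat_lit 19) 
(.nd (nat_lit 10) (.lf (nat_lit 11911352) (dlOf (nat_lit 1) (nat_lit 0x80080008002001200086c0383))) 
(.nd (nat_lit 29) (.lf (nat_lit 472237240) (dlOf (nat_lit 1) (nat_lit 0x40018922c81))) 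
(.lf (nat_lit 1009108152) (dlOf (nat_lit 2) (nat_lit 0x40e200000019082c80))))) (.nd (nat_lit 8) 
(.nd (nat_lit 24) 
(.lf (nat_lit 49136824) (dlOf (nat_lit 1) (nat_lit 0x2e80080180002000e0009462c83))) 
(.lf (nat_lit 32359608) (dlOf (nat_lit 1) (nat_lit 0x2c00400020008ef2c82)))) 
(.lf (nat_lit 8242616) (dlOf (nat_lit 1) (nat_lit 0x400200020008513602))))))))) (.nd (nat_lit 8) 
(.nd (nat_lit 28) (.nd (nat_lit 10) (.nd (nat_lit 7) (.nd (nat_lit 18) (.nd (nat_lit 4) 
(.nd (nat_lit 19) 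
(.lf (nat_lit 54643304) (dlOf (nat_lit 2) (nat_lit 0x1c94c00104940001d829655380))) 
(.lf (nat_lit 46778984) (dlOf (nat_lit 1) (nat_lit 0x88008003400200020009385383)))) 
(.lf (nat_lit 44155000) (dlOf (nat_lit 1) (nat_lit 0x1600292d0b81)))) (.nd (nat_lit 4) 
(.nd (nat_lit 21) (.lf (nat_lit 4832215144) (dlOf (nat_lit 1) (nat_lit 0x40028110781))) 
(.lf (nat_lit 48611432) (dlOf (nat_lit 2) (nat_lit 0x598240026bfb001a59480004c180048008002400200060009420983)))) 
(.lf (nat_lit 11911288) (dlOf (nat_lit 1) (nat_lit 0x100080008002000400086c0083))))) 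
(.nd (nat_lit 4) (.nd (nat_lit 18) 
(.lf (nat_lit 2755772648) (dlOf (nat_lit 1) (nat_lit 0x24002000800081b0482))) (.nd (nat_lit 19) 
(.lf (nat_lit 19251432) (dlOf (nat_lit 1) (nat_lit 0x400400020018970602))) 
(.lf (nat_lit 23970024) (dlOf (nat_lit 1) (nat_lit 0x20028b80481))))) (.nd (nat_lit 23) 
(.lf (nat_lit 20037880) (dlOf (nat_lit 1) (nat_lit 0x80080004002000200089d0a83))) 
(.lf (nat_lit 11649272) (dlOf (nat_lit 1) (nat_lit 0x1200286c0481)))))) (.nd (nat_lit 9) 
(.nd (nat_lit 11) (.nd (nat_lit 4) (.nd (nat_lit 7) 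
(.lf (nat_lit 20305000) (dlOf (nat_lit 4) (nat_lit 0x3d9da0006cec00033020006676800100080013b3000044040018002000200089d9402))) 
(.lf (nat_lit 7980264) (dlOf (nat_lit 4) (nat_lit 0x109700002702000a9e9000225c00008f3c0004c0c0008970000120200220028512e01)))) 
(.lf (nat_lit 3355563256) (dlOf (nat_lit 2) (nat_lit 0x380c800098040004002000200080a9502)))) 
(.nd (nat_lit 18) (.nd (nat_lit 20) 
(.lf (nat_lit 6509677800) (dlOf (nat_lit 1) (nat_lit 0x400200040008146502))) 
(.lf (nat_lit 2754727144) (dlOf (nat_lit 1) (nat_lit 0x200280f6501)))) 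
(.lf (nat_lit 380136) (dlOf (nat_lit 1) (nat_lit 0x160018006501))))) (.nd (nat_lit 18) 
(.nd (nat_lit 26) (.lf (nat_lit 116456) (dlOf (nat_lit 1) (nat_lit 0x20028003b01))) 
(.lf (nat_lit 5972805352) (dlOf (nat_lit 1) (nat_lit 0x20028143b01)))) (.nd (nat_lit 4) 
(.lf (nat_lit 8767208) (dlOf (nat_lit 1) (nat_lit 0xe0018513b01))) 
(.lf (nat_lit 43370104) (dlOf (nat_lit 1) (nat_lit 0x600292a3981))))))) (.nd (nat_lit 4) 
(.nd (nat_lit 10) (.nd (nat_lit 22) (.nd (nat_lit 21) 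
(.lf (nat_lit 1476771944) (dlOf (nat_lit 1) (nat_lit 0x400080020002000a00081a0483))) 
(.lf (nat_lit 3492135016) (dlOf (nat_lit 1) (nat_lit 0x1200180a1401)))) (.nd (nat_lit 9) 
(.lf (nat_lit 1346748520) (dlOf (nat_lit 2) (nat_lit 0x5d025802e4108015407400c9039800108200268008004800200080009000983))) 
(.lf (nat_lit 1346488936) (dlOf (nat_lit 3) (nat_lit 0x182d8003e14f00aa002004d8004000821002cc2d8011a0bf009f0008000ec18002800812e000200060008f65383))))) 
(.nd (nat_lit 11) (.nd (nat_lit 9) 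
(.lf (nat_lit 1342297192) (dlOf (nat_lit 2) (nat_lit 0x1408e00011018009400))) 
(.lf (nat_lit 4095854184) (dlOf (nat_lit 1) (nat_lit 0x4002002600080e3902)))) (.nd (nat_lit 7) 
(.lf (nat_lit 469884008) (dlOf (nat_lit 2) (nat_lit 0x608e0001101800c080))) 
(.lf (nat_lit 471715048) (dlOf (nat_lit 2) (nat_lit 0x423c000000183d6500)))))) (.nd (nat_lit 26) 
(.nd (nat_lit 27) (.nd (nat_lit 21) 
(.lf (nat_lit 2952904824) (dlOf (nat_lit 1) (nat_lit 0x400400020018010282))) 
(.lf (nat_lit 1344389240) (dlOf (nat_lit 1) (nat_lit 0x10002001c0008740482)))) (.nd (nat_lit 19) 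
(.lf (nat_lit 1476509816) (dlOf (nat_lit 1) (nat_lit 0x4400200060008010282))) 
(.lf (nat_lit 5772001400) (dlOf (nat_lit 1) (nat_lit 0x8008000400200020008030c03))))) 
(.nd (nat_lit 19) (.nd (nat_lit 7) 
(.lf (nat_lit 3691102328) (dlOf (nat_lit 1) (nat_lit 0x1c002003c0008010282))) 
(.lf (nat_lit 872531192) (dlOf (nat_lit 1) (nat_lit 0x400200020008092e82)))) (.nd (nat_lit 21) 
(.lf (nat_lit 6375981176) (dlOf (nat_lit 3) (nat_lit 0x6000000208100090170000e0080090008003c002000e0008030b83))) 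
(.lf (nat_lit 6378078328) (dlOf (nat_lit 1) (nat_lit 0x1c0018102901)))))))) (.nd (nat_lit 10) 
(.nd (nat_lit 4) (.nd (nat_lit 30) (.nd (nat_lit 7) (.nd (nat_lit 20) (.nd (nat_lit 27) 
(.lf (nat_lit 4295344488) (dlOf (nat_lit 1) (nat_lit 0x400281a0701))) 
(.lf (nat_lit 4429562216) (dlOf (nat_lit 1) (nat_lit 0x400281a0701)))) 
(.lf (nat_lit 3522920) (dlOf (nat_lit 10) (nat_lit 0x72bc8000640804e1a08017ccd601324e9006f26c000050200391a080190cd600e84e9006e26c00004c2003e9a08020ccd600fe4e9007926c000044200379a0801b0cd600e84e9006f26c0000402003d9a0801e0cd600f44e90000583006b341003b99ac01b09d200ce4d8000038400742748000080802893a400002040044004002e0018200702)))) 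
(.nd (nat_lit 11) (.nd (nat_lit 9) 
(.lf (nat_lit 4697735656) (dlOf (nat_lit 1) (nat_lit 0x100080020002001a0008091303))) 
(.lf (nat_lit 1009107944) (dlOf (nat_lit 1) (nat_lit 0xf800800a800200600009082883)))) 
(.nd (nat_lit 26) 
(.lf (nat_lit 805423592) (dlOf (nat_lit 1) (nat_lit 0x8008000400200020008114e83))) 
(.lf (nat_lit 6509677032) (dlOf (nat_lit 1) (nat_lit 0x400400020008144e82)))))) (.nd (nat_lit 7) 
(.nd (nat_lit 9) (.nd (nat_lit 18) 
(.lf (nat_lit 4026646888) (dlOf (nat_lit 1) (nat_lit 0x400400020008015202))) 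
(.lf (nat_lit 1343078760) (dlOf (nat_lit 2) (nat_lit 0x140000000002009a0008150981)))) 
(.lf (nat_lit 3355558760) (dlOf (nat_lit 1) (nat_lit 0xc400180a2581)))) (.nd (nat_lit 31) 
(.nd (nat_lit 29) 
(.lf (nat_lit 1073857000) (dlOf (nat_lit 3) (nat_lit 0xc0290002e8100010148000000802d00080008002004e0008017d03))) 
(.lf (nat_lit 1610727912) (dlOf (nat_lit 2) (nat_lit 0x1001800000080078008000800200240008091303)))) 
(.nd (nat_lit 9) 
(.lf (nat_lit 3221342696) (dlOf (nat_lit 1) (nat_lit 0x8008000400200020008114e83))) 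
(.lf (nat_lit 3492660200) (dlOf (nat_lit 1) (nat_lit 0x200180f2881))))))) (.nd (nat_lit 7) 
(.nd (nat_lit 24) (.nd (nat_lit 9) 
(.lf (nat_lit 805423480) (dlOf (nat_lit 1) (nat_lit 0x2b000801bc002009a0008114e83))) 
(.nd (nat_lit 26) 
(.lf (nat_lit 4563520376) (dlOf (nat_lit 1) (nat_lit 0x2d000801ec00200020008095c03))) 
(.lf (nat_lit 738315128) (dlOf (nat_lit 1) (nat_lit 0x80028095c01))))) (.nd (nat_lit 18) 
(.lf (nat_lit 54643576) (dlOf (nat_lit 1) (nat_lit 0x60019655c01))) 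
(.lf (nat_lit 20302712) (dlOf (nat_lit 1) (nat_lit 0x28002002a00089d5c02))))) (.nd (nat_lit 9) 
(.nd (nat_lit 11) (.lf (nat_lit 1073857016) (dlOf (nat_lit 2) (nat_lit 0x2602900000018017e00))) 
(.nd (nat_lit 27) 
(.lf (nat_lit 2751584760) (dlOf (nat_lit 1) (nat_lit 0x800800580020012000800b283))) 
(.lf (nat_lit 3959544312) (dlOf (nat_lit 1) (nat_lit 0x6000800d00020030000811b283))))) 
(.nd (nat_lit 18) (.lf (nat_lit 115704) (dlOf (nat_lit 1) (nat_lit 0x400200020008002882))) 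
(.nd (nat_lit 19) 
(.lf (nat_lit 1009107960) (dlOf (nat_lit 2) (nat_lit 0xe071801888080018008000400200060009082883))) 
(.lf (nat_lit 1880998904) (dlOf (nat_lit 1) (nat_lit 0x400400040008dd2882)))))))) (.nd (nat_lit 26) 
(.nd (nat_lit 11) (.nd (nat_lit 9) (.nd (nat_lit 19) (.nd (nat_lit 7) 
(.lf (nat_lit 2818688360) (dlOf (nat_lit 1) (nat_lit 0xa00280d3481))) 
(.lf (nat_lit 4697736680) (dlOf (nat_lit 1) (nat_lit 0x2d000801ec00200020008093603)))) 
(.nd (nat_lit 12) (.lf (nat_lit 61457896) (dlOf (nat_lit 1) (nat_lit 0x20029923601))) 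
(.lf (nat_lit 19781096) (dlOf (nat_lit 1) (nat_lit 0x2c00089d9b81))))) (.nd (nat_lit 4) 
(.nd (nat_lit 19) (.lf (nat_lit 116712) (dlOf (nat_lit 1) (nat_lit 0x20028004601))) 
(.lf (nat_lit 7981032) (dlOf (nat_lit 1) (nat_lit 0x220028514601)))) 
(.lf (nat_lit 7980920) (dlOf (nat_lit 1) (nat_lit 0x1000400040008514082))))) (.nd (nat_lit 4) 
(.nd (nat_lit 7) (.lf (nat_lit 3489779048) (dlOf (nat_lit 1) (nat_lit 0x2b000200480008006a82))) 
(.lf (nat_lit 805424616) (dlOf (nat_lit 1) (nat_lit 0xc0028116e81)))) (.nd (nat_lit 28) 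
(.lf (nat_lit 3221343736) (dlOf (nat_lit 1) (nat_lit 0x400400020008116f82))) 
(.lf (nat_lit 805424632) (dlOf (nat_lit 1) (nat_lit 0x400400020008116f82)))))) (.nd (nat_lit 4) 
(.nd (nat_lit 28) (.nd (nat_lit 27) 
(.lf (nat_lit 4899063272) (dlOf (nat_lit 1) (nat_lit 0x20018053601))) 
(.lf (nat_lit 4496410088) (dlOf (nat_lit 1) (nat_lit 0x8008007400200de0008053603)))) 
(.nd (nat_lit 11) (.lf (nat_lit 6375720424) (dlOf (nat_lit 1) (nat_lit 0x40018003601))) 
(.lf (nat_lit 1543622120) (dlOf (nat_lit 1) (nat_lit 0x400200280008146e82))))) (.nd (nat_lit 9) 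
(.nd (nat_lit 11) (.lf (nat_lit 6375458296) (dlOf (nat_lit 1) (nat_lit 0x400400020008003682))) 
(.lf (nat_lit 6509678072) (dlOf (nat_lit 1) (nat_lit 0x400400020008146f82)))) (.nd (nat_lit 27) 
(.lf (nat_lit 1677842424) (dlOf (nat_lit 1) (nat_lit 0x2001811a601))) 
(.lf (nat_lit 201447416) (dlOf (nat_lit 1) (nat_lit 0x380040110000800a602))))))))))) 
(.nd (nat_lit 4) (.nd (nat_lit 5) (.nd (nat_lit 6) (.nd (nat_lit 18) (.nd (nat_lit 19) 
(.nd (nat_lit 26) (.nd (nat_lit 21) (.nd (nat_lit 27) (.nd (nat_lit 20) (.nd (nat_lit 22) 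
(.lf (nat_lit 2684469260) (dlOf (nat_lit 1) (nat_lit 0xc00400040018030482))) 
(.lf (nat_lit 12697612) (dlOf (nat_lit 1) (nat_lit 0x180080008002000400086d0683)))) 
(.lf (nat_lit 47300620) (dlOf (nat_lit 1) (nat_lit 0x1e00093d0081)))) (.nd (nat_lit 7) 
(.nd (nat_lit 8) (.lf (nat_lit 3623993356) (dlOf (nat_lit 1) (nat_lit 0x420028080481))) 
(.lf (nat_lit 939640588) (dlOf (nat_lit 1) (nat_lit 0x800400040018143b82)))) 
(.lf (nat_lit 1208076940) (dlOf (nat_lit 1) (nat_lit 0x20008095481))))) (.nd (nat_lit 20) 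
(.nd (nat_lit 7) (.lf (nat_lit 44154892) (dlOf (nat_lit 1) (nat_lit 0xc00292d0001))) 
(.lf (nat_lit 2211980) (dlOf (nat_lit 1) (nat_lit 0xc00400020008150102)))) (.nd (nat_lit 23) 
(.lf (nat_lit 24231948) (dlOf (nat_lit 1) (nat_lit 0x2000400080008b90682))) 
(.lf (nat_lit 15843340) (dlOf (nat_lit 1) (nat_lit 0x20008840281)))))) (.nd (nat_lit 29) 
(.nd (nat_lit 7) (.nd (nat_lit 27) 
(.lf (nat_lit 67223564) (dlOf (nat_lit 1) (nat_lit 0x400200020008030482))) 
(.lf (nat_lit 3422666764) (dlOf (nat_lit 1) (nat_lit 0xc00400040018030482)))) 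
(.lf (nat_lit 1140965772) (dlOf (nat_lit 1) (nat_lit 0x60018035d81)))) (.nd (nat_lit 7) 
(.nd (nat_lit 9) (.lf (nat_lit 2885795852) (dlOf (nat_lit 1) (nat_lit 0x420028080481))) 
(.lf (nat_lit 1677842956) (dlOf (nat_lit 1) (nat_lit 0x2001811b281)))) 
(.lf (nat_lit 2753675404) (dlOf (nat_lit 1) (nat_lit 0x30008000800200020008090103)))))) 
(.nd (nat_lit 20) (.nd (nat_lit 21) (.nd (nat_lit 7) (.nd (nat_lit 22) 
(.lf (nat_lit 3154755596) (dlOf (nat_lit 2) (nat_lit 0x1012005f880800a0008003c002000e0008320783))) 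
(.lf (nat_lit 21610508) (dlOf (nat_lit 1) (nat_lit 0x90008000400200100008a50083)))) 
(.lf (nat_lit 46778764) (dlOf (nat_lit 1) (nat_lit 0x400400020009384e82)))) (.nd (nat_lit 22) 
(.lf (nat_lit 27901964) (dlOf (nat_lit 1) (nat_lit 0x20018d40101))) 
(.lf (nat_lit 6930444) (dlOf (nat_lit 1) (nat_lit 0x9400200020008490282))))) (.nd (nat_lit 23) 
(.nd (nat_lit 7) (.nd (nat_lit 21) 
(.lf (nat_lit 5881868) (dlOf (nat_lit 1) (nat_lit 0x9400200020008400282))) 
(.lf (nat_lit 24756236) (dlOf (nat_lit 1) (nat_lit 0x4800400180008bb0082)))) 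
(.lf (nat_lit 7980428) (dlOf (nat_lit 1) (nat_lit 0x40018513601)))) (.nd (nat_lit 7) 
(.nd (nat_lit 21) 
(.lf (nat_lit 26853388) (dlOf (nat_lit 1) (nat_lit 0x18008001000200040008c80483))) 
(.lf (nat_lit 16367628) (dlOf (nat_lit 4) (nat_lit 0x172b4800615a000208e80008906001e569000c2b4000191d0001100c005cad20018568000723a000218180008008000c00200020008890183)))) 
(.lf (nat_lit 12173452) (dlOf (nat_lit 1) (nat_lit 0x4002000200086c0102))))))) (.nd (nat_lit 27) 
(.nd (nat_lit 30) (.nd (nat_lit 29) (.nd (nat_lit 20) (.nd (nat_lit 21) 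
(.lf (nat_lit 4362453004) (dlOf (nat_lit 5) (nat_lit 0x180470008a0100060168004040800200cc001e4040020066000f10200020008080081))) 
(.lf (nat_lit 2473996) (dlOf (nat_lit 1) (nat_lit 0x20008002000200080008160683)))) (.nd (nat_lit 8) 
(.lf (nat_lit 22921228) (dlOf (nat_lit 2) (nat_lit 0xc0000000ec0800100080058002001c0008b40103))) 
(.lf (nat_lit 41271564) (dlOf (nat_lit 1) (nat_lit 0x8008000400200040009237403))))) 
(.nd (nat_lit 26) (.nd (nat_lit 28) 
(.lf (nat_lit 537247756) (dlOf (nat_lit 1) (nat_lit 0x8008005800200160008070503))) 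
(.lf (nat_lit 805683212) (dlOf (nat_lit 2) (nat_lit 0x2b4026000000200080008180501)))) 
(.lf (nat_lit 4899323916) (dlOf (nat_lit 1) (nat_lit 0x4004000e0008110082))))) (.nd (nat_lit 26) 
(.nd (nat_lit 28) (.nd (nat_lit 29) 
(.lf (nat_lit 3221602316) (dlOf (nat_lit 3) (nat_lit 0x160460008681000202300041c080088008000c00200060008160083))) 
(.lf (nat_lit 1610989580) (dlOf (nat_lit 2) (nat_lit 0x3d814801e80680020020004ea0380b0000)))) 
(.lf (nat_lit 4026908684) (dlOf (nat_lit 1) (nat_lit 0x348008002400200ee00080c0803)))) 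
(.nd (nat_lit 28) (.nd (nat_lit 29) 
(.lf (nat_lit 3288711180) (dlOf (nat_lit 1) (nat_lit 0x348008002400200ee00080c0803))) 
(.lf (nat_lit 1678098444) (dlOf (nat_lit 2) (nat_lit 0x2b4026000000200080008180501)))) 
(.nd (nat_lit 19) 
(.lf (nat_lit 1409662988) (dlOf (nat_lit 1) (nat_lit 0x8008005800200160008070503))) 
(.lf (nat_lit 3557670924) (dlOf (nat_lit 7) (nat_lit 0x2064000a0308009018000400bc00020450005021000380fc000403600bd310000605e000801f802f141000381e000100e40020061000d02f00038114000c084001c03f000800d802f104000601bc00240b60026038000501b000d00d0001404400bbc0c001206f000b02d800600e0002406c0028034005d4850012011002d10080128008012c002001600082a0283))))))) 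
(.nd (nat_lit 28) (.nd (nat_lit 26) (.nd (nat_lit 19) (.nd (nat_lit 30) 
(.lf (nat_lit 134594572) (dlOf (nat_lit 1) (nat_lit 0x18008000800200080008080083))) 
(.lf (nat_lit 3355820044) (dlOf (nat_lit 6) (nat_lit 0x58c064043801200025020070009000124081bb00c805c002400041040c44031005a00b800580481dd80220003b080072032000600900000010083000817140020a1e0008120103)))) 
(.lf (nat_lit 2819473420) (dlOf (nat_lit 7) (nat_lit 0x1406a00120348000818400400bc000a04b0001021000380fc00040360063e10000605e000801f8018c81000381e000100e4002006a000d02f0001812c001c084001c03f000800d8018bc4000601bc00240b6000a03c001301b000d00d00014044006270c001206f000b02d800480f0003006c00280340030a0500120110016e0080128008012c002001600082a0283)))) 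
(.nd (nat_lit 29) 
(.lf (nat_lit 201703436) (dlOf (nat_lit 1) (nat_lit 0x18008000800200080008080083))) 
(.nd (nat_lit 30) 
(.lf (nat_lit 738574348) (dlOf (nat_lit 2) (nat_lit 0x3d814801e806800200200021f8380b0000))) 
(.lf (nat_lit 3959799820) (dlOf (nat_lit 3) (nat_lit 0x160460007c0100020230003c8080088008000c00200060008160083)))))) 
(.nd (nat_lit 20) (.nd (nat_lit 29) (.nd (nat_lit 22) 
(.lf (nat_lit 2617622540) (dlOf (nat_lit 24) (nat_lit 0x2c002f00270090001281006d00bc00092040238060037002f000d01480010c1805180bc0004052000420402ee02f0016017000380a401dc0240004108022802f0002001012f0178000fc0809d00bc098005c00bc01700c600900e1804403080000003b0c001002f0001b8100aa017806680b80006c08001405c0002402000602e000118100060170000880800f00bc000405c0002004003202e0000f0100040170000640800080b8000300401b405e00d402e0000b8200450170000580803380b80002404035805e0001102000202e000050101290178000000806b0008219000205d80008100103))) 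
(.lf (nat_lit 474333196) (dlOf (nat_lit 1) (nat_lit 0x8008001800200380009150003)))) 
(.nd (nat_lit 7) 
(.lf (nat_lit 4228235276) (dlOf (nat_lit 5) (nat_lit 0xc02c0008801000401900041c0800400c80020c040030080000fd0200020008080081))) 
(.lf (nat_lit 6377818508) (dlOf (nat_lit 1) (nat_lit 0x400080e4e81))))) (.nd (nat_lit 7) 
(.nd (nat_lit 26) (.lf (nat_lit 5773312012) (dlOf (nat_lit 1) (nat_lit 0x4000280c0001))) 
(.lf (nat_lit 6377291788) (dlOf (nat_lit 1) (nat_lit 0x4000280c0001)))) (.nd (nat_lit 8) 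
(.lf (nat_lit 6377291916) (dlOf (nat_lit 1) (nat_lit 0x400280c0f81))) 
(.lf (nat_lit 6376769932) (dlOf (nat_lit 1) (nat_lit 0x20028094e81))))))))) (.nd (nat_lit 8) 
(.nd (nat_lit 19) (.nd (nat_lit 26) (.nd (nat_lit 7) (.nd (nat_lit 20) 
(.lf (nat_lit 1881522252) (dlOf (nat_lit 1) (nat_lit 0x80028f40681))) (.nd (nat_lit 21) 
(.lf (nat_lit 1425484) (dlOf (nat_lit 3) (nat_lit 0xa160000507180048364008c0e200420650000585002d0b00016838c00000080104004000c00180c0f82))) 
(.lf (nat_lit 37077068) (dlOf (nat_lit 1) (nat_lit 0x20009090681))))) (.nd (nat_lit 9) 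
(.nd (nat_lit 10) (.lf (nat_lit 3522764) (dlOf (nat_lit 1) (nat_lit 0xc00400020018200482))) 
(.lf (nat_lit 5772526796) (dlOf (nat_lit 1) (nat_lit 0x8008000400200020008092d83)))) 
(.lf (nat_lit 20042444) (dlOf (nat_lit 1) (nat_lit 0x80080004002000200089d8c83))))) 
(.nd (nat_lit 27) (.nd (nat_lit 11) (.nd (nat_lit 18) 
(.lf (nat_lit 2483142732) (dlOf (nat_lit 6) (nat_lit 0x405400e802800012820007015000f00a000048080128050000200200f80280000c010071014000000080248008006000200460008030f83))) 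
(.lf (nat_lit 3288711244) (dlOf (nat_lit 4) (nat_lit 0xc80800007a0400580400003c02000a0130001c0180c1500)))) 
(.lf (nat_lit 2751584332) (dlOf (nat_lit 1) (nat_lit 0x800800080020002000800a683)))) 
(.nd (nat_lit 7) (.nd (nat_lit 11) 
(.lf (nat_lit 2348925004) (dlOf (nat_lit 6) (nat_lit 0x405400e802800012820007015000f00a000048080128050000200200f80280000c010071014000000080248008006000200460008030f83))) 
(.lf (nat_lit 3959543884) (dlOf (nat_lit 1) (nat_lit 0x2002811a681)))) 
(.lf (nat_lit 6375456972) (dlOf (nat_lit 1) (nat_lit 0x20028000881)))))) (.nd (nat_lit 21) 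
(.nd (nat_lit 18) (.nd (nat_lit 9) 
(.lf (nat_lit 3221864524) (dlOf (nat_lit 6) (nat_lit 0x5800500009c0802880280004c0401340140002402009400a0001181004a0050000880800680080054002009600081a1503))) 
(.lf (nat_lit 34196044) (dlOf (nat_lit 1) (nat_lit 0x400200540008fb5282)))) (.nd (nat_lit 23) 
(.lf (nat_lit 901196) (dlOf (nat_lit 1) (nat_lit 0x20028030f81))) 
(.lf (nat_lit 42844236) (dlOf (nat_lit 1) (nat_lit 0x20019280681))))) (.nd (nat_lit 20) 
(.nd (nat_lit 26) 
(.lf (nat_lit 3492397132) (dlOf (nat_lit 3) (nat_lit 0x643ea0002702000e1f5000130180c1500))) 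
(.lf (nat_lit 2754199628) (dlOf (nat_lit 1) (nat_lit 0x20400080c1881)))) (.nd (nat_lit 7) 
(.nd (nat_lit 18) (.lf (nat_lit 41533516) (dlOf (nat_lit 1) (nat_lit 0x800400020019240002))) 
(.lf (nat_lit 4046924) (dlOf (nat_lit 1) (nat_lit 0x200028270d01)))) 
(.lf (nat_lit 12173516) (dlOf (nat_lit 1) (nat_lit 0x1800086c0481))))))) (.nd (nat_lit 7) 
(.nd (nat_lit 18) (.nd (nat_lit 10) (.nd (nat_lit 21) (.nd (nat_lit 19) 
(.lf (nat_lit 604094796) (dlOf (nat_lit 2) (nat_lit 0x40000000dc0801e0008002800200240008010803))) 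
(.lf (nat_lit 50970956) (dlOf (nat_lit 1) (nat_lit 0x200294e8881)))) (.nd (nat_lit 20) 
(.lf (nat_lit 2212172) (dlOf (nat_lit 2) (nat_lit 0x2ea4700019818150600))) 
(.lf (nat_lit 3260748) (dlOf (nat_lit 2) (nat_lit 0x824b200019018200600))))) (.nd (nat_lit 9) 
(.nd (nat_lit 11) (.nd (nat_lit 24) 
(.lf (nat_lit 3154232652) (dlOf (nat_lit 1) (nat_lit 0x40028103301))) 
(.lf (nat_lit 50447692) (dlOf (nat_lit 1) (nat_lit 0x400294c3301)))) 
(.lf (nat_lit 3825323340) (dlOf (nat_lit 1) (nat_lit 0xea0028146a01)))) (.nd (nat_lit 26) 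
(.lf (nat_lit 5905696588) (dlOf (nat_lit 1) (nat_lit 0x400400020008143e82))) 
(.lf (nat_lit 2751579980) (dlOf (nat_lit 1) (nat_lit 0x400400020008003e82)))))) (.nd (nat_lit 20) 
(.nd (nat_lit 23) (.nd (nat_lit 27) 
(.lf (nat_lit 4295344460) (dlOf (nat_lit 1) (nat_lit 0x200281a0601))) 
(.lf (nat_lit 4429562188) (dlOf (nat_lit 1) (nat_lit 0x200281a0601)))) 
(.lf (nat_lit 25542988) (dlOf (nat_lit 1) (nat_lit 0x20018c10801)))) (.nd (nat_lit 9) 
(.nd (nat_lit 22) 
(.lf (nat_lit 3522892) (dlOf (nat_lit 2) (nat_lit 0x98d04007666b003f274801193600006410003000200240008200602))) 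
(.lf (nat_lit 58048844) (dlOf (nat_lit 2) (nat_lit 0xd4300001e40800480080020002000400097b8883)))) 
(.lf (nat_lit 20302668) (dlOf (nat_lit 1) (nat_lit 0x4002000200089d5c02)))))) (.nd (nat_lit 10) 
(.nd (nat_lit 20) (.nd (nat_lit 9) (.nd (nat_lit 28) 
(.lf (nat_lit 3288449484) (dlOf (nat_lit 1) (nat_lit 0xe0018017101))) 
(.lf (nat_lit 1946272204) (dlOf (nat_lit 1) (nat_lit 0x40028017101)))) 
(.lf (nat_lit 61457356) (dlOf (nat_lit 1) (nat_lit 0x20008000400200020009922883)))) 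
(.nd (nat_lit 21) (.nd (nat_lit 26) 
(.lf (nat_lit 3491348940) (dlOf (nat_lit 4) (nat_lit 0x4583f8022a1e70001e82000d0fe000014080b907f005bc3ce0028165000e0ae800000200070008008000200160008090983))) 
(.lf (nat_lit 2753151436) (dlOf (nat_lit 4) (nat_lit 0x458422022a1f90001f02000d108800014080b9084405bc3f20028169000e0a9800000200070008008000200160008090983)))) 
(.lf (nat_lit 473547212) (dlOf (nat_lit 1) (nat_lit 0x20018f67a81))))) (.nd (nat_lit 12) 
(.nd (nat_lit 26) 
(.lf (nat_lit 671205324) (dlOf (nat_lit 2) (nat_lit 0x100c0000400800d0008001000200020008144483))) 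
(.nd (nat_lit 30) 
(.lf (nat_lit 2751580108) (dlOf (nat_lit 6) (nat_lit 0xe124000802180002208003849000240860000802001504300003c080088224004c1100000e0400220890024044000034100098008000800200080008004483))) 
(.lf (nat_lit 1677838284) (dlOf (nat_lit 2) (nat_lit 0x80a2000030200040028114481))))) 
(.nd (nat_lit 18) (.lf (nat_lit 1677842380) (dlOf (nat_lit 1) (nat_lit 0x40040002000811a602))) 
(.nd (nat_lit 20) 
(.lf (nat_lit 2483410892) (dlOf (nat_lit 1) (nat_lit 0x180080004002000600080fa603))) 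
(.lf (nat_lit 3493189580) (dlOf (nat_lit 1) (nat_lit 0x400180fa601)))))))))) (.nd (nat_lit 28) 
(.nd (nat_lit 7) (.nd (nat_lit 19) (.nd (nat_lit 11) (.nd (nat_lit 18) (.nd (nat_lit 23) 
(.nd (nat_lit 32) (.nd (nat_lit 20) (.nd (nat_lit 26) 
(.lf (nat_lit 2684469292) (dlOf (nat_lit 1) (nat_lit 0x2000200600008030682))) 
(.lf (nat_lit 3422666796) (dlOf (nat_lit 1) (nat_lit 0x2000200600008030682)))) 
(.lf (nat_lit 1163308) (dlOf (nat_lit 1) (nat_lit 0x400400020008080602)))) (.nd (nat_lit 26) 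
(.nd (nat_lit 27) (.lf (nat_lit 4295082028) (dlOf (nat_lit 1) (nat_lit 0x400400020008050602))) 
(.lf (nat_lit 4429299756) (dlOf (nat_lit 1) (nat_lit 0x400400020008050602)))) 
(.lf (nat_lit 5435932716) (dlOf (nat_lit 2) (nat_lit 0x180c000018040008004001e0018040302))))) 
(.nd (nat_lit 21) (.nd (nat_lit 6) 
(.lf (nat_lit 47300652) (dlOf (nat_lit 1) (nat_lit 0xc004000200093d0c02))) 
(.lf (nat_lit 12697708) (dlOf (nat_lit 1) (nat_lit 0x400186d1481)))) (.nd (nat_lit 24) 
(.lf (nat_lit 10600492) (dlOf (nat_lit 1) (nat_lit 0x40028600481))) 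
(.lf (nat_lit 27377708) (dlOf (nat_lit 2) (nat_lit 0x553e800090080020008002c002000c0008cd0803)))))) 
(.nd (nat_lit 9) (.nd (nat_lit 6) (.nd (nat_lit 20) 
(.lf (nat_lit 1678098476) (dlOf (nat_lit 6) (nat_lit 0xa802a800c8150025c0a600fe04e005802600280128035808a00060370042018800280c0035805a016802c005d0090021002800fc00c000101e012a05500b8029807c813801cc09801b604a00ab022802d80dc01c8062015402d00ae01600340058011402400ba000000078d005d02b0018814c015c09400ae032003901600f0004c0001c1800080ac0116032010c0098000341803700c8000060400d000200040008180802))) 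
(.lf (nat_lit 30785580) (dlOf (nat_lit 1) (nat_lit 0x400200020008e50b02)))) 
(.lf (nat_lit 33931372) (dlOf (nat_lit 1) (nat_lit 0x8008000400200020008f81e83)))) 
(.nd (nat_lit 21) (.lf (nat_lit 21348908) (dlOf (nat_lit 1) (nat_lit 0x20008a38001))) 
(.lf (nat_lit 23446060) (dlOf (nat_lit 1) (nat_lit 0x1c00200020008b80e82)))))) (.nd (nat_lit 6) 
(.nd (nat_lit 10) 
(.lf (nat_lit 1208076844) (dlOf (nat_lit 1) (nat_lit 0x18008000c00200060008095183))) 
(.nd (nat_lit 26) (.lf (nat_lit 6576786988) (dlOf (nat_lit 1) (nat_lit 0x1400200020008147182))) 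
(.lf (nat_lit 1812057644) (dlOf (nat_lit 1) (nat_lit 0x1400400020008147182))))) (.nd (nat_lit 10) 
(.nd (nat_lit 12) (.lf (nat_lit 47565164) (dlOf (nat_lit 1) (nat_lit 0xb80019404e81))) 
(.lf (nat_lit 2751584620) (dlOf (nat_lit 1) (nat_lit 0x40040002000800ac82)))) 
(.lf (nat_lit 3825323372) (dlOf (nat_lit 1) (nat_lit 0x8008000400200020008146b03)))))) 
(.nd (nat_lit 22) (.nd (nat_lit 26) (.nd (nat_lit 20) (.nd (nat_lit 29) 
(.lf (nat_lit 134856748) (dlOf (nat_lit 3) (nat_lit 0x20210000940800081080002604000c004000200080d0a82))) 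
(.lf (nat_lit 3892953132) (dlOf (nat_lit 2) (nat_lit 0xa0190000b0182a0b00)))) 
(.lf (nat_lit 1687596) (dlOf (nat_lit 1) (nat_lit 0x400400020008110602)))) (.nd (nat_lit 27) 
(.nd (nat_lit 9) 
(.lf (nat_lit 2754199596) (dlOf (nat_lit 13) (nat_lit 0x3d421c000120101eb10e0000880809b0870000400404e44380001f02014221c0000e81004a10e00006c080238890012c3a400020000000c8300441120026874800140000001806008c1d20000b01000d11200250748000c0000001406024021c0000281000310e0000100800080080080002000200080c0d03))) 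
(.lf (nat_lit 2753151532) (dlOf (nat_lit 2) (nat_lit 0x1da1fd00000018090e80)))) (.nd (nat_lit 29) 
(.lf (nat_lit 201965612) (dlOf (nat_lit 3) (nat_lit 0x20210000940800081080002604000c004000200080d0a82))) 
(.lf (nat_lit 3960061996) (dlOf (nat_lit 5) (nat_lit 0x9c807c030e00e0184006002380100320000000190a04e803e004200e00c48038000300c09a007c032c00e00c8006003180000002c1009b007c032c00e00010020000501803700080060002000600081a0d03)))))) 
(.nd (nat_lit 9) (.nd (nat_lit 23) (.nd (nat_lit 8) 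
(.lf (nat_lit 24756268) (dlOf (nat_lit 7) (nat_lit 0x35ea0000aef4001c608002177a000e2020006bbd000708100015ea00042ef4000ec0800117a80010bbd0003a8200065de8001cc08005000800d4002000a0008bb0b03))) 
(.lf (nat_lit 7984428) (dlOf (nat_lit 1) (nat_lit 0x20008000c00200020008519803)))) 
(.nd (nat_lit 18) 
(.lf (nat_lit 48873516) (dlOf (nat_lit 1) (nat_lit 0x10008000800200040009440283))) 
(.lf (nat_lit 16629804) (dlOf (nat_lit 1) (nat_lit 0xb0008002c002000800088c0803))))) 
(.nd (nat_lit 8) (.nd (nat_lit 10) 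
(.lf (nat_lit 58575404) (dlOf (nat_lit 1) (nat_lit 0x4002000200097e5182))) 
(.lf (nat_lit 7980588) (dlOf (nat_lit 1) (nat_lit 0x1c00200040008513782)))) 
(.lf (nat_lit 7980844) (dlOf (nat_lit 1) (nat_lit 0x400400020008513d82))))))) (.nd (nat_lit 8) 
(.nd (nat_lit 6) (.nd (nat_lit 10) (.nd (nat_lit 9) 
(.lf (nat_lit 43106476) (dlOf (nat_lit 2) (nat_lit 0x55db0001f0192a0600))) 
(.lf (nat_lit 8245932) (dlOf (nat_lit 1) (nat_lit 0x900080004002002e0008518c83)))) 
(.nd (nat_lit 11) (.nd (nat_lit 18) 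
(.lf (nat_lit 32621740) (dlOf (nat_lit 2) (nat_lit 0x35524000be040008002000a0008ef2c02))) 
(.lf (nat_lit 32359596) (dlOf (nat_lit 1) (nat_lit 0x1800400100018ef2c02)))) 
(.lf (nat_lit 1812057260) (dlOf (nat_lit 1) (nat_lit 0x800400040018146282))))) (.nd (nat_lit 9) 
(.nd (nat_lit 30) (.nd (nat_lit 10) 
(.lf (nat_lit 2751580396) (dlOf (nat_lit 1) (nat_lit 0x400200060008004b02))) 
(.lf (nat_lit 642284) (dlOf (nat_lit 4) (nat_lit 0x18144000d09c000684cc00341d000036080012144000b09c000484cc00281d000034080012144000909c000504cc00281d00002b0800040028006501)))) 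
(.nd (nat_lit 27) 
(.lf (nat_lit 1677838572) (dlOf (nat_lit 1) (nat_lit 0x8008000400200040008114b03))) 
(.lf (nat_lit 3959539948) (dlOf (nat_lit 1) (nat_lit 0x800400040008114b02))))) (.nd (nat_lit 10) 
(.nd (nat_lit 18) (.lf (nat_lit 20568812) (dlOf (nat_lit 1) (nat_lit 0x4002000200089db982))) 
(.lf (nat_lit 19782380) (dlOf (nat_lit 1) (nat_lit 0x4002000200089db982)))) 
(.lf (nat_lit 6509678316) (dlOf (nat_lit 1) (nat_lit 0x3e0018147401)))))) (.nd (nat_lit 6) 
(.nd (nat_lit 9) (.nd (nat_lit 10) 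
(.lf (nat_lit 1812056492) (dlOf (nat_lit 1) (nat_lit 0x40008144e81))) (.nd (nat_lit 11) 
(.lf (nat_lit 20305324) (dlOf (nat_lit 1) (nat_lit 0x4004000400089d9902))) 
(.lf (nat_lit 6509677996) (dlOf (nat_lit 1) (nat_lit 0x400400020008146d02))))) (.nd (nat_lit 10) 
(.lf (nat_lit 20040620) (dlOf (nat_lit 1) (nat_lit 0x200289d5d01))) 
(.lf (nat_lit 5905696684) (dlOf (nat_lit 1) (nat_lit 0x2740028144301))))) (.nd (nat_lit 10) 
(.nd (nat_lit 11) 
(.lf (nat_lit 2753151468) (dlOf (nat_lit 4) (nat_lit 0x3107f0000080401543f8000030200b61fc00001018090d00))) 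
(.nd (nat_lit 20) (.lf (nat_lit 38652396) (dlOf (nat_lit 1) (nat_lit 0x400200020009134f02))) 
(.lf (nat_lit 33409516) (dlOf (nat_lit 1) (nat_lit 0x80028f54f01))))) (.nd (nat_lit 11) 
(.nd (nat_lit 12) (.lf (nat_lit 61457900) (dlOf (nat_lit 1) (nat_lit 0x220019923601))) 
(.lf (nat_lit 8771052) (dlOf (nat_lit 1) (nat_lit 0x10004000c0008519c02)))) 
(.lf (nat_lit 6509678060) (dlOf (nat_lit 1) (nat_lit 0x20028146e81)))))))) (.nd (nat_lit 29) 
(.nd (nat_lit 18) (.nd (nat_lit 19) (.nd (nat_lit 6) (.nd (nat_lit 9) 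
(.lf (nat_lit 1343340588) (dlOf (nat_lit 1) (nat_lit 0x17c0018200881))) 
(.lf (nat_lit 335661612) (dlOf (nat_lit 1) (nat_lit 0x400400020008095182)))) 
(.lf (nat_lit 5772526828) (dlOf (nat_lit 1) (nat_lit 0x400200020008092e82)))) (.nd (nat_lit 20) 
(.nd (nat_lit 26) (.lf (nat_lit 1342816300) (dlOf (nat_lit 1) (nat_lit 0x2200180d0981))) 
(.lf (nat_lit 470401068) (dlOf (nat_lit 1) (nat_lit 0x2200180d0981)))) (.nd (nat_lit 6) 
(.nd (nat_lit 9) (.lf (nat_lit 471449644) (dlOf (nat_lit 1) (nat_lit 0x20018300b01))) 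
(.lf (nat_lit 3491349036) (dlOf (nat_lit 2) (nat_lit 0x1da1eb00000018090e80)))) 
(.lf (nat_lit 3491348972) (dlOf (nat_lit 4) (nat_lit 0x3107a8000080401543d4000030200b61ea00001018090d00)))))) 
(.nd (nat_lit 27) (.nd (nat_lit 6) (.nd (nat_lit 30) 
(.lf (nat_lit 2416295980) (dlOf (nat_lit 5) (nat_lit 0x12004400620000001882001b0110000bc0800f80880005a0400680000002b02001000280d0a81))) 
(.lf (nat_lit 5637521452) (dlOf (nat_lit 1) (nat_lit 0x20018100301)))) (.nd (nat_lit 7) 
(.lf (nat_lit 3492135020) (dlOf (nat_lit 1) (nat_lit 0x600280a1481))) 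
(.lf (nat_lit 3492660204) (dlOf (nat_lit 1) (nat_lit 0xe00180f2881))))) (.nd (nat_lit 26) 
(.nd (nat_lit 6) 
(.lf (nat_lit 2550513708) (dlOf (nat_lit 5) (nat_lit 0x680000003402009002200310000000b81000d80880005804007c0440002a02001000280d0a81))) 
(.lf (nat_lit 3624258796) (dlOf (nat_lit 2) (nat_lit 0xc01c00010018146500)))) (.nd (nat_lit 30) 
(.lf (nat_lit 2617622572) (dlOf (nat_lit 3) (nat_lit 0x20000032d80805b00bc0000004021800401b80008100782))) 
(.lf (nat_lit 5838848044) (dlOf (nat_lit 1) (nat_lit 0xce00081d0a01))))))) (.nd (nat_lit 26) 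
(.nd (nat_lit 8) (.nd (nat_lit 18) (.nd (nat_lit 10) 
(.lf (nat_lit 1879687212) (dlOf (nat_lit 1) (nat_lit 0x4004000200182d0982))) 
(.lf (nat_lit 939639852) (dlOf (nat_lit 1) (nat_lit 0x20028142881)))) (.nd (nat_lit 30) 
(.nd (nat_lit 32) 
(.lf (nat_lit 805683244) (dlOf (nat_lit 7) (nat_lit 0x1302b0000b408044815401b40a800ea053002f029003301380194098000204a00ad022802900dc0128062002803000b0016804800b0019002400c800a00c200300004080046015800040aa004a04e0056025002680c8005c058013c0130000707007d00980003408013812800012040254064000030200020028180901))) 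
(.lf (nat_lit 5100650540) (dlOf (nat_lit 2) (nat_lit 0x2007c0004e04002000200040008110302)))) 
(.lf (nat_lit 4026908716) (dlOf (nat_lit 6) (nat_lit 0xae01e0001201004200f000088080210078000320400080000001602000c012000038180c0d00))))) 
(.nd (nat_lit 7) (.nd (nat_lit 10) 
(.lf (nat_lit 6174133036) (dlOf (nat_lit 1) (nat_lit 0x1a0018055c01))) 
(.lf (nat_lit 939640620) (dlOf (nat_lit 1) (nat_lit 0x800400220018143d82)))) (.nd (nat_lit 10) 
(.lf (nat_lit 4026646956) (dlOf (nat_lit 1) (nat_lit 0x6c0028017181))) 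
(.lf (nat_lit 805424556) (dlOf (nat_lit 1) (nat_lit 0xc00400020008116d02)))))) (.nd (nat_lit 18) 
(.nd (nat_lit 27) (.nd (nat_lit 6) 
(.lf (nat_lit 6241240620) (dlOf (nat_lit 1) (nat_lit 0x12e0028053781))) 
(.lf (nat_lit 1946272236) (dlOf (nat_lit 6) (nat_lit 0x1680a40005c0400a80520002d02002e0290001181002b0148000780806c80a40000004004800400120018017302)))) 
(.nd (nat_lit 19) 
(.lf (nat_lit 5301714988) (dlOf (nat_lit 2) (nat_lit 0x180c000018040008004001e0018040302))) 
(.lf (nat_lit 1009369132) (dlOf (nat_lit 6) (nat_lit 0x102b0000814c00180a0000a04d0000704000302b0001014c001c0a0000e04d0000684000302b0002014c00180a0000e04d0000604000402b0001814c00140a0000e04d0000584000102b000000080008008000400200020009130c03))))) 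
(.nd (nat_lit 6) (.nd (nat_lit 10) 
(.lf (nat_lit 6241501228) (dlOf (nat_lit 1) (nat_lit 0x20018100301))) 
(.lf (nat_lit 1009108012) (dlOf (nat_lit 3) (nat_lit 0x50718003838000200ea005b30600060e3002c9019082880)))) 
(.lf (nat_lit 1009107948) (dlOf (nat_lit 1) (nat_lit 0x21800800e000200840009082883))))))))) 
(.nd (nat_lit 18) (.nd (nat_lit 5) (.nd (nat_lit 30) (.nd (nat_lit 29) (.nd (nat_lit 19) 
(.nd (nat_lit 6) (.nd (nat_lit 24) (.nd (nat_lit 7) 
(.lf (nat_lit 41009692) (dlOf (nat_lit 1) (nat_lit 0xc00400020009208702))) 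
(.lf (nat_lit 4697735580) (dlOf (nat_lit 1) (nat_lit 0x400080044002001e0008091003)))) 
(.nd (nat_lit 23) (.lf (nat_lit 52543516) (dlOf (nat_lit 1) (nat_lit 0x800400060009550102))) 
(.lf (nat_lit 27377692) (dlOf (nat_lit 15) (nat_lit 0x653e802e8c0800829b0016d204001546600b4e02000ca33005a6810001535800328cc0169608000d4d6000aa33005a5020004545800329ac001546600b49060006a8b0005535802d1c10000aa2c00154d600b46040004a6b0006519802d0810001aa2c00154d600b40040008a6b0005519802cf410001aa2c00154d600b3c040008a8b0005535802ce4100080008008c00200040008cd0683))))) 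
(.nd (nat_lit 7) (.nd (nat_lit 10) 
(.lf (nat_lit 12697692) (dlOf (nat_lit 2) (nat_lit 0x626b0000b8186d1200))) 
(.lf (nat_lit 474072156) (dlOf (nat_lit 1) (nat_lit 0x1400200080009082902)))) 
(.lf (nat_lit 474072028) (dlOf (nat_lit 1) (nat_lit 0x20008005000200280009082883))))) 
(.nd (nat_lit 20) (.nd (nat_lit 8) (.nd (nat_lit 25) 
(.lf (nat_lit 2736156) (dlOf (nat_lit 4) (nat_lit 0x62978009147e0014204000aa3f000a081000c4c1000000080038008001c002002c00081a0a83))) 
(.lf (nat_lit 36290588) (dlOf (nat_lit 1) (nat_lit 0x400400020009060602)))) 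
(.lf (nat_lit 50970908) (dlOf (nat_lit 1) (nat_lit 0x4004000200094e8002)))) (.nd (nat_lit 6) 
(.nd (nat_lit 9) (.lf (nat_lit 16367644) (dlOf (nat_lit 1) (nat_lit 0x7400402880008890482))) 
(.lf (nat_lit 473547292) (dlOf (nat_lit 1) (nat_lit 0x7800400060008f68702)))) 
(.lf (nat_lit 49923420) (dlOf (nat_lit 1) (nat_lit 0xe00294c3401)))))) (.nd (nat_lit 7) 
(.nd (nat_lit 27) (.nd (nat_lit 9) (.nd (nat_lit 20) 
(.lf (nat_lit 805945372) (dlOf (nat_lit 1) (nat_lit 0x4004000200081f0a82))) 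
(.lf (nat_lit 2755248156) (dlOf (nat_lit 11) (nat_lit 0x281a4002c088001802b000d015000c80900070040002001f000800c80040060000622400200560003002003e0690015022000c80ac007805400660240041010000f807c0094032004001800017890007015800080a80005c08014005400120240000c82001a0120000480800381a40014088001402b000b015000c8090007c040000a01f000c00c8000444000900ac002c0540002020000800c80003c2000a80ac000404000040190000683000b015000180900001808004000400240018140b02)))) 
(.lf (nat_lit 2751584796) (dlOf (nat_lit 1) (nat_lit 0x40040002000800b282)))) (.nd (nat_lit 6) 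
(.nd (nat_lit 26) (.lf (nat_lit 2819211292) (dlOf (nat_lit 1) (nat_lit 0x1a00181f0681))) 
(.lf (nat_lit 3154755612) (dlOf (nat_lit 1) (nat_lit 0x40018320a01)))) 
(.lf (nat_lit 5301715036) (dlOf (nat_lit 1) (nat_lit 0x400400020018040702))))) (.nd (nat_lit 6) 
(.nd (nat_lit 10) 
(.lf (nat_lit 805428124) (dlOf (nat_lit 1) (nat_lit 0x780080094002005e000811bc83))) 
(.lf (nat_lit 2751580060) (dlOf (nat_lit 1) (nat_lit 0x160028004281)))) (.nd (nat_lit 8) 
(.nd (nat_lit 9) (.lf (nat_lit 805428444) (dlOf (nat_lit 1) (nat_lit 0x2002811c481))) 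
(.lf (nat_lit 2754727644) (dlOf (nat_lit 1) (nat_lit 0x400400f600080f7382)))) 
(.lf (nat_lit 2751579100) (dlOf (nat_lit 1) (nat_lit 0x8008000400200020008002883))))))) 
(.nd (nat_lit 7) (.nd (nat_lit 19) (.nd (nat_lit 6) (.nd (nat_lit 8) (.nd (nat_lit 27) 
(.lf (nat_lit 1677842972) (dlOf (nat_lit 1) (nat_lit 0x2002811b281))) 
(.lf (nat_lit 3959544348) (dlOf (nat_lit 1) (nat_lit 0x268008055400201be000811b283)))) 
(.nd (nat_lit 11) (.lf (nat_lit 6174130460) (dlOf (nat_lit 1) (nat_lit 0x400200060008050a82))) 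
(.lf (nat_lit 1342298396) (dlOf (nat_lit 1) (nat_lit 0xc0040002000800ab02))))) (.nd (nat_lit 8) 
(.lf (nat_lit 5435932764) (dlOf (nat_lit 1) (nat_lit 0x400400020018040702))) (.nd (nat_lit 28) 
(.lf (nat_lit 1073856860) (dlOf (nat_lit 1) (nat_lit 0x80018014e01))) 
(.lf (nat_lit 4026646876) (dlOf (nat_lit 2) (nat_lit 0xd8040000440200020018014e01)))))) 
(.nd (nat_lit 26) (.nd (nat_lit 20) (.nd (nat_lit 28) 
(.lf (nat_lit 3221864476) (dlOf (nat_lit 1) (nat_lit 0x74002006c00081a0a82))) 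
(.lf (nat_lit 1879687196) (dlOf (nat_lit 1) (nat_lit 0x4002000200082d0602)))) 
(.lf (nat_lit 3493445660) (dlOf (nat_lit 11) (nat_lit 0x281a4002c088001802b000d015000c80900070040002001f000800c80040060000622400200560003002003e0690015022000c80ac007805400660240041010000f807c0094032004001800017890007015800080a80005c08014005400120240000d02001a0120000480800381a40014088001402b000b015000c8090007c040000a01f000c00c8000444000900ac002c0540002020000800c8000382000a80ac000404000040190000683000b015000180900001808004000400240018140b02)))) 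
(.nd (nat_lit 21) (.nd (nat_lit 27) 
(.lf (nat_lit 1678360604) (dlOf (nat_lit 1) (nat_lit 0x4004000200081f0a82))) 
(.lf (nat_lit 3960061980) (dlOf (nat_lit 1) (nat_lit 0x74002006c00081a0a82)))) 
(.lf (nat_lit 4096376860) (dlOf (nat_lit 3) (nat_lit 0x3c0510001781004a000000000080010008001000200060008100103)))))) 
(.nd (nat_lit 6) (.nd (nat_lit 8) (.nd (nat_lit 10) (.nd (nat_lit 26) 
(.lf (nat_lit 2013380764) (dlOf (nat_lit 1) (nat_lit 0xd80080038002003a0008031283))) 
(.lf (nat_lit 1140965532) (dlOf (nat_lit 1) (nat_lit 0xd80080038002003a0008031283)))) 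
(.lf (nat_lit 1275184284) (dlOf (nat_lit 1) (nat_lit 0x400400020008092b82)))) (.nd (nat_lit 10) 
(.lf (nat_lit 3221347228) (dlOf (nat_lit 1) (nat_lit 0x40040002000811bc82))) 
(.lf (nat_lit 5905696668) (dlOf (nat_lit 1) (nat_lit 0x2740028144281))))) (.nd (nat_lit 9) 
(.nd (nat_lit 8) (.lf (nat_lit 5772001500) (dlOf (nat_lit 2) (nat_lit 0x1e0250001e018031c80))) 
(.lf (nat_lit 1610727900) (dlOf (nat_lit 1) (nat_lit 0x800200020008091282)))) (.nd (nat_lit 19) 
(.nd (nat_lit 26) (.lf (nat_lit 5905695708) (dlOf (nat_lit 1) (nat_lit 0x400400020008142882))) 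
(.lf (nat_lit 1677837276) (dlOf (nat_lit 1) (nat_lit 0x400400020008112882)))) 
(.lf (nat_lit 1611252700) (dlOf (nat_lit 1) (nat_lit 0x18008006c00200020008122883)))))))) 
(.nd (nat_lit 6) (.nd (nat_lit 30) (.nd (nat_lit 19) (.nd (nat_lit 11) (.nd (nat_lit 24) 
(.lf (nat_lit 12697660) (dlOf (nat_lit 1) (nat_lit 0x400286d0c81))) 
(.lf (nat_lit 29474876) (dlOf (nat_lit 1) (nat_lit 0xa0028e10981)))) (.nd (nat_lit 7) 
(.lf (nat_lit 2751584828) (dlOf (nat_lit 1) (nat_lit 0x40040002000800b482))) 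
(.lf (nat_lit 805428412) (dlOf (nat_lit 1) (nat_lit 0x6002811c201))))) (.nd (nat_lit 20) 
(.nd (nat_lit 23) (.nd (nat_lit 26) 
(.lf (nat_lit 134856764) (dlOf (nat_lit 1) (nat_lit 0x6c004004400080d0b82))) 
(.lf (nat_lit 201965628) (dlOf (nat_lit 1) (nat_lit 0x6c004004400080d0b82)))) 
(.lf (nat_lit 25804860) (dlOf (nat_lit 1) (nat_lit 0x80028c10001)))) (.nd (nat_lit 7) 
(.nd (nat_lit 8) (.lf (nat_lit 7980604) (dlOf (nat_lit 1) (nat_lit 0x20028513781))) 
(.lf (nat_lit 7984444) (dlOf (nat_lit 1) (nat_lit 0x8008001400200020008519903)))) 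
(.lf (nat_lit 2753151420) (dlOf (nat_lit 2) (nat_lit 0x12c1f80001b018090880)))))) (.nd (nat_lit 8) 
(.nd (nat_lit 7) (.nd (nat_lit 21) (.nd (nat_lit 27) 
(.lf (nat_lit 3221864508) (dlOf (nat_lit 2) (nat_lit 0x18024000aa040014002000600081a1402))) 
(.lf (nat_lit 3892953148) (dlOf (nat_lit 7) (nat_lit 0x603800130058000a0100080140002007e001803d00140190006008c005402a000190c0008047000701f80020048000300c002408e001800b0000782000c015800600040000e08002c0900000002007c00082a0c81)))) 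
(.lf (nat_lit 4096376892) (dlOf (nat_lit 1) (nat_lit 0xe4002001e0008100482)))) (.nd (nat_lit 10) 
(.lf (nat_lit 1881260220) (dlOf (nat_lit 1) (nat_lit 0x400200020008e80702))) 
(.lf (nat_lit 3221347516) (dlOf (nat_lit 1) (nat_lit 0x100040002000811c202))))) (.nd (nat_lit 10) 
(.nd (nat_lit 20) 
(.lf (nat_lit 5774098876) (dlOf (nat_lit 1) (nat_lit 0x80080008002000200080f7a83))) 
(.lf (nat_lit 3491348924) (dlOf (nat_lit 2) (nat_lit 0x12c1e60001b018090880)))) (.nd (nat_lit 7) 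
(.lf (nat_lit 1409404220) (dlOf (nat_lit 1) (nat_lit 0x20028006901))) (.nd (nat_lit 9) 
(.lf (nat_lit 1812057532) (dlOf (nat_lit 1) (nat_lit 0x400400020018146d02))) 
(.lf (nat_lit 5972805564) (dlOf (nat_lit 1) (nat_lit 0x1c0018144381)))))))) (.nd (nat_lit 10) 
(.nd (nat_lit 30) (.nd (nat_lit 21) (.nd (nat_lit 9) (.nd (nat_lit 31) 
(.lf (nat_lit 4563517564) (dlOf (nat_lit 1) (nat_lit 0x40008002c002002a0008090283))) 
(.lf (nat_lit 6711001212) (dlOf (nat_lit 1) (nat_lit 0x400200020008030c82)))) 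
(.lf (nat_lit 2617361020) (dlOf (nat_lit 1) (nat_lit 0xce00180a1901)))) (.nd (nat_lit 7) 
(.lf (nat_lit 2211964) (dlOf (nat_lit 1) (nat_lit 0x40028150081))) 
(.lf (nat_lit 473547004) (dlOf (nat_lit 2) (nat_lit 0x214f0005e818f62900))))) (.nd (nat_lit 7) 
(.nd (nat_lit 9) (.nd (nat_lit 19) 
(.lf (nat_lit 5368823932) (dlOf (nat_lit 1) (nat_lit 0xc0018030c81))) 
(.lf (nat_lit 6375981180) (dlOf (nat_lit 1) (nat_lit 0x220018030c01)))) 
(.lf (nat_lit 3355558524) (dlOf (nat_lit 1) (nat_lit 0x280080030002001200080a1903)))) 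
(.nd (nat_lit 26) 
(.lf (nat_lit 1073857020) (dlOf (nat_lit 3) (nat_lit 0x270148003bc0809500a40000004006c004000a0018017e02))) 
(.lf (nat_lit 1946272252) (dlOf (nat_lit 3) (nat_lit 0x20290051a0100010148028a8080068008000c00200020008017803)))))) 
(.nd (nat_lit 7) (.nd (nat_lit 8) (.nd (nat_lit 9) 
(.lf (nat_lit 6509677692) (dlOf (nat_lit 1) (nat_lit 0x1e0018146081))) (.nd (nat_lit 19) 
(.lf (nat_lit 1345439356) (dlOf (nat_lit 7) (nat_lit 0x9e161002704e8000981000c82740004804005813a0002002002c09d0000c01000804e80005c0800b02740002a04002c00400100008bb3982))) 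
(.lf (nat_lit 9029244) (dlOf (nat_lit 2) (nat_lit 0x664c200007018513980))))) (.nd (nat_lit 19) 
(.lf (nat_lit 6576786812) (dlOf (nat_lit 1) (nat_lit 0x20028146c01))) 
(.lf (nat_lit 20565372) (dlOf (nat_lit 1) (nat_lit 0x80080004002000200089d6c03))))) 
(.nd (nat_lit 8) (.nd (nat_lit 9) 
(.lf (nat_lit 20569340) (dlOf (nat_lit 1) (nat_lit 0x400289dc601))) 
(.lf (nat_lit 536987388) (dlOf (nat_lit 1) (nat_lit 0x28008002000200020008003b83)))) 
(.nd (nat_lit 19) (.nd (nat_lit 27) 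
(.lf (nat_lit 116732) (dlOf (nat_lit 1) (nat_lit 0x20028004701))) 
(.lf (nat_lit 939640828) (dlOf (nat_lit 1) (nat_lit 0x1400400020008144702)))) 
(.lf (nat_lit 7981052) (dlOf (nat_lit 1) (nat_lit 0x128008007000200060008514703))))))))) 
(.nd (nat_lit 5) (.nd (nat_lit 6) (.nd (nat_lit 26) (.nd (nat_lit 20) (.nd (nat_lit 30) 
(.nd (nat_lit 32) (.nd (nat_lit 21) (.nd (nat_lit 27) 
(.lf (nat_lit 805683228) (dlOf (nat_lit 2) (nat_lit 0x2805600091018180580))) 
(.lf (nat_lit 134594588) (dlOf (nat_lit 3) (nat_lit 0x180c402d1804000806c001401300000028080500)))) 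
(.lf (nat_lit 48611356) (dlOf (nat_lit 2) (nat_lit 0x2f04c00176f8000d73c0005b008001c4980015a100006c1200055d38002ae3c001d652000a220000607c00010460004800800c8002000a0009420103)))) 
(.nd (nat_lit 27) (.nd (nat_lit 28) 
(.lf (nat_lit 6442827804) (dlOf (nat_lit 1) (nat_lit 0x200181d0a01))) 
(.lf (nat_lit 4563779612) (dlOf (nat_lit 1) (nat_lit 0x400180e0501)))) 
(.lf (nat_lit 4429561884) (dlOf (nat_lit 1) (nat_lit 0x4004000200081a0002))))) (.nd (nat_lit 28) 
(.nd (nat_lit 27) (.nd (nat_lit 31) 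
(.lf (nat_lit 1610989596) (dlOf (nat_lit 27) (nat_lit 0x3e40a0016004500b002200cd80c803d804001f601c000b00d8059805c02d002c0003112003a0500072022005f80c80044040002a01c000c00b80378058000601c06040a00272045013a022011200c805a004002dc01c009100d8096005c04b402c005e006000178a010b028001d01140280088035a03200f3010007c0070027c02e017601600017080049010001700580005a0800700a000460200001202001702800060080000460800780a0004a02000011020016028000c00800003e0801880a000020200000f02002702800150080000380800cc0a000700200000d82001902800080080000300802c80a00132044000a019000b808002c002c000170a01de0500003022003600800002a0c01240a0003c0200000a02009202800368080000260800400a00006020000090200d902800498080000220800b40a0004602000008020067028002380800001e0800040a00000e0201580500000681002b02800180080000180802c00a0019c0200000582002e0280024008000014080068004004200080b0102))) 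
(.lf (nat_lit 3758473244) (dlOf (nat_lit 1) (nat_lit 0x580080048002000400081f0683)))) 
(.lf (nat_lit 3355820060) (dlOf (nat_lit 3) (nat_lit 0x4e201581d700a8019004a02cc0130003f0400010158000a80817b80080cc800201080008120483)))) 
(.nd (nat_lit 22) 
(.lf (nat_lit 1342554140) (dlOf (nat_lit 4) (nat_lit 0x61c7000188100010e38000bc08000871c0005c040014002002e0008050b02))) 
(.lf (nat_lit 1346748444) (dlOf (nat_lit 6) (nat_lit 0x3c0960018042801801d4000940c04a012c0252085012403a808f81cc000403e000410a003608d0001e81000104b0000e808012825800070040070004001c0009000102)))))) 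
(.nd (nat_lit 7) (.nd (nat_lit 24) (.nd (nat_lit 21) 
(.lf (nat_lit 5619740) (dlOf (nat_lit 1) (nat_lit 0x4004000200083b0482))) (.nd (nat_lit 23) 
(.lf (nat_lit 3522588) (dlOf (nat_lit 9) (nat_lit 0x272748076b40801f1a0800f0cd6007e4e9003a26c007680200189a080098cd600644e9002c26c0076782000419ac00309d200104d800ebd0300082748075200802b9a080128cd600b04e9005326c00750c200061a080020cd6001a4e9000926c0074fc2000913a40000004005c00400520018200002))) 
(.lf (nat_lit 11911196) (dlOf (nat_lit 2) (nat_lit 0x35aa2801c34980038a8286c0000))))) 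
(.nd (nat_lit 8) 
(.lf (nat_lit 22921244) (dlOf (nat_lit 3) (nat_lit 0xb7bc400125010027de2000274080208008000c00200320008b40483))) 
(.nd (nat_lit 11) (.lf (nat_lit 20300060) (dlOf (nat_lit 1) (nat_lit 0x4002000200089d0a82))) 
(.lf (nat_lit 20306204) (dlOf (nat_lit 1) (nat_lit 0xc004000a00089dab02)))))) (.nd (nat_lit 8) 
(.nd (nat_lit 9) 
(.lf (nat_lit 11911324) (dlOf (nat_lit 4) (nat_lit 0xed47804e2a28027d49800023030127a8a009d52600008a08000aa3c02695140134a4c0000e01800180080090002000c00086c0183))) 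
(.lf (nat_lit 8245916) (dlOf (nat_lit 1) (nat_lit 0x8008000400200020008518c83)))) 
(.lf (nat_lit 45992860) (dlOf (nat_lit 1) (nat_lit 0x400400020009385c82)))))) (.nd (nat_lit 27) 
(.nd (nat_lit 31) (.nd (nat_lit 29) (.nd (nat_lit 32) 
(.lf (nat_lit 67485724) (dlOf (nat_lit 1) (nat_lit 0x20018180481))) 
(.lf (nat_lit 4362453020) (dlOf (nat_lit 6) (nat_lit 0x129011c02a2604049808e0150e020224047008e0198052b810126011c01b40660149704032404700470198051f81001480080008002005e0008080503)))) 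
(.lf (nat_lit 1678098460) (dlOf (nat_lit 2) (nat_lit 0x2805600092818180580)))) (.nd (nat_lit 7) 
(.lf (nat_lit 2756034588) (dlOf (nat_lit 1) (nat_lit 0x68008003c002000800081d0a03))) 
(.nd (nat_lit 8) 
(.lf (nat_lit 2753413276) (dlOf (nat_lit 2) (nat_lit 0x240540013022400a4110003c00a00017848090180))) 
(.lf (nat_lit 2754464156) (dlOf (nat_lit 1) (nat_lit 0x200180f4e81)))))) (.nd (nat_lit 28) 
(.nd (nat_lit 29) 
(.lf (nat_lit 201703452) (dlOf (nat_lit 3) (nat_lit 0x180c402a3a04000806c001401300000028080500))) 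
(.lf (nat_lit 738574364) (dlOf (nat_lit 27) (nat_lit 0x3e40a0016004500b002200cd80c803d804001f601c000b00d8059805c02d002c0003112003a0500072022005f80c80044040002a01c000c00b80378058000601c06040a00272045013a022011200c805a004002dc01c009100d8096005c04b402c005e006000178a010b028001d01140280088035a03200f3010007c0070027c02e017601600017080049010001700580005a0800780a0004a0200001202001c028001180800004408005c0a0001802000010820016028000c0080000400801880a000020200000f020027028001500800003a0800cc0a000700200000d82001902800080080000300802c80a00132044000a019000b808002c002c000170a01de0500003022003600800002c0c01240a0003c0200000a02009202800368080000260800400a00006020000090200d902800498080000220800b40a000460200000802000102800003c080338140011c0400000e0401580500000681002b02800180080000180802c00a0019c0200000582002e0280024008000014080068004004200080b0102)))) 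
(.nd (nat_lit 29) (.nd (nat_lit 31) 
(.lf (nat_lit 470138908) (dlOf (nat_lit 4) (nat_lit 0x61c7000188100010e38000bc08000871c0005c040014002002e0008050b02))) 
(.lf (nat_lit 2617622556) (dlOf (nat_lit 4) (nat_lit 0x270168008180800c80c401e0056001a804001402b00000018100480)))) 
(.lf (nat_lit 4228235292) (dlOf (nat_lit 6) (nat_lit 0x129010002d040404980800167d020224040008e01900588410126010001b4064015fb04032404000470190057b41001480080008002005e0008080503))))))) 
(.nd (nat_lit 7) (.nd (nat_lit 8) (.nd (nat_lit 21) (.nd (nat_lit 9) (.nd (nat_lit 20) 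
(.lf (nat_lit 1346748508) (dlOf (nat_lit 1) (nat_lit 0x80009000881))) 
(.lf (nat_lit 55951452) (dlOf (nat_lit 2) (nat_lit 0x1560900042ca40004408002c004002e00096f0882)))) 
(.lf (nat_lit 51235420) (dlOf (nat_lit 1) (nat_lit 0xa8008003800200420009515303)))) 
(.nd (nat_lit 20) (.nd (nat_lit 29) 
(.lf (nat_lit 3492135004) (dlOf (nat_lit 3) (nat_lit 0x3408a0001681000c0450000800800a00080060002003400080a1203))) 
(.lf (nat_lit 1881522268) (dlOf (nat_lit 4) (nat_lit 0x194071800074080ef038c000380402d81c6000040200020018f40881)))) 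
(.lf (nat_lit 32882780) (dlOf (nat_lit 1) (nat_lit 0x20008f30881))))) (.nd (nat_lit 32) 
(.nd (nat_lit 19) (.lf (nat_lit 3522908) (dlOf (nat_lit 2) (nat_lit 0x78d0c0000a02000e0028200681))) 
(.lf (nat_lit 1343078748) (dlOf (nat_lit 1) (nat_lit 0x80008150901)))) (.nd (nat_lit 27) 
(.lf (nat_lit 4295344476) (dlOf (nat_lit 1) (nat_lit 0x4002000200081a0682))) 
(.lf (nat_lit 4429562204) (dlOf (nat_lit 1) (nat_lit 0x4002000200081a0682)))))) (.nd (nat_lit 19) 
(.nd (nat_lit 8) (.nd (nat_lit 20) 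
(.lf (nat_lit 2818949340) (dlOf (nat_lit 1) (nat_lit 0x20018130581))) 
(.lf (nat_lit 11911388) (dlOf (nat_lit 1) (nat_lit 0x1e00186c0481)))) 
(.lf (nat_lit 2751841244) (dlOf (nat_lit 1) (nat_lit 0xc00200020008002882)))) (.nd (nat_lit 9) 
(.nd (nat_lit 20) 
(.lf (nat_lit 470663388) (dlOf (nat_lit 1) (nat_lit 0x8008000400200060008150583))) 
(.lf (nat_lit 45990108) (dlOf (nat_lit 1) (nat_lit 0x280029380a01)))) 
(.lf (nat_lit 1344132828) (dlOf (nat_lit 1) (nat_lit 0x200080160002000800083da003))))))) 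
(.nd (nat_lit 28) (.nd (nat_lit 7) (.nd (nat_lit 26) (.nd (nat_lit 20) (.nd (nat_lit 6) 
(.lf (nat_lit 1610989628) (dlOf (nat_lit 1) (nat_lit 0x800280b0481))) 
(.lf (nat_lit 54902908) (dlOf (nat_lit 1) (nat_lit 0xa0019662001)))) (.nd (nat_lit 8) 
(.lf (nat_lit 37077052) (dlOf (nat_lit 1) (nat_lit 0x4000200d20009090602))) 
(.lf (nat_lit 3522876) (dlOf (nat_lit 2) (nat_lit 0x78cd6000260200060028200581))))) 
(.nd (nat_lit 31) (.nd (nat_lit 27) 
(.lf (nat_lit 4899323964) (dlOf (nat_lit 1) (nat_lit 0x40018111681))) 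
(.lf (nat_lit 738574396) (dlOf (nat_lit 1) (nat_lit 0x800280b0481)))) (.nd (nat_lit 22) 
(.lf (nat_lit 3288711228) (dlOf (nat_lit 2) (nat_lit 0xe000000000180c1400))) 
(.lf (nat_lit 2756034620) (dlOf (nat_lit 6) (nat_lit 0x60290004014400280700012f06000c05400030298006814400280a0002404e0011026800900f4002461c002c0a8001a053001002880058140004c09c001c04d000e01e80048838005815000380a600180500006026800700f4002421400200a80012053000f02880058140000809c000c04d000b01e8004803800100080094002000c00081d0c03)))))) 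
(.nd (nat_lit 8) (.nd (nat_lit 20) (.nd (nat_lit 6) 
(.lf (nat_lit 2818949308) (dlOf (nat_lit 2) (nat_lit 0x120000000e818130380))) 
(.lf (nat_lit 2886059772) (dlOf (nat_lit 2) (nat_lit 0xb00700005804019400400080008143b82)))) 
(.nd (nat_lit 23) 
(.lf (nat_lit 3522748) (dlOf (nat_lit 3) (nat_lit 0x1793a400040040178d04000a66b00222748000441801880080010002003a0008200383))) 
(.lf (nat_lit 11911356) (dlOf (nat_lit 3) (nat_lit 0x31a8a001e52600005e08003a9300002e02001200286c0381))))) 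
(.nd (nat_lit 6) (.nd (nat_lit 22) 
(.lf (nat_lit 52806076) (dlOf (nat_lit 1) (nat_lit 0x400400020009571082))) 
(.lf (nat_lit 23445948) (dlOf (nat_lit 2) (nat_lit 0x19ac280007e04005000200200008b80882)))) 
(.nd (nat_lit 10) (.lf (nat_lit 40223740) (dlOf (nat_lit 1) (nat_lit 0x200191f2881))) 
(.lf (nat_lit 8243196) (dlOf (nat_lit 1) (nat_lit 0x40028514701))))))) (.nd (nat_lit 7) 
(.nd (nat_lit 29) (.nd (nat_lit 8) (.nd (nat_lit 21) (.nd (nat_lit 31) 
(.lf (nat_lit 1346748476) (dlOf (nat_lit 1) (nat_lit 0x1800200080009000602))) 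
(.lf (nat_lit 3494232124) (dlOf (nat_lit 6) (nat_lit 0x60290004014400280700013c06000c05400030298006814400280a0002404e0011026800900f4002641c002c0a8001a053001002880058140004c09c001c04d000e01e8004c438005815000380a600180500006026800700f4002601400200a80012053000f02880058140000809c000c04d000b01e8004bc3800100080094002000c00081d0c03)))) 
(.lf (nat_lit 3492134972) (dlOf (nat_lit 1) (nat_lit 0x1200180a0c81)))) (.nd (nat_lit 6) 
(.lf (nat_lit 1344132924) (dlOf (nat_lit 1) (nat_lit 0x80080028002000400083da103))) 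
(.lf (nat_lit 3490041212) (dlOf (nat_lit 1) (nat_lit 0x60028006c01))))) (.nd (nat_lit 26) 
(.nd (nat_lit 21) 
(.lf (nat_lit 5234868284) (dlOf (nat_lit 3) (nat_lit 0x2006000180140054004000a01800060050014fc100098008001c002000c0008111683))) 
(.lf (nat_lit 1881522236) (dlOf (nat_lit 2) (nat_lit 0x9a0e3000a7018f40600)))) (.nd (nat_lit 6) 
(.lf (nat_lit 6376767804) (dlOf (nat_lit 1) (nat_lit 0x20028090b81))) 
(.lf (nat_lit 6375720572) (dlOf (nat_lit 1) (nat_lit 0x400200020008003982)))))) (.nd (nat_lit 19) 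
(.nd (nat_lit 8) (.nd (nat_lit 10) 
(.lf (nat_lit 2080751804) (dlOf (nat_lit 1) (nat_lit 0x200180c1701))) 
(.lf (nat_lit 1009108156) (dlOf (nat_lit 9) (nat_lit 0x1203a80011008005838800500ea000430400460e3001e071000a81d40007c0c005c0ea0003c02003a0e2001803a800c01cc0006e0c00040ea000360200460e2002603a8000d410016838800800ea0000004000e0009082c81)))) 
(.lf (nat_lit 3490041276) (dlOf (nat_lit 1) (nat_lit 0x40028006d01)))) (.nd (nat_lit 6) 
(.nd (nat_lit 21) (.lf (nat_lit 5773312188) (dlOf (nat_lit 1) (nat_lit 0x4002000200080c1702))) 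
(.lf (nat_lit 3493707964) (dlOf (nat_lit 1) (nat_lit 0x200281b0381)))) 
(.lf (nat_lit 3492660220) (dlOf (nat_lit 1) (nat_lit 0x4002000200080f2882)))))))))))

end

end Pool.Agent.Lib.MP_5854e1_co.Cz

namespace Pool.Agent.Lib.MP_5854e1_co.Cz

noncomputable section

noncomputable def tz86 : DT := (.nd (nat_lit 4) (.nd (nat_lit 3) (.nd (nat_lit 5) (.nd (nat_lit 6) 
(.nd (nat_lit 19) (.nd (nat_lit 28) (.nd (nat_lit 26) (.nd (nat_lit 23) (.nd (nat_lit 27) 
(.nd (nat_lit 7) (.nd (nat_lit 9) 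
(.lf (nat_lit 1610989569) (dlOf (nat_lit 2) (nat_lit 0x18148012c0040004004000400180b0002))) 
(.lf (nat_lit 1073857025) (dlOf (nat_lit 1) (nat_lit 0x2c004000c0018017f02)))) 
(.lf (nat_lit 20306049) (dlOf (nat_lit 4) (nat_lit 0x519d800a37020004e15002610100076768011080800c8008000c002000600089da883)))) 
(.nd (nat_lit 30) (.lf (nat_lit 134594561) (dlOf (nat_lit 1) (nat_lit 0x20028080001))) 
(.lf (nat_lit 3355820033) (dlOf (nat_lit 2) (nat_lit 0x1600ac0369c04001000400020008120002))))) 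
(.nd (nat_lit 7) (.nd (nat_lit 18) 
(.lf (nat_lit 47300609) (dlOf (nat_lit 1) (nat_lit 0x28004002800093d0002))) 
(.lf (nat_lit 12959745) (dlOf (nat_lit 3) (nat_lit 0xea4a01c6302000752500deb0186f0000)))) 
(.nd (nat_lit 8) (.nd (nat_lit 21) 
(.lf (nat_lit 47562881) (dlOf (nat_lit 1) (nat_lit 0x8008007c00200020009400303))) 
(.lf (nat_lit 11911297) (dlOf (nat_lit 2) (nat_lit 0x395140014a4c0000ec1000080080074002002400086c0103)))) 
(.lf (nat_lit 8508289) (dlOf (nat_lit 1) (nat_lit 0x20028519001)))))) (.nd (nat_lit 27) 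
(.nd (nat_lit 30) (.nd (nat_lit 7) 
(.lf (nat_lit 4362452993) (dlOf (nat_lit 1) (nat_lit 0x2c00400160008080002))) 
(.lf (nat_lit 6509678209) (dlOf (nat_lit 1) (nat_lit 0x400400020008147182)))) (.nd (nat_lit 29) 
(.lf (nat_lit 3288711169) (dlOf (nat_lit 2) (nat_lit 0x80000009e8180c0000))) 
(.lf (nat_lit 1678098433) (dlOf (nat_lit 1) (nat_lit 0x400200200008180002))))) (.nd (nat_lit 7) 
(.nd (nat_lit 29) (.lf (nat_lit 201703425) (dlOf (nat_lit 1) (nat_lit 0x20028080001))) 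
(.lf (nat_lit 738574337) (dlOf (nat_lit 2) (nat_lit 0x181480079e040004004000400180b0002)))) 
(.lf (nat_lit 6107021441) (dlOf (nat_lit 1) (nat_lit 0x800400020008030d82)))))) (.nd (nat_lit 29) 
(.nd (nat_lit 11) (.nd (nat_lit 7) 
(.lf (nat_lit 2617622529) (dlOf (nat_lit 3) (nat_lit 0x5e03400bf10100060158000000800c0008000400200680008100003))) 
(.nd (nat_lit 26) (.lf (nat_lit 6711001217) (dlOf (nat_lit 1) (nat_lit 0x800400020008030d82))) 
(.lf (nat_lit 3691102337) (dlOf (nat_lit 1) (nat_lit 0xc0008010281))))) (.nd (nat_lit 8) 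
(.lf (nat_lit 1342298241) (dlOf (nat_lit 3) (nat_lit 0x1c29c00a4c02001208e0052481800a880))) 
(.lf (nat_lit 4563520385) (dlOf (nat_lit 1) (nat_lit 0x20028095c01))))) (.nd (nat_lit 30) 
(.nd (nat_lit 27) (.nd (nat_lit 32) 
(.lf (nat_lit 805683201) (dlOf (nat_lit 1) (nat_lit 0x400200200008180002))) 
(.lf (nat_lit 5100650497) (dlOf (nat_lit 1) (nat_lit 0x800400020018110002)))) 
(.lf (nat_lit 5234868225) (dlOf (nat_lit 1) (nat_lit 0x20028110001)))) (.nd (nat_lit 21) 
(.nd (nat_lit 26) (.lf (nat_lit 4026908673) (dlOf (nat_lit 2) (nat_lit 0x8000000e70180c0000))) 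
(.lf (nat_lit 4228235265) (dlOf (nat_lit 1) (nat_lit 0x2c00400160008080002)))) 
(.lf (nat_lit 1881522177) (dlOf (nat_lit 1) (nat_lit 0x400400020008f40002))))))) (.nd (nat_lit 21) 
(.nd (nat_lit 28) (.nd (nat_lit 18) (.nd (nat_lit 22) 
(.lf (nat_lit 4362715137) (dlOf (nat_lit 4) (nat_lit 0x40b400020510005022800080b4019641000180b4000c0510009019803288180030168001c0a2001203300010168032842000a8008006c002000a00080e0003))) 
(.lf (nat_lit 21610497) (dlOf (nat_lit 4) (nat_lit 0x35ad2011496000ce202000debd005ce80804575e802e5e04002000200280008a50002)))) 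
(.nd (nat_lit 23) (.nd (nat_lit 22) 
(.lf (nat_lit 2819473409) (dlOf (nat_lit 1) (nat_lit 0x3000800e4002000c00082a0003))) 
(.lf (nat_lit 5095425) (dlOf (nat_lit 1) (nat_lit 0x1e0018300001)))) (.nd (nat_lit 20) 
(.lf (nat_lit 42844161) (dlOf (nat_lit 1) (nat_lit 0x40029280001))) 
(.lf (nat_lit 10338305) (dlOf (nat_lit 1) (nat_lit 0x200085d0001)))))) (.nd (nat_lit 18) 
(.nd (nat_lit 7) 
(.lf (nat_lit 4228497409) (dlOf (nat_lit 4) (nat_lit 0x40a6000204a000501f000080b000e0a1000180a6000c04a0009019001bec18003014c001c09400120320001016001be02000a8008006c002000a00080e0003))) 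
(.nd (nat_lit 26) 
(.lf (nat_lit 5772001409) (dlOf (nat_lit 1) (nat_lit 0x38008000800200020008030d83))) 
(.lf (nat_lit 6375981185) (dlOf (nat_lit 1) (nat_lit 0x38008000800200020008030d83))))) 
(.nd (nat_lit 7) 
(.lf (nat_lit 3557670913) (dlOf (nat_lit 1) (nat_lit 0x3000800e4002000c00082a0003))) 
(.nd (nat_lit 26) (.lf (nat_lit 1879949441) (dlOf (nat_lit 1) (nat_lit 0x400200020008490102))) 
(.lf (nat_lit 1007534209) (dlOf (nat_lit 1) (nat_lit 0x400200020008490102))))))) (.nd (nat_lit 7) 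
(.nd (nat_lit 20) (.nd (nat_lit 18) (.nd (nat_lit 29) 
(.lf (nat_lit 472498177) (dlOf (nat_lit 1) (nat_lit 0x4400200020008990002))) 
(.lf (nat_lit 1009369089) (dlOf (nat_lit 7) (nat_lit 0x4053000702800040134038c60c00080ac0004053000902800048134038c41000140ac000e053000a02800050134038c01000140ac0012053000a02800058134038bc10000c0ac000805300deb02000902b006f54080008008000400200020009130003)))) 
(.nd (nat_lit 10) (.lf (nat_lit 2998273) (dlOf (nat_lit 1) (nat_lit 0x4004000200081f0002))) 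
(.lf (nat_lit 3492660225) (dlOf (nat_lit 1) (nat_lit 0x200180f2881))))) (.nd (nat_lit 22) 
(.nd (nat_lit 26) (.lf (nat_lit 3493445633) (dlOf (nat_lit 1) (nat_lit 0x20018140001))) 
(.lf (nat_lit 2755248129) (dlOf (nat_lit 1) (nat_lit 0x20018140001)))) 
(.lf (nat_lit 24756225) (dlOf (nat_lit 7) (nat_lit 0x117a8000abbd00c8b0200035ea00645408000af50032260400097a80191102000ebd400065de8061c0100032f50030da0401a000400040008bb0002))))) 
(.nd (nat_lit 9) (.nd (nat_lit 22) 
(.lf (nat_lit 6378078337) (dlOf (nat_lit 1) (nat_lit 0x1a0018103a01))) 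
(.lf (nat_lit 23707777) (dlOf (nat_lit 1) (nat_lit 0x800200020008b80102)))) (.nd (nat_lit 8) 
(.nd (nat_lit 12) (.lf (nat_lit 7980673) (dlOf (nat_lit 1) (nat_lit 0x700080038002000e0008513983))) 
(.lf (nat_lit 20567681) (dlOf (nat_lit 2) (nat_lit 0x1568c400674120028835001e3aa80010000000f6140044002000e00089d9d82)))) 
(.lf (nat_lit 19780481) (dlOf (nat_lit 1) (nat_lit 0x800089d9001)))))))) (.nd (nat_lit 28) 
(.nd (nat_lit 8) (.nd (nat_lit 18) (.nd (nat_lit 26) (.nd (nat_lit 19) (.nd (nat_lit 7) 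
(.lf (nat_lit 12697665) (dlOf (nat_lit 1) (nat_lit 0x1600086d0d01))) 
(.lf (nat_lit 5905696961) (dlOf (nat_lit 1) (nat_lit 0x20028144981)))) (.nd (nat_lit 9) 
(.nd (nat_lit 27) 
(.lf (nat_lit 3221864513) (dlOf (nat_lit 3) (nat_lit 0x40820014802011c04600bc021804a01080318080019a038004d004800000300090008009c00200b000081a1403))) 
(.lf (nat_lit 134856769) (dlOf (nat_lit 2) (nat_lit 0xc0110003a8180d0b80)))) 
(.lf (nat_lit 20562497) (dlOf (nat_lit 1) (nat_lit 0x1e00189d1581))))) (.nd (nat_lit 27) 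
(.nd (nat_lit 7) (.nd (nat_lit 20) 
(.lf (nat_lit 5435932737) (dlOf (nat_lit 1) (nat_lit 0xde0008040481))) 
(.lf (nat_lit 2752626753) (dlOf (nat_lit 1) (nat_lit 0x8008000800200020008020783)))) 
(.lf (nat_lit 1677838529) (dlOf (nat_lit 1) (nat_lit 0x400400020008114982)))) (.nd (nat_lit 19) 
(.lf (nat_lit 2348924993) (dlOf (nat_lit 2) (nat_lit 0x3e028000200c0000ec1000980080060002001a0008030e03))) 
(.lf (nat_lit 201965633) (dlOf (nat_lit 2) (nat_lit 0xc0110003a8180d0b80)))))) (.nd (nat_lit 22) 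
(.nd (nat_lit 19) (.nd (nat_lit 21) 
(.lf (nat_lit 1425473) (dlOf (nat_lit 4) (nat_lit 0xc1b200680000000c0200030b00003038c00900e200420650000b0400230b00013038c00000080080004000800180c0e02))) 
(.lf (nat_lit 37077057) (dlOf (nat_lit 1) (nat_lit 0x20009090601)))) 
(.lf (nat_lit 4046913) (dlOf (nat_lit 2) (nat_lit 0x383640012c04000400400040018270b82)))) 
(.nd (nat_lit 7) (.nd (nat_lit 20) 
(.lf (nat_lit 2756034625) (dlOf (nat_lit 1) (nat_lit 0x14002001200081d0c82))) 
(.lf (nat_lit 55951425) (dlOf (nat_lit 2) (nat_lit 0x518260015102002200196f0601)))) 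
(.lf (nat_lit 4571329) (dlOf (nat_lit 1) (nat_lit 0x60018290401)))))) (.nd (nat_lit 21) 
(.nd (nat_lit 7) (.nd (nat_lit 18) (.nd (nat_lit 22) 
(.lf (nat_lit 3288449345) (dlOf (nat_lit 1) (nat_lit 0x20028014c01))) 
(.lf (nat_lit 2755772737) (dlOf (nat_lit 1) (nat_lit 0x40008001c002000800081b0603)))) 
(.lf (nat_lit 21348673) (dlOf (nat_lit 1) (nat_lit 0x1400200020008a34c02)))) (.nd (nat_lit 9) 
(.nd (nat_lit 10) (.lf (nat_lit 1812056513) (dlOf (nat_lit 1) (nat_lit 0x20028144e81))) 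
(.lf (nat_lit 1812057537) (dlOf (nat_lit 2) (nat_lit 0x404a000802000070828146d00)))) 
(.lf (nat_lit 1677842369) (dlOf (nat_lit 1) (nat_lit 0x2002811a601))))) (.nd (nat_lit 9) 
(.nd (nat_lit 7) (.lf (nat_lit 3522881) (dlOf (nat_lit 1) (nat_lit 0x3c00200020008200602))) 
(.nd (nat_lit 10) 
(.lf (nat_lit 39963073) (dlOf (nat_lit 1) (nat_lit 0x20008003c002000a00091f4e83))) 
(.lf (nat_lit 7984577) (dlOf (nat_lit 1) (nat_lit 0x20028519a01))))) (.nd (nat_lit 10) 
(.lf (nat_lit 20302785) (dlOf (nat_lit 1) (nat_lit 0x4002000200089d5d82))) 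
(.lf (nat_lit 7980993) (dlOf (nat_lit 1) (nat_lit 0x20028514401))))))) (.nd (nat_lit 30) 
(.nd (nat_lit 27) (.nd (nat_lit 7) (.nd (nat_lit 18) (.nd (nat_lit 26) 
(.lf (nat_lit 2416033857) (dlOf (nat_lit 1) (nat_lit 0x8008000400200020008020783))) 
(.lf (nat_lit 2483142721) (dlOf (nat_lit 2) (nat_lit 0x3e028000200c0000ec1000980080060002001a0008030e03)))) 
(.lf (nat_lit 2416296001) (dlOf (nat_lit 1) (nat_lit 0x200180d0b81)))) 
(.lf (nat_lit 805428417) (dlOf (nat_lit 1) (nat_lit 0x800800040020002000811c203)))) 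
(.nd (nat_lit 29) (.nd (nat_lit 18) 
(.lf (nat_lit 2550251585) (dlOf (nat_lit 1) (nat_lit 0x8008000400200020008020783))) 
(.lf (nat_lit 2550513729) (dlOf (nat_lit 1) (nat_lit 0x200180d0b81)))) (.nd (nat_lit 7) 
(.lf (nat_lit 5301715009) (dlOf (nat_lit 2) (nat_lit 0x1803f0003f018040480))) 
(.lf (nat_lit 5234609089) (dlOf (nat_lit 1) (nat_lit 0x140018055d81)))))) (.nd (nat_lit 31) 
(.nd (nat_lit 8) (.nd (nat_lit 18) 
(.lf (nat_lit 1342816321) (dlOf (nat_lit 1) (nat_lit 0x4004000200080d0d82))) (.nd (nat_lit 21) 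
(.lf (nat_lit 1346748481) (dlOf (nat_lit 5) (nat_lit 0x7f812c040a084020903a010281cc0047810016812c00ac0730011982005804b002b01cc004620800b812c0002084002f0398008bc1800f00080024002000a0009000603))) 
(.lf (nat_lit 1881522241) (dlOf (nat_lit 2) (nat_lit 0x1f6071800544080020008001c002001a0008f40603))))) 
(.nd (nat_lit 7) (.lf (nat_lit 1342297921) (dlOf (nat_lit 1) (nat_lit 0x2001800a101))) 
(.lf (nat_lit 5637262273) (dlOf (nat_lit 1) (nat_lit 0x12e0028055d81))))) (.nd (nat_lit 18) 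
(.nd (nat_lit 8) (.nd (nat_lit 19) 
(.lf (nat_lit 3490824257) (dlOf (nat_lit 1) (nat_lit 0x8008000800200020008020783))) 
(.lf (nat_lit 3492397121) (dlOf (nat_lit 1) (nat_lit 0x5400080c1401)))) 
(.lf (nat_lit 4026646849) (dlOf (nat_lit 1) (nat_lit 0x20028014c01)))) (.nd (nat_lit 21) 
(.lf (nat_lit 3494232129) (dlOf (nat_lit 1) (nat_lit 0x14002001200081d0c82))) 
(.lf (nat_lit 3492134977) (dlOf (nat_lit 2) (nat_lit 0x210450000500800980080008002003a00080a0d83))))))))) 
(.nd (nat_lit 18) (.nd (nat_lit 29) (.nd (nat_lit 19) (.nd (nat_lit 6) (.nd (nat_lit 7) 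
(.nd (nat_lit 24) (.nd (nat_lit 22) 
(.lf (nat_lit 2214707233) (dlOf (nat_lit 1) (nat_lit 0x240008040701))) 
(.lf (nat_lit 12697633) (dlOf (nat_lit 2) (nat_lit 0x3548802898040004004000200186d0902)))) 
(.nd (nat_lit 20) (.lf (nat_lit 27377697) (dlOf (nat_lit 1) (nat_lit 0x20018cd0681))) 
(.lf (nat_lit 26329121) (dlOf (nat_lit 2) (nat_lit 0x752d00006c0800700080004002000c0008c30183))))) 
(.nd (nat_lit 8) (.nd (nat_lit 10) 
(.lf (nat_lit 16892065) (dlOf (nat_lit 1) (nat_lit 0xa00288e0481))) 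
(.lf (nat_lit 3221347489) (dlOf (nat_lit 1) (nat_lit 0x800801e80020058000811c203)))) 
(.lf (nat_lit 4697735585) (dlOf (nat_lit 1) (nat_lit 0xac0018091001))))) (.nd (nat_lit 7) 
(.nd (nat_lit 10) (.lf (nat_lit 20037985) (dlOf (nat_lit 1) (nat_lit 0x4002000200089d0e82))) 
(.lf (nat_lit 3221347681) (dlOf (nat_lit 1) (nat_lit 0x8002811c901)))) (.nd (nat_lit 8) 
(.nd (nat_lit 9) (.lf (nat_lit 402769121) (dlOf (nat_lit 1) (nat_lit 0x400400020008092e02))) 
(.lf (nat_lit 20044513) (dlOf (nat_lit 1) (nat_lit 0x8002000200089db982)))) (.nd (nat_lit 9) 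
(.lf (nat_lit 1073856993) (dlOf (nat_lit 1) (nat_lit 0x40028017d01))) 
(.lf (nat_lit 474072033) (dlOf (nat_lit 1) (nat_lit 0x20008002c00200320009082883))))))) 
(.nd (nat_lit 20) (.nd (nat_lit 21) (.nd (nat_lit 6) (.nd (nat_lit 22) (.nd (nat_lit 26) 
(.lf (nat_lit 3221864481) (dlOf (nat_lit 3) (nat_lit 0xb580f00134034003c000000280300a50058000000801700080068002004a00081a0b03))) 
(.lf (nat_lit 4362715169) (dlOf (nat_lit 1) (nat_lit 0x200180e0b01)))) 
(.lf (nat_lit 21610529) (dlOf (nat_lit 1) (nat_lit 0x400200020008a50782)))) (.nd (nat_lit 7) 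
(.lf (nat_lit 470401121) (dlOf (nat_lit 1) (nat_lit 0x4002000200080d1282))) 
(.lf (nat_lit 642785) (dlOf (nat_lit 1) (nat_lit 0x20028007381))))) (.nd (nat_lit 23) 
(.nd (nat_lit 28) 
(.lf (nat_lit 2736161) (dlOf (nat_lit 8) (nat_lit 0x2554c0004a02002ea47000230100055530000ec08004aa980007404002554c0003902001aa470001b0100850000000c40800c00080088002002600081a0b03))) 
(.lf (nat_lit 3492397089) (dlOf (nat_lit 1) (nat_lit 0x17000810a4002083400080c0b03)))) 
(.lf (nat_lit 11124769) (dlOf (nat_lit 11) (nat_lit 0x187096008b7eb0003c020048bf10001a8080235f88000d204008308a003d7de000258200130000000fc08015e1140037086004f7de0001e03000fc290001612c0006c0800400000003402001d7eb0000d810028c25800064080e9000800e400200020008660503))))) 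
(.nd (nat_lit 6) (.nd (nat_lit 7) (.nd (nat_lit 21) 
(.lf (nat_lit 22659105) (dlOf (nat_lit 1) (nat_lit 0x400200020008b10602))) 
(.lf (nat_lit 24756257) (dlOf (nat_lit 4) (nat_lit 0x2579e0052b0d0000a8200085e780004c08007af3c0000a04009800400020018bb0802)))) 
(.lf (nat_lit 20564385) (dlOf (nat_lit 1) (nat_lit 0x400289d4e81)))) (.nd (nat_lit 7) 
(.lf (nat_lit 20565601) (dlOf (nat_lit 1) (nat_lit 0x4002000200089d7182))) (.nd (nat_lit 9) 
(.lf (nat_lit 7980257) (dlOf (nat_lit 1) (nat_lit 0x20008000c00200020008512e03))) 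
(.lf (nat_lit 20568801) (dlOf (nat_lit 1) (nat_lit 0x4002000200089db982)))))))) (.nd (nat_lit 6) 
(.nd (nat_lit 27) (.nd (nat_lit 7) (.nd (nat_lit 21) (.nd (nat_lit 26) 
(.lf (nat_lit 805945377) (dlOf (nat_lit 10) (nat_lit 0x180b40014058000460400c802d0000b8100710168000500800200b40002604019405a000120200c602d000088100700168000400802080b40001804017805a0000a02003c00281f0b01))) 
(.lf (nat_lit 1678360609) (dlOf (nat_lit 10) (nat_lit 0x180b40014058000460400c802d0000b8100710168000500800200b40002604019405a000120200c602d000088100700168000400802080b40001804017805a0000a02003c00281f0b01)))) 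
(.lf (nat_lit 2754199585) (dlOf (nat_lit 1) (nat_lit 0x17000810a4002083400080c0b03)))) 
(.nd (nat_lit 10) (.nd (nat_lit 26) 
(.lf (nat_lit 5905696929) (dlOf (nat_lit 1) (nat_lit 0x400400020008144882))) 
(.lf (nat_lit 1677838497) (dlOf (nat_lit 1) (nat_lit 0x20028114881)))) 
(.lf (nat_lit 805428385) (dlOf (nat_lit 1) (nat_lit 0x2000811c201))))) (.nd (nat_lit 28) 
(.nd (nat_lit 9) (.nd (nat_lit 26) 
(.lf (nat_lit 3892953121) (dlOf (nat_lit 4) (nat_lit 0x4502a0002813c0014098001004a0046019800280c400100480008022000600e8004006c015802c00a8014000fd0c004f02a00018144002409e000c04a004e01980020090001c044000a01b005900b002b0050003f0280008032001180200ac00282a0a81))) 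
(.lf (nat_lit 3960061985) (dlOf (nat_lit 3) (nat_lit 0xb580f00134034003c000000228300a50058000000801700080068002004a00081a0b03)))) 
(.lf (nat_lit 1812057633) (dlOf (nat_lit 1) (nat_lit 0x1400400020008147182)))) (.nd (nat_lit 7) 
(.nd (nat_lit 30) 
(.lf (nat_lit 3154755617) (dlOf (nat_lit 2) (nat_lit 0x1c0a20000002000a0008320c81))) 
(.lf (nat_lit 4228497441) (dlOf (nat_lit 1) (nat_lit 0x200180e0b01)))) 
(.lf (nat_lit 6375457953) (dlOf (nat_lit 1) (nat_lit 0x400400020008002b82)))))) (.nd (nat_lit 7) 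
(.nd (nat_lit 26) (.nd (nat_lit 8) 
(.lf (nat_lit 5905696865) (dlOf (nat_lit 1) (nat_lit 0x400400020008144702))) (.nd (nat_lit 9) 
(.lf (nat_lit 805428577) (dlOf (nat_lit 1) (nat_lit 0x4002811c901))) 
(.lf (nat_lit 805428065) (dlOf (nat_lit 1) (nat_lit 0x40040002000811bc82))))) (.nd (nat_lit 9) 
(.nd (nat_lit 27) (.lf (nat_lit 1677842785) (dlOf (nat_lit 1) (nat_lit 0x6002811ab81))) 
(.lf (nat_lit 3959544161) (dlOf (nat_lit 1) (nat_lit 0x100040002000811ab82)))) 
(.lf (nat_lit 2751580001) (dlOf (nat_lit 1) (nat_lit 0x400400020008003f82))))) (.nd (nat_lit 12) 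
(.nd (nat_lit 8) 
(.lf (nat_lit 2080490721) (dlOf (nat_lit 1) (nat_lit 0x8008000400200860008092e03))) 
(.nd (nat_lit 9) (.lf (nat_lit 4026647009) (dlOf (nat_lit 1) (nat_lit 0xe0018017d01))) 
(.lf (nat_lit 3959538657) (dlOf (nat_lit 2) (nat_lit 0x3000005768080008008000c00200060008112883))))) 
(.nd (nat_lit 27) (.nd (nat_lit 30) 
(.lf (nat_lit 2751584225) (dlOf (nat_lit 1) (nat_lit 0x80040104001800a602))) 
(.lf (nat_lit 1677842401) (dlOf (nat_lit 2) (nat_lit 0x402a8015480800500080014002000e000811a603)))) 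
(.lf (nat_lit 3959543777) (dlOf (nat_lit 3) (nat_lit 0x40230003811400ac208003c08c0020045002af82811a600)))))))) 
(.nd (nat_lit 31) (.nd (nat_lit 21) (.nd (nat_lit 22) (.nd (nat_lit 26) (.nd (nat_lit 9) 
(.nd (nat_lit 28) 
(.lf (nat_lit 1610989601) (dlOf (nat_lit 5) (nat_lit 0x5805000040228000811003380640016020001900e0000383001681400001a040228064000e01c000050200330280011808000000080050004001400080b0182))) 
(.lf (nat_lit 5637521441) (dlOf (nat_lit 1) (nat_lit 0x25800200560008100182)))) (.nd (nat_lit 6) 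
(.lf (nat_lit 380577) (dlOf (nat_lit 1) (nat_lit 0x180018007201))) 
(.lf (nat_lit 43370081) (dlOf (nat_lit 1) (nat_lit 0xc00092a3901))))) (.nd (nat_lit 32) 
(.nd (nat_lit 6) 
(.lf (nat_lit 738574369) (dlOf (nat_lit 5) (nat_lit 0x5805000040228000811003380640016020001900e0000383001681400001a040228064000e01c000050200330280011808000000080050004001400080b0182))) 
(.lf (nat_lit 604356705) (dlOf (nat_lit 3) (nat_lit 0xc00b000280540004022000401000070070001000c000400400140000009c08000300b0003a00800400080008002000800081a0483)))) 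
(.nd (nat_lit 28) (.lf (nat_lit 4362453025) (dlOf (nat_lit 1) (nat_lit 0x40018080701))) 
(.lf (nat_lit 6241501217) (dlOf (nat_lit 1) (nat_lit 0x25800200560008100182)))))) (.nd (nat_lit 7) 
(.nd (nat_lit 19) 
(.lf (nat_lit 1346748449) (dlOf (nat_lit 2) (nat_lit 0x6c12c00e4085008b03a804701cc002403e0003e0a005c0029000181))) 
(.lf (nat_lit 5095457) (dlOf (nat_lit 1) (nat_lit 0x8008003400200040008300603)))) (.nd (nat_lit 8) 
(.lf (nat_lit 47038625) (dlOf (nat_lit 1) (nat_lit 0x1e0019392b81))) 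
(.lf (nat_lit 38128033) (dlOf (nat_lit 1) (nat_lit 0x400400020009134e82)))))) (.nd (nat_lit 7) 
(.nd (nat_lit 6) (.nd (nat_lit 19) (.nd (nat_lit 22) 
(.lf (nat_lit 1881522209) (dlOf (nat_lit 1) (nat_lit 0x13800800bc002006e0008f40183))) 
(.lf (nat_lit 48611361) (dlOf (nat_lit 2) (nat_lit 0x20f80001f019420180)))) 
(.lf (nat_lit 25018401) (dlOf (nat_lit 1) (nat_lit 0xc00400040008bd0b02)))) (.nd (nat_lit 8) 
(.lf (nat_lit 20824161) (dlOf (nat_lit 1) (nat_lit 0x8004000400189e1982))) 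
(.lf (nat_lit 23445857) (dlOf (nat_lit 1) (nat_lit 0x2f8008016c00201240008b80703))))) 
(.nd (nat_lit 19) (.nd (nat_lit 6) (.nd (nat_lit 22) 
(.lf (nat_lit 472238497) (dlOf (nat_lit 1) (nat_lit 0x2c0028924e81))) 
(.lf (nat_lit 40225185) (dlOf (nat_lit 1) (nat_lit 0x1000191f4e81)))) 
(.lf (nat_lit 20306657) (dlOf (nat_lit 1) (nat_lit 0x8002000200089db982)))) (.nd (nat_lit 25) 
(.lf (nat_lit 473811361) (dlOf (nat_lit 1) (nat_lit 0x680028fa4e81))) 
(.lf (nat_lit 37603745) (dlOf (nat_lit 1) (nat_lit 0x80080004002000200090d4e83))))))) 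
(.nd (nat_lit 26) (.nd (nat_lit 27) (.nd (nat_lit 6) (.nd (nat_lit 21) 
(.lf (nat_lit 3221602337) (dlOf (nat_lit 1) (nat_lit 0x80008160701))) 
(.lf (nat_lit 3492134945) (dlOf (nat_lit 2) (nat_lit 0x120450056b00801000080004002002200080a0903)))) 
(.nd (nat_lit 7) 
(.lf (nat_lit 3492135009) (dlOf (nat_lit 1) (nat_lit 0x800080094002001000080a1383))) 
(.lf (nat_lit 3492661217) (dlOf (nat_lit 1) (nat_lit 0x200080f4581))))) (.nd (nat_lit 30) 
(.nd (nat_lit 6) 
(.lf (nat_lit 2819473441) (dlOf (nat_lit 2) (nat_lit 0x5000002ff00800380080034002002600082a0683))) 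
(.lf (nat_lit 2818949345) (dlOf (nat_lit 1) (nat_lit 0x20018130601)))) (.nd (nat_lit 29) 
(.lf (nat_lit 3355820065) (dlOf (nat_lit 2) (nat_lit 0x3202b00030818120500))) 
(.lf (nat_lit 3892690977) (dlOf (nat_lit 2) (nat_lit 0x1e051005868181c0700)))))) (.nd (nat_lit 27) 
(.nd (nat_lit 6) (.nd (nat_lit 7) (.nd (nat_lit 9) 
(.lf (nat_lit 3557670945) (dlOf (nat_lit 2) (nat_lit 0x500000199c0800380080034002002600082a0683))) 
(.lf (nat_lit 2754989601) (dlOf (nat_lit 1) (nat_lit 0x2e00080f7181)))) 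
(.lf (nat_lit 2754464161) (dlOf (nat_lit 1) (nat_lit 0x4002000200080f4e82)))) (.nd (nat_lit 8) 
(.lf (nat_lit 2753937505) (dlOf (nat_lit 2) (nat_lit 0x80a900000c08011000800b0002000600080a1283))) 
(.lf (nat_lit 3557146977) (dlOf (nat_lit 1) (nat_lit 0x28008005000200060008130903))))) 
(.nd (nat_lit 30) (.nd (nat_lit 29) 
(.lf (nat_lit 2617622561) (dlOf (nat_lit 2) (nat_lit 0x1601a0001a80800a00080040002005a0008100503))) 
(.lf (nat_lit 3154493473) (dlOf (nat_lit 1) (nat_lit 0x200081c0701)))) (.nd (nat_lit 28) 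
(.lf (nat_lit 3959799841) (dlOf (nat_lit 1) (nat_lit 0x80008160701))) 
(.lf (nat_lit 4228235297) (dlOf (nat_lit 1) (nat_lit 0x40018080701)))))))))) (.nd (nat_lit 5) 
(.nd (nat_lit 6) (.nd (nat_lit 18) (.nd (nat_lit 19) (.nd (nat_lit 10) (.nd (nat_lit 23) 
(.nd (nat_lit 27) (.nd (nat_lit 26) (.nd (nat_lit 7) 
(.lf (nat_lit 17940489) (dlOf (nat_lit 3) (nat_lit 0x52c9000580080019664000893e0008d0400060008900581))) 
(.lf (nat_lit 5368823945) (dlOf (nat_lit 1) (nat_lit 0x1c00400080008030f02)))) (.nd (nat_lit 28) 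
(.lf (nat_lit 1140965385) (dlOf (nat_lit 1) (nat_lit 0x20008030001))) 
(.lf (nat_lit 2483142665) (dlOf (nat_lit 1) (nat_lit 0x20018030481))))) (.nd (nat_lit 30) 
(.nd (nat_lit 7) (.lf (nat_lit 2348924937) (dlOf (nat_lit 1) (nat_lit 0x20018030481))) 
(.lf (nat_lit 6576785801) (dlOf (nat_lit 1) (nat_lit 0xa0018144e81)))) (.nd (nat_lit 28) 
(.lf (nat_lit 3355557897) (dlOf (nat_lit 1) (nat_lit 0xe000180a0001))) 
(.lf (nat_lit 2013380617) (dlOf (nat_lit 1) (nat_lit 0x20008030001)))))) (.nd (nat_lit 20) 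
(.nd (nat_lit 22) 
(.lf (nat_lit 25280521) (dlOf (nat_lit 2) (nat_lit 0x276078016afe0006564c0014d0600020028bf0481))) 
(.lf (nat_lit 12697609) (dlOf (nat_lit 1) (nat_lit 0x200086d0401)))) (.nd (nat_lit 22) 
(.lf (nat_lit 9551881) (dlOf (nat_lit 1) (nat_lit 0x260018560481))) 
(.lf (nat_lit 47300617) (dlOf (nat_lit 1) (nat_lit 0x8002001400093d0002)))))) (.nd (nat_lit 7) 
(.nd (nat_lit 8) (.lf (nat_lit 1677837321) (dlOf (nat_lit 1) (nat_lit 0xb800400340018112882))) 
(.nd (nat_lit 11) (.lf (nat_lit 35767561) (dlOf (nat_lit 1) (nat_lit 0x60019012f81))) 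
(.lf (nat_lit 3221343497) (dlOf (nat_lit 1) (nat_lit 0x20028116681))))) (.nd (nat_lit 9) 
(.nd (nat_lit 11) (.lf (nat_lit 2818688137) (dlOf (nat_lit 1) (nat_lit 0xc200280d2b01))) 
(.lf (nat_lit 805428361) (dlOf (nat_lit 1) (nat_lit 0x4002811c201)))) (.nd (nat_lit 26) 
(.lf (nat_lit 805424777) (dlOf (nat_lit 1) (nat_lit 0x400400020008117182))) 
(.lf (nat_lit 6509678217) (dlOf (nat_lit 1) (nat_lit 0x400400020008147182))))))) (.nd (nat_lit 20) 
(.nd (nat_lit 26) (.nd (nat_lit 7) (.nd (nat_lit 22) 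
(.lf (nat_lit 134856713) (dlOf (nat_lit 5) (nat_lit 0x68128000fa0400600940007c02001e04a0003a8100030250001cc0800400080054002005400080d0483))) 
(.lf (nat_lit 21610505) (dlOf (nat_lit 2) (nat_lit 0x47af40173e0200020028a50001)))) 
(.lf (nat_lit 5772001417) (dlOf (nat_lit 2) (nat_lit 0x1002800620130034809401040460080020004100c0000b4300050008005c00200600008030f03)))) 
(.nd (nat_lit 21) 
(.lf (nat_lit 201965577) (dlOf (nat_lit 5) (nat_lit 0x68128000fa0400600940007c02001e04a0003a8100030250001cc0800400080054002005400080d0483))) 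
(.lf (nat_lit 1009369097) (dlOf (nat_lit 1) (nat_lit 0x20009130001))))) (.nd (nat_lit 21) 
(.nd (nat_lit 27) (.lf (nat_lit 4095328265) (dlOf (nat_lit 1) (nat_lit 0x40028090001))) 
(.lf (nat_lit 471449609) (dlOf (nat_lit 2) (nat_lit 0x809d000503f000270100008008000800200020008300583)))) 
(.nd (nat_lit 7) (.nd (nat_lit 8) 
(.lf (nat_lit 24756233) (dlOf (nat_lit 6) (nat_lit 0x35db805b7408000af3c02bd204001579e015e0020002bcf00aef8100035e78055240800d00080010002000a0008bb0003))) 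
(.lf (nat_lit 7984393) (dlOf (nat_lit 1) (nat_lit 0x10008002400200040008519603)))) 
(.lf (nat_lit 12173449) (dlOf (nat_lit 1) (nat_lit 0x200186c0101))))))) (.nd (nat_lit 29) 
(.nd (nat_lit 22) (.nd (nat_lit 27) (.nd (nat_lit 20) (.nd (nat_lit 26) 
(.lf (nat_lit 1342554121) (dlOf (nat_lit 14) (nat_lit 0x320e88005800800d0744007439e00021cb000af8300080e880028714002ba0800283a2001580200261d1000ab8100090e78005580801b8744000438a00161c10006c8300210e88003600800d8744007c39e001c1c10006b83001e0e880038704001aa0800303a2000cf02005e1d10006701000a0e880033408008800800ec002005a0008050583))) 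
(.lf (nat_lit 3288711177) (dlOf (nat_lit 2) (nat_lit 0x3001a0000002005e00080c0801)))) 
(.nd (nat_lit 19) (.lf (nat_lit 37077001) (dlOf (nat_lit 1) (nat_lit 0x20009090001))) 
(.lf (nat_lit 1949705) (dlOf (nat_lit 1) (nat_lit 0x400400020008150002))))) (.nd (nat_lit 26) 
(.nd (nat_lit 7) (.lf (nat_lit 1476771849) (dlOf (nat_lit 1) (nat_lit 0x4004000200081a0002))) 
(.lf (nat_lit 5773312137) (dlOf (nat_lit 1) (nat_lit 0x400280c0e81)))) (.nd (nat_lit 31) 
(.lf (nat_lit 470138889) (dlOf (nat_lit 14) (nat_lit 0x320e88005800800d0744007439e00021cb000af8300080e880028714002ba0800283a2001580200261d1000ab8100090e78005580801b8744000438a00161c10006c8300210e88003600800d8744007c39e001c1c10006b83001e0e880038704001aa0800303a2000cf02005e1d10006701000a0e880033408008800800ec002005a0008050583))) 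
(.lf (nat_lit 2617622537) (dlOf (nat_lit 2) (nat_lit 0x4b017801be40800e00080034002007e0008100003)))))) 
(.nd (nat_lit 19) (.nd (nat_lit 20) (.nd (nat_lit 23) 
(.lf (nat_lit 3494232073) (dlOf (nat_lit 1) (nat_lit 0x14002000c00081d0002))) 
(.lf (nat_lit 12959753) (dlOf (nat_lit 2) (nat_lit 0xf52300b5d8186f0000)))) 
(.lf (nat_lit 30785545) (dlOf (nat_lit 1) (nat_lit 0x40018e50581)))) (.nd (nat_lit 21) 
(.nd (nat_lit 23) (.lf (nat_lit 5095433) (dlOf (nat_lit 1) (nat_lit 0x20008007400200020008300483))) 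
(.lf (nat_lit 13484041) (dlOf (nat_lit 1) (nat_lit 0x800400020018730482)))) (.nd (nat_lit 7) 
(.lf (nat_lit 15581193) (dlOf (nat_lit 1) (nat_lit 0x20018800281))) 
(.lf (nat_lit 8241545) (dlOf (nat_lit 1) (nat_lit 0x400200020008511002))))))) (.nd (nat_lit 30) 
(.nd (nat_lit 31) (.nd (nat_lit 26) 
(.lf (nat_lit 805683209) (dlOf (nat_lit 1) (nat_lit 0x2000200160008180502))) (.nd (nat_lit 27) 
(.lf (nat_lit 604356617) (dlOf (nat_lit 1) (nat_lit 0x4004000200081a0002))) 
(.lf (nat_lit 738574345) (dlOf (nat_lit 1) (nat_lit 0xe000800b800200a600080b0003))))) 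
(.nd (nat_lit 10) (.nd (nat_lit 22) 
(.lf (nat_lit 3154493449) (dlOf (nat_lit 2) (nat_lit 0x1e051002bd0181c0280))) 
(.lf (nat_lit 2756034569) (dlOf (nat_lit 1) (nat_lit 0x14002000c00081d0002)))) 
(.lf (nat_lit 2751841289) (dlOf (nat_lit 1) (nat_lit 0x400200020008002882))))) (.nd (nat_lit 26) 
(.nd (nat_lit 27) (.nd (nat_lit 28) 
(.lf (nat_lit 1610989577) (dlOf (nat_lit 1) (nat_lit 0xe000800b800200a600080b0003))) 
(.lf (nat_lit 4026908681) (dlOf (nat_lit 2) (nat_lit 0x3001a0000002005e00080c0801)))) 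
(.lf (nat_lit 3892690953) (dlOf (nat_lit 1) (nat_lit 0x200081c0281)))) (.nd (nat_lit 7) 
(.lf (nat_lit 1678098441) (dlOf (nat_lit 1) (nat_lit 0x2000200160008180502))) 
(.lf (nat_lit 6377291913) (dlOf (nat_lit 1) (nat_lit 0x4002000200080c0f02)))))))) (.nd (nat_lit 8) 
(.nd (nat_lit 28) (.nd (nat_lit 26) (.nd (nat_lit 18) (.nd (nat_lit 9) (.nd (nat_lit 19) 
(.lf (nat_lit 25280585) (dlOf (nat_lit 1) (nat_lit 0x20018bf0c81))) (.nd (nat_lit 27) 
(.lf (nat_lit 3221864521) (dlOf (nat_lit 4) (nat_lit 0x258130013808a00e004200ad0048000b820050810c028c08000e8038000138300020138000000803c800801e4002007800081a1483))) 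
(.lf (nat_lit 134856777) (dlOf (nat_lit 1) (nat_lit 0x1e00180d0c81))))) (.nd (nat_lit 10) 
(.lf (nat_lit 1073857097) (dlOf (nat_lit 1) (nat_lit 0x2400200080008018d02))) 
(.lf (nat_lit 7980617) (dlOf (nat_lit 1) (nat_lit 0x800400080018513802))))) (.nd (nat_lit 20) 
(.nd (nat_lit 7) (.lf (nat_lit 379977) (dlOf (nat_lit 1) (nat_lit 0x400200020008006082))) 
(.lf (nat_lit 1208336585) (dlOf (nat_lit 1) (nat_lit 0x200180c1b81)))) (.nd (nat_lit 22) 
(.lf (nat_lit 1425481) (dlOf (nat_lit 1) (nat_lit 0x38008000c002000a00080c0f03))) 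
(.lf (nat_lit 55951433) (dlOf (nat_lit 1) (nat_lit 0x4004000a00096f0602)))))) (.nd (nat_lit 7) 
(.nd (nat_lit 20) (.nd (nat_lit 18) 
(.lf (nat_lit 201965641) (dlOf (nat_lit 1) (nat_lit 0x1e00180d0c81))) 
(.lf (nat_lit 3288711241) (dlOf (nat_lit 7) (nat_lit 0x12009400e804201e001e003200d8016005400a8020006c0090001a07009200f0000c8080048094014403c000310400220050001701008800f001980000004e080054046000e00c0000e8280c1480)))) 
(.nd (nat_lit 10) (.lf (nat_lit 2752626761) (dlOf (nat_lit 1) (nat_lit 0x800400020008020882))) 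
(.lf (nat_lit 2754726985) (dlOf (nat_lit 1) (nat_lit 0x4004000c00080f6082))))) (.nd (nat_lit 9) 
(.lf (nat_lit 604094665) (dlOf (nat_lit 1) (nat_lit 0x400200020008010482))) (.nd (nat_lit 11) 
(.lf (nat_lit 2751579849) (dlOf (nat_lit 1) (nat_lit 0x20018003a81))) 
(.lf (nat_lit 6509678281) (dlOf (nat_lit 1) (nat_lit 0x400400020008147302))))))) (.nd (nat_lit 7) 
(.nd (nat_lit 18) (.nd (nat_lit 20) (.nd (nat_lit 27) 
(.lf (nat_lit 2416033865) (dlOf (nat_lit 2) (nat_lit 0x9012000084080028008000800200120008020883))) 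
(.lf (nat_lit 2550251593) (dlOf (nat_lit 2) (nat_lit 0x9013000084080028008000800200120008020883)))) 
(.lf (nat_lit 3490824265) (dlOf (nat_lit 1) (nat_lit 0x800400020008020882)))) (.nd (nat_lit 29) 
(.nd (nat_lit 22) (.lf (nat_lit 5637521481) (dlOf (nat_lit 1) (nat_lit 0xa0028100501))) 
(.lf (nat_lit 1346748489) (dlOf (nat_lit 1) (nat_lit 0x5000800ac002003e0009000603)))) 
(.nd (nat_lit 21) (.lf (nat_lit 6241501257) (dlOf (nat_lit 1) (nat_lit 0xa0028100501))) 
(.lf (nat_lit 1881522249) (dlOf (nat_lit 6) (nat_lit 0xcb838c00200f60014f04018a0e3004403d8003dc10064038c00dc0f6000f50400840e30000301003d071800010080018008007400200280008f40603)))))) 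
(.nd (nat_lit 10) (.nd (nat_lit 26) 
(.lf (nat_lit 6711001289) (dlOf (nat_lit 1) (nat_lit 0xc00400020008031b82))) 
(.lf (nat_lit 4764844233) (dlOf (nat_lit 1) (nat_lit 0x800400020008031b82)))) (.nd (nat_lit 18) 
(.nd (nat_lit 19) (.lf (nat_lit 5100389577) (dlOf (nat_lit 1) (nat_lit 0x20028052d81))) 
(.lf (nat_lit 5773051081) (dlOf (nat_lit 1) (nat_lit 0x20018092d81)))) 
(.lf (nat_lit 5772788937) (dlOf (nat_lit 1) (nat_lit 0x20028092d81))))))) (.nd (nat_lit 7) 
(.nd (nat_lit 11) (.nd (nat_lit 10) (.nd (nat_lit 18) (.nd (nat_lit 20) 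
(.lf (nat_lit 3493970249) (dlOf (nat_lit 1) (nat_lit 0x200181b0601))) 
(.lf (nat_lit 59883849) (dlOf (nat_lit 1) (nat_lit 0x400200020009840c82)))) 
(.lf (nat_lit 3522889) (dlOf (nat_lit 1) (nat_lit 0x7800200060008200602)))) (.nd (nat_lit 9) 
(.lf (nat_lit 8508745) (dlOf (nat_lit 1) (nat_lit 0x400200020008519902))) 
(.lf (nat_lit 7980873) (dlOf (nat_lit 1) (nat_lit 0x20028513e81))))) (.nd (nat_lit 26) 
(.nd (nat_lit 9) (.nd (nat_lit 28) 
(.lf (nat_lit 3221343561) (dlOf (nat_lit 1) (nat_lit 0x100080014002000a0008116983))) 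
(.lf (nat_lit 805424457) (dlOf (nat_lit 1) (nat_lit 0x40028116981)))) 
(.lf (nat_lit 5637262153) (dlOf (nat_lit 1) (nat_lit 0x8008000800200020008055c03)))) 
(.nd (nat_lit 9) (.nd (nat_lit 27) 
(.lf (nat_lit 2751580489) (dlOf (nat_lit 1) (nat_lit 0x400400020008004d82))) 
(.lf (nat_lit 3959540041) (dlOf (nat_lit 1) (nat_lit 0x400400020008114d82)))) 
(.lf (nat_lit 5704371017) (dlOf (nat_lit 1) (nat_lit 0x800400020018055c02)))))) (.nd (nat_lit 26) 
(.nd (nat_lit 18) (.nd (nat_lit 9) (.nd (nat_lit 20) 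
(.lf (nat_lit 1346488777) (dlOf (nat_lit 1) (nat_lit 0x68008002c00200380008f64e83))) 
(.lf (nat_lit 51497417) (dlOf (nat_lit 1) (nat_lit 0x8008000800200040009514e83)))) 
(.lf (nat_lit 5905695689) (dlOf (nat_lit 1) (nat_lit 0x400400020008142882)))) (.nd (nat_lit 19) 
(.lf (nat_lit 3624257993) (dlOf (nat_lit 1) (nat_lit 0x14a0028144e81))) (.nd (nat_lit 21) 
(.lf (nat_lit 3490564553) (dlOf (nat_lit 1) (nat_lit 0x8008000400200020008004e83))) 
(.lf (nat_lit 32360905) (dlOf (nat_lit 1) (nat_lit 0x400400020008ef4e82)))))) (.nd (nat_lit 27) 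
(.nd (nat_lit 9) (.nd (nat_lit 10) 
(.lf (nat_lit 3288449481) (dlOf (nat_lit 1) (nat_lit 0x20008001800200080008017103))) 
(.lf (nat_lit 6509678025) (dlOf (nat_lit 1) (nat_lit 0x20008146d01)))) 
(.lf (nat_lit 2751579081) (dlOf (nat_lit 1) (nat_lit 0x400400020008002882)))) (.nd (nat_lit 21) 
(.nd (nat_lit 28) (.lf (nat_lit 738314697) (dlOf (nat_lit 1) (nat_lit 0x40028094e81))) 
(.lf (nat_lit 3154233801) (dlOf (nat_lit 1) (nat_lit 0x7c0028104e81)))) 
(.lf (nat_lit 6377556425) (dlOf (nat_lit 1) (nat_lit 0xc00080e4e81))))))))) (.nd (nat_lit 18) 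
(.nd (nat_lit 11) (.nd (nat_lit 30) (.nd (nat_lit 20) (.nd (nat_lit 7) (.nd (nat_lit 19) 
(.lf (nat_lit 52543529) (dlOf (nat_lit 1) (nat_lit 0x20019550201))) (.nd (nat_lit 23) 
(.lf (nat_lit 2754199593) (dlOf (nat_lit 1) (nat_lit 0x1000280c0d01))) 
(.lf (nat_lit 11124777) (dlOf (nat_lit 1) (nat_lit 0x40008001c002000c0008660683))))) 
(.nd (nat_lit 8) (.nd (nat_lit 9) 
(.lf (nat_lit 5167497385) (dlOf (nat_lit 1) (nat_lit 0x10008000400200040008062c83))) 
(.lf (nat_lit 939640489) (dlOf (nat_lit 1) (nat_lit 0x20018143a81)))) (.nd (nat_lit 9) 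
(.lf (nat_lit 4697735593) (dlOf (nat_lit 1) (nat_lit 0x40008091001))) 
(.lf (nat_lit 536987561) (dlOf (nat_lit 1) (nat_lit 0x20028004301)))))) (.nd (nat_lit 19) 
(.nd (nat_lit 6) (.nd (nat_lit 21) 
(.lf (nat_lit 17940521) (dlOf (nat_lit 1) (nat_lit 0x20018900b01))) 
(.lf (nat_lit 28426281) (dlOf (nat_lit 1) (nat_lit 0x60028d90801)))) 
(.lf (nat_lit 43106665) (dlOf (nat_lit 1) (nat_lit 0x90004001000192a0f02)))) (.nd (nat_lit 21) 
(.nd (nat_lit 9) 
(.lf (nat_lit 471449641) (dlOf (nat_lit 2) (nat_lit 0x82a4000811c0003d0400020018300b01))) 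
(.lf (nat_lit 2753151529) (dlOf (nat_lit 2) (nat_lit 0x1c1fc00000018090e00)))) (.nd (nat_lit 22) 
(.lf (nat_lit 45727785) (dlOf (nat_lit 1) (nat_lit 0x20029360201))) 
(.lf (nat_lit 24756265) (dlOf (nat_lit 8) (nat_lit 0x10bd400095de80006c10000af5000bd77a0004b450000c83001f5ea00052ef4000300800217a80000b02002abd400085de80002810005af50004177a00009040008bd400035de800020100038008001000200080008bb0a83))))))) 
(.nd (nat_lit 8) (.nd (nat_lit 26) (.nd (nat_lit 20) (.nd (nat_lit 27) 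
(.lf (nat_lit 3221864489) (dlOf (nat_lit 9) (nat_lit 0x56a03e012c00700a20030030c0000001908056a03e01300070000601015f80f8035801c0001704054003e0109007008f8030027c000000160803dc03e01290070000541015580f8045c01c0001404020a03e006000700004c100bb803804b80180120000000000381a0c00))) 
(.lf (nat_lit 3892953129) (dlOf (nat_lit 9) (nat_lit 0x620000002a8100a102b805100dc029806c00fa021006d0100036807c02e80320168018000d005004b802400062280084032000300200d2057006a01b803700d80104040008401f008e00c804280600005e1c017c03e01380180000e82008f00c00005808042015c013c06e00d8020006d00f805c806402d4030005c0090000887001900c0000400803d800801ac002040200082a0b03)))) 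
(.nd (nat_lit 9) (.lf (nat_lit 1343340585) (dlOf (nat_lit 1) (nat_lit 0x1be0018200801))) 
(.lf (nat_lit 3491349033) (dlOf (nat_lit 2) (nat_lit 0x1c1ea00000018090e00))))) (.nd (nat_lit 9) 
(.nd (nat_lit 21) 
(.lf (nat_lit 3960061993) (dlOf (nat_lit 6) (nat_lit 0x8003e0000c81007001f0000600807600f80002c04026807c000c00e0000a8200200070000500800b80080084002008c00081a0d03))) 
(.lf (nat_lit 4096376873) (dlOf (nat_lit 1) (nat_lit 0x3f400200940008100382)))) (.nd (nat_lit 6) 
(.lf (nat_lit 6375458345) (dlOf (nat_lit 1) (nat_lit 0x400400020008003702))) 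
(.lf (nat_lit 5570152041) (dlOf (nat_lit 1) (nat_lit 0xc00200060008053902)))))) (.nd (nat_lit 10) 
(.nd (nat_lit 6) (.lf (nat_lit 1610727849) (dlOf (nat_lit 1) (nat_lit 0x800200020008091002))) 
(.nd (nat_lit 7) (.lf (nat_lit 1881260393) (dlOf (nat_lit 1) (nat_lit 0x2000400160008e80f02))) 
(.lf (nat_lit 1946272233) (dlOf (nat_lit 2) (nat_lit 0x9c052000000200020008017301))))) 
(.nd (nat_lit 6) (.lf (nat_lit 5905696681) (dlOf (nat_lit 1) (nat_lit 0x26a0028144301))) 
(.nd (nat_lit 7) 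
(.lf (nat_lit 1611253097) (dlOf (nat_lit 4) (nat_lit 0x200560001881000402b0002013000100900002035000401580050000000601800400ac002004c0010015800800000003a10002c00400020018123482))) 
(.lf (nat_lit 1610728937) (dlOf (nat_lit 1) (nat_lit 0xc00200080008093602)))))))) (.nd (nat_lit 8) 
(.nd (nat_lit 6) (.nd (nat_lit 10) (.nd (nat_lit 7) (.nd (nat_lit 9) 
(.lf (nat_lit 3492923433) (dlOf (nat_lit 1) (nat_lit 0x400400be00080f4702))) 
(.lf (nat_lit 53594665) (dlOf (nat_lit 1) (nat_lit 0x4004000200095f5182)))) 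
(.lf (nat_lit 7981225) (dlOf (nat_lit 1) (nat_lit 0x88008003c00200040008514883)))) 
(.nd (nat_lit 12) (.nd (nat_lit 26) 
(.lf (nat_lit 6576786601) (dlOf (nat_lit 1) (nat_lit 0x20028146281))) 
(.lf (nat_lit 1812057257) (dlOf (nat_lit 1) (nat_lit 0x40028146281)))) 
(.lf (nat_lit 3489782953) (dlOf (nat_lit 1) (nat_lit 0x1800800040020002000800c203))))) 
(.nd (nat_lit 7) (.nd (nat_lit 9) 
(.lf (nat_lit 469884009) (dlOf (nat_lit 1) (nat_lit 0xc0040002000800c082))) 
(.lf (nat_lit 2147601001) (dlOf (nat_lit 1) (nat_lit 0x400400020008095382)))) (.nd (nat_lit 10) 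
(.nd (nat_lit 30) (.lf (nat_lit 2751580393) (dlOf (nat_lit 2) (nat_lit 0x4e0790000c818004b00))) 
(.lf (nat_lit 1677838569) (dlOf (nat_lit 1) (nat_lit 0x12a0018114b01)))) 
(.lf (nat_lit 2754727145) (dlOf (nat_lit 3) (nat_lit 0x6027005600a8000b81004e00b8032c04e0006015000168380f6500)))))) 
(.nd (nat_lit 7) (.nd (nat_lit 9) (.nd (nat_lit 26) (.nd (nat_lit 28) 
(.lf (nat_lit 3221343529) (dlOf (nat_lit 1) (nat_lit 0x400400020008116802))) 
(.lf (nat_lit 805424425) (dlOf (nat_lit 1) (nat_lit 0x400400020008116802)))) 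
(.lf (nat_lit 6509677865) (dlOf (nat_lit 1) (nat_lit 0x400400020008146802)))) (.nd (nat_lit 22) 
(.lf (nat_lit 5637262121) (dlOf (nat_lit 2) (nat_lit 0x10004000aa018055c00))) (.nd (nat_lit 24) 
(.lf (nat_lit 1346489129) (dlOf (nat_lit 2) (nat_lit 0x290a78007cc0800980080018002000e0008f65c03))) 
(.lf (nat_lit 54643497) (dlOf (nat_lit 1) (nat_lit 0x20029655c01)))))) (.nd (nat_lit 6) 
(.nd (nat_lit 9) 
(.lf (nat_lit 3221347753) (dlOf (nat_lit 2) (nat_lit 0x409c00520230001802811cb80))) 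
(.nd (nat_lit 12) (.lf (nat_lit 20564905) (dlOf (nat_lit 1) (nat_lit 0x4004000400189d5d02))) 
(.lf (nat_lit 121769) (dlOf (nat_lit 1) (nat_lit 0x40040002000800bd02))))) (.nd (nat_lit 26) 
(.nd (nat_lit 28) (.lf (nat_lit 3221342697) (dlOf (nat_lit 1) (nat_lit 0x400400020008114e82))) 
(.lf (nat_lit 805423593) (dlOf (nat_lit 1) (nat_lit 0x400200020008114e82)))) 
(.lf (nat_lit 6509677033) (dlOf (nat_lit 1) (nat_lit 0x400400020008144e82)))))))) (.nd (nat_lit 29) 
(.nd (nat_lit 22) (.nd (nat_lit 6) (.nd (nat_lit 9) (.nd (nat_lit 10) (.nd (nat_lit 26) 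
(.lf (nat_lit 3355820073) (dlOf (nat_lit 26) (nat_lit 0x2880c0022c052006a019006100c000c005400f8020000560c01280290002a8101a3014801c00780009c08089c06001f0029003d00d80460040000941002640600004902000c0300002381007e018013b80b00b78052029c01b0117004800114280a980b007e4052006801b0002203014801600fe00a400cc0360004306038a03000710080001081000b00b0003805200040040296030004c0080000f01001080a4000700402080600184029000300d802600400006e1000200520003402043e0300040014803400640b78030014201000b50038147800c08fc0000003210037803001bc01480ef80600010020046e0000001885001e00c0000c00800f00600005e040c8003007d6000000168203510000000b008006806008440000001704000201a0000b010024019804d00c00344052010801a00c800c00448014045c000000130e005c02c014400d009b0058000000c09ec00202000008120682))) 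
(.lf (nat_lit 2617622569) (dlOf (nat_lit 20) (nat_lit 0x2f00b400f0030006600300d3000000158200368000000aa04013406404c602d001c0080001281802880b4000920405dc06400fe03000af016817d80a40008a100148064014002d00750148001101802100c8003005a00b202900021830155016800108080c800b4000780400e405a000370200aa03201e7018013500b4096c030002e007025600181220000000641c062006003c002d019200c003e800c0658000000310a008a01800560000000c01003f00000005e040d8c03006c8000000168203600000000b0080fb006007f4000000170400080050000b01002400c000e80000002608007800400280008100682)))) 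
(.lf (nat_lit 51233833) (dlOf (nat_lit 1) (nat_lit 0x20019512881)))) (.nd (nat_lit 8) 
(.lf (nat_lit 45468201) (dlOf (nat_lit 1) (nat_lit 0x8008000400200020009325183))) 
(.lf (nat_lit 70109993) (dlOf (nat_lit 1) (nat_lit 0x20028ec5c01))))) (.nd (nat_lit 7) 
(.nd (nat_lit 10) (.nd (nat_lit 19) 
(.lf (nat_lit 52805993) (dlOf (nat_lit 1) (nat_lit 0x400400020009570f02))) 
(.lf (nat_lit 1343078761) (dlOf (nat_lit 1) (nat_lit 0x640008150981)))) 
(.lf (nat_lit 471717225) (dlOf (nat_lit 1) (nat_lit 0x200080160002000800083d9903)))) 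
(.nd (nat_lit 8) (.lf (nat_lit 5772788969) (dlOf (nat_lit 1) (nat_lit 0x20028092e81))) 
(.lf (nat_lit 43369449) (dlOf (nat_lit 1) (nat_lit 0x800092a2881)))))) (.nd (nat_lit 23) 
(.nd (nat_lit 24) (.nd (nat_lit 6) (.nd (nat_lit 19) 
(.lf (nat_lit 3494232105) (dlOf (nat_lit 6) (nat_lit 0x180a0003204e0019026800600f400fae10005c0a80020051000c028000c8138004009a0010045001201e801f583800e815000180a60034051001902800100138008409a001c045001f01e801f544000d815000080a60030051001802800108138006c09a0006045001e01e801f5040002015000000040014004003c00181d0a02))) 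
(.lf (nat_lit 5095465) (dlOf (nat_lit 1) (nat_lit 0x1a00080004002003a0008300683)))) 
(.lf (nat_lit 1346748521) (dlOf (nat_lit 2) (nat_lit 0x104b0000bc0800a80080038002002e0009000a03)))) 
(.nd (nat_lit 7) (.nd (nat_lit 9) 
(.lf (nat_lit 22921257) (dlOf (nat_lit 23) (nat_lit 0x1b7eb900d675c0009379202cbbb80193db60043ecdc081c000000560e00bdd720192eb800768000000aa0c05700000005402024fd7000da00000014c100c20000000a4040383b620091d4e0002882015ded8803975c801d7ae00071d50008aea70000b77c0009c18012fae40004a0201de000000190100d96b38000b408013359c0005804002f78800024020171d7200caeb80000ef2c01a36d801109b500009850002eb8000048080a26f2c0001c0407b77960000a020159bcb00004810128de2000020080e56f100000c040697788000040200b3bc400001810125de5809c6f100000008000400400460008b40682))) 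
(.lf (nat_lit 23446057) (dlOf (nat_lit 1) (nat_lit 0x400200020008b80e02)))) 
(.lf (nat_lit 54902953) (dlOf (nat_lit 1) (nat_lit 0x1e0019662c81))))) (.nd (nat_lit 19) 
(.nd (nat_lit 6) (.nd (nat_lit 21) 
(.lf (nat_lit 12959785) (dlOf (nat_lit 7) (nat_lit 0x63d494003aa3c00094980000c8300aba928000600805e549400069300000b0401755250004a4c00002810062d4940016a3c0005498000048300c1a928004d260000100800a8004005400186f0a82))) 
(.lf (nat_lit 48611369) (dlOf (nat_lit 1) (nat_lit 0x8008000400200020009420203)))) 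
(.lf (nat_lit 47565289) (dlOf (nat_lit 1) (nat_lit 0x800400020009404e82)))) (.nd (nat_lit 21) 
(.lf (nat_lit 14532649) (dlOf (nat_lit 1) (nat_lit 0x120028760901))) 
(.lf (nat_lit 16629801) (dlOf (nat_lit 2) (nat_lit 0x40000008902000e00188c0781))))))) 
(.nd (nat_lit 31) (.nd (nat_lit 6) (.nd (nat_lit 26) (.nd (nat_lit 28) 
(.lf (nat_lit 4832215081) (dlOf (nat_lit 1) (nat_lit 0x400200020008110282))) 
(.lf (nat_lit 805683241) (dlOf (nat_lit 4) (nat_lit 0x18405600050098000dc1000100b400580580001404000c05400340030000441019900080bdc00201080008180883)))) 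
(.nd (nat_lit 7) 
(.lf (nat_lit 1678098473) (dlOf (nat_lit 7) (nat_lit 0x1302b0000bc08044815401b40a800ea053002f029003301380194098000204a00ad022802900dc0128062002803000b0016804800b0019002400c800a00c200300004080046015800040aa004a04e0056025002680c8005c058013c0130000707007d00980003408013812800010040254064000030200020028180801))) 
(.lf (nat_lit 1009108137) (dlOf (nat_lit 4) (nat_lit 0x60e30002c01000c07180012408005838c000900401f800400420009082c02))))) 
(.nd (nat_lit 10) (.nd (nat_lit 21) 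
(.lf (nat_lit 604356713) (dlOf (nat_lit 1) (nat_lit 0x400080020002000a00081a0483))) 
(.lf (nat_lit 1881522281) (dlOf (nat_lit 1) (nat_lit 0x5c002001a0008f40a02)))) 
(.lf (nat_lit 1009108073) (dlOf (nat_lit 1) (nat_lit 0x2a0009082981))))) (.nd (nat_lit 7) 
(.nd (nat_lit 21) (.nd (nat_lit 22) 
(.lf (nat_lit 4026908713) (dlOf (nat_lit 3) (nat_lit 0xce01e002f00180009010014807800b40060002204000400280c0d01))) 
(.lf (nat_lit 2756034601) (dlOf (nat_lit 6) (nat_lit 0x180a0003204e0019026800600f401aa410005c0a80020051000c028000c8138004009a0010045001201e8035443800e815000180a60034051001902800100138008409a001c045001f01e8035404000d815000080a60030051001802800108138006c09a0006045001e01e80353c40002015000000040014004003c00181d0a02)))) 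
(.lf (nat_lit 2753937449) (dlOf (nat_lit 2) (nat_lit 0x8508001a0040004004000200080a0982)))) 
(.nd (nat_lit 6) (.lf (nat_lit 2754464169) (dlOf (nat_lit 1) (nat_lit 0x200180f4e81))) 
(.nd (nat_lit 27) (.lf (nat_lit 2751842537) (dlOf (nat_lit 1) (nat_lit 0x400400020018004b02))) 
(.lf (nat_lit 2886060265) (dlOf (nat_lit 2) (nat_lit 0x1900980006c080038008005000200200008144b03))))))))))) 
(.nd (nat_lit 5) (.nd (nat_lit 18) (.nd (nat_lit 29) (.nd (nat_lit 19) (.nd (nat_lit 30) 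
(.nd (nat_lit 26) (.nd (nat_lit 21) (.nd (nat_lit 3) (.nd (nat_lit 6) (.nd (nat_lit 7) 
(.lf (nat_lit 116497) (dlOf (nat_lit 1) (nat_lit 0xb800200260008003c02))) 
(.lf (nat_lit 402769041) (dlOf (nat_lit 1) (nat_lit 0x1d60018092b81)))) 
(.lf (nat_lit 58837457) (dlOf (nat_lit 1) (nat_lit 0x4002000200097e4e82)))) (.nd (nat_lit 8) 
(.lf (nat_lit 5357593) (dlOf (nat_lit 1) (nat_lit 0x400200020008350502))) 
(.lf (nat_lit 4563517721) (dlOf (nat_lit 1) (nat_lit 0xc80080038002003c0008090a83))))) 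
(.nd (nat_lit 6) (.nd (nat_lit 10) 
(.lf (nat_lit 23183377) (dlOf (nat_lit 3) (nat_lit 0x5d55b005a0c081290000004f20406ec00201700008b60502))) 
(.lf (nat_lit 61981713) (dlOf (nat_lit 1) (nat_lit 0x10008000400200020009922883)))) 
(.nd (nat_lit 12) (.lf (nat_lit 52543569) (dlOf (nat_lit 1) (nat_lit 0x1e0029550701))) 
(.lf (nat_lit 20041809) (dlOf (nat_lit 1) (nat_lit 0x1a00189d7d81)))))) (.nd (nat_lit 7) 
(.nd (nat_lit 3) (.nd (nat_lit 27) 
(.lf (nat_lit 2483142673) (dlOf (nat_lit 2) (nat_lit 0x9602800000018030880))) 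
(.lf (nat_lit 2348924945) (dlOf (nat_lit 2) (nat_lit 0x9602800000018030880)))) 
(.lf (nat_lit 470925337) (dlOf (nat_lit 1) (nat_lit 0x1b20018200501)))) (.nd (nat_lit 3) 
(.nd (nat_lit 6) 
(.lf (nat_lit 4496410001) (dlOf (nat_lit 1) (nat_lit 0x28008000c00200060008053603))) 
(.lf (nat_lit 6509678033) (dlOf (nat_lit 1) (nat_lit 0x400400020008146d02)))) 
(.lf (nat_lit 4630626521) (dlOf (nat_lit 1) (nat_lit 0x800400020008031902)))))) (.nd (nat_lit 8) 
(.nd (nat_lit 26) (.nd (nat_lit 3) (.nd (nat_lit 9) (.nd (nat_lit 11) 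
(.lf (nat_lit 3492922385) (dlOf (nat_lit 1) (nat_lit 0x200280f2881))) 
(.lf (nat_lit 1346489361) (dlOf (nat_lit 1) (nat_lit 0x800200020008f65f82)))) 
(.lf (nat_lit 1073857041) (dlOf (nat_lit 3) (nat_lit 0x20290024f810001014801254080068008000c00200020008018403)))) 
(.nd (nat_lit 20) (.lf (nat_lit 1344389145) (dlOf (nat_lit 1) (nat_lit 0x400200020008740002))) 
(.lf (nat_lit 1343340569) (dlOf (nat_lit 1) (nat_lit 0xe0028200501))))) (.nd (nat_lit 6) 
(.nd (nat_lit 9) (.lf (nat_lit 1140965393) (dlOf (nat_lit 1) (nat_lit 0x20018030001))) 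
(.lf (nat_lit 3556887057) (dlOf (nat_lit 1) (nat_lit 0xd000280d5081)))) 
(.lf (nat_lit 5435932753) (dlOf (nat_lit 1) (nat_lit 0x1000400040008040502))))) (.nd (nat_lit 26) 
(.nd (nat_lit 7) (.nd (nat_lit 3) 
(.lf (nat_lit 3221343569) (dlOf (nat_lit 1) (nat_lit 0x400400020008116a02))) 
(.lf (nat_lit 3221343577) (dlOf (nat_lit 2) (nat_lit 0x400000000018116a80)))) (.nd (nat_lit 6) 
(.lf (nat_lit 1345439121) (dlOf (nat_lit 2) (nat_lit 0x5e0b28006cc080028008000800200380008bb3603))) 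
(.lf (nat_lit 3221343697) (dlOf (nat_lit 1) (nat_lit 0x400400020008116d02))))) (.nd (nat_lit 3) 
(.nd (nat_lit 6) (.lf (nat_lit 1409403281) (dlOf (nat_lit 1) (nat_lit 0x20008004e81))) 
(.lf (nat_lit 3288449361) (dlOf (nat_lit 1) (nat_lit 0x8008001000200060008014d03)))) 
(.nd (nat_lit 10) (.lf (nat_lit 3288449369) (dlOf (nat_lit 1) (nat_lit 0x60028014d81))) 
(.lf (nat_lit 1409404249) (dlOf (nat_lit 1) (nat_lit 0x4002000a0008006a82)))))))) (.nd (nat_lit 20) 
(.nd (nat_lit 3) (.nd (nat_lit 27) (.nd (nat_lit 10) (.nd (nat_lit 21) 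
(.lf (nat_lit 4362715153) (dlOf (nat_lit 1) (nat_lit 0x4004000200080e0a02))) 
(.lf (nat_lit 27901969) (dlOf (nat_lit 2) (nat_lit 0x136a9000b3324000b20802c400200040008d40202)))) 
(.nd (nat_lit 7) (.lf (nat_lit 38388753) (dlOf (nat_lit 1) (nat_lit 0xc00200020009132882))) 
(.lf (nat_lit 44680337) (dlOf (nat_lit 1) (nat_lit 0x420029322b81))))) (.nd (nat_lit 7) 
(.nd (nat_lit 26) (.lf (nat_lit 134856721) (dlOf (nat_lit 1) (nat_lit 0x16000400b200080d0882))) 
(.lf (nat_lit 201965585) (dlOf (nat_lit 1) (nat_lit 0x16000400b200080d0882)))) 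
(.lf (nat_lit 5772001425) (dlOf (nat_lit 1) (nat_lit 0x20028031081))))) (.nd (nat_lit 6) 
(.nd (nat_lit 21) (.nd (nat_lit 26) 
(.lf (nat_lit 134856729) (dlOf (nat_lit 1) (nat_lit 0x2200080d0881))) 
(.lf (nat_lit 201965593) (dlOf (nat_lit 1) (nat_lit 0x2200080d0881)))) 
(.lf (nat_lit 2736153) (dlOf (nat_lit 9) (nat_lit 0x6a5d400300000016904000497500020000005a010012297000054a40002a3d00015168005542000ea970004147e00154040044a5e005851f800ba8b400493040014208000ea5e001051f8005041001d297800a947e0012a2d00084c10004e020002a91c00000040004002000e00081a0a82)))) 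
(.nd (nat_lit 10) (.nd (nat_lit 26) 
(.lf (nat_lit 1342816345) (dlOf (nat_lit 1) (nat_lit 0x2600180d1181))) 
(.lf (nat_lit 470401113) (dlOf (nat_lit 1) (nat_lit 0x2600180d1181)))) (.nd (nat_lit 7) 
(.lf (nat_lit 34194521) (dlOf (nat_lit 1) (nat_lit 0x60028fb2901))) 
(.lf (nat_lit 61457881) (dlOf (nat_lit 1) (nat_lit 0x400400020009923602))))))) (.nd (nat_lit 8) 
(.nd (nat_lit 3) (.nd (nat_lit 9) (.nd (nat_lit 23) 
(.lf (nat_lit 24756241) (dlOf (nat_lit 3) (nat_lit 0x4bc900045d70000d4100012eb80000004003400400120008bb0202))) 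
(.lf (nat_lit 16367633) (dlOf (nat_lit 18) (nat_lit 0x42b58000a00800315ac0004e04002cad60002602001a56b0002246000091d80003a0c0018ad6000648c000d23b0000701800515ac002091800104760000d83000a2b58000923000308ec000180600044760000b8100082b58004123000308ec0001406001a56b000b2460000401000595ac00249180000e04000c56b00042460000301000415ac00149180016476000028300012b5800391d800006080038ad6000448c000010200062b58000040800615ac00289180000004003a0018890301)))) 
(.nd (nat_lit 11) (.lf (nat_lit 7980561) (dlOf (nat_lit 1) (nat_lit 0x8008001000200080008513703))) 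
(.lf (nat_lit 20565521) (dlOf (nat_lit 2) (nat_lit 0x740c0003202000200189d7081))))) 
(.nd (nat_lit 7) (.lf (nat_lit 22659097) (dlOf (nat_lit 1) (nat_lit 0x400400020008b10502))) 
(.lf (nat_lit 60407961) (dlOf (nat_lit 1) (nat_lit 0x20029852b81))))) (.nd (nat_lit 6) 
(.nd (nat_lit 3) (.nd (nat_lit 7) 
(.lf (nat_lit 7980817) (dlOf (nat_lit 1) (nat_lit 0x40028513c01))) 
(.lf (nat_lit 20564881) (dlOf (nat_lit 1) (nat_lit 0x200289d5c81)))) 
(.lf (nat_lit 7980441) (dlOf (nat_lit 1) (nat_lit 0x10008001400200040008513603)))) (.nd (nat_lit 3) 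
(.nd (nat_lit 7) (.lf (nat_lit 7981393) (dlOf (nat_lit 1) (nat_lit 0x400400020008514e02))) 
(.lf (nat_lit 33145809) (dlOf (nat_lit 1) (nat_lit 0x4004000c0008f52882)))) 
(.lf (nat_lit 7984601) (dlOf (nat_lit 4) (nat_lit 0x625e0000900800692f0001c94e0002004000c4bc00042538000741000b00080030002000c0008519b03)))))))) 
(.nd (nat_lit 6) (.nd (nat_lit 27) (.nd (nat_lit 3) (.nd (nat_lit 9) (.nd (nat_lit 10) 
(.nd (nat_lit 8) (.lf (nat_lit 5972805777) (dlOf (nat_lit 1) (nat_lit 0x40018144801))) 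
(.lf (nat_lit 1881260433) (dlOf (nat_lit 1) (nat_lit 0x18004000e0008e81002)))) (.nd (nat_lit 11) 
(.lf (nat_lit 4899063185) (dlOf (nat_lit 1) (nat_lit 0x400200020008053602))) 
(.lf (nat_lit 805424529) (dlOf (nat_lit 1) (nat_lit 0x400400020008116d02))))) (.nd (nat_lit 7) 
(.nd (nat_lit 8) (.lf (nat_lit 6241240593) (dlOf (nat_lit 1) (nat_lit 0x480028053701))) 
(.lf (nat_lit 5972805393) (dlOf (nat_lit 1) (nat_lit 0x400400020008143c02)))) 
(.lf (nat_lit 2751580049) (dlOf (nat_lit 1) (nat_lit 0x8008000400200020008004203))))) 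
(.nd (nat_lit 26) (.nd (nat_lit 7) (.nd (nat_lit 19) 
(.lf (nat_lit 1881260057) (dlOf (nat_lit 1) (nat_lit 0x1c00400120008e80002))) 
(.lf (nat_lit 805945369) (dlOf (nat_lit 2) (nat_lit 0xc8030002a8040004004004800081f0a82)))) 
(.lf (nat_lit 805428121) (dlOf (nat_lit 1) (nat_lit 0x800800040020002000811bc83)))) 
(.nd (nat_lit 9) (.nd (nat_lit 10) 
(.lf (nat_lit 1678360601) (dlOf (nat_lit 2) (nat_lit 0xc8030002b2040004004004800081f0a82))) 
(.lf (nat_lit 2751579161) (dlOf (nat_lit 1) (nat_lit 0x20008002881)))) 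
(.lf (nat_lit 1677842969) (dlOf (nat_lit 1) (nat_lit 0x2000811b281)))))) (.nd (nat_lit 19) 
(.nd (nat_lit 3) (.nd (nat_lit 7) (.nd (nat_lit 8) 
(.lf (nat_lit 2013380625) (dlOf (nat_lit 1) (nat_lit 0x20018030001))) 
(.lf (nat_lit 939640593) (dlOf (nat_lit 1) (nat_lit 0x20018143c01)))) 
(.lf (nat_lit 2080490641) (dlOf (nat_lit 1) (nat_lit 0x3580018092b81)))) (.nd (nat_lit 10) 
(.lf (nat_lit 3959544345) (dlOf (nat_lit 1) (nat_lit 0x4001811b281))) 
(.lf (nat_lit 1812057625) (dlOf (nat_lit 3) (nat_lit 0x320000000c8100020000000600800380080010002000a0008147103))))) 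
(.nd (nat_lit 30) (.nd (nat_lit 3) (.nd (nat_lit 7) 
(.lf (nat_lit 2819211281) (dlOf (nat_lit 1) (nat_lit 0x200281f0301))) 
(.lf (nat_lit 1008321681) (dlOf (nat_lit 1) (nat_lit 0x400200020008b52b82)))) 
(.lf (nat_lit 1009369113) (dlOf (nat_lit 1) (nat_lit 0x10008001000200100009130403)))) 
(.nd (nat_lit 7) (.nd (nat_lit 26) 
(.lf (nat_lit 3892953105) (dlOf (nat_lit 4) (nat_lit 0x100180039e81000100c8002806000e080800040320000002004400082a0a01))) 
(.lf (nat_lit 4228497425) (dlOf (nat_lit 1) (nat_lit 0x4004000200080e0a02)))) 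
(.lf (nat_lit 6375981201) (dlOf (nat_lit 1) (nat_lit 0x20028031081))))))) (.nd (nat_lit 28) 
(.nd (nat_lit 27) (.nd (nat_lit 11) (.nd (nat_lit 3) (.nd (nat_lit 10) 
(.lf (nat_lit 2754199633) (dlOf (nat_lit 5) (nat_lit 0x4210d0000d0080350868000640400044340002f02003a2240017104800a0424000c1f600060ef003d0000000a83000a80080128002000800080c1903))) 
(.lf (nat_lit 1610728529) (dlOf (nat_lit 1) (nat_lit 0x4002000c0008092882)))) 
(.lf (nat_lit 2755772633) (dlOf (nat_lit 1) (nat_lit 0x200081b0481)))) (.nd (nat_lit 8) 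
(.nd (nat_lit 26) (.lf (nat_lit 5905696849) (dlOf (nat_lit 1) (nat_lit 0x400400020008144702))) 
(.lf (nat_lit 1677838417) (dlOf (nat_lit 1) (nat_lit 0x8008000400200020008114703)))) 
(.lf (nat_lit 2751584593) (dlOf (nat_lit 1) (nat_lit 0x2000800ab81))))) (.nd (nat_lit 3) 
(.nd (nat_lit 7) 
(.lf (nat_lit 3960062033) (dlOf (nat_lit 4) (nat_lit 0x10048000b808002002400058040670086030804000b101c0000a81800300080020002006a00081a1903))) 
(.lf (nat_lit 738314705) (dlOf (nat_lit 1) (nat_lit 0x60028094e81)))) (.nd (nat_lit 7) 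
(.lf (nat_lit 3960062041) (dlOf (nat_lit 2) (nat_lit 0x10220002002400440000000706000200081a1a81))) 
(.nd (nat_lit 8) (.nd (nat_lit 11) 
(.lf (nat_lit 6107021529) (dlOf (nat_lit 1) (nat_lit 0x800400020008031902))) 
(.lf (nat_lit 3959539929) (dlOf (nat_lit 2) (nat_lit 0x40450001b818114a80)))) 
(.lf (nat_lit 3959539673) (dlOf (nat_lit 1) (nat_lit 0x400400020008114502))))))) (.nd (nat_lit 7) 
(.nd (nat_lit 8) (.nd (nat_lit 3) (.nd (nat_lit 19) 
(.lf (nat_lit 5301715025) (dlOf (nat_lit 1) (nat_lit 0x1000400040008040502))) 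
(.lf (nat_lit 4096376913) (dlOf (nat_lit 2) (nat_lit 0x2013400000018100680)))) 
(.lf (nat_lit 4096376921) (dlOf (nat_lit 1) (nat_lit 0x60008100701)))) (.nd (nat_lit 10) 
(.nd (nat_lit 26) (.lf (nat_lit 4026646865) (dlOf (nat_lit 1) (nat_lit 0x60028014d81))) 
(.lf (nat_lit 1946272081) (dlOf (nat_lit 1) (nat_lit 0x40028014d01)))) (.nd (nat_lit 3) 
(.lf (nat_lit 805424465) (dlOf (nat_lit 1) (nat_lit 0x50008008c00200500008116a03))) 
(.lf (nat_lit 805428569) (dlOf (nat_lit 1) (nat_lit 0x6001811c901)))))) (.nd (nat_lit 11) 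
(.nd (nat_lit 9) (.nd (nat_lit 21) 
(.lf (nat_lit 1946272209) (dlOf (nat_lit 2) (nat_lit 0x380a40000004012400400280008017102))) 
(.lf (nat_lit 1881260497) (dlOf (nat_lit 2) (nat_lit 0x181940000004002000400160008e81182)))) 
(.lf (nat_lit 3087124433) (dlOf (nat_lit 1) (nat_lit 0xea0028144501)))) (.nd (nat_lit 3) 
(.nd (nat_lit 8) 
(.lf (nat_lit 3087124689) (dlOf (nat_lit 1) (nat_lit 0x8008000400200020008144a03))) 
(.lf (nat_lit 805424593) (dlOf (nat_lit 1) (nat_lit 0x400400020008116d02)))) 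
(.lf (nat_lit 3087124697) (dlOf (nat_lit 1) (nat_lit 0x8008000400200020008144a83))))))))) 
(.nd (nat_lit 3) (.nd (nat_lit 28) (.nd (nat_lit 19) (.nd (nat_lit 29) (.nd (nat_lit 7) 
(.nd (nat_lit 27) (.nd (nat_lit 21) 
(.lf (nat_lit 4362453009) (dlOf (nat_lit 2) (nat_lit 0x5a04f0000a018080380))) 
(.lf (nat_lit 44417041) (dlOf (nat_lit 1) (nat_lit 0x20029310081)))) (.nd (nat_lit 31) 
(.lf (nat_lit 1208336401) (dlOf (nat_lit 1) (nat_lit 0xc00280c0001))) 
(.lf (nat_lit 3355820049) (dlOf (nat_lit 2) (nat_lit 0x6c0110000f818120280))))) (.nd (nat_lit 6) 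
(.nd (nat_lit 8) (.lf (nat_lit 4496670865) (dlOf (nat_lit 1) (nat_lit 0xc00400020008111082))) 
(.lf (nat_lit 52806033) (dlOf (nat_lit 1) (nat_lit 0x400400020009571002)))) (.nd (nat_lit 8) 
(.lf (nat_lit 1208336593) (dlOf (nat_lit 1) (nat_lit 0x200180c1b81))) 
(.lf (nat_lit 20303313) (dlOf (nat_lit 3) (nat_lit 0x34e160007181001270b0001d80800a8008003400205b000089d6d03)))))) 
(.nd (nat_lit 26) (.nd (nat_lit 30) (.nd (nat_lit 32) 
(.lf (nat_lit 537247761) (dlOf (nat_lit 2) (nat_lit 0x140a8002d10200040028070501))) 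
(.lf (nat_lit 4832215057) (dlOf (nat_lit 1) (nat_lit 0x400200020008110002)))) (.nd (nat_lit 6) 
(.lf (nat_lit 1610989585) (dlOf (nat_lit 2) (nat_lit 0x52020004ca8180b0000))) 
(.lf (nat_lit 1610989649) (dlOf (nat_lit 4) (nat_lit 0xc7029806800d40168042017401d00c200c0000382805f014c01400420000c04015a053004101080230000000000c0068004001400080b0682))))) 
(.nd (nat_lit 6) (.nd (nat_lit 27) 
(.lf (nat_lit 1678098449) (dlOf (nat_lit 9) (nat_lit 0x540ac006c054001002680138124032408a004c0430012018007280b4009c058005800600b298a008702b0002014c019808a001802f008b016800b801802ca218026c0ac0150055005e029802f013800cc09800e004a00500188029004802a282000d40ac021801300060050053a0180248154029300401180aa0147e0200240510013581002a02b000d015400400a6000604e0235009800000280ee800802e000200f40008180503))) 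
(.lf (nat_lit 738574353) (dlOf (nat_lit 2) (nat_lit 0x52020001fd8180b0000)))) 
(.lf (nat_lit 738574417) (dlOf (nat_lit 4) (nat_lit 0xc7029806800d40168042017401d00c200c0000382805f014c01400420000c04015a053004101080230000000000c0068004001400080b0682)))))) 
(.nd (nat_lit 7) (.nd (nat_lit 6) (.nd (nat_lit 8) (.nd (nat_lit 20) 
(.lf (nat_lit 13484049) (dlOf (nat_lit 2) (nat_lit 0x683ee00ecf018730880))) 
(.lf (nat_lit 14532625) (dlOf (nat_lit 2) (nat_lit 0x1a95800103998000a0100128008012400200440008760303)))) 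
(.nd (nat_lit 10) 
(.lf (nat_lit 20824337) (dlOf (nat_lit 1) (nat_lit 0x8e8008044c002020400089e4a03))) 
(.lf (nat_lit 8246545) (dlOf (nat_lit 1) (nat_lit 0x400200020008519682))))) (.nd (nat_lit 8) 
(.lf (nat_lit 51235409) (dlOf (nat_lit 1) (nat_lit 0x2400400020009515282))) (.nd (nat_lit 9) 
(.lf (nat_lit 12435793) (dlOf (nat_lit 1) (nat_lit 0x4002000200086c0682))) 
(.lf (nat_lit 19782481) (dlOf (nat_lit 1) (nat_lit 0x1c004001c00089dbc82)))))) (.nd (nat_lit 11) 
(.nd (nat_lit 6) (.nd (nat_lit 8) 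
(.lf (nat_lit 41796753) (dlOf (nat_lit 1) (nat_lit 0x20019242b81))) 
(.lf (nat_lit 43894161) (dlOf (nat_lit 1) (nat_lit 0x300080018002000800092a3603)))) 
(.lf (nat_lit 20824273) (dlOf (nat_lit 1) (nat_lit 0x1c00289e3c01)))) (.nd (nat_lit 6) 
(.nd (nat_lit 20) (.lf (nat_lit 36555153) (dlOf (nat_lit 1) (nat_lit 0x20019074e81))) 
(.lf (nat_lit 33409425) (dlOf (nat_lit 1) (nat_lit 0x20018f54e81)))) 
(.lf (nat_lit 36555217) (dlOf (nat_lit 1) (nat_lit 0x20019074e81))))))) (.nd (nat_lit 27) 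
(.nd (nat_lit 29) (.nd (nat_lit 6) (.nd (nat_lit 7) (.nd (nat_lit 26) (.nd (nat_lit 30) 
(.lf (nat_lit 2416295953) (dlOf (nat_lit 2) (nat_lit 0x3202000ed30180d0880))) 
(.lf (nat_lit 1342554129) (dlOf (nat_lit 1) (nat_lit 0x20008050a01)))) 
(.lf (nat_lit 1409662993) (dlOf (nat_lit 2) (nat_lit 0x140a8003510200040028070501)))) 
(.lf (nat_lit 1344133265) (dlOf (nat_lit 1) (nat_lit 0x200283da881)))) 
(.lf (nat_lit 1346748497) (dlOf (nat_lit 1) (nat_lit 0xa0009000701)))) (.nd (nat_lit 6) 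
(.nd (nat_lit 21) (.nd (nat_lit 30) 
(.lf (nat_lit 805683217) (dlOf (nat_lit 9) (nat_lit 0x26c0ac0150055005e029802f013800cc09800e004a00500188029004802d062000d40ac0218013000600500593c18024815402bf80401180aa015ed02002a056003602a00080134009c09201920450026021800900c0039405a004e02c002c0030053b050043815800100a600cc045000c017804580b4005c00c014ea0c00240510013c81002a02b000d015400400a6000604e0235009800000280ee800802e000200f40008180503))) 
(.lf (nat_lit 4026908689) (dlOf (nat_lit 1) (nat_lit 0x200280c0981)))) 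
(.lf (nat_lit 1881522193) (dlOf (nat_lit 1) (nat_lit 0x200008f40001)))) (.nd (nat_lit 21) 
(.lf (nat_lit 4026908753) (dlOf (nat_lit 6) (nat_lit 0x3603f001a012800d0084022803c003401b000d00a8001804000b80120003410012e01e000800d8000c8100128078000620400240000002402006a040000098180c1900))) 
(.lf (nat_lit 1881522257) (dlOf (nat_lit 6) (nat_lit 0x420718000fc08049838c0006c0401081c6000340200260e3000140100030718000000800d0008004400200400008f40703)))))) 
(.nd (nat_lit 29) (.nd (nat_lit 26) (.nd (nat_lit 6) 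
(.lf (nat_lit 2550513681) (dlOf (nat_lit 2) (nat_lit 0x3202000d208180d0880))) 
(.lf (nat_lit 3624259025) (dlOf (nat_lit 1) (nat_lit 0x120028146d01)))) (.nd (nat_lit 19) 
(.nd (nat_lit 31) (.lf (nat_lit 470138897) (dlOf (nat_lit 1) (nat_lit 0x20008050a01))) 
(.lf (nat_lit 2617622545) (dlOf (nat_lit 5) (nat_lit 0x2800bc0004204000c05e0002002007202f0000d010012018001e00bc0000008019400401220008100282)))) 
(.lf (nat_lit 470663185) (dlOf (nat_lit 1) (nat_lit 0x1800400420018150002))))) (.nd (nat_lit 10) 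
(.nd (nat_lit 31) (.lf (nat_lit 2080751633) (dlOf (nat_lit 1) (nat_lit 0xc00280c0001))) 
(.lf (nat_lit 4228235281) (dlOf (nat_lit 3) (nat_lit 0xa40740022031000b015800038180240000000000400f0002001c0008080302)))) 
(.nd (nat_lit 7) (.lf (nat_lit 6375720465) (dlOf (nat_lit 1) (nat_lit 0x40028003701))) 
(.lf (nat_lit 1009108113) (dlOf (nat_lit 4) (nat_lit 0x60e1002b03a002601cc001120c01901c20008802000e0e100043019082b80)))))))) 
(.nd (nat_lit 28) (.nd (nat_lit 20) (.nd (nat_lit 26) (.nd (nat_lit 6) (.nd (nat_lit 27) 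
(.nd (nat_lit 21) (.nd (nat_lit 30) 
(.lf (nat_lit 6442827801) (dlOf (nat_lit 1) (nat_lit 0x80080004002000200081d0a03))) 
(.lf (nat_lit 3221602329) (dlOf (nat_lit 2) (nat_lit 0x20230053d408050000801d800200360008160503)))) 
(.lf (nat_lit 48611353) (dlOf (nat_lit 1) (nat_lit 0x40029420101)))) (.nd (nat_lit 7) 
(.lf (nat_lit 134594585) (dlOf (nat_lit 2) (nat_lit 0xf804c0000004008c00400500008080502))) 
(.lf (nat_lit 2818949273) (dlOf (nat_lit 1) (nat_lit 0x1000400040008130282))))) (.nd (nat_lit 8) 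
(.nd (nat_lit 19) (.lf (nat_lit 1610989657) (dlOf (nat_lit 1) (nat_lit 0x200280b0701))) 
(.lf (nat_lit 53330009) (dlOf (nat_lit 2) (nat_lit 0x222628000a4080058008014000200080009590703)))) 
(.lf (nat_lit 29737305) (dlOf (nat_lit 1) (nat_lit 0xc8002003e0008e30882))))) (.nd (nat_lit 27) 
(.nd (nat_lit 29) (.nd (nat_lit 30) 
(.lf (nat_lit 4362453017) (dlOf (nat_lit 8) (nat_lit 0x49c04700a87010215023806300cc029f80802bc066014b002005e04700af0198052a8100c5011c03f8066014a00403c204700fa0198051f8100f5811c0284066000000400360028080501))) 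
(.lf (nat_lit 3288711193) (dlOf (nat_lit 2) (nat_lit 0x5403c0028012007ec8280c0a80)))) 
(.nd (nat_lit 7) 
(.lf (nat_lit 1678098457) (dlOf (nat_lit 2) (nat_lit 0x80ac0160302001c0008180501))) 
(.lf (nat_lit 2754464153) (dlOf (nat_lit 1) (nat_lit 0x200180f4e81))))) (.nd (nat_lit 6) 
(.nd (nat_lit 29) 
(.lf (nat_lit 201703449) (dlOf (nat_lit 2) (nat_lit 0xf804c0000004008c00400500008080502))) 
(.lf (nat_lit 3959799833) (dlOf (nat_lit 2) (nat_lit 0x202300597008050000801d800200360008160503)))) 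
(.lf (nat_lit 738574425) (dlOf (nat_lit 1) (nat_lit 0x200280b0701)))))) (.nd (nat_lit 6) 
(.nd (nat_lit 19) (.nd (nat_lit 7) (.nd (nat_lit 9) (.nd (nat_lit 21) 
(.lf (nat_lit 22396953) (dlOf (nat_lit 1) (nat_lit 0x400400020008ad0482))) 
(.lf (nat_lit 3522585) (dlOf (nat_lit 10) (nat_lit 0x171a0800a4cd600604e9002826c007680200171a0800a4cd6005e4e9002826c0076782000e136003af404001ccd601d760200186820025335800313a403a9a0c00acd04002c66b00ea6020014274807528080159a0803a920400c0d04004466b00322748015136003a86100088002000e0008200002)))) 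
(.lf (nat_lit 2754989593) (dlOf (nat_lit 1) (nat_lit 0xc004000200080f7102)))) 
(.lf (nat_lit 3522713) (dlOf (nat_lit 2) (nat_lit 0x3466000023018200180)))) (.nd (nat_lit 7) 
(.nd (nat_lit 8) 
(.lf (nat_lit 22921241) (dlOf (nat_lit 2) (nat_lit 0x84ef1000494040050004000e0008b40482))) 
(.lf (nat_lit 18727193) (dlOf (nat_lit 1) (nat_lit 0x20008970701)))) 
(.lf (nat_lit 8245913) (dlOf (nat_lit 1) (nat_lit 0x280080004002000c0008518c83))))) 
(.nd (nat_lit 7) (.nd (nat_lit 8) 
(.lf (nat_lit 9814105) (dlOf (nat_lit 2) (nat_lit 0x1c74800016018580680))) 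
(.lf (nat_lit 11911513) (dlOf (nat_lit 5) (nat_lit 0x2115140103a4c000158100805450041693000055040117514008ca4c00015010056d45002ae9300001204001a00286c0681)))) 
(.nd (nat_lit 9) (.nd (nat_lit 11) 
(.lf (nat_lit 11911385) (dlOf (nat_lit 3) (nat_lit 0x6a2800211020005498000ff8186c0480))) 
(.lf (nat_lit 8243417) (dlOf (nat_lit 2) (nat_lit 0x40b440007604001400400760018514a82)))) 
(.lf (nat_lit 20306649) (dlOf (nat_lit 1) (nat_lit 0x200189db981))))))) (.nd (nat_lit 26) 
(.nd (nat_lit 29) (.nd (nat_lit 21) (.nd (nat_lit 20) (.nd (nat_lit 22) 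
(.lf (nat_lit 1342554137) (dlOf (nat_lit 1) (nat_lit 0x20018050b01))) 
(.lf (nat_lit 1346748441) (dlOf (nat_lit 2) (nat_lit 0x4825800780ea004c07300020839000100)))) 
(.lf (nat_lit 1343602713) (dlOf (nat_lit 1) (nat_lit 0xc002001000082b0482)))) (.nd (nat_lit 6) 
(.lf (nat_lit 3492134937) (dlOf (nat_lit 1) (nat_lit 0x180080014002001000080a0903))) 
(.lf (nat_lit 3492660185) (dlOf (nat_lit 1) (nat_lit 0x200180f2881))))) (.nd (nat_lit 6) 
(.nd (nat_lit 21) (.nd (nat_lit 30) 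
(.lf (nat_lit 805683225) (dlOf (nat_lit 2) (nat_lit 0x80ac0149102001c0008180501))) 
(.lf (nat_lit 4026908697) (dlOf (nat_lit 2) (nat_lit 0x5403c0028012008318280c0a80)))) 
(.lf (nat_lit 1881522201) (dlOf (nat_lit 1) (nat_lit 0x3400200080008f40102)))) 
(.lf (nat_lit 1881000409) (dlOf (nat_lit 1) (nat_lit 0x420018dd4e81))))) (.nd (nat_lit 29) 
(.nd (nat_lit 20) (.nd (nat_lit 30) 
(.lf (nat_lit 470138905) (dlOf (nat_lit 1) (nat_lit 0x20018050b01))) 
(.lf (nat_lit 5838848025) (dlOf (nat_lit 1) (nat_lit 0x80080004002000200081d0a03)))) 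
(.lf (nat_lit 471187481) (dlOf (nat_lit 1) (nat_lit 0x4002000200082b0482)))) (.nd (nat_lit 6) 
(.nd (nat_lit 27) 
(.lf (nat_lit 3020275737) (dlOf (nat_lit 1) (nat_lit 0x20008001c002000a00081f0503))) 
(.nd (nat_lit 30) (.lf (nat_lit 3154493465) (dlOf (nat_lit 2) (nat_lit 0x16c000000120181c0480))) 
(.lf (nat_lit 4228235289) (dlOf (nat_lit 8) (nat_lit 0x49c04000b3e810215020006300c802cc20802bc0640162302005e04000af019005868100c5010003f8064016100403c204000fa0190057b4100f581000284064000000400360028080501))))) 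
(.nd (nat_lit 7) (.lf (nat_lit 872792153) (dlOf (nat_lit 1) (nat_lit 0x200180d1801))) 
(.lf (nat_lit 2080751833) (dlOf (nat_lit 1) (nat_lit 0x800280c1901)))))))))) (.nd (nat_lit 6) 
(.nd (nat_lit 18) (.nd (nat_lit 19) (.nd (nat_lit 28) (.nd (nat_lit 24) (.nd (nat_lit 10) 
(.nd (nat_lit 11) (.nd (nat_lit 21) (.nd (nat_lit 27) 
(.lf (nat_lit 5435932721) (dlOf (nat_lit 1) (nat_lit 0x20028040381))) 
(.lf (nat_lit 2348924977) (dlOf (nat_lit 2) (nat_lit 0x7e014000058080008008005400200240008030c83)))) 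
(.lf (nat_lit 6406193) (dlOf (nat_lit 1) (nat_lit 0xc0018420001)))) (.nd (nat_lit 3) 
(.lf (nat_lit 2147600945) (dlOf (nat_lit 1) (nat_lit 0x400400020008095182))) 
(.lf (nat_lit 1677838393) (dlOf (nat_lit 1) (nat_lit 0x400400020018114702))))) (.nd (nat_lit 3) 
(.nd (nat_lit 11) (.nd (nat_lit 7) 
(.lf (nat_lit 3355563569) (dlOf (nat_lit 2) (nat_lit 0x30178000f40800100080004002000400080a9c03))) 
(.lf (nat_lit 8504753) (dlOf (nat_lit 1) (nat_lit 0x400200020008513602)))) (.nd (nat_lit 26) 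
(.lf (nat_lit 6576786737) (dlOf (nat_lit 1) (nat_lit 0x400400020008146882))) 
(.lf (nat_lit 3825323313) (dlOf (nat_lit 1) (nat_lit 0x800200020008146882))))) (.nd (nat_lit 7) 
(.lf (nat_lit 2751579961) (dlOf (nat_lit 1) (nat_lit 0x20028003e01))) 
(.lf (nat_lit 48350393) (dlOf (nat_lit 2) (nat_lit 0x70000000000800a8008002000200080009402c83)))))) 
(.nd (nat_lit 23) (.nd (nat_lit 3) (.nd (nat_lit 7) 
(.lf (nat_lit 23183409) (dlOf (nat_lit 14) (nat_lit 0xc55a0004a618000540800240000002802063a9c203210918000848409801ae0634039001001b814700540eb40000002510000cab4000d4c30000601001faad80002404067956c005eab500284b900004018143aad8027956a0000f040222ab6000070100a455b00003408083aad80001204008d56c00008020046ab60000181007755b000004080008008041000200080008b60903))) 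
(.lf (nat_lit 20042417) (dlOf (nat_lit 1) (nat_lit 0x4002000200089d8c82)))) (.nd (nat_lit 7) 
(.lf (nat_lit 20040505) (dlOf (nat_lit 1) (nat_lit 0x4002000200089d5c02))) 
(.lf (nat_lit 20041913) (dlOf (nat_lit 1) (nat_lit 0x180080020002000a00089d7e83))))) 
(.nd (nat_lit 3) (.nd (nat_lit 21) (.nd (nat_lit 22) 
(.lf (nat_lit 25280561) (dlOf (nat_lit 1) (nat_lit 0x5d00080008002004c0008bf0b03))) 
(.lf (nat_lit 29474865) (dlOf (nat_lit 1) (nat_lit 0x5400400020008e10802)))) 
(.lf (nat_lit 27377713) (dlOf (nat_lit 4) (nat_lit 0x4a9f4000360400794d800017020012a6b00085198000581001c8008010000200020008cd0a03)))) 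
(.lf (nat_lit 58837561) (dlOf (nat_lit 1) (nat_lit 0x4400197e5201)))))) (.nd (nat_lit 7) 
(.nd (nat_lit 26) (.nd (nat_lit 3) (.nd (nat_lit 27) 
(.lf (nat_lit 2416033841) (dlOf (nat_lit 1) (nat_lit 0x20018020601))) 
(.lf (nat_lit 2550251569) (dlOf (nat_lit 1) (nat_lit 0x20018020601)))) 
(.lf (nat_lit 4563517753) (dlOf (nat_lit 9) (nat_lit 0xc02e000600f00010074000780c009805c002a01e000800e8000e81800380780007204000805c000401e0001b82000c0178000a80800280bc0004604006805a001801500030090000301800300540000004002c00400160018090b82)))) 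
(.nd (nat_lit 9) (.nd (nat_lit 27) 
(.lf (nat_lit 2483142705) (dlOf (nat_lit 2) (nat_lit 0x7e014000048080008008005400200240008030c83))) 
(.lf (nat_lit 5301714993) (dlOf (nat_lit 1) (nat_lit 0x20028040381)))) 
(.lf (nat_lit 1946272305) (dlOf (nat_lit 1) (nat_lit 0x2400200080008018002))))) (.nd (nat_lit 3) 
(.nd (nat_lit 8) (.nd (nat_lit 29) 
(.lf (nat_lit 4630626481) (dlOf (nat_lit 1) (nat_lit 0x800400020008031602))) 
(.lf (nat_lit 5167497393) (dlOf (nat_lit 1) (nat_lit 0x400400020008062d82)))) 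
(.lf (nat_lit 1342294449) (dlOf (nat_lit 1) (nat_lit 0x60028004e81)))) (.nd (nat_lit 8) 
(.nd (nat_lit 10) (.lf (nat_lit 3492923577) (dlOf (nat_lit 1) (nat_lit 0xa00280f4901))) 
(.lf (nat_lit 474072249) (dlOf (nat_lit 9) (nat_lit 0x3802e00044020022017000218100930b4005a0318027402e0003e0600220170001e01000a0b400010598001c2b00008156000d0a28004833c0008196000408300010398003805c000402a0003716000a15800080ab0000805c0006c0c00202d000161450008067800a805c0006a1000442d00010158000d0a28005033c003802e000000a00140019082c81)))) 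
(.lf (nat_lit 4697735609) (dlOf (nat_lit 6) (nat_lit 0x700b4002002a0000e04000c03400130178000181000100d0006c05e0000504001202f00002010010017800000080030008001000200080008091083))))))) 
(.nd (nat_lit 26) (.nd (nat_lit 3) (.nd (nat_lit 20) (.nd (nat_lit 21) (.nd (nat_lit 27) 
(.lf (nat_lit 3221864497) (dlOf (nat_lit 7) (nat_lit 0x2ca000000138100a001d805000000004c0804d0000000240200460000001181013500000008808007803800000040014002000c00081a0e82))) 
(.lf (nat_lit 3892953137) (dlOf (nat_lit 3) (nat_lit 0x200c000038080038064000c0300000004000e00082a0b81)))) 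
(.lf (nat_lit 3492397105) (dlOf (nat_lit 7) (nat_lit 0x7c6207000190104351038000c0080040848058041c031c20701650de800f0698004021c000a10c003f07d0000b8400630838069040e01ee1f2015f0de805d869801b021c002010c0001687004a1038000ac080bc881c00052040034004000800080c0e82)))) 
(.nd (nat_lit 7) (.nd (nat_lit 8) 
(.lf (nat_lit 26853425) (dlOf (nat_lit 1) (nat_lit 0x8008001000200040008c80703))) 
(.lf (nat_lit 20564785) (dlOf (nat_lit 1) (nat_lit 0x200089d5c01)))) 
(.lf (nat_lit 7981233) (dlOf (nat_lit 1) (nat_lit 0x500080028002000c0008514903))))) 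
(.nd (nat_lit 8) (.nd (nat_lit 22) (.nd (nat_lit 27) 
(.lf (nat_lit 1342816313) (dlOf (nat_lit 1) (nat_lit 0x200280d0b81))) 
(.lf (nat_lit 134856761) (dlOf (nat_lit 1) (nat_lit 0x29c004015800080d0b82)))) (.nd (nat_lit 20) 
(.lf (nat_lit 6930489) (dlOf (nat_lit 1) (nat_lit 0xc0018490901))) 
(.lf (nat_lit 5881913) (dlOf (nat_lit 1) (nat_lit 0xc0018400901))))) (.nd (nat_lit 10) 
(.lf (nat_lit 29999417) (dlOf (nat_lit 1) (nat_lit 0x140018e30701))) 
(.lf (nat_lit 49923385) (dlOf (nat_lit 1) (nat_lit 0x200194c3281)))))) (.nd (nat_lit 27) 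
(.nd (nat_lit 31) (.nd (nat_lit 3) 
(.lf (nat_lit 67747889) (dlOf (nat_lit 1) (nat_lit 0x80004000400182e0f02))) 
(.lf (nat_lit 1409925177) (dlOf (nat_lit 2) (nat_lit 0x3302f8000b00802200080058002001400080a0b83)))) 
(.nd (nat_lit 21) (.lf (nat_lit 3557408817) (dlOf (nat_lit 1) (nat_lit 0x200281f0a01))) 
(.lf (nat_lit 4096376881) (dlOf (nat_lit 5) (nat_lit 0x540a8002a041001501d000100c800492100224268002430200cc13400a00000008fc1000384d0003e004012800200280008100482))))) 
(.nd (nat_lit 28) (.nd (nat_lit 3) 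
(.lf (nat_lit 3960062001) (dlOf (nat_lit 1) (nat_lit 0x600081a0f81))) 
(.lf (nat_lit 201965625) (dlOf (nat_lit 1) (nat_lit 0x29c004015800080d0b82)))) (.nd (nat_lit 7) 
(.nd (nat_lit 20) 
(.lf (nat_lit 3154755633) (dlOf (nat_lit 4) (nat_lit 0x1d0320001018000440a4005c04f0001026800e8050000141800540c80002052000a027800500500001210008c0c8000c0470007022800000180178008006800200040008320f03))) 
(.lf (nat_lit 471449649) (dlOf (nat_lit 2) (nat_lit 0x1008e0001f818300b80)))) 
(.lf (nat_lit 6375981233) (dlOf (nat_lit 3) (nat_lit 0x5380a00006604075c050017e02600250128016008c01d8044009a020003f00c0000c838175000806dc00206f60008031603)))))))) 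
(.nd (nat_lit 29) (.nd (nat_lit 30) (.nd (nat_lit 23) (.nd (nat_lit 19) (.nd (nat_lit 3) 
(.nd (nat_lit 20) 
(.lf (nat_lit 2617622577) (dlOf (nat_lit 1) (nat_lit 0xd80080030002007c0008100d83))) 
(.lf (nat_lit 1425457) (dlOf (nat_lit 1) (nat_lit 0x2400180c0c81)))) 
(.lf (nat_lit 7716921) (dlOf (nat_lit 1) (nat_lit 0xa00184d0c81)))) (.nd (nat_lit 3) 
(.nd (nat_lit 8) 
(.lf (nat_lit 69059761) (dlOf (nat_lit 2) (nat_lit 0x6073000e8000000be08000c004002400088a2c02))) 
(.lf (nat_lit 36555185) (dlOf (nat_lit 1) (nat_lit 0x20019074e81)))) 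
(.lf (nat_lit 18726969) (dlOf (nat_lit 1) (nat_lit 0x2c002000c0008970002))))) (.nd (nat_lit 20) 
(.nd (nat_lit 3) (.nd (nat_lit 9) 
(.lf (nat_lit 25542705) (dlOf (nat_lit 1) (nat_lit 0xc0028c10001))) 
(.lf (nat_lit 8767025) (dlOf (nat_lit 1) (nat_lit 0x20018513781)))) 
(.lf (nat_lit 29737017) (dlOf (nat_lit 1) (nat_lit 0xa0008001400200020008e30003)))) 
(.nd (nat_lit 3) (.nd (nat_lit 19) 
(.lf (nat_lit 30785585) (dlOf (nat_lit 1) (nat_lit 0x800200020008e50b82))) 
(.lf (nat_lit 16629809) (dlOf (nat_lit 6) (nat_lit 0x420000001480800e800000096040607432006995e029ebfc8090df8c005d2a4053e92b00654728142a3640030fa203e67af02be3cd801a1dc8004ceb2049473702b6396815e9c800ae0e24061870800c637b015e9ba40230d9e05686b402be34981379044098c7ae027e000000199a0068d0c8043dfe400051ca00828d9001e38900909c20012cdec00306b400183498033904400ec0000003016001f83f0005be68000881001200080f74002061800088c0803)))) 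
(.lf (nat_lit 11911353) (dlOf (nat_lit 2) (nat_lit 0x1a858000000800a80080004002001800086c0383)))))) 
(.nd (nat_lit 3) (.nd (nat_lit 19) (.nd (nat_lit 26) 
(.lf (nat_lit 5637521457) (dlOf (nat_lit 1) (nat_lit 0x20028100381))) (.nd (nat_lit 28) 
(.lf (nat_lit 3288711217) (dlOf (nat_lit 8) (nat_lit 0x273007e14ac02704f5010855b0078255003615c6012058b004851300000006c2007d804e00035020c9c03f0a6e01385638078196c036008a0170b3300901f60024282c0000003410002e027000198104240130241807805dc03609fe012046d008800d80240d6c0000002e0e029803b0443013007c8060005802e08e8011000168500010138101807809cc0240010000000158480c0e80))) 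
(.lf (nat_lit 1409663025) (dlOf (nat_lit 2) (nat_lit 0x1700a8000250200080028070901))))) 
(.nd (nat_lit 8) (.nd (nat_lit 9) 
(.lf (nat_lit 3557670961) (dlOf (nat_lit 4) (nat_lit 0xc0000006b02000e0750000901000303a80000008002800800dc002001000082a0803))) 
(.lf (nat_lit 3493708337) (dlOf (nat_lit 1) (nat_lit 0x4002000200081b0f02)))) 
(.lf (nat_lit 3493708081) (dlOf (nat_lit 1) (nat_lit 0x80080008002000200081b0503))))) 
(.nd (nat_lit 22) (.nd (nat_lit 21) 
(.lf (nat_lit 3288711225) (dlOf (nat_lit 3) (nat_lit 0x28080007c0280003504011200f000190180c1300))) 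
(.lf (nat_lit 3492134969) (dlOf (nat_lit 2) (nat_lit 0xa0460000b00800180080014002000c00080a0b83)))) 
(.nd (nat_lit 31) 
(.lf (nat_lit 1346748473) (dlOf (nat_lit 1) (nat_lit 0x98008001c00200200009000583))) 
(.lf (nat_lit 3494232121) (dlOf (nat_lit 9) (nat_lit 0x2c0480001581001202600007c0800901300003c04006c0840000e020012042000068100210210000280800501080001204003c0940000602000e00181d0b81))))))) 
(.nd (nat_lit 31) (.nd (nat_lit 26) (.nd (nat_lit 3) (.nd (nat_lit 21) (.nd (nat_lit 28) 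
(.lf (nat_lit 1610989617) (dlOf (nat_lit 4) (nat_lit 0x7e005300ad02601ff00d41064042083601d040e00c0055802810dc0000024910011e05600860298001013c024809801240350098010804e00740248030002600a00b600000091c50044814c02bc042001f00402c800180b0481))) 
(.lf (nat_lit 805683249) (dlOf (nat_lit 20) (nat_lit 0x3681580005e0400440ac0002e0200f00560001681003b02b0000b00800d815800340aa000120404ce05500f902a00e4814c000c0a4013404e00e40260071812800c8092000a047013b022805d810c035006e03500310014018009f80b4071c058013a01601af0090099002800cc01003840060170000000040b0108815400c40a8041605301cf0270036013004f409401d404500d601b80d280c400f805e006a02d0158016002e00ac000c048022001601fb009002b8040017401402ac006012c00000003ca00ad8158010c0aa007a054011b02980448148018009c007c04c014f025000780dc056006400ce0310052016807e00b00068048041401300950050009002002ec00c0000e24026e056015a02a80c5014c0270094010e032009e017803400b003740560022029007d01201ee804c027c020032600a00a300400b700180001a3c00700ac0000c0201200560000581001f025000028080328128000120400840ac004c0550084029803881380524094008c0450138019004d00c402a40260012012002e0030000205800581280000e0400380940000402025a03200001810063025004b80c80000208001c08a002803200d6009800000181eb8008072000204dc0008180903))))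 
(.lf (nat_lit 1881522225) (dlOf (nat_lit 1) (nat_lit 0x1400200060008f40382)))) (.nd (nat_lit 28) 
(.lf (nat_lit 1610989625) (dlOf (nat_lit 1) (nat_lit 0x44004001600080b0482))) 
(.lf (nat_lit 1879425081) (dlOf (nat_lit 1) (nat_lit 0x400200020008140782))))) (.nd (nat_lit 27) 
(.nd (nat_lit 28) 
(.lf (nat_lit 1678098481) (dlOf (nat_lit 3) (nat_lit 0x920560001a810004022800a810c0018058000140600300018180981))) 
(.lf (nat_lit 6241501233) (dlOf (nat_lit 1) (nat_lit 0x20028100381)))) (.nd (nat_lit 3) 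
(.nd (nat_lit 7) 
(.lf (nat_lit 738574385) (dlOf (nat_lit 4) (nat_lit 0x7e005300ad02601ff00d41064042083601d040e00c0055802810dc0000024910011e05600860298001013c024809801240350098010804e00740248030002600a00b600000091c50044814c02bc042001f00402c800180b0481))) 
(.lf (nat_lit 1009108145) (dlOf (nat_lit 7) (nat_lit 0x940e2008103a80017c10068038802b01c0014607a015603a80b181cc000ba14074c1c6008a0760002c82009b07180ae038801980ec0005706015e0e3003b03b000148100f6038c00c40ec0004b0405a00029082c01)))) 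
(.lf (nat_lit 738574393) (dlOf (nat_lit 1) (nat_lit 0x44004001600080b0482)))))) (.nd (nat_lit 21) 
(.nd (nat_lit 26) (.nd (nat_lit 19) (.nd (nat_lit 27) 
(.lf (nat_lit 4026908721) (dlOf (nat_lit 7) (nat_lit 0x138104026807e014a027003d0108093007800b00360324012008a0048000d84002c809c0006a0400a807e0154027012900f00c900480006810026004c021c01e0189009007880440005c10020c04c01de0110001682009e013008d807806600240216011000158480c0f80))) 
(.lf (nat_lit 3892690993) (dlOf (nat_lit 2) (nat_lit 0x16c000000120181c0900)))) 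
(.lf (nat_lit 2819473457) (dlOf (nat_lit 4) (nat_lit 0xc0000006b02000e0750000901000303a80000008002800800dc002001000082a0803)))) 
(.nd (nat_lit 3) (.nd (nat_lit 7) 
(.lf (nat_lit 2886059825) (dlOf (nat_lit 1) (nat_lit 0x680080004002000e0008143d83))) 
(.lf (nat_lit 2886059953) (dlOf (nat_lit 1) (nat_lit 0x20028144381)))) 
(.lf (nat_lit 2756034617) (dlOf (nat_lit 9) (nat_lit 0x2c0480001581001202600007c0800901300003c04006c0840000e020012042000068100210210000280800501080001204003c0940000602000e00181d0b81))))) 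
(.nd (nat_lit 9) (.nd (nat_lit 3) (.nd (nat_lit 8) 
(.lf (nat_lit 2753937457) (dlOf (nat_lit 1) (nat_lit 0x24004000c00080a0982))) 
(.lf (nat_lit 2755510577) (dlOf (nat_lit 1) (nat_lit 0x80080008002000200081b0503)))) 
(.lf (nat_lit 2753937465) (dlOf (nat_lit 1) (nat_lit 0x4004000200180a0b02)))) (.nd (nat_lit 3) 
(.nd (nat_lit 7) (.lf (nat_lit 2755510833) (dlOf (nat_lit 1) (nat_lit 0x4002000200081b0f02))) 
(.lf (nat_lit 2754989745) (dlOf (nat_lit 1) (nat_lit 0x9000080f7281)))) 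
(.lf (nat_lit 2754989625) (dlOf (nat_lit 1) (nat_lit 0x400400ba00080f7182))))))))) (.nd (nat_lit 7) 
(.nd (nat_lit 8) (.nd (nat_lit 28) (.nd (nat_lit 9) (.nd (nat_lit 18) (.nd (nat_lit 3) 
(.nd (nat_lit 11) 
(.lf (nat_lit 12697713) (dlOf (nat_lit 6) (nat_lit 0x178b44000360401a05a20000b02002a2d100005010001168800024080048b4400010040010002000400086d1582))) 
(.lf (nat_lit 5905696881) (dlOf (nat_lit 1) (nat_lit 0x400400020008144782)))) 
(.lf (nat_lit 2211961) (dlOf (nat_lit 1) (nat_lit 0x24004001c0008150082)))) (.nd (nat_lit 21) 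
(.lf (nat_lit 4832215153) (dlOf (nat_lit 1) (nat_lit 0xa0028110d81))) 
(.lf (nat_lit 2753937521) (dlOf (nat_lit 2) (nat_lit 0x2d054400036040004004000200180a1582))))) 
(.nd (nat_lit 18) (.nd (nat_lit 3) (.nd (nat_lit 23) 
(.lf (nat_lit 4899063409) (dlOf (nat_lit 1) (nat_lit 0x60008053981))) 
(.lf (nat_lit 8504945) (dlOf (nat_lit 1) (nat_lit 0x20028513981)))) 
(.lf (nat_lit 46779001) (dlOf (nat_lit 1) (nat_lit 0x60029385401)))) (.nd (nat_lit 20) 
(.lf (nat_lit 8767089) (dlOf (nat_lit 1) (nat_lit 0x80018513981))) 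
(.lf (nat_lit 43370097) (dlOf (nat_lit 1) (nat_lit 0xc00192a3981)))))) (.nd (nat_lit 19) 
(.nd (nat_lit 20) (.nd (nat_lit 3) 
(.lf (nat_lit 3492135025) (dlOf (nat_lit 7) (nat_lit 0xac08a0000c8100880450000600802782280001604020c1140000a0200e208a0000481007c04500002008006000801dc002002200080a1583))) 
(.nd (nat_lit 9) (.lf (nat_lit 3493970041) (dlOf (nat_lit 1) (nat_lit 0x20004000a00181b0082))) 
(.lf (nat_lit 1346488953) (dlOf (nat_lit 1) (nat_lit 0x20018f65401))))) (.nd (nat_lit 9) 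
(.nd (nat_lit 26) (.lf (nat_lit 1880211569) (dlOf (nat_lit 1) (nat_lit 0x34002000600087b1d02))) 
(.lf (nat_lit 1007796337) (dlOf (nat_lit 1) (nat_lit 0x400287b1d01)))) 
(.lf (nat_lit 1345439345) (dlOf (nat_lit 1) (nat_lit 0x20028bb3981))))) (.nd (nat_lit 26) 
(.nd (nat_lit 3) (.lf (nat_lit 1342816369) (dlOf (nat_lit 1) (nat_lit 0xa400080d1581))) 
(.lf (nat_lit 5772001401) (dlOf (nat_lit 1) (nat_lit 0x1e0018030c81)))) (.nd (nat_lit 21) 
(.lf (nat_lit 470401137) (dlOf (nat_lit 1) (nat_lit 0xa400080d1581))) 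
(.lf (nat_lit 472498289) (dlOf (nat_lit 1) (nat_lit 0x10008000400200020008991d03))))))) 
(.nd (nat_lit 10) (.nd (nat_lit 21) (.nd (nat_lit 27) (.nd (nat_lit 3) 
(.lf (nat_lit 1950065) (dlOf (nat_lit 1) (nat_lit 0x4000201040008150782))) 
(.lf (nat_lit 3221342585) (dlOf (nat_lit 1) (nat_lit 0x8008000400200020008114e83)))) 
(.nd (nat_lit 26) 
(.lf (nat_lit 5772001649) (dlOf (nat_lit 2) (nat_lit 0x8404a008001b00000028035800))) 
(.lf (nat_lit 6375981425) (dlOf (nat_lit 2) (nat_lit 0x8404a008001b00000028035800))))) 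
(.nd (nat_lit 11) (.nd (nat_lit 3) 
(.lf (nat_lit 12435825) (dlOf (nat_lit 1) (nat_lit 0x5400286c0781))) 
(.lf (nat_lit 23445881) (dlOf (nat_lit 1) (nat_lit 0x320018b80781)))) (.nd (nat_lit 19) 
(.lf (nat_lit 1345702257) (dlOf (nat_lit 1) (nat_lit 0x120018dd4e81))) 
(.lf (nat_lit 2754464113) (dlOf (nat_lit 1) (nat_lit 0x200180f4e81)))))) (.nd (nat_lit 11) 
(.nd (nat_lit 19) (.nd (nat_lit 26) 
(.lf (nat_lit 116593) (dlOf (nat_lit 1) (nat_lit 0x20028004081))) 
(.lf (nat_lit 1677838193) (dlOf (nat_lit 1) (nat_lit 0x8008000400200020008114083)))) 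
(.nd (nat_lit 3) (.lf (nat_lit 7980913) (dlOf (nat_lit 1) (nat_lit 0x400400020008514082))) 
(.lf (nat_lit 8242553) (dlOf (nat_lit 1) (nat_lit 0x20008000800200060008513503))))) 
(.nd (nat_lit 3) (.nd (nat_lit 28) 
(.lf (nat_lit 3221347697) (dlOf (nat_lit 1) (nat_lit 0x26002811c901))) (.nd (nat_lit 29) 
(.lf (nat_lit 3489783153) (dlOf (nat_lit 1) (nat_lit 0x1000800280020002000800c903))) 
(.lf (nat_lit 805428593) (dlOf (nat_lit 1) (nat_lit 0x300040004001811c902))))) 
(.lf (nat_lit 3489783161) (dlOf (nat_lit 1) (nat_lit 0x40040002000800c902))))))) (.nd (nat_lit 30) 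
(.nd (nat_lit 3) (.nd (nat_lit 21) (.nd (nat_lit 8) (.nd (nat_lit 10) 
(.lf (nat_lit 13746417) (dlOf (nat_lit 1) (nat_lit 0x80028750701))) 
(.lf (nat_lit 6509677809) (dlOf (nat_lit 1) (nat_lit 0x10004000a0008146582)))) (.nd (nat_lit 9) 
(.nd (nat_lit 10) 
(.lf (nat_lit 2751584753) (dlOf (nat_lit 1) (nat_lit 0x800800800020028000800b283))) 
(.lf (nat_lit 4697736689) (dlOf (nat_lit 1) (nat_lit 0x20028093601)))) 
(.lf (nat_lit 2751584241) (dlOf (nat_lit 1) (nat_lit 0x40040002000800a602))))) (.nd (nat_lit 8) 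
(.nd (nat_lit 19) (.lf (nat_lit 28688625) (dlOf (nat_lit 1) (nat_lit 0x400200020008da0602))) 
(.lf (nat_lit 20824305) (dlOf (nat_lit 1) (nat_lit 0x200289e4501)))) (.nd (nat_lit 9) 
(.nd (nat_lit 18) 
(.lf (nat_lit 11649521) (dlOf (nat_lit 2) (nat_lit 0xd86bc0017c04000c004002e00086c0d82))) 
(.lf (nat_lit 23446001) (dlOf (nat_lit 1) (nat_lit 0x800200040008b80d82)))) 
(.lf (nat_lit 53068785) (dlOf (nat_lit 1) (nat_lit 0xc9800804e000200b00009572883)))))) 
(.nd (nat_lit 9) (.nd (nat_lit 8) (.nd (nat_lit 11) 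
(.lf (nat_lit 20037881) (dlOf (nat_lit 1) (nat_lit 0x4004000200089d0a82))) 
(.lf (nat_lit 20306169) (dlOf (nat_lit 1) (nat_lit 0x200089da981)))) (.nd (nat_lit 19) 
(.lf (nat_lit 61982201) (dlOf (nat_lit 1) (nat_lit 0x8008005000200020009923683))) 
(.lf (nat_lit 7980537) (dlOf (nat_lit 1) (nat_lit 0x400200040008513682))))) (.nd (nat_lit 19) 
(.nd (nat_lit 18) (.lf (nat_lit 5100389369) (dlOf (nat_lit 1) (nat_lit 0x40018052881))) 
(.lf (nat_lit 38126585) (dlOf (nat_lit 1) (nat_lit 0x400200020009132882)))) (.nd (nat_lit 8) 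
(.lf (nat_lit 57264889) (dlOf (nat_lit 1) (nat_lit 0x50008000400200160009795a03))) 
(.lf (nat_lit 38388729) (dlOf (nat_lit 1) (nat_lit 0x400200020009132882))))))) (.nd (nat_lit 9) 
(.nd (nat_lit 3) (.nd (nat_lit 8) (.nd (nat_lit 10) 
(.lf (nat_lit 1346748657) (dlOf (nat_lit 1) (nat_lit 0x400400140019001e82))) 
(.lf (nat_lit 3355563249) (dlOf (nat_lit 2) (nat_lit 0x20190001300800100080004002000200080a9503)))) 
(.nd (nat_lit 11) 
(.lf (nat_lit 3493708273) (dlOf (nat_lit 2) (nat_lit 0x1d80000017c040030002000400081b0d82))) 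
(.nd (nat_lit 27) 
(.lf (nat_lit 1677842929) (dlOf (nat_lit 1) (nat_lit 0x800800040020002000811b283))) 
(.lf (nat_lit 3959544305) (dlOf (nat_lit 1) (nat_lit 0x40040002001811b282)))))) (.nd (nat_lit 26) 
(.nd (nat_lit 10) 
(.lf (nat_lit 1073857017) (dlOf (nat_lit 2) (nat_lit 0x19014800090080010008001000200160008017e03))) 
(.lf (nat_lit 3221343737) (dlOf (nat_lit 1) (nat_lit 0x20028116f81)))) (.nd (nat_lit 28) 
(.lf (nat_lit 3288449529) (dlOf (nat_lit 1) (nat_lit 0x20008017801))) 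
(.lf (nat_lit 1946272249) (dlOf (nat_lit 7) (nat_lit 0x480290051a0100260148028cc0801480a4014540400bc05200a290200480290051401002101480289c0800f00080080002001e0008017803)))))) 
(.nd (nat_lit 31) (.nd (nat_lit 3) (.nd (nat_lit 10) 
(.lf (nat_lit 5772788721) (dlOf (nat_lit 1) (nat_lit 0x20028092881))) 
(.lf (nat_lit 1677842417) (dlOf (nat_lit 1) (nat_lit 0x40040002000811a602)))) (.nd (nat_lit 10) 
(.lf (nat_lit 1346489337) (dlOf (nat_lit 1) (nat_lit 0x200080024002002a0008f65f03))) 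
(.lf (nat_lit 1677842425) (dlOf (nat_lit 1) (nat_lit 0x40040002000811a602))))) (.nd (nat_lit 18) 
(.nd (nat_lit 10) (.lf (nat_lit 3492922353) (dlOf (nat_lit 1) (nat_lit 0x200180f2881))) 
(.lf (nat_lit 3959543793) (dlOf (nat_lit 1) (nat_lit 0x40040002000811a602)))) (.nd (nat_lit 3) 
(.lf (nat_lit 3493184497) (dlOf (nat_lit 1) (nat_lit 0x4002000200080f2882))) 
(.lf (nat_lit 3492660217) (dlOf (nat_lit 1) (nat_lit 0x200180f2881))))))))))))

end

end Pool.Agent.Lib.MP_5854e1_co.Cz
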