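import Pool.Agent.Lib.MP_5854e1_co.DecRow

/-!
# Sparse corrections
-/

set_option autoImplicit false
set_option maxRecDepth 100000

namespace Pool.Agent.Lib.MP_5854e1_co.Cz

noncomputable section

noncomputable def tz87 : DT := (.nd (nat_lit 3) (.nd (nat_lit 4) (.nd (nat_lit 5) (.nd (nat_lit 18) 
(.nd (nat_lit 6) (.nd (nat_lit 29) (.nd (nat_lit 19) (.nd (nat_lit 31) (.nd (nat_lit 20) 
(.nd (nat_lit 7) (.lf (nat_lit 12697605) (dlOf (nat_lit 2) (nat_lit 0x12a3800c1302000200186d0001))) 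
(.lf (nat_lit 8504709) (dlOf (nat_lit 1) (nat_lit 0x400200020008513602)))) (.nd (nat_lit 22) 
(.lf (nat_lit 17940485) (dlOf (nat_lit 1) (nat_lit 0x120018900001))) 
(.lf (nat_lit 47300613) (dlOf (nat_lit 1) (nat_lit 0x280080004002000e00093d0003))))) 
(.nd (nat_lit 27) (.nd (nat_lit 7) 
(.lf (nat_lit 2483142661) (dlOf (nat_lit 1) (nat_lit 0x40028030001))) 
(.lf (nat_lit 3221347717) (dlOf (nat_lit 1) (nat_lit 0x4001811c901)))) (.nd (nat_lit 30) 
(.lf (nat_lit 2348924933) (dlOf (nat_lit 1) (nat_lit 0x40028030001))) 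
(.lf (nat_lit 3422666757) (dlOf (nat_lit 4) (nat_lit 0x800d40174804001806a00b920200200350001013802e44100008008001000200020008030003)))))) 
(.nd (nat_lit 21) (.nd (nat_lit 27) (.nd (nat_lit 22) 
(.lf (nat_lit 1342816261) (dlOf (nat_lit 1) (nat_lit 0x48004001400180d0002))) 
(.lf (nat_lit 21610501) (dlOf (nat_lit 5) (nat_lit 0x15ebd005d0808019f5e802e80040033af40173b020053d7a00b97818a50000)))) 
(.nd (nat_lit 7) (.lf (nat_lit 470401029) (dlOf (nat_lit 1) (nat_lit 0x48004001400180d0002))) 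
(.lf (nat_lit 5772001413) (dlOf (nat_lit 1) (nat_lit 0x10c002000c0008030f02))))) (.nd (nat_lit 7) 
(.nd (nat_lit 20) (.nd (nat_lit 23) 
(.lf (nat_lit 36290565) (dlOf (nat_lit 1) (nat_lit 0x400400020009060002))) 
(.lf (nat_lit 11124741) (dlOf (nat_lit 1) (nat_lit 0x1400400020008660002)))) 
(.lf (nat_lit 24756229) (dlOf (nat_lit 6) (nat_lit 0xb2f50005977a0191d040008bd400045de80647010006b064001d7a8001abbd00c8d0300165ea000b2ef40310408005d79e0020bb8003a5868056b41800d8008046c002000e0008bb0003)))) 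
(.nd (nat_lit 8) (.lf (nat_lit 23707781) (dlOf (nat_lit 1) (nat_lit 0xc00200020008b80102))) 
(.lf (nat_lit 7980421) (dlOf (nat_lit 1) (nat_lit 0x170008002800200040008513603))))))) 
(.nd (nat_lit 7) (.nd (nat_lit 8) (.nd (nat_lit 19) (.nd (nat_lit 26) 
(.lf (nat_lit 2684469253) (dlOf (nat_lit 4) (nat_lit 0x800d400c1e04001806a005ff02002003500010138017f0100008008001000200020008030003))) 
(.lf (nat_lit 6375456773) (dlOf (nat_lit 1) (nat_lit 0x400400020008000002)))) (.nd (nat_lit 27) 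
(.lf (nat_lit 4096376837) (dlOf (nat_lit 1) (nat_lit 0x800400020008100002))) 
(.lf (nat_lit 1009369093) (dlOf (nat_lit 4) (nat_lit 0x3015800140a6001405000070268071a820001815800080a6000605000050268071a4200008158037d804000800400040009130002))))) 
(.nd (nat_lit 9) (.lf (nat_lit 4094279941) (dlOf (nat_lit 1) (nat_lit 0x280018033581))) 
(.nd (nat_lit 31) (.lf (nat_lit 939640581) (dlOf (nat_lit 1) (nat_lit 0x800400040018143b82))) 
(.lf (nat_lit 3087124229) (dlOf (nat_lit 1) (nat_lit 0x8008000400200020008143b83)))))) 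
(.nd (nat_lit 8) (.nd (nat_lit 10) (.nd (nat_lit 26) 
(.lf (nat_lit 5905696901) (dlOf (nat_lit 1) (nat_lit 0x400400020008144802))) 
(.lf (nat_lit 1677838469) (dlOf (nat_lit 1) (nat_lit 0x18008000400200020008114803)))) 
(.nd (nat_lit 21) (.lf (nat_lit 2818688133) (dlOf (nat_lit 1) (nat_lit 0x9000280d2b01))) 
(.lf (nat_lit 6377555077) (dlOf (nat_lit 1) (nat_lit 0x1680080004002001000080e2b03))))) 
(.nd (nat_lit 9) (.lf (nat_lit 805428613) (dlOf (nat_lit 1) (nat_lit 0x2000811c901))) 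
(.nd (nat_lit 27) (.lf (nat_lit 1677838213) (dlOf (nat_lit 1) (nat_lit 0x400400020008114182))) 
(.lf (nat_lit 3959539589) (dlOf (nat_lit 1) (nat_lit 0x400400020008114182)))))))) (.nd (nat_lit 7) 
(.nd (nat_lit 26) (.nd (nat_lit 21) (.nd (nat_lit 10) (.nd (nat_lit 27) 
(.lf (nat_lit 4563517765) (dlOf (nat_lit 1) (nat_lit 0x700080030002002a0008090c83))) 
(.lf (nat_lit 1744945477) (dlOf (nat_lit 1) (nat_lit 0x400200020008090c82)))) (.nd (nat_lit 11) 
(.lf (nat_lit 8508741) (dlOf (nat_lit 1) (nat_lit 0x400200020008519902))) 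
(.lf (nat_lit 3489779013) (dlOf (nat_lit 2) (nat_lit 0x401600008018006980))))) (.nd (nat_lit 8) 
(.nd (nat_lit 19) (.lf (nat_lit 14794821) (dlOf (nat_lit 1) (nat_lit 0x400200020008770602))) 
(.lf (nat_lit 3492397125) (dlOf (nat_lit 1) (nat_lit 0x20400080c1401)))) 
(.lf (nat_lit 20040517) (dlOf (nat_lit 1) (nat_lit 0x4002000200089d5c02))))) (.nd (nat_lit 27) 
(.nd (nat_lit 9) (.nd (nat_lit 19) 
(.lf (nat_lit 2483142725) (dlOf (nat_lit 10) (nat_lit 0xd2012800f8084015801a0001c0600c0025001b00e80006c1006900a8053005001b60180000a83001e015008100a00002808024c0500001302000a02a001d0140000481000080a8012c050000100400d60280000781002a014000038080028008016800200920008030e83))) 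
(.lf (nat_lit 2754199621) (dlOf (nat_lit 6) (nat_lit 0x1511000298868000b008002c440008c21a0002b820002104801b874c000aa08011c448002220900160e98008871c004437e00261090002a06000d1120001440800c00080094002004a00080c1883)))) 
(.lf (nat_lit 3288449605) (dlOf (nat_lit 1) (nat_lit 0x800400060008018802)))) (.nd (nat_lit 9) 
(.nd (nat_lit 19) 
(.lf (nat_lit 2348924997) (dlOf (nat_lit 10) (nat_lit 0xd2012800f8084015801a0001d0600c0025001b00f0000701006900a8053005001b60180000b03001e015008100a00002a08024c0500001402000a02a001d01400004c1000080a8012c050000100400d60280000781002a014000038080028008016800200920008030e83))) 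
(.lf (nat_lit 3960062021) (dlOf (nat_lit 4) (nat_lit 0x200024000aa0401c808a0154042007201f803300cc010404a000540a0028046000b0200001441000580080094002009600081a1883)))) 
(.lf (nat_lit 1812057669) (dlOf (nat_lit 1) (nat_lit 0x20028147181)))))) (.nd (nat_lit 11) 
(.nd (nat_lit 8) (.nd (nat_lit 9) (.nd (nat_lit 21) 
(.lf (nat_lit 474072261) (dlOf (nat_lit 5) (nat_lit 0x2602d2014a16800600b30071056002b028a0068143003709e803b84bc02e819e00d60c700d100c004e805c000503000e4298000414b000b06b800094180af85a405782cc02c00180000f8300010b48001006000026080070004001c0009082d02))) 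
(.lf (nat_lit 48350405) (dlOf (nat_lit 2) (nat_lit 0xc8fd00004000000280400480029402d01)))) 
(.lf (nat_lit 20042437) (dlOf (nat_lit 1) (nat_lit 0x80080004002000200089d8c83)))) 
(.nd (nat_lit 10) 
(.lf (nat_lit 5774098885) (dlOf (nat_lit 1) (nat_lit 0x180080014002000200080f7a83))) 
(.lf (nat_lit 7984581) (dlOf (nat_lit 1) (nat_lit 0x60008519a01))))) (.nd (nat_lit 9) 
(.nd (nat_lit 10) (.nd (nat_lit 26) 
(.lf (nat_lit 5905696965) (dlOf (nat_lit 1) (nat_lit 0x400400020008144982))) 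
(.lf (nat_lit 1677838533) (dlOf (nat_lit 1) (nat_lit 0x400400020008114982)))) 
(.lf (nat_lit 6509677765) (dlOf (nat_lit 1) (nat_lit 0x400400020008146382)))) (.nd (nat_lit 8) 
(.lf (nat_lit 57264837) (dlOf (nat_lit 1) (nat_lit 0x4c0029795801))) 
(.lf (nat_lit 3221347269) (dlOf (nat_lit 1) (nat_lit 0x2002811be01)))))))) (.nd (nat_lit 21) 
(.nd (nat_lit 30) (.nd (nat_lit 6) (.nd (nat_lit 19) (.nd (nat_lit 25) (.nd (nat_lit 26) 
(.lf (nat_lit 6442827781) (dlOf (nat_lit 2) (nat_lit 0xc80d001db4040054004001200181d0002))) 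
(.lf (nat_lit 738574341) (dlOf (nat_lit 1) (nat_lit 0x28002001a00080b0002)))) (.nd (nat_lit 7) 
(.lf (nat_lit 33931269) (dlOf (nat_lit 1) (nat_lit 0x8008000400200020008f80003))) 
(.lf (nat_lit 54902917) (dlOf (nat_lit 1) (nat_lit 0x8008000c002004e0009662283))))) 
(.nd (nat_lit 20) (.nd (nat_lit 22) (.nd (nat_lit 23) 
(.lf (nat_lit 537772037) (dlOf (nat_lit 1) (nat_lit 0x8008000400200020008180003))) 
(.lf (nat_lit 42844165) (dlOf (nat_lit 1) (nat_lit 0x20029280001)))) 
(.lf (nat_lit 5095429) (dlOf (nat_lit 1) (nat_lit 0x400400020008300002)))) (.nd (nat_lit 23) 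
(.lf (nat_lit 1949701) (dlOf (nat_lit 1) (nat_lit 0x400200020008150002))) 
(.lf (nat_lit 10338309) (dlOf (nat_lit 1) (nat_lit 0x200085d0001)))))) (.nd (nat_lit 20) 
(.nd (nat_lit 9) (.nd (nat_lit 22) 
(.lf (nat_lit 738574405) (dlOf (nat_lit 3) (nat_lit 0x3a02a800c00dc00300440002506000401e000120180b0580))) 
(.lf (nat_lit 29737029) (dlOf (nat_lit 1) (nat_lit 0x20028e30001)))) 
(.lf (nat_lit 42322501) (dlOf (nat_lit 1) (nat_lit 0x400400020009245202)))) (.nd (nat_lit 8) 
(.nd (nat_lit 23) 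
(.lf (nat_lit 1425477) (dlOf (nat_lit 4) (nat_lit 0xb40000002e02008a000000020100010b000000c0801680080008002000a00080c0e83))) 
(.lf (nat_lit 26591301) (dlOf (nat_lit 1) (nat_lit 0x400200020008c50602)))) 
(.lf (nat_lit 471717189) (dlOf (nat_lit 1) (nat_lit 0x200283d9901)))))) (.nd (nat_lit 29) 
(.nd (nat_lit 19) (.nd (nat_lit 26) 
(.lf (nat_lit 5637521413) (dlOf (nat_lit 1) (nat_lit 0x60028100001))) (.nd (nat_lit 27) 
(.lf (nat_lit 3288711173) (dlOf (nat_lit 3) (nat_lit 0x1010000cc80400240400065b02000600080c0401))) 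
(.lf (nat_lit 5838848005) (dlOf (nat_lit 2) (nat_lit 0xc80d00116a040054004001200181d0002))))) 
(.nd (nat_lit 9) 
(.lf (nat_lit 1410187269) (dlOf (nat_lit 1) (nat_lit 0x8008000400200020008180003))) 
(.lf (nat_lit 3491611141) (dlOf (nat_lit 1) (nat_lit 0x640008090d81))))) (.nd (nat_lit 6) 
(.nd (nat_lit 28) (.lf (nat_lit 1610989573) (dlOf (nat_lit 1) (nat_lit 0x28002001a00080b0002))) 
(.lf (nat_lit 4026908677) (dlOf (nat_lit 3) (nat_lit 0x10100017f204002404000bf002000600080c0401)))) 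
(.nd (nat_lit 28) 
(.lf (nat_lit 1610989637) (dlOf (nat_lit 3) (nat_lit 0x3a02a800c00dc00300440002606000401e000128180b0580))) 
(.lf (nat_lit 4026908741) (dlOf (nat_lit 8) (nat_lit 0xf403c0005802007601e0002b810021000000154080268060007800a003c004002c0000001502000b0000000a40400480000005102000a000000000180c1880))))))) 
(.nd (nat_lit 19) (.nd (nat_lit 20) (.nd (nat_lit 28) (.nd (nat_lit 6) 
(.lf (nat_lit 2473989) (dlOf (nat_lit 1) (nat_lit 0x1e0008160001))) (.nd (nat_lit 7) 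
(.lf (nat_lit 2753937477) (dlOf (nat_lit 1) (nat_lit 0x1000080a0d01))) 
(.lf (nat_lit 52807109) (dlOf (nat_lit 1) (nat_lit 0x20019573601))))) (.nd (nat_lit 29) 
(.lf (nat_lit 3492134981) (dlOf (nat_lit 15) (nat_lit 0x581160002402006a08c001f04580008c1001602300044116000220400760da0056065004d0230020c11600dc08600580048000803002a023000f81160001f04001608c0014045800078100230230004c1160001d04007608c001504580004c10000822c0001c0400f4118004008b000060200850460037822c00016080010118004c08b0000502000504600002408000822c000000416dc004014200180a0e02))) 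
(.lf (nat_lit 1881522245) (dlOf (nat_lit 2) (nat_lit 0x1e0e30008e818f40600))))) (.nd (nat_lit 6) 
(.nd (nat_lit 7) 
(.lf (nat_lit 11911685) (dlOf (nat_lit 4) (nat_lit 0x1ac0000016802001e26b001000000050c100078b440003a04039c002008a00086c0d82))) 
(.nd (nat_lit 22) 
(.lf (nat_lit 11911301) (dlOf (nat_lit 2) (nat_lit 0x41aa28020d4980001d8286c0100))) 
(.lf (nat_lit 41271429) (dlOf (nat_lit 1) (nat_lit 0x800400040009233a02))))) (.nd (nat_lit 7) 
(.lf (nat_lit 58048837) (dlOf (nat_lit 2) (nat_lit 0x44320019e40800a00080044002001200097b8703))) 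
(.lf (nat_lit 3522757) (dlOf (nat_lit 2) (nat_lit 0x161a08000300400d400400a20008200402)))))) 
(.nd (nat_lit 9) (.nd (nat_lit 7) (.nd (nat_lit 10) 
(.lf (nat_lit 11386885) (dlOf (nat_lit 1) (nat_lit 0xc00200020008690002))) 
(.lf (nat_lit 3492660229) (dlOf (nat_lit 1) (nat_lit 0x200180f2881)))) (.nd (nat_lit 8) 
(.lf (nat_lit 3492661381) (dlOf (nat_lit 1) (nat_lit 0x80080004002000200080f4803))) 
(.lf (nat_lit 2754464133) (dlOf (nat_lit 1) (nat_lit 0x200180f4e81))))) (.nd (nat_lit 10) 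
(.nd (nat_lit 6) 
(.lf (nat_lit 3493708293) (dlOf (nat_lit 2) (nat_lit 0x300198022c07e002801c000398381b0d80))) 
(.lf (nat_lit 12436037) (dlOf (nat_lit 1) (nat_lit 0x4002000200086c1102)))) (.nd (nat_lit 7) 
(.lf (nat_lit 2754465285) (dlOf (nat_lit 1) (nat_lit 0x200080f7001))) 
(.lf (nat_lit 8242821) (dlOf (nat_lit 2) (nat_lit 0x5b3b000201540002a08007c00200180008513a02))))))))) 
(.nd (nat_lit 30) (.nd (nat_lit 8) (.nd (nat_lit 18) (.nd (nat_lit 19) (.nd (nat_lit 7) 
(.nd (nat_lit 22) (.nd (nat_lit 21) (.nd (nat_lit 26) 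
(.lf (nat_lit 2684469285) (dlOf (nat_lit 1) (nat_lit 0x20008030581))) 
(.lf (nat_lit 2214707237) (dlOf (nat_lit 1) (nat_lit 0x80080004002000a0008040803)))) 
(.lf (nat_lit 10600485) (dlOf (nat_lit 2) (nat_lit 0x4e8280047804000c00400080008600482)))) 
(.nd (nat_lit 6) (.nd (nat_lit 23) 
(.lf (nat_lit 21086245) (dlOf (nat_lit 2) (nat_lit 0x2640c00042040018004000e0018a10582))) 
(.lf (nat_lit 29474853) (dlOf (nat_lit 1) (nat_lit 0xc0028e10781)))) 
(.lf (nat_lit 474072165) (dlOf (nat_lit 1) (nat_lit 0x80009082981))))) (.nd (nat_lit 6) 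
(.nd (nat_lit 21) 
(.lf (nat_lit 474072229) (dlOf (nat_lit 7) (nat_lit 0x21a1000e0b400050598001819e0010017000e00a8001743000205a4000c2d0000c0180002c8300050b480038060000b00800142d20010168000700c00015c1800405a400202cc00120180002a03000b0b480028598001c030000450600080029082c01))) 
(.lf (nat_lit 48350373) (dlOf (nat_lit 1) (nat_lit 0x40029402c01)))) (.nd (nat_lit 9) 
(.nd (nat_lit 12) (.lf (nat_lit 6406373) (dlOf (nat_lit 1) (nat_lit 0x800200b40008420582))) 
(.lf (nat_lit 20041957) (dlOf (nat_lit 1) (nat_lit 0xc00289d8081)))) 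
(.lf (nat_lit 2751579877) (dlOf (nat_lit 1) (nat_lit 0x400400020008003a82)))))) (.nd (nat_lit 20) 
(.nd (nat_lit 26) (.nd (nat_lit 21) (.nd (nat_lit 22) (.nd (nat_lit 27) 
(.lf (nat_lit 805945381) (dlOf (nat_lit 2) (nat_lit 0x5f405a0002e02004000181f0b81))) 
(.lf (nat_lit 134856741) (dlOf (nat_lit 1) (nat_lit 0x44002000c00080d0902)))) 
(.lf (nat_lit 13221925) (dlOf (nat_lit 1) (nat_lit 0x400400020008710b82)))) 
(.lf (nat_lit 2736165) (dlOf (nat_lit 12) (nat_lit 0xea91c003146a00056040014aa60002901000d553000144080122a980007c04008554c0003c020012aa60001b01000b5530000d408004aa980006804001d54c00033020036a47000651a80004410010291c00020040048004002000181a0b82)))) 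
(.nd (nat_lit 27) 
(.lf (nat_lit 4362715173) (dlOf (nat_lit 2) (nat_lit 0x900b400000040084004002c00080e0b82))) 
(.lf (nat_lit 201965605) (dlOf (nat_lit 1) (nat_lit 0x44002000c00080d0902))))) (.nd (nat_lit 11) 
(.nd (nat_lit 9) (.lf (nat_lit 471449637) (dlOf (nat_lit 2) (nat_lit 0x4130000207800107828300a80))) 
(.lf (nat_lit 2753151525) (dlOf (nat_lit 1) (nat_lit 0x98008003400200040008090e03)))) 
(.nd (nat_lit 6) (.lf (nat_lit 41536165) (dlOf (nat_lit 1) (nat_lit 0x20019245601))) 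
(.lf (nat_lit 20564581) (dlOf (nat_lit 1) (nat_lit 0xc004000600089d5382))))))) (.nd (nat_lit 26) 
(.nd (nat_lit 23) (.nd (nat_lit 28) (.nd (nat_lit 7) (.nd (nat_lit 20) 
(.lf (nat_lit 33931301) (dlOf (nat_lit 1) (nat_lit 0x600028f80781))) 
(.lf (nat_lit 1425445) (dlOf (nat_lit 1) (nat_lit 0x200180c0a01)))) 
(.lf (nat_lit 51235493) (dlOf (nat_lit 9) (nat_lit 0x3aca4000720400198240003802000cc11000b534800226300006c0c00c18260002602001ec10000253400006c10008b040000564e0006a7a000f53400006420004b04000314f40001504000ac10000753d000050100010008008400201100009515603)))) 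
(.nd (nat_lit 27) (.nd (nat_lit 29) 
(.lf (nat_lit 2416295973) (dlOf (nat_lit 1) (nat_lit 0x24002000c00080d0902))) 
(.lf (nat_lit 5100650533) (dlOf (nat_lit 1) (nat_lit 0x400400020018110202)))) 
(.lf (nat_lit 2550513701) (dlOf (nat_lit 1) (nat_lit 0x24002000c00080d0902))))) (.nd (nat_lit 21) 
(.nd (nat_lit 19) (.lf (nat_lit 12959781) (dlOf (nat_lit 1) (nat_lit 0x9400086f0801))) 
(.lf (nat_lit 13484069) (dlOf (nat_lit 1) (nat_lit 0x400400020008730902)))) (.nd (nat_lit 6) 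
(.lf (nat_lit 11911205) (dlOf (nat_lit 2) (nat_lit 0x41aa28020d4980038a8286c0000))) 
(.lf (nat_lit 48611429) (dlOf (nat_lit 4) (nat_lit 0x982400013020072c120000901000b609000044080038008001c002000a0009420983)))))) 
(.nd (nat_lit 6) (.nd (nat_lit 29) (.nd (nat_lit 27) 
(.lf (nat_lit 4362453029) (dlOf (nat_lit 6) (nat_lit 0x6802981aa011c031405a000140600fc05303a4023806d80b4000260c15940660001102043c0330000801000501980003c0802a8008015000200f20008080883))) 
(.lf (nat_lit 2617622565) (dlOf (nat_lit 2) (nat_lit 0x260340000b818100580)))) (.nd (nat_lit 9) 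
(.lf (nat_lit 604356645) (dlOf (nat_lit 1) (nat_lit 0x4002000200081a0002))) 
(.lf (nat_lit 2755510821) (dlOf (nat_lit 1) (nat_lit 0x200181b0e01))))) (.nd (nat_lit 7) 
(.lf (nat_lit 604356709) (dlOf (nat_lit 1) (nat_lit 0x400080030002001c00081a0483))) 
(.lf (nat_lit 604356837) (dlOf (nat_lit 3) (nat_lit 0x48058000c00e00320000002a83000a0000000dc080010008009c002000a00081a0583))))))) 
(.nd (nat_lit 6) (.nd (nat_lit 31) (.nd (nat_lit 9) (.nd (nat_lit 10) (.nd (nat_lit 11) 
(.lf (nat_lit 20304165) (dlOf (nat_lit 1) (nat_lit 0x600289d8081))) 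
(.lf (nat_lit 671205669) (dlOf (nat_lit 1) (nat_lit 0x220008144b81)))) 
(.lf (nat_lit 7984421) (dlOf (nat_lit 1) (nat_lit 0x8008000400200020008519783)))) (.nd (nat_lit 27) 
(.lf (nat_lit 116517) (dlOf (nat_lit 1) (nat_lit 0x400400020008003d02))) 
(.lf (nat_lit 939640613) (dlOf (nat_lit 1) (nat_lit 0x1c00400060008143d02))))) (.nd (nat_lit 7) 
(.nd (nat_lit 9) (.nd (nat_lit 10) 
(.lf (nat_lit 2751580453) (dlOf (nat_lit 1) (nat_lit 0x180018004b81))) 
(.lf (nat_lit 6509677861) (dlOf (nat_lit 1) (nat_lit 0x800400080008146802)))) 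
(.lf (nat_lit 3087124261) (dlOf (nat_lit 1) (nat_lit 0x800400020008143d02)))) (.nd (nat_lit 9) 
(.lf (nat_lit 2754464165) (dlOf (nat_lit 1) (nat_lit 0x200180f4e81))) 
(.lf (nat_lit 2751580069) (dlOf (nat_lit 1) (nat_lit 0x400400020008004302)))))) (.nd (nat_lit 7) 
(.nd (nat_lit 20) (.nd (nat_lit 9) (.nd (nat_lit 10) 
(.lf (nat_lit 4563517797) (dlOf (nat_lit 1) (nat_lit 0x40008090e81))) 
(.lf (nat_lit 6576786789) (dlOf (nat_lit 1) (nat_lit 0x1c0018146a81)))) 
(.lf (nat_lit 805428069) (dlOf (nat_lit 1) (nat_lit 0xe80080040002001a000811bc83)))) 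
(.nd (nat_lit 22) (.nd (nat_lit 18) 
(.lf (nat_lit 3260773) (dlOf (nat_lit 1) (nat_lit 0x20018200701))) 
(.lf (nat_lit 3522917) (dlOf (nat_lit 6) (nat_lit 0x98341003919ac02689d2011a4d80000a8400023410000500803e1a0801accd600fc4e9007826c000048200011360000200400a09d2000030200440018200701)))) 
(.nd (nat_lit 9) (.lf (nat_lit 13746533) (dlOf (nat_lit 1) (nat_lit 0x60028750981))) 
(.lf (nat_lit 7983973) (dlOf (nat_lit 1) (nat_lit 0x8008000400200020008518f83)))))) 
(.nd (nat_lit 9) (.nd (nat_lit 11) (.nd (nat_lit 18) 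
(.lf (nat_lit 2753151461) (dlOf (nat_lit 2) (nat_lit 0xd842200581f900230a98000001801380080040002002a0008090c03))) 
(.lf (nat_lit 21348837) (dlOf (nat_lit 3) (nat_lit 0x2ac64000bc0400897a2000ab1900035600001aa800011300000497f0002e068a37300)))) 
(.lf (nat_lit 49924581) (dlOf (nat_lit 1) (nat_lit 0x200094c4e81)))) (.nd (nat_lit 19) 
(.lf (nat_lit 1009107941) (dlOf (nat_lit 2) (nat_lit 0x10071801940080128008000c00200620009082883))) 
(.lf (nat_lit 69059557) (dlOf (nat_lit 1) (nat_lit 0xec00088a2881)))))))) (.nd (nat_lit 31) 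
(.nd (nat_lit 6) (.nd (nat_lit 7) (.nd (nat_lit 8) (.nd (nat_lit 10) (.nd (nat_lit 18) 
(.lf (nat_lit 1678360613) (dlOf (nat_lit 2) (nat_lit 0x5f405a0002e02004000181f0b81))) 
(.lf (nat_lit 1946533925) (dlOf (nat_lit 1) (nat_lit 0x280080004002000a00080b0b83)))) 
(.lf (nat_lit 1881261093) (dlOf (nat_lit 1) (nat_lit 0x4400400140008e82882)))) (.nd (nat_lit 9) 
(.lf (nat_lit 5905697061) (dlOf (nat_lit 1) (nat_lit 0x40018144b81))) 
(.lf (nat_lit 5905696549) (dlOf (nat_lit 1) (nat_lit 0x340018143d01))))) (.nd (nat_lit 8) 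
(.nd (nat_lit 9) (.lf (nat_lit 1812057253) (dlOf (nat_lit 1) (nat_lit 0x40028146281))) 
(.lf (nat_lit 1345964709) (dlOf (nat_lit 2) (nat_lit 0x1200000011018e25600)))) (.nd (nat_lit 26) 
(.lf (nat_lit 5905696677) (dlOf (nat_lit 1) (nat_lit 0x20028144301))) 
(.lf (nat_lit 1677838245) (dlOf (nat_lit 1) (nat_lit 0x20028114301)))))) (.nd (nat_lit 27) 
(.nd (nat_lit 29) (.nd (nat_lit 7) (.nd (nat_lit 9) 
(.lf (nat_lit 1346748517) (dlOf (nat_lit 2) (nat_lit 0x29825801a010800ec0740078039802000780008414028800400240009000982))) 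
(.lf (nat_lit 1345439333) (dlOf (nat_lit 4) (nat_lit 0x2302ca000330200a81650001901004e0b28000c40800700080024002006e0008bb3903)))) 
(.lf (nat_lit 1345438949) (dlOf (nat_lit 1) (nat_lit 0x20028bb2e01)))) (.nd (nat_lit 8) 
(.nd (nat_lit 9) (.lf (nat_lit 6241240293) (dlOf (nat_lit 1) (nat_lit 0x20008052e01))) 
(.lf (nat_lit 5905696485) (dlOf (nat_lit 1) (nat_lit 0x400400020008143a82)))) 
(.lf (nat_lit 1946272229) (dlOf (nat_lit 3) (nat_lit 0xc0148003cc0801980a40000004006800200080008017302))))) 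
(.nd (nat_lit 7) (.nd (nat_lit 8) 
(.lf (nat_lit 1476771941) (dlOf (nat_lit 1) (nat_lit 0x400080030002001c00081a0483))) 
(.lf (nat_lit 5771477349) (dlOf (nat_lit 2) (nat_lit 0x80000006404002400200220008000e82)))) 
(.nd (nat_lit 8) 
(.lf (nat_lit 1476772069) (dlOf (nat_lit 3) (nat_lit 0x4805c000c00e00320000002a83000a0000000dc080010008009c002000a00081a0583))) 
(.nd (nat_lit 9) (.lf (nat_lit 5771479525) (dlOf (nat_lit 1) (nat_lit 0x400400020008004e82))) 
(.lf (nat_lit 2080490469) (dlOf (nat_lit 1) (nat_lit 0x50008004400200020008092883)))))))) 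
(.nd (nat_lit 18) (.nd (nat_lit 7) (.nd (nat_lit 19) (.nd (nat_lit 8) (.nd (nat_lit 26) 
(.lf (nat_lit 4160864293) (dlOf (nat_lit 1) (nat_lit 0xe0008030581))) 
(.lf (nat_lit 3422666789) (dlOf (nat_lit 1) (nat_lit 0x20008030581)))) 
(.lf (nat_lit 3489782565) (dlOf (nat_lit 1) (nat_lit 0x6c004004e000800bc82)))) (.nd (nat_lit 9) 
(.nd (nat_lit 26) 
(.lf (nat_lit 3892953125) (dlOf (nat_lit 3) (nat_lit 0x98058000c028001f8040006014000fa8182a0a80))) 
(.lf (nat_lit 4228497445) (dlOf (nat_lit 2) (nat_lit 0x900b000000040084004002c00080e0b82)))) 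
(.lf (nat_lit 3491349029) (dlOf (nat_lit 1) (nat_lit 0x98008003400200040008090e03))))) 
(.nd (nat_lit 6) (.nd (nat_lit 8) 
(.lf (nat_lit 3825323173) (dlOf (nat_lit 1) (nat_lit 0x8008000400200020008146283))) 
(.nd (nat_lit 9) 
(.lf (nat_lit 3221347749) (dlOf (nat_lit 2) (nat_lit 0x30046001801c0001d810001000800080020002000811cb03))) 
(.lf (nat_lit 3355562917) (dlOf (nat_lit 1) (nat_lit 0xec00280a9101))))) (.nd (nat_lit 19) 
(.lf (nat_lit 3288449509) (dlOf (nat_lit 1) (nat_lit 0x18008000400200020008017303))) 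
(.lf (nat_lit 3491348965) (dlOf (nat_lit 2) (nat_lit 0xd83f800581e700230ae8000001801380080040002002a0008090c03)))))) 
(.nd (nat_lit 21) (.nd (nat_lit 26) (.nd (nat_lit 28) 
(.lf (nat_lit 3221602341) (dlOf (nat_lit 1) (nat_lit 0x20008000400200020008160903))) 
(.lf (nat_lit 4026908709) (dlOf (nat_lit 2) (nat_lit 0xc000000438180c0b00)))) (.nd (nat_lit 27) 
(.lf (nat_lit 3288711205) (dlOf (nat_lit 2) (nat_lit 0xc0000008c0180c0b00))) 
(.lf (nat_lit 4228235301) (dlOf (nat_lit 6) (nat_lit 0x2b81300c2c080011202c002900c0000402017b010003200580000f04047c032000070102c80190000340800181300274080000030401360028080901))))) 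
(.nd (nat_lit 6) (.nd (nat_lit 9) 
(.lf (nat_lit 3492134949) (dlOf (nat_lit 1) (nat_lit 0x180080014002000600080a0903))) 
(.lf (nat_lit 3493708325) (dlOf (nat_lit 1) (nat_lit 0x200181b0e01)))) (.nd (nat_lit 10) 
(.lf (nat_lit 3492660197) (dlOf (nat_lit 1) (nat_lit 0x4002000200080f2882))) 
(.lf (nat_lit 3492661221) (dlOf (nat_lit 1) (nat_lit 0x200080f4581)))))))))) (.nd (nat_lit 18) 
(.nd (nat_lit 5) (.nd (nat_lit 6) (.nd (nat_lit 28) (.nd (nat_lit 19) (.nd (nat_lit 31) 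
(.nd (nat_lit 20) (.nd (nat_lit 7) (.nd (nat_lit 23) 
(.lf (nat_lit 16891925) (dlOf (nat_lit 1) (nat_lit 0x4002000200088e0002))) 
(.lf (nat_lit 25280533) (dlOf (nat_lit 1) (nat_lit 0x8008000400200020008bf0883)))) 
(.lf (nat_lit 1812057749) (dlOf (nat_lit 1) (nat_lit 0x2000400020008147202)))) (.nd (nat_lit 21) 
(.lf (nat_lit 26329109) (dlOf (nat_lit 1) (nat_lit 0x20028c30081))) 
(.lf (nat_lit 28426261) (dlOf (nat_lit 2) (nat_lit 0x194660008b0200100028d90381))))) 
(.nd (nat_lit 10) (.nd (nat_lit 26) 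
(.lf (nat_lit 2281816085) (dlOf (nat_lit 1) (nat_lit 0x20028040501))) (.nd (nat_lit 27) 
(.lf (nat_lit 2214707221) (dlOf (nat_lit 1) (nat_lit 0x240008040501))) 
(.lf (nat_lit 2348924949) (dlOf (nat_lit 1) (nat_lit 0x40008030881))))) (.nd (nat_lit 7) 
(.lf (nat_lit 3221343509) (dlOf (nat_lit 1) (nat_lit 0x8008000400200020008116703))) 
(.lf (nat_lit 6576787093) (dlOf (nat_lit 1) (nat_lit 0x400400020008147202)))))) (.nd (nat_lit 10) 
(.nd (nat_lit 22) (.nd (nat_lit 30) 
(.lf (nat_lit 2819211285) (dlOf (nat_lit 1) (nat_lit 0x200081f0401))) 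
(.lf (nat_lit 3892953109) (dlOf (nat_lit 2) (nat_lit 0x1a0180038a8182a0a00)))) (.nd (nat_lit 21) 
(.lf (nat_lit 21610517) (dlOf (nat_lit 1) (nat_lit 0x500008a50281))) 
(.lf (nat_lit 48873493) (dlOf (nat_lit 1) (nat_lit 0x800400060009440082))))) (.nd (nat_lit 7) 
(.lf (nat_lit 7980821) (dlOf (nat_lit 1) (nat_lit 0x60018513c01))) (.nd (nat_lit 11) 
(.lf (nat_lit 7980181) (dlOf (nat_lit 1) (nat_lit 0x300080014002000a0008512b83))) 
(.lf (nat_lit 20565141) (dlOf (nat_lit 1) (nat_lit 0xc00089d6201))))))) (.nd (nat_lit 26) 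
(.nd (nat_lit 29) (.nd (nat_lit 7) (.nd (nat_lit 8) (.nd (nat_lit 19) 
(.lf (nat_lit 2416033813) (dlOf (nat_lit 1) (nat_lit 0x8008000400200020008020483))) 
(.lf (nat_lit 1344913429) (dlOf (nat_lit 1) (nat_lit 0x10008000400200020008990483)))) 
(.lf (nat_lit 4563517717) (dlOf (nat_lit 1) (nat_lit 0xac0018090a81)))) 
(.lf (nat_lit 402769045) (dlOf (nat_lit 1) (nat_lit 0x400400020008092b82)))) (.nd (nat_lit 7) 
(.nd (nat_lit 19) (.lf (nat_lit 1880211477) (dlOf (nat_lit 1) (nat_lit 0x400287b0481))) 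
(.lf (nat_lit 1879687189) (dlOf (nat_lit 2) (nat_lit 0x2000000458182d0380)))) 
(.lf (nat_lit 3087124117) (dlOf (nat_lit 1) (nat_lit 0x8008000400200020008143a83))))) 
(.nd (nat_lit 7) (.nd (nat_lit 9) (.nd (nat_lit 20) 
(.lf (nat_lit 2483142677) (dlOf (nat_lit 1) (nat_lit 0x40008030881))) 
(.lf (nat_lit 1007796245) (dlOf (nat_lit 1) (nat_lit 0x34002000600087b0482)))) 
(.lf (nat_lit 4094280213) (dlOf (nat_lit 2) (nat_lit 0x40160000a018037d80)))) (.nd (nat_lit 8) 
(.lf (nat_lit 2080490645) (dlOf (nat_lit 1) (nat_lit 0x400400020008092b82))) (.nd (nat_lit 9) 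
(.lf (nat_lit 4095853973) (dlOf (nat_lit 1) (nat_lit 0x1c00180e3601))) 
(.lf (nat_lit 2617365397) (dlOf (nat_lit 1) (nat_lit 0xc400280a9081)))))))) (.nd (nat_lit 26) 
(.nd (nat_lit 7) (.nd (nat_lit 8) (.nd (nat_lit 19) (.nd (nat_lit 22) 
(.lf (nat_lit 25280597) (dlOf (nat_lit 2) (nat_lit 0xa0000000e018bf0d80))) 
(.lf (nat_lit 12697685) (dlOf (nat_lit 1) (nat_lit 0x8000086d1081)))) 
(.lf (nat_lit 134856789) (dlOf (nat_lit 4) (nat_lit 0x38408201f803d011801c001a00cc00052100014082000a03d0001382008d021807700fc0004a08008c004010400080d0d82)))) 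
(.nd (nat_lit 20) (.lf (nat_lit 4563517781) (dlOf (nat_lit 1) (nat_lit 0x20018090d81))) 
(.lf (nat_lit 3260757) (dlOf (nat_lit 2) (nat_lit 0xdc51100005018200680))))) (.nd (nat_lit 8) 
(.nd (nat_lit 10) 
(.lf (nat_lit 5772001493) (dlOf (nat_lit 2) (nat_lit 0x280940006804002000200280008031c02))) 
(.nd (nat_lit 20) (.lf (nat_lit 8504533) (dlOf (nat_lit 1) (nat_lit 0x400200020008512d82))) 
(.lf (nat_lit 5772526805) (dlOf (nat_lit 1) (nat_lit 0x8008000c00200020008092d83))))) 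
(.nd (nat_lit 9) (.lf (nat_lit 3489779157) (dlOf (nat_lit 1) (nat_lit 0x20018006d01))) 
(.nd (nat_lit 10) (.lf (nat_lit 4563520469) (dlOf (nat_lit 1) (nat_lit 0x20028095e01))) 
(.lf (nat_lit 645077) (dlOf (nat_lit 1) (nat_lit 0x1000800100020008000800a603))))))) 
(.nd (nat_lit 8) (.nd (nat_lit 31) (.nd (nat_lit 7) (.nd (nat_lit 19) 
(.lf (nat_lit 471973973) (dlOf (nat_lit 1) (nat_lit 0x6400400180008740302))) 
(.lf (nat_lit 201965653) (dlOf (nat_lit 4) (nat_lit 0x38408201f803d011801c001a00cc00052100014082000a03d0001382008d021807700fc0004a08008c004010400080d0d82)))) 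
(.lf (nat_lit 5570151637) (dlOf (nat_lit 1) (nat_lit 0x8008000400200020008052d83)))) 
(.nd (nat_lit 19) (.nd (nat_lit 27) 
(.lf (nat_lit 2483142741) (dlOf (nat_lit 2) (nat_lit 0x920340012019801280b0000360c000400200020008031082))) 
(.lf (nat_lit 2348925013) (dlOf (nat_lit 2) (nat_lit 0x920340012019801280b8000360c000400200020008031082)))) 
(.lf (nat_lit 3960062037) (dlOf (nat_lit 9) (nat_lit 0x2a300500009c0810100280004c0408dc0140002502065c00a0001201032300500008c081978028000440404dc0140002102059205502ff028816781380b3809a059204a02ce024817c80d409c4068068202703350130167808c0b20044059201f02c900f006d004800a0020058e00600080000000009009f8008045c0020a4200081a1983))))) 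
(.nd (nat_lit 10) (.nd (nat_lit 11) 
(.lf (nat_lit 3288449365) (dlOf (nat_lit 1) (nat_lit 0x100028014d01))) 
(.lf (nat_lit 3959540053) (dlOf (nat_lit 1) (nat_lit 0x20028114e01)))) (.nd (nat_lit 7) 
(.lf (nat_lit 4093756757) (dlOf (nat_lit 1) (nat_lit 0x38008001800200020008003383))) 
(.lf (nat_lit 1677838293) (dlOf (nat_lit 1) (nat_lit 0x40028114501)))))))) (.nd (nat_lit 6) 
(.nd (nat_lit 8) (.nd (nat_lit 11) (.nd (nat_lit 19) (.nd (nat_lit 22) (.nd (nat_lit 27) 
(.lf (nat_lit 2416033845) (dlOf (nat_lit 1) (nat_lit 0x8008000400200020008020603))) 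
(.lf (nat_lit 2550251573) (dlOf (nat_lit 1) (nat_lit 0x8008000400200020008020603)))) 
(.lf (nat_lit 12697653) (dlOf (nat_lit 4) (nat_lit 0x1b5250007a8f0008545000369300004708001d525000da8f00055450002e930000460800215250009a8f0003d450003a9300003808000200286d0a81)))) 
(.nd (nat_lit 22) (.nd (nat_lit 26) 
(.lf (nat_lit 3892953141) (dlOf (nat_lit 2) (nat_lit 0xa0420036016000300ac00fc00e0002708000200282a0c01))) 
(.lf (nat_lit 470401077) (dlOf (nat_lit 1) (nat_lit 0x400180d0a81)))) 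
(.lf (nat_lit 21610549) (dlOf (nat_lit 7) (nat_lit 0x4bb500003da6000aed20019f818000f6a80007b500011da40033e830006ed40019f008001f6a000cf604001bb54000dda8002ca820006ed5000276a000b2808002000200c80008a51002))))) 
(.nd (nat_lit 7) (.nd (nat_lit 9) 
(.lf (nat_lit 5905696821) (dlOf (nat_lit 1) (nat_lit 0x400400020008144702))) (.nd (nat_lit 10) 
(.lf (nat_lit 4563520053) (dlOf (nat_lit 1) (nat_lit 0x8008001400200160008095183))) 
(.lf (nat_lit 6576786997) (dlOf (nat_lit 1) (nat_lit 0x400200020008147182))))) (.nd (nat_lit 9) 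
(.nd (nat_lit 10) (.lf (nat_lit 5972805813) (dlOf (nat_lit 1) (nat_lit 0x60018144901))) 
(.lf (nat_lit 2754727093) (dlOf (nat_lit 4) (nat_lit 0xac061006902f0002017000040b200b6057005402000220058000321c00800bc004a040000b00b000060180178164000405e0001404000400180f6281)))) 
(.lf (nat_lit 805424821) (dlOf (nat_lit 2) (nat_lit 0x280000001404002000200020008117282)))))) 
(.nd (nat_lit 30) (.nd (nat_lit 9) (.nd (nat_lit 19) 
(.lf (nat_lit 8508725) (dlOf (nat_lit 1) (nat_lit 0x8008000400200020008519903))) (.nd (nat_lit 22) 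
(.lf (nat_lit 20567349) (dlOf (nat_lit 1) (nat_lit 0x1c00189d9901))) 
(.lf (nat_lit 7984437) (dlOf (nat_lit 1) (nat_lit 0xa0018519901))))) (.nd (nat_lit 10) 
(.lf (nat_lit 20040501) (dlOf (nat_lit 1) (nat_lit 0x4002000200089d5c02))) 
(.lf (nat_lit 2751579957) (dlOf (nat_lit 1) (nat_lit 0x400400020008003d82))))) (.nd (nat_lit 10) 
(.nd (nat_lit 7) (.nd (nat_lit 26) 
(.lf (nat_lit 4026646837) (dlOf (nat_lit 1) (nat_lit 0x40008014c01))) 
(.lf (nat_lit 3288449333) (dlOf (nat_lit 1) (nat_lit 0x40008014c01)))) 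
(.lf (nat_lit 1073856949) (dlOf (nat_lit 1) (nat_lit 0x8008000400200020008017783)))) 
(.nd (nat_lit 26) (.lf (nat_lit 3221343541) (dlOf (nat_lit 1) (nat_lit 0x20028116881))) 
(.lf (nat_lit 1409404213) (dlOf (nat_lit 1) (nat_lit 0x20008006881))))))) (.nd (nat_lit 11) 
(.nd (nat_lit 30) (.nd (nat_lit 7) (.nd (nat_lit 9) (.nd (nat_lit 19) 
(.lf (nat_lit 24232053) (dlOf (nat_lit 1) (nat_lit 0x400200020008b91882))) 
(.lf (nat_lit 29999221) (dlOf (nat_lit 1) (nat_lit 0x2ac002001a0008e30482)))) 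
(.lf (nat_lit 7980661) (dlOf (nat_lit 1) (nat_lit 0x580080020002000c0008513983)))) 
(.nd (nat_lit 31) (.lf (nat_lit 939640565) (dlOf (nat_lit 1) (nat_lit 0x8004000a0008143b82))) 
(.lf (nat_lit 3087124213) (dlOf (nat_lit 1) (nat_lit 0x8008000400200020008143b83))))) 
(.nd (nat_lit 26) (.nd (nat_lit 7) (.nd (nat_lit 27) 
(.lf (nat_lit 5368823925) (dlOf (nat_lit 1) (nat_lit 0x180018030b01))) 
(.lf (nat_lit 5503041653) (dlOf (nat_lit 1) (nat_lit 0x180018030b01)))) 
(.lf (nat_lit 4026647029) (dlOf (nat_lit 1) (nat_lit 0x400400020018017e02)))) (.nd (nat_lit 10) 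
(.lf (nat_lit 5435932789) (dlOf (nat_lit 1) (nat_lit 0x20028040d81))) 
(.lf (nat_lit 6377555061) (dlOf (nat_lit 1) (nat_lit 0x8580080718002019e00080e2a03)))))) 
(.nd (nat_lit 7) (.nd (nat_lit 8) (.nd (nat_lit 26) 
(.lf (nat_lit 1208076917) (dlOf (nat_lit 1) (nat_lit 0x400400020008095402))) 
(.lf (nat_lit 335661685) (dlOf (nat_lit 1) (nat_lit 0x400400020008095402)))) (.nd (nat_lit 10) 
(.nd (nat_lit 12) (.lf (nat_lit 57264501) (dlOf (nat_lit 1) (nat_lit 0x100029794e81))) 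
(.lf (nat_lit 1677842805) (dlOf (nat_lit 1) (nat_lit 0x4002811ad81)))) 
(.lf (nat_lit 3825323381) (dlOf (nat_lit 1) (nat_lit 0x8008000400200020008146b83))))) 
(.nd (nat_lit 9) (.nd (nat_lit 8) 
(.lf (nat_lit 6509677813) (dlOf (nat_lit 1) (nat_lit 0x400400020008146582))) 
(.lf (nat_lit 49924597) (dlOf (nat_lit 1) (nat_lit 0x400294c4f01)))) (.nd (nat_lit 12) 
(.lf (nat_lit 3892431605) (dlOf (nat_lit 1) (nat_lit 0x40028105a01))) 
(.lf (nat_lit 7985909) (dlOf (nat_lit 1) (nat_lit 0x4002851b981))))))))) (.nd (nat_lit 29) 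
(.nd (nat_lit 20) (.nd (nat_lit 28) (.nd (nat_lit 6) (.nd (nat_lit 21) (.nd (nat_lit 5) 
(.nd (nat_lit 7) (.nd (nat_lit 30) 
(.lf (nat_lit 4362453013) (dlOf (nat_lit 4) (nat_lit 0x540410033019000044100108104008c064002202c00008030001000000000080178008005c00200040008080483))) 
(.lf (nat_lit 3288711189) (dlOf (nat_lit 10) (nat_lit 0x801a011bc020014011008200100010090040fc0800200480207c04003c0220103a0200020110081c8100040088040dc0800080440206a04001802200fc902009a00280c0a81)))) 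
(.lf (nat_lit 380565) (dlOf (nat_lit 1) (nat_lit 0x8002000c0008007202)))) (.nd (nat_lit 26) 
(.lf (nat_lit 6442827829) (dlOf (nat_lit 1) (nat_lit 0x700080004002001400081d0a83))) 
(.lf (nat_lit 3288711221) (dlOf (nat_lit 1) (nat_lit 0x1200080c1101))))) (.nd (nat_lit 19) 
(.nd (nat_lit 24) (.lf (nat_lit 44417045) (dlOf (nat_lit 1) (nat_lit 0x2a000200bc0009310102))) 
(.lf (nat_lit 61194261) (dlOf (nat_lit 1) (nat_lit 0xc00198d0481)))) (.nd (nat_lit 5) 
(.lf (nat_lit 15581205) (dlOf (nat_lit 1) (nat_lit 0x20018800401))) 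
(.lf (nat_lit 19780917) (dlOf (nat_lit 1) (nat_lit 0x1400289d9901)))))) (.nd (nat_lit 7) 
(.nd (nat_lit 8) (.lf (nat_lit 901205) (dlOf (nat_lit 1) (nat_lit 0x20028031081))) 
(.lf (nat_lit 378197) (dlOf (nat_lit 1) (nat_lit 0x20028003381)))) (.nd (nat_lit 8) 
(.lf (nat_lit 4571349) (dlOf (nat_lit 1) (nat_lit 0x50008001000200080008290503))) 
(.lf (nat_lit 21348821) (dlOf (nat_lit 1) (nat_lit 0x800080038002000a0008a37103)))))) 
(.nd (nat_lit 6) (.nd (nat_lit 26) (.nd (nat_lit 5) (.nd (nat_lit 10) 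
(.lf (nat_lit 1342554133) (dlOf (nat_lit 1) (nat_lit 0x20018050a81))) 
(.lf (nat_lit 3492660245) (dlOf (nat_lit 1) (nat_lit 0x200180f2881)))) (.nd (nat_lit 22) 
(.lf (nat_lit 5637521461) (dlOf (nat_lit 1) (nat_lit 0x20018100481))) 
(.lf (nat_lit 3494232117) (dlOf (nat_lit 9) (nat_lit 0x605400030298000814400040a0000c04e0005026800380f4004241c00380a80026053002602880128140008c09c004404d002301e80084438007815000440a6004c051002602800100138008809a004603d0010807000602a0004014c00700a2003a050001c027000d8134006c07a0020f0e002e05d000fd01004802e80200170003f208001c0b8001f702000c05d001302e0007d41000b000800d8002000400081d0a83))))) 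
(.nd (nat_lit 30) (.nd (nat_lit 31) 
(.lf (nat_lit 470138901) (dlOf (nat_lit 1) (nat_lit 0x20018050a81))) 
(.lf (nat_lit 2617622549) (dlOf (nat_lit 2) (nat_lit 0x3401a0000000800b0008002c002004c0008100403)))) 
(.nd (nat_lit 5) (.lf (nat_lit 1409662997) (dlOf (nat_lit 1) (nat_lit 0x40028070501))) 
(.lf (nat_lit 5838848053) (dlOf (nat_lit 1) (nat_lit 0x700080004002001400081d0a83)))))) 
(.nd (nat_lit 27) (.nd (nat_lit 5) (.nd (nat_lit 8) 
(.lf (nat_lit 2416296021) (dlOf (nat_lit 6) (nat_lit 0x1a3808410f404000e401f00cf00a800c0028000581402f801a01aa00400b20008000a41800d003c004c002000280400220040001381011d0100000840801e000800a4002000200080d0d83))) 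
(.lf (nat_lit 3492665685) (dlOf (nat_lit 1) (nat_lit 0x1200280fab81)))) 
(.lf (nat_lit 5637521525) (dlOf (nat_lit 2) (nat_lit 0x1a025000b00c0008141000b0008003800200400008100d83)))) 
(.nd (nat_lit 7) (.nd (nat_lit 30) 
(.lf (nat_lit 2550513749) (dlOf (nat_lit 6) (nat_lit 0x1a3808410f404000e401f00cf00a800c0028000581402f801a01aa00400b20008000a41800d003c004c002000280400220040001381011d0100000840801e000800a4002000200080d0d83))) 
(.lf (nat_lit 1476771925) (dlOf (nat_lit 3) (nat_lit 0x407a000203a000c00c8000941800080e80004604001c002000800081a0302)))) 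
(.lf (nat_lit 470663381) (dlOf (nat_lit 1) (nat_lit 0x4a0008150501))))))) (.nd (nat_lit 8) 
(.nd (nat_lit 5) (.nd (nat_lit 21) (.nd (nat_lit 6) (.nd (nat_lit 19) (.nd (nat_lit 28) 
(.lf (nat_lit 1425429) (dlOf (nat_lit 1) (nat_lit 0x100080004002000400080c0883))) 
(.lf (nat_lit 3491086357) (dlOf (nat_lit 1) (nat_lit 0x20018060481)))) 
(.lf (nat_lit 14532629) (dlOf (nat_lit 2) (nat_lit 0xc237c000cdde0001a0400140028760481)))) 
(.lf (nat_lit 1425493) (dlOf (nat_lit 1) (nat_lit 0x200180c1081)))) (.nd (nat_lit 7) 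
(.lf (nat_lit 20306965) (dlOf (nat_lit 1) (nat_lit 0x600089dbf01))) 
(.lf (nat_lit 3522709) (dlOf (nat_lit 9) (nat_lit 0xa04e10002781003e33b802999800148cbe000460600cc65f0002281002933c00191934008cb1e00384e10002184002b33c0028163c01409c20004206009a68c00461f30000f81000b9a180001c0404f4d0c0000a02000c0018200181))))) 
(.nd (nat_lit 6) (.nd (nat_lit 7) 
(.lf (nat_lit 27115573) (dlOf (nat_lit 2) (nat_lit 0x1843600012818ca0780))) 
(.lf (nat_lit 471714997) (dlOf (nat_lit 2) (nat_lit 0x5b11f802087c0000a2080010004003e00183d6282)))) 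
(.lf (nat_lit 11911285) (dlOf (nat_lit 1) (nat_lit 0xe00286c0081))))) (.nd (nat_lit 5) 
(.nd (nat_lit 6) (.nd (nat_lit 7) 
(.lf (nat_lit 20824341) (dlOf (nat_lit 1) (nat_lit 0x44004001800189e4a02))) 
(.lf (nat_lit 37603733) (dlOf (nat_lit 1) (nat_lit 0x80080004002000200090d4e83)))) (.nd (nat_lit 7) 
(.lf (nat_lit 3522901) (dlOf (nat_lit 3) (nat_lit 0x129a180001c0404b0d0c0000a0200840018200681))) 
(.lf (nat_lit 8248277) (dlOf (nat_lit 1) (nat_lit 0x240020002000851bf02))))) (.nd (nat_lit 6) 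
(.nd (nat_lit 7) (.lf (nat_lit 8246581) (dlOf (nat_lit 1) (nat_lit 0x8008000400200020008519903))) 
(.lf (nat_lit 8242613) (dlOf (nat_lit 1) (nat_lit 0x400200020008513602)))) (.nd (nat_lit 7) 
(.lf (nat_lit 43369845) (dlOf (nat_lit 1) (nat_lit 0x170004012200092a3502))) 
(.lf (nat_lit 45992949) (dlOf (nat_lit 1) (nat_lit 0x20029385f01)))))))) (.nd (nat_lit 31) 
(.nd (nat_lit 26) (.nd (nat_lit 28) (.nd (nat_lit 5) (.nd (nat_lit 6) (.nd (nat_lit 30) 
(.lf (nat_lit 537247765) (dlOf (nat_lit 1) (nat_lit 0x40028070501))) 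
(.lf (nat_lit 1610989589) (dlOf (nat_lit 7) (nat_lit 0x8b029004580d000a804000c801b0011a04000701a0008c40804f8148027c06800c4020008f00d8008c0200440148021806800be020008c00d8008bc2000280d00034040000801b00117030010029002680d00045a080078004002000080b0082)))) 
(.lf (nat_lit 1610989653) (dlOf (nat_lit 1) (nat_lit 0x400080040002002000080b0703)))) 
(.lf (nat_lit 1610989621) (dlOf (nat_lit 2) (nat_lit 0x801a80091c0800480080018002004600080b0483)))) 
(.nd (nat_lit 5) (.nd (nat_lit 6) 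
(.lf (nat_lit 805683221) (dlOf (nat_lit 2) (nat_lit 0x7405600a7a818180500))) 
(.lf (nat_lit 1881522261) (dlOf (nat_lit 1) (nat_lit 0x20018f40801)))) (.nd (nat_lit 6) 
(.lf (nat_lit 1881522229) (dlOf (nat_lit 1) (nat_lit 0x9400200260008f40482))) 
(.lf (nat_lit 1881522421) (dlOf (nat_lit 1) (nat_lit 0x1000200080008f42482)))))) (.nd (nat_lit 27) 
(.nd (nat_lit 5) (.nd (nat_lit 6) 
(.lf (nat_lit 1678098453) (dlOf (nat_lit 2) (nat_lit 0x7405600b2e018180500))) 
(.lf (nat_lit 604356693) (dlOf (nat_lit 3) (nat_lit 0x407a000203a000c00c8000941800080e80004604001c002000800081a0302)))) 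
(.lf (nat_lit 6241501237) (dlOf (nat_lit 1) (nat_lit 0x20018100481)))) (.nd (nat_lit 5) 
(.nd (nat_lit 6) (.nd (nat_lit 7) 
(.lf (nat_lit 738574357) (dlOf (nat_lit 7) (nat_lit 0x8b029004580d000a804000c801b0012604000701a0009240804f8148027c06800c4020008f00d800920200440148021806800be020008c00d80091c2000280d00034040000801b00123030010029002680d00048a080078004002000080b0082))) 
(.lf (nat_lit 1009108117) (dlOf (nat_lit 4) (nat_lit 0x9c1c20044074002a0398002241800a01d000580e60008804004c0e1002603a001801cc0010c0c004c00200220009082b82)))) 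
(.lf (nat_lit 738574421) (dlOf (nat_lit 1) (nat_lit 0x400080040002002000080b0703)))) 
(.lf (nat_lit 738574389) (dlOf (nat_lit 2) (nat_lit 0x801a80091c0800480080018002004600080b0483)))))) 
(.nd (nat_lit 5) (.nd (nat_lit 7) (.nd (nat_lit 26) (.nd (nat_lit 6) 
(.lf (nat_lit 4026908693) (dlOf (nat_lit 10) (nat_lit 0x801a011b0020014011008618100010090043080800200480218204003c022010bd0200020110085e0100040088042e8080008044021700400180220105202009a00280c0a81))) 
(.lf (nat_lit 4026908757) (dlOf (nat_lit 7) (nat_lit 0x90100000f408007008000078040134026000390200a00130001b8100070098000d408028004c00068040004004002000080c1982)))) 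
(.nd (nat_lit 9) (.nd (nat_lit 20) 
(.lf (nat_lit 4228235285) (dlOf (nat_lit 2) (nat_lit 0x5a0480000a018080480))) 
(.lf (nat_lit 2752888853) (dlOf (nat_lit 1) (nat_lit 0x20018060481)))) 
(.lf (nat_lit 2754465301) (dlOf (nat_lit 2) (nat_lit 0x815000080440003204000600180f7081))))) 
(.nd (nat_lit 6) (.nd (nat_lit 8) 
(.lf (nat_lit 2754464917) (dlOf (nat_lit 1) (nat_lit 0x4002000200080f6202))) (.nd (nat_lit 9) 
(.lf (nat_lit 2754464149) (dlOf (nat_lit 1) (nat_lit 0x4002000200080f4e82))) 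
(.lf (nat_lit 2751842197) (dlOf (nat_lit 1) (nat_lit 0x400200020008004202))))) (.nd (nat_lit 27) 
(.lf (nat_lit 2751842261) (dlOf (nat_lit 2) (nat_lit 0x60a800008018004500))) 
(.lf (nat_lit 2886059989) (dlOf (nat_lit 2) (nat_lit 0x2100a00004c080098008002c00200140008144503)))))) 
(.nd (nat_lit 6) (.nd (nat_lit 10) (.nd (nat_lit 21) (.nd (nat_lit 22) 
(.lf (nat_lit 4026908725) (dlOf (nat_lit 1) (nat_lit 0x1200080c1101))) 
(.lf (nat_lit 2756034613) (dlOf (nat_lit 9) (nat_lit 0x605400030298000814400040a0000c04e0005026800380f4003fa1c00380a80026053002602880128140008c09c004404d002301e8007f038007815000440a6004c051002602800100138008809a004603d000fd87000602a0004014c00700a2003a050001c027000d8134006c07a001fa0e002e05d000f401004802e80200170003ce08001c0b8001e502000c05d001302e00078c1000b000800d8002000400081d0a83)))) 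
(.lf (nat_lit 2753937461) (dlOf (nat_lit 2) (nat_lit 0x142840003802000400180a0a81)))) 
(.lf (nat_lit 2752365621) (dlOf (nat_lit 1) (nat_lit 0x400200020008002882)))) (.nd (nat_lit 7) 
(.lf (nat_lit 2754464117) (dlOf (nat_lit 1) (nat_lit 0x4002000200080f4e82))) (.nd (nat_lit 9) 
(.lf (nat_lit 2754989557) (dlOf (nat_lit 1) (nat_lit 0x8004000200080f6f82))) 
(.lf (nat_lit 2751841269) (dlOf (nat_lit 1) (nat_lit 0x400200020008002882))))))))))) 
(.nd (nat_lit 18) (.nd (nat_lit 5) (.nd (nat_lit 6) (.nd (nat_lit 4) (.nd (nat_lit 19) 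
(.nd (nat_lit 8) (.nd (nat_lit 7) (.nd (nat_lit 21) (.nd (nat_lit 22) (.nd (nat_lit 27) 
(.lf (nat_lit 5368823821) (dlOf (nat_lit 1) (nat_lit 0xe0018030001))) 
(.lf (nat_lit 5503041549) (dlOf (nat_lit 1) (nat_lit 0xe0018030001)))) 
(.lf (nat_lit 12697613) (dlOf (nat_lit 1) (nat_lit 0x100080008002000c00086d0683)))) 
(.nd (nat_lit 9) (.lf (nat_lit 44154893) (dlOf (nat_lit 1) (nat_lit 0x3e00292d0001))) 
(.lf (nat_lit 39963149) (dlOf (nat_lit 1) (nat_lit 0xbc00191f5001))))) (.nd (nat_lit 12) 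
(.nd (nat_lit 10) (.lf (nat_lit 1744947853) (dlOf (nat_lit 1) (nat_lit 0x400200020008095482))) 
(.lf (nat_lit 1812057741) (dlOf (nat_lit 1) (nat_lit 0x1400400020008147182)))) (.nd (nat_lit 9) 
(.lf (nat_lit 3221347469) (dlOf (nat_lit 1) (nat_lit 0x800800040020002000811c203))) 
(.lf (nat_lit 20043405) (dlOf (nat_lit 1) (nat_lit 0x4002000200089d9e02)))))) (.nd (nat_lit 11) 
(.nd (nat_lit 32) (.nd (nat_lit 9) 
(.lf (nat_lit 872530317) (dlOf (nat_lit 1) (nat_lit 0x8008000400200020008091003))) 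
(.lf (nat_lit 8508301) (dlOf (nat_lit 1) (nat_lit 0x120018519001)))) (.nd (nat_lit 7) 
(.lf (nat_lit 4563517709) (dlOf (nat_lit 1) (nat_lit 0x400080044002001e0008090a83))) 
(.lf (nat_lit 4697735565) (dlOf (nat_lit 2) (nat_lit 0x400900053408007800800d400200560008091003))))) 
(.nd (nat_lit 9) (.nd (nat_lit 10) (.nd (nat_lit 26) 
(.lf (nat_lit 3892431245) (dlOf (nat_lit 3) (nat_lit 0xa03200b4a010008011805a480800d0008000800200020008104e83))) 
(.lf (nat_lit 3154233741) (dlOf (nat_lit 1) (nat_lit 0x8008000400200020008104e83)))) 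
(.lf (nat_lit 805424525) (dlOf (nat_lit 1) (nat_lit 0x12a0018116c81)))) (.nd (nat_lit 12) 
(.lf (nat_lit 5771479949) (dlOf (nat_lit 1) (nat_lit 0x400400020008005c82))) 
(.lf (nat_lit 3489782669) (dlOf (nat_lit 1) (nat_lit 0x2002800bc81))))))) (.nd (nat_lit 20) 
(.nd (nat_lit 26) (.nd (nat_lit 21) (.nd (nat_lit 22) 
(.lf (nat_lit 134856717) (dlOf (nat_lit 2) (nat_lit 0x170250001f00800e80080008002002800080d0483))) 
(.lf (nat_lit 21610509) (dlOf (nat_lit 1) (nat_lit 0xb8008000400200160008a50083)))) 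
(.nd (nat_lit 24) (.lf (nat_lit 11124749) (dlOf (nat_lit 1) (nat_lit 0x60028660101))) 
(.lf (nat_lit 27901965) (dlOf (nat_lit 5) (nat_lit 0x3b5400021a9e0016cc7000460300016a80006353c000998e0008b060016d50000c6a78009331c001120c0015aa0000cd4f00056638002201802080080128002004a0008d40183))))) 
(.nd (nat_lit 27) (.nd (nat_lit 8) 
(.lf (nat_lit 4362715149) (dlOf (nat_lit 1) (nat_lit 0x4004000200180e0a02))) 
(.lf (nat_lit 4094279949) (dlOf (nat_lit 1) (nat_lit 0x180018033a01)))) (.nd (nat_lit 28) 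
(.lf (nat_lit 201965581) (dlOf (nat_lit 2) (nat_lit 0x170250001f00800e80080008002002800080d0483))) 
(.lf (nat_lit 4228497421) (dlOf (nat_lit 1) (nat_lit 0x4004000200180e0a02)))))) (.nd (nat_lit 10) 
(.nd (nat_lit 22) (.nd (nat_lit 26) 
(.lf (nat_lit 3493445645) (dlOf (nat_lit 1) (nat_lit 0x60028140a01))) 
(.lf (nat_lit 2755248141) (dlOf (nat_lit 1) (nat_lit 0x60028140a01)))) 
(.lf (nat_lit 16367629) (dlOf (nat_lit 4) (nat_lit 0x142b4801495a000408e80008906003256900262b4000111d0001100c0194ad200b8568003c23a00021c180040008000c002001c0008890183)))) 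
(.nd (nat_lit 8) (.lf (nat_lit 20565517) (dlOf (nat_lit 2) (nat_lit 0xb40c0003202000200189d7081))) 
(.nd (nat_lit 22) (.lf (nat_lit 20567309) (dlOf (nat_lit 1) (nat_lit 0x2200189d9681))) 
(.lf (nat_lit 7984397) (dlOf (nat_lit 1) (nat_lit 0x8008001000200060008519683)))))))) 
(.nd (nat_lit 26) (.nd (nat_lit 7) (.nd (nat_lit 21) (.nd (nat_lit 19) 
(.lf (nat_lit 2684469277) (dlOf (nat_lit 1) (nat_lit 0x20018030501))) (.nd (nat_lit 23) 
(.lf (nat_lit 3892953117) (dlOf (nat_lit 2) (nat_lit 0x4016002070182a0a00))) 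
(.lf (nat_lit 42582045) (dlOf (nat_lit 2) (nat_lit 0x195ec000c98d00000029260100))))) 
(.nd (nat_lit 19) (.lf (nat_lit 27377693) (dlOf (nat_lit 1) (nat_lit 0x68004004c0018cd0682))) 
(.nd (nat_lit 20) (.lf (nat_lit 2736157) (dlOf (nat_lit 1) (nat_lit 0x600181a0b01))) 
(.lf (nat_lit 3493445661) (dlOf (nat_lit 1) (nat_lit 0x380080024002004c0008140b83)))))) 
(.nd (nat_lit 8) (.nd (nat_lit 9) (.nd (nat_lit 20) (.nd (nat_lit 22) 
(.lf (nat_lit 35767453) (dlOf (nat_lit 1) (nat_lit 0x1800200020009012b82))) 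
(.lf (nat_lit 48350365) (dlOf (nat_lit 1) (nat_lit 0xd8008001000200020009402b83)))) 
(.lf (nat_lit 36816029) (dlOf (nat_lit 1) (nat_lit 0x20009072b81)))) 
(.lf (nat_lit 3355563677) (dlOf (nat_lit 1) (nat_lit 0x80080008002000400080a9f83)))) 
(.nd (nat_lit 9) (.nd (nat_lit 10) 
(.lf (nat_lit 6576785821) (dlOf (nat_lit 1) (nat_lit 0x400400020008144e82))) 
(.lf (nat_lit 3221347741) (dlOf (nat_lit 1) (nat_lit 0x5000800040020002000811ca83)))) 
(.lf (nat_lit 3087124381) (dlOf (nat_lit 1) (nat_lit 0x800200020008144282)))))) (.nd (nat_lit 32) 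
(.nd (nat_lit 29) (.nd (nat_lit 7) (.nd (nat_lit 19) 
(.lf (nat_lit 3422666781) (dlOf (nat_lit 1) (nat_lit 0x20018030501))) 
(.lf (nat_lit 471449629) (dlOf (nat_lit 1) (nat_lit 0xe0018300a01)))) 
(.lf (nat_lit 474072221) (dlOf (nat_lit 4) (nat_lit 0x7059c00302cc001815700020ab00108310004002c001c015000448700010b380050598000802c00040150004404000209d8001f80800a80080060002000a0009082b83)))) 
(.nd (nat_lit 20) (.nd (nat_lit 21) 
(.lf (nat_lit 4228497437) (dlOf (nat_lit 1) (nat_lit 0x1fc004005a00080e0b02))) 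
(.lf (nat_lit 1009369117) (dlOf (nat_lit 1) (nat_lit 0x9c0009130581)))) 
(.lf (nat_lit 2755248157) (dlOf (nat_lit 1) (nat_lit 0x380080024002004c0008140b83))))) 
(.nd (nat_lit 7) (.nd (nat_lit 19) (.nd (nat_lit 27) 
(.lf (nat_lit 5435932701) (dlOf (nat_lit 2) (nat_lit 0x220300009c018040080))) 
(.lf (nat_lit 5301714973) (dlOf (nat_lit 2) (nat_lit 0x220300009c018040080)))) 
(.lf (nat_lit 4362715165) (dlOf (nat_lit 1) (nat_lit 0x1fc004005a00080e0b02)))) (.nd (nat_lit 8) 
(.nd (nat_lit 11) (.lf (nat_lit 5570151581) (dlOf (nat_lit 1) (nat_lit 0x1e0018052b81))) 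
(.lf (nat_lit 6509677725) (dlOf (nat_lit 1) (nat_lit 0x400400020008146282)))) 
(.lf (nat_lit 5972805533) (dlOf (nat_lit 1) (nat_lit 0x400400020008144282)))))))) (.nd (nat_lit 8) 
(.nd (nat_lit 29) (.nd (nat_lit 7) (.nd (nat_lit 4) (.nd (nat_lit 23) (.nd (nat_lit 19) 
(.nd (nat_lit 27) 
(.lf (nat_lit 2483142733) (dlOf (nat_lit 12) (nat_lit 0x2402a0043014001280600004c0c003805400d40280001282000f015002800a00004808011c0500002302001a02a00280140000881000700a800ac0500002104002602a00500140000801000680a80003e040314054022e0280000c0200020150000300802380a00000004012400400180008030f82))) 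
(.lf (nat_lit 2348925005) (dlOf (nat_lit 12) (nat_lit 0x2402a0043014001280600004c0c003805400d40280001282000f015002800a00004808011c0500002302001a02a00280140000881000700a800ac0500002104002602a00500140000801000680a80003e040314054022e0280000c0200020150000300802380a00000004012400400180008030f82)))) 
(.lf (nat_lit 3221864525) (dlOf (nat_lit 2) (nat_lit 0x5500500008808082000809b8002009e00081a1503)))) 
(.nd (nat_lit 25) 
(.lf (nat_lit 25280589) (dlOf (nat_lit 2) (nat_lit 0x240000004d0200080008bf0d01))) 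
(.lf (nat_lit 58835021) (dlOf (nat_lit 1) (nat_lit 0x9800197e0001))))) (.nd (nat_lit 21) 
(.nd (nat_lit 22) (.lf (nat_lit 5435932765) (dlOf (nat_lit 1) (nat_lit 0x20028040701))) 
(.lf (nat_lit 12697693) (dlOf (nat_lit 2) (nat_lit 0x84d60001802000200186d1201)))) 
(.lf (nat_lit 52543581) (dlOf (nat_lit 2) (nat_lit 0x18a4300005819550880))))) (.nd (nat_lit 10) 
(.nd (nat_lit 9) (.nd (nat_lit 19) 
(.lf (nat_lit 5503041741) (dlOf (nat_lit 1) (nat_lit 0x20008031801))) 
(.lf (nat_lit 14270669) (dlOf (nat_lit 1) (nat_lit 0x1d8008000800200120008750483)))) 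
(.lf (nat_lit 20042445) (dlOf (nat_lit 1) (nat_lit 0x4002000200089d8c82)))) (.nd (nat_lit 19) 
(.lf (nat_lit 402769101) (dlOf (nat_lit 1) (nat_lit 0x400400020008092d82))) 
(.lf (nat_lit 7980237) (dlOf (nat_lit 1) (nat_lit 0x680080034002000a0008512d83)))))) 
(.nd (nat_lit 10) (.nd (nat_lit 11) (.nd (nat_lit 4) (.nd (nat_lit 26) 
(.lf (nat_lit 2952904909) (dlOf (nat_lit 1) (nat_lit 0x400400020008010482))) 
(.lf (nat_lit 604094669) (dlOf (nat_lit 1) (nat_lit 0x8008000400200020008010483)))) 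
(.lf (nat_lit 5301715037) (dlOf (nat_lit 1) (nat_lit 0x20028040701)))) (.nd (nat_lit 9) 
(.nd (nat_lit 27) (.lf (nat_lit 2751584333) (dlOf (nat_lit 1) (nat_lit 0x40040002000800a682))) 
(.lf (nat_lit 3959543885) (dlOf (nat_lit 1) (nat_lit 0x800800040020002000811a683)))) 
(.lf (nat_lit 3959544397) (dlOf (nat_lit 1) (nat_lit 0x40040002001811b602))))) (.nd (nat_lit 28) 
(.nd (nat_lit 4) (.lf (nat_lit 1610729037) (dlOf (nat_lit 1) (nat_lit 0x1000200040008093882))) 
(.lf (nat_lit 1611252829) (dlOf (nat_lit 2) (nat_lit 0x6015c001c604001400200120008122902)))) 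
(.nd (nat_lit 7) (.lf (nat_lit 1881261133) (dlOf (nat_lit 1) (nat_lit 0x14004000a0008e82882))) 
(.lf (nat_lit 2080490701) (dlOf (nat_lit 1) (nat_lit 0x400400020008092d82))))))) (.nd (nat_lit 4) 
(.nd (nat_lit 31) (.nd (nat_lit 19) (.nd (nat_lit 7) (.nd (nat_lit 9) 
(.lf (nat_lit 4563517773) (dlOf (nat_lit 3) (nat_lit 0x80bc0003a04001c05e0001a02002c0008090d01))) 
(.lf (nat_lit 805428045) (dlOf (nat_lit 2) (nat_lit 0x402a802bec0800500080014002000e000811bc83)))) 
(.lf (nat_lit 20040653) (dlOf (nat_lit 1) (nat_lit 0x4002000200089d5d82)))) (.nd (nat_lit 7) 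
(.nd (nat_lit 10) (.lf (nat_lit 23707981) (dlOf (nat_lit 1) (nat_lit 0x8008000400200020008b80603))) 
(.lf (nat_lit 7984461) (dlOf (nat_lit 1) (nat_lit 0x400400020018519902)))) 
(.lf (nat_lit 7980493) (dlOf (nat_lit 1) (nat_lit 0x400200020008513602))))) (.nd (nat_lit 11) 
(.nd (nat_lit 22) (.nd (nat_lit 26) 
(.lf (nat_lit 4026646861) (dlOf (nat_lit 1) (nat_lit 0x18008000800200060008014c83))) 
(.lf (nat_lit 3288449357) (dlOf (nat_lit 1) (nat_lit 0x18008000800200060008014c83)))) 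
(.lf (nat_lit 2755772749) (dlOf (nat_lit 2) (nat_lit 0x481a80007e04000c004000800181b0602)))) 
(.nd (nat_lit 9) (.lf (nat_lit 3825323341) (dlOf (nat_lit 1) (nat_lit 0x8c0028146a01))) 
(.lf (nat_lit 3221347149) (dlOf (nat_lit 3) (nat_lit 0x402300038114015b808003c08c00200450056d02811bc80)))))) 
(.nd (nat_lit 11) (.nd (nat_lit 7) (.nd (nat_lit 26) 
(.lf (nat_lit 4026646877) (dlOf (nat_lit 1) (nat_lit 0x80008014e81))) 
(.lf (nat_lit 1946272093) (dlOf (nat_lit 1) (nat_lit 0x118008001400200040008014e83)))) 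
(.nd (nat_lit 19) (.lf (nat_lit 3288449501) (dlOf (nat_lit 1) (nat_lit 0x40028017181))) 
(.nd (nat_lit 20) 
(.lf (nat_lit 5774098909) (dlOf (nat_lit 1) (nat_lit 0x24800802fc00200a800080f7c83))) 
(.lf (nat_lit 473547229) (dlOf (nat_lit 1) (nat_lit 0x400400020008f67c82)))))) (.nd (nat_lit 28) 
(.nd (nat_lit 10) (.nd (nat_lit 12) 
(.lf (nat_lit 33147229) (dlOf (nat_lit 1) (nat_lit 0x60008002c00200020008f54e83))) 
(.lf (nat_lit 3959544157) (dlOf (nat_lit 1) (nat_lit 0x40040002000811ab82)))) 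
(.lf (nat_lit 3221347677) (dlOf (nat_lit 1) (nat_lit 0x380040012001811c902)))) (.nd (nat_lit 29) 
(.nd (nat_lit 30) 
(.lf (nat_lit 4563519837) (dlOf (nat_lit 1) (nat_lit 0x18008012c00200140008094e83))) 
(.lf (nat_lit 3489778013) (dlOf (nat_lit 1) (nat_lit 0x20018004e81)))) (.nd (nat_lit 10) 
(.lf (nat_lit 805423453) (dlOf (nat_lit 1) (nat_lit 0x80028114e81))) 
(.lf (nat_lit 805424477) (dlOf (nat_lit 1) (nat_lit 0x20028116a81)))))))))) (.nd (nat_lit 4) 
(.nd (nat_lit 26) (.nd (nat_lit 21) (.nd (nat_lit 30) (.nd (nat_lit 11) (.nd (nat_lit 6) 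
(.nd (nat_lit 19) 
(.lf (nat_lit 47300653) (dlOf (nat_lit 2) (nat_lit 0x36820006afd80002c1000500080004002000a00093d0c83))) 
(.lf (nat_lit 134856749) (dlOf (nat_lit 1) (nat_lit 0xf4002000c00080d0b02)))) (.nd (nat_lit 9) 
(.lf (nat_lit 402769133) (dlOf (nat_lit 1) (nat_lit 0x400400020008092e82))) 
(.lf (nat_lit 939640557) (dlOf (nat_lit 1) (nat_lit 0x24004000c0008143b02))))) (.nd (nat_lit 25) 
(.nd (nat_lit 6) (.lf (nat_lit 116909) (dlOf (nat_lit 1) (nat_lit 0x400400020008004902))) 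
(.lf (nat_lit 805428589) (dlOf (nat_lit 1) (nat_lit 0x2001811c901)))) (.nd (nat_lit 19) 
(.lf (nat_lit 58837421) (dlOf (nat_lit 1) (nat_lit 0x4002000200097e4e82))) 
(.lf (nat_lit 39438765) (dlOf (nat_lit 1) (nat_lit 0x20019194e81)))))) (.nd (nat_lit 6) 
(.nd (nat_lit 28) (.nd (nat_lit 27) 
(.lf (nat_lit 3221864493) (dlOf (nat_lit 2) (nat_lit 0x3600d0000e8181a0d80))) 
(.lf (nat_lit 3892953133) (dlOf (nat_lit 4) (nat_lit 0x200600006204001806c00030020002018000178182a0b00)))) 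
(.nd (nat_lit 7) (.lf (nat_lit 1342816301) (dlOf (nat_lit 1) (nat_lit 0x4002000200080d0982))) 
(.lf (nat_lit 1342294445) (dlOf (nat_lit 1) (nat_lit 0xa0028004e81))))) (.nd (nat_lit 8) 
(.lf (nat_lit 5905696493) (dlOf (nat_lit 1) (nat_lit 0x2e0018143b01))) (.nd (nat_lit 10) 
(.lf (nat_lit 1073857005) (dlOf (nat_lit 1) (nat_lit 0x60008000400200060008017d03))) 
(.lf (nat_lit 3221343725) (dlOf (nat_lit 1) (nat_lit 0x400400020008116f02))))))) (.nd (nat_lit 19) 
(.nd (nat_lit 22) (.nd (nat_lit 23) (.nd (nat_lit 9) 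
(.lf (nat_lit 52543533) (dlOf (nat_lit 1) (nat_lit 0x400200020009550282))) 
(.lf (nat_lit 3491873325) (dlOf (nat_lit 1) (nat_lit 0x400400080008090e82)))) (.nd (nat_lit 20) 
(.lf (nat_lit 27377709) (dlOf (nat_lit 1) (nat_lit 0xc00200080008cd0802))) 
(.lf (nat_lit 28426285) (dlOf (nat_lit 1) (nat_lit 0x80028d90a01))))) (.nd (nat_lit 7) 
(.lf (nat_lit 23183405) (dlOf (nat_lit 3) (nat_lit 0xba55b000040080032ad80001c04003800200240008b60902))) 
(.nd (nat_lit 20) (.lf (nat_lit 31573165) (dlOf (nat_lit 1) (nat_lit 0x40018e92c01))) 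
(.lf (nat_lit 32621741) (dlOf (nat_lit 2) (nat_lit 0x2aa480017c0800300080028002000a0008ef2c03)))))) 
(.nd (nat_lit 20) (.nd (nat_lit 25) (.nd (nat_lit 23) 
(.lf (nat_lit 3492397101) (dlOf (nat_lit 1) (nat_lit 0x200280c0d81))) 
(.lf (nat_lit 11124781) (dlOf (nat_lit 1) (nat_lit 0x160008006800200400008660783)))) 
(.nd (nat_lit 6) (.lf (nat_lit 48873517) (dlOf (nat_lit 1) (nat_lit 0x88008000400200020009440283))) 
(.lf (nat_lit 61458029) (dlOf (nat_lit 1) (nat_lit 0x20029923901))))) (.nd (nat_lit 6) 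
(.nd (nat_lit 8) 
(.lf (nat_lit 24756269) (dlOf (nat_lit 5) (nat_lit 0x297aa0001602000abd50000a0100065ea800014080032f540000804004800400080008bb0d82))) 
(.lf (nat_lit 7979821) (dlOf (nat_lit 1) (nat_lit 0x20008001800200080008512203)))) 
(.lf (nat_lit 7980269) (dlOf (nat_lit 1) (nat_lit 0x90008003c00200060008512e83))))))) 
(.nd (nat_lit 11) (.nd (nat_lit 31) (.nd (nat_lit 29) (.nd (nat_lit 20) (.nd (nat_lit 28) 
(.lf (nat_lit 201965613) (dlOf (nat_lit 1) (nat_lit 0xf4002000c00080d0b02))) 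
(.lf (nat_lit 470401069) (dlOf (nat_lit 1) (nat_lit 0x4002000200080d0982)))) 
(.lf (nat_lit 471449645) (dlOf (nat_lit 2) (nat_lit 0xe0b100090470000f4100008008000400200040008300b03)))) 
(.nd (nat_lit 6) 
(.lf (nat_lit 1009369133) (dlOf (nat_lit 6) (nat_lit 0x302b00006c0800201400001604000c0ac00060500004026800028180028158000c0a60010050000702680002420002015800080a6000e0500006026800020200010008001400200020009130c83))) 
(.lf (nat_lit 2080490733) (dlOf (nat_lit 1) (nat_lit 0x400400020008092e82))))) (.nd (nat_lit 19) 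
(.nd (nat_lit 9) (.nd (nat_lit 27) 
(.lf (nat_lit 2483142701) (dlOf (nat_lit 4) (nat_lit 0x1e0000001601007e0000000ac0800780a801f80500000004000c0008030c01))) 
(.lf (nat_lit 2348924973) (dlOf (nat_lit 4) (nat_lit 0x1e0000001781007e0000000b80800780a801f80500000004000c0008030c01)))) 
(.lf (nat_lit 2617366061) (dlOf (nat_lit 1) (nat_lit 0x2c002000800080a9c02)))) (.nd (nat_lit 6) 
(.lf (nat_lit 3154755629) (dlOf (nat_lit 4) (nat_lit 0x300a20006016000028200040288000080800d0144005009e000c03300000038320e00))) 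
(.lf (nat_lit 4094279917) (dlOf (nat_lit 1) (nat_lit 0x2a0018031e81)))))) (.nd (nat_lit 7) 
(.nd (nat_lit 12) (.nd (nat_lit 6) (.nd (nat_lit 8) 
(.lf (nat_lit 6509678125) (dlOf (nat_lit 1) (nat_lit 0x400200020008147182))) 
(.lf (nat_lit 5704370989) (dlOf (nat_lit 3) (nat_lit 0x803200154020008018000200a800250100010008001000200080008055c03)))) 
(.lf (nat_lit 6509677933) (dlOf (nat_lit 1) (nat_lit 0x400400020008146b02)))) (.nd (nat_lit 8) 
(.lf (nat_lit 2751584301) (dlOf (nat_lit 1) (nat_lit 0x68001800a601))) (.nd (nat_lit 27) 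
(.lf (nat_lit 2751584557) (dlOf (nat_lit 1) (nat_lit 0x40040002000800ab82))) 
(.lf (nat_lit 3959544109) (dlOf (nat_lit 1) (nat_lit 0x800800040020002000811ab83)))))) 
(.nd (nat_lit 6) (.nd (nat_lit 8) 
(.lf (nat_lit 5972805805) (dlOf (nat_lit 1) (nat_lit 0x400400020008144902))) 
(.lf (nat_lit 2754726317) (dlOf (nat_lit 1) (nat_lit 0x200280f4e81)))) (.nd (nat_lit 10) 
(.nd (nat_lit 30) (.lf (nat_lit 2751580397) (dlOf (nat_lit 1) (nat_lit 0x20028004b81))) 
(.lf (nat_lit 1677838573) (dlOf (nat_lit 1) (nat_lit 0x400400020008114b82)))) 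
(.lf (nat_lit 3825323245) (dlOf (nat_lit 1) (nat_lit 0x8008000400200020008146503)))))))) 
(.nd (nat_lit 6) (.nd (nat_lit 7) (.nd (nat_lit 10) (.nd (nat_lit 19) (.nd (nat_lit 26) 
(.lf (nat_lit 268550205) (dlOf (nat_lit 1) (nat_lit 0xc0018061201))) (.nd (nat_lit 27) 
(.lf (nat_lit 2483142717) (dlOf (nat_lit 4) (nat_lit 0x9402a00b90140027807800d403000a6010002f004800c8000002761c003c0540086028000668200090140003300801b0008003000200360008030d03))) 
(.lf (nat_lit 2348924989) (dlOf (nat_lit 4) (nat_lit 0x9402a00b90140027807400d403000a6010002f004000c8000002761c003c0540086028000668200090140003300801b0008003000200360008030d03))))) 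
(.nd (nat_lit 22) (.nd (nat_lit 23) 
(.lf (nat_lit 3221864509) (dlOf (nat_lit 3) (nat_lit 0x66011401a0084017c03f00b601980130024000a81401fc08c013004300b002000014418018800800cc002005c00081a1403))) 
(.lf (nat_lit 25804861) (dlOf (nat_lit 1) (nat_lit 0x60028c10001)))) 
(.lf (nat_lit 21610557) (dlOf (nat_lit 5) (nat_lit 0x17176a80b9bb500061da60016ed2001c76800027b3c0079d430057307030bed5017e76a00057b480005da0000fecf002b942818cf6a80aebb50000fda60008ed00001f6780007a8600ae40c062fdaa02c0ed40002f698001fb40000fd9e0006ea1802b8c3017780080550002059e0008a51683))))) 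
(.nd (nat_lit 8) (.nd (nat_lit 26) 
(.lf (nat_lit 3355563581) (dlOf (nat_lit 1) (nat_lit 0x200080a9c01))) 
(.lf (nat_lit 2617366077) (dlOf (nat_lit 2) (nat_lit 0x4805e0003c02000200080a9c01)))) 
(.nd (nat_lit 11) (.lf (nat_lit 7984445) (dlOf (nat_lit 1) (nat_lit 0x8008008c002000c0008519903))) 
(.nd (nat_lit 28) (.lf (nat_lit 6509677885) (dlOf (nat_lit 1) (nat_lit 0x26a0028146901))) 
(.lf (nat_lit 1409404221) (dlOf (nat_lit 1) (nat_lit 0x20028006901))))))) (.nd (nat_lit 9) 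
(.nd (nat_lit 11) (.nd (nat_lit 8) 
(.lf (nat_lit 6375981245) (dlOf (nat_lit 1) (nat_lit 0xc80080090002001c0008031703))) 
(.lf (nat_lit 61457853) (dlOf (nat_lit 1) (nat_lit 0x20029923601)))) (.nd (nat_lit 19) 
(.nd (nat_lit 26) (.lf (nat_lit 116925) (dlOf (nat_lit 1) (nat_lit 0x360018004901))) 
(.lf (nat_lit 5972805821) (dlOf (nat_lit 1) (nat_lit 0x1e0018144901)))) 
(.lf (nat_lit 7981245) (dlOf (nat_lit 1) (nat_lit 0x10008002400200060008514903))))) 
(.nd (nat_lit 10) (.nd (nat_lit 8) 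
(.lf (nat_lit 6376508093) (dlOf (nat_lit 1) (nat_lit 0x400200020008095782))) 
(.lf (nat_lit 3221347261) (dlOf (nat_lit 1) (nat_lit 0x40020002000811be02)))) (.nd (nat_lit 11) 
(.lf (nat_lit 644797) (dlOf (nat_lit 1) (nat_lit 0x2002800a001))) 
(.lf (nat_lit 1812057789) (dlOf (nat_lit 1) (nat_lit 0x60028147281))))))) (.nd (nat_lit 30) 
(.nd (nat_lit 9) (.nd (nat_lit 10) (.nd (nat_lit 7) 
(.lf (nat_lit 6711001213) (dlOf (nat_lit 1) (nat_lit 0x400200020008030c82))) (.nd (nat_lit 8) 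
(.lf (nat_lit 4563517693) (dlOf (nat_lit 2) (nat_lit 0x400900053408007800800d400200560008090a83))) 
(.lf (nat_lit 2751584765) (dlOf (nat_lit 1) (nat_lit 0x4001800b281))))) (.nd (nat_lit 8) 
(.nd (nat_lit 22) (.lf (nat_lit 20567165) (dlOf (nat_lit 1) (nat_lit 0x1800189d9501))) 
(.lf (nat_lit 7984253) (dlOf (nat_lit 1) (nat_lit 0x40028519501)))) 
(.lf (nat_lit 7980413) (dlOf (nat_lit 1) (nat_lit 0x400400020008513582))))) (.nd (nat_lit 8) 
(.nd (nat_lit 19) (.nd (nat_lit 20) 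
(.lf (nat_lit 5100390013) (dlOf (nat_lit 2) (nat_lit 0xb0128000b4080010008001400200080008053983))) 
(.lf (nat_lit 61982333) (dlOf (nat_lit 2) (nat_lit 0x583a000601940013027000100000005a10000c00400300019923982)))) 
(.lf (nat_lit 53069437) (dlOf (nat_lit 1) (nat_lit 0x1c00400020019573982)))) (.nd (nat_lit 19) 
(.lf (nat_lit 8509309) (dlOf (nat_lit 1) (nat_lit 0x18008000c0020006000851a303))) 
(.lf (nat_lit 7985021) (dlOf (nat_lit 1) (nat_lit 0x800800040020002000851a303)))))) 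
(.nd (nat_lit 8) (.nd (nat_lit 10) (.nd (nat_lit 7) (.nd (nat_lit 19) 
(.lf (nat_lit 5503041661) (dlOf (nat_lit 1) (nat_lit 0x160018030d01))) 
(.lf (nat_lit 6378078333) (dlOf (nat_lit 1) (nat_lit 0x1c0018103581)))) 
(.lf (nat_lit 1744945405) (dlOf (nat_lit 1) (nat_lit 0x8008000400200020008090a83)))) 
(.nd (nat_lit 7) (.nd (nat_lit 9) 
(.lf (nat_lit 6377555069) (dlOf (nat_lit 1) (nat_lit 0x200180e2a81))) 
(.lf (nat_lit 1345439357) (dlOf (nat_lit 13) (nat_lit 0x228584001c29c013209d000130300840b0801f053803c413a005408e000128400600b0801b8538035413a005c08e000120400080a700008c080018274000380400c413a0001b02002a09d0000c0100100b2801b02740002e08006c13a0001502010016100420a70084827400bc11c0001408008e09d0000801002304e80003c080120008004800200020008bb3983)))) 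
(.lf (nat_lit 6375458045) (dlOf (nat_lit 1) (nat_lit 0x400400020008002f02))))) (.nd (nat_lit 7) 
(.nd (nat_lit 9) (.nd (nat_lit 26) 
(.lf (nat_lit 3221343613) (dlOf (nat_lit 2) (nat_lit 0x40450001b818116c00))) 
(.lf (nat_lit 3825323389) (dlOf (nat_lit 1) (nat_lit 0x8008000400200020008146c03)))) 
(.lf (nat_lit 1677838205) (dlOf (nat_lit 1) (nat_lit 0x400400020018114102)))) (.nd (nat_lit 9) 
(.lf (nat_lit 1073857021) (dlOf (nat_lit 2) (nat_lit 0x98052000000200020018017e01))) 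
(.lf (nat_lit 5905696765) (dlOf (nat_lit 1) (nat_lit 0x4c0018144701)))))))))) (.nd (nat_lit 4) 
(.nd (nat_lit 28) (.nd (nat_lit 21) (.nd (nat_lit 6) (.nd (nat_lit 19) (.nd (nat_lit 5) 
(.nd (nat_lit 26) (.nd (nat_lit 27) (.nd (nat_lit 20) 
(.lf (nat_lit 6442827789) (dlOf (nat_lit 2) (nat_lit 0x245015007c804c02b0014009600300ad001000044280eb0008020c002089c00081d0383))) 
(.lf (nat_lit 1425421) (dlOf (nat_lit 1) (nat_lit 0x280080050002001800080c0483)))) 
(.nd (nat_lit 30) (.lf (nat_lit 134594573) (dlOf (nat_lit 1) (nat_lit 0xc00200080008080102))) 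
(.lf (nat_lit 3355820045) (dlOf (nat_lit 27) (nat_lit 0x13c0240004b020152032018f0090001281001780480009004012806606300320116018802980a401a002e044801201100088017802400086200bc8064011003102f801600d980a40e1002405b400901a80000001083818f00c80e5c02400041040228032007a0090001001008000c80007e0403c00640003e02022a0320001e810307018815e804813300220003b06034a03200e5018800280a4066402401640110001d0500ef01880e8004807280220003906001001201cd0088000e01007a80440006e04001c062000360200020310000c8101a5019007200c4045402400120110000b84018601900a680480002a08022c064005c03100550090000501800780c401340240001304008003100009010123019815e00c80018062026e02903180090000442800a80480001e0400fc0620000a02039203201b50090000001014180080fdc00206c60008120103))))) 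
(.nd (nat_lit 27) (.nd (nat_lit 29) 
(.lf (nat_lit 3288711181) (dlOf (nat_lit 2) (nat_lit 0x8034015e60400bc004004e00080c0802))) 
(.lf (nat_lit 4899323917) (dlOf (nat_lit 1) (nat_lit 0x8008000400200400008110083)))) 
(.lf (nat_lit 201703437) (dlOf (nat_lit 1) (nat_lit 0xc00200080008080102))))) (.nd (nat_lit 26) 
(.nd (nat_lit 20) (.nd (nat_lit 22) 
(.lf (nat_lit 3355820077) (dlOf (nat_lit 3) (nat_lit 0x1a02f00bf081000d017805f340800b8008008000200300008120783))) 
(.lf (nat_lit 12959789) (dlOf (nat_lit 4) (nat_lit 0xea4c000160200055260003a8f8000d4540000a0c0006a4c0000402000a00186f0d81)))) 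
(.lf (nat_lit 1425453) (dlOf (nat_lit 1) (nat_lit 0x400280c0c01)))) (.nd (nat_lit 29) 
(.lf (nat_lit 3288711213) (dlOf (nat_lit 2) (nat_lit 0x480680014010001a004000100380c0d80))) 
(.lf (nat_lit 1678098477) (dlOf (nat_lit 23) (nat_lit 0x11a056000178100b302b0000b80802f01580005a0400440ac0002c02027a0560000901004602b00004408083815402d80a8018005300f80290071813801ec09800ea04a00f0022805400dc03e4062000603000ff01680bc00b003ec024018400a00d2003007c800000020440b080aa04fc053027c02700690130029c09400140470075022806b00dc0044068036603100f701680f180b0000404803a6016023500900dc8028025000c03140000000792012002b0096014c01dc0a4004804c0129025009900c80320062009202f00e4016002900ac0030052024a013001700800520028000c00c0000e1e035605601ae029801c0138021809400980320022018803a80bc0458058008602b0003014801a80900ea0026004c01001c5005002100200001a3c01e00ac0000c020102056000058100190270042012800014080154064000090200e004a0000401000a02b003e00c80000e08004c0ac00cc04a007f01900001818002015400640a6001404e0133025004e0114041406401ba031000d00500001440012815800008040310064000030201340320000081000302a80290138001009400c4032020e009800000281fb80080a0c00206c60008180803))))))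 
(.nd (nat_lit 20) (.nd (nat_lit 29) (.nd (nat_lit 22) 
(.lf (nat_lit 901133) (dlOf (nat_lit 2) (nat_lit 0x140654002ac04000400400020018030482))) 
(.lf (nat_lit 13484045) (dlOf (nat_lit 1) (nat_lit 0x400400020018730482)))) (.nd (nat_lit 27) 
(.lf (nat_lit 537772045) (dlOf (nat_lit 1) (nat_lit 0x400400020008180482))) 
(.lf (nat_lit 2819473421) (dlOf (nat_lit 14) (nat_lit 0x10078000b039000581a800200d2000e067000c03080058178001c0b0000204b000502400058108002c07e001201b000700c8018f87000081e000300e4001606a000902f0000812c002407e006380c001a078000103b800b01c800080d40012061001902f000a812c003c07e0063210001e0780001039000301a800040d20004061000402f0001012c0058084002803f000300d8018bc5000281bc001c0dc001c05b000201e000300ec001006c000a034003138700080378003816c00040780062106001406f000b02d800700f0000406800020220030b8500070378005816c00200780012036000901a0004008800c2818000406c005c6020010022002dc0100030110016a40800080d800040440059c040004036000201100166c100008008007000200f200082a0283)))))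 
(.nd (nat_lit 7) (.nd (nat_lit 10) 
(.lf (nat_lit 22921229) (dlOf (nat_lit 9) (nat_lit 0x249a90009ed4600354b0800d257800cc000000430a00bcd48000210100e56a4003bb51800192bc0004106002bd720001f810151eb80089b5200325a8c00a295e01e40000000ec2801875c00079a900003a0400a9d700001c01004c6a40000440801a0008010400200040008b40103))) 
(.lf (nat_lit 56476685) (dlOf (nat_lit 1) (nat_lit 0x20009732881)))) 
(.lf (nat_lit 2753413261) (dlOf (nat_lit 1) (nat_lit 0x800200060008090102)))))) (.nd (nat_lit 20) 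
(.nd (nat_lit 22) (.nd (nat_lit 26) (.nd (nat_lit 19) 
(.lf (nat_lit 1610989645) (dlOf (nat_lit 1) (nat_lit 0x2000200b200080b0602))) 
(.lf (nat_lit 42844237) (dlOf (nat_lit 1) (nat_lit 0x20019280681)))) (.nd (nat_lit 27) 
(.lf (nat_lit 3288711245) (dlOf (nat_lit 2) (nat_lit 0x36020001e009800080280007a0c0008004000e00080c1502))) 
(.lf (nat_lit 738574413) (dlOf (nat_lit 1) (nat_lit 0x2000200b200080b0602))))) (.nd (nat_lit 5) 
(.lf (nat_lit 29737037) (dlOf (nat_lit 6) (nat_lit 0x1964680016404005b374011991b007cc8d0001e3c80101ed2000890a00619ba0096c8d80486468000b216001f71900587b480022030010e6e80243236010191a0020b8c80114240010ded2000860c000991b0010c8d0002141000e8008009800200020008e30183))) 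
(.lf (nat_lit 54903149) (dlOf (nat_lit 1) (nat_lit 0x20029667601))))) (.nd (nat_lit 19) 
(.nd (nat_lit 22) 
(.lf (nat_lit 1425485) (dlOf (nat_lit 4) (nat_lit 0x1a0b0000c838c004c0e20022065000058400020b00000240801e058001001c60000004003e00280c0f81))) 
(.lf (nat_lit 55951437) (dlOf (nat_lit 1) (nat_lit 0xb8008001c002002c00096f0683)))) 
(.nd (nat_lit 7) (.nd (nat_lit 9) 
(.lf (nat_lit 18726989) (dlOf (nat_lit 1) (nat_lit 0x20018970181))) 
(.lf (nat_lit 56478285) (dlOf (nat_lit 1) (nat_lit 0x200009735281)))) 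
(.lf (nat_lit 18727117) (dlOf (nat_lit 1) (nat_lit 0x8008027c00200900008970483))))))) 
(.nd (nat_lit 7) (.nd (nat_lit 5) (.nd (nat_lit 6) (.nd (nat_lit 10) (.nd (nat_lit 20) 
(.lf (nat_lit 6668301) (dlOf (nat_lit 1) (nat_lit 0x400400020008440582))) 
(.lf (nat_lit 16105485) (dlOf (nat_lit 1) (nat_lit 0x20018870181)))) (.nd (nat_lit 8) 
(.lf (nat_lit 2754989581) (dlOf (nat_lit 1) (nat_lit 0x1800080f7081))) 
(.lf (nat_lit 19780877) (dlOf (nat_lit 1) (nat_lit 0x200289d9681))))) (.nd (nat_lit 8) 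
(.nd (nat_lit 9) (.lf (nat_lit 48611405) (dlOf (nat_lit 1) (nat_lit 0x20008001000200040009420683))) 
(.lf (nat_lit 36555341) (dlOf (nat_lit 1) (nat_lit 0x20019075281)))) (.nd (nat_lit 9) 
(.lf (nat_lit 58048845) (dlOf (nat_lit 8) (nat_lit 0xc4320005218c000ec0800150c80007502000c864000388100064320001c0080032190000c40400190c80006102000e864000000197b8900))) 
(.lf (nat_lit 20302669) (dlOf (nat_lit 1) (nat_lit 0x200189d5c01)))))) (.nd (nat_lit 23) 
(.nd (nat_lit 6) (.nd (nat_lit 8) 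
(.lf (nat_lit 2754989101) (dlOf (nat_lit 1) (nat_lit 0x200280f6081))) 
(.lf (nat_lit 2755510573) (dlOf (nat_lit 2) (nat_lit 0x4051000308181b0500)))) 
(.lf (nat_lit 2754464877) (dlOf (nat_lit 1) (nat_lit 0x4002000200080f6082)))) (.nd (nat_lit 8) 
(.nd (nat_lit 20) (.lf (nat_lit 48611373) (dlOf (nat_lit 2) (nat_lit 0x8354700012019420280))) 
(.lf (nat_lit 32882733) (dlOf (nat_lit 2) (nat_lit 0xe40780001d0200020008f30281)))) 
(.lf (nat_lit 11911469) (dlOf (nat_lit 3) (nat_lit 0x4d450000e930000720400135140006a4c0001bc1000300080030002001c00086c0503)))))) 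
(.nd (nat_lit 6) (.nd (nat_lit 11) (.nd (nat_lit 19) 
(.lf (nat_lit 11911309) (dlOf (nat_lit 2) (nat_lit 0x2235140110a4c0000ec1000880080004002000e00086c0103))) 
(.nd (nat_lit 20) (.lf (nat_lit 23969933) (dlOf (nat_lit 1) (nat_lit 0x60018b80101))) 
(.lf (nat_lit 20824205) (dlOf (nat_lit 1) (nat_lit 0x10002000c00089e2682))))) (.nd (nat_lit 5) 
(.nd (nat_lit 8) (.lf (nat_lit 2754469005) (dlOf (nat_lit 1) (nat_lit 0x4004000200080fc202))) 
(.lf (nat_lit 62769549) (dlOf (nat_lit 1) (nat_lit 0x4004000200099a4e82)))) (.nd (nat_lit 8) 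
(.lf (nat_lit 2754989741) (dlOf (nat_lit 1) (nat_lit 0x8800080f7281))) 
(.lf (nat_lit 36555181) (dlOf (nat_lit 1) (nat_lit 0x20019074e81)))))) (.nd (nat_lit 5) 
(.nd (nat_lit 8) (.lf (nat_lit 3522765) (dlOf (nat_lit 1) (nat_lit 0x100008001800200160008200483))) 
(.nd (nat_lit 9) (.lf (nat_lit 8242637) (dlOf (nat_lit 1) (nat_lit 0x400200020008513602))) 
(.lf (nat_lit 20304845) (dlOf (nat_lit 1) (nat_lit 0xb00080014002000200089d9203))))) 
(.nd (nat_lit 8) (.lf (nat_lit 2754465005) (dlOf (nat_lit 1) (nat_lit 0x1200280f6501))) 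
(.lf (nat_lit 23445997) (dlOf (nat_lit 1) (nat_lit 0x6000400500018b80d02)))))))) (.nd (nat_lit 5) 
(.nd (nat_lit 26) (.nd (nat_lit 31) (.nd (nat_lit 6) (.nd (nat_lit 10) (.nd (nat_lit 19) 
(.nd (nat_lit 29) (.nd (nat_lit 32) 
(.lf (nat_lit 1342554125) (dlOf (nat_lit 1) (nat_lit 0x20018050a01))) 
(.lf (nat_lit 5637521421) (dlOf (nat_lit 1) (nat_lit 0x40028100001)))) 
(.lf (nat_lit 1879425037) (dlOf (nat_lit 1) (nat_lit 0x30008001000200060008140083)))) 
(.nd (nat_lit 7) 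
(.lf (nat_lit 1343078413) (dlOf (nat_lit 2) (nat_lit 0x61020001825400ad408007800200360008150002))) 
(.lf (nat_lit 1879949453) (dlOf (nat_lit 1) (nat_lit 0x1000200020008490102))))) (.nd (nat_lit 21) 
(.lf (nat_lit 403031053) (dlOf (nat_lit 1) (nat_lit 0x44002000200080e2882))) 
(.lf (nat_lit 1344652301) (dlOf (nat_lit 1) (nat_lit 0x240028922881))))) (.nd (nat_lit 7) 
(.nd (nat_lit 9) 
(.lf (nat_lit 1881522253) (dlOf (nat_lit 2) (nat_lit 0x4f038c0000004000400400020008f40682))) 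
(.lf (nat_lit 1344653901) (dlOf (nat_lit 1) (nat_lit 0x40018925281)))) 
(.lf (nat_lit 5772788173) (dlOf (nat_lit 1) (nat_lit 0x20028091101))))) (.nd (nat_lit 19) 
(.nd (nat_lit 27) (.nd (nat_lit 29) 
(.lf (nat_lit 2416295949) (dlOf (nat_lit 1) (nat_lit 0x8004000200080d0482))) 
(.lf (nat_lit 4026908685) (dlOf (nat_lit 2) (nat_lit 0x803400a940400bc004004e00080c0802)))) 
(.lf (nat_lit 2550513677) (dlOf (nat_lit 1) (nat_lit 0x8004000200080d0482)))) (.nd (nat_lit 7) 
(.lf (nat_lit 3492660237) (dlOf (nat_lit 1) (nat_lit 0x4002000200080f2882))) 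
(.lf (nat_lit 3491610765) (dlOf (nat_lit 1) (nat_lit 0x8008000c00200060008090103)))))) 
(.nd (nat_lit 29) (.nd (nat_lit 19) (.nd (nat_lit 30) (.nd (nat_lit 31) 
(.lf (nat_lit 470138893) (dlOf (nat_lit 1) (nat_lit 0x20018050a01))) 
(.lf (nat_lit 2617622541) (dlOf (nat_lit 29) (nat_lit 0x7500bc000960406cc05e004e0120002502028801801f200bc0b5405c0478029007200900010c2800400c00f1405e06ae029000210301ca018014080bc0d0005c0270029019a0090001042812180bc02940520004004054e02f0001f8102320178000f80812800bc0007a0401a405e051802e01ca0090147804406ec0000003b0a056802f02b00170000e8100bf80bc0007204073805e004e02e0001b0200010170000900803500b80004604001405c0002002000202f00590170000781002200b800034040098060017402f02c701700005c1815180bc0ab805c000160400e002f01d20170000501011680b8000260408c005c0001202004003003d30178000441000180bc0002004033805e0000e02027a02e000050102770178000000803d80080a5800200060008100103)))) 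
(.lf (nat_lit 5838848013) (dlOf (nat_lit 2) (nat_lit 0x245015007c804c02b0014009600500ad001000044280eb0008020c002089c00081d0383)))) 
(.nd (nat_lit 31) (.lf (nat_lit 1410187277) (dlOf (nat_lit 1) (nat_lit 0x400400020008180482))) 
(.lf (nat_lit 3557670925) (dlOf (nat_lit 14) (nat_lit 0x10078000b039000381a800300c80016061000803000058178001c0b0000a04b000b02280008108002c07e001201b000700c802f4c7000081e000300e40016061000902f00008108002407e00bcd0c001a078000103b800b01c800240c80004061001902f000a8108003c07e00bc510001e07800010390001019000180c20002060000402f000b01140008084002803f000300d802f105000281bc001c0dc001c05b000401c000100d8001806a000a034005de0700080378003816c000406c00bb606001406f000b02d800700d800040680002022005d50500070378005816c00240700010036000901a000400880175218000407000b5b020010022005a2010003011002cf80800080e0000404400b310400040380002011002cc0100008008007000200f200082a0283))))) 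
(.nd (nat_lit 7) (.nd (nat_lit 27) 
(.lf (nat_lit 6241501197) (dlOf (nat_lit 1) (nat_lit 0x40028100001))) 
(.lf (nat_lit 1007009805) (dlOf (nat_lit 1) (nat_lit 0x30008001000200060008140083)))) 
(.nd (nat_lit 6) (.lf (nat_lit 1007534221) (dlOf (nat_lit 1) (nat_lit 0x1000200020008490102))) 
(.lf (nat_lit 2080751821) (dlOf (nat_lit 1) (nat_lit 0x28008001c002000200080c1803))))))) 
(.nd (nat_lit 8) (.nd (nat_lit 29) (.nd (nat_lit 26) (.nd (nat_lit 6) 
(.lf (nat_lit 1346748461) (dlOf (nat_lit 1) (nat_lit 0x4000400480009000282))) 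
(.lf (nat_lit 3492135021) (dlOf (nat_lit 2) (nat_lit 0x602280001c040014002002000080a1502)))) 
(.nd (nat_lit 27) 
(.lf (nat_lit 1409663021) (dlOf (nat_lit 1) (nat_lit 0x28008001400200020008070903))) 
(.nd (nat_lit 30) 
(.lf (nat_lit 2617622573) (dlOf (nat_lit 3) (nat_lit 0x202c00da58100a3017800000080070008000c002009c0008100783))) 
(.lf (nat_lit 5838848045) (dlOf (nat_lit 1) (nat_lit 0x4004000200181d0a02)))))) (.nd (nat_lit 21) 
(.nd (nat_lit 27) 
(.lf (nat_lit 805683245) (dlOf (nat_lit 6) (nat_lit 0x5780aa044e05401b202980d6814805ac09c01ea04c003b024818c01140268086041803c011901b805e80c4074c060008002f032b016814980b0040c02e0132016013500900c08044001802003e600a004e004019b801803d800000010320602056016902a80ee814c0acc09c03e604c02c5025004e010c01e406e05ae032000c018802e00b000a80480608013005c009005c80280001c3c04800260000d020100056000602a805a0138035c0940066037007f00980030048000121c01100ac0206032003100980000c1806b00080024002001e0008180903))) 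
(.lf (nat_lit 5234868269) (dlOf (nat_lit 1) (nat_lit 0x4a0028110c81)))) (.nd (nat_lit 6) 
(.lf (nat_lit 1881522221) (dlOf (nat_lit 1) (nat_lit 0x4002000c0008f40282))) 
(.lf (nat_lit 1881522413) (dlOf (nat_lit 1) (nat_lit 0x1a0008f41e81)))))) (.nd (nat_lit 21) 
(.nd (nat_lit 6) (.nd (nat_lit 7) 
(.lf (nat_lit 470663469) (dlOf (nat_lit 2) (nat_lit 0x3c000006140200320008150701))) 
(.lf (nat_lit 6376769965) (dlOf (nat_lit 1) (nat_lit 0x40028094e81)))) 
(.lf (nat_lit 1343078765) (dlOf (nat_lit 1) (nat_lit 0xc00200080008150a02)))) (.nd (nat_lit 6) 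
(.nd (nat_lit 11) (.lf (nat_lit 3493708077) (dlOf (nat_lit 2) (nat_lit 0x4051000350181b0500))) 
(.lf (nat_lit 3492665645) (dlOf (nat_lit 1) (nat_lit 0x4004000200080fab82)))) 
(.lf (nat_lit 3492660205) (dlOf (nat_lit 1) (nat_lit 0x200180f2881)))))))) (.nd (nat_lit 5) 
(.nd (nat_lit 30) (.nd (nat_lit 6) (.nd (nat_lit 19) (.nd (nat_lit 26) (.nd (nat_lit 23) 
(.nd (nat_lit 29) (.nd (nat_lit 20) 
(.lf (nat_lit 134594589) (dlOf (nat_lit 1) (nat_lit 0x400400020008080502))) 
(.lf (nat_lit 1425437) (dlOf (nat_lit 2) (nat_lit 0x60d9000fc0180c0900)))) (.nd (nat_lit 28) 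
(.lf (nat_lit 4832215069) (dlOf (nat_lit 1) (nat_lit 0x5800801f400200840008110083))) 
(.lf (nat_lit 5100650525) (dlOf (nat_lit 2) (nat_lit 0x18090003d004000400400040008110082))))) 
(.nd (nat_lit 7) 
(.lf (nat_lit 12959773) (dlOf (nat_lit 3) (nat_lit 0x1a8d0000540800ed4880052a340001404002000186f0581))) 
(.lf (nat_lit 8770717) (dlOf (nat_lit 2) (nat_lit 0x16020004800000cf208000400400180018519502))))) 
(.nd (nat_lit 27) (.nd (nat_lit 31) 
(.lf (nat_lit 4362453021) (dlOf (nat_lit 4) (nat_lit 0xcc08e0149a02000a04700a3f010008019800000080010008002800200400008080503))) 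
(.lf (nat_lit 6509936669) (dlOf (nat_lit 1) (nat_lit 0x20028170901)))) (.nd (nat_lit 28) 
(.nd (nat_lit 29) (.lf (nat_lit 201703453) (dlOf (nat_lit 1) (nat_lit 0x400400020008080502))) 
(.lf (nat_lit 738574365) (dlOf (nat_lit 2) (nat_lit 0xaa05000080228003011003e0064005e020003e00e0000805c0005e1c003c004000c00080b0102)))) 
(.lf (nat_lit 2617622557) (dlOf (nat_lit 6) (nat_lit 0x80031000cc8100da0000002c4081ab80d00ba8066001a031002a0158079009c0008034029201300430010001f8400a600d00004804041c06204c402d0072015808f80a4000001003700040c7e0018100482)))))) 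
(.nd (nat_lit 7) (.nd (nat_lit 20) (.nd (nat_lit 23) 
(.lf (nat_lit 2819473437) (dlOf (nat_lit 1) (nat_lit 0xa00082a0681))) 
(.lf (nat_lit 42844189) (dlOf (nat_lit 2) (nat_lit 0x2a6bbe000000200040009280101)))) 
(.lf (nat_lit 22921245) (dlOf (nat_lit 24) (nat_lit 0x3fdb10023eb9003575c001eba9c0005bcb0003de200428000004081c00e3b08000dbc4008fddf0012eef0018769c0125b48007bd9d804600000035a2000d4000000b10200160000005801003c0000002bc080426f2c03237880009d040061bc40004c810055de2000260080026f2c0012e0402177880009502011bbcb0004701008bde5800224080016f2c0010e04022f796000860200c9bcb00041010097de20001f8080046f10000820400977880003c0201a3bc40001d810001de20000a008016ef100004e0400f00000001802003bbcb0012de200000010007000801f000200b40008b40483)))) 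
(.nd (nat_lit 9) (.lf (nat_lit 8245661) (dlOf (nat_lit 1) (nat_lit 0x40028518381))) 
(.lf (nat_lit 8247197) (dlOf (nat_lit 1) (nat_lit 0x40020002000851a302)))))) (.nd (nat_lit 19) 
(.nd (nat_lit 7) (.nd (nat_lit 32) (.nd (nat_lit 20) 
(.lf (nat_lit 54903133) (dlOf (nat_lit 1) (nat_lit 0xb00009667101))) 
(.lf (nat_lit 3522909) (dlOf (nat_lit 2) (nat_lit 0x386600002b018200680)))) (.nd (nat_lit 27) 
(.lf (nat_lit 4295344477) (dlOf (nat_lit 1) (nat_lit 0xf4004004e00081a0682))) 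
(.lf (nat_lit 4429562205) (dlOf (nat_lit 1) (nat_lit 0xf4004004e00081a0682))))) (.nd (nat_lit 9) 
(.lf (nat_lit 382429) (dlOf (nat_lit 1) (nat_lit 0x20028009b01))) 
(.lf (nat_lit 2751841245) (dlOf (nat_lit 1) (nat_lit 0x400200020008002882))))) (.nd (nat_lit 8) 
(.nd (nat_lit 7) 
(.lf (nat_lit 51235421) (dlOf (nat_lit 2) (nat_lit 0x8aca4000000403c4002001e0009515302))) 
(.lf (nat_lit 470663389) (dlOf (nat_lit 2) (nat_lit 0x400000001818150580)))) (.nd (nat_lit 20) 
(.lf (nat_lit 47038813) (dlOf (nat_lit 2) (nat_lit 0x6b2c80044004001800200020009397102))) 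
(.lf (nat_lit 20824413) (dlOf (nat_lit 1) (nat_lit 0x4002000200089e7102))))))) (.nd (nat_lit 26) 
(.nd (nat_lit 28) (.nd (nat_lit 27) (.nd (nat_lit 32) 
(.lf (nat_lit 1610989597) (dlOf (nat_lit 2) (nat_lit 0xaa05000080228003011003e0064005e020003e00e0000805c0005e1c003c004000c00080b0102))) 
(.lf (nat_lit 5905956893) (dlOf (nat_lit 1) (nat_lit 0x20028170901)))) 
(.lf (nat_lit 3355820061) (dlOf (nat_lit 18) (nat_lit 0x5c060001002c001e0148001806c0218030000a01600270080002000c0040820033406801b802e0074016801300b002f4056002001300a90060006b43800b00000015e0404c0056000a302047402b00050810183015800280080f400ac0013e0408dc056026a02a0003f0201d8015800b00a8000f20802700560007802043402b0003b810194015800c80a8000ec0804c8056000202a000390200630158000a80801280ac0004e040650056000180200e602e00d201580090030000000c003000400a20008120482)))) 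
(.nd (nat_lit 21) (.nd (nat_lit 22) 
(.lf (nat_lit 4026908701) (dlOf (nat_lit 2) (nat_lit 0x180110085d8180c0a80))) (.nd (nat_lit 31) 
(.lf (nat_lit 1346748445) (dlOf (nat_lit 9) (nat_lit 0xbd0258060410a02ee075017c039803f807c000941404e812c0286085014303a80a001cc03f403e000430a0290096015004280a701d405280e6021c01f0002085001504e003a02340024118008607d000903e001901c800b806000120140001f8800070468000f4080578258014c11a000807d00900398000ec2000c025800140e60003a0400040960001c819000100))) 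
(.lf (nat_lit 3494232093) (dlOf (nat_lit 1) (nat_lit 0x68008003c002000800081d0a03))))) 
(.nd (nat_lit 6) (.lf (nat_lit 3492661405) (dlOf (nat_lit 1) (nat_lit 0x200280f4801))) 
(.lf (nat_lit 3492135005) (dlOf (nat_lit 5) (nat_lit 0x60228000600400201140002e02000608a000108100120450000800800600080038002002e00080a1203)))))) 
(.nd (nat_lit 27) (.nd (nat_lit 7) (.nd (nat_lit 19) 
(.lf (nat_lit 3288711197) (dlOf (nat_lit 2) (nat_lit 0x180110081c0180c0a80))) 
(.lf (nat_lit 3557670941) (dlOf (nat_lit 1) (nat_lit 0xa00082a0681)))) 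
(.lf (nat_lit 3557146781) (dlOf (nat_lit 1) (nat_lit 0x400200020008130282)))) (.nd (nat_lit 29) 
(.lf (nat_lit 5838848029) (dlOf (nat_lit 1) (nat_lit 0x200181d0a01))) 
(.lf (nat_lit 4228235293) (dlOf (nat_lit 4) (nat_lit 0xcc0800160902000a04000af6810008019000000080010008002800200400008080503))))))) 
(.nd (nat_lit 21) (.nd (nat_lit 22) (.nd (nat_lit 19) (.nd (nat_lit 29) (.nd (nat_lit 6) 
(.nd (nat_lit 20) 
(.lf (nat_lit 3288711229) (dlOf (nat_lit 3) (nat_lit 0x10040000b8040094046000c00c000228280c1400))) 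
(.lf (nat_lit 1425469) (dlOf (nat_lit 4) (nat_lit 0x1302c000a00e3003f06c803381c401900ca001560a00be1600060071802781c401300ca000cd08008a16000460718003301000f00080050002009200080c0d03)))) 
(.lf (nat_lit 379005) (dlOf (nat_lit 1) (nat_lit 0x20028004781)))) (.nd (nat_lit 26) 
(.nd (nat_lit 27) 
(.lf (nat_lit 1610989629) (dlOf (nat_lit 2) (nat_lit 0x402a800380dc0012c08003c004001400080b0482))) 
(.lf (nat_lit 5234868285) (dlOf (nat_lit 4) (nat_lit 0xc00c0005802800a80080028030001200a0029f82000d0050014f40800c8008005400200120008111683)))) 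
(.lf (nat_lit 738574397) (dlOf (nat_lit 2) (nat_lit 0x402a800380dc0012c08003c004001400080b0482))))) 
(.nd (nat_lit 6) (.nd (nat_lit 8) 
(.lf (nat_lit 901181) (dlOf (nat_lit 3) (nat_lit 0x210e08005580800807c40019a04000400400040018030d02))) 
(.lf (nat_lit 1344132925) (dlOf (nat_lit 1) (nat_lit 0x1ec00200ac00083da102)))) (.nd (nat_lit 9) 
(.lf (nat_lit 2753413245) (dlOf (nat_lit 2) (nat_lit 0x58087000a9018090080))) 
(.lf (nat_lit 43894397) (dlOf (nat_lit 2) (nat_lit 0x384ab000168192a3980)))))) (.nd (nat_lit 28) 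
(.nd (nat_lit 6) (.nd (nat_lit 7) 
(.lf (nat_lit 2756034621) (dlOf (nat_lit 1) (nat_lit 0x1200081d0c01))) 
(.lf (nat_lit 4571325) (dlOf (nat_lit 1) (nat_lit 0x1000400060008290382)))) (.nd (nat_lit 7) 
(.lf (nat_lit 46517117) (dlOf (nat_lit 1) (nat_lit 0x2a0009385c01))) 
(.lf (nat_lit 38126589) (dlOf (nat_lit 1) (nat_lit 0x4002003c0009132882))))) (.nd (nat_lit 26) 
(.nd (nat_lit 31) 
(.lf (nat_lit 1346748477) (dlOf (nat_lit 2) (nat_lit 0xa80e800520730011e029000600))) 
(.lf (nat_lit 3494232125) (dlOf (nat_lit 1) (nat_lit 0x1200081d0c01)))) 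
(.lf (nat_lit 474333245) (dlOf (nat_lit 1) (nat_lit 0x1400200300009150782)))))) (.nd (nat_lit 6) 
(.nd (nat_lit 7) (.nd (nat_lit 29) (.nd (nat_lit 19) 
(.lf (nat_lit 3492134973) (dlOf (nat_lit 1) (nat_lit 0xa00080008002000200080a0c83))) 
(.lf (nat_lit 11386941) (dlOf (nat_lit 3) (nat_lit 0x12ad80001808002156c0000a04009400400020008690e02)))) 
(.nd (nat_lit 26) (.lf (nat_lit 1881522237) (dlOf (nat_lit 2) (nat_lit 0x2c0e30008f818f40600))) 
(.lf (nat_lit 1009107005) (dlOf (nat_lit 1) (nat_lit 0xe800800d4002004a0009080003))))) 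
(.nd (nat_lit 19) (.nd (nat_lit 10) 
(.lf (nat_lit 11911357) (dlOf (nat_lit 2) (nat_lit 0x1a4c0000bc0800f80080194002006400086c0383))) 
(.lf (nat_lit 1009108157) (dlOf (nat_lit 1) (nat_lit 0xe800800d0002007c0009082c83)))) 
(.nd (nat_lit 11) (.lf (nat_lit 2755510461) (dlOf (nat_lit 1) (nat_lit 0x200281b0381))) 
(.lf (nat_lit 3492661437) (dlOf (nat_lit 1) (nat_lit 0x1c00280f4901)))))) (.nd (nat_lit 8) 
(.nd (nat_lit 9) (.nd (nat_lit 20) 
(.lf (nat_lit 19780733) (dlOf (nat_lit 1) (nat_lit 0x200289d9501))) 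
(.lf (nat_lit 8246397) (dlOf (nat_lit 1) (nat_lit 0x60018519501)))) 
(.lf (nat_lit 61720189) (dlOf (nat_lit 2) (nat_lit 0x529400021452001404e00016839923980)))) 
(.nd (nat_lit 7) (.lf (nat_lit 8247165) (dlOf (nat_lit 1) (nat_lit 0x800800040020002000851a303))) 
(.nd (nat_lit 9) (.lf (nat_lit 20304381) (dlOf (nat_lit 1) (nat_lit 0x80080004002000200089d8683))) 
(.lf (nat_lit 3492660221) (dlOf (nat_lit 1) (nat_lit 0x4002000200080f2882))))))))))))

end

end Pool.Agent.Lib.MP_5854e1_co.Cz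

namespace Pool.Agent.Lib.MP_5854e1_co.Cz

noncomputable section

noncomputable def tz88 : DT := (.nd (nat_lit 3) (.nd (nat_lit 5) (.nd (nat_lit 6) (.nd (nat_lit 28) 
(.nd (nat_lit 16) (.nd (nat_lit 7) (.nd (nat_lit 21) (.nd (nat_lit 18) (.nd (nat_lit 8) 
(.nd (nat_lit 23) (.nd (nat_lit 26) 
(.lf (nat_lit 134922240) (dlOf (nat_lit 2) (nat_lit 0x403b0038a8180e0000))) 
(.lf (nat_lit 202031104) (dlOf (nat_lit 2) (nat_lit 0x403b0065f8180e0000)))) 
(.lf (nat_lit 59424768) (dlOf (nat_lit 2) (nat_lit 0x4e82014cc02000600097f0001)))) 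
(.nd (nat_lit 11) 
(.lf (nat_lit 2684535552) (dlOf (nat_lit 1) (nat_lit 0x80080008002000200080a2103))) 
(.lf (nat_lit 183040) (dlOf (nat_lit 1) (nat_lit 0x20008005a81))))) (.nd (nat_lit 19) 
(.nd (nat_lit 26) (.lf (nat_lit 5906022400) (dlOf (nat_lit 1) (nat_lit 0x20018180001))) 
(.nd (nat_lit 27) (.lf (nat_lit 6510002176) (dlOf (nat_lit 1) (nat_lit 0x20018180001))) 
(.lf (nat_lit 2886123520) (dlOf (nat_lit 1) (nat_lit 0x7e0008160001))))) (.nd (nat_lit 10) 
(.lf (nat_lit 47104000) (dlOf (nat_lit 2) (nat_lit 0x257ec011be040004002000200093a0002))) 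
(.lf (nat_lit 39764992) (dlOf (nat_lit 1) (nat_lit 0x7800191f2881)))))) (.nd (nat_lit 8) 
(.nd (nat_lit 9) (.nd (nat_lit 20) 
(.lf (nat_lit 19578880) (dlOf (nat_lit 1) (nat_lit 0x3c004001600089c0002))) 
(.lf (nat_lit 16433152) (dlOf (nat_lit 3) (nat_lit 0x40958001e47500361ccc00ca80c00152b0003c8ea006c399801940180060008001c002000600088a0003)))) 
(.nd (nat_lit 10) (.lf (nat_lit 8049152) (dlOf (nat_lit 1) (nat_lit 0x10008001000200060008518683))) 
(.lf (nat_lit 8046080) (dlOf (nat_lit 1) (nat_lit 0x2c00400080018513682))))) (.nd (nat_lit 9) 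
(.nd (nat_lit 10) (.lf (nat_lit 20627712) (dlOf (nat_lit 1) (nat_lit 0x80080004002000200089d0a83))) 
(.lf (nat_lit 8045824) (dlOf (nat_lit 1) (nat_lit 0x600018512f01)))) (.nd (nat_lit 10) 
(.lf (nat_lit 57068288) (dlOf (nat_lit 2) (nat_lit 0x2b3b400399d8000110400020019795a81))) 
(.lf (nat_lit 8046336) (dlOf (nat_lit 1) (nat_lit 0x20018513b81))))))) (.nd (nat_lit 31) 
(.nd (nat_lit 11) (.nd (nat_lit 18) (.nd (nat_lit 8) 
(.lf (nat_lit 29016192) (dlOf (nat_lit 1) (nat_lit 0x400200020008da0482))) 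
(.lf (nat_lit 8050560) (dlOf (nat_lit 1) (nat_lit 0x780080004002000a000851a303)))) 
(.nd (nat_lit 29) 
(.lf (nat_lit 4362518656) (dlOf (nat_lit 4) (nat_lit 0x408e0024a02002c047001238100010238006e008009000800e000200380008090083))) 
(.lf (nat_lit 1678164096) (dlOf (nat_lit 2) (nat_lit 0x900280048e040024004000400081a0082))))) 
(.nd (nat_lit 8) (.nd (nat_lit 9) 
(.lf (nat_lit 20109440) (dlOf (nat_lit 1) (nat_lit 0x280080008002000600089da883))) 
(.lf (nat_lit 20105856) (dlOf (nat_lit 1) (nat_lit 0x1600289d5481)))) (.nd (nat_lit 9) 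
(.lf (nat_lit 44484992) (dlOf (nat_lit 1) (nat_lit 0x8008000400200020009324e83))) 
(.lf (nat_lit 20106112) (dlOf (nat_lit 1) (nat_lit 0x200189d5c01)))))) (.nd (nat_lit 12) 
(.nd (nat_lit 18) (.lf (nat_lit 2753216640) (dlOf (nat_lit 2) (nat_lit 0x281fa000fd018090080))) 
(.nd (nat_lit 26) 
(.lf (nat_lit 3221667968) (dlOf (nat_lit 1) (nat_lit 0x60008007400200660008170083))) 
(.lf (nat_lit 3959865472) (dlOf (nat_lit 1) (nat_lit 0x60008007400200660008170083))))) 
(.nd (nat_lit 9) (.nd (nat_lit 10) 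
(.lf (nat_lit 3758282880) (dlOf (nat_lit 1) (nat_lit 0x2001812a881))) 
(.lf (nat_lit 2684540032) (dlOf (nat_lit 1) (nat_lit 0x40008001c002000c00080a9503)))) 
(.nd (nat_lit 8) (.lf (nat_lit 3422738048) (dlOf (nat_lit 1) (nat_lit 0x200280a9d81))) 
(.lf (nat_lit 3221412736) (dlOf (nat_lit 1) (nat_lit 0x240020012000811bc82)))))))) 
(.nd (nat_lit 20) (.nd (nat_lit 26) (.nd (nat_lit 18) (.nd (nat_lit 19) (.nd (nat_lit 23) 
(.lf (nat_lit 19120128) (dlOf (nat_lit 1) (nat_lit 0x120018970001))) 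
(.lf (nat_lit 44285952) (dlOf (nat_lit 1) (nat_lit 0x28004001000092e0002)))) 
(.lf (nat_lit 4964352) (dlOf (nat_lit 1) (nat_lit 0xc80080020002000400082e0003)))) (.nd (nat_lit 7) 
(.nd (nat_lit 21) (.lf (nat_lit 3758604288) (dlOf (nat_lit 1) (nat_lit 0x40018310001))) 
(.lf (nat_lit 10993664) (dlOf (nat_lit 1) (nat_lit 0x60018650001)))) (.nd (nat_lit 8) 
(.lf (nat_lit 17285248) (dlOf (nat_lit 1) (nat_lit 0xc004000200088e0482))) 
(.lf (nat_lit 19911040) (dlOf (nat_lit 1) (nat_lit 0x200189d8381)))))) (.nd (nat_lit 30) 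
(.nd (nat_lit 7) (.nd (nat_lit 10) 
(.lf (nat_lit 2755903488) (dlOf (nat_lit 4) (nat_lit 0x1c0a8001a05300010288008811403b4a1000040a8000205100ed18200030228075080801400080158002001600081b0003))) 
(.lf (nat_lit 2751710208) (dlOf (nat_lit 1) (nat_lit 0x20008002881)))) 
(.lf (nat_lit 738445952) (dlOf (nat_lit 1) (nat_lit 0x160028095481)))) (.nd (nat_lit 7) 
(.nd (nat_lit 18) (.lf (nat_lit 1141096448) (dlOf (nat_lit 1) (nat_lit 0x4002000200080d0002))) 
(.lf (nat_lit 3288842240) (dlOf (nat_lit 1) (nat_lit 0x200281b0001)))) 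
(.lf (nat_lit 1677967744) (dlOf (nat_lit 1) (nat_lit 0x60018125a81)))))) (.nd (nat_lit 8) 
(.nd (nat_lit 18) (.nd (nat_lit 19) (.nd (nat_lit 22) 
(.lf (nat_lit 26460160) (dlOf (nat_lit 1) (nat_lit 0x400400020008c50002))) 
(.lf (nat_lit 47431680) (dlOf (nat_lit 1) (nat_lit 0xc004000e00193f0002)))) 
(.lf (nat_lit 31178752) (dlOf (nat_lit 1) (nat_lit 0x4004000e0018e70002)))) (.nd (nat_lit 21) 
(.lf (nat_lit 22528000) (dlOf (nat_lit 1) (nat_lit 0x400200020008af0002))) 
(.lf (nat_lit 37208064) (dlOf (nat_lit 1) (nat_lit 0x200190c0001))))) (.nd (nat_lit 9) 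
(.nd (nat_lit 21) (.nd (nat_lit 22) 
(.lf (nat_lit 60014848) (dlOf (nat_lit 1) (nat_lit 0x800400040009840a82))) 
(.lf (nat_lit 22266112) (dlOf (nat_lit 1) (nat_lit 0x800028ab7101)))) (.nd (nat_lit 18) 
(.lf (nat_lit 41140480) (dlOf (nat_lit 2) (nat_lit 0x13a80000d004001000400020009222b02))) 
(.lf (nat_lit 20431104) (dlOf (nat_lit 1) (nat_lit 0x4002000200089d0a82))))) (.nd (nat_lit 7) 
(.nd (nat_lit 10) (.lf (nat_lit 39832320) (dlOf (nat_lit 1) (nat_lit 0x200091f5a81))) 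
(.lf (nat_lit 8113920) (dlOf (nat_lit 2) (nat_lit 0x246f80296c0804a8008029800201760008517483)))) 
(.lf (nat_lit 20171648) (dlOf (nat_lit 1) (nat_lit 0x4002000200089d5c02)))))))) (.nd (nat_lit 29) 
(.nd (nat_lit 18) (.nd (nat_lit 8) (.nd (nat_lit 19) (.nd (nat_lit 16) (.nd (nat_lit 22) 
(.lf (nat_lit 5704433664) (dlOf (nat_lit 1) (nat_lit 0x80028080001))) 
(.lf (nat_lit 1346551808) (dlOf (nat_lit 1) (nat_lit 0x60028fc0001)))) 
(.lf (nat_lit 3494100992) (dlOf (nat_lit 4) (nat_lit 0x2607b00d2001000103d8068f80800981ec033b6040004004001400181b0002)))) 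
(.nd (nat_lit 7) (.nd (nat_lit 21) (.nd (nat_lit 26) 
(.lf (nat_lit 1342881792) (dlOf (nat_lit 1) (nat_lit 0x400200020008100002))) 
(.lf (nat_lit 470466560) (dlOf (nat_lit 1) (nat_lit 0x400200020008100002)))) 
(.lf (nat_lit 1344978944) (dlOf (nat_lit 1) (nat_lit 0x8002001400089a0002)))) 
(.lf (nat_lit 3491414144) (dlOf (nat_lit 2) (nat_lit 0x281e8000f4018090080))))) (.nd (nat_lit 7) 
(.nd (nat_lit 9) (.nd (nat_lit 19) 
(.lf (nat_lit 1345503488) (dlOf (nat_lit 1) (nat_lit 0x18008000400200120008c90a83))) 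
(.lf (nat_lit 473612544) (dlOf (nat_lit 5) (nat_lit 0x42a4000c0f700110490001a01800183dc0018124000660400020920003201000107b80048248000000802d000400080008f62a02)))) 
(.lf (nat_lit 2617430784) (dlOf (nat_lit 1) (nat_lit 0x800180a8f81)))) (.nd (nat_lit 26) 
(.lf (nat_lit 1342357888) (dlOf (nat_lit 1) (nat_lit 0x28004002a0018015a82))) 
(.lf (nat_lit 469942656) (dlOf (nat_lit 1) (nat_lit 0x28004002a0018015a82)))))) (.nd (nat_lit 16) 
(.nd (nat_lit 19) (.nd (nat_lit 7) (.nd (nat_lit 27) 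
(.lf (nat_lit 5637586944) (dlOf (nat_lit 1) (nat_lit 0xa80008110001))) 
(.lf (nat_lit 3624321024) (dlOf (nat_lit 1) (nat_lit 0x7e0008160001)))) 
(.lf (nat_lit 1343668352) (dlOf (nat_lit 2) (nat_lit 0x7c04700066c0800600080030002002e00082e0483)))) 
(.nd (nat_lit 26) (.lf (nat_lit 1344192512) (dlOf (nat_lit 1) (nat_lit 0x20018490001))) 
(.lf (nat_lit 471777280) (dlOf (nat_lit 1) (nat_lit 0x20018490001))))) (.nd (nat_lit 7) 
(.nd (nat_lit 8) 
(.lf (nat_lit 1345831424) (dlOf (nat_lit 1) (nat_lit 0x10008000c00200080008e07b03))) 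
(.lf (nat_lit 1345831168) (dlOf (nat_lit 4) (nat_lit 0x101ee000680200080f70003301000307b8000000803680080008002001a0008e02b03)))) 
(.nd (nat_lit 8) (.lf (nat_lit 472367232) (dlOf (nat_lit 1) (nat_lit 0x1c00400060008980302))) 
(.lf (nat_lit 470270336) (dlOf (nat_lit 1) (nat_lit 0x200180c0781))))))) (.nd (nat_lit 26) 
(.nd (nat_lit 27) (.nd (nat_lit 18) (.nd (nat_lit 7) (.nd (nat_lit 8) 
(.lf (nat_lit 2952970240) (dlOf (nat_lit 1) (nat_lit 0x6000400060008060002))) 
(.lf (nat_lit 1879752960) (dlOf (nat_lit 1) (nat_lit 0x180018370701)))) 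
(.lf (nat_lit 805552512) (dlOf (nat_lit 1) (nat_lit 0x60018125a81)))) (.nd (nat_lit 7) 
(.nd (nat_lit 16) (.lf (nat_lit 1879490560) (dlOf (nat_lit 1) (nat_lit 0x240028180001))) 
(.lf (nat_lit 4027039744) (dlOf (nat_lit 1) (nat_lit 0x200281b0001)))) 
(.lf (nat_lit 805748864) (dlOf (nat_lit 2) (nat_lit 0x900280045e040024004000400081a0082))))) 
(.nd (nat_lit 9) (.nd (nat_lit 16) 
(.lf (nat_lit 6308413440) (dlOf (nat_lit 1) (nat_lit 0x80028080001))) 
(.lf (nat_lit 2013511680) (dlOf (nat_lit 1) (nat_lit 0x4002000200080d0002)))) (.nd (nat_lit 10) 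
(.lf (nat_lit 939704832) (dlOf (nat_lit 2) (nat_lit 0xa400000012818157e80))) 
(.lf (nat_lit 2013447680) (dlOf (nat_lit 2) (nat_lit 0x404c000690200040028093681)))))) 
(.nd (nat_lit 27) (.nd (nat_lit 18) (.nd (nat_lit 7) 
(.lf (nat_lit 4095393792) (dlOf (nat_lit 1) (nat_lit 0x200180a0001))) 
(.lf (nat_lit 6241307520) (dlOf (nat_lit 1) (nat_lit 0x1c00280d5c01)))) (.nd (nat_lit 16) 
(.nd (nat_lit 19) (.lf (nat_lit 6241566720) (dlOf (nat_lit 1) (nat_lit 0xa80008110001))) 
(.lf (nat_lit 4096704512) (dlOf (nat_lit 1) (nat_lit 0x6800400080008160002)))) 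
(.lf (nat_lit 3020406784) (dlOf (nat_lit 1) (nat_lit 0x40018310001))))) (.nd (nat_lit 7) 
(.nd (nat_lit 8) (.lf (nat_lit 1009238016) (dlOf (nat_lit 1) (nat_lit 0x14004000e00090a0002))) 
(.nd (nat_lit 16) (.lf (nat_lit 6376833280) (dlOf (nat_lit 1) (nat_lit 0x40028090a81))) 
(.lf (nat_lit 1008976128) (dlOf (nat_lit 1) (nat_lit 0x10008003000200200009000a83))))) 
(.nd (nat_lit 18) (.lf (nat_lit 6377095296) (dlOf (nat_lit 1) (nat_lit 0x800280a2001))) 
(.lf (nat_lit 4228300928) (dlOf (nat_lit 4) (nat_lit 0x40800023202002c0400011781000102000068c08009000800e000200380008090083))))))))) 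
(.nd (nat_lit 16) (.nd (nat_lit 7) (.nd (nat_lit 20) (.nd (nat_lit 18) (.nd (nat_lit 26) 
(.nd (nat_lit 29) (.nd (nat_lit 30) 
(.lf (nat_lit 6442631232) (dlOf (nat_lit 1) (nat_lit 0x320008110781))) 
(.lf (nat_lit 1073922112) (dlOf (nat_lit 2) (nat_lit 0x1de02700ef00b001c0024000460c004c00400020018020782)))) 
(.nd (nat_lit 19) (.lf (nat_lit 6308413504) (dlOf (nat_lit 1) (nat_lit 0x20008080481))) 
(.lf (nat_lit 537575488) (dlOf (nat_lit 1) (nat_lit 0x200280c1781))))) (.nd (nat_lit 11) 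
(.nd (nat_lit 27) 
(.lf (nat_lit 1946337344) (dlOf (nat_lit 2) (nat_lit 0x1de02700ef00b001c0024000460c004c00400020018020782))) 
(.lf (nat_lit 5838651456) (dlOf (nat_lit 1) (nat_lit 0x320008110781)))) (.nd (nat_lit 8) 
(.lf (nat_lit 2751650368) (dlOf (nat_lit 8) (nat_lit 0x10b0422039821000f30b48001dc1821a8844000ec0410ac422000710209302110003801043a10880018c08234884402283f20006104089a211006d0fc808505a4000000c08540040012000800b482))) 
(.lf (nat_lit 2751646016) (dlOf (nat_lit 1) (nat_lit 0x20018004c81)))))) (.nd (nat_lit 10) 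
(.nd (nat_lit 11) (.nd (nat_lit 19) 
(.lf (nat_lit 15122496) (dlOf (nat_lit 1) (nat_lit 0x1800287c0901))) 
(.lf (nat_lit 21938240) (dlOf (nat_lit 1) (nat_lit 0x20018a80d81)))) 
(.lf (nat_lit 2550585408) (dlOf (nat_lit 1) (nat_lit 0x400180fa681)))) (.nd (nat_lit 23) 
(.lf (nat_lit 472302656) (dlOf (nat_lit 1) (nat_lit 0x20008982881))) 
(.lf (nat_lit 44483648) (dlOf (nat_lit 1) (nat_lit 0x1500080080002002a0009322883)))))) 
(.nd (nat_lit 9) (.nd (nat_lit 18) (.nd (nat_lit 19) (.nd (nat_lit 21) 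
(.lf (nat_lit 43171904) (dlOf (nat_lit 2) (nat_lit 0x94ae00d9b8192a0000))) 
(.lf (nat_lit 62046272) (dlOf (nat_lit 2) (nat_lit 0x210000000360200020019940501)))) 
(.lf (nat_lit 10141760) (dlOf (nat_lit 9) (nat_lit 0x140000000b8080208000000580402a00000002502000d9330019c1c800460dc017d12e0008845000540f800e901c01640000002310000689700042038000881002764cc016706e0096897005640f802500000004014003f2c400940000000c020043000000014080110008007c002007e00085b0783)))) 
(.nd (nat_lit 10) (.nd (nat_lit 12) 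
(.lf (nat_lit 473874496) (dlOf (nat_lit 2) (nat_lit 0x18814d00d006c804803600048e0c00a000400440008fc0602))) 
(.lf (nat_lit 8310848) (dlOf (nat_lit 1) (nat_lit 0x20028517d01)))) 
(.lf (nat_lit 39765056) (dlOf (nat_lit 1) (nat_lit 0x2000191f2881))))) (.nd (nat_lit 8) 
(.nd (nat_lit 11) (.nd (nat_lit 18) 
(.lf (nat_lit 8045120) (dlOf (nat_lit 1) (nat_lit 0x8008001000200020008511583))) 
(.lf (nat_lit 2755052096) (dlOf (nat_lit 1) (nat_lit 0x20028108501)))) 
(.lf (nat_lit 8051264) (dlOf (nat_lit 1) (nat_lit 0x40040002000851b482)))) (.nd (nat_lit 10) 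
(.lf (nat_lit 20106048) (dlOf (nat_lit 1) (nat_lit 0x4002000200089d5c02))) 
(.lf (nat_lit 3492988736) (dlOf (nat_lit 1) (nat_lit 0x80080004002000200080f3e03))))))) 
(.nd (nat_lit 18) (.nd (nat_lit 10) (.nd (nat_lit 12) (.nd (nat_lit 19) (.nd (nat_lit 20) 
(.lf (nat_lit 474137024) (dlOf (nat_lit 1) (nat_lit 0x4002000200090e1082))) 
(.lf (nat_lit 11715008) (dlOf (nat_lit 1) (nat_lit 0xa00086c0881)))) (.nd (nat_lit 26) 
(.lf (nat_lit 3491414464) (dlOf (nat_lit 2) (nat_lit 0x6a43ca0005c02016c0018090881))) 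
(.lf (nat_lit 2753216960) (dlOf (nat_lit 2) (nat_lit 0x6a43ee0005b02016c0018090881))))) 
(.nd (nat_lit 8) (.nd (nat_lit 9) 
(.lf (nat_lit 3154301120) (dlOf (nat_lit 2) (nat_lit 0x1811c0004a040004004000c0018157f02))) 
(.lf (nat_lit 8051392) (dlOf (nat_lit 1) (nat_lit 0x80020004000851b982)))) 
(.lf (nat_lit 8049088) (dlOf (nat_lit 1) (nat_lit 0x400200020008518602))))) (.nd (nat_lit 9) 
(.nd (nat_lit 8) (.nd (nat_lit 12) 
(.lf (nat_lit 37405888) (dlOf (nat_lit 1) (nat_lit 0x200190d2d01))) 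
(.lf (nat_lit 2684540096) (dlOf (nat_lit 1) (nat_lit 0x4004000200080a9502)))) 
(.lf (nat_lit 8052160) (dlOf (nat_lit 1) (nat_lit 0x240040008000851cd02)))) (.nd (nat_lit 11) 
(.nd (nat_lit 12) (.lf (nat_lit 2751645632) (dlOf (nat_lit 1) (nat_lit 0x20028004401))) 
(.lf (nat_lit 186304) (dlOf (nat_lit 2) (nat_lit 0x760b800829f8015f4080028002000e000800a602)))) 
(.lf (nat_lit 3892498368) (dlOf (nat_lit 1) (nat_lit 0x8008000400200020008157a83)))))) 
(.nd (nat_lit 26) (.nd (nat_lit 12) (.nd (nat_lit 27) (.nd (nat_lit 28) 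
(.lf (nat_lit 3221668288) (dlOf (nat_lit 3) (nat_lit 0x6d40780005c02008a03c0005001800000100058008020000200160008170883))) 
(.lf (nat_lit 805749184) (dlOf (nat_lit 4) (nat_lit 0x281080007404006c084000390200360420000b0181a0880)))) 
(.lf (nat_lit 134660544) (dlOf (nat_lit 2) (nat_lit 0x1200000000004011000200860008090882)))) 
(.lf (nat_lit 8311232) (dlOf (nat_lit 1) (nat_lit 0x1000400080018518602)))) (.nd (nat_lit 29) 
(.nd (nat_lit 8) 
(.lf (nat_lit 472302784) (dlOf (nat_lit 3) (nat_lit 0x40b400007c0801385a00003a0400ac002002c0008982d02))) 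
(.lf (nat_lit 201769408) (dlOf (nat_lit 2) (nat_lit 0x1200000000004011000200860008090882)))) 
(.nd (nat_lit 27) 
(.lf (nat_lit 1678164416) (dlOf (nat_lit 4) (nat_lit 0x281080007404006c084000390200360420000a8181a0880))) 
(.lf (nat_lit 3959865792) (dlOf (nat_lit 3) (nat_lit 0x6d40780005b02008a03c0005001800000100058008020000200160008170883)))))))) 
(.nd (nat_lit 28) (.nd (nat_lit 29) (.nd (nat_lit 22) (.nd (nat_lit 8) (.nd (nat_lit 7) 
(.nd (nat_lit 9) 
(.lf (nat_lit 9945152) (dlOf (nat_lit 3) (nat_lit 0x2310eb0103874c000838e01901c2002b584022b0eb0103074c000438e01921c200010b98015a82804180080758002089c0008591683))) 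
(.lf (nat_lit 3288580672) (dlOf (nat_lit 1) (nat_lit 0x40018091081)))) 
(.lf (nat_lit 19651264) (dlOf (nat_lit 1) (nat_lit 0x180080004002000200089db983)))) 
(.nd (nat_lit 7) (.nd (nat_lit 10) 
(.lf (nat_lit 20171584) (dlOf (nat_lit 1) (nat_lit 0x4002000200089d5c02))) 
(.lf (nat_lit 247616) (dlOf (nat_lit 1) (nat_lit 0x200018003e01)))) 
(.lf (nat_lit 19649984) (dlOf (nat_lit 1) (nat_lit 0x200189d9a01))))) (.nd (nat_lit 18) 
(.nd (nat_lit 19) (.lf (nat_lit 47431744) (dlOf (nat_lit 1) (nat_lit 0x800193f0d81))) 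
(.nd (nat_lit 23) 
(.lf (nat_lit 21741632) (dlOf (nat_lit 2) (nat_lit 0x783a700471b000188d6c019c6a200762bb006113c802889dc00744ba00b61fe00011898a70780))) 
(.lf (nat_lit 13353024) (dlOf (nat_lit 2) (nat_lit 0x80000002c0200020008721781))))) 
(.nd (nat_lit 24) (.lf (nat_lit 4702272) (dlOf (nat_lit 1) (nat_lit 0x200182b0501))) 
(.lf (nat_lit 21479488) (dlOf (nat_lit 1) (nat_lit 0x800400020008a40482)))))) (.nd (nat_lit 18) 
(.nd (nat_lit 19) (.nd (nat_lit 8) 
(.lf (nat_lit 537116736) (dlOf (nat_lit 1) (nat_lit 0x10000400360008020782))) 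
(.lf (nat_lit 5905827648) (dlOf (nat_lit 2) (nat_lit 0x3202500000018143e00)))) (.nd (nat_lit 21) 
(.lf (nat_lit 537641024) (dlOf (nat_lit 2) (nat_lit 0x5c817c000420401a4004001000080e0e02))) 
(.lf (nat_lit 2754330688) (dlOf (nat_lit 1) (nat_lit 0x500080014002002200080d0b83))))) 
(.nd (nat_lit 20) (.nd (nat_lit 26) 
(.lf (nat_lit 1611120704) (dlOf (nat_lit 3) (nat_lit 0x1602b024681041254080001e03802b8018000100a80014052004760e0032056048f020824a0100002c070056603000050148011d430112800811640020a0600080e1683))) 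
(.lf (nat_lit 738705472) (dlOf (nat_lit 3) (nat_lit 0x1602b024681041254080001e03802b8018000100a8001405200a0c0e0032056048f020824a0100002c0700566030000501480282c30112800811640020a0600080e1683)))) 
(.lf (nat_lit 2755117120) (dlOf (nat_lit 1) (nat_lit 0x400200020008110782)))))) (.nd (nat_lit 26) 
(.nd (nat_lit 31) (.nd (nat_lit 30) (.nd (nat_lit 9) (.nd (nat_lit 27) 
(.lf (nat_lit 4563648576) (dlOf (nat_lit 4) (nat_lit 0x480d0000840402000680003f020128033003c00e8000d81000880080048002000c00080b0503))) 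
(.lf (nat_lit 4697866304) (dlOf (nat_lit 4) (nat_lit 0x480d00008a0402000680003f020128033003c00e8000e01000880080048002000c00080b0503)))) 
(.lf (nat_lit 805552704) (dlOf (nat_lit 2) (nat_lit 0x204e00000018128500)))) (.nd (nat_lit 7) 
(.lf (nat_lit 1342423104) (dlOf (nat_lit 1) (nat_lit 0x1000200020008020782))) 
(.lf (nat_lit 1342685632) (dlOf (nat_lit 4) (nat_lit 0x1004a000120080080250000860400401280004102000a00080c0881))))) 
(.nd (nat_lit 18) (.nd (nat_lit 9) 
(.lf (nat_lit 3492528192) (dlOf (nat_lit 1) (nat_lit 0x500080014002002200080d0b83))) 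
(.lf (nat_lit 4026778176) (dlOf (nat_lit 1) (nat_lit 0x40018091081)))) (.nd (nat_lit 20) 
(.lf (nat_lit 3494363200) (dlOf (nat_lit 2) (nat_lit 0x300000004e04002400200060008211782))) 
(.lf (nat_lit 3493314624) (dlOf (nat_lit 1) (nat_lit 0x400200020008110782)))))) (.nd (nat_lit 18) 
(.nd (nat_lit 7) (.nd (nat_lit 19) (.nd (nat_lit 27) 
(.lf (nat_lit 1409531968) (dlOf (nat_lit 1) (nat_lit 0x10000400360008020782))) 
(.lf (nat_lit 470007872) (dlOf (nat_lit 1) (nat_lit 0x1000200020008020782)))) 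
(.lf (nat_lit 1410056256) (dlOf (nat_lit 2) (nat_lit 0x5c817c000420401a4004001000080e0e02)))) 
(.lf (nat_lit 3557019840) (dlOf (nat_lit 1) (nat_lit 0xe0018127f01)))) (.nd (nat_lit 20) 
(.nd (nat_lit 7) (.lf (nat_lit 1009238080) (dlOf (nat_lit 1) (nat_lit 0x5c00090a0601))) 
(.lf (nat_lit 470270400) (dlOf (nat_lit 4) (nat_lit 0x1004a000120080080250000860400401280004102000a00080c0881)))) 
(.nd (nat_lit 19) 
(.lf (nat_lit 4095197248) (dlOf (nat_lit 1) (nat_lit 0x10008000c00200060008070503))) 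
(.lf (nat_lit 473940032) (dlOf (nat_lit 2) (nat_lit 0x4a0580010829a0d460d9072d06c0030827001c011a00ae07d005003e00091c4003900080658002004c0008fc0603)))))))))) 
(.nd (nat_lit 16) (.nd (nat_lit 8) (.nd (nat_lit 19) (.nd (nat_lit 6) (.nd (nat_lit 27) 
(.nd (nat_lit 23) (.nd (nat_lit 11) (.nd (nat_lit 26) 
(.lf (nat_lit 4832018464) (dlOf (nat_lit 1) (nat_lit 0x9000801c400200500008090103))) 
(.lf (nat_lit 4899127328) (dlOf (nat_lit 1) (nat_lit 0x8008008400200100008080103)))) 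
(.nd (nat_lit 9) (.lf (nat_lit 186400) (dlOf (nat_lit 1) (nat_lit 0x40020004000800a602))) 
(.lf (nat_lit 186912) (dlOf (nat_lit 1) (nat_lit 0x400020006000800b282))))) (.nd (nat_lit 10) 
(.nd (nat_lit 20) 
(.lf (nat_lit 44220448) (dlOf (nat_lit 1) (nat_lit 0x600080020002001e00092e0103))) 
(.lf (nat_lit 26394656) (dlOf (nat_lit 2) (nat_lit 0xa9a00000004002c00400120008c40602)))) 
(.nd (nat_lit 7) (.lf (nat_lit 8836128) (dlOf (nat_lit 1) (nat_lit 0x20018519201))) 
(.lf (nat_lit 8832672) (dlOf (nat_lit 1) (nat_lit 0x2000400100008513a82)))))) (.nd (nat_lit 18) 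
(.nd (nat_lit 9) (.nd (nat_lit 30) 
(.lf (nat_lit 5234671648) (dlOf (nat_lit 1) (nat_lit 0x48008004c00200260008080103))) 
(.lf (nat_lit 4160929824) (dlOf (nat_lit 1) (nat_lit 0x800800e4002003000080a0003)))) 
(.lf (nat_lit 5773642272) (dlOf (nat_lit 1) (nat_lit 0x300080004002000400080e5103)))) 
(.nd (nat_lit 20) (.lf (nat_lit 2819014688) (dlOf (nat_lit 1) (nat_lit 0x180018150181))) 
(.lf (nat_lit 471253024) (dlOf (nat_lit 1) (nat_lit 0x80080004002000200082e0003)))))) 
(.nd (nat_lit 27) (.nd (nat_lit 7) (.nd (nat_lit 10) (.nd (nat_lit 20) 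
(.lf (nat_lit 5704433760) (dlOf (nat_lit 1) (nat_lit 0x220008026000201ce0008080783))) 
(.lf (nat_lit 24297568) (dlOf (nat_lit 2) (nat_lit 0xe765f805a320802d58500001006046c0018b91301)))) 
(.lf (nat_lit 32949344) (dlOf (nat_lit 1) (nat_lit 0xa0018f52901)))) (.nd (nat_lit 26) 
(.lf (nat_lit 1343668448) (dlOf (nat_lit 20) (nat_lit 0x3c0be000150100810b080400274000440802202c2000a14e008804e800084180440584022413a003a08e000100300870b080440274015011c0001f0600ca161007704e802b02380003c0c00142c2002409d0062047000074180068584005813a008808e0000e03005404700006c0802e0584017413a00c808e0000d0300870b0804402740001a08022013a0000c02007609d0000581003a04e8000280804402740001004021813a00007020060161007a04e8000181000382740000a0401d013a0000202000600082e0581))) 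
(.lf (nat_lit 68600032) (dlOf (nat_lit 1) (nat_lit 0x400200020008600582))))) (.nd (nat_lit 9) 
(.nd (nat_lit 11) 
(.lf (nat_lit 6308413536) (dlOf (nat_lit 1) (nat_lit 0x220008026000201ce0008080783))) 
(.lf (nat_lit 3959609440) (dlOf (nat_lit 1) (nat_lit 0x2002811a801)))) (.nd (nat_lit 10) 
(.lf (nat_lit 1745013344) (dlOf (nat_lit 1) (nat_lit 0xc00400060008095382))) (.nd (nat_lit 26) 
(.lf (nat_lit 4160935520) (dlOf (nat_lit 1) (nat_lit 0x200280a9c01))) 
(.lf (nat_lit 3422738016) (dlOf (nat_lit 1) (nat_lit 0x4004000200080a9c02)))))))) (.nd (nat_lit 20) 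
(.nd (nat_lit 21) (.nd (nat_lit 6) (.nd (nat_lit 22) (.nd (nat_lit 23) 
(.lf (nat_lit 3557474336) (dlOf (nat_lit 1) (nat_lit 0x80028220681))) 
(.lf (nat_lit 42647584) (dlOf (nat_lit 1) (nat_lit 0x8008000400200020009260183)))) 
(.lf (nat_lit 21676064) (dlOf (nat_lit 2) (nat_lit 0x80000003102000a0008a60b01)))) 
(.lf (nat_lit 707808) (dlOf (nat_lit 1) (nat_lit 0x1e0008004c00200240008006503)))) 
(.nd (nat_lit 28) (.nd (nat_lit 18) (.nd (nat_lit 22) 
(.lf (nat_lit 19578912) (dlOf (nat_lit 1) (nat_lit 0x480080008002000a00089c0483))) 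
(.lf (nat_lit 6996000) (dlOf (nat_lit 2) (nat_lit 0x35fb802f280800200080020002002e00084a0683)))) 
(.lf (nat_lit 28229664) (dlOf (nat_lit 1) (nat_lit 0x400400020008d70682)))) (.nd (nat_lit 6) 
(.nd (nat_lit 18) 
(.lf (nat_lit 1344978976) (dlOf (nat_lit 2) (nat_lit 0x1042c0006807d006003e00009c1800d8008001c002000600089a0183))) 
(.lf (nat_lit 4096704544) (dlOf (nat_lit 1) (nat_lit 0x20028160481)))) 
(.lf (nat_lit 472563808) (dlOf (nat_lit 2) (nat_lit 0x2143000909d800584e4002819a0056075002c0398000a83003280080144002000600089c0903)))))) 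
(.nd (nat_lit 6) (.nd (nat_lit 18) (.nd (nat_lit 9) 
(.lf (nat_lit 5947424) (dlOf (nat_lit 2) (nat_lit 0x33310018d00800200080020002002e0008410683))) 
(.lf (nat_lit 8052256) (dlOf (nat_lit 1) (nat_lit 0x30008000c0020008000851cf83)))) 
(.nd (nat_lit 26) (.lf (nat_lit 4112416) (dlOf (nat_lit 1) (nat_lit 0x400200020008280482))) 
(.lf (nat_lit 473874464) (dlOf (nat_lit 2) (nat_lit 0x90143004809d80048334000000c00bc004003a0008fc0182))))) 
(.nd (nat_lit 7) (.nd (nat_lit 26) 
(.lf (nat_lit 3493773408) (dlOf (nat_lit 1) (nat_lit 0x8008035800200e000081b0003))) 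
(.lf (nat_lit 473874528) (dlOf (nat_lit 1) (nat_lit 0x8004001c0008fc0902)))) (.nd (nat_lit 10) 
(.nd (nat_lit 18) (.lf (nat_lit 8049376) (dlOf (nat_lit 1) (nat_lit 0x8008000400200020008518c83))) 
(.lf (nat_lit 8311520) (dlOf (nat_lit 1) (nat_lit 0x8008000400200020008518c83)))) 
(.lf (nat_lit 8046304) (dlOf (nat_lit 1) (nat_lit 0x20008000400200060008513a83)))))))) 
(.nd (nat_lit 7) (.nd (nat_lit 18) (.nd (nat_lit 10) (.nd (nat_lit 6) (.nd (nat_lit 9) 
(.lf (nat_lit 5435998496) (dlOf (nat_lit 1) (nat_lit 0x1800200040008090a82))) 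
(.lf (nat_lit 8045344) (dlOf (nat_lit 1) (nat_lit 0x8008002400200100008512183)))) (.nd (nat_lit 12) 
(.lf (nat_lit 3221408096) (dlOf (nat_lit 1) (nat_lit 0x8008001000200180008114e83))) 
(.lf (nat_lit 2751650144) (dlOf (nat_lit 1) (nat_lit 0x1c0040010000800ab82))))) (.nd (nat_lit 27) 
(.nd (nat_lit 6) (.nd (nat_lit 19) 
(.lf (nat_lit 1610794272) (dlOf (nat_lit 2) (nat_lit 0xc00300000018093100))) 
(.lf (nat_lit 8045856) (dlOf (nat_lit 1) (nat_lit 0x80008513101)))) 
(.lf (nat_lit 805490016) (dlOf (nat_lit 1) (nat_lit 0x40018116a81)))) (.nd (nat_lit 12) 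
(.lf (nat_lit 5301781792) (dlOf (nat_lit 9) (nat_lit 0x16004400052040034022000280200640110001381002d0088000300800c80440001604009c0220000a02002e011000048100180088000200804b8008037c00201420008093103))) 
(.lf (nat_lit 2281887008) (dlOf (nat_lit 1) (nat_lit 0xa800180a9781)))))) (.nd (nat_lit 29) 
(.nd (nat_lit 6) (.nd (nat_lit 9) 
(.lf (nat_lit 3493249312) (dlOf (nat_lit 1) (nat_lit 0x400400020018104202))) 
(.lf (nat_lit 19843872) (dlOf (nat_lit 1) (nat_lit 0x80080004002000200089d5c03)))) 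
(.nd (nat_lit 11) 
(.lf (nat_lit 3064160) (dlOf (nat_lit 3) (nat_lit 0xb827e005a12e002801f0001581801484fc00ac25c0076103002601f00004c2000300080004002001a0008200683))) 
(.lf (nat_lit 57067872) (dlOf (nat_lit 1) (nat_lit 0x80008006000200100009794e83))))) 
(.nd (nat_lit 20) (.nd (nat_lit 26) 
(.lf (nat_lit 805749024) (dlOf (nat_lit 3) (nat_lit 0x10035000240100060168001805c00100000003a06000800181a0501))) 
(.lf (nat_lit 1678164256) (dlOf (nat_lit 3) (nat_lit 0x10035000228100060168001805c00100000003806000800181a0501)))) 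
(.lf (nat_lit 2755051808) (dlOf (nat_lit 2) (nat_lit 0x100700005004000400400040018104182)))))) 
(.nd (nat_lit 19) (.nd (nat_lit 29) (.nd (nat_lit 9) (.nd (nat_lit 10) (.nd (nat_lit 11) 
(.lf (nat_lit 3624059296) (dlOf (nat_lit 6) (nat_lit 0x900e800d0010003400001bc306000e01d0018002000c0000037840c001c03a00280040015000006eec1800380740054008003800000ddc83000300c0000000800280080184002001800080b0783))) 
(.lf (nat_lit 5436000672) (dlOf (nat_lit 2) (nat_lit 0x3004401ba004003000400120008094e82)))) 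
(.lf (nat_lit 8570272) (dlOf (nat_lit 1) (nat_lit 0x20018513601)))) (.nd (nat_lit 6) 
(.nd (nat_lit 20) 
(.lf (nat_lit 1141033888) (dlOf (nat_lit 1) (nat_lit 0x18008001000200060008095c83))) 
(.lf (nat_lit 20106144) (dlOf (nat_lit 1) (nat_lit 0x80080004002000200089d5c83)))) 
(.lf (nat_lit 2550585312) (dlOf (nat_lit 2) (nat_lit 0x40020015f6040008004001a00180fa602))))) 
(.nd (nat_lit 6) (.nd (nat_lit 9) (.nd (nat_lit 11) 
(.lf (nat_lit 805749152) (dlOf (nat_lit 2) (nat_lit 0xb40420037c8181a0780))) 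
(.lf (nat_lit 738380192) (dlOf (nat_lit 1) (nat_lit 0x38008000400200020008094e83)))) 
(.lf (nat_lit 4160934816) (dlOf (nat_lit 1) (nat_lit 0x8480080260002021e00080a9103)))) 
(.nd (nat_lit 9) (.nd (nat_lit 10) 
(.lf (nat_lit 2751650272) (dlOf (nat_lit 2) (nat_lit 0x1171078029d008005000800280020046000800b283))) 
(.lf (nat_lit 3020084704) (dlOf (nat_lit 2) (nat_lit 0x51019002380980000008001c00400020008129b02)))) 
(.lf (nat_lit 537052128) (dlOf (nat_lit 1) (nat_lit 0x20028002881)))))) (.nd (nat_lit 18) 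
(.nd (nat_lit 10) (.nd (nat_lit 11) 
(.lf (nat_lit 8049056) (dlOf (nat_lit 1) (nat_lit 0x8008001000200060008518383))) 
(.lf (nat_lit 37407136) (dlOf (nat_lit 1) (nat_lit 0x4002002600090d4e82)))) (.nd (nat_lit 6) 
(.lf (nat_lit 8045984) (dlOf (nat_lit 1) (nat_lit 0x400200020008513602))) 
(.lf (nat_lit 8046048) (dlOf (nat_lit 1) (nat_lit 0x400200020008513602))))) (.nd (nat_lit 6) 
(.nd (nat_lit 11) (.lf (nat_lit 3490628000) (dlOf (nat_lit 1) (nat_lit 0x400200020008016b82))) 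
(.nd (nat_lit 12) (.lf (nat_lit 39766432) (dlOf (nat_lit 1) (nat_lit 0x200291f4e81))) 
(.lf (nat_lit 19847584) (dlOf (nat_lit 1) (nat_lit 0x200289daf81))))) (.nd (nat_lit 9) 
(.lf (nat_lit 8308192) (dlOf (nat_lit 1) (nat_lit 0x1b0008000400200300008513603))) 
(.lf (nat_lit 50250720) (dlOf (nat_lit 1) (nat_lit 0x400194c2881))))))))) (.nd (nat_lit 18) 
(.nd (nat_lit 6) (.nd (nat_lit 20) (.nd (nat_lit 26) (.nd (nat_lit 22) (.nd (nat_lit 27) 
(.nd (nat_lit 19) 
(.lf (nat_lit 25411616) (dlOf (nat_lit 1) (nat_lit 0xb8008006c002001c0008c00483))) 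
(.lf (nat_lit 537640992) (dlOf (nat_lit 3) (nat_lit 0xf40a40022102001c052001030180e0480)))) 
(.nd (nat_lit 7) (.lf (nat_lit 6576914720) (dlOf (nat_lit 1) (nat_lit 0x1400281a7801))) 
(.lf (nat_lit 6576914592) (dlOf (nat_lit 1) (nat_lit 0x4004000200081a4302))))) (.nd (nat_lit 19) 
(.nd (nat_lit 24) (.lf (nat_lit 12828704) (dlOf (nat_lit 1) (nat_lit 0x4002000200086e0a02))) 
(.lf (nat_lit 29605920) (dlOf (nat_lit 1) (nat_lit 0x48008001400200080008e20683)))) 
(.lf (nat_lit 4964384) (dlOf (nat_lit 2) (nat_lit 0x26679002f3310000681000100080060002000200082e0603))))) 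
(.nd (nat_lit 7) (.nd (nat_lit 19) 
(.lf (nat_lit 4496539680) (dlOf (nat_lit 1) (nat_lit 0x44002001000080e0002))) 
(.lf (nat_lit 1410056224) (dlOf (nat_lit 3) (nat_lit 0xf40a40021d02001c052001028180e0480)))) 
(.nd (nat_lit 27) (.lf (nat_lit 1677967776) (dlOf (nat_lit 2) (nat_lit 0x60560024a818126b80))) 
(.lf (nat_lit 2349056416) (dlOf (nat_lit 1) (nat_lit 0x180028090781)))))) (.nd (nat_lit 19) 
(.nd (nat_lit 30) (.nd (nat_lit 8) (.nd (nat_lit 22) 
(.lf (nat_lit 471056416) (dlOf (nat_lit 1) (nat_lit 0x540008260681))) 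
(.lf (nat_lit 5488672) (dlOf (nat_lit 1) (nat_lit 0x100008380681)))) 
(.lf (nat_lit 1294624) (dlOf (nat_lit 1) (nat_lit 0x600180a4181)))) (.nd (nat_lit 7) 
(.nd (nat_lit 8) 
(.lf (nat_lit 1343471648) (dlOf (nat_lit 1) (nat_lit 0x8008000800200040008260683))) 
(.lf (nat_lit 3490955552) (dlOf (nat_lit 4) (nat_lit 0x18224014a404003411200a3d02002e08c000c0458028ac100090008005800200080008047803)))) 
(.lf (nat_lit 3490955424) (dlOf (nat_lit 1) (nat_lit 0x400400020008044302))))) (.nd (nat_lit 31) 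
(.nd (nat_lit 21) (.nd (nat_lit 26) 
(.lf (nat_lit 5773180960) (dlOf (nat_lit 10) (nat_lit 0x92019c05b80c6015806100ae030001d817c000c0b402d4059018402c002a014405c409e019204d0175026005c812c027408a01d8044015202180ad0108017800a02de002016b000800138a000f819c05ac0c6004c06100300300051817c05a80b202e8058001e02880b5813c05ac098003004b006d023000a81140058088029a043013f02100b78008059c0020004d24013e0000002381032b0000001180819500000008a0400240b400040010002182000506f0009831402500c6000205f019c02c80cd815003e408c037c005019e00100d880040007c2800280020003c0201200000001c0180b0180))) 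
(.lf (nat_lit 6377160736) (dlOf (nat_lit 10) (nat_lit 0x57019c00ec0cc0006061016a03000c2017c01500b002e205600c902a0092014c05b809e015804d00b902600ba812403b008a013a044015202180ad0108017800a02de002016b000800138a0018019c028c0cc02d4060017402f800f016005ac0ac003e053016b02780130134006009802d6049006d023000b01140054088029a043013f02100b78008059c0020004d24013e0000002381032b0000001180819500000008a0400240c200040010002182000506c0009831400040cc0338060019b02d804a013c03e408c037c005019e00100d880040007c2800280020003c0201200000001c0180b0180)))) 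
(.lf (nat_lit 3915808) (dlOf (nat_lit 1) (nat_lit 0x8008000c00200080008250b03)))) (.nd (nat_lit 7) 
(.lf (nat_lit 3491480096) (dlOf (nat_lit 1) (nat_lit 0x8008002400200020008090d83))) 
(.nd (nat_lit 26) (.lf (nat_lit 3491479712) (dlOf (nat_lit 1) (nat_lit 0x2800200020008090202))) 
(.lf (nat_lit 2753282208) (dlOf (nat_lit 1) (nat_lit 0x2800200020008090202)))))))) (.nd (nat_lit 8) 
(.nd (nat_lit 19) (.nd (nat_lit 9) (.nd (nat_lit 20) 
(.lf (nat_lit 44286048) (dlOf (nat_lit 1) (nat_lit 0x34004000c00092e0782))) 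
(.lf (nat_lit 24363104) (dlOf (nat_lit 2) (nat_lit 0x5a60d801e2ab801692ec00b497300008048b91300)))) 
(.nd (nat_lit 7) (.lf (nat_lit 20171360) (dlOf (nat_lit 1) (nat_lit 0x4004000600089d5382))) 
(.lf (nat_lit 2818822880) (dlOf (nat_lit 1) (nat_lit 0x400200020008128c82))))) (.nd (nat_lit 7) 
(.nd (nat_lit 10) 
(.lf (nat_lit 4096508000) (dlOf (nat_lit 1) (nat_lit 0x408008032800202120008120783))) 
(.lf (nat_lit 49005664) (dlOf (nat_lit 1) (nat_lit 0x280019462901)))) (.nd (nat_lit 9) 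
(.lf (nat_lit 17547488) (dlOf (nat_lit 1) (nat_lit 0x18002000c00088e0582))) 
(.lf (nat_lit 19649248) (dlOf (nat_lit 1) (nat_lit 0x200189d8c81)))))) (.nd (nat_lit 27) 
(.nd (nat_lit 25) (.nd (nat_lit 7) 
(.lf (nat_lit 3391840) (dlOf (nat_lit 1) (nat_lit 0x40018200681))) 
(.lf (nat_lit 6711133152) (dlOf (nat_lit 1) (nat_lit 0x10008007c00200020008092883)))) 
(.nd (nat_lit 19) 
(.lf (nat_lit 61064160) (dlOf (nat_lit 1) (nat_lit 0xe00080040002000200098c2883))) 
(.lf (nat_lit 36422624) (dlOf (nat_lit 1) (nat_lit 0x40019072881))))) (.nd (nat_lit 9) 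
(.nd (nat_lit 10) 
(.lf (nat_lit 671334880) (dlOf (nat_lit 2) (nat_lit 0x20120015808400c002e000000600040028157d01))) 
(.lf (nat_lit 5234738656) (dlOf (nat_lit 1) (nat_lit 0x10004000200080d3602)))) (.nd (nat_lit 26) 
(.lf (nat_lit 134993888) (dlOf (nat_lit 1) (nat_lit 0x4002000400080fa602))) 
(.lf (nat_lit 4228634592) (dlOf (nat_lit 1) (nat_lit 0x40040002000811a602)))))))) (.nd (nat_lit 28) 
(.nd (nat_lit 23) (.nd (nat_lit 24) (.nd (nat_lit 7) (.nd (nat_lit 6) 
(.lf (nat_lit 1556768) (dlOf (nat_lit 1) (nat_lit 0x4004000200080f7802))) (.nd (nat_lit 20) 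
(.lf (nat_lit 1678229600) (dlOf (nat_lit 7) (nat_lit 0x81580004804002c0aa00040120001102000202a8002814c001005600080100001084001302980007c0801d015800400aa00280130000e03001302980005c0803680080064002006800081b1283))) 
(.lf (nat_lit 35111008) (dlOf (nat_lit 1) (nat_lit 0x400400060008fd0902))))) (.nd (nat_lit 8) 
(.nd (nat_lit 26) 
(.lf (nat_lit 537378976) (dlOf (nat_lit 1) (nat_lit 0x28008001c00200060008090203))) 
(.lf (nat_lit 2886189216) (dlOf (nat_lit 3) (nat_lit 0x1801c0025381000500e0012940801180080094002005a0008184603)))) 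
(.lf (nat_lit 8373664) (dlOf (nat_lit 1) (nat_lit 0x400200020008513602))))) (.nd (nat_lit 11) 
(.nd (nat_lit 6) (.nd (nat_lit 10) 
(.lf (nat_lit 55033888) (dlOf (nat_lit 1) (nat_lit 0x3a0009690101))) 
(.lf (nat_lit 20436000) (dlOf (nat_lit 1) (nat_lit 0xa00289d9201)))) 
(.lf (nat_lit 55033952) (dlOf (nat_lit 2) (nat_lit 0x21318030ba04000c004000e0009690782)))) 
(.nd (nat_lit 6) (.nd (nat_lit 7) 
(.lf (nat_lit 19910176) (dlOf (nat_lit 1) (nat_lit 0x80080004002000200089d7103))) 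
(.lf (nat_lit 58706336) (dlOf (nat_lit 1) (nat_lit 0x200197e4e81)))) 
(.lf (nat_lit 51366368) (dlOf (nat_lit 1) (nat_lit 0x48004002e0019514e82)))))) (.nd (nat_lit 6) 
(.nd (nat_lit 22) (.nd (nat_lit 7) (.nd (nat_lit 24) 
(.lf (nat_lit 9945120) (dlOf (nat_lit 1) (nat_lit 0x400400020018590702))) 
(.lf (nat_lit 26722336) (dlOf (nat_lit 3) (nat_lit 0x2bca0000c01000a58700004c080030008001000200180008c60603)))) 
(.lf (nat_lit 44550560) (dlOf (nat_lit 1) (nat_lit 0x40029324e81)))) (.nd (nat_lit 19) 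
(.nd (nat_lit 20) 
(.lf (nat_lit 13090848) (dlOf (nat_lit 4) (nat_lit 0x598e4001cc440001a04001263900063110000601000318e40014c440000b04000e00186f0701))) 
(.lf (nat_lit 30916640) (dlOf (nat_lit 1) (nat_lit 0xa0028e50a81)))) 
(.lf (nat_lit 16760864) (dlOf (nat_lit 1) (nat_lit 0x4002000200088e0002))))) (.nd (nat_lit 7) 
(.nd (nat_lit 9) (.nd (nat_lit 19) 
(.lf (nat_lit 48742496) (dlOf (nat_lit 1) (nat_lit 0xc00400180009420902))) 
(.lf (nat_lit 12566624) (dlOf (nat_lit 1) (nat_lit 0x80080004002000200086d1283)))) 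
(.lf (nat_lit 61326944) (dlOf (nat_lit 1) (nat_lit 0x20019923901)))) (.nd (nat_lit 8) 
(.lf (nat_lit 30392544) (dlOf (nat_lit 1) (nat_lit 0x18002000c0008e30582))) 
(.lf (nat_lit 8904160) (dlOf (nat_lit 1) (nat_lit 0x4800800300020018000851cd03))))))) 
(.nd (nat_lit 26) (.nd (nat_lit 8) (.nd (nat_lit 6) (.nd (nat_lit 7) 
(.lf (nat_lit 1343733792) (dlOf (nat_lit 1) (nat_lit 0x80018350681))) 
(.lf (nat_lit 3624386720) (dlOf (nat_lit 1) (nat_lit 0x1c004000e0008184302)))) (.nd (nat_lit 21) 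
(.lf (nat_lit 805814368) (dlOf (nat_lit 3) (nat_lit 0x478158011c0a600d2032005600980010000000201401ec0ac0084053004a00980003818093800801cc002000600081b1303))) 
(.lf (nat_lit 1881653344) (dlOf (nat_lit 5) (nat_lit 0x1015800200a0000c04d00c2f03000102b0001014c00100a0000804d00c2e84000102b0000814c00180a0000c04d00c2d84000102b0001814c001c0a0000c04d00c2c848fa0780))))) 
(.nd (nat_lit 6) (.nd (nat_lit 19) (.nd (nat_lit 27) 
(.lf (nat_lit 1342685472) (dlOf (nat_lit 2) (nat_lit 0xb444c0002502001600080c0501))) 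
(.lf (nat_lit 3624386848) (dlOf (nat_lit 4) (nat_lit 0xa0140005809800280480010023000500d8000806400bc02a00140120052e08000502280078110022c07c000a03c000201d000e00dc003406a00400000052908001701b8028f4080e7000802e800203fa0008187803)))) 
(.lf (nat_lit 3490693408) (dlOf (nat_lit 1) (nat_lit 0x20028014181)))) 
(.lf (nat_lit 3490172256) (dlOf (nat_lit 1) (nat_lit 0x40028006a81))))) (.nd (nat_lit 21) 
(.nd (nat_lit 7) (.nd (nat_lit 8) 
(.lf (nat_lit 3557277728) (dlOf (nat_lit 8) (nat_lit 0x98045005ea810054039000b0184007c0bc1a220450004021000280fc086c07000be0340019016000380a8011804400bd4160010045005e701016e022802f200802f81c8006407e00bbd040002034005d9010016039002d140803c00080020002018c0008190703))) 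
(.lf (nat_lit 470270240) (dlOf (nat_lit 2) (nat_lit 0xb444c0002502001600080c0501)))) 
(.nd (nat_lit 8) 
(.lf (nat_lit 1409794208) (dlOf (nat_lit 1) (nat_lit 0x28008001c00200060008090203))) 
(.lf (nat_lit 4094675872) (dlOf (nat_lit 1) (nat_lit 0x40028055c81))))) (.nd (nat_lit 19) 
(.nd (nat_lit 7) (.lf (nat_lit 1009238048) (dlOf (nat_lit 1) (nat_lit 0x4002000600090a0182))) 
(.lf (nat_lit 472369568) (dlOf (nat_lit 1) (nat_lit 0x1c00400060008984e82)))) (.nd (nat_lit 6) 
(.lf (nat_lit 473940000) (dlOf (nat_lit 4) (nat_lit 0x960276038a1390000702005109c8000280800c05581234276006e09600000038fc0180))) 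
(.lf (nat_lit 473940064) (dlOf (nat_lit 3) (nat_lit 0x285740005a0416001b2000000200200008fc0901))))))))))) 
(.nd (nat_lit 16) (.nd (nat_lit 6) (.nd (nat_lit 19) (.nd (nat_lit 29) (.nd (nat_lit 18) 
(.nd (nat_lit 5) (.nd (nat_lit 8) (.nd (nat_lit 22) (.nd (nat_lit 26) (.nd (nat_lit 7) 
(.lf (nat_lit 2147663880) (dlOf (nat_lit 1) (nat_lit 0x1000800b8002002000080c0003))) 
(.lf (nat_lit 8570504) (dlOf (nat_lit 1) (nat_lit 0x400200020008513a02)))) (.nd (nat_lit 30) 
(.lf (nat_lit 4496474120) (dlOf (nat_lit 1) (nat_lit 0x2400400200018080002))) 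
(.lf (nat_lit 1275248648) (dlOf (nat_lit 1) (nat_lit 0x1000800b8002002000080c0003))))) 
(.nd (nat_lit 24) (.lf (nat_lit 37928968) (dlOf (nat_lit 1) (nat_lit 0x200290f0001))) 
(.lf (nat_lit 21151752) (dlOf (nat_lit 1) (nat_lit 0x10800200280008a10482))))) (.nd (nat_lit 7) 
(.nd (nat_lit 10) (.lf (nat_lit 28492040) (dlOf (nat_lit 1) (nat_lit 0xa0018da0701))) 
(.lf (nat_lit 183560) (dlOf (nat_lit 1) (nat_lit 0x1c0018006681)))) (.nd (nat_lit 23) 
(.lf (nat_lit 4697801096) (dlOf (nat_lit 1) (nat_lit 0x20008091001))) 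
(.lf (nat_lit 8569224) (dlOf (nat_lit 1) (nat_lit 0x400200020008511002)))))) (.nd (nat_lit 8) 
(.nd (nat_lit 20) (.nd (nat_lit 7) 
(.lf (nat_lit 1208139816) (dlOf (nat_lit 1) (nat_lit 0x20018090001))) 
(.lf (nat_lit 8573608) (dlOf (nat_lit 1) (nat_lit 0x400200020008518c82)))) (.nd (nat_lit 22) 
(.lf (nat_lit 68337704) (dlOf (nat_lit 1) (nat_lit 0xa0028550781))) 
(.lf (nat_lit 30588968) (dlOf (nat_lit 1) (nat_lit 0x60028e40d81))))) (.nd (nat_lit 9) 
(.nd (nat_lit 7) (.lf (nat_lit 6509743400) (dlOf (nat_lit 1) (nat_lit 0x20028146801))) 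
(.lf (nat_lit 5436000680) (dlOf (nat_lit 2) (nat_lit 0x2011006c7018094e80)))) (.nd (nat_lit 26) 
(.lf (nat_lit 1345506088) (dlOf (nat_lit 1) (nat_lit 0x20028c95c01))) 
(.lf (nat_lit 473090856) (dlOf (nat_lit 3) (nat_lit 0x1209d000f98104250b280068c080cc000806a8002021a0008c95c03))))))) 
(.nd (nat_lit 7) (.nd (nat_lit 31) (.nd (nat_lit 5) (.nd (nat_lit 9) (.nd (nat_lit 20) 
(.lf (nat_lit 15122440) (dlOf (nat_lit 1) (nat_lit 0x4004000200087c0482))) 
(.lf (nat_lit 35045384) (dlOf (nat_lit 1) (nat_lit 0x400400020008fd0002)))) 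
(.lf (nat_lit 57068040) (dlOf (nat_lit 1) (nat_lit 0x20029795001)))) (.nd (nat_lit 8) 
(.lf (nat_lit 22462504) (dlOf (nat_lit 2) (nat_lit 0x5f36140005404000800400020018ae0582))) 
(.lf (nat_lit 60214056) (dlOf (nat_lit 1) (nat_lit 0x1c00200080009845c02))))) (.nd (nat_lit 5) 
(.nd (nat_lit 8) (.nd (nat_lit 26) 
(.lf (nat_lit 3624321032) (dlOf (nat_lit 1) (nat_lit 0x40008160001))) 
(.lf (nat_lit 3557212168) (dlOf (nat_lit 1) (nat_lit 0x10008015c00200420008170003)))) 
(.lf (nat_lit 3288778504) (dlOf (nat_lit 1) (nat_lit 0x200280f3b81)))) (.nd (nat_lit 21) 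
(.lf (nat_lit 6510002216) (dlOf (nat_lit 4) (nat_lit 0x9c0260002d01000d0130001640800e00980005a04000800200020008180582))) 
(.lf (nat_lit 3492200488) (dlOf (nat_lit 2) (nat_lit 0x80220000c80800680080004002001600080b0c83)))))) 
(.nd (nat_lit 8) (.nd (nat_lit 22) (.nd (nat_lit 5) 
(.lf (nat_lit 1343668360) (dlOf (nat_lit 2) (nat_lit 0x10e161000c48182e0480))) 
(.lf (nat_lit 2416365224) (dlOf (nat_lit 1) (nat_lit 0x2a00180f7201)))) (.nd (nat_lit 21) 
(.lf (nat_lit 21414024) (dlOf (nat_lit 2) (nat_lit 0x4984000310200060008a30f01))) 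
(.lf (nat_lit 23511176) (dlOf (nat_lit 1) (nat_lit 0x8008000400200320008b80103))))) 
(.nd (nat_lit 5) (.nd (nat_lit 20) 
(.lf (nat_lit 8831368) (dlOf (nat_lit 2) (nat_lit 0xf2280013804000c00400020008511002))) 
(.lf (nat_lit 3493249416) (dlOf (nat_lit 1) (nat_lit 0x10008000400200040008105c03)))) 
(.lf (nat_lit 8832424) (dlOf (nat_lit 1) (nat_lit 0x800200020008513602))))))) (.nd (nat_lit 8) 
(.nd (nat_lit 9) (.nd (nat_lit 26) (.nd (nat_lit 18) (.nd (nat_lit 10) 
(.lf (nat_lit 5234671624) (dlOf (nat_lit 1) (nat_lit 0x300028080001))) 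
(.lf (nat_lit 1610793992) (dlOf (nat_lit 1) (nat_lit 0xc0028092881)))) (.nd (nat_lit 5) 
(.lf (nat_lit 2819014664) (dlOf (nat_lit 1) (nat_lit 0x1000400020018150002))) 
(.lf (nat_lit 5906022440) (dlOf (nat_lit 4) (nat_lit 0x9c0250002d01000d0128001640800e00940005a04000800200020008180582))))) 
(.nd (nat_lit 27) (.nd (nat_lit 5) 
(.lf (nat_lit 1677904008) (dlOf (nat_lit 1) (nat_lit 0x40028114801))) 
(.lf (nat_lit 2754002984) (dlOf (nat_lit 2) (nat_lit 0x80220000680800680080004002001600080b0c83)))) 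
(.nd (nat_lit 28) (.lf (nat_lit 2886123528) (dlOf (nat_lit 1) (nat_lit 0x40008160001))) 
(.lf (nat_lit 1007075336) (dlOf (nat_lit 1) (nat_lit 0x400400020008170002)))))) (.nd (nat_lit 7) 
(.nd (nat_lit 5) 
(.lf (nat_lit 3959609864) (dlOf (nat_lit 2) (nat_lit 0xa8046000a022802d810c013808000d2038001100b0030383003b000801140020026000811b283))) 
(.nd (nat_lit 12) (.lf (nat_lit 6376573480) (dlOf (nat_lit 1) (nat_lit 0x480028095181))) 
(.lf (nat_lit 2751650344) (dlOf (nat_lit 4) (nat_lit 0x2041e00a7502001e20f005360102731078029ac08004000800440020108000800b283))))) 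
(.nd (nat_lit 12) (.nd (nat_lit 21) 
(.lf (nat_lit 2013447816) (dlOf (nat_lit 1) (nat_lit 0x400200020008093a02))) 
(.lf (nat_lit 4095919752) (dlOf (nat_lit 1) (nat_lit 0x4002000200080e3a02)))) (.nd (nat_lit 10) 
(.lf (nat_lit 3758283400) (dlOf (nat_lit 1) (nat_lit 0x8002812b681))) 
(.lf (nat_lit 4160935560) (dlOf (nat_lit 1) (nat_lit 0x2e00280a9e01))))))) (.nd (nat_lit 27) 
(.nd (nat_lit 5) (.nd (nat_lit 10) (.nd (nat_lit 20) 
(.lf (nat_lit 805749128) (dlOf (nat_lit 2) (nat_lit 0x880420037c8181a0780))) 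
(.lf (nat_lit 2755051912) (dlOf (nat_lit 4) (nat_lit 0x8040000200200080200000f8100010100000700800880080080002002e0008105c83)))) 
(.nd (nat_lit 7) 
(.lf (nat_lit 2684540168) (dlOf (nat_lit 1) (nat_lit 0x300080018002000800080a9603))) 
(.lf (nat_lit 3825388936) (dlOf (nat_lit 1) (nat_lit 0x20028146c81))))) (.nd (nat_lit 7) 
(.nd (nat_lit 9) (.lf (nat_lit 2751650088) (dlOf (nat_lit 1) (nat_lit 0x12001800ab81))) 
(.lf (nat_lit 604425000) (dlOf (nat_lit 26) (nat_lit 0x6f00300047a0405a807a031603a018201a005a00a805b4040020200c005100480b980000047820067007a032003a018d01a00d280a8067c040002330a031403d017201d00bd80d00620054031a0200011885022e01e811680e8016406e04440340238015011800800794018043e00902160000008bc480b580800720018035600901a80000008b42000700e801c00680022604017800c001120100f700600088c08002803000428040028018002110200d200c001080100a3006000838080278030004140403580180020902001400c001008100f20060008000806f0030003fc0403c8018001fa02002200c000fb8101180060007cc080150030003e20403c4018001f00201ca00c000f781003e01000000008010800800f000200020008205c03))))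 
(.lf (nat_lit 1677903784) (dlOf (nat_lit 1) (nat_lit 0x20018114301))))) (.nd (nat_lit 5) 
(.nd (nat_lit 9) (.nd (nat_lit 7) 
(.lf (nat_lit 5301781768) (dlOf (nat_lit 1) (nat_lit 0x8008000400200120008092f83))) 
(.lf (nat_lit 1812119944) (dlOf (nat_lit 1) (nat_lit 0x20028155c81)))) (.nd (nat_lit 11) 
(.lf (nat_lit 4160930568) (dlOf (nat_lit 1) (nat_lit 0x10004000200080a2102))) 
(.lf (nat_lit 738380552) (dlOf (nat_lit 2) (nat_lit 0x100b2002605700080290001812c001800a0002e0a005c0008095b01))))) 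
(.nd (nat_lit 7) (.nd (nat_lit 10) 
(.lf (nat_lit 1812119848) (dlOf (nat_lit 1) (nat_lit 0x20018154601))) 
(.lf (nat_lit 5301781800) (dlOf (nat_lit 2) (nat_lit 0x40000000b018093180)))) 
(.lf (nat_lit 738380200) (dlOf (nat_lit 1) (nat_lit 0x100028094e81)))))))) (.nd (nat_lit 21) 
(.nd (nat_lit 27) (.nd (nat_lit 5) (.nd (nat_lit 18) (.nd (nat_lit 7) 
(.lf (nat_lit 21676040) (dlOf (nat_lit 1) (nat_lit 0x58008009000200340008a60a03))) (.nd (nat_lit 8) 
(.lf (nat_lit 60473480) (dlOf (nat_lit 1) (nat_lit 0x40029870f01))) 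
(.lf (nat_lit 3491414408) (dlOf (nat_lit 2) (nat_lit 0x443cc007090200160028090781))))) 
(.nd (nat_lit 8) (.nd (nat_lit 23) 
(.lf (nat_lit 52346888) (dlOf (nat_lit 1) (nat_lit 0x8008000400200020009530003))) 
(.lf (nat_lit 10403848) (dlOf (nat_lit 1) (nat_lit 0x1400085d0481)))) 
(.lf (nat_lit 1881063688) (dlOf (nat_lit 1) (nat_lit 0xa800401260018de3582))))) (.nd (nat_lit 18) 
(.nd (nat_lit 20) (.nd (nat_lit 22) 
(.lf (nat_lit 4362780712) (dlOf (nat_lit 1) (nat_lit 0x29000800f8002002e00080f0d03))) 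
(.lf (nat_lit 13287464) (dlOf (nat_lit 1) (nat_lit 0x1000400020008710d02)))) 
(.lf (nat_lit 1753128) (dlOf (nat_lit 1) (nat_lit 0x20018130801)))) (.nd (nat_lit 20) 
(.nd (nat_lit 28) 
(.lf (nat_lit 966696) (dlOf (nat_lit 3) (nat_lit 0x34c40000d408001a8440000004001000200040008040582))) 
(.lf (nat_lit 1343143976) (dlOf (nat_lit 1) (nat_lit 0x5400200020008160902)))) (.nd (nat_lit 9) 
(.lf (nat_lit 10403880) (dlOf (nat_lit 2) (nat_lit 0xa2140003a040028002000400085d0582))) 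
(.lf (nat_lit 1881063976) (dlOf (nat_lit 2) (nat_lit 0x4014000c0000000f20802b000200140008de8882))))))) 
(.nd (nat_lit 5) (.nd (nat_lit 26) (.nd (nat_lit 7) (.nd (nat_lit 28) 
(.lf (nat_lit 134922248) (dlOf (nat_lit 3) (nat_lit 0xe00760070802002e03b0037b0180e0000))) 
(.lf (nat_lit 5772066824) (dlOf (nat_lit 1) (nat_lit 0x1c00400060008060a02)))) 
(.lf (nat_lit 5772329352) (dlOf (nat_lit 2) (nat_lit 0x709f000084c0002c008001000400060018091002)))) 
(.nd (nat_lit 7) (.nd (nat_lit 28) 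
(.lf (nat_lit 202031112) (dlOf (nat_lit 3) (nat_lit 0xe007600cb502002e03b0064f8180e0000))) 
(.lf (nat_lit 6376046600) (dlOf (nat_lit 1) (nat_lit 0x1c00400060008060a02)))) 
(.lf (nat_lit 6377095304) (dlOf (nat_lit 1) (nat_lit 0x8002000400080a2402))))) (.nd (nat_lit 26) 
(.nd (nat_lit 29) (.lf (nat_lit 134922280) (dlOf (nat_lit 2) (nat_lit 0x4e000000390180e0500))) 
(.nd (nat_lit 30) (.lf (nat_lit 2819276840) (dlOf (nat_lit 2) (nat_lit 0x40430002b818220780))) 
(.lf (nat_lit 3893018664) (dlOf (nat_lit 1) (nat_lit 0x570008060c00202d800082e0803))))) 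
(.nd (nat_lit 20) (.nd (nat_lit 18) 
(.lf (nat_lit 202031144) (dlOf (nat_lit 2) (nat_lit 0x4e000000390180e0500))) 
(.lf (nat_lit 470728744) (dlOf (nat_lit 1) (nat_lit 0x100028160901)))) (.nd (nat_lit 7) 
(.lf (nat_lit 1008386088) (dlOf (nat_lit 1) (nat_lit 0x8008000400200020008ba0803))) 
(.lf (nat_lit 6377095336) (dlOf (nat_lit 1) (nat_lit 0x1e00180a2c01)))))))) (.nd (nat_lit 8) 
(.nd (nat_lit 20) (.nd (nat_lit 18) (.nd (nat_lit 10) (.nd (nat_lit 24) 
(.lf (nat_lit 472563720) (dlOf (nat_lit 1) (nat_lit 0x18008000c002000200089c0003))) 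
(.lf (nat_lit 19578888) (dlOf (nat_lit 1) (nat_lit 0x280080008002000a00089c0003)))) 
(.lf (nat_lit 69911560) (dlOf (nat_lit 1) (nat_lit 0x1b000800b000200480008e12883)))) 
(.nd (nat_lit 5) (.nd (nat_lit 7) 
(.lf (nat_lit 53395464) (dlOf (nat_lit 1) (nat_lit 0x4004000200095b0002))) 
(.lf (nat_lit 19848328) (dlOf (nat_lit 1) (nat_lit 0x800189dc201)))) 
(.lf (nat_lit 19841576) (dlOf (nat_lit 1) (nat_lit 0xc00189d1481))))) (.nd (nat_lit 12) 
(.nd (nat_lit 5) (.nd (nat_lit 7) 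
(.lf (nat_lit 473612808) (dlOf (nat_lit 1) (nat_lit 0xaa0008f68001))) 
(.lf (nat_lit 8046216) (dlOf (nat_lit 1) (nat_lit 0x400200020008513a02)))) 
(.lf (nat_lit 473612840) (dlOf (nat_lit 2) (nat_lit 0x20000000f20400a4004000e0008f68882)))) 
(.nd (nat_lit 7) (.nd (nat_lit 11) 
(.lf (nat_lit 8049192) (dlOf (nat_lit 1) (nat_lit 0x400200040008518902))) 
(.lf (nat_lit 8051240) (dlOf (nat_lit 1) (nat_lit 0x18008001c002000a000851b283)))) 
(.lf (nat_lit 8049320) (dlOf (nat_lit 1) (nat_lit 0x8008000400200020008518c83)))))) 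
(.nd (nat_lit 7) (.nd (nat_lit 10) (.nd (nat_lit 5) (.nd (nat_lit 11) 
(.lf (nat_lit 473612552) (dlOf (nat_lit 1) (nat_lit 0xa0008000c00200040008f63583))) 
(.lf (nat_lit 8046856) (dlOf (nat_lit 1) (nat_lit 0x400400020008514b82)))) 
(.lf (nat_lit 20630312) (dlOf (nat_lit 2) (nat_lit 0x24448000f48189d5c00)))) (.nd (nat_lit 5) 
(.nd (nat_lit 9) (.lf (nat_lit 8049928) (dlOf (nat_lit 1) (nat_lit 0x60008519601))) 
(.lf (nat_lit 8050440) (dlOf (nat_lit 1) (nat_lit 0x3000800140020006000851a003)))) 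
(.lf (nat_lit 8314152) (dlOf (nat_lit 1) (nat_lit 0x288008010c002003e000851c603))))) 
(.nd (nat_lit 11) (.nd (nat_lit 10) (.nd (nat_lit 12) 
(.lf (nat_lit 3493773704) (dlOf (nat_lit 1) (nat_lit 0x800804f0002016800081b0783))) 
(.lf (nat_lit 8049032) (dlOf (nat_lit 1) (nat_lit 0x80080028002000a0008518383)))) 
(.lf (nat_lit 8045960) (dlOf (nat_lit 1) (nat_lit 0x20008513601)))) (.nd (nat_lit 5) 
(.nd (nat_lit 18) (.lf (nat_lit 36358536) (dlOf (nat_lit 1) (nat_lit 0x20019074e81))) 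
(.lf (nat_lit 2754529672) (dlOf (nat_lit 1) (nat_lit 0x1400180f4e81)))) (.nd (nat_lit 9) 
(.lf (nat_lit 37407144) (dlOf (nat_lit 1) (nat_lit 0x4002000c00090d4e82))) 
(.lf (nat_lit 8048552) (dlOf (nat_lit 1) (nat_lit 0x8008000400200020008517903)))))))))) 
(.nd (nat_lit 5) (.nd (nat_lit 18) (.nd (nat_lit 20) (.nd (nat_lit 9) (.nd (nat_lit 7) 
(.nd (nat_lit 10) (.nd (nat_lit 21) 
(.lf (nat_lit 4362780744) (dlOf (nat_lit 1) (nat_lit 0x1b0008002c002000600080f1883))) 
(.lf (nat_lit 1344979016) (dlOf (nat_lit 3) (nat_lit 0x10148005700800e80000011c040014002000e00089a0602)))) 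
(.nd (nat_lit 8) (.lf (nat_lit 3020084296) (dlOf (nat_lit 2) (nat_lit 0x203d00017818129300))) 
(.lf (nat_lit 40027464) (dlOf (nat_lit 1) (nat_lit 0x4002000200091f3302))))) (.nd (nat_lit 8) 
(.nd (nat_lit 10) (.lf (nat_lit 1346552008) (dlOf (nat_lit 1) (nat_lit 0x440018fc5981))) 
(.lf (nat_lit 1543687368) (dlOf (nat_lit 7) (nat_lit 0x6804c000680400240000003302002601f001600980090030000640c001003e00100130001182000b00980008808006804c0004204006000400240018146382)))) 
(.lf (nat_lit 3221409224) (dlOf (nat_lit 1) (nat_lit 0x11800800a400200200008116d03))))) 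
(.nd (nat_lit 7) (.nd (nat_lit 27) (.nd (nat_lit 8) 
(.lf (nat_lit 2483208776) (dlOf (nat_lit 2) (nat_lit 0x280a4004801e000000400040018091101))) 
(.lf (nat_lit 3758282568) (dlOf (nat_lit 3) (nat_lit 0x480f40002c04014006400000020002002812a181)))) 
(.nd (nat_lit 31) 
(.lf (nat_lit 201507400) (dlOf (nat_lit 3) (nat_lit 0x202f00034810001025000110080030008000800200040008018d03))) 
(.lf (nat_lit 2348991048) (dlOf (nat_lit 2) (nat_lit 0x280a4004801e000000400040018091101))))) 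
(.nd (nat_lit 8) 
(.lf (nat_lit 3758281416) (dlOf (nat_lit 2) (nat_lit 0x400c80000004001c00400060008128c82))) 
(.nd (nat_lit 11) 
(.lf (nat_lit 3959604168) (dlOf (nat_lit 1) (nat_lit 0x100080028002001e0008112883))) 
(.lf (nat_lit 738380744) (dlOf (nat_lit 1) (nat_lit 0x1400400a60008095d82))))))) (.nd (nat_lit 9) 
(.nd (nat_lit 10) (.nd (nat_lit 19) (.nd (nat_lit 22) 
(.lf (nat_lit 62046280) (dlOf (nat_lit 1) (nat_lit 0x40009940601))) 
(.lf (nat_lit 24297544) (dlOf (nat_lit 2) (nat_lit 0x48cb900015818b90e00)))) (.nd (nat_lit 7) 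
(.nd (nat_lit 11) (.lf (nat_lit 8044616) (dlOf (nat_lit 1) (nat_lit 0x8008000400200020008510003))) 
(.lf (nat_lit 8046664) (dlOf (nat_lit 1) (nat_lit 0x28008000400200060008514703)))) 
(.lf (nat_lit 8049096) (dlOf (nat_lit 1) (nat_lit 0x8008001c00200060008518683))))) (.nd (nat_lit 8) 
(.nd (nat_lit 21) (.lf (nat_lit 35308616) (dlOf (nat_lit 1) (nat_lit 0x400400020009012882))) 
(.lf (nat_lit 8045640) (dlOf (nat_lit 1) (nat_lit 0x8008000400200020008512883)))) 
(.lf (nat_lit 49988936) (dlOf (nat_lit 1) (nat_lit 0xc004000200094c3302))))) (.nd (nat_lit 7) 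
(.nd (nat_lit 26) (.lf (nat_lit 3491414600) (dlOf (nat_lit 2) (nat_lit 0x241ed00013018091100))) 
(.lf (nat_lit 2753217096) (dlOf (nat_lit 2) (nat_lit 0x241ff00013018091100)))) (.nd (nat_lit 8) 
(.lf (nat_lit 20107976) (dlOf (nat_lit 1) (nat_lit 0x4002000200089d8c82))) (.nd (nat_lit 12) 
(.lf (nat_lit 8045512) (dlOf (nat_lit 1) (nat_lit 0x400400020008512882))) 
(.lf (nat_lit 8049608) (dlOf (nat_lit 1) (nat_lit 0x40008519201)))))))) (.nd (nat_lit 7) 
(.nd (nat_lit 9) (.nd (nat_lit 19) (.nd (nat_lit 10) (.nd (nat_lit 11) 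
(.lf (nat_lit 2819014728) (dlOf (nat_lit 1) (nat_lit 0x400400120018150682))) 
(.lf (nat_lit 2550585416) (dlOf (nat_lit 1) (nat_lit 0x400280fa681)))) (.nd (nat_lit 26) 
(.lf (nat_lit 1344717896) (dlOf (nat_lit 1) (nat_lit 0x20008982881))) 
(.lf (nat_lit 472302664) (dlOf (nat_lit 1) (nat_lit 0x20008982881))))) (.nd (nat_lit 20) 
(.nd (nat_lit 8) (.lf (nat_lit 47104072) (dlOf (nat_lit 1) (nat_lit 0x80080008002000200093a0603))) 
(.lf (nat_lit 19841352) (dlOf (nat_lit 1) (nat_lit 0x4002000200089d0c82)))) (.nd (nat_lit 10) 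
(.lf (nat_lit 25083976) (dlOf (nat_lit 1) (nat_lit 0xb800400ac0018be1482))) 
(.lf (nat_lit 4095657032) (dlOf (nat_lit 1) (nat_lit 0x200080e2881)))))) (.nd (nat_lit 26) 
(.nd (nat_lit 8) (.nd (nat_lit 27) 
(.lf (nat_lit 537313864) (dlOf (nat_lit 3) (nat_lit 0x3202d001d013800c000c0004c0c015c062000170200020018091101))) 
(.lf (nat_lit 134660680) (dlOf (nat_lit 4) (nat_lit 0x4094001e046002e017800600300004c10002c094001e02f0001202003401780000008014800800d000200040008091103)))) 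
(.lf (nat_lit 19843912) (dlOf (nat_lit 1) (nat_lit 0x4002000200089d5c02)))) (.nd (nat_lit 27) 
(.lf (nat_lit 1409729096) (dlOf (nat_lit 3) (nat_lit 0x3202d001d013800c000c0004c0c015c062000170200020018091101))) 
(.lf (nat_lit 201769544) (dlOf (nat_lit 4) (nat_lit 0x4094001e046002e017800600300004c10002c094001e02f0001202003401780000008014800800d000200040008091103)))))) 
(.nd (nat_lit 30) (.nd (nat_lit 20) (.nd (nat_lit 8) 
(.lf (nat_lit 4698063048) (dlOf (nat_lit 1) (nat_lit 0x1c00200120008105882))) 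
(.lf (nat_lit 4362518984) (dlOf (nat_lit 1) (nat_lit 0x38008001c00200340008090983)))) 
(.nd (nat_lit 10) (.lf (nat_lit 18792648) (dlOf (nat_lit 1) (nat_lit 0x20028970481))) 
(.lf (nat_lit 47629512) (dlOf (nat_lit 1) (nat_lit 0x400200020009402d02))))) (.nd (nat_lit 26) 
(.nd (nat_lit 11) (.lf (nat_lit 3221668296) (dlOf (nat_lit 1) (nat_lit 0xcc00400a00018170982))) 
(.lf (nat_lit 1344719304) (dlOf (nat_lit 1) (nat_lit 0x40028984e81)))) (.nd (nat_lit 28) 
(.lf (nat_lit 3959865800) (dlOf (nat_lit 1) (nat_lit 0xcc00400a00018170982))) 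
(.lf (nat_lit 4228301256) (dlOf (nat_lit 1) (nat_lit 0x38008001c00200340008090983)))))))) 
(.nd (nat_lit 7) (.nd (nat_lit 19) (.nd (nat_lit 29) (.nd (nat_lit 20) (.nd (nat_lit 8) 
(.nd (nat_lit 18) (.lf (nat_lit 37929064) (dlOf (nat_lit 1) (nat_lit 0x4004000200090f0982))) 
(.lf (nat_lit 48676968) (dlOf (nat_lit 2) (nat_lit 0x3d44e000298d00009829420980)))) 
(.lf (nat_lit 3624059240) (dlOf (nat_lit 5) (nat_lit 0x10006000b202f0047017002300b40140048007401b003f00c00268050013802400920110051007801200300138016009c00500550010006800401dc0000002922003402e001a00c0000a01001880b8019005a0054024003400d801a80600138028008e0110063002802e8008003400200c8000000138b00fd0180009003c0004a080034004004600180b0702)))) 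
(.nd (nat_lit 8) (.nd (nat_lit 26) 
(.lf (nat_lit 1345505896) (dlOf (nat_lit 1) (nat_lit 0x20028c95381))) 
(.lf (nat_lit 473090664) (dlOf (nat_lit 2) (nat_lit 0xa83360003b0200020008c95381)))) 
(.lf (nat_lit 3493249384) (dlOf (nat_lit 1) (nat_lit 0x20028105201))))) (.nd (nat_lit 12) 
(.nd (nat_lit 8) (.nd (nat_lit 9) 
(.lf (nat_lit 4899127400) (dlOf (nat_lit 1) (nat_lit 0x20018080781))) 
(.lf (nat_lit 604424808) (dlOf (nat_lit 14) (nat_lit 0x100fc00e007800320360002503001101e001580d800ec046000430600060230002101003401b001f808c000820800a407e000203e003500e0000fc1800a00700007c0400c007e007601c0001e82005901f804280f0003c07200bc036006001180318070000761800040780003a02002203f0001c81000201e0000e00800880fc0006e04000407e000360200600028205381)))) 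
(.lf (nat_lit 2755838312) (dlOf (nat_lit 2) (nat_lit 0x1042e0002502000400181b0701)))) 
(.nd (nat_lit 8) (.nd (nat_lit 11) 
(.lf (nat_lit 3758281832) (dlOf (nat_lit 10) (nat_lit 0x5e01e803280ec016406c00b4034004c018002500ac017404800aa0220001788005d01e802d00ec003006c00b0034004c018002380ac016804800aa0220001688003301e803180ac01b80480002b0600ce02b00730120000a81000100f40005004020c0000002402010a0000001101007c0000000800803e80000003a0400d000400120018129402))) 
(.lf (nat_lit 3020086376) (dlOf (nat_lit 4) (nat_lit 0xa0350017018000580a80028046004a0220001405000a01a801480c00038054001002300320110000982800d00f000040760002035000101180009420032800800280020004000812c083)))) 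
(.lf (nat_lit 2684539752) (dlOf (nat_lit 1) (nat_lit 0x4004000200080a8f82)))))) (.nd (nat_lit 18) 
(.nd (nat_lit 9) (.nd (nat_lit 20) (.nd (nat_lit 26) 
(.lf (nat_lit 1344979048) (dlOf (nat_lit 4) (nat_lit 0x488580007829a00a60d9000806c003d827001f011a010c07d004203e00003840046023402600fa0000c04012c16000190a680480270024c11a013a07d005a03e0000003003000080108002003400089a0983))) 
(.lf (nat_lit 472563816) (dlOf (nat_lit 5) (nat_lit 0x5e0a680318364018c1b000d807d006603e0000382802801f4000180400040fa0000a02001407d000603e0000001000500080030002001400089c0983)))) 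
(.lf (nat_lit 45793384) (dlOf (nat_lit 3) (nat_lit 0x21862400084040048924000c3f300009829360980)))) 
(.nd (nat_lit 8) (.lf (nat_lit 8046184) (dlOf (nat_lit 1) (nat_lit 0x600028513901))) 
(.lf (nat_lit 8049512) (dlOf (nat_lit 1) (nat_lit 0x400400020008518f82))))) (.nd (nat_lit 20) 
(.nd (nat_lit 8) (.nd (nat_lit 10) 
(.lf (nat_lit 59687016) (dlOf (nat_lit 1) (nat_lit 0x400200020009820982))) 
(.lf (nat_lit 34522216) (dlOf (nat_lit 1) (nat_lit 0x60018fb2981)))) 
(.lf (nat_lit 1410253160) (dlOf (nat_lit 8) (nat_lit 0x5481dc02500cc00f80000001883007003b80298198000600802b00c20002c020116077005103b003501c001e80cc002c0650037031803580000004a1c020c0f000dc077004d03b003a81c402fc0e0000206f00820368031019800080ca018e06300aa03080248000000423002880ec006206500cd000000070180018000000360400dc004000800181b0702)))) 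
(.nd (nat_lit 9) (.nd (nat_lit 21) 
(.lf (nat_lit 52346984) (dlOf (nat_lit 1) (nat_lit 0x1000400700009530982))) 
(.lf (nat_lit 473874536) (dlOf (nat_lit 2) (nat_lit 0x12053400d41b2001c0d800005038fc0980)))) 
(.lf (nat_lit 54446696) (dlOf (nat_lit 1) (nat_lit 0x18008000400200020009655383))))))) 
(.nd (nat_lit 8) (.nd (nat_lit 10) (.nd (nat_lit 18) (.nd (nat_lit 11) 
(.lf (nat_lit 4496474344) (dlOf (nat_lit 1) (nat_lit 0x40028081e01))) (.nd (nat_lit 23) 
(.lf (nat_lit 671271144) (dlOf (nat_lit 1) (nat_lit 0x338008003000200080008144b03))) 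
(.lf (nat_lit 8571112) (dlOf (nat_lit 1) (nat_lit 0x400400020008514b02))))) (.nd (nat_lit 19) 
(.lf (nat_lit 1343668456) (dlOf (nat_lit 1) (nat_lit 0x58008003c002003600082e0603))) 
(.nd (nat_lit 21) (.lf (nat_lit 68075752) (dlOf (nat_lit 1) (nat_lit 0x80080004002000200083e0683))) 
(.lf (nat_lit 19841256) (dlOf (nat_lit 1) (nat_lit 0x200189d0a81)))))) (.nd (nat_lit 29) 
(.nd (nat_lit 9) (.nd (nat_lit 11) 
(.lf (nat_lit 43173096) (dlOf (nat_lit 8) (nat_lit 0x1ea48000d51d0012a898003d25c005a918000460a00135240002a8e8001d460004aa26001b4ae0007a4b80025230005400000045100003532000fa958007d420002695c00f832c000f17e80078908003c460001e040000f01e00060000000862c0060658000420200135240005a8e800ad44c002a92e000232c00051210000e0300065a08004abf600182540001783000cafd8000b80807d000800200020ab000092a2e03))) 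
(.lf (nat_lit 707816) (dlOf (nat_lit 1) (nat_lit 0x80028006501)))) 
(.lf (nat_lit 184040) (dlOf (nat_lit 1) (nat_lit 0x240018007401)))) (.nd (nat_lit 11) 
(.lf (nat_lit 5301781736) (dlOf (nat_lit 1) (nat_lit 0x800200160008092e02))) (.nd (nat_lit 18) 
(.lf (nat_lit 3825388776) (dlOf (nat_lit 1) (nat_lit 0x20028146501))) 
(.lf (nat_lit 4026977512) (dlOf (nat_lit 1) (nat_lit 0x4004000200180f6502))))))) (.nd (nat_lit 18) 
(.nd (nat_lit 11) (.nd (nat_lit 10) (.nd (nat_lit 12) 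
(.lf (nat_lit 4362256872) (dlOf (nat_lit 1) (nat_lit 0x2c00200120008017d02))) 
(.lf (nat_lit 8049128) (dlOf (nat_lit 1) (nat_lit 0x10008002c002000a0008518683)))) 
(.nd (nat_lit 12) (.lf (nat_lit 2013447656) (dlOf (nat_lit 1) (nat_lit 0x20018093601))) 
(.lf (nat_lit 3020084712) (dlOf (nat_lit 3) (nat_lit 0x1d80f40002c040040064000000200020028129b81))))) 
(.nd (nat_lit 9) (.nd (nat_lit 12) 
(.lf (nat_lit 35310056) (dlOf (nat_lit 1) (nat_lit 0x400400060009014e82))) 
(.lf (nat_lit 3959609832) (dlOf (nat_lit 2) (nat_lit 0x1a045005bf01811b280)))) 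
(.lf (nat_lit 8051688) (dlOf (nat_lit 1) (nat_lit 0x40020002000851bf02))))) (.nd (nat_lit 28) 
(.nd (nat_lit 9) (.nd (nat_lit 11) 
(.lf (nat_lit 2755576296) (dlOf (nat_lit 1) (nat_lit 0x200181b0c81))) 
(.lf (nat_lit 57068008) (dlOf (nat_lit 1) (nat_lit 0x8008000400200020009794e83)))) 
(.lf (nat_lit 8833000) (dlOf (nat_lit 2) (nat_lit 0x1f5b40005b50000320400020008514601)))) 
(.nd (nat_lit 10) (.nd (nat_lit 11) 
(.lf (nat_lit 3493773800) (dlOf (nat_lit 1) (nat_lit 0x200181b0c81))) 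
(.lf (nat_lit 1344719336) (dlOf (nat_lit 1) (nat_lit 0x10008002000200020008984e83)))) 
(.lf (nat_lit 1476838888) (dlOf (nat_lit 2) (nat_lit 0x7e02000117018203600)))))))))) 
(.nd (nat_lit 18) (.nd (nat_lit 6) (.nd (nat_lit 28) (.nd (nat_lit 5) (.nd (nat_lit 21) 
(.nd (nat_lit 27) (.nd (nat_lit 10) (.nd (nat_lit 7) (.nd (nat_lit 22) 
(.lf (nat_lit 26460168) (dlOf (nat_lit 1) (nat_lit 0x10008000400200020008c50003))) 
(.lf (nat_lit 5488648) (dlOf (nat_lit 1) (nat_lit 0x12a0018380281)))) 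
(.lf (nat_lit 9683080) (dlOf (nat_lit 3) (nat_lit 0xe8fc0006c04006b48a009ba430003d1f8000d41801a0008001000200100008570e03)))) 
(.nd (nat_lit 8) (.lf (nat_lit 2751710216) (dlOf (nat_lit 1) (nat_lit 0x20008002881))) 
(.nd (nat_lit 29) (.lf (nat_lit 247560) (dlOf (nat_lit 1) (nat_lit 0x400400020008003b82))) 
(.lf (nat_lit 5905827592) (dlOf (nat_lit 3) (nat_lit 0xc04a0006802002802500000018143b80)))))) 
(.nd (nat_lit 26) (.nd (nat_lit 7) 
(.lf (nat_lit 134463496) (dlOf (nat_lit 1) (nat_lit 0x8008000400200020008030483))) 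
(.lf (nat_lit 1208208008) (dlOf (nat_lit 1) (nat_lit 0x20018095481)))) (.nd (nat_lit 29) 
(.lf (nat_lit 201572360) (dlOf (nat_lit 1) (nat_lit 0x8008000400200020008030483))) 
(.lf (nat_lit 1812185096) (dlOf (nat_lit 3) (nat_lit 0xf00580046808003002c001b004006400400060018170482)))))) 
(.nd (nat_lit 19) (.nd (nat_lit 7) (.nd (nat_lit 10) 
(.lf (nat_lit 10731528) (dlOf (nat_lit 2) (nat_lit 0x59fc0001d204002800400180008620482))) 
(.lf (nat_lit 20171784) (dlOf (nat_lit 1) (nat_lit 0x4002000200089d5f82)))) 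
(.lf (nat_lit 11780232) (dlOf (nat_lit 1) (nat_lit 0x4002000200086c0102)))) (.nd (nat_lit 9) 
(.nd (nat_lit 23) 
(.lf (nat_lit 2754330632) (dlOf (nat_lit 2) (nat_lit 0xf0ff8001cc0800080080038002001000080d0483))) 
(.lf (nat_lit 11255816) (dlOf (nat_lit 1) (nat_lit 0x4002000c0008680002)))) 
(.lf (nat_lit 57395720) (dlOf (nat_lit 1) (nat_lit 0x20009795001)))))) (.nd (nat_lit 19) 
(.nd (nat_lit 23) (.nd (nat_lit 7) 
(.lf (nat_lit 4362321960) (dlOf (nat_lit 12) (nat_lit 0xda056006c02a002080ac000440c02e80ac01720540021024804700ac000421002880ac009e054006a0158000801800681580003e0401b40ac00da054005f020002100ac0003c1002d00ac016a0540019021804781040270080010a02b0000e8600a102b0042015001a40560001c06014c056006e01580006c1004b815800b80a80001a0400fa056000060100310268000000800d0008035800200260008020583))) 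
(.lf (nat_lit 5436063912) (dlOf (nat_lit 2) (nat_lit 0x200c00004056000801d00040088000d02000380080014002001000080a2c03)))) 
(.nd (nat_lit 21) (.nd (nat_lit 22) 
(.lf (nat_lit 25411624) (dlOf (nat_lit 2) (nat_lit 0x2b2fc0007e0401c000400400008c00502))) 
(.lf (nat_lit 12828712) (dlOf (nat_lit 1) (nat_lit 0x80080004002000200086e0a03)))) 
(.lf (nat_lit 10731560) (dlOf (nat_lit 2) (nat_lit 0xc83f8000315e40005408000c00400020018620582))))) 
(.nd (nat_lit 21) (.nd (nat_lit 23) 
(.lf (nat_lit 537641000) (dlOf (nat_lit 1) (nat_lit 0x600080e0501))) 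
(.lf (nat_lit 9158696) (dlOf (nat_lit 1) (nat_lit 0x20018520a01)))) (.nd (nat_lit 9) 
(.lf (nat_lit 23838760) (dlOf (nat_lit 1) (nat_lit 0x400400020008b80002))) 
(.lf (nat_lit 8116776) (dlOf (nat_lit 1) (nat_lit 0x800800100020010000851b283))))))) 
(.nd (nat_lit 29) (.nd (nat_lit 31) (.nd (nat_lit 30) (.nd (nat_lit 7) (.nd (nat_lit 27) 
(.lf (nat_lit 4563648520) (dlOf (nat_lit 1) (nat_lit 0x10002000a00080b0002))) 
(.lf (nat_lit 4697866248) (dlOf (nat_lit 1) (nat_lit 0x10002000a00080b0002)))) 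
(.lf (nat_lit 474202504) (dlOf (nat_lit 1) (nat_lit 0x1b8004009000190e1002)))) (.nd (nat_lit 5) 
(.lf (nat_lit 1343995912) (dlOf (nat_lit 1) (nat_lit 0x200283a0581))) (.nd (nat_lit 19) 
(.lf (nat_lit 1343471656) (dlOf (nat_lit 1) (nat_lit 0x38008000800200060008260783))) 
(.lf (nat_lit 1410056232) (dlOf (nat_lit 1) (nat_lit 0x600080e0501)))))) (.nd (nat_lit 7) 
(.nd (nat_lit 8) (.nd (nat_lit 21) 
(.lf (nat_lit 3557539848) (dlOf (nat_lit 1) (nat_lit 0x2080018260001))) 
(.lf (nat_lit 3492528136) (dlOf (nat_lit 2) (nat_lit 0xf0f68001cc0800080080038002001000080d0483)))) 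
(.lf (nat_lit 3490955528) (dlOf (nat_lit 1) (nat_lit 0x20018047301)))) (.nd (nat_lit 5) 
(.lf (nat_lit 3493054600) (dlOf (nat_lit 1) (nat_lit 0x8800080f4801))) (.nd (nat_lit 8) 
(.lf (nat_lit 3557021352) (dlOf (nat_lit 1) (nat_lit 0x2001812a001))) 
(.lf (nat_lit 2483274152) (dlOf (nat_lit 1) (nat_lit 0x180028090781))))))) (.nd (nat_lit 7) 
(.nd (nat_lit 27) (.nd (nat_lit 5) (.nd (nat_lit 8) 
(.lf (nat_lit 2953035784) (dlOf (nat_lit 1) (nat_lit 0x600080c0281))) 
(.lf (nat_lit 5100522248) (dlOf (nat_lit 1) (nat_lit 0x2400180d5b01)))) 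
(.lf (nat_lit 2953035816) (dlOf (nat_lit 2) (nat_lit 0x400a0001380800180080004002000600080c0783)))) 
(.nd (nat_lit 5) (.nd (nat_lit 10) 
(.lf (nat_lit 939769864) (dlOf (nat_lit 3) (nat_lit 0xf00580047c08003002c001b004006400400060018170482))) 
(.lf (nat_lit 5234738184) (dlOf (nat_lit 1) (nat_lit 0x4002000200080d2882)))) 
(.lf (nat_lit 4228104232) (dlOf (nat_lit 12) (nat_lit 0xda04f006c026802080a8000440c02e809e017204d0021021004700a80004210028809e009e04d006a01500008018006813c0003e0401b409e00da04d005f01c802100a80003c1002d009e016a04d001901e004780e80270072010a02a0000e8600a10278042013401a40540001c06014c04f006e01500006c1004b813c00b809a0001a0400fa04f000060100310230000000800d0008035800200260008020583))))) 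
(.nd (nat_lit 26) (.nd (nat_lit 5) 
(.lf (nat_lit 805552520) (dlOf (nat_lit 5) (nat_lit 0x360350003481001200d80011008006806c0008004004c088008001b0001f828125c80))) 
(.lf (nat_lit 4161000360) (dlOf (nat_lit 1) (nat_lit 0x24004000400180a9102)))) (.nd (nat_lit 8) 
(.lf (nat_lit 1008976008) (dlOf (nat_lit 1) (nat_lit 0x4a0009000381))) (.nd (nat_lit 27) 
(.lf (nat_lit 872661384) (dlOf (nat_lit 1) (nat_lit 0x44002001a0008091002))) 
(.lf (nat_lit 2080620936) (dlOf (nat_lit 1) (nat_lit 0x400400020008091002))))))))) (.nd (nat_lit 8) 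
(.nd (nat_lit 30) (.nd (nat_lit 19) (.nd (nat_lit 5) (.nd (nat_lit 9) (.nd (nat_lit 27) 
(.lf (nat_lit 4563648584) (dlOf (nat_lit 2) (nat_lit 0xc2032005100a800f8048000660c009c004001400080b0602))) 
(.lf (nat_lit 4697866312) (dlOf (nat_lit 2) (nat_lit 0xc2032005100a800f8048000640c009c004001400080b0602)))) 
(.lf (nat_lit 23315016) (dlOf (nat_lit 1) (nat_lit 0x2b000201140008b81102)))) (.nd (nat_lit 7) 
(.lf (nat_lit 20173416) (dlOf (nat_lit 1) (nat_lit 0x4002000200089d8982))) 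
(.lf (nat_lit 3391720) (dlOf (nat_lit 1) (nat_lit 0x100018200481))))) (.nd (nat_lit 5) 
(.nd (nat_lit 7) (.nd (nat_lit 10) 
(.lf (nat_lit 9158728) (dlOf (nat_lit 1) (nat_lit 0x20028521681))) 
(.lf (nat_lit 8111176) (dlOf (nat_lit 1) (nat_lit 0x400400020008512882)))) 
(.lf (nat_lit 20696776) (dlOf (nat_lit 1) (nat_lit 0x18008000c002000a00089d7303)))) 
(.nd (nat_lit 7) (.lf (nat_lit 35374184) (dlOf (nat_lit 1) (nat_lit 0x800400020019012982))) 
(.lf (nat_lit 2752235240) (dlOf (nat_lit 1) (nat_lit 0x20028003b01)))))) (.nd (nat_lit 26) 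
(.nd (nat_lit 5) (.nd (nat_lit 9) 
(.lf (nat_lit 5773181000) (dlOf (nat_lit 2) (nat_lit 0x2681be0000002000600280b0601))) 
(.nd (nat_lit 10) 
(.lf (nat_lit 4026778184) (dlOf (nat_lit 2) (nat_lit 0x8c03c000000200020028091101))) 
(.lf (nat_lit 1610860104) (dlOf (nat_lit 1) (nat_lit 0xc0028093801))))) (.nd (nat_lit 10) 
(.lf (nat_lit 3490955496) (dlOf (nat_lit 1) (nat_lit 0x34800400d00008046b82))) 
(.lf (nat_lit 5772133608) (dlOf (nat_lit 2) (nat_lit 0xe14600000018092e00))))) (.nd (nat_lit 5) 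
(.nd (nat_lit 9) 
(.lf (nat_lit 6377160776) (dlOf (nat_lit 2) (nat_lit 0x2681b20000002000600280b0601))) 
(.nd (nat_lit 29) 
(.lf (nat_lit 3288580680) (dlOf (nat_lit 2) (nat_lit 0x8c03c000000200020028091101))) 
(.lf (nat_lit 1677967944) (dlOf (nat_lit 5) (nat_lit 0xa40288001812c000480801440a2007203a0001002007002880007c0802581440003a04005000200c00008128d02))))) 
(.nd (nat_lit 10) (.lf (nat_lit 6376112360) (dlOf (nat_lit 2) (nat_lit 0x11010d0005e818090a80))) 
(.lf (nat_lit 5704500456) (dlOf (nat_lit 1) (nat_lit 0x4002000200080d2e02))))))) (.nd (nat_lit 7) 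
(.nd (nat_lit 5) (.nd (nat_lit 9) (.nd (nat_lit 20) 
(.lf (nat_lit 3758342472) (dlOf (nat_lit 1) (nat_lit 0x400200020008130782))) 
(.lf (nat_lit 11780424) (dlOf (nat_lit 2) (nat_lit 0x1d48c0008e040014004001200086c0602)))) 
(.lf (nat_lit 4899195720) (dlOf (nat_lit 1) (nat_lit 0x4002000200080d5c02)))) (.nd (nat_lit 26) 
(.nd (nat_lit 21) (.nd (nat_lit 27) 
(.lf (nat_lit 1879294312) (dlOf (nat_lit 1) (nat_lit 0x2000080c0701))) 
(.lf (nat_lit 671334760) (dlOf (nat_lit 3) (nat_lit 0x1804600a5b0200e80250068011004380700148a0c018800400040018155202)))) 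
(.lf (nat_lit 2343272) (dlOf (nat_lit 2) (nat_lit 0x56c1d8000c40800a00080040002000a0008150703)))) 
(.nd (nat_lit 12) (.lf (nat_lit 1006879080) (dlOf (nat_lit 1) (nat_lit 0x2000080c0701))) 
(.lf (nat_lit 67883368) (dlOf (nat_lit 1) (nat_lit 0x60028338381)))))) (.nd (nat_lit 9) 
(.nd (nat_lit 5) (.nd (nat_lit 10) (.nd (nat_lit 12) 
(.lf (nat_lit 5772132808) (dlOf (nat_lit 8) (nat_lit 0x4094000d8478004823a00020000000b84000808f00005808004047800180000001104001011e0000801000808f0000100800404780000404000c23c001210900060000000001800300080024002000a0008091103))) 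
(.lf (nat_lit 8114632) (dlOf (nat_lit 1) (nat_lit 0x1a0028518681)))) 
(.lf (nat_lit 8117704) (dlOf (nat_lit 1) (nat_lit 0x880080024002001c000851cd03)))) 
(.nd (nat_lit 28) (.nd (nat_lit 11) 
(.lf (nat_lit 23314920) (dlOf (nat_lit 1) (nat_lit 0x760002020c0008b80c82))) 
(.lf (nat_lit 4496542184) (dlOf (nat_lit 1) (nat_lit 0x4004000200080e4e82)))) (.nd (nat_lit 10) 
(.lf (nat_lit 1543750120) (dlOf (nat_lit 1) (nat_lit 0xe40008157301))) 
(.lf (nat_lit 6375589352) (dlOf (nat_lit 1) (nat_lit 0x8008000400200020008003603)))))) 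
(.nd (nat_lit 11) (.nd (nat_lit 10) (.nd (nat_lit 19) 
(.lf (nat_lit 2751710184) (dlOf (nat_lit 1) (nat_lit 0x800200020008002882))) 
(.lf (nat_lit 50054120) (dlOf (nat_lit 1) (nat_lit 0xe00294c2881)))) 
(.lf (nat_lit 3493054440) (dlOf (nat_lit 1) (nat_lit 0x1800080f4601)))) (.nd (nat_lit 26) 
(.lf (nat_lit 268684264) (dlOf (nat_lit 2) (nat_lit 0xa0150000000800780080098002000400080e5e83))) 
(.lf (nat_lit 4496542696) (dlOf (nat_lit 2) (nat_lit 0x60190000000800480080050002001400080e5e83))))))))) 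
(.nd (nat_lit 5) (.nd (nat_lit 6) (.nd (nat_lit 28) (.nd (nat_lit 21) (.nd (nat_lit 29) 
(.nd (nat_lit 23) (.nd (nat_lit 7) (.nd (nat_lit 9) 
(.lf (nat_lit 18333704) (dlOf (nat_lit 1) (nat_lit 0x2c00400020018920002))) 
(.lf (nat_lit 50840072) (dlOf (nat_lit 6) (nat_lit 0x539d0004b4080049ce800204040018e740010102002874400193a18000f4100041d100024e860003c04000400194d8001)))) 
(.lf (nat_lit 3221733512) (dlOf (nat_lit 2) (nat_lit 0x800000000018170100)))) (.nd (nat_lit 7) 
(.nd (nat_lit 22) (.lf (nat_lit 42450952) (dlOf (nat_lit 1) (nat_lit 0x160029250001))) 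
(.lf (nat_lit 13090824) (dlOf (nat_lit 2) (nat_lit 0xd312805aec080048008003c002000600086f0003)))) 
(.lf (nat_lit 8896904) (dlOf (nat_lit 1) (nat_lit 0x50008002c002000e0008511003))))) 
(.nd (nat_lit 26) (.nd (nat_lit 7) (.nd (nat_lit 27) 
(.lf (nat_lit 1611120648) (dlOf (nat_lit 1) (nat_lit 0x28004001e00180e0002))) 
(.lf (nat_lit 2819080200) (dlOf (nat_lit 8) (nat_lit 0x9804200320010054039000b01a8007c0bc000804b0d11021000280fc086c06c00be0340019016000380a801180440063f1600100420031c81016e0210018cc0802f81c8006407e006280400020340030e8100160390016e40803c00080020002018c0008190283)))) 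
(.lf (nat_lit 537378952) (dlOf (nat_lit 1) (nat_lit 0x20028090101)))) (.nd (nat_lit 7) 
(.nd (nat_lit 22) (.lf (nat_lit 738705416) (dlOf (nat_lit 1) (nat_lit 0x28004001e00180e0002))) 
(.lf (nat_lit 2756165640) (dlOf (nat_lit 1) (nat_lit 0x20008000800200040008210803)))) 
(.lf (nat_lit 3959931016) (dlOf (nat_lit 2) (nat_lit 0x800000000018170100)))))) (.nd (nat_lit 8) 
(.nd (nat_lit 24) (.nd (nat_lit 26) 
(.lf (nat_lit 2605064) (dlOf (nat_lit 7) (nat_lit 0xc3a201bb20200021d100dd88100030e48003071000142ee00e8506000a1c900090e2000305dc01d080c00083aa00081c900040e2000405dc01d061000083aa00041c900050e2000405dc01d0010000400200020008170002))) 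
(.lf (nat_lit 69713928) (dlOf (nat_lit 1) (nat_lit 0x400400020008bd0002)))) (.nd (nat_lit 7) 
(.lf (nat_lit 19382280) (dlOf (nat_lit 2) (nat_lit 0x6289000580080008008001000200040008990583))) 
(.lf (nat_lit 23576712) (dlOf (nat_lit 1) (nat_lit 0x8008000c00200020008b80103))))) 
(.nd (nat_lit 7) (.nd (nat_lit 9) 
(.lf (nat_lit 8377608) (dlOf (nat_lit 1) (nat_lit 0x40008002800200040008519603))) 
(.lf (nat_lit 19907336) (dlOf (nat_lit 1) (nat_lit 0x4002000200089d2102)))) 
(.lf (nat_lit 8372616) (dlOf (nat_lit 1) (nat_lit 0x20008511001)))))) (.nd (nat_lit 26) 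
(.nd (nat_lit 31) (.nd (nat_lit 8) (.nd (nat_lit 10) 
(.lf (nat_lit 5637652488) (dlOf (nat_lit 1) (nat_lit 0xa0018140001))) 
(.lf (nat_lit 1344783368) (dlOf (nat_lit 1) (nat_lit 0x50004000a0008982882)))) 
(.lf (nat_lit 1345831176) (dlOf (nat_lit 1) (nat_lit 0x400400020008e03a02)))) (.nd (nat_lit 22) 
(.nd (nat_lit 27) 
(.lf (nat_lit 2416427016) (dlOf (nat_lit 5) (nat_lit 0xc0240008011000800780020034010ca100018024000c011000900780018034010c81000200240010011000900780048034010c61000200240010011000600780048034010c0100034004000a00081d0002))) 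
(.lf (nat_lit 2550644744) (dlOf (nat_lit 5) (nat_lit 0xc024000801100080078002003401d0a100018024000c01100090078001803401d08100020024001001100090078004803401d06100020024001001100060078004803401d00100034004000a00081d0002)))) 
(.lf (nat_lit 3494363144) (dlOf (nat_lit 1) (nat_lit 0x20008000800200040008210803))))) 
(.nd (nat_lit 20) (.nd (nat_lit 7) (.nd (nat_lit 8) 
(.lf (nat_lit 6241632264) (dlOf (nat_lit 1) (nat_lit 0xa0018140001))) 
(.lf (nat_lit 470270216) (dlOf (nat_lit 3) (nat_lit 0x388898000fc04008444c0007902000c00080c0481)))) 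
(.lf (nat_lit 1409794184) (dlOf (nat_lit 1) (nat_lit 0x20028090101)))) (.nd (nat_lit 10) 
(.lf (nat_lit 4095197192) (dlOf (nat_lit 1) (nat_lit 0x8008000400200020008070003))) 
(.lf (nat_lit 473416712) (dlOf (nat_lit 1) (nat_lit 0x1400400040018f52882))))))) (.nd (nat_lit 8) 
(.nd (nat_lit 28) (.nd (nat_lit 19) (.nd (nat_lit 10) (.nd (nat_lit 20) 
(.lf (nat_lit 21479496) (dlOf (nat_lit 2) (nat_lit 0x190748001f00800b0008003000200180008a40483))) 
(.lf (nat_lit 3653704) (dlOf (nat_lit 4) (nat_lit 0x14000000190100310000000c00800380000005604004800200260008210e02)))) 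
(.lf (nat_lit 43500616) (dlOf (nat_lit 1) (nat_lit 0x4004000200092a2882)))) (.nd (nat_lit 20) 
(.lf (nat_lit 68141128) (dlOf (nat_lit 1) (nat_lit 0x40028400681))) 
(.lf (nat_lit 44023880) (dlOf (nat_lit 1) (nat_lit 0x200192b1681))))) (.nd (nat_lit 9) 
(.nd (nat_lit 10) (.nd (nat_lit 22) 
(.lf (nat_lit 805814344) (dlOf (nat_lit 4) (nat_lit 0xa40278007812c00c00000003206002604b000a0000000c0100080000000560402f4004002000081b0e02))) 
(.lf (nat_lit 3494363208) (dlOf (nat_lit 1) (nat_lit 0x1380018211881)))) 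
(.lf (nat_lit 3492791368) (dlOf (nat_lit 1) (nat_lit 0x200280f2881)))) (.nd (nat_lit 26) 
(.lf (nat_lit 1342685768) (dlOf (nat_lit 32) (nat_lit 0x800a000560206cc237000288101fe11b80014008119891c03dc478021e237018b0b980013c2007d891c010c47803fe237019a0b980013820037091c052046e0004d04041224700d211b80a505cc000980c063048e003023c018011b80cd05cc00096100d7c12801e4091012b0408078800c00090100d7412801e409101290408007000c0008e100644128001a0810002282035704a006f0244050c10201e80030002204035604a00050240050c10200040020002184003e11b81a58250000c122026c081000210401e2123804508f002e046e067409401070408001002819f025004a81020003e04022424700d111b802988bc005812800a6093004d0408000f03002408dc00381020003b0406842370001d01020211b8000e408103091c036447801cc23700910b981b00250051c122026008101090018000e040035091c085c46e000370401622470014121802408dc06642e60003608048e24700eb11e008708dc033c2e6000350802b22470030121808388f002ec46e02861730001a0500ac123800a090c02b4478010c237010c0b98000cc280148898000620401b048e000170200be24700e511b801105cc000260c016c46e0000602013024700ab11b8000001002a800804cc002035000080c1103)))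 
(.lf (nat_lit 470270536) (dlOf (nat_lit 32) (nat_lit 0x8008000560206cc237000288101fe11b80014008119891c03dc478021e237018b0b880013c2007d891c010c47803fe237019a0b880013820037091c052046e0004d04041224700d211b80a505c4000980c063048e003023c018011b80cd05c400096100d7c12801e4091012b0408078801c00090100d7412801e409101290408007001c0008e100644128001a0810002282035704a006f0244050c10201e80070002204035604a00050240050c10200040020002184003e11b81a58250000c122026c081000210401e2123804508f002e046e067409401070408001002819f025004a81020003e04022424700d111b802988bc005812800a6093004d0408000f03002408dc00381020003b0406842370001d01020211b8000e408103091c036447801cc23700910b881b00250051c122026008101090038000e040035091c085c46e000370401622470014121802408dc06642e20003608048e24700eb11e008708dc033c2e2000350802b22470030121808388f002ec46e02861710001a0500ac123800a090c02b4478010c237010c0b88000cc280148898000620401b048e000170200be24700e511b801105c4000260c016c46e0000602013024700ab11b8000001002a800804cc002035000080c1103))))))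 
(.nd (nat_lit 7) (.nd (nat_lit 21) (.nd (nat_lit 20) 
(.lf (nat_lit 25674056) (dlOf (nat_lit 1) (nat_lit 0xa0028c10781))) 
(.lf (nat_lit 1556808) (dlOf (nat_lit 1) (nat_lit 0x80080004002000200080f7f03)))) (.nd (nat_lit 9) 
(.lf (nat_lit 23576904) (dlOf (nat_lit 1) (nat_lit 0x1c00400060018b80602))) 
(.lf (nat_lit 19909448) (dlOf (nat_lit 1) (nat_lit 0x4002000200089d5c02))))) (.nd (nat_lit 9) 
(.lf (nat_lit 57133512) (dlOf (nat_lit 1) (nat_lit 0x60029794e81))) (.nd (nat_lit 19) 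
(.lf (nat_lit 40354760) (dlOf (nat_lit 1) (nat_lit 0x10002000c00091f2882))) 
(.lf (nat_lit 3492791240) (dlOf (nat_lit 1) (nat_lit 0x4004000200080f2882)))))))) (.nd (nat_lit 28) 
(.nd (nat_lit 19) (.nd (nat_lit 20) (.nd (nat_lit 29) (.nd (nat_lit 23) (.nd (nat_lit 9) 
(.lf (nat_lit 134725672) (dlOf (nat_lit 3) (nat_lit 0x4086002c03f006f602003d0208037a40800480080008002001e0008090003))) 
(.lf (nat_lit 50840104) (dlOf (nat_lit 1) (nat_lit 0x120008003c002003e00094d8883)))) 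
(.nd (nat_lit 6) 
(.lf (nat_lit 13090856) (dlOf (nat_lit 5) (nat_lit 0x1cc200000e02000e61000072dc8000341000218fc001cc500016610000b2dc8000302000498fc0014c50001061000082dc80002c2000400080008002000e00086f0a03))) 
(.lf (nat_lit 61326568) (dlOf (nat_lit 4) (nat_lit 0x54b20006a290002302000951480011408001a964000700400f8004002e0009922e02))))) 
(.nd (nat_lit 6) (.nd (nat_lit 7) 
(.lf (nat_lit 1678229544) (dlOf (nat_lit 2) (nat_lit 0x815802d760401ac004002a00081b0902))) 
(.lf (nat_lit 3892822184) (dlOf (nat_lit 2) (nat_lit 0x4401900273018280480)))) 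
(.lf (nat_lit 1678229608) (dlOf (nat_lit 3) (nat_lit 0xb805600200298010804c000200c017c0ac003c053002c0098000381803d00080088002006400081b1403))))) 
(.nd (nat_lit 6) (.nd (nat_lit 21) 
(.lf (nat_lit 9945128) (dlOf (nat_lit 1) (nat_lit 0x400200020008590982))) (.nd (nat_lit 22) 
(.nd (nat_lit 25) (.lf (nat_lit 3653672) (dlOf (nat_lit 1) (nat_lit 0x200008210901))) 
(.lf (nat_lit 37208104) (dlOf (nat_lit 1) (nat_lit 0x400290c0801)))) 
(.lf (nat_lit 24625192) (dlOf (nat_lit 1) (nat_lit 0x8008000400200020008ba0a03))))) 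
(.nd (nat_lit 7) (.lf (nat_lit 33014888) (dlOf (nat_lit 1) (nat_lit 0x400400020008f52982))) 
(.lf (nat_lit 1556712) (dlOf (nat_lit 1) (nat_lit 0x5a00180f6b81)))))) (.nd (nat_lit 7) 
(.nd (nat_lit 20) (.nd (nat_lit 6) (.nd (nat_lit 22) 
(.lf (nat_lit 17809448) (dlOf (nat_lit 1) (nat_lit 0x3000088f0d81))) 
(.lf (nat_lit 22003752) (dlOf (nat_lit 1) (nat_lit 0x800200060008a90582)))) 
(.lf (nat_lit 2752495976) (dlOf (nat_lit 1) (nat_lit 0x30008000400200040008015203)))) 
(.nd (nat_lit 6) (.nd (nat_lit 8) 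
(.lf (nat_lit 25149480) (dlOf (nat_lit 1) (nat_lit 0x20018be0c01))) 
(.lf (nat_lit 54512424) (dlOf (nat_lit 1) (nat_lit 0x18008000c00200060009655c03)))) 
(.lf (nat_lit 54512232) (dlOf (nat_lit 2) (nat_lit 0xde3e10001d819655380))))) (.nd (nat_lit 6) 
(.nd (nat_lit 8) (.nd (nat_lit 9) 
(.lf (nat_lit 51365032) (dlOf (nat_lit 1) (nat_lit 0x20029512c01))) 
(.lf (nat_lit 8377000) (dlOf (nat_lit 1) (nat_lit 0x400200020008518c82)))) (.nd (nat_lit 9) 
(.lf (nat_lit 58706344) (dlOf (nat_lit 1) (nat_lit 0x200197e4e81))) 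
(.lf (nat_lit 19913640) (dlOf (nat_lit 1) (nat_lit 0x200089dbd01))))) (.nd (nat_lit 8) 
(.lf (nat_lit 19906792) (dlOf (nat_lit 1) (nat_lit 0x8f0008000400200a200089d0a83))) 
(.nd (nat_lit 10) (.lf (nat_lit 51366376) (dlOf (nat_lit 1) (nat_lit 0x400400020019514e82))) 
(.lf (nat_lit 61851112) (dlOf (nat_lit 7) (nat_lit 0x99c60022502000ace30010581000267180081c08006b3b400219d8001b2040014ced00086760006b410000b8540000204001400400020019923602)))))))) 
(.nd (nat_lit 26) (.nd (nat_lit 31) (.nd (nat_lit 8) (.nd (nat_lit 9) (.nd (nat_lit 20) 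
(.lf (nat_lit 805814312) (dlOf (nat_lit 2) (nat_lit 0x815802a920401ac004002a00081b0902))) 
(.lf (nat_lit 1343733800) (dlOf (nat_lit 2) (nat_lit 0x3b0ad0001ec080018008006000200180008350783)))) 
(.lf (nat_lit 1342685736) (dlOf (nat_lit 1) (nat_lit 0x4004000200080c0e02)))) (.nd (nat_lit 6) 
(.lf (nat_lit 5772395816) (dlOf (nat_lit 1) (nat_lit 0x400200020008093182))) 
(.lf (nat_lit 1342685672) (dlOf (nat_lit 4) (nat_lit 0x20940001781003604a0000b008011025000056040008002002800080c0c82))))) 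
(.nd (nat_lit 27) (.nd (nat_lit 9) 
(.lf (nat_lit 2416427048) (dlOf (nat_lit 3) (nat_lit 0x100240008011000d0080003003c001801a00d520a000201200040088000803c001801a00d5108000800281d0a01))) 
(.lf (nat_lit 3492796968) (dlOf (nat_lit 1) (nat_lit 0x4004000200080fb282)))) (.nd (nat_lit 6) 
(.lf (nat_lit 2550644776) (dlOf (nat_lit 3) (nat_lit 0x100240008011000d0080003003c001801a007d70a000201200040088000803c001801a007d608000800281d0a01))) 
(.lf (nat_lit 3624386792) (dlOf (nat_lit 2) (nat_lit 0x1a03e00233818186b80)))))) (.nd (nat_lit 7) 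
(.nd (nat_lit 20) (.nd (nat_lit 9) 
(.lf (nat_lit 3557277736) (dlOf (nat_lit 3) (nat_lit 0x4045005e28100be022802f100801a8008008c00200720008190703))) 
(.lf (nat_lit 470270504) (dlOf (nat_lit 1) (nat_lit 0x4004000200080c0e02)))) (.nd (nat_lit 19) 
(.lf (nat_lit 4095197224) (dlOf (nat_lit 1) (nat_lit 0x40018070381))) 
(.lf (nat_lit 473940008) (dlOf (nat_lit 15) (nat_lit 0x45b0560003427a11660cf094704b04a4020c09e80e6000290c098e15804c70678304825815bc1060002808116815808b406784aa8258255c10604e4073000e00e00009c30013025800941060002004013c096009704180007c100070560003819e0020096000d041800074200c5025805101060001a04030a09601520418000501000902580038106000130400100830000901000704b000044080010258016c1060001004005415800200678012825800e41060000e08008a158000204b000034100b18008037c00204300008fc0203))))) 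
(.nd (nat_lit 6) (.nd (nat_lit 11) 
(.lf (nat_lit 470270376) (dlOf (nat_lit 1) (nat_lit 0x80080008002000400080c0783))) 
(.lf (nat_lit 472369576) (dlOf (nat_lit 1) (nat_lit 0x1c00400060008984e82)))) (.nd (nat_lit 10) 
(.lf (nat_lit 470270440) (dlOf (nat_lit 4) (nat_lit 0x20940001901003604a0000bc0801102500005c040008002002800080c0c82))) 
(.lf (nat_lit 6375851496) (dlOf (nat_lit 1) (nat_lit 0x1680028003601))))))))))))

end

end Pool.Agent.Lib.MP_5854e1_co.Cz

namespace Pool.Agent.Lib.MP_5854e1_co.Cz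

noncomputable section

noncomputable def tz89 : DT := (.nd (nat_lit 16) (.nd (nat_lit 3) (.nd (nat_lit 6) (.nd (nat_lit 5) 
(.nd (nat_lit 18) (.nd (nat_lit 19) (.nd (nat_lit 7) (.nd (nat_lit 29) (.nd (nat_lit 20) 
(.nd (nat_lit 9) (.nd (nat_lit 22) 
(.lf (nat_lit 67289089) (dlOf (nat_lit 1) (nat_lit 0xc00180a0001))) 
(.lf (nat_lit 12763137) (dlOf (nat_lit 8) (nat_lit 0x6a4a01bab0200055250003a8f006ea810003549403750040012a4a01ba602000752500d95010004a92806ca40800254940364e04002c004001400086e0002)))) 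
(.lf (nat_lit 4362256897) (dlOf (nat_lit 1) (nat_lit 0x8002002e0008017f02)))) (.nd (nat_lit 8) 
(.lf (nat_lit 11714561) (dlOf (nat_lit 1) (nat_lit 0xe00286c0001))) 
(.lf (nat_lit 28492033) (dlOf (nat_lit 1) (nat_lit 0x20018da0701))))) (.nd (nat_lit 10) 
(.nd (nat_lit 26) (.nd (nat_lit 27) 
(.lf (nat_lit 1879228417) (dlOf (nat_lit 1) (nat_lit 0x100080008002000200080b0003))) 
(.lf (nat_lit 5234671617) (dlOf (nat_lit 1) (nat_lit 0xc00400040008080002)))) 
(.lf (nat_lit 1006813185) (dlOf (nat_lit 1) (nat_lit 0x100080008002000200080b0003)))) 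
(.nd (nat_lit 8) 
(.lf (nat_lit 1610793985) (dlOf (nat_lit 1) (nat_lit 0x40008000400200020008092883))) 
(.lf (nat_lit 872596737) (dlOf (nat_lit 1) (nat_lit 0x400200020008092f02)))))) (.nd (nat_lit 8) 
(.nd (nat_lit 31) (.nd (nat_lit 9) (.nd (nat_lit 20) 
(.lf (nat_lit 1275248769) (dlOf (nat_lit 1) (nat_lit 0x4004000200080c0d82))) 
(.lf (nat_lit 9617537) (dlOf (nat_lit 1) (nat_lit 0x40028570d81)))) 
(.lf (nat_lit 43173505) (dlOf (nat_lit 3) (nat_lit 0x32a48002551d0023a89800bd25c000ac100032a48002751d0024a89800c525c00026100064002001000092a3982)))) 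
(.nd (nat_lit 11) (.nd (nat_lit 27) 
(.lf (nat_lit 2147664001) (dlOf (nat_lit 1) (nat_lit 0x4004000200080c0d82))) 
(.lf (nat_lit 2818752641) (dlOf (nat_lit 1) (nat_lit 0x800200040008113a02)))) 
(.lf (nat_lit 3758282881) (dlOf (nat_lit 3) (nat_lit 0x2ec078000203b006101a800100c000200540012023002400900295c3806080f0015c06a001402a000e011802958200248008008000200b8000812a883))))) 
(.nd (nat_lit 9) (.nd (nat_lit 10) 
(.lf (nat_lit 11714945) (dlOf (nat_lit 1) (nat_lit 0x400286c0781))) 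
(.lf (nat_lit 3758282113) (dlOf (nat_lit 2) (nat_lit 0x1800e400bc05c001c02700518838129900)))) 
(.nd (nat_lit 10) (.lf (nat_lit 2684539777) (dlOf (nat_lit 1) (nat_lit 0x200080a9001))) 
(.nd (nat_lit 11) (.lf (nat_lit 3892500353) (dlOf (nat_lit 1) (nat_lit 0x8001815a301))) 
(.lf (nat_lit 3758280577) (dlOf (nat_lit 2) (nat_lit 0x1203500521018127780)))))))) 
(.nd (nat_lit 20) (.nd (nat_lit 27) (.nd (nat_lit 8) (.nd (nat_lit 10) (.nd (nat_lit 21) 
(.lf (nat_lit 59424769) (dlOf (nat_lit 1) (nat_lit 0xe80080064002001a00097f0003))) 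
(.lf (nat_lit 11190273) (dlOf (nat_lit 1) (nat_lit 0x20018670001)))) 
(.lf (nat_lit 69911553) (dlOf (nat_lit 1) (nat_lit 0x40008008c00200320008e12883)))) 
(.nd (nat_lit 9) (.lf (nat_lit 46842113) (dlOf (nat_lit 1) (nat_lit 0x800400660009380a82))) 
(.lf (nat_lit 707329) (dlOf (nat_lit 1) (nat_lit 0x18008000400200080008005a83))))) 
(.nd (nat_lit 26) (.nd (nat_lit 28) 
(.lf (nat_lit 134922241) (dlOf (nat_lit 2) (nat_lit 0x6401d801c540800a0008003c00200ac00080e0003))) 
(.lf (nat_lit 5772066817) (dlOf (nat_lit 5) (nat_lit 0x2808c0030040001a018004328300030130005008c003404000100180043204000d0130006808c002404000160180043184000501400020098001c0460018020000b00c002180280010008004c00200080008060003)))) 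
(.nd (nat_lit 28) 
(.lf (nat_lit 202031105) (dlOf (nat_lit 2) (nat_lit 0x6401d8032fc0800a0008003c00200ac00080e0003))) 
(.lf (nat_lit 6376046593) (dlOf (nat_lit 5) (nat_lit 0x2808c0030040001a018007428300030130005008c003404000100180074204000d0130006808c002404000160180074184000501400020098001c0460018020000b00c003a00280010008004c00200080008060003)))))) 
(.nd (nat_lit 8) (.nd (nat_lit 9) (.nd (nat_lit 22) 
(.lf (nat_lit 4095393793) (dlOf (nat_lit 1) (nat_lit 0xc80080004002001600080a0003))) 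
(.lf (nat_lit 31113217) (dlOf (nat_lit 1) (nat_lit 0x60028e70001)))) 
(.lf (nat_lit 8049153) (dlOf (nat_lit 1) (nat_lit 0x8008000400200040008518683)))) (.nd (nat_lit 7) 
(.nd (nat_lit 9) 
(.lf (nat_lit 8045825) (dlOf (nat_lit 2) (nat_lit 0x725080001604000400200020008512f02))) 
(.lf (nat_lit 8045313) (dlOf (nat_lit 1) (nat_lit 0x20008000800200060008512103)))) (.nd (nat_lit 9) 
(.lf (nat_lit 2753216897) (dlOf (nat_lit 6) (nat_lit 0x281f80065b8100140fc0032d40800a07e00196804000c3f000cb10200261f700615818090780))) 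
(.lf (nat_lit 8050561) (dlOf (nat_lit 1) (nat_lit 0x40020002000851a302)))))))) (.nd (nat_lit 26) 
(.nd (nat_lit 20) (.nd (nat_lit 30) (.nd (nat_lit 7) (.nd (nat_lit 25) 
(.lf (nat_lit 2819014657) (dlOf (nat_lit 1) (nat_lit 0x188008004800200260008150003))) 
(.lf (nat_lit 33996801) (dlOf (nat_lit 1) (nat_lit 0x80018f90001)))) 
(.lf (nat_lit 19847553) (dlOf (nat_lit 1) (nat_lit 0x200289daf81)))) (.nd (nat_lit 8) 
(.nd (nat_lit 22) (.lf (nat_lit 5906022401) (dlOf (nat_lit 1) (nat_lit 0x400200320008180002))) 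
(.lf (nat_lit 3494297601) (dlOf (nat_lit 2) (nat_lit 0x3028800101140181c080044004001200181f0002)))) 
(.lf (nat_lit 1345243905) (dlOf (nat_lit 1) (nat_lit 0x80018b05a81))))) (.nd (nat_lit 21) 
(.nd (nat_lit 23) (.nd (nat_lit 7) 
(.lf (nat_lit 18268161) (dlOf (nat_lit 1) (nat_lit 0x40028920001))) 
(.lf (nat_lit 5773377665) (dlOf (nat_lit 1) (nat_lit 0x200180c0d81)))) (.nd (nat_lit 24) 
(.lf (nat_lit 9879553) (dlOf (nat_lit 2) (nat_lit 0x24c200e8f818590000))) 
(.lf (nat_lit 26656769) (dlOf (nat_lit 1) (nat_lit 0x8008000400200020008c50003))))) 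
(.nd (nat_lit 7) (.nd (nat_lit 8) 
(.lf (nat_lit 37142529) (dlOf (nat_lit 1) (nat_lit 0x200190a0001))) 
(.lf (nat_lit 1345768193) (dlOf (nat_lit 1) (nat_lit 0x100008dd5a81)))) (.nd (nat_lit 8) 
(.lf (nat_lit 11976833) (dlOf (nat_lit 1) (nat_lit 0x80080004002000200086c0103))) 
(.lf (nat_lit 62310785) (dlOf (nat_lit 1) (nat_lit 0x100080004002000200099a4e83))))))) 
(.nd (nat_lit 7) (.nd (nat_lit 28) (.nd (nat_lit 22) (.nd (nat_lit 31) 
(.lf (nat_lit 4362518529) (dlOf (nat_lit 1) (nat_lit 0x490008000c00200c00008090003))) 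
(.lf (nat_lit 6510002177) (dlOf (nat_lit 1) (nat_lit 0x400200320008180002)))) 
(.lf (nat_lit 2756100097) (dlOf (nat_lit 2) (nat_lit 0x30288001011400cf2080044004001200181f0002)))) 
(.nd (nat_lit 27) (.lf (nat_lit 3557212161) (dlOf (nat_lit 1) (nat_lit 0x4004002e0018170002))) 
(.lf (nat_lit 4228300801) (dlOf (nat_lit 1) (nat_lit 0x490008000c00200c00008090003))))) 
(.nd (nat_lit 27) (.nd (nat_lit 29) 
(.lf (nat_lit 4362518913) (dlOf (nat_lit 2) (nat_lit 0x10047004b016803af01000780080140002002e0008090783))) 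
(.lf (nat_lit 1678164353) (dlOf (nat_lit 12) (nat_lit 0x2c0210032e40800801080196e04017008400cb50200340420065a01002b0210032cc0800f0108019620400a408400cab0200320420065481002a0210032a00801381080194c0400a808400ca502000200181a0781)))) 
(.nd (nat_lit 8) (.lf (nat_lit 6377357441) (dlOf (nat_lit 1) (nat_lit 0x200180c0d81))) 
(.nd (nat_lit 11) 
(.lf (nat_lit 3959865729) (dlOf (nat_lit 1) (nat_lit 0x28008000800200040008170783))) 
(.lf (nat_lit 474401153) (dlOf (nat_lit 1) (nat_lit 0x20029164e81))))))))) (.nd (nat_lit 19) 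
(.nd (nat_lit 30) (.nd (nat_lit 18) (.nd (nat_lit 12) (.nd (nat_lit 7) (.nd (nat_lit 22) 
(.lf (nat_lit 5234671649) (dlOf (nat_lit 2) (nat_lit 0x203200022818080180))) 
(.lf (nat_lit 21151777) (dlOf (nat_lit 2) (nat_lit 0x415c00020ac0000d41000d80080050002003a0008a10583)))) 
(.lf (nat_lit 4496474273) (dlOf (nat_lit 1) (nat_lit 0x8008000400200020008081383)))) 
(.nd (nat_lit 8) (.lf (nat_lit 186401) (dlOf (nat_lit 1) (nat_lit 0x80020004000800a602))) 
(.nd (nat_lit 26) (.lf (nat_lit 2281887009) (dlOf (nat_lit 1) (nat_lit 0x200080a9781))) 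
(.lf (nat_lit 2214778145) (dlOf (nat_lit 1) (nat_lit 0x400180a9781)))))) (.nd (nat_lit 21) 
(.nd (nat_lit 20) (.nd (nat_lit 26) 
(.lf (nat_lit 2819014689) (dlOf (nat_lit 1) (nat_lit 0xf0008002400200020008150183))) 
(.lf (nat_lit 1007075361) (dlOf (nat_lit 1) (nat_lit 0x1c00400020008170182)))) 
(.lf (nat_lit 26656801) (dlOf (nat_lit 1) (nat_lit 0x400200120008c50182)))) (.nd (nat_lit 24) 
(.lf (nat_lit 2754002977) (dlOf (nat_lit 2) (nat_lit 0x4069000000180b0a00))) 
(.lf (nat_lit 19316769) (dlOf (nat_lit 1) (nat_lit 0x58008001400200460008980c83)))))) 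
(.nd (nat_lit 27) (.nd (nat_lit 18) (.nd (nat_lit 7) (.nd (nat_lit 11) 
(.lf (nat_lit 5368889377) (dlOf (nat_lit 1) (nat_lit 0x8008000400200040008080483))) 
(.lf (nat_lit 1677903905) (dlOf (nat_lit 1) (nat_lit 0x80018114701)))) 
(.lf (nat_lit 3491938721) (dlOf (nat_lit 2) (nat_lit 0x486f400e860400a800200160008090782)))) 
(.nd (nat_lit 8) (.nd (nat_lit 21) 
(.lf (nat_lit 1346813985) (dlOf (nat_lit 3) (nat_lit 0x427200120cd0002b0200420ab0041850c001812c000550600040019020181))) 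
(.lf (nat_lit 3492200481) (dlOf (nat_lit 2) (nat_lit 0x4069000000180b0a00)))) 
(.lf (nat_lit 3493249313) (dlOf (nat_lit 2) (nat_lit 0x100700005004000400400040018104282))))) 
(.nd (nat_lit 8) (.nd (nat_lit 9) 
(.lf (nat_lit 5503107105) (dlOf (nat_lit 1) (nat_lit 0x8008000400200040008080483))) 
(.nd (nat_lit 29) 
(.lf (nat_lit 3422732833) (dlOf (nat_lit 1) (nat_lit 0x80080004002000200080a1483))) 
(.lf (nat_lit 1812120097) (dlOf (nat_lit 2) (nat_lit 0x3100000000004008000200460008157f02))))) 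
(.nd (nat_lit 7) 
(.lf (nat_lit 1812119841) (dlOf (nat_lit 4) (nat_lit 0x15c0160002802009e00b00013010049005800094080068008003c00200200008154283))) 
(.lf (nat_lit 1476837793) (dlOf (nat_lit 1) (nat_lit 0x1000400020008201002))))))) (.nd (nat_lit 22) 
(.nd (nat_lit 28) (.nd (nat_lit 21) (.nd (nat_lit 20) (.nd (nat_lit 23) 
(.lf (nat_lit 4362780705) (dlOf (nat_lit 1) (nat_lit 0x200080004002000200080f0b03))) 
(.lf (nat_lit 42647585) (dlOf (nat_lit 2) (nat_lit 0x247b00007019260180)))) 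
(.lf (nat_lit 10141729) (dlOf (nat_lit 1) (nat_lit 0x200285b0481)))) (.nd (nat_lit 7) 
(.nd (nat_lit 8) (.lf (nat_lit 54181921) (dlOf (nat_lit 1) (nat_lit 0x400200020009640682))) 
(.lf (nat_lit 19843873) (dlOf (nat_lit 1) (nat_lit 0x80080004002000200089d5c03)))) 
(.lf (nat_lit 36358561) (dlOf (nat_lit 1) (nat_lit 0x20019074e81))))) (.nd (nat_lit 20) 
(.nd (nat_lit 26) 
(.lf (nat_lit 5772066849) (dlOf (nat_lit 2) (nat_lit 0x8700780054000000000400180008060b01))) 
(.nd (nat_lit 31) 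
(.lf (nat_lit 6376046625) (dlOf (nat_lit 2) (nat_lit 0x8700780054000000000400180008060b01))) 
(.lf (nat_lit 4228562977) (dlOf (nat_lit 1) (nat_lit 0x200080004002000200080f0b03))))) 
(.nd (nat_lit 18) (.lf (nat_lit 1343930401) (dlOf (nat_lit 1) (nat_lit 0x60028380c81))) 
(.lf (nat_lit 473874465) (dlOf (nat_lit 5) (nat_lit 0x620286032413b018309c80c783340001c100604276030e0cd000060200d40a1806a04ec034027201aa0cd0000504017809d80bf03340000008035c00400020018fc0182)))))) 
(.nd (nat_lit 12) (.nd (nat_lit 23) (.nd (nat_lit 7) 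
(.lf (nat_lit 8045857) (dlOf (nat_lit 1) (nat_lit 0x400400020008513102))) (.nd (nat_lit 8) 
(.lf (nat_lit 8046753) (dlOf (nat_lit 1) (nat_lit 0x400400040008514882))) 
(.lf (nat_lit 8045985) (dlOf (nat_lit 1) (nat_lit 0x400200020008513602))))) (.nd (nat_lit 18) 
(.lf (nat_lit 13287457) (dlOf (nat_lit 1) (nat_lit 0x8008000400200020008710b03))) (.nd (nat_lit 20) 
(.lf (nat_lit 15646753) (dlOf (nat_lit 2) (nat_lit 0x7384002e0c080008008000c00200060008810683))) 
(.lf (nat_lit 14598177) (dlOf (nat_lit 3) (nat_lit 0xc9c200002c08000ce100000004003c00200040008770182)))))) 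
(.nd (nat_lit 7) (.nd (nat_lit 8) (.nd (nat_lit 9) 
(.lf (nat_lit 8048673) (dlOf (nat_lit 1) (nat_lit 0x1800400060008517b02))) 
(.lf (nat_lit 8049185) (dlOf (nat_lit 1) (nat_lit 0x38008001000200060008518883)))) 
(.lf (nat_lit 8048929) (dlOf (nat_lit 1) (nat_lit 0x1c0028518081)))) (.nd (nat_lit 8) 
(.nd (nat_lit 9) (.lf (nat_lit 8048801) (dlOf (nat_lit 1) (nat_lit 0x240018517d81))) 
(.lf (nat_lit 8049313) (dlOf (nat_lit 1) (nat_lit 0x8008000400200020008518c83)))) 
(.lf (nat_lit 8049057) (dlOf (nat_lit 1) (nat_lit 0x8008000400200020008518383))))))))) 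
(.nd (nat_lit 21) (.nd (nat_lit 5) (.nd (nat_lit 29) (.nd (nat_lit 8) (.nd (nat_lit 20) 
(.nd (nat_lit 9) (.nd (nat_lit 18) 
(.lf (nat_lit 4362780737) (dlOf (nat_lit 1) (nat_lit 0x80080010002000400080f1803))) 
(.lf (nat_lit 59686977) (dlOf (nat_lit 1) (nat_lit 0x400200040009820602)))) 
(.lf (nat_lit 201507393) (dlOf (nat_lit 1) (nat_lit 0xa8002003a0008018c02)))) (.nd (nat_lit 9) 
(.nd (nat_lit 19) (.lf (nat_lit 18006081) (dlOf (nat_lit 1) (nat_lit 0x400400040018900e02))) 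
(.lf (nat_lit 10141761) (dlOf (nat_lit 1) (nat_lit 0x80080004002000200085b0783)))) 
(.lf (nat_lit 3491676737) (dlOf (nat_lit 3) (nat_lit 0x5881c002438c0001204000c1c600010000000001000a000801a800200260008091083))))) 
(.nd (nat_lit 7) (.nd (nat_lit 18) 
(.lf (nat_lit 4362256705) (dlOf (nat_lit 1) (nat_lit 0x68008004c00200380008014c03))) 
(.lf (nat_lit 1410253121) (dlOf (nat_lit 2) (nat_lit 0x7900000008c04026c002001600081b0602)))) 
(.nd (nat_lit 11) (.nd (nat_lit 18) 
(.lf (nat_lit 51036609) (dlOf (nat_lit 1) (nat_lit 0x80080034002000200094f7003))) 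
(.lf (nat_lit 3491676609) (dlOf (nat_lit 1) (nat_lit 0x500080044002001c0008090903)))) 
(.lf (nat_lit 5436000705) (dlOf (nat_lit 1) (nat_lit 0x48008005800200300008094e83)))))) 
(.nd (nat_lit 7) (.nd (nat_lit 8) (.nd (nat_lit 18) (.nd (nat_lit 19) 
(.lf (nat_lit 5234671681) (dlOf (nat_lit 2) (nat_lit 0x1802f001a0158001f8100060008001400200040008080483))) 
(.lf (nat_lit 4228563009) (dlOf (nat_lit 1) (nat_lit 0x1b0008002c002000600080f1403)))) 
(.nd (nat_lit 9) (.lf (nat_lit 738639937) (dlOf (nat_lit 1) (nat_lit 0x200080d0481))) 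
(.lf (nat_lit 2753479233) (dlOf (nat_lit 3) (nat_lit 0x5887000243b00001104000c1d800010000000001000a000801a800200260008091083))))) 
(.nd (nat_lit 11) (.nd (nat_lit 22) 
(.lf (nat_lit 4228038977) (dlOf (nat_lit 1) (nat_lit 0x68008004c00200380008014c03))) 
(.lf (nat_lit 2755838273) (dlOf (nat_lit 1) (nat_lit 0x4002000200081b0602)))) 
(.lf (nat_lit 2751650113) (dlOf (nat_lit 1) (nat_lit 0x240040002001800ab82))))) (.nd (nat_lit 9) 
(.nd (nat_lit 11) 
(.lf (nat_lit 2753479105) (dlOf (nat_lit 1) (nat_lit 0x500080044002001c0008090903))) 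
(.lf (nat_lit 738380225) (dlOf (nat_lit 1) (nat_lit 0xa0028094e81)))) (.nd (nat_lit 10) 
(.lf (nat_lit 738380737) (dlOf (nat_lit 2) (nat_lit 0x90150000500801e8008002c00200640008095d83))) 
(.nd (nat_lit 18) (.lf (nat_lit 3087189953) (dlOf (nat_lit 1) (nat_lit 0x20028144401))) 
(.lf (nat_lit 2751907777) (dlOf (nat_lit 1) (nat_lit 0x20018004401)))))))) (.nd (nat_lit 8) 
(.nd (nat_lit 11) (.nd (nat_lit 7) (.nd (nat_lit 9) 
(.lf (nat_lit 537313377) (dlOf (nat_lit 1) (nat_lit 0x100028090001))) 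
(.lf (nat_lit 8832609) (dlOf (nat_lit 1) (nat_lit 0x20028513901)))) (.nd (nat_lit 9) 
(.lf (nat_lit 1343668449) (dlOf (nat_lit 30) (nat_lit 0x480be0001501002804e80009808084058401bc29c024c09d000110301350b08065053804d013a012e08e0001084011e0b0803e8538047413a01d408e0001004011a0b0803b8538046c13a01ac08e0000f8401170b0803c8538046013a01ba08e0000f0401110b0804b8538044c13a01b008e0000e8400fc0b080018538045413a018008e0000e0400fe0b080008538044c13a017a08e0000d84011b0b080350538047413a01ae08e0000d0400360a7007b82740002808045c2c200f414e011904e8000481808a82740002204045413a0001002017816100550a7007382740001a0c04502c2022809d0000602011304e80002c0808a0584045013a0000a0401d809d000048100e904e800020080030584045413a0000704022a16100010a7008b02740000c0c04802c200b214e013304e800014180760274000080400202c2022409d000018201160b0808a8274000040803502c201d409d000008200c80b080198538033013a012a08e000000482e0580))) 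
(.nd (nat_lit 23) (.lf (nat_lit 3020083937) (dlOf (nat_lit 1) (nat_lit 0x2460028128c81))) 
(.lf (nat_lit 8573665) (dlOf (nat_lit 1) (nat_lit 0x400200020008518c82)))))) (.nd (nat_lit 10) 
(.nd (nat_lit 9) (.lf (nat_lit 2751645921) (dlOf (nat_lit 1) (nat_lit 0x20018004a81))) 
(.lf (nat_lit 3154303713) (dlOf (nat_lit 1) (nat_lit 0x11b0008003000201ee000815b983)))) 
(.nd (nat_lit 18) (.nd (nat_lit 19) 
(.lf (nat_lit 1543687393) (dlOf (nat_lit 1) (nat_lit 0x10008000800200040008146503))) 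
(.lf (nat_lit 707809) (dlOf (nat_lit 1) (nat_lit 0xc0008006501)))) 
(.lf (nat_lit 2416364769) (dlOf (nat_lit 4) (nat_lit 0x6009000400440024020001400f0013007000400340006a180008024001001100020068000d01800100480010022001800f00040068000a82001580080010002000600080f6503)))))) 
(.nd (nat_lit 7) (.nd (nat_lit 12) (.nd (nat_lit 18) 
(.lf (nat_lit 738378081) (dlOf (nat_lit 1) (nat_lit 0x360018090e81))) (.nd (nat_lit 26) 
(.lf (nat_lit 805749089) (dlOf (nat_lit 1) (nat_lit 0x5c004002e00181a0702))) 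
(.lf (nat_lit 1678164321) (dlOf (nat_lit 1) (nat_lit 0x5c004002e00181a0702))))) (.nd (nat_lit 9) 
(.lf (nat_lit 3221413217) (dlOf (nat_lit 1) (nat_lit 0x100020062000811c902))) (.nd (nat_lit 18) 
(.lf (nat_lit 2617430881) (dlOf (nat_lit 1) (nat_lit 0x2400280a8f81))) 
(.lf (nat_lit 8835937) (dlOf (nat_lit 1) (nat_lit 0x6000401b80008518f82)))))) (.nd (nat_lit 9) 
(.nd (nat_lit 10) 
(.lf (nat_lit 939704801) (dlOf (nat_lit 1) (nat_lit 0x28008014c00200080008157d03))) 
(.lf (nat_lit 3020084705) (dlOf (nat_lit 5) (nat_lit 0x12007a004803b002301b0000e41801580f4007c06c0003804001e03d00003810011019000480980000008001800400040008129b02)))) 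
(.nd (nat_lit 10) (.nd (nat_lit 26) 
(.lf (nat_lit 537052129) (dlOf (nat_lit 1) (nat_lit 0x20028002881))) 
(.lf (nat_lit 1677902817) (dlOf (nat_lit 1) (nat_lit 0x400200060008112882)))) 
(.lf (nat_lit 3959609313) (dlOf (nat_lit 15) (nat_lit 0x16408c0026043004f582000c02300259c08009811400ade04000808a0056402029e04700690230089011405380860022042002b18500d6027005d81300a1408e02fe04603940228135810c0a18084001c035002b088034802a8117013c062009c040204d0167026003601240d6c08e065a04603ba022809401100cdc086064804200f6020003580e0011006a0214034006e019810d00c80d2c062021a02f0060017011e80b406ac05600360290096008808c804005ec01402c4008017c003002b800000abe78006009e0038047001a019005280bc023c05c00c8014003a0050015483800401180086a04017008c003d2020092046000101c000f341001281180008070003cb040008038001e481001a0228000000805e800806700020024000811a603)))))))) 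
(.nd (nat_lit 5) (.nd (nat_lit 19) (.nd (nat_lit 31) (.nd (nat_lit 7) (.nd (nat_lit 10) 
(.lf (nat_lit 15122497) (dlOf (nat_lit 1) (nat_lit 0x1a00287c0901))) 
(.lf (nat_lit 472302657) (dlOf (nat_lit 1) (nat_lit 0x40028982881)))) (.nd (nat_lit 8) 
(.nd (nat_lit 26) 
(.lf (nat_lit 1344718017) (dlOf (nat_lit 2) (nat_lit 0x802f400380520000604001c0028982d01))) 
(.lf (nat_lit 472302785) (dlOf (nat_lit 4) (nat_lit 0x4c02e0002e02001e1680000f8100070b480006c0800d000800b800200020008982d03)))) 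
(.lf (nat_lit 2277825) (dlOf (nat_lit 1) (nat_lit 0x40028150901))))) (.nd (nat_lit 8) 
(.nd (nat_lit 26) 
(.lf (nat_lit 3491938881) (dlOf (nat_lit 3) (nat_lit 0x101c6000090100030e3000106bc0000008014400200060008091082))) 
(.lf (nat_lit 2753741377) (dlOf (nat_lit 2) (nat_lit 0x787f80000004000400400240008091082)))) 
(.nd (nat_lit 7) (.nd (nat_lit 26) 
(.lf (nat_lit 3493249345) (dlOf (nat_lit 1) (nat_lit 0x380018104c01))) 
(.lf (nat_lit 2755051841) (dlOf (nat_lit 1) (nat_lit 0x380018104c01)))) 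
(.lf (nat_lit 3491938753) (dlOf (nat_lit 1) (nat_lit 0x20008002000200060008090903)))))) 
(.nd (nat_lit 22) (.nd (nat_lit 26) (.nd (nat_lit 20) (.nd (nat_lit 31) 
(.lf (nat_lit 1344979009) (dlOf (nat_lit 7) (nat_lit 0x2ce16000e70a680b1036403241b002b209c0159046809a823005740fa025607c00200180009245005d0234020c0fa0021f04001208d006803e8007f0100e20580044029a039e09c01c904680e801f406780f8008402f000f80700db0ab0061850c02c0276013413900e00668013032c036012c01d408500dc03a806d81cc0038e2802c42ac009609600ee03a807681cc0037a100194004000600189a0602))) 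
(.lf (nat_lit 3492462657) (dlOf (nat_lit 5) (nat_lit 0x50f580010748000fa0800643d60007502002c1eb0003a0100230f58001cc08001800800e8002002400080d0b83)))) 
(.lf (nat_lit 45793345) (dlOf (nat_lit 2) (nat_lit 0x681890011e019360600)))) (.nd (nat_lit 7) 
(.nd (nat_lit 18) 
(.lf (nat_lit 2754265153) (dlOf (nat_lit 5) (nat_lit 0x50fe8001079c000fa0800643fa0007502002c1fd0003a0100230fe8001cc08001800800e8002002400080d0b83))) 
(.lf (nat_lit 473874497) (dlOf (nat_lit 2) (nat_lit 0xb80a6805c0364022c1b0002470600020028fc0601)))) 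
(.lf (nat_lit 6378144193) (dlOf (nat_lit 1) (nat_lit 0x400400020008117002))))) (.nd (nat_lit 10) 
(.nd (nat_lit 8) (.nd (nat_lit 12) (.nd (nat_lit 20) 
(.lf (nat_lit 32161857) (dlOf (nat_lit 1) (nat_lit 0x20028ef0001))) 
(.lf (nat_lit 8044609) (dlOf (nat_lit 1) (nat_lit 0x400400020008510002)))) 
(.lf (nat_lit 8048705) (dlOf (nat_lit 1) (nat_lit 0x38008000400200060008517d03)))) 
(.lf (nat_lit 8046913) (dlOf (nat_lit 1) (nat_lit 0x800400060008514c82)))) (.nd (nat_lit 7) 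
(.nd (nat_lit 9) (.lf (nat_lit 8045633) (dlOf (nat_lit 1) (nat_lit 0x38008001400200020008512883))) 
(.lf (nat_lit 8046145) (dlOf (nat_lit 1) (nat_lit 0x400400020008513802)))) 
(.lf (nat_lit 8052161) (dlOf (nat_lit 1) (nat_lit 0x3000800040020006000851cd03))))))) 
(.nd (nat_lit 7) (.nd (nat_lit 12) (.nd (nat_lit 8) (.nd (nat_lit 20) 
(.lf (nat_lit 1344716897) (dlOf (nat_lit 1) (nat_lit 0x10008002000200180008980083))) 
(.lf (nat_lit 45531233) (dlOf (nat_lit 1) (nat_lit 0x1720019331981)))) (.nd (nat_lit 26) 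
(.lf (nat_lit 3493773665) (dlOf (nat_lit 1) (nat_lit 0x180080004002000600081b0703))) 
(.lf (nat_lit 2755576161) (dlOf (nat_lit 1) (nat_lit 0x180080004002000600081b0703))))) 
(.nd (nat_lit 11) (.nd (nat_lit 9) 
(.lf (nat_lit 8048993) (dlOf (nat_lit 1) (nat_lit 0x10008001c002000a0008518383))) 
(.lf (nat_lit 8049505) (dlOf (nat_lit 1) (nat_lit 0x40028518f81)))) (.nd (nat_lit 8) 
(.lf (nat_lit 8051809) (dlOf (nat_lit 1) (nat_lit 0x40020002000851c002))) (.nd (nat_lit 18) 
(.lf (nat_lit 8051041) (dlOf (nat_lit 1) (nat_lit 0x30008000c002000a000851ab83))) 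
(.lf (nat_lit 8313185) (dlOf (nat_lit 1) (nat_lit 0x40040004001851ab82))))))) (.nd (nat_lit 9) 
(.nd (nat_lit 12) (.nd (nat_lit 18) 
(.lf (nat_lit 29016289) (dlOf (nat_lit 1) (nat_lit 0xc00200020008da0582))) 
(.lf (nat_lit 19841249) (dlOf (nat_lit 1) (nat_lit 0x4002000200089d0a82)))) (.nd (nat_lit 8) 
(.lf (nat_lit 19846369) (dlOf (nat_lit 1) (nat_lit 0x4002000200089d9502))) 
(.lf (nat_lit 8049121) (dlOf (nat_lit 1) (nat_lit 0x400400020008518682))))) (.nd (nat_lit 8) 
(.nd (nat_lit 11) (.lf (nat_lit 8049377) (dlOf (nat_lit 1) (nat_lit 0x8008000400200020008518c83))) 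
(.nd (nat_lit 18) 
(.lf (nat_lit 20110049) (dlOf (nat_lit 1) (nat_lit 0x4200080004002008200089db983))) 
(.lf (nat_lit 19847905) (dlOf (nat_lit 1) (nat_lit 0x4002000200089db982))))) (.nd (nat_lit 12) 
(.lf (nat_lit 8308705) (dlOf (nat_lit 1) (nat_lit 0x58008002400200020008514583))) 
(.lf (nat_lit 8050657) (dlOf (nat_lit 1) (nat_lit 0x40020002000851a602)))))))))) (.nd (nat_lit 19) 
(.nd (nat_lit 5) (.nd (nat_lit 6) (.nd (nat_lit 29) (.nd (nat_lit 7) (.nd (nat_lit 20) 
(.nd (nat_lit 21) 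
(.lf (nat_lit 5704433673) (dlOf (nat_lit 2) (nat_lit 0x700600197e04000400400020008080002))) 
(.lf (nat_lit 3491938313) (dlOf (nat_lit 1) (nat_lit 0x20018090001)))) (.nd (nat_lit 10) 
(.nd (nat_lit 21) 
(.lf (nat_lit 18006025) (dlOf (nat_lit 2) (nat_lit 0x726b800270080090008000c00200140008900583))) 
(.lf (nat_lit 15908873) (dlOf (nat_lit 1) (nat_lit 0x68008004000200060008840283)))) 
(.lf (nat_lit 20106249) (dlOf (nat_lit 1) (nat_lit 0x80080004002000200089d5f83))))) 
(.nd (nat_lit 9) (.nd (nat_lit 8) 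
(.lf (nat_lit 3588233) (dlOf (nat_lit 1) (nat_lit 0x400200020008200102))) (.nd (nat_lit 11) 
(.lf (nat_lit 8570249) (dlOf (nat_lit 1) (nat_lit 0x18008000400200020008513603))) 
(.lf (nat_lit 183689) (dlOf (nat_lit 1) (nat_lit 0x1c0018006c81))))) (.nd (nat_lit 8) 
(.lf (nat_lit 335727241) (dlOf (nat_lit 1) (nat_lit 0x400400020008095482))) (.nd (nat_lit 10) 
(.lf (nat_lit 2617430921) (dlOf (nat_lit 1) (nat_lit 0x800280a9001))) 
(.lf (nat_lit 8837001) (dlOf (nat_lit 1) (nat_lit 0x40020002000851a302))))))) (.nd (nat_lit 18) 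
(.nd (nat_lit 9) (.nd (nat_lit 26) (.nd (nat_lit 30) 
(.lf (nat_lit 5234671625) (dlOf (nat_lit 2) (nat_lit 0x17015000000080078008006800200160008080003))) 
(.lf (nat_lit 6308413449) (dlOf (nat_lit 2) (nat_lit 0x7006000e2a04000400400020008080002)))) 
(.nd (nat_lit 7) (.lf (nat_lit 604160009) (dlOf (nat_lit 1) (nat_lit 0x20028060081))) 
(.lf (nat_lit 738380169) (dlOf (nat_lit 1) (nat_lit 0x120028094e81))))) (.nd (nat_lit 7) 
(.nd (nat_lit 8) (.lf (nat_lit 1610794505) (dlOf (nat_lit 1) (nat_lit 0xa0008093681))) 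
(.lf (nat_lit 671270665) (dlOf (nat_lit 1) (nat_lit 0x1800400040018143b82)))) 
(.lf (nat_lit 4095919753) (dlOf (nat_lit 1) (nat_lit 0x4002000200080e3a02))))) (.nd (nat_lit 8) 
(.nd (nat_lit 27) (.nd (nat_lit 31) 
(.lf (nat_lit 1611055113) (dlOf (nat_lit 1) (nat_lit 0x8002000200080d0002))) 
(.lf (nat_lit 3758538761) (dlOf (nat_lit 1) (nat_lit 0x8008000400200020008270003)))) 
(.nd (nat_lit 26) 
(.lf (nat_lit 2819014665) (dlOf (nat_lit 2) (nat_lit 0x101b00762c080170008005c00200420008150003))) 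
(.lf (nat_lit 738639881) (dlOf (nat_lit 1) (nat_lit 0x8002000200080d0002))))) (.nd (nat_lit 7) 
(.lf (nat_lit 805749001) (dlOf (nat_lit 1) (nat_lit 0x4004000200081a0482))) (.nd (nat_lit 20) 
(.lf (nat_lit 1678164361) (dlOf (nat_lit 2) (nat_lit 0x88042006518181a0780))) 
(.lf (nat_lit 2755051913) (dlOf (nat_lit 1) (nat_lit 0x10008000400200040008105d03)))))))) 
(.nd (nat_lit 7) (.nd (nat_lit 26) (.nd (nat_lit 30) (.nd (nat_lit 9) (.nd (nat_lit 23) 
(.lf (nat_lit 6442631241) (dlOf (nat_lit 2) (nat_lit 0x7000e0001b018110880))) 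
(.lf (nat_lit 25346121) (dlOf (nat_lit 1) (nat_lit 0x80002000a0008bf0c82)))) 
(.lf (nat_lit 939704905) (dlOf (nat_lit 6) (nat_lit 0xb40000002e81000400000017008014006800e80120005404002c00000029810025004801a0000000a208005800200700008158d02)))) 
(.nd (nat_lit 8) (.nd (nat_lit 10) 
(.lf (nat_lit 1073922121) (dlOf (nat_lit 4) (nat_lit 0x2300e4011806e008c02b00410138022807c011c02c008c01100460048023000400980000002614001401f0001101000301e800048080198008005800200520008020883))) 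
(.lf (nat_lit 1610794057) (dlOf (nat_lit 1) (nat_lit 0xa0028092881)))) (.nd (nat_lit 9) 
(.lf (nat_lit 3221409097) (dlOf (nat_lit 1) (nat_lit 0x40018116981))) 
(.lf (nat_lit 1345506121) (dlOf (nat_lit 1) (nat_lit 0x1c00400080008c95c02)))))) (.nd (nat_lit 29) 
(.nd (nat_lit 9) (.lf (nat_lit 5838651465) (dlOf (nat_lit 2) (nat_lit 0x7000e0001b018110880))) 
(.nd (nat_lit 11) 
(.lf (nat_lit 201507401) (dlOf (nat_lit 3) (nat_lit 0x805e0006802000204a0001017800108100020008000800200100008018d03))) 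
(.lf (nat_lit 472304201) (dlOf (nat_lit 3) (nat_lit 0x180000003e0400181b2000000200160028985201))))) 
(.nd (nat_lit 10) (.nd (nat_lit 12) 
(.lf (nat_lit 1946337353) (dlOf (nat_lit 4) (nat_lit 0x2300e4011806e008c02b004101380228070011c02c008c01100460048023000400980000002614001401c0001101000301f000048080198008005800200520008020883))) 
(.lf (nat_lit 3154301001) (dlOf (nat_lit 1) (nat_lit 0x8008000400200020008157d83)))) 
(.lf (nat_lit 5301781577) (dlOf (nat_lit 1) (nat_lit 0x60008092881)))))) (.nd (nat_lit 26) 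
(.nd (nat_lit 8) (.nd (nat_lit 18) (.nd (nat_lit 22) 
(.lf (nat_lit 2147664073) (dlOf (nat_lit 1) (nat_lit 0x100080004002000200080c1b83))) 
(.lf (nat_lit 1346552009) (dlOf (nat_lit 1) (nat_lit 0x20018fc5981)))) 
(.lf (nat_lit 4563845321) (dlOf (nat_lit 1) (nat_lit 0x1c00200120008105982)))) (.nd (nat_lit 9) 
(.nd (nat_lit 11) (.lf (nat_lit 3491938761) (dlOf (nat_lit 1) (nat_lit 0x24004000e0008090982))) 
(.lf (nat_lit 35834313) (dlOf (nat_lit 1) (nat_lit 0x8008001400200020009014e83)))) 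
(.lf (nat_lit 3221412809) (dlOf (nat_lit 1) (nat_lit 0x2080080068002002c000811be83))))) 
(.nd (nat_lit 9) (.nd (nat_lit 8) 
(.lf (nat_lit 6375523529) (dlOf (nat_lit 1) (nat_lit 0x20008002d81))) (.nd (nat_lit 11) 
(.lf (nat_lit 4228039113) (dlOf (nat_lit 1) (nat_lit 0x800200260008017102))) 
(.lf (nat_lit 872860105) (dlOf (nat_lit 1) (nat_lit 0x14004000200080e4e82))))) (.nd (nat_lit 10) 
(.nd (nat_lit 11) 
(.lf (nat_lit 2751644617) (dlOf (nat_lit 2) (nat_lit 0x584f40252004000c00400340008002882))) 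
(.lf (nat_lit 1141033929) (dlOf (nat_lit 1) (nat_lit 0x20018095d81)))) 
(.lf (nat_lit 2751645641) (dlOf (nat_lit 3) (nat_lit 0x3c4900001102001424800007818004480)))))))) 
(.nd (nat_lit 26) (.nd (nat_lit 6) (.nd (nat_lit 18) (.nd (nat_lit 29) (.nd (nat_lit 9) 
(.nd (nat_lit 7) (.nd (nat_lit 20) 
(.lf (nat_lit 37929001) (dlOf (nat_lit 1) (nat_lit 0xc004000200090f0202))) 
(.lf (nat_lit 24297513) (dlOf (nat_lit 1) (nat_lit 0x20018b90981)))) 
(.lf (nat_lit 2147664041) (dlOf (nat_lit 1) (nat_lit 0x80080004002000200080c1483)))) 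
(.nd (nat_lit 8) (.lf (nat_lit 58903081) (dlOf (nat_lit 1) (nat_lit 0x4004000200097e5182))) 
(.lf (nat_lit 54709033) (dlOf (nat_lit 1) (nat_lit 0x14004000a0009655c02))))) (.nd (nat_lit 7) 
(.nd (nat_lit 8) (.lf (nat_lit 6039978025) (dlOf (nat_lit 1) (nat_lit 0x600080a0601))) 
(.lf (nat_lit 805489961) (dlOf (nat_lit 1) (nat_lit 0x1c0018116801)))) (.nd (nat_lit 8) 
(.lf (nat_lit 6174195881) (dlOf (nat_lit 1) (nat_lit 0x2c00200020008081482))) 
(.lf (nat_lit 671270825) (dlOf (nat_lit 1) (nat_lit 0x20008001000200100008144303)))))) 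
(.nd (nat_lit 24) (.nd (nat_lit 9) (.nd (nat_lit 20) 
(.lf (nat_lit 3492200489) (dlOf (nat_lit 1) (nat_lit 0x400280b0d81))) 
(.lf (nat_lit 35045417) (dlOf (nat_lit 2) (nat_lit 0x2aa48000a4080010008000400200020008fd0203)))) 
(.lf (nat_lit 134660649) (dlOf (nat_lit 2) (nat_lit 0x2102a0000000800b8008002800200280008090e03)))) 
(.nd (nat_lit 20) (.nd (nat_lit 22) 
(.lf (nat_lit 27705385) (dlOf (nat_lit 1) (nat_lit 0x16c00400060018d10a02))) 
(.lf (nat_lit 23511081) (dlOf (nat_lit 3) (nat_lit 0x15ccbf006a40100de65f803518080038008002000200060008b80003)))) 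
(.lf (nat_lit 24559657) (dlOf (nat_lit 1) (nat_lit 0x4a0018ba0a01)))))) (.nd (nat_lit 11) 
(.nd (nat_lit 12) (.nd (nat_lit 7) 
(.lf (nat_lit 2818752617) (dlOf (nat_lit 1) (nat_lit 0x8008000c00200040008111e83))) 
(.lf (nat_lit 1610794217) (dlOf (nat_lit 1) (nat_lit 0x10008000800200060008092e83)))) 
(.nd (nat_lit 8) 
(.lf (nat_lit 4160935145) (dlOf (nat_lit 1) (nat_lit 0x80080004002000200080a9503))) 
(.lf (nat_lit 2550585321) (dlOf (nat_lit 1) (nat_lit 0x200280fa601))))) (.nd (nat_lit 7) 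
(.nd (nat_lit 20) 
(.lf (nat_lit 1208142441) (dlOf (nat_lit 1) (nat_lit 0x10008000400200040008095383))) 
(.lf (nat_lit 59951721) (dlOf (nat_lit 1) (nat_lit 0x400400020009845382)))) (.nd (nat_lit 8) 
(.lf (nat_lit 671271145) (dlOf (nat_lit 6) (nat_lit 0x1601b0000d81000e00d80006408005806c00040000000b04003201b0000501000300d8000240800200080050002001a0008144b03))) 
(.lf (nat_lit 1344719337) (dlOf (nat_lit 1) (nat_lit 0x20008984e81))))))) (.nd (nat_lit 6) 
(.nd (nat_lit 27) (.nd (nat_lit 9) (.nd (nat_lit 7) (.nd (nat_lit 18) 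
(.lf (nat_lit 68337705) (dlOf (nat_lit 1) (nat_lit 0x20028550781))) 
(.lf (nat_lit 2754002985) (dlOf (nat_lit 1) (nat_lit 0x9000800a4002001000080b0d03)))) 
(.lf (nat_lit 1678164393) (dlOf (nat_lit 3) (nat_lit 0xb408400ca302006c042006500181a0780)))) 
(.nd (nat_lit 7) (.nd (nat_lit 10) 
(.lf (nat_lit 604425001) (dlOf (nat_lit 8) (nat_lit 0x3880f4014407400c2034009b015003280800046614015007a007603a003201a001300a80114040002310a014403d008d01d001700dc0218068014002a008b0100043003001b001200d20000011789001f0060012002400fc0000022d06000e00c0011181001d0060007cc080030030003e004005c00400200008205c02))) 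
(.lf (nat_lit 2751645481) (dlOf (nat_lit 1) (nat_lit 0x10008000400200020008003d03)))) 
(.lf (nat_lit 1677903785) (dlOf (nat_lit 1) (nat_lit 0x20018114301))))) (.nd (nat_lit 11) 
(.nd (nat_lit 8) (.nd (nat_lit 9) 
(.lf (nat_lit 6643957801) (dlOf (nat_lit 1) (nat_lit 0x58008002c002001600080a0603))) 
(.lf (nat_lit 201769513) (dlOf (nat_lit 2) (nat_lit 0x2102a8000000800b8008002800200280008090e03)))) 
(.lf (nat_lit 2080556329) (dlOf (nat_lit 1) (nat_lit 0x400200020008093182)))) (.nd (nat_lit 7) 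
(.nd (nat_lit 9) 
(.lf (nat_lit 1543687465) (dlOf (nat_lit 1) (nat_lit 0x20008001000200100008146803))) 
(.lf (nat_lit 473090857) (dlOf (nat_lit 3) (nat_lit 0x3a09d000f98100e70b280068c080108008001800200920008c95c03)))) 
(.lf (nat_lit 738380201) (dlOf (nat_lit 1) (nat_lit 0x60028094e81)))))) (.nd (nat_lit 8) 
(.nd (nat_lit 7) (.nd (nat_lit 9) 
(.lf (nat_lit 3020086377) (dlOf (nat_lit 4) (nat_lit 0x4e03c002d01a801500c000d0054006a0230029011000f8048000501c00ac06a004a03000300150016008c008c04400180120001306000101e0000940802100080048002002c000812c083))) 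
(.lf (nat_lit 335727209) (dlOf (nat_lit 1) (nat_lit 0x400400020008095382)))) (.nd (nat_lit 10) 
(.lf (nat_lit 2751908073) (dlOf (nat_lit 1) (nat_lit 0x20018004b01))) (.nd (nat_lit 11) 
(.lf (nat_lit 3422737641) (dlOf (nat_lit 1) (nat_lit 0x200280a9501))) 
(.lf (nat_lit 2754792681) (dlOf (nat_lit 2) (nat_lit 0x84000000170180f6500)))))) (.nd (nat_lit 29) 
(.nd (nat_lit 7) 
(.lf (nat_lit 474136937) (dlOf (nat_lit 5) (nat_lit 0x12207000180100161038000bc08008081c0005c04002440e0002c02001a00190e0f01))) 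
(.nd (nat_lit 9) (.lf (nat_lit 472304105) (dlOf (nat_lit 1) (nat_lit 0x20008984e81))) 
(.lf (nat_lit 1141033961) (dlOf (nat_lit 1) (nat_lit 0x400200020008095e82))))) (.nd (nat_lit 10) 
(.nd (nat_lit 28) 
(.lf (nat_lit 1812120041) (dlOf (nat_lit 10) (nat_lit 0x64005802a0024008000800e20000002e84007e0058030002400d000800c80000002e0400580000001500802a8000000a404019001600aa009002f002002a0000000a210020001600c4009003700200338000000a01001f801600020040002602007b005800c802400f000800660000002284003d000000010080100008003800200160008157303))) 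
(.lf (nat_lit 4228039145) (dlOf (nat_lit 5) (nat_lit 0x10700a8000ce0407c40540006602041202a000208101f40150000fc0800e000800bc00200100008017303)))) 
(.lf (nat_lit 3020084713) (dlOf (nat_lit 3) (nat_lit 0x480f40002c040140064000000200020028129b81))))))))) 
(.nd (nat_lit 20) (.nd (nat_lit 21) (.nd (nat_lit 18) (.nd (nat_lit 27) (.nd (nat_lit 22) 
(.nd (nat_lit 5) (.nd (nat_lit 6) 
(.lf (nat_lit 67813385) (dlOf (nat_lit 1) (nat_lit 0x980028300581))) 
(.lf (nat_lit 1409990729) (dlOf (nat_lit 2) (nat_lit 0x3f0290000d00800f80080050002006400080c1483)))) 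
(.lf (nat_lit 1409990697) (dlOf (nat_lit 5) (nat_lit 0x66817c000480403640be000220200fa05f0001001008402f80007c08029800800d8002006a00080c0c03)))) 
(.nd (nat_lit 23) 
(.lf (nat_lit 21676041) (dlOf (nat_lit 1) (nat_lit 0x38008008800200480008a60a03))) 
(.lf (nat_lit 13287433) (dlOf (nat_lit 1) (nat_lit 0x100028710581))))) (.nd (nat_lit 6) 
(.nd (nat_lit 5) (.nd (nat_lit 26) 
(.lf (nat_lit 134922249) (dlOf (nat_lit 4) (nat_lit 0x80ec00e12040060076006f902006003b0037b8180e0000))) 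
(.lf (nat_lit 202031113) (dlOf (nat_lit 4) (nat_lit 0x80ec0196c04006007600ca302006003b006500180e0000)))) 
(.lf (nat_lit 4228562985) (dlOf (nat_lit 10) (nat_lit 0xc9027801e01080480054005a0220002b8400e1027809e80a8000ac08034809e027c02a0002a82020c0278053010809d8054037a0220002a0400230278001813401e80540003706000604f000f0150000d81006f013c011c084027202a00010110000d420069813c0240084027c02a00190110000d0200a9013c046409a01d804201be0150060808800066140280004013e00180f0c02)))) 
(.nd (nat_lit 7) 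
(.lf (nat_lit 4228563017) (dlOf (nat_lit 1) (nat_lit 0x880080010002001400080f1483))) 
(.lf (nat_lit 738904521) (dlOf (nat_lit 1) (nat_lit 0x400200020008124e82)))))) (.nd (nat_lit 6) 
(.nd (nat_lit 23) (.nd (nat_lit 5) 
(.lf (nat_lit 5160969) (dlOf (nat_lit 1) (nat_lit 0x20018320481))) 
(.lf (nat_lit 5161001) (dlOf (nat_lit 2) (nat_lit 0x1d533000150080068008005000200160008320683)))) 
(.nd (nat_lit 25) 
(.lf (nat_lit 13549577) (dlOf (nat_lit 2) (nat_lit 0x1947c0019a04000400200020008730482))) 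
(.lf (nat_lit 47104009) (dlOf (nat_lit 1) (nat_lit 0x180080018002000200093a0003))))) 
(.nd (nat_lit 5) (.nd (nat_lit 7) 
(.lf (nat_lit 1410253129) (dlOf (nat_lit 3) (nat_lit 0x903b0001480802d80000008e04006c002001a00081b0602))) 
(.nd (nat_lit 26) (.lf (nat_lit 537837769) (dlOf (nat_lit 1) (nat_lit 0x400281b0481))) 
(.lf (nat_lit 1410253001) (dlOf (nat_lit 1) (nat_lit 0x200181b0481))))) (.nd (nat_lit 9) 
(.lf (nat_lit 3490628073) (dlOf (nat_lit 4) (nat_lit 0x16035c0005c0401401ae0002d0201c80c00000a818017300))) 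
(.lf (nat_lit 51299305) (dlOf (nat_lit 1) (nat_lit 0x240019512881))))))) (.nd (nat_lit 6) 
(.nd (nat_lit 18) (.nd (nat_lit 28) (.nd (nat_lit 9) (.nd (nat_lit 22) 
(.lf (nat_lit 2754265097) (dlOf (nat_lit 2) (nat_lit 0x8d107804b07fc000f8080044004002200180d0482))) 
(.lf (nat_lit 15384585) (dlOf (nat_lit 1) (nat_lit 0x8002000200087e0482)))) 
(.lf (nat_lit 57330185) (dlOf (nat_lit 1) (nat_lit 0x1400400040009795002)))) (.nd (nat_lit 5) 
(.nd (nat_lit 31) (.lf (nat_lit 1344978953) (dlOf (nat_lit 2) (nat_lit 0x3007d0039f8189a0000))) 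
(.lf (nat_lit 3492462601) (dlOf (nat_lit 2) (nat_lit 0x8d0fd004b07b4000f8080044004002200180d0482)))) 
(.nd (nat_lit 26) 
(.lf (nat_lit 1344978985) (dlOf (nat_lit 2) (nat_lit 0x98560002019e0002904000200289a0201))) 
(.lf (nat_lit 472563753) (dlOf (nat_lit 1) (nat_lit 0x14c002004600089c0202)))))) (.nd (nat_lit 5) 
(.nd (nat_lit 7) (.nd (nat_lit 8) 
(.lf (nat_lit 15646729) (dlOf (nat_lit 3) (nat_lit 0x23a18016e4080021d0c00b5404001400400180008810282))) 
(.lf (nat_lit 19847945) (dlOf (nat_lit 1) (nat_lit 0x4002000200089db982)))) 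
(.lf (nat_lit 19843977) (dlOf (nat_lit 1) (nat_lit 0x4002000200089d5c02)))) (.nd (nat_lit 7) 
(.lf (nat_lit 3063849) (dlOf (nat_lit 1) (nat_lit 0xa4004021e0008200002))) 
(.lf (nat_lit 19841961) (dlOf (nat_lit 1) (nat_lit 0xe00189d2681)))))) (.nd (nat_lit 5) 
(.nd (nat_lit 8) (.nd (nat_lit 9) 
(.lf (nat_lit 70173897) (dlOf (nat_lit 1) (nat_lit 0x20028fa2d81))) (.nd (nat_lit 11) 
(.lf (nat_lit 19841737) (dlOf (nat_lit 1) (nat_lit 0x2200189d1f81))) 
(.lf (nat_lit 57330377) (dlOf (nat_lit 1) (nat_lit 0x40029795801))))) (.nd (nat_lit 7) 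
(.lf (nat_lit 19841865) (dlOf (nat_lit 1) (nat_lit 0x2800189d2401))) 
(.lf (nat_lit 23773641) (dlOf (nat_lit 1) (nat_lit 0x3000400040008b80982))))) (.nd (nat_lit 10) 
(.nd (nat_lit 22) (.lf (nat_lit 1344979049) (dlOf (nat_lit 1) (nat_lit 0x200289a0a01))) 
(.lf (nat_lit 48939113) (dlOf (nat_lit 1) (nat_lit 0x200029451e81)))) (.nd (nat_lit 8) 
(.lf (nat_lit 53134953) (dlOf (nat_lit 1) (nat_lit 0x39800801b0002005a0009573903))) 
(.lf (nat_lit 472827241) (dlOf (nat_lit 2) (nat_lit 0x2c1250000a018b03480)))))))) (.nd (nat_lit 5) 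
(.nd (nat_lit 22) (.nd (nat_lit 8) (.nd (nat_lit 6) (.nd (nat_lit 9) 
(.lf (nat_lit 10141705) (dlOf (nat_lit 1) (nat_lit 0x200285b0481))) 
(.lf (nat_lit 1881063945) (dlOf (nat_lit 1) (nat_lit 0x2000200040008de8002)))) (.nd (nat_lit 7) 
(.nd (nat_lit 23) (.lf (nat_lit 5773115465) (dlOf (nat_lit 1) (nat_lit 0xc0004001c00080a1682))) 
(.lf (nat_lit 10141769) (dlOf (nat_lit 7) (nat_lit 0x140000003902000e0000001b01002c0000000d0080040000000620400392a400088e1001146c8005a30c005515c00ca897000d438801ea07c00fcffa00827f100113f000059ebc0038f46002279100093c180209df000ccee40056768004120380208fb801047ae0034000000131600024a90001236400091a000048c300023f880011f800008f84000479100023c180071df00008ed000043ee00091eb800300000004438005c004006e00085b0882)))) 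
(.lf (nat_lit 5773377737) (dlOf (nat_lit 1) (nat_lit 0x4002000200080c1782))))) (.nd (nat_lit 6) 
(.nd (nat_lit 18) 
(.lf (nat_lit 2753216905) (dlOf (nat_lit 2) (nat_lit 0x443f000cb60200160028090781))) 
(.lf (nat_lit 2755576201) (dlOf (nat_lit 1) (nat_lit 0x800804f0002016800081b0783)))) 
(.nd (nat_lit 11) (.nd (nat_lit 26) 
(.lf (nat_lit 3491676617) (dlOf (nat_lit 2) (nat_lit 0x10704001c21e000000400020028090981))) 
(.lf (nat_lit 2753479113) (dlOf (nat_lit 2) (nat_lit 0x1074c001c212000000400020028090981)))) 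
(.lf (nat_lit 62835145) (dlOf (nat_lit 1) (nat_lit 0x1a00199a4e81)))))) (.nd (nat_lit 6) 
(.nd (nat_lit 7) (.nd (nat_lit 8) (.nd (nat_lit 11) 
(.lf (nat_lit 8045065) (dlOf (nat_lit 1) (nat_lit 0x8008003800200080008511483))) 
(.lf (nat_lit 8051209) (dlOf (nat_lit 1) (nat_lit 0x2800800180020006000851b283)))) 
(.lf (nat_lit 8045833) (dlOf (nat_lit 1) (nat_lit 0x20008512f81)))) (.nd (nat_lit 18) 
(.lf (nat_lit 8044937) (dlOf (nat_lit 1) (nat_lit 0x400200020008511002))) 
(.lf (nat_lit 8307081) (dlOf (nat_lit 1) (nat_lit 0xb0008000400200180008511003))))) 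
(.nd (nat_lit 7) (.nd (nat_lit 9) 
(.lf (nat_lit 25083977) (dlOf (nat_lit 1) (nat_lit 0x1680080044002007c0008be1483))) 
(.lf (nat_lit 8050249) (dlOf (nat_lit 1) (nat_lit 0x400200020008519c02)))) (.nd (nat_lit 9) 
(.lf (nat_lit 8049097) (dlOf (nat_lit 1) (nat_lit 0x10008001000200060008518683))) (.nd (nat_lit 10) 
(.lf (nat_lit 8045513) (dlOf (nat_lit 1) (nat_lit 0x400400020008512882))) 
(.lf (nat_lit 8310729) (dlOf (nat_lit 1) (nat_lit 0x400200020008517a82)))))))) (.nd (nat_lit 9) 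
(.nd (nat_lit 7) (.nd (nat_lit 21) (.nd (nat_lit 18) (.nd (nat_lit 23) 
(.lf (nat_lit 5773115433) (dlOf (nat_lit 1) (nat_lit 0x70008001c002001800080a0a03))) 
(.lf (nat_lit 10141737) (dlOf (nat_lit 2) (nat_lit 0x49fc000000040008004000600085b0502)))) 
(.lf (nat_lit 52346921) (dlOf (nat_lit 1) (nat_lit 0x400400120009530202)))) (.nd (nat_lit 6) 
(.nd (nat_lit 8) (.lf (nat_lit 45793321) (dlOf (nat_lit 1) (nat_lit 0x400400020019360202))) 
(.lf (nat_lit 8045865) (dlOf (nat_lit 1) (nat_lit 0x400400020008513182)))) (.nd (nat_lit 10) 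
(.lf (nat_lit 473874537) (dlOf (nat_lit 1) (nat_lit 0xbc004003c0008fc0a02))) 
(.lf (nat_lit 8051817) (dlOf (nat_lit 1) (nat_lit 0x8008001c0020006000851c083)))))) 
(.nd (nat_lit 6) (.nd (nat_lit 10) (.nd (nat_lit 11) 
(.lf (nat_lit 8044969) (dlOf (nat_lit 1) (nat_lit 0x400200020008511002))) 
(.lf (nat_lit 37407145) (dlOf (nat_lit 1) (nat_lit 0x8002000200090d4e82)))) 
(.lf (nat_lit 8308137) (dlOf (nat_lit 1) (nat_lit 0x8008000400200020008513603)))) (.nd (nat_lit 8) 
(.nd (nat_lit 11) (.lf (nat_lit 29016297) (dlOf (nat_lit 1) (nat_lit 0x2800200020008da0602))) 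
(.lf (nat_lit 8046825) (dlOf (nat_lit 2) (nat_lit 0x827f000252bc8000641000700080014002000e0008514b03)))) 
(.lf (nat_lit 35310057) (dlOf (nat_lit 1) (nat_lit 0x400400020009014e82)))))) (.nd (nat_lit 10) 
(.nd (nat_lit 26) (.nd (nat_lit 28) (.nd (nat_lit 7) 
(.lf (nat_lit 20630313) (dlOf (nat_lit 1) (nat_lit 0x4002000200089d5c02))) 
(.lf (nat_lit 8049321) (dlOf (nat_lit 1) (nat_lit 0x8008000400200020008518c83)))) (.nd (nat_lit 18) 
(.lf (nat_lit 3491414569) (dlOf (nat_lit 2) (nat_lit 0x383d400881d900000028090e00))) 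
(.lf (nat_lit 3493773865) (dlOf (nat_lit 1) (nat_lit 0xa00081b0e01))))) (.nd (nat_lit 18) 
(.nd (nat_lit 21) 
(.lf (nat_lit 2753217065) (dlOf (nat_lit 2) (nat_lit 0x383f800881ee00000028090e00))) 
(.lf (nat_lit 473612841) (dlOf (nat_lit 4) (nat_lit 0xe11b0003b01000908d8001d408004046c00000040090004000c0018f68902)))) 
(.lf (nat_lit 2755576361) (dlOf (nat_lit 1) (nat_lit 0xa00081b0e01))))) (.nd (nat_lit 6) 
(.nd (nat_lit 8) (.nd (nat_lit 18) 
(.lf (nat_lit 8046121) (dlOf (nat_lit 1) (nat_lit 0x8008000400200020008513703))) 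
(.lf (nat_lit 4095657513) (dlOf (nat_lit 1) (nat_lit 0x4004000200080e3702)))) 
(.lf (nat_lit 8048425) (dlOf (nat_lit 1) (nat_lit 0x788008033400201180008517483)))) 
(.nd (nat_lit 18) (.lf (nat_lit 8046441) (dlOf (nat_lit 1) (nat_lit 0x1000400020008514002))) 
(.lf (nat_lit 8308585) (dlOf (nat_lit 1) (nat_lit 0x10008000c00200020008514003))))))))))) 
(.nd (nat_lit 3) (.nd (nat_lit 5) (.nd (nat_lit 18) (.nd (nat_lit 6) (.nd (nat_lit 29) 
(.nd (nat_lit 21) (.nd (nat_lit 32) (.nd (nat_lit 19) (.nd (nat_lit 20) 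
(.lf (nat_lit 3288580097) (dlOf (nat_lit 1) (nat_lit 0x450004038a0018090002))) 
(.lf (nat_lit 26460161) (dlOf (nat_lit 1) (nat_lit 0x8008000400200020008c50003)))) (.nd (nat_lit 7) 
(.nd (nat_lit 22) 
(.lf (nat_lit 18595841) (dlOf (nat_lit 1) (nat_lit 0x10008006800200260008950003))) 
(.lf (nat_lit 31178753) (dlOf (nat_lit 2) (nat_lit 0x6e468000000400ac00400220018e70002)))) 
(.lf (nat_lit 770433) (dlOf (nat_lit 1) (nat_lit 0xa0028015a81))))) (.nd (nat_lit 27) 
(.nd (nat_lit 28) 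
(.lf (nat_lit 4295213057) (dlOf (nat_lit 1) (nat_lit 0x80080004002000200080b0003))) 
(.lf (nat_lit 4563648513) (dlOf (nat_lit 18) (nat_lit 0x1203400d2401002101a000480c8001c03e000601500d1d84001501a000780c8005003e000801500d1c84000c01a0068900800600d00344404003006801a0f02001803400cff81000c01a0067d40800300d0033e8040030068019f302001603400cf881000c01a0067c00800400d0033de040030068019ee02001003400cf681001001a000800c8004403e002601500cee04000101a0000000803a00080024002004e00080b0003)))) 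
(.nd (nat_lit 28) 
(.lf (nat_lit 4429430785) (dlOf (nat_lit 1) (nat_lit 0x80080004002000200080b0003))) 
(.lf (nat_lit 4697866241) (dlOf (nat_lit 18) (nat_lit 0x1203400ed681002101a000480c8001c03e000601500ed004001501a000780c8005003e000801500ecf04000c01a0076400800600d003afa04003006801d7502001803400eb201000601a0075680800600d003ab204003006801d5802001803400ea681000b01a0075300800400d003a9604003006801d4a02001003400ea481001001a000800c8004403e002601500ea184000101a0000000803a00080024002004e00080b0003)))))) 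
(.nd (nat_lit 8) (.nd (nat_lit 22) (.nd (nat_lit 7) (.nd (nat_lit 23) 
(.lf (nat_lit 52674561) (dlOf (nat_lit 1) (nat_lit 0x120019560001))) 
(.lf (nat_lit 27508737) (dlOf (nat_lit 1) (nat_lit 0x20018cf0001)))) 
(.lf (nat_lit 2343041) (dlOf (nat_lit 1) (nat_lit 0x20018150101)))) (.nd (nat_lit 19) 
(.lf (nat_lit 56868865) (dlOf (nat_lit 1) (nat_lit 0x40019770001))) 
(.lf (nat_lit 15450113) (dlOf (nat_lit 1) (nat_lit 0x1200087f0001))))) (.nd (nat_lit 7) 
(.nd (nat_lit 9) (.lf (nat_lit 20175105) (dlOf (nat_lit 1) (nat_lit 0x4002000200089da982))) 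
(.lf (nat_lit 57395969) (dlOf (nat_lit 1) (nat_lit 0x3c00400160009795a82)))) 
(.lf (nat_lit 473680257) (dlOf (nat_lit 1) (nat_lit 0x8004000c0008fa4e82)))))) (.nd (nat_lit 7) 
(.nd (nat_lit 9) (.nd (nat_lit 8) (.nd (nat_lit 10) 
(.lf (nat_lit 4026777601) (dlOf (nat_lit 1) (nat_lit 0x450004038a0018090002))) 
(.lf (nat_lit 2751710209) (dlOf (nat_lit 1) (nat_lit 0x20008002881)))) 
(.lf (nat_lit 3758342401) (dlOf (nat_lit 1) (nat_lit 0x20018130701)))) (.nd (nat_lit 26) 
(.lf (nat_lit 671334913) (dlOf (nat_lit 7) (nat_lit 0x11005c000a80400500480006021001600780014418005008400098040074042000450200140210002201000201080010c0800b0008037800200040008157f03))) 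
(.lf (nat_lit 1677967873) (dlOf (nat_lit 1) (nat_lit 0x8008000400200020008127f03))))) 
(.nd (nat_lit 27) (.nd (nat_lit 8) 
(.lf (nat_lit 1879294081) (dlOf (nat_lit 1) (nat_lit 0x80080004002000200080c0103))) 
(.nd (nat_lit 26) (.lf (nat_lit 805552513) (dlOf (nat_lit 2) (nat_lit 0xc0350051d818125a80))) 
(.lf (nat_lit 1677967745) (dlOf (nat_lit 2) (nat_lit 0xc03500253018125a80))))) (.nd (nat_lit 19) 
(.lf (nat_lit 1006878849) (dlOf (nat_lit 1) (nat_lit 0x80080004002000200080c0103))) 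
(.nd (nat_lit 21) (.lf (nat_lit 6376112257) (dlOf (nat_lit 1) (nat_lit 0x400400020018090302))) 
(.lf (nat_lit 6378209409) (dlOf (nat_lit 1) (nat_lit 0x400400020008123a02)))))))) (.nd (nat_lit 28) 
(.nd (nat_lit 8) (.nd (nat_lit 19) (.nd (nat_lit 9) (.nd (nat_lit 21) 
(.lf (nat_lit 63160385) (dlOf (nat_lit 2) (nat_lit 0x50cfc0015102002200199e0601))) 
(.lf (nat_lit 56868929) (dlOf (nat_lit 1) (nat_lit 0x8008000400200020009770603)))) 
(.lf (nat_lit 31705665) (dlOf (nat_lit 1) (nat_lit 0xc00200020008e95202)))) (.nd (nat_lit 9) 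
(.nd (nat_lit 10) (.nd (nat_lit 20) 
(.lf (nat_lit 2754330689) (dlOf (nat_lit 5) (nat_lit 0x387f400183ce0007d04001c1fd00070f38001d41000687f4001c3ce000740400241fd00090f38001cc10008000800f0002000400080d0b83))) 
(.lf (nat_lit 45858881) (dlOf (nat_lit 2) (nat_lit 0x3aef0002d7440047808000400400020009360602)))) 
(.lf (nat_lit 8111169) (dlOf (nat_lit 1) (nat_lit 0x28002001a0008512882)))) 
(.lf (nat_lit 20693569) (dlOf (nat_lit 1) (nat_lit 0x4002000200089d1582))))) (.nd (nat_lit 26) 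
(.nd (nat_lit 10) (.nd (nat_lit 21) 
(.lf (nat_lit 9683265) (dlOf (nat_lit 3) (nat_lit 0xa87f00021781001c3f800000008008000800b000200120008574c03))) 
(.lf (nat_lit 11780417) (dlOf (nat_lit 1) (nat_lit 0x30004001a00186c0602)))) 
(.lf (nat_lit 19651905) (dlOf (nat_lit 1) (nat_lit 0x600189dc901)))) (.nd (nat_lit 7) 
(.nd (nat_lit 9) 
(.lf (nat_lit 1677967681) (dlOf (nat_lit 4) (nat_lit 0x116012004e101000c02a80068028013460800200ac012401200020030000001800f0008004800200080008124c03))) 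
(.lf (nat_lit 202103617) (dlOf (nat_lit 1) (nat_lit 0x2a00180fbc81)))) 
(.lf (nat_lit 3959670721) (dlOf (nat_lit 1) (nat_lit 0x3000200120008114402)))))) (.nd (nat_lit 29) 
(.nd (nat_lit 27) (.nd (nat_lit 8) (.nd (nat_lit 19) 
(.lf (nat_lit 4563648577) (dlOf (nat_lit 6) (nat_lit 0x1301a0001180800800d00008a0400a0068000430200300340001f81002100f0000d008023000800a0002000600080b0503))) 
(.lf (nat_lit 3492528193) (dlOf (nat_lit 5) (nat_lit 0x387ac00183a40007d04001c1eb00070e90001d41000687ac001c3a4000740400241eb00090e90001cc10008000800f0002000400080d0b83)))) 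
(.lf (nat_lit 3489910081) (dlOf (nat_lit 1) (nat_lit 0x400400020008006902)))) (.nd (nat_lit 7) 
(.nd (nat_lit 8) 
(.lf (nat_lit 4697866305) (dlOf (nat_lit 6) (nat_lit 0x1301a0001240800800d0000900400a0068000460200300340001f81002100f0000d008023000800a0002000600080b0503))) 
(.lf (nat_lit 402899265) (dlOf (nat_lit 1) (nat_lit 0x880080008002000200080a5f83)))) 
(.lf (nat_lit 473679041) (dlOf (nat_lit 1) (nat_lit 0x20028fa2d01))))) (.nd (nat_lit 9) 
(.nd (nat_lit 7) (.nd (nat_lit 8) 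
(.lf (nat_lit 4228634689) (dlOf (nat_lit 1) (nat_lit 0xe000811a681))) 
(.lf (nat_lit 805552449) (dlOf (nat_lit 4) (nat_lit 0x1160120021681000c02a80068028008120800200ac012401200020030000001800f0008004800200080008124c03)))) 
(.lf (nat_lit 3020144833) (dlOf (nat_lit 1) (nat_lit 0x15c0018130401)))) (.nd (nat_lit 11) 
(.lf (nat_lit 805552705) (dlOf (nat_lit 3) (nat_lit 0xd009802a900800c004c0136004001800400120008128502))) 
(.nd (nat_lit 19) (.lf (nat_lit 1880345153) (dlOf (nat_lit 1) (nat_lit 0x40028865201))) 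
(.lf (nat_lit 1880869441) (dlOf (nat_lit 1) (nat_lit 0x1400200280008c35202))))))))) 
(.nd (nat_lit 6) (.nd (nat_lit 28) (.nd (nat_lit 24) (.nd (nat_lit 29) (.nd (nat_lit 19) 
(.nd (nat_lit 20) (.nd (nat_lit 21) 
(.lf (nat_lit 13090817) (dlOf (nat_lit 8) (nat_lit 0x98fc0058c500036610001b2dc80718c2000798fc0004c50000261000012dc8071882000118fc0020c50001261000092dc8071802000698fc0020c50001261000092dc8071782000098fc0048c500036610001b2dc806f582000618fc037aa040044c7e00126280006308000496e4037a61001b8004001400086f0002))) 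
(.lf (nat_lit 10993665) (dlOf (nat_lit 1) (nat_lit 0x24004001e0008650002)))) (.nd (nat_lit 21) 
(.lf (nat_lit 9945089) (dlOf (nat_lit 2) (nat_lit 0x3327f000a9378003094600523cf00e8f848590000))) 
(.lf (nat_lit 37208065) (dlOf (nat_lit 1) (nat_lit 0x600190c0001))))) (.nd (nat_lit 20) 
(.nd (nat_lit 21) (.lf (nat_lit 68141057) (dlOf (nat_lit 1) (nat_lit 0x80080024002001e0008400003))) 
(.lf (nat_lit 11517953) (dlOf (nat_lit 2) (nat_lit 0xcae80168302000400186b0001)))) 
(.lf (nat_lit 14663681) (dlOf (nat_lit 1) (nat_lit 0x400200020008770002))))) (.nd (nat_lit 30) 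
(.nd (nat_lit 7) (.nd (nat_lit 9) 
(.lf (nat_lit 738705409) (dlOf (nat_lit 4) (nat_lit 0x2a029005d440801601480255604001c00a0000002000400280e0001))) 
(.lf (nat_lit 537379329) (dlOf (nat_lit 2) (nat_lit 0x4054000b4018090d80)))) 
(.lf (nat_lit 537378945) (dlOf (nat_lit 1) (nat_lit 0x20028090101)))) (.nd (nat_lit 26) 
(.nd (nat_lit 27) 
(.lf (nat_lit 1611120641) (dlOf (nat_lit 4) (nat_lit 0x2a02900570c0801601480255a04001c00a0000002000400280e0001))) 
(.lf (nat_lit 3892822017) (dlOf (nat_lit 1) (nat_lit 0x80008280001)))) 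
(.lf (nat_lit 1678229505) (dlOf (nat_lit 1) (nat_lit 0x28004000200181b0002)))))) (.nd (nat_lit 19) 
(.nd (nat_lit 7) (.nd (nat_lit 22) 
(.lf (nat_lit 18333697) (dlOf (nat_lit 1) (nat_lit 0x20008001400200040008920003))) 
(.lf (nat_lit 22528001) (dlOf (nat_lit 1) (nat_lit 0x400400260018af0002)))) (.nd (nat_lit 9) 
(.lf (nat_lit 23576705) (dlOf (nat_lit 1) (nat_lit 0x8008000400200020008b80103))) 
(.lf (nat_lit 61326977) (dlOf (nat_lit 4) (nat_lit 0x1254b60012a5900045288000a93c000ac1000254b60005302000ca5b000152c8002a93c000260c0108004000c0009923982))))) 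
(.nd (nat_lit 20) (.nd (nat_lit 22) 
(.lf (nat_lit 17809409) (dlOf (nat_lit 1) (nat_lit 0x380080024002006600088f0003))) 
(.lf (nat_lit 22003713) (dlOf (nat_lit 1) (nat_lit 0x8008000400200020008a90003)))) 
(.lf (nat_lit 25149441) (dlOf (nat_lit 1) (nat_lit 0x800200c80008be0002)))))) (.nd (nat_lit 26) 
(.nd (nat_lit 8) (.nd (nat_lit 10) (.nd (nat_lit 20) (.nd (nat_lit 29) 
(.lf (nat_lit 1342685185) (dlOf (nat_lit 2) (nat_lit 0x1b444c002a1a30065f8280c0000))) 
(.lf (nat_lit 805814273) (dlOf (nat_lit 1) (nat_lit 0x28004000200181b0002)))) 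
(.lf (nat_lit 1343733761) (dlOf (nat_lit 1) (nat_lit 0x20018350001)))) 
(.lf (nat_lit 1344783361) (dlOf (nat_lit 1) (nat_lit 0x1c00400060008982882)))) (.nd (nat_lit 9) 
(.lf (nat_lit 1342685441) (dlOf (nat_lit 2) (nat_lit 0xac44c00741f30003e0280c0480))) 
(.lf (nat_lit 4563913473) (dlOf (nat_lit 1) (nat_lit 0xc0008125a81))))) (.nd (nat_lit 27) 
(.nd (nat_lit 7) (.lf (nat_lit 1409794561) (dlOf (nat_lit 2) (nat_lit 0x4054000b4018090d80))) 
(.lf (nat_lit 1409794177) (dlOf (nat_lit 1) (nat_lit 0x20028090101)))) (.nd (nat_lit 8) 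
(.nd (nat_lit 19) 
(.lf (nat_lit 470269953) (dlOf (nat_lit 2) (nat_lit 0x1b444c002a1b30038a8280c0000))) 
(.lf (nat_lit 473939969) (dlOf (nat_lit 2) (nat_lit 0xd820c00ffa04001800400280008fc0002)))) 
(.lf (nat_lit 470270209) (dlOf (nat_lit 2) (nat_lit 0xac44c00741f20003e0280c0480))))))) 
(.nd (nat_lit 21) (.nd (nat_lit 26) (.nd (nat_lit 7) (.nd (nat_lit 9) 
(.lf (nat_lit 21479489) (dlOf (nat_lit 1) (nat_lit 0x5c00400040008a40482))) 
(.lf (nat_lit 8901185) (dlOf (nat_lit 1) (nat_lit 0x800400020008518982)))) (.nd (nat_lit 8) 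
(.lf (nat_lit 51365057) (dlOf (nat_lit 1) (nat_lit 0x18008000c00200020009512d03))) 
(.lf (nat_lit 5771873217) (dlOf (nat_lit 1) (nat_lit 0x400200020008005d82))))) (.nd (nat_lit 30) 
(.nd (nat_lit 7) (.lf (nat_lit 2756165697) (dlOf (nat_lit 1) (nat_lit 0x1380018211401))) 
(.lf (nat_lit 2751973313) (dlOf (nat_lit 1) (nat_lit 0x400200020008004402)))) (.nd (nat_lit 20) 
(.lf (nat_lit 1678229569) (dlOf (nat_lit 5) (nat_lit 0x64027801d812c00300000003106004c04b00030000000c0100078148009401c001800c00260000000a820004800000052040070002001000081b0d02))) 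
(.lf (nat_lit 4095197249) (dlOf (nat_lit 1) (nat_lit 0xb00008070501)))))) (.nd (nat_lit 9) 
(.nd (nat_lit 7) (.nd (nat_lit 10) (.nd (nat_lit 19) 
(.lf (nat_lit 1009238081) (dlOf (nat_lit 3) (nat_lit 0x31838c00881c400ca076000a8830034071801e01d80026e0800dc004001400190a0602))) 
(.lf (nat_lit 473940033) (dlOf (nat_lit 32) (nat_lit 0xda0b0038a03641c301b000dc09c00cd046801e023004240fa021407c001248803ba06c80f28360004900808342c0023e14d085106c844f036006cc138042608d01c8046012601f409400f8002471202f40d900f206c000914100020268004860400081aa000e09a00040450008fc180a6836404981b00021f0400120d9004406c0008401007b8364008c1b00020c0400900d80010481015106c804d8360003f80802e81b200680d8000fd02014d06c80378360003f00807b81b2001f70202de0d900c606c0007cc1011e036404741b0001f20400b20d9000f88100ca0b0037f036400101b000ac09c00c6046807181f400fc056001f00e01ee0d9000f781002d0ae8016035400a4114001c70600040d5000e28100100ae800403540037a0800201340017102052e15f02660af00668554004c1d805080d7022306b0158026c0ab81160015410036015f016006b808b026c04341160015308010615f003406b80045410005035c001f60406c02be03640d70007c8201d30af8077055407a01ae000f406027c15f012906b8003cc10015057c0012804025800400180008fc0602))))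 
(.lf (nat_lit 57132097) (dlOf (nat_lit 1) (nat_lit 0x6000400020009792882)))) (.nd (nat_lit 19) 
(.lf (nat_lit 472369601) (dlOf (nat_lit 1) (nat_lit 0x48008000400200080008984e83))) 
(.lf (nat_lit 58706369) (dlOf (nat_lit 1) (nat_lit 0x80080008002000200097e4e83))))) 
(.nd (nat_lit 7) (.nd (nat_lit 8) (.nd (nat_lit 22) 
(.lf (nat_lit 1345309249) (dlOf (nat_lit 2) (nat_lit 0x2408a000300200040028b55201))) 
(.lf (nat_lit 32492097) (dlOf (nat_lit 2) (nat_lit 0x35aec000be040008002000a0008ef5202)))) 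
(.lf (nat_lit 19909441) (dlOf (nat_lit 1) (nat_lit 0x4002000200089d5c02)))) 
(.lf (nat_lit 19913409) (dlOf (nat_lit 1) (nat_lit 0x4002000200089db982)))))))) (.nd (nat_lit 18) 
(.nd (nat_lit 19) (.nd (nat_lit 7) (.nd (nat_lit 28) (.nd (nat_lit 6) (.nd (nat_lit 20) 
(.nd (nat_lit 22) (.lf (nat_lit 44285985) (dlOf (nat_lit 1) (nat_lit 0x1200192e0181))) 
(.nd (nat_lit 23) (.lf (nat_lit 56868897) (dlOf (nat_lit 1) (nat_lit 0x5c0019770181))) 
(.lf (nat_lit 14925857) (dlOf (nat_lit 2) (nat_lit 0x726280006c0800700080004002000c0008790183))))) 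
(.nd (nat_lit 8) (.lf (nat_lit 18071585) (dlOf (nat_lit 1) (nat_lit 0x8008000400200040008900a83))) 
(.lf (nat_lit 1294625) (dlOf (nat_lit 1) (nat_lit 0x600180a4281))))) (.nd (nat_lit 8) 
(.nd (nat_lit 10) (.lf (nat_lit 19120225) (dlOf (nat_lit 1) (nat_lit 0xc0028970481))) 
(.lf (nat_lit 2818825313) (dlOf (nat_lit 11) (nat_lit 0xd02100014c0801480d8000a20400c006c000500200060360002601000301b0001180801600d80008a0400c406c0003d0200020360000201001401b00000c0800c00d8000040401380040006000812c002)))) 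
(.nd (nat_lit 11) (.nd (nat_lit 22) 
(.lf (nat_lit 3758342497) (dlOf (nat_lit 2) (nat_lit 0xc0460000002004e0008130901))) 
(.lf (nat_lit 4440417) (dlOf (nat_lit 1) (nat_lit 0xc0018290901)))) 
(.lf (nat_lit 2751715681) (dlOf (nat_lit 1) (nat_lit 0x40040002000800ab82)))))) (.nd (nat_lit 27) 
(.nd (nat_lit 8) (.lf (nat_lit 1343471649) (dlOf (nat_lit 1) (nat_lit 0x3c0028260681))) 
(.nd (nat_lit 10) 
(.lf (nat_lit 3490955553) (dlOf (nat_lit 6) (nat_lit 0x2a0890052a0100190448029480800502240148e04008811200a3d02004a08c001c0458028ac100088008002c002000a0008047803))) 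
(.lf (nat_lit 872662305) (dlOf (nat_lit 1) (nat_lit 0x40008093101))))) (.nd (nat_lit 6) 
(.nd (nat_lit 30) (.nd (nat_lit 31) 
(.lf (nat_lit 402898977) (dlOf (nat_lit 1) (nat_lit 0x4004000200080a0782))) 
(.lf (nat_lit 2550382625) (dlOf (nat_lit 1) (nat_lit 0x400400020008090002)))) 
(.lf (nat_lit 1476640801) (dlOf (nat_lit 1) (nat_lit 0xa00280c0681)))) 
(.lf (nat_lit 474203745) (dlOf (nat_lit 1) (nat_lit 0x80080008002000200090e3903)))))) 
(.nd (nat_lit 8) (.nd (nat_lit 20) (.nd (nat_lit 9) (.nd (nat_lit 10) 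
(.lf (nat_lit 5972934817) (dlOf (nat_lit 1) (nat_lit 0x4004000200081a4602))) 
(.lf (nat_lit 1881392289) (dlOf (nat_lit 1) (nat_lit 0xc00400020008f02b82)))) 
(.lf (nat_lit 6509809313) (dlOf (nat_lit 1) (nat_lit 0x400400020008147202)))) (.nd (nat_lit 6) 
(.nd (nat_lit 23) (.lf (nat_lit 2752757921) (dlOf (nat_lit 1) (nat_lit 0x400400020008044602))) 
(.lf (nat_lit 9683105) (dlOf (nat_lit 1) (nat_lit 0x20018571381)))) 
(.lf (nat_lit 20175585) (dlOf (nat_lit 1) (nat_lit 0x28008000c002000400089db983))))) 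
(.nd (nat_lit 6) (.nd (nat_lit 22) 
(.lf (nat_lit 1677967777) (dlOf (nat_lit 1) (nat_lit 0xa80080038002007a0008126b83))) 
(.lf (nat_lit 2755903905) (dlOf (nat_lit 1) (nat_lit 0x800181b0781)))) (.nd (nat_lit 9) 
(.nd (nat_lit 20) (.lf (nat_lit 1543750113) (dlOf (nat_lit 1) (nat_lit 0x120018157281))) 
(.lf (nat_lit 1294817) (dlOf (nat_lit 1) (nat_lit 0x18004002600180a7282)))) 
(.lf (nat_lit 61064161) (dlOf (nat_lit 2) (nat_lit 0x4593000f98198c2880))))))) (.nd (nat_lit 20) 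
(.nd (nat_lit 21) (.nd (nat_lit 6) (.nd (nat_lit 28) (.nd (nat_lit 22) 
(.lf (nat_lit 9158689) (dlOf (nat_lit 1) (nat_lit 0x780008520781))) 
(.lf (nat_lit 4964385) (dlOf (nat_lit 2) (nat_lit 0x6679000b3310000701000200080010002000400082e0603)))) 
(.nd (nat_lit 26) 
(.lf (nat_lit 1342947361) (dlOf (nat_lit 2) (nat_lit 0x2504920003102000c0008110b01))) 
(.lf (nat_lit 470532129) (dlOf (nat_lit 2) (nat_lit 0x2504920003102000c0008110b01))))) 
(.nd (nat_lit 7) (.lf (nat_lit 9159009) (dlOf (nat_lit 1) (nat_lit 0x2a800201a60008527302))) 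
(.lf (nat_lit 17547489) (dlOf (nat_lit 2) (nat_lit 0x444b1000108188e0580))))) (.nd (nat_lit 26) 
(.nd (nat_lit 23) (.nd (nat_lit 31) 
(.lf (nat_lit 1345044513) (dlOf (nat_lit 1) (nat_lit 0x1f8008001c002000c00089d0683))) 
(.lf (nat_lit 3492528161) (dlOf (nat_lit 1) (nat_lit 0x400180d0881)))) 
(.lf (nat_lit 28033057) (dlOf (nat_lit 1) (nat_lit 0x400200020008d50602)))) (.nd (nat_lit 27) 
(.lf (nat_lit 2754330657) (dlOf (nat_lit 1) (nat_lit 0x400180d0881))) 
(.lf (nat_lit 472629281) (dlOf (nat_lit 2) (nat_lit 0x100ea0004602000400089d0681)))))) 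
(.nd (nat_lit 21) (.nd (nat_lit 28) (.nd (nat_lit 6) (.nd (nat_lit 10) 
(.lf (nat_lit 18595873) (dlOf (nat_lit 2) (nat_lit 0xa3a2003048080030008009400200240008950683))) 
(.lf (nat_lit 47957025) (dlOf (nat_lit 1) (nat_lit 0x740009402881)))) 
(.lf (nat_lit 2753282529) (dlOf (nat_lit 1) (nat_lit 0x19a0008090c01)))) (.nd (nat_lit 6) 
(.nd (nat_lit 26) 
(.lf (nat_lit 5773180961) (dlOf (nat_lit 2) (nat_lit 0x700000008c04004c002003600080b0182))) 
(.lf (nat_lit 6377160737) (dlOf (nat_lit 2) (nat_lit 0x700000008c04004c002003600080b0182)))) 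
(.lf (nat_lit 3491480033) (dlOf (nat_lit 1) (nat_lit 0x19a0008090c01))))) (.nd (nat_lit 9) 
(.nd (nat_lit 23) 
(.lf (nat_lit 3915809) (dlOf (nat_lit 6) (nat_lit 0x65580004244000211c8000940c00249100003d02000a48800042390000ec10002122000148e40003a04000e5580006244000311c8000720c0028004000a0018250b02))) 
(.lf (nat_lit 45858849) (dlOf (nat_lit 2) (nat_lit 0x5caef0007d7440007c080020004000c0009360182)))) 
(.lf (nat_lit 20696609) (dlOf (nat_lit 1) (nat_lit 0x300080020002000c00089d7183))))))) 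
(.nd (nat_lit 28) (.nd (nat_lit 19) (.nd (nat_lit 23) (.nd (nat_lit 26) (.nd (nat_lit 24) 
(.nd (nat_lit 7) (.lf (nat_lit 34062369) (dlOf (nat_lit 1) (nat_lit 0x8008002800200020008fa0683))) 
(.lf (nat_lit 3892822177) (dlOf (nat_lit 1) (nat_lit 0x88008011800200460008280483)))) 
(.nd (nat_lit 6) (.lf (nat_lit 50840097) (dlOf (nat_lit 1) (nat_lit 0x3c004002a00094d8702))) 
(.lf (nat_lit 55033953) (dlOf (nat_lit 1) (nat_lit 0x1e0029690781))))) (.nd (nat_lit 30) 
(.nd (nat_lit 7) (.lf (nat_lit 6510068001) (dlOf (nat_lit 1) (nat_lit 0x200281a7801))) 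
(.lf (nat_lit 2886189217) (dlOf (nat_lit 1) (nat_lit 0x1c004000e0008184602)))) (.nd (nat_lit 6) 
(.lf (nat_lit 1678229537) (dlOf (nat_lit 5) (nat_lit 0x1e205600b6029805f004c02e280c03980ac015205300b1009805c4c1805e815802000a6011001300b890300490098000000802e000800c8002006000081b0903))) 
(.lf (nat_lit 1678229601) (dlOf (nat_lit 1) (nat_lit 0x2780080040002005000081b1283)))))) 
(.nd (nat_lit 21) (.nd (nat_lit 6) (.nd (nat_lit 22) 
(.lf (nat_lit 26722337) (dlOf (nat_lit 1) (nat_lit 0x20028c60601))) 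
(.lf (nat_lit 30916641) (dlOf (nat_lit 1) (nat_lit 0x20008e50a81)))) 
(.lf (nat_lit 25674081) (dlOf (nat_lit 1) (nat_lit 0x400200020008c10902)))) (.nd (nat_lit 22) 
(.lf (nat_lit 45596705) (dlOf (nat_lit 2) (nat_lit 0x3b12800038080010008001000200040009340183))) 
(.lf (nat_lit 16236577) (dlOf (nat_lit 2) (nat_lit 0x893180010e04000400200020008870602)))))) 
(.nd (nat_lit 6) (.nd (nat_lit 21) (.nd (nat_lit 26) (.nd (nat_lit 22) 
(.lf (nat_lit 9420833) (dlOf (nat_lit 1) (nat_lit 0x1c00400020008550582))) 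
(.lf (nat_lit 38780961) (dlOf (nat_lit 1) (nat_lit 0x60009150181)))) (.nd (nat_lit 8) 
(.lf (nat_lit 68141089) (dlOf (nat_lit 1) (nat_lit 0x20008400181))) 
(.lf (nat_lit 2752495905) (dlOf (nat_lit 1) (nat_lit 0x20028014281))))) (.nd (nat_lit 10) 
(.lf (nat_lit 25149473) (dlOf (nat_lit 1) (nat_lit 0x20008be0b01))) 
(.lf (nat_lit 61850657) (dlOf (nat_lit 1) (nat_lit 0x60019922881))))) (.nd (nat_lit 9) 
(.nd (nat_lit 7) (.lf (nat_lit 51363937) (dlOf (nat_lit 1) (nat_lit 0x10008001000200060009510083))) 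
(.nd (nat_lit 10) (.lf (nat_lit 30392545) (dlOf (nat_lit 2) (nat_lit 0x44a4600010818e30580))) 
(.lf (nat_lit 19911905) (dlOf (nat_lit 1) (nat_lit 0x200189d9501))))) (.nd (nat_lit 11) 
(.lf (nat_lit 8377057) (dlOf (nat_lit 1) (nat_lit 0x400200020008518c82))) 
(.lf (nat_lit 19913441) (dlOf (nat_lit 1) (nat_lit 0x4002000200089db982))))))) (.nd (nat_lit 26) 
(.nd (nat_lit 8) (.nd (nat_lit 29) (.nd (nat_lit 20) 
(.lf (nat_lit 5637652513) (dlOf (nat_lit 1) (nat_lit 0x2c0008140481))) 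
(.lf (nat_lit 1343733793) (dlOf (nat_lit 1) (nat_lit 0xa0018350681)))) (.nd (nat_lit 6) 
(.lf (nat_lit 805814305) (dlOf (nat_lit 5) (nat_lit 0x1e205600b6029805f004c02b5a0c03980ac015205300b10098056b01805e815802000a6011001300ad58300490098000000802e000800c8002006000081b0903))) 
(.lf (nat_lit 1881653345) (dlOf (nat_lit 1) (nat_lit 0x40008fa0781))))) (.nd (nat_lit 6) 
(.nd (nat_lit 27) 
(.lf (nat_lit 1342685473) (dlOf (nat_lit 2) (nat_lit 0x1788980004a040004004003a00080c0502))) 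
(.lf (nat_lit 3624386849) (dlOf (nat_lit 8) (nat_lit 0x680540154c0400e4036002e0120052f02000b01300048090003c0460012021000600f8001806c006002a002001200080030029704802f00f8002806e000e0350026000002950200030114005008800b203e000701e000500e800f006e0026035002b0000029484000580f801a806e00320150052383001d01b8028f40811e8008021800205da0008187803)))) 
(.lf (nat_lit 3492796385) (dlOf (nat_lit 1) (nat_lit 0x4004000200180fa602))))) (.nd (nat_lit 8) 
(.nd (nat_lit 27) (.nd (nat_lit 29) (.nd (nat_lit 31) 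
(.lf (nat_lit 1409794081) (dlOf (nat_lit 1) (nat_lit 0x400400020008090002))) 
(.lf (nat_lit 3557277729) (dlOf (nat_lit 15) (nat_lit 0x9781c802440de00be061007a02f0005816c08c408a001e042000c01f800500e0006c06c00b6034005ea8b001903c008581c8025c0de0046061007902f000b016c34a408a0006043000b02100f900e0004c06c00b80340002019801000b0004805402b602200ea00d802f508800e01e004a80e4013206f000d032001f818401f80bc003005b0d2f0228009010c006c084002e03f021301c001400d801ac068004602c01700110070006c0179e4402280e400b605e000b022802f381800101e004900e400ea06f006302f0003816c28e008a0006042001001f80f580e0003c06c00ba034015c011002f246008a81c800e40de000c064004c02f06980114000c0880004042000401f801800e00150068000602200de00d802f206001b81c80177c04054c0e4011c061000601f802ef41800101c8014007000bb8040116072005db81012a03900ac00e0054004400bae060216072000701f802eb41001101c80174e0405cc0e40174061000201f802d14180e0000801b800203180008190703)))) 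
(.lf (nat_lit 6241632289) (dlOf (nat_lit 1) (nat_lit 0x2c0008140481)))) (.nd (nat_lit 19) 
(.lf (nat_lit 1007140897) (dlOf (nat_lit 1) (nat_lit 0x3800081c0601))) 
(.lf (nat_lit 473940001) (dlOf (nat_lit 6) (nat_lit 0x92c2ac00b21430c4709d85b684e409f819a01440cc006806580c7025801f011a0398085006104180f481d407800e60000e1a00da13b0000681024f0ab061104ec090019a03040960187042809c01d4000181805c82ac16f413b0a9d09c80d70334037812c023e0850022041809d81d404bc0e60000a1204ba1560c4409d812b8334065012c0338085013b03a800000300508008006400200320008fc0183))))) 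
(.nd (nat_lit 7) (.nd (nat_lit 19) 
(.lf (nat_lit 470270241) (dlOf (nat_lit 2) (nat_lit 0x1788980004a040004004003a00080c0502))) 
(.lf (nat_lit 471843105) (dlOf (nat_lit 1) (nat_lit 0x140028520701)))) 
(.lf (nat_lit 1008191905) (dlOf (nat_lit 1) (nat_lit 0x20028aa4e81))))))))) (.nd (nat_lit 5) 
(.nd (nat_lit 6) (.nd (nat_lit 19) (.nd (nat_lit 27) (.nd (nat_lit 10) (.nd (nat_lit 20) 
(.nd (nat_lit 18) (.nd (nat_lit 21) (.nd (nat_lit 11) (.nd (nat_lit 22) 
(.lf (nat_lit 1342423049) (dlOf (nat_lit 3) (nat_lit 0xc39a001ca0200041cd000d5818020480))) 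
(.lf (nat_lit 2755903497) (dlOf (nat_lit 1) (nat_lit 0x4004000200181b0002)))) 
(.lf (nat_lit 247817) (dlOf (nat_lit 1) (nat_lit 0x800400020008004702)))) (.nd (nat_lit 7) 
(.lf (nat_lit 10731529) (dlOf (nat_lit 1) (nat_lit 0x8008010c002001a0008620483))) 
(.lf (nat_lit 2343049) (dlOf (nat_lit 1) (nat_lit 0x3e0008150101))))) (.nd (nat_lit 9) 
(.lf (nat_lit 2416427017) (dlOf (nat_lit 1) (nat_lit 0x600080010002001400081d0003))) 
(.lf (nat_lit 50840073) (dlOf (nat_lit 6) (nat_lit 0x539d0004b4080039ce800204040020e740010102001e74400113a18000f4100059d100024e860003c04000600194d8001))))) 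
(.nd (nat_lit 24) (.nd (nat_lit 7) 
(.lf (nat_lit 3490955529) (dlOf (nat_lit 1) (nat_lit 0x20018047301))) 
(.lf (nat_lit 3493054601) (dlOf (nat_lit 1) (nat_lit 0x8004000200080f4802)))) (.nd (nat_lit 18) 
(.lf (nat_lit 18071561) (dlOf (nat_lit 3) (nat_lit 0x12cc8002700800196640011a040014002000a0008900582))) 
(.lf (nat_lit 30916617) (dlOf (nat_lit 2) (nat_lit 0x32cb80011a040040002000e0008e50582)))))) 
(.nd (nat_lit 8) (.nd (nat_lit 7) (.nd (nat_lit 9) 
(.lf (nat_lit 39306249) (dlOf (nat_lit 1) (nat_lit 0x400200020009192882))) 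
(.lf (nat_lit 4832085513) (dlOf (nat_lit 1) (nat_lit 0x4004000200080d3682)))) 
(.lf (nat_lit 1610860169) (dlOf (nat_lit 1) (nat_lit 0x400400020008093a02)))) (.nd (nat_lit 21) 
(.lf (nat_lit 872662281) (dlOf (nat_lit 1) (nat_lit 0x20008000800200020008092f83))) 
(.lf (nat_lit 35898633) (dlOf (nat_lit 1) (nat_lit 0x60019012f81)))))) (.nd (nat_lit 26) 
(.nd (nat_lit 18) (.nd (nat_lit 28) 
(.lf (nat_lit 134463497) (dlOf (nat_lit 5) (nat_lit 0x5025000400bc0013808004c094002c02f0004b020006025000400bc0011a08001c094000c02f00042828030480))) 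
(.lf (nat_lit 939769865) (dlOf (nat_lit 6) (nat_lit 0xe00b0009d81000900580008000002720800180160012602001a00b0008f810006005800360080030008003000200ae0008170483)))) 
(.nd (nat_lit 8) (.nd (nat_lit 28) 
(.lf (nat_lit 2819080201) (dlOf (nat_lit 15) (nat_lit 0x9781c802440de00be06a007a02f0005816c003c0960462042000c01f800d80f0002806c00b6034003200b001903c008581c8025c0de004606a007902f000b016c002c0961a520420003020000980f007c806c00b80340002019801000b0004805402b602200ea00d8018fc8800e01e004a80e4013206f003f0350006818401f80bc003005b001b025869781080048080002e03f002801e010980d801ac068004602c01700110070006c00c784402280e400b605e000b0210018e41800101e004900e400ea06f006302f0003816c000c0961470042001001f800780f007ac06c00ba034015c0110018d86008a81c800e40de000c061004c02f0001012c34c00840006041000401f801800d80150068000602200de00d8018cc6001b81c800c5204054c0e4011c06a000601f8018a01800101c8014006c006250401160720031101012a03900ac00d805400440061b060216072000701f8018601001101c800c240405cc0e4017406a000201f8016e4180e0000801b800203180008190283)))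 
(.lf (nat_lit 2550644745) (dlOf (nat_lit 1) (nat_lit 0x600080010002001400081d0003)))) 
(.lf (nat_lit 3892822281) (dlOf (nat_lit 1) (nat_lit 0x6c00200a80008280702))))) (.nd (nat_lit 28) 
(.nd (nat_lit 29) 
(.lf (nat_lit 201572361) (dlOf (nat_lit 5) (nat_lit 0x5025000400bc0013808004c094002c02f0004b020006025000400bc0011a08001c094000c02f00042828030480))) 
(.lf (nat_lit 1812185097) (dlOf (nat_lit 6) (nat_lit 0xe00b0009d81000900580008000002720800180160012702001a00b0008d010006005800360080030008003000200ae0008170483)))) 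
(.nd (nat_lit 20) (.nd (nat_lit 30) 
(.lf (nat_lit 470007817) (dlOf (nat_lit 3) (nat_lit 0xc39a001390200041cd0008e818020480))) 
(.lf (nat_lit 3691233289) (dlOf (nat_lit 1) (nat_lit 0x80080004002000200080c0283)))) 
(.lf (nat_lit 471056393) (dlOf (nat_lit 1) (nat_lit 0x20008260281))))))) (.nd (nat_lit 18) 
(.nd (nat_lit 26) (.nd (nat_lit 10) (.nd (nat_lit 7) (.nd (nat_lit 20) 
(.lf (nat_lit 3492528137) (dlOf (nat_lit 3) (nat_lit 0x987b4000fa0402303f401541ed00040ac0001f01800b800800cc002000600080d0483))) 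
(.lf (nat_lit 5773180937) (dlOf (nat_lit 1) (nat_lit 0xf000200b000080b0002)))) 
(.lf (nat_lit 12304521) (dlOf (nat_lit 1) (nat_lit 0xc004000200086c0102)))) (.nd (nat_lit 8) 
(.lf (nat_lit 36422665) (dlOf (nat_lit 1) (nat_lit 0x20019072881))) 
(.lf (nat_lit 36422921) (dlOf (nat_lit 1) (nat_lit 0x1000200040009072f82))))) (.nd (nat_lit 21) 
(.nd (nat_lit 7) (.lf (nat_lit 6377160713) (dlOf (nat_lit 1) (nat_lit 0xf000200b000080b0002))) 
(.lf (nat_lit 6376112265) (dlOf (nat_lit 1) (nat_lit 0x100018090381)))) (.nd (nat_lit 8) 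
(.lf (nat_lit 2754330633) (dlOf (nat_lit 3) (nat_lit 0x987fc000fa04023041e01541ff00040ae8001f01800b800800cc002000600080d0483))) 
(.lf (nat_lit 69976329) (dlOf (nat_lit 1) (nat_lit 0x1000200080008e37c82)))))) (.nd (nat_lit 21) 
(.nd (nat_lit 23) (.nd (nat_lit 10) (.nd (nat_lit 20) 
(.lf (nat_lit 17809417) (dlOf (nat_lit 1) (nat_lit 0x400188f0481))) 
(.lf (nat_lit 18857993) (dlOf (nat_lit 1) (nat_lit 0x400400020008970002)))) 
(.lf (nat_lit 56607753) (dlOf (nat_lit 1) (nat_lit 0x20009732881)))) (.nd (nat_lit 24) 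
(.lf (nat_lit 10469385) (dlOf (nat_lit 1) (nat_lit 0x80080004002000200085e0583))) 
(.lf (nat_lit 27246601) (dlOf (nat_lit 1) (nat_lit 0xe0018cc0281))))) (.nd (nat_lit 7) 
(.nd (nat_lit 8) (.lf (nat_lit 25149449) (dlOf (nat_lit 1) (nat_lit 0x20018be0801))) 
(.lf (nat_lit 19913481) (dlOf (nat_lit 1) (nat_lit 0x4002000200089db982)))) (.nd (nat_lit 8) 
(.lf (nat_lit 8373897) (dlOf (nat_lit 1) (nat_lit 0x25800200040008513a02))) 
(.lf (nat_lit 19909513) (dlOf (nat_lit 1) (nat_lit 0x4002000200089d5c02)))))))) (.nd (nat_lit 28) 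
(.nd (nat_lit 9) (.nd (nat_lit 18) (.nd (nat_lit 19) (.nd (nat_lit 29) (.nd (nat_lit 7) 
(.lf (nat_lit 63160393) (dlOf (nat_lit 1) (nat_lit 0x4004000a00099e0602))) 
(.lf (nat_lit 2343113) (dlOf (nat_lit 1) (nat_lit 0x8c0008037000201bc0008150483)))) 
(.nd (nat_lit 26) (.lf (nat_lit 537116745) (dlOf (nat_lit 1) (nat_lit 0x6000200140008020882))) 
(.lf (nat_lit 3825451081) (dlOf (nat_lit 7) (nat_lit 0x7240000003f0200600000001d81022c0120096808c006c040027e01d002e00c80e1803c006c00e01ca00000009080023012000080000002208047804800ac00f00f100000003c182a480281568010034600105470000000002002e0008021800200020008160883))))) 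
(.nd (nat_lit 7) (.nd (nat_lit 11) 
(.lf (nat_lit 45858889) (dlOf (nat_lit 3) (nat_lit 0x42ba20023b0201235de00117019360600))) 
(.lf (nat_lit 134993993) (dlOf (nat_lit 1) (nat_lit 0x600180fa681)))) 
(.lf (nat_lit 9158857) (dlOf (nat_lit 1) (nat_lit 0xa8008001800200d80008523983))))) 
(.nd (nat_lit 7) (.nd (nat_lit 19) (.nd (nat_lit 20) 
(.lf (nat_lit 2756165705) (dlOf (nat_lit 1) (nat_lit 0x40008211481))) 
(.lf (nat_lit 2755117129) (dlOf (nat_lit 2) (nat_lit 0x80340004018c00200840008023000800f0000e4280018008000400200060008110883)))) 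
(.lf (nat_lit 68141129) (dlOf (nat_lit 1) (nat_lit 0x20008000800200040008400683)))) 
(.nd (nat_lit 8) (.lf (nat_lit 4362584265) (dlOf (nat_lit 1) (nat_lit 0x400200020008090482))) 
(.lf (nat_lit 37734857) (dlOf (nat_lit 1) (nat_lit 0x200090d4e81)))))) (.nd (nat_lit 19) 
(.nd (nat_lit 26) (.nd (nat_lit 8) 
(.lf (nat_lit 537379401) (dlOf (nat_lit 2) (nat_lit 0x201540000004001c00200020008091182))) 
(.nd (nat_lit 21) (.lf (nat_lit 60017481) (dlOf (nat_lit 1) (nat_lit 0x60029845c01))) 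
(.lf (nat_lit 20171593) (dlOf (nat_lit 1) (nat_lit 0x4002000200089d5c02))))) (.nd (nat_lit 7) 
(.nd (nat_lit 8) 
(.lf (nat_lit 1677967945) (dlOf (nat_lit 3) (nat_lit 0xa30288003812c020c0740002306012c051007c01d0000781002480080074002003a0008128d03))) 
(.lf (nat_lit 738446153) (dlOf (nat_lit 1) (nat_lit 0x60028095c01)))) 
(.lf (nat_lit 4496542665) (dlOf (nat_lit 1) (nat_lit 0x258004000400080e5d82))))) (.nd (nat_lit 7) 
(.nd (nat_lit 10) (.nd (nat_lit 18) 
(.lf (nat_lit 46910281) (dlOf (nat_lit 1) (nat_lit 0x8008000400200020009385c03))) 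
(.lf (nat_lit 54512457) (dlOf (nat_lit 1) (nat_lit 0x20029655c01)))) 
(.lf (nat_lit 8113993) (dlOf (nat_lit 1) (nat_lit 0x20018517781)))) (.nd (nat_lit 11) 
(.nd (nat_lit 18) (.lf (nat_lit 19649225) (dlOf (nat_lit 1) (nat_lit 0x200189d8c81))) 
(.lf (nat_lit 19911369) (dlOf (nat_lit 1) (nat_lit 0x80080004002000200089d8c83)))) 
(.lf (nat_lit 19651273) (dlOf (nat_lit 1) (nat_lit 0x4002000200089db982))))))) (.nd (nat_lit 7) 
(.nd (nat_lit 18) (.nd (nat_lit 26) (.nd (nat_lit 27) 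
(.lf (nat_lit 4563648585) (dlOf (nat_lit 1) (nat_lit 0x8200080b0601))) (.nd (nat_lit 29) 
(.lf (nat_lit 4697866313) (dlOf (nat_lit 1) (nat_lit 0x8200080b0601))) 
(.lf (nat_lit 3087253577) (dlOf (nat_lit 7) (nat_lit 0x7240000003f0200600000001d81022c0120096808c006c040027e01d002e00c80e1803c006c00e01ca00000009080023012000080000002208047804800ac00f00f100000003c182a480281568010034600105470000000002002e0008021800200020008160883))))) 
(.nd (nat_lit 8) (.lf (nat_lit 1409531977) (dlOf (nat_lit 1) (nat_lit 0x6000200140008020882))) 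
(.lf (nat_lit 1008976201) (dlOf (nat_lit 1) (nat_lit 0x1b40009000c81))))) (.nd (nat_lit 26) 
(.nd (nat_lit 10) 
(.lf (nat_lit 3493314633) (dlOf (nat_lit 2) (nat_lit 0x80340004018c00200840008023000800f0000e4280018008000400200060008110883))) 
(.lf (nat_lit 1344783433) (dlOf (nat_lit 1) (nat_lit 0x1c00400060008982882)))) (.nd (nat_lit 9) 
(.lf (nat_lit 1009238089) (dlOf (nat_lit 4) (nat_lit 0x6a0e3003503b00053c1001b838c00d80ec000f70400720e3003903b0003d41001380080044002001200090a0603))) 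
(.lf (nat_lit 1409794633) (dlOf (nat_lit 2) (nat_lit 0x201540000004001c00200020008091182)))))) 
(.nd (nat_lit 8) (.nd (nat_lit 18) (.nd (nat_lit 26) (.nd (nat_lit 27) 
(.lf (nat_lit 6174262473) (dlOf (nat_lit 1) (nat_lit 0x4004000200080d2d82))) 
(.lf (nat_lit 5234738377) (dlOf (nat_lit 1) (nat_lit 0x200280d2d81)))) 
(.lf (nat_lit 5704500425) (dlOf (nat_lit 1) (nat_lit 0x200280d2d81)))) (.nd (nat_lit 9) 
(.nd (nat_lit 10) (.lf (nat_lit 4228366537) (dlOf (nat_lit 1) (nat_lit 0x400200020008090482))) 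
(.lf (nat_lit 5772920009) (dlOf (nat_lit 1) (nat_lit 0x400400c40008092d82)))) 
(.lf (nat_lit 4094151369) (dlOf (nat_lit 1) (nat_lit 0x80028005801))))) (.nd (nat_lit 30) 
(.nd (nat_lit 9) (.lf (nat_lit 4698130889) (dlOf (nat_lit 1) (nat_lit 0x400400020008124e82))) 
(.lf (nat_lit 268684233) (dlOf (nat_lit 1) (nat_lit 0x4004000200180e5d82)))) (.nd (nat_lit 11) 
(.lf (nat_lit 5772132809) (dlOf (nat_lit 1) (nat_lit 0x860008091101))) 
(.lf (nat_lit 3624126921) (dlOf (nat_lit 1) (nat_lit 0x40028144e81))))))))) (.nd (nat_lit 18) 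
(.nd (nat_lit 6) (.nd (nat_lit 28) (.nd (nat_lit 9) (.nd (nat_lit 26) (.nd (nat_lit 19) 
(.nd (nat_lit 27) (.nd (nat_lit 29) (.nd (nat_lit 20) 
(.lf (nat_lit 2342953) (dlOf (nat_lit 2) (nat_lit 0x5c1d806874080030008005800200040008150003))) 
(.lf (nat_lit 18071593) (dlOf (nat_lit 2) (nat_lit 0x92fa800044080088008003000200320008900b03)))) 
(.nd (nat_lit 7) (.lf (nat_lit 5905827881) (dlOf (nat_lit 1) (nat_lit 0x20018144701))) 
(.lf (nat_lit 4832085417) (dlOf (nat_lit 1) (nat_lit 0x4004000200080d3602))))) (.nd (nat_lit 30) 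
(.lf (nat_lit 134463529) (dlOf (nat_lit 1) (nat_lit 0x400400020008030b02))) 
(.lf (nat_lit 3355689001) (dlOf (nat_lit 1) (nat_lit 0x200080c0a01))))) (.nd (nat_lit 20) 
(.lf (nat_lit 11255849) (dlOf (nat_lit 2) (nat_lit 0x4e9d2002721d801390cc0108000000560800040008680681))) 
(.lf (nat_lit 18595881) (dlOf (nat_lit 1) (nat_lit 0x1000200080008950782))))) (.nd (nat_lit 29) 
(.nd (nat_lit 27) 
(.lf (nat_lit 4362321961) (dlOf (nat_lit 2) (nat_lit 0x130230001e4080008008000400200020008020603))) 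
(.lf (nat_lit 201572393) (dlOf (nat_lit 1) (nat_lit 0x400400020008030b02)))) (.nd (nat_lit 30) 
(.lf (nat_lit 604225577) (dlOf (nat_lit 1) (nat_lit 0x1e00280c0801))) 
(.lf (nat_lit 3825451049) (dlOf (nat_lit 2) (nat_lit 0x15802c002680400ac00200b40008160502)))))) 
(.nd (nat_lit 10) (.nd (nat_lit 23) (.nd (nat_lit 11) 
(.lf (nat_lit 3288580649) (dlOf (nat_lit 1) (nat_lit 0x10004001e0008090e02))) 
(.lf (nat_lit 39569961) (dlOf (nat_lit 1) (nat_lit 0x20019195181)))) (.nd (nat_lit 8) 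
(.lf (nat_lit 32229929) (dlOf (nat_lit 1) (nat_lit 0x400400020008ef5182))) 
(.lf (nat_lit 46910249) (dlOf (nat_lit 1) (nat_lit 0x20009385c01))))) (.nd (nat_lit 7) 
(.lf (nat_lit 8111657) (dlOf (nat_lit 1) (nat_lit 0x8008000400200020008513703))) (.nd (nat_lit 11) 
(.lf (nat_lit 20174505) (dlOf (nat_lit 1) (nat_lit 0x4002000200089da002))) 
(.lf (nat_lit 19648169) (dlOf (nat_lit 1) (nat_lit 0x8004000400089d7202))))))) (.nd (nat_lit 27) 
(.nd (nat_lit 9) (.nd (nat_lit 7) (.nd (nat_lit 19) (.nd (nat_lit 20) 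
(.lf (nat_lit 4563648553) (dlOf (nat_lit 2) (nat_lit 0x5d01a0000480801d00080348002000400080b0383))) 
(.lf (nat_lit 1343471657) (dlOf (nat_lit 1) (nat_lit 0x48008000400200060008260783)))) 
(.lf (nat_lit 1345044521) (dlOf (nat_lit 2) (nat_lit 0x60bd000038189d0880)))) 
(.lf (nat_lit 1346618537) (dlOf (nat_lit 1) (nat_lit 0xc0028fe2c01)))) (.nd (nat_lit 8) 
(.nd (nat_lit 11) (.lf (nat_lit 4026778153) (dlOf (nat_lit 1) (nat_lit 0x10004001e0008090e02))) 
(.lf (nat_lit 268683817) (dlOf (nat_lit 1) (nat_lit 0x200180e5181)))) 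
(.lf (nat_lit 4094937897) (dlOf (nat_lit 1) (nat_lit 0x40028055c01))))) (.nd (nat_lit 26) 
(.nd (nat_lit 29) (.nd (nat_lit 30) 
(.lf (nat_lit 4697866281) (dlOf (nat_lit 2) (nat_lit 0x5d01a0000480801d00080348002000400080b0383))) 
(.lf (nat_lit 1476640809) (dlOf (nat_lit 1) (nat_lit 0x17600180c0801)))) (.nd (nat_lit 7) 
(.lf (nat_lit 3087253545) (dlOf (nat_lit 2) (nat_lit 0x15802c002bc0400ac00200b40008160502))) 
(.lf (nat_lit 5234738601) (dlOf (nat_lit 1) (nat_lit 0x200280d3601))))) (.nd (nat_lit 7) 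
(.nd (nat_lit 29) 
(.lf (nat_lit 3691233321) (dlOf (nat_lit 1) (nat_lit 0x100080004002000200080c0803))) 
(.lf (nat_lit 4228104233) (dlOf (nat_lit 2) (nat_lit 0x1301f8001ec080008008000400200020008020603)))) 
(.lf (nat_lit 473679017) (dlOf (nat_lit 1) (nat_lit 0x20018fa2c01))))))) (.nd (nat_lit 11) 
(.nd (nat_lit 7) (.nd (nat_lit 9) (.nd (nat_lit 19) (.nd (nat_lit 26) 
(.lf (nat_lit 2013511785) (dlOf (nat_lit 1) (nat_lit 0x4002000200080d0782))) 
(.lf (nat_lit 1141096553) (dlOf (nat_lit 1) (nat_lit 0x4002000200080d0782)))) 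
(.lf (nat_lit 45858921) (dlOf (nat_lit 1) (nat_lit 0x3000400060019360a02)))) (.nd (nat_lit 8) 
(.lf (nat_lit 1610860137) (dlOf (nat_lit 2) (nat_lit 0x502d00011c080028008000400200020008093903))) 
(.lf (nat_lit 8110953) (dlOf (nat_lit 1) (nat_lit 0x24004001e0008512582))))) (.nd (nat_lit 28) 
(.nd (nat_lit 8) (.nd (nat_lit 9) 
(.lf (nat_lit 6537449) (dlOf (nat_lit 1) (nat_lit 0x760028420601))) 
(.lf (nat_lit 8114921) (dlOf (nat_lit 1) (nat_lit 0x20028518d81)))) 
(.lf (nat_lit 671334889) (dlOf (nat_lit 2) (nat_lit 0x820170052c018157d00)))) (.nd (nat_lit 8) 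
(.nd (nat_lit 10) (.lf (nat_lit 3557019881) (dlOf (nat_lit 1) (nat_lit 0x360028128081))) 
(.lf (nat_lit 5704500457) (dlOf (nat_lit 1) (nat_lit 0x200280d2e81)))) 
(.lf (nat_lit 805552617) (dlOf (nat_lit 6) (nat_lit 0x48108018801c00260000003383004a02100360038003c018003a0000003304004d00700010408034010800bc044013200e001d0020005000801640000003f0c00cc051005201d000088100330008009000200160008127303)))))) 
(.nd (nat_lit 10) (.nd (nat_lit 7) (.nd (nat_lit 8) 
(.lf (nat_lit 8116329) (dlOf (nat_lit 1) (nat_lit 0x2000851a801))) 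
(.lf (nat_lit 4496542569) (dlOf (nat_lit 1) (nat_lit 0x80080030002000c00080e5c03)))) 
(.nd (nat_lit 19) (.lf (nat_lit 4496542185) (dlOf (nat_lit 1) (nat_lit 0x4004000200080e4e82))) 
(.lf (nat_lit 4094413289) (dlOf (nat_lit 1) (nat_lit 0x400400020008054e82))))) (.nd (nat_lit 20) 
(.nd (nat_lit 26) (.lf (nat_lit 249065) (dlOf (nat_lit 1) (nat_lit 0x200018006501))) 
(.lf (nat_lit 6509808873) (dlOf (nat_lit 2) (nat_lit 0x3202600000018146500)))) (.nd (nat_lit 19) 
(.lf (nat_lit 2754858217) (dlOf (nat_lit 1) (nat_lit 0x1c004000200180f6502))) 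
(.lf (nat_lit 20696297) (dlOf (nat_lit 1) (nat_lit 0x100080004002000200089d6503)))))))) 
(.nd (nat_lit 28) (.nd (nat_lit 19) (.nd (nat_lit 22) (.nd (nat_lit 21) (.nd (nat_lit 6) 
(.nd (nat_lit 7) 
(.lf (nat_lit 3221733417) (dlOf (nat_lit 3) (nat_lit 0x42408000d480201e4040006a3018170000))) 
(.nd (nat_lit 26) (.lf (nat_lit 134725801) (dlOf (nat_lit 1) (nat_lit 0x14004000e0008090282))) 
(.lf (nat_lit 201834665) (dlOf (nat_lit 1) (nat_lit 0x14004000e0008090282))))) (.nd (nat_lit 10) 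
(.lf (nat_lit 1678229609) (dlOf (nat_lit 3) (nat_lit 0x478158011c0a600d2032005600980010000000201401ec0ac0084053004a00980003818093800801cc002000600081b1403))) 
(.lf (nat_lit 515177) (dlOf (nat_lit 1) (nat_lit 0x80008000c0020006000800c083))))) 
(.nd (nat_lit 23) (.nd (nat_lit 26) 
(.lf (nat_lit 2605097) (dlOf (nat_lit 6) (nat_lit 0x61d1004750100010bb801f5c0800087540008392000a1c400050bb801f58200030754002039200141c4000a0bb801f54200008754001839200101c400080bb801f50200028008000800200020008170a03))) 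
(.lf (nat_lit 69713961) (dlOf (nat_lit 1) (nat_lit 0x10008000400200020008bd0203)))) 
(.lf (nat_lit 27770921) (dlOf (nat_lit 1) (nat_lit 0x108004003e0008d20782))))) (.nd (nat_lit 23) 
(.nd (nat_lit 6) 
(.lf (nat_lit 55033897) (dlOf (nat_lit 1) (nat_lit 0x5480080004002009a0009690283))) 
(.lf (nat_lit 55033961) (dlOf (nat_lit 2) (nat_lit 0x313180000004010800400400009690782)))) 
(.nd (nat_lit 7) 
(.lf (nat_lit 13090857) (dlOf (nat_lit 8) (nat_lit 0x1cc7e002a628000a30800006c1800398fc00a0c50003e61000212dc8000642000918fc0068c500034610001a2dc8000602000418fc0020c50002c610000d2dc80002c2000418fc0050c500022610000d2dc8000282000398fc0068c500034610001a2dc8000242000918fc0064c500034610001a2dc8000202000300080010002000400086f0a83))) 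
(.lf (nat_lit 47695017) (dlOf (nat_lit 1) (nat_lit 0xb80009402c01)))))) (.nd (nat_lit 11) 
(.nd (nat_lit 8) (.nd (nat_lit 7) (.nd (nat_lit 20) 
(.lf (nat_lit 17809449) (dlOf (nat_lit 10) (nat_lit 0x96bc20022e02036fd170244e3480e1f19c004b8ae021fbeb0083b8a0003caa400561ea001b00500027b58024bc38002d82c01af8d400b5bec000a782004ee350026efb0001f60801b78d400d7bec0007c82003ae350006efb0001ee0801cf8d400c5bec0007a8201fce348012efac05b289800001060107c6a0065df600000010073800806dc002021a00088f0d83))) 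
(.lf (nat_lit 25149481) (dlOf (nat_lit 1) (nat_lit 0x20028be0c01)))) 
(.lf (nat_lit 51365033) (dlOf (nat_lit 1) (nat_lit 0x3000200360009512c02)))) (.nd (nat_lit 20) 
(.lf (nat_lit 2752495913) (dlOf (nat_lit 1) (nat_lit 0x20028014601))) 
(.lf (nat_lit 18858281) (dlOf (nat_lit 1) (nat_lit 0x400200020008970702))))) (.nd (nat_lit 6) 
(.nd (nat_lit 7) (.lf (nat_lit 34589225) (dlOf (nat_lit 1) (nat_lit 0x400400020008fb5182))) 
(.lf (nat_lit 58706345) (dlOf (nat_lit 1) (nat_lit 0x200197e4e81)))) (.nd (nat_lit 7) 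
(.lf (nat_lit 8379497) (dlOf (nat_lit 1) (nat_lit 0x40040002000851c082))) 
(.lf (nat_lit 8374505) (dlOf (nat_lit 1) (nat_lit 0x8008000800200020008514b03))))))) 
(.nd (nat_lit 6) (.nd (nat_lit 26) (.nd (nat_lit 30) (.nd (nat_lit 27) 
(.lf (nat_lit 2416427049) (dlOf (nat_lit 5) (nat_lit 0x201000040078006003401aa40c0020024000e01100080080005803c001801a00d510a0016012000800880058040003401e001000d006a805000c00900040044002c020001e00f000500680353c2800700080008002000200081d0a03))) 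
(.lf (nat_lit 2550644777) (dlOf (nat_lit 5) (nat_lit 0x201000040078006003400fae0c0020024000e01100080080005803c001801a007d60a0016012000800880058040003401e001000d003ea85000c00900040044002c020001e00f0005006801f502800700080008002000200081d0a03)))) 
(.nd (nat_lit 8) (.lf (nat_lit 1342685737) (dlOf (nat_lit 1) (nat_lit 0x4004000200080c0e02))) 
(.lf (nat_lit 3490172201) (dlOf (nat_lit 1) (nat_lit 0x58008013800200020008006803))))) 
(.nd (nat_lit 7) (.nd (nat_lit 9) 
(.lf (nat_lit 1409794089) (dlOf (nat_lit 3) (nat_lit 0x48148002406600d480400060520006019803518100090008004400200200008090003))) 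
(.lf (nat_lit 470270505) (dlOf (nat_lit 1) (nat_lit 0x4004000200080c0e02)))) 
(.lf (nat_lit 472369577) (dlOf (nat_lit 1) (nat_lit 0x1c00400060008984e82))))) (.nd (nat_lit 21) 
(.nd (nat_lit 7) (.lf (nat_lit 470270057) (dlOf (nat_lit 1) (nat_lit 0x400080c0001))) 
(.nd (nat_lit 8) (.lf (nat_lit 5772920041) (dlOf (nat_lit 1) (nat_lit 0x20028092e81))) 
(.lf (nat_lit 1946671081) (dlOf (nat_lit 1) (nat_lit 0x2c00180fa601))))) (.nd (nat_lit 8) 
(.nd (nat_lit 26) (.lf (nat_lit 1881653353) (dlOf (nat_lit 1) (nat_lit 0x40008fa0781))) 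
(.lf (nat_lit 1009238121) (dlOf (nat_lit 2) (nat_lit 0x2838400000040024002003600090a0a02)))) 
(.lf (nat_lit 3492796777) (dlOf (nat_lit 1) (nat_lit 0x200280fac01)))))))))))

end

end Pool.Agent.Lib.MP_5854e1_co.Cz

namespace Pool.Agent.Lib.MP_5854e1_co.Cz

noncomputable section

noncomputable def tz90 : DT := (.nd (nat_lit 0) (.nd (nat_lit 16) (.nd (nat_lit 5) (.nd (nat_lit 6) 
(.nd (nat_lit 19) (.nd (nat_lit 18) (.nd (nat_lit 30) (.nd (nat_lit 8) (.nd (nat_lit 9) 
(.nd (nat_lit 20) (.lf (nat_lit 5100453892) (dlOf (nat_lit 1) (nat_lit 0x800400020018090002))) 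
(.lf (nat_lit 62046212) (dlOf (nat_lit 1) (nat_lit 0x3c00401420009940002)))) (.nd (nat_lit 22) 
(.lf (nat_lit 2885861892) (dlOf (nat_lit 1) (nat_lit 0x4002000200080b0d82))) 
(.lf (nat_lit 2755838468) (dlOf (nat_lit 1) (nat_lit 0x200181b0d81))))) (.nd (nat_lit 7) 
(.nd (nat_lit 9) (.lf (nat_lit 28492036) (dlOf (nat_lit 1) (nat_lit 0x400400020008da0702))) 
(.lf (nat_lit 2684535556) (dlOf (nat_lit 1) (nat_lit 0x400180a2101)))) (.nd (nat_lit 11) 
(.lf (nat_lit 2348990852) (dlOf (nat_lit 1) (nat_lit 0x400400020018090782))) 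
(.lf (nat_lit 738380164) (dlOf (nat_lit 1) (nat_lit 0x520008094e81)))))) (.nd (nat_lit 28) 
(.nd (nat_lit 8) (.nd (nat_lit 7) 
(.lf (nat_lit 1610794500) (dlOf (nat_lit 1) (nat_lit 0x1a0028093681))) 
(.lf (nat_lit 1610794628) (dlOf (nat_lit 2) (nat_lit 0xa05a000502b8000bc1001f8008005800200900008093a03)))) 
(.nd (nat_lit 10) (.lf (nat_lit 5436000644) (dlOf (nat_lit 1) (nat_lit 0x1e0028094e81))) 
(.lf (nat_lit 3758282116) (dlOf (nat_lit 1) (nat_lit 0x1000400060008129902))))) (.nd (nat_lit 26) 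
(.nd (nat_lit 22) (.lf (nat_lit 6308413444) (dlOf (nat_lit 1) (nat_lit 0x20018080001))) 
(.lf (nat_lit 1346551812) (dlOf (nat_lit 1) (nat_lit 0x40028fc0001)))) (.nd (nat_lit 8) 
(.lf (nat_lit 6241304580) (dlOf (nat_lit 1) (nat_lit 0x5000180d0001))) 
(.lf (nat_lit 4094869764) (dlOf (nat_lit 1) (nat_lit 0x40008006800200080008050a83))))))) 
(.nd (nat_lit 26) (.nd (nat_lit 20) (.nd (nat_lit 9) (.nd (nat_lit 27) 
(.lf (nat_lit 1342619652) (dlOf (nat_lit 1) (nat_lit 0x1c0008090001))) (.nd (nat_lit 28) 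
(.lf (nat_lit 2819014660) (dlOf (nat_lit 1) (nat_lit 0x150008002c002001e0008150003))) 
(.lf (nat_lit 3624321028) (dlOf (nat_lit 1) (nat_lit 0x8008000800200020008160003))))) 
(.nd (nat_lit 8) (.lf (nat_lit 57068036) (dlOf (nat_lit 1) (nat_lit 0x500019795001))) 
(.lf (nat_lit 57068292) (dlOf (nat_lit 1) (nat_lit 0x580080024002003a0009795a83))))) 
(.nd (nat_lit 7) (.nd (nat_lit 10) 
(.lf (nat_lit 26656772) (dlOf (nat_lit 1) (nat_lit 0x8008000400200020008c50003))) 
(.lf (nat_lit 47629316) (dlOf (nat_lit 1) (nat_lit 0x400200020009402882)))) 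
(.lf (nat_lit 3588228) (dlOf (nat_lit 1) (nat_lit 0x8008000400200020008200103))))) 
(.nd (nat_lit 27) (.nd (nat_lit 29) (.nd (nat_lit 28) 
(.lf (nat_lit 67551236) (dlOf (nat_lit 1) (nat_lit 0x80080008002000200081f0003))) 
(.lf (nat_lit 3557212164) (dlOf (nat_lit 1) (nat_lit 0xa0008170001)))) (.nd (nat_lit 7) 
(.lf (nat_lit 2751911940) (dlOf (nat_lit 1) (nat_lit 0x20002800a601))) 
(.lf (nat_lit 1678164356) (dlOf (nat_lit 6) (nat_lit 0x660420065c0100080210032dc0802301080196a0400a008400cb40200320420064f8181a0780))))) 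
(.nd (nat_lit 7) (.nd (nat_lit 28) 
(.lf (nat_lit 2886123524) (dlOf (nat_lit 1) (nat_lit 0x8008000800200020008160003))) 
(.nd (nat_lit 29) (.lf (nat_lit 470204420) (dlOf (nat_lit 1) (nat_lit 0x1c0008090001))) 
(.lf (nat_lit 4228300804) (dlOf (nat_lit 1) (nat_lit 0x20018090001))))) (.nd (nat_lit 29) 
(.lf (nat_lit 201769348) (dlOf (nat_lit 2) (nat_lit 0x1a00b0038540800780080124002001a0008090783))) 
(.lf (nat_lit 3959865732) (dlOf (nat_lit 1) (nat_lit 0x40018170781)))))))) (.nd (nat_lit 21) 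
(.nd (nat_lit 20) (.nd (nat_lit 28) (.nd (nat_lit 8) (.nd (nat_lit 26) 
(.lf (nat_lit 134922244) (dlOf (nat_lit 3) (nat_lit 0x9010c003807e00760130046d0301ee01b001c540806d00080130002046200080e0003))) 
(.lf (nat_lit 202031108) (dlOf (nat_lit 3) (nat_lit 0x9010c003807e0076013006bf0301ee01b0032fc0806d00080130002046200080e0003)))) 
(.lf (nat_lit 2752169732) (dlOf (nat_lit 1) (nat_lit 0x20008003b81)))) (.nd (nat_lit 18) 
(.nd (nat_lit 26) 
(.lf (nat_lit 5772066820) (dlOf (nat_lit 12) (nat_lit 0x400280045d01000d0140022e40800100a001170040038050008b70200020260044001000a01400028098003c04a0087f0600060280043f0100020130004808c001c040000e018004060400010130003808c0030040000e018004058400010130005808c002804000140180040504000e0140004009800180460014020000a00c002024280018008004800200060008060003))) 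
(.lf (nat_lit 6376046596) (dlOf (nat_lit 12) (nat_lit 0x400280076f81000d014003b780800100a001dba04003805000edc0200020260075281000a01400028098003c04a00ea4060006028007518100020130004808c001c040000e018007188400010130003808c0030040000e018007180400010130005808c002804000140180071784000e0140004009800180460014020000a00c0038b8280018008004800200060008060003)))) 
(.lf (nat_lit 470728708) (dlOf (nat_lit 1) (nat_lit 0x20008160001))))) (.nd (nat_lit 18) 
(.nd (nat_lit 23) (.nd (nat_lit 7) (.nd (nat_lit 10) (.nd (nat_lit 28) 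
(.lf (nat_lit 1753092) (dlOf (nat_lit 3) (nat_lit 0xec17000653f0002a9b402d040c001582e000aa7e00015368057ec1803f80081e64002015a0008130003))) 
(.lf (nat_lit 1343930372) (dlOf (nat_lit 1) (nat_lit 0x240008380001)))) 
(.lf (nat_lit 35308548) (dlOf (nat_lit 1) (nat_lit 0xc00200040009012882)))) 
(.lf (nat_lit 2753216900) (dlOf (nat_lit 3) (nat_lit 0x443f000cb802001e1f80065a818090780)))) 
(.nd (nat_lit 22) (.lf (nat_lit 26918916) (dlOf (nat_lit 1) (nat_lit 0x620008c90001))) 
(.lf (nat_lit 31113220) (dlOf (nat_lit 1) (nat_lit 0x400400020008e70002))))) (.nd (nat_lit 10) 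
(.nd (nat_lit 26) 
(.lf (nat_lit 1344192516) (dlOf (nat_lit 1) (nat_lit 0x18008000c00200020008490003))) 
(.lf (nat_lit 2753478660) (dlOf (nat_lit 1) (nat_lit 0x10004000c0008090002)))) 
(.lf (nat_lit 39764996) (dlOf (nat_lit 1) (nat_lit 0x4004000200091f2882)))))) (.nd (nat_lit 8) 
(.nd (nat_lit 9) (.nd (nat_lit 18) (.nd (nat_lit 20) 
(.lf (nat_lit 19578884) (dlOf (nat_lit 15) (nat_lit 0x92b00004957000347500021f5c0008fac00087ac00033af80019d780010e660004732005ea8a00334ac0019255c00cd1d400608e900343eb80181f5800c0fa800627ac002a3d580199d7c00bcebc00707330030399002f5068002a56000152ae000c8ea00063eb80029f58000cf5800047ab00063af80011d780018e6600bcf14000a958000647500021f5c0018ebe00bce08001095800074ab8003a3a8001cfae000e7d600013d600009eac0020ebe000a75e0003399802f2450001a56000111d400067d700033d600021d7c000ce6600bc80c00028ea00023af802ef810003256000191d4000a7d700033d600031d7c0004e6600bbd0c000e958000847500039f5c0020ebe00bb708000a958000447500029f5c0018ebe00bae080006958000547500021f5c0018ebe00bad080004958000447500039f5c0018e6600b4508000c7d70059f8100033eb802cd80800900080008002000c00089c0003)))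 
(.lf (nat_lit 16433156) (dlOf (nat_lit 14) (nat_lit 0x104958006a475001b1f5c005cf58005075f00f83998019003002c256001211d4004a7d7002b3d600011d7c029ce660063f0c00a8958003f475000e9f5c0018f58000475f00f83998018f030041a56001b51d400967d7000c3d600121d7c03bce66006390c00f2958006f475001b9f5c0060f58004275f00be3998018d83003ca56000fd1d4000a7d700243d6000b9d7c0208e66006330c00fc958006b47500149f5c02e4e6600629080132958000b4ab801d23a800111d200167d7002d3d600241d7c0280e66006281000b895800423998018941003f256001d91d400887d7002b3af806e9ccc00c441401fd2b000ce8ea00333eb80151d7c02f4e660061b0a00b4958004847500059f5c004cebe011e7330030c05002a3998016a8080038008007c002013600088a0003)))) 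
(.lf (nat_lit 20889604) (dlOf (nat_lit 1) (nat_lit 0xa800200a400089f0002)))) (.nd (nat_lit 7) 
(.lf (nat_lit 473612804) (dlOf (nat_lit 1) (nat_lit 0x1a0028f68001))) 
(.lf (nat_lit 19843716) (dlOf (nat_lit 1) (nat_lit 0x400189d5481))))) (.nd (nat_lit 7) 
(.nd (nat_lit 9) (.lf (nat_lit 473612548) (dlOf (nat_lit 1) (nat_lit 0x5800400080008f63582))) 
(.lf (nat_lit 8050436) (dlOf (nat_lit 1) (nat_lit 0x22001851a001)))) (.nd (nat_lit 12) 
(.lf (nat_lit 8044932) (dlOf (nat_lit 1) (nat_lit 0x20008511001))) 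
(.lf (nat_lit 8049028) (dlOf (nat_lit 1) (nat_lit 0x180080024002000a0008518383)))))))) 
(.nd (nat_lit 7) (.nd (nat_lit 21) (.nd (nat_lit 26) (.nd (nat_lit 27) (.nd (nat_lit 29) 
(.nd (nat_lit 20) (.lf (nat_lit 12763204) (dlOf (nat_lit 1) (nat_lit 0x400286e0d01))) 
(.lf (nat_lit 18006084) (dlOf (nat_lit 1) (nat_lit 0x20028900e81)))) (.nd (nat_lit 18) 
(.lf (nat_lit 537575492) (dlOf (nat_lit 1) (nat_lit 0x120008002c002006a00080c1883))) 
(.lf (nat_lit 1611055172) (dlOf (nat_lit 1) (nat_lit 0x200080d0481))))) (.nd (nat_lit 8) 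
(.nd (nat_lit 9) (.lf (nat_lit 5773115460) (dlOf (nat_lit 1) (nat_lit 0xd400080a1681))) 
(.lf (nat_lit 939704900) (dlOf (nat_lit 2) (nat_lit 0x58000000bc04004400200940008158d02)))) 
(.lf (nat_lit 3624059204) (dlOf (nat_lit 3) (nat_lit 0xfc05e00a801b007000100330000000ac10017403600d400200640000001501800600080110002000c00080b0603))))) 
(.nd (nat_lit 9) (.nd (nat_lit 8) (.nd (nat_lit 11) 
(.lf (nat_lit 4362780740) (dlOf (nat_lit 2) (nat_lit 0x4e04700090168001841000400080034002000a00080f1883))) 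
(.lf (nat_lit 3959609412) (dlOf (nat_lit 4) (nat_lit 0x1408e0022602003c0470010b81002b02300000008033000800100020004000811a683)))) 
(.lf (nat_lit 1410253124) (dlOf (nat_lit 9) (nat_lit 0x2c81d8007c0ca000520400e6000000288100700000001400804280000009a0401440000004c020152000000230100800000001140804100000008804000800400e200181b0602)))) 
(.nd (nat_lit 11) (.lf (nat_lit 201507396) (dlOf (nat_lit 1) (nat_lit 0x400400040008018d02))) 
(.lf (nat_lit 2751650372) (dlOf (nat_lit 10) (nat_lit 0x6b08fc01a442803ca21200a31080079081004043f400221f600f20da805e05ac03dc2d2000a16300f10ab80e4055004602a4005414d00de09e007284d4037825c0014124000a08f002784540006054087c42400a21fa01ab0aa0000bc1811c084802d03f4034a155018809c0000b820118084805b43f4033e155016b0aa00c684e000f80000002d0c045c212016a0fd00ce055406282700000508045a212000e10880c587e806402aa02e41380000205005910900000c08111084801c042203041fa018d0aa80bd84e00000414085842402e61fa01a80aa000000180b000080b5c0020a60000800b503))))))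 
(.nd (nat_lit 18) (.nd (nat_lit 19) (.nd (nat_lit 9) (.nd (nat_lit 20) 
(.lf (nat_lit 14860356) (dlOf (nat_lit 1) (nat_lit 0x10008000400200aa0008790583))) 
(.lf (nat_lit 24297540) (dlOf (nat_lit 1) (nat_lit 0x8008001800200020008b90e03)))) 
(.lf (nat_lit 11715140) (dlOf (nat_lit 1) (nat_lit 0x4002000200086c1102)))) (.nd (nat_lit 10) 
(.nd (nat_lit 20) (.lf (nat_lit 472563780) (dlOf (nat_lit 2) (nat_lit 0x240bc000ae0189c0600))) 
(.lf (nat_lit 8044612) (dlOf (nat_lit 1) (nat_lit 0x20008000800200060008510003)))) 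
(.lf (nat_lit 8051780) (dlOf (nat_lit 1) (nat_lit 0x40040002000851bf02))))) (.nd (nat_lit 22) 
(.nd (nat_lit 8) (.nd (nat_lit 26) 
(.lf (nat_lit 3493773380) (dlOf (nat_lit 1) (nat_lit 0x200281b0001))) 
(.lf (nat_lit 473874500) (dlOf (nat_lit 2) (nat_lit 0x180a50002f40801800080004002002e0008fc0603)))) 
(.lf (nat_lit 19843908) (dlOf (nat_lit 1) (nat_lit 0x4002000200089d5c02)))) (.nd (nat_lit 8) 
(.nd (nat_lit 10) 
(.lf (nat_lit 24559684) (dlOf (nat_lit 3) (nat_lit 0x5181e00028020076c0f00013818ba0d00))) 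
(.lf (nat_lit 57066564) (dlOf (nat_lit 1) (nat_lit 0x8008000c00200020009792883)))) 
(.lf (nat_lit 50251076) (dlOf (nat_lit 3) (nat_lit 0x7b4d00015010008d9b8000400800180080004002000400094c3303))))))) 
(.nd (nat_lit 26) (.nd (nat_lit 8) (.nd (nat_lit 10) (.nd (nat_lit 9) (.nd (nat_lit 18) 
(.lf (nat_lit 8046788) (dlOf (nat_lit 1) (nat_lit 0x20028514981))) 
(.lf (nat_lit 8308932) (dlOf (nat_lit 1) (nat_lit 0x50008001400200040008514983)))) 
(.lf (nat_lit 185028) (dlOf (nat_lit 1) (nat_lit 0x240018008c81)))) (.nd (nat_lit 20) 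
(.lf (nat_lit 34522308) (dlOf (nat_lit 2) (nat_lit 0x5d5e0008e3700012828fb2d00))) 
(.lf (nat_lit 41862340) (dlOf (nat_lit 1) (nat_lit 0x400400020009242d02))))) (.nd (nat_lit 18) 
(.nd (nat_lit 12) (.nd (nat_lit 19) 
(.lf (nat_lit 11715012) (dlOf (nat_lit 2) (nat_lit 0xb3a60000800800180080008002000400086c0903))) 
(.lf (nat_lit 3491414468) (dlOf (nat_lit 6) (nat_lit 0x1483cc00aa1cd004d0aa0000801807d87980003e0403ec3cc0001e02008a1e60000e81003a0f3000000080048008010000200020008090903)))) 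
(.lf (nat_lit 8049092) (dlOf (nat_lit 1) (nat_lit 0x8008000800200040008518683)))) (.nd (nat_lit 27) 
(.nd (nat_lit 28) 
(.lf (nat_lit 3221668292) (dlOf (nat_lit 4) (nat_lit 0x49c07c019c01c00df0070013803002c40080004002007d0000000803802a007001d001c0004002000200000007c2003900380003c0400c000200020008170902))) 
(.lf (nat_lit 805749188) (dlOf (nat_lit 13) (nat_lit 0x2c10210112803800680180336000000298402e702101228038000a4080ba0084048600e006f00000014418051010803a801c0005004002c0420001e0102c90210114803808c801804860000001b8402e4021012180380006c080ba0084048800e024c006012c80000006a1003e408400de00e0001a0200eb0210000cc080118000000640406d40a2003603f01b501d000080180d6800801b8002002000081a0903)))) 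
(.lf (nat_lit 134660548) (dlOf (nat_lit 2) (nat_lit 0x8800000008008004000800c400200880008090903)))))) 
(.nd (nat_lit 18) (.nd (nat_lit 8) (.nd (nat_lit 28) 
(.lf (nat_lit 4496474308) (dlOf (nat_lit 1) (nat_lit 0x60018081701))) 
(.lf (nat_lit 5301780676) (dlOf (nat_lit 1) (nat_lit 0x3c00200480008090802)))) (.nd (nat_lit 9) 
(.lf (nat_lit 2753216964) (dlOf (nat_lit 6) (nat_lit 0x1483f000aa1e2004d0ac8000801807d87e00003e0403ec3f00001e02008a1f80000e81003a0fc000000080048008010000200020008090903))) 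
(.nd (nat_lit 12) (.lf (nat_lit 1677903812) (dlOf (nat_lit 1) (nat_lit 0x480018114401))) 
(.lf (nat_lit 2751649732) (dlOf (nat_lit 1) (nat_lit 0x200040018000800a602)))))) (.nd (nat_lit 27) 
(.nd (nat_lit 9) (.nd (nat_lit 29) 
(.lf (nat_lit 4362518980) (dlOf (nat_lit 9) (nat_lit 0x1102b00b080ac000404400053060016056017101580014810007815805c4056001c022000288300b90158001400800d815805a805600037040012056016e0158000d810007815805c8056001a0220001a8300290158000d0080df8008031c002010c0008090903))) 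
(.lf (nat_lit 1678164420) (dlOf (nat_lit 13) (nat_lit 0x2c10210112803800680180336000000298402e702101228038000a4080ba0084048600e006f00000014418051010803a801c0005004002c0420001e0102c90210114803808c801804860000001b8402e4021012180380006c080ba0084048800e024c006012c80000006a1003e408400de00e0001a0200eb0210000cc080118000000640406d40a2003603f01b501d000080180d6800801b8002002000081a0903)))) 
(.lf (nat_lit 2751907780) (dlOf (nat_lit 1) (nat_lit 0x20018004401)))) (.nd (nat_lit 28) 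
(.nd (nat_lit 29) 
(.lf (nat_lit 201769412) (dlOf (nat_lit 2) (nat_lit 0x8800000008008004000800c400200880008090903))) 
(.lf (nat_lit 3959865796) (dlOf (nat_lit 4) (nat_lit 0x49c07c019c01c00df0070013803002c40080004002007d0000000803802a007001d001c0004002000200000007c2003900380003c0400c000200020008170902)))) 
(.lf (nat_lit 4228301252) (dlOf (nat_lit 9) (nat_lit 0x1102780b080a800040440005306001604f017101500014810007813c05c4054001c022000288300b90150001400800d813c05a80540003704001204f016e0150000d810007813c05c8054001a0220001a8300290150000d0080df8008031c002010c0008090903))))))))) 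
(.nd (nat_lit 7) (.nd (nat_lit 28) (.nd (nat_lit 8) (.nd (nat_lit 19) (.nd (nat_lit 21) 
(.nd (nat_lit 27) (.nd (nat_lit 6) (.nd (nat_lit 9) 
(.lf (nat_lit 25346084) (dlOf (nat_lit 1) (nat_lit 0x10008006000200020008bf0903))) 
(.lf (nat_lit 1610794532) (dlOf (nat_lit 2) (nat_lit 0xb00a80007804007800400660008093702)))) 
(.lf (nat_lit 4832018532) (dlOf (nat_lit 1) (nat_lit 0x400400020008090782)))) (.nd (nat_lit 26) 
(.lf (nat_lit 4966236196) (dlOf (nat_lit 1) (nat_lit 0xc0018080481))) 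
(.lf (nat_lit 5033345060) (dlOf (nat_lit 1) (nat_lit 0xc0018080481))))) (.nd (nat_lit 22) 
(.nd (nat_lit 23) (.lf (nat_lit 52609060) (dlOf (nat_lit 2) (nat_lit 0x1e98d00008819560700))) 
(.lf (nat_lit 27443236) (dlOf (nat_lit 1) (nat_lit 0x400200020008ce0602)))) (.nd (nat_lit 6) 
(.lf (nat_lit 57066532) (dlOf (nat_lit 1) (nat_lit 0x400400020009792882))) 
(.lf (nat_lit 24297572) (dlOf (nat_lit 1) (nat_lit 0x400200020008b91382)))))) (.nd (nat_lit 18) 
(.nd (nat_lit 22) (.nd (nat_lit 26) 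
(.lf (nat_lit 134922276) (dlOf (nat_lit 1) (nat_lit 0x200080e0481))) 
(.lf (nat_lit 202031140) (dlOf (nat_lit 1) (nat_lit 0x200080e0481)))) (.nd (nat_lit 23) 
(.lf (nat_lit 21676068) (dlOf (nat_lit 4) (nat_lit 0x17155182172724000ac0805495460005502000641b00028818a60b80))) 
(.lf (nat_lit 13287460) (dlOf (nat_lit 1) (nat_lit 0x400400020008710b82))))) (.nd (nat_lit 6) 
(.nd (nat_lit 10) (.nd (nat_lit 20) 
(.lf (nat_lit 11452452) (dlOf (nat_lit 1) (nat_lit 0x3600286a0701))) 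
(.lf (nat_lit 22986788) (dlOf (nat_lit 2) (nat_lit 0x50000000340200020018b40501)))) 
(.lf (nat_lit 8311844) (dlOf (nat_lit 1) (nat_lit 0x8004003a0008519202)))) (.nd (nat_lit 9) 
(.lf (nat_lit 2755575908) (dlOf (nat_lit 1) (nat_lit 0x400281b0001))) 
(.lf (nat_lit 70174308) (dlOf (nat_lit 1) (nat_lit 0x20018fa3901))))))) (.nd (nat_lit 6) 
(.nd (nat_lit 10) (.nd (nat_lit 27) (.nd (nat_lit 11) 
(.lf (nat_lit 4295147812) (dlOf (nat_lit 1) (nat_lit 0x800200020008090502))) 
(.lf (nat_lit 2751650084) (dlOf (nat_lit 1) (nat_lit 0x140040020000800ab82)))) (.nd (nat_lit 9) 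
(.lf (nat_lit 4429365540) (dlOf (nat_lit 1) (nat_lit 0x800200020008090502))) 
(.lf (nat_lit 2281882404) (dlOf (nat_lit 1) (nat_lit 0x200180a2181))))) (.nd (nat_lit 9) 
(.nd (nat_lit 26) 
(.lf (nat_lit 2281887012) (dlOf (nat_lit 4) (nat_lit 0x320110001381000600800009408003004000048040018004000200180a9782))) 
(.lf (nat_lit 2214778148) (dlOf (nat_lit 1) (nat_lit 0xc00080a9781)))) 
(.lf (nat_lit 3758282532) (dlOf (nat_lit 2) (nat_lit 0x1e03d0000901812a080))))) (.nd (nat_lit 10) 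
(.nd (nat_lit 18) (.nd (nat_lit 27) 
(.lf (nat_lit 4295147876) (dlOf (nat_lit 1) (nat_lit 0x10008000800200060008090703))) 
(.lf (nat_lit 4429365604) (dlOf (nat_lit 1) (nat_lit 0x10008000800200060008090703)))) 
(.nd (nat_lit 19) (.lf (nat_lit 2755051876) (dlOf (nat_lit 1) (nat_lit 0x20028104f01))) 
(.lf (nat_lit 3064164) (dlOf (nat_lit 1) (nat_lit 0x60028200701))))) (.nd (nat_lit 11) 
(.lf (nat_lit 40289636) (dlOf (nat_lit 1) (nat_lit 0x4004000200091f3482))) 
(.lf (nat_lit 2754534756) (dlOf (nat_lit 1) (nat_lit 0x4600280fc901))))))) (.nd (nat_lit 27) 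
(.nd (nat_lit 29) (.nd (nat_lit 21) (.nd (nat_lit 6) (.nd (nat_lit 19) 
(.lf (nat_lit 2416099364) (dlOf (nat_lit 2) (nat_lit 0x1001800154080018008000400200020008060583))) 
(.lf (nat_lit 1343930404) (dlOf (nat_lit 5) (nat_lit 0x604c000281e000478080018130000c0780011982000604c000301e000462080018130000a07800117828380d80)))) 
(.lf (nat_lit 5704433764) (dlOf (nat_lit 1) (nat_lit 0x400400140018080782)))) (.nd (nat_lit 6) 
(.nd (nat_lit 9) 
(.lf (nat_lit 3492200484) (dlOf (nat_lit 2) (nat_lit 0x200d20002b02000200180b0b81))) 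
(.lf (nat_lit 3491938852) (dlOf (nat_lit 3) (nat_lit 0xc1c40000a8100030e200000008004000800d000200160008090e03)))) 
(.lf (nat_lit 1344979044) (dlOf (nat_lit 4) (nat_lit 0x58364002c138001607d0000703000303e800030080058580002c29a001609c001603e8000002001c00080090002004200089a0983))))) 
(.nd (nat_lit 6) (.nd (nat_lit 8) (.nd (nat_lit 9) 
(.lf (nat_lit 1880801316) (dlOf (nat_lit 2) (nat_lit 0x7002b0001b018ba0700))) 
(.lf (nat_lit 1881063972) (dlOf (nat_lit 1) (nat_lit 0x80008de8781)))) 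
(.lf (nat_lit 1881590564) (dlOf (nat_lit 1) (nat_lit 0x3000200020008f65c02)))) (.nd (nat_lit 8) 
(.lf (nat_lit 5100453988) (dlOf (nat_lit 1) (nat_lit 0x400400020008090782))) 
(.lf (nat_lit 805490020) (dlOf (nat_lit 1) (nat_lit 0x20018116a81)))))) (.nd (nat_lit 30) 
(.nd (nat_lit 31) (.nd (nat_lit 18) (.nd (nat_lit 19) 
(.lf (nat_lit 470990884) (dlOf (nat_lit 1) (nat_lit 0x400400020008230602))) 
(.lf (nat_lit 470466596) (dlOf (nat_lit 9) (nat_lit 0x1891c001c44c000e1d100010e7800487140020366000209400028870003123800f0744004838a0004f06000222f000230100010e28000e40800c870c0007004000438a0003002000e1c5000120100170e28000880800e8008003c00200260008100a83)))) 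
(.lf (nat_lit 474398756) (dlOf (nat_lit 1) (nat_lit 0x180019160001)))) (.nd (nat_lit 8) 
(.lf (nat_lit 2550317092) (dlOf (nat_lit 2) (nat_lit 0x1001800154080018008000400200020008060583))) 
(.lf (nat_lit 2617430820) (dlOf (nat_lit 1) (nat_lit 0x1800280a8f81))))) (.nd (nat_lit 6) 
(.nd (nat_lit 26) 
(.lf (nat_lit 5772066852) (dlOf (nat_lit 2) (nat_lit 0x600000003e04000400200020008060b82))) 
(.lf (nat_lit 6376046628) (dlOf (nat_lit 2) (nat_lit 0x600000003e04000400200020008060b82)))) 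
(.nd (nat_lit 9) (.lf (nat_lit 6308413540) (dlOf (nat_lit 1) (nat_lit 0x400400140018080782))) 
(.lf (nat_lit 6375523940) (dlOf (nat_lit 1) (nat_lit 0x220028003901)))))))) (.nd (nat_lit 6) 
(.nd (nat_lit 8) (.nd (nat_lit 26) (.nd (nat_lit 9) (.nd (nat_lit 10) (.nd (nat_lit 18) 
(.lf (nat_lit 5637324964) (dlOf (nat_lit 1) (nat_lit 0xb800180d0581))) 
(.lf (nat_lit 3221668004) (dlOf (nat_lit 2) (nat_lit 0x602e00097818170200)))) 
(.lf (nat_lit 37668004) (dlOf (nat_lit 1) (nat_lit 0x14004000800190d2c02)))) (.nd (nat_lit 19) 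
(.lf (nat_lit 8573604) (dlOf (nat_lit 1) (nat_lit 0x400200020008518c82))) 
(.lf (nat_lit 8049316) (dlOf (nat_lit 1) (nat_lit 0x8008000400200020008518c83))))) 
(.nd (nat_lit 27) (.nd (nat_lit 9) 
(.lf (nat_lit 4362518692) (dlOf (nat_lit 2) (nat_lit 0xc402d000a0818090200))) 
(.lf (nat_lit 69651108) (dlOf (nat_lit 1) (nat_lit 0x40018b95601)))) (.nd (nat_lit 28) 
(.lf (nat_lit 3959865508) (dlOf (nat_lit 2) (nat_lit 0x602e0009e018170200))) 
(.lf (nat_lit 4228300964) (dlOf (nat_lit 2) (nat_lit 0xc402c00096018090200)))))) (.nd (nat_lit 19) 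
(.nd (nat_lit 9) (.nd (nat_lit 10) (.nd (nat_lit 11) 
(.lf (nat_lit 805749156) (dlOf (nat_lit 2) (nat_lit 0x300420037c8181a0780))) 
(.lf (nat_lit 3490105764) (dlOf (nat_lit 1) (nat_lit 0x400200020008004e82)))) 
(.lf (nat_lit 1610794404) (dlOf (nat_lit 1) (nat_lit 0x20028093601)))) (.nd (nat_lit 11) 
(.lf (nat_lit 2684539812) (dlOf (nat_lit 1) (nat_lit 0x4004000200180a9102))) 
(.lf (nat_lit 738380708) (dlOf (nat_lit 1) (nat_lit 0x50008002800200360008095c83))))) 
(.nd (nat_lit 10) (.nd (nat_lit 11) 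
(.lf (nat_lit 3490628004) (dlOf (nat_lit 1) (nat_lit 0x8008000c00200040008016b83))) 
(.lf (nat_lit 37407140) (dlOf (nat_lit 1) (nat_lit 0x1600090d4e81)))) (.nd (nat_lit 9) 
(.nd (nat_lit 18) (.lf (nat_lit 8045988) (dlOf (nat_lit 1) (nat_lit 0x8008000400200020008513603))) 
(.lf (nat_lit 8308132) (dlOf (nat_lit 1) (nat_lit 0x400200020008513602)))) 
(.lf (nat_lit 8050596) (dlOf (nat_lit 1) (nat_lit 0x2001851a301))))))) (.nd (nat_lit 28) 
(.nd (nat_lit 8) (.nd (nat_lit 9) (.nd (nat_lit 11) 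
(.lf (nat_lit 9617636) (dlOf (nat_lit 1) (nat_lit 0x20800400720008571b02))) (.nd (nat_lit 18) 
(.lf (nat_lit 2752170212) (dlOf (nat_lit 1) (nat_lit 0x6800400b80008004b02))) 
(.lf (nat_lit 8308964) (dlOf (nat_lit 1) (nat_lit 0x400200020008514b02))))) (.nd (nat_lit 10) 
(.lf (nat_lit 20110052) (dlOf (nat_lit 1) (nat_lit 0x3380080004002006400089db983))) 
(.lf (nat_lit 8046308) (dlOf (nat_lit 1) (nat_lit 0x8008000400200020008513a83))))) 
(.nd (nat_lit 11) (.nd (nat_lit 27) 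
(.lf (nat_lit 4362256868) (dlOf (nat_lit 1) (nat_lit 0x680018017d01))) 
(.lf (nat_lit 1812120036) (dlOf (nat_lit 5) (nat_lit 0xb8060030801601320090018002001f800802480000005e0c001800b001d0048001741005c002c029c012003c00400ad0000001702001c002c000a004013400400020018157302)))) 
(.nd (nat_lit 9) 
(.lf (nat_lit 2751650276) (dlOf (nat_lit 3) (nat_lit 0x4c211005aa8101171078029c4080038008001c0020038000800b283))) 
(.lf (nat_lit 8310756) (dlOf (nat_lit 1) (nat_lit 0x400200020008517a82)))))) (.nd (nat_lit 18) 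
(.nd (nat_lit 8) (.nd (nat_lit 10) 
(.lf (nat_lit 3087190244) (dlOf (nat_lit 1) (nat_lit 0x20028144b01))) 
(.lf (nat_lit 2080556260) (dlOf (nat_lit 1) (nat_lit 0x3000200220008092e02)))) (.nd (nat_lit 21) 
(.lf (nat_lit 4228039140) (dlOf (nat_lit 9) (nat_lit 0x38054000690201ce02a0003401010501500019c0809b80a8000cc0403e8054000420201f202a000208100ee0150001000807c80a80007e040070004000a0018017302))) 
(.lf (nat_lit 3491938788) (dlOf (nat_lit 1) (nat_lit 0x20018090c01))))) (.nd (nat_lit 27) 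
(.nd (nat_lit 9) 
(.lf (nat_lit 1410253028) (dlOf (nat_lit 2) (nat_lit 0x18000003360400e0002005a00081b0482))) 
(.lf (nat_lit 1345243876) (dlOf (nat_lit 2) (nat_lit 0x2c1250000a018b05980)))) (.nd (nat_lit 10) 
(.lf (nat_lit 5773377764) (dlOf (nat_lit 1) (nat_lit 0x1600080c1b01))) 
(.lf (nat_lit 1476838628) (dlOf (nat_lit 10) (nat_lit 0x901e000080e4006806c0004e06001203c001c01b00013410007008c0008c0400100460004502000803c002101b00010c1000380f0000807200140360002103000101f8001000800100f0005806c0003e04001a03c001201b0000cc100260008005000200020008202e03)))))))))) 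
(.nd (nat_lit 6) (.nd (nat_lit 5) (.nd (nat_lit 18) (.nd (nat_lit 28) (.nd (nat_lit 21) 
(.nd (nat_lit 10) (.nd (nat_lit 26) (.nd (nat_lit 19) 
(.lf (nat_lit 26460164) (dlOf (nat_lit 1) (nat_lit 0x20008000400200060008c50003))) 
(.lf (nat_lit 537640964) (dlOf (nat_lit 2) (nat_lit 0x2812c0197e04031c004002800080e0002)))) 
(.nd (nat_lit 29) (.nd (nat_lit 30) 
(.lf (nat_lit 67354628) (dlOf (nat_lit 1) (nat_lit 0x14002000600080c0002))) 
(.lf (nat_lit 1141096452) (dlOf (nat_lit 1) (nat_lit 0x4004000200080d0002)))) 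
(.lf (nat_lit 604225540) (dlOf (nat_lit 1) (nat_lit 0x2600180c0001))))) (.nd (nat_lit 7) 
(.lf (nat_lit 2751710212) (dlOf (nat_lit 1) (nat_lit 0x20008002881))) (.nd (nat_lit 8) 
(.lf (nat_lit 4362849924) (dlOf (nat_lit 1) (nat_lit 0xea0028117181))) 
(.lf (nat_lit 3221478788) (dlOf (nat_lit 1) (nat_lit 0x16002811c901)))))) (.nd (nat_lit 19) 
(.nd (nat_lit 20) (.nd (nat_lit 7) (.nd (nat_lit 22) 
(.lf (nat_lit 10731524) (dlOf (nat_lit 1) (nat_lit 0x40018620001))) 
(.lf (nat_lit 14925828) (dlOf (nat_lit 1) (nat_lit 0x20028790001)))) 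
(.lf (nat_lit 2753806468) (dlOf (nat_lit 2) (nat_lit 0x2180000008c0400a400200340008090102)))) 
(.nd (nat_lit 9) (.lf (nat_lit 24363012) (dlOf (nat_lit 1) (nat_lit 0x350002015a0008b90002))) 
(.lf (nat_lit 2754858500) (dlOf (nat_lit 1) (nat_lit 0x200180f7001))))) (.nd (nat_lit 8) 
(.nd (nat_lit 20) 
(.lf (nat_lit 15450116) (dlOf (nat_lit 11) (nat_lit 0x14ac0000a3a80004fae00027ac00013af80009ccc017aa180004ebe0002733005ea0200014ac00009d7c0179e0800052b000047ac00013af80009ccc0179c1000051d400027ac00013af802f24180009f5c0004f58000275f0002399802f2020002a55c001cfac00067ab0004399002ef420000a55c000cfac00bb704000295700053eb00009eac0004e6400bae08000295700043eb00009cc80175a0c0044004000200187f0002))) 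
(.lf (nat_lit 29081604) (dlOf (nat_lit 1) (nat_lit 0x20018dc0001)))) (.nd (nat_lit 7) 
(.lf (nat_lit 8116484) (dlOf (nat_lit 1) (nat_lit 0x40040002000851a982))) 
(.lf (nat_lit 8116100) (dlOf (nat_lit 1) (nat_lit 0x2001851a301))))))) (.nd (nat_lit 7) 
(.nd (nat_lit 30) (.nd (nat_lit 27) (.nd (nat_lit 29) 
(.lf (nat_lit 4563648516) (dlOf (nat_lit 10) (nat_lit 0x17a03400be019005e007c02f402a01a3b08017a03400be019005e007c02d802a01a3908003c03400d1481001601a00683c0800900d0034140400a8068019e102018a03400c60190061807c031002a00f801200cee05003c01a001880c800bc03e005801500ced04000501a0000000801280080078002004e00080b0003))) 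
(.lf (nat_lit 2953035780) (dlOf (nat_lit 1) (nat_lit 0x80080004002000200080c0003)))) 
(.lf (nat_lit 4697866244) (dlOf (nat_lit 10) (nat_lit 0x17a03400be019005e007c02f402a01da008017a03400be019005e007c02d802a01d9e08002c03400ebe81001e01a0075e80800900d003ae20400a806801d4802018a03400c60190061807c031002a00f801200ea185003c01a001880c800bc03e005801500e9f84000501a0000000801280080078002004e00080b0003)))) 
(.nd (nat_lit 19) 
(.lf (nat_lit 3494100996) (dlOf (nat_lit 4) (nat_lit 0x2e07b00d2001000403d8068f80800601ec033b604002c004000400181b0002))) 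
(.lf (nat_lit 1410056196) (dlOf (nat_lit 2) (nat_lit 0x2812c00e2a04031c004002800080e0002))))) 
(.nd (nat_lit 8) (.nd (nat_lit 10) (.nd (nat_lit 26) 
(.lf (nat_lit 1879294084) (dlOf (nat_lit 2) (nat_lit 0xc4004000250180c0100))) 
(.lf (nat_lit 1006878852) (dlOf (nat_lit 2) (nat_lit 0xc4005000250180c0100)))) 
(.lf (nat_lit 3489909892) (dlOf (nat_lit 1) (nat_lit 0x20028006101)))) (.nd (nat_lit 10) 
(.lf (nat_lit 4026777988) (dlOf (nat_lit 1) (nat_lit 0x2c00400380008090782))) 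
(.lf (nat_lit 3489910148) (dlOf (nat_lit 2) (nat_lit 0x207a00004004004800400080008006c02))))))) 
(.nd (nat_lit 19) (.nd (nat_lit 26) (.nd (nat_lit 8) (.nd (nat_lit 20) (.nd (nat_lit 27) 
(.nd (nat_lit 29) (.nd (nat_lit 10) 
(.lf (nat_lit 13090820) (dlOf (nat_lit 8) (nat_lit 0x98fc003cc50002a610000f2dc8071a82000518fc000cc50000461000022dc8071a42000418fc002cc2000165b900e3403000731f800518400028b7201c6706000663f001231400029840037d80c0014c78000662500b8a02000131e005c4808039000801f4002000800086f0003))) 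
(.lf (nat_lit 515076) (dlOf (nat_lit 1) (nat_lit 0x40040002000800bf02)))) (.nd (nat_lit 28) 
(.lf (nat_lit 1611120644) (dlOf (nat_lit 2) (nat_lit 0x402d005c500800e000800b0002003600080e0003))) 
(.lf (nat_lit 805814276) (dlOf (nat_lit 1) (nat_lit 0x80080014002000e00081b0003))))) 
(.nd (nat_lit 7) 
(.lf (nat_lit 134726148) (dlOf (nat_lit 7) (nat_lit 0x36020800600fc00a807a00169060062041000201e80008c100158104000300400ac082001a03d0000b82002b0208000580801801040002a0400b8004004c0008090d82))) 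
(.lf (nat_lit 134725764) (dlOf (nat_lit 11) (nat_lit 0x4404a0002581012f0250020811800440540004a06004004a0002481010a01d800300d80008c0801f80940003d02000804a0001d01002f0250000e00804801280006e0400440b602060000001882007f01d800054080210008018000200340008090103))))) 
(.nd (nat_lit 9) (.nd (nat_lit 10) 
(.lf (nat_lit 3653636) (dlOf (nat_lit 2) (nat_lit 0x2769400cfc04001400400160008210002))) 
(.lf (nat_lit 47694852) (dlOf (nat_lit 1) (nat_lit 0x800200020009402882)))) 
(.lf (nat_lit 58180100) (dlOf (nat_lit 1) (nat_lit 0x4004000200097c7b02))))) (.nd (nat_lit 7) 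
(.nd (nat_lit 27) 
(.lf (nat_lit 1342685444) (dlOf (nat_lit 4) (nat_lit 0x82226003f0f98001f0100188898000f604004844c0007a02003800080c0481))) 
(.lf (nat_lit 3892822276) (dlOf (nat_lit 1) (nat_lit 0x10008000c002006e0008280703)))) 
(.lf (nat_lit 61326724) (dlOf (nat_lit 1) (nat_lit 0x8008000400200020009923583))))) 
(.nd (nat_lit 27) (.nd (nat_lit 28) (.nd (nat_lit 29) 
(.lf (nat_lit 67616772) (dlOf (nat_lit 1) (nat_lit 0x1c00200020008290002))) 
(.lf (nat_lit 1678229508) (dlOf (nat_lit 1) (nat_lit 0x80080014002000e00081b0003)))) 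
(.lf (nat_lit 3557277700) (dlOf (nat_lit 1) (nat_lit 0x11800800d400200720008190003)))) 
(.nd (nat_lit 7) 
(.lf (nat_lit 738705412) (dlOf (nat_lit 2) (nat_lit 0x402d0056b40800e000800b0002003600080e0003))) 
(.lf (nat_lit 201834628) (dlOf (nat_lit 11) (nat_lit 0x4404a0002581012f0250020811800440540004a06004004a0002481010a01d800300d80008c0801f80940003d02000804a0001d01002f0250000e00804801280006e0400440b802060000001882007f01d800058080210008018000200340008090103)))))) 
(.nd (nat_lit 20) (.nd (nat_lit 22) (.nd (nat_lit 7) (.nd (nat_lit 23) 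
(.lf (nat_lit 68141060) (dlOf (nat_lit 2) (nat_lit 0x4800001c2c04007c00200160008400002))) 
(.lf (nat_lit 9420804) (dlOf (nat_lit 1) (nat_lit 0x20028550001)))) 
(.lf (nat_lit 6376376964) (dlOf (nat_lit 1) (nat_lit 0x400200020008095482)))) (.nd (nat_lit 23) 
(.lf (nat_lit 22003716) (dlOf (nat_lit 1) (nat_lit 0x20028a90001))) 
(.lf (nat_lit 47169540) (dlOf (nat_lit 1) (nat_lit 0x200193b0001))))) (.nd (nat_lit 28) 
(.nd (nat_lit 22) 
(.lf (nat_lit 18857988) (dlOf (nat_lit 1) (nat_lit 0x10008000400200020008970003))) 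
(.lf (nat_lit 14663684) (dlOf (nat_lit 1) (nat_lit 0x400200020008770002)))) (.nd (nat_lit 8) 
(.lf (nat_lit 3491742212) (dlOf (nat_lit 1) (nat_lit 0x400200020008090d82))) 
(.lf (nat_lit 471843076) (dlOf (nat_lit 1) (nat_lit 0x160028520701)))))))) (.nd (nat_lit 19) 
(.nd (nat_lit 29) (.nd (nat_lit 7) (.nd (nat_lit 18) (.nd (nat_lit 21) 
(.lf (nat_lit 1476640804) (dlOf (nat_lit 1) (nat_lit 0xe00280c0681))) (.nd (nat_lit 23) 
(.lf (nat_lit 52674596) (dlOf (nat_lit 2) (nat_lit 0x1a98d00008819560700))) 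
(.lf (nat_lit 10731556) (dlOf (nat_lit 2) (nat_lit 0x11688001540800480080014002000c0008620583))))) 
(.nd (nat_lit 20) 
(.lf (nat_lit 34062372) (dlOf (nat_lit 3) (nat_lit 0x4030a801997f4000780800c0bfa000390200160018fa0701))) 
(.nd (nat_lit 24) (.lf (nat_lit 9945124) (dlOf (nat_lit 1) (nat_lit 0x20018590901))) 
(.lf (nat_lit 26722340) (dlOf (nat_lit 1) (nat_lit 0x400200020008c60702)))))) (.nd (nat_lit 9) 
(.nd (nat_lit 8) (.lf (nat_lit 61064356) (dlOf (nat_lit 1) (nat_lit 0x200298c2c01))) 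
(.lf (nat_lit 3490171300) (dlOf (nat_lit 1) (nat_lit 0x400200020008004e82)))) (.nd (nat_lit 10) 
(.nd (nat_lit 18) (.lf (nat_lit 20173476) (dlOf (nat_lit 1) (nat_lit 0x4002000200089d8c82))) 
(.lf (nat_lit 8901284) (dlOf (nat_lit 1) (nat_lit 0x400200020008518c82)))) 
(.lf (nat_lit 20174500) (dlOf (nat_lit 1) (nat_lit 0x4002000200089da002)))))) (.nd (nat_lit 8) 
(.nd (nat_lit 9) (.nd (nat_lit 26) (.nd (nat_lit 27) 
(.lf (nat_lit 1611120676) (dlOf (nat_lit 1) (nat_lit 0x10002000600080e0902))) 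
(.lf (nat_lit 2819080228) (dlOf (nat_lit 1) (nat_lit 0x20018190701)))) 
(.lf (nat_lit 738705444) (dlOf (nat_lit 1) (nat_lit 0x10002000600080e0902)))) (.nd (nat_lit 7) 
(.lf (nat_lit 2755904036) (dlOf (nat_lit 2) (nat_lit 0x1205c000128181b0e00))) 
(.lf (nat_lit 2754858660) (dlOf (nat_lit 2) (nat_lit 0x200a000054040004004000400180f7202))))) 
(.nd (nat_lit 7) (.nd (nat_lit 21) 
(.lf (nat_lit 3020144932) (dlOf (nat_lit 1) (nat_lit 0x1540018130701))) 
(.lf (nat_lit 1008976164) (dlOf (nat_lit 1) (nat_lit 0x8004000c0009000a82)))) (.nd (nat_lit 10) 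
(.lf (nat_lit 6308481956) (dlOf (nat_lit 2) (nat_lit 0xb00c8001140800400080014002000200080d5c83))) 
(.lf (nat_lit 2818822052) (dlOf (nat_lit 2) (nat_lit 0x201b0000940800b80080010002000c0008127903))))))) 
(.nd (nat_lit 7) (.nd (nat_lit 21) (.nd (nat_lit 18) (.nd (nat_lit 20) (.nd (nat_lit 22) 
(.nd (nat_lit 26) 
(.lf (nat_lit 537640996) (dlOf (nat_lit 3) (nat_lit 0x1da0290008ec0813f0148022c066010e008001170380e0480))) 
(.lf (nat_lit 1410056228) (dlOf (nat_lit 3) (nat_lit 0x1da0290008ec0813f0148022c066010e008001170380e0480)))) 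
(.lf (nat_lit 4964388) (dlOf (nat_lit 1) (nat_lit 0x200282e0701)))) 
(.lf (nat_lit 1818660) (dlOf (nat_lit 1) (nat_lit 0x10008000c00200020008140803)))) 
(.lf (nat_lit 9420836) (dlOf (nat_lit 1) (nat_lit 0x120008550581)))) (.nd (nat_lit 28) 
(.nd (nat_lit 10) (.nd (nat_lit 18) 
(.lf (nat_lit 2754330660) (dlOf (nat_lit 1) (nat_lit 0x200280d0901))) 
(.lf (nat_lit 19906596) (dlOf (nat_lit 1) (nat_lit 0x400089d0001)))) (.nd (nat_lit 18) 
(.lf (nat_lit 57394212) (dlOf (nat_lit 1) (nat_lit 0x120009792881))) 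
(.lf (nat_lit 61850660) (dlOf (nat_lit 1) (nat_lit 0x80019922881))))) (.nd (nat_lit 26) 
(.nd (nat_lit 31) 
(.lf (nat_lit 1345044516) (dlOf (nat_lit 7) (nat_lit 0x26102801b86a401a82d0013214500b2067801c82c802180e600e001c0002288000c0b4801505a0003003a00036060054168003000e00007c1001505a000c00380001d0400140bd000090100110b380030598000220800a8004001c00189d0702))) 
(.lf (nat_lit 3492528164) (dlOf (nat_lit 1) (nat_lit 0x200280d0901)))) (.nd (nat_lit 18) 
(.lf (nat_lit 472629284) (dlOf (nat_lit 1) (nat_lit 0x100080014002001000089d0703))) 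
(.lf (nat_lit 473940004) (dlOf (nat_lit 2) (nat_lit 0x9a096001e0418000a4100150008002000200160008fc0203))))))) 
(.nd (nat_lit 12) (.nd (nat_lit 10) (.nd (nat_lit 8) 
(.lf (nat_lit 473680548) (dlOf (nat_lit 1) (nat_lit 0x400400020008fa5602))) 
(.lf (nat_lit 3490693540) (dlOf (nat_lit 1) (nat_lit 0x20018016b81)))) (.nd (nat_lit 21) 
(.lf (nat_lit 34325668) (dlOf (nat_lit 1) (nat_lit 0x600018fb2c01))) 
(.lf (nat_lit 36422820) (dlOf (nat_lit 1) (nat_lit 0x1800200040009072c02))))) (.nd (nat_lit 18) 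
(.nd (nat_lit 8) (.lf (nat_lit 19650212) (dlOf (nat_lit 1) (nat_lit 0x80080004002000200089da003))) 
(.lf (nat_lit 8116132) (dlOf (nat_lit 1) (nat_lit 0x80020002000851a302)))) (.nd (nat_lit 10) 
(.lf (nat_lit 8376996) (dlOf (nat_lit 1) (nat_lit 0x8008000400200020008518c83))) 
(.lf (nat_lit 19912356) (dlOf (nat_lit 1) (nat_lit 0x200189da001))))))))) (.nd (nat_lit 18) 
(.nd (nat_lit 5) (.nd (nat_lit 21) (.nd (nat_lit 8) (.nd (nat_lit 19) (.nd (nat_lit 9) 
(.nd (nat_lit 22) (.nd (nat_lit 26) 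
(.lf (nat_lit 134463556) (dlOf (nat_lit 3) (nat_lit 0x2a0410000e01020b02080db80f406300700001a0600320028030e81))) 
(.lf (nat_lit 201572420) (dlOf (nat_lit 3) (nat_lit 0x2a0410000e81020b02080db80f406300700001b0600320028030e81)))) 
(.lf (nat_lit 63160388) (dlOf (nat_lit 5) (nat_lit 0x819f8002840401249a80012f0200604d40009701005c26a0002f80800a80080034002002200099e0603)))) 
(.nd (nat_lit 20) 
(.lf (nat_lit 1677967940) (dlOf (nat_lit 4) (nat_lit 0x6d0288002012c000480801040a20001f020046051002501d000070100030008001c00200280008128d03))) 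
(.lf (nat_lit 9683524) (dlOf (nat_lit 1) (nat_lit 0x18008002800200080008578d03))))) 
(.nd (nat_lit 23) (.nd (nat_lit 7) 
(.lf (nat_lit 67879492) (dlOf (nat_lit 2) (nat_lit 0x4050c0007004001000200040008331582))) 
(.lf (nat_lit 34325700) (dlOf (nat_lit 1) (nat_lit 0x40008fb2d01)))) (.nd (nat_lit 20) 
(.lf (nat_lit 59490372) (dlOf (nat_lit 1) (nat_lit 0x400400020009800602))) 
(.lf (nat_lit 10207300) (dlOf (nat_lit 1) (nat_lit 0x1000185c0e81)))))) (.nd (nat_lit 26) 
(.nd (nat_lit 7) 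
(.lf (nat_lit 805552452) (dlOf (nat_lit 3) (nat_lit 0x14600a0021f81006f0050010ec080290008011000200600008124c03))) 
(.nd (nat_lit 10) 
(.lf (nat_lit 5772132804) (dlOf (nat_lit 1) (nat_lit 0x8008000400200020008091083))) 
(.lf (nat_lit 2818823620) (dlOf (nat_lit 1) (nat_lit 0x80028129a01))))) (.nd (nat_lit 27) 
(.nd (nat_lit 9) 
(.lf (nat_lit 1677967684) (dlOf (nat_lit 3) (nat_lit 0x14600a004ea01006f005002748080290008011000200600008124c03))) 
(.lf (nat_lit 4899195716) (dlOf (nat_lit 1) (nat_lit 0xc004000200180d5c02)))) (.nd (nat_lit 19) 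
(.lf (nat_lit 4496539972) (dlOf (nat_lit 1) (nat_lit 0x4002000200080e0c02))) 
(.lf (nat_lit 6376112452) (dlOf (nat_lit 1) (nat_lit 0x400200020008090c02))))))) (.nd (nat_lit 7) 
(.nd (nat_lit 9) (.nd (nat_lit 8) (.nd (nat_lit 20) 
(.lf (nat_lit 56868932) (dlOf (nat_lit 1) (nat_lit 0x1a0019770601))) 
(.lf (nat_lit 32751684) (dlOf (nat_lit 1) (nat_lit 0x400200020008f10602)))) 
(.lf (nat_lit 2343236) (dlOf (nat_lit 2) (nat_lit 0x1be088000000400cc002000c0008150602)))) 
(.nd (nat_lit 11) (.lf (nat_lit 23315012) (dlOf (nat_lit 1) (nat_lit 0x8008001400200080008b81103))) 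
(.nd (nat_lit 12) (.lf (nat_lit 33278532) (dlOf (nat_lit 1) (nat_lit 0x8008000400200020008f55203))) 
(.lf (nat_lit 8116804) (dlOf (nat_lit 1) (nat_lit 0x40020002000851b502)))))) (.nd (nat_lit 8) 
(.nd (nat_lit 9) 
(.lf (nat_lit 61064388) (dlOf (nat_lit 4) (nat_lit 0x6342000e19f4000ccf800126660003332800196c40028b2800084e60001288000233e80008c08007932800044040004004000600098c2d02))) 
(.nd (nat_lit 11) (.lf (nat_lit 19649220) (dlOf (nat_lit 1) (nat_lit 0x200189d8c81))) 
(.lf (nat_lit 19651268) (dlOf (nat_lit 1) (nat_lit 0x4002000200089db982))))) (.nd (nat_lit 20) 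
(.lf (nat_lit 23314884) (dlOf (nat_lit 2) (nat_lit 0x36cf500010018b80900))) 
(.lf (nat_lit 41140676) (dlOf (nat_lit 1) (nat_lit 0x20029227001))))))) (.nd (nat_lit 7) 
(.nd (nat_lit 21) (.nd (nat_lit 19) (.nd (nat_lit 8) (.nd (nat_lit 9) 
(.lf (nat_lit 1346618468) (dlOf (nat_lit 1) (nat_lit 0x880018fe2981))) 
(.lf (nat_lit 8636004) (dlOf (nat_lit 1) (nat_lit 0x400200020008513902)))) 
(.lf (nat_lit 1543749988) (dlOf (nat_lit 3) (nat_lit 0x18046004c60200e8025006801100438068009600c018800400040018154f02)))) 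
(.nd (nat_lit 11) (.nd (nat_lit 20) 
(.lf (nat_lit 6376112228) (dlOf (nat_lit 1) (nat_lit 0x20008090101))) 
(.lf (nat_lit 4095459428) (dlOf (nat_lit 1) (nat_lit 0x4004000200080c1d82)))) 
(.lf (nat_lit 4228630628) (dlOf (nat_lit 1) (nat_lit 0xea0028114701))))) (.nd (nat_lit 20) 
(.nd (nat_lit 8) (.nd (nat_lit 23) 
(.lf (nat_lit 1008975972) (dlOf (nat_lit 1) (nat_lit 0x10008001000200040009000103))) 
(.lf (nat_lit 44286052) (dlOf (nat_lit 2) (nat_lit 0x4c5e00ce702000400092e0781)))) 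
(.lf (nat_lit 5773706596) (dlOf (nat_lit 1) (nat_lit 0x80080004002000200080e3483)))) 
(.nd (nat_lit 8) (.nd (nat_lit 19) 
(.lf (nat_lit 24363108) (dlOf (nat_lit 1) (nat_lit 0xb8008004800200140008b91383))) 
(.lf (nat_lit 45858916) (dlOf (nat_lit 1) (nat_lit 0x100019360981)))) 
(.lf (nat_lit 3391844) (dlOf (nat_lit 1) (nat_lit 0x20008200701)))))) (.nd (nat_lit 10) 
(.nd (nat_lit 8) (.nd (nat_lit 9) (.nd (nat_lit 11) 
(.lf (nat_lit 62111972) (dlOf (nat_lit 1) (nat_lit 0x9800201ac0009951b02))) 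
(.lf (nat_lit 3493054692) (dlOf (nat_lit 1) (nat_lit 0x1400080f4b01)))) 
(.lf (nat_lit 20175588) (dlOf (nat_lit 1) (nat_lit 0x180080010002000200089db983)))) 
(.nd (nat_lit 9) (.nd (nat_lit 11) 
(.lf (nat_lit 9683428) (dlOf (nat_lit 1) (nat_lit 0x1000400020018577d02))) 
(.lf (nat_lit 4094413284) (dlOf (nat_lit 1) (nat_lit 0x400400020008054e82)))) (.nd (nat_lit 11) 
(.lf (nat_lit 2751710180) (dlOf (nat_lit 1) (nat_lit 0x20008002881))) 
(.lf (nat_lit 4496542692) (dlOf (nat_lit 2) (nat_lit 0x1280c80004c04001c004000a00180e5e82)))))) 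
(.nd (nat_lit 28) (.nd (nat_lit 8) (.nd (nat_lit 9) 
(.lf (nat_lit 5368956132) (dlOf (nat_lit 2) (nat_lit 0xc0020000000800080080024002001e0008092e03))) 
(.lf (nat_lit 8111844) (dlOf (nat_lit 1) (nat_lit 0x400400020008513a82)))) (.nd (nat_lit 19) 
(.lf (nat_lit 2818823652) (dlOf (nat_lit 1) (nat_lit 0x59800807f400201100008129b03))) 
(.lf (nat_lit 67884516) (dlOf (nat_lit 1) (nat_lit 0x260018339b01))))) (.nd (nat_lit 20) 
(.nd (nat_lit 26) (.lf (nat_lit 5637391588) (dlOf (nat_lit 1) (nat_lit 0x10002000400080d2e02))) 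
(.lf (nat_lit 872662244) (dlOf (nat_lit 1) (nat_lit 0x4400400160008092e02)))) 
(.lf (nat_lit 5772657892) (dlOf (nat_lit 1) (nat_lit 0x20028092e01)))))))) (.nd (nat_lit 21) 
(.nd (nat_lit 28) (.nd (nat_lit 5) (.nd (nat_lit 26) (.nd (nat_lit 8) (.nd (nat_lit 19) 
(.lf (nat_lit 35110980) (dlOf (nat_lit 1) (nat_lit 0xd8000800a000203580008fd0603))) 
(.lf (nat_lit 59752516) (dlOf (nat_lit 1) (nat_lit 0x288004012c0009820602)))) (.nd (nat_lit 7) 
(.lf (nat_lit 3892822340) (dlOf (nat_lit 2) (nat_lit 0x1400700510018280700))) 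
(.lf (nat_lit 50840004) (dlOf (nat_lit 1) (nat_lit 0xfc004009000094d7a82))))) (.nd (nat_lit 32) 
(.nd (nat_lit 19) 
(.lf (nat_lit 1678229572) (dlOf (nat_lit 2) (nat_lit 0x7012c00064040018004007200181b0d02))) 
(.lf (nat_lit 69189700) (dlOf (nat_lit 1) (nat_lit 0x200288c0601)))) (.nd (nat_lit 7) 
(.lf (nat_lit 4362584388) (dlOf (nat_lit 1) (nat_lit 0xa0018090601))) 
(.lf (nat_lit 4362584260) (dlOf (nat_lit 1) (nat_lit 0x20018090401)))))) (.nd (nat_lit 10) 
(.nd (nat_lit 25) (.lf (nat_lit 21479524) (dlOf (nat_lit 2) (nat_lit 0xaa7300382818a40780))) 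
(.lf (nat_lit 55033956) (dlOf (nat_lit 2) (nat_lit 0x1a4b1000b24f801cf81000680080018002001e0009690783)))) 
(.nd (nat_lit 7) (.lf (nat_lit 8898148) (dlOf (nat_lit 1) (nat_lit 0x400400060018513902))) 
(.lf (nat_lit 8897764) (dlOf (nat_lit 1) (nat_lit 0x1180080020002000a0008512e03)))))) 
(.nd (nat_lit 8) (.nd (nat_lit 29) (.nd (nat_lit 9) 
(.lf (nat_lit 3494363204) (dlOf (nat_lit 1) (nat_lit 0x20018211881))) (.nd (nat_lit 26) 
(.lf (nat_lit 1342685764) (dlOf (nat_lit 5) (nat_lit 0x3708dc000a20400fc48e0004c0200480940002101008511b8000e8080108008001c002006a00080c1103))) 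
(.lf (nat_lit 470270532) (dlOf (nat_lit 5) (nat_lit 0x3708dc000a20400fc48e0004c0200480940002101008511b8000e8080108008001c002006a00080c1103))))) 
(.nd (nat_lit 5) (.nd (nat_lit 7) 
(.lf (nat_lit 805814340) (dlOf (nat_lit 5) (nat_lit 0x64027801d812c00300000003106004c04b00030000000c0100078148009401c001800c00260000000a820004800000052040070002001000081b0e02))) 
(.lf (nat_lit 4228366532) (dlOf (nat_lit 1) (nat_lit 0x20018090401)))) 
(.lf (nat_lit 805814372) (dlOf (nat_lit 1) (nat_lit 0x2780080040002005000081b1383))))) 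
(.nd (nat_lit 5) (.nd (nat_lit 7) 
(.lf (nat_lit 4228366660) (dlOf (nat_lit 1) (nat_lit 0xa0018090601))) (.nd (nat_lit 26) 
(.lf (nat_lit 1342685636) (dlOf (nat_lit 15) (nat_lit 0x10804a00013c080dc82500009c0406e41280004d0203120940002601005b04a000110080dc8250000860406e8128000420203560940001e8101b804a0000f0080c88250000740404d4128000380203420940001b81019904a0000cc08013825000022040008004003600080c0902))) 
(.lf (nat_lit 470270404) (dlOf (nat_lit 15) (nat_lit 0x10804a00013c080dc82500009c0406e41280004d0203120940002601005b04a000110080dc8250000860406e8128000420203560940001e8101b804a0000f0080c88250000740404d4128000380203420940001b81019904a0000cc08013825000022040008004003600080c0902))))) 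
(.nd (nat_lit 10) 
(.lf (nat_lit 3490693476) (dlOf (nat_lit 1) (nat_lit 0x30008000400200040008014f03))) 
(.lf (nat_lit 3490172260) (dlOf (nat_lit 1) (nat_lit 0x60028006a81))))))) (.nd (nat_lit 19) 
(.nd (nat_lit 5) (.nd (nat_lit 22) (.nd (nat_lit 25) (.nd (nat_lit 26) 
(.lf (nat_lit 2605124) (dlOf (nat_lit 2) (nat_lit 0xc1d100006018170d00))) 
(.lf (nat_lit 1009238084) (dlOf (nat_lit 3) (nat_lit 0x2075000b18100040710002ec0800e00080088002000a00090a0603)))) 
(.lf (nat_lit 36159556) (dlOf (nat_lit 1) (nat_lit 0x400400020009030602)))) (.nd (nat_lit 20) 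
(.lf (nat_lit 31965252) (dlOf (nat_lit 1) (nat_lit 0x8f0008007c00202a20008eb0603))) 
(.lf (nat_lit 24625220) (dlOf (nat_lit 1) (nat_lit 0x3e400401a60008ba0d02))))) (.nd (nat_lit 7) 
(.lf (nat_lit 1009238116) (dlOf (nat_lit 1) (nat_lit 0x200290a0981))) (.nd (nat_lit 8) 
(.lf (nat_lit 40356580) (dlOf (nat_lit 1) (nat_lit 0x6400191f5981))) 
(.lf (nat_lit 473416676) (dlOf (nat_lit 1) (nat_lit 0xb40018f52881)))))) (.nd (nat_lit 8) 
(.nd (nat_lit 26) (.nd (nat_lit 5) (.nd (nat_lit 7) 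
(.lf (nat_lit 16760900) (dlOf (nat_lit 1) (nat_lit 0x5600188e0001))) 
(.lf (nat_lit 19911364) (dlOf (nat_lit 1) (nat_lit 0x80080004002000200089d8c83)))) 
(.lf (nat_lit 46121060) (dlOf (nat_lit 1) (nat_lit 0x40019380101)))) (.nd (nat_lit 5) 
(.nd (nat_lit 7) (.lf (nat_lit 473940036) (dlOf (nat_lit 2) (nat_lit 0x4415d0005e818fc0600))) 
(.lf (nat_lit 472892612) (dlOf (nat_lit 1) (nat_lit 0x260028b52d01)))) 
(.lf (nat_lit 473940068) (dlOf (nat_lit 5) (nat_lit 0x4f81b200ea0d80000702009b06c8000300809f036401d41b00000a04027c0d900000018fc0980))))) 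
(.nd (nat_lit 5) (.nd (nat_lit 7) (.nd (nat_lit 9) 
(.lf (nat_lit 2755641668) (dlOf (nat_lit 1) (nat_lit 0x200081b0601))) 
(.lf (nat_lit 19909444) (dlOf (nat_lit 1) (nat_lit 0x4002000200089d5c02)))) 
(.lf (nat_lit 3492796356) (dlOf (nat_lit 1) (nat_lit 0xac004009000080fa602)))) (.nd (nat_lit 7) 
(.lf (nat_lit 57656676) (dlOf (nat_lit 1) (nat_lit 0x260019793481))) 
(.lf (nat_lit 19909604) (dlOf (nat_lit 1) (nat_lit 0xd80080038002000800089d5e83))))))))))) 
(.nd (nat_lit 6) (.nd (nat_lit 16) (.nd (nat_lit 5) (.nd (nat_lit 7) (.nd (nat_lit 19) 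
(.nd (nat_lit 24) (.nd (nat_lit 26) (.nd (nat_lit 23) (.nd (nat_lit 9) 
(.lf (nat_lit 1610793989) (dlOf (nat_lit 1) (nat_lit 0x100028092881))) 
(.lf (nat_lit 186885) (dlOf (nat_lit 1) (nat_lit 0x10001800b281)))) (.nd (nat_lit 21) 
(.lf (nat_lit 12763141) (dlOf (nat_lit 1) (nat_lit 0x4004000600086e0002))) 
(.lf (nat_lit 44220421) (dlOf (nat_lit 1) (nat_lit 0xde00192e0001))))) (.nd (nat_lit 18) 
(.nd (nat_lit 9) (.lf (nat_lit 5704433669) (dlOf (nat_lit 1) (nat_lit 0x20018080001))) 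
(.lf (nat_lit 2348990981) (dlOf (nat_lit 1) (nat_lit 0x400400020008090d82)))) (.nd (nat_lit 8) 
(.lf (nat_lit 3557212165) (dlOf (nat_lit 1) (nat_lit 0x400400060008170002))) 
(.lf (nat_lit 472302853) (dlOf (nat_lit 1) (nat_lit 0x4e0008982f81)))))) (.nd (nat_lit 18) 
(.nd (nat_lit 20) (.lf (nat_lit 23248901) (dlOf (nat_lit 1) (nat_lit 0x20018b70001))) 
(.nd (nat_lit 25) (.lf (nat_lit 28491781) (dlOf (nat_lit 1) (nat_lit 0x800400020008da0002))) 
(.lf (nat_lit 62046213) (dlOf (nat_lit 1) (nat_lit 0x20029940001))))) (.nd (nat_lit 20) 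
(.lf (nat_lit 17219589) (dlOf (nat_lit 1) (nat_lit 0x4004000200088e0002))) (.nd (nat_lit 23) 
(.lf (nat_lit 18268165) (dlOf (nat_lit 1) (nat_lit 0x80028920001))) 
(.lf (nat_lit 26656773) (dlOf (nat_lit 1) (nat_lit 0x8008000400200020008c50003))))))) 
(.nd (nat_lit 18) (.nd (nat_lit 21) (.nd (nat_lit 20) (.nd (nat_lit 22) 
(.lf (nat_lit 59424773) (dlOf (nat_lit 1) (nat_lit 0x200297f0001))) 
(.lf (nat_lit 21676037) (dlOf (nat_lit 10) (nat_lit 0x4982001690200024c200012608005a0100009304002ce0400094ac0004a4c0006382000952b80022958002149a000ea4a00072610002f028004295c0016e0400254ae00144c2000118200012608000600800093040002e04000c00400020008a60582)))) 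
(.lf (nat_lit 1753093) (dlOf (nat_lit 3) (nat_lit 0xcc17000653f000429b402d040c001982e000ea7e00085368057ec1801c80080058002001e0008130003)))) 
(.nd (nat_lit 9) (.nd (nat_lit 10) 
(.lf (nat_lit 15384581) (dlOf (nat_lit 3) (nat_lit 0x12b5800091d8017a608003c8ea00bbc02003a00287e0001))) 
(.lf (nat_lit 69911557) (dlOf (nat_lit 1) (nat_lit 0x12800800c800200540008e12883)))) 
(.lf (nat_lit 8049157) (dlOf (nat_lit 1) (nat_lit 0x400200020008518682))))) (.nd (nat_lit 20) 
(.nd (nat_lit 23) (.lf (nat_lit 966661) (dlOf (nat_lit 1) (nat_lit 0x200028040001))) 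
(.lf (nat_lit 42909701) (dlOf (nat_lit 1) (nat_lit 0x940019290001)))) (.nd (nat_lit 26) 
(.lf (nat_lit 3491676165) (dlOf (nat_lit 1) (nat_lit 0x10004000c0008090002))) (.nd (nat_lit 27) 
(.lf (nat_lit 2753478661) (dlOf (nat_lit 1) (nat_lit 0x18c00400400008090002))) 
(.lf (nat_lit 471777285) (dlOf (nat_lit 1) (nat_lit 0x18008000c00200020008490003)))))))) 
(.nd (nat_lit 10) (.nd (nat_lit 21) (.nd (nat_lit 27) (.nd (nat_lit 11) (.nd (nat_lit 18) 
(.lf (nat_lit 2753216901) (dlOf (nat_lit 2) (nat_lit 0x221f80065a818090780))) 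
(.lf (nat_lit 1678164357) (dlOf (nat_lit 4) (nat_lit 0x2901080196a04007408400cb40200880420064f8181a0780)))) 
(.nd (nat_lit 9) 
(.lf (nat_lit 5436000645) (dlOf (nat_lit 2) (nat_lit 0xf0088037400801e0008004800200620008094e83))) 
(.lf (nat_lit 6241307525) (dlOf (nat_lit 1) (nat_lit 0x1c00280d5c01))))) (.nd (nat_lit 8) 
(.nd (nat_lit 19) (.lf (nat_lit 2818752645) (dlOf (nat_lit 1) (nat_lit 0x800400020008113a02))) 
(.lf (nat_lit 6377095301) (dlOf (nat_lit 1) (nat_lit 0x5c00080a2281)))) (.nd (nat_lit 9) 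
(.lf (nat_lit 738380165) (dlOf (nat_lit 2) (nat_lit 0x540ae01bc402004e0008094e81))) 
(.lf (nat_lit 3422737285) (dlOf (nat_lit 1) (nat_lit 0x80080004002000200080a9003)))))) 
(.nd (nat_lit 8) (.nd (nat_lit 9) (.nd (nat_lit 20) 
(.lf (nat_lit 23511173) (dlOf (nat_lit 1) (nat_lit 0x80080008002002c0008b80103))) 
(.lf (nat_lit 11976837) (dlOf (nat_lit 1) (nat_lit 0x8008000c002000200086c0103)))) 
(.lf (nat_lit 19841669) (dlOf (nat_lit 1) (nat_lit 0x6200189d1a01)))) (.nd (nat_lit 11) 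
(.nd (nat_lit 9) (.lf (nat_lit 8044933) (dlOf (nat_lit 1) (nat_lit 0x8008000400200020008511003))) 
(.lf (nat_lit 19841925) (dlOf (nat_lit 1) (nat_lit 0xc00189d2581)))) (.nd (nat_lit 18) 
(.lf (nat_lit 37407109) (dlOf (nat_lit 1) (nat_lit 0x79400202f600090d4e82))) 
(.lf (nat_lit 57067909) (dlOf (nat_lit 1) (nat_lit 0x8008000400200020009794e83))))))) 
(.nd (nat_lit 9) (.nd (nat_lit 18) (.nd (nat_lit 8) (.nd (nat_lit 11) 
(.lf (nat_lit 2684540037) (dlOf (nat_lit 1) (nat_lit 0x4c00280a9501))) 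
(.lf (nat_lit 1543687301) (dlOf (nat_lit 1) (nat_lit 0x400400020008146102)))) (.nd (nat_lit 19) 
(.nd (nat_lit 23) 
(.lf (nat_lit 1610794373) (dlOf (nat_lit 1) (nat_lit 0x900080014002001a0008093603))) 
(.lf (nat_lit 8570245) (dlOf (nat_lit 1) (nat_lit 0x400200020008513602)))) 
(.lf (nat_lit 8045957) (dlOf (nat_lit 1) (nat_lit 0x400200020008513602))))) (.nd (nat_lit 19) 
(.nd (nat_lit 23) 
(.lf (nat_lit 1476838789) (dlOf (nat_lit 2) (nat_lit 0x390060008b40800500080038002009e0008203603))) 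
(.lf (nat_lit 8832389) (dlOf (nat_lit 1) (nat_lit 0x800200020008513602)))) 
(.lf (nat_lit 61785477) (dlOf (nat_lit 1) (nat_lit 0x10008000400200020009923603))))) 
(.nd (nat_lit 8) (.nd (nat_lit 18) 
(.lf (nat_lit 1610794629) (dlOf (nat_lit 5) (nat_lit 0x501b8000d008011016800040ae00020170001783000502d0007015c005c00a0002d06002605a000a02b801080140003e0c003c00403c60018093a02))) 
(.lf (nat_lit 8308357) (dlOf (nat_lit 3) (nat_lit 0x1cd068000c808019e8a400233e00002f0400020018513a01)))) 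
(.nd (nat_lit 12) (.nd (nat_lit 18) 
(.lf (nat_lit 1677903749) (dlOf (nat_lit 1) (nat_lit 0x220018114181))) 
(.lf (nat_lit 2751907717) (dlOf (nat_lit 1) (nat_lit 0x420018004181)))) 
(.lf (nat_lit 8050565) (dlOf (nat_lit 1) (nat_lit 0x40040002000851a302)))))))) (.nd (nat_lit 19) 
(.nd (nat_lit 9) (.nd (nat_lit 18) (.nd (nat_lit 27) (.nd (nat_lit 20) (.nd (nat_lit 21) 
(.nd (nat_lit 28) 
(.lf (nat_lit 5368889381) (dlOf (nat_lit 3) (nat_lit 0x38054001c028000c011000e683000c009800204080010008000c002001c0008080483))) 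
(.lf (nat_lit 2416099365) (dlOf (nat_lit 2) (nat_lit 0x800c000aa04003000400040008060582)))) 
(.lf (nat_lit 52609061) (dlOf (nat_lit 2) (nat_lit 0x2173e00002819560780)))) (.nd (nat_lit 24) 
(.lf (nat_lit 68337701) (dlOf (nat_lit 1) (nat_lit 0x20028550781))) 
(.lf (nat_lit 18006053) (dlOf (nat_lit 1) (nat_lit 0xa0008900a81))))) (.nd (nat_lit 26) 
(.nd (nat_lit 28) 
(.lf (nat_lit 5503107109) (dlOf (nat_lit 3) (nat_lit 0x38054001c028000c011000e683000c009800204080010008000c002001c0008080483))) 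
(.lf (nat_lit 2550317093) (dlOf (nat_lit 2) (nat_lit 0x800c000aa04003000400040008060582)))) 
(.lf (nat_lit 1006813221) (dlOf (nat_lit 1) (nat_lit 0x200180b0881))))) (.nd (nat_lit 22) 
(.nd (nat_lit 26) (.nd (nat_lit 7) 
(.lf (nat_lit 27705381) (dlOf (nat_lit 3) (nat_lit 0x546600024020002a3300011018d10800))) 
(.lf (nat_lit 3493249445) (dlOf (nat_lit 1) (nat_lit 0x20028106e81)))) (.nd (nat_lit 21) 
(.lf (nat_lit 67551269) (dlOf (nat_lit 1) (nat_lit 0x200181f0701))) 
(.lf (nat_lit 2754002981) (dlOf (nat_lit 1) (nat_lit 0x500080018002000200080b0a83))))) 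
(.nd (nat_lit 10) (.lf (nat_lit 15122469) (dlOf (nat_lit 1) (nat_lit 0x80080004002000200087c0603))) 
(.lf (nat_lit 57066533) (dlOf (nat_lit 1) (nat_lit 0x400400020009792882)))))) (.nd (nat_lit 26) 
(.nd (nat_lit 10) (.nd (nat_lit 18) 
(.lf (nat_lit 11715109) (dlOf (nat_lit 1) (nat_lit 0xc004000400086c0e02))) 
(.lf (nat_lit 134660645) (dlOf (nat_lit 4) (nat_lit 0x5901f8000100800f80fc000060402140a8015203d007301d004000e001c006a010403300510018000003804c800800f8002000a0008090e03)))) 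
(.nd (nat_lit 8) 
(.lf (nat_lit 1610794533) (dlOf (nat_lit 4) (nat_lit 0x340540003b02001202a0001381000100c000000080220008015c00200580008093703))) 
(.lf (nat_lit 186149) (dlOf (nat_lit 1) (nat_lit 0x58000800a081))))) (.nd (nat_lit 8) 
(.nd (nat_lit 18) (.nd (nat_lit 27) 
(.lf (nat_lit 2483208741) (dlOf (nat_lit 2) (nat_lit 0x600a00002a04000400200020008090e02))) 
(.lf (nat_lit 2348991013) (dlOf (nat_lit 2) (nat_lit 0x600a00002c04000400200020008090e02)))) 
(.lf (nat_lit 201769509) (dlOf (nat_lit 4) (nat_lit 0x5901f8000100800f80fc000060402140aa015203d007301d004000e001c006a010403300510020000003804c800800f8002000a0008090e03)))) 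
(.nd (nat_lit 7) 
(.lf (nat_lit 3422737189) (dlOf (nat_lit 1) (nat_lit 0x200080008002000800080a8f83))) 
(.lf (nat_lit 738380709) (dlOf (nat_lit 1) (nat_lit 0xe0008095c81))))))) (.nd (nat_lit 21) 
(.nd (nat_lit 20) (.nd (nat_lit 27) (.nd (nat_lit 22) 
(.lf (nat_lit 1342881829) (dlOf (nat_lit 9) (nat_lit 0x1891c001c44c000e1d100010e7800487140020346000209400028870003123800f0744004838a0004f06000222f000230100010e28000e40800c870c0007004000438a0003002000e1c5000120100170e28000880800e8008003c00200260008100b83))) 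
(.lf (nat_lit 21676069) (dlOf (nat_lit 1) (nat_lit 0x120008a60c01)))) (.nd (nat_lit 26) 
(.lf (nat_lit 5772066853) (dlOf (nat_lit 10) (nat_lit 0x12014000b80980026408001c050000a026000988200010140004c00801c00a000d004a0012f0400080280009701000d01400028098001004a00080230010011000380800034030001230e0002028000401300150094008c0460040022001001000100060002441c000c04c004e023001e010001280600024210007c0500002026002f0128010808c006c0440044020001900c0004803802e800800a0002000a0008060c03))) 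
(.lf (nat_lit 6376046629) (dlOf (nat_lit 10) (nat_lit 0x12014000b80980027e08001c050000a0260009f0200010140004f40801c00a000d004a0013c0400080280009d81000d01400028098001004a00080230010011000380800034030001320e0002028000401300150094008c0460040022001001000100060002621c000c04c004e023001e010001280600026010007c0500002026002f0128010808c006c0440044020001900c0004bc3802e800800a0002000a0008060c03))))) 
(.nd (nat_lit 7) (.nd (nat_lit 26) 
(.lf (nat_lit 3491414565) (dlOf (nat_lit 3) (nat_lit 0x4e87a801543a2000150401041ea008d0ec80468744000000c005c00400e40018090e02))) 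
(.lf (nat_lit 2753217061) (dlOf (nat_lit 3) (nat_lit 0x4e87f001543cc000160401041fc008d0f700468798000000c005c00400e40018090e02)))) 
(.lf (nat_lit 6377357477) (dlOf (nat_lit 1) (nat_lit 0x200280c1481))))) (.nd (nat_lit 22) 
(.nd (nat_lit 26) (.nd (nat_lit 7) (.nd (nat_lit 20) 
(.lf (nat_lit 19578917) (dlOf (nat_lit 1) (nat_lit 0x2800289c0581))) 
(.lf (nat_lit 3850277) (dlOf (nat_lit 1) (nat_lit 0x1000400040008240b82)))) 
(.lf (nat_lit 37407141) (dlOf (nat_lit 1) (nat_lit 0x600090d4e81)))) (.nd (nat_lit 9) 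
(.lf (nat_lit 473874469) (dlOf (nat_lit 2) (nat_lit 0x250a28013033c0005208001800400380008fc0202))) 
(.lf (nat_lit 473612837) (dlOf (nat_lit 1) (nat_lit 0x20018f68781))))) (.nd (nat_lit 8) 
(.nd (nat_lit 7) (.nd (nat_lit 9) 
(.lf (nat_lit 15646757) (dlOf (nat_lit 1) (nat_lit 0x8008000400200020008810683))) 
(.lf (nat_lit 8049189) (dlOf (nat_lit 1) (nat_lit 0x10008001800200080008518903)))) 
(.lf (nat_lit 8049317) (dlOf (nat_lit 1) (nat_lit 0x8008000400200020008518c83)))) (.nd (nat_lit 7) 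
(.nd (nat_lit 9) (.lf (nat_lit 8046885) (dlOf (nat_lit 1) (nat_lit 0x80018514b81))) 
(.lf (nat_lit 8048421) (dlOf (nat_lit 1) (nat_lit 0x400400020008517482)))) 
(.lf (nat_lit 8045989) (dlOf (nat_lit 1) (nat_lit 0x20008513601))))))))) (.nd (nat_lit 18) 
(.nd (nat_lit 21) (.nd (nat_lit 5) (.nd (nat_lit 28) (.nd (nat_lit 19) (.nd (nat_lit 8) 
(.nd (nat_lit 10) (.lf (nat_lit 26460165) (dlOf (nat_lit 1) (nat_lit 0x8008000400200020008c50003))) 
(.lf (nat_lit 2751710213) (dlOf (nat_lit 1) (nat_lit 0x20008002881)))) 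
(.lf (nat_lit 22266117) (dlOf (nat_lit 1) (nat_lit 0x1c0028ab7201)))) (.nd (nat_lit 20) 
(.lf (nat_lit 9158661) (dlOf (nat_lit 1) (nat_lit 0x340018520001))) (.nd (nat_lit 23) 
(.lf (nat_lit 22790149) (dlOf (nat_lit 3) (nat_lit 0x1eada003d601000f56e001bbc0800600080030002000c0008b20003))) 
(.lf (nat_lit 31178757) (dlOf (nat_lit 1) (nat_lit 0x58008001000200060008e70003)))))) 
(.nd (nat_lit 27) (.nd (nat_lit 7) (.nd (nat_lit 22) 
(.lf (nat_lit 1342423045) (dlOf (nat_lit 1) (nat_lit 0x180008020001))) 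
(.lf (nat_lit 3494100997) (dlOf (nat_lit 4) (nat_lit 0x1103d8069000800101ec0347c0400440f6019db02001800281b0001)))) 
(.lf (nat_lit 5637391749) (dlOf (nat_lit 1) (nat_lit 0x200180d3601)))) (.nd (nat_lit 7) 
(.nd (nat_lit 26) (.lf (nat_lit 2013511685) (dlOf (nat_lit 1) (nat_lit 0x4004000200080d0002))) 
(.lf (nat_lit 470007813) (dlOf (nat_lit 1) (nat_lit 0x180008020001)))) 
(.lf (nat_lit 5234738821) (dlOf (nat_lit 1) (nat_lit 0x400180d3a01)))))) (.nd (nat_lit 30) 
(.nd (nat_lit 8) (.nd (nat_lit 19) (.nd (nat_lit 22) (.nd (nat_lit 27) 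
(.lf (nat_lit 4295213093) (dlOf (nat_lit 1) (nat_lit 0x80080128002004800080b0a03))) 
(.lf (nat_lit 4429430821) (dlOf (nat_lit 1) (nat_lit 0x80080128002004800080b0a03)))) 
(.lf (nat_lit 21217317) (dlOf (nat_lit 2) (nat_lit 0xf6180005404001c004000a0008a20582)))) 
(.nd (nat_lit 22) (.lf (nat_lit 10207269) (dlOf (nat_lit 1) (nat_lit 0x400185c0a01))) 
(.lf (nat_lit 31178789) (dlOf (nat_lit 4) (nat_lit 0xc72340002602003591a0000881001bc8d000034080198008000800200060008e70703))))) 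
(.nd (nat_lit 7) 
(.lf (nat_lit 2751711013) (dlOf (nat_lit 1) (nat_lit 0x8008000400200020008003d03))) 
(.lf (nat_lit 2349056421) (dlOf (nat_lit 1) (nat_lit 0x140028090781))))) (.nd (nat_lit 27) 
(.nd (nat_lit 9) (.nd (nat_lit 7) 
(.lf (nat_lit 1343471653) (dlOf (nat_lit 1) (nat_lit 0x380028260681))) 
(.lf (nat_lit 1677967781) (dlOf (nat_lit 2) (nat_lit 0x204e00000018126e80)))) (.nd (nat_lit 26) 
(.lf (nat_lit 4026778149) (dlOf (nat_lit 13) (nat_lit 0x370200063807c0002e0802b0046015401f0000b02008200f80004808000807c000220401d403e0000e02010601f0000681006a020005f807c0001808022c0800152024006e00f803800340000c1001e80800128024006200f802980340000a1001440800144022004d00f8000101800b010000c4044000401f0000183006b020003e00900334044009201f0003005000000281128008017000202c60008090e03))) 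
(.lf (nat_lit 3288580645) (dlOf (nat_lit 13) (nat_lit 0x370200063807c0002c0802b0046015401f0000a82008200f80004808000807c000220401d403e0000e02010601f0000681006a020005f807c0001808022c0800152024006e00f803800340000c1001e80800128024006200f802980340000a1001440800144022004d00f8000101800b010000c4044000401f0000183006b020003e00900334044009201f0003005000000281128008017000202c60008090e03))))) 
(.nd (nat_lit 8) (.nd (nat_lit 9) 
(.lf (nat_lit 1476640805) (dlOf (nat_lit 1) (nat_lit 0x2200280c0681))) 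
(.lf (nat_lit 4161000997) (dlOf (nat_lit 1) (nat_lit 0x4004000200080a9c02)))) (.nd (nat_lit 26) 
(.lf (nat_lit 6308481829) (dlOf (nat_lit 1) (nat_lit 0x4002000200080d5c02))) 
(.lf (nat_lit 5570284325) (dlOf (nat_lit 1) (nat_lit 0xa00180d5c01)))))))) (.nd (nat_lit 19) 
(.nd (nat_lit 7) (.nd (nat_lit 5) (.nd (nat_lit 20) 
(.lf (nat_lit 27508741) (dlOf (nat_lit 1) (nat_lit 0x40028cf0001))) 
(.lf (nat_lit 15974405) (dlOf (nat_lit 1) (nat_lit 0x40018850281)))) (.nd (nat_lit 23) 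
(.lf (nat_lit 52674597) (dlOf (nat_lit 1) (nat_lit 0xe0019560781))) 
(.lf (nat_lit 10731557) (dlOf (nat_lit 2) (nat_lit 0xee2280050b44000aa0800a000400120018620582))))) 
(.nd (nat_lit 8) (.nd (nat_lit 10) 
(.lf (nat_lit 62111909) (dlOf (nat_lit 1) (nat_lit 0x280019951381))) 
(.lf (nat_lit 61064357) (dlOf (nat_lit 2) (nat_lit 0x333e80021650000a808000c004000800098c2c02)))) 
(.lf (nat_lit 41140645) (dlOf (nat_lit 1) (nat_lit 0x620019226e81))))) (.nd (nat_lit 20) 
(.nd (nat_lit 28) (.nd (nat_lit 26) (.nd (nat_lit 7) 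
(.lf (nat_lit 2867237) (dlOf (nat_lit 1) (nat_lit 0x80080004002000200081c0903))) 
(.lf (nat_lit 36422821) (dlOf (nat_lit 1) (nat_lit 0x1800200040009072c02)))) (.nd (nat_lit 5) 
(.lf (nat_lit 2754330629) (dlOf (nat_lit 6) (nat_lit 0x783fc000600000c250200210ff00020000030920800643fc000400000c210200180ff0061000800487f800042b80000004009c00180d0001))) 
(.lf (nat_lit 2754330661) (dlOf (nat_lit 1) (nat_lit 0x4004000e00180d0902))))) (.nd (nat_lit 5) 
(.lf (nat_lit 3492528133) (dlOf (nat_lit 6) (nat_lit 0x783d8000600000de18200210f600020000037840800643d8000400000ddd8200180f6006ee40800487b000042ae0000004009c00180d0001))) 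
(.nd (nat_lit 31) 
(.lf (nat_lit 1345044517) (dlOf (nat_lit 10) (nat_lit 0x7420500500d4801a85a000e828a00740cf0044059002401cc00dc0380002d10008220500540d4801705a0010828a00800cf0045059002681cc00e80380002c100064168004700e0000ac1002205a400b02d0004a1450002063801c01cc00fc03a0002a0c0064169003a00e8000a41001e85a400842d0007c01d000030300450b4801785a0007018c008201d0000284001a0b4800b05a0011028a00dc01d0000104004e102800c06b80188352005e169004d0b400288514014419e006801d004d00e000000480488008000c00200e000089d0783))) 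
(.lf (nat_lit 3492528165) (dlOf (nat_lit 1) (nat_lit 0x4004000e00180d0902)))))) (.nd (nat_lit 7) 
(.nd (nat_lit 5) (.lf (nat_lit 8115461) (dlOf (nat_lit 1) (nat_lit 0x8008000800200020008519603))) 
(.lf (nat_lit 3915813) (dlOf (nat_lit 7) (nat_lit 0x31560001c910000510400085580003244000311c8000780c0020ab0000848800022390000d81800415600010910000a4720001a830004244000291c8000680800088e40003302002a0028250b81)))) 
(.nd (nat_lit 8) 
(.lf (nat_lit 473680549) (dlOf (nat_lit 3) (nat_lit 0x341380001b02008414d0000c818fa5600))) 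
(.lf (nat_lit 8116133) (dlOf (nat_lit 1) (nat_lit 0x2001851a301)))))))) (.nd (nat_lit 7) 
(.nd (nat_lit 5) (.nd (nat_lit 20) (.nd (nat_lit 30) (.nd (nat_lit 10) (.nd (nat_lit 19) 
(.nd (nat_lit 22) (.lf (nat_lit 805814277) (dlOf (nat_lit 1) (nat_lit 0x10002001400081b0002))) 
(.lf (nat_lit 55033861) (dlOf (nat_lit 1) (nat_lit 0x608008014000200c20009690003)))) 
(.lf (nat_lit 3129349) (dlOf (nat_lit 1) (nat_lit 0x8008000800200020008200003)))) (.nd (nat_lit 8) 
(.lf (nat_lit 19909637) (dlOf (nat_lit 1) (nat_lit 0x8002000400089d5f82))) 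
(.lf (nat_lit 8903941) (dlOf (nat_lit 1) (nat_lit 0x4002851c601))))) (.nd (nat_lit 26) 
(.nd (nat_lit 8) (.lf (nat_lit 1344783365) (dlOf (nat_lit 1) (nat_lit 0x1c00400060008982882))) 
(.lf (nat_lit 3624386821) (dlOf (nat_lit 4) (nat_lit 0x440360005e02001801b0002e81000900d8001440800180080008002006e0008187203)))) 
(.nd (nat_lit 28) (.nd (nat_lit 29) 
(.lf (nat_lit 3288842245) (dlOf (nat_lit 1) (nat_lit 0x154004006c00081b0002))) 
(.lf (nat_lit 1678229509) (dlOf (nat_lit 1) (nat_lit 0x10002001400081b0002)))) 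
(.lf (nat_lit 3557277701) (dlOf (nat_lit 2) (nat_lit 0x2006100000018190000)))))) (.nd (nat_lit 24) 
(.nd (nat_lit 8) (.nd (nat_lit 19) 
(.lf (nat_lit 3653637) (dlOf (nat_lit 7) (nat_lit 0x276a40007b4e000fda50009ed18004767c0007b3a0011d420003dcc8019f840003f6940007b3e0005d420033e830003ed48001f694001bb3e0011d42002ca840003ed48002f694001fb3e0013d42002ca040006ed48005f6940033b3e001bd42002c9840002ed48002f6940017b3e000bd42002c9048210000))) 
(.lf (nat_lit 473939973) (dlOf (nat_lit 2) (nat_lit 0x4158003fe818fc0000)))) 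
(.lf (nat_lit 1556741) (dlOf (nat_lit 1) (nat_lit 0x4002000200080f7202)))) (.nd (nat_lit 19) 
(.nd (nat_lit 22) (.lf (nat_lit 26722309) (dlOf (nat_lit 1) (nat_lit 0x8b0004041e0008c60002))) 
(.lf (nat_lit 30916613) (dlOf (nat_lit 1) (nat_lit 0x18004000e0018e50002)))) 
(.lf (nat_lit 18857989) (dlOf (nat_lit 1) (nat_lit 0x10008000800200040008970003)))))) 
(.nd (nat_lit 31) (.nd (nat_lit 19) (.nd (nat_lit 25) (.nd (nat_lit 21) (.nd (nat_lit 26) 
(.lf (nat_lit 537378853) (dlOf (nat_lit 1) (nat_lit 0x400400020018090002))) 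
(.lf (nat_lit 738705445) (dlOf (nat_lit 2) (nat_lit 0x68168001005e0001004000200280e0a01)))) 
(.lf (nat_lit 15188005) (dlOf (nat_lit 1) (nat_lit 0x80080004002000200087c0603)))) (.nd (nat_lit 9) 
(.lf (nat_lit 34062373) (dlOf (nat_lit 2) (nat_lit 0x97f40002804000400400020018fa0782))) 
(.lf (nat_lit 50840101) (dlOf (nat_lit 1) (nat_lit 0x200080004002000200094d8783))))) 
(.nd (nat_lit 20) 
(.lf (nat_lit 9420837) (dlOf (nat_lit 2) (nat_lit 0x5a1a0001bfd00010000000540c006000400020018550582))) 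
(.nd (nat_lit 21) (.lf (nat_lit 27246629) (dlOf (nat_lit 1) (nat_lit 0x560028cc0681))) 
(.lf (nat_lit 473940005) (dlOf (nat_lit 2) (nat_lit 0x2f056001b819e0152096009c0418000a42006c800800bc00200ce0008fc0203)))))) 
(.nd (nat_lit 8) (.nd (nat_lit 20) 
(.lf (nat_lit 3892822053) (dlOf (nat_lit 2) (nat_lit 0x2002d002f0c080128008008c002005a0008280003))) 
(.nd (nat_lit 26) 
(.lf (nat_lit 3493314597) (dlOf (nat_lit 1) (nat_lit 0x8008002000200020008110483))) 
(.lf (nat_lit 2755117093) (dlOf (nat_lit 1) (nat_lit 0x8008002000200020008110483))))) 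
(.nd (nat_lit 19) (.lf (nat_lit 3624386853) (dlOf (nat_lit 2) (nat_lit 0x1a03e00527018187800))) 
(.lf (nat_lit 3490693413) (dlOf (nat_lit 1) (nat_lit 0x20028014301))))))) (.nd (nat_lit 8) 
(.nd (nat_lit 21) (.nd (nat_lit 26) (.nd (nat_lit 29) 
(.lf (nat_lit 3221733509) (dlOf (nat_lit 2) (nat_lit 0xc00000000018170100))) 
(.lf (nat_lit 537378949) (dlOf (nat_lit 1) (nat_lit 0x20008090101)))) (.nd (nat_lit 10) 
(.nd (nat_lit 27) (.lf (nat_lit 1409794181) (dlOf (nat_lit 1) (nat_lit 0x20008090101))) 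
(.lf (nat_lit 3959931013) (dlOf (nat_lit 2) (nat_lit 0xc00000000018170100)))) 
(.lf (nat_lit 604488837) (dlOf (nat_lit 1) (nat_lit 0x1a00282d2b01))))) (.nd (nat_lit 9) 
(.nd (nat_lit 10) (.lf (nat_lit 23576709) (dlOf (nat_lit 1) (nat_lit 0x8008000c00200020008b80103))) 
(.lf (nat_lit 49792133) (dlOf (nat_lit 1) (nat_lit 0xa200294c2b01)))) (.nd (nat_lit 5) 
(.lf (nat_lit 61326981) (dlOf (nat_lit 1) (nat_lit 0x110008000c00200060009923a03))) 
(.lf (nat_lit 472369829) (dlOf (nat_lit 4) (nat_lit 0xd02f000070040144000000170200900000000a018985600)))))) 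
(.nd (nat_lit 10) (.nd (nat_lit 26) (.nd (nat_lit 20) 
(.lf (nat_lit 1342685573) (dlOf (nat_lit 1) (nat_lit 0x800080c0781))) 
(.lf (nat_lit 43499909) (dlOf (nat_lit 1) (nat_lit 0x4004000200092a1002)))) (.nd (nat_lit 5) 
(.lf (nat_lit 472369541) (dlOf (nat_lit 1) (nat_lit 0x1c00400060008984e82))) 
(.lf (nat_lit 201834917) (dlOf (nat_lit 2) (nat_lit 0x680ec019d204002000400540008090782))))) 
(.nd (nat_lit 19) (.nd (nat_lit 23) 
(.lf (nat_lit 6375851397) (dlOf (nat_lit 1) (nat_lit 0x2540028003601))) 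
(.lf (nat_lit 8897925) (dlOf (nat_lit 1) (nat_lit 0x20008000800200040008513603)))) 
(.lf (nat_lit 8373637) (dlOf (nat_lit 1) (nat_lit 0x400200020008513602))))))))) (.nd (nat_lit 5) 
(.nd (nat_lit 7) (.nd (nat_lit 16) (.nd (nat_lit 31) (.nd (nat_lit 19) (.nd (nat_lit 9) 
(.nd (nat_lit 21) (.nd (nat_lit 26) 
(.lf (nat_lit 1073922117) (dlOf (nat_lit 2) (nat_lit 0xb000000000080010008004c00200480008020803))) 
(.lf (nat_lit 1946337349) (dlOf (nat_lit 2) (nat_lit 0xb000000000080010008004c00200480008020803)))) 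
(.nd (nat_lit 10) (.lf (nat_lit 14860357) (dlOf (nat_lit 1) (nat_lit 0xe40008790601))) 
(.lf (nat_lit 57066565) (dlOf (nat_lit 1) (nat_lit 0x2c0019792881))))) (.nd (nat_lit 23) 
(.nd (nat_lit 26) 
(.lf (nat_lit 134398533) (dlOf (nat_lit 4) (nat_lit 0x80760049b02000603b0024981000301d801248080008008000c00200020008018803))) 
(.lf (nat_lit 201507397) (dlOf (nat_lit 1) (nat_lit 0x8008000400200040008018d03)))) 
(.nd (nat_lit 10) (.lf (nat_lit 58903109) (dlOf (nat_lit 1) (nat_lit 0x4002000200097e5202))) 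
(.lf (nat_lit 8570437) (dlOf (nat_lit 1) (nat_lit 0x400200080008513802)))))) (.nd (nat_lit 18) 
(.nd (nat_lit 20) (.nd (nat_lit 23) (.nd (nat_lit 26) 
(.lf (nat_lit 537575493) (dlOf (nat_lit 4) (nat_lit 0x6180ba02be057016802900b180cc001803e02b60000002c06019e02e8029816806780ae036205201a5019800800ac04bc044028a01f018b00000015c4806b00cc0000004018c004001a00180c1882))) 
(.lf (nat_lit 4362780741) (dlOf (nat_lit 2) (nat_lit 0x4c0580026028801300cc0009c0c000c004000200080f1882)))) 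
(.lf (nat_lit 9093189) (dlOf (nat_lit 1) (nat_lit 0x8008001000200020008521683)))) 
(.lf (nat_lit 8044613) (dlOf (nat_lit 1) (nat_lit 0x800200020008510002)))) (.nd (nat_lit 10) 
(.nd (nat_lit 8) 
(.lf (nat_lit 21938245) (dlOf (nat_lit 3) (nat_lit 0xba0000000e01001200000006c080008008000800200040008a80e83))) 
(.lf (nat_lit 19843909) (dlOf (nat_lit 1) (nat_lit 0x4002000200089d5c02)))) (.nd (nat_lit 20) 
(.lf (nat_lit 472827205) (dlOf (nat_lit 1) (nat_lit 0x1000400020018b03302))) 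
(.lf (nat_lit 50251077) (dlOf (nat_lit 1) (nat_lit 0x28008001c002000200094c3303))))))) 
(.nd (nat_lit 26) (.nd (nat_lit 28) (.nd (nat_lit 8) (.nd (nat_lit 18) 
(.lf (nat_lit 2684534853) (dlOf (nat_lit 1) (nat_lit 0xa00180a0001))) 
(.lf (nat_lit 2819014725) (dlOf (nat_lit 1) (nat_lit 0x20008150601)))) 
(.lf (nat_lit 3221409093) (dlOf (nat_lit 2) (nat_lit 0x700000001c040054002001a0008116982)))) 
(.nd (nat_lit 9) (.nd (nat_lit 8) 
(.lf (nat_lit 3490889797) (dlOf (nat_lit 2) (nat_lit 0x417e0001c0200040018030e81))) 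
(.lf (nat_lit 3489844549) (dlOf (nat_lit 3) (nat_lit 0x4150000110200020ca00007018006980)))) 
(.nd (nat_lit 18) 
(.lf (nat_lit 3491938885) (dlOf (nat_lit 5) (nat_lit 0x101c7000138100080e380009408000871c0004804002438e000000200700018091101))) 
(.lf (nat_lit 3491676741) (dlOf (nat_lit 8) (nat_lit 0x1840e00101c7000138200131038006871c000c37a00061a60001304000e1038004071c0004a08003440e00101c70001202000610380008c0800108400002e04002c38e00061c600030d80000001800a000801e000200360008091103)))))) 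
(.nd (nat_lit 8) (.nd (nat_lit 9) 
(.lf (nat_lit 2752692293) (dlOf (nat_lit 2) (nat_lit 0x41620001d0200040018030e81))) 
(.nd (nat_lit 18) 
(.lf (nat_lit 2753741381) (dlOf (nat_lit 2) (nat_lit 0x287fc0004c04001000200020008091102))) 
(.lf (nat_lit 2753479237) (dlOf (nat_lit 8) (nat_lit 0x1843800101d90001382001310e00068764000c39e00061bb0001304000e10e000407640004a08003443800101d90001202000610e00008c0800108940002e04002c3b200061d800030e28000001800a000801e000200360008091103))))) 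
(.nd (nat_lit 10) (.lf (nat_lit 2751646021) (dlOf (nat_lit 1) (nat_lit 0x80018004d01))) 
(.lf (nat_lit 3020084549) (dlOf (nat_lit 2) (nat_lit 0xc0240051a818129900))))))) (.nd (nat_lit 26) 
(.nd (nat_lit 28) (.nd (nat_lit 19) (.nd (nat_lit 9) 
(.lf (nat_lit 134463557) (dlOf (nat_lit 3) (nat_lit 0x10d020805580fc039007a01e20380000e0400d402180a98104048007e028403d001701d00ac00e000c00660001b0e00660018030e81))) 
(.nd (nat_lit 10) (.lf (nat_lit 36948549) (dlOf (nat_lit 1) (nat_lit 0x800400060009075202))) 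
(.lf (nat_lit 1610860101) (dlOf (nat_lit 1) (nat_lit 0xc0028093801))))) (.nd (nat_lit 8) 
(.nd (nat_lit 9) 
(.lf (nat_lit 10207301) (dlOf (nat_lit 2) (nat_lit 0x10e580003a040004004000200185c0e82))) 
(.lf (nat_lit 24101445) (dlOf (nat_lit 1) (nat_lit 0x400200020008b81102)))) 
(.lf (nat_lit 19909445) (dlOf (nat_lit 1) (nat_lit 0x4002000200089d5c02))))) (.nd (nat_lit 27) 
(.nd (nat_lit 18) (.nd (nat_lit 8) 
(.lf (nat_lit 4563648581) (dlOf (nat_lit 1) (nat_lit 0x4800080b0581))) 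
(.lf (nat_lit 805552453) (dlOf (nat_lit 3) (nat_lit 0xbc00a0021f8100480050010ec0800b00080008002007a0008124c03)))) 
(.nd (nat_lit 22) 
(.lf (nat_lit 805814341) (dlOf (nat_lit 3) (nat_lit 0xb204f000188100050070000a80800b80080068002003400081b0e03))) 
(.lf (nat_lit 3494363205) (dlOf (nat_lit 1) (nat_lit 0xc0008211881))))) (.nd (nat_lit 8) 
(.nd (nat_lit 29) (.lf (nat_lit 4697866309) (dlOf (nat_lit 1) (nat_lit 0x4800080b0581))) 
(.lf (nat_lit 3087253573) (dlOf (nat_lit 2) (nat_lit 0x8e0240093005003400200218000000000800440018160801)))) 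
(.lf (nat_lit 3624127813) (dlOf (nat_lit 2) (nat_lit 0x200f800022040028002000c0008146982)))))) 
(.nd (nat_lit 30) (.nd (nat_lit 8) (.nd (nat_lit 18) 
(.lf (nat_lit 201572421) (dlOf (nat_lit 3) (nat_lit 0x10d020805580fc039007a01e20380000e8400d402180a98104048007e028403d001701d00ac00e000c00660001c0e00660018030e81))) 
(.nd (nat_lit 19) 
(.lf (nat_lit 2756165701) (dlOf (nat_lit 2) (nat_lit 0x280000000004000400200080008211402))) 
(.lf (nat_lit 473940037) (dlOf (nat_lit 2) (nat_lit 0x1105740017a04008c00400080018fc0602))))) 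
(.nd (nat_lit 9) (.lf (nat_lit 69976389) (dlOf (nat_lit 1) (nat_lit 0xc00400040008e38702))) 
(.lf (nat_lit 4899195717) (dlOf (nat_lit 1) (nat_lit 0x4002000200080d5c02))))) (.nd (nat_lit 8) 
(.nd (nat_lit 9) (.nd (nat_lit 18) 
(.lf (nat_lit 3825451077) (dlOf (nat_lit 2) (nat_lit 0x8e0240093005003400200218000000000800440018160801))) 
(.lf (nat_lit 1678229573) (dlOf (nat_lit 4) (nat_lit 0xa40278007812c00c00000003206002604b000a0000000c0100080000000560402f4004002000081b0d02)))) 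
(.lf (nat_lit 1677967941) (dlOf (nat_lit 4) (nat_lit 0x15028800090080420144014c074000200400e8051006901d00007c1000580080060002006a0008128d03)))) 
(.nd (nat_lit 12) 
(.lf (nat_lit 1677967685) (dlOf (nat_lit 3) (nat_lit 0xbc00a004ea0100480050027480800b00080008002007a0008124c03))) 
(.lf (nat_lit 3557019973) (dlOf (nat_lit 1) (nat_lit 0x5c0028128281)))))))) (.nd (nat_lit 18) 
(.nd (nat_lit 8) (.nd (nat_lit 16) (.nd (nat_lit 11) (.nd (nat_lit 10) 
(.lf (nat_lit 3624059077) (dlOf (nat_lit 2) (nat_lit 0x9002800000080038008001c002001400080b0403))) 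
(.lf (nat_lit 55755973) (dlOf (nat_lit 2) (nat_lit 0x9b04c00050040060004000600196d2d02)))) 
(.nd (nat_lit 19) (.lf (nat_lit 1677904069) (dlOf (nat_lit 1) (nat_lit 0x5c0018114981))) 
(.lf (nat_lit 8046789) (dlOf (nat_lit 1) (nat_lit 0x400400020008514982))))) (.nd (nat_lit 9) 
(.nd (nat_lit 10) (.nd (nat_lit 19) 
(.lf (nat_lit 2343109) (dlOf (nat_lit 1) (nat_lit 0x20018150401))) 
(.lf (nat_lit 5772132549) (dlOf (nat_lit 1) (nat_lit 0x400400020018090802)))) 
(.lf (nat_lit 61064389) (dlOf (nat_lit 2) (nat_lit 0x8bf60002802000400098c2d01)))) 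
(.nd (nat_lit 11) (.lf (nat_lit 19649221) (dlOf (nat_lit 1) (nat_lit 0x200189d8c81))) 
(.lf (nat_lit 19651269) (dlOf (nat_lit 1) (nat_lit 0x4002000200089db982)))))) (.nd (nat_lit 20) 
(.nd (nat_lit 26) (.nd (nat_lit 9) 
(.lf (nat_lit 5772132805) (dlOf (nat_lit 1) (nat_lit 0x1000400100018091102))) (.nd (nat_lit 10) 
(.lf (nat_lit 5771545541) (dlOf (nat_lit 1) (nat_lit 0x400200020008005d82))) 
(.lf (nat_lit 186309) (dlOf (nat_lit 1) (nat_lit 0x80020004000800a602))))) (.nd (nat_lit 11) 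
(.nd (nat_lit 27) (.lf (nat_lit 2483208645) (dlOf (nat_lit 1) (nat_lit 0x2800400020008090902))) 
(.lf (nat_lit 2348990917) (dlOf (nat_lit 1) (nat_lit 0x2800400020008090902)))) 
(.lf (nat_lit 1008978373) (dlOf (nat_lit 1) (nat_lit 0x1f80009004e81))))) (.nd (nat_lit 19) 
(.nd (nat_lit 9) (.lf (nat_lit 41140677) (dlOf (nat_lit 1) (nat_lit 0x400400060019227002))) 
(.lf (nat_lit 4094872517) (dlOf (nat_lit 1) (nat_lit 0x38008001c00200080008055d83)))) 
(.nd (nat_lit 12) (.nd (nat_lit 26) 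
(.lf (nat_lit 3491414469) (dlOf (nat_lit 6) (nat_lit 0x140f30000800801207980003e0400643cc0001e02002c1e60000b0100140f30000000801d800800bc002004c0008090903))) 
(.lf (nat_lit 2753216965) (dlOf (nat_lit 6) (nat_lit 0x140fc0000800801207e00003e0400643f00001e02002c1f80000b0100140fc0000000801d800800bc002004c0008090903)))) 
(.lf (nat_lit 8049093) (dlOf (nat_lit 1) (nat_lit 0x8008000400200020008518683))))))) 
(.nd (nat_lit 26) (.nd (nat_lit 8) (.nd (nat_lit 9) 
(.lf (nat_lit 33014981) (dlOf (nat_lit 1) (nat_lit 0x400400020008f52d02))) (.nd (nat_lit 11) 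
(.lf (nat_lit 19911365) (dlOf (nat_lit 1) (nat_lit 0x8008000c002000200089d8c83))) 
(.lf (nat_lit 39766725) (dlOf (nat_lit 1) (nat_lit 0x600291f5801))))) (.nd (nat_lit 10) 
(.nd (nat_lit 28) (.nd (nat_lit 27) (.nd (nat_lit 29) 
(.lf (nat_lit 3221668293) (dlOf (nat_lit 1) (nat_lit 0x1c00200020008170902))) 
(.lf (nat_lit 537313733) (dlOf (nat_lit 2) (nat_lit 0x5017c0004e04000400400020018090902)))) 
(.lf (nat_lit 134660549) (dlOf (nat_lit 1) (nat_lit 0x1ac0008090901)))) (.nd (nat_lit 16) 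
(.lf (nat_lit 805749189) (dlOf (nat_lit 3) (nat_lit 0x22e021003b8038000a208095c08400e000e006c0060000d4180f000080410002008400081a0903))) 
(.lf (nat_lit 1342685637) (dlOf (nat_lit 7) (nat_lit 0x800940002701004604a0001340807a025000086040488128000420202440940001f01007604a0000e00800280080004002001200080c0903))))) 
(.nd (nat_lit 9) (.lf (nat_lit 8832453) (dlOf (nat_lit 1) (nat_lit 0x20018513601))) 
(.lf (nat_lit 8310725) (dlOf (nat_lit 1) (nat_lit 0x400200020008517a82)))))) (.nd (nat_lit 27) 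
(.nd (nat_lit 8) (.nd (nat_lit 16) 
(.lf (nat_lit 1410252997) (dlOf (nat_lit 1) (nat_lit 0x1000080234002002000081b0403))) 
(.lf (nat_lit 4362584261) (dlOf (nat_lit 1) (nat_lit 0x140018090401)))) (.nd (nat_lit 28) 
(.nd (nat_lit 29) 
(.lf (nat_lit 4362518981) (dlOf (nat_lit 4) (nat_lit 0x100ac000a40402f80560005102001005600b90158000d410019800803b0002002e0008090903))) 
(.lf (nat_lit 1678164421) (dlOf (nat_lit 3) (nat_lit 0x22e021003b8038000a208095c08400e000e006c0060000d4180f000080410002008400081a0903)))) 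
(.lf (nat_lit 1409728965) (dlOf (nat_lit 2) (nat_lit 0x5017c0004e04000400400020018090902))))) 
(.nd (nat_lit 16) (.nd (nat_lit 28) (.nd (nat_lit 29) 
(.lf (nat_lit 201769413) (dlOf (nat_lit 1) (nat_lit 0x1ac0008090901))) 
(.lf (nat_lit 3959865797) (dlOf (nat_lit 1) (nat_lit 0x1c00200020008170902)))) 
(.lf (nat_lit 4228301253) (dlOf (nat_lit 4) (nat_lit 0x100a8000a40402f80540005102001004f00b90150000d410019800803b0002002e0008090903)))) 
(.nd (nat_lit 8) (.lf (nat_lit 4228366533) (dlOf (nat_lit 1) (nat_lit 0x140018090401))) 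
(.lf (nat_lit 470270405) (dlOf (nat_lit 7) (nat_lit 0x800940002701004604a0001340807a025000086040488128000420202440940001f01007604a0000e00800280080004002001200080c0903))))))))) 
(.nd (nat_lit 18) (.nd (nat_lit 7) (.nd (nat_lit 16) (.nd (nat_lit 30) (.nd (nat_lit 19) 
(.nd (nat_lit 8) (.lf (nat_lit 37929061) (dlOf (nat_lit 1) (nat_lit 0x4000090f0981))) 
(.nd (nat_lit 9) (.lf (nat_lit 2885861733) (dlOf (nat_lit 1) (nat_lit 0x4002000200080b0702))) 
(.lf (nat_lit 2214777701) (dlOf (nat_lit 1) (nat_lit 0x3a00080a8f81))))) (.nd (nat_lit 10) 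
(.nd (nat_lit 21) 
(.lf (nat_lit 42647653) (dlOf (nat_lit 2) (nat_lit 0x8af500044c5800000100008008001400200040009260983))) 
(.lf (nat_lit 472563813) (dlOf (nat_lit 4) (nat_lit 0xe814d008a06c80370360028c0fa014407c0000705003e03e80003008017053400781b2007807d003d03e0000002003200080170002006800089c0983)))) 
(.lf (nat_lit 35308645) (dlOf (nat_lit 1) (nat_lit 0x60019012981))))) (.nd (nat_lit 8) 
(.nd (nat_lit 9) (.nd (nat_lit 10) 
(.lf (nat_lit 3959609445) (dlOf (nat_lit 1) (nat_lit 0x10001811a801))) 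
(.lf (nat_lit 3758281829) (dlOf (nat_lit 2) (nat_lit 0x203d00017818129400)))) 
(.lf (nat_lit 1881327205) (dlOf (nat_lit 1) (nat_lit 0x400400020008e83902)))) (.nd (nat_lit 9) 
(.lf (nat_lit 3624059237) (dlOf (nat_lit 2) (nat_lit 0x8002e003700c0000a41000780080028002004200080b0703))) 
(.lf (nat_lit 3221412709) (dlOf (nat_lit 2) (nat_lit 0x80450057301811bc80)))))) (.nd (nat_lit 19) 
(.nd (nat_lit 21) (.nd (nat_lit 26) 
(.lf (nat_lit 2013511781) (dlOf (nat_lit 2) (nat_lit 0x60130038c40800300080148002000400080d0783))) 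
(.lf (nat_lit 1141096549) (dlOf (nat_lit 2) (nat_lit 0x60130020300800300080148002000400080d0783)))) 
(.nd (nat_lit 8) (.lf (nat_lit 44286053) (dlOf (nat_lit 1) (nat_lit 0x400092e0781))) 
(.lf (nat_lit 2343269) (dlOf (nat_lit 2) (nat_lit 0x157076000330200300028150701))))) 
(.nd (nat_lit 9) (.nd (nat_lit 20) 
(.lf (nat_lit 4096508005) (dlOf (nat_lit 1) (nat_lit 0x8008004400200020008120783))) 
(.lf (nat_lit 45858917) (dlOf (nat_lit 4) (nat_lit 0x13aef00010808000d77c0002404001abbe000110201280029360981)))) 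
(.nd (nat_lit 20) 
(.lf (nat_lit 6376114789) (dlOf (nat_lit 1) (nat_lit 0x8008000c00200080008095383))) 
(.nd (nat_lit 21) (.lf (nat_lit 1008454245) (dlOf (nat_lit 1) (nat_lit 0x800200020008c95382))) 
(.lf (nat_lit 54250085) (dlOf (nat_lit 1) (nat_lit 0x10008000400200020009655383)))))))) 
(.nd (nat_lit 8) (.nd (nat_lit 16) (.nd (nat_lit 9) (.nd (nat_lit 11) (.nd (nat_lit 19) 
(.lf (nat_lit 2684540133) (dlOf (nat_lit 1) (nat_lit 0x4004000200080a9502))) 
(.lf (nat_lit 8049893) (dlOf (nat_lit 1) (nat_lit 0x400200020008519502)))) 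
(.lf (nat_lit 8051941) (dlOf (nat_lit 1) (nat_lit 0x800800040020002000851c603)))) (.nd (nat_lit 10) 
(.lf (nat_lit 57330405) (dlOf (nat_lit 1) (nat_lit 0x40029795981))) 
(.lf (nat_lit 8046309) (dlOf (nat_lit 1) (nat_lit 0x8008000400200020008513a83))))) 
(.nd (nat_lit 10) (.nd (nat_lit 12) (.nd (nat_lit 20) 
(.lf (nat_lit 19120357) (dlOf (nat_lit 2) (nat_lit 0xc9fbc000aa040008004000a0008970582))) 
(.lf (nat_lit 28557541) (dlOf (nat_lit 2) (nat_lit 0x40000005502005e0018da0581)))) 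
(.lf (nat_lit 3557019877) (dlOf (nat_lit 1) (nat_lit 0x3e0028128081)))) (.nd (nat_lit 9) 
(.lf (nat_lit 2080621797) (dlOf (nat_lit 1) (nat_lit 0x8008000400200020008092e03))) 
(.lf (nat_lit 8111845) (dlOf (nat_lit 1) (nat_lit 0x400400020008513a82)))))) (.nd (nat_lit 26) 
(.nd (nat_lit 27) (.nd (nat_lit 10) 
(.lf (nat_lit 1342357989) (dlOf (nat_lit 2) (nat_lit 0xa22000010ce000184100008008001000200020008017303))) 
(.nd (nat_lit 12) (.lf (nat_lit 8046053) (dlOf (nat_lit 1) (nat_lit 0x400200020008513602))) 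
(.lf (nat_lit 8050149) (dlOf (nat_lit 1) (nat_lit 0x60018519b81))))) (.nd (nat_lit 16) 
(.nd (nat_lit 28) 
(.lf (nat_lit 6576849381) (dlOf (nat_lit 1) (nat_lit 0x8008000400200020008157303))) 
(.lf (nat_lit 939704805) (dlOf (nat_lit 2) (nat_lit 0xb800b00330020012c8100138008005000200900008157d03)))) 
(.nd (nat_lit 9) (.lf (nat_lit 671334885) (dlOf (nat_lit 2) (nat_lit 0x3401700000018157d00))) 
(.lf (nat_lit 6308482021) (dlOf (nat_lit 1) (nat_lit 0x200280d5e81)))))) (.nd (nat_lit 16) 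
(.nd (nat_lit 9) (.nd (nat_lit 28) 
(.lf (nat_lit 1812120037) (dlOf (nat_lit 15) (nat_lit 0x24000000610200de00b00870048016801002640000005e08001a00b0002e810083005804d8024011000801580000002e04001700580016c080188000000a4040020016002e0040002802000300580012808028006004d001601ea00400d70000001102000d006004cc01601ea0040002183009600580308010014c0000004206003a0000000281001c00580000c0801300000000404011c004003c0008157302))) 
(.lf (nat_lit 4228039141) (dlOf (nat_lit 9) (nat_lit 0x23c0540006902015c02a00034010ae001500019c080c680a8000cc0402280540004402018002a00021010a13015000104080c100a80008004010800400e80008017302)))) 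
(.lf (nat_lit 738380773) (dlOf (nat_lit 1) (nat_lit 0x780080024002008a0008095e83)))) 
(.nd (nat_lit 9) (.nd (nat_lit 11) 
(.lf (nat_lit 1543750117) (dlOf (nat_lit 2) (nat_lit 0x2c0210000b018157300))) 
(.lf (nat_lit 4094413285) (dlOf (nat_lit 1) (nat_lit 0x400400020008054e82)))) 
(.lf (nat_lit 2751710181) (dlOf (nat_lit 1) (nat_lit 0x20008002881)))))))) (.nd (nat_lit 16) 
(.nd (nat_lit 19) (.nd (nat_lit 7) (.nd (nat_lit 29) (.nd (nat_lit 8) (.nd (nat_lit 9) 
(.lf (nat_lit 17219685) (dlOf (nat_lit 1) (nat_lit 0x1c004000200188e0482))) 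
(.lf (nat_lit 1476839013) (dlOf (nat_lit 1) (nat_lit 0xb000800d8002006e0008203903)))) 
(.lf (nat_lit 3588453) (dlOf (nat_lit 1) (nat_lit 0x400200020008200702)))) (.nd (nat_lit 30) 
(.nd (nat_lit 26) (.lf (nat_lit 537313381) (dlOf (nat_lit 1) (nat_lit 0x140028090001))) 
(.lf (nat_lit 738639973) (dlOf (nat_lit 2) (nat_lit 0xc02d0020300801e000801dc002002600080d0783)))) 
(.nd (nat_lit 9) 
(.lf (nat_lit 1611055205) (dlOf (nat_lit 2) (nat_lit 0xc02d0038c40801e000801dc002002600080d0783))) 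
(.lf (nat_lit 1881590373) (dlOf (nat_lit 2) (nat_lit 0x1d03f8012c1a0019405f0001d838f65380)))))) 
(.nd (nat_lit 26) (.nd (nat_lit 8) 
(.lf (nat_lit 1476838629) (dlOf (nat_lit 16) (nat_lit 0x2a03c000401c801000d8002c0460004e08004c03c000501c801600d80009a0c00040460004702000803d003101180030064003c0140004608001a0230002281003001e001f00d8000860800a8078001c039003901b000108180198070000800400600780004039002101b0000f81800380d80007a04005407800440360001e02001501e000e80d800076080050078003c036001a0118000dc1800a00f000dc06c0003304000e042001b01f8000bc100200008004000200020008202e03))) 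
(.nd (nat_lit 28) 
(.lf (nat_lit 3221668325) (dlOf (nat_lit 2) (nat_lit 0x1017800014080030008001000200020008170c03))) 
(.lf (nat_lit 805749221) (dlOf (nat_lit 2) (nat_lit 0x240ac0052013000000281a0c00))))) 
(.nd (nat_lit 27) 
(.lf (nat_lit 1678164453) (dlOf (nat_lit 2) (nat_lit 0x240ac0052013000000281a0c00))) 
(.lf (nat_lit 3959865829) (dlOf (nat_lit 2) (nat_lit 0x1017800014080030008001000200020008170c03)))))) 
(.nd (nat_lit 20) (.nd (nat_lit 7) (.nd (nat_lit 8) 
(.lf (nat_lit 53395557) (dlOf (nat_lit 1) (nat_lit 0x200095b0781))) (.nd (nat_lit 26) 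
(.lf (nat_lit 537837925) (dlOf (nat_lit 1) (nat_lit 0x1a00281b0701))) 
(.lf (nat_lit 1410253157) (dlOf (nat_lit 6) (nat_lit 0x6801dc02e80cc015e0000001a03002103b80078000000660803080ee0158066000190200b003b0029019402bc0000001f060022076001b0000000781000600080118002001800081b0703))))) 
(.nd (nat_lit 9) (.lf (nat_lit 19845349) (dlOf (nat_lit 1) (nat_lit 0x200289d8081))) 
(.lf (nat_lit 19847909) (dlOf (nat_lit 1) (nat_lit 0x4002000200089db982))))) (.nd (nat_lit 21) 
(.nd (nat_lit 8) 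
(.lf (nat_lit 52346981) (dlOf (nat_lit 2) (nat_lit 0xb702800135ac0009a98016ed27000157f8034ab800001c18000400200060009530982))) 
(.lf (nat_lit 2015589) (dlOf (nat_lit 1) (nat_lit 0x20018150701)))) (.nd (nat_lit 7) 
(.lf (nat_lit 473874533) (dlOf (nat_lit 5) (nat_lit 0x38014d01ba06c80d403600001c0c07301b20000c0204b614d025006c811b836004500f80000a08003414d018d06c800000100630008000c00200060008fc0983))) 
(.lf (nat_lit 1346290917) (dlOf (nat_lit 1) (nat_lit 0x1c00400040018e82e02))))))) (.nd (nat_lit 28) 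
(.nd (nat_lit 21) (.nd (nat_lit 8) (.nd (nat_lit 9) (.nd (nat_lit 25) 
(.lf (nat_lit 21479525) (dlOf (nat_lit 2) (nat_lit 0x4a7300384818a40780))) 
(.lf (nat_lit 55033957) (dlOf (nat_lit 4) (nat_lit 0x4258800192c0001493e000a49e003a0840016258801cdc0801413180008962000000400020009690781)))) 
(.lf (nat_lit 8898149) (dlOf (nat_lit 1) (nat_lit 0x800400040018513902)))) (.nd (nat_lit 19) 
(.lf (nat_lit 4362584421) (dlOf (nat_lit 1) (nat_lit 0x20028090701))) 
(.lf (nat_lit 2081125) (dlOf (nat_lit 1) (nat_lit 0x20018150701))))) (.nd (nat_lit 7) 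
(.nd (nat_lit 22) 
(.lf (nat_lit 36159589) (dlOf (nat_lit 2) (nat_lit 0x3f9486000510200020019030981))) 
(.lf (nat_lit 48742501) (dlOf (nat_lit 1) (nat_lit 0x8c004002c0009420982)))) (.nd (nat_lit 9) 
(.lf (nat_lit 19911909) (dlOf (nat_lit 1) (nat_lit 0x34004006400089d9502))) 
(.lf (nat_lit 19913445) (dlOf (nat_lit 1) (nat_lit 0x4002000200089db982)))))) (.nd (nat_lit 8) 
(.nd (nat_lit 7) (.nd (nat_lit 11) (.nd (nat_lit 19) 
(.lf (nat_lit 1881653349) (dlOf (nat_lit 2) (nat_lit 0x380000110004003000200200008fa0782))) 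
(.lf (nat_lit 473940069) (dlOf (nat_lit 6) (nat_lit 0x608580001c2ba003e155001b0a6801503b41b341b20d840d800a704e005a8234017c118015207d00ab03e0000386005b05801afc1b200e009c007f046803281f4000181403541b20000b02028a16000530a6839c83641c9c1b0028009c014e04680a081f4050c0f80000a1000e6160068706c8002032800f013800a208d003f03e800000300410008077c00200200008fc0983)))) 
(.lf (nat_lit 3492796517) (dlOf (nat_lit 1) (nat_lit 0x4004000400180fa802)))) (.nd (nat_lit 10) 
(.lf (nat_lit 1476905701) (dlOf (nat_lit 1) (nat_lit 0x180080004002000400082d5983))) 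
(.lf (nat_lit 3492792037) (dlOf (nat_lit 1) (nat_lit 0x200280f3a81))))) (.nd (nat_lit 19) 
(.nd (nat_lit 10) (.lf (nat_lit 4228366693) (dlOf (nat_lit 1) (nat_lit 0x20028090701))) 
(.lf (nat_lit 473417061) (dlOf (nat_lit 1) (nat_lit 0x20018f53481)))) (.nd (nat_lit 11) 
(.lf (nat_lit 3493839205) (dlOf (nat_lit 1) (nat_lit 0xf8008047800202a200081b0703))) 
(.lf (nat_lit 3492796773) (dlOf (nat_lit 1) (nat_lit 0x4004008000080fab82))))))))))))

end

end Pool.Agent.Lib.MP_5854e1_co.Cz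

namespace Pool.Agent.Lib.MP_5854e1_co.Cz

noncomputable section

noncomputable def tz91 : DT := (.nd (nat_lit 0) (.nd (nat_lit 5) (.nd (nat_lit 6) (.nd (nat_lit 16) 
(.nd (nat_lit 8) (.nd (nat_lit 19) (.nd (nat_lit 29) (.nd (nat_lit 21) (.nd (nat_lit 18) 
(.nd (nat_lit 22) (.lf (nat_lit 5704433676) (dlOf (nat_lit 1) (nat_lit 0x20028080001))) 
(.lf (nat_lit 12763148) (dlOf (nat_lit 1) (nat_lit 0x800086e0301)))) 
(.lf (nat_lit 1409728524) (dlOf (nat_lit 1) (nat_lit 0x60028090001)))) (.nd (nat_lit 18) 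
(.nd (nat_lit 22) (.lf (nat_lit 10665996) (dlOf (nat_lit 1) (nat_lit 0x90004001a0008610102))) 
(.lf (nat_lit 23248908) (dlOf (nat_lit 1) (nat_lit 0xa0028b70081)))) 
(.lf (nat_lit 19316748) (dlOf (nat_lit 1) (nat_lit 0x20028980781))))) (.nd (nat_lit 26) 
(.nd (nat_lit 7) (.nd (nat_lit 9) 
(.lf (nat_lit 6308413452) (dlOf (nat_lit 1) (nat_lit 0x20028080001))) 
(.lf (nat_lit 1610794508) (dlOf (nat_lit 1) (nat_lit 0x10008000c00200300008093683)))) 
(.lf (nat_lit 2684540044) (dlOf (nat_lit 1) (nat_lit 0x35800800f8002000800080a9503)))) 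
(.nd (nat_lit 7) (.nd (nat_lit 9) 
(.lf (nat_lit 604160012) (dlOf (nat_lit 1) (nat_lit 0x1880008060181))) 
(.lf (nat_lit 2751650316) (dlOf (nat_lit 2) (nat_lit 0x2d01088030380800d000800300020078000800b283)))) 
(.lf (nat_lit 738377868) (dlOf (nat_lit 1) (nat_lit 0x60028090401)))))) (.nd (nat_lit 18) 
(.nd (nat_lit 22) (.nd (nat_lit 23) 
(.lf (nat_lit 19578892) (dlOf (nat_lit 1) (nat_lit 0x4004000400089c0082))) 
(.lf (nat_lit 11190284) (dlOf (nat_lit 1) (nat_lit 0x20018670081)))) (.nd (nat_lit 9) 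
(.lf (nat_lit 21676044) (dlOf (nat_lit 1) (nat_lit 0x18008001400200600008a60a03))) 
(.lf (nat_lit 8052236) (dlOf (nat_lit 1) (nat_lit 0x3800800080020008000851cd83))))) 
(.nd (nat_lit 20) (.nd (nat_lit 21) (.nd (nat_lit 22) 
(.lf (nat_lit 9355276) (dlOf (nat_lit 1) (nat_lit 0x18c0028540281))) 
(.lf (nat_lit 47104012) (dlOf (nat_lit 1) (nat_lit 0x400293a0001)))) 
(.lf (nat_lit 15646732) (dlOf (nat_lit 1) (nat_lit 0x400400040018810282)))) (.nd (nat_lit 9) 
(.lf (nat_lit 14598156) (dlOf (nat_lit 1) (nat_lit 0x40018770001))) 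
(.lf (nat_lit 8308236) (dlOf (nat_lit 1) (nat_lit 0x20008513681))))))) (.nd (nat_lit 19) 
(.nd (nat_lit 27) (.nd (nat_lit 26) (.nd (nat_lit 11) 
(.lf (nat_lit 1610793356) (dlOf (nat_lit 1) (nat_lit 0x58008003800200500008091003))) 
(.lf (nat_lit 1345505676) (dlOf (nat_lit 1) (nat_lit 0x20028c94e81)))) (.nd (nat_lit 7) 
(.lf (nat_lit 3556950284) (dlOf (nat_lit 3) (nat_lit 0x3005c001802c000c00e0006006000600180014008000e000000e007000a003000654080060008000400200080008117403))) 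
(.lf (nat_lit 2483208588) (dlOf (nat_lit 1) (nat_lit 0xa0008090781))))) (.nd (nat_lit 7) 
(.nd (nat_lit 11) (.lf (nat_lit 3355628300) (dlOf (nat_lit 1) (nat_lit 0x6c004014e00080a8f82))) 
(.lf (nat_lit 738380556) (dlOf (nat_lit 3) (nat_lit 0x1015c000640400780b40046059003002b8015814800c0096004a03400250178015001400580080002f12000a0018095b01)))) 
(.nd (nat_lit 10) (.nd (nat_lit 12) 
(.lf (nat_lit 5301780876) (dlOf (nat_lit 2) (nat_lit 0xd00500028a0400d000400900008091002))) 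
(.lf (nat_lit 3154301324) (dlOf (nat_lit 2) (nat_lit 0x180100098a04000400200020008158382)))) 
(.lf (nat_lit 1543687564) (dlOf (nat_lit 1) (nat_lit 0x338008003000200080008146c83)))))) 
(.nd (nat_lit 7) (.nd (nat_lit 18) (.nd (nat_lit 10) 
(.lf (nat_lit 9093388) (dlOf (nat_lit 1) (nat_lit 0x8008000400200020008524803))) 
(.lf (nat_lit 8051980) (dlOf (nat_lit 1) (nat_lit 0x180080088002001a000851c603)))) 
(.nd (nat_lit 20) (.lf (nat_lit 19841292) (dlOf (nat_lit 1) (nat_lit 0x4002000200089d0a82))) 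
(.lf (nat_lit 46055692) (dlOf (nat_lit 1) (nat_lit 0x9000200140009380a82))))) (.nd (nat_lit 11) 
(.nd (nat_lit 18) (.lf (nat_lit 4096442764) (dlOf (nat_lit 1) (nat_lit 0x60018115d81))) 
(.lf (nat_lit 8307084) (dlOf (nat_lit 1) (nat_lit 0x400200020008511002)))) (.nd (nat_lit 12) 
(.lf (nat_lit 56543628) (dlOf (nat_lit 1) (nat_lit 0x400400020009734e82))) 
(.lf (nat_lit 19847564) (dlOf (nat_lit 1) (nat_lit 0x100080004002000200089daf83)))))))) 
(.nd (nat_lit 28) (.nd (nat_lit 21) (.nd (nat_lit 26) (.nd (nat_lit 19) (.nd (nat_lit 7) 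
(.nd (nat_lit 20) (.lf (nat_lit 3355688972) (dlOf (nat_lit 1) (nat_lit 0x4002000200080c0282))) 
(.lf (nat_lit 47431692) (dlOf (nat_lit 1) (nat_lit 0x200080004002000400093f0003)))) 
(.lf (nat_lit 134725772) (dlOf (nat_lit 7) (nat_lit 0x1700940004a02031a03b008801b0001181001201280007e0400640940003d0200f404a0001d0100030250000e00803f8008013000200020008090103)))) 
(.nd (nat_lit 20) (.nd (nat_lit 8) 
(.lf (nat_lit 17809420) (dlOf (nat_lit 2) (nat_lit 0x22e338038580802d00080034002003c00088f0783))) 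
(.lf (nat_lit 9158924) (dlOf (nat_lit 2) (nat_lit 0x12483000110800148a08001c00400040008524802)))) 
(.nd (nat_lit 22) 
(.lf (nat_lit 18595852) (dlOf (nat_lit 5) (nat_lit 0x32958002a4ab8016a3a8000d1d200048d500073eb00121eb0008cf56000e79600063c480031ddc0080eec000e76d00073af800e9d780044e66003873200021f00018f89000aa56000092ae004a8ea00183d600041eac0010ebc006320c000e958001647500031f5c0054f58000c78900063bb80029dd00018ebe000e733003178900123ba80189c0804e00080294002011a0008950283))) 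
(.lf (nat_lit 22790156) (dlOf (nat_lit 2) (nat_lit 0x1f2b700006c04000400400020008b20102)))))) 
(.nd (nat_lit 18) (.nd (nat_lit 30) (.nd (nat_lit 10) 
(.lf (nat_lit 604225548) (dlOf (nat_lit 1) (nat_lit 0x200080c0281))) 
(.lf (nat_lit 2751710220) (dlOf (nat_lit 1) (nat_lit 0x20008002881)))) (.nd (nat_lit 27) 
(.lf (nat_lit 1141096460) (dlOf (nat_lit 1) (nat_lit 0x4002000200080d0002))) 
(.lf (nat_lit 1812185100) (dlOf (nat_lit 3) (nat_lit 0x2000b0009d810005005800364080128008001400200380008170483))))) 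
(.nd (nat_lit 7) (.nd (nat_lit 8) 
(.lf (nat_lit 1678229516) (dlOf (nat_lit 1) (nat_lit 0x68004002200181b0682))) 
(.lf (nat_lit 2886189324) (dlOf (nat_lit 1) (nat_lit 0x21000400120018187d02)))) 
(.lf (nat_lit 201834636) (dlOf (nat_lit 7) (nat_lit 0x1700940004a02031a03b008801b0001181001201280007e0400640940003d0200f404a0001d0100030250000e00803f8008013000200020008090103)))))) 
(.nd (nat_lit 7) (.nd (nat_lit 19) (.nd (nat_lit 20) (.nd (nat_lit 23) 
(.lf (nat_lit 19382284) (dlOf (nat_lit 1) (nat_lit 0x20018990581))) 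
(.lf (nat_lit 10993676) (dlOf (nat_lit 1) (nat_lit 0x800200060008650102)))) 
(.lf (nat_lit 3653644) (dlOf (nat_lit 1) (nat_lit 0x60004000c0008210682)))) (.nd (nat_lit 8) 
(.nd (nat_lit 23) (.lf (nat_lit 19644428) (dlOf (nat_lit 1) (nat_lit 0x1400289d0001))) 
(.lf (nat_lit 11255820) (dlOf (nat_lit 2) (nat_lit 0xcac2003855b0001b028680100)))) 
(.lf (nat_lit 19909388) (dlOf (nat_lit 1) (nat_lit 0x4002000200089d5b02))))) (.nd (nat_lit 11) 
(.nd (nat_lit 19) (.nd (nat_lit 26) 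
(.lf (nat_lit 2343052) (dlOf (nat_lit 1) (nat_lit 0x400200020008150102))) 
(.lf (nat_lit 2753806476) (dlOf (nat_lit 3) (nat_lit 0x3200000011808008800000026040050002000a0008090102)))) 
(.lf (nat_lit 12304524) (dlOf (nat_lit 1) (nat_lit 0x400286c0101)))) (.nd (nat_lit 8) 
(.lf (nat_lit 19647116) (dlOf (nat_lit 1) (nat_lit 0xf000800ac002005000089d5483))) 
(.nd (nat_lit 18) 
(.lf (nat_lit 31705484) (dlOf (nat_lit 1) (nat_lit 0x108008008800200080008e94e83))) 
(.lf (nat_lit 57657740) (dlOf (nat_lit 1) (nat_lit 0x40029794e81)))))))) (.nd (nat_lit 27) 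
(.nd (nat_lit 18) (.nd (nat_lit 29) (.nd (nat_lit 21) (.nd (nat_lit 9) 
(.lf (nat_lit 4563648524) (dlOf (nat_lit 1) (nat_lit 0x1c000800a0002008600080b0003))) 
(.lf (nat_lit 3557020172) (dlOf (nat_lit 1) (nat_lit 0x68008004c00200020008128683)))) 
(.nd (nat_lit 7) 
(.lf (nat_lit 1345044492) (dlOf (nat_lit 2) (nat_lit 0x801f400000040004004000400089d0182))) 
(.lf (nat_lit 3492003980) (dlOf (nat_lit 1) (nat_lit 0x30008000800200020008090103))))) 
(.nd (nat_lit 7) (.nd (nat_lit 8) 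
(.lf (nat_lit 1879818252) (dlOf (nat_lit 1) (nat_lit 0x400400040008380782))) 
(.lf (nat_lit 5100522252) (dlOf (nat_lit 3) (nat_lit 0xc02f000190100060178000c40800d8008000c002000200080d5b03)))) 
(.lf (nat_lit 1879294092) (dlOf (nat_lit 2) (nat_lit 0xe80000004102001000180c0101))))) 
(.nd (nat_lit 26) (.nd (nat_lit 20) (.nd (nat_lit 29) 
(.lf (nat_lit 5637652492) (dlOf (nat_lit 1) (nat_lit 0xda0028140001))) 
(.lf (nat_lit 805814284) (dlOf (nat_lit 1) (nat_lit 0x68004002200181b0682)))) 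
(.lf (nat_lit 1343733772) (dlOf (nat_lit 1) (nat_lit 0x20028350281)))) (.nd (nat_lit 29) 
(.lf (nat_lit 3557277708) (dlOf (nat_lit 1) (nat_lit 0x20018190281))) 
(.lf (nat_lit 6241632268) (dlOf (nat_lit 1) (nat_lit 0xda0028140001)))))) (.nd (nat_lit 29) 
(.nd (nat_lit 20) (.nd (nat_lit 26) 
(.lf (nat_lit 4697866252) (dlOf (nat_lit 1) (nat_lit 0x1c000800a0002008600080b0003))) 
(.lf (nat_lit 2617491468) (dlOf (nat_lit 1) (nat_lit 0xc80080004002000400080c0283)))) 
(.nd (nat_lit 7) (.nd (nat_lit 18) 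
(.lf (nat_lit 471056396) (dlOf (nat_lit 1) (nat_lit 0xa0028260281))) 
(.lf (nat_lit 473939980) (dlOf (nat_lit 2) (nat_lit 0x8158003fe818fc0000)))) 
(.lf (nat_lit 473155980) (dlOf (nat_lit 1) (nat_lit 0x20028d74e81))))) (.nd (nat_lit 26) 
(.nd (nat_lit 8) (.nd (nat_lit 30) 
(.lf (nat_lit 939769868) (dlOf (nat_lit 3) (nat_lit 0x2000b0009d810005005800364080128008001400200380008170483))) 
(.lf (nat_lit 2013511692) (dlOf (nat_lit 1) (nat_lit 0x4002000200080d0002)))) 
(.lf (nat_lit 4161000204) (dlOf (nat_lit 1) (nat_lit 0x200180a8f81)))) (.nd (nat_lit 7) 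
(.lf (nat_lit 6376112140) (dlOf (nat_lit 1) (nat_lit 0x120018090001))) (.nd (nat_lit 9) 
(.lf (nat_lit 1006878860) (dlOf (nat_lit 2) (nat_lit 0xe80000004102001000180c0101))) 
(.lf (nat_lit 6376376972) (dlOf (nat_lit 1) (nat_lit 0x400200020008095482)))))))))) 
(.nd (nat_lit 7) (.nd (nat_lit 8) (.nd (nat_lit 26) (.nd (nat_lit 19) (.nd (nat_lit 16) 
(.nd (nat_lit 9) (.nd (nat_lit 20) 
(.lf (nat_lit 6308413516) (dlOf (nat_lit 1) (nat_lit 0x400400020008080502))) 
(.lf (nat_lit 62046284) (dlOf (nat_lit 1) (nat_lit 0x20029940601)))) 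
(.lf (nat_lit 1342358092) (dlOf (nat_lit 1) (nat_lit 0x8008000400200020008018b03)))) 
(.nd (nat_lit 32) (.nd (nat_lit 9) 
(.lf (nat_lit 3494363212) (dlOf (nat_lit 2) (nat_lit 0x280000000004000400200080008211882))) 
(.lf (nat_lit 805552716) (dlOf (nat_lit 2) (nat_lit 0x7801300231818128b00)))) (.nd (nat_lit 27) 
(.lf (nat_lit 4563648588) (dlOf (nat_lit 2) (nat_lit 0x30190000cc080060008000c002001c00080b0603))) 
(.lf (nat_lit 4697866316) (dlOf (nat_lit 2) (nat_lit 0x30190000c8080060008000c002001c00080b0603)))))) 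
(.nd (nat_lit 9) (.nd (nat_lit 18) (.nd (nat_lit 31) 
(.lf (nat_lit 1344979020) (dlOf (nat_lit 2) (nat_lit 0xd0000000d80800200080038002002000089a0683))) 
(.lf (nat_lit 3492462668) (dlOf (nat_lit 1) (nat_lit 0x580080004002000c00080d0d03)))) 
(.nd (nat_lit 20) (.lf (nat_lit 47104076) (dlOf (nat_lit 1) (nat_lit 0x800193a0601))) 
(.lf (nat_lit 25083980) (dlOf (nat_lit 5) (nat_lit 0x700d440007a0404586a20003c0201763510001c8100981a88000d4080038008007400200340008be1503))))) 
(.nd (nat_lit 10) (.nd (nat_lit 11) 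
(.lf (nat_lit 3491676748) (dlOf (nat_lit 2) (nat_lit 0x41c600000018091180))) 
(.lf (nat_lit 35310156) (dlOf (nat_lit 1) (nat_lit 0x400400020009015282)))) 
(.lf (nat_lit 8050252) (dlOf (nat_lit 1) (nat_lit 0x1c0018519c01)))))) (.nd (nat_lit 27) 
(.nd (nat_lit 9) (.nd (nat_lit 29) (.nd (nat_lit 28) 
(.lf (nat_lit 5435998284) (dlOf (nat_lit 1) (nat_lit 0x1400400460008090002))) 
(.lf (nat_lit 5704433740) (dlOf (nat_lit 1) (nat_lit 0x400400020008080502)))) (.nd (nat_lit 11) 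
(.lf (nat_lit 2754265164) (dlOf (nat_lit 1) (nat_lit 0x580080004002000c00080d0d03))) 
(.lf (nat_lit 2751649868) (dlOf (nat_lit 1) (nat_lit 0x200040018000800a682))))) (.nd (nat_lit 11) 
(.nd (nat_lit 16) (.lf (nat_lit 2753479244) (dlOf (nat_lit 2) (nat_lit 0x41d800000018091180))) 
(.lf (nat_lit 2755904076) (dlOf (nat_lit 1) (nat_lit 0x200281b1181)))) 
(.lf (nat_lit 2751650380) (dlOf (nat_lit 2) (nat_lit 0x9c2110000001800b600))))) (.nd (nat_lit 18) 
(.nd (nat_lit 19) (.lf (nat_lit 738377804) (dlOf (nat_lit 1) (nat_lit 0x60008090001))) 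
(.nd (nat_lit 21) 
(.lf (nat_lit 4228563020) (dlOf (nat_lit 6) (nat_lit 0x1d0160000c80800900b00006004002c0580002e02002602c000158100120160000a808012000800c4002000800080f1503))) 
(.lf (nat_lit 472563788) (dlOf (nat_lit 1) (nat_lit 0xf80080030002000400089c0683))))) 
(.nd (nat_lit 9) (.nd (nat_lit 16) 
(.lf (nat_lit 5838913612) (dlOf (nat_lit 1) (nat_lit 0x400400020008211502))) 
(.lf (nat_lit 1009238092) (dlOf (nat_lit 1) (nat_lit 0xa8008000c002000e00090a0683)))) 
(.lf (nat_lit 472304204) (dlOf (nat_lit 3) (nat_lit 0x330668000700802100000002804003800200180008985282))))))) 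
(.nd (nat_lit 19) (.nd (nat_lit 16) (.nd (nat_lit 9) (.nd (nat_lit 10) (.nd (nat_lit 18) 
(.lf (nat_lit 3624059212) (dlOf (nat_lit 2) (nat_lit 0xa08000000ac040148002005a00080b0602))) 
(.lf (nat_lit 3588428) (dlOf (nat_lit 2) (nat_lit 0x3012800006404001000200060008200602)))) 
(.lf (nat_lit 183628) (dlOf (nat_lit 1) (nat_lit 0x1e0018006a01)))) (.nd (nat_lit 10) 
(.nd (nat_lit 18) (.lf (nat_lit 59951948) (dlOf (nat_lit 1) (nat_lit 0x400400020009845c02))) 
(.lf (nat_lit 46582604) (dlOf (nat_lit 1) (nat_lit 0x400400020009385c02)))) 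
(.lf (nat_lit 2751907660) (dlOf (nat_lit 1) (nat_lit 0x400018003e81))))) (.nd (nat_lit 26) 
(.nd (nat_lit 27) (.nd (nat_lit 21) 
(.lf (nat_lit 1879294284) (dlOf (nat_lit 1) (nat_lit 0x200180c0601))) 
(.lf (nat_lit 2343244) (dlOf (nat_lit 2) (nat_lit 0x140000000cc080018008000400200020008150603)))) 
(.nd (nat_lit 18) (.lf (nat_lit 402899276) (dlOf (nat_lit 1) (nat_lit 0x24004000200080a6682))) 
(.lf (nat_lit 3892822348) (dlOf (nat_lit 1) (nat_lit 0x600008280781))))) (.nd (nat_lit 18) 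
(.nd (nat_lit 9) (.lf (nat_lit 1006879052) (dlOf (nat_lit 1) (nat_lit 0x200180c0601))) 
(.lf (nat_lit 738446156) (dlOf (nat_lit 1) (nat_lit 0x60028095c01)))) (.nd (nat_lit 27) 
(.lf (nat_lit 4362584396) (dlOf (nat_lit 2) (nat_lit 0x3e81040006604002400400020008090602))) 
(.lf (nat_lit 4228366668) (dlOf (nat_lit 2) (nat_lit 0x3e80e80006404002400400020008090602))))))) 
(.nd (nat_lit 16) (.nd (nat_lit 10) (.nd (nat_lit 18) 
(.lf (nat_lit 5773115724) (dlOf (nat_lit 1) (nat_lit 0x80080004002000200080a6683))) 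
(.nd (nat_lit 20) (.lf (nat_lit 1410253132) (dlOf (nat_lit 1) (nat_lit 0x10004000600181b0602))) 
(.lf (nat_lit 2015564) (dlOf (nat_lit 2) (nat_lit 0x4aa4700019818150600))))) (.nd (nat_lit 9) 
(.nd (nat_lit 11) 
(.lf (nat_lit 738903372) (dlOf (nat_lit 2) (nat_lit 0x202d0000a0080030008000800200080008123303))) 
(.lf (nat_lit 19848524) (dlOf (nat_lit 1) (nat_lit 0x200089dc901)))) (.nd (nat_lit 11) 
(.lf (nat_lit 8046412) (dlOf (nat_lit 1) (nat_lit 0x400400020008513e82))) 
(.lf (nat_lit 8048460) (dlOf (nat_lit 1) (nat_lit 0x8008000400200040008517783)))))) 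
(.nd (nat_lit 11) (.nd (nat_lit 18) (.nd (nat_lit 23) 
(.lf (nat_lit 4094411084) (dlOf (nat_lit 1) (nat_lit 0x8008000400200020008050d03))) 
(.lf (nat_lit 9158988) (dlOf (nat_lit 1) (nat_lit 0x400400020008526682)))) (.nd (nat_lit 28) 
(.lf (nat_lit 2081100) (dlOf (nat_lit 2) (nat_lit 0x82a4700019818150600))) 
(.lf (nat_lit 1344258380) (dlOf (nat_lit 1) (nat_lit 0x8008000400200020008520803))))) 
(.nd (nat_lit 9) (.lf (nat_lit 19914060) (dlOf (nat_lit 1) (nat_lit 0x400189dc901))) 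
(.nd (nat_lit 27) (.lf (nat_lit 4362853196) (dlOf (nat_lit 1) (nat_lit 0x40040002000811bc82))) 
(.lf (nat_lit 202103628) (dlOf (nat_lit 1) (nat_lit 0x4002000400080fbc82))))))))) (.nd (nat_lit 18) 
(.nd (nat_lit 26) (.nd (nat_lit 8) (.nd (nat_lit 10) (.nd (nat_lit 9) (.nd (nat_lit 16) 
(.lf (nat_lit 3624059084) (dlOf (nat_lit 2) (nat_lit 0x180000003a20400e0002006a00080b0482))) 
(.lf (nat_lit 1879294156) (dlOf (nat_lit 1) (nat_lit 0x600280c0481)))) 
(.lf (nat_lit 19649228) (dlOf (nat_lit 1) (nat_lit 0x200189d8c81)))) (.nd (nat_lit 12) 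
(.lf (nat_lit 8570060) (dlOf (nat_lit 1) (nat_lit 0x28008001000200020008512d83))) 
(.lf (nat_lit 4160935116) (dlOf (nat_lit 1) (nat_lit 0x200280a9501))))) (.nd (nat_lit 19) 
(.nd (nat_lit 11) (.nd (nat_lit 16) 
(.lf (nat_lit 11715020) (dlOf (nat_lit 1) (nat_lit 0x180080014002000400086c0983))) 
(.lf (nat_lit 23314892) (dlOf (nat_lit 2) (nat_lit 0x246cbf00000018b80980)))) 
(.lf (nat_lit 35834316) (dlOf (nat_lit 1) (nat_lit 0x20019014e81)))) (.nd (nat_lit 9) 
(.nd (nat_lit 12) 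
(.lf (nat_lit 3491414476) (dlOf (nat_lit 4) (nat_lit 0x2381e70001e8100a10f38000f00802f07f001203ce007a1d6003d0e7001e860000042ca001c15d003d09d800d84d8000002400ec00400ee0018090982))) 
(.lf (nat_lit 8049100) (dlOf (nat_lit 1) (nat_lit 0x8008000400200020008518683)))) 
(.lf (nat_lit 34259916) (dlOf (nat_lit 1) (nat_lit 0x400200020008fb2882)))))) (.nd (nat_lit 8) 
(.nd (nat_lit 16) (.nd (nat_lit 22) (.nd (nat_lit 29) 
(.lf (nat_lit 4496474316) (dlOf (nat_lit 1) (nat_lit 0x100018081781))) 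
(.lf (nat_lit 2885861580) (dlOf (nat_lit 2) (nat_lit 0x254000000e88180b0480)))) 
(.lf (nat_lit 2755838156) (dlOf (nat_lit 2) (nat_lit 0xb42220052109000e28281b0480)))) 
(.nd (nat_lit 9) (.lf (nat_lit 1006878924) (dlOf (nat_lit 1) (nat_lit 0x600280c0481))) 
(.lf (nat_lit 3557020364) (dlOf (nat_lit 1) (nat_lit 0x400200020008128c82))))) (.nd (nat_lit 10) 
(.nd (nat_lit 9) (.nd (nat_lit 19) 
(.lf (nat_lit 1812120012) (dlOf (nat_lit 1) (nat_lit 0x28008014c00200080008157103))) 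
(.lf (nat_lit 2753216972) (dlOf (nat_lit 4) (nat_lit 0x2381f90001f0100a10fc8000f40802f084401203f2007a1eb003d0f1801e860000042d2001c153003d09d800d84d8000002400ec00400ee0018090982)))) 
(.lf (nat_lit 3959604172) (dlOf (nat_lit 2) (nat_lit 0x1000000000018112880)))) (.nd (nat_lit 12) 
(.nd (nat_lit 16) 
(.lf (nat_lit 3959605196) (dlOf (nat_lit 3) (nat_lit 0x5c03e00540000000381001280f8006801c003400c0003001000f8000000061402b800200180008114482))) 
(.lf (nat_lit 2885928908) (dlOf (nat_lit 2) (nat_lit 0x600f800022040010004001a0018144482)))) 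
(.lf (nat_lit 3959609292) (dlOf (nat_lit 1) (nat_lit 0x3800800200020024000811a603))))))) 
(.nd (nat_lit 26) (.nd (nat_lit 19) (.nd (nat_lit 27) (.nd (nat_lit 28) (.nd (nat_lit 29) 
(.lf (nat_lit 3221668300) (dlOf (nat_lit 5) (nat_lit 0xd4082021602f015a01700128050011401e0003d0a01b002f000188100090178000c0080690100034807e01a403800d2019806080b800c803a012001600150028000004001c8008003c00200dc0008170983))) 
(.lf (nat_lit 537313740) (dlOf (nat_lit 2) (nat_lit 0x4c8066000000200020028090981)))) 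
(.nd (nat_lit 16) 
(.lf (nat_lit 805749196) (dlOf (nat_lit 2) (nat_lit 0x143815809980a604ee032029b00980000020052000800bc002000800081a0983))) 
(.lf (nat_lit 1342685644) (dlOf (nat_lit 1) (nat_lit 0x200180c0981))))) (.nd (nat_lit 9) 
(.nd (nat_lit 11) (.lf (nat_lit 134660556) (dlOf (nat_lit 1) (nat_lit 0xc800400a20008090982))) 
(.lf (nat_lit 5771807180) (dlOf (nat_lit 1) (nat_lit 0x20028004e81)))) 
(.lf (nat_lit 2550585292) (dlOf (nat_lit 1) (nat_lit 0x18008000c002000200080fa603))))) 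
(.nd (nat_lit 8) (.nd (nat_lit 9) 
(.lf (nat_lit 537837772) (dlOf (nat_lit 2) (nat_lit 0xc0000000e68181b0480))) (.nd (nat_lit 16) 
(.lf (nat_lit 19845836) (dlOf (nat_lit 1) (nat_lit 0x80080004002000200089d8c83))) 
(.lf (nat_lit 19911372) (dlOf (nat_lit 1) (nat_lit 0x80080004002000200089d8c83))))) 
(.nd (nat_lit 9) (.nd (nat_lit 16) 
(.lf (nat_lit 37669324) (dlOf (nat_lit 1) (nat_lit 0x200290d4e81))) 
(.lf (nat_lit 37734860) (dlOf (nat_lit 1) (nat_lit 0x200090d4e81)))) 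
(.lf (nat_lit 3492791244) (dlOf (nat_lit 1) (nat_lit 0x4004000200080f2882)))))) (.nd (nat_lit 27) 
(.nd (nat_lit 28) (.nd (nat_lit 8) 
(.lf (nat_lit 4362584268) (dlOf (nat_lit 2) (nat_lit 0x550000009240800b8008005800200180008090483))) 
(.nd (nat_lit 29) (.lf (nat_lit 4362518988) (dlOf (nat_lit 1) (nat_lit 0x400200040008090982))) 
(.lf (nat_lit 1678164428) (dlOf (nat_lit 2) (nat_lit 0x143815809980a604ee032029b00980000020052000800bc002000800081a0983))))) 
(.nd (nat_lit 8) 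
(.lf (nat_lit 1410253004) (dlOf (nat_lit 1) (nat_lit 0x300080058002002000081b0483))) 
(.nd (nat_lit 11) 
(.lf (nat_lit 1409728972) (dlOf (nat_lit 2) (nat_lit 0x4c8066000000200020028090981))) 
(.lf (nat_lit 872860108) (dlOf (nat_lit 1) (nat_lit 0x200280e4e81)))))) (.nd (nat_lit 16) 
(.nd (nat_lit 28) (.nd (nat_lit 29) 
(.lf (nat_lit 201769420) (dlOf (nat_lit 1) (nat_lit 0xc800400a20008090982))) 
(.lf (nat_lit 3959865804) (dlOf (nat_lit 5) (nat_lit 0xd4082021602f015a01700128050011401e0003e0a01b002f000188100090178000c0080690100034807e01a403800d2019806080b800c803a012001600150028000004001c8008003c00200dc0008170983)))) 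
(.lf (nat_lit 4228301260) (dlOf (nat_lit 1) (nat_lit 0x400200040008090982)))) (.nd (nat_lit 8) 
(.lf (nat_lit 4228366540) (dlOf (nat_lit 2) (nat_lit 0x550000009240800b8008005800200180008090483))) 
(.lf (nat_lit 470270412) (dlOf (nat_lit 1) (nat_lit 0x200180c0981)))))))))) (.nd (nat_lit 16) 
(.nd (nat_lit 18) (.nd (nat_lit 8) (.nd (nat_lit 19) (.nd (nat_lit 28) (.nd (nat_lit 9) 
(.nd (nat_lit 20) (.nd (nat_lit 10) (.nd (nat_lit 27) 
(.lf (nat_lit 5368889388) (dlOf (nat_lit 2) (nat_lit 0x1004c000ea040014004000a0008080482))) 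
(.lf (nat_lit 5503107116) (dlOf (nat_lit 2) (nat_lit 0x1004c000ea040014004000a0008080482)))) 
(.lf (nat_lit 1610794028) (dlOf (nat_lit 1) (nat_lit 0xa0028092881)))) (.nd (nat_lit 7) 
(.nd (nat_lit 21) 
(.lf (nat_lit 18006060) (dlOf (nat_lit 2) (nat_lit 0xa680000326b8000ec100188008003400200220008900b03))) 
(.lf (nat_lit 24297516) (dlOf (nat_lit 1) (nat_lit 0x20018b90981)))) 
(.lf (nat_lit 9617580) (dlOf (nat_lit 1) (nat_lit 0x8008000400200020008571503))))) 
(.nd (nat_lit 26) (.nd (nat_lit 10) (.nd (nat_lit 20) 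
(.lf (nat_lit 134398508) (dlOf (nat_lit 1) (nat_lit 0x400400040008018002))) 
(.lf (nat_lit 11715116) (dlOf (nat_lit 2) (nat_lit 0x780000000702000400186c0e81)))) 
(.lf (nat_lit 1610794540) (dlOf (nat_lit 2) (nat_lit 0x901500004c0801e8008002c00200640008093783)))) 
(.nd (nat_lit 10) (.nd (nat_lit 29) 
(.lf (nat_lit 2348991020) (dlOf (nat_lit 2) (nat_lit 0x9602b00000018090e80))) 
(.lf (nat_lit 1812120108) (dlOf (nat_lit 2) (nat_lit 0x58000000bc04004400200940008158002)))) 
(.lf (nat_lit 6509743660) (dlOf (nat_lit 1) (nat_lit 0x400200020008147182)))))) (.nd (nat_lit 26) 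
(.nd (nat_lit 27) (.nd (nat_lit 6) (.nd (nat_lit 29) 
(.lf (nat_lit 2416099372) (dlOf (nat_lit 1) (nat_lit 0x20028060601))) 
(.lf (nat_lit 2952970284) (dlOf (nat_lit 1) (nat_lit 0x10008001000200040008060883)))) 
(.lf (nat_lit 5100453996) (dlOf (nat_lit 1) (nat_lit 0x40028090b01)))) (.nd (nat_lit 29) 
(.lf (nat_lit 2550317100) (dlOf (nat_lit 1) (nat_lit 0x20028060601))) (.nd (nat_lit 30) 
(.lf (nat_lit 5234671660) (dlOf (nat_lit 4) (nat_lit 0x180540000302001202a00001010015015000000080128008000400200020008080303))) 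
(.lf (nat_lit 6308413484) (dlOf (nat_lit 1) (nat_lit 0x20018080301)))))) (.nd (nat_lit 29) 
(.nd (nat_lit 9) (.lf (nat_lit 5704433708) (dlOf (nat_lit 1) (nat_lit 0x20018080301))) 
(.lf (nat_lit 2483208748) (dlOf (nat_lit 2) (nat_lit 0x9602b00000018090e80)))) (.nd (nat_lit 10) 
(.lf (nat_lit 5167562796) (dlOf (nat_lit 1) (nat_lit 0x200080c0481))) 
(.lf (nat_lit 5301781548) (dlOf (nat_lit 1) (nat_lit 0x48008005800200300008092883))))))) 
(.nd (nat_lit 21) (.nd (nat_lit 20) (.nd (nat_lit 26) (.nd (nat_lit 6) (.nd (nat_lit 22) 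
(.nd (nat_lit 27) 
(.lf (nat_lit 537575468) (dlOf (nat_lit 7) (nat_lit 0x81c0be017e05e0001202020602f804e8178000440804b40be0002002026605f0000f81008102f80007408006017c000360400ac002000a00080c0d02))) 
(.lf (nat_lit 134922284) (dlOf (nat_lit 1) (nat_lit 0x4000800d000200da00080e0603)))) 
(.lf (nat_lit 21676076) (dlOf (nat_lit 1) (nat_lit 0x20008a60d01)))) 
(.lf (nat_lit 707820) (dlOf (nat_lit 2) (nat_lit 0x200000006c04018800200100008006502)))) 
(.nd (nat_lit 27) 
(.lf (nat_lit 4362780716) (dlOf (nat_lit 5) (nat_lit 0x54c0ac023c04901ae01580758088000ae10054c0ac037e02b0092011000150180a981580464092034802b00e50110000dc200ac015802640a8035c02b00f40110000cc2000b800800dc002001200080f0d03))) 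
(.lf (nat_lit 202031148) (dlOf (nat_lit 1) (nat_lit 0x4000800d000200da00080e0603))))) 
(.nd (nat_lit 9) (.nd (nat_lit 28) 
(.lf (nat_lit 1753132) (dlOf (nat_lit 2) (nat_lit 0x401ae0002a0200080008130801))) 
(.lf (nat_lit 1880801324) (dlOf (nat_lit 1) (nat_lit 0x580028ba0981)))) (.nd (nat_lit 26) 
(.lf (nat_lit 3491414572) (dlOf (nat_lit 2) (nat_lit 0x2221eb010f0e900000010049000800ac002007e0008090e83))) 
(.lf (nat_lit 2753217068) (dlOf (nat_lit 2) (nat_lit 0x2221fd010f0f380000010049000800ac002007e0008090e83)))))) 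
(.nd (nat_lit 26) (.nd (nat_lit 6) (.nd (nat_lit 28) 
(.lf (nat_lit 2801708) (dlOf (nat_lit 1) (nat_lit 0x4004000600081b0d02))) 
(.lf (nat_lit 3492462636) (dlOf (nat_lit 1) (nat_lit 0x4004000200080d0a82)))) 
(.lf (nat_lit 8046188) (dlOf (nat_lit 1) (nat_lit 0x400400020008513902)))) (.nd (nat_lit 6) 
(.nd (nat_lit 9) (.nd (nat_lit 27) 
(.lf (nat_lit 2754265132) (dlOf (nat_lit 1) (nat_lit 0x4004000200080d0a82))) 
(.lf (nat_lit 472563756) (dlOf (nat_lit 4) (nat_lit 0x1405a40002e0400e82d2004a168000048200340b4002d0514001019e002c018000000489c0280)))) 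
(.lf (nat_lit 473612844) (dlOf (nat_lit 1) (nat_lit 0x20004000e0008f68a02)))) 
(.lf (nat_lit 472563948) (dlOf (nat_lit 1) (nat_lit 0x4004000200189c1e82))))))) (.nd (nat_lit 6) 
(.nd (nat_lit 29) (.nd (nat_lit 7) (.nd (nat_lit 9) 
(.lf (nat_lit 46842156) (dlOf (nat_lit 1) (nat_lit 0x3400200040009380b02))) 
(.lf (nat_lit 8569644) (dlOf (nat_lit 1) (nat_lit 0x70008001000200020008512203)))) (.nd (nat_lit 9) 
(.nd (nat_lit 10) (.lf (nat_lit 8049068) (dlOf (nat_lit 1) (nat_lit 0x8008001800200060008518483))) 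
(.lf (nat_lit 8045996) (dlOf (nat_lit 1) (nat_lit 0x20008513601)))) 
(.lf (nat_lit 3221412780) (dlOf (nat_lit 1) (nat_lit 0x17000800e80020038000811bd83))))) 
(.nd (nat_lit 7) (.nd (nat_lit 9) 
(.lf (nat_lit 2751650092) (dlOf (nat_lit 1) (nat_lit 0x1e001800ab81))) 
(.lf (nat_lit 2752169772) (dlOf (nat_lit 1) (nat_lit 0x1000008003d81)))) (.nd (nat_lit 10) 
(.nd (nat_lit 11) (.lf (nat_lit 5301780908) (dlOf (nat_lit 1) (nat_lit 0x1800200040008091002))) 
(.lf (nat_lit 738380204) (dlOf (nat_lit 1) (nat_lit 0x140028094e81)))) 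
(.lf (nat_lit 3758282156) (dlOf (nat_lit 15) (nat_lit 0x1ec07a00d603b0057018002b00ac019404800ca0220052886007801e803b00ec01dc06000c802b0074012004180880149e1801b006c0050030008a015804900900148c1001b406c011602b00960120004804c0148a1000cc06c007c02b004d0120028f01804680d80210056011e0240051d0300060120028e40806000e402f4070013203200c9017005480b4036004e0136026005d00c0028d04007000e40324070013a03200cf017005380b403e404e0140026000100b8028cc4000380e400a805c01cc027005180300d901c805000e0021406401e002e009f0168076009c028404c002c018005150800160170054809c01452080384072014a038008f019007980b802a005a01da02700a401300128060014502001c805c006002d00d3013800e00980144e1000d400400980018129902)))))) 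
(.nd (nat_lit 21) (.nd (nat_lit 26) (.nd (nat_lit 7) (.nd (nat_lit 10) 
(.lf (nat_lit 4160930668) (dlOf (nat_lit 1) (nat_lit 0x8004000200080a2582))) 
(.lf (nat_lit 537053036) (dlOf (nat_lit 1) (nat_lit 0x8008000400200020008004003)))) 
(.nd (nat_lit 27) 
(.lf (nat_lit 1342357996) (dlOf (nat_lit 2) (nat_lit 0x1a247001311e0020888000ec3380004208000c0028017301))) 
(.nd (nat_lit 31) (.lf (nat_lit 134398444) (dlOf (nat_lit 2) (nat_lit 0x860000000f018017300))) 
(.lf (nat_lit 6576849388) (dlOf (nat_lit 2) (nat_lit 0x9008800108080008008000800200040008157303)))))) 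
(.nd (nat_lit 12) (.nd (nat_lit 7) 
(.lf (nat_lit 3422733164) (dlOf (nat_lit 1) (nat_lit 0x4004000200080a2582))) (.nd (nat_lit 28) 
(.lf (nat_lit 1812120044) (dlOf (nat_lit 7) (nat_lit 0x5c002c01c001200fc004006f0000001742005b802c021c01200fc00400980000001702003e8000000a4040104016000a009000c00200014018019002c0008e0403ac0160022009008e00200618000000841000d000400540018157302))) 
(.lf (nat_lit 4228039148) (dlOf (nat_lit 10) (nat_lit 0xeb80a8000d00406dc0540006702036202a0003301018d0150001940800f80a8000c60407640540004202035a02a000208101bc0150000fc080c680a80007c0400a000400980008017302))))) 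
(.nd (nat_lit 10) (.lf (nat_lit 2751650284) (dlOf (nat_lit 1) (nat_lit 0x8002800b281))) 
(.lf (nat_lit 3422737900) (dlOf (nat_lit 1) (nat_lit 0xc00280a9c01)))))) (.nd (nat_lit 7) 
(.nd (nat_lit 9) (.nd (nat_lit 11) 
(.lf (nat_lit 8049004) (dlOf (nat_lit 1) (nat_lit 0x60028518381))) 
(.lf (nat_lit 8051052) (dlOf (nat_lit 1) (nat_lit 0x800800040020002000851ac83)))) 
(.lf (nat_lit 8045420) (dlOf (nat_lit 1) (nat_lit 0x8008000400200020008512583)))) (.nd (nat_lit 19) 
(.nd (nat_lit 20) 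
(.lf (nat_lit 5773642220) (dlOf (nat_lit 1) (nat_lit 0x1980080058002001800080e4f03))) 
(.lf (nat_lit 36882924) (dlOf (nat_lit 1) (nat_lit 0x400400020009074f02)))) (.nd (nat_lit 9) 
(.nd (nat_lit 22) (.lf (nat_lit 37407212) (dlOf (nat_lit 1) (nat_lit 0x8002000200090d4f02))) 
(.lf (nat_lit 33212908) (dlOf (nat_lit 1) (nat_lit 0x40028f54f01)))) 
(.lf (nat_lit 8048620) (dlOf (nat_lit 1) (nat_lit 0x20008517a81))))))))) (.nd (nat_lit 6) 
(.nd (nat_lit 22) (.nd (nat_lit 28) (.nd (nat_lit 9) (.nd (nat_lit 21) (.nd (nat_lit 12) 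
(.lf (nat_lit 1074184236) (dlOf (nat_lit 6) (nat_lit 0x1809c0006404000804e00031020068027000a0008000bc10002809c0005c04001404e0002d02000400080d0a81))) 
(.lf (nat_lit 8835116) (dlOf (nat_lit 1) (nat_lit 0xf00008517c01)))) (.nd (nat_lit 19) 
(.lf (nat_lit 2754002988) (dlOf (nat_lit 1) (nat_lit 0x400280b0e81))) 
(.lf (nat_lit 4112428) (dlOf (nat_lit 1) (nat_lit 0x20018280601))))) (.nd (nat_lit 26) 
(.nd (nat_lit 27) (.lf (nat_lit 537313836) (dlOf (nat_lit 2) (nat_lit 0x1603200000018090e80))) 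
(.lf (nat_lit 134660652) (dlOf (nat_lit 2) (nat_lit 0x23203101130088000001002d0008001800200640008090e83)))) 
(.lf (nat_lit 201769516) (dlOf (nat_lit 2) (nat_lit 0x23203101130088000001002d0008001800200640008090e83))))) 
(.nd (nat_lit 20) (.nd (nat_lit 31) (.nd (nat_lit 9) 
(.lf (nat_lit 1946599468) (dlOf (nat_lit 6) (nat_lit 0x1809c0005e04000804e0002e020068027000a0008000b010002809c0005604001404e0002a02000400080d0a81))) 
(.lf (nat_lit 1409729068) (dlOf (nat_lit 2) (nat_lit 0x1603200000018090e80)))) (.nd (nat_lit 21) 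
(.lf (nat_lit 3557212204) (dlOf (nat_lit 1) (nat_lit 0xc00400020008170402))) 
(.lf (nat_lit 3492200492) (dlOf (nat_lit 1) (nat_lit 0x600280b0e81))))) (.nd (nat_lit 7) 
(.lf (nat_lit 473874476) (dlOf (nat_lit 5) (nat_lit 0x8b102006485a0033828a019c0cf0009059001581cc00016180018408008016800990a2804c833c000141002a82d0015214500aa0678000241805f05a002c028a015e0cf00a20630000002003e80080084002054a0008fc0283))) 
(.nd (nat_lit 10) 
(.lf (nat_lit 5773377708) (dlOf (nat_lit 2) (nat_lit 0x400b80002a040004004000400180c1502))) 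
(.lf (nat_lit 1880540332) (dlOf (nat_lit 1) (nat_lit 0x14004002000089e2c02))))))) (.nd (nat_lit 19) 
(.nd (nat_lit 21) (.nd (nat_lit 9) (.nd (nat_lit 20) 
(.lf (nat_lit 1346813996) (dlOf (nat_lit 1) (nat_lit 0x20019020281))) 
(.lf (nat_lit 22462508) (dlOf (nat_lit 1) (nat_lit 0x400400140008ae0602)))) 
(.lf (nat_lit 474401324) (dlOf (nat_lit 2) (nat_lit 0x10558000f604000400400020019165182)))) 
(.nd (nat_lit 7) 
(.lf (nat_lit 15122476) (dlOf (nat_lit 5) (nat_lit 0x4a260000c9b8000be0800068980005d020005dff00059da000e9b3c014c7240052317002c1080001483000877fc0043a2e0005c690043b8a002ed970001ecb601e94b10007a258009ced000224ea006f26e000490380109b3c00ac62e002e210000258f87c0680))) 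
(.lf (nat_lit 23511468) (dlOf (nat_lit 2) (nat_lit 0x18cbf00406018b80780))))) (.nd (nat_lit 7) 
(.nd (nat_lit 21) (.nd (nat_lit 23) 
(.lf (nat_lit 5161004) (dlOf (nat_lit 3) (nat_lit 0x5eaa660002901003953c002e29980009608001c00400040008320682))) 
(.lf (nat_lit 13549612) (dlOf (nat_lit 1) (nat_lit 0x20018730a81)))) 
(.lf (nat_lit 15646764) (dlOf (nat_lit 1) (nat_lit 0x8008000400200020008810803)))) (.nd (nat_lit 8) 
(.lf (nat_lit 8311468) (dlOf (nat_lit 1) (nat_lit 0x8008000400200020008518c83))) 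
(.lf (nat_lit 8311724) (dlOf (nat_lit 1) (nat_lit 0x400400020018519182))))))) (.nd (nat_lit 7) 
(.nd (nat_lit 8) (.nd (nat_lit 29) (.nd (nat_lit 9) 
(.lf (nat_lit 1343668332) (dlOf (nat_lit 2) (nat_lit 0x40858400316040008002000e00082e0482))) 
(.lf (nat_lit 19843692) (dlOf (nat_lit 1) (nat_lit 0x4002001200089d5382)))) (.nd (nat_lit 26) 
(.lf (nat_lit 1611055212) (dlOf (nat_lit 1) (nat_lit 0xc004000200080d0b02))) 
(.lf (nat_lit 738639980) (dlOf (nat_lit 1) (nat_lit 0xc004000200080d0b02))))) (.nd (nat_lit 26) 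
(.nd (nat_lit 19) (.lf (nat_lit 805749100) (dlOf (nat_lit 2) (nat_lit 0x1a044000090181a0700))) 
(.lf (nat_lit 26132844) (dlOf (nat_lit 1) (nat_lit 0x120028c10a01)))) (.nd (nat_lit 27) 
(.nd (nat_lit 29) (.lf (nat_lit 4362518892) (dlOf (nat_lit 1) (nat_lit 0x20028090701))) 
(.lf (nat_lit 1678164332) (dlOf (nat_lit 2) (nat_lit 0x1a044000090181a0700)))) 
(.lf (nat_lit 4228301164) (dlOf (nat_lit 1) (nat_lit 0x20028090701)))))) (.nd (nat_lit 8) 
(.nd (nat_lit 9) 
(.lf (nat_lit 2416364780) (dlOf (nat_lit 4) (nat_lit 0x3c024001401100370080007003c011c01c000c00d0008004800b000c0006c200040024001601100020080003003c002001a000340a001601200090088006003c003001a0002b08001200280f6501))) 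
(.nd (nat_lit 24) (.lf (nat_lit 1745275628) (dlOf (nat_lit 1) (nat_lit 0x4004000400080e5a02))) 
(.lf (nat_lit 50776812) (dlOf (nat_lit 1) (nat_lit 0x4002000200094c5a02))))) (.nd (nat_lit 19) 
(.nd (nat_lit 20) (.lf (nat_lit 4094085612) (dlOf (nat_lit 1) (nat_lit 0x400400020008004f02))) 
(.lf (nat_lit 473352684) (dlOf (nat_lit 1) (nat_lit 0x400400140008ef4f02)))) (.nd (nat_lit 11) 
(.lf (nat_lit 3490628076) (dlOf (nat_lit 5) (nat_lit 0x1081ae0002e0200d20d7000168100e406000005c0803e03000002a04000400400620018017302))) 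
(.lf (nat_lit 38717932) (dlOf (nat_lit 1) (nat_lit 0x800200020009134f02))))))))) (.nd (nat_lit 21) 
(.nd (nat_lit 28) (.nd (nat_lit 18) (.nd (nat_lit 29) (.nd (nat_lit 6) (.nd (nat_lit 9) 
(.lf (nat_lit 4362321964) (dlOf (nat_lit 2) (nat_lit 0x981180007204000800400040008020682))) 
(.lf (nat_lit 3288580652) (dlOf (nat_lit 6) (nat_lit 0xa808000480160002004008a02000007810075020001200800000e0800b004000003020098020002e0058000001001d8008008000200240008090e83)))) 
(.nd (nat_lit 8) (.lf (nat_lit 37994604) (dlOf (nat_lit 1) (nat_lit 0x400400020009101e82))) 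
(.lf (nat_lit 4496542572) (dlOf (nat_lit 1) (nat_lit 0x4004000200080e5c02))))) (.nd (nat_lit 7) 
(.nd (nat_lit 19) (.lf (nat_lit 3758342188) (dlOf (nat_lit 1) (nat_lit 0x1400018130001))) 
(.lf (nat_lit 537641004) (dlOf (nat_lit 3) (nat_lit 0x2054000102280013c1009d014800000040004002000c00080e0602)))) 
(.nd (nat_lit 8) (.lf (nat_lit 2752757932) (dlOf (nat_lit 1) (nat_lit 0x400400020008044c02))) 
(.lf (nat_lit 4899195820) (dlOf (nat_lit 1) (nat_lit 0x4c00400f000080d5d02)))))) (.nd (nat_lit 7) 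
(.nd (nat_lit 24) (.nd (nat_lit 19) (.nd (nat_lit 9) 
(.lf (nat_lit 9945132) (dlOf (nat_lit 1) (nat_lit 0xa8008000400200180008590c03))) 
(.lf (nat_lit 8898092) (dlOf (nat_lit 1) (nat_lit 0x20008513781)))) (.nd (nat_lit 22) 
(.lf (nat_lit 68141100) (dlOf (nat_lit 1) (nat_lit 0x5e0008400401))) 
(.lf (nat_lit 38780972) (dlOf (nat_lit 1) (nat_lit 0x400400020009150282))))) (.nd (nat_lit 25) 
(.nd (nat_lit 6) (.lf (nat_lit 17285164) (dlOf (nat_lit 1) (nat_lit 0x2a00288e0001))) 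
(.lf (nat_lit 25674092) (dlOf (nat_lit 1) (nat_lit 0x20018c10a01)))) (.nd (nat_lit 9) 
(.lf (nat_lit 55033900) (dlOf (nat_lit 7) (nat_lit 0x244c60001401000200000009c08003129c000892a000250400044c60000c0100032630000440800192e800018040130004004a0019690302))) 
(.lf (nat_lit 50840108) (dlOf (nat_lit 2) (nat_lit 0x69d100007204000c004002800094d8a02)))))) 
(.nd (nat_lit 26) (.nd (nat_lit 6) 
(.lf (nat_lit 5906088108) (dlOf (nat_lit 1) (nat_lit 0x4004000200081a4c02))) 
(.lf (nat_lit 8903404) (dlOf (nat_lit 1) (nat_lit 0x40020006000851b982)))) (.nd (nat_lit 10) 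
(.lf (nat_lit 6510067884) (dlOf (nat_lit 1) (nat_lit 0x4004000200081a4c02))) 
(.lf (nat_lit 68666540) (dlOf (nat_lit 1) (nat_lit 0x400400060008662c02))))))) (.nd (nat_lit 6) 
(.nd (nat_lit 30) (.nd (nat_lit 27) (.nd (nat_lit 9) (.nd (nat_lit 18) 
(.lf (nat_lit 4563648556) (dlOf (nat_lit 1) (nat_lit 0x20008006c002004400080b0403))) 
(.lf (nat_lit 2416427052) (dlOf (nat_lit 3) (nat_lit 0x80480008020000400f00050068035482000100440018020000800f00030068035442000a8008003c002001200081d0a03)))) 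
(.lf (nat_lit 805552684) (dlOf (nat_lit 4) (nat_lit 0x6d0288002012c000480801040a20001f020046051002501d000070100030008001c00200280008128003)))) 
(.nd (nat_lit 9) (.nd (nat_lit 26) 
(.lf (nat_lit 4697866284) (dlOf (nat_lit 1) (nat_lit 0x20008006c002004400080b0403))) 
(.lf (nat_lit 470007852) (dlOf (nat_lit 2) (nat_lit 0xc0e68000c80800f8008007400200da0008020583)))) 
(.lf (nat_lit 5234738732) (dlOf (nat_lit 1) (nat_lit 0x200280d3781))))) (.nd (nat_lit 26) 
(.nd (nat_lit 31) (.nd (nat_lit 27) 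
(.lf (nat_lit 1342423084) (dlOf (nat_lit 2) (nat_lit 0xc0e68000c80800f8008007400200da0008020583))) 
(.lf (nat_lit 1476640812) (dlOf (nat_lit 1) (nat_lit 0xe400180c0881)))) (.nd (nat_lit 7) 
(.lf (nat_lit 4026778156) (dlOf (nat_lit 6) (nat_lit 0xa808000480160002004008a02000007810075020001200800000e0800b004000004020098020002e0058000001001d8008008000200240008090e83))) 
(.lf (nat_lit 3490955436) (dlOf (nat_lit 1) (nat_lit 0x400400020008044c02))))) (.nd (nat_lit 8) 
(.nd (nat_lit 19) 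
(.lf (nat_lit 4228104236) (dlOf (nat_lit 2) (nat_lit 0x980fc0007404000800400040008020682))) 
(.lf (nat_lit 1410056236) (dlOf (nat_lit 3) (nat_lit 0x205400010210001581009d014800000040004002000c00080e0602)))) 
(.lf (nat_lit 6241372972) (dlOf (nat_lit 1) (nat_lit 0x200180d5c01)))))) (.nd (nat_lit 29) 
(.nd (nat_lit 7) (.nd (nat_lit 8) 
(.lf (nat_lit 3557021804) (dlOf (nat_lit 4) (nat_lit 0x1dc08a010c0380052e02004601c00291c0800080e00146a0400b80040034000812a882))) 
(.nd (nat_lit 9) 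
(.lf (nat_lit 335790444) (dlOf (nat_lit 1) (nat_lit 0x880080008002000200080a7603))) 
(.lf (nat_lit 3557019500) (dlOf (nat_lit 2) (nat_lit 0x101c002960080020008001000200140008127783))))) 
(.nd (nat_lit 12) 
(.lf (nat_lit 3490693612) (dlOf (nat_lit 3) (nat_lit 0x11221300201088000b810002080c0005a040078004001e0008017302))) 
(.lf (nat_lit 3557020140) (dlOf (nat_lit 1) (nat_lit 0x8008000400200020008128683))))) 
(.nd (nat_lit 8) (.nd (nat_lit 7) 
(.lf (nat_lit 5100522092) (dlOf (nat_lit 2) (nat_lit 0x2800000076040050004001000080d5382))) 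
(.nd (nat_lit 9) 
(.lf (nat_lit 872662252) (dlOf (nat_lit 1) (nat_lit 0x68008000400200100008092e83))) 
(.lf (nat_lit 4094151404) (dlOf (nat_lit 1) (nat_lit 0x6800400320018005a02))))) (.nd (nat_lit 10) 
(.lf (nat_lit 805552620) (dlOf (nat_lit 10) (nat_lit 0xc4021001b01000558044027c00e008e0060099801003c0000000680e016e04201320070050803003d0000000670801440420003020009b008804d001c012000c010a00200720000000cc1c031008400300400156011009e80380238018026600400de0010074000000084200280084025a00e0002082009b0210094008804b001c00e800c0113002005a8008038c0000003f0e0012051001c02100008c10018814400ac074000220400a8051004e01d000078100498008091c00204c40008127303))) 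
(.lf (nat_lit 4161000940) (dlOf (nat_lit 1) (nat_lit 0x1200180a9c01)))))))) (.nd (nat_lit 20) 
(.nd (nat_lit 18) (.nd (nat_lit 28) (.nd (nat_lit 7) (.nd (nat_lit 6) (.nd (nat_lit 26) 
(.lf (nat_lit 2867244) (dlOf (nat_lit 1) (nat_lit 0xc002000400081c0a82))) 
(.lf (nat_lit 2754330668) (dlOf (nat_lit 9) (nat_lit 0x408928013048a01022350081107800c8458021c000000320c00be24a0027122804588d4000822c010a000000188500010000000bc0800080000005a0400040000002c0200061fc0001281035b0fe000407b808c43cc000130600061fc00010f70000001000180080010002000600080d0a83)))) 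
(.lf (nat_lit 44286060) (dlOf (nat_lit 1) (nat_lit 0x4004001200092e0b02)))) (.nd (nat_lit 19) 
(.lf (nat_lit 61064364) (dlOf (nat_lit 1) (nat_lit 0x1880080004002004200098c2c03))) 
(.lf (nat_lit 36422828) (dlOf (nat_lit 1) (nat_lit 0x20019072c01))))) (.nd (nat_lit 6) 
(.nd (nat_lit 26) (.nd (nat_lit 31) 
(.lf (nat_lit 1345044524) (dlOf (nat_lit 1) (nat_lit 0x800289d0981))) 
(.lf (nat_lit 3492528172) (dlOf (nat_lit 9) (nat_lit 0x4088c8013045a010222000810fd000c8458021c0000002f0c00be232002711680458880000822c010a000000170500010000000b008000800000054040004000000290200061ea0001281035b0f50004076408c43a2000130600061ea00010ec8000001000180080010002000600080d0a83)))) 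
(.lf (nat_lit 472629292) (dlOf (nat_lit 1) (nat_lit 0x4002000200089d0982)))) (.nd (nat_lit 7) 
(.lf (nat_lit 4096508012) (dlOf (nat_lit 1) (nat_lit 0x400200020008120b02))) 
(.lf (nat_lit 6378209516) (dlOf (nat_lit 1) (nat_lit 0x2a0028126e81)))))) (.nd (nat_lit 7) 
(.nd (nat_lit 22) (.nd (nat_lit 6) (.nd (nat_lit 10) 
(.lf (nat_lit 27770924) (dlOf (nat_lit 2) (nat_lit 0xcdfc00236c70012354800719920005908006a0028d20801))) 
(.lf (nat_lit 1344783404) (dlOf (nat_lit 1) (nat_lit 0x48008000400200080008982883)))) 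
(.lf (nat_lit 1881653356) (dlOf (nat_lit 2) (nat_lit 0x4000000130200260008fa0b01)))) 
(.nd (nat_lit 24) (.lf (nat_lit 48742444) (dlOf (nat_lit 1) (nat_lit 0x3000400140009420282))) 
(.lf (nat_lit 31965228) (dlOf (nat_lit 1) (nat_lit 0x400400020008eb0282))))) (.nd (nat_lit 8) 
(.nd (nat_lit 9) 
(.lf (nat_lit 472892588) (dlOf (nat_lit 2) (nat_lit 0x2407a000300200040028b52c01))) 
(.lf (nat_lit 19913388) (dlOf (nat_lit 1) (nat_lit 0x600289db781)))) (.nd (nat_lit 6) 
(.lf (nat_lit 472369580) (dlOf (nat_lit 1) (nat_lit 0x1c00400060008984e82))) 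
(.lf (nat_lit 61851116) (dlOf (nat_lit 4) (nat_lit 0x919c60022502004cce3001058100296768012b3b00036408002800400020009923602))))))) 
(.nd (nat_lit 7) (.nd (nat_lit 8) (.nd (nat_lit 11) (.nd (nat_lit 18) (.nd (nat_lit 26) 
(.lf (nat_lit 3493576748) (dlOf (nat_lit 1) (nat_lit 0x8008000c002000a0008170603))) 
(.lf (nat_lit 2755379244) (dlOf (nat_lit 1) (nat_lit 0x8008000c002000a0008170603)))) 
(.lf (nat_lit 473940012) (dlOf (nat_lit 6) (nat_lit 0x1868401bc2b0001a145001c0920041833c04d012c02660830096039800b8070002002e0000b14005a1580044067807a825803d410600c2073001700b800028300438560026c19e000090400a0096001a04180001c1004c856000742aa01580cf00090660013032800c418c01ae0960053039800000400a58008471400204d60008fc0283)))) 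
(.nd (nat_lit 9) (.lf (nat_lit 8116268) (dlOf (nat_lit 1) (nat_lit 0x800800040020002000851a603))) 
(.lf (nat_lit 473680428) (dlOf (nat_lit 1) (nat_lit 0x180028fa5181))))) (.nd (nat_lit 9) 
(.nd (nat_lit 10) (.lf (nat_lit 8116588) (dlOf (nat_lit 1) (nat_lit 0x40040002000851ac82))) 
(.lf (nat_lit 50054508) (dlOf (nat_lit 1) (nat_lit 0x4002000200094c3482)))) (.nd (nat_lit 6) 
(.lf (nat_lit 3493054252) (dlOf (nat_lit 1) (nat_lit 0xc00080f3d81))) 
(.lf (nat_lit 8110956) (dlOf (nat_lit 1) (nat_lit 0x400400020008512582)))))) (.nd (nat_lit 19) 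
(.nd (nat_lit 6) (.nd (nat_lit 8) (.nd (nat_lit 9) 
(.lf (nat_lit 62111916) (dlOf (nat_lit 1) (nat_lit 0x40009951501))) 
(.lf (nat_lit 20174508) (dlOf (nat_lit 1) (nat_lit 0x4002000200089da002)))) 
(.lf (nat_lit 41140652) (dlOf (nat_lit 1) (nat_lit 0x640019226e81)))) (.nd (nat_lit 8) 
(.lf (nat_lit 20437740) (dlOf (nat_lit 1) (nat_lit 0x280080004002000200089db983))) 
(.lf (nat_lit 473416684) (dlOf (nat_lit 1) (nat_lit 0xa0008015c00200fe0008f52883))))) 
(.nd (nat_lit 6) (.nd (nat_lit 8) 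
(.lf (nat_lit 37733548) (dlOf (nat_lit 1) (nat_lit 0x18004005800090d2c02))) (.nd (nat_lit 11) 
(.lf (nat_lit 8114604) (dlOf (nat_lit 1) (nat_lit 0x1a0028518481))) 
(.lf (nat_lit 58706348) (dlOf (nat_lit 1) (nat_lit 0x200197e4e81))))) (.nd (nat_lit 9) 
(.lf (nat_lit 33278444) (dlOf (nat_lit 1) (nat_lit 0x40028f54f01))) 
(.lf (nat_lit 50054124) (dlOf (nat_lit 1) (nat_lit 0xe00294c2881))))))))))) (.nd (nat_lit 16) 
(.nd (nat_lit 6) (.nd (nat_lit 5) (.nd (nat_lit 20) (.nd (nat_lit 30) (.nd (nat_lit 21) 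
(.nd (nat_lit 26) (.nd (nat_lit 22) (.nd (nat_lit 18) (.nd (nat_lit 19) 
(.lf (nat_lit 2952970253) (dlOf (nat_lit 1) (nat_lit 0x200028060201))) 
(.lf (nat_lit 2819276813) (dlOf (nat_lit 3) (nat_lit 0x800c0034001000202300135c0800300080024002000c0008220283)))) 
(.nd (nat_lit 9) (.lf (nat_lit 443405) (dlOf (nat_lit 1) (nat_lit 0x400400020008002882))) 
(.lf (nat_lit 134660621) (dlOf (nat_lit 2) (nat_lit 0xc00000125018090d80))))) (.nd (nat_lit 19) 
(.nd (nat_lit 24) 
(.lf (nat_lit 12763149) (dlOf (nat_lit 2) (nat_lit 0x9d4880036a340001104000200186e0381))) 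
(.lf (nat_lit 63094797) (dlOf (nat_lit 1) (nat_lit 0x20002000200099d0182)))) 
(.lf (nat_lit 13287437) (dlOf (nat_lit 1) (nat_lit 0x18008000400200040008710a03))))) 
(.nd (nat_lit 7) (.nd (nat_lit 8) 
(.lf (nat_lit 5301780493) (dlOf (nat_lit 2) (nat_lit 0x5402200c8b0200060008090001))) 
(.lf (nat_lit 2214778125) (dlOf (nat_lit 1) (nat_lit 0x200180a9681)))) (.nd (nat_lit 11) 
(.nd (nat_lit 27) (.lf (nat_lit 2483208333) (dlOf (nat_lit 1) (nat_lit 0x20018090101))) 
(.lf (nat_lit 2348990605) (dlOf (nat_lit 1) (nat_lit 0x20018090101)))) (.nd (nat_lit 8) 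
(.lf (nat_lit 6509743757) (dlOf (nat_lit 1) (nat_lit 0x20008147181))) 
(.lf (nat_lit 604424589) (dlOf (nat_lit 2) (nat_lit 0x4000a006bf818204e80))))))) (.nd (nat_lit 18) 
(.nd (nat_lit 22) (.nd (nat_lit 24) 
(.lf (nat_lit 2754265101) (dlOf (nat_lit 7) (nat_lit 0x1c4980007d0200b424c000e107802807fc00383d2005815d000109380040000000f81c00603fe0007b0200221ff0003d0100181260001d40800e893000503fe0007304006c00180d0481))) 
(.lf (nat_lit 19578893) (dlOf (nat_lit 1) (nat_lit 0x600189c0101)))) (.nd (nat_lit 19) 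
(.lf (nat_lit 14860301) (dlOf (nat_lit 1) (nat_lit 0xe0028790001))) 
(.lf (nat_lit 15384589) (dlOf (nat_lit 1) (nat_lit 0xc002000400087e0482))))) (.nd (nat_lit 19) 
(.nd (nat_lit 8) (.lf (nat_lit 6733837) (dlOf (nat_lit 1) (nat_lit 0x1c0018450a01))) 
(.lf (nat_lit 472302861) (dlOf (nat_lit 2) (nat_lit 0x405e0000e00800b00080004002000a0008983003)))) 
(.nd (nat_lit 7) (.lf (nat_lit 15646733) (dlOf (nat_lit 2) (nat_lit 0x2744002fa818810280))) 
(.lf (nat_lit 3063949) (dlOf (nat_lit 2) (nat_lit 0x1827e001212e0015081800400f80007610000800400060018200102))))))) 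
(.nd (nat_lit 27) (.nd (nat_lit 8) (.nd (nat_lit 10) (.nd (nat_lit 18) 
(.lf (nat_lit 3492462605) (dlOf (nat_lit 7) (nat_lit 0x1c4680007d0200b4234000e0fd002807b400383a80058158000109180040000000f81c00603da0007b0200221ed0003d01001811a0001d40800e88d000503da0007304006c00180d0481))) 
(.nd (nat_lit 26) 
(.lf (nat_lit 1074184205) (dlOf (nat_lit 3) (nat_lit 0xb805200520260003e02001b01480058098000e6080008004000200080d0482))) 
(.lf (nat_lit 1946599437) (dlOf (nat_lit 3) (nat_lit 0xb805200520260003e02001b01480058098000e6080008004000200080d0482))))) 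
(.nd (nat_lit 9) 
(.lf (nat_lit 1881590797) (dlOf (nat_lit 3) (nat_lit 0x290158020c0a600f4050007302680004c20001014c0002404001c00400040018f65f82))) 
(.lf (nat_lit 1610794509) (dlOf (nat_lit 1) (nat_lit 0x110008008000200460008093683))))) 
(.nd (nat_lit 7) 
(.lf (nat_lit 3556950285) (dlOf (nat_lit 3) (nat_lit 0x1c02e000e016000700700038030003400c000800400080000007003800100180032a04000800400020008117402))) 
(.nd (nat_lit 11) (.lf (nat_lit 6174196109) (dlOf (nat_lit 1) (nat_lit 0xbc002002a0008085d82))) 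
(.lf (nat_lit 3825387917) (dlOf (nat_lit 1) (nat_lit 0x90008003000200100008144e83)))))) 
(.nd (nat_lit 7) (.nd (nat_lit 9) (.nd (nat_lit 18) 
(.lf (nat_lit 6039977997) (dlOf (nat_lit 2) (nat_lit 0x1800000468040004004000e00180a0082))) 
(.lf (nat_lit 5772328973) (dlOf (nat_lit 1) (nat_lit 0x20008090001)))) (.nd (nat_lit 26) 
(.lf (nat_lit 3355623949) (dlOf (nat_lit 1) (nat_lit 0x200280a1481))) 
(.lf (nat_lit 3422732813) (dlOf (nat_lit 1) (nat_lit 0x4004000200080a1482))))) (.nd (nat_lit 10) 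
(.nd (nat_lit 11) (.lf (nat_lit 3959865741) (dlOf (nat_lit 1) (nat_lit 0x400400020018170782))) 
(.lf (nat_lit 5771544973) (dlOf (nat_lit 1) (nat_lit 0x400200020008004e82)))) 
(.lf (nat_lit 1543687565) (dlOf (nat_lit 6) (nat_lit 0x160190000d81000e00c80006408005806400040000000b0400320190000501000300c8000240800200080050002001a0008146c83))))))) 
(.nd (nat_lit 19) (.nd (nat_lit 18) (.nd (nat_lit 25) (.nd (nat_lit 26) (.nd (nat_lit 22) 
(.nd (nat_lit 31) (.lf (nat_lit 1343406093) (dlOf (nat_lit 1) (nat_lit 0x40018220181))) 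
(.lf (nat_lit 3490889741) (dlOf (nat_lit 1) (nat_lit 0x10008001000200040008030483)))) 
(.lf (nat_lit 5423117) (dlOf (nat_lit 1) (nat_lit 0x100028370181)))) (.nd (nat_lit 29) 
(.lf (nat_lit 68337677) (dlOf (nat_lit 1) (nat_lit 0x8008000400200020008550283))) 
(.lf (nat_lit 2752692237) (dlOf (nat_lit 1) (nat_lit 0x10008001000200040008030483))))) 
(.nd (nat_lit 7) (.nd (nat_lit 23) 
(.lf (nat_lit 51560461) (dlOf (nat_lit 1) (nat_lit 0x400400020009510002))) 
(.lf (nat_lit 43171853) (dlOf (nat_lit 4) (nat_lit 0x652b80378a04008295c01b8b0200374ae00dc50192a0000)))) 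
(.lf (nat_lit 45271437) (dlOf (nat_lit 1) (nat_lit 0x40029324e81))))) (.nd (nat_lit 21) 
(.nd (nat_lit 10) (.lf (nat_lit 18268173) (dlOf (nat_lit 1) (nat_lit 0x8a0028920101))) 
(.lf (nat_lit 39240717) (dlOf (nat_lit 1) (nat_lit 0x8008000400200020009192883)))) 
(.nd (nat_lit 24) (.lf (nat_lit 7782413) (dlOf (nat_lit 1) (nat_lit 0x1c00184e0a01))) 
(.lf (nat_lit 24559629) (dlOf (nat_lit 3) (nat_lit 0x157920014bae0000982000e5e48000440800c80080064002000e0008ba0383)))))) 
(.nd (nat_lit 18) (.nd (nat_lit 9) (.nd (nat_lit 7) (.nd (nat_lit 21) 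
(.lf (nat_lit 68861965) (dlOf (nat_lit 1) (nat_lit 0x800187c0001))) 
(.lf (nat_lit 16433165) (dlOf (nat_lit 6) (nat_lit 0x2c9f540230fa8000c7a9006839880022420003255800791ce00c07d500933ea00011ea40030eba000675c006739880022040002a558016cfaa011c7d400493d500021ea40068eba00d2731000430700034ab002c9f540228fa800407aa001f3ae80361cc40010a18013cfaa00027d4004739880020c18005000800d4002001000088a0183)))) 
(.lf (nat_lit 8044941) (dlOf (nat_lit 1) (nat_lit 0x20008511001)))) (.nd (nat_lit 10) 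
(.nd (nat_lit 12) 
(.lf (nat_lit 3491414541) (dlOf (nat_lit 2) (nat_lit 0xa83da0021d0200160028090d81))) 
(.lf (nat_lit 8049165) (dlOf (nat_lit 1) (nat_lit 0x32000801e000200860008518683)))) 
(.lf (nat_lit 8052237) (dlOf (nat_lit 1) (nat_lit 0xd000800a00020012000851ce03))))) 
(.nd (nat_lit 7) (.nd (nat_lit 9) (.nd (nat_lit 21) 
(.lf (nat_lit 22986765) (dlOf (nat_lit 2) (nat_lit 0x1eb79c0007604000400200020008b40102))) 
(.lf (nat_lit 16695309) (dlOf (nat_lit 1) (nat_lit 0x90008000c002000200088d0283)))) 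
(.lf (nat_lit 39766541) (dlOf (nat_lit 1) (nat_lit 0x200291f5001)))) (.nd (nat_lit 8) 
(.lf (nat_lit 46055565) (dlOf (nat_lit 1) (nat_lit 0x400400020009380402))) 
(.lf (nat_lit 60737933) (dlOf (nat_lit 1) (nat_lit 0x4004000200098c4e82)))))))) (.nd (nat_lit 20) 
(.nd (nat_lit 28) (.nd (nat_lit 18) (.nd (nat_lit 9) (.nd (nat_lit 19) 
(.lf (nat_lit 52609069) (dlOf (nat_lit 1) (nat_lit 0x800800c800200020009560983))) (.nd (nat_lit 21) 
(.lf (nat_lit 21676077) (dlOf (nat_lit 12) (nat_lit 0x9930800049820002904000a4c20001401002126100009c0800213080004c04012898400b84c1000128200022610000440800c930800649820000c0400044c2000226080002c10011930800014040020984000090200144c200042608000201000e0008025c00201e40008a60d03))) 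
(.lf (nat_lit 11190317) (dlOf (nat_lit 2) (nat_lit 0x1c0000005602000a0018670681))))) 
(.nd (nat_lit 7) (.lf (nat_lit 134398509) (dlOf (nat_lit 1) (nat_lit 0x8008000400200040008018003))) 
(.nd (nat_lit 12) 
(.lf (nat_lit 738380717) (dlOf (nat_lit 2) (nat_lit 0x1a00a80007804010c004001c0008095d02))) 
(.lf (nat_lit 3221412781) (dlOf (nat_lit 1) (nat_lit 0x2002811bd81)))))) (.nd (nat_lit 7) 
(.nd (nat_lit 22) (.nd (nat_lit 9) 
(.lf (nat_lit 42909741) (dlOf (nat_lit 1) (nat_lit 0x6c0019290981))) 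
(.lf (nat_lit 8832557) (dlOf (nat_lit 1) (nat_lit 0x400200020008513782)))) (.nd (nat_lit 21) 
(.lf (nat_lit 13025325) (dlOf (nat_lit 1) (nat_lit 0x400286f0d81))) 
(.lf (nat_lit 15122477) (dlOf (nat_lit 2) (nat_lit 0x3b8a0001d970000a4dc0005406001a00287c0681))))) 
(.nd (nat_lit 8) 
(.lf (nat_lit 8836269) (dlOf (nat_lit 2) (nat_lit 0x2472e0020b67c00cf208000400200020008519502))) 
(.lf (nat_lit 1678164397) (dlOf (nat_lit 3) (nat_lit 0x10408400ca3020040042006500181a0780)))))) 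
(.nd (nat_lit 26) (.nd (nat_lit 7) (.nd (nat_lit 9) (.nd (nat_lit 18) 
(.lf (nat_lit 3624058925) (dlOf (nat_lit 1) (nat_lit 0x18004000e00080b0002))) 
(.lf (nat_lit 1346813997) (dlOf (nat_lit 1) (nat_lit 0xa0019020281)))) 
(.lf (nat_lit 3491938861) (dlOf (nat_lit 4) (nat_lit 0x98714003035c000360400081c50001a0100030e280000008005000800b4002000e0008090e83)))) 
(.nd (nat_lit 8) (.nd (nat_lit 9) 
(.lf (nat_lit 6174195885) (dlOf (nat_lit 1) (nat_lit 0x1c0018081581))) 
(.lf (nat_lit 805490349) (dlOf (nat_lit 1) (nat_lit 0x40028117281)))) 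
(.lf (nat_lit 3490105773) (dlOf (nat_lit 1) (nat_lit 0x400200020008004e82))))) (.nd (nat_lit 18) 
(.nd (nat_lit 8) (.nd (nat_lit 21) 
(.lf (nat_lit 3557474349) (dlOf (nat_lit 1) (nat_lit 0x20018220881))) 
(.lf (nat_lit 472563757) (dlOf (nat_lit 3) (nat_lit 0x18169000c00b8000601000605a400302d0001c145000c0678005806000000140040004000600089c0282)))) 
(.lf (nat_lit 3154301229) (dlOf (nat_lit 1) (nat_lit 0x80018158081)))) (.nd (nat_lit 7) 
(.lf (nat_lit 4096704557) (dlOf (nat_lit 1) (nat_lit 0x8008000400200020008160503))) 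
(.lf (nat_lit 1009173677) (dlOf (nat_lit 1) (nat_lit 0x2e0029082c01))))))) (.nd (nat_lit 7) 
(.nd (nat_lit 18) (.nd (nat_lit 11) (.nd (nat_lit 19) (.nd (nat_lit 21) 
(.lf (nat_lit 18006061) (dlOf (nat_lit 2) (nat_lit 0x3935c0007a040050004001a0018900b02))) 
(.lf (nat_lit 62046253) (dlOf (nat_lit 1) (nat_lit 0xb80009940401)))) (.nd (nat_lit 9) 
(.nd (nat_lit 28) (.lf (nat_lit 1753133) (dlOf (nat_lit 1) (nat_lit 0x8008000800200160008130803))) 
(.lf (nat_lit 1880801325) (dlOf (nat_lit 1) (nat_lit 0x4c0028ba0981)))) 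
(.lf (nat_lit 473612845) (dlOf (nat_lit 1) (nat_lit 0xc00400020008f68a82))))) (.nd (nat_lit 8) 
(.nd (nat_lit 9) (.lf (nat_lit 8050733) (dlOf (nat_lit 1) (nat_lit 0x28001851a601))) 
(.lf (nat_lit 20631085) (dlOf (nat_lit 1) (nat_lit 0x600289d7181)))) 
(.lf (nat_lit 8050989) (dlOf (nat_lit 1) (nat_lit 0x800800040020002000851ab83))))) 
(.nd (nat_lit 19) (.nd (nat_lit 21) (.nd (nat_lit 26) 
(.lf (nat_lit 3491151917) (dlOf (nat_lit 5) (nat_lit 0x110f38000b80800307ac003c280000280400d01e8003c0af802a04e0000180c00302a0000030200300018070901))) 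
(.lf (nat_lit 2752954413) (dlOf (nat_lit 2) (nat_lit 0xd821c0004404000400400020008070802)))) 
(.lf (nat_lit 24559661) (dlOf (nat_lit 1) (nat_lit 0xc004000a0008ba0a02)))) (.nd (nat_lit 22) 
(.lf (nat_lit 473874477) (dlOf (nat_lit 1) (nat_lit 0xcc00400020008fc0282))) 
(.lf (nat_lit 25083949) (dlOf (nat_lit 1) (nat_lit 0xc0008be0d81)))))) (.nd (nat_lit 10) 
(.nd (nat_lit 11) (.nd (nat_lit 8) 
(.lf (nat_lit 8048813) (dlOf (nat_lit 1) (nat_lit 0x80018517d81))) 
(.lf (nat_lit 2753216941) (dlOf (nat_lit 2) (nat_lit 0x443f000cb60200160028090781)))) 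
(.nd (nat_lit 22) (.lf (nat_lit 1345505709) (dlOf (nat_lit 1) (nat_lit 0x1000400040008c94e82))) 
(.lf (nat_lit 57854381) (dlOf (nat_lit 1) (nat_lit 0xa0019794e81))))) (.nd (nat_lit 8) 
(.nd (nat_lit 18) (.lf (nat_lit 1880278189) (dlOf (nat_lit 1) (nat_lit 0xf4002000a0008802c02))) 
(.lf (nat_lit 1008649389) (dlOf (nat_lit 1) (nat_lit 0x400400040008ef2c02)))) (.nd (nat_lit 9) 
(.lf (nat_lit 8045997) (dlOf (nat_lit 1) (nat_lit 0x20008513601))) 
(.lf (nat_lit 8048557) (dlOf (nat_lit 1) (nat_lit 0x148008003000200180008517983))))))))) 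
(.nd (nat_lit 8) (.nd (nat_lit 7) (.nd (nat_lit 19) (.nd (nat_lit 21) (.nd (nat_lit 26) 
(.nd (nat_lit 27) (.nd (nat_lit 22) (.nd (nat_lit 23) 
(.lf (nat_lit 6442631245) (dlOf (nat_lit 1) (nat_lit 0x64004003c0008110902))) 
(.lf (nat_lit 25346125) (dlOf (nat_lit 2) (nat_lit 0x68000000460200540018bf0d01)))) 
(.lf (nat_lit 1346551885) (dlOf (nat_lit 1) (nat_lit 0x40004000a0008fc1602)))) (.nd (nat_lit 5) 
(.lf (nat_lit 2819014733) (dlOf (nat_lit 1) (nat_lit 0x400400180018150702))) 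
(.lf (nat_lit 6308413549) (dlOf (nat_lit 1) (nat_lit 0x3a0008080b81))))) (.nd (nat_lit 5) 
(.nd (nat_lit 9) (.nd (nat_lit 11) 
(.lf (nat_lit 3422732365) (dlOf (nat_lit 1) (nat_lit 0x4004000200080a0002))) 
(.lf (nat_lit 2751649869) (dlOf (nat_lit 2) (nat_lit 0x280844004140400100040016000800a682)))) 
(.lf (nat_lit 2751650381) (dlOf (nat_lit 1) (nat_lit 0xd800800180020070000800b603)))) 
(.nd (nat_lit 18) (.lf (nat_lit 5704433773) (dlOf (nat_lit 1) (nat_lit 0x3a0008080b81))) 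
(.lf (nat_lit 1409728621) (dlOf (nat_lit 1) (nat_lit 0x100028090001)))))) (.nd (nat_lit 24) 
(.nd (nat_lit 5) (.nd (nat_lit 18) 
(.lf (nat_lit 36883021) (dlOf (nat_lit 1) (nat_lit 0x400400020009075282))) 
(.lf (nat_lit 41339469) (dlOf (nat_lit 1) (nat_lit 0x20019245281)))) 
(.lf (nat_lit 2277485) (dlOf (nat_lit 1) (nat_lit 0x40028150001)))) (.nd (nat_lit 5) 
(.nd (nat_lit 25) (.lf (nat_lit 28491853) (dlOf (nat_lit 1) (nat_lit 0x400400020008da0182))) 
(.lf (nat_lit 62046285) (dlOf (nat_lit 1) (nat_lit 0xb8008005000200020009940603)))) 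
(.lf (nat_lit 24297581) (dlOf (nat_lit 1) (nat_lit 0x20018b91501)))))) (.nd (nat_lit 18) 
(.nd (nat_lit 20) (.nd (nat_lit 21) 
(.lf (nat_lit 4228563021) (dlOf (nat_lit 2) (nat_lit 0x2c00b000060040014002000600080f1502))) 
(.lf (nat_lit 472563789) (dlOf (nat_lit 1) (nat_lit 0x58008001c002000c00089c0683)))) 
(.nd (nat_lit 5) (.lf (nat_lit 8050765) (dlOf (nat_lit 1) (nat_lit 0x2000851a681))) 
(.lf (nat_lit 60473453) (dlOf (nat_lit 1) (nat_lit 0x30008000c00200020009870a83))))) 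
(.nd (nat_lit 23) (.nd (nat_lit 24) 
(.lf (nat_lit 38715469) (dlOf (nat_lit 1) (nat_lit 0x60029130001))) 
(.lf (nat_lit 21938253) (dlOf (nat_lit 1) (nat_lit 0x400200020008a80f82)))) (.nd (nat_lit 20) 
(.lf (nat_lit 13549645) (dlOf (nat_lit 2) (nat_lit 0xa00000023018730d00))) 
(.lf (nat_lit 43958349) (dlOf (nat_lit 1) (nat_lit 0x4004000400192a0002))))))) (.nd (nat_lit 5) 
(.nd (nat_lit 9) (.nd (nat_lit 19) (.nd (nat_lit 12) (.nd (nat_lit 22) 
(.lf (nat_lit 3624059085) (dlOf (nat_lit 2) (nat_lit 0x400000074408001800800bc002002200080b0483))) 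
(.lf (nat_lit 4374733) (dlOf (nat_lit 3) (nat_lit 0x4d81c0028bf70002a02000260700012c080030008006400200080008290483)))) 
(.lf (nat_lit 184525) (dlOf (nat_lit 1) (nat_lit 0x8008000400200080008008003)))) (.nd (nat_lit 18) 
(.lf (nat_lit 14336205) (dlOf (nat_lit 1) (nat_lit 0xc0028750481))) 
(.lf (nat_lit 1410253005) (dlOf (nat_lit 1) (nat_lit 0xc00080014002000e00081b0483))))) 
(.nd (nat_lit 10) (.nd (nat_lit 18) 
(.lf (nat_lit 185037) (dlOf (nat_lit 1) (nat_lit 0x520018008c81))) 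
(.lf (nat_lit 19845837) (dlOf (nat_lit 1) (nat_lit 0x4004000200189d8c82)))) 
(.lf (nat_lit 20106957) (dlOf (nat_lit 1) (nat_lit 0x4004000200089d7302))))) (.nd (nat_lit 11) 
(.nd (nat_lit 19) (.nd (nat_lit 27) 
(.lf (nat_lit 2684535533) (dlOf (nat_lit 1) (nat_lit 0x4004000200080a2102))) 
(.lf (nat_lit 4160930541) (dlOf (nat_lit 1) (nat_lit 0x4004000200080a2102)))) (.nd (nat_lit 9) 
(.lf (nat_lit 1344979181) (dlOf (nat_lit 1) (nat_lit 0x200289a1e81))) 
(.lf (nat_lit 8045293) (dlOf (nat_lit 1) (nat_lit 0x8008000400200020008512103))))) 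
(.nd (nat_lit 18) 
(.lf (nat_lit 57330413) (dlOf (nat_lit 2) (nat_lit 0x6676000034080060008002800200080009795a03))) 
(.nd (nat_lit 20) 
(.lf (nat_lit 50776813) (dlOf (nat_lit 2) (nat_lit 0x106ac00940000002a04000c00094c5a01))) 
(.lf (nat_lit 1345768173) (dlOf (nat_lit 1) (nat_lit 0x20008dd5a01)))))))) (.nd (nat_lit 5) 
(.nd (nat_lit 21) (.nd (nat_lit 26) (.nd (nat_lit 11) (.nd (nat_lit 7) (.nd (nat_lit 18) 
(.lf (nat_lit 1342357837) (dlOf (nat_lit 1) (nat_lit 0x1c0018014c81))) 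
(.lf (nat_lit 25608525) (dlOf (nat_lit 1) (nat_lit 0x400200020008c10802)))) (.nd (nat_lit 10) 
(.lf (nat_lit 3491676621) (dlOf (nat_lit 3) (nat_lit 0x41c20000c8100040e10000600800a8008001800200280008090a03))) 
(.lf (nat_lit 1610794445) (dlOf (nat_lit 1) (nat_lit 0x5a0028093601))))) (.nd (nat_lit 9) 
(.lf (nat_lit 3221413197) (dlOf (nat_lit 2) (nat_lit 0x10218019bc08012800800480020040000811c903))) 
(.nd (nat_lit 28) 
(.lf (nat_lit 3221412685) (dlOf (nat_lit 15) (nat_lit 0x6009e0038047001a019005280bc023c05c00c8014003a005002bec380098114015d404000808a00adf02029e047006902300890114053808600220420056f0500d6027005d81300a1408e02fe04603940228135810c0a18084001c0350056e08034802a8117013c062009c040204d0167026003601240d6c08e065a04603ba022809401100cdc086064804200f6020003580e0011006a0214034006e019810d00c80d2c062021a02f0060017011e80b406ac05600360290096008808c804005ec01402c4008017c003002b8000015b478002008c009cc0200b8046004b3810049023000080e0012c608009408c0004038004b082000401c0025780802c8118004c08600456040018046001e901001a0228000000805e800806700020024000811bc83)))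 
(.lf (nat_lit 3489848141) (dlOf (nat_lit 1) (nat_lit 0x140020002000800bc82)))))) (.nd (nat_lit 7) 
(.nd (nat_lit 28) (.nd (nat_lit 11) 
(.lf (nat_lit 4362256717) (dlOf (nat_lit 1) (nat_lit 0x120018014c81))) 
(.lf (nat_lit 3959605581) (dlOf (nat_lit 2) (nat_lit 0x409e000100200080028114d81)))) 
(.nd (nat_lit 29) (.lf (nat_lit 469942605) (dlOf (nat_lit 1) (nat_lit 0x1c0018014c81))) 
(.lf (nat_lit 4228038989) (dlOf (nat_lit 1) (nat_lit 0x120018014c81))))) (.nd (nat_lit 9) 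
(.lf (nat_lit 2753479117) (dlOf (nat_lit 3) (nat_lit 0x41d40000c8100040ea0000600800a8008001800200280008090a03))) 
(.nd (nat_lit 12) 
(.lf (nat_lit 2751645645) (dlOf (nat_lit 3) (nat_lit 0x784900001102007c24800008018004480))) 
(.lf (nat_lit 3959609293) (dlOf (nat_lit 1) (nat_lit 0x23000801280020038000811a603))))))) 
(.nd (nat_lit 7) (.nd (nat_lit 18) (.nd (nat_lit 9) (.nd (nat_lit 22) 
(.lf (nat_lit 28492109) (dlOf (nat_lit 1) (nat_lit 0x940018da0781))) 
(.lf (nat_lit 41075021) (dlOf (nat_lit 1) (nat_lit 0x180029218901)))) 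
(.lf (nat_lit 8048461) (dlOf (nat_lit 1) (nat_lit 0x8008000800200020008517783)))) (.nd (nat_lit 9) 
(.nd (nat_lit 19) (.lf (nat_lit 11977037) (dlOf (nat_lit 1) (nat_lit 0x600186c0601))) 
(.lf (nat_lit 3064141) (dlOf (nat_lit 1) (nat_lit 0x58008000c00200100008200603)))) 
(.lf (nat_lit 19846989) (dlOf (nat_lit 1) (nat_lit 0x80080014002000200089da203))))) 
(.nd (nat_lit 20) (.nd (nat_lit 19) (.nd (nat_lit 28) 
(.lf (nat_lit 2277837) (dlOf (nat_lit 1) (nat_lit 0x1c0028150a01))) 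
(.lf (nat_lit 3491938765) (dlOf (nat_lit 3) (nat_lit 0xc1c20000c8100070e1000060080088008000800200500008090a03)))) 
(.lf (nat_lit 23773645) (dlOf (nat_lit 1) (nat_lit 0x30008000c00200040008b80a03)))) 
(.nd (nat_lit 10) (.lf (nat_lit 8049101) (dlOf (nat_lit 1) (nat_lit 0x10008001000200060008518683))) 
(.nd (nat_lit 18) (.lf (nat_lit 8046029) (dlOf (nat_lit 1) (nat_lit 0x400200020008513602))) 
(.lf (nat_lit 8308173) (dlOf (nat_lit 1) (nat_lit 0x160008000400200280008513603)))))))) 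
(.nd (nat_lit 7) (.nd (nat_lit 18) (.nd (nat_lit 12) (.nd (nat_lit 29) (.nd (nat_lit 20) 
(.lf (nat_lit 3491938669) (dlOf (nat_lit 2) (nat_lit 0x2437a007f00200020008090781))) 
(.lf (nat_lit 43172205) (dlOf (nat_lit 3) (nat_lit 0xff4ae0001301007fa57000094080148008000c002001c00092a0f83)))) 
(.nd (nat_lit 10) 
(.lf (nat_lit 5301780845) (dlOf (nat_lit 1) (nat_lit 0x28000800d8002005e0008090f83))) 
(.lf (nat_lit 805490029) (dlOf (nat_lit 1) (nat_lit 0x480018116b01))))) (.nd (nat_lit 9) 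
(.lf (nat_lit 2751650157) (dlOf (nat_lit 1) (nat_lit 0x40040002000800ac82))) (.nd (nat_lit 10) 
(.lf (nat_lit 3422737261) (dlOf (nat_lit 1) (nat_lit 0x800180a8f81))) 
(.lf (nat_lit 8050541) (dlOf (nat_lit 1) (nat_lit 0x2001851a301)))))) (.nd (nat_lit 19) 
(.nd (nat_lit 26) 
(.lf (nat_lit 3493249389) (dlOf (nat_lit 1) (nat_lit 0x398008000400200860008105503))) 
(.lf (nat_lit 2755051885) (dlOf (nat_lit 1) (nat_lit 0x398008000400200860008105503)))) 
(.nd (nat_lit 21) (.nd (nat_lit 26) 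
(.lf (nat_lit 3491676525) (dlOf (nat_lit 2) (nat_lit 0x41bf0034e018090780))) 
(.lf (nat_lit 2753479021) (dlOf (nat_lit 2) (nat_lit 0x41d100615818090780)))) 
(.lf (nat_lit 8307053) (dlOf (nat_lit 1) (nat_lit 0x620008510f81)))))) (.nd (nat_lit 26) 
(.nd (nat_lit 9) (.nd (nat_lit 11) 
(.lf (nat_lit 939704813) (dlOf (nat_lit 2) (nat_lit 0x1400b0006000000000100080008009c002002a0008157d03))) 
(.nd (nat_lit 19) (.lf (nat_lit 182765) (dlOf (nat_lit 1) (nat_lit 0x200018004f01))) 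
(.lf (nat_lit 37407213) (dlOf (nat_lit 1) (nat_lit 0x4002000200090d4f02))))) (.nd (nat_lit 10) 
(.lf (nat_lit 1610793965) (dlOf (nat_lit 2) (nat_lit 0x540ae0184b02004e0008092881))) 
(.lf (nat_lit 8310765) (dlOf (nat_lit 1) (nat_lit 0x400200020008517a82))))) (.nd (nat_lit 31) 
(.nd (nat_lit 9) (.lf (nat_lit 4362256877) (dlOf (nat_lit 1) (nat_lit 0x440018017d01))) 
(.nd (nat_lit 19) 
(.lf (nat_lit 5301781485) (dlOf (nat_lit 2) (nat_lit 0xf00880249c0801e0008004800200620008092883))) 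
(.lf (nat_lit 69911533) (dlOf (nat_lit 1) (nat_lit 0x140018e12881))))) (.nd (nat_lit 11) 
(.nd (nat_lit 27) 
(.lf (nat_lit 2483208685) (dlOf (nat_lit 1) (nat_lit 0x10008000c00200020008090d03))) 
(.lf (nat_lit 2348990957) (dlOf (nat_lit 1) (nat_lit 0x10008000c00200020008090d03)))) 
(.lf (nat_lit 2751650285) (dlOf (nat_lit 2) (nat_lit 0x781078029b408004000800300020048000800b283)))))))))) 
(.nd (nat_lit 5) (.nd (nat_lit 6) (.nd (nat_lit 19) (.nd (nat_lit 18) (.nd (nat_lit 27) 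
(.nd (nat_lit 21) (.nd (nat_lit 26) (.nd (nat_lit 20) (.nd (nat_lit 28) 
(.lf (nat_lit 537116685) (dlOf (nat_lit 2) (nat_lit 0x10164002b004001400400100008020482))) 
(.lf (nat_lit 4563648525) (dlOf (nat_lit 1) (nat_lit 0x200280b0001)))) 
(.lf (nat_lit 47431693) (dlOf (nat_lit 1) (nat_lit 0x4004000600193f0082)))) (.nd (nat_lit 9) 
(.nd (nat_lit 29) 
(.lf (nat_lit 1141096461) (dlOf (nat_lit 1) (nat_lit 0x80080004002000200080d0003))) 
(.lf (nat_lit 604225549) (dlOf (nat_lit 1) (nat_lit 0x200080c0281)))) 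
(.lf (nat_lit 3288580621) (dlOf (nat_lit 2) (nat_lit 0xdd0100086c04803d001f01e5006800594200460008014000201940008090d83))))) 
(.nd (nat_lit 20) (.nd (nat_lit 23) 
(.lf (nat_lit 52674573) (dlOf (nat_lit 1) (nat_lit 0x100019560181))) 
(.lf (nat_lit 44285965) (dlOf (nat_lit 1) (nat_lit 0x3c004000600092e0002)))) (.nd (nat_lit 7) 
(.lf (nat_lit 24363021) (dlOf (nat_lit 1) (nat_lit 0x12400200860008b90682))) 
(.lf (nat_lit 62111885) (dlOf (nat_lit 1) (nat_lit 0xc40009950f81)))))) (.nd (nat_lit 29) 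
(.nd (nat_lit 26) (.nd (nat_lit 28) 
(.lf (nat_lit 134463501) (dlOf (nat_lit 3) (nat_lit 0x3e025000d80bc0012c080024094000830200020018030481))) 
(.lf (nat_lit 4697866253) (dlOf (nat_lit 1) (nat_lit 0x200280b0001)))) (.nd (nat_lit 28) 
(.lf (nat_lit 201572365) (dlOf (nat_lit 3) (nat_lit 0x3e025000d80bc0012c080024094000830200020018030481))) 
(.lf (nat_lit 470007821) (dlOf (nat_lit 2) (nat_lit 0x2839a0014e02003c0008020481))))) 
(.nd (nat_lit 30) (.nd (nat_lit 9) 
(.lf (nat_lit 939769869) (dlOf (nat_lit 10) (nat_lit 0xc0000002d00400200000013d0200ac00b00090020004ec1002c002c002c0080013904010c01800d8005804e00100218000000d908010e01800ce00580470010021c000000d808001e00b0006b81001400000031808002802c0000004009c00400460008170482))) 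
(.lf (nat_lit 5234738701) (dlOf (nat_lit 1) (nat_lit 0x188002005400080d3682)))) (.nd (nat_lit 26) 
(.lf (nat_lit 2013511693) (dlOf (nat_lit 1) (nat_lit 0x80080004002000200080d0003))) 
(.lf (nat_lit 1812185101) (dlOf (nat_lit 10) (nat_lit 0xc0000002d00400200000013d0200ac00b00090020004ec1002c002c002c0080013904010c01800d8005804e00100218000000d908010e01800ce00580470010021c000000d808001e00b0006b81001400000031808002802c0000004009c00400460008170482))))))) 
(.nd (nat_lit 7) (.nd (nat_lit 21) (.nd (nat_lit 8) (.nd (nat_lit 22) (.nd (nat_lit 23) 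
(.lf (nat_lit 4095197197) (dlOf (nat_lit 2) (nat_lit 0xc1500075f0200080028070001))) 
(.lf (nat_lit 9945101) (dlOf (nat_lit 1) (nat_lit 0x8008000400200020008590083)))) 
(.lf (nat_lit 56082445) (dlOf (nat_lit 1) (nat_lit 0x2000200020009720182)))) 
(.lf (nat_lit 1556749) (dlOf (nat_lit 1) (nat_lit 0x4004000200080f7402)))) (.nd (nat_lit 20) 
(.nd (nat_lit 23) 
(.lf (nat_lit 1009238029) (dlOf (nat_lit 2) (nat_lit 0x403a001d10080018008001c002001a00090a0003))) 
(.lf (nat_lit 10993677) (dlOf (nat_lit 1) (nat_lit 0xa0008650181)))) (.nd (nat_lit 28) 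
(.lf (nat_lit 3653645) (dlOf (nat_lit 5) (nat_lit 0x7b520007da50008ecf8002f508015cc10000fb520009da50009ecf80037508015ca10001bb520007da50005ecf80057508015c810001fb520011da50005ecf80057508015c610000800200020008210682))) 
(.lf (nat_lit 3493314573) (dlOf (nat_lit 1) (nat_lit 0x3000200020008110482)))))) (.nd (nat_lit 26) 
(.nd (nat_lit 30) (.nd (nat_lit 21) 
(.lf (nat_lit 537378957) (dlOf (nat_lit 3) (nat_lit 0xc4012c05340600003604006605c009402c800a012c00280600070024001a00f000000300528008009400200020008090103))) 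
(.lf (nat_lit 23576717) (dlOf (nat_lit 2) (nat_lit 0x517a8000cbb200055cd00012e3c005533c0003b0a00560028b80101)))) 
(.nd (nat_lit 8) 
(.lf (nat_lit 3221733517) (dlOf (nat_lit 3) (nat_lit 0x500000009e0400ac000000000200f60018170101))) 
(.lf (nat_lit 5771872653) (dlOf (nat_lit 1) (nat_lit 0x40008004e81))))) (.nd (nat_lit 27) 
(.lf (nat_lit 1409794189) (dlOf (nat_lit 3) (nat_lit 0xc4012c05340600003604006605c009402c800a012c00280600070024001a00f000000300528008009400200020008090103))) 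
(.lf (nat_lit 3959931021) (dlOf (nat_lit 3) (nat_lit 0x500000009c0400ac000000000200f60018170101))))))) 
(.nd (nat_lit 21) (.nd (nat_lit 26) (.nd (nat_lit 18) (.nd (nat_lit 7) (.nd (nat_lit 8) 
(.lf (nat_lit 2819342349) (dlOf (nat_lit 1) (nat_lit 0x80002002a0008250182))) 
(.lf (nat_lit 51101965) (dlOf (nat_lit 1) (nat_lit 0x20019507401)))) 
(.lf (nat_lit 3491479693) (dlOf (nat_lit 2) (nat_lit 0x608c0001b018090100)))) (.nd (nat_lit 22) 
(.lf (nat_lit 17809421) (dlOf (nat_lit 2) (nat_lit 0x9719c01c2804006c004005400088f0782))) 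
(.lf (nat_lit 5226509) (dlOf (nat_lit 1) (nat_lit 0x40028330101))))) (.nd (nat_lit 7) 
(.nd (nat_lit 8) 
(.lf (nat_lit 1008454669) (dlOf (nat_lit 2) (nat_lit 0x306f80004c080008008000400200040008c95f83))) 
(.lf (nat_lit 67884301) (dlOf (nat_lit 1) (nat_lit 0x400400020008339682)))) (.nd (nat_lit 8) 
(.lf (nat_lit 2753282189) (dlOf (nat_lit 2) (nat_lit 0x60890001b018090100))) 
(.lf (nat_lit 4094413709) (dlOf (nat_lit 1) (nat_lit 0x400400020008055c82)))))) (.nd (nat_lit 10) 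
(.nd (nat_lit 23) (.nd (nat_lit 26) 
(.lf (nat_lit 3492528141) (dlOf (nat_lit 7) (nat_lit 0x481ed00120ea000b8560004c0000007d08002e1fa00200f6800d0560007c0000007c08001e1ed0003d0100140f680018750000c0000007506002c1ed000398100040f68001c80801080080124002000e00080d0483))) 
(.nd (nat_lit 27) 
(.lf (nat_lit 2754330637) (dlOf (nat_lit 7) (nat_lit 0x481ff00120f4800b8574004c0000007d08002e20f00200ff800d0574007c0000007c08001e1ff0003d0100140ff800187a4000c0000007506002c1ff000398100040ff8001c80801080080124002000e00080d0483))) 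
(.lf (nat_lit 1009500173) (dlOf (nat_lit 1) (nat_lit 0xc00291b0181))))) (.nd (nat_lit 20) 
(.nd (nat_lit 22) 
(.lf (nat_lit 11255821) (dlOf (nat_lit 3) (nat_lit 0x1cac2004055b0001b0200061e90000c4080010008000400200160008680103))) 
(.lf (nat_lit 15450125) (dlOf (nat_lit 1) (nat_lit 0x8004000400087f0102)))) 
(.lf (nat_lit 29081613) (dlOf (nat_lit 2) (nat_lit 0x550980035c080010008001400200080008dc0583))))) 
(.nd (nat_lit 7) (.nd (nat_lit 11) 
(.lf (nat_lit 473678861) (dlOf (nat_lit 2) (nat_lit 0x41b2005990200020018fa2881))) 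
(.lf (nat_lit 54250509) (dlOf (nat_lit 4) (nat_lit 0x192f0000ac04000c978000550200084a700029819655f80)))) 
(.lf (nat_lit 19913869) (dlOf (nat_lit 1) (nat_lit 0x200089dc201))))))) (.nd (nat_lit 21) 
(.nd (nat_lit 26) (.nd (nat_lit 27) (.nd (nat_lit 22) (.nd (nat_lit 8) (.nd (nat_lit 32) 
(.lf (nat_lit 268681293) (dlOf (nat_lit 1) (nat_lit 0x4002000400080e0002))) 
(.lf (nat_lit 4563648589) (dlOf (nat_lit 3) (nat_lit 0x2a00c800a402a00033040014032006d0090000c810032800800a0002002c00080b0603)))) 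
(.lf (nat_lit 25674061) (dlOf (nat_lit 1) (nat_lit 0x800200020008c10802)))) (.nd (nat_lit 7) 
(.nd (nat_lit 19) 
(.lf (nat_lit 63160397) (dlOf (nat_lit 1) (nat_lit 0xb8008001c002002c00099e0683))) 
(.lf (nat_lit 39567437) (dlOf (nat_lit 1) (nat_lit 0x60029190001)))) 
(.lf (nat_lit 14401741) (dlOf (nat_lit 1) (nat_lit 0x20028750481))))) (.nd (nat_lit 18) 
(.nd (nat_lit 28) (.lf (nat_lit 134463565) (dlOf (nat_lit 1) (nat_lit 0x8004000c0008030f82))) 
(.lf (nat_lit 4697866317) (dlOf (nat_lit 3) (nat_lit 0x2a00c800a402a00032040014032006d0090000c410032800800a0002002c00080b0603)))) 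
(.nd (nat_lit 7) 
(.lf (nat_lit 3892822093) (dlOf (nat_lit 6) (nat_lit 0x240160003000807b818c04640be01ce058011502b808b014c03a409c022a04901330230076010c0448080005003c011d01b808980d8045406001d802b0115014808a809c0450042024c020011800f8089806804d003202260180114009808d8028047401201d400100cc000000230e0060015c03a806e017a03600dd00f804b8064036003001ac00a00d7004804a80000011624045c0be017805800fc02b808a814c001809202400460008020008f00dc03f806c022c030011401080840080045c03e026a019011100c008a004c0468014023600900d400080640000001125000d80c600f405f005502c0001815c00040a600b2046007d01b800080d801bc04000f201f00ca00c804b806001dc01400d40090033000000220780090008090c00206ba0008280183))) 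
(.lf (nat_lit 5772395725) (dlOf (nat_lit 1) (nat_lit 0x1000400020008092d82)))))) (.nd (nat_lit 27) 
(.nd (nat_lit 20) (.nd (nat_lit 7) 
(.lf (nat_lit 4094411085) (dlOf (nat_lit 1) (nat_lit 0xf6000805e400203020008050d03))) 
(.lf (nat_lit 3557020365) (dlOf (nat_lit 1) (nat_lit 0x330008017000200720008128c83)))) 
(.nd (nat_lit 18) (.lf (nat_lit 4095459405) (dlOf (nat_lit 1) (nat_lit 0x4004000200080c1602))) 
(.lf (nat_lit 69189709) (dlOf (nat_lit 1) (nat_lit 0x10004000a00088c0682))))) (.nd (nat_lit 7) 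
(.nd (nat_lit 29) (.lf (nat_lit 201572429) (dlOf (nat_lit 1) (nat_lit 0x8004000c0008030f82))) 
(.lf (nat_lit 6107152461) (dlOf (nat_lit 1) (nat_lit 0x400400020018090002)))) (.nd (nat_lit 9) 
(.lf (nat_lit 1543750093) (dlOf (nat_lit 2) (nat_lit 0x201700000018157100))) 
(.lf (nat_lit 2885927885) (dlOf (nat_lit 1) (nat_lit 0x20018142881))))))) (.nd (nat_lit 18) 
(.nd (nat_lit 9) (.nd (nat_lit 19) (.nd (nat_lit 7) (.nd (nat_lit 8) 
(.lf (nat_lit 24363085) (dlOf (nat_lit 1) (nat_lit 0x8008000400200020008b90f03))) 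
(.lf (nat_lit 28557645) (dlOf (nat_lit 1) (nat_lit 0x30008000400200020008da0783)))) 
(.lf (nat_lit 2343117) (dlOf (nat_lit 1) (nat_lit 0x14004001c0018150482)))) (.nd (nat_lit 11) 
(.lf (nat_lit 45858893) (dlOf (nat_lit 1) (nat_lit 0x1400400020009360682))) 
(.lf (nat_lit 8116301) (dlOf (nat_lit 1) (nat_lit 0x5c001851a681))))) (.nd (nat_lit 8) 
(.nd (nat_lit 11) (.lf (nat_lit 8110669) (dlOf (nat_lit 1) (nat_lit 0x80008511601))) 
(.lf (nat_lit 1881393741) (dlOf (nat_lit 1) (nat_lit 0xc0028f05281)))) 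
(.lf (nat_lit 20171597) (dlOf (nat_lit 1) (nat_lit 0x4002000200089d5c02))))) (.nd (nat_lit 7) 
(.nd (nat_lit 20) (.nd (nat_lit 8) (.nd (nat_lit 22) 
(.lf (nat_lit 1009238093) (dlOf (nat_lit 9) (nat_lit 0x2a0750000b01003003a8000540800c038800580ea000120400040e2001603a8000441000481d4000200400680ea0000b02002c0750000281002503a8000000801380080004002000a00090a0683))) 
(.lf (nat_lit 48742477) (dlOf (nat_lit 1) (nat_lit 0x780019420681)))) 
(.lf (nat_lit 23576909) (dlOf (nat_lit 1) (nat_lit 0x20008002c00200160008b80603)))) 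
(.nd (nat_lit 9) (.lf (nat_lit 3493314637) (dlOf (nat_lit 2) (nat_lit 0x202e00572818110900))) 
(.lf (nat_lit 62900813) (dlOf (nat_lit 1) (nat_lit 0x200199a5281))))) (.nd (nat_lit 8) 
(.nd (nat_lit 9) (.lf (nat_lit 61326541) (dlOf (nat_lit 1) (nat_lit 0x40004003c0009922d82))) 
(.lf (nat_lit 19911373) (dlOf (nat_lit 1) (nat_lit 0x80080004002000200089d8c83)))) (.nd (nat_lit 9) 
(.lf (nat_lit 37734861) (dlOf (nat_lit 1) (nat_lit 0x80080004002000800090d4e83))) 
(.lf (nat_lit 3492791245) (dlOf (nat_lit 1) (nat_lit 0x4004000200080f2882))))))))) 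
(.nd (nat_lit 28) (.nd (nat_lit 8) (.nd (nat_lit 18) (.nd (nat_lit 26) (.nd (nat_lit 19) 
(.nd (nat_lit 6) (.nd (nat_lit 27) (.nd (nat_lit 29) 
(.lf (nat_lit 1073987629) (dlOf (nat_lit 1) (nat_lit 0x400400020008070802))) 
(.lf (nat_lit 537116717) (dlOf (nat_lit 1) (nat_lit 0x3400200140008020582)))) 
(.lf (nat_lit 134463533) (dlOf (nat_lit 1) (nat_lit 0x400400060008030c02)))) 
(.lf (nat_lit 62111853) (dlOf (nat_lit 1) (nat_lit 0x20029950a81)))) (.nd (nat_lit 7) 
(.nd (nat_lit 20) (.nd (nat_lit 21) 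
(.lf (nat_lit 537641005) (dlOf (nat_lit 3) (nat_lit 0x19606b000038100500290000000801380080078002006c00080e0603))) 
(.lf (nat_lit 11255853) (dlOf (nat_lit 3) (nat_lit 0xc55b00bf08100022ad805f58080048008000400200480008680783)))) 
(.lf (nat_lit 22790189) (dlOf (nat_lit 4) (nat_lit 0xcadc000756d0033b4100042b7000215b400cec04000cadc000656d00338c100020008007800200060008b20783)))) 
(.nd (nat_lit 6) (.lf (nat_lit 37471405) (dlOf (nat_lit 2) (nat_lit 0x9ac20005f02001000090d2c01))) 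
(.lf (nat_lit 8110829) (dlOf (nat_lit 1) (nat_lit 0x400400020008512102)))))) (.nd (nat_lit 29) 
(.nd (nat_lit 6) (.nd (nat_lit 27) 
(.lf (nat_lit 4362321965) (dlOf (nat_lit 1) (nat_lit 0x3c002001c0008020682))) 
(.lf (nat_lit 201572397) (dlOf (nat_lit 1) (nat_lit 0x400400060008030c02)))) 
(.lf (nat_lit 68403437) (dlOf (nat_lit 1) (nat_lit 0x20028570601)))) (.nd (nat_lit 9) 
(.nd (nat_lit 19) (.lf (nat_lit 3825451053) (dlOf (nat_lit 1) (nat_lit 0x48002000e0008160582))) 
(.lf (nat_lit 2754330669) (dlOf (nat_lit 1) (nat_lit 0x4002000200080d0b02)))) (.nd (nat_lit 7) 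
(.lf (nat_lit 2755904045) (dlOf (nat_lit 2) (nat_lit 0x20420001e0181b0e80))) 
(.lf (nat_lit 4899195565) (dlOf (nat_lit 1) (nat_lit 0x100080004002000200080d5683))))))) 
(.nd (nat_lit 22) (.nd (nat_lit 21) (.nd (nat_lit 7) (.nd (nat_lit 20) 
(.lf (nat_lit 201834541) (dlOf (nat_lit 2) (nat_lit 0x9c076007330200020018090001))) 
(.lf (nat_lit 26722349) (dlOf (nat_lit 1) (nat_lit 0x4004022e0008c60882)))) 
(.lf (nat_lit 8898733) (dlOf (nat_lit 1) (nat_lit 0x580080034002000a0008514903)))) 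
(.nd (nat_lit 23) (.lf (nat_lit 19382317) (dlOf (nat_lit 1) (nat_lit 0x40018990b01))) 
(.lf (nat_lit 27770925) (dlOf (nat_lit 11) (nat_lit 0xdaa40005802000adfc00066c70001354800099b4000acc90002a8500096fe0001b7ec001db1c0008d5200076a88002b5000015a7e0004cda00086648001b320000a8280015bf8000cd8e00036a90002b544000da7e0006cda000366480014838001b7f0000db1c000ed5200046a00001b3680009992000510c000adfc00066c70005b5480015a800008cda000266480013030002b7f00009bf60008d8e00076a8800234fc00119b40008cc9000266400012c40001b7ec0005aa400045040008dfb0001f8100016c20000c0080070008001c00200020008d20803))))) 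
(.nd (nat_lit 20) (.nd (nat_lit 21) 
(.lf (nat_lit 13090861) (dlOf (nat_lit 5) (nat_lit 0x1a6400007314800058100029900002cc520001404000e640000028100053200000100801200080050002003200086f0d83))) 
(.lf (nat_lit 31965229) (dlOf (nat_lit 1) (nat_lit 0x20028eb0281)))) (.nd (nat_lit 19) 
(.lf (nat_lit 30916653) (dlOf (nat_lit 5) (nat_lit 0x3570600031020002b83000178100235c1800044080082e0c0002004000800400680018e50b02))) 
(.lf (nat_lit 23052333) (dlOf (nat_lit 1) (nat_lit 0x80080010002000c0008b50683))))))) 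
(.nd (nat_lit 6) (.nd (nat_lit 11) (.nd (nat_lit 7) (.nd (nat_lit 18) 
(.lf (nat_lit 2752758061) (dlOf (nat_lit 1) (nat_lit 0x400400020008048402))) 
(.lf (nat_lit 2886189357) (dlOf (nat_lit 2) (nat_lit 0x3c07c004b90200080008188401)))) 
(.nd (nat_lit 20) 
(.lf (nat_lit 134726061) (dlOf (nat_lit 2) (nat_lit 0x680ec00e8004002000400540008090782))) 
(.lf (nat_lit 43499949) (dlOf (nat_lit 1) (nat_lit 0x18008000c002000200092a1003))))) 
(.nd (nat_lit 19) (.nd (nat_lit 20) 
(.lf (nat_lit 5503175085) (dlOf (nat_lit 1) (nat_lit 0x800400020018094e82))) 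
(.lf (nat_lit 60017069) (dlOf (nat_lit 1) (nat_lit 0x20029844e81)))) (.nd (nat_lit 7) 
(.lf (nat_lit 8116525) (dlOf (nat_lit 1) (nat_lit 0x800800040020002000851ab83))) 
(.lf (nat_lit 46909869) (dlOf (nat_lit 1) (nat_lit 0x400400020009384e82)))))) (.nd (nat_lit 7) 
(.nd (nat_lit 9) (.nd (nat_lit 10) 
(.lf (nat_lit 8116589) (dlOf (nat_lit 1) (nat_lit 0x800800040020002000851ac83))) 
(.lf (nat_lit 19914093) (dlOf (nat_lit 1) (nat_lit 0x4004000200089dc902)))) (.nd (nat_lit 10) 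
(.lf (nat_lit 4496542573) (dlOf (nat_lit 1) (nat_lit 0x4004000200080e5c02))) 
(.lf (nat_lit 8116077) (dlOf (nat_lit 1) (nat_lit 0x2001851a301))))) (.nd (nat_lit 9) 
(.nd (nat_lit 19) (.lf (nat_lit 43501037) (dlOf (nat_lit 1) (nat_lit 0x1800192a3601))) 
(.lf (nat_lit 61851117) (dlOf (nat_lit 4) (nat_lit 0x259c600225020012ce30010581000b676800333b00036408001000400040009923602)))) 
(.nd (nat_lit 11) (.lf (nat_lit 2751710189) (dlOf (nat_lit 1) (nat_lit 0x400200020008002882))) 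
(.lf (nat_lit 515053) (dlOf (nat_lit 1) (nat_lit 0x800800040020002000800bf03)))))))) 
(.nd (nat_lit 26) (.nd (nat_lit 7) (.nd (nat_lit 30) (.nd (nat_lit 27) (.nd (nat_lit 9) 
(.lf (nat_lit 4563648557) (dlOf (nat_lit 2) (nat_lit 0x1480d000030040020004002a00080b0402))) 
(.lf (nat_lit 805552685) (dlOf (nat_lit 4) (nat_lit 0x15028800090080420144014c074000200400e8051006901d00007c1000580080060002006a0008128003)))) 
(.nd (nat_lit 29) 
(.lf (nat_lit 4697866285) (dlOf (nat_lit 2) (nat_lit 0x1480d000030040020004002a00080b0402))) 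
(.lf (nat_lit 3087253549) (dlOf (nat_lit 1) (nat_lit 0x48002000e0008160582))))) (.nd (nat_lit 18) 
(.nd (nat_lit 19) 
(.lf (nat_lit 1342423085) (dlOf (nat_lit 2) (nat_lit 0x498734000a0040474004002e0008020582))) 
(.lf (nat_lit 3492528173) (dlOf (nat_lit 1) (nat_lit 0x4002000200080d0b02)))) (.nd (nat_lit 8) 
(.lf (nat_lit 1343733805) (dlOf (nat_lit 1) (nat_lit 0xc00400060008350802))) 
(.lf (nat_lit 3624386861) (dlOf (nat_lit 2) (nat_lit 0x280f80008a04000c002001c0008187a02)))))) 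
(.nd (nat_lit 8) (.nd (nat_lit 10) (.nd (nat_lit 9) 
(.lf (nat_lit 3493054637) (dlOf (nat_lit 1) (nat_lit 0x200280f4901))) 
(.lf (nat_lit 5100522157) (dlOf (nat_lit 1) (nat_lit 0x9c00080d5681)))) (.nd (nat_lit 6) 
(.lf (nat_lit 1346880685) (dlOf (nat_lit 2) (nat_lit 0x2003340005a04000400400160019042c02))) 
(.lf (nat_lit 5772395757) (dlOf (nat_lit 1) (nat_lit 0x400400020008092e82))))) (.nd (nat_lit 6) 
(.nd (nat_lit 18) (.lf (nat_lit 1345571245) (dlOf (nat_lit 1) (nat_lit 0x400400020008d74e82))) 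
(.nd (nat_lit 19) (.lf (nat_lit 3490171309) (dlOf (nat_lit 1) (nat_lit 0x400200020008004e82))) 
(.lf (nat_lit 1345309101) (dlOf (nat_lit 1) (nat_lit 0x20028b54e81))))) (.nd (nat_lit 9) 
(.lf (nat_lit 1342685677) (dlOf (nat_lit 1) (nat_lit 0x4002000800080c0d02))) 
(.lf (nat_lit 1344783341) (dlOf (nat_lit 1) (nat_lit 0x1c00400060008982882))))))) (.nd (nat_lit 29) 
(.nd (nat_lit 27) (.nd (nat_lit 7) (.nd (nat_lit 18) (.nd (nat_lit 19) 
(.lf (nat_lit 1409531949) (dlOf (nat_lit 1) (nat_lit 0x3400200140008020582))) 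
(.lf (nat_lit 1410056237) (dlOf (nat_lit 3) (nat_lit 0x19606b000038100500290000000801380080078002006c00080e0603)))) 
(.lf (nat_lit 3557277741) (dlOf (nat_lit 1) (nat_lit 0x80008190881)))) (.nd (nat_lit 6) 
(.lf (nat_lit 2483274157) (dlOf (nat_lit 1) (nat_lit 0x140028090781))) 
(.lf (nat_lit 3557019885) (dlOf (nat_lit 1) (nat_lit 0x3c0028128081))))) (.nd (nat_lit 18) 
(.nd (nat_lit 19) (.nd (nat_lit 20) 
(.lf (nat_lit 470007853) (dlOf (nat_lit 2) (nat_lit 0x498734000a0040474004002e0008020582))) 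
(.lf (nat_lit 471056429) (dlOf (nat_lit 1) (nat_lit 0x400200020008260802)))) 
(.lf (nat_lit 472629293) (dlOf (nat_lit 1) (nat_lit 0x10004000200089d0982)))) (.nd (nat_lit 6) 
(.nd (nat_lit 20) (.lf (nat_lit 470794285) (dlOf (nat_lit 1) (nat_lit 0x2800181a0881))) 
(.lf (nat_lit 473940013) (dlOf (nat_lit 11) (nat_lit 0x3c15d0001201000a067000400000003208000c2be0000f0201c4158004d0ab0003051403e819e000a0cb017604b00ba020c03780e6000801c000800b80002c50082856001382ac004412401140678005832c067012c033608300f5039800028400430560024819e0000904021015801190678000201002b056000502ac00be0cf014004b005d020c035c0e6000070c0008157000008100910d300128684044c2b0005415600810aa8023050800f027a01f4139006309c0092833c00fc19400b80c6014704b0064020c035c0e60002072009f00a80000088134800845d000207120008fc0283)))) 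
(.lf (nat_lit 470270445) (dlOf (nat_lit 1) (nat_lit 0x4002000800080c0d02)))))) (.nd (nat_lit 11) 
(.nd (nat_lit 18) (.nd (nat_lit 8) (.nd (nat_lit 30) 
(.lf (nat_lit 5301846061) (dlOf (nat_lit 1) (nat_lit 0x200180a0b81))) 
(.lf (nat_lit 4228104237) (dlOf (nat_lit 1) (nat_lit 0x3c002001c0008020682)))) 
(.lf (nat_lit 1008976173) (dlOf (nat_lit 8) (nat_lit 0x3018c0002c0400180c60001502000c0630000701000703180003008002818c002c0be000060400220630000201000b031800000080028008007c00200020009000b03)))) 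
(.nd (nat_lit 6) (.lf (nat_lit 1009238061) (dlOf (nat_lit 1) (nat_lit 0x30004001c00090a0282))) 
(.lf (nat_lit 1009238253) (dlOf (nat_lit 1) (nat_lit 0x200190a1e81))))) (.nd (nat_lit 6) 
(.nd (nat_lit 7) 
(.lf (nat_lit 6376114733) (dlOf (nat_lit 2) (nat_lit 0x609b8007a00800380080018002000e0008095183))) 
(.lf (nat_lit 4094151085) (dlOf (nat_lit 1) (nat_lit 0x8008000800200180008004e83)))) 
(.nd (nat_lit 7) (.lf (nat_lit 4094413677) (dlOf (nat_lit 1) (nat_lit 0x400400020008055c02))) 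
(.lf (nat_lit 4094151405) (dlOf (nat_lit 2) (nat_lit 0x900b0000a0080018008003400200020008005a03))))))))))))

end

end Pool.Agent.Lib.MP_5854e1_co.Cz

namespace Pool.Agent.Lib.MP_5854e1_co.Cz

noncomputable section

noncomputable def tz92 : DT := (.nd (nat_lit 5) (.nd (nat_lit 6) (.nd (nat_lit 2) (.nd (nat_lit 19) 
(.nd (nat_lit 30) (.nd (nat_lit 18) (.nd (nat_lit 29) (.nd (nat_lit 3) (.nd (nat_lit 10) 
(.nd (nat_lit 31) (.nd (nat_lit 20) (.nd (nat_lit 22) 
(.lf (nat_lit 67289104) (dlOf (nat_lit 1) (nat_lit 0x54002000200080a0102))) 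
(.lf (nat_lit 12763152) (dlOf (nat_lit 6) (nat_lit 0x3a928003d47800028080012a3c0000502000951e00002010002a8f00000c080035494001aa3c0000204000200286e0501)))) 
(.lf (nat_lit 43171856) (dlOf (nat_lit 3) (nat_lit 0x1ca57006f0c0802652b803784040018004000800092a0002)))) 
(.nd (nat_lit 27) (.nd (nat_lit 28) 
(.lf (nat_lit 6442631184) (dlOf (nat_lit 1) (nat_lit 0x320018110481))) 
(.lf (nat_lit 2416099344) (dlOf (nat_lit 1) (nat_lit 0x20008003000200020008060483)))) 
(.lf (nat_lit 2550317072) (dlOf (nat_lit 1) (nat_lit 0x20008003000200020008060483))))) 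
(.nd (nat_lit 8) 
(.lf (nat_lit 473091088) (dlOf (nat_lit 3) (nat_lit 0xe155002f0a1000d04c8000ac0c00382c2000260200200008c95f81))) 
(.nd (nat_lit 11) (.lf (nat_lit 51561744) (dlOf (nat_lit 1) (nat_lit 0x800400060009513002))) 
(.lf (nat_lit 183568) (dlOf (nat_lit 1) (nat_lit 0x1c0018006701)))))) (.nd (nat_lit 8) 
(.nd (nat_lit 20) (.nd (nat_lit 23) 
(.lf (nat_lit 21151768) (dlOf (nat_lit 1) (nat_lit 0xa00008a10481))) 
(.lf (nat_lit 29540376) (dlOf (nat_lit 3) (nat_lit 0x1857b800c2640000600800cd5f2000499200012028e20400)))) 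
(.lf (nat_lit 22200344) (dlOf (nat_lit 1) (nat_lit 0xc00400040008aa0a82)))) 
(.lf (nat_lit 2277656) (dlOf (nat_lit 3) (nat_lit 0x59c2c0010cee000b80200076770002480801300080034002000c0008150483))))) 
(.nd (nat_lit 8) (.nd (nat_lit 11) (.nd (nat_lit 9) (.nd (nat_lit 26) 
(.lf (nat_lit 4966236176) (dlOf (nat_lit 1) (nat_lit 0x400400020008080082))) 
(.lf (nat_lit 5033345040) (dlOf (nat_lit 1) (nat_lit 0x400400020008080082)))) 
(.lf (nat_lit 939704848) (dlOf (nat_lit 1) (nat_lit 0x68008004c00200040008158403)))) 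
(.nd (nat_lit 3) (.lf (nat_lit 2751649808) (dlOf (nat_lit 1) (nat_lit 0x2002800a601))) 
(.lf (nat_lit 738380824) (dlOf (nat_lit 2) (nat_lit 0x680b40032057000c0028000bc180010008007400200a40008096003))))) 
(.nd (nat_lit 3) (.nd (nat_lit 7) 
(.lf (nat_lit 738378000) (dlOf (nat_lit 1) (nat_lit 0x4000400060008090a82))) (.nd (nat_lit 11) 
(.lf (nat_lit 3087189904) (dlOf (nat_lit 1) (nat_lit 0x400400020008144202))) 
(.lf (nat_lit 3020083088) (dlOf (nat_lit 2) (nat_lit 0x1203500256818127780))))) (.nd (nat_lit 9) 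
(.lf (nat_lit 738380184) (dlOf (nat_lit 1) (nat_lit 0x100028094e81))) 
(.lf (nat_lit 2751645592) (dlOf (nat_lit 2) (nat_lit 0x4213d00007818004200))))))) (.nd (nat_lit 26) 
(.nd (nat_lit 24) (.nd (nat_lit 3) (.nd (nat_lit 7) 
(.lf (nat_lit 47629584) (dlOf (nat_lit 1) (nat_lit 0x20019403001))) (.nd (nat_lit 8) 
(.lf (nat_lit 134660240) (dlOf (nat_lit 1) (nat_lit 0x4c00200040008090102))) 
(.lf (nat_lit 2416363920) (dlOf (nat_lit 1) (nat_lit 0x1200180f4e81))))) (.nd (nat_lit 7) 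
(.lf (nat_lit 2819014680) (dlOf (nat_lit 3) (nat_lit 0x3b408c0206043004c00e00056018005010c002ae040014004000e0018150082))) 
(.lf (nat_lit 805749144) (dlOf (nat_lit 3) (nat_lit 0x1000a0044f010103021001c140800580080018002007800081a0783))))) 
(.nd (nat_lit 3) (.nd (nat_lit 9) (.nd (nat_lit 10) 
(.lf (nat_lit 24559632) (dlOf (nat_lit 6) (nat_lit 0xd5ea000054080022f50000577a00005040008bd400045de800010100032f50000577a0000304000cbd400065de8000081000a8008006400200120008ba0503))) 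
(.lf (nat_lit 60214288) (dlOf (nat_lit 2) (nat_lit 0x2a674800158080010008000400200660009845f83)))) 
(.lf (nat_lit 57068048) (dlOf (nat_lit 2) (nat_lit 0x170ca000250200040019795081)))) 
(.nd (nat_lit 7) 
(.lf (nat_lit 26656792) (dlOf (nat_lit 3) (nat_lit 0x133748003fa040015a7e0015d0200020008c50081))) 
(.lf (nat_lit 23511192) (dlOf (nat_lit 1) (nat_lit 0x400200020008b80182)))))) (.nd (nat_lit 29) 
(.nd (nat_lit 7) (.lf (nat_lit 201769488) (dlOf (nat_lit 1) (nat_lit 0x400200020008090d82))) 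
(.nd (nat_lit 27) (.lf (nat_lit 4362518672) (dlOf (nat_lit 1) (nat_lit 0x400400120008090102))) 
(.lf (nat_lit 201769104) (dlOf (nat_lit 1) (nat_lit 0x4c00200040008090102))))) (.nd (nat_lit 3) 
(.nd (nat_lit 10) (.nd (nat_lit 20) 
(.lf (nat_lit 2756100112) (dlOf (nat_lit 1) (nat_lit 0x200181f0801))) 
(.lf (nat_lit 2752954384) (dlOf (nat_lit 2) (nat_lit 0x4817200135818070500)))) 
(.lf (nat_lit 604425232) (dlOf (nat_lit 13) (nat_lit 0x6200c0002881003e0060001400803600300009e0400a8018004800900027020024006000130080218030000960400140740020034003e0150001101800200e800b4068004400c000210300240060001000800200000007404009801800100000001c02005a006000000080150008007800200440008205f83)))) 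
(.lf (nat_lit 2754002968) (dlOf (nat_lit 1) (nat_lit 0x480080020002000a00080b0903))))))) 
(.nd (nat_lit 3) (.nd (nat_lit 27) (.nd (nat_lit 20) (.nd (nat_lit 28) (.nd (nat_lit 29) 
(.nd (nat_lit 32) (.lf (nat_lit 1073922064) (dlOf (nat_lit 1) (nat_lit 0x34004003c0008020482))) 
(.lf (nat_lit 5368889360) (dlOf (nat_lit 1) (nat_lit 0x80080024002000e0008080083)))) 
(.nd (nat_lit 9) (.lf (nat_lit 5905762320) (dlOf (nat_lit 1) (nat_lit 0x400200020008144702))) 
(.lf (nat_lit 1610794512) (dlOf (nat_lit 1) (nat_lit 0xe0008093681))))) (.nd (nat_lit 7) 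
(.nd (nat_lit 18) (.lf (nat_lit 1946337296) (dlOf (nat_lit 1) (nat_lit 0x34004003c0008020482))) 
(.lf (nat_lit 3494297616) (dlOf (nat_lit 17) (nat_lit 0x60038008700800080e4001400e0021a04000c050001050100090280008240800581400040e0400100cc0004061000102e000100fc000c044000201c000ec86000403300018184000c0b8000802d000601100018070003b01800180cc0006061000102e00075c180008198000c0c2000205c000201100075820001818400140b8000202d000ea0300040308001817400040b8000a022000400e00074c28001819800040b8000603f000101680020088000c038001d20c0006066000203080008170000405a0004022000300e0007443000180fc0038a04000807e001c402003003f000400e00070c1001b80080038002000800081f0703)))) 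
(.lf (nat_lit 1409468816) (dlOf (nat_lit 1) (nat_lit 0x8008000400200020008004e83))))) 
(.nd (nat_lit 18) (.nd (nat_lit 10) 
(.lf (nat_lit 1343406096) (dlOf (nat_lit 2) (nat_lit 0x8884000be04000c00400020018220202))) 
(.lf (nat_lit 1345506320) (dlOf (nat_lit 1) (nat_lit 0x18008004000200140008c95f83)))) 
(.nd (nat_lit 7) (.lf (nat_lit 3491151888) (dlOf (nat_lit 2) (nat_lit 0x481720013c818070500))) 
(.lf (nat_lit 3493249424) (dlOf (nat_lit 2) (nat_lit 0x30100028c0080038008004800200120008106183)))))) 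
(.nd (nat_lit 26) (.nd (nat_lit 10) (.nd (nat_lit 28) 
(.lf (nat_lit 5503107088) (dlOf (nat_lit 1) (nat_lit 0x80080024002000e0008080083))) 
(.lf (nat_lit 1476575248) (dlOf (nat_lit 2) (nat_lit 0x1c00000016018060380)))) (.nd (nat_lit 7) 
(.lf (nat_lit 5771545616) (dlOf (nat_lit 1) (nat_lit 0x400200020008005f82))) 
(.lf (nat_lit 4160935568) (dlOf (nat_lit 1) (nat_lit 0x1800280a9e81))))) (.nd (nat_lit 7) 
(.nd (nat_lit 31) (.lf (nat_lit 5838651408) (dlOf (nat_lit 1) (nat_lit 0x320018110481))) 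
(.lf (nat_lit 3691167760) (dlOf (nat_lit 3) (nat_lit 0x1401d0001601000300e8000ac080008008001000200020008060383)))) 
(.lf (nat_lit 4228300944) (dlOf (nat_lit 1) (nat_lit 0x400400120008090102)))))) (.nd (nat_lit 8) 
(.nd (nat_lit 10) (.nd (nat_lit 18) (.nd (nat_lit 7) 
(.lf (nat_lit 3491938840) (dlOf (nat_lit 1) (nat_lit 0xc00200040008090d82))) 
(.lf (nat_lit 5905762456) (dlOf (nat_lit 1) (nat_lit 0x20008144801)))) (.nd (nat_lit 21) 
(.lf (nat_lit 1346813976) (dlOf (nat_lit 1) (nat_lit 0x8008000400200020009020083))) 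
(.lf (nat_lit 3492200472) (dlOf (nat_lit 1) (nat_lit 0x480080020002000a00080b0903))))) 
(.nd (nat_lit 7) (.nd (nat_lit 11) 
(.lf (nat_lit 1610794008) (dlOf (nat_lit 1) (nat_lit 0x60028092881))) 
(.lf (nat_lit 1141034008) (dlOf (nat_lit 1) (nat_lit 0x60028096001)))) 
(.lf (nat_lit 1543687320) (dlOf (nat_lit 1) (nat_lit 0x118008003000200340008146203))))) 
(.nd (nat_lit 7) (.nd (nat_lit 9) 
(.lf (nat_lit 3556950296) (dlOf (nat_lit 1) (nat_lit 0x10008001000200060008117503))) 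
(.nd (nat_lit 28) (.lf (nat_lit 3355628312) (dlOf (nat_lit 1) (nat_lit 0x600280a8f81))) 
(.lf (nat_lit 4160934680) (dlOf (nat_lit 1) (nat_lit 0x4004000200080a8f82))))) (.nd (nat_lit 9) 
(.nd (nat_lit 11) (.lf (nat_lit 4228301208) (dlOf (nat_lit 2) (nat_lit 0xa02c0044f018090780))) 
(.lf (nat_lit 5436000664) (dlOf (nat_lit 1) (nat_lit 0x1e0008007400200600008094e83)))) 
(.lf (nat_lit 3422737304) (dlOf (nat_lit 1) (nat_lit 0x80080004002000200080a9103)))))))) 
(.nd (nat_lit 20) (.nd (nat_lit 3) (.nd (nat_lit 18) (.nd (nat_lit 26) (.nd (nat_lit 21) 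
(.nd (nat_lit 22) (.nd (nat_lit 27) (.nd (nat_lit 28) 
(.lf (nat_lit 537575440) (dlOf (nat_lit 1) (nat_lit 0x2200280c0981))) 
(.lf (nat_lit 1342881808) (dlOf (nat_lit 1) (nat_lit 0x8008000400200020008100803)))) 
(.lf (nat_lit 134922256) (dlOf (nat_lit 2) (nat_lit 0x1ec03b007001b0000ec100038008002c002005200080e0103)))) 
(.lf (nat_lit 21676048) (dlOf (nat_lit 1) (nat_lit 0x20018a60a01)))) 
(.lf (nat_lit 11190288) (dlOf (nat_lit 2) (nat_lit 0x951e5804a8f2400082080010004001a0008670102)))) 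
(.nd (nat_lit 27) (.nd (nat_lit 7) 
(.lf (nat_lit 1409990672) (dlOf (nat_lit 1) (nat_lit 0xb0008000c002000600080c0883))) 
(.lf (nat_lit 2752169872) (dlOf (nat_lit 1) (nat_lit 0xfc0008004201)))) (.nd (nat_lit 28) 
(.lf (nat_lit 202031120) (dlOf (nat_lit 2) (nat_lit 0x1ec03b007001b0000ec100038008002c002005200080e0103))) 
(.lf (nat_lit 3154821136) (dlOf (nat_lit 3) (nat_lit 0x601600387808000814401a6c04000800400140018340a02)))))) 
(.nd (nat_lit 21) (.nd (nat_lit 22) (.nd (nat_lit 28) 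
(.lf (nat_lit 966672) (dlOf (nat_lit 1) (nat_lit 0x10008013800200080008040483))) 
(.lf (nat_lit 1343143952) (dlOf (nat_lit 1) (nat_lit 0x2800400020008160282)))) (.nd (nat_lit 23) 
(.lf (nat_lit 5160976) (dlOf (nat_lit 1) (nat_lit 0x800400020008320482))) 
(.lf (nat_lit 13549584) (dlOf (nat_lit 1) (nat_lit 0x20018730881))))) (.nd (nat_lit 9) 
(.lf (nat_lit 11452432) (dlOf (nat_lit 2) (nat_lit 0x5c000001358186a0500))) 
(.lf (nat_lit 19844624) (dlOf (nat_lit 1) (nat_lit 0x7e00289d7081)))))) (.nd (nat_lit 18) 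
(.nd (nat_lit 27) (.nd (nat_lit 10) (.nd (nat_lit 21) 
(.lf (nat_lit 21676056) (dlOf (nat_lit 3) (nat_lit 0x1498400064c1000125c00008f5801b1c10000d55400d3f0200180028a60a01))) 
(.lf (nat_lit 6995992) (dlOf (nat_lit 1) (nat_lit 0x100080014002000200084a0403)))) 
(.lf (nat_lit 69911576) (dlOf (nat_lit 1) (nat_lit 0x500080084002003a0008e12883)))) 
(.nd (nat_lit 26) (.nd (nat_lit 29) 
(.lf (nat_lit 134922264) (dlOf (nat_lit 4) (nat_lit 0xca00540005e04014002a0002e02013e015000160180e0380))) 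
(.lf (nat_lit 2819276824) (dlOf (nat_lit 2) (nat_lit 0x500340005a040024002000a0008220482)))) 
(.lf (nat_lit 202031128) (dlOf (nat_lit 4) (nat_lit 0xca00580006404014002c0003102013e016000178180e0380))))) 
(.nd (nat_lit 7) (.nd (nat_lit 22) 
(.lf (nat_lit 42909720) (dlOf (nat_lit 1) (nat_lit 0x780019290601))) 
(.lf (nat_lit 47104024) (dlOf (nat_lit 1) (nat_lit 0x1200293a0081)))) 
(.lf (nat_lit 19845784) (dlOf (nat_lit 1) (nat_lit 0x200089d8c81)))))) (.nd (nat_lit 8) 
(.nd (nat_lit 21) (.nd (nat_lit 3) (.nd (nat_lit 7) (.nd (nat_lit 22) 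
(.lf (nat_lit 10141712) (dlOf (nat_lit 1) (nat_lit 0x200085b0481))) 
(.lf (nat_lit 31113232) (dlOf (nat_lit 1) (nat_lit 0x20028e70281)))) 
(.lf (nat_lit 39765136) (dlOf (nat_lit 1) (nat_lit 0xc00291f2b01)))) (.nd (nat_lit 18) 
(.lf (nat_lit 5947416) (dlOf (nat_lit 1) (nat_lit 0x10008001400200020008410403))) 
(.lf (nat_lit 14598168) (dlOf (nat_lit 2) (nat_lit 0x4871a40266708001ea0400080008770081))))) 
(.nd (nat_lit 9) (.nd (nat_lit 10) (.nd (nat_lit 18) 
(.lf (nat_lit 16433168) (dlOf (nat_lit 4) (nat_lit 0x453eb00481f500178e640005f0600087330002c8100053eb0000140800100080058002000a00088a0203))) 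
(.lf (nat_lit 4112400) (dlOf (nat_lit 1) (nat_lit 0x20018280101)))) 
(.lf (nat_lit 54447120) (dlOf (nat_lit 1) (nat_lit 0x20009655f81)))) (.nd (nat_lit 3) 
(.nd (nat_lit 7) (.lf (nat_lit 8049168) (dlOf (nat_lit 1) (nat_lit 0x66800803c400201180008518683))) 
(.lf (nat_lit 8049296) (dlOf (nat_lit 1) (nat_lit 0x8008000400200020008518c83)))) 
(.lf (nat_lit 8046104) (dlOf (nat_lit 1) (nat_lit 0x400400020008513702)))))) (.nd (nat_lit 3) 
(.nd (nat_lit 7) (.nd (nat_lit 10) (.nd (nat_lit 21) 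
(.lf (nat_lit 18792720) (dlOf (nat_lit 1) (nat_lit 0x1c00400020008970702))) 
(.lf (nat_lit 2755576080) (dlOf (nat_lit 1) (nat_lit 0x200281b0481)))) 
(.lf (nat_lit 8051984) (dlOf (nat_lit 1) (nat_lit 0x3c000801900020086000851c603)))) 
(.nd (nat_lit 9) (.lf (nat_lit 8050064) (dlOf (nat_lit 1) (nat_lit 0x20028519901))) 
(.lf (nat_lit 8048528) (dlOf (nat_lit 1) (nat_lit 0xc8008006400200180008517783))))) 
(.nd (nat_lit 9) (.nd (nat_lit 11) 
(.lf (nat_lit 3491414424) (dlOf (nat_lit 2) (nat_lit 0x403cc007050200060008090781))) 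
(.lf (nat_lit 37407128) (dlOf (nat_lit 1) (nat_lit 0x4002000c00090d4e82)))) (.nd (nat_lit 7) 
(.lf (nat_lit 8046360) (dlOf (nat_lit 1) (nat_lit 0x800200020008513c82))) 
(.lf (nat_lit 8050584) (dlOf (nat_lit 1) (nat_lit 0x2001851a301))))))))) (.nd (nat_lit 3) 
(.nd (nat_lit 19) (.nd (nat_lit 18) (.nd (nat_lit 27) (.nd (nat_lit 9) (.nd (nat_lit 10) 
(.nd (nat_lit 20) (.nd (nat_lit 22) 
(.lf (nat_lit 5435998228) (dlOf (nat_lit 3) (nat_lit 0xc0110038d81000c008801c680800f0008002000200500008090003))) 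
(.lf (nat_lit 12763156) (dlOf (nat_lit 4) (nat_lit 0x3a928005b008001d4940000804000aa4a0000102000e00086e0581)))) 
(.lf (nat_lit 1343406100) (dlOf (nat_lit 1) (nat_lit 0x10008000800200040008220303)))) 
(.lf (nat_lit 1610794004) (dlOf (nat_lit 1) (nat_lit 0x140028092881)))) (.nd (nat_lit 7) 
(.nd (nat_lit 8) 
(.lf (nat_lit 20106772) (dlOf (nat_lit 2) (nat_lit 0x3eeb0003eb90001f4fc000f79400078ef000444c00006188000320e000200289d7081))) 
(.lf (nat_lit 5905762068) (dlOf (nat_lit 1) (nat_lit 0x1400400040008143c02)))) 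
(.lf (nat_lit 187284) (dlOf (nat_lit 1) (nat_lit 0x40020002000800bc82))))) (.nd (nat_lit 8) 
(.nd (nat_lit 26) (.nd (nat_lit 28) 
(.lf (nat_lit 6039978004) (dlOf (nat_lit 1) (nat_lit 0x68004002400080a0202))) 
(.lf (nat_lit 3624058900) (dlOf (nat_lit 3) (nat_lit 0x25406000d402f0043017002380b400d0048007e01b003600c001f0050013c0240070011001f0060027802c013000a0098002004f0000069147803a80c000e005e00a402e004300d801f006000fc028005c011003a00280278008013800001a4314009a00180b0001)))) 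
(.lf (nat_lit 5838651412) (dlOf (nat_lit 1) (nat_lit 0x6000400340008110482)))) (.nd (nat_lit 7) 
(.nd (nat_lit 9) (.lf (nat_lit 2281886996) (dlOf (nat_lit 1) (nat_lit 0x3a00080a9681))) 
(.lf (nat_lit 4160930580) (dlOf (nat_lit 1) (nat_lit 0x4004003c00180a2102)))) 
(.lf (nat_lit 738380692) (dlOf (nat_lit 1) (nat_lit 0x50008002800200340008095c83)))))) 
(.nd (nat_lit 28) (.nd (nat_lit 29) (.nd (nat_lit 9) (.nd (nat_lit 22) 
(.lf (nat_lit 9879572) (dlOf (nat_lit 1) (nat_lit 0x100008590181))) 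
(.lf (nat_lit 22462484) (dlOf (nat_lit 2) (nat_lit 0x2cee000d7818ae0480)))) 
(.lf (nat_lit 134660628) (dlOf (nat_lit 1) (nat_lit 0x400200020008090d82)))) (.nd (nat_lit 22) 
(.nd (nat_lit 27) (.lf (nat_lit 1611055124) (dlOf (nat_lit 1) (nat_lit 0x400280d0001))) 
(.lf (nat_lit 3892756500) (dlOf (nat_lit 2) (nat_lit 0x4011c0004a04000800200060008230302)))) 
(.lf (nat_lit 2756100116) (dlOf (nat_lit 2) (nat_lit 0x404200ba88181f0900))))) (.nd (nat_lit 10) 
(.nd (nat_lit 22) (.nd (nat_lit 26) (.nd (nat_lit 27) 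
(.lf (nat_lit 5637586964) (dlOf (nat_lit 1) (nat_lit 0x20018110181))) 
(.lf (nat_lit 3624321044) (dlOf (nat_lit 1) (nat_lit 0x800400020018160482)))) 
(.lf (nat_lit 3557212180) (dlOf (nat_lit 1) (nat_lit 0x20008000c002000a0008170083)))) 
(.lf (nat_lit 3494297620) (dlOf (nat_lit 2) (nat_lit 0x404200ae18181f0900)))) (.nd (nat_lit 7) 
(.lf (nat_lit 2416365076) (dlOf (nat_lit 1) (nat_lit 0x1e00280f7081))) 
(.lf (nat_lit 1476838804) (dlOf (nat_lit 8) (nat_lit 0x3880f4014407400c2034009b015003280800046614015007a007603a003201a001300a80114040002310a014403d008d01d001700dc0218068014002a008b0100043003001b001200d20000011789001f0060012002400fc0000022d06000e00c0010f81001d0060007c8080030030003e004005c00400200008203602))))))) 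
(.nd (nat_lit 20) (.nd (nat_lit 21) (.nd (nat_lit 26) (.nd (nat_lit 9) (.nd (nat_lit 22) 
(.lf (nat_lit 134922260) (dlOf (nat_lit 8) (nat_lit 0x2be046003301780014c100d20158089c0a601760480102022014c010007b00780bb003b014401b82c180d8059c064028e02d0175014008e8088132802e034800a0045000802f80000008c4416000760a44036045700b8001141801580ec000860401d80760003b02026803b0001c01000901d8000dc084c0800813200021c4600080e0183))) 
(.lf (nat_lit 21676052) (dlOf (nat_lit 1) (nat_lit 0x38008009000200400008a60a03)))) 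
(.lf (nat_lit 708116) (dlOf (nat_lit 1) (nat_lit 0x118008003c002001c0008007083)))) 
(.nd (nat_lit 27) (.nd (nat_lit 18) 
(.lf (nat_lit 4362780692) (dlOf (nat_lit 1) (nat_lit 0x200280f0a81))) 
(.lf (nat_lit 1410252820) (dlOf (nat_lit 8) (nat_lit 0x601c0034a00400880ee00200760026038803281c000240cc000e065004703180130184034822000040f0004a077001103b001601c400340cc002006300020000068fc3800701980341a04002c0ee001206600cef82002103b80040198033b80800300e00000002002800281b0001)))) 
(.nd (nat_lit 28) 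
(.lf (nat_lit 202031124) (dlOf (nat_lit 8) (nat_lit 0x2be046003301780014c100d20158089c0a601760480102022014c010007b00780bb003b014401b82c180d8059c064028e02d0175014008e8090132802e034800a0045000802f80000008c4416000760a44036045700b8001141801580ec000860401d80760003b02026803b0001c01000901d8000dc084c0800813200021c4600080e0183))) 
(.lf (nat_lit 4228562964) (dlOf (nat_lit 1) (nat_lit 0x200280f0a81)))))) (.nd (nat_lit 7) 
(.nd (nat_lit 8) 
(.lf (nat_lit 19578900) (dlOf (nat_lit 3) (nat_lit 0x1399800100080029ccc0007c040054004000c00089c0282))) 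
(.nd (nat_lit 18) 
(.lf (nat_lit 23773460) (dlOf (nat_lit 1) (nat_lit 0x20008000800200020008b80483))) 
(.lf (nat_lit 19841300) (dlOf (nat_lit 1) (nat_lit 0x4002000200089d0a82))))) 
(.lf (nat_lit 36358548) (dlOf (nat_lit 1) (nat_lit 0x40019074e81))))) (.nd (nat_lit 18) 
(.nd (nat_lit 12) (.nd (nat_lit 7) (.nd (nat_lit 9) 
(.lf (nat_lit 16433172) (dlOf (nat_lit 21) (nat_lit 0xb12b000aa9570101475001d9ccc000501000f92b001a88ea001f3eb80009818032256001e51d400a27d700373af80929ccc0003e1400311d4000e7d700cb3998000781802f256001691d400867d700103af80949ccc0003a1401e92b000ac8ea003c3eb80181eb0008cebe022e7330000e0600bc4ac002723a80094fae00f27ac00693af80671ccc000361802e92b000928ea00783d6002c9d7c0398e66000180a0112958005c47500151f5c00b8f58004275f00fb39980005c30050256001e51d4007e7d7004e3d600231d7c04a4e66000140c01629580097475002a9f5c01f4f5800d275f012339980004c30054a56002011d400cc7d700073d6002a9d7c0008e66000100c011c958005c47500171f5c00b0ebe0000f0800fc958006247500199f5c00acebe0000e0800ee958006947500149f5c00acebe0000c0800828ea000347480209f5c01a4ebe020e7330000285006d47500181f5c0048ebe01c67330000184000f4ac0049a3a80154fae0000206009c8ea000008100b64ac004923a80130fae00c475f00f4399800000280068008005800200d800088a0303)))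 
(.lf (nat_lit 473612820) (dlOf (nat_lit 1) (nat_lit 0x1000400180008f68702)))) 
(.lf (nat_lit 6377095316) (dlOf (nat_lit 1) (nat_lit 0x800080a2981)))) (.nd (nat_lit 7) 
(.nd (nat_lit 9) (.lf (nat_lit 8050708) (dlOf (nat_lit 1) (nat_lit 0x580080008002000a000851a603))) 
(.lf (nat_lit 8051220) (dlOf (nat_lit 1) (nat_lit 0xe80040016000851b282)))) 
(.lf (nat_lit 8049044) (dlOf (nat_lit 1) (nat_lit 0x80028518381))))) (.nd (nat_lit 8) 
(.nd (nat_lit 9) (.lf (nat_lit 25083924) (dlOf (nat_lit 2) (nat_lit 0x1167f00f0e818be0a80))) 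
(.lf (nat_lit 1881063956) (dlOf (nat_lit 1) (nat_lit 0x20008de8701)))) (.nd (nat_lit 9) 
(.nd (nat_lit 10) (.lf (nat_lit 3493773588) (dlOf (nat_lit 1) (nat_lit 0x200281b0481))) 
(.lf (nat_lit 8312084) (dlOf (nat_lit 1) (nat_lit 0x400400020018519682)))) 
(.lf (nat_lit 8308500) (dlOf (nat_lit 2) (nat_lit 0x15e588016123200b085800582168007000000046140044004001a0018513c02)))))))) 
(.nd (nat_lit 19) (.nd (nat_lit 7) (.nd (nat_lit 30) (.nd (nat_lit 24) (.nd (nat_lit 8) 
(.nd (nat_lit 9) (.nd (nat_lit 18) 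
(.lf (nat_lit 6643957788) (dlOf (nat_lit 2) (nat_lit 0x280d000382040010002000400080a0482))) 
(.lf (nat_lit 2819014684) (dlOf (nat_lit 1) (nat_lit 0x120028150101)))) 
(.lf (nat_lit 182812) (dlOf (nat_lit 1) (nat_lit 0xc00400240018005102)))) (.nd (nat_lit 11) 
(.lf (nat_lit 335724828) (dlOf (nat_lit 1) (nat_lit 0x60018090a81))) 
(.lf (nat_lit 182556) (dlOf (nat_lit 1) (nat_lit 0x7400200060008004b82))))) (.nd (nat_lit 20) 
(.nd (nat_lit 18) (.lf (nat_lit 23248924) (dlOf (nat_lit 2) (nat_lit 0x10d2900b41018b70500))) 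
(.lf (nat_lit 27705372) (dlOf (nat_lit 1) (nat_lit 0xfa0028d10681)))) (.nd (nat_lit 10) 
(.lf (nat_lit 22200348) (dlOf (nat_lit 3) (nat_lit 0x446fc0018b5d80111ada0088d4e00446948025b47c0111a240088cfe00454b9800200000007e280289bf001c2d7e001b6bb007335b402adabc01b0d4e00e66990029b4a402a9a3e01ccd12008267f007325cc03f00000003d1a00440018aa0b01))) 
(.lf (nat_lit 20106268) (dlOf (nat_lit 1) (nat_lit 0x400289d6001)))))) (.nd (nat_lit 18) 
(.nd (nat_lit 8) (.nd (nat_lit 28) 
(.lf (nat_lit 6039978012) (dlOf (nat_lit 2) (nat_lit 0x780d40038a04000c002000200080a0482))) 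
(.lf (nat_lit 1476575260) (dlOf (nat_lit 1) (nat_lit 0x1e0018060501)))) (.nd (nat_lit 11) 
(.lf (nat_lit 1745010972) (dlOf (nat_lit 1) (nat_lit 0x400400060008090a82))) 
(.lf (nat_lit 3758283036) (dlOf (nat_lit 4) (nat_lit 0x4e03c002d01a801500c000d0054006a0230029011000f8048000501c00ac06a004a03000300150016008c008c04400180120001306000101e0000940802100080048002002c000812ab03))))) 
(.nd (nat_lit 22) (.nd (nat_lit 29) 
(.lf (nat_lit 3557212188) (dlOf (nat_lit 1) (nat_lit 0x1000008170101))) 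
(.lf (nat_lit 6241566748) (dlOf (nat_lit 9) (nat_lit 0x3006800080000006408003401a00140040001882005c0138014809000b4046005a017002b0068015801000b00060064000000158800370138014009000b0008005400300015040001002000a000000052080004048000400e00030068003000c003800200d00000001206000200000008c0800100340004404000800400160018110502)))) 
(.lf (nat_lit 1346813980) (dlOf (nat_lit 1) (nat_lit 0x20019020101)))))) (.nd (nat_lit 18) 
(.nd (nat_lit 8) (.nd (nat_lit 10) (.nd (nat_lit 27) 
(.lf (nat_lit 2483208348) (dlOf (nat_lit 1) (nat_lit 0x40018090181))) 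
(.lf (nat_lit 2348990620) (dlOf (nat_lit 1) (nat_lit 0x40018090181)))) 
(.lf (nat_lit 402834588) (dlOf (nat_lit 1) (nat_lit 0x400400020008092b82)))) (.nd (nat_lit 9) 
(.nd (nat_lit 11) 
(.lf (nat_lit 3892498844) (dlOf (nat_lit 2) (nat_lit 0x18010014b404000400200020008158382))) 
(.lf (nat_lit 738380188) (dlOf (nat_lit 1) (nat_lit 0x10800200320008094e82)))) 
(.lf (nat_lit 184220) (dlOf (nat_lit 1) (nat_lit 0x20018007801))))) (.nd (nat_lit 20) 
(.nd (nat_lit 21) (.nd (nat_lit 29) 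
(.lf (nat_lit 4362518940) (dlOf (nat_lit 2) (nat_lit 0xa02d00761818090780))) 
(.lf (nat_lit 1678164380) (dlOf (nat_lit 3) (nat_lit 0x1000a007618101030210032c80800580080018002007800081a0783)))) 
(.lf (nat_lit 23511452) (dlOf (nat_lit 1) (nat_lit 0x280018b80781)))) (.nd (nat_lit 8) 
(.lf (nat_lit 11976860) (dlOf (nat_lit 1) (nat_lit 0x4002000a00086c0182))) 
(.lf (nat_lit 2755051932) (dlOf (nat_lit 2) (nat_lit 0x301000126c080038008004800200120008106883))))))) 
(.nd (nat_lit 20) (.nd (nat_lit 27) (.nd (nat_lit 21) (.nd (nat_lit 7) (.nd (nat_lit 18) 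
(.lf (nat_lit 21676060) (dlOf (nat_lit 1) (nat_lit 0x80008008400200320008a60a83))) 
(.lf (nat_lit 3557736476) (dlOf (nat_lit 1) (nat_lit 0x400400020008310482)))) 
(.lf (nat_lit 2752169628) (dlOf (nat_lit 1) (nat_lit 0x80028003a81)))) (.nd (nat_lit 7) 
(.nd (nat_lit 22) 
(.lf (nat_lit 11190300) (dlOf (nat_lit 2) (nat_lit 0xd00000041804001000200080008670482))) 
(.lf (nat_lit 15384604) (dlOf (nat_lit 1) (nat_lit 0xb8008003c002000c00087e0503)))) 
(.lf (nat_lit 3063964) (dlOf (nat_lit 4) (nat_lit 0x1c27e001a12e001c081800400f80008c10001827e001c12e001b081800380f80008a10002027e001c12e001b081800280f800070100004004000c0018200182))))) 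
(.nd (nat_lit 26) (.nd (nat_lit 18) (.nd (nat_lit 28) 
(.lf (nat_lit 134922268) (dlOf (nat_lit 2) (nat_lit 0xf8000003e4040060002005400080e0482))) 
(.lf (nat_lit 5772066844) (dlOf (nat_lit 6) (nat_lit 0x1005000223020022028000801300068094000c046000602200010100007f43000480a0001404c001a025000c011800480880040040001e018000fe07000b01400020098000804a0020023000b011000880800028030001fb0e001802800060130007808c00300440018020000e00c0007e83000880080084002001c0008060a83)))) 
(.lf (nat_lit 2819538972) (dlOf (nat_lit 1) (nat_lit 0x400400020008310482)))) (.nd (nat_lit 21) 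
(.nd (nat_lit 28) 
(.lf (nat_lit 202031132) (dlOf (nat_lit 2) (nat_lit 0xf8000003e6040060002005400080e0482))) 
(.lf (nat_lit 6376046620) (dlOf (nat_lit 6) (nat_lit 0x1005000238020022028000801300068094000c046000602200010100008483000480a0001404c001a025000c011800480880040040001e0180010887000b01400020098000804a0020023000b011000880800028030002100e001802800060130007808c00300440018020000e00c00083c3000880080084002001c0008060a83)))) 
(.lf (nat_lit 472563740) (dlOf (nat_lit 2) (nat_lit 0xc407d005e03e0000441000d00080040002003a00089c0103)))))) 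
(.nd (nat_lit 22) (.nd (nat_lit 21) (.nd (nat_lit 7) (.nd (nat_lit 23) 
(.lf (nat_lit 4095393820) (dlOf (nat_lit 1) (nat_lit 0xc002000600080a0502))) 
(.lf (nat_lit 10141724) (dlOf (nat_lit 1) (nat_lit 0x200285b0481)))) 
(.lf (nat_lit 2753216924) (dlOf (nat_lit 2) (nat_lit 0x403f000cb20200060008090781)))) 
(.nd (nat_lit 7) (.nd (nat_lit 24) 
(.lf (nat_lit 473874460) (dlOf (nat_lit 4) (nat_lit 0x36143001f09d801204e4007c19a000310804da143027d09d813e04e4096019a0002f0800be13b0060066800044100048008000400200620008fc0103))) 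
(.lf (nat_lit 20889628) (dlOf (nat_lit 1) (nat_lit 0x24002000200089f0102)))) 
(.lf (nat_lit 37407132) (dlOf (nat_lit 1) (nat_lit 0x1400090d4e81))))) (.nd (nat_lit 8) 
(.nd (nat_lit 12) (.lf (nat_lit 8045212) (dlOf (nat_lit 1) (nat_lit 0x400200020008511c02))) 
(.nd (nat_lit 18) (.lf (nat_lit 8049308) (dlOf (nat_lit 1) (nat_lit 0x10008000c00200040008518c83))) 
(.lf (nat_lit 8311452) (dlOf (nat_lit 1) (nat_lit 0x8008000400200020008518c83))))) (.nd (nat_lit 9) 
(.lf (nat_lit 8049052) (dlOf (nat_lit 1) (nat_lit 0x800400020008518382))) 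
(.lf (nat_lit 8308636) (dlOf (nat_lit 1) (nat_lit 0x580028514281)))))))))) (.nd (nat_lit 8) 
(.nd (nat_lit 19) (.nd (nat_lit 2) (.nd (nat_lit 29) (.nd (nat_lit 3) (.nd (nat_lit 9) 
(.nd (nat_lit 23) (.nd (nat_lit 7) (.nd (nat_lit 18) 
(.lf (nat_lit 1346551888) (dlOf (nat_lit 1) (nat_lit 0x800400620008fc1702))) 
(.lf (nat_lit 33996880) (dlOf (nat_lit 3) (nat_lit 0x85fd0001e01001f3180000e4080018008001400200080008f90703)))) 
(.lf (nat_lit 4496474320) (dlOf (nat_lit 1) (nat_lit 0x8008000400200020008081883)))) 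
(.nd (nat_lit 18) (.nd (nat_lit 20) 
(.lf (nat_lit 25346128) (dlOf (nat_lit 4) (nat_lit 0x200000013c0800680000008c04002c000000450200560018bf0d01))) 
(.lf (nat_lit 28491856) (dlOf (nat_lit 1) (nat_lit 0x400200020008da0202)))) 
(.lf (nat_lit 26656848) (dlOf (nat_lit 3) (nat_lit 0x12c8600013010014643000094080040008001800200060008c50703))))) 
(.nd (nat_lit 7) (.nd (nat_lit 11) 
(.lf (nat_lit 3422732880) (dlOf (nat_lit 1) (nat_lit 0x800800a8002000e00080a1683))) 
(.lf (nat_lit 58903120) (dlOf (nat_lit 1) (nat_lit 0x4004000200097e5282)))) (.nd (nat_lit 26) 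
(.lf (nat_lit 2281882320) (dlOf (nat_lit 2) (nat_lit 0x90088000c8080010008001c002000400080a2003))) 
(.lf (nat_lit 2214773456) (dlOf (nat_lit 1) (nat_lit 0x200080a2001)))))) (.nd (nat_lit 28) 
(.nd (nat_lit 7) (.nd (nat_lit 10) 
(.lf (nat_lit 186456) (dlOf (nat_lit 4) (nat_lit 0x2305c00094fc0006a6d0010a03000953680082008001b05c00194da0020004002e001800a781))) 
(.lf (nat_lit 60998744) (dlOf (nat_lit 1) (nat_lit 0x98004003a00198c2902)))) (.nd (nat_lit 11) 
(.lf (nat_lit 6471896) (dlOf (nat_lit 1) (nat_lit 0x380008420501))) 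
(.lf (nat_lit 8833240) (dlOf (nat_lit 1) (nat_lit 0x400200020008514a82))))) (.nd (nat_lit 26) 
(.nd (nat_lit 18) 
(.lf (nat_lit 3624059096) (dlOf (nat_lit 3) (nat_lit 0x111000000744080a8000000102040148002005a00080b0482))) 
(.lf (nat_lit 1343668440) (dlOf (nat_lit 3) (nat_lit 0x104e80053408002027400002040084004003800082e0502)))) 
(.nd (nat_lit 7) (.lf (nat_lit 5704433752) (dlOf (nat_lit 1) (nat_lit 0x20018080601))) 
(.lf (nat_lit 1543687384) (dlOf (nat_lit 1) (nat_lit 0x40008002400200140008146483))))))) 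
(.nd (nat_lit 18) (.nd (nat_lit 9) (.nd (nat_lit 3) (.nd (nat_lit 7) (.nd (nat_lit 11) 
(.lf (nat_lit 5234671696) (dlOf (nat_lit 5) (nat_lit 0xb00ac000bc0400700560005d02002a02b0002d810015015800168080098008006800200100008080503))) 
(.lf (nat_lit 3959609424) (dlOf (nat_lit 1) (nat_lit 0x2080080068002002c000811a703)))) 
(.lf (nat_lit 3154303184) (dlOf (nat_lit 1) (nat_lit 0xa001815a881)))) (.nd (nat_lit 30) 
(.lf (nat_lit 5234671704) (dlOf (nat_lit 9) (nat_lit 0x580560005602019002f0001d810168017803c80ac001c0520003a06001a02f0000e0100ba0178000680801080bc000320400400560001602018002f0001015800050100860008026800200080008080603))) 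
(.lf (nat_lit 6308413528) (dlOf (nat_lit 1) (nat_lit 0x20018080601))))) (.nd (nat_lit 31) 
(.nd (nat_lit 11) 
(.lf (nat_lit 1610794576) (dlOf (nat_lit 1) (nat_lit 0x780080024002008a0008093883))) 
(.lf (nat_lit 805490256) (dlOf (nat_lit 1) (nat_lit 0xa0018117181)))) (.nd (nat_lit 7) 
(.lf (nat_lit 2684540496) (dlOf (nat_lit 1) (nat_lit 0x200280a9c01))) 
(.lf (nat_lit 2684535504) (dlOf (nat_lit 1) (nat_lit 0x200180a2001)))))) (.nd (nat_lit 3) 
(.nd (nat_lit 26) (.nd (nat_lit 27) 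
(.lf (nat_lit 1611055184) (dlOf (nat_lit 1) (nat_lit 0x1000280d0501))) 
(.lf (nat_lit 2819014736) (dlOf (nat_lit 3) (nat_lit 0x350000000100801b80000000004002400200120008150702)))) 
(.lf (nat_lit 738639952) (dlOf (nat_lit 1) (nat_lit 0x1000280d0501)))) (.nd (nat_lit 26) 
(.nd (nat_lit 27) (.lf (nat_lit 1611055192) (dlOf (nat_lit 2) (nat_lit 0x2041000198180d0600))) 
(.lf (nat_lit 2819014744) (dlOf (nat_lit 2) (nat_lit 0x1201b000074080298008001c002002e0008150803)))) 
(.lf (nat_lit 738639960) (dlOf (nat_lit 2) (nat_lit 0x2041000190180d0600))))))) (.nd (nat_lit 3) 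
(.nd (nat_lit 10) (.nd (nat_lit 28) (.nd (nat_lit 32) (.nd (nat_lit 21) 
(.lf (nat_lit 25346132) (dlOf (nat_lit 1) (nat_lit 0x100028bf0d81))) 
(.lf (nat_lit 2277460) (dlOf (nat_lit 1) (nat_lit 0x1800400320018150002)))) (.nd (nat_lit 26) 
(.lf (nat_lit 6442631252) (dlOf (nat_lit 1) (nat_lit 0x6600080078002005c0008110903))) 
(.lf (nat_lit 4899127380) (dlOf (nat_lit 1) (nat_lit 0x3c00400020018080502))))) (.nd (nat_lit 18) 
(.nd (nat_lit 9) 
(.lf (nat_lit 5234671700) (dlOf (nat_lit 2) (nat_lit 0x400560005e0200160028080501))) 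
(.lf (nat_lit 1344457300) (dlOf (nat_lit 2) (nat_lit 0x4045800094080008008000c00200040008805303)))) 
(.nd (nat_lit 20) (.lf (nat_lit 1409728596) (dlOf (nat_lit 1) (nat_lit 0xc0028090001))) 
(.lf (nat_lit 471253076) (dlOf (nat_lit 1) (nat_lit 0x2080080004002000200082e0283)))))) 
(.nd (nat_lit 7) (.nd (nat_lit 11) 
(.lf (nat_lit 2013447764) (dlOf (nat_lit 1) (nat_lit 0x400200020008093882))) 
(.lf (nat_lit 805490260) (dlOf (nat_lit 1) (nat_lit 0x40018117181)))) (.nd (nat_lit 11) 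
(.nd (nat_lit 26) (.lf (nat_lit 402834644) (dlOf (nat_lit 1) (nat_lit 0x400400020008092d82))) 
(.lf (nat_lit 2080556244) (dlOf (nat_lit 1) (nat_lit 0x10008000400200040008092d83)))) 
(.lf (nat_lit 183508) (dlOf (nat_lit 1) (nat_lit 0x1c0018006481)))))) (.nd (nat_lit 7) 
(.nd (nat_lit 11) (.nd (nat_lit 10) (.nd (nat_lit 18) 
(.lf (nat_lit 24297564) (dlOf (nat_lit 2) (nat_lit 0x2e00000015018b91200))) 
(.lf (nat_lit 3624321116) (dlOf (nat_lit 1) (nat_lit 0x8008000400200020008160b03)))) 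
(.lf (nat_lit 3758281820) (dlOf (nat_lit 1) (nat_lit 0x20028129381)))) (.nd (nat_lit 9) 
(.lf (nat_lit 186460) (dlOf (nat_lit 4) (nat_lit 0x960b800429f8001d4da00214060002c17000753f0005a9b4004100c002982e0014a7e000953680080018001000800200020008000800a783))) 
(.lf (nat_lit 474401372) (dlOf (nat_lit 2) (nat_lit 0x242be000250200020009165301))))) 
(.nd (nat_lit 18) (.nd (nat_lit 9) (.nd (nat_lit 21) (.nd (nat_lit 27) 
(.lf (nat_lit 5435998428) (dlOf (nat_lit 1) (nat_lit 0x28000800d8002005e0008090a03))) 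
(.lf (nat_lit 2885861596) (dlOf (nat_lit 1) (nat_lit 0xe00180b0481)))) 
(.lf (nat_lit 19054812) (dlOf (nat_lit 1) (nat_lit 0xc00200060008970582)))) (.nd (nat_lit 23) 
(.lf (nat_lit 3020083932) (dlOf (nat_lit 2) (nat_lit 0x400c80000004001c00400060008128c82))) 
(.lf (nat_lit 8573660) (dlOf (nat_lit 1) (nat_lit 0x8008000400200020008518c83))))) 
(.nd (nat_lit 21) (.nd (nat_lit 22) 
(.lf (nat_lit 1343668444) (dlOf (nat_lit 2) (nat_lit 0x2a161002104e80008410003000800a4002008600082e0583))) 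
(.lf (nat_lit 14074076) (dlOf (nat_lit 1) (nat_lit 0x20028750581)))) 
(.lf (nat_lit 28754140) (dlOf (nat_lit 1) (nat_lit 0xc00200060008da0582)))))))) (.nd (nat_lit 18) 
(.nd (nat_lit 20) (.nd (nat_lit 2) (.nd (nat_lit 26) (.nd (nat_lit 3) (.nd (nat_lit 22) 
(.lf (nat_lit 537575504) (dlOf (nat_lit 2) (nat_lit 0x3f0290000d00800f80080050002006400080c1903))) 
(.lf (nat_lit 30064720) (dlOf (nat_lit 2) (nat_lit 0x1a69d40002f818e30200)))) 
(.lf (nat_lit 4898904) (dlOf (nat_lit 1) (nat_lit 0x200182d0801)))) (.nd (nat_lit 3) 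
(.nd (nat_lit 27) 
(.lf (nat_lit 4362780752) (dlOf (nat_lit 1) (nat_lit 0x880080010002001400080f1903))) 
(.lf (nat_lit 4228563024) (dlOf (nat_lit 1) (nat_lit 0x500080088002000800080f1603)))) 
(.lf (nat_lit 472563800) (dlOf (nat_lit 1) (nat_lit 0x580080010002000200089c0803))))) 
(.nd (nat_lit 28) (.nd (nat_lit 3) (.nd (nat_lit 9) 
(.lf (nat_lit 4362780756) (dlOf (nat_lit 2) (nat_lit 0x2c00b400060040014002000600080f1982))) 
(.lf (nat_lit 34261588) (dlOf (nat_lit 1) (nat_lit 0x400200020008fb5302)))) 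
(.lf (nat_lit 4362780764) (dlOf (nat_lit 1) (nat_lit 0x8002000200080f1b02)))) (.nd (nat_lit 27) 
(.lf (nat_lit 1409990740) (dlOf (nat_lit 1) (nat_lit 0x18002000c00080c1602))) 
(.lf (nat_lit 4228563028) (dlOf (nat_lit 3) (nat_lit 0x540800002402002e0400000c0180f1600)))))) 
(.nd (nat_lit 9) (.nd (nat_lit 22) (.nd (nat_lit 2) 
(.lf (nat_lit 45793360) (dlOf (nat_lit 1) (nat_lit 0x8008000400200020009360703))) 
(.lf (nat_lit 10141780) (dlOf (nat_lit 1) (nat_lit 0x200285b0901)))) (.nd (nat_lit 3) 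
(.nd (nat_lit 10) (.lf (nat_lit 8046672) (dlOf (nat_lit 1) (nat_lit 0x8008000400200020008514703))) 
(.lf (nat_lit 8045648) (dlOf (nat_lit 1) (nat_lit 0x8008000400200020008512883)))) 
(.lf (nat_lit 8048856) (dlOf (nat_lit 1) (nat_lit 0x18008000400200020008518083))))) 
(.nd (nat_lit 2) (.nd (nat_lit 3) (.nd (nat_lit 7) 
(.lf (nat_lit 8049232) (dlOf (nat_lit 1) (nat_lit 0xa0028518981))) 
(.lf (nat_lit 8045264) (dlOf (nat_lit 2) (nat_lit 0x31df880006404000400400020008512002)))) 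
(.lf (nat_lit 8049368) (dlOf (nat_lit 1) (nat_lit 0x8008000400200020008518c83)))) (.nd (nat_lit 3) 
(.lf (nat_lit 8049236) (dlOf (nat_lit 1) (nat_lit 0x500080004002000a0008518983))) 
(.lf (nat_lit 8049372) (dlOf (nat_lit 1) (nat_lit 0x8008000400200020008518c83))))))) 
(.nd (nat_lit 2) (.nd (nat_lit 21) (.nd (nat_lit 7) (.nd (nat_lit 3) (.nd (nat_lit 20) 
(.lf (nat_lit 13549648) (dlOf (nat_lit 2) (nat_lit 0xa00000024018730d00))) 
(.lf (nat_lit 14598224) (dlOf (nat_lit 2) (nat_lit 0x3b31200013018770700)))) (.nd (nat_lit 9) 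
(.lf (nat_lit 47104088) (dlOf (nat_lit 2) (nat_lit 0x1a9180003102000200093a0701))) 
(.lf (nat_lit 38718040) (dlOf (nat_lit 1) (nat_lit 0x20019135301))))) (.nd (nat_lit 20) 
(.lf (nat_lit 537837784) (dlOf (nat_lit 1) (nat_lit 0x5c00281b0481))) (.nd (nat_lit 26) 
(.lf (nat_lit 2015448) (dlOf (nat_lit 2) (nat_lit 0x84a5e0011b818150480))) 
(.lf (nat_lit 6377357528) (dlOf (nat_lit 1) (nat_lit 0xf00080004002000a00080c1c03)))))) 
(.nd (nat_lit 3) (.nd (nat_lit 9) (.nd (nat_lit 24) 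
(.lf (nat_lit 473874512) (dlOf (nat_lit 1) (nat_lit 0xc800400360008fc0702))) 
(.lf (nat_lit 20889680) (dlOf (nat_lit 1) (nat_lit 0xe00189f0681)))) (.nd (nat_lit 7) 
(.lf (nat_lit 62835280) (dlOf (nat_lit 1) (nat_lit 0x200199a5281))) 
(.lf (nat_lit 8307408) (dlOf (nat_lit 2) (nat_lit 0x3a5f880006404000400400080018512002))))) 
(.nd (nat_lit 7) (.nd (nat_lit 9) 
(.lf (nat_lit 473874520) (dlOf (nat_lit 2) (nat_lit 0x16000000094080088008002400200680008fc0803))) 
(.lf (nat_lit 62835288) (dlOf (nat_lit 1) (nat_lit 0x20002001e00099a5302)))) 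
(.lf (nat_lit 8311512) (dlOf (nat_lit 1) (nat_lit 0x8008000400200020008518c83)))))) 
(.nd (nat_lit 24) (.nd (nat_lit 3) (.nd (nat_lit 7) 
(.lf (nat_lit 473874516) (dlOf (nat_lit 1) (nat_lit 0xb4004002e0008fc0782))) (.nd (nat_lit 20) 
(.lf (nat_lit 68075732) (dlOf (nat_lit 1) (nat_lit 0x80080004002000200083e0503))) 
(.lf (nat_lit 6377357524) (dlOf (nat_lit 1) (nat_lit 0x4002000200080c1c02))))) (.nd (nat_lit 7) 
(.lf (nat_lit 473874524) (dlOf (nat_lit 2) (nat_lit 0x1285300038296003a0d7000d06b00002c200108008003c00200360008fc0883))) 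
(.lf (nat_lit 6377357532) (dlOf (nat_lit 1) (nat_lit 0x8004000200180c1c82))))) (.nd (nat_lit 11) 
(.nd (nat_lit 20) (.lf (nat_lit 19841108) (dlOf (nat_lit 1) (nat_lit 0xe00189d0001))) 
(.nd (nat_lit 22) (.lf (nat_lit 20889684) (dlOf (nat_lit 1) (nat_lit 0x200089f0681))) 
(.lf (nat_lit 25083988) (dlOf (nat_lit 6) (nat_lit 0x2a635100013810002b47000a5a10000480800680000001602000224d0000581001d126800000080058008007400200180008be1603))))) 
(.nd (nat_lit 7) (.lf (nat_lit 19847764) (dlOf (nat_lit 1) (nat_lit 0x200289db681))) 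
(.lf (nat_lit 19848404) (dlOf (nat_lit 1) (nat_lit 0x4004000200089dc382))))))))) (.nd (nat_lit 7) 
(.nd (nat_lit 3) (.nd (nat_lit 26) (.nd (nat_lit 18) (.nd (nat_lit 11) (.nd (nat_lit 2) 
(.lf (nat_lit 11714896) (dlOf (nat_lit 1) (nat_lit 0x10000286c0601))) (.nd (nat_lit 12) 
(.lf (nat_lit 1879753044) (dlOf (nat_lit 1) (nat_lit 0x10008000800200040008370883))) 
(.lf (nat_lit 8048980) (dlOf (nat_lit 1) (nat_lit 0x10008001400200060008518383))))) 
(.nd (nat_lit 10) (.lf (nat_lit 8046932) (dlOf (nat_lit 1) (nat_lit 0x400400020008514e02))) 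
(.lf (nat_lit 3221413204) (dlOf (nat_lit 2) (nat_lit 0x1a045002f701811c900))))) (.nd (nat_lit 19) 
(.nd (nat_lit 20) (.nd (nat_lit 23) 
(.lf (nat_lit 805749072) (dlOf (nat_lit 8) (nat_lit 0x13d0220084810c01b00760022033000190400a00220056010c00062080500090026e04700300030000b01805d812002e008e0002b04016c047000148100920000000280810d80000000004039c00204f400081a0602))) 
(.lf (nat_lit 25608528) (dlOf (nat_lit 1) (nat_lit 0x400200020008c10802)))) 
(.lf (nat_lit 3493249360) (dlOf (nat_lit 1) (nat_lit 0x100018104d81)))) (.nd (nat_lit 9) 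
(.lf (nat_lit 39765328) (dlOf (nat_lit 2) (nat_lit 0xc339c00044040008004000400191f3302))) 
(.lf (nat_lit 19841872) (dlOf (nat_lit 2) (nat_lit 0x16d3800064040208004000400189d2482)))))) 
(.nd (nat_lit 11) (.nd (nat_lit 18) (.nd (nat_lit 2) (.nd (nat_lit 9) 
(.lf (nat_lit 69911888) (dlOf (nat_lit 1) (nat_lit 0x400400020018e13302))) 
(.lf (nat_lit 3422733136) (dlOf (nat_lit 1) (nat_lit 0x200180a2481)))) 
(.lf (nat_lit 5972869460) (dlOf (nat_lit 1) (nat_lit 0x2a0028154d81)))) (.nd (nat_lit 27) 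
(.nd (nat_lit 29) 
(.lf (nat_lit 4362518864) (dlOf (nat_lit 8) (nat_lit 0x7f020808500b000066080018058000320200080510022025803f011800bc08a025e02d0020012004800580005a1c010405a0002c02002202d0001501001102b00004808081815800000040110004005e0008090602))) 
(.lf (nat_lit 1678164304) (dlOf (nat_lit 8) (nat_lit 0x13d0220084810c01b00760022033000198400a00220056010c00064080500090026e04700300030000b41805d812002e008e0002c04016c047000150100920000000280810d80000000004039c00204f400081a0602)))) 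
(.lf (nat_lit 4228301136) (dlOf (nat_lit 8) (nat_lit 0x7f01d008500ac000640800180560003102000804a0022022003f00fc00bc07c025e02c002001200480058000581c01040580002b02002202c0001481001102780004408081813c00000040110004005e0008090602))))) 
(.nd (nat_lit 2) (.nd (nat_lit 10) 
(.lf (nat_lit 3959605584) (dlOf (nat_lit 2) (nat_lit 0x2780c40004c04001000400020008114d82))) 
(.lf (nat_lit 1543687504) (dlOf (nat_lit 4) (nat_lit 0x6c030000150200420180000981000700c000014080130008003000200320008146a03)))) 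
(.nd (nat_lit 18) (.lf (nat_lit 1677904212) (dlOf (nat_lit 1) (nat_lit 0x180018114e01))) 
(.lf (nat_lit 2751908180) (dlOf (nat_lit 1) (nat_lit 0x3e0018004e01))))))) (.nd (nat_lit 29) 
(.nd (nat_lit 20) (.nd (nat_lit 10) (.nd (nat_lit 2) (.nd (nat_lit 19) 
(.lf (nat_lit 4362256728) (dlOf (nat_lit 6) (nat_lit 0x8a02d0003481002701680019c0801f00b4000cc0400240a20012047003b01680048090000801000080a2008202d00030120000fc180358008006800200380008014e03))) 
(.lf (nat_lit 30064984) (dlOf (nat_lit 1) (nat_lit 0x60018e30881)))) 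
(.lf (nat_lit 4362256732) (dlOf (nat_lit 8) (nat_lit 0x3b80b4000d20401d805a0006802004602d0003281006701680138090000880801e805a00580240002102003101680008c0800200000003c0400e4004001e0008014e02)))) 
(.nd (nat_lit 9) (.lf (nat_lit 472827224) (dlOf (nat_lit 1) (nat_lit 0x80018b03381))) 
(.lf (nat_lit 186200) (dlOf (nat_lit 1) (nat_lit 0x8001800a281))))) (.nd (nat_lit 2) 
(.nd (nat_lit 12) (.nd (nat_lit 18) 
(.lf (nat_lit 28492120) (dlOf (nat_lit 1) (nat_lit 0x20018da0881))) 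
(.lf (nat_lit 3493249368) (dlOf (nat_lit 2) (nat_lit 0xc048000220200080018104e01)))) 
(.lf (nat_lit 8048984) (dlOf (nat_lit 1) (nat_lit 0x2400200080008518382)))) (.nd (nat_lit 9) 
(.lf (nat_lit 3493249372) (dlOf (nat_lit 4) (nat_lit 0x20090000480400c40480008020000118200090120000780800600080014002000e0008104e03))) 
(.lf (nat_lit 8050524) (dlOf (nat_lit 1) (nat_lit 0x800800040020002000851a303)))))) 
(.nd (nat_lit 26) (.nd (nat_lit 2) (.nd (nat_lit 9) (.nd (nat_lit 10) 
(.lf (nat_lit 939704664) (dlOf (nat_lit 1) (nat_lit 0x2800801bc00200100008154e03))) 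
(.lf (nat_lit 805490008) (dlOf (nat_lit 1) (nat_lit 0x100018116a81)))) 
(.lf (nat_lit 3087189848) (dlOf (nat_lit 1) (nat_lit 0x20028143f81)))) (.nd (nat_lit 9) 
(.lf (nat_lit 939704668) (dlOf (nat_lit 2) (nat_lit 0x134044000000200040028154e01))) 
(.lf (nat_lit 671270748) (dlOf (nat_lit 1) (nat_lit 0x400400040008143f82))))) (.nd (nat_lit 9) 
(.nd (nat_lit 2) (.nd (nat_lit 11) 
(.lf (nat_lit 2755051864) (dlOf (nat_lit 1) (nat_lit 0x20028104d81))) 
(.lf (nat_lit 2751650136) (dlOf (nat_lit 1) (nat_lit 0x2002800ab81)))) 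
(.lf (nat_lit 4228039004) (dlOf (nat_lit 1) (nat_lit 0x20018014e81)))) (.nd (nat_lit 10) 
(.lf (nat_lit 6241307480) (dlOf (nat_lit 1) (nat_lit 0x200180d5c01))) 
(.lf (nat_lit 2752169816) (dlOf (nat_lit 1) (nat_lit 0xe00008003f81)))))))) (.nd (nat_lit 26) 
(.nd (nat_lit 2) (.nd (nat_lit 9) (.nd (nat_lit 18) (.nd (nat_lit 3) (.nd (nat_lit 10) 
(.lf (nat_lit 3491414480) (dlOf (nat_lit 5) (nat_lit 0x1761e8005709c0000641004b07a0000300402f03d0000170201821e800860af000000100120008021800200040008090a03))) 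
(.lf (nat_lit 8046032) (dlOf (nat_lit 1) (nat_lit 0x400200020008513602)))) 
(.lf (nat_lit 8049112) (dlOf (nat_lit 1) (nat_lit 0x380008022c002008a0008518683)))) 
(.nd (nat_lit 28) 
(.lf (nat_lit 3221668304) (dlOf (nat_lit 5) (nat_lit 0xa402b00130154027c0a4000404b009e01b004080ac025c03c0138011004c0080031802800e801001320060000c8c0015015801e0028000300803600ac005605500cb029006500d8018c06401660310003017005380ac0308052018201e00d0008806f80400248014018600800c0003000580000002e4008c40a2046403501f201a0115807c081403c024c01201fc003000000380020008059000203ae0008170a03))) 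
(.lf (nat_lit 805749200) (dlOf (nat_lit 7) (nat_lit 0x4a80c4090c014000200400060370114018802600480918014000c0060000f850042009008880280003c08090c0140001d02008601201080050000701012080280003604000400400fe00181a0a02))))) 
(.nd (nat_lit 3) (.nd (nat_lit 10) 
(.lf (nat_lit 19844048) (dlOf (nat_lit 1) (nat_lit 0x4002000200089d5d82))) (.nd (nat_lit 28) 
(.lf (nat_lit 671270864) (dlOf (nat_lit 1) (nat_lit 0x220018144501))) 
(.lf (nat_lit 3087189968) (dlOf (nat_lit 1) (nat_lit 0x20028144501))))) (.nd (nat_lit 10) 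
(.lf (nat_lit 1345506264) (dlOf (nat_lit 1) (nat_lit 0x20028c95e01))) 
(.lf (nat_lit 8048600) (dlOf (nat_lit 1) (nat_lit 0x8008000400200040008517a83)))))) 
(.nd (nat_lit 10) (.nd (nat_lit 3) (.nd (nat_lit 9) 
(.lf (nat_lit 8049108) (dlOf (nat_lit 1) (nat_lit 0x60028518681))) 
(.lf (nat_lit 5637325780) (dlOf (nat_lit 1) (nat_lit 0xa00180d2881)))) (.nd (nat_lit 19) 
(.lf (nat_lit 537052124) (dlOf (nat_lit 1) (nat_lit 0x400400020008002882))) 
(.lf (nat_lit 8045532) (dlOf (nat_lit 1) (nat_lit 0x400400020008512882))))) (.nd (nat_lit 20) 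
(.nd (nat_lit 12) 
(.lf (nat_lit 671270868) (dlOf (nat_lit 3) (nat_lit 0x200c00005408002806000026040038004000c0008144502))) 
(.lf (nat_lit 710612) (dlOf (nat_lit 1) (nat_lit 0x100040108000800a602)))) (.nd (nat_lit 3) 
(.nd (nat_lit 9) (.lf (nat_lit 8046036) (dlOf (nat_lit 1) (nat_lit 0x8008002000200060008513603))) 
(.lf (nat_lit 8046548) (dlOf (nat_lit 1) (nat_lit 0x400400020018514502)))) 
(.lf (nat_lit 8310748) (dlOf (nat_lit 1) (nat_lit 0x400200020008517a82))))))) (.nd (nat_lit 31) 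
(.nd (nat_lit 28) (.nd (nat_lit 18) (.nd (nat_lit 3) 
(.lf (nat_lit 1812120016) (dlOf (nat_lit 2) (nat_lit 0xb800b003300200291c100138008005000200900008157103))) 
(.lf (nat_lit 1812120024) (dlOf (nat_lit 2) (nat_lit 0x1400b0006000000000100080008009c002002a0008157103)))) 
(.nd (nat_lit 2) (.nd (nat_lit 29) 
(.lf (nat_lit 4362518992) (dlOf (nat_lit 9) (nat_lit 0x10f811c09d805a00020040426047026101680007c100d8011c098805a0001e040442047026f01680007410101011c0003804085808e04b802d0000d82007e02380003808006811c0001a0402d800200780008090a02))) 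
(.lf (nat_lit 1678164432) (dlOf (nat_lit 7) (nat_lit 0x4a80c4090c014000200400060370114018802600480918014000c0060000f850042009008880280003c08090c0140001d02008601201080050000701012080280003604000400400fe00181a0a02)))) 
(.lf (nat_lit 4362518996) (dlOf (nat_lit 1) (nat_lit 0x10008001c002000c0008090a83))))) 
(.nd (nat_lit 2) (.nd (nat_lit 3) (.nd (nat_lit 19) 
(.lf (nat_lit 474137040) (dlOf (nat_lit 2) (nat_lit 0x62180001d0190e1100))) 
(.lf (nat_lit 473612752) (dlOf (nat_lit 1) (nat_lit 0x20018f67b01)))) 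
(.lf (nat_lit 5301781464) (dlOf (nat_lit 8) (nat_lit 0xe0110048f0100030088024680800400440121804001c0220090a02000e01100484810007008802420080008044011e4040008004000a0008092882)))) 
(.nd (nat_lit 3) 
(.lf (nat_lit 474137044) (dlOf (nat_lit 4) (nat_lit 0x410c000070080020860000360400044300001402000200290e1181))) 
(.lf (nat_lit 872858588) (dlOf (nat_lit 1) (nat_lit 0x1000280e2881)))))) (.nd (nat_lit 27) 
(.nd (nat_lit 2) (.nd (nat_lit 10) (.nd (nat_lit 19) 
(.lf (nat_lit 2483208656) (dlOf (nat_lit 2) (nat_lit 0x12014000090080028008000c00200060008090a03))) 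
(.lf (nat_lit 2753216976) (dlOf (nat_lit 5) (nat_lit 0x1761fa005709c0000641004b07e8000300402f03f4000170201821fa00860aa000000100120008021800200040008090a03)))) 
(.lf (nat_lit 3020084688) (dlOf (nat_lit 3) (nat_lit 0x5603d0001c81007b019003280980000008000400400060008129b02)))) 
(.nd (nat_lit 3) 
(.lf (nat_lit 3020084692) (dlOf (nat_lit 3) (nat_lit 0x3403d0001c810051019002400980000008000c00400040008129b02))) 
(.lf (nat_lit 3020084700) (dlOf (nat_lit 4) (nat_lit 0xb807a0003902000203d000038100260190015809800000080028004000a0008129b02))))) 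
(.nd (nat_lit 18) (.nd (nat_lit 3) 
(.lf (nat_lit 2348990928) (dlOf (nat_lit 2) (nat_lit 0x12014000090080028008000c00200060008090a03))) 
(.lf (nat_lit 4228039128) (dlOf (nat_lit 1) (nat_lit 0x440018017101)))) (.nd (nat_lit 2) 
(.nd (nat_lit 28) 
(.lf (nat_lit 3959865808) (dlOf (nat_lit 5) (nat_lit 0xa402b00130154027c0a4000404b009e01b004080ac025c03c0138011004c0080031802800e801001320060000c8c0015015801e0028000300803600ac005605500cb029006500d8018c06401660310003017005380ac0308052018201e00d0008806f80400248014018600800c0003000580000002e4008c40a2046403501f201a0115807c081403c024c01201fc003000000380020008059000203ae0008170a03))) 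
(.lf (nat_lit 4228301264) (dlOf (nat_lit 9) (nat_lit 0x10f810009d805800020040426040026101600007c100d8010009880580001e040442040026f0160000741010101000003804085808004b802c0000d82007e0200000380800681000001a0402d800200780008090a02)))) 
(.lf (nat_lit 4228301268) (dlOf (nat_lit 1) (nat_lit 0x10008001c002000c0008090a83))))))))))) 
(.nd (nat_lit 8) (.nd (nat_lit 2) (.nd (nat_lit 19) (.nd (nat_lit 26) (.nd (nat_lit 18) 
(.nd (nat_lit 3) (.nd (nat_lit 6) (.nd (nat_lit 27) (.nd (nat_lit 20) (.nd (nat_lit 29) 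
(.nd (nat_lit 7) (.nd (nat_lit 23) 
(.lf (nat_lit 1073922096) (dlOf (nat_lit 3) (nat_lit 0x30148000240800a00a40000004003800200020008020582))) 
(.lf (nat_lit 25346096) (dlOf (nat_lit 1) (nat_lit 0x48008000800200040008bf0b03)))) 
(.lf (nat_lit 35833008) (dlOf (nat_lit 1) (nat_lit 0x2000400040009012c02)))) (.nd (nat_lit 28) 
(.lf (nat_lit 2684534832) (dlOf (nat_lit 1) (nat_lit 0x4004000200080a0002))) 
(.lf (nat_lit 2952970288) (dlOf (nat_lit 1) (nat_lit 0x10008000400200020008060d03))))) 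
(.nd (nat_lit 9) 
(.lf (nat_lit 18006064) (dlOf (nat_lit 1) (nat_lit 0xa3800805d000201e20008900b83))) 
(.lf (nat_lit 1345505840) (dlOf (nat_lit 1) (nat_lit 0x20028c95181))))) (.nd (nat_lit 9) 
(.nd (nat_lit 29) (.lf (nat_lit 4697800752) (dlOf (nat_lit 1) (nat_lit 0x20028090001))) 
(.lf (nat_lit 5234671664) (dlOf (nat_lit 1) (nat_lit 0x40028080381)))) (.nd (nat_lit 31) 
(.lf (nat_lit 134398512) (dlOf (nat_lit 3) (nat_lit 0x202f00034810001025000110080030008000800200040008018003))) 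
(.lf (nat_lit 2281882160) (dlOf (nat_lit 1) (nat_lit 0x1600280a1481)))))) (.nd (nat_lit 10) 
(.nd (nat_lit 11) (.nd (nat_lit 22) 
(.lf (nat_lit 6308413552) (dlOf (nat_lit 1) (nat_lit 0x600008080d01))) 
(.lf (nat_lit 63094896) (dlOf (nat_lit 1) (nat_lit 0x400299d2481)))) 
(.lf (nat_lit 8570992) (dlOf (nat_lit 1) (nat_lit 0x20008514781)))) (.nd (nat_lit 12) 
(.lf (nat_lit 40027248) (dlOf (nat_lit 1) (nat_lit 0x400291f2a01))) 
(.lf (nat_lit 3758281840) (dlOf (nat_lit 2) (nat_lit 0x240440000002000c0028129401)))))) 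
(.nd (nat_lit 7) (.nd (nat_lit 21) (.nd (nat_lit 22) 
(.lf (nat_lit 5234671672) (dlOf (nat_lit 1) (nat_lit 0x20028080481))) 
(.lf (nat_lit 12763192) (dlOf (nat_lit 1) (nat_lit 0x4000286e0b01)))) (.nd (nat_lit 9) 
(.lf (nat_lit 24297528) (dlOf (nat_lit 1) (nat_lit 0x8008000400200020008b90b83))) 
(.lf (nat_lit 3491938872) (dlOf (nat_lit 1) (nat_lit 0x20018091001))))) (.nd (nat_lit 6) 
(.nd (nat_lit 23) (.lf (nat_lit 35833016) (dlOf (nat_lit 1) (nat_lit 0x20019012c81))) 
(.lf (nat_lit 60998840) (dlOf (nat_lit 1) (nat_lit 0x48002000600098c2c82)))) 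
(.lf (nat_lit 3758283000) (dlOf (nat_lit 2) (nat_lit 0x80300001781812a980)))))) (.nd (nat_lit 3) 
(.nd (nat_lit 28) (.nd (nat_lit 9) (.nd (nat_lit 20) (.nd (nat_lit 21) 
(.lf (nat_lit 1611055152) (dlOf (nat_lit 1) (nat_lit 0x18002000e00080d0382))) 
(.lf (nat_lit 15122480) (dlOf (nat_lit 1) (nat_lit 0x8004000400087c0702)))) 
(.lf (nat_lit 30851120) (dlOf (nat_lit 1) (nat_lit 0x400200020008e50b82)))) (.nd (nat_lit 27) 
(.lf (nat_lit 537313840) (dlOf (nat_lit 2) (nat_lit 0x805b00010018090f00))) 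
(.lf (nat_lit 134660656) (dlOf (nat_lit 2) (nat_lit 0x19018800b00440000c08008400400020008090f02))))) 
(.nd (nat_lit 31) (.nd (nat_lit 6) 
(.lf (nat_lit 5637586992) (dlOf (nat_lit 1) (nat_lit 0xe0018110d01))) 
(.lf (nat_lit 805748848) (dlOf (nat_lit 1) (nat_lit 0x4004000200081a0002)))) (.nd (nat_lit 20) 
(.lf (nat_lit 3624321072) (dlOf (nat_lit 2) (nat_lit 0x1200f40001204000400400080018160582))) 
(.lf (nat_lit 3491151920) (dlOf (nat_lit 2) (nat_lit 0xd82280004404000400400020008070902)))))) 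
(.nd (nat_lit 6) (.nd (nat_lit 9) (.nd (nat_lit 21) 
(.lf (nat_lit 30851128) (dlOf (nat_lit 1) (nat_lit 0x400200020008e50c02))) 
(.lf (nat_lit 24559672) (dlOf (nat_lit 2) (nat_lit 0x2c1700000018ba0b00)))) (.nd (nat_lit 7) 
(.lf (nat_lit 41339448) (dlOf (nat_lit 1) (nat_lit 0x20019245201))) 
(.lf (nat_lit 20371128) (dlOf (nat_lit 1) (nat_lit 0x80080004002000200089da003))))) 
(.nd (nat_lit 7) 
(.lf (nat_lit 8832632) (dlOf (nat_lit 2) (nat_lit 0x400000000004000800200200008513982))) 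
(.nd (nat_lit 9) 
(.lf (nat_lit 35045624) (dlOf (nat_lit 2) (nat_lit 0x1b8bc001b204000400200020008fd2482))) 
(.lf (nat_lit 57068280) (dlOf (nat_lit 1) (nat_lit 0x18004002a0009795a02)))))))) (.nd (nat_lit 29) 
(.nd (nat_lit 31) (.nd (nat_lit 30) (.nd (nat_lit 3) (.nd (nat_lit 7) 
(.lf (nat_lit 201769520) (dlOf (nat_lit 2) (nat_lit 0x19018800b00440000c08008400400020008090f02))) 
(.lf (nat_lit 4496474288) (dlOf (nat_lit 3) (nat_lit 0x58028000580400080140002b02000a0008081601)))) 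
(.lf (nat_lit 68337720) (dlOf (nat_lit 1) (nat_lit 0x1000400020008550902)))) (.nd (nat_lit 3) 
(.nd (nat_lit 6) (.lf (nat_lit 1409729072) (dlOf (nat_lit 2) (nat_lit 0x805b00010018090f00))) 
(.lf (nat_lit 5704433776) (dlOf (nat_lit 1) (nat_lit 0x600008080d01)))) 
(.lf (nat_lit 5435998264) (dlOf (nat_lit 1) (nat_lit 0xd8008007800200700008090003))))) 
(.nd (nat_lit 7) (.nd (nat_lit 3) (.nd (nat_lit 27) 
(.lf (nat_lit 2483208752) (dlOf (nat_lit 2) (nat_lit 0x90140000280800a80080084002000a0008090f03))) 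
(.lf (nat_lit 2348991024) (dlOf (nat_lit 2) (nat_lit 0x90140000280800a80080084002000a0008090f03)))) 
(.lf (nat_lit 3422738040) (dlOf (nat_lit 1) (nat_lit 0x300080018002000800080a9d03)))) 
(.nd (nat_lit 10) (.nd (nat_lit 27) 
(.lf (nat_lit 2483208368) (dlOf (nat_lit 1) (nat_lit 0x2c0008090301))) 
(.lf (nat_lit 2348990640) (dlOf (nat_lit 1) (nat_lit 0x2c0008090301)))) 
(.lf (nat_lit 6509743280) (dlOf (nat_lit 1) (nat_lit 0x20028146281)))))) (.nd (nat_lit 31) 
(.nd (nat_lit 18) (.nd (nat_lit 3) (.nd (nat_lit 28) (.nd (nat_lit 32) 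
(.lf (nat_lit 604160048) (dlOf (nat_lit 1) (nat_lit 0x10008000400200020008060d03))) 
(.lf (nat_lit 4899127344) (dlOf (nat_lit 1) (nat_lit 0xe60008080381)))) 
(.lf (nat_lit 1946337328) (dlOf (nat_lit 3) (nat_lit 0x30148000240800a00a40000004003800200020008020582)))) 
(.lf (nat_lit 738377784) (dlOf (nat_lit 1) (nat_lit 0x440028090001)))) (.nd (nat_lit 9) 
(.nd (nat_lit 27) (.lf (nat_lit 6241566768) (dlOf (nat_lit 1) (nat_lit 0xe0018110d01))) 
(.lf (nat_lit 738639920) (dlOf (nat_lit 1) (nat_lit 0x18002000e00080d0382)))) 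
(.lf (nat_lit 604424752) (dlOf (nat_lit 2) (nat_lit 0x18028002a804002c00200100008205182))))) 
(.nd (nat_lit 3) (.nd (nat_lit 6) (.nd (nat_lit 9) 
(.lf (nat_lit 2886123568) (dlOf (nat_lit 2) (nat_lit 0x1200f40001204000400400080018160582))) 
(.lf (nat_lit 2754793008) (dlOf (nat_lit 2) (nat_lit 0x104000000288180f7180)))) 
(.lf (nat_lit 3020084976) (dlOf (nat_lit 2) (nat_lit 0x1800e400bc05c001c0270024e03812a000)))) 
(.nd (nat_lit 7) 
(.lf (nat_lit 2751650360) (dlOf (nat_lit 3) (nat_lit 0x90a900023008212883c000f6040004004001e000800b402))) 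
(.lf (nat_lit 3154301112) (dlOf (nat_lit 1) (nat_lit 0x80028157e81)))))))) (.nd (nat_lit 21) 
(.nd (nat_lit 3) (.nd (nat_lit 20) (.nd (nat_lit 26) (.nd (nat_lit 6) (.nd (nat_lit 18) 
(.nd (nat_lit 27) 
(.lf (nat_lit 537575472) (dlOf (nat_lit 1) (nat_lit 0xe00080108002007c00080c0f83))) 
(.lf (nat_lit 134922288) (dlOf (nat_lit 2) (nat_lit 0x1e700000005a040014002017a00080e0682)))) 
(.lf (nat_lit 5161008) (dlOf (nat_lit 1) (nat_lit 0x100028320701)))) 
(.lf (nat_lit 51036400) (dlOf (nat_lit 2) (nat_lit 0x2929c02d58040024004003600094f1e82)))) 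
(.nd (nat_lit 7) (.nd (nat_lit 27) 
(.lf (nat_lit 1409990704) (dlOf (nat_lit 3) (nat_lit 0x180590001b0100470180000c008051000804c0002002e00080c0e83))) 
(.lf (nat_lit 202031152) (dlOf (nat_lit 2) (nat_lit 0x1e700000005a040014002017a00080e0682)))) 
(.lf (nat_lit 2752169648) (dlOf (nat_lit 1) (nat_lit 0x8008000400200020008003a83))))) 
(.nd (nat_lit 9) (.nd (nat_lit 23) 
(.lf (nat_lit 1753136) (dlOf (nat_lit 2) (nat_lit 0x281ae000310200040008130881))) 
(.lf (nat_lit 10141744) (dlOf (nat_lit 5) (nat_lit 0x147cc000410200987f00001f81006f1f28000f4080280f9800347ca0003504000200085b0581)))) 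
(.nd (nat_lit 26) 
(.lf (nat_lit 3491414576) (dlOf (nat_lit 2) (nat_lit 0x2a1eb00180e900001810026000800a800200300008090f03))) 
(.lf (nat_lit 2753217072) (dlOf (nat_lit 2) (nat_lit 0x2a1fd00180f380001810026000800a800200300008090f03)))))) 
(.nd (nat_lit 18) (.nd (nat_lit 6) (.nd (nat_lit 26) 
(.lf (nat_lit 134922296) (dlOf (nat_lit 2) (nat_lit 0x3803b000000180e0780))) (.nd (nat_lit 28) 
(.lf (nat_lit 202031160) (dlOf (nat_lit 2) (nat_lit 0x2c03b000000180e0780))) 
(.lf (nat_lit 4228563000) (dlOf (nat_lit 2) (nat_lit 0x50200000780800f80080020002001400080f1283))))) 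
(.nd (nat_lit 11) (.nd (nat_lit 23) 
(.lf (nat_lit 6377095288) (dlOf (nat_lit 1) (nat_lit 0x800080a1f01))) 
(.lf (nat_lit 60473464) (dlOf (nat_lit 1) (nat_lit 0xa0029870c01)))) 
(.lf (nat_lit 710776) (dlOf (nat_lit 1) (nat_lit 0xc0020012000800a882))))) (.nd (nat_lit 9) 
(.nd (nat_lit 6) (.lf (nat_lit 60736696) (dlOf (nat_lit 1) (nat_lit 0xa00198c2c81))) 
(.lf (nat_lit 5773377656) (dlOf (nat_lit 2) (nat_lit 0x30094000c8040004004000400180c0b82)))) 
(.nd (nat_lit 11) (.nd (nat_lit 26) 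
(.lf (nat_lit 3491676728) (dlOf (nat_lit 2) (nat_lit 0x1081400000040054004001a0008091002))) 
(.lf (nat_lit 2753479224) (dlOf (nat_lit 2) (nat_lit 0x1086800000040054004001a0008091002)))) 
(.lf (nat_lit 51300920) (dlOf (nat_lit 1) (nat_lit 0x6000400100009515202))))))) (.nd (nat_lit 18) 
(.nd (nat_lit 3) (.nd (nat_lit 6) (.nd (nat_lit 9) (.nd (nat_lit 12) 
(.lf (nat_lit 15384624) (dlOf (nat_lit 2) (nat_lit 0x149140001c02000400187e0701))) 
(.lf (nat_lit 8048688) (dlOf (nat_lit 2) (nat_lit 0x61a000004c04000800200060008517c02)))) 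
(.lf (nat_lit 1881852464) (dlOf (nat_lit 1) (nat_lit 0x4004000200090a5182)))) (.nd (nat_lit 9) 
(.lf (nat_lit 8051824) (dlOf (nat_lit 1) (nat_lit 0x2000851c101))) 
(.lf (nat_lit 8046192) (dlOf (nat_lit 2) (nat_lit 0x8ca0000000200040028513981))))) (.nd (nat_lit 9) 
(.nd (nat_lit 6) (.lf (nat_lit 472563768) (dlOf (nat_lit 1) (nat_lit 0x1c002000200089c0502))) 
(.lf (nat_lit 29016184) (dlOf (nat_lit 1) (nat_lit 0x400200020008da0482)))) (.nd (nat_lit 11) 
(.nd (nat_lit 20) (.lf (nat_lit 23773752) (dlOf (nat_lit 1) (nat_lit 0x1c0018b81001))) 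
(.lf (nat_lit 8045112) (dlOf (nat_lit 1) (nat_lit 0x18008000800200040008511483)))) 
(.lf (nat_lit 36358712) (dlOf (nat_lit 1) (nat_lit 0x20019075201)))))) (.nd (nat_lit 7) 
(.nd (nat_lit 9) (.nd (nat_lit 20) (.nd (nat_lit 6) 
(.lf (nat_lit 11452464) (dlOf (nat_lit 1) (nat_lit 0x4002000200086a0882))) 
(.lf (nat_lit 19847280) (dlOf (nat_lit 1) (nat_lit 0x200189da881)))) (.nd (nat_lit 3) 
(.nd (nat_lit 22) (.lf (nat_lit 4112432) (dlOf (nat_lit 2) (nat_lit 0x5e9bc0002b018280680))) 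
(.lf (nat_lit 25083952) (dlOf (nat_lit 1) (nat_lit 0x48008005c00200540008be0e83)))) 
(.lf (nat_lit 473874488) (dlOf (nat_lit 1) (nat_lit 0x2060028fc0501))))) (.nd (nat_lit 26) 
(.lf (nat_lit 3493773872) (dlOf (nat_lit 2) (nat_lit 0xe0420000a8181b0f00))) 
(.lf (nat_lit 2755576368) (dlOf (nat_lit 2) (nat_lit 0xe0420000a0181b0f00))))) (.nd (nat_lit 3) 
(.nd (nat_lit 6) 
(.lf (nat_lit 37668016) (dlOf (nat_lit 4) (nat_lit 0xb6038005a9d000454d00018a5f000b51380017c2800329a0000bc0400054e80004a680002e8290d2c00))) 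
(.lf (nat_lit 473874672) (dlOf (nat_lit 1) (nat_lit 0x2000400880008fc1e82)))) (.nd (nat_lit 6) 
(.nd (nat_lit 20) (.lf (nat_lit 32425144) (dlOf (nat_lit 1) (nat_lit 0x20008ef2c81))) 
(.lf (nat_lit 37668024) (dlOf (nat_lit 1) (nat_lit 0x4002000200090d2c82)))) 
(.lf (nat_lit 19841272) (dlOf (nat_lit 1) (nat_lit 0x4002000200089d0a82))))))))) (.nd (nat_lit 3) 
(.nd (nat_lit 19) (.nd (nat_lit 26) (.nd (nat_lit 18) (.nd (nat_lit 24) (.nd (nat_lit 27) 
(.nd (nat_lit 28) (.nd (nat_lit 29) 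
(.lf (nat_lit 1073922100) (dlOf (nat_lit 1) (nat_lit 0x60028020601))) 
(.lf (nat_lit 1610793012) (dlOf (nat_lit 1) (nat_lit 0x440028090001)))) 
(.lf (nat_lit 2952970292) (dlOf (nat_lit 6) (nat_lit 0x10170000809c000403c0002d06001602e000a0150005809c002c03c0002a0800020270001181000301600028024000120800180000000002002a0018060e01)))) 
(.nd (nat_lit 6) 
(.lf (nat_lit 939704884) (dlOf (nat_lit 3) (nat_lit 0x31004800a0000014b80800f400000a470200080018158b01))) 
(.nd (nat_lit 12) (.lf (nat_lit 402834676) (dlOf (nat_lit 1) (nat_lit 0x400400020008092e82))) 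
(.lf (nat_lit 3355628788) (dlOf (nat_lit 2) (nat_lit 0xb80bc0037e040068004008400180a9502)))))) 
(.nd (nat_lit 11) (.nd (nat_lit 20) 
(.lf (nat_lit 25346100) (dlOf (nat_lit 1) (nat_lit 0x2800200340008bf0b82))) 
(.lf (nat_lit 18006068) (dlOf (nat_lit 1) (nat_lit 0x8008000400200020008900c03)))) (.nd (nat_lit 6) 
(.lf (nat_lit 20106292) (dlOf (nat_lit 1) (nat_lit 0x2a00189d6081))) 
(.lf (nat_lit 57854708) (dlOf (nat_lit 1) (nat_lit 0x20009795a01)))))) (.nd (nat_lit 6) 
(.nd (nat_lit 28) (.nd (nat_lit 21) 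
(.lf (nat_lit 2819014708) (dlOf (nat_lit 1) (nat_lit 0x358008000c00200700008150483))) 
(.lf (nat_lit 15122484) (dlOf (nat_lit 3) (nat_lit 0x21df90010e4200035f8c011ee2600677120011a258001ced0004273800332f700012890070e338000880800a00080080002000c00087c0783)))) 
(.nd (nat_lit 7) (.lf (nat_lit 3492200500) (dlOf (nat_lit 1) (nat_lit 0x74004000400080b1302))) 
(.lf (nat_lit 1344718004) (dlOf (nat_lit 3) (nat_lit 0x180000003e0400181b2000000200160028982c01))))) 
(.nd (nat_lit 24) (.nd (nat_lit 7) 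
(.lf (nat_lit 1343668340) (dlOf (nat_lit 12) (nat_lit 0x4d0584000829c012a09d00a7047000714200178584001429c004a09d000a04700070820012858400cc13a001b9040012161002004e8006d4100420584021413a001408e000d083008b0b080460274026c11c0019f060032161001504e80063c100090584003413a0018804000409d00090470005e81004e8584002429c00620be009804e80558238002f01400342c2001609d000b98282e0480))) 
(.lf (nat_lit 1346814196) (dlOf (nat_lit 2) (nat_lit 0x10a68001027000101180009c0600020019022481)))) 
(.nd (nat_lit 21) (.lf (nat_lit 17219828) (dlOf (nat_lit 1) (nat_lit 0x200288e0601))) 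
(.lf (nat_lit 61260020) (dlOf (nat_lit 3) (nat_lit 0x124ae000b0010013256800270080038008003000200160009902483))))))) 
(.nd (nat_lit 9) (.nd (nat_lit 27) (.nd (nat_lit 6) (.nd (nat_lit 20) (.nd (nat_lit 28) 
(.lf (nat_lit 604160052) (dlOf (nat_lit 6) (nat_lit 0x1e018000f0088007803c003c01c000200800020180001007800080380003a0c000c030000400f000400700007018002001c000280400180000000002005e0018060e01))) 
(.lf (nat_lit 1946337332) (dlOf (nat_lit 1) (nat_lit 0x60028020601)))) 
(.lf (nat_lit 68337716) (dlOf (nat_lit 2) (nat_lit 0x103780000004001000400080008550882)))) 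
(.lf (nat_lit 2755838068) (dlOf (nat_lit 3) (nat_lit 0xa075000a02220023004000a1d4001178181b0080)))) 
(.nd (nat_lit 6) (.nd (nat_lit 18) 
(.lf (nat_lit 5301780532) (dlOf (nat_lit 1) (nat_lit 0xd8008007800200700008090003))) 
(.lf (nat_lit 471253044) (dlOf (nat_lit 1) (nat_lit 0x80080004002000200082e0003)))) 
(.lf (nat_lit 2885861492) (dlOf (nat_lit 1) (nat_lit 0x200280b0081))))) (.nd (nat_lit 7) 
(.nd (nat_lit 12) 
(.lf (nat_lit 738380340) (dlOf (nat_lit 2) (nat_lit 0xe01f80079c080038008002800200040008095183))) 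
(.lf (nat_lit 2751650356) (dlOf (nat_lit 1) (nat_lit 0x2001800b381)))) (.nd (nat_lit 6) 
(.nd (nat_lit 10) 
(.lf (nat_lit 5436000948) (dlOf (nat_lit 4) (nat_lit 0x380220002902001c0110000601000c00880002c08031000800cc002009c0008095703))) 
(.lf (nat_lit 6509743796) (dlOf (nat_lit 1) (nat_lit 0x20008147281)))) 
(.lf (nat_lit 4093823732) (dlOf (nat_lit 1) (nat_lit 0x400400060008005a02))))))) (.nd (nat_lit 20) 
(.nd (nat_lit 6) (.nd (nat_lit 18) (.nd (nat_lit 22) (.nd (nat_lit 26) 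
(.lf (nat_lit 3492462644) (dlOf (nat_lit 2) (nat_lit 0xbe0f58007440800400080050002000600080d0b83))) 
(.lf (nat_lit 2754265140) (dlOf (nat_lit 2) (nat_lit 0xbe0fe8007440800400080050002000600080d0b83)))) 
(.lf (nat_lit 15384628) (dlOf (nat_lit 3) (nat_lit 0x320000000940800115140003e040034002000c00087e0782)))) 
(.nd (nat_lit 7) 
(.lf (nat_lit 5161012) (dlOf (nat_lit 4) (nat_lit 0x1d8a7800d253300007c1002e29e001dd4cc000140400c2a78008153300004c10007000800d4002000c0008320783))) 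
(.lf (nat_lit 19841716) (dlOf (nat_lit 1) (nat_lit 0x1400289d1e01))))) (.nd (nat_lit 7) 
(.nd (nat_lit 10) (.lf (nat_lit 53395572) (dlOf (nat_lit 1) (nat_lit 0x4004000200095b0d82))) 
(.lf (nat_lit 472826996) (dlOf (nat_lit 2) (nat_lit 0x1c0000000a018b02a00)))) (.nd (nat_lit 9) 
(.lf (nat_lit 19844340) (dlOf (nat_lit 1) (nat_lit 0x200189d6581))) 
(.lf (nat_lit 1611320052) (dlOf (nat_lit 2) (nat_lit 0x2816800050040004004000e0008125a02)))))) 
(.nd (nat_lit 21) (.nd (nat_lit 7) (.nd (nat_lit 23) 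
(.lf (nat_lit 1343930420) (dlOf (nat_lit 1) (nat_lit 0x40008380f81))) 
(.lf (nat_lit 10141748) (dlOf (nat_lit 1) (nat_lit 0x10004000600085b0602)))) (.nd (nat_lit 26) 
(.lf (nat_lit 5773377716) (dlOf (nat_lit 2) (nat_lit 0x3808000030040014004000400080c1682))) 
(.lf (nat_lit 6377357492) (dlOf (nat_lit 1) (nat_lit 0x1600080c1681))))) (.nd (nat_lit 6) 
(.nd (nat_lit 10) (.nd (nat_lit 11) 
(.lf (nat_lit 8044596) (dlOf (nat_lit 1) (nat_lit 0xe800200160008510002))) 
(.lf (nat_lit 8050740) (dlOf (nat_lit 1) (nat_lit 0x1800800080020004000851a603)))) 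
(.lf (nat_lit 37405748) (dlOf (nat_lit 1) (nat_lit 0x80080004002000200090d2883)))) (.nd (nat_lit 9) 
(.nd (nat_lit 10) (.lf (nat_lit 29016180) (dlOf (nat_lit 1) (nat_lit 0x400400020018da0482))) 
(.lf (nat_lit 8051828) (dlOf (nat_lit 1) (nat_lit 0x2000851c101)))) 
(.lf (nat_lit 8046196) (dlOf (nat_lit 1) (nat_lit 0x800400060008513982)))))))) (.nd (nat_lit 9) 
(.nd (nat_lit 19) (.nd (nat_lit 29) (.nd (nat_lit 18) (.nd (nat_lit 24) (.nd (nat_lit 6) 
(.lf (nat_lit 1073922108) (dlOf (nat_lit 1) (nat_lit 0x2c00400020018020702))) 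
(.lf (nat_lit 183548) (dlOf (nat_lit 1) (nat_lit 0x1c0018006601)))) (.nd (nat_lit 20) 
(.lf (nat_lit 25346108) (dlOf (nat_lit 1) (nat_lit 0x940008bf0b81))) 
(.lf (nat_lit 18006076) (dlOf (nat_lit 2) (nat_lit 0x813580003204000400200080008900c82))))) 
(.nd (nat_lit 10) (.nd (nat_lit 21) 
(.lf (nat_lit 3494297660) (dlOf (nat_lit 1) (nat_lit 0x200181f1601))) 
(.lf (nat_lit 15122492) (dlOf (nat_lit 1) (nat_lit 0x1800287c0901)))) (.nd (nat_lit 7) 
(.lf (nat_lit 57066556) (dlOf (nat_lit 1) (nat_lit 0x400400020009792882))) 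
(.lf (nat_lit 32949436) (dlOf (nat_lit 1) (nat_lit 0xc0028f52c81)))))) (.nd (nat_lit 26) 
(.nd (nat_lit 6) (.nd (nat_lit 7) 
(.lf (nat_lit 2684534844) (dlOf (nat_lit 1) (nat_lit 0x4004000200080a0002))) 
(.lf (nat_lit 2684540092) (dlOf (nat_lit 1) (nat_lit 0x200080a9501)))) 
(.lf (nat_lit 6174195836) (dlOf (nat_lit 1) (nat_lit 0xa0028080c81)))) (.nd (nat_lit 6) 
(.nd (nat_lit 18) (.lf (nat_lit 1946337340) (dlOf (nat_lit 1) (nat_lit 0x2c00400020018020702))) 
(.lf (nat_lit 2756100156) (dlOf (nat_lit 1) (nat_lit 0x200181f1601)))) 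
(.lf (nat_lit 6241304700) (dlOf (nat_lit 1) (nat_lit 0x3e00180d0281)))))) (.nd (nat_lit 21) 
(.nd (nat_lit 18) (.nd (nat_lit 20) 
(.lf (nat_lit 42647612) (dlOf (nat_lit 1) (nat_lit 0x8008000400200020009260603))) 
(.lf (nat_lit 10141756) (dlOf (nat_lit 5) (nat_lit 0x3200000003e0200300000001b810018000000054080150000000000400ec002000400085b0702)))) 
(.nd (nat_lit 6) (.lf (nat_lit 14598204) (dlOf (nat_lit 1) (nat_lit 0x400400020008770482))) 
(.lf (nat_lit 1881063676) (dlOf (nat_lit 2) (nat_lit 0x5031000000080008008001800200080008de2903))))) 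
(.nd (nat_lit 6) (.nd (nat_lit 7) (.nd (nat_lit 26) 
(.lf (nat_lit 1344979004) (dlOf (nat_lit 2) (nat_lit 0x4200000011c0401a8002002200089a0602))) 
(.lf (nat_lit 472563772) (dlOf (nat_lit 2) (nat_lit 0xa40000008e02002800089c0601)))) 
(.lf (nat_lit 8049852) (dlOf (nat_lit 1) (nat_lit 0x400400060008519502)))) (.nd (nat_lit 7) 
(.lf (nat_lit 8051836) (dlOf (nat_lit 1) (nat_lit 0x2000851c101))) 
(.lf (nat_lit 473612540) (dlOf (nat_lit 2) (nat_lit 0x142a400120f70002079000782480017a10017400400080008f62902))))))) 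
(.nd (nat_lit 27) (.nd (nat_lit 10) (.nd (nat_lit 6) (.nd (nat_lit 7) 
(.lf (nat_lit 2483208764) (dlOf (nat_lit 1) (nat_lit 0x800400060008091002))) 
(.lf (nat_lit 5436000956) (dlOf (nat_lit 2) (nat_lit 0x203700003018095780)))) (.nd (nat_lit 12) 
(.lf (nat_lit 39766780) (dlOf (nat_lit 1) (nat_lit 0x20002004a00091f5a02))) 
(.lf (nat_lit 19847932) (dlOf (nat_lit 1) (nat_lit 0x200189db981))))) (.nd (nat_lit 7) 
(.nd (nat_lit 18) 
(.lf (nat_lit 1610794556) (dlOf (nat_lit 3) (nat_lit 0x2805400040090000a82001501500004c0802f000800d4002004a0008093783))) 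
(.lf (nat_lit 8308284) (dlOf (nat_lit 1) (nat_lit 0x8008000400200020008513783)))) (.nd (nat_lit 6) 
(.lf (nat_lit 3758282428) (dlOf (nat_lit 3) (nat_lit 0x100ac0094004000c07a003e8020002002812a001))) 
(.lf (nat_lit 8570620) (dlOf (nat_lit 2) (nat_lit 0x544d60003802001a0018513b81)))))) 
(.nd (nat_lit 6) (.nd (nat_lit 18) (.nd (nat_lit 26) 
(.lf (nat_lit 939704892) (dlOf (nat_lit 2) (nat_lit 0x6e0000052d818158b00))) 
(.lf (nat_lit 2348991036) (dlOf (nat_lit 1) (nat_lit 0x800400060008091002)))) (.nd (nat_lit 26) 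
(.lf (nat_lit 134660668) (dlOf (nat_lit 2) (nat_lit 0xb806200480110000e028091000))) 
(.lf (nat_lit 201769532) (dlOf (nat_lit 2) (nat_lit 0xb806200480110000e028091000))))) 
(.nd (nat_lit 10) (.lf (nat_lit 6376573564) (dlOf (nat_lit 2) (nat_lit 0x603a00007018095400))) 
(.nd (nat_lit 18) (.lf (nat_lit 6375523964) (dlOf (nat_lit 1) (nat_lit 0x400200020008003982))) 
(.lf (nat_lit 1476839036) (dlOf (nat_lit 22) (nat_lit 0x84006003500000009e0800100180004d02010e00c006e000000130100190030000960401600740098034003c0150001201802b80e8012c0680004704006802a00360100001141000080f4015007400980340069015001980800008814009407a00ae03a005201a003400a800e0040000430a004c03d005201d002880d000e0054008002000310060001083000700d00008204009c07a009403a003901a001c00300120000000400a004a03d005501d002900d000e40400003e08006c0200001e81003201a001a8080000780800cc0180003b02007603a003001a000f80a800b8018006a0000001c05006e0000000d40801700000006804009c07a00c0034003d0100000cc1804b80300000004005000200200008203982))))))))))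 
(.nd (nat_lit 3) (.nd (nat_lit 7) (.nd (nat_lit 11) (.nd (nat_lit 10) (.nd (nat_lit 18) 
(.nd (nat_lit 2) (.nd (nat_lit 27) (.nd (nat_lit 19) 
(.lf (nat_lit 2483208560) (dlOf (nat_lit 1) (nat_lit 0x360008090781))) 
(.lf (nat_lit 2753216880) (dlOf (nat_lit 1) (nat_lit 0xc0018090781)))) (.nd (nat_lit 6) 
(.lf (nat_lit 4429365552) (dlOf (nat_lit 1) (nat_lit 0x400200020008090502))) 
(.lf (nat_lit 2348990832) (dlOf (nat_lit 1) (nat_lit 0x400200020008090782))))) (.nd (nat_lit 6) 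
(.nd (nat_lit 9) (.lf (nat_lit 3556950324) (dlOf (nat_lit 1) (nat_lit 0x40028117b01))) 
(.lf (nat_lit 8045364) (dlOf (nat_lit 1) (nat_lit 0x40028512281)))) 
(.lf (nat_lit 8044916) (dlOf (nat_lit 1) (nat_lit 0x20008511001))))) (.nd (nat_lit 27) 
(.nd (nat_lit 29) 
(.lf (nat_lit 4362518896) (dlOf (nat_lit 4) (nat_lit 0x7808e00e1602001a0470070601000902380381c08005000800a400200500008090783))) 
(.lf (nat_lit 1678164336) (dlOf (nat_lit 3) (nat_lit 0x3001400ebc02000c00a007570181a0780)))) 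
(.nd (nat_lit 26) 
(.lf (nat_lit 134660464) (dlOf (nat_lit 2) (nat_lit 0x1b800000e3404006800200200008090782))) 
(.nd (nat_lit 29) 
(.lf (nat_lit 201769328) (dlOf (nat_lit 2) (nat_lit 0xbb00b0038580800d80080078002003a0008090783))) 
(.lf (nat_lit 3959865712) (dlOf (nat_lit 1) (nat_lit 0x1400200040008170782))))))) (.nd (nat_lit 2) 
(.nd (nat_lit 12) (.nd (nat_lit 27) 
(.lf (nat_lit 537052976) (dlOf (nat_lit 1) (nat_lit 0x20018003d81))) 
(.lf (nat_lit 671270704) (dlOf (nat_lit 3) (nat_lit 0x201f0000d01000200980002c080060008001000200140008143d83)))) 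
(.nd (nat_lit 9) (.lf (nat_lit 8049968) (dlOf (nat_lit 1) (nat_lit 0x60018519881))) 
(.lf (nat_lit 3758282544) (dlOf (nat_lit 3) (nat_lit 0x101e80001c0800080c8000000400100040016000812a102))))) 
(.nd (nat_lit 9) (.lf (nat_lit 8308084) (dlOf (nat_lit 1) (nat_lit 0x20018513501))) 
(.nd (nat_lit 12) (.nd (nat_lit 19) 
(.lf (nat_lit 537053044) (dlOf (nat_lit 1) (nat_lit 0x10008000400200020008004083))) 
(.lf (nat_lit 8046452) (dlOf (nat_lit 1) (nat_lit 0x10008000400200040008514083)))) 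
(.lf (nat_lit 8050548) (dlOf (nat_lit 1) (nat_lit 0x7000800040020008000851a303))))))) 
(.nd (nat_lit 18) (.nd (nat_lit 20) (.nd (nat_lit 30) (.nd (nat_lit 2) (.nd (nat_lit 19) 
(.lf (nat_lit 54708592) (dlOf (nat_lit 1) (nat_lit 0x40009654e81))) 
(.lf (nat_lit 36358512) (dlOf (nat_lit 1) (nat_lit 0x40019074e81)))) 
(.lf (nat_lit 183668) (dlOf (nat_lit 1) (nat_lit 0x1c0018006b81)))) (.nd (nat_lit 2) 
(.nd (nat_lit 21) (.lf (nat_lit 3825387888) (dlOf (nat_lit 1) (nat_lit 0x20028144e81))) 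
(.lf (nat_lit 5773642096) (dlOf (nat_lit 1) (nat_lit 0x18004000c00180e4e82)))) 
(.lf (nat_lit 5436000628) (dlOf (nat_lit 1) (nat_lit 0x200008004c00200460008094e83))))) 
(.nd (nat_lit 19) (.nd (nat_lit 22) 
(.lf (nat_lit 1345505648) (dlOf (nat_lit 1) (nat_lit 0x20028c94e81))) 
(.lf (nat_lit 57854320) (dlOf (nat_lit 1) (nat_lit 0x3b8008000400200960009794e83)))) 
(.nd (nat_lit 6) (.lf (nat_lit 8052016) (dlOf (nat_lit 1) (nat_lit 0x80040006000851c702))) 
(.nd (nat_lit 23) (.lf (nat_lit 37407088) (dlOf (nat_lit 1) (nat_lit 0x8002000600090d4e82))) 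
(.lf (nat_lit 62572912) (dlOf (nat_lit 1) (nat_lit 0x80080004002000200099a4e83))))))) 
(.nd (nat_lit 21) (.nd (nat_lit 20) (.nd (nat_lit 22) 
(.lf (nat_lit 4094085488) (dlOf (nat_lit 1) (nat_lit 0x200008004e81))) 
(.lf (nat_lit 474401136) (dlOf (nat_lit 2) (nat_lit 0x28334014d804000400400020019164e82)))) 
(.nd (nat_lit 2) (.nd (nat_lit 22) 
(.lf (nat_lit 1008126320) (dlOf (nat_lit 1) (nat_lit 0x1600289e4e81))) 
(.lf (nat_lit 39242096) (dlOf (nat_lit 1) (nat_lit 0x8008001800200080009194e83)))) 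
(.lf (nat_lit 39766388) (dlOf (nat_lit 1) (nat_lit 0x680080004002000200091f4e83))))) 
(.nd (nat_lit 2) (.nd (nat_lit 19) (.nd (nat_lit 22) 
(.lf (nat_lit 69650800) (dlOf (nat_lit 1) (nat_lit 0x8008000400200020008b94e83))) 
(.lf (nat_lit 57067888) (dlOf (nat_lit 1) (nat_lit 0x400400020019794e82)))) 
(.lf (nat_lit 49203568) (dlOf (nat_lit 1) (nat_lit 0x400200020009464e82)))) (.nd (nat_lit 6) 
(.lf (nat_lit 19843892) (dlOf (nat_lit 1) (nat_lit 0x4002000200089d5c02))) 
(.lf (nat_lit 19848564) (dlOf (nat_lit 1) (nat_lit 0x344002011a00089dc902)))))))) (.nd (nat_lit 19) 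
(.nd (nat_lit 6) (.nd (nat_lit 29) (.nd (nat_lit 23) (.nd (nat_lit 2) (.nd (nat_lit 9) 
(.lf (nat_lit 3221413296) (dlOf (nat_lit 3) (nat_lit 0xc0430002281005602280000008018000800880020048000811cc83))) 
(.lf (nat_lit 3355628464) (dlOf (nat_lit 1) (nat_lit 0x200280a9181)))) 
(.lf (nat_lit 3221408180) (dlOf (nat_lit 2) (nat_lit 0x12000005aec08001800800cc00200260008114e83)))) 
(.nd (nat_lit 2) (.nd (nat_lit 9) 
(.lf (nat_lit 8570288) (dlOf (nat_lit 1) (nat_lit 0x400200020008513602))) 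
(.lf (nat_lit 8570800) (dlOf (nat_lit 1) (nat_lit 0x1a0018514381)))) 
(.lf (nat_lit 8570292) (dlOf (nat_lit 1) (nat_lit 0x400200020008513602))))) (.nd (nat_lit 30) 
(.nd (nat_lit 2) (.nd (nat_lit 9) 
(.lf (nat_lit 805749168) (dlOf (nat_lit 3) (nat_lit 0xb4084006f902006c0420037b8181a0780))) 
(.lf (nat_lit 738380720) (dlOf (nat_lit 3) (nat_lit 0xe02a0001e0100010150000ec080110008003800200720008095d03)))) 
(.lf (nat_lit 805749172) (dlOf (nat_lit 3) (nat_lit 0x104084006f90200400420037b8181a0780)))) 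
(.nd (nat_lit 2) (.nd (nat_lit 9) 
(.lf (nat_lit 1678164400) (dlOf (nat_lit 2) (nat_lit 0xb4042006518181a0780))) 
(.lf (nat_lit 1677903792) (dlOf (nat_lit 1) (nat_lit 0x4600080004002004e0008114383)))) 
(.lf (nat_lit 1678164404) (dlOf (nat_lit 2) (nat_lit 0x30042006518181a0780)))))) (.nd (nat_lit 26) 
(.nd (nat_lit 10) (.nd (nat_lit 2) (.nd (nat_lit 18) 
(.lf (nat_lit 60998640) (dlOf (nat_lit 1) (nat_lit 0x200298c2881))) 
(.lf (nat_lit 1476838384) (dlOf (nat_lit 1) (nat_lit 0x20018202881)))) 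
(.lf (nat_lit 939704820) (dlOf (nat_lit 6) (nat_lit 0x3440160188009008900200618000000ba1000a40160040009002000000017018018802c00c40120004004002f00000014420003002c0004012000c000000280300260058001100801400080040002000c0008157e03)))) 
(.nd (nat_lit 2) (.nd (nat_lit 23) 
(.lf (nat_lit 5637326320) (dlOf (nat_lit 1) (nat_lit 0x1c00280d3601))) 
(.lf (nat_lit 8570352) (dlOf (nat_lit 1) (nat_lit 0x400200020008513602)))) 
(.lf (nat_lit 3221409268) (dlOf (nat_lit 2) (nat_lit 0x2780c40004e04001000400020008116f02))))) 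
(.nd (nat_lit 2) (.nd (nat_lit 11) (.nd (nat_lit 10) 
(.lf (nat_lit 474137072) (dlOf (nat_lit 16) (nat_lit 0x1a891800e446c0004f040004246001011b0001381001a091800dc46c0004c040032092002203f8001201000c824800880fe00047040030092002003f8001101000d0248008c0fe00043040040092001e03f800108100058918003446c0018092000e03f8001002000d8248008c0fe0003e04000407f0001d810009123000708d80028124002007f0001c04000f123000a08d80006e0800d448c006e2360001a82000c11b0000d00800580080024002001c00090e1383))) 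
(.lf (nat_lit 3422737904) (dlOf (nat_lit 2) (nat_lit 0xa0190029b40800600080018002000200080a9c03)))) 
(.nd (nat_lit 9) 
(.lf (nat_lit 2751650288) (dlOf (nat_lit 1) (nat_lit 0xa80080054002005e000800b283))) 
(.lf (nat_lit 1141033968) (dlOf (nat_lit 1) (nat_lit 0x180018095f01))))) (.nd (nat_lit 11) 
(.nd (nat_lit 27) 
(.lf (nat_lit 4362256884) (dlOf (nat_lit 4) (nat_lit 0x2180560006602028402b000208100830158000fc0800400080108002003e0008017e03))) 
(.lf (nat_lit 201507316) (dlOf (nat_lit 1) (nat_lit 0x20018017e01)))) 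
(.lf (nat_lit 2751650292) (dlOf (nat_lit 1) (nat_lit 0x40040002000800b282))))))) (.nd (nat_lit 2) 
(.nd (nat_lit 11) (.nd (nat_lit 6) (.nd (nat_lit 10) 
(.lf (nat_lit 8049072) (dlOf (nat_lit 1) (nat_lit 0x8008001800200060008518483))) (.nd (nat_lit 18) 
(.lf (nat_lit 8046000) (dlOf (nat_lit 1) (nat_lit 0x20008513601))) 
(.lf (nat_lit 70174128) (dlOf (nat_lit 1) (nat_lit 0x800400020008fa3602))))) (.nd (nat_lit 9) 
(.nd (nat_lit 10) (.lf (nat_lit 8049136) (dlOf (nat_lit 1) (nat_lit 0x10008000c00200060008518683))) 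
(.lf (nat_lit 8046064) (dlOf (nat_lit 1) (nat_lit 0x400200020008513602)))) (.nd (nat_lit 18) 
(.lf (nat_lit 738903024) (dlOf (nat_lit 1) (nat_lit 0x20018122881))) 
(.lf (nat_lit 34522096) (dlOf (nat_lit 1) (nat_lit 0x20018fb2881)))))) (.nd (nat_lit 20) 
(.nd (nat_lit 18) (.lf (nat_lit 707056) (dlOf (nat_lit 1) (nat_lit 0x400200020008004f02))) 
(.lf (nat_lit 38717936) (dlOf (nat_lit 1) (nat_lit 0x20019134f01)))) (.nd (nat_lit 12) 
(.nd (nat_lit 22) (.lf (nat_lit 37407216) (dlOf (nat_lit 1) (nat_lit 0x8002000200090d4f02))) 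
(.lf (nat_lit 33212912) (dlOf (nat_lit 1) (nat_lit 0x1400200100008f54f02)))) 
(.lf (nat_lit 8051184) (dlOf (nat_lit 1) (nat_lit 0x40040002000851b282)))))) (.nd (nat_lit 22) 
(.nd (nat_lit 28) (.nd (nat_lit 11) 
(.lf (nat_lit 2753217012) (dlOf (nat_lit 2) (nat_lit 0xe1ff00113818090d80))) 
(.lf (nat_lit 37407220) (dlOf (nat_lit 1) (nat_lit 0x8002000200090d4f02)))) (.nd (nat_lit 6) 
(.lf (nat_lit 3491414452) (dlOf (nat_lit 2) (nat_lit 0x443cc007090200160028090781))) 
(.lf (nat_lit 3491414516) (dlOf (nat_lit 2) (nat_lit 0xe1ed00113818090d80))))) (.nd (nat_lit 6) 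
(.nd (nat_lit 9) (.lf (nat_lit 8046004) (dlOf (nat_lit 1) (nat_lit 0x400200020008513602))) 
(.lf (nat_lit 8048564) (dlOf (nat_lit 1) (nat_lit 0x69800802e000200d00008517a83)))) 
(.nd (nat_lit 10) (.nd (nat_lit 11) 
(.lf (nat_lit 8049140) (dlOf (nat_lit 1) (nat_lit 0x10008001000200060008518683))) 
(.lf (nat_lit 8051188) (dlOf (nat_lit 1) (nat_lit 0x2c001851b281)))) 
(.lf (nat_lit 8046068) (dlOf (nat_lit 1) (nat_lit 0x80018513601))))))))) (.nd (nat_lit 2) 
(.nd (nat_lit 19) (.nd (nat_lit 29) (.nd (nat_lit 7) (.nd (nat_lit 11) (.nd (nat_lit 10) 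
(.lf (nat_lit 3221668216) (dlOf (nat_lit 1) (nat_lit 0x28008000800200040008170783))) 
(.lf (nat_lit 43173240) (dlOf (nat_lit 3) (nat_lit 0x954900005e04013ea480002e02000200292a3501)))) 
(.nd (nat_lit 9) 
(.lf (nat_lit 1543686520) (dlOf (nat_lit 1) (nat_lit 0xe8008002c002001c0008144e83))) 
(.lf (nat_lit 1141033848) (dlOf (nat_lit 1) (nat_lit 0x20018095c01))))) (.nd (nat_lit 9) 
(.nd (nat_lit 10) 
(.lf (nat_lit 4362256888) (dlOf (nat_lit 6) (nat_lit 0x13701580019c0809980ac000cc0404a00560004102026602b000200100770158000fc080110008004800200280008017e03))) 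
(.lf (nat_lit 3422737912) (dlOf (nat_lit 1) (nat_lit 0x4c00280a9c01)))) (.nd (nat_lit 11) 
(.lf (nat_lit 43172856) (dlOf (nat_lit 1) (nat_lit 0x200192a2881))) (.nd (nat_lit 20) 
(.lf (nat_lit 1141033976) (dlOf (nat_lit 1) (nat_lit 0x60028095f01))) 
(.lf (nat_lit 473091064) (dlOf (nat_lit 3) (nat_lit 0xa01650001901005f0b28000c4080048008002000200520008c95f03))))))) 
(.nd (nat_lit 7) (.nd (nat_lit 9) (.nd (nat_lit 26) 
(.lf (nat_lit 805749112) (dlOf (nat_lit 12) (nat_lit 0x2c021001c3008008010800e14040170084007080200340420038381002b021001c180800f010800e080400a40840070302003204200380010027021001bfc08015010800dfc0400a8084006fc02000200181a0781))) 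
(.lf (nat_lit 4228301176) (dlOf (nat_lit 2) (nat_lit 0x10040004b01600225c1000780080140002002e0008090783)))) 
(.nd (nat_lit 6) 
(.lf (nat_lit 671270712) (dlOf (nat_lit 1) (nat_lit 0x10008000800200040008143e03))) 
(.lf (nat_lit 604425080) (dlOf (nat_lit 2) (nat_lit 0x7e02000117018205c00))))) (.nd (nat_lit 9) 
(.nd (nat_lit 10) 
(.lf (nat_lit 939704824) (dlOf (nat_lit 18) (nat_lit 0xa802400540000005f04012a00b006b0048033001001ac0000005e08006200b0015004800a8000000ba0c025001600d8009006600200360000000b81000e4016000c0040002d82001400000014808019002c000960400c00160004902007400b0002401003a00580011c0801a002c002c008001e0000002203003800580050010000860800e40160004202003e00b000200100110058000f40800280000005e040050000000050200460028157e01))) 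
(.nd (nat_lit 12) (.lf (nat_lit 805490168) (dlOf (nat_lit 1) (nat_lit 0x180018116f81))) 
(.lf (nat_lit 3020086776) (dlOf (nat_lit 1) (nat_lit 0x8002812cd01))))) (.nd (nat_lit 10) 
(.lf (nat_lit 604425208) (dlOf (nat_lit 1) (nat_lit 0x40018205f01))) 
(.lf (nat_lit 537057272) (dlOf (nat_lit 1) (nat_lit 0x40020002000800a602))))))) (.nd (nat_lit 7) 
(.nd (nat_lit 6) (.nd (nat_lit 20) (.nd (nat_lit 9) 
(.lf (nat_lit 1410253112) (dlOf (nat_lit 2) (nat_lit 0x11e074000128181b0580))) 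
(.lf (nat_lit 19843896) (dlOf (nat_lit 1) (nat_lit 0x4002000200089d5c02)))) (.nd (nat_lit 10) 
(.lf (nat_lit 46055736) (dlOf (nat_lit 1) (nat_lit 0x380029380b81))) 
(.lf (nat_lit 8049976) (dlOf (nat_lit 1) (nat_lit 0x400200020008519902))))) (.nd (nat_lit 9) 
(.nd (nat_lit 26) 
(.lf (nat_lit 3491414392) (dlOf (nat_lit 6) (nat_lit 0x281e6003850100140f3001c200800a079800e0e04000c3cc007040200261e50034e018090780))) 
(.lf (nat_lit 6377095544) (dlOf (nat_lit 1) (nat_lit 0x800280a7d01)))) (.nd (nat_lit 10) 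
(.lf (nat_lit 54446968) (dlOf (nat_lit 1) (nat_lit 0xf400080044002001c0009655c03))) 
(.lf (nat_lit 8050552) (dlOf (nat_lit 1) (nat_lit 0x6000800040020008000851a303)))))) 
(.nd (nat_lit 11) (.nd (nat_lit 10) (.nd (nat_lit 18) 
(.lf (nat_lit 8044984) (dlOf (nat_lit 1) (nat_lit 0x50008000400200040008511003))) 
(.lf (nat_lit 2752430520) (dlOf (nat_lit 1) (nat_lit 0x400200020008017782)))) (.nd (nat_lit 9) 
(.nd (nat_lit 18) (.lf (nat_lit 8046008) (dlOf (nat_lit 1) (nat_lit 0x400200020008513602))) 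
(.lf (nat_lit 8308152) (dlOf (nat_lit 1) (nat_lit 0x8008000400200020008513603)))) 
(.lf (nat_lit 19847096) (dlOf (nat_lit 2) (nat_lit 0x36c20001b264003d90c0006a06000400189da501))))) 
(.nd (nat_lit 9) (.nd (nat_lit 12) 
(.lf (nat_lit 37407224) (dlOf (nat_lit 1) (nat_lit 0x400200a800090d4f82))) 
(.lf (nat_lit 8051192) (dlOf (nat_lit 1) (nat_lit 0x40040002000851b282)))) (.nd (nat_lit 6) 
(.lf (nat_lit 4094610360) (dlOf (nat_lit 1) (nat_lit 0x100018055d01))) 
(.lf (nat_lit 54447096) (dlOf (nat_lit 2) (nat_lit 0x19cdc0006204000400200020009655f02)))))))) 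
(.nd (nat_lit 6) (.nd (nat_lit 18) (.nd (nat_lit 7) (.nd (nat_lit 10) (.nd (nat_lit 11) 
(.nd (nat_lit 20) 
(.lf (nat_lit 3624059196) (dlOf (nat_lit 2) (nat_lit 0x180000002e04010c002005400080b0582))) 
(.lf (nat_lit 4094869820) (dlOf (nat_lit 1) (nat_lit 0x40008000400200380008050b83)))) 
(.lf (nat_lit 8046908) (dlOf (nat_lit 1) (nat_lit 0x800200020008514c82)))) (.nd (nat_lit 11) 
(.lf (nat_lit 8049980) (dlOf (nat_lit 1) (nat_lit 0x400200020008519902))) 
(.lf (nat_lit 805489980) (dlOf (nat_lit 1) (nat_lit 0x20018116901))))) (.nd (nat_lit 21) 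
(.nd (nat_lit 11) (.nd (nat_lit 26) 
(.lf (nat_lit 3491414460) (dlOf (nat_lit 3) (nat_lit 0x1d83cc000360200e21e600007018090880))) 
(.lf (nat_lit 2753216956) (dlOf (nat_lit 3) (nat_lit 0x1d83f0000360200e21f800007818090880)))) 
(.lf (nat_lit 738380220) (dlOf (nat_lit 1) (nat_lit 0xa0028094e81)))) (.nd (nat_lit 9) 
(.nd (nat_lit 10) 
(.lf (nat_lit 11715004) (dlOf (nat_lit 2) (nat_lit 0xdcf3c0003f02000200286c0881))) 
(.lf (nat_lit 8050108) (dlOf (nat_lit 1) (nat_lit 0x8008000400200020008519a03)))) 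
(.lf (nat_lit 8049596) (dlOf (nat_lit 1) (nat_lit 0x8008000400200060008519203)))))) 
(.nd (nat_lit 26) (.nd (nat_lit 28) (.nd (nat_lit 7) 
(.lf (nat_lit 50251068) (dlOf (nat_lit 1) (nat_lit 0x100080010002000200094c3283))) 
(.nd (nat_lit 27) 
(.lf (nat_lit 3221668284) (dlOf (nat_lit 2) (nat_lit 0x900f00000004002c00400220008170882))) 
(.lf (nat_lit 134660540) (dlOf (nat_lit 2) (nat_lit 0x580000000004004400200080008090882))))) 
(.nd (nat_lit 7) (.lf (nat_lit 1881588028) (dlOf (nat_lit 1) (nat_lit 0x20008f60b81))) 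
(.nd (nat_lit 19) (.nd (nat_lit 27) 
(.lf (nat_lit 805749180) (dlOf (nat_lit 7) (nat_lit 0x225021000780380009408009001a000200b001a0000000fc181118108004401c00080000001d83022b0210009003800140000003a0601440420000b01002c02100004c0808600080294002011200081a0883))) 
(.lf (nat_lit 1476837820) (dlOf (nat_lit 1) (nat_lit 0x1000400040008201082)))) 
(.lf (nat_lit 1881063868) (dlOf (nat_lit 1) (nat_lit 0x140008de7a81)))))) (.nd (nat_lit 27) 
(.nd (nat_lit 7) 
(.lf (nat_lit 1410253116) (dlOf (nat_lit 2) (nat_lit 0x580000002e0400cc002007600081b0582))) 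
(.nd (nat_lit 29) 
(.lf (nat_lit 4362518972) (dlOf (nat_lit 7) (nat_lit 0x605600b501580012810012815400500540003f04003005600b50158000ec10003015802e00560003a0400ca02b0000a81000201580004c080168008000800200040008090883))) 
(.lf (nat_lit 1678164412) (dlOf (nat_lit 7) (nat_lit 0x225021000780380009408009001a000200b001a0000000fc181118108004401c00080000001d83022b0210009003800140000003a0601440420000a81002c02100004c0808600080294002011200081a0883))))) 
(.nd (nat_lit 28) (.nd (nat_lit 29) 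
(.lf (nat_lit 201769404) (dlOf (nat_lit 2) (nat_lit 0x580000000004004400200080008090882))) 
(.lf (nat_lit 3959865788) (dlOf (nat_lit 2) (nat_lit 0x900f00000004002c00400220008170882)))) 
(.lf (nat_lit 4228301244) (dlOf (nat_lit 7) (nat_lit 0x604f00b501500012810012813800500520003f04003004f00b50150000ec10003013c02e00540003a0400ca02a0000b01000201500004c080168008000800200040008090883))))))) 
(.nd (nat_lit 7) (.nd (nat_lit 30) (.nd (nat_lit 18) (.nd (nat_lit 10) 
(.lf (nat_lit 2483208572) (dlOf (nat_lit 1) (nat_lit 0x400400020018090782))) 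
(.lf (nat_lit 8045948) (dlOf (nat_lit 1) (nat_lit 0x400200020008513582)))) (.nd (nat_lit 20) 
(.nd (nat_lit 27) 
(.lf (nat_lit 805749116) (dlOf (nat_lit 6) (nat_lit 0x6604200385810008021001c2808023010800e100400a0084007070200320420037b0181a0780))) 
(.lf (nat_lit 134660476) (dlOf (nat_lit 2) (nat_lit 0x1a00a801fbc0800780080124002001a0008090783)))) 
(.lf (nat_lit 2755051900) (dlOf (nat_lit 1) (nat_lit 0x58008001400200160008105a83))))) 
(.nd (nat_lit 11) (.nd (nat_lit 18) 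
(.lf (nat_lit 3491414396) (dlOf (nat_lit 3) (nat_lit 0x443cc0070b02001e1e600384018090780))) 
(.nd (nat_lit 20) (.lf (nat_lit 3221668220) (dlOf (nat_lit 1) (nat_lit 0x40018170781))) 
(.lf (nat_lit 3493249404) (dlOf (nat_lit 1) (nat_lit 0x58008001400200160008105a83))))) 
(.nd (nat_lit 9) (.lf (nat_lit 1745275260) (dlOf (nat_lit 1) (nat_lit 0x1a00280e4e81))) 
(.lf (nat_lit 3758280572) (dlOf (nat_lit 3) (nat_lit 0x480d40139e0400f406a009ce0200020028127781)))))) 
(.nd (nat_lit 26) (.nd (nat_lit 11) (.nd (nat_lit 12) (.nd (nat_lit 20) 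
(.lf (nat_lit 939704828) (dlOf (nat_lit 16) (nat_lit 0x9f00c010d802c070801203a600401b2000000174280440060089c016038000901d400200d88000000b8140214000000540202680000002901022500580e300240778008038a0000002884022800580e10024078000803860000002804014000000013808126002c012401203fc00401e000000013020125802c080c00803d80000002503024c00580f48010000900807bc030046800b01da00200ed00000008410008c0160003f02001400b0001e8101820000000e40806e00000000e04011c00400040008157e02))) 
(.lf (nat_lit 9617916) (dlOf (nat_lit 1) (nat_lit 0x400200020008577e02)))) 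
(.lf (nat_lit 8049148) (dlOf (nat_lit 1) (nat_lit 0x20008000400200020008518683)))) (.nd (nat_lit 9) 
(.lf (nat_lit 37407228) (dlOf (nat_lit 1) (nat_lit 0x4002018400090d4f82))) 
(.lf (nat_lit 59952124) (dlOf (nat_lit 1) (nat_lit 0x400400020009845f02))))) (.nd (nat_lit 27) 
(.nd (nat_lit 9) 
(.lf (nat_lit 4362256892) (dlOf (nat_lit 5) (nat_lit 0xc300ac000ce0407780560006602032202b0002081018b0158000fc0801380080038002016e0008017e03))) 
(.lf (nat_lit 1141033980) (dlOf (nat_lit 1) (nat_lit 0x20028095f01)))) (.nd (nat_lit 10) 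
(.nd (nat_lit 28) 
(.lf (nat_lit 201507324) (dlOf (nat_lit 2) (nat_lit 0x128000000220200600028017e01))) 
(.lf (nat_lit 469942780) (dlOf (nat_lit 1) (nat_lit 0x2000400040018017e02)))) 
(.lf (nat_lit 6375785980) (dlOf (nat_lit 1) (nat_lit 0x20028003681))))))))))))

end

end Pool.Agent.Lib.MP_5854e1_co.Cz

namespace Pool.Agent.Lib.MP_5854e1_co.Cz

noncomputable section

noncomputable def tz93 : DT := (.nd (nat_lit 2) (.nd (nat_lit 5) (.nd (nat_lit 18) (.nd (nat_lit 3) 
(.nd (nat_lit 6) (.nd (nat_lit 26) (.nd (nat_lit 19) (.nd (nat_lit 29) (.nd (nat_lit 20) 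
(.nd (nat_lit 21) (.nd (nat_lit 23) 
(.lf (nat_lit 6442696720) (dlOf (nat_lit 1) (nat_lit 0x400200060008160202))) 
(.lf (nat_lit 25411600) (dlOf (nat_lit 1) (nat_lit 0x400200020008c00102)))) 
(.lf (nat_lit 27508752) (dlOf (nat_lit 1) (nat_lit 0x20018cf0201)))) (.nd (nat_lit 9) 
(.lf (nat_lit 60017680) (dlOf (nat_lit 1) (nat_lit 0x20029845f81))) 
(.lf (nat_lit 41140752) (dlOf (nat_lit 1) (nat_lit 0x500029227b81))))) (.nd (nat_lit 27) 
(.nd (nat_lit 7) 
(.lf (nat_lit 537116688) (dlOf (nat_lit 4) (nat_lit 0x15016400540480006021000ac83000802f8003a40800301500000004008400400240008020482))) 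
(.lf (nat_lit 6174262672) (dlOf (nat_lit 1) (nat_lit 0xa00180d3601)))) (.nd (nat_lit 9) 
(.nd (nat_lit 30) (.lf (nat_lit 3087253520) (dlOf (nat_lit 1) (nat_lit 0x200018160481))) 
(.lf (nat_lit 2013511696) (dlOf (nat_lit 2) (nat_lit 0x14013001f5c0800380080008002000600080d0003)))) 
(.lf (nat_lit 671334928) (dlOf (nat_lit 8) (nat_lit 0x14802c00b2014804280980258046010c020007900e803c006000ac02000a2009001b003003a00140180000004c61800c4023000d0100013141002e00a4016804c012c0230086010002d80740224030001a0100042004004a001400900040084000002620b009d011804300800240030007000800570028012c428041808c0174040001601d008f00c001a802001c000a004b00c0146023008f01000498060011001000fc00500253850001000000fe00802e0008089400202c60008158403)))))) 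
(.nd (nat_lit 20) (.nd (nat_lit 10) (.nd (nat_lit 21) (.nd (nat_lit 22) 
(.lf (nat_lit 537640976) (dlOf (nat_lit 4) (nat_lit 0xa0096000410200220300001f81002a0180000f4080390008000400200b400080e0103))) 
(.lf (nat_lit 21741584) (dlOf (nat_lit 1) (nat_lit 0x8008000c00200040008a70483)))) 
(.lf (nat_lit 3492528144) (dlOf (nat_lit 3) (nat_lit 0x83d401a450200021fa00d218180d0880)))) 
(.nd (nat_lit 8) (.lf (nat_lit 46910480) (dlOf (nat_lit 2) (nat_lit 0x86f70002b019385f80))) 
(.lf (nat_lit 55297296) (dlOf (nat_lit 2) (nat_lit 0x3098e000190196d3000))))) (.nd (nat_lit 12) 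
(.nd (nat_lit 8) (.lf (nat_lit 18595856) (dlOf (nat_lit 1) (nat_lit 0x4004000a0008950682))) 
(.lf (nat_lit 58443024) (dlOf (nat_lit 1) (nat_lit 0x600097e3001)))) (.nd (nat_lit 7) 
(.lf (nat_lit 8116240) (dlOf (nat_lit 1) (nat_lit 0x40040002000851a602))) 
(.lf (nat_lit 8114832) (dlOf (nat_lit 1) (nat_lit 0x8008000800200020008518c83))))))) 
(.nd (nat_lit 28) (.nd (nat_lit 30) (.nd (nat_lit 7) (.nd (nat_lit 19) 
(.lf (nat_lit 604225552) (dlOf (nat_lit 1) (nat_lit 0x800280c0281))) 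
(.lf (nat_lit 2754330640) (dlOf (nat_lit 3) (nat_lit 0x83f801daa02000220f00ed40180d0880)))) 
(.lf (nat_lit 2751711120) (dlOf (nat_lit 2) (nat_lit 0x208800007018004200)))) (.nd (nat_lit 10) 
(.nd (nat_lit 29) 
(.lf (nat_lit 1141096464) (dlOf (nat_lit 2) (nat_lit 0x140130035480800380080008002000600080d0003))) 
(.lf (nat_lit 3825451024) (dlOf (nat_lit 1) (nat_lit 0x200018160481)))) 
(.lf (nat_lit 3959669776) (dlOf (nat_lit 2) (nat_lit 0x480380289804000800400020018112882))))) 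
(.nd (nat_lit 27) (.nd (nat_lit 8) (.nd (nat_lit 19) 
(.lf (nat_lit 1409531920) (dlOf (nat_lit 4) (nat_lit 0x15016400540480006021000f503000802f8005e00800301500000004008400400240008020482))) 
(.lf (nat_lit 1410056208) (dlOf (nat_lit 4) (nat_lit 0xa0096000410200220300001f81002a0180000f4080390008000400200b400080e0103)))) 
(.nd (nat_lit 7) 
(.lf (nat_lit 3557021968) (dlOf (nat_lit 11) (nat_lit 0x160380002881000801c0001400800480e00008c040010070000450200040380002201000201c0001000800080e00007e0400240700003d0200040380000a81000201c00000c08007000800a0002000c000812aa83))) 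
(.lf (nat_lit 5704500624) (dlOf (nat_lit 1) (nat_lit 0x4002000200080d3602))))) (.nd (nat_lit 20) 
(.nd (nat_lit 21) (.lf (nat_lit 5838716944) (dlOf (nat_lit 1) (nat_lit 0x400200060008160202))) 
(.lf (nat_lit 1008975888) (dlOf (nat_lit 1) (nat_lit 0x18008000800200080009000003)))) 
(.nd (nat_lit 19) 
(.lf (nat_lit 471056400) (dlOf (nat_lit 1) (nat_lit 0x8008000800200040008260283))) 
(.lf (nat_lit 471580688) (dlOf (nat_lit 1) (nat_lit 0x18008000800200060008340283)))))))) 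
(.nd (nat_lit 19) (.nd (nat_lit 26) (.nd (nat_lit 23) (.nd (nat_lit 8) (.nd (nat_lit 9) 
(.lf (nat_lit 939769936) (dlOf (nat_lit 3) (nat_lit 0x320038001000800880980044044003a01d00110088000b02001980080068002009a0008171003))) 
(.nd (nat_lit 10) 
(.lf (nat_lit 2818822736) (dlOf (nat_lit 1) (nat_lit 0x8008000400200020008128983))) 
(.lf (nat_lit 1610860112) (dlOf (nat_lit 1) (nat_lit 0x400200020008093882))))) (.nd (nat_lit 27) 
(.lf (nat_lit 805552464) (dlOf (nat_lit 12) (nat_lit 0x1f004800780140006904006a012001b0050001a01002e804800700140006704006a01200230050001981000d80280008a0400d40240004402006801200021010035009000e0028000800800e4024003600a0001f8200030050000f4080010044000480400dc004004e0008124d02))) 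
(.lf (nat_lit 671334736) (dlOf (nat_lit 2) (nat_lit 0x80000005004002c00200380008154d82))))) 
(.nd (nat_lit 7) (.nd (nat_lit 21) 
(.lf (nat_lit 63160400) (dlOf (nat_lit 2) (nat_lit 0x19826a0000380802180080054002007200099e0703))) 
(.lf (nat_lit 14925904) (dlOf (nat_lit 1) (nat_lit 0x40018790701)))) 
(.lf (nat_lit 43238608) (dlOf (nat_lit 1) (nat_lit 0x200292a2d81))))) (.nd (nat_lit 8) 
(.nd (nat_lit 7) (.nd (nat_lit 9) 
(.lf (nat_lit 1812185168) (dlOf (nat_lit 3) (nat_lit 0x3200380011c0800880980044044003a01d00110088000b42001980080068002009a0008171003))) 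
(.lf (nat_lit 5704500816) (dlOf (nat_lit 1) (nat_lit 0x200280d3881)))) 
(.lf (nat_lit 474203344) (dlOf (nat_lit 1) (nat_lit 0xc004000800090e2d82)))) (.nd (nat_lit 27) 
(.nd (nat_lit 9) (.lf (nat_lit 1677967696) (dlOf (nat_lit 1) (nat_lit 0x3c004000a0008124d82))) 
(.lf (nat_lit 3557021520) (dlOf (nat_lit 3) (nat_lit 0xc0040001201000100200008008000800800080020002000812a203)))) 
(.nd (nat_lit 7) 
(.lf (nat_lit 2885929296) (dlOf (nat_lit 3) (nat_lit 0xc0208000580800081040000804004800400240018144d82))) 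
(.lf (nat_lit 1543750096) (dlOf (nat_lit 2) (nat_lit 0x3401700000018157100))))))) (.nd (nat_lit 21) 
(.nd (nat_lit 7) (.nd (nat_lit 20) 
(.lf (nat_lit 59490384) (dlOf (nat_lit 1) (nat_lit 0x400400020009800702))) (.nd (nat_lit 26) 
(.lf (nat_lit 5773181008) (dlOf (nat_lit 1) (nat_lit 0x400280b0681))) 
(.lf (nat_lit 6377160784) (dlOf (nat_lit 1) (nat_lit 0x400280b0681))))) (.nd (nat_lit 8) 
(.lf (nat_lit 5772133584) (dlOf (nat_lit 1) (nat_lit 0x8008000c00200080008092d83))) 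
(.lf (nat_lit 2752235472) (dlOf (nat_lit 1) (nat_lit 0x40028004501))))) (.nd (nat_lit 7) 
(.nd (nat_lit 9) (.nd (nat_lit 11) 
(.lf (nat_lit 45858896) (dlOf (nat_lit 3) (nat_lit 0x129b9f00a6daec0007e0800440000000f0200120029360701))) 
(.lf (nat_lit 8112208) (dlOf (nat_lit 1) (nat_lit 0x400400020008514702)))) 
(.lf (nat_lit 32229968) (dlOf (nat_lit 1) (nat_lit 0x400400020008ef5282)))) (.nd (nat_lit 8) 
(.lf (nat_lit 8114384) (dlOf (nat_lit 1) (nat_lit 0x400400020018518082))) 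
(.lf (nat_lit 8111568) (dlOf (nat_lit 1) (nat_lit 0x8008000400200020008513603)))))))) 
(.nd (nat_lit 6) (.nd (nat_lit 19) (.nd (nat_lit 26) (.nd (nat_lit 23) (.nd (nat_lit 27) 
(.nd (nat_lit 20) (.nd (nat_lit 28) 
(.lf (nat_lit 4295213080) (dlOf (nat_lit 1) (nat_lit 0x200280b0a01))) 
(.lf (nat_lit 2953035800) (dlOf (nat_lit 1) (nat_lit 0x200280c0481)))) 
(.lf (nat_lit 18071576) (dlOf (nat_lit 2) (nat_lit 0x62fa801d00080060008001800200240008900a03)))) 
(.nd (nat_lit 8) (.lf (nat_lit 4429430808) (dlOf (nat_lit 1) (nat_lit 0x200280b0a01))) 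
(.lf (nat_lit 4161000216) (dlOf (nat_lit 1) (nat_lit 0x4004000200180a8f82))))) (.nd (nat_lit 20) 
(.nd (nat_lit 22) (.lf (nat_lit 27508760) (dlOf (nat_lit 1) (nat_lit 0xc00200020008cf0482))) 
(.lf (nat_lit 14925848) (dlOf (nat_lit 1) (nat_lit 0x20028790081)))) (.nd (nat_lit 7) 
(.lf (nat_lit 26460184) (dlOf (nat_lit 2) (nat_lit 0xfc8e0007f00801d0008003800200060008c50083))) 
(.lf (nat_lit 62111896) (dlOf (nat_lit 1) (nat_lit 0x340009951181)))))) (.nd (nat_lit 11) 
(.nd (nat_lit 7) (.nd (nat_lit 20) 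
(.lf (nat_lit 2753806360) (dlOf (nat_lit 1) (nat_lit 0x40028090001))) 
(.lf (nat_lit 471056408) (dlOf (nat_lit 2) (nat_lit 0x7827400000040004004000e0018260482)))) 
(.lf (nat_lit 3288580504) (dlOf (nat_lit 1) (nat_lit 0x10008004000200360008090783)))) 
(.nd (nat_lit 9) 
(.lf (nat_lit 4630760472) (dlOf (nat_lit 1) (nat_lit 0x60008006400200180008096003))) 
(.lf (nat_lit 3959675416) (dlOf (nat_lit 1) (nat_lit 0x16002811b281)))))) (.nd (nat_lit 20) 
(.nd (nat_lit 28) (.nd (nat_lit 8) (.nd (nat_lit 23) 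
(.lf (nat_lit 537640984) (dlOf (nat_lit 4) (nat_lit 0x1900a200fa03f00640190032001c000641001d40a201a403f006b0190000c41803c8144019007e00c803200670038000bc2001800080004002001600080e0383))) 
(.lf (nat_lit 9158680) (dlOf (nat_lit 1) (nat_lit 0x2c0018520581)))) 
(.lf (nat_lit 9158936) (dlOf (nat_lit 1) (nat_lit 0xc00200020008524b02)))) (.nd (nat_lit 7) 
(.lf (nat_lit 1410056216) (dlOf (nat_lit 4) (nat_lit 0x1900a200fa03f00640190032001c0005e1001d40a201a403f006b0190000b81803c8144019007e00c803200670038000b02001800080004002001600080e0383))) 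
(.nd (nat_lit 10) (.lf (nat_lit 5772132504) (dlOf (nat_lit 1) (nat_lit 0x80018090501))) 
(.lf (nat_lit 5772133528) (dlOf (nat_lit 2) (nat_lit 0x60a30007e80800380080018002000e0008092b83)))))) 
(.nd (nat_lit 10) (.nd (nat_lit 22) 
(.lf (nat_lit 18595864) (dlOf (nat_lit 1) (nat_lit 0x20008950681))) (.nd (nat_lit 23) 
(.lf (nat_lit 22790168) (dlOf (nat_lit 1) (nat_lit 0x980008b20481))) 
(.lf (nat_lit 31178776) (dlOf (nat_lit 1) (nat_lit 0xc0008e70581))))) (.nd (nat_lit 7) 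
(.lf (nat_lit 8115224) (dlOf (nat_lit 1) (nat_lit 0x20008519201))) 
(.lf (nat_lit 8116120) (dlOf (nat_lit 1) (nat_lit 0x2001851a301))))))) (.nd (nat_lit 7) 
(.nd (nat_lit 9) (.nd (nat_lit 8) (.nd (nat_lit 27) 
(.lf (nat_lit 4563648600) (dlOf (nat_lit 14) (nat_lit 0x6a034003000f8000541001480d0005005e004601f0000a03009001a004700c8023c03e01120150000984001801a002400c8012802a007201200009040054019002a8054012802400011060112032008500a80380048000200c00680680000b0200440340000381002801a0000100801c00d00000604009c0680000202004e0340000081000401a0000000803b00080078002004400080b0703))) 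
(.lf (nat_lit 4697866328) (dlOf (nat_lit 14) (nat_lit 0x6a034003000f8000541001480d0005005e004601f0000a03009001a004700c8023c03e01120150000984001801a002400c8012802a007201200009040054019002a8054012802400011060112032008500a80380048000200c00680680000b0200440340000381002801a0000100801c00d00000604009c0680000202004e0340000081000401a0000000803b00080078002004400080b0703)))) 
(.nd (nat_lit 19) (.nd (nat_lit 27) 
(.lf (nat_lit 805552472) (dlOf (nat_lit 4) (nat_lit 0x1bc0140002e02002400a0001681006f005000060080088008000400200840008124d83))) 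
(.lf (nat_lit 671334744) (dlOf (nat_lit 1) (nat_lit 0x20018154e01)))) 
(.lf (nat_lit 770392) (dlOf (nat_lit 1) (nat_lit 0x20008000800200020008014e03))))) (.nd (nat_lit 8) 
(.nd (nat_lit 11) (.lf (nat_lit 8110680) (dlOf (nat_lit 1) (nat_lit 0x20018511681))) 
(.lf (nat_lit 32229976) (dlOf (nat_lit 1) (nat_lit 0x20018ef5301)))) (.nd (nat_lit 10) 
(.lf (nat_lit 4496542552) (dlOf (nat_lit 1) (nat_lit 0x380080008002000800080e5c03))) 
(.nd (nat_lit 11) (.lf (nat_lit 3493054296) (dlOf (nat_lit 1) (nat_lit 0x8004000200080f3f82))) 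
(.lf (nat_lit 2818821976) (dlOf (nat_lit 1) (nat_lit 0x20008127781))))))) (.nd (nat_lit 9) 
(.nd (nat_lit 21) (.nd (nat_lit 12) (.nd (nat_lit 26) 
(.lf (nat_lit 1879294168) (dlOf (nat_lit 2) (nat_lit 0x35815c00040a2008804e0011b8380c0480))) 
(.lf (nat_lit 1006878936) (dlOf (nat_lit 2) (nat_lit 0x35815c00040a2008804e0011b8380c0480)))) 
(.lf (nat_lit 2818822360) (dlOf (nat_lit 1) (nat_lit 0x3e0028128081)))) (.nd (nat_lit 26) 
(.lf (nat_lit 2343128) (dlOf (nat_lit 1) (nat_lit 0x400400020008150482))) 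
(.lf (nat_lit 1008976088) (dlOf (nat_lit 1) (nat_lit 0xc004000a0009000982))))) (.nd (nat_lit 11) 
(.nd (nat_lit 8) (.lf (nat_lit 19650264) (dlOf (nat_lit 1) (nat_lit 0x4002000200089da002))) 
(.nd (nat_lit 19) (.lf (nat_lit 5234738136) (dlOf (nat_lit 1) (nat_lit 0x400180d2881))) 
(.lf (nat_lit 49005528) (dlOf (nat_lit 1) (nat_lit 0x800400020009462882))))) (.nd (nat_lit 26) 
(.lf (nat_lit 6308482008) (dlOf (nat_lit 1) (nat_lit 0x200280d5e01))) 
(.lf (nat_lit 5570284504) (dlOf (nat_lit 1) (nat_lit 0x4004000200080d5e02))))))))) (.nd (nat_lit 3) 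
(.nd (nat_lit 6) (.nd (nat_lit 28) (.nd (nat_lit 19) (.nd (nat_lit 29) (.nd (nat_lit 22) 
(.nd (nat_lit 7) (.nd (nat_lit 20) 
(.lf (nat_lit 10993680) (dlOf (nat_lit 1) (nat_lit 0x60018650381))) 
(.lf (nat_lit 26722320) (dlOf (nat_lit 1) (nat_lit 0x800200040008c60382)))) 
(.lf (nat_lit 8898448) (dlOf (nat_lit 1) (nat_lit 0x680080034002000e0008514203)))) (.nd (nat_lit 9) 
(.nd (nat_lit 10) (.nd (nat_lit 23) 
(.lf (nat_lit 55033872) (dlOf (nat_lit 1) (nat_lit 0x1080009690001))) 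
(.lf (nat_lit 13090832) (dlOf (nat_lit 4) (nat_lit 0x2b18cc0170c3000bc6000000a030001319800398600000a08000cc300000402002800186f0101)))) 
(.lf (nat_lit 39306256) (dlOf (nat_lit 1) (nat_lit 0x8008000800200020009192883)))) 
(.lf (nat_lit 40356368) (dlOf (nat_lit 1) (nat_lit 0x600291f5081))))) (.nd (nat_lit 27) 
(.nd (nat_lit 20) (.nd (nat_lit 22) 
(.lf (nat_lit 1611120656) (dlOf (nat_lit 2) (nat_lit 0x2055000120180e0100))) 
(.lf (nat_lit 2756165648) (dlOf (nat_lit 2) (nat_lit 0x20070003b004002400400040008210882)))) 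
(.lf (nat_lit 2755117072) (dlOf (nat_lit 1) (nat_lit 0x20008110481)))) (.nd (nat_lit 7) 
(.nd (nat_lit 26) 
(.lf (nat_lit 2819080208) (dlOf (nat_lit 3) (nat_lit 0x4042003190100be0210018bc0801a8008008c00200720008190283))) 
(.lf (nat_lit 738705424) (dlOf (nat_lit 2) (nat_lit 0x2055000078180e0100)))) 
(.lf (nat_lit 2886189200) (dlOf (nat_lit 3) (nat_lit 0xc80380001102000201c00008018183e80)))))) 
(.nd (nat_lit 20) (.nd (nat_lit 24) (.nd (nat_lit 9) 
(.lf (nat_lit 9420816) (dlOf (nat_lit 1) (nat_lit 0x400400020008550482))) 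
(.lf (nat_lit 2752496144) (dlOf (nat_lit 3) (nat_lit 0x58430004b102002c21800258018018400)))) 
(.nd (nat_lit 8) (.lf (nat_lit 17809424) (dlOf (nat_lit 1) (nat_lit 0x50008000c002000c00088f0783))) 
(.lf (nat_lit 51365136) (dlOf (nat_lit 2) (nat_lit 0xcce90001b019513000))))) (.nd (nat_lit 10) 
(.nd (nat_lit 21) 
(.lf (nat_lit 23052304) (dlOf (nat_lit 2) (nat_lit 0x9379c0007604005000400060018b50102))) 
(.lf (nat_lit 46120976) (dlOf (nat_lit 1) (nat_lit 0x60029380001)))) 
(.lf (nat_lit 54512656) (dlOf (nat_lit 2) (nat_lit 0xa25e00015808002800800c800200040009655f83)))))) 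
(.nd (nat_lit 21) (.nd (nat_lit 11) (.nd (nat_lit 7) 
(.lf (nat_lit 3494363152) (dlOf (nat_lit 1) (nat_lit 0xb0008000800200060008210983))) 
(.nd (nat_lit 19) 
(.lf (nat_lit 3624386704) (dlOf (nat_lit 5) (nat_lit 0x6601d0001781003000e8000b40801c80740005404000403a000260200020018183f01))) 
(.lf (nat_lit 1344258192) (dlOf (nat_lit 1) (nat_lit 0x140028520281))))) (.nd (nat_lit 7) 
(.lf (nat_lit 5771873296) (dlOf (nat_lit 1) (nat_lit 0x400200020008005f82))) (.nd (nat_lit 30) 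
(.lf (nat_lit 4563913104) (dlOf (nat_lit 1) (nat_lit 0x300080014002003a0008124e83))) 
(.lf (nat_lit 3490171280) (dlOf (nat_lit 1) (nat_lit 0x400200020008004e82)))))) (.nd (nat_lit 8) 
(.nd (nat_lit 9) (.nd (nat_lit 20) 
(.lf (nat_lit 1009238032) (dlOf (nat_lit 1) (nat_lit 0x200190a0001))) 
(.lf (nat_lit 3493314576) (dlOf (nat_lit 1) (nat_lit 0x20008110481)))) 
(.lf (nat_lit 1345831440) (dlOf (nat_lit 1) (nat_lit 0x3c00400060008e07b82)))) (.nd (nat_lit 10) 
(.lf (nat_lit 1345831184) (dlOf (nat_lit 4) (nat_lit 0x81f60000e0200040fb0000601000107d800000080310008000c002001e0008e03b03))) 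
(.lf (nat_lit 1344783632) (dlOf (nat_lit 4) (nat_lit 0xd02f400070040144000000170200900000000a018983000))))))) 
(.nd (nat_lit 19) (.nd (nat_lit 8) (.nd (nat_lit 28) (.nd (nat_lit 9) (.nd (nat_lit 26) 
(.lf (nat_lit 3892822096) (dlOf (nat_lit 2) (nat_lit 0x68819003640c0010e0590142028800f813c04c809802a404600cd02180720100039806601a602b010901200bc0074065002c02b600500cc00000017c8005d0008073800203fa0008280203))) 
(.lf (nat_lit 1678229584) (dlOf (nat_lit 1) (nat_lit 0x80080008002000200081b0f83)))) 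
(.lf (nat_lit 8898128) (dlOf (nat_lit 1) (nat_lit 0x30008000c00200040008513883)))) 
(.nd (nat_lit 21) (.nd (nat_lit 22) 
(.lf (nat_lit 805814352) (dlOf (nat_lit 1) (nat_lit 0x80080008002000200081b0f83))) 
(.lf (nat_lit 3494363216) (dlOf (nat_lit 1) (nat_lit 0x40008211901)))) 
(.lf (nat_lit 1009238096) (dlOf (nat_lit 10) (nat_lit 0x24007180cb03880c980ec00480750001f84017003b0000f80801203880007a04039c1c601960760001b02000303b0000d00800c038c003c0ec0000f0402480e3011c03b00001c1003501d8000060400d81c60068076000000290a0700))))) 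
(.nd (nat_lit 7) (.nd (nat_lit 10) (.nd (nat_lit 26) 
(.lf (nat_lit 1342685520) (dlOf (nat_lit 3) (nat_lit 0x7845a0004a02001a1f3000200180c0600))) 
(.lf (nat_lit 470270288) (dlOf (nat_lit 3) (nat_lit 0x7845a0005102001a1f2000238180c0600)))) 
(.lf (nat_lit 3490172240) (dlOf (nat_lit 2) (nat_lit 0x120ab00008018006a00)))) (.nd (nat_lit 9) 
(.lf (nat_lit 8902096) (dlOf (nat_lit 1) (nat_lit 0x80008000c002000a0008519b03))) 
(.lf (nat_lit 20435920) (dlOf (nat_lit 1) (nat_lit 0xa00289d9201)))))) (.nd (nat_lit 20) 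
(.nd (nat_lit 9) (.nd (nat_lit 7) 
(.lf (nat_lit 68141136) (dlOf (nat_lit 3) (nat_lit 0x3a0710001301005502800002c080020008007800200120008400703))) 
(.lf (nat_lit 19913936) (dlOf (nat_lit 1) (nat_lit 0x4004000200089dc282)))) (.nd (nat_lit 8) 
(.lf (nat_lit 34589264) (dlOf (nat_lit 1) (nat_lit 0x400400020008fb5282))) 
(.lf (nat_lit 19907408) (dlOf (nat_lit 1) (nat_lit 0x4002000200089d2482))))) (.nd (nat_lit 21) 
(.nd (nat_lit 22) 
(.lf (nat_lit 69189712) (dlOf (nat_lit 2) (nat_lit 0xd00700003f02000200288c0701))) 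
(.lf (nat_lit 14663760) (dlOf (nat_lit 1) (nat_lit 0xa0008770701)))) (.nd (nat_lit 8) 
(.lf (nat_lit 16760912) (dlOf (nat_lit 2) (nat_lit 0xfda19000d367802e10fc000be0c0020004000200088e0202))) 
(.lf (nat_lit 4178256) (dlOf (nat_lit 1) (nat_lit 0x280018290801)))))))) (.nd (nat_lit 28) 
(.nd (nat_lit 7) (.nd (nat_lit 26) (.nd (nat_lit 19) (.nd (nat_lit 21) (.nd (nat_lit 8) 
(.lf (nat_lit 2819080216) (dlOf (nat_lit 6) (nat_lit 0x1e80d4009403f0002f82008a039003481a8019407e0005906000e0420002a01003a0210001480806d01080009604004000200200008190482))) 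
(.lf (nat_lit 1745338648) (dlOf (nat_lit 1) (nat_lit 0x400200020008127502)))) (.nd (nat_lit 9) 
(.lf (nat_lit 45596696) (dlOf (nat_lit 2) (nat_lit 0x4cfa001ff02003a0009340081))) 
(.lf (nat_lit 40356376) (dlOf (nat_lit 2) (nat_lit 0xa6070003afdc0004c080030004000200191f5082))))) 
(.nd (nat_lit 6) (.nd (nat_lit 20) 
(.lf (nat_lit 1032216) (dlOf (nat_lit 1) (nat_lit 0x18008000c00200080008050a83))) 
(.lf (nat_lit 14663704) (dlOf (nat_lit 2) (nat_lit 0x1305f5008921f804e06ac0244062001ea0800020018770081)))) 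
(.lf (nat_lit 37733464) (dlOf (nat_lit 1) (nat_lit 0x5c002002600090d2902))))) (.nd (nat_lit 29) 
(.nd (nat_lit 8) (.nd (nat_lit 19) 
(.lf (nat_lit 201834520) (dlOf (nat_lit 1) (nat_lit 0x480080058002003e0008090003))) 
(.lf (nat_lit 68141080) (dlOf (nat_lit 2) (nat_lit 0x126129000f5018400080)))) 
(.lf (nat_lit 3288842520) (dlOf (nat_lit 2) (nat_lit 0x4000000e00181b0480)))) (.nd (nat_lit 8) 
(.nd (nat_lit 9) 
(.lf (nat_lit 1678229528) (dlOf (nat_lit 3) (nat_lit 0x3004c025d6040020026012ea02000a00281b0901))) 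
(.lf (nat_lit 2751978008) (dlOf (nat_lit 2) (nat_lit 0x90548017f804001c0040002000800b282)))) 
(.lf (nat_lit 2886189336) (dlOf (nat_lit 2) (nat_lit 0xc0068000a204001800200400008187f02)))))) 
(.nd (nat_lit 6) (.nd (nat_lit 29) (.nd (nat_lit 12) 
(.lf (nat_lit 43499928) (dlOf (nat_lit 1) (nat_lit 0x4004000200092a1002))) 
(.lf (nat_lit 19911064) (dlOf (nat_lit 1) (nat_lit 0x200189d8381)))) (.nd (nat_lit 8) 
(.lf (nat_lit 2886189208) (dlOf (nat_lit 2) (nat_lit 0x1801c00001818184080))) 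
(.lf (nat_lit 537379224) (dlOf (nat_lit 1) (nat_lit 0x20018090781))))) (.nd (nat_lit 8) 
(.nd (nat_lit 19) (.lf (nat_lit 4362584280) (dlOf (nat_lit 2) (nat_lit 0x1c041000e2818090480))) 
(.nd (nat_lit 21) (.lf (nat_lit 2080984) (dlOf (nat_lit 1) (nat_lit 0x1000200020008150482))) 
(.lf (nat_lit 46121176) (dlOf (nat_lit 2) (nat_lit 0xafdc0005c04003400400040019380982))))) 
(.nd (nat_lit 9) (.lf (nat_lit 40878552) (dlOf (nat_lit 1) (nat_lit 0x820019207b01))) 
(.lf (nat_lit 60279768) (dlOf (nat_lit 1) (nat_lit 0x11000400040009845e02))))))) (.nd (nat_lit 6) 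
(.nd (nat_lit 27) (.nd (nat_lit 29) (.nd (nat_lit 10) 
(.lf (nat_lit 2416427032) (dlOf (nat_lit 1) (nat_lit 0x200181d0a01))) 
(.lf (nat_lit 1344783384) (dlOf (nat_lit 1) (nat_lit 0x1c00400060008982882)))) (.nd (nat_lit 9) 
(.lf (nat_lit 805814296) (dlOf (nat_lit 3) (nat_lit 0x3004c025e4040020026012f102000a00281b0901))) 
(.lf (nat_lit 4027040280) (dlOf (nat_lit 1) (nat_lit 0x400081b0d81))))) (.nd (nat_lit 7) 
(.nd (nat_lit 20) (.lf (nat_lit 2550644760) (dlOf (nat_lit 1) (nat_lit 0x200181d0a01))) 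
(.lf (nat_lit 471318552) (dlOf (nat_lit 1) (nat_lit 0x4002000200082e0002)))) 
(.lf (nat_lit 3624386712) (dlOf (nat_lit 2) (nat_lit 0x1801d00030018184080))))) (.nd (nat_lit 10) 
(.nd (nat_lit 7) (.nd (nat_lit 11) 
(.lf (nat_lit 3494363224) (dlOf (nat_lit 1) (nat_lit 0x40028211a81))) 
(.lf (nat_lit 3492796504) (dlOf (nat_lit 1) (nat_lit 0xa00280fa781)))) 
(.lf (nat_lit 4228366552) (dlOf (nat_lit 2) (nat_lit 0x1c03a000e2818090480)))) (.nd (nat_lit 8) 
(.lf (nat_lit 473416792) (dlOf (nat_lit 1) (nat_lit 0xc0018f52901))) (.nd (nat_lit 11) 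
(.lf (nat_lit 4698129752) (dlOf (nat_lit 1) (nat_lit 0xc0008123381))) 
(.lf (nat_lit 3490172248) (dlOf (nat_lit 1) (nat_lit 0x60028006a81)))))))))) (.nd (nat_lit 6) 
(.nd (nat_lit 3) (.nd (nat_lit 18) (.nd (nat_lit 20) (.nd (nat_lit 30) (.nd (nat_lit 29) 
(.nd (nat_lit 7) (.nd (nat_lit 19) (.nd (nat_lit 8) 
(.lf (nat_lit 470007856) (dlOf (nat_lit 1) (nat_lit 0x1c00200080008020582))) 
(.lf (nat_lit 6576914736) (dlOf (nat_lit 1) (nat_lit 0x400281a7a01)))) (.nd (nat_lit 21) 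
(.lf (nat_lit 30130224) (dlOf (nat_lit 1) (nat_lit 0x420028e30001))) 
(.lf (nat_lit 11255856) (dlOf (nat_lit 4) (nat_lit 0x52b18002957c001cab60016506000455b000b20100062ad80058c082858008021c002014c0008680d83))))) 
(.nd (nat_lit 23) (.nd (nat_lit 9) 
(.lf (nat_lit 35898544) (dlOf (nat_lit 1) (nat_lit 0x20019012c01))) 
(.lf (nat_lit 19650224) (dlOf (nat_lit 1) (nat_lit 0x4002000200089da002)))) (.nd (nat_lit 21) 
(.lf (nat_lit 42190000) (dlOf (nat_lit 1) (nat_lit 0x400400020009242c02))) 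
(.lf (nat_lit 61064368) (dlOf (nat_lit 3) (nat_lit 0x133e80015008000999c0004cca0002595000138398c2c00)))))) 
(.nd (nat_lit 28) (.nd (nat_lit 19) 
(.lf (nat_lit 537116720) (dlOf (nat_lit 2) (nat_lit 0xe02c80010090000c042000090600120008020581))) 
(.lf (nat_lit 537641008) (dlOf (nat_lit 26) (nat_lit 0x20c03580018000000a208082c0d60005002041c06b012700000013c100e601ac03200000004e0401460000002681003d035809900000009808082c0d60004b02007005a00d7011000120100470168023c0ae01680220002383024702900011408031816801cc0ae09c0052004e0110001102002b816800cc0ae094e0520002183012802b805d0148000840800080b40120022012400000010018086015c02d00660003e0400540570001e0102e9029009700cc04540000003b06025e0000001d0101150000000e4080968000000700404540000003702022a0000001b0101340000000d40808a8000000680400280ba010e05a016c02b804d00cc000c044011801c00ea0000000cc38020800802ec002009c00080e0683)))) 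
(.nd (nat_lit 8) (.nd (nat_lit 9) 
(.lf (nat_lit 3087253552) (dlOf (nat_lit 6) (nat_lit 0x17802c00030040150016000170200b200b0000b01003300580002408001802c0000a04004400400300018160582))) 
(.lf (nat_lit 805552688) (dlOf (nat_lit 5) (nat_lit 0xa40288001812c000480801440a2007203a0001002007002880007c0802581440003a04005000200c00008128002)))) 
(.lf (nat_lit 805552432) (dlOf (nat_lit 1) (nat_lit 0x180018124901)))))) (.nd (nat_lit 28) 
(.nd (nat_lit 31) (.nd (nat_lit 8) (.nd (nat_lit 9) 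
(.lf (nat_lit 1073987632) (dlOf (nat_lit 1) (nat_lit 0x52400400b80008070882))) 
(.lf (nat_lit 1677967920) (dlOf (nat_lit 2) (nat_lit 0xb40a2000403a004d0028128b00)))) 
(.lf (nat_lit 1677967664) (dlOf (nat_lit 1) (nat_lit 0x180018124901)))) (.nd (nat_lit 9) 
(.nd (nat_lit 26) 
(.lf (nat_lit 3758342192) (dlOf (nat_lit 1) (nat_lit 0x8008015000200020008130003))) 
(.lf (nat_lit 3825451056) (dlOf (nat_lit 6) (nat_lit 0x17802c00030040150016000170200b200b0000b01003300580002408001802c0000a04004400400300018160582)))) 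
(.lf (nat_lit 3288580656) (dlOf (nat_lit 6) (nat_lit 0x180100005802c0004e080054040001400b000050200070100000240800a808000240160000604002a020000c00580000010016800801c400200800008090f03))))) 
(.nd (nat_lit 26) (.nd (nat_lit 9) 
(.lf (nat_lit 1342423088) (dlOf (nat_lit 1) (nat_lit 0x1c00200080008020582))) 
(.lf (nat_lit 4026778160) (dlOf (nat_lit 6) (nat_lit 0x180100005802c00044080054040001400b000050200070100000240800a808000240160000604002a020000c00580000010016800801c400200800008090f03)))) 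
(.nd (nat_lit 19) (.nd (nat_lit 27) (.nd (nat_lit 29) 
(.lf (nat_lit 1409531952) (dlOf (nat_lit 2) (nat_lit 0xe02c80010090000c042000090600120008020581))) 
(.lf (nat_lit 1946402864) (dlOf (nat_lit 1) (nat_lit 0x400400020008070902)))) 
(.lf (nat_lit 3691233328) (dlOf (nat_lit 1) (nat_lit 0x8004000200180c0982)))) 
(.lf (nat_lit 1410056240) (dlOf (nat_lit 26) (nat_lit 0x20c03580018000000a208082c0d60005002041c06b012700000013c100e601ac03200000004e0401460000002681003d035809900000009808082c0d60004b02007005a00d7011000120100470168023c0ae01680220002383024702900011408031816801cc0ae09c0052004e0110001102002b816800cc0ae094e0520002183012802b805d0148000840800080b40120022012400000010018086015c02d00660003e0400540570001e0102e9029009700cc04540000003b06025e0000001d0101150000000e4080968000000700404540000003702022a0000001b0101340000000d40808a8000000680400280ba010e05a016c02b804d00cc000c044011801c00ea0000000cc38020800802ec002009c00080e0683))))))) 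
(.nd (nat_lit 19) (.nd (nat_lit 8) (.nd (nat_lit 11) (.nd (nat_lit 7) 
(.lf (nat_lit 1294896) (dlOf (nat_lit 1) (nat_lit 0x600280a8001))) 
(.lf (nat_lit 9683120) (dlOf (nat_lit 2) (nat_lit 0xb74860059a410021d1f8002e8ec00a345a00659dc0028c9b0000c83802a800801c400200080008571603)))) 
(.nd (nat_lit 10) (.lf (nat_lit 1345571376) (dlOf (nat_lit 1) (nat_lit 0x160028d75181))) 
(.lf (nat_lit 2754858544) (dlOf (nat_lit 2) (nat_lit 0x58028000288180f7180))))) (.nd (nat_lit 7) 
(.nd (nat_lit 26) 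
(.lf (nat_lit 3490955568) (dlOf (nat_lit 2) (nat_lit 0x1e0c00005045800008100020008001000200020008047a03))) 
(.lf (nat_lit 2752758064) (dlOf (nat_lit 6) (nat_lit 0x2a0860025f8100190430012f40800502180096404008810c004a802004a089001c044001258100088008002c002000a0008048403)))) 
(.lf (nat_lit 39045552) (dlOf (nat_lit 1) (nat_lit 0x400200020009194e82))))) (.nd (nat_lit 24) 
(.nd (nat_lit 8) (.nd (nat_lit 9) 
(.lf (nat_lit 8116272) (dlOf (nat_lit 1) (nat_lit 0x2000851a601))) 
(.lf (nat_lit 8115760) (dlOf (nat_lit 1) (nat_lit 0x60018519c01)))) (.nd (nat_lit 7) 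
(.lf (nat_lit 8113968) (dlOf (nat_lit 1) (nat_lit 0x6f0008032800201ea0008517483))) 
(.lf (nat_lit 8114608) (dlOf (nat_lit 1) (nat_lit 0xa0028518481))))) (.nd (nat_lit 23) 
(.nd (nat_lit 22) 
(.lf (nat_lit 18595888) (dlOf (nat_lit 3) (nat_lit 0xc8df000b34d00016c10004a37c0006e04000c002000c0008950802))) 
(.lf (nat_lit 22790192) (dlOf (nat_lit 2) (nat_lit 0x20ade001056d000594100030008004c002001a0008b20d83)))) 
(.nd (nat_lit 21) (.lf (nat_lit 60538928) (dlOf (nat_lit 1) (nat_lit 0x400400020009890d02))) 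
(.lf (nat_lit 29081648) (dlOf (nat_lit 1) (nat_lit 0x400200020008dc0b82)))))))) (.nd (nat_lit 7) 
(.nd (nat_lit 24) (.nd (nat_lit 8) (.nd (nat_lit 30) (.nd (nat_lit 19) 
(.lf (nat_lit 470270512) (dlOf (nat_lit 3) (nat_lit 0x260492008223f00340de80005418004892400028040030004004c00080c0f02))) 
(.lf (nat_lit 2752496176) (dlOf (nat_lit 1) (nat_lit 0x20028018b01)))) (.nd (nat_lit 9) 
(.lf (nat_lit 3557277744) (dlOf (nat_lit 6) (nat_lit 0x1e80c2009403f0002f82008a03900348184019407e0005906000e0450002a01003a0228001480806d01140009604004000200200008190902))) 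
(.lf (nat_lit 1342685744) (dlOf (nat_lit 3) (nat_lit 0x260492008223f00340de80005018004892400026040030004004c00080c0f02))))) 
(.nd (nat_lit 26) (.nd (nat_lit 27) 
(.lf (nat_lit 5906088240) (dlOf (nat_lit 1) (nat_lit 0x200281a8401))) 
(.lf (nat_lit 3624386864) (dlOf (nat_lit 10) (nat_lit 0x7000a8001740803a8054000b804001804c000e01b0002a02003c0130004006c000a608002c03600240150002882000e00d800f8054003c024000500600620150002501002200a8001080800780540007e040098004001e0018187a02)))) 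
(.nd (nat_lit 27) (.lf (nat_lit 6510068016) (dlOf (nat_lit 1) (nat_lit 0x4004000200081a7a02))) 
(.lf (nat_lit 2886189360) (dlOf (nat_lit 8) (nat_lit 0x6805000a220400e4034002e0170026482000b01580048090003c0460012022000600f80018068004002e0030014000800300131c4802f00f8002806e000e03500260000012fc200030110005008600b203e000701e000500e800f006e0026035002b0000012f44000580f801a806e00320140025903001d01b8012a00811e8008021800205da0008188403)))))) 
(.nd (nat_lit 19) (.nd (nat_lit 20) 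
(.lf (nat_lit 19382320) (dlOf (nat_lit 1) (nat_lit 0x400200020008990b82))) 
(.lf (nat_lit 26722352) (dlOf (nat_lit 1) (nat_lit 0xc00200020008c60d02)))) (.nd (nat_lit 9) 
(.nd (nat_lit 20) 
(.lf (nat_lit 17809456) (dlOf (nat_lit 7) (nat_lit 0xf78d40071bec0001f82004ee3500126fb00006c0800478d40002c020043c6a001cdf600003c1000ef1a800677d80000704003bc6a0024df6000000100020008003c002002000088f0e83))) 
(.lf (nat_lit 23052336) (dlOf (nat_lit 1) (nat_lit 0x20028b50681)))) 
(.lf (nat_lit 54512176) (dlOf (nat_lit 1) (nat_lit 0x3a0009655181)))))) (.nd (nat_lit 10) 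
(.nd (nat_lit 26) (.nd (nat_lit 8) 
(.lf (nat_lit 537378992) (dlOf (nat_lit 2) (nat_lit 0x40550001c818090300))) 
(.lf (nat_lit 3490171312) (dlOf (nat_lit 1) (nat_lit 0x400200020008004e82)))) (.nd (nat_lit 27) 
(.lf (nat_lit 1409794224) (dlOf (nat_lit 2) (nat_lit 0x40550001c818090300))) 
(.lf (nat_lit 2886189232) (dlOf (nat_lit 2) (nat_lit 0x1e00d0000a008053800800b000200420008184d83))))) 
(.nd (nat_lit 8) (.nd (nat_lit 9) 
(.lf (nat_lit 37733552) (dlOf (nat_lit 2) (nat_lit 0x199c0000cc910002f8290d2c00))) 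
(.lf (nat_lit 19912368) (dlOf (nat_lit 1) (nat_lit 0x200189da001)))) 
(.lf (nat_lit 8373680) (dlOf (nat_lit 1) (nat_lit 0x400200020008513602))))))) (.nd (nat_lit 18) 
(.nd (nat_lit 7) (.nd (nat_lit 28) (.nd (nat_lit 9) (.nd (nat_lit 21) (.nd (nat_lit 22) 
(.lf (nat_lit 3825451064) (dlOf (nat_lit 2) (nat_lit 0xa0014005c00800210000000001800e80080048002002c0008160683))) 
(.lf (nat_lit 63160376) (dlOf (nat_lit 2) (nat_lit 0xd26a00000c0800100080028002004800099e0503)))) 
(.nd (nat_lit 19) 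
(.lf (nat_lit 10731576) (dlOf (nat_lit 1) (nat_lit 0x80008038c00200120008620703))) 
(.lf (nat_lit 45858872) (dlOf (nat_lit 8) (nat_lit 0x56bc00003202000d5e000018810001af00000b808000d7800005a040012bc00002c02000f0780000181000383c0000000802600080018002000e0009360503))))) 
(.nd (nat_lit 8) (.lf (nat_lit 8116792) (dlOf (nat_lit 1) (nat_lit 0x10004000a001851b402))) 
(.nd (nat_lit 10) (.lf (nat_lit 4899195704) (dlOf (nat_lit 1) (nat_lit 0x4002000200080d5c02))) 
(.lf (nat_lit 19650360) (dlOf (nat_lit 1) (nat_lit 0x200289da101)))))) (.nd (nat_lit 32) 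
(.nd (nat_lit 8) (.nd (nat_lit 9) 
(.lf (nat_lit 3087253560) (dlOf (nat_lit 2) (nat_lit 0xa0014005c00800210000000001800e80080048002002c0008160683))) 
(.lf (nat_lit 473680440) (dlOf (nat_lit 1) (nat_lit 0x400400020008fa5202)))) 
(.lf (nat_lit 3624127800) (dlOf (nat_lit 1) (nat_lit 0x20018146901)))) (.nd (nat_lit 8) 
(.nd (nat_lit 27) 
(.lf (nat_lit 4563648568) (dlOf (nat_lit 3) (nat_lit 0x1aa03300a500f0002741003200cc0011c040058002000200080b0482))) 
(.lf (nat_lit 4697866296) (dlOf (nat_lit 3) (nat_lit 0x1aa03300a500f0002741003200cc0011c040058002000200080b0482)))) 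
(.lf (nat_lit 6376112440) (dlOf (nat_lit 1) (nat_lit 0x860008090b81)))))) (.nd (nat_lit 8) 
(.nd (nat_lit 10) (.nd (nat_lit 20) 
(.lf (nat_lit 19120312) (dlOf (nat_lit 1) (nat_lit 0x7c0018970481))) 
(.lf (nat_lit 3391672) (dlOf (nat_lit 1) (nat_lit 0x180018200381)))) (.nd (nat_lit 21) 
(.lf (nat_lit 58967224) (dlOf (nat_lit 1) (nat_lit 0x400197e2c81))) 
(.lf (nat_lit 61064376) (dlOf (nat_lit 1) (nat_lit 0x80080004002000200098c2c83))))) 
(.nd (nat_lit 11) (.nd (nat_lit 20) (.nd (nat_lit 26) 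
(.lf (nat_lit 4026778040) (dlOf (nat_lit 2) (nat_lit 0x7a0270008c018090800))) 
(.lf (nat_lit 3288580536) (dlOf (nat_lit 2) (nat_lit 0x7a0270008c018090800)))) 
(.lf (nat_lit 9683384) (dlOf (nat_lit 1) (nat_lit 0x400200020008577782)))) (.nd (nat_lit 9) 
(.lf (nat_lit 1008978360) (dlOf (nat_lit 1) (nat_lit 0x1340009004e81))) 
(.lf (nat_lit 268684216) (dlOf (nat_lit 1) (nat_lit 0x600080e5d01))))))) (.nd (nat_lit 20) 
(.nd (nat_lit 9) (.nd (nat_lit 19) (.nd (nat_lit 21) 
(.lf (nat_lit 1879556152) (dlOf (nat_lit 1) (nat_lit 0x1c002001200081e0882))) (.nd (nat_lit 25) 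
(.lf (nat_lit 1009238072) (dlOf (nat_lit 3) (nat_lit 0x300d00000c08004038800000040008004000a00090a0502))) 
(.lf (nat_lit 36159544) (dlOf (nat_lit 1) (nat_lit 0xa0019030501))))) (.nd (nat_lit 23) 
(.nd (nat_lit 24) (.lf (nat_lit 68141112) (dlOf (nat_lit 1) (nat_lit 0x8008000800200040008400483))) 
(.lf (nat_lit 17809464) (dlOf (nat_lit 1) (nat_lit 0x200188f1101)))) 
(.lf (nat_lit 59752504) (dlOf (nat_lit 1) (nat_lit 0x8008000400200020009820503))))) 
(.nd (nat_lit 7) (.nd (nat_lit 10) 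
(.lf (nat_lit 19909432) (dlOf (nat_lit 1) (nat_lit 0x4002000200089d5c02))) 
(.lf (nat_lit 509752) (dlOf (nat_lit 1) (nat_lit 0x20008003e01)))) (.nd (nat_lit 8) 
(.lf (nat_lit 8902328) (dlOf (nat_lit 1) (nat_lit 0x100040006000851a002))) 
(.lf (nat_lit 1074256824) (dlOf (nat_lit 1) (nat_lit 0x8008015c002008c00080fbe03)))))) 
(.nd (nat_lit 22) (.nd (nat_lit 26) (.nd (nat_lit 21) 
(.lf (nat_lit 1343733816) (dlOf (nat_lit 1) (nat_lit 0x1f400400420008350902))) 
(.lf (nat_lit 3653688) (dlOf (nat_lit 1) (nat_lit 0x180028210b81)))) (.nd (nat_lit 7) 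
(.lf (nat_lit 69189688) (dlOf (nat_lit 9) (nat_lit 0x142300002f02001a1180001701000208c0000b4080028460000c1e20002c0400101180001581000a08c0000a80800604600005204003010e0000302000e00188c0501))) 
(.lf (nat_lit 68666552) (dlOf (nat_lit 1) (nat_lit 0x320008662c81))))) (.nd (nat_lit 9) 
(.nd (nat_lit 21) 
(.lf (nat_lit 30916664) (dlOf (nat_lit 1) (nat_lit 0x68008004000200200008e50c03))) 
(.lf (nat_lit 24625208) (dlOf (nat_lit 1) (nat_lit 0x20028ba0b01)))) 
(.lf (nat_lit 31443512) (dlOf (nat_lit 1) (nat_lit 0x800400020008e95202)))))))) (.nd (nat_lit 18) 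
(.nd (nat_lit 21) (.nd (nat_lit 30) (.nd (nat_lit 3) (.nd (nat_lit 20) (.nd (nat_lit 9) 
(.lf (nat_lit 5100521840) (dlOf (nat_lit 1) (nat_lit 0xc00280d4e81))) 
(.lf (nat_lit 4899195760) (dlOf (nat_lit 1) (nat_lit 0x4002000200080d5c02)))) (.nd (nat_lit 19) 
(.lf (nat_lit 39045488) (dlOf (nat_lit 1) (nat_lit 0x400200020009194e82))) 
(.lf (nat_lit 52152688) (dlOf (nat_lit 1) (nat_lit 0x20009514e81))))) (.nd (nat_lit 7) 
(.nd (nat_lit 9) (.nd (nat_lit 19) 
(.lf (nat_lit 335790200) (dlOf (nat_lit 1) (nat_lit 0x200280a1f01))) 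
(.lf (nat_lit 25935992) (dlOf (nat_lit 1) (nat_lit 0x400400020008c10282)))) 
(.lf (nat_lit 474203768) (dlOf (nat_lit 1) (nat_lit 0x8002000e00090e3982)))) (.nd (nat_lit 8) 
(.lf (nat_lit 2755903736) (dlOf (nat_lit 2) (nat_lit 0x81440039404004c004000800081b0482))) 
(.nd (nat_lit 9) (.lf (nat_lit 671334904) (dlOf (nat_lit 2) (nat_lit 0x20210000c818157e00))) 
(.lf (nat_lit 55297016) (dlOf (nat_lit 1) (nat_lit 0xe00296d2881))))))) (.nd (nat_lit 11) 
(.nd (nat_lit 7) (.nd (nat_lit 19) (.nd (nat_lit 26) 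
(.lf (nat_lit 4026777968) (dlOf (nat_lit 2) (nat_lit 0x2cc01e00e160200020008090781))) 
(.lf (nat_lit 3288580464) (dlOf (nat_lit 2) (nat_lit 0x560120060ec0806f0008005800200040008090783)))) 
(.lf (nat_lit 5772132720) (dlOf (nat_lit 1) (nat_lit 0xe0018090f81)))) (.nd (nat_lit 3) 
(.lf (nat_lit 1275315184) (dlOf (nat_lit 1) (nat_lit 0x200180e2881))) 
(.lf (nat_lit 5772133368) (dlOf (nat_lit 1) (nat_lit 0x800400040018092882))))) (.nd (nat_lit 3) 
(.nd (nat_lit 26) 
(.lf (nat_lit 3221473648) (dlOf (nat_lit 2) (nat_lit 0x2000002e6804000c00200020008114e82))) 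
(.nd (nat_lit 29) (.lf (nat_lit 5570283888) (dlOf (nat_lit 1) (nat_lit 0x200280d4e81))) 
(.lf (nat_lit 6107154800) (dlOf (nat_lit 1) (nat_lit 0x1000400060018094e82))))) (.nd (nat_lit 8) 
(.lf (nat_lit 6308481656) (dlOf (nat_lit 1) (nat_lit 0x4002000200080d5402))) 
(.lf (nat_lit 5771611000) (dlOf (nat_lit 1) (nat_lit 0x8008000400200020008005c03))))))) 
(.nd (nat_lit 19) (.nd (nat_lit 24) (.nd (nat_lit 8) (.nd (nat_lit 23) 
(.lf (nat_lit 1008975984) (dlOf (nat_lit 1) (nat_lit 0x20029000181))) 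
(.lf (nat_lit 44286064) (dlOf (nat_lit 4) (nat_lit 0x131f0000140800098f800006040004c7c0000202002000092e0d01)))) 
(.nd (nat_lit 20) 
(.lf (nat_lit 6377687408) (dlOf (nat_lit 1) (nat_lit 0x180080008002000200080e4e83))) 
(.nd (nat_lit 26) 
(.lf (nat_lit 1345571184) (dlOf (nat_lit 1) (nat_lit 0x8008000400200020008d74e83))) 
(.lf (nat_lit 2754857328) (dlOf (nat_lit 1) (nat_lit 0x200180f4e81)))))) (.nd (nat_lit 3) 
(.nd (nat_lit 8) (.nd (nat_lit 9) 
(.lf (nat_lit 62111856) (dlOf (nat_lit 1) (nat_lit 0x240019950a81))) 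
(.lf (nat_lit 20173424) (dlOf (nat_lit 1) (nat_lit 0x4002000200089d8982)))) 
(.lf (nat_lit 53725552) (dlOf (nat_lit 1) (nat_lit 0xc004000200095f4e82)))) (.nd (nat_lit 9) 
(.lf (nat_lit 62111864) (dlOf (nat_lit 3) (nat_lit 0x20e800011c0800087400004328000460400200019950b81))) 
(.lf (nat_lit 20174456) (dlOf (nat_lit 1) (nat_lit 0x150008005c00200d200089d9d03)))))) 
(.nd (nat_lit 3) (.nd (nat_lit 7) (.nd (nat_lit 9) 
(.lf (nat_lit 8116336) (dlOf (nat_lit 1) (nat_lit 0x6002851a881))) 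
(.lf (nat_lit 8111728) (dlOf (nat_lit 3) (nat_lit 0x8946000130100051e7800000080020008005000200020008513983)))) 
(.nd (nat_lit 8) (.lf (nat_lit 6378209520) (dlOf (nat_lit 1) (nat_lit 0x2a0028126e81))) 
(.nd (nat_lit 9) (.lf (nat_lit 33278448) (dlOf (nat_lit 1) (nat_lit 0xa0028f54f01))) 
(.lf (nat_lit 36422640) (dlOf (nat_lit 1) (nat_lit 0xc0019072881)))))) (.nd (nat_lit 7) 
(.nd (nat_lit 8) (.lf (nat_lit 6378209400) (dlOf (nat_lit 1) (nat_lit 0x400400020008122902))) 
(.nd (nat_lit 10) (.lf (nat_lit 8116600) (dlOf (nat_lit 1) (nat_lit 0xc0040006000851ae02))) 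
(.lf (nat_lit 19651960) (dlOf (nat_lit 1) (nat_lit 0x800189dc901))))) (.nd (nat_lit 8) 
(.lf (nat_lit 6378209528) (dlOf (nat_lit 1) (nat_lit 0x40028127001))) 
(.lf (nat_lit 49005560) (dlOf (nat_lit 2) (nat_lit 0x58220068602001e0029462881)))))))) 
(.nd (nat_lit 3) (.nd (nat_lit 21) (.nd (nat_lit 7) (.nd (nat_lit 8) (.nd (nat_lit 20) 
(.lf (nat_lit 55033968) (dlOf (nat_lit 10) (nat_lit 0xc4c6001025e000292540002a0c002898c00264bc0000a02002726300004c0800213180001604000498c000c4c4000525d00051294000c926000050a00044c4001a25d000812940038926000040800044c6000c262000212e80014926000030800124c40000101000d263000000080370008001c00200080009690d03))) 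
(.lf (nat_lit 56082544) (dlOf (nat_lit 1) (nat_lit 0x40029722481)))) (.nd (nat_lit 20) 
(.lf (nat_lit 3490171248) (dlOf (nat_lit 1) (nat_lit 0x400200020008004e82))) (.nd (nat_lit 23) 
(.lf (nat_lit 1008191856) (dlOf (nat_lit 1) (nat_lit 0x8008000400200020008aa4e83))) 
(.lf (nat_lit 60279152) (dlOf (nat_lit 1) (nat_lit 0x840029844e81)))))) (.nd (nat_lit 8) 
(.nd (nat_lit 9) (.lf (nat_lit 38781168) (dlOf (nat_lit 1) (nat_lit 0x400200020009151e82))) 
(.lf (nat_lit 8902384) (dlOf (nat_lit 1) (nat_lit 0x8002851a001)))) (.nd (nat_lit 20) 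
(.lf (nat_lit 2751972336) (dlOf (nat_lit 1) (nat_lit 0x400200020008002882))) 
(.lf (nat_lit 68666352) (dlOf (nat_lit 1) (nat_lit 0x220028662881)))))) (.nd (nat_lit 11) 
(.nd (nat_lit 8) (.nd (nat_lit 7) 
(.lf (nat_lit 1881653360) (dlOf (nat_lit 5) (nat_lit 0x1015800280a0001004d0000283000502b0001014c00240a0001004d0000204000702b0003814c00140a0000a04d0000184000602b0003014c00140a0000e04d00001048fa0d00))) 
(.lf (nat_lit 1345831152) (dlOf (nat_lit 1) (nat_lit 0x20018e01e81)))) (.nd (nat_lit 9) 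
(.lf (nat_lit 8373744) (dlOf (nat_lit 1) (nat_lit 0x400200020008513602))) 
(.lf (nat_lit 37733360) (dlOf (nat_lit 1) (nat_lit 0x4002000400090d2882))))) (.nd (nat_lit 19) 
(.nd (nat_lit 22) (.lf (nat_lit 472369520) (dlOf (nat_lit 1) (nat_lit 0x1800400040008984e82))) 
(.lf (nat_lit 40356208) (dlOf (nat_lit 1) (nat_lit 0xa00291f4e81)))) (.nd (nat_lit 9) 
(.nd (nat_lit 20) (.lf (nat_lit 49269104) (dlOf (nat_lit 1) (nat_lit 0x400200020009464e82))) 
(.lf (nat_lit 58706288) (dlOf (nat_lit 1) (nat_lit 0x200197e4e81)))) 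
(.lf (nat_lit 19909488) (dlOf (nat_lit 1) (nat_lit 0x4002000200089d5c02))))))) (.nd (nat_lit 19) 
(.nd (nat_lit 28) (.nd (nat_lit 7) (.nd (nat_lit 8) 
(.lf (nat_lit 61326968) (dlOf (nat_lit 1) (nat_lit 0x60029923981))) 
(.lf (nat_lit 61326712) (dlOf (nat_lit 3) (nat_lit 0x7d4b40010a500001782000652d0000b8080190008006c00200500009923503)))) 
(.nd (nat_lit 8) (.lf (nat_lit 1556728) (dlOf (nat_lit 1) (nat_lit 0x200280f7001))) 
(.nd (nat_lit 11) (.lf (nat_lit 43501048) (dlOf (nat_lit 1) (nat_lit 0x80080004002000200092a3683))) 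
(.lf (nat_lit 515576) (dlOf (nat_lit 1) (nat_lit 0x1000800080020004000800cd03)))))) 
(.nd (nat_lit 9) (.nd (nat_lit 7) 
(.lf (nat_lit 3490171256) (dlOf (nat_lit 1) (nat_lit 0x400200020008004e82))) (.nd (nat_lit 21) 
(.lf (nat_lit 470270200) (dlOf (nat_lit 1) (nat_lit 0x10004004200080c0482))) 
(.lf (nat_lit 1009238264) (dlOf (nat_lit 1) (nat_lit 0x80080008002000a00090a2483))))) 
(.nd (nat_lit 26) 
(.lf (nat_lit 4563913464) (dlOf (nat_lit 2) (nat_lit 0x780bc0004a0400ac00400200018125a02))) 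
(.lf (nat_lit 4094151416) (dlOf (nat_lit 1) (nat_lit 0x1c00400140018005a02)))))) (.nd (nat_lit 22) 
(.nd (nat_lit 7) (.lf (nat_lit 1344258168) (dlOf (nat_lit 1) (nat_lit 0x160028520281))) 
(.nd (nat_lit 8) (.lf (nat_lit 6376374520) (dlOf (nat_lit 1) (nat_lit 0x20018090a81))) 
(.lf (nat_lit 2752496120) (dlOf (nat_lit 1) (nat_lit 0x20018017e01))))) (.nd (nat_lit 21) 
(.nd (nat_lit 7) (.lf (nat_lit 47169656) (dlOf (nat_lit 1) (nat_lit 0x3b0004004c00093b0c02))) 
(.lf (nat_lit 38781176) (dlOf (nat_lit 1) (nat_lit 0x4002019a0009152482)))) (.nd (nat_lit 8) 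
(.lf (nat_lit 24101112) (dlOf (nat_lit 1) (nat_lit 0x8008000c00200060008b80483))) 
(.lf (nat_lit 24101368) (dlOf (nat_lit 1) (nat_lit 0x160008b80d81))))))))))) (.nd (nat_lit 3) 
(.nd (nat_lit 5) (.nd (nat_lit 6) (.nd (nat_lit 18) (.nd (nat_lit 8) (.nd (nat_lit 26) 
(.nd (nat_lit 19) (.nd (nat_lit 20) (.nd (nat_lit 30) (.nd (nat_lit 21) 
(.lf (nat_lit 134463508) (dlOf (nat_lit 1) (nat_lit 0x20028030881))) 
(.lf (nat_lit 27508756) (dlOf (nat_lit 1) (nat_lit 0x8008006000200220008cf0303)))) (.nd (nat_lit 7) 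
(.lf (nat_lit 1342423060) (dlOf (nat_lit 3) (nat_lit 0x41cd000e581000b0e680066c0800300080008002001c0008020483))) 
(.lf (nat_lit 1610859668) (dlOf (nat_lit 1) (nat_lit 0x40008092b81))))) (.nd (nat_lit 21) 
(.nd (nat_lit 23) 
(.lf (nat_lit 1343471636) (dlOf (nat_lit 1) (nat_lit 0x8008000400200020008260383))) 
(.lf (nat_lit 26460180) (dlOf (nat_lit 2) (nat_lit 0xf238000411d000fe028c50080)))) 
(.lf (nat_lit 28557332) (dlOf (nat_lit 1) (nat_lit 0x800801fc00200180008da0003))))) 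
(.nd (nat_lit 9) (.nd (nat_lit 21) 
(.lf (nat_lit 537640980) (dlOf (nat_lit 26) (nat_lit 0x20402e010c01640b1c09600f604a009201c002d00d80570048012a021015200f008980280009c28081c0b80410059009301c00ba0090044c04202a401e011400500013438014016400098040dc8096000470201740690186033809b017404500b4032c057014702b0262012c054c094036e039017501b007c80d0062c05c011002501b4011004c0070038001601fa001009f00000011890005816800300ae08d804b0009025006700e4024806c000e0220049005800114400d78164000880408c80b8042205903f90258044012801ac07000d80360124012000c80880508042012201e000500e003b0028000863008a40b80476059006601c000800940494048025e021007d00f00428028000842005200be02720300002082012e02f800b0178051006000c002f00050020001002801400c00007e0406140b8019a059006d025803180e001b406c017a0270014012807d009005cc03c000600b0001f0a0001012009d00780007a0800880be03fc05c014702c801b009c0508048026e01e0001e0600c502f80ff017005340b201ac030009d01380a0809004e403c0003b0e02d405f009202e0124016402380960280030005a0120000e030003017c06740b801d40590032025806b809004e003c000370c042605c021202c80438090020803c0003308026a05f00780138000c810090817c01900540112027000178300a502f8000b80807681480004e0403580a400026020034027012e00f00000010157000831d800209d200080e0183)))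 
(.lf (nat_lit 15450132) (dlOf (nat_lit 8) (nat_lit 0x339980011008003a56000191d400107d700083af80031ccc000821400152b0000a8ea00043eb80031d7c0004e66000400a00047d700013998000f810003256000151d4000e7d700073af80009ccc0007a140010f620001d02000a957000a3eb00029eac000000c0004004001e00087f0282)))) 
(.nd (nat_lit 7) (.lf (nat_lit 770580) (dlOf (nat_lit 1) (nat_lit 0x20018018701))) 
(.lf (nat_lit 19650196) (dlOf (nat_lit 1) (nat_lit 0x3600089d9e81)))))) (.nd (nat_lit 19) 
(.nd (nat_lit 11) (.nd (nat_lit 20) (.nd (nat_lit 27) 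
(.lf (nat_lit 1409531924) (dlOf (nat_lit 4) (nat_lit 0x8042001e9020004024000d201001002a000000080060008000400200060008020483))) 
(.lf (nat_lit 201572372) (dlOf (nat_lit 1) (nat_lit 0x20028030881)))) 
(.lf (nat_lit 471056404) (dlOf (nat_lit 2) (nat_lit 0x30538003811c0008b04006c0018260381)))) 
(.nd (nat_lit 9) (.lf (nat_lit 6241373204) (dlOf (nat_lit 1) (nat_lit 0x200180d5f81))) 
(.lf (nat_lit 3959675412) (dlOf (nat_lit 1) (nat_lit 0x2001811b281))))) (.nd (nat_lit 20) 
(.nd (nat_lit 31) 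
(.lf (nat_lit 1410056212) (dlOf (nat_lit 26) (nat_lit 0x20402e010c01640b1c09600f604a009201c002d00d80570048012a021015200f008980280009c28081c0b80410059009301c00ba0090044c04202a401e011400500013438014016400098040dc8096000470201740690186033809b017404500b4032c057014702b0262012c054c094036e039017501b007c80d0062c05c011002501b4011004c0070038001601fa001009f00000011890005816800300ae08d804b0009025006700e4024806c000e0220049005800114400d78164000880408c80b8042205903f90258044012801ac07000d80360124012000c80880508042012201e000500e003b0028000863008a40b80476059006601c000800940494048025e021007d00f00428028000842005200be02720300002082012e02f800b0178051006000c002f00050020001002801400c00007e0406140b8019a059006d025803180e001b406c017a0270014012807d009005cc03c000600b0001f0a0001012009d00780007a0800880be03fc05c014702c801b009c0508048026e01e0001e0600c502f80ff017005340b201ac030009d01380a0809004e403c0003b0e02d405f009202e0124016402380960280030005a0120000e030003017c06740b801d40590032025806b809004e003c000370c042605c021202c80438090020803c0003308026a05f00780138000c810090817c01900540112027000178300a502f8000b80807681480004e0403580a400026020034027012e00f00000010157000831d800209d200080e0183)))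 
(.lf (nat_lit 3557539860) (dlOf (nat_lit 2) (nat_lit 0x600200000018260300)))) 
(.lf (nat_lit 68927508) (dlOf (nat_lit 1) (nat_lit 0x160018840001)))))) (.nd (nat_lit 9) 
(.nd (nat_lit 7) (.nd (nat_lit 11) (.nd (nat_lit 19) 
(.lf (nat_lit 2752758036) (dlOf (nat_lit 1) (nat_lit 0x20018047e01))) 
(.lf (nat_lit 7061780) (dlOf (nat_lit 1) (nat_lit 0x24002002c00084b0702)))) 
(.lf (nat_lit 3557021972) (dlOf (nat_lit 11) (nat_lit 0xd02280014c0801480e0000a20400c0070000500200060380002601000301c0001180801600e00008a0400c40700003d0200020380000201001401c00000c0800c00e0000040401380040006000812aa82)))) 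
(.nd (nat_lit 10) (.nd (nat_lit 11) 
(.lf (nat_lit 62112148) (dlOf (nat_lit 3) (nat_lit 0x1a04c004e68100080260027280800f8008005c002001c0009956483))) 
(.lf (nat_lit 44812692) (dlOf (nat_lit 1) (nat_lit 0x80029324e81)))) 
(.lf (nat_lit 8635796) (dlOf (nat_lit 1) (nat_lit 0x400200020008513602))))) (.nd (nat_lit 12) 
(.nd (nat_lit 7) (.lf (nat_lit 4496542484) (dlOf (nat_lit 1) (nat_lit 0x4004000200080e5b82))) 
(.lf (nat_lit 5100522388) (dlOf (nat_lit 1) (nat_lit 0x80080004002000200080d5c83)))) 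
(.nd (nat_lit 11) 
(.lf (nat_lit 4161000340) (dlOf (nat_lit 2) (nat_lit 0x30158005340800080080004002000400080a9083))) 
(.nd (nat_lit 19) 
(.lf (nat_lit 3489913748) (dlOf (nat_lit 1) (nat_lit 0x8008000c0020002000800bc83))) 
(.lf (nat_lit 19651476) (dlOf (nat_lit 1) (nat_lit 0x3c004001e00189dbc82)))))))) (.nd (nat_lit 21) 
(.nd (nat_lit 29) (.nd (nat_lit 22) (.nd (nat_lit 7) (.nd (nat_lit 9) 
(.lf (nat_lit 201834516) (dlOf (nat_lit 2) (nat_lit 0xa00e8012780401a800400220008090002))) 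
(.lf (nat_lit 50840084) (dlOf (nat_lit 2) (nat_lit 0x83a20013a4080140008003c002003400094d8703)))) 
(.lf (nat_lit 1409794196) (dlOf (nat_lit 1) (nat_lit 0x20028090181)))) (.nd (nat_lit 28) 
(.lf (nat_lit 4702228) (dlOf (nat_lit 1) (nat_lit 0x200082b0081))) 
(.lf (nat_lit 3494363156) (dlOf (nat_lit 1) (nat_lit 0xe0008210a81))))) (.nd (nat_lit 30) 
(.nd (nat_lit 7) (.lf (nat_lit 2756165652) (dlOf (nat_lit 1) (nat_lit 0xe0008210a81))) 
(.lf (nat_lit 537378964) (dlOf (nat_lit 1) (nat_lit 0x20028090181)))) (.nd (nat_lit 8) 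
(.lf (nat_lit 1611120660) (dlOf (nat_lit 2) (nat_lit 0x4035000120180e0180))) 
(.lf (nat_lit 4027040020) (dlOf (nat_lit 2) (nat_lit 0x4000000e00181b0480)))))) (.nd (nat_lit 9) 
(.nd (nat_lit 10) (.nd (nat_lit 19) 
(.lf (nat_lit 10993684) (dlOf (nat_lit 1) (nat_lit 0x60018650481))) (.nd (nat_lit 23) 
(.lf (nat_lit 473939988) (dlOf (nat_lit 2) (nat_lit 0x905980038188001a0aa000205100030054003ce14009400400020018fc0082))) 
(.lf (nat_lit 12566548) (dlOf (nat_lit 1) (nat_lit 0x80080004002000200086d0703))))) 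
(.nd (nat_lit 7) (.lf (nat_lit 1344783380) (dlOf (nat_lit 1) (nat_lit 0x1800400040008982882))) 
(.lf (nat_lit 33014932) (dlOf (nat_lit 1) (nat_lit 0x400400020008f52b82))))) (.nd (nat_lit 20) 
(.nd (nat_lit 7) (.lf (nat_lit 40356372) (dlOf (nat_lit 2) (nat_lit 0xd7ee0002202000200291f5081))) 
(.lf (nat_lit 19911316) (dlOf (nat_lit 1) (nat_lit 0x80080004002000200089d8c83)))) 
(.nd (nat_lit 22) 
(.lf (nat_lit 1345831444) (dlOf (nat_lit 3) (nat_lit 0xc1170003b81000308b800000080008008001c00200040008e07d03))) 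
(.lf (nat_lit 58180116) (dlOf (nat_lit 1) (nat_lit 0x5c00297c7d01)))))))) (.nd (nat_lit 8) 
(.nd (nat_lit 27) (.nd (nat_lit 19) (.nd (nat_lit 22) (.nd (nat_lit 7) (.nd (nat_lit 9) 
(.lf (nat_lit 4563648596) (dlOf (nat_lit 1) (nat_lit 0x200180b0681))) 
(.lf (nat_lit 1610860116) (dlOf (nat_lit 1) (nat_lit 0x400200020008093882)))) 
(.lf (nat_lit 5906088148) (dlOf (nat_lit 1) (nat_lit 0x4002000200081a5b82)))) (.nd (nat_lit 20) 
(.lf (nat_lit 63160404) (dlOf (nat_lit 2) (nat_lit 0x426a0000640800080080008002001000099e0783))) 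
(.lf (nat_lit 24363092) (dlOf (nat_lit 1) (nat_lit 0x400200020008b91082))))) (.nd (nat_lit 21) 
(.nd (nat_lit 18) (.nd (nat_lit 20) 
(.lf (nat_lit 9158740) (dlOf (nat_lit 1) (nat_lit 0x320018521781))) 
(.lf (nat_lit 4095459412) (dlOf (nat_lit 1) (nat_lit 0x4004000200080c1a82)))) 
(.lf (nat_lit 69189716) (dlOf (nat_lit 1) (nat_lit 0x400188c0781)))) (.nd (nat_lit 18) 
(.nd (nat_lit 20) (.lf (nat_lit 2867284) (dlOf (nat_lit 1) (nat_lit 0x4004000200081c0d82))) 
(.lf (nat_lit 45858900) (dlOf (nat_lit 1) (nat_lit 0x20019360781)))) 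
(.lf (nat_lit 16760916) (dlOf (nat_lit 1) (nat_lit 0x4004000e00088e0282)))))) (.nd (nat_lit 29) 
(.nd (nat_lit 20) (.nd (nat_lit 26) (.nd (nat_lit 28) 
(.lf (nat_lit 134463572) (dlOf (nat_lit 1) (nat_lit 0x6a0018031081))) 
(.lf (nat_lit 4697866324) (dlOf (nat_lit 1) (nat_lit 0x200180b0681)))) 
(.lf (nat_lit 201572436) (dlOf (nat_lit 1) (nat_lit 0x6a0018031081)))) (.nd (nat_lit 7) 
(.lf (nat_lit 5773181012) (dlOf (nat_lit 3) (nat_lit 0x2180c9010e0640086030800901820002d0800820c9001306100005c1000980080020002001c00080b0683))) 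
(.lf (nat_lit 5772657876) (dlOf (nat_lit 1) (nat_lit 0x340028092d81))))) (.nd (nat_lit 18) 
(.nd (nat_lit 19) (.nd (nat_lit 26) 
(.lf (nat_lit 939769940) (dlOf (nat_lit 2) (nat_lit 0x15012800a80800048036000e0140001a048171080))) 
(.lf (nat_lit 1812185172) (dlOf (nat_lit 2) (nat_lit 0x15012800a80800048036000e0140001a048171080)))) 
(.lf (nat_lit 6377160788) (dlOf (nat_lit 3) (nat_lit 0x2180ca010e0648086030800901820002d0800820ca001306100005c1000980080020002001c00080b0683)))) 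
(.nd (nat_lit 21) 
(.lf (nat_lit 3892822100) (dlOf (nat_lit 4) (nat_lit 0x1405000060238001001002f014400c408c00520330014012002e8074023c02c00f800500030000000d840015018001040a80008051001e027801081280024048000e022001d00d802d00500000024003c004004c0018280282))) 
(.lf (nat_lit 1009238100) (dlOf (nat_lit 1) (nat_lit 0x48008002c002001200090a0783))))))) 
(.nd (nat_lit 18) (.nd (nat_lit 29) (.nd (nat_lit 7) (.nd (nat_lit 9) 
(.lf (nat_lit 2343252) (dlOf (nat_lit 1) (nat_lit 0x74800804a000201be0008150683))) 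
(.lf (nat_lit 4496542548) (dlOf (nat_lit 1) (nat_lit 0x500080020002000400080e5c03)))) 
(.nd (nat_lit 19) (.lf (nat_lit 1543750100) (dlOf (nat_lit 2) (nat_lit 0x8201700261818157100))) 
(.lf (nat_lit 5772132820) (dlOf (nat_lit 8) (nat_lit 0xc294001611f0001602000908f800380000005608002c23e0002a02001611f00010000000a410008847c00040000000504001611f0000101000f08f800300000000008000400400040018091182))))) 
(.nd (nat_lit 9) (.nd (nat_lit 27) (.nd (nat_lit 28) 
(.lf (nat_lit 3758342484) (dlOf (nat_lit 1) (nat_lit 0x20018130881))) 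
(.lf (nat_lit 805552468) (dlOf (nat_lit 5) (nat_lit 0x38012000340100100090001940801180480008804007c0240004202004c0028124d01)))) 
(.lf (nat_lit 671334740) (dlOf (nat_lit 3) (nat_lit 0x6000d8027000c01300000002806002602900190100036806c015400c00ba0030052000000098300298008008400200860008154d83)))) 
(.nd (nat_lit 7) (.lf (nat_lit 2885928788) (dlOf (nat_lit 1) (nat_lit 0x34002000a0008143f02))) 
(.lf (nat_lit 2818825172) (dlOf (nat_lit 3) (nat_lit 0x200360028881002b01b0012c8080030008000c0020008000812bf03)))))) 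
(.nd (nat_lit 7) (.nd (nat_lit 19) (.nd (nat_lit 10) (.nd (nat_lit 27) 
(.lf (nat_lit 4362584404) (dlOf (nat_lit 1) (nat_lit 0xc00400020008090682))) 
(.lf (nat_lit 4228366676) (dlOf (nat_lit 1) (nat_lit 0xc00400020008090682)))) 
(.lf (nat_lit 57132372) (dlOf (nat_lit 1) (nat_lit 0x400400020009793382)))) (.nd (nat_lit 26) 
(.lf (nat_lit 3490693460) (dlOf (nat_lit 1) (nat_lit 0x1360008014d01))) 
(.lf (nat_lit 2752495956) (dlOf (nat_lit 3) (nat_lit 0x6e2280039113001a885c000500c00d84500072226003510b800098180088008001c002000a0008014d83))))) 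
(.nd (nat_lit 28) (.nd (nat_lit 10) 
(.lf (nat_lit 50840020) (dlOf (nat_lit 1) (nat_lit 0x20008002c002001600094d7b03))) 
(.lf (nat_lit 8377812) (dlOf (nat_lit 1) (nat_lit 0x20018519b01)))) (.nd (nat_lit 26) 
(.lf (nat_lit 1342685652) (dlOf (nat_lit 1) (nat_lit 0x600180c0a81))) 
(.lf (nat_lit 470270420) (dlOf (nat_lit 1) (nat_lit 0x600180c0a81))))))))) (.nd (nat_lit 18) 
(.nd (nat_lit 28) (.nd (nat_lit 19) (.nd (nat_lit 6) (.nd (nat_lit 9) (.nd (nat_lit 26) 
(.nd (nat_lit 7) (.lf (nat_lit 18071604) (dlOf (nat_lit 1) (nat_lit 0x20018900c01))) 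
(.lf (nat_lit 671334836) (dlOf (nat_lit 1) (nat_lit 0x100008009800200100008157783)))) 
(.nd (nat_lit 27) 
(.lf (nat_lit 3825451060) (dlOf (nat_lit 2) (nat_lit 0x18000000e20200160008160601))) 
(.lf (nat_lit 1812185140) (dlOf (nat_lit 4) (nat_lit 0x1e004400ea01d005700880071c1800f009800900440048021002300e80120070008c022001c50c005e023001a00c8006f4100380008000400200620008170d03))))) 
(.nd (nat_lit 20) (.nd (nat_lit 8) 
(.lf (nat_lit 1677967924) (dlOf (nat_lit 1) (nat_lit 0x40018128b01))) 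
(.lf (nat_lit 4899195700) (dlOf (nat_lit 1) (nat_lit 0x8008000400200fe00080d5c03)))) 
(.nd (nat_lit 23) (.lf (nat_lit 1294900) (dlOf (nat_lit 1) (nat_lit 0x600180a8081))) 
(.lf (nat_lit 9683508) (dlOf (nat_lit 1) (nat_lit 0x8008000400200020008578b03)))))) 
(.nd (nat_lit 8) (.nd (nat_lit 7) (.nd (nat_lit 23) 
(.lf (nat_lit 2753806452) (dlOf (nat_lit 7) (nat_lit 0xc152001260100110a9000080000048e08006c2a80026000000fe82003b0aa0016853c016026e008a000000fe04000c0000006e00800485440028404009c00400040008090082))) 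
(.lf (nat_lit 44286068) (dlOf (nat_lit 3) (nat_lit 0x463e0000201000231f0001189c0000208000c004001c00092e0d82)))) 
(.nd (nat_lit 21) 
(.lf (nat_lit 2755903732) (dlOf (nat_lit 1) (nat_lit 0x800080010002001800081b0483))) 
(.lf (nat_lit 19120372) (dlOf (nat_lit 1) (nat_lit 0x25400400020008970602))))) (.nd (nat_lit 26) 
(.lf (nat_lit 671334900) (dlOf (nat_lit 1) (nat_lit 0x20008157e01))) (.nd (nat_lit 29) 
(.lf (nat_lit 3288580596) (dlOf (nat_lit 4) (nat_lit 0x1d8090002da0400ac04800162020018040000a7818090d80))) 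
(.lf (nat_lit 1677967860) (dlOf (nat_lit 4) (nat_lit 0x18038000cc04001801c0003f0200d6051005601d0000881000d80080020002004e0008127e03))))))) 
(.nd (nat_lit 9) (.nd (nat_lit 21) (.nd (nat_lit 8) (.nd (nat_lit 20) 
(.lf (nat_lit 9158708) (dlOf (nat_lit 1) (nat_lit 0x20018520f81))) 
(.lf (nat_lit 10207284) (dlOf (nat_lit 2) (nat_lit 0xf522000e38185c0d00)))) 
(.lf (nat_lit 51102004) (dlOf (nat_lit 1) (nat_lit 0x25400200020009507b02)))) (.nd (nat_lit 6) 
(.nd (nat_lit 26) 
(.lf (nat_lit 2867252) (dlOf (nat_lit 2) (nat_lit 0x248000001bd02001800181c0b81))) 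
(.lf (nat_lit 2754330676) (dlOf (nat_lit 2) (nat_lit 0x1c21fd00d90f38007441001f000800bc002007200080d0b83)))) 
(.lf (nat_lit 45859060) (dlOf (nat_lit 1) (nat_lit 0xa0009362481))))) (.nd (nat_lit 7) 
(.nd (nat_lit 8) (.nd (nat_lit 20) 
(.lf (nat_lit 19647028) (dlOf (nat_lit 1) (nat_lit 0x8000800c8002002000089d5183))) 
(.lf (nat_lit 68930100) (dlOf (nat_lit 1) (nat_lit 0x400400020008845182)))) 
(.lf (nat_lit 19650356) (dlOf (nat_lit 1) (nat_lit 0x200289da101)))) (.nd (nat_lit 6) 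
(.lf (nat_lit 19650484) (dlOf (nat_lit 1) (nat_lit 0x200189da401))) (.nd (nat_lit 8) 
(.lf (nat_lit 8111860) (dlOf (nat_lit 1) (nat_lit 0x280018513b81))) 
(.lf (nat_lit 36422644) (dlOf (nat_lit 1) (nat_lit 0x40019072881)))))))) (.nd (nat_lit 29) 
(.nd (nat_lit 20) (.nd (nat_lit 30) (.nd (nat_lit 27) (.nd (nat_lit 31) 
(.lf (nat_lit 4563648564) (dlOf (nat_lit 3) (nat_lit 0x104064007001500240090005c41800080cc0088064000201e000500e800e805400128140014004003800080b0482))) 
(.lf (nat_lit 2416164916) (dlOf (nat_lit 1) (nat_lit 0x20c00200740008090002)))) 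
(.lf (nat_lit 4697866292) (dlOf (nat_lit 3) (nat_lit 0x104064007001500240090005cc1800080cc0088064000201e000500e800e805400128140014004003800080b0482)))) 
(.nd (nat_lit 6) 
(.lf (nat_lit 3492528180) (dlOf (nat_lit 2) (nat_lit 0x1c21eb00d90e90007441001f000800bc002007200080d0b83))) 
(.nd (nat_lit 7) (.lf (nat_lit 3557019764) (dlOf (nat_lit 1) (nat_lit 0x400400020008127d82))) 
(.lf (nat_lit 3624127988) (dlOf (nat_lit 3) (nat_lit 0xc0208000540800081040000804004800400240018146f02)))))) 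
(.nd (nat_lit 7) (.nd (nat_lit 9) 
(.lf (nat_lit 5773180980) (dlOf (nat_lit 12) (nat_lit 0x15e033809f818c01cc0c402fe061016e030005b017805980ba007a05a010202c0095815005fc0a002fe04f014602700bf813405fc09802fe04b011a024804c0120023808e02fe046017f0228087011002b00860302042000700180110008064c0020023c3600520000011c01021606480f0830808780000023706001c0000011a8100080000008a80806680000044c040020000002230200680c9000f98100220000007ac080a48000001020400300000008002006c00180b0481))) 
(.lf (nat_lit 473680436) (dlOf (nat_lit 1) (nat_lit 0x160028fa5181)))) (.nd (nat_lit 6) 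
(.nd (nat_lit 10) (.lf (nat_lit 3490955444) (dlOf (nat_lit 1) (nat_lit 0x400400020008044f02))) 
(.lf (nat_lit 473679028) (dlOf (nat_lit 1) (nat_lit 0x20018fa2c01)))) 
(.lf (nat_lit 3493054452) (dlOf (nat_lit 1) (nat_lit 0xc004000200080f4682)))))) (.nd (nat_lit 6) 
(.nd (nat_lit 19) (.nd (nat_lit 9) (.nd (nat_lit 31) 
(.lf (nat_lit 939769908) (dlOf (nat_lit 4) (nat_lit 0x1e004400ea01d005700880071c1800f009800900440048021002300e80120070008c022001c50c005e023001a00c8006f4100380008000400200620008170d03))) 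
(.lf (nat_lit 3087253556) (dlOf (nat_lit 2) (nat_lit 0x18000000b20200160008160601)))) 
(.lf (nat_lit 6308481588) (dlOf (nat_lit 1) (nat_lit 0x800180d5181)))) (.nd (nat_lit 8) 
(.lf (nat_lit 6377160756) (dlOf (nat_lit 12) (nat_lit 0x16e033805b019405980c8007a061010202f8095816c05fc0ae02fe056014602a80bf815005780a6027e04f007302700bf813405fc098023404a017f024804c0120023808e02fe046010e02280bf811002b00860302042000700180110008064c0020023c3600520000011c01021606500f0830808780000023706001c0000011a8100080000008a80806680000044c0400200000021f0200680ca000f90100220000007ac080a48000001020400300000008002006c00180b0481))) 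
(.lf (nat_lit 6376112436) (dlOf (nat_lit 1) (nat_lit 0x1000400100018090b82))))) (.nd (nat_lit 7) 
(.nd (nat_lit 8) (.lf (nat_lit 3020144756) (dlOf (nat_lit 1) (nat_lit 0x20018130281))) 
(.nd (nat_lit 9) (.lf (nat_lit 5100521844) (dlOf (nat_lit 1) (nat_lit 0x4002000200080d4e82))) 
(.lf (nat_lit 1008978804) (dlOf (nat_lit 1) (nat_lit 0xa00009005c01))))) (.nd (nat_lit 8) 
(.lf (nat_lit 4161000692) (dlOf (nat_lit 1) (nat_lit 0x3200080a9501))) 
(.lf (nat_lit 4026778100) (dlOf (nat_lit 4) (nat_lit 0x1d8090002da0400ac04800162020018040000a7818090d80)))))))) 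
(.nd (nat_lit 6) (.nd (nat_lit 19) (.nd (nat_lit 20) (.nd (nat_lit 21) (.nd (nat_lit 26) 
(.nd (nat_lit 27) (.lf (nat_lit 2416427060) (dlOf (nat_lit 1) (nat_lit 0x18004001a00081d0a82))) 
(.lf (nat_lit 2550644788) (dlOf (nat_lit 1) (nat_lit 0x18004001a00081d0a82)))) (.nd (nat_lit 7) 
(.lf (nat_lit 2886189364) (dlOf (nat_lit 2) (nat_lit 0x1a03e0025c818188400))) 
(.lf (nat_lit 6510067892) (dlOf (nat_lit 1) (nat_lit 0x80080004002000200081a4f03))))) 
(.nd (nat_lit 10) (.lf (nat_lit 2605108) (dlOf (nat_lit 1) (nat_lit 0x8008000400200020008170a83))) 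
(.lf (nat_lit 40354868) (dlOf (nat_lit 1) (nat_lit 0x4004000200091f2882))))) (.nd (nat_lit 21) 
(.nd (nat_lit 23) (.lf (nat_lit 1343733812) (dlOf (nat_lit 1) (nat_lit 0x98004000e0008350882))) 
(.lf (nat_lit 26722356) (dlOf (nat_lit 2) (nat_lit 0x22ff80007404001000400140008c60e02)))) 
(.nd (nat_lit 9) (.lf (nat_lit 3653684) (dlOf (nat_lit 1) (nat_lit 0x8008000400200020008210b03))) 
(.lf (nat_lit 41404980) (dlOf (nat_lit 1) (nat_lit 0x20019245181)))))) (.nd (nat_lit 21) 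
(.nd (nat_lit 7) (.nd (nat_lit 24) (.nd (nat_lit 27) 
(.lf (nat_lit 68141108) (dlOf (nat_lit 1) (nat_lit 0x8008001800200020008400483))) 
(.lf (nat_lit 470794292) (dlOf (nat_lit 2) (nat_lit 0x809000078040038004001c00181a0e02)))) 
(.lf (nat_lit 17809460) (dlOf (nat_lit 1) (nat_lit 0x200288f0f81)))) (.nd (nat_lit 8) 
(.nd (nat_lit 9) (.lf (nat_lit 51365044) (dlOf (nat_lit 1) (nat_lit 0x1400200040009512c02))) 
(.lf (nat_lit 6376377012) (dlOf (nat_lit 1) (nat_lit 0xf000400a20018095702)))) 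
(.lf (nat_lit 2752496052) (dlOf (nat_lit 1) (nat_lit 0x20018017781))))) (.nd (nat_lit 9) 
(.nd (nat_lit 10) (.nd (nat_lit 11) 
(.lf (nat_lit 28295220) (dlOf (nat_lit 2) (nat_lit 0x25198000080800e8008000800200020008d80883))) 
(.lf (nat_lit 3492792372) (dlOf (nat_lit 1) (nat_lit 0xc002000400080f4702)))) 
(.lf (nat_lit 41927732) (dlOf (nat_lit 1) (nat_lit 0x400400020009242882)))) (.nd (nat_lit 8) 
(.lf (nat_lit 58706484) (dlOf (nat_lit 1) (nat_lit 0x200197e5181))) 
(.lf (nat_lit 19909428) (dlOf (nat_lit 1) (nat_lit 0x4002000200089d5c02))))))) (.nd (nat_lit 26) 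
(.nd (nat_lit 19) (.nd (nat_lit 7) (.nd (nat_lit 22) 
(.lf (nat_lit 134725748) (dlOf (nat_lit 6) (nat_lit 0x4015000f08100160000005900809a010c052407e024a03a002501a8072004c002841402e407e001403a000a0820074021805480fc0158076009803a00d401b004d004c0000018000800400a00018090082))) 
(.lf (nat_lit 55033972) (dlOf (nat_lit 1) (nat_lit 0xc00400080009690d82)))) (.nd (nat_lit 8) 
(.nd (nat_lit 9) (.lf (nat_lit 48742644) (dlOf (nat_lit 1) (nat_lit 0x20019422481))) 
(.lf (nat_lit 4563913460) (dlOf (nat_lit 1) (nat_lit 0x2b00080360002020c0008125a03)))) 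
(.lf (nat_lit 1342685684) (dlOf (nat_lit 1) (nat_lit 0x2c004001a00080c0d82))))) (.nd (nat_lit 9) 
(.nd (nat_lit 8) (.lf (nat_lit 24101108) (dlOf (nat_lit 1) (nat_lit 0x200008b80481))) 
(.lf (nat_lit 8373748) (dlOf (nat_lit 1) (nat_lit 0x400200020008513602)))) (.nd (nat_lit 7) 
(.lf (nat_lit 8373876) (dlOf (nat_lit 2) (nat_lit 0x83280000000800a0008002400200140008513983))) 
(.lf (nat_lit 3492792052) (dlOf (nat_lit 1) (nat_lit 0x200280f3b81)))))) (.nd (nat_lit 27) 
(.nd (nat_lit 8) (.nd (nat_lit 7) 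
(.lf (nat_lit 4362584180) (dlOf (nat_lit 2) (nat_lit 0x1023800930080090008005c00200160008090083))) 
(.nd (nat_lit 9) (.lf (nat_lit 69189876) (dlOf (nat_lit 1) (nat_lit 0x200188c2481))) 
(.lf (nat_lit 4094151412) (dlOf (nat_lit 1) (nat_lit 0xc0018005a01))))) (.nd (nat_lit 9) 
(.lf (nat_lit 2752496116) (dlOf (nat_lit 1) (nat_lit 0x1000400020018017e02))) 
(.lf (nat_lit 2751972340) (dlOf (nat_lit 1) (nat_lit 0x400200020008002882))))) (.nd (nat_lit 7) 
(.nd (nat_lit 28) 
(.lf (nat_lit 201834612) (dlOf (nat_lit 6) (nat_lit 0x4016001018100160000005a00809a010c052407e024a03a002501a8072004c002841402e407e001403a000a0820074021805480fc0158076009803a00d401b004d004c0000018000800400a00018090082))) 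
(.lf (nat_lit 4228366452) (dlOf (nat_lit 2) (nat_lit 0x10200008d0080090008005c00200160008090083)))) 
(.nd (nat_lit 8) (.lf (nat_lit 1009238260) (dlOf (nat_lit 1) (nat_lit 0x20004000200090a2482))) 
(.lf (nat_lit 470270452) (dlOf (nat_lit 1) (nat_lit 0x2c004001a00080c0d82)))))))))) 
(.nd (nat_lit 18) (.nd (nat_lit 8) (.nd (nat_lit 19) (.nd (nat_lit 6) (.nd (nat_lit 5) 
(.nd (nat_lit 28) (.nd (nat_lit 26) (.nd (nat_lit 20) (.nd (nat_lit 27) 
(.lf (nat_lit 4295213084) (dlOf (nat_lit 1) (nat_lit 0x100080008002000400080b0a03))) 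
(.lf (nat_lit 134463516) (dlOf (nat_lit 1) (nat_lit 0x400400020008030902)))) 
(.lf (nat_lit 47431708) (dlOf (nat_lit 1) (nat_lit 0x4004000200093f0282)))) (.nd (nat_lit 7) 
(.lf (nat_lit 201572380) (dlOf (nat_lit 1) (nat_lit 0x400400020008030902))) 
(.lf (nat_lit 5436063900) (dlOf (nat_lit 1) (nat_lit 0x400180a2b81))))) (.nd (nat_lit 9) 
(.nd (nat_lit 29) (.lf (nat_lit 2416164892) (dlOf (nat_lit 1) (nat_lit 0x400400020008090002))) 
(.lf (nat_lit 1879293980) (dlOf (nat_lit 1) (nat_lit 0x4004000200080c0002)))) (.nd (nat_lit 7) 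
(.lf (nat_lit 805552668) (dlOf (nat_lit 4) (nat_lit 0x96051000301d0010141000080e80080804002c0a2003e80200080018127f01))) 
(.lf (nat_lit 3493054108) (dlOf (nat_lit 1) (nat_lit 0x200280f3a81)))))) (.nd (nat_lit 28) 
(.nd (nat_lit 21) (.nd (nat_lit 26) 
(.lf (nat_lit 537116732) (dlOf (nat_lit 2) (nat_lit 0x140b0000000200020018020701))) 
(.lf (nat_lit 3825451068) (dlOf (nat_lit 3) (nat_lit 0x280200005604019c014007c00800a50000000001800c0008006000200380008160703)))) 
(.nd (nat_lit 7) (.lf (nat_lit 61063228) (dlOf (nat_lit 1) (nat_lit 0x4002000600098c0002))) 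
(.lf (nat_lit 11780284) (dlOf (nat_lit 2) (nat_lit 0xdd43800466c40002f04000800286c0381))))) 
(.nd (nat_lit 26) (.nd (nat_lit 9) (.nd (nat_lit 27) 
(.lf (nat_lit 6711132220) (dlOf (nat_lit 1) (nat_lit 0x400400020018090002))) 
(.lf (nat_lit 3087253564) (dlOf (nat_lit 3) (nat_lit 0x280200004c04019c014007c00800a50000000001800c0008006000200380008160703)))) 
(.lf (nat_lit 805552700) (dlOf (nat_lit 1) (nat_lit 0xa80080038002007a0008128203)))) 
(.nd (nat_lit 7) 
(.lf (nat_lit 1409531964) (dlOf (nat_lit 2) (nat_lit 0x140b0000000200020018020701))) 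
(.lf (nat_lit 3557019836) (dlOf (nat_lit 1) (nat_lit 0x20008127e81))))))) (.nd (nat_lit 21) 
(.nd (nat_lit 26) (.nd (nat_lit 12) (.nd (nat_lit 5) (.nd (nat_lit 22) 
(.lf (nat_lit 2013511772) (dlOf (nat_lit 1) (nat_lit 0x4004000200080d0702))) 
(.lf (nat_lit 63160412) (dlOf (nat_lit 2) (nat_lit 0x1533e800416500004408002c004002e00099e0882)))) 
(.lf (nat_lit 5905827964) (dlOf (nat_lit 1) (nat_lit 0x400400020008144782)))) (.nd (nat_lit 7) 
(.lf (nat_lit 2818822748) (dlOf (nat_lit 1) (nat_lit 0x68008004c00200020008128983))) 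
(.lf (nat_lit 2818822364) (dlOf (nat_lit 1) (nat_lit 0x360028128081))))) (.nd (nat_lit 5) 
(.nd (nat_lit 29) (.lf (nat_lit 1141096540) (dlOf (nat_lit 1) (nat_lit 0x4004000200080d0702))) 
(.lf (nat_lit 3825451100) (dlOf (nat_lit 1) (nat_lit 0x1480008160b01)))) 
(.lf (nat_lit 6241372796) (dlOf (nat_lit 1) (nat_lit 0xc002000200080d5402))))) (.nd (nat_lit 20) 
(.nd (nat_lit 5) (.nd (nat_lit 10) 
(.lf (nat_lit 1008975964) (dlOf (nat_lit 1) (nat_lit 0x300009000081))) 
(.lf (nat_lit 61064284) (dlOf (nat_lit 2) (nat_lit 0x733f0004ac0801e0008000c002000600098c2903)))) 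
(.lf (nat_lit 2753806460) (dlOf (nat_lit 2) (nat_lit 0x900aa002a84dc003fe080008004000a0008090082)))) 
(.nd (nat_lit 5) (.nd (nat_lit 7) 
(.lf (nat_lit 32751708) (dlOf (nat_lit 1) (nat_lit 0x400200020008f10882))) 
(.lf (nat_lit 7586012) (dlOf (nat_lit 1) (nat_lit 0x4002000200084b0582)))) 
(.lf (nat_lit 41140476) (dlOf (nat_lit 2) (nat_lit 0x23a800029e04000c00400020009222902))))))) 
(.nd (nat_lit 20) (.nd (nat_lit 30) (.nd (nat_lit 5) (.nd (nat_lit 9) (.nd (nat_lit 26) 
(.lf (nat_lit 537640988) (dlOf (nat_lit 6) (nat_lit 0x102d000f015c023c0a40023c06001805d001302b82c48148002806600040220011985000202e8005015c15c40a4001e0330011884000f03580010174003c0b4003a0570630029000400cc00480440024000001178800180000008b408040000807f4002006600080e0483))) 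
(.lf (nat_lit 470532124) (dlOf (nat_lit 1) (nat_lit 0x20008110a81)))) 
(.lf (nat_lit 19652124) (dlOf (nat_lit 1) (nat_lit 0xa8002008400089dcf02)))) (.nd (nat_lit 21) 
(.nd (nat_lit 22) (.lf (nat_lit 537641020) (dlOf (nat_lit 2) (nat_lit 0xc4031000000180e0d80))) 
(.lf (nat_lit 21741628) (dlOf (nat_lit 2) (nat_lit 0x1c8b0000f8080060008003000200300008a70703)))) 
(.lf (nat_lit 2754330684) (dlOf (nat_lit 1) (nat_lit 0x200280d0b81))))) (.nd (nat_lit 26) 
(.nd (nat_lit 5) (.nd (nat_lit 21) 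
(.lf (nat_lit 1342947356) (dlOf (nat_lit 1) (nat_lit 0x20008110a81))) 
(.lf (nat_lit 1345044508) (dlOf (nat_lit 2) (nat_lit 0x282f4001816e0015f04000200189d0601)))) 
(.lf (nat_lit 3492528188) (dlOf (nat_lit 1) (nat_lit 0x200280d0b81)))) (.nd (nat_lit 5) 
(.nd (nat_lit 6) 
(.lf (nat_lit 1410056220) (dlOf (nat_lit 6) (nat_lit 0x102d000f015c023c0a40023c06001805d001302b82c48148002806600040220011985000202e8005015c15c40a4001e0330011884000f03580010174003c0b4003a0570630029000400cc00480440024000001178800180000008b408040000807f4002006600080e0483))) 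
(.lf (nat_lit 6376112220) (dlOf (nat_lit 1) (nat_lit 0x100018090081)))) 
(.lf (nat_lit 1410056252) (dlOf (nat_lit 2) (nat_lit 0xc4031000000180e0d80)))))) (.nd (nat_lit 21) 
(.nd (nat_lit 26) (.nd (nat_lit 23) (.nd (nat_lit 7) 
(.lf (nat_lit 5773180956) (dlOf (nat_lit 3) (nat_lit 0x61819c059c0c602ce062008f030804f018000d00bc00bc05901650280060013c016c09c026804d0101026008c812c01740920266048001a02380b3811802a808a01be044013b02180730108012800402f2001000251701ad0000000ec0800880080048002003600080b0103))) 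
(.lf (nat_lit 3491479708) (dlOf (nat_lit 2) (nat_lit 0x608b00017818090180)))) (.nd (nat_lit 24) 
(.lf (nat_lit 10207260) (dlOf (nat_lit 1) (nat_lit 0x200085c0901))) 
(.lf (nat_lit 60538908) (dlOf (nat_lit 1) (nat_lit 0x10008001c00200040009890503))))) 
(.nd (nat_lit 7) (.nd (nat_lit 9) 
(.lf (nat_lit 6377160732) (dlOf (nat_lit 3) (nat_lit 0x4f019c00d00ca00bc060016502b80600158016c0aa026805400c302980b3813c059c09c011e04d0119026002e812804040920266048001a02380b38118037c08a0154044013b02180730108012800402f2001000251701ad0000000ec0800880080048002003600080b0103))) 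
(.lf (nat_lit 2753282588) (dlOf (nat_lit 1) (nat_lit 0x8008002400200020008090d83)))) 
(.lf (nat_lit 2753282204) (dlOf (nat_lit 2) (nat_lit 0x608800017818090180))))) (.nd (nat_lit 6) 
(.nd (nat_lit 26) (.nd (nat_lit 28) 
(.lf (nat_lit 3915804) (dlOf (nat_lit 2) (nat_lit 0x32a8800000080060008000800200020008250a83))) 
(.lf (nat_lit 3493576732) (dlOf (nat_lit 2) (nat_lit 0x40100029980800080080028002000c0008170483)))) 
(.lf (nat_lit 2755379228) (dlOf (nat_lit 2) (nat_lit 0x40100013440800080080028002000c0008170483)))) 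
(.nd (nat_lit 5) (.lf (nat_lit 58441820) (dlOf (nat_lit 1) (nat_lit 0x1200297e0081))) 
(.lf (nat_lit 8116988) (dlOf (nat_lit 1) (nat_lit 0x8008000c0020008000851b983)))))))) 
(.nd (nat_lit 5) (.nd (nat_lit 6) (.nd (nat_lit 30) (.nd (nat_lit 21) (.nd (nat_lit 26) 
(.lf (nat_lit 4966301980) (dlOf (nat_lit 2) (nat_lit 0x4006000ab018090a80))) 
(.lf (nat_lit 4496539932) (dlOf (nat_lit 1) (nat_lit 0x200080e0a81)))) (.nd (nat_lit 10) 
(.lf (nat_lit 20168988) (dlOf (nat_lit 1) (nat_lit 0x580080004002000200089d0a83))) 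
(.lf (nat_lit 19649820) (dlOf (nat_lit 1) (nat_lit 0x200289d9701))))) (.nd (nat_lit 7) 
(.nd (nat_lit 10) (.lf (nat_lit 3494101276) (dlOf (nat_lit 1) (nat_lit 0x2a00281b0481))) 
(.lf (nat_lit 3221474588) (dlOf (nat_lit 1) (nat_lit 0x8008000400200020008116783)))) 
(.nd (nat_lit 19) 
(.lf (nat_lit 4026778012) (dlOf (nat_lit 1) (nat_lit 0x10008004000200360008090783))) 
(.lf (nat_lit 3491479964) (dlOf (nat_lit 1) (nat_lit 0x800400020008090782)))))) (.nd (nat_lit 19) 
(.nd (nat_lit 29) (.nd (nat_lit 20) (.nd (nat_lit 7) 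
(.lf (nat_lit 1543749980) (dlOf (nat_lit 2) (nat_lit 0x1800000050040010002001e0008154e82))) 
(.lf (nat_lit 61064156) (dlOf (nat_lit 1) (nat_lit 0x8004000200098c2882)))) (.nd (nat_lit 23) 
(.lf (nat_lit 3490955612) (dlOf (nat_lit 1) (nat_lit 0x400400020008048b02))) 
(.lf (nat_lit 9683292) (dlOf (nat_lit 1) (nat_lit 0xa0002000e0008574e02))))) (.nd (nat_lit 26) 
(.nd (nat_lit 27) (.lf (nat_lit 3758342492) (dlOf (nat_lit 1) (nat_lit 0x400200020008130902))) 
(.lf (nat_lit 671334748) (dlOf (nat_lit 2) (nat_lit 0x2202500015818154e00)))) (.nd (nat_lit 20) 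
(.lf (nat_lit 1677967708) (dlOf (nat_lit 14) (nat_lit 0x4fc0aa014604e008f01b81240048072c01401ea0060003486013f02a80518138024006e0490012003300800d70028038400c000680e0178055005a027002300dc071c024030000a00bc003000194300a0015400640a6014804e009101b811f8048073001401ea0060002207005a027002300dc061001401780060002184015002a8010014c02d409c005004c00a101b812c0048070001401e4006000210801340050000f4080008150000406c0002011000200300009020051015000a809a006803600a400880438018000461402080a800a00110001002008202a004b80440003e0801040a800880110000f02009202b00490154013009c006e037001d01a8003004c067002402c400a007600300000048099000804c800209520008124e03))) 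
(.lf (nat_lit 2752758108) (dlOf (nat_lit 1) (nat_lit 0x40018048d01)))))) (.nd (nat_lit 7) 
(.nd (nat_lit 21) (.lf (nat_lit 770396) (dlOf (nat_lit 1) (nat_lit 0x80018014e01))) 
(.lf (nat_lit 23839068) (dlOf (nat_lit 1) (nat_lit 0x1000200020008b80682)))) (.nd (nat_lit 10) 
(.lf (nat_lit 36422620) (dlOf (nat_lit 1) (nat_lit 0x1400200020009072882))) 
(.lf (nat_lit 67882972) (dlOf (nat_lit 1) (nat_lit 0x20008337a81))))))) (.nd (nat_lit 6) 
(.nd (nat_lit 26) (.nd (nat_lit 7) (.nd (nat_lit 10) (.nd (nat_lit 19) 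
(.lf (nat_lit 671334716) (dlOf (nat_lit 2) (nat_lit 0x30036000e00300260028154c00))) 
(.lf (nat_lit 51102012) (dlOf (nat_lit 1) (nat_lit 0x40009507c01)))) 
(.lf (nat_lit 20172092) (dlOf (nat_lit 1) (nat_lit 0x4000289d6901)))) (.nd (nat_lit 21) 
(.lf (nat_lit 4026778044) (dlOf (nat_lit 2) (nat_lit 0x3200000000018090880))) 
(.lf (nat_lit 23314876) (dlOf (nat_lit 1) (nat_lit 0x8008000400200020008b80883))))) 
(.nd (nat_lit 27) (.nd (nat_lit 7) (.nd (nat_lit 9) 
(.lf (nat_lit 2752758076) (dlOf (nat_lit 1) (nat_lit 0x900080034002001a0008048503))) 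
(.lf (nat_lit 4899195708) (dlOf (nat_lit 2) (nat_lit 0x200c40011c040004002000200080d5c02)))) 
(.lf (nat_lit 3288580540) (dlOf (nat_lit 2) (nat_lit 0x3200000000018090880)))) (.nd (nat_lit 19) 
(.nd (nat_lit 21) 
(.lf (nat_lit 1543749948) (dlOf (nat_lit 2) (nat_lit 0x30032000e0030052a828154c00))) 
(.lf (nat_lit 1008976188) (dlOf (nat_lit 1) (nat_lit 0x20800801a0002003e0009000b83)))) 
(.lf (nat_lit 6378209596) (dlOf (nat_lit 1) (nat_lit 0xc0028127c01)))))) (.nd (nat_lit 7) 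
(.nd (nat_lit 19) (.nd (nat_lit 20) 
(.lf (nat_lit 3288580476) (dlOf (nat_lit 1) (nat_lit 0x2c00400380008090782))) 
(.lf (nat_lit 9683324) (dlOf (nat_lit 1) (nat_lit 0x20028575a81)))) (.nd (nat_lit 11) 
(.lf (nat_lit 770428) (dlOf (nat_lit 1) (nat_lit 0x220028015a81))) 
(.lf (nat_lit 33278332) (dlOf (nat_lit 1) (nat_lit 0x40018f54e81))))) (.nd (nat_lit 20) 
(.nd (nat_lit 27) 
(.lf (nat_lit 1677967868) (dlOf (nat_lit 25) (nat_lit 0x10080009802200260070001a01800801080e3001c047200c025e00000019c200238108019c080081802203e900701800030069c008067600000033070022011000300380009408000c01c0004602005000e0002281000202100178088002801c0004206000a042038b007000104100a781080dfc04406d600e033400200ec80000007e1400a001c0003e02004c00e0001e8100c00288012812c0080084013e03a000118402d8028801d812c0ac0074021201a000110400190210000840804f014401c80740001e04021205100e101d00228068000380c00740a20001b02001e000000070100110000000300800a0000000160400500000000602002800000001010014000000004080348038000000400bc00400060008127e02)))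 
(.lf (nat_lit 1543750140) (dlOf (nat_lit 9) (nat_lit 0x4029004e01180150080009803000a5b0800de02300280100029681000a00a4010c046003e020001b00c00138014004000400a590c0094023002301000260060004c00a00a460800ac023002a010001b8060006c01000780050052285005d011802c8080014400a00a3c0600040050051d0100050118025f00804980080614002001e0008157803)))) 
(.nd (nat_lit 9) (.nd (nat_lit 11) 
(.lf (nat_lit 9683452) (dlOf (nat_lit 1) (nat_lit 0x240018577e01))) 
(.lf (nat_lit 39045628) (dlOf (nat_lit 2) (nat_lit 0x3333800120080010008001000200060009194f83)))) 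
(.lf (nat_lit 3493054460) (dlOf (nat_lit 1) (nat_lit 0x2e00080f4701))))))))) (.nd (nat_lit 21) 
(.nd (nat_lit 5) (.nd (nat_lit 29) (.nd (nat_lit 7) (.nd (nat_lit 24) (.nd (nat_lit 19) 
(.nd (nat_lit 27) 
(.lf (nat_lit 2416427036) (dlOf (nat_lit 3) (nat_lit 0xc020000c00d006a582000400900020044001c020000400f00060068035282800900080040002001200081d0a03))) 
(.lf (nat_lit 134725660) (dlOf (nat_lit 1) (nat_lit 0x400400040018090002)))) (.nd (nat_lit 9) 
(.lf (nat_lit 38780956) (dlOf (nat_lit 1) (nat_lit 0x3400400040019150102))) 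
(.lf (nat_lit 3490693660) (dlOf (nat_lit 1) (nat_lit 0x20028017f01))))) (.nd (nat_lit 6) 
(.nd (nat_lit 9) 
(.lf (nat_lit 26722332) (dlOf (nat_lit 4) (nat_lit 0x27307c00f52f40006a040006c1f000348100025e500004408023000800bc00200100008c60503))) 
(.lf (nat_lit 50840092) (dlOf (nat_lit 2) (nat_lit 0x40e86004d102005a00194d8701)))) 
(.lf (nat_lit 21479516) (dlOf (nat_lit 1) (nat_lit 0x380080028002000a0008a40703))))) 
(.nd (nat_lit 6) (.nd (nat_lit 8) (.nd (nat_lit 26) 
(.lf (nat_lit 3221733532) (dlOf (nat_lit 2) (nat_lit 0x880000000004008000200060008170182))) 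
(.lf (nat_lit 1409794204) (dlOf (nat_lit 5) (nat_lit 0x800960005602007405f0019016800c800c0005e0c009805a0002e02002c04b0007018000058100030008003800200020008090183)))) 
(.lf (nat_lit 1409794460) (dlOf (nat_lit 1) (nat_lit 0x400400020018090782)))) (.nd (nat_lit 10) 
(.lf (nat_lit 50840028) (dlOf (nat_lit 1) (nat_lit 0xdc004008000094d7c82))) 
(.lf (nat_lit 8902108) (dlOf (nat_lit 1) (nat_lit 0x40018519b01)))))) (.nd (nat_lit 6) 
(.nd (nat_lit 7) (.nd (nat_lit 20) (.nd (nat_lit 26) 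
(.lf (nat_lit 537378844) (dlOf (nat_lit 1) (nat_lit 0x400400020008090002))) 
(.lf (nat_lit 738705436) (dlOf (nat_lit 3) (nat_lit 0x1a2029803c813c00cc06a00be03000870108000c82800180fc00056040038004003c00080e0502)))) 
(.lf (nat_lit 4095197212) (dlOf (nat_lit 1) (nat_lit 0x40018070101)))) (.nd (nat_lit 26) 
(.lf (nat_lit 537378972) (dlOf (nat_lit 5) (nat_lit 0x800960005602007405f0019016800c800c0005e0c009805a0002e02002c04b0007018000058100030008003800200020008090183))) 
(.lf (nat_lit 3959931036) (dlOf (nat_lit 2) (nat_lit 0x880000000004008000200060008170182))))) 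
(.nd (nat_lit 8) (.nd (nat_lit 26) 
(.lf (nat_lit 805814364) (dlOf (nat_lit 2) (nat_lit 0x2013000120181b1200))) 
(.lf (nat_lit 1678229596) (dlOf (nat_lit 2) (nat_lit 0x2013000070181b1200)))) 
(.lf (nat_lit 2752495964) (dlOf (nat_lit 1) (nat_lit 0x60028014e01)))))) (.nd (nat_lit 28) 
(.nd (nat_lit 23) (.nd (nat_lit 6) (.nd (nat_lit 8) 
(.lf (nat_lit 2752496188) (dlOf (nat_lit 1) (nat_lit 0x320028018b01))) (.nd (nat_lit 26) 
(.lf (nat_lit 1745338684) (dlOf (nat_lit 1) (nat_lit 0x400200020008127c02))) 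
(.lf (nat_lit 2886189372) (dlOf (nat_lit 2) (nat_lit 0x540280004c0200280008188501))))) 
(.nd (nat_lit 26) 
(.lf (nat_lit 134725756) (dlOf (nat_lit 2) (nat_lit 0xac00f000100000059010006000800d800200260008090083))) 
(.lf (nat_lit 201834620) (dlOf (nat_lit 2) (nat_lit 0xac00e00010000005a010006000800d800200260008090083))))) 
(.nd (nat_lit 9) (.nd (nat_lit 6) 
(.lf (nat_lit 30916668) (dlOf (nat_lit 1) (nat_lit 0x1a0028e50c81))) (.nd (nat_lit 8) 
(.lf (nat_lit 8898684) (dlOf (nat_lit 1) (nat_lit 0xe0028514781))) 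
(.lf (nat_lit 43499900) (dlOf (nat_lit 1) (nat_lit 0x800092a1001))))) (.nd (nat_lit 7) 
(.lf (nat_lit 8898172) (dlOf (nat_lit 3) (nat_lit 0x1f4608016228c009d0e0006883400203a4000f0f3c0001c18000d18200588a30003438002a20d0000c79e000000a00640028513981))) 
(.lf (nat_lit 8897276) (dlOf (nat_lit 1) (nat_lit 0x48008002800200160008512103)))))) 
(.nd (nat_lit 7) (.nd (nat_lit 30) (.nd (nat_lit 9) (.nd (nat_lit 27) 
(.lf (nat_lit 2416427068) (dlOf (nat_lit 10) (nat_lit 0x1c0240013302006a012002a008801e0040002640c00080200013102000401000097810005009000a8040005401e000200e0010006800180240024618069c024035201101aa00780d1803400244100638024032601101a000780d4803400242100660024034601101a500780d500340024010004c02400340110003007800200340023e10005c002000200081d0c02))) 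
(.lf (nat_lit 2550644796) (dlOf (nat_lit 10) (nat_lit 0x1c0240014002006a012002a008801e00400027e0c00080200013e0200040100009e010005009000a8040005401e000200e0010006800180200026418069c024035201101aa00780d1803400262100638024032601101a000780d4803400260100660024034601101a500780d500340025e10004c02400340110003007800200340025c10005c002000200081d0c02)))) 
(.lf (nat_lit 470270524) (dlOf (nat_lit 1) (nat_lit 0x400180c1001)))) (.nd (nat_lit 6) 
(.nd (nat_lit 9) 
(.lf (nat_lit 4095197244) (dlOf (nat_lit 1) (nat_lit 0x368008032400200480008070483))) 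
(.lf (nat_lit 1342685756) (dlOf (nat_lit 1) (nat_lit 0x400180c1001)))) 
(.lf (nat_lit 3490171260) (dlOf (nat_lit 1) (nat_lit 0x400200020008004e82))))) (.nd (nat_lit 6) 
(.nd (nat_lit 26) 
(.lf (nat_lit 1342685628) (dlOf (nat_lit 6) (nat_lit 0x704128011a091010f040800128180e1025001f8122021e081000218301d104a00868204000820800340000003f020028247000811e000688dc00c044c037e094010e0408000ec3002980080208002009c00080c0883))) 
(.lf (nat_lit 470270396) (dlOf (nat_lit 6) (nat_lit 0x704128011a091010f040800128180e1025001f8122021e081000218301d104a00868204000820800340000003f020028247000811e000688dc00c044c037e094010e0408000ec3002980080208002009c00080c0883)))) 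
(.nd (nat_lit 8) (.lf (nat_lit 3624386812) (dlOf (nat_lit 1) (nat_lit 0x21000400120018187102))) 
(.lf (nat_lit 3490693628) (dlOf (nat_lit 8) (nat_lit 0x4e1098026084400d840600a510600e62130074108802f080c0149e0c019040600a460200b2203005228100331018028f008002880c0147404001440e00a330200160018017801)))))))) 
(.nd (nat_lit 7) (.nd (nat_lit 5) (.nd (nat_lit 19) (.nd (nat_lit 28) (.nd (nat_lit 24) 
(.nd (nat_lit 20) (.lf (nat_lit 36159516) (dlOf (nat_lit 1) (nat_lit 0x2800400020009030102))) 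
(.lf (nat_lit 37208092) (dlOf (nat_lit 1) (nat_lit 0x4002000800090c0602)))) (.nd (nat_lit 23) 
(.lf (nat_lit 19382300) (dlOf (nat_lit 1) (nat_lit 0x400200020008990a02))) 
(.lf (nat_lit 27770908) (dlOf (nat_lit 1) (nat_lit 0x800400020008d20682))))) (.nd (nat_lit 6) 
(.lf (nat_lit 3493314588) (dlOf (nat_lit 1) (nat_lit 0x20018110481))) (.nd (nat_lit 26) 
(.lf (nat_lit 1344782428) (dlOf (nat_lit 1) (nat_lit 0x400200020008980082))) 
(.lf (nat_lit 1009238108) (dlOf (nat_lit 6) (nat_lit 0x320e3001603b00007410007038c00380ec0001c0400040760000c01000a0718004838800100ec0000406006a0e3002d03b0000001000f80080014002001a00090a0883)))))) 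
(.nd (nat_lit 20) (.nd (nat_lit 9) 
(.lf (nat_lit 11517980) (dlOf (nat_lit 2) (nat_lit 0x24d0c0151302000400186b0501))) 
(.lf (nat_lit 40878620) (dlOf (nat_lit 2) (nat_lit 0xbf5c00cf204000400200020009208702)))) 
(.nd (nat_lit 6) (.lf (nat_lit 29343772) (dlOf (nat_lit 1) (nat_lit 0x400200020008df0482))) 
(.lf (nat_lit 473940060) (dlOf (nat_lit 3) (nat_lit 0x27857c01882bc00ac155005d06b802f83580118136006a095005804580002c400078554000000401bc00400220008fc0882)))))) 
(.nd (nat_lit 19) (.nd (nat_lit 6) (.nd (nat_lit 26) 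
(.lf (nat_lit 2605116) (dlOf (nat_lit 5) (nat_lit 0x61c900070e2000385dc002640c00043aa000c1c900090e2000485dc002621000103aa00081c9000a0e2000585dc002601000103aa00081c900060e2000385dc0025e10000400200020008170c02))) 
(.lf (nat_lit 1009238076) (dlOf (nat_lit 1) (nat_lit 0xf0008002c002000e00090a0603)))) 
(.nd (nat_lit 8) (.lf (nat_lit 52938364) (dlOf (nat_lit 1) (nat_lit 0x4400200420009573982))) 
(.lf (nat_lit 40356220) (dlOf (nat_lit 1) (nat_lit 0x1000291f4e81))))) (.nd (nat_lit 20) 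
(.nd (nat_lit 8) (.lf (nat_lit 61850684) (dlOf (nat_lit 1) (nat_lit 0xa0019922881))) 
(.lf (nat_lit 19909436) (dlOf (nat_lit 1) (nat_lit 0x4002000200089d5c02)))) (.nd (nat_lit 22) 
(.lf (nat_lit 473940028) (dlOf (nat_lit 3) (nat_lit 0x34136001808b000b08200320ae8002f4080090008004800200060008fc0603))) 
(.lf (nat_lit 25149500) (dlOf (nat_lit 1) (nat_lit 0x20018be1401))))))) (.nd (nat_lit 8) 
(.nd (nat_lit 11) (.nd (nat_lit 19) (.nd (nat_lit 6) 
(.lf (nat_lit 23576732) (dlOf (nat_lit 1) (nat_lit 0x20004000a0018b80182))) 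
(.lf (nat_lit 28819676) (dlOf (nat_lit 1) (nat_lit 0x30008000400200020008da0583)))) 
(.nd (nat_lit 9) (.lf (nat_lit 7323868) (dlOf (nat_lit 1) (nat_lit 0x600284b0581))) 
(.lf (nat_lit 8377052) (dlOf (nat_lit 1) (nat_lit 0x8008000400200020008518c83))))) (.nd (nat_lit 5) 
(.lf (nat_lit 472369820) (dlOf (nat_lit 1) (nat_lit 0x4004000a0008985582))) (.nd (nat_lit 20) 
(.nd (nat_lit 24) (.lf (nat_lit 40356604) (dlOf (nat_lit 1) (nat_lit 0x200291f5a01))) 
(.lf (nat_lit 57133820) (dlOf (nat_lit 1) (nat_lit 0x20029795a01)))) 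
(.lf (nat_lit 49793788) (dlOf (nat_lit 1) (nat_lit 0x20008000c002000200094c5a03)))))) 
(.nd (nat_lit 19) (.nd (nat_lit 5) (.nd (nat_lit 23) 
(.lf (nat_lit 472369564) (dlOf (nat_lit 1) (nat_lit 0x1c00400060008984e82))) 
(.lf (nat_lit 44550556) (dlOf (nat_lit 1) (nat_lit 0x20029324e81)))) (.nd (nat_lit 11) 
(.lf (nat_lit 1345831356) (dlOf (nat_lit 1) (nat_lit 0x140008e07001))) 
(.lf (nat_lit 472369596) (dlOf (nat_lit 1) (nat_lit 0x1c00400060008984e82))))) (.nd (nat_lit 9) 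
(.nd (nat_lit 5) (.lf (nat_lit 58706332) (dlOf (nat_lit 1) (nat_lit 0x200197e4e81))) 
(.lf (nat_lit 19911100) (dlOf (nat_lit 1) (nat_lit 0x4004000200189d8582)))) (.nd (nat_lit 6) 
(.lf (nat_lit 19909532) (dlOf (nat_lit 1) (nat_lit 0x80080004002000200089d5c83))) 
(.lf (nat_lit 3492792284) (dlOf (nat_lit 1) (nat_lit 0x250004008a00080f4582))))))))))))

end

end Pool.Agent.Lib.MP_5854e1_co.Cz

namespace Pool.Agent.Lib.MP_5854e1_co.Cz

noncomputable section

noncomputable def tz94 : DT := (.nd (nat_lit 5) (.nd (nat_lit 16) (.nd (nat_lit 6) 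
(.nd (nat_lit 19) (.nd (nat_lit 29) (.nd (nat_lit 18) (.nd (nat_lit 10) (.nd (nat_lit 3) 
(.nd (nat_lit 26) (.nd (nat_lit 21) (.nd (nat_lit 20) 
(.lf (nat_lit 12763153) (dlOf (nat_lit 1) (nat_lit 0x80080010002000400086e0583))) 
(.lf (nat_lit 1343406097) (dlOf (nat_lit 2) (nat_lit 0x44420005f0200080018220201)))) 
(.nd (nat_lit 7) (.nd (nat_lit 23) 
(.lf (nat_lit 23248913) (dlOf (nat_lit 1) (nat_lit 0xcc004001c0008b70302))) 
(.lf (nat_lit 14860305) (dlOf (nat_lit 1) (nat_lit 0x400008790001)))) 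
(.lf (nat_lit 3491938449) (dlOf (nat_lit 2) (nat_lit 0x1f103800504000005e08000400400040018090182))))) 
(.nd (nat_lit 7) (.nd (nat_lit 8) 
(.lf (nat_lit 5570215953) (dlOf (nat_lit 1) (nat_lit 0x28008001000200040008080003))) 
(.lf (nat_lit 2617430801) (dlOf (nat_lit 1) (nat_lit 0x3000280a8f81)))) (.nd (nat_lit 8) 
(.lf (nat_lit 4496474257) (dlOf (nat_lit 1) (nat_lit 0xc00400020008081082))) 
(.lf (nat_lit 1543686545) (dlOf (nat_lit 1) (nat_lit 0x400400020018144e82)))))) (.nd (nat_lit 20) 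
(.nd (nat_lit 8) (.lf (nat_lit 21151769) (dlOf (nat_lit 1) (nat_lit 0x60018a10481))) 
(.nd (nat_lit 21) (.lf (nat_lit 3556950297) (dlOf (nat_lit 1) (nat_lit 0x4a800202e40008117582))) 
(.lf (nat_lit 2277657) (dlOf (nat_lit 1) (nat_lit 0xc00400020008150482))))) (.nd (nat_lit 21) 
(.nd (nat_lit 22) (.lf (nat_lit 3490889753) (dlOf (nat_lit 1) (nat_lit 0x80018030881))) 
(.lf (nat_lit 5423129) (dlOf (nat_lit 1) (nat_lit 0x624002001e0008370482)))) 
(.lf (nat_lit 15908889) (dlOf (nat_lit 1) (nat_lit 0x20018840501)))))) (.nd (nat_lit 8) 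
(.nd (nat_lit 7) (.nd (nat_lit 20) 
(.lf (nat_lit 5771545617) (dlOf (nat_lit 1) (nat_lit 0x400200020008005f82))) (.nd (nat_lit 26) 
(.lf (nat_lit 1345506321) (dlOf (nat_lit 1) (nat_lit 0x4004000c0008c95f82))) 
(.lf (nat_lit 473091089) (dlOf (nat_lit 7) (nat_lit 0x9e161002704e8000981000c82740004804005813a0002002002c09d0000c01000804e80005c0800b02740002a04002c00400100008c95f82))))) 
(.nd (nat_lit 22) 
(.lf (nat_lit 60998801) (dlOf (nat_lit 1) (nat_lit 0xc00080064002000400098c2b83))) 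
(.lf (nat_lit 31638673) (dlOf (nat_lit 1) (nat_lit 0x40018e92b81))))) (.nd (nat_lit 3) 
(.nd (nat_lit 12) (.lf (nat_lit 55756049) (dlOf (nat_lit 1) (nat_lit 0x4002000200096d3002))) 
(.lf (nat_lit 2281886993) (dlOf (nat_lit 1) (nat_lit 0x400080004002000200080a9683)))) 
(.nd (nat_lit 7) 
(.lf (nat_lit 182041) (dlOf (nat_lit 2) (nat_lit 0x95878000e0080008008001c00200020008003c83))) 
(.lf (nat_lit 43173273) (dlOf (nat_lit 1) (nat_lit 0x400192a3601))))))) (.nd (nat_lit 20) 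
(.nd (nat_lit 3) (.nd (nat_lit 7) (.nd (nat_lit 9) 
(.lf (nat_lit 6510002193) (dlOf (nat_lit 1) (nat_lit 0x400200020008180482))) 
(.lf (nat_lit 57068049) (dlOf (nat_lit 1) (nat_lit 0x400400020009795082)))) (.nd (nat_lit 10) 
(.nd (nat_lit 11) (.lf (nat_lit 8831377) (dlOf (nat_lit 1) (nat_lit 0x20008511001))) 
(.lf (nat_lit 57067921) (dlOf (nat_lit 1) (nat_lit 0x800400020019794e82)))) (.nd (nat_lit 9) 
(.lf (nat_lit 1476838801) (dlOf (nat_lit 5) (nat_lit 0x403a002501a00020080004780c002807a00180200011882003301e800f80e80098068005402a0033010000c8030005c0120022000001178800040060008b4080150008000400200140008203603))) 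
(.lf (nat_lit 8837009) (dlOf (nat_lit 1) (nat_lit 0x40020002000851a302)))))) (.nd (nat_lit 22) 
(.nd (nat_lit 8) (.nd (nat_lit 10) 
(.lf (nat_lit 67551257) (dlOf (nat_lit 1) (nat_lit 0x800181f0481))) 
(.lf (nat_lit 44483609) (dlOf (nat_lit 1) (nat_lit 0x1c0019322881)))) 
(.lf (nat_lit 8835353) (dlOf (nat_lit 1) (nat_lit 0x180018518081)))) (.nd (nat_lit 23) 
(.lf (nat_lit 474398745) (dlOf (nat_lit 1) (nat_lit 0x20019160001))) 
(.lf (nat_lit 13025305) (dlOf (nat_lit 1) (nat_lit 0x4002000200086f0402)))))) (.nd (nat_lit 21) 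
(.nd (nat_lit 3) (.nd (nat_lit 10) (.nd (nat_lit 23) 
(.lf (nat_lit 3491151889) (dlOf (nat_lit 2) (nat_lit 0x4855000241160025d0400020018070501))) 
(.lf (nat_lit 9879569) (dlOf (nat_lit 1) (nat_lit 0xa0008590181)))) 
(.lf (nat_lit 60214289) (dlOf (nat_lit 1) (nat_lit 0x4002000a0009845f82)))) 
(.lf (nat_lit 9879577) (dlOf (nat_lit 1) (nat_lit 0x20008590401)))) (.nd (nat_lit 3) 
(.nd (nat_lit 7) (.nd (nat_lit 10) 
(.lf (nat_lit 16171025) (dlOf (nat_lit 1) (nat_lit 0x60028870301))) 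
(.lf (nat_lit 20368401) (dlOf (nat_lit 2) (nat_lit 0x1f295c0001c040008004000400189d5f82)))) 
(.lf (nat_lit 3493249425) (dlOf (nat_lit 3) (nat_lit 0xa01d005210100110100028c0080070008004c002000e0008106183)))) 
(.nd (nat_lit 8) (.lf (nat_lit 37142553) (dlOf (nat_lit 1) (nat_lit 0x1000090a0601))) 
(.lf (nat_lit 3493249305) (dlOf (nat_lit 1) (nat_lit 0x20028104001)))))))) (.nd (nat_lit 26) 
(.nd (nat_lit 10) (.nd (nat_lit 3) (.nd (nat_lit 30) (.nd (nat_lit 27) 
(.lf (nat_lit 4832018449) (dlOf (nat_lit 1) (nat_lit 0x1400200020008090002))) 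
(.lf (nat_lit 4966236177) (dlOf (nat_lit 1) (nat_lit 0x400400020008080082)))) (.nd (nat_lit 7) 
(.nd (nat_lit 18) 
(.lf (nat_lit 6174195729) (dlOf (nat_lit 1) (nat_lit 0x28008001000200040008080003))) 
(.lf (nat_lit 5906022417) (dlOf (nat_lit 1) (nat_lit 0x400200020008180482)))) 
(.lf (nat_lit 5905762449) (dlOf (nat_lit 1) (nat_lit 0x20008144801))))) (.nd (nat_lit 8) 
(.lf (nat_lit 1879228441) (dlOf (nat_lit 1) (nat_lit 0x80080004002000200080b0503))) 
(.nd (nat_lit 11) (.lf (nat_lit 3892498713) (dlOf (nat_lit 1) (nat_lit 0x80018158081))) 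
(.lf (nat_lit 3758283033) (dlOf (nat_lit 2) (nat_lit 0x603c0001401812ab00)))))) (.nd (nat_lit 8) 
(.nd (nat_lit 7) (.nd (nat_lit 9) 
(.lf (nat_lit 1881326609) (dlOf (nat_lit 1) (nat_lit 0x400400020008e82882))) 
(.lf (nat_lit 1610794513) (dlOf (nat_lit 2) (nat_lit 0xe0150000f00801480080008002005e0008093703)))) 
(.lf (nat_lit 2684540049) (dlOf (nat_lit 1) (nat_lit 0x480080020002000c00080a9503)))) 
(.nd (nat_lit 9) (.lf (nat_lit 2684540177) (dlOf (nat_lit 1) (nat_lit 0x200280a9681))) 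
(.lf (nat_lit 537052945) (dlOf (nat_lit 1) (nat_lit 0x3000400020008003c02)))))) (.nd (nat_lit 3) 
(.nd (nat_lit 10) (.nd (nat_lit 18) (.nd (nat_lit 7) 
(.lf (nat_lit 5033345041) (dlOf (nat_lit 1) (nat_lit 0x400400020008080082))) 
(.lf (nat_lit 2753740945) (dlOf (nat_lit 1) (nat_lit 0x300080014002000c0008090183)))) 
(.nd (nat_lit 20) 
(.lf (nat_lit 2756100113) (dlOf (nat_lit 17) (nat_lit 0x600380081c0800080e4001400e0020504000c050000fa8100090280007d0080058140003e40400100cc0004061000102e000100fc000c044000201c000e386000403300018184000c0b8000802d0006011000180700038c1800180cc0006061000102e000714180008198000c0c2000205c000201100071020001818400140b8000202d000e10300040308001817400040b8000a022000400e00070428001819800040b8000603f000101680020088000c038001c00c0006066000203080008170000405a0004022000300e0006fc3000180fc0036004000807e001af02003003f000400e0006b81001b80080038002000800081f0803))) 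
(.lf (nat_lit 2752954385) (dlOf (nat_lit 2) (nat_lit 0x485640024110002490400020018070501))))) 
(.nd (nat_lit 8) (.nd (nat_lit 9) 
(.lf (nat_lit 604425233) (dlOf (nat_lit 22) (nat_lit 0x84006003500000009e0800100180004d02010e00c006e000000130100190030000960401600740098034003c0150001201802b80e8012c0680004704006802a00360100001141000080f4015007400980340069015001980800008814009407a00ae03a005201a003400a800e0040000430a004c03d005201d002880d000e0054008002000310060001083000700d00008204009c07a009403a003901a001c00300120000000400a004a03d005501d002900d000e40400003e08006c0200001e81003201a001a8080000780800cc0180003b02007603a003001a000f80a800b8018006a0000001c05006e0000000d40801700000006804009c07a00c0034003d0100000cc1804b80300000004005000200200008205f82))) 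
(.lf (nat_lit 4095919633) (dlOf (nat_lit 1) (nat_lit 0x80080004002000200080e3703)))) 
(.lf (nat_lit 3020085009) (dlOf (nat_lit 1) (nat_lit 0x10004000a001812a002))))) (.nd (nat_lit 8) 
(.nd (nat_lit 27) (.nd (nat_lit 20) 
(.lf (nat_lit 5167562777) (dlOf (nat_lit 1) (nat_lit 0x200080c0181))) 
(.lf (nat_lit 2752692249) (dlOf (nat_lit 1) (nat_lit 0x80018030881)))) (.nd (nat_lit 10) 
(.lf (nat_lit 1006813209) (dlOf (nat_lit 1) (nat_lit 0x80080004002000200080b0503))) 
(.lf (nat_lit 738380825) (dlOf (nat_lit 2) (nat_lit 0xa05a000502b8000bc1001f8008005800200900008096003))))) 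
(.nd (nat_lit 7) (.lf (nat_lit 2755051801) (dlOf (nat_lit 1) (nat_lit 0x20028104001))) 
(.nd (nat_lit 9) 
(.lf (nat_lit 738380185) (dlOf (nat_lit 1) (nat_lit 0x40008000400200020008094e83))) 
(.lf (nat_lit 738380697) (dlOf (nat_lit 1) (nat_lit 0x1a0028095c81))))))))) (.nd (nat_lit 20) 
(.nd (nat_lit 26) (.nd (nat_lit 18) (.nd (nat_lit 3) (.nd (nat_lit 27) (.nd (nat_lit 21) 
(.lf (nat_lit 537575441) (dlOf (nat_lit 1) (nat_lit 0xb0008000c002000600080c0983))) 
(.lf (nat_lit 27967505) (dlOf (nat_lit 1) (nat_lit 0x1000200020008d40202)))) (.nd (nat_lit 28) 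
(.lf (nat_lit 134922257) (dlOf (nat_lit 9) (nat_lit 0x601d80010c0802281580a880a601e6048017a022014401000ae40780a9e03b026101b828380d805ec064018802d0198014020e805c07540140003b1c020803b0000b8102a501d800058080dc80ec0002604036c0760001202011603b000050100e401d800000085fb800815680021cfa00080e0103))) 
(.lf (nat_lit 5772066833) (dlOf (nat_lit 2) (nat_lit 0x6028006b6818060a00))))) (.nd (nat_lit 22) 
(.lf (nat_lit 537575449) (dlOf (nat_lit 1) (nat_lit 0x200280c0a81))) 
(.lf (nat_lit 21676057) (dlOf (nat_lit 1) (nat_lit 0x10008009000200340008a60a03))))) 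
(.nd (nat_lit 3) (.nd (nat_lit 7) (.nd (nat_lit 22) 
(.lf (nat_lit 1343143953) (dlOf (nat_lit 1) (nat_lit 0x100028160301))) 
(.lf (nat_lit 21938193) (dlOf (nat_lit 1) (nat_lit 0x800200020008a80882)))) 
(.lf (nat_lit 51299473) (dlOf (nat_lit 1) (nat_lit 0x5000200ae0009512b82)))) (.nd (nat_lit 7) 
(.lf (nat_lit 28229657) (dlOf (nat_lit 1) (nat_lit 0x400400020008d70482))) 
(.lf (nat_lit 19843737) (dlOf (nat_lit 1) (nat_lit 0x2000189d5501)))))) (.nd (nat_lit 29) 
(.nd (nat_lit 3) (.nd (nat_lit 18) 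
(.lf (nat_lit 202031121) (dlOf (nat_lit 9) (nat_lit 0x601d80010c0802281580a880a601e6048017a022014401000ae40780a9e03b026101b828380d805ec064018802d0198014020e805c07540140003b1c020803b0000b8102a501d800054080dc80ec0002604036c0760001202011603b000050100e401d800000085fb800815680021cfa00080e0103))) 
(.lf (nat_lit 470728721) (dlOf (nat_lit 1) (nat_lit 0x5400200020008160302)))) (.nd (nat_lit 21) 
(.nd (nat_lit 28) 
(.lf (nat_lit 4362780697) (dlOf (nat_lit 2) (nat_lit 0x140238000000800600080008002000c00080f0a83))) 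
(.lf (nat_lit 1409990681) (dlOf (nat_lit 1) (nat_lit 0x200280c0a81)))) 
(.lf (nat_lit 472563737) (dlOf (nat_lit 1) (nat_lit 0x200189c0101))))) (.nd (nat_lit 9) 
(.nd (nat_lit 3) (.nd (nat_lit 21) 
(.lf (nat_lit 6376046609) (dlOf (nat_lit 2) (nat_lit 0x6028003e2018060a00))) 
(.lf (nat_lit 4096442385) (dlOf (nat_lit 1) (nat_lit 0x20018110001)))) 
(.lf (nat_lit 4228562969) (dlOf (nat_lit 2) (nat_lit 0x140200000000800600080008002000c00080f0a83)))) 
(.nd (nat_lit 10) (.lf (nat_lit 6378144273) (dlOf (nat_lit 1) (nat_lit 0x400200020008117c02))) 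
(.lf (nat_lit 2754530833) (dlOf (nat_lit 1) (nat_lit 0x4004000200080f7082))))))) (.nd (nat_lit 7) 
(.nd (nat_lit 21) (.nd (nat_lit 3) (.nd (nat_lit 23) 
(.lf (nat_lit 4095393809) (dlOf (nat_lit 1) (nat_lit 0x100080008002000400080a0203))) 
(.nd (nat_lit 24) (.lf (nat_lit 10141713) (dlOf (nat_lit 1) (nat_lit 0x200285b0481))) 
(.lf (nat_lit 26918929) (dlOf (nat_lit 1) (nat_lit 0x400200020008c90202))))) (.nd (nat_lit 9) 
(.nd (nat_lit 23) 
(.lf (nat_lit 1343930393) (dlOf (nat_lit 10) (nat_lit 0x3826000140f00004e04000e098000603c00013410000825c0008c040018130000c0780002182000604c000281e000084080014130000c0780001f02000504c000301e000078080014130000c0780001d82000404c000301e00006e08000800400020018380902))) 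
(.lf (nat_lit 10141721) (dlOf (nat_lit 1) (nat_lit 0x200285b0481)))) 
(.lf (nat_lit 39766553) (dlOf (nat_lit 1) (nat_lit 0xc00291f5081))))) (.nd (nat_lit 8) 
(.nd (nat_lit 18) (.nd (nat_lit 10) 
(.lf (nat_lit 16433169) (dlOf (nat_lit 2) (nat_lit 0x2623a80308e660005904000c00288a0201))) 
(.lf (nat_lit 20630545) (dlOf (nat_lit 2) (nat_lit 0xcd5fa0066960000070289d5f80)))) 
(.nd (nat_lit 26) (.lf (nat_lit 4112401) (dlOf (nat_lit 1) (nat_lit 0x1400200020008280102))) 
(.lf (nat_lit 2755575825) (dlOf (nat_lit 1) (nat_lit 0x8004000200181b0002))))) (.nd (nat_lit 3) 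
(.lf (nat_lit 8050449) (dlOf (nat_lit 1) (nat_lit 0x2000851a001))) (.nd (nat_lit 12) 
(.lf (nat_lit 8045849) (dlOf (nat_lit 1) (nat_lit 0x400400020008513082))) 
(.lf (nat_lit 8312089) (dlOf (nat_lit 2) (nat_lit 0x5612c000f004002800400020008519702))))))) 
(.nd (nat_lit 3) (.nd (nat_lit 8) (.nd (nat_lit 10) (.nd (nat_lit 26) 
(.lf (nat_lit 3491676305) (dlOf (nat_lit 3) (nat_lit 0x1002070001781005a1038000b808004800800b4002000a0008090183))) 
(.lf (nat_lit 2753478801) (dlOf (nat_lit 3) (nat_lit 0x10021c0001781005a10e0000b808004800800b4002000a0008090183)))) 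
(.lf (nat_lit 41600145) (dlOf (nat_lit 1) (nat_lit 0xc8008000400200020009242b83)))) 
(.nd (nat_lit 9) (.nd (nat_lit 21) 
(.lf (nat_lit 43958673) (dlOf (nat_lit 1) (nat_lit 0x200192a1001))) 
(.lf (nat_lit 1346290065) (dlOf (nat_lit 1) (nat_lit 0x10008000400200020008e81003)))) 
(.lf (nat_lit 8045457) (dlOf (nat_lit 1) (nat_lit 0x400400020008512582))))) (.nd (nat_lit 8) 
(.nd (nat_lit 18) (.lf (nat_lit 8049305) (dlOf (nat_lit 1) (nat_lit 0x8008000400200020008518c83))) 
(.lf (nat_lit 8311449) (dlOf (nat_lit 1) (nat_lit 0x8008000400200020008518c83)))) (.nd (nat_lit 9) 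
(.nd (nat_lit 11) 
(.lf (nat_lit 3491414425) (dlOf (nat_lit 2) (nat_lit 0x443cc007090200160028090781))) 
(.lf (nat_lit 37407129) (dlOf (nat_lit 1) (nat_lit 0x600090d4e81)))) 
(.lf (nat_lit 8048537) (dlOf (nat_lit 1) (nat_lit 0x28008000800200060008517803))))))))) 
(.nd (nat_lit 8) (.nd (nat_lit 18) (.nd (nat_lit 3) (.nd (nat_lit 29) (.nd (nat_lit 19) 
(.nd (nat_lit 22) (.lf (nat_lit 5435998289) (dlOf (nat_lit 1) (nat_lit 0x48004005a0008090002))) 
(.lf (nat_lit 474136657) (dlOf (nat_lit 2) (nat_lit 0x202d00366e040010004000600090e0002)))) 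
(.nd (nat_lit 7) (.nd (nat_lit 10) 
(.lf (nat_lit 8046673) (dlOf (nat_lit 1) (nat_lit 0x8008000400200020008514703))) 
(.lf (nat_lit 8045649) (dlOf (nat_lit 1) (nat_lit 0x40018512881)))) 
(.lf (nat_lit 8049361) (dlOf (nat_lit 1) (nat_lit 0x8008000400200020008518c83))))) 
(.nd (nat_lit 27) (.nd (nat_lit 7) (.nd (nat_lit 10) 
(.lf (nat_lit 537575505) (dlOf (nat_lit 5) (nat_lit 0x16e05d00b302b8061814802580660003408017c05d00c502b8066814803240660094022009200f8000c830032017400100b400ec0570018029002c00cc000c04400a401f00550000000c4400320174013c0ae00a4033001a00f802780000005e1400a0004001400180c1902))) 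
(.lf (nat_lit 3020084305) (dlOf (nat_lit 1) (nat_lit 0xb8008006000200040008129303)))) 
(.lf (nat_lit 5905762513) (dlOf (nat_lit 1) (nat_lit 0x20028144a01)))) (.nd (nat_lit 7) 
(.nd (nat_lit 11) 
(.lf (nat_lit 5234671697) (dlOf (nat_lit 4) (nat_lit 0x5c0560006802000602b0003281000f015800070080290008003c00200020008080503))) 
(.lf (nat_lit 3959609425) (dlOf (nat_lit 5) (nat_lit 0x5202280047c08041811400080840011e0400f40450008e81007302280047008054000801d400200d2000811a703)))) 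
(.lf (nat_lit 4160930513) (dlOf (nat_lit 1) (nat_lit 0x200180a2001)))))) (.nd (nat_lit 9) 
(.nd (nat_lit 19) (.nd (nat_lit 7) 
(.lf (nat_lit 62046297) (dlOf (nat_lit 3) (nat_lit 0x640000000381000521c0000000800080080040002000a0009940703))) 
(.lf (nat_lit 1543687385) (dlOf (nat_lit 2) (nat_lit 0x80500000a04003800200120008146482)))) 
(.nd (nat_lit 22) (.nd (nat_lit 26) 
(.lf (nat_lit 537575513) (dlOf (nat_lit 1) (nat_lit 0x24002000c00080c1a82))) 
(.lf (nat_lit 4362780761) (dlOf (nat_lit 2) (nat_lit 0x200470000c0180f1a80)))) 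
(.lf (nat_lit 4898905) (dlOf (nat_lit 1) (nat_lit 0x4004000200082d0802))))) (.nd (nat_lit 10) 
(.nd (nat_lit 7) (.lf (nat_lit 33213017) (dlOf (nat_lit 1) (nat_lit 0x18008000400200020008f55303))) 
(.nd (nat_lit 11) (.lf (nat_lit 8049369) (dlOf (nat_lit 1) (nat_lit 0x8008000400200020008518c83))) 
(.lf (nat_lit 20110041) (dlOf (nat_lit 1) (nat_lit 0x4080080004002007e00089db983))))) 
(.nd (nat_lit 19) (.nd (nat_lit 26) 
(.lf (nat_lit 2684540505) (dlOf (nat_lit 1) (nat_lit 0x4004000200080a9c02))) 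
(.lf (nat_lit 2617431641) (dlOf (nat_lit 1) (nat_lit 0x10004000e00080a9c02)))) 
(.lf (nat_lit 8050265) (dlOf (nat_lit 1) (nat_lit 0x20008519c01))))))) (.nd (nat_lit 19) 
(.nd (nat_lit 27) (.nd (nat_lit 3) (.nd (nat_lit 29) 
(.lf (nat_lit 6442893393) (dlOf (nat_lit 1) (nat_lit 0x6a0028211901))) 
(.lf (nat_lit 1611055185) (dlOf (nat_lit 1) (nat_lit 0x200280d0501)))) (.nd (nat_lit 7) 
(.nd (nat_lit 9) 
(.lf (nat_lit 3557212249) (dlOf (nat_lit 2) (nat_lit 0x4980e00005204007c002004a0008170802))) 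
(.lf (nat_lit 31902297) (dlOf (nat_lit 2) (nat_lit 0x24b900012818e95300)))) (.nd (nat_lit 9) 
(.lf (nat_lit 4563845337) (dlOf (nat_lit 1) (nat_lit 0x400400020008105d82))) 
(.lf (nat_lit 57068249) (dlOf (nat_lit 7) (nat_lit 0x4a130001a0100426718024abbc000660801159c600031020088ced00446760000b810016b3b4000200401672360000e02000a0009795901)))))) 
(.nd (nat_lit 3) (.nd (nat_lit 26) 
(.lf (nat_lit 2819014737) (dlOf (nat_lit 1) (nat_lit 0xa0028150701))) 
(.lf (nat_lit 738639953) (dlOf (nat_lit 1) (nat_lit 0x200280d0501)))) (.nd (nat_lit 26) 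
(.nd (nat_lit 28) 
(.lf (nat_lit 2819014745) (dlOf (nat_lit 3) (nat_lit 0xc084039a0360001482013e01b00009c080478008008000200360008150803))) 
(.lf (nat_lit 3624321113) (dlOf (nat_lit 1) (nat_lit 0x400400020008160982)))) 
(.lf (nat_lit 2886123609) (dlOf (nat_lit 1) (nat_lit 0x8008000400200020008160a03)))))) 
(.nd (nat_lit 7) (.nd (nat_lit 20) (.nd (nat_lit 9) 
(.lf (nat_lit 47104089) (dlOf (nat_lit 4) (nat_lit 0xa80000006204004695c0003002000556600017f38000841000680080034002000c00093a0703))) 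
(.lf (nat_lit 38718041) (dlOf (nat_lit 1) (nat_lit 0x290008006400200060009135303)))) 
(.nd (nat_lit 3) (.lf (nat_lit 473874513) (dlOf (nat_lit 1) (nat_lit 0x7400400240008fc0702))) 
(.lf (nat_lit 20889689) (dlOf (nat_lit 1) (nat_lit 0x4004000600189f0702))))) (.nd (nat_lit 3) 
(.lf (nat_lit 8308945) (dlOf (nat_lit 1) (nat_lit 0x58008002000200020008514a03))) (.nd (nat_lit 10) 
(.lf (nat_lit 8311513) (dlOf (nat_lit 1) (nat_lit 0x8008000400200020008518c83))) 
(.lf (nat_lit 2754531033) (dlOf (nat_lit 1) (nat_lit 0x1c00180f7381)))))))) (.nd (nat_lit 26) 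
(.nd (nat_lit 7) (.nd (nat_lit 3) (.nd (nat_lit 11) (.nd (nat_lit 18) (.nd (nat_lit 21) 
(.lf (nat_lit 1879753041) (dlOf (nat_lit 1) (nat_lit 0x11e0018370801))) 
(.lf (nat_lit 23773521) (dlOf (nat_lit 1) (nat_lit 0x1520028b80681)))) 
(.lf (nat_lit 3493249361) (dlOf (nat_lit 1) (nat_lit 0x9000200040008104d82)))) (.nd (nat_lit 10) 
(.lf (nat_lit 3087190353) (dlOf (nat_lit 1) (nat_lit 0x20028144e01))) 
(.lf (nat_lit 20106577) (dlOf (nat_lit 1) (nat_lit 0x14002000200089d6a02))))) (.nd (nat_lit 10) 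
(.nd (nat_lit 9) (.nd (nat_lit 18) 
(.lf (nat_lit 1879753049) (dlOf (nat_lit 1) (nat_lit 0x2f40018370881))) 
(.lf (nat_lit 3064153) (dlOf (nat_lit 1) (nat_lit 0xe60008200681)))) 
(.lf (nat_lit 19841881) (dlOf (nat_lit 1) (nat_lit 0x4004000200089d2582)))) (.nd (nat_lit 20) 
(.lf (nat_lit 805490009) (dlOf (nat_lit 1) (nat_lit 0x4600080004002004e0008116a83))) 
(.lf (nat_lit 20106585) (dlOf (nat_lit 1) (nat_lit 0x160008006c002002800089d6a83)))))) 
(.nd (nat_lit 19) (.nd (nat_lit 3) (.nd (nat_lit 10) (.nd (nat_lit 18) 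
(.lf (nat_lit 1342357969) (dlOf (nat_lit 2) (nat_lit 0xa12380291c0800e80080054002000e0008017103))) 
(.lf (nat_lit 805749201) (dlOf (nat_lit 3) (nat_lit 0x380140002002001000a0000e8181a0a00)))) 
(.lf (nat_lit 8574417) (dlOf (nat_lit 2) (nat_lit 0xb48000021018519b00)))) (.nd (nat_lit 9) 
(.lf (nat_lit 3221409241) (dlOf (nat_lit 2) (nat_lit 0x603700003818116d80))) 
(.lf (nat_lit 1610793945) (dlOf (nat_lit 1) (nat_lit 0x120028092881))))) (.nd (nat_lit 3) 
(.nd (nat_lit 10) (.nd (nat_lit 12) 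
(.lf (nat_lit 3491414481) (dlOf (nat_lit 3) (nat_lit 0x4c3d0000190200281e80000c018090a00))) 
(.lf (nat_lit 8049105) (dlOf (nat_lit 1) (nat_lit 0x60028518681)))) 
(.lf (nat_lit 8046033) (dlOf (nat_lit 1) (nat_lit 0x8008000400200020008513603)))) (.nd (nat_lit 10) 
(.lf (nat_lit 8049113) (dlOf (nat_lit 1) (nat_lit 0x3a8008026400200960008518683))) 
(.lf (nat_lit 8046041) (dlOf (nat_lit 1) (nat_lit 0x8008000400200020008513603))))))) 
(.nd (nat_lit 27) (.nd (nat_lit 7) (.nd (nat_lit 11) (.nd (nat_lit 9) 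
(.lf (nat_lit 4362256721) (dlOf (nat_lit 2) (nat_lit 0x40040002e0200020028014d81))) 
(.lf (nat_lit 2751645521) (dlOf (nat_lit 2) (nat_lit 0x51050400064040008004000a0008003f02)))) 
(.nd (nat_lit 19) (.lf (nat_lit 1677904209) (dlOf (nat_lit 1) (nat_lit 0x400200020008114e02))) 
(.lf (nat_lit 2752170321) (dlOf (nat_lit 1) (nat_lit 0xdc0008004e01))))) (.nd (nat_lit 12) 
(.nd (nat_lit 18) (.nd (nat_lit 19) 
(.lf (nat_lit 2483208657) (dlOf (nat_lit 3) (nat_lit 0x40280001201000401400008c0800b8008006c00200080008090a03))) 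
(.lf (nat_lit 2753216977) (dlOf (nat_lit 3) (nat_lit 0x4c3f4000190200281fa0000c018090a00)))) 
(.nd (nat_lit 29) 
(.lf (nat_lit 4362518993) (dlOf (nat_lit 5) (nat_lit 0x5d01680008008002811c017805a0001d0400040470000e01005d01680006c080028008001400200180008090a03))) 
(.lf (nat_lit 1678164433) (dlOf (nat_lit 3) (nat_lit 0x380140002002001000a0000e8181a0a00))))) 
(.nd (nat_lit 3) 
(.lf (nat_lit 3020084689) (dlOf (nat_lit 2) (nat_lit 0x880c8006c04c0000004000c0028129b01))) 
(.lf (nat_lit 2751650265) (dlOf (nat_lit 4) (nat_lit 0xe9842201e42100060b8202ac1078029f80808f083c014da04008c00400bc000800b282)))))) 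
(.nd (nat_lit 28) (.nd (nat_lit 9) (.nd (nat_lit 29) 
(.lf (nat_lit 2348990929) (dlOf (nat_lit 3) (nat_lit 0x40280001201000401400008c0800b8008006c00200080008090a03))) 
(.lf (nat_lit 1812120017) (dlOf (nat_lit 5) (nat_lit 0x28401600ae0040030000002a981804a802c0134008005c0000052f0300a5005802a0010009400000a5c06012000b005a00200291c1002e00080014002001c0008157103)))) 
(.nd (nat_lit 10) (.nd (nat_lit 11) 
(.lf (nat_lit 3959604177) (dlOf (nat_lit 1) (nat_lit 0x220028112881))) 
(.lf (nat_lit 738380753) (dlOf (nat_lit 3) (nat_lit 0x2805400040090000b0200150150000500802f000800d4002004a0008095d83)))) 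
(.lf (nat_lit 3959609297) (dlOf (nat_lit 4) (nat_lit 0x1008c009eb02000e046002290100060230010d408057800800100020026000811a603))))) 
(.nd (nat_lit 7) (.nd (nat_lit 10) 
(.lf (nat_lit 4228038993) (dlOf (nat_lit 4) (nat_lit 0xc40580006602006802c000200100360160000fc080018008007c002002c0008014d03))) 
(.lf (nat_lit 1543687505) (dlOf (nat_lit 4) (nat_lit 0x160030000150200a20180000981004c00c0000140800280080020002000e0008146a03)))) 
(.nd (nat_lit 3) (.nd (nat_lit 18) 
(.lf (nat_lit 4228039121) (dlOf (nat_lit 1) (nat_lit 0x138008008c002003e0008017103))) 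
(.lf (nat_lit 4228301265) (dlOf (nat_lit 5) (nat_lit 0x5d01600008008002810001780580001d0400040400000e01005d01600006c080028008001400200180008090a03)))) 
(.lf (nat_lit 5301781465) (dlOf (nat_lit 1) (nat_lit 0x1b00080038002003e0008092883)))))))))) 
(.nd (nat_lit 3) (.nd (nat_lit 18) (.nd (nat_lit 28) (.nd (nat_lit 21) (.nd (nat_lit 29) 
(.nd (nat_lit 23) (.nd (nat_lit 6) 
(.lf (nat_lit 1141096465) (dlOf (nat_lit 1) (nat_lit 0x10004000c00080d0002))) (.nd (nat_lit 8) 
(.lf (nat_lit 1141096529) (dlOf (nat_lit 1) (nat_lit 0x200080d0501))) 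
(.lf (nat_lit 770385) (dlOf (nat_lit 1) (nat_lit 0xa0028014d81))))) (.nd (nat_lit 7) 
(.lf (nat_lit 47431697) (dlOf (nat_lit 1) (nat_lit 0x4004000200093f0082))) (.nd (nat_lit 24) 
(.lf (nat_lit 42189969) (dlOf (nat_lit 1) (nat_lit 0x20029242b81))) 
(.lf (nat_lit 58967185) (dlOf (nat_lit 1) (nat_lit 0x600297e2b81)))))) (.nd (nat_lit 30) 
(.nd (nat_lit 6) (.nd (nat_lit 9) (.nd (nat_lit 19) 
(.lf (nat_lit 537116689) (dlOf (nat_lit 1) (nat_lit 0x2380080040002000e0008020483))) 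
(.lf (nat_lit 537640977) (dlOf (nat_lit 21) (nat_lit 0x9805c002c02c800130100090170000c0480004b04006405f038002e005801640574096016a038037001200d38084178003c0004a1000c805c000402c8001009000d003c0004908003605c001401200008078000900c11840b8098005905c40258011012805d4072018a0380192012006a008411f003c069c00b00a400500010c580ca012c000840415140b8002405a059902c801d015c1e44096001404a010101c803100e0034006c05300240002011008c8084166803c004201c045a00580678028000824012440be011805e04a4018001880a80b3804e044a00400010000000fc380aa80c001a40080003e040b3e05f00e602f02da00c000d405407560270065013019b00100007a1c02f00600003c020092067036c02f81dc81700c3c0b2098a04b010002500e200e4065c07002fc0360370018007b80a80c9404802b002100d300500120010042800601a80000001d91003902f80f3817003340b2018003000df01380110090061c03c0003a0e00de05f0001c8103f302f8014817007b804e0003806000a05f0001b81029a02f811100c00c7c04e0001506007601e000078100bb0180000000819600081cb8002099a00080e0103)))) 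
(.lf (nat_lit 671334929) (dlOf (nat_lit 9) (nat_lit 0x4029004e011801500800098030004c60800de02300280100013141000a00a4010c046003e020001b00c001380140040004004c40c0094023002301000260060004c00a004b10800ac023002a010001b8060006c01000780050025805005d011802c8080014400a004a706000400500252810005011800f880804980080614002001e0008158403)))) 
(.nd (nat_lit 20) 
(.lf (nat_lit 671334737) (dlOf (nat_lit 4) (nat_lit 0x10c40580a9002904bb0130007008000f803a093e01b032d00481ef00180cc4006000600106670000000a05802080800004e0400e40460092020002800d8000981801c00081b2c00213ce0008154d83))) 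
(.lf (nat_lit 2752758097) (dlOf (nat_lit 1) (nat_lit 0x400200020008048b02))))) (.nd (nat_lit 10) 
(.nd (nat_lit 27) 
(.lf (nat_lit 3825451025) (dlOf (nat_lit 2) (nat_lit 0x20120002808c00af408007400400040008160482))) 
(.lf (nat_lit 1812185105) (dlOf (nat_lit 1) (nat_lit 0x23000201240008170882)))) (.nd (nat_lit 6) 
(.lf (nat_lit 1610859921) (dlOf (nat_lit 1) (nat_lit 0xc00200020008093602))) 
(.lf (nat_lit 1610860113) (dlOf (nat_lit 1) (nat_lit 0x400200020008093882))))))) (.nd (nat_lit 20) 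
(.nd (nat_lit 10) (.nd (nat_lit 6) (.nd (nat_lit 9) 
(.lf (nat_lit 44285969) (dlOf (nat_lit 1) (nat_lit 0x6c00092e0001))) 
(.lf (nat_lit 57395729) (dlOf (nat_lit 1) (nat_lit 0x1800400080009795082)))) 
(.lf (nat_lit 2754330705) (dlOf (nat_lit 3) (nat_lit 0xc3f8000290200101fc000138180d0d80)))) 
(.nd (nat_lit 7) (.nd (nat_lit 19) 
(.lf (nat_lit 61064465) (dlOf (nat_lit 1) (nat_lit 0x8004000200098c3002))) 
(.lf (nat_lit 36422929) (dlOf (nat_lit 1) (nat_lit 0x400200de0009073002)))) 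
(.lf (nat_lit 61064337) (dlOf (nat_lit 1) (nat_lit 0x50002001a00098c2b82))))) (.nd (nat_lit 7) 
(.nd (nat_lit 11) (.nd (nat_lit 19) 
(.lf (nat_lit 24363025) (dlOf (nat_lit 1) (nat_lit 0x2ec002007c0008b90682))) 
(.lf (nat_lit 45858833) (dlOf (nat_lit 1) (nat_lit 0xa0009360001)))) (.nd (nat_lit 6) 
(.lf (nat_lit 20696081) (dlOf (nat_lit 2) (nat_lit 0x794700066960000070289d5f80))) 
(.lf (nat_lit 8112209) (dlOf (nat_lit 1) (nat_lit 0x400400020008514702))))) (.nd (nat_lit 6) 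
(.nd (nat_lit 9) (.lf (nat_lit 41665681) (dlOf (nat_lit 1) (nat_lit 0xa0008000400200020009242b83))) 
(.lf (nat_lit 8114833) (dlOf (nat_lit 1) (nat_lit 0x8008000400200020008518c83)))) 
(.lf (nat_lit 8114385) (dlOf (nat_lit 1) (nat_lit 0x400400020018518082))))))) (.nd (nat_lit 6) 
(.nd (nat_lit 26) (.nd (nat_lit 27) (.nd (nat_lit 7) (.nd (nat_lit 11) 
(.lf (nat_lit 2953035793) (dlOf (nat_lit 1) (nat_lit 0x1000280c0301))) 
(.lf (nat_lit 3493054481) (dlOf (nat_lit 1) (nat_lit 0x200280f4701)))) 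
(.lf (nat_lit 6174262417) (dlOf (nat_lit 1) (nat_lit 0x8004000200080d2b82)))) (.nd (nat_lit 30) 
(.nd (nat_lit 31) (.lf (nat_lit 939769873) (dlOf (nat_lit 1) (nat_lit 0x23000201240008170882))) 
(.lf (nat_lit 3087253521) (dlOf (nat_lit 2) (nat_lit 0x20120002808c0161a08007400400040008160482)))) 
(.lf (nat_lit 2013511697) (dlOf (nat_lit 1) (nat_lit 0x10004000c00080d0002))))) (.nd (nat_lit 10) 
(.nd (nat_lit 7) (.nd (nat_lit 19) 
(.lf (nat_lit 1409531921) (dlOf (nat_lit 1) (nat_lit 0x2380080040002000e0008020483))) 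
(.lf (nat_lit 1410056209) (dlOf (nat_lit 21) (nat_lit 0x9805c002c02c800130100090170000c0480004b04006405f038002e005801640574096016a038037001200d38084178003c0004a1000c805c000402c8001009000d003c0004908003605c001401200008078000900c11840b8098005905c40258011012805d4072018a0380192012006a008411f003c069c00b00a400500010c580ca012c000840415140b8002405a059902c801d015c1e44096001404a010101c803100e0034006c05300240002011008c8084166803c004201c045a00580678028000824012440be011805e04a4018001880a80b3804e044a00400010000000fc380aa80c001a40080003e040b3e05f00e602f02da00c000d405407560270065013019b00100007a1c02f00600003c020092067036c02f81dc81700c3c0b2098a04b010002500e200e4065c07002fc0360370018007b80a80c9404802b002100d300500120010042800601a80000001d91003902f80f3817003340b2018003000df01380110090061c03c0003a0e00de05f0001c8103f302f8014817007b804e0003806000a05f0001b81029a02f811100c00c7c04e0001606007601e000070100bb0180000000819600081cb8002099a00080e0103)))) 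
(.lf (nat_lit 4094413457) (dlOf (nat_lit 1) (nat_lit 0x8008000400200020008055503)))) 
(.nd (nat_lit 27) (.nd (nat_lit 29) 
(.lf (nat_lit 5704500369) (dlOf (nat_lit 1) (nat_lit 0x400280d2b81))) 
(.lf (nat_lit 872662161) (dlOf (nat_lit 1) (nat_lit 0x18008000800200040008092b83)))) 
(.lf (nat_lit 2080621713) (dlOf (nat_lit 1) (nat_lit 0x20018092b81)))))) (.nd (nat_lit 7) 
(.nd (nat_lit 27) (.nd (nat_lit 8) (.nd (nat_lit 19) 
(.lf (nat_lit 4563648593) (dlOf (nat_lit 3) (nat_lit 0x3700000001c0402b0062002402c006a00e00550050000001000ac004002400080b0682))) 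
(.lf (nat_lit 3492528209) (dlOf (nat_lit 3) (nat_lit 0xc3d4000290200101ea000138180d0d80)))) 
(.lf (nat_lit 3493054801) (dlOf (nat_lit 1) (nat_lit 0x8004000200080f4e02)))) (.nd (nat_lit 30) 
(.nd (nat_lit 32) (.lf (nat_lit 402899025) (dlOf (nat_lit 1) (nat_lit 0x200280a1701))) 
(.lf (nat_lit 4697866321) (dlOf (nat_lit 3) (nat_lit 0x3700000001c0402b0062002402c006a00e00550050000001000ac004002400080b0682)))) 
(.nd (nat_lit 8) (.lf (nat_lit 2013511761) (dlOf (nat_lit 1) (nat_lit 0x200080d0501))) 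
(.lf (nat_lit 1543749969) (dlOf (nat_lit 1) (nat_lit 0x4000800d000200360008154d03)))))) 
(.nd (nat_lit 8) (.nd (nat_lit 11) (.nd (nat_lit 27) 
(.lf (nat_lit 6174262481) (dlOf (nat_lit 1) (nat_lit 0x800180d2d81))) 
(.lf (nat_lit 5234738385) (dlOf (nat_lit 1) (nat_lit 0x16000400d800080d2d82)))) 
(.lf (nat_lit 3624127697) (dlOf (nat_lit 1) (nat_lit 0x10008000400200120008146403)))) 
(.nd (nat_lit 26) 
(.lf (nat_lit 805552593) (dlOf (nat_lit 9) (nat_lit 0x540220034007000580100154c0c016009e00c60380052a02000102780294808013808800b801c00a47040082022004f007000780100147e0c020400000a350200d4000005158100010070026200801d0008005400200580008127103))) 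
(.lf (nat_lit 1543750097) (dlOf (nat_lit 2) (nat_lit 0x7402e000000200260028157101)))))))) 
(.nd (nat_lit 21) (.nd (nat_lit 7) (.nd (nat_lit 26) (.nd (nat_lit 22) (.nd (nat_lit 6) 
(.nd (nat_lit 8) (.lf (nat_lit 8898065) (dlOf (nat_lit 1) (nat_lit 0xd8008004800200200008513703))) 
(.lf (nat_lit 8900881) (dlOf (nat_lit 1) (nat_lit 0x180080014002000a0008518083)))) 
(.lf (nat_lit 3892822097) (dlOf (nat_lit 2) (nat_lit 0x6008e000330200280008280201)))) 
(.nd (nat_lit 10) (.nd (nat_lit 19) 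
(.lf (nat_lit 3494363153) (dlOf (nat_lit 2) (nat_lit 0x200700038c04002400400040008210982))) 
(.lf (nat_lit 13615121) (dlOf (nat_lit 2) (nat_lit 0x2cde2001869c00ecf028730880)))) 
(.lf (nat_lit 1346880529) (dlOf (nat_lit 1) (nat_lit 0x8008000400200020009042883))))) 
(.nd (nat_lit 6) (.nd (nat_lit 9) 
(.lf (nat_lit 738705425) (dlOf (nat_lit 1) (nat_lit 0x18008003c002002a00080e0203))) 
(.nd (nat_lit 19) 
(.lf (nat_lit 201835025) (dlOf (nat_lit 3) (nat_lit 0x400820000602004e04100000818090d80))) 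
(.lf (nat_lit 2752496145) (dlOf (nat_lit 8) (nat_lit 0x4e1140026089800d8430004bc0600e62280074113002f0860009740c0190430004b10200b22180025801003310c00129c0800288600094a0400144380049e0200160018018401))))) 
(.nd (nat_lit 8) (.nd (nat_lit 19) 
(.lf (nat_lit 2756165713) (dlOf (nat_lit 1) (nat_lit 0x40028211601))) 
(.lf (nat_lit 68141137) (dlOf (nat_lit 1) (nat_lit 0x40028400701)))) 
(.lf (nat_lit 2752495953) (dlOf (nat_lit 3) (nat_lit 0x108454007a22900c511400640898065c42e000280a008822800371130004085c0004c0c029c00400100008014d82)))))) 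
(.nd (nat_lit 28) (.nd (nat_lit 6) (.nd (nat_lit 8) (.nd (nat_lit 10) 
(.lf (nat_lit 2886189201) (dlOf (nat_lit 2) (nat_lit 0x401a00014018183f80))) 
(.lf (nat_lit 56607889) (dlOf (nat_lit 1) (nat_lit 0x80029732b81)))) 
(.lf (nat_lit 8897937) (dlOf (nat_lit 1) (nat_lit 0x800400040008513602)))) (.nd (nat_lit 8) 
(.lf (nat_lit 3892822225) (dlOf (nat_lit 1) (nat_lit 0x30008008800200300008280503))) 
(.lf (nat_lit 50840017) (dlOf (nat_lit 1) (nat_lit 0x80080004002000200094d7b03))))) 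
(.nd (nat_lit 6) (.nd (nat_lit 8) (.nd (nat_lit 10) 
(.lf (nat_lit 3624386705) (dlOf (nat_lit 3) (nat_lit 0xc803a0001102000201d00008018183f80))) 
(.lf (nat_lit 5772919953) (dlOf (nat_lit 1) (nat_lit 0x1400400020008092b82)))) 
(.lf (nat_lit 3490171281) (dlOf (nat_lit 1) (nat_lit 0x400200020008004e82)))) (.nd (nat_lit 8) 
(.lf (nat_lit 5772395729) (dlOf (nat_lit 1) (nat_lit 0x60028092d81))) 
(.lf (nat_lit 1476905425) (dlOf (nat_lit 1) (nat_lit 0x3000282d4e81))))))) (.nd (nat_lit 19) 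
(.nd (nat_lit 28) (.nd (nat_lit 20) (.nd (nat_lit 9) (.nd (nat_lit 23) 
(.lf (nat_lit 2605073) (dlOf (nat_lit 1) (nat_lit 0x20008170581))) 
(.lf (nat_lit 10993681) (dlOf (nat_lit 1) (nat_lit 0xc00400040008650402)))) 
(.lf (nat_lit 40356369) (dlOf (nat_lit 1) (nat_lit 0x780080010002000200091f5083)))) 
(.nd (nat_lit 8) (.nd (nat_lit 9) 
(.lf (nat_lit 3653649) (dlOf (nat_lit 1) (nat_lit 0x120008210681))) 
(.lf (nat_lit 58180113) (dlOf (nat_lit 1) (nat_lit 0x4002000200097c7c02)))) 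
(.lf (nat_lit 20435217) (dlOf (nat_lit 1) (nat_lit 0x80080004002000200089d8083))))) 
(.nd (nat_lit 26) (.nd (nat_lit 7) 
(.lf (nat_lit 1881653265) (dlOf (nat_lit 1) (nat_lit 0xc0008fa0001))) 
(.lf (nat_lit 1344783505) (dlOf (nat_lit 1) (nat_lit 0x8008000400200020008982b83)))) 
(.nd (nat_lit 6) (.lf (nat_lit 1009238033) (dlOf (nat_lit 1) (nat_lit 0x3c002002a00090a0002))) 
(.lf (nat_lit 1009238097) (dlOf (nat_lit 2) (nat_lit 0x6c0ec0003f02000200090a0701)))))) 
(.nd (nat_lit 6) (.nd (nat_lit 7) (.nd (nat_lit 23) 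
(.lf (nat_lit 53461009) (dlOf (nat_lit 1) (nat_lit 0x8000295e0081))) 
(.lf (nat_lit 28295185) (dlOf (nat_lit 1) (nat_lit 0x40004000e0018d80682)))) (.nd (nat_lit 25) 
(.lf (nat_lit 1346356369) (dlOf (nat_lit 1) (nat_lit 0x1c0018f02b81))) 
(.lf (nat_lit 37733521) (dlOf (nat_lit 1) (nat_lit 0x4002000200090d2b82))))) (.nd (nat_lit 8) 
(.nd (nat_lit 9) (.lf (nat_lit 3492792401) (dlOf (nat_lit 1) (nat_lit 0x200280f4701))) 
(.lf (nat_lit 41929297) (dlOf (nat_lit 1) (nat_lit 0xa0019245281)))) (.nd (nat_lit 7) 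
(.nd (nat_lit 12) (.lf (nat_lit 24101201) (dlOf (nat_lit 1) (nat_lit 0x400200020008b80682))) 
(.lf (nat_lit 19910993) (dlOf (nat_lit 1) (nat_lit 0x200189d8381)))) 
(.lf (nat_lit 37734865) (dlOf (nat_lit 1) (nat_lit 0x200090d4e81))))))))) (.nd (nat_lit 18) 
(.nd (nat_lit 28) (.nd (nat_lit 19) (.nd (nat_lit 6) (.nd (nat_lit 21) (.nd (nat_lit 22) 
(.nd (nat_lit 29) 
(.lf (nat_lit 4362321945) (dlOf (nat_lit 2) (nat_lit 0x481500031604000400200020008020482))) 
(.lf (nat_lit 604225561) (dlOf (nat_lit 1) (nat_lit 0x1b600180c0501)))) 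
(.lf (nat_lit 29605913) (dlOf (nat_lit 1) (nat_lit 0x4800200040008e20482)))) (.nd (nat_lit 9) 
(.lf (nat_lit 2753806361) (dlOf (nat_lit 1) (nat_lit 0x68008002c002000c0008090003))) 
(.lf (nat_lit 41140761) (dlOf (nat_lit 2) (nat_lit 0x4eb100022819227e80))))) (.nd (nat_lit 8) 
(.nd (nat_lit 7) (.nd (nat_lit 20) 
(.lf (nat_lit 1141096537) (dlOf (nat_lit 1) (nat_lit 0x10002000200080d0682))) 
(.lf (nat_lit 26460249) (dlOf (nat_lit 2) (nat_lit 0x126a90000b0080088008000800200020008c50803)))) 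
(.lf (nat_lit 20175577) (dlOf (nat_lit 1) (nat_lit 0x80080008002000200089db983)))) (.nd (nat_lit 7) 
(.nd (nat_lit 20) 
(.lf (nat_lit 1677967705) (dlOf (nat_lit 5) (nat_lit 0x38012000340100100090001940801180480008804007c0240004202004c0028124e01))) 
(.lf (nat_lit 11780441) (dlOf (nat_lit 1) (nat_lit 0x200286c0681)))) 
(.lf (nat_lit 738446297) (dlOf (nat_lit 1) (nat_lit 0x80018095e01)))))) (.nd (nat_lit 8) 
(.nd (nat_lit 20) (.nd (nat_lit 7) (.nd (nat_lit 23) 
(.lf (nat_lit 537640985) (dlOf (nat_lit 2) (nat_lit 0x6c01f800d80c80004c080028004000400080e0402))) 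
(.lf (nat_lit 9158681) (dlOf (nat_lit 1) (nat_lit 0x20028520581)))) 
(.lf (nat_lit 19649177) (dlOf (nat_lit 1) (nat_lit 0x200289d8c81)))) (.nd (nat_lit 21) 
(.nd (nat_lit 24) (.lf (nat_lit 68927513) (dlOf (nat_lit 1) (nat_lit 0x200018840001))) 
(.lf (nat_lit 18595865) (dlOf (nat_lit 1) (nat_lit 0x20008950681)))) 
(.lf (nat_lit 3915801) (dlOf (nat_lit 2) (nat_lit 0x222a8800000080038008002400200080008250a83))))) 
(.nd (nat_lit 6) (.nd (nat_lit 7) 
(.lf (nat_lit 51101977) (dlOf (nat_lit 1) (nat_lit 0x23000400980009507582))) 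
(.lf (nat_lit 8115097) (dlOf (nat_lit 1) (nat_lit 0x400400020008519102)))) (.nd (nat_lit 7) 
(.lf (nat_lit 8115033) (dlOf (nat_lit 1) (nat_lit 0x20008518f81))) (.nd (nat_lit 9) 
(.lf (nat_lit 8111577) (dlOf (nat_lit 1) (nat_lit 0x8008000400200020008513603))) 
(.lf (nat_lit 50054105) (dlOf (nat_lit 1) (nat_lit 0x1200294c2881)))))))) (.nd (nat_lit 27) 
(.nd (nat_lit 7) (.nd (nat_lit 19) (.nd (nat_lit 6) (.nd (nat_lit 20) 
(.lf (nat_lit 2953035801) (dlOf (nat_lit 1) (nat_lit 0x14002001800080c0502))) 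
(.lf (nat_lit 1343471641) (dlOf (nat_lit 1) (nat_lit 0x5e0028260501)))) 
(.lf (nat_lit 4563648601) (dlOf (nat_lit 11) (nat_lit 0x29406800b202f00aa00f800050180c900d00660064032401f018900a80004c2004f00c8026002a01060120000883010b0190078805403bc0240001006004e0340000601009a01a0015007c000160804980680236032012900f808700540000e1000b00680000602007a0340000101008a01a0000040801f800800c0002001800080b0703)))) 
(.nd (nat_lit 26) 
(.lf (nat_lit 1342947353) (dlOf (nat_lit 2) (nat_lit 0x200f98007f0080170008008c002000a0008110a83))) 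
(.lf (nat_lit 1410056217) (dlOf (nat_lit 2) (nat_lit 0x6c01f800d80c80004a080028004000400080e0402))))) 
(.nd (nat_lit 26) (.nd (nat_lit 11) 
(.lf (nat_lit 6174262425) (dlOf (nat_lit 1) (nat_lit 0xa00180d2b81))) 
(.lf (nat_lit 3489909913) (dlOf (nat_lit 2) (nat_lit 0x855c0006804000c00400020008006202)))) 
(.nd (nat_lit 6) (.nd (nat_lit 8) 
(.lf (nat_lit 5704500377) (dlOf (nat_lit 1) (nat_lit 0x200180d2b81))) 
(.lf (nat_lit 5704500633) (dlOf (nat_lit 1) (nat_lit 0x4002000200080d3602)))) 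
(.lf (nat_lit 3557021401) (dlOf (nat_lit 1) (nat_lit 0x40040002000812a002)))))) (.nd (nat_lit 19) 
(.nd (nat_lit 6) (.nd (nat_lit 20) 
(.lf (nat_lit 4228104217) (dlOf (nat_lit 2) (nat_lit 0x48134001f604000400200020008020482))) 
(.lf (nat_lit 471056409) (dlOf (nat_lit 1) (nat_lit 0xa0028260501)))) (.nd (nat_lit 29) 
(.lf (nat_lit 4697866329) (dlOf (nat_lit 11) (nat_lit 0x29406800b202f00aa00f800050180c900d00660064032401f018900a80004c2004f00c8026002a01060120000883010b0190078805403bc0240001006004e0340000601009a01a0015007c000160804980680236032012900f808700540000e1000b00680000602007a0340000101008a01a0000040801f800800c0002001800080b0703))) 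
(.nd (nat_lit 30) (.lf (nat_lit 3087253593) (dlOf (nat_lit 1) (nat_lit 0x1480008160a01))) 
(.lf (nat_lit 2013511769) (dlOf (nat_lit 1) (nat_lit 0x10002000200080d0682)))))) (.nd (nat_lit 20) 
(.nd (nat_lit 7) 
(.lf (nat_lit 470532121) (dlOf (nat_lit 2) (nat_lit 0x200f9000844080170008008c002000a0008110a83))) 
(.lf (nat_lit 5772132505) (dlOf (nat_lit 1) (nat_lit 0xc0018090501)))) (.nd (nat_lit 26) 
(.lf (nat_lit 5773180953) (dlOf (nat_lit 1) (nat_lit 0x2800080b0101))) (.nd (nat_lit 29) 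
(.lf (nat_lit 471580697) (dlOf (nat_lit 1) (nat_lit 0xc00200100008340482))) 
(.lf (nat_lit 6377160729) (dlOf (nat_lit 1) (nat_lit 0x2800080b0101))))))))) (.nd (nat_lit 6) 
(.nd (nat_lit 21) (.nd (nat_lit 27) (.nd (nat_lit 23) (.nd (nat_lit 24) (.nd (nat_lit 26) 
(.nd (nat_lit 28) 
(.lf (nat_lit 1611120665) (dlOf (nat_lit 10) (nat_lit 0xa40298043813c00c40980004048002201e800880d400d006000b4021002100e801e8000000642800400a6001603f001601a800200740006010016007e0002e02008403f0001681000801f8000ac0800d00fc0005204008c07e0002702004603f0001301002801f8000880806c800800a4002000600080e0403))) 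
(.lf (nat_lit 805814297) (dlOf (nat_lit 2) (nat_lit 0x4013000000181b0900)))) 
(.lf (nat_lit 1678229529) (dlOf (nat_lit 2) (nat_lit 0x4013000000181b0900)))) (.nd (nat_lit 9) 
(.lf (nat_lit 17809433) (dlOf (nat_lit 1) (nat_lit 0x11c00201a000088f0902))) 
(.lf (nat_lit 50840089) (dlOf (nat_lit 1) (nat_lit 0x14004001800094d8702))))) (.nd (nat_lit 20) 
(.nd (nat_lit 10) 
(.lf (nat_lit 13090841) (dlOf (nat_lit 12) (nat_lit 0x818d8000cc360004004000c6360001f8100011ed80008c080029a140060d04008a66b000a328802718cc0154c3000c2600002c2d000131668007cb0c0036573003227480010ffc00d07b2000201c00226330000d01000f319800c1860004cc0000012060024633001e30c000c9800000220c001cc660026618000730000003c1800498cc0038c30002060000006830051319802f9860016cc000000b060020633001f30c0000281001b0008001c002000a00086f0403))) 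
(.lf (nat_lit 8903705) (dlOf (nat_lit 1) (nat_lit 0x3800800140020012000851bf03)))) 
(.nd (nat_lit 19) 
(.lf (nat_lit 9945113) (dlOf (nat_lit 3) (nat_lit 0xa89bc0002702000c4fe002726f000098100008008003800200140008590403))) 
(.lf (nat_lit 44023833) (dlOf (nat_lit 1) (nat_lit 0x2c00092b0581)))))) (.nd (nat_lit 26) 
(.nd (nat_lit 9) (.nd (nat_lit 29) 
(.lf (nat_lit 134725657) (dlOf (nat_lit 2) (nat_lit 0xa00e801bc00401a800400220008090002))) 
(.lf (nat_lit 2819080217) (dlOf (nat_lit 28) (nat_lit 0x26001a8006c0d203a005d037501f80017c2000c01a800bc07e0005e0405ac06a025a01f800174100ab01e03cec0e41dd006a06ee02f0005012c3b1807e00e601a0002c8701ba03900e901a806c807e00058060530072023803500fa00fc000ae0c01a40f004380720143037805801a804940bc013405b00c10258005010806d407e00dc03c018901a0001545802d01e00a0c0e403da06f020303500e90184083c0bc032605b00b002587740108094007e00bc03c04c001b00b380d0006005805ac022023800d8001508010401e00b780e403bc06f028303500dd0184083c0bc021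805b021c025879d8108038808204cc03f010701e00db80d00a60036000521c0194078020f03900ae01bc083c0d4030205e012302d8092812c1bb8084042803f010901e011480d0000a22c002c0f004100720139037802d01a803280bc007605b006902580ab0108055c07e009c03c012801a000130580ab81e009980e4007407001e9037801601b809400d40364061021402f00dd016c00500b4036a04b0ec6021002201000ab807e001203d018b01e001500e80dd406c015003501f401a001780b0096804403e801b000259700730210001280800d80d80008a0401500de001205a01d001b007380d00007e1003880e40003802027207801de03900f681a805700bc00a805d014302580f480fc000661c00ec0f002180720193035009181780268096037403f0001906004e03c008381c801780d4021205e006e02580c580fc000621804a00f0036e072016703501148178039c0ba031204b01f401f8000c03801d00fc0002404002407e0000b02008803f0000501002c01f800020080048174005007e0000704005403f000028100a801f80000c080408008020400200780008190483)))) 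
(.lf (nat_lit 134726169) (dlOf (nat_lit 2) (nat_lit 0x3a0410000b818090d80)))) (.nd (nat_lit 8) 
(.lf (nat_lit 201834521) (dlOf (nat_lit 1) (nat_lit 0x12000800e000200420008090003))) 
(.lf (nat_lit 2886189337) (dlOf (nat_lit 2) (nat_lit 0x880680004a04006c00400a80008187f82)))))) 
(.nd (nat_lit 7) (.nd (nat_lit 19) (.nd (nat_lit 9) 
(.lf (nat_lit 37208089) (dlOf (nat_lit 1) (nat_lit 0x600090c0601))) 
(.lf (nat_lit 1345831449) (dlOf (nat_lit 3) (nat_lit 0x422e00041160002282000108b80010c080348008000c002000c0008e07e83)))) 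
(.nd (nat_lit 10) (.nd (nat_lit 24) 
(.lf (nat_lit 473939993) (dlOf (nat_lit 4) (nat_lit 0x2015600140668000c41000e05580006004069027602f413900017828fc0100))) 
(.lf (nat_lit 20955161) (dlOf (nat_lit 1) (nat_lit 0x4002000200089f0102)))) 
(.lf (nat_lit 3492791321) (dlOf (nat_lit 1) (nat_lit 0x4004000200180f2882))))) (.nd (nat_lit 10) 
(.nd (nat_lit 19) (.lf (nat_lit 472369561) (dlOf (nat_lit 1) (nat_lit 0x1c00400060008984e82))) 
(.lf (nat_lit 58706329) (dlOf (nat_lit 1) (nat_lit 0x200197e4e81)))) (.nd (nat_lit 8) 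
(.lf (nat_lit 1344783513) (dlOf (nat_lit 1) (nat_lit 0x8008000400200020008982b83))) 
(.lf (nat_lit 61326745) (dlOf (nat_lit 1) (nat_lit 0x760029923601))))))) (.nd (nat_lit 20) 
(.nd (nat_lit 8) (.nd (nat_lit 21) (.nd (nat_lit 24) 
(.lf (nat_lit 3494363225) (dlOf (nat_lit 1) (nat_lit 0x400400040008211a82))) 
(.lf (nat_lit 21479513) (dlOf (nat_lit 1) (nat_lit 0x34002000e0008a40682)))) (.nd (nat_lit 9) 
(.lf (nat_lit 1009238105) (dlOf (nat_lit 1) (nat_lit 0xa800090a0801))) 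
(.lf (nat_lit 1345309273) (dlOf (nat_lit 1) (nat_lit 0x260028b55301))))) (.nd (nat_lit 19) 
(.nd (nat_lit 26) (.lf (nat_lit 1342685657) (dlOf (nat_lit 1) (nat_lit 0x600180c0b01))) 
(.lf (nat_lit 470270425) (dlOf (nat_lit 1) (nat_lit 0x600180c0b01)))) (.nd (nat_lit 7) 
(.lf (nat_lit 2752495961) (dlOf (nat_lit 1) (nat_lit 0x1360008014e01))) 
(.lf (nat_lit 42975705) (dlOf (nat_lit 1) (nat_lit 0x4004000200092a1202)))))) (.nd (nat_lit 7) 
(.nd (nat_lit 19) (.nd (nat_lit 21) 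
(.lf (nat_lit 4095197273) (dlOf (nat_lit 2) (nat_lit 0x200000001c080020008001000200180008070703))) 
(.lf (nat_lit 3653721) (dlOf (nat_lit 1) (nat_lit 0x17e0008211181)))) (.nd (nat_lit 21) 
(.lf (nat_lit 14663769) (dlOf (nat_lit 1) (nat_lit 0x800400020018770802))) 
(.lf (nat_lit 20955225) (dlOf (nat_lit 3) (nat_lit 0x625bc0002604002d2de001696d000080289f0700))))) 
(.nd (nat_lit 8) (.lf (nat_lit 471318745) (dlOf (nat_lit 1) (nat_lit 0x2800282e0501))) 
(.nd (nat_lit 10) 
(.lf (nat_lit 43499993) (dlOf (nat_lit 1) (nat_lit 0x180080010002000800092a1203))) 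
(.lf (nat_lit 43501017) (dlOf (nat_lit 1) (nat_lit 0x4004000200092a3602))))))))))) (.nd (nat_lit 3) 
(.nd (nat_lit 16) (.nd (nat_lit 8) (.nd (nat_lit 18) (.nd (nat_lit 26) (.nd (nat_lit 19) 
(.nd (nat_lit 27) (.nd (nat_lit 6) (.nd (nat_lit 20) (.nd (nat_lit 21) 
(.lf (nat_lit 5368889393) (dlOf (nat_lit 1) (nat_lit 0x20028080601))) 
(.lf (nat_lit 14860337) (dlOf (nat_lit 3) (nat_lit 0x14e700071c08008a7380008000001bd04001e0008790481)))) 
(.nd (nat_lit 21) 
(.lf (nat_lit 18006065) (dlOf (nat_lit 5) (nat_lit 0x189ae000350200044d70000f0100030d58000380800390fc0000004002800400040008900b82))) 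
(.lf (nat_lit 62046257) (dlOf (nat_lit 2) (nat_lit 0x7100000037a04001c00200040009940482))))) 
(.nd (nat_lit 7) (.lf (nat_lit 5100454001) (dlOf (nat_lit 1) (nat_lit 0x20008090d81))) 
(.lf (nat_lit 3758282993) (dlOf (nat_lit 2) (nat_lit 0x10403200000020002002812a901))))) 
(.nd (nat_lit 28) (.nd (nat_lit 9) 
(.lf (nat_lit 5503107121) (dlOf (nat_lit 1) (nat_lit 0x20028080601))) 
(.lf (nat_lit 134398513) (dlOf (nat_lit 3) (nat_lit 0x805e0006802000204a0001017800108100020008000800200100008018003)))) 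
(.nd (nat_lit 6) (.nd (nat_lit 7) 
(.lf (nat_lit 5234671665) (dlOf (nat_lit 5) (nat_lit 0x780ac0005004003c0560002702002002b0001281000f015800090080070008007c002002e0008080383))) 
(.lf (nat_lit 3624059057) (dlOf (nat_lit 5) (nat_lit 0x50074001c0080003104001201d00070020000c0100050074001c0080002d04001201d00070020000ac1000280080080002001400080b0303)))) 
(.lf (nat_lit 5234671729) (dlOf (nat_lit 2) (nat_lit 0x30150000000803700080078002002a0008080d83)))))) 
(.nd (nat_lit 20) (.nd (nat_lit 6) (.nd (nat_lit 27) 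
(.lf (nat_lit 537575473) (dlOf (nat_lit 3) (nat_lit 0x180590001b0100470180000c008051000804c0002002e00080c0f83))) 
(.lf (nat_lit 134922289) (dlOf (nat_lit 4) (nat_lit 0xe40a0000c0000002b0200890000000c80812c80000005a040004004000a00080e0682)))) 
(.lf (nat_lit 59424881) (dlOf (nat_lit 1) (nat_lit 0x80080004002000200097f1d03)))) (.nd (nat_lit 7) 
(.lf (nat_lit 8045105) (dlOf (nat_lit 1) (nat_lit 0x400400020008511482))) (.nd (nat_lit 9) 
(.lf (nat_lit 20632753) (dlOf (nat_lit 1) (nat_lit 0x2000189d9501))) 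
(.lf (nat_lit 8045233) (dlOf (nat_lit 1) (nat_lit 0x40008511d81))))))) (.nd (nat_lit 27) 
(.nd (nat_lit 9) (.nd (nat_lit 28) (.nd (nat_lit 20) 
(.lf (nat_lit 604160049) (dlOf (nat_lit 1) (nat_lit 0x400400080018060d02))) 
(.lf (nat_lit 68337713) (dlOf (nat_lit 5) (nat_lit 0x3c0000002402000e0000001101000b06f00004808001037800006040010002001a0008550802)))) 
(.nd (nat_lit 6) 
(.lf (nat_lit 1409990705) (dlOf (nat_lit 13) (nat_lit 0x2968164162009601b802400a20108000d8202a601641558096038c0240001a03041302f81d480c0000640803c80be01be0300001882046002f803c817811340600003006026a05f015302c80b9812c03e00600002e0802a005f003a02e00a581640548096029403000400120000b430007017c000580409080be034e0590019025811f80c0000561000400be0002a02070205f0001481000d02f8000a008010800802e0002003e00080c0e83))) 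
(.lf (nat_lit 3020086385) (dlOf (nat_lit 2) (nat_lit 0x80300001781812c100))))) (.nd (nat_lit 11) 
(.lf (nat_lit 2483208753) (dlOf (nat_lit 2) (nat_lit 0x280a00004a04000c00200140008090f02))) 
(.lf (nat_lit 335727153) (dlOf (nat_lit 1) (nat_lit 0x400400020008095182))))) (.nd (nat_lit 9) 
(.nd (nat_lit 7) (.nd (nat_lit 28) 
(.lf (nat_lit 202031153) (dlOf (nat_lit 4) (nat_lit 0xe40a0000c0000002b0200890000000c80812c80000005a040004004000a00080e0682))) 
(.lf (nat_lit 4228562993) (dlOf (nat_lit 1) (nat_lit 0x8004000a00080f0e82)))) 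
(.lf (nat_lit 2885861553) (dlOf (nat_lit 1) (nat_lit 0x10400280b0301)))) (.nd (nat_lit 29) 
(.lf (nat_lit 2348991025) (dlOf (nat_lit 2) (nat_lit 0x280a00004c04000c00200140008090f02))) 
(.lf (nat_lit 1812120113) (dlOf (nat_lit 6) (nat_lit 0xb40000002e81000400000017008014006800e80120005404002c00000029810025004801a0000000a208005800200700008158002))))))) 
(.nd (nat_lit 19) (.nd (nat_lit 21) (.nd (nat_lit 7) (.nd (nat_lit 6) 
(.lf (nat_lit 3491151921) (dlOf (nat_lit 2) (nat_lit 0x42b8000000200040028070901))) 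
(.lf (nat_lit 1476839025) (dlOf (nat_lit 3) (nat_lit 0x5200c00028010001006000138080090008009800200360008203983)))) 
(.nd (nat_lit 10) (.lf (nat_lit 4095131825) (dlOf (nat_lit 1) (nat_lit 0xb800400020008062d82))) 
(.lf (nat_lit 47629489) (dlOf (nat_lit 2) (nat_lit 0x14b0480001604000400400060019402c02))))) 
(.nd (nat_lit 6) (.nd (nat_lit 22) (.nd (nat_lit 26) 
(.lf (nat_lit 3492200497) (dlOf (nat_lit 2) (nat_lit 0x181a00005e040030004000a00080b1102))) 
(.lf (nat_lit 2754002993) (dlOf (nat_lit 2) (nat_lit 0x181a000032040030004000a00080b1102)))) 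
(.lf (nat_lit 15122481) (dlOf (nat_lit 2) (nat_lit 0x6944c0001b0187c0700)))) (.nd (nat_lit 7) 
(.lf (nat_lit 36094065) (dlOf (nat_lit 1) (nat_lit 0xc0019021d01))) 
(.lf (nat_lit 57068273) (dlOf (nat_lit 1) (nat_lit 0x60008004400200160009795a03)))))) 
(.nd (nat_lit 7) (.nd (nat_lit 9) (.nd (nat_lit 20) 
(.lf (nat_lit 966705) (dlOf (nat_lit 1) (nat_lit 0x5c004001c0008040702))) (.nd (nat_lit 22) 
(.nd (nat_lit 26) (.lf (nat_lit 4112433) (dlOf (nat_lit 2) (nat_lit 0xa9bc0002b018280680))) 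
(.lf (nat_lit 473874481) (dlOf (nat_lit 1) (nat_lit 0xb800400380008fc0382)))) 
(.lf (nat_lit 25083953) (dlOf (nat_lit 6) (nat_lit 0x4b3e81a8d3a8026e68a0166279043012e800089341688000000360e00162120001a810050a76009553a803f04ba09a40000001a040052b27802353b001729d4001a39a013b1ab8007897405d842402d2000000170800f4b3e800e593c011ec3800f75ed001ba760054d3a803ce67e001a3a701101ab8083085c03b0424018a039000900a809900000005a3802e400200d40008be0e82))))) 
(.nd (nat_lit 26) (.lf (nat_lit 3493773873) (dlOf (nat_lit 1) (nat_lit 0x4002000200081b0f02))) 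
(.lf (nat_lit 2755576369) (dlOf (nat_lit 1) (nat_lit 0x4002000200081b0f02))))) (.nd (nat_lit 9) 
(.nd (nat_lit 10) 
(.lf (nat_lit 5773377713) (dlOf (nat_lit 2) (nat_lit 0x405000040220009010000000180050008000c002000600080c1603))) 
(.lf (nat_lit 2754530481) (dlOf (nat_lit 2) (nat_lit 0x21d8000200180f6280)))) 
(.lf (nat_lit 19845809) (dlOf (nat_lit 1) (nat_lit 0x180008003c002004200089d8c83))))))) 
(.nd (nat_lit 7) (.nd (nat_lit 30) (.nd (nat_lit 6) (.nd (nat_lit 11) (.nd (nat_lit 9) 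
(.nd (nat_lit 10) (.lf (nat_lit 11977009) (dlOf (nat_lit 1) (nat_lit 0x1c004000200086c0502))) 
(.lf (nat_lit 39765297) (dlOf (nat_lit 1) (nat_lit 0x600291f3201)))) (.nd (nat_lit 18) 
(.lf (nat_lit 671270705) (dlOf (nat_lit 2) (nat_lit 0x201f00030098000681002f00080038002004c0008143d83))) 
(.lf (nat_lit 2751907633) (dlOf (nat_lit 1) (nat_lit 0x120018003d81))))) (.nd (nat_lit 10) 
(.lf (nat_lit 2751646001) (dlOf (nat_lit 1) (nat_lit 0x20028004b81))) (.nd (nat_lit 12) 
(.lf (nat_lit 6509743409) (dlOf (nat_lit 1) (nat_lit 0x28c00400440008146882))) 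
(.lf (nat_lit 8052017) (dlOf (nat_lit 1) (nat_lit 0x800800040020002000851c703)))))) 
(.nd (nat_lit 11) (.nd (nat_lit 9) (.nd (nat_lit 10) 
(.lf (nat_lit 474136945) (dlOf (nat_lit 1) (nat_lit 0x100080004002000400090e1003))) 
(.lf (nat_lit 8050033) (dlOf (nat_lit 1) (nat_lit 0x10008000400200040008519903)))) 
(.nd (nat_lit 10) (.lf (nat_lit 8045425) (dlOf (nat_lit 1) (nat_lit 0x400400020008512582))) 
(.lf (nat_lit 2752169841) (dlOf (nat_lit 1) (nat_lit 0x1000008004081))))) (.nd (nat_lit 21) 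
(.nd (nat_lit 26) (.lf (nat_lit 182641) (dlOf (nat_lit 1) (nat_lit 0x1c0018004e81))) 
(.lf (nat_lit 738380145) (dlOf (nat_lit 2) (nat_lit 0x6c0ae01bc40200380008094e81)))) 
(.nd (nat_lit 18) (.lf (nat_lit 37407089) (dlOf (nat_lit 1) (nat_lit 0x3e00090d4e81))) 
(.lf (nat_lit 57067889) (dlOf (nat_lit 1) (nat_lit 0x800400020019794e82))))))) (.nd (nat_lit 28) 
(.nd (nat_lit 10) (.nd (nat_lit 9) (.nd (nat_lit 11) 
(.lf (nat_lit 5570216305) (dlOf (nat_lit 1) (nat_lit 0x20018085801))) 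
(.lf (nat_lit 5436000625) (dlOf (nat_lit 3) (nat_lit 0x6011006e981000e0088036ac080308008007c00200740008094e83)))) 
(.lf (nat_lit 3355628401) (dlOf (nat_lit 1) (nat_lit 0x2400280a8f81)))) (.nd (nat_lit 9) 
(.nd (nat_lit 11) 
(.lf (nat_lit 1610794353) (dlOf (nat_lit 4) (nat_lit 0x202b8000bc08001816400100ae001a0520001603000102b8000ac0800b000800ac00200bc0008093503))) 
(.lf (nat_lit 3221413233) (dlOf (nat_lit 3) (nat_lit 0x58118017008a00420430033f0300240228016540801a000800780020012000811c903)))) 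
(.lf (nat_lit 1677903729) (dlOf (nat_lit 1) (nat_lit 0x8008001000200020008114083))))) 
(.nd (nat_lit 18) (.nd (nat_lit 19) (.nd (nat_lit 21) 
(.lf (nat_lit 6174196081) (dlOf (nat_lit 1) (nat_lit 0x20018085801))) 
(.lf (nat_lit 3491938673) (dlOf (nat_lit 3) (nat_lit 0x506f400fe004000837a007450200060008090781)))) 
(.lf (nat_lit 4096442737) (dlOf (nat_lit 2) (nat_lit 0x83c800a8a04000c00200060008115802)))) 
(.nd (nat_lit 6) (.lf (nat_lit 1881590577) (dlOf (nat_lit 1) (nat_lit 0x20028f65c01))) 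
(.nd (nat_lit 10) 
(.lf (nat_lit 3491676529) (dlOf (nat_lit 3) (nat_lit 0x2c1bd003f8010007103800406f400e8a08003800400460018090782))) 
(.lf (nat_lit 1476838769) (dlOf (nat_lit 1) (nat_lit 0x20028203501)))))))) (.nd (nat_lit 19) 
(.nd (nat_lit 6) (.nd (nat_lit 28) (.nd (nat_lit 9) 
(.lf (nat_lit 8570289) (dlOf (nat_lit 1) (nat_lit 0x400200020008513602))) (.nd (nat_lit 10) 
(.lf (nat_lit 3355628465) (dlOf (nat_lit 1) (nat_lit 0x200280a9181))) 
(.lf (nat_lit 537053105) (dlOf (nat_lit 1) (nat_lit 0x400400020008004382))))) (.nd (nat_lit 11) 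
(.nd (nat_lit 21) 
(.lf (nat_lit 469942705) (dlOf (nat_lit 1) (nat_lit 0x8008000400200020008017483))) 
(.lf (nat_lit 3491938737) (dlOf (nat_lit 1) (nat_lit 0x8004003e0008090782)))) 
(.lf (nat_lit 3490105777) (dlOf (nat_lit 1) (nat_lit 0x400200020008004e82))))) (.nd (nat_lit 18) 
(.nd (nat_lit 10) (.nd (nat_lit 20) 
(.lf (nat_lit 2348990961) (dlOf (nat_lit 2) (nat_lit 0x2f002a010f014000100400017c0c0024004000c0018090d82))) 
(.lf (nat_lit 11715057) (dlOf (nat_lit 2) (nat_lit 0x100000029c040034002000600086c0d82)))) 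
(.nd (nat_lit 11) 
(.lf (nat_lit 3422737905) (dlOf (nat_lit 1) (nat_lit 0x40008001c002000c00080a9c03))) 
(.lf (nat_lit 3221409265) (dlOf (nat_lit 2) (nat_lit 0x409e0000f0200080028116f01))))) 
(.nd (nat_lit 9) (.nd (nat_lit 26) 
(.lf (nat_lit 537313777) (dlOf (nat_lit 2) (nat_lit 0x20a02d8004016006e406e000be06000a0018090d81))) 
(.lf (nat_lit 201769457) (dlOf (nat_lit 3) (nat_lit 0x280bc0040804076803402cc01200020000002f8180db8008046000200080008090d83)))) 
(.lf (nat_lit 3288777713) (dlOf (nat_lit 1) (nat_lit 0xc00280f2881)))))) (.nd (nat_lit 10) 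
(.nd (nat_lit 22) (.nd (nat_lit 21) (.nd (nat_lit 9) 
(.lf (nat_lit 2753217009) (dlOf (nat_lit 2) (nat_lit 0x589140017c04001000200020008090d82))) 
(.lf (nat_lit 738903025) (dlOf (nat_lit 1) (nat_lit 0xe0008122881)))) (.nd (nat_lit 11) 
(.lf (nat_lit 3493773809) (dlOf (nat_lit 2) (nat_lit 0x140cc0007e02000200181b0d81))) 
(.lf (nat_lit 37407217) (dlOf (nat_lit 1) (nat_lit 0x8002000200090d4f02))))) (.nd (nat_lit 11) 
(.nd (nat_lit 6) (.lf (nat_lit 8049073) (dlOf (nat_lit 1) (nat_lit 0x30002000c0008518482))) 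
(.lf (nat_lit 8045041) (dlOf (nat_lit 1) (nat_lit 0x400200020008511382)))) (.nd (nat_lit 12) 
(.lf (nat_lit 33212913) (dlOf (nat_lit 1) (nat_lit 0x60028f54f01))) 
(.lf (nat_lit 8051185) (dlOf (nat_lit 1) (nat_lit 0x98008003c0020012000851b283)))))) 
(.nd (nat_lit 9) (.nd (nat_lit 6) 
(.lf (nat_lit 8046001) (dlOf (nat_lit 1) (nat_lit 0x400200020008513602))) 
(.lf (nat_lit 8046065) (dlOf (nat_lit 1) (nat_lit 0x400200020008513602)))) (.nd (nat_lit 11) 
(.lf (nat_lit 8050673) (dlOf (nat_lit 1) (nat_lit 0x40040002000851a602))) 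
(.lf (nat_lit 8310769) (dlOf (nat_lit 1) (nat_lit 0x800200040008517a82))))))))) (.nd (nat_lit 18) 
(.nd (nat_lit 30) (.nd (nat_lit 20) (.nd (nat_lit 7) (.nd (nat_lit 9) (.nd (nat_lit 19) 
(.nd (nat_lit 21) (.lf (nat_lit 3087253553) (dlOf (nat_lit 1) (nat_lit 0x400400020008160602))) 
(.lf (nat_lit 10731569) (dlOf (nat_lit 1) (nat_lit 0xa0008620681)))) 
(.lf (nat_lit 537641009) (dlOf (nat_lit 37) (nat_lit 0x7940b400460570168027807880f404c806c02a802200c000f80460070028801e03880000002b0a0272035808401a0000a20809fc0d6000500204ee06b018e00000013c1013d01ac06640d0020a0000002703005a0340001340813d01ac05240000004c0404d806b0002581004e029000128081068148000920403a80ae05c8052000240200df02900011c0819f81480008c0410a40a4000450211960520002201079c02900010c0804f017406000b40378057061a029006b00cc07b0044017c01c0002107001c02d002a015c007c0a40004106007406b003102e808c816805d00ae05e205201a4011002d807006940000004010009605d00d402b81728148025c0660003f08015005d012b02d0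0ab015c152c0a401ac03300090110000f83004b817403580660003d0404fe0520001e0104400290000ec08145800000074040a380000003902004c06b017f02d00db815c19600a403d802200be00e013f0000000701c00200a403fc0000001b8202440000000d80814700000006a040a00000000340200ec05d00f202d008d015c0bd80a400d203300c30110000cc3004b0174010c0ae029005200980198000c8201630148000620402c80d6002005a003802b80028088000261005500d6015005d018602d0102815c06380a401ac03301bd0110042807c02f803800b600801b40000000005804900080434002009400080e0683)))) 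
(.nd (nat_lit 19) 
(.lf (nat_lit 805552689) (dlOf (nat_lit 3) (nat_lit 0xa30288003812c020c0740002306012c051007c01d0000781002480080074002003a0008128003))) 
(.lf (nat_lit 770609) (dlOf (nat_lit 1) (nat_lit 0x20028018b01))))) (.nd (nat_lit 10) 
(.nd (nat_lit 27) (.lf (nat_lit 2483273905) (dlOf (nat_lit 1) (nat_lit 0x400200020008090302))) 
(.lf (nat_lit 2349056177) (dlOf (nat_lit 1) (nat_lit 0x400200020008090302)))) (.nd (nat_lit 6) 
(.lf (nat_lit 19650225) (dlOf (nat_lit 1) (nat_lit 0x80080004002000200089da003))) 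
(.lf (nat_lit 5234738417) (dlOf (nat_lit 1) (nat_lit 0x1600280d2e81)))))) (.nd (nat_lit 19) 
(.nd (nat_lit 23) (.nd (nat_lit 8) 
(.lf (nat_lit 1294897) (dlOf (nat_lit 1) (nat_lit 0x80080004002000200080a8003))) 
(.lf (nat_lit 2752758065) (dlOf (nat_lit 8) (nat_lit 0x2c10c004bf02002a0860025e8100420430012c80800f0218009500400401120012088002500200020448012600800d82240048110004960400280028048401)))) 
(.nd (nat_lit 6) (.lf (nat_lit 26460209) (dlOf (nat_lit 2) (nat_lit 0x8e8a000e3818c50480))) 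
(.lf (nat_lit 11780209) (dlOf (nat_lit 1) (nat_lit 0x98002000200086c0082))))) (.nd (nat_lit 6) 
(.nd (nat_lit 21) 
(.lf (nat_lit 18595889) (dlOf (nat_lit 6) (nat_lit 0x7846f80111a6800c07d80005c0601628df0003377805c1a6800d07d80005a0800ae8df0001c01000846f8000dc08053237c0006c04001800400160008950802))) 
(.lf (nat_lit 29081649) (dlOf (nat_lit 1) (nat_lit 0x400200020008dc0b82)))) (.nd (nat_lit 8) 
(.lf (nat_lit 8110705) (dlOf (nat_lit 1) (nat_lit 0x60008511881))) 
(.lf (nat_lit 8116593) (dlOf (nat_lit 1) (nat_lit 0x2001851ad01))))))) (.nd (nat_lit 31) 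
(.nd (nat_lit 19) (.nd (nat_lit 7) (.nd (nat_lit 9) 
(.lf (nat_lit 1343471665) (dlOf (nat_lit 1) (nat_lit 0x400200060008260a02))) 
(.lf (nat_lit 1677967921) (dlOf (nat_lit 4) (nat_lit 0x96051000301d0026801000080e80133c04002c0a2009820200080018128b01)))) 
(.nd (nat_lit 6) (.lf (nat_lit 1677967793) (dlOf (nat_lit 2) (nat_lit 0x78013004fc018127480))) 
(.lf (nat_lit 5704500465) (dlOf (nat_lit 1) (nat_lit 0x400180d2e81))))) (.nd (nat_lit 20) 
(.lf (nat_lit 1410056241) (dlOf (nat_lit 37) (nat_lit 0x7940b400460570168027807880f404c806c02a802200c000f80460070028801e03880000002b0a0272035808401a0000a20809fc0d6000500204ee06b018e00000013c1013d01ac06640d0020a0000002703005a0340001340813d01ac05240000004c0404d806b0002581004e029000128081068148000920403a80ae05c8052000240200df02900011c0819f81480008c0410a40a4000450211960520002201079c02900010c0804f017406000b40378057061a029006b00cc07b0044017c01c0002107001c02d002a015c007c0a40004106007406b003102e808c816805d00a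e05e205201a4011002d807006940000004010009605d00d402b81728148025c0660003f08015005d012b02d00ab015c152c0a401ac03300090110000f83004b817403580660003d0404fe0520001e0104400290000ec08145800000074040a380000003902004c06b017f02d00db815c19600a403d802200be00e013f0000000701c00200a403fc0000001b8202440000000d80814700000006a040a00000000340200ec05d00f202d008d015c0bd80a400d203300c30110000cc3004b0174010c0ae029005200980198000c8201630148000620402c80d6002005a003802b80028088000261005500d6015005d018602d0102815c06380a401ac03301bd0110042807c02f803800b600801b40000000005804900080434002009400080e0683))) 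
(.nd (nat_lit 26) 
(.lf (nat_lit 5773180977) (dlOf (nat_lit 2) (nat_lit 0x1e019200e80c2007b0000008dc1800a8008010c002004a00080b0483))) 
(.lf (nat_lit 6377160753) (dlOf (nat_lit 2) (nat_lit 0x1e019400e80c2007b0000008dc1800a8008010c002004a00080b0483)))))) 
(.nd (nat_lit 6) (.nd (nat_lit 9) (.nd (nat_lit 8) 
(.lf (nat_lit 3825451057) (dlOf (nat_lit 1) (nat_lit 0x400400020008160602))) 
(.lf (nat_lit 3490955569) (dlOf (nat_lit 3) (nat_lit 0x504480012008001822c0000204002000400300008047a02)))) 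
(.nd (nat_lit 7) (.nd (nat_lit 26) 
(.lf (nat_lit 4026778161) (dlOf (nat_lit 2) (nat_lit 0xd010000000080038008011800200540008090f03))) 
(.lf (nat_lit 3288580657) (dlOf (nat_lit 2) (nat_lit 0xd010000000080038008011800200540008090f03)))) 
(.lf (nat_lit 3557020337) (dlOf (nat_lit 1) (nat_lit 0x7f0008000400200a40008128c83))))) 
(.nd (nat_lit 7) (.nd (nat_lit 11) 
(.lf (nat_lit 3493054321) (dlOf (nat_lit 1) (nat_lit 0x2c00080f4081))) 
(.lf (nat_lit 3557019505) (dlOf (nat_lit 1) (nat_lit 0x20008127781)))) (.nd (nat_lit 8) 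
(.lf (nat_lit 3422798065) (dlOf (nat_lit 1) (nat_lit 0x1c00080b4501))) 
(.lf (nat_lit 4026778097) (dlOf (nat_lit 3) (nat_lit 0x80020000a70100020200332008c00e003e00ce00c00010050002f828365800800e000213ce0008090d83)))))))) 
(.nd (nat_lit 21) (.nd (nat_lit 26) (.nd (nat_lit 7) (.nd (nat_lit 22) (.nd (nat_lit 9) 
(.nd (nat_lit 8) (.nd (nat_lit 19) 
(.lf (nat_lit 1343733809) (dlOf (nat_lit 12) (nat_lit 0xf409d0003a01002a04e8001cc080268274000e40400402b80005c02001015c0002d0102fd102015306b40178350001816301150aa802505080ab025e05480bc00ca04a80720208006007804c002800850000000cc68015081000ac35a001a1a8002b097801482f0002412a000300c0092161004905d002482740124030000240800920ba001004e80240060000440c003413a0001f02013016500590b0804c053801dc26600620e9008906d004c02e4014413a00ae08e00120188000005007c0008050c00205be0008350803))) 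
(.lf (nat_lit 17809457) (dlOf (nat_lit 9) (nat_lit 0xc8e35005f6fb00004408028f8d40131bec001ba260000281805ff1a802df7d8001b44c00004830019e350000200803571a801a37d80000604018dc6a00bedf60000141003c71a801c37d800002040173c6a00b1df60006d130000000c0018004000400088f0f02)))) 
(.lf (nat_lit 3624386865) (dlOf (nat_lit 14) (nat_lit 0x1320150002e8100b200a80017008006006c000a804003003600053020054024002a00d8035005400a802400051080060024007000a80180048000a00c004407c0004e02004c0150002601003700a8001280801c80540009004001807c0004502010c0150002101000a0050000e408054800800f4002009e0008187a03)))) 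
(.nd (nat_lit 6) 
(.lf (nat_lit 1342685745) (dlOf (nat_lit 2) (nat_lit 0x5d124800f08ac01b445000bc1f20000e0480c0f00))) 
(.nd (nat_lit 8) (.lf (nat_lit 8898161) (dlOf (nat_lit 1) (nat_lit 0x400080030002000c0008513983))) 
(.lf (nat_lit 8898417) (dlOf (nat_lit 1) (nat_lit 0x500080030002000a0008514083)))))) 
(.nd (nat_lit 23) (.nd (nat_lit 6) 
(.lf (nat_lit 21479473) (dlOf (nat_lit 1) (nat_lit 0x20018a40381))) 
(.lf (nat_lit 55033969) (dlOf (nat_lit 2) (nat_lit 0x6131400178040030004001a0009690d82)))) 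
(.nd (nat_lit 19) (.lf (nat_lit 30916657) (dlOf (nat_lit 1) (nat_lit 0x400400020008e50b82))) 
(.lf (nat_lit 13615153) (dlOf (nat_lit 1) (nat_lit 0x8008000400200020008730b03)))))) 
(.nd (nat_lit 8) (.nd (nat_lit 6) (.nd (nat_lit 10) 
(.lf (nat_lit 134725809) (dlOf (nat_lit 1) (nat_lit 0x1000400540008090302))) 
(.lf (nat_lit 51365041) (dlOf (nat_lit 2) (nat_lit 0x8ce90002e019512c00)))) 
(.lf (nat_lit 6275313) (dlOf (nat_lit 1) (nat_lit 0x2a0008420601)))) (.nd (nat_lit 6) 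
(.nd (nat_lit 9) (.lf (nat_lit 3490171313) (dlOf (nat_lit 1) (nat_lit 0x400200020008004e82))) 
(.lf (nat_lit 514993) (dlOf (nat_lit 1) (nat_lit 0x2002800bd81)))) 
(.lf (nat_lit 1346880497) (dlOf (nat_lit 1) (nat_lit 0x400400040019042882)))))) (.nd (nat_lit 27) 
(.nd (nat_lit 19) (.nd (nat_lit 8) (.nd (nat_lit 20) 
(.lf (nat_lit 3557277745) (dlOf (nat_lit 28) (nat_lit 0x2600184006c0c003a005d037501f80017c2000c018400bc07e0005e0405ac061025a01f800174100ab01e03cec0e41dd006106ee02f000501083b1807e00e601a0002c8701ba03900e9018406c807e00058060530072023803080fa00fc000ae0c01a40f0043807201430378058018404940bc013405b000a0228060810806d407e00dc036018901a0001545802d01e00a0c0e403da06f01d203201018184083c0bc032605b0ee802280580108094007e0980038005e01b00b380d0006005805ac022023800d8001508010401e00b780e403bc06f01ba03201418184083c0bc021805b0f3b02280710110087008404cc03f010701b00db80d00a60036000521c0194078020f03900ae01bc083c0c2030205e012302d83770114049408404280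3f010901b011480d0000a22c002c0f004100720139037802d018403280bc007605b015602280348108055c07e009c036012801a000130580ab81e009980e4007407001e9037801601b806c80c804a0061021402f00dd016c00500b41d8c045004402180da81080ab807e001203d002a01e01ba80e002a006e031603601f401a001780b0096804403e801b000259700730228001280800d80e0000840401500de001205a01d001c007380d00007e1003880e40003802027207801de03900f6818405700bc00a805d014302100f480fc000661c00ec0f002180720193030809181780268084037403f0001906004e03c008381c801780c2021205e006e02100c580fc000621804a00f0036e072016703081148178039c0ba031204201f401f8000c03801d00fc0002404002407e0000b02008803f0000501002c01f800020080048174005007e0000704005403f000030100a801f80000c080408008020400200780008190903))) 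
(.lf (nat_lit 4095197233) (dlOf (nat_lit 2) (nat_lit 0x4154001c07c00124828070480)))) 
(.lf (nat_lit 6510068017) (dlOf (nat_lit 1) (nat_lit 0x600281a7a01)))) (.nd (nat_lit 9) 
(.lf (nat_lit 68141105) (dlOf (nat_lit 1) (nat_lit 0x3c00200120008400482))) 
(.lf (nat_lit 2752496177) (dlOf (nat_lit 1) (nat_lit 0x20028018b01))))) (.nd (nat_lit 28) 
(.nd (nat_lit 7) 
(.lf (nat_lit 2886189361) (dlOf (nat_lit 9) (nat_lit 0x300280051102008402b003701380210090014c034007e017007f00a00210008009921c011c056008e024005301180058088011c03c009e01a003e00b80131c3800200f8000c06e00460000025f83000a01f000480dc008c000004bd0600d203e006901b8023805000e401400720060025905000401b8012a00800380f800000040018004013c0008188402))) 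
(.lf (nat_lit 201834673) (dlOf (nat_lit 1) (nat_lit 0x1000400540008090302)))) (.nd (nat_lit 9) 
(.nd (nat_lit 19) 
(.lf (nat_lit 1007140913) (dlOf (nat_lit 3) (nat_lit 0x2906e8000740800283740003804000c002000200081c0702))) 
(.lf (nat_lit 1007665201) (dlOf (nat_lit 1) (nat_lit 0x400186b0001)))) 
(.lf (nat_lit 470270513) (dlOf (nat_lit 2) (nat_lit 0x5d124800f08ac01b445000bc1f30000e8480c0f00))))))) 
(.nd (nat_lit 7) (.nd (nat_lit 19) (.nd (nat_lit 23) (.nd (nat_lit 24) 
(.lf (nat_lit 1009238065) (dlOf (nat_lit 1) (nat_lit 0xc002000a00090a0382))) 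
(.lf (nat_lit 19382321) (dlOf (nat_lit 1) (nat_lit 0x400200020008990b82)))) (.nd (nat_lit 6) 
(.nd (nat_lit 8) 
(.lf (nat_lit 27770929) (dlOf (nat_lit 2) (nat_lit 0xf6a90000b40800300080038002000a0008d20a03))) 
(.lf (nat_lit 28819761) (dlOf (nat_lit 1) (nat_lit 0x20008da0701)))) 
(.lf (nat_lit 61326961) (dlOf (nat_lit 1) (nat_lit 0x3000400120019923982))))) (.nd (nat_lit 6) 
(.nd (nat_lit 9) 
(.lf (nat_lit 25149489) (dlOf (nat_lit 5) (nat_lit 0x27bb160015d89009ee5e8025bae001c5d5c00fee780080720005a37080255384000299d010b0000000d858026f62c007b97a0016eb8000173c009600000006814027fb16013e00000017020004761000100000005a08000c004003a0018be0e82))) 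
(.lf (nat_lit 41929265) (dlOf (nat_lit 1) (nat_lit 0x40029245181)))) (.nd (nat_lit 8) 
(.lf (nat_lit 12566641) (dlOf (nat_lit 6) (nat_lit 0x7d48c00056040046ca60001802001034f0001168800409ac0020492001023b000200600002c300020924000120400284920000802000200186d1581))) 
(.lf (nat_lit 3492796785) (dlOf (nat_lit 1) (nat_lit 0x200280fad01)))))) (.nd (nat_lit 6) 
(.nd (nat_lit 9) (.nd (nat_lit 8) 
(.lf (nat_lit 1344783537) (dlOf (nat_lit 5) (nat_lit 0x118580008c13800074040022160001504e0001c81000c82340005a0403342c0000c09c00015828982c00))) 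
(.lf (nat_lit 8373681) (dlOf (nat_lit 1) (nat_lit 0x400200020008513602)))) (.nd (nat_lit 10) 
(.lf (nat_lit 19911345) (dlOf (nat_lit 1) (nat_lit 0x1400080014002002e00089d8c83))) 
(.lf (nat_lit 19912369) (dlOf (nat_lit 1) (nat_lit 0x200189da001))))) (.nd (nat_lit 8) 
(.nd (nat_lit 9) (.nd (nat_lit 20) 
(.lf (nat_lit 1009238257) (dlOf (nat_lit 1) (nat_lit 0x2c002002e00090a1e82))) 
(.lf (nat_lit 28819697) (dlOf (nat_lit 1) (nat_lit 0xc002000e0008da0602)))) 
(.lf (nat_lit 19911409) (dlOf (nat_lit 2) (nat_lit 0x607d8000900800400080018002000600089d8e83)))) 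
(.nd (nat_lit 11) (.lf (nat_lit 1345831409) (dlOf (nat_lit 1) (nat_lit 0x20008e07401))) 
(.lf (nat_lit 1345309169) (dlOf (nat_lit 1) (nat_lit 0x1ac0018b54f01)))))))))) (.nd (nat_lit 8) 
(.nd (nat_lit 16) (.nd (nat_lit 6) (.nd (nat_lit 18) (.nd (nat_lit 19) (.nd (nat_lit 22) 
(.nd (nat_lit 23) (.nd (nat_lit 27) 
(.lf (nat_lit 5368889401) (dlOf (nat_lit 1) (nat_lit 0x30008003000200240008080703))) 
(.lf (nat_lit 5503107129) (dlOf (nat_lit 1) (nat_lit 0x30008003000200240008080703)))) 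
(.lf (nat_lit 25346105) (dlOf (nat_lit 1) (nat_lit 0x20018bf0b81)))) (.nd (nat_lit 20) 
(.lf (nat_lit 1346551865) (dlOf (nat_lit 1) (nat_lit 0x8008000400200040008fc0c83))) 
(.lf (nat_lit 30588985) (dlOf (nat_lit 1) (nat_lit 0x800200020008e41102))))) (.nd (nat_lit 10) 
(.nd (nat_lit 9) (.nd (nat_lit 20) 
(.lf (nat_lit 1409990713) (dlOf (nat_lit 1) (nat_lit 0x200280c1301))) 
(.lf (nat_lit 1343930425) (dlOf (nat_lit 11) (nat_lit 0xe098000603c00012010003026000180f00004704000c098000603c00011010003026000140f000043040006098000603c00010810002826000180f000040040008098000603c0000f810000825c00078040010130000c0780001c0200040150000d4080010008001800200020008381103)))) 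
(.lf (nat_lit 8045113) (dlOf (nat_lit 1) (nat_lit 0x400400020008511482)))) (.nd (nat_lit 7) 
(.lf (nat_lit 8051769) (dlOf (nat_lit 1) (nat_lit 0x40040002000851bf02))) 
(.lf (nat_lit 8049849) (dlOf (nat_lit 1) (nat_lit 0x20008000800200060008519503)))))) 
(.nd (nat_lit 19) (.nd (nat_lit 31) (.nd (nat_lit 20) (.nd (nat_lit 22) 
(.lf (nat_lit 2539577) (dlOf (nat_lit 1) (nat_lit 0x8008000400200020008170b83))) 
(.lf (nat_lit 23511097) (dlOf (nat_lit 1) (nat_lit 0x60018b80001)))) 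
(.lf (nat_lit 9879609) (dlOf (nat_lit 1) (nat_lit 0x20018591401)))) (.nd (nat_lit 26) 
(.lf (nat_lit 3492200505) (dlOf (nat_lit 1) (nat_lit 0x200280b1501))) 
(.lf (nat_lit 2754003001) (dlOf (nat_lit 1) (nat_lit 0x200280b1501))))) (.nd (nat_lit 20) 
(.nd (nat_lit 7) (.nd (nat_lit 21) 
(.lf (nat_lit 17743929) (dlOf (nat_lit 1) (nat_lit 0x4002000200088f1102))) 
(.lf (nat_lit 4096704569) (dlOf (nat_lit 1) (nat_lit 0x20028160701)))) 
(.lf (nat_lit 19841721) (dlOf (nat_lit 1) (nat_lit 0x4800189d1e01)))) (.nd (nat_lit 7) 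
(.nd (nat_lit 22) (.lf (nat_lit 473874489) (dlOf (nat_lit 1) (nat_lit 0x88004003c0008fc0582))) 
(.lf (nat_lit 25083961) (dlOf (nat_lit 1) (nat_lit 0x248008007400200860008be1303)))) 
(.lf (nat_lit 41862329) (dlOf (nat_lit 1) (nat_lit 0x400200020009242c82))))))) (.nd (nat_lit 30) 
(.nd (nat_lit 7) (.nd (nat_lit 11) (.nd (nat_lit 19) 
(.lf (nat_lit 41074809) (dlOf (nat_lit 1) (nat_lit 0x60029212a01))) (.nd (nat_lit 24) 
(.lf (nat_lit 12238969) (dlOf (nat_lit 1) (nat_lit 0x400286c0081))) 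
(.lf (nat_lit 29016185) (dlOf (nat_lit 1) (nat_lit 0x400200020008da0482))))) (.nd (nat_lit 9) 
(.lf (nat_lit 8576121) (dlOf (nat_lit 1) (nat_lit 0x6002851c101))) (.nd (nat_lit 18) 
(.lf (nat_lit 473090681) (dlOf (nat_lit 1) (nat_lit 0x800400020018c95402))) 
(.lf (nat_lit 604424825) (dlOf (nat_lit 10) (nat_lit 0x901e000080e4006806c0004e06001203c001c01b00013410007008c0008c0400100460004502000803c002101b00010c1000380f0000807200140360002103000101f8001000800100f0005806c0003e04001a03c001201b0000cc100260008005000200020008205403)))))) 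
(.nd (nat_lit 9) (.nd (nat_lit 18) (.nd (nat_lit 21) 
(.lf (nat_lit 738377977) (dlOf (nat_lit 1) (nat_lit 0x58008003800200500008090a83))) 
(.lf (nat_lit 2277625) (dlOf (nat_lit 2) (nat_lit 0x14e1600026770005c0100038008002000200020008150483)))) 
(.lf (nat_lit 19841273) (dlOf (nat_lit 1) (nat_lit 0x4002000200089d0a82)))) (.nd (nat_lit 19) 
(.lf (nat_lit 57068281) (dlOf (nat_lit 2) (nat_lit 0x2676000038080080008000c00200120009795a03))) 
(.lf (nat_lit 39766777) (dlOf (nat_lit 2) (nat_lit 0xc1cf800044040008004000400191f5a02)))))) 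
(.nd (nat_lit 26) (.nd (nat_lit 9) (.nd (nat_lit 7) (.nd (nat_lit 18) 
(.lf (nat_lit 6174195833) (dlOf (nat_lit 1) (nat_lit 0x400400020008080c82))) 
(.lf (nat_lit 1343668345) (dlOf (nat_lit 1) (nat_lit 0x30008000c002002a00082e0483)))) 
(.lf (nat_lit 4160935161) (dlOf (nat_lit 1) (nat_lit 0x200280a9501)))) (.nd (nat_lit 20) 
(.lf (nat_lit 1208142457) (dlOf (nat_lit 1) (nat_lit 0x3000200220008095402))) 
(.lf (nat_lit 1345505913) (dlOf (nat_lit 1) (nat_lit 0x80028c95401))))) (.nd (nat_lit 7) 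
(.nd (nat_lit 18) (.lf (nat_lit 3556950137) (dlOf (nat_lit 1) (nat_lit 0x400200120008112a02))) 
(.lf (nat_lit 6377357433) (dlOf (nat_lit 1) (nat_lit 0x2100080298002000e00080c0c83)))) 
(.nd (nat_lit 10) (.nd (nat_lit 28) 
(.lf (nat_lit 5435998457) (dlOf (nat_lit 2) (nat_lit 0xd00500028a0400d000400900008090a82))) 
(.lf (nat_lit 3556950265) (dlOf (nat_lit 1) (nat_lit 0xc800400fc0008117002)))) 
(.lf (nat_lit 3422737657) (dlOf (nat_lit 1) (nat_lit 0x4004000200080a9502)))))))) (.nd (nat_lit 28) 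
(.nd (nat_lit 6) (.nd (nat_lit 21) (.nd (nat_lit 29) (.nd (nat_lit 20) (.nd (nat_lit 7) 
(.nd (nat_lit 27) 
(.lf (nat_lit 4295213113) (dlOf (nat_lit 1) (nat_lit 0x180080168002004200080b0b83))) 
(.lf (nat_lit 4429430841) (dlOf (nat_lit 1) (nat_lit 0x180080168002004200080b0b83)))) 
(.lf (nat_lit 251577) (dlOf (nat_lit 1) (nat_lit 0x36400400ce000800a002)))) (.nd (nat_lit 23) 
(.lf (nat_lit 22265913) (dlOf (nat_lit 1) (nat_lit 0x2c00400020008ab0c82))) 
(.lf (nat_lit 30654521) (dlOf (nat_lit 1) (nat_lit 0x400200020008e41102))))) (.nd (nat_lit 26) 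
(.nd (nat_lit 12) (.lf (nat_lit 537116729) (dlOf (nat_lit 1) (nat_lit 0x80028020681))) 
(.lf (nat_lit 2818822201) (dlOf (nat_lit 1) (nat_lit 0x20008127c81)))) (.nd (nat_lit 18) 
(.lf (nat_lit 3825451065) (dlOf (nat_lit 3) (nat_lit 0x8000000c4040084014004e008001700000000018029000800b800200180008160683))) 
(.lf (nat_lit 2756165689) (dlOf (nat_lit 2) (nat_lit 0x300000004e04002400200060008211302)))))) 
(.nd (nat_lit 7) (.nd (nat_lit 19) 
(.lf (nat_lit 2605113) (dlOf (nat_lit 2) (nat_lit 0x8000000000040010002001e0008170b82))) 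
(.lf (nat_lit 25149497) (dlOf (nat_lit 1) (nat_lit 0xd00018be1301)))) (.nd (nat_lit 10) 
(.lf (nat_lit 3391673) (dlOf (nat_lit 1) (nat_lit 0xa0018200381))) (.nd (nat_lit 23) 
(.lf (nat_lit 35898553) (dlOf (nat_lit 1) (nat_lit 0x20019012c81))) 
(.lf (nat_lit 61064377) (dlOf (nat_lit 7) (nat_lit 0x2667000138100013338002999400014080004cce0000802000c6670000301000133380001008002199c0004cca0000204000400298c2c81))))))) 
(.nd (nat_lit 18) (.nd (nat_lit 20) (.nd (nat_lit 9) (.nd (nat_lit 19) 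
(.lf (nat_lit 2349056121) (dlOf (nat_lit 1) (nat_lit 0x40028090081))) 
(.lf (nat_lit 69976185) (dlOf (nat_lit 1) (nat_lit 0x8008000400200020008e32a03)))) 
(.lf (nat_lit 5503175289) (dlOf (nat_lit 2) (nat_lit 0xc0020000000800080080024002001e0008095403)))) 
(.nd (nat_lit 7) 
(.lf (nat_lit 9683065) (dlOf (nat_lit 2) (nat_lit 0xabe10000cc0800f80080100002001a0008570b83))) 
(.lf (nat_lit 2752758009) (dlOf (nat_lit 1) (nat_lit 0x34800400d00008047782))))) (.nd (nat_lit 7) 
(.nd (nat_lit 9) (.lf (nat_lit 2755641465) (dlOf (nat_lit 1) (nat_lit 0x4004000200081b0082))) 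
(.lf (nat_lit 60279417) (dlOf (nat_lit 1) (nat_lit 0x20029845401)))) (.nd (nat_lit 20) 
(.lf (nat_lit 2886189305) (dlOf (nat_lit 2) (nat_lit 0x1a03e004fe018187780))) 
(.lf (nat_lit 1556729) (dlOf (nat_lit 1) (nat_lit 0x200280f7001))))))) (.nd (nat_lit 26) 
(.nd (nat_lit 30) (.nd (nat_lit 27) (.nd (nat_lit 9) 
(.lf (nat_lit 4563648569) (dlOf (nat_lit 1) (nat_lit 0x20004002a00080b0482))) 
(.lf (nat_lit 805552697) (dlOf (nat_lit 2) (nat_lit 0x605600209018128200)))) (.nd (nat_lit 29) 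
(.nd (nat_lit 31) (.lf (nat_lit 4697866297) (dlOf (nat_lit 1) (nat_lit 0x20004002a00080b0482))) 
(.lf (nat_lit 2550382649) (dlOf (nat_lit 1) (nat_lit 0x20c00200740008090002)))) 
(.lf (nat_lit 3087253561) (dlOf (nat_lit 3) (nat_lit 0x8000000c6040084014004e008001700000000018029000800b800200180008160683))))) 
(.nd (nat_lit 18) (.nd (nat_lit 19) 
(.lf (nat_lit 1342423097) (dlOf (nat_lit 1) (nat_lit 0x400400040018020682))) 
(.lf (nat_lit 1879818297) (dlOf (nat_lit 1) (nat_lit 0x218008000400200120008381103)))) 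
(.nd (nat_lit 6) (.lf (nat_lit 1343733817) (dlOf (nat_lit 1) (nat_lit 0x400400380008350902))) 
(.lf (nat_lit 1342685433) (dlOf (nat_lit 1) (nat_lit 0x10004004200080c0482)))))) (.nd (nat_lit 6) 
(.nd (nat_lit 27) (.nd (nat_lit 29) 
(.lf (nat_lit 1409531961) (dlOf (nat_lit 1) (nat_lit 0x80028020681))) 
(.lf (nat_lit 3020144697) (dlOf (nat_lit 1) (nat_lit 0x1400018130001)))) (.nd (nat_lit 18) 
(.lf (nat_lit 470007865) (dlOf (nat_lit 1) (nat_lit 0x400400040018020682))) 
(.lf (nat_lit 1009238073) (dlOf (nat_lit 1) (nat_lit 0x4002001200090a0582))))) (.nd (nat_lit 30) 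
(.nd (nat_lit 18) (.lf (nat_lit 2483273849) (dlOf (nat_lit 1) (nat_lit 0x40028090081))) 
(.lf (nat_lit 872923257) (dlOf (nat_lit 1) (nat_lit 0x120028122a01)))) (.nd (nat_lit 7) 
(.lf (nat_lit 6241372793) (dlOf (nat_lit 1) (nat_lit 0x10002000400080d5402))) 
(.lf (nat_lit 6378209529) (dlOf (nat_lit 1) (nat_lit 0x140028127001))))))))) (.nd (nat_lit 7) 
(.nd (nat_lit 6) (.nd (nat_lit 26) (.nd (nat_lit 10) (.nd (nat_lit 9) (.nd (nat_lit 12) 
(.lf (nat_lit 2343225) (dlOf (nat_lit 1) (nat_lit 0x400400020008150582))) 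
(.lf (nat_lit 2818822457) (dlOf (nat_lit 1) (nat_lit 0x5c0028128181)))) (.nd (nat_lit 12) 
(.nd (nat_lit 16) (.lf (nat_lit 19843897) (dlOf (nat_lit 1) (nat_lit 0x4002000200089d5c02))) 
(.lf (nat_lit 19909433) (dlOf (nat_lit 1) (nat_lit 0x4002000200089d5c02)))) 
(.lf (nat_lit 3221412665) (dlOf (nat_lit 2) (nat_lit 0x500450056d01811bc80))))) (.nd (nat_lit 12) 
(.nd (nat_lit 23) 
(.lf (nat_lit 671270713) (dlOf (nat_lit 2) (nat_lit 0x2009800080080028008000400200060008143e03))) 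
(.lf (nat_lit 8570681) (dlOf (nat_lit 1) (nat_lit 0x18008000400200020008513e03)))) (.nd (nat_lit 9) 
(.lf (nat_lit 8049977) (dlOf (nat_lit 1) (nat_lit 0x400200020008519902))) 
(.lf (nat_lit 19650361) (dlOf (nat_lit 1) (nat_lit 0x200289da101)))))) (.nd (nat_lit 9) 
(.nd (nat_lit 19) (.nd (nat_lit 27) 
(.lf (nat_lit 4362584377) (dlOf (nat_lit 1) (nat_lit 0xa0008090581))) 
(.lf (nat_lit 4228366649) (dlOf (nat_lit 1) (nat_lit 0xa0008090581)))) (.nd (nat_lit 12) 
(.lf (nat_lit 1410253113) (dlOf (nat_lit 1) (nat_lit 0x10c002003600081b0582))) 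
(.lf (nat_lit 67883321) (dlOf (nat_lit 1) (nat_lit 0x20018338181))))) (.nd (nat_lit 11) 
(.nd (nat_lit 10) (.lf (nat_lit 67883833) (dlOf (nat_lit 1) (nat_lit 0x400200020008338f82))) 
(.lf (nat_lit 3557021497) (dlOf (nat_lit 1) (nat_lit 0x40040002000812a102)))) (.nd (nat_lit 16) 
(.lf (nat_lit 738380601) (dlOf (nat_lit 1) (nat_lit 0x20028095c01))) 
(.lf (nat_lit 4899195705) (dlOf (nat_lit 1) (nat_lit 0x80080004002006400080d5c03))))))) 
(.nd (nat_lit 21) (.nd (nat_lit 27) (.nd (nat_lit 30) (.nd (nat_lit 11) (.nd (nat_lit 18) 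
(.lf (nat_lit 2483208569) (dlOf (nat_lit 1) (nat_lit 0x400200020008090782))) 
(.lf (nat_lit 805749113) (dlOf (nat_lit 4) (nat_lit 0x810800e18040160084007040201a4042003808181a0780)))) 
(.lf (nat_lit 39045497) (dlOf (nat_lit 1) (nat_lit 0xd800200080009194e82)))) (.nd (nat_lit 10) 
(.nd (nat_lit 11) (.lf (nat_lit 3491414393) (dlOf (nat_lit 2) (nat_lit 0x221e600380818090780))) 
(.lf (nat_lit 3490171257) (dlOf (nat_lit 1) (nat_lit 0x400200020008004e82)))) 
(.lf (nat_lit 1610794361) (dlOf (nat_lit 3) (nat_lit 0x1015c0005e0400780b40046059003002b8015814800c0096004a03400250178015001400580080002c12000a0018093501))))) 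
(.nd (nat_lit 26) (.nd (nat_lit 9) (.nd (nat_lit 10) 
(.lf (nat_lit 134660473) (dlOf (nat_lit 2) (nat_lit 0x21805400fe204000c00400040008090782))) 
(.lf (nat_lit 5234738553) (dlOf (nat_lit 1) (nat_lit 0x4004000200080d3502)))) 
(.lf (nat_lit 4160934777) (dlOf (nat_lit 1) (nat_lit 0x4004000200080a8f82)))) (.nd (nat_lit 9) 
(.nd (nat_lit 18) (.lf (nat_lit 4496474489) (dlOf (nat_lit 1) (nat_lit 0xb40008085881))) 
(.lf (nat_lit 4228301177) (dlOf (nat_lit 1) (nat_lit 0x28008001800200180008090783)))) 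
(.lf (nat_lit 3422737273) (dlOf (nat_lit 1) (nat_lit 0x4004000200080a8f82)))))) (.nd (nat_lit 11) 
(.nd (nat_lit 10) (.nd (nat_lit 16) 
(.lf (nat_lit 8044921) (dlOf (nat_lit 1) (nat_lit 0x400400020008511002))) 
(.lf (nat_lit 61325689) (dlOf (nat_lit 1) (nat_lit 0x1c0019921001)))) (.nd (nat_lit 18) 
(.lf (nat_lit 8045945) (dlOf (nat_lit 1) (nat_lit 0x10008001000200020008513503))) 
(.lf (nat_lit 8308089) (dlOf (nat_lit 1) (nat_lit 0x400400020018513502))))) (.nd (nat_lit 12) 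
(.nd (nat_lit 19) (.lf (nat_lit 5773642105) (dlOf (nat_lit 1) (nat_lit 0x14004000800080e4e82))) 
(.lf (nat_lit 33212793) (dlOf (nat_lit 1) (nat_lit 0x400200020008f54e82)))) (.nd (nat_lit 10) 
(.lf (nat_lit 8116601) (dlOf (nat_lit 1) (nat_lit 0x800800040020002000851ae03))) 
(.lf (nat_lit 19848569) (dlOf (nat_lit 1) (nat_lit 0xa00080004002001000089dc903)))))))) 
(.nd (nat_lit 30) (.nd (nat_lit 19) (.nd (nat_lit 10) (.nd (nat_lit 20) (.nd (nat_lit 16) 
(.nd (nat_lit 18) (.nd (nat_lit 26) 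
(.lf (nat_lit 939704825) (dlOf (nat_lit 6) (nat_lit 0x38001601f400900f20020044800803fc0000005e0a01bc00b00f7004807b001001bc00402020000002e0500e2005804000100070000000440601c400b006d00200010c10009002c0008004004000400080018157e02))) 
(.lf (nat_lit 4362256889) (dlOf (nat_lit 10) (nat_lit 0x1e30158001a4080ed80ac000cc0407900560004402000a02b00021010101015800104080ee80ac0008004019c0560003f02001c02b0001f010098015800090080198008001000200020008017e03)))) 
(.lf (nat_lit 134660601) (dlOf (nat_lit 1) (nat_lit 0x18008000400200020008090d83)))) 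
(.nd (nat_lit 6) (.lf (nat_lit 61065657) (dlOf (nat_lit 1) (nat_lit 0x4004000200198c4e82))) 
(.lf (nat_lit 671334905) (dlOf (nat_lit 3) (nat_lit 0x110118000b40800280840002c04000400200020008157e02))))) 
(.nd (nat_lit 6) (.nd (nat_lit 16) 
(.lf (nat_lit 9617849) (dlOf (nat_lit 1) (nat_lit 0x20018577781))) 
(.lf (nat_lit 58180025) (dlOf (nat_lit 1) (nat_lit 0x6400097c6f01)))) (.nd (nat_lit 18) 
(.lf (nat_lit 473091065) (dlOf (nat_lit 3) (nat_lit 0xce165000190100030b28000c4080018008000800200620008c95f03))) 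
(.lf (nat_lit 20368377) (dlOf (nat_lit 1) (nat_lit 0x200189d5f01)))))) (.nd (nat_lit 16) 
(.nd (nat_lit 6) (.lf (nat_lit 2751907769) (dlOf (nat_lit 1) (nat_lit 0x20018004381))) 
(.nd (nat_lit 11) (.lf (nat_lit 8570361) (dlOf (nat_lit 1) (nat_lit 0x20028513681))) 
(.lf (nat_lit 805490169) (dlOf (nat_lit 1) (nat_lit 0x400200020008116f82))))) (.nd (nat_lit 6) 
(.lf (nat_lit 2751973305) (dlOf (nat_lit 1) (nat_lit 0x400200020008004382))) (.nd (nat_lit 18) 
(.lf (nat_lit 5234738681) (dlOf (nat_lit 1) (nat_lit 0x4004000200180d3682))) 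
(.lf (nat_lit 8898041) (dlOf (nat_lit 1) (nat_lit 0x18008000800200020008513683))))))) 
(.nd (nat_lit 6) (.nd (nat_lit 9) (.nd (nat_lit 11) (.nd (nat_lit 16) 
(.lf (nat_lit 2752430521) (dlOf (nat_lit 1) (nat_lit 0x8008000c00200040008017783))) 
(.lf (nat_lit 2752496057) (dlOf (nat_lit 1) (nat_lit 0x20018017781)))) 
(.lf (nat_lit 32164281) (dlOf (nat_lit 1) (nat_lit 0x20008ef4e81)))) (.nd (nat_lit 11) 
(.lf (nat_lit 8116153) (dlOf (nat_lit 1) (nat_lit 0x6000851a501))) 
(.lf (nat_lit 8048569) (dlOf (nat_lit 1) (nat_lit 0x400400040008517a82))))) (.nd (nat_lit 18) 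
(.nd (nat_lit 9) (.nd (nat_lit 10) 
(.lf (nat_lit 37407225) (dlOf (nat_lit 1) (nat_lit 0x80080004002005c00090d4f83))) 
(.lf (nat_lit 708089) (dlOf (nat_lit 1) (nat_lit 0x8008000400200020008006f83)))) (.nd (nat_lit 16) 
(.lf (nat_lit 36357113) (dlOf (nat_lit 1) (nat_lit 0x20019072881))) 
(.lf (nat_lit 61588473) (dlOf (nat_lit 1) (nat_lit 0x6800200680009922882))))) (.nd (nat_lit 10) 
(.nd (nat_lit 16) (.lf (nat_lit 19841529) (dlOf (nat_lit 1) (nat_lit 0x10002000e00089d1482))) 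
(.lf (nat_lit 2752496121) (dlOf (nat_lit 11) (nat_lit 0x6b04500350226019810c000088580005e1006bc450035622601a710c0000b4180370860000560401b04300002a02005a2180001401000810c0000980802b0890041c3a4009a1d000960df004d8000000481400fc44002361d200090e8005a06f80010378016a0000001106009d1120011083004203a401281be009a0000000802805b089004603a4017e1be00ba000000074200008008001400203be0008017e03)))) 
(.lf (nat_lit 61785593) (dlOf (nat_lit 1) (nat_lit 0xe0029923681))))))) (.nd (nat_lit 26) 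
(.nd (nat_lit 16) (.nd (nat_lit 20) (.nd (nat_lit 6) 
(.lf (nat_lit 3494035897) (dlOf (nat_lit 1) (nat_lit 0x200181b0801))) 
(.lf (nat_lit 2013447673) (dlOf (nat_lit 1) (nat_lit 0x20028093681)))) (.nd (nat_lit 9) 
(.lf (nat_lit 3491414521) (dlOf (nat_lit 4) (nat_lit 0x807b40044a04000c3da002170200021ec000cc018090d80))) 
(.lf (nat_lit 1345506297) (dlOf (nat_lit 1) (nat_lit 0x800400020008c95f02))))) (.nd (nat_lit 9) 
(.nd (nat_lit 10) (.nd (nat_lit 19) 
(.lf (nat_lit 1342685689) (dlOf (nat_lit 3) (nat_lit 0x682500047604002846e0021a02001c00080c0d81))) 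
(.lf (nat_lit 3490693625) (dlOf (nat_lit 2) (nat_lit 0x462030051d818017800)))) 
(.lf (nat_lit 1610860025) (dlOf (nat_lit 1) (nat_lit 0x60018093681)))) (.nd (nat_lit 18) 
(.lf (nat_lit 3493053433) (dlOf (nat_lit 1) (nat_lit 0x4004000200080f2882))) 
(.lf (nat_lit 5772919801) (dlOf (nat_lit 1) (nat_lit 0xc00400020008092882)))))) (.nd (nat_lit 10) 
(.nd (nat_lit 16) (.nd (nat_lit 6) 
(.lf (nat_lit 6378144185) (dlOf (nat_lit 1) (nat_lit 0x4000401040008116f02))) (.nd (nat_lit 27) 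
(.lf (nat_lit 5972869625) (dlOf (nat_lit 2) (nat_lit 0x1f80440008804000400400020018157e02))) 
(.lf (nat_lit 1812120057) (dlOf (nat_lit 6) (nat_lit 0x5900d80296c08004006c014b404001803600a5902008e01b0052281003e00d8028f0080198008002000200020008157803))))) 
(.nd (nat_lit 27) 
(.lf (nat_lit 3288580601) (dlOf (nat_lit 2) (nat_lit 0x340800014f0200120028090d81))) 
(.lf (nat_lit 1543750137) (dlOf (nat_lit 8) (nat_lit 0x80b000b80520050026004c011801e8080009403a0014018002800800296c4001080a400ac04c00a60230044010001400740074030005201000200010029684001080a401480460084020002200e80118060009c020003c005002400100296440021008c00c40400056018000d00280291820018808c0060040001e01800130028029142002a808c00fc0400048018000a0028028f020028008c0108040004a018001b0028028ec2002980080480002042a0008157803))))) 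
(.nd (nat_lit 27) (.nd (nat_lit 6) 
(.lf (nat_lit 1677903801) (dlOf (nat_lit 1) (nat_lit 0x40018114381))) 
(.lf (nat_lit 4095919609) (dlOf (nat_lit 1) (nat_lit 0xa00280e3681)))) (.nd (nat_lit 11) 
(.lf (nat_lit 3422737913) (dlOf (nat_lit 1) (nat_lit 0x1c00280a9c01))) 
(.lf (nat_lit 1543687673) (dlOf (nat_lit 1) (nat_lit 0x10008002400200180008146f83))))))))))))

end

end Pool.Agent.Lib.MP_5854e1_co.Cz
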