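import Pool.Agent.Lib.MP_5854e1_co.DecRow

/-!
# Sparse corrections
-/

set_option autoImplicit false
set_option maxRecDepth 100000

namespace Pool.Agent.Lib.MP_5854e1_co.Cz

noncomputable section

noncomputable def tz95 : DT := (.nd (nat_lit 16) (.nd (nat_lit 5) (.nd (nat_lit 3) 
(.nd (nat_lit 19) (.nd (nat_lit 6) (.nd (nat_lit 18) (.nd (nat_lit 26) (.nd (nat_lit 22) 
(.nd (nat_lit 10) (.nd (nat_lit 8) (.nd (nat_lit 27) 
(.lf (nat_lit 6442631189) (dlOf (nat_lit 1) (nat_lit 0x6000400340008110482))) 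
(.lf (nat_lit 3624058901) (dlOf (nat_lit 3) (nat_lit 0x170060005402f0011017000480b40024036000a018000a00a0004804800280160018005000c00100048004003c00001a451a00480300004017800780b8002c05a001401b000500c00038050002800a001c002000e00000690c50005800800bc002001000080b0003)))) 
(.lf (nat_lit 134398229) (dlOf (nat_lit 1) (nat_lit 0xd400200400008014002)))) (.nd (nat_lit 7) 
(.lf (nat_lit 1610794005) (dlOf (nat_lit 1) (nat_lit 0x900080014002001a0008092883))) 
(.lf (nat_lit 183957) (dlOf (nat_lit 1) (nat_lit 0x2200008007201))))) (.nd (nat_lit 20) 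
(.lf (nat_lit 12763157) (dlOf (nat_lit 1) (nat_lit 0x400286e0581))) (.nd (nat_lit 23) 
(.lf (nat_lit 24297493) (dlOf (nat_lit 1) (nat_lit 0x20018b90801))) 
(.lf (nat_lit 15908885) (dlOf (nat_lit 1) (nat_lit 0x400400020018840402)))))) (.nd (nat_lit 8) 
(.nd (nat_lit 9) (.nd (nat_lit 29) 
(.lf (nat_lit 5704433685) (dlOf (nat_lit 1) (nat_lit 0x400400020008080002))) 
(.lf (nat_lit 5167562773) (dlOf (nat_lit 1) (nat_lit 0x4004000200080c0102)))) 
(.lf (nat_lit 3959609877) (dlOf (nat_lit 3) (nat_lit 0xc08c00060430060902000401c0030440801f800800a80020026000811b283)))) 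
(.nd (nat_lit 7) (.nd (nat_lit 9) 
(.lf (nat_lit 201507093) (dlOf (nat_lit 1) (nat_lit 0xd400200400008014002))) 
(.lf (nat_lit 2617430805) (dlOf (nat_lit 1) (nat_lit 0x1e00280a8f81)))) (.nd (nat_lit 9) 
(.lf (nat_lit 5570216341) (dlOf (nat_lit 1) (nat_lit 0xbc002002a0008086482))) 
(.lf (nat_lit 738380693) (dlOf (nat_lit 1) (nat_lit 0x100008095c81))))))) (.nd (nat_lit 26) 
(.nd (nat_lit 20) (.nd (nat_lit 7) (.nd (nat_lit 21) (.nd (nat_lit 27) 
(.lf (nat_lit 1342619669) (dlOf (nat_lit 2) (nat_lit 0x111e00010714000a408000c00200020008090582))) 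
(.lf (nat_lit 2819014677) (dlOf (nat_lit 2) (nat_lit 0xc037000c1818150080)))) (.nd (nat_lit 23) 
(.lf (nat_lit 2539541) (dlOf (nat_lit 2) (nat_lit 0x294a80016902001e0018170581))) 
(.lf (nat_lit 27705365) (dlOf (nat_lit 1) (nat_lit 0xa0028d10581))))) (.nd (nat_lit 11) 
(.lf (nat_lit 8831381) (dlOf (nat_lit 1) (nat_lit 0x8008000400200020008511003))) (.nd (nat_lit 21) 
(.lf (nat_lit 444821) (dlOf (nat_lit 1) (nat_lit 0xa20018004e81))) 
(.lf (nat_lit 1881590165) (dlOf (nat_lit 1) (nat_lit 0x400400020018f64e82)))))) (.nd (nat_lit 21) 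
(.nd (nat_lit 23) (.lf (nat_lit 35045397) (dlOf (nat_lit 1) (nat_lit 0x20018fd0081))) 
(.nd (nat_lit 24) (.lf (nat_lit 9879573) (dlOf (nat_lit 1) (nat_lit 0x18008000800200040008590203))) 
(.lf (nat_lit 26656789) (dlOf (nat_lit 2) (nat_lit 0x783a2803dd8c201b29d4000fe038c50080))))) 
(.nd (nat_lit 7) (.lf (nat_lit 3493249301) (dlOf (nat_lit 1) (nat_lit 0x20028104001))) 
(.lf (nat_lit 3588245) (dlOf (nat_lit 2) (nat_lit 0xb446500005018200180)))))) (.nd (nat_lit 27) 
(.nd (nat_lit 8) (.nd (nat_lit 28) 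
(.lf (nat_lit 67551253) (dlOf (nat_lit 1) (nat_lit 0x6200181f0481))) 
(.lf (nat_lit 6241566741) (dlOf (nat_lit 1) (nat_lit 0x20018110281)))) (.nd (nat_lit 20) 
(.lf (nat_lit 604422421) (dlOf (nat_lit 1) (nat_lit 0x1000400020008200a82))) 
(.lf (nat_lit 2755051797) (dlOf (nat_lit 1) (nat_lit 0x20028104001))))) (.nd (nat_lit 28) 
(.nd (nat_lit 31) (.lf (nat_lit 738639893) (dlOf (nat_lit 1) (nat_lit 0x600280d0001))) 
(.lf (nat_lit 2886123541) (dlOf (nat_lit 1) (nat_lit 0x800400020018160482)))) 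
(.lf (nat_lit 470204437) (dlOf (nat_lit 2) (nat_lit 0x111e00010714000a408000c00200020008090582))))))) 
(.nd (nat_lit 29) (.nd (nat_lit 30) (.nd (nat_lit 7) (.nd (nat_lit 8) (.nd (nat_lit 21) 
(.lf (nat_lit 25346133) (dlOf (nat_lit 12) (nat_lit 0xb048c0040000000310400ae123003301c8000c01004e03740b481ae062601c035100b8000b02001084440084034002a000000148300800000000a00800680000004e0401a424600bc121005e06b800d80e4016c000000250a0022b7103a009181cd84840ee81ba076e0d7039e049802202040e48072078601c03c600b813380540e7c000000211801ac12100e100000007010023000000036040058000000010200080028bf0d81))) 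
(.lf (nat_lit 2277461) (dlOf (nat_lit 1) (nat_lit 0x60028150001)))) 
(.lf (nat_lit 186709) (dlOf (nat_lit 1) (nat_lit 0x800800040020002000800ab83)))) (.nd (nat_lit 8) 
(.nd (nat_lit 9) (.lf (nat_lit 8570069) (dlOf (nat_lit 1) (nat_lit 0x60008000800200180008512d83))) 
(.lf (nat_lit 20106965) (dlOf (nat_lit 1) (nat_lit 0x4004000200089d7382)))) 
(.lf (nat_lit 8574421) (dlOf (nat_lit 3) (nat_lit 0xf69020002402007b48100010018519b00))))) 
(.nd (nat_lit 18) (.nd (nat_lit 7) (.nd (nat_lit 20) 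
(.lf (nat_lit 3422732373) (dlOf (nat_lit 1) (nat_lit 0xa00180a0001))) 
(.lf (nat_lit 3490889813) (dlOf (nat_lit 2) (nat_lit 0x5007b00013818031080)))) (.nd (nat_lit 8) 
(.lf (nat_lit 3624059093) (dlOf (nat_lit 2) (nat_lit 0x2000000e88180b0480))) 
(.lf (nat_lit 1342357973) (dlOf (nat_lit 1) (nat_lit 0x8008000400200020008017103))))) 
(.nd (nat_lit 9) (.nd (nat_lit 26) 
(.lf (nat_lit 1074184277) (dlOf (nat_lit 3) (nat_lit 0x1780270002012000f807c037800200029080012027000138180d0d80))) 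
(.lf (nat_lit 1409728597) (dlOf (nat_lit 1) (nat_lit 0x40018090001)))) 
(.lf (nat_lit 1344719445) (dlOf (nat_lit 3) (nat_lit 0x40b400007c0801385a00003a0400ac002002c0008985302)))))) 
(.nd (nat_lit 7) (.nd (nat_lit 8) (.nd (nat_lit 10) (.nd (nat_lit 18) 
(.lf (nat_lit 2752692309) (dlOf (nat_lit 2) (nat_lit 0x5007900013818031080))) 
(.lf (nat_lit 1946599509) (dlOf (nat_lit 3) (nat_lit 0x1780270002012000f8070037800200029080012027000138180d0d80)))) 
(.nd (nat_lit 9) 
(.lf (nat_lit 3020086357) (dlOf (nat_lit 2) (nat_lit 0x10403200000020002002812bf81))) 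
(.lf (nat_lit 2013447765) (dlOf (nat_lit 1) (nat_lit 0x400200020008093882))))) (.nd (nat_lit 11) 
(.lf (nat_lit 1812119893) (dlOf (nat_lit 1) (nat_lit 0x400400020008154d02))) (.nd (nat_lit 26) 
(.lf (nat_lit 671271253) (dlOf (nat_lit 1) (nat_lit 0x10008002400200180008144e03))) 
(.lf (nat_lit 1677904213) (dlOf (nat_lit 1) (nat_lit 0x400200020008114e02)))))) (.nd (nat_lit 31) 
(.nd (nat_lit 8) (.lf (nat_lit 872596693) (dlOf (nat_lit 1) (nat_lit 0x8008000400200020008092d83))) 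
(.nd (nat_lit 27) 
(.lf (nat_lit 537053141) (dlOf (nat_lit 3) (nat_lit 0x32024000098100250168001009c009400a004a00300008048004500))) 
(.lf (nat_lit 671270869) (dlOf (nat_lit 4) (nat_lit 0x6c030000150200420180000981000700c000014080130008003000200320008144503))))) 
(.nd (nat_lit 9) 
(.lf (nat_lit 3020084693) (dlOf (nat_lit 13) (nat_lit 0x14007c00a0002000440401ae03d0001e0100d701e8000ec0807a80f4001807600200360001c8300f701e8000e0080f18080078c00803c600202100000000902000e00000004404001805e03e4020014f00e000d8014078800803c40020219000000080380f100000003e04021c0000001d0201f003d0000381019b01900c380980000008016c00206d40008129b02))) 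
(.nd (nat_lit 10) (.lf (nat_lit 2751644629) (dlOf (nat_lit 2) (nat_lit 0x2213d00962018002880))) 
(.lf (nat_lit 2751907797) (dlOf (nat_lit 2) (nat_lit 0x98498004c23700008028004500))))))))) 
(.nd (nat_lit 18) (.nd (nat_lit 21) (.nd (nat_lit 27) (.nd (nat_lit 26) (.nd (nat_lit 7) 
(.nd (nat_lit 9) 
(.lf (nat_lit 537575445) (dlOf (nat_lit 1) (nat_lit 0x10008000c002000e00080c0a83))) 
(.lf (nat_lit 51036693) (dlOf (nat_lit 1) (nat_lit 0x200294f7d81)))) 
(.lf (nat_lit 3490368661) (dlOf (nat_lit 1) (nat_lit 0x8008000400200020008006203)))) 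
(.nd (nat_lit 6) (.nd (nat_lit 28) 
(.lf (nat_lit 4362780693) (dlOf (nat_lit 2) (nat_lit 0x110238000000802880080104002001c00080f0a83))) 
(.lf (nat_lit 1409990677) (dlOf (nat_lit 1) (nat_lit 0x10008000c002000e00080c0a83)))) 
(.lf (nat_lit 4362780757) (dlOf (nat_lit 10) (nat_lit 0x2a00b40006404006805a000310201ce0470134016801a8090000600c017805a0002e02000204700d80168000b01005c811c03f805a000a024000158300e7023809880b4020c0480002a0600fa02d000148100020238000440800f800800b4002001400080f1983))))) 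
(.nd (nat_lit 31) (.nd (nat_lit 26) 
(.lf (nat_lit 5772066837) (dlOf (nat_lit 1) (nat_lit 0x180008008000200500008060a03))) 
(.lf (nat_lit 6376046613) (dlOf (nat_lit 1) (nat_lit 0x180008008000200500008060a03)))) 
(.nd (nat_lit 6) (.nd (nat_lit 30) 
(.lf (nat_lit 3154821141) (dlOf (nat_lit 2) (nat_lit 0x4027800798080008008000400200020008340a83))) 
(.lf (nat_lit 4228562965) (dlOf (nat_lit 2) (nat_lit 0x110200000000802880080104002001c00080f0a83)))) 
(.lf (nat_lit 4228563029) (dlOf (nat_lit 1) (nat_lit 0x8002000200080f1682)))))) (.nd (nat_lit 6) 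
(.nd (nat_lit 8) (.nd (nat_lit 9) (.nd (nat_lit 10) 
(.lf (nat_lit 19578901) (dlOf (nat_lit 12) (nat_lit 0x34ac0001a3a8000cfae000875f000139980006828002a56000111d400027ac00043af80009ccc000321400052b0000475f000639980006018001a56000091d400087d700043af80005c20001a560000d1d400027ac00043af80011ccc000281400152b0000c8ea00053eb80031d7c000261000112b0000a8ea00053eb80031d7c000201000152b0000c8ea00043eb80031d7c0001e1000152b0000a8ea00053eb80031d7c0001a1000292b000168ea000a3eb80059d7c0001810000d2b000068ea00033eb80021d7c00000100038002000200089c0302))) 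
(.lf (nat_lit 69911573) (dlOf (nat_lit 1) (nat_lit 0x14000800d000200540008e12883)))) 
(.nd (nat_lit 10) (.lf (nat_lit 6378144277) (dlOf (nat_lit 1) (nat_lit 0x400400020008117d82))) 
(.lf (nat_lit 8052245) (dlOf (nat_lit 1) (nat_lit 0x380080008002000a000851ce83))))) 
(.nd (nat_lit 7) (.nd (nat_lit 12) 
(.lf (nat_lit 8045845) (dlOf (nat_lit 1) (nat_lit 0x20008513081))) 
(.lf (nat_lit 8049941) (dlOf (nat_lit 1) (nat_lit 0x20008000800200060008519703)))) 
(.lf (nat_lit 36358549) (dlOf (nat_lit 1) (nat_lit 0x20019074e81))))) (.nd (nat_lit 10) 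
(.nd (nat_lit 7) (.lf (nat_lit 8048981) (dlOf (nat_lit 1) (nat_lit 0x8008000400200020008518383))) 
(.nd (nat_lit 12) (.lf (nat_lit 8045013) (dlOf (nat_lit 1) (nat_lit 0x38008000400200060008511183))) 
(.lf (nat_lit 8049109) (dlOf (nat_lit 1) (nat_lit 0x60028518681))))) (.nd (nat_lit 8) 
(.nd (nat_lit 12) 
(.lf (nat_lit 53134549) (dlOf (nat_lit 1) (nat_lit 0x3e0008026400200600009572d83))) 
(.lf (nat_lit 8049877) (dlOf (nat_lit 1) (nat_lit 0x8008000400200020008519503)))) (.nd (nat_lit 12) 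
(.lf (nat_lit 8046037) (dlOf (nat_lit 1) (nat_lit 0x400200020008513602))) 
(.lf (nat_lit 8050133) (dlOf (nat_lit 2) (nat_lit 0x2b5d400194538009a1d0004d000002673a001332380099624004ca0400184ed00012098519b00)))))))) 
(.nd (nat_lit 21) (.nd (nat_lit 20) (.nd (nat_lit 28) (.nd (nat_lit 6) 
(.lf (nat_lit 9355285) (dlOf (nat_lit 1) (nat_lit 0x8000400020008540582))) (.nd (nat_lit 23) 
(.lf (nat_lit 21938261) (dlOf (nat_lit 1) (nat_lit 0xc0008005c00200220008a81083))) 
(.lf (nat_lit 47104085) (dlOf (nat_lit 1) (nat_lit 0x400293a0701))))) (.nd (nat_lit 26) 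
(.lf (nat_lit 1343143957) (dlOf (nat_lit 1) (nat_lit 0x400400020008160482))) (.nd (nat_lit 27) 
(.lf (nat_lit 1410252821) (dlOf (nat_lit 5) (nat_lit 0x740ee00240760021038803301c0000c0cc001c065004803180150184034822000940ee004c07100090330068fc1800081dc033be04005c0ee019dc02006800281b0001))) 
(.lf (nat_lit 470728725) (dlOf (nat_lit 1) (nat_lit 0x8008006400200040008160483)))))) 
(.nd (nat_lit 6) (.nd (nat_lit 7) (.nd (nat_lit 22) 
(.lf (nat_lit 27181077) (dlOf (nat_lit 1) (nat_lit 0x8008000400200020008cb0303))) 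
(.lf (nat_lit 14598165) (dlOf (nat_lit 2) (nat_lit 0x2db384000f5018770080)))) 
(.lf (nat_lit 2015381) (dlOf (nat_lit 2) (nat_lit 0x889fa00005018150180)))) (.nd (nat_lit 7) 
(.lf (nat_lit 2015573) (dlOf (nat_lit 3) (nat_lit 0x352a00015408024aa98012953c0000a0400020018150681))) 
(.lf (nat_lit 6377357525) (dlOf (nat_lit 2) (nat_lit 0x300b800034040004004000200180c1c02)))))) 
(.nd (nat_lit 7) (.nd (nat_lit 22) (.nd (nat_lit 6) (.nd (nat_lit 9) 
(.lf (nat_lit 473874453) (dlOf (nat_lit 1) (nat_lit 0x310008004800200a40008fc0083))) 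
(.lf (nat_lit 19844629) (dlOf (nat_lit 2) (nat_lit 0x3d5e000190189d7080)))) 
(.lf (nat_lit 473874517) (dlOf (nat_lit 1) (nat_lit 0x9c004002e0008fc0802)))) (.nd (nat_lit 6) 
(.nd (nat_lit 20) (.lf (nat_lit 15646741) (dlOf (nat_lit 1) (nat_lit 0x60008810401))) 
(.lf (nat_lit 25083925) (dlOf (nat_lit 2) (nat_lit 0x1b67f00f0e818be0a80)))) 
(.lf (nat_lit 50251093) (dlOf (nat_lit 1) (nat_lit 0x1f800400d800094c3382))))) (.nd (nat_lit 8) 
(.nd (nat_lit 9) 
(.lf (nat_lit 2754530453) (dlOf (nat_lit 2) (nat_lit 0xc38a0001d02000200280f6201))) 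
(.nd (nat_lit 10) (.lf (nat_lit 19841685) (dlOf (nat_lit 1) (nat_lit 0x2800189d1b01))) 
(.lf (nat_lit 8308373) (dlOf (nat_lit 1) (nat_lit 0xc00400060018513a82))))) (.nd (nat_lit 6) 
(.lf (nat_lit 8307605) (dlOf (nat_lit 2) (nat_lit 0x13a1a00071818512580))) 
(.lf (nat_lit 41863637) (dlOf (nat_lit 1) (nat_lit 0x20029244e81))))))))) (.nd (nat_lit 21) 
(.nd (nat_lit 6) (.nd (nat_lit 26) (.nd (nat_lit 18) (.nd (nat_lit 8) (.nd (nat_lit 19) 
(.nd (nat_lit 20) (.nd (nat_lit 22) 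
(.lf (nat_lit 5234671645) (dlOf (nat_lit 1) (nat_lit 0x4000801ac002008c0008080083))) 
(.lf (nat_lit 12763165) (dlOf (nat_lit 1) (nat_lit 0x80080004002000200086e0a03)))) 
(.lf (nat_lit 3490889757) (dlOf (nat_lit 5) (nat_lit 0x2307100057408006835c002b80400881c0001590200340d7000ab818030900)))) 
(.nd (nat_lit 22) (.nd (nat_lit 23) 
(.lf (nat_lit 134922269) (dlOf (nat_lit 2) (nat_lit 0x12e8000003e404004000200a400080e0482))) 
(.lf (nat_lit 42647581) (dlOf (nat_lit 2) (nat_lit 0x2898d00000019260100)))) 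
(.lf (nat_lit 21676061) (dlOf (nat_lit 1) (nat_lit 0x48008009400200340008a60a83))))) 
(.nd (nat_lit 7) (.nd (nat_lit 11) 
(.lf (nat_lit 2281887005) (dlOf (nat_lit 1) (nat_lit 0x30008001c002000600080a9703))) 
(.lf (nat_lit 183581) (dlOf (nat_lit 1) (nat_lit 0x1c0018006781)))) 
(.lf (nat_lit 5905762205) (dlOf (nat_lit 1) (nat_lit 0x28c00400440008144282))))) (.nd (nat_lit 7) 
(.nd (nat_lit 9) (.nd (nat_lit 19) 
(.lf (nat_lit 1611055133) (dlOf (nat_lit 1) (nat_lit 0x200180d0081))) 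
(.lf (nat_lit 22986781) (dlOf (nat_lit 1) (nat_lit 0x52400200b80008b40482)))) 
(.lf (nat_lit 1881063965) (dlOf (nat_lit 1) (nat_lit 0x2b0008077c00202220008de8703)))) 
(.nd (nat_lit 22) 
(.lf (nat_lit 3221667997) (dlOf (nat_lit 3) (nat_lit 0x3c017800700b80026408007c05c0012f0200020018170201))) 
(.lf (nat_lit 21414045) (dlOf (nat_lit 1) (nat_lit 0x20018a31281)))))) (.nd (nat_lit 27) 
(.nd (nat_lit 31) (.nd (nat_lit 7) (.nd (nat_lit 10) 
(.lf (nat_lit 67289117) (dlOf (nat_lit 1) (nat_lit 0x3c004000800080a0482))) 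
(.lf (nat_lit 1141034013) (dlOf (nat_lit 1) (nat_lit 0x400200020008096002)))) 
(.lf (nat_lit 5436000925) (dlOf (nat_lit 1) (nat_lit 0x8008000400200120008095583)))) 
(.nd (nat_lit 7) (.nd (nat_lit 8) 
(.lf (nat_lit 2752692253) (dlOf (nat_lit 5) (nat_lit 0x2306a000560080068324002ae0400881a4001540200340c9000a9018030900))) 
(.lf (nat_lit 2214778141) (dlOf (nat_lit 1) (nat_lit 0x1400080a9701)))) 
(.lf (nat_lit 2753216925) (dlOf (nat_lit 2) (nat_lit 0x443f000cb60200160028090781))))) 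
(.nd (nat_lit 7) (.nd (nat_lit 18) (.nd (nat_lit 19) 
(.lf (nat_lit 6643957789) (dlOf (nat_lit 2) (nat_lit 0xa01a0007040800080080018002000600080a0483))) 
(.lf (nat_lit 202031133) (dlOf (nat_lit 2) (nat_lit 0x12e8000003e604004000200a400080e0482)))) 
(.lf (nat_lit 738639901) (dlOf (nat_lit 1) (nat_lit 0x200180d0081)))) (.nd (nat_lit 8) 
(.lf (nat_lit 3959865501) (dlOf (nat_lit 3) (nat_lit 0x3c017800700b80027e08007c05c0013c0200020018170201))) 
(.lf (nat_lit 738380189) (dlOf (nat_lit 1) (nat_lit 0x80028094e81))))))) (.nd (nat_lit 8) 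
(.nd (nat_lit 12) (.nd (nat_lit 19) (.nd (nat_lit 7) (.nd (nat_lit 9) 
(.lf (nat_lit 37929053) (dlOf (nat_lit 1) (nat_lit 0x200290f0881))) 
(.lf (nat_lit 8570461) (dlOf (nat_lit 1) (nat_lit 0x20018513901)))) 
(.lf (nat_lit 5570216157) (dlOf (nat_lit 1) (nat_lit 0x1c0018081a01)))) (.nd (nat_lit 18) 
(.lf (nat_lit 6377095261) (dlOf (nat_lit 1) (nat_lit 0x200180a1981))) 
(.lf (nat_lit 2753478749) (dlOf (nat_lit 1) (nat_lit 0x20028090001))))) (.nd (nat_lit 10) 
(.nd (nat_lit 11) (.lf (nat_lit 8835165) (dlOf (nat_lit 1) (nat_lit 0x20028517d81))) 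
(.lf (nat_lit 186461) (dlOf (nat_lit 3) (nat_lit 0x560b8002a9f800254da0021406000ac17000553f000429b4004000c0004004000c001800a782)))) 
(.nd (nat_lit 7) (.lf (nat_lit 2684540509) (dlOf (nat_lit 1) (nat_lit 0x200280a9c01))) 
(.lf (nat_lit 4160935133) (dlOf (nat_lit 1) (nat_lit 0x4004000200080a9502)))))) (.nd (nat_lit 9) 
(.nd (nat_lit 11) (.nd (nat_lit 18) 
(.lf (nat_lit 4228039005) (dlOf (nat_lit 1) (nat_lit 0x400200040008014e82))) (.nd (nat_lit 19) 
(.lf (nat_lit 4095131997) (dlOf (nat_lit 1) (nat_lit 0x10008000400200020008067103))) 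
(.lf (nat_lit 2015581) (dlOf (nat_lit 2) (nat_lit 0x94a8000560200040018150681))))) (.nd (nat_lit 7) 
(.lf (nat_lit 3221408093) (dlOf (nat_lit 1) (nat_lit 0x100080028002001e0008114e83))) 
(.lf (nat_lit 35310045) (dlOf (nat_lit 1) (nat_lit 0x28008000400200020009014e83))))) 
(.nd (nat_lit 7) (.nd (nat_lit 10) 
(.lf (nat_lit 2684539741) (dlOf (nat_lit 1) (nat_lit 0x800180a8f81))) 
(.lf (nat_lit 671270749) (dlOf (nat_lit 1) (nat_lit 0x40008002400200140008143f83)))) 
(.nd (nat_lit 10) 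
(.lf (nat_lit 55755741) (dlOf (nat_lit 1) (nat_lit 0xa00080004002000200096d2883))) 
(.lf (nat_lit 3959609309) (dlOf (nat_lit 2) (nat_lit 0x20023000fb40804b00080018002000e000811a603)))))))) 
(.nd (nat_lit 8) (.nd (nat_lit 20) (.nd (nat_lit 19) (.nd (nat_lit 22) (.nd (nat_lit 7) 
(.nd (nat_lit 23) (.lf (nat_lit 69386269) (dlOf (nat_lit 1) (nat_lit 0x400200020008950602))) 
(.lf (nat_lit 44220445) (dlOf (nat_lit 1) (nat_lit 0x200092e0081)))) 
(.lf (nat_lit 35832989) (dlOf (nat_lit 1) (nat_lit 0x1c00200020009012b82)))) (.nd (nat_lit 6) 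
(.lf (nat_lit 48676893) (dlOf (nat_lit 3) (nat_lit 0x1460f8000902800010c1000fa9e800914d00003f04000c0029420101))) 
(.lf (nat_lit 14860381) (dlOf (nat_lit 1) (nat_lit 0x20008790881))))) (.nd (nat_lit 7) 
(.nd (nat_lit 6) (.nd (nat_lit 23) 
(.lf (nat_lit 1344978973) (dlOf (nat_lit 1) (nat_lit 0x400289a0101))) 
(.lf (nat_lit 11190301) (dlOf (nat_lit 1) (nat_lit 0x1000200020008670482)))) (.nd (nat_lit 10) 
(.lf (nat_lit 472563805) (dlOf (nat_lit 2) (nat_lit 0x4a163000058189c0880))) 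
(.lf (nat_lit 32162909) (dlOf (nat_lit 1) (nat_lit 0x260028ef2901))))) (.nd (nat_lit 9) 
(.nd (nat_lit 11) (.lf (nat_lit 53134493) (dlOf (nat_lit 1) (nat_lit 0x400200040009572b82))) 
(.lf (nat_lit 19844253) (dlOf (nat_lit 1) (nat_lit 0x80080024002001000089d6283)))) 
(.lf (nat_lit 19841693) (dlOf (nat_lit 1) (nat_lit 0x7000189d1c01)))))) (.nd (nat_lit 12) 
(.nd (nat_lit 6) (.nd (nat_lit 7) 
(.lf (nat_lit 45793309) (dlOf (nat_lit 2) (nat_lit 0xdc4d30001f819360100))) 
(.lf (nat_lit 37667997) (dlOf (nat_lit 1) (nat_lit 0x24002000800090d2b82)))) (.nd (nat_lit 9) 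
(.lf (nat_lit 473874525) (dlOf (nat_lit 4) (nat_lit 0x89053001cc29602060d7006c06b00002c20015053002081ae0000904009814c007d06b800000100aa000801dc00200700008fc0883))) 
(.nd (nat_lit 22) (.lf (nat_lit 62311005) (dlOf (nat_lit 1) (nat_lit 0x4002000200099a5302))) 
(.lf (nat_lit 41339485) (dlOf (nat_lit 2) (nat_lit 0x420000000d019245300)))))) (.nd (nat_lit 6) 
(.nd (nat_lit 9) (.lf (nat_lit 8050717) (dlOf (nat_lit 1) (nat_lit 0xa001851a601))) 
(.lf (nat_lit 8049181) (dlOf (nat_lit 1) (nat_lit 0x4c800801d400200960008518803)))) 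
(.nd (nat_lit 7) 
(.lf (nat_lit 8313949) (dlOf (nat_lit 4) (nat_lit 0x4f760006602000e7bb0001f81000244200007008003000800200020008000851c003))) 
(.nd (nat_lit 9) (.lf (nat_lit 8049885) (dlOf (nat_lit 1) (nat_lit 0x8008000400200020008519503))) 
(.lf (nat_lit 8049373) (dlOf (nat_lit 1) (nat_lit 0x8008000400200020008518c83)))))))) 
(.nd (nat_lit 6) (.nd (nat_lit 22) (.nd (nat_lit 7) (.nd (nat_lit 26) 
(.lf (nat_lit 3493249309) (dlOf (nat_lit 1) (nat_lit 0x20028104001))) 
(.lf (nat_lit 2755051805) (dlOf (nat_lit 1) (nat_lit 0x20028104001)))) (.nd (nat_lit 9) 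
(.nd (nat_lit 11) 
(.lf (nat_lit 2755051933) (dlOf (nat_lit 3) (nat_lit 0xa01d0025681001101000126c080070008004c002000e0008106883))) 
(.lf (nat_lit 37407133) (dlOf (nat_lit 1) (nat_lit 0x4002000a00090d4e82)))) 
(.lf (nat_lit 1881590685) (dlOf (nat_lit 1) (nat_lit 0x5400402660008f65c82))))) (.nd (nat_lit 7) 
(.nd (nat_lit 9) 
(.lf (nat_lit 8312093) (dlOf (nat_lit 2) (nat_lit 0x1612c000f004001800400020008519702))) 
(.lf (nat_lit 8049437) (dlOf (nat_lit 1) (nat_lit 0x400400020008518f82)))) (.nd (nat_lit 9) 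
(.lf (nat_lit 8049053) (dlOf (nat_lit 1) (nat_lit 0x40028518381))) (.nd (nat_lit 12) 
(.lf (nat_lit 8308637) (dlOf (nat_lit 1) (nat_lit 0x600028514281))) 
(.lf (nat_lit 8050589) (dlOf (nat_lit 1) (nat_lit 0xc000800440020018000851a303))))))) 
(.nd (nat_lit 11) (.nd (nat_lit 9) (.nd (nat_lit 7) (.nd (nat_lit 26) 
(.lf (nat_lit 3493249373) (dlOf (nat_lit 1) (nat_lit 0x20028104e81))) 
(.lf (nat_lit 2755051869) (dlOf (nat_lit 1) (nat_lit 0xc00200060008104e82)))) 
(.lf (nat_lit 473612765) (dlOf (nat_lit 2) (nat_lit 0xe08d800440080038008000c002000c0008f67c83)))) 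
(.nd (nat_lit 10) (.lf (nat_lit 8049501) (dlOf (nat_lit 1) (nat_lit 0x400400040008518f82))) 
(.lf (nat_lit 8050525) (dlOf (nat_lit 1) (nat_lit 0x800800040020002000851a303))))) (.nd (nat_lit 7) 
(.nd (nat_lit 19) (.lf (nat_lit 57067869) (dlOf (nat_lit 1) (nat_lit 0xc00400020009794e82))) 
(.lf (nat_lit 58640733) (dlOf (nat_lit 1) (nat_lit 0x4004000200097e4e82)))) (.nd (nat_lit 9) 
(.lf (nat_lit 8051165) (dlOf (nat_lit 1) (nat_lit 0x2000851b281))) 
(.lf (nat_lit 20106205) (dlOf (nat_lit 1) (nat_lit 0x4004000200089d5e02)))))))))) (.nd (nat_lit 3) 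
(.nd (nat_lit 18) (.nd (nat_lit 6) (.nd (nat_lit 19) (.nd (nat_lit 26) (.nd (nat_lit 31) 
(.nd (nat_lit 7) (.nd (nat_lit 9) (.nd (nat_lit 22) 
(.lf (nat_lit 1073922101) (dlOf (nat_lit 2) (nat_lit 0x202900058818020600))) 
(.lf (nat_lit 12763189) (dlOf (nat_lit 1) (nat_lit 0xb80080018002001c00086e0a83)))) 
(.lf (nat_lit 1610794549) (dlOf (nat_lit 1) (nat_lit 0x1400400a60008093782)))) (.nd (nat_lit 8) 
(.lf (nat_lit 20106933) (dlOf (nat_lit 1) (nat_lit 0x200189d7281))) 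
(.lf (nat_lit 1610793397) (dlOf (nat_lit 1) (nat_lit 0x4000400060008091002))))) (.nd (nat_lit 12) 
(.nd (nat_lit 9) 
(.lf (nat_lit 3490889781) (dlOf (nat_lit 1) (nat_lit 0xbd0008036c00201580008030d03))) 
(.lf (nat_lit 3491938869) (dlOf (nat_lit 3) (nat_lit 0xa0e20000440800407100000004002800400ac0018090f82)))) 
(.nd (nat_lit 7) (.lf (nat_lit 3892498485) (dlOf (nat_lit 1) (nat_lit 0x80028157c81))) 
(.lf (nat_lit 3221413045) (dlOf (nat_lit 1) (nat_lit 0xe6001811c201)))))) (.nd (nat_lit 7) 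
(.nd (nat_lit 11) (.nd (nat_lit 20) 
(.lf (nat_lit 1946337333) (dlOf (nat_lit 2) (nat_lit 0x202900070818020600))) (.nd (nat_lit 29) 
(.lf (nat_lit 68337717) (dlOf (nat_lit 1) (nat_lit 0x60028550881))) 
(.lf (nat_lit 2752692277) (dlOf (nat_lit 1) (nat_lit 0xbd0008036c00201580008030d03))))) 
(.nd (nat_lit 8) (.lf (nat_lit 6509743669) (dlOf (nat_lit 1) (nat_lit 0x400200020008147182))) 
(.lf (nat_lit 3959605557) (dlOf (nat_lit 2) (nat_lit 0x603700003818114c00))))) (.nd (nat_lit 9) 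
(.nd (nat_lit 8) (.lf (nat_lit 2754792629) (dlOf (nat_lit 2) (nat_lit 0x2415d000260180f6280))) 
(.lf (nat_lit 3020084661) (dlOf (nat_lit 2) (nat_lit 0x1e03d00037818129980)))) (.nd (nat_lit 27) 
(.lf (nat_lit 5436000949) (dlOf (nat_lit 9) (nat_lit 0x16004400052040034022000280200640110001381002d0088000300800c80440001604009c0220000a02002e011000048100180088000200804b8008037c00201420008095703))) 
(.lf (nat_lit 738380469) (dlOf (nat_lit 2) (nat_lit 0xc00300000018095700))))))) (.nd (nat_lit 20) 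
(.nd (nat_lit 26) (.nd (nat_lit 8) (.nd (nat_lit 21) 
(.lf (nat_lit 134922293) (dlOf (nat_lit 2) (nat_lit 0x4803b000000180e0780))) 
(.lf (nat_lit 3492462645) (dlOf (nat_lit 1) (nat_lit 0x8004001000080d0b82)))) 
(.lf (nat_lit 707893) (dlOf (nat_lit 1) (nat_lit 0x8008000400200020008006883)))) (.nd (nat_lit 21) 
(.nd (nat_lit 28) (.lf (nat_lit 202031157) (dlOf (nat_lit 2) (nat_lit 0x4803b000000180e0780))) 
(.lf (nat_lit 470466613) (dlOf (nat_lit 1) (nat_lit 0x3000201520008101282)))) 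
(.lf (nat_lit 2754265141) (dlOf (nat_lit 1) (nat_lit 0x8004001000080d0b82))))) (.nd (nat_lit 8) 
(.nd (nat_lit 11) 
(.lf (nat_lit 3850293) (dlOf (nat_lit 1) (nat_lit 0x270008000800200080008241383))) 
(.nd (nat_lit 12) (.lf (nat_lit 8046645) (dlOf (nat_lit 1) (nat_lit 0x400200320008514702))) 
(.lf (nat_lit 8050741) (dlOf (nat_lit 1) (nat_lit 0x48008000c002000a000851a603))))) 
(.nd (nat_lit 7) (.nd (nat_lit 9) 
(.lf (nat_lit 8049973) (dlOf (nat_lit 1) (nat_lit 0x400200020008519902))) 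
(.lf (nat_lit 8046389) (dlOf (nat_lit 1) (nat_lit 0x20008513d81)))) 
(.lf (nat_lit 8046005) (dlOf (nat_lit 1) (nat_lit 0x400200020008513602))))))) (.nd (nat_lit 10) 
(.nd (nat_lit 8) (.nd (nat_lit 28) (.nd (nat_lit 7) (.nd (nat_lit 20) 
(.lf (nat_lit 6471797) (dlOf (nat_lit 1) (nat_lit 0x60008420481))) 
(.lf (nat_lit 24297589) (dlOf (nat_lit 1) (nat_lit 0x400200020008b91882)))) 
(.lf (nat_lit 1611320053) (dlOf (nat_lit 2) (nat_lit 0x202d0000a0080030008000800200080008125a03)))) 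
(.nd (nat_lit 7) (.nd (nat_lit 26) 
(.lf (nat_lit 6308413557) (dlOf (nat_lit 1) (nat_lit 0x188008010000200ca0008080d83))) 
(.lf (nat_lit 3556950133) (dlOf (nat_lit 1) (nat_lit 0xe0008112901)))) 
(.lf (nat_lit 3556950261) (dlOf (nat_lit 1) (nat_lit 0x320008116f01))))) (.nd (nat_lit 11) 
(.nd (nat_lit 7) (.nd (nat_lit 26) 
(.lf (nat_lit 3491414389) (dlOf (nat_lit 3) (nat_lit 0x183ca007250200221e600382818090780))) 
(.lf (nat_lit 2753216885) (dlOf (nat_lit 3) (nat_lit 0x243f000ca20200021f80064f818090780)))) 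
(.lf (nat_lit 4362256885) (dlOf (nat_lit 2) (nat_lit 0x2802b0001f818017e00)))) (.nd (nat_lit 27) 
(.lf (nat_lit 5436000629) (dlOf (nat_lit 2) (nat_lit 0x2d00880374c0803d000800b0002005e0008094e83))) 
(.lf (nat_lit 738380149) (dlOf (nat_lit 2) (nat_lit 0x8015c0378804005000400f20008094e82)))))) 
(.nd (nat_lit 7) (.nd (nat_lit 8) (.nd (nat_lit 9) 
(.lf (nat_lit 8051829) (dlOf (nat_lit 1) (nat_lit 0x2000851c101))) (.nd (nat_lit 12) 
(.lf (nat_lit 8046197) (dlOf (nat_lit 1) (nat_lit 0x20008513981))) 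
(.lf (nat_lit 2684540533) (dlOf (nat_lit 1) (nat_lit 0x200080a9d01))))) (.nd (nat_lit 11) 
(.lf (nat_lit 8050037) (dlOf (nat_lit 1) (nat_lit 0x10008000400200040008519903))) 
(.lf (nat_lit 6509743477) (dlOf (nat_lit 1) (nat_lit 0x20028146b81))))) (.nd (nat_lit 12) 
(.nd (nat_lit 11) (.lf (nat_lit 8046069) (dlOf (nat_lit 1) (nat_lit 0x400200020008513602))) 
(.nd (nat_lit 26) (.lf (nat_lit 805490165) (dlOf (nat_lit 1) (nat_lit 0x400200020008116f82))) 
(.lf (nat_lit 3825389045) (dlOf (nat_lit 1) (nat_lit 0x20028146f81))))) (.nd (nat_lit 11) 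
(.lf (nat_lit 20108789) (dlOf (nat_lit 1) (nat_lit 0x4004000200089d9c02))) (.nd (nat_lit 19) 
(.lf (nat_lit 3020086773) (dlOf (nat_lit 2) (nat_lit 0x300350052d81812cd00))) 
(.lf (nat_lit 8052213) (dlOf (nat_lit 1) (nat_lit 0x2002851cd01))))))))) (.nd (nat_lit 19) 
(.nd (nat_lit 28) (.nd (nat_lit 8) (.nd (nat_lit 10) (.nd (nat_lit 21) (.nd (nat_lit 20) 
(.nd (nat_lit 26) (.lf (nat_lit 2819014709) (dlOf (nat_lit 1) (nat_lit 0x20028150481))) 
(.lf (nat_lit 2886123573) (dlOf (nat_lit 6) (nat_lit 0x190020005cc0800480a40008038000c01b00060020005c42003d0000001620401bc0000000e020044043003701d805400d8009806a015803400ac000000000300068008008c00200020008160603)))) 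
(.lf (nat_lit 30851125) (dlOf (nat_lit 1) (nat_lit 0x400200020008e50c02)))) (.nd (nat_lit 22) 
(.lf (nat_lit 2539573) (dlOf (nat_lit 1) (nat_lit 0x40008004400200220008170a83))) 
(.lf (nat_lit 15122485) (dlOf (nat_lit 3) (nat_lit 0x6b898000940800a512c00044040004004003600087c0782))))) 
(.nd (nat_lit 21) (.nd (nat_lit 24) 
(.lf (nat_lit 1745273909) (dlOf (nat_lit 1) (nat_lit 0x200280e2881))) 
(.lf (nat_lit 50775093) (dlOf (nat_lit 1) (nat_lit 0x6680080688002011200094c2883)))) 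
(.lf (nat_lit 57066549) (dlOf (nat_lit 1) (nat_lit 0x400400020009792882))))) (.nd (nat_lit 26) 
(.nd (nat_lit 11) 
(.lf (nat_lit 134660469) (dlOf (nat_lit 1) (nat_lit 0x38008001800200100008090783))) 
(.lf (nat_lit 57067893) (dlOf (nat_lit 1) (nat_lit 0x98008007800200160009794e83)))) 
(.nd (nat_lit 6) (.lf (nat_lit 4362518837) (dlOf (nat_lit 1) (nat_lit 0x400400020018090582))) 
(.nd (nat_lit 29) (.lf (nat_lit 4362518901) (dlOf (nat_lit 2) (nat_lit 0xbc02d00759818090780))) 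
(.lf (nat_lit 1678164341) (dlOf (nat_lit 3) (nat_lit 0x7808400ca1020092042006500181a0780))))))) 
(.nd (nat_lit 29) (.nd (nat_lit 10) (.nd (nat_lit 6) (.nd (nat_lit 26) 
(.lf (nat_lit 3624321077) (dlOf (nat_lit 6) (nat_lit 0x190020005cc0800480a8000803a000c01c00060020005c42003d0000001c20401bc0000000e020044044003701d805400d8009806a015803400ac000000000300068008008c00200020008160603))) 
(.lf (nat_lit 3557212213) (dlOf (nat_lit 1) (nat_lit 0x800400020008170482)))) 
(.lf (nat_lit 1343668341) (dlOf (nat_lit 21) (nat_lit 0x2404e8007700800f058401e413a001da04005409d000ec0100a20b08022853802c013a015c08e000e28400190b080028274003860801402c2000414e003404e80250238003841000ac2c2000614e005e04e80130238003761001f82c2010009d00940470006e4180438584002013a013a08e000da83006d0b080028274009811c001b40600da161004a0a70045827400c411c001b20800bc161000604e801c8238003420c01f42c2004814e008204e804582380033810008411c0018f020006161000c181003a0b080038274025011c0017a06013216100370a7004382f8027013a014408e000bc05000f0b080148274002ec08001413a00175020046161005c04e801e0238002e60c049800400f000082e0482))))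 
(.nd (nat_lit 8) (.lf (nat_lit 1345766453) (dlOf (nat_lit 1) (nat_lit 0x100018dd2881))) 
(.lf (nat_lit 3490106677) (dlOf (nat_lit 1) (nat_lit 0x8008000400200020008006883))))) 
(.nd (nat_lit 8) (.nd (nat_lit 7) 
(.lf (nat_lit 1007075381) (dlOf (nat_lit 1) (nat_lit 0x400400020008170482))) 
(.lf (nat_lit 4026977461) (dlOf (nat_lit 1) (nat_lit 0x200280f6281)))) (.nd (nat_lit 6) 
(.lf (nat_lit 4228301109) (dlOf (nat_lit 1) (nat_lit 0x400400020018090582))) 
(.lf (nat_lit 805749109) (dlOf (nat_lit 4) (nat_lit 0x31810800e0a040118084006f80201420420037b8181a0780))))))) 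
(.nd (nat_lit 20) (.nd (nat_lit 6) (.nd (nat_lit 7) (.nd (nat_lit 8) 
(.lf (nat_lit 5161013) (dlOf (nat_lit 2) (nat_lit 0x2c53300004c080040008005000200220008320783))) 
(.lf (nat_lit 19843893) (dlOf (nat_lit 1) (nat_lit 0x4002000200089d5c02)))) 
(.lf (nat_lit 2752430517) (dlOf (nat_lit 1) (nat_lit 0x400200020008017782)))) (.nd (nat_lit 7) 
(.nd (nat_lit 9) (.lf (nat_lit 472826997) (dlOf (nat_lit 2) (nat_lit 0xc0000000a018b02a00))) 
(.lf (nat_lit 19841653) (dlOf (nat_lit 1) (nat_lit 0x7000189d1881)))) (.nd (nat_lit 9) 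
(.lf (nat_lit 19841269) (dlOf (nat_lit 1) (nat_lit 0x4002000200089d0a82))) 
(.lf (nat_lit 57592565) (dlOf (nat_lit 1) (nat_lit 0x20008001800200080009795a03)))))) 
(.nd (nat_lit 8) (.nd (nat_lit 9) (.nd (nat_lit 21) 
(.lf (nat_lit 18792501) (dlOf (nat_lit 1) (nat_lit 0xc00400020008970002))) (.nd (nat_lit 22) 
(.lf (nat_lit 473874485) (dlOf (nat_lit 1) (nat_lit 0xb8004002e0008fc0482))) 
(.lf (nat_lit 25083957) (dlOf (nat_lit 1) (nat_lit 0x400200020008be1102))))) (.nd (nat_lit 26) 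
(.lf (nat_lit 3491676725) (dlOf (nat_lit 3) (nat_lit 0x40e2000044080010828005040a001a1c4000208700000020013800801b000200120008090f83))) 
(.lf (nat_lit 2753479221) (dlOf (nat_lit 3) (nat_lit 0x40eb00004808001087c0050434001a1d6000208400000020013800801b000200120008090f83))))) 
(.nd (nat_lit 7) (.nd (nat_lit 12) 
(.lf (nat_lit 39765301) (dlOf (nat_lit 1) (nat_lit 0xc00291f3201))) 
(.lf (nat_lit 8312117) (dlOf (nat_lit 1) (nat_lit 0x400200020008519902)))) (.nd (nat_lit 10) 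
(.lf (nat_lit 8307125) (dlOf (nat_lit 1) (nat_lit 0x400200020008511002))) 
(.lf (nat_lit 8308149) (dlOf (nat_lit 1) (nat_lit 0x400200020008513602))))))))) (.nd (nat_lit 6) 
(.nd (nat_lit 18) (.nd (nat_lit 20) (.nd (nat_lit 26) (.nd (nat_lit 8) (.nd (nat_lit 12) 
(.nd (nat_lit 23) 
(.lf (nat_lit 6039978045) (dlOf (nat_lit 1) (nat_lit 0x180080008002000200080a0e03))) 
(.lf (nat_lit 25346109) (dlOf (nat_lit 1) (nat_lit 0x820008bf0b81)))) 
(.lf (nat_lit 3892498493) (dlOf (nat_lit 2) (nat_lit 0x1811c0004a040004004000c0018157d02)))) 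
(.nd (nat_lit 7) (.lf (nat_lit 805489981) (dlOf (nat_lit 1) (nat_lit 0x20018116901))) 
(.nd (nat_lit 9) (.lf (nat_lit 2277821) (dlOf (nat_lit 1) (nat_lit 0x20018150881))) 
(.lf (nat_lit 3221412797) (dlOf (nat_lit 4) (nat_lit 0x1408e0021102003c0470010101002b02300000008033000800100020004000811be03)))))) 
(.nd (nat_lit 10) (.nd (nat_lit 27) (.nd (nat_lit 7) 
(.lf (nat_lit 1409990717) (dlOf (nat_lit 1) (nat_lit 0x120008002c002006a00080c1403))) 
(.lf (nat_lit 5436000957) (dlOf (nat_lit 2) (nat_lit 0x40000000b018095780)))) (.nd (nat_lit 21) 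
(.lf (nat_lit 4228563005) (dlOf (nat_lit 2) (nat_lit 0x4e04000090160001941000400080034002000a00080f1403))) 
(.lf (nat_lit 472563773) (dlOf (nat_lit 2) (nat_lit 0x103a8006f40800500080010002000200089c0603))))) 
(.nd (nat_lit 7) (.nd (nat_lit 8) 
(.lf (nat_lit 3020084285) (dlOf (nat_lit 1) (nat_lit 0x20028129281))) 
(.lf (nat_lit 1543687485) (dlOf (nat_lit 1) (nat_lit 0x20008001000200100008146903)))) 
(.nd (nat_lit 8) (.lf (nat_lit 6509743805) (dlOf (nat_lit 1) (nat_lit 0x20008147281))) 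
(.lf (nat_lit 3959605181) (dlOf (nat_lit 2) (nat_lit 0x4e03e00011018114380))))))) (.nd (nat_lit 19) 
(.nd (nat_lit 21) (.nd (nat_lit 23) (.nd (nat_lit 26) 
(.lf (nat_lit 3490889789) (dlOf (nat_lit 2) (nat_lit 0x20c00003a818030d00))) 
(.lf (nat_lit 2752692285) (dlOf (nat_lit 2) (nat_lit 0x20b20003a818030d00)))) 
(.lf (nat_lit 43171901) (dlOf (nat_lit 2) (nat_lit 0x6d4ae00de10192a0000)))) (.nd (nat_lit 8) 
(.lf (nat_lit 20106813) (dlOf (nat_lit 1) (nat_lit 0x200189d7181))) 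
(.lf (nat_lit 28492093) (dlOf (nat_lit 1) (nat_lit 0x8008000400200020008da0703))))) 
(.nd (nat_lit 7) (.nd (nat_lit 8) 
(.lf (nat_lit 10141757) (dlOf (nat_lit 2) (nat_lit 0x580000000e8185b0700))) 
(.lf (nat_lit 20633405) (dlOf (nat_lit 1) (nat_lit 0x180080004002000200089da103)))) 
(.nd (nat_lit 8) (.nd (nat_lit 9) 
(.lf (nat_lit 8049853) (dlOf (nat_lit 1) (nat_lit 0x30008000800200080008519503))) 
(.lf (nat_lit 8049341) (dlOf (nat_lit 1) (nat_lit 0x8008000400200020008518c83)))) 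
(.lf (nat_lit 8045501) (dlOf (nat_lit 1) (nat_lit 0x20008512781))))))) (.nd (nat_lit 21) 
(.nd (nat_lit 9) (.nd (nat_lit 20) (.nd (nat_lit 12) (.nd (nat_lit 26) 
(.lf (nat_lit 3494297661) (dlOf (nat_lit 1) (nat_lit 0x1c00281f1601))) 
(.lf (nat_lit 2756100157) (dlOf (nat_lit 1) (nat_lit 0x1c00281f1601)))) 
(.lf (nat_lit 8835133) (dlOf (nat_lit 1) (nat_lit 0x180018517d01)))) (.nd (nat_lit 7) 
(.lf (nat_lit 9879613) (dlOf (nat_lit 1) (nat_lit 0x8008004000200180008591683))) 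
(.lf (nat_lit 5773377725) (dlOf (nat_lit 1) (nat_lit 0x200280c1701))))) (.nd (nat_lit 10) 
(.nd (nat_lit 26) (.lf (nat_lit 537313853) (dlOf (nat_lit 1) (nat_lit 0x4800200180008091082))) 
(.lf (nat_lit 1409729085) (dlOf (nat_lit 1) (nat_lit 0x4800200180008091082)))) 
(.lf (nat_lit 8832573) (dlOf (nat_lit 1) (nat_lit 0xa0008003800200340008513783))))) 
(.nd (nat_lit 31) (.nd (nat_lit 7) (.nd (nat_lit 8) 
(.lf (nat_lit 15122493) (dlOf (nat_lit 1) (nat_lit 0x1800287c0901))) 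
(.lf (nat_lit 20371261) (dlOf (nat_lit 4) (nat_lit 0x228ec000840400594a20006a3c000118200035288000780800080080004002000200089da103)))) 
(.lf (nat_lit 3063997) (dlOf (nat_lit 1) (nat_lit 0x540028200381)))) (.nd (nat_lit 26) 
(.lf (nat_lit 3492200509) (dlOf (nat_lit 1) (nat_lit 0x180080008002000a00080b1603))) 
(.lf (nat_lit 2754003005) (dlOf (nat_lit 1) (nat_lit 0x180080008002000a00080b1603))))))) 
(.nd (nat_lit 8) (.nd (nat_lit 9) (.nd (nat_lit 10) (.nd (nat_lit 7) (.nd (nat_lit 18) 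
(.lf (nat_lit 4094345341) (dlOf (nat_lit 1) (nat_lit 0x600018043581))) 
(.lf (nat_lit 54968445) (dlOf (nat_lit 1) (nat_lit 0xc0029680c81)))) (.nd (nat_lit 18) 
(.lf (nat_lit 473612541) (dlOf (nat_lit 1) (nat_lit 0x40004000a0008f62902))) 
(.lf (nat_lit 1881063677) (dlOf (nat_lit 1) (nat_lit 0x60028de2901))))) (.nd (nat_lit 31) 
(.nd (nat_lit 19) (.lf (nat_lit 8574077) (dlOf (nat_lit 1) (nat_lit 0x8008000c00200020008519503))) 
(.lf (nat_lit 8049789) (dlOf (nat_lit 1) (nat_lit 0x400200020008519502)))) (.nd (nat_lit 27) 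
(.lf (nat_lit 2684540029) (dlOf (nat_lit 1) (nat_lit 0xc00280a9501))) 
(.lf (nat_lit 2281886845) (dlOf (nat_lit 1) (nat_lit 0x28008000c002000800080a9503)))))) 
(.nd (nat_lit 18) (.nd (nat_lit 19) (.nd (nat_lit 10) 
(.lf (nat_lit 5436000893) (dlOf (nat_lit 1) (nat_lit 0x800200160008095402))) 
(.lf (nat_lit 6375523965) (dlOf (nat_lit 2) (nat_lit 0x242a400360bf0001a828003980)))) 
(.nd (nat_lit 7) (.lf (nat_lit 61523581) (dlOf (nat_lit 2) (nat_lit 0xd409c0002d0200040009923981))) 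
(.lf (nat_lit 8046333) (dlOf (nat_lit 1) (nat_lit 0x20018513b81))))) (.nd (nat_lit 7) 
(.nd (nat_lit 19) 
(.lf (nat_lit 1476839037) (dlOf (nat_lit 20) (nat_lit 0x10600c000278100600060001340800200e80338018001e00900030000001302005d0030000960401ac07400c2034003e0150001201803000e801180680004704008803d003501a005b00a80244040000450800ca03d008301d004880d002dc05400b20200002205005b01e804580e80270068016e02a005101000010c2801000f4008406800ce00c00300000001002004180f40100074016603400770100000f02005100f4022807400cc0340049015003780800370018008800900310000000ec4000900300007004018c01800280000001b02002901e801280e800ac06800ec00c005c0000000d42804180300020000000340400b203d007a01d004800d0012004000033080002020000168100770060000000800b0008005800200040008203983))) 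
(.lf (nat_lit 1346291325) (dlOf (nat_lit 1) (nat_lit 0x800400020018e83982)))) 
(.lf (nat_lit 57068285) (dlOf (nat_lit 2) (nat_lit 0x36768000440801e80080060002008e0009795a83)))))) 
(.nd (nat_lit 7) (.nd (nat_lit 20) (.nd (nat_lit 23) (.nd (nat_lit 9) 
(.lf (nat_lit 1543686525) (dlOf (nat_lit 1) (nat_lit 0x5d000801b800201500008144e83))) 
(.lf (nat_lit 3892500349) (dlOf (nat_lit 1) (nat_lit 0x11b0008003000201ee000815a303)))) 
(.nd (nat_lit 18) (.lf (nat_lit 8574845) (dlOf (nat_lit 1) (nat_lit 0x40020002000851a302))) 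
(.lf (nat_lit 8836989) (dlOf (nat_lit 1) (nat_lit 0x40020002000851a302))))) (.nd (nat_lit 9) 
(.nd (nat_lit 12) (.lf (nat_lit 20105597) (dlOf (nat_lit 1) (nat_lit 0x4004000200089d4e82))) 
(.lf (nat_lit 8051069) (dlOf (nat_lit 1) (nat_lit 0x800800040020002000851af03)))) (.nd (nat_lit 18) 
(.lf (nat_lit 8050557) (dlOf (nat_lit 1) (nat_lit 0x3000800080020004000851a303))) 
(.lf (nat_lit 8312701) (dlOf (nat_lit 1) (nat_lit 0x40020002000851a302)))))) (.nd (nat_lit 19) 
(.nd (nat_lit 9) (.nd (nat_lit 12) (.nd (nat_lit 26) 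
(.lf (nat_lit 939704829) (dlOf (nat_lit 8) (nat_lit 0xce00580548024026400801600000002e8400ce005805500240264008015e0000002e0400a200000014808064802c02a8012008000400be00000014420045802c00180080004c04001200b0002401002b0058001080803580080060002000e0008157e03))) 
(.lf (nat_lit 4362256893) (dlOf (nat_lit 5) (nat_lit 0x3e00560006702020802b000330100eb0158001040807f80ac0007e04007c00200480008017e02)))) 
(.lf (nat_lit 20107773) (dlOf (nat_lit 1) (nat_lit 0x18004000a00089d8682)))) 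
(.lf (nat_lit 8831997) (dlOf (nat_lit 1) (nat_lit 0x20018512881)))) (.nd (nat_lit 9) 
(.nd (nat_lit 12) (.lf (nat_lit 37407229) (dlOf (nat_lit 1) (nat_lit 0x4e00090d4f81))) 
(.lf (nat_lit 8051197) (dlOf (nat_lit 1) (nat_lit 0x2000800080020006000851b283)))) 
(.nd (nat_lit 21) (.lf (nat_lit 38454269) (dlOf (nat_lit 1) (nat_lit 0x8008000400200020009132883))) 
(.lf (nat_lit 36357117) (dlOf (nat_lit 1) (nat_lit 0x20019072881))))))))))) (.nd (nat_lit 3) 
(.nd (nat_lit 5) (.nd (nat_lit 6) (.nd (nat_lit 18) (.nd (nat_lit 26) (.nd (nat_lit 19) 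
(.nd (nat_lit 21) (.nd (nat_lit 27) (.nd (nat_lit 7) 
(.lf (nat_lit 537116693) (dlOf (nat_lit 4) (nat_lit 0x8042001580200040240008d01001002a000000080060008000400200060008020483))) 
(.lf (nat_lit 5637391765) (dlOf (nat_lit 1) (nat_lit 0x200180d3601)))) (.nd (nat_lit 30) 
(.lf (nat_lit 939769877) (dlOf (nat_lit 2) (nat_lit 0x40098002003a001001c0006000002750200258008000c00200520008170883))) 
(.lf (nat_lit 2013511701) (dlOf (nat_lit 1) (nat_lit 0x4002000200080d0002))))) (.nd (nat_lit 7) 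
(.nd (nat_lit 9) (.nd (nat_lit 20) 
(.lf (nat_lit 14925845) (dlOf (nat_lit 1) (nat_lit 0x20028790081))) 
(.lf (nat_lit 32751637) (dlOf (nat_lit 1) (nat_lit 0x400400020008f10082)))) 
(.lf (nat_lit 41140757) (dlOf (nat_lit 1) (nat_lit 0x72800203f00009227d82)))) (.nd (nat_lit 8) 
(.lf (nat_lit 2343061) (dlOf (nat_lit 1) (nat_lit 0x18008000c00200020008150183))) 
(.lf (nat_lit 62112149) (dlOf (nat_lit 3) (nat_lit 0x14098009cd02000a192000b0260027281000880080104002000a0009956483)))))) 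
(.nd (nat_lit 20) (.nd (nat_lit 21) (.nd (nat_lit 22) 
(.lf (nat_lit 5772132373) (dlOf (nat_lit 1) (nat_lit 0x120018090001))) 
(.lf (nat_lit 4964373) (dlOf (nat_lit 1) (nat_lit 0x4004000400182e0482)))) (.nd (nat_lit 22) 
(.lf (nat_lit 19644437) (dlOf (nat_lit 1) (nat_lit 0x1800289d0001))) 
(.lf (nat_lit 15450133) (dlOf (nat_lit 9) (nat_lit 0x44ac0002a3a80018fae000a7ac00063af80039ccc0003418002d2b000188ea000c3eb80059eb00030ebe001a7330000c8600044ac0002a3a80014fae00087ac00063af80029ccc000301800112b000128ea00053eb80029eb0002cebe000c7330000b8600044ac000323a80018fae000a7ac00063af80039ccc000281800052b000028ea00063eb80031eb00018ebe0004733000098600013eb00000408008a55c005cfac00207ab00123990000002000200080004002000200087f0303))))) 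
(.nd (nat_lit 9) (.nd (nat_lit 21) 
(.lf (nat_lit 1818645) (dlOf (nat_lit 3) (nat_lit 0x20b50000c40800285a80006004000c00400180018140482))) 
(.lf (nat_lit 3915797) (dlOf (nat_lit 1) (nat_lit 0x500008250a01)))) (.nd (nat_lit 7) 
(.lf (nat_lit 8117013) (dlOf (nat_lit 1) (nat_lit 0x2000851bb01))) 
(.lf (nat_lit 20696725) (dlOf (nat_lit 1) (nat_lit 0x180080010002000a00089d7203))))))) 
(.nd (nat_lit 27) (.nd (nat_lit 7) (.nd (nat_lit 8) 
(.lf (nat_lit 2751710229) (dlOf (nat_lit 1) (nat_lit 0x20008002881))) (.nd (nat_lit 11) 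
(.lf (nat_lit 2752758037) (dlOf (nat_lit 1) (nat_lit 0x20018047e01))) 
(.lf (nat_lit 3557021973) (dlOf (nat_lit 10) (nat_lit 0x680e0000ba04003c0700005c0200300380002881001c01c0001400800780e0000980400240700004a0200140380002401006501c0000f40800f80e0000000400200040052001812aa82))))) 
(.nd (nat_lit 8) (.nd (nat_lit 21) 
(.lf (nat_lit 2483273877) (dlOf (nat_lit 1) (nat_lit 0x80028090181))) 
(.lf (nat_lit 2753806485) (dlOf (nat_lit 7) (nat_lit 0x170574000a40400842ba0003c0200ae15d006a0a10000d81000405640003c0400100000001c0200b218800440a980000010014000800c4002001c0008090183)))) 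
(.lf (nat_lit 2483274133) (dlOf (nat_lit 1) (nat_lit 0x100028090781))))) (.nd (nat_lit 31) 
(.nd (nat_lit 7) (.nd (nat_lit 28) 
(.lf (nat_lit 1812185109) (dlOf (nat_lit 2) (nat_lit 0x40098002003a001001c00060000010fc200258008000c00200520008170883))) 
(.lf (nat_lit 470007829) (dlOf (nat_lit 3) (nat_lit 0x41cd0009d01000b0e68004300800300080008002001c0008020483)))) 
(.lf (nat_lit 474202517) (dlOf (nat_lit 1) (nat_lit 0x5800290e1001)))) (.nd (nat_lit 7) 
(.nd (nat_lit 30) (.lf (nat_lit 2617491477) (dlOf (nat_lit 1) (nat_lit 0x200080c0581))) 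
(.lf (nat_lit 3691233301) (dlOf (nat_lit 1) (nat_lit 0x80080004002000200080c0403)))) 
(.lf (nat_lit 2349056149) (dlOf (nat_lit 1) (nat_lit 0x80028090181))))))) (.nd (nat_lit 26) 
(.nd (nat_lit 20) (.nd (nat_lit 27) (.nd (nat_lit 21) (.nd (nat_lit 9) (.nd (nat_lit 11) 
(.lf (nat_lit 5637652501) (dlOf (nat_lit 1) (nat_lit 0x20028140101))) 
(.lf (nat_lit 8902677) (dlOf (nat_lit 1) (nat_lit 0x1800800080020002000851a603)))) 
(.lf (nat_lit 50840085) (dlOf (nat_lit 1) (nat_lit 0x4004000400094d8702)))) (.nd (nat_lit 10) 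
(.lf (nat_lit 19382293) (dlOf (nat_lit 1) (nat_lit 0xc00400020018990a02))) 
(.lf (nat_lit 1344783381) (dlOf (nat_lit 1) (nat_lit 0x1c00400060008982882))))) (.nd (nat_lit 7) 
(.nd (nat_lit 9) (.lf (nat_lit 2819080213) (dlOf (nat_lit 1) (nat_lit 0x80008190401))) 
(.lf (nat_lit 134726165) (dlOf (nat_lit 3) (nat_lit 0x400820000502004e04100000818090d80)))) 
(.lf (nat_lit 134725781) (dlOf (nat_lit 9) (nat_lit 0x13d01d805000d8000ac0801b00760005502028004a00bb023000148100180128000780404dc094017004600b60150000d81808480ec02b006c0001104002203b0000801009202d010d80000000008012800200100008090182))))) 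
(.nd (nat_lit 21) (.nd (nat_lit 19) (.nd (nat_lit 24) 
(.lf (nat_lit 9945109) (dlOf (nat_lit 1) (nat_lit 0x20028590201))) 
(.lf (nat_lit 26722325) (dlOf (nat_lit 2) (nat_lit 0xcc1e000f1018c60480)))) 
(.lf (nat_lit 14663701) (dlOf (nat_lit 2) (nat_lit 0x197d4045c356001ea0400020018770081)))) 
(.nd (nat_lit 7) 
(.lf (nat_lit 3653653) (dlOf (nat_lit 5) (nat_lit 0x17b3e0009d42000fa820001ed28001f67c0017a84001f4060005da90008ecf80047508003e60c000fb520009da50007ecf8003f508003e410000800200020008210802))) 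
(.lf (nat_lit 12042645) (dlOf (nat_lit 1) (nat_lit 0x1800286c0781)))))) (.nd (nat_lit 27) 
(.nd (nat_lit 7) (.nd (nat_lit 19) (.nd (nat_lit 28) 
(.lf (nat_lit 4362584085) (dlOf (nat_lit 1) (nat_lit 0x40028090001))) 
(.lf (nat_lit 6241632277) (dlOf (nat_lit 1) (nat_lit 0x20028140101)))) 
(.lf (nat_lit 68141077) (dlOf (nat_lit 2) (nat_lit 0x53c252001ea0200020008400081)))) 
(.lf (nat_lit 4362584213) (dlOf (nat_lit 1) (nat_lit 0x4002000a0008090182)))) (.nd (nat_lit 7) 
(.nd (nat_lit 9) (.nd (nat_lit 29) 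
(.lf (nat_lit 201834517) (dlOf (nat_lit 1) (nat_lit 0x70008001000200200008090003))) 
(.lf (nat_lit 738705429) (dlOf (nat_lit 2) (nat_lit 0x4035000120180e0280)))) 
(.lf (nat_lit 201835029) (dlOf (nat_lit 2) (nat_lit 0x3a0410000e018090d80)))) (.nd (nat_lit 28) 
(.lf (nat_lit 201834645) (dlOf (nat_lit 9) (nat_lit 0x13d01d805000d8000ac0801b00760005502028004a00bb023000148100180128000780404dc094017004600b60150000d81808480ec02b006c0001104002203b0000801009202d810d80000000008012800200100008090182))) 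
(.lf (nat_lit 4228366485) (dlOf (nat_lit 1) (nat_lit 0x4002000a0008090182)))))))) (.nd (nat_lit 8) 
(.nd (nat_lit 28) (.nd (nat_lit 19) (.nd (nat_lit 21) (.nd (nat_lit 7) (.nd (nat_lit 9) 
(.lf (nat_lit 1812185173) (dlOf (nat_lit 1) (nat_lit 0xe0028171081))) 
(.lf (nat_lit 1610860117) (dlOf (nat_lit 1) (nat_lit 0x400200020008093882)))) 
(.lf (nat_lit 6510067925) (dlOf (nat_lit 1) (nat_lit 0x4002000200081a5c82)))) (.nd (nat_lit 7) 
(.nd (nat_lit 20) (.lf (nat_lit 19120213) (dlOf (nat_lit 2) (nat_lit 0xc6fd00011018970300))) 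
(.lf (nat_lit 24363093) (dlOf (nat_lit 1) (nat_lit 0x400200020008b91082)))) 
(.lf (nat_lit 2343125) (dlOf (nat_lit 1) (nat_lit 0x20028150481))))) (.nd (nat_lit 9) 
(.nd (nat_lit 18) (.nd (nat_lit 20) 
(.lf (nat_lit 9158741) (dlOf (nat_lit 1) (nat_lit 0x630008033400202260008521783))) 
(.lf (nat_lit 45858901) (dlOf (nat_lit 1) (nat_lit 0xe0019360801)))) 
(.lf (nat_lit 13615189) (dlOf (nat_lit 2) (nat_lit 0x40000001c02000a0028730d81)))) (.nd (nat_lit 7) 
(.lf (nat_lit 51366485) (dlOf (nat_lit 1) (nat_lit 0x50002001a0009515302))) 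
(.lf (nat_lit 19651285) (dlOf (nat_lit 1) (nat_lit 0x4002000200089db982)))))) (.nd (nat_lit 26) 
(.nd (nat_lit 27) (.nd (nat_lit 9) (.nd (nat_lit 18) 
(.lf (nat_lit 4563648597) (dlOf (nat_lit 2) (nat_lit 0xe080d003a003e0001504000400180b0701))) 
(.lf (nat_lit 3494363221) (dlOf (nat_lit 2) (nat_lit 0x50108001803c0003d04000a0028211981)))) 
(.lf (nat_lit 1881393749) (dlOf (nat_lit 1) (nat_lit 0x80008f05301)))) (.nd (nat_lit 19) 
(.nd (nat_lit 29) 
(.lf (nat_lit 4697866325) (dlOf (nat_lit 2) (nat_lit 0xe080d003a003e0001504000400180b0701))) 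
(.lf (nat_lit 939769941) (dlOf (nat_lit 1) (nat_lit 0xe0028171081)))) 
(.lf (nat_lit 5773181013) (dlOf (nat_lit 1) (nat_lit 0x58008005c002001400080b0703))))) 
(.nd (nat_lit 30) (.nd (nat_lit 7) 
(.lf (nat_lit 1009238101) (dlOf (nat_lit 2) (nat_lit 0x2075000088190a0800))) (.nd (nat_lit 10) 
(.lf (nat_lit 3020144853) (dlOf (nat_lit 1) (nat_lit 0x1700018130501))) 
(.lf (nat_lit 5167629525) (dlOf (nat_lit 1) (nat_lit 0x80080004002000200080d2d83))))) 
(.nd (nat_lit 12) (.nd (nat_lit 18) 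
(.lf (nat_lit 6377160789) (dlOf (nat_lit 1) (nat_lit 0x58008005c002001400080b0703))) 
(.lf (nat_lit 4095197269) (dlOf (nat_lit 1) (nat_lit 0x400008070701)))) 
(.lf (nat_lit 3557019733) (dlOf (nat_lit 1) (nat_lit 0x20018127d81))))))) (.nd (nat_lit 7) 
(.nd (nat_lit 29) (.nd (nat_lit 10) (.nd (nat_lit 12) (.nd (nat_lit 19) 
(.lf (nat_lit 4362584405) (dlOf (nat_lit 2) (nat_lit 0x71008812f00000000008000c00200020008090682))) 
(.lf (nat_lit 2081109) (dlOf (nat_lit 2) (nat_lit 0xdcaa600005018150680)))) 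
(.lf (nat_lit 8114517) (dlOf (nat_lit 1) (nat_lit 0x1a0028518381)))) (.nd (nat_lit 18) 
(.lf (nat_lit 5773706581) (dlOf (nat_lit 1) (nat_lit 0x80080004002000200080e3383))) 
(.lf (nat_lit 57656661) (dlOf (nat_lit 1) (nat_lit 0x240019793381))))) (.nd (nat_lit 26) 
(.nd (nat_lit 28) (.lf (nat_lit 3758342485) (dlOf (nat_lit 1) (nat_lit 0x20018130881))) 
(.lf (nat_lit 805552469) (dlOf (nat_lit 7) (nat_lit 0x1804800080140006904002201200020050001a0100008048000ca040040024000400a0002202000d0090001080800200440004804004400400940008124d02)))) 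
(.nd (nat_lit 10) (.nd (nat_lit 18) 
(.lf (nat_lit 1677967701) (dlOf (nat_lit 12) (nat_lit 0x1f004800780140006904006a012001b0050001a01002e804800700140006704006a01200230050001981000d80280008a0400d40240004402006801200021010035009000e0028000800800e4024003600a0001f8200030050000f4080010044000480400dc004004e0008124e02))) 
(.lf (nat_lit 4228366677) (dlOf (nat_lit 2) (nat_lit 0x71008012f00000000008000c00200020008090682)))) 
(.lf (nat_lit 4093887829) (dlOf (nat_lit 1) (nat_lit 0x8008000400200020008003383)))))) 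
(.nd (nat_lit 11) (.nd (nat_lit 10) (.nd (nat_lit 19) 
(.lf (nat_lit 1543750101) (dlOf (nat_lit 2) (nat_lit 0x1a0120022805c0000008003400400120008157102))) 
(.lf (nat_lit 5772132821) (dlOf (nat_lit 1) (nat_lit 0x400200020008091182)))) (.nd (nat_lit 12) 
(.lf (nat_lit 43501013) (dlOf (nat_lit 1) (nat_lit 0x80080004002000200092a3603))) 
(.lf (nat_lit 8377813) (dlOf (nat_lit 2) (nat_lit 0xc995000048040014004000e0018519b02))))) 
(.nd (nat_lit 19) (.nd (nat_lit 9) 
(.lf (nat_lit 61065685) (dlOf (nat_lit 1) (nat_lit 0x4004000200198c4e82))) 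
(.lf (nat_lit 2818825173) (dlOf (nat_lit 6) (nat_lit 0x2501b0014440800680d80098e04014c06c004b202001a0360025501000401b0012a408000800800740020002000812bf03)))) 
(.nd (nat_lit 10) (.lf (nat_lit 37734869) (dlOf (nat_lit 1) (nat_lit 0x8002000200090d4e82))) 
(.lf (nat_lit 19647957) (dlOf (nat_lit 1) (nat_lit 0x800289d6d01))))))))) (.nd (nat_lit 18) 
(.nd (nat_lit 28) (.nd (nat_lit 10) (.nd (nat_lit 23) (.nd (nat_lit 6) (.nd (nat_lit 30) 
(.nd (nat_lit 8) 
(.lf (nat_lit 537116725) (dlOf (nat_lit 7) (nat_lit 0x1005f0005c01000402f8002dc08008017c0016604010c0be000b102002405f0000701000402c800028080108008006800200480008020603))) 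
(.lf (nat_lit 4899195701) (dlOf (nat_lit 1) (nat_lit 0x8008000400201cc00080d5c03)))) 
(.nd (nat_lit 27) 
(.lf (nat_lit 3825451061) (dlOf (nat_lit 7) (nat_lit 0x218090006804600173040062024000b90100500120005c4080188090002e00400140160000e02001202400dd005002e80200348000000000800280018160601))) 
(.lf (nat_lit 1812185141) (dlOf (nat_lit 2) (nat_lit 0x401d000e2818170d00))))) (.nd (nat_lit 7) 
(.lf (nat_lit 8116597) (dlOf (nat_lit 1) (nat_lit 0x2001851ad81))) (.nd (nat_lit 8) 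
(.lf (nat_lit 4496539893) (dlOf (nat_lit 1) (nat_lit 0x4004000200080e0a82))) 
(.lf (nat_lit 36422645) (dlOf (nat_lit 1) (nat_lit 0x40019072881)))))) (.nd (nat_lit 6) 
(.nd (nat_lit 7) (.nd (nat_lit 20) 
(.lf (nat_lit 12828725) (dlOf (nat_lit 1) (nat_lit 0x400086e0a81))) (.nd (nat_lit 21) 
(.lf (nat_lit 26460213) (dlOf (nat_lit 1) (nat_lit 0x10008000400200020008c50483))) 
(.lf (nat_lit 11780149) (dlOf (nat_lit 1) (nat_lit 0xf4800800a8002033800086c0003))))) 
(.lf (nat_lit 9683381) (dlOf (nat_lit 1) (nat_lit 0x400200020008577782)))) (.nd (nat_lit 20) 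
(.lf (nat_lit 44286069) (dlOf (nat_lit 1) (nat_lit 0x200292e0d81))) 
(.lf (nat_lit 9683061) (dlOf (nat_lit 1) (nat_lit 0x40028570b01)))))) (.nd (nat_lit 9) 
(.nd (nat_lit 7) (.nd (nat_lit 8) 
(.lf (nat_lit 48481333) (dlOf (nat_lit 1) (nat_lit 0x400200060009402882))) 
(.lf (nat_lit 67884341) (dlOf (nat_lit 1) (nat_lit 0x20008339901)))) (.nd (nat_lit 20) 
(.nd (nat_lit 26) (.lf (nat_lit 249013) (dlOf (nat_lit 1) (nat_lit 0x400400020008006282))) 
(.lf (nat_lit 6509808821) (dlOf (nat_lit 3) (nat_lit 0xc04c0006802002802600000018146280)))) 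
(.lf (nat_lit 2754858165) (dlOf (nat_lit 2) (nat_lit 0x760400000a0180f6280))))) (.nd (nat_lit 6) 
(.nd (nat_lit 7) (.nd (nat_lit 11) 
(.lf (nat_lit 19650357) (dlOf (nat_lit 1) (nat_lit 0x200289da101))) 
(.lf (nat_lit 8113973) (dlOf (nat_lit 1) (nat_lit 0x20008517481)))) 
(.lf (nat_lit 19650229) (dlOf (nat_lit 1) (nat_lit 0x80080004002000200089da003)))) (.nd (nat_lit 8) 
(.lf (nat_lit 8115829) (dlOf (nat_lit 1) (nat_lit 0x20008519d01))) 
(.lf (nat_lit 2818822005) (dlOf (nat_lit 1) (nat_lit 0x20008127781))))))) (.nd (nat_lit 27) 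
(.nd (nat_lit 30) (.nd (nat_lit 9) (.nd (nat_lit 7) 
(.lf (nat_lit 4563648565) (dlOf (nat_lit 2) (nat_lit 0x14c024001b302000400180b0481))) 
(.lf (nat_lit 3020144821) (dlOf (nat_lit 1) (nat_lit 0x400200020008130302)))) (.nd (nat_lit 6) 
(.lf (nat_lit 5100522165) (dlOf (nat_lit 1) (nat_lit 0xe200080d5701))) 
(.lf (nat_lit 872662005) (dlOf (nat_lit 1) (nat_lit 0x20018092881))))) (.nd (nat_lit 7) 
(.nd (nat_lit 26) 
(.lf (nat_lit 1342423093) (dlOf (nat_lit 2) (nat_lit 0x850aa003b8544000c26e001c0f4000c04a000338280008008003800200920008020603))) 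
(.lf (nat_lit 1409531957) (dlOf (nat_lit 7) (nat_lit 0x1005f0007401000402f80039c08008017c001c604010c0be000e102002405f0000701000402c800028080108008006800200480008020603)))) 
(.nd (nat_lit 6) (.lf (nat_lit 3490434229) (dlOf (nat_lit 1) (nat_lit 0x20028006281))) 
(.lf (nat_lit 3493054197) (dlOf (nat_lit 1) (nat_lit 0x8000080f3b81)))))) (.nd (nat_lit 29) 
(.nd (nat_lit 19) (.nd (nat_lit 26) 
(.lf (nat_lit 4697866293) (dlOf (nat_lit 2) (nat_lit 0x14c024001a302000400180b0481))) 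
(.lf (nat_lit 470007861) (dlOf (nat_lit 2) (nat_lit 0x850aa003b8544000c26e001c0f4000c04a000370280008008003800200920008020603)))) 
(.lf (nat_lit 5773180981) (dlOf (nat_lit 1) (nat_lit 0x8008002c002000600080b0483)))) 
(.nd (nat_lit 32) (.nd (nat_lit 31) 
(.lf (nat_lit 939769909) (dlOf (nat_lit 2) (nat_lit 0x401d000e2818170d00))) 
(.lf (nat_lit 3087253557) (dlOf (nat_lit 7) (nat_lit 0x218090006804600173040062024000b90100500120005c4080188090002e00400140160000e02001202400dd005002e80200348000000000800280018160601)))) 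
(.nd (nat_lit 9) 
(.lf (nat_lit 6377160757) (dlOf (nat_lit 1) (nat_lit 0x8008002c002000600080b0483))) 
(.lf (nat_lit 5234738741) (dlOf (nat_lit 1) (nat_lit 0x4004000200080d3782)))))))) (.nd (nat_lit 28) 
(.nd (nat_lit 24) (.nd (nat_lit 29) (.nd (nat_lit 20) (.nd (nat_lit 7) (.nd (nat_lit 19) 
(.lf (nat_lit 2605109) (dlOf (nat_lit 1) (nat_lit 0x20008000800200100008170a83))) 
(.lf (nat_lit 68141109) (dlOf (nat_lit 2) (nat_lit 0x4902800055008024000800d0002000c0008400483)))) 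
(.lf (nat_lit 8901557) (dlOf (nat_lit 1) (nat_lit 0x20028519201)))) (.nd (nat_lit 6) 
(.nd (nat_lit 19) 
(.lf (nat_lit 9945141) (dlOf (nat_lit 6) (nat_lit 0x80eb000087500014394000c178006098400030bc00304008006072800202f000b2a0400181ca00040bc002ca4100020758002439400b2804001e0028591001))) 
(.lf (nat_lit 12566581) (dlOf (nat_lit 1) (nat_lit 0x200286d0a81)))) (.nd (nat_lit 7) 
(.lf (nat_lit 3653749) (dlOf (nat_lit 1) (nat_lit 0x2ae0008211881))) 
(.lf (nat_lit 1556725) (dlOf (nat_lit 1) (nat_lit 0x9600280f6f01)))))) (.nd (nat_lit 27) 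
(.nd (nat_lit 22) (.nd (nat_lit 26) 
(.lf (nat_lit 1611120693) (dlOf (nat_lit 5) (nat_lit 0x34041000a020000100a8005405200a7b08002c04100050150029e81000a8104001c080009c02a005348300180208029a00801380080028002002000080e1003))) 
(.lf (nat_lit 1678229557) (dlOf (nat_lit 8) (nat_lit 0x1c05000014010023027801080000004608000809e001200000011020005027800280e00003808001c0a20001502007205100220280000501000601440000804002000200a000081b0a82)))) 
(.lf (nat_lit 2756165685) (dlOf (nat_lit 1) (nat_lit 0x400200020008211102)))) (.nd (nat_lit 6) 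
(.nd (nat_lit 8) 
(.lf (nat_lit 738705461) (dlOf (nat_lit 5) (nat_lit 0x34041000a020000100a80054052004e608002c04100050150013941000a8104001c080009c02a0026a03001802080134c0801380080028002002000080e1003))) 
(.lf (nat_lit 2886189365) (dlOf (nat_lit 2) (nat_lit 0x1a03e0025c818188400)))) 
(.lf (nat_lit 3892822261) (dlOf (nat_lit 2) (nat_lit 0xe00c800d8060000f208000800400040008280602)))))) 
(.nd (nat_lit 6) (.nd (nat_lit 21) (.nd (nat_lit 19) 
(.lf (nat_lit 30916661) (dlOf (nat_lit 2) (nat_lit 0xaa6800000018e50c00))) 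
(.lf (nat_lit 17809461) (dlOf (nat_lit 2) (nat_lit 0x778d4002dbec000000288f1000)))) 
(.nd (nat_lit 8) (.lf (nat_lit 61850677) (dlOf (nat_lit 1) (nat_lit 0x180080014002001e0009922883))) 
(.lf (nat_lit 19909429) (dlOf (nat_lit 1) (nat_lit 0x4002000200089d5c02))))) (.nd (nat_lit 7) 
(.nd (nat_lit 25) 
(.lf (nat_lit 21479541) (dlOf (nat_lit 3) (nat_lit 0x40a780081c08001a5880016804003000200140008a40d82))) 
(.lf (nat_lit 55033973) (dlOf (nat_lit 5) (nat_lit 0x225380021254002d8080010974000060200084ba000028100022620000040802a8008003400200180009690d83)))) 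
(.lf (nat_lit 57658101) (dlOf (nat_lit 1) (nat_lit 0x20029795a01)))))) (.nd (nat_lit 26) 
(.nd (nat_lit 31) (.nd (nat_lit 6) (.nd (nat_lit 8) 
(.lf (nat_lit 1343733813) (dlOf (nat_lit 1) (nat_lit 0x8004000a0008350882))) 
(.lf (nat_lit 1342685493) (dlOf (nat_lit 1) (nat_lit 0x200280c0581)))) 
(.lf (nat_lit 1881653365) (dlOf (nat_lit 5) (nat_lit 0x140ac000a0530007028000401340000c10000c0ac00060530006028000301340000a1000280ac0014053000802800050134000061000140ac000a0530009028000581340000210002800400060018fa0d82)))) 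
(.nd (nat_lit 30) (.nd (nat_lit 27) 
(.lf (nat_lit 2416427061) (dlOf (nat_lit 5) (nat_lit 0x6804800240220008010000600780018034003fa14135402409a601100f00080266003c134401a001fc0a07c2012040600881fe003c10d401a001fb08097401204ae008805c0040129001e096000d000fd0581d0a80))) 
(.lf (nat_lit 2550644789) (dlOf (nat_lit 5) (nat_lit 0x68048002402200080100006007800180340042414135402409a601100f00080266003c134401a002110a07c2012040600881fe003c10d401a0021008097401204ae008805c0040129001e096000d001078581d0a80)))) 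
(.nd (nat_lit 6) (.lf (nat_lit 3494363189) (dlOf (nat_lit 1) (nat_lit 0x400200020008211102))) 
(.lf (nat_lit 3492796789) (dlOf (nat_lit 1) (nat_lit 0x80080004002000200080fad83)))))) 
(.nd (nat_lit 21) (.nd (nat_lit 27) (.nd (nat_lit 6) 
(.lf (nat_lit 3557277749) (dlOf (nat_lit 4) (nat_lit 0x50308000d00805e80e000380440002d04014e038000b0110000981000e00080060002004c0008190b03))) 
(.lf (nat_lit 872923253) (dlOf (nat_lit 1) (nat_lit 0x40008000800200060008122903)))) 
(.nd (nat_lit 7) (.nd (nat_lit 8) 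
(.lf (nat_lit 1007140917) (dlOf (nat_lit 1) (nat_lit 0x20008000c002000400081c0783))) 
(.lf (nat_lit 470270261) (dlOf (nat_lit 1) (nat_lit 0x200280c0581)))) 
(.lf (nat_lit 1007665333) (dlOf (nat_lit 1) (nat_lit 0x400186b0481))))) (.nd (nat_lit 6) 
(.nd (nat_lit 19) (.lf (nat_lit 1009238069) (dlOf (nat_lit 1) (nat_lit 0x4002000a00090a0482))) 
(.lf (nat_lit 473940021) (dlOf (nat_lit 2) (nat_lit 0x420ac0012833c002412c00040830000b048fc0480)))) 
(.lf (nat_lit 1009238261) (dlOf (nat_lit 1) (nat_lit 0x200190a2481))))))))) (.nd (nat_lit 5) 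
(.nd (nat_lit 18) (.nd (nat_lit 19) (.nd (nat_lit 27) (.nd (nat_lit 7) (.nd (nat_lit 6) 
(.nd (nat_lit 25) (.nd (nat_lit 8) 
(.lf (nat_lit 1342423069) (dlOf (nat_lit 3) (nat_lit 0x82a8005020200081cd000c5818020480))) 
(.lf (nat_lit 268684061) (dlOf (nat_lit 1) (nat_lit 0x400280e5c01)))) (.nd (nat_lit 20) 
(.lf (nat_lit 52674589) (dlOf (nat_lit 1) (nat_lit 0x40019560601))) 
(.lf (nat_lit 47431709) (dlOf (nat_lit 1) (nat_lit 0x8004000200093f0302))))) (.nd (nat_lit 8) 
(.lf (nat_lit 32751709) (dlOf (nat_lit 1) (nat_lit 0x400200020008f10882))) (.nd (nat_lit 10) 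
(.lf (nat_lit 1677967709) (dlOf (nat_lit 4) (nat_lit 0x1bc0140002e02002400a0001681006f005000060080088008000400200840008124e83))) 
(.lf (nat_lit 3489910109) (dlOf (nat_lit 1) (nat_lit 0x78008000800200020008006a83)))))) 
(.nd (nat_lit 25) (.nd (nat_lit 29) (.nd (nat_lit 10) 
(.lf (nat_lit 4440221) (dlOf (nat_lit 1) (nat_lit 0x40028290281))) 
(.lf (nat_lit 5368956061) (dlOf (nat_lit 1) (nat_lit 0x80018092b81)))) (.nd (nat_lit 26) 
(.lf (nat_lit 1610859677) (dlOf (nat_lit 1) (nat_lit 0x400400020008092b82))) 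
(.lf (nat_lit 872662173) (dlOf (nat_lit 3) (nat_lit 0x2037001088100090120007e40802e0008001000200020008092b83))))) 
(.nd (nat_lit 10) 
(.lf (nat_lit 62111901) (dlOf (nat_lit 1) (nat_lit 0x1c0008013400202380009951283))) 
(.nd (nat_lit 21) 
(.lf (nat_lit 42189981) (dlOf (nat_lit 2) (nat_lit 0x29484000880200260009242b81))) 
(.lf (nat_lit 35898525) (dlOf (nat_lit 1) (nat_lit 0x1800200020009012b82))))))) (.nd (nat_lit 26) 
(.nd (nat_lit 11) (.nd (nat_lit 28) (.nd (nat_lit 32) 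
(.lf (nat_lit 134463517) (dlOf (nat_lit 1) (nat_lit 0x400200020008030902))) 
(.lf (nat_lit 4429430813) (dlOf (nat_lit 1) (nat_lit 0x100080008002000400080b0a03)))) 
(.lf (nat_lit 939769885) (dlOf (nat_lit 7) (nat_lit 0x5080980274042016001c0011a03005401300030074017c0380023106014202600ae01100508084028403a01bc01c001180500a1013003700880284042011c01d00ab00e0008bc2804300980088044001601d00a000e0008b820014809800a8044005401d002a00e0007a0200598008001c002000c0008170903)))) 
(.nd (nat_lit 6) (.lf (nat_lit 6308481437) (dlOf (nat_lit 1) (nat_lit 0x4004000200080d4e82))) 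
(.lf (nat_lit 2818825309) (dlOf (nat_lit 11) (nat_lit 0x160360002881000801b0001400800480d80008c04001006c000450200040360002201000201b0001000800080d80007e04002406c0003d0200040360000a81000201b00000c08007000800a0002000c000812c003))))) 
(.nd (nat_lit 30) (.nd (nat_lit 7) (.nd (nat_lit 28) 
(.lf (nat_lit 201572381) (dlOf (nat_lit 1) (nat_lit 0x400200020008030902))) 
(.lf (nat_lit 470007837) (dlOf (nat_lit 3) (nat_lit 0x82a800a970200081cd0007d818020480)))) 
(.lf (nat_lit 5033411741) (dlOf (nat_lit 1) (nat_lit 0x460018092b81)))) (.nd (nat_lit 6) 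
(.nd (nat_lit 7) 
(.lf (nat_lit 1812185117) (dlOf (nat_lit 7) (nat_lit 0x5080980274042016001c0012603005401300030074017c0380024906014202600ae01100508084028403a01bc01c001240500a1013003700880284042011c01d00ab00e00091c2804300980088044001601d00a000e00091820014809800a8044005401d002a00e0007e8200598008001c002000c0008170903))) 
(.lf (nat_lit 5570283933) (dlOf (nat_lit 1) (nat_lit 0x4004000200080d4e82)))) 
(.lf (nat_lit 1543749981) (dlOf (nat_lit 4) (nat_lit 0x1600320082003001b0000000a0180038080013803200a00030003000800100000004c14002400c005a003000700080009418010000800ec00200240008154e83))))))) 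
(.nd (nat_lit 6) (.nd (nat_lit 20) (.nd (nat_lit 21) (.nd (nat_lit 26) 
(.lf (nat_lit 537640989) (dlOf (nat_lit 27) (nat_lit 0x140b4006e0570011e8201cb02e812a816809580ae04020520250019815a808800cc03e037e01c0020004015b8000004782802940ba0023a0205e005d034b02d01a7015c25140a4008204a001e020004580d80d6406601b60250382011000d007c0a64038048c012006e0008008cc7005a00cc00380100023204055405d030402d0182015c23f40a4011e040004b01b018580cc027c04a06a0022025b00e01050048004622c02940d600c4068020602e8131816809900ae10bc052026e019815f8088003803e035201c01400090022002009f80000022f1a04cc06b026a0340013017400640a4055803303a30000008b430014015c02b40660156000001160301f602e800e016802240ae03f403300550000008ac28007016800500ae0022604048406b010100000088c1002e81ac0042a0402000d6002140200980000010881006a0358008400802801480041c0400280d60020a02001c06b00104810082035800d80000040208054c0d60020002023a06b000ff01000602b805f0000003f4080abc0d60028052005b01980240000003e610027c0d6004c052000f78201880198000000803d00080a9c002001800080e0483)))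 
(.lf (nat_lit 1410056221) (dlOf (nat_lit 27) (nat_lit 0x140b4006e0570011e8201cb02e812a816809580ae04020520250019815a808800cc03e037e01c0020004015b8000004782802940ba0023a0205e005d034b02d01a7015c25140a4008204a001e020004580d80d6406601b60250382011000d007c0a64038048c012006e0008008cc7005a00cc00380100023204055405d030402d0182015c23f40a4011e040004b01b018580cc027c04a06a0022025b00e01050048004622c02940d600c4068020602e8131816809900ae10bc052026e019815f8088003803e035201c01400090022002009f80000022f1a04cc06b026a0340013017400640a4055803303a30000008b430014015c02b40660156000001160301f602e800e016802240ae03f403300550000008ac28007016800500ae0022604010006b0011201004c0000008840812101ac04040000021f0400ba06b0010881006a035800838080280148004180400280d60020a02001c06b00104010082035800d80000040208054c0d6001ff02023a06b000ff01000602b805f0000003f8080abc0d60028052005b01980240000003e410027c0d6004c052000f78201880198000000803d00080a9c002001800080e0483)))) 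
(.nd (nat_lit 23) (.nd (nat_lit 26) 
(.lf (nat_lit 1345044509) (dlOf (nat_lit 5) (nat_lit 0x2029a000407c0012302000f03e0009100800082f4002a404000417a000f202002200289d0601))) 
(.lf (nat_lit 1009500189) (dlOf (nat_lit 1) (nat_lit 0x2a00091b0601)))) 
(.lf (nat_lit 11255837) (dlOf (nat_lit 1) (nat_lit 0x40008680481))))) (.nd (nat_lit 21) 
(.nd (nat_lit 24) (.nd (nat_lit 26) 
(.lf (nat_lit 5773180957) (dlOf (nat_lit 1) (nat_lit 0x180080068002006800080b0103))) 
(.lf (nat_lit 6377160733) (dlOf (nat_lit 1) (nat_lit 0x180080068002006800080b0103)))) 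
(.lf (nat_lit 18595869) (dlOf (nat_lit 2) (nat_lit 0xa46f800400000170608005c00200220008950682)))) 
(.nd (nat_lit 24) 
(.lf (nat_lit 45858845) (dlOf (nat_lit 3) (nat_lit 0x12ede201995df0084ae880010c18006d77c0036ba2000410400020029360101))) 
(.lf (nat_lit 29081629) (dlOf (nat_lit 1) (nat_lit 0x20018dc0a01)))))) (.nd (nat_lit 8) 
(.nd (nat_lit 7) (.lf (nat_lit 473677917) (dlOf (nat_lit 2) (nat_lit 0x416700080018fa0080))) 
(.nd (nat_lit 9) (.lf (nat_lit 8115421) (dlOf (nat_lit 1) (nat_lit 0x400400020008519502))) 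
(.lf (nat_lit 20696797) (dlOf (nat_lit 1) (nat_lit 0x80080004002000200089d7383))))) 
(.nd (nat_lit 20) (.nd (nat_lit 21) 
(.lf (nat_lit 34325469) (dlOf (nat_lit 1) (nat_lit 0x180018fb2881))) 
(.lf (nat_lit 36422621) (dlOf (nat_lit 1) (nat_lit 0x20019072881)))) (.nd (nat_lit 7) 
(.lf (nat_lit 8116061) (dlOf (nat_lit 1) (nat_lit 0x2001851a301))) 
(.lf (nat_lit 35374045) (dlOf (nat_lit 1) (nat_lit 0x260019012881)))))))) (.nd (nat_lit 19) 
(.nd (nat_lit 23) (.nd (nat_lit 27) (.nd (nat_lit 6) (.nd (nat_lit 9) (.nd (nat_lit 20) 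
(.lf (nat_lit 55033885) (dlOf (nat_lit 1) (nat_lit 0x1f0008003800200300009690083))) 
(.lf (nat_lit 37208093) (dlOf (nat_lit 1) (nat_lit 0x8002000200090c0602)))) 
(.lf (nat_lit 4027040285) (dlOf (nat_lit 1) (nat_lit 0x10004000600181b0d82)))) (.nd (nat_lit 8) 
(.nd (nat_lit 26) 
(.lf (nat_lit 805814365) (dlOf (nat_lit 2) (nat_lit 0x102b0000840803380080008002002c00081b1203))) 
(.lf (nat_lit 1678229597) (dlOf (nat_lit 2) (nat_lit 0x102b00002c0803380080008002002c00081b1203)))) 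
(.nd (nat_lit 7) 
(.lf (nat_lit 4362584413) (dlOf (nat_lit 2) (nat_lit 0x2e800000000040044002003c0008090682))) 
(.lf (nat_lit 50840029) (dlOf (nat_lit 1) (nat_lit 0x200094d7c81)))))) (.nd (nat_lit 26) 
(.nd (nat_lit 28) (.nd (nat_lit 29) 
(.lf (nat_lit 134725661) (dlOf (nat_lit 1) (nat_lit 0x480080058002003e0008090003))) 
(.lf (nat_lit 2819080221) (dlOf (nat_lit 4) (nat_lit 0x50350000d00805e80d800380440002d04014e036000b0110000981000e00080060002004c0008190683)))) 
(.lf (nat_lit 2550644765) (dlOf (nat_lit 3) (nat_lit 0xc020000c00d003e802000400900020044001c020000400f0006006801f3c2800900080040002001200081d0a03)))) 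
(.nd (nat_lit 8) (.nd (nat_lit 21) 
(.lf (nat_lit 1007140893) (dlOf (nat_lit 1) (nat_lit 0x400081c0581))) 
(.lf (nat_lit 1009238045) (dlOf (nat_lit 4) (nat_lit 0x320890001f8100020448000f40800384cc00000040030002000a00090a0102)))) 
(.nd (nat_lit 6) (.lf (nat_lit 472369565) (dlOf (nat_lit 1) (nat_lit 0x1800400040008984e82))) 
(.lf (nat_lit 4228366685) (dlOf (nat_lit 2) (nat_lit 0x2e800000000040044002003c0008090682))))))) 
(.nd (nat_lit 21) (.nd (nat_lit 7) (.nd (nat_lit 20) 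
(.lf (nat_lit 13090845) (dlOf (nat_lit 4) (nat_lit 0xb31b0007186c0002c08003cc6c0001402001e636000b30d800014100020008000c002001200086f0583))) 
(.lf (nat_lit 9945117) (dlOf (nat_lit 1) (nat_lit 0xce0008590581)))) (.nd (nat_lit 6) 
(.lf (nat_lit 59229341) (dlOf (nat_lit 1) (nat_lit 0x1000197e2b81))) 
(.lf (nat_lit 8902109) (dlOf (nat_lit 1) (nat_lit 0x1000400080008519b02))))) (.nd (nat_lit 11) 
(.nd (nat_lit 22) (.lf (nat_lit 27770909) (dlOf (nat_lit 1) (nat_lit 0x10000400580008d20682))) 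
(.lf (nat_lit 48742429) (dlOf (nat_lit 2) (nat_lit 0x6698b0001f819420100)))) (.nd (nat_lit 6) 
(.lf (nat_lit 44550557) (dlOf (nat_lit 1) (nat_lit 0x48008002800200020009324e83))) 
(.lf (nat_lit 44550749) (dlOf (nat_lit 1) (nat_lit 0x800200020009325302))))))) (.nd (nat_lit 20) 
(.nd (nat_lit 6) (.nd (nat_lit 7) 
(.lf (nat_lit 3490693661) (dlOf (nat_lit 1) (nat_lit 0x20028017f01))) (.nd (nat_lit 9) 
(.lf (nat_lit 47169693) (dlOf (nat_lit 1) (nat_lit 0x2e000293b1281))) 
(.lf (nat_lit 6376376989) (dlOf (nat_lit 1) (nat_lit 0x20018095581))))) (.nd (nat_lit 8) 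
(.lf (nat_lit 472892509) (dlOf (nat_lit 1) (nat_lit 0x1ac0018b52901))) 
(.lf (nat_lit 3490693469) (dlOf (nat_lit 4) (nat_lit 0x384260022211000e1010000a018009884c005442200202020001303000710100009408006800800a800200160008014e83))))) 
(.nd (nat_lit 21) (.nd (nat_lit 22) (.nd (nat_lit 23) 
(.lf (nat_lit 69189661) (dlOf (nat_lit 1) (nat_lit 0x4004000400088c0102))) 
(.lf (nat_lit 27246621) (dlOf (nat_lit 1) (nat_lit 0x1be0028cc0681)))) (.nd (nat_lit 7) 
(.lf (nat_lit 23052317) (dlOf (nat_lit 1) (nat_lit 0x1000200040008b50482))) 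
(.lf (nat_lit 56607901) (dlOf (nat_lit 1) (nat_lit 0x1e00080060002004a0009732b83))))) 
(.nd (nat_lit 24) (.nd (nat_lit 6) 
(.lf (nat_lit 473939997) (dlOf (nat_lit 38) (nat_lit 0x17855c00c019c0005d040060157002f06700016c1001c855c00c819c02d20960002a83033c09d80e103640006c0807541b2000350203040d90001a01012906c8000cc08222055803cc2862db013b161609c82478334137c19802800cb03cd04b022d82340f3010a03a208400c7041830c01d401980e80c26073000188f100f0ab0210850c02ec276209e0cd03ba06587e602583f3410a0fb60830d6303a86ab81cc000602818042ac067414318f309d8c1904e4192819a03120cc02d906582ce025808b411a0b3a085025604183f301d41f880e60002f1a0cdc1560c3b09d86dd84e41adc19a0c1c096060f042827101d4136c0e60002e10096413b053a09c8000b4100100558002427200c00960001503023e09d802f84e40004808068c2720002302048c13b00ef09c8000881012004ec0884272000210401be13b0001001024109d80f984e40003c08076827600e01390000e8202ac09d808204e40003608092827600ae1390000d02026909d807f04e400030080c602ac100413b04f9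09c822d03340adc12c0640085023803a806d01cc0002e200a002ac1b6c13b035d09c81200334049412c0590085010803a803e01cc0002c2001382ac078413b00d30668000501811d055819342760472139027406680ee825802b810a012e07500bd03980004c400470558064427600ec139006106680110258000241407842ac2a2a13b040d09c81660334064012c026208d01b204281f881d4000222000602ac11e013b003909c80418334000201008e42760000f0221a013b008209c808f821407cc0ea0000e0817ec13b00006810df309d800384e400018082ec42760000b0206e013b009509c8000281000185740000004026800400ae0008fc0102))) 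
(.lf (nat_lit 12566621) (dlOf (nat_lit 2) (nat_lit 0x129140001402000200186d1201)))) 
(.nd (nat_lit 7) 
(.lf (nat_lit 20955165) (dlOf (nat_lit 1) (nat_lit 0x1700080004002002600089f0103))) 
(.lf (nat_lit 58706333) (dlOf (nat_lit 1) (nat_lit 0x200197e4e81))))))))) (.nd (nat_lit 6) 
(.nd (nat_lit 29) (.nd (nat_lit 21) (.nd (nat_lit 18) (.nd (nat_lit 24) (.nd (nat_lit 26) 
(.nd (nat_lit 20) (.lf (nat_lit 134463549) (dlOf (nat_lit 2) (nat_lit 0x3c031000a1818030d00))) 
(.lf (nat_lit 47431741) (dlOf (nat_lit 1) (nat_lit 0x200293f0781)))) (.nd (nat_lit 9) 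
(.lf (nat_lit 201572413) (dlOf (nat_lit 2) (nat_lit 0x3c031000a1818030d00))) 
(.lf (nat_lit 4764976701) (dlOf (nat_lit 2) (nat_lit 0x7601f00009818093780))))) (.nd (nat_lit 8) 
(.nd (nat_lit 19) (.lf (nat_lit 25411645) (dlOf (nat_lit 1) (nat_lit 0x8008001c00200040008c00d83))) 
(.lf (nat_lit 18595901) (dlOf (nat_lit 3) (nat_lit 0x148df0001301000746f800088080018008003c002001a0008950a03)))) 
(.lf (nat_lit 51102013) (dlOf (nat_lit 2) (nat_lit 0x2288e0007b02000c0019507c81))))) 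
(.nd (nat_lit 9) (.nd (nat_lit 19) (.nd (nat_lit 27) 
(.lf (nat_lit 2416427069) (dlOf (nat_lit 2) (nat_lit 0x2012000300880010034002420c000c002001200081d0c02))) 
(.lf (nat_lit 2550644797) (dlOf (nat_lit 2) (nat_lit 0x2012000300880010034002600c000c002001200081d0c02)))) 
(.lf (nat_lit 51363901) (dlOf (nat_lit 1) (nat_lit 0x400400020009510002)))) (.nd (nat_lit 26) 
(.lf (nat_lit 1342685757) (dlOf (nat_lit 2) (nat_lit 0x1891c000ac040014004001600080c1082))) 
(.lf (nat_lit 470270525) (dlOf (nat_lit 2) (nat_lit 0x1891c0009e040014004001600080c1082)))))) 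
(.nd (nat_lit 20) (.nd (nat_lit 7) (.nd (nat_lit 19) 
(.lf (nat_lit 2342973) (dlOf (nat_lit 1) (nat_lit 0x38008006400200020008150003))) 
(.lf (nat_lit 3492528189) (dlOf (nat_lit 2) (nat_lit 0x161eb00030e90001e01001300080008002001200080d0b83)))) 
(.nd (nat_lit 8) (.nd (nat_lit 10) 
(.lf (nat_lit 23576765) (dlOf (nat_lit 2) (nat_lit 0x42bc900009018b80380))) 
(.lf (nat_lit 49005757) (dlOf (nat_lit 1) (nat_lit 0x3a0019462c81)))) 
(.lf (nat_lit 19911101) (dlOf (nat_lit 1) (nat_lit 0x200189d8581))))) (.nd (nat_lit 8) 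
(.nd (nat_lit 7) (.nd (nat_lit 22) 
(.lf (nat_lit 473940029) (dlOf (nat_lit 2) (nat_lit 0x39306c819c03600048e08001800400020008fc0602))) 
(.lf (nat_lit 25149501) (dlOf (nat_lit 2) (nat_lit 0x9a520004e0200020018be1401)))) 
(.lf (nat_lit 11780285) (dlOf (nat_lit 1) (nat_lit 0x380080004002000200086c0383)))) 
(.nd (nat_lit 9) (.lf (nat_lit 20172093) (dlOf (nat_lit 1) (nat_lit 0x3600289d6901))) 
(.lf (nat_lit 8113981) (dlOf (nat_lit 1) (nat_lit 0x8008000400200020008517583))))))) 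
(.nd (nat_lit 27) (.nd (nat_lit 8) (.nd (nat_lit 28) (.nd (nat_lit 18) 
(.lf (nat_lit 2754330685) (dlOf (nat_lit 2) (nat_lit 0x161fd00030f38001e01001300080008002001200080d0b83))) 
(.lf (nat_lit 2756165693) (dlOf (nat_lit 1) (nat_lit 0x20018211401)))) (.nd (nat_lit 9) 
(.lf (nat_lit 3020144701) (dlOf (nat_lit 1) (nat_lit 0x8008015000200020008130003))) 
(.lf (nat_lit 805552701) (dlOf (nat_lit 2) (nat_lit 0x12056004f6818128200))))) (.nd (nat_lit 26) 
(.nd (nat_lit 18) 
(.lf (nat_lit 805552445) (dlOf (nat_lit 3) (nat_lit 0xc00a002168100360050010a0080050008002c00200120008124c03))) 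
(.lf (nat_lit 5906088253) (dlOf (nat_lit 1) (nat_lit 0x4004000200081a8502)))) (.nd (nat_lit 20) 
(.nd (nat_lit 32) 
(.lf (nat_lit 1677967677) (dlOf (nat_lit 3) (nat_lit 0xc00a004e10100360050026f4080050008002c00200120008124c03))) 
(.lf (nat_lit 5972934973) (dlOf (nat_lit 1) (nat_lit 0x400281a8501)))) 
(.lf (nat_lit 2752758077) (dlOf (nat_lit 2) (nat_lit 0x1e0b20005044000008100020008001000200020008048503)))))) 
(.nd (nat_lit 18) (.nd (nat_lit 26) (.nd (nat_lit 12) 
(.lf (nat_lit 939769917) (dlOf (nat_lit 7) (nat_lit 0x6800e005a0000004b0200350000002340800f8020025c000000850400cc0000004201002c00000020c080018000000fa0400b400400700018170d02))) 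
(.lf (nat_lit 2818822205) (dlOf (nat_lit 1) (nat_lit 0xe0018127d01)))) (.nd (nat_lit 21) 
(.lf (nat_lit 1812185149) (dlOf (nat_lit 7) (nat_lit 0x6800e005a0000004b0200350000002340800f8020025c000000850400cc0000004201002c00000020c080018000000fa0400b400400700018170d02))) 
(.lf (nat_lit 1008975933) (dlOf (nat_lit 4) (nat_lit 0x80308003017c00e8808001c0c2000e05f003a182000a0308004817c00e7408001000400340019000002))))) 
(.nd (nat_lit 7) 
(.lf (nat_lit 2886189373) (dlOf (nat_lit 10) (nat_lit 0x7000a0001740803a8050000b8040018056000e01a0002a02003c01580040068000a608002c03400240140002882000e00d0007805c007c028000500600620140002501002200a0001080800780500007e040098004001e0018188502))) 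
(.nd (nat_lit 9) 
(.lf (nat_lit 3892822205) (dlOf (nat_lit 1) (nat_lit 0x6800800fc002001a0008280483))) 
(.lf (nat_lit 6376377021) (dlOf (nat_lit 1) (nat_lit 0x8008000400200020008095783)))))))) 
(.nd (nat_lit 11) (.nd (nat_lit 18) (.nd (nat_lit 28) (.nd (nat_lit 9) (.nd (nat_lit 7) 
(.lf (nat_lit 67884157) (dlOf (nat_lit 1) (nat_lit 0x20008339501))) 
(.lf (nat_lit 1677967869) (dlOf (nat_lit 5) (nat_lit 0x3001c0006702003600e0003301000a0070001040800e00380007e04003400400140008127e02)))) 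
(.nd (nat_lit 19) (.lf (nat_lit 8636029) (dlOf (nat_lit 2) (nat_lit 0x23cf00000018513980))) 
(.lf (nat_lit 43763325) (dlOf (nat_lit 2) (nat_lit 0x10c4ab000168192a3980))))) (.nd (nat_lit 8) 
(.nd (nat_lit 19) (.lf (nat_lit 335790205) (dlOf (nat_lit 1) (nat_lit 0x4004000200080a2002))) 
(.lf (nat_lit 6378209405) (dlOf (nat_lit 1) (nat_lit 0x400400020008123582)))) (.nd (nat_lit 26) 
(.lf (nat_lit 6174262653) (dlOf (nat_lit 1) (nat_lit 0x200280d3581))) 
(.lf (nat_lit 5704500605) (dlOf (nat_lit 1) (nat_lit 0x200280d3581)))))) (.nd (nat_lit 30) 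
(.nd (nat_lit 8) (.nd (nat_lit 9) 
(.lf (nat_lit 537378941) (dlOf (nat_lit 7) (nat_lit 0x1f0290008440800c8148004200400b00a4003403300107820029028801980fc008c064004e0070010104000902a8005a4080058150002a4040018004000c0018090082))) 
(.lf (nat_lit 8898173) (dlOf (nat_lit 2) (nat_lit 0x1c451800e20d0007079e000000600040028513981)))) 
(.nd (nat_lit 9) (.lf (nat_lit 23576957) (dlOf (nat_lit 1) (nat_lit 0x40018b80781))) 
(.lf (nat_lit 8378237) (dlOf (nat_lit 1) (nat_lit 0x600080004002000c000851a303))))) 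
(.nd (nat_lit 26) (.nd (nat_lit 7) 
(.lf (nat_lit 3221733501) (dlOf (nat_lit 2) (nat_lit 0xb0200007e8080018008001800200060008170083))) 
(.lf (nat_lit 3624386813) (dlOf (nat_lit 1) (nat_lit 0x600008187101)))) (.nd (nat_lit 27) 
(.lf (nat_lit 1409794173) (dlOf (nat_lit 7) (nat_lit 0x1f0290007f00800c8148003f60400b00a40034033000fd020029028801980fc008c064004e007000f004000902a800594080058150002b8040018004000c0018090082))) 
(.lf (nat_lit 3959931005) (dlOf (nat_lit 2) (nat_lit 0xb02000083c080018008001800200060008170083))))))) 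
(.nd (nat_lit 8) (.nd (nat_lit 19) (.nd (nat_lit 9) 
(.lf (nat_lit 5905827965) (dlOf (nat_lit 1) (nat_lit 0x2000200440008144782))) (.nd (nat_lit 27) 
(.lf (nat_lit 5100522109) (dlOf (nat_lit 1) (nat_lit 0x34004000200180d5402))) 
(.lf (nat_lit 6308481661) (dlOf (nat_lit 1) (nat_lit 0x4002000200080d5402))))) (.nd (nat_lit 7) 
(.nd (nat_lit 21) (.lf (nat_lit 6376114813) (dlOf (nat_lit 2) (nat_lit 0xe13700000018095400))) 
(.lf (nat_lit 19647101) (dlOf (nat_lit 1) (nat_lit 0x15200089d5401)))) 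
(.lf (nat_lit 8113917) (dlOf (nat_lit 1) (nat_lit 0x258008014400200a60008517483))))) 
(.nd (nat_lit 7) (.nd (nat_lit 18) (.nd (nat_lit 12) 
(.lf (nat_lit 6107154813) (dlOf (nat_lit 1) (nat_lit 0x400400020008094e82))) 
(.lf (nat_lit 8116605) (dlOf (nat_lit 1) (nat_lit 0x40040002000851af02)))) (.nd (nat_lit 21) 
(.lf (nat_lit 3490171261) (dlOf (nat_lit 1) (nat_lit 0x400200020008004e82))) 
(.lf (nat_lit 40356221) (dlOf (nat_lit 1) (nat_lit 0x1000291f4e81))))) (.nd (nat_lit 18) 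
(.nd (nat_lit 19) 
(.lf (nat_lit 39045629) (dlOf (nat_lit 2) (nat_lit 0x2333800120080010008001000200080009194f83))) 
(.lf (nat_lit 32229885) (dlOf (nat_lit 1) (nat_lit 0xc00400020008ef4f82)))) 
(.lf (nat_lit 34589181) (dlOf (nat_lit 1) (nat_lit 0x400400020008fb4f82)))))))))))

end

end Pool.Agent.Lib.MP_5854e1_co.Cz

namespace Pool.Agent.Lib.MP_5854e1_co.Cz

noncomputable section

noncomputable def tz96 : DT := (.nd (nat_lit 16) (.nd (nat_lit 18) (.nd (nat_lit 28) 
(.nd (nat_lit 3) (.nd (nat_lit 26) (.nd (nat_lit 15) (.nd (nat_lit 7) (.nd (nat_lit 8) 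
(.nd (nat_lit 19) (.lf (nat_lit 13656064) (dlOf (nat_lit 1) (nat_lit 0x400200020008740002))) 
(.nd (nat_lit 20) 
(.lf (nat_lit 15228928) (dlOf (nat_lit 2) (nat_lit 0x11dd400cce040020004000c00187c0002))) 
(.lf (nat_lit 9986048) (dlOf (nat_lit 2) (nat_lit 0x6e91401d080400b8002005600085a0002))))) 
(.nd (nat_lit 6) (.nd (nat_lit 9) 
(.lf (nat_lit 40919296) (dlOf (nat_lit 1) (nat_lit 0xa80080034002001a0009202a03))) 
(.lf (nat_lit 49834752) (dlOf (nat_lit 8) (nat_lit 0x22b7d000188100045be80062df0001939a0002f0600049cd0001701000f5be800084640003c0800156fa0001d02000ab7d0000d8100235bc8003272800028080020004000e00094c5a82)))) 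
(.lf (nat_lit 134249792) (dlOf (nat_lit 1) (nat_lit 0x10000800c901))))) (.nd (nat_lit 8) 
(.nd (nat_lit 9) (.lf (nat_lit 44589184) (dlOf (nat_lit 1) (nat_lit 0x20019320301))) 
(.nd (nat_lit 12) 
(.lf (nat_lit 8414848) (dlOf (nat_lit 2) (nat_lit 0x99400001c04001800400020008513982))) 
(.lf (nat_lit 2684384896) (dlOf (nat_lit 1) (nat_lit 0x8008005c002002c0008009d83))))) 
(.nd (nat_lit 6) (.nd (nat_lit 10) 
(.lf (nat_lit 19950464) (dlOf (nat_lit 1) (nat_lit 0x4002000200089d5c02))) 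
(.lf (nat_lit 536897408) (dlOf (nat_lit 1) (nat_lit 0x400200020008004102)))) 
(.lf (nat_lit 58220992) (dlOf (nat_lit 4) (nat_lit 0x72bbc002220400396040016aef0008482001100000040408007000801a4002005a00097c7003)))))) 
(.nd (nat_lit 21) (.nd (nat_lit 25) (.nd (nat_lit 6) (.nd (nat_lit 7) 
(.lf (nat_lit 134799360) (dlOf (nat_lit 1) (nat_lit 0x80080004002000200080c0003))) 
(.lf (nat_lit 8971904) (dlOf (nat_lit 1) (nat_lit 0x80080004002006c0008513983)))) 
(.lf (nat_lit 12640320) (dlOf (nat_lit 1) (nat_lit 0x1200286d0d01)))) (.nd (nat_lit 6) 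
(.nd (nat_lit 8) (.lf (nat_lit 55107584) (dlOf (nat_lit 1) (nat_lit 0x4004000200096b0002))) 
(.lf (nat_lit 46719232) (dlOf (nat_lit 1) (nat_lit 0x40019380a81)))) 
(.lf (nat_lit 46195008) (dlOf (nat_lit 1) (nat_lit 0x40029380c01))))) (.nd (nat_lit 19) 
(.nd (nat_lit 6) (.nd (nat_lit 22) 
(.lf (nat_lit 44097536) (dlOf (nat_lit 2) (nat_lit 0x2525c01b08040004002000200092c0002))) 
(.lf (nat_lit 14737408) (dlOf (nat_lit 1) (nat_lit 0x400200020008770002)))) 
(.lf (nat_lit 19981248) (dlOf (nat_lit 1) (nat_lit 0x80080004002000200089d2783)))) 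
(.nd (nat_lit 20) (.lf (nat_lit 2678784) (dlOf (nat_lit 1) (nat_lit 0x19400400720008190002))) 
(.nd (nat_lit 22) (.lf (nat_lit 28893184) (dlOf (nat_lit 1) (nat_lit 0x120018da0001))) 
(.lf (nat_lit 24698880) (dlOf (nat_lit 2) (nat_lit 0x979c014570200140028bb0001)))))))) 
(.nd (nat_lit 6) (.nd (nat_lit 15) (.nd (nat_lit 29) (.nd (nat_lit 9) 
(.lf (nat_lit 4362625024) (dlOf (nat_lit 3) (nat_lit 0x10000076580800380000000004014c00200ea00080b0002))) 
(.lf (nat_lit 5435844096) (dlOf (nat_lit 2) (nat_lit 0x40300000d818003680)))) (.nd (nat_lit 7) 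
(.nd (nat_lit 27) (.lf (nat_lit 1678270464) (dlOf (nat_lit 1) (nat_lit 0x200081c0001))) 
(.lf (nat_lit 2886230016) (dlOf (nat_lit 1) (nat_lit 0x4800281a0001)))) 
(.lf (nat_lit 604528768) (dlOf (nat_lit 1) (nat_lit 0xc00282f3681))))) (.nd (nat_lit 8) 
(.nd (nat_lit 19) (.lf (nat_lit 3825262592) (dlOf (nat_lit 1) (nat_lit 0x5c002000400080b0002))) 
(.nd (nat_lit 27) (.lf (nat_lit 1678303232) (dlOf (nat_lit 1) (nat_lit 0x24002001800081e0002))) 
(.lf (nat_lit 201908224) (dlOf (nat_lit 1) (nat_lit 0x80080004002000200080c0003))))) 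
(.nd (nat_lit 9) (.lf (nat_lit 67172608) (dlOf (nat_lit 1) (nat_lit 0x2002800a981))) 
(.lf (nat_lit 201385728) (dlOf (nat_lit 1) (nat_lit 0x400200020008003b82)))))) (.nd (nat_lit 8) 
(.nd (nat_lit 12) (.nd (nat_lit 19) (.nd (nat_lit 20) 
(.lf (nat_lit 3422576704) (dlOf (nat_lit 2) (nat_lit 0x2a03700b9e818000000))) 
(.lf (nat_lit 2752536640) (dlOf (nat_lit 4) (nat_lit 0x3024a00012810035125001088d4000460800083fa0000002001c0018020781)))) 
(.nd (nat_lit 15) 
(.lf (nat_lit 2754109504) (dlOf (nat_lit 1) (nat_lit 0x200080060002001c00080c1783))) 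
(.lf (nat_lit 2754142272) (dlOf (nat_lit 1) (nat_lit 0x4002000200080c1782))))) (.nd (nat_lit 7) 
(.lf (nat_lit 604008512) (dlOf (nat_lit 1) (nat_lit 0x400200020008007d02))) 
(.lf (nat_lit 604011200) (dlOf (nat_lit 1) (nat_lit 0x2002800b981))))) (.nd (nat_lit 7) 
(.nd (nat_lit 27) (.nd (nat_lit 29) 
(.lf (nat_lit 6509586240) (dlOf (nat_lit 1) (nat_lit 0x7c004000a0008003e02))) 
(.lf (nat_lit 3825231680) (dlOf (nat_lit 7) (nat_lit 0x18d01000b20074060403802e2019019800c0000c8280d30080063003a034201c019a00c80d780600006014074c03a03c001900ec0000000b81810400740850032000a01401dc0000000b4200430074028c0320002b04021401d011600c8000a4100080008017400200080008003e03)))) 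
(.lf (nat_lit 1811965760) (dlOf (nat_lit 2) (nat_lit 0xb200000000018003e00)))) (.nd (nat_lit 10) 
(.lf (nat_lit 604008896) (dlOf (nat_lit 2) (nat_lit 0xc03c00000018008600))) 
(.lf (nat_lit 604009920) (dlOf (nat_lit 1) (nat_lit 0x20028009a01)))))))) (.nd (nat_lit 8) 
(.nd (nat_lit 15) (.nd (nat_lit 10) (.nd (nat_lit 11) (.nd (nat_lit 6) (.nd (nat_lit 9) 
(.nd (nat_lit 20) 
(.lf (nat_lit 2646024) (dlOf (nat_lit 2) (nat_lit 0x40ea8002072402d7608001000200100008180002))) 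
(.lf (nat_lit 24666120) (dlOf (nat_lit 3) (nat_lit 0x2969200af0010014b49005524080070008000800200040008bb0003)))) 
(.lf (nat_lit 40919560) (dlOf (nat_lit 1) (nat_lit 0x1320009208001)))) (.nd (nat_lit 19) 
(.lf (nat_lit 2752536648) (dlOf (nat_lit 1) (nat_lit 0x10008001400200020008020883))) 
(.lf (nat_lit 3221774408) (dlOf (nat_lit 2) (nat_lit 0x101b8000000800480080004002000c0008180e03))))) 
(.nd (nat_lit 7) (.nd (nat_lit 9) 
(.lf (nat_lit 3825231880) (dlOf (nat_lit 1) (nat_lit 0x10400200580008004702))) 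
(.lf (nat_lit 536902152) (dlOf (nat_lit 1) (nat_lit 0x8001800b281)))) (.nd (nat_lit 29) 
(.lf (nat_lit 6509586568) (dlOf (nat_lit 1) (nat_lit 0x8008000400200020008004803))) 
(.lf (nat_lit 3825232008) (dlOf (nat_lit 2) (nat_lit 0x1100000004e04006c002005e0008004802)))))) 
(.nd (nat_lit 9) (.nd (nat_lit 7) (.nd (nat_lit 21) 
(.lf (nat_lit 4362101768) (dlOf (nat_lit 1) (nat_lit 0xb8004017c0008002882))) 
(.lf (nat_lit 39871496) (dlOf (nat_lit 1) (nat_lit 0x1400191f2881)))) (.nd (nat_lit 12) 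
(.lf (nat_lit 134245512) (dlOf (nat_lit 1) (nat_lit 0x400200020008006182))) 
(.lf (nat_lit 134249608) (dlOf (nat_lit 1) (nat_lit 0x4c0040014000800c202))))) (.nd (nat_lit 6) 
(.nd (nat_lit 26) (.nd (nat_lit 27) 
(.lf (nat_lit 2684384904) (dlOf (nat_lit 4) (nat_lit 0x1a0068001c408002803800680000001e04003000d0004000000000100010008009000200220008009e03))) 
(.lf (nat_lit 2281731720) (dlOf (nat_lit 1) (nat_lit 0x28008003800200200008009e03)))) 
(.lf (nat_lit 6643807880) (dlOf (nat_lit 3) (nat_lit 0x1d80d400380680006d040074035000301a0000001000480080078002002a0008009e03)))) 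
(.nd (nat_lit 7) (.lf (nat_lit 5435844168) (dlOf (nat_lit 1) (nat_lit 0x800400020008003802))) 
(.lf (nat_lit 28360) (dlOf (nat_lit 1) (nat_lit 0x20028007301))))))) (.nd (nat_lit 23) 
(.nd (nat_lit 26) (.nd (nat_lit 7) (.nd (nat_lit 20) 
(.lf (nat_lit 134799368) (dlOf (nat_lit 1) (nat_lit 0x7a00180c0801))) 
(.lf (nat_lit 24698888) (dlOf (nat_lit 4) (nat_lit 0x92f3c02bd20400d579e0008b0d00af00200385e780082ee000b1740015490600020018bb0001)))) 
(.lf (nat_lit 23650440) (dlOf (nat_lit 2) (nat_lit 0x28ed0601475fc0001d828b80100)))) 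
(.nd (nat_lit 6) (.nd (nat_lit 27) 
(.lf (nat_lit 1678303240) (dlOf (nat_lit 1) (nat_lit 0x200281e0681))) 
(.lf (nat_lit 201908232) (dlOf (nat_lit 1) (nat_lit 0x7a00180c0801)))) 
(.lf (nat_lit 1275126856) (dlOf (nat_lit 1) (nat_lit 0x400400020008092882))))) (.nd (nat_lit 19) 
(.nd (nat_lit 6) (.nd (nat_lit 20) 
(.lf (nat_lit 25223176) (dlOf (nat_lit 1) (nat_lit 0x4800200f00008bf0482))) 
(.lf (nat_lit 9494536) (dlOf (nat_lit 1) (nat_lit 0x7000800ac00200360008560483)))) (.nd (nat_lit 9) 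
(.lf (nat_lit 44097608) (dlOf (nat_lit 1) (nat_lit 0x80080008002000200092c0603))) 
(.lf (nat_lit 11592264) (dlOf (nat_lit 1) (nat_lit 0x4004000200086c1102))))) (.nd (nat_lit 24) 
(.nd (nat_lit 6) (.lf (nat_lit 42524680) (dlOf (nat_lit 1) (nat_lit 0x10008000400200020009260003))) 
(.lf (nat_lit 8975432) (dlOf (nat_lit 2) (nat_lit 0xe4ba00011018519300)))) (.nd (nat_lit 20) 
(.lf (nat_lit 27844616) (dlOf (nat_lit 1) (nat_lit 0x34004003e0008d30002))) 
(.lf (nat_lit 30990344) (dlOf (nat_lit 1) (nat_lit 0x58008002c002000c0008e60583)))))))) 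
(.nd (nat_lit 7) (.nd (nat_lit 6) (.nd (nat_lit 9) (.nd (nat_lit 10) 
(.lf (nat_lit 30433544) (dlOf (nat_lit 1) (nat_lit 0x23800401520008e30702))) (.nd (nat_lit 12) 
(.lf (nat_lit 4966081800) (dlOf (nat_lit 1) (nat_lit 0x8008000400200020008002f83))) 
(.lf (nat_lit 8418568) (dlOf (nat_lit 1) (nat_lit 0xdc004014a0008519602))))) (.nd (nat_lit 10) 
(.lf (nat_lit 19952392) (dlOf (nat_lit 1) (nat_lit 0x1600189d8f81))) (.nd (nat_lit 27) 
(.lf (nat_lit 3825231624) (dlOf (nat_lit 13) (nat_lit 0xe4010005c0074012c038018e01900ea00c00009028000808c0390040017601d004900e0065006403a8030000220c01b601d00ec00c8000801006e007403b00320001f0400a001d006100c8000741002f007401c40320001b0400020190000d0100e9000000064080720000000300400a4040002801900dc0000000581806b8000000280400e80000000002003a0018003b81))) 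
(.lf (nat_lit 1811965704) (dlOf (nat_lit 4) (nat_lit 0x388000000d0040194000000660200c800000000018003b80)))))) 
(.nd (nat_lit 15) (.nd (nat_lit 9) (.nd (nat_lit 10) 
(.lf (nat_lit 2122056) (dlOf (nat_lit 1) (nat_lit 0x8008000400200020008150603))) 
(.lf (nat_lit 39871816) (dlOf (nat_lit 1) (nat_lit 0x80080004002000200091f3303)))) 
(.lf (nat_lit 19954504) (dlOf (nat_lit 1) (nat_lit 0x28002000400089dbc82)))) (.nd (nat_lit 19) 
(.lf (nat_lit 1208017224) (dlOf (nat_lit 1) (nat_lit 0x800400020008090c82))) 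
(.lf (nat_lit 23650632) (dlOf (nat_lit 2) (nat_lit 0x35a04011abe2000400400160028b80601)))))) 
(.nd (nat_lit 26) (.nd (nat_lit 11) (.nd (nat_lit 15) (.nd (nat_lit 23) 
(.lf (nat_lit 2147508616) (dlOf (nat_lit 1) (nat_lit 0x10c0008001001))) 
(.lf (nat_lit 8413576) (dlOf (nat_lit 1) (nat_lit 0x400200020008511002)))) 
(.lf (nat_lit 8446344) (dlOf (nat_lit 1) (nat_lit 0x400200020008511002)))) (.nd (nat_lit 6) 
(.nd (nat_lit 10) (.lf (nat_lit 49342856) (dlOf (nat_lit 1) (nat_lit 0x1a0029464e81))) 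
(.lf (nat_lit 28040) (dlOf (nat_lit 1) (nat_lit 0x20028006c81)))) 
(.lf (nat_lit 5368736712) (dlOf (nat_lit 1) (nat_lit 0x1000400220008005d82))))) (.nd (nat_lit 6) 
(.nd (nat_lit 10) (.nd (nat_lit 15) 
(.lf (nat_lit 1140875656) (dlOf (nat_lit 1) (nat_lit 0xa8008000400200ce0008001003))) 
(.lf (nat_lit 1140908424) (dlOf (nat_lit 1) (nat_lit 0x1a0028001001)))) (.nd (nat_lit 11) 
(.lf (nat_lit 1140909448) (dlOf (nat_lit 1) (nat_lit 0x400400020018003602))) 
(.lf (nat_lit 3288362376) (dlOf (nat_lit 1) (nat_lit 0x20018006c81))))) (.nd (nat_lit 11) 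
(.lf (nat_lit 2752013256) (dlOf (nat_lit 1) (nat_lit 0x20018002881))) 
(.lf (nat_lit 5033192392) (dlOf (nat_lit 1) (nat_lit 0x400400020008005d82))))))))) 
(.nd (nat_lit 26) (.nd (nat_lit 3) (.nd (nat_lit 8) (.nd (nat_lit 29) (.nd (nat_lit 6) 
(.nd (nat_lit 19) (.nd (nat_lit 10) 
(.lf (nat_lit 1343250432) (dlOf (nat_lit 1) (nat_lit 0x80080004002000200081d0003))) 
(.lf (nat_lit 1342206976) (dlOf (nat_lit 2) (nat_lit 0x811c0043d0200040028009201)))) 
(.nd (nat_lit 7) (.lf (nat_lit 3624427520) (dlOf (nat_lit 1) (nat_lit 0x4800281a0001))) 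
(.lf (nat_lit 1342726272) (dlOf (nat_lit 1) (nat_lit 0x88004003e00080c0082))))) (.nd (nat_lit 7) 
(.nd (nat_lit 9) 
(.lf (nat_lit 3490734144) (dlOf (nat_lit 4) (nat_lit 0x302320001281003511900108880000460800083d60000002001c0018020781))) 
(.lf (nat_lit 1342238272) (dlOf (nat_lit 1) (nat_lit 0x400200060008007182)))) 
(.lf (nat_lit 1342205632) (dlOf (nat_lit 1) (nat_lit 0x60008004400200220008007283))))) 
(.nd (nat_lit 7) (.nd (nat_lit 15) 
(.lf (nat_lit 805855232) (dlOf (nat_lit 1) (nat_lit 0x200081c0001))) (.nd (nat_lit 19) 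
(.lf (nat_lit 3087065088) (dlOf (nat_lit 1) (nat_lit 0x5c002000400080b0002))) 
(.lf (nat_lit 805888000) (dlOf (nat_lit 1) (nat_lit 0x24002001800081e0002))))) (.nd (nat_lit 6) 
(.lf (nat_lit 1879079040) (dlOf (nat_lit 1) (nat_lit 0x2001800a881))) 
(.lf (nat_lit 1880155328) (dlOf (nat_lit 1) (nat_lit 0x200187a2d01)))))) (.nd (nat_lit 6) 
(.nd (nat_lit 10) (.nd (nat_lit 15) (.nd (nat_lit 20) 
(.lf (nat_lit 1476944128) (dlOf (nat_lit 2) (nat_lit 0xe80fc0000004003400400cc0018302b02))) 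
(.lf (nat_lit 1345872128) (dlOf (nat_lit 5) (nat_lit 0xc2a400040f7001c0490001a018001054800081ee00066040004152000320100030a9000083dc0000008026c00400200008e02b02)))) 
(.lf (nat_lit 5774041344) (dlOf (nat_lit 1) (nat_lit 0x100080010002000200080f2a03)))) 
(.nd (nat_lit 7) (.nd (nat_lit 9) 
(.lf (nat_lit 4160779520) (dlOf (nat_lit 1) (nat_lit 0xc004002e0008009582))) 
(.lf (nat_lit 4026558208) (dlOf (nat_lit 1) (nat_lit 0x400200020008003b82)))) 
(.lf (nat_lit 1476423552) (dlOf (nat_lit 1) (nat_lit 0x400200020008007782))))) (.nd (nat_lit 7) 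
(.nd (nat_lit 9) 
(.lf (nat_lit 2952820032) (dlOf (nat_lit 2) (nat_lit 0x700a0001740800200080018002002e0008009903))) 
(.nd (nat_lit 10) (.lf (nat_lit 2013326144) (dlOf (nat_lit 1) (nat_lit 0x20028005c01))) 
(.lf (nat_lit 3492865856) (dlOf (nat_lit 2) (nat_lit 0x18804e00c401c000168280f3e00))))) 
(.nd (nat_lit 27) (.lf (nat_lit 1342726592) (dlOf (nat_lit 1) (nat_lit 0x44004002400080c0882))) 
(.lf (nat_lit 1476944320) (dlOf (nat_lit 1) (nat_lit 0x1140008307001))))))) (.nd (nat_lit 15) 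
(.nd (nat_lit 31) (.nd (nat_lit 6) (.nd (nat_lit 12) 
(.lf (nat_lit 1345872136) (dlOf (nat_lit 1) (nat_lit 0x50004000a0008e03a02))) (.nd (nat_lit 27) 
(.lf (nat_lit 1342206216) (dlOf (nat_lit 1) (nat_lit 0x400400040018008082))) 
(.lf (nat_lit 1476423944) (dlOf (nat_lit 1) (nat_lit 0x120018008081))))) (.nd (nat_lit 7) 
(.nd (nat_lit 8) 
(.lf (nat_lit 1342726728) (dlOf (nat_lit 24) (nat_lit 0x5787140009e0401b438a0004e0201521c50002681007f0e28001300803f8714000960408142a8025e151005109b801203d002b81280070003000240602030aa0096054402b4128000470603f4154013a0a8800114101010550000c2a6027a15100010a8002984dc01f81e8013209400080480030800c000882407f82a80274151000309b004b8250000861007fc2a80292151004804a0001081802d871407a02a8027c151008704a000100200f7855004d02a20003e0401101c500580a88000f01003905440007604024838a042a154014d0a8803884dc024c1e801ac094002e0488047000c000702002ac38a0003702014e1c50001b0100c20e28000d40802d07140006804002438a000330200d41c5000098100060e2800000080d7800807980020de000080c1103)))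 
(.lf (nat_lit 5773485384) (dlOf (nat_lit 1) (nat_lit 0x2800400a600080e3302)))) 
(.lf (nat_lit 1879077576) (dlOf (nat_lit 1) (nat_lit 0x400200020008008c82))))) (.nd (nat_lit 7) 
(.nd (nat_lit 6) 
(.lf (nat_lit 2952820488) (dlOf (nat_lit 10) (nat_lit 0x2d001a0026301013d00d00131408038805000962040160028004b00200a20140025681000300a00129c0800880500087e04005c0280041102013001a005a00a00028000000000c03d80020002000800a002))) 
(.nd (nat_lit 11) 
(.lf (nat_lit 3490734152) (dlOf (nat_lit 1) (nat_lit 0x10008001400200020008020883))) 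
(.lf (nat_lit 3623909448) (dlOf (nat_lit 2) (nat_lit 0x60040008481800a680))))) (.nd (nat_lit 6) 
(.lf (nat_lit 4160779400) (dlOf (nat_lit 1) (nat_lit 0x20028009501))) (.nd (nat_lit 12) 
(.lf (nat_lit 6710913992) (dlOf (nat_lit 5) (nat_lit 0x1800a000074080090058001c02a00260050000c83000800b00008054001c00a0001206000801600050028000001000980080020002000a0008005d83))) 
(.lf (nat_lit 3087039432) (dlOf (nat_lit 1) (nat_lit 0xa002800be81))))))) (.nd (nat_lit 7) 
(.nd (nat_lit 8) (.nd (nat_lit 19) 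
(.lf (nat_lit 1343283208) (dlOf (nat_lit 1) (nat_lit 0x200281e0481))) 
(.lf (nat_lit 805888008) (dlOf (nat_lit 1) (nat_lit 0x200281e0681)))) (.nd (nat_lit 6) 
(.nd (nat_lit 10) (.lf (nat_lit 5234551560) (dlOf (nat_lit 1) (nat_lit 0x100028055b01))) 
(.lf (nat_lit 3492865800) (dlOf (nat_lit 2) (nat_lit 0x2817000140ae000a0400000c8380f3b80)))) 
(.lf (nat_lit 1342759240) (dlOf (nat_lit 2) (nat_lit 0x104660004002000600280c0601))))) 
(.nd (nat_lit 8) (.nd (nat_lit 6) (.nd (nat_lit 11) 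
(.lf (nat_lit 1342759048) (dlOf (nat_lit 1) (nat_lit 0x4002000200080c0102))) 
(.lf (nat_lit 805365896) (dlOf (nat_lit 1) (nat_lit 0x9c0028004801)))) 
(.lf (nat_lit 1342759112) (dlOf (nat_lit 1) (nat_lit 0x400280c0401)))) (.nd (nat_lit 6) 
(.nd (nat_lit 11) (.lf (nat_lit 5772468616) (dlOf (nat_lit 1) (nat_lit 0x140028091001))) 
(.lf (nat_lit 3489720712) (dlOf (nat_lit 1) (nat_lit 0x10004000e0008004e82)))) 
(.lf (nat_lit 5234551752) (dlOf (nat_lit 1) (nat_lit 0x20008001800200080008055d83)))))))) 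
(.nd (nat_lit 6) (.nd (nat_lit 15) (.nd (nat_lit 10) (.nd (nat_lit 7) (.nd (nat_lit 3) 
(.lf (nat_lit 4228407296) (dlOf (nat_lit 3) (nat_lit 0x10000068c40800380000000004014c00200ea00080b0002))) 
(.nd (nat_lit 9) (.lf (nat_lit 1543530504) (dlOf (nat_lit 1) (nat_lit 0x400200020008004702))) 
(.lf (nat_lit 470311432) (dlOf (nat_lit 2) (nat_lit 0x261540010e0180c0d80))))) (.nd (nat_lit 11) 
(.nd (nat_lit 3) (.lf (nat_lit 470311040) (dlOf (nat_lit 1) (nat_lit 0x88004003e00080c0082))) 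
(.lf (nat_lit 471359624) (dlOf (nat_lit 1) (nat_lit 0x80080004002000200082e0483)))) 
(.nd (nat_lit 29) 
(.lf (nat_lit 469788808) (dlOf (nat_lit 2) (nat_lit 0x10247000211e000038100008008000400200040008004803))) 
(.lf (nat_lit 1006659720) (dlOf (nat_lit 1) (nat_lit 0x20028004801)))))) (.nd (nat_lit 3) 
(.nd (nat_lit 7) (.nd (nat_lit 8) 
(.lf (nat_lit 3691017216) (dlOf (nat_lit 2) (nat_lit 0x8030000c0140021c028009200))) 
(.lf (nat_lit 469788416) (dlOf (nat_lit 1) (nat_lit 0x8008000400200020008003b83)))) 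
(.lf (nat_lit 1946184832) (dlOf (nat_lit 1) (nat_lit 0x1a0018006101)))) (.nd (nat_lit 8) 
(.nd (nat_lit 12) (.lf (nat_lit 469787656) (dlOf (nat_lit 1) (nat_lit 0x5c004001a0008002882))) 
(.lf (nat_lit 469791752) (dlOf (nat_lit 2) (nat_lit 0x502380146204002c004003a0008009202)))) 
(.nd (nat_lit 7) (.lf (nat_lit 1543530248) (dlOf (nat_lit 1) (nat_lit 0x60028003b81))) 
(.lf (nat_lit 4227890568) (dlOf (nat_lit 1) (nat_lit 0x8800800440020044000800c903))))))) 
(.nd (nat_lit 7) (.nd (nat_lit 3) (.nd (nat_lit 8) 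
(.lf (nat_lit 471392256) (dlOf (nat_lit 1) (nat_lit 0xe00182f0001))) (.nd (nat_lit 10) 
(.lf (nat_lit 474013952) (dlOf (nat_lit 1) (nat_lit 0x3800200140009000a82))) 
(.lf (nat_lit 2483088640) (dlOf (nat_lit 1) (nat_lit 0x100080014002001e0008006603))))) 
(.nd (nat_lit 10) (.nd (nat_lit 8) 
(.lf (nat_lit 472965128) (dlOf (nat_lit 1) (nat_lit 0xc0008b70001))) 
(.lf (nat_lit 4094222600) (dlOf (nat_lit 1) (nat_lit 0x80028013581)))) (.nd (nat_lit 12) 
(.lf (nat_lit 2080433160) (dlOf (nat_lit 1) (nat_lit 0x18400400760008092882))) 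
(.lf (nat_lit 469824520) (dlOf (nat_lit 1) (nat_lit 0x1400200040008009202)))))) (.nd (nat_lit 9) 
(.nd (nat_lit 8) (.nd (nat_lit 11) 
(.lf (nat_lit 470343816) (dlOf (nat_lit 1) (nat_lit 0x4002000200080c0102))) 
(.lf (nat_lit 469821576) (dlOf (nat_lit 2) (nat_lit 0x3123800038080008008001800200080008004803)))) 
(.lf (nat_lit 335602056) (dlOf (nat_lit 1) (nat_lit 0xc00400060008001002)))) (.nd (nat_lit 3) 
(.lf (nat_lit 5167442560) (dlOf (nat_lit 1) (nat_lit 0x200028055481))) 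
(.lf (nat_lit 4095796872) (dlOf (nat_lit 1) (nat_lit 0x4002000200080e3a02))))))) (.nd (nat_lit 3) 
(.nd (nat_lit 7) (.nd (nat_lit 8) (.nd (nat_lit 9) (.nd (nat_lit 19) 
(.lf (nat_lit 472965184) (dlOf (nat_lit 2) (nat_lit 0x141b2000a07d00123828b70600))) 
(.lf (nat_lit 474538048) (dlOf (nat_lit 2) (nat_lit 0x37025801ec10800e8074007d0398008f020006800800b4002002200091a0603)))) 
(.lf (nat_lit 4227919424) (dlOf (nat_lit 1) (nat_lit 0x20028007181)))) (.nd (nat_lit 9) 
(.nd (nat_lit 15) 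
(.lf (nat_lit 469792064) (dlOf (nat_lit 2) (nat_lit 0x8238008c0040048004000e0008009902))) 
(.lf (nat_lit 469824832) (dlOf (nat_lit 1) (nat_lit 0x8008001c002001a0008009903)))) 
(.lf (nat_lit 1543530304) (dlOf (nat_lit 4) (nat_lit 0xe0128000d80800280940006804002c05c003a025001a0098000b41801b0008000800200080008003e03))))) 
(.nd (nat_lit 15) (.nd (nat_lit 8) 
(.lf (nat_lit 3691016384) (dlOf (nat_lit 2) (nat_lit 0xd801d00037818007f00))) (.nd (nat_lit 10) 
(.lf (nat_lit 470311360) (dlOf (nat_lit 1) (nat_lit 0x44004002400080c0882))) 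
(.lf (nat_lit 469792192) (dlOf (nat_lit 1) (nat_lit 0x6400400480018009a02))))) (.nd (nat_lit 8) 
(.lf (nat_lit 469826240) (dlOf (nat_lit 1) (nat_lit 0x6001800b981))) (.nd (nat_lit 10) 
(.lf (nat_lit 469823936) (dlOf (nat_lit 1) (nat_lit 0x800200020008008602))) 
(.lf (nat_lit 469824960) (dlOf (nat_lit 1) (nat_lit 0x80080038002002a0008009a03))))))) 
(.nd (nat_lit 7) (.nd (nat_lit 29) (.nd (nat_lit 12) (.nd (nat_lit 8) 
(.lf (nat_lit 470311496) (dlOf (nat_lit 24) (nat_lit 0x5787140009e0401b438a0004e0201521c50002681007f0e28001300803f8714000960408142a8025e151005109b801203d002b81280070007000240602030aa0096054402b4128000470603f4154013a0a8800114101010550000c2a6027a15100010a8002984dc01f81e8013209400080480030801c000882407f82a80274151000309b004b8250000861007fc2a80292151004804a0001081802d871407a02a8027c151008704a000100200f7855004d02a20003e0401101c500580a88000f01003905440007604024838a042a154014d0a8803884dc024c1e801ac094002e0488047001c000702002ac38a0003702014e1c50001b0100c20e28000d40802d07140006804002438a000330200d41c5000098100060e2800000080d7800807980020de000080c1103)))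 
(.lf (nat_lit 470344008) (dlOf (nat_lit 2) (nat_lit 0x104660004702000600280c0601)))) 
(.nd (nat_lit 15) (.lf (nat_lit 3691016264) (dlOf (nat_lit 1) (nat_lit 0x4400400060008007d82))) 
(.lf (nat_lit 3691049032) (dlOf (nat_lit 1) (nat_lit 0x20028007d81))))) (.nd (nat_lit 10) 
(.lf (nat_lit 2080432200) (dlOf (nat_lit 1) (nat_lit 0x20008090001))) (.nd (nat_lit 27) 
(.lf (nat_lit 4093699144) (dlOf (nat_lit 1) (nat_lit 0x400400020008002882))) 
(.lf (nat_lit 2080433224) (dlOf (nat_lit 1) (nat_lit 0x400400020008092882)))))) (.nd (nat_lit 8) 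
(.nd (nat_lit 10) (.lf (nat_lit 470343880) (dlOf (nat_lit 1) (nat_lit 0x400280c0401))) 
(.lf (nat_lit 2483088584) (dlOf (nat_lit 1) (nat_lit 0xc0008000400200360008006383)))) 
(.nd (nat_lit 9) (.lf (nat_lit 6375892424) (dlOf (nat_lit 1) (nat_lit 0x108004005c0008003602))) 
(.nd (nat_lit 15) (.lf (nat_lit 4764756936) (dlOf (nat_lit 1) (nat_lit 0xc00400020008005d82))) 
(.lf (nat_lit 5704313800) (dlOf (nat_lit 1) (nat_lit 0x58002000c0008055d82))))))))))) 
(.nd (nat_lit 28) (.nd (nat_lit 6) (.nd (nat_lit 15) (.nd (nat_lit 21) (.nd (nat_lit 26) 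
(.nd (nat_lit 30) (.nd (nat_lit 19) (.nd (nat_lit 20) 
(.lf (nat_lit 537157640) (dlOf (nat_lit 1) (nat_lit 0xc0008030481))) (.nd (nat_lit 22) 
(.lf (nat_lit 18112520) (dlOf (nat_lit 1) (nat_lit 0x8008000400200020008910583))) 
(.lf (nat_lit 47472648) (dlOf (nat_lit 1) (nat_lit 0x4004000200093f0002))))) (.nd (nat_lit 20) 
(.lf (nat_lit 42754056) (dlOf (nat_lit 1) (nat_lit 0x400400020009280002))) 
(.lf (nat_lit 31219720) (dlOf (nat_lit 1) (nat_lit 0x2c00400020018e70002))))) (.nd (nat_lit 7) 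
(.nd (nat_lit 27) (.nd (nat_lit 29) 
(.lf (nat_lit 5368995848) (dlOf (nat_lit 1) (nat_lit 0x100080008002000400080b0003))) 
(.lf (nat_lit 3758383112) (dlOf (nat_lit 1) (nat_lit 0x400400020008170002)))) 
(.lf (nat_lit 5503213576) (dlOf (nat_lit 1) (nat_lit 0x100080008002000400080b0003)))) 
(.nd (nat_lit 3) (.lf (nat_lit 1074028672) (dlOf (nat_lit 1) (nat_lit 0x80028090081))) 
(.lf (nat_lit 3892600968) (dlOf (nat_lit 1) (nat_lit 0x3f8008016c002008c0008160283)))))) 
(.nd (nat_lit 30) (.nd (nat_lit 29) (.nd (nat_lit 3) 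
(.lf (nat_lit 4362362880) (dlOf (nat_lit 2) (nat_lit 0x4c02d00651018030000))) (.nd (nat_lit 7) 
(.lf (nat_lit 4362362888) (dlOf (nat_lit 3) (nat_lit 0x202a0002480800080ac000b404007c00200040008030582))) 
(.lf (nat_lit 6509846920) (dlOf (nat_lit 2) (nat_lit 0x180000002202000c0018155c81))))) 
(.nd (nat_lit 9) (.lf (nat_lit 604266504) (dlOf (nat_lit 1) (nat_lit 0x800400060008110282))) 
(.lf (nat_lit 2751756808) (dlOf (nat_lit 1) (nat_lit 0x20004001c000800b282))))) (.nd (nat_lit 27) 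
(.nd (nat_lit 31) 
(.lf (nat_lit 1678008328) (dlOf (nat_lit 2) (nat_lit 0x40070006ac080008008002400200080008130483))) 
(.lf (nat_lit 3825491976) (dlOf (nat_lit 1) (nat_lit 0x40028170481)))) (.nd (nat_lit 3) 
(.lf (nat_lit 1812226048) (dlOf (nat_lit 4) (nat_lit 0x3809800180440067e0400040220033d8100010130017f4080070008017800200300008180003))) 
(.lf (nat_lit 1812226056) (dlOf (nat_lit 2) (nat_lit 0x100000003a4080070008006000200220008180483))))))) 
(.nd (nat_lit 8) (.nd (nat_lit 20) (.nd (nat_lit 3) 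
(.lf (nat_lit 44326912) (dlOf (nat_lit 1) (nat_lit 0x200192f0001))) (.nd (nat_lit 7) 
(.lf (nat_lit 10772488) (dlOf (nat_lit 1) (nat_lit 0x20018620481))) 
(.lf (nat_lit 19686024) (dlOf (nat_lit 1) (nat_lit 0xa00080034002002200089d1a03))))) 
(.nd (nat_lit 7) (.nd (nat_lit 11) 
(.lf (nat_lit 8152072) (dlOf (nat_lit 1) (nat_lit 0x2a0018512881))) 
(.lf (nat_lit 20212744) (dlOf (nat_lit 2) (nat_lit 0x3af9400000040040004000800089d5f82)))) 
(.lf (nat_lit 11821192) (dlOf (nat_lit 1) (nat_lit 0x8002000200086c0102))))) (.nd (nat_lit 3) 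
(.nd (nat_lit 10) (.lf (nat_lit 20212608) (dlOf (nat_lit 1) (nat_lit 0x4002000200089d5c02))) 
(.lf (nat_lit 8157056) (dlOf (nat_lit 1) (nat_lit 0x2001851a301)))) (.nd (nat_lit 9) 
(.nd (nat_lit 10) (.lf (nat_lit 8151432) (dlOf (nat_lit 1) (nat_lit 0x400200020008511002))) 
(.lf (nat_lit 20737416) (dlOf (nat_lit 1) (nat_lit 0x1000089d6c81)))) 
(.lf (nat_lit 19688328) (dlOf (nat_lit 1) (nat_lit 0x80080004002000200089d5c03))))))) 
(.nd (nat_lit 3) (.nd (nat_lit 20) (.nd (nat_lit 19) (.nd (nat_lit 22) (.nd (nat_lit 30) 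
(.lf (nat_lit 604299264) (dlOf (nat_lit 2) (nat_lit 0x501d0029ac080018008000800200060008130003))) 
(.lf (nat_lit 3825524736) (dlOf (nat_lit 1) (nat_lit 0x80028190001)))) 
(.lf (nat_lit 12902400) (dlOf (nat_lit 3) (nat_lit 0x13198033c40800318d80000004001c004002200086e0002)))) 
(.nd (nat_lit 21) 
(.lf (nat_lit 59564032) (dlOf (nat_lit 1) (nat_lit 0x218008008800200820009810003))) 
(.lf (nat_lit 2754404352) (dlOf (nat_lit 4) (nat_lit 0x4a883c0197e04035041e00caa02006020f006538180e0000))))) 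
(.nd (nat_lit 7) (.nd (nat_lit 8) (.nd (nat_lit 23) 
(.lf (nat_lit 37019648) (dlOf (nat_lit 1) (nat_lit 0x20019080001))) 
(.lf (nat_lit 62185472) (dlOf (nat_lit 1) (nat_lit 0x100029970001)))) 
(.lf (nat_lit 20248832) (dlOf (nat_lit 1) (nat_lit 0x600289da981)))) (.nd (nat_lit 10) 
(.lf (nat_lit 20245376) (dlOf (nat_lit 1) (nat_lit 0x4002000200089d5c02))) 
(.lf (nat_lit 8189824) (dlOf (nat_lit 1) (nat_lit 0x2000851a301)))))) (.nd (nat_lit 20) 
(.nd (nat_lit 30) (.nd (nat_lit 7) (.nd (nat_lit 23) 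
(.lf (nat_lit 2819416072) (dlOf (nat_lit 1) (nat_lit 0x2080018280001))) 
(.lf (nat_lit 59564040) (dlOf (nat_lit 1) (nat_lit 0x68008000400200160009810083)))) 
(.lf (nat_lit 21291144) (dlOf (nat_lit 4) (nat_lit 0x9daa0006ed40002f6980017b48000bda00008ecf0002f50c0006a1c0013b54000dda60007ed200047680002fb3c0011d430001a060005ed50003f698001fb480007d9e0008ea18000a82800e800800ac00200160008a30f03)))) 
(.nd (nat_lit 26) (.nd (nat_lit 29) 
(.lf (nat_lit 1208279048) (dlOf (nat_lit 2) (nat_lit 0xec0520184b02000200280b0001))) 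
(.lf (nat_lit 3892633608) (dlOf (nat_lit 1) (nat_lit 0x8008000400200020008180003)))) 
(.nd (nat_lit 7) (.lf (nat_lit 5570355208) (dlOf (nat_lit 1) (nat_lit 0x20028100001))) 
(.lf (nat_lit 5570355336) (dlOf (nat_lit 1) (nat_lit 0x20028100f01)))))) (.nd (nat_lit 7) 
(.nd (nat_lit 19) (.nd (nat_lit 24) 
(.lf (nat_lit 68476936) (dlOf (nat_lit 1) (nat_lit 0x4e0018580481))) 
(.lf (nat_lit 18145288) (dlOf (nat_lit 1) (nat_lit 0x400400260008910582)))) 
(.lf (nat_lit 69001224) (dlOf (nat_lit 1) (nat_lit 0x400400020008860002)))) (.nd (nat_lit 8) 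
(.lf (nat_lit 11853960) (dlOf (nat_lit 1) (nat_lit 0x8002000200086c0102))) 
(.lf (nat_lit 8184200) (dlOf (nat_lit 1) (nat_lit 0x400200020008511002)))))))) (.nd (nat_lit 3) 
(.nd (nat_lit 15) (.nd (nat_lit 24) (.nd (nat_lit 30) (.nd (nat_lit 20) (.nd (nat_lit 22) 
(.lf (nat_lit 9199680) (dlOf (nat_lit 1) (nat_lit 0x20028530501))) 
(.lf (nat_lit 13393984) (dlOf (nat_lit 1) (nat_lit 0x10008001000200060008721783)))) 
(.nd (nat_lit 19) (.lf (nat_lit 1335360) (dlOf (nat_lit 1) (nat_lit 0x400280b0781))) 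
(.lf (nat_lit 6053952) (dlOf (nat_lit 1) (nat_lit 0x400400020008420002))))) (.nd (nat_lit 8) 
(.nd (nat_lit 27) 
(.lf (nat_lit 5368995904) (dlOf (nat_lit 2) (nat_lit 0x801380b28070000ba080014002000a00080b0502))) 
(.lf (nat_lit 5503213632) (dlOf (nat_lit 2) (nat_lit 0x801380b28070000ba080014002000a00080b0502)))) 
(.nd (nat_lit 26) 
(.lf (nat_lit 3221512512) (dlOf (nat_lit 4) (nat_lit 0x380280089404000808a003f902002004500000018124c00))) 
(.lf (nat_lit 3959710016) (dlOf (nat_lit 4) (nat_lit 0x38028013b004000808a0099302002004500000018124c00)))))) 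
(.nd (nat_lit 8) (.nd (nat_lit 7) (.nd (nat_lit 20) 
(.lf (nat_lit 25452608) (dlOf (nat_lit 2) (nat_lit 0x4cc900577018c10000))) 
(.lf (nat_lit 22306880) (dlOf (nat_lit 1) (nat_lit 0x80008002c002000c0008ac0d83)))) 
(.lf (nat_lit 19692224) (dlOf (nat_lit 1) (nat_lit 0x4002000200089db982)))) (.nd (nat_lit 7) 
(.nd (nat_lit 9) (.lf (nat_lit 51142976) (dlOf (nat_lit 1) (nat_lit 0x400080020002000a0009507e03))) 
(.lf (nat_lit 20212544) (dlOf (nat_lit 1) (nat_lit 0x4002000200089d5c02)))) 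
(.lf (nat_lit 23355840) (dlOf (nat_lit 2) (nat_lit 0x4c000000000200080008b80881)))))) 
(.nd (nat_lit 19) (.nd (nat_lit 20) (.nd (nat_lit 23) (.nd (nat_lit 26) 
(.lf (nat_lit 1208279104) (dlOf (nat_lit 18) (nat_lit 0x39801600073020ad00290322014010f00981600018000a00b00080048001c8300c500a40564018000710400e202901100060001c0100b600a404ac05000f002401910060084802c000de140008052007600c00037020025006000098080a580a4044805002ba00c01110058000882005080a40368050020e00c000108300a9014006680300004008002005000e600c0000f8200070060000780806a80a400ec050023200c0000e03015c014809780a00570018023400b0000d8400360148000680802000a400e8018000190400ce02800680058000001009880080548002072a00080b0503))) 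
(.lf (nat_lit 2349129792) (dlOf (nat_lit 4) (nat_lit 0x3008000b80380006e0800080200003602005c01c0002008000500380006a0c006c002005200080c1782)))) 
(.lf (nat_lit 25485376) (dlOf (nat_lit 1) (nat_lit 0x400200020008c10002)))) (.nd (nat_lit 7) 
(.lf (nat_lit 20245312) (dlOf (nat_lit 1) (nat_lit 0x4002000200089d5c02))) 
(.lf (nat_lit 47505600) (dlOf (nat_lit 1) (nat_lit 0x8008000400200020009400783))))) 
(.nd (nat_lit 9) (.nd (nat_lit 20) (.nd (nat_lit 21) 
(.lf (nat_lit 21815360) (dlOf (nat_lit 6) (nat_lit 0x25de800004a0400bf22200037a00001182002ec3800006008007e1c00000a04001b22c001187000000028a70780))) 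
(.lf (nat_lit 2754404416) (dlOf (nat_lit 3) (nat_lit 0x9892c000dc0401c44980002102001400280e0e01)))) 
(.lf (nat_lit 10281024) (dlOf (nat_lit 1) (nat_lit 0x4004000600185c0d82)))) (.nd (nat_lit 7) 
(.lf (nat_lit 36497984) (dlOf (nat_lit 1) (nat_lit 0x380009075201))) 
(.lf (nat_lit 19723968) (dlOf (nat_lit 1) (nat_lit 0x2a00289da001))))))) (.nd (nat_lit 7) 
(.nd (nat_lit 9) (.nd (nat_lit 8) (.nd (nat_lit 10) (.nd (nat_lit 19) 
(.lf (nat_lit 671375432) (dlOf (nat_lit 1) (nat_lit 0x1040008170f01))) 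
(.lf (nat_lit 9199688) (dlOf (nat_lit 1) (nat_lit 0x40008530601)))) 
(.lf (nat_lit 35415112) (dlOf (nat_lit 1) (nat_lit 0x400400020009012882)))) (.nd (nat_lit 10) 
(.nd (nat_lit 15) (.lf (nat_lit 134504776) (dlOf (nat_lit 1) (nat_lit 0x160028047f01))) 
(.lf (nat_lit 6442770760) (dlOf (nat_lit 1) (nat_lit 0x8002000200081b0602)))) 
(.lf (nat_lit 20739400) (dlOf (nat_lit 1) (nat_lit 0x200289d9901))))) (.nd (nat_lit 30) 
(.nd (nat_lit 15) (.nd (nat_lit 19) 
(.lf (nat_lit 23355976) (dlOf (nat_lit 1) (nat_lit 0x400200020008b81102))) 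
(.lf (nat_lit 1860168) (dlOf (nat_lit 1) (nat_lit 0x8008000400200020008151103)))) 
(.lf (nat_lit 23388744) (dlOf (nat_lit 1) (nat_lit 0x8008000400200020008b81103)))) 
(.nd (nat_lit 10) (.nd (nat_lit 26) 
(.lf (nat_lit 3221512776) (dlOf (nat_lit 2) (nat_lit 0x580460024f018128800))) 
(.lf (nat_lit 3959710280) (dlOf (nat_lit 4) (nat_lit 0xac000000120100540000000800804180000003a040164002005a0008128d02)))) 
(.lf (nat_lit 1610901064) (dlOf (nat_lit 1) (nat_lit 0x100028093801)))))) (.nd (nat_lit 15) 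
(.nd (nat_lit 8) (.nd (nat_lit 9) 
(.lf (nat_lit 7102664) (dlOf (nat_lit 1) (nat_lit 0x4004000200084b0482))) 
(.lf (nat_lit 20214472) (dlOf (nat_lit 1) (nat_lit 0x80080004002000200089d8c83)))) 
(.nd (nat_lit 10) 
(.lf (nat_lit 2751751112) (dlOf (nat_lit 1) (nat_lit 0xe0008005800200800008002883))) 
(.lf (nat_lit 8155080) (dlOf (nat_lit 1) (nat_lit 0x20018517a81))))) (.nd (nat_lit 10) 
(.nd (nat_lit 8) (.lf (nat_lit 20247240) (dlOf (nat_lit 1) (nat_lit 0x80080004002000200089d8c83))) 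
(.lf (nat_lit 537721800) (dlOf (nat_lit 1) (nat_lit 0x600280fbe81)))) (.nd (nat_lit 9) 
(.lf (nat_lit 60613832) (dlOf (nat_lit 1) (nat_lit 0x80080050002000600098c2d03))) 
(.lf (nat_lit 2754932424) (dlOf (nat_lit 2) (nat_lit 0x87059000044080150008007c002006000080f7303))))))))) 
(.nd (nat_lit 26) (.nd (nat_lit 15) (.nd (nat_lit 3) (.nd (nat_lit 30) (.nd (nat_lit 27) 
(.nd (nat_lit 29) 
(.lf (nat_lit 4563689472) (dlOf (nat_lit 6) (nat_lit 0x20178063c00800980cc02e840400700660173f02003803300b9a010002019805ccc0800f8008000c002003400080c0003))) 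
(.lf (nat_lit 2953076736) (dlOf (nat_lit 2) (nat_lit 0x2008002c3c0800180080024002000400080f0003)))) 
(.nd (nat_lit 6) (.nd (nat_lit 29) 
(.lf (nat_lit 4697907200) (dlOf (nat_lit 6) (nat_lit 0x20178071500800980cc02bc8040070066015e102003803300aeb0100020198057540800f8008000c002003400080c0003))) 
(.lf (nat_lit 939810816) (dlOf (nat_lit 4) (nat_lit 0x38098001804400c1304000402200608010001013002e4c080070008017800200300008180003)))) 
(.lf (nat_lit 402939968) (dlOf (nat_lit 2) (nat_lit 0x80000007402000200180b0501))))) 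
(.nd (nat_lit 6) (.nd (nat_lit 8) (.nd (nat_lit 20) 
(.lf (nat_lit 5637431296) (dlOf (nat_lit 1) (nat_lit 0x4004000200080e0002))) 
(.lf (nat_lit 1343512576) (dlOf (nat_lit 2) (nat_lit 0x204700299408022800801dc002006a0008280003)))) 
(.nd (nat_lit 7) (.lf (nat_lit 5771649280) (dlOf (nat_lit 1) (nat_lit 0x1c0018000a81))) 
(.lf (nat_lit 3489950080) (dlOf (nat_lit 1) (nat_lit 0x800200020008004e82))))) (.nd (nat_lit 19) 
(.lf (nat_lit 1342464064) (dlOf (nat_lit 1) (nat_lit 0x98008000c00200020008030d83))) 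
(.lf (nat_lit 1346134080) (dlOf (nat_lit 2) (nat_lit 0xb06c800281f00048e08002400400040008e60602)))))) 
(.nd (nat_lit 6) (.nd (nat_lit 30) (.nd (nat_lit 27) (.nd (nat_lit 29) 
(.lf (nat_lit 4563689480) (dlOf (nat_lit 1) (nat_lit 0x4004001200080c0002))) 
(.lf (nat_lit 805593096) (dlOf (nat_lit 2) (nat_lit 0x4007000474080008008002400200080008130483)))) 
(.nd (nat_lit 29) (.lf (nat_lit 4697907208) (dlOf (nat_lit 1) (nat_lit 0x4004001200080c0002))) 
(.nd (nat_lit 31) 
(.lf (nat_lit 939810824) (dlOf (nat_lit 2) (nat_lit 0x100000005e0080070008006000200220008180483))) 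
(.lf (nat_lit 3087294472) (dlOf (nat_lit 1) (nat_lit 0x40028170481)))))) (.nd (nat_lit 19) 
(.nd (nat_lit 8) (.nd (nat_lit 20) 
(.lf (nat_lit 1342464008) (dlOf (nat_lit 4) (nat_lit 0xe1d1000b00100200e88010073c00f838a001580600441d1003e0e280033c1002080080034002000e0008030483))) 
(.lf (nat_lit 1343512584) (dlOf (nat_lit 1) (nat_lit 0x94004001c0008280002)))) 
(.lf (nat_lit 3490996488) (dlOf (nat_lit 2) (nat_lit 0x87000004404000400400020018047302)))) 
(.nd (nat_lit 20) 
(.lf (nat_lit 1879859208) (dlOf (nat_lit 1) (nat_lit 0x80080004002000200083a0583))) 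
(.lf (nat_lit 1346134024) (dlOf (nat_lit 1) (nat_lit 0x8008000400200020008e60003)))))) 
(.nd (nat_lit 7) (.nd (nat_lit 8) (.nd (nat_lit 21) 
(.lf (nat_lit 1342464072) (dlOf (nat_lit 1) (nat_lit 0x1980080094002003a0008030f03))) 
(.lf (nat_lit 3492044872) (dlOf (nat_lit 1) (nat_lit 0x800280a0e01)))) 
(.lf (nat_lit 3490996552) (dlOf (nat_lit 1) (nat_lit 0x30008004c002000c0008047f03)))) 
(.nd (nat_lit 8) 
(.lf (nat_lit 3624168648) (dlOf (nat_lit 3) (nat_lit 0x1c0000000c808007000000046040050002000a0008146382))) 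
(.lf (nat_lit 5772173768) (dlOf (nat_lit 8) (nat_lit 0x211e0000b81000708f0000580800704780002204001c23c0001002000a11e0000201000708f0000080800584780008000000000400100018091101))))))) 
(.nd (nat_lit 3) (.nd (nat_lit 6) (.nd (nat_lit 27) (.nd (nat_lit 19) (.nd (nat_lit 20) 
(.nd (nat_lit 29) (.nd (nat_lit 30) 
(.lf (nat_lit 268754944) (dlOf (nat_lit 2) (nat_lit 0x1380540096029004d0138075e8180050008000400200060008120003))) 
(.lf (nat_lit 5637464064) (dlOf (nat_lit 1) (nat_lit 0x800801a4002005a00080f0003)))) 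
(.lf (nat_lit 1879367680) (dlOf (nat_lit 3) (nat_lit 0x90270064680800b013c031d004006c002000400080f0002)))) 
(.lf (nat_lit 1343545344) (dlOf (nat_lit 2) (nat_lit 0x1c0fc004e90200520008290001)))) 
(.lf (nat_lit 3492601856) (dlOf (nat_lit 4) (nat_lit 0x4a87e800e2a0403503f4007010200601fa0037e8180e0000)))) 
(.nd (nat_lit 8) (.lf (nat_lit 3087327232) (dlOf (nat_lit 1) (nat_lit 0x80028190001))) 
(.lf (nat_lit 5771682048) (dlOf (nat_lit 1) (nat_lit 0x800400060008000a82))))) (.nd (nat_lit 21) 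
(.nd (nat_lit 19) (.lf (nat_lit 4026851392) (dlOf (nat_lit 1) (nat_lit 0x1800280a0d01))) 
(.lf (nat_lit 1343021120) (dlOf (nat_lit 2) (nat_lit 0x312480025808006800800c8002010c0008130b83)))) 
(.nd (nat_lit 20) 
(.lf (nat_lit 3492601920) (dlOf (nat_lit 3) (nat_lit 0x988cc000dc0401c44680002102001400280e0e01))) 
(.lf (nat_lit 1346166848) (dlOf (nat_lit 2) (nat_lit 0x8f0a68083036402141b0012007c00123848e60600)))))) 
(.nd (nat_lit 19) (.nd (nat_lit 31) (.nd (nat_lit 29) (.nd (nat_lit 20) 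
(.lf (nat_lit 268754952) (dlOf (nat_lit 2) (nat_lit 0xa002a004c014801a009c03aea0c000800400060008120002))) 
(.lf (nat_lit 1343545352) (dlOf (nat_lit 3) (nat_lit 0x1303f0013a00800a01f8009ae04001000400180008290002)))) 
(.nd (nat_lit 32) 
(.lf (nat_lit 1879367688) (dlOf (nat_lit 3) (nat_lit 0x1000000af00100080278000000800200080048002001a00080f0003))) 
(.lf (nat_lit 6174334984) (dlOf (nat_lit 1) (nat_lit 0x20028100001))))) (.nd (nat_lit 7) 
(.nd (nat_lit 6) (.lf (nat_lit 3491029000) (dlOf (nat_lit 1) (nat_lit 0x400400020008050002))) 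
(.lf (nat_lit 3492077640) (dlOf (nat_lit 1) (nat_lit 0x4002000200080a0e02)))) (.nd (nat_lit 8) 
(.lf (nat_lit 3624201416) (dlOf (nat_lit 1) (nat_lit 0x40028146381))) 
(.lf (nat_lit 3489983944) (dlOf (nat_lit 1) (nat_lit 0x180018006d01)))))) (.nd (nat_lit 20) 
(.nd (nat_lit 7) 
(.lf (nat_lit 1343021064) (dlOf (nat_lit 3) (nat_lit 0x3c247000a5010003123800330080048008000c00200220008130483))) 
(.lf (nat_lit 1879894152) (dlOf (nat_lit 1) (nat_lit 0x200183d4801)))) (.nd (nat_lit 21) 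
(.lf (nat_lit 5773254664) (dlOf (nat_lit 1) (nat_lit 0x1900080004002004400080c0003))) 
(.lf (nat_lit 1346166792) (dlOf (nat_lit 2) (nat_lit 0x428600080cd0065f828e60000)))))))) 
(.nd (nat_lit 3) (.nd (nat_lit 15) (.nd (nat_lit 6) (.nd (nat_lit 29) (.nd (nat_lit 19) 
(.nd (nat_lit 20) 
(.lf (nat_lit 2617532416) (dlOf (nat_lit 1) (nat_lit 0x1300080050002001000080e0003))) 
(.lf (nat_lit 471097344) (dlOf (nat_lit 1) (nat_lit 0x40008270001)))) 
(.lf (nat_lit 3557580800) (dlOf (nat_lit 2) (nat_lit 0x1202000052018270000)))) (.nd (nat_lit 7) 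
(.nd (nat_lit 31) 
(.lf (nat_lit 2080661504) (dlOf (nat_lit 1) (nat_lit 0x100080004002000400080a0003))) 
(.lf (nat_lit 4228145152) (dlOf (nat_lit 2) (nat_lit 0x4c02c0037d818030000)))) 
(.lf (nat_lit 1946443904) (dlOf (nat_lit 1) (nat_lit 0x80028090081))))) (.nd (nat_lit 8) 
(.nd (nat_lit 27) (.nd (nat_lit 7) 
(.lf (nat_lit 335831104) (dlOf (nat_lit 2) (nat_lit 0x80000007402000200180b0501))) 
(.lf (nat_lit 3557060800) (dlOf (nat_lit 2) (nat_lit 0x280e0000e804003800400040008127f02)))) 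
(.nd (nat_lit 29) 
(.lf (nat_lit 470048832) (dlOf (nat_lit 1) (nat_lit 0x98008000c00200020008030d83))) 
(.lf (nat_lit 2080661568) (dlOf (nat_lit 5) (nat_lit 0x200a40006e040004052000360200080290001a8100040148000c8080048008000c002001a00080a1583))))) 
(.nd (nat_lit 9) 
(.lf (nat_lit 6376153408) (dlOf (nat_lit 5) (nat_lit 0x184400005a0400282200000602001611000001010005088000000080198008002400200660008090c03))) 
(.nd (nat_lit 12) 
(.lf (nat_lit 1410099008) (dlOf (nat_lit 1) (nat_lit 0x80080004002000200080f3e03))) 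
(.lf (nat_lit 3557062464) (dlOf (nat_lit 1) (nat_lit 0x168000812a101))))))) (.nd (nat_lit 29) 
(.nd (nat_lit 6) (.nd (nat_lit 30) (.nd (nat_lit 20) 
(.lf (nat_lit 474275840) (dlOf (nat_lit 1) (nat_lit 0x20009100001))) 
(.lf (nat_lit 471130112) (dlOf (nat_lit 1) (nat_lit 0x180018270001)))) (.nd (nat_lit 8) 
(.lf (nat_lit 3557613568) (dlOf (nat_lit 2) (nat_lit 0x30000013580800c000800e8002005a0008270003))) 
(.lf (nat_lit 1543823616) (dlOf (nat_lit 2) (nat_lit 0x80900044046004c60400040008187101))))) 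
(.nd (nat_lit 19) (.lf (nat_lit 474275904) (dlOf (nat_lit 1) (nat_lit 0x400200020009100502))) 
(.lf (nat_lit 470605888) (dlOf (nat_lit 2) (nat_lit 0x312480025808006800800c8002010c0008130b83))))) 
(.nd (nat_lit 27) (.nd (nat_lit 19) (.nd (nat_lit 30) 
(.lf (nat_lit 3020218368) (dlOf (nat_lit 1) (nat_lit 0x10800400280008180002))) 
(.lf (nat_lit 6241443840) (dlOf (nat_lit 1) (nat_lit 0x800801a4002005a00080f0003)))) 
(.lf (nat_lit 4096581632) (dlOf (nat_lit 1) (nat_lit 0x400200020008130002)))) (.nd (nat_lit 6) 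
(.nd (nat_lit 31) 
(.lf (nat_lit 1006952448) (dlOf (nat_lit 3) (nat_lit 0x902700719c0800b013c0388c04006c002000400080f0002))) 
(.lf (nat_lit 3154436096) (dlOf (nat_lit 1) (nat_lit 0x158008003800200360008190003)))) 
(.nd (nat_lit 21) 
(.lf (nat_lit 2080694336) (dlOf (nat_lit 18) (nat_lit 0x39801600073020ad00290322014010f00981600018000a00b00080048001c8300c500a40564018000710400e202901100060001c0100b600a404ac05000f002401910060084802c000de140008052007600c00037020025006000098080a580a4044805002ba00c01110058000882005080a40368050020e00c000108300a9014006680300004008002005000e600c0000f8200070060000780806a80a400ec050023200c0000e03015c014809780a00570018023400b0000d8400360148000680802000a400e8018000190400ce02800680058000001009880080548002072a00080b0503))) 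
(.lf (nat_lit 1009049664) (dlOf (nat_lit 2) (nat_lit 0x2406400035019020500)))))))) 
(.nd (nat_lit 15) (.nd (nat_lit 27) (.nd (nat_lit 7) (.nd (nat_lit 6) (.nd (nat_lit 8) 
(.lf (nat_lit 1409572872) (dlOf (nat_lit 1) (nat_lit 0xc0008030481))) 
(.lf (nat_lit 4094454536) (dlOf (nat_lit 2) (nat_lit 0x1308b000102040005c08004800400080008055b02)))) 
(.lf (nat_lit 2483314760) (dlOf (nat_lit 4) (nat_lit 0x520220001001001f01100002c08007808800014040010004000400080a0e02)))) 
(.nd (nat_lit 6) (.nd (nat_lit 11) 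
(.lf (nat_lit 5167669384) (dlOf (nat_lit 3) (nat_lit 0x1600e0001b0100100068000d40800380080004002001600080f0e03))) 
(.lf (nat_lit 1410099336) (dlOf (nat_lit 1) (nat_lit 0x1e400280f4801)))) 
(.lf (nat_lit 4094454728) (dlOf (nat_lit 1) (nat_lit 0x10008000400200020008055d83))))) 
(.nd (nat_lit 30) (.nd (nat_lit 6) (.nd (nat_lit 7) (.nd (nat_lit 20) 
(.lf (nat_lit 470048776) (dlOf (nat_lit 4) (nat_lit 0xe1d1000b00100200e88010073c00f838a001580600441d1003e0e280033c1002080080034002000e0008030483))) 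
(.lf (nat_lit 471097352) (dlOf (nat_lit 3) (nat_lit 0x81f8014f40400080fc00a680200480008270001)))) 
(.lf (nat_lit 472672648) (dlOf (nat_lit 1) (nat_lit 0x80018a44e81)))) 
(.lf (nat_lit 470048840) (dlOf (nat_lit 1) (nat_lit 0x1980080094002003a0008030f03)))) 
(.nd (nat_lit 6) (.nd (nat_lit 8) 
(.lf (nat_lit 4228145160) (dlOf (nat_lit 3) (nat_lit 0x20268002480800080a8000b004007c00200040008030582))) 
(.lf (nat_lit 5838758152) (dlOf (nat_lit 1) (nat_lit 0x8000081b0481)))) 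
(.lf (nat_lit 1543790664) (dlOf (nat_lit 1) (nat_lit 0x1040008170f01)))))) (.nd (nat_lit 30) 
(.nd (nat_lit 6) (.nd (nat_lit 8) (.nd (nat_lit 19) 
(.lf (nat_lit 1006952456) (dlOf (nat_lit 3) (nat_lit 0x1000000b9f0100080278000000800200080048002001a00080f0003))) 
(.lf (nat_lit 470605832) (dlOf (nat_lit 3) (nat_lit 0x3c247000a5010003123800330080048008000c00200220008130483)))) 
(.lf (nat_lit 473752840) (dlOf (nat_lit 1) (nat_lit 0x80028fa2f81)))) (.nd (nat_lit 21) 
(.nd (nat_lit 22) 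
(.lf (nat_lit 2483347528) (dlOf (nat_lit 2) (nat_lit 0xc020002a00e000080280c1480))) 
(.lf (nat_lit 474275912) (dlOf (nat_lit 1) (nat_lit 0x7400400180009100602)))) 
(.lf (nat_lit 1009049672) (dlOf (nat_lit 2) (nat_lit 0x406400023819020600))))) (.nd (nat_lit 8) 
(.nd (nat_lit 7) (.nd (nat_lit 19) 
(.lf (nat_lit 2080694280) (dlOf (nat_lit 2) (nat_lit 0xec05201bc402000200280b0001))) 
(.lf (nat_lit 6377234440) (dlOf (nat_lit 1) (nat_lit 0x1900080004002004400080c0003)))) 
(.lf (nat_lit 5704573064) (dlOf (nat_lit 2) (nat_lit 0x400460003202000c00180f0e01)))) 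
(.nd (nat_lit 6) (.lf (nat_lit 1543823624) (dlOf (nat_lit 1) (nat_lit 0x800400240008187302))) 
(.nd (nat_lit 10) (.lf (nat_lit 5838790984) (dlOf (nat_lit 1) (nat_lit 0x8002000200081b0602))) 
(.lf (nat_lit 3557094728) (dlOf (nat_lit 5) (nat_lit 0x500ca0026046001400e00291c1800c81a0006409200320480019010800c80800146a140028092000e0480051602001402480289c08006000800d8002000a0008129903)))))))))))) 
(.nd (nat_lit 15) (.nd (nat_lit 18) (.nd (nat_lit 6) (.nd (nat_lit 3) (.nd (nat_lit 30) 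
(.nd (nat_lit 21) (.nd (nat_lit 26) (.nd (nat_lit 7) (.nd (nat_lit 10) 
(.lf (nat_lit 55140352) (dlOf (nat_lit 1) (nat_lit 0x200196c0001))) 
(.lf (nat_lit 939615232) (dlOf (nat_lit 1) (nat_lit 0x160028142881)))) (.nd (nat_lit 8) 
(.lf (nat_lit 4563492992) (dlOf (nat_lit 2) (nat_lit 0x40198000000800c0008011000200160008090303))) 
(.lf (nat_lit 4563495296) (dlOf (nat_lit 2) (nat_lit 0x1802400d900200060028094e81))))) 
(.nd (nat_lit 8) (.nd (nat_lit 19) 
(.lf (nat_lit 872505344) (dlOf (nat_lit 1) (nat_lit 0x20018090001))) 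
(.lf (nat_lit 4362690560) (dlOf (nat_lit 1) (nat_lit 0x600080d0001)))) 
(.lf (nat_lit 474046720) (dlOf (nat_lit 1) (nat_lit 0x10008000400200020009000a83))))) 
(.nd (nat_lit 19) (.nd (nat_lit 7) 
(.lf (nat_lit 40984832) (dlOf (nat_lit 1) (nat_lit 0x100009202a01))) (.nd (nat_lit 8) 
(.lf (nat_lit 20018816) (dlOf (nat_lit 1) (nat_lit 0x1e00189d9d81))) 
(.lf (nat_lit 53569920) (dlOf (nat_lit 1) (nat_lit 0x18008000c002000a00095f4e83))))) 
(.nd (nat_lit 9) (.nd (nat_lit 20) 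
(.lf (nat_lit 15294464) (dlOf (nat_lit 1) (nat_lit 0x200187d0001))) 
(.lf (nat_lit 2755223552) (dlOf (nat_lit 1) (nat_lit 0x20018130001)))) 
(.lf (nat_lit 33122816) (dlOf (nat_lit 1) (nat_lit 0x30008001c00200020008f54f83)))))) 
(.nd (nat_lit 7) (.nd (nat_lit 19) (.nd (nat_lit 26) (.nd (nat_lit 27) 
(.lf (nat_lit 3221315584) (dlOf (nat_lit 1) (nat_lit 0x68008001000200020008090003))) 
(.lf (nat_lit 1744920576) (dlOf (nat_lit 1) (nat_lit 0x20018090001)))) 
(.lf (nat_lit 3959513088) (dlOf (nat_lit 1) (nat_lit 0x68008001000200020008090003)))) 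
(.nd (nat_lit 20) (.nd (nat_lit 26) 
(.lf (nat_lit 3892928512) (dlOf (nat_lit 1) (nat_lit 0x240008290001))) 
(.lf (nat_lit 4228472832) (dlOf (nat_lit 1) (nat_lit 0x600080d0001)))) 
(.lf (nat_lit 3493421056) (dlOf (nat_lit 1) (nat_lit 0x20018130001))))) (.nd (nat_lit 8) 
(.nd (nat_lit 9) 
(.lf (nat_lit 1611228288) (dlOf (nat_lit 2) (nat_lit 0x280340002204000400400060018122a82))) 
(.lf (nat_lit 6377007744) (dlOf (nat_lit 1) (nat_lit 0x400200020008095482)))) (.nd (nat_lit 9) 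
(.nd (nat_lit 26) (.lf (nat_lit 6308324736) (dlOf (nat_lit 1) (nat_lit 0x40018053581))) 
(.lf (nat_lit 5570127232) (dlOf (nat_lit 1) (nat_lit 0x40018053581)))) 
(.lf (nat_lit 5704346496) (dlOf (nat_lit 1) (nat_lit 0x400200020008055c02))))))) (.nd (nat_lit 28) 
(.nd (nat_lit 19) (.nd (nat_lit 7) (.nd (nat_lit 20) (.nd (nat_lit 9) (.nd (nat_lit 26) 
(.lf (nat_lit 6576758792) (dlOf (nat_lit 1) (nat_lit 0x2200080c0401))) 
(.lf (nat_lit 5972779016) (dlOf (nat_lit 1) (nat_lit 0x2200080c0401)))) (.nd (nat_lit 8) 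
(.lf (nat_lit 94728) (dlOf (nat_lit 1) (nat_lit 0x800400200018008682))) 
(.lf (nat_lit 1073833736) (dlOf (nat_lit 1) (nat_lit 0x400400020008003b82))))) (.nd (nat_lit 24) 
(.nd (nat_lit 22) (.nd (nat_lit 23) 
(.lf (nat_lit 2752602120) (dlOf (nat_lit 2) (nat_lit 0xc2b80000002000c0008020001))) 
(.lf (nat_lit 9527304) (dlOf (nat_lit 2) (nat_lit 0x78000002f004006000200060008560482)))) 
(.lf (nat_lit 47276040) (dlOf (nat_lit 1) (nat_lit 0x200193c0001)))) (.nd (nat_lit 8) 
(.lf (nat_lit 22110216) (dlOf (nat_lit 1) (nat_lit 0x140008a90481))) (.nd (nat_lit 9) 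
(.lf (nat_lit 20017416) (dlOf (nat_lit 1) (nat_lit 0x4a00289d8081))) 
(.lf (nat_lit 20015880) (dlOf (nat_lit 2) (nat_lit 0x26b3c0005211000170289d5b00))))))) 
(.nd (nat_lit 8) (.nd (nat_lit 10) 
(.lf (nat_lit 604070024) (dlOf (nat_lit 2) (nat_lit 0x200440183e04000800400040008010282))) 
(.nd (nat_lit 12) (.lf (nat_lit 93320) (dlOf (nat_lit 1) (nat_lit 0x10008000800200040008006183))) 
(.lf (nat_lit 97416) (dlOf (nat_lit 1) (nat_lit 0x80080064002000e000800c203))))) (.nd (nat_lit 9) 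
(.nd (nat_lit 10) (.lf (nat_lit 8479112) (dlOf (nat_lit 1) (nat_lit 0x20008511001))) 
(.lf (nat_lit 134311304) (dlOf (nat_lit 1) (nat_lit 0x160018006c81)))) 
(.lf (nat_lit 97160) (dlOf (nat_lit 1) (nat_lit 0x1000800040020006000800bc83)))))) 
(.nd (nat_lit 21) (.nd (nat_lit 9) (.nd (nat_lit 22) (.nd (nat_lit 26) 
(.lf (nat_lit 134832136) (dlOf (nat_lit 1) (nat_lit 0x200180c0801))) 
(.lf (nat_lit 201941000) (dlOf (nat_lit 1) (nat_lit 0x200180c0801)))) 
(.lf (nat_lit 55140360) (dlOf (nat_lit 1) (nat_lit 0x200196c0001)))) (.nd (nat_lit 7) 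
(.lf (nat_lit 617992) (dlOf (nat_lit 1) (nat_lit 0x400200020008007002))) 
(.lf (nat_lit 621192) (dlOf (nat_lit 1) (nat_lit 0xac001800b681))))) (.nd (nat_lit 20) 
(.nd (nat_lit 7) (.lf (nat_lit 19488776) (dlOf (nat_lit 1) (nat_lit 0x200089b0001))) 
(.lf (nat_lit 23683208) (dlOf (nat_lit 1) (nat_lit 0x400200020008b80102)))) (.nd (nat_lit 26) 
(.lf (nat_lit 3760136) (dlOf (nat_lit 3) (nat_lit 0x104c700c32810008263806190080010008010000200160008220003))) 
(.lf (nat_lit 2755223560) (dlOf (nat_lit 1) (nat_lit 0x180028130481))))))) (.nd (nat_lit 8) 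
(.nd (nat_lit 10) (.nd (nat_lit 19) (.nd (nat_lit 11) 
(.lf (nat_lit 3490799624) (dlOf (nat_lit 2) (nat_lit 0xc2ae0000002000c0008020001))) 
(.lf (nat_lit 3623970824) (dlOf (nat_lit 3) (nat_lit 0x481140034088001e03e000f01e002380dc003006a00120000002a07004801b800144080190008014400200140008004703)))) 
(.nd (nat_lit 20) (.lf (nat_lit 1881759752) (dlOf (nat_lit 1) (nat_lit 0x400400020009000002))) 
(.lf (nat_lit 3493421064) (dlOf (nat_lit 1) (nat_lit 0x180028130481))))) (.nd (nat_lit 9) 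
(.nd (nat_lit 11) (.lf (nat_lit 4697711624) (dlOf (nat_lit 2) (nat_lit 0x201200475018092880))) 
(.lf (nat_lit 5234584584) (dlOf (nat_lit 1) (nat_lit 0xc00200040008055f82)))) 
(.lf (nat_lit 6241216008) (dlOf (nat_lit 2) (nat_lit 0x40020001b018053680))))) (.nd (nat_lit 29) 
(.nd (nat_lit 7) 
(.lf (nat_lit 3623970568) (dlOf (nat_lit 5) (nat_lit 0x24c06e01980000000c82009701b806300000003008018406e016a0000000b02007001b805c8000000280802bc00202f20008003b82))) 
(.nd (nat_lit 20) (.lf (nat_lit 4697710984) (dlOf (nat_lit 1) (nat_lit 0x34004001e0008091002))) 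
(.lf (nat_lit 5772501384) (dlOf (nat_lit 1) (nat_lit 0x400400020018091002))))) (.nd (nat_lit 9) 
(.nd (nat_lit 11) (.lf (nat_lit 6378053896) (dlOf (nat_lit 1) (nat_lit 0x2000080f3581))) 
(.lf (nat_lit 939616520) (dlOf (nat_lit 1) (nat_lit 0x10008000400200020008144b83)))) 
(.lf (nat_lit 4026623752) (dlOf (nat_lit 2) (nat_lit 0x1e035000f018000c808c0008e0c000800200060008003b82)))))))) 
(.nd (nat_lit 3) (.nd (nat_lit 26) (.nd (nat_lit 7) (.nd (nat_lit 8) (.nd (nat_lit 19) 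
(.lf (nat_lit 3490799680) (dlOf (nat_lit 1) (nat_lit 0x10008005800200180008020783))) 
(.nd (nat_lit 20) 
(.lf (nat_lit 3221839936) (dlOf (nat_lit 2) (nat_lit 0x3fc08c018e045000000281a1400))) 
(.lf (nat_lit 10051648) (dlOf (nat_lit 6) (nat_lit 0x14400000012810078d0e802964cc02200000002306005e000000100100240000000600801a80000000a040004002001a00085b0782))))) 
(.nd (nat_lit 20) 
(.lf (nat_lit 3623970624) (dlOf (nat_lit 3) (nat_lit 0x2f406c007003400790000000b81804000ec03bc06c01e803400d70000000b42001c80080150002003e0008003e03))) 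
(.lf (nat_lit 3492898624) (dlOf (nat_lit 2) (nat_lit 0xc201c000168180f3e00))))) (.nd (nat_lit 8) 
(.nd (nat_lit 9) (.nd (nat_lit 12) 
(.lf (nat_lit 2952880320) (dlOf (nat_lit 1) (nat_lit 0x1080080054002000a0008010403))) 
(.lf (nat_lit 20017344) (dlOf (nat_lit 1) (nat_lit 0x1000289d7f01)))) 
(.lf (nat_lit 1744923328) (dlOf (nat_lit 1) (nat_lit 0x400200020008095782)))) (.nd (nat_lit 19) 
(.nd (nat_lit 21) 
(.lf (nat_lit 43082176) (dlOf (nat_lit 3) (nat_lit 0x175fe00003010004aff0000140800b00080058002001c00092a1083))) 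
(.lf (nat_lit 11624896) (dlOf (nat_lit 2) (nat_lit 0x6000000000186c0880)))) 
(.lf (nat_lit 3491324352) (dlOf (nat_lit 1) (nat_lit 0x7c00400480008090882)))))) (.nd (nat_lit 19) 
(.nd (nat_lit 8) (.nd (nat_lit 20) 
(.lf (nat_lit 1140940864) (dlOf (nat_lit 1) (nat_lit 0x10008000400200040008011583))) 
(.lf (nat_lit 2752602176) (dlOf (nat_lit 1) (nat_lit 0x10008005800200180008020783)))) 
(.nd (nat_lit 10) (.nd (nat_lit 27) 
(.lf (nat_lit 2483118400) (dlOf (nat_lit 1) (nat_lit 0x50008000800200040008014c03))) 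
(.lf (nat_lit 2348900672) (dlOf (nat_lit 1) (nat_lit 0x50008000800200040008014c03)))) 
(.lf (nat_lit 1812032832) (dlOf (nat_lit 1) (nat_lit 0x280028146901))))) (.nd (nat_lit 28) 
(.nd (nat_lit 7) (.nd (nat_lit 29) 
(.lf (nat_lit 201941056) (dlOf (nat_lit 1) (nat_lit 0x600080010002000200080c1783))) 
(.lf (nat_lit 3960037440) (dlOf (nat_lit 2) (nat_lit 0x4056000160181a1780)))) 
(.lf (nat_lit 2753126848) (dlOf (nat_lit 1) (nat_lit 0x7c00400480008090882)))) (.nd (nat_lit 21) 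
(.lf (nat_lit 474570816) (dlOf (nat_lit 2) (nat_lit 0xce15600710a1802904e801c0198000809600360420008f03001e80080100002002600091a0603))) 
(.lf (nat_lit 1009344576) (dlOf (nat_lit 1) (nat_lit 0x400200020009100502))))))) (.nd (nat_lit 28) 
(.nd (nat_lit 19) (.nd (nat_lit 8) (.nd (nat_lit 9) (.nd (nat_lit 26) 
(.lf (nat_lit 6442541128) (dlOf (nat_lit 2) (nat_lit 0x1e03a000501c0000801000500080018002000200080a0e03))) 
(.lf (nat_lit 5972779080) (dlOf (nat_lit 2) (nat_lit 0x7b006804a000000064080070004000400180c0e02)))) 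
(.lf (nat_lit 11625032) (dlOf (nat_lit 1) (nat_lit 0x4002000200086c1102)))) (.nd (nat_lit 7) 
(.nd (nat_lit 22) 
(.lf (nat_lit 1208049992) (dlOf (nat_lit 2) (nat_lit 0xe00a40002204000400400020008090c82))) 
(.lf (nat_lit 2755748168) (dlOf (nat_lit 1) (nat_lit 0x3000281b0601)))) 
(.lf (nat_lit 43082184) (dlOf (nat_lit 2) (nat_lit 0x1af68000895000040000000006000200092a1101))))) 
(.nd (nat_lit 26) (.nd (nat_lit 8) (.nd (nat_lit 12) 
(.lf (nat_lit 3221839944) (dlOf (nat_lit 6) (nat_lit 0x20228000b80800501180005404007808c000280200be0460001381005f0230000900800080080004002000200081a1483))) 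
(.lf (nat_lit 7958600) (dlOf (nat_lit 1) (nat_lit 0x400400020018517d82)))) (.nd (nat_lit 10) 
(.lf (nat_lit 23683400) (dlOf (nat_lit 2) (nat_lit 0x52c400020018b80600))) 
(.lf (nat_lit 1611228488) (dlOf (nat_lit 1) (nat_lit 0x8008000400200020008123303))))) 
(.nd (nat_lit 9) (.nd (nat_lit 29) 
(.lf (nat_lit 201941064) (dlOf (nat_lit 2) (nat_lit 0x2680000002202000800080c1881))) 
(.lf (nat_lit 3960037448) (dlOf (nat_lit 26) (nat_lit 0xe680bc073c05c001a00f000aa830007023800100bc002a6080380014000a10200b800a0005001008b0050002780802980280013a0401f40140009c02009e00a0004d010103005000264080818028001300401c80140009702012a00a0004b0100f4005000254080390028001280402dc0140009302015c00a000488100050050002200805400280010c0400180140008502020400a00040810020005000200080840028000e404007c08c0002202001e0460000d8102920230149811407b0086025204201f402000fa00e0017806600b8016002b0048000004805c000801a4002005800081a1883)))) 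
(.lf (nat_lit 2753126984) (dlOf (nat_lit 7) (nat_lit 0x2ec24c0001301016f126000094080b78930000480400104980002302026e24c0000b81010c12600004c0800d000801ac00200380008091103)))))) 
(.nd (nat_lit 27) (.nd (nat_lit 7) (.nd (nat_lit 9) (.nd (nat_lit 21) 
(.lf (nat_lit 1409900616) (dlOf (nat_lit 2) (nat_lit 0x260258000800800200080070002004400080a0e03))) 
(.lf (nat_lit 3492372552) (dlOf (nat_lit 1) (nat_lit 0x1600080c1481)))) 
(.lf (nat_lit 3491324488) (dlOf (nat_lit 7) (nat_lit 0x2ec2340001301016f11a000094080b788d0000480400104680002302026e2340000b81010c11a00004c0800d000801ac00200380008091103)))) 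
(.nd (nat_lit 8) (.lf (nat_lit 1342272200) (dlOf (nat_lit 1) (nat_lit 0x4002004a0008008c82))) 
(.nd (nat_lit 9) (.lf (nat_lit 335636936) (dlOf (nat_lit 1) (nat_lit 0x20028094e81))) 
(.lf (nat_lit 872506312) (dlOf (nat_lit 1) (nat_lit 0x120028092881)))))) (.nd (nat_lit 10) 
(.nd (nat_lit 8) (.nd (nat_lit 9) 
(.lf (nat_lit 939616328) (dlOf (nat_lit 1) (nat_lit 0x280018144701))) 
(.lf (nat_lit 2617336392) (dlOf (nat_lit 2) (nat_lit 0x40100000640801200080098002003800080a1583)))) 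
(.lf (nat_lit 3691077960) (dlOf (nat_lit 1) (nat_lit 0x160008010781)))) (.nd (nat_lit 21) 
(.nd (nat_lit 31) (.lf (nat_lit 939615304) (dlOf (nat_lit 1) (nat_lit 0x400400020008142882))) 
(.lf (nat_lit 3087098952) (dlOf (nat_lit 1) (nat_lit 0x8008000400200020008142883)))) 
(.lf (nat_lit 5773550664) (dlOf (nat_lit 1) (nat_lit 0x200280e2881))))))))) (.nd (nat_lit 3) 
(.nd (nat_lit 6) (.nd (nat_lit 27) (.nd (nat_lit 20) (.nd (nat_lit 8) (.nd (nat_lit 10) 
(.lf (nat_lit 335896576) (dlOf (nat_lit 1) (nat_lit 0x200280d0001))) 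
(.lf (nat_lit 38102016) (dlOf (nat_lit 1) (nat_lit 0xa0009132881)))) (.nd (nat_lit 9) 
(.lf (nat_lit 46489856) (dlOf (nat_lit 1) (nat_lit 0xaa0008032800200520009380a83))) 
(.lf (nat_lit 69561088) (dlOf (nat_lit 2) (nat_lit 0x701140006204000c004000c0018b45a82))))) 
(.nd (nat_lit 7) (.nd (nat_lit 21) 
(.lf (nat_lit 27090944) (dlOf (nat_lit 2) (nat_lit 0x21a1600bfc0200020028ca0001))) 
(.lf (nat_lit 12410880) (dlOf (nat_lit 2) (nat_lit 0x1d92001e740800400080008002000400086c0003)))) 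
(.nd (nat_lit 8) (.lf (nat_lit 58024064) (dlOf (nat_lit 1) (nat_lit 0x7c00297b3681))) 
(.lf (nat_lit 20278144) (dlOf (nat_lit 1) (nat_lit 0x4002000200089d5c02)))))) (.nd (nat_lit 26) 
(.nd (nat_lit 28) (.nd (nat_lit 29) 
(.lf (nat_lit 1208311808) (dlOf (nat_lit 1) (nat_lit 0x80080008002000200080c0003))) 
(.lf (nat_lit 671440896) (dlOf (nat_lit 1) (nat_lit 0xc00081a0001)))) 
(.lf (nat_lit 403005440) (dlOf (nat_lit 1) (nat_lit 0x200280d0001)))) (.nd (nat_lit 30) 
(.nd (nat_lit 20) (.nd (nat_lit 22) 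
(.lf (nat_lit 2617597952) (dlOf (nat_lit 4) (nat_lit 0x1180d00348a04008c06801a430200980120037e818100000))) 
(.lf (nat_lit 474308608) (dlOf (nat_lit 1) (nat_lit 0x60029140001)))) 
(.lf (nat_lit 471162880) (dlOf (nat_lit 1) (nat_lit 0xc004000200182a0002)))) (.nd (nat_lit 29) 
(.lf (nat_lit 1543856128) (dlOf (nat_lit 1) (nat_lit 0xc00081a0001))) 
(.lf (nat_lit 2080727040) (dlOf (nat_lit 1) (nat_lit 0x80080008002000200080c0003))))))) 
(.nd (nat_lit 19) (.nd (nat_lit 27) (.nd (nat_lit 8) (.nd (nat_lit 26) (.nd (nat_lit 29) 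
(.lf (nat_lit 2416271424) (dlOf (nat_lit 1) (nat_lit 0x400280c1781))) 
(.lf (nat_lit 4026884160) (dlOf (nat_lit 2) (nat_lit 0x36003c00064040004002000200080c1782)))) 
(.lf (nat_lit 3288686656) (dlOf (nat_lit 1) (nat_lit 0x200180c1401)))) (.nd (nat_lit 7) 
(.lf (nat_lit 3493160768) (dlOf (nat_lit 1) (nat_lit 0xc002002400080f3e02))) 
(.lf (nat_lit 23421376) (dlOf (nat_lit 1) (nat_lit 0xa0008b80881))))) (.nd (nat_lit 7) 
(.nd (nat_lit 26) (.lf (nat_lit 5234843712) (dlOf (nat_lit 1) (nat_lit 0x400400020008100482))) 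
(.lf (nat_lit 3154468928) (dlOf (nat_lit 1) (nat_lit 0x200181a0501)))) (.nd (nat_lit 8) 
(.lf (nat_lit 2818924736) (dlOf (nat_lit 1) (nat_lit 0x180080038002001a0008130403))) 
(.lf (nat_lit 2349169600) (dlOf (nat_lit 1) (nat_lit 0x1c00180fbe01)))))) (.nd (nat_lit 7) 
(.nd (nat_lit 10) (.nd (nat_lit 20) 
(.lf (nat_lit 21848128) (dlOf (nat_lit 9) (nat_lit 0x140000000b8080208000000580402a00000002502000dc980019dcb80046e54017dd780008e6a0005722000ea684016400000023100006ebc00044d0800088100277260016772a0096ebc0056722002500000004014003f97a00940000000c020043000000014080110008007c002007e0008a70783))) 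
(.lf (nat_lit 1346199616) (dlOf (nat_lit 2) (nat_lit 0x1e160000a0a6804f8364002c1b0001408d000a03e80091c30076800800d4002002e0008e60603)))) 
(.nd (nat_lit 8) (.lf (nat_lit 58549312) (dlOf (nat_lit 1) (nat_lit 0x18002000a00097e2882))) 
(.lf (nat_lit 19756352) (dlOf (nat_lit 1) (nat_lit 0xe00289d9901))))) (.nd (nat_lit 9) 
(.nd (nat_lit 11) 
(.lf (nat_lit 58549440) (dlOf (nat_lit 16) (nat_lit 0x244000012030004ce820006709000170400044400002a030001ce820006709000160400034400001a0300003e0800051740008880000440600007418001a200000d01800367410000c0300093a080005008003a2000005018003274100009830008440000420300002008000d100000680c00006020004440000028080012200000120400410fe002080b000140500071d040001010004ce820000602001a87f000e40580000810000a2e400310fe000287e000d40580099d040000014001c002001600097e2d02))) 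
(.lf (nat_lit 19758272) (dlOf (nat_lit 1) (nat_lit 0x10004000400089dc202)))) (.nd (nat_lit 8) 
(.nd (nat_lit 11) (.lf (nat_lit 8217280) (dlOf (nat_lit 1) (nat_lit 0xe0028511e81))) 
(.lf (nat_lit 19757760) (dlOf (nat_lit 1) (nat_lit 0x4002000200089db982)))) 
(.lf (nat_lit 8217536) (dlOf (nat_lit 1) (nat_lit 0x8e0018512781)))))))) (.nd (nat_lit 28) 
(.nd (nat_lit 19) (.nd (nat_lit 27) (.nd (nat_lit 20) (.nd (nat_lit 26) (.nd (nat_lit 21) 
(.lf (nat_lit 4832190472) (dlOf (nat_lit 1) (nat_lit 0x400400020018100002))) 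
(.lf (nat_lit 15032328) (dlOf (nat_lit 1) (nat_lit 0x200087b0281)))) (.nd (nat_lit 30) 
(.lf (nat_lit 4362428424) (dlOf (nat_lit 2) (nat_lit 0x101980522c080100008008400200520008070503))) 
(.lf (nat_lit 3288686600) (dlOf (nat_lit 2) (nat_lit 0x1019002bec0800c8008000c002005800080c0803))))) 
(.nd (nat_lit 6) (.nd (nat_lit 7) (.nd (nat_lit 22) 
(.lf (nat_lit 37052424) (dlOf (nat_lit 1) (nat_lit 0x400400020009090002))) 
(.lf (nat_lit 16080904) (dlOf (nat_lit 1) (nat_lit 0x20008002c00200080008860283)))) 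
(.lf (nat_lit 11886728) (dlOf (nat_lit 1) (nat_lit 0x80080004002000200086c0103)))) 
(.lf (nat_lit 11886920) (dlOf (nat_lit 1) (nat_lit 0x200186c0601))))) (.nd (nat_lit 6) 
(.nd (nat_lit 26) (.nd (nat_lit 29) (.nd (nat_lit 30) 
(.lf (nat_lit 134569992) (dlOf (nat_lit 1) (nat_lit 0xa0028080001))) 
(.lf (nat_lit 3355795464) (dlOf (nat_lit 2) (nat_lit 0x15006400cb50200020018120001)))) 
(.lf (nat_lit 671440904) (dlOf (nat_lit 2) (nat_lit 0x300000029e04015400200ae00081a0482)))) 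
(.lf (nat_lit 201678856) (dlOf (nat_lit 1) (nat_lit 0xa0028080001)))) (.nd (nat_lit 29) 
(.nd (nat_lit 8) (.lf (nat_lit 1208312008) (dlOf (nat_lit 1) (nat_lit 0x200180c1b81))) 
(.lf (nat_lit 2349169608) (dlOf (nat_lit 1) (nat_lit 0x400080034002001600080fbe83)))) 
(.nd (nat_lit 7) 
(.lf (nat_lit 2818924616) (dlOf (nat_lit 1) (nat_lit 0x40008000400200220008130103))) 
(.lf (nat_lit 1745182920) (dlOf (nat_lit 1) (nat_lit 0x180080010002000600080c1b83))))))) 
(.nd (nat_lit 20) (.nd (nat_lit 21) (.nd (nat_lit 7) 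
(.lf (nat_lit 2819448840) (dlOf (nat_lit 1) (nat_lit 0x400400060018290282))) 
(.lf (nat_lit 17653896) (dlOf (nat_lit 1) (nat_lit 0x180080018002001000088e0483)))) 
(.nd (nat_lit 6) (.nd (nat_lit 22) 
(.lf (nat_lit 28139528) (dlOf (nat_lit 1) (nat_lit 0x10008001800200020008d60003))) 
(.lf (nat_lit 15556616) (dlOf (nat_lit 1) (nat_lit 0x298008000400200020008800283)))) 
(.lf (nat_lit 19756104) (dlOf (nat_lit 1) (nat_lit 0x14004000200089d9302))))) (.nd (nat_lit 22) 
(.nd (nat_lit 7) (.nd (nat_lit 24) 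
(.lf (nat_lit 10313736) (dlOf (nat_lit 1) (nat_lit 0x4004000800085d0482))) 
(.lf (nat_lit 27090952) (dlOf (nat_lit 2) (nat_lit 0x3736380031604007800400760008ca0482)))) 
(.lf (nat_lit 43868552) (dlOf (nat_lit 1) (nat_lit 0x100080018002000400092a1003)))) 
(.nd (nat_lit 6) (.nd (nat_lit 9) 
(.lf (nat_lit 31285256) (dlOf (nat_lit 1) (nat_lit 0x14000400040008e80002))) 
(.lf (nat_lit 8223240) (dlOf (nat_lit 1) (nat_lit 0x28008002c002001a000851b283)))) 
(.lf (nat_lit 58550728) (dlOf (nat_lit 3) (nat_lit 0x243880304c08001a1c401822040054002000800097e4e82))))))) 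
(.nd (nat_lit 27) (.nd (nat_lit 7) (.nd (nat_lit 6) (.nd (nat_lit 19) (.nd (nat_lit 20) 
(.nd (nat_lit 29) (.lf (nat_lit 1342529544) (dlOf (nat_lit 1) (nat_lit 0x2000400460008050582))) 
(.lf (nat_lit 4026884104) (dlOf (nat_lit 2) (nat_lit 0x10190015480800c8008000c002005800080c0803)))) 
(.lf (nat_lit 3491061768) (dlOf (nat_lit 1) (nat_lit 0x6c0018050001)))) 
(.lf (nat_lit 3557646344) (dlOf (nat_lit 1) (nat_lit 0x400400060018290282)))) (.nd (nat_lit 12) 
(.lf (nat_lit 3492110408) (dlOf (nat_lit 2) (nat_lit 0x140db000100180a0e00))) 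
(.lf (nat_lit 1344106568) (dlOf (nat_lit 1) (nat_lit 0xc00183d7d81))))) (.nd (nat_lit 11) 
(.nd (nat_lit 26) 
(.lf (nat_lit 5637496968) (dlOf (nat_lit 2) (nat_lit 0x2004c0003402000200180f0e01))) 
(.lf (nat_lit 872767624) (dlOf (nat_lit 3) (nat_lit 0xb00b00160044000480802a805a0000002000400180c0e01)))) 
(.nd (nat_lit 6) (.lf (nat_lit 3493161096) (dlOf (nat_lit 1) (nat_lit 0xec00080f4801))) 
(.lf (nat_lit 4094520264) (dlOf (nat_lit 1) (nat_lit 0x20018055d81)))))) (.nd (nat_lit 7) 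
(.nd (nat_lit 29) (.nd (nat_lit 30) (.nd (nat_lit 31) 
(.lf (nat_lit 470114312) (dlOf (nat_lit 1) (nat_lit 0x2000400460008050582))) 
(.lf (nat_lit 2617597960) (dlOf (nat_lit 5) (nat_lit 0x1802c0046f810029007801dd808008003c00eea040050068000000200300028100001)))) 
(.lf (nat_lit 1543856136) (dlOf (nat_lit 2) (nat_lit 0x30000003c004015400200ae00081a0482)))) 
(.nd (nat_lit 30) (.lf (nat_lit 3154468872) (dlOf (nat_lit 1) (nat_lit 0x2800081a0001))) 
(.lf (nat_lit 4228210696) (dlOf (nat_lit 2) (nat_lit 0x10190057c4080100008008400200520008070503))))) 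
(.nd (nat_lit 6) (.nd (nat_lit 8) 
(.lf (nat_lit 3691339912) (dlOf (nat_lit 2) (nat_lit 0x580000000004005c002007a0008160482))) 
(.lf (nat_lit 5773814152) (dlOf (nat_lit 1) (nat_lit 0x4004000200080e4e82)))) (.nd (nat_lit 10) 
(.nd (nat_lit 22) (.lf (nat_lit 2080727240) (dlOf (nat_lit 1) (nat_lit 0x2600280c1781))) 
(.lf (nat_lit 474308808) (dlOf (nat_lit 1) (nat_lit 0x20019145881)))) 
(.lf (nat_lit 3624234184) (dlOf (nat_lit 4) (nat_lit 0x98074001802c00040000001903000600000008c0800600000004404014400200220008146382)))))))))) 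
(.nd (nat_lit 18) (.nd (nat_lit 6) (.nd (nat_lit 28) (.nd (nat_lit 19) (.nd (nat_lit 30) 
(.nd (nat_lit 22) (.nd (nat_lit 7) (.nd (nat_lit 8) (.nd (nat_lit 11) 
(.lf (nat_lit 9560072) (dlOf (nat_lit 1) (nat_lit 0x40008006400200040008560483))) 
(.lf (nat_lit 8513544) (dlOf (nat_lit 1) (nat_lit 0x1000400020008514702)))) (.nd (nat_lit 20) 
(.lf (nat_lit 738323208) (dlOf (nat_lit 2) (nat_lit 0x240a40002e02000a0018095b01))) 
(.lf (nat_lit 20048648) (dlOf (nat_lit 1) (nat_lit 0x80080014002000200089d5b03))))) 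
(.nd (nat_lit 8) 
(.lf (nat_lit 4966178952) (dlOf (nat_lit 2) (nat_lit 0x28042000360200040028030e01))) 
(.nd (nat_lit 10) (.lf (nat_lit 8511880) (dlOf (nat_lit 1) (nat_lit 0x4c00400140008511002))) 
(.lf (nat_lit 6509686152) (dlOf (nat_lit 1) (nat_lit 0xa0018146c81)))))) (.nd (nat_lit 3) 
(.nd (nat_lit 23) (.lf (nat_lit 21094400) (dlOf (nat_lit 1) (nat_lit 0x400200020008a10002))) 
(.lf (nat_lit 12705792) (dlOf (nat_lit 1) (nat_lit 0x10600086d0001)))) (.nd (nat_lit 10) 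
(.nd (nat_lit 20) (.lf (nat_lit 21094408) (dlOf (nat_lit 1) (nat_lit 0x2e0018a10481))) 
(.lf (nat_lit 22142984) (dlOf (nat_lit 1) (nat_lit 0x2a0028a90481)))) 
(.lf (nat_lit 38921224) (dlOf (nat_lit 1) (nat_lit 0x20019192881)))))) (.nd (nat_lit 7) 
(.nd (nat_lit 10) (.nd (nat_lit 26) (.nd (nat_lit 27) 
(.lf (nat_lit 5368832008) (dlOf (nat_lit 1) (nat_lit 0x70008002c00200160008030003))) 
(.lf (nat_lit 5503049736) (dlOf (nat_lit 1) (nat_lit 0x70008002c00200160008030003)))) 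
(.nd (nat_lit 3) 
(.lf (nat_lit 5435940864) (dlOf (nat_lit 3) (nat_lit 0x240000185202000400000c28018040000))) 
(.lf (nat_lit 5435940872) (dlOf (nat_lit 2) (nat_lit 0xa0000046d018040000))))) (.nd (nat_lit 32) 
(.lf (nat_lit 1610736648) (dlOf (nat_lit 1) (nat_lit 0x40028092881))) 
(.lf (nat_lit 5905703944) (dlOf (nat_lit 1) (nat_lit 0x40018142881))))) (.nd (nat_lit 10) 
(.nd (nat_lit 11) 
(.lf (nat_lit 5503049864) (dlOf (nat_lit 7) (nat_lit 0x10c015038100a01c0004c0bd0022014001000a50070000d830023005c037c02c01a4015000600a0007004c001002401cc010001e00780798038040001000a200100090000000d46004380540da402806cc01302d500880410040021c01c000340c000801400160098000b81004900540df8028070001302f40088051804002a001c0002b0c00ec014007100980160044000540c000800400040018030e02))) 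
(.lf (nat_lit 1677846664) (dlOf (nat_lit 1) (nat_lit 0xc00200160008114802)))) 
(.lf (nat_lit 3221355656) (dlOf (nat_lit 1) (nat_lit 0x1280040016000811c202)))))) (.nd (nat_lit 3) 
(.nd (nat_lit 21) (.nd (nat_lit 8) 
(.lf (nat_lit 59367424) (dlOf (nat_lit 1) (nat_lit 0x400197f0001))) 
(.lf (nat_lit 50979072) (dlOf (nat_lit 1) (nat_lit 0x600094e7a81)))) (.nd (nat_lit 20) 
(.nd (nat_lit 22) (.lf (nat_lit 27910144) (dlOf (nat_lit 1) (nat_lit 0x8008000400200020008d40003))) 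
(.lf (nat_lit 32104448) (dlOf (nat_lit 1) (nat_lit 0x1a0028ef0001)))) 
(.lf (nat_lit 16375808) (dlOf (nat_lit 2) (nat_lit 0x115ac00ca00400a800400020008890002))))) 
(.nd (nat_lit 21) (.nd (nat_lit 8) 
(.lf (nat_lit 4362723336) (dlOf (nat_lit 1) (nat_lit 0x4c002007600080e0582))) 
(.lf (nat_lit 50979080) (dlOf (nat_lit 2) (nat_lit 0x79d1000000040008004000600094e7c02)))) 
(.nd (nat_lit 20) (.lf (nat_lit 11132936) (dlOf (nat_lit 2) (nat_lit 0xf84b00000018660000))) 
(.lf (nat_lit 3792904) (dlOf (nat_lit 5) (nat_lit 0x2ecf80017508010ca080007b520005da50002ecf8001f508010c810000fb520009da50007ecf8003f508010c610000fb520009da50007ecf8003f508010c010000800200060008220002))))))) 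
(.nd (nat_lit 3) (.nd (nat_lit 19) (.nd (nat_lit 7) (.nd (nat_lit 20) 
(.lf (nat_lit 5301723136) (dlOf (nat_lit 3) (nat_lit 0x2400001bcb02000400000de4818040000))) 
(.lf (nat_lit 1880219648) (dlOf (nat_lit 1) (nat_lit 0x4200287d0001)))) (.nd (nat_lit 11) 
(.lf (nat_lit 3154239616) (dlOf (nat_lit 1) (nat_lit 0x400200020008123682))) 
(.lf (nat_lit 939649152) (dlOf (nat_lit 1) (nat_lit 0x400400020008144782))))) (.nd (nat_lit 27) 
(.nd (nat_lit 20) (.nd (nat_lit 21) 
(.lf (nat_lit 1342824448) (dlOf (nat_lit 1) (nat_lit 0xb8008000c002002800080e0003))) 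
(.lf (nat_lit 1344921600) (dlOf (nat_lit 2) (nat_lit 0xa05e8053b008002000800ac002000e0008990003)))) 
(.lf (nat_lit 4095336448) (dlOf (nat_lit 1) (nat_lit 0x10008000400200020008090003)))) 
(.nd (nat_lit 8) (.nd (nat_lit 21) 
(.lf (nat_lit 470409216) (dlOf (nat_lit 1) (nat_lit 0xb8008000c002002800080e0003))) 
(.lf (nat_lit 1009377280) (dlOf (nat_lit 1) (nat_lit 0x80029140001)))) 
(.lf (nat_lit 1007280384) (dlOf (nat_lit 1) (nat_lit 0x1800182e0701)))))) (.nd (nat_lit 7) 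
(.nd (nat_lit 31) (.nd (nat_lit 29) (.nd (nat_lit 10) 
(.lf (nat_lit 471457800) (dlOf (nat_lit 1) (nat_lit 0xda0018300581))) 
(.lf (nat_lit 402777096) (dlOf (nat_lit 1) (nat_lit 0x1020018092881)))) (.nd (nat_lit 27) 
(.lf (nat_lit 5167505416) (dlOf (nat_lit 1) (nat_lit 0x400400d00008070002))) 
(.lf (nat_lit 5301723144) (dlOf (nat_lit 2) (nat_lit 0xa000006bf018040000))))) (.nd (nat_lit 8) 
(.nd (nat_lit 10) (.lf (nat_lit 4228505608) (dlOf (nat_lit 1) (nat_lit 0x4c002007600080e0582))) 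
(.lf (nat_lit 3087131656) (dlOf (nat_lit 1) (nat_lit 0x160028142881)))) 
(.lf (nat_lit 3154239752) (dlOf (nat_lit 1) (nat_lit 0x8008000400200020008127c03))))) 
(.nd (nat_lit 10) (.nd (nat_lit 8) (.nd (nat_lit 11) 
(.lf (nat_lit 5167505544) (dlOf (nat_lit 4) (nat_lit 0xe0220001a8100040138002005c0006208002802e0003002000c0008070f01))) 
(.lf (nat_lit 469887112) (dlOf (nat_lit 1) (nat_lit 0x20018004801)))) 
(.lf (nat_lit 5100396936) (dlOf (nat_lit 1) (nat_lit 0x180028051001)))) (.nd (nat_lit 9) 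
(.lf (nat_lit 805436552) (dlOf (nat_lit 1) (nat_lit 0x18008000c0020016000811c203))) 
(.lf (nat_lit 4095862408) (dlOf (nat_lit 1) (nat_lit 0x4002000200080e3a02)))))))) (.nd (nat_lit 29) 
(.nd (nat_lit 31) (.nd (nat_lit 3) (.nd (nat_lit 7) (.nd (nat_lit 20) (.nd (nat_lit 22) 
(.nd (nat_lit 26) 
(.lf (nat_lit 1342824512) (dlOf (nat_lit 1) (nat_lit 0x8008005c002001600080e0c83))) 
(.lf (nat_lit 470409280) (dlOf (nat_lit 1) (nat_lit 0x8008005c002001600080e0c83)))) 
(.lf (nat_lit 21618752) (dlOf (nat_lit 1) (nat_lit 0x10008001400200040008a51683)))) 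
(.nd (nat_lit 21) (.lf (nat_lit 10084416) (dlOf (nat_lit 1) (nat_lit 0x80080004002000a00085b0783))) 
(.lf (nat_lit 3792960) (dlOf (nat_lit 1) (nat_lit 0x8008000400200020008220c83))))) 
(.nd (nat_lit 10) (.nd (nat_lit 22) 
(.lf (nat_lit 1476518080) (dlOf (nat_lit 2) (nat_lit 0x901e000080e40016608004400400020008010402))) 
(.lf (nat_lit 4317376) (dlOf (nat_lit 1) (nat_lit 0x400400020008290402)))) 
(.lf (nat_lit 32105664) (dlOf (nat_lit 1) (nat_lit 0x10008000800200020008ef2d03))))) 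
(.nd (nat_lit 7) (.nd (nat_lit 8) (.nd (nat_lit 19) 
(.lf (nat_lit 24240200) (dlOf (nat_lit 1) (nat_lit 0x20028b90e01))) 
(.lf (nat_lit 1409933384) (dlOf (nat_lit 1) (nat_lit 0x1c00280a0e01)))) 
(.lf (nat_lit 20048712) (dlOf (nat_lit 1) (nat_lit 0x4002000200089d5c02)))) (.nd (nat_lit 9) 
(.lf (nat_lit 1543630280) (dlOf (nat_lit 2) (nat_lit 0x20000002f818146d00))) 
(.lf (nat_lit 49931208) (dlOf (nat_lit 1) (nat_lit 0xc00294c2881)))))) (.nd (nat_lit 26) 
(.nd (nat_lit 3) (.nd (nat_lit 30) (.nd (nat_lit 27) 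
(.lf (nat_lit 2416042048) (dlOf (nat_lit 4) (nat_lit 0x2805c0004a040008048002601f005000e00008c180048090004c03e0002004017e0008020781))) 
(.lf (nat_lit 2550259776) (dlOf (nat_lit 4) (nat_lit 0x2805c0004a04000804c002601f005000e80008c180048098004c03e0002004017e0008020781)))) 
(.nd (nat_lit 7) (.lf (nat_lit 3490832448) (dlOf (nat_lit 1) (nat_lit 0x400400020008020782))) 
(.lf (nat_lit 3489791168) (dlOf (nat_lit 1) (nat_lit 0x40040002000800c202))))) (.nd (nat_lit 8) 
(.lf (nat_lit 3221872712) (dlOf (nat_lit 1) (nat_lit 0x600181a1481))) 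
(.lf (nat_lit 3221355848) (dlOf (nat_lit 1) (nat_lit 0x48008001c0020012000811c903))))) 
(.nd (nat_lit 3) (.nd (nat_lit 27) (.nd (nat_lit 28) 
(.lf (nat_lit 3288457280) (dlOf (nat_lit 6) (nat_lit 0x1401a80009808003804c0004a040178026000230200320350000e81000101a803c008000030080038004001c0018020782))) 
(.lf (nat_lit 2483150912) (dlOf (nat_lit 2) (nat_lit 0x4a805402860280034008001a803c007001c000200d0009006000000380010008004000200060008030d83)))) 
(.lf (nat_lit 2348933184) (dlOf (nat_lit 2) (nat_lit 0x4a805402860280034008001a803c007001c000200d0009006000000380010008004000200060008030d83)))) 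
(.nd (nat_lit 8) 
(.lf (nat_lit 3288457288) (dlOf (nat_lit 1) (nat_lit 0x8008000400200020008020883))) 
(.lf (nat_lit 6509686088) (dlOf (nat_lit 1) (nat_lit 0x20018146981))))))) (.nd (nat_lit 3) 
(.nd (nat_lit 7) (.nd (nat_lit 9) (.nd (nat_lit 20) 
(.lf (nat_lit 4026654784) (dlOf (nat_lit 6) (nat_lit 0x1401a80009808003804c0004a040178026000230200320350000e81000101a803c008000030080038004001c0018020782))) 
(.lf (nat_lit 2752634944) (dlOf (nat_lit 1) (nat_lit 0x400400020008020782)))) (.nd (nat_lit 10) 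
(.nd (nat_lit 27) 
(.lf (nat_lit 1677851200) (dlOf (nat_lit 4) (nat_lit 0x601580030026000660400380560003281001e02b000f004c00000080094004001c001811b482))) 
(.lf (nat_lit 3959552576) (dlOf (nat_lit 5) (nat_lit 0x60460002020000600e0006c02c0007708001404600050218001d81000180bc000e204009008c004e045000802100000018000800800300020012000811b483)))) 
(.lf (nat_lit 805432896) (dlOf (nat_lit 1) (nat_lit 0x2000200100008117182))))) (.nd (nat_lit 11) 
(.nd (nat_lit 8) (.nd (nat_lit 26) 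
(.lf (nat_lit 2952913088) (dlOf (nat_lit 1) (nat_lit 0x4000200020008010402))) 
(.lf (nat_lit 5167505600) (dlOf (nat_lit 1) (nat_lit 0x80028071b01)))) 
(.lf (nat_lit 4094288320) (dlOf (nat_lit 4) (nat_lit 0xe07f0010981000803f80081c0800201fc004060400cc00400180018037002)))) 
(.nd (nat_lit 9) 
(.lf (nat_lit 1677846720) (dlOf (nat_lit 1) (nat_lit 0x80080028002000e0008114903))) 
(.nd (nat_lit 10) 
(.lf (nat_lit 1744956096) (dlOf (nat_lit 1) (nat_lit 0x8008000400200020008095783))) 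
(.lf (nat_lit 805433024) (dlOf (nat_lit 1) (nat_lit 0xc00200160008117282))))))) (.nd (nat_lit 11) 
(.nd (nat_lit 28) (.nd (nat_lit 7) (.nd (nat_lit 10) 
(.lf (nat_lit 537518152) (dlOf (nat_lit 1) (nat_lit 0x284002006000080a0e82))) 
(.lf (nat_lit 1610736712) (dlOf (nat_lit 1) (nat_lit 0x20008092881)))) 
(.lf (nat_lit 2751587272) (dlOf (nat_lit 1) (nat_lit 0x20008002881)))) (.nd (nat_lit 7) 
(.nd (nat_lit 19) 
(.lf (nat_lit 4026654792) (dlOf (nat_lit 1) (nat_lit 0x8008000400200020008020883))) 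
(.lf (nat_lit 805953608) (dlOf (nat_lit 1) (nat_lit 0xc400400200018201482)))) 
(.lf (nat_lit 1881268680) (dlOf (nat_lit 5) (nat_lit 0x681940001e0400200ca0000702000c065000020100090ac800481940000008000400400240018e81102))))) 
(.nd (nat_lit 10) (.nd (nat_lit 7) 
(.lf (nat_lit 1677851208) (dlOf (nat_lit 1) (nat_lit 0x14001811b581))) (.nd (nat_lit 8) 
(.lf (nat_lit 6377564872) (dlOf (nat_lit 1) (nat_lit 0x1a600280e5801))) 
(.lf (nat_lit 738323400) (dlOf (nat_lit 2) (nat_lit 0x1201c0000e818095d80))))) (.nd (nat_lit 8) 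
(.nd (nat_lit 9) (.lf (nat_lit 1812065352) (dlOf (nat_lit 1) (nat_lit 0x14400400780018146082))) 
(.lf (nat_lit 805432904) (dlOf (nat_lit 1) (nat_lit 0x800200140008117182)))) 
(.lf (nat_lit 805436744) (dlOf (nat_lit 1) (nat_lit 0x3800800080020004000811c903))))))))) 
(.nd (nat_lit 3) (.nd (nat_lit 28) (.nd (nat_lit 21) (.nd (nat_lit 26) (.nd (nat_lit 7) 
(.nd (nat_lit 6) (.nd (nat_lit 10) 
(.lf (nat_lit 3221610496) (dlOf (nat_lit 2) (nat_lit 0x3023000ad80801d00080060002005a0008160003))) 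
(.lf (nat_lit 38134784) (dlOf (nat_lit 1) (nat_lit 0x4002000e0009132882)))) 
(.lf (nat_lit 1610997824) (dlOf (nat_lit 2) (nat_lit 0x9240aa04520370001c0280b0500)))) 
(.nd (nat_lit 8) 
(.lf (nat_lit 6152320) (dlOf (nat_lit 2) (nat_lit 0x154740000004000400400020018420482))) 
(.nd (nat_lit 11) (.lf (nat_lit 134603136) (dlOf (nat_lit 1) (nat_lit 0x20018090781))) 
(.lf (nat_lit 1745217920) (dlOf (nat_lit 1) (nat_lit 0xe400280e4e81)))))) (.nd (nat_lit 27) 
(.nd (nat_lit 7) (.nd (nat_lit 30) 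
(.lf (nat_lit 4899332096) (dlOf (nat_lit 1) (nat_lit 0x60018120001))) 
(.lf (nat_lit 1678106624) (dlOf (nat_lit 1) (nat_lit 0x200028190001)))) 
(.lf (nat_lit 4362461312) (dlOf (nat_lit 1) (nat_lit 0x8008000800200020008090083)))) 
(.nd (nat_lit 6) 
(.lf (nat_lit 3959808000) (dlOf (nat_lit 2) (nat_lit 0x3023000b100801d00080060002005a0008160003))) 
(.lf (nat_lit 738582592) (dlOf (nat_lit 2) (nat_lit 0x9240aa04520370001b0280b0500)))))) 
(.nd (nat_lit 9) (.nd (nat_lit 20) (.nd (nat_lit 6) 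
(.lf (nat_lit 44425216) (dlOf (nat_lit 1) (nat_lit 0xc004000e0019310002))) 
(.lf (nat_lit 44425280) (dlOf (nat_lit 1) (nat_lit 0x80019310d81)))) (.nd (nat_lit 7) 
(.lf (nat_lit 37085184) (dlOf (nat_lit 1) (nat_lit 0x2c00200020009090002))) 
(.lf (nat_lit 2755518592) (dlOf (nat_lit 1) (nat_lit 0x58002000200081b0082))))) (.nd (nat_lit 11) 
(.nd (nat_lit 8) (.lf (nat_lit 2755518976) (dlOf (nat_lit 1) (nat_lit 0x400181b0d81))) 
(.lf (nat_lit 8251136) (dlOf (nat_lit 1) (nat_lit 0x8008000400200020008513b83)))) (.nd (nat_lit 6) 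
(.lf (nat_lit 20310912) (dlOf (nat_lit 1) (nat_lit 0x4002000200089d5c02))) 
(.lf (nat_lit 54389568) (dlOf (nat_lit 1) (nat_lit 0x320019655c01))))))) (.nd (nat_lit 30) 
(.nd (nat_lit 6) (.nd (nat_lit 27) (.nd (nat_lit 29) 
(.lf (nat_lit 4563787776) (dlOf (nat_lit 3) (nat_lit 0x1004402e6a0400c4028004201100b990280e0000))) 
(.lf (nat_lit 805691392) (dlOf (nat_lit 1) (nat_lit 0x200028190001)))) (.nd (nat_lit 26) 
(.lf (nat_lit 4698005504) (dlOf (nat_lit 3) (nat_lit 0x1004402bae0400c4028004201100aea0280e0000))) 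
(.lf (nat_lit 2617630720) (dlOf (nat_lit 1) (nat_lit 0x40018110001))))) (.nd (nat_lit 8) 
(.nd (nat_lit 27) 
(.lf (nat_lit 4563787840) (dlOf (nat_lit 3) (nat_lit 0x42002902430138006806c014180c0844052047e027001000d80282c18070000807e800201d000080e1683))) 
(.lf (nat_lit 4698005568) (dlOf (nat_lit 3) (nat_lit 0x42002902430138006806c008ec0c0844052047e027001000d8011d418070000807e800201d000080e1683)))) 
(.lf (nat_lit 872801600) (dlOf (nat_lit 1) (nat_lit 0x1a00280e3281))))) (.nd (nat_lit 7) 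
(.nd (nat_lit 6) (.nd (nat_lit 8) 
(.lf (nat_lit 3493716480) (dlOf (nat_lit 1) (nat_lit 0x400181b0d81))) (.nd (nat_lit 9) 
(.lf (nat_lit 6376251648) (dlOf (nat_lit 1) (nat_lit 0x20008090a81))) 
(.lf (nat_lit 1345186560) (dlOf (nat_lit 2) (nat_lit 0x9c2ca0001102005c0018b05a81))))) 
(.nd (nat_lit 21) 
(.lf (nat_lit 1346756672) (dlOf (nat_lit 2) (nat_lit 0x37025801ec10800e8074007d0398008f020006800800b400200220009000603))) 
(.lf (nat_lit 1881530432) (dlOf (nat_lit 1) (nat_lit 0x10008000800200020008f40603))))) 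
(.nd (nat_lit 8) (.nd (nat_lit 19) 
(.lf (nat_lit 4228243584) (dlOf (nat_lit 1) (nat_lit 0x8008000800200020008090083))) 
(.lf (nat_lit 3493716096) (dlOf (nat_lit 1) (nat_lit 0x58002000200081b0082)))) (.nd (nat_lit 6) 
(.lf (nat_lit 1345710464) (dlOf (nat_lit 1) (nat_lit 0x260028dd4e81))) 
(.lf (nat_lit 3492673472) (dlOf (nat_lit 1) (nat_lit 0x200280fa601)))))))) (.nd (nat_lit 20) 
(.nd (nat_lit 26) (.nd (nat_lit 30) (.nd (nat_lit 25) (.nd (nat_lit 6) (.nd (nat_lit 19) 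
(.lf (nat_lit 537255944) (dlOf (nat_lit 1) (nat_lit 0x20008070501))) 
(.lf (nat_lit 2819481608) (dlOf (nat_lit 3) (nat_lit 0x1a0360031401000401b0016e40800480080008002001000082b0283)))) 
(.lf (nat_lit 134603336) (dlOf (nat_lit 2) (nat_lit 0xb00940002602003a0008091101)))) 
(.nd (nat_lit 10) (.nd (nat_lit 19) 
(.lf (nat_lit 48619528) (dlOf (nat_lit 1) (nat_lit 0x8008000400200020009420003))) 
(.lf (nat_lit 59629576) (dlOf (nat_lit 1) (nat_lit 0x8008000400200020009820003)))) 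
(.lf (nat_lit 38134792) (dlOf (nat_lit 1) (nat_lit 0xe0009132881))))) (.nd (nat_lit 6) 
(.nd (nat_lit 7) (.nd (nat_lit 29) 
(.lf (nat_lit 3221610504) (dlOf (nat_lit 1) (nat_lit 0x38008000c00200020008160003))) 
(.lf (nat_lit 5905965064) (dlOf (nat_lit 1) (nat_lit 0x8008000400200020008170483)))) 
(.lf (nat_lit 1476780168) (dlOf (nat_lit 2) (nat_lit 0xb802e0002007000c48281a0480)))) 
(.nd (nat_lit 7) (.nd (nat_lit 21) 
(.lf (nat_lit 4026916936) (dlOf (nat_lit 1) (nat_lit 0x4004000a00080d0c82))) 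
(.lf (nat_lit 3492143176) (dlOf (nat_lit 1) (nat_lit 0x1000080a0e01)))) (.nd (nat_lit 9) 
(.lf (nat_lit 1208344776) (dlOf (nat_lit 1) (nat_lit 0x800180c1b81))) 
(.lf (nat_lit 1745218248) (dlOf (nat_lit 1) (nat_lit 0x2e00280e5801))))))) (.nd (nat_lit 6) 
(.nd (nat_lit 7) (.nd (nat_lit 28) (.nd (nat_lit 27) 
(.lf (nat_lit 6509944840) (dlOf (nat_lit 1) (nat_lit 0x8008000400200020008170483))) 
(.lf (nat_lit 3959808008) (dlOf (nat_lit 1) (nat_lit 0x38008000c00200020008160003)))) 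
(.nd (nat_lit 19) (.lf (nat_lit 1409671176) (dlOf (nat_lit 1) (nat_lit 0x20008070501))) 
(.lf (nat_lit 3557679112) (dlOf (nat_lit 3) (nat_lit 0x1a038005de81000401c002d140800480080008002001000082b0283))))) 
(.nd (nat_lit 8) (.nd (nat_lit 10) 
(.lf (nat_lit 2080759944) (dlOf (nat_lit 2) (nat_lit 0x80c000048040014004000400080c0e02))) 
(.lf (nat_lit 472769672) (dlOf (nat_lit 1) (nat_lit 0x100080014002000a0008b02b03)))) 
(.lf (nat_lit 6375727496) (dlOf (nat_lit 1) (nat_lit 0x18008001000200020008001003))))) 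
(.nd (nat_lit 8) (.nd (nat_lit 7) (.nd (nat_lit 9) 
(.lf (nat_lit 3288719432) (dlOf (nat_lit 1) (nat_lit 0x4004000a00080d0c82))) 
(.lf (nat_lit 201712200) (dlOf (nat_lit 2) (nat_lit 0xb00940002602003a0008091101)))) 
(.lf (nat_lit 1009116360) (dlOf (nat_lit 1) (nat_lit 0x1c00400060009082d02)))) (.nd (nat_lit 27) 
(.nd (nat_lit 28) (.lf (nat_lit 4362461512) (dlOf (nat_lit 1) (nat_lit 0x100018090601))) 
(.lf (nat_lit 3557155144) (dlOf (nat_lit 1) (nat_lit 0x400200020008130782)))) (.nd (nat_lit 7) 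
(.lf (nat_lit 4228243784) (dlOf (nat_lit 1) (nat_lit 0x100018090601))) 
(.lf (nat_lit 472769480) (dlOf (nat_lit 1) (nat_lit 0x38004000c0008b02882)))))))) (.nd (nat_lit 7) 
(.nd (nat_lit 19) (.nd (nat_lit 21) (.nd (nat_lit 22) (.nd (nat_lit 24) 
(.lf (nat_lit 1343610888) (dlOf (nat_lit 1) (nat_lit 0x200182b0281))) 
(.lf (nat_lit 18210824) (dlOf (nat_lit 1) (nat_lit 0x8e0028920001)))) 
(.lf (nat_lit 30793736) (dlOf (nat_lit 1) (nat_lit 0x2e0028e50581)))) (.nd (nat_lit 6) 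
(.nd (nat_lit 9) (.nd (nat_lit 22) 
(.lf (nat_lit 37085192) (dlOf (nat_lit 1) (nat_lit 0x120019090001))) 
(.lf (nat_lit 49668104) (dlOf (nat_lit 1) (nat_lit 0x400400020009480002)))) 
(.lf (nat_lit 2754997768) (dlOf (nat_lit 1) (nat_lit 0x4002000200080f7002)))) (.nd (nat_lit 8) 
(.lf (nat_lit 37085256) (dlOf (nat_lit 1) (nat_lit 0x180019090601))) 
(.lf (nat_lit 11919688) (dlOf (nat_lit 1) (nat_lit 0x20008002c002001c00086c0603)))))) 
(.nd (nat_lit 8) (.nd (nat_lit 22) 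
(.lf (nat_lit 29220872) (dlOf (nat_lit 1) (nat_lit 0x20008de0001))) 
(.lf (nat_lit 25026568) (dlOf (nat_lit 2) (nat_lit 0x22c3400abe04000400200020008be0802)))) 
(.nd (nat_lit 9) 
(.lf (nat_lit 2755518728) (dlOf (nat_lit 1) (nat_lit 0x800803e4002011c00081b0483))) 
(.lf (nat_lit 8255240) (dlOf (nat_lit 1) (nat_lit 0x2002851a001)))))) (.nd (nat_lit 21) 
(.nd (nat_lit 6) (.nd (nat_lit 8) 
(.lf (nat_lit 6376778376) (dlOf (nat_lit 1) (nat_lit 0x740008095481))) 
(.lf (nat_lit 5772796296) (dlOf (nat_lit 1) (nat_lit 0x400400020008091002)))) (.nd (nat_lit 10) 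
(.lf (nat_lit 6377300168) (dlOf (nat_lit 1) (nat_lit 0x4002000200080c1b82))) 
(.lf (nat_lit 47572168) (dlOf (nat_lit 1) (nat_lit 0x20009402d01))))) (.nd (nat_lit 8) 
(.nd (nat_lit 9) (.lf (nat_lit 11919496) (dlOf (nat_lit 1) (nat_lit 0x8008000c002000200086c0103))) 
(.lf (nat_lit 20314760) (dlOf (nat_lit 1) (nat_lit 0x200289db681)))) 
(.lf (nat_lit 8249736) (dlOf (nat_lit 1) (nat_lit 0x800200020008511002)))))))))))

end

end Pool.Agent.Lib.MP_5854e1_co.Cz

namespace Pool.Agent.Lib.MP_5854e1_co.Cz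

noncomputable section

noncomputable def tz97 : DT := (.nd (nat_lit 3) (.nd (nat_lit 15) (.nd (nat_lit 18) 
(.nd (nat_lit 16) (.nd (nat_lit 28) (.nd (nat_lit 19) (.nd (nat_lit 6) (.nd (nat_lit 7) 
(.nd (nat_lit 21) (.lf (nat_lit 59793440) (dlOf (nat_lit 1) (nat_lit 0xc0019830681))) 
(.lf (nat_lit 11558944) (dlOf (nat_lit 1) (nat_lit 0xa00186b0681)))) (.nd (nat_lit 8) 
(.lf (nat_lit 47210656) (dlOf (nat_lit 1) (nat_lit 0x18004001400093b1302))) (.nd (nat_lit 23) 
(.lf (nat_lit 5435844000) (dlOf (nat_lit 1) (nat_lit 0x20018003601))) 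
(.lf (nat_lit 8414624) (dlOf (nat_lit 1) (nat_lit 0x400200020008513602)))))) (.nd (nat_lit 7) 
(.nd (nat_lit 10) (.nd (nat_lit 11) 
(.lf (nat_lit 2122080) (dlOf (nat_lit 1) (nat_lit 0x60028150681))) 
(.lf (nat_lit 201357664) (dlOf (nat_lit 1) (nat_lit 0x4002800ab81)))) 
(.lf (nat_lit 4294995296) (dlOf (nat_lit 1) (nat_lit 0x14002000a0008006a82)))) (.nd (nat_lit 8) 
(.nd (nat_lit 10) 
(.lf (nat_lit 4362103008) (dlOf (nat_lit 2) (nat_lit 0x10198000cc080018008000c00200060008004a83))) 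
(.lf (nat_lit 134249696) (dlOf (nat_lit 1) (nat_lit 0x8008001c0020002000800c503)))) 
(.lf (nat_lit 134244832) (dlOf (nat_lit 1) (nat_lit 0x1800400080018004e82)))))) (.nd (nat_lit 21) 
(.nd (nat_lit 6) (.nd (nat_lit 30) (.nd (nat_lit 7) 
(.lf (nat_lit 21520416) (dlOf (nat_lit 1) (nat_lit 0x4e0028a40101))) 
(.lf (nat_lit 8938912) (dlOf (nat_lit 1) (nat_lit 0x400200020008513602)))) (.nd (nat_lit 26) 
(.lf (nat_lit 3221774368) (dlOf (nat_lit 2) (nat_lit 0x2023002380e002526080068004000a0018180902))) 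
(.lf (nat_lit 3959971872) (dlOf (nat_lit 2) (nat_lit 0x2023002380e00253a080068004000a0018180902))))) 
(.nd (nat_lit 26) 
(.lf (nat_lit 3221774432) (dlOf (nat_lit 7) (nat_lit 0x2c022800d010800a007e00700330000a04009f0230002010c01a8080010c038002900b00004c2800c01180002404017c08c000110200420460000201004d02300000c080610008067800200820008181303))) 
(.lf (nat_lit 3959971936) (dlOf (nat_lit 5) (nat_lit 0x100460001201000c02b000701380024094001a035000f01380078098003c03c000210e00060470000701001601780000c08009000800e8002009e0008181283))))) 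
(.nd (nat_lit 7) (.nd (nat_lit 6) (.nd (nat_lit 9) 
(.lf (nat_lit 24666144) (dlOf (nat_lit 2) (nat_lit 0x16b47800b5a1c00042080014004000c0008bb0702))) 
(.lf (nat_lit 23618080) (dlOf (nat_lit 1) (nat_lit 0x40004000e0018b80d82)))) 
(.lf (nat_lit 23617888) (dlOf (nat_lit 3) (nat_lit 0x116940006b4680035a0c001abf8000560800156940007b468004da0c0022bf8000130800120028b80681)))) 
(.nd (nat_lit 8) (.lf (nat_lit 23617696) (dlOf (nat_lit 1) (nat_lit 0x1200008b80201))) 
(.lf (nat_lit 37251488) (dlOf (nat_lit 1) (nat_lit 0x4002003600090d4e82))))))) (.nd (nat_lit 26) 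
(.nd (nat_lit 8) (.nd (nat_lit 9) (.nd (nat_lit 6) (.nd (nat_lit 7) 
(.lf (nat_lit 2952821792) (dlOf (nat_lit 3) (nat_lit 0x134026004c302003e013001fa01800bf00))) 
(.lf (nat_lit 1342209184) (dlOf (nat_lit 2) (nat_lit 0xa11300304408003000800180020020000800c203)))) 
(.lf (nat_lit 3490212960) (dlOf (nat_lit 1) (nat_lit 0x80018006081)))) (.nd (nat_lit 7) 
(.nd (nat_lit 11) (.lf (nat_lit 4563428896) (dlOf (nat_lit 1) (nat_lit 0x20008003701))) 
(.lf (nat_lit 1342205472) (dlOf (nat_lit 1) (nat_lit 0x100018007101)))) 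
(.lf (nat_lit 1342205600) (dlOf (nat_lit 1) (nat_lit 0x14004000e0008007202))))) (.nd (nat_lit 6) 
(.nd (nat_lit 7) (.lf (nat_lit 2952820512) (dlOf (nat_lit 2) (nat_lit 0x2a0140025681800a000))) 
(.nd (nat_lit 11) 
(.lf (nat_lit 3493880224) (dlOf (nat_lit 2) (nat_lit 0x2720600000000800e8008000c002002800081b0783))) 
(.lf (nat_lit 1476426144) (dlOf (nat_lit 1) (nat_lit 0x2002800af81))))) (.nd (nat_lit 11) 
(.lf (nat_lit 2952820064) (dlOf (nat_lit 1) (nat_lit 0x40008009901))) 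
(.lf (nat_lit 3490213216) (dlOf (nat_lit 1) (nat_lit 0x400200020008006a82)))))) (.nd (nat_lit 7) 
(.nd (nat_lit 11) (.nd (nat_lit 6) (.nd (nat_lit 9) 
(.lf (nat_lit 3154665504) (dlOf (nat_lit 1) (nat_lit 0x20028310001))) 
(.lf (nat_lit 2617275936) (dlOf (nat_lit 13) (nat_lit 0x37005800600102754005131e0020997800c4d7c00000c0e0c019200500a4002004e80000180e0c00e400c04960050229000002fdc1819a00180c9000000ba404057600602aa000002e78100ad0018005c00000b920407be00605b3000002e441000580180172004000400a00b48020df600506e6000002c9410020800c014f004006800600a660200180028009c01)))) 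
(.lf (nat_lit 3154665568) (dlOf (nat_lit 1) (nat_lit 0x400400040018310482)))) (.nd (nat_lit 6) 
(.nd (nat_lit 8) (.lf (nat_lit 469788704) (dlOf (nat_lit 1) (nat_lit 0x60004005a0008004702))) 
(.lf (nat_lit 3691018528) (dlOf (nat_lit 2) (nat_lit 0x42806c00050040070004008c000800ab02)))) 
(.lf (nat_lit 1409313120) (dlOf (nat_lit 1) (nat_lit 0x20018004e81))))) (.nd (nat_lit 8) 
(.nd (nat_lit 9) (.lf (nat_lit 4095238304) (dlOf (nat_lit 1) (nat_lit 0x1400400040008081302))) 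
(.lf (nat_lit 2617276064) (dlOf (nat_lit 2) (nat_lit 0x1080140000004000c00200040008009f82)))) 
(.nd (nat_lit 9) 
(.lf (nat_lit 4227885472) (dlOf (nat_lit 1) (nat_lit 0x200080004002000a0008004e83))) 
(.nd (nat_lit 10) (.lf (nat_lit 4094716832) (dlOf (nat_lit 1) (nat_lit 0x40028055c81))) 
(.lf (nat_lit 3691016096) (dlOf (nat_lit 1) (nat_lit 0x20008007881))))))))) (.nd (nat_lit 6) 
(.nd (nat_lit 8) (.nd (nat_lit 29) (.nd (nat_lit 31) (.nd (nat_lit 7) (.nd (nat_lit 9) 
(.lf (nat_lit 16867360) (dlOf (nat_lit 1) (nat_lit 0x400188e0001))) 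
(.lf (nat_lit 20543008) (dlOf (nat_lit 2) (nat_lit 0x287a40014000006070289d9c00)))) 
(.lf (nat_lit 43081888) (dlOf (nat_lit 1) (nat_lit 0x700080004002000e00092a0583)))) 
(.nd (nat_lit 7) (.nd (nat_lit 19) 
(.lf (nat_lit 6576758816) (dlOf (nat_lit 1) (nat_lit 0x1200180c0901))) 
(.lf (nat_lit 3557384224) (dlOf (nat_lit 1) (nat_lit 0x1800281e0681)))) 
(.lf (nat_lit 3489754272) (dlOf (nat_lit 1) (nat_lit 0x4004007c0008006282))))) (.nd (nat_lit 9) 
(.nd (nat_lit 19) (.nd (nat_lit 27) 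
(.lf (nat_lit 5972779040) (dlOf (nat_lit 1) (nat_lit 0x1200180c0901))) 
(.lf (nat_lit 738287648) (dlOf (nat_lit 1) (nat_lit 0x80080344002009c0008090003)))) 
(.lf (nat_lit 3892928544) (dlOf (nat_lit 2) (nat_lit 0x2a03500000018290c00)))) (.nd (nat_lit 7) 
(.nd (nat_lit 10) 
(.lf (nat_lit 2755748384) (dlOf (nat_lit 3) (nat_lit 0xf02100033c080078170000e6040010002000400081b0d82))) 
(.lf (nat_lit 6241216032) (dlOf (nat_lit 2) (nat_lit 0xc0020000440801f80080038002000c0008053703)))) 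
(.lf (nat_lit 1744923296) (dlOf (nat_lit 1) (nat_lit 0x8008000400200020008095583)))))) 
(.nd (nat_lit 10) (.nd (nat_lit 7) (.nd (nat_lit 11) 
(.lf (nat_lit 4563493152) (dlOf (nat_lit 7) (nat_lit 0x1301a0007005400300240016c06000401500080090003e8100050054001402400006040022015000c0090000141000a0054002402400003040024015001300900000410017000804f0002006c0008090a83))) 
(.lf (nat_lit 939616544) (dlOf (nat_lit 1) (nat_lit 0x400400020008144b82)))) (.nd (nat_lit 11) 
(.lf (nat_lit 2080465312) (dlOf (nat_lit 2) (nat_lit 0xa013800364080018008001400200060008091003))) 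
(.nd (nat_lit 19) (.lf (nat_lit 4563495328) (dlOf (nat_lit 1) (nat_lit 0xc0028094e81))) 
(.lf (nat_lit 1345939872) (dlOf (nat_lit 1) (nat_lit 0x20018e24e81)))))) (.nd (nat_lit 7) 
(.nd (nat_lit 9) (.lf (nat_lit 1275159840) (dlOf (nat_lit 1) (nat_lit 0x20028093101))) 
(.lf (nat_lit 93984) (dlOf (nat_lit 1) (nat_lit 0x400400020018007482)))) (.nd (nat_lit 9) 
(.lf (nat_lit 8480160) (dlOf (nat_lit 1) (nat_lit 0x400200020008513602))) (.nd (nat_lit 11) 
(.nd (nat_lit 26) (.lf (nat_lit 939616160) (dlOf (nat_lit 1) (nat_lit 0x5000400160008144282))) 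
(.lf (nat_lit 4362168224) (dlOf (nat_lit 1) (nat_lit 0x700028004281)))) 
(.lf (nat_lit 20017056) (dlOf (nat_lit 1) (nat_lit 0x600289d7881)))))))) (.nd (nat_lit 8) 
(.nd (nat_lit 19) (.nd (nat_lit 9) (.nd (nat_lit 10) 
(.lf (nat_lit 47276128) (dlOf (nat_lit 5) (nat_lit 0x15a4c0006d18000d6820001afd80617820001da4c001ad1800136820002afd80617420005da4c0016d1800156820009afd80616c200035a4c0016d1800156820009afd8061642000180080010002000800093c0783))) 
(.nd (nat_lit 27) (.lf (nat_lit 3825298528) (dlOf (nat_lit 1) (nat_lit 0x400400020008146082))) 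
(.lf (nat_lit 1812032608) (dlOf (nat_lit 1) (nat_lit 0x20028146081))))) (.nd (nat_lit 7) 
(.lf (nat_lit 4831930976) (dlOf (nat_lit 1) (nat_lit 0x800400040018055382))) (.nd (nat_lit 31) 
(.lf (nat_lit 939615968) (dlOf (nat_lit 1) (nat_lit 0x280018143a81))) 
(.lf (nat_lit 3087099616) (dlOf (nat_lit 1) (nat_lit 0x880018143a81)))))) (.nd (nat_lit 26) 
(.nd (nat_lit 21) 
(.lf (nat_lit 537485408) (dlOf (nat_lit 2) (nat_lit 0x2807400240358000901000180080084002002800080a1283))) 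
(.lf (nat_lit 1881759840) (dlOf (nat_lit 1) (nat_lit 0x20019000901)))) (.nd (nat_lit 7) 
(.nd (nat_lit 22) 
(.lf (nat_lit 1409900640) (dlOf (nat_lit 5) (nat_lit 0x19014800ec0660001504004a06b0041029001400cc000260c00740a400300330000282000f029000700cc00008080150004004000180a1302))) 
(.lf (nat_lit 474570848) (dlOf (nat_lit 1) (nat_lit 0x10004001800091a0902)))) 
(.lf (nat_lit 67723488) (dlOf (nat_lit 1) (nat_lit 0x500080004002000200082d0583)))))) 
(.nd (nat_lit 10) (.nd (nat_lit 26) (.nd (nat_lit 19) (.nd (nat_lit 28) 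
(.lf (nat_lit 1208050016) (dlOf (nat_lit 2) (nat_lit 0x202500000018090e00))) 
(.lf (nat_lit 1476485472) (dlOf (nat_lit 1) (nat_lit 0x8008003800200100008010903)))) 
(.lf (nat_lit 23683424) (dlOf (nat_lit 1) (nat_lit 0x40018b80681)))) (.nd (nat_lit 7) 
(.lf (nat_lit 1543596384) (dlOf (nat_lit 1) (nat_lit 0x400200080008144e82))) 
(.lf (nat_lit 4899038176) (dlOf (nat_lit 1) (nat_lit 0x6400400180018052882))))) (.nd (nat_lit 7) 
(.nd (nat_lit 9) (.nd (nat_lit 19) 
(.lf (nat_lit 2818663776) (dlOf (nat_lit 4) (nat_lit 0x202b8000d00800a0058006002a002c00e00180060009001800500080024000000198700110030000c40800700080044002000800080d3403))) 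
(.lf (nat_lit 738813280) (dlOf (nat_lit 1) (nat_lit 0x20018123401)))) 
(.lf (nat_lit 7960416) (dlOf (nat_lit 1) (nat_lit 0x800800040020002000851a303)))) (.nd (nat_lit 9) 
(.lf (nat_lit 4697712096) (dlOf (nat_lit 1) (nat_lit 0x100028093601))) 
(.lf (nat_lit 620512) (dlOf (nat_lit 6) (nat_lit 0x61a8802c10080050d44015f604001c6a20055b02000a351002a90100061a88000000801f0008017c002006a000800a603))))))))) 
(.nd (nat_lit 28) (.nd (nat_lit 6) (.nd (nat_lit 26) (.nd (nat_lit 19) (.nd (nat_lit 30) 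
(.nd (nat_lit 23) (.nd (nat_lit 8) (.nd (nat_lit 16) 
(.lf (nat_lit 4966342688) (dlOf (nat_lit 2) (nat_lit 0x1780900007c040008004000400180b0182))) 
(.lf (nat_lit 1400864) (dlOf (nat_lit 1) (nat_lit 0x4004000200080c0982)))) 
(.lf (nat_lit 6442737952) (dlOf (nat_lit 1) (nat_lit 0x5600081b0501)))) (.nd (nat_lit 16) 
(.nd (nat_lit 20) (.lf (nat_lit 29646880) (dlOf (nat_lit 1) (nat_lit 0x400200020008e30002))) 
(.lf (nat_lit 62152736) (dlOf (nat_lit 1) (nat_lit 0x3a0009960101)))) 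
(.lf (nat_lit 27615264) (dlOf (nat_lit 2) (nat_lit 0x26a7800234f4014da080054004005c0008d00682))))) 
(.nd (nat_lit 27) (.nd (nat_lit 9) 
(.lf (nat_lit 5368995872) (dlOf (nat_lit 1) (nat_lit 0x200280b0181))) 
(.lf (nat_lit 3221512736) (dlOf (nat_lit 1) (nat_lit 0x800800d400200340008127f03)))) 
(.nd (nat_lit 16) (.lf (nat_lit 5503213600) (dlOf (nat_lit 1) (nat_lit 0x200280b0181))) 
(.lf (nat_lit 3892666400) (dlOf (nat_lit 2) (nat_lit 0x5001400005818180180)))))) (.nd (nat_lit 21) 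
(.nd (nat_lit 20) (.nd (nat_lit 16) 
(.lf (nat_lit 2819383328) (dlOf (nat_lit 2) (nat_lit 0x3c00c000890200140008250601))) 
(.lf (nat_lit 9265184) (dlOf (nat_lit 3) (nat_lit 0x1693800004602006600000022818530180)))) 
(.nd (nat_lit 8) (.lf (nat_lit 22831136) (dlOf (nat_lit 1) (nat_lit 0xfb00040aba0008b30482))) 
(.lf (nat_lit 1859872) (dlOf (nat_lit 1) (nat_lit 0x2ac00200680008150502))))) (.nd (nat_lit 22) 
(.nd (nat_lit 20) (.lf (nat_lit 2908192) (dlOf (nat_lit 1) (nat_lit 0x400181d0481))) 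
(.lf (nat_lit 45899808) (dlOf (nat_lit 1) (nat_lit 0x8008000400200020009360183)))) (.nd (nat_lit 7) 
(.lf (nat_lit 8153120) (dlOf (nat_lit 1) (nat_lit 0x280018514701))) 
(.lf (nat_lit 8155552) (dlOf (nat_lit 1) (nat_lit 0x280028518381))))))) (.nd (nat_lit 16) 
(.nd (nat_lit 27) (.nd (nat_lit 7) (.nd (nat_lit 19) 
(.lf (nat_lit 2753847328) (dlOf (nat_lit 1) (nat_lit 0x4004000200080a0902))) 
(.lf (nat_lit 4362887200) (dlOf (nat_lit 2) (nat_lit 0x3702900325c0800180080004002000800081a0003)))) 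
(.lf (nat_lit 6509846944) (dlOf (nat_lit 1) (nat_lit 0x280080030002000e0008156b83)))) 
(.nd (nat_lit 29) 
(.lf (nat_lit 2349096992) (dlOf (nat_lit 3) (nat_lit 0x802500e31810009012806f580800200080008002000a00080a0903))) 
(.lf (nat_lit 5033451552) (dlOf (nat_lit 2) (nat_lit 0x1780900007c040008004000400180b0182))))) 
(.nd (nat_lit 29) (.nd (nat_lit 7) (.nd (nat_lit 20) 
(.lf (nat_lit 4496646176) (dlOf (nat_lit 1) (nat_lit 0x40008100181))) 
(.lf (nat_lit 68509728) (dlOf (nat_lit 1) (nat_lit 0x380018590a81)))) 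
(.lf (nat_lit 69560736) (dlOf (nat_lit 1) (nat_lit 0x880080090002003e0008b44e83)))) 
(.nd (nat_lit 20) (.nd (nat_lit 32) 
(.lf (nat_lit 604332064) (dlOf (nat_lit 1) (nat_lit 0x400400020008170682))) 
(.lf (nat_lit 4899299360) (dlOf (nat_lit 1) (nat_lit 0x3800400040008100102)))) 
(.lf (nat_lit 2752864288) (dlOf (nat_lit 1) (nat_lit 0x3e0028050781))))))) (.nd (nat_lit 8) 
(.nd (nat_lit 21) (.nd (nat_lit 7) (.nd (nat_lit 10) (.nd (nat_lit 16) 
(.lf (nat_lit 2349097056) (dlOf (nat_lit 1) (nat_lit 0x8004000200080a1282))) 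
(.lf (nat_lit 6442803296) (dlOf (nat_lit 1) (nat_lit 0xc004000600181c1282)))) 
(.lf (nat_lit 38102112) (dlOf (nat_lit 1) (nat_lit 0x800200020009132902)))) (.nd (nat_lit 16) 
(.lf (nat_lit 68444384) (dlOf (nat_lit 1) (nat_lit 0x400200020008570582))) 
(.lf (nat_lit 17653984) (dlOf (nat_lit 2) (nat_lit 0x133a20000700802680080080002000400088e0583))))) 
(.nd (nat_lit 7) (.nd (nat_lit 19) (.nd (nat_lit 20) 
(.lf (nat_lit 2753847392) (dlOf (nat_lit 2) (nat_lit 0x190a900000c0800b8008003c002000200080a1283))) 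
(.lf (nat_lit 62152800) (dlOf (nat_lit 2) (nat_lit 0x2296c0375404000c004000e0009960782)))) 
(.lf (nat_lit 45899872) (dlOf (nat_lit 1) (nat_lit 0x8008000400200080009360903)))) (.nd (nat_lit 9) 
(.lf (nat_lit 19226848) (dlOf (nat_lit 1) (nat_lit 0x10008000800200020008970583))) 
(.lf (nat_lit 8155872) (dlOf (nat_lit 1) (nat_lit 0x400200020008518c82)))))) (.nd (nat_lit 9) 
(.nd (nat_lit 7) (.nd (nat_lit 10) 
(.lf (nat_lit 11886944) (dlOf (nat_lit 1) (nat_lit 0x200186c0681))) 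
(.lf (nat_lit 50095456) (dlOf (nat_lit 1) (nat_lit 0x4004000200094c3402)))) (.nd (nat_lit 10) 
(.nd (nat_lit 16) (.lf (nat_lit 54290912) (dlOf (nat_lit 1) (nat_lit 0xee0019654e81))) 
(.lf (nat_lit 58550752) (dlOf (nat_lit 1) (nat_lit 0x1800297e4e81)))) 
(.lf (nat_lit 2818864608) (dlOf (nat_lit 1) (nat_lit 0x400400020008129b02))))) (.nd (nat_lit 29) 
(.nd (nat_lit 19) 
(.lf (nat_lit 1141138400) (dlOf (nat_lit 1) (nat_lit 0x40008002000200460008122883))) 
(.lf (nat_lit 36463584) (dlOf (nat_lit 1) (nat_lit 0x20019072881)))) (.nd (nat_lit 10) 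
(.lf (nat_lit 2752275424) (dlOf (nat_lit 1) (nat_lit 0x570008000400200940008002883))) 
(.lf (nat_lit 2752346080) (dlOf (nat_lit 1) (nat_lit 0x40020002000800a602)))))))) (.nd (nat_lit 26) 
(.nd (nat_lit 31) (.nd (nat_lit 7) (.nd (nat_lit 27) (.nd (nat_lit 6) (.nd (nat_lit 16) 
(.lf (nat_lit 268722208) (dlOf (nat_lit 1) (nat_lit 0x10008000800200020008100183))) 
(.lf (nat_lit 4563755040) (dlOf (nat_lit 1) (nat_lit 0x18004000400080d0102)))) 
(.lf (nat_lit 1346199648) (dlOf (nat_lit 1) (nat_lit 0x60008002000200620008e60903)))) 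
(.nd (nat_lit 16) 
(.lf (nat_lit 402939936) (dlOf (nat_lit 3) (nat_lit 0x21801a0004602000400d000228180b0180))) 
(.nd (nat_lit 30) (.lf (nat_lit 4697972768) (dlOf (nat_lit 1) (nat_lit 0x18004000400080d0102))) 
(.lf (nat_lit 1476747296) (dlOf (nat_lit 1) (nat_lit 0x400400020008170682)))))) (.nd (nat_lit 6) 
(.nd (nat_lit 27) 
(.lf (nat_lit 4563689632) (dlOf (nat_lit 4) (nat_lit 0xd40680002f0200160340001701000600f8000840802f00080050002004400080c1303))) 
(.lf (nat_lit 4697907360) (dlOf (nat_lit 4) (nat_lit 0xd4068000190200160340000c01000600f80002c0802f00080050002004400080c1303)))) 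
(.nd (nat_lit 8) 
(.lf (nat_lit 4697907424) (dlOf (nat_lit 6) (nat_lit 0x200d00020064000e01f0000703000601a000480c8002003e0000d06000a0340007019000200bc001c03e0000c08000c03400070190003807c000160c0010068000802f000a00f800000180008008005c002002a00080c1a83))) 
(.lf (nat_lit 5772173792) (dlOf (nat_lit 1) (nat_lit 0x30008001400200100008091283)))))) 
(.nd (nat_lit 16) (.nd (nat_lit 7) (.nd (nat_lit 9) (.nd (nat_lit 21) 
(.lf (nat_lit 2953076768) (dlOf (nat_lit 1) (nat_lit 0x8002000a00080f0602))) 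
(.lf (nat_lit 3492044832) (dlOf (nat_lit 1) (nat_lit 0x4004000200080a0902)))) 
(.lf (nat_lit 3491521056) (dlOf (nat_lit 1) (nat_lit 0x20028090d81)))) (.nd (nat_lit 8) 
(.lf (nat_lit 3490996384) (dlOf (nat_lit 1) (nat_lit 0x8008000400200020008044303))) 
(.lf (nat_lit 3489950112) (dlOf (nat_lit 1) (nat_lit 0x400200020008004e82))))) (.nd (nat_lit 6) 
(.nd (nat_lit 20) (.nd (nat_lit 27) 
(.lf (nat_lit 2416271392) (dlOf (nat_lit 1) (nat_lit 0x80080004002000400080c0b03))) 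
(.lf (nat_lit 2550489120) (dlOf (nat_lit 1) (nat_lit 0x80080004002000400080c0b03)))) 
(.lf (nat_lit 3491061792) (dlOf (nat_lit 1) (nat_lit 0x3e0028050781)))) 
(.lf (nat_lit 2953142496) (dlOf (nat_lit 2) (nat_lit 0x300a8000c052000a01a000100b800a804c0014022000c00500040010001044000500080088002000e0008160583)))))) 
(.nd (nat_lit 27) (.nd (nat_lit 30) (.nd (nat_lit 6) (.nd (nat_lit 31) 
(.lf (nat_lit 335831072) (dlOf (nat_lit 3) (nat_lit 0x21801a0004602000400d000228180b0180))) 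
(.lf (nat_lit 2483314720) (dlOf (nat_lit 3) (nat_lit 0x802500c8b0100090128061c00800200080008002000a00080a0903)))) 
(.nd (nat_lit 16) 
(.lf (nat_lit 2483314784) (dlOf (nat_lit 3) (nat_lit 0xd00780004c0800900380001c040034004002000180a1302))) 
(.lf (nat_lit 335896672) (dlOf (nat_lit 1) (nat_lit 0x800280d1c81))))) (.nd (nat_lit 16) 
(.nd (nat_lit 29) 
(.lf (nat_lit 3557580832) (dlOf (nat_lit 27) (nat_lit 0x17e81bc00a8068000b804054c06f002b01a0002dc1002f01bc0034068000b604055806f002b01a0002d41000c01bc00166040a900de0052034000590202600378002c40800801180020038000a80400ee0000005201003100000028c0803d01d401240920054032004d01480080084003404000a20000004607005700000022c0802481240164000000890401300000004401008900000021c0800900000010c0402600000007b02009204900490108001e41002481240120042000780401300000003b81000c03780002c0806501bc00240680000a0401c806f000048101150378000140802501bc000080402140de000000200de0018270601))) 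
(.lf (nat_lit 4094451744) (dlOf (nat_lit 1) (nat_lit 0x80080098002003c0008050003)))) 
(.nd (nat_lit 6) 
(.lf (nat_lit 4096614432) (dlOf (nat_lit 2) (nat_lit 0xa00980004c080010008001c002000c0008140b03))) 
(.lf (nat_lit 3557122400) (dlOf (nat_lit 1) (nat_lit 0x20008130901)))))) (.nd (nat_lit 8) 
(.nd (nat_lit 16) (.nd (nat_lit 9) (.nd (nat_lit 20) 
(.lf (nat_lit 3691274272) (dlOf (nat_lit 1) (nat_lit 0x10000200360008110602))) 
(.lf (nat_lit 471097376) (dlOf (nat_lit 2) (nat_lit 0x230470002080800c0008006c00200620008270603)))) 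
(.lf (nat_lit 5838758432) (dlOf (nat_lit 1) (nat_lit 0x4004000200081b0d82)))) (.nd (nat_lit 6) 
(.lf (nat_lit 2617597984) (dlOf (nat_lit 2) (nat_lit 0xb803400035018100500))) 
(.lf (nat_lit 3691340000) (dlOf (nat_lit 2) (nat_lit 0x300a8000c052000a01b001500a000080480014022000c00500040010001044000500080088002000e0008160583))))) 
(.nd (nat_lit 6) (.nd (nat_lit 7) 
(.lf (nat_lit 5838758176) (dlOf (nat_lit 1) (nat_lit 0x5600081b0501))) 
(.lf (nat_lit 4228669856) (dlOf (nat_lit 2) (nat_lit 0x990258000000801580080028002003e00081a0783)))) 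
(.nd (nat_lit 7) (.lf (nat_lit 1007516512) (dlOf (nat_lit 1) (nat_lit 0x3000183dbc81))) 
(.lf (nat_lit 5301887968) (dlOf (nat_lit 2) (nat_lit 0x1d0022002d102000600280e2881)))))))))) 
(.nd (nat_lit 16) (.nd (nat_lit 28) (.nd (nat_lit 18) (.nd (nat_lit 7) (.nd (nat_lit 24) 
(.nd (nat_lit 27) (.nd (nat_lit 20) 
(.lf (nat_lit 2147541024) (dlOf (nat_lit 1) (nat_lit 0x20028090001))) (.nd (nat_lit 21) 
(.lf (nat_lit 13688864) (dlOf (nat_lit 3) (nat_lit 0x8a715000ce81011f38a800000080038008002c002000e0008740483))) 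
(.lf (nat_lit 15786016) (dlOf (nat_lit 1) (nat_lit 0x800200040008830482))))) (.nd (nat_lit 6) 
(.nd (nat_lit 29) (.lf (nat_lit 1208016928) (dlOf (nat_lit 1) (nat_lit 0x20028090001))) 
(.lf (nat_lit 671146016) (dlOf (nat_lit 2) (nat_lit 0x30140035fc080038008000c002000c00080b0003)))) 
(.nd (nat_lit 8) 
(.lf (nat_lit 2281764448) (dlOf (nat_lit 1) (nat_lit 0x8008000400200020008009c03))) 
(.lf (nat_lit 1208017248) (dlOf (nat_lit 1) (nat_lit 0x20008090e01)))))) (.nd (nat_lit 19) 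
(.nd (nat_lit 21) (.nd (nat_lit 22) 
(.lf (nat_lit 16834592) (dlOf (nat_lit 1) (nat_lit 0x80080004002000200088e0003))) 
(.lf (nat_lit 29417504) (dlOf (nat_lit 1) (nat_lit 0x40028e00681)))) 
(.lf (nat_lit 27320352) (dlOf (nat_lit 2) (nat_lit 0x1519802d28080010008000400200020008cd0683)))) 
(.nd (nat_lit 6) (.nd (nat_lit 21) 
(.lf (nat_lit 26796064) (dlOf (nat_lit 1) (nat_lit 0xb80080004002003a0008c70703))) 
(.lf (nat_lit 24698912) (dlOf (nat_lit 4) (nat_lit 0x579c00030020008bb7000170100015e7000084080098008004800200140008bb0703)))) 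
(.nd (nat_lit 8) (.lf (nat_lit 28893280) (dlOf (nat_lit 1) (nat_lit 0xc0028da0481))) 
(.lf (nat_lit 23650656) (dlOf (nat_lit 6) (nat_lit 0xb0b418057d7f0000ac080076d06003d5fc0002a82009cb41804ed7f00002608007ad06003d5fc0000902001db41800ed7f0000200800e800200040008b80682))))))) 
(.nd (nat_lit 8) (.nd (nat_lit 11) (.nd (nat_lit 26) 
(.lf (nat_lit 6576726176) (dlOf (nat_lit 1) (nat_lit 0x4004000200180b0202))) 
(.lf (nat_lit 5972746400) (dlOf (nat_lit 1) (nat_lit 0x4004000200180b0202)))) (.nd (nat_lit 6) 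
(.lf (nat_lit 134282400) (dlOf (nat_lit 1) (nat_lit 0x800800040020002000800c203))) 
(.lf (nat_lit 201386208) (dlOf (nat_lit 1) (nat_lit 0xc0028004a81))))) (.nd (nat_lit 9) 
(.nd (nat_lit 6) (.nd (nat_lit 10) 
(.lf (nat_lit 57207200) (dlOf (nat_lit 1) (nat_lit 0xa0029794e81))) 
(.lf (nat_lit 8447392) (dlOf (nat_lit 1) (nat_lit 0x400200020008513602)))) 
(.lf (nat_lit 4899005920) (dlOf (nat_lit 1) (nat_lit 0x10c00200720008053602)))) (.nd (nat_lit 6) 
(.nd (nat_lit 10) (.lf (nat_lit 2684416928) (dlOf (nat_lit 1) (nat_lit 0x2a0028009101))) 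
(.lf (nat_lit 583584) (dlOf (nat_lit 1) (nat_lit 0xdc00200660008004282)))) 
(.lf (nat_lit 1140909024) (dlOf (nat_lit 1) (nat_lit 0x160028002881))))))) (.nd (nat_lit 19) 
(.nd (nat_lit 30) (.nd (nat_lit 22) (.nd (nat_lit 7) (.nd (nat_lit 21) 
(.lf (nat_lit 604299296) (dlOf (nat_lit 1) (nat_lit 0x200028130601))) 
(.lf (nat_lit 27582496) (dlOf (nat_lit 2) (nat_lit 0xd53e00a6d02000c0018d00681)))) 
(.lf (nat_lit 671408288) (dlOf (nat_lit 1) (nat_lit 0x24800801c400200820008184603)))) 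
(.nd (nat_lit 6) (.nd (nat_lit 9) 
(.lf (nat_lit 12902432) (dlOf (nat_lit 1) (nat_lit 0x200286e0a01))) 
(.lf (nat_lit 21291552) (dlOf (nat_lit 1) (nat_lit 0x20008a37f01)))) 
(.lf (nat_lit 56943712) (dlOf (nat_lit 2) (nat_lit 0x3a8f00020804005c004001e0009792902))))) 
(.nd (nat_lit 26) (.nd (nat_lit 8) (.nd (nat_lit 29) 
(.lf (nat_lit 1208279072) (dlOf (nat_lit 8) (nat_lit 0x3e00b0001440801180e00009c04094407001e402500740040001181805d00e40003e0402e80720001e02016a039000090100ba01c8000400805080080358002000c00080b0183))) 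
(.lf (nat_lit 1745149984) (dlOf (nat_lit 2) (nat_lit 0x1e03900b60130000f81000780080010002002e00080b0183)))) 
(.lf (nat_lit 3221545248) (dlOf (nat_lit 1) (nat_lit 0x100028137801)))) (.nd (nat_lit 6) 
(.nd (nat_lit 27) (.lf (nat_lit 3288653856) (dlOf (nat_lit 1) (nat_lit 0x14004000800180a0902))) 
(.lf (nat_lit 1812258848) (dlOf (nat_lit 1) (nat_lit 0xe00281c0501)))) 
(.lf (nat_lit 3288653920) (dlOf (nat_lit 3) (nat_lit 0x4a0000000981001001a8000040801900080008002002000080a1303)))))) 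
(.nd (nat_lit 6) (.nd (nat_lit 23) (.nd (nat_lit 9) (.nd (nat_lit 21) 
(.lf (nat_lit 4362919968) (dlOf (nat_lit 1) (nat_lit 0x4002001400081a0002))) 
(.lf (nat_lit 2754404384) (dlOf (nat_lit 9) (nat_lit 0x588440068420002210401962110010f8100d61088007b008071884400402a4001e70401aa211000c28100da1088006000805c0844002fc04037c422000000200ea00080e0481)))) 
(.lf (nat_lit 67958304) (dlOf (nat_lit 2) (nat_lit 0x382d8014416b00607028339c00)))) 
(.nd (nat_lit 24) 
(.lf (nat_lit 9232416) (dlOf (nat_lit 3) (nat_lit 0x1a498000f9b48005c852000460600a800000022818530180))) 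
(.lf (nat_lit 59564064) (dlOf (nat_lit 1) (nat_lit 0x170008007400200340009810683))))) 
(.nd (nat_lit 9) (.nd (nat_lit 7) 
(.lf (nat_lit 1892704) (dlOf (nat_lit 3) (nat_lit 0xb83a2005a1c0002802780015818014874400ac3800076195002602780004c2000300080004002001a0008150683))) 
(.lf (nat_lit 8185312) (dlOf (nat_lit 1) (nat_lit 0x400200020008513602)))) (.nd (nat_lit 8) 
(.lf (nat_lit 8188640) (dlOf (nat_lit 1) (nat_lit 0x8008000400200020008518c83))) 
(.lf (nat_lit 34399200) (dlOf (nat_lit 1) (nat_lit 0x20018fb2881)))))))) (.nd (nat_lit 26) 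
(.nd (nat_lit 6) (.nd (nat_lit 7) (.nd (nat_lit 29) (.nd (nat_lit 19) (.nd (nat_lit 27) 
(.nd (nat_lit 20) (.lf (nat_lit 4563722272) (dlOf (nat_lit 1) (nat_lit 0x400280d0101))) 
(.lf (nat_lit 1343545376) (dlOf (nat_lit 2) (nat_lit 0x6047001201f800104080068004002a0008290602)))) 
(.nd (nat_lit 30) (.lf (nat_lit 4697940000) (dlOf (nat_lit 1) (nat_lit 0x400280d0101))) 
(.lf (nat_lit 1476714528) (dlOf (nat_lit 1) (nat_lit 0x2000400100018150602))))) (.nd (nat_lit 18) 
(.lf (nat_lit 1343807520) (dlOf (nat_lit 1) (nat_lit 0x8008000400200020008370003))) 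
(.lf (nat_lit 3492601888) (dlOf (nat_lit 9) (nat_lit 0x587f000683f60021d0401961fc0010d8100d60fe0007b00807187f000402b8001e70401aa1fc000bf0100da0fe0005ec0805c07f0002f204037c3f8000000200ea00080e0481))))) 
(.nd (nat_lit 30) (.nd (nat_lit 27) 
(.lf (nat_lit 2953109536) (dlOf (nat_lit 1) (nat_lit 0x8008000400200020008130683))) 
(.lf (nat_lit 939843616) (dlOf (nat_lit 1) (nat_lit 0xe00281c0501)))) (.nd (nat_lit 31) 
(.lf (nat_lit 1879367712) (dlOf (nat_lit 3) (nat_lit 0x5821000640000001802001d0ac00048110000420800c0002002800080f0702))) 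
(.lf (nat_lit 4026851360) (dlOf (nat_lit 1) (nat_lit 0x14004000800180a0902)))))) (.nd (nat_lit 11) 
(.nd (nat_lit 8) (.lf (nat_lit 5637464224) (dlOf (nat_lit 1) (nat_lit 0x4004000200080f1302))) 
(.lf (nat_lit 3493912992) (dlOf (nat_lit 1) (nat_lit 0x4002000a00081b0782)))) (.nd (nat_lit 12) 
(.lf (nat_lit 1342237088) (dlOf (nat_lit 1) (nat_lit 0x400200020008004e82))) 
(.lf (nat_lit 1342241184) (dlOf (nat_lit 1) (nat_lit 0x1000800180020004000800af83)))))) 
(.nd (nat_lit 8) (.nd (nat_lit 21) (.nd (nat_lit 27) 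
(.lf (nat_lit 4563722336) (dlOf (nat_lit 1) (nat_lit 0x200280d0781))) 
(.lf (nat_lit 4697940064) (dlOf (nat_lit 1) (nat_lit 0x200280d0781)))) (.nd (nat_lit 19) 
(.lf (nat_lit 3492077664) (dlOf (nat_lit 2) (nat_lit 0x2c0b8000098180a1300))) 
(.lf (nat_lit 1346166880) (dlOf (nat_lit 2) (nat_lit 0x1901b2000000200360008e60901))))) 
(.nd (nat_lit 7) (.nd (nat_lit 11) 
(.lf (nat_lit 1342759264) (dlOf (nat_lit 1) (nat_lit 0xc004000600180c0682))) 
(.lf (nat_lit 3489982816) (dlOf (nat_lit 2) (nat_lit 0x822c02bca04000800400020008004e82)))) 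
(.nd (nat_lit 9) 
(.lf (nat_lit 6308292064) (dlOf (nat_lit 1) (nat_lit 0x200080020002001e0008053603))) 
(.lf (nat_lit 3493132256) (dlOf (nat_lit 1) (nat_lit 0x200280fa601))))))) (.nd (nat_lit 18) 
(.nd (nat_lit 6) (.nd (nat_lit 30) (.nd (nat_lit 11) 
(.lf (nat_lit 470868000) (dlOf (nat_lit 1) (nat_lit 0x78008005000200ac00081c0603))) 
(.lf (nat_lit 469821472) (dlOf (nat_lit 1) (nat_lit 0x400200060008004702)))) (.nd (nat_lit 7) 
(.lf (nat_lit 3691050016) (dlOf (nat_lit 1) (nat_lit 0x400400040018009202))) 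
(.lf (nat_lit 1543561632) (dlOf (nat_lit 4) (nat_lit 0x90140001806803786080008050000800d00de1020005014006ee4080088008009c002001200080b0783))))) 
(.nd (nat_lit 27) (.nd (nat_lit 7) 
(.lf (nat_lit 1409345888) (dlOf (nat_lit 1) (nat_lit 0x20028004e81))) 
(.lf (nat_lit 4093700576) (dlOf (nat_lit 1) (nat_lit 0x70008001400200020008004e83)))) 
(.nd (nat_lit 11) (.lf (nat_lit 470344032) (dlOf (nat_lit 1) (nat_lit 0xc004000600180c0682))) 
(.lf (nat_lit 6376450400) (dlOf (nat_lit 1) (nat_lit 0x140018094e81)))))) (.nd (nat_lit 29) 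
(.nd (nat_lit 7) (.nd (nat_lit 31) (.nd (nat_lit 8) 
(.lf (nat_lit 471130144) (dlOf (nat_lit 2) (nat_lit 0x3b0b2800324080008008001000200020008270603))) 
(.lf (nat_lit 1543823648) (dlOf (nat_lit 3) (nat_lit 0xbf40460192020000400e801c006000040200016008001f00280297038008808c0148e04033000400320018187802)))) 
(.nd (nat_lit 19) 
(.lf (nat_lit 3691307040) (dlOf (nat_lit 1) (nat_lit 0x8008000400200020008130683))) 
(.lf (nat_lit 3557613600) (dlOf (nat_lit 3) (nat_lit 0x220030002300800c80000011004001c00200100008270602))))) 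
(.nd (nat_lit 6) (.lf (nat_lit 1543823520) (dlOf (nat_lit 1) (nat_lit 0x160008184301))) 
(.nd (nat_lit 8) 
(.lf (nat_lit 471654624) (dlOf (nat_lit 2) (nat_lit 0xb05e8000a8080210008001000200500008370583))) 
(.lf (nat_lit 1410136032) (dlOf (nat_lit 1) (nat_lit 0x200180fa601)))))) (.nd (nat_lit 27) 
(.nd (nat_lit 7) 
(.lf (nat_lit 872734752) (dlOf (nat_lit 2) (nat_lit 0x1e03900b60130000f81000780080010002002e00080b0183))) 
(.lf (nat_lit 6241444000) (dlOf (nat_lit 1) (nat_lit 0x4004000200080f1302)))) (.nd (nat_lit 30) 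
(.nd (nat_lit 31) 
(.lf (nat_lit 1006952480) (dlOf (nat_lit 3) (nat_lit 0x5821400640000000d02001d0a6800480f4000160800c0002002800080f0702))) 
(.lf (nat_lit 3154436128) (dlOf (nat_lit 3) (nat_lit 0x602d0000b80800300b00000004012400400060008190602)))) 
(.lf (nat_lit 2080694304) (dlOf (nat_lit 8) (nat_lit 0x3e00b0001440801180e00009c04094407001e402500740040001181805d00e40003e0402e80720001e02016a039000090100ba01c8000400805080080358002000c00080b0183))))))))) 
(.nd (nat_lit 18) (.nd (nat_lit 26) (.nd (nat_lit 6) (.nd (nat_lit 28) (.nd (nat_lit 20) 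
(.nd (nat_lit 19) (.nd (nat_lit 8) 
(.lf (nat_lit 16900128) (dlOf (nat_lit 1) (nat_lit 0x4004000200088e0002))) 
(.lf (nat_lit 671213856) (dlOf (nat_lit 2) (nat_lit 0x80000002f818144b80)))) (.nd (nat_lit 21) 
(.lf (nat_lit 13230112) (dlOf (nat_lit 2) (nat_lit 0x18259000000080148008000800200380008710b03))) 
(.lf (nat_lit 11132960) (dlOf (nat_lit 1) (nat_lit 0x8008000800200020008660503))))) 
(.nd (nat_lit 7) (.nd (nat_lit 19) 
(.lf (nat_lit 9560096) (dlOf (nat_lit 2) (nat_lit 0xa21a800090080020008001000200040008560503))) 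
(.lf (nat_lit 26861600) (dlOf (nat_lit 1) (nat_lit 0x20018c80601)))) (.nd (nat_lit 8) 
(.lf (nat_lit 20049568) (dlOf (nat_lit 1) (nat_lit 0x40004008e00089d7202))) 
(.lf (nat_lit 20052384) (dlOf (nat_lit 1) (nat_lit 0x1a00289daf81)))))) (.nd (nat_lit 10) 
(.nd (nat_lit 31) (.nd (nat_lit 19) 
(.lf (nat_lit 268558368) (dlOf (nat_lit 1) (nat_lit 0x10008000800200020008070183))) 
(.lf (nat_lit 1342824480) (dlOf (nat_lit 1) (nat_lit 0x200180e0a01)))) (.nd (nat_lit 27) 
(.lf (nat_lit 4026654752) (dlOf (nat_lit 1) (nat_lit 0x460004013c0008020482))) 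
(.lf (nat_lit 3624001568) (dlOf (nat_lit 2) (nat_lit 0x50020000940800600080030002000c0008090683))))) 
(.nd (nat_lit 9) 
(.lf (nat_lit 1342305312) (dlOf (nat_lit 2) (nat_lit 0x482380093e04000400400020008009202))) 
(.lf (nat_lit 805432864) (dlOf (nat_lit 2) (nat_lit 0x600000003404000800200420008117102)))))) 
(.nd (nat_lit 19) (.nd (nat_lit 7) (.nd (nat_lit 20) (.nd (nat_lit 22) 
(.lf (nat_lit 2013388896) (dlOf (nat_lit 1) (nat_lit 0x8008000400200020008040783))) 
(.lf (nat_lit 12705888) (dlOf (nat_lit 4) (nat_lit 0xe0000000f81000800000004008009800000000040008002001600086d1282)))) 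
(.lf (nat_lit 24240224) (dlOf (nat_lit 3) (nat_lit 0x10c00000009810002bc6002dc4a001e609c00d600000008048b91300)))) 
(.nd (nat_lit 8) (.lf (nat_lit 5503049952) (dlOf (nat_lit 1) (nat_lit 0x340008031a81))) 
(.lf (nat_lit 38922720) (dlOf (nat_lit 1) (nat_lit 0xa0019194e81))))) (.nd (nat_lit 8) 
(.nd (nat_lit 27) 
(.lf (nat_lit 537518176) (dlOf (nat_lit 2) (nat_lit 0x503a001301ac00048080054004002600180a1282))) 
(.lf (nat_lit 5772009568) (dlOf (nat_lit 1) (nat_lit 0x20008004000200080008040783)))) 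
(.nd (nat_lit 7) (.lf (nat_lit 3490311520) (dlOf (nat_lit 1) (nat_lit 0xac00200880008006a82))) 
(.lf (nat_lit 34204128) (dlOf (nat_lit 1) (nat_lit 0x60028fb4e81))))))) (.nd (nat_lit 27) 
(.nd (nat_lit 7) (.nd (nat_lit 6) (.nd (nat_lit 8) (.nd (nat_lit 19) 
(.lf (nat_lit 68280352) (dlOf (nat_lit 1) (nat_lit 0x9400084f0681))) 
(.lf (nat_lit 4362723360) (dlOf (nat_lit 2) (nat_lit 0x70208000580801300080014002004200080e0b03)))) 
(.lf (nat_lit 2751588640) (dlOf (nat_lit 1) (nat_lit 0x1000400040008004b82)))) 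
(.lf (nat_lit 1140973664) (dlOf (nat_lit 1) (nat_lit 0x8008000400200020008040783)))) 
(.nd (nat_lit 8) (.nd (nat_lit 10) 
(.lf (nat_lit 5167505568) (dlOf (nat_lit 1) (nat_lit 0xc0008071301))) 
(.lf (nat_lit 872539296) (dlOf (nat_lit 1) (nat_lit 0x800400020018092b82)))) (.nd (nat_lit 29) 
(.lf (nat_lit 6509685152) (dlOf (nat_lit 1) (nat_lit 0x380018144e81))) 
(.lf (nat_lit 3825330592) (dlOf (nat_lit 1) (nat_lit 0x120028144e81)))))) (.nd (nat_lit 11) 
(.nd (nat_lit 6) (.nd (nat_lit 19) 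
(.lf (nat_lit 2885804064) (dlOf (nat_lit 2) (nat_lit 0x50020000940800600080030002000c0008090683))) 
(.nd (nat_lit 29) (.lf (nat_lit 470409248) (dlOf (nat_lit 1) (nat_lit 0x200180e0a01))) 
(.lf (nat_lit 4228505632) (dlOf (nat_lit 2) (nat_lit 0x701d0000540801300080014002004200080e0b03))))) 
(.nd (nat_lit 7) 
(.lf (nat_lit 6375989344) (dlOf (nat_lit 1) (nat_lit 0x20008004000200080008040783))) 
(.lf (nat_lit 474080224) (dlOf (nat_lit 1) (nat_lit 0x38008001800200160009082883))))) 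
(.nd (nat_lit 10) (.nd (nat_lit 7) 
(.lf (nat_lit 1543629152) (dlOf (nat_lit 2) (nat_lit 0x2202600af2818144e80))) 
(.lf (nat_lit 3959548128) (dlOf (nat_lit 1) (nat_lit 0x140028114a81)))) (.nd (nat_lit 28) 
(.lf (nat_lit 1812065376) (dlOf (nat_lit 1) (nat_lit 0x20028146081))) 
(.lf (nat_lit 5838597216) (dlOf (nat_lit 1) (nat_lit 0x1c002000800080f6082)))))))) (.nd (nat_lit 6) 
(.nd (nat_lit 26) (.nd (nat_lit 8) (.nd (nat_lit 23) (.nd (nat_lit 9) (.nd (nat_lit 27) 
(.lf (nat_lit 5637529632) (dlOf (nat_lit 2) (nat_lit 0x12003400076040028004002e0008100102))) 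
(.lf (nat_lit 3892699168) (dlOf (nat_lit 2) (nat_lit 0x6e05100220198002fc1000180080018002000400081d0603)))) 
(.lf (nat_lit 134603296) (dlOf (nat_lit 1) (nat_lit 0x8e400200020008090d82)))) (.nd (nat_lit 20) 
(.lf (nat_lit 29745184) (dlOf (nat_lit 1) (nat_lit 0x8008000400200020008e30003))) 
(.lf (nat_lit 9822240) (dlOf (nat_lit 2) (nat_lit 0x580000007604001c002000c0008580102))))) 
(.nd (nat_lit 7) (.nd (nat_lit 10) 
(.lf (nat_lit 3493716256) (dlOf (nat_lit 1) (nat_lit 0x80080078002000c00081b0503))) 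
(.lf (nat_lit 8250656) (dlOf (nat_lit 1) (nat_lit 0x1000400100018513102)))) (.nd (nat_lit 11) 
(.lf (nat_lit 21356960) (dlOf (nat_lit 1) (nat_lit 0x8008000c00200020008a36b83))) 
(.lf (nat_lit 51243424) (dlOf (nat_lit 1) (nat_lit 0x400400020019514e82)))))) (.nd (nat_lit 28) 
(.nd (nat_lit 8) (.nd (nat_lit 7) (.nd (nat_lit 27) 
(.lf (nat_lit 4362461216) (dlOf (nat_lit 1) (nat_lit 0x19400400500008090002))) 
(.lf (nat_lit 201711648) (dlOf (nat_lit 1) (nat_lit 0x40008090001)))) 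
(.lf (nat_lit 4362461344) (dlOf (nat_lit 1) (nat_lit 0x1d0008005000200560008090203)))) 
(.nd (nat_lit 19) 
(.lf (nat_lit 4362461472) (dlOf (nat_lit 1) (nat_lit 0x8008000800200020008090503))) 
(.lf (nat_lit 2755518752) (dlOf (nat_lit 1) (nat_lit 0x80080078002000c00081b0503))))) 
(.nd (nat_lit 27) (.nd (nat_lit 19) 
(.lf (nat_lit 6241509408) (dlOf (nat_lit 2) (nat_lit 0x12003400076040028004002e0008100102))) 
(.lf (nat_lit 4096647200) (dlOf (nat_lit 1) (nat_lit 0x400018140b01)))) (.nd (nat_lit 7) 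
(.lf (nat_lit 4228243744) (dlOf (nat_lit 1) (nat_lit 0x8008000800200020008090503))) 
(.lf (nat_lit 4228243616) (dlOf (nat_lit 1) (nat_lit 0x1d0008005000200560008090203))))))) 
(.nd (nat_lit 19) (.nd (nat_lit 8) (.nd (nat_lit 7) (.nd (nat_lit 9) (.nd (nat_lit 10) 
(.lf (nat_lit 49668192) (dlOf (nat_lit 2) (nat_lit 0x557f60004b2900023829480900))) 
(.lf (nat_lit 38134880) (dlOf (nat_lit 1) (nat_lit 0x800200020009132902)))) 
(.lf (nat_lit 20313696) (dlOf (nat_lit 1) (nat_lit 0x4002000200089d9c02)))) (.nd (nat_lit 26) 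
(.lf (nat_lit 1476780256) (dlOf (nat_lit 13) (nat_lit 0x440000002a81003500b8001500801a805c000a60400c802e0032007003a0000001481801f805c002400e0005004006a0170002781000b00b8000e00801800000006e0400980000003602003e0000001a81003b0000000d008012000000064040068002001a00081a0582))) 
(.lf (nat_lit 604365024) (dlOf (nat_lit 13) (nat_lit 0x440000002a81003500b0001500801a8058000a60400c802c0032007003a0000001481801f8058002400e0005004006a0160002781000b00b0000e00801800000006e0400980000003602003e0000001a81003b0000000d008012000000064040068002001a00081a0582))))) 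
(.nd (nat_lit 26) (.nd (nat_lit 11) 
(.lf (nat_lit 1879433568) (dlOf (nat_lit 1) (nat_lit 0x60018150901))) 
(.lf (nat_lit 1745217888) (dlOf (nat_lit 1) (nat_lit 0x600180e4e81)))) (.nd (nat_lit 29) 
(.nd (nat_lit 28) 
(.lf (nat_lit 4362461536) (dlOf (nat_lit 2) (nat_lit 0x780000000002000e0008090681))) 
(.lf (nat_lit 3557155168) (dlOf (nat_lit 1) (nat_lit 0x400200020008130902)))) (.nd (nat_lit 10) 
(.lf (nat_lit 4228243808) (dlOf (nat_lit 2) (nat_lit 0x780000000002000e0008090681))) 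
(.lf (nat_lit 872801632) (dlOf (nat_lit 2) (nat_lit 0x180000002802001000080e3401))))))) 
(.nd (nat_lit 20) (.nd (nat_lit 7) (.nd (nat_lit 8) 
(.lf (nat_lit 42852448) (dlOf (nat_lit 1) (nat_lit 0x40009280901))) 
(.lf (nat_lit 472769888) (dlOf (nat_lit 1) (nat_lit 0x260008b03401)))) (.nd (nat_lit 8) 
(.nd (nat_lit 21) (.lf (nat_lit 30269664) (dlOf (nat_lit 1) (nat_lit 0x400400020008e30582))) 
(.lf (nat_lit 7200992) (dlOf (nat_lit 2) (nat_lit 0xabda0002a02000600184b0581)))) 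
(.lf (nat_lit 1345186272) (dlOf (nat_lit 1) (nat_lit 0x20028b04e81))))) (.nd (nat_lit 7) 
(.nd (nat_lit 10) 
(.lf (nat_lit 52289632) (dlOf (nat_lit 2) (nat_lit 0xa63002c7204000400400140009521982))) 
(.lf (nat_lit 69067872) (dlOf (nat_lit 1) (nat_lit 0x5800188a2901)))) (.nd (nat_lit 8) 
(.nd (nat_lit 9) (.lf (nat_lit 6152416) (dlOf (nat_lit 2) (nat_lit 0xa8fc0002a0200060018420581))) 
(.lf (nat_lit 8254176) (dlOf (nat_lit 1) (nat_lit 0x400200020008518c82)))) 
(.lf (nat_lit 8250848) (dlOf (nat_lit 1) (nat_lit 0x800200020008513602))))))))))) (.nd (nat_lit 16) 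
(.nd (nat_lit 6) (.nd (nat_lit 18) (.nd (nat_lit 26) (.nd (nat_lit 20) (.nd (nat_lit 7) 
(.nd (nat_lit 19) (.nd (nat_lit 9) (.nd (nat_lit 8) 
(.lf (nat_lit 671146024) (dlOf (nat_lit 2) (nat_lit 0x1800300da70180b0000))) (.nd (nat_lit 10) 
(.lf (nat_lit 6576726312) (dlOf (nat_lit 1) (nat_lit 0x80080034002000e00080b0503))) 
(.lf (nat_lit 2952822056) (dlOf (nat_lit 2) (nat_lit 0x40013004c381800c600))))) (.nd (nat_lit 10) 
(.lf (nat_lit 54553384) (dlOf (nat_lit 3) (nat_lit 0x9aa120022602022f495000d1819655c00))) 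
(.lf (nat_lit 4026558248) (dlOf (nat_lit 1) (nat_lit 0x1280018003d01))))) (.nd (nat_lit 21) 
(.nd (nat_lit 15) 
(.lf (nat_lit 3624427560) (dlOf (nat_lit 2) (nat_lit 0x1c0360004102000600081a0581))) 
(.nd (nat_lit 22) (.lf (nat_lit 3892895784) (dlOf (nat_lit 1) (nat_lit 0x800200020008290d82))) 
(.lf (nat_lit 3494436904) (dlOf (nat_lit 1) (nat_lit 0x400200020008220982))))) (.nd (nat_lit 22) 
(.lf (nat_lit 2646056) (dlOf (nat_lit 5) (nat_lit 0x21d100020e000028654001c09e0000e0800101d100080e000058654001409e0000d0800161d1000b0e000048654002409e0000c0800121d100050e000040654002809e0000b0800060008180a01))) 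
(.nd (nat_lit 25) 
(.lf (nat_lit 15228968) (dlOf (nat_lit 2) (nat_lit 0x1a8000000be040130002000200087c0682))) 
(.lf (nat_lit 48783400) (dlOf (nat_lit 1) (nat_lit 0x400400020009430802))))))) (.nd (nat_lit 8) 
(.nd (nat_lit 10) (.nd (nat_lit 9) 
(.lf (nat_lit 4429211816) (dlOf (nat_lit 1) (nat_lit 0x8008000400200020008004883))) 
(.lf (nat_lit 8417960) (dlOf (nat_lit 1) (nat_lit 0x8008000400200020008518c83)))) (.nd (nat_lit 12) 
(.lf (nat_lit 4026558120) (dlOf (nat_lit 1) (nat_lit 0x20018003a81))) 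
(.lf (nat_lit 1342207656) (dlOf (nat_lit 4) (nat_lit 0x408e004c4010002047002614080010238012e40400040040002000800a002))))) 
(.nd (nat_lit 9) (.nd (nat_lit 10) 
(.lf (nat_lit 671146408) (dlOf (nat_lit 4) (nat_lit 0x90140001807003094080008050000800e00c24820005014006100080088008009c002001200080b0783))) 
(.lf (nat_lit 3489693096) (dlOf (nat_lit 8) (nat_lit 0x101f5000180100080fa8000bc0800387d400180000002e0400101f5000168100110fa800280000000a0800203ea001a1c2000010200080fa800607080000008002c0040006001800cb82)))) 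
(.nd (nat_lit 10) (.lf (nat_lit 4697648040) (dlOf (nat_lit 1) (nat_lit 0x10004000e0008005d02))) 
(.lf (nat_lit 8415144) (dlOf (nat_lit 1) (nat_lit 0x8c0028514301))))))) (.nd (nat_lit 15) 
(.nd (nat_lit 19) (.nd (nat_lit 8) (.nd (nat_lit 23) 
(.lf (nat_lit 22044712) (dlOf (nat_lit 1) (nat_lit 0x8008000800200060008a90583))) 
(.lf (nat_lit 13656104) (dlOf (nat_lit 1) (nat_lit 0xc8008007400200360008740503)))) 
(.lf (nat_lit 5772436776) (dlOf (nat_lit 1) (nat_lit 0x400200020008093182)))) (.nd (nat_lit 7) 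
(.nd (nat_lit 22) (.lf (nat_lit 45637672) (dlOf (nat_lit 1) (nat_lit 0x400200020009340202))) 
(.lf (nat_lit 24666152) (dlOf (nat_lit 3) (nat_lit 0x156940000701000ab4a000034080068008003000200240008bb0a03)))) 
(.lf (nat_lit 37251496) (dlOf (nat_lit 1) (nat_lit 0x4002001200090d4e82))))) (.nd (nat_lit 21) 
(.nd (nat_lit 23) (.nd (nat_lit 22) 
(.lf (nat_lit 1343283240) (dlOf (nat_lit 1) (nat_lit 0x200281e0681))) 
(.lf (nat_lit 22077480) (dlOf (nat_lit 2) (nat_lit 0x6cee000565c8000841000080080014002000a0008a90583)))) 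
(.nd (nat_lit 25) 
(.lf (nat_lit 13688872) (dlOf (nat_lit 2) (nat_lit 0xc69c540007e040018002000c0008740502))) 
(.lf (nat_lit 47243304) (dlOf (nat_lit 1) (nat_lit 0x200293c0281))))) (.nd (nat_lit 8) 
(.nd (nat_lit 19) (.lf (nat_lit 28368936) (dlOf (nat_lit 1) (nat_lit 0x40028d90801))) 
(.lf (nat_lit 24698920) (dlOf (nat_lit 1) (nat_lit 0x80028bb0a01)))) 
(.lf (nat_lit 19981096) (dlOf (nat_lit 1) (nat_lit 0x200189d2201))))))) (.nd (nat_lit 8) 
(.nd (nat_lit 19) (.nd (nat_lit 9) (.nd (nat_lit 29) (.nd (nat_lit 10) 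
(.lf (nat_lit 470868008) (dlOf (nat_lit 1) (nat_lit 0x60004005400081c0682))) 
(.lf (nat_lit 469791784) (dlOf (nat_lit 2) (nat_lit 0x382380146204002c004003a0008009202)))) 
(.nd (nat_lit 7) 
(.lf (nat_lit 2755682344) (dlOf (nat_lit 3) (nat_lit 0x92138006a40100211238000000800180080034002001000081b0003))) 
(.lf (nat_lit 1006659752) (dlOf (nat_lit 1) (nat_lit 0x8008000400200020008004883))))) 
(.nd (nat_lit 7) (.nd (nat_lit 10) 
(.lf (nat_lit 201357864) (dlOf (nat_lit 1) (nat_lit 0x28001800b281))) 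
(.lf (nat_lit 6106932776) (dlOf (nat_lit 2) (nat_lit 0xb00b000000080038008002800200320008003703)))) 
(.lf (nat_lit 3691017896) (dlOf (nat_lit 1) (nat_lit 0xe000800a001))))) (.nd (nat_lit 27) 
(.nd (nat_lit 29) (.nd (nat_lit 28) 
(.lf (nat_lit 4362625064) (dlOf (nat_lit 2) (nat_lit 0x800000e7404017000200f400080b0a02))) 
(.lf (nat_lit 3557318696) (dlOf (nat_lit 1) (nat_lit 0x4e00281c0681)))) (.nd (nat_lit 9) 
(.lf (nat_lit 2756239400) (dlOf (nat_lit 1) (nat_lit 0x400200020008220982))) 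
(.lf (nat_lit 2752018984) (dlOf (nat_lit 1) (nat_lit 0x40040002000800b282))))) (.nd (nat_lit 28) 
(.lf (nat_lit 2886230056) (dlOf (nat_lit 2) (nat_lit 0x1c0340004102000600081a0581))) 
(.lf (nat_lit 4228407336) (dlOf (nat_lit 2) (nat_lit 0x8000019c604017000200f400080b0a02)))))) 
(.nd (nat_lit 10) (.nd (nat_lit 11) (.nd (nat_lit 7) 
(.lf (nat_lit 5972746536) (dlOf (nat_lit 1) (nat_lit 0x80080034002000e00080b0503))) 
(.nd (nat_lit 15) 
(.lf (nat_lit 6375891368) (dlOf (nat_lit 1) (nat_lit 0x8008000c00200020008001003))) 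
(.lf (nat_lit 1409868200) (dlOf (nat_lit 1) (nat_lit 0xa0028090781))))) (.nd (nat_lit 7) 
(.lf (nat_lit 201357608) (dlOf (nat_lit 1) (nat_lit 0x800801b00020002000800ab83))) (.nd (nat_lit 9) 
(.lf (nat_lit 1946184104) (dlOf (nat_lit 1) (nat_lit 0xbc0018004e81))) 
(.lf (nat_lit 1275095976) (dlOf (nat_lit 1) (nat_lit 0x140008005d01)))))) (.nd (nat_lit 11) 
(.nd (nat_lit 7) (.nd (nat_lit 9) 
(.lf (nat_lit 2080433448) (dlOf (nat_lit 1) (nat_lit 0x20008093181))) 
(.lf (nat_lit 469788456) (dlOf (nat_lit 1) (nat_lit 0x60018003d01)))) 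
(.lf (nat_lit 6375400872) (dlOf (nat_lit 1) (nat_lit 0x20028003601)))) (.nd (nat_lit 15) 
(.nd (nat_lit 27) (.lf (nat_lit 604011816) (dlOf (nat_lit 2) (nat_lit 0xc000004fe01800c600))) 
(.lf (nat_lit 469794088) (dlOf (nat_lit 2) (nat_lit 0x10238013f804000c0040002000800c602)))) 
(.lf (nat_lit 469826856) (dlOf (nat_lit 1) (nat_lit 0x2000800c601)))))))) (.nd (nat_lit 28) 
(.nd (nat_lit 15) (.nd (nat_lit 19) (.nd (nat_lit 30) (.nd (nat_lit 20) (.nd (nat_lit 21) 
(.lf (nat_lit 537157672) (dlOf (nat_lit 1) (nat_lit 0x20018030a81))) 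
(.lf (nat_lit 10772520) (dlOf (nat_lit 8) (nat_lit 0x447da0002a0201c4551000108100a92a88000800805495440003e040320aa20001d0200245510000e0100012a8800068080138008006c00200020008620583)))) 
(.nd (nat_lit 8) (.lf (nat_lit 30695464) (dlOf (nat_lit 1) (nat_lit 0x300008e40d81))) 
(.lf (nat_lit 11821352) (dlOf (nat_lit 1) (nat_lit 0x80080004002000200086c0503))))) 
(.nd (nat_lit 27) (.nd (nat_lit 31) 
(.lf (nat_lit 1678008360) (dlOf (nat_lit 9) (nat_lit 0x720210036803801d40180138000000110400bc021005f0038031401801d8000000108400b7021005c80380290018000200600e6042006e007004e00000003c0c02e0084017200e00e80000000741805b010802e001c00f20000000e0300bd021005f803800036080070084004a00e001000000006818003800802a4002026e0008130583))) 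
(.lf (nat_lit 3825492008) (dlOf (nat_lit 1) (nat_lit 0x20018170a81)))) (.nd (nat_lit 7) 
(.lf (nat_lit 1812226088) (dlOf (nat_lit 14) (nat_lit 0x40090001c03e0006404000801f0003181000c01200018008004808c001003e0005a0400060130002b81000c0118009804c000ac0800300480004e02002a0240002601001001200012c0800a00900009204002c0000002f0200180180000481000c00c000004080020008001000200100008180583))) 
(.lf (nat_lit 1745117352) (dlOf (nat_lit 1) (nat_lit 0x8002000400080a2c02)))))) (.nd (nat_lit 20) 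
(.nd (nat_lit 7) (.nd (nat_lit 21) 
(.lf (nat_lit 4362887208) (dlOf (nat_lit 4) (nat_lit 0x40a400cd202003e0520066801002c00000000008005000800b8002002e00081a0003))) 
(.lf (nat_lit 2908200) (dlOf (nat_lit 1) (nat_lit 0x200181d0501)))) 
(.lf (nat_lit 4362887592) (dlOf (nat_lit 2) (nat_lit 0x990290000000801580080028002003e00081a0783)))) 
(.nd (nat_lit 7) (.nd (nat_lit 23) 
(.lf (nat_lit 18636840) (dlOf (nat_lit 1) (nat_lit 0x40028960801))) 
(.lf (nat_lit 27025448) (dlOf (nat_lit 2) (nat_lit 0x240000002f818ca0680)))) 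
(.lf (nat_lit 8156328) (dlOf (nat_lit 1) (nat_lit 0x1c0018519501)))))) (.nd (nat_lit 27) 
(.nd (nat_lit 19) (.nd (nat_lit 9) (.nd (nat_lit 22) 
(.lf (nat_lit 4362395688) (dlOf (nat_lit 2) (nat_lit 0x18800000000040018002003c0008050582))) 
(.lf (nat_lit 12902440) (dlOf (nat_lit 1) (nat_lit 0x148002004e00086e0a02)))) (.nd (nat_lit 11) 
(.lf (nat_lit 57991720) (dlOf (nat_lit 2) (nat_lit 0x417a4000f2040030002000200097a8882))) 
(.lf (nat_lit 45410856) (dlOf (nat_lit 1) (nat_lit 0x180080060002003c0009325183))))) 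
(.nd (nat_lit 21) (.nd (nat_lit 20) 
(.lf (nat_lit 59564072) (dlOf (nat_lit 1) (nat_lit 0x7c00400200009810802))) 
(.lf (nat_lit 10281000) (dlOf (nat_lit 1) (nat_lit 0x6c002004400085c0a82)))) (.nd (nat_lit 7) 
(.lf (nat_lit 2754404392) (dlOf (nat_lit 19) (nat_lit 0x3847e00d421400a510900a986d409082d2010016302660aa01578548027c26a023a12e005d09400410478002822a000741a00c4212026a0aa0001cc1042f0848014042004021fa09450aa800c855000502a411fa138002609a8001c84000f0554023c2700007104028021202460aa810504e0000e00c09b842404a01fa03590aa81560550016c2a4016815000ad0a7818584e007e826e0310000000378a0044109001007e800382a00006e0601b6155009f09c000090101030848072c3f4014a1e402f00aa801305500aa827003ec137000110702bf109015a87e80e082aa06a01380001084000e109001987e800682aa0002006035221201bf0fd014c8554096c2700001f0804c6212000e108812a87e80d2c2aa000a13c030409c000e04dc000381c099042400282110006102012b07e80d382aa005014f003709e018204e0022426e0001b1200821550000d01008b0aa802584e0000320801b82aa000180204fc21200be102015b87e804042d2074615400480a90055853c015426e0098124001b08f0000005010f00080d000020cba00080e0503)))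 
(.lf (nat_lit 19721128) (dlOf (nat_lit 1) (nat_lit 0x288008011c00200aa00089d5d03)))))) 
(.nd (nat_lit 7) (.nd (nat_lit 26) (.nd (nat_lit 30) 
(.lf (nat_lit 2282020904) (dlOf (nat_lit 2) (nat_lit 0xc03a000510200020018100681))) 
(.lf (nat_lit 1208279080) (dlOf (nat_lit 1) (nat_lit 0x20002000c00080b0382)))) 
(.lf (nat_lit 1812258856) (dlOf (nat_lit 1) (nat_lit 0x200181c0581)))) (.nd (nat_lit 8) 
(.lf (nat_lit 671408296) (dlOf (nat_lit 3) (nat_lit 0xf00d80130808005806c0098204001c00400280008184c02))) 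
(.lf (nat_lit 2886002600) (dlOf (nat_lit 1) (nat_lit 0x400200040008144302))))))) (.nd (nat_lit 30) 
(.nd (nat_lit 15) (.nd (nat_lit 27) (.nd (nat_lit 26) (.nd (nat_lit 7) 
(.lf (nat_lit 805593128) (dlOf (nat_lit 9) (nat_lit 0x720210036803801d40180138000000110400bc021005f0038031401801d8000000108400b7021005c80380290018000200600e6042006e007004e00000003c0c02e0084017200e00e80000000741805b010802e001c00f20000000e0300bd021005f803800036080070084004a00e001000000006818003800802a4002026e0008130583))) 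
(.lf (nat_lit 4563689640) (dlOf (nat_lit 3) (nat_lit 0x1002f000100100340198000000800080080008002004200080c1483)))) 
(.nd (nat_lit 29) 
(.lf (nat_lit 335831080) (dlOf (nat_lit 1) (nat_lit 0x180008001c002002200080b0383))) 
(.lf (nat_lit 872701992) (dlOf (nat_lit 1) (nat_lit 0x100080008002000400080a0a03))))) 
(.nd (nat_lit 29) 
(.lf (nat_lit 402939944) (dlOf (nat_lit 1) (nat_lit 0x180008001c002002200080b0383))) 
(.nd (nat_lit 31) 
(.lf (nat_lit 939810856) (dlOf (nat_lit 14) (nat_lit 0x40090001c03e0006404000801f0003181000c01200018008004808c001003e0005a0400060130002b81000c0118009804c000ac0800300480004e02002a0240002601001001200012c0800a00900009204002c0000002f0200180180000481000c00c000004080020008001000200100008180583))) 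
(.lf (nat_lit 3087294504) (dlOf (nat_lit 1) (nat_lit 0x20018170a81)))))) (.nd (nat_lit 26) 
(.nd (nat_lit 27) (.lf (nat_lit 4563722280) (dlOf (nat_lit 1) (nat_lit 0x200280d0281))) 
(.nd (nat_lit 29) (.lf (nat_lit 4697940008) (dlOf (nat_lit 1) (nat_lit 0x200280d0281))) 
(.lf (nat_lit 939843624) (dlOf (nat_lit 1) (nat_lit 0x200181c0581))))) (.nd (nat_lit 21) 
(.nd (nat_lit 29) 
(.lf (nat_lit 470081576) (dlOf (nat_lit 4) (nat_lit 0x60e880008714000a60800183a200021cd00010e28000d4180008734000680400ac00400140008040582))) 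
(.lf (nat_lit 1006952488) (dlOf (nat_lit 6) (nat_lit 0x405100040270000381000181380001a04000c09c0000c02000c04e0000581000102a800000080060008000c002002600080f0a03)))) 
(.lf (nat_lit 1009049640) (dlOf (nat_lit 1) (nat_lit 0x2be0009020381)))))) (.nd (nat_lit 26) 
(.nd (nat_lit 15) (.nd (nat_lit 7) (.nd (nat_lit 8) 
(.lf (nat_lit 1476681768) (dlOf (nat_lit 2) (nat_lit 0x1201b00000018110980))) 
(.lf (nat_lit 5771651880) (dlOf (nat_lit 1) (nat_lit 0x22c0028005c01)))) 
(.lf (nat_lit 3489950120) (dlOf (nat_lit 1) (nat_lit 0x20008004e81)))) (.nd (nat_lit 19) 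
(.nd (nat_lit 29) 
(.lf (nat_lit 1342496808) (dlOf (nat_lit 4) (nat_lit 0x60e880008714000a60800183a200021cd00010e28000d4180008734000680400ac00400140008040582))) 
(.lf (nat_lit 1879367720) (dlOf (nat_lit 6) (nat_lit 0x405100040270000381000181380001a04000c09c0000c02000c04e0000581000102a800000080060008000c002002600080f0a03)))) 
(.nd (nat_lit 20) 
(.lf (nat_lit 3492601896) (dlOf (nat_lit 19) (nat_lit 0x3845400d41ff00a50fe80a9868002002d6048416502660af01578570027c26a023a12e005d09200410478002822a000741a00c41fd026a0af0001cc1042f07f401403f604021e809450af800c857800502b811fa138002609a8001c84000f057c023c270000710402801fd02460af810504e0000e00c09b83fa04a01e803590af81560578016c2b8016815000ad0a7818584e007e826e0310000000378a00440fe801007a000382a00006e0601b615f009f09c0000901010307f4072c3d0014a1cf02f00af801305780aa827003ec137000110702bf0fe815a87a00e082be06a01380001084000e0fe801987a000682be000200603521fd01bf0f4014c857c096c2700001f0804c61fd000e0fe012a87a00d2c2be000a13c030409c000e04dc000381c09903fa00281fc02560f4000307880d382be005014f003709e018204e0022426e0001b12008215f0000d01008b0af802584e0000320801b82be000180204fc1fd02b70f4005f078804042ca074615e00480ae0055853c015426e009812a001b08f0000005010f00080d000020cba00080e0503)))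 
(.lf (nat_lit 1346166824) (dlOf (nat_lit 1) (nat_lit 0x27800400020018e60202)))))) (.nd (nat_lit 29) 
(.nd (nat_lit 8) (.nd (nat_lit 7) 
(.lf (nat_lit 1409572904) (dlOf (nat_lit 1) (nat_lit 0x20018030a81))) 
(.lf (nat_lit 1543823528) (dlOf (nat_lit 3) (nat_lit 0xf00c80295c080058064014ac04001c00400280008184c02)))) 
(.nd (nat_lit 11) 
(.lf (nat_lit 1543823656) (dlOf (nat_lit 8) (nat_lit 0xa40230052d8100550118029680802c808c014b20401a004600a460200b4023005228100380118028f008003808c014760400a000400a80008187802))) 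
(.lf (nat_lit 1410132264) (dlOf (nat_lit 1) (nat_lit 0x200180f4b81))))) (.nd (nat_lit 19) 
(.nd (nat_lit 31) (.lf (nat_lit 2080694312) (dlOf (nat_lit 1) (nat_lit 0x20002000c00080b0382))) 
(.lf (nat_lit 4228177960) (dlOf (nat_lit 2) (nat_lit 0x18800000000040018002003c0008050582)))) 
(.lf (nat_lit 4228702248) (dlOf (nat_lit 1) (nat_lit 0x84002002000081a0002))))))))) 
(.nd (nat_lit 7) (.nd (nat_lit 15) (.nd (nat_lit 18) (.nd (nat_lit 11) (.nd (nat_lit 19) 
(.nd (nat_lit 26) 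
(.lf (nat_lit 3493880168) (dlOf (nat_lit 7) (nat_lit 0x19901800002c0200ce0c0000158100400440000a40800103000004a0400e0180000210200020c00000d8181b0700))) 
(.lf (nat_lit 2755682664) (dlOf (nat_lit 3) (nat_lit 0x1448e00029020046247000128181b0700)))) 
(.nd (nat_lit 8) 
(.lf (nat_lit 3959971944) (dlOf (nat_lit 9) (nat_lit 0x2081180002e04015408a0090042002201f802600cc0002810018808c004e0430021020001100e00002610005008c00780430000902006b0230000440801901180001004005c08c00240410000202003302300000c080338008048800200080008181403))) 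
(.nd (nat_lit 26) (.lf (nat_lit 1074291048) (dlOf (nat_lit 1) (nat_lit 0x400081b0701))) 
(.lf (nat_lit 1946706280) (dlOf (nat_lit 1) (nat_lit 0x400081b0701)))))) (.nd (nat_lit 27) 
(.nd (nat_lit 9) (.lf (nat_lit 3489693032) (dlOf (nat_lit 1) (nat_lit 0x540040002000800c902))) 
(.lf (nat_lit 4294998888) (dlOf (nat_lit 1) (nat_lit 0x180020008000800bc82)))) (.nd (nat_lit 8) 
(.lf (nat_lit 1006664808) (dlOf (nat_lit 1) (nat_lit 0x120008003c002000a000800c083))) 
(.nd (nat_lit 12) (.lf (nat_lit 134245736) (dlOf (nat_lit 1) (nat_lit 0x400200020008006a82))) 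
(.lf (nat_lit 3087039848) (dlOf (nat_lit 1) (nat_lit 0x2002800c901))))))) (.nd (nat_lit 8) 
(.nd (nat_lit 10) (.nd (nat_lit 9) (.nd (nat_lit 19) 
(.lf (nat_lit 2349097064) (dlOf (nat_lit 1) (nat_lit 0x380080004002000e00080a1403))) 
(.lf (nat_lit 1346134120) (dlOf (nat_lit 2) (nat_lit 0xa60d900007018e60980)))) 
(.lf (nat_lit 20214376) (dlOf (nat_lit 1) (nat_lit 0x80080004002000200089d8983)))) 
(.nd (nat_lit 11) (.lf (nat_lit 3557061736) (dlOf (nat_lit 1) (nat_lit 0x4002001c0008129402))) 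
(.nd (nat_lit 19) 
(.lf (nat_lit 2818866280) (dlOf (nat_lit 6) (nat_lit 0x801b0000940800700d80004604000406c0002202001e0360000c01001201b000010080200008004c0020050000812c083))) 
(.lf (nat_lit 67927144) (dlOf (nat_lit 1) (nat_lit 0xa000833c081)))))) (.nd (nat_lit 28) 
(.nd (nat_lit 26) 
(.lf (nat_lit 135029096) (dlOf (nat_lit 2) (nat_lit 0x1180000000002000800081b0701))) 
(.nd (nat_lit 27) 
(.lf (nat_lit 4362887528) (dlOf (nat_lit 2) (nat_lit 0xc80000000004002c002002000081a0702))) 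
(.lf (nat_lit 202137960) (dlOf (nat_lit 2) (nat_lit 0x1180000000002000800081b0701))))) 
(.nd (nat_lit 9) (.nd (nat_lit 10) 
(.lf (nat_lit 4228669800) (dlOf (nat_lit 2) (nat_lit 0xc80000000004002c002002000081a0702))) 
(.lf (nat_lit 5301888360) (dlOf (nat_lit 2) (nat_lit 0x2c0000002b02001000080e3481)))) 
(.lf (nat_lit 3557060456) (dlOf (nat_lit 3) (nat_lit 0x80380052c01000101c000000080160008002c00200140008127783))))))) 
(.nd (nat_lit 8) (.nd (nat_lit 9) (.nd (nat_lit 19) (.nd (nat_lit 18) (.nd (nat_lit 20) 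
(.lf (nat_lit 12640360) (dlOf (nat_lit 1) (nat_lit 0x200186d1401))) 
(.lf (nat_lit 472965224) (dlOf (nat_lit 2) (nat_lit 0x7823400200fa000130400020018b70981)))) 
(.lf (nat_lit 4026851432) (dlOf (nat_lit 1) (nat_lit 0x3200180a1401)))) (.nd (nat_lit 18) 
(.nd (nat_lit 22) (.lf (nat_lit 42524776) (dlOf (nat_lit 1) (nat_lit 0xc00400020019260982))) 
(.lf (nat_lit 474538088) (dlOf (nat_lit 4) (nat_lit 0x1d8058000ac0400bc342023e0960116042007e820c03f80e8020607300fe00c8068805401d80000004212013e016008500000004c1001300080328002042000091a0983)))) 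
(.lf (nat_lit 1346166888) (dlOf (nat_lit 8) (nat_lit 0x26a14d029706c808d036003300fa01ae07c0003018000038300ee83640001a040a581b2011807d000060200a106c80002c080fb05340d401b203980d8018503e80d181f0000141404601b2000090204840d9004f03e800000100420008015400200640008e60983))))) 
(.nd (nat_lit 10) (.nd (nat_lit 19) 
(.lf (nat_lit 3758156392) (dlOf (nat_lit 1) (nat_lit 0x800400020008085382))) 
(.lf (nat_lit 46721640) (dlOf (nat_lit 1) (nat_lit 0x1d800400fc0009385382)))) (.nd (nat_lit 23) 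
(.lf (nat_lit 1140909672) (dlOf (nat_lit 1) (nat_lit 0x13800200340008003902))) 
(.lf (nat_lit 8447592) (dlOf (nat_lit 1) (nat_lit 0xd800200060008513902)))))) (.nd (nat_lit 18) 
(.nd (nat_lit 10) (.nd (nat_lit 22) (.nd (nat_lit 26) 
(.lf (nat_lit 671146344) (dlOf (nat_lit 3) (nat_lit 0x5c04c003a01b000a0048009000c0040000000290a0018026000a00d8002800c00080000002708005400180b0701))) 
(.lf (nat_lit 1543561576) (dlOf (nat_lit 3) (nat_lit 0x5c04c003a019000a0048009000c0040000000290a0018026000a00c8002800c00080000002708005400180b0701)))) 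
(.lf (nat_lit 3493912936) (dlOf (nat_lit 7) (nat_lit 0x810a00130820006840000031060062208000180100011010000a4080018850003041000262020016100000094200170820002840000021040050214003b100000070100020008006c002000200081b0703)))) 
(.nd (nat_lit 11) (.lf (nat_lit 583016) (dlOf (nat_lit 2) (nat_lit 0x154ae000300200020018003481))) 
(.lf (nat_lit 2885746024) (dlOf (nat_lit 1) (nat_lit 0x14002000c000800c902))))) (.nd (nat_lit 20) 
(.nd (nat_lit 26) (.lf (nat_lit 135061864) (dlOf (nat_lit 1) (nat_lit 0xb0002002800081b0702))) 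
(.lf (nat_lit 202170728) (dlOf (nat_lit 1) (nat_lit 0xb0002002800081b0702)))) (.nd (nat_lit 10) 
(.lf (nat_lit 12378472) (dlOf (nat_lit 1) (nat_lit 0x2400186c0701))) 
(.lf (nat_lit 2754936168) (dlOf (nat_lit 2) (nat_lit 0xce0b2000000180fc900)))))))) 
(.nd (nat_lit 30) (.nd (nat_lit 10) (.nd (nat_lit 15) (.nd (nat_lit 18) (.nd (nat_lit 8) 
(.lf (nat_lit 4219112) (dlOf (nat_lit 1) (nat_lit 0x400400020008290682))) (.nd (nat_lit 12) 
(.lf (nat_lit 470311400) (dlOf (nat_lit 1) (nat_lit 0x900080098002008800080c0c83))) 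
(.lf (nat_lit 469791208) (dlOf (nat_lit 1) (nat_lit 0x20004000c0018008682))))) (.nd (nat_lit 8) 
(.lf (nat_lit 54288616) (dlOf (nat_lit 2) (nat_lit 0xc0000005e819650a80))) (.nd (nat_lit 9) 
(.lf (nat_lit 1860072) (dlOf (nat_lit 1) (nat_lit 0x20028150c81))) 
(.lf (nat_lit 2818866152) (dlOf (nat_lit 1) (nat_lit 0x40040002000812bf02)))))) (.nd (nat_lit 11) 
(.nd (nat_lit 8) 
(.lf (nat_lit 2147541224) (dlOf (nat_lit 2) (nat_lit 0x21c02c000bd02000c0008090a81))) 
(.nd (nat_lit 12) (.lf (nat_lit 11592168) (dlOf (nat_lit 1) (nat_lit 0x4002007600086c0c82))) 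
(.lf (nat_lit 8188392) (dlOf (nat_lit 1) (nat_lit 0x20008000400200020008518683))))) 
(.nd (nat_lit 20) (.lf (nat_lit 2147543528) (dlOf (nat_lit 1) (nat_lit 0x400400020008094e82))) 
(.lf (nat_lit 51440104) (dlOf (nat_lit 1) (nat_lit 0x80029514e81)))))) (.nd (nat_lit 8) 
(.nd (nat_lit 15) (.nd (nat_lit 28) (.nd (nat_lit 18) 
(.lf (nat_lit 671116520) (dlOf (nat_lit 2) (nat_lit 0x404a000360200060008006501))) 
(.lf (nat_lit 537685224) (dlOf (nat_lit 1) (nat_lit 0x7400200a400080f6502)))) (.nd (nat_lit 31) 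
(.lf (nat_lit 939551976) (dlOf (nat_lit 2) (nat_lit 0x4c000000000200020018006501))) 
(.lf (nat_lit 3087035624) (dlOf (nat_lit 8) (nat_lit 0x801f0001b01000800e801080640006408002403a003a0190001802003000e802200640005c08004403a005601900150000000b418008007400c00320002b04000a01d002100c8000a41000d000800e000200020008006503))))) 
(.nd (nat_lit 9) (.nd (nat_lit 11) 
(.lf (nat_lit 8185064) (dlOf (nat_lit 5) (nat_lit 0x161d3000218100080e9800108080050780000120400203c00000002000c0008512e01))) 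
(.lf (nat_lit 2754931944) (dlOf (nat_lit 2) (nat_lit 0x1220590000d8080630008031800200c400080f6503)))) 
(.lf (nat_lit 2348869352) (dlOf (nat_lit 1) (nat_lit 0x7000800d8002003e0008003b03))))) 
(.nd (nat_lit 29) (.nd (nat_lit 20) (.nd (nat_lit 9) 
(.lf (nat_lit 8676840) (dlOf (nat_lit 1) (nat_lit 0x10008000400200020008513603))) 
(.lf (nat_lit 6576695272) (dlOf (nat_lit 1) (nat_lit 0x800200060008004602)))) (.nd (nat_lit 11) 
(.lf (nat_lit 43541992) (dlOf (nat_lit 1) (nat_lit 0xc004000200192a3602))) 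
(.lf (nat_lit 19983848) (dlOf (nat_lit 1) (nat_lit 0x200189d6e81))))) (.nd (nat_lit 12) 
(.nd (nat_lit 9) (.lf (nat_lit 738256360) (dlOf (nat_lit 1) (nat_lit 0x20018003601))) 
(.lf (nat_lit 805365736) (dlOf (nat_lit 1) (nat_lit 0x400200020008004602)))) (.nd (nat_lit 26) 
(.lf (nat_lit 2952820200) (dlOf (nat_lit 2) (nat_lit 0xd40200001602000a0008009b81))) 
(.lf (nat_lit 604009960) (dlOf (nat_lit 2) (nat_lit 0x403c00011018009b80)))))))) (.nd (nat_lit 26) 
(.nd (nat_lit 8) (.nd (nat_lit 12) (.nd (nat_lit 10) (.nd (nat_lit 15) 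
(.lf (nat_lit 3490996456) (dlOf (nat_lit 1) (nat_lit 0x60018046b81))) 
(.lf (nat_lit 1208017128) (dlOf (nat_lit 2) (nat_lit 0x2f8052018e0250005e828090a80)))) 
(.nd (nat_lit 15) (.lf (nat_lit 5772436712) (dlOf (nat_lit 1) (nat_lit 0x400400020018092e02))) 
(.lf (nat_lit 6308291816) (dlOf (nat_lit 1) (nat_lit 0xc0018052e01))))) (.nd (nat_lit 9) 
(.nd (nat_lit 11) 
(.lf (nat_lit 1342206184) (dlOf (nat_lit 1) (nat_lit 0x8008000c00200020008008083))) 
(.lf (nat_lit 1342208232) (dlOf (nat_lit 1) (nat_lit 0x180040010000800a882)))) 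
(.lf (nat_lit 1342239464) (dlOf (nat_lit 1) (nat_lit 0x80018008d81))))) (.nd (nat_lit 29) 
(.nd (nat_lit 31) (.nd (nat_lit 11) 
(.lf (nat_lit 1342726632) (dlOf (nat_lit 1) (nat_lit 0x900080098002008800080c0c83))) 
(.lf (nat_lit 1208019432) (dlOf (nat_lit 1) (nat_lit 0x400400020008094e82)))) (.nd (nat_lit 9) 
(.lf (nat_lit 3221512680) (dlOf (nat_lit 2) (nat_lit 0x1a00e00011018127300))) 
(.lf (nat_lit 3221252072) (dlOf (nat_lit 1) (nat_lit 0x70008002c00200100008004603))))) 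
(.nd (nat_lit 9) (.nd (nat_lit 10) 
(.lf (nat_lit 5905867240) (dlOf (nat_lit 1) (nat_lit 0x8008001800200020008157d03))) 
(.lf (nat_lit 3758122472) (dlOf (nat_lit 1) (nat_lit 0x800400020018003602)))) 
(.lf (nat_lit 2013326312) (dlOf (nat_lit 2) (nat_lit 0x100880000004000400400020018005e82)))))) 
(.nd (nat_lit 10) (.nd (nat_lit 8) (.nd (nat_lit 11) (.nd (nat_lit 15) 
(.lf (nat_lit 5838758120) (dlOf (nat_lit 1) (nat_lit 0x4004000200081b0482))) 
(.lf (nat_lit 5838790888) (dlOf (nat_lit 1) (nat_lit 0xe00281b0481)))) 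
(.lf (nat_lit 3691018472) (dlOf (nat_lit 2) (nat_lit 0x280140052c01800a880)))) (.nd (nat_lit 9) 
(.nd (nat_lit 11) 
(.lf (nat_lit 3959710184) (dlOf (nat_lit 2) (nat_lit 0x480000000004001400200540008127d02))) 
(.lf (nat_lit 4094454248) (dlOf (nat_lit 1) (nat_lit 0x400400020008054e82)))) 
(.lf (nat_lit 4094454760) (dlOf (nat_lit 1) (nat_lit 0x400200020008055e82))))) (.nd (nat_lit 29) 
(.nd (nat_lit 9) (.nd (nat_lit 11) 
(.lf (nat_lit 3556795880) (dlOf (nat_lit 8) (nat_lit 0x3802e0014016000900700050030002400c0012004000d0000008943800200180041604002800c0012004000c00000081c1800a0000003f604001800000172020012006000b0000002d01000700000000004003000400080018003602))) 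
(.lf (nat_lit 1409314280) (dlOf (nat_lit 1) (nat_lit 0xa0018006e81)))) 
(.lf (nat_lit 1410099176) (dlOf (nat_lit 1) (nat_lit 0xe00080f4601)))) (.nd (nat_lit 8) 
(.lf (nat_lit 6106932456) (dlOf (nat_lit 1) (nat_lit 0x800200020008002e02))) (.nd (nat_lit 9) 
(.lf (nat_lit 6375892456) (dlOf (nat_lit 1) (nat_lit 0x20028003601))) 
(.lf (nat_lit 3825231848) (dlOf (nat_lit 2) (nat_lit 0x10000000660400c0002003a0008004602))))))))))) 
(.nd (nat_lit 18) (.nd (nat_lit 6) (.nd (nat_lit 8) (.nd (nat_lit 19) (.nd (nat_lit 7) 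
(.nd (nat_lit 15) (.nd (nat_lit 20) (.nd (nat_lit 10) 
(.lf (nat_lit 21061672) (dlOf (nat_lit 9) (nat_lit 0xadf500126a58000b34c000820c0029bea000adec00056a58007b34c00080100031bea000edec00076a58005b34c0007c10002dbea000cdec00096a58006b34c0007a100009be8000cdec00046f58009352c0006e10001dbea0006dec00076a58005b34c0006c10000da9600001020016df500146a5800000100158008002400200040008a00983))) 
(.lf (nat_lit 1610703912) (dlOf (nat_lit 1) (nat_lit 0x40018092881)))) (.nd (nat_lit 21) 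
(.lf (nat_lit 22110248) (dlOf (nat_lit 2) (nat_lit 0xbaa80003a04002800200040008a90582))) 
(.lf (nat_lit 3235880) (dlOf (nat_lit 1) (nat_lit 0x280008200001))))) (.nd (nat_lit 9) 
(.nd (nat_lit 26) (.lf (nat_lit 1879171112) (dlOf (nat_lit 1) (nat_lit 0x80018040581))) 
(.lf (nat_lit 1006755880) (dlOf (nat_lit 1) (nat_lit 0x80018040581)))) (.nd (nat_lit 10) 
(.lf (nat_lit 11657768) (dlOf (nat_lit 1) (nat_lit 0x58008002c002000600086c0e03))) 
(.lf (nat_lit 6509686312) (dlOf (nat_lit 1) (nat_lit 0x400200020008147182)))))) (.nd (nat_lit 10) 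
(.nd (nat_lit 12) (.nd (nat_lit 15) 
(.lf (nat_lit 2187432) (dlOf (nat_lit 1) (nat_lit 0x20018150281))) 
(.lf (nat_lit 1346494632) (dlOf (nat_lit 1) (nat_lit 0x20018f72c01)))) (.nd (nat_lit 9) 
(.lf (nat_lit 1342273704) (dlOf (nat_lit 1) (nat_lit 0x36002800a881))) 
(.lf (nat_lit 8516264) (dlOf (nat_lit 1) (nat_lit 0x400200020008518c82))))) (.nd (nat_lit 9) 
(.nd (nat_lit 15) (.lf (nat_lit 3825298600) (dlOf (nat_lit 1) (nat_lit 0x60028146281))) 
(.lf (nat_lit 3825331368) (dlOf (nat_lit 1) (nat_lit 0x400200020008146282)))) 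
(.lf (nat_lit 201418408) (dlOf (nat_lit 1) (nat_lit 0x40028003a81)))))) (.nd (nat_lit 26) 
(.nd (nat_lit 30) (.nd (nat_lit 15) (.nd (nat_lit 9) 
(.lf (nat_lit 28925992) (dlOf (nat_lit 1) (nat_lit 0x480018da0001))) 
(.lf (nat_lit 50946600) (dlOf (nat_lit 1) (nat_lit 0x4004001200094d8882)))) (.nd (nat_lit 20) 
(.lf (nat_lit 11132968) (dlOf (nat_lit 1) (nat_lit 0xc000802b400200460008660683))) 
(.lf (nat_lit 26861608) (dlOf (nat_lit 1) (nat_lit 0x3e0028c80681))))) (.nd (nat_lit 9) 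
(.nd (nat_lit 15) (.nd (nat_lit 21) 
(.lf (nat_lit 3892928552) (dlOf (nat_lit 2) (nat_lit 0x18066001690200020028290d81))) 
(.lf (nat_lit 3492372520) (dlOf (nat_lit 8) (nat_lit 0x401e60000c8100200f30000600801007980002e04009c3cc000160200401e60000a81003b0f30000500801b0798000000400ac00400b400080c0c02)))) 
(.lf (nat_lit 1342824488) (dlOf (nat_lit 1) (nat_lit 0x5000180e0a01)))) 
(.lf (nat_lit 3491324456) (dlOf (nat_lit 1) (nat_lit 0x120028090e01))))) (.nd (nat_lit 9) 
(.nd (nat_lit 28) (.nd (nat_lit 21) 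
(.lf (nat_lit 3960037416) (dlOf (nat_lit 4) (nat_lit 0x401c0001902000600e0000c010001007000050080008008002c002006400081a0d03))) 
(.lf (nat_lit 2754175016) (dlOf (nat_lit 3) (nat_lit 0x401f80000c81002e0fc0000600800380080098002003400080c0d03)))) 
(.nd (nat_lit 15) 
(.lf (nat_lit 3154731048) (dlOf (nat_lit 1) (nat_lit 0x38008007000200140008310003))) 
(.lf (nat_lit 470409256) (dlOf (nat_lit 1) (nat_lit 0x5000180e0a01))))) (.nd (nat_lit 7) 
(.nd (nat_lit 15) (.lf (nat_lit 2753126952) (dlOf (nat_lit 1) (nat_lit 0x120028090e01))) 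
(.lf (nat_lit 473555496) (dlOf (nat_lit 1) (nat_lit 0x18008000c00200040008f68883)))) 
(.lf (nat_lit 1008298664) (dlOf (nat_lit 1) (nat_lit 0x200028b55601))))))) (.nd (nat_lit 11) 
(.nd (nat_lit 7) (.nd (nat_lit 26) (.nd (nat_lit 28) (.nd (nat_lit 19) 
(.lf (nat_lit 1744920872) (dlOf (nat_lit 1) (nat_lit 0x11400201340008090b02))) 
(.lf (nat_lit 17391912) (dlOf (nat_lit 1) (nat_lit 0x4004000200088e0702)))) (.nd (nat_lit 12) 
(.lf (nat_lit 2952880424) (dlOf (nat_lit 1) (nat_lit 0x17c00400280018010702))) 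
(.lf (nat_lit 1342271784) (dlOf (nat_lit 1) (nat_lit 0x800200020008008082))))) (.nd (nat_lit 22) 
(.lf (nat_lit 604070184) (dlOf (nat_lit 1) (nat_lit 0xb0008001c00200160008010703))) 
(.lf (nat_lit 2755748136) (dlOf (nat_lit 1) (nat_lit 0x1c8002005e00081b0502))))) (.nd (nat_lit 9) 
(.nd (nat_lit 10) (.lf (nat_lit 9036200) (dlOf (nat_lit 1) (nat_lit 0x20028511001))) 
(.lf (nat_lit 6241215912) (dlOf (nat_lit 3) (nat_lit 0x5804c001c0040009d04000801300060010002381000d8008003c00200240008053603)))) 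
(.nd (nat_lit 10) (.lf (nat_lit 9040808) (dlOf (nat_lit 1) (nat_lit 0x180080018002000a0008519103))) 
(.nd (nat_lit 12) (.lf (nat_lit 3087099816) (dlOf (nat_lit 1) (nat_lit 0x400400020008144302))) 
(.lf (nat_lit 96168) (dlOf (nat_lit 1) (nat_lit 0x2001800a301))))))) (.nd (nat_lit 9) 
(.nd (nat_lit 29) (.nd (nat_lit 15) 
(.lf (nat_lit 20016424) (dlOf (nat_lit 1) (nat_lit 0x700080044002001400089d6803))) 
(.lf (nat_lit 3221351720) (dlOf (nat_lit 1) (nat_lit 0x8008002c00200020008116803)))) 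
(.nd (nat_lit 10) (.lf (nat_lit 3959552296) (dlOf (nat_lit 1) (nat_lit 0x1e001811ab81))) 
(.lf (nat_lit 805432616) (dlOf (nat_lit 1) (nat_lit 0x20028116801))))) (.nd (nat_lit 12) 
(.nd (nat_lit 15) (.nd (nat_lit 19) 
(.lf (nat_lit 54618920) (dlOf (nat_lit 1) (nat_lit 0x20029655c01))) 
(.lf (nat_lit 69823272) (dlOf (nat_lit 1) (nat_lit 0x38008003c00200060008cd5c03)))) 
(.lf (nat_lit 5637270312) (dlOf (nat_lit 2) (nat_lit 0xf802a003c004000aa028055c00)))) 
(.nd (nat_lit 15) 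
(.lf (nat_lit 97064) (dlOf (nat_lit 2) (nat_lit 0x6274801544080080008005c0020006000800bc83))) 
(.lf (nat_lit 3489790760) (dlOf (nat_lit 1) (nat_lit 0x40040002000800bc82)))))))) (.nd (nat_lit 8) 
(.nd (nat_lit 7) (.nd (nat_lit 19) (.nd (nat_lit 22) (.nd (nat_lit 9) 
(.lf (nat_lit 3825298536) (dlOf (nat_lit 1) (nat_lit 0x1a0018146081))) (.nd (nat_lit 12) 
(.lf (nat_lit 2617336424) (dlOf (nat_lit 7) (nat_lit 0x7a0100000d80807b00800006a04038404000034020084020000168100010100000ac0803a00800005404002c004000200180a1802))) 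
(.lf (nat_lit 1342272104) (dlOf (nat_lit 1) (nat_lit 0x2c0028008981))))) (.nd (nat_lit 10) 
(.nd (nat_lit 15) (.lf (nat_lit 12673128) (dlOf (nat_lit 2) (nat_lit 0x123db000080186d1400))) 
(.lf (nat_lit 12705896) (dlOf (nat_lit 2) (nat_lit 0xc3db000080186d1400)))) 
(.lf (nat_lit 38921320) (dlOf (nat_lit 2) (nat_lit 0x4a2700004819192980))))) (.nd (nat_lit 15) 
(.nd (nat_lit 23) (.nd (nat_lit 26) 
(.lf (nat_lit 537485416) (dlOf (nat_lit 4) (nat_lit 0x5814800380660001504001e052000098100130290000100802b0008008c002001c00080a1403))) 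
(.lf (nat_lit 1409900648) (dlOf (nat_lit 1) (nat_lit 0x180080004002000800080a1403)))) 
(.lf (nat_lit 42557544) (dlOf (nat_lit 3) (nat_lit 0x1340800098250000982001c43e80002808007800800f800200600009260983)))) 
(.nd (nat_lit 26) (.lf (nat_lit 537518184) (dlOf (nat_lit 1) (nat_lit 0x4004000200180a1402))) 
(.lf (nat_lit 1409933416) (dlOf (nat_lit 1) (nat_lit 0x600280a1401)))))) (.nd (nat_lit 26) 
(.nd (nat_lit 9) (.nd (nat_lit 10) 
(.lf (nat_lit 1208049896) (dlOf (nat_lit 3) (nat_lit 0x94072001610200c403800f1015001880a4044c04a01e002000fd004008380000017a1c007800200160008090a82))) 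
(.lf (nat_lit 3490311400) (dlOf (nat_lit 1) (nat_lit 0x220008006501)))) (.nd (nat_lit 10) 
(.lf (nat_lit 7959272) (dlOf (nat_lit 1) (nat_lit 0x20018518d81))) (.nd (nat_lit 27) 
(.lf (nat_lit 5905704680) (dlOf (nat_lit 1) (nat_lit 0x80018143b01))) 
(.lf (nat_lit 3087132392) (dlOf (nat_lit 1) (nat_lit 0x8008000800200020008143b03)))))) 
(.nd (nat_lit 11) (.nd (nat_lit 10) (.nd (nat_lit 27) 
(.lf (nat_lit 335634664) (dlOf (nat_lit 2) (nat_lit 0x360068002f4080030008002000200080008090a83))) 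
(.lf (nat_lit 738287848) (dlOf (nat_lit 2) (nat_lit 0x1005000047018090a80)))) 
(.lf (nat_lit 1275159784) (dlOf (nat_lit 1) (nat_lit 0x40028092e01)))) (.nd (nat_lit 15) 
(.nd (nat_lit 20) 
(.lf (nat_lit 2885774568) (dlOf (nat_lit 1) (nat_lit 0x2c0008016800200860008006503))) 
(.lf (nat_lit 2754702568) (dlOf (nat_lit 1) (nat_lit 0x30002004200080f6502)))) 
(.lf (nat_lit 5838597352) (dlOf (nat_lit 3) (nat_lit 0x5009c005001a0003604004002e00120138000b41000800080004002000c00080f6503))))))) 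
(.nd (nat_lit 10) (.nd (nat_lit 15) (.nd (nat_lit 7) (.nd (nat_lit 9) 
(.lf (nat_lit 2348900712) (dlOf (nat_lit 2) (nat_lit 0x3405c00a4502002e0028015201))) 
(.lf (nat_lit 738290536) (dlOf (nat_lit 1) (nat_lit 0xc0008095c01)))) (.nd (nat_lit 9) 
(.nd (nat_lit 27) 
(.lf (nat_lit 3825297896) (dlOf (nat_lit 1) (nat_lit 0x8008000400200020008144e83))) 
(.lf (nat_lit 1812031976) (dlOf (nat_lit 1) (nat_lit 0x400400020008144e82)))) 
(.lf (nat_lit 4697711592) (dlOf (nat_lit 2) (nat_lit 0xc024008ec0200060028092881))))) 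
(.nd (nat_lit 25) (.nd (nat_lit 7) 
(.lf (nat_lit 1073865064) (dlOf (nat_lit 1) (nat_lit 0x400200020008015202))) 
(.lf (nat_lit 738322920) (dlOf (nat_lit 1) (nat_lit 0x400400020008094e82)))) (.nd (nat_lit 19) 
(.lf (nat_lit 38922728) (dlOf (nat_lit 1) (nat_lit 0x38008000c00200020009194e83))) 
(.lf (nat_lit 34204136) (dlOf (nat_lit 1) (nat_lit 0x1000400020008fb4e82)))))) (.nd (nat_lit 9) 
(.nd (nat_lit 11) (.nd (nat_lit 7) 
(.lf (nat_lit 3892405608) (dlOf (nat_lit 1) (nat_lit 0x80002000c0008103482))) (.nd (nat_lit 15) 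
(.lf (nat_lit 472999400) (dlOf (nat_lit 1) (nat_lit 0x400400020018bb3602))) 
(.lf (nat_lit 6308357608) (dlOf (nat_lit 1) (nat_lit 0x400200020008053602))))) (.nd (nat_lit 7) 
(.lf (nat_lit 805432680) (dlOf (nat_lit 1) (nat_lit 0x7c00200120008116a82))) (.nd (nat_lit 15) 
(.lf (nat_lit 1543597544) (dlOf (nat_lit 2) (nat_lit 0x3800000000040018002002c0008146e82))) 
(.lf (nat_lit 1543630312) (dlOf (nat_lit 2) (nat_lit 0x1013000080000000008000c00200220008146e82)))))) 
(.nd (nat_lit 30) (.nd (nat_lit 23) 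
(.lf (nat_lit 6442575848) (dlOf (nat_lit 1) (nat_lit 0x400280f4601))) 
(.lf (nat_lit 8513512) (dlOf (nat_lit 1) (nat_lit 0x180028514601)))) (.nd (nat_lit 15) 
(.lf (nat_lit 3623970792) (dlOf (nat_lit 2) (nat_lit 0x100000006604006800200060008004602))) 
(.lf (nat_lit 5905704936) (dlOf (nat_lit 1) (nat_lit 0xa0018144601))))))))) (.nd (nat_lit 15) 
(.nd (nat_lit 20) (.nd (nat_lit 26) (.nd (nat_lit 6) (.nd (nat_lit 27) (.nd (nat_lit 19) 
(.nd (nat_lit 21) (.lf (nat_lit 3494207528) (dlOf (nat_lit 1) (nat_lit 0x4004000200181d0a02))) 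
(.lf (nat_lit 2449448) (dlOf (nat_lit 1) (nat_lit 0x20018160901)))) (.nd (nat_lit 21) 
(.lf (nat_lit 1343053864) (dlOf (nat_lit 2) (nat_lit 0x4071c000d404005c00200040008140502))) 
(.lf (nat_lit 3492634664) (dlOf (nat_lit 4) (nat_lit 0x27e0fa80ed0708000e408022c3ea0006f02010e1f5000370180e0500))))) 
(.nd (nat_lit 8) (.nd (nat_lit 28) 
(.lf (nat_lit 671440936) (dlOf (nat_lit 15) (nat_lit 0xd800c002a0030002302010900d811c0018083c00601aa00101750000001142811a0018083800601ac001000a0000001102004200b0072404c039c01b01c0000000108200e880b008b804c009801d022700d80f88018088c006022e0010209000000104400de00b0085404c041601b01db0030108000c00fc0020408000000200701fb003011e000c002400204600000001f84025700300f7000c0007a0808d800c0414003006300080c380000007610012800201080000001c8200430000000e0080f3006c097000c03f8003002900080f500000006a1406e803c011a01d000300d801e0044004c00c000600100150000000a83802f007801200000000904000200281a0581))) 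
(.lf (nat_lit 4161101864) (dlOf (nat_lit 1) (nat_lit 0xe0008130601)))) 
(.lf (nat_lit 2818924840) (dlOf (nat_lit 1) (nat_lit 0x5000200060008130702))))) (.nd (nat_lit 29) 
(.nd (nat_lit 7) (.lf (nat_lit 6442803304) (dlOf (nat_lit 1) (nat_lit 0x5c002000400081c1402))) 
(.nd (nat_lit 8) (.lf (nat_lit 17653992) (dlOf (nat_lit 1) (nat_lit 0x800288e0601))) 
(.lf (nat_lit 354280) (dlOf (nat_lit 1) (nat_lit 0x1b500080700002037e0008004603))))) 
(.nd (nat_lit 27) (.lf (nat_lit 2953142504) (dlOf (nat_lit 1) (nat_lit 0x7400200660008160602))) 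
(.lf (nat_lit 2818924776) (dlOf (nat_lit 2) (nat_lit 0xc0000003102007a0008130681)))))) 
(.nd (nat_lit 27) (.nd (nat_lit 8) (.nd (nat_lit 19) (.nd (nat_lit 22) 
(.lf (nat_lit 4362428456) (dlOf (nat_lit 6) (nat_lit 0x17402e00bc815007b40a6005c052003f028809e011c00f008c005e0410101019800480b400e00000001016012e047004b01980003c10084014c0bdc0660000e0405820330000681013002e00000c080010008006400200100008070803))) 
(.lf (nat_lit 2756010024) (dlOf (nat_lit 1) (nat_lit 0x4004000200181d0a02)))) 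
(.lf (nat_lit 2754437160) (dlOf (nat_lit 4) (nat_lit 0x27e10500ed0750000e408022c4140006f02010e20a000370180e0500)))) 
(.nd (nat_lit 7) (.lf (nat_lit 2751817512) (dlOf (nat_lit 1) (nat_lit 0x20018003d01))) 
(.lf (nat_lit 69560744) (dlOf (nat_lit 1) (nat_lit 0x88008008400200380008b44e83))))) 
(.nd (nat_lit 30) (.nd (nat_lit 19) 
(.lf (nat_lit 2617597992) (dlOf (nat_lit 1) (nat_lit 0x80008100681))) 
(.lf (nat_lit 470638632) (dlOf (nat_lit 2) (nat_lit 0x4071c000c204005c00200040008140502)))) 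
(.nd (nat_lit 6) (.nd (nat_lit 29) 
(.lf (nat_lit 1543856168) (dlOf (nat_lit 15) (nat_lit 0xd800c002a0030002302010900c811c0018083c00601aa00101750000001142811a0018083800601ac001000a0000001102004200b0072404c039c01901c0000000108200e880b008b804c009801d022700c80f88018088c006022e0010209000000104400de00b0085404c041601901db0030108000c00fc0020408000000200701fb003011e000c002400204600000001f84025700300f7000c0007a0808d800c0414003006300080c380000007610012800201080000001c8200430000000e0080f30064097000c03f8003002900080f500000006a1406e803c011a01d000300c801e0044004c00c000600100150000000a83802f007801200000000904000200281a0581))) 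
(.lf (nat_lit 4228210728) (dlOf (nat_lit 3) (nat_lit 0x18128000c07c00180320000a03000402a0001012c007c07e0001106001a0018070881)))) 
(.lf (nat_lit 3691340008) (dlOf (nat_lit 1) (nat_lit 0x7400200660008160602))))))) (.nd (nat_lit 6) 
(.nd (nat_lit 8) (.nd (nat_lit 7) (.nd (nat_lit 9) (.nd (nat_lit 19) 
(.lf (nat_lit 16080936) (dlOf (nat_lit 1) (nat_lit 0x760008860781))) 
(.lf (nat_lit 24993832) (dlOf (nat_lit 1) (nat_lit 0x1000400020008bd0d02)))) 
(.lf (nat_lit 8222248) (dlOf (nat_lit 1) (nat_lit 0x300080024002000c0008519c03)))) (.nd (nat_lit 9) 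
(.lf (nat_lit 8216744) (dlOf (nat_lit 1) (nat_lit 0x7c0018510601))) 
(.lf (nat_lit 8223400) (dlOf (nat_lit 1) (nat_lit 0x84001851b781))))) (.nd (nat_lit 19) 
(.nd (nat_lit 9) (.lf (nat_lit 58024232) (dlOf (nat_lit 1) (nat_lit 0x230004009800097b8182))) 
(.lf (nat_lit 60123944) (dlOf (nat_lit 1) (nat_lit 0x1400400060009845c02)))) (.nd (nat_lit 7) 
(.lf (nat_lit 8217384) (dlOf (nat_lit 1) (nat_lit 0x400400020008512202))) 
(.lf (nat_lit 8217512) (dlOf (nat_lit 1) (nat_lit 0x1800200040008512682)))))) (.nd (nat_lit 7) 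
(.nd (nat_lit 12) (.nd (nat_lit 21) 
(.lf (nat_lit 55926888) (dlOf (nat_lit 1) (nat_lit 0x4002000200096f0982))) 
(.lf (nat_lit 37052520) (dlOf (nat_lit 1) (nat_lit 0x400400020009090982)))) (.nd (nat_lit 9) 
(.lf (nat_lit 20280424) (dlOf (nat_lit 5) (nat_lit 0x5ec08000440200336790001201000bafa0000880800157c80003a04007c004000200189d9402))) 
(.lf (nat_lit 8221288) (dlOf (nat_lit 2) (nat_lit 0x66fd00518018518980))))) (.nd (nat_lit 10) 
(.nd (nat_lit 9) (.lf (nat_lit 8223208) (dlOf (nat_lit 1) (nat_lit 0x88001851b281))) 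
(.lf (nat_lit 60646376) (dlOf (nat_lit 1) (nat_lit 0x18008000c002000a00098c2883)))) 
(.nd (nat_lit 8) (.lf (nat_lit 20278504) (dlOf (nat_lit 1) (nat_lit 0x800800a8002002000089d6503))) 
(.nd (nat_lit 12) (.lf (nat_lit 8218088) (dlOf (nat_lit 1) (nat_lit 0x80080038002001e0008513603))) 
(.lf (nat_lit 471692776) (dlOf (nat_lit 1) (nat_lit 0xe00183d9b81))))))))) (.nd (nat_lit 6) 
(.nd (nat_lit 26) (.nd (nat_lit 27) (.nd (nat_lit 20) (.nd (nat_lit 7) (.nd (nat_lit 21) 
(.lf (nat_lit 5100658728) (dlOf (nat_lit 1) (nat_lit 0x60028120a81))) 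
(.lf (nat_lit 3492143144) (dlOf (nat_lit 1) (nat_lit 0x20004000e00080a0902)))) 
(.lf (nat_lit 54911144) (dlOf (nat_lit 1) (nat_lit 0x800400040009662c02)))) (.nd (nat_lit 9) 
(.nd (nat_lit 19) 
(.lf (nat_lit 3491094568) (dlOf (nat_lit 2) (nat_lit 0x782840005404000c00200040008060582))) 
(.lf (nat_lit 27123752) (dlOf (nat_lit 1) (nat_lit 0x20028ca0681)))) (.nd (nat_lit 7) 
(.lf (nat_lit 3493716520) (dlOf (nat_lit 1) (nat_lit 0xe00281b0e01))) 
(.lf (nat_lit 20311720) (dlOf (nat_lit 1) (nat_lit 0x200289d7201)))))) (.nd (nat_lit 29) 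
(.nd (nat_lit 9) 
(.lf (nat_lit 3355828264) (dlOf (nat_lit 1) (nat_lit 0x200080008002000a0008120683))) 
(.lf (nat_lit 134603304) (dlOf (nat_lit 1) (nat_lit 0x3e0008090e01)))) (.nd (nat_lit 8) 
(.nd (nat_lit 19) 
(.lf (nat_lit 3892699176) (dlOf (nat_lit 2) (nat_lit 0xcc0280005f02000600281d0681))) 
(.lf (nat_lit 2819481640) (dlOf (nat_lit 1) (nat_lit 0x200282b0801)))) 
(.lf (nat_lit 2818957608) (dlOf (nat_lit 1) (nat_lit 0x2400200020008130702)))))) (.nd (nat_lit 28) 
(.nd (nat_lit 9) (.nd (nat_lit 8) 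
(.lf (nat_lit 2752897064) (dlOf (nat_lit 2) (nat_lit 0x782840005404000c00200040008060582))) 
(.lf (nat_lit 4362461480) (dlOf (nat_lit 1) (nat_lit 0x20028090501)))) (.nd (nat_lit 19) 
(.lf (nat_lit 201712168) (dlOf (nat_lit 1) (nat_lit 0x3e0008090e01))) 
(.lf (nat_lit 2755519016) (dlOf (nat_lit 1) (nat_lit 0xe00281b0e01))))) (.nd (nat_lit 19) 
(.nd (nat_lit 8) (.nd (nat_lit 27) 
(.lf (nat_lit 1409671208) (dlOf (nat_lit 1) (nat_lit 0x360008070881))) 
(.lf (nat_lit 2617630760) (dlOf (nat_lit 2) (nat_lit 0xba02b0002b018110600)))) 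
(.lf (nat_lit 4228243752) (dlOf (nat_lit 1) (nat_lit 0x20028090501)))) (.nd (nat_lit 21) 
(.lf (nat_lit 3557679144) (dlOf (nat_lit 1) (nat_lit 0x200282b0801))) 
(.lf (nat_lit 4096647208) (dlOf (nat_lit 1) (nat_lit 0x40028140c81))))))) (.nd (nat_lit 20) 
(.nd (nat_lit 26) (.nd (nat_lit 22) (.nd (nat_lit 19) 
(.lf (nat_lit 5637529704) (dlOf (nat_lit 1) (nat_lit 0x28008000c00200060008100783))) 
(.lf (nat_lit 59629672) (dlOf (nat_lit 1) (nat_lit 0x1000400700009820982)))) (.nd (nat_lit 10) 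
(.lf (nat_lit 1346756712) (dlOf (nat_lit 4) (nat_lit 0x1d806c000ac0400bc352023e0960116042007e820c03f80e8020607300fe00f0068806801d80000004212013e01b008500000004c100130008032800204200009000983))) 
(.lf (nat_lit 38134888) (dlOf (nat_lit 1) (nat_lit 0x4e0009132981))))) (.nd (nat_lit 8) 
(.nd (nat_lit 7) 
(.lf (nat_lit 6241509480) (dlOf (nat_lit 1) (nat_lit 0x28008000c00200060008100783))) 
(.lf (nat_lit 2886068456) (dlOf (nat_lit 1) (nat_lit 0x400080018002002c0008144b03)))) 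
(.nd (nat_lit 9) 
(.lf (nat_lit 6375728616) (dlOf (nat_lit 1) (nat_lit 0x8008000400200020008003603))) 
(.lf (nat_lit 872801256) (dlOf (nat_lit 1) (nat_lit 0x10600280e2881)))))) (.nd (nat_lit 23) 
(.nd (nat_lit 9) (.nd (nat_lit 7) 
(.lf (nat_lit 37085288) (dlOf (nat_lit 1) (nat_lit 0x400400020019090982))) 
(.lf (nat_lit 2754997480) (dlOf (nat_lit 2) (nat_lit 0x300e0000b40800b80080004002006400080f6503)))) 
(.nd (nat_lit 11) (.lf (nat_lit 20312680) (dlOf (nat_lit 1) (nat_lit 0x80080004002000200089d8983))) 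
(.lf (nat_lit 6376778344) (dlOf (nat_lit 1) (nat_lit 0x64004015a0008095382))))) (.nd (nat_lit 7) 
(.nd (nat_lit 21) (.lf (nat_lit 9822312) (dlOf (nat_lit 1) (nat_lit 0x1320008580781))) 
(.lf (nat_lit 49668200) (dlOf (nat_lit 1) (nat_lit 0x20019480981)))) 
(.lf (nat_lit 28696808) (dlOf (nat_lit 1) (nat_lit 0x20018da0601)))))))))))

end

end Pool.Agent.Lib.MP_5854e1_co.Cz

namespace Pool.Agent.Lib.MP_5854e1_co.Cz

noncomputable section

noncomputable def tz98 : DT := (.nd (nat_lit 5) (.nd (nat_lit 6) (.nd (nat_lit 15) 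
(.nd (nat_lit 18) (.nd (nat_lit 7) (.nd (nat_lit 19) (.nd (nat_lit 22) (.nd (nat_lit 8) 
(.nd (nat_lit 11) (.nd (nat_lit 9) 
(.lf (nat_lit 28336129) (dlOf (nat_lit 1) (nat_lit 0x10008006800200260008d80003))) 
(.lf (nat_lit 6643873281) (dlOf (nat_lit 1) (nat_lit 0x1920018009c01)))) (.nd (nat_lit 26) 
(.lf (nat_lit 4429211649) (dlOf (nat_lit 1) (nat_lit 0x8008000400200020008004703))) 
(.lf (nat_lit 1006659585) (dlOf (nat_lit 1) (nat_lit 0x400400020008004702))))) (.nd (nat_lit 9) 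
(.nd (nat_lit 30) (.lf (nat_lit 2818597121) (dlOf (nat_lit 1) (nat_lit 0x20018000a81))) 
(.lf (nat_lit 3892338945) (dlOf (nat_lit 2) (nat_lit 0xc02300072018000a80)))) 
(.lf (nat_lit 3087099649) (dlOf (nat_lit 1) (nat_lit 0x60028143b81))))) (.nd (nat_lit 8) 
(.nd (nat_lit 21) (.nd (nat_lit 9) 
(.lf (nat_lit 22044673) (dlOf (nat_lit 1) (nat_lit 0x20008a90001))) 
(.lf (nat_lit 3493880321) (dlOf (nat_lit 2) (nat_lit 0xec1800000002002000081b0d81)))) 
(.nd (nat_lit 16) (.lf (nat_lit 14704641) (dlOf (nat_lit 1) (nat_lit 0x400200020008770002))) 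
(.lf (nat_lit 14770177) (dlOf (nat_lit 1) (nat_lit 0x400200020008770002))))) (.nd (nat_lit 16) 
(.nd (nat_lit 21) (.lf (nat_lit 30433537) (dlOf (nat_lit 1) (nat_lit 0x320008e30701))) 
(.lf (nat_lit 40919297) (dlOf (nat_lit 2) (nat_lit 0x538280037c0800380080008002000a0009203583)))) 
(.lf (nat_lit 40984833) (dlOf (nat_lit 1) (nat_lit 0x40029203581)))))) (.nd (nat_lit 16) 
(.nd (nat_lit 20) (.nd (nat_lit 22) (.nd (nat_lit 26) (.nd (nat_lit 21) (.nd (nat_lit 29) 
(.lf (nat_lit 1342726145) (dlOf (nat_lit 1) (nat_lit 0x200180c0001))) 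
(.lf (nat_lit 805855233) (dlOf (nat_lit 2) (nat_lit 0x200000d1a0181c0000)))) 
(.lf (nat_lit 2646017) (dlOf (nat_lit 5) (nat_lit 0x303a200181c0000b0ca8005813c038c61000243a2000a1c000080ca8002813c038c41000143a2000e1c0000a0ca8005013c038c01000303a200101c0000b0ca8004013c038bc10003800400020008180002)))) 
(.nd (nat_lit 27) (.lf (nat_lit 1678270465) (dlOf (nat_lit 2) (nat_lit 0x200000ecc8181c0000))) 
(.lf (nat_lit 470310913) (dlOf (nat_lit 1) (nat_lit 0x200180c0001))))) (.nd (nat_lit 21) 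
(.nd (nat_lit 23) 
(.lf (nat_lit 55074817) (dlOf (nat_lit 5) (nat_lit 0x1827c000a12d0008081000400f40322c10002027c001012d000a081000280f40322a10002027c001412d000d081000500f40322610002827c001612d000a081000400f403222100018004000200196a0002))) 
(.lf (nat_lit 13131777) (dlOf (nat_lit 1) (nat_lit 0x20018700001)))) 
(.lf (nat_lit 15228929) (dlOf (nat_lit 1) (nat_lit 0x19000800e4002001400087c0003))))) 
(.nd (nat_lit 21) (.nd (nat_lit 23) (.nd (nat_lit 26) 
(.lf (nat_lit 3491258369) (dlOf (nat_lit 1) (nat_lit 0x20028080001))) 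
(.lf (nat_lit 2753060865) (dlOf (nat_lit 1) (nat_lit 0x20028080001)))) 
(.lf (nat_lit 9986049) (dlOf (nat_lit 5) (nat_lit 0x3348a0013a410005d1d8006677001d0a10003348a000ba410007d1d8004677001d0810002f48a0011a41000ad1d8005e77001d0610002f48a000ba41000ad1d8004677001d00100018002000800085a0002)))) 
(.nd (nat_lit 9) 
(.lf (nat_lit 24666113) (dlOf (nat_lit 3) (nat_lit 0xed280191602000769400c38018bb0000))) 
(.lf (nat_lit 1345872385) (dlOf (nat_lit 4) (nat_lit 0x5822a0018114000b002001908a80038c0800a04540000004022400400020008e07b02)))))) 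
(.nd (nat_lit 23) (.nd (nat_lit 22) (.nd (nat_lit 26) 
(.lf (nat_lit 134832129) (dlOf (nat_lit 1) (nat_lit 0x580080010002008a00080c0003))) 
(.lf (nat_lit 201940993) (dlOf (nat_lit 1) (nat_lit 0x580080010002008a00080c0003)))) 
(.lf (nat_lit 21585921) (dlOf (nat_lit 2) (nat_lit 0x2a5700ce2018a50000)))) (.nd (nat_lit 21) 
(.lf (nat_lit 42557441) (dlOf (nat_lit 2) (nat_lit 0xc741003cf019260000))) (.nd (nat_lit 22) 
(.lf (nat_lit 27877377) (dlOf (nat_lit 1) (nat_lit 0x88008003800200280008d40003))) 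
(.lf (nat_lit 15294465) (dlOf (nat_lit 1) (nat_lit 0x200187d0001)))))))) (.nd (nat_lit 16) 
(.nd (nat_lit 10) (.nd (nat_lit 8) (.nd (nat_lit 19) 
(.lf (nat_lit 24141953) (dlOf (nat_lit 1) (nat_lit 0x8008000400200020008b80103))) (.nd (nat_lit 21) 
(.lf (nat_lit 1409835137) (dlOf (nat_lit 1) (nat_lit 0x20008090101))) 
(.lf (nat_lit 23617665) (dlOf (nat_lit 1) (nat_lit 0x400200e40008b80102))))) (.nd (nat_lit 9) 
(.nd (nat_lit 11) 
(.lf (nat_lit 470311297) (dlOf (nat_lit 3) (nat_lit 0xe02a800cb00200b0154006558180c0780))) 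
(.lf (nat_lit 6376417665) (dlOf (nat_lit 1) (nat_lit 0x400200020008094e82)))) (.nd (nat_lit 11) 
(.lf (nat_lit 8418177) (dlOf (nat_lit 1) (nat_lit 0x20028519001))) 
(.lf (nat_lit 19950465) (dlOf (nat_lit 1) (nat_lit 0x4002000200089d5c02)))))) (.nd (nat_lit 8) 
(.nd (nat_lit 12) (.lf (nat_lit 6106932865) (dlOf (nat_lit 1) (nat_lit 0x800200020008003982))) 
(.nd (nat_lit 26) (.lf (nat_lit 3355473537) (dlOf (nat_lit 2) (nat_lit 0x9a0320003d818009d80))) 
(.lf (nat_lit 2617276033) (dlOf (nat_lit 2) (nat_lit 0x9402f005700180250000000f60c0018004001e0018009d82))))) 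
(.nd (nat_lit 11) (.nd (nat_lit 26) 
(.lf (nat_lit 1476425089) (dlOf (nat_lit 1) (nat_lit 0x800200060008009902))) 
(.lf (nat_lit 3691017601) (dlOf (nat_lit 2) (nat_lit 0x5500a80290c0800080080018002003c0008009903)))) 
(.nd (nat_lit 12) (.lf (nat_lit 1342205313) (dlOf (nat_lit 1) (nat_lit 0x60004001a0008006c02))) 
(.lf (nat_lit 1409318273) (dlOf (nat_lit 1) (nat_lit 0x80040002001800c902))))))) (.nd (nat_lit 11) 
(.nd (nat_lit 19) (.nd (nat_lit 8) (.nd (nat_lit 10) 
(.lf (nat_lit 3235969) (dlOf (nat_lit 1) (nat_lit 0x400200020008200102))) 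
(.lf (nat_lit 91265) (dlOf (nat_lit 1) (nat_lit 0xa0028002a81)))) 
(.lf (nat_lit 872505729) (dlOf (nat_lit 1) (nat_lit 0x8008000400200040008091003)))) 
(.nd (nat_lit 21) (.nd (nat_lit 26) 
(.lf (nat_lit 1342791809) (dlOf (nat_lit 1) (nat_lit 0x18008000c002000200080c0103))) 
(.lf (nat_lit 470376577) (dlOf (nat_lit 1) (nat_lit 0x18008000c002000200080c0103)))) 
(.nd (nat_lit 9) (.lf (nat_lit 23683201) (dlOf (nat_lit 1) (nat_lit 0x400200020008b80102))) 
(.lf (nat_lit 20543105) (dlOf (nat_lit 2) (nat_lit 0x355b80090ada0003d8289d9d80)))))) 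
(.nd (nat_lit 20) (.nd (nat_lit 8) (.nd (nat_lit 9) 
(.lf (nat_lit 939616385) (dlOf (nat_lit 1) (nat_lit 0x4400200200008144782))) 
(.lf (nat_lit 1812033153) (dlOf (nat_lit 1) (nat_lit 0x8008000400200020008147183)))) 
(.lf (nat_lit 4563495297) (dlOf (nat_lit 3) (nat_lit 0x3804801b2004000406600d370200060028094e81)))) 
(.nd (nat_lit 8) (.nd (nat_lit 9) 
(.lf (nat_lit 20016257) (dlOf (nat_lit 1) (nat_lit 0x500080040002000800089d6103))) 
(.lf (nat_lit 6377007745) (dlOf (nat_lit 1) (nat_lit 0x40008000400200120008095483)))) 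
(.lf (nat_lit 53569921) (dlOf (nat_lit 1) (nat_lit 0x20008000c002000a00095f4e83)))))))) 
(.nd (nat_lit 16) (.nd (nat_lit 20) (.nd (nat_lit 26) (.nd (nat_lit 27) (.nd (nat_lit 7) 
(.nd (nat_lit 21) 
(.lf (nat_lit 4563689473) (dlOf (nat_lit 29) (nat_lit 0x2200bc0339c0400f405e019cd02000e02f00ce581002f0178066d00800300bc0334a04005805e019a302001402f00cd101002f01780660c0801780bc033020400c005e0191602003602f00c8a81003001780644c0800f00bc031d604003c05e0187502008802f00c380100120178061bc0801780bc030da04000405e017b502001002f00bda01001a017805ec80800080d002f5604000c05e0179602000602f00bb881000d017805d880800700bc02ec204003805e0175f02000a03300b9c010011019805cb80801480080164002007000080c0003))) 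
(.lf (nat_lit 44326913) (dlOf (nat_lit 5) (nat_lit 0x12a48001151d000ca898002d25c038c610001aa48000d51d0002a898002525c038c4100022a48000f51d0004a898003525c038c0100026a48000f51d0002a898003d25c038bc100058002000400092f0002)))) 
(.nd (nat_lit 11) 
(.lf (nat_lit 5905867137) (dlOf (nat_lit 1) (nat_lit 0x28008001000200040008155a83))) 
(.lf (nat_lit 3489950081) (dlOf (nat_lit 1) (nat_lit 0x400200020008004e82))))) (.nd (nat_lit 28) 
(.nd (nat_lit 8) (.nd (nat_lit 9) (.nd (nat_lit 29) 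
(.lf (nat_lit 2281988097) (dlOf (nat_lit 1) (nat_lit 0x200280e0001))) 
(.lf (nat_lit 671375361) (dlOf (nat_lit 1) (nat_lit 0x400018170001)))) 
(.lf (nat_lit 135029249) (dlOf (nat_lit 1) (nat_lit 0x14002000200081b0d82)))) 
(.lf (nat_lit 134504705) (dlOf (nat_lit 1) (nat_lit 0x80018047101)))) (.nd (nat_lit 29) 
(.lf (nat_lit 4697907201) (dlOf (nat_lit 29) (nat_lit 0x2200bc03a740400f405e01d3902000e02f00e9b81002f0178074a40800b00bc03a1404001805e01d0902001402f00e8381002f01780739c0801780bc039cc0400c005e01c6302003602f00e310100300178071800800f00bc038a004003c05e01bdb02008802f00deb010012017806f540801780bc037a604000405e01b2002001002f00d8f81001a017806c740800080d00362004000c05e01af802000602f00d6b01000d017806b180800700bc0358a04003805e01ac302000a03300aed0100110198057400801480080164002007000080c0003))) 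
(.lf (nat_lit 939810817) (dlOf (nat_lit 2) (nat_lit 0x7011002ff0080068008000400200280008180003)))))) 
(.nd (nat_lit 31) (.nd (nat_lit 9) (.nd (nat_lit 28) 
(.lf (nat_lit 1812226049) (dlOf (nat_lit 2) (nat_lit 0x701100199c080068008000400200280008180003))) 
(.lf (nat_lit 1543790593) (dlOf (nat_lit 1) (nat_lit 0x400018170001)))) 
(.lf (nat_lit 202138113) (dlOf (nat_lit 1) (nat_lit 0x14002000200081b0d82)))) (.nd (nat_lit 7) 
(.lf (nat_lit 3422838785) (dlOf (nat_lit 1) (nat_lit 0x400200020008110002))) (.nd (nat_lit 8) 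
(.lf (nat_lit 3557062785) (dlOf (nat_lit 4) (nat_lit 0x120380052b81001301c0029580800100e00149404004c004002a001812a882))) 
(.lf (nat_lit 6509846913) (dlOf (nat_lit 1) (nat_lit 0x28008001000200040008155a83))))))) 
(.nd (nat_lit 21) (.nd (nat_lit 9) (.nd (nat_lit 19) (.nd (nat_lit 22) 
(.lf (nat_lit 1343512577) (dlOf (nat_lit 2) (nat_lit 0x230470029b40803300080050002000a0008280003))) 
(.lf (nat_lit 30695425) (dlOf (nat_lit 1) (nat_lit 0x38008002400200660008e40003)))) 
(.lf (nat_lit 31219713) (dlOf (nat_lit 1) (nat_lit 0x20008001400200040008e70003)))) 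
(.nd (nat_lit 26) 
(.lf (nat_lit 3491521025) (dlOf (nat_lit 2) (nat_lit 0x240458000000806780080088002004a0008090d83))) 
(.lf (nat_lit 2753323521) (dlOf (nat_lit 2) (nat_lit 0x240440000000806780080088002004a0008090d83))))) 
(.nd (nat_lit 7) (.nd (nat_lit 26) 
(.lf (nat_lit 3493617665) (dlOf (nat_lit 3) (nat_lit 0xa01d005a40100030100026b0080090008001800200140008180003))) 
(.lf (nat_lit 2755420161) (dlOf (nat_lit 3) (nat_lit 0xa01d002d7810003010001038080090008001800200140008180003)))) 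
(.nd (nat_lit 8) (.lf (nat_lit 11821185) (dlOf (nat_lit 1) (nat_lit 0x4002000200086c0102))) 
(.nd (nat_lit 10) 
(.lf (nat_lit 54291329) (dlOf (nat_lit 1) (nat_lit 0x4000802bc00203080009655c03))) 
(.lf (nat_lit 8157057) (dlOf (nat_lit 1) (nat_lit 0x800800080020002000851a303)))))))) 
(.nd (nat_lit 20) (.nd (nat_lit 26) (.nd (nat_lit 22) (.nd (nat_lit 19) (.nd (nat_lit 27) 
(.lf (nat_lit 6442803201) (dlOf (nat_lit 1) (nat_lit 0x98002002200081c0002))) 
(.lf (nat_lit 671440897) (dlOf (nat_lit 2) (nat_lit 0x1803e0059202000600281a0001)))) 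
(.lf (nat_lit 59596801) (dlOf (nat_lit 1) (nat_lit 0x120019810001)))) (.nd (nat_lit 7) 
(.nd (nat_lit 10) (.lf (nat_lit 23420929) (dlOf (nat_lit 1) (nat_lit 0xe0028b80001))) 
(.lf (nat_lit 38102017) (dlOf (nat_lit 1) (nat_lit 0x800200020009132882)))) 
(.lf (nat_lit 21323905) (dlOf (nat_lit 1) (nat_lit 0x40028a30d81))))) (.nd (nat_lit 30) 
(.nd (nat_lit 27) (.lf (nat_lit 4362428417) (dlOf (nat_lit 1) (nat_lit 0x2400200120008070002))) 
(.lf (nat_lit 2617597953) (dlOf (nat_lit 2) (nat_lit 0x1600d002fc404001000400020008100002)))) 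
(.nd (nat_lit 29) (.nd (nat_lit 32) 
(.lf (nat_lit 1543856129) (dlOf (nat_lit 2) (nat_lit 0x1803e00b2702000600281a0001))) 
(.lf (nat_lit 5838823425) (dlOf (nat_lit 1) (nat_lit 0x98002002200081c0002)))) 
(.lf (nat_lit 4228210689) (dlOf (nat_lit 1) (nat_lit 0x2400200120008070002)))))) (.nd (nat_lit 7) 
(.nd (nat_lit 19) (.nd (nat_lit 21) 
(.lf (nat_lit 471162881) (dlOf (nat_lit 1) (nat_lit 0x30004000800082a0002))) 
(.lf (nat_lit 37052417) (dlOf (nat_lit 1) (nat_lit 0x20019090001)))) (.nd (nat_lit 26) 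
(.lf (nat_lit 3493683201) (dlOf (nat_lit 3) (nat_lit 0xa03d805a340800501ec02bf8040030004001c00081a0002))) 
(.lf (nat_lit 2755485697) (dlOf (nat_lit 3) (nat_lit 0xa03c8054780800501e402930040030004001c00081a0002))))) 
(.nd (nat_lit 8) (.nd (nat_lit 23) 
(.lf (nat_lit 3498113) (dlOf (nat_lit 1) (nat_lit 0x8008000400200020008200103))) 
(.lf (nat_lit 11886721) (dlOf (nat_lit 1) (nat_lit 0x80080004002000200086c0103)))) 
(.lf (nat_lit 8217473) (dlOf (nat_lit 1) (nat_lit 0x1800200040008512582)))))))) (.nd (nat_lit 18) 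
(.nd (nat_lit 19) (.nd (nat_lit 27) (.nd (nat_lit 7) (.nd (nat_lit 16) (.nd (nat_lit 8) 
(.nd (nat_lit 23) (.lf (nat_lit 22077441) (dlOf (nat_lit 1) (nat_lit 0x8008000400200020008a90003))) 
(.lf (nat_lit 47243265) (dlOf (nat_lit 1) (nat_lit 0x8004000200093c0002)))) 
(.lf (nat_lit 67172609) (dlOf (nat_lit 1) (nat_lit 0x6000800a981)))) (.nd (nat_lit 11) 
(.nd (nat_lit 26) (.lf (nat_lit 1610735617) (dlOf (nat_lit 1) (nat_lit 0x140018090001))) 
(.lf (nat_lit 5435940865) (dlOf (nat_lit 2) (nat_lit 0x28000030a404001400200020008040002)))) 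
(.lf (nat_lit 6442575873) (dlOf (nat_lit 1) (nat_lit 0x4004000200080f4702))))) (.nd (nat_lit 8) 
(.nd (nat_lit 11) (.lf (nat_lit 3491881089) (dlOf (nat_lit 1) (nat_lit 0x40028090101))) 
(.lf (nat_lit 8448129) (dlOf (nat_lit 1) (nat_lit 0xec00200640008514782)))) (.nd (nat_lit 10) 
(.lf (nat_lit 11592065) (dlOf (nat_lit 1) (nat_lit 0x200080008002000400086c0783))) 
(.lf (nat_lit 268494209) (dlOf (nat_lit 1) (nat_lit 0x100028053581)))))) (.nd (nat_lit 26) 
(.nd (nat_lit 7) (.nd (nat_lit 11) 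
(.lf (nat_lit 671146497) (dlOf (nat_lit 3) (nat_lit 0x70140001f00800580a0000ea04003c004002a00080b0d82))) 
(.lf (nat_lit 3623942657) (dlOf (nat_lit 1) (nat_lit 0xc0020006000800b282)))) (.nd (nat_lit 8) 
(.lf (nat_lit 6308292225) (dlOf (nat_lit 1) (nat_lit 0xc0018053981))) (.nd (nat_lit 9) 
(.lf (nat_lit 134278529) (dlOf (nat_lit 1) (nat_lit 0x1c00400180018006c02))) 
(.lf (nat_lit 4160811905) (dlOf (nat_lit 1) (nat_lit 0x1000400040008009002)))))) (.nd (nat_lit 9) 
(.nd (nat_lit 8) (.nd (nat_lit 28) 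
(.lf (nat_lit 738320385) (dlOf (nat_lit 1) (nat_lit 0x140018090001))) 
(.lf (nat_lit 5301723137) (dlOf (nat_lit 2) (nat_lit 0x280000379604001400200020008040002)))) 
(.lf (nat_lit 474013953) (dlOf (nat_lit 2) (nat_lit 0xc16c000f00280028004002ca0c002800400060019000a82)))) 
(.nd (nat_lit 7) 
(.lf (nat_lit 1543561729) (dlOf (nat_lit 3) (nat_lit 0x70140001f00800580a0000ea04003c004002a00080b0d82))) 
(.lf (nat_lit 5301660289) (dlOf (nat_lit 1) (nat_lit 0x1000200380008005482))))))) (.nd (nat_lit 16) 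
(.nd (nat_lit 28) (.nd (nat_lit 7) (.nd (nat_lit 8) (.nd (nat_lit 20) 
(.lf (nat_lit 1678303233) (dlOf (nat_lit 1) (nat_lit 0x78008003c002001800081e0003))) 
(.lf (nat_lit 24698881) (dlOf (nat_lit 1) (nat_lit 0x60028bb0001)))) 
(.lf (nat_lit 8971521) (dlOf (nat_lit 1) (nat_lit 0x800200020008512f02)))) (.nd (nat_lit 8) 
(.lf (nat_lit 23650433) (dlOf (nat_lit 2) (nat_lit 0x396830014afe0000ec100008008007400200240008b80103))) 
(.nd (nat_lit 22) (.lf (nat_lit 44624257) (dlOf (nat_lit 1) (nat_lit 0x3400400020019324e82))) 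
(.lf (nat_lit 57207169) (dlOf (nat_lit 1) (nat_lit 0x20009794e81)))))) (.nd (nat_lit 9) 
(.nd (nat_lit 7) 
(.lf (nat_lit 805888001) (dlOf (nat_lit 1) (nat_lit 0x78008003c002001800081e0003))) 
(.nd (nat_lit 20) (.lf (nat_lit 1409867905) (dlOf (nat_lit 1) (nat_lit 0x120028090101))) 
(.lf (nat_lit 1345904769) (dlOf (nat_lit 1) (nat_lit 0xc0028e13a01))))) (.nd (nat_lit 26) 
(.lf (nat_lit 1342759425) (dlOf (nat_lit 1) (nat_lit 0x200180c0d81))) (.nd (nat_lit 27) 
(.lf (nat_lit 1409868289) (dlOf (nat_lit 1) (nat_lit 0x120028090d81))) 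
(.lf (nat_lit 470344193) (dlOf (nat_lit 1) (nat_lit 0x200180c0d81))))))) (.nd (nat_lit 24) 
(.nd (nat_lit 26) (.nd (nat_lit 28) (.nd (nat_lit 23) 
(.lf (nat_lit 134864897) (dlOf (nat_lit 2) (nat_lit 0x5b00000000004001000200a400080d0002))) 
(.lf (nat_lit 42590209) (dlOf (nat_lit 1) (nat_lit 0x480019260001)))) (.nd (nat_lit 21) 
(.lf (nat_lit 1342824449) (dlOf (nat_lit 5) (nat_lit 0xc22f00051130004083800243460185e08000a22f000411300038838001c3460185d08000e22f000b1130005883800143460185b08000e22f0006113000488380014346018590800e400080e0001))) 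
(.lf (nat_lit 1344921601) (dlOf (nat_lit 1) (nat_lit 0x4000400020008990002))))) (.nd (nat_lit 28) 
(.nd (nat_lit 27) 
(.lf (nat_lit 4362723329) (dlOf (nat_lit 1) (nat_lit 0x600080018002000600080e0003))) 
(.lf (nat_lit 201973761) (dlOf (nat_lit 2) (nat_lit 0x5b00000000004001000200a400080d0002)))) 
(.nd (nat_lit 29) 
(.lf (nat_lit 470409217) (dlOf (nat_lit 5) (nat_lit 0xc22f000511300040830002436601bab08000a22f000411300038830001c36601baa08000e22f000b11300058830001436601ba808000e22f000611300048830001436601ba60800e400080e0001))) 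
(.lf (nat_lit 4228505601) (dlOf (nat_lit 1) (nat_lit 0x600080018002000600080e0003)))))) 
(.nd (nat_lit 20) (.nd (nat_lit 21) 
(.lf (nat_lit 21618689) (dlOf (nat_lit 2) (nat_lit 0x896000ce2018a50000))) 
(.lf (nat_lit 32104449) (dlOf (nat_lit 1) (nat_lit 0x1a0028ef0001)))) (.nd (nat_lit 21) 
(.lf (nat_lit 26861569) (dlOf (nat_lit 1) (nat_lit 0x10008000800200040008c80003))) 
(.lf (nat_lit 24764417) (dlOf (nat_lit 1) (nat_lit 0x400400020008bb0002)))))))) (.nd (nat_lit 28) 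
(.nd (nat_lit 16) (.nd (nat_lit 20) (.nd (nat_lit 27) (.nd (nat_lit 9) (.nd (nat_lit 19) 
(.lf (nat_lit 12902401) (dlOf (nat_lit 8) (nat_lit 0x4314000418400020b7201bab06000463f000331400031840037540c000cc7e000a6280008308000396e403750100008c7e000a6280007308000396e40374c100004c5001b2a0200026280006308006ca41000098a00364e040008004000800086e0002))) 
(.lf (nat_lit 2754404353) (dlOf (nat_lit 2) (nat_lit 0x2ae20f0065f8180e0000)))) 
(.lf (nat_lit 1074061825) (dlOf (nat_lit 1) (nat_lit 0xc0018090d81)))) (.nd (nat_lit 26) 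
(.nd (nat_lit 30) 
(.lf (nat_lit 2282020865) (dlOf (nat_lit 2) (nat_lit 0x180260184b0200040008100001))) 
(.lf (nat_lit 1208279041) (dlOf (nat_lit 3) (nat_lit 0xf40720196f02000203900cb70180b0000)))) 
(.lf (nat_lit 2349129729) (dlOf (nat_lit 1) (nat_lit 0x480080014002000800080c0003))))) 
(.nd (nat_lit 7) (.nd (nat_lit 21) (.nd (nat_lit 8) 
(.lf (nat_lit 2752831489) (dlOf (nat_lit 1) (nat_lit 0x19c0008050001))) 
(.lf (nat_lit 6086913) (dlOf (nat_lit 1) (nat_lit 0x40018420701)))) (.nd (nat_lit 23) 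
(.lf (nat_lit 37019649) (dlOf (nat_lit 1) (nat_lit 0x800200020009080002))) 
(.lf (nat_lit 62185473) (dlOf (nat_lit 5) (nat_lit 0x194b20002a51000652780718c18000a96c038c40400494b6000ca5900015288002293c00194780006a2a00deb06000a52d80042944037aa08001800200180009970002))))) 
(.nd (nat_lit 9) (.nd (nat_lit 23) 
(.lf (nat_lit 3465345) (dlOf (nat_lit 1) (nat_lit 0x400200020008200102))) 
(.lf (nat_lit 11853953) (dlOf (nat_lit 1) (nat_lit 0x8002000200086c0102)))) 
(.lf (nat_lit 8185473) (dlOf (nat_lit 2) (nat_lit 0x93f800049bc00023cf00000038513980)))))) 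
(.nd (nat_lit 7) (.nd (nat_lit 31) (.nd (nat_lit 10) (.nd (nat_lit 20) 
(.lf (nat_lit 29745153) (dlOf (nat_lit 1) (nat_lit 0x20008e30001))) 
(.lf (nat_lit 18210817) (dlOf (nat_lit 1) (nat_lit 0x780028920001)))) 
(.lf (nat_lit 38134785) (dlOf (nat_lit 1) (nat_lit 0x60009132881)))) (.nd (nat_lit 19) 
(.nd (nat_lit 26) 
(.lf (nat_lit 3221610497) (dlOf (nat_lit 1) (nat_lit 0x1300080044002002a0008160003))) 
(.lf (nat_lit 3959808001) (dlOf (nat_lit 1) (nat_lit 0x1300080044002002a0008160003)))) 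
(.lf (nat_lit 2755518465) (dlOf (nat_lit 1) (nat_lit 0x200281b0001))))) (.nd (nat_lit 19) 
(.nd (nat_lit 8) (.nd (nat_lit 20) 
(.lf (nat_lit 23453825) (dlOf (nat_lit 1) (nat_lit 0x400200b80008b80102))) 
(.lf (nat_lit 11919489) (dlOf (nat_lit 1) (nat_lit 0x80080008002000200086c0103)))) 
(.lf (nat_lit 1745217921) (dlOf (nat_lit 1) (nat_lit 0xe800280e4e81)))) (.nd (nat_lit 8) 
(.nd (nat_lit 9) (.lf (nat_lit 18735233) (dlOf (nat_lit 1) (nat_lit 0x400200020008970482))) 
(.lf (nat_lit 8251009) (dlOf (nat_lit 1) (nat_lit 0x20028513981)))) 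
(.lf (nat_lit 51243393) (dlOf (nat_lit 1) (nat_lit 0xf00080048002003e0009514e83))))))) 
(.nd (nat_lit 26) (.nd (nat_lit 16) (.nd (nat_lit 30) (.nd (nat_lit 27) (.nd (nat_lit 32) 
(.lf (nat_lit 268754945) (dlOf (nat_lit 2) (nat_lit 0x138054009402900ebd028120000))) 
(.lf (nat_lit 4563722241) (dlOf (nat_lit 1) (nat_lit 0x200280d0001)))) 
(.lf (nat_lit 4697939969) (dlOf (nat_lit 1) (nat_lit 0x200280d0001)))) (.nd (nat_lit 19) 
(.nd (nat_lit 20) 
(.lf (nat_lit 1879367681) (dlOf (nat_lit 4) (nat_lit 0x40a800060510002027006458180028154030e004001809c0186f02002e00080f0001))) 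
(.lf (nat_lit 3491028993) (dlOf (nat_lit 1) (nat_lit 0x19c0008050001)))) (.nd (nat_lit 21) 
(.lf (nat_lit 1343021057) (dlOf (nat_lit 3) (nat_lit 0x1123803ac408000891c01d6004009800400020008130002))) 
(.lf (nat_lit 3492601857) (dlOf (nat_lit 2) (nat_lit 0x2ae1fa0038a8180e0000)))))) (.nd (nat_lit 31) 
(.nd (nat_lit 7) (.nd (nat_lit 27) 
(.lf (nat_lit 4563787777) (dlOf (nat_lit 5) (nat_lit 0x805402ea204000402201743020050029008d801000b00f0000000801280080018002007800080e0003))) 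
(.lf (nat_lit 4698005505) (dlOf (nat_lit 5) (nat_lit 0x804402bca04000402a015c3020050029008de01000b00f0000000801280080018002007800080e0003)))) 
(.lf (nat_lit 1345710465) (dlOf (nat_lit 1) (nat_lit 0x460028dd4e81)))) (.nd (nat_lit 19) 
(.nd (nat_lit 27) (.lf (nat_lit 2416304129) (dlOf (nat_lit 1) (nat_lit 0x9400180d0001))) 
(.lf (nat_lit 2550521857) (dlOf (nat_lit 1) (nat_lit 0x9400180d0001)))) 
(.lf (nat_lit 3493715969) (dlOf (nat_lit 1) (nat_lit 0x200281b0001)))))) (.nd (nat_lit 29) 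
(.nd (nat_lit 22) (.nd (nat_lit 19) (.nd (nat_lit 27) 
(.lf (nat_lit 2483347457) (dlOf (nat_lit 1) (nat_lit 0x480080014002000800080c0003))) 
(.lf (nat_lit 2617565185) (dlOf (nat_lit 1) (nat_lit 0x400280f0001)))) 
(.lf (nat_lit 470605825) (dlOf (nat_lit 3) (nat_lit 0x112380223808000891c0111604009800400020008130002)))) 
(.nd (nat_lit 7) (.lf (nat_lit 474275841) (dlOf (nat_lit 1) (nat_lit 0x400400020009100002))) 
(.lf (nat_lit 474341505) (dlOf (nat_lit 1) (nat_lit 0x1e0019160301))))) (.nd (nat_lit 19) 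
(.nd (nat_lit 9) (.nd (nat_lit 30) 
(.lf (nat_lit 1006952449) (dlOf (nat_lit 4) (nat_lit 0x40a80006051000202700718c180028154037ac04001809c01bd502002e00080f0001))) 
(.lf (nat_lit 2080694273) (dlOf (nat_lit 3) (nat_lit 0xf407201cd402000203900e698180b0000)))) 
(.lf (nat_lit 1946477057) (dlOf (nat_lit 1) (nat_lit 0xc0018090d81)))) (.nd (nat_lit 20) 
(.lf (nat_lit 4096581633) (dlOf (nat_lit 1) (nat_lit 0x500080004002000a0008130003))) 
(.lf (nat_lit 4095533057) (dlOf (nat_lit 1) (nat_lit 0x4002000200080d0002)))))))))) 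
(.nd (nat_lit 16) (.nd (nat_lit 18) (.nd (nat_lit 28) (.nd (nat_lit 15) (.nd (nat_lit 26) 
(.nd (nat_lit 9) (.nd (nat_lit 8) 
(.lf (nat_lit 3221774401) (dlOf (nat_lit 2) (nat_lit 0x2401e000054080060008004800200220008180d83))) 
(.nd (nat_lit 21) (.lf (nat_lit 1074291009) (dlOf (nat_lit 1) (nat_lit 0xa00081b0601))) 
(.lf (nat_lit 23617857) (dlOf (nat_lit 1) (nat_lit 0x188004011e0018b80602))))) (.nd (nat_lit 11) 
(.nd (nat_lit 19) 
(.lf (nat_lit 3355468353) (dlOf (nat_lit 1) (nat_lit 0x20008000800200060008001583))) 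
(.lf (nat_lit 20472385) (dlOf (nat_lit 1) (nat_lit 0x4002000200089d1582)))) 
(.lf (nat_lit 54028865) (dlOf (nat_lit 1) (nat_lit 0x1880080004002004200095f5203))))) 
(.nd (nat_lit 12) (.nd (nat_lit 30) (.nd (nat_lit 8) 
(.lf (nat_lit 4362625089) (dlOf (nat_lit 1) (nat_lit 0x100008013000200b800080b0c83))) 
(.lf (nat_lit 2755682625) (dlOf (nat_lit 1) (nat_lit 0x80080004002000200081b0603)))) 
(.nd (nat_lit 27) (.lf (nat_lit 1678270529) (dlOf (nat_lit 1) (nat_lit 0x200281c0c81))) 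
(.lf (nat_lit 3959971905) (dlOf (nat_lit 1) (nat_lit 0x280080038002000e0008180d03))))) 
(.nd (nat_lit 9) (.lf (nat_lit 604009537) (dlOf (nat_lit 1) (nat_lit 0x8008002000200020008009283))) 
(.nd (nat_lit 11) (.lf (nat_lit 604009025) (dlOf (nat_lit 1) (nat_lit 0x20028008981))) 
(.lf (nat_lit 2751494721) (dlOf (nat_lit 1) (nat_lit 0x40020004000800b502))))))) (.nd (nat_lit 19) 
(.nd (nat_lit 8) (.nd (nat_lit 7) (.nd (nat_lit 22) 
(.lf (nat_lit 1275125825) (dlOf (nat_lit 1) (nat_lit 0x400400020008090002))) 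
(.lf (nat_lit 12640321) (dlOf (nat_lit 1) (nat_lit 0x400186d0d01)))) 
(.lf (nat_lit 51438785) (dlOf (nat_lit 2) (nat_lit 0x91fe00006c080008008002c00200040009512d03)))) 
(.nd (nat_lit 7) (.nd (nat_lit 9) 
(.lf (nat_lit 1208017217) (dlOf (nat_lit 2) (nat_lit 0x14014800000080018008006400200060008090c03))) 
(.lf (nat_lit 1073801025) (dlOf (nat_lit 1) (nat_lit 0x400400020008003e02)))) 
(.lf (nat_lit 43049409) (dlOf (nat_lit 1) (nat_lit 0x4004000200092a1082))))) (.nd (nat_lit 21) 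
(.nd (nat_lit 22) (.lf (nat_lit 201908289) (dlOf (nat_lit 1) (nat_lit 0x400180c1801))) 
(.nd (nat_lit 24) 
(.lf (nat_lit 2756239425) (dlOf (nat_lit 2) (nat_lit 0x7034000258080010008001800200040008220b83))) 
(.lf (nat_lit 55107649) (dlOf (nat_lit 1) (nat_lit 0x4004000200096b1002))))) (.nd (nat_lit 7) 
(.lf (nat_lit 20505153) (dlOf (nat_lit 1) (nat_lit 0x4002000200089d1582))) 
(.lf (nat_lit 57207233) (dlOf (nat_lit 1) (nat_lit 0xe0029794e81))))))) (.nd (nat_lit 31) 
(.nd (nat_lit 30) (.nd (nat_lit 10) (.nd (nat_lit 7) (.nd (nat_lit 15) 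
(.lf (nat_lit 805855297) (dlOf (nat_lit 1) (nat_lit 0x200281c0c81))) 
(.lf (nat_lit 474538049) (dlOf (nat_lit 6) (nat_lit 0x41409602000420037020c08080e80404073005400c8008f03004f825800f8106015c073000a0000008cc20055825800080e801760730011883003904b00040210002c0e800660730011784001b04b002f01cc00456080004004001c00191a0602)))) 
(.lf (nat_lit 1008787905) (dlOf (nat_lit 1) (nat_lit 0x400400020008f87002)))) (.nd (nat_lit 7) 
(.nd (nat_lit 15) 
(.lf (nat_lit 469792065) (dlOf (nat_lit 4) (nat_lit 0x10238007dc04000811c003eb02000408e001ec018009900))) 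
(.lf (nat_lit 469824833) (dlOf (nat_lit 1) (nat_lit 0x400400020008009902)))) 
(.lf (nat_lit 469792193) (dlOf (nat_lit 1) (nat_lit 0x300028009a01))))) (.nd (nat_lit 7) 
(.nd (nat_lit 8) (.nd (nat_lit 9) 
(.lf (nat_lit 2080432193) (dlOf (nat_lit 1) (nat_lit 0x400400020008090002))) 
(.lf (nat_lit 1342238273) (dlOf (nat_lit 1) (nat_lit 0x400200060008007182)))) 
(.lf (nat_lit 1946706241) (dlOf (nat_lit 1) (nat_lit 0xa00081b0601)))) (.nd (nat_lit 8) 
(.lf (nat_lit 1342238401) (dlOf (nat_lit 1) (nat_lit 0x8008000800200060008007283))) 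
(.nd (nat_lit 9) (.lf (nat_lit 5774041537) (dlOf (nat_lit 1) (nat_lit 0x30002000400080f7a82))) 
(.lf (nat_lit 5704313793) (dlOf (nat_lit 2) (nat_lit 0x1006400004040010002000a0008055d82))))))) 
(.nd (nat_lit 27) (.nd (nat_lit 8) (.nd (nat_lit 7) 
(.lf (nat_lit 3494436929) (dlOf (nat_lit 2) (nat_lit 0x7034000258080010008001800200040008220b83))) 
(.lf (nat_lit 3493880001) (dlOf (nat_lit 1) (nat_lit 0x48002001200081b0402)))) (.nd (nat_lit 10) 
(.nd (nat_lit 15) 
(.lf (nat_lit 3493880129) (dlOf (nat_lit 3) (nat_lit 0x1d20c00002e01000906000016c0800100080038002001c00081b0603))) 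
(.lf (nat_lit 3493912897) (dlOf (nat_lit 1) (nat_lit 0x20004001400081b0602)))) (.nd (nat_lit 11) 
(.lf (nat_lit 2952820033) (dlOf (nat_lit 1) (nat_lit 0x8002001c0008009902))) 
(.lf (nat_lit 3489692993) (dlOf (nat_lit 4) (nat_lit 0x2107800307d000143e60068206000e20e00090f90013a410003883800143e4004d804002c002800c901)))))) 
(.nd (nat_lit 8) (.nd (nat_lit 9) (.nd (nat_lit 11) 
(.lf (nat_lit 4228407361) (dlOf (nat_lit 1) (nat_lit 0x100008013000200b800080b0c83))) 
(.lf (nat_lit 3623909441) (dlOf (nat_lit 1) (nat_lit 0x4000800a681)))) 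
(.lf (nat_lit 2617270849) (dlOf (nat_lit 1) (nat_lit 0x20028001581)))) (.nd (nat_lit 7) 
(.lf (nat_lit 4227886401) (dlOf (nat_lit 1) (nat_lit 0x3c0008006901))) (.nd (nat_lit 10) 
(.lf (nat_lit 4227885505) (dlOf (nat_lit 1) (nat_lit 0x8008000400200020008004e83))) 
(.lf (nat_lit 4227886529) (dlOf (nat_lit 1) (nat_lit 0x48008002400200120008006d03))))))))) 
(.nd (nat_lit 15) (.nd (nat_lit 19) (.nd (nat_lit 26) (.nd (nat_lit 7) (.nd (nat_lit 9) 
(.nd (nat_lit 8) (.nd (nat_lit 28) 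
(.lf (nat_lit 537157697) (dlOf (nat_lit 2) (nat_lit 0xc02c000038080040008002000200460008030e03))) 
(.lf (nat_lit 1342464065) (dlOf (nat_lit 4) (nat_lit 0x4e1c901f00e380ff86f4021836e01b817a0000b0500050e90000540800d079001783be00da1d500110e9000a0724004839003ce1c7010c0e300fa86f402dc37801441b700730db003705f003ac2f4019c17900210000000008009c000802e000206040008030e03)))) 
(.lf (nat_lit 3221512513) (dlOf (nat_lit 4) (nat_lit 0x804600250228012e4100020114007e00400080ac004e0450005019006a80280000010008800400220008124c02)))) 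
(.nd (nat_lit 23) (.lf (nat_lit 53766721) (dlOf (nat_lit 1) (nat_lit 0x4002000200095f5202))) 
(.lf (nat_lit 45378113) (dlOf (nat_lit 1) (nat_lit 0x320029325201))))) (.nd (nat_lit 8) 
(.lf (nat_lit 4563689665) (dlOf (nat_lit 1) (nat_lit 0x5000280c1b01))) (.nd (nat_lit 9) 
(.lf (nat_lit 3432897) (dlOf (nat_lit 2) (nat_lit 0xca64000400200020028200901))) 
(.lf (nat_lit 288705) (dlOf (nat_lit 1) (nat_lit 0x20028004401)))))) (.nd (nat_lit 27) 
(.nd (nat_lit 21) (.nd (nat_lit 30) 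
(.lf (nat_lit 2483314753) (dlOf (nat_lit 3) (nat_lit 0x5a0230000b0100020118000140800d00080074002002000080a0d83))) 
(.lf (nat_lit 1409572929) (dlOf (nat_lit 2) (nat_lit 0xc02c000038080040008002000200460008030e03)))) 
(.lf (nat_lit 2753847361) (dlOf (nat_lit 2) (nat_lit 0x1c0a700cf0440000801001180080120002000200080a0d03)))) 
(.nd (nat_lit 8) (.nd (nat_lit 9) 
(.lf (nat_lit 470048833) (dlOf (nat_lit 4) (nat_lit 0x4e1c901f00e380ff86f4021836e01b81830000b8500050e90000580800d079001783be00da1d500110e9000a0724004839003ce1c7010c0e300fa86f402dc37801441b700730db0037061803ac306019c18200210000000008009c000802e000206040008030e03))) 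
(.lf (nat_lit 3959710273) (dlOf (nat_lit 3) (nat_lit 0x200b80154040000200400160200000f818128c00)))) 
(.nd (nat_lit 7) 
(.lf (nat_lit 3959710017) (dlOf (nat_lit 4) (nat_lit 0x80460025022802938100020114013140400080ac004e0450005019006a80280000010008800400220008124c02))) 
(.lf (nat_lit 4496583617) (dlOf (nat_lit 1) (nat_lit 0x2600280e5d81))))))) (.nd (nat_lit 21) 
(.nd (nat_lit 8) (.nd (nat_lit 7) 
(.lf (nat_lit 67920449) (dlOf (nat_lit 1) (nat_lit 0x40018331581))) (.nd (nat_lit 26) 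
(.lf (nat_lit 135028929) (dlOf (nat_lit 1) (nat_lit 0x1000281b0401))) 
(.lf (nat_lit 202137793) (dlOf (nat_lit 1) (nat_lit 0x1000281b0401))))) (.nd (nat_lit 24) 
(.nd (nat_lit 26) (.lf (nat_lit 135029057) (dlOf (nat_lit 1) (nat_lit 0x3800181b0601))) 
(.lf (nat_lit 202137921) (dlOf (nat_lit 1) (nat_lit 0x3800181b0601)))) 
(.lf (nat_lit 51142977) (dlOf (nat_lit 1) (nat_lit 0x30008001c00200060009507e83))))) 
(.nd (nat_lit 9) (.nd (nat_lit 23) (.nd (nat_lit 10) 
(.lf (nat_lit 1346134081) (dlOf (nat_lit 2) (nat_lit 0x640d900123818e60600))) 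
(.lf (nat_lit 19690561) (dlOf (nat_lit 1) (nat_lit 0x80080008002000200089d9283)))) 
(.nd (nat_lit 24) 
(.lf (nat_lit 45899841) (dlOf (nat_lit 2) (nat_lit 0x2d67dc00f92a400268e50027444802d21f8004505400267d100013b90008f04000e0008004c002000c0009360603))) 
(.lf (nat_lit 29122625) (dlOf (nat_lit 1) (nat_lit 0x1b80028dc0e01))))) (.nd (nat_lit 7) 
(.lf (nat_lit 20734529) (dlOf (nat_lit 1) (nat_lit 0x80080004002000200089d1583))) 
(.lf (nat_lit 19689409) (dlOf (nat_lit 1) (nat_lit 0x4800089d7a81))))))) (.nd (nat_lit 19) 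
(.nd (nat_lit 21) (.nd (nat_lit 29) (.nd (nat_lit 27) (.nd (nat_lit 31) (.nd (nat_lit 32) 
(.lf (nat_lit 268755009) (dlOf (nat_lit 3) (nat_lit 0x32015001e00a4000403e0009d06003002a000d014800238100040008007400200540008120483))) 
(.lf (nat_lit 4563722305) (dlOf (nat_lit 1) (nat_lit 0x3580080038002000c00080d0483)))) 
(.lf (nat_lit 2416238657) (dlOf (nat_lit 1) (nat_lit 0x200180c1801)))) 
(.lf (nat_lit 1208279105) (dlOf (nat_lit 2) (nat_lit 0x2029000c0060001bc1000200080004002001800080b0503)))) 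
(.nd (nat_lit 7) (.nd (nat_lit 26) 
(.lf (nat_lit 4026851393) (dlOf (nat_lit 1) (nat_lit 0x20002000c00080a0d02))) 
(.lf (nat_lit 2080694337) (dlOf (nat_lit 2) (nat_lit 0x2029000c0060001bc1000200080004002001800080b0503)))) 
(.lf (nat_lit 2751784897) (dlOf (nat_lit 1) (nat_lit 0x400200020008004402))))) (.nd (nat_lit 8) 
(.nd (nat_lit 9) (.nd (nat_lit 27) 
(.lf (nat_lit 2753880129) (dlOf (nat_lit 2) (nat_lit 0x1a009000100180a0d00))) 
(.lf (nat_lit 1009049665) (dlOf (nat_lit 1) (nat_lit 0x1f00009020501)))) 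
(.lf (nat_lit 473229889) (dlOf (nat_lit 1) (nat_lit 0x20008dd5201)))) (.nd (nat_lit 7) 
(.lf (nat_lit 3465537) (dlOf (nat_lit 1) (nat_lit 0x60018200601))) 
(.lf (nat_lit 41214401) (dlOf (nat_lit 1) (nat_lit 0x20019227001)))))) (.nd (nat_lit 9) 
(.nd (nat_lit 28) (.nd (nat_lit 20) (.nd (nat_lit 22) 
(.lf (nat_lit 843841) (dlOf (nat_lit 1) (nat_lit 0x400200020008020782))) 
(.lf (nat_lit 21815361) (dlOf (nat_lit 1) (nat_lit 0x28008001000200080008a70783)))) 
(.lf (nat_lit 10281025) (dlOf (nat_lit 3) (nat_lit 0x1d0000000180801180000000004016000200b200085c0e02)))) 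
(.nd (nat_lit 20) (.nd (nat_lit 26) 
(.lf (nat_lit 1343021121) (dlOf (nat_lit 6) (nat_lit 0xd0e38002680819189240214490005e23f007311581a987c0021c3de06401c7004c0e3019106f40090378000961405a424902700f8000107a40b2438e05841bd0004685032212480378920014c46200141f2033f0f8002807bc06c43d2060a1c7007a0e3018386f400983780008516064a249006d124002988c40d043e0000e1ef01b00f48184071c01e838c06121bd000f0de0002105010e0008064400207e60008130b83))) 
(.lf (nat_lit 470605889) (dlOf (nat_lit 6) (nat_lit 0xd0e38002680819189240214490005e23f007311581a987c0021c3de06401c7004c0e3019106f40090378000961405a424902700f8000107a40b2438e05841bd0004685032212480378920014c46200141f3033f0f8002807bc06c43d2060a1c7007a0e3018386f400983780008516064a249006d124002988c40d043e0000e1ef01b00f48184071c01e838c06121bd000f0de0002105010e0008064400207e60008130b83)))) 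
(.lf (nat_lit 1346166849) (dlOf (nat_lit 2) (nat_lit 0x801b2000a0d800123828e60600))))) 
(.nd (nat_lit 11) (.nd (nat_lit 20) (.nd (nat_lit 21) 
(.lf (nat_lit 67953217) (dlOf (nat_lit 1) (nat_lit 0x50008002000200180008331583))) 
(.lf (nat_lit 19718721) (dlOf (nat_lit 1) (nat_lit 0x4002000200089d1582)))) 
(.lf (nat_lit 20767297) (dlOf (nat_lit 1) (nat_lit 0x4002000200089d1582)))) (.nd (nat_lit 20) 
(.lf (nat_lit 1345120833) (dlOf (nat_lit 1) (nat_lit 0x20018a45201))) 
(.lf (nat_lit 1008527937) (dlOf (nat_lit 1) (nat_lit 0x20028d75201))))))))) (.nd (nat_lit 15) 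
(.nd (nat_lit 8) (.nd (nat_lit 19) (.nd (nat_lit 29) (.nd (nat_lit 27) (.nd (nat_lit 20) 
(.nd (nat_lit 9) (.lf (nat_lit 12673089) (dlOf (nat_lit 1) (nat_lit 0x200186d0d01))) 
(.lf (nat_lit 33647169) (dlOf (nat_lit 1) (nat_lit 0x3400200220008f55202)))) (.nd (nat_lit 18) 
(.lf (nat_lit 17915969) (dlOf (nat_lit 1) (nat_lit 0xc0018900e01))) 
(.lf (nat_lit 68509761) (dlOf (nat_lit 1) (nat_lit 0x3a0018590e01))))) (.nd (nat_lit 7) 
(.nd (nat_lit 10) (.lf (nat_lit 4697972801) (dlOf (nat_lit 1) (nat_lit 0x200280d0481))) 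
(.lf (nat_lit 402744385) (dlOf (nat_lit 1) (nat_lit 0x20028092881)))) 
(.lf (nat_lit 402743489) (dlOf (nat_lit 1) (nat_lit 0x20018090781))))) (.nd (nat_lit 18) 
(.nd (nat_lit 7) (.nd (nat_lit 22) 
(.lf (nat_lit 4899037249) (dlOf (nat_lit 1) (nat_lit 0x40018050001))) 
(.lf (nat_lit 2755747905) (dlOf (nat_lit 1) (nat_lit 0x800181b0001)))) 
(.lf (nat_lit 2755748033) (dlOf (nat_lit 1) (nat_lit 0x12c002006800081b0402)))) (.nd (nat_lit 7) 
(.nd (nat_lit 26) 
(.lf (nat_lit 3892666433) (dlOf (nat_lit 4) (nat_lit 0x501e800100b400180560004906000402b000240100040158001180800400080038002002c0008180503))) 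
(.lf (nat_lit 4899299393) (dlOf (nat_lit 1) (nat_lit 0x20028100481)))) 
(.lf (nat_lit 2818924737) (dlOf (nat_lit 1) (nat_lit 0x40018130401)))))) (.nd (nat_lit 18) 
(.nd (nat_lit 26) (.nd (nat_lit 20) (.nd (nat_lit 30) (.nd (nat_lit 27) 
(.lf (nat_lit 537485377) (dlOf (nat_lit 2) (nat_lit 0x340258000800800980080010002000800080a0d03))) 
(.lf (nat_lit 134832193) (dlOf (nat_lit 2) (nat_lit 0x2680000002202000800080c1401)))) 
(.nd (nat_lit 22) 
(.lf (nat_lit 3221839937) (dlOf (nat_lit 26) (nat_lit 0xe680bc073c05c001a00f000a5030007023800100bc0029008022c014000a00200a600a0004f8100e00050002640802e00280013004013c014000970200fa00a0004b01010300500025008081802800126040254014000920200e400a000488100f40050002400803900280011e0402b80140008e02016e00a000468100a800500020c080028028001040400180140008002020400a0003e0100200050001ec080840028000da04007c08c0002202001e0460000d8102920230149811407b0086025204201f402000fa00e0017806600b8016002b0048000004805c000801a4002005800081a1403)))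 
(.lf (nat_lit 3494469697) (dlOf (nat_lit 1) (nat_lit 0xf00028230e81))))) (.nd (nat_lit 9) 
(.lf (nat_lit 3760193) (dlOf (nat_lit 2) (nat_lit 0x180000000d0200420008220c81))) 
(.lf (nat_lit 20537921) (dlOf (nat_lit 1) (nat_lit 0x200189d1581))))) (.nd (nat_lit 22) 
(.nd (nat_lit 7) 
(.lf (nat_lit 1409900609) (dlOf (nat_lit 4) (nat_lit 0x400980001602001604c0000a0100050260000140800300080084002002200080a0d83))) 
(.lf (nat_lit 1008297153) (dlOf (nat_lit 1) (nat_lit 0x8008000c00200020008b52d03)))) 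
(.nd (nat_lit 27) (.lf (nat_lit 2756272193) (dlOf (nat_lit 1) (nat_lit 0xf00028230e81))) 
(.lf (nat_lit 474570817) (dlOf (nat_lit 6) (nat_lit 0xd4166021c0ab0107050c07c427400681390207066004e832c05a412c03fa084014403a009b81cc00d00320023c18014815600a50a18008cc10058055802b828600231040082156003f0a1800703300045e0c00102ac0022b02009000291a0601)))))) 
(.nd (nat_lit 9) (.nd (nat_lit 20) (.nd (nat_lit 22) 
(.lf (nat_lit 876609) (dlOf (nat_lit 1) (nat_lit 0x20018030e01))) 
(.lf (nat_lit 21848129) (dlOf (nat_lit 1) (nat_lit 0x8008000400200020008a70783)))) (.nd (nat_lit 7) 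
(.lf (nat_lit 1346199617) (dlOf (nat_lit 3) (nat_lit 0x40b000091c0801e857c00fc1ae001540400020018e60601))) 
(.lf (nat_lit 58549441) (dlOf (nat_lit 9) (nat_lit 0x645c0011a200008501800067090001704000c4400006a03000bce820006709000160400153a08000700800422000025018005e7410000d83000244000003808000a200000180400210fe001480b000240500149d040000c1000050fe000280b00263a08000001800980080070002003400097e2d03))))) 
(.nd (nat_lit 7) (.nd (nat_lit 21) 
(.lf (nat_lit 38627905) (dlOf (nat_lit 2) (nat_lit 0x19d00000be04000c00400360009135202))) 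
(.lf (nat_lit 36530753) (dlOf (nat_lit 1) (nat_lit 0x20019075201)))) 
(.lf (nat_lit 1344108225) (dlOf (nat_lit 1) (nat_lit 0x1400183da001))))))) (.nd (nat_lit 9) 
(.nd (nat_lit 26) (.nd (nat_lit 7) (.nd (nat_lit 10) 
(.lf (nat_lit 1208049985) (dlOf (nat_lit 8) (nat_lit 0x1202800070058000b410007002c00056040050052002e00c00015020008014800a00300005208004c052000e02800100060000181800400a400680180000204001e028001000580000010011000800e000200160008090c03))) 
(.nd (nat_lit 11) (.lf (nat_lit 19756353) (dlOf (nat_lit 1) (nat_lit 0x1200289d9901))) 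
(.lf (nat_lit 19758401) (dlOf (nat_lit 1) (nat_lit 0x600189dc901))))) (.nd (nat_lit 11) 
(.lf (nat_lit 805396929) (dlOf (nat_lit 2) (nat_lit 0x380900000004003c004005a0018090902))) 
(.lf (nat_lit 20015553) (dlOf (nat_lit 1) (nat_lit 0x8004000200189d4e82))))) (.nd (nat_lit 27) 
(.nd (nat_lit 28) (.nd (nat_lit 7) 
(.lf (nat_lit 2755748161) (dlOf (nat_lit 1) (nat_lit 0x600080028002000e00081b0603))) 
(.lf (nat_lit 1677812161) (dlOf (nat_lit 2) (nat_lit 0x380900000004003c004005a0018090902)))) 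
(.nd (nat_lit 31) (.lf (nat_lit 335634753) (dlOf (nat_lit 1) (nat_lit 0x20018090c01))) 
(.lf (nat_lit 2483118401) (dlOf (nat_lit 1) (nat_lit 0x20028014c01))))) (.nd (nat_lit 10) 
(.nd (nat_lit 29) (.lf (nat_lit 2348900673) (dlOf (nat_lit 1) (nat_lit 0x20028014c01))) 
(.lf (nat_lit 738287937) (dlOf (nat_lit 2) (nat_lit 0x1e0550000a018090c00)))) 
(.lf (nat_lit 1812032833) (dlOf (nat_lit 1) (nat_lit 0x340028146901)))))) (.nd (nat_lit 7) 
(.nd (nat_lit 12) (.nd (nat_lit 10) 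
(.lf (nat_lit 19751745) (dlOf (nat_lit 1) (nat_lit 0x18002000400089d2302))) 
(.lf (nat_lit 2886035265) (dlOf (nat_lit 1) (nat_lit 0xc0008143e01)))) (.nd (nat_lit 11) 
(.lf (nat_lit 3355538241) (dlOf (nat_lit 1) (nat_lit 0x4400280a8f81))) 
(.lf (nat_lit 2349169473) (dlOf (nat_lit 1) (nat_lit 0x74002001c00080fbc82))))) (.nd (nat_lit 12) 
(.nd (nat_lit 10) (.nd (nat_lit 18) 
(.lf (nat_lit 5637237697) (dlOf (nat_lit 1) (nat_lit 0x48008001400200100008055d83))) 
(.lf (nat_lit 4095044545) (dlOf (nat_lit 1) (nat_lit 0x20028055d81)))) 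
(.lf (nat_lit 2751817665) (dlOf (nat_lit 1) (nat_lit 0x400200020008004402)))) (.nd (nat_lit 18) 
(.lf (nat_lit 97217) (dlOf (nat_lit 2) (nat_lit 0x385a0004160400080040014001800be02))) 
(.lf (nat_lit 2349169601) (dlOf (nat_lit 2) (nat_lit 0xb00a80040050001200c000900180083c2001480080244002000400080fbe03)))))))) 
(.nd (nat_lit 26) (.nd (nat_lit 30) (.nd (nat_lit 8) (.nd (nat_lit 19) (.nd (nat_lit 22) 
(.nd (nat_lit 9) (.nd (nat_lit 27) 
(.lf (nat_lit 2416042049) (dlOf (nat_lit 2) (nat_lit 0x1805c0004a040028002000c0008020782))) 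
(.lf (nat_lit 2550259777) (dlOf (nat_lit 2) (nat_lit 0x1805c0004a040028002000c0008020782)))) 
(.lf (nat_lit 805432897) (dlOf (nat_lit 1) (nat_lit 0x100008117181)))) (.nd (nat_lit 18) 
(.lf (nat_lit 12705857) (dlOf (nat_lit 2) (nat_lit 0x9900004cb600002a04000200186d0d01))) 
(.lf (nat_lit 48619585) (dlOf (nat_lit 2) (nat_lit 0x5dafa0023c0200020019420601))))) 
(.nd (nat_lit 11) (.nd (nat_lit 7) (.nd (nat_lit 27) 
(.lf (nat_lit 537518145) (dlOf (nat_lit 1) (nat_lit 0x80080008002000200080a0d03))) 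
(.lf (nat_lit 134864961) (dlOf (nat_lit 6) (nat_lit 0x490188001f40801100c4000f404024406200020110003a82008b018800280b0001402200074060114031000f0088001cc10097800800d4002000600080d0b83)))) 
(.lf (nat_lit 58320065) (dlOf (nat_lit 1) (nat_lit 0x200297e2d01)))) (.nd (nat_lit 9) 
(.lf (nat_lit 9041985) (dlOf (nat_lit 2) (nat_lit 0x411940045a040014002000a000851a682))) 
(.lf (nat_lit 36563521) (dlOf (nat_lit 1) (nat_lit 0x180009075201)))))) (.nd (nat_lit 9) 
(.nd (nat_lit 21) (.lf (nat_lit 21356865) (dlOf (nat_lit 1) (nat_lit 0x80080020002000e0008a34c03))) 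
(.lf (nat_lit 23454017) (dlOf (nat_lit 1) (nat_lit 0x20018b80601)))) (.nd (nat_lit 12) 
(.nd (nat_lit 27) (.lf (nat_lit 124737) (dlOf (nat_lit 1) (nat_lit 0x17000800e0002001e0008003e03))) 
(.lf (nat_lit 939648833) (dlOf (nat_lit 1) (nat_lit 0x400400020008143e02)))) 
(.lf (nat_lit 20313921) (dlOf (nat_lit 1) (nat_lit 0x600089da101)))))) (.nd (nat_lit 28) 
(.nd (nat_lit 7) (.nd (nat_lit 8) 
(.lf (nat_lit 1074126913) (dlOf (nat_lit 1) (nat_lit 0x200180c1801))) (.nd (nat_lit 9) 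
(.lf (nat_lit 3221351745) (dlOf (nat_lit 1) (nat_lit 0x60028116901))) 
(.lf (nat_lit 3355571009) (dlOf (nat_lit 1) (nat_lit 0x8a00280a8f81))))) (.nd (nat_lit 8) 
(.nd (nat_lit 10) (.lf (nat_lit 5503049921) (dlOf (nat_lit 1) (nat_lit 0x11c00400440018031702))) 
(.lf (nat_lit 3221355713) (dlOf (nat_lit 1) (nat_lit 0x1e001811c201)))) 
(.lf (nat_lit 5905704897) (dlOf (nat_lit 1) (nat_lit 0x60018144401))))) (.nd (nat_lit 18) 
(.nd (nat_lit 19) (.lf (nat_lit 1344397377) (dlOf (nat_lit 1) (nat_lit 0x400200020008760e02))) 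
(.lf (nat_lit 1342824513) (dlOf (nat_lit 1) (nat_lit 0x5000080e0c81)))) (.nd (nat_lit 9) 
(.nd (nat_lit 22) 
(.lf (nat_lit 4026916929) (dlOf (nat_lit 3) (nat_lit 0x1e0350003a81000a01000007c0800580080034002000a00080d0b83))) 
(.lf (nat_lit 1346756673) (dlOf (nat_lit 6) (nat_lit 0x41409602000420037020c08080e80404073005400f0008f03004f825800f8106015c073000a0000008cc20055825800080e801760730011883003904b00040210002c0e800660730011784001b04b002f01cc00456080004004001c0019000602)))) 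
(.lf (nat_lit 3492674113) (dlOf (nat_lit 1) (nat_lit 0x28002002800080fb502))))))) (.nd (nat_lit 27) 
(.nd (nat_lit 18) (.nd (nat_lit 7) (.nd (nat_lit 19) (.nd (nat_lit 28) 
(.lf (nat_lit 5435940929) (dlOf (nat_lit 2) (nat_lit 0x101f80028408001000800f800200100008040483))) 
(.lf (nat_lit 2483150913) (dlOf (nat_lit 8) (nat_lit 0x7017008080a005a0020000400f016a0070030803400d80180003c0e020a02800a0008003a003800080180003b08002a02e00800140048804002e801c000400c0001d05000a01700668040012401c00be00d0001c840009017002500a000c402000f200d0001b84005c0140000c80808000a002b8020000400c0006004800000200050008003400200980008030e03)))) 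
(.lf (nat_lit 4095336513) (dlOf (nat_lit 1) (nat_lit 0x320028090481)))) (.nd (nat_lit 9) 
(.lf (nat_lit 4094288321) (dlOf (nat_lit 5) (nat_lit 0x240fe0021302001e07f0010381000503f80080c0800101fc004020400c400400160018037002))) 
(.lf (nat_lit 1677850561) (dlOf (nat_lit 1) (nat_lit 0x1000800040020008000811a603))))) 
(.nd (nat_lit 28) (.nd (nat_lit 21) 
(.lf (nat_lit 3288719425) (dlOf (nat_lit 3) (nat_lit 0x1e0350003a81000a0100000680800580080034002000a00080d0b83))) 
(.lf (nat_lit 2753945665) (dlOf (nat_lit 2) (nat_lit 0x4814e0040009000100280a0d00)))) 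
(.nd (nat_lit 8) 
(.lf (nat_lit 6241509441) (dlOf (nat_lit 1) (nat_lit 0x28008004c00200140008100483))) 
(.lf (nat_lit 872801601) (dlOf (nat_lit 1) (nat_lit 0x2800280e3281)))))) (.nd (nat_lit 28) 
(.nd (nat_lit 8) (.nd (nat_lit 19) 
(.lf (nat_lit 2348933185) (dlOf (nat_lit 8) (nat_lit 0x7016008080a005a0020000400f016a0070030803400d80180003c0e020a02800a0008003a003800080180003b08002a02c00800140048804002e801c000400c0001d05000a01600668040012401c00be00d0001c840009016002500a000c402000f200d0001b84005c0140000c80808000a002b8020000400c0006004000000200050008003400200980008030e03))) 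
(.lf (nat_lit 201973825) (dlOf (nat_lit 6) (nat_lit 0x490188001f40801100c4000f404024406200020110003a82008b018800280b0001402200074060114031000f0088001cc10097800800d4002000600080d0b83)))) 
(.nd (nat_lit 7) (.nd (nat_lit 9) 
(.lf (nat_lit 738320705) (dlOf (nat_lit 2) (nat_lit 0x3c0aa001e0370000a028090c00))) 
(.lf (nat_lit 201451329) (dlOf (nat_lit 1) (nat_lit 0x8008000400200020008003e03)))) 
(.lf (nat_lit 3959547841) (dlOf (nat_lit 1) (nat_lit 0x4004000a0008114402))))) (.nd (nat_lit 7) 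
(.nd (nat_lit 19) 
(.lf (nat_lit 5301723201) (dlOf (nat_lit 2) (nat_lit 0x900fc004007c000803a001501b8001f82000080080140002002e0008040483))) 
(.lf (nat_lit 470409281) (dlOf (nat_lit 1) (nat_lit 0x5000080e0c81)))) (.nd (nat_lit 9) 
(.lf (nat_lit 474341569) (dlOf (nat_lit 1) (nat_lit 0x1a0019160781))) 
(.lf (nat_lit 469890753) (dlOf (nat_lit 1) (nat_lit 0x4002800a001))))))))))) (.nd (nat_lit 18) 
(.nd (nat_lit 16) (.nd (nat_lit 15) (.nd (nat_lit 26) (.nd (nat_lit 19) (.nd (nat_lit 12) 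
(.nd (nat_lit 7) (.nd (nat_lit 28) (.nd (nat_lit 9) 
(.lf (nat_lit 28336161) (dlOf (nat_lit 2) (nat_lit 0xa6768019f4080030008009400200240008d80683))) 
(.lf (nat_lit 5502952993) (dlOf (nat_lit 1) (nat_lit 0x20008003701)))) (.nd (nat_lit 6) 
(.lf (nat_lit 1342205473) (dlOf (nat_lit 2) (nat_lit 0x1848e000623c0006f828007180))) 
(.lf (nat_lit 4563428961) (dlOf (nat_lit 4) (nat_lit 0x980bc000b80400240000002d02000602e000200f000000100020008005400200080008003903))))) 
(.nd (nat_lit 11) (.nd (nat_lit 29) 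
(.lf (nat_lit 2415945377) (dlOf (nat_lit 1) (nat_lit 0xa0018003a81))) 
(.lf (nat_lit 4026558113) (dlOf (nat_lit 1) (nat_lit 0x20018003a81)))) (.nd (nat_lit 8) 
(.lf (nat_lit 3087036065) (dlOf (nat_lit 4) (nat_lit 0x1402e000340200020170001901000100b8000c4080090008007c00200220008007203))) 
(.lf (nat_lit 49310113) (dlOf (nat_lit 1) (nat_lit 0x400200020009464e82)))))) (.nd (nat_lit 9) 
(.nd (nat_lit 6) (.nd (nat_lit 7) (.nd (nat_lit 28) 
(.lf (nat_lit 6039827745) (dlOf (nat_lit 4) (nat_lit 0xe806a0014034000f0000000781801a80d4002006800140000000b83003301a800600d00020000000000600060008009781))) 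
(.lf (nat_lit 4160779553) (dlOf (nat_lit 6) (nat_lit 0x180280001c0200100140005002800068100110050004000a00018040004014000800200005010011005000680080001104002c0018009781)))) 
(.lf (nat_lit 8417697) (dlOf (nat_lit 1) (nat_lit 0x10008000400200020008518383)))) 
(.nd (nat_lit 10) 
(.lf (nat_lit 3623909473) (dlOf (nat_lit 2) (nat_lit 0xa0300008017800300b8002805a0016005000b00100038000002801c000c004000a001800a802))) 
(.lf (nat_lit 2952821857) (dlOf (nat_lit 17) (nat_lit 0x8700980017c0801e806003e0026001a012001e0088001742005f804c000b804008c03001ea0130002a8200430158012807806bc03400dc018007f0098008003c01b8000000540e003402b000500f00b8006800c40300106013001f0088009803c006800a005c000000298900a90098001480800f806003b00260012011003d00780014420036804c000a0040558034003e01800f0009800580440008a1004040260003f02018e0130001c8100440098000e00802400700005c0400140380002d02000201c00290098000101004c00080c40002013c000800c003))))) 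
(.nd (nat_lit 7) (.nd (nat_lit 10) 
(.lf (nat_lit 6039827297) (dlOf (nat_lit 3) (nat_lit 0x400800546020002004002a2818008f80))) 
(.lf (nat_lit 1342207841) (dlOf (nat_lit 1) (nat_lit 0xa001800a301)))) (.nd (nat_lit 8) 
(.lf (nat_lit 8418017) (dlOf (nat_lit 1) (nat_lit 0x8008000400200020008518c83))) 
(.lf (nat_lit 536901601) (dlOf (nat_lit 3) (nat_lit 0x1802900158408068814800abe0400240020008000800a602))))))) 
(.nd (nat_lit 20) (.nd (nat_lit 21) (.nd (nat_lit 27) (.nd (nat_lit 6) 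
(.lf (nat_lit 3221774369) (dlOf (nat_lit 7) (nat_lit 0x1008e016bd020150046009f0228041810c02840840014040002d01f801380e00254066015ad10016c04600ad022804e010c02b0084002e03f001401c005180cc02b581c01c408c00ec045005602180290108001407e007403300ad586000402a802f8138009c09a003604a00190248001007c028d218018c09c00c004d001602500070124028d010014000401160018180902))) 
(.lf (nat_lit 17326305) (dlOf (nat_lit 1) (nat_lit 0x30004000600188e0582)))) (.nd (nat_lit 28) 
(.lf (nat_lit 134766625) (dlOf (nat_lit 1) (nat_lit 0x80080010002000400080b0a03))) 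
(.lf (nat_lit 3624427553) (dlOf (nat_lit 1) (nat_lit 0xc00281a0501))))) (.nd (nat_lit 6) 
(.nd (nat_lit 22) (.lf (nat_lit 11034657) (dlOf (nat_lit 1) (nat_lit 0x20028660501))) 
(.lf (nat_lit 15228961) (dlOf (nat_lit 1) (nat_lit 0x10002000c00087c0602)))) 
(.lf (nat_lit 61367905) (dlOf (nat_lit 2) (nat_lit 0x1b522800228cc0006608000400400580019923902))))) 
(.nd (nat_lit 24) (.nd (nat_lit 25) (.nd (nat_lit 21) 
(.lf (nat_lit 3491258401) (dlOf (nat_lit 1) (nat_lit 0x400200020008080702))) 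
(.lf (nat_lit 3493355553) (dlOf (nat_lit 2) (nat_lit 0x840400141fa000290400020008120981)))) 
(.nd (nat_lit 7) 
(.lf (nat_lit 45637665) (dlOf (nat_lit 2) (nat_lit 0x15d8940001c04000800200020009340182))) 
(.lf (nat_lit 37251489) (dlOf (nat_lit 1) (nat_lit 0x4002003400090d4e82))))) (.nd (nat_lit 7) 
(.nd (nat_lit 21) (.lf (nat_lit 30957601) (dlOf (nat_lit 1) (nat_lit 0x8008000400200040008e50a83))) 
(.lf (nat_lit 24666145) (dlOf (nat_lit 3) (nat_lit 0x1b49000054080025a480000a0400b400200020008bb0802)))) 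
(.lf (nat_lit 20475041) (dlOf (nat_lit 1) (nat_lit 0x600189d6281))))))) (.nd (nat_lit 29) 
(.nd (nat_lit 7) (.nd (nat_lit 8) (.nd (nat_lit 6) (.nd (nat_lit 9) 
(.lf (nat_lit 201875489) (dlOf (nat_lit 1) (nat_lit 0x80080010002000400080b0a03))) 
(.lf (nat_lit 6643807777) (dlOf (nat_lit 1) (nat_lit 0xa0008009c01)))) 
(.lf (nat_lit 469793889) (dlOf (nat_lit 8) (nat_lit 0xe0140003301001204e800402380009c08008813a002608e0002682000504e800118080098274003011c0004504001609d0001f81002204e800582380007a0800040020016000800c002)))) 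
(.nd (nat_lit 6) (.nd (nat_lit 11) 
(.lf (nat_lit 3422582049) (dlOf (nat_lit 10) (nat_lit 0x800e00060000000bc10011803800880000002e04004e00e00210000000b410002803800200000000a04005a000000030100060000000140800c803800100000000204000a00000000810020007000e80000000008000c004003a0018009782))) 
(.lf (nat_lit 1409314081) (dlOf (nat_lit 1) (nat_lit 0x400200020008006782)))) 
(.lf (nat_lit 4362107233) (dlOf (nat_lit 1) (nat_lit 0x300080018002000c000800ab83))))) 
(.nd (nat_lit 6) (.nd (nat_lit 8) 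
(.lf (nat_lit 469791393) (dlOf (nat_lit 1) (nat_lit 0x20018008c81))) (.nd (nat_lit 10) 
(.lf (nat_lit 1275095457) (dlOf (nat_lit 2) (nat_lit 0x201400676018004e80))) 
(.lf (nat_lit 3691017633) (dlOf (nat_lit 10) (nat_lit 0x2d001b0052d81013d00d8029680803880540148c04016002a00a450200a20150052101000300a8028f0080088054013a804005c02a009af02013001b005a00a80028000000000c03d800200020008009902))))) 
(.nd (nat_lit 9) (.nd (nat_lit 12) 
(.lf (nat_lit 471359713) (dlOf (nat_lit 3) (nat_lit 0xe0b28000840800d85940003a04003c004001e00082e0582))) 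
(.lf (nat_lit 469790945) (dlOf (nat_lit 1) (nat_lit 0x400400040018008082)))) 
(.lf (nat_lit 67140321) (dlOf (nat_lit 1) (nat_lit 0x8001800b981)))))) (.nd (nat_lit 27) 
(.nd (nat_lit 11) (.nd (nat_lit 7) (.nd (nat_lit 21) 
(.lf (nat_lit 2753060897) (dlOf (nat_lit 1) (nat_lit 0x400200020008080702))) 
(.lf (nat_lit 2755158049) (dlOf (nat_lit 2) (nat_lit 0x840400141fa000290400020008120981)))) 
(.lf (nat_lit 2755682465) (dlOf (nat_lit 2) (nat_lit 0x96155000a60181b0200)))) (.nd (nat_lit 6) 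
(.lf (nat_lit 2751494177) (dlOf (nat_lit 1) (nat_lit 0x2001800a601))) (.nd (nat_lit 7) 
(.lf (nat_lit 604011617) (dlOf (nat_lit 11) (nat_lit 0xf001c00300000005d040026016000b0038004001800940000005c080024016000100a8001001c002800c0012002000900080100000000a21c005c02c000c01500080080004801c004400c001000300080010005800400a00000005012001e0160013003800130100078058001000e00045040022016000b003800108100098058005c00e0003f04000e01600090038000f41000d000000008040138002012a000800c002))) 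
(.lf (nat_lit 2754637025) (dlOf (nat_lit 1) (nat_lit 0x2000180f6501)))))) (.nd (nat_lit 9) 
(.nd (nat_lit 6) (.nd (nat_lit 30) 
(.lf (nat_lit 2886230049) (dlOf (nat_lit 1) (nat_lit 0xc00281a0501))) 
(.lf (nat_lit 3959971873) (dlOf (nat_lit 7) (nat_lit 0x2a008c013e0450083021805081080028080005a03f002701c004a80cc02e282002d808c015a045009c02180560108005c07e002803800a3019805c4c38038811801d808a00ac0430052021000280fc00e8066017120c000804700aa581000402a802f8138009c09a003604a00190248001007c0289818018c09c00c004d0016025000701240289610014000401160018180902)))) 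
(.lf (nat_lit 3959971937) (dlOf (nat_lit 5) (nat_lit 0x26811c0001c0400d805e000a01400004020035017801780500000808004805e000030200020028181281)))) 
(.nd (nat_lit 6) (.nd (nat_lit 7) 
(.lf (nat_lit 6106932769) (dlOf (nat_lit 3) (nat_lit 0x1802c0000e020006016000100a8000001000580080028002001a0008003703))) 
(.lf (nat_lit 3959451297) (dlOf (nat_lit 1) (nat_lit 0x320008007201)))) 
(.lf (nat_lit 2885709409) (dlOf (nat_lit 1) (nat_lit 0x8a0028007181)))))))) (.nd (nat_lit 19) 
(.nd (nat_lit 7) (.nd (nat_lit 28) (.nd (nat_lit 20) (.nd (nat_lit 8) (.nd (nat_lit 22) 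
(.lf (nat_lit 27320353) (dlOf (nat_lit 1) (nat_lit 0x400200020008cd0682))) 
(.lf (nat_lit 14737441) (dlOf (nat_lit 1) (nat_lit 0x8008001c00200140008770183)))) 
(.lf (nat_lit 1275127073) (dlOf (nat_lit 1) (nat_lit 0x400400020008093102)))) (.nd (nat_lit 6) 
(.lf (nat_lit 9494561) (dlOf (nat_lit 2) (nat_lit 0x30ef8000d4080020008001000200060008560583))) 
(.nd (nat_lit 8) (.lf (nat_lit 51437665) (dlOf (nat_lit 1) (nat_lit 0x10008001800200080009510083))) 
(.lf (nat_lit 51439969) (dlOf (nat_lit 1) (nat_lit 0x40029514e81)))))) (.nd (nat_lit 26) 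
(.nd (nat_lit 9) (.lf (nat_lit 1345380385) (dlOf (nat_lit 1) (nat_lit 0x400200020008b80682))) 
(.nd (nat_lit 11) (.lf (nat_lit 6308292129) (dlOf (nat_lit 1) (nat_lit 0x20018053701))) 
(.lf (nat_lit 1342238241) (dlOf (nat_lit 2) (nat_lit 0x3091c001be04000400200100008007182))))) 
(.nd (nat_lit 6) (.nd (nat_lit 8) 
(.lf (nat_lit 472965153) (dlOf (nat_lit 3) (nat_lit 0x1615e001706b000b026c0001c0c00041360000a0200080018b70181))) 
(.lf (nat_lit 2080433441) (dlOf (nat_lit 1) (nat_lit 0x20028093101)))) 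
(.lf (nat_lit 469826657) (dlOf (nat_lit 11) (nat_lit 0x8584000c13a0005804000209d0002b81000104700013c0800e8584007013a004008e000270300200b080108274008c11c0004d06001208e0002381000104e8001180800d8584007017a003609d001e0470001142000882740007e04007c2c2004009d00230470000f4180058008000c0020016000800c003)))))) 
(.nd (nat_lit 6) (.nd (nat_lit 10) (.nd (nat_lit 8) 
(.lf (nat_lit 1275125921) (dlOf (nat_lit 1) (nat_lit 0x400400020008090582))) (.nd (nat_lit 12) 
(.lf (nat_lit 1346431393) (dlOf (nat_lit 1) (nat_lit 0xc00400060008f64e82))) 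
(.lf (nat_lit 1342241185) (dlOf (nat_lit 1) (nat_lit 0xc001800af81))))) (.nd (nat_lit 9) 
(.nd (nat_lit 11) (.lf (nat_lit 2080433313) (dlOf (nat_lit 1) (nat_lit 0x20028092b81))) 
(.lf (nat_lit 3489721505) (dlOf (nat_lit 1) (nat_lit 0x20028006281)))) 
(.lf (nat_lit 3959484065) (dlOf (nat_lit 2) (nat_lit 0x100000002004000400400020018007202))))) 
(.nd (nat_lit 12) (.nd (nat_lit 8) (.nd (nat_lit 10) 
(.lf (nat_lit 18931937) (dlOf (nat_lit 1) (nat_lit 0x10008000c00200020008970583))) 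
(.lf (nat_lit 2483088609) (dlOf (nat_lit 1) (nat_lit 0x20018006501)))) 
(.lf (nat_lit 1140909025) (dlOf (nat_lit 1) (nat_lit 0xe0028002881)))) (.nd (nat_lit 8) 
(.nd (nat_lit 11) (.lf (nat_lit 8450785) (dlOf (nat_lit 1) (nat_lit 0x400200020008518c82))) 
(.lf (nat_lit 67173089) (dlOf (nat_lit 1) (nat_lit 0x6001800b981)))) 
(.lf (nat_lit 536934369) (dlOf (nat_lit 2) (nat_lit 0x5014800abe0400200040008001800a602))))))) 
(.nd (nat_lit 21) (.nd (nat_lit 6) (.nd (nat_lit 22) (.nd (nat_lit 7) (.nd (nat_lit 26) 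
(.lf (nat_lit 3892895777) (dlOf (nat_lit 2) (nat_lit 0x1c0a20000002000a0008290c81))) 
(.lf (nat_lit 3154698273) (dlOf (nat_lit 1) (nat_lit 0x20018310001)))) 
(.lf (nat_lit 1409867937) (dlOf (nat_lit 1) (nat_lit 0x1840008090201)))) (.nd (nat_lit 20) 
(.lf (nat_lit 474538017) (dlOf (nat_lit 10) (nat_lit 0x181d40009e0400c40fa0004b0200cc07d0002501006603e8001240800e021400b00ea000420400cc07d0002001006603e8000fc080cb8258068810a0010083019e03a80cf81cc01c80340003e0c000409600100398000001000a8008001c002000c00091a0183))) 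
(.lf (nat_lit 22601761) (dlOf (nat_lit 1) (nat_lit 0x20018b00701))))) (.nd (nat_lit 7) 
(.lf (nat_lit 25747809) (dlOf (nat_lit 1) (nat_lit 0x20008003000200020008c10903))) 
(.nd (nat_lit 20) 
(.lf (nat_lit 582625) (dlOf (nat_lit 2) (nat_lit 0x1a95c02ca604002400400180018002882))) 
(.lf (nat_lit 39379937) (dlOf (nat_lit 1) (nat_lit 0x420019192881)))))) (.nd (nat_lit 20) 
(.nd (nat_lit 6) (.nd (nat_lit 22) (.nd (nat_lit 23) 
(.lf (nat_lit 19456033) (dlOf (nat_lit 1) (nat_lit 0x80080004002000200089a0e83))) 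
(.lf (nat_lit 27844641) (dlOf (nat_lit 1) (nat_lit 0x880008d30601)))) 
(.lf (nat_lit 23650337) (dlOf (nat_lit 2) (nat_lit 0x35ad0601c35fc0065f828b80000)))) 
(.nd (nat_lit 7) (.lf (nat_lit 53012065) (dlOf (nat_lit 1) (nat_lit 0x8008000400200020009573903))) 
(.lf (nat_lit 23650529) (dlOf (nat_lit 1) (nat_lit 0x1c0018b80481))))) (.nd (nat_lit 22) 
(.nd (nat_lit 26) (.lf (nat_lit 3493388321) (dlOf (nat_lit 2) (nat_lit 0x402000273018130480))) 
(.lf (nat_lit 2755190817) (dlOf (nat_lit 2) (nat_lit 0x40200053d818130480)))) (.nd (nat_lit 10) 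
(.lf (nat_lit 24698913) (dlOf (nat_lit 6) (nat_lit 0x21af3c004961a0001504008cbcf00105dc0016ae80000260c011179e001eb40000028200185e780001008002af3c0000404001c00400e80018bb0802))) 
(.lf (nat_lit 49865761) (dlOf (nat_lit 1) (nat_lit 0x1800294c2881))))))))) (.nd (nat_lit 19) 
(.nd (nat_lit 6) (.nd (nat_lit 7) (.nd (nat_lit 28) (.nd (nat_lit 15) (.nd (nat_lit 20) 
(.nd (nat_lit 21) (.lf (nat_lit 21061665) (dlOf (nat_lit 1) (nat_lit 0xa80008a00701))) 
(.lf (nat_lit 14770209) (dlOf (nat_lit 4) (nat_lit 0x410000000160400dc0000000a02002800000000018770180)))) 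
(.nd (nat_lit 24) 
(.lf (nat_lit 9527329) (dlOf (nat_lit 5) (nat_lit 0x149d80015408000a4ec000ce2e00064520002903000149d8000dc08000a4ec0006804000800400080008560582))) 
(.lf (nat_lit 26304545) (dlOf (nat_lit 2) (nat_lit 0x652d00006c080020008000800200060008c30183))))) 
(.nd (nat_lit 9) (.nd (nat_lit 20) 
(.lf (nat_lit 12705825) (dlOf (nat_lit 2) (nat_lit 0x14800002bac040008002000600086d0902))) 
(.lf (nat_lit 5365793) (dlOf (nat_lit 1) (nat_lit 0x320018350681)))) 
(.lf (nat_lit 3355571745) (dlOf (nat_lit 1) (nat_lit 0x9c002001c00080a9c02))))) (.nd (nat_lit 29) 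
(.nd (nat_lit 8) (.nd (nat_lit 10) 
(.lf (nat_lit 2550227489) (dlOf (nat_lit 1) (nat_lit 0x20018017f01))) 
(.lf (nat_lit 4697712161) (dlOf (nat_lit 2) (nat_lit 0xc022000000200180028093701)))) 
(.lf (nat_lit 2617341217) (dlOf (nat_lit 1) (nat_lit 0x200180a9781)))) (.nd (nat_lit 9) 
(.lf (nat_lit 1880187937) (dlOf (nat_lit 1) (nat_lit 0x1800287a2881))) (.nd (nat_lit 10) 
(.lf (nat_lit 6377564705) (dlOf (nat_lit 1) (nat_lit 0x4004000200080e5102))) 
(.lf (nat_lit 805432865) (dlOf (nat_lit 2) (nat_lit 0x98000001be040008002000e0008117182))))))) 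
(.nd (nat_lit 8) (.nd (nat_lit 9) (.nd (nat_lit 10) (.nd (nat_lit 11) 
(.lf (nat_lit 94369) (dlOf (nat_lit 1) (nat_lit 0x2a0018007d81))) 
(.lf (nat_lit 939616417) (dlOf (nat_lit 1) (nat_lit 0x400400020008144882)))) 
(.lf (nat_lit 1409416353) (dlOf (nat_lit 1) (nat_lit 0x40040028000800c202)))) (.nd (nat_lit 11) 
(.lf (nat_lit 201418401) (dlOf (nat_lit 1) (nat_lit 0x200018003a81))) 
(.lf (nat_lit 6576795297) (dlOf (nat_lit 1) (nat_lit 0x400200020008147202))))) (.nd (nat_lit 12) 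
(.nd (nat_lit 28) (.nd (nat_lit 11) 
(.lf (nat_lit 1677812129) (dlOf (nat_lit 1) (nat_lit 0x1a0008090781))) 
(.lf (nat_lit 49375649) (dlOf (nat_lit 1) (nat_lit 0x20009464e81)))) (.nd (nat_lit 9) 
(.lf (nat_lit 805432737) (dlOf (nat_lit 1) (nat_lit 0x5400200060008116d02))) 
(.lf (nat_lit 4563495841) (dlOf (nat_lit 1) (nat_lit 0x20028095c81))))) (.nd (nat_lit 9) 
(.nd (nat_lit 11) (.lf (nat_lit 8483233) (dlOf (nat_lit 1) (nat_lit 0x400400020018518382))) 
(.lf (nat_lit 20052385) (dlOf (nat_lit 1) (nat_lit 0x1a00289daf81)))) 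
(.lf (nat_lit 805436321) (dlOf (nat_lit 1) (nat_lit 0x300040004001811bc82))))))) (.nd (nat_lit 28) 
(.nd (nat_lit 12) (.nd (nat_lit 7) (.nd (nat_lit 8) (.nd (nat_lit 22) 
(.lf (nat_lit 6442541153) (dlOf (nat_lit 1) (nat_lit 0x80080004002000200080a1383))) 
(.lf (nat_lit 63004769) (dlOf (nat_lit 1) (nat_lit 0x800199b1981)))) 
(.lf (nat_lit 738322785) (dlOf (nat_lit 1) (nat_lit 0x60018094e81)))) (.nd (nat_lit 29) 
(.nd (nat_lit 20) 
(.lf (nat_lit 1208049889) (dlOf (nat_lit 2) (nat_lit 0x2301c800584080090008004000200180008090a83))) 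
(.lf (nat_lit 30499041) (dlOf (nat_lit 1) (nat_lit 0x400400020008e30582)))) (.nd (nat_lit 8) 
(.lf (nat_lit 2751588577) (dlOf (nat_lit 1) (nat_lit 0x20008001000200040008004a83))) 
(.lf (nat_lit 1610704353) (dlOf (nat_lit 1) (nat_lit 0x80028093601)))))) (.nd (nat_lit 10) 
(.nd (nat_lit 11) (.lf (nat_lit 8483553) (dlOf (nat_lit 1) (nat_lit 0x8008000400200020008518c83))) 
(.nd (nat_lit 15) 
(.lf (nat_lit 20019937) (dlOf (nat_lit 1) (nat_lit 0x880080004002001400089db983))) 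
(.lf (nat_lit 20052705) (dlOf (nat_lit 1) (nat_lit 0x8002000200089db982))))) (.nd (nat_lit 8) 
(.nd (nat_lit 15) (.lf (nat_lit 20018401) (dlOf (nat_lit 1) (nat_lit 0x80080004002000200089d9503))) 
(.lf (nat_lit 3355571425) (dlOf (nat_lit 1) (nat_lit 0x80080004002008e00080a9503)))) 
(.lf (nat_lit 96225) (dlOf (nat_lit 5) (nat_lit 0x505a8016080400202d400afb02000816a002ad8100050b50002005400aa40800180040104001800a602)))))) 
(.nd (nat_lit 8) (.nd (nat_lit 7) (.nd (nat_lit 9) (.nd (nat_lit 11) 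
(.lf (nat_lit 1344364641) (dlOf (nat_lit 1) (nat_lit 0x400400060008740482))) 
(.lf (nat_lit 939616353) (dlOf (nat_lit 1) (nat_lit 0x8008000400200020008144703)))) 
(.lf (nat_lit 6241216097) (dlOf (nat_lit 2) (nat_lit 0xc0140024009801080480005a0c008000400140018053902)))) 
(.nd (nat_lit 9) 
(.lf (nat_lit 5838597345) (dlOf (nat_lit 5) (nat_lit 0x30068000d408001009c0006804000405c0006027000150200010170000300801a00080004002000800080f6503))) 
(.nd (nat_lit 10) (.lf (nat_lit 469856993) (dlOf (nat_lit 1) (nat_lit 0x20018008c81))) 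
(.lf (nat_lit 939615969) (dlOf (nat_lit 1) (nat_lit 0x20028143a81)))))) (.nd (nat_lit 27) 
(.nd (nat_lit 7) (.nd (nat_lit 11) 
(.lf (nat_lit 4563493217) (dlOf (nat_lit 2) (nat_lit 0x500480005e04001400200260008090e82))) 
(.lf (nat_lit 805431649) (dlOf (nat_lit 1) (nat_lit 0x20008114e81)))) 
(.lf (nat_lit 2416009697) (dlOf (nat_lit 1) (nat_lit 0x10008000400200020008017d03)))) 
(.nd (nat_lit 9) (.nd (nat_lit 26) 
(.lf (nat_lit 1476485473) (dlOf (nat_lit 1) (nat_lit 0x280080014002000a0008010903))) 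
(.lf (nat_lit 3691077985) (dlOf (nat_lit 1) (nat_lit 0x88002000e0008010902)))) 
(.lf (nat_lit 2617373537) (dlOf (nat_lit 1) (nat_lit 0x600280a8f81)))))))) (.nd (nat_lit 26) 
(.nd (nat_lit 21) (.nd (nat_lit 15) (.nd (nat_lit 22) (.nd (nat_lit 29) (.nd (nat_lit 23) 
(.nd (nat_lit 27) 
(.lf (nat_lit 3221839905) (dlOf (nat_lit 2) (nat_lit 0x600078010001a00350000001401807b00080498002003e00081a0b03))) 
(.lf (nat_lit 134832161) (dlOf (nat_lit 2) (nat_lit 0x4c0000000002002c00180c0b01)))) 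
(.lf (nat_lit 42557473) (dlOf (nat_lit 4) (nat_lit 0xfd9f70009c0b003ca1f802010fa00ec871007e3fa80391fa401f8ee400b874100713a000319cdc017ce120000e18001287e000443e800a9d040074e800022709000050500403a0000000080320008005c00200040009260183)))) 
(.nd (nat_lit 6) 
(.lf (nat_lit 805920801) (dlOf (nat_lit 2) (nat_lit 0x230000001280800180080030002000200081f0b03))) 
(.lf (nat_lit 537485409) (dlOf (nat_lit 1) (nat_lit 0x600080028002000e00080a1283))))) 
(.nd (nat_lit 10) (.lf (nat_lit 13197345) (dlOf (nat_lit 1) (nat_lit 0xc0018700a01))) 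
(.lf (nat_lit 1346987041) (dlOf (nat_lit 2) (nat_lit 0x10b0000624080008008001000200040009162883))))) 
(.nd (nat_lit 22) (.nd (nat_lit 23) 
(.lf (nat_lit 134864929) (dlOf (nat_lit 2) (nat_lit 0x2cc04300ee020809380fc042407a030003a011501c008f00d404540660120030014a0098000005000680080104002000e00080d0883))) 
(.lf (nat_lit 42590241) (dlOf (nat_lit 2) (nat_lit 0x25c0000000e0200500019260181)))) 
(.nd (nat_lit 23) 
(.lf (nat_lit 21618721) (dlOf (nat_lit 1) (nat_lit 0xb8008000400200140008a50783))) 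
(.lf (nat_lit 13230113) (dlOf (nat_lit 6) (nat_lit 0x78a2200384b200322500001281800594440008c04000c0000003f0200264020001601000428880005c08003800800f400200ba0008710b03)))))) 
(.nd (nat_lit 6) (.nd (nat_lit 23) (.nd (nat_lit 15) (.nd (nat_lit 29) 
(.lf (nat_lit 3492372513) (dlOf (nat_lit 2) (nat_lit 0x88794000a0040048004000e00080c0b02))) 
(.lf (nat_lit 1881759777) (dlOf (nat_lit 2) (nat_lit 0xd075800601f400280f00003e0600040019000181)))) 
(.lf (nat_lit 2744353) (dlOf (nat_lit 1) (nat_lit 0x400281a0b01)))) (.nd (nat_lit 22) 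
(.lf (nat_lit 11100193) (dlOf (nat_lit 3) (nat_lit 0x137e200035010001bf10001a4080008008000800200020008660503))) 
(.lf (nat_lit 15294497) (dlOf (nat_lit 1) (nat_lit 0x4002000200087d0582))))) (.nd (nat_lit 12) 
(.nd (nat_lit 15) 
(.lf (nat_lit 53044833) (dlOf (nat_lit 2) (nat_lit 0x12d39c0004702000c0009573901))) 
(.lf (nat_lit 7988833) (dlOf (nat_lit 1) (nat_lit 0x7c00400340008513902)))) (.nd (nat_lit 7) 
(.lf (nat_lit 7960417) (dlOf (nat_lit 1) (nat_lit 0x2001851a301))) 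
(.lf (nat_lit 7959777) (dlOf (nat_lit 1) (nat_lit 0x1c00200020008519502))))))) (.nd (nat_lit 15) 
(.nd (nat_lit 27) (.nd (nat_lit 29) (.nd (nat_lit 6) 
(.lf (nat_lit 3557384225) (dlOf (nat_lit 1) (nat_lit 0xa00281e0681))) 
(.lf (nat_lit 67723489) (dlOf (nat_lit 1) (nat_lit 0x1600282d0581)))) (.nd (nat_lit 21) 
(.lf (nat_lit 1678336033) (dlOf (nat_lit 2) (nat_lit 0x230000001280800180080030002000200081f0b03))) 
(.lf (nat_lit 2754175009) (dlOf (nat_lit 2) (nat_lit 0x887dc0008a040048004000e00080c0b02))))) 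
(.nd (nat_lit 28) (.nd (nat_lit 9) (.nd (nat_lit 29) 
(.lf (nat_lit 201941025) (dlOf (nat_lit 2) (nat_lit 0x4c0000000002002c00180c0b01))) 
(.lf (nat_lit 3960037409) (dlOf (nat_lit 2) (nat_lit 0x600078010001a00350000001141807b00080498002003e00081a0b03)))) 
(.lf (nat_lit 738814497) (dlOf (nat_lit 2) (nat_lit 0x280340002204000400400060018125102)))) 
(.nd (nat_lit 6) 
(.lf (nat_lit 474570785) (dlOf (nat_lit 10) (nat_lit 0x40a68001240800283340008604000419a000420202e6156017c0a1807404ec025827202e80cd0043065801c825803f010a00fc0750015039800c806801fc0000003e1800e00cd0001e0100260ab006c050c000700800142ac0003702000a1560001b01001c0a18000000802e00080018002000c00091a0183))) 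
(.lf (nat_lit 472473697) (dlOf (nat_lit 1) (nat_lit 0x20018991981)))))) (.nd (nat_lit 29) 
(.nd (nat_lit 20) (.nd (nat_lit 27) 
(.lf (nat_lit 4362723361) (dlOf (nat_lit 4) (nat_lit 0x180820004a02001004100370190001181000180c80007a040068004000800080e0b02))) 
(.lf (nat_lit 201973793) (dlOf (nat_lit 2) (nat_lit 0x2cc04300ee020809380fc042407a030003a011501c008f00d404540660120030014a0098000005000680080104002000e00080d0883)))) 
(.lf (nat_lit 471457825) (dlOf (nat_lit 1) (nat_lit 0x2c0008300a81)))) (.nd (nat_lit 6) 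
(.nd (nat_lit 20) (.nd (nat_lit 30) 
(.lf (nat_lit 3154763809) (dlOf (nat_lit 2) (nat_lit 0x80120000000801480080020002000e0008320c83))) 
(.lf (nat_lit 4228505633) (dlOf (nat_lit 4) (nat_lit 0x180740004a02001003a00370188001181000180c40007a040068004000800080e0b02)))) 
(.lf (nat_lit 4095336481) (dlOf (nat_lit 2) (nat_lit 0x2825c00046040010004000a0018090182)))) 
(.nd (nat_lit 21) 
(.lf (nat_lit 6375989345) (dlOf (nat_lit 1) (nat_lit 0x5800800a400200200008040783))) 
(.lf (nat_lit 1009377377) (dlOf (nat_lit 1) (nat_lit 0x100029141a81)))))))))) (.nd (nat_lit 15) 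
(.nd (nat_lit 16) (.nd (nat_lit 26) (.nd (nat_lit 21) (.nd (nat_lit 30) (.nd (nat_lit 6) 
(.nd (nat_lit 19) (.nd (nat_lit 22) 
(.lf (nat_lit 537157665) (dlOf (nat_lit 1) (nat_lit 0x20018030981))) 
(.lf (nat_lit 38035489) (dlOf (nat_lit 1) (nat_lit 0x60009110181)))) (.nd (nat_lit 23) 
(.lf (nat_lit 2819383329) (dlOf (nat_lit 2) (nat_lit 0x4c00c000870200060018250601))) 
(.lf (nat_lit 42754081) (dlOf (nat_lit 2) (nat_lit 0x9b9e0004ba8c00315fe001290000093608000382800380080024002000c0009280183))))) 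
(.nd (nat_lit 7) 
(.lf (nat_lit 25452897) (dlOf (nat_lit 2) (nat_lit 0x169f8003b32000081f6000000600080008c10901))) 
(.nd (nat_lit 27) 
(.lf (nat_lit 4563689697) (dlOf (nat_lit 2) (nat_lit 0x380000000702002400080c1d01))) 
(.lf (nat_lit 4697907425) (dlOf (nat_lit 4) (nat_lit 0xb01a000580c8000803e0000d06000602f0000601001c01780002c0804b80080004002004000080c1a83)))))) 
(.nd (nat_lit 28) (.nd (nat_lit 27) (.nd (nat_lit 29) 
(.lf (nat_lit 5368995873) (dlOf (nat_lit 1) (nat_lit 0xb200280b0181))) 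
(.lf (nat_lit 3758383137) (dlOf (nat_lit 1) (nat_lit 0x40008000c00200020008170183)))) 
(.lf (nat_lit 5503213601) (dlOf (nat_lit 1) (nat_lit 0xb200280b0181)))) (.nd (nat_lit 6) 
(.lf (nat_lit 1342464033) (dlOf (nat_lit 1) (nat_lit 0x58008009400200660008030983))) 
(.lf (nat_lit 3491520993) (dlOf (nat_lit 1) (nat_lit 0x10008000400200020008090c03)))))) 
(.nd (nat_lit 6) (.nd (nat_lit 10) (.nd (nat_lit 19) 
(.lf (nat_lit 24404001) (dlOf (nat_lit 2) (nat_lit 0x35a44028d204000400400020018b90902))) 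
(.nd (nat_lit 20) (.lf (nat_lit 28074017) (dlOf (nat_lit 1) (nat_lit 0x20018d50601))) 
(.lf (nat_lit 1346134049) (dlOf (nat_lit 2) (nat_lit 0xc6143006309d803184e4019019a00640750064039800038300010008000c00200020008e60183))))) 
(.nd (nat_lit 7) (.nd (nat_lit 11) 
(.lf (nat_lit 8152609) (dlOf (nat_lit 1) (nat_lit 0x220018513701))) 
(.lf (nat_lit 20737569) (dlOf (nat_lit 1) (nat_lit 0x2c00089d7181)))) 
(.lf (nat_lit 8152481) (dlOf (nat_lit 1) (nat_lit 0x400200020008513602))))) (.nd (nat_lit 8) 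
(.nd (nat_lit 7) 
(.lf (nat_lit 62152801) (dlOf (nat_lit 2) (nat_lit 0x7527806ec4080158008004800200640009960783))) 
(.nd (nat_lit 9) (.lf (nat_lit 28598497) (dlOf (nat_lit 1) (nat_lit 0x400400020008da0582))) 
(.lf (nat_lit 20216545) (dlOf (nat_lit 1) (nat_lit 0x480080008002000c00089db983))))) 
(.nd (nat_lit 9) (.nd (nat_lit 10) 
(.lf (nat_lit 11821537) (dlOf (nat_lit 1) (nat_lit 0x200286c0c01))) 
(.lf (nat_lit 19688929) (dlOf (nat_lit 1) (nat_lit 0x4002000200089d6e02)))) 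
(.lf (nat_lit 36463585) (dlOf (nat_lit 1) (nat_lit 0x20019072881))))))) (.nd (nat_lit 28) 
(.nd (nat_lit 6) (.nd (nat_lit 20) (.nd (nat_lit 8) (.nd (nat_lit 27) 
(.lf (nat_lit 67395617) (dlOf (nat_lit 1) (nat_lit 0x100080018002000600080f0183))) 
(.lf (nat_lit 2349096993) (dlOf (nat_lit 1) (nat_lit 0x1280080048002000c00080a0903)))) 
(.lf (nat_lit 6509846817) (dlOf (nat_lit 1) (nat_lit 0x8008001800200020008154283)))) 
(.nd (nat_lit 7) 
(.lf (nat_lit 2753323553) (dlOf (nat_lit 2) (nat_lit 0x240440000000804f0008011c002002e0008090d83))) 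
(.nd (nat_lit 8) 
(.lf (nat_lit 2752798881) (dlOf (nat_lit 1) (nat_lit 0x8008000400200020008044603))) 
(.lf (nat_lit 2753323425) (dlOf (nat_lit 1) (nat_lit 0x20008090781)))))) (.nd (nat_lit 9) 
(.nd (nat_lit 7) (.lf (nat_lit 2349097057) (dlOf (nat_lit 2) (nat_lit 0x200e000110180a1280))) 
(.nd (nat_lit 19) 
(.lf (nat_lit 3959710177) (dlOf (nat_lit 3) (nat_lit 0x5408a009bc02002a045004dc018127d00))) 
(.lf (nat_lit 2753323489) (dlOf (nat_lit 1) (nat_lit 0x10008000400200020008090c03))))) 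
(.nd (nat_lit 10) (.nd (nat_lit 19) 
(.lf (nat_lit 1141138401) (dlOf (nat_lit 1) (nat_lit 0x60028122881))) 
(.lf (nat_lit 2752275425) (dlOf (nat_lit 1) (nat_lit 0x4b0008000400200720008002883)))) 
(.lf (nat_lit 2751756257) (dlOf (nat_lit 3) (nat_lit 0x41d00056102001c0e8002af81800a600)))))) 
(.nd (nat_lit 31) (.nd (nat_lit 27) (.nd (nat_lit 6) (.nd (nat_lit 7) 
(.lf (nat_lit 1409572897) (dlOf (nat_lit 1) (nat_lit 0x20018030981))) 
(.lf (nat_lit 5167669409) (dlOf (nat_lit 1) (nat_lit 0x400080f1381)))) 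
(.lf (nat_lit 5704541793) (dlOf (nat_lit 1) (nat_lit 0x4002000200080d3902)))) (.nd (nat_lit 6) 
(.nd (nat_lit 20) 
(.lf (nat_lit 470048801) (dlOf (nat_lit 1) (nat_lit 0x58008009400200660008030983))) 
(.lf (nat_lit 471097377) (dlOf (nat_lit 1) (nat_lit 0x580080068002001c0008270603)))) 
(.lf (nat_lit 5301887969) (dlOf (nat_lit 3) (nat_lit 0x560110016881001c0088009ac0800d80080034002008e00080e2883))))) 
(.nd (nat_lit 30) (.nd (nat_lit 6) 
(.lf (nat_lit 2483314721) (dlOf (nat_lit 1) (nat_lit 0x1280080048002000c00080a0903))) 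
(.nd (nat_lit 8) (.lf (nat_lit 2483314785) (dlOf (nat_lit 1) (nat_lit 0x8004000400080a1382))) 
(.lf (nat_lit 3154403681) (dlOf (nat_lit 1) (nat_lit 0x20028160901))))) (.nd (nat_lit 10) 
(.nd (nat_lit 19) 
(.lf (nat_lit 3691274273) (dlOf (nat_lit 1) (nat_lit 0x8800800a800200280008110603))) 
(.lf (nat_lit 3557580833) (dlOf (nat_lit 14) (nat_lit 0x349037800900d0001700811e80de02c20340005b8200c2037800300d00016c0808940de00320340005982001c0000002300800181d400e00000008a0400380000003e81001c0000001f0080050124003c042000780404b006f001001a0000381001b01bc000140408840de001c034000040201aa037800600e00144068000000601360018270601)))) 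
(.lf (nat_lit 4096025633) (dlOf (nat_lit 1) (nat_lit 0x1000180e2881)))))))) (.nd (nat_lit 19) 
(.nd (nat_lit 31) (.nd (nat_lit 6) (.nd (nat_lit 24) (.nd (nat_lit 26) (.nd (nat_lit 7) 
(.lf (nat_lit 1400865) (dlOf (nat_lit 1) (nat_lit 0x14004000c00080c0982))) 
(.lf (nat_lit 355489) (dlOf (nat_lit 1) (nat_lit 0x8008000400200020008006283)))) (.nd (nat_lit 28) 
(.lf (nat_lit 4496646177) (dlOf (nat_lit 1) (nat_lit 0x20028100181))) 
(.lf (nat_lit 5838823457) (dlOf (nat_lit 2) (nat_lit 0x1000c0002000005cd0100050008001c002000a00081c0903))))) 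
(.nd (nat_lit 7) (.nd (nat_lit 20) 
(.lf (nat_lit 27615265) (dlOf (nat_lit 1) (nat_lit 0x80008d00681))) 
(.lf (nat_lit 26566689) (dlOf (nat_lit 1) (nat_lit 0x400200020008c50182)))) 
(.lf (nat_lit 21324193) (dlOf (nat_lit 1) (nat_lit 0x20018a36b81))))) (.nd (nat_lit 7) 
(.nd (nat_lit 21) (.lf (nat_lit 474308705) (dlOf (nat_lit 1) (nat_lit 0x40004000a0009141a82))) 
(.lf (nat_lit 44392545) (dlOf (nat_lit 1) (nat_lit 0x44c00200c40009301a82)))) (.nd (nat_lit 9) 
(.nd (nat_lit 21) (.lf (nat_lit 1208312033) (dlOf (nat_lit 1) (nat_lit 0x1400280c1d01))) 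
(.lf (nat_lit 19226849) (dlOf (nat_lit 1) (nat_lit 0x8008000800200040008970583)))) 
(.lf (nat_lit 20282081) (dlOf (nat_lit 1) (nat_lit 0x600080004002001a00089db983)))))) 
(.nd (nat_lit 26) (.nd (nat_lit 30) (.nd (nat_lit 6) (.nd (nat_lit 8) 
(.lf (nat_lit 6442803233) (dlOf (nat_lit 2) (nat_lit 0x1000c0002000005758100050008001c002000a00081c0903))) 
(.lf (nat_lit 2953142561) (dlOf (nat_lit 1) (nat_lit 0x400400020018160702)))) 
(.lf (nat_lit 2953142497) (dlOf (nat_lit 8) (nat_lit 0x230098001680803980b80264058014602b00a6015005480a4004404e011001e007b00d003980600218026011c01100af002805780080288000000411c005c02e0053015002d80a400c003c006a01a002b00c001c004c011402200a8005005c00100170000000802c008c02600020050001f8200090160019004c0007a080060026004c0050001802001301600000008008800800bc00200040008160583)))) 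
(.nd (nat_lit 6) (.nd (nat_lit 27) 
(.lf (nat_lit 4026884129) (dlOf (nat_lit 2) (nat_lit 0xa000000000180c0b00))) 
(.lf (nat_lit 3892666401) (dlOf (nat_lit 7) (nat_lit 0x1800580001802015a02c0000b81021e0320003818807fc0c0047e05a007802c80fe015407f0068026c02f01f501400ff0050008c00c0400003000058c01f40320000818807080c0041805a01bf02a80df80d0043805e037202801c600a00e6800c000142802fc0b40276055013b01a009d00500000e1007600c8042c05a01ad02a80fb011c06ac06801c202f01ff017005680b00124050030e01401dc00180f700080000030043400401640008180182)))) 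
(.lf (nat_lit 3624234209) (dlOf (nat_lit 2) (nat_lit 0x1c00e0000800800f8008002400200060008146503))))) 
(.nd (nat_lit 30) (.nd (nat_lit 29) 
(.lf (nat_lit 2617597985) (dlOf (nat_lit 2) (nat_lit 0x3203400035018100500))) 
(.lf (nat_lit 3154468897) (dlOf (nat_lit 4) (nat_lit 0x3e032001d0168008c0a40000b060016064000050100050320011011c00280880014038000a017000000280110008002c002000400081a0183)))) 
(.nd (nat_lit 6) (.nd (nat_lit 8) 
(.lf (nat_lit 3288686625) (dlOf (nat_lit 2) (nat_lit 0xa000000000180c0b00))) 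
(.lf (nat_lit 3691340065) (dlOf (nat_lit 1) (nat_lit 0x400400020018160702)))) 
(.lf (nat_lit 3691340001) (dlOf (nat_lit 8) (nat_lit 0x2300a0001680803980b80264058014602b00a6015005480a4004404400f601b008800c803980600218028011c01100af002805780080288000000411c005c02e0053015002d80a400d40360060019002b00c001c0050011402200a8005005c00100170000000802c008c02800020050001f820009016001900500007a080060028004c0050001802001301600000008008800800bc00200040008160583))))))) 
(.nd (nat_lit 20) (.nd (nat_lit 6) (.nd (nat_lit 10) (.nd (nat_lit 21) 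
(.lf (nat_lit 21848097) (dlOf (nat_lit 1) (nat_lit 0x20028a70481))) 
(.lf (nat_lit 4096614433) (dlOf (nat_lit 2) (nat_lit 0xb200980004c080010008000c00200080008140b03)))) 
(.nd (nat_lit 7) (.lf (nat_lit 38626337) (dlOf (nat_lit 1) (nat_lit 0x20009132881))) 
(.lf (nat_lit 1007513249) (dlOf (nat_lit 1) (nat_lit 0x200183d7201))))) (.nd (nat_lit 7) 
(.lf (nat_lit 26042721) (dlOf (nat_lit 1) (nat_lit 0x400200020008c10902))) (.nd (nat_lit 10) 
(.lf (nat_lit 30236897) (dlOf (nat_lit 1) (nat_lit 0x400400020008e30582))) 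
(.lf (nat_lit 3490540769) (dlOf (nat_lit 1) (nat_lit 0x1400200020008006502)))))) (.nd (nat_lit 22) 
(.nd (nat_lit 21) (.nd (nat_lit 7) 
(.lf (nat_lit 27090977) (dlOf (nat_lit 2) (nat_lit 0x2a3638000000400ec004005c0008ca0602))) 
(.lf (nat_lit 471690401) (dlOf (nat_lit 1) (nat_lit 0x200183d6281)))) (.nd (nat_lit 23) 
(.lf (nat_lit 1346199585) (dlOf (nat_lit 5) (nat_lit 0x1170ab0076850c046c2760138139015d0668016025800d410a01fa0750040039801980c00001c2803702ac01b413b0120066801c01d4000181000a02ac0036143001b09d800e04e4002819a0034075000b03980002838077855802b827602680cd00e303a800000200af800800b800200760008e60183))) 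
(.lf (nat_lit 29188129) (dlOf (nat_lit 1) (nat_lit 0x8008000400200020008dd0e83))))) 
(.nd (nat_lit 7) (.nd (nat_lit 21) 
(.lf (nat_lit 22896673) (dlOf (nat_lit 1) (nat_lit 0x400400020008b40502))) 
(.lf (nat_lit 24993825) (dlOf (nat_lit 1) (nat_lit 0x8008000400200020008bd0b03)))) (.nd (nat_lit 6) 
(.lf (nat_lit 58549409) (dlOf (nat_lit 1) (nat_lit 0x180080048002000e00097e2b83))) 
(.lf (nat_lit 8222689) (dlOf (nat_lit 2) (nat_lit 0xa8da000538a80021a7000aa40c00200040066001851a602))))))))) 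
(.nd (nat_lit 30) (.nd (nat_lit 7) (.nd (nat_lit 26) (.nd (nat_lit 16) (.nd (nat_lit 19) 
(.nd (nat_lit 6) (.nd (nat_lit 20) 
(.lf (nat_lit 2282020897) (dlOf (nat_lit 4) (nat_lit 0x288054011c02800b8013002100880218040000bc14000c02a00200130002e82005100a80230050016c026003e011001b00800016c280208008018800200260008100503))) 
(.lf (nat_lit 30728225) (dlOf (nat_lit 1) (nat_lit 0x860028e40c81)))) 
(.lf (nat_lit 20245089) (dlOf (nat_lit 1) (nat_lit 0x280080010002000200089d5383)))) 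
(.nd (nat_lit 21) (.nd (nat_lit 24) 
(.lf (nat_lit 42786849) (dlOf (nat_lit 2) (nat_lit 0x836750000380801b8008000400200540009280183))) 
(.lf (nat_lit 59564065) (dlOf (nat_lit 1) (nat_lit 0x1380080014002002e0009810683)))) 
(.nd (nat_lit 8) 
(.lf (nat_lit 28106785) (dlOf (nat_lit 2) (nat_lit 0x8a96c0011404000400200020008d50602))) 
(.lf (nat_lit 8189217) (dlOf (nat_lit 1) (nat_lit 0x400008519781)))))) (.nd (nat_lit 6) 
(.nd (nat_lit 19) (.nd (nat_lit 20) 
(.lf (nat_lit 537255969) (dlOf (nat_lit 2) (nat_lit 0x3d02a802100c40000c08000800400380008070682))) 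
(.lf (nat_lit 9822241) (dlOf (nat_lit 2) (nat_lit 0x580000008a0400c4002000c0008580182)))) 
(.nd (nat_lit 20) (.lf (nat_lit 42852385) (dlOf (nat_lit 1) (nat_lit 0x400200040009280182))) 
(.lf (nat_lit 10346529) (dlOf (nat_lit 1) (nat_lit 0x4004000400085d0482))))) (.nd (nat_lit 8) 
(.lf (nat_lit 61728353) (dlOf (nat_lit 2) (nat_lit 0x10af900019819923900))) 
(.lf (nat_lit 26075489) (dlOf (nat_lit 1) (nat_lit 0x400400020008c10902)))))) (.nd (nat_lit 31) 
(.nd (nat_lit 16) (.nd (nat_lit 20) (.nd (nat_lit 27) 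
(.lf (nat_lit 4362395681) (dlOf (nat_lit 1) (nat_lit 0x60018050501))) 
(.lf (nat_lit 470081569) (dlOf (nat_lit 1) (nat_lit 0x280080004002002e0008040483)))) 
(.lf (nat_lit 471130145) (dlOf (nat_lit 2) (nat_lit 0x330b280032c080008008001000200020008270603)))) 
(.nd (nat_lit 9) (.nd (nat_lit 27) 
(.lf (nat_lit 4362461217) (dlOf (nat_lit 1) (nat_lit 0x7d0008000400201080008090003))) 
(.lf (nat_lit 201711649) (dlOf (nat_lit 2) (nat_lit 0x100fc002007a009480400040018090001)))) 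
(.lf (nat_lit 201712161) (dlOf (nat_lit 1) (nat_lit 0x200018090d81))))) (.nd (nat_lit 20) 
(.nd (nat_lit 22) (.nd (nat_lit 27) 
(.lf (nat_lit 2483347489) (dlOf (nat_lit 1) (nat_lit 0xcc00080c0b01))) 
(.lf (nat_lit 2349129761) (dlOf (nat_lit 1) (nat_lit 0xcc00080c0b01)))) (.nd (nat_lit 16) 
(.lf (nat_lit 2755977249) (dlOf (nat_lit 2) (nat_lit 0x3800000b998181c0900))) 
(.lf (nat_lit 2756042785) (dlOf (nat_lit 1) (nat_lit 0xe00181d0a01))))) (.nd (nat_lit 6) 
(.lf (nat_lit 2754932257) (dlOf (nat_lit 1) (nat_lit 0x2600080f7181))) (.nd (nat_lit 8) 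
(.lf (nat_lit 2754932321) (dlOf (nat_lit 1) (nat_lit 0xc004001200080f7182))) 
(.lf (nat_lit 2755518817) (dlOf (nat_lit 1) (nat_lit 0x10004000600081b0702)))))))) (.nd (nat_lit 6) 
(.nd (nat_lit 22) (.nd (nat_lit 9) (.nd (nat_lit 16) (.nd (nat_lit 19) 
(.lf (nat_lit 671408289) (dlOf (nat_lit 1) (nat_lit 0x160008184601))) 
(.lf (nat_lit 471654561) (dlOf (nat_lit 2) (nat_lit 0x20a7000474080010008001000200140008370483)))) 
(.lf (nat_lit 604364961) (dlOf (nat_lit 2) (nat_lit 0x460160008e8181a0480)))) (.nd (nat_lit 16) 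
(.lf (nat_lit 2754932385) (dlOf (nat_lit 3) (nat_lit 0x18c0b2000080100270590000340800b00080118002004600080f7203))) 
(.lf (nat_lit 20311713) (dlOf (nat_lit 1) (nat_lit 0x8004000200089d7202))))) (.nd (nat_lit 8) 
(.nd (nat_lit 9) (.lf (nat_lit 8189089) (dlOf (nat_lit 1) (nat_lit 0x80018519501))) 
(.lf (nat_lit 8188577) (dlOf (nat_lit 1) (nat_lit 0x8008000400200020008518c83)))) (.nd (nat_lit 10) 
(.nd (nat_lit 11) (.lf (nat_lit 21291425) (dlOf (nat_lit 1) (nat_lit 0x1b400200ae0008a36b82))) 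
(.lf (nat_lit 40233377) (dlOf (nat_lit 1) (nat_lit 0x4004000200091f4e82)))) 
(.lf (nat_lit 8185249) (dlOf (nat_lit 1) (nat_lit 0x400200020008513602)))))) (.nd (nat_lit 16) 
(.nd (nat_lit 9) (.nd (nat_lit 19) 
(.lf (nat_lit 19194081) (dlOf (nat_lit 1) (nat_lit 0x8008001400200020008970583))) (.nd (nat_lit 20) 
(.lf (nat_lit 30204129) (dlOf (nat_lit 1) (nat_lit 0x3000400060018e30582))) 
(.lf (nat_lit 471654625) (dlOf (nat_lit 13) (nat_lit 0x3802f40005404008817a0002902013e14e000110100a10a70000840804385380004004022829c0001f02012414e0000f0100910a7000f81f80003a08023c29c0001c02010014e0000d0100300a70002851c0000a0800802c8000000200200008370581))))) 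
(.nd (nat_lit 19) (.lf (nat_lit 20249313) (dlOf (nat_lit 1) (nat_lit 0x4002000200089db982))) 
(.lf (nat_lit 19725025) (dlOf (nat_lit 1) (nat_lit 0x4002000200089db982))))) (.nd (nat_lit 8) 
(.nd (nat_lit 9) (.nd (nat_lit 20) 
(.lf (nat_lit 604365025) (dlOf (nat_lit 28) (nat_lit 0x220020002d01009300b001c001c02f800000055060112016001a0038001501006a005801e400e000530400ee016004900380310000000a40c026c02c004000700940000001441804e0058008400e00050040148016003000380013c1001f00440009c0400f80220004c02007e0110002581003e00880012408000806000a4022000480401300000001f81004f00b0002001c0007a0800d402c001e00700010000000e01806680000006e0402d00000003602014c0000001a8100c20000000d0080068044023800000033040048011007b0000000c8100050058000800e000a0000001803006b00b00002408048005800c800e00380000000283003600380000c08022005800140000000004000200181a0581))) 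
(.lf (nat_lit 28696801) (dlOf (nat_lit 1) (nat_lit 0x20008000800200020008da0583)))) 
(.lf (nat_lit 20314849) (dlOf (nat_lit 1) (nat_lit 0x80080004002000400089db983)))) 
(.nd (nat_lit 10) (.nd (nat_lit 22) 
(.lf (nat_lit 4362461665) (dlOf (nat_lit 1) (nat_lit 0x80080020002000a0008090c03))) 
(.lf (nat_lit 21357025) (dlOf (nat_lit 1) (nat_lit 0x100018a37281)))) 
(.lf (nat_lit 19789281) (dlOf (nat_lit 1) (nat_lit 0x4002000200089d9b02)))))))) (.nd (nat_lit 31) 
(.nd (nat_lit 16) (.nd (nat_lit 26) (.nd (nat_lit 7) (.nd (nat_lit 20) (.nd (nat_lit 27) 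
(.nd (nat_lit 29) 
(.lf (nat_lit 1342496801) (dlOf (nat_lit 1) (nat_lit 0x280080004002002e0008040483))) 
(.lf (nat_lit 1879367713) (dlOf (nat_lit 3) (nat_lit 0x2821e0001502003810b001300000001410002800800a8002001400080f0803)))) 
(.lf (nat_lit 1208279073) (dlOf (nat_lit 2) (nat_lit 0x16003800060040001181000100080030002000200080b0183)))) 
(.nd (nat_lit 19) 
(.lf (nat_lit 1343545377) (dlOf (nat_lit 2) (nat_lit 0x260470002000800600080004002001c0008290603))) 
(.lf (nat_lit 1346166817) (dlOf (nat_lit 7) (nat_lit 0x3f03640004e04002c40a0006202006e0d48042859801342c6084a143044209d821104e404141b208760cd009d0660043832c016c18800e807d00c003a804301d001880e60118030009c00d003300000001c5000402860000d02058214303c209d8226833402340ea00220730000605004b0d480ed850c074c276035a139026c066800202dc00b40fa002a0750022039800080c0004c0340000a160668143034e09d81e88334005019400d0075006a00f8000003028b800801d800216840008e60183))))) 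
(.nd (nat_lit 8) 
(.lf (nat_lit 5637464225) (dlOf (nat_lit 1) (nat_lit 0x80080160002005c00080f1383))) 
(.lf (nat_lit 1074061729) (dlOf (nat_lit 1) (nat_lit 0x20028090781))))) (.nd (nat_lit 8) 
(.nd (nat_lit 6) 
(.lf (nat_lit 2080694305) (dlOf (nat_lit 2) (nat_lit 0x16003800060040001181000100080030002000200080b0183))) 
(.lf (nat_lit 1410136161) (dlOf (nat_lit 1) (nat_lit 0x4004000200180fa802)))) (.nd (nat_lit 11) 
(.lf (nat_lit 1543823649) (dlOf (nat_lit 6) (nat_lit 0x352023002300400170014008400000aa608000c02c002a011803d806000800100058005001e0000029783000b80b00010052072c02300f1010000080740198030004a008002d00280010008007400000a5c140792023014c01000560060008401000b600500523850310011806d80800000008041400400340018187802))) 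
(.lf (nat_lit 1410132257) (dlOf (nat_lit 1) (nat_lit 0x200180f4b81)))))) (.nd (nat_lit 6) 
(.nd (nat_lit 21) (.nd (nat_lit 22) 
(.lf (nat_lit 1409671201) (dlOf (nat_lit 2) (nat_lit 0x3d02a802100c40000c08000800400380008070682))) 
(.lf (nat_lit 1346756641) (dlOf (nat_lit 10) (nat_lit 0x181d40009e0400c40fa0004b0200cc07d0002501006603e8001240800e021400b00ea000420400cc07d0002001006603e8000fc080cb8258068810a0010083019e03a80cf81cc01c803e0003e0c000409600100398000001000a8008001c002000c0009000183)))) 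
(.lf (nat_lit 1881530401) (dlOf (nat_lit 1) (nat_lit 0x10008000800200040008f40183)))) 
(.nd (nat_lit 7) (.nd (nat_lit 8) 
(.lf (nat_lit 1881530465) (dlOf (nat_lit 1) (nat_lit 0x10008002000200040008f40903))) 
(.lf (nat_lit 1879433569) (dlOf (nat_lit 1) (nat_lit 0x20008150901)))) 
(.lf (nat_lit 1476780257) (dlOf (nat_lit 28) (nat_lit 0x220020002d01009300b801c001c02f800000055060112017001a0038001501006a005c01e400e000530400ee017004900380310000000a40c026c02e004000700940000001441804e005c008400e00050040148017003000380013c1001f00440009c0400f80220004c02007e0110002581003e00880012408000806000a4022000480401300000001f81004f00b8002001c0007a0800d402e001e00700010000000e01806680000006e0402d00000003602014c0000001a8100c20000000d0080068044023800000033040048011007b0000000c810005005c000800e000a0000001803006b00b80002408048005c00c800e00380000000283003600380000c08022005c00140000000004000200181a0581)))))) 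
(.nd (nat_lit 16) (.nd (nat_lit 26) (.nd (nat_lit 6) (.nd (nat_lit 27) (.nd (nat_lit 8) 
(.nd (nat_lit 22) 
(.lf (nat_lit 4026851361) (dlOf (nat_lit 1) (nat_lit 0x60008001c002005e00080a0903))) 
(.lf (nat_lit 3494174753) (dlOf (nat_lit 2) (nat_lit 0x3800000aea8181c0900)))) 
(.lf (nat_lit 3493128481) (dlOf (nat_lit 1) (nat_lit 0x8004000200180f4b82)))) (.nd (nat_lit 29) 
(.lf (nat_lit 3355762721) (dlOf (nat_lit 3) (nat_lit 0x40320000b0100010188000500800b00080064002001800080f0603))) 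
(.lf (nat_lit 3892633633) (dlOf (nat_lit 2) (nat_lit 0xc05a00005818180180))))) (.nd (nat_lit 11) 
(.lf (nat_lit 3494174817) (dlOf (nat_lit 2) (nat_lit 0x2c0980002202000800081c1281))) 
(.lf (nat_lit 3493132385) (dlOf (nat_lit 1) (nat_lit 0x14004000e00080fa802))))) (.nd (nat_lit 19) 
(.nd (nat_lit 27) 
(.lf (nat_lit 3288653857) (dlOf (nat_lit 1) (nat_lit 0x60008001c002005e00080a0903))) 
(.lf (nat_lit 4228177953) (dlOf (nat_lit 1) (nat_lit 0x60018050501)))) (.nd (nat_lit 20) 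
(.lf (nat_lit 3557613601) (dlOf (nat_lit 2) (nat_lit 0x19000c00c800000045028270600))) 
(.lf (nat_lit 4095533089) (dlOf (nat_lit 1) (nat_lit 0x1800800dc002004c00080d0483)))))) 
(.nd (nat_lit 26) (.nd (nat_lit 6) (.nd (nat_lit 22) (.nd (nat_lit 28) 
(.lf (nat_lit 3221610529) (dlOf (nat_lit 1) (nat_lit 0x18008000c00200040008160703))) 
(.lf (nat_lit 4026916897) (dlOf (nat_lit 1) (nat_lit 0x23800801ac00200a400080d0883)))) 
(.lf (nat_lit 3494240289) (dlOf (nat_lit 1) (nat_lit 0xe00181d0a01)))) (.nd (nat_lit 7) 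
(.lf (nat_lit 3493716321) (dlOf (nat_lit 1) (nat_lit 0x10004000600081b0702))) 
(.lf (nat_lit 3492674017) (dlOf (nat_lit 1) (nat_lit 0x8a00280fb281))))) (.nd (nat_lit 6) 
(.nd (nat_lit 27) 
(.lf (nat_lit 3288719393) (dlOf (nat_lit 1) (nat_lit 0x23800801ac00200a400080d0883))) 
(.nd (nat_lit 28) 
(.lf (nat_lit 3959808033) (dlOf (nat_lit 1) (nat_lit 0x18008000c00200040008160703))) 
(.lf (nat_lit 4228243489) (dlOf (nat_lit 1) (nat_lit 0x600008000400201040008090003))))) 
(.nd (nat_lit 7) 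
(.lf (nat_lit 3557155169) (dlOf (nat_lit 2) (nat_lit 0xc0c6000000200020008130901))) 
(.lf (nat_lit 4228243937) (dlOf (nat_lit 1) (nat_lit 0x80080020002000a0008090c03))))))))))))

end

end Pool.Agent.Lib.MP_5854e1_co.Cz

namespace Pool.Agent.Lib.MP_5854e1_co.Cz

noncomputable section

noncomputable def tz99 : DT := (.nd (nat_lit 16) (.nd (nat_lit 18) (.nd (nat_lit 15) 
(.nd (nat_lit 5) (.nd (nat_lit 6) (.nd (nat_lit 19) (.nd (nat_lit 26) (.nd (nat_lit 7) 
(.nd (nat_lit 20) (.nd (nat_lit 21) 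
(.lf (nat_lit 25190409) (dlOf (nat_lit 1) (nat_lit 0x800400020018bf0482))) 
(.lf (nat_lit 23093257) (dlOf (nat_lit 2) (nat_lit 0x6adc00659018b50000)))) (.nd (nat_lit 22) 
(.lf (nat_lit 3490734089) (dlOf (nat_lit 1) (nat_lit 0x18008000400200020008020483))) 
(.lf (nat_lit 30433289) (dlOf (nat_lit 1) (nat_lit 0x20008000800200060008e30003))))) 
(.nd (nat_lit 28) (.nd (nat_lit 10) 
(.lf (nat_lit 24141961) (dlOf (nat_lit 1) (nat_lit 0x8008000c00200020008b80103))) 
(.lf (nat_lit 134249609) (dlOf (nat_lit 1) (nat_lit 0x2000800c201)))) (.nd (nat_lit 8) 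
(.lf (nat_lit 4160779401) (dlOf (nat_lit 1) (nat_lit 0x380008009501))) 
(.lf (nat_lit 1476425609) (dlOf (nat_lit 1) (nat_lit 0x40040004001800a302)))))) (.nd (nat_lit 10) 
(.nd (nat_lit 29) (.nd (nat_lit 7) 
(.lf (nat_lit 1543530505) (dlOf (nat_lit 2) (nat_lit 0xc008c000ae040090004001e0018004702))) 
(.lf (nat_lit 3288361353) (dlOf (nat_lit 1) (nat_lit 0x40028004e81)))) (.nd (nat_lit 11) 
(.lf (nat_lit 2752536585) (dlOf (nat_lit 1) (nat_lit 0x18008000400200020008020483))) 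
(.lf (nat_lit 3825231881) (dlOf (nat_lit 2) (nat_lit 0x900b80015c080008008006800200640008004703))))) 
(.nd (nat_lit 7) (.nd (nat_lit 8) 
(.lf (nat_lit 5301627913) (dlOf (nat_lit 1) (nat_lit 0x10004000e0008005f82))) 
(.lf (nat_lit 472933641) (dlOf (nat_lit 1) (nat_lit 0x60028b52f81)))) (.nd (nat_lit 8) 
(.lf (nat_lit 5435844233) (dlOf (nat_lit 2) (nat_lit 0x50188000b0080178008004400200320008003a03))) 
(.lf (nat_lit 3691018121) (dlOf (nat_lit 1) (nat_lit 0x2002800a301))))))) (.nd (nat_lit 21) 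
(.nd (nat_lit 26) (.nd (nat_lit 20) (.nd (nat_lit 8) 
(.lf (nat_lit 2819121161) (dlOf (nat_lit 2) (nat_lit 0xb00d80029e0400c8004005a00081a0482))) 
(.lf (nat_lit 1476944137) (dlOf (nat_lit 1) (nat_lit 0x4c0008303a01)))) (.nd (nat_lit 10) 
(.lf (nat_lit 30957577) (dlOf (nat_lit 3) (nat_lit 0x159700027008001acb80011a040014002000a0008e50582))) 
(.lf (nat_lit 39347209) (dlOf (nat_lit 1) (nat_lit 0x20019192881))))) (.nd (nat_lit 8) 
(.nd (nat_lit 27) 
(.lf (nat_lit 4362625033) (dlOf (nat_lit 1) (nat_lit 0x2c00080054002006400080b0003))) 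
(.lf (nat_lit 4228407305) (dlOf (nat_lit 1) (nat_lit 0x2c00080054002006400080b0003)))) 
(.lf (nat_lit 604528905) (dlOf (nat_lit 1) (nat_lit 0x9c00082f7c81))))) (.nd (nat_lit 9) 
(.nd (nat_lit 20) (.nd (nat_lit 25) 
(.lf (nat_lit 15228937) (dlOf (nat_lit 1) (nat_lit 0x580080050002000a00087c0483))) 
(.lf (nat_lit 48783369) (dlOf (nat_lit 1) (nat_lit 0x400400020009430082)))) 
(.lf (nat_lit 24666121) (dlOf (nat_lit 2) (nat_lit 0xf69200aa4818bb0000)))) (.nd (nat_lit 11) 
(.lf (nat_lit 58221065) (dlOf (nat_lit 1) (nat_lit 0x4004000800097c7b02))) (.nd (nat_lit 26) 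
(.lf (nat_lit 5774010889) (dlOf (nat_lit 1) (nat_lit 0x4004000200080e5002))) 
(.lf (nat_lit 6377990665) (dlOf (nat_lit 1) (nat_lit 0x14004000600080e5002)))))))) (.nd (nat_lit 8) 
(.nd (nat_lit 7) (.nd (nat_lit 19) (.nd (nat_lit 26) 
(.lf (nat_lit 3490734153) (dlOf (nat_lit 6) (nat_lit 0x83d6000c0000001a0200130f5801180000006208003c3d6000260200441eb0016000000088100a808bc0000004002000400540018020882))) 
(.lf (nat_lit 2752536649) (dlOf (nat_lit 6) (nat_lit 0x83fa000c0000001a0200130fe801180000006208003c3fa000260200441fd0016000000088100a8091c0000004002000400540018020882)))) 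
(.nd (nat_lit 9) (.nd (nat_lit 26) 
(.lf (nat_lit 3494404169) (dlOf (nat_lit 2) (nat_lit 0x288280000004000400400180008220c82))) 
(.lf (nat_lit 2756206665) (dlOf (nat_lit 2) (nat_lit 0x2887c0000004000400400180008220c82)))) 
(.lf (nat_lit 23618121) (dlOf (nat_lit 1) (nat_lit 0x20018b81181))))) (.nd (nat_lit 9) 
(.nd (nat_lit 10) (.nd (nat_lit 12) 
(.lf (nat_lit 3493880009) (dlOf (nat_lit 2) (nat_lit 0x13030000142040004002000200081b0482))) 
(.lf (nat_lit 1476423881) (dlOf (nat_lit 1) (nat_lit 0x20028008001)))) 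
(.lf (nat_lit 67138761) (dlOf (nat_lit 1) (nat_lit 0xe0008009501)))) (.nd (nat_lit 10) 
(.nd (nat_lit 28) (.lf (nat_lit 29385) (dlOf (nat_lit 1) (nat_lit 0x400400020008008c82))) 
(.lf (nat_lit 1342206665) (dlOf (nat_lit 1) (nat_lit 0x20018008c81)))) 
(.lf (nat_lit 4294995657) (dlOf (nat_lit 1) (nat_lit 0xc00400020008007302)))))) (.nd (nat_lit 11) 
(.nd (nat_lit 7) (.nd (nat_lit 19) 
(.lf (nat_lit 3493880137) (dlOf (nat_lit 2) (nat_lit 0x5a0c00002e0181b0600))) (.nd (nat_lit 26) 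
(.lf (nat_lit 1074291017) (dlOf (nat_lit 1) (nat_lit 0x400081b0601))) 
(.lf (nat_lit 1946706249) (dlOf (nat_lit 1) (nat_lit 0x400081b0601))))) (.nd (nat_lit 10) 
(.nd (nat_lit 9) (.lf (nat_lit 43016649) (dlOf (nat_lit 1) (nat_lit 0x3800292a1101))) 
(.lf (nat_lit 2752013257) (dlOf (nat_lit 1) (nat_lit 0x40018002881)))) (.nd (nat_lit 27) 
(.lf (nat_lit 604009929) (dlOf (nat_lit 1) (nat_lit 0x20028009a81))) 
(.lf (nat_lit 469792201) (dlOf (nat_lit 1) (nat_lit 0x1400400040008009a82)))))) (.nd (nat_lit 10) 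
(.nd (nat_lit 9) (.nd (nat_lit 30) 
(.lf (nat_lit 2818599369) (dlOf (nat_lit 2) (nat_lit 0x1000a000400300160000032c8180038008000800200060008004e83))) 
(.lf (nat_lit 3892341193) (dlOf (nat_lit 1) (nat_lit 0x8008000400200020008004e83)))) 
(.lf (nat_lit 5301627849) (dlOf (nat_lit 1) (nat_lit 0x40008005d81)))) (.nd (nat_lit 7) 
(.nd (nat_lit 20) 
(.lf (nat_lit 1409314121) (dlOf (nat_lit 3) (nat_lit 0x402f8000380800d017c0001a04005c004001a0018006982))) 
(.lf (nat_lit 19950921) (dlOf (nat_lit 1) (nat_lit 0x1e00089d6981)))) 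
(.lf (nat_lit 19951049) (dlOf (nat_lit 2) (nat_lit 0x20d44001cc04000c004000200189d6d02)))))))) 
(.nd (nat_lit 7) (.nd (nat_lit 19) (.nd (nat_lit 20) (.nd (nat_lit 10) (.nd (nat_lit 9) 
(.nd (nat_lit 21) (.lf (nat_lit 3493879849) (dlOf (nat_lit 1) (nat_lit 0x34004000800081b0002))) 
(.lf (nat_lit 23093289) (dlOf (nat_lit 2) (nat_lit 0x2a15bc0004f0200020028b50601)))) 
(.lf (nat_lit 41970217) (dlOf (nat_lit 1) (nat_lit 0x8008000400200020009245183)))) (.nd (nat_lit 6) 
(.lf (nat_lit 469791785) (dlOf (nat_lit 2) (nat_lit 0x20470028c4080090008007400200120008009203))) 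
(.nd (nat_lit 8) (.lf (nat_lit 1006664809) (dlOf (nat_lit 1) (nat_lit 0x16002800c081))) 
(.lf (nat_lit 1073768297) (dlOf (nat_lit 1) (nat_lit 0x8008000400200020008004003)))))) 
(.nd (nat_lit 28) (.nd (nat_lit 21) (.nd (nat_lit 23) 
(.lf (nat_lit 2752536617) (dlOf (nat_lit 2) (nat_lit 0x4912400057808009800800f000200280008020503))) 
(.lf (nat_lit 26239017) (dlOf (nat_lit 1) (nat_lit 0x20008c20901)))) 
(.lf (nat_lit 28336169) (dlOf (nat_lit 1) (nat_lit 0x1000200080008d80782)))) (.nd (nat_lit 9) 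
(.nd (nat_lit 26) 
(.lf (nat_lit 3490734121) (dlOf (nat_lit 2) (nat_lit 0x491180004d008009800800f000200280008020503))) 
(.lf (nat_lit 1007706153) (dlOf (nat_lit 1) (nat_lit 0x400400020008740002)))) 
(.lf (nat_lit 1345350185) (dlOf (nat_lit 1) (nat_lit 0x9b000803f4002008c0008b55183)))))) 
(.nd (nat_lit 21) (.nd (nat_lit 6) (.nd (nat_lit 9) 
(.lf (nat_lit 30957609) (dlOf (nat_lit 2) (nat_lit 0x95c1800044080088008003000200320008e50b03))) 
(.nd (nat_lit 26) (.lf (nat_lit 1342726697) (dlOf (nat_lit 1) (nat_lit 0x4002000200080c0e02))) 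
(.lf (nat_lit 470311465) (dlOf (nat_lit 1) (nat_lit 0x4002000200080c0e02))))) (.nd (nat_lit 9) 
(.nd (nat_lit 26) 
(.lf (nat_lit 3221774441) (dlOf (nat_lit 3) (nat_lit 0x42047000080100340178000100800080080068002002a0008181403))) 
(.lf (nat_lit 3959971945) (dlOf (nat_lit 7) (nat_lit 0x2c022800d010800a007e00700330000a04009f0230002010c01a8080010c038002900b00004c2800c01180002404017c08c000110200420460000201004d02300000c080610008067800200820008181403)))) 
(.lf (nat_lit 8939113) (dlOf (nat_lit 1) (nat_lit 0x20028513901))))) (.nd (nat_lit 22) 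
(.nd (nat_lit 28) (.nd (nat_lit 23) 
(.lf (nat_lit 2646057) (dlOf (nat_lit 4) (nat_lit 0x107440008380000619500040278000282000107440004380000c1950006027800024200028744000c380000c1950006027800020200008008000400200020008180a83))) 
(.lf (nat_lit 11034665) (dlOf (nat_lit 3) (nat_lit 0xe703800697fb004f000000158180019d540008a04001800200020008660682)))) 
(.nd (nat_lit 6) 
(.lf (nat_lit 3492306985) (dlOf (nat_lit 2) (nat_lit 0x203cc0001402000c00180c0c01))) 
(.lf (nat_lit 1009279337) (dlOf (nat_lit 1) (nat_lit 0xc004000400190e0f02))))) (.nd (nat_lit 20) 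
(.lf (nat_lit 48783401) (dlOf (nat_lit 1) (nat_lit 0x400400020009430882))) 
(.lf (nat_lit 24666153) (dlOf (nat_lit 7) (nat_lit 0x63da50003ad1a00095fc0000c8300abb4a0000600805e5a500006bf80000b0401756940004afe00002810062da500016d1a00055fc000048300c1b4a0004d7f0000100800a800400540018bb0a82))))))) 
(.nd (nat_lit 6) (.nd (nat_lit 10) (.nd (nat_lit 9) (.nd (nat_lit 19) (.nd (nat_lit 12) 
(.lf (nat_lit 6710913449) (dlOf (nat_lit 1) (nat_lit 0x508004011c0008004e82))) 
(.lf (nat_lit 19954089) (dlOf (nat_lit 1) (nat_lit 0x4004000200089daf82)))) (.nd (nat_lit 11) 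
(.lf (nat_lit 58220969) (dlOf (nat_lit 1) (nat_lit 0x180080010002000600097c6e83))) 
(.lf (nat_lit 37251497) (dlOf (nat_lit 1) (nat_lit 0x4002000600090d4e82))))) (.nd (nat_lit 8) 
(.lf (nat_lit 19952297) (dlOf (nat_lit 1) (nat_lit 0x4002000200089d8c82))) (.nd (nat_lit 12) 
(.lf (nat_lit 1275095977) (dlOf (nat_lit 1) (nat_lit 0x800200060008005d02))) 
(.lf (nat_lit 3489692585) (dlOf (nat_lit 1) (nat_lit 0x2002800bd01)))))) (.nd (nat_lit 11) 
(.nd (nat_lit 8) (.nd (nat_lit 9) 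
(.lf (nat_lit 51405993) (dlOf (nat_lit 1) (nat_lit 0x980009512c01))) 
(.lf (nat_lit 469788329) (dlOf (nat_lit 1) (nat_lit 0xc00400560018003a82)))) 
(.lf (nat_lit 8415145) (dlOf (nat_lit 1) (nat_lit 0x880028514301)))) (.nd (nat_lit 8) 
(.nd (nat_lit 26) 
(.lf (nat_lit 1342205097) (dlOf (nat_lit 1) (nat_lit 0x8008000400200020008006283))) 
(.lf (nat_lit 3288362153) (dlOf (nat_lit 1) (nat_lit 0x400200020008006282)))) 
(.lf (nat_lit 134249897) (dlOf (nat_lit 1) (nat_lit 0x180020006000800cb82)))))) (.nd (nat_lit 27) 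
(.nd (nat_lit 11) (.nd (nat_lit 10) 
(.lf (nat_lit 1342206185) (dlOf (nat_lit 1) (nat_lit 0x400400040018008082))) 
(.lf (nat_lit 2147509481) (dlOf (nat_lit 1) (nat_lit 0x400400020018002e82)))) (.nd (nat_lit 19) 
(.nd (nat_lit 29) (.lf (nat_lit 6442478825) (dlOf (nat_lit 1) (nat_lit 0x6800400020008006502))) 
(.lf (nat_lit 5905607913) (dlOf (nat_lit 1) (nat_lit 0x7c004000a0008006502)))) 
(.lf (nat_lit 552169) (dlOf (nat_lit 2) (nat_lit 0x3495e40006404005400200060008006502))))) 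
(.nd (nat_lit 28) (.nd (nat_lit 10) 
(.lf (nat_lit 4429211881) (dlOf (nat_lit 2) (nat_lit 0x3100100002c04000800400360018004b02))) 
(.lf (nat_lit 671116521) (dlOf (nat_lit 4) (nat_lit 0xe0128000d80800280940006804002c05c003a025001a0098000b41801b0008000800200080008006503)))) 
(.nd (nat_lit 31) (.lf (nat_lit 939551977) (dlOf (nat_lit 2) (nat_lit 0xb200000000018006500))) 
(.lf (nat_lit 3087035625) (dlOf (nat_lit 7) (nat_lit 0x18d01000b20074060403802e2019019800c0000c8280d30080063003a034201c019a00c80d780600006014074c03a03c001900ec0000000b81810400740850032000a01401dc0000000b4200430074028c0320002b04021401d011600c8000a4100080008017400200080008006503))))))))) 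
(.nd (nat_lit 30) (.nd (nat_lit 5) (.nd (nat_lit 6) (.nd (nat_lit 8) (.nd (nat_lit 19) 
(.nd (nat_lit 27) (.nd (nat_lit 7) 
(.lf (nat_lit 44097545) (dlOf (nat_lit 1) (nat_lit 0x180080018002000200092c0003))) 
(.lf (nat_lit 805365897) (dlOf (nat_lit 1) (nat_lit 0xda0028004801)))) (.nd (nat_lit 20) 
(.lf (nat_lit 939581449) (dlOf (nat_lit 1) (nat_lit 0x2400280b0001))) 
(.lf (nat_lit 470867977) (dlOf (nat_lit 2) (nat_lit 0x96026200be502000400281c0481))))) 
(.nd (nat_lit 21) (.nd (nat_lit 27) 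
(.lf (nat_lit 4362657801) (dlOf (nat_lit 2) (nat_lit 0x80ac0000002000a00280c0001))) 
(.lf (nat_lit 738779145) (dlOf (nat_lit 1) (nat_lit 0xc0028110001)))) 
(.lf (nat_lit 15261705) (dlOf (nat_lit 1) (nat_lit 0x4004000200087c0482))))) (.nd (nat_lit 9) 
(.nd (nat_lit 10) (.lf (nat_lit 2147541257) (dlOf (nat_lit 1) (nat_lit 0x400400020008090a82))) 
(.nd (nat_lit 11) (.lf (nat_lit 55633161) (dlOf (nat_lit 1) (nat_lit 0x80080004002000200096d2f83))) 
(.lf (nat_lit 469826825) (dlOf (nat_lit 1) (nat_lit 0x80040010001800c602))))) (.nd (nat_lit 10) 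
(.lf (nat_lit 5234551561) (dlOf (nat_lit 1) (nat_lit 0x20028055b01))) (.nd (nat_lit 23) 
(.lf (nat_lit 2415978249) (dlOf (nat_lit 1) (nat_lit 0x400400020008003b82))) 
(.lf (nat_lit 8447753) (dlOf (nat_lit 1) (nat_lit 0x50008008400200020008513b83))))))) 
(.nd (nat_lit 7) (.nd (nat_lit 19) (.nd (nat_lit 9) (.nd (nat_lit 20) 
(.lf (nat_lit 58697) (dlOf (nat_lit 1) (nat_lit 0x80018003301))) 
(.lf (nat_lit 57730377) (dlOf (nat_lit 1) (nat_lit 0xc00400060009793302)))) 
(.lf (nat_lit 402713417) (dlOf (nat_lit 1) (nat_lit 0x60018005c01)))) (.nd (nat_lit 8) 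
(.nd (nat_lit 22) (.lf (nat_lit 134799433) (dlOf (nat_lit 1) (nat_lit 0x6c004004c00080c1482))) 
(.lf (nat_lit 55107657) (dlOf (nat_lit 1) (nat_lit 0x4004000200096b1482)))) 
(.lf (nat_lit 46721865) (dlOf (nat_lit 1) (nat_lit 0x800400020009385c02))))) (.nd (nat_lit 21) 
(.nd (nat_lit 10) (.lf (nat_lit 6576726217) (dlOf (nat_lit 1) (nat_lit 0xe00180b0481))) 
(.nd (nat_lit 19) (.lf (nat_lit 4899005641) (dlOf (nat_lit 1) (nat_lit 0x400400020018052d82))) 
(.lf (nat_lit 8971465) (dlOf (nat_lit 1) (nat_lit 0x20028512d81))))) (.nd (nat_lit 8) 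
(.nd (nat_lit 23) (.lf (nat_lit 1009312969) (dlOf (nat_lit 1) (nat_lit 0x200190e2d81))) 
(.lf (nat_lit 61400265) (dlOf (nat_lit 1) (nat_lit 0x8008002c00200020009922d83)))) 
(.lf (nat_lit 472443337) (dlOf (nat_lit 1) (nat_lit 0x20018984e81))))))) (.nd (nat_lit 7) 
(.nd (nat_lit 19) (.nd (nat_lit 11) (.nd (nat_lit 20) 
(.lf (nat_lit 27320361) (dlOf (nat_lit 1) (nat_lit 0x400400080018cd0782))) (.nd (nat_lit 21) 
(.lf (nat_lit 470868009) (dlOf (nat_lit 3) (nat_lit 0x2321310002a01015e0988001080801a0008002000200da00081c0683))) 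
(.lf (nat_lit 472965161) (dlOf (nat_lit 1) (nat_lit 0x440008b70201))))) (.nd (nat_lit 9) 
(.lf (nat_lit 134278185) (dlOf (nat_lit 1) (nat_lit 0x740018006081))) 
(.lf (nat_lit 5301660201) (dlOf (nat_lit 1) (nat_lit 0xc0028005181))))) (.nd (nat_lit 21) 
(.nd (nat_lit 6) (.nd (nat_lit 23) 
(.lf (nat_lit 134799401) (dlOf (nat_lit 1) (nat_lit 0x200080c0c01))) 
(.lf (nat_lit 42524713) (dlOf (nat_lit 1) (nat_lit 0x1000800bc00200240009260203)))) 
(.lf (nat_lit 8971881) (dlOf (nat_lit 1) (nat_lit 0x580008513901)))) (.nd (nat_lit 20) 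
(.lf (nat_lit 11067433) (dlOf (nat_lit 3) (nat_lit 0xb8000000ac04005c396000130200040028660681))) 
(.lf (nat_lit 24698921) (dlOf (nat_lit 8) (nat_lit 0xad77a0070b450000d82000d5ea002baef400a968a00019060018bd400595de80022d14000300c00057a800a2bbd00205a280002c1800c2f5000f977a002cb45000050300025ea0021aef4000120800397a800b2bbd00025a28000201800c000805dc00200120008bb0a83)))))) 
(.nd (nat_lit 11) (.nd (nat_lit 9) (.nd (nat_lit 10) 
(.lf (nat_lit 23650537) (dlOf (nat_lit 3) (nat_lit 0x106b41808357f0004420801aad0601275fc00102028b80480))) 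
(.nd (nat_lit 27) (.lf (nat_lit 4899005673) (dlOf (nat_lit 1) (nat_lit 0x400400020018052e82))) 
(.lf (nat_lit 4496352489) (dlOf (nat_lit 1) (nat_lit 0x20028052e81))))) (.nd (nat_lit 6) 
(.lf (nat_lit 19985065) (dlOf (nat_lit 1) (nat_lit 0x4002000200089d8c82))) 
(.lf (nat_lit 49865705) (dlOf (nat_lit 1) (nat_lit 0x1a00294c2881))))) (.nd (nat_lit 6) 
(.nd (nat_lit 8) (.lf (nat_lit 134278313) (dlOf (nat_lit 1) (nat_lit 0x400200020008006282))) 
(.nd (nat_lit 12) (.lf (nat_lit 57207209) (dlOf (nat_lit 1) (nat_lit 0xc0029794e81))) 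
(.lf (nat_lit 19986857) (dlOf (nat_lit 1) (nat_lit 0x80080024002000200089daf83))))) 
(.nd (nat_lit 8) 
(.lf (nat_lit 2754669801) (dlOf (nat_lit 2) (nat_lit 0x18804e00c401c000168280f6500))) 
(.lf (nat_lit 2147543529) (dlOf (nat_lit 1) (nat_lit 0x400400020008094e82)))))))) (.nd (nat_lit 7) 
(.nd (nat_lit 8) (.nd (nat_lit 5) (.nd (nat_lit 19) (.nd (nat_lit 11) (.nd (nat_lit 20) 
(.lf (nat_lit 1811996681) (dlOf (nat_lit 1) (nat_lit 0x2400280b0001))) 
(.lf (nat_lit 1343283209) (dlOf (nat_lit 2) (nat_lit 0x1604a800d020800ca00800b8004000a00181e0482)))) 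
(.lf (nat_lit 3492866057) (dlOf (nat_lit 3) (nat_lit 0x90074000a8040044040002201f000270280f4700)))) 
(.nd (nat_lit 26) (.lf (nat_lit 1611194377) (dlOf (nat_lit 1) (nat_lit 0xc0028110001))) 
(.lf (nat_lit 4228440073) (dlOf (nat_lit 2) (nat_lit 0x809e0000002000a00280c0001))))) 
(.nd (nat_lit 20) (.nd (nat_lit 21) (.nd (nat_lit 26) 
(.lf (nat_lit 1879629865) (dlOf (nat_lit 1) (nat_lit 0x60028260781))) 
(.lf (nat_lit 3557351465) (dlOf (nat_lit 1) (nat_lit 0x800281c0681)))) 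
(.lf (nat_lit 3492339753) (dlOf (nat_lit 2) (nat_lit 0x2008b000120180c0c00)))) (.nd (nat_lit 6) 
(.nd (nat_lit 21) 
(.lf (nat_lit 1343283241) (dlOf (nat_lit 11) (nat_lit 0xc0890002d0100160d6800158080218810005c35a001a1a8001c0578008825400441040018072000b01e00028000000a824000c35a0004e02002a1ad000258100040d68001280800c06b40009204002440800241ad000c0d4000d82bc002c12a00140820004039000300f0001c000000451200201ad0001e010006000000090080068008008c002006000081e0683))) 
(.lf (nat_lit 1345380393) (dlOf (nat_lit 1) (nat_lit 0x400200020008b80882)))) 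
(.lf (nat_lit 1345904745) (dlOf (nat_lit 1) (nat_lit 0x100028e11e81)))))) (.nd (nat_lit 26) 
(.nd (nat_lit 6) (.nd (nat_lit 9) 
(.lf (nat_lit 1208017161) (dlOf (nat_lit 1) (nat_lit 0x8008000400200020008090a83))) 
(.nd (nat_lit 28) (.lf (nat_lit 1073800969) (dlOf (nat_lit 1) (nat_lit 0x400400020008003b82))) 
(.lf (nat_lit 4026590985) (dlOf (nat_lit 1) (nat_lit 0x400400020008003b82))))) (.nd (nat_lit 9) 
(.lf (nat_lit 3493912905) (dlOf (nat_lit 2) (nat_lit 0x28200000238181b0600))) 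
(.lf (nat_lit 5368769353) (dlOf (nat_lit 2) (nat_lit 0x2008000594080010008001000200020008005c03))))) 
(.nd (nat_lit 5) (.nd (nat_lit 6) 
(.lf (nat_lit 1275127049) (dlOf (nat_lit 1) (nat_lit 0x400400020008092f82))) 
(.lf (nat_lit 1409346889) (dlOf (nat_lit 3) (nat_lit 0x1605f0000701001402f800034080140008002400200040008006983)))) 
(.nd (nat_lit 28) (.lf (nat_lit 1275127081) (dlOf (nat_lit 1) (nat_lit 0x400400020008093182))) 
(.lf (nat_lit 2080433449) (dlOf (nat_lit 1) (nat_lit 0x400400020008093182))))))) (.nd (nat_lit 8) 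
(.nd (nat_lit 5) (.nd (nat_lit 6) (.nd (nat_lit 9) 
(.lf (nat_lit 3221285001) (dlOf (nat_lit 2) (nat_lit 0x40370001e818004800))) 
(.lf (nat_lit 4095796873) (dlOf (nat_lit 1) (nat_lit 0x4002000200080e3a02)))) (.nd (nat_lit 10) 
(.lf (nat_lit 5972746441) (dlOf (nat_lit 1) (nat_lit 0xe00180b0481))) (.nd (nat_lit 26) 
(.lf (nat_lit 6308291785) (dlOf (nat_lit 1) (nat_lit 0x8008000400200020008052d83))) 
(.lf (nat_lit 5570094281) (dlOf (nat_lit 1) (nat_lit 0x400400020008052d82)))))) (.nd (nat_lit 6) 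
(.nd (nat_lit 19) 
(.lf (nat_lit 2080432297) (dlOf (nat_lit 1) (nat_lit 0x28008005800200020008090603))) 
(.lf (nat_lit 1409867945) (dlOf (nat_lit 1) (nat_lit 0x180028090281)))) (.nd (nat_lit 10) 
(.lf (nat_lit 1342238953) (dlOf (nat_lit 1) (nat_lit 0xc0028008081))) 
(.lf (nat_lit 6308291817) (dlOf (nat_lit 1) (nat_lit 0x8008000400200020008052e83)))))) 
(.nd (nat_lit 11) (.nd (nat_lit 9) (.nd (nat_lit 6) 
(.lf (nat_lit 1140909449) (dlOf (nat_lit 1) (nat_lit 0x8004001c0018003602))) 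
(.lf (nat_lit 2080432585) (dlOf (nat_lit 2) (nat_lit 0x601480001c080008008000c00200020008091103)))) 
(.nd (nat_lit 5) (.lf (nat_lit 1275126729) (dlOf (nat_lit 1) (nat_lit 0x400400020008092882))) 
(.lf (nat_lit 5773517801) (dlOf (nat_lit 1) (nat_lit 0xc00180e2881))))) (.nd (nat_lit 5) 
(.nd (nat_lit 19) (.lf (nat_lit 1610672585) (dlOf (nat_lit 1) (nat_lit 0x20018004e81))) 
(.lf (nat_lit 1346955721) (dlOf (nat_lit 1) (nat_lit 0x2800400060009104e82)))) (.nd (nat_lit 26) 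
(.lf (nat_lit 1208019433) (dlOf (nat_lit 1) (nat_lit 0x400400020008094e82))) 
(.lf (nat_lit 4093700585) (dlOf (nat_lit 1) (nat_lit 0x400400020008004e82)))))))))) 
(.nd (nat_lit 28) (.nd (nat_lit 5) (.nd (nat_lit 6) (.nd (nat_lit 21) (.nd (nat_lit 26) 
(.nd (nat_lit 15) (.nd (nat_lit 19) (.nd (nat_lit 20) (.nd (nat_lit 27) 
(.lf (nat_lit 537157641) (dlOf (nat_lit 7) (nat_lit 0x102e00050164003420800340be00280590008018800a00c0000404e0028024001c010800a0078001382000080be004e05c002f02c8018809000c0042005201e0004686000301200028084001180800100480002e02000805900010120000001002d8008001800200900008030483))) 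
(.lf (nat_lit 671375369) (dlOf (nat_lit 1) (nat_lit 0x400400020018170482)))) 
(.lf (nat_lit 30695433) (dlOf (nat_lit 1) (nat_lit 0x40018e40481)))) (.nd (nat_lit 23) 
(.lf (nat_lit 17588233) (dlOf (nat_lit 1) (nat_lit 0x200080008002000600088e0003))) 
(.lf (nat_lit 42754057) (dlOf (nat_lit 1) (nat_lit 0x14000200380009280002))))) (.nd (nat_lit 19) 
(.nd (nat_lit 20) (.lf (nat_lit 3355762697) (dlOf (nat_lit 1) (nat_lit 0x5000280f0001))) 
(.lf (nat_lit 9756681) (dlOf (nat_lit 1) (nat_lit 0x20018580001)))) 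
(.lf (nat_lit 21815305) (dlOf (nat_lit 1) (nat_lit 0x20028a70481))))) (.nd (nat_lit 30) 
(.nd (nat_lit 15) (.nd (nat_lit 10) (.nd (nat_lit 29) 
(.lf (nat_lit 4362362889) (dlOf (nat_lit 10) (nat_lit 0x1c02b000f815001040560002028000101380027028006015800280a800100490019015800900a0005404e000e0220004d87000802b0006015000940560010028000201380026828005815800140a8002a02b0004b03000902e800d016000640ac00320540033015800180a40011a1800400ac000a054001f01580023018028017400340ac0016054001e015800580a4002c05000020220004587000802b001000ac001140800140ac000e054001f0158002141800b000800ec00200220008030583))) 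
(.lf (nat_lit 604266505) (dlOf (nat_lit 1) (nat_lit 0xa0008110281)))) 
(.lf (nat_lit 2752275465) (dlOf (nat_lit 1) (nat_lit 0x360008000400200640008002883)))) 
(.nd (nat_lit 20) (.lf (nat_lit 4362395657) (dlOf (nat_lit 1) (nat_lit 0x1000400020018050482))) 
(.lf (nat_lit 2752831497) (dlOf (nat_lit 1) (nat_lit 0x400400020008050002))))) (.nd (nat_lit 7) 
(.nd (nat_lit 27) (.nd (nat_lit 31) 
(.lf (nat_lit 1678008329) (dlOf (nat_lit 1) (nat_lit 0x8008002400200080008130483))) 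
(.lf (nat_lit 3825491977) (dlOf (nat_lit 11) (nat_lit 0x1600b0003e81000a0058001f008004002c000f60400200160007a02001e00b0003a8100070058001d008006802c000e60400200160007202001000b0001801001d0058000000801e0008004000200040008170483)))) 
(.lf (nat_lit 1812226057) (dlOf (nat_lit 1) (nat_lit 0xf8008000800200120008180483)))) 
(.lf (nat_lit 1141138569) (dlOf (nat_lit 1) (nat_lit 0x100018122b01)))))) (.nd (nat_lit 15) 
(.nd (nat_lit 8) (.nd (nat_lit 10) (.nd (nat_lit 7) (.nd (nat_lit 19) 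
(.lf (nat_lit 24403977) (dlOf (nat_lit 1) (nat_lit 0x20008b90401))) 
(.lf (nat_lit 29122569) (dlOf (nat_lit 2) (nat_lit 0x18aa70009027000580100008008001000200020008dc0583)))) 
(.lf (nat_lit 23879817) (dlOf (nat_lit 1) (nat_lit 0x20018b80101)))) (.nd (nat_lit 9) 
(.lf (nat_lit 20212745) (dlOf (nat_lit 2) (nat_lit 0x75f28000000800f80080034002001400089d5f83))) 
(.lf (nat_lit 8152585) (dlOf (nat_lit 1) (nat_lit 0x280018513681))))) (.nd (nat_lit 20) 
(.nd (nat_lit 12) (.lf (nat_lit 36463881) (dlOf (nat_lit 1) (nat_lit 0x60019072f81))) 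
(.lf (nat_lit 19690761) (dlOf (nat_lit 1) (nat_lit 0x600080030002002400089d9603)))) 
(.nd (nat_lit 7) (.lf (nat_lit 20213001) (dlOf (nat_lit 1) (nat_lit 0x400189d6681))) 
(.lf (nat_lit 8151433) (dlOf (nat_lit 1) (nat_lit 0x20018511001)))))) (.nd (nat_lit 7) 
(.nd (nat_lit 20) (.nd (nat_lit 8) (.nd (nat_lit 9) 
(.lf (nat_lit 27582473) (dlOf (nat_lit 1) (nat_lit 0x2800400040008d00282))) 
(.lf (nat_lit 57469449) (dlOf (nat_lit 1) (nat_lit 0x60029795001)))) 
(.lf (nat_lit 23388425) (dlOf (nat_lit 1) (nat_lit 0x8008000400200020008b80483)))) 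
(.nd (nat_lit 22) 
(.lf (nat_lit 62185481) (dlOf (nat_lit 2) (nat_lit 0x1a91801ef604000c002000e0009970002))) 
(.lf (nat_lit 24436745) (dlOf (nat_lit 1) (nat_lit 0x2200018ba0001))))) (.nd (nat_lit 22) 
(.nd (nat_lit 19) (.lf (nat_lit 3465353) (dlOf (nat_lit 1) (nat_lit 0x800200020008200102))) 
(.lf (nat_lit 12378249) (dlOf (nat_lit 1) (nat_lit 0x80080004002000200086c0103)))) (.nd (nat_lit 8) 
(.lf (nat_lit 23912585) (dlOf (nat_lit 1) (nat_lit 0x400200020008b80102))) 
(.lf (nat_lit 8184201) (dlOf (nat_lit 1) (nat_lit 0x400200020008511002)))))))) (.nd (nat_lit 9) 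
(.nd (nat_lit 8) (.nd (nat_lit 7) (.nd (nat_lit 15) 
(.lf (nat_lit 1335369) (dlOf (nat_lit 1) (nat_lit 0x10008000c002000200080b0883))) (.nd (nat_lit 22) 
(.lf (nat_lit 843849) (dlOf (nat_lit 3) (nat_lit 0x2000b8000e408008026c0006c04000400200060008020882))) 
(.lf (nat_lit 21815369) (dlOf (nat_lit 8) (nat_lit 0x71322c03698700001a0200b7c8b0008e1c0000660805ff22c0121870000190201aec8b00d561c00006208006322c0003002036591601a7c380002de80002596200026080026e1400011018a70880))))) 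
(.nd (nat_lit 15) (.lf (nat_lit 4481225) (dlOf (nat_lit 1) (nat_lit 0x1c00200100008290482))) 
(.lf (nat_lit 21291209) (dlOf (nat_lit 1) (nat_lit 0x8008008400200260008a31b83))))) 
(.nd (nat_lit 26) (.nd (nat_lit 10) (.nd (nat_lit 15) 
(.lf (nat_lit 5905867081) (dlOf (nat_lit 1) (nat_lit 0x80018154c01))) 
(.lf (nat_lit 135061833) (dlOf (nat_lit 2) (nat_lit 0xb02d8000880800580080004002001400081b0603)))) 
(.lf (nat_lit 50619721) (dlOf (nat_lit 2) (nat_lit 0x35bc8000a80800080080004002000400094c3303)))) 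
(.nd (nat_lit 31) (.nd (nat_lit 7) 
(.lf (nat_lit 202170697) (dlOf (nat_lit 2) (nat_lit 0xb02e0000880800580080004002001400081b0603))) 
(.lf (nat_lit 1141139913) (dlOf (nat_lit 1) (nat_lit 0x20018124e81)))) (.nd (nat_lit 22) 
(.lf (nat_lit 6509846857) (dlOf (nat_lit 1) (nat_lit 0x80018154c01))) 
(.lf (nat_lit 2755944777) (dlOf (nat_lit 2) (nat_lit 0x814000080040004002000200081b0602))))))) 
(.nd (nat_lit 20) (.nd (nat_lit 11) (.nd (nat_lit 8) 
(.lf (nat_lit 3959710281) (dlOf (nat_lit 4) (nat_lit 0x2401c001a000000118200170070000880800400000003c040088002003e0008128d02))) 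
(.lf (nat_lit 288585) (dlOf (nat_lit 1) (nat_lit 0x20028003e81)))) (.nd (nat_lit 7) 
(.nd (nat_lit 19) (.lf (nat_lit 4899236681) (dlOf (nat_lit 1) (nat_lit 0xc002000600080d5c02))) 
(.lf (nat_lit 46951241) (dlOf (nat_lit 1) (nat_lit 0x2000400020009385c02)))) 
(.lf (nat_lit 4496583625) (dlOf (nat_lit 1) (nat_lit 0x4002000800080e5d82))))) (.nd (nat_lit 15) 
(.nd (nat_lit 8) (.lf (nat_lit 2753323593) (dlOf (nat_lit 1) (nat_lit 0x4c0028091181))) 
(.lf (nat_lit 20212553) (dlOf (nat_lit 1) (nat_lit 0x4002000200089d5c02)))) (.nd (nat_lit 21) 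
(.lf (nat_lit 60091209) (dlOf (nat_lit 1) (nat_lit 0xa0029845c01))) 
(.lf (nat_lit 20245321) (dlOf (nat_lit 1) (nat_lit 0x4002000200089d5c02)))))))) (.nd (nat_lit 6) 
(.nd (nat_lit 15) (.nd (nat_lit 29) (.nd (nat_lit 20) (.nd (nat_lit 19) (.nd (nat_lit 7) 
(.lf (nat_lit 44326953) (dlOf (nat_lit 1) (nat_lit 0xa800092f0a01))) 
(.lf (nat_lit 1208246441) (dlOf (nat_lit 1) (nat_lit 0x2c004000200180a2c82)))) (.nd (nat_lit 23) 
(.lf (nat_lit 17588265) (dlOf (nat_lit 2) (nat_lit 0xeec401690040004004001200088e0002))) 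
(.lf (nat_lit 42754089) (dlOf (nat_lit 1) (nat_lit 0x400400040009280202))))) (.nd (nat_lit 21) 
(.nd (nat_lit 19) 
(.lf (nat_lit 30695465) (dlOf (nat_lit 10) (nat_lit 0x96e7e0022e02036f9ba0244c8e00e1e468004b1e6021f8810083ad68003ca9c00561e6001b09000027b48024bc30002d82c01af23a00b5882000a782004ec8e8026e208001f40801b723a00d78820007c02003ac8e8006e208001ee0801cf23a00c58820007a8201fcc8e0012e20405b28d20000106010791d0065c4100000010073800806dc002021a0008e40d83))) 
(.lf (nat_lit 22831145) (dlOf (nat_lit 1) (nat_lit 0x1180008b30601)))) (.nd (nat_lit 7) 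
(.lf (nat_lit 62152745) (dlOf (nat_lit 1) (nat_lit 0x5480080004002009a0009960283))) 
(.lf (nat_lit 20215465) (dlOf (nat_lit 1) (nat_lit 0x4002000200089da002)))))) (.nd (nat_lit 26) 
(.nd (nat_lit 27) (.nd (nat_lit 31) 
(.lf (nat_lit 537157673) (dlOf (nat_lit 4) (nat_lit 0x3017c000600400100be0002c02002205f00015818030b00))) 
(.lf (nat_lit 2684641321) (dlOf (nat_lit 4) (nat_lit 0x2801600032020068000000168100290000000b00801b80080070002004c0008100683)))) 
(.lf (nat_lit 4966342697) (dlOf (nat_lit 1) (nat_lit 0x200280b0381)))) (.nd (nat_lit 7) 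
(.nd (nat_lit 30) (.lf (nat_lit 5033451561) (dlOf (nat_lit 1) (nat_lit 0x200280b0381))) 
(.lf (nat_lit 1812226089) (dlOf (nat_lit 2) (nat_lit 0xa011000290080028008000c00200080008180603)))) 
(.lf (nat_lit 2752798889) (dlOf (nat_lit 1) (nat_lit 0x80028044c01)))))) (.nd (nat_lit 19) 
(.nd (nat_lit 7) (.nd (nat_lit 30) (.nd (nat_lit 9) 
(.lf (nat_lit 2282020905) (dlOf (nat_lit 3) (nat_lit 0x400740009c04001803a0004c0200020028100681))) 
(.lf (nat_lit 57991721) (dlOf (nat_lit 8) (nat_lit 0x85ed0003b0100052f68001d40800397b4000e2040020bda0007002000c5ed000310100072f68001840800617b400000040008004001600197a8902)))) 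
(.nd (nat_lit 29) 
(.lf (nat_lit 1208279081) (dlOf (nat_lit 4) (nat_lit 0xc40700184025006c004006f00000005e10026407000fc025004a004000400000005c10005c0520001102000200180b0381))) 
(.lf (nat_lit 1745149993) (dlOf (nat_lit 2) (nat_lit 0x5e038000148180b0380))))) (.nd (nat_lit 22) 
(.nd (nat_lit 27) (.lf (nat_lit 4899266729) (dlOf (nat_lit 1) (nat_lit 0x4004000200080e2c82))) 
(.lf (nat_lit 5570355369) (dlOf (nat_lit 1) (nat_lit 0xc00400020008101482)))) 
(.lf (nat_lit 21291177) (dlOf (nat_lit 1) (nat_lit 0x400400020008a31482))))) (.nd (nat_lit 20) 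
(.nd (nat_lit 25) (.nd (nat_lit 22) 
(.lf (nat_lit 9232425) (dlOf (nat_lit 1) (nat_lit 0x80008530381))) 
(.lf (nat_lit 13426729) (dlOf (nat_lit 1) (nat_lit 0x400200020008720d02)))) (.nd (nat_lit 24) 
(.lf (nat_lit 42786857) (dlOf (nat_lit 3) (nat_lit 0x96750000a408002b3a80004e04004400400040009280202))) 
(.lf (nat_lit 59564073) (dlOf (nat_lit 1) (nat_lit 0x1700080008002003a0009810883))))) 
(.nd (nat_lit 21) (.nd (nat_lit 22) 
(.lf (nat_lit 69001257) (dlOf (nat_lit 1) (nat_lit 0x400400020008860202))) 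
(.lf (nat_lit 22863913) (dlOf (nat_lit 1) (nat_lit 0x8e000804c0002017e0008b30603)))) 
(.lf (nat_lit 3989545) (dlOf (nat_lit 1) (nat_lit 0x8008000400200020008260c03))))))) 
(.nd (nat_lit 7) (.nd (nat_lit 24) (.nd (nat_lit 8) (.nd (nat_lit 9) (.nd (nat_lit 10) 
(.lf (nat_lit 2349097065) (dlOf (nat_lit 3) (nat_lit 0xd00780004c0800900380001c040034004002000180a1402))) 
(.lf (nat_lit 2818866281) (dlOf (nat_lit 4) (nat_lit 0x2c06c000250200140360001181000d01b00006008006000800600020004000812c083)))) 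
(.lf (nat_lit 1610901097) (dlOf (nat_lit 2) (nat_lit 0x140b4000470200020018093901)))) 
(.nd (nat_lit 12) (.lf (nat_lit 5905867113) (dlOf (nat_lit 1) (nat_lit 0x400400020018155202))) 
(.lf (nat_lit 8188265) (dlOf (nat_lit 1) (nat_lit 0x60028518381))))) (.nd (nat_lit 19) 
(.nd (nat_lit 22) 
(.lf (nat_lit 62152809) (dlOf (nat_lit 2) (nat_lit 0x3296c0000004010800400400009960782))) 
(.lf (nat_lit 24404073) (dlOf (nat_lit 1) (nat_lit 0xde0008b91401)))) (.nd (nat_lit 15) 
(.lf (nat_lit 51142761) (dlOf (nat_lit 1) (nat_lit 0x400400020009501e82))) 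
(.lf (nat_lit 59564137) (dlOf (nat_lit 1) (nat_lit 0x90008000400200160009811e83)))))) 
(.nd (nat_lit 8) (.nd (nat_lit 20) (.nd (nat_lit 10) 
(.lf (nat_lit 2885970153) (dlOf (nat_lit 2) (nat_lit 0x200000005818144b00))) 
(.lf (nat_lit 537685225) (dlOf (nat_lit 1) (nat_lit 0x80080004002000200080f6503)))) 
(.nd (nat_lit 15) (.lf (nat_lit 2754899177) (dlOf (nat_lit 1) (nat_lit 0x400080f6501))) 
(.lf (nat_lit 2754931945) (dlOf (nat_lit 8) (nat_lit 0x11a41640003602042c0b20001a8101d40590000d00802202c80006604011019001800b10295042800581e400a40080002e0a018e0c8002a05c003e02c4126c10a0062084003f03c803480100005a1c05e41640002b0205a000180f6501))))) 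
(.nd (nat_lit 9) (.nd (nat_lit 11) 
(.lf (nat_lit 6509847017) (dlOf (nat_lit 7) (nat_lit 0x2a026000600b800174100120098005002e0005c04003802600028810021013000c005c000a008000804c0016017000260200250130009005c0008a080040004003e0018157302))) 
(.lf (nat_lit 35416553) (dlOf (nat_lit 1) (nat_lit 0x400400020009014e82)))) (.nd (nat_lit 10) 
(.lf (nat_lit 2818866153) (dlOf (nat_lit 1) (nat_lit 0x2002812bf01))) 
(.lf (nat_lit 67923945) (dlOf (nat_lit 1) (nat_lit 0x4002002a0008337a82))))))))) (.nd (nat_lit 15) 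
(.nd (nat_lit 26) (.nd (nat_lit 30) (.nd (nat_lit 5) (.nd (nat_lit 27) (.nd (nat_lit 29) 
(.lf (nat_lit 4563689481) (dlOf (nat_lit 2) (nat_lit 0x3700bc030e004000c004002400080c0002))) 
(.lf (nat_lit 805593097) (dlOf (nat_lit 1) (nat_lit 0x8008002400200080008130483)))) 
(.nd (nat_lit 29) 
(.lf (nat_lit 4697907209) (dlOf (nat_lit 2) (nat_lit 0x3700bc037ac04000c004002400080c0002))) 
(.nd (nat_lit 31) 
(.lf (nat_lit 939810825) (dlOf (nat_lit 1) (nat_lit 0xf8008000800200120008180483))) 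
(.lf (nat_lit 3087294473) (dlOf (nat_lit 11) (nat_lit 0x1600b0003e81000a0058001f008004002c000f60400200160007a02001e00b0003a8100070058001d008006802c000e60400200160007202001000b0001581001d0058000000801e0008004000200040008170483)))))) 
(.nd (nat_lit 29) (.nd (nat_lit 7) 
(.lf (nat_lit 402939945) (dlOf (nat_lit 5) (nat_lit 0x807c00c803a008201a003700b003e80340038000000320c000201f004100d000200580005e0c000c0340002d02002201a000700b0000b01000e00080094002000a00080b0383))) 
(.lf (nat_lit 4697907369) (dlOf (nat_lit 2) (nat_lit 0x400660000902005000280c1401)))) 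
(.nd (nat_lit 6) 
(.lf (nat_lit 939810857) (dlOf (nat_lit 2) (nat_lit 0xa0110002b4080028008000c00200080008180603))) 
(.lf (nat_lit 5100563049) (dlOf (nat_lit 2) (nat_lit 0x807400080000003b04000200180d5381)))))) 
(.nd (nat_lit 20) (.nd (nat_lit 6) (.nd (nat_lit 5) (.nd (nat_lit 7) (.nd (nat_lit 27) 
(.lf (nat_lit 1342464009) (dlOf (nat_lit 11) (nat_lit 0xb8744000c39a001a1c5000b00300030e280057c080098714002ba04005838a0015802002e1d100270e2800558100058744006838a000d904000e1c50006701000e0e8800b07140019a08003c3a2000cc0200081d100010e78002701001a800804bc00200060008030483))) 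
(.lf (nat_lit 1476681737) (dlOf (nat_lit 1) (nat_lit 0xf000400a80008110282)))) 
(.lf (nat_lit 3489950089) (dlOf (nat_lit 1) (nat_lit 0x400200020008004e82)))) 
(.lf (nat_lit 1342988329) (dlOf (nat_lit 5) (nat_lit 0x2a82a8011c151008909b804403d002341280110081006300180014438054855002342a20110137008807a0044025000bc1220110081008800180013c40037055001a02a20088137001904a000302440110102000370c013615400950a8800104dc010c12800b408100020018000d83000e80080154002000c0008120c03)))) 
(.nd (nat_lit 7) 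
(.lf (nat_lit 1342464073) (dlOf (nat_lit 1) (nat_lit 0x68008008000200820008030f03))) 
(.nd (nat_lit 19) (.lf (nat_lit 2013555145) (dlOf (nat_lit 1) (nat_lit 0x400400020008124e82))) 
(.lf (nat_lit 1345087945) (dlOf (nat_lit 1) (nat_lit 0x30002001e00089e4e82)))))) (.nd (nat_lit 5) 
(.nd (nat_lit 6) (.nd (nat_lit 8) 
(.lf (nat_lit 1343512585) (dlOf (nat_lit 1) (nat_lit 0x40008001c00200120008280003))) 
(.lf (nat_lit 3490996489) (dlOf (nat_lit 1) (nat_lit 0x400400020018047302)))) 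
(.lf (nat_lit 3491521097) (dlOf (nat_lit 1) (nat_lit 0x4c0028091181)))) (.nd (nat_lit 7) 
(.lf (nat_lit 3491520553) (dlOf (nat_lit 2) (nat_lit 0x1c11600df20200400018090001))) 
(.nd (nat_lit 8) (.lf (nat_lit 3490996393) (dlOf (nat_lit 1) (nat_lit 0x80028044c01))) 
(.lf (nat_lit 3491520937) (dlOf (nat_lit 1) (nat_lit 0x20008090781)))))))) (.nd (nat_lit 30) 
(.nd (nat_lit 6) (.nd (nat_lit 5) (.nd (nat_lit 20) (.nd (nat_lit 27) 
(.lf (nat_lit 3020185609) (dlOf (nat_lit 1) (nat_lit 0x20018150001))) 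
(.lf (nat_lit 470048777) (dlOf (nat_lit 11) (nat_lit 0xb8744000c39a001a1c5000b00300030e280057c080098714002ba04005838a0015802002e1d100270e2800558100058744006838a000d904000e1c50006701000e0e8800b07140019a08003c3a2000cc0200081d100010e78002701001a800804bc00200060008030483)))) 
(.lf (nat_lit 471097353) (dlOf (nat_lit 1) (nat_lit 0x180080028002000c0008270003)))) 
(.nd (nat_lit 7) 
(.lf (nat_lit 335831081) (dlOf (nat_lit 5) (nat_lit 0x807c00c803a0082019003700b003e803400380000002f0c000201f004100c80020058000580c000c0320002a020022019000700b0000a41000e00080094002000a00080b0383))) 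
(.lf (nat_lit 473719977) (dlOf (nat_lit 2) (nat_lit 0x806c800000080010008000800200060008fa2c03))))) 
(.nd (nat_lit 7) (.nd (nat_lit 5) 
(.lf (nat_lit 470048841) (dlOf (nat_lit 1) (nat_lit 0x68008008000200820008030f03))) 
(.lf (nat_lit 3154403689) (dlOf (nat_lit 3) (nat_lit 0x101680006c0800100000003404001000200040008160982)))) 
(.nd (nat_lit 8) (.lf (nat_lit 474244297) (dlOf (nat_lit 1) (nat_lit 0x5c002004800090e2d82))) 
(.nd (nat_lit 21) 
(.lf (nat_lit 5301889481) (dlOf (nat_lit 2) (nat_lit 0x48044006e0040064004000a00080e4e82))) 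
(.lf (nat_lit 472148425) (dlOf (nat_lit 1) (nat_lit 0x400200020008864e82))))))) (.nd (nat_lit 19) 
(.nd (nat_lit 5) (.nd (nat_lit 31) (.nd (nat_lit 27) 
(.lf (nat_lit 1409572873) (dlOf (nat_lit 7) (nat_lit 0x102e00050164003520800340be00280590008018800a00c0000404e0028024001c010800a0078001382000080be004e05c002f02c8018809000c0042005201e0004686000301200028084001180800100480003402000805900010120000001002d8008001800200900008030483))) 
(.lf (nat_lit 1543790601) (dlOf (nat_lit 1) (nat_lit 0x400400020018170482)))) (.nd (nat_lit 29) 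
(.lf (nat_lit 3691274249) (dlOf (nat_lit 1) (nat_lit 0xa0008110001))) 
(.lf (nat_lit 4228145161) (dlOf (nat_lit 10) (nat_lit 0x1c027800f8134000405c008202a000101380027028006013c002809a00100420012017000c80a8005404e000e0220004d87000802780060134002005c004a02a000201380026828005813c001409a002a02a0004b03000902b000d0144006409e003204d0033015000180a00011a18004009e000a04d001f015000230180280158003409e001604d000b017000f00a8002c050000202200045870008027801000a80011408001409e000e04d001f0150002141800b000800ec00200220008030583))))) 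
(.nd (nat_lit 27) 
(.lf (nat_lit 1409572905) (dlOf (nat_lit 4) (nat_lit 0x3017c000600400100be0002c02002205f00015818030b00))) 
(.lf (nat_lit 2080661545) (dlOf (nat_lit 1) (nat_lit 0x1600080a0a01))))) (.nd (nat_lit 5) 
(.nd (nat_lit 6) (.nd (nat_lit 7) 
(.lf (nat_lit 3557580809) (dlOf (nat_lit 2) (nat_lit 0x16010000000080048008004000200220008270003))) 
(.lf (nat_lit 1410099337) (dlOf (nat_lit 1) (nat_lit 0x27c00280f4801)))) 
(.lf (nat_lit 6376153417) (dlOf (nat_lit 1) (nat_lit 0x20018090c81)))) (.nd (nat_lit 7) 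
(.lf (nat_lit 4094454633) (dlOf (nat_lit 1) (nat_lit 0x80080070002002a0008055c03))) 
(.lf (nat_lit 4094454249) (dlOf (nat_lit 1) (nat_lit 0x400400020008054e82)))))))) (.nd (nat_lit 26) 
(.nd (nat_lit 5) (.nd (nat_lit 6) (.nd (nat_lit 19) (.nd (nat_lit 29) (.nd (nat_lit 20) 
(.nd (nat_lit 27) (.nd (nat_lit 30) 
(.lf (nat_lit 268754953) (dlOf (nat_lit 2) (nat_lit 0x50015002480a400ac04e01d750600020028120001))) 
(.lf (nat_lit 1342496777) (dlOf (nat_lit 1) (nat_lit 0x8004000e0018040482)))) 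
(.lf (nat_lit 1476714505) (dlOf (nat_lit 1) (nat_lit 0xc004000a0008150002)))) 
(.lf (nat_lit 1343545353) (dlOf (nat_lit 1) (nat_lit 0xd8008000400200340008290003)))) 
(.nd (nat_lit 30) 
(.lf (nat_lit 2953109513) (dlOf (nat_lit 2) (nat_lit 0xf009802c34080058008000400200160008130283))) 
(.lf (nat_lit 1879367689) (dlOf (nat_lit 3) (nat_lit 0x210f00aef81000c02780000008008800800ac002002200080f0003))))) 
(.nd (nat_lit 20) 
(.lf (nat_lit 1343021065) (dlOf (nat_lit 15) (nat_lit 0x6b123803608f0013438a00881c1000a68400011238005280801c091c002447800061c5000a2830060123802c88f0012438a00861c1000a184000a123800508080048550002760400102a80013a0200121540009c8100040aa00049c080008550002480400102a8000dd0200d4247006611e0024071400a438200061540006c8500180aa00036008032091c0178478008a1c500280e0800334200688008011000200a20008130483))) 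
(.lf (nat_lit 5773254665) (dlOf (nat_lit 1) (nat_lit 0x4004000200080c0002))))) (.nd (nat_lit 8) 
(.nd (nat_lit 19) 
(.lf (nat_lit 268755017) (dlOf (nat_lit 3) (nat_lit 0x4602a0012014800780a00007e0c0030050000340200020028120501))) 
(.lf (nat_lit 1343021129) (dlOf (nat_lit 1) (nat_lit 0x2000800bc00201180008130c83)))) 
(.lf (nat_lit 3489983817) (dlOf (nat_lit 6) (nat_lit 0x48112000110200180890000801001204480003c080018230000c1160000e04002008c0010045800034100170008003c00200200008006983))))) 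
(.nd (nat_lit 6) (.nd (nat_lit 10) (.nd (nat_lit 30) (.nd (nat_lit 27) 
(.lf (nat_lit 4563722281) (dlOf (nat_lit 1) (nat_lit 0x200280d0281))) 
(.lf (nat_lit 4697940009) (dlOf (nat_lit 1) (nat_lit 0x200280d0281)))) (.nd (nat_lit 19) 
(.lf (nat_lit 1879367721) (dlOf (nat_lit 8) (nat_lit 0x1d02c00140154000360801340ae008e054000f02780220138000321000600ae0002054002402700006018022815c01080a80024051003902700002c20002815c00200a80020051003402700002820006815c00580a8001e051004302700002420020015c00540a8001605100080270000202004500080120002000a00080f0a83))) 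
(.lf (nat_lit 1346166825) (dlOf (nat_lit 4) (nat_lit 0x67102803606a401802d000bc1450052067803902c801d00e600b201c00014880028102800b81cc0005008013840a00ba1a900390b400238514011c19e00ae0b2006c039802100700004e200038002000a0008e60202))))) 
(.nd (nat_lit 8) (.lf (nat_lit 1345643561) (dlOf (nat_lit 1) (nat_lit 0x400400020008dd2882))) 
(.lf (nat_lit 3624201513) (dlOf (nat_lit 1) (nat_lit 0x400400020008146802))))) (.nd (nat_lit 7) 
(.nd (nat_lit 11) 
(.lf (nat_lit 4026851433) (dlOf (nat_lit 3) (nat_lit 0x4a0000000981001001a8000040801900080008002002000080a1403))) 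
(.lf (nat_lit 3493128297) (dlOf (nat_lit 1) (nat_lit 0x200180f4701)))) 
(.lf (nat_lit 5772207337) (dlOf (nat_lit 1) (nat_lit 0x400400020008092e82)))))) (.nd (nat_lit 29) 
(.nd (nat_lit 19) (.nd (nat_lit 27) (.nd (nat_lit 5) (.nd (nat_lit 7) 
(.lf (nat_lit 2483347529) (dlOf (nat_lit 3) (nat_lit 0x400040018001c000100400c0010005800700003410014800801d0002005e00080c1483))) 
(.lf (nat_lit 335864009) (dlOf (nat_lit 1) (nat_lit 0x280080020002000800080c1b83)))) 
(.lf (nat_lit 335863977) (dlOf (nat_lit 1) (nat_lit 0x4004000200080c1482)))) (.nd (nat_lit 22) 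
(.nd (nat_lit 30) (.lf (nat_lit 470081545) (dlOf (nat_lit 1) (nat_lit 0x8004000e0018040482))) 
(.lf (nat_lit 3691307017) (dlOf (nat_lit 2) (nat_lit 0xf00a0015e8080058008000400200160008130283)))) 
(.lf (nat_lit 474275849) (dlOf (nat_lit 1) (nat_lit 0x8008000400200020009100003))))) 
(.nd (nat_lit 6) (.nd (nat_lit 7) (.nd (nat_lit 27) 
(.lf (nat_lit 3557613577) (dlOf (nat_lit 1) (nat_lit 0x40008002000200060008270003))) 
(.lf (nat_lit 470605833) (dlOf (nat_lit 15) (nat_lit 0x6b123803608f0013438a00881c1000a68400011238005280801c091c002447800061c5000a2830060123802c88f0012438a00861c1000a184000a123800508080048550002760400102a80013a0200121540009c8100040aa000498080008550002480400102a8000dc0200d4247006611e0024071400a438200061540006c8500180aa00036008032091c0178478008a1c500280e0800334200688008011000200a20008130483)))) 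
(.lf (nat_lit 471654537) (dlOf (nat_lit 1) (nat_lit 0x18008000c00200160008370483)))) 
(.nd (nat_lit 5) 
(.lf (nat_lit 470605897) (dlOf (nat_lit 1) (nat_lit 0x2000800bc00201180008130c83))) 
(.nd (nat_lit 7) (.lf (nat_lit 1410132073) (dlOf (nat_lit 1) (nat_lit 0x200180f4701))) 
(.lf (nat_lit 471654633) (dlOf (nat_lit 1) (nat_lit 0x20028370601))))))) (.nd (nat_lit 5) 
(.nd (nat_lit 6) (.nd (nat_lit 30) (.nd (nat_lit 21) 
(.lf (nat_lit 1006952457) (dlOf (nat_lit 3) (nat_lit 0x211700b9e81000c02780000008008800800ac002002200080f0003))) 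
(.lf (nat_lit 1009049609) (dlOf (nat_lit 1) (nat_lit 0x2920009020001)))) (.nd (nat_lit 19) 
(.lf (nat_lit 4228177929) (dlOf (nat_lit 1) (nat_lit 0x1000400020018050482))) 
(.lf (nat_lit 6377234441) (dlOf (nat_lit 1) (nat_lit 0x4004000200080c0002))))) (.nd (nat_lit 7) 
(.lf (nat_lit 4093961545) (dlOf (nat_lit 1) (nat_lit 0x20008000800200060008003303))) 
(.lf (nat_lit 6377234633) (dlOf (nat_lit 1) (nat_lit 0xc004001c00080c1b82))))) (.nd (nat_lit 7) 
(.nd (nat_lit 27) (.lf (nat_lit 872734761) (dlOf (nat_lit 2) (nat_lit 0x5e038000160180b0380))) 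
(.nd (nat_lit 30) 
(.lf (nat_lit 1006952489) (dlOf (nat_lit 8) (nat_lit 0x1d02c00140154000360801340ae008e054000f02780220138000321000600ae0002054002402700006018022815c01080a80024051003902700002c20002815c00200a80020051003402700002820006815c00580a8001e051004302700002420020015c00540a8001605100080270000202004500080120002000a00080f0a83))) 
(.lf (nat_lit 2080694313) (dlOf (nat_lit 4) (nat_lit 0xc40700184025006c004006f00000006410026407000fc025004a004000400000006210005c0520001102000200180b0381))))) 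
(.nd (nat_lit 8) 
(.lf (nat_lit 6377234601) (dlOf (nat_lit 1) (nat_lit 0x2500080004002002a00080c1483))) 
(.lf (nat_lit 1946476969) (dlOf (nat_lit 1) (nat_lit 0x20028090781))))))))))) (.nd (nat_lit 15) 
(.nd (nat_lit 5) (.nd (nat_lit 6) (.nd (nat_lit 18) (.nd (nat_lit 28) (.nd (nat_lit 7) 
(.nd (nat_lit 29) (.nd (nat_lit 19) (.nd (nat_lit 8) (.nd (nat_lit 10) 
(.lf (nat_lit 25255945) (dlOf (nat_lit 2) (nat_lit 0x1aad00019a04000400200020008bf0482))) 
(.lf (nat_lit 4362167305) (dlOf (nat_lit 1) (nat_lit 0x860028002881)))) 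
(.lf (nat_lit 20019977) (dlOf (nat_lit 1) (nat_lit 0x7280080064002011a00089db983)))) 
(.nd (nat_lit 20) (.lf (nat_lit 13197321) (dlOf (nat_lit 1) (nat_lit 0x20028700681))) 
(.lf (nat_lit 1662985) (dlOf (nat_lit 1) (nat_lit 0x400400020008110482))))) (.nd (nat_lit 10) 
(.nd (nat_lit 20) 
(.lf (nat_lit 1677811721) (dlOf (nat_lit 1) (nat_lit 0x128008004000200060008090003))) 
(.lf (nat_lit 2752602121) (dlOf (nat_lit 2) (nat_lit 0x815d0007e018020480)))) (.nd (nat_lit 11) 
(.lf (nat_lit 3892405257) (dlOf (nat_lit 1) (nat_lit 0xcc00200520008102882))) 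
(.lf (nat_lit 4831931401) (dlOf (nat_lit 1) (nat_lit 0x400400020008055f82)))))) (.nd (nat_lit 10) 
(.nd (nat_lit 11) (.nd (nat_lit 19) 
(.lf (nat_lit 3235977) (dlOf (nat_lit 1) (nat_lit 0x400200020008200102))) 
(.lf (nat_lit 12148873) (dlOf (nat_lit 1) (nat_lit 0x4002000200086c0102)))) 
(.lf (nat_lit 96393) (dlOf (nat_lit 1) (nat_lit 0x10001800a881)))) (.nd (nat_lit 8) 
(.nd (nat_lit 9) (.lf (nat_lit 3892405385) (dlOf (nat_lit 1) (nat_lit 0x50004001e0018102b02))) 
(.lf (nat_lit 1812033161) (dlOf (nat_lit 1) (nat_lit 0x400400020008147182)))) 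
(.lf (nat_lit 9009033) (dlOf (nat_lit 1) (nat_lit 0x800800080020002000851a303)))))) 
(.nd (nat_lit 30) (.nd (nat_lit 7) (.nd (nat_lit 8) (.nd (nat_lit 10) 
(.lf (nat_lit 805396489) (dlOf (nat_lit 1) (nat_lit 0x128008004000200060008090003))) 
(.lf (nat_lit 469853193) (dlOf (nat_lit 1) (nat_lit 0x60028002881)))) 
(.lf (nat_lit 3087099657) (dlOf (nat_lit 1) (nat_lit 0x60028143b81)))) (.nd (nat_lit 8) 
(.lf (nat_lit 470376585) (dlOf (nat_lit 1) (nat_lit 0x848008000400200ac00080c0103))) 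
(.lf (nat_lit 4563495305) (dlOf (nat_lit 1) (nat_lit 0x20028094e81))))) (.nd (nat_lit 11) 
(.nd (nat_lit 7) (.nd (nat_lit 31) 
(.lf (nat_lit 1343315977) (dlOf (nat_lit 2) (nat_lit 0x8340540018d02000200281e0481))) 
(.lf (nat_lit 3490799625) (dlOf (nat_lit 2) (nat_lit 0x8158000c6018020480)))) 
(.lf (nat_lit 1342791817) (dlOf (nat_lit 1) (nat_lit 0x848008000400200ac00080c0103)))) 
(.nd (nat_lit 8) 
(.lf (nat_lit 3623970825) (dlOf (nat_lit 3) (nat_lit 0x481140034088001c03e000d01e002200dc002c06a00100000002a07003c01b8001440800f8008015c00200160008004703))) 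
(.lf (nat_lit 1342270729) (dlOf (nat_lit 1) (nat_lit 0x3c0018006681))))))) (.nd (nat_lit 26) 
(.nd (nat_lit 19) (.nd (nat_lit 7) (.nd (nat_lit 28) (.nd (nat_lit 20) 
(.lf (nat_lit 671440905) (dlOf (nat_lit 2) (nat_lit 0xe403600d8006006e001803c80000029e100088002001200081a0482))) 
(.lf (nat_lit 24469513) (dlOf (nat_lit 1) (nat_lit 0x8008001400200080008ba0003)))) 
(.nd (nat_lit 30) (.lf (nat_lit 5100625929) (dlOf (nat_lit 1) (nat_lit 0x20018100001))) 
(.lf (nat_lit 4026884105) (dlOf (nat_lit 1) (nat_lit 0x24002004a00080c0802))))) (.nd (nat_lit 20) 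
(.nd (nat_lit 27) 
(.lf (nat_lit 5100626057) (dlOf (nat_lit 1) (nat_lit 0x8008000400200020008100f03))) 
(.lf (nat_lit 1745182857) (dlOf (nat_lit 2) (nat_lit 0x15c05a0000002000600180c0f01)))) 
(.lf (nat_lit 3498121) (dlOf (nat_lit 1) (nat_lit 0x400200020008200102))))) (.nd (nat_lit 20) 
(.nd (nat_lit 8) (.nd (nat_lit 7) (.nd (nat_lit 22) 
(.lf (nat_lit 2819448841) (dlOf (nat_lit 2) (nat_lit 0x600d80183604009400400200018290282))) 
(.lf (nat_lit 21848073) (dlOf (nat_lit 1) (nat_lit 0x20028a70481)))) 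
(.lf (nat_lit 19758217) (dlOf (nat_lit 1) (nat_lit 0x180080010002000a00089dc203)))) 
(.nd (nat_lit 10) 
(.lf (nat_lit 19757321) (dlOf (nat_lit 1) (nat_lit 0x200080010002000c00089daa03))) 
(.lf (nat_lit 34432265) (dlOf (nat_lit 1) (nat_lit 0x2c0018fb2f81))))) (.nd (nat_lit 21) 
(.nd (nat_lit 23) 
(.lf (nat_lit 18702345) (dlOf (nat_lit 3) (nat_lit 0x749c0003e18b0031e0200020c58018cc080008008000800200040008960283))) 
(.lf (nat_lit 27090953) (dlOf (nat_lit 1) (nat_lit 0x60004003c0008ca0482)))) 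
(.lf (nat_lit 24993801) (dlOf (nat_lit 1) (nat_lit 0x100028bd0581)))))) (.nd (nat_lit 30) 
(.nd (nat_lit 8) (.nd (nat_lit 20) 
(.lf (nat_lit 4362428425) (dlOf (nat_lit 1) (nat_lit 0x78008007c00200780008070503))) 
(.nd (nat_lit 29) (.lf (nat_lit 68509705) (dlOf (nat_lit 1) (nat_lit 0xc00400020018590582))) 
(.lf (nat_lit 2752864265) (dlOf (nat_lit 1) (nat_lit 0x6c0018050001))))) (.nd (nat_lit 7) 
(.lf (nat_lit 2886035209) (dlOf (nat_lit 2) (nat_lit 0x2807000058040098004000c0008143b82))) 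
(.lf (nat_lit 69560713) (dlOf (nat_lit 1) (nat_lit 0x20028b44e81))))) (.nd (nat_lit 27) 
(.nd (nat_lit 7) (.nd (nat_lit 19) 
(.lf (nat_lit 3288686601) (dlOf (nat_lit 1) (nat_lit 0x24002004a00080c0802))) 
(.lf (nat_lit 3557646345) (dlOf (nat_lit 2) (nat_lit 0x600e000d0c04009400400200018290282)))) 
(.lf (nat_lit 6241476745) (dlOf (nat_lit 5) (nat_lit 0x1a0270005012800080680006c0c001804e00220250001a02001700e000d006000b002c0046015000300900128008006800200720000001908000500b000880000006008009c004004e00180f0f02)))) 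
(.nd (nat_lit 29) 
(.lf (nat_lit 1543856137) (dlOf (nat_lit 2) (nat_lit 0xe403200d8006006e001803c8000003c0100088002001200081a0482))) 
(.lf (nat_lit 4228210697) (dlOf (nat_lit 1) (nat_lit 0x78008007c00200780008070503)))))))) 
(.nd (nat_lit 7) (.nd (nat_lit 26) (.nd (nat_lit 18) (.nd (nat_lit 19) (.nd (nat_lit 20) 
(.nd (nat_lit 24) 
(.lf (nat_lit 1879138377) (dlOf (nat_lit 3) (nat_lit 0xb410c00013010005086000088080010008001000200060008020883))) 
(.lf (nat_lit 16867401) (dlOf (nat_lit 1) (nat_lit 0x1f000088e0101)))) 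
(.lf (nat_lit 3490799689) (dlOf (nat_lit 1) (nat_lit 0x1c0008020881)))) (.nd (nat_lit 30) 
(.nd (nat_lit 11) 
(.lf (nat_lit 10051657) (dlOf (nat_lit 3) (nat_lit 0xb8000000680400080000003102000400285b0881))) 
(.lf (nat_lit 620617) (dlOf (nat_lit 1) (nat_lit 0x800800040020002000800a683)))) (.nd (nat_lit 21) 
(.lf (nat_lit 3221839945) (dlOf (nat_lit 6) (nat_lit 0x48045000170100200228000b00802d01180005004025008c00027020118046000120181a1480))) 
(.lf (nat_lit 3492372553) (dlOf (nat_lit 3) (nat_lit 0x301fc00330f3800f8758007c39c0026180000170500010f38000b00801700080148002001800080c1483)))))) 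
(.nd (nat_lit 20) (.nd (nat_lit 8) (.nd (nat_lit 19) 
(.lf (nat_lit 3892666441) (dlOf (nat_lit 2) (nat_lit 0x500000004c04001400400420008180682))) 
(.lf (nat_lit 21848137) (dlOf (nat_lit 7) (nat_lit 0x140000003902000e0000001b01002c0000000d00800400000006204002ddd0002aed3006575e0006ba5800f5c88007ee22004170a0008b8140039bec0008d8300116be8005b5600039a6a0022d27004168e8004b44000cda100056cfc00414d08020a61801052e2003400000013160002774000138500009c0a0004df600026be800135d00009ad60004d27000e68e8001344000099f8000498600094b8800300000004438005c004006e0008a70882)))) 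
(.lf (nat_lit 56976713) (dlOf (nat_lit 2) (nat_lit 0x7219800040080010008001000200060009793303)))) 
(.nd (nat_lit 22) (.nd (nat_lit 8) 
(.lf (nat_lit 1400905) (dlOf (nat_lit 1) (nat_lit 0x4004000200080c0f02))) 
(.lf (nat_lit 20278089) (dlOf (nat_lit 1) (nat_lit 0x200089d5c01)))) (.nd (nat_lit 19) 
(.lf (nat_lit 32858185) (dlOf (nat_lit 1) (nat_lit 0x400200020008f30602))) 
(.lf (nat_lit 58548297) (dlOf (nat_lit 1) (nat_lit 0x1000197e0001))))))) (.nd (nat_lit 8) 
(.nd (nat_lit 9) (.nd (nat_lit 19) (.nd (nat_lit 20) 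
(.lf (nat_lit 1006723145) (dlOf (nat_lit 3) (nat_lit 0xb41150001301000508a800088080010008001000200060008020883))) 
(.lf (nat_lit 2752602185) (dlOf (nat_lit 1) (nat_lit 0x1c0008020881)))) 
(.lf (nat_lit 3960037449) (dlOf (nat_lit 3) (nat_lit 0xb408c0001b0200460460000c8181a1880)))) 
(.nd (nat_lit 22) (.lf (nat_lit 2348900937) (dlOf (nat_lit 1) (nat_lit 0x2000200180008018d02))) 
(.lf (nat_lit 2755748425) (dlOf (nat_lit 2) (nat_lit 0xa02e80006c080068008002c002000200081b1183))))) 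
(.nd (nat_lit 9) (.nd (nat_lit 10) 
(.lf (nat_lit 3557122377) (dlOf (nat_lit 1) (nat_lit 0x94004022c0008130782))) 
(.lf (nat_lit 1543597385) (dlOf (nat_lit 4) (nat_lit 0x540460032018000e00280004818001808c003003000280050000803001d01180000c0800080080048002001c0008146983)))) 
(.nd (nat_lit 19) 
(.lf (nat_lit 5704346441) (dlOf (nat_lit 1) (nat_lit 0x8008000c00200060008055c03))) 
(.lf (nat_lit 69823305) (dlOf (nat_lit 1) (nat_lit 0x800400020008cd5c02))))))) (.nd (nat_lit 29) 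
(.nd (nat_lit 8) (.nd (nat_lit 28) (.nd (nat_lit 9) 
(.lf (nat_lit 1208312009) (dlOf (nat_lit 1) (nat_lit 0x200180c1b81))) 
(.lf (nat_lit 19757769) (dlOf (nat_lit 1) (nat_lit 0x200189db981)))) (.nd (nat_lit 18) 
(.lf (nat_lit 402743497) (dlOf (nat_lit 1) (nat_lit 0x20028090801))) 
(.lf (nat_lit 474308809) (dlOf (nat_lit 1) (nat_lit 0x20019145901))))) (.nd (nat_lit 9) 
(.nd (nat_lit 10) (.lf (nat_lit 57502153) (dlOf (nat_lit 1) (nat_lit 0x100029794e81))) 
(.nd (nat_lit 12) (.lf (nat_lit 7955913) (dlOf (nat_lit 1) (nat_lit 0x20018513601))) 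
(.lf (nat_lit 471692745) (dlOf (nat_lit 1) (nat_lit 0xe00183d9a81))))) (.nd (nat_lit 18) 
(.lf (nat_lit 5773550537) (dlOf (nat_lit 1) (nat_lit 0x4004000200080e2882))) 
(.lf (nat_lit 58549193) (dlOf (nat_lit 1) (nat_lit 0x200297e2881)))))) (.nd (nat_lit 30) 
(.nd (nat_lit 8) (.nd (nat_lit 18) 
(.lf (nat_lit 604070089) (dlOf (nat_lit 1) (nat_lit 0x8008000400200020008010483))) 
(.lf (nat_lit 2818924745) (dlOf (nat_lit 2) (nat_lit 0x40000000dc080008008002000200240008130483)))) 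
(.nd (nat_lit 11) (.nd (nat_lit 31) 
(.lf (nat_lit 939615177) (dlOf (nat_lit 1) (nat_lit 0x400400020008142882))) 
(.lf (nat_lit 3087098825) (dlOf (nat_lit 1) (nat_lit 0x400400020008142882)))) 
(.lf (nat_lit 5234584521) (dlOf (nat_lit 1) (nat_lit 0x1c00200060008055d82))))) (.nd (nat_lit 11) 
(.nd (nat_lit 8) 
(.lf (nat_lit 1745182921) (dlOf (nat_lit 1) (nat_lit 0x180080010002000600080c1b83))) 
(.nd (nat_lit 26) 
(.lf (nat_lit 1610703305) (dlOf (nat_lit 2) (nat_lit 0x2014c003406a000000400100028091101))) 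
(.lf (nat_lit 2080465353) (dlOf (nat_lit 2) (nat_lit 0xb6027005d005000000100238008004800200100008091103))))) 
(.nd (nat_lit 10) (.lf (nat_lit 3892406729) (dlOf (nat_lit 2) (nat_lit 0xa04700b10818104e80))) 
(.lf (nat_lit 1812032969) (dlOf (nat_lit 1) (nat_lit 0x400400020008146d02))))))))) 
(.nd (nat_lit 18) (.nd (nat_lit 8) (.nd (nat_lit 19) (.nd (nat_lit 7) (.nd (nat_lit 6) 
(.nd (nat_lit 22) (.nd (nat_lit 20) 
(.lf (nat_lit 2214682665) (dlOf (nat_lit 2) (nat_lit 0x601300008c080040008004800200140008020a03))) 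
(.lf (nat_lit 1343316009) (dlOf (nat_lit 2) (nat_lit 0x14212f000228181e0680)))) (.nd (nat_lit 9) 
(.lf (nat_lit 21061673) (dlOf (nat_lit 7) (nat_lit 0x4b7d40015bd80016d4b000a6698000682000537d4000dbd8001ad4b00076698000642000637d40015bd80008d4b00086698000602000537d40015bd80012d4b000866980005020000b7d40029bd80028d4b000866980001420002b7d40011bd8000cd4b000466980000c2001a0008002800200020008a00a03))) 
(.lf (nat_lit 56715817) (dlOf (nat_lit 1) (nat_lit 0x8002000e0009735182))))) (.nd (nat_lit 22) 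
(.nd (nat_lit 27) (.lf (nat_lit 2952880233) (dlOf (nat_lit 2) (nat_lit 0x401c00584818010280))) 
(.lf (nat_lit 1208049769) (dlOf (nat_lit 1) (nat_lit 0x13400401040008090102)))) 
(.lf (nat_lit 12673129) (dlOf (nat_lit 2) (nat_lit 0xb03db000080186d1400))))) (.nd (nat_lit 10) 
(.nd (nat_lit 6) 
(.lf (nat_lit 2080465065) (dlOf (nat_lit 1) (nat_lit 0x1080080008002000e0008090603))) 
(.nd (nat_lit 23) 
(.lf (nat_lit 4362168553) (dlOf (nat_lit 2) (nat_lit 0x194000000160200c80018004b01))) 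
(.lf (nat_lit 8481001) (dlOf (nat_lit 3) (nat_lit 0x442bc800813a4000320800189b00000a0200200028514b01))))) 
(.nd (nat_lit 11) (.nd (nat_lit 12) 
(.lf (nat_lit 4697711849) (dlOf (nat_lit 1) (nat_lit 0x20028092e81))) 
(.lf (nat_lit 3355538665) (dlOf (nat_lit 1) (nat_lit 0x68002000800080a9502)))) (.nd (nat_lit 6) 
(.lf (nat_lit 97449) (dlOf (nat_lit 1) (nat_lit 0x40040002000800c202))) 
(.lf (nat_lit 2885774569) (dlOf (nat_lit 3) (nat_lit 0x2f406c007003400790000000b81804000ec03bc06c01e803400d70000000b42001c80080150002003e0008006503))))))) 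
(.nd (nat_lit 21) (.nd (nat_lit 26) (.nd (nat_lit 30) (.nd (nat_lit 6) (.nd (nat_lit 7) 
(.nd (nat_lit 23) 
(.lf (nat_lit 134832169) (dlOf (nat_lit 4) (nat_lit 0x20178000900800080000002804000405e0000002001000180c0c01))) 
(.lf (nat_lit 42557481) (dlOf (nat_lit 3) (nat_lit 0x104400004a0300024e1200029060028880000540600069d040048e12000270800760029260201)))) 
(.lf (nat_lit 620201) (dlOf (nat_lit 1) (nat_lit 0x2002800a001)))) 
(.lf (nat_lit 537485417) (dlOf (nat_lit 5) (nat_lit 0x19014800ec0660001504004a06b0041029001400cc000260c00740a400300330000282000f029000700cc00008080150004004000180a1402)))) 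
(.nd (nat_lit 9) (.nd (nat_lit 27) 
(.lf (nat_lit 3221839913) (dlOf (nat_lit 9) (nat_lit 0xeb00f8051c03801fa00e021700600bb0010060c00402860000000c8701dd01f00ad8070041401c02fc0040000c0401c001f00a20070022801c03300040000b8401db01f0068007003d401c044600c017400200c2800804f0000000160e01fe03e00e1007000054100f380f80220038020000e0163002000300000002814038007c018200e0000982005100000000008000800809140020b4000081a0c03))) 
(.lf (nat_lit 3892928553) (dlOf (nat_lit 4) (nat_lit 0x500640044a0403a00c8047c06001d802c80750130097006604bc0160261002811f0000002d82000c00a80260031017200a000100000000210008400400060008290d82)))) 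
(.lf (nat_lit 3491324457) (dlOf (nat_lit 2) (nat_lit 0x4004680006f0200020028090e01))))) 
(.nd (nat_lit 6) (.nd (nat_lit 9) 
(.lf (nat_lit 470376489) (dlOf (nat_lit 1) (nat_lit 0x200280c0001))) 
(.lf (nat_lit 2753126953) (dlOf (nat_lit 2) (nat_lit 0x4004980006f0200020028090e01)))) 
(.nd (nat_lit 22) (.lf (nat_lit 1409900649) (dlOf (nat_lit 1) (nat_lit 0xc004000800080a1402))) 
(.lf (nat_lit 474570857) (dlOf (nat_lit 2) (nat_lit 0x3f0b4802205a00005e080004004000600091a0a02)))))) 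
(.nd (nat_lit 28) (.nd (nat_lit 20) (.nd (nat_lit 22) (.nd (nat_lit 23) 
(.lf (nat_lit 2754175017) (dlOf (nat_lit 8) (nat_lit 0x401f80000c8100200fc0000600801007e00002e04009c3f0000160200401f80000a81003b0fc0000500801b07e0000000400ac00400b400080c0d02))) 
(.lf (nat_lit 11100201) (dlOf (nat_lit 2) (nat_lit 0x10000000560200240028660681)))) 
(.lf (nat_lit 23683113) (dlOf (nat_lit 1) (nat_lit 0x40028b80001)))) (.nd (nat_lit 24) 
(.lf (nat_lit 3760169) (dlOf (nat_lit 6) (nat_lit 0x544c9003326380198fa001b1c0c013896400cc90200a44b20066401005725900331c0800113240000004000400400120018220a02))) 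
(.lf (nat_lit 54091817) (dlOf (nat_lit 1) (nat_lit 0x8008000400200020009610203))))) 
(.nd (nat_lit 6) (.nd (nat_lit 29) 
(.lf (nat_lit 3492372521) (dlOf (nat_lit 7) (nat_lit 0x8a1e60000c8100a50f30000600805107980002e0402783cc0001602014e1e60000a0100870f30000000800e80080030002008a00080c0c03))) 
(.lf (nat_lit 1881759785) (dlOf (nat_lit 1) (nat_lit 0x400400020009000202)))) 
(.lf (nat_lit 1881759849) (dlOf (nat_lit 1) (nat_lit 0x20019000a01))))))) (.nd (nat_lit 7) 
(.nd (nat_lit 27) (.nd (nat_lit 10) (.nd (nat_lit 6) (.nd (nat_lit 12) 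
(.lf (nat_lit 54618921) (dlOf (nat_lit 2) (nat_lit 0x29318002e204007c00400280009655c02))) 
(.lf (nat_lit 97065) (dlOf (nat_lit 3) (nat_lit 0x62748015440800293a400a920400140040010000800bc82)))) 
(.lf (nat_lit 43082089) (dlOf (nat_lit 12) (nat_lit 0x16918000c00000019820005a570004523000180000003206000f4ae00070000000c410000d2b80006004001e95c000b48c00070000000bc1800352b800180000002e04000d4ae00060000000b41000352b800140000002c0400054ae000100000006010003d8840000604002ec4200115fe0001a570000001800780080058002003400092a0f03)))) 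
(.nd (nat_lit 6) (.nd (nat_lit 26) 
(.lf (nat_lit 1342270761) (dlOf (nat_lit 1) (nat_lit 0x4c0018006801))) 
(.lf (nat_lit 3825298729) (dlOf (nat_lit 1) (nat_lit 0x400400020008146802)))) 
(.lf (nat_lit 1611228521) (dlOf (nat_lit 1) (nat_lit 0x40018123481))))) (.nd (nat_lit 11) 
(.nd (nat_lit 6) (.nd (nat_lit 10) 
(.lf (nat_lit 1208049961) (dlOf (nat_lit 6) (nat_lit 0x1c809c00c00140004604008c027002a00500011410016009c00a80140004404002803900230138000e01000a00a40002c0401ac00400060008090b02))) 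
(.lf (nat_lit 5772502313) (dlOf (nat_lit 1) (nat_lit 0x400200020008093182)))) 
(.lf (nat_lit 201418601) (dlOf (nat_lit 1) (nat_lit 0x400400020008004002)))) (.nd (nat_lit 6) 
(.nd (nat_lit 28) (.lf (nat_lit 1812032809) (dlOf (nat_lit 1) (nat_lit 0x400400020008146802))) 
(.lf (nat_lit 4227951913) (dlOf (nat_lit 1) (nat_lit 0x580018006801)))) 
(.lf (nat_lit 738290537) (dlOf (nat_lit 1) (nat_lit 0x48008001800200040008095c03)))))) 
(.nd (nat_lit 9) (.nd (nat_lit 11) (.nd (nat_lit 6) (.nd (nat_lit 10) 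
(.lf (nat_lit 23683497) (dlOf (nat_lit 1) (nat_lit 0x20018b80781))) 
(.lf (nat_lit 4697712041) (dlOf (nat_lit 2) (nat_lit 0x200660008e0200160028093601)))) 
(.lf (nat_lit 2080465385) (dlOf (nat_lit 1) (nat_lit 0x40018091301)))) (.nd (nat_lit 21) 
(.nd (nat_lit 27) 
(.lf (nat_lit 3825297897) (dlOf (nat_lit 1) (nat_lit 0x8008000400200020008144e83))) 
(.lf (nat_lit 1812031977) (dlOf (nat_lit 1) (nat_lit 0x400400020008144e82)))) 
(.lf (nat_lit 5773552105) (dlOf (nat_lit 1) (nat_lit 0x200280e4e81))))) (.nd (nat_lit 10) 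
(.nd (nat_lit 6) (.nd (nat_lit 12) 
(.lf (nat_lit 5637237673) (dlOf (nat_lit 1) (nat_lit 0x20018055d01))) 
(.lf (nat_lit 97193) (dlOf (nat_lit 2) (nat_lit 0x24e9000926c00085410007800800800020004000800bd03)))) 
(.lf (nat_lit 2751554537) (dlOf (nat_lit 1) (nat_lit 0x20018002881)))) (.nd (nat_lit 26) 
(.lf (nat_lit 939616169) (dlOf (nat_lit 1) (nat_lit 0x280028144301))) (.nd (nat_lit 27) 
(.lf (nat_lit 4362168233) (dlOf (nat_lit 1) (nat_lit 0x1260008004301))) 
(.lf (nat_lit 469854121) (dlOf (nat_lit 1) (nat_lit 0x60028004301))))))))) (.nd (nat_lit 19) 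
(.nd (nat_lit 28) (.nd (nat_lit 20) (.nd (nat_lit 26) (.nd (nat_lit 27) (.nd (nat_lit 6) 
(.lf (nat_lit 3221577769) (dlOf (nat_lit 1) (nat_lit 0x80080044002001a0008150883))) 
(.lf (nat_lit 38102121) (dlOf (nat_lit 1) (nat_lit 0x400200ba0009132982)))) (.nd (nat_lit 29) 
(.lf (nat_lit 3355795497) (dlOf (nat_lit 18) (nat_lit 0x3200c000a000000056040594030000250102610180001240800180c00008e0400a006005c202c000d0148001141804600c00764058000440401d802c000218102a70180001080802980c0000780404380600003702004603302e8018016580600acc006038e00000019050273018010e8060000400602f60000001884001900c000e000000060080b4803005fa000000168202ac0000000b00810600000002e040698060025001800a800000004c180058008004c002000c0008120683))) 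
(.lf (nat_lit 671440937) (dlOf (nat_lit 1) (nat_lit 0x5800800cc00200b600081a0603))))) 
(.nd (nat_lit 7) (.nd (nat_lit 29) 
(.lf (nat_lit 4362428457) (dlOf (nat_lit 6) (nat_lit 0x2a017003040a80180053004e0290007014405f008e0086046000e0198023006001180000001014000e0470000781019f019800038080aa80cc0001a0402680b8005005300001828070800))) 
(.lf (nat_lit 4899299369) (dlOf (nat_lit 1) (nat_lit 0x1c0018100281)))) 
(.lf (nat_lit 69560745) (dlOf (nat_lit 1) (nat_lit 0x500080084002003a0008b44e83))))) 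
(.nd (nat_lit 9) (.nd (nat_lit 21) 
(.lf (nat_lit 9789481) (dlOf (nat_lit 1) (nat_lit 0x400200020008580282))) 
(.lf (nat_lit 37052457) (dlOf (nat_lit 1) (nat_lit 0x1000400020009090202)))) (.nd (nat_lit 6) 
(.lf (nat_lit 45443625) (dlOf (nat_lit 5) (nat_lit 0xecea0005f81001b6750009b2d8001140800559d400089020024cea000c65b000220100090008001400200240009325183))) 
(.lf (nat_lit 20282217) (dlOf (nat_lit 1) (nat_lit 0x200189dbc81)))))) (.nd (nat_lit 26) 
(.nd (nat_lit 27) (.nd (nat_lit 6) (.nd (nat_lit 29) 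
(.lf (nat_lit 4563755049) (dlOf (nat_lit 1) (nat_lit 0x200280d0281))) 
(.lf (nat_lit 1879400489) (dlOf (nat_lit 2) (nat_lit 0x1a0f70001b818120c00)))) 
(.lf (nat_lit 2953142505) (dlOf (nat_lit 1) (nat_lit 0x4004003c0008160602)))) (.nd (nat_lit 8) 
(.lf (nat_lit 4697972777) (dlOf (nat_lit 1) (nat_lit 0x200280d0281))) 
(.lf (nat_lit 3624234281) (dlOf (nat_lit 1) (nat_lit 0x18008001c00200080008146803))))) 
(.nd (nat_lit 6) (.nd (nat_lit 29) (.nd (nat_lit 30) 
(.lf (nat_lit 2617597993) (dlOf (nat_lit 26) (nat_lit 0x4580c8014405a006a019006100c000c005400f8020000560c01280320002a8101a3019001c00780009c0803e0064044e02d003d00d804600400009410026405a0004902000c02d000238102de019003f00b409dc052029c01b0117004800114280fc80c8054c052006801b000220301fc01900a400a400cc0360004306038a02d00710080001081000700c800580520004004029602d004c0080000f01001080c800070040308064010402d000300d802600400006e10002006400034020080032021f016803400640b78030014201000b50038147800c08fc0000003210037803201bc01680ef80600010020046e0000001885001e00c0000c00800f00600005e040c8003007d6000000168203510000000b008006806008440000001704000201a0000b0100d1019001200c0026805a010801a00c800c00448014045c000000130e005c029014400d009b0058000000c09ec00202000008100682)))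 
(.lf (nat_lit 1543856169) (dlOf (nat_lit 1) (nat_lit 0x5800800cc00200b600081a0603)))) 
(.lf (nat_lit 4228210729) (dlOf (nat_lit 3) (nat_lit 0x8c0640001402002a0540002025800080fc000220c01a800400040008070882)))) 
(.nd (nat_lit 7) (.lf (nat_lit 3557122409) (dlOf (nat_lit 1) (nat_lit 0x40018130981))) 
(.lf (nat_lit 3691340009) (dlOf (nat_lit 1) (nat_lit 0x4004003c0008160602))))))) (.nd (nat_lit 7) 
(.nd (nat_lit 22) (.nd (nat_lit 24) (.nd (nat_lit 23) 
(.lf (nat_lit 3491586089) (dlOf (nat_lit 1) (nat_lit 0x4002004a0008090002))) 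
(.lf (nat_lit 10313769) (dlOf (nat_lit 1) (nat_lit 0x4004000800085d0602)))) (.nd (nat_lit 8) 
(.lf (nat_lit 18702377) (dlOf (nat_lit 1) (nat_lit 0x800008960801))) 
(.lf (nat_lit 19751209) (dlOf (nat_lit 1) (nat_lit 0x4800189d0b01))))) (.nd (nat_lit 21) 
(.nd (nat_lit 20) 
(.lf (nat_lit 21848105) (dlOf (nat_lit 2) (nat_lit 0x4b8580000004000800400060008a70502))) 
(.lf (nat_lit 22896681) (dlOf (nat_lit 3) (nat_lit 0x1aa97800cccb8006a3a40034329001a182000d08dc0068000000560e000769e00019018b40680)))) 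
(.nd (nat_lit 6) (.lf (nat_lit 8216617) (dlOf (nat_lit 1) (nat_lit 0x60028510001))) 
(.lf (nat_lit 8221289) (dlOf (nat_lit 1) (nat_lit 0x1000400020008518982)))))) (.nd (nat_lit 6) 
(.nd (nat_lit 8) (.lf (nat_lit 19755689) (dlOf (nat_lit 1) (nat_lit 0x200189d8c81))) 
(.nd (nat_lit 10) (.lf (nat_lit 8217001) (dlOf (nat_lit 1) (nat_lit 0x400200020008511002))) 
(.lf (nat_lit 19756457) (dlOf (nat_lit 1) (nat_lit 0x480080018002000600089d9903))))) 
(.nd (nat_lit 10) (.nd (nat_lit 8) 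
(.lf (nat_lit 17653993) (dlOf (nat_lit 1) (nat_lit 0x200288e0601))) 
(.lf (nat_lit 12411369) (dlOf (nat_lit 1) (nat_lit 0x600186c0d01)))) (.nd (nat_lit 11) 
(.lf (nat_lit 8218089) (dlOf (nat_lit 1) (nat_lit 0x1000400020018513602))) 
(.lf (nat_lit 19754473) (dlOf (nat_lit 1) (nat_lit 0x200289d6e81)))))))))) (.nd (nat_lit 5) 
(.nd (nat_lit 26) (.nd (nat_lit 6) (.nd (nat_lit 18) (.nd (nat_lit 19) (.nd (nat_lit 32) 
(.nd (nat_lit 20) (.nd (nat_lit 8) 
(.lf (nat_lit 21094409) (dlOf (nat_lit 1) (nat_lit 0x7e0018a10481))) 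
(.lf (nat_lit 939648777) (dlOf (nat_lit 1) (nat_lit 0x8008000400200020008143b83)))) 
(.nd (nat_lit 21) 
(.lf (nat_lit 17948681) (dlOf (nat_lit 2) (nat_lit 0x31fc000270080040008003c00200020008900583))) 
(.lf (nat_lit 28434441) (dlOf (nat_lit 3) (nat_lit 0x754ea003e0fb005e782000207d802f20080008008000800200040008d90283))))) 
(.nd (nat_lit 30) (.nd (nat_lit 8) 
(.lf (nat_lit 6442574857) (dlOf (nat_lit 1) (nat_lit 0x200080018002001800080f2883))) 
(.lf (nat_lit 4563528457) (dlOf (nat_lit 1) (nat_lit 0x88008003000200020008095b03)))) 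
(.nd (nat_lit 7) (.nd (nat_lit 27) 
(.lf (nat_lit 5368832009) (dlOf (nat_lit 2) (nat_lit 0xa004c03bda04001000400080008030002))) 
(.lf (nat_lit 5503049737) (dlOf (nat_lit 2) (nat_lit 0xa004c0353804001000400080008030002)))) 
(.lf (nat_lit 5368832137) (dlOf (nat_lit 7) (nat_lit 0x48015029f00a016f004c0930022008001000430070000d830002005405c00280418013016c008800180400006a14008c02a052a01402e6009812700440110020008a00e0001a06002400a814e00500bac02604940110045008002180380005c1800a002a051401402eb009811f8044010c020007e00e0001686002200a814f80500b98026049e0110044008002180380005618004400400220018030f02)))))) 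
(.nd (nat_lit 7) (.nd (nat_lit 22) (.nd (nat_lit 23) 
(.lf (nat_lit 134864905) (dlOf (nat_lit 6) (nat_lit 0x1ee04a0090017800380a8001c0180007d08022804a035a023005380bc01f4054013800c0003e05007e0178001e8080840128026405e0007504020804a00950178001cc1009b800806f400203a000080d0483))) 
(.lf (nat_lit 59367433) (dlOf (nat_lit 1) (nat_lit 0x200297f0001)))) (.nd (nat_lit 20) 
(.lf (nat_lit 13230089) (dlOf (nat_lit 1) (nat_lit 0x220018710581))) 
(.lf (nat_lit 24764425) (dlOf (nat_lit 1) (nat_lit 0x8008000800200020008bb0003))))) 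
(.nd (nat_lit 8) (.lf (nat_lit 12181641) (dlOf (nat_lit 1) (nat_lit 0x200186c0101))) 
(.nd (nat_lit 9) (.lf (nat_lit 57272713) (dlOf (nat_lit 1) (nat_lit 0x20009794e81))) 
(.lf (nat_lit 9041801) (dlOf (nat_lit 1) (nat_lit 0x40020002000851a302))))))) (.nd (nat_lit 28) 
(.nd (nat_lit 29) (.nd (nat_lit 7) (.nd (nat_lit 10) (.nd (nat_lit 21) 
(.lf (nat_lit 30793737) (dlOf (nat_lit 1) (nat_lit 0x20028e50581))) 
(.lf (nat_lit 37085193) (dlOf (nat_lit 1) (nat_lit 0x8008000400200040009090003)))) 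
(.lf (nat_lit 38134793) (dlOf (nat_lit 1) (nat_lit 0x160009132881)))) (.nd (nat_lit 8) 
(.lf (nat_lit 21356681) (dlOf (nat_lit 1) (nat_lit 0x800400180018a30f02))) 
(.lf (nat_lit 8249737) (dlOf (nat_lit 1) (nat_lit 0x400200020008511002))))) (.nd (nat_lit 27) 
(.nd (nat_lit 30) 
(.lf (nat_lit 537255945) (dlOf (nat_lit 2) (nat_lit 0x240a8000204500168828070500))) 
(.lf (nat_lit 5905965065) (dlOf (nat_lit 6) (nat_lit 0x12025000a00b8004ec100068094003002e0013904001a025000900b80047c100040094002c02e000d9040014025000d00b8003601000f800801e400200540008170483)))) 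
(.nd (nat_lit 7) (.nd (nat_lit 19) 
(.lf (nat_lit 3892699145) (dlOf (nat_lit 1) (nat_lit 0x90004001800081d0482))) 
(.lf (nat_lit 2819481609) (dlOf (nat_lit 4) (nat_lit 0x680e8005406c0062804001e0360030c01002d01b0016e40800480080008002000800082b0283)))) 
(.lf (nat_lit 1745217929) (dlOf (nat_lit 1) (nat_lit 0x9600280e4e81)))))) (.nd (nat_lit 31) 
(.nd (nat_lit 27) (.nd (nat_lit 30) 
(.lf (nat_lit 4563787785) (dlOf (nat_lit 1) (nat_lit 0x5c002000200080e0002))) 
(.lf (nat_lit 5637529609) (dlOf (nat_lit 1) (nat_lit 0x10008000400200020008100003)))) 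
(.lf (nat_lit 4698005513) (dlOf (nat_lit 1) (nat_lit 0x5c002000200080e0002)))) (.nd (nat_lit 22) 
(.nd (nat_lit 27) 
(.lf (nat_lit 2416304137) (dlOf (nat_lit 2) (nat_lit 0x238044000f804001c002000600080d0482))) 
(.lf (nat_lit 2550521865) (dlOf (nat_lit 2) (nat_lit 0x238044000f804001c002000600080d0482)))) 
(.lf (nat_lit 3494240265) (dlOf (nat_lit 2) (nat_lit 0x381a801c60040004004000400081d0002))))))) 
(.nd (nat_lit 30) (.nd (nat_lit 11) (.nd (nat_lit 7) (.nd (nat_lit 19) (.nd (nat_lit 18) 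
(.nd (nat_lit 27) 
(.lf (nat_lit 2416042057) (dlOf (nat_lit 3) (nat_lit 0x17201c00ba00b8000981002e005c0004a04003400200020008020882))) 
(.lf (nat_lit 2550259785) (dlOf (nat_lit 3) (nat_lit 0x17201d00ba00b8000981002e005c0004a04003400200020008020882)))) 
(.lf (nat_lit 37085257) (dlOf (nat_lit 1) (nat_lit 0xa0019090601)))) (.nd (nat_lit 8) 
(.lf (nat_lit 805953609) (dlOf (nat_lit 2) (nat_lit 0x3005600008018201480))) 
(.lf (nat_lit 50979145) (dlOf (nat_lit 1) (nat_lit 0x80080018002000800094e8703))))) 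
(.nd (nat_lit 10) (.nd (nat_lit 20) 
(.lf (nat_lit 4317385) (dlOf (nat_lit 1) (nat_lit 0x20028290481))) 
(.lf (nat_lit 3268809) (dlOf (nat_lit 1) (nat_lit 0xa0028200481)))) 
(.lf (nat_lit 43377865) (dlOf (nat_lit 1) (nat_lit 0x600092a2d81))))) (.nd (nat_lit 9) 
(.nd (nat_lit 10) (.lf (nat_lit 9041993) (dlOf (nat_lit 1) (nat_lit 0x800800100020002000851a683))) 
(.lf (nat_lit 388169) (dlOf (nat_lit 1) (nat_lit 0xd800201000008006082)))) (.nd (nat_lit 10) 
(.lf (nat_lit 32107081) (dlOf (nat_lit 1) (nat_lit 0x40008ef5201))) 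
(.lf (nat_lit 805432905) (dlOf (nat_lit 1) (nat_lit 0x220008117181)))))) (.nd (nat_lit 7) 
(.nd (nat_lit 8) (.nd (nat_lit 18) (.nd (nat_lit 20) 
(.lf (nat_lit 4026654793) (dlOf (nat_lit 2) (nat_lit 0x301a8000980801100080004002001e0008020883))) 
(.lf (nat_lit 3490832457) (dlOf (nat_lit 2) (nat_lit 0xb003f00000018020880)))) 
(.lf (nat_lit 4026916937) (dlOf (nat_lit 1) (nat_lit 0xe00080d0c81)))) (.nd (nat_lit 9) 
(.lf (nat_lit 3221355849) (dlOf (nat_lit 1) (nat_lit 0x2001811c901))) 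
(.lf (nat_lit 5637270345) (dlOf (nat_lit 1) (nat_lit 0xc00200060008055c02))))) (.nd (nat_lit 8) 
(.nd (nat_lit 9) (.nd (nat_lit 10) 
(.lf (nat_lit 5368832201) (dlOf (nat_lit 1) (nat_lit 0x78008003800200240008031b83))) 
(.lf (nat_lit 5772797129) (dlOf (nat_lit 1) (nat_lit 0x800200020008092d82)))) 
(.lf (nat_lit 1745218249) (dlOf (nat_lit 1) (nat_lit 0x13200280e5801)))) (.nd (nat_lit 9) 
(.lf (nat_lit 1610736073) (dlOf (nat_lit 2) (nat_lit 0x300a60004035001c0108000001800780080090002000a0008091103))) 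
(.lf (nat_lit 1610736585) (dlOf (nat_lit 1) (nat_lit 0x240018092881)))))))) (.nd (nat_lit 6) 
(.nd (nat_lit 31) (.nd (nat_lit 7) (.nd (nat_lit 27) (.nd (nat_lit 18) (.nd (nat_lit 8) 
(.lf (nat_lit 5167505417) (dlOf (nat_lit 1) (nat_lit 0x400400020008070002))) 
(.lf (nat_lit 1409412361) (dlOf (nat_lit 1) (nat_lit 0x400400020008006682)))) (.nd (nat_lit 29) 
(.lf (nat_lit 1409671177) (dlOf (nat_lit 2) (nat_lit 0x240a80002042001a8828070500))) 
(.lf (nat_lit 6241509385) (dlOf (nat_lit 1) (nat_lit 0x10008000400200020008100003))))) 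
(.nd (nat_lit 8) (.nd (nat_lit 9) 
(.lf (nat_lit 201973769) (dlOf (nat_lit 6) (nat_lit 0x1ee04a0090017800380a8001c0180007d08022804a035a023005380bc01f4054013800c0003e05007e0178001e8080840128026405e0007504020804a00950178001cc1009b800806f400203a000080d0483))) 
(.lf (nat_lit 6377564681) (dlOf (nat_lit 1) (nat_lit 0x600180e5001)))) 
(.lf (nat_lit 201451273) (dlOf (nat_lit 2) (nat_lit 0x34082000470200060018003b81))))) 
(.nd (nat_lit 28) (.nd (nat_lit 9) (.nd (nat_lit 18) 
(.lf (nat_lit 5033287817) (dlOf (nat_lit 2) (nat_lit 0x3802a000360200060018030f01))) 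
(.lf (nat_lit 604364937) (dlOf (nat_lit 2) (nat_lit 0x5a0160007c0181a0480)))) 
(.lf (nat_lit 1812065929) (dlOf (nat_lit 1) (nat_lit 0x2c0028147181)))) (.nd (nat_lit 9) 
(.nd (nat_lit 18) 
(.lf (nat_lit 5167505545) (dlOf (nat_lit 2) (nat_lit 0xe027000400b8000c8100030008003000200160008070f03))) 
(.lf (nat_lit 2080759945) (dlOf (nat_lit 1) (nat_lit 0x1a00180c0e81)))) 
(.lf (nat_lit 5838597769) (dlOf (nat_lit 1) (nat_lit 0x1c002000800080f7182)))))) (.nd (nat_lit 28) 
(.nd (nat_lit 8) (.nd (nat_lit 29) (.nd (nat_lit 18) 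
(.lf (nat_lit 2348933129) (dlOf (nat_lit 1) (nat_lit 0x40018030481))) 
(.lf (nat_lit 6509944841) (dlOf (nat_lit 6) (nat_lit 0x12026000a00b8004ec100068098003002e0013904001a026000900b800468100040098002c02e000d9040014026000d00b8003601000f800801e400200540008170483)))) 
(.nd (nat_lit 10) 
(.lf (nat_lit 2756042761) (dlOf (nat_lit 2) (nat_lit 0x381a801016040004004000400081d0002))) 
(.lf (nat_lit 2751849481) (dlOf (nat_lit 1) (nat_lit 0x20018002881))))) (.nd (nat_lit 7) 
(.lf (nat_lit 2755518729) (dlOf (nat_lit 1) (nat_lit 0x8008034c00200f000081b0483))) 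
(.nd (nat_lit 10) (.lf (nat_lit 3825330569) (dlOf (nat_lit 1) (nat_lit 0x800028144e81))) 
(.lf (nat_lit 3825331593) (dlOf (nat_lit 1) (nat_lit 0x40018146c81)))))) (.nd (nat_lit 9) 
(.nd (nat_lit 18) (.nd (nat_lit 19) 
(.lf (nat_lit 2483150857) (dlOf (nat_lit 1) (nat_lit 0x40018030481))) 
(.lf (nat_lit 4095336457) (dlOf (nat_lit 1) (nat_lit 0x8008001400200020008090003)))) 
(.lf (nat_lit 3557679113) (dlOf (nat_lit 4) (nat_lit 0x680f0005407000bbd04001e038005d681002d01c002d140800480080008002000800082b0283)))) 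
(.nd (nat_lit 7) (.nd (nat_lit 11) 
(.lf (nat_lit 4094288393) (dlOf (nat_lit 1) (nat_lit 0xd80080074002000e0008037b03))) 
(.lf (nat_lit 3556895241) (dlOf (nat_lit 2) (nat_lit 0x30248000a00800580080008002000200080d5003)))) 
(.lf (nat_lit 4095862409) (dlOf (nat_lit 1) (nat_lit 0x1c004000600080e3a02))))))) (.nd (nat_lit 27) 
(.nd (nat_lit 8) (.nd (nat_lit 28) (.nd (nat_lit 18) (.nd (nat_lit 20) (.nd (nat_lit 31) 
(.lf (nat_lit 5435940937) (dlOf (nat_lit 1) (nat_lit 0x28008003400200180008040503))) 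
(.lf (nat_lit 3288457289) (dlOf (nat_lit 2) (nat_lit 0x301a8000980801100080004002001e0008020883)))) 
(.lf (nat_lit 2752634953) (dlOf (nat_lit 2) (nat_lit 0xb003f00000018020880)))) 
(.lf (nat_lit 3288719433) (dlOf (nat_lit 1) (nat_lit 0xe00080d0c81)))) (.nd (nat_lit 7) 
(.nd (nat_lit 19) 
(.lf (nat_lit 2483150921) (dlOf (nat_lit 2) (nat_lit 0x1c054002e00f00000028030f00))) 
(.lf (nat_lit 4095336521) (dlOf (nat_lit 1) (nat_lit 0xa0018090501)))) 
(.lf (nat_lit 5167505609) (dlOf (nat_lit 1) (nat_lit 0x400400560008071b82))))) (.nd (nat_lit 9) 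
(.nd (nat_lit 7) (.nd (nat_lit 10) 
(.lf (nat_lit 2483413321) (dlOf (nat_lit 1) (nat_lit 0x7a00281b0601))) 
(.lf (nat_lit 69592393) (dlOf (nat_lit 1) (nat_lit 0xc00200060008b43302)))) 
(.lf (nat_lit 4095076809) (dlOf (nat_lit 1) (nat_lit 0x20028054e81)))) (.nd (nat_lit 18) 
(.nd (nat_lit 30) (.lf (nat_lit 2751587273) (dlOf (nat_lit 1) (nat_lit 0x20008002881))) 
(.lf (nat_lit 1677845449) (dlOf (nat_lit 1) (nat_lit 0x54002001c0008112882)))) 
(.lf (nat_lit 872801225) (dlOf (nat_lit 1) (nat_lit 0xd000280e2881)))))) (.nd (nat_lit 7) 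
(.nd (nat_lit 28) (.nd (nat_lit 8) 
(.lf (nat_lit 2348933193) (dlOf (nat_lit 2) (nat_lit 0x1c054002e00f00000028030f00))) 
(.nd (nat_lit 11) (.lf (nat_lit 2349195593) (dlOf (nat_lit 1) (nat_lit 0x7a00281b0601))) 
(.lf (nat_lit 3959552329) (dlOf (nat_lit 1) (nat_lit 0x14001811ab81))))) (.nd (nat_lit 8) 
(.lf (nat_lit 5301723209) (dlOf (nat_lit 1) (nat_lit 0x28008003400200180008040503))) 
(.nd (nat_lit 10) 
(.lf (nat_lit 1007280457) (dlOf (nat_lit 1) (nat_lit 0x100080008002000400082e0783))) 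
(.lf (nat_lit 1543630153) (dlOf (nat_lit 6) (nat_lit 0x2c026001d00e801580600084020015a0050012001000a0000000241c001c04c003601d002300c00080040028000a000100a00d6005000078100030000000380800880740068030002e010001200000000c200240008008800200080008146983)))))) 
(.nd (nat_lit 8) (.nd (nat_lit 10) (.nd (nat_lit 18) 
(.lf (nat_lit 1009377481) (dlOf (nat_lit 2) (nat_lit 0x84000000000200300019145901))) 
(.lf (nat_lit 6377300169) (dlOf (nat_lit 1) (nat_lit 0x4002000200080c1b82)))) 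
(.lf (nat_lit 5570159817) (dlOf (nat_lit 1) (nat_lit 0x20028052d81)))) (.nd (nat_lit 10) 
(.nd (nat_lit 18) (.lf (nat_lit 738847177) (dlOf (nat_lit 1) (nat_lit 0x400200020008124e82))) 
(.lf (nat_lit 6376253897) (dlOf (nat_lit 2) (nat_lit 0x80a001cc404000400200040008094e82)))) 
(.nd (nat_lit 9) (.lf (nat_lit 1543630281) (dlOf (nat_lit 2) (nat_lit 0x80000002f818146d00))) 
(.lf (nat_lit 3959551945) (dlOf (nat_lit 1) (nat_lit 0x18001811a601)))))))))) (.nd (nat_lit 18) 
(.nd (nat_lit 19) (.nd (nat_lit 11) (.nd (nat_lit 28) (.nd (nat_lit 10) (.nd (nat_lit 21) 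
(.nd (nat_lit 6) (.lf (nat_lit 17948713) (dlOf (nat_lit 1) (nat_lit 0x8008000400200020008900b03))) 
(.lf (nat_lit 12705897) (dlOf (nat_lit 2) (nat_lit 0x381a1801c47b60001004000400186d1401)))) 
(.nd (nat_lit 9) (.lf (nat_lit 28434473) (dlOf (nat_lit 1) (nat_lit 0x800008d90801))) 
(.lf (nat_lit 11657769) (dlOf (nat_lit 1) (nat_lit 0x80080004002000200086c0e03))))) 
(.nd (nat_lit 6) (.nd (nat_lit 7) 
(.lf (nat_lit 1610737193) (dlOf (nat_lit 1) (nat_lit 0x400400020008093702))) 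
(.lf (nat_lit 5905704617) (dlOf (nat_lit 1) (nat_lit 0x200018143a81)))) (.nd (nat_lit 7) 
(.lf (nat_lit 124265) (dlOf (nat_lit 2) (nat_lit 0x2aa4d00018018003480))) 
(.lf (nat_lit 4496418025) (dlOf (nat_lit 1) (nat_lit 0x20028052e81)))))) (.nd (nat_lit 26) 
(.nd (nat_lit 6) (.nd (nat_lit 27) 
(.lf (nat_lit 2416042025) (dlOf (nat_lit 1) (nat_lit 0x20008007c002001e0008020503))) 
(.lf (nat_lit 2550259753) (dlOf (nat_lit 1) (nat_lit 0x20008007c002001e0008020503)))) 
(.lf (nat_lit 1881268585) (dlOf (nat_lit 1) (nat_lit 0xc004000a0008e80f02)))) (.nd (nat_lit 7) 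
(.lf (nat_lit 1007804457) (dlOf (nat_lit 1) (nat_lit 0x400087c0201))) 
(.lf (nat_lit 5167505577) (dlOf (nat_lit 1) (nat_lit 0x400400620008071482)))))) (.nd (nat_lit 7) 
(.nd (nat_lit 28) (.nd (nat_lit 6) (.nd (nat_lit 8) 
(.lf (nat_lit 6509685801) (dlOf (nat_lit 1) (nat_lit 0xa0018146081))) 
(.lf (nat_lit 2751592745) (dlOf (nat_lit 1) (nat_lit 0x2002800ab81)))) 
(.lf (nat_lit 3959552361) (dlOf (nat_lit 1) (nat_lit 0x12c0040004001811ac02)))) (.nd (nat_lit 6) 
(.nd (nat_lit 9) 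
(.lf (nat_lit 1409412393) (dlOf (nat_lit 1) (nat_lit 0x8008000400200640008006803))) 
(.lf (nat_lit 5637270313) (dlOf (nat_lit 2) (nat_lit 0x26015000aa018055c00)))) 
(.lf (nat_lit 805431657) (dlOf (nat_lit 1) (nat_lit 0x7400200360008114e82))))) (.nd (nat_lit 6) 
(.nd (nat_lit 8) (.lf (nat_lit 805433001) (dlOf (nat_lit 1) (nat_lit 0x1e0028117201))) 
(.nd (nat_lit 28) 
(.lf (nat_lit 3221355945) (dlOf (nat_lit 7) (nat_lit 0x1001a800c009c002c046000801f000180400050270000bc080130158007c0220002e0400160560016008800010100108158006802200360100000103000801300000008001800800200020002000811cb83))) 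
(.lf (nat_lit 805436841) (dlOf (nat_lit 6) (nat_lit 0x402a80048138002406e000e012000d008000100280003818000409c00040120000d82002102a800d0138007006e00140120012008000b0028000341800380ac00080130000c02000102a00004c0802980080050002000a000811cb83))))) 
(.nd (nat_lit 8) (.lf (nat_lit 20049641) (dlOf (nat_lit 1) (nat_lit 0x600189d7401))) 
(.lf (nat_lit 738322921) (dlOf (nat_lit 1) (nat_lit 0x20008094e81))))))) (.nd (nat_lit 21) 
(.nd (nat_lit 28) (.nd (nat_lit 6) (.nd (nat_lit 23) (.nd (nat_lit 22) 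
(.lf (nat_lit 3221872681) (dlOf (nat_lit 3) (nat_lit 0x800e0000b0100010070000500800380080038002001000081a0c03))) 
(.lf (nat_lit 21618729) (dlOf (nat_lit 1) (nat_lit 0x20028a50a81)))) (.nd (nat_lit 7) 
(.lf (nat_lit 42590249) (dlOf (nat_lit 1) (nat_lit 0x20029260201))) 
(.lf (nat_lit 9040809) (dlOf (nat_lit 1) (nat_lit 0x2a0018519101))))) (.nd (nat_lit 7) 
(.lf (nat_lit 25813097) (dlOf (nat_lit 1) (nat_lit 0xc0028c10281))) 
(.lf (nat_lit 9041897) (dlOf (nat_lit 1) (nat_lit 0x800800100020002000851a603))))) (.nd (nat_lit 6) 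
(.nd (nat_lit 26) 
(.lf (nat_lit 805953577) (dlOf (nat_lit 5) (nat_lit 0x1c02100098038000ae08004c084005a00e0002a02001f0210001803800e8000000370600040420007007001a0000000660c000800400060018200c02))) 
(.nd (nat_lit 27) (.lf (nat_lit 3557417001) (dlOf (nat_lit 1) (nat_lit 0x4004000200181f0782))) 
(.lf (nat_lit 3154763817) (dlOf (nat_lit 3) (nat_lit 0x7c051000e00b0005b01009f013c0000204001000400020018320d82))))) 
(.nd (nat_lit 27) (.lf (nat_lit 1409933417) (dlOf (nat_lit 1) (nat_lit 0xc00280a1401))) 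
(.lf (nat_lit 1007280233) (dlOf (nat_lit 1) (nat_lit 0x10400182e0481)))))) (.nd (nat_lit 28) 
(.nd (nat_lit 20) (.nd (nat_lit 22) 
(.lf (nat_lit 11132969) (dlOf (nat_lit 1) (nat_lit 0x800400160008660682))) 
(.lf (nat_lit 48881705) (dlOf (nat_lit 1) (nat_lit 0x20019440201)))) (.nd (nat_lit 6) 
(.nd (nat_lit 23) 
(.lf (nat_lit 3792937) (dlOf (nat_lit 5) (nat_lit 0x5da50003ecf8001750801aa40c0013b520003da70003ed28000f68c0017b3e0003d9d0005ea10035443800476a4001bb4a000dda30008ecf8003f50801aa0140023b52000fd9f0007ea100353c180008008000400200040008220a03))) 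
(.lf (nat_lit 45735977) (dlOf (nat_lit 1) (nat_lit 0x2c00080030002008a0009360203)))) 
(.lf (nat_lit 28958953) (dlOf (nat_lit 1) (nat_lit 0x200028da0601))))) (.nd (nat_lit 6) 
(.nd (nat_lit 8) (.nd (nat_lit 9) 
(.lf (nat_lit 3492405289) (dlOf (nat_lit 3) (nat_lit 0x100880002402000e044000110180c0c00))) 
(.lf (nat_lit 473555497) (dlOf (nat_lit 1) (nat_lit 0x18008000c00200020008f68903)))) 
(.lf (nat_lit 5774106921) (dlOf (nat_lit 1) (nat_lit 0x8008000800200020008108203)))) 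
(.nd (nat_lit 26) (.lf (nat_lit 1344921705) (dlOf (nat_lit 1) (nat_lit 0xc00400020008991a02))) 
(.lf (nat_lit 472506473) (dlOf (nat_lit 1) (nat_lit 0x628008025c002006a0008991a03)))))))) 
(.nd (nat_lit 28) (.nd (nat_lit 19) (.nd (nat_lit 27) (.nd (nat_lit 6) (.nd (nat_lit 21) 
(.nd (nat_lit 20) (.lf (nat_lit 537255977) (dlOf (nat_lit 1) (nat_lit 0x20018070801))) 
(.lf (nat_lit 9822249) (dlOf (nat_lit 1) (nat_lit 0x8008000400200080008580283)))) (.nd (nat_lit 22) 
(.lf (nat_lit 61202473) (dlOf (nat_lit 1) (nat_lit 0x4004000600198e0202))) 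
(.lf (nat_lit 48619561) (dlOf (nat_lit 1) (nat_lit 0x20009420201))))) (.nd (nat_lit 7) 
(.nd (nat_lit 8) (.lf (nat_lit 38134889) (dlOf (nat_lit 1) (nat_lit 0x800200a20009132982))) 
(.lf (nat_lit 21356905) (dlOf (nat_lit 1) (nat_lit 0x40028a35201)))) 
(.lf (nat_lit 28696809) (dlOf (nat_lit 1) (nat_lit 0x400200020008da0602))))) (.nd (nat_lit 29) 
(.nd (nat_lit 9) 
(.lf (nat_lit 3355828265) (dlOf (nat_lit 12) (nat_lit 0xd50000000ac0402dc0600004a02024802c0002281008e0180001080805080c004e003002b400300dc0000000c82003480c001a403000d20000001883000c0000000c0080a7006007240000002d0403540000001601009e00000005c08015806000026040078002000e0008120682))) 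
(.nd (nat_lit 26) 
(.lf (nat_lit 134603305) (dlOf (nat_lit 2) (nat_lit 0xf80f40000004009c00400a40008090e02))) 
(.lf (nat_lit 201712169) (dlOf (nat_lit 2) (nat_lit 0xf80f40000004009c00400a40008090e02))))) 
(.nd (nat_lit 6) 
(.lf (nat_lit 3892699177) (dlOf (nat_lit 3) (nat_lit 0x67015006680a001ac04f001d0238016011803a4088001c04302380190096008c0014044046401c027300a800600500210008000541c00340470026023000108100448008002c002011400081d0683))) 
(.nd (nat_lit 7) (.lf (nat_lit 1745217897) (dlOf (nat_lit 1) (nat_lit 0xa000280e4e81))) 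
(.lf (nat_lit 2886068457) (dlOf (nat_lit 4) (nat_lit 0x300800001b02002a040000100d0000804c00600000000b08004204000230000000281000b8008003400200080008144b03))))))) 
(.nd (nat_lit 21) (.nd (nat_lit 20) (.nd (nat_lit 23) 
(.lf (nat_lit 68018217) (dlOf (nat_lit 2) (nat_lit 0x4047000158080008008003c002000400083a0683))) 
(.lf (nat_lit 59629609) (dlOf (nat_lit 1) (nat_lit 0x400400120009820202)))) (.nd (nat_lit 22) 
(.lf (nat_lit 27123753) (dlOf (nat_lit 1) (nat_lit 0x20028ca0681))) (.nd (nat_lit 23) 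
(.lf (nat_lit 22929449) (dlOf (nat_lit 1) (nat_lit 0x18008000800200020008b40683))) 
(.lf (nat_lit 14540841) (dlOf (nat_lit 1) (nat_lit 0xcc0018760901)))))) (.nd (nat_lit 22) 
(.nd (nat_lit 7) (.nd (nat_lit 11) 
(.lf (nat_lit 2755519017) (dlOf (nat_lit 3) (nat_lit 0x2c038000610200080660007011000088100090008005c002000400081b0e03))) 
(.lf (nat_lit 54389289) (dlOf (nat_lit 1) (nat_lit 0x20019655181)))) 
(.lf (nat_lit 20832425) (dlOf (nat_lit 1) (nat_lit 0x4004000200089e2c82)))) (.nd (nat_lit 6) 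
(.nd (nat_lit 7) 
(.lf (nat_lit 16637993) (dlOf (nat_lit 3) (nat_lit 0x2400000022408012800000110040018002001a00088c0782))) 
(.lf (nat_lit 8250793) (dlOf (nat_lit 1) (nat_lit 0x400200020008513602)))) 
(.lf (nat_lit 50193769) (dlOf (nat_lit 1) (nat_lit 0x400200fc00094c3482))))))) (.nd (nat_lit 26) 
(.nd (nat_lit 20) (.nd (nat_lit 27) (.nd (nat_lit 21) 
(.lf (nat_lit 5100658729) (dlOf (nat_lit 1) (nat_lit 0x20008120a81))) 
(.lf (nat_lit 3492143145) (dlOf (nat_lit 2) (nat_lit 0x8508002c4040004004000200080a0982)))) 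
(.nd (nat_lit 8) (.lf (nat_lit 4698005545) (dlOf (nat_lit 1) (nat_lit 0x90004000e00080e0a02))) 
(.lf (nat_lit 5771750185) (dlOf (nat_lit 1) (nat_lit 0x20018005c01))))) (.nd (nat_lit 6) 
(.nd (nat_lit 9) (.lf (nat_lit 1345709097) (dlOf (nat_lit 1) (nat_lit 0x20008dd2881))) 
(.lf (nat_lit 3493716521) (dlOf (nat_lit 3) (nat_lit 0x2c038000640200080660007011000088100090008005c002000400081b0e03)))) 
(.lf (nat_lit 5772797161) (dlOf (nat_lit 1) (nat_lit 0x800200020008092e82))))) (.nd (nat_lit 6) 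
(.nd (nat_lit 27) (.nd (nat_lit 29) (.nd (nat_lit 30) 
(.lf (nat_lit 2483413033) (dlOf (nat_lit 1) (nat_lit 0x120004007200081b0002))) 
(.lf (nat_lit 1409671209) (dlOf (nat_lit 1) (nat_lit 0x1400080078002002a0008070883)))) 
(.lf (nat_lit 1946542121) (dlOf (nat_lit 4) (nat_lit 0x1200a40004804006405200022020002029000100180c0c00)))) 
(.nd (nat_lit 29) 
(.lf (nat_lit 2617630761) (dlOf (nat_lit 2) (nat_lit 0x4300ac0074054000560400020018110601))) 
(.lf (nat_lit 4228243497) (dlOf (nat_lit 3) (nat_lit 0x38032006a40100140190035180801a80080074002005c0008090003))))) 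
(.nd (nat_lit 10) (.nd (nat_lit 8) 
(.lf (nat_lit 470671465) (dlOf (nat_lit 1) (nat_lit 0x400200020008150282))) 
(.lf (nat_lit 3557155177) (dlOf (nat_lit 1) (nat_lit 0x20018130981)))) (.nd (nat_lit 19) 
(.lf (nat_lit 872801641) (dlOf (nat_lit 1) (nat_lit 0x600180e3481))) 
(.lf (nat_lit 472769897) (dlOf (nat_lit 1) (nat_lit 0x20028b03481))))))))))))

end

end Pool.Agent.Lib.MP_5854e1_co.Cz

namespace Pool.Agent.Lib.MP_5854e1_co.Cz

noncomputable section

noncomputable def tz100 : DT := (.nd (nat_lit 5) (.nd (nat_lit 18) (.nd (nat_lit 3) 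
(.nd (nat_lit 6) (.nd (nat_lit 28) (.nd (nat_lit 10) (.nd (nat_lit 20) (.nd (nat_lit 15) 
(.nd (nat_lit 23) (.nd (nat_lit 19) 
(.lf (nat_lit 23093264) (dlOf (nat_lit 3) (nat_lit 0x892c1009495b80498ada01264b080c925780008214023960800daada00474af0000ec183c18008011c00201380008b50103))) 
(.lf (nat_lit 2819121168) (dlOf (nat_lit 2) (nat_lit 0x2701b0000000800480080038002002600081a0483)))) 
(.nd (nat_lit 8) (.lf (nat_lit 25190416) (dlOf (nat_lit 1) (nat_lit 0x240018bf0881))) 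
(.lf (nat_lit 8413968) (dlOf (nat_lit 1) (nat_lit 0x20028512101))))) (.nd (nat_lit 7) 
(.nd (nat_lit 19) (.lf (nat_lit 52486160) (dlOf (nat_lit 1) (nat_lit 0x400200020009540282))) 
(.nd (nat_lit 21) 
(.lf (nat_lit 4362657808) (dlOf (nat_lit 1) (nat_lit 0x100080020002004200080c0103))) 
(.lf (nat_lit 27844624) (dlOf (nat_lit 13) (nat_lit 0xaae50002281000857280011008004ab9400255a60004104000eae50002001000557280012b4c0007c08001d5ca0003d02000aae50001e01000657280032b8c0006e08000d6040003602000aae50001a8100055728000d008003ab940000004004000200040008d30282))))) 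
(.nd (nat_lit 11) (.lf (nat_lit 671146384) (dlOf (nat_lit 1) (nat_lit 0x200280b0781))) 
(.lf (nat_lit 56682896) (dlOf (nat_lit 1) (nat_lit 0x60029734e81)))))) (.nd (nat_lit 19) 
(.nd (nat_lit 21) (.nd (nat_lit 22) (.nd (nat_lit 23) 
(.lf (nat_lit 2752536592) (dlOf (nat_lit 1) (nat_lit 0x180080080002000c0008020483))) 
(.lf (nat_lit 59793424) (dlOf (nat_lit 1) (nat_lit 0x2980080004002002c0009830283)))) 
(.lf (nat_lit 13656080) (dlOf (nat_lit 1) (nat_lit 0x8008000400200020008740103)))) (.nd (nat_lit 9) 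
(.lf (nat_lit 28336144) (dlOf (nat_lit 1) (nat_lit 0x4004000a0008d80682))) 
(.lf (nat_lit 19948048) (dlOf (nat_lit 1) (nat_lit 0x1600189d1481))))) (.nd (nat_lit 7) 
(.nd (nat_lit 15) (.lf (nat_lit 24666128) (dlOf (nat_lit 1) (nat_lit 0x7e0008bb0101))) 
(.lf (nat_lit 24698896) (dlOf (nat_lit 1) (nat_lit 0x160028bb0101)))) 
(.lf (nat_lit 54028688) (dlOf (nat_lit 2) (nat_lit 0x162ff0018360400a0004001e00095f4e82)))))) 
(.nd (nat_lit 7) (.nd (nat_lit 25) (.nd (nat_lit 9) (.nd (nat_lit 26) 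
(.lf (nat_lit 5502985232) (dlOf (nat_lit 2) (nat_lit 0x6008001d0c0800a0008000800200460008002883))) 
(.lf (nat_lit 2348868624) (dlOf (nat_lit 3) (nat_lit 0x40040001401c002200000e2c030006008006fb00800f00080100002004a0008002883)))) 
(.lf (nat_lit 6106932752) (dlOf (nat_lit 1) (nat_lit 0xa0028003681)))) (.nd (nat_lit 11) 
(.nd (nat_lit 15) (.lf (nat_lit 39347216) (dlOf (nat_lit 1) (nat_lit 0x8008000400200020009192883))) 
(.lf (nat_lit 50390032) (dlOf (nat_lit 1) (nat_lit 0xa00294c2881)))) 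
(.lf (nat_lit 46722064) (dlOf (nat_lit 1) (nat_lit 0x620009385f81))))) (.nd (nat_lit 9) 
(.nd (nat_lit 8) (.nd (nat_lit 11) 
(.lf (nat_lit 3355505808) (dlOf (nat_lit 1) (nat_lit 0x5000400020008009502))) 
(.lf (nat_lit 27792) (dlOf (nat_lit 1) (nat_lit 0x20028006201)))) 
(.lf (nat_lit 5502952848) (dlOf (nat_lit 1) (nat_lit 0x1c0018003601)))) (.nd (nat_lit 26) 
(.nd (nat_lit 27) 
(.lf (nat_lit 2684384912) (dlOf (nat_lit 10) (nat_lit 0x800e00060000000bc10011803800880000002e04004e00e00210000000b410002803800200000000a04005a000000030100060000000140800c803800100000000204000a00000000810020007000e80000000008000c004003a0018009e82))) 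
(.lf (nat_lit 2281731728) (dlOf (nat_lit 3) (nat_lit 0x802600012810002013800380980004808004800400240018009e82)))) 
(.lf (nat_lit 6643807888) (dlOf (nat_lit 4) (nat_lit 0xe806a0014034000f0000000641801a80d4002006800140000000903003301a800600d00020000000000600060008009e81))))))) 
(.nd (nat_lit 27) (.nd (nat_lit 8) (.nd (nat_lit 19) (.nd (nat_lit 7) (.nd (nat_lit 9) 
(.lf (nat_lit 3490734096) (dlOf (nat_lit 1) (nat_lit 0x180080080002000c0008020483))) 
(.lf (nat_lit 1342238224) (dlOf (nat_lit 1) (nat_lit 0xc004000a0008007082)))) 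
(.lf (nat_lit 4093699216) (dlOf (nat_lit 1) (nat_lit 0x20028002b01)))) (.nd (nat_lit 7) 
(.nd (nat_lit 26) 
(.lf (nat_lit 805888016) (dlOf (nat_lit 1) (nat_lit 0x480080054002000200081e0803))) 
(.lf (nat_lit 3557351440) (dlOf (nat_lit 7) (nat_lit 0x740c20052102002c061000db010025030800d01800035e08002c0c2000c060000d682001203080088180002dc0800480c2001c03800070110000001800380080208002000c00081c0483)))) 
(.lf (nat_lit 1342726288) (dlOf (nat_lit 2) (nat_lit 0x104a0001040801b00080014002008400080c0103))))) 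
(.nd (nat_lit 19) (.nd (nat_lit 9) (.nd (nat_lit 15) 
(.lf (nat_lit 1342208272) (dlOf (nat_lit 9) (nat_lit 0x40180003381000c04e800164080070274000411c0004e04002009d00020470001341001082740008c04003013a001408e0002282000204e800100080070274000811c0003d040004001800aa81))) 
(.lf (nat_lit 1342241040) (dlOf (nat_lit 13) (nat_lit 0x10584000813a0005904000609d0002c0100050b080028274000ae08000c2c20004f02000e161000704e800582380009c0c001c2c2000c09d000a047000134180020584000813a0004604000a161000504e800482380008a0c000813a0004402000609d000200100010b0800182740007c08001c2c2001009d000c0470000f418005000800580020014000800aa83)))) 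
(.lf (nat_lit 2952818448) (dlOf (nat_lit 3) (nat_lit 0x300e00263408001807001318040168004001e0008007482)))) 
(.nd (nat_lit 7) 
(.lf (nat_lit 1345872144) (dlOf (nat_lit 2) (nat_lit 0x207d8000380803e8008004c002002c0008e03b03))) 
(.nd (nat_lit 15) (.lf (nat_lit 3490212240) (dlOf (nat_lit 1) (nat_lit 0x400200020008004e82))) 
(.lf (nat_lit 3490245008) (dlOf (nat_lit 1) (nat_lit 0x20018004e81))))))) (.nd (nat_lit 26) 
(.nd (nat_lit 8) (.nd (nat_lit 7) (.nd (nat_lit 9) 
(.lf (nat_lit 402713616) (dlOf (nat_lit 1) (nat_lit 0x80008005f81))) 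
(.lf (nat_lit 1476944400) (dlOf (nat_lit 1) (nat_lit 0x1340008307b81)))) 
(.lf (nat_lit 3087035536) (dlOf (nat_lit 2) (nat_lit 0x801f001300b80008c100020008007400200200008006203)))) 
(.nd (nat_lit 10) (.nd (nat_lit 11) 
(.lf (nat_lit 1476944144) (dlOf (nat_lit 1) (nat_lit 0x18008000400200020008303b03))) 
(.lf (nat_lit 1476426000) (dlOf (nat_lit 9) (nat_lit 0x2400e00200000002f02000800380008000000ba08001800e00220000002e02000100b8003801c007c0000005106000a0100006003800300100018004000a001001c00000014030002005c000400e00045040006007000200100050038000f408005800801040020036000800aa83)))) 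
(.lf (nat_lit 4160779536) (dlOf (nat_lit 1) (nat_lit 0x8004000a0008009682))))) (.nd (nat_lit 15) 
(.nd (nat_lit 7) (.nd (nat_lit 8) 
(.lf (nat_lit 3691016208) (dlOf (nat_lit 1) (nat_lit 0x10002002a0008007a82))) 
(.lf (nat_lit 3691018512) (dlOf (nat_lit 16) (nat_lit 0x1b8050000be0403880280005e0201580140002e8100ba00a000170080358050000aa04057c0360002018009800a000150180b0006c000803001a2014000298300a500a0001440804e8050000a004057803600c00140002282003400a0000fc0803b8050000780400e403a0002e02001601d0001681000200e80009c0804b0008016c0020006000800aa83)))) 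
(.lf (nat_lit 470311056) (dlOf (nat_lit 2) (nat_lit 0x104a0001040801b00080014002008400080c0103)))) 
(.nd (nat_lit 19) 
(.lf (nat_lit 470867984) (dlOf (nat_lit 2) (nat_lit 0x200480012302000200281c0481))) 
(.nd (nat_lit 20) 
(.lf (nat_lit 4228440080) (dlOf (nat_lit 1) (nat_lit 0x100080020002004200080c0103))) 
(.lf (nat_lit 471392272) (dlOf (nat_lit 1) (nat_lit 0x200182f0781))))))))) (.nd (nat_lit 28) 
(.nd (nat_lit 15) (.nd (nat_lit 10) (.nd (nat_lit 19) (.nd (nat_lit 23) (.nd (nat_lit 29) 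
(.nd (nat_lit 24) (.lf (nat_lit 2281726032) (dlOf (nat_lit 1) (nat_lit 0x1a0018000001))) 
(.lf (nat_lit 16801872) (dlOf (nat_lit 2) (nat_lit 0x1b043f00d00d580017c1000080080008002000600088e0203)))) 
(.nd (nat_lit 8) (.lf (nat_lit 2684379216) (dlOf (nat_lit 2) (nat_lit 0x2a03700aef818000000))) 
(.lf (nat_lit 536897872) (dlOf (nat_lit 2) (nat_lit 0x381740002604000c00200020008004d82))))) 
(.nd (nat_lit 9) (.nd (nat_lit 21) 
(.lf (nat_lit 25190480) (dlOf (nat_lit 2) (nat_lit 0x680000009e04000c00200020008bf0d02))) 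
(.lf (nat_lit 14704720) (dlOf (nat_lit 1) (nat_lit 0x20008770701)))) 
(.lf (nat_lit 41970256) (dlOf (nat_lit 1) (nat_lit 0x8008000400200020009245283))))) 
(.nd (nat_lit 26) (.nd (nat_lit 9) 
(.lf (nat_lit 3694672) (dlOf (nat_lit 1) (nat_lit 0x400200020008210f82))) 
(.lf (nat_lit 54028880) (dlOf (nat_lit 4) (nat_lit 0x20c1100175fe000a2fe8006d6540002a080020bfc00135fd00082ca8000520c00418260024bfc00105fd000baca800008100090004000800195f5282)))) 
(.nd (nat_lit 20) 
(.lf (nat_lit 67657808) (dlOf (nat_lit 2) (nat_lit 0x36803c0005f02001600182d0201))) 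
(.lf (nat_lit 2755158096) (dlOf (nat_lit 3) (nat_lit 0x2021c0001681002d10e000904080005608001c004001a0018121002)))))) 
(.nd (nat_lit 12) (.nd (nat_lit 7) 
(.lf (nat_lit 2147509840) (dlOf (nat_lit 1) (nat_lit 0x4c0018003881))) (.nd (nat_lit 19) 
(.lf (nat_lit 1207985360) (dlOf (nat_lit 1) (nat_lit 0x20028002d81))) 
(.lf (nat_lit 61367504) (dlOf (nat_lit 1) (nat_lit 0x10008000400200020009922d83))))) 
(.nd (nat_lit 8) (.lf (nat_lit 134249680) (dlOf (nat_lit 1) (nat_lit 0x40040002000800c282))) 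
(.lf (nat_lit 604009936) (dlOf (nat_lit 10) (nat_lit 0x44078001a039000e01b0001a41800800f0000d00400540780006602000603c0002701000501e0001100800a00e8005006e00080340004006000280240004814007c0000002002000803a000401b80007c1001c80000003a04006800201540008009b02)))))) 
(.nd (nat_lit 26) (.nd (nat_lit 24) (.nd (nat_lit 8) (.nd (nat_lit 19) 
(.lf (nat_lit 14737488) (dlOf (nat_lit 5) (nat_lit 0x6b1fbc0004c040084fde0002502000c7ef000120100023f78000600800180080030002000a0008770703))) 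
(.lf (nat_lit 134799440) (dlOf (nat_lit 1) (nat_lit 0x400180c1601)))) 
(.lf (nat_lit 536930640) (dlOf (nat_lit 2) (nat_lit 0x1c0ba000130200020028004d81)))) 
(.nd (nat_lit 7) (.nd (nat_lit 23) 
(.lf (nat_lit 16834640) (dlOf (nat_lit 2) (nat_lit 0xef2fa806990fc000be080020004003c00188e0202))) 
(.lf (nat_lit 25223248) (dlOf (nat_lit 2) (nat_lit 0x600000027818bf0d00)))) 
(.lf (nat_lit 19983824) (dlOf (nat_lit 1) (nat_lit 0x80080004002000200089d6d03))))) 
(.nd (nat_lit 27) (.nd (nat_lit 7) (.nd (nat_lit 9) 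
(.lf (nat_lit 2756239440) (dlOf (nat_lit 2) (nat_lit 0x800f0000b00800f8008004c002000a0008220d03))) 
(.lf (nat_lit 4899006032) (dlOf (nat_lit 1) (nat_lit 0x400400020018053882)))) 
(.lf (nat_lit 2751522768) (dlOf (nat_lit 1) (nat_lit 0x20018004501)))) (.nd (nat_lit 7) 
(.nd (nat_lit 9) (.lf (nat_lit 201908304) (dlOf (nat_lit 1) (nat_lit 0x6c004004c00080c1902))) 
(.lf (nat_lit 4496352848) (dlOf (nat_lit 1) (nat_lit 0x20028053881)))) 
(.lf (nat_lit 201385936) (dlOf (nat_lit 1) (nat_lit 0x1c0018004501))))))) (.nd (nat_lit 8) 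
(.nd (nat_lit 9) (.nd (nat_lit 7) (.nd (nat_lit 15) (.nd (nat_lit 20) 
(.lf (nat_lit 3154665552) (dlOf (nat_lit 2) (nat_lit 0x6401440280066000202400a000e801e805800ac00a0005f0c00020018310201))) 
(.lf (nat_lit 3493355600) (dlOf (nat_lit 3) (nat_lit 0x202070001601002d103800904200005408001c004001a0018121002)))) 
(.nd (nat_lit 10) 
(.lf (nat_lit 3494436944) (dlOf (nat_lit 2) (nat_lit 0x800f0000ac0800f8008004c002000a0008220d03))) 
(.lf (nat_lit 2080433232) (dlOf (nat_lit 1) (nat_lit 0x400400020018092882))))) (.nd (nat_lit 10) 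
(.nd (nat_lit 11) (.lf (nat_lit 5772435664) (dlOf (nat_lit 1) (nat_lit 0x2e0028090901))) 
(.lf (nat_lit 1476425936) (dlOf (nat_lit 1) (nat_lit 0x2002800a881)))) 
(.lf (nat_lit 6375400656) (dlOf (nat_lit 1) (nat_lit 0x400400020008002d82))))) (.nd (nat_lit 12) 
(.nd (nat_lit 10) (.nd (nat_lit 19) 
(.lf (nat_lit 1345350224) (dlOf (nat_lit 1) (nat_lit 0x20028b55281))) 
(.lf (nat_lit 472410704) (dlOf (nat_lit 2) (nat_lit 0x90b3800c8598002428600240cd000b03a800481cc0003a18000400400180018985282)))) 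
(.lf (nat_lit 6308292176) (dlOf (nat_lit 1) (nat_lit 0x8008000c00200020008053883)))) 
(.nd (nat_lit 7) (.nd (nat_lit 26) 
(.lf (nat_lit 1476426320) (dlOf (nat_lit 1) (nat_lit 0x24002002e000800b682))) 
(.lf (nat_lit 3691018832) (dlOf (nat_lit 1) (nat_lit 0x20008003c0020034000800b683)))) 
(.lf (nat_lit 1342240464) (dlOf (nat_lit 1) (nat_lit 0x30000800a001)))))) (.nd (nat_lit 7) 
(.nd (nat_lit 9) (.nd (nat_lit 10) (.nd (nat_lit 26) 
(.lf (nat_lit 1342726480) (dlOf (nat_lit 10) (nat_lit 0x2681c60074000000130100a4871802e43780152000000258301250e3000506f001300000004a06004a1c6000248100e40e3004d0000000900800082ec0003a0200ac000000190100d40000000c40800b0664000000403e800400d600080c0602))) 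
(.lf (nat_lit 470311248) (dlOf (nat_lit 10) (nat_lit 0x2681c6007400000014c100a4871802e43780152000000290301250e3000506f001300000005106004a1c6000280100e40e3004d00000009e0800082f0000410200ac000000198100d40000000c80800b0674000000403e800400d600080c0602)))) 
(.nd (nat_lit 11) 
(.lf (nat_lit 5773485392) (dlOf (nat_lit 2) (nat_lit 0x2047c00044040010002001e00080e3302))) 
(.lf (nat_lit 2483088720) (dlOf (nat_lit 1) (nat_lit 0x100080008002001a0008006a03))))) 
(.nd (nat_lit 15) (.lf (nat_lit 1342207824) (dlOf (nat_lit 1) (nat_lit 0x4002800a201))) 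
(.lf (nat_lit 1342240592) (dlOf (nat_lit 1) (nat_lit 0x28002000a000800a202))))) (.nd (nat_lit 10) 
(.nd (nat_lit 11) (.lf (nat_lit 1009279440) (dlOf (nat_lit 1) (nat_lit 0x200290e1101))) 
(.lf (nat_lit 1409346000) (dlOf (nat_lit 1) (nat_lit 0x5a0018004e81)))) (.nd (nat_lit 15) 
(.nd (nat_lit 26) 
(.lf (nat_lit 2952820176) (dlOf (nat_lit 6) (nat_lit 0x5500a0001b00802a0050000d60400080280006a02000a0140003201002f00a000138080080008003800200560008009b03))) 
(.lf (nat_lit 469792208) (dlOf (nat_lit 3) (nat_lit 0x60470000800800082380003804001c00400020008009b02)))) 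
(.lf (nat_lit 469824976) (dlOf (nat_lit 3) (nat_lit 0x408e0001001000104e800102380003808001000200160008009b02))))))))) 
(.nd (nat_lit 15) (.nd (nat_lit 7) (.nd (nat_lit 19) (.nd (nat_lit 8) (.nd (nat_lit 10) 
(.nd (nat_lit 22) (.nd (nat_lit 20) 
(.lf (nat_lit 10510360) (dlOf (nat_lit 1) (nat_lit 0xc004000200085e0a82))) 
(.lf (nat_lit 28336152) (dlOf (nat_lit 1) (nat_lit 0x20008d80681)))) (.nd (nat_lit 9) 
(.lf (nat_lit 14704664) (dlOf (nat_lit 2) (nat_lit 0x1122fa806790fc034035600b21a500d0018803700ac003d418000800400040018770082))) 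
(.lf (nat_lit 3493880344) (dlOf (nat_lit 2) (nat_lit 0xa08a000668181b0d80))))) (.nd (nat_lit 11) 
(.nd (nat_lit 6) (.lf (nat_lit 6106932248) (dlOf (nat_lit 1) (nat_lit 0x508004011c0008002882))) 
(.lf (nat_lit 39871576) (dlOf (nat_lit 1) (nat_lit 0xc00191f2901)))) (.nd (nat_lit 28) 
(.lf (nat_lit 1275096088) (dlOf (nat_lit 1) (nat_lit 0x27800200240008006002))) 
(.lf (nat_lit 5301627928) (dlOf (nat_lit 3) (nat_lit 0x12031000178100090188000b80800e800800e800200080008006003)))))) 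
(.nd (nat_lit 6) (.nd (nat_lit 11) (.nd (nat_lit 26) 
(.lf (nat_lit 2818597144) (dlOf (nat_lit 1) (nat_lit 0x3400200060008000a82))) 
(.lf (nat_lit 3019923736) (dlOf (nat_lit 1) (nat_lit 0x400400020008000a82)))) (.nd (nat_lit 9) 
(.lf (nat_lit 4362103064) (dlOf (nat_lit 1) (nat_lit 0x48008002400200120008004b83))) 
(.lf (nat_lit 2952818456) (dlOf (nat_lit 4) (nat_lit 0x3340380098e0200da01c004c681008000e002630080b3800800d8002004c0008007483))))) 
(.nd (nat_lit 9) (.nd (nat_lit 10) 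
(.lf (nat_lit 201357656) (dlOf (nat_lit 1) (nat_lit 0x2002800ab81))) 
(.lf (nat_lit 4294995288) (dlOf (nat_lit 1) (nat_lit 0xc00400020008006a82)))) (.nd (nat_lit 11) 
(.lf (nat_lit 1476425560) (dlOf (nat_lit 1) (nat_lit 0x40020002000800a282))) 
(.lf (nat_lit 2952818520) (dlOf (nat_lit 2) (nat_lit 0xd00e0012dc080128008003c002004c0008007783))))))) 
(.nd (nat_lit 31) (.nd (nat_lit 22) (.nd (nat_lit 9) (.nd (nat_lit 26) 
(.lf (nat_lit 805855256) (dlOf (nat_lit 1) (nat_lit 0xa800081c0a01))) (.nd (nat_lit 29) 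
(.lf (nat_lit 4362625048) (dlOf (nat_lit 2) (nat_lit 0x7800000e72040148002006e00080b0a02))) 
(.lf (nat_lit 1678270488) (dlOf (nat_lit 1) (nat_lit 0xa800081c0a01))))) (.nd (nat_lit 6) 
(.lf (nat_lit 8939032) (dlOf (nat_lit 1) (nat_lit 0x40028513701))) 
(.lf (nat_lit 54028888) (dlOf (nat_lit 3) (nat_lit 0x6c120001281001a6090000a9ec00046080054004000800095f5302))))) 
(.nd (nat_lit 6) (.nd (nat_lit 21) 
(.lf (nat_lit 30957592) (dlOf (nat_lit 2) (nat_lit 0x65c18033a4080060008001800200240008e50a03))) 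
(.lf (nat_lit 24666136) (dlOf (nat_lit 3) (nat_lit 0x1b448000540800eda440052d12000140400200018bb0481)))) 
(.nd (nat_lit 8) (.lf (nat_lit 4743256) (dlOf (nat_lit 1) (nat_lit 0x200182b0801))) 
(.lf (nat_lit 23617880) (dlOf (nat_lit 1) (nat_lit 0x480080018002000e0008b80683)))))) 
(.nd (nat_lit 27) (.nd (nat_lit 20) (.nd (nat_lit 6) 
(.lf (nat_lit 3221774360) (dlOf (nat_lit 1) (nat_lit 0xc00200080008180902))) 
(.lf (nat_lit 3221774424) (dlOf (nat_lit 1) (nat_lit 0x20018181101)))) (.nd (nat_lit 26) 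
(.lf (nat_lit 3491258392) (dlOf (nat_lit 1) (nat_lit 0x80008080501))) 
(.lf (nat_lit 2753060888) (dlOf (nat_lit 1) (nat_lit 0x80008080501))))) (.nd (nat_lit 6) 
(.nd (nat_lit 28) (.lf (nat_lit 3959971864) (dlOf (nat_lit 1) (nat_lit 0xc00200080008180902))) 
(.lf (nat_lit 4228407320) (dlOf (nat_lit 2) (nat_lit 0x78000019c4040148002006e00080b0a02)))) 
(.nd (nat_lit 28) (.lf (nat_lit 3959971928) (dlOf (nat_lit 1) (nat_lit 0x20018181101))) 
(.lf (nat_lit 3154665560) (dlOf (nat_lit 1) (nat_lit 0x68008000800200080008310383)))))))) 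
(.nd (nat_lit 6) (.nd (nat_lit 26) (.nd (nat_lit 11) (.nd (nat_lit 8) (.nd (nat_lit 9) 
(.lf (nat_lit 49308824) (dlOf (nat_lit 1) (nat_lit 0x3a0019462b81))) 
(.lf (nat_lit 1342206616) (dlOf (nat_lit 1) (nat_lit 0x20018008c81)))) 
(.lf (nat_lit 1342726552) (dlOf (nat_lit 2) (nat_lit 0x50154003828180c0780)))) (.nd (nat_lit 20) 
(.nd (nat_lit 9) (.lf (nat_lit 2550163864) (dlOf (nat_lit 1) (nat_lit 0xa0018004e81))) 
(.lf (nat_lit 3489692568) (dlOf (nat_lit 1) (nat_lit 0x30004001c000800bc82)))) (.nd (nat_lit 10) 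
(.lf (nat_lit 37251480) (dlOf (nat_lit 1) (nat_lit 0x4002001200090d4e82))) 
(.lf (nat_lit 19951000) (dlOf (nat_lit 2) (nat_lit 0x86a2000dc02000200189d6d01)))))) 
(.nd (nat_lit 30) (.nd (nat_lit 8) (.nd (nat_lit 27) 
(.lf (nat_lit 4362102936) (dlOf (nat_lit 1) (nat_lit 0x3c0008004801))) 
(.lf (nat_lit 469788824) (dlOf (nat_lit 1) (nat_lit 0x3400400220008004802)))) (.nd (nat_lit 11) 
(.lf (nat_lit 3154141592) (dlOf (nat_lit 2) (nat_lit 0x5023800468080008008001000200040008001003))) 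
(.lf (nat_lit 4764756376) (dlOf (nat_lit 1) (nat_lit 0xe0018004e81))))) (.nd (nat_lit 11) 
(.nd (nat_lit 19) 
(.lf (nat_lit 3556794776) (dlOf (nat_lit 1) (nat_lit 0x10008000c00200260008001003))) 
(.lf (nat_lit 6375891352) (dlOf (nat_lit 1) (nat_lit 0x10c00400620008001002)))) (.nd (nat_lit 8) 
(.lf (nat_lit 3691018904) (dlOf (nat_lit 2) (nat_lit 0x500b0000000801a000800dc0020052000800b683))) 
(.lf (nat_lit 3288361368) (dlOf (nat_lit 1) (nat_lit 0x200018004e81))))))) (.nd (nat_lit 26) 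
(.nd (nat_lit 8) (.nd (nat_lit 22) (.nd (nat_lit 9) 
(.lf (nat_lit 1074290904) (dlOf (nat_lit 1) (nat_lit 0x4004000400081b0482))) 
(.lf (nat_lit 19954392) (dlOf (nat_lit 1) (nat_lit 0x4002000200089db982)))) (.nd (nat_lit 31) 
(.lf (nat_lit 1346396376) (dlOf (nat_lit 1) (nat_lit 0xec00400580008f60982))) 
(.lf (nat_lit 3493880024) (dlOf (nat_lit 2) (nat_lit 0x36606000001c080178008009c002006e00081b0483))))) 
(.nd (nat_lit 9) (.lf (nat_lit 134245848) (dlOf (nat_lit 1) (nat_lit 0x400400020008006d82))) 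
(.nd (nat_lit 11) 
(.lf (nat_lit 1073767384) (dlOf (nat_lit 1) (nat_lit 0x8008000400200020008002883))) 
(.lf (nat_lit 20474840) (dlOf (nat_lit 1) (nat_lit 0x1000189d5e01)))))) (.nd (nat_lit 27) 
(.nd (nat_lit 11) (.nd (nat_lit 12) (.nd (nat_lit 19) 
(.lf (nat_lit 2755682520) (dlOf (nat_lit 2) (nat_lit 0x42042202041f900fc0a98002501800180080070002002000081b0483))) 
(.lf (nat_lit 1946706136) (dlOf (nat_lit 1) (nat_lit 0x4004000400081b0482)))) 
(.lf (nat_lit 604008664) (dlOf (nat_lit 1) (nat_lit 0x34004000c0008008082)))) 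
(.lf (nat_lit 4362103000) (dlOf (nat_lit 3) (nat_lit 0x60330001b0100010198000c0080018008000800200060008004a83)))) 
(.nd (nat_lit 8) (.nd (nat_lit 11) 
(.lf (nat_lit 469790936) (dlOf (nat_lit 1) (nat_lit 0x400400060018008082))) 
(.lf (nat_lit 5838498008) (dlOf (nat_lit 1) (nat_lit 0x20018004a81)))) (.nd (nat_lit 9) 
(.lf (nat_lit 469792216) (dlOf (nat_lit 1) (nat_lit 0x40004000c0008009b02))) 
(.lf (nat_lit 1275096024) (dlOf (nat_lit 1) (nat_lit 0x540018005e01))))))))) (.nd (nat_lit 6) 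
(.nd (nat_lit 26) (.nd (nat_lit 21) (.nd (nat_lit 29) (.nd (nat_lit 10) (.nd (nat_lit 19) 
(.lf (nat_lit 43048984) (dlOf (nat_lit 1) (nat_lit 0x2e00292a0001))) (.nd (nat_lit 20) 
(.lf (nat_lit 3494436888) (dlOf (nat_lit 1) (nat_lit 0x8008000400200020008220883))) 
(.lf (nat_lit 1630232) (dlOf (nat_lit 1) (nat_lit 0x40018100481))))) (.nd (nat_lit 7) 
(.lf (nat_lit 1346432024) (dlOf (nat_lit 1) (nat_lit 0x160018f66001))) 
(.lf (nat_lit 5502985624) (dlOf (nat_lit 1) (nat_lit 0x18008000400200060008003603))))) 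
(.nd (nat_lit 9) (.nd (nat_lit 10) 
(.lf (nat_lit 1611194392) (dlOf (nat_lit 1) (nat_lit 0x10008001800200040008110183))) 
(.lf (nat_lit 5234551832) (dlOf (nat_lit 1) (nat_lit 0x400400020008056002)))) (.nd (nat_lit 11) 
(.nd (nat_lit 31) (.lf (nat_lit 939581976) (dlOf (nat_lit 1) (nat_lit 0x800080b0d81))) 
(.lf (nat_lit 3087065624) (dlOf (nat_lit 1) (nat_lit 0x8002000200080b0d82)))) 
(.lf (nat_lit 4026595864) (dlOf (nat_lit 1) (nat_lit 0xc00020012000800b282)))))) (.nd (nat_lit 19) 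
(.nd (nat_lit 20) (.nd (nat_lit 8) (.nd (nat_lit 22) 
(.lf (nat_lit 44097560) (dlOf (nat_lit 1) (nat_lit 0x1200292c0081))) 
(.lf (nat_lit 14737432) (dlOf (nat_lit 1) (nat_lit 0x20028770081)))) 
(.lf (nat_lit 10543384) (dlOf (nat_lit 1) (nat_lit 0x1200285f7f01)))) (.nd (nat_lit 9) 
(.lf (nat_lit 28368920) (dlOf (nat_lit 1) (nat_lit 0x400200120008d90402))) 
(.lf (nat_lit 40952344) (dlOf (nat_lit 1) (nat_lit 0x100019208701))))) (.nd (nat_lit 7) 
(.nd (nat_lit 8) 
(.lf (nat_lit 24698904) (dlOf (nat_lit 7) (nat_lit 0x3a5e480092eb80002c08017179200014020024bc9000098100125e48000480801daf240000a0400497920000402008a0028bb0481))) 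
(.lf (nat_lit 58253592) (dlOf (nat_lit 1) (nat_lit 0xc002000200097d7502)))) (.nd (nat_lit 8) 
(.lf (nat_lit 23650456) (dlOf (nat_lit 4) (nat_lit 0x8c5a0c046abf8000460401296830094afe0001141000c5a0c0016bf8000380400060008b80181))) 
(.lf (nat_lit 57207192) (dlOf (nat_lit 1) (nat_lit 0xa0029794e81))))))) (.nd (nat_lit 28) 
(.nd (nat_lit 8) (.nd (nat_lit 9) (.nd (nat_lit 22) 
(.lf (nat_lit 738779160) (dlOf (nat_lit 1) (nat_lit 0x10008001800200040008110183))) 
(.lf (nat_lit 2756239384) (dlOf (nat_lit 1) (nat_lit 0x8008000400200020008220883)))) 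
(.nd (nat_lit 7) 
(.lf (nat_lit 2348874264) (dlOf (nat_lit 2) (nat_lit 0x21008002ff00800c00080050002006e000800b283))) 
(.lf (nat_lit 201385624) (dlOf (nat_lit 1) (nat_lit 0x740018003a81))))) (.nd (nat_lit 7) 
(.nd (nat_lit 27) 
(.lf (nat_lit 3825262872) (dlOf (nat_lit 2) (nat_lit 0x80000007f02001000080b0481))) 
(.lf (nat_lit 1811996952) (dlOf (nat_lit 2) (nat_lit 0x4024000400f8008ec1000680080054002001a00080b0483)))) 
(.nd (nat_lit 10) (.lf (nat_lit 738255256) (dlOf (nat_lit 1) (nat_lit 0x200028001001))) 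
(.lf (nat_lit 5435876760) (dlOf (nat_lit 2) (nat_lit 0x200dc00478040044004001c0008003602)))))) 
(.nd (nat_lit 11) (.nd (nat_lit 9) 
(.lf (nat_lit 4228440088) (dlOf (nat_lit 1) (nat_lit 0x200080008002000400080c0483))) 
(.nd (nat_lit 21) 
(.lf (nat_lit 1543561752) (dlOf (nat_lit 2) (nat_lit 0x60140001d40800100080004002000a00080b0d83))) 
(.lf (nat_lit 1008787992) (dlOf (nat_lit 1) (nat_lit 0x200028f87e81))))) (.nd (nat_lit 7) 
(.nd (nat_lit 27) 
(.lf (nat_lit 5704313880) (dlOf (nat_lit 1) (nat_lit 0x8008000400200020008056003))) 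
(.lf (nat_lit 3154177048) (dlOf (nat_lit 1) (nat_lit 0x60018086001)))) 
(.lf (nat_lit 469821592) (dlOf (nat_lit 1) (nat_lit 0x8008000c00200060008004803))))))) 
(.nd (nat_lit 7) (.nd (nat_lit 21) (.nd (nat_lit 8) (.nd (nat_lit 12) (.nd (nat_lit 9) 
(.lf (nat_lit 1208016984) (dlOf (nat_lit 1) (nat_lit 0x20008090001))) 
(.lf (nat_lit 58780248) (dlOf (nat_lit 1) (nat_lit 0x4004000200097e5302)))) (.nd (nat_lit 26) 
(.lf (nat_lit 2952851544) (dlOf (nat_lit 1) (nat_lit 0x80018007d81))) 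
(.lf (nat_lit 3691049048) (dlOf (nat_lit 1) (nat_lit 0x1400400080008007d82))))) (.nd (nat_lit 10) 
(.lf (nat_lit 25747800) (dlOf (nat_lit 1) (nat_lit 0x8008000400200020008c10883))) 
(.lf (nat_lit 583000) (dlOf (nat_lit 1) (nat_lit 0x1000400080018003382))))) (.nd (nat_lit 20) 
(.nd (nat_lit 8) (.nd (nat_lit 22) 
(.lf (nat_lit 44097624) (dlOf (nat_lit 2) (nat_lit 0x1abfc0003102000200092c0701))) 
(.lf (nat_lit 14737496) (dlOf (nat_lit 1) (nat_lit 0x8008000400200020008770803)))) 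
(.lf (nat_lit 23650648) (dlOf (nat_lit 4) (nat_lit 0x85da0c0432bf8000560400c36830013afe000154100045a0c0006bf8000120400020008b80681)))) 
(.nd (nat_lit 9) (.nd (nat_lit 10) 
(.lf (nat_lit 472965208) (dlOf (nat_lit 1) (nat_lit 0x20018b70801))) 
(.lf (nat_lit 36758616) (dlOf (nat_lit 1) (nat_lit 0x20009072901)))) 
(.lf (nat_lit 19986008) (dlOf (nat_lit 1) (nat_lit 0x1500080004002000e00089d9c03)))))) 
(.nd (nat_lit 8) (.nd (nat_lit 10) (.nd (nat_lit 11) 
(.lf (nat_lit 3203288) (dlOf (nat_lit 2) (nat_lit 0x844c90011b818200480))) (.nd (nat_lit 27) 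
(.lf (nat_lit 2751523032) (dlOf (nat_lit 1) (nat_lit 0x40008004a81))) 
(.lf (nat_lit 2348869848) (dlOf (nat_lit 3) (nat_lit 0x100100001d0100080080000cc08009000800f000200620008004a83))))) 
(.nd (nat_lit 9) 
(.lf (nat_lit 2483088600) (dlOf (nat_lit 1) (nat_lit 0x20008006c00200480008006483))) 
(.nd (nat_lit 26) 
(.lf (nat_lit 2952853208) (dlOf (nat_lit 2) (nat_lit 0x600d0004800800000080004004000c000800a002))) 
(.lf (nat_lit 3691050712) (dlOf (nat_lit 1) (nat_lit 0x140040008001800a002)))))) (.nd (nat_lit 11) 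
(.nd (nat_lit 9) 
(.lf (nat_lit 5774041560) (dlOf (nat_lit 2) (nat_lit 0xb01c8008bc0800480080008002001600080f7b03))) 
(.lf (nat_lit 201384920) (dlOf (nat_lit 1) (nat_lit 0x20028002881)))) (.nd (nat_lit 26) 
(.nd (nat_lit 28) (.lf (nat_lit 4831898584) (dlOf (nat_lit 1) (nat_lit 0x20028055e01))) 
(.lf (nat_lit 6174075864) (dlOf (nat_lit 1) (nat_lit 0x400400020008055e02)))) 
(.lf (nat_lit 5704313816) (dlOf (nat_lit 1) (nat_lit 0x400400020008055e02)))))))))) 
(.nd (nat_lit 3) (.nd (nat_lit 15) (.nd (nat_lit 28) (.nd (nat_lit 6) (.nd (nat_lit 26) 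
(.nd (nat_lit 24) (.nd (nat_lit 29) (.nd (nat_lit 7) (.nd (nat_lit 19) 
(.lf (nat_lit 44326928) (dlOf (nat_lit 1) (nat_lit 0x80080030002000200092f0103))) 
(.lf (nat_lit 811024) (dlOf (nat_lit 1) (nat_lit 0x420008020481)))) 
(.lf (nat_lit 288656) (dlOf (nat_lit 1) (nat_lit 0x8c00080008002000e0008004203)))) 
(.nd (nat_lit 27) (.nd (nat_lit 10) 
(.lf (nat_lit 537157648) (dlOf (nat_lit 7) (nat_lit 0xde01bc08100da03b2066001a03000e0000003b541406c80de037406d01b0033000b018003b501000840b800df302001e024006c9010009012000c808401b2208001405402660240136010801f007801b0c1002e8002032c0008030882))) 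
(.lf (nat_lit 1610900496) (dlOf (nat_lit 1) (nat_lit 0x140028092881)))) (.nd (nat_lit 7) 
(.lf (nat_lit 671375376) (dlOf (nat_lit 2) (nat_lit 0x804c03b54040004004000e0018170882))) 
(.lf (nat_lit 1745117328) (dlOf (nat_lit 1) (nat_lit 0x280080010002000600080a2803)))))) 
(.nd (nat_lit 21) (.nd (nat_lit 19) (.nd (nat_lit 22) 
(.lf (nat_lit 18112528) (dlOf (nat_lit 1) (nat_lit 0x1000400020008910a02))) 
(.lf (nat_lit 30695440) (dlOf (nat_lit 1) (nat_lit 0x50008000c002000c0008e40783)))) 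
(.lf (nat_lit 21782544) (dlOf (nat_lit 1) (nat_lit 0x400200020008a70482)))) (.nd (nat_lit 19) 
(.nd (nat_lit 22) (.lf (nat_lit 62152720) (dlOf (nat_lit 1) (nat_lit 0x1080009960001))) 
(.lf (nat_lit 24403984) (dlOf (nat_lit 1) (nat_lit 0x20018b90681)))) 
(.lf (nat_lit 28074000) (dlOf (nat_lit 1) (nat_lit 0x250008012000200a20008d50283)))))) 
(.nd (nat_lit 29) (.nd (nat_lit 7) (.nd (nat_lit 10) 
(.lf (nat_lit 3422838800) (dlOf (nat_lit 5) (nat_lit 0x880ac0008c0400cc064004602b0001b02002a019001080ac0002c080004000000000200480028110101))) 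
(.lf (nat_lit 1141138448) (dlOf (nat_lit 1) (nat_lit 0xc0028122881)))) (.nd (nat_lit 9) 
(.lf (nat_lit 3288621456) (dlOf (nat_lit 1) (nat_lit 0x110008003000200020008090783))) 
(.lf (nat_lit 5570325392) (dlOf (nat_lit 1) (nat_lit 0x4002000200080d5c82))))) (.nd (nat_lit 30) 
(.nd (nat_lit 10) (.lf (nat_lit 604266512) (dlOf (nat_lit 1) (nat_lit 0x24002001c0008110382))) 
(.lf (nat_lit 2752275472) (dlOf (nat_lit 1) (nat_lit 0x20018002881)))) (.nd (nat_lit 27) 
(.nd (nat_lit 31) 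
(.lf (nat_lit 1678008336) (dlOf (nat_lit 1) (nat_lit 0x18008002000200080008130483))) 
(.lf (nat_lit 3825491984) (dlOf (nat_lit 3) (nat_lit 0x3005000900000348a080004014000c008001200000690c180020008003400200500008170883)))) 
(.lf (nat_lit 1812226064) (dlOf (nat_lit 1) (nat_lit 0x13800800b4002003a0008180483))))))) 
(.nd (nat_lit 8) (.nd (nat_lit 29) (.nd (nat_lit 10) (.nd (nat_lit 19) 
(.lf (nat_lit 29646928) (dlOf (nat_lit 2) (nat_lit 0xfdd85000d630802e2750000be0c002000400020008e30202))) 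
(.lf (nat_lit 10248272) (dlOf (nat_lit 2) (nat_lit 0x68672004432d80161328000540c000c002000600085c1002)))) 
(.nd (nat_lit 7) 
(.lf (nat_lit 19691088) (dlOf (nat_lit 2) (nat_lit 0x1656e0027340800680080020002001800089d9c03))) 
(.lf (nat_lit 43279568) (dlOf (nat_lit 1) (nat_lit 0x80080018002000200092a2d83))))) 
(.nd (nat_lit 30) (.nd (nat_lit 27) 
(.lf (nat_lit 537157712) (dlOf (nat_lit 1) (nat_lit 0x20018031001))) 
(.lf (nat_lit 671375440) (dlOf (nat_lit 3) (nat_lit 0x3001f0002101001300f8001000800300080030002000a0008171003)))) 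
(.nd (nat_lit 9) 
(.lf (nat_lit 3825492048) (dlOf (nat_lit 4) (nat_lit 0x3c00a000400400148000000ac0c009401400620000002a02000b00000013408017800800f800200720008171003))) 
(.lf (nat_lit 1610901072) (dlOf (nat_lit 1) (nat_lit 0x400200020008093882)))))) (.nd (nat_lit 7) 
(.nd (nat_lit 19) (.nd (nat_lit 21) 
(.lf (nat_lit 3959710032) (dlOf (nat_lit 1) (nat_lit 0x20008124d81))) 
(.lf (nat_lit 23355728) (dlOf (nat_lit 1) (nat_lit 0x200028b80601)))) 
(.lf (nat_lit 1859920) (dlOf (nat_lit 2) (nat_lit 0x6a8d40006604001c00400040018150602)))) 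
(.nd (nat_lit 9) (.nd (nat_lit 21) 
(.lf (nat_lit 6509846992) (dlOf (nat_lit 2) (nat_lit 0x16026000800b80291c100058008009c00200180008157103))) 
(.lf (nat_lit 52715984) (dlOf (nat_lit 1) (nat_lit 0x68008003000200140009571103)))) 
(.nd (nat_lit 12) (.lf (nat_lit 288720) (dlOf (nat_lit 1) (nat_lit 0x20028004501))) 
(.lf (nat_lit 2751756240) (dlOf (nat_lit 1) (nat_lit 0x4002800a601)))))))) (.nd (nat_lit 30) 
(.nd (nat_lit 26) (.nd (nat_lit 27) (.nd (nat_lit 29) 
(.lf (nat_lit 4563689488) (dlOf (nat_lit 7) (nat_lit 0xb00660173e02001203300b9e81002f019805cf00801600cc02e760400b0066005a02f00af00200370198055240800e0008000c002004400080c0003))) 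
(.lf (nat_lit 805593104) (dlOf (nat_lit 1) (nat_lit 0x18008002000200080008130483)))) 
(.nd (nat_lit 31) (.nd (nat_lit 29) 
(.lf (nat_lit 4697907216) (dlOf (nat_lit 7) (nat_lit 0xb0066005a02f00b9f020037019805aec0801600cc02bc0040024066015df02005e03300aef01002c0198057740800e0008000c002004400080c0003))) 
(.lf (nat_lit 939810832) (dlOf (nat_lit 1) (nat_lit 0x13800800b4002003a0008180483)))) 
(.nd (nat_lit 6) 
(.lf (nat_lit 3087294480) (dlOf (nat_lit 3) (nat_lit 0x30050009000003b54080004014000c00800120000076a0180020008003400200500008170883))) 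
(.lf (nat_lit 3087294544) (dlOf (nat_lit 4) (nat_lit 0x3c00a0004004001480000009e0c009401400620000002682000b00000011808017800800f800200720008171003)))))) 
(.nd (nat_lit 10) (.nd (nat_lit 6) (.nd (nat_lit 29) 
(.lf (nat_lit 2617532432) (dlOf (nat_lit 1) (nat_lit 0x6000080e0381))) 
(.lf (nat_lit 1006919696) (dlOf (nat_lit 4) (nat_lit 0x1028800014080018144000080400080a20000202000400280e0501)))) 
(.nd (nat_lit 27) (.lf (nat_lit 3020185680) (dlOf (nat_lit 2) (nat_lit 0x3c00000002018150700))) 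
(.lf (nat_lit 470048848) (dlOf (nat_lit 5) (nat_lit 0x883c60004c02002a1e300090ec800a875000342f40004b08008217c000200100170e380658000000540800b400200420008031002))))) 
(.nd (nat_lit 8) (.nd (nat_lit 11) 
(.lf (nat_lit 5301888016) (dlOf (nat_lit 2) (nat_lit 0x12004400000040004002000e00080e2882))) 
(.lf (nat_lit 1009019920) (dlOf (nat_lit 1) (nat_lit 0x400200020009005f82)))) 
(.lf (nat_lit 473720080) (dlOf (nat_lit 2) (nat_lit 0x1200000011018fa3000)))))) (.nd (nat_lit 6) 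
(.nd (nat_lit 26) (.nd (nat_lit 27) (.nd (nat_lit 20) 
(.lf (nat_lit 1879334928) (dlOf (nat_lit 4) (nat_lit 0x1028800014080018144000080400080a20000202000400280e0501))) 
(.lf (nat_lit 1343512592) (dlOf (nat_lit 2) (nat_lit 0x2900000017c0800c0008019c00200080008280203)))) 
(.nd (nat_lit 10) (.lf (nat_lit 1476681744) (dlOf (nat_lit 1) (nat_lit 0x400400020008110382))) 
(.lf (nat_lit 5771652112) (dlOf (nat_lit 1) (nat_lit 0x400200020008005f82))))) (.nd (nat_lit 27) 
(.lf (nat_lit 1409572880) (dlOf (nat_lit 7) (nat_lit 0xde01bc08100da03b2066001a03000e000000348a1406c80de037406d01b0033000b0180034861000840b80094f02001e02400477010009012000c8084011da08001405402660240136010801f0078011c41002e8002032c0008030882))) 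
(.nd (nat_lit 31) 
(.lf (nat_lit 1543790608) (dlOf (nat_lit 2) (nat_lit 0x804c0348a040004004000e0018170882))) 
(.lf (nat_lit 3691274256) (dlOf (nat_lit 1) (nat_lit 0x20028110281)))))) (.nd (nat_lit 27) 
(.nd (nat_lit 19) (.nd (nat_lit 26) 
(.lf (nat_lit 1342464080) (dlOf (nat_lit 5) (nat_lit 0x883c60005302002a1e300090ec800a875000342fe00052080082181000238100170e380658000000560800b400200420008031002))) 
(.lf (nat_lit 1409572944) (dlOf (nat_lit 1) (nat_lit 0x20018031001)))) 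
(.lf (nat_lit 1342988368) (dlOf (nat_lit 1) (nat_lit 0x10008001400200040008121603)))) 
(.nd (nat_lit 7) (.nd (nat_lit 8) 
(.lf (nat_lit 1543790672) (dlOf (nat_lit 3) (nat_lit 0x3001f0002481001300f80011c0800300080030002000a0008171003))) 
(.lf (nat_lit 3624168784) (dlOf (nat_lit 2) (nat_lit 0x100000002804000c00200040008146a02)))) 
(.lf (nat_lit 5772173776) (dlOf (nat_lit 8) (nat_lit 0x1411f0002181000b08f8000d008003047c0005404002c23e0002002002011e000608e8000501000284780001204001423c000000200140018091101)))))))) 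
(.nd (nat_lit 20) (.nd (nat_lit 28) (.nd (nat_lit 23) (.nd (nat_lit 27) (.nd (nat_lit 7) 
(.nd (nat_lit 6) (.nd (nat_lit 19) 
(.lf (nat_lit 4295286800) (dlOf (nat_lit 1) (nat_lit 0x68008008400200340008100103))) 
(.lf (nat_lit 2754404368) (dlOf (nat_lit 2) (nat_lit 0x13e107800b07d400076080028002005600080e0102)))) 
(.lf (nat_lit 23388496) (dlOf (nat_lit 1) (nat_lit 0x1680080130002006c0008b80603)))) 
(.nd (nat_lit 10) (.lf (nat_lit 23388304) (dlOf (nat_lit 1) (nat_lit 0x20018b80101))) 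
(.lf (nat_lit 322704) (dlOf (nat_lit 1) (nat_lit 0x8008003400200020008006203))))) (.nd (nat_lit 7) 
(.nd (nat_lit 6) (.nd (nat_lit 30) 
(.lf (nat_lit 4429504528) (dlOf (nat_lit 1) (nat_lit 0x68008008400200340008100103))) 
(.lf (nat_lit 1208279056) (dlOf (nat_lit 2) (nat_lit 0x90039003858180b0000)))) 
(.lf (nat_lit 2349129808) (dlOf (nat_lit 3) (nat_lit 0x400040018001c000100400c0010005800700003410014800801d0002005e00080c1903)))) 
(.nd (nat_lit 26) (.lf (nat_lit 671408272) (dlOf (nat_lit 1) (nat_lit 0x14002000c0008183e82))) 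
(.lf (nat_lit 738517136) (dlOf (nat_lit 1) (nat_lit 0x4004000200080a2802)))))) (.nd (nat_lit 22) 
(.nd (nat_lit 7) (.nd (nat_lit 21) 
(.lf (nat_lit 59564048) (dlOf (nat_lit 1) (nat_lit 0x88008000800200160009810283))) 
(.lf (nat_lit 11329552) (dlOf (nat_lit 1) (nat_lit 0xc00400060008690102)))) 
(.lf (nat_lit 8710032) (dlOf (nat_lit 1) (nat_lit 0x20008514201)))) (.nd (nat_lit 6) 
(.nd (nat_lit 21) 
(.lf (nat_lit 12902416) (dlOf (nat_lit 6) (nat_lit 0x263f000831400059840002cb7200014080010628000b308000616e40000a0c001cc50001061000082dc8000101800218fc002cc50001a610000f2dc80000c2000618fc0018c50001061000052dc8000082000980080004002000a00086e0503))) 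
(.lf (nat_lit 48554000) (dlOf (nat_lit 1) (nat_lit 0xc0029410281)))) 
(.lf (nat_lit 29679696) (dlOf (nat_lit 2) (nat_lit 0x1a69d400d508e80017c100008008000c00200060008e30203)))))) 
(.nd (nat_lit 26) (.nd (nat_lit 6) (.nd (nat_lit 7) (.nd (nat_lit 19) 
(.lf (nat_lit 1476714512) (dlOf (nat_lit 1) (nat_lit 0xa0028150281))) 
(.lf (nat_lit 3492601872) (dlOf (nat_lit 2) (nat_lit 0x13e0fd000b078c00076080028002005600080e0102)))) 
(.lf (nat_lit 5637464208) (dlOf (nat_lit 1) (nat_lit 0x80080004002000200080f1003)))) 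
(.nd (nat_lit 27) 
(.lf (nat_lit 268755024) (dlOf (nat_lit 3) (nat_lit 0x3e015002600a4025c05000800270001f8400950140000d0080030008005c00200140008120503))) 
(.lf (nat_lit 2550456400) (dlOf (nat_lit 1) (nat_lit 0x80080004002000200080c1603))))) 
(.nd (nat_lit 6) (.nd (nat_lit 7) 
(.lf (nat_lit 2080694288) (dlOf (nat_lit 2) (nat_lit 0x900390065c0180b0000))) (.nd (nat_lit 27) 
(.lf (nat_lit 6241443984) (dlOf (nat_lit 1) (nat_lit 0x80080004002000200080f1003))) 
(.lf (nat_lit 1543823504) (dlOf (nat_lit 5) (nat_lit 0x6405c0002f02003202e000168100190170000ac0800c80b80005404003c00200200008183f02))))) 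
(.nd (nat_lit 7) 
(.lf (nat_lit 2483347536) (dlOf (nat_lit 4) (nat_lit 0x780a80004e04000801c00005020094010000300700000c1001700080038002002a00080c1603))) 
(.lf (nat_lit 3557094864) (dlOf (nat_lit 2) (nat_lit 0x801c0000bc080020008000400200040008129b03))))))) 
(.nd (nat_lit 19) (.nd (nat_lit 21) (.nd (nat_lit 24) (.nd (nat_lit 26) 
(.lf (nat_lit 1368080) (dlOf (nat_lit 1) (nat_lit 0x4004000200080b0482))) 
(.lf (nat_lit 471130128) (dlOf (nat_lit 1) (nat_lit 0x40008270281)))) (.nd (nat_lit 10) 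
(.lf (nat_lit 18145296) (dlOf (nat_lit 1) (nat_lit 0xa0018910a01))) 
(.lf (nat_lit 60091408) (dlOf (nat_lit 2) (nat_lit 0x1c4ea0000ac04001c002001e0009845f82))))) 
(.nd (nat_lit 6) (.nd (nat_lit 22) 
(.lf (nat_lit 62185488) (dlOf (nat_lit 4) (nat_lit 0x7523000f291400394660001406000ea4600065228012a8cc0000a0c000d48c000aa450023519800010180558008004800200040009970103))) 
(.lf (nat_lit 24436752) (dlOf (nat_lit 1) (nat_lit 0x400200020008ba0502)))) 
(.lf (nat_lit 45410896) (dlOf (nat_lit 2) (nat_lit 0x10000000000800d0008005c002001a0009325283))))) 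
(.nd (nat_lit 6) (.nd (nat_lit 21) (.nd (nat_lit 22) 
(.lf (nat_lit 10280976) (dlOf (nat_lit 1) (nat_lit 0x4c004000400185c0882))) 
(.lf (nat_lit 22863888) (dlOf (nat_lit 1) (nat_lit 0x1b800800fc002002c0008b30103)))) 
(.nd (nat_lit 8) (.lf (nat_lit 24961040) (dlOf (nat_lit 1) (nat_lit 0x8008000c00200020008bd0a03))) 
(.lf (nat_lit 473752848) (dlOf (nat_lit 2) (nat_lit 0x10af8000e0080010008000400200040008fa3003))))) 
(.nd (nat_lit 7) (.nd (nat_lit 23) 
(.lf (nat_lit 69001296) (dlOf (nat_lit 1) (nat_lit 0x400400020008860702))) 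
(.lf (nat_lit 10281040) (dlOf (nat_lit 2) (nat_lit 0x44ef20002c02000200285c1001)))) 
(.lf (nat_lit 8184528) (dlOf (nat_lit 2) (nat_lit 0x1200000006404000800200040008512002)))))))) 
(.nd (nat_lit 6) (.nd (nat_lit 28) (.nd (nat_lit 15) (.nd (nat_lit 20) (.nd (nat_lit 26) 
(.nd (nat_lit 19) (.nd (nat_lit 21) (.nd (nat_lit 27) 
(.lf (nat_lit 5368995864) (dlOf (nat_lit 1) (nat_lit 0x4004000200080b0082))) 
(.lf (nat_lit 5503213592) (dlOf (nat_lit 1) (nat_lit 0x4004000200080b0082)))) 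
(.lf (nat_lit 44326936) (dlOf (nat_lit 1) (nat_lit 0x6800092f0401)))) (.nd (nat_lit 8) 
(.lf (nat_lit 11296792) (dlOf (nat_lit 1) (nat_lit 0x980008680481))) 
(.lf (nat_lit 51142936) (dlOf (nat_lit 1) (nat_lit 0x400200020009507502))))) (.nd (nat_lit 29) 
(.nd (nat_lit 32) 
(.lf (nat_lit 67395608) (dlOf (nat_lit 2) (nat_lit 0x4025c003f8040004004000600180f0082))) 
(.lf (nat_lit 4362362904) (dlOf (nat_lit 2) (nat_lit 0xc0ac000202b00010110005741800600080048002003c0008030a83)))) 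
(.nd (nat_lit 10) (.nd (nat_lit 30) 
(.lf (nat_lit 604266520) (dlOf (nat_lit 1) (nat_lit 0xf00008110681))) 
(.lf (nat_lit 1678008344) (dlOf (nat_lit 1) (nat_lit 0x1000200080008130482)))) 
(.lf (nat_lit 738487320) (dlOf (nat_lit 1) (nat_lit 0x80018096001)))))) (.nd (nat_lit 21) 
(.nd (nat_lit 19) (.nd (nat_lit 22) 
(.lf (nat_lit 26501144) (dlOf (nat_lit 2) (nat_lit 0xc0390006f18a80060c3c017841c000602f000fe058c50080))) 
(.lf (nat_lit 47472664) (dlOf (nat_lit 1) (nat_lit 0x4004000200093f0182)))) (.nd (nat_lit 7) 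
(.lf (nat_lit 18636824) (dlOf (nat_lit 1) (nat_lit 0x400200120008960402))) 
(.lf (nat_lit 2753323160) (dlOf (nat_lit 1) (nat_lit 0x400400020008090182))))) (.nd (nat_lit 7) 
(.nd (nat_lit 10) (.lf (nat_lit 16015384) (dlOf (nat_lit 1) (nat_lit 0x400200020008860482))) 
(.lf (nat_lit 20737048) (dlOf (nat_lit 1) (nat_lit 0x2800089d6001)))) (.nd (nat_lit 9) 
(.lf (nat_lit 8153240) (dlOf (nat_lit 1) (nat_lit 0x340018514801))) 
(.lf (nat_lit 8152728) (dlOf (nat_lit 1) (nat_lit 0x360018513a81))))))) (.nd (nat_lit 24) 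
(.nd (nat_lit 26) (.nd (nat_lit 29) (.nd (nat_lit 19) 
(.lf (nat_lit 3355762712) (dlOf (nat_lit 6) (nat_lit 0x400ac00240500012023000a0100054982000380ac0038050001e023000a0100054942000500ac0010050000c023000901000548c2000480ac001c050000e023000c01000548820006004800000040058004000e00180f0502))) 
(.lf (nat_lit 42786840) (dlOf (nat_lit 5) (nat_lit 0x1d9d4001eb020004cea000f50100076750007480800133a8003a20400b000400020009280082)))) 
(.nd (nat_lit 8) 
(.lf (nat_lit 3892633624) (dlOf (nat_lit 2) (nat_lit 0x6c0a80008033001501200060088003d410005000400060008180082))) 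
(.lf (nat_lit 671408408) (dlOf (nat_lit 3) (nat_lit 0x202400028010009012000108080110008006400200640008187f03))))) 
(.nd (nat_lit 19) (.nd (nat_lit 29) 
(.lf (nat_lit 3288653848) (dlOf (nat_lit 1) (nat_lit 0x2600180a0901))) 
(.lf (nat_lit 3825524760) (dlOf (nat_lit 1) (nat_lit 0x400200020008190482)))) 
(.lf (nat_lit 2754404376) (dlOf (nat_lit 4) (nat_lit 0x76107800e87d4000640801143ea000310200ea20f00250fa8000bc1001e8008000c002005400080e0383))))) 
(.nd (nat_lit 19) (.nd (nat_lit 10) (.nd (nat_lit 21) 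
(.lf (nat_lit 26533912) (dlOf (nat_lit 2) (nat_lit 0x55a750032423a0062029000fe038c50080))) 
(.lf (nat_lit 24436760) (dlOf (nat_lit 1) (nat_lit 0x400400020018ba0a02)))) 
(.lf (nat_lit 60091416) (dlOf (nat_lit 1) (nat_lit 0x400400060019846002)))) (.nd (nat_lit 20) 
(.lf (nat_lit 21815320) (dlOf (nat_lit 1) (nat_lit 0x20028a70481))) 
(.lf (nat_lit 18669592) (dlOf (nat_lit 3) (nat_lit 0x1a3a8000cfae00067ac00033af800a9ccc000a8140030f58001875f0003399800148180010008000c00200020008960403))))))) 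
(.nd (nat_lit 27) (.nd (nat_lit 15) (.nd (nat_lit 26) (.nd (nat_lit 31) (.nd (nat_lit 30) 
(.lf (nat_lit 805593112) (dlOf (nat_lit 1) (nat_lit 0x1000200080008130482))) 
(.lf (nat_lit 1879334936) (dlOf (nat_lit 1) (nat_lit 0x4004000200080e0a02)))) (.nd (nat_lit 7) 
(.lf (nat_lit 4026819096) (dlOf (nat_lit 1) (nat_lit 0x154004001a0008090d82))) 
(.lf (nat_lit 3491520664) (dlOf (nat_lit 1) (nat_lit 0x400400020008090182))))) (.nd (nat_lit 7) 
(.nd (nat_lit 8) (.lf (nat_lit 3020185624) (dlOf (nat_lit 2) (nat_lit 0x14403d000ac018150080))) 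
(.lf (nat_lit 3557062424) (dlOf (nat_lit 1) (nat_lit 0x80020002000812a002)))) 
(.lf (nat_lit 6241411224) (dlOf (nat_lit 1) (nat_lit 0x4004000200080e2b82))))) (.nd (nat_lit 19) 
(.nd (nat_lit 30) 
(.lf (nat_lit 2953109528) (dlOf (nat_lit 2) (nat_lit 0xa00d0000000801b0008000400200200008130483))) 
(.nd (nat_lit 31) 
(.lf (nat_lit 1879367704) (dlOf (nat_lit 2) (nat_lit 0x200000002c040010002003400080f0482))) 
(.lf (nat_lit 4026851352) (dlOf (nat_lit 1) (nat_lit 0x2600180a0901))))) (.nd (nat_lit 20) 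
(.nd (nat_lit 21) 
(.lf (nat_lit 1343021080) (dlOf (nat_lit 1) (nat_lit 0x8008000400200020008130883))) 
(.lf (nat_lit 3492601880) (dlOf (nat_lit 4) (nat_lit 0x760fd000e878c0005e0801143c60002e0200ea1fa00250f18000b01001e8008000c002005400080e0383)))) 
(.lf (nat_lit 1346166808) (dlOf (nat_lit 1) (nat_lit 0xd4002005a0008e60082)))))) (.nd (nat_lit 26) 
(.nd (nat_lit 7) (.nd (nat_lit 10) 
(.lf (nat_lit 3087327256) (dlOf (nat_lit 1) (nat_lit 0x140028190481))) 
(.lf (nat_lit 6308523032) (dlOf (nat_lit 1) (nat_lit 0x2000800d0002001400080d6003)))) 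
(.nd (nat_lit 8) (.nd (nat_lit 10) 
(.lf (nat_lit 4697907352) (dlOf (nat_lit 1) (nat_lit 0x5000280c1181))) 
(.lf (nat_lit 5772207256) (dlOf (nat_lit 1) (nat_lit 0x20008092b81)))) 
(.lf (nat_lit 5234779544) (dlOf (nat_lit 1) (nat_lit 0x8002000200080d3602))))) (.nd (nat_lit 19) 
(.nd (nat_lit 15) (.nd (nat_lit 30) 
(.lf (nat_lit 1006919704) (dlOf (nat_lit 1) (nat_lit 0x4004000200080e0a02))) 
(.lf (nat_lit 4228145176) (dlOf (nat_lit 2) (nat_lit 0xc09e000202a00010110005601800600080048002003c0008030a83)))) 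
(.lf (nat_lit 3691307032) (dlOf (nat_lit 2) (nat_lit 0xa00d8000000801b0008000400200200008130483)))) 
(.nd (nat_lit 7) (.nd (nat_lit 15) 
(.lf (nat_lit 471621656) (dlOf (nat_lit 2) (nat_lit 0x609d00012018360400))) 
(.lf (nat_lit 470605848) (dlOf (nat_lit 1) (nat_lit 0x8008000400200020008130883)))) 
(.lf (nat_lit 472671384) (dlOf (nat_lit 1) (nat_lit 0x4002001c0008a42b82)))))))) (.nd (nat_lit 19) 
(.nd (nat_lit 28) (.nd (nat_lit 7) (.nd (nat_lit 15) (.nd (nat_lit 8) (.nd (nat_lit 20) 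
(.lf (nat_lit 2349097048) (dlOf (nat_lit 1) (nat_lit 0x4400080a1101))) 
(.lf (nat_lit 9723992) (dlOf (nat_lit 3) (nat_lit 0x320bc00011c0801805e00008c04000400200020008580602)))) 
(.nd (nat_lit 9) (.nd (nat_lit 23) 
(.lf (nat_lit 3959710040) (dlOf (nat_lit 14) (nat_lit 0xf60028000c8040284014000630203c000a0003101006101880fa8028000c20801ac08c0005902000a0560086023007601140009e0c034408c01d6045002101c00013818068811803b008a0004d04002e00a0002281000b02b00058148002c06c00160110026005000110280010078000840403ec0ac01dc05500fe029008b8134040c06c00720340117018801980b8031805a009802b004201480278078046402201d2010020c005006e0020020800c0004022020e05600e402a8085014801ec09e021a04d010f01b008680c4009c05c012202d0046015801200a4012003c007c01301240088070004007f401401ac008007e0030000fc900f3000806bc0020de00008124e03))) 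
(.lf (nat_lit 25452888) (dlOf (nat_lit 1) (nat_lit 0x30008000400200060008c10883)))) 
(.lf (nat_lit 288600) (dlOf (nat_lit 1) (nat_lit 0x20028003f81))))) (.nd (nat_lit 20) 
(.nd (nat_lit 23) (.lf (nat_lit 1208279128) (dlOf (nat_lit 2) (nat_lit 0x8027000208180b0700))) 
(.lf (nat_lit 25485400) (dlOf (nat_lit 1) (nat_lit 0x400400020008c10282)))) (.nd (nat_lit 9) 
(.lf (nat_lit 9756760) (dlOf (nat_lit 4) (nat_lit 0x1f42f0000470200ca178000230100140bc0001140800b0008000c00200080008580603))) 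
(.lf (nat_lit 45410904) (dlOf (nat_lit 3) (nat_lit 0x200000000a0400f0000000000200040009325301)))))) 
(.nd (nat_lit 8) (.nd (nat_lit 20) (.nd (nat_lit 15) 
(.lf (nat_lit 25452760) (dlOf (nat_lit 2) (nat_lit 0x3c8e0000e3cc0000008000400200060008c10582))) 
(.lf (nat_lit 25485528) (dlOf (nat_lit 1) (nat_lit 0x40008c10581)))) (.nd (nat_lit 23) 
(.lf (nat_lit 3465432) (dlOf (nat_lit 2) (nat_lit 0x205490011b818200480))) 
(.lf (nat_lit 28631256) (dlOf (nat_lit 1) (nat_lit 0xa0008da0501))))) (.nd (nat_lit 9) 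
(.lf (nat_lit 6509847000) (dlOf (nat_lit 1) (nat_lit 0x20008000800200020008157103))) 
(.nd (nat_lit 20) (.lf (nat_lit 4496616408) (dlOf (nat_lit 1) (nat_lit 0x4004000400080e5e02))) 
(.lf (nat_lit 60091352) (dlOf (nat_lit 1) (nat_lit 0x20029845e01))))))) (.nd (nat_lit 26) 
(.nd (nat_lit 7) (.nd (nat_lit 27) (.nd (nat_lit 32) 
(.lf (nat_lit 268755032) (dlOf (nat_lit 3) (nat_lit 0x2ca02a017301480e280a0060404e0003208001802a00240148000c01000b8008004400200200008120603))) 
(.lf (nat_lit 4563722328) (dlOf (nat_lit 1) (nat_lit 0x300080004002000200080d0603)))) 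
(.nd (nat_lit 29) 
(.lf (nat_lit 4697940056) (dlOf (nat_lit 1) (nat_lit 0x300080004002000200080d0603))) 
(.lf (nat_lit 5234810968) (dlOf (nat_lit 1) (nat_lit 0x480080034002000e00080e1883))))) 
(.nd (nat_lit 8) (.lf (nat_lit 4563689688) (dlOf (nat_lit 2) (nat_lit 0xd00310000d0180c1c00))) 
(.lf (nat_lit 3493132248) (dlOf (nat_lit 1) (nat_lit 0x800280fa601))))) (.nd (nat_lit 15) 
(.nd (nat_lit 8) (.nd (nat_lit 29) 
(.lf (nat_lit 2483314776) (dlOf (nat_lit 1) (nat_lit 0x4400080a1101))) 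
(.lf (nat_lit 872702040) (dlOf (nat_lit 1) (nat_lit 0x80080004002000200080a1883)))) 
(.lf (nat_lit 5301888344) (dlOf (nat_lit 2) (nat_lit 0x1e00c400058040044004004400080e3382)))) 
(.nd (nat_lit 7) (.nd (nat_lit 21) 
(.lf (nat_lit 2080694360) (dlOf (nat_lit 2) (nat_lit 0x8027000208180b0700))) 
(.lf (nat_lit 1009049688) (dlOf (nat_lit 3) (nat_lit 0x80c6000250200040630000e819020700)))) 
(.lf (nat_lit 5704573144) (dlOf (nat_lit 1) (nat_lit 0x80080004002000200080f1903))))))) 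
(.nd (nat_lit 15) (.nd (nat_lit 9) (.nd (nat_lit 7) (.nd (nat_lit 8) (.nd (nat_lit 23) 
(.lf (nat_lit 4094451800) (dlOf (nat_lit 1) (nat_lit 0x20018050001))) 
(.lf (nat_lit 42754136) (dlOf (nat_lit 1) (nat_lit 0xe0009280801)))) 
(.lf (nat_lit 17588568) (dlOf (nat_lit 1) (nat_lit 0xc800200fc00088e0882)))) (.nd (nat_lit 26) 
(.lf (nat_lit 135028952) (dlOf (nat_lit 4) (nat_lit 0x4e0000007040800600000037a04001c000000070200ca00181b0481))) 
(.nd (nat_lit 27) 
(.lf (nat_lit 4362887384) (dlOf (nat_lit 4) (nat_lit 0x6020800300c80018050002490600ca0000012181011e019000800c404140580009406005c00181a0481))) 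
(.nd (nat_lit 28) 
(.lf (nat_lit 202137816) (dlOf (nat_lit 4) (nat_lit 0x4e0000007040800600000037a04001c000000030200ca00181b0481))) 
(.lf (nat_lit 4228669656) (dlOf (nat_lit 4) (nat_lit 0x601d000300c4001805c002490600ca0000012181011e018800800c004140560009406005c00181a0481))))))) 
(.nd (nat_lit 8) (.nd (nat_lit 7) 
(.lf (nat_lit 52193880) (dlOf (nat_lit 2) (nat_lit 0x994620002c0200040029515301))) 
(.nd (nat_lit 20) (.lf (nat_lit 19690200) (dlOf (nat_lit 1) (nat_lit 0x200289d8c81))) 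
(.lf (nat_lit 8155864) (dlOf (nat_lit 1) (nat_lit 0x400200020008518c82))))) (.nd (nat_lit 10) 
(.lf (nat_lit 19692504) (dlOf (nat_lit 1) (nat_lit 0x8002000400089dbf02))) 
(.lf (nat_lit 67923928) (dlOf (nat_lit 1) (nat_lit 0x2000200140008337a82)))))) (.nd (nat_lit 7) 
(.nd (nat_lit 9) (.nd (nat_lit 23) (.nd (nat_lit 8) (.nd (nat_lit 21) 
(.lf (nat_lit 69001304) (dlOf (nat_lit 1) (nat_lit 0x8008000400200020008860803))) 
(.lf (nat_lit 1346166872) (dlOf (nat_lit 2) (nat_lit 0x2021a00c9000000098100010008008800200b00008e60803)))) 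
(.lf (nat_lit 6087000) (dlOf (nat_lit 1) (nat_lit 0x140018420881)))) (.nd (nat_lit 10) 
(.lf (nat_lit 9232472) (dlOf (nat_lit 1) (nat_lit 0xa0028530701))) 
(.lf (nat_lit 60613720) (dlOf (nat_lit 1) (nat_lit 0x200298c2901))))) (.nd (nat_lit 20) 
(.lf (nat_lit 472705624) (dlOf (nat_lit 1) (nat_lit 0x1a80080010002000a0008a45303))) 
(.lf (nat_lit 52226648) (dlOf (nat_lit 1) (nat_lit 0x7c00200280009515302))))) (.nd (nat_lit 26) 
(.nd (nat_lit 8) (.nd (nat_lit 9) 
(.lf (nat_lit 135061720) (dlOf (nat_lit 4) (nat_lit 0xa8016c000c000001c104005a000000de81014302d800250080170008057c002007600081b0483))) 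
(.lf (nat_lit 8188632) (dlOf (nat_lit 1) (nat_lit 0x8008000400200020008518c83)))) 
(.lf (nat_lit 50127832) (dlOf (nat_lit 1) (nat_lit 0x80080004002000200094c2883)))) 
(.nd (nat_lit 27) 
(.lf (nat_lit 4362920152) (dlOf (nat_lit 7) (nat_lit 0x1300000024c0201e0012009d00000090c1006e004802a80000023f04002a00e0011f0100600090007dc0800680000000604000400401ae00181a0482))) 
(.nd (nat_lit 28) 
(.lf (nat_lit 202170584) (dlOf (nat_lit 4) (nat_lit 0xa80170000c000001c104005a000000de81014302e000250080170008057c002007600081b0483))) 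
(.lf (nat_lit 4228702424) (dlOf (nat_lit 7) (nat_lit 0x1300000024c0201e0011009d00000090c1006e004402a80000023f04002a00e0011f0100600088007dc0800680000000e04000400401ae00181a0482)))))))))))) 
(.nd (nat_lit 15) (.nd (nat_lit 8) (.nd (nat_lit 3) (.nd (nat_lit 18) (.nd (nat_lit 26) 
(.nd (nat_lit 20) (.nd (nat_lit 9) (.nd (nat_lit 7) (.nd (nat_lit 19) 
(.lf (nat_lit 23093296) (dlOf (nat_lit 14) (nat_lit 0x78000000a80400687a400ac0000002902000256e00012408001ab70000900400295b80004402000aadc0002181000156e00010808001ab70000800400095b800038020006adc0001a81002b582001a2bec00615b4002296500244af0011957c0050ab60068552000f1e80000b448019abec00952bc0002c04005eafb001556d000c259400912bc007855f00352a900005c301c78008079c00203120008b50683))) 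
(.nd (nat_lit 21) (.lf (nat_lit 3221774384) (dlOf (nat_lit 1) (nat_lit 0x20018180981))) 
(.lf (nat_lit 3492306992) (dlOf (nat_lit 2) (nat_lit 0xa61fa000168180c0e80))))) (.nd (nat_lit 11) 
(.nd (nat_lit 21) (.lf (nat_lit 537419952) (dlOf (nat_lit 1) (nat_lit 0x60028090301))) 
(.lf (nat_lit 23617712) (dlOf (nat_lit 1) (nat_lit 0x8008000400200020008b80303)))) 
(.lf (nat_lit 4429211824) (dlOf (nat_lit 1) (nat_lit 0x400400020008004902))))) (.nd (nat_lit 11) 
(.nd (nat_lit 6) 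
(.lf (nat_lit 1342726704) (dlOf (nat_lit 2) (nat_lit 0x25071c006037a0001404000200180c0f01))) 
(.lf (nat_lit 2952820464) (dlOf (nat_lit 2) (nat_lit 0x5500a0012b80800080080018002003c000800a003)))) 
(.nd (nat_lit 28) (.lf (nat_lit 671116848) (dlOf (nat_lit 1) (nat_lit 0x20018007181))) 
(.nd (nat_lit 31) 
(.lf (nat_lit 939552304) (dlOf (nat_lit 2) (nat_lit 0x108000000dc0200060018007181))) 
(.lf (nat_lit 3087035952) (dlOf (nat_lit 5) (nat_lit 0x1800f003d806c028402e0005806003201e007400d804c005c000ae0c021c02a01680000002a82009200a8048000803000000005406005e0018007181))))))) 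
(.nd (nat_lit 25) (.nd (nat_lit 23) (.nd (nat_lit 24) 
(.lf (nat_lit 3490734128) (dlOf (nat_lit 6) (nat_lit 0x280000000d8100861180000600803d88c00002e0401d4460000160200a4230000a1178000241000a00080168002000e0008020583))) 
(.lf (nat_lit 17850416) (dlOf (nat_lit 2) (nat_lit 0xb4000000078188f0e80)))) (.nd (nat_lit 21) 
(.lf (nat_lit 13656112) (dlOf (nat_lit 2) (nat_lit 0xb16b28015e53e01090df0002b038740680))) 
(.lf (nat_lit 28336176) (dlOf (nat_lit 3) (nat_lit 0xcd84000b61600016c10004b6100006e04000c002000c0008d80802))))) 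
(.nd (nat_lit 7) (.nd (nat_lit 23) 
(.lf (nat_lit 38822000) (dlOf (nat_lit 1) (nat_lit 0x20009162481))) 
(.lf (nat_lit 47210608) (dlOf (nat_lit 1) (nat_lit 0x200293b0a81)))) (.nd (nat_lit 6) 
(.lf (nat_lit 47210672) (dlOf (nat_lit 1) (nat_lit 0x200193b1601))) 
(.lf (nat_lit 49834736) (dlOf (nat_lit 2) (nat_lit 0x175be8000a80800b000800e8002000600094c5a03))))))) 
(.nd (nat_lit 27) (.nd (nat_lit 30) (.nd (nat_lit 12) (.nd (nat_lit 19) 
(.lf (nat_lit 2752536624) (dlOf (nat_lit 6) (nat_lit 0x280000000d8100861240000600803d89200002e0401d4490000160200a4248000a1238000241000a00080168002000e0008020583))) 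
(.lf (nat_lit 2754109488) (dlOf (nat_lit 1) (nat_lit 0x200180c0f81)))) (.nd (nat_lit 6) 
(.lf (nat_lit 604008496) (dlOf (nat_lit 1) (nat_lit 0x8008000400200020008007c03))) 
(.lf (nat_lit 604010224) (dlOf (nat_lit 1) (nat_lit 0x80020006000800a002))))) (.nd (nat_lit 6) 
(.nd (nat_lit 7) (.lf (nat_lit 5972717104) (dlOf (nat_lit 1) (nat_lit 0x20008007181))) 
(.lf (nat_lit 1409835184) (dlOf (nat_lit 1) (nat_lit 0x20028090301)))) 
(.lf (nat_lit 3825231984) (dlOf (nat_lit 2) (nat_lit 0x3201f000500b8000d01000680080098002001c0008004783))))) 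
(.nd (nat_lit 6) (.nd (nat_lit 19) (.nd (nat_lit 7) 
(.lf (nat_lit 470835248) (dlOf (nat_lit 1) (nat_lit 0x80080008002000200081c0703))) 
(.lf (nat_lit 1006659760) (dlOf (nat_lit 1) (nat_lit 0x400400020008004902)))) (.nd (nat_lit 9) 
(.lf (nat_lit 3959971888) (dlOf (nat_lit 1) (nat_lit 0x20018180981))) 
(.lf (nat_lit 470311472) (dlOf (nat_lit 2) (nat_lit 0x25071c006037a0001504000200180c0f01))))) 
(.nd (nat_lit 7) (.nd (nat_lit 30) 
(.lf (nat_lit 469788784) (dlOf (nat_lit 1) (nat_lit 0x10008000400200020008004783))) 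
(.lf (nat_lit 1543530608) (dlOf (nat_lit 4) (nat_lit 0x700000003402000a0230001901000a0118000c4080008008013c00200100008004783)))) 
(.lf (nat_lit 469788400) (dlOf (nat_lit 1) (nat_lit 0x60008003b01))))))) (.nd (nat_lit 20) 
(.nd (nat_lit 32) (.nd (nat_lit 19) (.nd (nat_lit 22) (.nd (nat_lit 7) 
(.lf (nat_lit 3221512752) (dlOf (nat_lit 4) (nat_lit 0xac000000120100540000000800804180000003a040164002005a0008128002))) 
(.lf (nat_lit 25452720) (dlOf (nat_lit 1) (nat_lit 0x40028c10281)))) (.nd (nat_lit 6) 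
(.lf (nat_lit 31745200) (dlOf (nat_lit 1) (nat_lit 0x2400200020008e92c02))) 
(.lf (nat_lit 38035696) (dlOf (nat_lit 1) (nat_lit 0x400200020009111e82))))) (.nd (nat_lit 7) 
(.nd (nat_lit 23) (.lf (nat_lit 2908208) (dlOf (nat_lit 2) (nat_lit 0x41be0002b0181d0680))) 
(.lf (nat_lit 11296816) (dlOf (nat_lit 2) (nat_lit 0x2056300102af800594100030008004c002001a0008680d83)))) 
(.nd (nat_lit 25) (.lf (nat_lit 1345086640) (dlOf (nat_lit 1) (nat_lit 0x200189e2c01))) 
(.lf (nat_lit 36463792) (dlOf (nat_lit 1) (nat_lit 0x400200180009072c02)))))) (.nd (nat_lit 27) 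
(.nd (nat_lit 7) (.lf (nat_lit 6442738224) (dlOf (nat_lit 1) (nat_lit 0x200281b0f01))) 
(.nd (nat_lit 26) 
(.lf (nat_lit 4563689648) (dlOf (nat_lit 6) (nat_lit 0x200d00020064000e01f0000703000601a000480c8002003e0000d06000a0340007019000200bc001c03e0000c08000c03400070190003807c000160c0010068000802f000a00f800000180008008005c002002a00080c1603))) 
(.lf (nat_lit 5167669424) (dlOf (nat_lit 3) (nat_lit 0x1800a00033020048005000190180f1600))))) 
(.nd (nat_lit 6) (.nd (nat_lit 7) 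
(.lf (nat_lit 5838758448) (dlOf (nat_lit 1) (nat_lit 0x200281b0f01))) 
(.lf (nat_lit 4697907376) (dlOf (nat_lit 5) (nat_lit 0x2dc0520003302003803500b801800eb00a4030804a0172021004800d803b004c006c00e000321001b6029000180100160148000bc081d580080494002089400080c1603)))) 
(.lf (nat_lit 6040084720) (dlOf (nat_lit 1) (nat_lit 0x3400180c4501)))))) (.nd (nat_lit 24) 
(.nd (nat_lit 19) (.nd (nat_lit 9) (.nd (nat_lit 21) 
(.lf (nat_lit 1335344) (dlOf (nat_lit 1) (nat_lit 0x4004000200080b0582))) 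
(.lf (nat_lit 11821104) (dlOf (nat_lit 1) (nat_lit 0x1e8004005400086c0002)))) 
(.lf (nat_lit 2754899504) (dlOf (nat_lit 2) (nat_lit 0xd4150017608900bc0440001381800080080008002000c00080f7183)))) 
(.nd (nat_lit 7) (.lf (nat_lit 1860144) (dlOf (nat_lit 1) (nat_lit 0x60028150f01))) 
(.nd (nat_lit 26) 
(.lf (nat_lit 3491520688) (dlOf (nat_lit 1) (nat_lit 0x3b0008020c00200020008090303))) 
(.lf (nat_lit 2753323184) (dlOf (nat_lit 1) (nat_lit 0x3b0008020c00200020008090303)))))) 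
(.nd (nat_lit 25) (.nd (nat_lit 6) (.nd (nat_lit 10) 
(.lf (nat_lit 30695472) (dlOf (nat_lit 7) (nat_lit 0xf723a00718820001f82004ec8e801262080006c08004723a0002f02004391d001cc4100003c1000ee47400671040000704003b91d0024c41000000100020008003c00200200008e40e83))) 
(.lf (nat_lit 20737072) (dlOf (nat_lit 1) (nat_lit 0x400400a800089d6082)))) (.nd (nat_lit 9) 
(.lf (nat_lit 20214896) (dlOf (nat_lit 1) (nat_lit 0x200189d9401))) 
(.lf (nat_lit 20214384) (dlOf (nat_lit 1) (nat_lit 0x8004000200189d8982))))) (.nd (nat_lit 6) 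
(.lf (nat_lit 53766704) (dlOf (nat_lit 1) (nat_lit 0x200080008002000600095f5183))) (.nd (nat_lit 7) 
(.nd (nat_lit 19) 
(.lf (nat_lit 62152816) (dlOf (nat_lit 10) (nat_lit 0xca5b00105288002a8a8000280c00294b60026a510000982002752d80004808002296c000160400054b6000ca590005527800528e8000d450000050a0004a59001a527800828e8003945000004080004a5b000c52c8002293c001545000003080012a590000101000d52d800000080370008001c00200080009960d03))) 
(.lf (nat_lit 54288496) (dlOf (nat_lit 1) (nat_lit 0x400400020009650182)))) 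
(.lf (nat_lit 57958640) (dlOf (nat_lit 2) (nat_lit 0x2a8f002a72040024004003600097a1e82))))))))) 
(.nd (nat_lit 26) (.nd (nat_lit 18) (.nd (nat_lit 9) (.nd (nat_lit 7) (.nd (nat_lit 28) 
(.nd (nat_lit 19) (.lf (nat_lit 2121784) (dlOf (nat_lit 1) (nat_lit 0x20018150001))) 
(.lf (nat_lit 3221774392) (dlOf (nat_lit 5) (nat_lit 0xe00dc000d004012807c000e0000000c82000501f00010038000c0000001806009203e0002007000050100020008000400200200008180b83)))) 
(.nd (nat_lit 27) 
(.lf (nat_lit 805855288) (dlOf (nat_lit 4) (nat_lit 0x4805a0003602000602d0000b8100020160000000800600080094002001000081c0b03))) 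
(.lf (nat_lit 3624427576) (dlOf (nat_lit 2) (nat_lit 0x120041002a78181a0700))))) (.nd (nat_lit 6) 
(.nd (nat_lit 10) (.lf (nat_lit 23617720) (dlOf (nat_lit 1) (nat_lit 0x100018b80381))) 
(.lf (nat_lit 36725944) (dlOf (nat_lit 1) (nat_lit 0x20019072c81)))) 
(.lf (nat_lit 45637880) (dlOf (nat_lit 1) (nat_lit 0xc00400020009342482))))) (.nd (nat_lit 10) 
(.nd (nat_lit 6) (.nd (nat_lit 19) 
(.lf (nat_lit 36727352) (dlOf (nat_lit 1) (nat_lit 0x400200020009075202))) 
(.lf (nat_lit 54028856) (dlOf (nat_lit 1) (nat_lit 0x80080004002000200095f5203)))) 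
(.lf (nat_lit 3355468536) (dlOf (nat_lit 1) (nat_lit 0x58008000400200060008002103)))) 
(.nd (nat_lit 19) (.nd (nat_lit 27) 
(.lf (nat_lit 2147509880) (dlOf (nat_lit 1) (nat_lit 0x400200020008003982))) 
(.lf (nat_lit 1207985784) (dlOf (nat_lit 2) (nat_lit 0x601f00012018003980)))) 
(.lf (nat_lit 61367928) (dlOf (nat_lit 4) (nat_lit 0x1a944000ac04000d4a200055020008a3c00029819923980)))))) 
(.nd (nat_lit 20) (.nd (nat_lit 7) (.nd (nat_lit 29) (.nd (nat_lit 9) 
(.lf (nat_lit 12869688) (dlOf (nat_lit 2) (nat_lit 0x72748000000800200080004002001400086e0b03))) 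
(.lf (nat_lit 3221512760) (dlOf (nat_lit 1) (nat_lit 0x20008128181)))) (.nd (nat_lit 6) 
(.lf (nat_lit 537157688) (dlOf (nat_lit 2) (nat_lit 0x320580005f018030d00))) 
(.lf (nat_lit 1745117304) (dlOf (nat_lit 1) (nat_lit 0x600080a1f01))))) (.nd (nat_lit 6) 
(.nd (nat_lit 10) (.lf (nat_lit 4697907384) (dlOf (nat_lit 1) (nat_lit 0x74004000e00080c1702))) 
(.lf (nat_lit 36463800) (dlOf (nat_lit 1) (nat_lit 0x400400020009072c82)))) 
(.lf (nat_lit 38035704) (dlOf (nat_lit 1) (nat_lit 0x4002019a0009112482))))) (.nd (nat_lit 19) 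
(.nd (nat_lit 9) (.nd (nat_lit 21) 
(.lf (nat_lit 30695480) (dlOf (nat_lit 1) (nat_lit 0x20018e41101))) 
(.lf (nat_lit 24404024) (dlOf (nat_lit 1) (nat_lit 0x400400020018b90b82)))) 
(.lf (nat_lit 53766712) (dlOf (nat_lit 1) (nat_lit 0x4002000200095f5202)))) (.nd (nat_lit 6) 
(.nd (nat_lit 9) (.lf (nat_lit 45899832) (dlOf (nat_lit 1) (nat_lit 0x60009360501))) 
(.lf (nat_lit 52193848) (dlOf (nat_lit 1) (nat_lit 0x9c0008064c00200b00009515203)))) 
(.lf (nat_lit 3491520632) (dlOf (nat_lit 1) (nat_lit 0x400400060018090082))))))) (.nd (nat_lit 30) 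
(.nd (nat_lit 9) (.nd (nat_lit 7) (.nd (nat_lit 29) (.nd (nat_lit 11) 
(.lf (nat_lit 4362625080) (dlOf (nat_lit 5) (nat_lit 0x600000001d81005e020803500c80006c08013c08200bc0320000b020030019800000080920008028c002003000080b0b03))) 
(.lf (nat_lit 4362106936) (dlOf (nat_lit 1) (nat_lit 0x2000800100020006000800a603)))) 
(.nd (nat_lit 6) (.lf (nat_lit 2886230072) (dlOf (nat_lit 2) (nat_lit 0x1200410057c0181a0700))) 
(.lf (nat_lit 2753323128) (dlOf (nat_lit 1) (nat_lit 0x400400060018090082))))) (.nd (nat_lit 6) 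
(.nd (nat_lit 10) (.lf (nat_lit 67137720) (dlOf (nat_lit 1) (nat_lit 0x160018007e81))) 
(.lf (nat_lit 472147128) (dlOf (nat_lit 1) (nat_lit 0x20028862c81)))) 
(.lf (nat_lit 470311160) (dlOf (nat_lit 1) (nat_lit 0x200080c0481))))) (.nd (nat_lit 6) 
(.nd (nat_lit 10) (.nd (nat_lit 12) 
(.lf (nat_lit 69233208) (dlOf (nat_lit 1) (nat_lit 0x20028905201))) 
(.lf (nat_lit 201357880) (dlOf (nat_lit 2) (nat_lit 0x23007600a8036004e00b8001ec18008000800440020008000800b403)))) 
(.nd (nat_lit 12) (.lf (nat_lit 4630537784) (dlOf (nat_lit 1) (nat_lit 0x3000400020008003782))) 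
(.lf (nat_lit 67925560) (dlOf (nat_lit 1) (nat_lit 0x3000400160008339c02))))) (.nd (nat_lit 7) 
(.nd (nat_lit 12) 
(.lf (nat_lit 335570552) (dlOf (nat_lit 2) (nat_lit 0x801c0009404000400400080018003982))) 
(.lf (nat_lit 2214622840) (dlOf (nat_lit 1) (nat_lit 0x800400040008009d02)))) 
(.lf (nat_lit 604011256) (dlOf (nat_lit 1) (nat_lit 0x40020002000800b982)))))) (.nd (nat_lit 27) 
(.nd (nat_lit 10) (.nd (nat_lit 18) (.nd (nat_lit 28) 
(.lf (nat_lit 1678270520) (dlOf (nat_lit 4) (nat_lit 0x4805a0003602000602d0000b8100020160000000800600080094002001000081c0b03))) 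
(.lf (nat_lit 1409835064) (dlOf (nat_lit 1) (nat_lit 0x500080004002002a0008090003)))) 
(.lf (nat_lit 1409572920) (dlOf (nat_lit 2) (nat_lit 0x320580005e818030d00)))) (.nd (nat_lit 6) 
(.nd (nat_lit 7) (.lf (nat_lit 3288362040) (dlOf (nat_lit 1) (nat_lit 0x20018006081))) 
(.lf (nat_lit 3288362168) (dlOf (nat_lit 1) (nat_lit 0x20018006281)))) 
(.lf (nat_lit 5704541816) (dlOf (nat_lit 1) (nat_lit 0x180080014002000600080d3983))))) 
(.nd (nat_lit 9) (.nd (nat_lit 19) (.nd (nat_lit 7) 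
(.lf (nat_lit 3422838840) (dlOf (nat_lit 1) (nat_lit 0x30008000800200060008110d83))) 
(.lf (nat_lit 3422581944) (dlOf (nat_lit 1) (nat_lit 0x40008009501)))) (.nd (nat_lit 28) 
(.lf (nat_lit 3959971896) (dlOf (nat_lit 2) (nat_lit 0x300f80002804000c002000a0008180a82))) 
(.lf (nat_lit 4228407352) (dlOf (nat_lit 5) (nat_lit 0x600000001d81005e01d003500c40006c08013c07400bc0310000a820030019000000080920008028c002003000080b0b03))))) 
(.nd (nat_lit 6) 
(.lf (nat_lit 6106932792) (dlOf (nat_lit 2) (nat_lit 0x1a016000300a800280140003c0c002800400140008003782))) 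
(.lf (nat_lit 6376417912) (dlOf (nat_lit 1) (nat_lit 0x20018095401))))))))) (.nd (nat_lit 7) 
(.nd (nat_lit 11) (.nd (nat_lit 18) (.nd (nat_lit 6) (.nd (nat_lit 12) (.nd (nat_lit 3) 
(.nd (nat_lit 22) (.lf (nat_lit 5773485360) (dlOf (nat_lit 1) (nat_lit 0x8a00280e3201))) 
(.lf (nat_lit 39871792) (dlOf (nat_lit 1) (nat_lit 0x400291f3201)))) (.nd (nat_lit 26) 
(.lf (nat_lit 3493880120) (dlOf (nat_lit 4) (nat_lit 0xf01800003702006a0c00001a810006045000094080010008002c002000e00081b0583))) 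
(.lf (nat_lit 2755682616) (dlOf (nat_lit 2) (nat_lit 0x310880009808011000800c4002005c00081b0583))))) 
(.nd (nat_lit 9) (.nd (nat_lit 19) 
(.lf (nat_lit 8418616) (dlOf (nat_lit 1) (nat_lit 0x10008000400200020008519903))) 
(.lf (nat_lit 8942904) (dlOf (nat_lit 1) (nat_lit 0x400200020008519902)))) 
(.lf (nat_lit 20477752) (dlOf (nat_lit 1) (nat_lit 0x200189da101))))) (.nd (nat_lit 3) 
(.nd (nat_lit 9) (.nd (nat_lit 12) 
(.lf (nat_lit 47210864) (dlOf (nat_lit 1) (nat_lit 0x200093b5801))) 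
(.lf (nat_lit 604008816) (dlOf (nat_lit 1) (nat_lit 0x20018008381)))) 
(.lf (nat_lit 3691018096) (dlOf (nat_lit 1) (nat_lit 0x1000080038002000a000800a303)))) 
(.nd (nat_lit 9) 
(.lf (nat_lit 1342726520) (dlOf (nat_lit 3) (nat_lit 0xe02a8007100200b0154003818180c0780))) 
(.nd (nat_lit 10) 
(.lf (nat_lit 2617271160) (dlOf (nat_lit 1) (nat_lit 0x58008000400200060008002583))) 
(.lf (nat_lit 4362102648) (dlOf (nat_lit 4) (nat_lit 0x200660001c020004033000038100010198000000800b80080058002003a0008004083))))))) 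
(.nd (nat_lit 29) (.nd (nat_lit 3) (.nd (nat_lit 6) 
(.lf (nat_lit 6442737968) (dlOf (nat_lit 2) (nat_lit 0x16c034000310181b0500))) (.nd (nat_lit 19) 
(.lf (nat_lit 23355760) (dlOf (nat_lit 1) (nat_lit 0x20028b80781))) 
(.lf (nat_lit 1859952) (dlOf (nat_lit 1) (nat_lit 0xa00080140002005a0008150783))))) 
(.nd (nat_lit 6) (.nd (nat_lit 19) 
(.lf (nat_lit 25452856) (dlOf (nat_lit 1) (nat_lit 0x400400020018c10702))) 
(.lf (nat_lit 4362887480) (dlOf (nat_lit 2) (nat_lit 0x400c80004c040050002001200081a0582)))) 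
(.lf (nat_lit 5772173688) (dlOf (nat_lit 2) (nat_lit 0x208e000238080010008000400200040008091003))))) 
(.nd (nat_lit 30) (.nd (nat_lit 3) 
(.lf (nat_lit 5167669616) (dlOf (nat_lit 1) (nat_lit 0x3a800802c8002014000080f5803))) 
(.nd (nat_lit 6) (.lf (nat_lit 2752276280) (dlOf (nat_lit 1) (nat_lit 0x20018003e01))) 
(.lf (nat_lit 2753323384) (dlOf (nat_lit 3) (nat_lit 0x208800ecc810005044007658080100008000400200100008090783))))) 
(.nd (nat_lit 3) (.lf (nat_lit 2080661808) (dlOf (nat_lit 1) (nat_lit 0x200080a5a01))) 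
(.nd (nat_lit 27) (.lf (nat_lit 4094452024) (dlOf (nat_lit 2) (nat_lit 0xc0f20000c018050b80))) 
(.lf (nat_lit 4228669752) (dlOf (nat_lit 2) (nat_lit 0x400c40004a040050002001200081a0582)))))))) 
(.nd (nat_lit 18) (.nd (nat_lit 31) (.nd (nat_lit 19) (.nd (nat_lit 25) (.nd (nat_lit 3) 
(.nd (nat_lit 6) (.lf (nat_lit 201357616) (dlOf (nat_lit 1) (nat_lit 0xc001800ab81))) 
(.lf (nat_lit 872442224) (dlOf (nat_lit 1) (nat_lit 0x400400020008004e82)))) 
(.lf (nat_lit 1879076216) (dlOf (nat_lit 1) (nat_lit 0x20018006b81)))) (.nd (nat_lit 20) 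
(.lf (nat_lit 33581424) (dlOf (nat_lit 1) (nat_lit 0x800400020008f54e82))) 
(.lf (nat_lit 49310064) (dlOf (nat_lit 1) (nat_lit 0x8008000800200040009464e83))))) 
(.nd (nat_lit 20) (.nd (nat_lit 3) 
(.lf (nat_lit 46688624) (dlOf (nat_lit 1) (nat_lit 0x28008000400200080009384e83))) 
(.lf (nat_lit 5771914104) (dlOf (nat_lit 1) (nat_lit 0x140028005c01)))) (.nd (nat_lit 24) 
(.lf (nat_lit 37251440) (dlOf (nat_lit 1) (nat_lit 0xc00090d4e81))) 
(.lf (nat_lit 20474224) (dlOf (nat_lit 1) (nat_lit 0xa00189d4e81)))))) (.nd (nat_lit 27) 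
(.nd (nat_lit 3) (.nd (nat_lit 20) 
(.lf (nat_lit 3288361328) (dlOf (nat_lit 1) (nat_lit 0x8004008c0018004e82))) 
(.lf (nat_lit 2754636144) (dlOf (nat_lit 1) (nat_lit 0x8002000200080f4e82)))) (.nd (nat_lit 9) 
(.lf (nat_lit 3489693048) (dlOf (nat_lit 1) (nat_lit 0x800800040020002000800c903))) 
(.lf (nat_lit 3019926392) (dlOf (nat_lit 1) (nat_lit 0x800400020018005c02))))) (.nd (nat_lit 26) 
(.nd (nat_lit 3) 
(.lf (nat_lit 2550164784) (dlOf (nat_lit 2) (nat_lit 0xd0080000980800380080004002000a0008006883))) 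
(.lf (nat_lit 2818599800) (dlOf (nat_lit 8) (nat_lit 0x3802c0014015000900700050030002400c0012004000d0000008943800200180041a04002800c0012004000c0000008201800a0000003f204001800000170020012006000b0000002d01000700000000004003000400080018005c02)))) 
(.nd (nat_lit 28) 
(.lf (nat_lit 3959449968) (dlOf (nat_lit 1) (nat_lit 0x68008002c00200100008004e83))) 
(.lf (nat_lit 4227885424) (dlOf (nat_lit 1) (nat_lit 0x400400020018004e82))))))) (.nd (nat_lit 19) 
(.nd (nat_lit 21) (.nd (nat_lit 26) (.nd (nat_lit 22) 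
(.lf (nat_lit 3489950064) (dlOf (nat_lit 1) (nat_lit 0x20008004e81))) 
(.lf (nat_lit 54815088) (dlOf (nat_lit 1) (nat_lit 0x20019654e81)))) (.nd (nat_lit 3) 
(.lf (nat_lit 738486640) (dlOf (nat_lit 1) (nat_lit 0xc00400080018094e82))) 
(.lf (nat_lit 738487160) (dlOf (nat_lit 1) (nat_lit 0x400400020018095c02))))) (.nd (nat_lit 20) 
(.lf (nat_lit 40135024) (dlOf (nat_lit 1) (nat_lit 0x100080004002000200091f4e83))) 
(.nd (nat_lit 26) 
(.lf (nat_lit 1345612144) (dlOf (nat_lit 1) (nat_lit 0x8008000400200020008d74e83))) 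
(.lf (nat_lit 2754898288) (dlOf (nat_lit 1) (nat_lit 0x200180f4e81)))))) (.nd (nat_lit 20) 
(.nd (nat_lit 3) (.nd (nat_lit 21) 
(.lf (nat_lit 3490474352) (dlOf (nat_lit 1) (nat_lit 0x20018004e81))) 
(.lf (nat_lit 49047920) (dlOf (nat_lit 1) (nat_lit 0x8008000400200020009464e83)))) 
(.lf (nat_lit 19692920) (dlOf (nat_lit 1) (nat_lit 0x4002000200089dc902)))) (.nd (nat_lit 22) 
(.lf (nat_lit 20736368) (dlOf (nat_lit 1) (nat_lit 0x8004000600089d4e82))) 
(.lf (nat_lit 41707888) (dlOf (nat_lit 1) (nat_lit 0x800200040009244e82)))))))) (.nd (nat_lit 27) 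
(.nd (nat_lit 9) (.nd (nat_lit 6) (.nd (nat_lit 18) (.nd (nat_lit 3) (.nd (nat_lit 10) 
(.lf (nat_lit 2754636208) (dlOf (nat_lit 1) (nat_lit 0x4002000200080f4e82))) 
(.lf (nat_lit 8414640) (dlOf (nat_lit 1) (nat_lit 0x400200020008513602)))) 
(.lf (nat_lit 604009912) (dlOf (nat_lit 1) (nat_lit 0x400200020008009982)))) (.nd (nat_lit 3) 
(.nd (nat_lit 10) (.lf (nat_lit 5100562864) (dlOf (nat_lit 1) (nat_lit 0x2200280d4e81))) 
(.lf (nat_lit 61629872) (dlOf (nat_lit 1) (nat_lit 0x20029923601)))) 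
(.lf (nat_lit 8152504) (dlOf (nat_lit 1) (nat_lit 0x400200020008513602))))) (.nd (nat_lit 10) 
(.nd (nat_lit 3) (.nd (nat_lit 11) 
(.lf (nat_lit 1342726640) (dlOf (nat_lit 1) (nat_lit 0xc002000400080c0d82))) 
(.lf (nat_lit 54028784) (dlOf (nat_lit 2) (nat_lit 0x76098005580801e0008000c002000600095f4f03)))) 
(.lf (nat_lit 37251576) (dlOf (nat_lit 1) (nat_lit 0x800200cc00090d4f82)))) (.nd (nat_lit 12) 
(.lf (nat_lit 8414704) (dlOf (nat_lit 1) (nat_lit 0x400200020008513602))) 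
(.lf (nat_lit 2684384752) (dlOf (nat_lit 1) (nat_lit 0x18008001c00200040008009c03)))))) 
(.nd (nat_lit 19) (.nd (nat_lit 3) (.nd (nat_lit 18) 
(.lf (nat_lit 3825230832) (dlOf (nat_lit 1) (nat_lit 0x8008000400200020008002883))) 
(.nd (nat_lit 26) (.lf (nat_lit 4832125936) (dlOf (nat_lit 1) (nat_lit 0x200180d2881))) 
(.lf (nat_lit 1141138416) (dlOf (nat_lit 1) (nat_lit 0x60028122881))))) (.nd (nat_lit 28) 
(.lf (nat_lit 1073767416) (dlOf (nat_lit 1) (nat_lit 0x170008002800200380008002883))) 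
(.lf (nat_lit 4026557432) (dlOf (nat_lit 1) (nat_lit 0x40028002881))))) (.nd (nat_lit 21) 
(.nd (nat_lit 6) (.lf (nat_lit 2752276400) (dlOf (nat_lit 1) (nat_lit 0x60018004381))) 
(.lf (nat_lit 2752275440) (dlOf (nat_lit 1) (nat_lit 0x20018002881)))) (.nd (nat_lit 3) 
(.lf (nat_lit 36463600) (dlOf (nat_lit 1) (nat_lit 0x80019072881))) 
(.lf (nat_lit 19690488) (dlOf (nat_lit 2) (nat_lit 0x55060013140800280080014002000c00089d9203))))))) 
(.nd (nat_lit 30) (.nd (nat_lit 10) (.nd (nat_lit 18) (.nd (nat_lit 9) 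
(.lf (nat_lit 470311408) (dlOf (nat_lit 1) (nat_lit 0xc002000400080c0d82))) (.nd (nat_lit 19) 
(.lf (nat_lit 472933360) (dlOf (nat_lit 1) (nat_lit 0x8008000400200020008b52883))) 
(.lf (nat_lit 1008231408) (dlOf (nat_lit 1) (nat_lit 0x8008000400200020008b02883))))) 
(.nd (nat_lit 3) 
(.lf (nat_lit 5301887984) (dlOf (nat_lit 2) (nat_lit 0x8022002d102010e00280e2881))) 
(.lf (nat_lit 4496583608) (dlOf (nat_lit 1) (nat_lit 0x1e00280e5d01))))) (.nd (nat_lit 6) 
(.nd (nat_lit 18) (.nd (nat_lit 26) 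
(.lf (nat_lit 4429211568) (dlOf (nat_lit 1) (nat_lit 0x60018004381))) 
(.lf (nat_lit 1006659504) (dlOf (nat_lit 1) (nat_lit 0x18008001400200040008004383)))) 
(.lf (nat_lit 2885969840) (dlOf (nat_lit 1) (nat_lit 0x7e0028144381)))) (.nd (nat_lit 9) 
(.nd (nat_lit 26) 
(.lf (nat_lit 2281731568) (dlOf (nat_lit 1) (nat_lit 0x50008003c00200180008009c03))) 
(.lf (nat_lit 6643807728) (dlOf (nat_lit 1) (nat_lit 0x800200120008009c02)))) 
(.lf (nat_lit 469788656) (dlOf (nat_lit 3) (nat_lit 0x2046e000370200022370001a818004600)))))) 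
(.nd (nat_lit 6) (.nd (nat_lit 19) (.nd (nat_lit 9) (.nd (nat_lit 26) 
(.lf (nat_lit 5502952888) (dlOf (nat_lit 2) (nat_lit 0x8040002c804000400400160008003602))) 
(.lf (nat_lit 6106932664) (dlOf (nat_lit 1) (nat_lit 0x1c00400200008003602)))) 
(.lf (nat_lit 2013293496) (dlOf (nat_lit 1) (nat_lit 0xc0028005d01)))) (.nd (nat_lit 3) 
(.lf (nat_lit 1476944304) (dlOf (nat_lit 1) (nat_lit 0x160028306e81))) (.nd (nat_lit 11) 
(.lf (nat_lit 1476944312) (dlOf (nat_lit 1) (nat_lit 0x1700008306e81))) 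
(.lf (nat_lit 6376155576) (dlOf (nat_lit 1) (nat_lit 0x20028094e81)))))) (.nd (nat_lit 3) 
(.nd (nat_lit 11) 
(.lf (nat_lit 5772173808) (dlOf (nat_lit 2) (nat_lit 0x4236000000200040008091381))) 
(.nd (nat_lit 26) (.lf (nat_lit 5774010864) (dlOf (nat_lit 1) (nat_lit 0x4004000200080e4f02))) 
(.lf (nat_lit 6377990640) (dlOf (nat_lit 1) (nat_lit 0x400280e4f01))))) (.nd (nat_lit 9) 
(.nd (nat_lit 10) 
(.lf (nat_lit 3959710200) (dlOf (nat_lit 4) (nat_lit 0x800070000880802b80380004004016401c0001d0200020028127e01))) 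
(.lf (nat_lit 3624168952) (dlOf (nat_lit 1) (nat_lit 0x3c0028146f81)))) 
(.lf (nat_lit 1476423672) (dlOf (nat_lit 1) (nat_lit 0x400200020008007a82)))))))))) 
(.nd (nat_lit 18) (.nd (nat_lit 3) (.nd (nat_lit 11) (.nd (nat_lit 27) (.nd (nat_lit 23) 
(.nd (nat_lit 7) (.nd (nat_lit 12) (.nd (nat_lit 19) 
(.lf (nat_lit 1343283248) (dlOf (nat_lit 4) (nat_lit 0x380ec0003804003c442001819d000050200030ce80001008007000800e4002006000081e0703))) 
(.lf (nat_lit 23650352) (dlOf (nat_lit 2) (nat_lit 0x2bad0601bd5fc0065f828b80000)))) 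
(.nd (nat_lit 6) (.lf (nat_lit 2952852528) (dlOf (nat_lit 1) (nat_lit 0x400400040018009202))) 
(.lf (nat_lit 19985008) (dlOf (nat_lit 1) (nat_lit 0xa00289d8981))))) (.nd (nat_lit 6) 
(.nd (nat_lit 8) (.nd (nat_lit 10) 
(.lf (nat_lit 5972746416) (dlOf (nat_lit 1) (nat_lit 0x200280b0301))) 
(.lf (nat_lit 1346954416) (dlOf (nat_lit 2) (nat_lit 0x161270002f819102c00)))) 
(.lf (nat_lit 335603120) (dlOf (nat_lit 1) (nat_lit 0x60018003601)))) (.nd (nat_lit 28) 
(.lf (nat_lit 1140909040) (dlOf (nat_lit 1) (nat_lit 0x40018002881))) 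
(.lf (nat_lit 335602672) (dlOf (nat_lit 1) (nat_lit 0x100018002881)))))) (.nd (nat_lit 20) 
(.nd (nat_lit 19) (.nd (nat_lit 6) 
(.lf (nat_lit 27320368) (dlOf (nat_lit 1) (nat_lit 0x800400020008cd0982))) 
(.lf (nat_lit 8447472) (dlOf (nat_lit 1) (nat_lit 0x400200020008513602)))) (.nd (nat_lit 22) 
(.lf (nat_lit 11067440) (dlOf (nat_lit 1) (nat_lit 0x16e0008660d81))) 
(.lf (nat_lit 15261744) (dlOf (nat_lit 2) (nat_lit 0x4273c0006e040020004000400187c0702))))) 
(.nd (nat_lit 21) (.nd (nat_lit 6) (.nd (nat_lit 19) 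
(.lf (nat_lit 13688880) (dlOf (nat_lit 1) (nat_lit 0x1800200060008740682))) 
(.lf (nat_lit 26796080) (dlOf (nat_lit 2) (nat_lit 0x2b548000b2040074002001a0008c70902)))) 
(.lf (nat_lit 47243376) (dlOf (nat_lit 1) (nat_lit 0x300080008002000200093c0d03)))) 
(.nd (nat_lit 7) (.lf (nat_lit 11592240) (dlOf (nat_lit 1) (nat_lit 0x4004000200086c0f02))) 
(.lf (nat_lit 32564400) (dlOf (nat_lit 2) (nat_lit 0xb1fa00017c080030008001c00200100008ef2c03))))))) 
(.nd (nat_lit 7) (.nd (nat_lit 19) (.nd (nat_lit 26) (.nd (nat_lit 8) 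
(.lf (nat_lit 6576726064) (dlOf (nat_lit 1) (nat_lit 0x200280b0001))) 
(.lf (nat_lit 6576726320) (dlOf (nat_lit 1) (nat_lit 0x1c004001600180b0502)))) (.nd (nat_lit 22) 
(.lf (nat_lit 1275125808) (dlOf (nat_lit 1) (nat_lit 0x20028090001))) 
(.lf (nat_lit 474013744) (dlOf (nat_lit 1) (nat_lit 0xee0009000001))))) (.nd (nat_lit 26) 
(.nd (nat_lit 29) 
(.lf (nat_lit 134799408) (dlOf (nat_lit 4) (nat_lit 0x3203b0001701003b01d8000b40801500ec00056040008004000a00080c0e82))) 
(.lf (nat_lit 3892895792) (dlOf (nat_lit 1) (nat_lit 0x90008009800200620008290e83)))) 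
(.nd (nat_lit 20) 
(.lf (nat_lit 201908272) (dlOf (nat_lit 2) (nat_lit 0x2680ec00054040008004000a00080c0f82))) 
(.lf (nat_lit 471392304) (dlOf (nat_lit 1) (nat_lit 0x4004002000082f0e82)))))) (.nd (nat_lit 6) 
(.nd (nat_lit 8) (.nd (nat_lit 10) 
(.lf (nat_lit 6576726192) (dlOf (nat_lit 1) (nat_lit 0x200280b0301))) 
(.lf (nat_lit 3422614704) (dlOf (nat_lit 1) (nat_lit 0x400200020008009502)))) 
(.lf (nat_lit 5502985648) (dlOf (nat_lit 2) (nat_lit 0x2008000594080010008001000200020008003603)))) 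
(.nd (nat_lit 10) (.nd (nat_lit 29) 
(.lf (nat_lit 5502985200) (dlOf (nat_lit 1) (nat_lit 0x10008000c00200040008002883))) 
(.lf (nat_lit 4966114288) (dlOf (nat_lit 1) (nat_lit 0x500018002881)))) 
(.lf (nat_lit 469821424) (dlOf (nat_lit 1) (nat_lit 0xcc002000c0008004602))))))) (.nd (nat_lit 26) 
(.nd (nat_lit 8) (.nd (nat_lit 23) (.nd (nat_lit 6) (.nd (nat_lit 19) 
(.lf (nat_lit 4697680432) (dlOf (nat_lit 1) (nat_lit 0x40018005181))) 
(.lf (nat_lit 51964464) (dlOf (nat_lit 1) (nat_lit 0x20029515181)))) 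
(.lf (nat_lit 3221284976) (dlOf (nat_lit 1) (nat_lit 0x20018004781)))) (.nd (nat_lit 6) 
(.nd (nat_lit 19) 
(.lf (nat_lit 42002992) (dlOf (nat_lit 2) (nat_lit 0x9495a0008b0200be0009245181))) 
(.lf (nat_lit 46721584) (dlOf (nat_lit 1) (nat_lit 0x400400040009385182)))) 
(.lf (nat_lit 8448112) (dlOf (nat_lit 1) (nat_lit 0x400400020008514782))))) (.nd (nat_lit 19) 
(.nd (nat_lit 6) 
(.lf (nat_lit 5368768944) (dlOf (nat_lit 2) (nat_lit 0x8040019d8040050004001e0008004e82))) 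
(.nd (nat_lit 20) (.lf (nat_lit 31517040) (dlOf (nat_lit 1) (nat_lit 0x180028e94e81))) 
(.lf (nat_lit 49342832) (dlOf (nat_lit 1) (nat_lit 0x8008000400200020009464e83))))) 
(.nd (nat_lit 20) (.lf (nat_lit 3490244976) (dlOf (nat_lit 1) (nat_lit 0x400200020008004e82))) 
(.nd (nat_lit 22) (.lf (nat_lit 37284208) (dlOf (nat_lit 1) (nat_lit 0x1a00090d4e81))) 
(.lf (nat_lit 33089904) (dlOf (nat_lit 1) (nat_lit 0x40028f54e81))))))) (.nd (nat_lit 6) 
(.nd (nat_lit 7) (.nd (nat_lit 9) 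
(.lf (nat_lit 469821488) (dlOf (nat_lit 1) (nat_lit 0x400200060008004702))) (.nd (nat_lit 10) 
(.lf (nat_lit 3154176560) (dlOf (nat_lit 1) (nat_lit 0x90008000800200040008085183))) 
(.lf (nat_lit 2754670128) (dlOf (nat_lit 3) (nat_lit 0xe01d0002a01000400f80098064004c0300004e06000600180f7181))))) 
(.nd (nat_lit 9) (.lf (nat_lit 1946216880) (dlOf (nat_lit 1) (nat_lit 0x400400020008004e82))) 
(.lf (nat_lit 5704313776) (dlOf (nat_lit 1) (nat_lit 0x480008055d01))))) (.nd (nat_lit 27) 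
(.nd (nat_lit 9) (.nd (nat_lit 30) 
(.lf (nat_lit 2483087728) (dlOf (nat_lit 1) (nat_lit 0x400200120008004e82))) 
(.lf (nat_lit 5704313200) (dlOf (nat_lit 1) (nat_lit 0x8008000400200020008054e83)))) 
(.lf (nat_lit 5704313712) (dlOf (nat_lit 1) (nat_lit 0x200080020002001e0008055c03)))) 
(.nd (nat_lit 8) (.lf (nat_lit 469821552) (dlOf (nat_lit 1) (nat_lit 0x23400201880008004782))) 
(.nd (nat_lit 28) (.lf (nat_lit 3959482736) (dlOf (nat_lit 1) (nat_lit 0x400400020018004e82))) 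
(.lf (nat_lit 5301660016) (dlOf (nat_lit 1) (nat_lit 0x1c004000e0018004e82))))))))) 
(.nd (nat_lit 8) (.nd (nat_lit 7) (.nd (nat_lit 27) (.nd (nat_lit 19) (.nd (nat_lit 21) 
(.nd (nat_lit 20) (.lf (nat_lit 12640312) (dlOf (nat_lit 1) (nat_lit 0x1c00286d0a81))) 
(.lf (nat_lit 1343283256) (dlOf (nat_lit 2) (nat_lit 0x1886b40004c040098004003600081e0882)))) 
(.nd (nat_lit 22) 
(.lf (nat_lit 10543160) (dlOf (nat_lit 2) (nat_lit 0x93280000900800800080040002001200085f0b83))) 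
(.lf (nat_lit 14737464) (dlOf (nat_lit 2) (nat_lit 0x9fbc0026404002000400040008770482))))) 
(.nd (nat_lit 6) (.nd (nat_lit 20) 
(.lf (nat_lit 1611194424) (dlOf (nat_lit 2) (nat_lit 0xe01d00007018110680))) 
(.lf (nat_lit 35184696) (dlOf (nat_lit 1) (nat_lit 0x1000400100008ff0502)))) 
(.lf (nat_lit 23650424) (dlOf (nat_lit 1) (nat_lit 0x10008000800200040008b80083))))) 
(.nd (nat_lit 19) (.nd (nat_lit 9) (.nd (nat_lit 26) 
(.lf (nat_lit 6576726072) (dlOf (nat_lit 1) (nat_lit 0x1a00180b0001))) 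
(.lf (nat_lit 5838528568) (dlOf (nat_lit 1) (nat_lit 0x6c0018090001)))) (.nd (nat_lit 6) 
(.lf (nat_lit 6308292152) (dlOf (nat_lit 1) (nat_lit 0x18008003000200640008053783))) 
(.lf (nat_lit 5234551416) (dlOf (nat_lit 1) (nat_lit 0x60018055401))))) (.nd (nat_lit 20) 
(.nd (nat_lit 22) (.lf (nat_lit 738779192) (dlOf (nat_lit 2) (nat_lit 0xe01d00007018110680))) 
(.lf (nat_lit 474538040) (dlOf (nat_lit 3) (nat_lit 0x2c12c0003202005e096000188191a0500)))) 
(.lf (nat_lit 471392312) (dlOf (nat_lit 1) (nat_lit 0x4004000800082f1102)))))) (.nd (nat_lit 11) 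
(.nd (nat_lit 6) (.nd (nat_lit 10) 
(.lf (nat_lit 23650488) (dlOf (nat_lit 1) (nat_lit 0x8008000800200120008b80383))) (.nd (nat_lit 20) 
(.lf (nat_lit 60875960) (dlOf (nat_lit 1) (nat_lit 0xc004000200198c2c82))) 
(.lf (nat_lit 36758712) (dlOf (nat_lit 1) (nat_lit 0x20009072c81))))) (.nd (nat_lit 9) 
(.lf (nat_lit 2080433400) (dlOf (nat_lit 1) (nat_lit 0x20008092e81))) 
(.lf (nat_lit 6509618936) (dlOf (nat_lit 1) (nat_lit 0x880028003b81))))) (.nd (nat_lit 9) 
(.nd (nat_lit 10) (.lf (nat_lit 3221285048) (dlOf (nat_lit 1) (nat_lit 0x340028004901))) 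
(.nd (nat_lit 27) (.lf (nat_lit 1342237880) (dlOf (nat_lit 1) (nat_lit 0xe0018006281))) 
(.lf (nat_lit 134278328) (dlOf (nat_lit 1) (nat_lit 0x60028006281))))) (.nd (nat_lit 10) 
(.lf (nat_lit 1208019640) (dlOf (nat_lit 1) (nat_lit 0x8008000c00200020008095703))) 
(.lf (nat_lit 1342238392) (dlOf (nat_lit 1) (nat_lit 0x8008001000200060008007283))))))) 
(.nd (nat_lit 9) (.nd (nat_lit 26) (.nd (nat_lit 7) (.nd (nat_lit 10) (.nd (nat_lit 29) 
(.lf (nat_lit 1208017208) (dlOf (nat_lit 2) (nat_lit 0x601480001c080008008000c00200020008090b83))) 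
(.lf (nat_lit 671146296) (dlOf (nat_lit 1) (nat_lit 0x5c00080b0581)))) 
(.lf (nat_lit 8975672) (dlOf (nat_lit 1) (nat_lit 0x8008000800200020008519903)))) (.nd (nat_lit 6) 
(.lf (nat_lit 6308292024) (dlOf (nat_lit 4) (nat_lit 0x14032000400a000f004800584180038060001c0100009d04000c0180002004000238100018008000800200040008053603))) 
(.lf (nat_lit 8977912) (dlOf (nat_lit 1) (nat_lit 0xa001851cd01))))) (.nd (nat_lit 11) 
(.nd (nat_lit 7) (.lf (nat_lit 1543561528) (dlOf (nat_lit 1) (nat_lit 0x5c00080b0581))) 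
(.nd (nat_lit 12) 
(.lf (nat_lit 4899005880) (dlOf (nat_lit 2) (nat_lit 0x601b000100d000680640011c0c000800200020008053602))) 
(.lf (nat_lit 469824952) (dlOf (nat_lit 1) (nat_lit 0x20008009981))))) (.nd (nat_lit 6) 
(.lf (nat_lit 1409346872) (dlOf (nat_lit 1) (nat_lit 0x8008000400200020008006903))) 
(.nd (nat_lit 10) 
(.lf (nat_lit 2483087736) (dlOf (nat_lit 6) (nat_lit 0x401500636c0800200a802f4e040010054017a502001002a00795010004015003c9c0801d0008009800200a40008004e83))) 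
(.lf (nat_lit 2483088760) (dlOf (nat_lit 1) (nat_lit 0x20008000c00200280008006b83))))))) 
(.nd (nat_lit 6) (.nd (nat_lit 12) (.nd (nat_lit 7) (.nd (nat_lit 23) 
(.lf (nat_lit 583480) (dlOf (nat_lit 1) (nat_lit 0x6c0018003e01))) 
(.lf (nat_lit 8972088) (dlOf (nat_lit 1) (nat_lit 0x400400020008513e02)))) 
(.lf (nat_lit 2013326264) (dlOf (nat_lit 1) (nat_lit 0x20018005d01)))) (.nd (nat_lit 27) 
(.lf (nat_lit 2952853304) (dlOf (nat_lit 3) (nat_lit 0x301480060008000a208001805a0004502002c001800a101))) 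
(.lf (nat_lit 1476458296) (dlOf (nat_lit 1) (nat_lit 0x2001800a101))))) (.nd (nat_lit 7) 
(.nd (nat_lit 11) (.lf (nat_lit 2214650744) (dlOf (nat_lit 1) (nat_lit 0x160028002581))) 
(.nd (nat_lit 20) (.lf (nat_lit 1610673016) (dlOf (nat_lit 1) (nat_lit 0x20018005c01))) 
(.lf (nat_lit 19983224) (dlOf (nat_lit 1) (nat_lit 0x4002000200089d5c02))))) (.nd (nat_lit 10) 
(.lf (nat_lit 4764789752) (dlOf (nat_lit 1) (nat_lit 0x640018005f01))) 
(.lf (nat_lit 2348873720) (dlOf (nat_lit 1) (nat_lit 0x1b00080140002005e000800a603))))))))) 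
(.nd (nat_lit 8) (.nd (nat_lit 28) (.nd (nat_lit 19) (.nd (nat_lit 20) (.nd (nat_lit 27) 
(.nd (nat_lit 32) (.nd (nat_lit 6) (.nd (nat_lit 9) 
(.lf (nat_lit 6610992) (dlOf (nat_lit 2) (nat_lit 0x84000000390200020018430e81))) (.nd (nat_lit 24) 
(.lf (nat_lit 42265136) (dlOf (nat_lit 2) (nat_lit 0x93dc00029d000011608000c004001c0009245182))) 
(.lf (nat_lit 59042352) (dlOf (nat_lit 1) (nat_lit 0x4004000200097e5182))))) (.nd (nat_lit 3) 
(.lf (nat_lit 38068336) (dlOf (nat_lit 1) (nat_lit 0xec00200520009122482))) 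
(.lf (nat_lit 21291128) (dlOf (nat_lit 1) (nat_lit 0x20028a30c01))))) (.nd (nat_lit 26) 
(.nd (nat_lit 3) (.lf (nat_lit 5905899568) (dlOf (nat_lit 2) (nat_lit 0x220250001a818160580))) 
(.lf (nat_lit 5369028664) (dlOf (nat_lit 1) (nat_lit 0x200080d0b81)))) (.nd (nat_lit 31) 
(.lf (nat_lit 4362395696) (dlOf (nat_lit 3) (nat_lit 0x180a6000c0470007019800300b4001b61000180a6000c0470006019800300b4001b210003000400020018050602))) 
(.lf (nat_lit 6509879344) (dlOf (nat_lit 2) (nat_lit 0x220260001a818160580)))))) (.nd (nat_lit 31) 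
(.nd (nat_lit 7) (.lf (nat_lit 1208279088) (dlOf (nat_lit 2) (nat_lit 0x12039001130180b0480))) 
(.lf (nat_lit 671408304) (dlOf (nat_lit 3) (nat_lit 0x2c0000001401000100300009408019800800dc002009e0008184d83)))) 
(.nd (nat_lit 26) (.lf (nat_lit 2282020912) (dlOf (nat_lit 1) (nat_lit 0x140018100d81))) 
(.lf (nat_lit 2349129776) (dlOf (nat_lit 2) (nat_lit 0x500068000d408016000803a4002002000080c0f83)))))) 
(.nd (nat_lit 21) (.nd (nat_lit 22) (.nd (nat_lit 7) 
(.lf (nat_lit 68476976) (dlOf (nat_lit 2) (nat_lit 0x880000001e04000400400020008580e82))) 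
(.lf (nat_lit 51700912) (dlOf (nat_lit 1) (nat_lit 0x1000400060009512c02)))) (.nd (nat_lit 3) 
(.lf (nat_lit 30728240) (dlOf (nat_lit 3) (nat_lit 0x27c0000000f02007600000003818e40e80))) 
(.lf (nat_lit 22339640) (dlOf (nat_lit 1) (nat_lit 0x10008000800200040008ac0683))))) 
(.nd (nat_lit 9) (.nd (nat_lit 22) 
(.lf (nat_lit 62185520) (dlOf (nat_lit 13) (nat_lit 0x20a5b000b52d0000a964004d4a20064a4f0007185002352d80112944004947800060000007104000c51e00018000001c008001d4b60002a51000751e00028818002a96c001360400114b60004a510004902000652d80023808002a96c000fe04000d4b60007e020008a5b0003e81000952d8001f008005a96c00194b4001ca59003d5278001ec20077800801ac00201780009970d03))) 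
(.lf (nat_lit 7659568) (dlOf (nat_lit 2) (nat_lit 0x840000003902000200184c0e81)))) 
(.lf (nat_lit 2754932272) (dlOf (nat_lit 11) (nat_lit 0x405900042c0827e8218000aa04147810c000540201fe0b20002901001d05882980218000a2080f7016403300880002782000806d018a0334002416400160b104dc0448241022004c81060004e0e00240b20001981006305900001c080b602c800000040064004085c00180f7182)))))) 
(.nd (nat_lit 21) (.nd (nat_lit 7) (.nd (nat_lit 20) 
(.lf (nat_lit 42786864) (dlOf (nat_lit 1) (nat_lit 0x20029280301))) (.nd (nat_lit 24) 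
(.lf (nat_lit 6086704) (dlOf (nat_lit 1) (nat_lit 0x400200020008420002))) 
(.lf (nat_lit 22863920) (dlOf (nat_lit 1) (nat_lit 0x8008000400200020008b30683))))) 
(.nd (nat_lit 6) (.lf (nat_lit 34399408) (dlOf (nat_lit 1) (nat_lit 0x20018fb2c01))) 
(.lf (nat_lit 42787056) (dlOf (nat_lit 1) (nat_lit 0x11c0029281e81))))) (.nd (nat_lit 3) 
(.nd (nat_lit 23) (.nd (nat_lit 26) 
(.lf (nat_lit 2940976) (dlOf (nat_lit 1) (nat_lit 0x80080008002001600081e0903))) 
(.lf (nat_lit 2754404400) (dlOf (nat_lit 12) (nat_lit 0x2a688400aac3ec07f216904d70a900015820011884000482a40005304022a20f0096101002307ac0118288012e13d009309a004a00000005a1c0004422000220200b22110000d81007710880005c0802f0844000280410904220001302036e21100009010179108800044080bb884400020040010004002e00080e0682)))) 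
(.lf (nat_lit 11329584) (dlOf (nat_lit 1) (nat_lit 0x3000400020018690682)))) (.nd (nat_lit 9) 
(.nd (nat_lit 20) (.lf (nat_lit 11329592) (dlOf (nat_lit 1) (nat_lit 0x80028690d81))) 
(.lf (nat_lit 16572472) (dlOf (nat_lit 1) (nat_lit 0xc002000600088c0902)))) 
(.lf (nat_lit 41740856) (dlOf (nat_lit 1) (nat_lit 0x20019245201))))))) (.nd (nat_lit 3) 
(.nd (nat_lit 26) (.nd (nat_lit 30) (.nd (nat_lit 7) (.nd (nat_lit 31) 
(.lf (nat_lit 268754992) (dlOf (nat_lit 2) (nat_lit 0x3e00a80214052019a028003d01380008020014800800b8002001a0008120383))) 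
(.lf (nat_lit 2416238640) (dlOf (nat_lit 1) (nat_lit 0x80080004002000200080c0f83)))) 
(.lf (nat_lit 6711206064) (dlOf (nat_lit 1) (nat_lit 0x4004000200080c1602)))) (.nd (nat_lit 19) 
(.lf (nat_lit 1342496816) (dlOf (nat_lit 1) (nat_lit 0x8008000400200020008040703))) 
(.lf (nat_lit 3492601904) (dlOf (nat_lit 12) (nat_lit 0x2a687ec0aac3c807f216504d70ae0001582001187ec00482b80005304022a1fa00960f0002307580118288012e13d009309a004a00000005a1c00043f8000220200b21fc0000d8100770fe00005c0802f07f0000280410903f80001302036e1fc000090101790fe000044080bb87f000020040010004002e00080e0682))))) 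
(.nd (nat_lit 27) (.nd (nat_lit 19) 
(.lf (nat_lit 2483347504) (dlOf (nat_lit 2) (nat_lit 0x5d0078000d8080060008021c002004200080c0e83))) 
(.lf (nat_lit 4095533104) (dlOf (nat_lit 1) (nat_lit 0x200080d0601)))) (.nd (nat_lit 29) 
(.lf (nat_lit 470081584) (dlOf (nat_lit 1) (nat_lit 0x8008000400200020008040703))) 
(.nd (nat_lit 31) (.lf (nat_lit 2080694320) (dlOf (nat_lit 2) (nat_lit 0x12039001130180b0480))) 
(.lf (nat_lit 4228177968) (dlOf (nat_lit 3) (nat_lit 0x18098000c0400007019000300b00019a100018098000c0400006019000300b00019610003000400020018050602))))))) 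
(.nd (nat_lit 6) (.nd (nat_lit 19) (.nd (nat_lit 21) 
(.lf (nat_lit 2550456376) (dlOf (nat_lit 1) (nat_lit 0x200180c1281))) 
(.lf (nat_lit 1009049656) (dlOf (nat_lit 1) (nat_lit 0x10008000800200060009020483)))) 
(.nd (nat_lit 9) 
(.lf (nat_lit 4095533112) (dlOf (nat_lit 2) (nat_lit 0x1780000000004003c002000600080d0682))) 
(.lf (nat_lit 472705592) (dlOf (nat_lit 1) (nat_lit 0x80028a45201))))) (.nd (nat_lit 19) 
(.nd (nat_lit 9) (.nd (nat_lit 29) 
(.lf (nat_lit 5637464184) (dlOf (nat_lit 1) (nat_lit 0x400180f0b81))) 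
(.lf (nat_lit 6174335096) (dlOf (nat_lit 1) (nat_lit 0x20018100b81)))) 
(.lf (nat_lit 6375663224) (dlOf (nat_lit 2) (nat_lit 0x10280000240200020018003981)))) 
(.nd (nat_lit 26) 
(.lf (nat_lit 5773254776) (dlOf (nat_lit 3) (nat_lit 0x60390003201000e01c8000000800600080070002001400080c0b83))) 
(.lf (nat_lit 471654520) (dlOf (nat_lit 2) (nat_lit 0x182f4001d204003800200160008370482)))))))) 
(.nd (nat_lit 11) (.nd (nat_lit 26) (.nd (nat_lit 3) (.nd (nat_lit 12) (.nd (nat_lit 27) 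
(.nd (nat_lit 28) (.lf (nat_lit 3221545264) (dlOf (nat_lit 1) (nat_lit 0x60028137a01))) 
(.lf (nat_lit 805626160) (dlOf (nat_lit 2) (nat_lit 0x1c0000001c0200140018157a01)))) 
(.lf (nat_lit 671408432) (dlOf (nat_lit 6) (nat_lit 0x35202300230040017001400840000051108000c02c002a011803d806000800100058005001e0000013243000b80b00010052072c02300f1010000080740198030004a008002d002800100080074000004c7140792023014c01000560060008401000b600500259050310011806d80800000008041400400340018188402)))) 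
(.nd (nat_lit 6) (.lf (nat_lit 20248368) (dlOf (nat_lit 2) (nat_lit 0x75f3000210189da100))) 
(.lf (nat_lit 8188272) (dlOf (nat_lit 1) (nat_lit 0x80028518381))))) (.nd (nat_lit 6) 
(.nd (nat_lit 9) 
(.lf (nat_lit 135061816) (dlOf (nat_lit 2) (nat_lit 0xaf02d8000940801a800803b4002002e00081b0583))) 
(.lf (nat_lit 325432) (dlOf (nat_lit 1) (nat_lit 0x20004004a000800a102)))) 
(.lf (nat_lit 8185208) (dlOf (nat_lit 4) (nat_lit 0x80ea0003074c0005e0800143a80002e0200221d400000018513500))))) 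
(.nd (nat_lit 3) (.nd (nat_lit 7) (.nd (nat_lit 9) 
(.lf (nat_lit 1543823664) (dlOf (nat_lit 11) (nat_lit 0xafc046012e0200005004000b0014001c0000005d0a00fc0230004004000b0014001c0000005c0800780180002a81000401600e8008c020c04000e60180002a040022016000300a40c700460178020000f00e803580600038020000530e02600230006004000c00140020000000510800800230026004001c0014007400000050080002008001200280020000000980c0010010002c00500080000001281800080140008a0400a000400060018187a02))) 
(.lf (nat_lit 2886002480) (dlOf (nat_lit 2) (nat_lit 0x40460001a0200040028143d81)))) 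
(.nd (nat_lit 6) (.lf (nat_lit 2886002608) (dlOf (nat_lit 1) (nat_lit 0x4a0028144381))) 
(.lf (nat_lit 473228272) (dlOf (nat_lit 1) (nat_lit 0xc00200020008dd2882))))) (.nd (nat_lit 27) 
(.lf (nat_lit 4362920248) (dlOf (nat_lit 2) (nat_lit 0x181000004c0400a0002004400081a0582))) 
(.nd (nat_lit 28) 
(.lf (nat_lit 202170680) (dlOf (nat_lit 2) (nat_lit 0xaf02e0000980801a800803b4002002e00081b0583))) 
(.lf (nat_lit 4228702520) (dlOf (nat_lit 2) (nat_lit 0x180e40004a0400a0002004400081a0582))))))) 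
(.nd (nat_lit 21) (.nd (nat_lit 20) (.nd (nat_lit 28) (.nd (nat_lit 23) 
(.lf (nat_lit 4496615792) (dlOf (nat_lit 1) (nat_lit 0x80080004002000400080e4e83))) 
(.lf (nat_lit 59042160) (dlOf (nat_lit 1) (nat_lit 0xc004000200097e4e82)))) (.nd (nat_lit 3) 
(.lf (nat_lit 5771684208) (dlOf (nat_lit 1) (nat_lit 0x400400020008004e82))) 
(.lf (nat_lit 3624201720) (dlOf (nat_lit 1) (nat_lit 0xc400400400008146f82))))) (.nd (nat_lit 19) 
(.nd (nat_lit 23) (.lf (nat_lit 1880418672) (dlOf (nat_lit 1) (nat_lit 0x80028924e81))) 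
(.lf (nat_lit 60090736) (dlOf (nat_lit 1) (nat_lit 0x20029844e81)))) 
(.lf (nat_lit 1880942960) (dlOf (nat_lit 1) (nat_lit 0x400200020008d74e82))))) (.nd (nat_lit 19) 
(.nd (nat_lit 20) (.nd (nat_lit 22) 
(.lf (nat_lit 472181104) (dlOf (nat_lit 1) (nat_lit 0x80080004002000200088c4e83))) 
(.lf (nat_lit 31779184) (dlOf (nat_lit 1) (nat_lit 0x40028e94e81)))) (.nd (nat_lit 7) 
(.lf (nat_lit 2754931056) (dlOf (nat_lit 2) (nat_lit 0x100b2009468180f4e80))) 
(.lf (nat_lit 20245488) (dlOf (nat_lit 1) (nat_lit 0x8008001c002000400089d5f03))))) 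
(.nd (nat_lit 7) (.nd (nat_lit 24) 
(.lf (nat_lit 49080688) (dlOf (nat_lit 1) (nat_lit 0x8008000400200020009464e83))) 
(.lf (nat_lit 32303472) (dlOf (nat_lit 1) (nat_lit 0x400400040008ef4e82)))) 
(.lf (nat_lit 33352176) (dlOf (nat_lit 1) (nat_lit 0x40028f54f01)))))))))))

end

end Pool.Agent.Lib.MP_5854e1_co.Cz

namespace Pool.Agent.Lib.MP_5854e1_co.Cz

noncomputable section

noncomputable def tz101 : DT := (.nd (nat_lit 15) (.nd (nat_lit 5) (.nd (nat_lit 18) 
(.nd (nat_lit 3) (.nd (nat_lit 10) (.nd (nat_lit 6) (.nd (nat_lit 19) (.nd (nat_lit 8) 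
(.nd (nat_lit 9) (.nd (nat_lit 11) (.nd (nat_lit 21) 
(.lf (nat_lit 25190417) (dlOf (nat_lit 2) (nat_lit 0x6898600d1c818bf0880))) 
(.lf (nat_lit 23093265) (dlOf (nat_lit 2) (nat_lit 0x62b7000070040004004001a0008b50182)))) 
(.lf (nat_lit 6576695313) (dlOf (nat_lit 1) (nat_lit 0x60018004701)))) (.nd (nat_lit 11) 
(.lf (nat_lit 3493880337) (dlOf (nat_lit 2) (nat_lit 0x400c0000e80181b0d80))) 
(.lf (nat_lit 536902161) (dlOf (nat_lit 1) (nat_lit 0x80040002001800b282))))) (.nd (nat_lit 7) 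
(.nd (nat_lit 9) (.lf (nat_lit 604008721) (dlOf (nat_lit 1) (nat_lit 0x40028008081))) 
(.lf (nat_lit 19948305) (dlOf (nat_lit 1) (nat_lit 0xc00189d2101)))) 
(.lf (nat_lit 3493880209) (dlOf (nat_lit 2) (nat_lit 0x4030000000040010004000800081b0782))))) 
(.nd (nat_lit 20) (.nd (nat_lit 29) (.nd (nat_lit 21) (.nd (nat_lit 22) 
(.lf (nat_lit 4362625041) (dlOf (nat_lit 2) (nat_lit 0x38000000000040114002001a00080b0582))) 
(.lf (nat_lit 55074833) (dlOf (nat_lit 1) (nat_lit 0x4004000e00096a0202)))) 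
(.lf (nat_lit 19423249) (dlOf (nat_lit 1) (nat_lit 0x4004000200089a0a02)))) (.nd (nat_lit 26) 
(.nd (nat_lit 27) (.lf (nat_lit 1879597073) (dlOf (nat_lit 1) (nat_lit 0x400200020008220202))) 
(.lf (nat_lit 2819121169) (dlOf (nat_lit 2) (nat_lit 0x3301b0000000800c00080008002003600081a0483)))) 
(.lf (nat_lit 4228407313) (dlOf (nat_lit 2) (nat_lit 0x38000000000040114002001a00080b0582))))) 
(.nd (nat_lit 8) (.nd (nat_lit 7) 
(.lf (nat_lit 5791761) (dlOf (nat_lit 1) (nat_lit 0xa00183e0201))) 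
(.lf (nat_lit 4095238289) (dlOf (nat_lit 1) (nat_lit 0x20008081081)))) (.nd (nat_lit 11) 
(.lf (nat_lit 43540881) (dlOf (nat_lit 1) (nat_lit 0x200292a1001))) 
(.lf (nat_lit 54028689) (dlOf (nat_lit 2) (nat_lit 0x4bfa000b10195f4e80))))))) (.nd (nat_lit 11) 
(.nd (nat_lit 26) (.nd (nat_lit 7) (.nd (nat_lit 29) 
(.lf (nat_lit 5368733777) (dlOf (nat_lit 1) (nat_lit 0x740018000001))) 
(.lf (nat_lit 2684379217) (dlOf (nat_lit 3) (nat_lit 0x5806e015e002001c03700aef818000000)))) 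
(.nd (nat_lit 9) (.lf (nat_lit 43016401) (dlOf (nat_lit 1) (nat_lit 0x4004000200092a0902))) 
(.lf (nat_lit 19952337) (dlOf (nat_lit 1) (nat_lit 0x4002000200089d8c82))))) (.nd (nat_lit 19) 
(.nd (nat_lit 28) (.lf (nat_lit 6643802193) (dlOf (nat_lit 1) (nat_lit 0x80018000001))) 
(.lf (nat_lit 4764754001) (dlOf (nat_lit 1) (nat_lit 0x460018000001)))) (.nd (nat_lit 21) 
(.lf (nat_lit 3154665553) (dlOf (nat_lit 1) (nat_lit 0x18008003800200120008310203))) 
(.lf (nat_lit 2754109521) (dlOf (nat_lit 2) (nat_lit 0x7104220002a02000200280c1901)))))) 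
(.nd (nat_lit 7) (.nd (nat_lit 8) (.nd (nat_lit 20) 
(.lf (nat_lit 34105937) (dlOf (nat_lit 1) (nat_lit 0xc0028fb5281))) 
(.lf (nat_lit 56126033) (dlOf (nat_lit 1) (nat_lit 0x1000400060009735282)))) (.nd (nat_lit 27) 
(.lf (nat_lit 4362107217) (dlOf (nat_lit 1) (nat_lit 0x270008013800200b2000800ab83))) 
(.lf (nat_lit 469793105) (dlOf (nat_lit 1) (nat_lit 0x2002800ab81))))) (.nd (nat_lit 21) 
(.nd (nat_lit 8) 
(.lf (nat_lit 1073768657) (dlOf (nat_lit 1) (nat_lit 0x8008000400200020008004a03))) 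
(.lf (nat_lit 6442478033) (dlOf (nat_lit 1) (nat_lit 0x320018004e81)))) (.nd (nat_lit 19) 
(.lf (nat_lit 472934865) (dlOf (nat_lit 1) (nat_lit 0x20028b54e81))) 
(.lf (nat_lit 1344825809) (dlOf (nat_lit 1) (nat_lit 0x20028984e81)))))))) (.nd (nat_lit 7) 
(.nd (nat_lit 12) (.nd (nat_lit 26) (.nd (nat_lit 19) (.nd (nat_lit 6) 
(.lf (nat_lit 268461073) (dlOf (nat_lit 1) (nat_lit 0x300018002881))) 
(.lf (nat_lit 8414801) (dlOf (nat_lit 1) (nat_lit 0x320028513881)))) (.nd (nat_lit 8) 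
(.lf (nat_lit 46689297) (dlOf (nat_lit 1) (nat_lit 0x20029385f81))) 
(.lf (nat_lit 39347473) (dlOf (nat_lit 1) (nat_lit 0x60019193001))))) (.nd (nat_lit 27) 
(.nd (nat_lit 28) (.lf (nat_lit 6509585425) (dlOf (nat_lit 1) (nat_lit 0x160028002881))) 
(.lf (nat_lit 5167408145) (dlOf (nat_lit 1) (nat_lit 0x140018002881)))) 
(.lf (nat_lit 1811964945) (dlOf (nat_lit 1) (nat_lit 0x40018002881))))) (.nd (nat_lit 8) 
(.nd (nat_lit 26) 
(.lf (nat_lit 2952822289) (dlOf (nat_lit 4) (nat_lit 0x804c00052040280038012801b0000b82001800e000054080060008000c0020010000800ce03))) 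
(.lf (nat_lit 469794321) (dlOf (nat_lit 2) (nat_lit 0x21e70007a81800ce00)))) (.nd (nat_lit 6) 
(.nd (nat_lit 26) (.lf (nat_lit 4160779537) (dlOf (nat_lit 1) (nat_lit 0x54002001c0008009682))) 
(.lf (nat_lit 3422582033) (dlOf (nat_lit 1) (nat_lit 0x8008005c002002c0008009683)))) 
(.lf (nat_lit 134249809) (dlOf (nat_lit 1) (nat_lit 0x800800040020002000800c903)))))) 
(.nd (nat_lit 8) (.nd (nat_lit 9) (.nd (nat_lit 11) (.nd (nat_lit 20) 
(.lf (nat_lit 2147509393) (dlOf (nat_lit 1) (nat_lit 0x4000400160008002b82))) 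
(.lf (nat_lit 472933521) (dlOf (nat_lit 1) (nat_lit 0x100028b52b81)))) 
(.lf (nat_lit 134249617) (dlOf (nat_lit 1) (nat_lit 0xc001800c201)))) (.nd (nat_lit 26) 
(.nd (nat_lit 27) 
(.lf (nat_lit 2684384913) (dlOf (nat_lit 9) (nat_lit 0x1c01c000e00000018820003007000180000005e08003401c001c0000001702000e007000780000005a08002401c001600000003020001007000080000000a08002c01c0018000000010200010070000000800a00080028002001e0008009e83))) 
(.lf (nat_lit 2281731729) (dlOf (nat_lit 4) (nat_lit 0x809c0005004000c04e001402600012820005013800580980004808005c004001a0018009e82)))) 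
(.nd (nat_lit 27) 
(.lf (nat_lit 67139217) (dlOf (nat_lit 2) (nat_lit 0x82e80006404000400200020008009e82))) 
(.lf (nat_lit 6643807889) (dlOf (nat_lit 4) (nat_lit 0x3901a800980d0004400000019060064035000c01a00048000000240c00c406a000c0340003018800480000000010001c00400100018009e82)))))) 
(.nd (nat_lit 28) (.nd (nat_lit 6) (.nd (nat_lit 20) 
(.lf (nat_lit 1744856465) (dlOf (nat_lit 1) (nat_lit 0x8008000400200020008003603))) 
(.lf (nat_lit 61891985) (dlOf (nat_lit 1) (nat_lit 0xc0029923601)))) 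
(.lf (nat_lit 4294995409) (dlOf (nat_lit 1) (nat_lit 0x400400020008006d02)))) (.nd (nat_lit 9) 
(.nd (nat_lit 6) (.lf (nat_lit 4095763857) (dlOf (nat_lit 1) (nat_lit 0x4002000200080e3602))) 
(.lf (nat_lit 1879076305) (dlOf (nat_lit 1) (nat_lit 0x1000400080018006d02)))) (.nd (nat_lit 12) 
(.lf (nat_lit 4026558353) (dlOf (nat_lit 1) (nat_lit 0x80008004201))) 
(.lf (nat_lit 1476425617) (dlOf (nat_lit 1) (nat_lit 0x2002800a301))))))))) (.nd (nat_lit 26) 
(.nd (nat_lit 19) (.nd (nat_lit 6) (.nd (nat_lit 9) (.nd (nat_lit 8) 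
(.lf (nat_lit 28336153) (dlOf (nat_lit 1) (nat_lit 0x20008d80681))) (.nd (nat_lit 28) 
(.lf (nat_lit 6039827737) (dlOf (nat_lit 3) (nat_lit 0x1d80d400380680006d040074035000301a0000001000480080078002002a0008009703))) 
(.lf (nat_lit 4160779545) (dlOf (nat_lit 3) (nat_lit 0x5801400190020000901000800500000004003c00400780018009702))))) 
(.nd (nat_lit 7) (.nd (nat_lit 27) (.lf (nat_lit 28185) (dlOf (nat_lit 1) (nat_lit 0x20028007101))) 
(.lf (nat_lit 3087035929) (dlOf (nat_lit 1) (nat_lit 0x20028007101)))) 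
(.lf (nat_lit 2952819353) (dlOf (nat_lit 4) (nat_lit 0x360140050081001100a0027f8080348050013f404010400200620008008c82))))) 
(.nd (nat_lit 10) (.nd (nat_lit 11) 
(.lf (nat_lit 1342206297) (dlOf (nat_lit 1) (nat_lit 0x400400020018008382))) 
(.lf (nat_lit 8419673) (dlOf (nat_lit 1) (nat_lit 0x800800040020002000851ab83)))) (.nd (nat_lit 7) 
(.nd (nat_lit 28) (.lf (nat_lit 4294995289) (dlOf (nat_lit 1) (nat_lit 0x60018006a81))) 
(.lf (nat_lit 1879076185) (dlOf (nat_lit 1) (nat_lit 0x18008001400200040008006a83)))) 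
(.lf (nat_lit 3623909337) (dlOf (nat_lit 1) (nat_lit 0x2800800180020010000800a603)))))) 
(.nd (nat_lit 20) (.nd (nat_lit 6) (.nd (nat_lit 9) (.nd (nat_lit 23) 
(.lf (nat_lit 2646041) (dlOf (nat_lit 3) (nat_lit 0x2400000020010001051800000080040008007400200060008180403))) 
(.lf (nat_lit 11034649) (dlOf (nat_lit 2) (nat_lit 0x2612c0049404000400400060008660482)))) 
(.lf (nat_lit 50881049) (dlOf (nat_lit 1) (nat_lit 0x4004000200094d8702)))) (.nd (nat_lit 24) 
(.lf (nat_lit 4743257) (dlOf (nat_lit 1) (nat_lit 0x4004000200082b0802))) 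
(.lf (nat_lit 21520473) (dlOf (nat_lit 2) (nat_lit 0x1ccf100016018a40680))))) (.nd (nat_lit 9) 
(.nd (nat_lit 7) (.nd (nat_lit 22) 
(.lf (nat_lit 3491258393) (dlOf (nat_lit 3) (nat_lit 0x70fe0053d4080018578027420400b800400440008080502))) 
(.lf (nat_lit 5791769) (dlOf (nat_lit 1) (nat_lit 0x400183e0481)))) 
(.lf (nat_lit 37251481) (dlOf (nat_lit 1) (nat_lit 0x4002000c00090d4e82)))) (.nd (nat_lit 6) 
(.lf (nat_lit 1345872409) (dlOf (nat_lit 3) (nat_lit 0x1608b80011408005045c0008604015800400240008e07e82))) 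
(.lf (nat_lit 54028889) (dlOf (nat_lit 4) (nat_lit 0x660c800e3048000d8220012bfb00035fd0001ad2800296520008a7b0001288000260900008c08007a97c00044040004004000600095f5302))))))) 
(.nd (nat_lit 8) (.nd (nat_lit 12) (.nd (nat_lit 11) (.nd (nat_lit 10) (.nd (nat_lit 19) 
(.lf (nat_lit 2755682329) (dlOf (nat_lit 2) (nat_lit 0x171238076a0080008008000c002000200081b0003))) 
(.lf (nat_lit 2753060889) (dlOf (nat_lit 3) (nat_lit 0x7108805970080018550027080400b800400440008080502)))) 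
(.lf (nat_lit 2752013337) (dlOf (nat_lit 1) (nat_lit 0x20018002881)))) (.nd (nat_lit 6) 
(.lf (nat_lit 1006659737) (dlOf (nat_lit 1) (nat_lit 0x10008000400200020008004803))) 
(.lf (nat_lit 472410713) (dlOf (nat_lit 2) (nat_lit 0x3859c0005c04001400200060008985302))))) 
(.nd (nat_lit 6) (.nd (nat_lit 27) 
(.lf (nat_lit 604009113) (dlOf (nat_lit 1) (nat_lit 0x20008008c81))) 
(.lf (nat_lit 469791385) (dlOf (nat_lit 1) (nat_lit 0x400200020008008c82)))) (.nd (nat_lit 9) 
(.nd (nat_lit 11) (.lf (nat_lit 67137625) (dlOf (nat_lit 1) (nat_lit 0x380018007d81))) 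
(.lf (nat_lit 201357401) (dlOf (nat_lit 1) (nat_lit 0x1b000400a6000800a782)))) 
(.lf (nat_lit 3691018841) (dlOf (nat_lit 1) (nat_lit 0x880020012000800b682)))))) (.nd (nat_lit 7) 
(.nd (nat_lit 6) (.nd (nat_lit 10) 
(.lf (nat_lit 67658009) (dlOf (nat_lit 1) (nat_lit 0x3c002000e00082d0702))) 
(.lf (nat_lit 3422582041) (dlOf (nat_lit 4) (nat_lit 0x1a0068001c408002803800680000001e04003000d0004000000000100010008009000200220008009703)))) 
(.nd (nat_lit 10) (.nd (nat_lit 11) 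
(.lf (nat_lit 3154665817) (dlOf (nat_lit 1) (nat_lit 0x8008000800200020008310883))) 
(.lf (nat_lit 1006664025) (dlOf (nat_lit 2) (nat_lit 0x2202a0019f00800a8008000c002002a000800ab83)))) 
(.lf (nat_lit 604009817) (dlOf (nat_lit 1) (nat_lit 0x400200020008009902))))) (.nd (nat_lit 10) 
(.nd (nat_lit 9) 
(.lf (nat_lit 201357785) (dlOf (nat_lit 3) (nat_lit 0xa0160058781000201b0029f80802b000800500020040000800b283))) 
(.lf (nat_lit 5301627865) (dlOf (nat_lit 1) (nat_lit 0x800400020008005e02)))) (.nd (nat_lit 6) 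
(.lf (nat_lit 3691017625) (dlOf (nat_lit 2) (nat_lit 0x54015004e6818009900))) (.nd (nat_lit 11) 
(.lf (nat_lit 469792217) (dlOf (nat_lit 3) (nat_lit 0xc08e000100100060470000740800a80080008002001c0008009b03))) 
(.lf (nat_lit 1409314265) (dlOf (nat_lit 1) (nat_lit 0xa0018006d81)))))))))) (.nd (nat_lit 3) 
(.nd (nat_lit 28) (.nd (nat_lit 19) (.nd (nat_lit 26) (.nd (nat_lit 29) (.nd (nat_lit 6) 
(.nd (nat_lit 7) (.lf (nat_lit 60058641) (dlOf (nat_lit 1) (nat_lit 0x4400200420009845f82))) 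
(.lf (nat_lit 8675729) (dlOf (nat_lit 1) (nat_lit 0x8008000400200020008511003)))) (.nd (nat_lit 10) 
(.lf (nat_lit 3221512529) (dlOf (nat_lit 8) (nat_lit 0x2a0118002006203b200a0003203004d01881190028000c208014408c0004e0200420460002681000d00500011008003015800740aa00120520019026800700d8002c06400c602b006500f0012004400ec020045e00a0006004004f8018000803400480ac003a055001b029000d8134007006c00380340016019004600c401d005600de01e0033008801d004008f0014001000800ad0030000fc7811d000808e80020dd80008124d03))) 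
(.lf (nat_lit 20213073) (dlOf (nat_lit 1) (nat_lit 0x2400189d6a01))))) (.nd (nat_lit 27) 
(.nd (nat_lit 6) 
(.lf (nat_lit 537157649) (dlOf (nat_lit 2) (nat_lit 0x4004200d8302015c0028030881))) 
(.lf (nat_lit 1610901073) (dlOf (nat_lit 1) (nat_lit 0x400200020008093882)))) (.nd (nat_lit 32) 
(.lf (nat_lit 671375441) (dlOf (nat_lit 1) (nat_lit 0x10008000800200020008171003))) 
(.lf (nat_lit 4966342737) (dlOf (nat_lit 2) (nat_lit 0x1c800c0005202000200080b0681)))))) 
(.nd (nat_lit 6) (.nd (nat_lit 9) (.nd (nat_lit 30) 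
(.lf (nat_lit 604266513) (dlOf (nat_lit 2) (nat_lit 0x2018001600880020038000640c0040004002e0018110402))) 
(.lf (nat_lit 1678008337) (dlOf (nat_lit 2) (nat_lit 0x380380035e0400f800400100018130482)))) 
(.nd (nat_lit 8) (.lf (nat_lit 3959710225) (dlOf (nat_lit 1) (nat_lit 0x400400020008128402))) 
(.lf (nat_lit 2885969681) (dlOf (nat_lit 1) (nat_lit 0x1a0028143c01))))) (.nd (nat_lit 8) 
(.nd (nat_lit 11) (.nd (nat_lit 27) 
(.lf (nat_lit 3825492049) (dlOf (nat_lit 3) (nat_lit 0x1401400240000002b02000e000000150080018008004400200460008171003))) 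
(.lf (nat_lit 5033451601) (dlOf (nat_lit 2) (nat_lit 0x1c800c0005202000200080b0681)))) 
(.lf (nat_lit 2751756369) (dlOf (nat_lit 1) (nat_lit 0x800800040020002000800a703)))) 
(.nd (nat_lit 7) (.lf (nat_lit 2752799057) (dlOf (nat_lit 1) (nat_lit 0x20008048b01))) 
(.lf (nat_lit 6509846993) (dlOf (nat_lit 5) (nat_lit 0x3804c0026017005530200110130009805c014bc08002004c001c0170052e0200060130007005c0148e08003400400680018157102))))))) 
(.nd (nat_lit 20) (.nd (nat_lit 10) (.nd (nat_lit 21) (.nd (nat_lit 6) 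
(.lf (nat_lit 135029265) (dlOf (nat_lit 1) (nat_lit 0xc8002000200081b0d82))) 
(.lf (nat_lit 13394001) (dlOf (nat_lit 2) (nat_lit 0xf759400030df00015028721900)))) 
(.nd (nat_lit 23) (.lf (nat_lit 2754371601) (dlOf (nat_lit 2) (nat_lit 0x80000001d8180e0100))) 
(.lf (nat_lit 28074001) (dlOf (nat_lit 1) (nat_lit 0x40028d50301))))) (.nd (nat_lit 7) 
(.lf (nat_lit 61629457) (dlOf (nat_lit 1) (nat_lit 0x1000200040009922882))) (.nd (nat_lit 23) 
(.lf (nat_lit 53241233) (dlOf (nat_lit 1) (nat_lit 0x4c0019573601))) 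
(.lf (nat_lit 61629841) (dlOf (nat_lit 1) (nat_lit 0x20029923601)))))) (.nd (nat_lit 7) 
(.nd (nat_lit 6) (.nd (nat_lit 10) (.nd (nat_lit 24) 
(.lf (nat_lit 10248209) (dlOf (nat_lit 1) (nat_lit 0xa8008000c002000400085c0883))) 
(.lf (nat_lit 60579857) (dlOf (nat_lit 1) (nat_lit 0x8000298b0081)))) 
(.lf (nat_lit 39609361) (dlOf (nat_lit 1) (nat_lit 0x20009192881)))) 
(.lf (nat_lit 45899857) (dlOf (nat_lit 1) (nat_lit 0x400400020009360702)))) (.nd (nat_lit 11) 
(.lf (nat_lit 43803025) (dlOf (nat_lit 1) (nat_lit 0x4004000600092a1002))) 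
(.lf (nat_lit 33319313) (dlOf (nat_lit 1) (nat_lit 0x20018f54e81))))))) (.nd (nat_lit 6) 
(.nd (nat_lit 26) (.nd (nat_lit 29) (.nd (nat_lit 19) (.nd (nat_lit 10) 
(.lf (nat_lit 1342464017) (dlOf (nat_lit 2) (nat_lit 0x4d0e880848544018826e00fe081005300180225c2801b0008002800200080008030883))) 
(.lf (nat_lit 5771652113) (dlOf (nat_lit 1) (nat_lit 0x8008000400200020008005f83)))) 
(.nd (nat_lit 9) (.lf (nat_lit 3492569105) (dlOf (nat_lit 2) (nat_lit 0x80000001d8180e0100))) 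
(.lf (nat_lit 3491521041) (dlOf (nat_lit 2) (nat_lit 0x240458000000804f0008011c002002e0008090d83))))) 
(.nd (nat_lit 7) (.nd (nat_lit 9) 
(.lf (nat_lit 805593105) (dlOf (nat_lit 2) (nat_lit 0x38038002460400f800400100018130482))) 
(.lf (nat_lit 4026819089) (dlOf (nat_lit 1) (nat_lit 0x6800400040008090d82)))) (.nd (nat_lit 11) 
(.lf (nat_lit 4026818961) (dlOf (nat_lit 1) (nat_lit 0x110008003000200020008090783))) 
(.lf (nat_lit 5100562833) (dlOf (nat_lit 1) (nat_lit 0x200180d4e81)))))) (.nd (nat_lit 30) 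
(.nd (nat_lit 20) (.nd (nat_lit 31) 
(.lf (nat_lit 470048785) (dlOf (nat_lit 2) (nat_lit 0x4d0e880848544018826e00fe0810053003803af02801b0008002800200080008030883))) 
(.lf (nat_lit 2617532433) (dlOf (nat_lit 5) (nat_lit 0x480a00004804003c04e0001c02000c0250000a8100060120000080800600080060002000200080e0403)))) 
(.lf (nat_lit 471097361) (dlOf (nat_lit 3) (nat_lit 0x80ee0002502000207700011818270300)))) 
(.nd (nat_lit 7) 
(.lf (nat_lit 1409572881) (dlOf (nat_lit 2) (nat_lit 0x40042008e102015c0028030881))) 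
(.nd (nat_lit 10) (.lf (nat_lit 6375629201) (dlOf (nat_lit 1) (nat_lit 0x1c0018001001))) 
(.lf (nat_lit 6375630225) (dlOf (nat_lit 1) (nat_lit 0x22a0028003601))))))) (.nd (nat_lit 30) 
(.nd (nat_lit 26) (.nd (nat_lit 7) (.nd (nat_lit 29) 
(.lf (nat_lit 402939985) (dlOf (nat_lit 3) (nat_lit 0x50068000b40800480340000004002c004000400080b0682))) 
(.lf (nat_lit 3087294545) (dlOf (nat_lit 3) (nat_lit 0x1401400240000002782000e000000134080018008004400200460008171003)))) 
(.lf (nat_lit 4697907409) (dlOf (nat_lit 1) (nat_lit 0x18002000a00080c1882)))) (.nd (nat_lit 19) 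
(.lf (nat_lit 335831121) (dlOf (nat_lit 3) (nat_lit 0x50068000b40800480340000004002c004000400080b0682))) 
(.lf (nat_lit 470573137) (dlOf (nat_lit 1) (nat_lit 0x20018121901))))) (.nd (nat_lit 8) 
(.nd (nat_lit 29) 
(.lf (nat_lit 1543790673) (dlOf (nat_lit 1) (nat_lit 0x10008000800200020008171003))) 
(.lf (nat_lit 2080661585) (dlOf (nat_lit 1) (nat_lit 0x400180a1701)))) (.nd (nat_lit 7) 
(.nd (nat_lit 10) (.lf (nat_lit 3490996561) (dlOf (nat_lit 1) (nat_lit 0x420008048201))) 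
(.lf (nat_lit 3624168785) (dlOf (nat_lit 2) (nat_lit 0xe000000028040054002000a0008146a02)))) 
(.lf (nat_lit 3624168913) (dlOf (nat_lit 1) (nat_lit 0x460028146d01)))))))) (.nd (nat_lit 26) 
(.nd (nat_lit 6) (.nd (nat_lit 19) (.nd (nat_lit 23) (.nd (nat_lit 8) (.nd (nat_lit 27) 
(.nd (nat_lit 31) (.lf (nat_lit 805593113) (dlOf (nat_lit 1) (nat_lit 0x44002000c0008130482))) 
(.lf (nat_lit 2953076761) (dlOf (nat_lit 1) (nat_lit 0x18004002400080f0482)))) 
(.lf (nat_lit 1476681753) (dlOf (nat_lit 1) (nat_lit 0xc00200040008110682)))) (.nd (nat_lit 7) 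
(.lf (nat_lit 5905867033) (dlOf (nat_lit 1) (nat_lit 0x20028154001))) 
(.lf (nat_lit 3489950105) (dlOf (nat_lit 1) (nat_lit 0x20008004e81))))) (.nd (nat_lit 20) 
(.nd (nat_lit 21) (.lf (nat_lit 25452569) (dlOf (nat_lit 1) (nat_lit 0x20028c10001))) 
(.lf (nat_lit 10772505) (dlOf (nat_lit 1) (nat_lit 0x2800400240018620482)))) (.nd (nat_lit 24) 
(.lf (nat_lit 47472665) (dlOf (nat_lit 1) (nat_lit 0x200093f0181))) 
(.lf (nat_lit 30695449) (dlOf (nat_lit 1) (nat_lit 0x11c00201a00008e40902)))))) (.nd (nat_lit 20) 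
(.nd (nat_lit 7) (.nd (nat_lit 22) (.nd (nat_lit 23) 
(.lf (nat_lit 2819383321) (dlOf (nat_lit 1) (nat_lit 0x80008250481))) 
(.lf (nat_lit 9199641) (dlOf (nat_lit 1) (nat_lit 0x400200020008530102)))) 
(.lf (nat_lit 5005337) (dlOf (nat_lit 1) (nat_lit 0x80080004002000200082f0483)))) 
(.lf (nat_lit 19690137) (dlOf (nat_lit 1) (nat_lit 0x80080004002000200089d8c83)))) (.nd (nat_lit 9) 
(.nd (nat_lit 24) (.lf (nat_lit 1344036889) (dlOf (nat_lit 1) (nat_lit 0x4004000200083b0582))) 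
(.lf (nat_lit 18636825) (dlOf (nat_lit 1) (nat_lit 0x400200020008960482)))) 
(.lf (nat_lit 20737561) (dlOf (nat_lit 1) (nat_lit 0x600089d7101)))))) (.nd (nat_lit 27) 
(.nd (nat_lit 30) (.nd (nat_lit 7) 
(.lf (nat_lit 268722265) (dlOf (nat_lit 1) (nat_lit 0x400400280008100702))) (.nd (nat_lit 9) 
(.lf (nat_lit 20212953) (dlOf (nat_lit 1) (nat_lit 0x200189d6481))) 
(.lf (nat_lit 8155865) (dlOf (nat_lit 1) (nat_lit 0x28008000400200080008518c83))))) 
(.nd (nat_lit 8) (.nd (nat_lit 29) 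
(.lf (nat_lit 5368995929) (dlOf (nat_lit 1) (nat_lit 0xa00280b0701))) 
(.lf (nat_lit 3758383193) (dlOf (nat_lit 2) (nat_lit 0x1101a80009c080038008000400200020008170803)))) 
(.lf (nat_lit 3221512537) (dlOf (nat_lit 3) (nat_lit 0xc01140004404004c08a000200200020008124d81))))) 
(.nd (nat_lit 28) (.nd (nat_lit 19) (.nd (nat_lit 29) 
(.lf (nat_lit 5503213657) (dlOf (nat_lit 1) (nat_lit 0xa00280b0701))) 
(.lf (nat_lit 4966342745) (dlOf (nat_lit 1) (nat_lit 0x200080b0701)))) 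
(.lf (nat_lit 135028825) (dlOf (nat_lit 1) (nat_lit 0x14002000200081b0002)))) (.nd (nat_lit 8) 
(.lf (nat_lit 402939993) (dlOf (nat_lit 1) (nat_lit 0x28004001200180b0702))) 
(.lf (nat_lit 3624168793) (dlOf (nat_lit 1) (nat_lit 0x7e0028146a81))))))) (.nd (nat_lit 27) 
(.nd (nat_lit 28) (.nd (nat_lit 31) (.nd (nat_lit 8) (.nd (nat_lit 19) 
(.lf (nat_lit 1678008345) (dlOf (nat_lit 1) (nat_lit 0x44002000c0008130482))) 
(.lf (nat_lit 4362887193) (dlOf (nat_lit 1) (nat_lit 0x18004000800081a0002)))) 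
(.lf (nat_lit 4362887449) (dlOf (nat_lit 1) (nat_lit 0x80080018002000600081a0483)))) 
(.nd (nat_lit 8) (.nd (nat_lit 9) 
(.lf (nat_lit 2214879257) (dlOf (nat_lit 1) (nat_lit 0x1f4004009c00080f0502))) 
(.lf (nat_lit 3288621593) (dlOf (nat_lit 1) (nat_lit 0x2c002000e0008090d82)))) 
(.lf (nat_lit 6509846809) (dlOf (nat_lit 1) (nat_lit 0x20028154001))))) (.nd (nat_lit 6) 
(.lf (nat_lit 3557062937) (dlOf (nat_lit 5) (nat_lit 0x2c0380001281002901c00008c0802400e00003004000807000004020002002812ab01))) 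
(.nd (nat_lit 29) (.nd (nat_lit 31) 
(.lf (nat_lit 335831129) (dlOf (nat_lit 1) (nat_lit 0x28004001200180b0702))) 
(.lf (nat_lit 2483314777) (dlOf (nat_lit 3) (nat_lit 0x880900004e04001c048001001c000800a800300080004a100014004000a00180a1182)))) 
(.lf (nat_lit 3020185689) (dlOf (nat_lit 3) (nat_lit 0x60350001481005601a80009c080018008000800200060008150803)))))) 
(.nd (nat_lit 29) (.nd (nat_lit 19) (.nd (nat_lit 6) (.nd (nat_lit 30) 
(.lf (nat_lit 2617532441) (dlOf (nat_lit 1) (nat_lit 0x4002005800080e0502))) 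
(.lf (nat_lit 3691274265) (dlOf (nat_lit 2) (nat_lit 0x480000000004001000400040008110482)))) 
(.lf (nat_lit 2349097049) (dlOf (nat_lit 3) (nat_lit 0x880900002804001c048001001c000800a8003000800024100014004000a00180a1182)))) 
(.nd (nat_lit 9) (.lf (nat_lit 471621657) (dlOf (nat_lit 1) (nat_lit 0xc000400800008360482))) 
(.lf (nat_lit 202138137) (dlOf (nat_lit 1) (nat_lit 0x190008007c002000400081b0d83))))) 
(.nd (nat_lit 6) (.nd (nat_lit 8) (.nd (nat_lit 19) 
(.lf (nat_lit 2080661529) (dlOf (nat_lit 1) (nat_lit 0x400080a0581))) 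
(.lf (nat_lit 4228669465) (dlOf (nat_lit 2) (nat_lit 0x812c00e50040010004000600081a0002)))) 
(.lf (nat_lit 3154403609) (dlOf (nat_lit 1) (nat_lit 0x3f8008016c002008c0008160703)))) 
(.nd (nat_lit 19) (.lf (nat_lit 5033451609) (dlOf (nat_lit 1) (nat_lit 0x200080b0701))) 
(.lf (nat_lit 4228669529) (dlOf (nat_lit 1) (nat_lit 0x28004000200181a0002)))))))))) 
(.nd (nat_lit 3) (.nd (nat_lit 18) (.nd (nat_lit 8) (.nd (nat_lit 9) (.nd (nat_lit 21) 
(.nd (nat_lit 6) (.nd (nat_lit 7) (.nd (nat_lit 19) 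
(.lf (nat_lit 13656113) (dlOf (nat_lit 3) (nat_lit 0x44a7c0054ce40005604003074c00009818740680))) 
(.lf (nat_lit 2819121201) (dlOf (nat_lit 3) (nat_lit 0x8011000150100040230000811400b0024000800500080000000742800280080024002001000081a0703)))) 
(.nd (nat_lit 12) 
(.lf (nat_lit 47210673) (dlOf (nat_lit 2) (nat_lit 0x22fdc00066040014004000400093b1602))) 
(.lf (nat_lit 1476423857) (dlOf (nat_lit 1) (nat_lit 0x20028007e01))))) (.nd (nat_lit 11) 
(.nd (nat_lit 20) (.lf (nat_lit 2755682417) (dlOf (nat_lit 2) (nat_lit 0xa2155001188181b0080))) 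
(.lf (nat_lit 38822001) (dlOf (nat_lit 1) (nat_lit 0x20009162481)))) 
(.lf (nat_lit 3691018353) (dlOf (nat_lit 2) (nat_lit 0x840140052c01800a880))))) (.nd (nat_lit 19) 
(.nd (nat_lit 20) (.lf (nat_lit 23093297) (dlOf (nat_lit 2) (nat_lit 0x46adf00017818b50700))) 
(.nd (nat_lit 23) (.lf (nat_lit 19947569) (dlOf (nat_lit 1) (nat_lit 0x1800189d0001))) 
(.lf (nat_lit 28336177) (dlOf (nat_lit 6) (nat_lit 0x786c2001130b000c130e0005c060162d840003643005c30b000d130e0005a0800aed840001c0100086c20000dc0805336100006c04001800400160008d80802))))) 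
(.nd (nat_lit 22) (.nd (nat_lit 26) 
(.lf (nat_lit 3492306993) (dlOf (nat_lit 2) (nat_lit 0xb43f40002d02000400180c0e81))) 
(.lf (nat_lit 2754109489) (dlOf (nat_lit 2) (nat_lit 0xa620f000168180c0f80)))) 
(.lf (nat_lit 15228977) (dlOf (nat_lit 5) (nat_lit 0x9d0c803800000006c080098000000340200068280000e8100790000000000800200080034002003200087c0703)))))) 
(.nd (nat_lit 6) (.nd (nat_lit 7) (.nd (nat_lit 10) (.nd (nat_lit 26) 
(.lf (nat_lit 1342726705) (dlOf (nat_lit 2) (nat_lit 0x160e3801787180003808005c002000600080c0f02))) 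
(.lf (nat_lit 470311473) (dlOf (nat_lit 2) (nat_lit 0x160e3801787180003a08005c002000600080c0f02)))) 
(.lf (nat_lit 2147509809) (dlOf (nat_lit 1) (nat_lit 0x40018003781)))) (.nd (nat_lit 10) 
(.lf (nat_lit 1476424369) (dlOf (nat_lit 1) (nat_lit 0x400200020008008c82))) 
(.lf (nat_lit 4026558129) (dlOf (nat_lit 1) (nat_lit 0x20018003a81))))) (.nd (nat_lit 7) 
(.nd (nat_lit 19) (.nd (nat_lit 20) 
(.lf (nat_lit 5435844209) (dlOf (nat_lit 2) (nat_lit 0x403000009818003980))) 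
(.lf (nat_lit 61892209) (dlOf (nat_lit 1) (nat_lit 0x38008002c002000e0009923983)))) 
(.lf (nat_lit 61367921) (dlOf (nat_lit 1) (nat_lit 0x1c0009923981)))) (.nd (nat_lit 11) 
(.lf (nat_lit 6643802865) (dlOf (nat_lit 1) (nat_lit 0x80018002101))) (.nd (nat_lit 20) 
(.lf (nat_lit 57174769) (dlOf (nat_lit 1) (nat_lit 0x18008000800200020009795a03))) 
(.lf (nat_lit 49834737) (dlOf (nat_lit 3) (nat_lit 0x5d6fa0002a020006b7900184e50000401000580080018002001600094c5a03)))))))) 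
(.nd (nat_lit 10) (.nd (nat_lit 7) (.nd (nat_lit 11) (.nd (nat_lit 6) 
(.lf (nat_lit 1597745) (dlOf (nat_lit 1) (nat_lit 0x4004000200080f7a02))) (.nd (nat_lit 9) 
(.lf (nat_lit 47210865) (dlOf (nat_lit 1) (nat_lit 0x4004000200193b5802))) 
(.lf (nat_lit 6643807089) (dlOf (nat_lit 3) (nat_lit 0x400800aef02000200400577018008f80))))) 
(.nd (nat_lit 6) 
(.lf (nat_lit 20474673) (dlOf (nat_lit 2) (nat_lit 0xc3388002f8080020008003c002000200089d5c03))) 
(.nd (nat_lit 19) (.lf (nat_lit 4764756337) (dlOf (nat_lit 1) (nat_lit 0x80028004e81))) 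
(.lf (nat_lit 37251441) (dlOf (nat_lit 1) (nat_lit 0x5800090d4e81)))))) (.nd (nat_lit 11) 
(.nd (nat_lit 20) (.nd (nat_lit 27) 
(.lf (nat_lit 1342726641) (dlOf (nat_lit 4) (nat_lit 0xd0aa000814080068550004060400342a80020202000200080c0d81))) 
(.lf (nat_lit 1476944369) (dlOf (nat_lit 2) (nat_lit 0xe03d000901a000480a80024040000e00c000800480040000003a01c002000400260018307402)))) 
(.lf (nat_lit 58221041) (dlOf (nat_lit 4) (nat_lit 0x6aef000df81000357780065008008abe40009c04011c00400a800197c7402)))) 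
(.nd (nat_lit 19) (.lf (nat_lit 1345350129) (dlOf (nat_lit 1) (nat_lit 0x20018b54f01))) 
(.lf (nat_lit 40397297) (dlOf (nat_lit 1) (nat_lit 0x200291f4f01)))))) (.nd (nat_lit 27) 
(.nd (nat_lit 9) (.nd (nat_lit 6) (.nd (nat_lit 7) 
(.lf (nat_lit 1946185009) (dlOf (nat_lit 1) (nat_lit 0x800200020008006882))) 
(.lf (nat_lit 8414641) (dlOf (nat_lit 1) (nat_lit 0x400200020008513602)))) (.nd (nat_lit 19) 
(.lf (nat_lit 5435843953) (dlOf (nat_lit 1) (nat_lit 0x10008003400200160008003503))) 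
(.lf (nat_lit 4096288113) (dlOf (nat_lit 1) (nat_lit 0x200280e3501))))) (.nd (nat_lit 26) 
(.lf (nat_lit 4026558321) (dlOf (nat_lit 1) (nat_lit 0x40018004081))) (.nd (nat_lit 29) 
(.lf (nat_lit 4362102641) (dlOf (nat_lit 1) (nat_lit 0x80080010002000a0008004083))) 
(.lf (nat_lit 3825231729) (dlOf (nat_lit 1) (nat_lit 0x20028004081)))))) (.nd (nat_lit 6) 
(.nd (nat_lit 7) (.nd (nat_lit 12) 
(.lf (nat_lit 5773485361) (dlOf (nat_lit 1) (nat_lit 0x200180e3201))) 
(.lf (nat_lit 3355473201) (dlOf (nat_lit 2) (nat_lit 0x1080140000004000c00200040008009882)))) 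
(.nd (nat_lit 26) (.lf (nat_lit 1476425649) (dlOf (nat_lit 1) (nat_lit 0x2002800a401))) 
(.lf (nat_lit 3691018161) (dlOf (nat_lit 5) (nat_lit 0x1401d0007a81002200a0000e40800b00500001604004002800002020002000800a401))))) 
(.nd (nat_lit 9) (.nd (nat_lit 26) 
(.lf (nat_lit 1744856433) (dlOf (nat_lit 1) (nat_lit 0x140028003501))) 
(.lf (nat_lit 738223473) (dlOf (nat_lit 1) (nat_lit 0x200018003501)))) 
(.lf (nat_lit 3691016049) (dlOf (nat_lit 2) (nat_lit 0xd801d00520018007780)))))))) (.nd (nat_lit 6) 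
(.nd (nat_lit 28) (.nd (nat_lit 19) (.nd (nat_lit 26) (.nd (nat_lit 24) (.nd (nat_lit 27) 
(.nd (nat_lit 9) 
(.lf (nat_lit 537157681) (dlOf (nat_lit 1) (nat_lit 0x400080038002004c0008030c83))) 
(.lf (nat_lit 3221512753) (dlOf (nat_lit 4) (nat_lit 0x2401c001a000000118200170070000880800400000003c040088002003e0008128002)))) 
(.nd (nat_lit 8) 
(.lf (nat_lit 671375409) (dlOf (nat_lit 3) (nat_lit 0x2800700013010002017000094080038008008400200160008170c83))) 
(.lf (nat_lit 134504753) (dlOf (nat_lit 1) (nat_lit 0x400400020008047a02))))) (.nd (nat_lit 20) 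
(.lf (nat_lit 19161137) (dlOf (nat_lit 1) (nat_lit 0x18008003400200040008970003))) 
(.lf (nat_lit 30695473) (dlOf (nat_lit 9) (nat_lit 0xc8c8e805f62080004e08028f23a0131882001ba348000281805fe47402df104001b46900004830019c8e80002008035647401a31040000604018d91d00bec410000141003c647401c31040000204017391d00b1c410006d1a4000000c001800400040008e40f02))))) 
(.nd (nat_lit 8) (.nd (nat_lit 7) 
(.lf (nat_lit 67395633) (dlOf (nat_lit 1) (nat_lit 0xd8002007e00080f0482))) 
(.lf (nat_lit 3288621233) (dlOf (nat_lit 1) (nat_lit 0xb400200140008090302)))) (.nd (nat_lit 9) 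
(.lf (nat_lit 2752799025) (dlOf (nat_lit 2) (nat_lit 0xe21c000d000001280100080008006800200020008048403))) 
(.lf (nat_lit 2885969713) (dlOf (nat_lit 2) (nat_lit 0x100000003404000800200020008143d82)))))) 
(.nd (nat_lit 7) (.nd (nat_lit 21) (.nd (nat_lit 23) 
(.lf (nat_lit 5005361) (dlOf (nat_lit 1) (nat_lit 0x80080004002000200082f0903))) 
(.lf (nat_lit 13393969) (dlOf (nat_lit 5) (nat_lit 0x6781c00878c00021c5e0015de980066b5800332c400133fb00069568005c704003237000191b300088d40004459400321f0001908c000c7b7800080000006c44001f8c00023c5e0014de98000d018001f180004f8bc0009bd300017030009e3000087178003f7a60002b06000e0018720f81)))) 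
(.lf (nat_lit 2908209) (dlOf (nat_lit 2) (nat_lit 0x3c1be003b026800a8000000ac0c0018002000400081d0682)))) 
(.nd (nat_lit 8) (.lf (nat_lit 537685681) (dlOf (nat_lit 1) (nat_lit 0x400004000200180f7282))) 
(.lf (nat_lit 19689393) (dlOf (nat_lit 1) (nat_lit 0x200289d7a01)))))) (.nd (nat_lit 26) 
(.nd (nat_lit 7) (.nd (nat_lit 30) (.nd (nat_lit 9) 
(.lf (nat_lit 402939953) (dlOf (nat_lit 2) (nat_lit 0x3880340046e04000c002000400080b0482))) 
(.lf (nat_lit 5100562993) (dlOf (nat_lit 1) (nat_lit 0x4002002400080d5182)))) (.nd (nat_lit 8) 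
(.lf (nat_lit 1342988337) (dlOf (nat_lit 5) (nat_lit 0x7b4000000360201c60000001a0100090d00000b80800c86800005a040034002000c0008120e82))) 
(.lf (nat_lit 3490996529) (dlOf (nat_lit 4) (nat_lit 0x880c0004402000390400041c0000f0d48000781000407000003804000800200060008047a02))))) 
(.nd (nat_lit 27) (.nd (nat_lit 29) 
(.lf (nat_lit 4563689649) (dlOf (nat_lit 4) (nat_lit 0xb01a000580c8000803e0000d06000602f0000601001c01780002c0804b80080004002004000080c1603))) 
(.lf (nat_lit 4026818737) (dlOf (nat_lit 1) (nat_lit 0xb400200140008090302)))) 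
(.lf (nat_lit 4697907377) (dlOf (nat_lit 2) (nat_lit 0x40148000c80800200080020002001200080c1603))))) 
(.nd (nat_lit 27) (.nd (nat_lit 29) (.nd (nat_lit 30) 
(.lf (nat_lit 335831089) (dlOf (nat_lit 2) (nat_lit 0x3880340046e04000c002000400080b0482))) 
(.lf (nat_lit 1409572913) (dlOf (nat_lit 1) (nat_lit 0x400080038002004c0008030c83)))) 
(.lf (nat_lit 872702001) (dlOf (nat_lit 1) (nat_lit 0x200280a0d81)))) (.nd (nat_lit 7) 
(.lf (nat_lit 1543790641) (dlOf (nat_lit 3) (nat_lit 0x2800700012810002017000090080038008008400200160008170c83))) 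
(.lf (nat_lit 473719985) (dlOf (nat_lit 2) (nat_lit 0x4200000019818fa2c00))))))) (.nd (nat_lit 8) 
(.nd (nat_lit 21) (.nd (nat_lit 7) (.nd (nat_lit 27) 
(.lf (nat_lit 2483314801) (dlOf (nat_lit 6) (nat_lit 0x840250000d81004b012801500000001608008c04a0000a020032025000048100300128000200800b80080024002000400080a1583))) 
(.lf (nat_lit 2349097073) (dlOf (nat_lit 6) (nat_lit 0x840250000d81004b012801500000001608008c04a0000a020032025000048100300128000200800b80080024002000400080a1583)))) 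
(.nd (nat_lit 11) (.nd (nat_lit 26) 
(.lf (nat_lit 6040084721) (dlOf (nat_lit 1) (nat_lit 0x400080c4501))) 
(.lf (nat_lit 6644064497) (dlOf (nat_lit 2) (nat_lit 0x8040004c902000400180c4501)))) 
(.lf (nat_lit 3557062897) (dlOf (nat_lit 1) (nat_lit 0x2000812a901))))) (.nd (nat_lit 20) 
(.nd (nat_lit 9) (.nd (nat_lit 26) 
(.lf (nat_lit 3492044913) (dlOf (nat_lit 2) (nat_lit 0xb215b0000d8180a1580))) 
(.lf (nat_lit 2753847409) (dlOf (nat_lit 2) (nat_lit 0xb21510000d8180a1580)))) 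
(.lf (nat_lit 53241457) (dlOf (nat_lit 1) (nat_lit 0x12c00400040009573982)))) (.nd (nat_lit 10) 
(.nd (nat_lit 22) 
(.lf (nat_lit 62152817) (dlOf (nat_lit 2) (nat_lit 0x629680017a040030004001a0009960d82))) 
(.lf (nat_lit 24404081) (dlOf (nat_lit 6) (nat_lit 0x178d44000360401a06a20000b02002a351000050100011a8800024080048d440001004001000200040008b91582)))) 
(.lf (nat_lit 20214897) (dlOf (nat_lit 1) (nat_lit 0x200189d9401)))))) (.nd (nat_lit 7) 
(.nd (nat_lit 10) (.nd (nat_lit 19) 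
(.lf (nat_lit 5167669617) (dlOf (nat_lit 1) (nat_lit 0x1c00180f5801))) 
(.lf (nat_lit 5772173681) (dlOf (nat_lit 2) (nat_lit 0x208e000238080020008000400200080008091003)))) 
(.nd (nat_lit 9) (.lf (nat_lit 61629809) (dlOf (nat_lit 1) (nat_lit 0x5e0009923501))) 
(.lf (nat_lit 288625) (dlOf (nat_lit 1) (nat_lit 0x20028004081))))) (.nd (nat_lit 9) 
(.nd (nat_lit 19) 
(.lf (nat_lit 1074029041) (dlOf (nat_lit 2) (nat_lit 0x45009c0238038000200100150000002f82000100080078002000c0008090d83))) 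
(.lf (nat_lit 1860081) (dlOf (nat_lit 2) (nat_lit 0x8b00000017c04006400200020008150d82)))) 
(.nd (nat_lit 11) (.lf (nat_lit 61629425) (dlOf (nat_lit 1) (nat_lit 0x400400020009922882))) 
(.lf (nat_lit 54815729) (dlOf (nat_lit 1) (nat_lit 0x20019655f01))))))))) (.nd (nat_lit 30) 
(.nd (nat_lit 18) (.nd (nat_lit 8) (.nd (nat_lit 11) (.nd (nat_lit 7) (.nd (nat_lit 26) 
(.nd (nat_lit 21) 
(.lf (nat_lit 805855289) (dlOf (nat_lit 3) (nat_lit 0x602d0001781001e0168000b80801380080004002003400081c0b83))) 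
(.lf (nat_lit 23617593) (dlOf (nat_lit 1) (nat_lit 0x100008b80001)))) (.nd (nat_lit 32) 
(.lf (nat_lit 67657785) (dlOf (nat_lit 1) (nat_lit 0x1c002000800082d0002))) 
(.lf (nat_lit 4362625081) (dlOf (nat_lit 2) (nat_lit 0x80000000500800b80080008002004e00080b0b83))))) 
(.nd (nat_lit 6) (.nd (nat_lit 12) 
(.lf (nat_lit 2121913) (dlOf (nat_lit 1) (nat_lit 0x20028150381))) 
(.lf (nat_lit 67137721) (dlOf (nat_lit 1) (nat_lit 0x400018007e81)))) 
(.lf (nat_lit 4764754169) (dlOf (nat_lit 1) (nat_lit 0x460018000a81))))) (.nd (nat_lit 21) 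
(.nd (nat_lit 6) (.nd (nat_lit 7) (.lf (nat_lit 27705) (dlOf (nat_lit 1) (nat_lit 0x20008006081))) 
(.lf (nat_lit 6509586617) (dlOf (nat_lit 1) (nat_lit 0x8008000400200040008004903)))) 
(.lf (nat_lit 54553209) (dlOf (nat_lit 1) (nat_lit 0x400400040009655402)))) (.nd (nat_lit 6) 
(.nd (nat_lit 19) (.lf (nat_lit 56650297) (dlOf (nat_lit 1) (nat_lit 0x8008000400200020009735203))) 
(.lf (nat_lit 54028857) (dlOf (nat_lit 1) (nat_lit 0x200295f5201)))) 
(.lf (nat_lit 49834745) (dlOf (nat_lit 4) (nat_lit 0x10b7d00035be00078000000540c00056fc0002202003cb7900074e50000401002480080004002000600094c5a03)))))) 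
(.nd (nat_lit 11) (.nd (nat_lit 6) (.nd (nat_lit 7) (.nd (nat_lit 10) 
(.lf (nat_lit 604008761) (dlOf (nat_lit 1) (nat_lit 0x80028008181))) 
(.lf (nat_lit 8418617) (dlOf (nat_lit 1) (nat_lit 0x10008000400200020008519903)))) 
(.lf (nat_lit 58220985) (dlOf (nat_lit 4) (nat_lit 0xa5720007ab4800195a20016aca000c5618002a5dc0043a1800195f2000fd02000aaf9001157c00122b800025438002e992000b00000000030001800800cc002005800097c6f03)))) 
(.nd (nat_lit 7) (.nd (nat_lit 9) 
(.lf (nat_lit 4630537593) (dlOf (nat_lit 1) (nat_lit 0x8000400020008003502))) 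
(.lf (nat_lit 2684380025) (dlOf (nat_lit 1) (nat_lit 0x14004000c0008002582)))) 
(.lf (nat_lit 470311417) (dlOf (nat_lit 3) (nat_lit 0x4c2a80021d02000a1540010d0180c0d80))))) 
(.nd (nat_lit 26) (.nd (nat_lit 7) 
(.lf (nat_lit 134249849) (dlOf (nat_lit 1) (nat_lit 0x28001800c901))) (.nd (nat_lit 10) 
(.lf (nat_lit 37251577) (dlOf (nat_lit 1) (nat_lit 0x400200be00090d4f82))) 
(.lf (nat_lit 4294995449) (dlOf (nat_lit 1) (nat_lit 0x40018006f81))))) (.nd (nat_lit 6) 
(.lf (nat_lit 1006663993) (dlOf (nat_lit 1) (nat_lit 0x2000800080020002000800ab83))) 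
(.nd (nat_lit 20) (.lf (nat_lit 5301627257) (dlOf (nat_lit 1) (nat_lit 0x74002000e0008004e82))) 
(.lf (nat_lit 2754636153) (dlOf (nat_lit 1) (nat_lit 0x4002000200080f4e82)))))))) (.nd (nat_lit 21) 
(.nd (nat_lit 6) (.nd (nat_lit 19) (.nd (nat_lit 7) (.nd (nat_lit 22) 
(.lf (nat_lit 1006919737) (dlOf (nat_lit 1) (nat_lit 0x80080038002000a00080e0b83))) 
(.lf (nat_lit 29646905) (dlOf (nat_lit 1) (nat_lit 0x560018e30001)))) 
(.lf (nat_lit 25452729) (dlOf (nat_lit 1) (nat_lit 0x10008000400200020008c10383)))) 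
(.nd (nat_lit 8) 
(.lf (nat_lit 22831161) (dlOf (nat_lit 2) (nat_lit 0x3b5280019a8c0016504000c0018b30d81))) 
(.lf (nat_lit 2752276281) (dlOf (nat_lit 1) (nat_lit 0x480028003e01))))) (.nd (nat_lit 19) 
(.nd (nat_lit 7) (.nd (nat_lit 8) 
(.lf (nat_lit 5100563065) (dlOf (nat_lit 1) (nat_lit 0x200180d5401))) 
(.lf (nat_lit 5167669625) (dlOf (nat_lit 1) (nat_lit 0x10800800b0002015000080f5883)))) 
(.lf (nat_lit 2752798969) (dlOf (nat_lit 1) (nat_lit 0x60018047781)))) (.nd (nat_lit 27) 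
(.lf (nat_lit 4362887289) (dlOf (nat_lit 3) (nat_lit 0x4802d0011a0100250168008c80800580080020002000c00081a0083))) 
(.lf (nat_lit 1007444089) (dlOf (nat_lit 1) (nat_lit 0x20028370481)))))) (.nd (nat_lit 19) 
(.nd (nat_lit 6) (.nd (nat_lit 20) 
(.lf (nat_lit 6578233) (dlOf (nat_lit 1) (nat_lit 0x500018431101))) (.nd (nat_lit 24) 
(.lf (nat_lit 7626809) (dlOf (nat_lit 1) (nat_lit 0x5000184c1101))) 
(.lf (nat_lit 24404025) (dlOf (nat_lit 1) (nat_lit 0x3c00400040018b90b82))))) (.nd (nat_lit 7) 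
(.lf (nat_lit 20212089) (dlOf (nat_lit 1) (nat_lit 0x4002000200089d4e82))) 
(.lf (nat_lit 23355641) (dlOf (nat_lit 1) (nat_lit 0x120028b80481))))) (.nd (nat_lit 8) 
(.nd (nat_lit 9) (.nd (nat_lit 20) 
(.lf (nat_lit 19689529) (dlOf (nat_lit 1) (nat_lit 0x8000400ae00089d7c82))) 
(.lf (nat_lit 8155193) (dlOf (nat_lit 1) (nat_lit 0x20028517c81)))) 
(.lf (nat_lit 20737593) (dlOf (nat_lit 1) (nat_lit 0x800400a200089d7182)))) (.nd (nat_lit 7) 
(.lf (nat_lit 19690297) (dlOf (nat_lit 2) (nat_lit 0x856e0011d8080098008007c002001800089d8f83))) 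
(.lf (nat_lit 8152505) (dlOf (nat_lit 1) (nat_lit 0x400200020008513602)))))))) (.nd (nat_lit 7) 
(.nd (nat_lit 8) (.nd (nat_lit 19) (.nd (nat_lit 10) (.nd (nat_lit 21) (.nd (nat_lit 26) 
(.lf (nat_lit 1879334969) (dlOf (nat_lit 1) (nat_lit 0x80080038002000a00080e0b83))) 
(.lf (nat_lit 3422838841) (dlOf (nat_lit 2) (nat_lit 0x780a4002ca04000c00200220008110d82)))) 
(.lf (nat_lit 3492044857) (dlOf (nat_lit 2) (nat_lit 0x3023000058040058002003c00080a0b82)))) 
(.nd (nat_lit 6) 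
(.lf (nat_lit 1342207033) (dlOf (nat_lit 2) (nat_lit 0x382380093804002c004003a0008009202))) 
(.lf (nat_lit 5502953081) (dlOf (nat_lit 1) (nat_lit 0x20018003981))))) (.nd (nat_lit 27) 
(.nd (nat_lit 20) (.nd (nat_lit 21) 
(.lf (nat_lit 1678270521) (dlOf (nat_lit 3) (nat_lit 0x602d0001781001e0168000b80801380080004002003400081c0b83))) 
(.lf (nat_lit 3492307001) (dlOf (nat_lit 1) (nat_lit 0x200080060002001c00080c1303)))) 
(.lf (nat_lit 1343774777) (dlOf (nat_lit 1) (nat_lit 0x8008000c00200020008370003)))) 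
(.nd (nat_lit 6) (.nd (nat_lit 28) 
(.lf (nat_lit 3959971897) (dlOf (nat_lit 1) (nat_lit 0x20028180b01))) 
(.lf (nat_lit 4228407353) (dlOf (nat_lit 2) (nat_lit 0x80000000500800b80080008002004e00080b0b83)))) 
(.lf (nat_lit 4228669561) (dlOf (nat_lit 3) (nat_lit 0x4802c001260100250160009280800580080020002000c00081a0083)))))) 
(.nd (nat_lit 10) (.nd (nat_lit 11) (.nd (nat_lit 6) (.nd (nat_lit 26) 
(.lf (nat_lit 3221512505) (dlOf (nat_lit 6) (nat_lit 0x1a0228012fc0801101140097c04001c08a004bd02000400a0025501001b0228000000800600080048002001a0008124c03))) 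
(.lf (nat_lit 3959710009) (dlOf (nat_lit 6) (nat_lit 0x1a022802950080110114014a604001c08a00a5202000400a0051f81001b0228000000800600080048002001a0008124c03)))) 
(.lf (nat_lit 1342726521) (dlOf (nat_lit 2) (nat_lit 0xb2154003808180c0780)))) (.nd (nat_lit 9) 
(.lf (nat_lit 4026562873) (dlOf (nat_lit 1) (nat_lit 0x18001800ab81))) 
(.lf (nat_lit 5368736569) (dlOf (nat_lit 2) (nat_lit 0x1008000594080038008000c00200080008005c03))))) 
(.nd (nat_lit 6) (.nd (nat_lit 26) (.nd (nat_lit 27) 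
(.lf (nat_lit 1342207801) (dlOf (nat_lit 3) (nat_lit 0x3047000078080018238000380400500040012000800a102))) 
(.lf (nat_lit 1476425529) (dlOf (nat_lit 7) (nat_lit 0x1603c0003401001201e0001980800480f00009c0400640780004502001203c0002101000901e0000fc0801e0008002c002003a000800a103)))) 
(.lf (nat_lit 3691018041) (dlOf (nat_lit 6) (nat_lit 0x5600a8001b0080308054000d404013802a0004e02002e0150000581000500800001c0800600080078002005a000800a103)))) 
(.nd (nat_lit 26) 
(.lf (nat_lit 5502952825) (dlOf (nat_lit 3) (nat_lit 0x140138005807c0005808000c020000000202420028003501))) 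
(.lf (nat_lit 6106932601) (dlOf (nat_lit 2) (nat_lit 0x1201500090094009803800240120012000800480000005818008800400380008003502))))))) 
(.nd (nat_lit 8) (.nd (nat_lit 6) (.nd (nat_lit 9) (.nd (nat_lit 18) 
(.lf (nat_lit 1344824505) (dlOf (nat_lit 3) (nat_lit 0x20598000340400340f8000020200060018982c81))) 
(.lf (nat_lit 1345086649) (dlOf (nat_lit 2) (nat_lit 0x2c2b00000002000200089e2c81)))) 
(.nd (nat_lit 26) (.lf (nat_lit 1342208697) (dlOf (nat_lit 2) (nat_lit 0x21e70007a81800b880))) 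
(.lf (nat_lit 3691018937) (dlOf (nat_lit 4) (nat_lit 0x80500005204028003a012801c0000b82001800e800054080060008000c0020010000800b883))))) 
(.nd (nat_lit 12) (.nd (nat_lit 19) (.nd (nat_lit 10) 
(.lf (nat_lit 5368733945) (dlOf (nat_lit 1) (nat_lit 0x60018000a81))) 
(.lf (nat_lit 1409314041) (dlOf (nat_lit 1) (nat_lit 0x20028006601)))) (.nd (nat_lit 18) 
(.lf (nat_lit 1342726393) (dlOf (nat_lit 1) (nat_lit 0x200080c0481))) 
(.lf (nat_lit 4094451961) (dlOf (nat_lit 1) (nat_lit 0x60008050a81))))) (.nd (nat_lit 27) 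
(.lf (nat_lit 1342206201) (dlOf (nat_lit 1) (nat_lit 0x400400040018008082))) 
(.lf (nat_lit 1476423929) (dlOf (nat_lit 1) (nat_lit 0x2c004000c0008008082)))))) (.nd (nat_lit 26) 
(.nd (nat_lit 6) (.nd (nat_lit 11) 
(.lf (nat_lit 1476944313) (dlOf (nat_lit 1) (nat_lit 0x800400020008306f02))) 
(.lf (nat_lit 1344825785) (dlOf (nat_lit 1) (nat_lit 0x5f0008018000202420008984e83)))) 
(.nd (nat_lit 10) 
(.lf (nat_lit 1342726649) (dlOf (nat_lit 2) (nat_lit 0x1082a800b81510011d8280c0d80))) 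
(.lf (nat_lit 1610900985) (dlOf (nat_lit 1) (nat_lit 0x1000400040018093682))))) (.nd (nat_lit 18) 
(.nd (nat_lit 9) (.lf (nat_lit 1140876793) (dlOf (nat_lit 1) (nat_lit 0x420028003681))) 
(.lf (nat_lit 5838496761) (dlOf (nat_lit 1) (nat_lit 0x400400040008002882)))) (.nd (nat_lit 6) 
(.lf (nat_lit 3557063097) (dlOf (nat_lit 1) (nat_lit 0x24004001c001812af82))) 
(.lf (nat_lit 3959710201) (dlOf (nat_lit 5) (nat_lit 0x4d407c00c603c006400e007f00380344008000240a026603e00cf00e0085803802e8018015400400e200100668000000441c049c07c008001c00fd0070000801809b00f802f8078021600e00210020000742001c000804e800203d80008127e03))))))))))) 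
(.nd (nat_lit 5) (.nd (nat_lit 18) (.nd (nat_lit 3) (.nd (nat_lit 10) (.nd (nat_lit 6) 
(.nd (nat_lit 27) (.nd (nat_lit 20) (.nd (nat_lit 8) (.nd (nat_lit 19) 
(.lf (nat_lit 25223185) (dlOf (nat_lit 2) (nat_lit 0x6185601a390200020018bf0881))) 
(.nd (nat_lit 21) 
(.lf (nat_lit 3557351441) (dlOf (nat_lit 10) (nat_lit 0x19818400bc0c0001af04003e061001a0300006b41000c8184003120400500c20022060000b702001b030800b0180002d008005c0c2002606000008820012030800801800001c0800480c20000c020004064002203080030180000408a001a0380010011000000300068008007400200a400081c0483))) 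
(.lf (nat_lit 27844625) (dlOf (nat_lit 14) (nat_lit 0xd5cc00028020010ae600013010008573000074080042b9800155a80001a040012ae6000156a00006410004ab9800355a800018040010ae60000a01000b573000040080062b980001a0400115cc0000502000aae60000181000c57300000808004ab980000004004c00200060008d30302))))) 
(.nd (nat_lit 7) (.lf (nat_lit 10543377) (dlOf (nat_lit 1) (nat_lit 0x5a00285f7d01))) 
(.lf (nat_lit 5368768913) (dlOf (nat_lit 1) (nat_lit 0x78008001000200220008004e83))))) 
(.nd (nat_lit 22) (.nd (nat_lit 19) 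
(.lf (nat_lit 26271761) (dlOf (nat_lit 1) (nat_lit 0x400008c30001))) 
(.lf (nat_lit 1630225) (dlOf (nat_lit 1) (nat_lit 0x8a0018100281)))) (.nd (nat_lit 21) 
(.lf (nat_lit 13688849) (dlOf (nat_lit 1) (nat_lit 0xa0018740101))) 
(.lf (nat_lit 15786001) (dlOf (nat_lit 2) (nat_lit 0xc37e80017c0800b0008006c002000c0008830203)))))) 
(.nd (nat_lit 26) (.nd (nat_lit 7) 
(.lf (nat_lit 1208016913) (dlOf (nat_lit 1) (nat_lit 0x20018090001))) (.nd (nat_lit 8) 
(.lf (nat_lit 939581585) (dlOf (nat_lit 5) (nat_lit 0x680880009e04008c04c004e0220019010800c807400640380004e0a0054026002f011000c0084006803a003401c000268500090130001008800086080010004002a00180b0182))) 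
(.lf (nat_lit 5771422609) (dlOf (nat_lit 1) (nat_lit 0x400200020008005c82))))) (.nd (nat_lit 30) 
(.nd (nat_lit 7) 
(.lf (nat_lit 470867985) (dlOf (nat_lit 5) (nat_lit 0xd426200be6020246131005db810020098802e9c08009009000246040014004004e00081c0482))) 
(.lf (nat_lit 469821585) (dlOf (nat_lit 1) (nat_lit 0x8008000800200060008004803)))) 
(.nd (nat_lit 8) 
(.lf (nat_lit 1811996817) (dlOf (nat_lit 5) (nat_lit 0x680880009e04008c04c004e0220019010800c807400640380004e0a0054026002f011000c0084006803a003401c000268500090130001008800086080010004002a00180b0182))) 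
(.lf (nat_lit 1543561617) (dlOf (nat_lit 1) (nat_lit 0x200280b0781))))))) (.nd (nat_lit 8) 
(.nd (nat_lit 11) (.nd (nat_lit 27) (.nd (nat_lit 21) 
(.lf (nat_lit 2147541073) (dlOf (nat_lit 1) (nat_lit 0x18008000800200020008090003))) 
(.lf (nat_lit 14737489) (dlOf (nat_lit 7) (nat_lit 0xe7ef0001301000b3f7800090080049fbc00044040020fde000210200127ef0000f8100063f7800060080010008000400200060008770703)))) 
(.nd (nat_lit 19) 
(.lf (nat_lit 1208016977) (dlOf (nat_lit 1) (nat_lit 0x28008002000200080008090003))) 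
(.lf (nat_lit 201908305) (dlOf (nat_lit 4) (nat_lit 0xb0080007003c001d0190000d01804300000004e0401600000002402000200080c1901))))) 
(.nd (nat_lit 9) 
(.lf (nat_lit 536934481) (dlOf (nat_lit 1) (nat_lit 0x2800800100020006000800a703))) 
(.nd (nat_lit 20) 
(.lf (nat_lit 44624465) (dlOf (nat_lit 2) (nat_lit 0x23dcf800fed760003e0400040029325281))) 
(.lf (nat_lit 33090129) (dlOf (nat_lit 1) (nat_lit 0x40028f55281)))))) (.nd (nat_lit 7) 
(.nd (nat_lit 11) (.nd (nat_lit 26) 
(.lf (nat_lit 939581777) (dlOf (nat_lit 3) (nat_lit 0x3c000000270100060000000dc080008008007c002001e00080b0683))) 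
(.lf (nat_lit 1811997009) (dlOf (nat_lit 3) (nat_lit 0x3c000000270100060000000dc080008008007c002001e00080b0683)))) 
(.lf (nat_lit 469825873) (dlOf (nat_lit 1) (nat_lit 0x40020002000800ab82)))) (.nd (nat_lit 11) 
(.nd (nat_lit 12) (.lf (nat_lit 1008263633) (dlOf (nat_lit 1) (nat_lit 0x400400020008b17b02))) 
(.lf (nat_lit 19984849) (dlOf (nat_lit 1) (nat_lit 0x200089d8681)))) 
(.lf (nat_lit 5637204433) (dlOf (nat_lit 1) (nat_lit 0x400400020008004e82))))))) (.nd (nat_lit 7) 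
(.nd (nat_lit 8) (.nd (nat_lit 9) (.nd (nat_lit 11) (.nd (nat_lit 19) 
(.lf (nat_lit 3221283857) (dlOf (nat_lit 1) (nat_lit 0x40028002881))) 
(.lf (nat_lit 51962897) (dlOf (nat_lit 1) (nat_lit 0x800400020009512882)))) 
(.lf (nat_lit 402713617) (dlOf (nat_lit 1) (nat_lit 0x20018005f81)))) (.nd (nat_lit 27) 
(.nd (nat_lit 28) (.lf (nat_lit 5435876881) (dlOf (nat_lit 1) (nat_lit 0x20028003701))) 
(.lf (nat_lit 4630570513) (dlOf (nat_lit 1) (nat_lit 0x100008003701)))) (.nd (nat_lit 26) 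
(.lf (nat_lit 6308292113) (dlOf (nat_lit 1) (nat_lit 0x10008003000200120008053703))) 
(.lf (nat_lit 4496352785) (dlOf (nat_lit 1) (nat_lit 0x20028053701)))))) (.nd (nat_lit 6) 
(.nd (nat_lit 9) (.nd (nat_lit 22) 
(.lf (nat_lit 1007740177) (dlOf (nat_lit 1) (nat_lit 0x4004000200087a3002))) 
(.lf (nat_lit 55633169) (dlOf (nat_lit 1) (nat_lit 0x200196d3001)))) 
(.lf (nat_lit 2348869393) (dlOf (nat_lit 1) (nat_lit 0x16000801e8002005e0008003c03)))) 
(.nd (nat_lit 9) 
(.lf (nat_lit 2483088721) (dlOf (nat_lit 1) (nat_lit 0x80080008002001a0008006a03))) 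
(.nd (nat_lit 26) (.lf (nat_lit 2952853329) (dlOf (nat_lit 1) (nat_lit 0x2002800a201))) 
(.lf (nat_lit 3691050833) (dlOf (nat_lit 1) (nat_lit 0x80040004001800a202))))))) (.nd (nat_lit 26) 
(.nd (nat_lit 8) (.nd (nat_lit 20) (.nd (nat_lit 21) 
(.lf (nat_lit 6308291729) (dlOf (nat_lit 1) (nat_lit 0x8008000400200020008052b83))) 
(.lf (nat_lit 60875921) (dlOf (nat_lit 1) (nat_lit 0x14004000400098c2b82)))) (.nd (nat_lit 19) 
(.lf (nat_lit 36758673) (dlOf (nat_lit 1) (nat_lit 0x20009072b81))) 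
(.lf (nat_lit 41477265) (dlOf (nat_lit 1) (nat_lit 0x20019242b81))))) (.nd (nat_lit 6) 
(.nd (nat_lit 27) (.lf (nat_lit 4563461521) (dlOf (nat_lit 1) (nat_lit 0x50004002a0008003602))) 
(.lf (nat_lit 5502985617) (dlOf (nat_lit 1) (nat_lit 0x400400020008003602)))) (.nd (nat_lit 11) 
(.lf (nat_lit 8975825) (dlOf (nat_lit 1) (nat_lit 0x240028519b01))) 
(.lf (nat_lit 2550197713) (dlOf (nat_lit 1) (nat_lit 0x8008000400200040008006d03)))))) 
(.nd (nat_lit 27) (.nd (nat_lit 8) (.nd (nat_lit 28) 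
(.lf (nat_lit 4899005585) (dlOf (nat_lit 1) (nat_lit 0x10008000400200020008052b83))) 
(.lf (nat_lit 335602833) (dlOf (nat_lit 1) (nat_lit 0x8008000400200020008002b83)))) 
(.lf (nat_lit 335603089) (dlOf (nat_lit 1) (nat_lit 0x60028003601)))) (.nd (nat_lit 12) 
(.nd (nat_lit 30) (.lf (nat_lit 4496352401) (dlOf (nat_lit 1) (nat_lit 0x20028052b81))) 
(.lf (nat_lit 5570094225) (dlOf (nat_lit 1) (nat_lit 0x800400020008052b82)))) 
(.lf (nat_lit 3422614673) (dlOf (nat_lit 1) (nat_lit 0x400400020008009502)))))))) (.nd (nat_lit 26) 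
(.nd (nat_lit 19) (.nd (nat_lit 27) (.nd (nat_lit 6) (.nd (nat_lit 20) (.nd (nat_lit 8) 
(.lf (nat_lit 1342238233) (dlOf (nat_lit 1) (nat_lit 0x8008000c00200060008007103))) 
(.lf (nat_lit 10543385) (dlOf (nat_lit 1) (nat_lit 0x2200285f7f81)))) (.nd (nat_lit 21) 
(.lf (nat_lit 1105945) (dlOf (nat_lit 1) (nat_lit 0x8008083400201800008070483))) 
(.lf (nat_lit 28368921) (dlOf (nat_lit 1) (nat_lit 0x400200020008d90482))))) (.nd (nat_lit 8) 
(.nd (nat_lit 22) 
(.lf (nat_lit 44097625) (dlOf (nat_lit 4) (nat_lit 0xa800000062040046c42000300200056d9000183a0000841000680080034002000c00092c0703))) 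
(.lf (nat_lit 14737497) (dlOf (nat_lit 1) (nat_lit 0x8008000400200020008770803)))) 
(.lf (nat_lit 3221289305) (dlOf (nat_lit 1) (nat_lit 0x18002800ab81))))) (.nd (nat_lit 8) 
(.nd (nat_lit 6) (.nd (nat_lit 9) 
(.lf (nat_lit 671146009) (dlOf (nat_lit 3) (nat_lit 0x1404c006801b0035001801a000003b541000d0036006800300380000076a01800580080078002000e00080b0003))) 
(.lf (nat_lit 671146521) (dlOf (nat_lit 1) (nat_lit 0x100080004002001200080b0d83)))) 
(.nd (nat_lit 31) 
(.lf (nat_lit 939581529) (dlOf (nat_lit 1) (nat_lit 0x10008001c002000a00080b0003))) 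
(.lf (nat_lit 3087065177) (dlOf (nat_lit 1) (nat_lit 0x400180b0001))))) (.nd (nat_lit 7) 
(.lf (nat_lit 671146265) (dlOf (nat_lit 2) (nat_lit 0x20000000e6040020002000200080b0482))) 
(.nd (nat_lit 9) (.lf (nat_lit 6308291993) (dlOf (nat_lit 1) (nat_lit 0x20028053601))) 
(.lf (nat_lit 5234551705) (dlOf (nat_lit 1) (nat_lit 0x60018055c81))))))) (.nd (nat_lit 7) 
(.nd (nat_lit 6) (.nd (nat_lit 20) (.nd (nat_lit 23) 
(.lf (nat_lit 19456025) (dlOf (nat_lit 1) (nat_lit 0x4200189a0b81))) 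
(.lf (nat_lit 44621849) (dlOf (nat_lit 1) (nat_lit 0x1100019320001)))) 
(.lf (nat_lit 30990361) (dlOf (nat_lit 1) (nat_lit 0x40008e60b81)))) (.nd (nat_lit 21) 
(.lf (nat_lit 1342759257) (dlOf (nat_lit 5) (nat_lit 0x108bc000ac04000845e0005502000823c0002701000211e0000dc0802500080014002000600080c0683))) 
(.lf (nat_lit 23650649) (dlOf (nat_lit 5) (nat_lit 0x2116830103afe000158100805a0c0416bf800055040117683008cafe00015010056da0c02aebf80001204001a0028b80681))))) 
(.nd (nat_lit 11) (.nd (nat_lit 6) 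
(.lf (nat_lit 583321) (dlOf (nat_lit 1) (nat_lit 0x48002003c0008003a82))) 
(.lf (nat_lit 23650521) (dlOf (nat_lit 3) (nat_lit 0x6d06002150200055fc00100018b80480)))) 
(.nd (nat_lit 8) (.lf (nat_lit 583833) (dlOf (nat_lit 1) (nat_lit 0x8008000400200020008004803))) 
(.lf (nat_lit 57207193) (dlOf (nat_lit 1) (nat_lit 0xa0029794e81))))))) (.nd (nat_lit 27) 
(.nd (nat_lit 7) (.nd (nat_lit 11) (.nd (nat_lit 28) 
(.lf (nat_lit 4362657817) (dlOf (nat_lit 3) (nat_lit 0x400520012023003180cc000405a0002308003e000000100180c0400))) 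
(.lf (nat_lit 1409867801) (dlOf (nat_lit 2) (nat_lit 0x50168032b00800800080060002001c0008090003)))) 
(.nd (nat_lit 8) (.lf (nat_lit 4093700633) (dlOf (nat_lit 1) (nat_lit 0x400400020008005082))) 
(.lf (nat_lit 67172633) (dlOf (nat_lit 1) (nat_lit 0x40004001c000800ab02))))) (.nd (nat_lit 6) 
(.nd (nat_lit 8) 
(.lf (nat_lit 1409867929) (dlOf (nat_lit 1) (nat_lit 0x8008000400200040008090183))) 
(.lf (nat_lit 5704313753) (dlOf (nat_lit 3) (nat_lit 0x100c80012408000806000078040008004000e0008055c82)))) 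
(.nd (nat_lit 9) (.nd (nat_lit 10) 
(.lf (nat_lit 4362135769) (dlOf (nat_lit 1) (nat_lit 0x60008004a81))) 
(.lf (nat_lit 2483088601) (dlOf (nat_lit 1) (nat_lit 0x100080014002001c0008006483)))) 
(.lf (nat_lit 67173081) (dlOf (nat_lit 1) (nat_lit 0x4001800b981)))))) (.nd (nat_lit 8) 
(.nd (nat_lit 30) (.nd (nat_lit 7) 
(.lf (nat_lit 471392281) (dlOf (nat_lit 11) (nat_lit 0x604c000301e00009c080014130000c0780002682000110280011808003026000140f00004304000c098000603c00010810001023800080040018130000c0780001f02000604c000301e000078080018130000c0780001d82000604c000301e00006e080004004001800182f0902))) 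
(.lf (nat_lit 469824153) (dlOf (nat_lit 1) (nat_lit 0x12400400c80018008c82)))) (.nd (nat_lit 6) 
(.lf (nat_lit 1543561241) (dlOf (nat_lit 1) (nat_lit 0x200180b0001))) 
(.lf (nat_lit 1543561305) (dlOf (nat_lit 1) (nat_lit 0x2c004002e00080b0002))))) (.nd (nat_lit 6) 
(.nd (nat_lit 10) (.lf (nat_lit 1811996953) (dlOf (nat_lit 1) (nat_lit 0x4004000800080b0482))) 
(.nd (nat_lit 28) (.lf (nat_lit 1275127065) (dlOf (nat_lit 1) (nat_lit 0x400400020008093082))) 
(.lf (nat_lit 2080433433) (dlOf (nat_lit 1) (nat_lit 0x20028093081))))) (.nd (nat_lit 7) 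
(.lf (nat_lit 470344025) (dlOf (nat_lit 5) (nat_lit 0x108bc000ac04000845e0005502000823c0002701000211e0000dc0802500080014002000600080c0683))) 
(.lf (nat_lit 2080432601) (dlOf (nat_lit 1) (nat_lit 0x800400020008091202))))))))) (.nd (nat_lit 3) 
(.nd (nat_lit 19) (.nd (nat_lit 26) (.nd (nat_lit 27) (.nd (nat_lit 20) (.nd (nat_lit 28) 
(.nd (nat_lit 7) (.lf (nat_lit 323089) (dlOf (nat_lit 1) (nat_lit 0xc0018007081))) 
(.lf (nat_lit 19194001) (dlOf (nat_lit 1) (nat_lit 0x1780028970481)))) (.nd (nat_lit 6) 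
(.nd (nat_lit 29) 
(.lf (nat_lit 268754961) (dlOf (nat_lit 2) (nat_lit 0x100a40000004000c00400020008120002))) 
(.lf (nat_lit 1879367697) (dlOf (nat_lit 2) (nat_lit 0xe80420000002003c00080f0201)))) 
(.lf (nat_lit 268755025) (dlOf (nat_lit 6) (nat_lit 0x20054000c02900080138001241800b80a80058052001002700024030027015000f80a400f805000080270110013007f8084069c03602c60000002308015501500ad80a405fc05002900270001f84000b0140000d00801a0008012800200520008120503))))) 
(.nd (nat_lit 10) (.nd (nat_lit 21) 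
(.lf (nat_lit 1343545361) (dlOf (nat_lit 1) (nat_lit 0x800400080008290302))) 
(.lf (nat_lit 24436753) (dlOf (nat_lit 1) (nat_lit 0x1d00018ba0581)))) (.nd (nat_lit 11) 
(.lf (nat_lit 39117841) (dlOf (nat_lit 1) (nat_lit 0x20019192881))) 
(.lf (nat_lit 60091409) (dlOf (nat_lit 1) (nat_lit 0x20029845f81)))))) (.nd (nat_lit 6) 
(.nd (nat_lit 7) (.nd (nat_lit 8) 
(.lf (nat_lit 402972689) (dlOf (nat_lit 1) (nat_lit 0x200280c0001))) 
(.lf (nat_lit 671408401) (dlOf (nat_lit 2) (nat_lit 0x8090004404600a5b0400040008187d01)))) 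
(.lf (nat_lit 671408273) (dlOf (nat_lit 2) (nat_lit 0x80500005004003400400020008183f82)))) 
(.nd (nat_lit 8) 
(.lf (nat_lit 1208279121) (dlOf (nat_lit 6) (nat_lit 0xbb00e4000a80401c00720005302020e0390002901016901c80006c0802400e40000004014400400ac00080b0682))) 
(.lf (nat_lit 671408465) (dlOf (nat_lit 1) (nat_lit 0x60008188b01)))))) (.nd (nat_lit 29) 
(.nd (nat_lit 20) (.nd (nat_lit 31) (.nd (nat_lit 7) 
(.lf (nat_lit 335863825) (dlOf (nat_lit 1) (nat_lit 0x200280c0001))) 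
(.lf (nat_lit 1543823505) (dlOf (nat_lit 1) (nat_lit 0x14002000c0008183f82)))) (.nd (nat_lit 6) 
(.lf (nat_lit 2617565201) (dlOf (nat_lit 1) (nat_lit 0xc004000a00180f0402))) 
(.lf (nat_lit 2349129809) (dlOf (nat_lit 6) (nat_lit 0x170068000d0080188040026401c00013040184010007e007000040100360040012801c0000d0401bc010000800700000010021800802c4002004a00080c1903))))) 
(.nd (nat_lit 10) (.nd (nat_lit 27) 
(.lf (nat_lit 68476945) (dlOf (nat_lit 1) (nat_lit 0x480018580781))) 
(.lf (nat_lit 471130129) (dlOf (nat_lit 1) (nat_lit 0x10004006c0018270302)))) 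
(.lf (nat_lit 473228305) (dlOf (nat_lit 2) (nat_lit 0x1c11a005f50200020018dd2881))))) 
(.nd (nat_lit 8) (.nd (nat_lit 6) (.nd (nat_lit 7) 
(.lf (nat_lit 6375663121) (dlOf (nat_lit 1) (nat_lit 0xc0008003701))) 
(.lf (nat_lit 6375662737) (dlOf (nat_lit 1) (nat_lit 0x800400020008002b82)))) 
(.lf (nat_lit 2080694353) (dlOf (nat_lit 6) (nat_lit 0xbb00e4000a80401c00720005302020e0390002901016901c80006c0802400e40000004014400400ac00080b0682)))) 
(.nd (nat_lit 6) (.nd (nat_lit 27) 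
(.lf (nat_lit 2751784721) (dlOf (nat_lit 1) (nat_lit 0x40028003c01))) 
(.lf (nat_lit 2886002449) (dlOf (nat_lit 1) (nat_lit 0xe0028143c01)))) 
(.lf (nat_lit 3959742801) (dlOf (nat_lit 1) (nat_lit 0x400200020008138b02))))))) (.nd (nat_lit 20) 
(.nd (nat_lit 21) (.nd (nat_lit 23) (.nd (nat_lit 6) (.nd (nat_lit 7) 
(.lf (nat_lit 21815313) (dlOf (nat_lit 1) (nat_lit 0x20028a70481))) 
(.lf (nat_lit 5772207249) (dlOf (nat_lit 1) (nat_lit 0x400400020008092b82)))) 
(.lf (nat_lit 67958609) (dlOf (nat_lit 1) (nat_lit 0x46001833a201)))) (.nd (nat_lit 6) 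
(.nd (nat_lit 24) (.lf (nat_lit 9232401) (dlOf (nat_lit 1) (nat_lit 0xa0018530001))) 
(.lf (nat_lit 59564049) (dlOf (nat_lit 1) (nat_lit 0x80004001c0009810302)))) 
(.lf (nat_lit 42786897) (dlOf (nat_lit 1) (nat_lit 0x120019280701))))) (.nd (nat_lit 23) 
(.nd (nat_lit 8) (.nd (nat_lit 26) 
(.lf (nat_lit 3492601873) (dlOf (nat_lit 2) (nat_lit 0x20707e8000760400b4002003800080e0102))) 
(.lf (nat_lit 2754404369) (dlOf (nat_lit 2) (nat_lit 0x207083c000760400b4002003800080e0102)))) 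
(.lf (nat_lit 19722513) (dlOf (nat_lit 1) (nat_lit 0x600289d8081)))) (.nd (nat_lit 7) 
(.lf (nat_lit 11329553) (dlOf (nat_lit 1) (nat_lit 0xa0018690181))) 
(.lf (nat_lit 44885137) (dlOf (nat_lit 1) (nat_lit 0x400200020009322b82)))))) (.nd (nat_lit 7) 
(.nd (nat_lit 6) (.nd (nat_lit 21) 
(.lf (nat_lit 10280977) (dlOf (nat_lit 3) (nat_lit 0x43b9003af0080021de401342040010002000c00085c0882))) 
(.lf (nat_lit 29155345) (dlOf (nat_lit 1) (nat_lit 0x400400020008dd0a02)))) 
(.lf (nat_lit 10281041) (dlOf (nat_lit 1) (nat_lit 0x58004000c00185c1002)))) (.nd (nat_lit 8) 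
(.nd (nat_lit 10) 
(.lf (nat_lit 471654545) (dlOf (nat_lit 3) (nat_lit 0x214e0008e8100180a70003ec0800180080018002000e0008370483))) 
(.nd (nat_lit 21) (.lf (nat_lit 60613777) (dlOf (nat_lit 1) (nat_lit 0x200298c2b81))) 
(.lf (nat_lit 41739409) (dlOf (nat_lit 2) (nat_lit 0x11c5c000880200040029242b81))))) 
(.nd (nat_lit 11) (.lf (nat_lit 43835793) (dlOf (nat_lit 1) (nat_lit 0x200192a1001))) 
(.lf (nat_lit 33352081) (dlOf (nat_lit 1) (nat_lit 0x40018f54e81)))))))) (.nd (nat_lit 6) 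
(.nd (nat_lit 30) (.nd (nat_lit 19) (.nd (nat_lit 20) (.nd (nat_lit 27) (.nd (nat_lit 28) 
(.lf (nat_lit 4832157721) (dlOf (nat_lit 1) (nat_lit 0x4004000200080e0582))) 
(.lf (nat_lit 2953109529) (dlOf (nat_lit 3) (nat_lit 0x100000000f01000400d0000000800180080038002000a0008130483)))) 
(.lf (nat_lit 3087327257) (dlOf (nat_lit 1) (nat_lit 0x400200020008190482)))) (.nd (nat_lit 9) 
(.lf (nat_lit 62185497) (dlOf (nat_lit 3) (nat_lit 0xaa4600085228002a8d0000400c000948c0010a45000651a00002c180008008005400200300009970403))) 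
(.lf (nat_lit 41214489) (dlOf (nat_lit 1) (nat_lit 0x6000400580009227e82))))) (.nd (nat_lit 23) 
(.nd (nat_lit 7) (.nd (nat_lit 20) 
(.lf (nat_lit 5038105) (dlOf (nat_lit 1) (nat_lit 0x4002000200082f0482))) 
(.lf (nat_lit 18669593) (dlOf (nat_lit 1) (nat_lit 0x60008002400200020008960483)))) 
(.lf (nat_lit 8188569) (dlOf (nat_lit 1) (nat_lit 0x8008000800200020008518c83)))) (.nd (nat_lit 24) 
(.nd (nat_lit 25) (.lf (nat_lit 9232409) (dlOf (nat_lit 1) (nat_lit 0x20008530101))) 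
(.lf (nat_lit 42786841) (dlOf (nat_lit 1) (nat_lit 0xb400400900009280102)))) 
(.lf (nat_lit 59564057) (dlOf (nat_lit 1) (nat_lit 0x120008002400200440009810603)))))) 
(.nd (nat_lit 26) (.nd (nat_lit 28) (.nd (nat_lit 31) 
(.lf (nat_lit 1208279065) (dlOf (nat_lit 3) (nat_lit 0xaa01c000f0020000760800900720003602004400080b0101))) 
(.lf (nat_lit 3355762713) (dlOf (nat_lit 6) (nat_lit 0x7015800480a00020046000e02000a93040004015800680a00024046000602000a9284000a015800200a0000c046000c02000a91840009015800400a0000c046001002000a910400020090000000800e00080014002000400080f0503)))) 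
(.nd (nat_lit 27) (.lf (nat_lit 4026851353) (dlOf (nat_lit 1) (nat_lit 0xa00280a0901))) 
(.nd (nat_lit 29) (.lf (nat_lit 1476714521) (dlOf (nat_lit 1) (nat_lit 0x400400040008150482))) 
(.lf (nat_lit 4161069081) (dlOf (nat_lit 2) (nat_lit 0x1000a40013a04001c00400200018110482)))))) 
(.nd (nat_lit 27) (.nd (nat_lit 19) (.nd (nat_lit 29) 
(.lf (nat_lit 3288653849) (dlOf (nat_lit 1) (nat_lit 0xa00280a0901))) 
(.lf (nat_lit 3825524761) (dlOf (nat_lit 1) (nat_lit 0x140028190481)))) 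
(.lf (nat_lit 4096581657) (dlOf (nat_lit 2) (nat_lit 0x101580006004001c00400020008130402)))) 
(.nd (nat_lit 7) (.nd (nat_lit 29) 
(.lf (nat_lit 3691307033) (dlOf (nat_lit 3) (nat_lit 0x100000000f01000400d8000000800180080038002000a0008130483))) 
(.lf (nat_lit 2080694297) (dlOf (nat_lit 3) (nat_lit 0xaa01c000f0020000760800900720003602004400080b0101)))) 
(.lf (nat_lit 1543823513) (dlOf (nat_lit 3) (nat_lit 0x390094001f20401a004a000f50200060028184101))))))) 
(.nd (nat_lit 27) (.nd (nat_lit 9) (.nd (nat_lit 8) (.nd (nat_lit 19) (.nd (nat_lit 26) 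
(.lf (nat_lit 268755033) (dlOf (nat_lit 3) (nat_lit 0x2803a0002b02019000a00000018120680))) 
(.lf (nat_lit 872734809) (dlOf (nat_lit 4) (nat_lit 0x78070000350200360380001481000101c00006c0800900080054002000400080b0703)))) 
(.lf (nat_lit 9232473) (dlOf (nat_lit 3) (nat_lit 0x166e00001881000320f00004c080058008002c002001a0008530703)))) 
(.nd (nat_lit 10) (.lf (nat_lit 1892697) (dlOf (nat_lit 1) (nat_lit 0xe60008150681))) 
(.lf (nat_lit 20245849) (dlOf (nat_lit 1) (nat_lit 0x1a00189d6a81))))) (.nd (nat_lit 7) 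
(.nd (nat_lit 19) 
(.lf (nat_lit 45410905) (dlOf (nat_lit 2) (nat_lit 0x14000000000080010008002c00200660009325303))) 
(.lf (nat_lit 52226649) (dlOf (nat_lit 3) (nat_lit 0x450000000b80802400000003e0402b8004007a0019515302)))) 
(.nd (nat_lit 8) (.nd (nat_lit 11) 
(.lf (nat_lit 8188633) (dlOf (nat_lit 1) (nat_lit 0x8008000400200020008518c83))) 
(.lf (nat_lit 20249305) (dlOf (nat_lit 1) (nat_lit 0x4002000200089db982)))) 
(.lf (nat_lit 3493132249) (dlOf (nat_lit 1) (nat_lit 0x800280fa601)))))) (.nd (nat_lit 30) 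
(.nd (nat_lit 21) (.nd (nat_lit 26) (.nd (nat_lit 7) 
(.lf (nat_lit 671408473) (dlOf (nat_lit 2) (nat_lit 0xe0028001c80800180080064002000c0008188b83))) 
(.lf (nat_lit 402972889) (dlOf (nat_lit 1) (nat_lit 0x8004000200080c1902)))) (.nd (nat_lit 22) 
(.lf (nat_lit 2349129817) (dlOf (nat_lit 7) (nat_lit 0x2080a8000c030008201000110018000982001900400003c04000405400020100000d020004015001b8040001c006000180600fa0100000381000e0080000000801a8008008c002001400080c1a83))) 
(.lf (nat_lit 474275929) (dlOf (nat_lit 1) (nat_lit 0x400200020009100702))))) (.nd (nat_lit 9) 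
(.lf (nat_lit 1009049689) (dlOf (nat_lit 2) (nat_lit 0x100200005204002000400240019020702))) 
(.lf (nat_lit 472705625) (dlOf (nat_lit 2) (nat_lit 0x409600011018a45300))))) (.nd (nat_lit 28) 
(.nd (nat_lit 29) 
(.lf (nat_lit 1208279129) (dlOf (nat_lit 11) (nat_lit 0x1a80e00004a04003405200016020034029000070100030148000340800d80a400016040228052004a028009700600001c1800d00a40020018000060400340290000101002e01480000408004802400000040030004000e00080b0702))) 
(.nd (nat_lit 31) 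
(.lf (nat_lit 1745150041) (dlOf (nat_lit 4) (nat_lit 0x78070000350200360380001481000101c00006c0800900080054002000400080b0703))) 
(.lf (nat_lit 3892633689) (dlOf (nat_lit 1) (nat_lit 0x400200020008180802))))) (.nd (nat_lit 7) 
(.nd (nat_lit 8) 
(.lf (nat_lit 2080694361) (dlOf (nat_lit 11) (nat_lit 0x1a80e00004a04003405200016020034029000070100030148000340800d80a400016040228052004a028009700600001c1800d00a40020018000060400340290000101002e01480000408004802400000040030004000e00080b0702))) 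
(.lf (nat_lit 3624201561) (dlOf (nat_lit 1) (nat_lit 0x4a0028146a81)))) 
(.lf (nat_lit 5773254873) (dlOf (nat_lit 1) (nat_lit 0x4004001600080c1902)))))))))) 
(.nd (nat_lit 28) (.nd (nat_lit 6) (.nd (nat_lit 18) (.nd (nat_lit 19) (.nd (nat_lit 7) 
(.nd (nat_lit 23) (.nd (nat_lit 3) (.nd (nat_lit 8) 
(.lf (nat_lit 23126065) (dlOf (nat_lit 1) (nat_lit 0x18008000800200040008b60903))) 
(.lf (nat_lit 3422614321) (dlOf (nat_lit 1) (nat_lit 0x960018008f81)))) (.nd (nat_lit 8) 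
(.nd (nat_lit 9) (.lf (nat_lit 536929337) (dlOf (nat_lit 1) (nat_lit 0x5a0018002881))) 
(.lf (nat_lit 56683065) (dlOf (nat_lit 1) (nat_lit 0x4c00200020009735202)))) 
(.lf (nat_lit 1208017209) (dlOf (nat_lit 1) (nat_lit 0x18008001400200060008090b83))))) 
(.nd (nat_lit 20) (.nd (nat_lit 3) (.nd (nat_lit 22) 
(.lf (nat_lit 27320369) (dlOf (nat_lit 1) (nat_lit 0x3000200060008cd0a02))) 
(.lf (nat_lit 14737457) (dlOf (nat_lit 1) (nat_lit 0x8008000400200020008770483)))) 
(.lf (nat_lit 25223225) (dlOf (nat_lit 1) (nat_lit 0x4002000a0008bf0b82)))) (.nd (nat_lit 22) 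
(.lf (nat_lit 26271793) (dlOf (nat_lit 3) (nat_lit 0x121b80071c0800890dc0008000001bd04001e0008c30481))) 
(.lf (nat_lit 13688881) (dlOf (nat_lit 1) (nat_lit 0x20018740681)))))) (.nd (nat_lit 11) 
(.nd (nat_lit 8) (.nd (nat_lit 3) 
(.lf (nat_lit 671146161) (dlOf (nat_lit 5) (nat_lit 0x580a00006204002c050000300200160280001681000a0140000ac0800100080074002001200080b0303))) 
(.lf (nat_lit 32564409) (dlOf (nat_lit 2) (nat_lit 0x41fa0000dc080008008000c00200040008ef2c83)))) 
(.nd (nat_lit 26) (.lf (nat_lit 5502985649) (dlOf (nat_lit 1) (nat_lit 0x40008003601))) 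
(.lf (nat_lit 5435876785) (dlOf (nat_lit 1) (nat_lit 0x2000200120008003602))))) (.nd (nat_lit 9) 
(.nd (nat_lit 3) 
(.lf (nat_lit 5368768945) (dlOf (nat_lit 2) (nat_lit 0x20040019d8040060004002a0008004e82))) 
(.lf (nat_lit 3221285049) (dlOf (nat_lit 1) (nat_lit 0x20008004901)))) (.nd (nat_lit 26) 
(.lf (nat_lit 5905641137) (dlOf (nat_lit 1) (nat_lit 0x2c0028007281))) 
(.lf (nat_lit 1677782705) (dlOf (nat_lit 1) (nat_lit 0xd00028007281))))))) (.nd (nat_lit 3) 
(.nd (nat_lit 27) (.nd (nat_lit 20) (.nd (nat_lit 29) 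
(.lf (nat_lit 3221807153) (dlOf (nat_lit 2) (nat_lit 0x4408c000130200060018191101))) 
(.lf (nat_lit 1611194417) (dlOf (nat_lit 1) (nat_lit 0x48008000400200020008110603)))) 
(.nd (nat_lit 8) 
(.lf (nat_lit 26796081) (dlOf (nat_lit 21) (nat_lit 0x3d6dfc01586fd8109b6380141b1a03e4d52000a66d00183324000be1c008db1c0040d520002f02015c6fe00a837ec05c1b1c02b6d5200036648001742851c37f034bdb1c1a52d52000b6a00118b36834c1992000590c001ad8e000666480016010070363803a9aa401bccc90002b8300036fe000db638002daa4001ecda00026648001542801fb638008daa4011cd5100ba6a7802fb368000a8140491bf80254dfb012a6c700013634042daa402a6d5101736a780453500022da7e025ecda003766c808ab324042d9900044979000290e00636fe003f363801e5aa400b6d40007a66d00263324000a2180009bf80038d8e00196a90001301800837f0005db1c000cd5100026a7800633680011992000ecc8000258700036648000e00803ab7f00265b1c012ed52009166d001cb3240006614001dbf80030d8e00166a90005b3680006410003dbf80050d8e00136a9000db36800062100175bf800d6d8e005c6a9002db3680151992000300a0024d8e00036a900002810001354800008040049aa4000020200be0028c70901)))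 
(.lf (nat_lit 20507441) (dlOf (nat_lit 1) (nat_lit 0x4004000800089d5c02))))) (.nd (nat_lit 26) 
(.nd (nat_lit 29) 
(.lf (nat_lit 134799409) (dlOf (nat_lit 6) (nat_lit 0x1020000100f001040760003606000203b0001a01028f01d8000b80810300ec022c06c00b2017000168300dc01d8000ac0800300080068002013200080c0e83))) 
(.lf (nat_lit 3892895793) (dlOf (nat_lit 4) (nat_lit 0x1d0320001018000440a4005c04f0001026800e8050000141800540c80002052000a027800500500001210008c0c8000c0470007022800000180178008006800200040008290f03)))) 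
(.nd (nat_lit 29) 
(.lf (nat_lit 201908273) (dlOf (nat_lit 4) (nat_lit 0x3203b0001701003b01d8000b40801500ec00056040008004000a00080c0f82))) 
(.nd (nat_lit 30) 
(.lf (nat_lit 738779185) (dlOf (nat_lit 1) (nat_lit 0x48008000400200020008110603))) 
(.lf (nat_lit 3960004657) (dlOf (nat_lit 2) (nat_lit 0x4408c000290200060018191101))))))) 
(.nd (nat_lit 8) (.nd (nat_lit 7) (.nd (nat_lit 20) 
(.lf (nat_lit 2756239417) (dlOf (nat_lit 2) (nat_lit 0x1200f000714080118008010400200080008220b83))) 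
(.lf (nat_lit 3727417) (dlOf (nat_lit 1) (nat_lit 0x8008000400200020008220b83)))) 
(.lf (nat_lit 23650489) (dlOf (nat_lit 2) (nat_lit 0x1b3c0000000800a8008000400200180008b80383)))) 
(.nd (nat_lit 9) (.lf (nat_lit 8975673) (dlOf (nat_lit 1) (nat_lit 0x400400040018519902))) 
(.lf (nat_lit 583481) (dlOf (nat_lit 2) (nat_lit 0x4100000006a040108002000c0008003e02))))))) 
(.nd (nat_lit 21) (.nd (nat_lit 27) (.nd (nat_lit 19) (.nd (nat_lit 3) (.nd (nat_lit 20) 
(.lf (nat_lit 4362395697) (dlOf (nat_lit 1) (nat_lit 0x20028050681))) 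
(.lf (nat_lit 68476977) (dlOf (nat_lit 2) (nat_lit 0x405f8000500800480080008002000c0008580f03)))) 
(.lf (nat_lit 30728249) (dlOf (nat_lit 1) (nat_lit 0x400200020008e41102)))) (.nd (nat_lit 20) 
(.nd (nat_lit 3) (.lf (nat_lit 5038129) (dlOf (nat_lit 2) (nat_lit 0x200000002a0182f0900))) 
(.lf (nat_lit 21815353) (dlOf (nat_lit 2) (nat_lit 0xf22c0005d0200080008a70681)))) (.nd (nat_lit 7) 
(.lf (nat_lit 6086705) (dlOf (nat_lit 1) (nat_lit 0x400200020008420002))) 
(.lf (nat_lit 60613809) (dlOf (nat_lit 1) (nat_lit 0x4004000400198c2c02)))))) (.nd (nat_lit 29) 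
(.nd (nat_lit 3) (.nd (nat_lit 26) 
(.lf (nat_lit 1208279089) (dlOf (nat_lit 2) (nat_lit 0x2300140023702003800280b0481))) 
(.lf (nat_lit 2349129777) (dlOf (nat_lit 2) (nat_lit 0x5d0078000d8080060008021c002004200080c0f83)))) 
(.lf (nat_lit 5503246393) (dlOf (nat_lit 1) (nat_lit 0x200080d0c81)))) (.nd (nat_lit 7) 
(.nd (nat_lit 8) (.lf (nat_lit 1745150001) (dlOf (nat_lit 2) (nat_lit 0x7e0220011e0180b0480))) 
(.lf (nat_lit 671408433) (dlOf (nat_lit 8) (nat_lit 0x49c0460032008000a002800e800000a22100040058000a02900150130018808c005004000580180020004000c00140040004004a000002648a01c9011801b808000990080040058002602601df01180220080004003a0052018001000800020024008401000320050009001001280000098e300908046010e020007d00c002280140096410002000a004aa0204340230034010000000100c600080730002002c0008188403)))) 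
(.lf (nat_lit 2886002609) (dlOf (nat_lit 1) (nat_lit 0x380028144381)))))) (.nd (nat_lit 3) 
(.nd (nat_lit 20) (.nd (nat_lit 19) 
(.lf (nat_lit 6610993) (dlOf (nat_lit 2) (nat_lit 0x6600000000018430f00))) (.nd (nat_lit 26) 
(.lf (nat_lit 2940977) (dlOf (nat_lit 3) (nat_lit 0x30168000150100020000000400800b00080064002000200081e0903))) 
(.lf (nat_lit 2754404401) (dlOf (nat_lit 11) (nat_lit 0x268108008a07d8071c2d203ca1520002b040007108000150080038844000400401284220001702005a2110000b0102ec10880004c0811b8844000240404ac4220001102000e211000080100dd1088000000801f00080050002004800080e0683))))) 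
(.nd (nat_lit 7) (.nd (nat_lit 8) 
(.lf (nat_lit 7659569) (dlOf (nat_lit 2) (nat_lit 0x66000000000184c0f00))) 
(.lf (nat_lit 20248369) (dlOf (nat_lit 1) (nat_lit 0x200189da101)))) 
(.lf (nat_lit 2754932401) (dlOf (nat_lit 3) (nat_lit 0xc81640003c02002c0b20001d8180f7280))))) 
(.nd (nat_lit 20) (.nd (nat_lit 19) 
(.lf (nat_lit 6611001) (dlOf (nat_lit 1) (nat_lit 0x8008000400200020008431103))) (.nd (nat_lit 23) 
(.lf (nat_lit 2754404409) (dlOf (nat_lit 1) (nat_lit 0x1000180e0781))) 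
(.lf (nat_lit 11329593) (dlOf (nat_lit 2) (nat_lit 0xa3e780051f2c002ca08000800400040008690d82))))) 
(.nd (nat_lit 9) (.nd (nat_lit 24) 
(.lf (nat_lit 7659577) (dlOf (nat_lit 1) (nat_lit 0x80080004002000200084c1103))) 
(.lf (nat_lit 24436793) (dlOf (nat_lit 1) (nat_lit 0x80080034002000a0008ba0b83)))) 
(.lf (nat_lit 2754932281) (dlOf (nat_lit 1) (nat_lit 0x2a00080f7181)))))))) (.nd (nat_lit 3) 
(.nd (nat_lit 10) (.nd (nat_lit 18) (.nd (nat_lit 7) (.nd (nat_lit 8) 
(.lf (nat_lit 47243377) (dlOf (nat_lit 1) (nat_lit 0xa00293c0d81))) (.nd (nat_lit 20) 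
(.lf (nat_lit 57207153) (dlOf (nat_lit 1) (nat_lit 0x80029794e81))) 
(.lf (nat_lit 62450033) (dlOf (nat_lit 1) (nat_lit 0x600199a4e81))))) (.nd (nat_lit 9) 
(.lf (nat_lit 11592177) (dlOf (nat_lit 1) (nat_lit 0x1400286c0d81))) 
(.lf (nat_lit 51962865) (dlOf (nat_lit 1) (nat_lit 0x20029512881))))) (.nd (nat_lit 8) 
(.nd (nat_lit 21) (.nd (nat_lit 22) 
(.lf (nat_lit 3288653937) (dlOf (nat_lit 19) (nat_lit 0x2e01b0000740800480d000c006000180220000d83003401a8000680802c80d8000406a0092032001c015800400900003214013c06c002e0350000c02004801b0000580801b00d80002a0400a006c0001402004c0360000781006d01b00002c0801100d800200680000a04005a0360000481004401b0000200801680d80000e0400c006c000060200020360000281002b01b0000040802400d8000000408fc004000600180a1582))) 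
(.lf (nat_lit 38068337) (dlOf (nat_lit 1) (nat_lit 0x400200020009122482)))) 
(.lf (nat_lit 2753880177) (dlOf (nat_lit 4) (nat_lit 0xc01e8000320400300f40001802000a07a000040180a1580)))) 
(.nd (nat_lit 7) (.lf (nat_lit 47507825) (dlOf (nat_lit 1) (nat_lit 0x20029404e81))) 
(.lf (nat_lit 23388657) (dlOf (nat_lit 1) (nat_lit 0x1080080090002005a0008b80d83)))))) 
(.nd (nat_lit 9) (.nd (nat_lit 26) (.nd (nat_lit 8) 
(.lf (nat_lit 50127985) (dlOf (nat_lit 1) (nat_lit 0x80080004002000200094c2a03))) (.nd (nat_lit 19) 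
(.lf (nat_lit 1744889201) (dlOf (nat_lit 1) (nat_lit 0x9e0028003501))) 
(.lf (nat_lit 61400433) (dlOf (nat_lit 1) (nat_lit 0x20019923501))))) (.nd (nat_lit 27) 
(.nd (nat_lit 29) 
(.lf (nat_lit 5435876721) (dlOf (nat_lit 2) (nat_lit 0x200500005604000c00400320018003502))) 
(.lf (nat_lit 4899005809) (dlOf (nat_lit 1) (nat_lit 0x400400020018053502)))) 
(.lf (nat_lit 4496352625) (dlOf (nat_lit 1) (nat_lit 0x20028053501))))) (.nd (nat_lit 8) 
(.nd (nat_lit 19) (.nd (nat_lit 27) 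
(.lf (nat_lit 4899006065) (dlOf (nat_lit 1) (nat_lit 0x400400020018053982))) 
(.lf (nat_lit 5570094705) (dlOf (nat_lit 1) (nat_lit 0x400400020008053982)))) 
(.lf (nat_lit 61400689) (dlOf (nat_lit 1) (nat_lit 0x128008006000200180009923983)))) 
(.nd (nat_lit 18) (.lf (nat_lit 2348869489) (dlOf (nat_lit 1) (nat_lit 0x3000200120008004082))) 
(.lf (nat_lit 321393) (dlOf (nat_lit 1) (nat_lit 0x20018004081))))))) (.nd (nat_lit 8) 
(.nd (nat_lit 19) (.nd (nat_lit 7) (.nd (nat_lit 12) (.nd (nat_lit 21) 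
(.lf (nat_lit 671146105) (dlOf (nat_lit 1) (nat_lit 0x480080008002001800080b0083))) 
(.lf (nat_lit 2753618041) (dlOf (nat_lit 1) (nat_lit 0x20028090081)))) 
(.lf (nat_lit 67170425) (dlOf (nat_lit 1) (nat_lit 0x60018007d81)))) (.nd (nat_lit 26) 
(.lf (nat_lit 1208017145) (dlOf (nat_lit 10) (nat_lit 0x2c04e0016026000b002001201380030098001c01400158060006027000a0130005581000100a40025e04000c052001260200060270006c81000c012800080200013808000404a00140080004d020002004000230080068008005400205b00008090a83))) 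
(.lf (nat_lit 1811996921) (dlOf (nat_lit 2) (nat_lit 0xc024000700f8008ec1000b000800a0002001400080b0483))))) 
(.nd (nat_lit 18) (.nd (nat_lit 7) 
(.lf (nat_lit 58253433) (dlOf (nat_lit 1) (nat_lit 0x6a4004005600197d2a02))) 
(.lf (nat_lit 57207545) (dlOf (nat_lit 2) (nat_lit 0x1315f00000e0201360019795a01)))) 
(.nd (nat_lit 26) (.lf (nat_lit 135061625) (dlOf (nat_lit 1) (nat_lit 0x200181b0081))) 
(.lf (nat_lit 202170489) (dlOf (nat_lit 1) (nat_lit 0x200181b0081)))))) (.nd (nat_lit 27) 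
(.nd (nat_lit 9) (.nd (nat_lit 10) 
(.lf (nat_lit 44624377) (dlOf (nat_lit 1) (nat_lit 0x40019324f81))) 
(.lf (nat_lit 4899005945) (dlOf (nat_lit 1) (nat_lit 0x20018053681)))) (.nd (nat_lit 11) 
(.lf (nat_lit 49865721) (dlOf (nat_lit 1) (nat_lit 0x1800294c2881))) 
(.lf (nat_lit 46722041) (dlOf (nat_lit 1) (nat_lit 0x7e0009385f01))))) (.nd (nat_lit 10) 
(.nd (nat_lit 7) (.lf (nat_lit 1208019321) (dlOf (nat_lit 1) (nat_lit 0x400400020008094e82))) 
(.lf (nat_lit 2818630649) (dlOf (nat_lit 1) (nat_lit 0x20028082881)))) (.nd (nat_lit 26) 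
(.lf (nat_lit 3892372985) (dlOf (nat_lit 1) (nat_lit 0x10008001c00200020008083683))) 
(.lf (nat_lit 4496352761) (dlOf (nat_lit 1) (nat_lit 0x20028053681))))))))) (.nd (nat_lit 26) 
(.nd (nat_lit 3) (.nd (nat_lit 8) (.nd (nat_lit 31) (.nd (nat_lit 7) (.nd (nat_lit 6) 
(.nd (nat_lit 19) 
(.lf (nat_lit 268754993) (dlOf (nat_lit 2) (nat_lit 0x2600a8016405201400280040013800080200050008004c002002a0008120383))) 
(.lf (nat_lit 1343021105) (dlOf (nat_lit 2) (nat_lit 0x221c700007018130b00)))) 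
(.lf (nat_lit 6308292209) (dlOf (nat_lit 1) (nat_lit 0x8008000400200020008053983)))) 
(.nd (nat_lit 27) (.lf (nat_lit 5637464241) (dlOf (nat_lit 1) (nat_lit 0x600280f1601))) 
(.lf (nat_lit 402972849) (dlOf (nat_lit 1) (nat_lit 0xa8004000800180c1602))))) (.nd (nat_lit 18) 
(.nd (nat_lit 7) (.lf (nat_lit 3492339761) (dlOf (nat_lit 1) (nat_lit 0x8002000600080c0e82))) 
(.lf (nat_lit 3493912753) (dlOf (nat_lit 1) (nat_lit 0x80080040002000c00081b0303)))) 
(.nd (nat_lit 6) (.nd (nat_lit 19) 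
(.lf (nat_lit 2550456369) (dlOf (nat_lit 1) (nat_lit 0xc004000200080c0e82))) 
(.lf (nat_lit 3492601905) (dlOf (nat_lit 11) (nat_lit 0x2680fd808a0790071c2ca03ca15c0002b0400070fd8001500800387f0000400401283f80001702005a1fc0000b0102ec0fe00004c0811b87f0000240404ac3f80001102000e1fc000080100dd0fe0000000801f00080050002004800080e0683)))) 
(.lf (nat_lit 4026851441) (dlOf (nat_lit 19) (nat_lit 0x2e01b0000740800480d000c006000180220000d83003401a8000680802c80d8000406a0092032001c015800400900003214013c06c002e0350000c02004801b0000580801b00d80002a0400a006c0001402004c0360000781006d01b00002c0801100d800200680000a04005a0360000481004401b0000200801680d80000e0400c006c000040200020360000181002b01b0000040802400d8000000408fc004000600180a1582)))))) 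
(.nd (nat_lit 6) (.nd (nat_lit 7) (.nd (nat_lit 9) 
(.lf (nat_lit 805626161) (dlOf (nat_lit 2) (nat_lit 0x40000000230200100008157a01))) 
(.lf (nat_lit 5771422513) (dlOf (nat_lit 1) (nat_lit 0x20008000800200080008005c03)))) 
(.nd (nat_lit 9) (.lf (nat_lit 3490245041) (dlOf (nat_lit 1) (nat_lit 0x20018004e81))) 
(.nd (nat_lit 10) 
(.lf (nat_lit 5234551729) (dlOf (nat_lit 1) (nat_lit 0x40008005c00200220008055d03))) 
(.lf (nat_lit 1342240689) (dlOf (nat_lit 1) (nat_lit 0x12001800a401)))))) (.nd (nat_lit 9) 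
(.nd (nat_lit 10) (.lf (nat_lit 939581809) (dlOf (nat_lit 1) (nat_lit 0x1000280b0781))) 
(.lf (nat_lit 6308291953) (dlOf (nat_lit 1) (nat_lit 0x400400020008053502)))) (.nd (nat_lit 7) 
(.lf (nat_lit 805365617) (dlOf (nat_lit 1) (nat_lit 0x20018004081))) 
(.lf (nat_lit 3492865009) (dlOf (nat_lit 1) (nat_lit 0x200180f2881))))))) (.nd (nat_lit 11) 
(.nd (nat_lit 19) (.nd (nat_lit 6) (.nd (nat_lit 18) 
(.lf (nat_lit 1343283257) (dlOf (nat_lit 1) (nat_lit 0x8c004003400081e0882))) (.nd (nat_lit 27) 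
(.lf (nat_lit 4563722297) (dlOf (nat_lit 1) (nat_lit 0x4004000200080d0482))) 
(.lf (nat_lit 4697940025) (dlOf (nat_lit 1) (nat_lit 0x4004000200080d0482))))) (.nd (nat_lit 7) 
(.lf (nat_lit 3491815545) (dlOf (nat_lit 1) (nat_lit 0x20028090081))) 
(.lf (nat_lit 5100332537) (dlOf (nat_lit 1) (nat_lit 0x20028053681))))) (.nd (nat_lit 21) 
(.nd (nat_lit 20) 
(.lf (nat_lit 3494436921) (dlOf (nat_lit 2) (nat_lit 0x1200f000714080118008010400200080008220b83))) 
(.lf (nat_lit 1343807545) (dlOf (nat_lit 1) (nat_lit 0x400200020008370002)))) (.nd (nat_lit 18) 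
(.lf (nat_lit 3492339769) (dlOf (nat_lit 1) (nat_lit 0x4002000200080c1302))) 
(.lf (nat_lit 3492601913) (dlOf (nat_lit 2) (nat_lit 0x5c3da00ced02000a00080e0781)))))) 
(.nd (nat_lit 6) (.nd (nat_lit 7) 
(.lf (nat_lit 6174075705) (dlOf (nat_lit 1) (nat_lit 0x23c00400e20008055c02))) (.nd (nat_lit 9) 
(.lf (nat_lit 805365945) (dlOf (nat_lit 1) (nat_lit 0x14c0028004901))) 
(.lf (nat_lit 1342238393) (dlOf (nat_lit 1) (nat_lit 0x8008000800200060008007283))))) 
(.nd (nat_lit 8) (.lf (nat_lit 6710946425) (dlOf (nat_lit 1) (nat_lit 0x400200020008005402))) 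
(.lf (nat_lit 1880156537) (dlOf (nat_lit 1) (nat_lit 0x400187a4e81))))))) (.nd (nat_lit 3) 
(.nd (nat_lit 30) (.nd (nat_lit 20) (.nd (nat_lit 18) (.nd (nat_lit 7) 
(.lf (nat_lit 5301660209) (dlOf (nat_lit 1) (nat_lit 0x100028005181))) 
(.lf (nat_lit 2617308337) (dlOf (nat_lit 1) (nat_lit 0x20028009501)))) (.nd (nat_lit 27) 
(.nd (nat_lit 29) 
(.lf (nat_lit 2483347505) (dlOf (nat_lit 28) (nat_lit 0x57c030065801783f780b80b90056149802905d9013859600880e10040059c01a08e300b848c80500a2802618cc0120e1f00785268034143001603c20050960000851f80000006c4c04bc01e01dc00d0001a8200a0017818700b82894052024e0270bdd01101030068145802e0602014093600906a3803c276c01a05ca00b0800002823c800413ec000000341e0a5200f05ab0068000cc10108003c003401a0003204008002c00f60078000c01001980cc061805e06f602e0d2501103518068050402e00280140019007809400341c4400a00ca001077d0000000b86003b80cc028405e091c02e008f016802d00a435d8044025c021062f00d00aa0064022802e0108014000c007802180281d2c00a0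38200407120000000b480097003c03d001a0002c04019002e02cd011003b0068008002413be00f08e300680bb0014006000203d60000001589006a007802580340005408001001e000200d0001482006b007800380340003008004401e0001702001a00f0000b0100150078000540805a003c015001a0001404012400f000098101f500780d580340002408084001e040600d000088200ac007802680340001e08017401e0000e02093c00f043500680003410008803c008801a0000b04050c00f01d800680002810016003c015c01a00009040f9a00f07eb006800000100a100080f1800217b400080c0e83))) 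
(.lf (nat_lit 872734769) (dlOf (nat_lit 2) (nat_lit 0x7e0220011e0180b0480)))) (.nd (nat_lit 19) 
(.lf (nat_lit 470081585) (dlOf (nat_lit 1) (nat_lit 0x400400020018040702))) 
(.lf (nat_lit 470605873) (dlOf (nat_lit 2) (nat_lit 0x221c700007018130b00)))))) (.nd (nat_lit 6) 
(.nd (nat_lit 7) 
(.lf (nat_lit 470868017) (dlOf (nat_lit 6) (nat_lit 0x2587880144336009617e000150300ac0d20053068002e02c6009215c00390aa8062852400b428401481380055099807004b801d0248005a0f000420748168039002c01a8010a0ca00af061006182ec02b416e00960a700b604f80468264001012a0008089009f03c805081c800d0076019c036009e0130077808802d801e006c0000000ea0007e0b18027055401f829200180e40000e0400150998000580810404c40000004128c0040ab800081c0702))) 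
(.lf (nat_lit 473752753) (dlOf (nat_lit 1) (nat_lit 0x8e0008fa2c01)))) (.nd (nat_lit 7) 
(.lf (nat_lit 471654513) (dlOf (nat_lit 1) (nat_lit 0x18008001400200160008370483))) 
(.lf (nat_lit 473228273) (dlOf (nat_lit 1) (nat_lit 0x8008000c00200020008dd2883)))))) 
(.nd (nat_lit 29) (.nd (nat_lit 7) (.nd (nat_lit 6) (.nd (nat_lit 8) 
(.lf (nat_lit 3557351473) (dlOf (nat_lit 4) (nat_lit 0x2c00500015010008002800a80000005208007c0d00042057002e0248015012001b0042001e00500310000000703801200080020002000200081c0703))) 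
(.lf (nat_lit 1543823665) (dlOf (nat_lit 13) (nat_lit 0x199011800a0020003800a00380000002e84006101180080020003800a002c0000002e040006011800154080d0008c008403000054040380023000401000130060000a60c06b00460020008000a002800c0000000a210004401000160050002001000c0000000a0100080010002c0050027000000130180050000000960400c401000500050037000000128180110020005800a00048040054008002000280010810020000804b000200080008187a03)))) 
(.lf (nat_lit 1409867889) (dlOf (nat_lit 1) (nat_lit 0x5000400100008090082)))) (.nd (nat_lit 8) 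
(.lf (nat_lit 1543561393) (dlOf (nat_lit 5) (nat_lit 0x580a00006204002c050000300200160280001681000a0140000ac0800100080074002001200080b0303))) 
(.lf (nat_lit 5704313777) (dlOf (nat_lit 1) (nat_lit 0x1000200140008055d02))))) (.nd (nat_lit 18) 
(.nd (nat_lit 6) (.lf (nat_lit 6376448049) (dlOf (nat_lit 1) (nat_lit 0x20018090001))) 
(.lf (nat_lit 2080432625) (dlOf (nat_lit 1) (nat_lit 0x20008091381)))) (.nd (nat_lit 9) 
(.nd (nat_lit 31) 
(.lf (nat_lit 2080694321) (dlOf (nat_lit 2) (nat_lit 0x2300140023702003800280b0481))) 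
(.lf (nat_lit 4228177969) (dlOf (nat_lit 1) (nat_lit 0x20028050681)))) 
(.lf (nat_lit 6375663153) (dlOf (nat_lit 1) (nat_lit 0xe0008001800200480008003783))))))) 
(.nd (nat_lit 6) (.nd (nat_lit 20) (.nd (nat_lit 8) (.nd (nat_lit 19) 
(.lf (nat_lit 2483347513) (dlOf (nat_lit 4) (nat_lit 0x3008000b80380006e0800080200003602005c01c0002008000500380006a0c006c002005200080c1302))) 
(.lf (nat_lit 4096581689) (dlOf (nat_lit 1) (nat_lit 0x30008003800200200008131403)))) 
(.nd (nat_lit 7) 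
(.lf (nat_lit 5704313657) (dlOf (nat_lit 5) (nat_lit 0x18064002c204000c0320015c020006019000aa81000500c000238080078008001c00200240008055c03))) 
(.lf (nat_lit 1008787897) (dlOf (nat_lit 1) (nat_lit 0x800200020008f86f02))))) (.nd (nat_lit 7) 
(.nd (nat_lit 19) 
(.lf (nat_lit 470868025) (dlOf (nat_lit 2) (nat_lit 0x16984c40005a0400e4004005600081c0882))) 
(.lf (nat_lit 471392313) (dlOf (nat_lit 9) (nat_lit 0x3026000180f00004804000c098000603c00011c10003026000180f00004404000c098000603c00010c10003026000180f00004204000c098000603c00010010003026000180f00003e04000e098000603c0000e01000080080030002000200082f1103)))) 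
(.lf (nat_lit 1007740089) (dlOf (nat_lit 1) (nat_lit 0x4004000200087a2c82))))) (.nd (nat_lit 7) 
(.nd (nat_lit 9) (.nd (nat_lit 8) (.nd (nat_lit 18) 
(.lf (nat_lit 1543561337) (dlOf (nat_lit 1) (nat_lit 0x480080008002001800080b0083))) 
(.lf (nat_lit 471654521) (dlOf (nat_lit 2) (nat_lit 0x106d000a82f4001d208001400200220008370482)))) 
(.lf (nat_lit 2483087737) (dlOf (nat_lit 5) (nat_lit 0xb80a802f4a04009c05400f2702000602a00792010002015003be4080180008001000200820008004e83)))) 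
(.nd (nat_lit 29) (.lf (nat_lit 3556829817) (dlOf (nat_lit 1) (nat_lit 0x100028085401))) 
(.lf (nat_lit 872475257) (dlOf (nat_lit 1) (nat_lit 0x400200020008005402))))) (.nd (nat_lit 18) 
(.nd (nat_lit 11) 
(.lf (nat_lit 3019957241) (dlOf (nat_lit 1) (nat_lit 0x10008000400200020008082883))) 
(.lf (nat_lit 3154177017) (dlOf (nat_lit 1) (nat_lit 0x20018085f01)))) (.nd (nat_lit 9) 
(.lf (nat_lit 6375663097) (dlOf (nat_lit 1) (nat_lit 0x9c004001a0008003682))) 
(.lf (nat_lit 473228281) (dlOf (nat_lit 1) (nat_lit 0xc00200020008dd2882))))))))))))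

end

end Pool.Agent.Lib.MP_5854e1_co.Cz

namespace Pool.Agent.Lib.MP_5854e1_co.Cz

noncomputable section

noncomputable def tz102 : DT := (.nd (nat_lit 0) (.nd (nat_lit 6) (.nd (nat_lit 3) 
(.nd (nat_lit 15) (.nd (nat_lit 18) (.nd (nat_lit 8) (.nd (nat_lit 19) (.nd (nat_lit 27) 
(.nd (nat_lit 22) (.nd (nat_lit 9) 
(.lf (nat_lit 25255952) (dlOf (nat_lit 1) (nat_lit 0x20018bf0881))) 
(.lf (nat_lit 2416009744) (dlOf (nat_lit 1) (nat_lit 0x8008000400200020008018403)))) 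
(.nd (nat_lit 20) (.lf (nat_lit 23158800) (dlOf (nat_lit 2) (nat_lit 0x5c0000013c818b60500))) 
(.lf (nat_lit 13721616) (dlOf (nat_lit 1) (nat_lit 0xe0028740101))))) (.nd (nat_lit 7) 
(.nd (nat_lit 9) 
(.lf (nat_lit 4697710608) (dlOf (nat_lit 5) (nat_lit 0x1101a0006005403764080008068001801500dd882000201a000600540376008002c06800180150003009006ebc18001800802d0002000c0008090003))) 
(.lf (nat_lit 2348900880) (dlOf (nat_lit 2) (nat_lit 0x308000004c602007e0018018401)))) 
(.nd (nat_lit 9) (.lf (nat_lit 5773550736) (dlOf (nat_lit 1) (nat_lit 0x200280e2b01))) 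
(.lf (nat_lit 3355539088) (dlOf (nat_lit 1) (nat_lit 0x200180a9e81)))))) (.nd (nat_lit 20) 
(.nd (nat_lit 26) (.nd (nat_lit 22) 
(.lf (nat_lit 134832144) (dlOf (nat_lit 1) (nat_lit 0x10002000800080c0882))) 
(.lf (nat_lit 13197328) (dlOf (nat_lit 1) (nat_lit 0x20028700701)))) (.nd (nat_lit 10) 
(.lf (nat_lit 4362690576) (dlOf (nat_lit 2) (nat_lit 0x80b400000040008004000400180d0702))) 
(.lf (nat_lit 69823504) (dlOf (nat_lit 1) (nat_lit 0x40008cd5f81))))) (.nd (nat_lit 21) 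
(.nd (nat_lit 24) (.lf (nat_lit 10051600) (dlOf (nat_lit 1) (nat_lit 0x600285b0481))) 
(.lf (nat_lit 26828816) (dlOf (nat_lit 1) (nat_lit 0x300028c80481)))) (.nd (nat_lit 26) 
(.lf (nat_lit 3493421072) (dlOf (nat_lit 1) (nat_lit 0x1800400020018130482))) 
(.lf (nat_lit 2755223568) (dlOf (nat_lit 1) (nat_lit 0x1800400020018130482))))))) (.nd (nat_lit 11) 
(.nd (nat_lit 7) (.nd (nat_lit 10) (.nd (nat_lit 20) 
(.lf (nat_lit 4563493136) (dlOf (nat_lit 1) (nat_lit 0x100028090a81))) 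
(.lf (nat_lit 20013328) (dlOf (nat_lit 1) (nat_lit 0x4002000200089d0a82)))) 
(.lf (nat_lit 2617341200) (dlOf (nat_lit 1) (nat_lit 0xe00080a9681)))) (.nd (nat_lit 9) 
(.nd (nat_lit 10) (.lf (nat_lit 805396880) (dlOf (nat_lit 1) (nat_lit 0xa0008090781))) 
(.lf (nat_lit 4697712016) (dlOf (nat_lit 1) (nat_lit 0x20028093601)))) 
(.lf (nat_lit 1073833872) (dlOf (nat_lit 1) (nat_lit 0x400400020008004202))))) (.nd (nat_lit 9) 
(.nd (nat_lit 19) (.nd (nat_lit 21) 
(.lf (nat_lit 4227950992) (dlOf (nat_lit 1) (nat_lit 0x40018004e81))) 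
(.lf (nat_lit 56715664) (dlOf (nat_lit 1) (nat_lit 0x20019734e81)))) 
(.lf (nat_lit 62482832) (dlOf (nat_lit 1) (nat_lit 0x1200299a4e81)))) (.nd (nat_lit 27) 
(.lf (nat_lit 5637237648) (dlOf (nat_lit 2) (nat_lit 0x402800020020001c028055c80))) 
(.lf (nat_lit 5771455376) (dlOf (nat_lit 1) (nat_lit 0x20018005c81))))))) (.nd (nat_lit 26) 
(.nd (nat_lit 30) (.nd (nat_lit 19) (.nd (nat_lit 7) (.nd (nat_lit 20) 
(.lf (nat_lit 671440912) (dlOf (nat_lit 2) (nat_lit 0x4000c00100030009d0281a0480))) 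
(.lf (nat_lit 1400848) (dlOf (nat_lit 1) (nat_lit 0x200180c0881)))) 
(.lf (nat_lit 36006288) (dlOf (nat_lit 1) (nat_lit 0x400200020009014e82)))) (.nd (nat_lit 20) 
(.lf (nat_lit 21848080) (dlOf (nat_lit 1) (nat_lit 0x20008a70481))) 
(.lf (nat_lit 27090960) (dlOf (nat_lit 3) (nat_lit 0x14d8e002908100cc6c70006bc0800d800803e400200fe0008ca0483))))) 
(.nd (nat_lit 28) (.nd (nat_lit 29) 
(.lf (nat_lit 3221577744) (dlOf (nat_lit 2) (nat_lit 0x580230000000804a000800bc002000c0008150503))) 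
(.lf (nat_lit 5905932304) (dlOf (nat_lit 2) (nat_lit 0x1c04a0014f0200160028160481)))) 
(.nd (nat_lit 7) 
(.lf (nat_lit 5637496848) (dlOf (nat_lit 1) (nat_lit 0xc80080018002001200080f0003))) 
(.lf (nat_lit 3490539920) (dlOf (nat_lit 1) (nat_lit 0x20018004e81)))))) (.nd (nat_lit 28) 
(.nd (nat_lit 29) (.nd (nat_lit 31) 
(.lf (nat_lit 4362428432) (dlOf (nat_lit 10) (nat_lit 0x4011402ca20400600a6000404700a8a82003d02e000e015002140a6011e04700a8a04001b02e001f814c02a1c0804300b8007005300a7402008e02e0052640801a017000900a6014980400a805c003b0298051f8100670170001c0b4004c053002b02900080144001c08e00540460248019800000400bf80080bf800208b80008070503))) 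
(.lf (nat_lit 6509912080) (dlOf (nat_lit 2) (nat_lit 0x1c04c001e00200160028160481)))) 
(.nd (nat_lit 7) 
(.lf (nat_lit 3959775248) (dlOf (nat_lit 2) (nat_lit 0x580230000000804a000800bc002000c0008150503))) 
(.lf (nat_lit 2751817616) (dlOf (nat_lit 1) (nat_lit 0x400200020008004202))))) (.nd (nat_lit 27) 
(.nd (nat_lit 8) (.nd (nat_lit 19) 
(.lf (nat_lit 6241476624) (dlOf (nat_lit 1) (nat_lit 0xc80080018002001200080f0003))) 
(.lf (nat_lit 4096614416) (dlOf (nat_lit 1) (nat_lit 0x800400020018140a02)))) 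
(.lf (nat_lit 3557122320) (dlOf (nat_lit 1) (nat_lit 0x80018130701)))) (.nd (nat_lit 29) 
(.lf (nat_lit 1543856144) (dlOf (nat_lit 2) (nat_lit 0x4000c0010003000e58281a0480))) 
(.lf (nat_lit 4228210704) (dlOf (nat_lit 10) (nat_lit 0xc013000080800168404007a055001c02680428130023c08001683080036055003f0260059f410086015400e00980164f04011c05500afe81003402a8012013002bf80801500aa007604c00af682000801f0053a8080670154001c0a6004c04c002b02580080128001c080005403f0248019000000400bf80080bf800208b80008070503)))))))) 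
(.nd (nat_lit 18) (.nd (nat_lit 19) (.nd (nat_lit 26) (.nd (nat_lit 30) (.nd (nat_lit 7) 
(.nd (nat_lit 9) (.nd (nat_lit 20) 
(.lf (nat_lit 12705808) (dlOf (nat_lit 1) (nat_lit 0x57800806e4002027a00086d0683))) 
(.lf (nat_lit 15851536) (dlOf (nat_lit 2) (nat_lit 0x92e800cfc04000400200040008840282)))) 
(.lf (nat_lit 805432848) (dlOf (nat_lit 1) (nat_lit 0x20018117081)))) (.nd (nat_lit 9) 
(.lf (nat_lit 20050320) (dlOf (nat_lit 1) (nat_lit 0x8800289d8381))) 
(.lf (nat_lit 4831964048) (dlOf (nat_lit 1) (nat_lit 0x40018055c81))))) (.nd (nat_lit 9) 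
(.nd (nat_lit 10) (.nd (nat_lit 11) 
(.lf (nat_lit 3624001552) (dlOf (nat_lit 1) (nat_lit 0x400200020008090502))) 
(.lf (nat_lit 5905704976) (dlOf (nat_lit 1) (nat_lit 0x400200020008144702)))) 
(.lf (nat_lit 5637270544) (dlOf (nat_lit 1) (nat_lit 0x40004000e0008055f82)))) (.nd (nat_lit 7) 
(.lf (nat_lit 1073865232) (dlOf (nat_lit 3) (nat_lit 0x8801a0049e0200600260024a818018400))) 
(.lf (nat_lit 5905704848) (dlOf (nat_lit 1) (nat_lit 0x40018144201)))))) (.nd (nat_lit 27) 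
(.nd (nat_lit 7) (.nd (nat_lit 28) 
(.lf (nat_lit 5435940880) (dlOf (nat_lit 1) (nat_lit 0xa0018040001))) 
(.lf (nat_lit 2483150864) (dlOf (nat_lit 4) (nat_lit 0x20016000a80000348a080108058002800000d2182006a00e800b0020000c0000183c06001a0018030881)))) 
(.lf (nat_lit 6509685904) (dlOf (nat_lit 1) (nat_lit 0xa0018146201)))) (.nd (nat_lit 31) 
(.nd (nat_lit 8) (.lf (nat_lit 5301723152) (dlOf (nat_lit 1) (nat_lit 0xa0018040001))) 
(.lf (nat_lit 738320656) (dlOf (nat_lit 1) (nat_lit 0x400400020008090a82)))) (.nd (nat_lit 29) 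
(.lf (nat_lit 2348933136) (dlOf (nat_lit 4) (nat_lit 0x20017000a800003b5408010805c002800000ed402006a00f000b0024000c00001b9a06001a0018030881))) 
(.lf (nat_lit 2885804048) (dlOf (nat_lit 1) (nat_lit 0x400200020008090502))))))) (.nd (nat_lit 23) 
(.nd (nat_lit 26) (.nd (nat_lit 27) (.nd (nat_lit 7) 
(.lf (nat_lit 1342824464) (dlOf (nat_lit 7) (nat_lit 0x7622f0000a8100031178000500801b88bc0be044c05d420e02e90d18000142000088bc0c6044c061220e03180d18000102000788bc0c9444c064220e03250d180000c2000a08bc0c9844c064220e03250d1800008200aa00080bbc002059e00080e0503))) 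
(.lf (nat_lit 650384) (dlOf (nat_lit 1) (nat_lit 0x60008006201)))) (.nd (nat_lit 29) 
(.lf (nat_lit 134864912) (dlOf (nat_lit 3) (nat_lit 0xc3020800580f4000807001a450601b204100d218180d0880))) 
(.lf (nat_lit 3892961296) (dlOf (nat_lit 3) (nat_lit 0x6016001fe408000814400f42040008004001400182b0a02))))) 
(.nd (nat_lit 28) (.nd (nat_lit 27) 
(.lf (nat_lit 4362723344) (dlOf (nat_lit 1) (nat_lit 0x4004000200180e0a02))) 
(.lf (nat_lit 201973776) (dlOf (nat_lit 3) (nat_lit 0xc3020800580f4000807001daa0601b204100ed40180d0880)))) 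
(.nd (nat_lit 29) 
(.lf (nat_lit 470409232) (dlOf (nat_lit 7) (nat_lit 0x7622f0000a01000311780004c0801b88bc0be044c05d420c02e90d98000142000088bc0c6044c061220c03180d98000102000788bc0c9444c064220c03250d980000c2000a08bc0c9844c064220c03250d9800008200aa00080bbc002059e00080e0503))) 
(.lf (nat_lit 4228505616) (dlOf (nat_lit 1) (nat_lit 0x4004000200180e0a02)))))) (.nd (nat_lit 20) 
(.nd (nat_lit 8) (.nd (nat_lit 21) 
(.lf (nat_lit 13230096) (dlOf (nat_lit 1) (nat_lit 0x38008003800200380008710a03))) 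
(.lf (nat_lit 27910160) (dlOf (nat_lit 2) (nat_lit 0x1ad5100046a780017c100010008002400200100008d40203)))) 
(.lf (nat_lit 32105744) (dlOf (nat_lit 2) (nat_lit 0x5e12c00160808000c8100008008001000200040008ef3003)))) 
(.nd (nat_lit 21) (.lf (nat_lit 10084368) (dlOf (nat_lit 1) (nat_lit 0x4002000200085b0482))) 
(.lf (nat_lit 16375824) (dlOf (nat_lit 13) (nat_lit 0x24ad40004402001456a000c24580010c1000395a80018a7e001848b001a23a8001042000615a80034a7e002448b000e23a8001002000495a80020a7e001a48b001223a8000f82000515a8001ca7e002048b001523a8000f42000515a80007804001cad4000e568000e23a800091cc0006e100028ad40002568000229e8005922c003c8ea000360a002056a00052458000d41000415a800049160003404001856a0010245800000100128008005c00200020008890283))))))) 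
(.nd (nat_lit 28) (.nd (nat_lit 29) (.nd (nat_lit 8) (.nd (nat_lit 19) (.nd (nat_lit 20) 
(.lf (nat_lit 3288719376) (dlOf (nat_lit 1) (nat_lit 0x80080038002005600080d0883))) 
(.lf (nat_lit 37085200) (dlOf (nat_lit 1) (nat_lit 0x120019090001)))) 
(.lf (nat_lit 21880848) (dlOf (nat_lit 1) (nat_lit 0x8008000800200020008a70483)))) (.nd (nat_lit 7) 
(.lf (nat_lit 69068048) (dlOf (nat_lit 2) (nat_lit 0x20800000074040018002000800088a3002))) 
(.lf (nat_lit 36563344) (dlOf (nat_lit 1) (nat_lit 0x800400020009074e82))))) (.nd (nat_lit 7) 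
(.nd (nat_lit 26) (.nd (nat_lit 32) 
(.lf (nat_lit 537255952) (dlOf (nat_lit 2) (nat_lit 0x11a04c00135818070500))) 
(.lf (nat_lit 4832223248) (dlOf (nat_lit 1) (nat_lit 0x400200020008120102)))) 
(.lf (nat_lit 1678106640) (dlOf (nat_lit 1) (nat_lit 0x240008190281)))) (.nd (nat_lit 9) 
(.lf (nat_lit 1745217936) (dlOf (nat_lit 1) (nat_lit 0x9c00280e4e81))) 
(.lf (nat_lit 2751850384) (dlOf (nat_lit 2) (nat_lit 0x408800007018004200)))))) (.nd (nat_lit 30) 
(.nd (nat_lit 26) (.nd (nat_lit 27) (.nd (nat_lit 29) 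
(.lf (nat_lit 4563787792) (dlOf (nat_lit 2) (nat_lit 0x80660001902001e00280e0101))) 
(.lf (nat_lit 805691408) (dlOf (nat_lit 1) (nat_lit 0x240008190281)))) 
(.lf (nat_lit 4698005520) (dlOf (nat_lit 2) (nat_lit 0x80660000302001e00280e0101)))) 
(.nd (nat_lit 8) 
(.lf (nat_lit 2617630736) (dlOf (nat_lit 7) (nat_lit 0x2a402f00025010166017800200a40008608055405e0004202044002f000701481200048000820c054c05e0004002022002e011e0088000ec101ee8008009000206180008110103))) 
(.lf (nat_lit 1009116432) (dlOf (nat_lit 1) (nat_lit 0xe0008004800200aa0009083003))))) 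
(.nd (nat_lit 31) (.nd (nat_lit 10) (.nd (nat_lit 20) 
(.lf (nat_lit 1409671184) (dlOf (nat_lit 2) (nat_lit 0x11a04c0013c818070500))) 
(.lf (nat_lit 1343610896) (dlOf (nat_lit 2) (nat_lit 0xa023800cc4040020002000200082b0282)))) 
(.lf (nat_lit 5771750416) (dlOf (nat_lit 1) (nat_lit 0x400200020008005f82)))) (.nd (nat_lit 7) 
(.nd (nat_lit 9) 
(.lf (nat_lit 4026916880) (dlOf (nat_lit 1) (nat_lit 0x80080038002005600080d0883))) 
(.lf (nat_lit 3493716496) (dlOf (nat_lit 1) (nat_lit 0xc00181b0d81)))) 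
(.lf (nat_lit 4094552720) (dlOf (nat_lit 2) (nat_lit 0x205500002c080008008000c00200040008055503))))))))) 
(.nd (nat_lit 15) (.nd (nat_lit 26) (.nd (nat_lit 30) (.nd (nat_lit 19) (.nd (nat_lit 11) 
(.nd (nat_lit 18) (.nd (nat_lit 8) (.nd (nat_lit 20) 
(.lf (nat_lit 14770200) (dlOf (nat_lit 2) (nat_lit 0x145f500130d5804e069400c0056001ea0800020008770081))) 
(.lf (nat_lit 28401688) (dlOf (nat_lit 3) (nat_lit 0x1b638000daa40006d40000366d000ab324000a8140031a800018cda0003664800148180010008000c00200020008d90403)))) 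
(.nd (nat_lit 7) 
(.lf (nat_lit 805396760) (dlOf (nat_lit 5) (nat_lit 0xb027800300e0004404c002200000123040002013000910080010098003ec0400180a2000c03a000601c8005009c00124100158002003a0008090482))) 
(.lf (nat_lit 2187672) (dlOf (nat_lit 1) (nat_lit 0x1c0008008800200080008150783))))) 
(.nd (nat_lit 10) (.nd (nat_lit 27) 
(.lf (nat_lit 2416271384) (dlOf (nat_lit 1) (nat_lit 0x10004000400180c0a82))) 
(.lf (nat_lit 2550489112) (dlOf (nat_lit 1) (nat_lit 0x10004000400180c0a82)))) 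
(.lf (nat_lit 38102040) (dlOf (nat_lit 1) (nat_lit 0x800200020009132882))))) (.nd (nat_lit 9) 
(.nd (nat_lit 20) (.lf (nat_lit 4563495960) (dlOf (nat_lit 2) (nat_lit 0x40330001a018096000))) 
(.lf (nat_lit 20016152) (dlOf (nat_lit 1) (nat_lit 0x200189d6001)))) (.nd (nat_lit 7) 
(.lf (nat_lit 536967704) (dlOf (nat_lit 1) (nat_lit 0x3800200e6000800b282))) 
(.lf (nat_lit 97176) (dlOf (nat_lit 2) (nat_lit 0x1413a400a8c0400080040092001800bc82)))))) 
(.nd (nat_lit 22) (.nd (nat_lit 20) (.nd (nat_lit 7) 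
(.lf (nat_lit 42557464) (dlOf (nat_lit 5) (nat_lit 0xa1d04003fa040070e82001fc020052741000f38100293a08007980800c8008000800200100009260083))) 
(.lf (nat_lit 9003416) (dlOf (nat_lit 1) (nat_lit 0x10008000800200020008511003)))) 
(.nd (nat_lit 18) (.lf (nat_lit 3760152) (dlOf (nat_lit 1) (nat_lit 0x100018220a01))) 
(.lf (nat_lit 18702360) (dlOf (nat_lit 3) (nat_lit 0x9218b000290100462728023137c0118924000330600140018960401))))) 
(.nd (nat_lit 18) (.nd (nat_lit 21) 
(.lf (nat_lit 13197336) (dlOf (nat_lit 1) (nat_lit 0x1a0018700901))) 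
(.lf (nat_lit 15294488) (dlOf (nat_lit 1) (nat_lit 0x600287d0481)))) 
(.lf (nat_lit 21848088) (dlOf (nat_lit 1) (nat_lit 0x20028a70481)))))) (.nd (nat_lit 18) 
(.nd (nat_lit 9) (.nd (nat_lit 8) 
(.lf (nat_lit 3892928536) (dlOf (nat_lit 2) (nat_lit 0x3201900011818290900))) (.nd (nat_lit 27) 
(.lf (nat_lit 3221315864) (dlOf (nat_lit 8) (nat_lit 0x10053000801b8004009000340400016000000e20500030000007080800180000038004000c04000170020006020000b701000e029800680dc00180480026020000600a8002482800100b8000100401bc00200260008090482))) 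
(.lf (nat_lit 1476485400) (dlOf (nat_lit 1) (nat_lit 0x80008010701))))) (.nd (nat_lit 7) 
(.nd (nat_lit 22) 
(.lf (nat_lit 5905670680) (dlOf (nat_lit 2) (nat_lit 0x8800000000040024002001800080b0d82))) 
(.lf (nat_lit 3493945880) (dlOf (nat_lit 2) (nat_lit 0x8042000668181b0d80)))) 
(.lf (nat_lit 3355533976) (dlOf (nat_lit 1) (nat_lit 0x200080008002000200080a1b83))))) 
(.nd (nat_lit 27) (.nd (nat_lit 19) 
(.lf (nat_lit 4026884120) (dlOf (nat_lit 3) (nat_lit 0x2405a0107702002602d008368180c0a80))) 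
(.lf (nat_lit 3493683224) (dlOf (nat_lit 1) (nat_lit 0x3c00081a0501)))) (.nd (nat_lit 10) 
(.nd (nat_lit 28) 
(.lf (nat_lit 3892666392) (dlOf (nat_lit 7) (nat_lit 0x3018000700a80d5205106b90278086013004d809400de0460009019803080c80004062022c024010b0110006807401c403600a8019000400a001100140008004001ed24034406001b802a01fe014416f809e01aa04c01dc02500d080cc02b406203d602401e201100bb006c067002c033e01401bb002805a000802c0000001ec200122060009702a0385814400c80a00e2204f019c02600dd812802b008e0230046008b019806e00c800f0062034602401c40110004807405200360136019009100b004a805001cc00a003c00200260000007acb006b019018700c00c4405402230288035811c185806604e4031000d01402a780900dd0044080e01d061c00b03100050146800a064e00204080000007a880133814401340480012005000e90301b7028800744081ee800802600020e440008180083))) 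
(.lf (nat_lit 1476747288) (dlOf (nat_lit 1) (nat_lit 0x40018170481)))) 
(.lf (nat_lit 5771717656) (dlOf (nat_lit 1) (nat_lit 0x40008006001))))))) (.nd (nat_lit 18) 
(.nd (nat_lit 9) (.nd (nat_lit 31) (.nd (nat_lit 8) (.nd (nat_lit 19) 
(.lf (nat_lit 738287640) (dlOf (nat_lit 1) (nat_lit 0x400400020008090002))) 
(.lf (nat_lit 4362690584) (dlOf (nat_lit 1) (nat_lit 0x8002000200080d0902)))) 
(.lf (nat_lit 1677811992) (dlOf (nat_lit 1) (nat_lit 0x400200020008090482)))) (.nd (nat_lit 8) 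
(.nd (nat_lit 19) 
(.lf (nat_lit 2755747864) (dlOf (nat_lit 1) (nat_lit 0x8800800a8002001c00081b0003))) 
(.lf (nat_lit 4228472856) (dlOf (nat_lit 1) (nat_lit 0x8002000200080d0902)))) 
(.lf (nat_lit 6509650200) (dlOf (nat_lit 8) (nat_lit 0x500480020000002360400100000011a0100010000008600800080000040e040004000001ea0200020000005a0100040000001fc08025000801e8002001000080b0483))))) 
(.nd (nat_lit 10) (.nd (nat_lit 19) 
(.lf (nat_lit 3556862488) (dlOf (nat_lit 1) (nat_lit 0x1c002000200080d5082))) 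
(.lf (nat_lit 738814488) (dlOf (nat_lit 3) (nat_lit 0x1015c0004c04000c0ae000210200120028125081)))) 
(.nd (nat_lit 7) (.nd (nat_lit 27) 
(.lf (nat_lit 4899038744) (dlOf (nat_lit 1) (nat_lit 0x20028053701))) 
(.lf (nat_lit 4496385560) (dlOf (nat_lit 1) (nat_lit 0x400400020008053702)))) 
(.lf (nat_lit 4227952280) (dlOf (nat_lit 1) (nat_lit 0x400400020008007202)))))) (.nd (nat_lit 28) 
(.nd (nat_lit 29) (.nd (nat_lit 7) (.nd (nat_lit 30) 
(.lf (nat_lit 4362428440) (dlOf (nat_lit 2) (nat_lit 0xd40660147e02001e0018070501))) 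
(.lf (nat_lit 3288686616) (dlOf (nat_lit 3) (nat_lit 0x2405a00fea02002602d007f18180c0a80)))) 
(.lf (nat_lit 69560728) (dlOf (nat_lit 1) (nat_lit 0x70008007c00200320008b44e83)))) 
(.nd (nat_lit 8) (.nd (nat_lit 10) (.nd (nat_lit 19) 
(.lf (nat_lit 604332056) (dlOf (nat_lit 1) (nat_lit 0x40018170481))) 
(.lf (nat_lit 2755485720) (dlOf (nat_lit 1) (nat_lit 0x3c00081a0501)))) 
(.lf (nat_lit 2751816728) (dlOf (nat_lit 1) (nat_lit 0x20008002881)))) 
(.lf (nat_lit 2751818008) (dlOf (nat_lit 1) (nat_lit 0xac0028004b81))))) (.nd (nat_lit 11) 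
(.nd (nat_lit 7) (.nd (nat_lit 30) 
(.lf (nat_lit 3154468888) (dlOf (nat_lit 6) (nat_lit 0x6300a202a404f000ff8200e70288060013c003fc0809940a2045604f000fe8200ad02a000d0144006c09e014804c00a602500510118021006601420310169012005b008802b003a013e01b00b100b004c8050029400a001fc1e000a051000f30181a0080))) 
(.lf (nat_lit 4228210712) (dlOf (nat_lit 2) (nat_lit 0xd4064015ed02001e0018070501)))) 
(.lf (nat_lit 6241477016) (dlOf (nat_lit 1) (nat_lit 0x480080010002000200080f6483)))) 
(.nd (nat_lit 7) (.nd (nat_lit 9) 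
(.lf (nat_lit 4095044632) (dlOf (nat_lit 1) (nat_lit 0x20028056001))) 
(.lf (nat_lit 2483386904) (dlOf (nat_lit 1) (nat_lit 0x200180fb281)))) 
(.lf (nat_lit 1007513240) (dlOf (nat_lit 1) (nat_lit 0x4002000200083d7202)))))))) (.nd (nat_lit 18) 
(.nd (nat_lit 20) (.nd (nat_lit 7) (.nd (nat_lit 11) (.nd (nat_lit 22) (.nd (nat_lit 9) 
(.nd (nat_lit 19) 
(.lf (nat_lit 4026654744) (dlOf (nat_lit 1) (nat_lit 0xab8008012c00201720008020483))) 
(.lf (nat_lit 42590232) (dlOf (nat_lit 1) (nat_lit 0x400400040009260082)))) 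
(.lf (nat_lit 2617369112) (dlOf (nat_lit 1) (nat_lit 0x70004001200180a1482)))) (.nd (nat_lit 19) 
(.nd (nat_lit 21) 
(.lf (nat_lit 63037464) (dlOf (nat_lit 2) (nat_lit 0x733f0003999c001c9cc001ff06002400199c0081))) 
(.lf (nat_lit 14802968) (dlOf (nat_lit 2) (nat_lit 0x772fa805006ac003d408000400200060008770082)))) 
(.lf (nat_lit 55173144) (dlOf (nat_lit 1) (nat_lit 0x4004000200196c0182))))) (.nd (nat_lit 9) 
(.nd (nat_lit 27) 
(.lf (nat_lit 4831964184) (dlOf (nat_lit 1) (nat_lit 0x600080008002001c0008056003))) 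
(.lf (nat_lit 5234617368) (dlOf (nat_lit 1) (nat_lit 0x700080008002003e0008056003)))) 
(.lf (nat_lit 201456152) (dlOf (nat_lit 1) (nat_lit 0xe2001800b281))))) (.nd (nat_lit 9) 
(.nd (nat_lit 8) (.nd (nat_lit 10) 
(.lf (nat_lit 1677846680) (dlOf (nat_lit 2) (nat_lit 0x3800000014040004002000a0008114802))) 
(.lf (nat_lit 5838597272) (dlOf (nat_lit 2) (nat_lit 0x30090002c0440002004000400080f6201)))) 
(.lf (nat_lit 8512920) (dlOf (nat_lit 1) (nat_lit 0x28008000400200040008513603)))) (.nd (nat_lit 8) 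
(.nd (nat_lit 10) (.lf (nat_lit 3355566744) (dlOf (nat_lit 1) (nat_lit 0x4004000200080a1b82))) 
(.lf (nat_lit 5905704600) (dlOf (nat_lit 1) (nat_lit 0xa0018143a81)))) 
(.lf (nat_lit 2751588248) (dlOf (nat_lit 1) (nat_lit 0x20008004201)))))) (.nd (nat_lit 21) 
(.nd (nat_lit 19) (.nd (nat_lit 22) 
(.lf (nat_lit 26337304) (dlOf (nat_lit 2) (nat_lit 0x4000000c1818c30080))) 
(.lf (nat_lit 22143000) (dlOf (nat_lit 1) (nat_lit 0x20028a90481)))) (.nd (nat_lit 24) 
(.lf (nat_lit 1343873048) (dlOf (nat_lit 1) (nat_lit 0x200028370001))) 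
(.lf (nat_lit 18472984) (dlOf (nat_lit 1) (nat_lit 0x10008000400200060008940483))))) 
(.nd (nat_lit 23) (.nd (nat_lit 26) 
(.lf (nat_lit 3493453848) (dlOf (nat_lit 1) (nat_lit 0x300028140a81))) 
(.lf (nat_lit 2755256344) (dlOf (nat_lit 1) (nat_lit 0x300028140a81)))) (.nd (nat_lit 9) 
(.lf (nat_lit 28434456) (dlOf (nat_lit 3) (nat_lit 0x920fb0002901004653d002329d0011944e000330600140018d90401))) 
(.lf (nat_lit 49932824) (dlOf (nat_lit 1) (nat_lit 0xc000294c5081))))))) (.nd (nat_lit 20) 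
(.nd (nat_lit 31) (.nd (nat_lit 26) (.nd (nat_lit 10) (.nd (nat_lit 28) 
(.lf (nat_lit 1074126872) (dlOf (nat_lit 1) (nat_lit 0xc00180c0a81))) 
(.lf (nat_lit 4563787800) (dlOf (nat_lit 3) (nat_lit 0x1003c00015020006012000090180e0480)))) 
(.lf (nat_lit 38134808) (dlOf (nat_lit 1) (nat_lit 0x800200020009132882)))) (.nd (nat_lit 27) 
(.lf (nat_lit 1946542104) (dlOf (nat_lit 1) (nat_lit 0xc00180c0a81))) 
(.lf (nat_lit 5838856216) (dlOf (nat_lit 1) (nat_lit 0x4004000200081d0a02))))) (.nd (nat_lit 19) 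
(.nd (nat_lit 26) (.nd (nat_lit 30) 
(.lf (nat_lit 6442835992) (dlOf (nat_lit 1) (nat_lit 0x4004000200081d0a02))) 
(.lf (nat_lit 3221610520) (dlOf (nat_lit 1) (nat_lit 0x20008002400200020008160503)))) 
(.lf (nat_lit 3959808024) (dlOf (nat_lit 1) (nat_lit 0x20008002400200020008160503)))) 
(.nd (nat_lit 26) 
(.lf (nat_lit 2819481624) (dlOf (nat_lit 3) (nat_lit 0x1bc07401160360002e02003201d003c00d8000b4080048004000200182b0402))) 
(.lf (nat_lit 3557679128) (dlOf (nat_lit 3) (nat_lit 0x1bc07801160380002e02003201e003c00e0000b4080048004000200182b0402)))))) 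
(.nd (nat_lit 19) (.nd (nat_lit 21) (.nd (nat_lit 23) 
(.lf (nat_lit 471195672) (dlOf (nat_lit 1) (nat_lit 0x4002000200082b0482))) 
(.lf (nat_lit 26599448) (dlOf (nat_lit 2) (nat_lit 0x775c180500474003f808000400200060008c50082)))) 
(.lf (nat_lit 37085208) (dlOf (nat_lit 1) (nat_lit 0x8008000400200040009090083)))) (.nd (nat_lit 7) 
(.lf (nat_lit 16637976) (dlOf (nat_lit 1) (nat_lit 0x10008002c002002400088c0683))) (.nd (nat_lit 8) 
(.lf (nat_lit 20832408) (dlOf (nat_lit 1) (nat_lit 0x4004000200089e2b82))) 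
(.lf (nat_lit 2755518872) (dlOf (nat_lit 1) (nat_lit 0x200081b0781)))))))))) (.nd (nat_lit 3) 
(.nd (nat_lit 15) (.nd (nat_lit 28) (.nd (nat_lit 8) (.nd (nat_lit 18) (.nd (nat_lit 19) 
(.nd (nat_lit 9) (.nd (nat_lit 23) 
(.lf (nat_lit 16867408) (dlOf (nat_lit 2) (nat_lit 0x1bbbf20131d1700dce348077f19c00ff8aa0115be9004ad6e0061dc6c02bee28005b71300d1b890013caa40132124007cf6b002e78700017c7802b00080008002001a00088e0203))) 
(.lf (nat_lit 25256016) (dlOf (nat_lit 2) (nat_lit 0xa00000027818bf0d00)))) 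
(.lf (nat_lit 56715856) (dlOf (nat_lit 2) (nat_lit 0x393500005404000800400040019735282)))) 
(.nd (nat_lit 21) (.nd (nat_lit 23) 
(.lf (nat_lit 3960037456) (dlOf (nat_lit 6) (nat_lit 0x48045000170100200228000b00802d01180005004025008c00027020118046000120181a1900))) 
(.lf (nat_lit 42557520) (dlOf (nat_lit 1) (nat_lit 0x8008000400200760009260703)))) 
(.lf (nat_lit 2754175056) (dlOf (nat_lit 3) (nat_lit 0x3021100330fc800f87ac007c3c60026180000170500010fc8000b00801700080148002001800080c1903))))) 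
(.nd (nat_lit 25) (.nd (nat_lit 19) (.nd (nat_lit 20) (.nd (nat_lit 22) 
(.lf (nat_lit 3892666448) (dlOf (nat_lit 11) (nat_lit 0x2032802a00ac016402e00bc0000000e840124000000070080368000000360402800000001a0200840000000c8100050318054817c022c0b003d20560197023000180e807c006a03d402b01c500b8031803401a40100000b160018058001b023003300ac000120c04840ac0250035015600b80001c180a800ac0000804064c08c004004301890158000001800e00080010002007a0008180703))) 
(.lf (nat_lit 29712464) (dlOf (nat_lit 2) (nat_lit 0x15a7980690e40032041c015c02f0002f848e30200)))) 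
(.lf (nat_lit 1400912) (dlOf (nat_lit 2) (nat_lit 0x2e000000158180c1000)))) 
(.lf (nat_lit 876624) (dlOf (nat_lit 1) (nat_lit 0x44004000a0008031002)))) (.nd (nat_lit 20) 
(.nd (nat_lit 19) (.lf (nat_lit 36006480) (dlOf (nat_lit 1) (nat_lit 0x400200020009015282))) 
(.lf (nat_lit 38627920) (dlOf (nat_lit 1) (nat_lit 0x8008000400200020009135283)))) (.nd (nat_lit 7) 
(.lf (nat_lit 45443664) (dlOf (nat_lit 4) (nat_lit 0xb59d40014cb600020000000dc1801033a8001596c000a0000001b03000465b000000080008008004400200360009325283))) 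
(.lf (nat_lit 43345104) (dlOf (nat_lit 1) (nat_lit 0x4002000200092a2d82))))))) (.nd (nat_lit 7) 
(.nd (nat_lit 21) (.nd (nat_lit 9) (.nd (nat_lit 27) 
(.lf (nat_lit 92496) (dlOf (nat_lit 1) (nat_lit 0x8008000c00200020008004d83))) 
(.lf (nat_lit 671181136) (dlOf (nat_lit 4) (nat_lit 0x40380001602001401c0000281000a00e000010080130008004000200140008144d83)))) 
(.lf (nat_lit 3355534160) (dlOf (nat_lit 4) (nat_lit 0x18405c005800c0001d82022d0100000cc0814b008000064040068004001000180a2482)))) 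
(.nd (nat_lit 9) (.nd (nat_lit 18) 
(.lf (nat_lit 11624784) (dlOf (nat_lit 1) (nat_lit 0x10002000200086c0602))) 
(.lf (nat_lit 23421264) (dlOf (nat_lit 1) (nat_lit 0x1000028b80601)))) 
(.lf (nat_lit 7955280) (dlOf (nat_lit 1) (nat_lit 0x400400020018512482))))) (.nd (nat_lit 11) 
(.nd (nat_lit 9) (.nd (nat_lit 10) 
(.lf (nat_lit 2753126864) (dlOf (nat_lit 5) (nat_lit 0x1243f400a6155005309c0000641801407e8000300400c03f40054155002a0a7801504e0007826e000170a005021200580fd001f879000ac35c00501ac002b0aa0014853c00a027800961370028092000000500070008009c002016e0008090a03))) 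
(.lf (nat_lit 20542928) (dlOf (nat_lit 1) (nat_lit 0xc002005c00089d9b02)))) 
(.lf (nat_lit 2751555536) (dlOf (nat_lit 1) (nat_lit 0x4004000c0018004502)))) (.nd (nat_lit 26) 
(.nd (nat_lit 20) (.lf (nat_lit 1611229648) (dlOf (nat_lit 1) (nat_lit 0x20028124e81))) 
(.lf (nat_lit 33122768) (dlOf (nat_lit 1) (nat_lit 0x40018f54e81)))) (.nd (nat_lit 19) 
(.lf (nat_lit 1812031952) (dlOf (nat_lit 1) (nat_lit 0x80018144e81))) 
(.lf (nat_lit 738814416) (dlOf (nat_lit 1) (nat_lit 0x18400400620018124e82)))))))) 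
(.nd (nat_lit 26) (.nd (nat_lit 27) (.nd (nat_lit 7) (.nd (nat_lit 9) (.nd (nat_lit 18) 
(.lf (nat_lit 3492372560) (dlOf (nat_lit 4) (nat_lit 0xa1e7000038100010ae00001408007057000008040074002000400080c1602))) 
(.lf (nat_lit 1346199632) (dlOf (nat_lit 5) (nat_lit 0x9415f004b06b80005c10015057c00d81ae0001604005415f000090100470af8020835c000000801f000400560008e60702)))) 
(.lf (nat_lit 1346988624) (dlOf (nat_lit 1) (nat_lit 0x20019165281)))) (.nd (nat_lit 8) 
(.lf (nat_lit 1342273744) (dlOf (nat_lit 1) (nat_lit 0x2c002800a881))) 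
(.lf (nat_lit 3491324368) (dlOf (nat_lit 5) (nat_lit 0x1243d000a615f005309c0000641801407a0000300400c03d0005415f002a0a7801504e0007826e000170a00562490028123801407f401603d0007e1cf002b0af0014853c00a027800961370028095000000500070008009c002016e0008090a03))))) 
(.nd (nat_lit 10) (.nd (nat_lit 7) (.nd (nat_lit 8) (.nd (nat_lit 11) 
(.lf (nat_lit 2550489168) (dlOf (nat_lit 1) (nat_lit 0x100080018002000800080c1603))) 
(.lf (nat_lit 939616336) (dlOf (nat_lit 1) (nat_lit 0x400400020008144702)))) 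
(.lf (nat_lit 1476485456) (dlOf (nat_lit 2) (nat_lit 0x300d80000004001800400220018010802)))) 
(.lf (nat_lit 4697710800) (dlOf (nat_lit 2) (nat_lit 0x98066000000200f00018090901)))) 
(.nd (nat_lit 8) (.nd (nat_lit 31) 
(.lf (nat_lit 939615312) (dlOf (nat_lit 1) (nat_lit 0x260018142881))) 
(.lf (nat_lit 3087098960) (dlOf (nat_lit 1) (nat_lit 0x880018142881)))) 
(.lf (nat_lit 3624234320) (dlOf (nat_lit 2) (nat_lit 0x2100a80004c080098008002c00200140008146a03)))))) 
(.nd (nat_lit 29) (.nd (nat_lit 27) (.nd (nat_lit 7) (.nd (nat_lit 10) 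
(.lf (nat_lit 3557122384) (dlOf (nat_lit 1) (nat_lit 0x58008002000200160008130803))) 
(.lf (nat_lit 1409379664) (dlOf (nat_lit 2) (nat_lit 0x2402d000501380128018008c006000100800120018006a01)))) 
(.lf (nat_lit 3556862416) (dlOf (nat_lit 1) (nat_lit 0x4004000200080d4e82)))) (.nd (nat_lit 7) 
(.nd (nat_lit 8) (.lf (nat_lit 2617341520) (dlOf (nat_lit 1) (nat_lit 0x68002000800080a9c02))) 
(.lf (nat_lit 3691077968) (dlOf (nat_lit 1) (nat_lit 0x2c00200080008010802)))) 
(.lf (nat_lit 2617336528) (dlOf (nat_lit 4) (nat_lit 0x184056005800c0001d82022d0100000cc0814b008000064040068004001000180a2002))))) 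
(.nd (nat_lit 7) (.nd (nat_lit 9) 
(.lf (nat_lit 3154468944) (dlOf (nat_lit 2) (nat_lit 0x8008c0040035000058281a0700))) 
(.nd (nat_lit 18) 
(.lf (nat_lit 6241216080) (dlOf (nat_lit 2) (nat_lit 0x200200002c080030008000400200060008053883))) 
(.lf (nat_lit 4096091728) (dlOf (nat_lit 1) (nat_lit 0x200280e3881))))) (.nd (nat_lit 8) 
(.nd (nat_lit 10) (.lf (nat_lit 6241476816) (dlOf (nat_lit 1) (nat_lit 0x3e00280f1b81))) 
(.lf (nat_lit 6241215696) (dlOf (nat_lit 1) (nat_lit 0xc00400040008052d82)))) 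
(.lf (nat_lit 4095566288) (dlOf (nat_lit 1) (nat_lit 0x600080e1101)))))))) (.nd (nat_lit 18) 
(.nd (nat_lit 30) (.nd (nat_lit 27) (.nd (nat_lit 20) (.nd (nat_lit 23) (.nd (nat_lit 24) 
(.lf (nat_lit 2416042064) (dlOf (nat_lit 1) (nat_lit 0x20018020901))) 
(.lf (nat_lit 16900176) (dlOf (nat_lit 2) (nat_lit 0x6b21b0035087e0005f04001000188e0201)))) 
(.lf (nat_lit 25288784) (dlOf (nat_lit 3) (nat_lit 0x3e45800070e0000460400119160003c380001141000200080044002000a0008bf0d03)))) 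
(.nd (nat_lit 7) (.nd (nat_lit 8) 
(.lf (nat_lit 24240208) (dlOf (nat_lit 1) (nat_lit 0x800400020008b90f82))) 
(.lf (nat_lit 11657552) (dlOf (nat_lit 4) (nat_lit 0xd48c000a604005aa460005202007b512000238186c0600)))) 
(.lf (nat_lit 11657680) (dlOf (nat_lit 1) (nat_lit 0xc002000400086c0a02))))) (.nd (nat_lit 26) 
(.nd (nat_lit 11) (.nd (nat_lit 19) 
(.lf (nat_lit 2550259792) (dlOf (nat_lit 1) (nat_lit 0x20018020901))) 
(.lf (nat_lit 134864976) (dlOf (nat_lit 5) (nat_lit 0x3d00c4000ae0405f8062000560202460310002a810143018800150080558008058c002013800080d0d03)))) 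
(.nd (nat_lit 7) 
(.lf (nat_lit 671213904) (dlOf (nat_lit 5) (nat_lit 0xec038000160200040000000a01000100e0000803800040000000506000201c000100700008000000080c00ac00400020018144d82))) 
(.lf (nat_lit 3087132880) (dlOf (nat_lit 1) (nat_lit 0x40018144a01))))) (.nd (nat_lit 7) 
(.nd (nat_lit 19) 
(.lf (nat_lit 5301723216) (dlOf (nat_lit 3) (nat_lit 0x1000fc00e007c001a03a002501b80040000000c214001c07e002a03e001001b8001801800d800800b4002003a0008040503))) 
(.lf (nat_lit 201973840) (dlOf (nat_lit 5) (nat_lit 0x3d00c4000a00405f80620004f02024603100027010143018800134080558008058c002013800080d0d03)))) 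
(.lf (nat_lit 2617369296) (dlOf (nat_lit 2) (nat_lit 0x2440560003b02003c00280a2001)))))) 
(.nd (nat_lit 8) (.nd (nat_lit 26) (.nd (nat_lit 7) (.nd (nat_lit 9) 
(.lf (nat_lit 2013388880) (dlOf (nat_lit 1) (nat_lit 0x20028040501))) 
(.lf (nat_lit 1610737232) (dlOf (nat_lit 1) (nat_lit 0x400200020008093882)))) 
(.lf (nat_lit 3221355728) (dlOf (nat_lit 2) (nat_lit 0x102300027408002000800080020004000811c283)))) 
(.nd (nat_lit 19) (.nd (nat_lit 32) 
(.lf (nat_lit 1140973648) (dlOf (nat_lit 1) (nat_lit 0x20028040501))) 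
(.lf (nat_lit 5435940944) (dlOf (nat_lit 3) (nat_lit 0x1000fc00e007c001a03a002501a80040000000d414001c07e002a03e001001a8001a41800d800800b4002003a0008040503)))) 
(.lf (nat_lit 1678368848) (dlOf (nat_lit 2) (nat_lit 0x3005600008018201900))))) (.nd (nat_lit 7) 
(.nd (nat_lit 9) 
(.lf (nat_lit 1409412432) (dlOf (nat_lit 2) (nat_lit 0x2000c002a00300008028006a00))) 
(.lf (nat_lit 3355566928) (dlOf (nat_lit 2) (nat_lit 0x24405c0003b02003c00280a2481)))) 
(.nd (nat_lit 11) 
(.lf (nat_lit 1881268688) (dlOf (nat_lit 8) (nat_lit 0xa0650001f8100040328000f4080020194000680400080ca0002a020002065000100100010328000300800084080000004000800400260018e81102))) 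
(.nd (nat_lit 27) 
(.lf (nat_lit 4093766096) (dlOf (nat_lit 1) (nat_lit 0x8008000400200020008004e83))) 
(.lf (nat_lit 1543629264) (dlOf (nat_lit 1) (nat_lit 0x400400020008144e82)))))))) (.nd (nat_lit 30) 
(.nd (nat_lit 19) (.nd (nat_lit 23) (.nd (nat_lit 7) (.nd (nat_lit 21) 
(.lf (nat_lit 738582608) (dlOf (nat_lit 4) (nat_lit 0xb4053005e01080003810031814c017c0420000a04009e053000c010800024100140008003400200a800080b0683))) 
(.lf (nat_lit 2482256) (dlOf (nat_lit 1) (nat_lit 0x20028160f81)))) 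
(.lf (nat_lit 872801232) (dlOf (nat_lit 1) (nat_lit 0x9800280e2881)))) (.nd (nat_lit 20) 
(.nd (nat_lit 21) 
(.lf (nat_lit 29745232) (dlOf (nat_lit 2) (nat_lit 0x1a19ba015ec8e008a646801ba76e009700300d77b480017c300530008010c00200c20008e30203))) 
(.lf (nat_lit 48619600) (dlOf (nat_lit 1) (nat_lit 0xd0002005a0009420702)))) 
(.lf (nat_lit 9822288) (dlOf (nat_lit 2) (nat_lit 0xd84d0001e018580500))))) (.nd (nat_lit 7) 
(.nd (nat_lit 8) (.nd (nat_lit 20) 
(.lf (nat_lit 13492304) (dlOf (nat_lit 2) (nat_lit 0x580000009004001800200020008730d02))) 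
(.lf (nat_lit 45998160) (dlOf (nat_lit 1) (nat_lit 0x140029380001)))) 
(.lf (nat_lit 2755518800) (dlOf (nat_lit 4) (nat_lit 0x60150000960400d80a80056053002b0280015813400c007a00620380002006002a02a0006814000080700003f06000200181b0601)))) 
(.nd (nat_lit 9) 
(.lf (nat_lit 61727952) (dlOf (nat_lit 2) (nat_lit 0x2455dc0003b0200020029922d81))) 
(.lf (nat_lit 8250064) (dlOf (nat_lit 1) (nat_lit 0x400200020008512002)))))) (.nd (nat_lit 7) 
(.nd (nat_lit 31) (.nd (nat_lit 21) (.nd (nat_lit 26) 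
(.lf (nat_lit 1610997840) (dlOf (nat_lit 4) (nat_lit 0xb4053005e01080003810031814c017c0420000a04009e053000c010800024100140008003400200a800080b0683))) 
(.lf (nat_lit 1946542160) (dlOf (nat_lit 1) (nat_lit 0x200180c1601)))) 
(.lf (nat_lit 1881530448) (dlOf (nat_lit 1) (nat_lit 0x4e0028f40701)))) (.nd (nat_lit 8) 
(.nd (nat_lit 26) 
(.lf (nat_lit 4026916944) (dlOf (nat_lit 6) (nat_lit 0x540800004b02001200a000240100040100000fc0800100800007c04001406a0003902000200180d0d01))) 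
(.lf (nat_lit 3288719440) (dlOf (nat_lit 6) (nat_lit 0x540800005202001200a000278100040100001180800100800008a04001406a0004002000200180d0d01)))) 
(.lf (nat_lit 3493716304) (dlOf (nat_lit 4) (nat_lit 0x60150000a40400d80a80056053002b0280015813400c007a00620380002386002a02a0006814000080700004606000200181b0601))))) 
(.nd (nat_lit 11) (.nd (nat_lit 19) 
(.lf (nat_lit 1208344784) (dlOf (nat_lit 1) (nat_lit 0x54004001600080c1b82))) 
(.lf (nat_lit 6377300176) (dlOf (nat_lit 1) (nat_lit 0x4002000200080c1b82)))) (.nd (nat_lit 8) 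
(.lf (nat_lit 1345186512) (dlOf (nat_lit 1) (nat_lit 0x5000200120008b05882))) 
(.lf (nat_lit 4094552528) (dlOf (nat_lit 1) (nat_lit 0x60018054e81))))))))) (.nd (nat_lit 28) 
(.nd (nat_lit 15) (.nd (nat_lit 18) (.nd (nat_lit 27) (.nd (nat_lit 7) (.nd (nat_lit 26) 
(.nd (nat_lit 19) (.lf (nat_lit 5905670232) (dlOf (nat_lit 1) (nat_lit 0x24002000a00080b0002))) 
(.lf (nat_lit 42557528) (dlOf (nat_lit 2) (nat_lit 0x380000004a040030002005e0009260802)))) 
(.nd (nat_lit 29) (.lf (nat_lit 6509650008) (dlOf (nat_lit 1) (nat_lit 0x24002000400080b0002))) 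
(.lf (nat_lit 1677811800) (dlOf (nat_lit 1) (nat_lit 0x58008002000200040008090003))))) 
(.nd (nat_lit 10) (.lf (nat_lit 3236056) (dlOf (nat_lit 1) (nat_lit 0x40028200481))) 
(.lf (nat_lit 97496) (dlOf (nat_lit 1) (nat_lit 0x2c001800c401))))) (.nd (nat_lit 26) 
(.nd (nat_lit 9) (.nd (nat_lit 10) 
(.lf (nat_lit 1208050008) (dlOf (nat_lit 1) (nat_lit 0x40018090d81))) 
(.lf (nat_lit 3892405592) (dlOf (nat_lit 1) (nat_lit 0xc0028103381)))) 
(.lf (nat_lit 3355534168) (dlOf (nat_lit 2) (nat_lit 0x2a0100001600800400080034002000e00080a2583)))) 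
(.nd (nat_lit 7) (.nd (nat_lit 8) 
(.lf (nat_lit 3959513176) (dlOf (nat_lit 1) (nat_lit 0x8008002800200060008090003))) 
(.lf (nat_lit 2348900696) (dlOf (nat_lit 5) (nat_lit 0xc020001000e0005006800178180018038000ba0400180060004502001c02a00050080001000c000000c02c400400220008014e02)))) 
(.lf (nat_lit 201417688) (dlOf (nat_lit 1) (nat_lit 0x400400020008002882)))))) (.nd (nat_lit 7) 
(.nd (nat_lit 20) (.nd (nat_lit 8) (.nd (nat_lit 10) 
(.lf (nat_lit 4899299416) (dlOf (nat_lit 1) (nat_lit 0x40028100601))) 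
(.lf (nat_lit 38102104) (dlOf (nat_lit 1) (nat_lit 0x400200020009132902)))) 
(.lf (nat_lit 19751256) (dlOf (nat_lit 1) (nat_lit 0x14002000200089d0d82)))) (.nd (nat_lit 8) 
(.nd (nat_lit 9) (.lf (nat_lit 37052504) (dlOf (nat_lit 1) (nat_lit 0xc00200020009090802))) 
(.lf (nat_lit 45443672) (dlOf (nat_lit 11) (nat_lit 0x519d400028020062e31005067500009810003b3a80003e0400499d40001d02001acea0000d0100076750000600800433a8000200400159d40000d0200400000000281003f000000000080088008000400200120009325303)))) 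
(.lf (nat_lit 50160984) (dlOf (nat_lit 1) (nat_lit 0x200094c3381))))) (.nd (nat_lit 19) 
(.nd (nat_lit 8) (.nd (nat_lit 20) 
(.lf (nat_lit 1745182936) (dlOf (nat_lit 2) (nat_lit 0x100a0000680800180080010002000a00080c1c03))) 
(.lf (nat_lit 3498200) (dlOf (nat_lit 1) (nat_lit 0x18008000800200040008200483)))) 
(.lf (nat_lit 38101976) (dlOf (nat_lit 1) (nat_lit 0x800009132881)))) (.nd (nat_lit 9) 
(.nd (nat_lit 10) (.lf (nat_lit 8217048) (dlOf (nat_lit 1) (nat_lit 0xdc002004a0008511202))) 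
(.lf (nat_lit 19754456) (dlOf (nat_lit 1) (nat_lit 0x1200189d6d81)))) 
(.lf (nat_lit 2752346072) (dlOf (nat_lit 1) (nat_lit 0x40040002000800a602))))))) (.nd (nat_lit 18) 
(.nd (nat_lit 11) (.nd (nat_lit 19) (.nd (nat_lit 7) 
(.lf (nat_lit 5435940952) (dlOf (nat_lit 7) (nat_lit 0x3280fc004407400fc035008d00000014c2002f80fc007007c008603a009501a80408000000a41400480000005102019c03f00ac01f005280e802f806a0004708017a03f00be01f005b00e8032006a01440000002305008301f803500f8009807400fc035003c00000011428008000800a0002000c0008040603))) 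
(.nd (nat_lit 8) (.lf (nat_lit 2220248) (dlOf (nat_lit 2) (nat_lit 0x118a5e0011b818150480))) 
(.lf (nat_lit 3892437464) (dlOf (nat_lit 1) (nat_lit 0x8008008800200020008117b03))))) 
(.nd (nat_lit 10) (.nd (nat_lit 12) 
(.lf (nat_lit 42590296) (dlOf (nat_lit 1) (nat_lit 0x400400020009260802))) 
(.lf (nat_lit 20574296) (dlOf (nat_lit 1) (nat_lit 0x4002000200089d7d82)))) 
(.lf (nat_lit 41542744) (dlOf (nat_lit 1) (nat_lit 0x40029242901))))) (.nd (nat_lit 8) 
(.nd (nat_lit 10) (.lf (nat_lit 58845784) (dlOf (nat_lit 1) (nat_lit 0x200097e5301))) 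
(.lf (nat_lit 6509686360) (dlOf (nat_lit 1) (nat_lit 0x40028147181)))) 
(.lf (nat_lit 1677846872) (dlOf (nat_lit 1) (nat_lit 0x20018114e01))))) (.nd (nat_lit 22) 
(.nd (nat_lit 26) (.nd (nat_lit 7) (.nd (nat_lit 20) 
(.lf (nat_lit 1610997848) (dlOf (nat_lit 2) (nat_lit 0x980aa00240370001d0280b0700))) 
(.lf (nat_lit 9822296) (dlOf (nat_lit 7) (nat_lit 0x97a450057d21802e6904009747e000ba390030cee000be76801a7078000531000a3a450054d21802ce90400e747e0017a39004ccee0015e76801630780005210004583c00027810060d22802b690401033b8000470600f5a45007ed20803067700008c0c013348a00b7a410021cee00011418012800801b000200080008580603)))) 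
(.lf (nat_lit 1208344792) (dlOf (nat_lit 1) (nat_lit 0x780080050002000200080c1c03)))) 
(.nd (nat_lit 8) (.nd (nat_lit 29) 
(.lf (nat_lit 4496679000) (dlOf (nat_lit 2) (nat_lit 0x48c068010403301220190000c8180008008001000200020008120603))) 
(.lf (nat_lit 738582616) (dlOf (nat_lit 2) (nat_lit 0x980aa00240370001c0280b0700)))) 
(.nd (nat_lit 9) 
(.lf (nat_lit 4362461528) (dlOf (nat_lit 2) (nat_lit 0x140000000002001c0008090681))) 
(.lf (nat_lit 2886068056) (dlOf (nat_lit 1) (nat_lit 0x508002011c0008143f82)))))) (.nd (nat_lit 7) 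
(.nd (nat_lit 10) (.lf (nat_lit 29745240) (dlOf (nat_lit 1) (nat_lit 0x120018e30381))) 
(.lf (nat_lit 38134872) (dlOf (nat_lit 1) (nat_lit 0x800200020009132902)))) (.nd (nat_lit 8) 
(.lf (nat_lit 8254168) (dlOf (nat_lit 1) (nat_lit 0x400200020008518c82))) (.nd (nat_lit 9) 
(.lf (nat_lit 21357016) (dlOf (nat_lit 1) (nat_lit 0xa8008008400200380008a37103))) 
(.lf (nat_lit 38134744) (dlOf (nat_lit 1) (nat_lit 0x740009132881))))))))) (.nd (nat_lit 29) 
(.nd (nat_lit 7) (.nd (nat_lit 8) (.nd (nat_lit 11) (.nd (nat_lit 15) (.nd (nat_lit 27) 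
(.lf (nat_lit 4563755096) (dlOf (nat_lit 2) (nat_lit 0x14052011a018000190280d0600))) 
(.lf (nat_lit 4697972824) (dlOf (nat_lit 2) (nat_lit 0x14052011a018000198280d0600)))) 
(.lf (nat_lit 5772009560) (dlOf (nat_lit 5) (nat_lit 0x3a14f0002601002f0a780012c08026053c015429c0004004008814f0001f818040600)))) 
(.nd (nat_lit 9) (.lf (nat_lit 3492673624) (dlOf (nat_lit 1) (nat_lit 0x200280fa781))) 
(.lf (nat_lit 473262680) (dlOf (nat_lit 1) (nat_lit 0xe0018e35301))))) (.nd (nat_lit 10) 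
(.nd (nat_lit 26) (.lf (nat_lit 1476485464) (dlOf (nat_lit 1) (nat_lit 0x5c0008010881))) 
(.nd (nat_lit 27) 
(.lf (nat_lit 2483118424) (dlOf (nat_lit 1) (nat_lit 0x40008009c002002e0008014d83))) 
(.lf (nat_lit 3691077976) (dlOf (nat_lit 1) (nat_lit 0x4000400140008010882))))) (.nd (nat_lit 11) 
(.lf (nat_lit 473523544) (dlOf (nat_lit 1) (nat_lit 0x100008f53381))) 
(.lf (nat_lit 3624234328) (dlOf (nat_lit 1) (nat_lit 0x1c0028146a81)))))) (.nd (nat_lit 19) 
(.nd (nat_lit 15) (.nd (nat_lit 9) 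
(.lf (nat_lit 3691339992) (dlOf (nat_lit 1) (nat_lit 0x84002006e0008160502))) 
(.lf (nat_lit 2617336536) (dlOf (nat_lit 2) (nat_lit 0x2a0100001600800400080034002000e00080a2103)))) 
(.nd (nat_lit 18) (.lf (nat_lit 3493978328) (dlOf (nat_lit 2) (nat_lit 0x1203f000e88181b0480))) 
(.lf (nat_lit 1476780248) (dlOf (nat_lit 2) (nat_lit 0x68000000aa040014002000a00081a0502))))) 
(.nd (nat_lit 20) (.nd (nat_lit 8) (.nd (nat_lit 26) 
(.lf (nat_lit 1342791896) (dlOf (nat_lit 2) (nat_lit 0x1022f0011b8180c0480))) 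
(.lf (nat_lit 470376664) (dlOf (nat_lit 2) (nat_lit 0x1022f0011b8180c0480)))) 
(.lf (nat_lit 5774074328) (dlOf (nat_lit 1) (nat_lit 0x180080004002000600080f7b03)))) 
(.nd (nat_lit 9) (.nd (nat_lit 15) 
(.lf (nat_lit 1343840472) (dlOf (nat_lit 1) (nat_lit 0x240028370501))) 
(.lf (nat_lit 1343873240) (dlOf (nat_lit 1) (nat_lit 0x1e0028370501)))) 
(.lf (nat_lit 471693016) (dlOf (nat_lit 1) (nat_lit 0xe00183da001))))))) (.nd (nat_lit 26) 
(.nd (nat_lit 8) (.nd (nat_lit 7) (.nd (nat_lit 10) 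
(.lf (nat_lit 1880713816) (dlOf (nat_lit 1) (nat_lit 0x400400020008b55302))) 
(.lf (nat_lit 805432920) (dlOf (nat_lit 1) (nat_lit 0x78002001e0008117182)))) (.nd (nat_lit 9) 
(.nd (nat_lit 10) 
(.lf (nat_lit 3087132888) (dlOf (nat_lit 1) (nat_lit 0x430008000800200020008144a83))) 
(.lf (nat_lit 805436632) (dlOf (nat_lit 1) (nat_lit 0x2002811c401)))) 
(.lf (nat_lit 3087099608) (dlOf (nat_lit 1) (nat_lit 0x140018143a81))))) (.nd (nat_lit 10) 
(.nd (nat_lit 11) (.lf (nat_lit 3087131608) (dlOf (nat_lit 1) (nat_lit 0x7e0028142881))) 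
(.lf (nat_lit 6174141400) (dlOf (nat_lit 1) (nat_lit 0x40008055e01)))) (.nd (nat_lit 9) 
(.lf (nat_lit 805432792) (dlOf (nat_lit 1) (nat_lit 0x2400200060008116d82))) 
(.lf (nat_lit 3087099864) (dlOf (nat_lit 1) (nat_lit 0x260028144501)))))) (.nd (nat_lit 7) 
(.nd (nat_lit 19) (.nd (nat_lit 8) (.nd (nat_lit 10) 
(.lf (nat_lit 5301723224) (dlOf (nat_lit 7) (nat_lit 0x3280fc004407400fc037008d0000001302002f80fc007007c008603a009501b80408000000961400480000004a02019c03f00ac01f005280e802f806e0004008017a03f00be01f005b00e8032006e01440000001f85008301f803500f8009807400fc037003c0000000f828008000800a0002000c0008040603))) 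
(.lf (nat_lit 6377530456) (dlOf (nat_lit 1) (nat_lit 0x4004000200080e2902)))) 
(.lf (nat_lit 4228243800) (dlOf (nat_lit 2) (nat_lit 0x140000000002001c0008090681)))) 
(.nd (nat_lit 15) (.lf (nat_lit 4095303768) (dlOf (nat_lit 2) (nat_lit 0x18a08600019018090600))) 
(.nd (nat_lit 20) 
(.lf (nat_lit 6375989336) (dlOf (nat_lit 5) (nat_lit 0x3a1400002981002f0a0000148080260500015427e0004704008814000023018040600))) 
(.lf (nat_lit 4095336536) (dlOf (nat_lit 2) (nat_lit 0x8d025c00064040020004000c0008090602)))))) 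
(.nd (nat_lit 15) (.nd (nat_lit 27) 
(.lf (nat_lit 6241476824) (dlOf (nat_lit 1) (nat_lit 0x100080014002000400080f1c03))) 
(.lf (nat_lit 2080727256) (dlOf (nat_lit 1) (nat_lit 0x600180c1901)))) (.nd (nat_lit 8) 
(.lf (nat_lit 1007018200) (dlOf (nat_lit 1) (nat_lit 0x140018150581))) 
(.lf (nat_lit 1946280408) (dlOf (nat_lit 1) (nat_lit 0x20018017101))))))))))) (.nd (nat_lit 15) 
(.nd (nat_lit 3) (.nd (nat_lit 8) (.nd (nat_lit 18) (.nd (nat_lit 26) (.nd (nat_lit 19) 
(.nd (nat_lit 28) (.nd (nat_lit 7) (.nd (nat_lit 6) (.nd (nat_lit 9) 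
(.lf (nat_lit 13721617) (dlOf (nat_lit 2) (nat_lit 0x5161af0001d818740100))) 
(.lf (nat_lit 3355533841) (dlOf (nat_lit 1) (nat_lit 0x4002000200080a1482)))) 
(.lf (nat_lit 16867409) (dlOf (nat_lit 2) (nat_lit 0x5de338001500802f00080098002009200088e0203)))) 
(.nd (nat_lit 9) 
(.lf (nat_lit 5905670289) (dlOf (nat_lit 4) (nat_lit 0x1120000002301003d0000001140800c00000007004000c004003400180b0182))) 
(.lf (nat_lit 20018833) (dlOf (nat_lit 1) (nat_lit 0x3000189d9e81))))) (.nd (nat_lit 7) 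
(.nd (nat_lit 6) (.nd (nat_lit 10) 
(.lf (nat_lit 1343315985) (dlOf (nat_lit 2) (nat_lit 0x17402a000d78181e0480))) 
(.lf (nat_lit 6710979601) (dlOf (nat_lit 1) (nat_lit 0x400200020008005f82)))) 
(.lf (nat_lit 939616337) (dlOf (nat_lit 1) (nat_lit 0x400400020008144702)))) (.nd (nat_lit 10) 
(.lf (nat_lit 805396625) (dlOf (nat_lit 2) (nat_lit 0x600980034035001f012800d00900001410000400400300018090182))) 
(.lf (nat_lit 4697711761) (dlOf (nat_lit 1) (nat_lit 0x100028092b81)))))) (.nd (nat_lit 20) 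
(.nd (nat_lit 22) (.nd (nat_lit 6) 
(.lf (nat_lit 3892928529) (dlOf (nat_lit 3) (nat_lit 0x13805800e0e02009001800675018290780))) 
(.lf (nat_lit 620241) (dlOf (nat_lit 1) (nat_lit 0x2002800a001)))) (.nd (nat_lit 25) 
(.lf (nat_lit 21585937) (dlOf (nat_lit 2) (nat_lit 0x1143800068040010004000c0008a50202))) 
(.lf (nat_lit 55140369) (dlOf (nat_lit 1) (nat_lit 0x4004000200096c0082))))) (.nd (nat_lit 6) 
(.nd (nat_lit 22) (.lf (nat_lit 3760145) (dlOf (nat_lit 1) (nat_lit 0xc004000e0008220582))) 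
(.lf (nat_lit 16343057) (dlOf (nat_lit 1) (nat_lit 0x40018890301)))) 
(.lf (nat_lit 1880713809) (dlOf (nat_lit 1) (nat_lit 0x8008001000200020008b55283)))))) 
(.nd (nat_lit 27) (.nd (nat_lit 6) (.nd (nat_lit 7) (.nd (nat_lit 28) 
(.lf (nat_lit 4899038737) (dlOf (nat_lit 1) (nat_lit 0x20018053701))) 
(.lf (nat_lit 6241216017) (dlOf (nat_lit 2) (nat_lit 0x20040000b018053700)))) (.nd (nat_lit 29) 
(.lf (nat_lit 6509650065) (dlOf (nat_lit 4) (nat_lit 0x1120000002301003d0000001140800c00000007004000c004003400180b0182))) 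
(.lf (nat_lit 1677811857) (dlOf (nat_lit 2) (nat_lit 0x600980034035001f012800d00900001410000400400300018090182))))) 
(.nd (nat_lit 7) (.nd (nat_lit 19) 
(.lf (nat_lit 5972779089) (dlOf (nat_lit 1) (nat_lit 0x400280c1001))) 
(.lf (nat_lit 2754175057) (dlOf (nat_lit 3) (nat_lit 0x41f90001601018f1088000a80800080080014002000400080c1903)))) 
(.lf (nat_lit 3825298641) (dlOf (nat_lit 1) (nat_lit 0x400400020008146402))))) (.nd (nat_lit 19) 
(.nd (nat_lit 6) (.nd (nat_lit 10) 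
(.lf (nat_lit 2348900881) (dlOf (nat_lit 1) (nat_lit 0x28008001800200020008018403))) 
(.lf (nat_lit 4496385553) (dlOf (nat_lit 1) (nat_lit 0x200028053701)))) (.nd (nat_lit 10) 
(.lf (nat_lit 201418961) (dlOf (nat_lit 1) (nat_lit 0x400400020008004a02))) 
(.lf (nat_lit 1543597265) (dlOf (nat_lit 3) (nat_lit 0x20140000301001200a0000000800b0008000c00200240008146403))))) 
(.nd (nat_lit 28) (.nd (nat_lit 6) 
(.lf (nat_lit 201941009) (dlOf (nat_lit 1) (nat_lit 0x10002000800080c0982))) 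
(.lf (nat_lit 3960037457) (dlOf (nat_lit 7) (nat_lit 0xe5022806700240005c08033008a0202009000160203c90230187010c083c080055c038000700b0000a8280220118000500403dc08c0070043001301c00009c180b581180004804001c004001600181a1902)))) 
(.nd (nat_lit 9) (.nd (nat_lit 30) 
(.lf (nat_lit 1007247377) (dlOf (nat_lit 1) (nat_lit 0x1000182a0201))) 
(.lf (nat_lit 4228472849) (dlOf (nat_lit 2) (nat_lit 0x80b000000040008004000400180d0802)))) 
(.lf (nat_lit 470376977) (dlOf (nat_lit 1) (nat_lit 0x4004000200180c0d82)))))))) (.nd (nat_lit 21) 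
(.nd (nat_lit 31) (.nd (nat_lit 6) (.nd (nat_lit 19) (.nd (nat_lit 7) (.nd (nat_lit 11) 
(.lf (nat_lit 4362428433) (dlOf (nat_lit 8) (nat_lit 0x540a401653020060051005402280a880cc02ca20c01780b800980540092029800f0144039408e022603300a8a06003502980543808027814c01dc08e019203300a4c03001a0298003011c01440660147e06006605301e401980000010044000802ec00200200008070503))) 
(.lf (nat_lit 4295321617) (dlOf (nat_lit 1) (nat_lit 0x20018114701)))) 
(.lf (nat_lit 6375695505) (dlOf (nat_lit 1) (nat_lit 0x8008000400200020008002b83)))) 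
(.nd (nat_lit 20) (.lf (nat_lit 21848081) (dlOf (nat_lit 1) (nat_lit 0x20028a70481))) 
(.lf (nat_lit 27090961) (dlOf (nat_lit 3) (nat_lit 0xd8d8e000d781009c6c70006240800580080278002013c0008ca0483))))) 
(.nd (nat_lit 19) (.nd (nat_lit 27) 
(.lf (nat_lit 4563755089) (dlOf (nat_lit 1) (nat_lit 0x30008000c002000200080d0503))) 
(.lf (nat_lit 4697972817) (dlOf (nat_lit 1) (nat_lit 0x30008000c002000200080d0503)))) 
(.lf (nat_lit 13459537) (dlOf (nat_lit 1) (nat_lit 0x20018721901))))) (.nd (nat_lit 27) 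
(.nd (nat_lit 6) (.nd (nat_lit 29) 
(.lf (nat_lit 3221577745) (dlOf (nat_lit 3) (nat_lit 0x4407c002800e0012e820025023000000080568008006c00200440008150503))) 
(.lf (nat_lit 3758448657) (dlOf (nat_lit 1) (nat_lit 0x164002002400081c0482)))) (.nd (nat_lit 29) 
(.lf (nat_lit 2416271441) (dlOf (nat_lit 2) (nat_lit 0x70008000bc080010008000c002000400080c1903))) 
(.lf (nat_lit 4026884177) (dlOf (nat_lit 2) (nat_lit 0x420330001a0180c1900))))) (.nd (nat_lit 28) 
(.nd (nat_lit 26) (.lf (nat_lit 3892666385) (dlOf (nat_lit 1) (nat_lit 0x1000200020008180002))) 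
(.lf (nat_lit 3959775249) (dlOf (nat_lit 3) (nat_lit 0x4407c002800e00124820025023000000080568008006c00200440008150503)))) 
(.nd (nat_lit 29) (.lf (nat_lit 2617597969) (dlOf (nat_lit 2) (nat_lit 0x6c0110000f818100280))) 
(.lf (nat_lit 4228210705) (dlOf (nat_lit 8) (nat_lit 0x1780aa009804d0092026000f01280394080022603200b418600350260059f408027813001dc080019203200afe03001a026000301000144064015ed06002a04b00a76010030025002a00f80544064014ea06006604c01e401900000010044000802ec00200200008070503))))))) 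
(.nd (nat_lit 20) (.nd (nat_lit 19) (.nd (nat_lit 6) (.nd (nat_lit 9) 
(.lf (nat_lit 2449425) (dlOf (nat_lit 1) (nat_lit 0x20018160681))) 
(.lf (nat_lit 4096091665) (dlOf (nat_lit 1) (nat_lit 0x200280e3701)))) (.nd (nat_lit 26) 
(.lf (nat_lit 2449489) (dlOf (nat_lit 1) (nat_lit 0x400200020008161002))) 
(.lf (nat_lit 1009082449) (dlOf (nat_lit 1) (nat_lit 0x180009061701))))) (.nd (nat_lit 28) 
(.nd (nat_lit 6) (.nd (nat_lit 22) 
(.lf (nat_lit 2754437137) (dlOf (nat_lit 3) (nat_lit 0xab1118181081c0ae80000003b06004a21c0000a8180e0100))) 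
(.lf (nat_lit 15556625) (dlOf (nat_lit 1) (nat_lit 0x180018800301)))) 
(.lf (nat_lit 19751505) (dlOf (nat_lit 1) (nat_lit 0x300080024002000600089d1683)))) 
(.nd (nat_lit 10) 
(.lf (nat_lit 3492634641) (dlOf (nat_lit 3) (nat_lit 0xab107018107c80ae80000003b06004a2070000b0180e0100))) 
(.lf (nat_lit 1345152017) (dlOf (nat_lit 1) (nat_lit 0x720018aa2881)))))) (.nd (nat_lit 7) 
(.nd (nat_lit 6) (.nd (nat_lit 19) 
(.lf (nat_lit 24469521) (dlOf (nat_lit 1) (nat_lit 0x14002000a0008ba0582))) (.nd (nat_lit 26) 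
(.lf (nat_lit 4022289) (dlOf (nat_lit 1) (nat_lit 0x20028270881))) 
(.lf (nat_lit 2755485713) (dlOf (nat_lit 2) (nat_lit 0x1803c8000a80800500080078002001200081a0303))))) 
(.lf (nat_lit 1346199633) (dlOf (nat_lit 2) (nat_lit 0x1015f000506b8000001001480080024002004e0008e60703)))) 
(.nd (nat_lit 6) (.nd (nat_lit 10) 
(.lf (nat_lit 12411025) (dlOf (nat_lit 1) (nat_lit 0x8004000400186c0182))) 
(.lf (nat_lit 41772177) (dlOf (nat_lit 1) (nat_lit 0x1c0008000400200020009242b83)))) 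
(.lf (nat_lit 8221393) (dlOf (nat_lit 1) (nat_lit 0x400200020008518c82)))))))) (.nd (nat_lit 6) 
(.nd (nat_lit 25) (.nd (nat_lit 9) (.nd (nat_lit 7) (.nd (nat_lit 19) 
(.lf (nat_lit 1007772945) (dlOf (nat_lit 1) (nat_lit 0x200080004002000200087a3003))) 
(.lf (nat_lit 1008297233) (dlOf (nat_lit 1) (nat_lit 0x400400020008b53002)))) (.nd (nat_lit 10) 
(.nd (nat_lit 19) (.lf (nat_lit 3758188945) (dlOf (nat_lit 1) (nat_lit 0x4002000200080d4e82))) 
(.lf (nat_lit 616849) (dlOf (nat_lit 1) (nat_lit 0x400200020008004e82)))) 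
(.lf (nat_lit 1345414545) (dlOf (nat_lit 1) (nat_lit 0x40028bb3601))))) (.nd (nat_lit 10) 
(.nd (nat_lit 11) (.lf (nat_lit 2617340817) (dlOf (nat_lit 1) (nat_lit 0x4600280a9081))) 
(.nd (nat_lit 18) (.lf (nat_lit 5771455377) (dlOf (nat_lit 1) (nat_lit 0x400200020008005c82))) 
(.lf (nat_lit 5771717521) (dlOf (nat_lit 1) (nat_lit 0xc20018005c81))))) (.nd (nat_lit 7) 
(.lf (nat_lit 536962833) (dlOf (nat_lit 1) (nat_lit 0xe0028003c01))) 
(.lf (nat_lit 2751817617) (dlOf (nat_lit 1) (nat_lit 0x24c00400840008004202)))))) (.nd (nat_lit 23) 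
(.nd (nat_lit 7) (.nd (nat_lit 21) 
(.lf (nat_lit 55665937) (dlOf (nat_lit 1) (nat_lit 0x4002000200096d3002))) 
(.lf (nat_lit 36791569) (dlOf (nat_lit 1) (nat_lit 0xb18002024c0009073002)))) (.nd (nat_lit 11) 
(.lf (nat_lit 53043601) (dlOf (nat_lit 1) (nat_lit 0xd10008033400201120009571003))) 
(.nd (nat_lit 20) 
(.lf (nat_lit 56715665) (dlOf (nat_lit 2) (nat_lit 0x32730030640800400080010002000e0009734e83))) 
(.lf (nat_lit 53569937) (dlOf (nat_lit 1) (nat_lit 0x200295f4e81)))))) (.nd (nat_lit 18) 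
(.nd (nat_lit 10) (.nd (nat_lit 11) 
(.lf (nat_lit 43082129) (dlOf (nat_lit 1) (nat_lit 0x58008005c002002200092a1003))) 
(.lf (nat_lit 62482833) (dlOf (nat_lit 1) (nat_lit 0x400299a4e81)))) 
(.lf (nat_lit 61957521) (dlOf (nat_lit 1) (nat_lit 0x800200080009923602)))) (.nd (nat_lit 11) 
(.nd (nat_lit 19) (.lf (nat_lit 43344273) (dlOf (nat_lit 1) (nat_lit 0x200292a1001))) 
(.lf (nat_lit 43868561) (dlOf (nat_lit 1) (nat_lit 0x700080010002002800092a1003)))) 
(.lf (nat_lit 45443473) (dlOf (nat_lit 2) (nat_lit 0x580000176e04004400200180009324e82))))))) 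
(.nd (nat_lit 10) (.nd (nat_lit 29) (.nd (nat_lit 18) (.nd (nat_lit 7) (.nd (nat_lit 27) 
(.lf (nat_lit 6509650257) (dlOf (nat_lit 10) (nat_lit 0x8000000ac040034000000550200080000002a01000100000014c080010048000620400040240003002000e0000000981000d00000004808003800000022040018004009800180b0682))) 
(.lf (nat_lit 2348900689) (dlOf (nat_lit 6) (nat_lit 0x12017002e00000005008007805c004200000012820016017000c00000004608008405c00220000000d820008017000060080028008043000200160008014d83)))) 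
(.lf (nat_lit 43082193) (dlOf (nat_lit 2) (nat_lit 0x40000002202001c00092a1181)))) (.nd (nat_lit 7) 
(.nd (nat_lit 11) (.lf (nat_lit 19751761) (dlOf (nat_lit 1) (nat_lit 0x80080004002000200089d2483))) 
(.lf (nat_lit 2349169489) (dlOf (nat_lit 1) (nat_lit 0x200180fbc81)))) 
(.lf (nat_lit 4429539793) (dlOf (nat_lit 1) (nat_lit 0x700018114e81))))) (.nd (nat_lit 7) 
(.nd (nat_lit 26) (.nd (nat_lit 28) 
(.lf (nat_lit 5905670481) (dlOf (nat_lit 10) (nat_lit 0x8000000ac040034000000550200080000002a01000100000014c080010044000620400040220003002000e0000000981000d00000004808003800000022040018004009800180b0682))) 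
(.lf (nat_lit 805396817) (dlOf (nat_lit 2) (nat_lit 0x1009e00040380009013000028180018008012000200040008090683)))) 
(.lf (nat_lit 1677812049) (dlOf (nat_lit 2) (nat_lit 0x1009e00040380009013000028180018008012000200040008090683)))) 
(.nd (nat_lit 9) (.nd (nat_lit 20) 
(.lf (nat_lit 2818664913) (dlOf (nat_lit 1) (nat_lit 0x200280d4e81))) 
(.lf (nat_lit 1007774161) (dlOf (nat_lit 1) (nat_lit 0x1200287a4e81)))) 
(.lf (nat_lit 1611228113) (dlOf (nat_lit 1) (nat_lit 0x1560008122881)))))) (.nd (nat_lit 11) 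
(.nd (nat_lit 9) (.nd (nat_lit 7) (.nd (nat_lit 19) 
(.lf (nat_lit 2818663761) (dlOf (nat_lit 2) (nat_lit 0x1000000050040070002001400080d3302))) 
(.lf (nat_lit 738813265) (dlOf (nat_lit 2) (nat_lit 0xa02d0000a0080058008003c002000e0008123303)))) 
(.lf (nat_lit 1610704337) (dlOf (nat_lit 1) (nat_lit 0xc0008093601)))) (.nd (nat_lit 27) 
(.lf (nat_lit 91985) (dlOf (nat_lit 2) (nat_lit 0x142e0000360200060018003f01))) (.nd (nat_lit 31) 
(.lf (nat_lit 939616081) (dlOf (nat_lit 1) (nat_lit 0x20018143f01))) 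
(.lf (nat_lit 3087099729) (dlOf (nat_lit 1) (nat_lit 0x20018143f01)))))) (.nd (nat_lit 7) 
(.nd (nat_lit 18) 
(.lf (nat_lit 1409379665) (dlOf (nat_lit 3) (nat_lit 0x3205f00400030000401001e017c0001c04000400200020008006a02))) 
(.lf (nat_lit 3624234321) (dlOf (nat_lit 2) (nat_lit 0x300a80004c080018008002800200120008146a03)))) 
(.nd (nat_lit 18) (.nd (nat_lit 27) 
(.lf (nat_lit 3825298897) (dlOf (nat_lit 1) (nat_lit 0x400400020008146d02))) 
(.lf (nat_lit 1812032977) (dlOf (nat_lit 1) (nat_lit 0x20028146d01)))) 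
(.lf (nat_lit 3624234449) (dlOf (nat_lit 1) (nat_lit 0x60028146d01))))))))) (.nd (nat_lit 18) 
(.nd (nat_lit 19) (.nd (nat_lit 8) (.nd (nat_lit 6) (.nd (nat_lit 10) (.nd (nat_lit 20) 
(.nd (nat_lit 7) (.nd (nat_lit 22) 
(.lf (nat_lit 4966146073) (dlOf (nat_lit 1) (nat_lit 0x400400020008010582))) 
(.lf (nat_lit 21061657) (dlOf (nat_lit 1) (nat_lit 0xcc00200320008a00702)))) 
(.lf (nat_lit 4563495577) (dlOf (nat_lit 1) (nat_lit 0xc0008095501)))) (.nd (nat_lit 21) 
(.lf (nat_lit 9527321) (dlOf (nat_lit 1) (nat_lit 0x60008560481))) 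
(.lf (nat_lit 28401689) (dlOf (nat_lit 1) (nat_lit 0x60008002400200020008d90483))))) 
(.nd (nat_lit 7) (.nd (nat_lit 11) 
(.lf (nat_lit 1610703897) (dlOf (nat_lit 1) (nat_lit 0x188008009400200260008092883))) 
(.lf (nat_lit 469859353) (dlOf (nat_lit 1) (nat_lit 0x36002800bf01)))) (.nd (nat_lit 26) 
(.lf (nat_lit 4697711769) (dlOf (nat_lit 3) (nat_lit 0x30198009300800780480028604003c00400200008092b82))) 
(.lf (nat_lit 1275159705) (dlOf (nat_lit 1) (nat_lit 0x520028092b81)))))) (.nd (nat_lit 7) 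
(.nd (nat_lit 29) (.nd (nat_lit 9) 
(.lf (nat_lit 14770265) (dlOf (nat_lit 1) (nat_lit 0x10000400060018770802))) 
(.lf (nat_lit 4697712217) (dlOf (nat_lit 1) (nat_lit 0x20028093881)))) (.nd (nat_lit 26) 
(.lf (nat_lit 5905670233) (dlOf (nat_lit 2) (nat_lit 0x800000cb202003a00180b0001))) 
(.lf (nat_lit 1677811801) (dlOf (nat_lit 2) (nat_lit 0x9026000380d4000404800cb206001a0018090001))))) 
(.nd (nat_lit 9) (.nd (nat_lit 10) 
(.lf (nat_lit 2755748057) (dlOf (nat_lit 2) (nat_lit 0x1004c000e28181b0480))) 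
(.lf (nat_lit 97497) (dlOf (nat_lit 1) (nat_lit 0x26001800c401)))) 
(.lf (nat_lit 3556862681) (dlOf (nat_lit 5) (nat_lit 0x540ae000340200ae017005a00b002c8038016c01800ae0060057002002a8000000661c000401c0088006000188200120000000300800800080074002000200080d5903)))))) 
(.nd (nat_lit 26) (.nd (nat_lit 7) (.nd (nat_lit 28) (.nd (nat_lit 20) 
(.lf (nat_lit 3221315865) (dlOf (nat_lit 2) (nat_lit 0x300000000c080018008006c00200340008090483))) 
(.lf (nat_lit 3236121) (dlOf (nat_lit 1) (nat_lit 0x400200560008200482)))) (.nd (nat_lit 27) 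
(.lf (nat_lit 805396761) (dlOf (nat_lit 2) (nat_lit 0xf013000000080020008007800200060008090483))) 
(.lf (nat_lit 1476485401) (dlOf (nat_lit 2) (nat_lit 0x2004400d1404000800400040008010702))))) 
(.nd (nat_lit 9) (.lf (nat_lit 96665) (dlOf (nat_lit 1) (nat_lit 0x40040002001800af82))) 
(.lf (nat_lit 97177) (dlOf (nat_lit 3) (nat_lit 0x62748015180800513a400a8a0400a8004012e001800bc82))))) 
(.nd (nat_lit 6) (.nd (nat_lit 10) 
(.lf (nat_lit 6509650201) (dlOf (nat_lit 3) (nat_lit 0x200000081c0801580000016804003000400aa00180b0482))) 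
(.lf (nat_lit 4899038489) (dlOf (nat_lit 1) (nat_lit 0x20018053081)))) (.nd (nat_lit 7) 
(.lf (nat_lit 2483118425) (dlOf (nat_lit 1) (nat_lit 0x98008002c00200160008014d83))) 
(.nd (nat_lit 9) 
(.lf (nat_lit 2080465369) (dlOf (nat_lit 2) (nat_lit 0xe00a40002404000400400020008091202))) 
(.lf (nat_lit 201417689) (dlOf (nat_lit 1) (nat_lit 0x10008000400200020008002883)))))))) 
(.nd (nat_lit 21) (.nd (nat_lit 27) (.nd (nat_lit 20) (.nd (nat_lit 26) (.nd (nat_lit 28) 
(.lf (nat_lit 3221839897) (dlOf (nat_lit 3) (nat_lit 0x29808c0199a02014604600ccc0181a0a80))) 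
(.lf (nat_lit 1342791705) (dlOf (nat_lit 1) (nat_lit 0x2800080c0001)))) 
(.lf (nat_lit 4362690585) (dlOf (nat_lit 1) (nat_lit 0x10002000200080d0902)))) (.nd (nat_lit 7) 
(.lf (nat_lit 31023129) (dlOf (nat_lit 1) (nat_lit 0x20008001000200080008e60b83))) 
(.lf (nat_lit 1343840409) (dlOf (nat_lit 1) (nat_lit 0x20028370481))))) (.nd (nat_lit 28) 
(.nd (nat_lit 6) 
(.lf (nat_lit 3960037401) (dlOf (nat_lit 3) (nat_lit 0x29808c01d0002014604600e7e8181a0a80))) 
(.nd (nat_lit 7) (.lf (nat_lit 3960037465) (dlOf (nat_lit 2) (nat_lit 0x18e046000098181a1a80))) 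
(.lf (nat_lit 738814681) (dlOf (nat_lit 1) (nat_lit 0x360028125901))))) (.nd (nat_lit 22) 
(.nd (nat_lit 30) (.lf (nat_lit 1007247385) (dlOf (nat_lit 1) (nat_lit 0x800182a0481))) 
(.lf (nat_lit 4228472857) (dlOf (nat_lit 1) (nat_lit 0x10002000200080d0902)))) 
(.lf (nat_lit 474570777) (dlOf (nat_lit 2) (nat_lit 0x72156000d0a18001041000300080038002006400091a0103)))))) 
(.nd (nat_lit 6) (.nd (nat_lit 28) (.nd (nat_lit 20) 
(.lf (nat_lit 15294489) (dlOf (nat_lit 1) (nat_lit 0x200187d0481))) (.nd (nat_lit 26) 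
(.lf (nat_lit 3760153) (dlOf (nat_lit 1) (nat_lit 0x120028220a01))) 
(.lf (nat_lit 2755223577) (dlOf (nat_lit 1) (nat_lit 0x100028130481))))) (.nd (nat_lit 31) 
(.lf (nat_lit 1345937433) (dlOf (nat_lit 1) (nat_lit 0xe0018e20001))) 
(.lf (nat_lit 3493421081) (dlOf (nat_lit 1) (nat_lit 0x100028130481))))) (.nd (nat_lit 7) 
(.nd (nat_lit 9) 
(.lf (nat_lit 2754175065) (dlOf (nat_lit 2) (nat_lit 0x120fc80001c0800900080074002002c00080c1a83))) 
(.lf (nat_lit 62483033) (dlOf (nat_lit 1) (nat_lit 0x280080004002000200099a5303)))) 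
(.nd (nat_lit 8) (.lf (nat_lit 57240281) (dlOf (nat_lit 2) (nat_lit 0x16a130001a019795900))) 
(.lf (nat_lit 37317081) (dlOf (nat_lit 1) (nat_lit 0x80080004002000200090d4e83)))))))) 
(.nd (nat_lit 27) (.nd (nat_lit 23) (.nd (nat_lit 26) (.nd (nat_lit 6) (.nd (nat_lit 24) 
(.nd (nat_lit 30) (.lf (nat_lit 2953142297) (dlOf (nat_lit 1) (nat_lit 0x6c00200620008160002))) 
(.lf (nat_lit 4026884121) (dlOf (nat_lit 2) (nat_lit 0x202e008318180c0a80)))) (.nd (nat_lit 8) 
(.lf (nat_lit 17653785) (dlOf (nat_lit 1) (nat_lit 0x200288e0001))) 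
(.lf (nat_lit 20281625) (dlOf (nat_lit 1) (nat_lit 0xe00089dab01))))) (.nd (nat_lit 7) 
(.lf (nat_lit 38102105) (dlOf (nat_lit 1) (nat_lit 0x20019132901))) (.nd (nat_lit 11) 
(.lf (nat_lit 19755737) (dlOf (nat_lit 1) (nat_lit 0x4002000200089d8c82))) 
(.lf (nat_lit 20282073) (dlOf (nat_lit 1) (nat_lit 0x380080004002000e00089db983)))))) 
(.nd (nat_lit 31) (.nd (nat_lit 7) (.nd (nat_lit 29) 
(.lf (nat_lit 4362428441) (dlOf (nat_lit 1) (nat_lit 0x1e0018070501))) 
(.lf (nat_lit 604332057) (dlOf (nat_lit 3) (nat_lit 0x400000035810005000000078080080008002400200060008170483)))) 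
(.lf (nat_lit 69560729) (dlOf (nat_lit 1) (nat_lit 0x40008008c00200320008b44e83)))) 
(.nd (nat_lit 6) (.nd (nat_lit 19) 
(.lf (nat_lit 3288686617) (dlOf (nat_lit 2) (nat_lit 0x202e007ec8180c0a80))) 
(.lf (nat_lit 3557646361) (dlOf (nat_lit 1) (nat_lit 0x800200020008290482)))) 
(.lf (nat_lit 2751817945) (dlOf (nat_lit 1) (nat_lit 0x8008000400200020008004a83)))))) 
(.nd (nat_lit 24) (.nd (nat_lit 6) (.nd (nat_lit 19) 
(.lf (nat_lit 16080921) (dlOf (nat_lit 10) (nat_lit 0xcfae000280200067d70000f8100064ac000423a80018fae000c7ac00073af80031ccc000341800192b000108ea00053eb80029eb0001cebe000a7330000c8600064ac000423a80018fae000c7ac00073af80031ccc000301800192b000108ea00063eb80031eb0001cebe000a7330000b8600064ac000423a80018fae000c7ac00073af80011ccc000281800152b000108ea00063eb80029eb00024ebe000a73300009860008399800030080058008003c002000c0008860503))) 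
(.nd (nat_lit 20) (.lf (nat_lit 9265177) (dlOf (nat_lit 1) (nat_lit 0x40018530101))) 
(.lf (nat_lit 14508057) (dlOf (nat_lit 2) (nat_lit 0xb8000016940200260008760501))))) 
(.nd (nat_lit 9) (.lf (nat_lit 9265241) (dlOf (nat_lit 2) (nat_lit 0x30abc0001002000c0028530701))) 
(.lf (nat_lit 45443673) (dlOf (nat_lit 3) (nat_lit 0x6e67500007c0800c00000000004004000200440009325302))))) 
(.nd (nat_lit 6) (.nd (nat_lit 20) 
(.lf (nat_lit 30236697) (dlOf (nat_lit 1) (nat_lit 0x6e0028e30001))) (.nd (nat_lit 21) 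
(.lf (nat_lit 27090969) (dlOf (nat_lit 2) (nat_lit 0x37b6380031204008000400940008ca0482))) 
(.lf (nat_lit 29188121) (dlOf (nat_lit 1) (nat_lit 0x420018dd0b81))))) (.nd (nat_lit 7) 
(.lf (nat_lit 26566745) (dlOf (nat_lit 1) (nat_lit 0x20018c50801))) 
(.lf (nat_lit 25518297) (dlOf (nat_lit 1) (nat_lit 0x40008c10581))))))) (.nd (nat_lit 28) 
(.nd (nat_lit 29) (.nd (nat_lit 6) (.nd (nat_lit 26) 
(.lf (nat_lit 134570009) (dlOf (nat_lit 1) (nat_lit 0x11800400780008080502))) 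
(.lf (nat_lit 201678873) (dlOf (nat_lit 1) (nat_lit 0x11800400780008080502)))) 
(.lf (nat_lit 4496646233) (dlOf (nat_lit 1) (nat_lit 0x400400020008100702)))) (.nd (nat_lit 7) 
(.nd (nat_lit 19) (.lf (nat_lit 3892666393) (dlOf (nat_lit 2) (nat_lit 0x2201400014818180100))) 
(.lf (nat_lit 2819448857) (dlOf (nat_lit 1) (nat_lit 0x800200020008290482)))) 
(.lf (nat_lit 2818924697) (dlOf (nat_lit 1) (nat_lit 0x4004009e0018130282))))) (.nd (nat_lit 6) 
(.nd (nat_lit 26) (.nd (nat_lit 29) 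
(.lf (nat_lit 1476747289) (dlOf (nat_lit 3) (nat_lit 0x400000035810005000000078080080008002400200060008170483))) 
(.lf (nat_lit 4161101849) (dlOf (nat_lit 1) (nat_lit 0xa0008130481)))) (.nd (nat_lit 29) 
(.lf (nat_lit 3691339801) (dlOf (nat_lit 1) (nat_lit 0x6c00200620008160002))) 
(.lf (nat_lit 4228210713) (dlOf (nat_lit 1) (nat_lit 0x1e0018070501))))) (.nd (nat_lit 7) 
(.nd (nat_lit 9) (.lf (nat_lit 403005529) (dlOf (nat_lit 1) (nat_lit 0x800280d1801))) 
(.lf (nat_lit 473262681) (dlOf (nat_lit 2) (nat_lit 0x211f00012818e35300)))) 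
(.lf (nat_lit 3624234201) (dlOf (nat_lit 1) (nat_lit 0x18008002c00200080008146483))))))))) 
(.nd (nat_lit 3) (.nd (nat_lit 18) (.nd (nat_lit 26) (.nd (nat_lit 21) (.nd (nat_lit 6) 
(.nd (nat_lit 28) (.nd (nat_lit 8) (.nd (nat_lit 19) (.nd (nat_lit 22) 
(.lf (nat_lit 25288721) (dlOf (nat_lit 3) (nat_lit 0x1791500d20810001c378068fc080018008000800200040008bf0883))) 
(.lf (nat_lit 29483025) (dlOf (nat_lit 1) (nat_lit 0xa0008e10681)))) 
(.lf (nat_lit 134864913) (dlOf (nat_lit 4) (nat_lit 0x3202a01100104051407a02fa038003b019800580c00348a180888082028603d016f01c001d80cc0030060005202b00d2186004e01d0068fc0805c000804e0002060400080d0883)))) 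
(.nd (nat_lit 7) (.lf (nat_lit 128785) (dlOf (nat_lit 1) (nat_lit 0x2001800a001))) 
(.lf (nat_lit 8512913) (dlOf (nat_lit 1) (nat_lit 0x160028513601))))) (.nd (nat_lit 7) 
(.nd (nat_lit 19) (.nd (nat_lit 29) 
(.lf (nat_lit 3624001553) (dlOf (nat_lit 1) (nat_lit 0x300080054002000c0008090503))) 
(.lf (nat_lit 4160872465) (dlOf (nat_lit 1) (nat_lit 0x20018040401)))) 
(.lf (nat_lit 1342824465) (dlOf (nat_lit 1) (nat_lit 0x200180e0581)))) (.nd (nat_lit 9) 
(.lf (nat_lit 805436817) (dlOf (nat_lit 1) (nat_lit 0x200080020002000a000811c983))) 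
(.lf (nat_lit 805436305) (dlOf (nat_lit 1) (nat_lit 0x1000800b80020010000811bc83)))))) 
(.nd (nat_lit 23) (.nd (nat_lit 8) (.nd (nat_lit 27) 
(.lf (nat_lit 4563525713) (dlOf (nat_lit 1) (nat_lit 0x80028090001))) 
(.lf (nat_lit 2013388881) (dlOf (nat_lit 1) (nat_lit 0x20028040501)))) (.nd (nat_lit 7) 
(.lf (nat_lit 5905705297) (dlOf (nat_lit 1) (nat_lit 0x60018144e01))) 
(.lf (nat_lit 649681) (dlOf (nat_lit 1) (nat_lit 0x4004000e0018004e82))))) (.nd (nat_lit 19) 
(.nd (nat_lit 22) 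
(.lf (nat_lit 25288785) (dlOf (nat_lit 5) (nat_lit 0xbc88800363ac0015ffc000340600099150008c3780007c10003e45400230de0001e04000f9150008c378000741000c00080010002000e0008bf0d83))) 
(.lf (nat_lit 12705873) (dlOf (nat_lit 1) (nat_lit 0x80080004002000200086d1003)))) 
(.lf (nat_lit 42590289) (dlOf (nat_lit 1) (nat_lit 0x220019260701)))))) (.nd (nat_lit 19) 
(.nd (nat_lit 8) (.nd (nat_lit 7) (.nd (nat_lit 20) 
(.lf (nat_lit 23191569) (dlOf (nat_lit 1) (nat_lit 0x5e0008b70301))) 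
(.lf (nat_lit 24240145) (dlOf (nat_lit 1) (nat_lit 0x28008000400200020008b90683)))) 
(.lf (nat_lit 1345447057) (dlOf (nat_lit 1) (nat_lit 0x9c00202040008bb2b82)))) (.nd (nat_lit 6) 
(.nd (nat_lit 10) 
(.lf (nat_lit 1881268625) (dlOf (nat_lit 1) (nat_lit 0x10008003000200200008e81003))) 
(.lf (nat_lit 1345447313) (dlOf (nat_lit 2) (nat_lit 0x1f0b28006cc080130008000c00200100008bb3603)))) 
(.lf (nat_lit 11657681) (dlOf (nat_lit 2) (nat_lit 0x11688000900800c80080044002002200086c0a03))))) 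
(.nd (nat_lit 20) (.nd (nat_lit 22) (.nd (nat_lit 23) 
(.lf (nat_lit 19521553) (dlOf (nat_lit 1) (nat_lit 0x100080004002000200089b0303))) 
(.lf (nat_lit 27910161) (dlOf (nat_lit 2) (nat_lit 0x366a9000164080060008011800200100008d40203)))) 
(.lf (nat_lit 32104465) (dlOf (nat_lit 1) (nat_lit 0x1a0028ef0001)))) (.nd (nat_lit 6) 
(.lf (nat_lit 16375825) (dlOf (nat_lit 15) (nat_lit 0x92b58000a00800295ac0004c040020ad6001848c000623b0000741800095ac003c91800264760000e0300042b58004150000489180001b06000656b00032a00006123000188ec0001808000c56b00042a0000a123000248ec0001408001056b00182460000401000495ac00589180024476000070300072460000300800115ac0004918001c476000028300032b580000c0800495ac00049180000204000c56b0014246000000100108008007c00200020008890303))) 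
(.lf (nat_lit 49931345) (dlOf (nat_lit 1) (nat_lit 0xe00294c2881))))))) (.nd (nat_lit 28) 
(.nd (nat_lit 6) (.nd (nat_lit 7) (.nd (nat_lit 31) (.nd (nat_lit 8) (.nd (nat_lit 19) 
(.lf (nat_lit 5435940881) (dlOf (nat_lit 1) (nat_lit 0x1800200020008040002))) 
(.lf (nat_lit 201973777) (dlOf (nat_lit 4) (nat_lit 0x3202a81100104051407a02fa038003b019800580c003b54180888082028603d016f01c001d80cc0030060005202b00ed406004e01d0076900805c000804e0002060400080d0883)))) 
(.lf (nat_lit 201451281) (dlOf (nat_lit 2) (nat_lit 0x404100011818003c00)))) (.nd (nat_lit 29) 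
(.lf (nat_lit 2348933137) (dlOf (nat_lit 2) (nat_lit 0x200a8009c050000000400040028030881))) 
(.lf (nat_lit 2885804049) (dlOf (nat_lit 1) (nat_lit 0x300080054002000c0008090503))))) 
(.nd (nat_lit 8) (.lf (nat_lit 1677846673) (dlOf (nat_lit 1) (nat_lit 0xc00200160008114802))) 
(.lf (nat_lit 4496418193) (dlOf (nat_lit 1) (nat_lit 0x400200020008053602))))) (.nd (nat_lit 8) 
(.nd (nat_lit 19) (.nd (nat_lit 32) 
(.lf (nat_lit 1140973649) (dlOf (nat_lit 1) (nat_lit 0x20028040501))) 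
(.lf (nat_lit 5435940945) (dlOf (nat_lit 3) (nat_lit 0x9c03f007401f001900e8011c06a00ca0000003505001e01f800580f80024074001603500010000001a42801c800800d000200140008040503)))) 
(.nd (nat_lit 21) 
(.lf (nat_lit 1678368849) (dlOf (nat_lit 3) (nat_lit 0x16804b00110198000a810026815800026040174004000e0008201902))) 
(.lf (nat_lit 2754207825) (dlOf (nat_lit 1) (nat_lit 0x4004000200080c1902))))) (.nd (nat_lit 12) 
(.lf (nat_lit 1677846865) (dlOf (nat_lit 1) (nat_lit 0x20018114e01))) 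
(.lf (nat_lit 3959552337) (dlOf (nat_lit 1) (nat_lit 0x800802180020074000811ab83)))))) 
(.nd (nat_lit 6) (.nd (nat_lit 31) (.nd (nat_lit 10) (.nd (nat_lit 19) 
(.lf (nat_lit 5301723153) (dlOf (nat_lit 1) (nat_lit 0x1800200020008040002))) 
(.lf (nat_lit 470409233) (dlOf (nat_lit 1) (nat_lit 0x200180e0581)))) (.nd (nat_lit 7) 
(.lf (nat_lit 469886737) (dlOf (nat_lit 1) (nat_lit 0x10008000400200020008003c03))) 
(.lf (nat_lit 474080401) (dlOf (nat_lit 1) (nat_lit 0x400400060009082b82))))) (.nd (nat_lit 7) 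
(.nd (nat_lit 19) 
(.lf (nat_lit 2483150865) (dlOf (nat_lit 2) (nat_lit 0x200a8009c050000000400040028030881))) 
(.lf (nat_lit 4095336465) (dlOf (nat_lit 2) (nat_lit 0x2c12e00d510200020018090001)))) 
(.lf (nat_lit 2617373585) (dlOf (nat_lit 1) (nat_lit 0x140004001400080a9082))))) (.nd (nat_lit 7) 
(.nd (nat_lit 8) (.nd (nat_lit 19) 
(.lf (nat_lit 5301723217) (dlOf (nat_lit 3) (nat_lit 0x9c03f007401f001900e8011c06e00ca0000003085001e01f800580f80024074001603700010000001802801c800800d000200140008040503))) 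
(.lf (nat_lit 4095336529) (dlOf (nat_lit 2) (nat_lit 0x2a85e4005c2e0011216000880ab007f00000008c14000c004047e0018090502)))) 
(.lf (nat_lit 4093764945) (dlOf (nat_lit 1) (nat_lit 0x400400020018003302)))) (.nd (nat_lit 8) 
(.lf (nat_lit 1543630033) (dlOf (nat_lit 4) (nat_lit 0x180a00004604000c0280000602000e01400030000000001000b8008005800200160008146403))) 
(.nd (nat_lit 9) (.lf (nat_lit 5838597585) (dlOf (nat_lit 1) (nat_lit 0x50002002200080f6d02))) 
(.lf (nat_lit 4093764561) (dlOf (nat_lit 1) (nat_lit 0x18008000c00200060008002883))))))))) 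
(.nd (nat_lit 20) (.nd (nat_lit 6) (.nd (nat_lit 28) (.nd (nat_lit 21) (.nd (nat_lit 27) 
(.nd (nat_lit 7) (.nd (nat_lit 30) 
(.lf (nat_lit 4362461201) (dlOf (nat_lit 1) (nat_lit 0x80080020002000a0008090003))) 
(.lf (nat_lit 3288719377) (dlOf (nat_lit 10) (nat_lit 0xd80d0006c060003202900d2083000801a000500c0002805201a3f06005a03600d1481001f01b0067fc0800480d8033c604002806c019df02004203600cee01000e01b0067680800300d8000000400e4004002200080d0882)))) 
(.lf (nat_lit 604364945) (dlOf (nat_lit 4) (nat_lit 0xc402c0011d0200700160007d81003900b0003e00800200080030002001e00081a0483)))) 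
(.nd (nat_lit 9) (.nd (nat_lit 26) 
(.lf (nat_lit 3892699153) (dlOf (nat_lit 1) (nat_lit 0x34e00081d0481))) 
(.lf (nat_lit 201711633) (dlOf (nat_lit 2) (nat_lit 0xb021800580fc00f007a009480600020018090001)))) 
(.lf (nat_lit 134603281) (dlOf (nat_lit 1) (nat_lit 0x200018090d81))))) (.nd (nat_lit 7) 
(.nd (nat_lit 23) (.lf (nat_lit 2482193) (dlOf (nat_lit 1) (nat_lit 0x1800400020008160682))) 
(.lf (nat_lit 44425233) (dlOf (nat_lit 1) (nat_lit 0x400400020009310082)))) (.nd (nat_lit 8) 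
(.lf (nat_lit 7200913) (dlOf (nat_lit 1) (nat_lit 0x200184b0481))) 
(.lf (nat_lit 36563345) (dlOf (nat_lit 1) (nat_lit 0x20008000400200020009074e83)))))) 
(.nd (nat_lit 29) (.nd (nat_lit 9) (.nd (nat_lit 10) 
(.lf (nat_lit 4563787793) (dlOf (nat_lit 2) (nat_lit 0xb00cc00008040008002002200080e0202))) 
(.lf (nat_lit 5771750417) (dlOf (nat_lit 1) (nat_lit 0x400200020008005f82)))) 
(.lf (nat_lit 1345186321) (dlOf (nat_lit 1) (nat_lit 0x100080014002000a0008b05083)))) 
(.nd (nat_lit 7) (.nd (nat_lit 30) 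
(.lf (nat_lit 805691409) (dlOf (nat_lit 1) (nat_lit 0x60008190301))) 
(.lf (nat_lit 4026916881) (dlOf (nat_lit 10) (nat_lit 0xd80d0006c060003202900ed303000801a000500c0002805201da406005a03600ebd01001f01b0075900800480d803a8c04002806c01d4402004203600ea181000e01b0074fc0800300d8000000400e4004002200080d0882)))) 
(.lf (nat_lit 6375728273) (dlOf (nat_lit 1) (nat_lit 0xc00400020008002b82)))))) (.nd (nat_lit 24) 
(.nd (nat_lit 29) (.nd (nat_lit 26) (.nd (nat_lit 27) 
(.lf (nat_lit 2416304209) (dlOf (nat_lit 2) (nat_lit 0x50028002c0000002f04001200080d0d81))) 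
(.lf (nat_lit 2550521937) (dlOf (nat_lit 2) (nat_lit 0x50028002c0000002f04001200080d0d81)))) 
(.lf (nat_lit 4496678993) (dlOf (nat_lit 2) (nat_lit 0x78064000460200020028120501)))) 
(.nd (nat_lit 7) (.nd (nat_lit 26) 
(.lf (nat_lit 1610997841) (dlOf (nat_lit 7) (nat_lit 0x28158001409800b8035001801080010074000c0140000e0c015805300bc01080003410006014c00400420000c0401b605300f101080002810055814c02b00420000904002605300320108000001004a80080034002000c00080b0683))) 
(.lf (nat_lit 738582609) (dlOf (nat_lit 7) (nat_lit 0x28158001409800b8035001801080010074000c0140000e0c015805300bc01080003410006014c00400420000c0401b605300f101080002810055814c02b00420000904002605300320108000001004a80080034002000c00080b0683)))) 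
(.lf (nat_lit 1745218257) (dlOf (nat_lit 1) (nat_lit 0x800280e5881))))) (.nd (nat_lit 19) 
(.nd (nat_lit 7) 
(.lf (nat_lit 29745233) (dlOf (nat_lit 2) (nat_lit 0xf91d000cc41000160100048008000400200600008e30203))) 
(.lf (nat_lit 21357009) (dlOf (nat_lit 2) (nat_lit 0xcc9700523818a37100)))) (.nd (nat_lit 9) 
(.lf (nat_lit 21880913) (dlOf (nat_lit 1) (nat_lit 0x80008a70901))) 
(.lf (nat_lit 51243601) (dlOf (nat_lit 1) (nat_lit 0x198008001800200ce0009515283))))))) 
(.nd (nat_lit 8) (.nd (nat_lit 19) (.nd (nat_lit 10) (.nd (nat_lit 6) 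
(.lf (nat_lit 37085201) (dlOf (nat_lit 1) (nat_lit 0x120019090001))) 
(.lf (nat_lit 9822289) (dlOf (nat_lit 7) (nat_lit 0x2f4860013a410018d1f800be770000d41000b709c007984d0005be280012c18005e1380008c04013f09c0004302007984e0011c268000f01000168280003804015000400500018580502)))) 
(.nd (nat_lit 7) 
(.lf (nat_lit 5772796945) (dlOf (nat_lit 1) (nat_lit 0x8008000400200ba0008092883))) 
(.lf (nat_lit 5772797073) (dlOf (nat_lit 1) (nat_lit 0x10008000800200020008092b83))))) 
(.nd (nat_lit 7) (.nd (nat_lit 21) 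
(.lf (nat_lit 2753421329) (dlOf (nat_lit 1) (nat_lit 0x180028090001))) 
(.lf (nat_lit 2755518481) (dlOf (nat_lit 1) (nat_lit 0x80080004002000200081b0003)))) 
(.lf (nat_lit 1958033) (dlOf (nat_lit 2) (nat_lit 0x42a5c00023018150180))))) (.nd (nat_lit 10) 
(.nd (nat_lit 6) (.nd (nat_lit 7) 
(.lf (nat_lit 2755518737) (dlOf (nat_lit 1) (nat_lit 0x200281b0481))) 
(.lf (nat_lit 20310417) (dlOf (nat_lit 1) (nat_lit 0x200289d4e81)))) (.nd (nat_lit 21) 
(.lf (nat_lit 1958225) (dlOf (nat_lit 1) (nat_lit 0x20018150681))) 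
(.lf (nat_lit 12443985) (dlOf (nat_lit 1) (nat_lit 0x4002000200086c0682))))) (.nd (nat_lit 7) 
(.nd (nat_lit 9) (.lf (nat_lit 8254737) (dlOf (nat_lit 1) (nat_lit 0x8008000400200020008519683))) 
(.lf (nat_lit 471725841) (dlOf (nat_lit 1) (nat_lit 0xf0004002600083da002)))) (.nd (nat_lit 6) 
(.lf (nat_lit 8251281) (dlOf (nat_lit 1) (nat_lit 0x1c0018514201))) 
(.lf (nat_lit 20311505) (dlOf (nat_lit 1) (nat_lit 0x8002000c00089d6d02))))))))) (.nd (nat_lit 6) 
(.nd (nat_lit 18) (.nd (nat_lit 19) (.nd (nat_lit 27) (.nd (nat_lit 8) (.nd (nat_lit 26) 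
(.nd (nat_lit 21) 
(.lf (nat_lit 4563525657) (dlOf (nat_lit 1) (nat_lit 0x10008003800200100008090003))) 
(.lf (nat_lit 1881268249) (dlOf (nat_lit 1) (nat_lit 0x10008000c00200060008e80003)))) 
(.nd (nat_lit 10) 
(.lf (nat_lit 3288457241) (dlOf (nat_lit 1) (nat_lit 0xab8008012c00201720008020483))) 
(.lf (nat_lit 2751587353) (dlOf (nat_lit 1) (nat_lit 0x20008002881))))) (.nd (nat_lit 7) 
(.lf (nat_lit 2755780889) (dlOf (nat_lit 1) (nat_lit 0x30004000200181b0482))) (.nd (nat_lit 9) 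
(.lf (nat_lit 3221351833) (dlOf (nat_lit 1) (nat_lit 0x3c004000a0008116d02))) 
(.lf (nat_lit 805436313) (dlOf (nat_lit 2) (nat_lit 0x4806600546020010002811bc81)))))) 
(.nd (nat_lit 9) (.nd (nat_lit 26) (.nd (nat_lit 29) 
(.lf (nat_lit 3624001561) (dlOf (nat_lit 1) (nat_lit 0x8008000400200020008090503))) 
(.lf (nat_lit 4160872473) (dlOf (nat_lit 1) (nat_lit 0x14400400d40018040502)))) 
(.lf (nat_lit 2885804057) (dlOf (nat_lit 1) (nat_lit 0x8008000400200020008090503)))) 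
(.nd (nat_lit 7) (.lf (nat_lit 738323225) (dlOf (nat_lit 1) (nat_lit 0x8008000800200020008095b83))) 
(.nd (nat_lit 8) (.lf (nat_lit 6576795289) (dlOf (nat_lit 1) (nat_lit 0x400200020008147202))) 
(.lf (nat_lit 3355567001) (dlOf (nat_lit 1) (nat_lit 0x200280a2581))))))) (.nd (nat_lit 23) 
(.nd (nat_lit 26) (.nd (nat_lit 21) (.nd (nat_lit 27) 
(.lf (nat_lit 1342824473) (dlOf (nat_lit 1) (nat_lit 0x8008002c002000c00080e0a03))) 
(.lf (nat_lit 134864921) (dlOf (nat_lit 2) (nat_lit 0x1e00820000002004600180d0881)))) 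
(.lf (nat_lit 19521561) (dlOf (nat_lit 1) (nat_lit 0x4004000200089b0582)))) (.nd (nat_lit 28) 
(.lf (nat_lit 201973785) (dlOf (nat_lit 2) (nat_lit 0x1e00820000002004600180d0881))) 
(.lf (nat_lit 470409241) (dlOf (nat_lit 1) (nat_lit 0x8008002c002000c00080e0a03))))) 
(.nd (nat_lit 21) (.nd (nat_lit 7) (.nd (nat_lit 22) 
(.lf (nat_lit 42590233) (dlOf (nat_lit 1) (nat_lit 0x20029260101))) 
(.lf (nat_lit 13230105) (dlOf (nat_lit 1) (nat_lit 0x20028710a81)))) 
(.lf (nat_lit 30007449) (dlOf (nat_lit 1) (nat_lit 0x80028e30481)))) (.nd (nat_lit 20) 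
(.lf (nat_lit 27910169) (dlOf (nat_lit 1) (nat_lit 0x20018d40481))) 
(.lf (nat_lit 16375833) (dlOf (nat_lit 1) (nat_lit 0x280080008002000c0008890483))))))) 
(.nd (nat_lit 27) (.nd (nat_lit 21) (.nd (nat_lit 28) (.nd (nat_lit 22) (.nd (nat_lit 26) 
(.lf (nat_lit 3221610521) (dlOf (nat_lit 4) (nat_lit 0x602300080114029ea08000c03e000c000009d082000b009004bf0080088008001400200080008160503))) 
(.lf (nat_lit 1678106649) (dlOf (nat_lit 1) (nat_lit 0x558008056000202c60008190503)))) 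
(.lf (nat_lit 12967961) (dlOf (nat_lit 1) (nat_lit 0x580080034002000400086f0403)))) 
(.nd (nat_lit 19) (.nd (nat_lit 20) 
(.lf (nat_lit 805691417) (dlOf (nat_lit 1) (nat_lit 0x558008056000202c60008190503))) 
(.lf (nat_lit 1343610905) (dlOf (nat_lit 1) (nat_lit 0x600182b0481)))) 
(.lf (nat_lit 3557679129) (dlOf (nat_lit 1) (nat_lit 0x40004000600082b0482))))) (.nd (nat_lit 8) 
(.nd (nat_lit 7) (.nd (nat_lit 19) 
(.lf (nat_lit 15065113) (dlOf (nat_lit 2) (nat_lit 0x1147500159f5c000b208000c002000600087b0482))) 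
(.lf (nat_lit 45998105) (dlOf (nat_lit 1) (nat_lit 0x120029380001)))) 
(.lf (nat_lit 8254105) (dlOf (nat_lit 1) (nat_lit 0x400200020008518c82)))) (.nd (nat_lit 11) 
(.lf (nat_lit 23978265) (dlOf (nat_lit 1) (nat_lit 0x60008001c00200160008b80483))) 
(.lf (nat_lit 20314393) (dlOf (nat_lit 2) (nat_lit 0x10b9a0000a00800080080044002000a00089dab03)))))) 
(.nd (nat_lit 7) (.nd (nat_lit 26) (.nd (nat_lit 19) 
(.lf (nat_lit 4698005529) (dlOf (nat_lit 16) (nat_lit 0x6600c401540380100014001f008803a00000006414000405001300000001802000201f000980700005c08001007a005e01c00040000000b41800580f8001007a003e038001f0120029807000140000002b0c01000330001381001f0198000980806600cc0004804015406600a6032001300a801780480004410000403c0001d020016032000200a8000201000200c800100240000404003e0320000181001f0190000080803a00cc0014064013001e0004009000000200008008018c002003000080e0403))) 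
(.lf (nat_lit 2819481625) (dlOf (nat_lit 1) (nat_lit 0x40004000600082b0482)))) (.nd (nat_lit 20) 
(.lf (nat_lit 3959808025) (dlOf (nat_lit 4) (nat_lit 0x60230008011402cb808000c03e000c000009c202000b009004c14080088008001400200080008160503))) 
(.lf (nat_lit 471195673) (dlOf (nat_lit 1) (nat_lit 0x4002000200082b0482))))) (.nd (nat_lit 22) 
(.nd (nat_lit 28) 
(.lf (nat_lit 2818957465) (dlOf (nat_lit 1) (nat_lit 0x10008004400200020008130283))) 
(.lf (nat_lit 1476780185) (dlOf (nat_lit 2) (nat_lit 0x46017000d58181a0480)))) 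
(.lf (nat_lit 474341529) (dlOf (nat_lit 1) (nat_lit 0x1e0019160501))))))) (.nd (nat_lit 7) 
(.nd (nat_lit 29) (.nd (nat_lit 18) (.nd (nat_lit 23) (.nd (nat_lit 8) (.nd (nat_lit 9) 
(.lf (nat_lit 268558425) (dlOf (nat_lit 1) (nat_lit 0x400400280008070702))) 
(.lf (nat_lit 68807257) (dlOf (nat_lit 2) (nat_lit 0xd0b3800505800002608003000400020018785302)))) 
(.lf (nat_lit 653657) (dlOf (nat_lit 1) (nat_lit 0x4002800ab81)))) (.nd (nat_lit 10) 
(.nd (nat_lit 19) 
(.lf (nat_lit 12705881) (dlOf (nat_lit 1) (nat_lit 0x58008001c002001e00086d1183))) 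
(.lf (nat_lit 42590297) (dlOf (nat_lit 1) (nat_lit 0x60019260801)))) 
(.lf (nat_lit 44688473) (dlOf (nat_lit 2) (nat_lit 0x22ca00014c080008008000400200020009322903))))) 
(.nd (nat_lit 8) (.nd (nat_lit 10) (.nd (nat_lit 20) 
(.lf (nat_lit 5637529689) (dlOf (nat_lit 2) (nat_lit 0x20068000b0080030008000800200100008100683))) 
(.lf (nat_lit 9822297) (dlOf (nat_lit 1) (nat_lit 0x2000200080008580682)))) 
(.lf (nat_lit 38134873) (dlOf (nat_lit 1) (nat_lit 0x400200020009132902)))) (.nd (nat_lit 10) 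
(.lf (nat_lit 21356889) (dlOf (nat_lit 1) (nat_lit 0x20028a34d81))) 
(.lf (nat_lit 472769881) (dlOf (nat_lit 1) (nat_lit 0x10008000c002003e0008b03383)))))) 
(.nd (nat_lit 28) (.nd (nat_lit 11) (.nd (nat_lit 9) (.nd (nat_lit 26) 
(.lf (nat_lit 1610997849) (dlOf (nat_lit 3) (nat_lit 0xc0a80001302002c055001b01b80001c1000100080064002001200080b0703))) 
(.lf (nat_lit 738582617) (dlOf (nat_lit 3) (nat_lit 0xc0a80001302002c055001b01b80001c1000100080064002001200080b0703)))) 
(.lf (nat_lit 1610737241) (dlOf (nat_lit 1) (nat_lit 0x8008000400200020008093883)))) 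
(.nd (nat_lit 8) (.lf (nat_lit 3959552089) (dlOf (nat_lit 1) (nat_lit 0x12001811a781))) 
(.lf (nat_lit 1677846873) (dlOf (nat_lit 1) (nat_lit 0x20018114e01))))) (.nd (nat_lit 19) 
(.nd (nat_lit 8) 
(.lf (nat_lit 6241509465) (dlOf (nat_lit 2) (nat_lit 0x20068000b0080030008000800200100008100683))) 
(.lf (nat_lit 3087132505) (dlOf (nat_lit 1) (nat_lit 0x40018143f81)))) (.nd (nat_lit 20) 
(.lf (nat_lit 4096385113) (dlOf (nat_lit 2) (nat_lit 0x1099000800000000008006c00200040008100702))) 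
(.lf (nat_lit 4095336537) (dlOf (nat_lit 2) (nat_lit 0x13000000000080018008008800200200008090683))))))) 
(.nd (nat_lit 9) (.nd (nat_lit 27) (.nd (nat_lit 8) (.nd (nat_lit 18) (.nd (nat_lit 26) 
(.lf (nat_lit 5368832217) (dlOf (nat_lit 2) (nat_lit 0x60098000d0080040008003400200180008031c03))) 
(.lf (nat_lit 5167505625) (dlOf (nat_lit 1) (nat_lit 0x180008071c01)))) 
(.lf (nat_lit 20832473) (dlOf (nat_lit 1) (nat_lit 0x200189e3f01)))) (.nd (nat_lit 11) 
(.lf (nat_lit 3020022233) (dlOf (nat_lit 1) (nat_lit 0x400280e7b81))) 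
(.lf (nat_lit 1677851097) (dlOf (nat_lit 1) (nat_lit 0x2800800080020002000811b283))))) 
(.nd (nat_lit 8) (.nd (nat_lit 11) (.nd (nat_lit 19) 
(.lf (nat_lit 1007018201) (dlOf (nat_lit 1) (nat_lit 0x11c00200500008150582))) 
(.lf (nat_lit 6377300185) (dlOf (nat_lit 1) (nat_lit 0x4002000200080c1c02)))) 
(.lf (nat_lit 3087132889) (dlOf (nat_lit 1) (nat_lit 0x1100028144a81)))) (.nd (nat_lit 10) 
(.lf (nat_lit 3959552473) (dlOf (nat_lit 1) (nat_lit 0x180080010002000a000811b283))) 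
(.lf (nat_lit 1543630297) (dlOf (nat_lit 2) (nat_lit 0x602800011018146d80)))))) (.nd (nat_lit 18) 
(.nd (nat_lit 10) (.nd (nat_lit 8) 
(.lf (nat_lit 4093766361) (dlOf (nat_lit 1) (nat_lit 0x2a8008006000200040008005903))) 
(.lf (nat_lit 3959546841) (dlOf (nat_lit 1) (nat_lit 0x2400400040018112882)))) (.nd (nat_lit 11) 
(.lf (nat_lit 20051673) (dlOf (nat_lit 1) (nat_lit 0x1600289da001))) 
(.lf (nat_lit 2754735833) (dlOf (nat_lit 2) (nat_lit 0x142b20001c02000400180f7381))))) 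
(.nd (nat_lit 12) (.nd (nat_lit 19) 
(.lf (nat_lit 1745218265) (dlOf (nat_lit 2) (nat_lit 0x19c000000280200be00280e5901))) 
(.nd (nat_lit 26) 
(.lf (nat_lit 1345186521) (dlOf (nat_lit 2) (nat_lit 0xb02ca0001002000c0008b05901))) 
(.lf (nat_lit 472771289) (dlOf (nat_lit 2) (nat_lit 0x6216500008018b05900))))) (.nd (nat_lit 11) 
(.lf (nat_lit 8254169) (dlOf (nat_lit 1) (nat_lit 0x400200020008518c82))) 
(.lf (nat_lit 20314841) (dlOf (nat_lit 1) (nat_lit 0x4600080004002007a00089db983))))))))))))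

end

end Pool.Agent.Lib.MP_5854e1_co.Cz
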