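import Pool.Agent.Lib.MP_5854e1_co.Cz.Tz00
import Pool.Agent.Lib.MP_5854e1_co.Cz.Tz07
import Pool.Agent.Lib.MP_5854e1_co.Cz.Tz14
import Pool.Agent.Lib.MP_5854e1_co.Cz.Tz21
import Pool.Agent.Lib.MP_5854e1_co.Cz.Tz28
import Pool.Agent.Lib.MP_5854e1_co.Cz.Tz35
import Pool.Agent.Lib.MP_5854e1_co.Cz.Tz42
import Pool.Agent.Lib.MP_5854e1_co.Cz.Tz49
import Pool.Agent.Lib.MP_5854e1_co.Cz.Tz57
import Pool.Agent.Lib.MP_5854e1_co.Cz.Tz65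
import Pool.Agent.Lib.MP_5854e1_co.Cz.Tz72
import Pool.Agent.Lib.MP_5854e1_co.Cz.Tz79
import Pool.Agent.Lib.MP_5854e1_co.Cz.Tz87
import Pool.Agent.Lib.MP_5854e1_co.Cz.Tz95
import Pool.Agent.Lib.MP_5854e1_co.Cz.Tz103
import Pool.Agent.Lib.MP_5854e1_co.Cz.Tz111
import Pool.Agent.Lib.MP_5854e1_co.Cz.Tz119
import Pool.Agent.Lib.MP_5854e1_co.Cz.Tz127
import Pool.Agent.Lib.MP_5854e1_co.Cz.Tz134
import Pool.Agent.Lib.MP_5854e1_co.Cz.Tz141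
import Pool.Agent.Lib.MP_5854e1_co.Cz.Tz148
import Pool.Agent.Lib.MP_5854e1_co.Cz.Tz155
import Pool.Agent.Lib.MP_5854e1_co.Cz.Tz163
import Pool.Agent.Lib.MP_5854e1_co.Cz.Tz170
import Pool.Agent.Lib.MP_5854e1_co.Cz.Tz177
import Pool.Agent.Lib.MP_5854e1_co.Cz.Tz184
import Pool.Agent.Lib.MP_5854e1_co.Cz.Tz192
import Pool.Agent.Lib.MP_5854e1_co.Cz.Tz199
import Pool.Agent.Lib.MP_5854e1_co.Cz.Tz206
import Pool.Agent.Lib.MP_5854e1_co.Cz.Tz214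
import Pool.Agent.Lib.MP_5854e1_co.Cz.Tz222
import Pool.Agent.Lib.MP_5854e1_co.Cz.Tz229
import Pool.Agent.Lib.MP_5854e1_co.Cz.Tz236
import Pool.Agent.Lib.MP_5854e1_co.Cz.Tz244
import Pool.Agent.Lib.MP_5854e1_co.Cz.Tz251

/-!
# Sparse corrections: the trie
-/

set_option autoImplicit false
set_option maxRecDepth 100000

namespace Pool.Agent.Lib.MP_5854e1_co.Cz

noncomputable section

noncomputable def tz : DT := (.nd (nat_lit 1) (.nd (nat_lit 14) (.nd (nat_lit 0) (.nd (nat_lit 3) 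
(.nd (nat_lit 2) (.nd (nat_lit 5) (.nd (nat_lit 17) (.nd (nat_lit 13) tz00 tz01) 
(.nd (nat_lit 13) tz02 tz03)) (.nd (nat_lit 15) (.nd (nat_lit 13) tz04 tz05) 
(.nd (nat_lit 16) tz06 tz07))) (.nd (nat_lit 15) (.nd (nat_lit 17) (.nd (nat_lit 5) tz08 tz09) 
(.nd (nat_lit 4) tz10 tz11)) (.nd (nat_lit 16) (.nd (nat_lit 13) tz12 tz13) 
(.nd (nat_lit 13) tz14 tz15)))) (.nd (nat_lit 2) (.nd (nat_lit 15) (.nd (nat_lit 4) 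
(.nd (nat_lit 5) tz16 tz17) (.nd (nat_lit 13) tz18 tz19)) (.nd (nat_lit 16) 
(.nd (nat_lit 13) tz20 tz21) (.nd (nat_lit 13) tz22 tz23))) (.nd (nat_lit 4) (.nd (nat_lit 5) 
(.nd (nat_lit 17) tz24 tz25) (.nd (nat_lit 17) tz26 tz27)) (.nd (nat_lit 13) 
(.nd (nat_lit 17) tz28 tz29) (.nd (nat_lit 15) tz30 tz31))))) (.nd (nat_lit 3) (.nd (nat_lit 4) 
(.nd (nat_lit 2) (.nd (nat_lit 17) (.nd (nat_lit 5) tz32 tz33) (.nd (nat_lit 15) tz34 tz35)) 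
(.nd (nat_lit 17) (.nd (nat_lit 5) tz36 tz37) (.nd (nat_lit 5) tz38 tz39))) (.nd (nat_lit 13) 
(.nd (nat_lit 16) (.nd (nat_lit 17) tz40 tz41) (.nd (nat_lit 15) tz42 tz43)) (.nd (nat_lit 16) 
(.nd (nat_lit 17) tz44 tz45) (.nd (nat_lit 15) tz46 tz47)))) (.nd (nat_lit 2) (.nd (nat_lit 16) 
(.nd (nat_lit 17) (.nd (nat_lit 5) tz48 tz49) (.nd (nat_lit 13) tz50 tz51)) (.nd (nat_lit 15) 
(.nd (nat_lit 17) tz52 tz53) (.nd (nat_lit 13) tz54 tz55))) (.nd (nat_lit 17) (.nd (nat_lit 13) 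
(.nd (nat_lit 5) tz56 tz57) (.nd (nat_lit 16) tz58 tz59)) (.nd (nat_lit 13) 
(.nd (nat_lit 16) tz60 tz61) (.nd (nat_lit 16) tz62 tz63)))))) (.nd (nat_lit 13) (.nd (nat_lit 15) 
(.nd (nat_lit 2) (.nd (nat_lit 4) (.nd (nat_lit 0) (.nd (nat_lit 5) tz64 tz65) 
(.nd (nat_lit 16) tz66 tz67)) (.nd (nat_lit 0) (.nd (nat_lit 17) tz68 tz69) 
(.nd (nat_lit 16) tz70 tz71))) (.nd (nat_lit 3) (.nd (nat_lit 0) (.nd (nat_lit 17) tz72 tz73) 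
(.nd (nat_lit 4) tz74 tz75)) (.nd (nat_lit 0) (.nd (nat_lit 17) tz76 tz77) 
(.nd (nat_lit 16) tz78 tz79)))) (.nd (nat_lit 17) (.nd (nat_lit 16) (.nd (nat_lit 3) 
(.nd (nat_lit 4) tz80 tz81) (.nd (nat_lit 0) tz82 tz83)) (.nd (nat_lit 0) 
(.nd (nat_lit 3) tz84 tz85) (.nd (nat_lit 2) tz86 tz87))) (.nd (nat_lit 4) (.nd (nat_lit 2) 
(.nd (nat_lit 0) tz88 tz89) (.nd (nat_lit 3) tz90 tz91)) (.nd (nat_lit 0) 
(.nd (nat_lit 16) tz92 tz93) (.nd (nat_lit 2) tz94 tz95))))) (.nd (nat_lit 17) (.nd (nat_lit 2) 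
(.nd (nat_lit 4) (.nd (nat_lit 0) (.nd (nat_lit 5) tz96 tz97) (.nd (nat_lit 3) tz98 tz99)) 
(.nd (nat_lit 16) (.nd (nat_lit 0) tz100 tz101) (.nd (nat_lit 5) tz102 tz103))) (.nd (nat_lit 0) 
(.nd (nat_lit 3) (.nd (nat_lit 16) tz104 tz105) (.nd (nat_lit 4) tz106 tz107)) (.nd (nat_lit 3) 
(.nd (nat_lit 4) tz108 tz109) (.nd (nat_lit 15) tz110 tz111)))) (.nd (nat_lit 0) (.nd (nat_lit 2) 
(.nd (nat_lit 4) (.nd (nat_lit 15) tz112 tz113) (.nd (nat_lit 15) tz114 tz115)) (.nd (nat_lit 3) 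
(.nd (nat_lit 15) tz116 tz117) (.nd (nat_lit 15) tz118 tz119))) (.nd (nat_lit 15) (.nd (nat_lit 2) 
(.nd (nat_lit 4) tz120 tz121) (.nd (nat_lit 3) tz122 tz123)) (.nd (nat_lit 2) 
(.nd (nat_lit 4) tz124 tz125) (.nd (nat_lit 3) tz126 tz127))))))) (.nd (nat_lit 4) 
(.nd (nat_lit 14) (.nd (nat_lit 0) (.nd (nat_lit 2) (.nd (nat_lit 3) (.nd (nat_lit 17) 
(.nd (nat_lit 13) tz128 tz129) (.nd (nat_lit 15) tz130 tz131)) (.nd (nat_lit 17) 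
(.nd (nat_lit 16) tz132 tz133) (.nd (nat_lit 13) tz134 tz135))) (.nd (nat_lit 13) (.nd (nat_lit 3) 
(.nd (nat_lit 5) tz136 tz137) (.nd (nat_lit 5) tz138 tz139)) (.nd (nat_lit 5) 
(.nd (nat_lit 3) tz140 tz141) (.nd (nat_lit 16) tz142 tz143)))) (.nd (nat_lit 3) (.nd (nat_lit 5) 
(.nd (nat_lit 17) (.nd (nat_lit 16) tz144 tz145) (.nd (nat_lit 13) tz146 tz147)) (.nd (nat_lit 2) 
(.nd (nat_lit 17) tz148 tz149) (.nd (nat_lit 15) tz150 tz151))) (.nd (nat_lit 2) (.nd (nat_lit 17) 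
(.nd (nat_lit 16) tz152 tz153) (.nd (nat_lit 15) tz154 tz155)) (.nd (nat_lit 5) 
(.nd (nat_lit 17) tz156 tz157) (.nd (nat_lit 15) tz158 tz159))))) (.nd (nat_lit 13) 
(.nd (nat_lit 15) (.nd (nat_lit 0) (.nd (nat_lit 17) (.nd (nat_lit 3) tz160 tz161) 
(.nd (nat_lit 2) tz162 tz163)) (.nd (nat_lit 3) (.nd (nat_lit 5) tz164 tz165) 
(.nd (nat_lit 2) tz166 tz167))) (.nd (nat_lit 17) (.nd (nat_lit 16) (.nd (nat_lit 0) tz168 tz169) 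
(.nd (nat_lit 0) tz170 tz171)) (.nd (nat_lit 2) (.nd (nat_lit 0) tz172 tz173) 
(.nd (nat_lit 3) tz174 tz175)))) (.nd (nat_lit 0) (.nd (nat_lit 2) (.nd (nat_lit 3) 
(.nd (nat_lit 15) tz176 tz177) (.nd (nat_lit 17) tz178 tz179)) (.nd (nat_lit 17) 
(.nd (nat_lit 5) tz180 tz181) (.nd (nat_lit 15) tz182 tz183))) (.nd (nat_lit 17) (.nd (nat_lit 3) 
(.nd (nat_lit 5) tz184 tz185) (.nd (nat_lit 2) tz186 tz187)) (.nd (nat_lit 15) 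
(.nd (nat_lit 3) tz188 tz189) (.nd (nat_lit 5) tz190 tz191)))))) (.nd (nat_lit 0) (.nd (nat_lit 14) 
(.nd (nat_lit 2) (.nd (nat_lit 13) (.nd (nat_lit 3) (.nd (nat_lit 16) tz192 tz193) 
(.nd (nat_lit 5) tz194 tz195)) (.nd (nat_lit 17) (.nd (nat_lit 3) tz196 tz197) 
(.nd (nat_lit 16) tz198 tz199))) (.nd (nat_lit 3) (.nd (nat_lit 13) (.nd (nat_lit 15) tz200 tz201) 
(.nd (nat_lit 16) tz202 tz203)) (.nd (nat_lit 5) (.nd (nat_lit 16) tz204 tz205) 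
(.nd (nat_lit 17) tz206 tz207)))) (.nd (nat_lit 13) (.nd (nat_lit 2) (.nd (nat_lit 15) 
(.nd (nat_lit 3) tz208 tz209) (.nd (nat_lit 17) tz210 tz211)) (.nd (nat_lit 15) 
(.nd (nat_lit 3) tz212 tz213) (.nd (nat_lit 3) tz214 tz215))) (.nd (nat_lit 17) (.nd (nat_lit 16) 
(.nd (nat_lit 2) tz216 tz217) (.nd (nat_lit 3) tz218 tz219)) (.nd (nat_lit 2) 
(.nd (nat_lit 15) tz220 tz221) (.nd (nat_lit 15) tz222 tz223))))) (.nd (nat_lit 14) 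
(.nd (nat_lit 2) (.nd (nat_lit 17) (.nd (nat_lit 3) (.nd (nat_lit 15) tz224 tz225) 
(.nd (nat_lit 16) tz226 tz227)) (.nd (nat_lit 13) (.nd (nat_lit 3) tz228 tz229) 
(.nd (nat_lit 15) tz230 tz231))) (.nd (nat_lit 3) (.nd (nat_lit 16) (.nd (nat_lit 5) tz232 tz233) 
(.nd (nat_lit 15) tz234 tz235)) (.nd (nat_lit 17) (.nd (nat_lit 15) tz236 tz237) 
(.nd (nat_lit 16) tz238 tz239)))) (.nd (nat_lit 13) (.nd (nat_lit 15) (.nd (nat_lit 3) 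
(.nd (nat_lit 16) tz240 tz241) (.nd (nat_lit 2) tz242 tz243)) (.nd (nat_lit 17) 
(.nd (nat_lit 2) tz244 tz245) (.nd (nat_lit 2) tz246 tz247))) (.nd (nat_lit 17) (.nd (nat_lit 3) 
(.nd (nat_lit 2) tz248 tz249) (.nd (nat_lit 2) tz250 tz251)) (.nd (nat_lit 15) 
(.nd (nat_lit 3) tz252 tz253) (.nd (nat_lit 2) tz254 tz255))))))))

end

end Pool.Agent.Lib.MP_5854e1_co.Cz
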