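import Pool.Agent.Lib.MP_5854e1_co.Cz.Zm
import Pool.Agent.Lib.MP_5854e1_co.Cz.T
import Pool.Agent.Lib.MP_5854e1_co.Cz.Q
import Pool.Agent.Lib.MP_5854e1_co.Cz.S
import Pool.Agent.Lib.MP_5854e1_co.Cz.Tt
import Pool.Agent.Lib.MP_5854e1_co.Cz.Tw
import Pool.Agent.Lib.MP_5854e1_co.Cz.Tz
import Pool.Agent.Lib.MP_5854e1_co.Cz.Tq
import Pool.Agent.Lib.MP_5854e1_co.Cz.Tr
import Pool.Agent.Lib.MP_5854e1_co.Cz.Tj
import Pool.Agent.Lib.MP_5854e1_co.Cz.Tp
import Pool.Agent.Lib.MP_5854e1_co.Cz.Tv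
import Pool.Agent.Lib.MP_5854e1_co.Cz.Th
import Pool.Agent.Lib.MP_5854e1_co.Cz.Tk
import Pool.Agent.Lib.MP_5854e1_co.Cz.Tu
import Pool.Agent.Lib.MP_5854e1_co.HintB
import Pool.Agent.Lib.MP_5854e1_co.TabRun
import Pool.Agent.Lib.MP_5854e1_co.RingKZ

/-!
# The tables of the certificate
-/

set_option autoImplicit false
set_option maxRecDepth 100000
set_option deprecated.oldSectionVars true

namespace Pool.Agent.Lib.MP_5854e1_co.Cz

open Pool.Agent.Lib.MP_5854e1_co PB

noncomputable section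

/-- The tables of the values. -/
noncomputable def PT : AP where
  R := rowT
  Pn := PnT
  PG := PGT
  PH := PHT
  PS := PST
  PW := PWT
  u := nat_lit 8192
  α := nat_lit 4096
  D := DTb
  q := QTb
  w := nat_lit 14
  qo := nat_lit 4916
  rs := fun _ _ _ _ _ _ => nat_lit 0

/-- The parts of the weights of the corners for the triangles. -/
noncomputable def spT (k o s : ℕ) : ℕ := fd0 (SPT k o) (ln k o s)

/-- The reserves by triangles. -/
noncomputable def rtT : DT := Cz.tr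

/-- The tokens after a strip. -/
noncomputable def trT : ℕ → ℕ → ℕ := trX

/-- The tokens before a strip. -/
noncomputable def tlT : ℕ → ℕ → ℕ := rjA

/-- The reflection of the tokens. -/
noncomputable def mT : ℕ → ℕ → ℕ := tM

/-- The lower bounds at pentagons. -/
noncomputable def q5T (k o : ℕ) : ℕ := Nat.sub (QTb k o) (mmT k o)

/-- All tables. -/
noncomputable def cT : Tabs := PT.toTabs spT Cz.tt Cz.tw Cz.tz rtT Cz.tq trT mT q5T (nat_lit 0) (nat_lit 1) (nat_lit 4)

/-- The test of the cells of positive value. -/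
noncomputable def ringF : CE.Pth → ℕ → Bool := ringZK cT Cz.tj Cz.tp Cz.tv Cz.tu (hintC (nat_lit 1048571) (nat_lit 8796093022151) (nat_lit 8) (nat_lit 14) (nat_lit 62) (nat_lit 1073741824) Cz.th)

end

end Pool.Agent.Lib.MP_5854e1_co.Cz
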