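import Pool.Agent.Lib.MP_5854e1_co.Cz.P
import Pool.Agent.Lib.MP_5854e1_co.Tkx
import Pool.Agent.Lib.MP_5854e1_co.RunAll

/-!
# Search, part 8
-/

set_option autoImplicit false
set_option deprecated.oldSectionVars true
set_option maxRecDepth 100000

namespace Pool.Agent.Lib.MP_5854e1_co.Cz.Sr008

open PB

theorem t0 : runX PT.R (Wk.frw PT.R) nl RvT (SMap.evl cT tlT PT.vx ringF) [
  .mk 0 88 8 [0x80, 0x10000, 0x6a1d000]] = true := by
  decide +kernel

theorem t1 : runX PT.R (Wk.frw PT.R) nl RvT (SMap.evl cT tlT PT.vx ringF) [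
  .mk 0 88 8 [0x80, 0x10000, 0xff95e202c],
  .mk 0 88 8 [0x80, 0x10000, 0x200, 0x13]] = true := by
  decide +kernel

theorem t2 : runX PT.R (Wk.frw PT.R) nl RvT (SMap.evl cT tlT PT.vx ringF) [
  .mk 0 88 8 [0x80, 0x10000, 0x200, 0xfffffffec]] = true := by
  decide +kernel

theorem t3 : runX PT.R (Wk.frw PT.R) nl RvT (SMap.evl cT tlT PT.vx ringF) [
  .mk 0 88 8 [0x80, 0x10000, 0x400, 0x400040000]] = true := by
  decide +kernel

theorem t4 : runX PT.R (Wk.frw PT.R) nl RvT (SMap.evl cT tlT PT.vx ringF) [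
  .mk 0 88 8 [0x80, 0x10000, 0x400, 0x3fffbfffbffff]] = true := by
  decide +kernel

/-- The tasks. -/
noncomputable def P : List (List Tk) := [
[
  .mk 0 88 8 [0x80, 0x10000, 0x6a1d000]],
[
  .mk 0 88 8 [0x80, 0x10000, 0xff95e202c],
  .mk 0 88 8 [0x80, 0x10000, 0x200, 0x13]],
[
  .mk 0 88 8 [0x80, 0x10000, 0x200, 0xfffffffec]],
[
  .mk 0 88 8 [0x80, 0x10000, 0x400, 0x400040000]],
[
  .mk 0 88 8 [0x80, 0x10000, 0x400, 0x3fffbfffbffff]]]

theorem run : RunAll (runX PT.R (Wk.frw PT.R) nl RvT (SMap.evl cT tlT PT.vx ringF)) P :=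
  .cons t0 (.cons t1 (.cons t2 (.cons t3 (.cons t4 (.nil)))))

end Pool.Agent.Lib.MP_5854e1_co.Cz.Sr008

namespace Pool.Agent.Lib.MP_5854e1_co.Cz.Sr047

open PB

theorem t0 : runX PT.R (Wk.frw PT.R) nl RvT (SMap.evl cT tlT PT.vx ringF) [
  .mk 0 111 44 [0x2, 0x37ff]] = true := by
  decide +kernel

theorem t1 : runX PT.R (Wk.frw PT.R) nl RvT (SMap.evl cT tlT PT.vx ringF) [
  .mk 0 111 44 [0x2, 0x7fc800],
  .mk 0 111 44 [0x8, 0x1]] = true := by
  decide +kernel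

theorem t2 : runX PT.R (Wk.frw PT.R) nl RvT (SMap.evl cT tlT PT.vx ringF) [
  .mk 0 111 44 [0x8, 0x12]] = true := by
  decide +kernel

theorem t3 : runX PT.R (Wk.frw PT.R) nl RvT (SMap.evl cT tlT PT.vx ringF) [
  .mk 0 111 44 [0x8, 0x1a0]] = true := by
  decide +kernel

theorem t4 : runX PT.R (Wk.frw PT.R) nl RvT (SMap.evl cT tlT PT.vx ringF) [
  .mk 0 111 44 [0x8, 0x200]] = true := by
  decide +kernel

theorem t5 : runX PT.R (Wk.frw PT.R) nl RvT (SMap.evl cT tlT PT.vx ringF) [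
  .mk 0 111 44 [0x8, 0xa400]] = true := by
  decide +kernel

/-- The tasks. -/
noncomputable def P : List (List Tk) := [
[
  .mk 0 111 44 [0x2, 0x37ff]],
[
  .mk 0 111 44 [0x2, 0x7fc800],
  .mk 0 111 44 [0x8, 0x1]],
[
  .mk 0 111 44 [0x8, 0x12]],
[
  .mk 0 111 44 [0x8, 0x1a0]],
[
  .mk 0 111 44 [0x8, 0x200]],
[
  .mk 0 111 44 [0x8, 0xa400]]]

theorem run : RunAll (runX PT.R (Wk.frw PT.R) nl RvT (SMap.evl cT tlT PT.vx ringF)) P :=
  .cons t0 (.cons t1 (.cons t2 (.cons t3 (.cons t4 (.cons t5 (.nil))))))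

end Pool.Agent.Lib.MP_5854e1_co.Cz.Sr047

namespace Pool.Agent.Lib.MP_5854e1_co.Cz.Sr424

open PB

theorem t0 : runX PT.R (Wk.frw PT.R) nl RvT (SMap.evl cT tlT PT.vx ringF) [
  .mk 42 13 0 [0x30005600000000000000000000]] = true := by
  decide +kernel

theorem t1 : runX PT.R (Wk.frw PT.R) nl RvT (SMap.evl cT tlT PT.vx ringF) [
  .mk 42 13 0 [0xffffffffffffffffffffffffffffffffffffffffffffffffffffffffffffffffffffffffffffffcfffa9ffffffffffffffffffff]] = true := by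
  decide +kernel

theorem t2 : runX PT.R (Wk.frw PT.R) nl RvT (SMap.evl cT tlT PT.vx ringF) [
  .mk 42 14 7 []] = true := by
  decide +kernel

theorem t3 : runX PT.R (Wk.frw PT.R) nl RvT (SMap.evl cT tlT PT.vx ringF) [
  .mk 42 15 15 [],
  .mk 42 16 20 [],
  .mk 42 17 28 []] = true := by
  decide +kernel

theorem t4 : runX PT.R (Wk.frw PT.R) nl RvT (SMap.evl cT tlT PT.vx ringF) [
  .mk 42 18 0 []] = true := by
  decide +kernel

theorem t5 : runX PT.R (Wk.frw PT.R) nl RvT (SMap.evl cT tlT PT.vx ringF) [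
  .mk 42 19 61 [0x1e1]] = true := by
  decide +kernel

/-- The tasks. -/
noncomputable def P : List (List Tk) := [
[
  .mk 42 13 0 [0x30005600000000000000000000]],
[
  .mk 42 13 0 [0xffffffffffffffffffffffffffffffffffffffffffffffffffffffffffffffffffffffffffffffcfffa9ffffffffffffffffffff]],
[
  .mk 42 14 7 []],
[
  .mk 42 15 15 [],
  .mk 42 16 20 [],
  .mk 42 17 28 []],
[
  .mk 42 18 0 []],
[
  .mk 42 19 61 [0x1e1]]]

theorem run : RunAll (runX PT.R (Wk.frw PT.R) nl RvT (SMap.evl cT tlT PT.vx ringF)) P :=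
  .cons t0 (.cons t1 (.cons t2 (.cons t3 (.cons t4 (.cons t5 (.nil))))))

end Pool.Agent.Lib.MP_5854e1_co.Cz.Sr424
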