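import Pool.Agent.Lib.MP_5854e1_co.Cz.P
import Pool.Agent.Lib.MP_5854e1_co.Tkx
import Pool.Agent.Lib.MP_5854e1_co.RunAll

/-!
# Search, part 20
-/

set_option autoImplicit false
set_option deprecated.oldSectionVars true
set_option maxRecDepth 100000

namespace Pool.Agent.Lib.MP_5854e1_co.Cz.Sr020

open PB

theorem t0 : runX PT.R (Wk.frw PT.R) nl RvT (SMap.evl cT tlT PT.vx ringF) [
  .mk 0 90 10 [0x400000, 0x800]] = true := by
  decide +kernel

theorem t1 : runX PT.R (Wk.frw PT.R) nl RvT (SMap.evl cT tlT PT.vx ringF) [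
  .mk 0 90 10 [0x400000, 0x1000]] = true := by
  decide +kernel

theorem t2 : runX PT.R (Wk.frw PT.R) nl RvT (SMap.evl cT tlT PT.vx ringF) [
  .mk 0 90 10 [0x400000, 0x7fe170]] = true := by
  decide +kernel

theorem t3 : runX PT.R (Wk.frw PT.R) nl RvT (SMap.evl cT tlT PT.vx ringF) [
  .mk 0 90 10 [0x800000, 0x1a7b3]] = true := by
  decide +kernel

theorem t4 : runX PT.R (Wk.frw PT.R) nl RvT (SMap.evl cT tlT PT.vx ringF) [
  .mk 0 90 10 [0x800000, 0x640000]] = true := by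
  decide +kernel

theorem t5 : runX PT.R (Wk.frw PT.R) nl RvT (SMap.evl cT tlT PT.vx ringF) [
  .mk 0 90 10 [0x800000, 0xf000000]] = true := by
  decide +kernel

/-- The tasks. -/
noncomputable def P : List (List Tk) := [
[
  .mk 0 90 10 [0x400000, 0x800]],
[
  .mk 0 90 10 [0x400000, 0x1000]],
[
  .mk 0 90 10 [0x400000, 0x7fe170]],
[
  .mk 0 90 10 [0x800000, 0x1a7b3]],
[
  .mk 0 90 10 [0x800000, 0x640000]],
[
  .mk 0 90 10 [0x800000, 0xf000000]]]

theorem run : RunAll (runX PT.R (Wk.frw PT.R) nl RvT (SMap.evl cT tlT PT.vx ringF)) P :=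
  .cons t0 (.cons t1 (.cons t2 (.cons t3 (.cons t4 (.cons t5 (.nil))))))

end Pool.Agent.Lib.MP_5854e1_co.Cz.Sr020

namespace Pool.Agent.Lib.MP_5854e1_co.Cz.Sr025

open PB

theorem t0 : runX PT.R (Wk.frw PT.R) nl RvT (SMap.evl cT tlT PT.vx ringF) [
  .mk 0 90 10 [0x4000000, 0x200, 0x8200000000000000000000000000000002ff80273]] = true := by
  decide +kernel

theorem t1 : runX PT.R (Wk.frw PT.R) nl RvT (SMap.evl cT tlT PT.vx ringF) [
  .mk 0 90 10 [0x4000000, 0x200, 0xfffffffffffffffffffffffffffffffffffffffffffffffffffffffffffffff7dfffffffffffffffffffffffffffffffd007fd8c],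
  .mk 0 91 11 [],
  .mk 0 92 12 [0x40200]] = true := by
  decide +kernel

theorem t2 : runX PT.R (Wk.frw PT.R) nl RvT (SMap.evl cT tlT PT.vx ringF) [
  .mk 0 92 12 [0x3480000]] = true := by
  decide +kernel

theorem t3 : runX PT.R (Wk.frw PT.R) nl RvT (SMap.evl cT tlT PT.vx ringF) [
  .mk 0 92 12 [0x8000000]] = true := by
  decide +kernel

theorem t4 : runX PT.R (Wk.frw PT.R) nl RvT (SMap.evl cT tlT PT.vx ringF) [
  .mk 0 92 12 [0x10000000]] = true := by
  decide +kernel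

theorem t5 : runX PT.R (Wk.frw PT.R) nl RvT (SMap.evl cT tlT PT.vx ringF) [
  .mk 0 92 12 [0x40000000]] = true := by
  decide +kernel

/-- The tasks. -/
noncomputable def P : List (List Tk) := [
[
  .mk 0 90 10 [0x4000000, 0x200, 0x8200000000000000000000000000000002ff80273]],
[
  .mk 0 90 10 [0x4000000, 0x200, 0xfffffffffffffffffffffffffffffffffffffffffffffffffffffffffffffff7dfffffffffffffffffffffffffffffffd007fd8c],
  .mk 0 91 11 [],
  .mk 0 92 12 [0x40200]],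
[
  .mk 0 92 12 [0x3480000]],
[
  .mk 0 92 12 [0x8000000]],
[
  .mk 0 92 12 [0x10000000]],
[
  .mk 0 92 12 [0x40000000]]]

theorem run : RunAll (runX PT.R (Wk.frw PT.R) nl RvT (SMap.evl cT tlT PT.vx ringF)) P :=
  .cons t0 (.cons t1 (.cons t2 (.cons t3 (.cons t4 (.cons t5 (.nil))))))

end Pool.Agent.Lib.MP_5854e1_co.Cz.Sr025

namespace Pool.Agent.Lib.MP_5854e1_co.Cz.Sr266

open PB

theorem t0 : runX PT.R (Wk.frw PT.R) nl RvT (SMap.evl cT tlT PT.vx ringF) [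
  .mk 11 13 21 [0x4000, 0x8, 0xc000000]] = true := by
  decide +kernel

theorem t1 : runX PT.R (Wk.frw PT.R) nl RvT (SMap.evl cT tlT PT.vx ringF) [
  .mk 11 13 21 [0x4000, 0x8, 0x3f0d9ffcc],
  .mk 11 14 22 [0x377bdf]] = true := by
  decide +kernel

theorem t2 : runX PT.R (Wk.frw PT.R) nl RvT (SMap.evl cT tlT PT.vx ringF) [
  .mk 11 14 22 [0x100000000]] = true := by
  decide +kernel

theorem t3 : runX PT.R (Wk.frw PT.R) nl RvT (SMap.evl cT tlT PT.vx ringF) [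
  .mk 11 14 22 [0x4e00000000]] = true := by
  decide +kernel

theorem t4 : runX PT.R (Wk.frw PT.R) nl RvT (SMap.evl cT tlT PT.vx ringF) [
  .mk 11 14 22 [0x1f0000000000]] = true := by
  decide +kernel

theorem t5 : runX PT.R (Wk.frw PT.R) nl RvT (SMap.evl cT tlT PT.vx ringF) [
  .mk 11 14 22 [0x3e0b0ffc88000]] = true := by
  decide +kernel

/-- The tasks. -/
noncomputable def P : List (List Tk) := [
[
  .mk 11 13 21 [0x4000, 0x8, 0xc000000]],
[
  .mk 11 13 21 [0x4000, 0x8, 0x3f0d9ffcc],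
  .mk 11 14 22 [0x377bdf]],
[
  .mk 11 14 22 [0x100000000]],
[
  .mk 11 14 22 [0x4e00000000]],
[
  .mk 11 14 22 [0x1f0000000000]],
[
  .mk 11 14 22 [0x3e0b0ffc88000]]]

theorem run : RunAll (runX PT.R (Wk.frw PT.R) nl RvT (SMap.evl cT tlT PT.vx ringF)) P :=
  .cons t0 (.cons t1 (.cons t2 (.cons t3 (.cons t4 (.cons t5 (.nil))))))

end Pool.Agent.Lib.MP_5854e1_co.Cz.Sr266

namespace Pool.Agent.Lib.MP_5854e1_co.Cz.Sr476

open PB

theorem t0 : runX PT.R (Wk.frw PT.R) nl RvT (SMap.evl cT tlT PT.vx ringF) [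
  .mk 47 26 65 [0x4000, 0x800, 0x12]] = true := by
  decide +kernel

theorem t1 : runX PT.R (Wk.frw PT.R) nl RvT (SMap.evl cT tlT PT.vx ringF) [
  .mk 47 26 65 [0x4000, 0x800, 0xfffffffec],
  .mk 47 27 66 [],
  .mk 47 28 67 [],
  .mk 47 29 68 [],
  .mk 47 30 69 [],
  .mk 47 31 70 [0x1a00]] = true := by
  decide +kernel

theorem t2 : runX PT.R (Wk.frw PT.R) nl RvT (SMap.evl cT tlT PT.vx ringF) [
  .mk 47 31 70 [0x7f45ff]] = true := by
  decide +kernel

theorem t3 : runX PT.R (Wk.frw PT.R) nl RvT (SMap.evl cT tlT PT.vx ringF) [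
  .mk 47 31 70 [0x2000, 0xffffff9ff]] = true := by
  decide +kernel

theorem t4 : runX PT.R (Wk.frw PT.R) nl RvT (SMap.evl cT tlT PT.vx ringF) [
  .mk 47 31 70 [0x2000, 0x200, 0x3]] = true := by
  decide +kernel

theorem t5 : runX PT.R (Wk.frw PT.R) nl RvT (SMap.evl cT tlT PT.vx ringF) [
  .mk 47 31 70 [0x2000, 0x200, 0xffffffffc]] = true := by
  decide +kernel

/-- The tasks. -/
noncomputable def P : List (List Tk) := [
[
  .mk 47 26 65 [0x4000, 0x800, 0x12]],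
[
  .mk 47 26 65 [0x4000, 0x800, 0xfffffffec],
  .mk 47 27 66 [],
  .mk 47 28 67 [],
  .mk 47 29 68 [],
  .mk 47 30 69 [],
  .mk 47 31 70 [0x1a00]],
[
  .mk 47 31 70 [0x7f45ff]],
[
  .mk 47 31 70 [0x2000, 0xffffff9ff]],
[
  .mk 47 31 70 [0x2000, 0x200, 0x3]],
[
  .mk 47 31 70 [0x2000, 0x200, 0xffffffffc]]]

theorem run : RunAll (runX PT.R (Wk.frw PT.R) nl RvT (SMap.evl cT tlT PT.vx ringF)) P :=
  .cons t0 (.cons t1 (.cons t2 (.cons t3 (.cons t4 (.cons t5 (.nil))))))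

end Pool.Agent.Lib.MP_5854e1_co.Cz.Sr476
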