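import Pool.Agent.Lib.MP_5854e1_co.Cz.P
import Pool.Agent.Lib.MP_5854e1_co.Tkx
import Pool.Agent.Lib.MP_5854e1_co.RunAll

/-!
# Search, part 33
-/

set_option autoImplicit false
set_option deprecated.oldSectionVars true
set_option maxRecDepth 100000

namespace Pool.Agent.Lib.MP_5854e1_co.Cz.Sr033

open PB

theorem t0 : runX PT.R (Wk.frw PT.R) nl RvT (SMap.evl cT tlT PT.vx ringF) [
  .mk 0 102 35 [0x2000, 0x20000, 0xff93fb4fc1ffffffffffffffffffffffffffffffffffffff007f0fffffffffffdfffffffffffffffffffffffffffffffffffffff],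
  .mk 0 103 36 [],
  .mk 0 104 37 [0x8]] = true := by
  decide +kernel

theorem t1 : runX PT.R (Wk.frw PT.R) nl RvT (SMap.evl cT tlT PT.vx ringF) [
  .mk 0 104 37 [0x400]] = true := by
  decide +kernel

theorem t2 : runX PT.R (Wk.frw PT.R) nl RvT (SMap.evl cT tlT PT.vx ringF) [
  .mk 0 104 37 [0xfffffd9f7]] = true := by
  decide +kernel

theorem t3 : runX PT.R (Wk.frw PT.R) nl RvT (SMap.evl cT tlT PT.vx ringF) [
  .mk 0 104 37 [0x200, 0x757806f]] = true := by
  decide +kernel

theorem t4 : runX PT.R (Wk.frw PT.R) nl RvT (SMap.evl cT tlT PT.vx ringF) [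
  .mk 0 104 37 [0x200, 0xff8a87f90]] = true := by
  decide +kernel

theorem t5 : runX PT.R (Wk.frw PT.R) nl RvT (SMap.evl cT tlT PT.vx ringF) [
  .mk 0 104 37 [0x2000, 0x3fa7b3]] = true := by
  decide +kernel

/-- The tasks. -/
noncomputable def P : List (List Tk) := [
[
  .mk 0 102 35 [0x2000, 0x20000, 0xff93fb4fc1ffffffffffffffffffffffffffffffffffffff007f0fffffffffffdfffffffffffffffffffffffffffffffffffffff],
  .mk 0 103 36 [],
  .mk 0 104 37 [0x8]],
[
  .mk 0 104 37 [0x400]],
[
  .mk 0 104 37 [0xfffffd9f7]],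
[
  .mk 0 104 37 [0x200, 0x757806f]],
[
  .mk 0 104 37 [0x200, 0xff8a87f90]],
[
  .mk 0 104 37 [0x2000, 0x3fa7b3]]]

theorem run : RunAll (runX PT.R (Wk.frw PT.R) nl RvT (SMap.evl cT tlT PT.vx ringF)) P :=
  .cons t0 (.cons t1 (.cons t2 (.cons t3 (.cons t4 (.cons t5 (.nil))))))

end Pool.Agent.Lib.MP_5854e1_co.Cz.Sr033

namespace Pool.Agent.Lib.MP_5854e1_co.Cz.Sr128

open PB

theorem t0 : runX PT.R (Wk.frw PT.R) nl RvT (SMap.evl cT tlT PT.vx ringF) [
  .mk 7 19 48 [0x200, 0x200, 0x8000, 0x20000000000000000000000000000000000000000000000000, 0x2, 0xfffffffffffffffffffffffffffffffffffffffffffffffffffffffffffffffffffffff]] = true := by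
  decide +kernel

theorem t1 : runX PT.R (Wk.frw PT.R) nl RvT (SMap.evl cT tlT PT.vx ringF) [
  .mk 7 19 48 [0x20000, 0x4b03e00000000000000000000000000000000000000fffff000000000002000000000000000000000000000000000000000]] = true := by
  decide +kernel

theorem t2 : runX PT.R (Wk.frw PT.R) nl RvT (SMap.evl cT tlT PT.vx ringF) [
  .mk 7 19 48 [0x20000, 0xfffffb4fc1ffffffffffffffffffffffffffffffffffffff00000fffffffffffdfffffffffffffffffffffffffffffffffffffff]] = true := by
  decide +kernel

theorem t3 : runX PT.R (Wk.frw PT.R) nl RvT (SMap.evl cT tlT PT.vx ringF) [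
  .mk 7 19 48 [0x800000, 0x3f]] = true := by
  decide +kernel

theorem t4 : runX PT.R (Wk.frw PT.R) nl RvT (SMap.evl cT tlT PT.vx ringF) [
  .mk 7 19 48 [0x800000, 0xfffffffc0]] = true := by
  decide +kernel

theorem t5 : runX PT.R (Wk.frw PT.R) nl RvT (SMap.evl cT tlT PT.vx ringF) [
  .mk 7 19 48 [0x8000000, 0x1fbf]] = true := by
  decide +kernel

/-- The tasks. -/
noncomputable def P : List (List Tk) := [
[
  .mk 7 19 48 [0x200, 0x200, 0x8000, 0x20000000000000000000000000000000000000000000000000, 0x2, 0xfffffffffffffffffffffffffffffffffffffffffffffffffffffffffffffffffffffff]],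
[
  .mk 7 19 48 [0x20000, 0x4b03e00000000000000000000000000000000000000fffff000000000002000000000000000000000000000000000000000]],
[
  .mk 7 19 48 [0x20000, 0xfffffb4fc1ffffffffffffffffffffffffffffffffffffff00000fffffffffffdfffffffffffffffffffffffffffffffffffffff]],
[
  .mk 7 19 48 [0x800000, 0x3f]],
[
  .mk 7 19 48 [0x800000, 0xfffffffc0]],
[
  .mk 7 19 48 [0x8000000, 0x1fbf]]]

theorem run : RunAll (runX PT.R (Wk.frw PT.R) nl RvT (SMap.evl cT tlT PT.vx ringF)) P :=
  .cons t0 (.cons t1 (.cons t2 (.cons t3 (.cons t4 (.cons t5 (.nil))))))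

end Pool.Agent.Lib.MP_5854e1_co.Cz.Sr128

namespace Pool.Agent.Lib.MP_5854e1_co.Cz.Sr248

open PB

theorem t0 : runX PT.R (Wk.frw PT.R) nl RvT (SMap.evl cT tlT PT.vx ringF) [
  .mk 11 13 21 [0x400, 0x800000, 0x1, 0x100000000000000000000000000000000000000000000000000000000000000000000000000000000000, 0x40000400000000000000000000]] = true := by
  decide +kernel

theorem t1 : runX PT.R (Wk.frw PT.R) nl RvT (SMap.evl cT tlT PT.vx ringF) [
  .mk 11 13 21 [0x400, 0x800000, 0x1, 0x100000000000000000000000000000000000000000000000000000000000000000000000000000000000, 0xffffffffffffffffffffffffffffffffffffffffffffffffffffffffffffffffffffffffffffffbffff9ffffffffffffffffffff],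
  .mk 11 13 21 [0x400, 0x800000, 0x1, 0x100000000000000000000000000000000000000000000000000000000000000000000000000000000000, 0x200000000000000000000, 0x90000000000001]] = true := by
  decide +kernel

/-- The tasks. -/
noncomputable def P : List (List Tk) := [
[
  .mk 11 13 21 [0x400, 0x800000, 0x1, 0x100000000000000000000000000000000000000000000000000000000000000000000000000000000000, 0x40000400000000000000000000]],
[
  .mk 11 13 21 [0x400, 0x800000, 0x1, 0x100000000000000000000000000000000000000000000000000000000000000000000000000000000000, 0xffffffffffffffffffffffffffffffffffffffffffffffffffffffffffffffffffffffffffffffbffff9ffffffffffffffffffff],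
  .mk 11 13 21 [0x400, 0x800000, 0x1, 0x100000000000000000000000000000000000000000000000000000000000000000000000000000000000, 0x200000000000000000000, 0x90000000000001]]]

theorem run : RunAll (runX PT.R (Wk.frw PT.R) nl RvT (SMap.evl cT tlT PT.vx ringF)) P :=
  .cons t0 (.cons t1 (.nil))

end Pool.Agent.Lib.MP_5854e1_co.Cz.Sr248
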