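import Pool.Agent.Lib.MP_5854e1_co.Cz.P
import Pool.Agent.Lib.MP_5854e1_co.Tkx
import Pool.Agent.Lib.MP_5854e1_co.RunAll

/-!
# Search, part 46
-/

set_option autoImplicit false
set_option deprecated.oldSectionVars true
set_option maxRecDepth 100000

namespace Pool.Agent.Lib.MP_5854e1_co.Cz.Sr046

open PB

theorem t0 : runX PT.R (Wk.frw PT.R) nl RvT (SMap.evl cT tlT PT.vx ringF) [
  .mk 0 111 44 [0xe000000]] = true := by
  decide +kernel

theorem t1 : runX PT.R (Wk.frw PT.R) nl RvT (SMap.evl cT tlT PT.vx ringF) [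
  .mk 0 111 44 [0x1, 0x3f076000001fffffa0000000000000000000000000000000000000000000000000000000000]] = true := by
  decide +kernel

theorem t2 : runX PT.R (Wk.frw PT.R) nl RvT (SMap.evl cT tlT PT.vx ringF) [
  .mk 0 111 44 [0x1, 0x100fc0000000000000000000000000000000000000000000000000000000000000000000000000000]] = true := by
  decide +kernel

theorem t3 : runX PT.R (Wk.frw PT.R) nl RvT (SMap.evl cT tlT PT.vx ringF) [
  .mk 0 111 44 [0x1, 0x1f800000000003c00000000000000000000000000000000000000000000000000000000000000000000000000000000]] = true := by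
  decide +kernel

theorem t4 : runX PT.R (Wk.frw PT.R) nl RvT (SMap.evl cT tlT PT.vx ringF) [
  .mk 0 111 44 [0x1, 0xc00000000000000000000000000000000000000000000000000000000000000000000000000000000000000000000000]] = true := by
  decide +kernel

theorem t5 : runX PT.R (Wk.frw PT.R) nl RvT (SMap.evl cT tlT PT.vx ringF) [
  .mk 0 111 44 [0x1, 0x1000000000000000000000000000000000000000000000000000000000000000000000000000000000000000000000000]] = true := by
  decide +kernel

theorem t6 : runX PT.R (Wk.frw PT.R) nl RvT (SMap.evl cT tlT PT.vx ringF) [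
  .mk 0 111 44 [0x1, 0xfffffffe3e07ffffffffffc2ff03fc0f89fffffe000005ffffffffffffffffffffffffffffffffffffffffffffffffffffffffff]] = true := by
  decide +kernel

/-- The tasks. -/
noncomputable def P : List (List Tk) := [
[
  .mk 0 111 44 [0xe000000]],
[
  .mk 0 111 44 [0x1, 0x3f076000001fffffa0000000000000000000000000000000000000000000000000000000000]],
[
  .mk 0 111 44 [0x1, 0x100fc0000000000000000000000000000000000000000000000000000000000000000000000000000]],
[
  .mk 0 111 44 [0x1, 0x1f800000000003c00000000000000000000000000000000000000000000000000000000000000000000000000000000]],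
[
  .mk 0 111 44 [0x1, 0xc00000000000000000000000000000000000000000000000000000000000000000000000000000000000000000000000]],
[
  .mk 0 111 44 [0x1, 0x1000000000000000000000000000000000000000000000000000000000000000000000000000000000000000000000000]],
[
  .mk 0 111 44 [0x1, 0xfffffffe3e07ffffffffffc2ff03fc0f89fffffe000005ffffffffffffffffffffffffffffffffffffffffffffffffffffffffff]]]

theorem run : RunAll (runX PT.R (Wk.frw PT.R) nl RvT (SMap.evl cT tlT PT.vx ringF)) P :=
  .cons t0 (.cons t1 (.cons t2 (.cons t3 (.cons t4 (.cons t5 (.cons t6 (.nil)))))))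

end Pool.Agent.Lib.MP_5854e1_co.Cz.Sr046

namespace Pool.Agent.Lib.MP_5854e1_co.Cz.Sr275

open PB

theorem t0 : runX PT.R (Wk.frw PT.R) nl RvT (SMap.evl cT tlT PT.vx ringF) [
  .mk 11 17 29 [0x2000, 0x3a793]] = true := by
  decide +kernel

theorem t1 : runX PT.R (Wk.frw PT.R) nl RvT (SMap.evl cT tlT PT.vx ringF) [
  .mk 11 17 29 [0x2000, 0xffc586c],
  .mk 11 18 0 [],
  .mk 11 19 7 [],
  .mk 11 20 15 [],
  .mk 11 21 20 [],
  .mk 11 22 28 [],
  .mk 12 0 0 [],
  .mk 12 1 7 [],
  .mk 12 2 13 [],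
  .mk 12 3 14 [],
  .mk 12 4 15 [],
  .mk 12 5 18 [],
  .mk 12 6 19 [],
  .mk 12 7 39 []] = true := by
  decide +kernel

theorem t2 : runX PT.R (Wk.frw PT.R) nl RvT (SMap.evl cT tlT PT.vx ringF) [
  .mk 12 8 40 []] = true := by
  decide +kernel

theorem t3 : runX PT.R (Wk.frw PT.R) nl RvT (SMap.evl cT tlT PT.vx ringF) [
  .mk 12 9 41 [0x5a3]] = true := by
  decide +kernel

theorem t4 : runX PT.R (Wk.frw PT.R) nl RvT (SMap.evl cT tlT PT.vx ringF) [
  .mk 12 9 41 [0xfffffd050]] = true := by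
  decide +kernel

theorem t5 : runX PT.R (Wk.frw PT.R) nl RvT (SMap.evl cT tlT PT.vx ringF) [
  .mk 12 9 41 [0x4, 0x1e05]] = true := by
  decide +kernel

/-- The tasks. -/
noncomputable def P : List (List Tk) := [
[
  .mk 11 17 29 [0x2000, 0x3a793]],
[
  .mk 11 17 29 [0x2000, 0xffc586c],
  .mk 11 18 0 [],
  .mk 11 19 7 [],
  .mk 11 20 15 [],
  .mk 11 21 20 [],
  .mk 11 22 28 [],
  .mk 12 0 0 [],
  .mk 12 1 7 [],
  .mk 12 2 13 [],
  .mk 12 3 14 [],
  .mk 12 4 15 [],
  .mk 12 5 18 [],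
  .mk 12 6 19 [],
  .mk 12 7 39 []],
[
  .mk 12 8 40 []],
[
  .mk 12 9 41 [0x5a3]],
[
  .mk 12 9 41 [0xfffffd050]],
[
  .mk 12 9 41 [0x4, 0x1e05]]]

theorem run : RunAll (runX PT.R (Wk.frw PT.R) nl RvT (SMap.evl cT tlT PT.vx ringF)) P :=
  .cons t0 (.cons t1 (.cons t2 (.cons t3 (.cons t4 (.cons t5 (.nil))))))

end Pool.Agent.Lib.MP_5854e1_co.Cz.Sr275

namespace Pool.Agent.Lib.MP_5854e1_co.Cz.Sr300

open PB

theorem t0 : runX PT.R (Wk.frw PT.R) nl RvT (SMap.evl cT tlT PT.vx ringF) [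
  .mk 12 32 58 [0x7f68be401fffff],
  .mk 12 32 58 [0x1000000, 0x193]] = true := by
  decide +kernel

theorem t1 : runX PT.R (Wk.frw PT.R) nl RvT (SMap.evl cT tlT PT.vx ringF) [
  .mk 12 32 58 [0x1000000, 0x600]] = true := by
  decide +kernel

theorem t2 : runX PT.R (Wk.frw PT.R) nl RvT (SMap.evl cT tlT PT.vx ringF) [
  .mk 12 32 58 [0x1000000, 0x3fffff86c]] = true := by
  decide +kernel

theorem t3 : runX PT.R (Wk.frw PT.R) nl RvT (SMap.evl cT tlT PT.vx ringF) [
  .mk 12 33 60 [0xffffffbff]] = true := by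
  decide +kernel

theorem t4 : runX PT.R (Wk.frw PT.R) nl RvT (SMap.evl cT tlT PT.vx ringF) [
  .mk 12 33 60 [0x400, 0x3dc0000]] = true := by
  decide +kernel

theorem t5 : runX PT.R (Wk.frw PT.R) nl RvT (SMap.evl cT tlT PT.vx ringF) [
  .mk 12 33 60 [0x400, 0x3fffffc03ffff]] = true := by
  decide +kernel

/-- The tasks. -/
noncomputable def P : List (List Tk) := [
[
  .mk 12 32 58 [0x7f68be401fffff],
  .mk 12 32 58 [0x1000000, 0x193]],
[
  .mk 12 32 58 [0x1000000, 0x600]],
[
  .mk 12 32 58 [0x1000000, 0x3fffff86c]],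
[
  .mk 12 33 60 [0xffffffbff]],
[
  .mk 12 33 60 [0x400, 0x3dc0000]],
[
  .mk 12 33 60 [0x400, 0x3fffffc03ffff]]]

theorem run : RunAll (runX PT.R (Wk.frw PT.R) nl RvT (SMap.evl cT tlT PT.vx ringF)) P :=
  .cons t0 (.cons t1 (.cons t2 (.cons t3 (.cons t4 (.cons t5 (.nil))))))

end Pool.Agent.Lib.MP_5854e1_co.Cz.Sr300
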