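import Pool.Agent.Lib.MP_5854e1_co.Cz.P
import Pool.Agent.Lib.MP_5854e1_co.Tkx
import Pool.Agent.Lib.MP_5854e1_co.RunAll

/-!
# Search, part 62
-/

set_option autoImplicit false
set_option deprecated.oldSectionVars true
set_option maxRecDepth 100000

namespace Pool.Agent.Lib.MP_5854e1_co.Cz.Sr062

open PB

theorem t0 : runX PT.R (Wk.frw PT.R) nl RvT (SMap.evl cT tlT PT.vx ringF) [
  .mk 0 116 49 [0x1000, 0x3f70000000]] = true := by
  decide +kernel

theorem t1 : runX PT.R (Wk.frw PT.R) nl RvT (SMap.evl cT tlT PT.vx ringF) [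
  .mk 0 116 49 [0x1000, 0x1c000000000]] = true := by
  decide +kernel

theorem t2 : runX PT.R (Wk.frw PT.R) nl RvT (SMap.evl cT tlT PT.vx ringF) [
  .mk 0 116 49 [0x1000, 0x7ffe00800000b0]] = true := by
  decide +kernel

theorem t3 : runX PT.R (Wk.frw PT.R) nl RvT (SMap.evl cT tlT PT.vx ringF) [
  .mk 0 116 49 [0x2000, 0x3a7b3]] = true := by
  decide +kernel

theorem t4 : runX PT.R (Wk.frw PT.R) nl RvT (SMap.evl cT tlT PT.vx ringF) [
  .mk 0 116 49 [0x2000, 0x3fc0000]] = true := by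
  decide +kernel

theorem t5 : runX PT.R (Wk.frw PT.R) nl RvT (SMap.evl cT tlT PT.vx ringF) [
  .mk 0 116 49 [0x2000, 0xc00584c],
  .mk 0 117 61 [0x80]] = true := by
  decide +kernel

/-- The tasks. -/
noncomputable def P : List (List Tk) := [
[
  .mk 0 116 49 [0x1000, 0x3f70000000]],
[
  .mk 0 116 49 [0x1000, 0x1c000000000]],
[
  .mk 0 116 49 [0x1000, 0x7ffe00800000b0]],
[
  .mk 0 116 49 [0x2000, 0x3a7b3]],
[
  .mk 0 116 49 [0x2000, 0x3fc0000]],
[
  .mk 0 116 49 [0x2000, 0xc00584c],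
  .mk 0 117 61 [0x80]]]

theorem run : RunAll (runX PT.R (Wk.frw PT.R) nl RvT (SMap.evl cT tlT PT.vx ringF)) P :=
  .cons t0 (.cons t1 (.cons t2 (.cons t3 (.cons t4 (.cons t5 (.nil))))))

end Pool.Agent.Lib.MP_5854e1_co.Cz.Sr062

namespace Pool.Agent.Lib.MP_5854e1_co.Cz.Sr082

open PB

theorem t0 : runX PT.R (Wk.frw PT.R) nl RvT (SMap.evl cT tlT PT.vx ringF) [
  .mk 0 294 7 [0x8, 0x60800]] = true := by
  decide +kernel

theorem t1 : runX PT.R (Wk.frw PT.R) nl RvT (SMap.evl cT tlT PT.vx ringF) [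
  .mk 0 294 7 [0x8, 0x3fff9f5ff]] = true := by
  decide +kernel

theorem t2 : runX PT.R (Wk.frw PT.R) nl RvT (SMap.evl cT tlT PT.vx ringF) [
  .mk 0 294 7 [0x8, 0x200, 0x1bf]] = true := by
  decide +kernel

theorem t3 : runX PT.R (Wk.frw PT.R) nl RvT (SMap.evl cT tlT PT.vx ringF) [
  .mk 0 294 7 [0x8, 0x200, 0xffffffe40]] = true := by
  decide +kernel

theorem t4 : runX PT.R (Wk.frw PT.R) nl RvT (SMap.evl cT tlT PT.vx ringF) [
  .mk 0 294 7 [0x1000, 0x5]] = true := by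
  decide +kernel

theorem t5 : runX PT.R (Wk.frw PT.R) nl RvT (SMap.evl cT tlT PT.vx ringF) [
  .mk 0 294 7 [0x1000, 0x108]] = true := by
  decide +kernel

/-- The tasks. -/
noncomputable def P : List (List Tk) := [
[
  .mk 0 294 7 [0x8, 0x60800]],
[
  .mk 0 294 7 [0x8, 0x3fff9f5ff]],
[
  .mk 0 294 7 [0x8, 0x200, 0x1bf]],
[
  .mk 0 294 7 [0x8, 0x200, 0xffffffe40]],
[
  .mk 0 294 7 [0x1000, 0x5]],
[
  .mk 0 294 7 [0x1000, 0x108]]]

theorem run : RunAll (runX PT.R (Wk.frw PT.R) nl RvT (SMap.evl cT tlT PT.vx ringF)) P :=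
  .cons t0 (.cons t1 (.cons t2 (.cons t3 (.cons t4 (.cons t5 (.nil))))))

end Pool.Agent.Lib.MP_5854e1_co.Cz.Sr082

namespace Pool.Agent.Lib.MP_5854e1_co.Cz.Sr254

open PB

theorem t0 : runX PT.R (Wk.frw PT.R) nl RvT (SMap.evl cT tlT PT.vx ringF) [
  .mk 11 13 21 [0x400, 0x800000, 0x200, 0x1, 0x1000000000000000000000000000000000, 0x1fffff]] = true := by
  decide +kernel

theorem t1 : runX PT.R (Wk.frw PT.R) nl RvT (SMap.evl cT tlT PT.vx ringF) [
  .mk 11 13 21 [0x400, 0x800000, 0x200, 0x8000, 0xffffffffffffffffffffffffffffffffffffffffffffffffffffffffffffffffdfffffffffffffffffffffffffffffffffffffff]] = true := by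
  decide +kernel

/-- The tasks. -/
noncomputable def P : List (List Tk) := [
[
  .mk 11 13 21 [0x400, 0x800000, 0x200, 0x1, 0x1000000000000000000000000000000000, 0x1fffff]],
[
  .mk 11 13 21 [0x400, 0x800000, 0x200, 0x8000, 0xffffffffffffffffffffffffffffffffffffffffffffffffffffffffffffffffdfffffffffffffffffffffffffffffffffffffff]]]

theorem run : RunAll (runX PT.R (Wk.frw PT.R) nl RvT (SMap.evl cT tlT PT.vx ringF)) P :=
  .cons t0 (.cons t1 (.nil))

end Pool.Agent.Lib.MP_5854e1_co.Cz.Sr254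

namespace Pool.Agent.Lib.MP_5854e1_co.Cz.Sr374

open PB

theorem t0 : runX PT.R (Wk.frw PT.R) nl RvT (SMap.evl cT tlT PT.vx ringF) [
  .mk 41 3 12 [0x4000000, 0x400, 0x10000000, 0x1000, 0xffffffffffffffffffffffffffffffffffffffffffffffffffffffffd1ffffffffffffe],
  .mk 41 3 12 [0x4000000, 0x400, 0x10000000, 0x1000, 0x1, 0x400000000000000000000000000000000000000000000000000000000000000000000000000000000000000000000000]] = true := by
  decide +kernel

theorem t1 : runX PT.R (Wk.frw PT.R) nl RvT (SMap.evl cT tlT PT.vx ringF) [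
  .mk 41 3 12 [0x4000000, 0x400, 0x10000000, 0x1000, 0x1, 0xffffffffbfffffffffffffffffffffffffffffffffffffffffffffffffffffffffffffffffffffffffffffffffffffffffffffff],
  .mk 41 3 12 [0x4000000, 0x1000, 0x7ffffffeffffff]] = true := by
  decide +kernel

theorem t2 : runX PT.R (Wk.frw PT.R) nl RvT (SMap.evl cT tlT PT.vx ringF) [
  .mk 41 3 12 [0x4000000, 0x1000, 0x1000000, 0x3]] = true := by
  decide +kernel

theorem t3 : runX PT.R (Wk.frw PT.R) nl RvT (SMap.evl cT tlT PT.vx ringF) [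
  .mk 41 3 12 [0x4000000, 0x1000, 0x1000000, 0x3fffffffc]] = true := by
  decide +kernel

theorem t4 : runX PT.R (Wk.frw PT.R) nl RvT (SMap.evl cT tlT PT.vx ringF) [
  .mk 41 3 12 [0x10000000, 0xcf]] = true := by
  decide +kernel

theorem t5 : runX PT.R (Wk.frw PT.R) nl RvT (SMap.evl cT tlT PT.vx ringF) [
  .mk 41 3 12 [0x10000000, 0x7ffff30]] = true := by
  decide +kernel

theorem t6 : runX PT.R (Wk.frw PT.R) nl RvT (SMap.evl cT tlT PT.vx ringF) [
  .mk 41 3 12 [0x20000000, 0x7]] = true := by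
  decide +kernel

/-- The tasks. -/
noncomputable def P : List (List Tk) := [
[
  .mk 41 3 12 [0x4000000, 0x400, 0x10000000, 0x1000, 0xffffffffffffffffffffffffffffffffffffffffffffffffffffffffd1ffffffffffffe],
  .mk 41 3 12 [0x4000000, 0x400, 0x10000000, 0x1000, 0x1, 0x400000000000000000000000000000000000000000000000000000000000000000000000000000000000000000000000]],
[
  .mk 41 3 12 [0x4000000, 0x400, 0x10000000, 0x1000, 0x1, 0xffffffffbfffffffffffffffffffffffffffffffffffffffffffffffffffffffffffffffffffffffffffffffffffffffffffffff],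
  .mk 41 3 12 [0x4000000, 0x1000, 0x7ffffffeffffff]],
[
  .mk 41 3 12 [0x4000000, 0x1000, 0x1000000, 0x3]],
[
  .mk 41 3 12 [0x4000000, 0x1000, 0x1000000, 0x3fffffffc]],
[
  .mk 41 3 12 [0x10000000, 0xcf]],
[
  .mk 41 3 12 [0x10000000, 0x7ffff30]],
[
  .mk 41 3 12 [0x20000000, 0x7]]]

theorem run : RunAll (runX PT.R (Wk.frw PT.R) nl RvT (SMap.evl cT tlT PT.vx ringF)) P :=
  .cons t0 (.cons t1 (.cons t2 (.cons t3 (.cons t4 (.cons t5 (.cons t6 (.nil)))))))

end Pool.Agent.Lib.MP_5854e1_co.Cz.Sr374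

namespace Pool.Agent.Lib.MP_5854e1_co.Cz.Sr433

open PB

theorem t0 : runX PT.R (Wk.frw PT.R) nl RvT (SMap.evl cT tlT PT.vx ringF) [
  .mk 42 21 63 [0x800, 0x1f000cf]] = true := by
  decide +kernel

theorem t1 : runX PT.R (Wk.frw PT.R) nl RvT (SMap.evl cT tlT PT.vx ringF) [
  .mk 42 21 63 [0x800, 0x60fff30]] = true := by
  decide +kernel

theorem t2 : runX PT.R (Wk.frw PT.R) nl RvT (SMap.evl cT tlT PT.vx ringF) [
  .mk 42 21 63 [0x1000, 0x1f]] = true := by
  decide +kernel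

theorem t3 : runX PT.R (Wk.frw PT.R) nl RvT (SMap.evl cT tlT PT.vx ringF) [
  .mk 42 21 63 [0x1000, 0xffffbe0]] = true := by
  decide +kernel

theorem t4 : runX PT.R (Wk.frw PT.R) nl RvT (SMap.evl cT tlT PT.vx ringF) [
  .mk 42 21 63 [0x1000, 0x400, 0x7fedff],
  .mk 42 21 63 [0x1000, 0x400, 0x200, 0x8401]] = true := by
  decide +kernel

theorem t5 : runX PT.R (Wk.frw PT.R) nl RvT (SMap.evl cT tlT PT.vx ringF) [
  .mk 42 21 63 [0x1000, 0x400, 0x200, 0x200000000000000000000]] = true := by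
  decide +kernel

/-- The tasks. -/
noncomputable def P : List (List Tk) := [
[
  .mk 42 21 63 [0x800, 0x1f000cf]],
[
  .mk 42 21 63 [0x800, 0x60fff30]],
[
  .mk 42 21 63 [0x1000, 0x1f]],
[
  .mk 42 21 63 [0x1000, 0xffffbe0]],
[
  .mk 42 21 63 [0x1000, 0x400, 0x7fedff],
  .mk 42 21 63 [0x1000, 0x400, 0x200, 0x8401]],
[
  .mk 42 21 63 [0x1000, 0x400, 0x200, 0x200000000000000000000]]]

theorem run : RunAll (runX PT.R (Wk.frw PT.R) nl RvT (SMap.evl cT tlT PT.vx ringF)) P :=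
  .cons t0 (.cons t1 (.cons t2 (.cons t3 (.cons t4 (.cons t5 (.nil))))))

end Pool.Agent.Lib.MP_5854e1_co.Cz.Sr433
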