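import Pool.Agent.Lib.MP_5854e1_co.Cz.P
import Pool.Agent.Lib.MP_5854e1_co.Tkx
import Pool.Agent.Lib.MP_5854e1_co.RunAll

/-!
# Search, part 78
-/

set_option autoImplicit false
set_option deprecated.oldSectionVars true
set_option maxRecDepth 100000

namespace Pool.Agent.Lib.MP_5854e1_co.Cz.Sr078

open PB

theorem t0 : runX PT.R (Wk.frw PT.R) nl RvT (SMap.evl cT tlT PT.vx ringF) [
  .mk 0 144 88 [0x400000, 0x7e81ff],
  .mk 0 144 88 [0x800000, 0x7460200]] = true := by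
  decide +kernel

theorem t1 : runX PT.R (Wk.frw PT.R) nl RvT (SMap.evl cT tlT PT.vx ringF) [
  .mk 0 144 88 [0x800000, 0x3f8b9fdff],
  .mk 0 145 89 [],
  .mk 0 146 90 [],
  .mk 0 147 91 [],
  .mk 0 148 92 [],
  .mk 0 149 93 [],
  .mk 0 150 94 [],
  .mk 0 151 95 [],
  .mk 0 152 96 [],
  .mk 0 153 97 [],
  .mk 0 154 98 [],
  .mk 0 155 99 [],
  .mk 0 156 100 [],
  .mk 0 233 0 [],
  .mk 0 234 1 [],
  .mk 0 235 7 [],
  .mk 0 236 15 [],
  .mk 0 239 0 [],
  .mk 0 240 1 [],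
  .mk 0 241 7 [],
  .mk 0 242 15 [],
  .mk 0 245 0 [],
  .mk 0 246 1 [],
  .mk 0 247 7 [],
  .mk 0 248 15 [],
  .mk 0 249 20 [],
  .mk 0 250 28 []] = true := by
  decide +kernel

theorem t2 : runX PT.R (Wk.frw PT.R) nl RvT (SMap.evl cT tlT PT.vx ringF) [
  .mk 0 257 0 [0x10000000000000000000000]] = true := by
  decide +kernel

theorem t3 : runX PT.R (Wk.frw PT.R) nl RvT (SMap.evl cT tlT PT.vx ringF) [
  .mk 0 257 0 [0xfffffffffffffffffffffffffffffffffffffffffffffffffffffffffffffffffffffffffffffffffeffffffffffffffffffffff],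
  .mk 0 258 1 [],
  .mk 0 259 7 [],
  .mk 0 260 15 [],
  .mk 0 263 0 [],
  .mk 0 264 1 []] = true := by
  decide +kernel

theorem t4 : runX PT.R (Wk.frw PT.R) nl RvT (SMap.evl cT tlT PT.vx ringF) [
  .mk 0 265 7 [0x2c]] = true := by
  decide +kernel

theorem t5 : runX PT.R (Wk.frw PT.R) nl RvT (SMap.evl cT tlT PT.vx ringF) [
  .mk 0 265 7 [0xfffffffffffffffffffffffffffffffffffffffffffffffffffffffffffffffffffffd3],
  .mk 0 266 15 [],
  .mk 0 269 0 [],
  .mk 0 270 1 [],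
  .mk 0 271 7 [],
  .mk 0 272 15 [],
  .mk 0 273 20 [],
  .mk 0 274 28 []] = true := by
  decide +kernel

theorem t6 : runX PT.R (Wk.frw PT.R) nl RvT (SMap.evl cT tlT PT.vx ringF) [
  .mk 0 281 0 [0x30000000000000000000000]] = true := by
  decide +kernel

/-- The tasks. -/
noncomputable def P : List (List Tk) := [
[
  .mk 0 144 88 [0x400000, 0x7e81ff],
  .mk 0 144 88 [0x800000, 0x7460200]],
[
  .mk 0 144 88 [0x800000, 0x3f8b9fdff],
  .mk 0 145 89 [],
  .mk 0 146 90 [],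
  .mk 0 147 91 [],
  .mk 0 148 92 [],
  .mk 0 149 93 [],
  .mk 0 150 94 [],
  .mk 0 151 95 [],
  .mk 0 152 96 [],
  .mk 0 153 97 [],
  .mk 0 154 98 [],
  .mk 0 155 99 [],
  .mk 0 156 100 [],
  .mk 0 233 0 [],
  .mk 0 234 1 [],
  .mk 0 235 7 [],
  .mk 0 236 15 [],
  .mk 0 239 0 [],
  .mk 0 240 1 [],
  .mk 0 241 7 [],
  .mk 0 242 15 [],
  .mk 0 245 0 [],
  .mk 0 246 1 [],
  .mk 0 247 7 [],
  .mk 0 248 15 [],
  .mk 0 249 20 [],
  .mk 0 250 28 []],
[
  .mk 0 257 0 [0x10000000000000000000000]],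
[
  .mk 0 257 0 [0xfffffffffffffffffffffffffffffffffffffffffffffffffffffffffffffffffffffffffffffffffeffffffffffffffffffffff],
  .mk 0 258 1 [],
  .mk 0 259 7 [],
  .mk 0 260 15 [],
  .mk 0 263 0 [],
  .mk 0 264 1 []],
[
  .mk 0 265 7 [0x2c]],
[
  .mk 0 265 7 [0xfffffffffffffffffffffffffffffffffffffffffffffffffffffffffffffffffffffd3],
  .mk 0 266 15 [],
  .mk 0 269 0 [],
  .mk 0 270 1 [],
  .mk 0 271 7 [],
  .mk 0 272 15 [],
  .mk 0 273 20 [],
  .mk 0 274 28 []],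
[
  .mk 0 281 0 [0x30000000000000000000000]]]

theorem run : RunAll (runX PT.R (Wk.frw PT.R) nl RvT (SMap.evl cT tlT PT.vx ringF)) P :=
  .cons t0 (.cons t1 (.cons t2 (.cons t3 (.cons t4 (.cons t5 (.cons t6 (.nil)))))))

end Pool.Agent.Lib.MP_5854e1_co.Cz.Sr078

namespace Pool.Agent.Lib.MP_5854e1_co.Cz.Sr137

open PB

theorem t0 : runX PT.R (Wk.frw PT.R) nl RvT (SMap.evl cT tlT PT.vx ringF) [
  .mk 7 28 68 [0x200, 0x20000000000000000000000000000000000000000000000]] = true := by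
  decide +kernel

theorem t1 : runX PT.R (Wk.frw PT.R) nl RvT (SMap.evl cT tlT PT.vx ringF) [
  .mk 7 28 68 [0x200, 0xfffffffffffffffffffffffffffffffffffffffffffffffffffffffff4ffffffffffffffffffffffffffffffffffffffffffffff]] = true := by
  decide +kernel

theorem t2 : runX PT.R (Wk.frw PT.R) nl RvT (SMap.evl cT tlT PT.vx ringF) [
  .mk 7 28 68 [0x200, 0x80000000000000000000000000000000000000000000000, 0x3ff]] = true := by
  decide +kernel

theorem t3 : runX PT.R (Wk.frw PT.R) nl RvT (SMap.evl cT tlT PT.vx ringF) [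
  .mk 7 28 68 [0x200, 0x80000000000000000000000000000000000000000000000, 0xffffc00]] = true := by
  decide +kernel

theorem t4 : runX PT.R (Wk.frw PT.R) nl RvT (SMap.evl cT tlT PT.vx ringF) [
  .mk 7 28 68 [0x800, 0x1af]] = true := by
  decide +kernel

theorem t5 : runX PT.R (Wk.frw PT.R) nl RvT (SMap.evl cT tlT PT.vx ringF) [
  .mk 7 28 68 [0x800, 0x1e00]] = true := by
  decide +kernel

theorem t6 : runX PT.R (Wk.frw PT.R) nl RvT (SMap.evl cT tlT PT.vx ringF) [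
  .mk 7 28 68 [0x800, 0xfffffe050]] = true := by
  decide +kernel

/-- The tasks. -/
noncomputable def P : List (List Tk) := [
[
  .mk 7 28 68 [0x200, 0x20000000000000000000000000000000000000000000000]],
[
  .mk 7 28 68 [0x200, 0xfffffffffffffffffffffffffffffffffffffffffffffffffffffffff4ffffffffffffffffffffffffffffffffffffffffffffff]],
[
  .mk 7 28 68 [0x200, 0x80000000000000000000000000000000000000000000000, 0x3ff]],
[
  .mk 7 28 68 [0x200, 0x80000000000000000000000000000000000000000000000, 0xffffc00]],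
[
  .mk 7 28 68 [0x800, 0x1af]],
[
  .mk 7 28 68 [0x800, 0x1e00]],
[
  .mk 7 28 68 [0x800, 0xfffffe050]]]

theorem run : RunAll (runX PT.R (Wk.frw PT.R) nl RvT (SMap.evl cT tlT PT.vx ringF)) P :=
  .cons t0 (.cons t1 (.cons t2 (.cons t3 (.cons t4 (.cons t5 (.cons t6 (.nil)))))))

end Pool.Agent.Lib.MP_5854e1_co.Cz.Sr137

namespace Pool.Agent.Lib.MP_5854e1_co.Cz.Sr205

open PB

theorem t0 : runX PT.R (Wk.frw PT.R) nl RvT (SMap.evl cT tlT PT.vx ringF) [
  .mk 8 14 49 [0x4, 0x200, 0xf000000000000000000000000000]] = true := by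
  decide +kernel

theorem t1 : runX PT.R (Wk.frw PT.R) nl RvT (SMap.evl cT tlT PT.vx ringF) [
  .mk 8 14 49 [0x4, 0x200, 0xffffffffffffffffffffffffffffffffffffffffffffffffffffffffffffffffffffffffffff03f71f7dfffffffffffffffd7bfe]] = true := by
  decide +kernel

theorem t2 : runX PT.R (Wk.frw PT.R) nl RvT (SMap.evl cT tlT PT.vx ringF) [
  .mk 8 14 49 [0x4, 0x2000, 0x393]] = true := by
  decide +kernel

theorem t3 : runX PT.R (Wk.frw PT.R) nl RvT (SMap.evl cT tlT PT.vx ringF) [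
  .mk 8 14 49 [0x4, 0x2000, 0xffffffc6c]] = true := by
  decide +kernel

theorem t4 : runX PT.R (Wk.frw PT.R) nl RvT (SMap.evl cT tlT PT.vx ringF) [
  .mk 8 14 49 [0x8, 0x3be0033]] = true := by
  decide +kernel

theorem t5 : runX PT.R (Wk.frw PT.R) nl RvT (SMap.evl cT tlT PT.vx ringF) [
  .mk 8 14 49 [0x8, 0x18000000]] = true := by
  decide +kernel

/-- The tasks. -/
noncomputable def P : List (List Tk) := [
[
  .mk 8 14 49 [0x4, 0x200, 0xf000000000000000000000000000]],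
[
  .mk 8 14 49 [0x4, 0x200, 0xffffffffffffffffffffffffffffffffffffffffffffffffffffffffffffffffffffffffffff03f71f7dfffffffffffffffd7bfe]],
[
  .mk 8 14 49 [0x4, 0x2000, 0x393]],
[
  .mk 8 14 49 [0x4, 0x2000, 0xffffffc6c]],
[
  .mk 8 14 49 [0x8, 0x3be0033]],
[
  .mk 8 14 49 [0x8, 0x18000000]]]

theorem run : RunAll (runX PT.R (Wk.frw PT.R) nl RvT (SMap.evl cT tlT PT.vx ringF)) P :=
  .cons t0 (.cons t1 (.cons t2 (.cons t3 (.cons t4 (.cons t5 (.nil))))))

end Pool.Agent.Lib.MP_5854e1_co.Cz.Sr205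

namespace Pool.Agent.Lib.MP_5854e1_co.Cz.Sr495

open PB

theorem t0 : runX PT.R (Wk.frw PT.R) nl RvT (SMap.evl cT tlT PT.vx ringF) [
  .mk 48 27 60 [0x400, 0x40000, 0x400000000000000000000000000000000000000000000000000000000000000000000000000000000000000000000000, 0x200000000000000000000, 0x1000000000000000000000000000, 0xfffffffff]] = true := by
  decide +kernel

theorem t1 : runX PT.R (Wk.frw PT.R) nl RvT (SMap.evl cT tlT PT.vx ringF) [
  .mk 48 27 60 [0x400, 0x80000000000, 0x1f]] = true := by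
  decide +kernel

theorem t2 : runX PT.R (Wk.frw PT.R) nl RvT (SMap.evl cT tlT PT.vx ringF) [
  .mk 48 27 60 [0x400, 0x80000000000, 0x60]] = true := by
  decide +kernel

theorem t3 : runX PT.R (Wk.frw PT.R) nl RvT (SMap.evl cT tlT PT.vx ringF) [
  .mk 48 27 60 [0x400, 0x80000000000, 0x1fff80]] = true := by
  decide +kernel

theorem t4 : runX PT.R (Wk.frw PT.R) nl RvT (SMap.evl cT tlT PT.vx ringF) [
  .mk 48 27 60 [0x400, 0x100000000000, 0x68b]] = true := by
  decide +kernel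

/-- The tasks. -/
noncomputable def P : List (List Tk) := [
[
  .mk 48 27 60 [0x400, 0x40000, 0x400000000000000000000000000000000000000000000000000000000000000000000000000000000000000000000000, 0x200000000000000000000, 0x1000000000000000000000000000, 0xfffffffff]],
[
  .mk 48 27 60 [0x400, 0x80000000000, 0x1f]],
[
  .mk 48 27 60 [0x400, 0x80000000000, 0x60]],
[
  .mk 48 27 60 [0x400, 0x80000000000, 0x1fff80]],
[
  .mk 48 27 60 [0x400, 0x100000000000, 0x68b]]]

theorem run : RunAll (runX PT.R (Wk.frw PT.R) nl RvT (SMap.evl cT tlT PT.vx ringF)) P :=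
  .cons t0 (.cons t1 (.cons t2 (.cons t3 (.cons t4 (.nil)))))

end Pool.Agent.Lib.MP_5854e1_co.Cz.Sr495

namespace Pool.Agent.Lib.MP_5854e1_co.Cz.Sr508

open PB

theorem t0 : runX PT.R (Wk.frw PT.R) nl RvT (SMap.evl cT tlT PT.vx ringF) [
  .mk 63 2 26 [0x800, 0xffffffff8]] = true := by
  decide +kernel

theorem t1 : runX PT.R (Wk.frw PT.R) nl RvT (SMap.evl cT tlT PT.vx ringF) [
  .mk 63 3 27 [0x369001]] = true := by
  decide +kernel

theorem t2 : runX PT.R (Wk.frw PT.R) nl RvT (SMap.evl cT tlT PT.vx ringF) [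
  .mk 63 3 27 [0x3f0967fe]] = true := by
  decide +kernel

theorem t3 : runX PT.R (Wk.frw PT.R) nl RvT (SMap.evl cT tlT PT.vx ringF) [
  .mk 63 3 27 [0x800, 0x7]] = true := by
  decide +kernel

theorem t4 : runX PT.R (Wk.frw PT.R) nl RvT (SMap.evl cT tlT PT.vx ringF) [
  .mk 63 3 27 [0x800, 0x4458078]] = true := by
  decide +kernel

theorem t5 : runX PT.R (Wk.frw PT.R) nl RvT (SMap.evl cT tlT PT.vx ringF) [
  .mk 63 3 27 [0x800, 0xffbba7f80],
  .mk 63 3 27 [0x400000, 0x11531]] = true := by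
  decide +kernel

/-- The tasks. -/
noncomputable def P : List (List Tk) := [
[
  .mk 63 2 26 [0x800, 0xffffffff8]],
[
  .mk 63 3 27 [0x369001]],
[
  .mk 63 3 27 [0x3f0967fe]],
[
  .mk 63 3 27 [0x800, 0x7]],
[
  .mk 63 3 27 [0x800, 0x4458078]],
[
  .mk 63 3 27 [0x800, 0xffbba7f80],
  .mk 63 3 27 [0x400000, 0x11531]]]

theorem run : RunAll (runX PT.R (Wk.frw PT.R) nl RvT (SMap.evl cT tlT PT.vx ringF)) P :=
  .cons t0 (.cons t1 (.cons t2 (.cons t3 (.cons t4 (.cons t5 (.nil))))))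

end Pool.Agent.Lib.MP_5854e1_co.Cz.Sr508
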