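import Pool.Agent.Lib.MP_5854e1_co.Cz.P
import Pool.Agent.Lib.MP_5854e1_co.Tkx
import Pool.Agent.Lib.MP_5854e1_co.RunAll

/-!
# Search, part 97
-/

set_option autoImplicit false
set_option deprecated.oldSectionVars true
set_option maxRecDepth 100000

namespace Pool.Agent.Lib.MP_5854e1_co.Cz.Sr097

open PB

theorem t0 : runX PT.R (Wk.frw PT.R) nl RvT (SMap.evl cT tlT PT.vx ringF) [
  .mk 0 333 7 [0x140050000000000000000000000000000000000000000000000000000000000000000]] = true := by
  decide +kernel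

theorem t1 : runX PT.R (Wk.frw PT.R) nl RvT (SMap.evl cT tlT PT.vx ringF) [
  .mk 0 333 7 [0xffebffafc1fffffffffffffffffffffffffffffffffffffffebffffffffffffffffffff],
  .mk 0 334 15 []] = true := by
  decide +kernel

theorem t2 : runX PT.R (Wk.frw PT.R) nl RvT (SMap.evl cT tlT PT.vx ringF) [
  .mk 0 335 20 [0x1c00503e0000000000000000000000000000000000000000000000000000000]] = true := by
  decide +kernel

theorem t3 : runX PT.R (Wk.frw PT.R) nl RvT (SMap.evl cT tlT PT.vx ringF) [
  .mk 0 335 20 [0xffffffffe3ffafc1fffffffffffffffffffffffffffffffffffffffffffffffffffffff]] = true := by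
  decide +kernel

theorem t4 : runX PT.R (Wk.frw PT.R) nl RvT (SMap.evl cT tlT PT.vx ringF) [
  .mk 0 336 28 [0x1404d0160000000000000000000000000000000000000000000000000000000]] = true := by
  decide +kernel

theorem t5 : runX PT.R (Wk.frw PT.R) nl RvT (SMap.evl cT tlT PT.vx ringF) [
  .mk 0 336 28 [0xffffffffebfb2fe9fffffffffffffffffffffffffffffffffffffffffffffffffffffff],
  .mk 0 337 0 [],
  .mk 0 338 1 []] = true := by
  decide +kernel

/-- The tasks. -/
noncomputable def P : List (List Tk) := [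
[
  .mk 0 333 7 [0x140050000000000000000000000000000000000000000000000000000000000000000]],
[
  .mk 0 333 7 [0xffebffafc1fffffffffffffffffffffffffffffffffffffffebffffffffffffffffffff],
  .mk 0 334 15 []],
[
  .mk 0 335 20 [0x1c00503e0000000000000000000000000000000000000000000000000000000]],
[
  .mk 0 335 20 [0xffffffffe3ffafc1fffffffffffffffffffffffffffffffffffffffffffffffffffffff]],
[
  .mk 0 336 28 [0x1404d0160000000000000000000000000000000000000000000000000000000]],
[
  .mk 0 336 28 [0xffffffffebfb2fe9fffffffffffffffffffffffffffffffffffffffffffffffffffffff],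
  .mk 0 337 0 [],
  .mk 0 338 1 []]]

theorem run : RunAll (runX PT.R (Wk.frw PT.R) nl RvT (SMap.evl cT tlT PT.vx ringF)) P :=
  .cons t0 (.cons t1 (.cons t2 (.cons t3 (.cons t4 (.cons t5 (.nil))))))

end Pool.Agent.Lib.MP_5854e1_co.Cz.Sr097

namespace Pool.Agent.Lib.MP_5854e1_co.Cz.Sr449

open PB

theorem t0 : runX PT.R (Wk.frw PT.R) nl RvT (SMap.evl cT tlT PT.vx ringF) [
  .mk 43 15 56 [],
  .mk 43 16 57 [],
  .mk 43 17 58 []] = true := by
  decide +kernel

theorem t1 : runX PT.R (Wk.frw PT.R) nl RvT (SMap.evl cT tlT PT.vx ringF) [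
  .mk 43 18 59 []] = true := by
  decide +kernel

theorem t2 : runX PT.R (Wk.frw PT.R) nl RvT (SMap.evl cT tlT PT.vx ringF) [
  .mk 43 19 60 []] = true := by
  decide +kernel

theorem t3 : runX PT.R (Wk.frw PT.R) nl RvT (SMap.evl cT tlT PT.vx ringF) [
  .mk 43 20 0 [0x7600000000200000000000000000000]] = true := by
  decide +kernel

theorem t4 : runX PT.R (Wk.frw PT.R) nl RvT (SMap.evl cT tlT PT.vx ringF) [
  .mk 43 20 0 [0x30e8000000000000000000000000000000]] = true := by
  decide +kernel

theorem t5 : runX PT.R (Wk.frw PT.R) nl RvT (SMap.evl cT tlT PT.vx ringF) [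
  .mk 43 20 0 [0x7007c000000000000000000000000000000000]] = true := by
  decide +kernel

/-- The tasks. -/
noncomputable def P : List (List Tk) := [
[
  .mk 43 15 56 [],
  .mk 43 16 57 [],
  .mk 43 17 58 []],
[
  .mk 43 18 59 []],
[
  .mk 43 19 60 []],
[
  .mk 43 20 0 [0x7600000000200000000000000000000]],
[
  .mk 43 20 0 [0x30e8000000000000000000000000000000]],
[
  .mk 43 20 0 [0x7007c000000000000000000000000000000000]]]

theorem run : RunAll (runX PT.R (Wk.frw PT.R) nl RvT (SMap.evl cT tlT PT.vx ringF)) P :=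
  .cons t0 (.cons t1 (.cons t2 (.cons t3 (.cons t4 (.cons t5 (.nil))))))

end Pool.Agent.Lib.MP_5854e1_co.Cz.Sr449
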