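import Pool.Agent.Lib.MP_5854e1_co.Cz.P
import Pool.Agent.Lib.MP_5854e1_co.Tkx
import Pool.Agent.Lib.MP_5854e1_co.RunAll

/-!
# Search, part 114
-/

set_option autoImplicit false
set_option deprecated.oldSectionVars true
set_option maxRecDepth 100000

namespace Pool.Agent.Lib.MP_5854e1_co.Cz.Sr114

open PB

theorem t0 : runX PT.R (Wk.frw PT.R) nl RvT (SMap.evl cT tlT PT.vx ringF) [
  .mk 2 13 59 [0x800584c],
  .mk 2 13 59 [0x200, 0x1]] = true := by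
  decide +kernel

theorem t1 : runX PT.R (Wk.frw PT.R) nl RvT (SMap.evl cT tlT PT.vx ringF) [
  .mk 2 13 59 [0x200, 0xffffffffe]] = true := by
  decide +kernel

theorem t2 : runX PT.R (Wk.frw PT.R) nl RvT (SMap.evl cT tlT PT.vx ringF) [
  .mk 2 13 59 [0x800000, 0x13]] = true := by
  decide +kernel

theorem t3 : runX PT.R (Wk.frw PT.R) nl RvT (SMap.evl cT tlT PT.vx ringF) [
  .mk 2 13 59 [0x800000, 0xfffffffec]] = true := by
  decide +kernel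

theorem t4 : runX PT.R (Wk.frw PT.R) nl RvT (SMap.evl cT tlT PT.vx ringF) [
  .mk 2 14 60 [0x1]] = true := by
  decide +kernel

theorem t5 : runX PT.R (Wk.frw PT.R) nl RvT (SMap.evl cT tlT PT.vx ringF) [
  .mk 2 14 60 [0x4]] = true := by
  decide +kernel

theorem t6 : runX PT.R (Wk.frw PT.R) nl RvT (SMap.evl cT tlT PT.vx ringF) [
  .mk 2 14 60 [0x48]] = true := by
  decide +kernel

/-- The tasks. -/
noncomputable def P : List (List Tk) := [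
[
  .mk 2 13 59 [0x800584c],
  .mk 2 13 59 [0x200, 0x1]],
[
  .mk 2 13 59 [0x200, 0xffffffffe]],
[
  .mk 2 13 59 [0x800000, 0x13]],
[
  .mk 2 13 59 [0x800000, 0xfffffffec]],
[
  .mk 2 14 60 [0x1]],
[
  .mk 2 14 60 [0x4]],
[
  .mk 2 14 60 [0x48]]]

theorem run : RunAll (runX PT.R (Wk.frw PT.R) nl RvT (SMap.evl cT tlT PT.vx ringF)) P :=
  .cons t0 (.cons t1 (.cons t2 (.cons t3 (.cons t4 (.cons t5 (.cons t6 (.nil)))))))

end Pool.Agent.Lib.MP_5854e1_co.Cz.Sr114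

namespace Pool.Agent.Lib.MP_5854e1_co.Cz.Sr598

open PB

theorem t0 : runX PT.R (Wk.frw PT.R) nl RvT (SMap.evl cT tlT PT.vx ringF) [
  .mk 88 25 14 [0x400000, 0x1e05]] = true := by
  decide +kernel

theorem t1 : runX PT.R (Wk.frw PT.R) nl RvT (SMap.evl cT tlT PT.vx ringF) [
  .mk 88 25 14 [0x400000, 0x16000]] = true := by
  decide +kernel

theorem t2 : runX PT.R (Wk.frw PT.R) nl RvT (SMap.evl cT tlT PT.vx ringF) [
  .mk 88 25 14 [0x400000, 0x7e81fa]] = true := by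
  decide +kernel

theorem t3 : runX PT.R (Wk.frw PT.R) nl RvT (SMap.evl cT tlT PT.vx ringF) [
  .mk 88 25 14 [0x800000, 0x14f660301]] = true := by
  decide +kernel

theorem t4 : runX PT.R (Wk.frw PT.R) nl RvT (SMap.evl cT tlT PT.vx ringF) [
  .mk 88 25 14 [0x800000, 0x2b099fcfe],
  .mk 88 26 15 [],
  .mk 88 27 17 [],
  .mk 88 28 18 [],
  .mk 88 29 19 [],
  .mk 89 0 0 [],
  .mk 89 1 20 [],
  .mk 89 2 24 [],
  .mk 89 3 25 [],
  .mk 89 4 26 [],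
  .mk 89 5 27 [],
  .mk 89 6 28 [],
  .mk 89 7 30 [],
  .mk 89 8 32 [],
  .mk 89 9 50 [],
  .mk 89 10 51 [],
  .mk 89 11 52 [],
  .mk 89 12 53 [],
  .mk 89 13 54 [],
  .mk 89 14 55 [],
  .mk 89 15 56 [],
  .mk 89 16 57 [],
  .mk 89 17 58 [],
  .mk 89 18 59 [],
  .mk 89 19 60 [],
  .mk 89 20 0 [],
  .mk 89 21 7 []] = true := by
  decide +kernel

theorem t5 : runX PT.R (Wk.frw PT.R) nl RvT (SMap.evl cT tlT PT.vx ringF) [
  .mk 89 22 11 []] = true := by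
  decide +kernel

theorem t6 : runX PT.R (Wk.frw PT.R) nl RvT (SMap.evl cT tlT PT.vx ringF) [
  .mk 89 23 12 [],
  .mk 89 24 13 [],
  .mk 89 25 14 [],
  .mk 89 26 15 [],
  .mk 89 27 17 [],
  .mk 89 28 18 [],
  .mk 89 29 19 []] = true := by
  decide +kernel

/-- The tasks. -/
noncomputable def P : List (List Tk) := [
[
  .mk 88 25 14 [0x400000, 0x1e05]],
[
  .mk 88 25 14 [0x400000, 0x16000]],
[
  .mk 88 25 14 [0x400000, 0x7e81fa]],
[
  .mk 88 25 14 [0x800000, 0x14f660301]],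
[
  .mk 88 25 14 [0x800000, 0x2b099fcfe],
  .mk 88 26 15 [],
  .mk 88 27 17 [],
  .mk 88 28 18 [],
  .mk 88 29 19 [],
  .mk 89 0 0 [],
  .mk 89 1 20 [],
  .mk 89 2 24 [],
  .mk 89 3 25 [],
  .mk 89 4 26 [],
  .mk 89 5 27 [],
  .mk 89 6 28 [],
  .mk 89 7 30 [],
  .mk 89 8 32 [],
  .mk 89 9 50 [],
  .mk 89 10 51 [],
  .mk 89 11 52 [],
  .mk 89 12 53 [],
  .mk 89 13 54 [],
  .mk 89 14 55 [],
  .mk 89 15 56 [],
  .mk 89 16 57 [],
  .mk 89 17 58 [],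
  .mk 89 18 59 [],
  .mk 89 19 60 [],
  .mk 89 20 0 [],
  .mk 89 21 7 []],
[
  .mk 89 22 11 []],
[
  .mk 89 23 12 [],
  .mk 89 24 13 [],
  .mk 89 25 14 [],
  .mk 89 26 15 [],
  .mk 89 27 17 [],
  .mk 89 28 18 [],
  .mk 89 29 19 []]]

theorem run : RunAll (runX PT.R (Wk.frw PT.R) nl RvT (SMap.evl cT tlT PT.vx ringF)) P :=
  .cons t0 (.cons t1 (.cons t2 (.cons t3 (.cons t4 (.cons t5 (.cons t6 (.nil)))))))

end Pool.Agent.Lib.MP_5854e1_co.Cz.Sr598
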