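import Pool.Agent.Lib.MP_5854e1_co.Cz.P
import Pool.Agent.Lib.MP_5854e1_co.Tkx
import Pool.Agent.Lib.MP_5854e1_co.RunAll

/-!
# Search, part 131
-/

set_option autoImplicit false
set_option deprecated.oldSectionVars true
set_option maxRecDepth 100000

namespace Pool.Agent.Lib.MP_5854e1_co.Cz.Sr131

open PB

theorem t0 : runX PT.R (Wk.frw PT.R) nl RvT (SMap.evl cT tlT PT.vx ringF) [
  .mk 7 23 63 [0x4, 0x7f1f2],
  .mk 7 23 63 [0x8, 0x3e9e8d]] = true := by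
  decide +kernel

theorem t1 : runX PT.R (Wk.frw PT.R) nl RvT (SMap.evl cT tlT PT.vx ringF) [
  .mk 7 23 63 [0x8, 0x3f816172]] = true := by
  decide +kernel

theorem t2 : runX PT.R (Wk.frw PT.R) nl RvT (SMap.evl cT tlT PT.vx ringF) [
  .mk 7 23 63 [0x8, 0x400000, 0x3731]] = true := by
  decide +kernel

theorem t3 : runX PT.R (Wk.frw PT.R) nl RvT (SMap.evl cT tlT PT.vx ringF) [
  .mk 7 23 63 [0x8, 0x400000, 0x7fc8ce]] = true := by
  decide +kernel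

theorem t4 : runX PT.R (Wk.frw PT.R) nl RvT (SMap.evl cT tlT PT.vx ringF) [
  .mk 7 23 63 [0x80, 0x3dfe1]] = true := by
  decide +kernel

theorem t5 : runX PT.R (Wk.frw PT.R) nl RvT (SMap.evl cT tlT PT.vx ringF) [
  .mk 7 23 63 [0x80, 0xc201e]] = true := by
  decide +kernel

/-- The tasks. -/
noncomputable def P : List (List Tk) := [
[
  .mk 7 23 63 [0x4, 0x7f1f2],
  .mk 7 23 63 [0x8, 0x3e9e8d]],
[
  .mk 7 23 63 [0x8, 0x3f816172]],
[
  .mk 7 23 63 [0x8, 0x400000, 0x3731]],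
[
  .mk 7 23 63 [0x8, 0x400000, 0x7fc8ce]],
[
  .mk 7 23 63 [0x80, 0x3dfe1]],
[
  .mk 7 23 63 [0x80, 0xc201e]]]

theorem run : RunAll (runX PT.R (Wk.frw PT.R) nl RvT (SMap.evl cT tlT PT.vx ringF)) P :=
  .cons t0 (.cons t1 (.cons t2 (.cons t3 (.cons t4 (.cons t5 (.nil))))))

end Pool.Agent.Lib.MP_5854e1_co.Cz.Sr131

namespace Pool.Agent.Lib.MP_5854e1_co.Cz.Sr132

open PB

theorem t0 : runX PT.R (Wk.frw PT.R) nl RvT (SMap.evl cT tlT PT.vx ringF) [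
  .mk 7 23 63 [0x200, 0x7]] = true := by
  decide +kernel

theorem t1 : runX PT.R (Wk.frw PT.R) nl RvT (SMap.evl cT tlT PT.vx ringF) [
  .mk 7 23 63 [0x200, 0x38]] = true := by
  decide +kernel

theorem t2 : runX PT.R (Wk.frw PT.R) nl RvT (SMap.evl cT tlT PT.vx ringF) [
  .mk 7 23 63 [0x200, 0x980]] = true := by
  decide +kernel

theorem t3 : runX PT.R (Wk.frw PT.R) nl RvT (SMap.evl cT tlT PT.vx ringF) [
  .mk 7 23 63 [0x200, 0x7000]] = true := by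
  decide +kernel

theorem t4 : runX PT.R (Wk.frw PT.R) nl RvT (SMap.evl cT tlT PT.vx ringF) [
  .mk 7 23 63 [0x200, 0xfffff8040]] = true := by
  decide +kernel

/-- The tasks. -/
noncomputable def P : List (List Tk) := [
[
  .mk 7 23 63 [0x200, 0x7]],
[
  .mk 7 23 63 [0x200, 0x38]],
[
  .mk 7 23 63 [0x200, 0x980]],
[
  .mk 7 23 63 [0x200, 0x7000]],
[
  .mk 7 23 63 [0x200, 0xfffff8040]]]

theorem run : RunAll (runX PT.R (Wk.frw PT.R) nl RvT (SMap.evl cT tlT PT.vx ringF)) P :=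
  .cons t0 (.cons t1 (.cons t2 (.cons t3 (.cons t4 (.nil)))))

end Pool.Agent.Lib.MP_5854e1_co.Cz.Sr132

namespace Pool.Agent.Lib.MP_5854e1_co.Cz.Sr181

open PB

theorem t0 : runX PT.R (Wk.frw PT.R) nl RvT (SMap.evl cT tlT PT.vx ringF) [
  .mk 8 3 12 [0x20000000, 0x400, 0x7fe974],
  .mk 8 4 15 [],
  .mk 8 5 17 [],
  .mk 8 6 18 [0x741]] = true := by
  decide +kernel

theorem t1 : runX PT.R (Wk.frw PT.R) nl RvT (SMap.evl cT tlT PT.vx ringF) [
  .mk 8 6 18 [0x7f8be]] = true := by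
  decide +kernel

theorem t2 : runX PT.R (Wk.frw PT.R) nl RvT (SMap.evl cT tlT PT.vx ringF) [
  .mk 8 7 39 [0x6fc01]] = true := by
  decide +kernel

theorem t3 : runX PT.R (Wk.frw PT.R) nl RvT (SMap.evl cT tlT PT.vx ringF) [
  .mk 8 7 39 [0x803fe]] = true := by
  decide +kernel

theorem t4 : runX PT.R (Wk.frw PT.R) nl RvT (SMap.evl cT tlT PT.vx ringF) [
  .mk 8 7 39 [0x10000, 0x13]] = true := by
  decide +kernel

theorem t5 : runX PT.R (Wk.frw PT.R) nl RvT (SMap.evl cT tlT PT.vx ringF) [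
  .mk 8 7 39 [0x10000, 0x9c0]] = true := by
  decide +kernel

theorem t6 : runX PT.R (Wk.frw PT.R) nl RvT (SMap.evl cT tlT PT.vx ringF) [
  .mk 8 7 39 [0x10000, 0x681c000]] = true := by
  decide +kernel

/-- The tasks. -/
noncomputable def P : List (List Tk) := [
[
  .mk 8 3 12 [0x20000000, 0x400, 0x7fe974],
  .mk 8 4 15 [],
  .mk 8 5 17 [],
  .mk 8 6 18 [0x741]],
[
  .mk 8 6 18 [0x7f8be]],
[
  .mk 8 7 39 [0x6fc01]],
[
  .mk 8 7 39 [0x803fe]],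
[
  .mk 8 7 39 [0x10000, 0x13]],
[
  .mk 8 7 39 [0x10000, 0x9c0]],
[
  .mk 8 7 39 [0x10000, 0x681c000]]]

theorem run : RunAll (runX PT.R (Wk.frw PT.R) nl RvT (SMap.evl cT tlT PT.vx ringF)) P :=
  .cons t0 (.cons t1 (.cons t2 (.cons t3 (.cons t4 (.cons t5 (.cons t6 (.nil)))))))

end Pool.Agent.Lib.MP_5854e1_co.Cz.Sr181
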