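import Pool.Agent.Lib.MP_5854e1_co.Cz.P
import Pool.Agent.Lib.MP_5854e1_co.Tkx
import Pool.Agent.Lib.MP_5854e1_co.RunAll

/-!
# Search, part 150
-/

set_option autoImplicit false
set_option deprecated.oldSectionVars true
set_option maxRecDepth 100000

namespace Pool.Agent.Lib.MP_5854e1_co.Cz.Sr150

open PB

theorem t0 : runX PT.R (Wk.frw PT.R) nl RvT (SMap.evl cT tlT PT.vx ringF) [
  .mk 7 28 68 [0x8000, 0x100000, 0x2000000000000000000000000000000000000000000000000, 0x7d2e80]] = true := by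
  decide +kernel

theorem t1 : runX PT.R (Wk.frw PT.R) nl RvT (SMap.evl cT tlT PT.vx ringF) [
  .mk 7 28 68 [0x8000, 0x200000, 0x1ffffffffc000000000000000000000000000000]] = true := by
  decide +kernel

theorem t2 : runX PT.R (Wk.frw PT.R) nl RvT (SMap.evl cT tlT PT.vx ringF) [
  .mk 7 28 68 [0x8000, 0x200000, 0xfffffffffffffffffffffffffffffffe000000003ffffffffffffffffffffffffffffff],
  .mk 7 28 68 [0x8000, 0x400000, 0x48b]] = true := by
  decide +kernel

theorem t3 : runX PT.R (Wk.frw PT.R) nl RvT (SMap.evl cT tlT PT.vx ringF) [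
  .mk 7 28 68 [0x8000, 0x400000, 0x1000]] = true := by
  decide +kernel

theorem t4 : runX PT.R (Wk.frw PT.R) nl RvT (SMap.evl cT tlT PT.vx ringF) [
  .mk 7 28 68 [0x8000, 0x400000, 0x14000]] = true := by
  decide +kernel

theorem t5 : runX PT.R (Wk.frw PT.R) nl RvT (SMap.evl cT tlT PT.vx ringF) [
  .mk 7 28 68 [0x8000, 0x400000, 0x20000]] = true := by
  decide +kernel

/-- The tasks. -/
noncomputable def P : List (List Tk) := [
[
  .mk 7 28 68 [0x8000, 0x100000, 0x2000000000000000000000000000000000000000000000000, 0x7d2e80]],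
[
  .mk 7 28 68 [0x8000, 0x200000, 0x1ffffffffc000000000000000000000000000000]],
[
  .mk 7 28 68 [0x8000, 0x200000, 0xfffffffffffffffffffffffffffffffe000000003ffffffffffffffffffffffffffffff],
  .mk 7 28 68 [0x8000, 0x400000, 0x48b]],
[
  .mk 7 28 68 [0x8000, 0x400000, 0x1000]],
[
  .mk 7 28 68 [0x8000, 0x400000, 0x14000]],
[
  .mk 7 28 68 [0x8000, 0x400000, 0x20000]]]

theorem run : RunAll (runX PT.R (Wk.frw PT.R) nl RvT (SMap.evl cT tlT PT.vx ringF)) P :=
  .cons t0 (.cons t1 (.cons t2 (.cons t3 (.cons t4 (.cons t5 (.nil))))))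

end Pool.Agent.Lib.MP_5854e1_co.Cz.Sr150

namespace Pool.Agent.Lib.MP_5854e1_co.Cz.Sr194

open PB

theorem t0 : runX PT.R (Wk.frw PT.R) nl RvT (SMap.evl cT tlT PT.vx ringF) [
  .mk 8 10 42 [0x200000, 0x1, 0x40000000000000000000000000000000000000000000000000000000000000000000000000000000000000000000000000000, 0x13000000000000000000000000000]] = true := by
  decide +kernel

theorem t1 : runX PT.R (Wk.frw PT.R) nl RvT (SMap.evl cT tlT PT.vx ringF) [
  .mk 8 10 42 [0x200000, 0x1, 0x40000000000000000000000000000000000000000000000000000000000000000000000000000000000000000000000000000, 0xfffffffffffffffffffffffffffffffffffffffffffffffffffffffffffffffffffffffffffec3ff7f7dfffffffffffffffd7bfe]] = true := by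
  decide +kernel

theorem t2 : runX PT.R (Wk.frw PT.R) nl RvT (SMap.evl cT tlT PT.vx ringF) [
  .mk 8 10 42 [0x200000, 0x2, 0x3fff00000000000000000000003fffff4000000000000000000000000000000000000]] = true := by
  decide +kernel

theorem t3 : runX PT.R (Wk.frw PT.R) nl RvT (SMap.evl cT tlT PT.vx ringF) [
  .mk 8 10 42 [0x200000, 0x2, 0xffc000ffffffffffffffffffffffc00000bffffffffffffffffffffffffffffffffffff],
  .mk 8 10 42 [0x200000, 0x80, 0x3c803]] = true := by
  decide +kernel

theorem t4 : runX PT.R (Wk.frw PT.R) nl RvT (SMap.evl cT tlT PT.vx ringF) [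
  .mk 8 10 42 [0x200000, 0x80, 0xc33fc]] = true := by
  decide +kernel

theorem t5 : runX PT.R (Wk.frw PT.R) nl RvT (SMap.evl cT tlT PT.vx ringF) [
  .mk 8 10 42 [0x200000, 0x80, 0x400, 0x12c0f8000000000000000000000000000000000000000000000000000000000f0000000000001]] = true := by
  decide +kernel

/-- The tasks. -/
noncomputable def P : List (List Tk) := [
[
  .mk 8 10 42 [0x200000, 0x1, 0x40000000000000000000000000000000000000000000000000000000000000000000000000000000000000000000000000000, 0x13000000000000000000000000000]],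
[
  .mk 8 10 42 [0x200000, 0x1, 0x40000000000000000000000000000000000000000000000000000000000000000000000000000000000000000000000000000, 0xfffffffffffffffffffffffffffffffffffffffffffffffffffffffffffffffffffffffffffec3ff7f7dfffffffffffffffd7bfe]],
[
  .mk 8 10 42 [0x200000, 0x2, 0x3fff00000000000000000000003fffff4000000000000000000000000000000000000]],
[
  .mk 8 10 42 [0x200000, 0x2, 0xffc000ffffffffffffffffffffffc00000bffffffffffffffffffffffffffffffffffff],
  .mk 8 10 42 [0x200000, 0x80, 0x3c803]],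
[
  .mk 8 10 42 [0x200000, 0x80, 0xc33fc]],
[
  .mk 8 10 42 [0x200000, 0x80, 0x400, 0x12c0f8000000000000000000000000000000000000000000000000000000000f0000000000001]]]

theorem run : RunAll (runX PT.R (Wk.frw PT.R) nl RvT (SMap.evl cT tlT PT.vx ringF)) P :=
  .cons t0 (.cons t1 (.cons t2 (.cons t3 (.cons t4 (.cons t5 (.nil))))))

end Pool.Agent.Lib.MP_5854e1_co.Cz.Sr194

namespace Pool.Agent.Lib.MP_5854e1_co.Cz.Sr515

open PB

theorem t0 : runX PT.R (Wk.frw PT.R) nl RvT (SMap.evl cT tlT PT.vx ringF) [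
  .mk 63 9 52 [0x200, 0x1, 0xfffffffffffffffffffffffffffffffffffffffffffffffffc7ff001ffffffffdfffffffffffffffffffffffffffffffffffffff],
  .mk 63 9 52 [0x200, 0x4, 0x48b]] = true := by
  decide +kernel

theorem t1 : runX PT.R (Wk.frw PT.R) nl RvT (SMap.evl cT tlT PT.vx ringF) [
  .mk 63 9 52 [0x200, 0x4, 0x4000]] = true := by
  decide +kernel

theorem t2 : runX PT.R (Wk.frw PT.R) nl RvT (SMap.evl cT tlT PT.vx ringF) [
  .mk 63 9 52 [0x200, 0x4, 0xb0000]] = true := by
  decide +kernel

theorem t3 : runX PT.R (Wk.frw PT.R) nl RvT (SMap.evl cT tlT PT.vx ringF) [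
  .mk 63 9 52 [0x200, 0x4, 0x708974]] = true := by
  decide +kernel

theorem t4 : runX PT.R (Wk.frw PT.R) nl RvT (SMap.evl cT tlT PT.vx ringF) [
  .mk 63 9 52 [0x200, 0x4, 0x200, 0x1800808000000000000000028401]] = true := by
  decide +kernel

theorem t5 : runX PT.R (Wk.frw PT.R) nl RvT (SMap.evl cT tlT PT.vx ringF) [
  .mk 63 9 52 [0x200, 0x4, 0x200, 0xffffffffffffffffffffffffffffffffffffffffffffffffffffffffffffffffffffffffffffe3ff7f7dfffffffffffffffd7bfe]] = true := by
  decide +kernel

/-- The tasks. -/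
noncomputable def P : List (List Tk) := [
[
  .mk 63 9 52 [0x200, 0x1, 0xfffffffffffffffffffffffffffffffffffffffffffffffffc7ff001ffffffffdfffffffffffffffffffffffffffffffffffffff],
  .mk 63 9 52 [0x200, 0x4, 0x48b]],
[
  .mk 63 9 52 [0x200, 0x4, 0x4000]],
[
  .mk 63 9 52 [0x200, 0x4, 0xb0000]],
[
  .mk 63 9 52 [0x200, 0x4, 0x708974]],
[
  .mk 63 9 52 [0x200, 0x4, 0x200, 0x1800808000000000000000028401]],
[
  .mk 63 9 52 [0x200, 0x4, 0x200, 0xffffffffffffffffffffffffffffffffffffffffffffffffffffffffffffffffffffffffffffe3ff7f7dfffffffffffffffd7bfe]]]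

theorem run : RunAll (runX PT.R (Wk.frw PT.R) nl RvT (SMap.evl cT tlT PT.vx ringF)) P :=
  .cons t0 (.cons t1 (.cons t2 (.cons t3 (.cons t4 (.cons t5 (.nil))))))

end Pool.Agent.Lib.MP_5854e1_co.Cz.Sr515
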