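import Pool.Agent.Lib.MP_5854e1_co.Cz.P
import Pool.Agent.Lib.MP_5854e1_co.Tkx
import Pool.Agent.Lib.MP_5854e1_co.RunAll

/-!
# Search, part 191
-/

set_option autoImplicit false
set_option deprecated.oldSectionVars true
set_option maxRecDepth 100000

namespace Pool.Agent.Lib.MP_5854e1_co.Cz.Sr191

open PB

theorem t0 : runX PT.R (Wk.frw PT.R) nl RvT (SMap.evl cT tlT PT.vx ringF) [
  .mk 8 10 42 [0x40000, 0x1d00f000000000000000000000000000000000000000000000000000000000000000000000000000000000000000000000000]] = true := by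
  decide +kernel

theorem t1 : runX PT.R (Wk.frw PT.R) nl RvT (SMap.evl cT tlT PT.vx ringF) [
  .mk 8 10 42 [0x40000, 0xfffe2ff03e17fffffffffff2ff0bfc0fddffffffb0827dffffffffffffffffffffffffffffffffffffffffffffffffffffffffff],
  .mk 8 10 42 [0x40000, 0x100000000000000000000000000000000000000000000000000000000000000000000000000000000, 0x38200000000000000000000]] = true := by
  decide +kernel

theorem t2 : runX PT.R (Wk.frw PT.R) nl RvT (SMap.evl cT tlT PT.vx ringF) [
  .mk 8 10 42 [0x40000, 0x100000000000000000000000000000000000000000000000000000000000000000000000000000000, 0xfffffffffffffffffffffffffffffffffffffffffffffffffffffffffffffffffffffffffffffffffc7dffffffffffffffffffff]] = true := by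
  decide +kernel

theorem t3 : runX PT.R (Wk.frw PT.R) nl RvT (SMap.evl cT tlT PT.vx ringF) [
  .mk 8 10 42 [0x200000, 0x2130]] = true := by
  decide +kernel

theorem t4 : runX PT.R (Wk.frw PT.R) nl RvT (SMap.evl cT tlT PT.vx ringF) [
  .mk 8 10 42 [0x200000, 0x8000]] = true := by
  decide +kernel

/-- The tasks. -/
noncomputable def P : List (List Tk) := [
[
  .mk 8 10 42 [0x40000, 0x1d00f000000000000000000000000000000000000000000000000000000000000000000000000000000000000000000000000]],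
[
  .mk 8 10 42 [0x40000, 0xfffe2ff03e17fffffffffff2ff0bfc0fddffffffb0827dffffffffffffffffffffffffffffffffffffffffffffffffffffffffff],
  .mk 8 10 42 [0x40000, 0x100000000000000000000000000000000000000000000000000000000000000000000000000000000, 0x38200000000000000000000]],
[
  .mk 8 10 42 [0x40000, 0x100000000000000000000000000000000000000000000000000000000000000000000000000000000, 0xfffffffffffffffffffffffffffffffffffffffffffffffffffffffffffffffffffffffffffffffffc7dffffffffffffffffffff]],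
[
  .mk 8 10 42 [0x200000, 0x2130]],
[
  .mk 8 10 42 [0x200000, 0x8000]]]

theorem run : RunAll (runX PT.R (Wk.frw PT.R) nl RvT (SMap.evl cT tlT PT.vx ringF)) P :=
  .cons t0 (.cons t1 (.cons t2 (.cons t3 (.cons t4 (.nil)))))

end Pool.Agent.Lib.MP_5854e1_co.Cz.Sr191

namespace Pool.Agent.Lib.MP_5854e1_co.Cz.Sr237

open PB

theorem t0 : runX PT.R (Wk.frw PT.R) nl RvT (SMap.evl cT tlT PT.vx ringF) [
  .mk 11 11 3 [0x2000, 0x200, 0xffffffffe],
  .mk 11 11 3 [0x2000, 0x200, 0x1, 0xfffffffffffffffffffffffffffffffffffffffffffffffffffffffffffffffffffffffffffffffffffdffffffffffffffffffff],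
  .mk 11 11 3 [0x2000, 0x200, 0x1, 0x200000000000000000000, 0xffffffffffffffffffffffffffffffbfffffffffffffffffffffffffffffffffffffffffffffffffffffffffffffffffffffffff]] = true := by
  decide +kernel

theorem t1 : runX PT.R (Wk.frw PT.R) nl RvT (SMap.evl cT tlT PT.vx ringF) [
  .mk 11 11 3 [0x2000, 0x200, 0x1, 0x200000000000000000000, 0x40000000000000000000000000000000000000000000000000000000000000000000000000, 0xfffffffffffffffffffffffffffffffffffffffffffffffffffffffffffffffffffffff]] = true := by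
  decide +kernel

theorem t2 : runX PT.R (Wk.frw PT.R) nl RvT (SMap.evl cT tlT PT.vx ringF) [
  .mk 11 11 3 [0x4000, 0xf]] = true := by
  decide +kernel

theorem t3 : runX PT.R (Wk.frw PT.R) nl RvT (SMap.evl cT tlT PT.vx ringF) [
  .mk 11 11 3 [0x4000, 0xffffffff0]] = true := by
  decide +kernel

theorem t4 : runX PT.R (Wk.frw PT.R) nl RvT (SMap.evl cT tlT PT.vx ringF) [
  .mk 11 12 20 [0xd000000000000000000000000000001a0400000000000]] = true := by
  decide +kernel

/-- The tasks. -/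
noncomputable def P : List (List Tk) := [
[
  .mk 11 11 3 [0x2000, 0x200, 0xffffffffe],
  .mk 11 11 3 [0x2000, 0x200, 0x1, 0xfffffffffffffffffffffffffffffffffffffffffffffffffffffffffffffffffffffffffffffffffffdffffffffffffffffffff],
  .mk 11 11 3 [0x2000, 0x200, 0x1, 0x200000000000000000000, 0xffffffffffffffffffffffffffffffbfffffffffffffffffffffffffffffffffffffffffffffffffffffffffffffffffffffffff]],
[
  .mk 11 11 3 [0x2000, 0x200, 0x1, 0x200000000000000000000, 0x40000000000000000000000000000000000000000000000000000000000000000000000000, 0xfffffffffffffffffffffffffffffffffffffffffffffffffffffffffffffffffffffff]],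
[
  .mk 11 11 3 [0x4000, 0xf]],
[
  .mk 11 11 3 [0x4000, 0xffffffff0]],
[
  .mk 11 12 20 [0xd000000000000000000000000000001a0400000000000]]]

theorem run : RunAll (runX PT.R (Wk.frw PT.R) nl RvT (SMap.evl cT tlT PT.vx ringF)) P :=
  .cons t0 (.cons t1 (.cons t2 (.cons t3 (.cons t4 (.nil)))))

end Pool.Agent.Lib.MP_5854e1_co.Cz.Sr237

namespace Pool.Agent.Lib.MP_5854e1_co.Cz.Sr599

open PB

theorem t0 : runX PT.R (Wk.frw PT.R) nl RvT (SMap.evl cT tlT PT.vx ringF) [
  .mk 90 0 0 [],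
  .mk 90 1 1 [],
  .mk 90 2 4 [],
  .mk 90 3 5 [],
  .mk 90 4 6 [],
  .mk 90 5 33 [],
  .mk 90 6 34 []] = true := by
  decide +kernel

theorem t1 : runX PT.R (Wk.frw PT.R) nl RvT (SMap.evl cT tlT PT.vx ringF) [
  .mk 90 7 35 [],
  .mk 90 8 36 [],
  .mk 90 9 37 []] = true := by
  decide +kernel

theorem t2 : runX PT.R (Wk.frw PT.R) nl RvT (SMap.evl cT tlT PT.vx ringF) [
  .mk 90 10 38 [],
  .mk 90 11 0 [],
  .mk 90 12 1 [],
  .mk 90 13 4 [],
  .mk 90 14 5 [],
  .mk 90 15 6 [],
  .mk 91 0 0 [],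
  .mk 91 1 1 [],
  .mk 91 2 2 [],
  .mk 91 3 7 [],
  .mk 91 4 8 [],
  .mk 91 5 9 []] = true := by
  decide +kernel

theorem t3 : runX PT.R (Wk.frw PT.R) nl RvT (SMap.evl cT tlT PT.vx ringF) [
  .mk 91 6 10 [],
  .mk 91 7 15 [],
  .mk 91 8 16 [],
  .mk 91 9 0 [],
  .mk 91 10 1 [],
  .mk 91 11 3 [],
  .mk 91 12 20 [],
  .mk 91 13 28 [],
  .mk 91 14 0 [],
  .mk 91 15 7 [],
  .mk 91 16 15 [],
  .mk 91 17 20 [],
  .mk 91 18 28 []] = true := by
  decide +kernel

/-- The tasks. -/
noncomputable def P : List (List Tk) := [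
[
  .mk 90 0 0 [],
  .mk 90 1 1 [],
  .mk 90 2 4 [],
  .mk 90 3 5 [],
  .mk 90 4 6 [],
  .mk 90 5 33 [],
  .mk 90 6 34 []],
[
  .mk 90 7 35 [],
  .mk 90 8 36 [],
  .mk 90 9 37 []],
[
  .mk 90 10 38 [],
  .mk 90 11 0 [],
  .mk 90 12 1 [],
  .mk 90 13 4 [],
  .mk 90 14 5 [],
  .mk 90 15 6 [],
  .mk 91 0 0 [],
  .mk 91 1 1 [],
  .mk 91 2 2 [],
  .mk 91 3 7 [],
  .mk 91 4 8 [],
  .mk 91 5 9 []],
[
  .mk 91 6 10 [],
  .mk 91 7 15 [],
  .mk 91 8 16 [],
  .mk 91 9 0 [],
  .mk 91 10 1 [],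
  .mk 91 11 3 [],
  .mk 91 12 20 [],
  .mk 91 13 28 [],
  .mk 91 14 0 [],
  .mk 91 15 7 [],
  .mk 91 16 15 [],
  .mk 91 17 20 [],
  .mk 91 18 28 []]]

theorem run : RunAll (runX PT.R (Wk.frw PT.R) nl RvT (SMap.evl cT tlT PT.vx ringF)) P :=
  .cons t0 (.cons t1 (.cons t2 (.cons t3 (.nil))))

end Pool.Agent.Lib.MP_5854e1_co.Cz.Sr599
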