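import Pool.Agent.Lib.MP_5854e1_co.Cz.P
import Pool.Agent.Lib.MP_5854e1_co.Tkx
import Pool.Agent.Lib.MP_5854e1_co.RunAll

/-!
# Search, part 207
-/

set_option autoImplicit false
set_option deprecated.oldSectionVars true
set_option maxRecDepth 100000

namespace Pool.Agent.Lib.MP_5854e1_co.Cz.Sr207

open PB

theorem t0 : runX PT.R (Wk.frw PT.R) nl RvT (SMap.evl cT tlT PT.vx ringF) [
  .mk 8 14 49 [0x200, 0x8000000, 0x200]] = true := by
  decide +kernel

theorem t1 : runX PT.R (Wk.frw PT.R) nl RvT (SMap.evl cT tlT PT.vx ringF) [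
  .mk 8 14 49 [0x200, 0x8000000, 0xffffffc6c],
  .mk 8 14 49 [0x200, 0x20000000, 0x7efffff]] = true := by
  decide +kernel

theorem t2 : runX PT.R (Wk.frw PT.R) nl RvT (SMap.evl cT tlT PT.vx ringF) [
  .mk 8 14 49 [0x200, 0x20000000, 0x100000, 0x200000000000000000000]] = true := by
  decide +kernel

theorem t3 : runX PT.R (Wk.frw PT.R) nl RvT (SMap.evl cT tlT PT.vx ringF) [
  .mk 8 14 49 [0x200, 0x20000000, 0x100000, 0xfffffffffffffffffffffffffffffffffffffffffffffffffffffffffffffffffffffffffffffffffffdffffffffffffffffffff]] = true := by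
  decide +kernel

theorem t4 : runX PT.R (Wk.frw PT.R) nl RvT (SMap.evl cT tlT PT.vx ringF) [
  .mk 8 14 49 [0x1000, 0x7fb4b]] = true := by
  decide +kernel

theorem t5 : runX PT.R (Wk.frw PT.R) nl RvT (SMap.evl cT tlT PT.vx ringF) [
  .mk 8 14 49 [0x1000, 0x1fe00380000]] = true := by
  decide +kernel

/-- The tasks. -/
noncomputable def P : List (List Tk) := [
[
  .mk 8 14 49 [0x200, 0x8000000, 0x200]],
[
  .mk 8 14 49 [0x200, 0x8000000, 0xffffffc6c],
  .mk 8 14 49 [0x200, 0x20000000, 0x7efffff]],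
[
  .mk 8 14 49 [0x200, 0x20000000, 0x100000, 0x200000000000000000000]],
[
  .mk 8 14 49 [0x200, 0x20000000, 0x100000, 0xfffffffffffffffffffffffffffffffffffffffffffffffffffffffffffffffffffffffffffffffffffdffffffffffffffffffff]],
[
  .mk 8 14 49 [0x1000, 0x7fb4b]],
[
  .mk 8 14 49 [0x1000, 0x1fe00380000]]]

theorem run : RunAll (runX PT.R (Wk.frw PT.R) nl RvT (SMap.evl cT tlT PT.vx ringF)) P :=
  .cons t0 (.cons t1 (.cons t2 (.cons t3 (.cons t4 (.cons t5 (.nil))))))

end Pool.Agent.Lib.MP_5854e1_co.Cz.Sr207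

namespace Pool.Agent.Lib.MP_5854e1_co.Cz.Sr293

open PB

theorem t0 : runX PT.R (Wk.frw PT.R) nl RvT (SMap.evl cT tlT PT.vx ringF) [
  .mk 12 29 55 [0x7c00000]] = true := by
  decide +kernel

theorem t1 : runX PT.R (Wk.frw PT.R) nl RvT (SMap.evl cT tlT PT.vx ringF) [
  .mk 12 29 55 [0x807f000],
  .mk 12 29 55 [0x1, 0x1ffffe0000000000000000000000000000000000000000000000000000000000]] = true := by
  decide +kernel

theorem t2 : runX PT.R (Wk.frw PT.R) nl RvT (SMap.evl cT tlT PT.vx ringF) [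
  .mk 12 29 55 [0x1, 0x1e0fc00000000000000001e000000000000000000000000000000000000000000000000000000000000000]] = true := by
  decide +kernel

theorem t3 : runX PT.R (Wk.frw PT.R) nl RvT (SMap.evl cT tlT PT.vx ringF) [
  .mk 12 29 55 [0x1, 0x60000000000000000000000000000000000000000000000000000000000000000000000000000000000000]] = true := by
  decide +kernel

theorem t4 : runX PT.R (Wk.frw PT.R) nl RvT (SMap.evl cT tlT PT.vx ringF) [
  .mk 12 29 55 [0x1, 0xffffffffffffffffff81f03ffffffffffffffffe000001ffffffffffffffffffffffffffffffffffffffffffffffffffffffffff]] = true := by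
  decide +kernel

theorem t5 : runX PT.R (Wk.frw PT.R) nl RvT (SMap.evl cT tlT PT.vx ringF) [
  .mk 12 29 55 [0x20, 0x1]] = true := by
  decide +kernel

/-- The tasks. -/
noncomputable def P : List (List Tk) := [
[
  .mk 12 29 55 [0x7c00000]],
[
  .mk 12 29 55 [0x807f000],
  .mk 12 29 55 [0x1, 0x1ffffe0000000000000000000000000000000000000000000000000000000000]],
[
  .mk 12 29 55 [0x1, 0x1e0fc00000000000000001e000000000000000000000000000000000000000000000000000000000000000]],
[
  .mk 12 29 55 [0x1, 0x60000000000000000000000000000000000000000000000000000000000000000000000000000000000000]],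
[
  .mk 12 29 55 [0x1, 0xffffffffffffffffff81f03ffffffffffffffffe000001ffffffffffffffffffffffffffffffffffffffffffffffffffffffffff]],
[
  .mk 12 29 55 [0x20, 0x1]]]

theorem run : RunAll (runX PT.R (Wk.frw PT.R) nl RvT (SMap.evl cT tlT PT.vx ringF)) P :=
  .cons t0 (.cons t1 (.cons t2 (.cons t3 (.cons t4 (.cons t5 (.nil))))))

end Pool.Agent.Lib.MP_5854e1_co.Cz.Sr293

namespace Pool.Agent.Lib.MP_5854e1_co.Cz.Sr365

open PB

theorem t0 : runX PT.R (Wk.frw PT.R) nl RvT (SMap.evl cT tlT PT.vx ringF) [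
  .mk 41 2 11 [0x2000, 0x400, 0x10000000, 0x400, 0x1, 0x800000000000000000000000000000000000000000000000000000000000000000]] = true := by
  decide +kernel

theorem t1 : runX PT.R (Wk.frw PT.R) nl RvT (SMap.evl cT tlT PT.vx ringF) [
  .mk 41 2 11 [0x2000, 0x400, 0x10000000, 0x400, 0x1, 0xffffffffffffffffffffffffffffffffffffff7fffffffffffffffffffffffffffffffffffffffffffffffffffffffffffffffff]] = true := by
  decide +kernel

theorem t2 : runX PT.R (Wk.frw PT.R) nl RvT (SMap.evl cT tlT PT.vx ringF) [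
  .mk 41 2 11 [0x2000, 0x400, 0x10000000, 0x1000, 0xfffffffffffffffffffffffffffffffffffffffffffffffffffffffff3ffffffffffffe]] = true := by
  decide +kernel

/-- The tasks. -/
noncomputable def P : List (List Tk) := [
[
  .mk 41 2 11 [0x2000, 0x400, 0x10000000, 0x400, 0x1, 0x800000000000000000000000000000000000000000000000000000000000000000]],
[
  .mk 41 2 11 [0x2000, 0x400, 0x10000000, 0x400, 0x1, 0xffffffffffffffffffffffffffffffffffffff7fffffffffffffffffffffffffffffffffffffffffffffffffffffffffffffffff]],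
[
  .mk 41 2 11 [0x2000, 0x400, 0x10000000, 0x1000, 0xfffffffffffffffffffffffffffffffffffffffffffffffffffffffff3ffffffffffffe]]]

theorem run : RunAll (runX PT.R (Wk.frw PT.R) nl RvT (SMap.evl cT tlT PT.vx ringF)) P :=
  .cons t0 (.cons t1 (.cons t2 (.nil)))

end Pool.Agent.Lib.MP_5854e1_co.Cz.Sr365
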