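import Pool.Agent.Lib.MP_5854e1_co.Cz.P
import Pool.Agent.Lib.MP_5854e1_co.Tkx
import Pool.Agent.Lib.MP_5854e1_co.RunAll

/-!
# Search, part 221
-/

set_option autoImplicit false
set_option deprecated.oldSectionVars true
set_option maxRecDepth 100000

namespace Pool.Agent.Lib.MP_5854e1_co.Cz.Sr221

open PB

theorem t0 : runX PT.R (Wk.frw PT.R) nl RvT (SMap.evl cT tlT PT.vx ringF) [
  .mk 9 26 95 [0x765]] = true := by
  decide +kernel

theorem t1 : runX PT.R (Wk.frw PT.R) nl RvT (SMap.evl cT tlT PT.vx ringF) [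
  .mk 9 26 95 [0x7f89a],
  .mk 9 27 96 [],
  .mk 9 28 97 [],
  .mk 9 29 98 [],
  .mk 9 30 99 [],
  .mk 9 31 100 []] = true := by
  decide +kernel

theorem t2 : runX PT.R (Wk.frw PT.R) nl RvT (SMap.evl cT tlT PT.vx ringF) [
  .mk 9 32 0 [0x88200000000000000000000000000000003a600000]] = true := by
  decide +kernel

theorem t3 : runX PT.R (Wk.frw PT.R) nl RvT (SMap.evl cT tlT PT.vx ringF) [
  .mk 9 32 0 [0xffffffffffffffffffffffffffffffffffffffffffffffffffffffff7effff77dfffffffffffffffffffffffffffffffc59fffff]] = true := by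
  decide +kernel

theorem t4 : runX PT.R (Wk.frw PT.R) nl RvT (SMap.evl cT tlT PT.vx ringF) [
  .mk 9 32 0 [0x10000000000000000000000000000000000000000000000, 0x1f198053]] = true := by
  decide +kernel

/-- The tasks. -/
noncomputable def P : List (List Tk) := [
[
  .mk 9 26 95 [0x765]],
[
  .mk 9 26 95 [0x7f89a],
  .mk 9 27 96 [],
  .mk 9 28 97 [],
  .mk 9 29 98 [],
  .mk 9 30 99 [],
  .mk 9 31 100 []],
[
  .mk 9 32 0 [0x88200000000000000000000000000000003a600000]],
[
  .mk 9 32 0 [0xffffffffffffffffffffffffffffffffffffffffffffffffffffffff7effff77dfffffffffffffffffffffffffffffffc59fffff]],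
[
  .mk 9 32 0 [0x10000000000000000000000000000000000000000000000, 0x1f198053]]]

theorem run : RunAll (runX PT.R (Wk.frw PT.R) nl RvT (SMap.evl cT tlT PT.vx ringF)) P :=
  .cons t0 (.cons t1 (.cons t2 (.cons t3 (.cons t4 (.nil)))))

end Pool.Agent.Lib.MP_5854e1_co.Cz.Sr221

namespace Pool.Agent.Lib.MP_5854e1_co.Cz.Sr453

open PB

theorem t0 : runX PT.R (Wk.frw PT.R) nl RvT (SMap.evl cT tlT PT.vx ringF) [
  .mk 43 23 12 [0x1000000, 0xc33fe]] = true := by
  decide +kernel

theorem t1 : runX PT.R (Wk.frw PT.R) nl RvT (SMap.evl cT tlT PT.vx ringF) [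
  .mk 43 24 15 [0xfc00800000000000000000023706023bbc000000000000000000000000000000]] = true := by
  decide +kernel

theorem t2 : runX PT.R (Wk.frw PT.R) nl RvT (SMap.evl cT tlT PT.vx ringF) [
  .mk 43 24 15 [0x3000000000000000000000000000000000000000000000000000000000000000000]] = true := by
  decide +kernel

theorem t3 : runX PT.R (Wk.frw PT.R) nl RvT (SMap.evl cT tlT PT.vx ringF) [
  .mk 43 24 15 [0xffffcff03ff7ffffffffffffffffffdc8f9fdc443ffffffffffffffffffffffffffffff]] = true := by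
  decide +kernel

theorem t4 : runX PT.R (Wk.frw PT.R) nl RvT (SMap.evl cT tlT PT.vx ringF) [
  .mk 43 25 17 []] = true := by
  decide +kernel

theorem t5 : runX PT.R (Wk.frw PT.R) nl RvT (SMap.evl cT tlT PT.vx ringF) [
  .mk 43 26 18 [0x7f7ff]] = true := by
  decide +kernel

/-- The tasks. -/
noncomputable def P : List (List Tk) := [
[
  .mk 43 23 12 [0x1000000, 0xc33fe]],
[
  .mk 43 24 15 [0xfc00800000000000000000023706023bbc000000000000000000000000000000]],
[
  .mk 43 24 15 [0x3000000000000000000000000000000000000000000000000000000000000000000]],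
[
  .mk 43 24 15 [0xffffcff03ff7ffffffffffffffffffdc8f9fdc443ffffffffffffffffffffffffffffff]],
[
  .mk 43 25 17 []],
[
  .mk 43 26 18 [0x7f7ff]]]

theorem run : RunAll (runX PT.R (Wk.frw PT.R) nl RvT (SMap.evl cT tlT PT.vx ringF)) P :=
  .cons t0 (.cons t1 (.cons t2 (.cons t3 (.cons t4 (.cons t5 (.nil))))))

end Pool.Agent.Lib.MP_5854e1_co.Cz.Sr453
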