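import Pool.Agent.Lib.MP_5854e1_co.Cz.P
import Pool.Agent.Lib.MP_5854e1_co.Tkx
import Pool.Agent.Lib.MP_5854e1_co.RunAll

/-!
# Search, part 247
-/

set_option autoImplicit false
set_option deprecated.oldSectionVars true
set_option maxRecDepth 100000

namespace Pool.Agent.Lib.MP_5854e1_co.Cz.Sr247

open PB

theorem t0 : runX PT.R (Wk.frw PT.R) nl RvT (SMap.evl cT tlT PT.vx ringF) [
  .mk 11 13 21 [0x400, 0x800000, 0x1, 0x200000000000000000000, 0x20000000000000000000000000000000000000000000000000000000000000000000, 0x2000000000000000000000000000000000000000]] = true := by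
  decide +kernel

theorem t1 : runX PT.R (Wk.frw PT.R) nl RvT (SMap.evl cT tlT PT.vx ringF) [
  .mk 11 13 21 [0x400, 0x800000, 0x1, 0x200000000000000000000, 0x20000000000000000000000000000000000000000000000000000000000000000000, 0xffffffffffffffffffffffffffffffffffffffffffffffffffffffffffffffffdfffffffffffffff7f79ffffffffffffffff7bbc],
  .mk 11 13 21 [0x400, 0x800000, 0x1, 0x200000000000000000000000000000000, 0x1fffdf],
  .mk 11 13 21 [0x400, 0x800000, 0x1, 0x200000000000000000000000000000000, 0x20, 0x808200000000000000028401]] = true := by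
  decide +kernel

theorem t2 : runX PT.R (Wk.frw PT.R) nl RvT (SMap.evl cT tlT PT.vx ringF) [
  .mk 11 13 21 [0x400, 0x800000, 0x1, 0x200000000000000000000000000000000, 0x20, 0xffffffffffffffffffffffffffffffffffffffffffffffffffffffffffffffffffffffffffffffff7f7dfffffffffffffffd7bfe]] = true := by
  decide +kernel

/-- The tasks. -/
noncomputable def P : List (List Tk) := [
[
  .mk 11 13 21 [0x400, 0x800000, 0x1, 0x200000000000000000000, 0x20000000000000000000000000000000000000000000000000000000000000000000, 0x2000000000000000000000000000000000000000]],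
[
  .mk 11 13 21 [0x400, 0x800000, 0x1, 0x200000000000000000000, 0x20000000000000000000000000000000000000000000000000000000000000000000, 0xffffffffffffffffffffffffffffffffffffffffffffffffffffffffffffffffdfffffffffffffff7f79ffffffffffffffff7bbc],
  .mk 11 13 21 [0x400, 0x800000, 0x1, 0x200000000000000000000000000000000, 0x1fffdf],
  .mk 11 13 21 [0x400, 0x800000, 0x1, 0x200000000000000000000000000000000, 0x20, 0x808200000000000000028401]],
[
  .mk 11 13 21 [0x400, 0x800000, 0x1, 0x200000000000000000000000000000000, 0x20, 0xffffffffffffffffffffffffffffffffffffffffffffffffffffffffffffffffffffffffffffffff7f7dfffffffffffffffd7bfe]]]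

theorem run : RunAll (runX PT.R (Wk.frw PT.R) nl RvT (SMap.evl cT tlT PT.vx ringF)) P :=
  .cons t0 (.cons t1 (.cons t2 (.nil)))

end Pool.Agent.Lib.MP_5854e1_co.Cz.Sr247

namespace Pool.Agent.Lib.MP_5854e1_co.Cz.Sr301

open PB

theorem t0 : runX PT.R (Wk.frw PT.R) nl RvT (SMap.evl cT tlT PT.vx ringF) [
  .mk 12 33 60 [0x400, 0x200000, 0x193]] = true := by
  decide +kernel

theorem t1 : runX PT.R (Wk.frw PT.R) nl RvT (SMap.evl cT tlT PT.vx ringF) [
  .mk 12 33 60 [0x400, 0x200000, 0x3fffffe6c],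
  .mk 13 0 0 [],
  .mk 13 1 1 [],
  .mk 13 2 3 [],
  .mk 13 3 20 [],
  .mk 13 4 21 [],
  .mk 13 5 22 []] = true := by
  decide +kernel

theorem t2 : runX PT.R (Wk.frw PT.R) nl RvT (SMap.evl cT tlT PT.vx ringF) [
  .mk 13 6 23 [],
  .mk 13 7 28 [],
  .mk 13 8 29 []] = true := by
  decide +kernel

theorem t3 : runX PT.R (Wk.frw PT.R) nl RvT (SMap.evl cT tlT PT.vx ringF) [
  .mk 13 9 0 [],
  .mk 13 10 1 [],
  .mk 13 11 2 [0x1d43]] = true := by
  decide +kernel

theorem t4 : runX PT.R (Wk.frw PT.R) nl RvT (SMap.evl cT tlT PT.vx ringF) [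
  .mk 13 11 2 [0x2000]] = true := by
  decide +kernel

theorem t5 : runX PT.R (Wk.frw PT.R) nl RvT (SMap.evl cT tlT PT.vx ringF) [
  .mk 13 11 2 [0xfffffc030]] = true := by
  decide +kernel

/-- The tasks. -/
noncomputable def P : List (List Tk) := [
[
  .mk 12 33 60 [0x400, 0x200000, 0x193]],
[
  .mk 12 33 60 [0x400, 0x200000, 0x3fffffe6c],
  .mk 13 0 0 [],
  .mk 13 1 1 [],
  .mk 13 2 3 [],
  .mk 13 3 20 [],
  .mk 13 4 21 [],
  .mk 13 5 22 []],
[
  .mk 13 6 23 [],
  .mk 13 7 28 [],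
  .mk 13 8 29 []],
[
  .mk 13 9 0 [],
  .mk 13 10 1 [],
  .mk 13 11 2 [0x1d43]],
[
  .mk 13 11 2 [0x2000]],
[
  .mk 13 11 2 [0xfffffc030]]]

theorem run : RunAll (runX PT.R (Wk.frw PT.R) nl RvT (SMap.evl cT tlT PT.vx ringF)) P :=
  .cons t0 (.cons t1 (.cons t2 (.cons t3 (.cons t4 (.cons t5 (.nil))))))

end Pool.Agent.Lib.MP_5854e1_co.Cz.Sr301

namespace Pool.Agent.Lib.MP_5854e1_co.Cz.Sr350

open PB

theorem t0 : runX PT.R (Wk.frw PT.R) nl RvT (SMap.evl cT tlT PT.vx ringF) [
  .mk 39 16 35 [0x200, 0xf80c67fac],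
  .mk 39 16 35 [0x200, 0x8000000, 0x193]] = true := by
  decide +kernel

theorem t1 : runX PT.R (Wk.frw PT.R) nl RvT (SMap.evl cT tlT PT.vx ringF) [
  .mk 39 16 35 [0x200, 0x8000000, 0xffffffe6c]] = true := by
  decide +kernel

theorem t2 : runX PT.R (Wk.frw PT.R) nl RvT (SMap.evl cT tlT PT.vx ringF) [
  .mk 39 16 35 [0x400, 0x1c00000000]] = true := by
  decide +kernel

theorem t3 : runX PT.R (Wk.frw PT.R) nl RvT (SMap.evl cT tlT PT.vx ringF) [
  .mk 39 16 35 [0x400, 0x7c000000000]] = true := by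
  decide +kernel

theorem t4 : runX PT.R (Wk.frw PT.R) nl RvT (SMap.evl cT tlT PT.vx ringF) [
  .mk 39 16 35 [0x400, 0x3f803fffbffff]] = true := by
  decide +kernel

theorem t5 : runX PT.R (Wk.frw PT.R) nl RvT (SMap.evl cT tlT PT.vx ringF) [
  .mk 39 16 35 [0x400, 0x40000, 0x3f07e0000000000000000000000000000000000000000000000000000000000000000000000]] = true := by
  decide +kernel

/-- The tasks. -/
noncomputable def P : List (List Tk) := [
[
  .mk 39 16 35 [0x200, 0xf80c67fac],
  .mk 39 16 35 [0x200, 0x8000000, 0x193]],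
[
  .mk 39 16 35 [0x200, 0x8000000, 0xffffffe6c]],
[
  .mk 39 16 35 [0x400, 0x1c00000000]],
[
  .mk 39 16 35 [0x400, 0x7c000000000]],
[
  .mk 39 16 35 [0x400, 0x3f803fffbffff]],
[
  .mk 39 16 35 [0x400, 0x40000, 0x3f07e0000000000000000000000000000000000000000000000000000000000000000000000]]]

theorem run : RunAll (runX PT.R (Wk.frw PT.R) nl RvT (SMap.evl cT tlT PT.vx ringF)) P :=
  .cons t0 (.cons t1 (.cons t2 (.cons t3 (.cons t4 (.cons t5 (.nil))))))

end Pool.Agent.Lib.MP_5854e1_co.Cz.Sr350
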