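import Pool.Agent.Lib.MP_5854e1_co.Cz.P
import Pool.Agent.Lib.MP_5854e1_co.Tkx
import Pool.Agent.Lib.MP_5854e1_co.RunAll

/-!
# Search, part 328
-/

set_option autoImplicit false
set_option deprecated.oldSectionVars true
set_option maxRecDepth 100000

namespace Pool.Agent.Lib.MP_5854e1_co.Cz.Sr328

open PB

theorem t0 : runX PT.R (Wk.frw PT.R) nl RvT (SMap.evl cT tlT PT.vx ringF) [
  .mk 33 8 37 [0xfffffe170],
  .mk 33 9 38 []] = true := by
  decide +kernel

theorem t1 : runX PT.R (Wk.frw PT.R) nl RvT (SMap.evl cT tlT PT.vx ringF) [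
  .mk 34 0 0 [],
  .mk 34 1 1 [],
  .mk 34 2 4 [],
  .mk 34 3 5 [],
  .mk 34 4 33 [],
  .mk 34 5 34 [],
  .mk 34 6 35 []] = true := by
  decide +kernel

theorem t2 : runX PT.R (Wk.frw PT.R) nl RvT (SMap.evl cT tlT PT.vx ringF) [
  .mk 34 7 36 []] = true := by
  decide +kernel

theorem t3 : runX PT.R (Wk.frw PT.R) nl RvT (SMap.evl cT tlT PT.vx ringF) [
  .mk 34 8 37 []] = true := by
  decide +kernel

theorem t4 : runX PT.R (Wk.frw PT.R) nl RvT (SMap.evl cT tlT PT.vx ringF) [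
  .mk 34 9 38 []] = true := by
  decide +kernel

theorem t5 : runX PT.R (Wk.frw PT.R) nl RvT (SMap.evl cT tlT PT.vx ringF) [
  .mk 35 0 0 [],
  .mk 35 1 7 []] = true := by
  decide +kernel

theorem t6 : runX PT.R (Wk.frw PT.R) nl RvT (SMap.evl cT tlT PT.vx ringF) [
  .mk 35 2 11 [0x5a00]] = true := by
  decide +kernel

/-- The tasks. -/
noncomputable def P : List (List Tk) := [
[
  .mk 33 8 37 [0xfffffe170],
  .mk 33 9 38 []],
[
  .mk 34 0 0 [],
  .mk 34 1 1 [],
  .mk 34 2 4 [],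
  .mk 34 3 5 [],
  .mk 34 4 33 [],
  .mk 34 5 34 [],
  .mk 34 6 35 []],
[
  .mk 34 7 36 []],
[
  .mk 34 8 37 []],
[
  .mk 34 9 38 []],
[
  .mk 35 0 0 [],
  .mk 35 1 7 []],
[
  .mk 35 2 11 [0x5a00]]]

theorem run : RunAll (runX PT.R (Wk.frw PT.R) nl RvT (SMap.evl cT tlT PT.vx ringF)) P :=
  .cons t0 (.cons t1 (.cons t2 (.cons t3 (.cons t4 (.cons t5 (.cons t6 (.nil)))))))

end Pool.Agent.Lib.MP_5854e1_co.Cz.Sr328

namespace Pool.Agent.Lib.MP_5854e1_co.Cz.Sr345

open PB

theorem t0 : runX PT.R (Wk.frw PT.R) nl RvT (SMap.evl cT tlT PT.vx ringF) [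
  .mk 39 0 0 [0xfffffffffffffffffffffffff0ffcbfa7fffffffffffffffffffffffffffffffffffffffffffffffffffffffffffffffffffffff]] = true := by
  decide +kernel

theorem t1 : runX PT.R (Wk.frw PT.R) nl RvT (SMap.evl cT tlT PT.vx ringF) [
  .mk 39 0 0 [0x1000000000000000000000000000000000000000000000000000000000000000000000000000000, 0x4001800000000000000000000000000000000018200100]] = true := by
  decide +kernel

theorem t2 : runX PT.R (Wk.frw PT.R) nl RvT (SMap.evl cT tlT PT.vx ringF) [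
  .mk 39 0 0 [0x1000000000000000000000000000000000000000000000000000000000000000000000000000000, 0x530000000000000000000000000000000000000000000000]] = true := by
  decide +kernel

theorem t3 : runX PT.R (Wk.frw PT.R) nl RvT (SMap.evl cT tlT PT.vx ringF) [
  .mk 39 0 0 [0x1000000000000000000000000000000000000000000000000000000000000000000000000000000, 0xffffffffffffffffffffffffffffffffffffffffffffffffffffffffacbffe7fffffffffffffffffffffffffffffffffe7dffeff],
  .mk 39 1 1 [],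
  .mk 39 2 4 [],
  .mk 39 3 5 [],
  .mk 39 4 33 [],
  .mk 39 5 34 []] = true := by
  decide +kernel

theorem t4 : runX PT.R (Wk.frw PT.R) nl RvT (SMap.evl cT tlT PT.vx ringF) [
  .mk 39 6 35 [],
  .mk 39 7 36 []] = true := by
  decide +kernel

theorem t5 : runX PT.R (Wk.frw PT.R) nl RvT (SMap.evl cT tlT PT.vx ringF) [
  .mk 39 8 37 [],
  .mk 39 9 38 []] = true := by
  decide +kernel

theorem t6 : runX PT.R (Wk.frw PT.R) nl RvT (SMap.evl cT tlT PT.vx ringF) [
  .mk 39 10 0 [0x2f40f800000000000000000000000000000000000000000000000000000000000000000000000]] = true := by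
  decide +kernel

/-- The tasks. -/
noncomputable def P : List (List Tk) := [
[
  .mk 39 0 0 [0xfffffffffffffffffffffffff0ffcbfa7fffffffffffffffffffffffffffffffffffffffffffffffffffffffffffffffffffffff]],
[
  .mk 39 0 0 [0x1000000000000000000000000000000000000000000000000000000000000000000000000000000, 0x4001800000000000000000000000000000000018200100]],
[
  .mk 39 0 0 [0x1000000000000000000000000000000000000000000000000000000000000000000000000000000, 0x530000000000000000000000000000000000000000000000]],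
[
  .mk 39 0 0 [0x1000000000000000000000000000000000000000000000000000000000000000000000000000000, 0xffffffffffffffffffffffffffffffffffffffffffffffffffffffffacbffe7fffffffffffffffffffffffffffffffffe7dffeff],
  .mk 39 1 1 [],
  .mk 39 2 4 [],
  .mk 39 3 5 [],
  .mk 39 4 33 [],
  .mk 39 5 34 []],
[
  .mk 39 6 35 [],
  .mk 39 7 36 []],
[
  .mk 39 8 37 [],
  .mk 39 9 38 []],
[
  .mk 39 10 0 [0x2f40f800000000000000000000000000000000000000000000000000000000000000000000000]]]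

theorem run : RunAll (runX PT.R (Wk.frw PT.R) nl RvT (SMap.evl cT tlT PT.vx ringF)) P :=
  .cons t0 (.cons t1 (.cons t2 (.cons t3 (.cons t4 (.cons t5 (.cons t6 (.nil)))))))

end Pool.Agent.Lib.MP_5854e1_co.Cz.Sr345

namespace Pool.Agent.Lib.MP_5854e1_co.Cz.Sr594

open PB

theorem t0 : runX PT.R (Wk.frw PT.R) nl RvT (SMap.evl cT tlT PT.vx ringF) [
  .mk 87 30 55 [0x400, 0x1000, 0x4000000000]] = true := by
  decide +kernel

theorem t1 : runX PT.R (Wk.frw PT.R) nl RvT (SMap.evl cT tlT PT.vx ringF) [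
  .mk 87 30 55 [0x400, 0x1000, 0x38000000000]] = true := by
  decide +kernel

theorem t2 : runX PT.R (Wk.frw PT.R) nl RvT (SMap.evl cT tlT PT.vx ringF) [
  .mk 87 30 55 [0x400, 0x1000, 0xffffffffffffffffffffffffffffffffffffffffffffffffffffffffffffc0ffffffffe],
  .mk 87 31 56 [],
  .mk 87 32 57 [],
  .mk 87 33 58 []] = true := by
  decide +kernel

theorem t3 : runX PT.R (Wk.frw PT.R) nl RvT (SMap.evl cT tlT PT.vx ringF) [
  .mk 87 34 59 [],
  .mk 87 35 60 [],
  .mk 88 0 0 [],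
  .mk 88 1 20 [],
  .mk 88 2 24 [],
  .mk 88 3 25 [],
  .mk 88 4 26 [],
  .mk 88 5 27 [],
  .mk 88 6 28 [],
  .mk 88 7 30 [],
  .mk 88 8 32 [],
  .mk 88 9 50 [],
  .mk 88 10 51 [],
  .mk 88 11 52 [],
  .mk 88 12 53 [],
  .mk 88 13 54 [],
  .mk 88 14 55 [],
  .mk 88 15 56 [],
  .mk 88 16 57 [],
  .mk 88 17 58 [],
  .mk 88 18 59 [],
  .mk 88 19 60 [],
  .mk 88 20 0 [],
  .mk 88 21 7 []] = true := by
  decide +kernel

theorem t4 : runX PT.R (Wk.frw PT.R) nl RvT (SMap.evl cT tlT PT.vx ringF) [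
  .mk 88 22 11 [0x11700]] = true := by
  decide +kernel

theorem t5 : runX PT.R (Wk.frw PT.R) nl RvT (SMap.evl cT tlT PT.vx ringF) [
  .mk 88 22 11 [0x7e80ff]] = true := by
  decide +kernel

/-- The tasks. -/
noncomputable def P : List (List Tk) := [
[
  .mk 87 30 55 [0x400, 0x1000, 0x4000000000]],
[
  .mk 87 30 55 [0x400, 0x1000, 0x38000000000]],
[
  .mk 87 30 55 [0x400, 0x1000, 0xffffffffffffffffffffffffffffffffffffffffffffffffffffffffffffc0ffffffffe],
  .mk 87 31 56 [],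
  .mk 87 32 57 [],
  .mk 87 33 58 []],
[
  .mk 87 34 59 [],
  .mk 87 35 60 [],
  .mk 88 0 0 [],
  .mk 88 1 20 [],
  .mk 88 2 24 [],
  .mk 88 3 25 [],
  .mk 88 4 26 [],
  .mk 88 5 27 [],
  .mk 88 6 28 [],
  .mk 88 7 30 [],
  .mk 88 8 32 [],
  .mk 88 9 50 [],
  .mk 88 10 51 [],
  .mk 88 11 52 [],
  .mk 88 12 53 [],
  .mk 88 13 54 [],
  .mk 88 14 55 [],
  .mk 88 15 56 [],
  .mk 88 16 57 [],
  .mk 88 17 58 [],
  .mk 88 18 59 [],
  .mk 88 19 60 [],
  .mk 88 20 0 [],
  .mk 88 21 7 []],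
[
  .mk 88 22 11 [0x11700]],
[
  .mk 88 22 11 [0x7e80ff]]]

theorem run : RunAll (runX PT.R (Wk.frw PT.R) nl RvT (SMap.evl cT tlT PT.vx ringF)) P :=
  .cons t0 (.cons t1 (.cons t2 (.cons t3 (.cons t4 (.cons t5 (.nil))))))

end Pool.Agent.Lib.MP_5854e1_co.Cz.Sr594
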