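import Pool.Agent.Lib.MP_5854e1_co.Cz.P
import Pool.Agent.Lib.MP_5854e1_co.Tkx
import Pool.Agent.Lib.MP_5854e1_co.RunAll

/-!
# Search, part 383
-/

set_option autoImplicit false
set_option deprecated.oldSectionVars true
set_option maxRecDepth 100000

namespace Pool.Agent.Lib.MP_5854e1_co.Cz.Sr383

open PB

theorem t0 : runX PT.R (Wk.frw PT.R) nl RvT (SMap.evl cT tlT PT.vx ringF) [
  .mk 41 7 39 [0x10000, 0x400, 0x2000000000, 0x7c974],
  .mk 41 7 39 [0x10000, 0x400, 0x2000000000, 0x200, 0x200000000000000008401]] = true := by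
  decide +kernel

theorem t1 : runX PT.R (Wk.frw PT.R) nl RvT (SMap.evl cT tlT PT.vx ringF) [
  .mk 41 7 39 [0x10000, 0x400, 0x2000000000, 0x200, 0xfffffffffffffffffffffffffffffffffffffffffffffffffffffffffffffffffffffffffffffffffffdffffffffffffffff7bfe]] = true := by
  decide +kernel

theorem t2 : runX PT.R (Wk.frw PT.R) nl RvT (SMap.evl cT tlT PT.vx ringF) [
  .mk 41 7 39 [0x10000, 0x400, 0x10000000000, 0x368b]] = true := by
  decide +kernel

theorem t3 : runX PT.R (Wk.frw PT.R) nl RvT (SMap.evl cT tlT PT.vx ringF) [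
  .mk 41 7 39 [0x10000, 0x400, 0x10000000000, 0x7c974],
  .mk 41 7 39 [0x10000, 0x1000, 0x1dc00000200000]] = true := by
  decide +kernel

theorem t4 : runX PT.R (Wk.frw PT.R) nl RvT (SMap.evl cT tlT PT.vx ringF) [
  .mk 41 7 39 [0x10000, 0x1000, 0x603fffffdfffff]] = true := by
  decide +kernel

theorem t5 : runX PT.R (Wk.frw PT.R) nl RvT (SMap.evl cT tlT PT.vx ringF) [
  .mk 41 7 39 [0x10000, 0x1000, 0x2000000000000, 0x8b]] = true := by
  decide +kernel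

/-- The tasks. -/
noncomputable def P : List (List Tk) := [
[
  .mk 41 7 39 [0x10000, 0x400, 0x2000000000, 0x7c974],
  .mk 41 7 39 [0x10000, 0x400, 0x2000000000, 0x200, 0x200000000000000008401]],
[
  .mk 41 7 39 [0x10000, 0x400, 0x2000000000, 0x200, 0xfffffffffffffffffffffffffffffffffffffffffffffffffffffffffffffffffffffffffffffffffffdffffffffffffffff7bfe]],
[
  .mk 41 7 39 [0x10000, 0x400, 0x10000000000, 0x368b]],
[
  .mk 41 7 39 [0x10000, 0x400, 0x10000000000, 0x7c974],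
  .mk 41 7 39 [0x10000, 0x1000, 0x1dc00000200000]],
[
  .mk 41 7 39 [0x10000, 0x1000, 0x603fffffdfffff]],
[
  .mk 41 7 39 [0x10000, 0x1000, 0x2000000000000, 0x8b]]]

theorem run : RunAll (runX PT.R (Wk.frw PT.R) nl RvT (SMap.evl cT tlT PT.vx ringF)) P :=
  .cons t0 (.cons t1 (.cons t2 (.cons t3 (.cons t4 (.cons t5 (.nil))))))

end Pool.Agent.Lib.MP_5854e1_co.Cz.Sr383

namespace Pool.Agent.Lib.MP_5854e1_co.Cz.Sr395

open PB

theorem t0 : runX PT.R (Wk.frw PT.R) nl RvT (SMap.evl cT tlT PT.vx ringF) [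
  .mk 41 10 42 [0x4000000, 0x800, 0x713]] = true := by
  decide +kernel

theorem t1 : runX PT.R (Wk.frw PT.R) nl RvT (SMap.evl cT tlT PT.vx ringF) [
  .mk 41 10 42 [0x4000000, 0x800, 0xfffffb86c],
  .mk 41 10 42 [0x4000000, 0x800, 0x80, 0xffbff]] = true := by
  decide +kernel

theorem t2 : runX PT.R (Wk.frw PT.R) nl RvT (SMap.evl cT tlT PT.vx ringF) [
  .mk 41 10 42 [0x4000000, 0x800, 0x80, 0x400, 0x220000000001]] = true := by
  decide +kernel

theorem t3 : runX PT.R (Wk.frw PT.R) nl RvT (SMap.evl cT tlT PT.vx ringF) [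
  .mk 41 10 42 [0x4000000, 0x800, 0x80, 0x400, 0xffffffffffffffffffffffffffffffffffffffffffffffffffffffffffffffffffffffffffffffffffffffffffffddfffffffffe],
  .mk 41 10 42 [0x4000000, 0x800, 0x4000, 0x3]] = true := by
  decide +kernel

theorem t4 : runX PT.R (Wk.frw PT.R) nl RvT (SMap.evl cT tlT PT.vx ringF) [
  .mk 41 10 42 [0x4000000, 0x800, 0x4000, 0xffffffffc]] = true := by
  decide +kernel

/-- The tasks. -/
noncomputable def P : List (List Tk) := [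
[
  .mk 41 10 42 [0x4000000, 0x800, 0x713]],
[
  .mk 41 10 42 [0x4000000, 0x800, 0xfffffb86c],
  .mk 41 10 42 [0x4000000, 0x800, 0x80, 0xffbff]],
[
  .mk 41 10 42 [0x4000000, 0x800, 0x80, 0x400, 0x220000000001]],
[
  .mk 41 10 42 [0x4000000, 0x800, 0x80, 0x400, 0xffffffffffffffffffffffffffffffffffffffffffffffffffffffffffffffffffffffffffffffffffffffffffffddfffffffffe],
  .mk 41 10 42 [0x4000000, 0x800, 0x4000, 0x3]],
[
  .mk 41 10 42 [0x4000000, 0x800, 0x4000, 0xffffffffc]]]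

theorem run : RunAll (runX PT.R (Wk.frw PT.R) nl RvT (SMap.evl cT tlT PT.vx ringF)) P :=
  .cons t0 (.cons t1 (.cons t2 (.cons t3 (.cons t4 (.nil)))))

end Pool.Agent.Lib.MP_5854e1_co.Cz.Sr395

namespace Pool.Agent.Lib.MP_5854e1_co.Cz.Sr478

open PB

theorem t0 : runX PT.R (Wk.frw PT.R) nl RvT (SMap.evl cT tlT PT.vx ringF) [
  .mk 47 31 70 [0x8000, 0x1800000]] = true := by
  decide +kernel

theorem t1 : runX PT.R (Wk.frw PT.R) nl RvT (SMap.evl cT tlT PT.vx ringF) [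
  .mk 47 31 70 [0x8000, 0x60fff30],
  .mk 47 32 71 [],
  .mk 47 33 72 [],
  .mk 47 34 73 [],
  .mk 47 35 74 [],
  .mk 47 36 75 [],
  .mk 47 37 83 [],
  .mk 47 38 84 [],
  .mk 47 39 85 [],
  .mk 47 40 86 [],
  .mk 47 41 87 [],
  .mk 47 42 88 [],
  .mk 47 43 89 [],
  .mk 47 44 90 [],
  .mk 47 45 91 [],
  .mk 47 46 92 [],
  .mk 47 47 93 [],
  .mk 47 48 94 []] = true := by
  decide +kernel

theorem t2 : runX PT.R (Wk.frw PT.R) nl RvT (SMap.evl cT tlT PT.vx ringF) [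
  .mk 47 49 95 [0x31]] = true := by
  decide +kernel

theorem t3 : runX PT.R (Wk.frw PT.R) nl RvT (SMap.evl cT tlT PT.vx ringF) [
  .mk 47 49 95 [0x7ffce]] = true := by
  decide +kernel

theorem t4 : runX PT.R (Wk.frw PT.R) nl RvT (SMap.evl cT tlT PT.vx ringF) [
  .mk 47 50 96 [0x1a040001]] = true := by
  decide +kernel

theorem t5 : runX PT.R (Wk.frw PT.R) nl RvT (SMap.evl cT tlT PT.vx ringF) [
  .mk 47 50 96 [0xfa5fbfffe]] = true := by
  decide +kernel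

/-- The tasks. -/
noncomputable def P : List (List Tk) := [
[
  .mk 47 31 70 [0x8000, 0x1800000]],
[
  .mk 47 31 70 [0x8000, 0x60fff30],
  .mk 47 32 71 [],
  .mk 47 33 72 [],
  .mk 47 34 73 [],
  .mk 47 35 74 [],
  .mk 47 36 75 [],
  .mk 47 37 83 [],
  .mk 47 38 84 [],
  .mk 47 39 85 [],
  .mk 47 40 86 [],
  .mk 47 41 87 [],
  .mk 47 42 88 [],
  .mk 47 43 89 [],
  .mk 47 44 90 [],
  .mk 47 45 91 [],
  .mk 47 46 92 [],
  .mk 47 47 93 [],
  .mk 47 48 94 []],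
[
  .mk 47 49 95 [0x31]],
[
  .mk 47 49 95 [0x7ffce]],
[
  .mk 47 50 96 [0x1a040001]],
[
  .mk 47 50 96 [0xfa5fbfffe]]]

theorem run : RunAll (runX PT.R (Wk.frw PT.R) nl RvT (SMap.evl cT tlT PT.vx ringF)) P :=
  .cons t0 (.cons t1 (.cons t2 (.cons t3 (.cons t4 (.cons t5 (.nil))))))

end Pool.Agent.Lib.MP_5854e1_co.Cz.Sr478

namespace Pool.Agent.Lib.MP_5854e1_co.Cz.Sr498

open PB

theorem t0 : runX PT.R (Wk.frw PT.R) nl RvT (SMap.evl cT tlT PT.vx ringF) [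
  .mk 49 12 58 [0xe0000000000]] = true := by
  decide +kernel

theorem t1 : runX PT.R (Wk.frw PT.R) nl RvT (SMap.evl cT tlT PT.vx ringF) [
  .mk 49 12 58 [0x7ff0acc40040b0],
  .mk 49 12 58 [0x20000000, 0x5600]] = true := by
  decide +kernel

theorem t2 : runX PT.R (Wk.frw PT.R) nl RvT (SMap.evl cT tlT PT.vx ringF) [
  .mk 49 12 58 [0x20000000, 0x7f89ff]] = true := by
  decide +kernel

theorem t3 : runX PT.R (Wk.frw PT.R) nl RvT (SMap.evl cT tlT PT.vx ringF) [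
  .mk 49 12 58 [0x20000000, 0x2000, 0xffffffdff]] = true := by
  decide +kernel

theorem t4 : runX PT.R (Wk.frw PT.R) nl RvT (SMap.evl cT tlT PT.vx ringF) [
  .mk 49 12 58 [0x20000000, 0x2000, 0x200, 0x3]] = true := by
  decide +kernel

theorem t5 : runX PT.R (Wk.frw PT.R) nl RvT (SMap.evl cT tlT PT.vx ringF) [
  .mk 49 12 58 [0x20000000, 0x2000, 0x200, 0xffffffffc],
  .mk 49 13 59 [0x1a7a3]] = true := by
  decide +kernel

/-- The tasks. -/
noncomputable def P : List (List Tk) := [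
[
  .mk 49 12 58 [0xe0000000000]],
[
  .mk 49 12 58 [0x7ff0acc40040b0],
  .mk 49 12 58 [0x20000000, 0x5600]],
[
  .mk 49 12 58 [0x20000000, 0x7f89ff]],
[
  .mk 49 12 58 [0x20000000, 0x2000, 0xffffffdff]],
[
  .mk 49 12 58 [0x20000000, 0x2000, 0x200, 0x3]],
[
  .mk 49 12 58 [0x20000000, 0x2000, 0x200, 0xffffffffc],
  .mk 49 13 59 [0x1a7a3]]]

theorem run : RunAll (runX PT.R (Wk.frw PT.R) nl RvT (SMap.evl cT tlT PT.vx ringF)) P :=
  .cons t0 (.cons t1 (.cons t2 (.cons t3 (.cons t4 (.cons t5 (.nil))))))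

end Pool.Agent.Lib.MP_5854e1_co.Cz.Sr498
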