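import Pool.Agent.Lib.MP_5854e1_co.Cz.P
import Pool.Agent.Lib.MP_5854e1_co.Tkx
import Pool.Agent.Lib.MP_5854e1_co.RunAll

/-!
# Search, part 475
-/

set_option autoImplicit false
set_option deprecated.oldSectionVars true
set_option maxRecDepth 100000

namespace Pool.Agent.Lib.MP_5854e1_co.Cz.Sr475

open PB

theorem t0 : runX PT.R (Wk.frw PT.R) nl RvT (SMap.evl cT tlT PT.vx ringF) [
  .mk 47 26 65 [0x2, 0x1000000000000000000000000000000000000000000000000000000000000000, 0xffffffffffffffffffffffffffffffffffffffffffffffffffffffffffffffffffac370]] = true := by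
  decide +kernel

theorem t1 : runX PT.R (Wk.frw PT.R) nl RvT (SMap.evl cT tlT PT.vx ringF) [
  .mk 47 26 65 [0x200, 0x1faf]] = true := by
  decide +kernel

theorem t2 : runX PT.R (Wk.frw PT.R) nl RvT (SMap.evl cT tlT PT.vx ringF) [
  .mk 47 26 65 [0x200, 0xffffbe050]] = true := by
  decide +kernel

theorem t3 : runX PT.R (Wk.frw PT.R) nl RvT (SMap.evl cT tlT PT.vx ringF) [
  .mk 47 26 65 [0x200, 0x40000, 0x4f260033]] = true := by
  decide +kernel

theorem t4 : runX PT.R (Wk.frw PT.R) nl RvT (SMap.evl cT tlT PT.vx ringF) [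
  .mk 47 26 65 [0x200, 0x40000, 0x3b0d9ffcc],
  .mk 47 26 65 [0x4000, 0x7fff7ff]] = true := by
  decide +kernel

theorem t5 : runX PT.R (Wk.frw PT.R) nl RvT (SMap.evl cT tlT PT.vx ringF) [
  .mk 47 26 65 [0x4000, 0x800, 0x1]] = true := by
  decide +kernel

/-- The tasks. -/
noncomputable def P : List (List Tk) := [
[
  .mk 47 26 65 [0x2, 0x1000000000000000000000000000000000000000000000000000000000000000, 0xffffffffffffffffffffffffffffffffffffffffffffffffffffffffffffffffffac370]],
[
  .mk 47 26 65 [0x200, 0x1faf]],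
[
  .mk 47 26 65 [0x200, 0xffffbe050]],
[
  .mk 47 26 65 [0x200, 0x40000, 0x4f260033]],
[
  .mk 47 26 65 [0x200, 0x40000, 0x3b0d9ffcc],
  .mk 47 26 65 [0x4000, 0x7fff7ff]],
[
  .mk 47 26 65 [0x4000, 0x800, 0x1]]]

theorem run : RunAll (runX PT.R (Wk.frw PT.R) nl RvT (SMap.evl cT tlT PT.vx ringF)) P :=
  .cons t0 (.cons t1 (.cons t2 (.cons t3 (.cons t4 (.cons t5 (.nil))))))

end Pool.Agent.Lib.MP_5854e1_co.Cz.Sr475

namespace Pool.Agent.Lib.MP_5854e1_co.Cz.Sr516

open PB

theorem t0 : runX PT.R (Wk.frw PT.R) nl RvT (SMap.evl cT tlT PT.vx ringF) [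
  .mk 63 9 52 [0x200, 0x4, 0x200, 0x200000000000000000000, 0x100000000000000000000000000000000000000000000000000f00000000000200000000000000000000]] = true := by
  decide +kernel

theorem t1 : runX PT.R (Wk.frw PT.R) nl RvT (SMap.evl cT tlT PT.vx ringF) [
  .mk 63 9 52 [0x200, 0x4, 0x200, 0x200000000000000000000, 0xffffffffffffffffffffeffffffffffffffffffffffffffffffffffffffffffffffffff0fffffffffffdffffffffffffffffffff]] = true := by
  decide +kernel

theorem t2 : runX PT.R (Wk.frw PT.R) nl RvT (SMap.evl cT tlT PT.vx ringF) [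
  .mk 63 9 52 [0x200, 0x4, 0x200, 0x400000000000000000000000000, 0xcc03]] = true := by
  decide +kernel

theorem t3 : runX PT.R (Wk.frw PT.R) nl RvT (SMap.evl cT tlT PT.vx ringF) [
  .mk 63 9 52 [0x200, 0x4, 0x200, 0x400000000000000000000000000, 0xf33fc]] = true := by
  decide +kernel

theorem t4 : runX PT.R (Wk.frw PT.R) nl RvT (SMap.evl cT tlT PT.vx ringF) [
  .mk 63 9 52 [0x200, 0x4, 0x1000, 0x100000001]] = true := by
  decide +kernel

theorem t5 : runX PT.R (Wk.frw PT.R) nl RvT (SMap.evl cT tlT PT.vx ringF) [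
  .mk 63 9 52 [0x200, 0x4, 0x1000, 0x200000000000000000000000000000000000e00000000]] = true := by
  decide +kernel

/-- The tasks. -/
noncomputable def P : List (List Tk) := [
[
  .mk 63 9 52 [0x200, 0x4, 0x200, 0x200000000000000000000, 0x100000000000000000000000000000000000000000000000000f00000000000200000000000000000000]],
[
  .mk 63 9 52 [0x200, 0x4, 0x200, 0x200000000000000000000, 0xffffffffffffffffffffeffffffffffffffffffffffffffffffffffffffffffffffffff0fffffffffffdffffffffffffffffffff]],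
[
  .mk 63 9 52 [0x200, 0x4, 0x200, 0x400000000000000000000000000, 0xcc03]],
[
  .mk 63 9 52 [0x200, 0x4, 0x200, 0x400000000000000000000000000, 0xf33fc]],
[
  .mk 63 9 52 [0x200, 0x4, 0x1000, 0x100000001]],
[
  .mk 63 9 52 [0x200, 0x4, 0x1000, 0x200000000000000000000000000000000000e00000000]]]

theorem run : RunAll (runX PT.R (Wk.frw PT.R) nl RvT (SMap.evl cT tlT PT.vx ringF)) P :=
  .cons t0 (.cons t1 (.cons t2 (.cons t3 (.cons t4 (.cons t5 (.nil))))))

end Pool.Agent.Lib.MP_5854e1_co.Cz.Sr516
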