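import Pool.Agent.Lib.MP_5854e1_co.Cz.T
import Pool.Agent.Lib.MP_5854e1_co.Cz.P
import Pool.Agent.Lib.MP_5854e1_co.Wk

/-!
# The codes of the rows increase
-/

set_option autoImplicit false
set_option deprecated.oldSectionVars true
set_option maxRecDepth 100000

namespace Pool.Agent.Lib.MP_5854e1_co.Cz

open PB

theorem swf0 : rAllN (Wk.wfsK PT.R) (nat_lit 101) = true := by decide +kernel

theorem swf : ∀ k < 101, Wk.wfsK PT.R k = true := fun k hk => rAllN_iff.1 swf0 k hk

end Pool.Agent.Lib.MP_5854e1_co.Cz
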