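import Pool.Agent.Lib.MP_5854e1_co.DtD

/-!
# Cells with further shares
-/

set_option autoImplicit false
set_option maxRecDepth 100000
set_option deprecated.oldSectionVars true

namespace Pool.Agent.Lib.MP_5854e1_co.Cz

open Pool.Agent.Lib.MP_5854e1_co

noncomputable section

noncomputable def tu000 : DT := (.nd (nat_lit 0) (.nd (nat_lit 1) 
(.lf (nat_lit 4) (.g (nat_lit 2629) (.e (nat_lit 162) (nat_lit 11) (.e (nat_lit 196674) (nat_lit 15) (.e (nat_lit 81925) (nat_lit 11) (.e (nat_lit 426408) (nat_lit 15) (.e (nat_lit 6217) (nat_lit 333) (.e (nat_lit 57883) (nat_lit 270) .nil)))))) (.g (nat_lit 3) .nil .nil))) (.nd (nat_lit 2) 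
(.lf (nat_lit 2) (.g (nat_lit 2907) (.e (nat_lit 77) (nat_lit 0) (.e (nat_lit 3308) (nat_lit 202) (.e (nat_lit 573493) (nat_lit 15) (.e (nat_lit 81953) (nat_lit 22) (.e (nat_lit 90165) (nat_lit 12) (.e (nat_lit 164218) (nat_lit 179) (.e (nat_lit 164339) (nat_lit 232) .nil))))))) (.g (nat_lit 1) .nil .nil))) 
(.lf (nat_lit 6) (.g (nat_lit 2347) (.e (nat_lit 162) (nat_lit 11) (.e (nat_lit 196681) (nat_lit 17) (.e (nat_lit 131125) (nat_lit 13) (.e (nat_lit 393221) (nat_lit 0) (.e (nat_lit 6216) (nat_lit 333) (.e (nat_lit 57881) (nat_lit 270) .nil)))))) (.g (nat_lit 5) .nil .nil))))) (.nd (nat_lit 1) (.nd (nat_lit 2) 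
(.lf (nat_lit 1) (.g (nat_lit 2907) (.e (nat_lit 60) (nat_lit 0) (.e (nat_lit 1859) (nat_lit 124) (.e (nat_lit 557109) (nat_lit 15) (.e (nat_lit 188449) (nat_lit 22) (.e (nat_lit 196661) (nat_lit 12) (.e (nat_lit 57721) (nat_lit 177) (.e (nat_lit 57864) (nat_lit 256) .nil))))))) (.g (nat_lit 2) .nil .nil))) 
(.lf (nat_lit 5) (.g (nat_lit 2347) (.e (nat_lit 100) (nat_lit 2) (.e (nat_lit 90185) (nat_lit 17) (.e (nat_lit 237621) (nat_lit 13) (.e (nat_lit 483333) (nat_lit 0) (.e (nat_lit 7105) (nat_lit 380) (.e (nat_lit 164356) (nat_lit 246) .nil)))))) (.g (nat_lit 6) .nil .nil)))) (.nd (nat_lit 2) 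
(.lf (nat_lit 3) (.g (nat_lit 2629) (.e (nat_lit 100) (nat_lit 2) (.e (nat_lit 90178) (nat_lit 15) (.e (nat_lit 188421) (nat_lit 11) (.e (nat_lit 336288) (nat_lit 15) (.e (nat_lit 7106) (nat_lit 380) (.e (nat_lit 164358) (nat_lit 246) .nil)))))) (.g (nat_lit 4) .nil .nil))) 
(.lf (nat_lit 7) (.g (nat_lit 2322) (.e (nat_lit 100) (nat_lit 2) (.e (nat_lit 90185) (nat_lit 17) (.e (nat_lit 237624) (nat_lit 13) (.e (nat_lit 483333) (nat_lit 0) (.e (nat_lit 7105) (nat_lit 380) (.e (nat_lit 164356) (nat_lit 246) .nil)))))) (.g (nat_lit 8) .nil .nil))))))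

noncomputable def tu001 : DT := (.nd (nat_lit 0) (.nd (nat_lit 1) (.nd (nat_lit 2) 
(.lf (nat_lit 8) (.g (nat_lit 2322) (.e (nat_lit 162) (nat_lit 11) (.e (nat_lit 196681) (nat_lit 17) (.e (nat_lit 131128) (nat_lit 13) (.e (nat_lit 393221) (nat_lit 0) (.e (nat_lit 6216) (nat_lit 333) (.e (nat_lit 57881) (nat_lit 270) .nil)))))) (.g (nat_lit 7) .nil .nil))) 
(.lf (nat_lit 12) (.g (nat_lit 1820) (.e (nat_lit 174) (nat_lit 12) (.e (nat_lit 204859) (nat_lit 26) (.e (nat_lit 336209) (nat_lit 13) (.e (nat_lit 393221) (nat_lit 0) (.e (nat_lit 6217) (nat_lit 333) (.e (nat_lit 57883) (nat_lit 270) .nil)))))) (.g (nat_lit 11) .nil .nil)))) (.nd (nat_lit 2) 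
(.lf (nat_lit 10) (.g (nat_lit 2112) (.e (nat_lit 174) (nat_lit 12) (.e (nat_lit 204859) (nat_lit 26) (.e (nat_lit 336209) (nat_lit 13) (.e (nat_lit 393221) (nat_lit 0) (.e (nat_lit 6216) (nat_lit 333) (.e (nat_lit 57881) (nat_lit 270) .nil)))))) (.g (nat_lit 9) .nil .nil))) 
(.lf (nat_lit 14) (.g (nat_lit 2167) (.e (nat_lit 174) (nat_lit 12) (.e (nat_lit 204865) (nat_lit 28) (.e (nat_lit 352277) (nat_lit 11) (.e (nat_lit 426408) (nat_lit 15) (.e (nat_lit 6209) (nat_lit 333) (.e (nat_lit 57879) (nat_lit 270) .nil)))))) (.g (nat_lit 13) .nil .nil))))) (.nd (nat_lit 1) (.nd (nat_lit 2) 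
(.lf (nat_lit 9) (.g (nat_lit 2112) (.e (nat_lit 112) (nat_lit 3) (.e (nat_lit 98363) (nat_lit 26) (.e (nat_lit 426321) (nat_lit 13) (.e (nat_lit 483333) (nat_lit 0) (.e (nat_lit 7105) (nat_lit 380) (.e (nat_lit 164356) (nat_lit 246) .nil)))))) (.g (nat_lit 10) .nil .nil))) 
(.lf (nat_lit 13) (.g (nat_lit 2167) (.e (nat_lit 112) (nat_lit 3) (.e (nat_lit 98369) (nat_lit 28) (.e (nat_lit 442390) (nat_lit 11) (.e (nat_lit 336288) (nat_lit 15) (.e (nat_lit 7098) (nat_lit 380) (.e (nat_lit 164354) (nat_lit 246) .nil)))))) (.g (nat_lit 14) .nil .nil)))) (.nd (nat_lit 2) 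
(.lf (nat_lit 11) (.g (nat_lit 1820) (.e (nat_lit 112) (nat_lit 3) (.e (nat_lit 98363) (nat_lit 26) (.e (nat_lit 426321) (nat_lit 13) (.e (nat_lit 483333) (nat_lit 0) (.e (nat_lit 7106) (nat_lit 380) (.e (nat_lit 164358) (nat_lit 246) .nil)))))) (.g (nat_lit 12) .nil .nil))) 
(.lf (nat_lit 15) (.g (nat_lit 2520) (.e (nat_lit 112) (nat_lit 3) (.e (nat_lit 98369) (nat_lit 28) (.e (nat_lit 442390) (nat_lit 11) (.e (nat_lit 336288) (nat_lit 15) (.e (nat_lit 7105) (nat_lit 380) (.e (nat_lit 164356) (nat_lit 246) .nil)))))) (.g (nat_lit 16) .nil .nil))))))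

noncomputable def tu002 : DT := (.nd (nat_lit 0) (.nd (nat_lit 1) (.nd (nat_lit 2) 
(.lf (nat_lit 16) (.g (nat_lit 2520) (.e (nat_lit 174) (nat_lit 12) (.e (nat_lit 204865) (nat_lit 28) (.e (nat_lit 352277) (nat_lit 11) (.e (nat_lit 426408) (nat_lit 15) (.e (nat_lit 6216) (nat_lit 333) (.e (nat_lit 57881) (nat_lit 270) .nil)))))) (.g (nat_lit 15) .nil .nil))) 
(.lf (nat_lit 20) (.g (nat_lit 2697) (.e (nat_lit 174) (nat_lit 12) (.e (nat_lit 204866) (nat_lit 28) (.e (nat_lit 352277) (nat_lit 11) (.e (nat_lit 426408) (nat_lit 15) (.e (nat_lit 6216) (nat_lit 333) (.e (nat_lit 57881) (nat_lit 270) .nil)))))) (.g (nat_lit 19) .nil .nil)))) (.nd (nat_lit 2) 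
(.lf (nat_lit 18) (.g (nat_lit 2362) (.e (nat_lit 174) (nat_lit 12) (.e (nat_lit 204866) (nat_lit 28) (.e (nat_lit 352277) (nat_lit 11) (.e (nat_lit 426408) (nat_lit 15) (.e (nat_lit 6209) (nat_lit 333) (.e (nat_lit 57879) (nat_lit 270) .nil)))))) (.g (nat_lit 17) .nil .nil))) 
(.lf (nat_lit 22) (.g (nat_lit 2245) (.e (nat_lit 174) (nat_lit 12) (.e (nat_lit 204876) (nat_lit 31) (.e (nat_lit 376842) (nat_lit 11) (.e (nat_lit 426408) (nat_lit 15) (.e (nat_lit 6209) (nat_lit 333) (.e (nat_lit 57879) (nat_lit 270) .nil)))))) (.g (nat_lit 21) .nil .nil))))) (.nd (nat_lit 1) (.nd (nat_lit 2) 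
(.lf (nat_lit 17) (.g (nat_lit 2362) (.e (nat_lit 112) (nat_lit 3) (.e (nat_lit 98370) (nat_lit 28) (.e (nat_lit 442390) (nat_lit 11) (.e (nat_lit 336288) (nat_lit 15) (.e (nat_lit 7098) (nat_lit 380) (.e (nat_lit 164354) (nat_lit 246) .nil)))))) (.g (nat_lit 18) .nil .nil))) 
(.lf (nat_lit 21) (.g (nat_lit 2245) (.e (nat_lit 112) (nat_lit 3) (.e (nat_lit 98380) (nat_lit 31) (.e (nat_lit 466954) (nat_lit 11) (.e (nat_lit 336288) (nat_lit 15) (.e (nat_lit 7098) (nat_lit 380) (.e (nat_lit 164354) (nat_lit 246) .nil)))))) (.g (nat_lit 22) .nil .nil)))) (.nd (nat_lit 2) 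
(.lf (nat_lit 19) (.g (nat_lit 2697) (.e (nat_lit 112) (nat_lit 3) (.e (nat_lit 98370) (nat_lit 28) (.e (nat_lit 442390) (nat_lit 11) (.e (nat_lit 336288) (nat_lit 15) (.e (nat_lit 7105) (nat_lit 380) (.e (nat_lit 164356) (nat_lit 246) .nil)))))) (.g (nat_lit 20) .nil .nil))) 
(.lf (nat_lit 23) (.g (nat_lit 2594) (.e (nat_lit 112) (nat_lit 3) (.e (nat_lit 98380) (nat_lit 31) (.e (nat_lit 466954) (nat_lit 11) (.e (nat_lit 336288) (nat_lit 15) (.e (nat_lit 7105) (nat_lit 380) (.e (nat_lit 164356) (nat_lit 246) .nil)))))) (.g (nat_lit 24) .nil .nil))))))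

noncomputable def tu003 : DT := (.nd (nat_lit 0) (.nd (nat_lit 1) (.nd (nat_lit 2) 
(.lf (nat_lit 24) (.g (nat_lit 2594) (.e (nat_lit 174) (nat_lit 12) (.e (nat_lit 204876) (nat_lit 31) (.e (nat_lit 376842) (nat_lit 11) (.e (nat_lit 426408) (nat_lit 15) (.e (nat_lit 6216) (nat_lit 333) (.e (nat_lit 57881) (nat_lit 270) .nil)))))) (.g (nat_lit 23) .nil .nil))) 
(.lf (nat_lit 28) (.g (nat_lit 2699) (.e (nat_lit 174) (nat_lit 12) (.e (nat_lit 204877) (nat_lit 31) (.e (nat_lit 376842) (nat_lit 11) (.e (nat_lit 426408) (nat_lit 15) (.e (nat_lit 6216) (nat_lit 333) (.e (nat_lit 57881) (nat_lit 270) .nil)))))) (.g (nat_lit 27) .nil .nil)))) (.nd (nat_lit 2) 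
(.lf (nat_lit 26) (.g (nat_lit 2347) (.e (nat_lit 174) (nat_lit 12) (.e (nat_lit 204877) (nat_lit 31) (.e (nat_lit 376842) (nat_lit 11) (.e (nat_lit 426408) (nat_lit 15) (.e (nat_lit 6209) (nat_lit 333) (.e (nat_lit 57879) (nat_lit 270) .nil)))))) (.g (nat_lit 25) .nil .nil))) 
(.lf (nat_lit 30) (.g (nat_lit 2520) (.e (nat_lit 371) (nat_lit 32) (.e (nat_lit 426542) (nat_lit 29) (.e (nat_lit 352313) (nat_lit 23) (.e (nat_lit 98309) (nat_lit 0) (.e (nat_lit 6207) (nat_lit 333) (.e (nat_lit 57878) (nat_lit 270) .nil)))))) (.g (nat_lit 29) .nil .nil))))) (.nd (nat_lit 1) (.nd (nat_lit 2) 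
(.lf (nat_lit 25) (.g (nat_lit 2347) (.e (nat_lit 112) (nat_lit 3) (.e (nat_lit 98381) (nat_lit 31) (.e (nat_lit 466954) (nat_lit 11) (.e (nat_lit 336288) (nat_lit 15) (.e (nat_lit 7098) (nat_lit 380) (.e (nat_lit 164354) (nat_lit 246) .nil)))))) (.g (nat_lit 26) .nil .nil))) 
(.lf (nat_lit 29) (.g (nat_lit 2520) (.e (nat_lit 226) (nat_lit 21) (.e (nat_lit 336430) (nat_lit 29) (.e (nat_lit 442425) (nat_lit 23) (.e (nat_lit 204805) (nat_lit 0) (.e (nat_lit 7096) (nat_lit 380) (.e (nat_lit 164353) (nat_lit 246) .nil)))))) (.g (nat_lit 30) .nil .nil)))) (.nd (nat_lit 2) 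
(.lf (nat_lit 27) (.g (nat_lit 2699) (.e (nat_lit 112) (nat_lit 3) (.e (nat_lit 98381) (nat_lit 31) (.e (nat_lit 466954) (nat_lit 11) (.e (nat_lit 336288) (nat_lit 15) (.e (nat_lit 7105) (nat_lit 380) (.e (nat_lit 164356) (nat_lit 246) .nil)))))) (.g (nat_lit 28) .nil .nil))) 
(.lf (nat_lit 31) (.g (nat_lit 2167) (.e (nat_lit 226) (nat_lit 21) (.e (nat_lit 336430) (nat_lit 29) (.e (nat_lit 442425) (nat_lit 23) (.e (nat_lit 204805) (nat_lit 0) (.e (nat_lit 7106) (nat_lit 380) (.e (nat_lit 164358) (nat_lit 246) .nil)))))) (.g (nat_lit 32) .nil .nil))))))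

noncomputable def tu004 : DT := (.nd (nat_lit 0) (.nd (nat_lit 1) (.nd (nat_lit 2) 
(.lf (nat_lit 32) (.g (nat_lit 2167) (.e (nat_lit 371) (nat_lit 32) (.e (nat_lit 426542) (nat_lit 29) (.e (nat_lit 352313) (nat_lit 23) (.e (nat_lit 98309) (nat_lit 0) (.e (nat_lit 6217) (nat_lit 333) (.e (nat_lit 57883) (nat_lit 270) .nil)))))) (.g (nat_lit 31) .nil .nil))) 
(.lf (nat_lit 36) (.g (nat_lit 2362) (.e (nat_lit 371) (nat_lit 32) (.e (nat_lit 426542) (nat_lit 29) (.e (nat_lit 352315) (nat_lit 23) (.e (nat_lit 98309) (nat_lit 0) (.e (nat_lit 6217) (nat_lit 333) (.e (nat_lit 57883) (nat_lit 270) .nil)))))) (.g (nat_lit 35) .nil .nil)))) (.nd (nat_lit 2) 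
(.lf (nat_lit 34) (.g (nat_lit 2697) (.e (nat_lit 371) (nat_lit 32) (.e (nat_lit 426542) (nat_lit 29) (.e (nat_lit 352315) (nat_lit 23) (.e (nat_lit 98309) (nat_lit 0) (.e (nat_lit 6207) (nat_lit 333) (.e (nat_lit 57878) (nat_lit 270) .nil)))))) (.g (nat_lit 33) .nil .nil))) 
(.lf (nat_lit 38) (.g (nat_lit 2629) (.e (nat_lit 371) (nat_lit 32) (.e (nat_lit 426544) (nat_lit 30) (.e (nat_lit 360467) (nat_lit 3) (.e (nat_lit 516191) (nat_lit 17) (.e (nat_lit 6209) (nat_lit 333) (.e (nat_lit 57879) (nat_lit 270) .nil)))))) (.g (nat_lit 37) .nil .nil))))) (.nd (nat_lit 1) (.nd (nat_lit 2) 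
(.lf (nat_lit 33) (.g (nat_lit 2697) (.e (nat_lit 226) (nat_lit 21) (.e (nat_lit 336430) (nat_lit 29) (.e (nat_lit 442427) (nat_lit 23) (.e (nat_lit 204805) (nat_lit 0) (.e (nat_lit 7096) (nat_lit 380) (.e (nat_lit 164353) (nat_lit 246) .nil)))))) (.g (nat_lit 34) .nil .nil))) 
(.lf (nat_lit 37) (.g (nat_lit 2629) (.e (nat_lit 226) (nat_lit 21) (.e (nat_lit 336432) (nat_lit 30) (.e (nat_lit 450580) (nat_lit 5) (.e (nat_lit 532575) (nat_lit 17) (.e (nat_lit 7098) (nat_lit 380) (.e (nat_lit 164354) (nat_lit 246) .nil)))))) (.g (nat_lit 38) .nil .nil)))) (.nd (nat_lit 2) 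
(.lf (nat_lit 35) (.g (nat_lit 2362) (.e (nat_lit 226) (nat_lit 21) (.e (nat_lit 336430) (nat_lit 29) (.e (nat_lit 442427) (nat_lit 23) (.e (nat_lit 204805) (nat_lit 0) (.e (nat_lit 7106) (nat_lit 380) (.e (nat_lit 164358) (nat_lit 246) .nil)))))) (.g (nat_lit 36) .nil .nil))) 
(.lf (nat_lit 39) (.g (nat_lit 3380) (.e (nat_lit 226) (nat_lit 21) (.e (nat_lit 336443) (nat_lit 32) (.e (nat_lit 466977) (nat_lit 22) (.e (nat_lit 196649) (nat_lit 10) (.e (nat_lit 8499) (nat_lit 183) (.e (nat_lit 164356) (nat_lit 246) .nil)))))) (.g (nat_lit 40) .nil .nil))))))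

noncomputable def tu005 : DT := (.nd (nat_lit 0) (.nd (nat_lit 1) 
(.lf (nat_lit 40) (.g (nat_lit 3380) (.e (nat_lit 371) (nat_lit 32) (.e (nat_lit 426555) (nat_lit 32) (.e (nat_lit 376865) (nat_lit 22) (.e (nat_lit 90153) (nat_lit 10) (.e (nat_lit 8541) (nat_lit 226) (.e (nat_lit 57881) (nat_lit 270) .nil)))))) (.g (nat_lit 39) .nil .nil))) 
(.lf (nat_lit 42) (.g (nat_lit 2887) (.e (nat_lit 371) (nat_lit 32) (.e (nat_lit 426555) (nat_lit 32) (.e (nat_lit 376865) (nat_lit 22) (.e (nat_lit 90153) (nat_lit 10) (.e (nat_lit 8541) (nat_lit 226) (.e (nat_lit 57883) (nat_lit 270) .nil)))))) (.g (nat_lit 41) .nil .nil)))) (.nd (nat_lit 1) 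
(.lf (nat_lit 41) (.g (nat_lit 2887) (.e (nat_lit 226) (nat_lit 21) (.e (nat_lit 336443) (nat_lit 32) (.e (nat_lit 466977) (nat_lit 22) (.e (nat_lit 196649) (nat_lit 10) (.e (nat_lit 8499) (nat_lit 183) (.e (nat_lit 164358) (nat_lit 246) .nil)))))) (.g (nat_lit 42) .nil .nil))) 
(.lf (nat_lit 43) (.g (nat_lit 2245) (.e (nat_lit 226) (nat_lit 21) (.e (nat_lit 336443) (nat_lit 32) (.e (nat_lit 466979) (nat_lit 23) (.e (nat_lit 204805) (nat_lit 0) (.e (nat_lit 7106) (nat_lit 380) (.e (nat_lit 164358) (nat_lit 246) .nil)))))) (.g (nat_lit 44) .nil .nil)))))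

noncomputable def tu006 : DT := (.nd (nat_lit 0) (.nd (nat_lit 1) 
(.lf (nat_lit 44) (.g (nat_lit 2245) (.e (nat_lit 371) (nat_lit 32) (.e (nat_lit 426555) (nat_lit 32) (.e (nat_lit 376867) (nat_lit 23) (.e (nat_lit 98309) (nat_lit 0) (.e (nat_lit 6217) (nat_lit 333) (.e (nat_lit 57883) (nat_lit 270) .nil)))))) (.g (nat_lit 43) .nil .nil))) 
(.lf (nat_lit 46) (.g (nat_lit 2699) (.e (nat_lit 371) (nat_lit 32) (.e (nat_lit 426555) (nat_lit 32) (.e (nat_lit 376869) (nat_lit 23) (.e (nat_lit 98309) (nat_lit 0) (.e (nat_lit 6207) (nat_lit 333) (.e (nat_lit 57878) (nat_lit 270) .nil)))))) (.g (nat_lit 45) .nil .nil)))) (.nd (nat_lit 1) 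
(.lf (nat_lit 45) (.g (nat_lit 2699) (.e (nat_lit 226) (nat_lit 21) (.e (nat_lit 336443) (nat_lit 32) (.e (nat_lit 466981) (nat_lit 23) (.e (nat_lit 204805) (nat_lit 0) (.e (nat_lit 7096) (nat_lit 380) (.e (nat_lit 164353) (nat_lit 246) .nil)))))) (.g (nat_lit 46) .nil .nil))) 
(.lf (nat_lit 47) (.g (nat_lit 2347) (.e (nat_lit 226) (nat_lit 21) (.e (nat_lit 336443) (nat_lit 32) (.e (nat_lit 466981) (nat_lit 23) (.e (nat_lit 204805) (nat_lit 0) (.e (nat_lit 7106) (nat_lit 380) (.e (nat_lit 164358) (nat_lit 246) .nil)))))) (.g (nat_lit 48) .nil .nil)))))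

noncomputable def tu007 : DT := (.nd (nat_lit 0) (.nd (nat_lit 1) (.nd (nat_lit 2) 
(.lf (nat_lit 48) (.g (nat_lit 2347) (.e (nat_lit 371) (nat_lit 32) (.e (nat_lit 426555) (nat_lit 32) (.e (nat_lit 376869) (nat_lit 23) (.e (nat_lit 98309) (nat_lit 0) (.e (nat_lit 6217) (nat_lit 333) (.e (nat_lit 57883) (nat_lit 270) .nil)))))) (.g (nat_lit 47) .nil .nil))) 
(.lf (nat_lit 52) (.g (nat_lit 2297) (.e (nat_lit 447) (nat_lit 33) (.e (nat_lit 434181) (nat_lit 0) (.e (nat_lit 1428) (nat_lit 108) (.e (nat_lit 336421) (nat_lit 28) (.e (nat_lit 434198) (nat_lit 17) (.e (nat_lit 229646) (nat_lit 232) .nil)))))) (.g (nat_lit 51) .nil .nil)))) (.nd (nat_lit 2) 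
(.lf (nat_lit 50) (.g (nat_lit 1870) (.e (nat_lit 446) (nat_lit 33) (.e (nat_lit 434181) (nat_lit 0) (.e (nat_lit 1428) (nat_lit 108) (.e (nat_lit 336421) (nat_lit 28) (.e (nat_lit 434197) (nat_lit 16) (.e (nat_lit 164339) (nat_lit 232) .nil)))))) (.g (nat_lit 49) .nil .nil))) 
(.lf (nat_lit 54) (.g (nat_lit 3611) (.e (nat_lit 457) (nat_lit 34) (.e (nat_lit 442390) (nat_lit 11) (.e (nat_lit 335894) (nat_lit 0) (.e (nat_lit 6724) (nat_lit 362) (.e (nat_lit 180271) (nat_lit 26) (.e (nat_lit 704628) (nat_lit 9) .nil)))))) (.g (nat_lit 53) .nil .nil))))) (.nd (nat_lit 1) (.nd (nat_lit 2) 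
(.lf (nat_lit 49) (.g (nat_lit 1870) (.e (nat_lit 300) (nat_lit 22) (.e (nat_lit 344069) (nat_lit 0) (.e (nat_lit 2857) (nat_lit 184) (.e (nat_lit 426533) (nat_lit 28) (.e (nat_lit 344084) (nat_lit 14) (.e (nat_lit 57864) (nat_lit 256) .nil)))))) (.g (nat_lit 50) .nil .nil))) 
(.lf (nat_lit 53) (.g (nat_lit 3611) (.e (nat_lit 312) (nat_lit 23) (.e (nat_lit 352277) (nat_lit 11) (.e (nat_lit 426011) (nat_lit 0) (.e (nat_lit 7593) (nat_lit 407) (.e (nat_lit 73775) (nat_lit 26) (.e (nat_lit 778361) (nat_lit 9) .nil)))))) (.g (nat_lit 54) .nil .nil)))) (.nd (nat_lit 2) 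
(.lf (nat_lit 51) (.g (nat_lit 2297) (.e (nat_lit 301) (nat_lit 22) (.e (nat_lit 344069) (nat_lit 0) (.e (nat_lit 2857) (nat_lit 184) (.e (nat_lit 426533) (nat_lit 28) (.e (nat_lit 344085) (nat_lit 15) (.e (nat_lit 123165) (nat_lit 256) .nil)))))) (.g (nat_lit 52) .nil .nil))) 
(.lf (nat_lit 55) (.g (nat_lit 3097) (.e (nat_lit 312) (nat_lit 23) (.e (nat_lit 352277) (nat_lit 11) (.e (nat_lit 426012) (nat_lit 0) (.e (nat_lit 7593) (nat_lit 407) (.e (nat_lit 73775) (nat_lit 26) (.e (nat_lit 778361) (nat_lit 9) .nil)))))) (.g (nat_lit 56) .nil .nil))))))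

noncomputable def tu008 : DT := (.nd (nat_lit 0) (.nd (nat_lit 1) (.nd (nat_lit 2) 
(.lf (nat_lit 56) (.g (nat_lit 3097) (.e (nat_lit 457) (nat_lit 34) (.e (nat_lit 442390) (nat_lit 11) (.e (nat_lit 335895) (nat_lit 0) (.e (nat_lit 6724) (nat_lit 362) (.e (nat_lit 180271) (nat_lit 26) (.e (nat_lit 704628) (nat_lit 9) .nil)))))) (.g (nat_lit 55) .nil .nil))) 
(.lf (nat_lit 60) (.g (nat_lit 1820) (.e (nat_lit 496) (nat_lit 39) (.e (nat_lit 483391) (nat_lit 23) (.e (nat_lit 336017) (nat_lit 3) (.e (nat_lit 98309) (nat_lit 0) (.e (nat_lit 6209) (nat_lit 333) (.e (nat_lit 57879) (nat_lit 270) .nil)))))) (.g (nat_lit 59) .nil .nil)))) (.nd (nat_lit 2) 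
(.lf (nat_lit 58) (.g (nat_lit 2112) (.e (nat_lit 496) (nat_lit 39) (.e (nat_lit 483391) (nat_lit 23) (.e (nat_lit 336017) (nat_lit 3) (.e (nat_lit 98309) (nat_lit 0) (.e (nat_lit 6207) (nat_lit 333) (.e (nat_lit 57878) (nat_lit 270) .nil)))))) (.g (nat_lit 57) .nil .nil))) 
(.lf (nat_lit 62) (.g (nat_lit 2510) (.e (nat_lit 496) (nat_lit 39) (.e (nat_lit 483393) (nat_lit 23) (.e (nat_lit 336003) (nat_lit 2) (.e (nat_lit 90153) (nat_lit 10) (.e (nat_lit 8541) (nat_lit 226) (.e (nat_lit 57881) (nat_lit 270) .nil)))))) (.g (nat_lit 61) .nil .nil))))) (.nd (nat_lit 1) (.nd (nat_lit 2) 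
(.lf (nat_lit 57) (.g (nat_lit 2112) (.e (nat_lit 351) (nat_lit 28) (.e (nat_lit 393279) (nat_lit 23) (.e (nat_lit 426129) (nat_lit 3) (.e (nat_lit 204805) (nat_lit 0) (.e (nat_lit 7096) (nat_lit 380) (.e (nat_lit 164353) (nat_lit 246) .nil)))))) (.g (nat_lit 58) .nil .nil))) 
(.lf (nat_lit 61) (.g (nat_lit 2510) (.e (nat_lit 351) (nat_lit 28) (.e (nat_lit 393281) (nat_lit 23) (.e (nat_lit 426115) (nat_lit 2) (.e (nat_lit 196649) (nat_lit 10) (.e (nat_lit 8499) (nat_lit 183) (.e (nat_lit 164356) (nat_lit 246) .nil)))))) (.g (nat_lit 62) .nil .nil)))) (.nd (nat_lit 2) 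
(.lf (nat_lit 59) (.g (nat_lit 1820) (.e (nat_lit 351) (nat_lit 28) (.e (nat_lit 393279) (nat_lit 23) (.e (nat_lit 426129) (nat_lit 3) (.e (nat_lit 204805) (nat_lit 0) (.e (nat_lit 7098) (nat_lit 380) (.e (nat_lit 164354) (nat_lit 246) .nil)))))) (.g (nat_lit 60) .nil .nil))) 
(.lf (nat_lit 63) (.g (nat_lit 2016) (.e (nat_lit 351) (nat_lit 28) (.e (nat_lit 393281) (nat_lit 23) (.e (nat_lit 426115) (nat_lit 2) (.e (nat_lit 196649) (nat_lit 10) (.e (nat_lit 8499) (nat_lit 183) (.e (nat_lit 164358) (nat_lit 246) .nil)))))) (.g (nat_lit 64) .nil .nil))))))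

noncomputable def tu009 : DT := (.nd (nat_lit 0) (.nd (nat_lit 1) (.nd (nat_lit 2) 
(.lf (nat_lit 64) (.g (nat_lit 2016) (.e (nat_lit 496) (nat_lit 39) (.e (nat_lit 483393) (nat_lit 23) (.e (nat_lit 336003) (nat_lit 2) (.e (nat_lit 90153) (nat_lit 10) (.e (nat_lit 8541) (nat_lit 226) (.e (nat_lit 57883) (nat_lit 270) .nil)))))) (.g (nat_lit 63) .nil .nil))) 
(.lf (nat_lit 68) (.g (nat_lit 2322) (.e (nat_lit 496) (nat_lit 39) (.e (nat_lit 483399) (nat_lit 25) (.e (nat_lit 368676) (nat_lit 21) (.e (nat_lit 516191) (nat_lit 17) (.e (nat_lit 6207) (nat_lit 333) (.e (nat_lit 57878) (nat_lit 270) .nil)))))) (.g (nat_lit 67) .nil .nil)))) (.nd (nat_lit 2) 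
(.lf (nat_lit 66) (.g (nat_lit 2347) (.e (nat_lit 496) (nat_lit 39) (.e (nat_lit 483398) (nat_lit 25) (.e (nat_lit 368676) (nat_lit 21) (.e (nat_lit 516191) (nat_lit 17) (.e (nat_lit 6207) (nat_lit 333) (.e (nat_lit 57878) (nat_lit 270) .nil)))))) (.g (nat_lit 65) .nil .nil))) 
(.lf (nat_lit 70) (.g (nat_lit 6631) (.e (nat_lit 7936) (nat_lit 45) (.e (nat_lit 532550) (nat_lit 12) (.e (nat_lit 360475) (nat_lit 8) (.e (nat_lit 557087) (nat_lit 11) (.e (nat_lit 24617) (nat_lit 7) (.e (nat_lit 319504) (nat_lit 10) .nil)))))) (.g (nat_lit 69) .nil .nil))))) (.nd (nat_lit 1) (.nd (nat_lit 2) 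
(.lf (nat_lit 65) (.g (nat_lit 2347) (.e (nat_lit 351) (nat_lit 28) (.e (nat_lit 393286) (nat_lit 25) (.e (nat_lit 458789) (nat_lit 23) (.e (nat_lit 532575) (nat_lit 17) (.e (nat_lit 7096) (nat_lit 380) (.e (nat_lit 164353) (nat_lit 246) .nil)))))) (.g (nat_lit 66) .nil .nil))) 
(.lf (nat_lit 69) (.g (nat_lit 6631) (.e (nat_lit 7936) (nat_lit 43) (.e (nat_lit 516166) (nat_lit 12) (.e (nat_lit 450588) (nat_lit 10) (.e (nat_lit 573471) (nat_lit 11) (.e (nat_lit 16425) (nat_lit 7) (.e (nat_lit 409616) (nat_lit 10) .nil)))))) (.g (nat_lit 70) .nil .nil)))) (.nd (nat_lit 2) 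
(.lf (nat_lit 67) (.g (nat_lit 2322) (.e (nat_lit 351) (nat_lit 28) (.e (nat_lit 393287) (nat_lit 25) (.e (nat_lit 458789) (nat_lit 23) (.e (nat_lit 532575) (nat_lit 17) (.e (nat_lit 7096) (nat_lit 380) (.e (nat_lit 164353) (nat_lit 246) .nil)))))) (.g (nat_lit 68) .nil .nil))) 
(.lf (nat_lit 71) (.g (nat_lit 1956) (.e (nat_lit 1141) (nat_lit 84) (.e (nat_lit 32789) (nat_lit 11) (.e (nat_lit 81947) (nat_lit 20) (.e (nat_lit 1842) (nat_lit 123) (.e (nat_lit 548890) (nat_lit 10) (.e (nat_lit 73788) (nat_lit 45) .nil)))))) (.g (nat_lit 72) .nil .nil))))))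

noncomputable def tu010 : DT := (.nd (nat_lit 0) (.nd (nat_lit 1) (.nd (nat_lit 2) 
(.lf (nat_lit 72) (.g (nat_lit 1956) (.e (nat_lit 2571) (nat_lit 160) (.e (nat_lit 32809) (nat_lit 20) (.e (nat_lit 188441) (nat_lit 20) (.e (nat_lit 3272) (nat_lit 199) (.e (nat_lit 548914) (nat_lit 19) (.e (nat_lit 180284) (nat_lit 45) .nil)))))) (.g (nat_lit 71) .nil .nil))) 
(.lf (nat_lit 76) (.g (nat_lit 4209) (.e (nat_lit 2599) (nat_lit 163) (.e (nat_lit 163978) (nat_lit 30) (.e (nat_lit 573484) (nat_lit 13) (.e (nat_lit 65610) (nat_lit 10) (.e (nat_lit 344117) (nat_lit 21) (.e (nat_lit 516151) (nat_lit 9) (.e (nat_lit 426097) (nat_lit 1) (.e (nat_lit 164346) (nat_lit 240) .nil)))))))) (.g (nat_lit 75) .nil .nil)))) (.nd (nat_lit 2) 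
(.lf (nat_lit 74) (.g (nat_lit 4429) (.e (nat_lit 2599) (nat_lit 163) (.e (nat_lit 163978) (nat_lit 30) (.e (nat_lit 573484) (nat_lit 13) (.e (nat_lit 65610) (nat_lit 10) (.e (nat_lit 344117) (nat_lit 21) (.e (nat_lit 516143) (nat_lit 9) (.e (nat_lit 426109) (nat_lit 1) (.e (nat_lit 164347) (nat_lit 240) .nil)))))))) (.g (nat_lit 73) .nil .nil))) 
(.lf (nat_lit 78) (.g (nat_lit 4471) (.e (nat_lit 2599) (nat_lit 163) (.e (nat_lit 163978) (nat_lit 30) (.e (nat_lit 573484) (nat_lit 13) (.e (nat_lit 65610) (nat_lit 10) (.e (nat_lit 344117) (nat_lit 21) (.e (nat_lit 516151) (nat_lit 9) (.e (nat_lit 426097) (nat_lit 1) (.e (nat_lit 164348) (nat_lit 240) .nil)))))))) (.g (nat_lit 77) .nil .nil))))) (.nd (nat_lit 1) (.nd (nat_lit 2) 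
(.lf (nat_lit 73) (.g (nat_lit 4429) (.e (nat_lit 1170) (nat_lit 87) (.e (nat_lit 57479) (nat_lit 28) (.e (nat_lit 557100) (nat_lit 13) (.e (nat_lit 172106) (nat_lit 10) (.e (nat_lit 434231) (nat_lit 23) (.e (nat_lit 532527) (nat_lit 9) (.e (nat_lit 335997) (nat_lit 1) (.e (nat_lit 57872) (nat_lit 264) .nil)))))))) (.g (nat_lit 74) .nil .nil))) 
(.lf (nat_lit 77) (.g (nat_lit 4471) (.e (nat_lit 1170) (nat_lit 87) (.e (nat_lit 57479) (nat_lit 28) (.e (nat_lit 557100) (nat_lit 13) (.e (nat_lit 172106) (nat_lit 10) (.e (nat_lit 434231) (nat_lit 23) (.e (nat_lit 532535) (nat_lit 9) (.e (nat_lit 335985) (nat_lit 1) (.e (nat_lit 57873) (nat_lit 264) .nil)))))))) (.g (nat_lit 78) .nil .nil)))) (.nd (nat_lit 2) 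
(.lf (nat_lit 75) (.g (nat_lit 4209) (.e (nat_lit 1170) (nat_lit 87) (.e (nat_lit 57479) (nat_lit 28) (.e (nat_lit 557100) (nat_lit 13) (.e (nat_lit 172106) (nat_lit 10) (.e (nat_lit 434231) (nat_lit 23) (.e (nat_lit 532535) (nat_lit 9) (.e (nat_lit 335985) (nat_lit 1) (.e (nat_lit 57871) (nat_lit 264) .nil)))))))) (.g (nat_lit 76) .nil .nil))) 
(.lf (nat_lit 79) (.g (nat_lit 4734) (.e (nat_lit 1170) (nat_lit 87) (.e (nat_lit 57479) (nat_lit 28) (.e (nat_lit 557100) (nat_lit 13) (.e (nat_lit 172106) (nat_lit 10) (.e (nat_lit 434231) (nat_lit 23) (.e (nat_lit 532543) (nat_lit 10) (.e (nat_lit 344097) (nat_lit 18) (.e (nat_lit 5906) (nat_lit 320) .nil)))))))) (.g (nat_lit 80) .nil .nil))))))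

noncomputable def tu011 : DT := (.nd (nat_lit 0) (.nd (nat_lit 1) (.nd (nat_lit 2) (.nd (nat_lit 3) 
(.lf (nat_lit 80) (.g (nat_lit 4734) (.e (nat_lit 2599) (nat_lit 163) (.e (nat_lit 163978) (nat_lit 30) (.e (nat_lit 573484) (nat_lit 13) (.e (nat_lit 65610) (nat_lit 10) (.e (nat_lit 344117) (nat_lit 21) (.e (nat_lit 516159) (nat_lit 10) (.e (nat_lit 434209) (nat_lit 18) (.e (nat_lit 5547) (nat_lit 306) .nil)))))))) (.g (nat_lit 79) .nil .nil))) 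
(.lf (nat_lit 88) (.g (nat_lit 4972) (.e (nat_lit 2610) (nat_lit 163) (.e (nat_lit 163978) (nat_lit 30) (.e (nat_lit 573484) (nat_lit 13) (.e (nat_lit 65610) (nat_lit 10) (.e (nat_lit 344117) (nat_lit 21) (.e (nat_lit 516143) (nat_lit 9) (.e (nat_lit 426109) (nat_lit 1) (.e (nat_lit 164345) (nat_lit 240) .nil)))))))) (.g (nat_lit 87) .nil .nil)))) (.nd (nat_lit 3) 
(.lf (nat_lit 84) (.g (nat_lit 5420) (.e (nat_lit 2599) (nat_lit 163) (.e (nat_lit 163978) (nat_lit 30) (.e (nat_lit 573484) (nat_lit 13) (.e (nat_lit 65610) (nat_lit 10) (.e (nat_lit 344117) (nat_lit 21) (.e (nat_lit 516160) (nat_lit 10) (.e (nat_lit 434209) (nat_lit 18) (.e (nat_lit 5548) (nat_lit 306) .nil)))))))) (.g (nat_lit 83) .nil .nil))) 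
(.lf (nat_lit 92) (.g (nat_lit 3096) (.e (nat_lit 2618) (nat_lit 164) (.e (nat_lit 172097) (nat_lit 9) (.e (nat_lit 426109) (nat_lit 1) (.e (nat_lit 164345) (nat_lit 240) (.e (nat_lit 2619) (nat_lit 164) (.e (nat_lit 172097) (nat_lit 9) (.e (nat_lit 426109) (nat_lit 1) (.e (nat_lit 164346) (nat_lit 240) .nil)))))))) (.g (nat_lit 91) .nil .nil))))) (.nd (nat_lit 2) (.nd (nat_lit 3) 
(.lf (nat_lit 82) (.g (nat_lit 5013) (.e (nat_lit 2599) (nat_lit 163) (.e (nat_lit 163978) (nat_lit 30) (.e (nat_lit 573484) (nat_lit 13) (.e (nat_lit 65610) (nat_lit 10) (.e (nat_lit 344117) (nat_lit 21) (.e (nat_lit 516159) (nat_lit 10) (.e (nat_lit 434209) (nat_lit 18) (.e (nat_lit 5548) (nat_lit 306) .nil)))))))) (.g (nat_lit 81) .nil .nil))) 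
(.lf (nat_lit 90) (.g (nat_lit 4936) (.e (nat_lit 2610) (nat_lit 163) (.e (nat_lit 163978) (nat_lit 30) (.e (nat_lit 573484) (nat_lit 13) (.e (nat_lit 65610) (nat_lit 10) (.e (nat_lit 344117) (nat_lit 21) (.e (nat_lit 516151) (nat_lit 9) (.e (nat_lit 426097) (nat_lit 1) (.e (nat_lit 164345) (nat_lit 240) .nil)))))))) (.g (nat_lit 89) .nil .nil)))) (.nd (nat_lit 3) 
(.lf (nat_lit 86) (.g (nat_lit 4484) (.e (nat_lit 2602) (nat_lit 163) (.e (nat_lit 163978) (nat_lit 30) (.e (nat_lit 573484) (nat_lit 13) (.e (nat_lit 65610) (nat_lit 10) (.e (nat_lit 344117) (nat_lit 21) (.e (nat_lit 516151) (nat_lit 9) (.e (nat_lit 426142) (nat_lit 4) (.e (nat_lit 229664) (nat_lit 240) .nil)))))))) (.g (nat_lit 85) .nil .nil))) 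
(.lf (nat_lit 94) (.g (nat_lit 3732) (.e (nat_lit 2618) (nat_lit 164) (.e (nat_lit 172097) (nat_lit 9) (.e (nat_lit 426109) (nat_lit 1) (.e (nat_lit 164345) (nat_lit 240) (.e (nat_lit 2619) (nat_lit 164) (.e (nat_lit 172115) (nat_lit 10) (.e (nat_lit 434209) (nat_lit 18) (.e (nat_lit 5546) (nat_lit 306) .nil)))))))) (.g (nat_lit 93) .nil .nil)))))) 
(.nd (nat_lit 1) (.nd (nat_lit 2) (.nd (nat_lit 3) 
(.lf (nat_lit 81) (.g (nat_lit 5013) (.e (nat_lit 1170) (nat_lit 87) (.e (nat_lit 57479) (nat_lit 28) (.e (nat_lit 557100) (nat_lit 13) (.e (nat_lit 172106) (nat_lit 10) (.e (nat_lit 434231) (nat_lit 23) (.e (nat_lit 532543) (nat_lit 10) (.e (nat_lit 344097) (nat_lit 18) (.e (nat_lit 5907) (nat_lit 320) .nil)))))))) (.g (nat_lit 82) .nil .nil))) 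
(.lf (nat_lit 89) (.g (nat_lit 4936) (.e (nat_lit 1181) (nat_lit 87) (.e (nat_lit 57479) (nat_lit 28) (.e (nat_lit 557100) (nat_lit 13) (.e (nat_lit 172106) (nat_lit 10) (.e (nat_lit 434231) (nat_lit 23) (.e (nat_lit 532535) (nat_lit 9) (.e (nat_lit 335985) (nat_lit 1) (.e (nat_lit 57870) (nat_lit 264) .nil)))))))) (.g (nat_lit 90) .nil .nil)))) (.nd (nat_lit 3) 
(.lf (nat_lit 85) (.g (nat_lit 4484) (.e (nat_lit 1173) (nat_lit 87) (.e (nat_lit 57479) (nat_lit 28) (.e (nat_lit 557100) (nat_lit 13) (.e (nat_lit 172106) (nat_lit 10) (.e (nat_lit 434231) (nat_lit 23) (.e (nat_lit 532535) (nat_lit 9) (.e (nat_lit 336030) (nat_lit 4) (.e (nat_lit 123183) (nat_lit 264) .nil)))))))) (.g (nat_lit 86) .nil .nil))) 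
(.lf (nat_lit 93) (.g (nat_lit 3732) (.e (nat_lit 1189) (nat_lit 88) (.e (nat_lit 65604) (nat_lit 9) (.e (nat_lit 335997) (nat_lit 1) (.e (nat_lit 57870) (nat_lit 264) (.e (nat_lit 1190) (nat_lit 88) (.e (nat_lit 65619) (nat_lit 10) (.e (nat_lit 344097) (nat_lit 18) (.e (nat_lit 5905) (nat_lit 320) .nil)))))))) (.g (nat_lit 94) .nil .nil))))) (.nd (nat_lit 2) (.nd (nat_lit 3) 
(.lf (nat_lit 83) (.g (nat_lit 5420) (.e (nat_lit 1170) (nat_lit 87) (.e (nat_lit 57479) (nat_lit 28) (.e (nat_lit 557100) (nat_lit 13) (.e (nat_lit 172106) (nat_lit 10) (.e (nat_lit 434231) (nat_lit 23) (.e (nat_lit 532544) (nat_lit 10) (.e (nat_lit 344097) (nat_lit 18) (.e (nat_lit 5907) (nat_lit 320) .nil)))))))) (.g (nat_lit 84) .nil .nil))) 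
(.lf (nat_lit 91) (.g (nat_lit 3096) (.e (nat_lit 1189) (nat_lit 88) (.e (nat_lit 65604) (nat_lit 9) (.e (nat_lit 335997) (nat_lit 1) (.e (nat_lit 57870) (nat_lit 264) (.e (nat_lit 1190) (nat_lit 88) (.e (nat_lit 65604) (nat_lit 9) (.e (nat_lit 335997) (nat_lit 1) (.e (nat_lit 57871) (nat_lit 264) .nil)))))))) (.g (nat_lit 92) .nil .nil)))) (.nd (nat_lit 3) 
(.lf (nat_lit 87) (.g (nat_lit 4972) (.e (nat_lit 1181) (nat_lit 87) (.e (nat_lit 57479) (nat_lit 28) (.e (nat_lit 557100) (nat_lit 13) (.e (nat_lit 172106) (nat_lit 10) (.e (nat_lit 434231) (nat_lit 23) (.e (nat_lit 532527) (nat_lit 9) (.e (nat_lit 335997) (nat_lit 1) (.e (nat_lit 57870) (nat_lit 264) .nil)))))))) (.g (nat_lit 88) .nil .nil))) 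
(.lf (nat_lit 95) (.g (nat_lit 3043) (.e (nat_lit 1190) (nat_lit 88) (.e (nat_lit 65628) (nat_lit 14) (.e (nat_lit 401457) (nat_lit 13) (.e (nat_lit 483378) (nat_lit 23) (.e (nat_lit 335997) (nat_lit 1) (.e (nat_lit 57870) (nat_lit 264) .nil)))))) (.g (nat_lit 96) .nil .nil)))))))

noncomputable def tu012 : DT := (.nd (nat_lit 0) (.nd (nat_lit 1) (.nd (nat_lit 2) 
(.lf (nat_lit 96) (.g (nat_lit 3043) (.e (nat_lit 2619) (nat_lit 164) (.e (nat_lit 172124) (nat_lit 14) (.e (nat_lit 491569) (nat_lit 13) (.e (nat_lit 393266) (nat_lit 23) (.e (nat_lit 426109) (nat_lit 1) (.e (nat_lit 164345) (nat_lit 240) .nil)))))) (.g (nat_lit 95) .nil .nil))) 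
(.lf (nat_lit 100) (.g (nat_lit 5420) (.e (nat_lit 2630) (nat_lit 164) (.e (nat_lit 172064) (nat_lit 2) (.e (nat_lit 196666) (nat_lit 13) (.e (nat_lit 65610) (nat_lit 10) (.e (nat_lit 344129) (nat_lit 26) (.e (nat_lit 557090) (nat_lit 12) (.e (nat_lit 163847) (nat_lit 0) (.e (nat_lit 6255) (nat_lit 337) .nil)))))))) (.g (nat_lit 99) .nil .nil)))) (.nd (nat_lit 2) 
(.lf (nat_lit 98) (.g (nat_lit 5170) (.e (nat_lit 2630) (nat_lit 164) (.e (nat_lit 172064) (nat_lit 2) (.e (nat_lit 196666) (nat_lit 13) (.e (nat_lit 65610) (nat_lit 10) (.e (nat_lit 344129) (nat_lit 26) (.e (nat_lit 557090) (nat_lit 12) (.e (nat_lit 163847) (nat_lit 0) (.e (nat_lit 6254) (nat_lit 337) .nil)))))))) (.g (nat_lit 97) .nil .nil))) 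
(.lf (nat_lit 102) (.g (nat_lit 5799) (.e (nat_lit 2630) (nat_lit 164) (.e (nat_lit 172106) (nat_lit 10) (.e (nat_lit 434209) (nat_lit 18) (.e (nat_lit 6425) (nat_lit 342) (.e (nat_lit 229415) (nat_lit 15) (.e (nat_lit 450563) (nat_lit 0) (.e (nat_lit 6254) (nat_lit 337) .nil))))))) (.g (nat_lit 101) .nil .nil))))) (.nd (nat_lit 1) (.nd (nat_lit 2) 
(.lf (nat_lit 97) (.g (nat_lit 5170) (.e (nat_lit 1201) (nat_lit 88) (.e (nat_lit 65568) (nat_lit 2) (.e (nat_lit 90170) (nat_lit 13) (.e (nat_lit 172106) (nat_lit 10) (.e (nat_lit 434244) (nat_lit 28) (.e (nat_lit 573474) (nat_lit 12) (.e (nat_lit 57351) (nat_lit 0) (.e (nat_lit 7124) (nat_lit 382) .nil)))))))) (.g (nat_lit 98) .nil .nil))) 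
(.lf (nat_lit 101) (.g (nat_lit 5799) (.e (nat_lit 1201) (nat_lit 88) (.e (nat_lit 65610) (nat_lit 10) (.e (nat_lit 344097) (nat_lit 18) (.e (nat_lit 7270) (nat_lit 385) (.e (nat_lit 122919) (nat_lit 15) (.e (nat_lit 360451) (nat_lit 0) (.e (nat_lit 7124) (nat_lit 382) .nil))))))) (.g (nat_lit 102) .nil .nil)))) (.nd (nat_lit 2) 
(.lf (nat_lit 99) (.g (nat_lit 5420) (.e (nat_lit 1201) (nat_lit 88) (.e (nat_lit 65568) (nat_lit 2) (.e (nat_lit 90170) (nat_lit 13) (.e (nat_lit 172106) (nat_lit 10) (.e (nat_lit 434244) (nat_lit 28) (.e (nat_lit 573474) (nat_lit 12) (.e (nat_lit 57351) (nat_lit 0) (.e (nat_lit 7125) (nat_lit 382) .nil)))))))) (.g (nat_lit 100) .nil .nil))) 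
(.lf (nat_lit 103) (.g (nat_lit 3953) (.e (nat_lit 1201) (nat_lit 88) (.e (nat_lit 65617) (nat_lit 10) (.e (nat_lit 344097) (nat_lit 18) (.e (nat_lit 5906) (nat_lit 320) (.e (nat_lit 1221) (nat_lit 90) (.e (nat_lit 81959) (nat_lit 24) (.e (nat_lit 123182) (nat_lit 264) .nil))))))) (.g (nat_lit 104) .nil .nil))))))

noncomputable def tu013 : DT := (.nd (nat_lit 0) (.nd (nat_lit 1) (.nd (nat_lit 2) 
(.lf (nat_lit 104) (.g (nat_lit 3953) (.e (nat_lit 2630) (nat_lit 164) (.e (nat_lit 172113) (nat_lit 10) (.e (nat_lit 434209) (nat_lit 18) (.e (nat_lit 5547) (nat_lit 306) (.e (nat_lit 2650) (nat_lit 166) (.e (nat_lit 188455) (nat_lit 24) (.e (nat_lit 229663) (nat_lit 240) .nil))))))) (.g (nat_lit 103) .nil .nil))) 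
(.lf (nat_lit 108) (.g (nat_lit 2842) (.e (nat_lit 7936) (nat_lit 166) (.e (nat_lit 188446) (nat_lit 21) (.e (nat_lit 164347) (nat_lit 240) (.e (nat_lit 2650) (nat_lit 166) (.e (nat_lit 188455) (nat_lit 24) (.e (nat_lit 229663) (nat_lit 240) .nil)))))) (.g (nat_lit 107) .nil .nil)))) (.nd (nat_lit 2) 
(.lf (nat_lit 106) (.g (nat_lit 3056) (.e (nat_lit 7936) (nat_lit 166) (.e (nat_lit 188444) (nat_lit 21) (.e (nat_lit 164347) (nat_lit 240) (.e (nat_lit 2650) (nat_lit 166) (.e (nat_lit 188455) (nat_lit 24) (.e (nat_lit 229663) (nat_lit 240) .nil)))))) (.g (nat_lit 105) .nil .nil))) 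
(.lf (nat_lit 110) (.g (nat_lit 2841) (.e (nat_lit 2684) (nat_lit 168) (.e (nat_lit 204868) (nat_lit 29) (.e (nat_lit 360466) (nat_lit 3) (.e (nat_lit 516139) (nat_lit 7) (.e (nat_lit 409616) (nat_lit 10) (.e (nat_lit 7936) (nat_lit 312) .nil)))))) (.g (nat_lit 109) .nil .nil))))) (.nd (nat_lit 1) (.nd (nat_lit 2) 
(.lf (nat_lit 105) (.g (nat_lit 3056) (.e (nat_lit 7936) (nat_lit 90) (.e (nat_lit 81948) (nat_lit 21) (.e (nat_lit 57872) (nat_lit 264) (.e (nat_lit 1221) (nat_lit 90) (.e (nat_lit 81959) (nat_lit 24) (.e (nat_lit 123182) (nat_lit 264) .nil)))))) (.g (nat_lit 106) .nil .nil))) 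
(.lf (nat_lit 109) (.g (nat_lit 2841) (.e (nat_lit 1255) (nat_lit 92) (.e (nat_lit 98372) (nat_lit 29) (.e (nat_lit 450579) (nat_lit 5) (.e (nat_lit 532523) (nat_lit 7) (.e (nat_lit 319504) (nat_lit 10) (.e (nat_lit 7936) (nat_lit 298) .nil)))))) (.g (nat_lit 110) .nil .nil)))) (.nd (nat_lit 2) 
(.lf (nat_lit 107) (.g (nat_lit 2842) (.e (nat_lit 7936) (nat_lit 90) (.e (nat_lit 81950) (nat_lit 21) (.e (nat_lit 57872) (nat_lit 264) (.e (nat_lit 1221) (nat_lit 90) (.e (nat_lit 81959) (nat_lit 24) (.e (nat_lit 123182) (nat_lit 264) .nil)))))) (.g (nat_lit 108) .nil .nil))) 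
(.lf (nat_lit 111) (.g (nat_lit 2841) (.e (nat_lit 1348) (nat_lit 102) (.e (nat_lit 286733) (nat_lit 2) (.e (nat_lit 90176) (nat_lit 15) (.e (nat_lit 188450) (nat_lit 23) (.e (nat_lit 204817) (nat_lit 17) (.e (nat_lit 7936) (nat_lit 332) .nil)))))) (.g (nat_lit 112) .nil .nil))))))

noncomputable def tu014 : DT := (.nd (nat_lit 0) (.nd (nat_lit 1) 
(.lf (nat_lit 112) (.g (nat_lit 2841) (.e (nat_lit 2797) (nat_lit 180) (.e (nat_lit 303117) (nat_lit 2) (.e (nat_lit 196672) (nat_lit 15) (.e (nat_lit 81954) (nat_lit 23) (.e (nat_lit 98321) (nat_lit 17) (.e (nat_lit 7936) (nat_lit 377) .nil)))))) (.g (nat_lit 111) .nil .nil))) 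
(.lf (nat_lit 114) (.g (nat_lit 6631) (.e (nat_lit 2797) (nat_lit 180) (.e (nat_lit 303143) (nat_lit 12) (.e (nat_lit 475185) (nat_lit 29) (.e (nat_lit 557109) (nat_lit 15) (.e (nat_lit 188449) (nat_lit 22) (.e (nat_lit 204544) (nat_lit 18) .nil)))))) (.g (nat_lit 113) .nil .nil)))) (.nd (nat_lit 1) 
(.lf (nat_lit 113) (.g (nat_lit 6631) (.e (nat_lit 1348) (nat_lit 102) (.e (nat_lit 286759) (nat_lit 12) (.e (nat_lit 385074) (nat_lit 31) (.e (nat_lit 573493) (nat_lit 15) (.e (nat_lit 81953) (nat_lit 22) (.e (nat_lit 98048) (nat_lit 18) .nil)))))) (.g (nat_lit 114) .nil .nil))) 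
(.lf (nat_lit 115) (.g (nat_lit 4133) (.e (nat_lit 1427) (nat_lit 108) (.e (nat_lit 336428) (nat_lit 29) (.e (nat_lit 442374) (nat_lit 0) (.e (nat_lit 2059) (nat_lit 142) (.e (nat_lit 704595) (nat_lit 5) (.e (nat_lit 180278) (nat_lit 32) .nil)))))) (.g (nat_lit 116) .nil .nil)))))

noncomputable def tu015 : DT := (.nd (nat_lit 0) 
(.lf (nat_lit 116) (.g (nat_lit 4133) (.e (nat_lit 2856) (nat_lit 184) (.e (nat_lit 426540) (nat_lit 29) (.e (nat_lit 352262) (nat_lit 0) (.e (nat_lit 3632) (nat_lit 227) (.e (nat_lit 778323) (nat_lit 5) (.e (nat_lit 73782) (nat_lit 32) .nil)))))) (.g (nat_lit 115) .nil .nil))) 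
(.lf (nat_lit 117) (.g (nat_lit 2674) (.e (nat_lit 1427) (nat_lit 108) (.e (nat_lit 336430) (nat_lit 29) (.e (nat_lit 442399) (nat_lit 20) (.e (nat_lit 3401) (nat_lit 211) (.e (nat_lit 647184) (nat_lit 5) (.e (nat_lit 180278) (nat_lit 32) .nil)))))) (.g (nat_lit 118) .nil .nil))))

noncomputable def tu016 : DT := (.nd (nat_lit 0) 
(.lf (nat_lit 118) (.g (nat_lit 2674) (.e (nat_lit 2856) (nat_lit 184) (.e (nat_lit 426542) (nat_lit 29) (.e (nat_lit 352287) (nat_lit 20) (.e (nat_lit 1998) (nat_lit 137) (.e (nat_lit 663568) (nat_lit 5) (.e (nat_lit 73782) (nat_lit 32) .nil)))))) (.g (nat_lit 117) .nil .nil))) 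
(.lf (nat_lit 119) (.g (nat_lit 2815) (.e (nat_lit 1427) (nat_lit 108) (.e (nat_lit 336430) (nat_lit 29) (.e (nat_lit 442409) (nat_lit 20) (.e (nat_lit 3409) (nat_lit 212) (.e (nat_lit 655379) (nat_lit 5) (.e (nat_lit 180278) (nat_lit 32) .nil)))))) (.g (nat_lit 120) .nil .nil))))

noncomputable def tu017 : DT := (.nd (nat_lit 0) (.nd (nat_lit 1) 
(.lf (nat_lit 120) (.g (nat_lit 2815) (.e (nat_lit 2856) (nat_lit 184) (.e (nat_lit 426542) (nat_lit 29) (.e (nat_lit 352297) (nat_lit 20) (.e (nat_lit 2006) (nat_lit 138) (.e (nat_lit 671763) (nat_lit 5) (.e (nat_lit 73782) (nat_lit 32) .nil)))))) (.g (nat_lit 119) .nil .nil))) 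
(.lf (nat_lit 122) (.g (nat_lit 2128) (.e (nat_lit 2857) (nat_lit 184) (.e (nat_lit 426544) (nat_lit 30) (.e (nat_lit 360486) (nat_lit 18) (.e (nat_lit 671763) (nat_lit 5) (.e (nat_lit 73781) (nat_lit 32) .nil))))) (.g (nat_lit 121) .nil .nil)))) (.nd (nat_lit 1) 
(.lf (nat_lit 121) (.g (nat_lit 2128) (.e (nat_lit 1428) (nat_lit 108) (.e (nat_lit 336432) (nat_lit 30) (.e (nat_lit 450593) (nat_lit 16) (.e (nat_lit 655379) (nat_lit 5) (.e (nat_lit 180277) (nat_lit 32) .nil))))) (.g (nat_lit 122) .nil .nil))) 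
(.lf (nat_lit 123) (.g (nat_lit 2240) (.e (nat_lit 1428) (nat_lit 108) (.e (nat_lit 336432) (nat_lit 30) (.e (nat_lit 450593) (nat_lit 16) (.e (nat_lit 655379) (nat_lit 5) (.e (nat_lit 180278) (nat_lit 32) .nil))))) (.g (nat_lit 124) .nil .nil)))))

noncomputable def tu018 : DT := (.nd (nat_lit 0) 
(.lf (nat_lit 124) (.g (nat_lit 2240) (.e (nat_lit 2857) (nat_lit 184) (.e (nat_lit 426544) (nat_lit 30) (.e (nat_lit 360486) (nat_lit 18) (.e (nat_lit 671763) (nat_lit 5) (.e (nat_lit 73782) (nat_lit 32) .nil))))) (.g (nat_lit 123) .nil .nil))) 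
(.lf (nat_lit 125) (.g (nat_lit 2001) (.e (nat_lit 1428) (nat_lit 108) (.e (nat_lit 336434) (nat_lit 30) (.e (nat_lit 450593) (nat_lit 16) (.e (nat_lit 655379) (nat_lit 5) (.e (nat_lit 180277) (nat_lit 32) .nil))))) (.g (nat_lit 126) .nil .nil))))

noncomputable def tu019 : DT := (.nd (nat_lit 0) 
(.lf (nat_lit 126) (.g (nat_lit 2001) (.e (nat_lit 2857) (nat_lit 184) (.e (nat_lit 426546) (nat_lit 30) (.e (nat_lit 360486) (nat_lit 18) (.e (nat_lit 671763) (nat_lit 5) (.e (nat_lit 73781) (nat_lit 32) .nil))))) (.g (nat_lit 125) .nil .nil))) 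
(.lf (nat_lit 127) (.g (nat_lit 2094) (.e (nat_lit 1428) (nat_lit 108) (.e (nat_lit 336434) (nat_lit 30) (.e (nat_lit 450593) (nat_lit 16) (.e (nat_lit 655379) (nat_lit 5) (.e (nat_lit 180278) (nat_lit 32) .nil))))) (.g (nat_lit 128) .nil .nil))))

noncomputable def tu020 : DT := (.nd (nat_lit 0) (.nd (nat_lit 1) 
(.lf (nat_lit 128) (.g (nat_lit 2094) (.e (nat_lit 2857) (nat_lit 184) (.e (nat_lit 426546) (nat_lit 30) (.e (nat_lit 360486) (nat_lit 18) (.e (nat_lit 671763) (nat_lit 5) (.e (nat_lit 73782) (nat_lit 32) .nil))))) (.g (nat_lit 127) .nil .nil))) 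
(.lf (nat_lit 130) (.g (nat_lit 4054) (.e (nat_lit 2883) (nat_lit 184) (.e (nat_lit 426125) (nat_lit 2) (.e (nat_lit 196666) (nat_lit 13) (.e (nat_lit 65610) (nat_lit 10) (.e (nat_lit 344129) (nat_lit 26) (.e (nat_lit 557090) (nat_lit 12) (.e (nat_lit 164016) (nat_lit 44) (.e (nat_lit 688139) (nat_lit 5) .nil)))))))) (.g (nat_lit 129) .nil .nil)))) (.nd (nat_lit 1) 
(.lf (nat_lit 129) (.g (nat_lit 4054) (.e (nat_lit 1463) (nat_lit 108) (.e (nat_lit 336013) (nat_lit 2) (.e (nat_lit 90170) (nat_lit 13) (.e (nat_lit 172106) (nat_lit 10) (.e (nat_lit 434244) (nat_lit 28) (.e (nat_lit 573474) (nat_lit 12) (.e (nat_lit 57568) (nat_lit 53) (.e (nat_lit 761867) (nat_lit 5) .nil)))))))) (.g (nat_lit 130) .nil .nil))) 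
(.lf (nat_lit 131) (.g (nat_lit 486) (.e (nat_lit 1516) (nat_lit 108) (.e (nat_lit 336420) (nat_lit 28) (.e (nat_lit 434179) (nat_lit 0) (.e (nat_lit 1516) (nat_lit 108) (.e (nat_lit 336420) (nat_lit 28) (.e (nat_lit 434179) (nat_lit 0) .nil)))))) (.g (nat_lit 132) .nil .nil)))))

noncomputable def tu021 : DT := (.nd (nat_lit 0) (.nd (nat_lit 1) 
(.lf (nat_lit 132) (.g (nat_lit 486) (.e (nat_lit 2940) (nat_lit 184) (.e (nat_lit 426532) (nat_lit 28) (.e (nat_lit 344067) (nat_lit 0) (.e (nat_lit 2940) (nat_lit 184) (.e (nat_lit 426532) (nat_lit 28) (.e (nat_lit 344067) (nat_lit 0) .nil)))))) (.g (nat_lit 131) .nil .nil))) 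
(.lf (nat_lit 134) (.g (nat_lit 688) (.e (nat_lit 2984) (nat_lit 186) (.e (nat_lit 442382) (nat_lit 8) (.e (nat_lit 155652) (nat_lit 0) (.e (nat_lit 2984) (nat_lit 186) (.e (nat_lit 442382) (nat_lit 8) (.e (nat_lit 155652) (nat_lit 0) .nil)))))) (.g (nat_lit 133) .nil .nil)))) (.nd (nat_lit 1) 
(.lf (nat_lit 133) (.g (nat_lit 688) (.e (nat_lit 1555) (nat_lit 110) (.e (nat_lit 352270) (nat_lit 8) (.e (nat_lit 262148) (nat_lit 0) (.e (nat_lit 1555) (nat_lit 110) (.e (nat_lit 352270) (nat_lit 8) (.e (nat_lit 262148) (nat_lit 0) .nil)))))) (.g (nat_lit 134) .nil .nil))) 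
(.lf (nat_lit 135) (.g (nat_lit 2674) (.e (nat_lit 1574) (nat_lit 110) (.e (nat_lit 352277) (nat_lit 11) (.e (nat_lit 426011) (nat_lit 0) (.e (nat_lit 7593) (nat_lit 407) (.e (nat_lit 73772) (nat_lit 24) (.e (nat_lit 761868) (nat_lit 5) .nil)))))) (.g (nat_lit 136) .nil .nil)))))

noncomputable def tu022 : DT := (.nd (nat_lit 0) (.nd (nat_lit 1) (.nd (nat_lit 2) 
(.lf (nat_lit 136) (.g (nat_lit 2674) (.e (nat_lit 3003) (nat_lit 186) (.e (nat_lit 442390) (nat_lit 11) (.e (nat_lit 335894) (nat_lit 0) (.e (nat_lit 6724) (nat_lit 362) (.e (nat_lit 180268) (nat_lit 24) (.e (nat_lit 688140) (nat_lit 5) .nil)))))) (.g (nat_lit 135) .nil .nil))) 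
(.lf (nat_lit 140) (.g (nat_lit 2060) (.e (nat_lit 3026) (nat_lit 187) (.e (nat_lit 450600) (nat_lit 20) (.e (nat_lit 688140) (nat_lit 5) (.e (nat_lit 3026) (nat_lit 187) (.e (nat_lit 450600) (nat_lit 20) (.e (nat_lit 688140) (nat_lit 5) .nil)))))) (.g (nat_lit 139) .nil .nil)))) (.nd (nat_lit 2) 
(.lf (nat_lit 138) (.g (nat_lit 1956) (.e (nat_lit 3016) (nat_lit 187) (.e (nat_lit 450576) (nat_lit 2) (.e (nat_lit 507930) (nat_lit 10) (.e (nat_lit 5780) (nat_lit 317) (.e (nat_lit 180247) (nat_lit 7) (.e (nat_lit 548898) (nat_lit 14) .nil)))))) (.g (nat_lit 137) .nil .nil))) 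
(.lf (nat_lit 142) (.g (nat_lit 3544) (.e (nat_lit 3085) (nat_lit 191) (.e (nat_lit 483412) (nat_lit 27) (.e (nat_lit 401456) (nat_lit 13) (.e (nat_lit 483350) (nat_lit 17) (.e (nat_lit 6664) (nat_lit 357) .nil))))) (.g (nat_lit 141) .nil .nil))))) (.nd (nat_lit 1) (.nd (nat_lit 2) 
(.lf (nat_lit 137) (.g (nat_lit 1956) (.e (nat_lit 1589) (nat_lit 111) (.e (nat_lit 360464) (nat_lit 2) (.e (nat_lit 507908) (nat_lit 0) (.e (nat_lit 5413) (nat_lit 303) (.e (nat_lit 73751) (nat_lit 7) (.e (nat_lit 548874) (nat_lit 5) .nil)))))) (.g (nat_lit 138) .nil .nil))) 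
(.lf (nat_lit 141) (.g (nat_lit 3544) (.e (nat_lit 1656) (nat_lit 115) (.e (nat_lit 393300) (nat_lit 27) (.e (nat_lit 491568) (nat_lit 13) (.e (nat_lit 393238) (nat_lit 17) (.e (nat_lit 7535) (nat_lit 402) .nil))))) (.g (nat_lit 142) .nil .nil)))) (.nd (nat_lit 2) 
(.lf (nat_lit 139) (.g (nat_lit 2060) (.e (nat_lit 1597) (nat_lit 111) (.e (nat_lit 360488) (nat_lit 20) (.e (nat_lit 761868) (nat_lit 5) (.e (nat_lit 1597) (nat_lit 111) (.e (nat_lit 360488) (nat_lit 20) (.e (nat_lit 761868) (nat_lit 5) .nil)))))) (.g (nat_lit 140) .nil .nil))) 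
(.lf (nat_lit 143) (.g (nat_lit 3949) (.e (nat_lit 1656) (nat_lit 115) (.e (nat_lit 393300) (nat_lit 27) (.e (nat_lit 491570) (nat_lit 13) (.e (nat_lit 393238) (nat_lit 17) (.e (nat_lit 7535) (nat_lit 402) .nil))))) (.g (nat_lit 144) .nil .nil))))))

noncomputable def tu023 : DT := (.nd (nat_lit 0) (.nd (nat_lit 1) (.nd (nat_lit 2) 
(.lf (nat_lit 144) (.g (nat_lit 3949) (.e (nat_lit 3085) (nat_lit 191) (.e (nat_lit 483412) (nat_lit 27) (.e (nat_lit 401458) (nat_lit 13) (.e (nat_lit 483350) (nat_lit 17) (.e (nat_lit 6664) (nat_lit 357) .nil))))) (.g (nat_lit 143) .nil .nil))) 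
(.lf (nat_lit 148) (.g (nat_lit 4700) (.e (nat_lit 3272) (nat_lit 199) (.e (nat_lit 548913) (nat_lit 18) (.e (nat_lit 172120) (nat_lit 12) (.e (nat_lit 475185) (nat_lit 29) (.e (nat_lit 557109) (nat_lit 15) (.e (nat_lit 188434) (nat_lit 20) .nil)))))) (.g (nat_lit 147) .nil .nil)))) (.nd (nat_lit 2) 
(.lf (nat_lit 146) (.g (nat_lit 2590) (.e (nat_lit 3089) (nat_lit 191) (.e (nat_lit 483406) (nat_lit 26) (.e (nat_lit 385094) (nat_lit 49) (.e (nat_lit 778324) (nat_lit 5) (.e (nat_lit 73781) (nat_lit 32) .nil))))) (.g (nat_lit 145) .nil .nil))) 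
(.lf (nat_lit 150) (.g (nat_lit 4054) (.e (nat_lit 3399) (nat_lit 211) (.e (nat_lit 647180) (nat_lit 3) (.e (nat_lit 163978) (nat_lit 30) (.e (nat_lit 573484) (nat_lit 13) (.e (nat_lit 65610) (nat_lit 10) (.e (nat_lit 344117) (nat_lit 21) (.e (nat_lit 516151) (nat_lit 9) (.e (nat_lit 426023) (nat_lit 0) .nil)))))))) (.g (nat_lit 149) .nil .nil))))) (.nd (nat_lit 1) (.nd (nat_lit 2) 
(.lf (nat_lit 145) (.g (nat_lit 2590) (.e (nat_lit 1660) (nat_lit 115) (.e (nat_lit 393294) (nat_lit 26) (.e (nat_lit 475199) (nat_lit 40) (.e (nat_lit 704596) (nat_lit 5) (.e (nat_lit 180277) (nat_lit 32) .nil))))) (.g (nat_lit 146) .nil .nil))) 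
(.lf (nat_lit 149) (.g (nat_lit 4054) (.e (nat_lit 1996) (nat_lit 137) (.e (nat_lit 663564) (nat_lit 3) (.e (nat_lit 57479) (nat_lit 28) (.e (nat_lit 557100) (nat_lit 13) (.e (nat_lit 172106) (nat_lit 10) (.e (nat_lit 434231) (nat_lit 23) (.e (nat_lit 532535) (nat_lit 9) (.e (nat_lit 335908) (nat_lit 0) .nil)))))))) (.g (nat_lit 150) .nil .nil)))) (.nd (nat_lit 2) 
(.lf (nat_lit 147) (.g (nat_lit 4700) (.e (nat_lit 1842) (nat_lit 123) (.e (nat_lit 548889) (nat_lit 9) (.e (nat_lit 65624) (nat_lit 12) (.e (nat_lit 385074) (nat_lit 31) (.e (nat_lit 573493) (nat_lit 15) (.e (nat_lit 81938) (nat_lit 20) .nil)))))) (.g (nat_lit 148) .nil .nil))) 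
(.lf (nat_lit 151) (.g (nat_lit 2060) (.e (nat_lit 1998) (nat_lit 137) (.e (nat_lit 663569) (nat_lit 6) (.e (nat_lit 81935) (nat_lit 20) (.e (nat_lit 1998) (nat_lit 137) (.e (nat_lit 663569) (nat_lit 6) (.e (nat_lit 81935) (nat_lit 20) .nil)))))) (.g (nat_lit 152) .nil .nil))))))

noncomputable def tu024 : DT := (.nd (nat_lit 0) (.nd (nat_lit 1) (.nd (nat_lit 2) 
(.lf (nat_lit 152) (.g (nat_lit 2060) (.e (nat_lit 3401) (nat_lit 211) (.e (nat_lit 647185) (nat_lit 6) (.e (nat_lit 188431) (nat_lit 20) (.e (nat_lit 3401) (nat_lit 211) (.e (nat_lit 647185) (nat_lit 6) (.e (nat_lit 188431) (nat_lit 20) .nil)))))) (.g (nat_lit 151) .nil .nil))) 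
(.lf (nat_lit 156) (.g (nat_lit 4670) (.e (nat_lit 3408) (nat_lit 212) (.e (nat_lit 655375) (nat_lit 3) (.e (nat_lit 163978) (nat_lit 30) (.e (nat_lit 573484) (nat_lit 13) (.e (nat_lit 65610) (nat_lit 10) (.e (nat_lit 344117) (nat_lit 21) (.e (nat_lit 516151) (nat_lit 9) (.e (nat_lit 426043) (nat_lit 0) .nil)))))))) (.g (nat_lit 155) .nil .nil)))) (.nd (nat_lit 2) 
(.lf (nat_lit 154) (.g (nat_lit 4554) (.e (nat_lit 3407) (nat_lit 212) (.e (nat_lit 655375) (nat_lit 3) (.e (nat_lit 163978) (nat_lit 30) (.e (nat_lit 573484) (nat_lit 13) (.e (nat_lit 65610) (nat_lit 10) (.e (nat_lit 344117) (nat_lit 21) (.e (nat_lit 516151) (nat_lit 9) (.e (nat_lit 426043) (nat_lit 0) .nil)))))))) (.g (nat_lit 153) .nil .nil))) 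
(.lf (nat_lit 158) (.g (nat_lit 5406) (.e (nat_lit 3630) (nat_lit 227) (.e (nat_lit 778317) (nat_lit 3) (.e (nat_lit 57479) (nat_lit 28) (.e (nat_lit 557100) (nat_lit 13) (.e (nat_lit 172106) (nat_lit 10) (.e (nat_lit 434231) (nat_lit 23) (.e (nat_lit 532535) (nat_lit 9) (.e (nat_lit 336295) (nat_lit 15) .nil)))))))) (.g (nat_lit 157) .nil .nil))))) (.nd (nat_lit 1) (.nd (nat_lit 2) 
(.lf (nat_lit 153) (.g (nat_lit 4554) (.e (nat_lit 2004) (nat_lit 138) (.e (nat_lit 671759) (nat_lit 3) (.e (nat_lit 57479) (nat_lit 28) (.e (nat_lit 557100) (nat_lit 13) (.e (nat_lit 172106) (nat_lit 10) (.e (nat_lit 434231) (nat_lit 23) (.e (nat_lit 532535) (nat_lit 9) (.e (nat_lit 335928) (nat_lit 0) .nil)))))))) (.g (nat_lit 154) .nil .nil))) 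
(.lf (nat_lit 157) (.g (nat_lit 5406) (.e (nat_lit 2057) (nat_lit 142) (.e (nat_lit 704589) (nat_lit 3) (.e (nat_lit 163978) (nat_lit 30) (.e (nat_lit 573484) (nat_lit 13) (.e (nat_lit 65610) (nat_lit 10) (.e (nat_lit 344117) (nat_lit 21) (.e (nat_lit 516151) (nat_lit 9) (.e (nat_lit 426412) (nat_lit 15) .nil)))))))) (.g (nat_lit 158) .nil .nil)))) (.nd (nat_lit 2) 
(.lf (nat_lit 155) (.g (nat_lit 4670) (.e (nat_lit 2005) (nat_lit 138) (.e (nat_lit 671759) (nat_lit 3) (.e (nat_lit 57479) (nat_lit 28) (.e (nat_lit 557100) (nat_lit 13) (.e (nat_lit 172106) (nat_lit 10) (.e (nat_lit 434231) (nat_lit 23) (.e (nat_lit 532535) (nat_lit 9) (.e (nat_lit 335928) (nat_lit 0) .nil)))))))) (.g (nat_lit 156) .nil .nil))) 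
(.lf (nat_lit 159) (.g (nat_lit 3611) (.e (nat_lit 2058) (nat_lit 142) (.e (nat_lit 704595) (nat_lit 5) (.e (nat_lit 180278) (nat_lit 32) (.e (nat_lit 1427) (nat_lit 108) (.e (nat_lit 336430) (nat_lit 29) (.e (nat_lit 442379) (nat_lit 0) .nil)))))) (.g (nat_lit 160) .nil .nil))))))

noncomputable def tu025 : DT := (.nd (nat_lit 0) (.nd (nat_lit 1) (.nd (nat_lit 2) 
(.lf (nat_lit 160) (.g (nat_lit 3611) (.e (nat_lit 3631) (nat_lit 227) (.e (nat_lit 778323) (nat_lit 5) (.e (nat_lit 73782) (nat_lit 32) (.e (nat_lit 2856) (nat_lit 184) (.e (nat_lit 426542) (nat_lit 29) (.e (nat_lit 352267) (nat_lit 0) .nil)))))) (.g (nat_lit 159) .nil .nil))) 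
(.lf (nat_lit 164) (.g (nat_lit 3012) (.e (nat_lit 3748) (nat_lit 228) (.e (nat_lit 786483) (nat_lit 30) (.e (nat_lit 360457) (nat_lit 0) (.e (nat_lit 5949) (nat_lit 322) (.e (nat_lit 57435) (nat_lit 17) (.e (nat_lit 376835) (nat_lit 0) .nil)))))) (.g (nat_lit 163) .nil .nil)))) (.nd (nat_lit 2) 
(.lf (nat_lit 162) (.g (nat_lit 4232) (.e (nat_lit 3714) (nat_lit 227) (.e (nat_lit 778316) (nat_lit 3) (.e (nat_lit 57479) (nat_lit 28) (.e (nat_lit 557100) (nat_lit 13) (.e (nat_lit 172106) (nat_lit 10) (.e (nat_lit 434231) (nat_lit 23) (.e (nat_lit 532535) (nat_lit 9) (.e (nat_lit 336290) (nat_lit 15) .nil)))))))) (.g (nat_lit 161) .nil .nil))) 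
(.lf (nat_lit 166) (.g (nat_lit 2954) (.e (nat_lit 3748) (nat_lit 228) (.e (nat_lit 786483) (nat_lit 30) (.e (nat_lit 360457) (nat_lit 0) (.e (nat_lit 5949) (nat_lit 322) (.e (nat_lit 57436) (nat_lit 17) (.e (nat_lit 376835) (nat_lit 0) .nil)))))) (.g (nat_lit 165) .nil .nil))))) (.nd (nat_lit 1) (.nd (nat_lit 2) 
(.lf (nat_lit 161) (.g (nat_lit 4232) (.e (nat_lit 2146) (nat_lit 142) (.e (nat_lit 704588) (nat_lit 3) (.e (nat_lit 163978) (nat_lit 30) (.e (nat_lit 573484) (nat_lit 13) (.e (nat_lit 65610) (nat_lit 10) (.e (nat_lit 344117) (nat_lit 21) (.e (nat_lit 516151) (nat_lit 9) (.e (nat_lit 426407) (nat_lit 15) .nil)))))))) (.g (nat_lit 162) .nil .nil))) 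
(.lf (nat_lit 165) (.g (nat_lit 2954) (.e (nat_lit 2175) (nat_lit 143) (.e (nat_lit 712755) (nat_lit 30) (.e (nat_lit 450569) (nat_lit 0) (.e (nat_lit 5599) (nat_lit 310) (.e (nat_lit 163932) (nat_lit 17) (.e (nat_lit 466947) (nat_lit 0) .nil)))))) (.g (nat_lit 166) .nil .nil)))) (.nd (nat_lit 2) 
(.lf (nat_lit 163) (.g (nat_lit 3012) (.e (nat_lit 2175) (nat_lit 143) (.e (nat_lit 712755) (nat_lit 30) (.e (nat_lit 450569) (nat_lit 0) (.e (nat_lit 5599) (nat_lit 310) (.e (nat_lit 163931) (nat_lit 17) (.e (nat_lit 466947) (nat_lit 0) .nil)))))) (.g (nat_lit 164) .nil .nil))) 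
(.lf (nat_lit 167) (.g (nat_lit 3045) (.e (nat_lit 3089) (nat_lit 191) (.e (nat_lit 483391) (nat_lit 23) (.e (nat_lit 335998) (nat_lit 1) (.e (nat_lit 57873) (nat_lit 264) (.e (nat_lit 1209) (nat_lit 89) (.e (nat_lit 73781) (nat_lit 32) .nil)))))) (.g (nat_lit 168) .nil .nil))))))

noncomputable def tu026 : DT := (.nd (nat_lit 0) (.nd (nat_lit 1) 
(.lf (nat_lit 168) (.g (nat_lit 3045) (.e (nat_lit 1660) (nat_lit 115) (.e (nat_lit 393279) (nat_lit 23) (.e (nat_lit 426110) (nat_lit 1) (.e (nat_lit 164348) (nat_lit 240) (.e (nat_lit 2638) (nat_lit 165) (.e (nat_lit 180277) (nat_lit 32) .nil)))))) (.g (nat_lit 167) .nil .nil))) 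
(.lf (nat_lit 170) (.g (nat_lit 4967) (.e (nat_lit 5546) (nat_lit 306) (.e (nat_lit 2599) (nat_lit 163) (.e (nat_lit 163978) (nat_lit 30) (.e (nat_lit 573484) (nat_lit 13) (.e (nat_lit 65610) (nat_lit 10) (.e (nat_lit 344117) (nat_lit 21) (.e (nat_lit 516159) (nat_lit 10) (.e (nat_lit 434209) (nat_lit 18) .nil)))))))) (.g (nat_lit 169) .nil .nil)))) (.nd (nat_lit 1) 
(.lf (nat_lit 169) (.g (nat_lit 4967) (.e (nat_lit 5905) (nat_lit 320) (.e (nat_lit 1170) (nat_lit 87) (.e (nat_lit 57479) (nat_lit 28) (.e (nat_lit 557100) (nat_lit 13) (.e (nat_lit 172106) (nat_lit 10) (.e (nat_lit 434231) (nat_lit 23) (.e (nat_lit 532543) (nat_lit 10) (.e (nat_lit 344097) (nat_lit 18) .nil)))))))) (.g (nat_lit 170) .nil .nil))) 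
(.lf (nat_lit 171) (.g (nat_lit 5799) (.e (nat_lit 5906) (nat_lit 320) (.e (nat_lit 1221) (nat_lit 90) (.e (nat_lit 81959) (nat_lit 24) (.e (nat_lit 123182) (nat_lit 264) (.e (nat_lit 1201) (nat_lit 88) (.e (nat_lit 65610) (nat_lit 10) (.e (nat_lit 344097) (nat_lit 18) .nil))))))) (.g (nat_lit 172) .nil .nil)))))

noncomputable def tu027 : DT := (.nd (nat_lit 0) (.nd (nat_lit 1) 
(.lf (nat_lit 172) (.g (nat_lit 5799) (.e (nat_lit 5547) (nat_lit 306) (.e (nat_lit 2650) (nat_lit 166) (.e (nat_lit 188455) (nat_lit 24) (.e (nat_lit 229663) (nat_lit 240) (.e (nat_lit 2630) (nat_lit 164) (.e (nat_lit 172106) (nat_lit 10) (.e (nat_lit 434209) (nat_lit 18) .nil))))))) (.g (nat_lit 171) .nil .nil))) 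
(.lf (nat_lit 174) (.g (nat_lit 1870) (.e (nat_lit 7081) (nat_lit 378) (.e (nat_lit 57897) (nat_lit 274) (.e (nat_lit 65653) (nat_lit 27) (.e (nat_lit 426012) (nat_lit 0) (.e (nat_lit 7589) (nat_lit 406) (.e (nat_lit 65632) (nat_lit 15) .nil)))))) (.g (nat_lit 173) .nil .nil)))) (.nd (nat_lit 1) 
(.lf (nat_lit 173) (.g (nat_lit 1870) (.e (nat_lit 6236) (nat_lit 335) (.e (nat_lit 164372) (nat_lit 250) (.e (nat_lit 172150) (nat_lit 27) (.e (nat_lit 335895) (nat_lit 0) (.e (nat_lit 6720) (nat_lit 361) (.e (nat_lit 172128) (nat_lit 15) .nil)))))) (.g (nat_lit 174) .nil .nil))) 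
(.lf (nat_lit 175) (.g (nat_lit 2297) (.e (nat_lit 6243) (nat_lit 336) (.e (nat_lit 229694) (nat_lit 250) (.e (nat_lit 172150) (nat_lit 27) (.e (nat_lit 335895) (nat_lit 0) (.e (nat_lit 6720) (nat_lit 361) (.e (nat_lit 172130) (nat_lit 15) .nil)))))) (.g (nat_lit 176) .nil .nil)))))

noncomputable def tu028 : DT := (.nd (nat_lit 0) (.nd (nat_lit 1) (.nd (nat_lit 2) 
(.lf (nat_lit 176) (.g (nat_lit 2297) (.e (nat_lit 7088) (nat_lit 379) (.e (nat_lit 123213) (nat_lit 274) (.e (nat_lit 65653) (nat_lit 27) (.e (nat_lit 426012) (nat_lit 0) (.e (nat_lit 7589) (nat_lit 406) (.e (nat_lit 65633) (nat_lit 15) .nil)))))) (.g (nat_lit 175) .nil .nil))) 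
(.lf (nat_lit 180) (.g (nat_lit 4972) (.e (nat_lit 7261) (nat_lit 384) (.e (nat_lit 57412) (nat_lit 12) (.e (nat_lit 336001) (nat_lit 2) (.e (nat_lit 90170) (nat_lit 13) (.e (nat_lit 172106) (nat_lit 10) (.e (nat_lit 434244) (nat_lit 28) (.e (nat_lit 573474) (nat_lit 12) (.e (nat_lit 57347) (nat_lit 0) .nil)))))))) (.g (nat_lit 179) .nil .nil)))) (.nd (nat_lit 2) 
(.lf (nat_lit 178) (.g (nat_lit 4936) (.e (nat_lit 7261) (nat_lit 384) (.e (nat_lit 57404) (nat_lit 12) (.e (nat_lit 336013) (nat_lit 2) (.e (nat_lit 90170) (nat_lit 13) (.e (nat_lit 172106) (nat_lit 10) (.e (nat_lit 434244) (nat_lit 28) (.e (nat_lit 573474) (nat_lit 12) (.e (nat_lit 57347) (nat_lit 0) .nil)))))))) (.g (nat_lit 177) .nil .nil))) 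
(.lf (nat_lit 182) (.g (nat_lit 3451) (.e (nat_lit 7261) (nat_lit 384) (.e (nat_lit 57412) (nat_lit 12) (.e (nat_lit 336176) (nat_lit 10) (.e (nat_lit 344096) (nat_lit 18) (.e (nat_lit 7261) (nat_lit 384) (.e (nat_lit 57412) (nat_lit 12) (.e (nat_lit 336176) (nat_lit 10) (.e (nat_lit 344091) (nat_lit 18) .nil)))))))) (.g (nat_lit 181) .nil .nil))))) (.nd (nat_lit 1) (.nd (nat_lit 2) 
(.lf (nat_lit 177) (.g (nat_lit 4936) (.e (nat_lit 6416) (nat_lit 341) (.e (nat_lit 163900) (nat_lit 12) (.e (nat_lit 426125) (nat_lit 2) (.e (nat_lit 196666) (nat_lit 13) (.e (nat_lit 65610) (nat_lit 10) (.e (nat_lit 344129) (nat_lit 26) (.e (nat_lit 557090) (nat_lit 12) (.e (nat_lit 163843) (nat_lit 0) .nil)))))))) (.g (nat_lit 178) .nil .nil))) 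
(.lf (nat_lit 181) (.g (nat_lit 3451) (.e (nat_lit 6416) (nat_lit 341) (.e (nat_lit 163908) (nat_lit 12) (.e (nat_lit 426286) (nat_lit 10) (.e (nat_lit 434208) (nat_lit 18) (.e (nat_lit 6416) (nat_lit 341) (.e (nat_lit 163908) (nat_lit 12) (.e (nat_lit 426286) (nat_lit 10) (.e (nat_lit 434203) (nat_lit 18) .nil)))))))) (.g (nat_lit 182) .nil .nil)))) (.nd (nat_lit 2) 
(.lf (nat_lit 179) (.g (nat_lit 4972) (.e (nat_lit 6416) (nat_lit 341) (.e (nat_lit 163908) (nat_lit 12) (.e (nat_lit 426113) (nat_lit 2) (.e (nat_lit 196666) (nat_lit 13) (.e (nat_lit 65610) (nat_lit 10) (.e (nat_lit 344129) (nat_lit 26) (.e (nat_lit 557090) (nat_lit 12) (.e (nat_lit 163843) (nat_lit 0) .nil)))))))) (.g (nat_lit 180) .nil .nil))) 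
(.lf (nat_lit 183) (.g (nat_lit 4209) (.e (nat_lit 6418) (nat_lit 341) (.e (nat_lit 163900) (nat_lit 12) (.e (nat_lit 426125) (nat_lit 2) (.e (nat_lit 196666) (nat_lit 13) (.e (nat_lit 65610) (nat_lit 10) (.e (nat_lit 344129) (nat_lit 26) (.e (nat_lit 557090) (nat_lit 12) (.e (nat_lit 163847) (nat_lit 0) .nil)))))))) (.g (nat_lit 184) .nil .nil))))))

noncomputable def tu029 : DT := (.nd (nat_lit 0) (.nd (nat_lit 1) (.nd (nat_lit 2) 
(.lf (nat_lit 184) (.g (nat_lit 4209) (.e (nat_lit 7263) (nat_lit 384) (.e (nat_lit 57404) (nat_lit 12) (.e (nat_lit 336013) (nat_lit 2) (.e (nat_lit 90170) (nat_lit 13) (.e (nat_lit 172106) (nat_lit 10) (.e (nat_lit 434244) (nat_lit 28) (.e (nat_lit 573474) (nat_lit 12) (.e (nat_lit 57351) (nat_lit 0) .nil)))))))) (.g (nat_lit 183) .nil .nil))) 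
(.lf (nat_lit 188) (.g (nat_lit 3045) (.e (nat_lit 7266) (nat_lit 384) (.e (nat_lit 57417) (nat_lit 12) (.e (nat_lit 336209) (nat_lit 13) (.e (nat_lit 393233) (nat_lit 17) (.e (nat_lit 7591) (nat_lit 407) (.e (nat_lit 73729) (nat_lit 0) .nil)))))) (.g (nat_lit 187) .nil .nil)))) (.nd (nat_lit 2) 
(.lf (nat_lit 186) (.g (nat_lit 4302) (.e (nat_lit 7263) (nat_lit 384) (.e (nat_lit 57412) (nat_lit 12) (.e (nat_lit 336001) (nat_lit 2) (.e (nat_lit 90170) (nat_lit 13) (.e (nat_lit 172106) (nat_lit 10) (.e (nat_lit 434244) (nat_lit 28) (.e (nat_lit 573474) (nat_lit 12) (.e (nat_lit 57351) (nat_lit 0) .nil)))))))) (.g (nat_lit 185) .nil .nil))) 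
(.lf (nat_lit 190) (.g (nat_lit 2728) (.e (nat_lit 7266) (nat_lit 384) (.e (nat_lit 57417) (nat_lit 12) (.e (nat_lit 336209) (nat_lit 13) (.e (nat_lit 393233) (nat_lit 17) (.e (nat_lit 7593) (nat_lit 407) (.e (nat_lit 73731) (nat_lit 0) .nil)))))) (.g (nat_lit 189) .nil .nil))))) (.nd (nat_lit 1) (.nd (nat_lit 2) 
(.lf (nat_lit 185) (.g (nat_lit 4302) (.e (nat_lit 6418) (nat_lit 341) (.e (nat_lit 163908) (nat_lit 12) (.e (nat_lit 426113) (nat_lit 2) (.e (nat_lit 196666) (nat_lit 13) (.e (nat_lit 65610) (nat_lit 10) (.e (nat_lit 344129) (nat_lit 26) (.e (nat_lit 557090) (nat_lit 12) (.e (nat_lit 163847) (nat_lit 0) .nil)))))))) (.g (nat_lit 186) .nil .nil))) 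
(.lf (nat_lit 189) (.g (nat_lit 2728) (.e (nat_lit 6421) (nat_lit 341) (.e (nat_lit 163913) (nat_lit 12) (.e (nat_lit 426321) (nat_lit 13) (.e (nat_lit 483345) (nat_lit 17) (.e (nat_lit 6724) (nat_lit 362) (.e (nat_lit 180227) (nat_lit 0) .nil)))))) (.g (nat_lit 190) .nil .nil)))) (.nd (nat_lit 2) 
(.lf (nat_lit 187) (.g (nat_lit 3045) (.e (nat_lit 6421) (nat_lit 341) (.e (nat_lit 163913) (nat_lit 12) (.e (nat_lit 426321) (nat_lit 13) (.e (nat_lit 483345) (nat_lit 17) (.e (nat_lit 6722) (nat_lit 362) (.e (nat_lit 180225) (nat_lit 0) .nil)))))) (.g (nat_lit 188) .nil .nil))) 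
(.lf (nat_lit 191) (.g (nat_lit 4484) (.e (nat_lit 6426) (nat_lit 342) (.e (nat_lit 229399) (nat_lit 12) (.e (nat_lit 426125) (nat_lit 2) (.e (nat_lit 196666) (nat_lit 13) (.e (nat_lit 65610) (nat_lit 10) (.e (nat_lit 344129) (nat_lit 26) (.e (nat_lit 557090) (nat_lit 12) (.e (nat_lit 163852) (nat_lit 0) .nil)))))))) (.g (nat_lit 192) .nil .nil))))))

noncomputable def tu030 : DT := (.nd (nat_lit 0) (.nd (nat_lit 1) (.nd (nat_lit 2) 
(.lf (nat_lit 192) (.g (nat_lit 4484) (.e (nat_lit 7271) (nat_lit 385) (.e (nat_lit 122903) (nat_lit 12) (.e (nat_lit 336013) (nat_lit 2) (.e (nat_lit 90170) (nat_lit 13) (.e (nat_lit 172106) (nat_lit 10) (.e (nat_lit 434244) (nat_lit 28) (.e (nat_lit 573474) (nat_lit 12) (.e (nat_lit 57356) (nat_lit 0) .nil)))))))) (.g (nat_lit 191) .nil .nil))) 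
(.lf (nat_lit 196) (.g (nat_lit 2966) (.e (nat_lit 7587) (nat_lit 406) (.e (nat_lit 65653) (nat_lit 27) (.e (nat_lit 426012) (nat_lit 0) (.e (nat_lit 7589) (nat_lit 406) (.e (nat_lit 65653) (nat_lit 27) (.e (nat_lit 426012) (nat_lit 0) .nil)))))) (.g (nat_lit 195) .nil .nil)))) (.nd (nat_lit 2) 
(.lf (nat_lit 194) (.g (nat_lit 2832) (.e (nat_lit 7587) (nat_lit 406) (.e (nat_lit 65653) (nat_lit 27) (.e (nat_lit 426012) (nat_lit 0) (.e (nat_lit 7587) (nat_lit 406) (.e (nat_lit 65653) (nat_lit 27) (.e (nat_lit 426012) (nat_lit 0) .nil)))))) (.g (nat_lit 193) .nil .nil))) 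
(.lf (nat_lit 198) (.g (nat_lit 486) (.e (nat_lit 7588) (nat_lit 406) (.e (nat_lit 65652) (nat_lit 27) (.e (nat_lit 425989) (nat_lit 0) (.e (nat_lit 7588) (nat_lit 406) (.e (nat_lit 65652) (nat_lit 27) (.e (nat_lit 425989) (nat_lit 0) .nil)))))) (.g (nat_lit 197) .nil .nil))))) (.nd (nat_lit 1) (.nd (nat_lit 2) 
(.lf (nat_lit 193) (.g (nat_lit 2832) (.e (nat_lit 6718) (nat_lit 361) (.e (nat_lit 172150) (nat_lit 27) (.e (nat_lit 335895) (nat_lit 0) (.e (nat_lit 6718) (nat_lit 361) (.e (nat_lit 172150) (nat_lit 27) (.e (nat_lit 335895) (nat_lit 0) .nil)))))) (.g (nat_lit 194) .nil .nil))) 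
(.lf (nat_lit 197) (.g (nat_lit 486) (.e (nat_lit 6719) (nat_lit 361) (.e (nat_lit 172149) (nat_lit 27) (.e (nat_lit 335876) (nat_lit 0) (.e (nat_lit 6719) (nat_lit 361) (.e (nat_lit 172149) (nat_lit 27) (.e (nat_lit 335876) (nat_lit 0) .nil)))))) (.g (nat_lit 198) .nil .nil)))) (.nd (nat_lit 2) 
(.lf (nat_lit 195) (.g (nat_lit 2966) (.e (nat_lit 6718) (nat_lit 361) (.e (nat_lit 172150) (nat_lit 27) (.e (nat_lit 335895) (nat_lit 0) (.e (nat_lit 6720) (nat_lit 361) (.e (nat_lit 172150) (nat_lit 27) (.e (nat_lit 335895) (nat_lit 0) .nil)))))) (.g (nat_lit 196) .nil .nil))) 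
(.lf (nat_lit 199) (.g (nat_lit 2400) (.e (nat_lit 6720) (nat_lit 361) (.e (nat_lit 172144) (nat_lit 26) (.e (nat_lit 327700) (nat_lit 8) (.e (nat_lit 303144) (nat_lit 13) (.e (nat_lit 483346) (nat_lit 17) .nil))))) (.g (nat_lit 200) .nil .nil))))))

noncomputable def tu031 : DT := (.nd (nat_lit 0) (.nd (nat_lit 1) 
(.lf (nat_lit 200) (.g (nat_lit 2400) (.e (nat_lit 7589) (nat_lit 406) (.e (nat_lit 65648) (nat_lit 26) (.e (nat_lit 417811) (nat_lit 6) (.e (nat_lit 286760) (nat_lit 13) (.e (nat_lit 393234) (nat_lit 17) .nil))))) (.g (nat_lit 199) .nil .nil))) 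
(.lf (nat_lit 202) (.g (nat_lit 2806) (.e (nat_lit 7591) (nat_lit 407) (.e (nat_lit 73773) (nat_lit 25) (.e (nat_lit 770072) (nat_lit 8) (.e (nat_lit 65627) (nat_lit 13) (.e (nat_lit 393234) (nat_lit 17) .nil))))) (.g (nat_lit 201) .nil .nil)))) (.nd (nat_lit 1) 
(.lf (nat_lit 201) (.g (nat_lit 2806) (.e (nat_lit 6722) (nat_lit 362) (.e (nat_lit 180269) (nat_lit 25) (.e (nat_lit 696344) (nat_lit 8) (.e (nat_lit 172123) (nat_lit 13) (.e (nat_lit 483346) (nat_lit 17) .nil))))) (.g (nat_lit 202) .nil .nil))) 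
(.lf (nat_lit 203) (.g (nat_lit 2774) (.e (nat_lit 6722) (nat_lit 362) (.e (nat_lit 180272) (nat_lit 26) (.e (nat_lit 704738) (nat_lit 11) (.e (nat_lit 16463) (nat_lit 13) (.e (nat_lit 483344) (nat_lit 17) .nil))))) (.g (nat_lit 204) .nil .nil)))))

noncomputable def tu032 : DT := (.nd (nat_lit 0) (.nd (nat_lit 1) 
(.lf (nat_lit 204) (.g (nat_lit 2774) (.e (nat_lit 7591) (nat_lit 407) (.e (nat_lit 73776) (nat_lit 26) (.e (nat_lit 778466) (nat_lit 11) (.e (nat_lit 24655) (nat_lit 13) (.e (nat_lit 393232) (nat_lit 17) .nil))))) (.g (nat_lit 203) .nil .nil))) 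
(.lf (nat_lit 206) (.g (nat_lit 2907) (.e (nat_lit 6236) (nat_lit 335) (.e (nat_lit 164371) (nat_lit 249) (.e (nat_lit 163962) (nat_lit 25) (.e (nat_lit 532550) (nat_lit 12) (.e (nat_lit 360475) (nat_lit 8) (.e (nat_lit 557068) (nat_lit 9) (.e (nat_lit 22) (nat_lit 0) .nil))))))) (.g (nat_lit 205) .nil .nil)))) (.nd (nat_lit 1) 
(.lf (nat_lit 205) (.g (nat_lit 2907) (.e (nat_lit 7081) (nat_lit 378) (.e (nat_lit 57896) (nat_lit 273) (.e (nat_lit 57464) (nat_lit 23) (.e (nat_lit 516166) (nat_lit 12) (.e (nat_lit 450588) (nat_lit 10) (.e (nat_lit 573452) (nat_lit 9) (.e (nat_lit 13) (nat_lit 0) .nil))))))) (.g (nat_lit 206) .nil .nil))) 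
(.lf (nat_lit 207) (.g (nat_lit 4967) (.e (nat_lit 7122) (nat_lit 382) (.e (nat_lit 1201) (nat_lit 88) (.e (nat_lit 65566) (nat_lit 2) (.e (nat_lit 90170) (nat_lit 13) (.e (nat_lit 172106) (nat_lit 10) (.e (nat_lit 434244) (nat_lit 28) (.e (nat_lit 573474) (nat_lit 12) (.e (nat_lit 57351) (nat_lit 0) .nil)))))))) (.g (nat_lit 208) .nil .nil)))))

noncomputable def tu033 : DT := (.nd (nat_lit 0) (.nd (nat_lit 1) (.nd (nat_lit 2) 
(.lf (nat_lit 208) (.g (nat_lit 4967) (.e (nat_lit 6252) (nat_lit 337) (.e (nat_lit 2630) (nat_lit 164) (.e (nat_lit 172062) (nat_lit 2) (.e (nat_lit 196666) (nat_lit 13) (.e (nat_lit 65610) (nat_lit 10) (.e (nat_lit 344129) (nat_lit 26) (.e (nat_lit 557090) (nat_lit 12) (.e (nat_lit 163847) (nat_lit 0) .nil)))))))) (.g (nat_lit 207) .nil .nil))) 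
(.lf (nat_lit 212) (.g (nat_lit 3761) (.e (nat_lit 24607) (nat_lit 3) (.e (nat_lit 98317) (nat_lit 9) (.e (nat_lit 336021) (nat_lit 3) (.e (nat_lit 98317) (nat_lit 9) (.e (nat_lit 336004) (nat_lit 2) (.e (nat_lit 90158) (nat_lit 11) .nil)))))) (.g (nat_lit 211) .nil .nil)))) (.nd (nat_lit 2) 
(.lf (nat_lit 210) (.g (nat_lit 5339) (.e (nat_lit 6252) (nat_lit 337) (.e (nat_lit 2630) (nat_lit 164) (.e (nat_lit 172064) (nat_lit 2) (.e (nat_lit 196666) (nat_lit 13) (.e (nat_lit 65610) (nat_lit 10) (.e (nat_lit 344129) (nat_lit 26) (.e (nat_lit 557090) (nat_lit 12) (.e (nat_lit 163847) (nat_lit 0) .nil)))))))) (.g (nat_lit 209) .nil .nil))) 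
(.lf (nat_lit 214) (.g (nat_lit 4219) (.e (nat_lit 24658) (nat_lit 13) (.e (nat_lit 393300) (nat_lit 27) (.e (nat_lit 491556) (nat_lit 9) (.e (nat_lit 336051) (nat_lit 6) (.e (nat_lit 147495) (nat_lit 11) .nil))))) (.g (nat_lit 213) .nil .nil))))) (.nd (nat_lit 1) (.nd (nat_lit 2) 
(.lf (nat_lit 209) (.g (nat_lit 5339) (.e (nat_lit 7122) (nat_lit 382) (.e (nat_lit 1201) (nat_lit 88) (.e (nat_lit 65568) (nat_lit 2) (.e (nat_lit 90170) (nat_lit 13) (.e (nat_lit 172106) (nat_lit 10) (.e (nat_lit 434244) (nat_lit 28) (.e (nat_lit 573474) (nat_lit 12) (.e (nat_lit 57351) (nat_lit 0) .nil)))))))) (.g (nat_lit 210) .nil .nil))) 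
(.lf (nat_lit 213) (.g (nat_lit 4219) (.e (nat_lit 16466) (nat_lit 13) (.e (nat_lit 483412) (nat_lit 27) (.e (nat_lit 401444) (nat_lit 9) (.e (nat_lit 426163) (nat_lit 6) (.e (nat_lit 253991) (nat_lit 11) .nil))))) (.g (nat_lit 214) .nil .nil)))) (.nd (nat_lit 2) 
(.lf (nat_lit 211) (.g (nat_lit 3761) (.e (nat_lit 16415) (nat_lit 3) (.e (nat_lit 204813) (nat_lit 9) (.e (nat_lit 426133) (nat_lit 3) (.e (nat_lit 204813) (nat_lit 9) (.e (nat_lit 426116) (nat_lit 2) (.e (nat_lit 196654) (nat_lit 11) .nil)))))) (.g (nat_lit 212) .nil .nil))) 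
(.lf (nat_lit 215) (.g (nat_lit 5385) (.e (nat_lit 57347) (nat_lit 0) (.e (nat_lit 7124) (nat_lit 382) (.e (nat_lit 1201) (nat_lit 88) (.e (nat_lit 65566) (nat_lit 2) (.e (nat_lit 90170) (nat_lit 13) (.e (nat_lit 172106) (nat_lit 10) (.e (nat_lit 434244) (nat_lit 28) (.e (nat_lit 573474) (nat_lit 12) .nil)))))))) (.g (nat_lit 216) .nil .nil))))))

noncomputable def tu034 : DT := (.nd (nat_lit 0) (.nd (nat_lit 1) (.nd (nat_lit 2) 
(.lf (nat_lit 216) (.g (nat_lit 5385) (.e (nat_lit 163843) (nat_lit 0) (.e (nat_lit 6254) (nat_lit 337) (.e (nat_lit 2630) (nat_lit 164) (.e (nat_lit 172062) (nat_lit 2) (.e (nat_lit 196666) (nat_lit 13) (.e (nat_lit 65610) (nat_lit 10) (.e (nat_lit 344129) (nat_lit 26) (.e (nat_lit 557090) (nat_lit 12) .nil)))))))) (.g (nat_lit 215) .nil .nil))) 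
(.lf (nat_lit 220) (.g (nat_lit 3647) (.e (nat_lit 163869) (nat_lit 2) (.e (nat_lit 196674) (nat_lit 15) (.e (nat_lit 81925) (nat_lit 11) (.e (nat_lit 426500) (nat_lit 27) (.e (nat_lit 335995) (nat_lit 1) (.e (nat_lit 57931) (nat_lit 282) .nil)))))) (.g (nat_lit 219) .nil .nil)))) (.nd (nat_lit 2) 
(.lf (nat_lit 218) (.g (nat_lit 5819) (.e (nat_lit 163843) (nat_lit 0) (.e (nat_lit 6254) (nat_lit 337) (.e (nat_lit 2630) (nat_lit 164) (.e (nat_lit 172064) (nat_lit 2) (.e (nat_lit 196666) (nat_lit 13) (.e (nat_lit 65610) (nat_lit 10) (.e (nat_lit 344129) (nat_lit 26) (.e (nat_lit 557090) (nat_lit 12) .nil)))))))) (.g (nat_lit 217) .nil .nil))) 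
(.lf (nat_lit 222) (.g (nat_lit 3601) (.e (nat_lit 163869) (nat_lit 2) (.e (nat_lit 196674) (nat_lit 15) (.e (nat_lit 81925) (nat_lit 11) (.e (nat_lit 426500) (nat_lit 27) (.e (nat_lit 335996) (nat_lit 1) (.e (nat_lit 57931) (nat_lit 282) .nil)))))) (.g (nat_lit 221) .nil .nil))))) (.nd (nat_lit 1) (.nd (nat_lit 2) 
(.lf (nat_lit 217) (.g (nat_lit 5819) (.e (nat_lit 57347) (nat_lit 0) (.e (nat_lit 7124) (nat_lit 382) (.e (nat_lit 1201) (nat_lit 88) (.e (nat_lit 65568) (nat_lit 2) (.e (nat_lit 90170) (nat_lit 13) (.e (nat_lit 172106) (nat_lit 10) (.e (nat_lit 434244) (nat_lit 28) (.e (nat_lit 573474) (nat_lit 12) .nil)))))))) (.g (nat_lit 218) .nil .nil))) 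
(.lf (nat_lit 221) (.g (nat_lit 3601) (.e (nat_lit 57373) (nat_lit 2) (.e (nat_lit 90178) (nat_lit 15) (.e (nat_lit 188421) (nat_lit 11) (.e (nat_lit 336387) (nat_lit 27) (.e (nat_lit 426108) (nat_lit 1) (.e (nat_lit 164403) (nat_lit 256) .nil)))))) (.g (nat_lit 222) .nil .nil)))) (.nd (nat_lit 2) 
(.lf (nat_lit 219) (.g (nat_lit 3647) (.e (nat_lit 57373) (nat_lit 2) (.e (nat_lit 90178) (nat_lit 15) (.e (nat_lit 188421) (nat_lit 11) (.e (nat_lit 336387) (nat_lit 27) (.e (nat_lit 426107) (nat_lit 1) (.e (nat_lit 164403) (nat_lit 256) .nil)))))) (.g (nat_lit 220) .nil .nil))) 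
(.lf (nat_lit 223) (.g (nat_lit 3345) (.e (nat_lit 57377) (nat_lit 3) (.e (nat_lit 98313) (nat_lit 9) (.e (nat_lit 336076) (nat_lit 9) (.e (nat_lit 336454) (nat_lit 34) (.e (nat_lit 483363) (nat_lit 18) (.e (nat_lit 57847) (nat_lit 252) .nil)))))) (.g (nat_lit 224) .nil .nil))))))

noncomputable def tu035 : DT := (.nd (nat_lit 0) (.nd (nat_lit 1) (.nd (nat_lit 2) 
(.lf (nat_lit 224) (.g (nat_lit 3345) (.e (nat_lit 163873) (nat_lit 3) (.e (nat_lit 204809) (nat_lit 9) (.e (nat_lit 426188) (nat_lit 9) (.e (nat_lit 426566) (nat_lit 34) (.e (nat_lit 393251) (nat_lit 18) (.e (nat_lit 164325) (nat_lit 230) .nil)))))) (.g (nat_lit 223) .nil .nil))) 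
(.lf (nat_lit 228) (.g (nat_lit 3396) (.e (nat_lit 163873) (nat_lit 3) (.e (nat_lit 204809) (nat_lit 9) (.e (nat_lit 426188) (nat_lit 9) (.e (nat_lit 426566) (nat_lit 34) (.e (nat_lit 393253) (nat_lit 18) (.e (nat_lit 164325) (nat_lit 230) .nil)))))) (.g (nat_lit 227) .nil .nil)))) (.nd (nat_lit 2) 
(.lf (nat_lit 226) (.g (nat_lit 2879) (.e (nat_lit 163873) (nat_lit 3) (.e (nat_lit 204809) (nat_lit 9) (.e (nat_lit 426188) (nat_lit 9) (.e (nat_lit 426566) (nat_lit 34) (.e (nat_lit 393252) (nat_lit 18) (.e (nat_lit 164332) (nat_lit 230) .nil)))))) (.g (nat_lit 225) .nil .nil))) 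
(.lf (nat_lit 230) (.g (nat_lit 3456) (.e (nat_lit 163873) (nat_lit 3) (.e (nat_lit 204809) (nat_lit 9) (.e (nat_lit 426188) (nat_lit 9) (.e (nat_lit 426566) (nat_lit 34) (.e (nat_lit 393253) (nat_lit 18) (.e (nat_lit 164332) (nat_lit 230) .nil)))))) (.g (nat_lit 229) .nil .nil))))) (.nd (nat_lit 1) (.nd (nat_lit 2) 
(.lf (nat_lit 225) (.g (nat_lit 2879) (.e (nat_lit 57377) (nat_lit 3) (.e (nat_lit 98313) (nat_lit 9) (.e (nat_lit 336076) (nat_lit 9) (.e (nat_lit 336454) (nat_lit 34) (.e (nat_lit 483364) (nat_lit 18) (.e (nat_lit 57854) (nat_lit 252) .nil)))))) (.g (nat_lit 226) .nil .nil))) 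
(.lf (nat_lit 229) (.g (nat_lit 3456) (.e (nat_lit 57377) (nat_lit 3) (.e (nat_lit 98313) (nat_lit 9) (.e (nat_lit 336076) (nat_lit 9) (.e (nat_lit 336454) (nat_lit 34) (.e (nat_lit 483365) (nat_lit 18) (.e (nat_lit 57854) (nat_lit 252) .nil)))))) (.g (nat_lit 230) .nil .nil)))) (.nd (nat_lit 2) 
(.lf (nat_lit 227) (.g (nat_lit 3396) (.e (nat_lit 57377) (nat_lit 3) (.e (nat_lit 98313) (nat_lit 9) (.e (nat_lit 336076) (nat_lit 9) (.e (nat_lit 336454) (nat_lit 34) (.e (nat_lit 483365) (nat_lit 18) (.e (nat_lit 57847) (nat_lit 252) .nil)))))) (.g (nat_lit 228) .nil .nil))) 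
(.lf (nat_lit 231) (.g (nat_lit 2647) (.e (nat_lit 57377) (nat_lit 3) (.e (nat_lit 98315) (nat_lit 9) (.e (nat_lit 336209) (nat_lit 13) (.e (nat_lit 393225) (nat_lit 9) (.e (nat_lit 335996) (nat_lit 1) (.e (nat_lit 57854) (nat_lit 252) .nil)))))) (.g (nat_lit 232) .nil .nil))))))

noncomputable def tu036 : DT := (.nd (nat_lit 0) (.nd (nat_lit 1) (.nd (nat_lit 2) 
(.lf (nat_lit 232) (.g (nat_lit 2647) (.e (nat_lit 163873) (nat_lit 3) (.e (nat_lit 204811) (nat_lit 9) (.e (nat_lit 426321) (nat_lit 13) (.e (nat_lit 483337) (nat_lit 9) (.e (nat_lit 426108) (nat_lit 1) (.e (nat_lit 164332) (nat_lit 230) .nil)))))) (.g (nat_lit 231) .nil .nil))) 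
(.lf (nat_lit 236) (.g (nat_lit 3524) (.e (nat_lit 163873) (nat_lit 3) (.e (nat_lit 204813) (nat_lit 9) (.e (nat_lit 426188) (nat_lit 9) (.e (nat_lit 426566) (nat_lit 34) (.e (nat_lit 393252) (nat_lit 18) (.e (nat_lit 164332) (nat_lit 230) .nil)))))) (.g (nat_lit 235) .nil .nil)))) (.nd (nat_lit 2) 
(.lf (nat_lit 234) (.g (nat_lit 4158) (.e (nat_lit 163873) (nat_lit 3) (.e (nat_lit 204813) (nat_lit 9) (.e (nat_lit 426188) (nat_lit 9) (.e (nat_lit 426566) (nat_lit 34) (.e (nat_lit 393251) (nat_lit 18) (.e (nat_lit 164327) (nat_lit 230) .nil)))))) (.g (nat_lit 233) .nil .nil))) 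
(.lf (nat_lit 238) (.g (nat_lit 4275) (.e (nat_lit 163873) (nat_lit 3) (.e (nat_lit 204813) (nat_lit 9) (.e (nat_lit 426325) (nat_lit 13) (.e (nat_lit 483337) (nat_lit 9) (.e (nat_lit 426108) (nat_lit 1) (.e (nat_lit 164332) (nat_lit 230) .nil)))))) (.g (nat_lit 237) .nil .nil))))) (.nd (nat_lit 1) (.nd (nat_lit 2) 
(.lf (nat_lit 233) (.g (nat_lit 4158) (.e (nat_lit 57377) (nat_lit 3) (.e (nat_lit 98317) (nat_lit 9) (.e (nat_lit 336076) (nat_lit 9) (.e (nat_lit 336454) (nat_lit 34) (.e (nat_lit 483363) (nat_lit 18) (.e (nat_lit 57849) (nat_lit 252) .nil)))))) (.g (nat_lit 234) .nil .nil))) 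
(.lf (nat_lit 237) (.g (nat_lit 4275) (.e (nat_lit 57377) (nat_lit 3) (.e (nat_lit 98317) (nat_lit 9) (.e (nat_lit 336213) (nat_lit 13) (.e (nat_lit 393225) (nat_lit 9) (.e (nat_lit 335996) (nat_lit 1) (.e (nat_lit 57854) (nat_lit 252) .nil)))))) (.g (nat_lit 238) .nil .nil)))) (.nd (nat_lit 2) 
(.lf (nat_lit 235) (.g (nat_lit 3524) (.e (nat_lit 57377) (nat_lit 3) (.e (nat_lit 98317) (nat_lit 9) (.e (nat_lit 336076) (nat_lit 9) (.e (nat_lit 336454) (nat_lit 34) (.e (nat_lit 483364) (nat_lit 18) (.e (nat_lit 57854) (nat_lit 252) .nil)))))) (.g (nat_lit 236) .nil .nil))) 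
(.lf (nat_lit 239) (.g (nat_lit 2687) (.e (nat_lit 57377) (nat_lit 3) (.e (nat_lit 98317) (nat_lit 9) (.e (nat_lit 336213) (nat_lit 13) (.e (nat_lit 401152) (nat_lit 10) (.e (nat_lit 344097) (nat_lit 18) (.e (nat_lit 5195) (nat_lit 294) .nil)))))) (.g (nat_lit 240) .nil .nil))))))

noncomputable def tu037 : DT := (.nd (nat_lit 0) (.nd (nat_lit 1) (.nd (nat_lit 2) (.nd (nat_lit 3) 
(.lf (nat_lit 240) (.g (nat_lit 2687) (.e (nat_lit 163873) (nat_lit 3) (.e (nat_lit 204813) (nat_lit 9) (.e (nat_lit 426325) (nat_lit 13) (.e (nat_lit 491264) (nat_lit 10) (.e (nat_lit 434209) (nat_lit 18) (.e (nat_lit 5224) (nat_lit 296) .nil)))))) (.g (nat_lit 239) .nil .nil))) 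
(.lf (nat_lit 248) (.g (nat_lit 3773) (.e (nat_lit 163874) (nat_lit 3) (.e (nat_lit 204809) (nat_lit 9) (.e (nat_lit 426188) (nat_lit 9) (.e (nat_lit 426566) (nat_lit 34) (.e (nat_lit 393253) (nat_lit 18) (.e (nat_lit 164332) (nat_lit 230) .nil)))))) (.g (nat_lit 247) .nil .nil)))) (.nd (nat_lit 3) 
(.lf (nat_lit 244) (.g (nat_lit 2456) (.e (nat_lit 163873) (nat_lit 3) (.e (nat_lit 204813) (nat_lit 9) (.e (nat_lit 426325) (nat_lit 13) (.e (nat_lit 491264) (nat_lit 13) (.e (nat_lit 458774) (nat_lit 18) (.e (nat_lit 5224) (nat_lit 296) .nil)))))) (.g (nat_lit 243) .nil .nil))) 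
(.lf (nat_lit 252) (.g (nat_lit 3777) (.e (nat_lit 163874) (nat_lit 3) (.e (nat_lit 204813) (nat_lit 9) (.e (nat_lit 426188) (nat_lit 9) (.e (nat_lit 426566) (nat_lit 34) (.e (nat_lit 393253) (nat_lit 18) (.e (nat_lit 164325) (nat_lit 230) .nil)))))) (.g (nat_lit 251) .nil .nil))))) (.nd (nat_lit 2) (.nd (nat_lit 3) 
(.lf (nat_lit 242) (.g (nat_lit 2263) (.e (nat_lit 163873) (nat_lit 3) (.e (nat_lit 204813) (nat_lit 9) (.e (nat_lit 426325) (nat_lit 13) (.e (nat_lit 491264) (nat_lit 10) (.e (nat_lit 434212) (nat_lit 18) (.e (nat_lit 5224) (nat_lit 296) .nil)))))) (.g (nat_lit 241) .nil .nil))) 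
(.lf (nat_lit 250) (.g (nat_lit 3762) (.e (nat_lit 163874) (nat_lit 3) (.e (nat_lit 204813) (nat_lit 9) (.e (nat_lit 426188) (nat_lit 9) (.e (nat_lit 426566) (nat_lit 34) (.e (nat_lit 393251) (nat_lit 18) (.e (nat_lit 164325) (nat_lit 230) .nil)))))) (.g (nat_lit 249) .nil .nil)))) (.nd (nat_lit 3) 
(.lf (nat_lit 246) (.g (nat_lit 3200) (.e (nat_lit 163874) (nat_lit 3) (.e (nat_lit 204809) (nat_lit 9) (.e (nat_lit 426188) (nat_lit 9) (.e (nat_lit 426566) (nat_lit 34) (.e (nat_lit 393252) (nat_lit 18) (.e (nat_lit 164332) (nat_lit 230) .nil)))))) (.g (nat_lit 245) .nil .nil))) 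
(.lf (nat_lit 254) (.g (nat_lit 3741) (.e (nat_lit 163874) (nat_lit 3) (.e (nat_lit 204813) (nat_lit 9) (.e (nat_lit 426188) (nat_lit 9) (.e (nat_lit 426566) (nat_lit 34) (.e (nat_lit 393253) (nat_lit 18) (.e (nat_lit 164330) (nat_lit 230) .nil)))))) (.g (nat_lit 253) .nil .nil)))))) (.nd (nat_lit 1) (.nd (nat_lit 2) (.nd (nat_lit 3) 
(.lf (nat_lit 241) (.g (nat_lit 2263) (.e (nat_lit 57377) (nat_lit 3) (.e (nat_lit 98317) (nat_lit 9) (.e (nat_lit 336213) (nat_lit 13) (.e (nat_lit 401152) (nat_lit 10) (.e (nat_lit 344100) (nat_lit 18) (.e (nat_lit 5195) (nat_lit 294) .nil)))))) (.g (nat_lit 242) .nil .nil))) 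
(.lf (nat_lit 249) (.g (nat_lit 3762) (.e (nat_lit 57378) (nat_lit 3) (.e (nat_lit 98317) (nat_lit 9) (.e (nat_lit 336076) (nat_lit 9) (.e (nat_lit 336454) (nat_lit 34) (.e (nat_lit 483363) (nat_lit 18) (.e (nat_lit 57847) (nat_lit 252) .nil)))))) (.g (nat_lit 250) .nil .nil)))) (.nd (nat_lit 3) 
(.lf (nat_lit 245) (.g (nat_lit 3200) (.e (nat_lit 57378) (nat_lit 3) (.e (nat_lit 98313) (nat_lit 9) (.e (nat_lit 336076) (nat_lit 9) (.e (nat_lit 336454) (nat_lit 34) (.e (nat_lit 483364) (nat_lit 18) (.e (nat_lit 57854) (nat_lit 252) .nil)))))) (.g (nat_lit 246) .nil .nil))) 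
(.lf (nat_lit 253) (.g (nat_lit 3741) (.e (nat_lit 57378) (nat_lit 3) (.e (nat_lit 98317) (nat_lit 9) (.e (nat_lit 336076) (nat_lit 9) (.e (nat_lit 336454) (nat_lit 34) (.e (nat_lit 483365) (nat_lit 18) (.e (nat_lit 57852) (nat_lit 252) .nil)))))) (.g (nat_lit 254) .nil .nil))))) (.nd (nat_lit 2) (.nd (nat_lit 3) 
(.lf (nat_lit 243) (.g (nat_lit 2456) (.e (nat_lit 57377) (nat_lit 3) (.e (nat_lit 98317) (nat_lit 9) (.e (nat_lit 336213) (nat_lit 13) (.e (nat_lit 401152) (nat_lit 13) (.e (nat_lit 368662) (nat_lit 18) (.e (nat_lit 5195) (nat_lit 294) .nil)))))) (.g (nat_lit 244) .nil .nil))) 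
(.lf (nat_lit 251) (.g (nat_lit 3777) (.e (nat_lit 57378) (nat_lit 3) (.e (nat_lit 98317) (nat_lit 9) (.e (nat_lit 336076) (nat_lit 9) (.e (nat_lit 336454) (nat_lit 34) (.e (nat_lit 483365) (nat_lit 18) (.e (nat_lit 57847) (nat_lit 252) .nil)))))) (.g (nat_lit 252) .nil .nil)))) (.nd (nat_lit 3) 
(.lf (nat_lit 247) (.g (nat_lit 3773) (.e (nat_lit 57378) (nat_lit 3) (.e (nat_lit 98313) (nat_lit 9) (.e (nat_lit 336076) (nat_lit 9) (.e (nat_lit 336454) (nat_lit 34) (.e (nat_lit 483365) (nat_lit 18) (.e (nat_lit 57854) (nat_lit 252) .nil)))))) (.g (nat_lit 248) .nil .nil))) 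
(.lf (nat_lit 255) (.g (nat_lit 4212) (.e (nat_lit 57378) (nat_lit 3) (.e (nat_lit 98317) (nat_lit 9) (.e (nat_lit 336076) (nat_lit 9) (.e (nat_lit 336454) (nat_lit 34) (.e (nat_lit 483365) (nat_lit 18) (.e (nat_lit 57854) (nat_lit 252) .nil)))))) (.g (nat_lit 256) .nil .nil)))))))

noncomputable def tu038 : DT := (.nd (nat_lit 0) (.nd (nat_lit 1) (.nd (nat_lit 2) (.nd (nat_lit 3) 
(.lf (nat_lit 256) (.g (nat_lit 4212) (.e (nat_lit 163874) (nat_lit 3) (.e (nat_lit 204813) (nat_lit 9) (.e (nat_lit 426188) (nat_lit 9) (.e (nat_lit 426566) (nat_lit 34) (.e (nat_lit 393253) (nat_lit 18) (.e (nat_lit 164332) (nat_lit 230) .nil)))))) (.g (nat_lit 255) .nil .nil))) 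
(.lf (nat_lit 264) (.g (nat_lit 4243) (.e (nat_lit 163875) (nat_lit 3) (.e (nat_lit 204813) (nat_lit 9) (.e (nat_lit 426188) (nat_lit 9) (.e (nat_lit 426566) (nat_lit 34) (.e (nat_lit 393253) (nat_lit 18) (.e (nat_lit 164327) (nat_lit 230) .nil)))))) (.g (nat_lit 263) .nil .nil)))) (.nd (nat_lit 3) 
(.lf (nat_lit 260) (.g (nat_lit 3467) (.e (nat_lit 163875) (nat_lit 3) (.e (nat_lit 204809) (nat_lit 9) (.e (nat_lit 426188) (nat_lit 9) (.e (nat_lit 426566) (nat_lit 34) (.e (nat_lit 393253) (nat_lit 18) (.e (nat_lit 164325) (nat_lit 230) .nil)))))) (.g (nat_lit 259) .nil .nil))) 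
(.lf (nat_lit 268) (.g (nat_lit 2347) (.e (nat_lit 163903) (nat_lit 12) (.e (nat_lit 426479) (nat_lit 27) (.e (nat_lit 336430) (nat_lit 29) (.e (nat_lit 450304) (nat_lit 3) (.e (nat_lit 98335) (nat_lit 18) (.e (nat_lit 164325) (nat_lit 230) .nil)))))) (.g (nat_lit 267) .nil .nil))))) (.nd (nat_lit 2) (.nd (nat_lit 3) 
(.lf (nat_lit 258) (.g (nat_lit 3417) (.e (nat_lit 163875) (nat_lit 3) (.e (nat_lit 204809) (nat_lit 9) (.e (nat_lit 426188) (nat_lit 9) (.e (nat_lit 426566) (nat_lit 34) (.e (nat_lit 393251) (nat_lit 18) (.e (nat_lit 164325) (nat_lit 230) .nil)))))) (.g (nat_lit 257) .nil .nil))) 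
(.lf (nat_lit 266) (.g (nat_lit 2159) (.e (nat_lit 163903) (nat_lit 12) (.e (nat_lit 426479) (nat_lit 27) (.e (nat_lit 336428) (nat_lit 29) (.e (nat_lit 450304) (nat_lit 3) (.e (nat_lit 98335) (nat_lit 18) (.e (nat_lit 164325) (nat_lit 230) .nil)))))) (.g (nat_lit 265) .nil .nil)))) (.nd (nat_lit 3) 
(.lf (nat_lit 262) (.g (nat_lit 3983) (.e (nat_lit 163875) (nat_lit 3) (.e (nat_lit 204813) (nat_lit 9) (.e (nat_lit 426188) (nat_lit 9) (.e (nat_lit 426566) (nat_lit 34) (.e (nat_lit 393251) (nat_lit 18) (.e (nat_lit 164327) (nat_lit 230) .nil)))))) (.g (nat_lit 261) .nil .nil))) 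
(.lf (nat_lit 270) (.g (nat_lit 2314) (.e (nat_lit 163903) (nat_lit 12) (.e (nat_lit 426479) (nat_lit 27) (.e (nat_lit 336443) (nat_lit 32) (.e (nat_lit 474880) (nat_lit 3) (.e (nat_lit 98335) (nat_lit 18) (.e (nat_lit 164325) (nat_lit 230) .nil)))))) (.g (nat_lit 269) .nil .nil)))))) (.nd (nat_lit 1) (.nd (nat_lit 2) (.nd (nat_lit 3) 
(.lf (nat_lit 257) (.g (nat_lit 3417) (.e (nat_lit 57379) (nat_lit 3) (.e (nat_lit 98313) (nat_lit 9) (.e (nat_lit 336076) (nat_lit 9) (.e (nat_lit 336454) (nat_lit 34) (.e (nat_lit 483363) (nat_lit 18) (.e (nat_lit 57847) (nat_lit 252) .nil)))))) (.g (nat_lit 258) .nil .nil))) 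
(.lf (nat_lit 265) (.g (nat_lit 2159) (.e (nat_lit 57407) (nat_lit 12) (.e (nat_lit 336367) (nat_lit 27) (.e (nat_lit 426540) (nat_lit 29) (.e (nat_lit 360192) (nat_lit 3) (.e (nat_lit 204831) (nat_lit 18) (.e (nat_lit 57847) (nat_lit 252) .nil)))))) (.g (nat_lit 266) .nil .nil)))) (.nd (nat_lit 3) 
(.lf (nat_lit 261) (.g (nat_lit 3983) (.e (nat_lit 57379) (nat_lit 3) (.e (nat_lit 98317) (nat_lit 9) (.e (nat_lit 336076) (nat_lit 9) (.e (nat_lit 336454) (nat_lit 34) (.e (nat_lit 483363) (nat_lit 18) (.e (nat_lit 57849) (nat_lit 252) .nil)))))) (.g (nat_lit 262) .nil .nil))) 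
(.lf (nat_lit 269) (.g (nat_lit 2314) (.e (nat_lit 57407) (nat_lit 12) (.e (nat_lit 336367) (nat_lit 27) (.e (nat_lit 426555) (nat_lit 32) (.e (nat_lit 384768) (nat_lit 3) (.e (nat_lit 204831) (nat_lit 18) (.e (nat_lit 57847) (nat_lit 252) .nil)))))) (.g (nat_lit 270) .nil .nil))))) (.nd (nat_lit 2) (.nd (nat_lit 3) 
(.lf (nat_lit 259) (.g (nat_lit 3467) (.e (nat_lit 57379) (nat_lit 3) (.e (nat_lit 98313) (nat_lit 9) (.e (nat_lit 336076) (nat_lit 9) (.e (nat_lit 336454) (nat_lit 34) (.e (nat_lit 483365) (nat_lit 18) (.e (nat_lit 57847) (nat_lit 252) .nil)))))) (.g (nat_lit 260) .nil .nil))) 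
(.lf (nat_lit 267) (.g (nat_lit 2347) (.e (nat_lit 57407) (nat_lit 12) (.e (nat_lit 336367) (nat_lit 27) (.e (nat_lit 426542) (nat_lit 29) (.e (nat_lit 360192) (nat_lit 3) (.e (nat_lit 204831) (nat_lit 18) (.e (nat_lit 57847) (nat_lit 252) .nil)))))) (.g (nat_lit 268) .nil .nil)))) (.nd (nat_lit 3) 
(.lf (nat_lit 263) (.g (nat_lit 4243) (.e (nat_lit 57379) (nat_lit 3) (.e (nat_lit 98317) (nat_lit 9) (.e (nat_lit 336076) (nat_lit 9) (.e (nat_lit 336454) (nat_lit 34) (.e (nat_lit 483365) (nat_lit 18) (.e (nat_lit 57849) (nat_lit 252) .nil)))))) (.g (nat_lit 264) .nil .nil))) 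
(.lf (nat_lit 271) (.g (nat_lit 3715) (.e (nat_lit 57407) (nat_lit 12) (.e (nat_lit 336456) (nat_lit 34) (.e (nat_lit 483380) (nat_lit 23) (.e (nat_lit 336324) (nat_lit 18) (.e (nat_lit 204831) (nat_lit 18) (.e (nat_lit 57847) (nat_lit 252) .nil)))))) (.g (nat_lit 272) .nil .nil)))))))

noncomputable def tu039 : DT := (.nd (nat_lit 0) (.nd (nat_lit 1) (.nd (nat_lit 2) (.nd (nat_lit 3) 
(.lf (nat_lit 272) (.g (nat_lit 3715) (.e (nat_lit 163903) (nat_lit 12) (.e (nat_lit 426568) (nat_lit 34) (.e (nat_lit 393268) (nat_lit 23) (.e (nat_lit 426436) (nat_lit 18) (.e (nat_lit 98335) (nat_lit 18) (.e (nat_lit 164325) (nat_lit 230) .nil)))))) (.g (nat_lit 271) .nil .nil))) 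
(.lf (nat_lit 280) (.g (nat_lit 3248) (.e (nat_lit 163904) (nat_lit 12) (.e (nat_lit 426566) (nat_lit 34) (.e (nat_lit 393271) (nat_lit 23) (.e (nat_lit 426436) (nat_lit 18) (.e (nat_lit 98335) (nat_lit 18) (.e (nat_lit 164326) (nat_lit 230) .nil)))))) (.g (nat_lit 279) .nil .nil)))) (.nd (nat_lit 3) 
(.lf (nat_lit 276) (.g (nat_lit 2647) (.e (nat_lit 163903) (nat_lit 12) (.e (nat_lit 426568) (nat_lit 34) (.e (nat_lit 393279) (nat_lit 23) (.e (nat_lit 426435) (nat_lit 18) (.e (nat_lit 98335) (nat_lit 18) (.e (nat_lit 164325) (nat_lit 230) .nil)))))) (.g (nat_lit 275) .nil .nil))) 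
(.lf (nat_lit 284) (.g (nat_lit 3412) (.e (nat_lit 163905) (nat_lit 12) (.e (nat_lit 426566) (nat_lit 34) (.e (nat_lit 393271) (nat_lit 23) (.e (nat_lit 426436) (nat_lit 18) (.e (nat_lit 98335) (nat_lit 18) (.e (nat_lit 164325) (nat_lit 230) .nil)))))) (.g (nat_lit 283) .nil .nil))))) (.nd (nat_lit 2) (.nd (nat_lit 3) 
(.lf (nat_lit 274) (.g (nat_lit 4275) (.e (nat_lit 163903) (nat_lit 12) (.e (nat_lit 426568) (nat_lit 34) (.e (nat_lit 393271) (nat_lit 23) (.e (nat_lit 426436) (nat_lit 18) (.e (nat_lit 98335) (nat_lit 18) (.e (nat_lit 164325) (nat_lit 230) .nil)))))) (.g (nat_lit 273) .nil .nil))) 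
(.lf (nat_lit 282) (.g (nat_lit 3018) (.e (nat_lit 163905) (nat_lit 12) (.e (nat_lit 426555) (nat_lit 32) (.e (nat_lit 376867) (nat_lit 23) (.e (nat_lit 98313) (nat_lit 9) (.e (nat_lit 335995) (nat_lit 1) (.e (nat_lit 57931) (nat_lit 282) .nil)))))) (.g (nat_lit 281) .nil .nil)))) (.nd (nat_lit 3) 
(.lf (nat_lit 278) (.g (nat_lit 3516) (.e (nat_lit 163904) (nat_lit 12) (.e (nat_lit 426566) (nat_lit 34) (.e (nat_lit 393271) (nat_lit 23) (.e (nat_lit 426436) (nat_lit 18) (.e (nat_lit 98335) (nat_lit 18) (.e (nat_lit 164325) (nat_lit 230) .nil)))))) (.g (nat_lit 277) .nil .nil))) 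
(.lf (nat_lit 286) (.g (nat_lit 1704) (.e (nat_lit 163907) (nat_lit 12) (.e (nat_lit 426479) (nat_lit 27) (.e (nat_lit 336428) (nat_lit 29) (.e (nat_lit 450304) (nat_lit 3) (.e (nat_lit 98335) (nat_lit 18) (.e (nat_lit 164325) (nat_lit 230) .nil)))))) (.g (nat_lit 285) .nil .nil)))))) (.nd (nat_lit 1) (.nd (nat_lit 2) (.nd (nat_lit 3) 
(.lf (nat_lit 273) (.g (nat_lit 4275) (.e (nat_lit 57407) (nat_lit 12) (.e (nat_lit 336456) (nat_lit 34) (.e (nat_lit 483383) (nat_lit 23) (.e (nat_lit 336324) (nat_lit 18) (.e (nat_lit 204831) (nat_lit 18) (.e (nat_lit 57847) (nat_lit 252) .nil)))))) (.g (nat_lit 274) .nil .nil))) 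
(.lf (nat_lit 281) (.g (nat_lit 3018) (.e (nat_lit 57409) (nat_lit 12) (.e (nat_lit 336443) (nat_lit 32) (.e (nat_lit 466979) (nat_lit 23) (.e (nat_lit 204809) (nat_lit 9) (.e (nat_lit 426107) (nat_lit 1) (.e (nat_lit 164403) (nat_lit 256) .nil)))))) (.g (nat_lit 282) .nil .nil)))) (.nd (nat_lit 3) 
(.lf (nat_lit 277) (.g (nat_lit 3516) (.e (nat_lit 57408) (nat_lit 12) (.e (nat_lit 336454) (nat_lit 34) (.e (nat_lit 483383) (nat_lit 23) (.e (nat_lit 336324) (nat_lit 18) (.e (nat_lit 204831) (nat_lit 18) (.e (nat_lit 57847) (nat_lit 252) .nil)))))) (.g (nat_lit 278) .nil .nil))) 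
(.lf (nat_lit 285) (.g (nat_lit 1704) (.e (nat_lit 57411) (nat_lit 12) (.e (nat_lit 336367) (nat_lit 27) (.e (nat_lit 426540) (nat_lit 29) (.e (nat_lit 360192) (nat_lit 3) (.e (nat_lit 204831) (nat_lit 18) (.e (nat_lit 57847) (nat_lit 252) .nil)))))) (.g (nat_lit 286) .nil .nil))))) (.nd (nat_lit 2) (.nd (nat_lit 3) 
(.lf (nat_lit 275) (.g (nat_lit 2647) (.e (nat_lit 57407) (nat_lit 12) (.e (nat_lit 336456) (nat_lit 34) (.e (nat_lit 483391) (nat_lit 23) (.e (nat_lit 336323) (nat_lit 18) (.e (nat_lit 204831) (nat_lit 18) (.e (nat_lit 57847) (nat_lit 252) .nil)))))) (.g (nat_lit 276) .nil .nil))) 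
(.lf (nat_lit 283) (.g (nat_lit 3412) (.e (nat_lit 57409) (nat_lit 12) (.e (nat_lit 336454) (nat_lit 34) (.e (nat_lit 483383) (nat_lit 23) (.e (nat_lit 336324) (nat_lit 18) (.e (nat_lit 204831) (nat_lit 18) (.e (nat_lit 57847) (nat_lit 252) .nil)))))) (.g (nat_lit 284) .nil .nil)))) (.nd (nat_lit 3) 
(.lf (nat_lit 279) (.g (nat_lit 3248) (.e (nat_lit 57408) (nat_lit 12) (.e (nat_lit 336454) (nat_lit 34) (.e (nat_lit 483383) (nat_lit 23) (.e (nat_lit 336324) (nat_lit 18) (.e (nat_lit 204831) (nat_lit 18) (.e (nat_lit 57848) (nat_lit 252) .nil)))))) (.g (nat_lit 280) .nil .nil))) 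
(.lf (nat_lit 287) (.g (nat_lit 1862) (.e (nat_lit 57411) (nat_lit 12) (.e (nat_lit 336367) (nat_lit 27) (.e (nat_lit 426542) (nat_lit 29) (.e (nat_lit 360192) (nat_lit 3) (.e (nat_lit 204831) (nat_lit 18) (.e (nat_lit 57847) (nat_lit 252) .nil)))))) (.g (nat_lit 288) .nil .nil)))))))

noncomputable def tu040 : DT := (.nd (nat_lit 0) (.nd (nat_lit 1) (.nd (nat_lit 2) (.nd (nat_lit 3) 
(.lf (nat_lit 288) (.g (nat_lit 1862) (.e (nat_lit 163907) (nat_lit 12) (.e (nat_lit 426479) (nat_lit 27) (.e (nat_lit 336430) (nat_lit 29) (.e (nat_lit 450304) (nat_lit 3) (.e (nat_lit 98335) (nat_lit 18) (.e (nat_lit 164325) (nat_lit 230) .nil)))))) (.g (nat_lit 287) .nil .nil))) 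
(.lf (nat_lit 296) (.g (nat_lit 2282) (.e (nat_lit 163907) (nat_lit 12) (.e (nat_lit 426568) (nat_lit 34) (.e (nat_lit 393279) (nat_lit 23) (.e (nat_lit 426435) (nat_lit 18) (.e (nat_lit 98335) (nat_lit 18) (.e (nat_lit 164325) (nat_lit 230) .nil)))))) (.g (nat_lit 295) .nil .nil)))) (.nd (nat_lit 3) 
(.lf (nat_lit 292) (.g (nat_lit 3300) (.e (nat_lit 163907) (nat_lit 12) (.e (nat_lit 426568) (nat_lit 34) (.e (nat_lit 393268) (nat_lit 23) (.e (nat_lit 426436) (nat_lit 18) (.e (nat_lit 98335) (nat_lit 18) (.e (nat_lit 164325) (nat_lit 230) .nil)))))) (.g (nat_lit 291) .nil .nil))) 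
(.lf (nat_lit 300) (.g (nat_lit 4212) (.e (nat_lit 163941) (nat_lit 19) (.e (nat_lit 483341) (nat_lit 9) (.e (nat_lit 426200) (nat_lit 9) (.e (nat_lit 426436) (nat_lit 18) (.e (nat_lit 98333) (nat_lit 18) (.e (nat_lit 164325) (nat_lit 230) .nil)))))) (.g (nat_lit 299) .nil .nil))))) (.nd (nat_lit 2) (.nd (nat_lit 3) 
(.lf (nat_lit 290) (.g (nat_lit 1830) (.e (nat_lit 163907) (nat_lit 12) (.e (nat_lit 426479) (nat_lit 27) (.e (nat_lit 336443) (nat_lit 32) (.e (nat_lit 474880) (nat_lit 3) (.e (nat_lit 98335) (nat_lit 18) (.e (nat_lit 164325) (nat_lit 230) .nil)))))) (.g (nat_lit 289) .nil .nil))) 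
(.lf (nat_lit 298) (.g (nat_lit 4187) (.e (nat_lit 163908) (nat_lit 12) (.e (nat_lit 426286) (nat_lit 10) (.e (nat_lit 434203) (nat_lit 18) (.e (nat_lit 6255) (nat_lit 337) (.e (nat_lit 2630) (nat_lit 164) (.e (nat_lit 172113) (nat_lit 10) (.e (nat_lit 434208) (nat_lit 18) (.e (nat_lit 6416) (nat_lit 341) .nil)))))))) (.g (nat_lit 297) .nil .nil)))) (.nd (nat_lit 3) 
(.lf (nat_lit 294) (.g (nat_lit 3872) (.e (nat_lit 163907) (nat_lit 12) (.e (nat_lit 426568) (nat_lit 34) (.e (nat_lit 393271) (nat_lit 23) (.e (nat_lit 426436) (nat_lit 18) (.e (nat_lit 98335) (nat_lit 18) (.e (nat_lit 164325) (nat_lit 230) .nil)))))) (.g (nat_lit 293) .nil .nil))) 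
(.lf (nat_lit 302) (.g (nat_lit 3741) (.e (nat_lit 163941) (nat_lit 19) (.e (nat_lit 483341) (nat_lit 9) (.e (nat_lit 426200) (nat_lit 9) (.e (nat_lit 426436) (nat_lit 18) (.e (nat_lit 98333) (nat_lit 18) (.e (nat_lit 164327) (nat_lit 230) .nil)))))) (.g (nat_lit 301) .nil .nil)))))) (.nd (nat_lit 1) (.nd (nat_lit 2) (.nd (nat_lit 3) 
(.lf (nat_lit 289) (.g (nat_lit 1830) (.e (nat_lit 57411) (nat_lit 12) (.e (nat_lit 336367) (nat_lit 27) (.e (nat_lit 426555) (nat_lit 32) (.e (nat_lit 384768) (nat_lit 3) (.e (nat_lit 204831) (nat_lit 18) (.e (nat_lit 57847) (nat_lit 252) .nil)))))) (.g (nat_lit 290) .nil .nil))) 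
(.lf (nat_lit 297) (.g (nat_lit 4187) (.e (nat_lit 57412) (nat_lit 12) (.e (nat_lit 336176) (nat_lit 10) (.e (nat_lit 344091) (nat_lit 18) (.e (nat_lit 7125) (nat_lit 382) (.e (nat_lit 1201) (nat_lit 88) (.e (nat_lit 65617) (nat_lit 10) (.e (nat_lit 344096) (nat_lit 18) (.e (nat_lit 7261) (nat_lit 384) .nil)))))))) (.g (nat_lit 298) .nil .nil)))) (.nd (nat_lit 3) 
(.lf (nat_lit 293) (.g (nat_lit 3872) (.e (nat_lit 57411) (nat_lit 12) (.e (nat_lit 336456) (nat_lit 34) (.e (nat_lit 483383) (nat_lit 23) (.e (nat_lit 336324) (nat_lit 18) (.e (nat_lit 204831) (nat_lit 18) (.e (nat_lit 57847) (nat_lit 252) .nil)))))) (.g (nat_lit 294) .nil .nil))) 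
(.lf (nat_lit 301) (.g (nat_lit 3741) (.e (nat_lit 57445) (nat_lit 19) (.e (nat_lit 393229) (nat_lit 9) (.e (nat_lit 336088) (nat_lit 9) (.e (nat_lit 336324) (nat_lit 18) (.e (nat_lit 204829) (nat_lit 18) (.e (nat_lit 57849) (nat_lit 252) .nil)))))) (.g (nat_lit 302) .nil .nil))))) (.nd (nat_lit 2) (.nd (nat_lit 3) 
(.lf (nat_lit 291) (.g (nat_lit 3300) (.e (nat_lit 57411) (nat_lit 12) (.e (nat_lit 336456) (nat_lit 34) (.e (nat_lit 483380) (nat_lit 23) (.e (nat_lit 336324) (nat_lit 18) (.e (nat_lit 204831) (nat_lit 18) (.e (nat_lit 57847) (nat_lit 252) .nil)))))) (.g (nat_lit 292) .nil .nil))) 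
(.lf (nat_lit 299) (.g (nat_lit 4212) (.e (nat_lit 57445) (nat_lit 19) (.e (nat_lit 393229) (nat_lit 9) (.e (nat_lit 336088) (nat_lit 9) (.e (nat_lit 336324) (nat_lit 18) (.e (nat_lit 204829) (nat_lit 18) (.e (nat_lit 57847) (nat_lit 252) .nil)))))) (.g (nat_lit 300) .nil .nil)))) (.nd (nat_lit 3) 
(.lf (nat_lit 295) (.g (nat_lit 2282) (.e (nat_lit 57411) (nat_lit 12) (.e (nat_lit 336456) (nat_lit 34) (.e (nat_lit 483391) (nat_lit 23) (.e (nat_lit 336323) (nat_lit 18) (.e (nat_lit 204831) (nat_lit 18) (.e (nat_lit 57847) (nat_lit 252) .nil)))))) (.g (nat_lit 296) .nil .nil))) 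
(.lf (nat_lit 303) (.g (nat_lit 3777) (.e (nat_lit 57445) (nat_lit 19) (.e (nat_lit 393229) (nat_lit 9) (.e (nat_lit 336088) (nat_lit 9) (.e (nat_lit 336324) (nat_lit 18) (.e (nat_lit 204829) (nat_lit 18) (.e (nat_lit 57854) (nat_lit 252) .nil)))))) (.g (nat_lit 304) .nil .nil)))))))

noncomputable def tu041 : DT := (.nd (nat_lit 0) (.nd (nat_lit 1) (.nd (nat_lit 2) (.nd (nat_lit 3) 
(.lf (nat_lit 304) (.g (nat_lit 3777) (.e (nat_lit 163941) (nat_lit 19) (.e (nat_lit 483341) (nat_lit 9) (.e (nat_lit 426200) (nat_lit 9) (.e (nat_lit 426436) (nat_lit 18) (.e (nat_lit 98333) (nat_lit 18) (.e (nat_lit 164332) (nat_lit 230) .nil)))))) (.g (nat_lit 303) .nil .nil))) 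
(.lf (nat_lit 312) (.g (nat_lit 3748) (.e (nat_lit 163941) (nat_lit 19) (.e (nat_lit 483341) (nat_lit 9) (.e (nat_lit 426200) (nat_lit 9) (.e (nat_lit 426436) (nat_lit 18) (.e (nat_lit 98335) (nat_lit 18) (.e (nat_lit 164326) (nat_lit 230) .nil)))))) (.g (nat_lit 311) .nil .nil)))) (.nd (nat_lit 3) 
(.lf (nat_lit 308) (.g (nat_lit 4112) (.e (nat_lit 163941) (nat_lit 19) (.e (nat_lit 483341) (nat_lit 9) (.e (nat_lit 426200) (nat_lit 9) (.e (nat_lit 426436) (nat_lit 18) (.e (nat_lit 98335) (nat_lit 18) (.e (nat_lit 164324) (nat_lit 230) .nil)))))) (.g (nat_lit 307) .nil .nil))) 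
(.lf (nat_lit 316) (.g (nat_lit 4078) (.e (nat_lit 163941) (nat_lit 19) (.e (nat_lit 483341) (nat_lit 9) (.e (nat_lit 426200) (nat_lit 9) (.e (nat_lit 426436) (nat_lit 18) (.e (nat_lit 98335) (nat_lit 18) (.e (nat_lit 164332) (nat_lit 230) .nil)))))) (.g (nat_lit 315) .nil .nil))))) (.nd (nat_lit 2) (.nd (nat_lit 3) 
(.lf (nat_lit 306) (.g (nat_lit 3981) (.e (nat_lit 163941) (nat_lit 19) (.e (nat_lit 483341) (nat_lit 9) (.e (nat_lit 426200) (nat_lit 9) (.e (nat_lit 426436) (nat_lit 18) (.e (nat_lit 98334) (nat_lit 18) (.e (nat_lit 164332) (nat_lit 230) .nil)))))) (.g (nat_lit 305) .nil .nil))) 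
(.lf (nat_lit 314) (.g (nat_lit 3866) (.e (nat_lit 163941) (nat_lit 19) (.e (nat_lit 483341) (nat_lit 9) (.e (nat_lit 426200) (nat_lit 9) (.e (nat_lit 426436) (nat_lit 18) (.e (nat_lit 98335) (nat_lit 18) (.e (nat_lit 164327) (nat_lit 230) .nil)))))) (.g (nat_lit 313) .nil .nil)))) (.nd (nat_lit 3) 
(.lf (nat_lit 310) (.g (nat_lit 4090) (.e (nat_lit 163941) (nat_lit 19) (.e (nat_lit 483341) (nat_lit 9) (.e (nat_lit 426200) (nat_lit 9) (.e (nat_lit 426436) (nat_lit 18) (.e (nat_lit 98335) (nat_lit 18) (.e (nat_lit 164325) (nat_lit 230) .nil)))))) (.g (nat_lit 309) .nil .nil))) 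
(.lf (nat_lit 318) (.g (nat_lit 3773) (.e (nat_lit 163941) (nat_lit 19) (.e (nat_lit 483341) (nat_lit 9) (.e (nat_lit 426200) (nat_lit 9) (.e (nat_lit 426438) (nat_lit 18) (.e (nat_lit 98333) (nat_lit 18) (.e (nat_lit 164325) (nat_lit 230) .nil)))))) (.g (nat_lit 317) .nil .nil)))))) (.nd (nat_lit 1) (.nd (nat_lit 2) (.nd (nat_lit 3) 
(.lf (nat_lit 305) (.g (nat_lit 3981) (.e (nat_lit 57445) (nat_lit 19) (.e (nat_lit 393229) (nat_lit 9) (.e (nat_lit 336088) (nat_lit 9) (.e (nat_lit 336324) (nat_lit 18) (.e (nat_lit 204830) (nat_lit 18) (.e (nat_lit 57854) (nat_lit 252) .nil)))))) (.g (nat_lit 306) .nil .nil))) 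
(.lf (nat_lit 313) (.g (nat_lit 3866) (.e (nat_lit 57445) (nat_lit 19) (.e (nat_lit 393229) (nat_lit 9) (.e (nat_lit 336088) (nat_lit 9) (.e (nat_lit 336324) (nat_lit 18) (.e (nat_lit 204831) (nat_lit 18) (.e (nat_lit 57849) (nat_lit 252) .nil)))))) (.g (nat_lit 314) .nil .nil)))) (.nd (nat_lit 3) 
(.lf (nat_lit 309) (.g (nat_lit 4090) (.e (nat_lit 57445) (nat_lit 19) (.e (nat_lit 393229) (nat_lit 9) (.e (nat_lit 336088) (nat_lit 9) (.e (nat_lit 336324) (nat_lit 18) (.e (nat_lit 204831) (nat_lit 18) (.e (nat_lit 57847) (nat_lit 252) .nil)))))) (.g (nat_lit 310) .nil .nil))) 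
(.lf (nat_lit 317) (.g (nat_lit 3773) (.e (nat_lit 57445) (nat_lit 19) (.e (nat_lit 393229) (nat_lit 9) (.e (nat_lit 336088) (nat_lit 9) (.e (nat_lit 336326) (nat_lit 18) (.e (nat_lit 204829) (nat_lit 18) (.e (nat_lit 57847) (nat_lit 252) .nil)))))) (.g (nat_lit 318) .nil .nil))))) (.nd (nat_lit 2) (.nd (nat_lit 3) 
(.lf (nat_lit 307) (.g (nat_lit 4112) (.e (nat_lit 57445) (nat_lit 19) (.e (nat_lit 393229) (nat_lit 9) (.e (nat_lit 336088) (nat_lit 9) (.e (nat_lit 336324) (nat_lit 18) (.e (nat_lit 204831) (nat_lit 18) (.e (nat_lit 57846) (nat_lit 252) .nil)))))) (.g (nat_lit 308) .nil .nil))) 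
(.lf (nat_lit 315) (.g (nat_lit 4078) (.e (nat_lit 57445) (nat_lit 19) (.e (nat_lit 393229) (nat_lit 9) (.e (nat_lit 336088) (nat_lit 9) (.e (nat_lit 336324) (nat_lit 18) (.e (nat_lit 204831) (nat_lit 18) (.e (nat_lit 57854) (nat_lit 252) .nil)))))) (.g (nat_lit 316) .nil .nil)))) (.nd (nat_lit 3) 
(.lf (nat_lit 311) (.g (nat_lit 3748) (.e (nat_lit 57445) (nat_lit 19) (.e (nat_lit 393229) (nat_lit 9) (.e (nat_lit 336088) (nat_lit 9) (.e (nat_lit 336324) (nat_lit 18) (.e (nat_lit 204831) (nat_lit 18) (.e (nat_lit 57848) (nat_lit 252) .nil)))))) (.g (nat_lit 312) .nil .nil))) 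
(.lf (nat_lit 319) (.g (nat_lit 3467) (.e (nat_lit 57445) (nat_lit 19) (.e (nat_lit 393229) (nat_lit 9) (.e (nat_lit 336088) (nat_lit 9) (.e (nat_lit 336326) (nat_lit 18) (.e (nat_lit 204830) (nat_lit 18) (.e (nat_lit 57854) (nat_lit 252) .nil)))))) (.g (nat_lit 320) .nil .nil)))))))

noncomputable def tu042 : DT := (.nd (nat_lit 0) (.nd (nat_lit 1) (.nd (nat_lit 2) (.nd (nat_lit 3) 
(.lf (nat_lit 320) (.g (nat_lit 3467) (.e (nat_lit 163941) (nat_lit 19) (.e (nat_lit 483341) (nat_lit 9) (.e (nat_lit 426200) (nat_lit 9) (.e (nat_lit 426438) (nat_lit 18) (.e (nat_lit 98334) (nat_lit 18) (.e (nat_lit 164332) (nat_lit 230) .nil)))))) (.g (nat_lit 319) .nil .nil))) 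
(.lf (nat_lit 328) (.g (nat_lit 3345) (.e (nat_lit 163943) (nat_lit 19) (.e (nat_lit 483341) (nat_lit 9) (.e (nat_lit 426200) (nat_lit 9) (.e (nat_lit 426438) (nat_lit 18) (.e (nat_lit 98335) (nat_lit 18) (.e (nat_lit 164332) (nat_lit 230) .nil)))))) (.g (nat_lit 327) .nil .nil)))) (.nd (nat_lit 3) 
(.lf (nat_lit 324) (.g (nat_lit 3396) (.e (nat_lit 163941) (nat_lit 19) (.e (nat_lit 483341) (nat_lit 9) (.e (nat_lit 426200) (nat_lit 9) (.e (nat_lit 426438) (nat_lit 18) (.e (nat_lit 98335) (nat_lit 18) (.e (nat_lit 164332) (nat_lit 230) .nil)))))) (.g (nat_lit 323) .nil .nil))) 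
(.lf (nat_lit 332) (.g (nat_lit 3524) (.e (nat_lit 163944) (nat_lit 19) (.e (nat_lit 483341) (nat_lit 9) (.e (nat_lit 426200) (nat_lit 9) (.e (nat_lit 426436) (nat_lit 18) (.e (nat_lit 98335) (nat_lit 18) (.e (nat_lit 164325) (nat_lit 230) .nil)))))) (.g (nat_lit 331) .nil .nil))))) (.nd (nat_lit 2) (.nd (nat_lit 3) 
(.lf (nat_lit 322) (.g (nat_lit 3456) (.e (nat_lit 163941) (nat_lit 19) (.e (nat_lit 483341) (nat_lit 9) (.e (nat_lit 426200) (nat_lit 9) (.e (nat_lit 426438) (nat_lit 18) (.e (nat_lit 98335) (nat_lit 18) (.e (nat_lit 164325) (nat_lit 230) .nil)))))) (.g (nat_lit 321) .nil .nil))) 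
(.lf (nat_lit 330) (.g (nat_lit 3633) (.e (nat_lit 163944) (nat_lit 19) (.e (nat_lit 483341) (nat_lit 9) (.e (nat_lit 426200) (nat_lit 9) (.e (nat_lit 426436) (nat_lit 18) (.e (nat_lit 98333) (nat_lit 18) (.e (nat_lit 164325) (nat_lit 230) .nil)))))) (.g (nat_lit 329) .nil .nil)))) (.nd (nat_lit 3) 
(.lf (nat_lit 326) (.g (nat_lit 3933) (.e (nat_lit 163943) (nat_lit 19) (.e (nat_lit 483341) (nat_lit 9) (.e (nat_lit 426200) (nat_lit 9) (.e (nat_lit 426436) (nat_lit 18) (.e (nat_lit 98334) (nat_lit 18) (.e (nat_lit 164332) (nat_lit 230) .nil)))))) (.g (nat_lit 325) .nil .nil))) 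
(.lf (nat_lit 334) (.g (nat_lit 3200) (.e (nat_lit 163944) (nat_lit 19) (.e (nat_lit 483341) (nat_lit 9) (.e (nat_lit 426200) (nat_lit 9) (.e (nat_lit 426438) (nat_lit 18) (.e (nat_lit 98333) (nat_lit 18) (.e (nat_lit 164325) (nat_lit 230) .nil)))))) (.g (nat_lit 333) .nil .nil)))))) (.nd (nat_lit 1) (.nd (nat_lit 2) (.nd (nat_lit 3) 
(.lf (nat_lit 321) (.g (nat_lit 3456) (.e (nat_lit 57445) (nat_lit 19) (.e (nat_lit 393229) (nat_lit 9) (.e (nat_lit 336088) (nat_lit 9) (.e (nat_lit 336326) (nat_lit 18) (.e (nat_lit 204831) (nat_lit 18) (.e (nat_lit 57847) (nat_lit 252) .nil)))))) (.g (nat_lit 322) .nil .nil))) 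
(.lf (nat_lit 329) (.g (nat_lit 3633) (.e (nat_lit 57448) (nat_lit 19) (.e (nat_lit 393229) (nat_lit 9) (.e (nat_lit 336088) (nat_lit 9) (.e (nat_lit 336324) (nat_lit 18) (.e (nat_lit 204829) (nat_lit 18) (.e (nat_lit 57847) (nat_lit 252) .nil)))))) (.g (nat_lit 330) .nil .nil)))) (.nd (nat_lit 3) 
(.lf (nat_lit 325) (.g (nat_lit 3933) (.e (nat_lit 57447) (nat_lit 19) (.e (nat_lit 393229) (nat_lit 9) (.e (nat_lit 336088) (nat_lit 9) (.e (nat_lit 336324) (nat_lit 18) (.e (nat_lit 204830) (nat_lit 18) (.e (nat_lit 57854) (nat_lit 252) .nil)))))) (.g (nat_lit 326) .nil .nil))) 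
(.lf (nat_lit 333) (.g (nat_lit 3200) (.e (nat_lit 57448) (nat_lit 19) (.e (nat_lit 393229) (nat_lit 9) (.e (nat_lit 336088) (nat_lit 9) (.e (nat_lit 336326) (nat_lit 18) (.e (nat_lit 204829) (nat_lit 18) (.e (nat_lit 57847) (nat_lit 252) .nil)))))) (.g (nat_lit 334) .nil .nil))))) (.nd (nat_lit 2) (.nd (nat_lit 3) 
(.lf (nat_lit 323) (.g (nat_lit 3396) (.e (nat_lit 57445) (nat_lit 19) (.e (nat_lit 393229) (nat_lit 9) (.e (nat_lit 336088) (nat_lit 9) (.e (nat_lit 336326) (nat_lit 18) (.e (nat_lit 204831) (nat_lit 18) (.e (nat_lit 57854) (nat_lit 252) .nil)))))) (.g (nat_lit 324) .nil .nil))) 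
(.lf (nat_lit 331) (.g (nat_lit 3524) (.e (nat_lit 57448) (nat_lit 19) (.e (nat_lit 393229) (nat_lit 9) (.e (nat_lit 336088) (nat_lit 9) (.e (nat_lit 336324) (nat_lit 18) (.e (nat_lit 204831) (nat_lit 18) (.e (nat_lit 57847) (nat_lit 252) .nil)))))) (.g (nat_lit 332) .nil .nil)))) (.nd (nat_lit 3) 
(.lf (nat_lit 327) (.g (nat_lit 3345) (.e (nat_lit 57447) (nat_lit 19) (.e (nat_lit 393229) (nat_lit 9) (.e (nat_lit 336088) (nat_lit 9) (.e (nat_lit 336326) (nat_lit 18) (.e (nat_lit 204831) (nat_lit 18) (.e (nat_lit 57854) (nat_lit 252) .nil)))))) (.g (nat_lit 328) .nil .nil))) 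
(.lf (nat_lit 335) (.g (nat_lit 2879) (.e (nat_lit 57448) (nat_lit 19) (.e (nat_lit 393229) (nat_lit 9) (.e (nat_lit 336088) (nat_lit 9) (.e (nat_lit 336326) (nat_lit 18) (.e (nat_lit 204831) (nat_lit 18) (.e (nat_lit 57847) (nat_lit 252) .nil)))))) (.g (nat_lit 336) .nil .nil)))))))

noncomputable def tu043 : DT := (.nd (nat_lit 0) (.nd (nat_lit 1) (.nd (nat_lit 2) (.nd (nat_lit 3) 
(.lf (nat_lit 336) (.g (nat_lit 2879) (.e (nat_lit 163944) (nat_lit 19) (.e (nat_lit 483341) (nat_lit 9) (.e (nat_lit 426200) (nat_lit 9) (.e (nat_lit 426438) (nat_lit 18) (.e (nat_lit 98335) (nat_lit 18) (.e (nat_lit 164325) (nat_lit 230) .nil)))))) (.g (nat_lit 335) .nil .nil))) 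
(.lf (nat_lit 344) (.g (nat_lit 4994) (.e (nat_lit 163978) (nat_lit 30) (.e (nat_lit 573484) (nat_lit 13) (.e (nat_lit 65610) (nat_lit 10) (.e (nat_lit 344117) (nat_lit 21) (.e (nat_lit 516151) (nat_lit 9) (.e (nat_lit 426097) (nat_lit 1) (.e (nat_lit 164347) (nat_lit 240) (.e (nat_lit 2610) (nat_lit 163) .nil)))))))) (.g (nat_lit 343) .nil .nil)))) (.nd (nat_lit 3) 
(.lf (nat_lit 340) (.g (nat_lit 4189) (.e (nat_lit 163978) (nat_lit 30) (.e (nat_lit 573484) (nat_lit 13) (.e (nat_lit 65610) (nat_lit 10) (.e (nat_lit 344117) (nat_lit 21) (.e (nat_lit 516151) (nat_lit 9) (.e (nat_lit 426023) (nat_lit 0) (.e (nat_lit 3397) (nat_lit 211) (.e (nat_lit 647180) (nat_lit 3) .nil)))))))) (.g (nat_lit 339) .nil .nil))) 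
(.lf (nat_lit 348) (.g (nat_lit 4573) (.e (nat_lit 163978) (nat_lit 30) (.e (nat_lit 573484) (nat_lit 13) (.e (nat_lit 65610) (nat_lit 10) (.e (nat_lit 344117) (nat_lit 21) (.e (nat_lit 516151) (nat_lit 9) (.e (nat_lit 426142) (nat_lit 4) (.e (nat_lit 229665) (nat_lit 240) (.e (nat_lit 2602) (nat_lit 163) .nil)))))))) (.g (nat_lit 347) .nil .nil))))) (.nd (nat_lit 2) (.nd (nat_lit 3) 
(.lf (nat_lit 338) (.g (nat_lit 5106) (.e (nat_lit 163978) (nat_lit 30) (.e (nat_lit 573484) (nat_lit 13) (.e (nat_lit 65610) (nat_lit 10) (.e (nat_lit 344117) (nat_lit 21) (.e (nat_lit 516143) (nat_lit 9) (.e (nat_lit 426109) (nat_lit 1) (.e (nat_lit 164347) (nat_lit 240) (.e (nat_lit 2610) (nat_lit 163) .nil)))))))) (.g (nat_lit 337) .nil .nil))) 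
(.lf (nat_lit 346) (.g (nat_lit 4722) (.e (nat_lit 163978) (nat_lit 30) (.e (nat_lit 573484) (nat_lit 13) (.e (nat_lit 65610) (nat_lit 10) (.e (nat_lit 344117) (nat_lit 21) (.e (nat_lit 516151) (nat_lit 9) (.e (nat_lit 426142) (nat_lit 4) (.e (nat_lit 229663) (nat_lit 240) (.e (nat_lit 2602) (nat_lit 163) .nil)))))))) (.g (nat_lit 345) .nil .nil)))) (.nd (nat_lit 3) 
(.lf (nat_lit 342) (.g (nat_lit 4097) (.e (nat_lit 163978) (nat_lit 30) (.e (nat_lit 573484) (nat_lit 13) (.e (nat_lit 65610) (nat_lit 10) (.e (nat_lit 344117) (nat_lit 21) (.e (nat_lit 516151) (nat_lit 9) (.e (nat_lit 426023) (nat_lit 0) (.e (nat_lit 3401) (nat_lit 211) (.e (nat_lit 647180) (nat_lit 3) .nil)))))))) (.g (nat_lit 341) .nil .nil))) 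
(.lf (nat_lit 350) (.g (nat_lit 4234) (.e (nat_lit 163978) (nat_lit 30) (.e (nat_lit 573484) (nat_lit 13) (.e (nat_lit 65610) (nat_lit 10) (.e (nat_lit 344117) (nat_lit 21) (.e (nat_lit 516151) (nat_lit 9) (.e (nat_lit 426142) (nat_lit 4) (.e (nat_lit 229666) (nat_lit 240) (.e (nat_lit 2602) (nat_lit 163) .nil)))))))) (.g (nat_lit 349) .nil .nil)))))) 
(.nd (nat_lit 1) (.nd (nat_lit 2) (.nd (nat_lit 3) 
(.lf (nat_lit 337) (.g (nat_lit 5106) (.e (nat_lit 57479) (nat_lit 28) (.e (nat_lit 557100) (nat_lit 13) (.e (nat_lit 172106) (nat_lit 10) (.e (nat_lit 434231) (nat_lit 23) (.e (nat_lit 532527) (nat_lit 9) (.e (nat_lit 335997) (nat_lit 1) (.e (nat_lit 57872) (nat_lit 264) (.e (nat_lit 1181) (nat_lit 87) .nil)))))))) (.g (nat_lit 338) .nil .nil))) 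
(.lf (nat_lit 345) (.g (nat_lit 4722) (.e (nat_lit 57479) (nat_lit 28) (.e (nat_lit 557100) (nat_lit 13) (.e (nat_lit 172106) (nat_lit 10) (.e (nat_lit 434231) (nat_lit 23) (.e (nat_lit 532535) (nat_lit 9) (.e (nat_lit 336030) (nat_lit 4) (.e (nat_lit 123182) (nat_lit 264) (.e (nat_lit 1173) (nat_lit 87) .nil)))))))) (.g (nat_lit 346) .nil .nil)))) (.nd (nat_lit 3) 
(.lf (nat_lit 341) (.g (nat_lit 4097) (.e (nat_lit 57479) (nat_lit 28) (.e (nat_lit 557100) (nat_lit 13) (.e (nat_lit 172106) (nat_lit 10) (.e (nat_lit 434231) (nat_lit 23) (.e (nat_lit 532535) (nat_lit 9) (.e (nat_lit 335908) (nat_lit 0) (.e (nat_lit 1998) (nat_lit 137) (.e (nat_lit 663564) (nat_lit 3) .nil)))))))) (.g (nat_lit 342) .nil .nil))) 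
(.lf (nat_lit 349) (.g (nat_lit 4234) (.e (nat_lit 57479) (nat_lit 28) (.e (nat_lit 557100) (nat_lit 13) (.e (nat_lit 172106) (nat_lit 10) (.e (nat_lit 434231) (nat_lit 23) (.e (nat_lit 532535) (nat_lit 9) (.e (nat_lit 336030) (nat_lit 4) (.e (nat_lit 123185) (nat_lit 264) (.e (nat_lit 1173) (nat_lit 87) .nil)))))))) (.g (nat_lit 350) .nil .nil))))) (.nd (nat_lit 2) (.nd (nat_lit 3) 
(.lf (nat_lit 339) (.g (nat_lit 4189) (.e (nat_lit 57479) (nat_lit 28) (.e (nat_lit 557100) (nat_lit 13) (.e (nat_lit 172106) (nat_lit 10) (.e (nat_lit 434231) (nat_lit 23) (.e (nat_lit 532535) (nat_lit 9) (.e (nat_lit 335908) (nat_lit 0) (.e (nat_lit 1994) (nat_lit 137) (.e (nat_lit 663564) (nat_lit 3) .nil)))))))) (.g (nat_lit 340) .nil .nil))) 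
(.lf (nat_lit 347) (.g (nat_lit 4573) (.e (nat_lit 57479) (nat_lit 28) (.e (nat_lit 557100) (nat_lit 13) (.e (nat_lit 172106) (nat_lit 10) (.e (nat_lit 434231) (nat_lit 23) (.e (nat_lit 532535) (nat_lit 9) (.e (nat_lit 336030) (nat_lit 4) (.e (nat_lit 123184) (nat_lit 264) (.e (nat_lit 1173) (nat_lit 87) .nil)))))))) (.g (nat_lit 348) .nil .nil)))) (.nd (nat_lit 3) 
(.lf (nat_lit 343) (.g (nat_lit 4994) (.e (nat_lit 57479) (nat_lit 28) (.e (nat_lit 557100) (nat_lit 13) (.e (nat_lit 172106) (nat_lit 10) (.e (nat_lit 434231) (nat_lit 23) (.e (nat_lit 532535) (nat_lit 9) (.e (nat_lit 335985) (nat_lit 1) (.e (nat_lit 57872) (nat_lit 264) (.e (nat_lit 1181) (nat_lit 87) .nil)))))))) (.g (nat_lit 344) .nil .nil))) 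
(.lf (nat_lit 351) (.g (nat_lit 5385) (.e (nat_lit 57479) (nat_lit 28) (.e (nat_lit 557100) (nat_lit 13) (.e (nat_lit 172106) (nat_lit 10) (.e (nat_lit 434231) (nat_lit 23) (.e (nat_lit 532543) (nat_lit 10) (.e (nat_lit 344097) (nat_lit 18) (.e (nat_lit 5906) (nat_lit 320) (.e (nat_lit 1181) (nat_lit 87) .nil)))))))) (.g (nat_lit 352) .nil .nil)))))))

noncomputable def tu044 : DT := (.nd (nat_lit 0) (.nd (nat_lit 1) (.nd (nat_lit 2) 
(.lf (nat_lit 352) (.g (nat_lit 5385) (.e (nat_lit 163978) (nat_lit 30) (.e (nat_lit 573484) (nat_lit 13) (.e (nat_lit 65610) (nat_lit 10) (.e (nat_lit 344117) (nat_lit 21) (.e (nat_lit 516159) (nat_lit 10) (.e (nat_lit 434209) (nat_lit 18) (.e (nat_lit 5547) (nat_lit 306) (.e (nat_lit 2610) (nat_lit 163) .nil)))))))) (.g (nat_lit 351) .nil .nil))) 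
(.lf (nat_lit 356) (.g (nat_lit 5819) (.e (nat_lit 163978) (nat_lit 30) (.e (nat_lit 573484) (nat_lit 13) (.e (nat_lit 65610) (nat_lit 10) (.e (nat_lit 344117) (nat_lit 21) (.e (nat_lit 516160) (nat_lit 10) (.e (nat_lit 434209) (nat_lit 18) (.e (nat_lit 5547) (nat_lit 306) (.e (nat_lit 2610) (nat_lit 163) .nil)))))))) (.g (nat_lit 355) .nil .nil)))) (.nd (nat_lit 2) 
(.lf (nat_lit 354) (.g (nat_lit 5909) (.e (nat_lit 163978) (nat_lit 30) (.e (nat_lit 573484) (nat_lit 13) (.e (nat_lit 65610) (nat_lit 10) (.e (nat_lit 344117) (nat_lit 21) (.e (nat_lit 516159) (nat_lit 10) (.e (nat_lit 434209) (nat_lit 18) (.e (nat_lit 5548) (nat_lit 306) (.e (nat_lit 2610) (nat_lit 163) .nil)))))))) (.g (nat_lit 353) .nil .nil))) 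
(.lf (nat_lit 358) (.g (nat_lit 5301) (.e (nat_lit 164020) (nat_lit 45) (.e (nat_lit 696343) (nat_lit 8) (.e (nat_lit 172064) (nat_lit 2) (.e (nat_lit 196666) (nat_lit 13) (.e (nat_lit 65610) (nat_lit 10) (.e (nat_lit 344129) (nat_lit 26) (.e (nat_lit 557090) (nat_lit 12) .nil))))))) (.g (nat_lit 357) .nil .nil))))) (.nd (nat_lit 1) (.nd (nat_lit 2) 
(.lf (nat_lit 353) (.g (nat_lit 5909) (.e (nat_lit 57479) (nat_lit 28) (.e (nat_lit 557100) (nat_lit 13) (.e (nat_lit 172106) (nat_lit 10) (.e (nat_lit 434231) (nat_lit 23) (.e (nat_lit 532543) (nat_lit 10) (.e (nat_lit 344097) (nat_lit 18) (.e (nat_lit 5907) (nat_lit 320) (.e (nat_lit 1181) (nat_lit 87) .nil)))))))) (.g (nat_lit 354) .nil .nil))) 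
(.lf (nat_lit 357) (.g (nat_lit 5301) (.e (nat_lit 57572) (nat_lit 54) (.e (nat_lit 770071) (nat_lit 8) (.e (nat_lit 65568) (nat_lit 2) (.e (nat_lit 90170) (nat_lit 13) (.e (nat_lit 172106) (nat_lit 10) (.e (nat_lit 434244) (nat_lit 28) (.e (nat_lit 573474) (nat_lit 12) .nil))))))) (.g (nat_lit 358) .nil .nil)))) (.nd (nat_lit 2) 
(.lf (nat_lit 355) (.g (nat_lit 5819) (.e (nat_lit 57479) (nat_lit 28) (.e (nat_lit 557100) (nat_lit 13) (.e (nat_lit 172106) (nat_lit 10) (.e (nat_lit 434231) (nat_lit 23) (.e (nat_lit 532544) (nat_lit 10) (.e (nat_lit 344097) (nat_lit 18) (.e (nat_lit 5906) (nat_lit 320) (.e (nat_lit 1181) (nat_lit 87) .nil)))))))) (.g (nat_lit 356) .nil .nil))) 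
(.lf (nat_lit 359) (.g (nat_lit 3012) (.e (nat_lit 57655) (nat_lit 152) (.e (nat_lit 1217) (nat_lit 90) (.e (nat_lit 81965) (nat_lit 26) (.e (nat_lit 147467) (nat_lit 9) (.e (nat_lit 334) (nat_lit 26) (.e (nat_lit 376857) (nat_lit 21) .nil)))))) (.g (nat_lit 360) .nil .nil))))))

noncomputable def tu045 : DT := (.nd (nat_lit 0) (.nd (nat_lit 1) (.nd (nat_lit 2) 
(.lf (nat_lit 360) (.g (nat_lit 3012) (.e (nat_lit 164151) (nat_lit 152) (.e (nat_lit 2646) (nat_lit 166) (.e (nat_lit 188461) (nat_lit 26) (.e (nat_lit 253963) (nat_lit 9) (.e (nat_lit 479) (nat_lit 37) (.e (nat_lit 466969) (nat_lit 21) .nil)))))) (.g (nat_lit 359) .nil .nil))) 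
(.lf (nat_lit 364) (.g (nat_lit 954) (.e (nat_lit 164292) (nat_lit 224) (.e (nat_lit 164372) (nat_lit 250) (.e (nat_lit 172149) (nat_lit 27) (.e (nat_lit 336121) (nat_lit 9) (.e (nat_lit 336331) (nat_lit 19) (.e (nat_lit 213053) (nat_lit 17) .nil)))))) (.g (nat_lit 363) .nil .nil)))) (.nd (nat_lit 2) 
(.lf (nat_lit 362) (.g (nat_lit 2954) (.e (nat_lit 164151) (nat_lit 152) (.e (nat_lit 2646) (nat_lit 166) (.e (nat_lit 188461) (nat_lit 26) (.e (nat_lit 253963) (nat_lit 9) (.e (nat_lit 479) (nat_lit 37) (.e (nat_lit 466971) (nat_lit 21) .nil)))))) (.g (nat_lit 361) .nil .nil))) 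
(.lf (nat_lit 366) (.g (nat_lit 3981) (.e (nat_lit 164325) (nat_lit 230) (.e (nat_lit 163875) (nat_lit 3) (.e (nat_lit 204813) (nat_lit 9) (.e (nat_lit 426188) (nat_lit 9) (.e (nat_lit 426566) (nat_lit 34) (.e (nat_lit 393253) (nat_lit 18) .nil)))))) (.g (nat_lit 365) .nil .nil))))) (.nd (nat_lit 1) (.nd (nat_lit 2) 
(.lf (nat_lit 361) (.g (nat_lit 2954) (.e (nat_lit 57655) (nat_lit 152) (.e (nat_lit 1217) (nat_lit 90) (.e (nat_lit 81965) (nat_lit 26) (.e (nat_lit 147467) (nat_lit 9) (.e (nat_lit 334) (nat_lit 26) (.e (nat_lit 376859) (nat_lit 21) .nil)))))) (.g (nat_lit 362) .nil .nil))) 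
(.lf (nat_lit 365) (.g (nat_lit 3981) (.e (nat_lit 57847) (nat_lit 252) (.e (nat_lit 57379) (nat_lit 3) (.e (nat_lit 98317) (nat_lit 9) (.e (nat_lit 336076) (nat_lit 9) (.e (nat_lit 336454) (nat_lit 34) (.e (nat_lit 483365) (nat_lit 18) .nil)))))) (.g (nat_lit 366) .nil .nil)))) (.nd (nat_lit 2) 
(.lf (nat_lit 363) (.g (nat_lit 954) (.e (nat_lit 57814) (nat_lit 246) (.e (nat_lit 57897) (nat_lit 274) (.e (nat_lit 65652) (nat_lit 27) (.e (nat_lit 426234) (nat_lit 9) (.e (nat_lit 426443) (nat_lit 19) (.e (nat_lit 106556) (nat_lit 15) .nil)))))) (.g (nat_lit 364) .nil .nil))) 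
(.lf (nat_lit 367) (.g (nat_lit 3413) (.e (nat_lit 57848) (nat_lit 252) (.e (nat_lit 57377) (nat_lit 3) (.e (nat_lit 98317) (nat_lit 9) (.e (nat_lit 336213) (nat_lit 13) (.e (nat_lit 393229) (nat_lit 9) (.e (nat_lit 335994) (nat_lit 1) .nil)))))) (.g (nat_lit 368) .nil .nil))))))

noncomputable def tu046 : DT := (.nd (nat_lit 0) (.nd (nat_lit 1) (.nd (nat_lit 2) 
(.lf (nat_lit 368) (.g (nat_lit 3413) (.e (nat_lit 164326) (nat_lit 230) (.e (nat_lit 163873) (nat_lit 3) (.e (nat_lit 204813) (nat_lit 9) (.e (nat_lit 426325) (nat_lit 13) (.e (nat_lit 483341) (nat_lit 9) (.e (nat_lit 426106) (nat_lit 1) .nil)))))) (.g (nat_lit 367) .nil .nil))) 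
(.lf (nat_lit 372) (.g (nat_lit 3413) (.e (nat_lit 164329) (nat_lit 230) (.e (nat_lit 163904) (nat_lit 12) (.e (nat_lit 426566) (nat_lit 34) (.e (nat_lit 393271) (nat_lit 23) (.e (nat_lit 426436) (nat_lit 18) (.e (nat_lit 98335) (nat_lit 18) .nil)))))) (.g (nat_lit 371) .nil .nil)))) (.nd (nat_lit 2) 
(.lf (nat_lit 370) (.g (nat_lit 3748) (.e (nat_lit 164329) (nat_lit 230) (.e (nat_lit 163873) (nat_lit 3) (.e (nat_lit 204813) (nat_lit 9) (.e (nat_lit 426188) (nat_lit 9) (.e (nat_lit 426566) (nat_lit 34) (.e (nat_lit 393253) (nat_lit 18) .nil)))))) (.g (nat_lit 369) .nil .nil))) 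
(.lf (nat_lit 374) (.g (nat_lit 3662) (.e (nat_lit 164329) (nat_lit 230) (.e (nat_lit 163941) (nat_lit 19) (.e (nat_lit 483341) (nat_lit 9) (.e (nat_lit 426200) (nat_lit 9) (.e (nat_lit 426436) (nat_lit 18) (.e (nat_lit 98335) (nat_lit 18) .nil)))))) (.g (nat_lit 373) .nil .nil))))) (.nd (nat_lit 1) (.nd (nat_lit 2) 
(.lf (nat_lit 369) (.g (nat_lit 3748) (.e (nat_lit 57851) (nat_lit 252) (.e (nat_lit 57377) (nat_lit 3) (.e (nat_lit 98317) (nat_lit 9) (.e (nat_lit 336076) (nat_lit 9) (.e (nat_lit 336454) (nat_lit 34) (.e (nat_lit 483365) (nat_lit 18) .nil)))))) (.g (nat_lit 370) .nil .nil))) 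
(.lf (nat_lit 373) (.g (nat_lit 3662) (.e (nat_lit 57851) (nat_lit 252) (.e (nat_lit 57445) (nat_lit 19) (.e (nat_lit 393229) (nat_lit 9) (.e (nat_lit 336088) (nat_lit 9) (.e (nat_lit 336324) (nat_lit 18) (.e (nat_lit 204831) (nat_lit 18) .nil)))))) (.g (nat_lit 374) .nil .nil)))) (.nd (nat_lit 2) 
(.lf (nat_lit 371) (.g (nat_lit 3413) (.e (nat_lit 57851) (nat_lit 252) (.e (nat_lit 57408) (nat_lit 12) (.e (nat_lit 336454) (nat_lit 34) (.e (nat_lit 483383) (nat_lit 23) (.e (nat_lit 336324) (nat_lit 18) (.e (nat_lit 204831) (nat_lit 18) .nil)))))) (.g (nat_lit 372) .nil .nil))) 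
(.lf (nat_lit 375) (.g (nat_lit 4112) (.e (nat_lit 57853) (nat_lit 252) (.e (nat_lit 57377) (nat_lit 3) (.e (nat_lit 98317) (nat_lit 9) (.e (nat_lit 336076) (nat_lit 9) (.e (nat_lit 336454) (nat_lit 34) (.e (nat_lit 483365) (nat_lit 18) .nil)))))) (.g (nat_lit 376) .nil .nil))))))

noncomputable def tu047 : DT := (.nd (nat_lit 0) (.nd (nat_lit 1) (.nd (nat_lit 2) 
(.lf (nat_lit 376) (.g (nat_lit 4112) (.e (nat_lit 164331) (nat_lit 230) (.e (nat_lit 163873) (nat_lit 3) (.e (nat_lit 204813) (nat_lit 9) (.e (nat_lit 426188) (nat_lit 9) (.e (nat_lit 426566) (nat_lit 34) (.e (nat_lit 393253) (nat_lit 18) .nil)))))) (.g (nat_lit 375) .nil .nil))) 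
(.lf (nat_lit 380) (.g (nat_lit 4090) (.e (nat_lit 164332) (nat_lit 230) (.e (nat_lit 163873) (nat_lit 3) (.e (nat_lit 204813) (nat_lit 9) (.e (nat_lit 426188) (nat_lit 9) (.e (nat_lit 426566) (nat_lit 34) (.e (nat_lit 393253) (nat_lit 18) .nil)))))) (.g (nat_lit 379) .nil .nil)))) (.nd (nat_lit 2) 
(.lf (nat_lit 378) (.g (nat_lit 4083) (.e (nat_lit 164331) (nat_lit 230) (.e (nat_lit 163902) (nat_lit 12) (.e (nat_lit 426566) (nat_lit 34) (.e (nat_lit 393271) (nat_lit 23) (.e (nat_lit 426436) (nat_lit 18) (.e (nat_lit 98335) (nat_lit 18) .nil)))))) (.g (nat_lit 377) .nil .nil))) 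
(.lf (nat_lit 382) (.g (nat_lit 4302) (.e (nat_lit 164346) (nat_lit 240) (.e (nat_lit 2599) (nat_lit 163) (.e (nat_lit 163978) (nat_lit 30) (.e (nat_lit 573484) (nat_lit 13) (.e (nat_lit 65610) (nat_lit 10) (.e (nat_lit 344117) (nat_lit 21) (.e (nat_lit 516143) (nat_lit 9) (.e (nat_lit 426109) (nat_lit 1) .nil)))))))) (.g (nat_lit 381) .nil .nil))))) (.nd (nat_lit 1) (.nd (nat_lit 2) 
(.lf (nat_lit 377) (.g (nat_lit 4083) (.e (nat_lit 57853) (nat_lit 252) (.e (nat_lit 57406) (nat_lit 12) (.e (nat_lit 336454) (nat_lit 34) (.e (nat_lit 483383) (nat_lit 23) (.e (nat_lit 336324) (nat_lit 18) (.e (nat_lit 204831) (nat_lit 18) .nil)))))) (.g (nat_lit 378) .nil .nil))) 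
(.lf (nat_lit 381) (.g (nat_lit 4302) (.e (nat_lit 57871) (nat_lit 264) (.e (nat_lit 1170) (nat_lit 87) (.e (nat_lit 57479) (nat_lit 28) (.e (nat_lit 557100) (nat_lit 13) (.e (nat_lit 172106) (nat_lit 10) (.e (nat_lit 434231) (nat_lit 23) (.e (nat_lit 532527) (nat_lit 9) (.e (nat_lit 335997) (nat_lit 1) .nil)))))))) (.g (nat_lit 382) .nil .nil)))) (.nd (nat_lit 2) 
(.lf (nat_lit 379) (.g (nat_lit 4090) (.e (nat_lit 57854) (nat_lit 252) (.e (nat_lit 57377) (nat_lit 3) (.e (nat_lit 98317) (nat_lit 9) (.e (nat_lit 336076) (nat_lit 9) (.e (nat_lit 336454) (nat_lit 34) (.e (nat_lit 483365) (nat_lit 18) .nil)))))) (.g (nat_lit 380) .nil .nil))) 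
(.lf (nat_lit 383) (.g (nat_lit 2510) (.e (nat_lit 57893) (nat_lit 271) (.e (nat_lit 8226) (nat_lit 15) (.e (nat_lit 532533) (nat_lit 9) (.e (nat_lit 336211) (nat_lit 13) (.e (nat_lit 393221) (nat_lit 0) (.e (nat_lit 6207) (nat_lit 333) .nil)))))) (.g (nat_lit 384) .nil .nil))))))

noncomputable def tu048 : DT := (.nd (nat_lit 0) (.nd (nat_lit 1) (.nd (nat_lit 2) 
(.lf (nat_lit 384) (.g (nat_lit 2510) (.e (nat_lit 164368) (nat_lit 247) (.e (nat_lit 8318) (nat_lit 64) (.e (nat_lit 516149) (nat_lit 9) (.e (nat_lit 426323) (nat_lit 13) (.e (nat_lit 483333) (nat_lit 0) (.e (nat_lit 7096) (nat_lit 380) .nil)))))) (.g (nat_lit 383) .nil .nil))) 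
(.lf (nat_lit 388) (.g (nat_lit 3380) (.e (nat_lit 164368) (nat_lit 247) (.e (nat_lit 8318) (nat_lit 64) (.e (nat_lit 516176) (nat_lit 14) (.e (nat_lit 466954) (nat_lit 11) (.e (nat_lit 336288) (nat_lit 15) (.e (nat_lit 7096) (nat_lit 380) .nil)))))) (.g (nat_lit 387) .nil .nil)))) (.nd (nat_lit 2) 
(.lf (nat_lit 386) (.g (nat_lit 2016) (.e (nat_lit 164368) (nat_lit 247) (.e (nat_lit 8318) (nat_lit 64) (.e (nat_lit 516149) (nat_lit 9) (.e (nat_lit 426323) (nat_lit 13) (.e (nat_lit 483333) (nat_lit 0) (.e (nat_lit 7098) (nat_lit 380) .nil)))))) (.g (nat_lit 385) .nil .nil))) 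
(.lf (nat_lit 390) (.g (nat_lit 2887) (.e (nat_lit 164368) (nat_lit 247) (.e (nat_lit 8318) (nat_lit 64) (.e (nat_lit 516176) (nat_lit 14) (.e (nat_lit 466954) (nat_lit 11) (.e (nat_lit 336288) (nat_lit 15) (.e (nat_lit 7098) (nat_lit 380) .nil)))))) (.g (nat_lit 389) .nil .nil))))) (.nd (nat_lit 1) (.nd (nat_lit 2) 
(.lf (nat_lit 385) (.g (nat_lit 2016) (.e (nat_lit 57893) (nat_lit 271) (.e (nat_lit 8226) (nat_lit 15) (.e (nat_lit 532533) (nat_lit 9) (.e (nat_lit 336211) (nat_lit 13) (.e (nat_lit 393221) (nat_lit 0) (.e (nat_lit 6209) (nat_lit 333) .nil)))))) (.g (nat_lit 386) .nil .nil))) 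
(.lf (nat_lit 389) (.g (nat_lit 2887) (.e (nat_lit 57893) (nat_lit 271) (.e (nat_lit 8226) (nat_lit 15) (.e (nat_lit 532560) (nat_lit 14) (.e (nat_lit 376842) (nat_lit 11) (.e (nat_lit 426408) (nat_lit 15) (.e (nat_lit 6209) (nat_lit 333) .nil)))))) (.g (nat_lit 390) .nil .nil)))) (.nd (nat_lit 2) 
(.lf (nat_lit 387) (.g (nat_lit 3380) (.e (nat_lit 57893) (nat_lit 271) (.e (nat_lit 8226) (nat_lit 15) (.e (nat_lit 532560) (nat_lit 14) (.e (nat_lit 376842) (nat_lit 11) (.e (nat_lit 426408) (nat_lit 15) (.e (nat_lit 6207) (nat_lit 333) .nil)))))) (.g (nat_lit 388) .nil .nil))) 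
(.lf (nat_lit 391) (.g (nat_lit 4734) (.e (nat_lit 65566) (nat_lit 2) (.e (nat_lit 90170) (nat_lit 13) (.e (nat_lit 172106) (nat_lit 10) (.e (nat_lit 434244) (nat_lit 28) (.e (nat_lit 573474) (nat_lit 12) (.e (nat_lit 57351) (nat_lit 0) (.e (nat_lit 7124) (nat_lit 382) (.e (nat_lit 1201) (nat_lit 88) .nil)))))))) (.g (nat_lit 392) .nil .nil))))))

noncomputable def tu049 : DT := (.nd (nat_lit 0) (.nd (nat_lit 1) (.nd (nat_lit 2) 
(.lf (nat_lit 392) (.g (nat_lit 4734) (.e (nat_lit 172062) (nat_lit 2) (.e (nat_lit 196666) (nat_lit 13) (.e (nat_lit 65610) (nat_lit 10) (.e (nat_lit 344129) (nat_lit 26) (.e (nat_lit 557090) (nat_lit 12) (.e (nat_lit 163847) (nat_lit 0) (.e (nat_lit 6254) (nat_lit 337) (.e (nat_lit 2630) (nat_lit 164) .nil)))))))) (.g (nat_lit 391) .nil .nil))) 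
(.lf (nat_lit 396) (.g (nat_lit 5685) (.e (nat_lit 172064) (nat_lit 2) (.e (nat_lit 196666) (nat_lit 13) (.e (nat_lit 65610) (nat_lit 10) (.e (nat_lit 344129) (nat_lit 26) (.e (nat_lit 557090) (nat_lit 12) (.e (nat_lit 164020) (nat_lit 45) (.e (nat_lit 696344) (nat_lit 8) .nil))))))) (.g (nat_lit 395) .nil .nil)))) (.nd (nat_lit 2) 
(.lf (nat_lit 394) (.g (nat_lit 5052) (.e (nat_lit 172062) (nat_lit 2) (.e (nat_lit 196666) (nat_lit 13) (.e (nat_lit 65610) (nat_lit 10) (.e (nat_lit 344129) (nat_lit 26) (.e (nat_lit 557090) (nat_lit 12) (.e (nat_lit 164020) (nat_lit 45) (.e (nat_lit 696344) (nat_lit 8) .nil))))))) (.g (nat_lit 393) .nil .nil))) 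
(.lf (nat_lit 398) (.g (nat_lit 4570) (.e (nat_lit 172082) (nat_lit 7) (.e (nat_lit 409646) (nat_lit 18) (.e (nat_lit 303143) (nat_lit 12) (.e (nat_lit 475199) (nat_lit 40) (.e (nat_lit 704589) (nat_lit 3) (.e (nat_lit 164030) (nat_lit 53) (.e (nat_lit 761905) (nat_lit 16) .nil))))))) (.g (nat_lit 397) .nil .nil))))) (.nd (nat_lit 1) (.nd (nat_lit 2) 
(.lf (nat_lit 393) (.g (nat_lit 5052) (.e (nat_lit 65566) (nat_lit 2) (.e (nat_lit 90170) (nat_lit 13) (.e (nat_lit 172106) (nat_lit 10) (.e (nat_lit 434244) (nat_lit 28) (.e (nat_lit 573474) (nat_lit 12) (.e (nat_lit 57572) (nat_lit 54) (.e (nat_lit 770072) (nat_lit 8) .nil))))))) (.g (nat_lit 394) .nil .nil))) 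
(.lf (nat_lit 397) (.g (nat_lit 4570) (.e (nat_lit 65586) (nat_lit 7) (.e (nat_lit 319531) (nat_lit 16) (.e (nat_lit 286759) (nat_lit 12) (.e (nat_lit 385094) (nat_lit 49) (.e (nat_lit 778317) (nat_lit 3) (.e (nat_lit 57520) (nat_lit 44) (.e (nat_lit 688177) (nat_lit 16) .nil))))))) (.g (nat_lit 398) .nil .nil)))) (.nd (nat_lit 2) 
(.lf (nat_lit 395) (.g (nat_lit 5685) (.e (nat_lit 65568) (nat_lit 2) (.e (nat_lit 90170) (nat_lit 13) (.e (nat_lit 172106) (nat_lit 10) (.e (nat_lit 434244) (nat_lit 28) (.e (nat_lit 573474) (nat_lit 12) (.e (nat_lit 57572) (nat_lit 54) (.e (nat_lit 770072) (nat_lit 8) .nil))))))) (.g (nat_lit 396) .nil .nil))) 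
(.lf (nat_lit 399) (.g (nat_lit 3232) (.e (nat_lit 65604) (nat_lit 9) (.e (nat_lit 335997) (nat_lit 1) (.e (nat_lit 57870) (nat_lit 264) (.e (nat_lit 1189) (nat_lit 88) (.e (nat_lit 65604) (nat_lit 9) (.e (nat_lit 335997) (nat_lit 1) (.e (nat_lit 57870) (nat_lit 264) (.e (nat_lit 1190) (nat_lit 88) .nil)))))))) (.g (nat_lit 400) .nil .nil))))))

noncomputable def tu050 : DT := (.nd (nat_lit 0) (.nd (nat_lit 1) (.nd (nat_lit 2) 
(.lf (nat_lit 400) (.g (nat_lit 3232) (.e (nat_lit 172097) (nat_lit 9) (.e (nat_lit 426109) (nat_lit 1) (.e (nat_lit 164345) (nat_lit 240) (.e (nat_lit 2618) (nat_lit 164) (.e (nat_lit 172097) (nat_lit 9) (.e (nat_lit 426109) (nat_lit 1) (.e (nat_lit 164345) (nat_lit 240) (.e (nat_lit 2619) (nat_lit 164) .nil)))))))) (.g (nat_lit 399) .nil .nil))) 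
(.lf (nat_lit 404) (.g (nat_lit 3616) (.e (nat_lit 172097) (nat_lit 9) (.e (nat_lit 426109) (nat_lit 1) (.e (nat_lit 164345) (nat_lit 240) (.e (nat_lit 2619) (nat_lit 164) (.e (nat_lit 172097) (nat_lit 9) (.e (nat_lit 426109) (nat_lit 1) (.e (nat_lit 164347) (nat_lit 240) (.e (nat_lit 2619) (nat_lit 164) .nil)))))))) (.g (nat_lit 403) .nil .nil)))) (.nd (nat_lit 2) 
(.lf (nat_lit 402) (.g (nat_lit 3516) (.e (nat_lit 172097) (nat_lit 9) (.e (nat_lit 426109) (nat_lit 1) (.e (nat_lit 164345) (nat_lit 240) (.e (nat_lit 2619) (nat_lit 164) (.e (nat_lit 172097) (nat_lit 9) (.e (nat_lit 426109) (nat_lit 1) (.e (nat_lit 164345) (nat_lit 240) (.e (nat_lit 2619) (nat_lit 164) .nil)))))))) (.g (nat_lit 401) .nil .nil))) 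
(.lf (nat_lit 406) (.g (nat_lit 3960) (.e (nat_lit 172097) (nat_lit 9) (.e (nat_lit 426109) (nat_lit 1) (.e (nat_lit 164345) (nat_lit 240) (.e (nat_lit 2619) (nat_lit 164) (.e (nat_lit 172115) (nat_lit 10) (.e (nat_lit 434209) (nat_lit 18) (.e (nat_lit 5547) (nat_lit 306) (.e (nat_lit 2619) (nat_lit 164) .nil)))))))) (.g (nat_lit 405) .nil .nil))))) (.nd (nat_lit 1) (.nd (nat_lit 2) 
(.lf (nat_lit 401) (.g (nat_lit 3516) (.e (nat_lit 65604) (nat_lit 9) (.e (nat_lit 335997) (nat_lit 1) (.e (nat_lit 57870) (nat_lit 264) (.e (nat_lit 1190) (nat_lit 88) (.e (nat_lit 65604) (nat_lit 9) (.e (nat_lit 335997) (nat_lit 1) (.e (nat_lit 57870) (nat_lit 264) (.e (nat_lit 1190) (nat_lit 88) .nil)))))))) (.g (nat_lit 402) .nil .nil))) 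
(.lf (nat_lit 405) (.g (nat_lit 3960) (.e (nat_lit 65604) (nat_lit 9) (.e (nat_lit 335997) (nat_lit 1) (.e (nat_lit 57870) (nat_lit 264) (.e (nat_lit 1190) (nat_lit 88) (.e (nat_lit 65619) (nat_lit 10) (.e (nat_lit 344097) (nat_lit 18) (.e (nat_lit 5906) (nat_lit 320) (.e (nat_lit 1190) (nat_lit 88) .nil)))))))) (.g (nat_lit 406) .nil .nil)))) (.nd (nat_lit 2) 
(.lf (nat_lit 403) (.g (nat_lit 3616) (.e (nat_lit 65604) (nat_lit 9) (.e (nat_lit 335997) (nat_lit 1) (.e (nat_lit 57870) (nat_lit 264) (.e (nat_lit 1190) (nat_lit 88) (.e (nat_lit 65604) (nat_lit 9) (.e (nat_lit 335997) (nat_lit 1) (.e (nat_lit 57872) (nat_lit 264) (.e (nat_lit 1190) (nat_lit 88) .nil)))))))) (.g (nat_lit 404) .nil .nil))) 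
(.lf (nat_lit 407) (.g (nat_lit 3451) (.e (nat_lit 65604) (nat_lit 9) (.e (nat_lit 335997) (nat_lit 1) (.e (nat_lit 57870) (nat_lit 264) (.e (nat_lit 1200) (nat_lit 88) (.e (nat_lit 65604) (nat_lit 9) (.e (nat_lit 335997) (nat_lit 1) (.e (nat_lit 57870) (nat_lit 264) (.e (nat_lit 1190) (nat_lit 88) .nil)))))))) (.g (nat_lit 408) .nil .nil))))))

noncomputable def tu051 : DT := (.nd (nat_lit 0) (.nd (nat_lit 1) (.nd (nat_lit 2) 
(.lf (nat_lit 408) (.g (nat_lit 3451) (.e (nat_lit 172097) (nat_lit 9) (.e (nat_lit 426109) (nat_lit 1) (.e (nat_lit 164345) (nat_lit 240) (.e (nat_lit 2629) (nat_lit 164) (.e (nat_lit 172097) (nat_lit 9) (.e (nat_lit 426109) (nat_lit 1) (.e (nat_lit 164345) (nat_lit 240) (.e (nat_lit 2619) (nat_lit 164) .nil)))))))) (.g (nat_lit 407) .nil .nil))) 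
(.lf (nat_lit 412) (.g (nat_lit 3954) (.e (nat_lit 172113) (nat_lit 10) (.e (nat_lit 434208) (nat_lit 18) (.e (nat_lit 6416) (nat_lit 341) (.e (nat_lit 163908) (nat_lit 12) (.e (nat_lit 426286) (nat_lit 10) (.e (nat_lit 434203) (nat_lit 18) (.e (nat_lit 6254) (nat_lit 337) (.e (nat_lit 2630) (nat_lit 164) .nil)))))))) (.g (nat_lit 411) .nil .nil)))) (.nd (nat_lit 2) 
(.lf (nat_lit 410) (.g (nat_lit 3560) (.e (nat_lit 172097) (nat_lit 9) (.e (nat_lit 426109) (nat_lit 1) (.e (nat_lit 164347) (nat_lit 240) (.e (nat_lit 2629) (nat_lit 164) (.e (nat_lit 172097) (nat_lit 9) (.e (nat_lit 426109) (nat_lit 1) (.e (nat_lit 164345) (nat_lit 240) (.e (nat_lit 2619) (nat_lit 164) .nil)))))))) (.g (nat_lit 409) .nil .nil))) 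
(.lf (nat_lit 414) (.g (nat_lit 3960) (.e (nat_lit 172113) (nat_lit 10) (.e (nat_lit 434208) (nat_lit 18) (.e (nat_lit 6416) (nat_lit 341) (.e (nat_lit 163908) (nat_lit 12) (.e (nat_lit 426286) (nat_lit 10) (.e (nat_lit 434208) (nat_lit 18) (.e (nat_lit 6254) (nat_lit 337) (.e (nat_lit 2630) (nat_lit 164) .nil)))))))) (.g (nat_lit 413) .nil .nil))))) (.nd (nat_lit 1) (.nd (nat_lit 2) 
(.lf (nat_lit 409) (.g (nat_lit 3560) (.e (nat_lit 65604) (nat_lit 9) (.e (nat_lit 335997) (nat_lit 1) (.e (nat_lit 57872) (nat_lit 264) (.e (nat_lit 1200) (nat_lit 88) (.e (nat_lit 65604) (nat_lit 9) (.e (nat_lit 335997) (nat_lit 1) (.e (nat_lit 57870) (nat_lit 264) (.e (nat_lit 1190) (nat_lit 88) .nil)))))))) (.g (nat_lit 410) .nil .nil))) 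
(.lf (nat_lit 413) (.g (nat_lit 3960) (.e (nat_lit 65617) (nat_lit 10) (.e (nat_lit 344096) (nat_lit 18) (.e (nat_lit 7261) (nat_lit 384) (.e (nat_lit 57412) (nat_lit 12) (.e (nat_lit 336176) (nat_lit 10) (.e (nat_lit 344096) (nat_lit 18) (.e (nat_lit 7124) (nat_lit 382) (.e (nat_lit 1201) (nat_lit 88) .nil)))))))) (.g (nat_lit 414) .nil .nil)))) (.nd (nat_lit 2) 
(.lf (nat_lit 411) (.g (nat_lit 3954) (.e (nat_lit 65617) (nat_lit 10) (.e (nat_lit 344096) (nat_lit 18) (.e (nat_lit 7261) (nat_lit 384) (.e (nat_lit 57412) (nat_lit 12) (.e (nat_lit 336176) (nat_lit 10) (.e (nat_lit 344091) (nat_lit 18) (.e (nat_lit 7124) (nat_lit 382) (.e (nat_lit 1201) (nat_lit 88) .nil)))))))) (.g (nat_lit 412) .nil .nil))) 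
(.lf (nat_lit 415) (.g (nat_lit 4408) (.e (nat_lit 65617) (nat_lit 10) (.e (nat_lit 344096) (nat_lit 18) (.e (nat_lit 7261) (nat_lit 384) (.e (nat_lit 57412) (nat_lit 12) (.e (nat_lit 336176) (nat_lit 10) (.e (nat_lit 344096) (nat_lit 18) (.e (nat_lit 7125) (nat_lit 382) (.e (nat_lit 1201) (nat_lit 88) .nil)))))))) (.g (nat_lit 416) .nil .nil))))))

noncomputable def tu052 : DT := (.nd (nat_lit 0) (.nd (nat_lit 1) (.nd (nat_lit 2) 
(.lf (nat_lit 416) (.g (nat_lit 4408) (.e (nat_lit 172113) (nat_lit 10) (.e (nat_lit 434208) (nat_lit 18) (.e (nat_lit 6416) (nat_lit 341) (.e (nat_lit 163908) (nat_lit 12) (.e (nat_lit 426286) (nat_lit 10) (.e (nat_lit 434208) (nat_lit 18) (.e (nat_lit 6255) (nat_lit 337) (.e (nat_lit 2630) (nat_lit 164) .nil)))))))) (.g (nat_lit 415) .nil .nil))) 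
(.lf (nat_lit 420) (.g (nat_lit 3765) (.e (nat_lit 172115) (nat_lit 10) (.e (nat_lit 434271) (nat_lit 38) (.e (nat_lit 655378) (nat_lit 4) (.e (nat_lit 172097) (nat_lit 9) (.e (nat_lit 426109) (nat_lit 1) (.e (nat_lit 164345) (nat_lit 240) (.e (nat_lit 2619) (nat_lit 164) .nil))))))) (.g (nat_lit 419) .nil .nil)))) (.nd (nat_lit 2) 
(.lf (nat_lit 418) (.g (nat_lit 3953) (.e (nat_lit 172115) (nat_lit 10) (.e (nat_lit 434209) (nat_lit 18) (.e (nat_lit 6425) (nat_lit 342) (.e (nat_lit 229415) (nat_lit 15) (.e (nat_lit 450563) (nat_lit 0) (.e (nat_lit 6254) (nat_lit 337) (.e (nat_lit 2630) (nat_lit 164) .nil))))))) (.g (nat_lit 417) .nil .nil))) 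
(.lf (nat_lit 422) (.g (nat_lit 3869) (.e (nat_lit 172115) (nat_lit 10) (.e (nat_lit 434272) (nat_lit 38) (.e (nat_lit 655378) (nat_lit 4) (.e (nat_lit 172097) (nat_lit 9) (.e (nat_lit 426109) (nat_lit 1) (.e (nat_lit 164345) (nat_lit 240) (.e (nat_lit 2619) (nat_lit 164) .nil))))))) (.g (nat_lit 421) .nil .nil))))) (.nd (nat_lit 1) (.nd (nat_lit 2) 
(.lf (nat_lit 417) (.g (nat_lit 3953) (.e (nat_lit 65619) (nat_lit 10) (.e (nat_lit 344097) (nat_lit 18) (.e (nat_lit 7270) (nat_lit 385) (.e (nat_lit 122919) (nat_lit 15) (.e (nat_lit 360451) (nat_lit 0) (.e (nat_lit 7124) (nat_lit 382) (.e (nat_lit 1201) (nat_lit 88) .nil))))))) (.g (nat_lit 418) .nil .nil))) 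
(.lf (nat_lit 421) (.g (nat_lit 3869) (.e (nat_lit 65619) (nat_lit 10) (.e (nat_lit 344169) (nat_lit 40) (.e (nat_lit 671762) (nat_lit 4) (.e (nat_lit 65604) (nat_lit 9) (.e (nat_lit 335997) (nat_lit 1) (.e (nat_lit 57870) (nat_lit 264) (.e (nat_lit 1190) (nat_lit 88) .nil))))))) (.g (nat_lit 422) .nil .nil)))) (.nd (nat_lit 2) 
(.lf (nat_lit 419) (.g (nat_lit 3765) (.e (nat_lit 65619) (nat_lit 10) (.e (nat_lit 344168) (nat_lit 40) (.e (nat_lit 671762) (nat_lit 4) (.e (nat_lit 65604) (nat_lit 9) (.e (nat_lit 335997) (nat_lit 1) (.e (nat_lit 57870) (nat_lit 264) (.e (nat_lit 1190) (nat_lit 88) .nil))))))) (.g (nat_lit 420) .nil .nil))) 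
(.lf (nat_lit 423) (.g (nat_lit 3929) (.e (nat_lit 65627) (nat_lit 13) (.e (nat_lit 393301) (nat_lit 27) (.e (nat_lit 491560) (nat_lit 10) (.e (nat_lit 344177) (nat_lit 43) (.e (nat_lit 770071) (nat_lit 8) .nil))))) (.g (nat_lit 424) .nil .nil))))))

noncomputable def tu053 : DT := (.nd (nat_lit 0) (.nd (nat_lit 1) 
(.lf (nat_lit 424) (.g (nat_lit 3929) (.e (nat_lit 172123) (nat_lit 13) (.e (nat_lit 483413) (nat_lit 27) (.e (nat_lit 401448) (nat_lit 10) (.e (nat_lit 434289) (nat_lit 43) (.e (nat_lit 696343) (nat_lit 8) .nil))))) (.g (nat_lit 423) .nil .nil))) 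
(.lf (nat_lit 426) (.g (nat_lit 2786) (.e (nat_lit 172124) (nat_lit 14) (.e (nat_lit 491570) (nat_lit 13) (.e (nat_lit 393266) (nat_lit 23) (.e (nat_lit 426109) (nat_lit 1) (.e (nat_lit 164345) (nat_lit 240) (.e (nat_lit 2619) (nat_lit 164) .nil)))))) (.g (nat_lit 425) .nil .nil)))) (.nd (nat_lit 1) 
(.lf (nat_lit 425) (.g (nat_lit 2786) (.e (nat_lit 65628) (nat_lit 14) (.e (nat_lit 401458) (nat_lit 13) (.e (nat_lit 483378) (nat_lit 23) (.e (nat_lit 335997) (nat_lit 1) (.e (nat_lit 57870) (nat_lit 264) (.e (nat_lit 1190) (nat_lit 88) .nil)))))) (.g (nat_lit 426) .nil .nil))) 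
(.lf (nat_lit 427) (.g (nat_lit 3330) (.e (nat_lit 65628) (nat_lit 14) (.e (nat_lit 401459) (nat_lit 13) (.e (nat_lit 483378) (nat_lit 23) (.e (nat_lit 335997) (nat_lit 1) (.e (nat_lit 57870) (nat_lit 264) (.e (nat_lit 1190) (nat_lit 88) .nil)))))) (.g (nat_lit 428) .nil .nil)))))

noncomputable def tu054 : DT := (.nd (nat_lit 0) 
(.lf (nat_lit 428) (.g (nat_lit 3330) (.e (nat_lit 172124) (nat_lit 14) (.e (nat_lit 491571) (nat_lit 13) (.e (nat_lit 393266) (nat_lit 23) (.e (nat_lit 426109) (nat_lit 1) (.e (nat_lit 164345) (nat_lit 240) (.e (nat_lit 2619) (nat_lit 164) .nil)))))) (.g (nat_lit 427) .nil .nil))) 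
(.lf (nat_lit 429) (.g (nat_lit 3492) (.e (nat_lit 65628) (nat_lit 14) (.e (nat_lit 401459) (nat_lit 13) (.e (nat_lit 483395) (nat_lit 24) (.e (nat_lit 344168) (nat_lit 40) (.e (nat_lit 671762) (nat_lit 4) .nil))))) (.g (nat_lit 430) .nil .nil))))

noncomputable def tu055 : DT := (.nd (nat_lit 0) 
(.lf (nat_lit 430) (.g (nat_lit 3492) (.e (nat_lit 172124) (nat_lit 14) (.e (nat_lit 491571) (nat_lit 13) (.e (nat_lit 393283) (nat_lit 24) (.e (nat_lit 434271) (nat_lit 38) (.e (nat_lit 655378) (nat_lit 4) .nil))))) (.g (nat_lit 429) .nil .nil))) 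
(.lf (nat_lit 431) (.g (nat_lit 3929) (.e (nat_lit 65630) (nat_lit 14) (.e (nat_lit 401459) (nat_lit 13) (.e (nat_lit 483395) (nat_lit 24) (.e (nat_lit 344168) (nat_lit 40) (.e (nat_lit 671762) (nat_lit 4) .nil))))) (.g (nat_lit 432) .nil .nil))))

noncomputable def tu056 : DT := (.nd (nat_lit 0) (.nd (nat_lit 1) 
(.lf (nat_lit 432) (.g (nat_lit 3929) (.e (nat_lit 172126) (nat_lit 14) (.e (nat_lit 491571) (nat_lit 13) (.e (nat_lit 393283) (nat_lit 24) (.e (nat_lit 434271) (nat_lit 38) (.e (nat_lit 655378) (nat_lit 4) .nil))))) (.g (nat_lit 431) .nil .nil))) 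
(.lf (nat_lit 434) (.g (nat_lit 2691) (.e (nat_lit 172126) (nat_lit 14) (.e (nat_lit 491571) (nat_lit 13) (.e (nat_lit 393299) (nat_lit 27) (.e (nat_lit 499456) (nat_lit 23) (.e (nat_lit 261888) (nat_lit 4) .nil))))) (.g (nat_lit 433) .nil .nil)))) (.nd (nat_lit 1) 
(.lf (nat_lit 433) (.g (nat_lit 2691) (.e (nat_lit 65630) (nat_lit 14) (.e (nat_lit 401459) (nat_lit 13) (.e (nat_lit 483411) (nat_lit 27) (.e (nat_lit 409344) (nat_lit 23) (.e (nat_lit 155392) (nat_lit 4) .nil))))) (.g (nat_lit 434) .nil .nil))) 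
(.lf (nat_lit 435) (.g (nat_lit 2523) (.e (nat_lit 73472) (nat_lit 18) (.e (nat_lit 204854) (nat_lit 26) (.e (nat_lit 336324) (nat_lit 18) (.e (nat_lit 204854) (nat_lit 26) (.e (nat_lit 336316) (nat_lit 17) (.e (nat_lit 196665) (nat_lit 13) .nil)))))) (.g (nat_lit 436) .nil .nil)))))

noncomputable def tu057 : DT := (.nd (nat_lit 0) (.nd (nat_lit 1) 
(.lf (nat_lit 436) (.g (nat_lit 2523) (.e (nat_lit 179968) (nat_lit 18) (.e (nat_lit 98358) (nat_lit 26) (.e (nat_lit 426436) (nat_lit 18) (.e (nat_lit 98358) (nat_lit 26) (.e (nat_lit 426428) (nat_lit 17) (.e (nat_lit 90169) (nat_lit 13) .nil)))))) (.g (nat_lit 435) .nil .nil))) 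
(.lf (nat_lit 438) (.g (nat_lit 2577) (.e (nat_lit 179968) (nat_lit 18) (.e (nat_lit 98358) (nat_lit 26) (.e (nat_lit 426436) (nat_lit 18) (.e (nat_lit 98358) (nat_lit 26) (.e (nat_lit 426428) (nat_lit 17) (.e (nat_lit 90170) (nat_lit 13) .nil)))))) (.g (nat_lit 437) .nil .nil)))) (.nd (nat_lit 1) 
(.lf (nat_lit 437) (.g (nat_lit 2577) (.e (nat_lit 73472) (nat_lit 18) (.e (nat_lit 204854) (nat_lit 26) (.e (nat_lit 336324) (nat_lit 18) (.e (nat_lit 204854) (nat_lit 26) (.e (nat_lit 336316) (nat_lit 17) (.e (nat_lit 196666) (nat_lit 13) .nil)))))) (.g (nat_lit 438) .nil .nil))) 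
(.lf (nat_lit 439) (.g (nat_lit 3799) (.e (nat_lit 65647) (nat_lit 25) (.e (nat_lit 409602) (nat_lit 0) (.e (nat_lit 5293) (nat_lit 298) (.e (nat_lit 1656) (nat_lit 115) (.e (nat_lit 393234) (nat_lit 17) (.e (nat_lit 7589) (nat_lit 406) .nil)))))) (.g (nat_lit 440) .nil .nil)))))

noncomputable def tu058 : DT := (.nd (nat_lit 0) (.nd (nat_lit 1) (.nd (nat_lit 2) 
(.lf (nat_lit 440) (.g (nat_lit 3799) (.e (nat_lit 172143) (nat_lit 25) (.e (nat_lit 319490) (nat_lit 0) (.e (nat_lit 5664) (nat_lit 312) (.e (nat_lit 3085) (nat_lit 191) (.e (nat_lit 483346) (nat_lit 17) (.e (nat_lit 6720) (nat_lit 361) .nil)))))) (.g (nat_lit 439) .nil .nil))) 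
(.lf (nat_lit 444) (.g (nat_lit 2687) (.e (nat_lit 179968) (nat_lit 34) (.e (nat_lit 393271) (nat_lit 23) (.e (nat_lit 426436) (nat_lit 18) (.e (nat_lit 98335) (nat_lit 18) (.e (nat_lit 164305) (nat_lit 226) (.e (nat_lit 2630) (nat_lit 164) .nil)))))) (.g (nat_lit 443) .nil .nil)))) (.nd (nat_lit 2) 
(.lf (nat_lit 442) (.g (nat_lit 2263) (.e (nat_lit 179968) (nat_lit 34) (.e (nat_lit 393271) (nat_lit 23) (.e (nat_lit 426436) (nat_lit 18) (.e (nat_lit 98335) (nat_lit 18) (.e (nat_lit 164305) (nat_lit 226) (.e (nat_lit 2622) (nat_lit 164) .nil)))))) (.g (nat_lit 441) .nil .nil))) 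
(.lf (nat_lit 446) (.g (nat_lit 2728) (.e (nat_lit 180278) (nat_lit 32) (.e (nat_lit 1660) (nat_lit 115) (.e (nat_lit 393279) (nat_lit 23) (.e (nat_lit 426110) (nat_lit 1) (.e (nat_lit 164348) (nat_lit 240) (.e (nat_lit 2640) (nat_lit 165) .nil)))))) (.g (nat_lit 445) .nil .nil))))) (.nd (nat_lit 1) (.nd (nat_lit 2) 
(.lf (nat_lit 441) (.g (nat_lit 2263) (.e (nat_lit 73472) (nat_lit 34) (.e (nat_lit 483383) (nat_lit 23) (.e (nat_lit 336324) (nat_lit 18) (.e (nat_lit 204831) (nat_lit 18) (.e (nat_lit 57830) (nat_lit 250) (.e (nat_lit 1193) (nat_lit 88) .nil)))))) (.g (nat_lit 442) .nil .nil))) 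
(.lf (nat_lit 445) (.g (nat_lit 2728) (.e (nat_lit 73782) (nat_lit 32) (.e (nat_lit 3089) (nat_lit 191) (.e (nat_lit 483391) (nat_lit 23) (.e (nat_lit 335998) (nat_lit 1) (.e (nat_lit 57873) (nat_lit 264) (.e (nat_lit 1211) (nat_lit 89) .nil)))))) (.g (nat_lit 446) .nil .nil)))) (.nd (nat_lit 2) 
(.lf (nat_lit 443) (.g (nat_lit 2687) (.e (nat_lit 73472) (nat_lit 34) (.e (nat_lit 483383) (nat_lit 23) (.e (nat_lit 336324) (nat_lit 18) (.e (nat_lit 204831) (nat_lit 18) (.e (nat_lit 57830) (nat_lit 250) (.e (nat_lit 1201) (nat_lit 88) .nil)))))) (.g (nat_lit 444) .nil .nil))) 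
(.lf (nat_lit 447) (.g (nat_lit 3281) (.e (nat_lit 81924) (nat_lit 0) (.e (nat_lit 3631) (nat_lit 227) (.e (nat_lit 778326) (nat_lit 6) (.e (nat_lit 81957) (nat_lit 24) (.e (nat_lit 123184) (nat_lit 264) (.e (nat_lit 1222) (nat_lit 90) .nil)))))) (.g (nat_lit 448) .nil .nil))))))

noncomputable def tu059 : DT := (.nd (nat_lit 0) (.nd (nat_lit 1) 
(.lf (nat_lit 448) (.g (nat_lit 3281) (.e (nat_lit 188420) (nat_lit 0) (.e (nat_lit 2058) (nat_lit 142) (.e (nat_lit 704598) (nat_lit 6) (.e (nat_lit 188453) (nat_lit 24) (.e (nat_lit 229665) (nat_lit 240) (.e (nat_lit 2651) (nat_lit 166) .nil)))))) (.g (nat_lit 447) .nil .nil))) 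
(.lf (nat_lit 450) (.g (nat_lit 2168) (.e (nat_lit 188444) (nat_lit 21) (.e (nat_lit 164151) (nat_lit 152) (.e (nat_lit 2645) (nat_lit 166) (.e (nat_lit 188444) (nat_lit 21) (.e (nat_lit 164151) (nat_lit 152) (.e (nat_lit 2645) (nat_lit 166) .nil)))))) (.g (nat_lit 449) .nil .nil)))) (.nd (nat_lit 1) 
(.lf (nat_lit 449) (.g (nat_lit 2168) (.e (nat_lit 81948) (nat_lit 21) (.e (nat_lit 57655) (nat_lit 152) (.e (nat_lit 1216) (nat_lit 90) (.e (nat_lit 81948) (nat_lit 21) (.e (nat_lit 57655) (nat_lit 152) (.e (nat_lit 1216) (nat_lit 90) .nil)))))) (.g (nat_lit 450) .nil .nil))) 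
(.lf (nat_lit 451) (.g (nat_lit 3470) (.e (nat_lit 81948) (nat_lit 21) (.e (nat_lit 57872) (nat_lit 264) (.e (nat_lit 1219) (nat_lit 90) (.e (nat_lit 81948) (nat_lit 21) (.e (nat_lit 57872) (nat_lit 264) (.e (nat_lit 1219) (nat_lit 90) .nil)))))) (.g (nat_lit 452) .nil .nil)))))

noncomputable def tu060 : DT := (.nd (nat_lit 0) (.nd (nat_lit 1) 
(.lf (nat_lit 452) (.g (nat_lit 3470) (.e (nat_lit 188444) (nat_lit 21) (.e (nat_lit 164347) (nat_lit 240) (.e (nat_lit 2648) (nat_lit 166) (.e (nat_lit 188444) (nat_lit 21) (.e (nat_lit 164347) (nat_lit 240) (.e (nat_lit 2648) (nat_lit 166) .nil)))))) (.g (nat_lit 451) .nil .nil))) 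
(.lf (nat_lit 454) (.g (nat_lit 3737) (.e (nat_lit 188444) (nat_lit 21) (.e (nat_lit 164347) (nat_lit 240) (.e (nat_lit 2650) (nat_lit 166) (.e (nat_lit 188446) (nat_lit 21) (.e (nat_lit 164347) (nat_lit 240) (.e (nat_lit 2648) (nat_lit 166) .nil)))))) (.g (nat_lit 453) .nil .nil)))) (.nd (nat_lit 1) 
(.lf (nat_lit 453) (.g (nat_lit 3737) (.e (nat_lit 81948) (nat_lit 21) (.e (nat_lit 57872) (nat_lit 264) (.e (nat_lit 1221) (nat_lit 90) (.e (nat_lit 81950) (nat_lit 21) (.e (nat_lit 57872) (nat_lit 264) (.e (nat_lit 1219) (nat_lit 90) .nil)))))) (.g (nat_lit 454) .nil .nil))) 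
(.lf (nat_lit 455) (.g (nat_lit 5024) (.e (nat_lit 81948) (nat_lit 21) (.e (nat_lit 57872) (nat_lit 264) (.e (nat_lit 1221) (nat_lit 90) (.e (nat_lit 81959) (nat_lit 24) (.e (nat_lit 123182) (nat_lit 264) (.e (nat_lit 1222) (nat_lit 90) .nil)))))) (.g (nat_lit 456) .nil .nil)))))

noncomputable def tu061 : DT := (.nd (nat_lit 0) 
(.lf (nat_lit 456) (.g (nat_lit 5024) (.e (nat_lit 188444) (nat_lit 21) (.e (nat_lit 164347) (nat_lit 240) (.e (nat_lit 2650) (nat_lit 166) (.e (nat_lit 188455) (nat_lit 24) (.e (nat_lit 229663) (nat_lit 240) (.e (nat_lit 2651) (nat_lit 166) .nil)))))) (.g (nat_lit 455) .nil .nil))) 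
(.lf (nat_lit 457) (.g (nat_lit 4044) (.e (nat_lit 81950) (nat_lit 21) (.e (nat_lit 57872) (nat_lit 264) (.e (nat_lit 1221) (nat_lit 90) (.e (nat_lit 81950) (nat_lit 21) (.e (nat_lit 57872) (nat_lit 264) (.e (nat_lit 1221) (nat_lit 90) .nil)))))) (.g (nat_lit 458) .nil .nil))))

noncomputable def tu062 : DT := (.nd (nat_lit 0) 
(.lf (nat_lit 458) (.g (nat_lit 4044) (.e (nat_lit 188446) (nat_lit 21) (.e (nat_lit 164347) (nat_lit 240) (.e (nat_lit 2650) (nat_lit 166) (.e (nat_lit 188446) (nat_lit 21) (.e (nat_lit 164347) (nat_lit 240) (.e (nat_lit 2650) (nat_lit 166) .nil)))))) (.g (nat_lit 457) .nil .nil))) 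
(.lf (nat_lit 459) (.g (nat_lit 4265) (.e (nat_lit 81956) (nat_lit 23) (.e (nat_lit 98389) (nat_lit 33) (.e (nat_lit 491558) (nat_lit 10) (.e (nat_lit 344126) (nat_lit 25) (.e (nat_lit 548891) (nat_lit 11) .nil))))) (.g (nat_lit 460) .nil .nil))))

noncomputable def tu063 : DT := (.nd (nat_lit 0) (.nd (nat_lit 1) 
(.lf (nat_lit 460) (.g (nat_lit 4265) (.e (nat_lit 188452) (nat_lit 23) (.e (nat_lit 204885) (nat_lit 33) (.e (nat_lit 401446) (nat_lit 10) (.e (nat_lit 434238) (nat_lit 25) (.e (nat_lit 548915) (nat_lit 20) .nil))))) (.g (nat_lit 459) .nil .nil))) 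
(.lf (nat_lit 462) (.g (nat_lit 5284) (.e (nat_lit 196666) (nat_lit 13) (.e (nat_lit 65610) (nat_lit 10) (.e (nat_lit 344129) (nat_lit 26) (.e (nat_lit 557087) (nat_lit 11) (.e (nat_lit 24662) (nat_lit 14) (.e (nat_lit 401425) (nat_lit 2) .nil)))))) (.g (nat_lit 461) .nil .nil)))) (.nd (nat_lit 1) 
(.lf (nat_lit 461) (.g (nat_lit 5284) (.e (nat_lit 90170) (nat_lit 13) (.e (nat_lit 172106) (nat_lit 10) (.e (nat_lit 434244) (nat_lit 28) (.e (nat_lit 573471) (nat_lit 11) (.e (nat_lit 16470) (nat_lit 14) (.e (nat_lit 491537) (nat_lit 2) .nil)))))) (.g (nat_lit 462) .nil .nil))) 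
(.lf (nat_lit 463) (.g (nat_lit 2577) (.e (nat_lit 106240) (nat_lit 10) (.e (nat_lit 344117) (nat_lit 21) (.e (nat_lit 516195) (nat_lit 26) (.e (nat_lit 336021) (nat_lit 3) (.e (nat_lit 98317) (nat_lit 9) (.e (nat_lit 336021) (nat_lit 3) .nil)))))) (.g (nat_lit 464) .nil .nil)))))

noncomputable def tu064 : DT := (.nd (nat_lit 0) (.nd (nat_lit 1) (.nd (nat_lit 2) (.nd (nat_lit 3) 
(.lf (nat_lit 464) (.g (nat_lit 2577) (.e (nat_lit 212736) (nat_lit 10) (.e (nat_lit 434231) (nat_lit 23) (.e (nat_lit 532579) (nat_lit 26) (.e (nat_lit 426133) (nat_lit 3) (.e (nat_lit 204813) (nat_lit 9) (.e (nat_lit 426133) (nat_lit 3) .nil)))))) (.g (nat_lit 463) .nil .nil))) 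
(.lf (nat_lit 472) (.g (nat_lit 1862) (.e (nat_lit 212736) (nat_lit 11) (.e (nat_lit 442390) (nat_lit 11) (.e (nat_lit 336387) (nat_lit 27) (.e (nat_lit 426100) (nat_lit 1) (.e (nat_lit 164332) (nat_lit 230) (.e (nat_lit 163873) (nat_lit 3) .nil)))))) (.g (nat_lit 471) .nil .nil)))) (.nd (nat_lit 3) 
(.lf (nat_lit 468) (.g (nat_lit 1704) (.e (nat_lit 212736) (nat_lit 11) (.e (nat_lit 442387) (nat_lit 11) (.e (nat_lit 336387) (nat_lit 27) (.e (nat_lit 426100) (nat_lit 1) (.e (nat_lit 164332) (nat_lit 230) (.e (nat_lit 163873) (nat_lit 3) .nil)))))) (.g (nat_lit 467) .nil .nil))) 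
(.lf (nat_lit 476) (.g (nat_lit 2676) (.e (nat_lit 212736) (nat_lit 13) (.e (nat_lit 458789) (nat_lit 23) (.e (nat_lit 532579) (nat_lit 26) (.e (nat_lit 426133) (nat_lit 3) (.e (nat_lit 204813) (nat_lit 9) (.e (nat_lit 426133) (nat_lit 3) .nil)))))) (.g (nat_lit 475) .nil .nil))))) (.nd (nat_lit 2) (.nd (nat_lit 3) 
(.lf (nat_lit 466) (.g (nat_lit 2523) (.e (nat_lit 212736) (nat_lit 10) (.e (nat_lit 434233) (nat_lit 23) (.e (nat_lit 532579) (nat_lit 26) (.e (nat_lit 426133) (nat_lit 3) (.e (nat_lit 204813) (nat_lit 9) (.e (nat_lit 426133) (nat_lit 3) .nil)))))) (.g (nat_lit 465) .nil .nil))) 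
(.lf (nat_lit 474) (.g (nat_lit 2347) (.e (nat_lit 212736) (nat_lit 11) (.e (nat_lit 442390) (nat_lit 11) (.e (nat_lit 336387) (nat_lit 27) (.e (nat_lit 426108) (nat_lit 1) (.e (nat_lit 164332) (nat_lit 230) (.e (nat_lit 163873) (nat_lit 3) .nil)))))) (.g (nat_lit 473) .nil .nil)))) (.nd (nat_lit 3) 
(.lf (nat_lit 470) (.g (nat_lit 2159) (.e (nat_lit 212736) (nat_lit 11) (.e (nat_lit 442387) (nat_lit 11) (.e (nat_lit 336387) (nat_lit 27) (.e (nat_lit 426108) (nat_lit 1) (.e (nat_lit 164332) (nat_lit 230) (.e (nat_lit 163873) (nat_lit 3) .nil)))))) (.g (nat_lit 469) .nil .nil))) 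
(.lf (nat_lit 478) (.g (nat_lit 1830) (.e (nat_lit 212736) (nat_lit 14) (.e (nat_lit 466954) (nat_lit 11) (.e (nat_lit 336387) (nat_lit 27) (.e (nat_lit 426100) (nat_lit 1) (.e (nat_lit 164332) (nat_lit 230) (.e (nat_lit 163873) (nat_lit 3) .nil)))))) (.g (nat_lit 477) .nil .nil)))))) (.nd (nat_lit 1) (.nd (nat_lit 2) (.nd (nat_lit 3) 
(.lf (nat_lit 465) (.g (nat_lit 2523) (.e (nat_lit 106240) (nat_lit 10) (.e (nat_lit 344119) (nat_lit 21) (.e (nat_lit 516195) (nat_lit 26) (.e (nat_lit 336021) (nat_lit 3) (.e (nat_lit 98317) (nat_lit 9) (.e (nat_lit 336021) (nat_lit 3) .nil)))))) (.g (nat_lit 466) .nil .nil))) 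
(.lf (nat_lit 473) (.g (nat_lit 2347) (.e (nat_lit 106240) (nat_lit 11) (.e (nat_lit 352277) (nat_lit 11) (.e (nat_lit 426500) (nat_lit 27) (.e (nat_lit 335996) (nat_lit 1) (.e (nat_lit 57854) (nat_lit 252) (.e (nat_lit 57377) (nat_lit 3) .nil)))))) (.g (nat_lit 474) .nil .nil)))) (.nd (nat_lit 3) 
(.lf (nat_lit 469) (.g (nat_lit 2159) (.e (nat_lit 106240) (nat_lit 11) (.e (nat_lit 352275) (nat_lit 11) (.e (nat_lit 426500) (nat_lit 27) (.e (nat_lit 335996) (nat_lit 1) (.e (nat_lit 57854) (nat_lit 252) (.e (nat_lit 57377) (nat_lit 3) .nil)))))) (.g (nat_lit 470) .nil .nil))) 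
(.lf (nat_lit 477) (.g (nat_lit 1830) (.e (nat_lit 106240) (nat_lit 14) (.e (nat_lit 376842) (nat_lit 11) (.e (nat_lit 426500) (nat_lit 27) (.e (nat_lit 335988) (nat_lit 1) (.e (nat_lit 57854) (nat_lit 252) (.e (nat_lit 57377) (nat_lit 3) .nil)))))) (.g (nat_lit 478) .nil .nil))))) (.nd (nat_lit 2) (.nd (nat_lit 3) 
(.lf (nat_lit 467) (.g (nat_lit 1704) (.e (nat_lit 106240) (nat_lit 11) (.e (nat_lit 352275) (nat_lit 11) (.e (nat_lit 426500) (nat_lit 27) (.e (nat_lit 335988) (nat_lit 1) (.e (nat_lit 57854) (nat_lit 252) (.e (nat_lit 57377) (nat_lit 3) .nil)))))) (.g (nat_lit 468) .nil .nil))) 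
(.lf (nat_lit 475) (.g (nat_lit 2676) (.e (nat_lit 106240) (nat_lit 13) (.e (nat_lit 368676) (nat_lit 21) (.e (nat_lit 516195) (nat_lit 26) (.e (nat_lit 336021) (nat_lit 3) (.e (nat_lit 98317) (nat_lit 9) (.e (nat_lit 336021) (nat_lit 3) .nil)))))) (.g (nat_lit 476) .nil .nil)))) (.nd (nat_lit 3) 
(.lf (nat_lit 471) (.g (nat_lit 1862) (.e (nat_lit 106240) (nat_lit 11) (.e (nat_lit 352277) (nat_lit 11) (.e (nat_lit 426500) (nat_lit 27) (.e (nat_lit 335988) (nat_lit 1) (.e (nat_lit 57854) (nat_lit 252) (.e (nat_lit 57377) (nat_lit 3) .nil)))))) (.g (nat_lit 472) .nil .nil))) 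
(.lf (nat_lit 479) (.g (nat_lit 2314) (.e (nat_lit 106240) (nat_lit 14) (.e (nat_lit 376842) (nat_lit 11) (.e (nat_lit 426500) (nat_lit 27) (.e (nat_lit 335996) (nat_lit 1) (.e (nat_lit 57854) (nat_lit 252) (.e (nat_lit 57377) (nat_lit 3) .nil)))))) (.g (nat_lit 480) .nil .nil)))))))

noncomputable def tu065 : DT := (.nd (nat_lit 0) (.nd (nat_lit 1) 
(.lf (nat_lit 480) (.g (nat_lit 2314) (.e (nat_lit 212736) (nat_lit 14) (.e (nat_lit 466954) (nat_lit 11) (.e (nat_lit 336387) (nat_lit 27) (.e (nat_lit 426108) (nat_lit 1) (.e (nat_lit 164332) (nat_lit 230) (.e (nat_lit 163873) (nat_lit 3) .nil)))))) (.g (nat_lit 479) .nil .nil))) 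
(.lf (nat_lit 482) (.g (nat_lit 4530) (.e (nat_lit 204845) (nat_lit 24) (.e (nat_lit 319530) (nat_lit 16) (.e (nat_lit 286733) (nat_lit 2) (.e (nat_lit 90176) (nat_lit 15) (.e (nat_lit 188450) (nat_lit 23) .nil))))) (.g (nat_lit 481) .nil .nil)))) (.nd (nat_lit 1) 
(.lf (nat_lit 481) (.g (nat_lit 4530) (.e (nat_lit 98349) (nat_lit 24) (.e (nat_lit 409645) (nat_lit 18) (.e (nat_lit 303117) (nat_lit 2) (.e (nat_lit 196672) (nat_lit 15) (.e (nat_lit 81954) (nat_lit 23) .nil))))) (.g (nat_lit 482) .nil .nil))) 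
(.lf (nat_lit 483) (.g (nat_lit 3695) (.e (nat_lit 98358) (nat_lit 26) (.e (nat_lit 426436) (nat_lit 18) (.e (nat_lit 98358) (nat_lit 26) (.e (nat_lit 426436) (nat_lit 18) (.e (nat_lit 98356) (nat_lit 26) (.e (nat_lit 426436) (nat_lit 18) .nil)))))) (.g (nat_lit 484) .nil .nil)))))

noncomputable def tu066 : DT := (.nd (nat_lit 0) (.nd (nat_lit 1) 
(.lf (nat_lit 484) (.g (nat_lit 3695) (.e (nat_lit 204854) (nat_lit 26) (.e (nat_lit 336324) (nat_lit 18) (.e (nat_lit 204854) (nat_lit 26) (.e (nat_lit 336324) (nat_lit 18) (.e (nat_lit 204852) (nat_lit 26) (.e (nat_lit 336324) (nat_lit 18) .nil)))))) (.g (nat_lit 483) .nil .nil))) 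
(.lf (nat_lit 486) (.g (nat_lit 3587) (.e (nat_lit 204854) (nat_lit 26) (.e (nat_lit 336324) (nat_lit 18) (.e (nat_lit 204854) (nat_lit 26) (.e (nat_lit 336326) (nat_lit 18) (.e (nat_lit 204852) (nat_lit 26) (.e (nat_lit 336324) (nat_lit 18) .nil)))))) (.g (nat_lit 485) .nil .nil)))) (.nd (nat_lit 1) 
(.lf (nat_lit 485) (.g (nat_lit 3587) (.e (nat_lit 98358) (nat_lit 26) (.e (nat_lit 426436) (nat_lit 18) (.e (nat_lit 98358) (nat_lit 26) (.e (nat_lit 426438) (nat_lit 18) (.e (nat_lit 98356) (nat_lit 26) (.e (nat_lit 426436) (nat_lit 18) .nil)))))) (.g (nat_lit 486) .nil .nil))) 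
(.lf (nat_lit 487) (.g (nat_lit 4135) (.e (nat_lit 98358) (nat_lit 26) (.e (nat_lit 426436) (nat_lit 18) (.e (nat_lit 98386) (nat_lit 32) (.e (nat_lit 475177) (nat_lit 24) (.e (nat_lit 516146) (nat_lit 9) (.e (nat_lit 426436) (nat_lit 18) .nil)))))) (.g (nat_lit 488) .nil .nil)))))

noncomputable def tu067 : DT := (.nd (nat_lit 0) (.nd (nat_lit 1) (.nd (nat_lit 2) 
(.lf (nat_lit 488) (.g (nat_lit 4135) (.e (nat_lit 204854) (nat_lit 26) (.e (nat_lit 336324) (nat_lit 18) (.e (nat_lit 204882) (nat_lit 32) (.e (nat_lit 385066) (nat_lit 26) (.e (nat_lit 532530) (nat_lit 9) (.e (nat_lit 336324) (nat_lit 18) .nil)))))) (.g (nat_lit 487) .nil .nil))) 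
(.lf (nat_lit 492) (.g (nat_lit 3697) (.e (nat_lit 204854) (nat_lit 26) (.e (nat_lit 336324) (nat_lit 18) (.e (nat_lit 204882) (nat_lit 32) (.e (nat_lit 385068) (nat_lit 26) (.e (nat_lit 532530) (nat_lit 9) (.e (nat_lit 336324) (nat_lit 18) .nil)))))) (.g (nat_lit 491) .nil .nil)))) (.nd (nat_lit 2) 
(.lf (nat_lit 490) (.g (nat_lit 3761) (.e (nat_lit 204854) (nat_lit 26) (.e (nat_lit 336324) (nat_lit 18) (.e (nat_lit 204882) (nat_lit 32) (.e (nat_lit 385066) (nat_lit 26) (.e (nat_lit 532534) (nat_lit 9) (.e (nat_lit 336324) (nat_lit 18) .nil)))))) (.g (nat_lit 489) .nil .nil))) 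
(.lf (nat_lit 494) (.g (nat_lit 2456) (.e (nat_lit 245504) (nat_lit 34) (.e (nat_lit 393271) (nat_lit 23) (.e (nat_lit 426436) (nat_lit 18) (.e (nat_lit 98335) (nat_lit 18) (.e (nat_lit 164305) (nat_lit 226) (.e (nat_lit 2725) (nat_lit 172) .nil)))))) (.g (nat_lit 493) .nil .nil))))) (.nd (nat_lit 1) (.nd (nat_lit 2) 
(.lf (nat_lit 489) (.g (nat_lit 3761) (.e (nat_lit 98358) (nat_lit 26) (.e (nat_lit 426436) (nat_lit 18) (.e (nat_lit 98386) (nat_lit 32) (.e (nat_lit 475177) (nat_lit 24) (.e (nat_lit 516150) (nat_lit 9) (.e (nat_lit 426436) (nat_lit 18) .nil)))))) (.g (nat_lit 490) .nil .nil))) 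
(.lf (nat_lit 493) (.g (nat_lit 2456) (.e (nat_lit 139008) (nat_lit 34) (.e (nat_lit 483383) (nat_lit 23) (.e (nat_lit 336324) (nat_lit 18) (.e (nat_lit 204831) (nat_lit 18) (.e (nat_lit 57830) (nat_lit 250) (.e (nat_lit 1296) (nat_lit 96) .nil)))))) (.g (nat_lit 494) .nil .nil)))) (.nd (nat_lit 2) 
(.lf (nat_lit 491) (.g (nat_lit 3697) (.e (nat_lit 98358) (nat_lit 26) (.e (nat_lit 426436) (nat_lit 18) (.e (nat_lit 98386) (nat_lit 32) (.e (nat_lit 475179) (nat_lit 24) (.e (nat_lit 516146) (nat_lit 9) (.e (nat_lit 426436) (nat_lit 18) .nil)))))) (.g (nat_lit 492) .nil .nil))) 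
(.lf (nat_lit 495) (.g (nat_lit 5106) (.e (nat_lit 163843) (nat_lit 0) (.e (nat_lit 6420) (nat_lit 341) (.e (nat_lit 163908) (nat_lit 12) (.e (nat_lit 426113) (nat_lit 2) (.e (nat_lit 196666) (nat_lit 13) (.e (nat_lit 65610) (nat_lit 10) (.e (nat_lit 344129) (nat_lit 26) (.e (nat_lit 557090) (nat_lit 12) .nil)))))))) (.g (nat_lit 496) .nil .nil))))))

noncomputable def tu068 : DT := (.nd (nat_lit 0) (.nd (nat_lit 1) (.nd (nat_lit 2) 
(.lf (nat_lit 496) (.g (nat_lit 5106) (.e (nat_lit 57347) (nat_lit 0) (.e (nat_lit 7265) (nat_lit 384) (.e (nat_lit 57412) (nat_lit 12) (.e (nat_lit 336001) (nat_lit 2) (.e (nat_lit 90170) (nat_lit 13) (.e (nat_lit 172106) (nat_lit 10) (.e (nat_lit 434244) (nat_lit 28) (.e (nat_lit 573474) (nat_lit 12) .nil)))))))) (.g (nat_lit 495) .nil .nil))) 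
(.lf (nat_lit 500) (.g (nat_lit 4429) (.e (nat_lit 57412) (nat_lit 12) (.e (nat_lit 336001) (nat_lit 2) (.e (nat_lit 90170) (nat_lit 13) (.e (nat_lit 172106) (nat_lit 10) (.e (nat_lit 434244) (nat_lit 28) (.e (nat_lit 573474) (nat_lit 12) (.e (nat_lit 57351) (nat_lit 0) (.e (nat_lit 7265) (nat_lit 384) .nil)))))))) (.g (nat_lit 499) .nil .nil)))) (.nd (nat_lit 2) 
(.lf (nat_lit 498) (.g (nat_lit 4284) (.e (nat_lit 57412) (nat_lit 12) (.e (nat_lit 336001) (nat_lit 2) (.e (nat_lit 90170) (nat_lit 13) (.e (nat_lit 172106) (nat_lit 10) (.e (nat_lit 434244) (nat_lit 28) (.e (nat_lit 573474) (nat_lit 12) (.e (nat_lit 57351) (nat_lit 0) (.e (nat_lit 7261) (nat_lit 384) .nil)))))))) (.g (nat_lit 497) .nil .nil))) 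
(.lf (nat_lit 502) (.g (nat_lit 3560) (.e (nat_lit 57412) (nat_lit 12) (.e (nat_lit 336176) (nat_lit 10) (.e (nat_lit 344091) (nat_lit 18) (.e (nat_lit 7265) (nat_lit 384) (.e (nat_lit 57412) (nat_lit 12) (.e (nat_lit 336176) (nat_lit 10) (.e (nat_lit 344096) (nat_lit 18) (.e (nat_lit 7261) (nat_lit 384) .nil)))))))) (.g (nat_lit 501) .nil .nil))))) (.nd (nat_lit 1) (.nd (nat_lit 2) 
(.lf (nat_lit 497) (.g (nat_lit 4284) (.e (nat_lit 163908) (nat_lit 12) (.e (nat_lit 426113) (nat_lit 2) (.e (nat_lit 196666) (nat_lit 13) (.e (nat_lit 65610) (nat_lit 10) (.e (nat_lit 344129) (nat_lit 26) (.e (nat_lit 557090) (nat_lit 12) (.e (nat_lit 163847) (nat_lit 0) (.e (nat_lit 6416) (nat_lit 341) .nil)))))))) (.g (nat_lit 498) .nil .nil))) 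
(.lf (nat_lit 501) (.g (nat_lit 3560) (.e (nat_lit 163908) (nat_lit 12) (.e (nat_lit 426286) (nat_lit 10) (.e (nat_lit 434203) (nat_lit 18) (.e (nat_lit 6420) (nat_lit 341) (.e (nat_lit 163908) (nat_lit 12) (.e (nat_lit 426286) (nat_lit 10) (.e (nat_lit 434208) (nat_lit 18) (.e (nat_lit 6416) (nat_lit 341) .nil)))))))) (.g (nat_lit 502) .nil .nil)))) (.nd (nat_lit 2) 
(.lf (nat_lit 499) (.g (nat_lit 4429) (.e (nat_lit 163908) (nat_lit 12) (.e (nat_lit 426113) (nat_lit 2) (.e (nat_lit 196666) (nat_lit 13) (.e (nat_lit 65610) (nat_lit 10) (.e (nat_lit 344129) (nat_lit 26) (.e (nat_lit 557090) (nat_lit 12) (.e (nat_lit 163847) (nat_lit 0) (.e (nat_lit 6420) (nat_lit 341) .nil)))))))) (.g (nat_lit 500) .nil .nil))) 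
(.lf (nat_lit 503) (.g (nat_lit 3516) (.e (nat_lit 163908) (nat_lit 12) (.e (nat_lit 426286) (nat_lit 10) (.e (nat_lit 434208) (nat_lit 18) (.e (nat_lit 6416) (nat_lit 341) (.e (nat_lit 163908) (nat_lit 12) (.e (nat_lit 426286) (nat_lit 10) (.e (nat_lit 434208) (nat_lit 18) (.e (nat_lit 6416) (nat_lit 341) .nil)))))))) (.g (nat_lit 504) .nil .nil))))))

noncomputable def tu069 : DT := (.nd (nat_lit 0) (.nd (nat_lit 1) (.nd (nat_lit 2) 
(.lf (nat_lit 504) (.g (nat_lit 3516) (.e (nat_lit 57412) (nat_lit 12) (.e (nat_lit 336176) (nat_lit 10) (.e (nat_lit 344096) (nat_lit 18) (.e (nat_lit 7261) (nat_lit 384) (.e (nat_lit 57412) (nat_lit 12) (.e (nat_lit 336176) (nat_lit 10) (.e (nat_lit 344096) (nat_lit 18) (.e (nat_lit 7261) (nat_lit 384) .nil)))))))) (.g (nat_lit 503) .nil .nil))) 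
(.lf (nat_lit 508) (.g (nat_lit 3765) (.e (nat_lit 57412) (nat_lit 12) (.e (nat_lit 336176) (nat_lit 10) (.e (nat_lit 344177) (nat_lit 43) (.e (nat_lit 770071) (nat_lit 8) (.e (nat_lit 65617) (nat_lit 10) (.e (nat_lit 344096) (nat_lit 18) (.e (nat_lit 7261) (nat_lit 384) .nil))))))) (.g (nat_lit 507) .nil .nil)))) (.nd (nat_lit 2) 
(.lf (nat_lit 506) (.g (nat_lit 3616) (.e (nat_lit 57412) (nat_lit 12) (.e (nat_lit 336176) (nat_lit 10) (.e (nat_lit 344096) (nat_lit 18) (.e (nat_lit 7265) (nat_lit 384) (.e (nat_lit 57412) (nat_lit 12) (.e (nat_lit 336176) (nat_lit 10) (.e (nat_lit 344096) (nat_lit 18) (.e (nat_lit 7261) (nat_lit 384) .nil)))))))) (.g (nat_lit 505) .nil .nil))) 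
(.lf (nat_lit 510) (.g (nat_lit 3869) (.e (nat_lit 57412) (nat_lit 12) (.e (nat_lit 336176) (nat_lit 10) (.e (nat_lit 344177) (nat_lit 43) (.e (nat_lit 770072) (nat_lit 8) (.e (nat_lit 65617) (nat_lit 10) (.e (nat_lit 344096) (nat_lit 18) (.e (nat_lit 7261) (nat_lit 384) .nil))))))) (.g (nat_lit 509) .nil .nil))))) (.nd (nat_lit 1) (.nd (nat_lit 2) 
(.lf (nat_lit 505) (.g (nat_lit 3616) (.e (nat_lit 163908) (nat_lit 12) (.e (nat_lit 426286) (nat_lit 10) (.e (nat_lit 434208) (nat_lit 18) (.e (nat_lit 6420) (nat_lit 341) (.e (nat_lit 163908) (nat_lit 12) (.e (nat_lit 426286) (nat_lit 10) (.e (nat_lit 434208) (nat_lit 18) (.e (nat_lit 6416) (nat_lit 341) .nil)))))))) (.g (nat_lit 506) .nil .nil))) 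
(.lf (nat_lit 509) (.g (nat_lit 3869) (.e (nat_lit 163908) (nat_lit 12) (.e (nat_lit 426286) (nat_lit 10) (.e (nat_lit 434289) (nat_lit 43) (.e (nat_lit 696344) (nat_lit 8) (.e (nat_lit 172113) (nat_lit 10) (.e (nat_lit 434208) (nat_lit 18) (.e (nat_lit 6416) (nat_lit 341) .nil))))))) (.g (nat_lit 510) .nil .nil)))) (.nd (nat_lit 2) 
(.lf (nat_lit 507) (.g (nat_lit 3765) (.e (nat_lit 163908) (nat_lit 12) (.e (nat_lit 426286) (nat_lit 10) (.e (nat_lit 434289) (nat_lit 43) (.e (nat_lit 696343) (nat_lit 8) (.e (nat_lit 172113) (nat_lit 10) (.e (nat_lit 434208) (nat_lit 18) (.e (nat_lit 6416) (nat_lit 341) .nil))))))) (.g (nat_lit 508) .nil .nil))) 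
(.lf (nat_lit 511) (.g (nat_lit 2786) (.e (nat_lit 163908) (nat_lit 12) (.e (nat_lit 426324) (nat_lit 13) (.e (nat_lit 483412) (nat_lit 27) (.e (nat_lit 401446) (nat_lit 10) (.e (nat_lit 434208) (nat_lit 18) (.e (nat_lit 6416) (nat_lit 341) .nil)))))) (.g (nat_lit 512) .nil .nil))))))

noncomputable def tu070 : DT := (.nd (nat_lit 0) (.nd (nat_lit 1) (.nd (nat_lit 2) 
(.lf (nat_lit 512) (.g (nat_lit 2786) (.e (nat_lit 57412) (nat_lit 12) (.e (nat_lit 336212) (nat_lit 13) (.e (nat_lit 393300) (nat_lit 27) (.e (nat_lit 491558) (nat_lit 10) (.e (nat_lit 344096) (nat_lit 18) (.e (nat_lit 7261) (nat_lit 384) .nil)))))) (.g (nat_lit 511) .nil .nil))) 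
(.lf (nat_lit 516) (.g (nat_lit 3470) (.e (nat_lit 57426) (nat_lit 15) (.e (nat_lit 360449) (nat_lit 0) (.e (nat_lit 7265) (nat_lit 384) (.e (nat_lit 57426) (nat_lit 15) (.e (nat_lit 360449) (nat_lit 0) (.e (nat_lit 7265) (nat_lit 384) .nil)))))) (.g (nat_lit 515) .nil .nil)))) (.nd (nat_lit 2) 
(.lf (nat_lit 514) (.g (nat_lit 3330) (.e (nat_lit 57412) (nat_lit 12) (.e (nat_lit 336212) (nat_lit 13) (.e (nat_lit 393301) (nat_lit 27) (.e (nat_lit 491558) (nat_lit 10) (.e (nat_lit 344096) (nat_lit 18) (.e (nat_lit 7261) (nat_lit 384) .nil)))))) (.g (nat_lit 513) .nil .nil))) 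
(.lf (nat_lit 518) (.g (nat_lit 2168) (.e (nat_lit 57426) (nat_lit 15) (.e (nat_lit 360456) (nat_lit 0) (.e (nat_lit 5949) (nat_lit 322) (.e (nat_lit 57426) (nat_lit 15) (.e (nat_lit 360456) (nat_lit 0) (.e (nat_lit 5949) (nat_lit 322) .nil)))))) (.g (nat_lit 517) .nil .nil))))) (.nd (nat_lit 1) (.nd (nat_lit 2) 
(.lf (nat_lit 513) (.g (nat_lit 3330) (.e (nat_lit 163908) (nat_lit 12) (.e (nat_lit 426324) (nat_lit 13) (.e (nat_lit 483413) (nat_lit 27) (.e (nat_lit 401446) (nat_lit 10) (.e (nat_lit 434208) (nat_lit 18) (.e (nat_lit 6416) (nat_lit 341) .nil)))))) (.g (nat_lit 514) .nil .nil))) 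
(.lf (nat_lit 517) (.g (nat_lit 2168) (.e (nat_lit 163922) (nat_lit 15) (.e (nat_lit 450568) (nat_lit 0) (.e (nat_lit 5599) (nat_lit 310) (.e (nat_lit 163922) (nat_lit 15) (.e (nat_lit 450568) (nat_lit 0) (.e (nat_lit 5599) (nat_lit 310) .nil)))))) (.g (nat_lit 518) .nil .nil)))) (.nd (nat_lit 2) 
(.lf (nat_lit 515) (.g (nat_lit 3470) (.e (nat_lit 163922) (nat_lit 15) (.e (nat_lit 450561) (nat_lit 0) (.e (nat_lit 6420) (nat_lit 341) (.e (nat_lit 163922) (nat_lit 15) (.e (nat_lit 450561) (nat_lit 0) (.e (nat_lit 6420) (nat_lit 341) .nil)))))) (.g (nat_lit 516) .nil .nil))) 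
(.lf (nat_lit 519) (.g (nat_lit 4292) (.e (nat_lit 163978) (nat_lit 30) (.e (nat_lit 573484) (nat_lit 13) (.e (nat_lit 65610) (nat_lit 10) (.e (nat_lit 344117) (nat_lit 21) (.e (nat_lit 516151) (nat_lit 9) (.e (nat_lit 426407) (nat_lit 15) (.e (nat_lit 2143) (nat_lit 142) (.e (nat_lit 704588) (nat_lit 3) .nil)))))))) (.g (nat_lit 520) .nil .nil))))))

noncomputable def tu071 : DT := (.nd (nat_lit 0) (.nd (nat_lit 1) (.nd (nat_lit 2) 
(.lf (nat_lit 520) (.g (nat_lit 4292) (.e (nat_lit 57479) (nat_lit 28) (.e (nat_lit 557100) (nat_lit 13) (.e (nat_lit 172106) (nat_lit 10) (.e (nat_lit 434231) (nat_lit 23) (.e (nat_lit 532535) (nat_lit 9) (.e (nat_lit 336290) (nat_lit 15) (.e (nat_lit 3711) (nat_lit 227) (.e (nat_lit 778316) (nat_lit 3) .nil)))))))) (.g (nat_lit 519) .nil .nil))) 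
(.lf (nat_lit 524) (.g (nat_lit 5514) (.e (nat_lit 57479) (nat_lit 28) (.e (nat_lit 557100) (nat_lit 13) (.e (nat_lit 172106) (nat_lit 10) (.e (nat_lit 434231) (nat_lit 23) (.e (nat_lit 532535) (nat_lit 9) (.e (nat_lit 336295) (nat_lit 15) (.e (nat_lit 3629) (nat_lit 227) (.e (nat_lit 778317) (nat_lit 3) .nil)))))))) (.g (nat_lit 523) .nil .nil)))) (.nd (nat_lit 2) 
(.lf (nat_lit 522) (.g (nat_lit 4240) (.e (nat_lit 57479) (nat_lit 28) (.e (nat_lit 557100) (nat_lit 13) (.e (nat_lit 172106) (nat_lit 10) (.e (nat_lit 434231) (nat_lit 23) (.e (nat_lit 532535) (nat_lit 9) (.e (nat_lit 336290) (nat_lit 15) (.e (nat_lit 3715) (nat_lit 227) (.e (nat_lit 778316) (nat_lit 3) .nil)))))))) (.g (nat_lit 521) .nil .nil))) 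
(.lf (nat_lit 526) (.g (nat_lit 5961) (.e (nat_lit 57479) (nat_lit 28) (.e (nat_lit 557100) (nat_lit 13) (.e (nat_lit 172106) (nat_lit 10) (.e (nat_lit 434231) (nat_lit 23) (.e (nat_lit 532535) (nat_lit 9) (.e (nat_lit 336295) (nat_lit 15) (.e (nat_lit 3631) (nat_lit 227) (.e (nat_lit 778317) (nat_lit 3) .nil)))))))) (.g (nat_lit 525) .nil .nil))))) (.nd (nat_lit 1) (.nd (nat_lit 2) 
(.lf (nat_lit 521) (.g (nat_lit 4240) (.e (nat_lit 163978) (nat_lit 30) (.e (nat_lit 573484) (nat_lit 13) (.e (nat_lit 65610) (nat_lit 10) (.e (nat_lit 344117) (nat_lit 21) (.e (nat_lit 516151) (nat_lit 9) (.e (nat_lit 426407) (nat_lit 15) (.e (nat_lit 2147) (nat_lit 142) (.e (nat_lit 704588) (nat_lit 3) .nil)))))))) (.g (nat_lit 522) .nil .nil))) 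
(.lf (nat_lit 525) (.g (nat_lit 5961) (.e (nat_lit 163978) (nat_lit 30) (.e (nat_lit 573484) (nat_lit 13) (.e (nat_lit 65610) (nat_lit 10) (.e (nat_lit 344117) (nat_lit 21) (.e (nat_lit 516151) (nat_lit 9) (.e (nat_lit 426412) (nat_lit 15) (.e (nat_lit 2058) (nat_lit 142) (.e (nat_lit 704589) (nat_lit 3) .nil)))))))) (.g (nat_lit 526) .nil .nil)))) (.nd (nat_lit 2) 
(.lf (nat_lit 523) (.g (nat_lit 5514) (.e (nat_lit 163978) (nat_lit 30) (.e (nat_lit 573484) (nat_lit 13) (.e (nat_lit 65610) (nat_lit 10) (.e (nat_lit 344117) (nat_lit 21) (.e (nat_lit 516151) (nat_lit 9) (.e (nat_lit 426412) (nat_lit 15) (.e (nat_lit 2056) (nat_lit 142) (.e (nat_lit 704589) (nat_lit 3) .nil)))))))) (.g (nat_lit 524) .nil .nil))) 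
(.lf (nat_lit 527) (.g (nat_lit 2128) (.e (nat_lit 180269) (nat_lit 25) (.e (nat_lit 696346) (nat_lit 10) (.e (nat_lit 188421) (nat_lit 11) (.e (nat_lit 335895) (nat_lit 0) (.e (nat_lit 6722) (nat_lit 362) .nil))))) (.g (nat_lit 528) .nil .nil))))))

noncomputable def tu072 : DT := (.nd (nat_lit 0) (.nd (nat_lit 1) (.nd (nat_lit 2) 
(.lf (nat_lit 528) (.g (nat_lit 2128) (.e (nat_lit 73773) (nat_lit 25) (.e (nat_lit 770074) (nat_lit 10) (.e (nat_lit 81925) (nat_lit 11) (.e (nat_lit 426012) (nat_lit 0) (.e (nat_lit 7591) (nat_lit 407) .nil))))) (.g (nat_lit 527) .nil .nil))) 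
(.lf (nat_lit 532) (.g (nat_lit 2001) (.e (nat_lit 73773) (nat_lit 25) (.e (nat_lit 770074) (nat_lit 10) (.e (nat_lit 81927) (nat_lit 11) (.e (nat_lit 426012) (nat_lit 0) (.e (nat_lit 7591) (nat_lit 407) .nil))))) (.g (nat_lit 531) .nil .nil)))) (.nd (nat_lit 2) 
(.lf (nat_lit 530) (.g (nat_lit 2240) (.e (nat_lit 73773) (nat_lit 25) (.e (nat_lit 770074) (nat_lit 10) (.e (nat_lit 81925) (nat_lit 11) (.e (nat_lit 426012) (nat_lit 0) (.e (nat_lit 7593) (nat_lit 407) .nil))))) (.g (nat_lit 529) .nil .nil))) 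
(.lf (nat_lit 534) (.g (nat_lit 2094) (.e (nat_lit 73773) (nat_lit 25) (.e (nat_lit 770074) (nat_lit 10) (.e (nat_lit 81927) (nat_lit 11) (.e (nat_lit 426012) (nat_lit 0) (.e (nat_lit 7593) (nat_lit 407) .nil))))) (.g (nat_lit 533) .nil .nil))))) (.nd (nat_lit 1) (.nd (nat_lit 2) 
(.lf (nat_lit 529) (.g (nat_lit 2240) (.e (nat_lit 180269) (nat_lit 25) (.e (nat_lit 696346) (nat_lit 10) (.e (nat_lit 188421) (nat_lit 11) (.e (nat_lit 335895) (nat_lit 0) (.e (nat_lit 6724) (nat_lit 362) .nil))))) (.g (nat_lit 530) .nil .nil))) 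
(.lf (nat_lit 533) (.g (nat_lit 2094) (.e (nat_lit 180269) (nat_lit 25) (.e (nat_lit 696346) (nat_lit 10) (.e (nat_lit 188423) (nat_lit 11) (.e (nat_lit 335895) (nat_lit 0) (.e (nat_lit 6724) (nat_lit 362) .nil))))) (.g (nat_lit 534) .nil .nil)))) (.nd (nat_lit 2) 
(.lf (nat_lit 531) (.g (nat_lit 2001) (.e (nat_lit 180269) (nat_lit 25) (.e (nat_lit 696346) (nat_lit 10) (.e (nat_lit 188423) (nat_lit 11) (.e (nat_lit 335895) (nat_lit 0) (.e (nat_lit 6722) (nat_lit 362) .nil))))) (.g (nat_lit 532) .nil .nil))) 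
(.lf (nat_lit 535) (.g (nat_lit 2590) (.e (nat_lit 180272) (nat_lit 26) (.e (nat_lit 704738) (nat_lit 11) (.e (nat_lit 16463) (nat_lit 13) (.e (nat_lit 483345) (nat_lit 17) (.e (nat_lit 6722) (nat_lit 362) .nil))))) (.g (nat_lit 536) .nil .nil))))))

noncomputable def tu073 : DT := (.nd (nat_lit 0) (.nd (nat_lit 1) (.nd (nat_lit 2) 
(.lf (nat_lit 536) (.g (nat_lit 2590) (.e (nat_lit 73776) (nat_lit 26) (.e (nat_lit 778466) (nat_lit 11) (.e (nat_lit 24655) (nat_lit 13) (.e (nat_lit 393233) (nat_lit 17) (.e (nat_lit 7591) (nat_lit 407) .nil))))) (.g (nat_lit 535) .nil .nil))) 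
(.lf (nat_lit 540) (.g (nat_lit 3514) (.e (nat_lit 73782) (nat_lit 32) (.e (nat_lit 2857) (nat_lit 184) (.e (nat_lit 426540) (nat_lit 29) (.e (nat_lit 352262) (nat_lit 0) (.e (nat_lit 3632) (nat_lit 227) (.e (nat_lit 778323) (nat_lit 5) .nil)))))) (.g (nat_lit 539) .nil .nil)))) (.nd (nat_lit 2) 
(.lf (nat_lit 538) (.g (nat_lit 3714) (.e (nat_lit 73781) (nat_lit 32) (.e (nat_lit 2856) (nat_lit 184) (.e (nat_lit 426540) (nat_lit 29) (.e (nat_lit 352262) (nat_lit 0) (.e (nat_lit 3632) (nat_lit 227) (.e (nat_lit 778324) (nat_lit 5) .nil)))))) (.g (nat_lit 537) .nil .nil))) 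
(.lf (nat_lit 542) (.g (nat_lit 3097) (.e (nat_lit 73782) (nat_lit 32) (.e (nat_lit 2857) (nat_lit 184) (.e (nat_lit 426542) (nat_lit 29) (.e (nat_lit 352267) (nat_lit 0) (.e (nat_lit 3631) (nat_lit 227) (.e (nat_lit 778323) (nat_lit 5) .nil)))))) (.g (nat_lit 541) .nil .nil))))) (.nd (nat_lit 1) (.nd (nat_lit 2) 
(.lf (nat_lit 537) (.g (nat_lit 3714) (.e (nat_lit 180277) (nat_lit 32) (.e (nat_lit 1427) (nat_lit 108) (.e (nat_lit 336428) (nat_lit 29) (.e (nat_lit 442374) (nat_lit 0) (.e (nat_lit 2059) (nat_lit 142) (.e (nat_lit 704596) (nat_lit 5) .nil)))))) (.g (nat_lit 538) .nil .nil))) 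
(.lf (nat_lit 541) (.g (nat_lit 3097) (.e (nat_lit 180278) (nat_lit 32) (.e (nat_lit 1428) (nat_lit 108) (.e (nat_lit 336430) (nat_lit 29) (.e (nat_lit 442379) (nat_lit 0) (.e (nat_lit 2058) (nat_lit 142) (.e (nat_lit 704595) (nat_lit 5) .nil)))))) (.g (nat_lit 542) .nil .nil)))) (.nd (nat_lit 2) 
(.lf (nat_lit 539) (.g (nat_lit 3514) (.e (nat_lit 180278) (nat_lit 32) (.e (nat_lit 1428) (nat_lit 108) (.e (nat_lit 336428) (nat_lit 29) (.e (nat_lit 442374) (nat_lit 0) (.e (nat_lit 2059) (nat_lit 142) (.e (nat_lit 704595) (nat_lit 5) .nil)))))) (.g (nat_lit 540) .nil .nil))) 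
(.lf (nat_lit 543) (.g (nat_lit 2594) (.e (nat_lit 204805) (nat_lit 0) (.e (nat_lit 7096) (nat_lit 380) (.e (nat_lit 164353) (nat_lit 246) (.e (nat_lit 226) (nat_lit 21) (.e (nat_lit 336443) (nat_lit 32) (.e (nat_lit 466979) (nat_lit 23) .nil)))))) (.g (nat_lit 544) .nil .nil))))))

noncomputable def tu074 : DT := (.nd (nat_lit 0) (.nd (nat_lit 1) (.nd (nat_lit 2) (.nd (nat_lit 3) 
(.lf (nat_lit 544) (.g (nat_lit 2594) (.e (nat_lit 98309) (nat_lit 0) (.e (nat_lit 6207) (nat_lit 333) (.e (nat_lit 57878) (nat_lit 270) (.e (nat_lit 371) (nat_lit 32) (.e (nat_lit 426555) (nat_lit 32) (.e (nat_lit 376867) (nat_lit 23) .nil)))))) (.g (nat_lit 543) .nil .nil))) 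
(.lf (nat_lit 552) (.g (nat_lit 3417) (.e (nat_lit 98334) (nat_lit 18) (.e (nat_lit 164332) (nat_lit 230) (.e (nat_lit 163943) (nat_lit 19) (.e (nat_lit 483341) (nat_lit 9) (.e (nat_lit 426200) (nat_lit 9) (.e (nat_lit 426438) (nat_lit 18) .nil)))))) (.g (nat_lit 551) .nil .nil)))) (.nd (nat_lit 3) 
(.lf (nat_lit 548) (.g (nat_lit 4243) (.e (nat_lit 98334) (nat_lit 18) (.e (nat_lit 164330) (nat_lit 230) (.e (nat_lit 163941) (nat_lit 19) (.e (nat_lit 483341) (nat_lit 9) (.e (nat_lit 426200) (nat_lit 9) (.e (nat_lit 426436) (nat_lit 18) .nil)))))) (.g (nat_lit 547) .nil .nil))) 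
(.lf (nat_lit 556) (.g (nat_lit 3709) (.e (nat_lit 98335) (nat_lit 18) (.e (nat_lit 164325) (nat_lit 230) (.e (nat_lit 163907) (nat_lit 12) (.e (nat_lit 426566) (nat_lit 34) (.e (nat_lit 393271) (nat_lit 23) (.e (nat_lit 426436) (nat_lit 18) .nil)))))) (.g (nat_lit 555) .nil .nil))))) (.nd (nat_lit 2) (.nd (nat_lit 3) 
(.lf (nat_lit 546) (.g (nat_lit 3762) (.e (nat_lit 98333) (nat_lit 18) (.e (nat_lit 164332) (nat_lit 230) (.e (nat_lit 163943) (nat_lit 19) (.e (nat_lit 483341) (nat_lit 9) (.e (nat_lit 426200) (nat_lit 9) (.e (nat_lit 426436) (nat_lit 18) .nil)))))) (.g (nat_lit 545) .nil .nil))) 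
(.lf (nat_lit 554) (.g (nat_lit 4142) (.e (nat_lit 98335) (nat_lit 18) (.e (nat_lit 164325) (nat_lit 230) (.e (nat_lit 163903) (nat_lit 12) (.e (nat_lit 426566) (nat_lit 34) (.e (nat_lit 393271) (nat_lit 23) (.e (nat_lit 426436) (nat_lit 18) .nil)))))) (.g (nat_lit 553) .nil .nil)))) (.nd (nat_lit 3) 
(.lf (nat_lit 550) (.g (nat_lit 3983) (.e (nat_lit 98334) (nat_lit 18) (.e (nat_lit 164330) (nat_lit 230) (.e (nat_lit 163943) (nat_lit 19) (.e (nat_lit 483341) (nat_lit 9) (.e (nat_lit 426200) (nat_lit 9) (.e (nat_lit 426436) (nat_lit 18) .nil)))))) (.g (nat_lit 549) .nil .nil))) 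
(.lf (nat_lit 558) (.g (nat_lit 4158) (.e (nat_lit 98335) (nat_lit 18) (.e (nat_lit 164330) (nat_lit 230) (.e (nat_lit 163943) (nat_lit 19) (.e (nat_lit 483341) (nat_lit 9) (.e (nat_lit 426200) (nat_lit 9) (.e (nat_lit 426436) (nat_lit 18) .nil)))))) (.g (nat_lit 557) .nil .nil)))))) (.nd (nat_lit 1) (.nd (nat_lit 2) (.nd (nat_lit 3) 
(.lf (nat_lit 545) (.g (nat_lit 3762) (.e (nat_lit 204829) (nat_lit 18) (.e (nat_lit 57854) (nat_lit 252) (.e (nat_lit 57447) (nat_lit 19) (.e (nat_lit 393229) (nat_lit 9) (.e (nat_lit 336088) (nat_lit 9) (.e (nat_lit 336324) (nat_lit 18) .nil)))))) (.g (nat_lit 546) .nil .nil))) 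
(.lf (nat_lit 553) (.g (nat_lit 4142) (.e (nat_lit 204831) (nat_lit 18) (.e (nat_lit 57847) (nat_lit 252) (.e (nat_lit 57407) (nat_lit 12) (.e (nat_lit 336454) (nat_lit 34) (.e (nat_lit 483383) (nat_lit 23) (.e (nat_lit 336324) (nat_lit 18) .nil)))))) (.g (nat_lit 554) .nil .nil)))) (.nd (nat_lit 3) 
(.lf (nat_lit 549) (.g (nat_lit 3983) (.e (nat_lit 204830) (nat_lit 18) (.e (nat_lit 57852) (nat_lit 252) (.e (nat_lit 57447) (nat_lit 19) (.e (nat_lit 393229) (nat_lit 9) (.e (nat_lit 336088) (nat_lit 9) (.e (nat_lit 336324) (nat_lit 18) .nil)))))) (.g (nat_lit 550) .nil .nil))) 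
(.lf (nat_lit 557) (.g (nat_lit 4158) (.e (nat_lit 204831) (nat_lit 18) (.e (nat_lit 57852) (nat_lit 252) (.e (nat_lit 57447) (nat_lit 19) (.e (nat_lit 393229) (nat_lit 9) (.e (nat_lit 336088) (nat_lit 9) (.e (nat_lit 336324) (nat_lit 18) .nil)))))) (.g (nat_lit 558) .nil .nil))))) (.nd (nat_lit 2) (.nd (nat_lit 3) 
(.lf (nat_lit 547) (.g (nat_lit 4243) (.e (nat_lit 204830) (nat_lit 18) (.e (nat_lit 57852) (nat_lit 252) (.e (nat_lit 57445) (nat_lit 19) (.e (nat_lit 393229) (nat_lit 9) (.e (nat_lit 336088) (nat_lit 9) (.e (nat_lit 336324) (nat_lit 18) .nil)))))) (.g (nat_lit 548) .nil .nil))) 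
(.lf (nat_lit 555) (.g (nat_lit 3709) (.e (nat_lit 204831) (nat_lit 18) (.e (nat_lit 57847) (nat_lit 252) (.e (nat_lit 57411) (nat_lit 12) (.e (nat_lit 336454) (nat_lit 34) (.e (nat_lit 483383) (nat_lit 23) (.e (nat_lit 336324) (nat_lit 18) .nil)))))) (.g (nat_lit 556) .nil .nil)))) (.nd (nat_lit 3) 
(.lf (nat_lit 551) (.g (nat_lit 3417) (.e (nat_lit 204830) (nat_lit 18) (.e (nat_lit 57854) (nat_lit 252) (.e (nat_lit 57447) (nat_lit 19) (.e (nat_lit 393229) (nat_lit 9) (.e (nat_lit 336088) (nat_lit 9) (.e (nat_lit 336326) (nat_lit 18) .nil)))))) (.g (nat_lit 552) .nil .nil))) 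
(.lf (nat_lit 559) (.g (nat_lit 3965) (.e (nat_lit 204831) (nat_lit 18) (.e (nat_lit 57854) (nat_lit 252) (.e (nat_lit 57406) (nat_lit 12) (.e (nat_lit 336454) (nat_lit 34) (.e (nat_lit 483383) (nat_lit 23) (.e (nat_lit 336324) (nat_lit 18) .nil)))))) (.g (nat_lit 560) .nil .nil)))))))

noncomputable def tu075 : DT := (.nd (nat_lit 0) (.nd (nat_lit 1) 
(.lf (nat_lit 560) (.g (nat_lit 3965) (.e (nat_lit 98335) (nat_lit 18) (.e (nat_lit 164332) (nat_lit 230) (.e (nat_lit 163902) (nat_lit 12) (.e (nat_lit 426566) (nat_lit 34) (.e (nat_lit 393271) (nat_lit 23) (.e (nat_lit 426436) (nat_lit 18) .nil)))))) (.g (nat_lit 559) .nil .nil))) 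
(.lf (nat_lit 562) (.g (nat_lit 3698) (.e (nat_lit 98335) (nat_lit 18) (.e (nat_lit 164332) (nat_lit 230) (.e (nat_lit 163905) (nat_lit 12) (.e (nat_lit 426566) (nat_lit 34) (.e (nat_lit 393271) (nat_lit 23) (.e (nat_lit 426436) (nat_lit 18) .nil)))))) (.g (nat_lit 561) .nil .nil)))) (.nd (nat_lit 1) 
(.lf (nat_lit 561) (.g (nat_lit 3698) (.e (nat_lit 204831) (nat_lit 18) (.e (nat_lit 57854) (nat_lit 252) (.e (nat_lit 57409) (nat_lit 12) (.e (nat_lit 336454) (nat_lit 34) (.e (nat_lit 483383) (nat_lit 23) (.e (nat_lit 336324) (nat_lit 18) .nil)))))) (.g (nat_lit 562) .nil .nil))) 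
(.lf (nat_lit 563) (.g (nat_lit 4042) (.e (nat_lit 204831) (nat_lit 18) (.e (nat_lit 57854) (nat_lit 252) (.e (nat_lit 57447) (nat_lit 19) (.e (nat_lit 393229) (nat_lit 9) (.e (nat_lit 336088) (nat_lit 9) (.e (nat_lit 336324) (nat_lit 18) .nil)))))) (.g (nat_lit 564) .nil .nil)))))

noncomputable def tu076 : DT := (.nd (nat_lit 0) 
(.lf (nat_lit 564) (.g (nat_lit 4042) (.e (nat_lit 98335) (nat_lit 18) (.e (nat_lit 164332) (nat_lit 230) (.e (nat_lit 163943) (nat_lit 19) (.e (nat_lit 483341) (nat_lit 9) (.e (nat_lit 426200) (nat_lit 9) (.e (nat_lit 426436) (nat_lit 18) .nil)))))) (.g (nat_lit 563) .nil .nil))) 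
(.lf (nat_lit 565) (.g (nat_lit 5024) (.e (nat_lit 229415) (nat_lit 15) (.e (nat_lit 450563) (nat_lit 0) (.e (nat_lit 6420) (nat_lit 341) (.e (nat_lit 163922) (nat_lit 15) (.e (nat_lit 450564) (nat_lit 0) (.e (nat_lit 6425) (nat_lit 342) .nil)))))) (.g (nat_lit 566) .nil .nil))))

noncomputable def tu077 : DT := (.nd (nat_lit 0) 
(.lf (nat_lit 566) (.g (nat_lit 5024) (.e (nat_lit 122919) (nat_lit 15) (.e (nat_lit 360451) (nat_lit 0) (.e (nat_lit 7265) (nat_lit 384) (.e (nat_lit 57426) (nat_lit 15) (.e (nat_lit 360452) (nat_lit 0) (.e (nat_lit 7270) (nat_lit 385) .nil)))))) (.g (nat_lit 565) .nil .nil))) 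
(.lf (nat_lit 567) (.g (nat_lit 2676) (.e (nat_lit 245504) (nat_lit 18) (.e (nat_lit 98358) (nat_lit 26) (.e (nat_lit 426436) (nat_lit 18) (.e (nat_lit 98358) (nat_lit 26) (.e (nat_lit 426428) (nat_lit 17) (.e (nat_lit 90185) (nat_lit 17) .nil)))))) (.g (nat_lit 568) .nil .nil))))

noncomputable def tu078 : DT := (.nd (nat_lit 0) (.nd (nat_lit 1) (.nd (nat_lit 2) 
(.lf (nat_lit 568) (.g (nat_lit 2676) (.e (nat_lit 139008) (nat_lit 18) (.e (nat_lit 204854) (nat_lit 26) (.e (nat_lit 336324) (nat_lit 18) (.e (nat_lit 204854) (nat_lit 26) (.e (nat_lit 336316) (nat_lit 17) (.e (nat_lit 196681) (nat_lit 17) .nil)))))) (.g (nat_lit 567) .nil .nil))) 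
(.lf (nat_lit 572) (.g (nat_lit 4570) (.e (nat_lit 286756) (nat_lit 10) (.e (nat_lit 344160) (nat_lit 37) (.e (nat_lit 647200) (nat_lit 12) (.e (nat_lit 57574) (nat_lit 55) (.e (nat_lit 778466) (nat_lit 11) (.e (nat_lit 24617) (nat_lit 7) (.e (nat_lit 319534) (nat_lit 16) .nil))))))) (.g (nat_lit 571) .nil .nil)))) (.nd (nat_lit 2) 
(.lf (nat_lit 570) (.g (nat_lit 2400) (.e (nat_lit 311357) (nat_lit 28) (.e (nat_lit 344069) (nat_lit 0) (.e (nat_lit 3090) (nat_lit 191) (.e (nat_lit 483371) (nat_lit 21) (.e (nat_lit 319539) (nat_lit 19) .nil))))) (.g (nat_lit 569) .nil .nil))) 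
(.lf (nat_lit 574) (.g (nat_lit 3799) (.e (nat_lit 286770) (nat_lit 28) (.e (nat_lit 434181) (nat_lit 0) (.e (nat_lit 1661) (nat_lit 115) (.e (nat_lit 393238) (nat_lit 17) (.e (nat_lit 6989) (nat_lit 377) (.e (nat_lit 2777) (nat_lit 178) .nil)))))) (.g (nat_lit 573) .nil .nil))))) (.nd (nat_lit 1) (.nd (nat_lit 2) 
(.lf (nat_lit 569) (.g (nat_lit 2400) (.e (nat_lit 294973) (nat_lit 28) (.e (nat_lit 434181) (nat_lit 0) (.e (nat_lit 1661) (nat_lit 115) (.e (nat_lit 393259) (nat_lit 21) (.e (nat_lit 409642) (nat_lit 17) .nil))))) (.g (nat_lit 570) .nil .nil))) 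
(.lf (nat_lit 573) (.g (nat_lit 3799) (.e (nat_lit 303154) (nat_lit 28) (.e (nat_lit 344069) (nat_lit 0) (.e (nat_lit 3090) (nat_lit 191) (.e (nat_lit 483350) (nat_lit 17) (.e (nat_lit 6113) (nat_lit 332) (.e (nat_lit 1374) (nat_lit 104) .nil)))))) (.g (nat_lit 574) .nil .nil)))) (.nd (nat_lit 2) 
(.lf (nat_lit 571) (.g (nat_lit 4570) (.e (nat_lit 303140) (nat_lit 10) (.e (nat_lit 434275) (nat_lit 39) (.e (nat_lit 663584) (nat_lit 12) (.e (nat_lit 164022) (nat_lit 46) (.e (nat_lit 704738) (nat_lit 11) (.e (nat_lit 16425) (nat_lit 7) (.e (nat_lit 409649) (nat_lit 18) .nil))))))) (.g (nat_lit 572) .nil .nil))) 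
(.lf (nat_lit 575) (.g (nat_lit 3096) (.e (nat_lit 335895) (nat_lit 0) (.e (nat_lit 6720) (nat_lit 361) (.e (nat_lit 172150) (nat_lit 27) (.e (nat_lit 335895) (nat_lit 0) (.e (nat_lit 6720) (nat_lit 361) (.e (nat_lit 172150) (nat_lit 27) .nil)))))) (.g (nat_lit 576) .nil .nil))))))

noncomputable def tu079 : DT := (.nd (nat_lit 0) (.nd (nat_lit 1) (.nd (nat_lit 2) 
(.lf (nat_lit 576) (.g (nat_lit 3096) (.e (nat_lit 426012) (nat_lit 0) (.e (nat_lit 7589) (nat_lit 406) (.e (nat_lit 65653) (nat_lit 27) (.e (nat_lit 426012) (nat_lit 0) (.e (nat_lit 7589) (nat_lit 406) (.e (nat_lit 65653) (nat_lit 27) .nil)))))) (.g (nat_lit 575) .nil .nil))) 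
(.lf (nat_lit 580) (.g (nat_lit 3872) (.e (nat_lit 426100) (nat_lit 1) (.e (nat_lit 164332) (nat_lit 230) (.e (nat_lit 163873) (nat_lit 3) (.e (nat_lit 204813) (nat_lit 9) (.e (nat_lit 426325) (nat_lit 13) (.e (nat_lit 483337) (nat_lit 9) .nil)))))) (.g (nat_lit 579) .nil .nil)))) (.nd (nat_lit 2) 
(.lf (nat_lit 578) (.g (nat_lit 2282) (.e (nat_lit 426100) (nat_lit 1) (.e (nat_lit 164332) (nat_lit 230) (.e (nat_lit 163873) (nat_lit 3) (.e (nat_lit 204811) (nat_lit 9) (.e (nat_lit 426321) (nat_lit 13) (.e (nat_lit 483337) (nat_lit 9) .nil)))))) (.g (nat_lit 577) .nil .nil))) 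
(.lf (nat_lit 582) (.g (nat_lit 3300) (.e (nat_lit 426100) (nat_lit 1) (.e (nat_lit 164332) (nat_lit 230) (.e (nat_lit 163873) (nat_lit 3) (.e (nat_lit 204813) (nat_lit 9) (.e (nat_lit 426335) (nat_lit 13) (.e (nat_lit 483337) (nat_lit 9) .nil)))))) (.g (nat_lit 581) .nil .nil))))) (.nd (nat_lit 1) (.nd (nat_lit 2) 
(.lf (nat_lit 577) (.g (nat_lit 2282) (.e (nat_lit 335988) (nat_lit 1) (.e (nat_lit 57854) (nat_lit 252) (.e (nat_lit 57377) (nat_lit 3) (.e (nat_lit 98315) (nat_lit 9) (.e (nat_lit 336209) (nat_lit 13) (.e (nat_lit 393225) (nat_lit 9) .nil)))))) (.g (nat_lit 578) .nil .nil))) 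
(.lf (nat_lit 581) (.g (nat_lit 3300) (.e (nat_lit 335988) (nat_lit 1) (.e (nat_lit 57854) (nat_lit 252) (.e (nat_lit 57377) (nat_lit 3) (.e (nat_lit 98317) (nat_lit 9) (.e (nat_lit 336223) (nat_lit 13) (.e (nat_lit 393225) (nat_lit 9) .nil)))))) (.g (nat_lit 582) .nil .nil)))) (.nd (nat_lit 2) 
(.lf (nat_lit 579) (.g (nat_lit 3872) (.e (nat_lit 335988) (nat_lit 1) (.e (nat_lit 57854) (nat_lit 252) (.e (nat_lit 57377) (nat_lit 3) (.e (nat_lit 98317) (nat_lit 9) (.e (nat_lit 336213) (nat_lit 13) (.e (nat_lit 393225) (nat_lit 9) .nil)))))) (.g (nat_lit 580) .nil .nil))) 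
(.lf (nat_lit 583) (.g (nat_lit 4284) (.e (nat_lit 335997) (nat_lit 1) (.e (nat_lit 57870) (nat_lit 264) (.e (nat_lit 1170) (nat_lit 87) (.e (nat_lit 57479) (nat_lit 28) (.e (nat_lit 557100) (nat_lit 13) (.e (nat_lit 172106) (nat_lit 10) (.e (nat_lit 434231) (nat_lit 23) (.e (nat_lit 532527) (nat_lit 9) .nil)))))))) (.g (nat_lit 584) .nil .nil))))))

noncomputable def tu080 : DT := (.nd (nat_lit 0) (.nd (nat_lit 1) (.nd (nat_lit 2) 
(.lf (nat_lit 584) (.g (nat_lit 4284) (.e (nat_lit 426109) (nat_lit 1) (.e (nat_lit 164345) (nat_lit 240) (.e (nat_lit 2599) (nat_lit 163) (.e (nat_lit 163978) (nat_lit 30) (.e (nat_lit 573484) (nat_lit 13) (.e (nat_lit 65610) (nat_lit 10) (.e (nat_lit 344117) (nat_lit 21) (.e (nat_lit 516143) (nat_lit 9) .nil)))))))) (.g (nat_lit 583) .nil .nil))) 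
(.lf (nat_lit 588) (.g (nat_lit 4187) (.e (nat_lit 426109) (nat_lit 1) (.e (nat_lit 164345) (nat_lit 240) (.e (nat_lit 2619) (nat_lit 164) (.e (nat_lit 172115) (nat_lit 10) (.e (nat_lit 434209) (nat_lit 18) (.e (nat_lit 5548) (nat_lit 306) (.e (nat_lit 2629) (nat_lit 164) (.e (nat_lit 172097) (nat_lit 9) .nil)))))))) (.g (nat_lit 587) .nil .nil)))) (.nd (nat_lit 2) 
(.lf (nat_lit 586) (.g (nat_lit 4408) (.e (nat_lit 426109) (nat_lit 1) (.e (nat_lit 164345) (nat_lit 240) (.e (nat_lit 2619) (nat_lit 164) (.e (nat_lit 172115) (nat_lit 10) (.e (nat_lit 434209) (nat_lit 18) (.e (nat_lit 5548) (nat_lit 306) (.e (nat_lit 2619) (nat_lit 164) (.e (nat_lit 172097) (nat_lit 9) .nil)))))))) (.g (nat_lit 585) .nil .nil))) 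
(.lf (nat_lit 590) (.g (nat_lit 4235) (.e (nat_lit 426125) (nat_lit 2) (.e (nat_lit 196666) (nat_lit 13) (.e (nat_lit 65610) (nat_lit 10) (.e (nat_lit 344129) (nat_lit 26) (.e (nat_lit 557090) (nat_lit 12) (.e (nat_lit 164016) (nat_lit 44) (.e (nat_lit 688141) (nat_lit 5) (.e (nat_lit 2883) (nat_lit 184) .nil)))))))) (.g (nat_lit 589) .nil .nil))))) (.nd (nat_lit 1) (.nd (nat_lit 2) 
(.lf (nat_lit 585) (.g (nat_lit 4408) (.e (nat_lit 335997) (nat_lit 1) (.e (nat_lit 57870) (nat_lit 264) (.e (nat_lit 1190) (nat_lit 88) (.e (nat_lit 65619) (nat_lit 10) (.e (nat_lit 344097) (nat_lit 18) (.e (nat_lit 5907) (nat_lit 320) (.e (nat_lit 1190) (nat_lit 88) (.e (nat_lit 65604) (nat_lit 9) .nil)))))))) (.g (nat_lit 586) .nil .nil))) 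
(.lf (nat_lit 589) (.g (nat_lit 4235) (.e (nat_lit 336013) (nat_lit 2) (.e (nat_lit 90170) (nat_lit 13) (.e (nat_lit 172106) (nat_lit 10) (.e (nat_lit 434244) (nat_lit 28) (.e (nat_lit 573474) (nat_lit 12) (.e (nat_lit 57568) (nat_lit 53) (.e (nat_lit 761869) (nat_lit 5) (.e (nat_lit 1463) (nat_lit 108) .nil)))))))) (.g (nat_lit 590) .nil .nil)))) (.nd (nat_lit 2) 
(.lf (nat_lit 587) (.g (nat_lit 4187) (.e (nat_lit 335997) (nat_lit 1) (.e (nat_lit 57870) (nat_lit 264) (.e (nat_lit 1190) (nat_lit 88) (.e (nat_lit 65619) (nat_lit 10) (.e (nat_lit 344097) (nat_lit 18) (.e (nat_lit 5907) (nat_lit 320) (.e (nat_lit 1200) (nat_lit 88) (.e (nat_lit 65604) (nat_lit 9) .nil)))))))) (.g (nat_lit 588) .nil .nil))) 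
(.lf (nat_lit 591) (.g (nat_lit 4343) (.e (nat_lit 336013) (nat_lit 2) (.e (nat_lit 90170) (nat_lit 13) (.e (nat_lit 172106) (nat_lit 10) (.e (nat_lit 434244) (nat_lit 28) (.e (nat_lit 573474) (nat_lit 12) (.e (nat_lit 57570) (nat_lit 54) (.e (nat_lit 770055) (nat_lit 5) (.e (nat_lit 1464) (nat_lit 108) .nil)))))))) (.g (nat_lit 592) .nil .nil))))))

noncomputable def tu081 : DT := (.nd (nat_lit 0) (.nd (nat_lit 1) (.nd (nat_lit 2) (.nd (nat_lit 3) 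
(.lf (nat_lit 592) (.g (nat_lit 4343) (.e (nat_lit 426125) (nat_lit 2) (.e (nat_lit 196666) (nat_lit 13) (.e (nat_lit 65610) (nat_lit 10) (.e (nat_lit 344129) (nat_lit 26) (.e (nat_lit 557090) (nat_lit 12) (.e (nat_lit 164018) (nat_lit 45) (.e (nat_lit 696327) (nat_lit 5) (.e (nat_lit 2884) (nat_lit 184) .nil)))))))) (.g (nat_lit 591) .nil .nil))) 
(.lf (nat_lit 600) (.g (nat_lit 4629) (.e (nat_lit 426125) (nat_lit 2) (.e (nat_lit 196666) (nat_lit 13) (.e (nat_lit 65610) (nat_lit 10) (.e (nat_lit 344129) (nat_lit 26) (.e (nat_lit 557090) (nat_lit 12) (.e (nat_lit 164020) (nat_lit 45) (.e (nat_lit 696327) (nat_lit 5) (.e (nat_lit 2884) (nat_lit 184) .nil)))))))) (.g (nat_lit 599) .nil .nil)))) (.nd (nat_lit 3) 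
(.lf (nat_lit 596) (.g (nat_lit 4201) (.e (nat_lit 426125) (nat_lit 2) (.e (nat_lit 196666) (nat_lit 13) (.e (nat_lit 65610) (nat_lit 10) (.e (nat_lit 344129) (nat_lit 26) (.e (nat_lit 557090) (nat_lit 12) (.e (nat_lit 164018) (nat_lit 45) (.e (nat_lit 696329) (nat_lit 5) (.e (nat_lit 2884) (nat_lit 184) .nil)))))))) (.g (nat_lit 595) .nil .nil))) 
(.lf (nat_lit 604) (.g (nat_lit 4670) (.e (nat_lit 426125) (nat_lit 2) (.e (nat_lit 196666) (nat_lit 13) (.e (nat_lit 65610) (nat_lit 10) (.e (nat_lit 344129) (nat_lit 26) (.e (nat_lit 557090) (nat_lit 12) (.e (nat_lit 164020) (nat_lit 45) (.e (nat_lit 696329) (nat_lit 5) (.e (nat_lit 2884) (nat_lit 184) .nil)))))))) (.g (nat_lit 603) .nil .nil))))) (.nd (nat_lit 2) (.nd (nat_lit 3) 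
(.lf (nat_lit 594) (.g (nat_lit 4188) (.e (nat_lit 426125) (nat_lit 2) (.e (nat_lit 196666) (nat_lit 13) (.e (nat_lit 65610) (nat_lit 10) (.e (nat_lit 344129) (nat_lit 26) (.e (nat_lit 557090) (nat_lit 12) (.e (nat_lit 164018) (nat_lit 45) (.e (nat_lit 696328) (nat_lit 5) (.e (nat_lit 2884) (nat_lit 184) .nil)))))))) (.g (nat_lit 593) .nil .nil))) 
(.lf (nat_lit 602) (.g (nat_lit 4554) (.e (nat_lit 426125) (nat_lit 2) (.e (nat_lit 196666) (nat_lit 13) (.e (nat_lit 65610) (nat_lit 10) (.e (nat_lit 344129) (nat_lit 26) (.e (nat_lit 557090) (nat_lit 12) (.e (nat_lit 164020) (nat_lit 45) (.e (nat_lit 696328) (nat_lit 5) (.e (nat_lit 2884) (nat_lit 184) .nil)))))))) (.g (nat_lit 601) .nil .nil)))) (.nd (nat_lit 3) 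
(.lf (nat_lit 598) (.g (nat_lit 4304) (.e (nat_lit 426125) (nat_lit 2) (.e (nat_lit 196666) (nat_lit 13) (.e (nat_lit 65610) (nat_lit 10) (.e (nat_lit 344129) (nat_lit 26) (.e (nat_lit 557090) (nat_lit 12) (.e (nat_lit 164018) (nat_lit 45) (.e (nat_lit 696330) (nat_lit 5) (.e (nat_lit 2884) (nat_lit 184) .nil)))))))) (.g (nat_lit 597) .nil .nil))) 
(.lf (nat_lit 606) (.g (nat_lit 4754) (.e (nat_lit 426125) (nat_lit 2) (.e (nat_lit 196666) (nat_lit 13) (.e (nat_lit 65610) (nat_lit 10) (.e (nat_lit 344129) (nat_lit 26) (.e (nat_lit 557090) (nat_lit 12) (.e (nat_lit 164020) (nat_lit 45) (.e (nat_lit 696330) (nat_lit 5) (.e (nat_lit 2884) (nat_lit 184) .nil)))))))) (.g (nat_lit 605) .nil .nil)))))) 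
(.nd (nat_lit 1) (.nd (nat_lit 2) (.nd (nat_lit 3) 
(.lf (nat_lit 593) (.g (nat_lit 4188) (.e (nat_lit 336013) (nat_lit 2) (.e (nat_lit 90170) (nat_lit 13) (.e (nat_lit 172106) (nat_lit 10) (.e (nat_lit 434244) (nat_lit 28) (.e (nat_lit 573474) (nat_lit 12) (.e (nat_lit 57570) (nat_lit 54) (.e (nat_lit 770056) (nat_lit 5) (.e (nat_lit 1464) (nat_lit 108) .nil)))))))) (.g (nat_lit 594) .nil .nil))) 
(.lf (nat_lit 601) (.g (nat_lit 4554) (.e (nat_lit 336013) (nat_lit 2) (.e (nat_lit 90170) (nat_lit 13) (.e (nat_lit 172106) (nat_lit 10) (.e (nat_lit 434244) (nat_lit 28) (.e (nat_lit 573474) (nat_lit 12) (.e (nat_lit 57572) (nat_lit 54) (.e (nat_lit 770056) (nat_lit 5) (.e (nat_lit 1464) (nat_lit 108) .nil)))))))) (.g (nat_lit 602) .nil .nil)))) (.nd (nat_lit 3) 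
(.lf (nat_lit 597) (.g (nat_lit 4304) (.e (nat_lit 336013) (nat_lit 2) (.e (nat_lit 90170) (nat_lit 13) (.e (nat_lit 172106) (nat_lit 10) (.e (nat_lit 434244) (nat_lit 28) (.e (nat_lit 573474) (nat_lit 12) (.e (nat_lit 57570) (nat_lit 54) (.e (nat_lit 770058) (nat_lit 5) (.e (nat_lit 1464) (nat_lit 108) .nil)))))))) (.g (nat_lit 598) .nil .nil))) 
(.lf (nat_lit 605) (.g (nat_lit 4754) (.e (nat_lit 336013) (nat_lit 2) (.e (nat_lit 90170) (nat_lit 13) (.e (nat_lit 172106) (nat_lit 10) (.e (nat_lit 434244) (nat_lit 28) (.e (nat_lit 573474) (nat_lit 12) (.e (nat_lit 57572) (nat_lit 54) (.e (nat_lit 770058) (nat_lit 5) (.e (nat_lit 1464) (nat_lit 108) .nil)))))))) (.g (nat_lit 606) .nil .nil))))) (.nd (nat_lit 2) (.nd (nat_lit 3) 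
(.lf (nat_lit 595) (.g (nat_lit 4201) (.e (nat_lit 336013) (nat_lit 2) (.e (nat_lit 90170) (nat_lit 13) (.e (nat_lit 172106) (nat_lit 10) (.e (nat_lit 434244) (nat_lit 28) (.e (nat_lit 573474) (nat_lit 12) (.e (nat_lit 57570) (nat_lit 54) (.e (nat_lit 770057) (nat_lit 5) (.e (nat_lit 1464) (nat_lit 108) .nil)))))))) (.g (nat_lit 596) .nil .nil))) 
(.lf (nat_lit 603) (.g (nat_lit 4670) (.e (nat_lit 336013) (nat_lit 2) (.e (nat_lit 90170) (nat_lit 13) (.e (nat_lit 172106) (nat_lit 10) (.e (nat_lit 434244) (nat_lit 28) (.e (nat_lit 573474) (nat_lit 12) (.e (nat_lit 57572) (nat_lit 54) (.e (nat_lit 770057) (nat_lit 5) (.e (nat_lit 1464) (nat_lit 108) .nil)))))))) (.g (nat_lit 604) .nil .nil)))) (.nd (nat_lit 3) 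
(.lf (nat_lit 599) (.g (nat_lit 4629) (.e (nat_lit 336013) (nat_lit 2) (.e (nat_lit 90170) (nat_lit 13) (.e (nat_lit 172106) (nat_lit 10) (.e (nat_lit 434244) (nat_lit 28) (.e (nat_lit 573474) (nat_lit 12) (.e (nat_lit 57572) (nat_lit 54) (.e (nat_lit 770055) (nat_lit 5) (.e (nat_lit 1464) (nat_lit 108) .nil)))))))) (.g (nat_lit 600) .nil .nil))) 
(.lf (nat_lit 607) (.g (nat_lit 6477) (.e (nat_lit 336013) (nat_lit 2) (.e (nat_lit 90170) (nat_lit 13) (.e (nat_lit 172106) (nat_lit 10) (.e (nat_lit 434244) (nat_lit 28) (.e (nat_lit 573474) (nat_lit 12) (.e (nat_lit 57574) (nat_lit 55) (.e (nat_lit 778362) (nat_lit 9) (.e (nat_lit 232) (nat_lit 21) .nil)))))))) (.g (nat_lit 608) .nil .nil)))))))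

noncomputable def tu082 : DT := (.nd (nat_lit 0) (.nd (nat_lit 1) (.nd (nat_lit 2) 
(.lf (nat_lit 608) (.g (nat_lit 6477) (.e (nat_lit 426125) (nat_lit 2) (.e (nat_lit 196666) (nat_lit 13) (.e (nat_lit 65610) (nat_lit 10) (.e (nat_lit 344129) (nat_lit 26) (.e (nat_lit 557090) (nat_lit 12) (.e (nat_lit 164022) (nat_lit 46) (.e (nat_lit 704629) (nat_lit 9) (.e (nat_lit 375) (nat_lit 32) .nil)))))))) (.g (nat_lit 607) .nil .nil))) 
(.lf (nat_lit 612) (.g (nat_lit 3836) (.e (nat_lit 426133) (nat_lit 3) (.e (nat_lit 204813) (nat_lit 9) (.e (nat_lit 426133) (nat_lit 3) (.e (nat_lit 204813) (nat_lit 9) (.e (nat_lit 426133) (nat_lit 3) (.e (nat_lit 204809) (nat_lit 9) .nil)))))) (.g (nat_lit 611) .nil .nil)))) (.nd (nat_lit 2) 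
(.lf (nat_lit 610) (.g (nat_lit 2674) (.e (nat_lit 426133) (nat_lit 3) (.e (nat_lit 204813) (nat_lit 9) (.e (nat_lit 426133) (nat_lit 3) (.e (nat_lit 204811) (nat_lit 9) (.e (nat_lit 426129) (nat_lit 3) (.e (nat_lit 204809) (nat_lit 9) .nil)))))) (.g (nat_lit 609) .nil .nil))) 
(.lf (nat_lit 614) (.g (nat_lit 4056) (.e (nat_lit 426133) (nat_lit 3) (.e (nat_lit 204813) (nat_lit 9) (.e (nat_lit 426133) (nat_lit 3) (.e (nat_lit 204813) (nat_lit 9) (.e (nat_lit 426133) (nat_lit 3) (.e (nat_lit 204813) (nat_lit 9) .nil)))))) (.g (nat_lit 613) .nil .nil))))) (.nd (nat_lit 1) (.nd (nat_lit 2) 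
(.lf (nat_lit 609) (.g (nat_lit 2674) (.e (nat_lit 336021) (nat_lit 3) (.e (nat_lit 98317) (nat_lit 9) (.e (nat_lit 336021) (nat_lit 3) (.e (nat_lit 98315) (nat_lit 9) (.e (nat_lit 336017) (nat_lit 3) (.e (nat_lit 98313) (nat_lit 9) .nil)))))) (.g (nat_lit 610) .nil .nil))) 
(.lf (nat_lit 613) (.g (nat_lit 4056) (.e (nat_lit 336021) (nat_lit 3) (.e (nat_lit 98317) (nat_lit 9) (.e (nat_lit 336021) (nat_lit 3) (.e (nat_lit 98317) (nat_lit 9) (.e (nat_lit 336021) (nat_lit 3) (.e (nat_lit 98317) (nat_lit 9) .nil)))))) (.g (nat_lit 614) .nil .nil)))) (.nd (nat_lit 2) 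
(.lf (nat_lit 611) (.g (nat_lit 3836) (.e (nat_lit 336021) (nat_lit 3) (.e (nat_lit 98317) (nat_lit 9) (.e (nat_lit 336021) (nat_lit 3) (.e (nat_lit 98317) (nat_lit 9) (.e (nat_lit 336021) (nat_lit 3) (.e (nat_lit 98313) (nat_lit 9) .nil)))))) (.g (nat_lit 612) .nil .nil))) 
(.lf (nat_lit 615) (.g (nat_lit 3587) (.e (nat_lit 336021) (nat_lit 3) (.e (nat_lit 98317) (nat_lit 9) (.e (nat_lit 336021) (nat_lit 3) (.e (nat_lit 98317) (nat_lit 9) (.e (nat_lit 336027) (nat_lit 3) (.e (nat_lit 98313) (nat_lit 9) .nil)))))) (.g (nat_lit 616) .nil .nil))))))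

noncomputable def tu083 : DT := (.nd (nat_lit 0) (.nd (nat_lit 1) (.nd (nat_lit 2) 
(.lf (nat_lit 616) (.g (nat_lit 3587) (.e (nat_lit 426133) (nat_lit 3) (.e (nat_lit 204813) (nat_lit 9) (.e (nat_lit 426133) (nat_lit 3) (.e (nat_lit 204813) (nat_lit 9) (.e (nat_lit 426139) (nat_lit 3) (.e (nat_lit 204809) (nat_lit 9) .nil)))))) (.g (nat_lit 615) .nil .nil))) 
(.lf (nat_lit 620) (.g (nat_lit 3359) (.e (nat_lit 426138) (nat_lit 3) (.e (nat_lit 204813) (nat_lit 9) (.e (nat_lit 426133) (nat_lit 3) (.e (nat_lit 204813) (nat_lit 9) (.e (nat_lit 426133) (nat_lit 3) (.e (nat_lit 204813) (nat_lit 9) .nil)))))) (.g (nat_lit 619) .nil .nil)))) (.nd (nat_lit 2) 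
(.lf (nat_lit 618) (.g (nat_lit 3695) (.e (nat_lit 426133) (nat_lit 3) (.e (nat_lit 204813) (nat_lit 9) (.e (nat_lit 426133) (nat_lit 3) (.e (nat_lit 204813) (nat_lit 9) (.e (nat_lit 426139) (nat_lit 3) (.e (nat_lit 204813) (nat_lit 9) .nil)))))) (.g (nat_lit 617) .nil .nil))) 
(.lf (nat_lit 622) (.g (nat_lit 4078) (.e (nat_lit 426188) (nat_lit 9) (.e (nat_lit 426566) (nat_lit 34) (.e (nat_lit 393253) (nat_lit 18) (.e (nat_lit 164325) (nat_lit 230) (.e (nat_lit 163873) (nat_lit 3) (.e (nat_lit 204813) (nat_lit 9) .nil)))))) (.g (nat_lit 621) .nil .nil))))) (.nd (nat_lit 1) (.nd (nat_lit 2) 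
(.lf (nat_lit 617) (.g (nat_lit 3695) (.e (nat_lit 336021) (nat_lit 3) (.e (nat_lit 98317) (nat_lit 9) (.e (nat_lit 336021) (nat_lit 3) (.e (nat_lit 98317) (nat_lit 9) (.e (nat_lit 336027) (nat_lit 3) (.e (nat_lit 98317) (nat_lit 9) .nil)))))) (.g (nat_lit 618) .nil .nil))) 
(.lf (nat_lit 621) (.g (nat_lit 4078) (.e (nat_lit 336076) (nat_lit 9) (.e (nat_lit 336454) (nat_lit 34) (.e (nat_lit 483365) (nat_lit 18) (.e (nat_lit 57847) (nat_lit 252) (.e (nat_lit 57377) (nat_lit 3) (.e (nat_lit 98317) (nat_lit 9) .nil)))))) (.g (nat_lit 622) .nil .nil)))) (.nd (nat_lit 2) 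
(.lf (nat_lit 619) (.g (nat_lit 3359) (.e (nat_lit 336026) (nat_lit 3) (.e (nat_lit 98317) (nat_lit 9) (.e (nat_lit 336021) (nat_lit 3) (.e (nat_lit 98317) (nat_lit 9) (.e (nat_lit 336021) (nat_lit 3) (.e (nat_lit 98317) (nat_lit 9) .nil)))))) (.g (nat_lit 620) .nil .nil))) 
(.lf (nat_lit 623) (.g (nat_lit 4490) (.e (nat_lit 336076) (nat_lit 9) (.e (nat_lit 336454) (nat_lit 34) (.e (nat_lit 483365) (nat_lit 18) (.e (nat_lit 57849) (nat_lit 252) (.e (nat_lit 57377) (nat_lit 3) (.e (nat_lit 98317) (nat_lit 9) .nil)))))) (.g (nat_lit 624) .nil .nil))))))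

noncomputable def tu084 : DT := (.nd (nat_lit 0) (.nd (nat_lit 1) (.nd (nat_lit 2) (.nd (nat_lit 3) 
(.lf (nat_lit 624) (.g (nat_lit 4490) (.e (nat_lit 426188) (nat_lit 9) (.e (nat_lit 426566) (nat_lit 34) (.e (nat_lit 393253) (nat_lit 18) (.e (nat_lit 164327) (nat_lit 230) (.e (nat_lit 163873) (nat_lit 3) (.e (nat_lit 204813) (nat_lit 9) .nil)))))) (.g (nat_lit 623) .nil .nil))) 
(.lf (nat_lit 632) (.g (nat_lit 3412) (.e (nat_lit 426325) (nat_lit 13) (.e (nat_lit 483341) (nat_lit 9) (.e (nat_lit 426098) (nat_lit 1) (.e (nat_lit 164332) (nat_lit 230) (.e (nat_lit 163873) (nat_lit 3) (.e (nat_lit 204813) (nat_lit 9) .nil)))))) (.g (nat_lit 631) .nil .nil)))) (.nd (nat_lit 3) 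
(.lf (nat_lit 628) (.g (nat_lit 4490) (.e (nat_lit 426200) (nat_lit 9) (.e (nat_lit 426436) (nat_lit 18) (.e (nat_lit 98335) (nat_lit 18) (.e (nat_lit 164330) (nat_lit 230) (.e (nat_lit 163941) (nat_lit 19) (.e (nat_lit 483341) (nat_lit 9) .nil)))))) (.g (nat_lit 627) .nil .nil))) 
(.lf (nat_lit 636) (.g (nat_lit 3694) (.e (nat_lit 426325) (nat_lit 13) (.e (nat_lit 483341) (nat_lit 9) (.e (nat_lit 426106) (nat_lit 1) (.e (nat_lit 164324) (nat_lit 230) (.e (nat_lit 163873) (nat_lit 3) (.e (nat_lit 204813) (nat_lit 9) .nil)))))) (.g (nat_lit 635) .nil .nil))))) (.nd (nat_lit 2) (.nd (nat_lit 3) 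
(.lf (nat_lit 626) (.g (nat_lit 3511) (.e (nat_lit 426200) (nat_lit 9) (.e (nat_lit 426436) (nat_lit 18) (.e (nat_lit 98334) (nat_lit 18) (.e (nat_lit 164329) (nat_lit 230) (.e (nat_lit 163941) (nat_lit 19) (.e (nat_lit 483341) (nat_lit 9) .nil)))))) (.g (nat_lit 625) .nil .nil))) 
(.lf (nat_lit 634) (.g (nat_lit 3709) (.e (nat_lit 426325) (nat_lit 13) (.e (nat_lit 483341) (nat_lit 9) (.e (nat_lit 426100) (nat_lit 1) (.e (nat_lit 164332) (nat_lit 230) (.e (nat_lit 163873) (nat_lit 3) (.e (nat_lit 204813) (nat_lit 9) .nil)))))) (.g (nat_lit 633) .nil .nil)))) (.nd (nat_lit 3) 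
(.lf (nat_lit 630) (.g (nat_lit 3698) (.e (nat_lit 426325) (nat_lit 13) (.e (nat_lit 483341) (nat_lit 9) (.e (nat_lit 426098) (nat_lit 1) (.e (nat_lit 164325) (nat_lit 230) (.e (nat_lit 163873) (nat_lit 3) (.e (nat_lit 204813) (nat_lit 9) .nil)))))) (.g (nat_lit 629) .nil .nil))) 
(.lf (nat_lit 638) (.g (nat_lit 3461) (.e (nat_lit 426325) (nat_lit 13) (.e (nat_lit 483341) (nat_lit 9) (.e (nat_lit 426106) (nat_lit 1) (.e (nat_lit 164325) (nat_lit 230) (.e (nat_lit 163873) (nat_lit 3) (.e (nat_lit 204813) (nat_lit 9) .nil)))))) (.g (nat_lit 637) .nil .nil)))))) (.nd (nat_lit 1) (.nd (nat_lit 2) (.nd (nat_lit 3) 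
(.lf (nat_lit 625) (.g (nat_lit 3511) (.e (nat_lit 336088) (nat_lit 9) (.e (nat_lit 336324) (nat_lit 18) (.e (nat_lit 204830) (nat_lit 18) (.e (nat_lit 57851) (nat_lit 252) (.e (nat_lit 57445) (nat_lit 19) (.e (nat_lit 393229) (nat_lit 9) .nil)))))) (.g (nat_lit 626) .nil .nil))) 
(.lf (nat_lit 633) (.g (nat_lit 3709) (.e (nat_lit 336213) (nat_lit 13) (.e (nat_lit 393229) (nat_lit 9) (.e (nat_lit 335988) (nat_lit 1) (.e (nat_lit 57854) (nat_lit 252) (.e (nat_lit 57377) (nat_lit 3) (.e (nat_lit 98317) (nat_lit 9) .nil)))))) (.g (nat_lit 634) .nil .nil)))) (.nd (nat_lit 3) 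
(.lf (nat_lit 629) (.g (nat_lit 3698) (.e (nat_lit 336213) (nat_lit 13) (.e (nat_lit 393229) (nat_lit 9) (.e (nat_lit 335986) (nat_lit 1) (.e (nat_lit 57847) (nat_lit 252) (.e (nat_lit 57377) (nat_lit 3) (.e (nat_lit 98317) (nat_lit 9) .nil)))))) (.g (nat_lit 630) .nil .nil))) 
(.lf (nat_lit 637) (.g (nat_lit 3461) (.e (nat_lit 336213) (nat_lit 13) (.e (nat_lit 393229) (nat_lit 9) (.e (nat_lit 335994) (nat_lit 1) (.e (nat_lit 57847) (nat_lit 252) (.e (nat_lit 57377) (nat_lit 3) (.e (nat_lit 98317) (nat_lit 9) .nil)))))) (.g (nat_lit 638) .nil .nil))))) (.nd (nat_lit 2) (.nd (nat_lit 3) 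
(.lf (nat_lit 627) (.g (nat_lit 4490) (.e (nat_lit 336088) (nat_lit 9) (.e (nat_lit 336324) (nat_lit 18) (.e (nat_lit 204831) (nat_lit 18) (.e (nat_lit 57852) (nat_lit 252) (.e (nat_lit 57445) (nat_lit 19) (.e (nat_lit 393229) (nat_lit 9) .nil)))))) (.g (nat_lit 628) .nil .nil))) 
(.lf (nat_lit 635) (.g (nat_lit 3694) (.e (nat_lit 336213) (nat_lit 13) (.e (nat_lit 393229) (nat_lit 9) (.e (nat_lit 335994) (nat_lit 1) (.e (nat_lit 57846) (nat_lit 252) (.e (nat_lit 57377) (nat_lit 3) (.e (nat_lit 98317) (nat_lit 9) .nil)))))) (.g (nat_lit 636) .nil .nil)))) (.nd (nat_lit 3) 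
(.lf (nat_lit 631) (.g (nat_lit 3412) (.e (nat_lit 336213) (nat_lit 13) (.e (nat_lit 393229) (nat_lit 9) (.e (nat_lit 335986) (nat_lit 1) (.e (nat_lit 57854) (nat_lit 252) (.e (nat_lit 57377) (nat_lit 3) (.e (nat_lit 98317) (nat_lit 9) .nil)))))) (.g (nat_lit 632) .nil .nil))) 
(.lf (nat_lit 639) (.g (nat_lit 3248) (.e (nat_lit 336213) (nat_lit 13) (.e (nat_lit 393229) (nat_lit 9) (.e (nat_lit 335994) (nat_lit 1) (.e (nat_lit 57851) (nat_lit 252) (.e (nat_lit 57377) (nat_lit 3) (.e (nat_lit 98317) (nat_lit 9) .nil)))))) (.g (nat_lit 640) .nil .nil)))))))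

noncomputable def tu085 : DT := (.nd (nat_lit 0) (.nd (nat_lit 1) (.nd (nat_lit 2) 
(.lf (nat_lit 640) (.g (nat_lit 3248) (.e (nat_lit 426325) (nat_lit 13) (.e (nat_lit 483341) (nat_lit 9) (.e (nat_lit 426106) (nat_lit 1) (.e (nat_lit 164329) (nat_lit 230) (.e (nat_lit 163873) (nat_lit 3) (.e (nat_lit 204813) (nat_lit 9) .nil)))))) (.g (nat_lit 639) .nil .nil))) 
(.lf (nat_lit 644) (.g (nat_lit 4083) (.e (nat_lit 426325) (nat_lit 13) (.e (nat_lit 483341) (nat_lit 9) (.e (nat_lit 426107) (nat_lit 1) (.e (nat_lit 164324) (nat_lit 230) (.e (nat_lit 163873) (nat_lit 3) (.e (nat_lit 204813) (nat_lit 9) .nil)))))) (.g (nat_lit 643) .nil .nil)))) (.nd (nat_lit 2) 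
(.lf (nat_lit 642) (.g (nat_lit 3516) (.e (nat_lit 426325) (nat_lit 13) (.e (nat_lit 483341) (nat_lit 9) (.e (nat_lit 426106) (nat_lit 1) (.e (nat_lit 164332) (nat_lit 230) (.e (nat_lit 163873) (nat_lit 3) (.e (nat_lit 204813) (nat_lit 9) .nil)))))) (.g (nat_lit 641) .nil .nil))) 
(.lf (nat_lit 646) (.g (nat_lit 3965) (.e (nat_lit 426325) (nat_lit 13) (.e (nat_lit 483341) (nat_lit 9) (.e (nat_lit 426107) (nat_lit 1) (.e (nat_lit 164325) (nat_lit 230) (.e (nat_lit 163873) (nat_lit 3) (.e (nat_lit 204813) (nat_lit 9) .nil)))))) (.g (nat_lit 645) .nil .nil))))) (.nd (nat_lit 1) (.nd (nat_lit 2) 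
(.lf (nat_lit 641) (.g (nat_lit 3516) (.e (nat_lit 336213) (nat_lit 13) (.e (nat_lit 393229) (nat_lit 9) (.e (nat_lit 335994) (nat_lit 1) (.e (nat_lit 57854) (nat_lit 252) (.e (nat_lit 57377) (nat_lit 3) (.e (nat_lit 98317) (nat_lit 9) .nil)))))) (.g (nat_lit 642) .nil .nil))) 
(.lf (nat_lit 645) (.g (nat_lit 3965) (.e (nat_lit 336213) (nat_lit 13) (.e (nat_lit 393229) (nat_lit 9) (.e (nat_lit 335995) (nat_lit 1) (.e (nat_lit 57847) (nat_lit 252) (.e (nat_lit 57377) (nat_lit 3) (.e (nat_lit 98317) (nat_lit 9) .nil)))))) (.g (nat_lit 646) .nil .nil)))) (.nd (nat_lit 2) 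
(.lf (nat_lit 643) (.g (nat_lit 4083) (.e (nat_lit 336213) (nat_lit 13) (.e (nat_lit 393229) (nat_lit 9) (.e (nat_lit 335995) (nat_lit 1) (.e (nat_lit 57846) (nat_lit 252) (.e (nat_lit 57377) (nat_lit 3) (.e (nat_lit 98317) (nat_lit 9) .nil)))))) (.g (nat_lit 644) .nil .nil))) 
(.lf (nat_lit 647) (.g (nat_lit 4142) (.e (nat_lit 336213) (nat_lit 13) (.e (nat_lit 393229) (nat_lit 9) (.e (nat_lit 335996) (nat_lit 1) (.e (nat_lit 57854) (nat_lit 252) (.e (nat_lit 57377) (nat_lit 3) (.e (nat_lit 98317) (nat_lit 9) .nil)))))) (.g (nat_lit 648) .nil .nil))))))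

noncomputable def tu086 : DT := (.nd (nat_lit 0) (.nd (nat_lit 1) (.nd (nat_lit 2) 
(.lf (nat_lit 648) (.g (nat_lit 4142) (.e (nat_lit 426325) (nat_lit 13) (.e (nat_lit 483341) (nat_lit 9) (.e (nat_lit 426108) (nat_lit 1) (.e (nat_lit 164332) (nat_lit 230) (.e (nat_lit 163873) (nat_lit 3) (.e (nat_lit 204813) (nat_lit 9) .nil)))))) (.g (nat_lit 647) .nil .nil))) 
(.lf (nat_lit 652) (.g (nat_lit 4219) (.e (nat_lit 426347) (nat_lit 14) (.e (nat_lit 491570) (nat_lit 13) (.e (nat_lit 393291) (nat_lit 26) (.e (nat_lit 475210) (nat_lit 41) (.e (nat_lit 712745) (nat_lit 27) .nil))))) (.g (nat_lit 651) .nil .nil)))) (.nd (nat_lit 2) 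
(.lf (nat_lit 650) (.g (nat_lit 3715) (.e (nat_lit 426335) (nat_lit 13) (.e (nat_lit 483337) (nat_lit 9) (.e (nat_lit 426108) (nat_lit 1) (.e (nat_lit 164332) (nat_lit 230) (.e (nat_lit 163873) (nat_lit 3) (.e (nat_lit 204813) (nat_lit 9) .nil)))))) (.g (nat_lit 649) .nil .nil))) 
(.lf (nat_lit 654) (.g (nat_lit 3647) (.e (nat_lit 426479) (nat_lit 27) (.e (nat_lit 336432) (nat_lit 30) (.e (nat_lit 450580) (nat_lit 5) (.e (nat_lit 532499) (nat_lit 1) (.e (nat_lit 57688) (nat_lit 156) (.e (nat_lit 163902) (nat_lit 12) .nil)))))) (.g (nat_lit 653) .nil .nil))))) (.nd (nat_lit 1) (.nd (nat_lit 2) 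
(.lf (nat_lit 649) (.g (nat_lit 3715) (.e (nat_lit 336223) (nat_lit 13) (.e (nat_lit 393225) (nat_lit 9) (.e (nat_lit 335996) (nat_lit 1) (.e (nat_lit 57854) (nat_lit 252) (.e (nat_lit 57377) (nat_lit 3) (.e (nat_lit 98317) (nat_lit 9) .nil)))))) (.g (nat_lit 650) .nil .nil))) 
(.lf (nat_lit 653) (.g (nat_lit 3647) (.e (nat_lit 336367) (nat_lit 27) (.e (nat_lit 426544) (nat_lit 30) (.e (nat_lit 360467) (nat_lit 3) (.e (nat_lit 516115) (nat_lit 1) (.e (nat_lit 164179) (nat_lit 154) (.e (nat_lit 57406) (nat_lit 12) .nil)))))) (.g (nat_lit 654) .nil .nil)))) (.nd (nat_lit 2) 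
(.lf (nat_lit 651) (.g (nat_lit 4219) (.e (nat_lit 336235) (nat_lit 14) (.e (nat_lit 401458) (nat_lit 13) (.e (nat_lit 483403) (nat_lit 26) (.e (nat_lit 385105) (nat_lit 50) (.e (nat_lit 786473) (nat_lit 27) .nil))))) (.g (nat_lit 652) .nil .nil))) 
(.lf (nat_lit 655) (.g (nat_lit 3601) (.e (nat_lit 336367) (nat_lit 27) (.e (nat_lit 426544) (nat_lit 30) (.e (nat_lit 360467) (nat_lit 3) (.e (nat_lit 516115) (nat_lit 1) (.e (nat_lit 164179) (nat_lit 154) (.e (nat_lit 57407) (nat_lit 12) .nil)))))) (.g (nat_lit 656) .nil .nil))))))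

noncomputable def tu087 : DT := (.nd (nat_lit 0) (.nd (nat_lit 1) (.nd (nat_lit 2) 
(.lf (nat_lit 656) (.g (nat_lit 3601) (.e (nat_lit 426479) (nat_lit 27) (.e (nat_lit 336432) (nat_lit 30) (.e (nat_lit 450580) (nat_lit 5) (.e (nat_lit 532499) (nat_lit 1) (.e (nat_lit 57688) (nat_lit 156) (.e (nat_lit 163903) (nat_lit 12) .nil)))))) (.g (nat_lit 655) .nil .nil))) 
(.lf (nat_lit 660) (.g (nat_lit 3732) (.e (nat_lit 434207) (nat_lit 18) (.e (nat_lit 6252) (nat_lit 337) (.e (nat_lit 2630) (nat_lit 164) (.e (nat_lit 172113) (nat_lit 10) (.e (nat_lit 434208) (nat_lit 18) (.e (nat_lit 6416) (nat_lit 341) (.e (nat_lit 163908) (nat_lit 12) (.e (nat_lit 426286) (nat_lit 10) .nil)))))))) (.g (nat_lit 659) .nil .nil)))) (.nd (nat_lit 2) 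
(.lf (nat_lit 658) (.g (nat_lit 2291) (.e (nat_lit 434181) (nat_lit 0) (.e (nat_lit 1428) (nat_lit 108) (.e (nat_lit 336421) (nat_lit 28) (.e (nat_lit 434189) (nat_lit 13) (.e (nat_lit 2789) (nat_lit 179) (.e (nat_lit 294973) (nat_lit 28) .nil)))))) (.g (nat_lit 657) .nil .nil))) 
(.lf (nat_lit 662) (.g (nat_lit 5339) (.e (nat_lit 434209) (nat_lit 18) (.e (nat_lit 5546) (nat_lit 306) (.e (nat_lit 2599) (nat_lit 163) (.e (nat_lit 163978) (nat_lit 30) (.e (nat_lit 573484) (nat_lit 13) (.e (nat_lit 65610) (nat_lit 10) (.e (nat_lit 344117) (nat_lit 21) (.e (nat_lit 516160) (nat_lit 10) .nil)))))))) (.g (nat_lit 661) .nil .nil))))) (.nd (nat_lit 1) (.nd (nat_lit 2) 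
(.lf (nat_lit 657) (.g (nat_lit 2291) (.e (nat_lit 344069) (nat_lit 0) (.e (nat_lit 2857) (nat_lit 184) (.e (nat_lit 426533) (nat_lit 28) (.e (nat_lit 344077) (nat_lit 13) (.e (nat_lit 1386) (nat_lit 105) (.e (nat_lit 311357) (nat_lit 28) .nil)))))) (.g (nat_lit 658) .nil .nil))) 
(.lf (nat_lit 661) (.g (nat_lit 5339) (.e (nat_lit 344097) (nat_lit 18) (.e (nat_lit 5905) (nat_lit 320) (.e (nat_lit 1170) (nat_lit 87) (.e (nat_lit 57479) (nat_lit 28) (.e (nat_lit 557100) (nat_lit 13) (.e (nat_lit 172106) (nat_lit 10) (.e (nat_lit 434231) (nat_lit 23) (.e (nat_lit 532544) (nat_lit 10) .nil)))))))) (.g (nat_lit 662) .nil .nil)))) (.nd (nat_lit 2) 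
(.lf (nat_lit 659) (.g (nat_lit 3732) (.e (nat_lit 344095) (nat_lit 18) (.e (nat_lit 7122) (nat_lit 382) (.e (nat_lit 1201) (nat_lit 88) (.e (nat_lit 65617) (nat_lit 10) (.e (nat_lit 344096) (nat_lit 18) (.e (nat_lit 7261) (nat_lit 384) (.e (nat_lit 57412) (nat_lit 12) (.e (nat_lit 336176) (nat_lit 10) .nil)))))))) (.g (nat_lit 660) .nil .nil))) 
(.lf (nat_lit 663) (.g (nat_lit 5170) (.e (nat_lit 344097) (nat_lit 18) (.e (nat_lit 5906) (nat_lit 320) (.e (nat_lit 1170) (nat_lit 87) (.e (nat_lit 57479) (nat_lit 28) (.e (nat_lit 557100) (nat_lit 13) (.e (nat_lit 172106) (nat_lit 10) (.e (nat_lit 434231) (nat_lit 23) (.e (nat_lit 532544) (nat_lit 10) .nil)))))))) (.g (nat_lit 664) .nil .nil))))))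

noncomputable def tu088 : DT := (.nd (nat_lit 0) (.nd (nat_lit 1) (.nd (nat_lit 2) 
(.lf (nat_lit 664) (.g (nat_lit 5170) (.e (nat_lit 434209) (nat_lit 18) (.e (nat_lit 5547) (nat_lit 306) (.e (nat_lit 2599) (nat_lit 163) (.e (nat_lit 163978) (nat_lit 30) (.e (nat_lit 573484) (nat_lit 13) (.e (nat_lit 65610) (nat_lit 10) (.e (nat_lit 344117) (nat_lit 21) (.e (nat_lit 516160) (nat_lit 10) .nil)))))))) (.g (nat_lit 663) .nil .nil))) 
(.lf (nat_lit 668) (.g (nat_lit 6327) (.e (nat_lit 434209) (nat_lit 18) (.e (nat_lit 5548) (nat_lit 306) (.e (nat_lit 2610) (nat_lit 163) (.e (nat_lit 163978) (nat_lit 30) (.e (nat_lit 573484) (nat_lit 13) (.e (nat_lit 65610) (nat_lit 10) (.e (nat_lit 344117) (nat_lit 21) (.e (nat_lit 516160) (nat_lit 10) .nil)))))))) (.g (nat_lit 667) .nil .nil)))) (.nd (nat_lit 2) 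
(.lf (nat_lit 666) (.g (nat_lit 3954) (.e (nat_lit 434209) (nat_lit 18) (.e (nat_lit 5547) (nat_lit 306) (.e (nat_lit 2629) (nat_lit 164) (.e (nat_lit 172097) (nat_lit 9) (.e (nat_lit 426109) (nat_lit 1) (.e (nat_lit 164345) (nat_lit 240) (.e (nat_lit 2619) (nat_lit 164) (.e (nat_lit 172115) (nat_lit 10) .nil)))))))) (.g (nat_lit 665) .nil .nil))) 
(.lf (nat_lit 670) (.g (nat_lit 5284) (.e (nat_lit 434231) (nat_lit 23) (.e (nat_lit 532569) (nat_lit 16) (.e (nat_lit 401451) (nat_lit 12) (.e (nat_lit 475185) (nat_lit 29) (.e (nat_lit 557100) (nat_lit 13) (.e (nat_lit 172106) (nat_lit 10) .nil)))))) (.g (nat_lit 669) .nil .nil))))) (.nd (nat_lit 1) (.nd (nat_lit 2) 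
(.lf (nat_lit 665) (.g (nat_lit 3954) (.e (nat_lit 344097) (nat_lit 18) (.e (nat_lit 5906) (nat_lit 320) (.e (nat_lit 1200) (nat_lit 88) (.e (nat_lit 65604) (nat_lit 9) (.e (nat_lit 335997) (nat_lit 1) (.e (nat_lit 57870) (nat_lit 264) (.e (nat_lit 1190) (nat_lit 88) (.e (nat_lit 65619) (nat_lit 10) .nil)))))))) (.g (nat_lit 666) .nil .nil))) 
(.lf (nat_lit 669) (.g (nat_lit 5284) (.e (nat_lit 344117) (nat_lit 21) (.e (nat_lit 516185) (nat_lit 16) (.e (nat_lit 491563) (nat_lit 12) (.e (nat_lit 385074) (nat_lit 31) (.e (nat_lit 573484) (nat_lit 13) (.e (nat_lit 65610) (nat_lit 10) .nil)))))) (.g (nat_lit 670) .nil .nil)))) (.nd (nat_lit 2) 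
(.lf (nat_lit 667) (.g (nat_lit 6327) (.e (nat_lit 344097) (nat_lit 18) (.e (nat_lit 5907) (nat_lit 320) (.e (nat_lit 1181) (nat_lit 87) (.e (nat_lit 57479) (nat_lit 28) (.e (nat_lit 557100) (nat_lit 13) (.e (nat_lit 172106) (nat_lit 10) (.e (nat_lit 434231) (nat_lit 23) (.e (nat_lit 532544) (nat_lit 10) .nil)))))))) (.g (nat_lit 668) .nil .nil))) 
(.lf (nat_lit 671) (.g (nat_lit 4341) (.e (nat_lit 344168) (nat_lit 40) (.e (nat_lit 671757) (nat_lit 3) (.e (nat_lit 57479) (nat_lit 28) (.e (nat_lit 557100) (nat_lit 13) (.e (nat_lit 172106) (nat_lit 10) (.e (nat_lit 434231) (nat_lit 23) (.e (nat_lit 532543) (nat_lit 10) .nil))))))) (.g (nat_lit 672) .nil .nil))))))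

noncomputable def tu089 : DT := (.nd (nat_lit 0) (.nd (nat_lit 1) (.nd (nat_lit 2) 
(.lf (nat_lit 672) (.g (nat_lit 4341) (.e (nat_lit 434271) (nat_lit 38) (.e (nat_lit 655373) (nat_lit 3) (.e (nat_lit 163978) (nat_lit 30) (.e (nat_lit 573484) (nat_lit 13) (.e (nat_lit 65610) (nat_lit 10) (.e (nat_lit 344117) (nat_lit 21) (.e (nat_lit 516159) (nat_lit 10) .nil))))))) (.g (nat_lit 671) .nil .nil))) 
(.lf (nat_lit 676) (.g (nat_lit 5301) (.e (nat_lit 434271) (nat_lit 38) (.e (nat_lit 655375) (nat_lit 3) (.e (nat_lit 163978) (nat_lit 30) (.e (nat_lit 573484) (nat_lit 13) (.e (nat_lit 65610) (nat_lit 10) (.e (nat_lit 344117) (nat_lit 21) (.e (nat_lit 516160) (nat_lit 10) .nil))))))) (.g (nat_lit 675) .nil .nil)))) (.nd (nat_lit 2) 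
(.lf (nat_lit 674) (.g (nat_lit 4702) (.e (nat_lit 434271) (nat_lit 38) (.e (nat_lit 655375) (nat_lit 3) (.e (nat_lit 163978) (nat_lit 30) (.e (nat_lit 573484) (nat_lit 13) (.e (nat_lit 65610) (nat_lit 10) (.e (nat_lit 344117) (nat_lit 21) (.e (nat_lit 516159) (nat_lit 10) .nil))))))) (.g (nat_lit 673) .nil .nil))) 
(.lf (nat_lit 678) (.g (nat_lit 5052) (.e (nat_lit 434272) (nat_lit 38) (.e (nat_lit 655375) (nat_lit 3) (.e (nat_lit 163978) (nat_lit 30) (.e (nat_lit 573484) (nat_lit 13) (.e (nat_lit 65610) (nat_lit 10) (.e (nat_lit 344117) (nat_lit 21) (.e (nat_lit 516159) (nat_lit 10) .nil))))))) (.g (nat_lit 677) .nil .nil))))) (.nd (nat_lit 1) (.nd (nat_lit 2) 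
(.lf (nat_lit 673) (.g (nat_lit 4702) (.e (nat_lit 344168) (nat_lit 40) (.e (nat_lit 671759) (nat_lit 3) (.e (nat_lit 57479) (nat_lit 28) (.e (nat_lit 557100) (nat_lit 13) (.e (nat_lit 172106) (nat_lit 10) (.e (nat_lit 434231) (nat_lit 23) (.e (nat_lit 532543) (nat_lit 10) .nil))))))) (.g (nat_lit 674) .nil .nil))) 
(.lf (nat_lit 677) (.g (nat_lit 5052) (.e (nat_lit 344169) (nat_lit 40) (.e (nat_lit 671759) (nat_lit 3) (.e (nat_lit 57479) (nat_lit 28) (.e (nat_lit 557100) (nat_lit 13) (.e (nat_lit 172106) (nat_lit 10) (.e (nat_lit 434231) (nat_lit 23) (.e (nat_lit 532543) (nat_lit 10) .nil))))))) (.g (nat_lit 678) .nil .nil)))) (.nd (nat_lit 2) 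
(.lf (nat_lit 675) (.g (nat_lit 5301) (.e (nat_lit 344168) (nat_lit 40) (.e (nat_lit 671759) (nat_lit 3) (.e (nat_lit 57479) (nat_lit 28) (.e (nat_lit 557100) (nat_lit 13) (.e (nat_lit 172106) (nat_lit 10) (.e (nat_lit 434231) (nat_lit 23) (.e (nat_lit 532544) (nat_lit 10) .nil))))))) (.g (nat_lit 676) .nil .nil))) 
(.lf (nat_lit 679) (.g (nat_lit 5685) (.e (nat_lit 344169) (nat_lit 40) (.e (nat_lit 671759) (nat_lit 3) (.e (nat_lit 57479) (nat_lit 28) (.e (nat_lit 557100) (nat_lit 13) (.e (nat_lit 172106) (nat_lit 10) (.e (nat_lit 434231) (nat_lit 23) (.e (nat_lit 532544) (nat_lit 10) .nil))))))) (.g (nat_lit 680) .nil .nil))))))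

noncomputable def tu090 : DT := (.nd (nat_lit 0) (.nd (nat_lit 1) (.nd (nat_lit 2) 
(.lf (nat_lit 680) (.g (nat_lit 5685) (.e (nat_lit 434272) (nat_lit 38) (.e (nat_lit 655375) (nat_lit 3) (.e (nat_lit 163978) (nat_lit 30) (.e (nat_lit 573484) (nat_lit 13) (.e (nat_lit 65610) (nat_lit 10) (.e (nat_lit 344117) (nat_lit 21) (.e (nat_lit 516160) (nat_lit 10) .nil))))))) (.g (nat_lit 679) .nil .nil))) 
(.lf (nat_lit 684) (.g (nat_lit 3714) (.e (nat_lit 442387) (nat_lit 11) (.e (nat_lit 335894) (nat_lit 0) (.e (nat_lit 6722) (nat_lit 362) (.e (nat_lit 180272) (nat_lit 26) (.e (nat_lit 704629) (nat_lit 9) (.e (nat_lit 459) (nat_lit 34) .nil)))))) (.g (nat_lit 683) .nil .nil)))) (.nd (nat_lit 2) 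
(.lf (nat_lit 682) (.g (nat_lit 2691) (.e (nat_lit 442112) (nat_lit 45) (.e (nat_lit 720640) (nat_lit 14) (.e (nat_lit 401457) (nat_lit 13) (.e (nat_lit 483413) (nat_lit 27) (.e (nat_lit 401448) (nat_lit 10) .nil))))) (.g (nat_lit 681) .nil .nil))) 
(.lf (nat_lit 686) (.g (nat_lit 4133) (.e (nat_lit 442387) (nat_lit 11) (.e (nat_lit 335894) (nat_lit 0) (.e (nat_lit 6724) (nat_lit 362) (.e (nat_lit 180271) (nat_lit 26) (.e (nat_lit 704629) (nat_lit 9) (.e (nat_lit 459) (nat_lit 34) .nil)))))) (.g (nat_lit 685) .nil .nil))))) (.nd (nat_lit 1) (.nd (nat_lit 2) 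
(.lf (nat_lit 681) (.g (nat_lit 2691) (.e (nat_lit 352000) (nat_lit 45) (.e (nat_lit 794368) (nat_lit 14) (.e (nat_lit 491569) (nat_lit 13) (.e (nat_lit 393301) (nat_lit 27) (.e (nat_lit 491560) (nat_lit 10) .nil))))) (.g (nat_lit 682) .nil .nil))) 
(.lf (nat_lit 685) (.g (nat_lit 4133) (.e (nat_lit 352275) (nat_lit 11) (.e (nat_lit 426011) (nat_lit 0) (.e (nat_lit 7593) (nat_lit 407) (.e (nat_lit 73775) (nat_lit 26) (.e (nat_lit 778362) (nat_lit 9) (.e (nat_lit 314) (nat_lit 23) .nil)))))) (.g (nat_lit 686) .nil .nil)))) (.nd (nat_lit 2) 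
(.lf (nat_lit 683) (.g (nat_lit 3714) (.e (nat_lit 352275) (nat_lit 11) (.e (nat_lit 426011) (nat_lit 0) (.e (nat_lit 7591) (nat_lit 407) (.e (nat_lit 73776) (nat_lit 26) (.e (nat_lit 778362) (nat_lit 9) (.e (nat_lit 314) (nat_lit 23) .nil)))))) (.g (nat_lit 684) .nil .nil))) 
(.lf (nat_lit 687) (.g (nat_lit 3779) (.e (nat_lit 352277) (nat_lit 11) (.e (nat_lit 426011) (nat_lit 0) (.e (nat_lit 7591) (nat_lit 407) (.e (nat_lit 73776) (nat_lit 26) (.e (nat_lit 778362) (nat_lit 9) (.e (nat_lit 312) (nat_lit 23) .nil)))))) (.g (nat_lit 688) .nil .nil))))))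

noncomputable def tu091 : DT := (.nd (nat_lit 0) (.nd (nat_lit 1) 
(.lf (nat_lit 688) (.g (nat_lit 3779) (.e (nat_lit 442390) (nat_lit 11) (.e (nat_lit 335894) (nat_lit 0) (.e (nat_lit 6722) (nat_lit 362) (.e (nat_lit 180272) (nat_lit 26) (.e (nat_lit 704629) (nat_lit 9) (.e (nat_lit 457) (nat_lit 34) .nil)))))) (.g (nat_lit 687) .nil .nil))) 
(.lf (nat_lit 690) (.g (nat_lit 2815) (.e (nat_lit 442390) (nat_lit 11) (.e (nat_lit 335894) (nat_lit 0) (.e (nat_lit 6724) (nat_lit 362) (.e (nat_lit 180269) (nat_lit 25) (.e (nat_lit 696330) (nat_lit 5) (.e (nat_lit 3004) (nat_lit 186) .nil)))))) (.g (nat_lit 689) .nil .nil)))) (.nd (nat_lit 1) 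
(.lf (nat_lit 689) (.g (nat_lit 2815) (.e (nat_lit 352277) (nat_lit 11) (.e (nat_lit 426011) (nat_lit 0) (.e (nat_lit 7593) (nat_lit 407) (.e (nat_lit 73773) (nat_lit 25) (.e (nat_lit 770058) (nat_lit 5) (.e (nat_lit 1575) (nat_lit 110) .nil)))))) (.g (nat_lit 690) .nil .nil))) 
(.lf (nat_lit 691) (.g (nat_lit 4188) (.e (nat_lit 352277) (nat_lit 11) (.e (nat_lit 426011) (nat_lit 0) (.e (nat_lit 7593) (nat_lit 407) (.e (nat_lit 73775) (nat_lit 26) (.e (nat_lit 778362) (nat_lit 9) (.e (nat_lit 312) (nat_lit 23) .nil)))))) (.g (nat_lit 692) .nil .nil)))))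

noncomputable def tu092 : DT := (.nd (nat_lit 0) (.nd (nat_lit 1) 
(.lf (nat_lit 692) (.g (nat_lit 4188) (.e (nat_lit 442390) (nat_lit 11) (.e (nat_lit 335894) (nat_lit 0) (.e (nat_lit 6724) (nat_lit 362) (.e (nat_lit 180271) (nat_lit 26) (.e (nat_lit 704629) (nat_lit 9) (.e (nat_lit 457) (nat_lit 34) .nil)))))) (.g (nat_lit 691) .nil .nil))) 
(.lf (nat_lit 694) (.g (nat_lit 3555) (.e (nat_lit 442390) (nat_lit 11) (.e (nat_lit 336232) (nat_lit 14) (.e (nat_lit 401448) (nat_lit 10) (.e (nat_lit 434291) (nat_lit 44) (.e (nat_lit 704628) (nat_lit 9) (.e (nat_lit 457) (nat_lit 34) .nil)))))) (.g (nat_lit 693) .nil .nil)))) (.nd (nat_lit 1) 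
(.lf (nat_lit 693) (.g (nat_lit 3555) (.e (nat_lit 352277) (nat_lit 11) (.e (nat_lit 426344) (nat_lit 14) (.e (nat_lit 491560) (nat_lit 10) (.e (nat_lit 344179) (nat_lit 44) (.e (nat_lit 778361) (nat_lit 9) (.e (nat_lit 312) (nat_lit 23) .nil)))))) (.g (nat_lit 694) .nil .nil))) 
(.lf (nat_lit 695) (.g (nat_lit 692) (.e (nat_lit 352279) (nat_lit 19) (.e (nat_lit 491585) (nat_lit 29) (.e (nat_lit 442402) (nat_lit 20) (.e (nat_lit 3289) (nat_lit 201) (.e (nat_lit 565252) (nat_lit 0) (.e (nat_lit 1562) (nat_lit 110) .nil)))))) (.g (nat_lit 696) .nil .nil)))))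

noncomputable def tu093 : DT := (.nd (nat_lit 0) (.nd (nat_lit 1) (.nd (nat_lit 2) 
(.lf (nat_lit 696) (.g (nat_lit 692) (.e (nat_lit 442391) (nat_lit 19) (.e (nat_lit 401473) (nat_lit 29) (.e (nat_lit 352290) (nat_lit 20) (.e (nat_lit 1886) (nat_lit 127) (.e (nat_lit 581636) (nat_lit 0) (.e (nat_lit 2989) (nat_lit 186) .nil)))))) (.g (nat_lit 695) .nil .nil))) 
(.lf (nat_lit 700) (.g (nat_lit 683) (.e (nat_lit 442391) (nat_lit 19) (.e (nat_lit 401473) (nat_lit 29) (.e (nat_lit 352303) (nat_lit 20) (.e (nat_lit 1886) (nat_lit 127) (.e (nat_lit 581636) (nat_lit 0) (.e (nat_lit 2989) (nat_lit 186) .nil)))))) (.g (nat_lit 699) .nil .nil)))) (.nd (nat_lit 2) 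
(.lf (nat_lit 698) (.g (nat_lit 692) (.e (nat_lit 442391) (nat_lit 19) (.e (nat_lit 401473) (nat_lit 29) (.e (nat_lit 352303) (nat_lit 20) (.e (nat_lit 1886) (nat_lit 127) (.e (nat_lit 581636) (nat_lit 0) (.e (nat_lit 2988) (nat_lit 186) .nil)))))) (.g (nat_lit 697) .nil .nil))) 
(.lf (nat_lit 702) (.g (nat_lit 3281) (.e (nat_lit 450564) (nat_lit 0) (.e (nat_lit 6427) (nat_lit 342) (.e (nat_lit 229413) (nat_lit 15) (.e (nat_lit 450603) (nat_lit 22) (.e (nat_lit 704628) (nat_lit 9) (.e (nat_lit 469) (nat_lit 35) .nil)))))) (.g (nat_lit 701) .nil .nil))))) (.nd (nat_lit 1) (.nd (nat_lit 2) 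
(.lf (nat_lit 697) (.g (nat_lit 692) (.e (nat_lit 352279) (nat_lit 19) (.e (nat_lit 491585) (nat_lit 29) (.e (nat_lit 442412) (nat_lit 20) (.e (nat_lit 3289) (nat_lit 201) (.e (nat_lit 565252) (nat_lit 0) (.e (nat_lit 1559) (nat_lit 110) .nil)))))) (.g (nat_lit 698) .nil .nil))) 
(.lf (nat_lit 701) (.g (nat_lit 3281) (.e (nat_lit 360452) (nat_lit 0) (.e (nat_lit 7272) (nat_lit 385) (.e (nat_lit 122917) (nat_lit 15) (.e (nat_lit 360491) (nat_lit 22) (.e (nat_lit 778361) (nat_lit 9) (.e (nat_lit 324) (nat_lit 24) .nil)))))) (.g (nat_lit 702) .nil .nil)))) (.nd (nat_lit 2) 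
(.lf (nat_lit 699) (.g (nat_lit 683) (.e (nat_lit 352279) (nat_lit 19) (.e (nat_lit 491585) (nat_lit 29) (.e (nat_lit 442412) (nat_lit 20) (.e (nat_lit 3289) (nat_lit 201) (.e (nat_lit 565252) (nat_lit 0) (.e (nat_lit 1562) (nat_lit 110) .nil)))))) (.g (nat_lit 700) .nil .nil))) 
(.lf (nat_lit 703) (.g (nat_lit 3923) (.e (nat_lit 360473) (nat_lit 8) (.e (nat_lit 557087) (nat_lit 11) (.e (nat_lit 24640) (nat_lit 10) (.e (nat_lit 344126) (nat_lit 25) (.e (nat_lit 548874) (nat_lit 5) (.e (nat_lit 1598) (nat_lit 111) .nil)))))) (.g (nat_lit 704) .nil .nil))))))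

noncomputable def tu094 : DT := (.nd (nat_lit 0) (.nd (nat_lit 1) 
(.lf (nat_lit 704) (.g (nat_lit 3923) (.e (nat_lit 450586) (nat_lit 10) (.e (nat_lit 573471) (nat_lit 11) (.e (nat_lit 16448) (nat_lit 10) (.e (nat_lit 434238) (nat_lit 25) (.e (nat_lit 548898) (nat_lit 14) (.e (nat_lit 3027) (nat_lit 187) .nil)))))) (.g (nat_lit 703) .nil .nil))) 
(.lf (nat_lit 706) (.g (nat_lit 4700) (.e (nat_lit 450588) (nat_lit 10) (.e (nat_lit 573471) (nat_lit 11) (.e (nat_lit 16448) (nat_lit 10) (.e (nat_lit 434238) (nat_lit 25) (.e (nat_lit 548898) (nat_lit 14) (.e (nat_lit 3015) (nat_lit 187) .nil)))))) (.g (nat_lit 705) .nil .nil)))) (.nd (nat_lit 1) 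
(.lf (nat_lit 705) (.g (nat_lit 4700) (.e (nat_lit 360475) (nat_lit 8) (.e (nat_lit 557087) (nat_lit 11) (.e (nat_lit 24640) (nat_lit 10) (.e (nat_lit 344126) (nat_lit 25) (.e (nat_lit 548874) (nat_lit 5) (.e (nat_lit 1586) (nat_lit 111) .nil)))))) (.g (nat_lit 706) .nil .nil))) 
(.lf (nat_lit 707) (.g (nat_lit 409) (.e (nat_lit 360493) (nat_lit 27) (.e (nat_lit 819221) (nat_lit 6) (.e (nat_lit 188428) (nat_lit 20) (.e (nat_lit 3282) (nat_lit 200) (.e (nat_lit 557061) (nat_lit 0) (.e (nat_lit 1585) (nat_lit 111) .nil)))))) (.g (nat_lit 708) .nil .nil)))))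

noncomputable def tu095 : DT := (.nd (nat_lit 0) 
(.lf (nat_lit 708) (.g (nat_lit 409) (.e (nat_lit 450605) (nat_lit 27) (.e (nat_lit 745493) (nat_lit 6) (.e (nat_lit 81933) (nat_lit 20) (.e (nat_lit 1879) (nat_lit 126) (.e (nat_lit 573445) (nat_lit 0) (.e (nat_lit 3012) (nat_lit 187) .nil)))))) (.g (nat_lit 707) .nil .nil))) 
(.lf (nat_lit 709) (.g (nat_lit 3544) (.e (nat_lit 393238) (nat_lit 17) (.e (nat_lit 7535) (nat_lit 402) (.e (nat_lit 1656) (nat_lit 115) (.e (nat_lit 393298) (nat_lit 27) (.e (nat_lit 491570) (nat_lit 13) .nil))))) (.g (nat_lit 710) .nil .nil))))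

noncomputable def tu096 : DT := (.nd (nat_lit 0) 
(.lf (nat_lit 710) (.g (nat_lit 3544) (.e (nat_lit 483350) (nat_lit 17) (.e (nat_lit 6664) (nat_lit 357) (.e (nat_lit 3085) (nat_lit 191) (.e (nat_lit 483410) (nat_lit 27) (.e (nat_lit 401458) (nat_lit 13) .nil))))) (.g (nat_lit 709) .nil .nil))) 
(.lf (nat_lit 711) (.g (nat_lit 2806) (.e (nat_lit 393283) (nat_lit 24) (.e (nat_lit 434272) (nat_lit 38) (.e (nat_lit 655379) (nat_lit 5) (.e (nat_lit 180277) (nat_lit 32) (.e (nat_lit 1661) (nat_lit 115) .nil))))) (.g (nat_lit 712) .nil .nil))))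

noncomputable def tu097 : DT := 
(.lf (nat_lit 712) (.g (nat_lit 2806) (.e (nat_lit 483395) (nat_lit 24) (.e (nat_lit 344169) (nat_lit 40) (.e (nat_lit 671763) (nat_lit 5) (.e (nat_lit 73781) (nat_lit 32) (.e (nat_lit 3090) (nat_lit 191) .nil))))) (.g (nat_lit 711) .nil .nil)))

noncomputable def tu098 : DT := 
(.lf (nat_lit 713) (.g (nat_lit 2714) (.e (nat_lit 393283) (nat_lit 24) (.e (nat_lit 434272) (nat_lit 38) (.e (nat_lit 655379) (nat_lit 5) (.e (nat_lit 180278) (nat_lit 32) (.e (nat_lit 1661) (nat_lit 115) .nil))))) (.g (nat_lit 714) .nil .nil)))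

noncomputable def tu099 : DT := (.nd (nat_lit 0) 
(.lf (nat_lit 714) (.g (nat_lit 2714) (.e (nat_lit 483395) (nat_lit 24) (.e (nat_lit 344169) (nat_lit 40) (.e (nat_lit 671763) (nat_lit 5) (.e (nat_lit 73782) (nat_lit 32) (.e (nat_lit 3090) (nat_lit 191) .nil))))) (.g (nat_lit 713) .nil .nil))) 
(.lf (nat_lit 715) (.g (nat_lit 2774) (.e (nat_lit 393294) (nat_lit 26) (.e (nat_lit 475199) (nat_lit 40) (.e (nat_lit 704596) (nat_lit 5) (.e (nat_lit 180277) (nat_lit 32) (.e (nat_lit 1659) (nat_lit 115) .nil))))) (.g (nat_lit 716) .nil .nil))))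

noncomputable def tu100 : DT := (.nd (nat_lit 0) (.nd (nat_lit 1) 
(.lf (nat_lit 716) (.g (nat_lit 2774) (.e (nat_lit 483406) (nat_lit 26) (.e (nat_lit 385094) (nat_lit 49) (.e (nat_lit 778324) (nat_lit 5) (.e (nat_lit 73781) (nat_lit 32) (.e (nat_lit 3088) (nat_lit 191) .nil))))) (.g (nat_lit 715) .nil .nil))) 
(.lf (nat_lit 718) (.g (nat_lit 3113) (.e (nat_lit 483409) (nat_lit 27) (.e (nat_lit 401459) (nat_lit 13) (.e (nat_lit 483411) (nat_lit 27) (.e (nat_lit 401458) (nat_lit 13) .nil)))) (.g (nat_lit 717) .nil .nil)))) (.nd (nat_lit 1) 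
(.lf (nat_lit 717) (.g (nat_lit 3113) (.e (nat_lit 393297) (nat_lit 27) (.e (nat_lit 491571) (nat_lit 13) (.e (nat_lit 393299) (nat_lit 27) (.e (nat_lit 491570) (nat_lit 13) .nil)))) (.g (nat_lit 718) .nil .nil))) 
(.lf (nat_lit 719) (.g (nat_lit 2637) (.e (nat_lit 393298) (nat_lit 27) (.e (nat_lit 491571) (nat_lit 13) (.e (nat_lit 393242) (nat_lit 17) (.e (nat_lit 7556) (nat_lit 402) (.e (nat_lit 1659) (nat_lit 115) .nil))))) (.g (nat_lit 720) .nil .nil)))))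

noncomputable def tu101 : DT := (.nd (nat_lit 0) (.nd (nat_lit 1) 
(.lf (nat_lit 720) (.g (nat_lit 2637) (.e (nat_lit 483410) (nat_lit 27) (.e (nat_lit 401459) (nat_lit 13) (.e (nat_lit 483354) (nat_lit 17) (.e (nat_lit 6680) (nat_lit 357) (.e (nat_lit 3088) (nat_lit 191) .nil))))) (.g (nat_lit 719) .nil .nil))) 
(.lf (nat_lit 722) (.g (nat_lit 3238) (.e (nat_lit 483410) (nat_lit 27) (.e (nat_lit 401459) (nat_lit 13) (.e (nat_lit 483410) (nat_lit 27) (.e (nat_lit 401459) (nat_lit 13) .nil)))) (.g (nat_lit 721) .nil .nil)))) (.nd (nat_lit 1) 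
(.lf (nat_lit 721) (.g (nat_lit 3238) (.e (nat_lit 393298) (nat_lit 27) (.e (nat_lit 491571) (nat_lit 13) (.e (nat_lit 393298) (nat_lit 27) (.e (nat_lit 491571) (nat_lit 13) .nil)))) (.g (nat_lit 722) .nil .nil))) 
(.lf (nat_lit 723) (.g (nat_lit 2950) (.e (nat_lit 393299) (nat_lit 27) (.e (nat_lit 491568) (nat_lit 13) (.e (nat_lit 393298) (nat_lit 27) (.e (nat_lit 491571) (nat_lit 13) .nil)))) (.g (nat_lit 724) .nil .nil)))))

noncomputable def tu102 : DT := (.nd (nat_lit 0) (.nd (nat_lit 1) 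
(.lf (nat_lit 724) (.g (nat_lit 2950) (.e (nat_lit 483411) (nat_lit 27) (.e (nat_lit 401456) (nat_lit 13) (.e (nat_lit 483410) (nat_lit 27) (.e (nat_lit 401459) (nat_lit 13) .nil)))) (.g (nat_lit 723) .nil .nil))) 
(.lf (nat_lit 726) (.g (nat_lit 3113) (.e (nat_lit 483412) (nat_lit 27) (.e (nat_lit 401457) (nat_lit 13) (.e (nat_lit 483413) (nat_lit 27) (.e (nat_lit 401455) (nat_lit 13) .nil)))) (.g (nat_lit 725) .nil .nil)))) (.nd (nat_lit 1) 
(.lf (nat_lit 725) (.g (nat_lit 3113) (.e (nat_lit 393300) (nat_lit 27) (.e (nat_lit 491569) (nat_lit 13) (.e (nat_lit 393301) (nat_lit 27) (.e (nat_lit 491567) (nat_lit 13) .nil)))) (.g (nat_lit 726) .nil .nil))) 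
(.lf (nat_lit 727) (.g (nat_lit 3492) (.e (nat_lit 393301) (nat_lit 27) (.e (nat_lit 491558) (nat_lit 10) (.e (nat_lit 344177) (nat_lit 43) (.e (nat_lit 770071) (nat_lit 8) (.e (nat_lit 65627) (nat_lit 13) .nil))))) (.g (nat_lit 728) .nil .nil)))))

noncomputable def tu103 : DT := (.nd (nat_lit 0) (.nd (nat_lit 1) (.nd (nat_lit 2) 
(.lf (nat_lit 728) (.g (nat_lit 3492) (.e (nat_lit 483413) (nat_lit 27) (.e (nat_lit 401446) (nat_lit 10) (.e (nat_lit 434289) (nat_lit 43) (.e (nat_lit 696343) (nat_lit 8) (.e (nat_lit 172123) (nat_lit 13) .nil))))) (.g (nat_lit 727) .nil .nil))) 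
(.lf (nat_lit 732) (.g (nat_lit 3238) (.e (nat_lit 483413) (nat_lit 27) (.e (nat_lit 401456) (nat_lit 13) (.e (nat_lit 483413) (nat_lit 27) (.e (nat_lit 401456) (nat_lit 13) .nil)))) (.g (nat_lit 731) .nil .nil)))) (.nd (nat_lit 2) 
(.lf (nat_lit 730) (.g (nat_lit 2950) (.e (nat_lit 483413) (nat_lit 27) (.e (nat_lit 401456) (nat_lit 13) (.e (nat_lit 483410) (nat_lit 27) (.e (nat_lit 401457) (nat_lit 13) .nil)))) (.g (nat_lit 729) .nil .nil))) 
(.lf (nat_lit 734) (.g (nat_lit 4376) (.e (nat_lit 491537) (nat_lit 2) (.e (nat_lit 90170) (nat_lit 13) (.e (nat_lit 172113) (nat_lit 10) (.e (nat_lit 434247) (nat_lit 28) (.e (nat_lit 573457) (nat_lit 9) (.e (nat_lit 430) (nat_lit 32) (.e (nat_lit 426341) (nat_lit 14) .nil))))))) (.g (nat_lit 733) .nil .nil))))) (.nd (nat_lit 1) (.nd (nat_lit 2) 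
(.lf (nat_lit 729) (.g (nat_lit 2950) (.e (nat_lit 393301) (nat_lit 27) (.e (nat_lit 491568) (nat_lit 13) (.e (nat_lit 393298) (nat_lit 27) (.e (nat_lit 491569) (nat_lit 13) .nil)))) (.g (nat_lit 730) .nil .nil))) 
(.lf (nat_lit 733) (.g (nat_lit 4376) (.e (nat_lit 401425) (nat_lit 2) (.e (nat_lit 196666) (nat_lit 13) (.e (nat_lit 65617) (nat_lit 10) (.e (nat_lit 344132) (nat_lit 26) (.e (nat_lit 557073) (nat_lit 9) (.e (nat_lit 290) (nat_lit 21) (.e (nat_lit 336229) (nat_lit 14) .nil))))))) (.g (nat_lit 734) .nil .nil)))) (.nd (nat_lit 2) 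
(.lf (nat_lit 731) (.g (nat_lit 3238) (.e (nat_lit 393301) (nat_lit 27) (.e (nat_lit 491568) (nat_lit 13) (.e (nat_lit 393301) (nat_lit 27) (.e (nat_lit 491568) (nat_lit 13) .nil)))) (.g (nat_lit 732) .nil .nil))) 
(.lf (nat_lit 735) (.g (nat_lit 4265) (.e (nat_lit 401428) (nat_lit 3) (.e (nat_lit 204869) (nat_lit 29) (.e (nat_lit 360471) (nat_lit 7) (.e (nat_lit 548889) (nat_lit 9) (.e (nat_lit 65628) (nat_lit 14) .nil))))) (.g (nat_lit 736) .nil .nil))))))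

noncomputable def tu104 : DT := (.nd (nat_lit 0) (.nd (nat_lit 1) 
(.lf (nat_lit 736) (.g (nat_lit 4265) (.e (nat_lit 491540) (nat_lit 3) (.e (nat_lit 98373) (nat_lit 29) (.e (nat_lit 450583) (nat_lit 7) (.e (nat_lit 548913) (nat_lit 18) (.e (nat_lit 172124) (nat_lit 14) .nil))))) (.g (nat_lit 735) .nil .nil))) 
(.lf (nat_lit 738) (.g (nat_lit 2291) (.e (nat_lit 335895) (nat_lit 0) (.e (nat_lit 6720) (nat_lit 361) (.e (nat_lit 172144) (nat_lit 26) (.e (nat_lit 327684) (nat_lit 0) (.e (nat_lit 5772) (nat_lit 316) (.e (nat_lit 172150) (nat_lit 27) .nil)))))) (.g (nat_lit 737) .nil .nil)))) (.nd (nat_lit 1) 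
(.lf (nat_lit 737) (.g (nat_lit 2291) (.e (nat_lit 426012) (nat_lit 0) (.e (nat_lit 7589) (nat_lit 406) (.e (nat_lit 65648) (nat_lit 26) (.e (nat_lit 417796) (nat_lit 0) (.e (nat_lit 5405) (nat_lit 302) (.e (nat_lit 65653) (nat_lit 27) .nil)))))) (.g (nat_lit 738) .nil .nil))) 
(.lf (nat_lit 739) (.g (nat_lit 3514) (.e (nat_lit 426012) (nat_lit 0) (.e (nat_lit 7593) (nat_lit 407) (.e (nat_lit 73775) (nat_lit 26) (.e (nat_lit 778362) (nat_lit 9) (.e (nat_lit 314) (nat_lit 23) (.e (nat_lit 352275) (nat_lit 11) .nil)))))) (.g (nat_lit 740) .nil .nil)))))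

noncomputable def tu105 : DT := (.nd (nat_lit 0) (.nd (nat_lit 1) 
(.lf (nat_lit 740) (.g (nat_lit 3514) (.e (nat_lit 335895) (nat_lit 0) (.e (nat_lit 6724) (nat_lit 362) (.e (nat_lit 180271) (nat_lit 26) (.e (nat_lit 704629) (nat_lit 9) (.e (nat_lit 459) (nat_lit 34) (.e (nat_lit 442387) (nat_lit 11) .nil)))))) (.g (nat_lit 739) .nil .nil))) 
(.lf (nat_lit 742) (.g (nat_lit 3018) (.e (nat_lit 335986) (nat_lit 1) (.e (nat_lit 57688) (nat_lit 156) (.e (nat_lit 163902) (nat_lit 12) (.e (nat_lit 426438) (nat_lit 18) (.e (nat_lit 98380) (nat_lit 31) (.e (nat_lit 466954) (nat_lit 11) .nil)))))) (.g (nat_lit 741) .nil .nil)))) (.nd (nat_lit 1) 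
(.lf (nat_lit 741) (.g (nat_lit 3018) (.e (nat_lit 426098) (nat_lit 1) (.e (nat_lit 164179) (nat_lit 154) (.e (nat_lit 57406) (nat_lit 12) (.e (nat_lit 336326) (nat_lit 18) (.e (nat_lit 204876) (nat_lit 31) (.e (nat_lit 376842) (nat_lit 11) .nil)))))) (.g (nat_lit 742) .nil .nil))) 
(.lf (nat_lit 743) (.g (nat_lit 3507) (.e (nat_lit 426116) (nat_lit 2) (.e (nat_lit 196656) (nat_lit 11) (.e (nat_lit 16415) (nat_lit 3) (.e (nat_lit 204813) (nat_lit 9) (.e (nat_lit 426133) (nat_lit 3) (.e (nat_lit 204813) (nat_lit 9) .nil)))))) (.g (nat_lit 744) .nil .nil)))))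

noncomputable def tu106 : DT := (.nd (nat_lit 0) (.nd (nat_lit 1) (.nd (nat_lit 2) 
(.lf (nat_lit 744) (.g (nat_lit 3507) (.e (nat_lit 336004) (nat_lit 2) (.e (nat_lit 90160) (nat_lit 11) (.e (nat_lit 24607) (nat_lit 3) (.e (nat_lit 98317) (nat_lit 9) (.e (nat_lit 336021) (nat_lit 3) (.e (nat_lit 98317) (nat_lit 9) .nil)))))) (.g (nat_lit 743) .nil .nil))) 
(.lf (nat_lit 748) (.g (nat_lit 5380) (.e (nat_lit 336013) (nat_lit 2) (.e (nat_lit 90170) (nat_lit 13) (.e (nat_lit 172106) (nat_lit 10) (.e (nat_lit 434244) (nat_lit 28) (.e (nat_lit 573474) (nat_lit 12) (.e (nat_lit 57347) (nat_lit 0) (.e (nat_lit 7266) (nat_lit 384) (.e (nat_lit 57404) (nat_lit 12) .nil)))))))) (.g (nat_lit 747) .nil .nil)))) (.nd (nat_lit 2) 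
(.lf (nat_lit 746) (.g (nat_lit 4994) (.e (nat_lit 336013) (nat_lit 2) (.e (nat_lit 90170) (nat_lit 13) (.e (nat_lit 172106) (nat_lit 10) (.e (nat_lit 434244) (nat_lit 28) (.e (nat_lit 573474) (nat_lit 12) (.e (nat_lit 57347) (nat_lit 0) (.e (nat_lit 7265) (nat_lit 384) (.e (nat_lit 57404) (nat_lit 12) .nil)))))))) (.g (nat_lit 745) .nil .nil))) 
(.lf (nat_lit 750) (.g (nat_lit 4238) (.e (nat_lit 336013) (nat_lit 2) (.e (nat_lit 90170) (nat_lit 13) (.e (nat_lit 172106) (nat_lit 10) (.e (nat_lit 434244) (nat_lit 28) (.e (nat_lit 573474) (nat_lit 12) (.e (nat_lit 57351) (nat_lit 0) (.e (nat_lit 7261) (nat_lit 384) (.e (nat_lit 57404) (nat_lit 12) .nil)))))))) (.g (nat_lit 749) .nil .nil))))) (.nd (nat_lit 1) (.nd (nat_lit 2) 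
(.lf (nat_lit 745) (.g (nat_lit 4994) (.e (nat_lit 426125) (nat_lit 2) (.e (nat_lit 196666) (nat_lit 13) (.e (nat_lit 65610) (nat_lit 10) (.e (nat_lit 344129) (nat_lit 26) (.e (nat_lit 557090) (nat_lit 12) (.e (nat_lit 163843) (nat_lit 0) (.e (nat_lit 6420) (nat_lit 341) (.e (nat_lit 163900) (nat_lit 12) .nil)))))))) (.g (nat_lit 746) .nil .nil))) 
(.lf (nat_lit 749) (.g (nat_lit 4238) (.e (nat_lit 426125) (nat_lit 2) (.e (nat_lit 196666) (nat_lit 13) (.e (nat_lit 65610) (nat_lit 10) (.e (nat_lit 344129) (nat_lit 26) (.e (nat_lit 557090) (nat_lit 12) (.e (nat_lit 163847) (nat_lit 0) (.e (nat_lit 6416) (nat_lit 341) (.e (nat_lit 163900) (nat_lit 12) .nil)))))))) (.g (nat_lit 750) .nil .nil)))) (.nd (nat_lit 2) 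
(.lf (nat_lit 747) (.g (nat_lit 5380) (.e (nat_lit 426125) (nat_lit 2) (.e (nat_lit 196666) (nat_lit 13) (.e (nat_lit 65610) (nat_lit 10) (.e (nat_lit 344129) (nat_lit 26) (.e (nat_lit 557090) (nat_lit 12) (.e (nat_lit 163843) (nat_lit 0) (.e (nat_lit 6421) (nat_lit 341) (.e (nat_lit 163900) (nat_lit 12) .nil)))))))) (.g (nat_lit 748) .nil .nil))) 
(.lf (nat_lit 751) (.g (nat_lit 4308) (.e (nat_lit 426125) (nat_lit 2) (.e (nat_lit 196666) (nat_lit 13) (.e (nat_lit 65610) (nat_lit 10) (.e (nat_lit 344129) (nat_lit 26) (.e (nat_lit 557090) (nat_lit 12) (.e (nat_lit 163847) (nat_lit 0) (.e (nat_lit 6420) (nat_lit 341) (.e (nat_lit 163900) (nat_lit 12) .nil)))))))) (.g (nat_lit 752) .nil .nil))))))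

noncomputable def tu107 : DT := (.nd (nat_lit 0) (.nd (nat_lit 1) (.nd (nat_lit 2) 
(.lf (nat_lit 752) (.g (nat_lit 4308) (.e (nat_lit 336013) (nat_lit 2) (.e (nat_lit 90170) (nat_lit 13) (.e (nat_lit 172106) (nat_lit 10) (.e (nat_lit 434244) (nat_lit 28) (.e (nat_lit 573474) (nat_lit 12) (.e (nat_lit 57351) (nat_lit 0) (.e (nat_lit 7265) (nat_lit 384) (.e (nat_lit 57404) (nat_lit 12) .nil)))))))) (.g (nat_lit 751) .nil .nil))) 
(.lf (nat_lit 756) (.g (nat_lit 4135) (.e (nat_lit 336021) (nat_lit 3) (.e (nat_lit 98317) (nat_lit 9) (.e (nat_lit 336012) (nat_lit 2) (.e (nat_lit 90158) (nat_lit 11) (.e (nat_lit 24607) (nat_lit 3) (.e (nat_lit 98317) (nat_lit 9) .nil)))))) (.g (nat_lit 755) .nil .nil)))) (.nd (nat_lit 2) 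
(.lf (nat_lit 754) (.g (nat_lit 4471) (.e (nat_lit 336013) (nat_lit 2) (.e (nat_lit 90170) (nat_lit 13) (.e (nat_lit 172106) (nat_lit 10) (.e (nat_lit 434244) (nat_lit 28) (.e (nat_lit 573474) (nat_lit 12) (.e (nat_lit 57351) (nat_lit 0) (.e (nat_lit 7266) (nat_lit 384) (.e (nat_lit 57404) (nat_lit 12) .nil)))))))) (.g (nat_lit 753) .nil .nil))) 
(.lf (nat_lit 758) (.g (nat_lit 3697) (.e (nat_lit 336021) (nat_lit 3) (.e (nat_lit 98317) (nat_lit 9) (.e (nat_lit 336012) (nat_lit 2) (.e (nat_lit 90160) (nat_lit 11) (.e (nat_lit 24607) (nat_lit 3) (.e (nat_lit 98317) (nat_lit 9) .nil)))))) (.g (nat_lit 757) .nil .nil))))) (.nd (nat_lit 1) (.nd (nat_lit 2) 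
(.lf (nat_lit 753) (.g (nat_lit 4471) (.e (nat_lit 426125) (nat_lit 2) (.e (nat_lit 196666) (nat_lit 13) (.e (nat_lit 65610) (nat_lit 10) (.e (nat_lit 344129) (nat_lit 26) (.e (nat_lit 557090) (nat_lit 12) (.e (nat_lit 163847) (nat_lit 0) (.e (nat_lit 6421) (nat_lit 341) (.e (nat_lit 163900) (nat_lit 12) .nil)))))))) (.g (nat_lit 754) .nil .nil))) 
(.lf (nat_lit 757) (.g (nat_lit 3697) (.e (nat_lit 426133) (nat_lit 3) (.e (nat_lit 204813) (nat_lit 9) (.e (nat_lit 426124) (nat_lit 2) (.e (nat_lit 196656) (nat_lit 11) (.e (nat_lit 16415) (nat_lit 3) (.e (nat_lit 204813) (nat_lit 9) .nil)))))) (.g (nat_lit 758) .nil .nil)))) (.nd (nat_lit 2) 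
(.lf (nat_lit 755) (.g (nat_lit 4135) (.e (nat_lit 426133) (nat_lit 3) (.e (nat_lit 204813) (nat_lit 9) (.e (nat_lit 426124) (nat_lit 2) (.e (nat_lit 196654) (nat_lit 11) (.e (nat_lit 16415) (nat_lit 3) (.e (nat_lit 204813) (nat_lit 9) .nil)))))) (.g (nat_lit 756) .nil .nil))) 
(.lf (nat_lit 759) (.g (nat_lit 3043) (.e (nat_lit 426324) (nat_lit 13) (.e (nat_lit 483411) (nat_lit 27) (.e (nat_lit 401446) (nat_lit 10) (.e (nat_lit 434208) (nat_lit 18) (.e (nat_lit 6416) (nat_lit 341) (.e (nat_lit 163908) (nat_lit 12) .nil)))))) (.g (nat_lit 760) .nil .nil))))))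

noncomputable def tu108 : DT := (.nd (nat_lit 0) (.nd (nat_lit 1) 
(.lf (nat_lit 760) (.g (nat_lit 3043) (.e (nat_lit 336212) (nat_lit 13) (.e (nat_lit 393299) (nat_lit 27) (.e (nat_lit 491558) (nat_lit 10) (.e (nat_lit 344096) (nat_lit 18) (.e (nat_lit 7261) (nat_lit 384) (.e (nat_lit 57412) (nat_lit 12) .nil)))))) (.g (nat_lit 759) .nil .nil))) 
(.lf (nat_lit 762) (.g (nat_lit 2674) (.e (nat_lit 336323) (nat_lit 18) (.e (nat_lit 204854) (nat_lit 26) (.e (nat_lit 336324) (nat_lit 18) (.e (nat_lit 204854) (nat_lit 26) (.e (nat_lit 336326) (nat_lit 18) (.e (nat_lit 204859) (nat_lit 26) .nil)))))) (.g (nat_lit 761) .nil .nil)))) (.nd (nat_lit 1) 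
(.lf (nat_lit 761) (.g (nat_lit 2674) (.e (nat_lit 426435) (nat_lit 18) (.e (nat_lit 98358) (nat_lit 26) (.e (nat_lit 426436) (nat_lit 18) (.e (nat_lit 98358) (nat_lit 26) (.e (nat_lit 426438) (nat_lit 18) (.e (nat_lit 98363) (nat_lit 26) .nil)))))) (.g (nat_lit 762) .nil .nil))) 
(.lf (nat_lit 763) (.g (nat_lit 3359) (.e (nat_lit 426436) (nat_lit 18) (.e (nat_lit 98358) (nat_lit 26) (.e (nat_lit 426436) (nat_lit 18) (.e (nat_lit 98358) (nat_lit 26) (.e (nat_lit 426436) (nat_lit 18) (.e (nat_lit 98357) (nat_lit 26) .nil)))))) (.g (nat_lit 764) .nil .nil)))))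

noncomputable def tu109 : DT := (.nd (nat_lit 0) 
(.lf (nat_lit 764) (.g (nat_lit 3359) (.e (nat_lit 336324) (nat_lit 18) (.e (nat_lit 204854) (nat_lit 26) (.e (nat_lit 336324) (nat_lit 18) (.e (nat_lit 204854) (nat_lit 26) (.e (nat_lit 336324) (nat_lit 18) (.e (nat_lit 204853) (nat_lit 26) .nil)))))) (.g (nat_lit 763) .nil .nil))) 
(.lf (nat_lit 765) (.g (nat_lit 4056) (.e (nat_lit 426436) (nat_lit 18) (.e (nat_lit 98358) (nat_lit 26) (.e (nat_lit 426436) (nat_lit 18) (.e (nat_lit 98358) (nat_lit 26) (.e (nat_lit 426436) (nat_lit 18) (.e (nat_lit 98358) (nat_lit 26) .nil)))))) (.g (nat_lit 766) .nil .nil))))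

noncomputable def tu110 : DT := (.nd (nat_lit 0) 
(.lf (nat_lit 766) (.g (nat_lit 4056) (.e (nat_lit 336324) (nat_lit 18) (.e (nat_lit 204854) (nat_lit 26) (.e (nat_lit 336324) (nat_lit 18) (.e (nat_lit 204854) (nat_lit 26) (.e (nat_lit 336324) (nat_lit 18) (.e (nat_lit 204854) (nat_lit 26) .nil)))))) (.g (nat_lit 765) .nil .nil))) 
(.lf (nat_lit 767) (.g (nat_lit 3836) (.e (nat_lit 426438) (nat_lit 18) (.e (nat_lit 98358) (nat_lit 26) (.e (nat_lit 426436) (nat_lit 18) (.e (nat_lit 98358) (nat_lit 26) (.e (nat_lit 426436) (nat_lit 18) (.e (nat_lit 98358) (nat_lit 26) .nil)))))) (.g (nat_lit 768) .nil .nil))))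

noncomputable def tu111 : DT := (.nd (nat_lit 0) (.nd (nat_lit 1) (.nd (nat_lit 2) 
(.lf (nat_lit 768) (.g (nat_lit 3836) (.e (nat_lit 336326) (nat_lit 18) (.e (nat_lit 204854) (nat_lit 26) (.e (nat_lit 336324) (nat_lit 18) (.e (nat_lit 204854) (nat_lit 26) (.e (nat_lit 336324) (nat_lit 18) (.e (nat_lit 204854) (nat_lit 26) .nil)))))) (.g (nat_lit 767) .nil .nil))) 
(.lf (nat_lit 772) (.g (nat_lit 2966) (.e (nat_lit 344068) (nat_lit 0) (.e (nat_lit 2857) (nat_lit 184) (.e (nat_lit 426533) (nat_lit 28) (.e (nat_lit 344069) (nat_lit 0) (.e (nat_lit 2857) (nat_lit 184) (.e (nat_lit 426533) (nat_lit 28) .nil)))))) (.g (nat_lit 771) .nil .nil)))) (.nd (nat_lit 2) 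
(.lf (nat_lit 770) (.g (nat_lit 2832) (.e (nat_lit 344068) (nat_lit 0) (.e (nat_lit 2857) (nat_lit 184) (.e (nat_lit 426533) (nat_lit 28) (.e (nat_lit 344068) (nat_lit 0) (.e (nat_lit 2857) (nat_lit 184) (.e (nat_lit 426533) (nat_lit 28) .nil)))))) (.g (nat_lit 769) .nil .nil))) 
(.lf (nat_lit 774) (.g (nat_lit 3096) (.e (nat_lit 344069) (nat_lit 0) (.e (nat_lit 2857) (nat_lit 184) (.e (nat_lit 426533) (nat_lit 28) (.e (nat_lit 344069) (nat_lit 0) (.e (nat_lit 2857) (nat_lit 184) (.e (nat_lit 426533) (nat_lit 28) .nil)))))) (.g (nat_lit 773) .nil .nil))))) (.nd (nat_lit 1) (.nd (nat_lit 2) 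
(.lf (nat_lit 769) (.g (nat_lit 2832) (.e (nat_lit 434180) (nat_lit 0) (.e (nat_lit 1428) (nat_lit 108) (.e (nat_lit 336421) (nat_lit 28) (.e (nat_lit 434180) (nat_lit 0) (.e (nat_lit 1428) (nat_lit 108) (.e (nat_lit 336421) (nat_lit 28) .nil)))))) (.g (nat_lit 770) .nil .nil))) 
(.lf (nat_lit 773) (.g (nat_lit 3096) (.e (nat_lit 434181) (nat_lit 0) (.e (nat_lit 1428) (nat_lit 108) (.e (nat_lit 336421) (nat_lit 28) (.e (nat_lit 434181) (nat_lit 0) (.e (nat_lit 1428) (nat_lit 108) (.e (nat_lit 336421) (nat_lit 28) .nil)))))) (.g (nat_lit 774) .nil .nil)))) (.nd (nat_lit 2) 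
(.lf (nat_lit 771) (.g (nat_lit 2966) (.e (nat_lit 434180) (nat_lit 0) (.e (nat_lit 1428) (nat_lit 108) (.e (nat_lit 336421) (nat_lit 28) (.e (nat_lit 434181) (nat_lit 0) (.e (nat_lit 1428) (nat_lit 108) (.e (nat_lit 336421) (nat_lit 28) .nil)))))) (.g (nat_lit 772) .nil .nil))) 
(.lf (nat_lit 775) (.g (nat_lit 3232) (.e (nat_lit 434207) (nat_lit 18) (.e (nat_lit 6416) (nat_lit 341) (.e (nat_lit 163908) (nat_lit 12) (.e (nat_lit 426286) (nat_lit 10) (.e (nat_lit 434208) (nat_lit 18) (.e (nat_lit 6416) (nat_lit 341) (.e (nat_lit 163908) (nat_lit 12) (.e (nat_lit 426286) (nat_lit 10) .nil)))))))) (.g (nat_lit 776) .nil .nil))))))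

noncomputable def tu112 : DT := (.nd (nat_lit 0) (.nd (nat_lit 1) 
(.lf (nat_lit 776) (.g (nat_lit 3232) (.e (nat_lit 344095) (nat_lit 18) (.e (nat_lit 7261) (nat_lit 384) (.e (nat_lit 57412) (nat_lit 12) (.e (nat_lit 336176) (nat_lit 10) (.e (nat_lit 344096) (nat_lit 18) (.e (nat_lit 7261) (nat_lit 384) (.e (nat_lit 57412) (nat_lit 12) (.e (nat_lit 336176) (nat_lit 10) .nil)))))))) (.g (nat_lit 775) .nil .nil))) 
(.lf (nat_lit 778) (.g (nat_lit 3096) (.e (nat_lit 344095) (nat_lit 18) (.e (nat_lit 7263) (nat_lit 384) (.e (nat_lit 57412) (nat_lit 12) (.e (nat_lit 336176) (nat_lit 10) (.e (nat_lit 344096) (nat_lit 18) (.e (nat_lit 7261) (nat_lit 384) (.e (nat_lit 57412) (nat_lit 12) (.e (nat_lit 336176) (nat_lit 10) .nil)))))))) (.g (nat_lit 777) .nil .nil)))) (.nd (nat_lit 1) 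
(.lf (nat_lit 777) (.g (nat_lit 3096) (.e (nat_lit 434207) (nat_lit 18) (.e (nat_lit 6418) (nat_lit 341) (.e (nat_lit 163908) (nat_lit 12) (.e (nat_lit 426286) (nat_lit 10) (.e (nat_lit 434208) (nat_lit 18) (.e (nat_lit 6416) (nat_lit 341) (.e (nat_lit 163908) (nat_lit 12) (.e (nat_lit 426286) (nat_lit 10) .nil)))))))) (.g (nat_lit 778) .nil .nil))) 
(.lf (nat_lit 779) (.g (nat_lit 4188) (.e (nat_lit 442379) (nat_lit 0) (.e (nat_lit 2059) (nat_lit 142) (.e (nat_lit 704595) (nat_lit 5) (.e (nat_lit 180278) (nat_lit 32) (.e (nat_lit 1427) (nat_lit 108) (.e (nat_lit 336430) (nat_lit 29) .nil)))))) (.g (nat_lit 780) .nil .nil)))))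

noncomputable def tu113 : DT := (.nd (nat_lit 0) 
(.lf (nat_lit 780) (.g (nat_lit 4188) (.e (nat_lit 352267) (nat_lit 0) (.e (nat_lit 3632) (nat_lit 227) (.e (nat_lit 778323) (nat_lit 5) (.e (nat_lit 73782) (nat_lit 32) (.e (nat_lit 2856) (nat_lit 184) (.e (nat_lit 426542) (nat_lit 29) .nil)))))) (.g (nat_lit 779) .nil .nil))) 
(.lf (nat_lit 781) (.g (nat_lit 3779) (.e (nat_lit 442379) (nat_lit 0) (.e (nat_lit 2059) (nat_lit 142) (.e (nat_lit 704596) (nat_lit 5) (.e (nat_lit 180277) (nat_lit 32) (.e (nat_lit 1427) (nat_lit 108) (.e (nat_lit 336430) (nat_lit 29) .nil)))))) (.g (nat_lit 782) .nil .nil))))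

noncomputable def tu114 : DT := 
(.lf (nat_lit 782) (.g (nat_lit 3779) (.e (nat_lit 352267) (nat_lit 0) (.e (nat_lit 3632) (nat_lit 227) (.e (nat_lit 778324) (nat_lit 5) (.e (nat_lit 73781) (nat_lit 32) (.e (nat_lit 2856) (nat_lit 184) (.e (nat_lit 426542) (nat_lit 29) .nil)))))) (.g (nat_lit 781) .nil .nil)))

noncomputable def tu115 : DT := 
(.lf (nat_lit 783) (.g (nat_lit 3737) (.e (nat_lit 450563) (nat_lit 0) (.e (nat_lit 6420) (nat_lit 341) (.e (nat_lit 163922) (nat_lit 15) (.e (nat_lit 450561) (nat_lit 0) (.e (nat_lit 6420) (nat_lit 341) (.e (nat_lit 163923) (nat_lit 15) .nil)))))) (.g (nat_lit 784) .nil .nil)))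

noncomputable def tu116 : DT := 
(.lf (nat_lit 784) (.g (nat_lit 3737) (.e (nat_lit 360451) (nat_lit 0) (.e (nat_lit 7265) (nat_lit 384) (.e (nat_lit 57426) (nat_lit 15) (.e (nat_lit 360449) (nat_lit 0) (.e (nat_lit 7265) (nat_lit 384) (.e (nat_lit 57427) (nat_lit 15) .nil)))))) (.g (nat_lit 783) .nil .nil)))

noncomputable def tu117 : DT := 
(.lf (nat_lit 785) (.g (nat_lit 4044) (.e (nat_lit 450563) (nat_lit 0) (.e (nat_lit 6420) (nat_lit 341) (.e (nat_lit 163923) (nat_lit 15) (.e (nat_lit 450563) (nat_lit 0) (.e (nat_lit 6420) (nat_lit 341) (.e (nat_lit 163923) (nat_lit 15) .nil)))))) (.g (nat_lit 786) .nil .nil)))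

noncomputable def tu118 : DT := (.nd (nat_lit 0) 
(.lf (nat_lit 786) (.g (nat_lit 4044) (.e (nat_lit 360451) (nat_lit 0) (.e (nat_lit 7265) (nat_lit 384) (.e (nat_lit 57427) (nat_lit 15) (.e (nat_lit 360451) (nat_lit 0) (.e (nat_lit 7265) (nat_lit 384) (.e (nat_lit 57427) (nat_lit 15) .nil)))))) (.g (nat_lit 785) .nil .nil))) 
(.lf (nat_lit 787) (.g (nat_lit 3056) (.e (nat_lit 458496) (nat_lit 0) (.e (nat_lit 6425) (nat_lit 342) (.e (nat_lit 229415) (nat_lit 15) (.e (nat_lit 450563) (nat_lit 0) (.e (nat_lit 6420) (nat_lit 341) (.e (nat_lit 163922) (nat_lit 15) .nil)))))) (.g (nat_lit 788) .nil .nil))))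

noncomputable def tu119 : DT := (.nd (nat_lit 0) (.nd (nat_lit 1) 
(.lf (nat_lit 788) (.g (nat_lit 3056) (.e (nat_lit 368384) (nat_lit 0) (.e (nat_lit 7270) (nat_lit 385) (.e (nat_lit 122919) (nat_lit 15) (.e (nat_lit 360451) (nat_lit 0) (.e (nat_lit 7265) (nat_lit 384) (.e (nat_lit 57426) (nat_lit 15) .nil)))))) (.g (nat_lit 787) .nil .nil))) 
(.lf (nat_lit 790) (.g (nat_lit 2842) (.e (nat_lit 368384) (nat_lit 0) (.e (nat_lit 7270) (nat_lit 385) (.e (nat_lit 122919) (nat_lit 15) (.e (nat_lit 360451) (nat_lit 0) (.e (nat_lit 7265) (nat_lit 384) (.e (nat_lit 57427) (nat_lit 15) .nil)))))) (.g (nat_lit 789) .nil .nil)))) (.nd (nat_lit 1) 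
(.lf (nat_lit 789) (.g (nat_lit 2842) (.e (nat_lit 458496) (nat_lit 0) (.e (nat_lit 6425) (nat_lit 342) (.e (nat_lit 229415) (nat_lit 15) (.e (nat_lit 450563) (nat_lit 0) (.e (nat_lit 6420) (nat_lit 341) (.e (nat_lit 163923) (nat_lit 15) .nil)))))) (.g (nat_lit 790) .nil .nil))) 
(.lf (nat_lit 791) (.g (nat_lit 4530) (.e (nat_lit 450579) (nat_lit 5) (.e (nat_lit 532523) (nat_lit 7) (.e (nat_lit 319533) (nat_lit 16) (.e (nat_lit 286734) (nat_lit 3) (.e (nat_lit 98372) (nat_lit 29) .nil))))) (.g (nat_lit 792) .nil .nil)))))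

noncomputable def tu120 : DT := (.nd (nat_lit 0) (.nd (nat_lit 1) 
(.lf (nat_lit 792) (.g (nat_lit 4530) (.e (nat_lit 360466) (nat_lit 3) (.e (nat_lit 516139) (nat_lit 7) (.e (nat_lit 409648) (nat_lit 18) (.e (nat_lit 303118) (nat_lit 3) (.e (nat_lit 204868) (nat_lit 29) .nil))))) (.g (nat_lit 791) .nil .nil))) 
(.lf (nat_lit 794) (.g (nat_lit 2714) (.e (nat_lit 393234) (nat_lit 17) (.e (nat_lit 7593) (nat_lit 407) (.e (nat_lit 73773) (nat_lit 25) (.e (nat_lit 770072) (nat_lit 8) (.e (nat_lit 65627) (nat_lit 13) .nil))))) (.g (nat_lit 793) .nil .nil)))) (.nd (nat_lit 1) 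
(.lf (nat_lit 793) (.g (nat_lit 2714) (.e (nat_lit 483346) (nat_lit 17) (.e (nat_lit 6724) (nat_lit 362) (.e (nat_lit 180269) (nat_lit 25) (.e (nat_lit 696344) (nat_lit 8) (.e (nat_lit 172123) (nat_lit 13) .nil))))) (.g (nat_lit 794) .nil .nil))) 
(.lf (nat_lit 795) (.g (nat_lit 4042) (.e (nat_lit 483363) (nat_lit 18) (.e (nat_lit 57847) (nat_lit 252) (.e (nat_lit 57377) (nat_lit 3) (.e (nat_lit 98317) (nat_lit 9) (.e (nat_lit 336076) (nat_lit 9) (.e (nat_lit 336454) (nat_lit 34) .nil)))))) (.g (nat_lit 796) .nil .nil)))))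

noncomputable def tu121 : DT := (.nd (nat_lit 0) (.nd (nat_lit 1) 
(.lf (nat_lit 796) (.g (nat_lit 4042) (.e (nat_lit 393251) (nat_lit 18) (.e (nat_lit 164325) (nat_lit 230) (.e (nat_lit 163873) (nat_lit 3) (.e (nat_lit 204813) (nat_lit 9) (.e (nat_lit 426188) (nat_lit 9) (.e (nat_lit 426566) (nat_lit 34) .nil)))))) (.g (nat_lit 795) .nil .nil))) 
(.lf (nat_lit 798) (.g (nat_lit 3933) (.e (nat_lit 393251) (nat_lit 18) (.e (nat_lit 164325) (nat_lit 230) (.e (nat_lit 163875) (nat_lit 3) (.e (nat_lit 204813) (nat_lit 9) (.e (nat_lit 426188) (nat_lit 9) (.e (nat_lit 426566) (nat_lit 34) .nil)))))) (.g (nat_lit 797) .nil .nil)))) (.nd (nat_lit 1) 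
(.lf (nat_lit 797) (.g (nat_lit 3933) (.e (nat_lit 483363) (nat_lit 18) (.e (nat_lit 57847) (nat_lit 252) (.e (nat_lit 57379) (nat_lit 3) (.e (nat_lit 98317) (nat_lit 9) (.e (nat_lit 336076) (nat_lit 9) (.e (nat_lit 336454) (nat_lit 34) .nil)))))) (.g (nat_lit 798) .nil .nil))) 
(.lf (nat_lit 799) (.g (nat_lit 3633) (.e (nat_lit 483364) (nat_lit 18) (.e (nat_lit 57854) (nat_lit 252) (.e (nat_lit 57378) (nat_lit 3) (.e (nat_lit 98317) (nat_lit 9) (.e (nat_lit 336076) (nat_lit 9) (.e (nat_lit 336454) (nat_lit 34) .nil)))))) (.g (nat_lit 800) .nil .nil)))))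

noncomputable def tu122 : DT := (.nd (nat_lit 0) (.nd (nat_lit 1) (.nd (nat_lit 2) 
(.lf (nat_lit 800) (.g (nat_lit 3633) (.e (nat_lit 393252) (nat_lit 18) (.e (nat_lit 164332) (nat_lit 230) (.e (nat_lit 163874) (nat_lit 3) (.e (nat_lit 204813) (nat_lit 9) (.e (nat_lit 426188) (nat_lit 9) (.e (nat_lit 426566) (nat_lit 34) .nil)))))) (.g (nat_lit 799) .nil .nil))) 
(.lf (nat_lit 804) (.g (nat_lit 3511) (.e (nat_lit 393253) (nat_lit 18) (.e (nat_lit 164326) (nat_lit 230) (.e (nat_lit 163875) (nat_lit 3) (.e (nat_lit 204813) (nat_lit 9) (.e (nat_lit 426188) (nat_lit 9) (.e (nat_lit 426566) (nat_lit 34) .nil)))))) (.g (nat_lit 803) .nil .nil)))) (.nd (nat_lit 2) 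
(.lf (nat_lit 802) (.g (nat_lit 3662) (.e (nat_lit 393253) (nat_lit 18) (.e (nat_lit 164326) (nat_lit 230) (.e (nat_lit 163873) (nat_lit 3) (.e (nat_lit 204813) (nat_lit 9) (.e (nat_lit 426188) (nat_lit 9) (.e (nat_lit 426566) (nat_lit 34) .nil)))))) (.g (nat_lit 801) .nil .nil))) 
(.lf (nat_lit 806) (.g (nat_lit 3866) (.e (nat_lit 393253) (nat_lit 18) (.e (nat_lit 164330) (nat_lit 230) (.e (nat_lit 163873) (nat_lit 3) (.e (nat_lit 204813) (nat_lit 9) (.e (nat_lit 426188) (nat_lit 9) (.e (nat_lit 426566) (nat_lit 34) .nil)))))) (.g (nat_lit 805) .nil .nil))))) (.nd (nat_lit 1) (.nd (nat_lit 2) 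
(.lf (nat_lit 801) (.g (nat_lit 3662) (.e (nat_lit 483365) (nat_lit 18) (.e (nat_lit 57848) (nat_lit 252) (.e (nat_lit 57377) (nat_lit 3) (.e (nat_lit 98317) (nat_lit 9) (.e (nat_lit 336076) (nat_lit 9) (.e (nat_lit 336454) (nat_lit 34) .nil)))))) (.g (nat_lit 802) .nil .nil))) 
(.lf (nat_lit 805) (.g (nat_lit 3866) (.e (nat_lit 483365) (nat_lit 18) (.e (nat_lit 57852) (nat_lit 252) (.e (nat_lit 57377) (nat_lit 3) (.e (nat_lit 98317) (nat_lit 9) (.e (nat_lit 336076) (nat_lit 9) (.e (nat_lit 336454) (nat_lit 34) .nil)))))) (.g (nat_lit 806) .nil .nil)))) (.nd (nat_lit 2) 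
(.lf (nat_lit 803) (.g (nat_lit 3511) (.e (nat_lit 483365) (nat_lit 18) (.e (nat_lit 57848) (nat_lit 252) (.e (nat_lit 57379) (nat_lit 3) (.e (nat_lit 98317) (nat_lit 9) (.e (nat_lit 336076) (nat_lit 9) (.e (nat_lit 336454) (nat_lit 34) .nil)))))) (.g (nat_lit 804) .nil .nil))) 
(.lf (nat_lit 807) (.g (nat_lit 3694) (.e (nat_lit 483383) (nat_lit 23) (.e (nat_lit 336324) (nat_lit 18) (.e (nat_lit 204831) (nat_lit 18) (.e (nat_lit 57853) (nat_lit 252) (.e (nat_lit 57408) (nat_lit 12) (.e (nat_lit 336454) (nat_lit 34) .nil)))))) (.g (nat_lit 808) .nil .nil))))))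

noncomputable def tu123 : DT := (.nd (nat_lit 0) (.nd (nat_lit 1) 
(.lf (nat_lit 808) (.g (nat_lit 3694) (.e (nat_lit 393271) (nat_lit 23) (.e (nat_lit 426436) (nat_lit 18) (.e (nat_lit 98335) (nat_lit 18) (.e (nat_lit 164331) (nat_lit 230) (.e (nat_lit 163904) (nat_lit 12) (.e (nat_lit 426566) (nat_lit 34) .nil)))))) (.g (nat_lit 807) .nil .nil))) 
(.lf (nat_lit 810) (.g (nat_lit 3461) (.e (nat_lit 393271) (nat_lit 23) (.e (nat_lit 426436) (nat_lit 18) (.e (nat_lit 98335) (nat_lit 18) (.e (nat_lit 164332) (nat_lit 230) (.e (nat_lit 163904) (nat_lit 12) (.e (nat_lit 426566) (nat_lit 34) .nil)))))) (.g (nat_lit 809) .nil .nil)))) (.nd (nat_lit 1) 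
(.lf (nat_lit 809) (.g (nat_lit 3461) (.e (nat_lit 483383) (nat_lit 23) (.e (nat_lit 336324) (nat_lit 18) (.e (nat_lit 204831) (nat_lit 18) (.e (nat_lit 57854) (nat_lit 252) (.e (nat_lit 57408) (nat_lit 12) (.e (nat_lit 336454) (nat_lit 34) .nil)))))) (.g (nat_lit 810) .nil .nil))) 
(.lf (nat_lit 811) (.g (nat_lit 4146) (.e (nat_lit 483395) (nat_lit 24) (.e (nat_lit 344169) (nat_lit 40) (.e (nat_lit 671762) (nat_lit 4) (.e (nat_lit 65630) (nat_lit 14) (.e (nat_lit 401459) (nat_lit 13) .nil))))) (.g (nat_lit 812) .nil .nil)))))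

noncomputable def tu124 : DT := 
(.lf (nat_lit 812) (.g (nat_lit 4146) (.e (nat_lit 393283) (nat_lit 24) (.e (nat_lit 434272) (nat_lit 38) (.e (nat_lit 655378) (nat_lit 4) (.e (nat_lit 172126) (nat_lit 14) (.e (nat_lit 491571) (nat_lit 13) .nil))))) (.g (nat_lit 811) .nil .nil)))

noncomputable def tu125 : DT := 
(.lf (nat_lit 813) (.g (nat_lit 4037) (.e (nat_lit 491560) (nat_lit 10) (.e (nat_lit 344177) (nat_lit 43) (.e (nat_lit 770072) (nat_lit 8) (.e (nat_lit 65625) (nat_lit 13) (.e (nat_lit 393301) (nat_lit 27) .nil))))) (.g (nat_lit 814) .nil .nil)))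

noncomputable def tu126 : DT := 
(.lf (nat_lit 814) (.g (nat_lit 4037) (.e (nat_lit 401448) (nat_lit 10) (.e (nat_lit 434289) (nat_lit 43) (.e (nat_lit 696344) (nat_lit 8) (.e (nat_lit 172121) (nat_lit 13) (.e (nat_lit 483413) (nat_lit 27) .nil))))) (.g (nat_lit 813) .nil .nil)))

noncomputable def tu127 : DT := 
(.lf (nat_lit 815) (.g (nat_lit 4146) (.e (nat_lit 491560) (nat_lit 10) (.e (nat_lit 344177) (nat_lit 43) (.e (nat_lit 770072) (nat_lit 8) (.e (nat_lit 65627) (nat_lit 13) (.e (nat_lit 393301) (nat_lit 27) .nil))))) (.g (nat_lit 816) .nil .nil)))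

noncomputable def tu128 : DT := (.nd (nat_lit 0) (.nd (nat_lit 1) 
(.lf (nat_lit 816) (.g (nat_lit 4146) (.e (nat_lit 401448) (nat_lit 10) (.e (nat_lit 434289) (nat_lit 43) (.e (nat_lit 696344) (nat_lit 8) (.e (nat_lit 172123) (nat_lit 13) (.e (nat_lit 483413) (nat_lit 27) .nil))))) (.g (nat_lit 815) .nil .nil))) 
(.lf (nat_lit 818) (.g (nat_lit 2637) (.e (nat_lit 401456) (nat_lit 13) (.e (nat_lit 483344) (nat_lit 17) (.e (nat_lit 6619) (nat_lit 357) (.e (nat_lit 3094) (nat_lit 191) (.e (nat_lit 483413) (nat_lit 27) .nil))))) (.g (nat_lit 817) .nil .nil)))) (.nd (nat_lit 1) 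
(.lf (nat_lit 817) (.g (nat_lit 2637) (.e (nat_lit 491568) (nat_lit 13) (.e (nat_lit 393232) (nat_lit 17) (.e (nat_lit 7490) (nat_lit 402) (.e (nat_lit 1665) (nat_lit 115) (.e (nat_lit 393301) (nat_lit 27) .nil))))) (.g (nat_lit 818) .nil .nil))) 
(.lf (nat_lit 819) (.g (nat_lit 3507) (.e (nat_lit 516150) (nat_lit 9) (.e (nat_lit 426436) (nat_lit 18) (.e (nat_lit 98358) (nat_lit 26) (.e (nat_lit 426436) (nat_lit 18) (.e (nat_lit 98386) (nat_lit 32) (.e (nat_lit 475179) (nat_lit 24) .nil)))))) (.g (nat_lit 820) .nil .nil)))))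

noncomputable def tu129 : DT := (.nd (nat_lit 0) (.nd (nat_lit 1) 
(.lf (nat_lit 820) (.g (nat_lit 3507) (.e (nat_lit 532534) (nat_lit 9) (.e (nat_lit 336324) (nat_lit 18) (.e (nat_lit 204854) (nat_lit 26) (.e (nat_lit 336324) (nat_lit 18) (.e (nat_lit 204882) (nat_lit 32) (.e (nat_lit 385068) (nat_lit 26) .nil)))))) (.g (nat_lit 819) .nil .nil))) 
(.lf (nat_lit 822) (.g (nat_lit 6477) (.e (nat_lit 532535) (nat_lit 9) (.e (nat_lit 336295) (nat_lit 15) (.e (nat_lit 3632) (nat_lit 227) (.e (nat_lit 778317) (nat_lit 3) (.e (nat_lit 57479) (nat_lit 28) (.e (nat_lit 557100) (nat_lit 13) (.e (nat_lit 172106) (nat_lit 10) (.e (nat_lit 434231) (nat_lit 23) .nil)))))))) (.g (nat_lit 821) .nil .nil)))) (.nd (nat_lit 1) 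
(.lf (nat_lit 821) (.g (nat_lit 6477) (.e (nat_lit 516151) (nat_lit 9) (.e (nat_lit 426412) (nat_lit 15) (.e (nat_lit 2059) (nat_lit 142) (.e (nat_lit 704589) (nat_lit 3) (.e (nat_lit 163978) (nat_lit 30) (.e (nat_lit 573484) (nat_lit 13) (.e (nat_lit 65610) (nat_lit 10) (.e (nat_lit 344117) (nat_lit 21) .nil)))))))) (.g (nat_lit 822) .nil .nil))) 
(.lf (nat_lit 823) (.g (nat_lit 4343) (.e (nat_lit 532535) (nat_lit 9) (.e (nat_lit 335928) (nat_lit 0) (.e (nat_lit 2003) (nat_lit 138) (.e (nat_lit 671757) (nat_lit 3) (.e (nat_lit 57479) (nat_lit 28) (.e (nat_lit 557100) (nat_lit 13) (.e (nat_lit 172106) (nat_lit 10) (.e (nat_lit 434231) (nat_lit 23) .nil)))))))) (.g (nat_lit 824) .nil .nil)))))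

noncomputable def tu130 : DT := (.nd (nat_lit 0) (.nd (nat_lit 1) (.nd (nat_lit 2) 
(.lf (nat_lit 824) (.g (nat_lit 4343) (.e (nat_lit 516151) (nat_lit 9) (.e (nat_lit 426043) (nat_lit 0) (.e (nat_lit 3406) (nat_lit 212) (.e (nat_lit 655373) (nat_lit 3) (.e (nat_lit 163978) (nat_lit 30) (.e (nat_lit 573484) (nat_lit 13) (.e (nat_lit 65610) (nat_lit 10) (.e (nat_lit 344117) (nat_lit 21) .nil)))))))) (.g (nat_lit 823) .nil .nil))) 
(.lf (nat_lit 828) (.g (nat_lit 4201) (.e (nat_lit 516151) (nat_lit 9) (.e (nat_lit 426043) (nat_lit 0) (.e (nat_lit 3408) (nat_lit 212) (.e (nat_lit 655373) (nat_lit 3) (.e (nat_lit 163978) (nat_lit 30) (.e (nat_lit 573484) (nat_lit 13) (.e (nat_lit 65610) (nat_lit 10) (.e (nat_lit 344117) (nat_lit 21) .nil)))))))) (.g (nat_lit 827) .nil .nil)))) (.nd (nat_lit 2) 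
(.lf (nat_lit 826) (.g (nat_lit 4629) (.e (nat_lit 516151) (nat_lit 9) (.e (nat_lit 426043) (nat_lit 0) (.e (nat_lit 3406) (nat_lit 212) (.e (nat_lit 655375) (nat_lit 3) (.e (nat_lit 163978) (nat_lit 30) (.e (nat_lit 573484) (nat_lit 13) (.e (nat_lit 65610) (nat_lit 10) (.e (nat_lit 344117) (nat_lit 21) .nil)))))))) (.g (nat_lit 825) .nil .nil))) 
(.lf (nat_lit 830) (.g (nat_lit 4754) (.e (nat_lit 516151) (nat_lit 9) (.e (nat_lit 426043) (nat_lit 0) (.e (nat_lit 3409) (nat_lit 212) (.e (nat_lit 655375) (nat_lit 3) (.e (nat_lit 163978) (nat_lit 30) (.e (nat_lit 573484) (nat_lit 13) (.e (nat_lit 65610) (nat_lit 10) (.e (nat_lit 344117) (nat_lit 21) .nil)))))))) (.g (nat_lit 829) .nil .nil))))) (.nd (nat_lit 1) (.nd (nat_lit 2) 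
(.lf (nat_lit 825) (.g (nat_lit 4629) (.e (nat_lit 532535) (nat_lit 9) (.e (nat_lit 335928) (nat_lit 0) (.e (nat_lit 2003) (nat_lit 138) (.e (nat_lit 671759) (nat_lit 3) (.e (nat_lit 57479) (nat_lit 28) (.e (nat_lit 557100) (nat_lit 13) (.e (nat_lit 172106) (nat_lit 10) (.e (nat_lit 434231) (nat_lit 23) .nil)))))))) (.g (nat_lit 826) .nil .nil))) 
(.lf (nat_lit 829) (.g (nat_lit 4754) (.e (nat_lit 532535) (nat_lit 9) (.e (nat_lit 335928) (nat_lit 0) (.e (nat_lit 2006) (nat_lit 138) (.e (nat_lit 671759) (nat_lit 3) (.e (nat_lit 57479) (nat_lit 28) (.e (nat_lit 557100) (nat_lit 13) (.e (nat_lit 172106) (nat_lit 10) (.e (nat_lit 434231) (nat_lit 23) .nil)))))))) (.g (nat_lit 830) .nil .nil)))) (.nd (nat_lit 2) 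
(.lf (nat_lit 827) (.g (nat_lit 4201) (.e (nat_lit 532535) (nat_lit 9) (.e (nat_lit 335928) (nat_lit 0) (.e (nat_lit 2005) (nat_lit 138) (.e (nat_lit 671757) (nat_lit 3) (.e (nat_lit 57479) (nat_lit 28) (.e (nat_lit 557100) (nat_lit 13) (.e (nat_lit 172106) (nat_lit 10) (.e (nat_lit 434231) (nat_lit 23) .nil)))))))) (.g (nat_lit 828) .nil .nil))) 
(.lf (nat_lit 831) (.g (nat_lit 4238) (.e (nat_lit 532535) (nat_lit 9) (.e (nat_lit 335985) (nat_lit 1) (.e (nat_lit 57870) (nat_lit 264) (.e (nat_lit 1170) (nat_lit 87) (.e (nat_lit 57479) (nat_lit 28) (.e (nat_lit 557100) (nat_lit 13) (.e (nat_lit 172106) (nat_lit 10) (.e (nat_lit 434231) (nat_lit 23) .nil)))))))) (.g (nat_lit 832) .nil .nil))))))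

noncomputable def tu131 : DT := (.nd (nat_lit 0) (.nd (nat_lit 1) (.nd (nat_lit 2) 
(.lf (nat_lit 832) (.g (nat_lit 4238) (.e (nat_lit 516151) (nat_lit 9) (.e (nat_lit 426097) (nat_lit 1) (.e (nat_lit 164345) (nat_lit 240) (.e (nat_lit 2599) (nat_lit 163) (.e (nat_lit 163978) (nat_lit 30) (.e (nat_lit 573484) (nat_lit 13) (.e (nat_lit 65610) (nat_lit 10) (.e (nat_lit 344117) (nat_lit 21) .nil)))))))) (.g (nat_lit 831) .nil .nil))) 
(.lf (nat_lit 836) (.g (nat_lit 5380) (.e (nat_lit 516151) (nat_lit 9) (.e (nat_lit 426097) (nat_lit 1) (.e (nat_lit 164348) (nat_lit 240) (.e (nat_lit 2610) (nat_lit 163) (.e (nat_lit 163978) (nat_lit 30) (.e (nat_lit 573484) (nat_lit 13) (.e (nat_lit 65610) (nat_lit 10) (.e (nat_lit 344117) (nat_lit 21) .nil)))))))) (.g (nat_lit 835) .nil .nil)))) (.nd (nat_lit 2) 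
(.lf (nat_lit 834) (.g (nat_lit 4308) (.e (nat_lit 516151) (nat_lit 9) (.e (nat_lit 426097) (nat_lit 1) (.e (nat_lit 164347) (nat_lit 240) (.e (nat_lit 2599) (nat_lit 163) (.e (nat_lit 163978) (nat_lit 30) (.e (nat_lit 573484) (nat_lit 13) (.e (nat_lit 65610) (nat_lit 10) (.e (nat_lit 344117) (nat_lit 21) .nil)))))))) (.g (nat_lit 833) .nil .nil))) 
(.lf (nat_lit 838) (.g (nat_lit 4722) (.e (nat_lit 573474) (nat_lit 12) (.e (nat_lit 57356) (nat_lit 0) (.e (nat_lit 7270) (nat_lit 385) (.e (nat_lit 122903) (nat_lit 12) (.e (nat_lit 336013) (nat_lit 2) (.e (nat_lit 90170) (nat_lit 13) (.e (nat_lit 172106) (nat_lit 10) (.e (nat_lit 434244) (nat_lit 28) .nil)))))))) (.g (nat_lit 837) .nil .nil))))) (.nd (nat_lit 1) (.nd (nat_lit 2) 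
(.lf (nat_lit 833) (.g (nat_lit 4308) (.e (nat_lit 532535) (nat_lit 9) (.e (nat_lit 335985) (nat_lit 1) (.e (nat_lit 57872) (nat_lit 264) (.e (nat_lit 1170) (nat_lit 87) (.e (nat_lit 57479) (nat_lit 28) (.e (nat_lit 557100) (nat_lit 13) (.e (nat_lit 172106) (nat_lit 10) (.e (nat_lit 434231) (nat_lit 23) .nil)))))))) (.g (nat_lit 834) .nil .nil))) 
(.lf (nat_lit 837) (.g (nat_lit 4722) (.e (nat_lit 557090) (nat_lit 12) (.e (nat_lit 163852) (nat_lit 0) (.e (nat_lit 6425) (nat_lit 342) (.e (nat_lit 229399) (nat_lit 12) (.e (nat_lit 426125) (nat_lit 2) (.e (nat_lit 196666) (nat_lit 13) (.e (nat_lit 65610) (nat_lit 10) (.e (nat_lit 344129) (nat_lit 26) .nil)))))))) (.g (nat_lit 838) .nil .nil)))) (.nd (nat_lit 2) 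
(.lf (nat_lit 835) (.g (nat_lit 5380) (.e (nat_lit 532535) (nat_lit 9) (.e (nat_lit 335985) (nat_lit 1) (.e (nat_lit 57873) (nat_lit 264) (.e (nat_lit 1181) (nat_lit 87) (.e (nat_lit 57479) (nat_lit 28) (.e (nat_lit 557100) (nat_lit 13) (.e (nat_lit 172106) (nat_lit 10) (.e (nat_lit 434231) (nat_lit 23) .nil)))))))) (.g (nat_lit 836) .nil .nil))) 
(.lf (nat_lit 839) (.g (nat_lit 4573) (.e (nat_lit 557090) (nat_lit 12) (.e (nat_lit 163852) (nat_lit 0) (.e (nat_lit 6427) (nat_lit 342) (.e (nat_lit 229399) (nat_lit 12) (.e (nat_lit 426125) (nat_lit 2) (.e (nat_lit 196666) (nat_lit 13) (.e (nat_lit 65610) (nat_lit 10) (.e (nat_lit 344129) (nat_lit 26) .nil)))))))) (.g (nat_lit 840) .nil .nil))))))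

noncomputable def tu132 : DT := (.nd (nat_lit 0) (.nd (nat_lit 1) (.nd (nat_lit 2) 
(.lf (nat_lit 840) (.g (nat_lit 4573) (.e (nat_lit 573474) (nat_lit 12) (.e (nat_lit 57356) (nat_lit 0) (.e (nat_lit 7272) (nat_lit 385) (.e (nat_lit 122903) (nat_lit 12) (.e (nat_lit 336013) (nat_lit 2) (.e (nat_lit 90170) (nat_lit 13) (.e (nat_lit 172106) (nat_lit 10) (.e (nat_lit 434244) (nat_lit 28) .nil)))))))) (.g (nat_lit 839) .nil .nil))) 
(.lf (nat_lit 844) (.g (nat_lit 4376) (.e (nat_lit 573481) (nat_lit 13) (.e (nat_lit 65619) (nat_lit 10) (.e (nat_lit 344117) (nat_lit 21) (.e (nat_lit 516185) (nat_lit 16) (.e (nat_lit 491547) (nat_lit 9) (.e (nat_lit 336306) (nat_lit 15) (.e (nat_lit 3298) (nat_lit 202) .nil))))))) (.g (nat_lit 843) .nil .nil)))) (.nd (nat_lit 2) 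
(.lf (nat_lit 842) (.g (nat_lit 4234) (.e (nat_lit 573474) (nat_lit 12) (.e (nat_lit 57356) (nat_lit 0) (.e (nat_lit 7273) (nat_lit 385) (.e (nat_lit 122903) (nat_lit 12) (.e (nat_lit 336013) (nat_lit 2) (.e (nat_lit 90170) (nat_lit 13) (.e (nat_lit 172106) (nat_lit 10) (.e (nat_lit 434244) (nat_lit 28) .nil)))))))) (.g (nat_lit 841) .nil .nil))) 
(.lf (nat_lit 846) (.g (nat_lit 4512) (.e (nat_lit 573484) (nat_lit 13) (.e (nat_lit 65610) (nat_lit 10) (.e (nat_lit 344117) (nat_lit 21) (.e (nat_lit 516159) (nat_lit 10) (.e (nat_lit 434272) (nat_lit 38) (.e (nat_lit 655373) (nat_lit 3) (.e (nat_lit 163978) (nat_lit 30) .nil))))))) (.g (nat_lit 845) .nil .nil))))) (.nd (nat_lit 1) (.nd (nat_lit 2) 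
(.lf (nat_lit 841) (.g (nat_lit 4234) (.e (nat_lit 557090) (nat_lit 12) (.e (nat_lit 163852) (nat_lit 0) (.e (nat_lit 6428) (nat_lit 342) (.e (nat_lit 229399) (nat_lit 12) (.e (nat_lit 426125) (nat_lit 2) (.e (nat_lit 196666) (nat_lit 13) (.e (nat_lit 65610) (nat_lit 10) (.e (nat_lit 344129) (nat_lit 26) .nil)))))))) (.g (nat_lit 842) .nil .nil))) 
(.lf (nat_lit 845) (.g (nat_lit 4512) (.e (nat_lit 557100) (nat_lit 13) (.e (nat_lit 172106) (nat_lit 10) (.e (nat_lit 434231) (nat_lit 23) (.e (nat_lit 532543) (nat_lit 10) (.e (nat_lit 344169) (nat_lit 40) (.e (nat_lit 671757) (nat_lit 3) (.e (nat_lit 57479) (nat_lit 28) .nil))))))) (.g (nat_lit 846) .nil .nil)))) (.nd (nat_lit 2) 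
(.lf (nat_lit 843) (.g (nat_lit 4376) (.e (nat_lit 557097) (nat_lit 13) (.e (nat_lit 172115) (nat_lit 10) (.e (nat_lit 434231) (nat_lit 23) (.e (nat_lit 532569) (nat_lit 16) (.e (nat_lit 401435) (nat_lit 9) (.e (nat_lit 426402) (nat_lit 15) (.e (nat_lit 1849) (nat_lit 124) .nil))))))) (.g (nat_lit 844) .nil .nil))) 
(.lf (nat_lit 847) (.g (nat_lit 4933) (.e (nat_lit 557100) (nat_lit 13) (.e (nat_lit 172106) (nat_lit 10) (.e (nat_lit 434231) (nat_lit 23) (.e (nat_lit 532544) (nat_lit 10) (.e (nat_lit 344168) (nat_lit 40) (.e (nat_lit 671757) (nat_lit 3) (.e (nat_lit 57479) (nat_lit 28) .nil))))))) (.g (nat_lit 848) .nil .nil))))))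

noncomputable def tu133 : DT := (.nd (nat_lit 0) (.nd (nat_lit 1) 
(.lf (nat_lit 848) (.g (nat_lit 4933) (.e (nat_lit 573484) (nat_lit 13) (.e (nat_lit 65610) (nat_lit 10) (.e (nat_lit 344117) (nat_lit 21) (.e (nat_lit 516160) (nat_lit 10) (.e (nat_lit 434271) (nat_lit 38) (.e (nat_lit 655373) (nat_lit 3) (.e (nat_lit 163978) (nat_lit 30) .nil))))))) (.g (nat_lit 847) .nil .nil))) 
(.lf (nat_lit 850) (.g (nat_lit 5196) (.e (nat_lit 573484) (nat_lit 13) (.e (nat_lit 65610) (nat_lit 10) (.e (nat_lit 344117) (nat_lit 21) (.e (nat_lit 516160) (nat_lit 10) (.e (nat_lit 434272) (nat_lit 38) (.e (nat_lit 655373) (nat_lit 3) (.e (nat_lit 163978) (nat_lit 30) .nil))))))) (.g (nat_lit 849) .nil .nil)))) (.nd (nat_lit 1) 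
(.lf (nat_lit 849) (.g (nat_lit 5196) (.e (nat_lit 557100) (nat_lit 13) (.e (nat_lit 172106) (nat_lit 10) (.e (nat_lit 434231) (nat_lit 23) (.e (nat_lit 532544) (nat_lit 10) (.e (nat_lit 344169) (nat_lit 40) (.e (nat_lit 671757) (nat_lit 3) (.e (nat_lit 57479) (nat_lit 28) .nil))))))) (.g (nat_lit 850) .nil .nil))) 
(.lf (nat_lit 851) (.g (nat_lit 5909) (.e (nat_lit 573474) (nat_lit 12) (.e (nat_lit 57347) (nat_lit 0) (.e (nat_lit 7125) (nat_lit 382) (.e (nat_lit 1201) (nat_lit 88) (.e (nat_lit 65566) (nat_lit 2) (.e (nat_lit 90170) (nat_lit 13) (.e (nat_lit 172106) (nat_lit 10) (.e (nat_lit 434244) (nat_lit 28) .nil)))))))) (.g (nat_lit 852) .nil .nil)))))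

noncomputable def tu134 : DT := (.nd (nat_lit 0) (.nd (nat_lit 1) 
(.lf (nat_lit 852) (.g (nat_lit 5909) (.e (nat_lit 557090) (nat_lit 12) (.e (nat_lit 163843) (nat_lit 0) (.e (nat_lit 6255) (nat_lit 337) (.e (nat_lit 2630) (nat_lit 164) (.e (nat_lit 172062) (nat_lit 2) (.e (nat_lit 196666) (nat_lit 13) (.e (nat_lit 65610) (nat_lit 10) (.e (nat_lit 344129) (nat_lit 26) .nil)))))))) (.g (nat_lit 851) .nil .nil))) 
(.lf (nat_lit 854) (.g (nat_lit 6327) (.e (nat_lit 557090) (nat_lit 12) (.e (nat_lit 163843) (nat_lit 0) (.e (nat_lit 6255) (nat_lit 337) (.e (nat_lit 2630) (nat_lit 164) (.e (nat_lit 172064) (nat_lit 2) (.e (nat_lit 196666) (nat_lit 13) (.e (nat_lit 65610) (nat_lit 10) (.e (nat_lit 344129) (nat_lit 26) .nil)))))))) (.g (nat_lit 853) .nil .nil)))) (.nd (nat_lit 1) 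
(.lf (nat_lit 853) (.g (nat_lit 6327) (.e (nat_lit 573474) (nat_lit 12) (.e (nat_lit 57347) (nat_lit 0) (.e (nat_lit 7125) (nat_lit 382) (.e (nat_lit 1201) (nat_lit 88) (.e (nat_lit 65568) (nat_lit 2) (.e (nat_lit 90170) (nat_lit 13) (.e (nat_lit 172106) (nat_lit 10) (.e (nat_lit 434244) (nat_lit 28) .nil)))))))) (.g (nat_lit 854) .nil .nil))) 
(.lf (nat_lit 855) (.g (nat_lit 5013) (.e (nat_lit 573474) (nat_lit 12) (.e (nat_lit 57351) (nat_lit 0) (.e (nat_lit 7125) (nat_lit 382) (.e (nat_lit 1201) (nat_lit 88) (.e (nat_lit 65566) (nat_lit 2) (.e (nat_lit 90170) (nat_lit 13) (.e (nat_lit 172106) (nat_lit 10) (.e (nat_lit 434244) (nat_lit 28) .nil)))))))) (.g (nat_lit 856) .nil .nil)))))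

noncomputable def tu135 : DT := (.nd (nat_lit 0) (.nd (nat_lit 1) (.nd (nat_lit 2) 
(.lf (nat_lit 856) (.g (nat_lit 5013) (.e (nat_lit 557090) (nat_lit 12) (.e (nat_lit 163847) (nat_lit 0) (.e (nat_lit 6255) (nat_lit 337) (.e (nat_lit 2630) (nat_lit 164) (.e (nat_lit 172062) (nat_lit 2) (.e (nat_lit 196666) (nat_lit 13) (.e (nat_lit 65610) (nat_lit 10) (.e (nat_lit 344129) (nat_lit 26) .nil)))))))) (.g (nat_lit 855) .nil .nil))) 
(.lf (nat_lit 860) (.g (nat_lit 4097) (.e (nat_lit 557090) (nat_lit 12) (.e (nat_lit 164016) (nat_lit 44) (.e (nat_lit 688140) (nat_lit 5) (.e (nat_lit 2883) (nat_lit 184) (.e (nat_lit 426125) (nat_lit 2) (.e (nat_lit 196666) (nat_lit 13) (.e (nat_lit 65610) (nat_lit 10) (.e (nat_lit 344129) (nat_lit 26) .nil)))))))) (.g (nat_lit 859) .nil .nil)))) (.nd (nat_lit 2) 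
(.lf (nat_lit 858) (.g (nat_lit 4189) (.e (nat_lit 557090) (nat_lit 12) (.e (nat_lit 164016) (nat_lit 44) (.e (nat_lit 688138) (nat_lit 5) (.e (nat_lit 2883) (nat_lit 184) (.e (nat_lit 426125) (nat_lit 2) (.e (nat_lit 196666) (nat_lit 13) (.e (nat_lit 65610) (nat_lit 10) (.e (nat_lit 344129) (nat_lit 26) .nil)))))))) (.g (nat_lit 857) .nil .nil))) 
(.lf (nat_lit 862) (.g (nat_lit 4512) (.e (nat_lit 557090) (nat_lit 12) (.e (nat_lit 164018) (nat_lit 45) (.e (nat_lit 696344) (nat_lit 8) (.e (nat_lit 172062) (nat_lit 2) (.e (nat_lit 196666) (nat_lit 13) (.e (nat_lit 65610) (nat_lit 10) (.e (nat_lit 344129) (nat_lit 26) .nil))))))) (.g (nat_lit 861) .nil .nil))))) (.nd (nat_lit 1) (.nd (nat_lit 2) 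
(.lf (nat_lit 857) (.g (nat_lit 4189) (.e (nat_lit 573474) (nat_lit 12) (.e (nat_lit 57568) (nat_lit 53) (.e (nat_lit 761866) (nat_lit 5) (.e (nat_lit 1463) (nat_lit 108) (.e (nat_lit 336013) (nat_lit 2) (.e (nat_lit 90170) (nat_lit 13) (.e (nat_lit 172106) (nat_lit 10) (.e (nat_lit 434244) (nat_lit 28) .nil)))))))) (.g (nat_lit 858) .nil .nil))) 
(.lf (nat_lit 861) (.g (nat_lit 4512) (.e (nat_lit 573474) (nat_lit 12) (.e (nat_lit 57570) (nat_lit 54) (.e (nat_lit 770072) (nat_lit 8) (.e (nat_lit 65566) (nat_lit 2) (.e (nat_lit 90170) (nat_lit 13) (.e (nat_lit 172106) (nat_lit 10) (.e (nat_lit 434244) (nat_lit 28) .nil))))))) (.g (nat_lit 862) .nil .nil)))) (.nd (nat_lit 2) 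
(.lf (nat_lit 859) (.g (nat_lit 4097) (.e (nat_lit 573474) (nat_lit 12) (.e (nat_lit 57568) (nat_lit 53) (.e (nat_lit 761868) (nat_lit 5) (.e (nat_lit 1463) (nat_lit 108) (.e (nat_lit 336013) (nat_lit 2) (.e (nat_lit 90170) (nat_lit 13) (.e (nat_lit 172106) (nat_lit 10) (.e (nat_lit 434244) (nat_lit 28) .nil)))))))) (.g (nat_lit 860) .nil .nil))) 
(.lf (nat_lit 863) (.g (nat_lit 5196) (.e (nat_lit 573474) (nat_lit 12) (.e (nat_lit 57570) (nat_lit 54) (.e (nat_lit 770072) (nat_lit 8) (.e (nat_lit 65568) (nat_lit 2) (.e (nat_lit 90170) (nat_lit 13) (.e (nat_lit 172106) (nat_lit 10) (.e (nat_lit 434244) (nat_lit 28) .nil))))))) (.g (nat_lit 864) .nil .nil))))))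

noncomputable def tu136 : DT := (.nd (nat_lit 0) (.nd (nat_lit 1) (.nd (nat_lit 2) (.nd (nat_lit 3) 
(.lf (nat_lit 864) (.g (nat_lit 5196) (.e (nat_lit 557090) (nat_lit 12) (.e (nat_lit 164018) (nat_lit 45) (.e (nat_lit 696344) (nat_lit 8) (.e (nat_lit 172064) (nat_lit 2) (.e (nat_lit 196666) (nat_lit 13) (.e (nat_lit 65610) (nat_lit 10) (.e (nat_lit 344129) (nat_lit 26) .nil))))))) (.g (nat_lit 863) .nil .nil))) 
(.lf (nat_lit 872) (.g (nat_lit 4064) (.e (nat_lit 557090) (nat_lit 12) (.e (nat_lit 164021) (nat_lit 46) (.e (nat_lit 704611) (nat_lit 9) (.e (nat_lit 374) (nat_lit 32) (.e (nat_lit 426125) (nat_lit 2) (.e (nat_lit 196666) (nat_lit 13) (.e (nat_lit 65610) (nat_lit 10) (.e (nat_lit 344129) (nat_lit 26) .nil)))))))) (.g (nat_lit 871) .nil .nil)))) (.nd (nat_lit 3) 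
(.lf (nat_lit 868) (.g (nat_lit 4232) (.e (nat_lit 557090) (nat_lit 12) (.e (nat_lit 164021) (nat_lit 46) (.e (nat_lit 704608) (nat_lit 9) (.e (nat_lit 374) (nat_lit 32) (.e (nat_lit 426125) (nat_lit 2) (.e (nat_lit 196666) (nat_lit 13) (.e (nat_lit 65610) (nat_lit 10) (.e (nat_lit 344129) (nat_lit 26) .nil)))))))) (.g (nat_lit 867) .nil .nil))) 
(.lf (nat_lit 876) (.g (nat_lit 5406) (.e (nat_lit 557090) (nat_lit 12) (.e (nat_lit 164022) (nat_lit 46) (.e (nat_lit 704627) (nat_lit 9) (.e (nat_lit 375) (nat_lit 32) (.e (nat_lit 426125) (nat_lit 2) (.e (nat_lit 196666) (nat_lit 13) (.e (nat_lit 65610) (nat_lit 10) (.e (nat_lit 344129) (nat_lit 26) .nil)))))))) (.g (nat_lit 875) .nil .nil))))) (.nd (nat_lit 2) (.nd (nat_lit 3) 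
(.lf (nat_lit 866) (.g (nat_lit 4292) (.e (nat_lit 557090) (nat_lit 12) (.e (nat_lit 164021) (nat_lit 46) (.e (nat_lit 704606) (nat_lit 9) (.e (nat_lit 374) (nat_lit 32) (.e (nat_lit 426125) (nat_lit 2) (.e (nat_lit 196666) (nat_lit 13) (.e (nat_lit 65610) (nat_lit 10) (.e (nat_lit 344129) (nat_lit 26) .nil)))))))) (.g (nat_lit 865) .nil .nil))) 
(.lf (nat_lit 874) (.g (nat_lit 5514) (.e (nat_lit 557090) (nat_lit 12) (.e (nat_lit 164022) (nat_lit 46) (.e (nat_lit 704626) (nat_lit 9) (.e (nat_lit 375) (nat_lit 32) (.e (nat_lit 426125) (nat_lit 2) (.e (nat_lit 196666) (nat_lit 13) (.e (nat_lit 65610) (nat_lit 10) (.e (nat_lit 344129) (nat_lit 26) .nil)))))))) (.g (nat_lit 873) .nil .nil)))) (.nd (nat_lit 3) 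
(.lf (nat_lit 870) (.g (nat_lit 4240) (.e (nat_lit 557090) (nat_lit 12) (.e (nat_lit 164021) (nat_lit 46) (.e (nat_lit 704610) (nat_lit 9) (.e (nat_lit 374) (nat_lit 32) (.e (nat_lit 426125) (nat_lit 2) (.e (nat_lit 196666) (nat_lit 13) (.e (nat_lit 65610) (nat_lit 10) (.e (nat_lit 344129) (nat_lit 26) .nil)))))))) (.g (nat_lit 869) .nil .nil))) 
(.lf (nat_lit 878) (.g (nat_lit 5961) (.e (nat_lit 557090) (nat_lit 12) (.e (nat_lit 164022) (nat_lit 46) (.e (nat_lit 704628) (nat_lit 9) (.e (nat_lit 375) (nat_lit 32) (.e (nat_lit 426125) (nat_lit 2) (.e (nat_lit 196666) (nat_lit 13) (.e (nat_lit 65610) (nat_lit 10) (.e (nat_lit 344129) (nat_lit 26) .nil)))))))) (.g (nat_lit 877) .nil .nil)))))) 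
(.nd (nat_lit 1) (.nd (nat_lit 2) (.nd (nat_lit 3) 
(.lf (nat_lit 865) (.g (nat_lit 4292) (.e (nat_lit 573474) (nat_lit 12) (.e (nat_lit 57573) (nat_lit 55) (.e (nat_lit 778334) (nat_lit 9) (.e (nat_lit 231) (nat_lit 21) (.e (nat_lit 336013) (nat_lit 2) (.e (nat_lit 90170) (nat_lit 13) (.e (nat_lit 172106) (nat_lit 10) (.e (nat_lit 434244) (nat_lit 28) .nil)))))))) (.g (nat_lit 866) .nil .nil))) 
(.lf (nat_lit 873) (.g (nat_lit 5514) (.e (nat_lit 573474) (nat_lit 12) (.e (nat_lit 57574) (nat_lit 55) (.e (nat_lit 778359) (nat_lit 9) (.e (nat_lit 232) (nat_lit 21) (.e (nat_lit 336013) (nat_lit 2) (.e (nat_lit 90170) (nat_lit 13) (.e (nat_lit 172106) (nat_lit 10) (.e (nat_lit 434244) (nat_lit 28) .nil)))))))) (.g (nat_lit 874) .nil .nil)))) (.nd (nat_lit 3) 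
(.lf (nat_lit 869) (.g (nat_lit 4240) (.e (nat_lit 573474) (nat_lit 12) (.e (nat_lit 57573) (nat_lit 55) (.e (nat_lit 778339) (nat_lit 9) (.e (nat_lit 231) (nat_lit 21) (.e (nat_lit 336013) (nat_lit 2) (.e (nat_lit 90170) (nat_lit 13) (.e (nat_lit 172106) (nat_lit 10) (.e (nat_lit 434244) (nat_lit 28) .nil)))))))) (.g (nat_lit 870) .nil .nil))) 
(.lf (nat_lit 877) (.g (nat_lit 5961) (.e (nat_lit 573474) (nat_lit 12) (.e (nat_lit 57574) (nat_lit 55) (.e (nat_lit 778361) (nat_lit 9) (.e (nat_lit 232) (nat_lit 21) (.e (nat_lit 336013) (nat_lit 2) (.e (nat_lit 90170) (nat_lit 13) (.e (nat_lit 172106) (nat_lit 10) (.e (nat_lit 434244) (nat_lit 28) .nil)))))))) (.g (nat_lit 878) .nil .nil))))) (.nd (nat_lit 2) (.nd (nat_lit 3) 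
(.lf (nat_lit 867) (.g (nat_lit 4232) (.e (nat_lit 573474) (nat_lit 12) (.e (nat_lit 57573) (nat_lit 55) (.e (nat_lit 778337) (nat_lit 9) (.e (nat_lit 231) (nat_lit 21) (.e (nat_lit 336013) (nat_lit 2) (.e (nat_lit 90170) (nat_lit 13) (.e (nat_lit 172106) (nat_lit 10) (.e (nat_lit 434244) (nat_lit 28) .nil)))))))) (.g (nat_lit 868) .nil .nil))) 
(.lf (nat_lit 875) (.g (nat_lit 5406) (.e (nat_lit 573474) (nat_lit 12) (.e (nat_lit 57574) (nat_lit 55) (.e (nat_lit 778360) (nat_lit 9) (.e (nat_lit 232) (nat_lit 21) (.e (nat_lit 336013) (nat_lit 2) (.e (nat_lit 90170) (nat_lit 13) (.e (nat_lit 172106) (nat_lit 10) (.e (nat_lit 434244) (nat_lit 28) .nil)))))))) (.g (nat_lit 876) .nil .nil)))) (.nd (nat_lit 3) 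
(.lf (nat_lit 871) (.g (nat_lit 4064) (.e (nat_lit 573474) (nat_lit 12) (.e (nat_lit 57573) (nat_lit 55) (.e (nat_lit 778340) (nat_lit 9) (.e (nat_lit 231) (nat_lit 21) (.e (nat_lit 336013) (nat_lit 2) (.e (nat_lit 90170) (nat_lit 13) (.e (nat_lit 172106) (nat_lit 10) (.e (nat_lit 434244) (nat_lit 28) .nil)))))))) (.g (nat_lit 872) .nil .nil))) 
(.lf (nat_lit 879) (.g (nat_lit 3923) (.e (nat_lit 573491) (nat_lit 15) (.e (nat_lit 81943) (nat_lit 20) (.e (nat_lit 1842) (nat_lit 123) (.e (nat_lit 548889) (nat_lit 9) (.e (nat_lit 65624) (nat_lit 12) (.e (nat_lit 385074) (nat_lit 31) .nil)))))) (.g (nat_lit 880) .nil .nil)))))))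

noncomputable def tu137 : DT := (.nd (nat_lit 0) (.nd (nat_lit 1) (.nd (nat_lit 2) 
(.lf (nat_lit 880) (.g (nat_lit 3923) (.e (nat_lit 557107) (nat_lit 15) (.e (nat_lit 188439) (nat_lit 20) (.e (nat_lit 3272) (nat_lit 199) (.e (nat_lit 548913) (nat_lit 18) (.e (nat_lit 172120) (nat_lit 12) (.e (nat_lit 475185) (nat_lit 29) .nil)))))) (.g (nat_lit 879) .nil .nil))) 
(.lf (nat_lit 884) (.g (nat_lit 4188) (.e (nat_lit 655373) (nat_lit 3) (.e (nat_lit 163978) (nat_lit 30) (.e (nat_lit 573484) (nat_lit 13) (.e (nat_lit 65610) (nat_lit 10) (.e (nat_lit 344117) (nat_lit 21) (.e (nat_lit 516151) (nat_lit 9) (.e (nat_lit 426043) (nat_lit 0) (.e (nat_lit 3407) (nat_lit 212) .nil)))))))) (.g (nat_lit 883) .nil .nil)))) (.nd (nat_lit 2) 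
(.lf (nat_lit 882) (.g (nat_lit 4235) (.e (nat_lit 647180) (nat_lit 3) (.e (nat_lit 163978) (nat_lit 30) (.e (nat_lit 573484) (nat_lit 13) (.e (nat_lit 65610) (nat_lit 10) (.e (nat_lit 344117) (nat_lit 21) (.e (nat_lit 516151) (nat_lit 9) (.e (nat_lit 426023) (nat_lit 0) (.e (nat_lit 3402) (nat_lit 211) .nil)))))))) (.g (nat_lit 881) .nil .nil))) 
(.lf (nat_lit 886) (.g (nat_lit 4304) (.e (nat_lit 655373) (nat_lit 3) (.e (nat_lit 163978) (nat_lit 30) (.e (nat_lit 573484) (nat_lit 13) (.e (nat_lit 65610) (nat_lit 10) (.e (nat_lit 344117) (nat_lit 21) (.e (nat_lit 516151) (nat_lit 9) (.e (nat_lit 426043) (nat_lit 0) (.e (nat_lit 3409) (nat_lit 212) .nil)))))))) (.g (nat_lit 885) .nil .nil))))) (.nd (nat_lit 1) (.nd (nat_lit 2) 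
(.lf (nat_lit 881) (.g (nat_lit 4235) (.e (nat_lit 663564) (nat_lit 3) (.e (nat_lit 57479) (nat_lit 28) (.e (nat_lit 557100) (nat_lit 13) (.e (nat_lit 172106) (nat_lit 10) (.e (nat_lit 434231) (nat_lit 23) (.e (nat_lit 532535) (nat_lit 9) (.e (nat_lit 335908) (nat_lit 0) (.e (nat_lit 1999) (nat_lit 137) .nil)))))))) (.g (nat_lit 882) .nil .nil))) 
(.lf (nat_lit 885) (.g (nat_lit 4304) (.e (nat_lit 671757) (nat_lit 3) (.e (nat_lit 57479) (nat_lit 28) (.e (nat_lit 557100) (nat_lit 13) (.e (nat_lit 172106) (nat_lit 10) (.e (nat_lit 434231) (nat_lit 23) (.e (nat_lit 532535) (nat_lit 9) (.e (nat_lit 335928) (nat_lit 0) (.e (nat_lit 2006) (nat_lit 138) .nil)))))))) (.g (nat_lit 886) .nil .nil)))) (.nd (nat_lit 2) 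
(.lf (nat_lit 883) (.g (nat_lit 4188) (.e (nat_lit 671757) (nat_lit 3) (.e (nat_lit 57479) (nat_lit 28) (.e (nat_lit 557100) (nat_lit 13) (.e (nat_lit 172106) (nat_lit 10) (.e (nat_lit 434231) (nat_lit 23) (.e (nat_lit 532535) (nat_lit 9) (.e (nat_lit 335928) (nat_lit 0) (.e (nat_lit 2004) (nat_lit 138) .nil)))))))) (.g (nat_lit 884) .nil .nil))) 
(.lf (nat_lit 887) (.g (nat_lit 4037) (.e (nat_lit 671762) (nat_lit 4) (.e (nat_lit 65630) (nat_lit 14) (.e (nat_lit 401459) (nat_lit 13) (.e (nat_lit 483394) (nat_lit 24) (.e (nat_lit 344169) (nat_lit 40) .nil))))) (.g (nat_lit 888) .nil .nil))))))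

noncomputable def tu138 : DT := (.nd (nat_lit 0) (.nd (nat_lit 1) (.nd (nat_lit 2) 
(.lf (nat_lit 888) (.g (nat_lit 4037) (.e (nat_lit 655378) (nat_lit 4) (.e (nat_lit 172126) (nat_lit 14) (.e (nat_lit 491571) (nat_lit 13) (.e (nat_lit 393282) (nat_lit 24) (.e (nat_lit 434272) (nat_lit 38) .nil))))) (.g (nat_lit 887) .nil .nil))) 
(.lf (nat_lit 892) (.g (nat_lit 3555) (.e (nat_lit 778320) (nat_lit 4) (.e (nat_lit 65630) (nat_lit 14) (.e (nat_lit 401438) (nat_lit 9) (.e (nat_lit 426542) (nat_lit 29) (.e (nat_lit 352267) (nat_lit 0) (.e (nat_lit 3631) (nat_lit 227) .nil)))))) (.g (nat_lit 891) .nil .nil)))) (.nd (nat_lit 2) 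
(.lf (nat_lit 890) (.g (nat_lit 4064) (.e (nat_lit 778316) (nat_lit 3) (.e (nat_lit 57479) (nat_lit 28) (.e (nat_lit 557100) (nat_lit 13) (.e (nat_lit 172106) (nat_lit 10) (.e (nat_lit 434231) (nat_lit 23) (.e (nat_lit 532535) (nat_lit 9) (.e (nat_lit 336290) (nat_lit 15) (.e (nat_lit 3716) (nat_lit 227) .nil)))))))) (.g (nat_lit 889) .nil .nil))) 
(.lf (nat_lit 894) (.g (nat_lit 954) (.e (nat_lit 794635) (nat_lit 11) (.e (nat_lit 336154) (nat_lit 9) (.e (nat_lit 336420) (nat_lit 28) (.e (nat_lit 434197) (nat_lit 16) (.e (nat_lit 164289) (nat_lit 224) (.e (nat_lit 164112) (nat_lit 118) .nil)))))) (.g (nat_lit 893) .nil .nil))))) (.nd (nat_lit 1) (.nd (nat_lit 2) 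
(.lf (nat_lit 889) (.g (nat_lit 4064) (.e (nat_lit 704588) (nat_lit 3) (.e (nat_lit 163978) (nat_lit 30) (.e (nat_lit 573484) (nat_lit 13) (.e (nat_lit 65610) (nat_lit 10) (.e (nat_lit 344117) (nat_lit 21) (.e (nat_lit 516151) (nat_lit 9) (.e (nat_lit 426407) (nat_lit 15) (.e (nat_lit 2148) (nat_lit 142) .nil)))))))) (.g (nat_lit 890) .nil .nil))) 
(.lf (nat_lit 893) (.g (nat_lit 954) (.e (nat_lit 720907) (nat_lit 11) (.e (nat_lit 426262) (nat_lit 9) (.e (nat_lit 426532) (nat_lit 28) (.e (nat_lit 344084) (nat_lit 14) (.e (nat_lit 57811) (nat_lit 246) (.e (nat_lit 57610) (nat_lit 109) .nil)))))) (.g (nat_lit 894) .nil .nil)))) (.nd (nat_lit 2) 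
(.lf (nat_lit 891) (.g (nat_lit 3555) (.e (nat_lit 704592) (nat_lit 4) (.e (nat_lit 172126) (nat_lit 14) (.e (nat_lit 491550) (nat_lit 9) (.e (nat_lit 336430) (nat_lit 29) (.e (nat_lit 442379) (nat_lit 0) (.e (nat_lit 2058) (nat_lit 142) .nil)))))) (.g (nat_lit 892) .nil .nil))) 
(.lf (nat_lit 895) (.g (nat_lit 4341) (.e (nat_lit 770071) (nat_lit 8) (.e (nat_lit 65566) (nat_lit 2) (.e (nat_lit 90170) (nat_lit 13) (.e (nat_lit 172106) (nat_lit 10) (.e (nat_lit 434244) (nat_lit 28) (.e (nat_lit 573474) (nat_lit 12) (.e (nat_lit 57570) (nat_lit 54) .nil))))))) (.g (nat_lit 896) .nil .nil))))))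

noncomputable def tu139 : DT := (.nd (nat_lit 0) (.nd (nat_lit 1) (.nd (nat_lit 2) 
(.lf (nat_lit 896) (.g (nat_lit 4341) (.e (nat_lit 696343) (nat_lit 8) (.e (nat_lit 172062) (nat_lit 2) (.e (nat_lit 196666) (nat_lit 13) (.e (nat_lit 65610) (nat_lit 10) (.e (nat_lit 344129) (nat_lit 26) (.e (nat_lit 557090) (nat_lit 12) (.e (nat_lit 164018) (nat_lit 45) .nil))))))) (.g (nat_lit 895) .nil .nil))) 
(.lf (nat_lit 900) (.g (nat_lit 4933) (.e (nat_lit 696343) (nat_lit 8) (.e (nat_lit 172064) (nat_lit 2) (.e (nat_lit 196666) (nat_lit 13) (.e (nat_lit 65610) (nat_lit 10) (.e (nat_lit 344129) (nat_lit 26) (.e (nat_lit 557090) (nat_lit 12) (.e (nat_lit 164018) (nat_lit 45) .nil))))))) (.g (nat_lit 899) .nil .nil)))) (.nd (nat_lit 2) 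
(.lf (nat_lit 898) (.g (nat_lit 4702) (.e (nat_lit 696343) (nat_lit 8) (.e (nat_lit 172062) (nat_lit 2) (.e (nat_lit 196666) (nat_lit 13) (.e (nat_lit 65610) (nat_lit 10) (.e (nat_lit 344129) (nat_lit 26) (.e (nat_lit 557090) (nat_lit 12) (.e (nat_lit 164020) (nat_lit 45) .nil))))))) (.g (nat_lit 897) .nil .nil))) 
(.lf (nat_lit 902) (.g (nat_lit 688) (.e (nat_lit 729100) (nat_lit 13) (.e (nat_lit 442395) (nat_lit 20) (.e (nat_lit 3563) (nat_lit 221) (.e (nat_lit 729100) (nat_lit 13) (.e (nat_lit 442395) (nat_lit 20) (.e (nat_lit 3563) (nat_lit 221) .nil)))))) (.g (nat_lit 901) .nil .nil))))) (.nd (nat_lit 1) (.nd (nat_lit 2) 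
(.lf (nat_lit 897) (.g (nat_lit 4702) (.e (nat_lit 770071) (nat_lit 8) (.e (nat_lit 65566) (nat_lit 2) (.e (nat_lit 90170) (nat_lit 13) (.e (nat_lit 172106) (nat_lit 10) (.e (nat_lit 434244) (nat_lit 28) (.e (nat_lit 573474) (nat_lit 12) (.e (nat_lit 57572) (nat_lit 54) .nil))))))) (.g (nat_lit 898) .nil .nil))) 
(.lf (nat_lit 901) (.g (nat_lit 688) (.e (nat_lit 802828) (nat_lit 13) (.e (nat_lit 352283) (nat_lit 20) (.e (nat_lit 2375) (nat_lit 154) (.e (nat_lit 802828) (nat_lit 13) (.e (nat_lit 352283) (nat_lit 20) (.e (nat_lit 2375) (nat_lit 154) .nil)))))) (.g (nat_lit 902) .nil .nil)))) 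
(.lf (nat_lit 899) (.g (nat_lit 4933) (.e (nat_lit 770071) (nat_lit 8) (.e (nat_lit 65568) (nat_lit 2) (.e (nat_lit 90170) (nat_lit 13) (.e (nat_lit 172106) (nat_lit 10) (.e (nat_lit 434244) (nat_lit 28) (.e (nat_lit 573474) (nat_lit 12) (.e (nat_lit 57570) (nat_lit 54) .nil))))))) (.g (nat_lit 900) .nil .nil)))))


end

end Pool.Agent.Lib.MP_5854e1_co.Cz
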