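import Pool.Agent.Lib.MP_5854e1_co.DtD

/-!
# Windows and cells of the rings
-/

set_option autoImplicit false
set_option maxRecDepth 100000
set_option deprecated.oldSectionVars true

namespace Pool.Agent.Lib.MP_5854e1_co.Cz

open Pool.Agent.Lib.MP_5854e1_co

noncomputable section

noncomputable def tv080 : DT := (.nd (nat_lit 0) (.nd (nat_lit 1) (.nd (nat_lit 2) (.nd (nat_lit 3) (.nd (nat_lit 4) (.nd (nat_lit 5) 
(.lf (nat_lit 5952) (.g (nat_lit 4070) (.e (nat_lit 290) (nat_lit 21) (.e (nat_lit 336230) (nat_lit 14) (.e (nat_lit 401432) (nat_lit 7) (.e (nat_lit 409649) (nat_lit 18) (.e (nat_lit 303140) (nat_lit 10) (.e (nat_lit 434275) (nat_lit 39) (.e (nat_lit 663574) (nat_lit 9) .nil))))))) (.g (nat_lit 7) .nil .nil))) 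
(.lf (nat_lit 5984) (.g (nat_lit 3598) (.e (nat_lit 290) (nat_lit 21) (.e (nat_lit 336231) (nat_lit 14) (.e (nat_lit 401426) (nat_lit 3) (.e (nat_lit 204869) (nat_lit 29) (.e (nat_lit 360475) (nat_lit 8) (.e (nat_lit 557068) (nat_lit 9) .nil)))))) (.g (nat_lit 0) .nil .nil)))) (.nd (nat_lit 5) 
(.lf (nat_lit 5968) (.g (nat_lit 1870) (.e (nat_lit 290) (nat_lit 21) (.e (nat_lit 336231) (nat_lit 14) (.e (nat_lit 401424) (nat_lit 2) (.e (nat_lit 196666) (nat_lit 13) (.e (nat_lit 65617) (nat_lit 10) (.e (nat_lit 344127) (nat_lit 26) (.e (nat_lit 557072) (nat_lit 9) .nil))))))) (.g (nat_lit 4) .nil .nil))) 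
(.lf (nat_lit 6000) (.g (nat_lit 2788) (.e (nat_lit 290) (nat_lit 21) (.e (nat_lit 336231) (nat_lit 14) (.e (nat_lit 401428) (nat_lit 3) (.e (nat_lit 204868) (nat_lit 29) (.e (nat_lit 360473) (nat_lit 8) (.e (nat_lit 557073) (nat_lit 9) .nil)))))) (.g (nat_lit 6) .nil .nil))))) (.nd (nat_lit 4) (.nd (nat_lit 5) 
(.lf (nat_lit 5960) (.g (nat_lit 2631) (.e (nat_lit 290) (nat_lit 21) (.e (nat_lit 336231) (nat_lit 14) (.e (nat_lit 401414) (nat_lit 0) (.e (nat_lit 3238) (nat_lit 197) (.e (nat_lit 532549) (nat_lit 12) (.e (nat_lit 360474) (nat_lit 8) (.e (nat_lit 557072) (nat_lit 9) .nil))))))) (.g (nat_lit 5) .nil .nil))) 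
(.lf (nat_lit 5992) (.g (nat_lit 3942) (.e (nat_lit 290) (nat_lit 21) (.e (nat_lit 336231) (nat_lit 14) (.e (nat_lit 401427) (nat_lit 3) (.e (nat_lit 204869) (nat_lit 29) (.e (nat_lit 360474) (nat_lit 8) (.e (nat_lit 557072) (nat_lit 9) .nil)))))) (.g (nat_lit 6) .nil .nil)))) (.nd (nat_lit 5) 
(.lf (nat_lit 5976) (.g (nat_lit 2438) (.e (nat_lit 290) (nat_lit 21) (.e (nat_lit 336231) (nat_lit 14) (.e (nat_lit 401425) (nat_lit 2) (.e (nat_lit 196666) (nat_lit 13) (.e (nat_lit 65617) (nat_lit 10) (.e (nat_lit 344127) (nat_lit 26) (.e (nat_lit 557072) (nat_lit 9) .nil))))))) (.g (nat_lit 4) .nil .nil))) 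
(.lf (nat_lit 6008) (.g (nat_lit 4138) (.e (nat_lit 290) (nat_lit 21) (.e (nat_lit 336231) (nat_lit 14) (.e (nat_lit 401432) (nat_lit 7) (.e (nat_lit 409646) (nat_lit 18) (.e (nat_lit 303140) (nat_lit 10) (.e (nat_lit 434275) (nat_lit 39) (.e (nat_lit 663574) (nat_lit 9) .nil))))))) (.g (nat_lit 7) .nil .nil)))))) (.nd (nat_lit 3) (.nd (nat_lit 4) (.nd (nat_lit 5) 
(.lf (nat_lit 5956) (.g (nat_lit 1160) (.e (nat_lit 290) (nat_lit 21) (.e (nat_lit 336231) (nat_lit 14) (.e (nat_lit 401414) (nat_lit 0) (.e (nat_lit 3124) (nat_lit 193) .nil)))) .nil)) 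
(.lf (nat_lit 5988) (.g (nat_lit 2809) (.e (nat_lit 290) (nat_lit 21) (.e (nat_lit 336231) (nat_lit 14) (.e (nat_lit 401427) (nat_lit 3) (.e (nat_lit 204868) (nat_lit 29) (.e (nat_lit 360473) (nat_lit 8) (.e (nat_lit 557072) (nat_lit 9) .nil)))))) (.g (nat_lit 6) .nil .nil)))) (.nd (nat_lit 5) 
(.lf (nat_lit 5972) (.g (nat_lit 4220) (.e (nat_lit 290) (nat_lit 21) (.e (nat_lit 336231) (nat_lit 14) (.e (nat_lit 401424) (nat_lit 2) (.e (nat_lit 196666) (nat_lit 13) (.e (nat_lit 65617) (nat_lit 10) (.e (nat_lit 344133) (nat_lit 26) (.e (nat_lit 557068) (nat_lit 9) .nil))))))) (.g (nat_lit 7) .nil .nil))) 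
(.lf (nat_lit 6004) (.g (nat_lit 4323) (.e (nat_lit 290) (nat_lit 21) (.e (nat_lit 336231) (nat_lit 14) (.e (nat_lit 401428) (nat_lit 3) (.e (nat_lit 204869) (nat_lit 29) (.e (nat_lit 360475) (nat_lit 8) (.e (nat_lit 557067) (nat_lit 9) .nil)))))) (.g (nat_lit 6) .nil .nil))))) (.nd (nat_lit 4) (.nd (nat_lit 5) 
(.lf (nat_lit 5964) (.g (nat_lit 5107) (.e (nat_lit 290) (nat_lit 21) (.e (nat_lit 336231) (nat_lit 14) (.e (nat_lit 401414) (nat_lit 0) (.e (nat_lit 3238) (nat_lit 197) (.e (nat_lit 532550) (nat_lit 12) (.e (nat_lit 360475) (nat_lit 8) (.e (nat_lit 557073) (nat_lit 9) .nil))))))) (.g (nat_lit 7) .nil .nil))) 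
(.lf (nat_lit 5996) (.g (nat_lit 4955) (.e (nat_lit 290) (nat_lit 21) (.e (nat_lit 336231) (nat_lit 14) (.e (nat_lit 401427) (nat_lit 3) (.e (nat_lit 204869) (nat_lit 29) (.e (nat_lit 360475) (nat_lit 8) (.e (nat_lit 557073) (nat_lit 9) .nil)))))) (.g (nat_lit 6) .nil .nil)))) (.nd (nat_lit 5) 
(.lf (nat_lit 5980) (.g (nat_lit 4637) (.e (nat_lit 290) (nat_lit 21) (.e (nat_lit 336231) (nat_lit 14) (.e (nat_lit 401425) (nat_lit 2) (.e (nat_lit 196666) (nat_lit 13) (.e (nat_lit 65617) (nat_lit 10) (.e (nat_lit 344133) (nat_lit 26) (.e (nat_lit 557068) (nat_lit 9) .nil))))))) (.g (nat_lit 7) .nil .nil))) 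
(.lf (nat_lit 6012) (.g (nat_lit 2735) (.e (nat_lit 290) (nat_lit 21) (.e (nat_lit 336231) (nat_lit 14) (.e (nat_lit 401456) (nat_lit 13) (.e (nat_lit 483372) (nat_lit 21) (.e (nat_lit 319511) (nat_lit 10) (.e (nat_lit 5626) (nat_lit 312) .nil)))))) (.g (nat_lit 4) .nil .nil))))))) (.nd (nat_lit 2) (.nd (nat_lit 3) (.nd (nat_lit 4) (.nd (nat_lit 5) 
(.lf (nat_lit 5954) (.g (nat_lit 2607) (.e (nat_lit 290) (nat_lit 21) (.e (nat_lit 336231) (nat_lit 14) (.e (nat_lit 401408) (nat_lit 0) (.e (nat_lit 3238) (nat_lit 197) (.e (nat_lit 532550) (nat_lit 12) (.e (nat_lit 360474) (nat_lit 8) (.e (nat_lit 557073) (nat_lit 9) .nil))))))) (.g (nat_lit 5) .nil .nil))) 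
(.lf (nat_lit 5986) (.g (nat_lit 1858) (.e (nat_lit 290) (nat_lit 21) (.e (nat_lit 336231) (nat_lit 14) (.e (nat_lit 401426) (nat_lit 3) (.e (nat_lit 204877) (nat_lit 31) (.e (nat_lit 376855) (nat_lit 20) (.e (nat_lit 1856) (nat_lit 124) (.e (nat_lit 557072) (nat_lit 9) .nil))))))) (.g (nat_lit 4) .nil .nil)))) (.nd (nat_lit 5) 
(.lf (nat_lit 5970) (.g (nat_lit 4209) (.e (nat_lit 290) (nat_lit 21) (.e (nat_lit 336231) (nat_lit 14) (.e (nat_lit 401424) (nat_lit 2) (.e (nat_lit 196666) (nat_lit 13) (.e (nat_lit 65617) (nat_lit 10) (.e (nat_lit 344132) (nat_lit 26) (.e (nat_lit 557072) (nat_lit 9) .nil))))))) (.g (nat_lit 7) .nil .nil))) 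
(.lf (nat_lit 6002) (.g (nat_lit 4297) (.e (nat_lit 290) (nat_lit 21) (.e (nat_lit 336231) (nat_lit 14) (.e (nat_lit 401428) (nat_lit 3) (.e (nat_lit 204869) (nat_lit 29) (.e (nat_lit 360474) (nat_lit 8) (.e (nat_lit 557072) (nat_lit 9) .nil)))))) (.g (nat_lit 6) .nil .nil))))) (.nd (nat_lit 4) (.nd (nat_lit 5) 
(.lf (nat_lit 5962) (.g (nat_lit 3988) (.e (nat_lit 290) (nat_lit 21) (.e (nat_lit 336231) (nat_lit 14) (.e (nat_lit 401414) (nat_lit 0) (.e (nat_lit 3238) (nat_lit 197) (.e (nat_lit 532550) (nat_lit 12) (.e (nat_lit 360474) (nat_lit 8) (.e (nat_lit 557073) (nat_lit 9) .nil))))))) (.g (nat_lit 7) .nil .nil))) 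
(.lf (nat_lit 5994) (.g (nat_lit 4716) (.e (nat_lit 290) (nat_lit 21) (.e (nat_lit 336231) (nat_lit 14) (.e (nat_lit 401427) (nat_lit 3) (.e (nat_lit 204869) (nat_lit 29) (.e (nat_lit 360475) (nat_lit 8) (.e (nat_lit 557067) (nat_lit 9) .nil)))))) (.g (nat_lit 6) .nil .nil)))) (.nd (nat_lit 5) 
(.lf (nat_lit 5978) (.g (nat_lit 4595) (.e (nat_lit 290) (nat_lit 21) (.e (nat_lit 336231) (nat_lit 14) (.e (nat_lit 401425) (nat_lit 2) (.e (nat_lit 196666) (nat_lit 13) (.e (nat_lit 65617) (nat_lit 10) (.e (nat_lit 344132) (nat_lit 26) (.e (nat_lit 557072) (nat_lit 9) .nil))))))) (.g (nat_lit 7) .nil .nil))) 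
(.lf (nat_lit 6010) (.g (nat_lit 4784) (.e (nat_lit 290) (nat_lit 21) (.e (nat_lit 336231) (nat_lit 14) (.e (nat_lit 401432) (nat_lit 7) (.e (nat_lit 409649) (nat_lit 18) (.e (nat_lit 303140) (nat_lit 10) (.e (nat_lit 434275) (nat_lit 39) (.e (nat_lit 663574) (nat_lit 9) .nil))))))) (.g (nat_lit 7) .nil .nil)))))) (.nd (nat_lit 3) (.nd (nat_lit 4) (.nd (nat_lit 5) 
(.lf (nat_lit 5958) (.g (nat_lit 3872) (.e (nat_lit 290) (nat_lit 21) (.e (nat_lit 336231) (nat_lit 14) (.e (nat_lit 401414) (nat_lit 0) (.e (nat_lit 3238) (nat_lit 197) (.e (nat_lit 532549) (nat_lit 12) (.e (nat_lit 360473) (nat_lit 8) (.e (nat_lit 557072) (nat_lit 9) .nil))))))) (.g (nat_lit 7) .nil .nil))) 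
(.lf (nat_lit 5990) (.g (nat_lit 3977) (.e (nat_lit 290) (nat_lit 21) (.e (nat_lit 336231) (nat_lit 14) (.e (nat_lit 401427) (nat_lit 3) (.e (nat_lit 204869) (nat_lit 29) (.e (nat_lit 360473) (nat_lit 8) (.e (nat_lit 557068) (nat_lit 9) .nil)))))) (.g (nat_lit 5) .nil .nil)))) (.nd (nat_lit 5) 
(.lf (nat_lit 5974) (.g (nat_lit 4108) (.e (nat_lit 290) (nat_lit 21) (.e (nat_lit 336231) (nat_lit 14) (.e (nat_lit 401424) (nat_lit 2) (.e (nat_lit 196674) (nat_lit 15) (.e (nat_lit 81946) (nat_lit 20) (.e (nat_lit 1858) (nat_lit 124) (.e (nat_lit 557072) (nat_lit 9) .nil))))))) (.g (nat_lit 7) .nil .nil))) 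
(.lf (nat_lit 6006) (.g (nat_lit 4705) (.e (nat_lit 290) (nat_lit 21) (.e (nat_lit 336231) (nat_lit 14) (.e (nat_lit 401428) (nat_lit 3) (.e (nat_lit 204869) (nat_lit 29) (.e (nat_lit 360475) (nat_lit 8) (.e (nat_lit 557073) (nat_lit 9) .nil)))))) (.g (nat_lit 5) .nil .nil))))) (.nd (nat_lit 4) (.nd (nat_lit 5) 
(.lf (nat_lit 5966) (.g (nat_lit 2671) (.e (nat_lit 290) (nat_lit 21) (.e (nat_lit 336231) (nat_lit 14) (.e (nat_lit 401423) (nat_lit 2) (.e (nat_lit 196674) (nat_lit 15) (.e (nat_lit 81946) (nat_lit 20) (.e (nat_lit 1858) (nat_lit 124) (.e (nat_lit 557073) (nat_lit 9) .nil))))))) (.g (nat_lit 5) .nil .nil))) 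
(.lf (nat_lit 5998) (.g (nat_lit 2891) (.e (nat_lit 290) (nat_lit 21) (.e (nat_lit 336231) (nat_lit 14) (.e (nat_lit 401428) (nat_lit 3) (.e (nat_lit 204868) (nat_lit 29) (.e (nat_lit 360473) (nat_lit 8) (.e (nat_lit 557068) (nat_lit 9) .nil)))))) (.g (nat_lit 6) .nil .nil)))) (.nd (nat_lit 5) 
(.lf (nat_lit 5982) (.g (nat_lit 2333) (.e (nat_lit 290) (nat_lit 21) (.e (nat_lit 336231) (nat_lit 14) (.e (nat_lit 401425) (nat_lit 2) (.e (nat_lit 196674) (nat_lit 15) (.e (nat_lit 81946) (nat_lit 20) .nil))))) .nil)) 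
(.lf (nat_lit 6014) (.g (nat_lit 4397) (.e (nat_lit 290) (nat_lit 21) (.e (nat_lit 336231) (nat_lit 14) (.e (nat_lit 401458) (nat_lit 13) (.e (nat_lit 483372) (nat_lit 21) (.e (nat_lit 319504) (nat_lit 10) (.e (nat_lit 7936) (nat_lit 312) .nil)))))) (.g (nat_lit 5) .nil .nil)))))))) (.nd (nat_lit 1) (.nd (nat_lit 2) (.nd (nat_lit 3) (.nd (nat_lit 4) (.nd (nat_lit 5) 
(.lf (nat_lit 5953) (.g (nat_lit 2073) (.e (nat_lit 290) (nat_lit 21) (.e (nat_lit 336231) (nat_lit 14) (.e (nat_lit 401408) (nat_lit 0) (.e (nat_lit 3238) (nat_lit 197) (.e (nat_lit 532549) (nat_lit 12) (.e (nat_lit 360473) (nat_lit 8) (.e (nat_lit 557072) (nat_lit 9) .nil))))))) (.g (nat_lit 4) .nil .nil))) 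
(.lf (nat_lit 5985) (.g (nat_lit 3939) (.e (nat_lit 290) (nat_lit 21) (.e (nat_lit 336231) (nat_lit 14) (.e (nat_lit 401426) (nat_lit 3) (.e (nat_lit 204869) (nat_lit 29) (.e (nat_lit 360475) (nat_lit 8) (.e (nat_lit 557073) (nat_lit 9) .nil)))))) (.g (nat_lit 6) .nil .nil)))) (.nd (nat_lit 5) 
(.lf (nat_lit 5969) (.g (nat_lit 4239) (.e (nat_lit 290) (nat_lit 21) (.e (nat_lit 336231) (nat_lit 14) (.e (nat_lit 401424) (nat_lit 2) (.e (nat_lit 196666) (nat_lit 13) (.e (nat_lit 65617) (nat_lit 10) (.e (nat_lit 344130) (nat_lit 26) (.e (nat_lit 557067) (nat_lit 9) .nil))))))) (.g (nat_lit 0) .nil .nil))) 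
(.lf (nat_lit 6001) (.g (nat_lit 4057) (.e (nat_lit 290) (nat_lit 21) (.e (nat_lit 336231) (nat_lit 14) (.e (nat_lit 401428) (nat_lit 3) (.e (nat_lit 204869) (nat_lit 29) (.e (nat_lit 360474) (nat_lit 8) (.e (nat_lit 557068) (nat_lit 9) .nil)))))) (.g (nat_lit 6) .nil .nil))))) (.nd (nat_lit 4) (.nd (nat_lit 5) 
(.lf (nat_lit 5961) (.g (nat_lit 4250) (.e (nat_lit 290) (nat_lit 21) (.e (nat_lit 336231) (nat_lit 14) (.e (nat_lit 401414) (nat_lit 0) (.e (nat_lit 3238) (nat_lit 197) (.e (nat_lit 532550) (nat_lit 12) (.e (nat_lit 360474) (nat_lit 8) (.e (nat_lit 557072) (nat_lit 9) .nil))))))) (.g (nat_lit 7) .nil .nil))) 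
(.lf (nat_lit 5993) (.g (nat_lit 3826) (.e (nat_lit 290) (nat_lit 21) (.e (nat_lit 336231) (nat_lit 14) (.e (nat_lit 401427) (nat_lit 3) (.e (nat_lit 204869) (nat_lit 29) (.e (nat_lit 360474) (nat_lit 8) (.e (nat_lit 557073) (nat_lit 9) .nil)))))) (.g (nat_lit 0) .nil .nil)))) (.nd (nat_lit 5) 
(.lf (nat_lit 5977) (.g (nat_lit 4618) (.e (nat_lit 290) (nat_lit 21) (.e (nat_lit 336231) (nat_lit 14) (.e (nat_lit 401425) (nat_lit 2) (.e (nat_lit 196666) (nat_lit 13) (.e (nat_lit 65617) (nat_lit 10) (.e (nat_lit 344130) (nat_lit 26) (.e (nat_lit 557067) (nat_lit 9) .nil))))))) (.g (nat_lit 0) .nil .nil))) 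
(.lf (nat_lit 6009) (.g (nat_lit 4855) (.e (nat_lit 290) (nat_lit 21) (.e (nat_lit 336231) (nat_lit 14) (.e (nat_lit 401432) (nat_lit 7) (.e (nat_lit 409648) (nat_lit 18) (.e (nat_lit 303137) (nat_lit 10) (.e (nat_lit 434275) (nat_lit 39) (.e (nat_lit 663574) (nat_lit 9) .nil))))))) (.g (nat_lit 7) .nil .nil)))))) (.nd (nat_lit 3) (.nd (nat_lit 4) (.nd (nat_lit 5) 
(.lf (nat_lit 5957) (.g (nat_lit 3762) (.e (nat_lit 290) (nat_lit 21) (.e (nat_lit 336231) (nat_lit 14) (.e (nat_lit 401414) (nat_lit 0) (.e (nat_lit 3238) (nat_lit 197) (.e (nat_lit 532549) (nat_lit 12) (.e (nat_lit 360473) (nat_lit 8) (.e (nat_lit 557068) (nat_lit 9) .nil))))))) (.g (nat_lit 7) .nil .nil))) 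
(.lf (nat_lit 5989) (.g (nat_lit 2698) (.e (nat_lit 290) (nat_lit 21) (.e (nat_lit 336231) (nat_lit 14) (.e (nat_lit 401427) (nat_lit 3) (.e (nat_lit 204868) (nat_lit 29) (.e (nat_lit 360473) (nat_lit 8) (.e (nat_lit 557073) (nat_lit 9) .nil)))))) (.g (nat_lit 0) .nil .nil)))) (.nd (nat_lit 5) 
(.lf (nat_lit 5973) (.g (nat_lit 1818) (.e (nat_lit 290) (nat_lit 21) (.e (nat_lit 336231) (nat_lit 14) (.e (nat_lit 401424) (nat_lit 2) (.e (nat_lit 196674) (nat_lit 15) (.e (nat_lit 81946) (nat_lit 20) .nil))))) .nil)) 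
(.lf (nat_lit 6005) (.g (nat_lit 4290) (.e (nat_lit 290) (nat_lit 21) (.e (nat_lit 336231) (nat_lit 14) (.e (nat_lit 401428) (nat_lit 3) (.e (nat_lit 204869) (nat_lit 29) (.e (nat_lit 360475) (nat_lit 8) (.e (nat_lit 557068) (nat_lit 9) .nil)))))) (.g (nat_lit 6) .nil .nil))))) (.nd (nat_lit 4) (.nd (nat_lit 5) 
(.lf (nat_lit 5965) (.g (nat_lit 3606) (.e (nat_lit 290) (nat_lit 21) (.e (nat_lit 336231) (nat_lit 14) (.e (nat_lit 401423) (nat_lit 2) (.e (nat_lit 196674) (nat_lit 15) (.e (nat_lit 81946) (nat_lit 20) (.e (nat_lit 1858) (nat_lit 124) (.e (nat_lit 557072) (nat_lit 9) .nil))))))) (.g (nat_lit 6) .nil .nil))) 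
(.lf (nat_lit 5997) (.g (nat_lit 491) (.e (nat_lit 290) (nat_lit 21) (.e (nat_lit 336231) (nat_lit 14) (.e (nat_lit 401428) (nat_lit 3) .nil))) .nil))) (.nd (nat_lit 5) 
(.lf (nat_lit 5981) (.g (nat_lit 2957) (.e (nat_lit 290) (nat_lit 21) (.e (nat_lit 336231) (nat_lit 14) (.e (nat_lit 401425) (nat_lit 2) (.e (nat_lit 196666) (nat_lit 13) (.e (nat_lit 65617) (nat_lit 10) (.e (nat_lit 344133) (nat_lit 26) (.e (nat_lit 557073) (nat_lit 9) .nil))))))) (.g (nat_lit 5) .nil .nil))) 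
(.lf (nat_lit 6013) (.g (nat_lit 3032) (.e (nat_lit 290) (nat_lit 21) (.e (nat_lit 336231) (nat_lit 14) (.e (nat_lit 401458) (nat_lit 13) (.e (nat_lit 483350) (nat_lit 17) (.e (nat_lit 6113) (nat_lit 332) (.e (nat_lit 975) (nat_lit 81) (.e (nat_lit 5626) (nat_lit 312) .nil))))))) (.g (nat_lit 4) .nil .nil))))))) (.nd (nat_lit 2) (.nd (nat_lit 3) (.nd (nat_lit 4) (.nd (nat_lit 5) 
(.lf (nat_lit 5955) (.g (nat_lit 347) (.e (nat_lit 290) (nat_lit 21) (.e (nat_lit 336231) (nat_lit 14) (.e (nat_lit 401414) (nat_lit 0) .nil))) .nil)) 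
(.lf (nat_lit 5987) (.g (nat_lit 2743) (.e (nat_lit 290) (nat_lit 21) (.e (nat_lit 336231) (nat_lit 14) (.e (nat_lit 401427) (nat_lit 3) (.e (nat_lit 204868) (nat_lit 29) (.e (nat_lit 360473) (nat_lit 8) (.e (nat_lit 557068) (nat_lit 9) .nil)))))) (.g (nat_lit 6) .nil .nil)))) (.nd (nat_lit 5) 
(.lf (nat_lit 5971) (.g (nat_lit 3965) (.e (nat_lit 290) (nat_lit 21) (.e (nat_lit 336231) (nat_lit 14) (.e (nat_lit 401424) (nat_lit 2) (.e (nat_lit 196666) (nat_lit 13) (.e (nat_lit 65617) (nat_lit 10) (.e (nat_lit 344132) (nat_lit 26) (.e (nat_lit 557073) (nat_lit 9) .nil))))))) (.g (nat_lit 0) .nil .nil))) 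
(.lf (nat_lit 6003) (.g (nat_lit 4153) (.e (nat_lit 290) (nat_lit 21) (.e (nat_lit 336231) (nat_lit 14) (.e (nat_lit 401428) (nat_lit 3) (.e (nat_lit 204869) (nat_lit 29) (.e (nat_lit 360474) (nat_lit 8) (.e (nat_lit 557073) (nat_lit 9) .nil)))))) (.g (nat_lit 6) .nil .nil))))) (.nd (nat_lit 4) (.nd (nat_lit 5) 
(.lf (nat_lit 5963) (.g (nat_lit 4589) (.e (nat_lit 290) (nat_lit 21) (.e (nat_lit 336231) (nat_lit 14) (.e (nat_lit 401414) (nat_lit 0) (.e (nat_lit 3238) (nat_lit 197) (.e (nat_lit 532550) (nat_lit 12) (.e (nat_lit 360475) (nat_lit 8) (.e (nat_lit 557068) (nat_lit 9) .nil))))))) (.g (nat_lit 7) .nil .nil))) 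
(.lf (nat_lit 5995) (.g (nat_lit 4213) (.e (nat_lit 290) (nat_lit 21) (.e (nat_lit 336231) (nat_lit 14) (.e (nat_lit 401427) (nat_lit 3) (.e (nat_lit 204869) (nat_lit 29) (.e (nat_lit 360475) (nat_lit 8) (.e (nat_lit 557068) (nat_lit 9) .nil)))))) (.g (nat_lit 0) .nil .nil)))) (.nd (nat_lit 5) 
(.lf (nat_lit 5979) (.g (nat_lit 4275) (.e (nat_lit 290) (nat_lit 21) (.e (nat_lit 336231) (nat_lit 14) (.e (nat_lit 401425) (nat_lit 2) (.e (nat_lit 196666) (nat_lit 13) (.e (nat_lit 65617) (nat_lit 10) (.e (nat_lit 344132) (nat_lit 26) (.e (nat_lit 557073) (nat_lit 9) .nil))))))) (.g (nat_lit 0) .nil .nil))) 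
(.lf (nat_lit 6011) (.g (nat_lit 2663) (.e (nat_lit 290) (nat_lit 21) (.e (nat_lit 336231) (nat_lit 14) (.e (nat_lit 401456) (nat_lit 13) (.e (nat_lit 483372) (nat_lit 21) (.e (nat_lit 319504) (nat_lit 10) (.e (nat_lit 7936) (nat_lit 312) .nil)))))) (.g (nat_lit 4) .nil .nil)))))) (.nd (nat_lit 3) (.nd (nat_lit 4) (.nd (nat_lit 5) 
(.lf (nat_lit 5959) (.g (nat_lit 3713) (.e (nat_lit 290) (nat_lit 21) (.e (nat_lit 336231) (nat_lit 14) (.e (nat_lit 401414) (nat_lit 0) (.e (nat_lit 3238) (nat_lit 197) (.e (nat_lit 532549) (nat_lit 12) (.e (nat_lit 360473) (nat_lit 8) (.e (nat_lit 557073) (nat_lit 9) .nil))))))) (.g (nat_lit 7) .nil .nil))) 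
(.lf (nat_lit 5991) (.g (nat_lit 3415) (.e (nat_lit 290) (nat_lit 21) (.e (nat_lit 336231) (nat_lit 14) (.e (nat_lit 401427) (nat_lit 3) (.e (nat_lit 204869) (nat_lit 29) (.e (nat_lit 360474) (nat_lit 8) (.e (nat_lit 557068) (nat_lit 9) .nil)))))) (.g (nat_lit 6) .nil .nil)))) (.nd (nat_lit 5) 
(.lf (nat_lit 5975) (.g (nat_lit 1978) (.e (nat_lit 290) (nat_lit 21) (.e (nat_lit 336231) (nat_lit 14) (.e (nat_lit 401425) (nat_lit 2) (.e (nat_lit 196666) (nat_lit 13) (.e (nat_lit 65617) (nat_lit 10) .nil))))) .nil)) 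
(.lf (nat_lit 6007) (.g (nat_lit 2336) (.e (nat_lit 290) (nat_lit 21) (.e (nat_lit 336231) (nat_lit 14) (.e (nat_lit 401432) (nat_lit 7) (.e (nat_lit 409645) (nat_lit 18) (.e (nat_lit 303140) (nat_lit 10) (.e (nat_lit 434275) (nat_lit 39) (.e (nat_lit 663574) (nat_lit 9) .nil))))))) (.g (nat_lit 4) .nil .nil))))) (.nd (nat_lit 4) (.nd (nat_lit 5) 
(.lf (nat_lit 5967) (.g (nat_lit 4800) (.e (nat_lit 290) (nat_lit 21) (.e (nat_lit 336231) (nat_lit 14) (.e (nat_lit 401424) (nat_lit 2) (.e (nat_lit 196666) (nat_lit 13) (.e (nat_lit 65610) (nat_lit 10) (.e (nat_lit 344129) (nat_lit 26) (.e (nat_lit 557067) (nat_lit 9) .nil))))))) (.g (nat_lit 0) .nil .nil))) 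
(.lf (nat_lit 5999) (.g (nat_lit 2961) (.e (nat_lit 290) (nat_lit 21) (.e (nat_lit 336231) (nat_lit 14) (.e (nat_lit 401428) (nat_lit 3) (.e (nat_lit 204868) (nat_lit 29) (.e (nat_lit 360473) (nat_lit 8) (.e (nat_lit 557072) (nat_lit 9) .nil)))))) (.g (nat_lit 6) .nil .nil)))) (.nd (nat_lit 5) 
(.lf (nat_lit 5983) (.g (nat_lit 3488) (.e (nat_lit 290) (nat_lit 21) (.e (nat_lit 336231) (nat_lit 14) (.e (nat_lit 401426) (nat_lit 3) (.e (nat_lit 204868) (nat_lit 29) (.e (nat_lit 360475) (nat_lit 8) (.e (nat_lit 557068) (nat_lit 9) .nil)))))) (.g (nat_lit 5) .nil .nil))) 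
(.lf (nat_lit 6015) (.g (nat_lit 3908) (.e (nat_lit 290) (nat_lit 21) (.e (nat_lit 336231) (nat_lit 14) (.e (nat_lit 401458) (nat_lit 13) (.e (nat_lit 483372) (nat_lit 21) (.e (nat_lit 319505) (nat_lit 10) (.e (nat_lit 7936) (nat_lit 312) .nil)))))) (.g (nat_lit 5) .nil .nil)))))))))

noncomputable def tv081 : DT := (.nd (nat_lit 0) (.nd (nat_lit 1) (.nd (nat_lit 2) (.nd (nat_lit 3) (.nd (nat_lit 4) (.nd (nat_lit 5) 
(.lf (nat_lit 6016) (.g (nat_lit 2830) (.e (nat_lit 290) (nat_lit 21) (.e (nat_lit 336231) (nat_lit 14) (.e (nat_lit 401458) (nat_lit 13) (.e (nat_lit 483372) (nat_lit 21) (.e (nat_lit 327424) (nat_lit 10) .nil))))) .nil)) 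
(.lf (nat_lit 6048) (.g (nat_lit 1814) (.e (nat_lit 291) (nat_lit 21) (.e (nat_lit 336223) (nat_lit 13) (.e (nat_lit 393234) (nat_lit 17) (.e (nat_lit 7591) (nat_lit 407) .nil)))) .nil))) (.nd (nat_lit 5) 
(.lf (nat_lit 6032) (.g (nat_lit 4590) (.e (nat_lit 290) (nat_lit 21) (.e (nat_lit 336232) (nat_lit 14) (.e (nat_lit 401432) (nat_lit 7) (.e (nat_lit 409648) (nat_lit 18) (.e (nat_lit 303137) (nat_lit 10) (.e (nat_lit 434275) (nat_lit 39) (.e (nat_lit 663574) (nat_lit 9) .nil))))))) (.g (nat_lit 0) .nil .nil))) 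
(.lf (nat_lit 6064) (.g (nat_lit 2033) (.e (nat_lit 293) (nat_lit 21) (.e (nat_lit 336017) (nat_lit 3) (.e (nat_lit 98372) (nat_lit 29) (.e (nat_lit 450586) (nat_lit 10) (.e (nat_lit 573477) (nat_lit 12) (.e (nat_lit 57574) (nat_lit 55) (.e (nat_lit 778361) (nat_lit 9) .nil))))))) (.g (nat_lit 4) .nil .nil))))) (.nd (nat_lit 4) (.nd (nat_lit 5) 
(.lf (nat_lit 6024) (.g (nat_lit 4077) (.e (nat_lit 290) (nat_lit 21) (.e (nat_lit 336232) (nat_lit 14) (.e (nat_lit 401424) (nat_lit 2) (.e (nat_lit 196674) (nat_lit 15) (.e (nat_lit 81946) (nat_lit 20) (.e (nat_lit 1858) (nat_lit 124) (.e (nat_lit 557072) (nat_lit 9) .nil))))))) (.g (nat_lit 0) .nil .nil))) 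
(.lf (nat_lit 6056) (.g (nat_lit 4521) (.e (nat_lit 292) (nat_lit 21) (.e (nat_lit 336235) (nat_lit 14) (.e (nat_lit 401459) (nat_lit 13) (.e (nat_lit 483372) (nat_lit 21) (.e (nat_lit 319513) (nat_lit 10) .nil))))) .nil))) (.nd (nat_lit 5) 
(.lf (nat_lit 6040) (.g (nat_lit 2501) (.e (nat_lit 291) (nat_lit 21) (.e (nat_lit 336027) (nat_lit 3) (.e (nat_lit 98372) (nat_lit 29) (.e (nat_lit 450586) (nat_lit 10) (.e (nat_lit 573475) (nat_lit 12) .nil))))) .nil)) 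
(.lf (nat_lit 6072) (.g (nat_lit 2539) (.e (nat_lit 293) (nat_lit 21) (.e (nat_lit 336209) (nat_lit 13) (.e (nat_lit 393232) (nat_lit 17) (.e (nat_lit 7591) (nat_lit 407) (.e (nat_lit 73776) (nat_lit 26) (.e (nat_lit 778362) (nat_lit 9) .nil)))))) (.g (nat_lit 6) .nil .nil)))))) (.nd (nat_lit 3) (.nd (nat_lit 4) (.nd (nat_lit 5) 
(.lf (nat_lit 6020) (.g (nat_lit 3115) (.e (nat_lit 290) (nat_lit 21) (.e (nat_lit 336232) (nat_lit 14) (.e (nat_lit 401418) (nat_lit 0) (.e (nat_lit 3249) (nat_lit 197) (.e (nat_lit 532550) (nat_lit 12) (.e (nat_lit 360474) (nat_lit 8) (.e (nat_lit 557073) (nat_lit 9) .nil))))))) (.g (nat_lit 0) .nil .nil))) 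
(.lf (nat_lit 6052) (.g (nat_lit 4166) (.e (nat_lit 291) (nat_lit 21) (.e (nat_lit 336226) (nat_lit 14) (.e (nat_lit 401459) (nat_lit 13) (.e (nat_lit 483372) (nat_lit 21) (.e (nat_lit 319504) (nat_lit 10) .nil))))) .nil))) (.nd (nat_lit 5) 
(.lf (nat_lit 6036) (.g (nat_lit 2632) (.e (nat_lit 291) (nat_lit 21) (.e (nat_lit 336021) (nat_lit 3) (.e (nat_lit 98313) (nat_lit 9) (.e (nat_lit 336012) (nat_lit 2) (.e (nat_lit 90158) (nat_lit 11) (.e (nat_lit 24604) (nat_lit 2) (.e (nat_lit 90123) (nat_lit 9) .nil))))))) (.g (nat_lit 4) .nil .nil))) 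
(.lf (nat_lit 6068) (.g (nat_lit 5408) (.e (nat_lit 293) (nat_lit 21) (.e (nat_lit 336017) (nat_lit 3) (.e (nat_lit 98373) (nat_lit 29) (.e (nat_lit 450587) (nat_lit 10) (.e (nat_lit 573477) (nat_lit 12) (.e (nat_lit 57574) (nat_lit 55) (.e (nat_lit 778362) (nat_lit 9) .nil))))))) (.g (nat_lit 0) .nil .nil))))) (.nd (nat_lit 4) (.nd (nat_lit 5) 
(.lf (nat_lit 6028) (.g (nat_lit 3817) (.e (nat_lit 290) (nat_lit 21) (.e (nat_lit 336232) (nat_lit 14) (.e (nat_lit 401426) (nat_lit 3) (.e (nat_lit 204869) (nat_lit 29) (.e (nat_lit 360475) (nat_lit 8) (.e (nat_lit 557073) (nat_lit 9) .nil)))))) (.g (nat_lit 6) .nil .nil))) 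
(.lf (nat_lit 6060) (.g (nat_lit 2323) (.e (nat_lit 293) (nat_lit 21) (.e (nat_lit 336017) (nat_lit 3) (.e (nat_lit 98359) (nat_lit 26) (.e (nat_lit 426286) (nat_lit 10) (.e (nat_lit 434245) (nat_lit 28) (.e (nat_lit 573474) (nat_lit 12) (.e (nat_lit 57574) (nat_lit 55) (.e (nat_lit 778361) (nat_lit 9) .nil)))))))) (.g (nat_lit 4) .nil .nil)))) (.nd (nat_lit 5) 
(.lf (nat_lit 6044) (.g (nat_lit 3154) (.e (nat_lit 291) (nat_lit 21) (.e (nat_lit 336027) (nat_lit 3) (.e (nat_lit 98373) (nat_lit 29) (.e (nat_lit 450587) (nat_lit 10) (.e (nat_lit 573478) (nat_lit 12) .nil))))) .nil)) 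
(.lf (nat_lit 6076) (.g (nat_lit 2908) (.e (nat_lit 293) (nat_lit 21) (.e (nat_lit 336209) (nat_lit 13) (.e (nat_lit 393233) (nat_lit 17) (.e (nat_lit 7593) (nat_lit 407) (.e (nat_lit 73775) (nat_lit 26) (.e (nat_lit 778362) (nat_lit 9) .nil)))))) (.g (nat_lit 0) .nil .nil))))))) (.nd (nat_lit 2) (.nd (nat_lit 3) (.nd (nat_lit 4) (.nd (nat_lit 5) 
(.lf (nat_lit 6018) (.g (nat_lit 4792) (.e (nat_lit 290) (nat_lit 21) (.e (nat_lit 336232) (nat_lit 14) (.e (nat_lit 401414) (nat_lit 0) (.e (nat_lit 3238) (nat_lit 197) (.e (nat_lit 532550) (nat_lit 12) (.e (nat_lit 360475) (nat_lit 8) (.e (nat_lit 557073) (nat_lit 9) .nil))))))) (.g (nat_lit 0) .nil .nil))) 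
(.lf (nat_lit 6050) (.g (nat_lit 1807) (.e (nat_lit 291) (nat_lit 21) (.e (nat_lit 336223) (nat_lit 13) (.e (nat_lit 393301) (nat_lit 27) (.e (nat_lit 491560) (nat_lit 10) .nil)))) .nil))) (.nd (nat_lit 5) 
(.lf (nat_lit 6034) (.g (nat_lit 1537) (.e (nat_lit 290) (nat_lit 21) (.e (nat_lit 336232) (nat_lit 14) (.e (nat_lit 401456) (nat_lit 13) (.e (nat_lit 483372) (nat_lit 21) (.e (nat_lit 319504) (nat_lit 10) (.e (nat_lit 7936) (nat_lit 312) .nil)))))) (.g (nat_lit 4) .nil .nil))) 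
(.lf (nat_lit 6066) (.g (nat_lit 1805) (.e (nat_lit 293) (nat_lit 21) (.e (nat_lit 336017) (nat_lit 3) (.e (nat_lit 98372) (nat_lit 29) (.e (nat_lit 450586) (nat_lit 10) (.e (nat_lit 573478) (nat_lit 12) (.e (nat_lit 57574) (nat_lit 55) (.e (nat_lit 778361) (nat_lit 9) .nil))))))) (.g (nat_lit 4) .nil .nil))))) (.nd (nat_lit 4) (.nd (nat_lit 5) 
(.lf (nat_lit 6026) (.g (nat_lit 2892) (.e (nat_lit 290) (nat_lit 21) (.e (nat_lit 336232) (nat_lit 14) (.e (nat_lit 401426) (nat_lit 3) (.e (nat_lit 204869) (nat_lit 29) (.e (nat_lit 360474) (nat_lit 8) (.e (nat_lit 557073) (nat_lit 9) .nil)))))) (.g (nat_lit 0) .nil .nil))) 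
(.lf (nat_lit 6058) (.g (nat_lit 4813) (.e (nat_lit 293) (nat_lit 21) (.e (nat_lit 335872) (nat_lit 0) (.e (nat_lit 6618) (nat_lit 357) (.e (nat_lit 2668) (nat_lit 167) (.e (nat_lit 196666) (nat_lit 13) (.e (nat_lit 65610) (nat_lit 10) (.e (nat_lit 344129) (nat_lit 26) (.e (nat_lit 557066) (nat_lit 9) .nil)))))))) (.g (nat_lit 0) .nil .nil)))) (.nd (nat_lit 5) 
(.lf (nat_lit 6042) (.g (nat_lit 2479) (.e (nat_lit 291) (nat_lit 21) (.e (nat_lit 336027) (nat_lit 3) (.e (nat_lit 98372) (nat_lit 29) (.e (nat_lit 450586) (nat_lit 10) (.e (nat_lit 573478) (nat_lit 12) .nil))))) .nil)) 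
(.lf (nat_lit 6074) (.g (nat_lit 2862) (.e (nat_lit 293) (nat_lit 21) (.e (nat_lit 336209) (nat_lit 13) (.e (nat_lit 393233) (nat_lit 17) (.e (nat_lit 7591) (nat_lit 407) (.e (nat_lit 73775) (nat_lit 26) (.e (nat_lit 778362) (nat_lit 9) .nil)))))) (.g (nat_lit 6) .nil .nil)))))) (.nd (nat_lit 3) (.nd (nat_lit 4) (.nd (nat_lit 5) 
(.lf (nat_lit 6022) (.g (nat_lit 3757) (.e (nat_lit 290) (nat_lit 21) (.e (nat_lit 336232) (nat_lit 14) (.e (nat_lit 401423) (nat_lit 2) (.e (nat_lit 196666) (nat_lit 13) (.e (nat_lit 65617) (nat_lit 10) (.e (nat_lit 344133) (nat_lit 26) (.e (nat_lit 557068) (nat_lit 9) .nil))))))) (.g (nat_lit 0) .nil .nil))) 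
(.lf (nat_lit 6054) (.g (nat_lit 2796) (.e (nat_lit 292) (nat_lit 21) (.e (nat_lit 336235) (nat_lit 14) (.e (nat_lit 401458) (nat_lit 13) (.e (nat_lit 483372) (nat_lit 21) (.e (nat_lit 319513) (nat_lit 10) .nil))))) .nil))) (.nd (nat_lit 5) 
(.lf (nat_lit 6038) (.g (nat_lit 2417) (.e (nat_lit 291) (nat_lit 21) (.e (nat_lit 336021) (nat_lit 3) (.e (nat_lit 98313) (nat_lit 9) (.e (nat_lit 336021) (nat_lit 3) (.e (nat_lit 98317) (nat_lit 9) .nil))))) .nil)) 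
(.lf (nat_lit 6070) (.g (nat_lit 5708) (.e (nat_lit 293) (nat_lit 21) (.e (nat_lit 336017) (nat_lit 3) (.e (nat_lit 98373) (nat_lit 29) (.e (nat_lit 450588) (nat_lit 10) (.e (nat_lit 573475) (nat_lit 12) (.e (nat_lit 57574) (nat_lit 55) (.e (nat_lit 778362) (nat_lit 9) .nil))))))) (.g (nat_lit 0) .nil .nil))))) (.nd (nat_lit 4) (.nd (nat_lit 5) 
(.lf (nat_lit 6030) (.g (nat_lit 3396) (.e (nat_lit 290) (nat_lit 21) (.e (nat_lit 336232) (nat_lit 14) (.e (nat_lit 401427) (nat_lit 3) (.e (nat_lit 204869) (nat_lit 29) (.e (nat_lit 360474) (nat_lit 8) (.e (nat_lit 557073) (nat_lit 9) .nil)))))) (.g (nat_lit 0) .nil .nil))) 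
(.lf (nat_lit 6062) (.g (nat_lit 2923) (.e (nat_lit 293) (nat_lit 21) (.e (nat_lit 336017) (nat_lit 3) (.e (nat_lit 98359) (nat_lit 26) (.e (nat_lit 426286) (nat_lit 10) (.e (nat_lit 434247) (nat_lit 28) (.e (nat_lit 573477) (nat_lit 12) (.e (nat_lit 57574) (nat_lit 55) (.e (nat_lit 778362) (nat_lit 9) .nil)))))))) (.g (nat_lit 5) .nil .nil)))) (.nd (nat_lit 5) 
(.lf (nat_lit 6046) (.g (nat_lit 3823) (.e (nat_lit 291) (nat_lit 21) (.e (nat_lit 336204) (nat_lit 12) (.e (nat_lit 385074) (nat_lit 31) (.e (nat_lit 573482) (nat_lit 13) (.e (nat_lit 65619) (nat_lit 10) .nil))))) .nil)) 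
(.lf (nat_lit 6078) (.g (nat_lit 2853) (.e (nat_lit 293) (nat_lit 21) (.e (nat_lit 336209) (nat_lit 13) (.e (nat_lit 393234) (nat_lit 17) (.e (nat_lit 7591) (nat_lit 407) (.e (nat_lit 73776) (nat_lit 26) (.e (nat_lit 778362) (nat_lit 9) .nil)))))) (.g (nat_lit 6) .nil .nil)))))))) (.nd (nat_lit 1) (.nd (nat_lit 2) (.nd (nat_lit 3) (.nd (nat_lit 4) (.nd (nat_lit 5) 
(.lf (nat_lit 6017) (.g (nat_lit 1572) (.e (nat_lit 290) (nat_lit 21) (.e (nat_lit 336232) (nat_lit 14) (.e (nat_lit 401408) (nat_lit 0) (.e (nat_lit 3238) (nat_lit 197) (.e (nat_lit 532549) (nat_lit 12) .nil))))) .nil)) 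
(.lf (nat_lit 6049) (.g (nat_lit 1796) (.e (nat_lit 291) (nat_lit 21) (.e (nat_lit 336223) (nat_lit 13) (.e (nat_lit 393234) (nat_lit 17) (.e (nat_lit 7593) (nat_lit 407) .nil)))) .nil))) (.nd (nat_lit 5) 
(.lf (nat_lit 6033) (.g (nat_lit 4658) (.e (nat_lit 290) (nat_lit 21) (.e (nat_lit 336232) (nat_lit 14) (.e (nat_lit 401432) (nat_lit 7) (.e (nat_lit 409649) (nat_lit 18) (.e (nat_lit 303140) (nat_lit 10) (.e (nat_lit 434275) (nat_lit 39) (.e (nat_lit 663574) (nat_lit 9) .nil))))))) (.g (nat_lit 0) .nil .nil))) 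
(.lf (nat_lit 6065) (.g (nat_lit 3228) (.e (nat_lit 293) (nat_lit 21) (.e (nat_lit 336017) (nat_lit 3) (.e (nat_lit 98372) (nat_lit 29) (.e (nat_lit 450586) (nat_lit 10) (.e (nat_lit 573477) (nat_lit 12) (.e (nat_lit 57574) (nat_lit 55) (.e (nat_lit 778362) (nat_lit 9) .nil))))))) (.g (nat_lit 6) .nil .nil))))) (.nd (nat_lit 4) (.nd (nat_lit 5) 
(.lf (nat_lit 6025) (.g (nat_lit 2299) (.e (nat_lit 290) (nat_lit 21) (.e (nat_lit 336232) (nat_lit 14) (.e (nat_lit 401426) (nat_lit 3) (.e (nat_lit 204868) (nat_lit 29) (.e (nat_lit 360473) (nat_lit 8) (.e (nat_lit 557068) (nat_lit 9) .nil)))))) (.g (nat_lit 0) .nil .nil))) 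
(.lf (nat_lit 6057) (.g (nat_lit 779) (.e (nat_lit 292) (nat_lit 21) (.e (nat_lit 336442) (nat_lit 32) (.e (nat_lit 466981) (nat_lit 23) (.e (nat_lit 204805) (nat_lit 0) (.e (nat_lit 7098) (nat_lit 380) .nil))))) .nil))) (.nd (nat_lit 5) 
(.lf (nat_lit 6041) (.g (nat_lit 2533) (.e (nat_lit 291) (nat_lit 21) (.e (nat_lit 336027) (nat_lit 3) (.e (nat_lit 98372) (nat_lit 29) (.e (nat_lit 450586) (nat_lit 10) (.e (nat_lit 573477) (nat_lit 12) .nil))))) .nil)) 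
(.lf (nat_lit 6073) (.g (nat_lit 2735) (.e (nat_lit 293) (nat_lit 21) (.e (nat_lit 336209) (nat_lit 13) (.e (nat_lit 393232) (nat_lit 17) (.e (nat_lit 7593) (nat_lit 407) (.e (nat_lit 73775) (nat_lit 26) (.e (nat_lit 778362) (nat_lit 9) .nil)))))) (.g (nat_lit 6) .nil .nil)))))) (.nd (nat_lit 3) (.nd (nat_lit 4) (.nd (nat_lit 5) 
(.lf (nat_lit 6021) (.g (nat_lit 3756) (.e (nat_lit 290) (nat_lit 21) (.e (nat_lit 336232) (nat_lit 14) (.e (nat_lit 401418) (nat_lit 0) (.e (nat_lit 3249) (nat_lit 197) (.e (nat_lit 532550) (nat_lit 12) (.e (nat_lit 360475) (nat_lit 8) (.e (nat_lit 557068) (nat_lit 9) .nil))))))) (.g (nat_lit 7) .nil .nil))) 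
(.lf (nat_lit 6053) (.g (nat_lit 1335) (.e (nat_lit 292) (nat_lit 21) (.e (nat_lit 336235) (nat_lit 14) (.e (nat_lit 401458) (nat_lit 13) (.e (nat_lit 483372) (nat_lit 21) .nil)))) .nil))) (.nd (nat_lit 5) 
(.lf (nat_lit 6037) (.g (nat_lit 2754) (.e (nat_lit 291) (nat_lit 21) (.e (nat_lit 336021) (nat_lit 3) (.e (nat_lit 98313) (nat_lit 9) (.e (nat_lit 336021) (nat_lit 3) (.e (nat_lit 98313) (nat_lit 9) (.e (nat_lit 336012) (nat_lit 2) (.e (nat_lit 90123) (nat_lit 9) .nil))))))) (.g (nat_lit 4) .nil .nil))) 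
(.lf (nat_lit 6069) (.g (nat_lit 5059) (.e (nat_lit 293) (nat_lit 21) (.e (nat_lit 336017) (nat_lit 3) (.e (nat_lit 98373) (nat_lit 29) (.e (nat_lit 450587) (nat_lit 10) (.e (nat_lit 573478) (nat_lit 12) (.e (nat_lit 57574) (nat_lit 55) (.e (nat_lit 778362) (nat_lit 9) .nil))))))) (.g (nat_lit 0) .nil .nil))))) (.nd (nat_lit 4) (.nd (nat_lit 5) 
(.lf (nat_lit 6029) (.g (nat_lit 3010) (.e (nat_lit 290) (nat_lit 21) (.e (nat_lit 336232) (nat_lit 14) (.e (nat_lit 401427) (nat_lit 3) (.e (nat_lit 204869) (nat_lit 29) (.e (nat_lit 360474) (nat_lit 8) (.e (nat_lit 557068) (nat_lit 9) .nil)))))) (.g (nat_lit 0) .nil .nil))) 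
(.lf (nat_lit 6061) (.g (nat_lit 2231) (.e (nat_lit 293) (nat_lit 21) (.e (nat_lit 336017) (nat_lit 3) (.e (nat_lit 98359) (nat_lit 26) (.e (nat_lit 426286) (nat_lit 10) (.e (nat_lit 434247) (nat_lit 28) .nil))))) .nil))) (.nd (nat_lit 5) 
(.lf (nat_lit 6045) (.g (nat_lit 3319) (.e (nat_lit 291) (nat_lit 21) (.e (nat_lit 336027) (nat_lit 3) (.e (nat_lit 98373) (nat_lit 29) (.e (nat_lit 450588) (nat_lit 10) (.e (nat_lit 573475) (nat_lit 12) .nil))))) .nil)) 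
(.lf (nat_lit 6077) (.g (nat_lit 3056) (.e (nat_lit 293) (nat_lit 21) (.e (nat_lit 336209) (nat_lit 13) (.e (nat_lit 393234) (nat_lit 17) (.e (nat_lit 7591) (nat_lit 407) (.e (nat_lit 73775) (nat_lit 26) (.e (nat_lit 778362) (nat_lit 9) .nil)))))) (.g (nat_lit 6) .nil .nil))))))) (.nd (nat_lit 2) (.nd (nat_lit 3) (.nd (nat_lit 4) (.nd (nat_lit 5) 
(.lf (nat_lit 6019) (.g (nat_lit 3433) (.e (nat_lit 290) (nat_lit 21) (.e (nat_lit 336232) (nat_lit 14) (.e (nat_lit 401418) (nat_lit 0) (.e (nat_lit 3249) (nat_lit 197) (.e (nat_lit 532550) (nat_lit 12) (.e (nat_lit 360474) (nat_lit 8) (.e (nat_lit 557072) (nat_lit 9) .nil))))))) (.g (nat_lit 0) .nil .nil))) 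
(.lf (nat_lit 6051) (.g (nat_lit 3063) (.e (nat_lit 291) (nat_lit 21) (.e (nat_lit 336223) (nat_lit 13) (.e (nat_lit 393301) (nat_lit 27) (.e (nat_lit 491560) (nat_lit 10) (.e (nat_lit 344179) (nat_lit 44) .nil))))) .nil))) (.nd (nat_lit 5) 
(.lf (nat_lit 6035) (.g (nat_lit 2502) (.e (nat_lit 291) (nat_lit 21) (.e (nat_lit 336021) (nat_lit 3) (.e (nat_lit 98313) (nat_lit 9) (.e (nat_lit 336004) (nat_lit 2) (.e (nat_lit 90158) (nat_lit 11) (.e (nat_lit 24604) (nat_lit 2) (.e (nat_lit 90123) (nat_lit 9) .nil))))))) (.g (nat_lit 4) .nil .nil))) 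
(.lf (nat_lit 6067) (.g (nat_lit 4258) (.e (nat_lit 293) (nat_lit 21) (.e (nat_lit 336017) (nat_lit 3) (.e (nat_lit 98373) (nat_lit 29) (.e (nat_lit 450587) (nat_lit 10) (.e (nat_lit 573477) (nat_lit 12) (.e (nat_lit 57574) (nat_lit 55) (.e (nat_lit 778361) (nat_lit 9) .nil))))))) (.g (nat_lit 6) .nil .nil))))) (.nd (nat_lit 4) (.nd (nat_lit 5) 
(.lf (nat_lit 6027) (.g (nat_lit 3452) (.e (nat_lit 290) (nat_lit 21) (.e (nat_lit 336232) (nat_lit 14) (.e (nat_lit 401426) (nat_lit 3) (.e (nat_lit 204869) (nat_lit 29) (.e (nat_lit 360475) (nat_lit 8) (.e (nat_lit 557068) (nat_lit 9) .nil)))))) (.g (nat_lit 0) .nil .nil))) 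
(.lf (nat_lit 6059) (.g (nat_lit 4681) (.e (nat_lit 293) (nat_lit 21) (.e (nat_lit 335874) (nat_lit 0) (.e (nat_lit 6618) (nat_lit 357) (.e (nat_lit 2668) (nat_lit 167) (.e (nat_lit 196666) (nat_lit 13) (.e (nat_lit 65610) (nat_lit 10) (.e (nat_lit 344129) (nat_lit 26) (.e (nat_lit 557066) (nat_lit 9) .nil)))))))) (.g (nat_lit 0) .nil .nil)))) (.nd (nat_lit 5) 
(.lf (nat_lit 6043) (.g (nat_lit 3264) (.e (nat_lit 291) (nat_lit 21) (.e (nat_lit 336027) (nat_lit 3) (.e (nat_lit 98373) (nat_lit 29) (.e (nat_lit 450587) (nat_lit 10) (.e (nat_lit 573477) (nat_lit 12) .nil))))) .nil)) 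
(.lf (nat_lit 6075) (.g (nat_lit 2775) (.e (nat_lit 293) (nat_lit 21) (.e (nat_lit 336209) (nat_lit 13) (.e (nat_lit 393233) (nat_lit 17) (.e (nat_lit 7591) (nat_lit 407) (.e (nat_lit 73776) (nat_lit 26) (.e (nat_lit 778362) (nat_lit 9) .nil)))))) (.g (nat_lit 0) .nil .nil)))))) (.nd (nat_lit 3) (.nd (nat_lit 4) (.nd (nat_lit 5) 
(.lf (nat_lit 6023) (.g (nat_lit 1584) (.e (nat_lit 290) (nat_lit 21) (.e (nat_lit 336232) (nat_lit 14) (.e (nat_lit 401424) (nat_lit 2) (.e (nat_lit 196666) (nat_lit 13) (.e (nat_lit 65617) (nat_lit 10) (.e (nat_lit 344127) (nat_lit 26) (.e (nat_lit 557072) (nat_lit 9) .nil))))))) (.g (nat_lit 4) .nil .nil))) 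
(.lf (nat_lit 6055) (.g (nat_lit 1843) (.e (nat_lit 292) (nat_lit 21) (.e (nat_lit 336235) (nat_lit 14) (.e (nat_lit 401459) (nat_lit 13) (.e (nat_lit 483354) (nat_lit 17) .nil)))) .nil))) (.nd (nat_lit 5) 
(.lf (nat_lit 6039) (.g (nat_lit 2511) (.e (nat_lit 291) (nat_lit 21) (.e (nat_lit 336021) (nat_lit 3) (.e (nat_lit 98313) (nat_lit 9) (.e (nat_lit 336027) (nat_lit 3) (.e (nat_lit 98317) (nat_lit 9) .nil))))) .nil)) 
(.lf (nat_lit 6071) (.g (nat_lit 2758) (.e (nat_lit 293) (nat_lit 21) (.e (nat_lit 336209) (nat_lit 13) (.e (nat_lit 393232) (nat_lit 17) (.e (nat_lit 7591) (nat_lit 407) (.e (nat_lit 73775) (nat_lit 26) (.e (nat_lit 778362) (nat_lit 9) .nil)))))) (.g (nat_lit 6) .nil .nil))))) (.nd (nat_lit 4) (.nd (nat_lit 5) 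
(.lf (nat_lit 6031) (.g (nat_lit 4491) (.e (nat_lit 290) (nat_lit 21) (.e (nat_lit 336232) (nat_lit 14) (.e (nat_lit 401427) (nat_lit 3) (.e (nat_lit 204869) (nat_lit 29) (.e (nat_lit 360475) (nat_lit 8) (.e (nat_lit 557073) (nat_lit 9) .nil)))))) (.g (nat_lit 6) .nil .nil))) 
(.lf (nat_lit 6063) (.g (nat_lit 472) (.e (nat_lit 293) (nat_lit 21) (.e (nat_lit 336017) (nat_lit 3) (.e (nat_lit 98372) (nat_lit 29) .nil))) .nil))) (.nd (nat_lit 5) 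
(.lf (nat_lit 6047) (.g (nat_lit 3381) (.e (nat_lit 291) (nat_lit 21) (.e (nat_lit 336204) (nat_lit 12) (.e (nat_lit 385074) (nat_lit 31) (.e (nat_lit 573484) (nat_lit 13) .nil)))) .nil)) 
(.lf (nat_lit 6079) (.g (nat_lit 2856) (.e (nat_lit 293) (nat_lit 21) (.e (nat_lit 336209) (nat_lit 13) (.e (nat_lit 393234) (nat_lit 17) (.e (nat_lit 7593) (nat_lit 407) (.e (nat_lit 73775) (nat_lit 26) (.e (nat_lit 778362) (nat_lit 9) .nil)))))) (.g (nat_lit 6) .nil .nil)))))))))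

noncomputable def tv082 : DT := (.nd (nat_lit 0) (.nd (nat_lit 1) (.nd (nat_lit 2) (.nd (nat_lit 3) (.nd (nat_lit 4) (.nd (nat_lit 5) 
(.lf (nat_lit 6080) (.g (nat_lit 2122) (.e (nat_lit 293) (nat_lit 21) (.e (nat_lit 336209) (nat_lit 13) (.e (nat_lit 393299) (nat_lit 27) (.e (nat_lit 491556) (nat_lit 9) (.e (nat_lit 336051) (nat_lit 6) (.e (nat_lit 147466) (nat_lit 9) .nil)))))) (.g (nat_lit 4) .nil .nil))) 
(.lf (nat_lit 6112) (.g (nat_lit 3980) (.e (nat_lit 295) (nat_lit 21) (.e (nat_lit 336009) (nat_lit 2) (.e (nat_lit 90170) (nat_lit 13) (.e (nat_lit 172113) (nat_lit 10) (.e (nat_lit 434248) (nat_lit 28) (.e (nat_lit 573475) (nat_lit 12) (.e (nat_lit 57574) (nat_lit 55) (.e (nat_lit 778361) (nat_lit 9) .nil)))))))) (.g (nat_lit 6) .nil .nil)))) (.nd (nat_lit 5) 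
(.lf (nat_lit 6096) (.g (nat_lit 1742) (.e (nat_lit 294) (nat_lit 21) (.e (nat_lit 336027) (nat_lit 3) (.e (nat_lit 98372) (nat_lit 29) (.e (nat_lit 450586) (nat_lit 10) .nil)))) .nil)) 
(.lf (nat_lit 6128) (.g (nat_lit 2758) (.e (nat_lit 295) (nat_lit 21) (.e (nat_lit 336021) (nat_lit 3) (.e (nat_lit 98313) (nat_lit 9) (.e (nat_lit 336021) (nat_lit 3) (.e (nat_lit 98313) (nat_lit 9) (.e (nat_lit 336012) (nat_lit 2) (.e (nat_lit 90123) (nat_lit 9) .nil))))))) (.g (nat_lit 4) .nil .nil))))) (.nd (nat_lit 4) (.nd (nat_lit 5) 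
(.lf (nat_lit 6088) (.g (nat_lit 4569) (.e (nat_lit 293) (nat_lit 21) (.e (nat_lit 336235) (nat_lit 14) (.e (nat_lit 401428) (nat_lit 3) (.e (nat_lit 204869) (nat_lit 29) (.e (nat_lit 360474) (nat_lit 8) (.e (nat_lit 557066) (nat_lit 9) .nil)))))) (.g (nat_lit 6) .nil .nil))) 
(.lf (nat_lit 6120) (.g (nat_lit 3639) (.e (nat_lit 295) (nat_lit 21) (.e (nat_lit 336011) (nat_lit 2) (.e (nat_lit 90170) (nat_lit 13) (.e (nat_lit 172113) (nat_lit 10) (.e (nat_lit 434247) (nat_lit 28) (.e (nat_lit 573477) (nat_lit 12) (.e (nat_lit 57575) (nat_lit 55) (.e (nat_lit 778361) (nat_lit 9) .nil)))))))) (.g (nat_lit 4) .nil .nil)))) (.nd (nat_lit 5) 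
(.lf (nat_lit 6104) (.g (nat_lit 2274) (.e (nat_lit 294) (nat_lit 21) (.e (nat_lit 336223) (nat_lit 13) (.e (nat_lit 393301) (nat_lit 27) (.e (nat_lit 491558) (nat_lit 10) .nil)))) .nil)) 
(.lf (nat_lit 6136) (.g (nat_lit 3295) (.e (nat_lit 295) (nat_lit 21) (.e (nat_lit 336027) (nat_lit 3) (.e (nat_lit 98372) (nat_lit 29) (.e (nat_lit 450586) (nat_lit 10) (.e (nat_lit 573475) (nat_lit 12) (.e (nat_lit 57574) (nat_lit 55) (.e (nat_lit 778360) (nat_lit 9) .nil))))))) (.g (nat_lit 5) .nil .nil)))))) (.nd (nat_lit 3) (.nd (nat_lit 4) (.nd (nat_lit 5) 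
(.lf (nat_lit 6084) (.g (nat_lit 3234) (.e (nat_lit 293) (nat_lit 21) (.e (nat_lit 336209) (nat_lit 13) (.e (nat_lit 393301) (nat_lit 27) (.e (nat_lit 491556) (nat_lit 9) (.e (nat_lit 336051) (nat_lit 6) (.e (nat_lit 147467) (nat_lit 9) .nil)))))) (.g (nat_lit 0) .nil .nil))) 
(.lf (nat_lit 6116) (.g (nat_lit 4966) (.e (nat_lit 295) (nat_lit 21) (.e (nat_lit 336011) (nat_lit 2) (.e (nat_lit 90170) (nat_lit 13) (.e (nat_lit 172113) (nat_lit 10) (.e (nat_lit 434245) (nat_lit 28) (.e (nat_lit 573474) (nat_lit 12) (.e (nat_lit 57574) (nat_lit 55) (.e (nat_lit 778361) (nat_lit 9) .nil)))))))) (.g (nat_lit 6) .nil .nil)))) (.nd (nat_lit 5) 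
(.lf (nat_lit 6100) (.g (nat_lit 871) (.e (nat_lit 294) (nat_lit 21) (.e (nat_lit 336213) (nat_lit 13) (.e (nat_lit 393233) (nat_lit 17) .nil))) .nil)) 
(.lf (nat_lit 6132) (.g (nat_lit 2496) (.e (nat_lit 295) (nat_lit 21) (.e (nat_lit 336021) (nat_lit 3) (.e (nat_lit 98313) (nat_lit 9) (.e (nat_lit 336027) (nat_lit 3) (.e (nat_lit 98317) (nat_lit 9) .nil))))) .nil)))) (.nd (nat_lit 4) (.nd (nat_lit 5) 
(.lf (nat_lit 6092) (.g (nat_lit 3493) (.e (nat_lit 294) (nat_lit 21) (.e (nat_lit 336011) (nat_lit 2) (.e (nat_lit 90170) (nat_lit 13) (.e (nat_lit 172113) (nat_lit 10) (.e (nat_lit 434245) (nat_lit 28) .nil))))) .nil)) 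
(.lf (nat_lit 6124) (.g (nat_lit 4413) (.e (nat_lit 295) (nat_lit 21) (.e (nat_lit 336011) (nat_lit 2) (.e (nat_lit 90170) (nat_lit 13) (.e (nat_lit 172113) (nat_lit 10) (.e (nat_lit 434248) (nat_lit 28) (.e (nat_lit 573475) (nat_lit 12) (.e (nat_lit 57574) (nat_lit 55) (.e (nat_lit 778360) (nat_lit 9) .nil)))))))) (.g (nat_lit 5) .nil .nil)))) (.nd (nat_lit 5) 
(.lf (nat_lit 6108) (.g (nat_lit 3841) (.e (nat_lit 295) (nat_lit 21) (.e (nat_lit 336009) (nat_lit 2) (.e (nat_lit 90170) (nat_lit 13) (.e (nat_lit 172113) (nat_lit 10) (.e (nat_lit 434245) (nat_lit 28) (.e (nat_lit 573474) (nat_lit 12) (.e (nat_lit 57574) (nat_lit 55) (.e (nat_lit 778361) (nat_lit 9) .nil)))))))) (.g (nat_lit 6) .nil .nil))) 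
(.lf (nat_lit 6140) (.g (nat_lit 3759) (.e (nat_lit 295) (nat_lit 21) (.e (nat_lit 336027) (nat_lit 3) (.e (nat_lit 98372) (nat_lit 29) (.e (nat_lit 450588) (nat_lit 10) (.e (nat_lit 573475) (nat_lit 12) .nil))))) .nil)))))) (.nd (nat_lit 2) (.nd (nat_lit 3) (.nd (nat_lit 4) (.nd (nat_lit 5) 
(.lf (nat_lit 6082) (.g (nat_lit 2194) (.e (nat_lit 293) (nat_lit 21) (.e (nat_lit 336209) (nat_lit 13) (.e (nat_lit 393300) (nat_lit 27) (.e (nat_lit 491556) (nat_lit 9) (.e (nat_lit 336051) (nat_lit 6) (.e (nat_lit 147466) (nat_lit 9) .nil)))))) (.g (nat_lit 4) .nil .nil))) 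
(.lf (nat_lit 6114) (.g (nat_lit 2557) (.e (nat_lit 295) (nat_lit 21) (.e (nat_lit 336011) (nat_lit 2) (.e (nat_lit 90170) (nat_lit 13) (.e (nat_lit 172113) (nat_lit 10) .nil)))) .nil))) (.nd (nat_lit 5) 
(.lf (nat_lit 6098) (.g (nat_lit 3171) (.e (nat_lit 294) (nat_lit 21) (.e (nat_lit 336027) (nat_lit 3) (.e (nat_lit 98373) (nat_lit 29) (.e (nat_lit 450588) (nat_lit 10) (.e (nat_lit 573475) (nat_lit 12) .nil))))) .nil)) 
(.lf (nat_lit 6130) (.g (nat_lit 1979) (.e (nat_lit 295) (nat_lit 21) (.e (nat_lit 336021) (nat_lit 3) (.e (nat_lit 98313) (nat_lit 9) (.e (nat_lit 336027) (nat_lit 3) .nil)))) .nil)))) (.nd (nat_lit 4) (.nd (nat_lit 5) 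
(.lf (nat_lit 6090) (.g (nat_lit 2259) (.e (nat_lit 293) (nat_lit 21) (.e (nat_lit 336235) (nat_lit 14) (.e (nat_lit 401437) (nat_lit 9) (.e (nat_lit 426482) (nat_lit 27) (.e (nat_lit 336060) (nat_lit 7) (.e (nat_lit 319505) (nat_lit 10) (.e (nat_lit 7936) (nat_lit 312) .nil))))))) (.g (nat_lit 4) .nil .nil))) 
(.lf (nat_lit 6122) (.g (nat_lit 4492) (.e (nat_lit 295) (nat_lit 21) (.e (nat_lit 336011) (nat_lit 2) (.e (nat_lit 90170) (nat_lit 13) (.e (nat_lit 172113) (nat_lit 10) (.e (nat_lit 434247) (nat_lit 28) (.e (nat_lit 573478) (nat_lit 12) (.e (nat_lit 57574) (nat_lit 55) (.e (nat_lit 778361) (nat_lit 9) .nil)))))))) (.g (nat_lit 5) .nil .nil)))) (.nd (nat_lit 5) 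
(.lf (nat_lit 6106) (.g (nat_lit 3180) (.e (nat_lit 294) (nat_lit 21) (.e (nat_lit 336223) (nat_lit 13) (.e (nat_lit 393301) (nat_lit 27) (.e (nat_lit 491560) (nat_lit 10) (.e (nat_lit 344178) (nat_lit 44) .nil))))) .nil)) 
(.lf (nat_lit 6138) (.g (nat_lit 2841) (.e (nat_lit 295) (nat_lit 21) (.e (nat_lit 336027) (nat_lit 3) (.e (nat_lit 98372) (nat_lit 29) (.e (nat_lit 450586) (nat_lit 10) (.e (nat_lit 573477) (nat_lit 12) (.e (nat_lit 57574) (nat_lit 55) (.e (nat_lit 778360) (nat_lit 9) .nil))))))) (.g (nat_lit 5) .nil .nil)))))) (.nd (nat_lit 3) (.nd (nat_lit 4) (.nd (nat_lit 5) 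
(.lf (nat_lit 6086) (.g (nat_lit 3403) (.e (nat_lit 293) (nat_lit 21) (.e (nat_lit 336235) (nat_lit 14) (.e (nat_lit 401425) (nat_lit 2) (.e (nat_lit 196666) (nat_lit 13) (.e (nat_lit 65617) (nat_lit 10) (.e (nat_lit 344133) (nat_lit 26) (.e (nat_lit 557066) (nat_lit 9) .nil))))))) (.g (nat_lit 7) .nil .nil))) 
(.lf (nat_lit 6118) (.g (nat_lit 3522) (.e (nat_lit 295) (nat_lit 21) (.e (nat_lit 336011) (nat_lit 2) (.e (nat_lit 90170) (nat_lit 13) (.e (nat_lit 172113) (nat_lit 10) (.e (nat_lit 434247) (nat_lit 28) .nil))))) .nil))) (.nd (nat_lit 5) 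
(.lf (nat_lit 6102) (.g (nat_lit 1799) (.e (nat_lit 294) (nat_lit 21) (.e (nat_lit 336223) (nat_lit 13) (.e (nat_lit 393234) (nat_lit 17) (.e (nat_lit 7591) (nat_lit 407) .nil)))) .nil)) 
(.lf (nat_lit 6134) (.g (nat_lit 1475) (.e (nat_lit 295) (nat_lit 21) (.e (nat_lit 336025) (nat_lit 3) (.e (nat_lit 98372) (nat_lit 29) (.e (nat_lit 450586) (nat_lit 10) (.e (nat_lit 573478) (nat_lit 12) (.e (nat_lit 57574) (nat_lit 55) (.e (nat_lit 778359) (nat_lit 9) .nil))))))) (.g (nat_lit 4) .nil .nil))))) (.nd (nat_lit 4) (.nd (nat_lit 5) 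
(.lf (nat_lit 6094) (.g (nat_lit 3443) (.e (nat_lit 294) (nat_lit 21) (.e (nat_lit 336011) (nat_lit 2) (.e (nat_lit 90170) (nat_lit 13) (.e (nat_lit 172113) (nat_lit 10) (.e (nat_lit 434248) (nat_lit 28) .nil))))) .nil)) 
(.lf (nat_lit 6126) (.g (nat_lit 2616) (.e (nat_lit 295) (nat_lit 21) (.e (nat_lit 336021) (nat_lit 3) (.e (nat_lit 98313) (nat_lit 9) (.e (nat_lit 336012) (nat_lit 2) (.e (nat_lit 90158) (nat_lit 11) (.e (nat_lit 24604) (nat_lit 2) (.e (nat_lit 90123) (nat_lit 9) .nil))))))) (.g (nat_lit 4) .nil .nil)))) (.nd (nat_lit 5) 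
(.lf (nat_lit 6110) (.g (nat_lit 3352) (.e (nat_lit 295) (nat_lit 21) (.e (nat_lit 336009) (nat_lit 2) (.e (nat_lit 90170) (nat_lit 13) (.e (nat_lit 172113) (nat_lit 10) (.e (nat_lit 434247) (nat_lit 28) (.e (nat_lit 573478) (nat_lit 12) (.e (nat_lit 57574) (nat_lit 55) (.e (nat_lit 778361) (nat_lit 9) .nil)))))))) (.g (nat_lit 6) .nil .nil))) 
(.lf (nat_lit 6142) (.g (nat_lit 3944) (.e (nat_lit 295) (nat_lit 21) (.e (nat_lit 336027) (nat_lit 3) (.e (nat_lit 98373) (nat_lit 29) (.e (nat_lit 450587) (nat_lit 10) (.e (nat_lit 573477) (nat_lit 12) (.e (nat_lit 57574) (nat_lit 55) (.e (nat_lit 778360) (nat_lit 9) .nil))))))) (.g (nat_lit 5) .nil .nil)))))))) 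
(.nd (nat_lit 1) (.nd (nat_lit 2) (.nd (nat_lit 3) (.nd (nat_lit 4) (.nd (nat_lit 5) 
(.lf (nat_lit 6081) (.g (nat_lit 2994) (.e (nat_lit 293) (nat_lit 21) (.e (nat_lit 336209) (nat_lit 13) (.e (nat_lit 393299) (nat_lit 27) (.e (nat_lit 491556) (nat_lit 9) (.e (nat_lit 336051) (nat_lit 6) (.e (nat_lit 147467) (nat_lit 9) .nil)))))) (.g (nat_lit 6) .nil .nil))) 
(.lf (nat_lit 6113) (.g (nat_lit 1949) (.e (nat_lit 295) (nat_lit 21) (.e (nat_lit 336010) (nat_lit 2) (.e (nat_lit 90170) (nat_lit 13) (.e (nat_lit 172113) (nat_lit 10) (.e (nat_lit 434247) (nat_lit 28) (.e (nat_lit 573478) (nat_lit 12) (.e (nat_lit 57574) (nat_lit 55) (.e (nat_lit 778361) (nat_lit 9) .nil)))))))) (.g (nat_lit 4) .nil .nil)))) (.nd (nat_lit 5) 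
(.lf (nat_lit 6097) (.g (nat_lit 2364) (.e (nat_lit 294) (nat_lit 21) (.e (nat_lit 336027) (nat_lit 3) (.e (nat_lit 98372) (nat_lit 29) (.e (nat_lit 450586) (nat_lit 10) (.e (nat_lit 573475) (nat_lit 12) .nil))))) .nil)) 
(.lf (nat_lit 6129) (.g (nat_lit 2387) (.e (nat_lit 295) (nat_lit 21) (.e (nat_lit 336021) (nat_lit 3) (.e (nat_lit 98313) (nat_lit 9) (.e (nat_lit 336021) (nat_lit 3) (.e (nat_lit 98317) (nat_lit 9) .nil))))) .nil)))) (.nd (nat_lit 4) (.nd (nat_lit 5) 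
(.lf (nat_lit 6089) (.g (nat_lit 2719) (.e (nat_lit 293) (nat_lit 21) (.e (nat_lit 336235) (nat_lit 14) (.e (nat_lit 401437) (nat_lit 9) (.e (nat_lit 426482) (nat_lit 27) (.e (nat_lit 336060) (nat_lit 7) (.e (nat_lit 319504) (nat_lit 10) (.e (nat_lit 7936) (nat_lit 312) .nil))))))) (.g (nat_lit 5) .nil .nil))) 
(.lf (nat_lit 6121) (.g (nat_lit 3798) (.e (nat_lit 295) (nat_lit 21) (.e (nat_lit 336011) (nat_lit 2) (.e (nat_lit 90170) (nat_lit 13) (.e (nat_lit 172113) (nat_lit 10) (.e (nat_lit 434247) (nat_lit 28) (.e (nat_lit 573478) (nat_lit 12) (.e (nat_lit 57574) (nat_lit 55) (.e (nat_lit 778360) (nat_lit 9) .nil)))))))) (.g (nat_lit 4) .nil .nil)))) (.nd (nat_lit 5) 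
(.lf (nat_lit 6105) (.g (nat_lit 1891) (.e (nat_lit 294) (nat_lit 21) (.e (nat_lit 336223) (nat_lit 13) (.e (nat_lit 393301) (nat_lit 27) (.e (nat_lit 491560) (nat_lit 10) .nil)))) .nil)) 
(.lf (nat_lit 6137) (.g (nat_lit 2533) (.e (nat_lit 295) (nat_lit 21) (.e (nat_lit 336027) (nat_lit 3) (.e (nat_lit 98372) (nat_lit 29) (.e (nat_lit 450586) (nat_lit 10) (.e (nat_lit 573477) (nat_lit 12) .nil))))) .nil))))) (.nd (nat_lit 3) (.nd (nat_lit 4) (.nd (nat_lit 5) 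
(.lf (nat_lit 6085) (.g (nat_lit 5139) (.e (nat_lit 293) (nat_lit 21) (.e (nat_lit 336235) (nat_lit 14) (.e (nat_lit 401425) (nat_lit 2) (.e (nat_lit 196666) (nat_lit 13) (.e (nat_lit 65610) (nat_lit 10) (.e (nat_lit 344129) (nat_lit 26) (.e (nat_lit 557066) (nat_lit 9) .nil))))))) (.g (nat_lit 0) .nil .nil))) 
(.lf (nat_lit 6117) (.g (nat_lit 5222) (.e (nat_lit 295) (nat_lit 21) (.e (nat_lit 336011) (nat_lit 2) (.e (nat_lit 90170) (nat_lit 13) (.e (nat_lit 172113) (nat_lit 10) (.e (nat_lit 434245) (nat_lit 28) (.e (nat_lit 573474) (nat_lit 12) (.e (nat_lit 57574) (nat_lit 55) (.e (nat_lit 778362) (nat_lit 9) .nil)))))))) (.g (nat_lit 6) .nil .nil)))) (.nd (nat_lit 5) 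
(.lf (nat_lit 6101) (.g (nat_lit 1041) (.e (nat_lit 294) (nat_lit 21) (.e (nat_lit 336213) (nat_lit 13) (.e (nat_lit 393301) (nat_lit 27) .nil))) .nil)) 
(.lf (nat_lit 6133) (.g (nat_lit 1544) (.e (nat_lit 295) (nat_lit 21) (.e (nat_lit 336025) (nat_lit 3) (.e (nat_lit 98372) (nat_lit 29) (.e (nat_lit 450586) (nat_lit 10) (.e (nat_lit 573477) (nat_lit 12) (.e (nat_lit 57574) (nat_lit 55) (.e (nat_lit 778359) (nat_lit 9) .nil))))))) (.g (nat_lit 4) .nil .nil))))) (.nd (nat_lit 4) (.nd (nat_lit 5) 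
(.lf (nat_lit 6093) (.g (nat_lit 3522) (.e (nat_lit 294) (nat_lit 21) (.e (nat_lit 336011) (nat_lit 2) (.e (nat_lit 90170) (nat_lit 13) (.e (nat_lit 172113) (nat_lit 10) (.e (nat_lit 434247) (nat_lit 28) .nil))))) .nil)) 
(.lf (nat_lit 6125) (.g (nat_lit 2500) (.e (nat_lit 295) (nat_lit 21) (.e (nat_lit 336021) (nat_lit 3) (.e (nat_lit 98313) (nat_lit 9) (.e (nat_lit 336004) (nat_lit 2) (.e (nat_lit 90158) (nat_lit 11) (.e (nat_lit 24604) (nat_lit 2) (.e (nat_lit 90123) (nat_lit 9) .nil))))))) (.g (nat_lit 4) .nil .nil)))) (.nd (nat_lit 5) 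
(.lf (nat_lit 6109) (.g (nat_lit 2499) (.e (nat_lit 295) (nat_lit 21) (.e (nat_lit 336009) (nat_lit 2) (.e (nat_lit 90170) (nat_lit 13) (.e (nat_lit 172113) (nat_lit 10) (.e (nat_lit 434247) (nat_lit 28) (.e (nat_lit 573477) (nat_lit 12) (.e (nat_lit 57575) (nat_lit 55) (.e (nat_lit 778361) (nat_lit 9) .nil)))))))) (.g (nat_lit 4) .nil .nil))) 
(.lf (nat_lit 6141) (.g (nat_lit 4450) (.e (nat_lit 295) (nat_lit 21) (.e (nat_lit 336027) (nat_lit 3) (.e (nat_lit 98373) (nat_lit 29) (.e (nat_lit 450587) (nat_lit 10) (.e (nat_lit 573475) (nat_lit 12) (.e (nat_lit 57574) (nat_lit 55) (.e (nat_lit 778361) (nat_lit 9) .nil))))))) (.g (nat_lit 5) .nil .nil))))))) (.nd (nat_lit 2) (.nd (nat_lit 3) (.nd (nat_lit 4) (.nd (nat_lit 5) 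
(.lf (nat_lit 6083) (.g (nat_lit 3069) (.e (nat_lit 293) (nat_lit 21) (.e (nat_lit 336209) (nat_lit 13) (.e (nat_lit 393300) (nat_lit 27) (.e (nat_lit 491556) (nat_lit 9) (.e (nat_lit 336051) (nat_lit 6) (.e (nat_lit 147467) (nat_lit 9) .nil)))))) (.g (nat_lit 6) .nil .nil))) 
(.lf (nat_lit 6115) (.g (nat_lit 4294) (.e (nat_lit 295) (nat_lit 21) (.e (nat_lit 336011) (nat_lit 2) (.e (nat_lit 90170) (nat_lit 13) (.e (nat_lit 172113) (nat_lit 10) (.e (nat_lit 434245) (nat_lit 28) (.e (nat_lit 573474) (nat_lit 12) (.e (nat_lit 57574) (nat_lit 55) (.e (nat_lit 778360) (nat_lit 9) .nil)))))))) (.g (nat_lit 5) .nil .nil)))) (.nd (nat_lit 5) 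
(.lf (nat_lit 6099) (.g (nat_lit 620) (.e (nat_lit 294) (nat_lit 21) (.e (nat_lit 336088) (nat_lit 9) (.e (nat_lit 336438) (nat_lit 31) .nil))) .nil)) 
(.lf (nat_lit 6131) (.g (nat_lit 2779) (.e (nat_lit 295) (nat_lit 21) (.e (nat_lit 336021) (nat_lit 3) (.e (nat_lit 98313) (nat_lit 9) (.e (nat_lit 336027) (nat_lit 3) (.e (nat_lit 98313) (nat_lit 9) (.e (nat_lit 336012) (nat_lit 2) (.e (nat_lit 90123) (nat_lit 9) .nil))))))) (.g (nat_lit 4) .nil .nil))))) (.nd (nat_lit 4) (.nd (nat_lit 5) 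
(.lf (nat_lit 6091) (.g (nat_lit 3012) (.e (nat_lit 293) (nat_lit 21) (.e (nat_lit 336235) (nat_lit 14) (.e (nat_lit 401458) (nat_lit 13) (.e (nat_lit 483372) (nat_lit 21) (.e (nat_lit 319504) (nat_lit 10) (.e (nat_lit 7936) (nat_lit 312) .nil)))))) (.g (nat_lit 5) .nil .nil))) 
(.lf (nat_lit 6123) (.g (nat_lit 4738) (.e (nat_lit 295) (nat_lit 21) (.e (nat_lit 336011) (nat_lit 2) (.e (nat_lit 90170) (nat_lit 13) (.e (nat_lit 172113) (nat_lit 10) (.e (nat_lit 434247) (nat_lit 28) (.e (nat_lit 573478) (nat_lit 12) (.e (nat_lit 57574) (nat_lit 55) (.e (nat_lit 778362) (nat_lit 9) .nil)))))))) (.g (nat_lit 6) .nil .nil)))) (.nd (nat_lit 5) 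
(.lf (nat_lit 6107) (.g (nat_lit 3169) (.e (nat_lit 295) (nat_lit 21) (.e (nat_lit 336009) (nat_lit 2) (.e (nat_lit 90170) (nat_lit 13) (.e (nat_lit 172113) (nat_lit 10) (.e (nat_lit 434245) (nat_lit 28) (.e (nat_lit 573474) (nat_lit 12) (.e (nat_lit 57574) (nat_lit 55) (.e (nat_lit 778360) (nat_lit 9) .nil)))))))) (.g (nat_lit 5) .nil .nil))) 
(.lf (nat_lit 6139) (.g (nat_lit 2729) (.e (nat_lit 295) (nat_lit 21) (.e (nat_lit 336027) (nat_lit 3) (.e (nat_lit 98372) (nat_lit 29) (.e (nat_lit 450586) (nat_lit 10) (.e (nat_lit 573478) (nat_lit 12) (.e (nat_lit 57574) (nat_lit 55) (.e (nat_lit 778360) (nat_lit 9) .nil))))))) (.g (nat_lit 5) .nil .nil)))))) (.nd (nat_lit 3) (.nd (nat_lit 4) (.nd (nat_lit 5) 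
(.lf (nat_lit 6087) (.g (nat_lit 4510) (.e (nat_lit 293) (nat_lit 21) (.e (nat_lit 336235) (nat_lit 14) (.e (nat_lit 401428) (nat_lit 3) (.e (nat_lit 204869) (nat_lit 29) (.e (nat_lit 360474) (nat_lit 8) (.e (nat_lit 557065) (nat_lit 9) .nil)))))) (.g (nat_lit 6) .nil .nil))) 
(.lf (nat_lit 6119) (.g (nat_lit 4685) (.e (nat_lit 295) (nat_lit 21) (.e (nat_lit 336011) (nat_lit 2) (.e (nat_lit 90170) (nat_lit 13) (.e (nat_lit 172113) (nat_lit 10) (.e (nat_lit 434247) (nat_lit 28) (.e (nat_lit 573477) (nat_lit 12) (.e (nat_lit 57574) (nat_lit 55) (.e (nat_lit 778361) (nat_lit 9) .nil)))))))) (.g (nat_lit 5) .nil .nil)))) (.nd (nat_lit 5) 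
(.lf (nat_lit 6103) (.g (nat_lit 1758) (.e (nat_lit 294) (nat_lit 21) (.e (nat_lit 336223) (nat_lit 13) (.e (nat_lit 393234) (nat_lit 17) (.e (nat_lit 7593) (nat_lit 407) .nil)))) .nil)) 
(.lf (nat_lit 6135) (.g (nat_lit 2301) (.e (nat_lit 295) (nat_lit 21) (.e (nat_lit 336025) (nat_lit 3) (.e (nat_lit 98373) (nat_lit 29) (.e (nat_lit 450587) (nat_lit 10) (.e (nat_lit 573478) (nat_lit 12) (.e (nat_lit 57574) (nat_lit 55) (.e (nat_lit 778360) (nat_lit 9) .nil))))))) (.g (nat_lit 4) .nil .nil))))) (.nd (nat_lit 4) (.nd (nat_lit 5) 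
(.lf (nat_lit 6095) (.g (nat_lit 704) (.e (nat_lit 294) (nat_lit 21) (.e (nat_lit 336012) (nat_lit 2) (.e (nat_lit 90176) (nat_lit 15) .nil))) .nil)) 
(.lf (nat_lit 6127) (.g (nat_lit 2005) (.e (nat_lit 295) (nat_lit 21) (.e (nat_lit 336021) (nat_lit 3) (.e (nat_lit 98313) (nat_lit 9) (.e (nat_lit 336021) (nat_lit 3) .nil)))) .nil))) (.nd (nat_lit 5) 
(.lf (nat_lit 6111) (.g (nat_lit 3283) (.e (nat_lit 295) (nat_lit 21) (.e (nat_lit 336009) (nat_lit 2) (.e (nat_lit 90170) (nat_lit 13) (.e (nat_lit 172113) (nat_lit 10) (.e (nat_lit 434248) (nat_lit 28) (.e (nat_lit 573475) (nat_lit 12) (.e (nat_lit 57574) (nat_lit 55) (.e (nat_lit 778360) (nat_lit 9) .nil)))))))) (.g (nat_lit 5) .nil .nil))) 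
(.lf (nat_lit 6143) (.g (nat_lit 4565) (.e (nat_lit 295) (nat_lit 21) (.e (nat_lit 336027) (nat_lit 3) (.e (nat_lit 98373) (nat_lit 29) (.e (nat_lit 450587) (nat_lit 10) (.e (nat_lit 573477) (nat_lit 12) (.e (nat_lit 57574) (nat_lit 55) (.e (nat_lit 778361) (nat_lit 9) .nil))))))) (.g (nat_lit 6) .nil .nil)))))))))

noncomputable def tv083 : DT := (.nd (nat_lit 0) (.nd (nat_lit 1) (.nd (nat_lit 2) (.nd (nat_lit 3) (.nd (nat_lit 4) (.nd (nat_lit 5) 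
(.lf (nat_lit 6144) (.g (nat_lit 3666) (.e (nat_lit 295) (nat_lit 21) (.e (nat_lit 336027) (nat_lit 3) (.e (nat_lit 98373) (nat_lit 29) (.e (nat_lit 450587) (nat_lit 10) (.e (nat_lit 573478) (nat_lit 12) (.e (nat_lit 57574) (nat_lit 55) (.e (nat_lit 778360) (nat_lit 9) .nil))))))) (.g (nat_lit 5) .nil .nil))) 
(.lf (nat_lit 6176) (.g (nat_lit 1827) (.e (nat_lit 7936) (nat_lit 21) (.e (nat_lit 336173) (nat_lit 10) (.e (nat_lit 344126) (nat_lit 25) (.e (nat_lit 548874) (nat_lit 5) (.e (nat_lit 1586) (nat_lit 111) .nil))))) .nil))) (.nd (nat_lit 5) 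
(.lf (nat_lit 6160) (.g (nat_lit 3138) (.e (nat_lit 295) (nat_lit 21) (.e (nat_lit 336223) (nat_lit 13) (.e (nat_lit 393301) (nat_lit 27) (.e (nat_lit 491560) (nat_lit 10) (.e (nat_lit 344179) (nat_lit 44) (.e (nat_lit 778361) (nat_lit 9) .nil)))))) (.g (nat_lit 5) .nil .nil))) 
(.lf (nat_lit 6192) (.g (nat_lit 2338) (.e (nat_lit 7936) (nat_lit 21) (.e (nat_lit 336206) (nat_lit 12) (.e (nat_lit 385074) (nat_lit 31) (.e (nat_lit 573484) (nat_lit 13) (.e (nat_lit 65617) (nat_lit 10) .nil))))) .nil)))) (.nd (nat_lit 4) (.nd (nat_lit 5) 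
(.lf (nat_lit 6152) (.g (nat_lit 1983) (.e (nat_lit 295) (nat_lit 21) (.e (nat_lit 336220) (nat_lit 13) (.e (nat_lit 393301) (nat_lit 27) (.e (nat_lit 491556) (nat_lit 9) (.e (nat_lit 336051) (nat_lit 6) .nil))))) .nil)) 
(.lf (nat_lit 6184) (.g (nat_lit 2609) (.e (nat_lit 7936) (nat_lit 21) (.e (nat_lit 336178) (nat_lit 10) (.e (nat_lit 344126) (nat_lit 25) (.e (nat_lit 548889) (nat_lit 9) (.e (nat_lit 65617) (nat_lit 10) .nil))))) .nil))) (.nd (nat_lit 5) 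
(.lf (nat_lit 6168) (.g (nat_lit 1742) (.e (nat_lit 7936) (nat_lit 21) (.e (nat_lit 336027) (nat_lit 3) (.e (nat_lit 98372) (nat_lit 29) (.e (nat_lit 450586) (nat_lit 10) (.e (nat_lit 573478) (nat_lit 12) .nil))))) .nil)) 
(.lf (nat_lit 6200) (.g (nat_lit 1871) (.e (nat_lit 7936) (nat_lit 21) (.e (nat_lit 336235) (nat_lit 14) (.e (nat_lit 401437) (nat_lit 9) (.e (nat_lit 426533) (nat_lit 28) (.e (nat_lit 344084) (nat_lit 14) .nil))))) .nil))))) (.nd (nat_lit 3) (.nd (nat_lit 4) (.nd (nat_lit 5) 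
(.lf (nat_lit 6148) (.g (nat_lit 1952) (.e (nat_lit 295) (nat_lit 21) (.e (nat_lit 336213) (nat_lit 13) (.e (nat_lit 393225) (nat_lit 9) (.e (nat_lit 335995) (nat_lit 1) .nil)))) .nil)) 
(.lf (nat_lit 6180) (.g (nat_lit 1445) (.e (nat_lit 7936) (nat_lit 21) (.e (nat_lit 336178) (nat_lit 10) (.e (nat_lit 344117) (nat_lit 21) (.e (nat_lit 516097) (nat_lit 0) (.e (nat_lit 7591) (nat_lit 407) .nil))))) .nil))) (.nd (nat_lit 5) 
(.lf (nat_lit 6164) (.g (nat_lit 2851) (.e (nat_lit 7936) (nat_lit 21) (.e (nat_lit 336011) (nat_lit 2) (.e (nat_lit 90170) (nat_lit 13) (.e (nat_lit 172113) (nat_lit 10) (.e (nat_lit 434248) (nat_lit 28) .nil))))) .nil)) 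
(.lf (nat_lit 6196) (.g (nat_lit 1529) (.e (nat_lit 7936) (nat_lit 21) (.e (nat_lit 336223) (nat_lit 13) (.e (nat_lit 393234) (nat_lit 17) (.e (nat_lit 7593) (nat_lit 407) (.e (nat_lit 73774) (nat_lit 26) .nil))))) .nil)))) (.nd (nat_lit 4) (.nd (nat_lit 5) 
(.lf (nat_lit 6156) (.g (nat_lit 3478) (.e (nat_lit 295) (nat_lit 21) (.e (nat_lit 336223) (nat_lit 13) (.e (nat_lit 393234) (nat_lit 17) (.e (nat_lit 7593) (nat_lit 407) (.e (nat_lit 73775) (nat_lit 26) (.e (nat_lit 778361) (nat_lit 9) .nil)))))) (.g (nat_lit 6) .nil .nil))) 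
(.lf (nat_lit 6188) (.g (nat_lit 2642) (.e (nat_lit 7936) (nat_lit 21) (.e (nat_lit 336203) (nat_lit 12) (.e (nat_lit 385074) (nat_lit 31) (.e (nat_lit 573485) (nat_lit 13) (.e (nat_lit 65619) (nat_lit 10) .nil))))) .nil))) (.nd (nat_lit 5) 
(.lf (nat_lit 6172) (.g (nat_lit 1361) (.e (nat_lit 7936) (nat_lit 21) (.e (nat_lit 336158) (nat_lit 9) (.e (nat_lit 336021) (nat_lit 3) (.e (nat_lit 98389) (nat_lit 33) (.e (nat_lit 491560) (nat_lit 10) .nil))))) .nil)) 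
(.lf (nat_lit 6204) (.g (nat_lit 1748) (.e (nat_lit 7936) (nat_lit 21) (.e (nat_lit 336235) (nat_lit 14) (.e (nat_lit 401438) (nat_lit 9) (.e (nat_lit 426533) (nat_lit 28) (.e (nat_lit 344085) (nat_lit 15) .nil))))) .nil)))))) (.nd (nat_lit 2) (.nd (nat_lit 3) (.nd (nat_lit 4) (.nd (nat_lit 5) 
(.lf (nat_lit 6146) (.g (nat_lit 3797) (.e (nat_lit 295) (nat_lit 21) (.e (nat_lit 336204) (nat_lit 12) (.e (nat_lit 385074) (nat_lit 31) (.e (nat_lit 573482) (nat_lit 13) (.e (nat_lit 65619) (nat_lit 10) .nil))))) .nil)) 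
(.lf (nat_lit 6178) (.g (nat_lit 2626) (.e (nat_lit 7936) (nat_lit 21) (.e (nat_lit 336173) (nat_lit 10) (.e (nat_lit 344126) (nat_lit 25) (.e (nat_lit 548889) (nat_lit 9) (.e (nat_lit 65610) (nat_lit 10) .nil))))) .nil))) (.nd (nat_lit 5) 
(.lf (nat_lit 6162) (.g (nat_lit 2902) (.e (nat_lit 7936) (nat_lit 21) (.e (nat_lit 336011) (nat_lit 2) (.e (nat_lit 90170) (nat_lit 13) (.e (nat_lit 172113) (nat_lit 10) (.e (nat_lit 434245) (nat_lit 28) .nil))))) .nil)) 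
(.lf (nat_lit 6194) (.g (nat_lit 1814) (.e (nat_lit 7936) (nat_lit 21) (.e (nat_lit 336223) (nat_lit 13) (.e (nat_lit 393234) (nat_lit 17) (.e (nat_lit 7591) (nat_lit 407) (.e (nat_lit 73774) (nat_lit 26) .nil))))) .nil)))) (.nd (nat_lit 4) (.nd (nat_lit 5) 
(.lf (nat_lit 6154) (.g (nat_lit 2653) (.e (nat_lit 295) (nat_lit 21) (.e (nat_lit 336223) (nat_lit 13) (.e (nat_lit 393234) (nat_lit 17) (.e (nat_lit 7591) (nat_lit 407) (.e (nat_lit 73776) (nat_lit 26) .nil))))) .nil)) 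
(.lf (nat_lit 6186) (.g (nat_lit 2226) (.e (nat_lit 7936) (nat_lit 21) (.e (nat_lit 336193) (nat_lit 12) (.e (nat_lit 385074) (nat_lit 31) (.e (nat_lit 573484) (nat_lit 13) (.e (nat_lit 65617) (nat_lit 10) .nil))))) .nil))) (.nd (nat_lit 5) 
(.lf (nat_lit 6170) (.g (nat_lit 2343) (.e (nat_lit 7936) (nat_lit 21) (.e (nat_lit 336111) (nat_lit 9) (.e (nat_lit 336013) (nat_lit 2) (.e (nat_lit 90165) (nat_lit 12) (.e (nat_lit 171776) (nat_lit 192) .nil))))) .nil)) 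
(.lf (nat_lit 6202) (.g (nat_lit 1911) (.e (nat_lit 7936) (nat_lit 21) (.e (nat_lit 336235) (nat_lit 14) (.e (nat_lit 401437) (nat_lit 9) (.e (nat_lit 426550) (nat_lit 31) (.e (nat_lit 368656) (nat_lit 14) .nil))))) .nil))))) (.nd (nat_lit 3) (.nd (nat_lit 4) (.nd (nat_lit 5) 
(.lf (nat_lit 6150) (.g (nat_lit 1360) (.e (nat_lit 295) (nat_lit 21) (.e (nat_lit 336213) (nat_lit 13) (.e (nat_lit 393233) (nat_lit 17) (.e (nat_lit 7593) (nat_lit 407) .nil)))) .nil)) 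
(.lf (nat_lit 6182) (.g (nat_lit 1754) (.e (nat_lit 7936) (nat_lit 21) (.e (nat_lit 336178) (nat_lit 10) (.e (nat_lit 344117) (nat_lit 21) (.e (nat_lit 516185) (nat_lit 16) (.e (nat_lit 491558) (nat_lit 10) .nil))))) .nil))) (.nd (nat_lit 5) 
(.lf (nat_lit 6166) (.g (nat_lit 1764) (.e (nat_lit 7936) (nat_lit 21) (.e (nat_lit 336027) (nat_lit 3) (.e (nat_lit 98372) (nat_lit 29) (.e (nat_lit 450586) (nat_lit 10) (.e (nat_lit 573475) (nat_lit 12) .nil))))) .nil)) 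
(.lf (nat_lit 6198) (.g (nat_lit 2191) (.e (nat_lit 7936) (nat_lit 21) (.e (nat_lit 336223) (nat_lit 13) (.e (nat_lit 393301) (nat_lit 27) (.e (nat_lit 491560) (nat_lit 10) (.e (nat_lit 344179) (nat_lit 44) .nil))))) .nil)))) (.nd (nat_lit 4) (.nd (nat_lit 5) 
(.lf (nat_lit 6158) (.g (nat_lit 2929) (.e (nat_lit 295) (nat_lit 21) (.e (nat_lit 336223) (nat_lit 13) (.e (nat_lit 393301) (nat_lit 27) (.e (nat_lit 491556) (nat_lit 9) (.e (nat_lit 336051) (nat_lit 6) .nil))))) .nil)) 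
(.lf (nat_lit 6190) (.g (nat_lit 3858) (.e (nat_lit 7936) (nat_lit 21) (.e (nat_lit 336204) (nat_lit 12) (.e (nat_lit 385074) (nat_lit 31) (.e (nat_lit 573481) (nat_lit 13) .nil)))) .nil))) (.nd (nat_lit 5) 
(.lf (nat_lit 6174) (.g (nat_lit 1121) (.e (nat_lit 7936) (nat_lit 21) (.e (nat_lit 336164) (nat_lit 10) (.e (nat_lit 344126) (nat_lit 25) (.e (nat_lit 548872) (nat_lit 5) (.e (nat_lit 1598) (nat_lit 111) .nil))))) .nil)) 
(.lf (nat_lit 6206) (.g (nat_lit 1137) (.e (nat_lit 7936) (nat_lit 21) (.e (nat_lit 336235) (nat_lit 14) (.e (nat_lit 401458) (nat_lit 13) (.e (nat_lit 483372) (nat_lit 21) .nil)))) .nil))))))) (.nd (nat_lit 1) (.nd (nat_lit 2) (.nd (nat_lit 3) (.nd (nat_lit 4) (.nd (nat_lit 5) 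
(.lf (nat_lit 6145) (.g (nat_lit 4351) (.e (nat_lit 295) (nat_lit 21) (.e (nat_lit 336027) (nat_lit 3) (.e (nat_lit 98373) (nat_lit 29) (.e (nat_lit 450588) (nat_lit 10) (.e (nat_lit 573475) (nat_lit 12) (.e (nat_lit 57574) (nat_lit 55) (.e (nat_lit 778360) (nat_lit 9) .nil))))))) (.g (nat_lit 5) .nil .nil))) 
(.lf (nat_lit 6177) (.g (nat_lit 1930) (.e (nat_lit 7936) (nat_lit 21) (.e (nat_lit 336173) (nat_lit 10) (.e (nat_lit 344126) (nat_lit 25) (.e (nat_lit 548874) (nat_lit 5) (.e (nat_lit 1598) (nat_lit 111) .nil))))) .nil))) (.nd (nat_lit 5) 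
(.lf (nat_lit 6161) (.g (nat_lit 2705) (.e (nat_lit 295) (nat_lit 21) (.e (nat_lit 336223) (nat_lit 13) (.e (nat_lit 393301) (nat_lit 27) (.e (nat_lit 491560) (nat_lit 10) (.e (nat_lit 344179) (nat_lit 44) (.e (nat_lit 778362) (nat_lit 9) .nil)))))) (.g (nat_lit 4) .nil .nil))) 
(.lf (nat_lit 6193) (.g (nat_lit 2229) (.e (nat_lit 7936) (nat_lit 21) (.e (nat_lit 336222) (nat_lit 13) (.e (nat_lit 393260) (nat_lit 21) (.e (nat_lit 409617) (nat_lit 10) (.e (nat_lit 4934) (nat_lit 287) .nil))))) .nil)))) (.nd (nat_lit 4) (.nd (nat_lit 5) 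
(.lf (nat_lit 6153) (.g (nat_lit 3781) (.e (nat_lit 295) (nat_lit 21) (.e (nat_lit 336223) (nat_lit 13) (.e (nat_lit 393234) (nat_lit 17) (.e (nat_lit 7591) (nat_lit 407) (.e (nat_lit 73775) (nat_lit 26) (.e (nat_lit 778362) (nat_lit 9) .nil)))))) (.g (nat_lit 6) .nil .nil))) 
(.lf (nat_lit 6185) (.g (nat_lit 1523) (.e (nat_lit 7936) (nat_lit 21) (.e (nat_lit 336178) (nat_lit 10) (.e (nat_lit 344156) (nat_lit 36) (.e (nat_lit 638998) (nat_lit 8) (.e (nat_lit 172115) (nat_lit 10) .nil))))) .nil))) (.nd (nat_lit 5) 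
(.lf (nat_lit 6169) (.g (nat_lit 2492) (.e (nat_lit 7936) (nat_lit 21) (.e (nat_lit 336027) (nat_lit 3) (.e (nat_lit 98373) (nat_lit 29) (.e (nat_lit 450587) (nat_lit 10) (.e (nat_lit 573477) (nat_lit 12) .nil))))) .nil)) 
(.lf (nat_lit 6201) (.g (nat_lit 1814) (.e (nat_lit 7936) (nat_lit 21) (.e (nat_lit 336235) (nat_lit 14) (.e (nat_lit 401437) (nat_lit 9) (.e (nat_lit 426533) (nat_lit 28) (.e (nat_lit 344085) (nat_lit 15) .nil))))) .nil))))) (.nd (nat_lit 3) (.nd (nat_lit 4) (.nd (nat_lit 5) 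
(.lf (nat_lit 6149) (.g (nat_lit 1361) (.e (nat_lit 295) (nat_lit 21) (.e (nat_lit 336213) (nat_lit 13) (.e (nat_lit 393233) (nat_lit 17) (.e (nat_lit 7591) (nat_lit 407) .nil)))) .nil)) 
(.lf (nat_lit 6181) (.g (nat_lit 1233) (.e (nat_lit 7936) (nat_lit 21) (.e (nat_lit 336178) (nat_lit 10) (.e (nat_lit 344117) (nat_lit 21) (.e (nat_lit 516097) (nat_lit 0) (.e (nat_lit 7593) (nat_lit 407) .nil))))) .nil))) (.nd (nat_lit 5) 
(.lf (nat_lit 6165) (.g (nat_lit 1706) (.e (nat_lit 7936) (nat_lit 21) (.e (nat_lit 336027) (nat_lit 3) (.e (nat_lit 98372) (nat_lit 29) (.e (nat_lit 450579) (nat_lit 5) (.e (nat_lit 532503) (nat_lit 1) .nil))))) .nil)) 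
(.lf (nat_lit 6197) (.g (nat_lit 1896) (.e (nat_lit 7936) (nat_lit 21) (.e (nat_lit 336223) (nat_lit 13) (.e (nat_lit 393301) (nat_lit 27) (.e (nat_lit 491556) (nat_lit 9) .nil)))) .nil)))) (.nd (nat_lit 4) (.nd (nat_lit 5) 
(.lf (nat_lit 6157) (.g (nat_lit 3647) (.e (nat_lit 295) (nat_lit 21) (.e (nat_lit 336223) (nat_lit 13) (.e (nat_lit 393234) (nat_lit 17) (.e (nat_lit 7593) (nat_lit 407) (.e (nat_lit 73775) (nat_lit 26) (.e (nat_lit 778362) (nat_lit 9) .nil)))))) (.g (nat_lit 6) .nil .nil))) 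
(.lf (nat_lit 6189) (.g (nat_lit 4052) (.e (nat_lit 7936) (nat_lit 21) (.e (nat_lit 336204) (nat_lit 12) (.e (nat_lit 385074) (nat_lit 31) (.e (nat_lit 573479) (nat_lit 13) .nil)))) .nil))) (.nd (nat_lit 5) 
(.lf (nat_lit 6173) (.g (nat_lit 820) (.e (nat_lit 7936) (nat_lit 21) (.e (nat_lit 336164) (nat_lit 10) (.e (nat_lit 344117) (nat_lit 21) (.e (nat_lit 516098) (nat_lit 0) .nil)))) .nil)) 
(.lf (nat_lit 6205) (.g (nat_lit 2337) (.e (nat_lit 7936) (nat_lit 21) (.e (nat_lit 336235) (nat_lit 14) (.e (nat_lit 401458) (nat_lit 13) (.e (nat_lit 483350) (nat_lit 17) (.e (nat_lit 6225) (nat_lit 334) .nil))))) .nil)))))) (.nd (nat_lit 2) (.nd (nat_lit 3) (.nd (nat_lit 4) (.nd (nat_lit 5) 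
(.lf (nat_lit 6147) (.g (nat_lit 3635) (.e (nat_lit 295) (nat_lit 21) (.e (nat_lit 336204) (nat_lit 12) (.e (nat_lit 385074) (nat_lit 31) (.e (nat_lit 573485) (nat_lit 13) (.e (nat_lit 65619) (nat_lit 10) .nil))))) .nil)) 
(.lf (nat_lit 6179) (.g (nat_lit 1500) (.e (nat_lit 7936) (nat_lit 21) (.e (nat_lit 336177) (nat_lit 10) (.e (nat_lit 344117) (nat_lit 21) (.e (nat_lit 516097) (nat_lit 0) (.e (nat_lit 7593) (nat_lit 407) .nil))))) .nil))) (.nd (nat_lit 5) 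
(.lf (nat_lit 6163) (.g (nat_lit 2930) (.e (nat_lit 7936) (nat_lit 21) (.e (nat_lit 336011) (nat_lit 2) (.e (nat_lit 90170) (nat_lit 13) (.e (nat_lit 172113) (nat_lit 10) (.e (nat_lit 434247) (nat_lit 28) .nil))))) .nil)) 
(.lf (nat_lit 6195) (.g (nat_lit 1837) (.e (nat_lit 7936) (nat_lit 21) (.e (nat_lit 336223) (nat_lit 13) (.e (nat_lit 393234) (nat_lit 17) (.e (nat_lit 7591) (nat_lit 407) (.e (nat_lit 73776) (nat_lit 26) .nil))))) .nil)))) (.nd (nat_lit 4) (.nd (nat_lit 5) 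
(.lf (nat_lit 6155) (.g (nat_lit 2690) (.e (nat_lit 295) (nat_lit 21) (.e (nat_lit 336223) (nat_lit 13) (.e (nat_lit 393234) (nat_lit 17) (.e (nat_lit 7593) (nat_lit 407) (.e (nat_lit 73775) (nat_lit 26) (.e (nat_lit 778359) (nat_lit 9) .nil)))))) (.g (nat_lit 5) .nil .nil))) 
(.lf (nat_lit 6187) (.g (nat_lit 2579) (.e (nat_lit 7936) (nat_lit 21) (.e (nat_lit 336194) (nat_lit 12) (.e (nat_lit 385074) (nat_lit 31) (.e (nat_lit 573485) (nat_lit 13) (.e (nat_lit 65619) (nat_lit 10) .nil))))) .nil))) (.nd (nat_lit 5) 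
(.lf (nat_lit 6171) (.g (nat_lit 1440) (.e (nat_lit 7936) (nat_lit 21) (.e (nat_lit 336158) (nat_lit 9) (.e (nat_lit 336021) (nat_lit 3) (.e (nat_lit 98320) (nat_lit 17) (.e (nat_lit 7591) (nat_lit 407) .nil))))) .nil)) 
(.lf (nat_lit 6203) (.g (nat_lit 1149) (.e (nat_lit 7936) (nat_lit 21) (.e (nat_lit 336235) (nat_lit 14) (.e (nat_lit 401438) (nat_lit 9) (.e (nat_lit 426533) (nat_lit 28) .nil)))) .nil))))) (.nd (nat_lit 3) (.nd (nat_lit 4) (.nd (nat_lit 5) 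
(.lf (nat_lit 6151) (.g (nat_lit 2839) (.e (nat_lit 295) (nat_lit 21) (.e (nat_lit 336213) (nat_lit 13) (.e (nat_lit 393300) (nat_lit 27) (.e (nat_lit 491556) (nat_lit 9) (.e (nat_lit 336051) (nat_lit 6) .nil))))) .nil)) 
(.lf (nat_lit 6183) (.g (nat_lit 2197) (.e (nat_lit 7936) (nat_lit 21) (.e (nat_lit 336178) (nat_lit 10) (.e (nat_lit 344126) (nat_lit 25) (.e (nat_lit 548874) (nat_lit 5) (.e (nat_lit 1589) (nat_lit 111) .nil))))) .nil))) (.nd (nat_lit 5) 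
(.lf (nat_lit 6167) (.g (nat_lit 1796) (.e (nat_lit 7936) (nat_lit 21) (.e (nat_lit 336027) (nat_lit 3) (.e (nat_lit 98372) (nat_lit 29) (.e (nat_lit 450586) (nat_lit 10) (.e (nat_lit 573477) (nat_lit 12) .nil))))) .nil)) 
(.lf (nat_lit 6199) (.g (nat_lit 2237) (.e (nat_lit 7936) (nat_lit 21) (.e (nat_lit 336228) (nat_lit 14) (.e (nat_lit 401456) (nat_lit 13) (.e (nat_lit 483372) (nat_lit 21) (.e (nat_lit 319511) (nat_lit 10) .nil))))) .nil)))) (.nd (nat_lit 4) (.nd (nat_lit 5) 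
(.lf (nat_lit 6159) (.g (nat_lit 2492) (.e (nat_lit 295) (nat_lit 21) (.e (nat_lit 336223) (nat_lit 13) (.e (nat_lit 393301) (nat_lit 27) (.e (nat_lit 491560) (nat_lit 10) (.e (nat_lit 344179) (nat_lit 44) .nil))))) .nil)) 
(.lf (nat_lit 6191) (.g (nat_lit 3054) (.e (nat_lit 7936) (nat_lit 21) (.e (nat_lit 336204) (nat_lit 12) (.e (nat_lit 385074) (nat_lit 31) (.e (nat_lit 573482) (nat_lit 13) (.e (nat_lit 65619) (nat_lit 10) .nil))))) .nil))) (.nd (nat_lit 5) 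
(.lf (nat_lit 6175) (.g (nat_lit 928) (.e (nat_lit 7936) (nat_lit 21) (.e (nat_lit 336173) (nat_lit 10) (.e (nat_lit 344126) (nat_lit 25) (.e (nat_lit 548873) (nat_lit 5) .nil)))) .nil)) 
(.lf (nat_lit 6207) (.g (nat_lit 2254) (.e (nat_lit 7936) (nat_lit 21) (.e (nat_lit 336235) (nat_lit 14) (.e (nat_lit 401458) (nat_lit 13) (.e (nat_lit 483372) (nat_lit 21) (.e (nat_lit 319511) (nat_lit 10) .nil))))) .nil))))))))

noncomputable def tv084 : DT := (.nd (nat_lit 0) (.nd (nat_lit 1) (.nd (nat_lit 2) (.nd (nat_lit 3) (.nd (nat_lit 4) (.nd (nat_lit 5) 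
(.lf (nat_lit 6208) (.g (nat_lit 3842) (.e (nat_lit 7936) (nat_lit 21) (.e (nat_lit 336235) (nat_lit 14) (.e (nat_lit 401459) (nat_lit 13) (.e (nat_lit 483372) (nat_lit 21) (.e (nat_lit 319506) (nat_lit 10) .nil))))) .nil)) 
(.lf (nat_lit 6240) (.g (nat_lit 2280) (.e (nat_lit 296) (nat_lit 22) (.e (nat_lit 344132) (nat_lit 26) (.e (nat_lit 557100) (nat_lit 13) (.e (nat_lit 172064) (nat_lit 2) (.e (nat_lit 196661) (nat_lit 12) .nil))))) .nil))) (.nd (nat_lit 5) 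
(.lf (nat_lit 6224) (.g (nat_lit 3230) (.e (nat_lit 296) (nat_lit 22) (.e (nat_lit 344077) (nat_lit 13) (.e (nat_lit 1141) (nat_lit 84) (.e (nat_lit 32787) (nat_lit 9) (.e (nat_lit 65617) (nat_lit 10) (.e (nat_lit 344132) (nat_lit 26) (.e (nat_lit 557070) (nat_lit 9) .nil))))))) (.g (nat_lit 0) .nil .nil))) 
(.lf (nat_lit 6256) (.g (nat_lit 3402) (.e (nat_lit 296) (nat_lit 22) (.e (nat_lit 344133) (nat_lit 26) (.e (nat_lit 557105) (nat_lit 14) (.e (nat_lit 180252) (nat_lit 10) (.e (nat_lit 573475) (nat_lit 12) (.e (nat_lit 57354) (nat_lit 0) (.e (nat_lit 5194) (nat_lit 294) (.e (nat_lit 57372) (nat_lit 2) (.e (nat_lit 90133) (nat_lit 9) .nil))))))))) (.g (nat_lit 4) .nil .nil))))) 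
(.nd (nat_lit 4) (.nd (nat_lit 5) 
(.lf (nat_lit 6216) (.g (nat_lit 2113) (.e (nat_lit 296) (nat_lit 22) (.e (nat_lit 344077) (nat_lit 13) (.e (nat_lit 1139) (nat_lit 84) (.e (nat_lit 32787) (nat_lit 9) (.e (nat_lit 65617) (nat_lit 10) (.e (nat_lit 344130) (nat_lit 26) (.e (nat_lit 557064) (nat_lit 9) .nil))))))) (.g (nat_lit 7) .nil .nil))) 
(.lf (nat_lit 6248) (.g (nat_lit 2598) (.e (nat_lit 296) (nat_lit 22) (.e (nat_lit 344133) (nat_lit 26) (.e (nat_lit 557103) (nat_lit 14) (.e (nat_lit 180250) (nat_lit 10) (.e (nat_lit 573475) (nat_lit 12) (.e (nat_lit 57354) (nat_lit 0) (.e (nat_lit 5194) (nat_lit 294) (.e (nat_lit 57372) (nat_lit 2) (.e (nat_lit 90133) (nat_lit 9) .nil))))))))) (.g (nat_lit 4) .nil .nil)))) (.nd (nat_lit 5) 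
(.lf (nat_lit 6232) (.g (nat_lit 3488) (.e (nat_lit 296) (nat_lit 22) (.e (nat_lit 344119) (nat_lit 21) (.e (nat_lit 516195) (nat_lit 26) (.e (nat_lit 336021) (nat_lit 3) (.e (nat_lit 98317) (nat_lit 9) (.e (nat_lit 336011) (nat_lit 2) (.e (nat_lit 90133) (nat_lit 9) .nil))))))) (.g (nat_lit 7) .nil .nil))) 
(.lf (nat_lit 6264) (.g (nat_lit 4516) (.e (nat_lit 297) (nat_lit 22) (.e (nat_lit 344069) (nat_lit 0) (.e (nat_lit 2682) (nat_lit 168) (.e (nat_lit 204869) (nat_lit 29) (.e (nat_lit 360474) (nat_lit 8) (.e (nat_lit 557064) (nat_lit 9) .nil)))))) (.g (nat_lit 0) .nil .nil)))))) (.nd (nat_lit 3) (.nd (nat_lit 4) (.nd (nat_lit 5) 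
(.lf (nat_lit 6212) (.g (nat_lit 4278) (.e (nat_lit 296) (nat_lit 22) (.e (nat_lit 344068) (nat_lit 0) (.e (nat_lit 2682) (nat_lit 168) (.e (nat_lit 204869) (nat_lit 29) (.e (nat_lit 360474) (nat_lit 8) (.e (nat_lit 557070) (nat_lit 9) .nil)))))) (.g (nat_lit 6) .nil .nil))) 
(.lf (nat_lit 6244) (.g (nat_lit 1824) (.e (nat_lit 296) (nat_lit 22) (.e (nat_lit 344132) (nat_lit 26) (.e (nat_lit 557101) (nat_lit 13) (.e (nat_lit 172066) (nat_lit 3) (.e (nat_lit 204809) (nat_lit 9) .nil))))) .nil))) (.nd (nat_lit 5) 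
(.lf (nat_lit 6228) (.g (nat_lit 3673) (.e (nat_lit 296) (nat_lit 22) (.e (nat_lit 344119) (nat_lit 21) (.e (nat_lit 516131) (nat_lit 3) (.e (nat_lit 221212) (nat_lit 22) (.e (nat_lit 196626) (nat_lit 9) (.e (nat_lit 1183) (nat_lit 87) (.e (nat_lit 57848) (nat_lit 252) (.e (nat_lit 57372) (nat_lit 2) (.e (nat_lit 90133) (nat_lit 9) .nil))))))))) (.g (nat_lit 8) .nil .nil))) 
(.lf (nat_lit 6260) (.g (nat_lit 4672) (.e (nat_lit 297) (nat_lit 22) (.e (nat_lit 344068) (nat_lit 0) (.e (nat_lit 2682) (nat_lit 168) (.e (nat_lit 204869) (nat_lit 29) (.e (nat_lit 360474) (nat_lit 8) (.e (nat_lit 557066) (nat_lit 9) .nil)))))) (.g (nat_lit 0) .nil .nil))))) (.nd (nat_lit 4) (.nd (nat_lit 5) 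
(.lf (nat_lit 6220) (.g (nat_lit 2092) (.e (nat_lit 296) (nat_lit 22) (.e (nat_lit 344077) (nat_lit 13) (.e (nat_lit 1140) (nat_lit 84) (.e (nat_lit 32787) (nat_lit 9) (.e (nat_lit 65617) (nat_lit 10) (.e (nat_lit 344130) (nat_lit 26) (.e (nat_lit 557064) (nat_lit 9) .nil))))))) (.g (nat_lit 7) .nil .nil))) 
(.lf (nat_lit 6252) (.g (nat_lit 3022) (.e (nat_lit 296) (nat_lit 22) (.e (nat_lit 344133) (nat_lit 26) (.e (nat_lit 557105) (nat_lit 14) (.e (nat_lit 180252) (nat_lit 10) (.e (nat_lit 573451) (nat_lit 9) .nil))))) .nil))) (.nd (nat_lit 5) 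
(.lf (nat_lit 6236) (.g (nat_lit 3439) (.e (nat_lit 296) (nat_lit 22) (.e (nat_lit 344131) (nat_lit 26) (.e (nat_lit 557103) (nat_lit 14) (.e (nat_lit 180244) (nat_lit 5) (.e (nat_lit 532579) (nat_lit 26) (.e (nat_lit 426123) (nat_lit 2) (.e (nat_lit 204544) (nat_lit 0) .nil))))))) (.g (nat_lit 6) .nil .nil))) 
(.lf (nat_lit 6268) (.g (nat_lit 2620) (.e (nat_lit 297) (nat_lit 22) (.e (nat_lit 352000) (nat_lit 8) (.e (nat_lit 1176) (nat_lit 87) (.e (nat_lit 57681) (nat_lit 155) (.e (nat_lit 122919) (nat_lit 15) (.e (nat_lit 360492) (nat_lit 22) (.e (nat_lit 778362) (nat_lit 9) .nil))))))) (.g (nat_lit 5) .nil .nil))))))) (.nd (nat_lit 2) (.nd (nat_lit 3) (.nd (nat_lit 4) (.nd (nat_lit 5) 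
(.lf (nat_lit 6210) (.g (nat_lit 2455) (.e (nat_lit 7936) (nat_lit 21) (.e (nat_lit 336235) (nat_lit 14) (.e (nat_lit 401459) (nat_lit 13) (.e (nat_lit 483375) (nat_lit 22) .nil)))) .nil)) 
(.lf (nat_lit 6242) (.g (nat_lit 1977) (.e (nat_lit 296) (nat_lit 22) (.e (nat_lit 344132) (nat_lit 26) (.e (nat_lit 557101) (nat_lit 13) (.e (nat_lit 172064) (nat_lit 2) (.e (nat_lit 196661) (nat_lit 12) .nil))))) .nil))) (.nd (nat_lit 5) 
(.lf (nat_lit 6226) (.g (nat_lit 2079) (.e (nat_lit 296) (nat_lit 22) (.e (nat_lit 344119) (nat_lit 21) (.e (nat_lit 516129) (nat_lit 3) (.e (nat_lit 221210) (nat_lit 22) (.e (nat_lit 196660) (nat_lit 12) .nil))))) .nil)) 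
(.lf (nat_lit 6258) (.g (nat_lit 4528) (.e (nat_lit 297) (nat_lit 22) (.e (nat_lit 344068) (nat_lit 0) (.e (nat_lit 2682) (nat_lit 168) (.e (nat_lit 204869) (nat_lit 29) (.e (nat_lit 360474) (nat_lit 8) (.e (nat_lit 557064) (nat_lit 9) .nil)))))) (.g (nat_lit 0) .nil .nil))))) (.nd (nat_lit 4) (.nd (nat_lit 5) 
(.lf (nat_lit 6218) (.g (nat_lit 3201) (.e (nat_lit 296) (nat_lit 22) (.e (nat_lit 344077) (nat_lit 13) (.e (nat_lit 1139) (nat_lit 84) (.e (nat_lit 32787) (nat_lit 9) (.e (nat_lit 65617) (nat_lit 10) (.e (nat_lit 344132) (nat_lit 26) (.e (nat_lit 557070) (nat_lit 9) .nil))))))) (.g (nat_lit 0) .nil .nil))) 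
(.lf (nat_lit 6250) (.g (nat_lit 3338) (.e (nat_lit 296) (nat_lit 22) (.e (nat_lit 344133) (nat_lit 26) (.e (nat_lit 557105) (nat_lit 14) (.e (nat_lit 180252) (nat_lit 10) (.e (nat_lit 573449) (nat_lit 9) .nil))))) .nil))) (.nd (nat_lit 5) 
(.lf (nat_lit 6234) (.g (nat_lit 2300) (.e (nat_lit 296) (nat_lit 22) (.e (nat_lit 344131) (nat_lit 26) (.e (nat_lit 557098) (nat_lit 13) (.e (nat_lit 172064) (nat_lit 2) (.e (nat_lit 196661) (nat_lit 12) .nil))))) .nil)) 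
(.lf (nat_lit 6266) (.g (nat_lit 4650) (.e (nat_lit 297) (nat_lit 22) (.e (nat_lit 344069) (nat_lit 0) (.e (nat_lit 2682) (nat_lit 168) (.e (nat_lit 204869) (nat_lit 29) (.e (nat_lit 360474) (nat_lit 8) (.e (nat_lit 557066) (nat_lit 9) .nil)))))) (.g (nat_lit 0) .nil .nil)))))) (.nd (nat_lit 3) (.nd (nat_lit 4) (.nd (nat_lit 5) 
(.lf (nat_lit 6214) (.g (nat_lit 4279) (.e (nat_lit 296) (nat_lit 22) (.e (nat_lit 344069) (nat_lit 0) (.e (nat_lit 2682) (nat_lit 168) (.e (nat_lit 204869) (nat_lit 29) (.e (nat_lit 360474) (nat_lit 8) (.e (nat_lit 557070) (nat_lit 9) .nil)))))) (.g (nat_lit 0) .nil .nil))) 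
(.lf (nat_lit 6246) (.g (nat_lit 1912) (.e (nat_lit 296) (nat_lit 22) (.e (nat_lit 344133) (nat_lit 26) (.e (nat_lit 557098) (nat_lit 13) (.e (nat_lit 172066) (nat_lit 3) .nil)))) .nil))) (.nd (nat_lit 5) 
(.lf (nat_lit 6230) (.g (nat_lit 3297) (.e (nat_lit 296) (nat_lit 22) (.e (nat_lit 344119) (nat_lit 21) (.e (nat_lit 516195) (nat_lit 26) (.e (nat_lit 336004) (nat_lit 2) (.e (nat_lit 90158) (nat_lit 11) (.e (nat_lit 24604) (nat_lit 2) (.e (nat_lit 90133) (nat_lit 9) .nil))))))) (.g (nat_lit 7) .nil .nil))) 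
(.lf (nat_lit 6262) (.g (nat_lit 3744) (.e (nat_lit 297) (nat_lit 22) (.e (nat_lit 344069) (nat_lit 0) (.e (nat_lit 2663) (nat_lit 167) (.e (nat_lit 196666) (nat_lit 13) (.e (nat_lit 65617) (nat_lit 10) (.e (nat_lit 344133) (nat_lit 26) (.e (nat_lit 557066) (nat_lit 9) .nil))))))) (.g (nat_lit 7) .nil .nil))))) (.nd (nat_lit 4) (.nd (nat_lit 5) 
(.lf (nat_lit 6222) (.g (nat_lit 3216) (.e (nat_lit 296) (nat_lit 22) (.e (nat_lit 344077) (nat_lit 13) (.e (nat_lit 1141) (nat_lit 84) (.e (nat_lit 32787) (nat_lit 9) (.e (nat_lit 65610) (nat_lit 10) (.e (nat_lit 344129) (nat_lit 26) (.e (nat_lit 557070) (nat_lit 9) .nil))))))) (.g (nat_lit 7) .nil .nil))) 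
(.lf (nat_lit 6254) (.g (nat_lit 3050) (.e (nat_lit 296) (nat_lit 22) (.e (nat_lit 344133) (nat_lit 26) (.e (nat_lit 557105) (nat_lit 14) (.e (nat_lit 180252) (nat_lit 10) (.e (nat_lit 573474) (nat_lit 12) .nil))))) .nil))) (.nd (nat_lit 5) 
(.lf (nat_lit 6238) (.g (nat_lit 1863) (.e (nat_lit 296) (nat_lit 22) (.e (nat_lit 344132) (nat_lit 26) (.e (nat_lit 557100) (nat_lit 13) (.e (nat_lit 172062) (nat_lit 2) .nil)))) .nil)) 
(.lf (nat_lit 6270) (.g (nat_lit 83) (.e (nat_lit 297) (nat_lit 22) (.e (nat_lit 344075) (nat_lit 13) (.e (nat_lit 2584) (nat_lit 161) .nil))) .nil))))))) (.nd (nat_lit 1) (.nd (nat_lit 2) (.nd (nat_lit 3) (.nd (nat_lit 4) (.nd (nat_lit 5) 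
(.lf (nat_lit 6209) (.g (nat_lit 4338) (.e (nat_lit 7936) (nat_lit 21) (.e (nat_lit 336235) (nat_lit 14) (.e (nat_lit 401459) (nat_lit 13) (.e (nat_lit 483372) (nat_lit 21) (.e (nat_lit 319513) (nat_lit 10) .nil))))) .nil)) 
(.lf (nat_lit 6241) (.g (nat_lit 3349) (.e (nat_lit 296) (nat_lit 22) (.e (nat_lit 344132) (nat_lit 26) (.e (nat_lit 557100) (nat_lit 13) (.e (nat_lit 172065) (nat_lit 3) (.e (nat_lit 204809) (nat_lit 9) (.e (nat_lit 426123) (nat_lit 2) (.e (nat_lit 204544) (nat_lit 0) .nil))))))) (.g (nat_lit 5) .nil .nil)))) (.nd (nat_lit 5) 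
(.lf (nat_lit 6225) (.g (nat_lit 2548) (.e (nat_lit 296) (nat_lit 22) (.e (nat_lit 344119) (nat_lit 21) (.e (nat_lit 516129) (nat_lit 3) (.e (nat_lit 221210) (nat_lit 22) (.e (nat_lit 196626) (nat_lit 9) (.e (nat_lit 1183) (nat_lit 87) (.e (nat_lit 57848) (nat_lit 252) (.e (nat_lit 57372) (nat_lit 2) (.e (nat_lit 90133) (nat_lit 9) .nil))))))))) (.g (nat_lit 5) .nil .nil))) 
(.lf (nat_lit 6257) (.g (nat_lit 2117) (.e (nat_lit 296) (nat_lit 22) (.e (nat_lit 344133) (nat_lit 26) (.e (nat_lit 557105) (nat_lit 14) (.e (nat_lit 180266) (nat_lit 22) .nil)))) .nil)))) (.nd (nat_lit 4) (.nd (nat_lit 5) 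
(.lf (nat_lit 6217) (.g (nat_lit 2848) (.e (nat_lit 296) (nat_lit 22) (.e (nat_lit 344077) (nat_lit 13) (.e (nat_lit 1139) (nat_lit 84) (.e (nat_lit 32787) (nat_lit 9) (.e (nat_lit 65617) (nat_lit 10) (.e (nat_lit 344130) (nat_lit 26) (.e (nat_lit 557070) (nat_lit 9) .nil))))))) (.g (nat_lit 0) .nil .nil))) 
(.lf (nat_lit 6249) (.g (nat_lit 2213) (.e (nat_lit 296) (nat_lit 22) (.e (nat_lit 344133) (nat_lit 26) (.e (nat_lit 557105) (nat_lit 14) (.e (nat_lit 180237) (nat_lit 1) .nil)))) .nil))) (.nd (nat_lit 5) 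
(.lf (nat_lit 6233) (.g (nat_lit 2724) (.e (nat_lit 296) (nat_lit 22) (.e (nat_lit 344119) (nat_lit 21) (.e (nat_lit 516195) (nat_lit 26) (.e (nat_lit 336027) (nat_lit 3) (.e (nat_lit 98317) (nat_lit 9) (.e (nat_lit 336011) (nat_lit 2) (.e (nat_lit 90133) (nat_lit 9) .nil))))))) (.g (nat_lit 7) .nil .nil))) 
(.lf (nat_lit 6265) (.g (nat_lit 4845) (.e (nat_lit 297) (nat_lit 22) (.e (nat_lit 344069) (nat_lit 0) (.e (nat_lit 2682) (nat_lit 168) (.e (nat_lit 204869) (nat_lit 29) (.e (nat_lit 360474) (nat_lit 8) (.e (nat_lit 557065) (nat_lit 9) .nil)))))) (.g (nat_lit 0) .nil .nil)))))) (.nd (nat_lit 3) (.nd (nat_lit 4) (.nd (nat_lit 5) 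
(.lf (nat_lit 6213) (.g (nat_lit 3326) (.e (nat_lit 296) (nat_lit 22) (.e (nat_lit 344069) (nat_lit 0) (.e (nat_lit 2681) (nat_lit 168) (.e (nat_lit 204869) (nat_lit 29) (.e (nat_lit 360474) (nat_lit 8) (.e (nat_lit 557070) (nat_lit 9) .nil)))))) (.g (nat_lit 6) .nil .nil))) 
(.lf (nat_lit 6245) (.g (nat_lit 2837) (.e (nat_lit 296) (nat_lit 22) (.e (nat_lit 344133) (nat_lit 26) (.e (nat_lit 557098) (nat_lit 13) (.e (nat_lit 172064) (nat_lit 2) (.e (nat_lit 196661) (nat_lit 12) .nil))))) .nil))) (.nd (nat_lit 5) 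
(.lf (nat_lit 6229) (.g (nat_lit 1675) (.e (nat_lit 296) (nat_lit 22) (.e (nat_lit 344119) (nat_lit 21) (.e (nat_lit 516131) (nat_lit 3) (.e (nat_lit 221212) (nat_lit 22) (.e (nat_lit 196635) (nat_lit 9) .nil))))) .nil)) 
(.lf (nat_lit 6261) (.g (nat_lit 5838) (.e (nat_lit 297) (nat_lit 22) (.e (nat_lit 344068) (nat_lit 0) (.e (nat_lit 2682) (nat_lit 168) (.e (nat_lit 204869) (nat_lit 29) (.e (nat_lit 360475) (nat_lit 8) (.e (nat_lit 557064) (nat_lit 9) .nil)))))) (.g (nat_lit 6) .nil .nil))))) (.nd (nat_lit 4) (.nd (nat_lit 5) 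
(.lf (nat_lit 6221) (.g (nat_lit 3192) (.e (nat_lit 296) (nat_lit 22) (.e (nat_lit 344077) (nat_lit 13) (.e (nat_lit 1140) (nat_lit 84) (.e (nat_lit 32787) (nat_lit 9) (.e (nat_lit 65617) (nat_lit 10) (.e (nat_lit 344132) (nat_lit 26) (.e (nat_lit 557070) (nat_lit 9) .nil))))))) (.g (nat_lit 0) .nil .nil))) 
(.lf (nat_lit 6253) (.g (nat_lit 4121) (.e (nat_lit 296) (nat_lit 22) (.e (nat_lit 344133) (nat_lit 26) (.e (nat_lit 557105) (nat_lit 14) (.e (nat_lit 180252) (nat_lit 10) (.e (nat_lit 573453) (nat_lit 9) .nil))))) .nil))) (.nd (nat_lit 5) 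
(.lf (nat_lit 6237) (.g (nat_lit 1923) (.e (nat_lit 296) (nat_lit 22) (.e (nat_lit 344132) (nat_lit 26) (.e (nat_lit 557100) (nat_lit 13) (.e (nat_lit 172049) (nat_lit 0) .nil)))) .nil)) 
(.lf (nat_lit 6269) (.g (nat_lit 3188) (.e (nat_lit 297) (nat_lit 22) (.e (nat_lit 344074) (nat_lit 13) (.e (nat_lit 999) (nat_lit 81) (.e (nat_lit 720) (nat_lit 64) (.e (nat_lit 688186) (nat_lit 18) (.e (nat_lit 81965) (nat_lit 26) (.e (nat_lit 147467) (nat_lit 9) .nil))))))) (.g (nat_lit 7) .nil .nil))))))) (.nd (nat_lit 2) (.nd (nat_lit 3) (.nd (nat_lit 4) (.nd (nat_lit 5) 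
(.lf (nat_lit 6211) (.g (nat_lit 1119) (.e (nat_lit 7936) (nat_lit 21) (.e (nat_lit 336456) (nat_lit 34) (.e (nat_lit 483372) (nat_lit 21) (.e (nat_lit 319505) (nat_lit 10) .nil)))) .nil)) 
(.lf (nat_lit 6243) (.g (nat_lit 1950) (.e (nat_lit 296) (nat_lit 22) (.e (nat_lit 344132) (nat_lit 26) (.e (nat_lit 557101) (nat_lit 13) (.e (nat_lit 172065) (nat_lit 3) (.e (nat_lit 204809) (nat_lit 9) .nil))))) .nil))) (.nd (nat_lit 5) 
(.lf (nat_lit 6227) (.g (nat_lit 1265) (.e (nat_lit 296) (nat_lit 22) (.e (nat_lit 344119) (nat_lit 21) (.e (nat_lit 516131) (nat_lit 3) (.e (nat_lit 221212) (nat_lit 22) (.e (nat_lit 196626) (nat_lit 9) .nil))))) .nil)) 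
(.lf (nat_lit 6259) (.g (nat_lit 4669) (.e (nat_lit 297) (nat_lit 22) (.e (nat_lit 344068) (nat_lit 0) (.e (nat_lit 2682) (nat_lit 168) (.e (nat_lit 204869) (nat_lit 29) (.e (nat_lit 360474) (nat_lit 8) (.e (nat_lit 557065) (nat_lit 9) .nil)))))) (.g (nat_lit 6) .nil .nil))))) (.nd (nat_lit 4) (.nd (nat_lit 5) 
(.lf (nat_lit 6219) (.g (nat_lit 3190) (.e (nat_lit 296) (nat_lit 22) (.e (nat_lit 344077) (nat_lit 13) (.e (nat_lit 1140) (nat_lit 84) (.e (nat_lit 32787) (nat_lit 9) (.e (nat_lit 65610) (nat_lit 10) (.e (nat_lit 344129) (nat_lit 26) (.e (nat_lit 557070) (nat_lit 9) .nil))))))) (.g (nat_lit 7) .nil .nil))) 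
(.lf (nat_lit 6251) (.g (nat_lit 3857) (.e (nat_lit 296) (nat_lit 22) (.e (nat_lit 344133) (nat_lit 26) (.e (nat_lit 557105) (nat_lit 14) (.e (nat_lit 180252) (nat_lit 10) (.e (nat_lit 573449) (nat_lit 9) (.e (nat_lit 1183) (nat_lit 87) (.e (nat_lit 57848) (nat_lit 252) (.e (nat_lit 57374) (nat_lit 2) (.e (nat_lit 90133) (nat_lit 9) .nil))))))))) (.g (nat_lit 5) .nil .nil)))) (.nd (nat_lit 5) 
(.lf (nat_lit 6235) (.g (nat_lit 2440) (.e (nat_lit 296) (nat_lit 22) (.e (nat_lit 344131) (nat_lit 26) (.e (nat_lit 557100) (nat_lit 13) (.e (nat_lit 172065) (nat_lit 3) (.e (nat_lit 204809) (nat_lit 9) (.e (nat_lit 426123) (nat_lit 2) (.e (nat_lit 204544) (nat_lit 0) .nil))))))) (.g (nat_lit 4) .nil .nil))) 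
(.lf (nat_lit 6267) (.g (nat_lit 5819) (.e (nat_lit 297) (nat_lit 22) (.e (nat_lit 344069) (nat_lit 0) (.e (nat_lit 2682) (nat_lit 168) (.e (nat_lit 204869) (nat_lit 29) (.e (nat_lit 360475) (nat_lit 8) (.e (nat_lit 557064) (nat_lit 9) .nil)))))) (.g (nat_lit 6) .nil .nil)))))) (.nd (nat_lit 3) (.nd (nat_lit 4) (.nd (nat_lit 5) 
(.lf (nat_lit 6215) (.g (nat_lit 3158) (.e (nat_lit 296) (nat_lit 22) (.e (nat_lit 344076) (nat_lit 13) (.e (nat_lit 1141) (nat_lit 84) (.e (nat_lit 32787) (nat_lit 9) (.e (nat_lit 65617) (nat_lit 10) (.e (nat_lit 344132) (nat_lit 26) (.e (nat_lit 557070) (nat_lit 9) .nil))))))) (.g (nat_lit 0) .nil .nil))) 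
(.lf (nat_lit 6247) (.g (nat_lit 4134) (.e (nat_lit 296) (nat_lit 22) (.e (nat_lit 344133) (nat_lit 26) (.e (nat_lit 557103) (nat_lit 14) (.e (nat_lit 180244) (nat_lit 5) (.e (nat_lit 532579) (nat_lit 26) (.e (nat_lit 426123) (nat_lit 2) (.e (nat_lit 204544) (nat_lit 0) .nil))))))) (.g (nat_lit 6) .nil .nil)))) (.nd (nat_lit 5) 
(.lf (nat_lit 6231) (.g (nat_lit 3611) (.e (nat_lit 296) (nat_lit 22) (.e (nat_lit 344119) (nat_lit 21) (.e (nat_lit 516195) (nat_lit 26) (.e (nat_lit 336021) (nat_lit 3) (.e (nat_lit 98313) (nat_lit 9) (.e (nat_lit 336011) (nat_lit 2) (.e (nat_lit 90133) (nat_lit 9) .nil))))))) (.g (nat_lit 6) .nil .nil))) 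
(.lf (nat_lit 6263) (.g (nat_lit 3476) (.e (nat_lit 297) (nat_lit 22) (.e (nat_lit 344069) (nat_lit 0) (.e (nat_lit 2664) (nat_lit 167) (.e (nat_lit 196666) (nat_lit 13) (.e (nat_lit 65617) (nat_lit 10) (.e (nat_lit 344133) (nat_lit 26) (.e (nat_lit 557066) (nat_lit 9) .nil))))))) (.g (nat_lit 7) .nil .nil))))) (.nd (nat_lit 4) (.nd (nat_lit 5) 
(.lf (nat_lit 6223) (.g (nat_lit 2124) (.e (nat_lit 296) (nat_lit 22) (.e (nat_lit 344077) (nat_lit 13) (.e (nat_lit 1141) (nat_lit 84) (.e (nat_lit 32787) (nat_lit 9) (.e (nat_lit 65617) (nat_lit 10) (.e (nat_lit 344130) (nat_lit 26) (.e (nat_lit 557064) (nat_lit 9) .nil))))))) (.g (nat_lit 7) .nil .nil))) 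
(.lf (nat_lit 6255) (.g (nat_lit 3197) (.e (nat_lit 296) (nat_lit 22) (.e (nat_lit 344133) (nat_lit 26) (.e (nat_lit 557105) (nat_lit 14) (.e (nat_lit 180252) (nat_lit 10) (.e (nat_lit 573474) (nat_lit 12) (.e (nat_lit 57354) (nat_lit 0) (.e (nat_lit 5195) (nat_lit 294) (.e (nat_lit 57372) (nat_lit 2) (.e (nat_lit 90133) (nat_lit 9) .nil))))))))) (.g (nat_lit 4) .nil .nil)))) (.nd (nat_lit 5) 
(.lf (nat_lit 6239) (.g (nat_lit 2394) (.e (nat_lit 296) (nat_lit 22) (.e (nat_lit 344132) (nat_lit 26) (.e (nat_lit 557100) (nat_lit 13) (.e (nat_lit 172062) (nat_lit 2) (.e (nat_lit 196661) (nat_lit 12) .nil))))) .nil)) 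
(.lf (nat_lit 6271) (.g (nat_lit 2681) (.e (nat_lit 297) (nat_lit 22) (.e (nat_lit 344077) (nat_lit 13) (.e (nat_lit 1139) (nat_lit 84) (.e (nat_lit 32787) (nat_lit 9) (.e (nat_lit 65617) (nat_lit 10) (.e (nat_lit 344133) (nat_lit 26) (.e (nat_lit 557066) (nat_lit 9) .nil))))))) (.g (nat_lit 7) .nil .nil)))))))))

noncomputable def tv085 : DT := (.nd (nat_lit 0) (.nd (nat_lit 1) (.nd (nat_lit 2) (.nd (nat_lit 3) (.nd (nat_lit 4) (.nd (nat_lit 5) 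
(.lf (nat_lit 6272) (.g (nat_lit 2682) (.e (nat_lit 297) (nat_lit 22) (.e (nat_lit 344077) (nat_lit 13) (.e (nat_lit 1140) (nat_lit 84) (.e (nat_lit 32787) (nat_lit 9) (.e (nat_lit 65617) (nat_lit 10) (.e (nat_lit 344133) (nat_lit 26) (.e (nat_lit 557066) (nat_lit 9) .nil))))))) (.g (nat_lit 7) .nil .nil))) 
(.lf (nat_lit 6304) (.g (nat_lit 3133) (.e (nat_lit 297) (nat_lit 22) (.e (nat_lit 344119) (nat_lit 21) (.e (nat_lit 516166) (nat_lit 12) (.e (nat_lit 450587) (nat_lit 10) (.e (nat_lit 573477) (nat_lit 12) (.e (nat_lit 57574) (nat_lit 55) (.e (nat_lit 778361) (nat_lit 9) .nil))))))) (.g (nat_lit 4) .nil .nil)))) (.nd (nat_lit 5) 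
(.lf (nat_lit 6288) (.g (nat_lit 2058) (.e (nat_lit 297) (nat_lit 22) (.e (nat_lit 344119) (nat_lit 21) (.e (nat_lit 516129) (nat_lit 3) (.e (nat_lit 221210) (nat_lit 22) (.e (nat_lit 196659) (nat_lit 12) .nil))))) .nil)) 
(.lf (nat_lit 6320) (.g (nat_lit 3744) (.e (nat_lit 297) (nat_lit 22) (.e (nat_lit 344127) (nat_lit 26) (.e (nat_lit 557104) (nat_lit 14) (.e (nat_lit 180266) (nat_lit 22) (.e (nat_lit 671762) (nat_lit 4) (.e (nat_lit 65580) (nat_lit 6) (.e (nat_lit 147467) (nat_lit 9) .nil))))))) (.g (nat_lit 0) .nil .nil))))) (.nd (nat_lit 4) (.nd (nat_lit 5) 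
(.lf (nat_lit 6280) (.g (nat_lit 2231) (.e (nat_lit 297) (nat_lit 22) (.e (nat_lit 344118) (nat_lit 21) (.e (nat_lit 516129) (nat_lit 3) (.e (nat_lit 221210) (nat_lit 22) (.e (nat_lit 196660) (nat_lit 12) (.e (nat_lit 57354) (nat_lit 0) (.e (nat_lit 5195) (nat_lit 294) (.e (nat_lit 57375) (nat_lit 2) (.e (nat_lit 90128) (nat_lit 9) .nil))))))))) (.g (nat_lit 4) .nil .nil))) 
(.lf (nat_lit 6312) (.g (nat_lit 3379) (.e (nat_lit 297) (nat_lit 22) (.e (nat_lit 344119) (nat_lit 21) (.e (nat_lit 516195) (nat_lit 26) (.e (nat_lit 336027) (nat_lit 3) (.e (nat_lit 98317) (nat_lit 9) (.e (nat_lit 336012) (nat_lit 2) (.e (nat_lit 90128) (nat_lit 9) .nil))))))) (.g (nat_lit 0) .nil .nil)))) (.nd (nat_lit 5) 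
(.lf (nat_lit 6296) (.g (nat_lit 3923) (.e (nat_lit 297) (nat_lit 22) (.e (nat_lit 344119) (nat_lit 21) (.e (nat_lit 516131) (nat_lit 3) (.e (nat_lit 221212) (nat_lit 22) (.e (nat_lit 196660) (nat_lit 12) (.e (nat_lit 57354) (nat_lit 0) (.e (nat_lit 5195) (nat_lit 294) (.e (nat_lit 57375) (nat_lit 2) (.e (nat_lit 90128) (nat_lit 9) .nil))))))))) (.g (nat_lit 9) .nil .nil))) 
(.lf (nat_lit 6328) (.g (nat_lit 1761) (.e (nat_lit 297) (nat_lit 22) (.e (nat_lit 344131) (nat_lit 26) (.e (nat_lit 557100) (nat_lit 13) (.e (nat_lit 172049) (nat_lit 0) .nil)))) .nil))))) (.nd (nat_lit 3) (.nd (nat_lit 4) (.nd (nat_lit 5) 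
(.lf (nat_lit 6276) (.g (nat_lit 545) (.e (nat_lit 297) (nat_lit 22) (.e (nat_lit 344096) (nat_lit 18) (.e (nat_lit 4535) (nat_lit 267) .nil))) .nil)) 
(.lf (nat_lit 6308) (.g (nat_lit 3640) (.e (nat_lit 297) (nat_lit 22) (.e (nat_lit 344119) (nat_lit 21) (.e (nat_lit 516195) (nat_lit 26) (.e (nat_lit 336004) (nat_lit 2) (.e (nat_lit 90158) (nat_lit 11) (.e (nat_lit 24604) (nat_lit 2) (.e (nat_lit 90128) (nat_lit 9) .nil))))))) (.g (nat_lit 0) .nil .nil)))) (.nd (nat_lit 5) 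
(.lf (nat_lit 6292) (.g (nat_lit 2083) (.e (nat_lit 297) (nat_lit 22) (.e (nat_lit 344119) (nat_lit 21) (.e (nat_lit 516129) (nat_lit 3) (.e (nat_lit 221210) (nat_lit 22) (.e (nat_lit 196661) (nat_lit 12) (.e (nat_lit 57357) (nat_lit 0) (.e (nat_lit 5195) (nat_lit 294) (.e (nat_lit 57375) (nat_lit 2) (.e (nat_lit 90128) (nat_lit 9) .nil))))))))) (.g (nat_lit 4) .nil .nil))) 
(.lf (nat_lit 6324) (.g (nat_lit 2185) (.e (nat_lit 297) (nat_lit 22) (.e (nat_lit 344131) (nat_lit 26) (.e (nat_lit 557098) (nat_lit 13) (.e (nat_lit 172066) (nat_lit 3) (.e (nat_lit 204822) (nat_lit 17) (.e (nat_lit 1014) (nat_lit 81) (.e (nat_lit 7261) (nat_lit 384) (.e (nat_lit 57371) (nat_lit 2) (.e (nat_lit 90128) (nat_lit 9) .nil))))))))) (.g (nat_lit 4) .nil .nil))))) 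
(.nd (nat_lit 4) (.nd (nat_lit 5) 
(.lf (nat_lit 6284) (.g (nat_lit 2322) (.e (nat_lit 297) (nat_lit 22) (.e (nat_lit 344119) (nat_lit 21) (.e (nat_lit 516129) (nat_lit 3) (.e (nat_lit 221210) (nat_lit 22) (.e (nat_lit 196658) (nat_lit 12) (.e (nat_lit 57354) (nat_lit 0) (.e (nat_lit 5194) (nat_lit 294) (.e (nat_lit 57372) (nat_lit 2) (.e (nat_lit 90128) (nat_lit 9) .nil))))))))) (.g (nat_lit 5) .nil .nil))) 
(.lf (nat_lit 6316) (.g (nat_lit 3021) (.e (nat_lit 297) (nat_lit 22) (.e (nat_lit 344127) (nat_lit 26) (.e (nat_lit 557104) (nat_lit 14) (.e (nat_lit 180233) (nat_lit 0) (.e (nat_lit 5817) (nat_lit 320) (.e (nat_lit 1201) (nat_lit 88) (.e (nat_lit 65578) (nat_lit 6) (.e (nat_lit 147467) (nat_lit 9) .nil)))))))) (.g (nat_lit 6) .nil .nil)))) (.nd (nat_lit 5) 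
(.lf (nat_lit 6300) (.g (nat_lit 3113) (.e (nat_lit 297) (nat_lit 22) (.e (nat_lit 344119) (nat_lit 21) (.e (nat_lit 516131) (nat_lit 3) (.e (nat_lit 221219) (nat_lit 24) (.e (nat_lit 212992) (nat_lit 0) (.e (nat_lit 1512) (nat_lit 108) (.e (nat_lit 336051) (nat_lit 6) (.e (nat_lit 147467) (nat_lit 9) .nil)))))))) (.g (nat_lit 0) .nil .nil))) 
(.lf (nat_lit 6332) (.g (nat_lit 3182) (.e (nat_lit 297) (nat_lit 22) (.e (nat_lit 344131) (nat_lit 26) (.e (nat_lit 557100) (nat_lit 13) (.e (nat_lit 172062) (nat_lit 2) (.e (nat_lit 196661) (nat_lit 12) (.e (nat_lit 57353) (nat_lit 0) (.e (nat_lit 7265) (nat_lit 384) (.e (nat_lit 57371) (nat_lit 2) (.e (nat_lit 90128) (nat_lit 9) .nil))))))))) (.g (nat_lit 5) .nil .nil))))))) 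
(.nd (nat_lit 2) (.nd (nat_lit 3) (.nd (nat_lit 4) (.nd (nat_lit 5) 
(.lf (nat_lit 6274) (.g (nat_lit 2737) (.e (nat_lit 297) (nat_lit 22) (.e (nat_lit 344077) (nat_lit 13) (.e (nat_lit 1141) (nat_lit 84) (.e (nat_lit 32787) (nat_lit 9) (.e (nat_lit 65617) (nat_lit 10) (.e (nat_lit 344133) (nat_lit 26) (.e (nat_lit 557066) (nat_lit 9) .nil))))))) (.g (nat_lit 7) .nil .nil))) 
(.lf (nat_lit 6306) (.g (nat_lit 1230) (.e (nat_lit 297) (nat_lit 22) (.e (nat_lit 344119) (nat_lit 21) (.e (nat_lit 516176) (nat_lit 14) (.e (nat_lit 466967) (nat_lit 20) .nil)))) .nil))) (.nd (nat_lit 5) 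
(.lf (nat_lit 6290) (.g (nat_lit 2077) (.e (nat_lit 297) (nat_lit 22) (.e (nat_lit 344119) (nat_lit 21) (.e (nat_lit 516129) (nat_lit 3) (.e (nat_lit 221210) (nat_lit 22) (.e (nat_lit 196659) (nat_lit 12) (.e (nat_lit 57354) (nat_lit 0) (.e (nat_lit 5194) (nat_lit 294) (.e (nat_lit 57375) (nat_lit 2) (.e (nat_lit 90128) (nat_lit 9) .nil))))))))) (.g (nat_lit 4) .nil .nil))) 
(.lf (nat_lit 6322) (.g (nat_lit 3295) (.e (nat_lit 297) (nat_lit 22) (.e (nat_lit 344131) (nat_lit 26) (.e (nat_lit 557098) (nat_lit 13) (.e (nat_lit 172064) (nat_lit 2) (.e (nat_lit 196661) (nat_lit 12) (.e (nat_lit 57352) (nat_lit 0) (.e (nat_lit 7261) (nat_lit 384) (.e (nat_lit 57371) (nat_lit 2) (.e (nat_lit 90128) (nat_lit 9) .nil))))))))) (.g (nat_lit 5) .nil .nil))))) 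
(.nd (nat_lit 4) (.nd (nat_lit 5) 
(.lf (nat_lit 6282) (.g (nat_lit 1996) (.e (nat_lit 297) (nat_lit 22) (.e (nat_lit 344119) (nat_lit 21) (.e (nat_lit 516117) (nat_lit 1) (.e (nat_lit 164226) (nat_lit 181) (.e (nat_lit 2616) (nat_lit 164) (.e (nat_lit 172149) (nat_lit 27) (.e (nat_lit 336051) (nat_lit 6) (.e (nat_lit 147467) (nat_lit 9) .nil)))))))) (.g (nat_lit 4) .nil .nil))) 
(.lf (nat_lit 6314) (.g (nat_lit 2311) (.e (nat_lit 297) (nat_lit 22) (.e (nat_lit 344127) (nat_lit 26) (.e (nat_lit 557104) (nat_lit 14) (.e (nat_lit 180229) (nat_lit 0) (.e (nat_lit 5815) (nat_lit 320) (.e (nat_lit 1201) (nat_lit 88) (.e (nat_lit 65578) (nat_lit 6) (.e (nat_lit 147467) (nat_lit 9) .nil)))))))) (.g (nat_lit 4) .nil .nil)))) (.nd (nat_lit 5) 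
(.lf (nat_lit 6298) (.g (nat_lit 2468) (.e (nat_lit 297) (nat_lit 22) (.e (nat_lit 344119) (nat_lit 21) (.e (nat_lit 516131) (nat_lit 3) (.e (nat_lit 221215) (nat_lit 23) (.e (nat_lit 204830) (nat_lit 18) (.e (nat_lit 57854) (nat_lit 252) (.e (nat_lit 57371) (nat_lit 2) (.e (nat_lit 90128) (nat_lit 9) .nil)))))))) (.g (nat_lit 5) .nil .nil))) 
(.lf (nat_lit 6330) (.g (nat_lit 1791) (.e (nat_lit 297) (nat_lit 22) (.e (nat_lit 344131) (nat_lit 26) (.e (nat_lit 557100) (nat_lit 13) (.e (nat_lit 172062) (nat_lit 2) .nil)))) .nil))))) (.nd (nat_lit 3) (.nd (nat_lit 4) (.nd (nat_lit 5) 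
(.lf (nat_lit 6278) (.g (nat_lit 2245) (.e (nat_lit 297) (nat_lit 22) (.e (nat_lit 344118) (nat_lit 21) (.e (nat_lit 516129) (nat_lit 3) (.e (nat_lit 221210) (nat_lit 22) (.e (nat_lit 196660) (nat_lit 12) (.e (nat_lit 57354) (nat_lit 0) (.e (nat_lit 5194) (nat_lit 294) (.e (nat_lit 57372) (nat_lit 2) (.e (nat_lit 90128) (nat_lit 9) .nil))))))))) (.g (nat_lit 4) .nil .nil))) 
(.lf (nat_lit 6310) (.g (nat_lit 3704) (.e (nat_lit 297) (nat_lit 22) (.e (nat_lit 344119) (nat_lit 21) (.e (nat_lit 516195) (nat_lit 26) (.e (nat_lit 336021) (nat_lit 3) (.e (nat_lit 98313) (nat_lit 9) (.e (nat_lit 336012) (nat_lit 2) (.e (nat_lit 90128) (nat_lit 9) .nil))))))) (.g (nat_lit 7) .nil .nil)))) (.nd (nat_lit 5) 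
(.lf (nat_lit 6294) (.g (nat_lit 3941) (.e (nat_lit 297) (nat_lit 22) (.e (nat_lit 344119) (nat_lit 21) (.e (nat_lit 516131) (nat_lit 3) (.e (nat_lit 221212) (nat_lit 22) (.e (nat_lit 196660) (nat_lit 12) (.e (nat_lit 57354) (nat_lit 0) (.e (nat_lit 5194) (nat_lit 294) (.e (nat_lit 57372) (nat_lit 2) (.e (nat_lit 90128) (nat_lit 9) .nil))))))))) (.g (nat_lit 0) .nil .nil))) 
(.lf (nat_lit 6326) (.g (nat_lit 2762) (.e (nat_lit 297) (nat_lit 22) (.e (nat_lit 344131) (nat_lit 26) (.e (nat_lit 557098) (nat_lit 13) (.e (nat_lit 172067) (nat_lit 3) (.e (nat_lit 204815) (nat_lit 17) .nil))))) .nil)))) (.nd (nat_lit 4) (.nd (nat_lit 5) 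
(.lf (nat_lit 6286) (.g (nat_lit 2015) (.e (nat_lit 297) (nat_lit 22) (.e (nat_lit 344119) (nat_lit 21) (.e (nat_lit 516129) (nat_lit 3) (.e (nat_lit 221210) (nat_lit 22) (.e (nat_lit 196658) (nat_lit 12) (.e (nat_lit 57354) (nat_lit 0) (.e (nat_lit 5195) (nat_lit 294) (.e (nat_lit 57372) (nat_lit 2) (.e (nat_lit 90128) (nat_lit 9) .nil))))))))) (.g (nat_lit 4) .nil .nil))) 
(.lf (nat_lit 6318) (.g (nat_lit 4041) (.e (nat_lit 297) (nat_lit 22) (.e (nat_lit 344127) (nat_lit 26) (.e (nat_lit 557104) (nat_lit 14) (.e (nat_lit 180252) (nat_lit 10) (.e (nat_lit 573474) (nat_lit 12) (.e (nat_lit 57354) (nat_lit 0) (.e (nat_lit 5194) (nat_lit 294) (.e (nat_lit 57375) (nat_lit 2) (.e (nat_lit 90128) (nat_lit 9) .nil))))))))) (.g (nat_lit 6) .nil .nil)))) (.nd (nat_lit 5) 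
(.lf (nat_lit 6302) (.g (nat_lit 3698) (.e (nat_lit 297) (nat_lit 22) (.e (nat_lit 344119) (nat_lit 21) (.e (nat_lit 516151) (nat_lit 9) (.e (nat_lit 426285) (nat_lit 10) (.e (nat_lit 434247) (nat_lit 28) (.e (nat_lit 573477) (nat_lit 12) (.e (nat_lit 57575) (nat_lit 55) (.e (nat_lit 778362) (nat_lit 9) .nil)))))))) (.g (nat_lit 4) .nil .nil))) 
(.lf (nat_lit 6334) (.g (nat_lit 2812) (.e (nat_lit 297) (nat_lit 22) (.e (nat_lit 344131) (nat_lit 26) (.e (nat_lit 557100) (nat_lit 13) (.e (nat_lit 172065) (nat_lit 3) (.e (nat_lit 204809) (nat_lit 9) (.e (nat_lit 426123) (nat_lit 2) (.e (nat_lit 204544) (nat_lit 0) .nil))))))) (.g (nat_lit 4) .nil .nil)))))))) 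
(.nd (nat_lit 1) (.nd (nat_lit 2) (.nd (nat_lit 3) (.nd (nat_lit 4) (.nd (nat_lit 5) 
(.lf (nat_lit 6273) (.g (nat_lit 3099) (.e (nat_lit 297) (nat_lit 22) (.e (nat_lit 344077) (nat_lit 13) (.e (nat_lit 1140) (nat_lit 84) (.e (nat_lit 32787) (nat_lit 9) (.e (nat_lit 65619) (nat_lit 10) (.e (nat_lit 344129) (nat_lit 26) (.e (nat_lit 557066) (nat_lit 9) .nil))))))) (.g (nat_lit 0) .nil .nil))) 
(.lf (nat_lit 6305) (.g (nat_lit 2863) (.e (nat_lit 297) (nat_lit 22) (.e (nat_lit 344119) (nat_lit 21) (.e (nat_lit 516166) (nat_lit 12) (.e (nat_lit 450587) (nat_lit 10) (.e (nat_lit 573478) (nat_lit 12) (.e (nat_lit 57574) (nat_lit 55) (.e (nat_lit 778361) (nat_lit 9) .nil))))))) (.g (nat_lit 4) .nil .nil)))) (.nd (nat_lit 5) 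
(.lf (nat_lit 6289) (.g (nat_lit 2203) (.e (nat_lit 297) (nat_lit 22) (.e (nat_lit 344119) (nat_lit 21) (.e (nat_lit 516129) (nat_lit 3) (.e (nat_lit 221210) (nat_lit 22) (.e (nat_lit 196659) (nat_lit 12) (.e (nat_lit 57354) (nat_lit 0) (.e (nat_lit 5194) (nat_lit 294) (.e (nat_lit 57372) (nat_lit 2) (.e (nat_lit 90128) (nat_lit 9) .nil))))))))) (.g (nat_lit 4) .nil .nil))) 
(.lf (nat_lit 6321) (.g (nat_lit 2656) (.e (nat_lit 297) (nat_lit 22) (.e (nat_lit 344131) (nat_lit 26) (.e (nat_lit 557098) (nat_lit 13) (.e (nat_lit 172064) (nat_lit 2) (.e (nat_lit 196661) (nat_lit 12) (.e (nat_lit 57351) (nat_lit 0) (.e (nat_lit 7261) (nat_lit 384) (.e (nat_lit 57371) (nat_lit 2) (.e (nat_lit 90128) (nat_lit 9) .nil))))))))) (.g (nat_lit 4) .nil .nil))))) 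
(.nd (nat_lit 4) (.nd (nat_lit 5) 
(.lf (nat_lit 6281) (.g (nat_lit 3101) (.e (nat_lit 297) (nat_lit 22) (.e (nat_lit 344118) (nat_lit 21) (.e (nat_lit 516165) (nat_lit 12) (.e (nat_lit 450586) (nat_lit 10) (.e (nat_lit 573477) (nat_lit 12) (.e (nat_lit 57575) (nat_lit 55) (.e (nat_lit 778362) (nat_lit 9) .nil))))))) (.g (nat_lit 5) .nil .nil))) 
(.lf (nat_lit 6313) (.g (nat_lit 1733) (.e (nat_lit 297) (nat_lit 22) (.e (nat_lit 344120) (nat_lit 21) (.e (nat_lit 516129) (nat_lit 3) (.e (nat_lit 221210) (nat_lit 22) (.e (nat_lit 196660) (nat_lit 12) (.e (nat_lit 57354) (nat_lit 0) (.e (nat_lit 5195) (nat_lit 294) (.e (nat_lit 57375) (nat_lit 2) (.e (nat_lit 90128) (nat_lit 9) .nil))))))))) (.g (nat_lit 4) .nil .nil)))) (.nd (nat_lit 5) 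
(.lf (nat_lit 6297) (.g (nat_lit 1803) (.e (nat_lit 297) (nat_lit 22) (.e (nat_lit 344119) (nat_lit 21) (.e (nat_lit 516131) (nat_lit 3) (.e (nat_lit 221214) (nat_lit 23) (.e (nat_lit 204830) (nat_lit 18) (.e (nat_lit 57854) (nat_lit 252) (.e (nat_lit 57371) (nat_lit 2) (.e (nat_lit 90128) (nat_lit 9) .nil)))))))) (.g (nat_lit 4) .nil .nil))) 
(.lf (nat_lit 6329) (.g (nat_lit 2174) (.e (nat_lit 297) (nat_lit 22) (.e (nat_lit 344131) (nat_lit 26) (.e (nat_lit 557100) (nat_lit 13) (.e (nat_lit 172049) (nat_lit 0) (.e (nat_lit 3434) (nat_lit 214) .nil))))) .nil))))) (.nd (nat_lit 3) (.nd (nat_lit 4) (.nd (nat_lit 5) 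
(.lf (nat_lit 6277) (.g (nat_lit 1960) (.e (nat_lit 297) (nat_lit 22) (.e (nat_lit 344118) (nat_lit 21) (.e (nat_lit 516129) (nat_lit 3) (.e (nat_lit 221210) (nat_lit 22) (.e (nat_lit 196660) (nat_lit 12) .nil))))) .nil)) 
(.lf (nat_lit 6309) (.g (nat_lit 3195) (.e (nat_lit 297) (nat_lit 22) (.e (nat_lit 344119) (nat_lit 21) (.e (nat_lit 516195) (nat_lit 26) (.e (nat_lit 336012) (nat_lit 2) (.e (nat_lit 90158) (nat_lit 11) (.e (nat_lit 24604) (nat_lit 2) (.e (nat_lit 90128) (nat_lit 9) .nil))))))) (.g (nat_lit 7) .nil .nil)))) (.nd (nat_lit 5) 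
(.lf (nat_lit 6293) (.g (nat_lit 2197) (.e (nat_lit 297) (nat_lit 22) (.e (nat_lit 344119) (nat_lit 21) (.e (nat_lit 516129) (nat_lit 3) (.e (nat_lit 221214) (nat_lit 23) (.e (nat_lit 204828) (nat_lit 18) .nil))))) .nil)) 
(.lf (nat_lit 6325) (.g (nat_lit 3126) (.e (nat_lit 297) (nat_lit 22) (.e (nat_lit 344131) (nat_lit 26) (.e (nat_lit 557098) (nat_lit 13) (.e (nat_lit 172067) (nat_lit 3) (.e (nat_lit 204809) (nat_lit 9) (.e (nat_lit 426123) (nat_lit 2) (.e (nat_lit 204544) (nat_lit 0) .nil))))))) (.g (nat_lit 5) .nil .nil))))) (.nd (nat_lit 4) (.nd (nat_lit 5) 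
(.lf (nat_lit 6285) (.g (nat_lit 2196) (.e (nat_lit 297) (nat_lit 22) (.e (nat_lit 344119) (nat_lit 21) (.e (nat_lit 516129) (nat_lit 3) (.e (nat_lit 221210) (nat_lit 22) (.e (nat_lit 196658) (nat_lit 12) (.e (nat_lit 57354) (nat_lit 0) (.e (nat_lit 5194) (nat_lit 294) (.e (nat_lit 57375) (nat_lit 2) (.e (nat_lit 90128) (nat_lit 9) .nil))))))))) (.g (nat_lit 4) .nil .nil))) 
(.lf (nat_lit 6317) (.g (nat_lit 4181) (.e (nat_lit 297) (nat_lit 22) (.e (nat_lit 344127) (nat_lit 26) (.e (nat_lit 557104) (nat_lit 14) (.e (nat_lit 180252) (nat_lit 10) (.e (nat_lit 573474) (nat_lit 12) (.e (nat_lit 57354) (nat_lit 0) (.e (nat_lit 5194) (nat_lit 294) (.e (nat_lit 57372) (nat_lit 2) (.e (nat_lit 90128) (nat_lit 9) .nil))))))))) (.g (nat_lit 7) .nil .nil)))) (.nd (nat_lit 5) 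
(.lf (nat_lit 6301) (.g (nat_lit 1755) (.e (nat_lit 297) (nat_lit 22) (.e (nat_lit 344119) (nat_lit 21) (.e (nat_lit 516151) (nat_lit 9) (.e (nat_lit 426285) (nat_lit 10) .nil)))) .nil)) 
(.lf (nat_lit 6333) (.g (nat_lit 2535) (.e (nat_lit 297) (nat_lit 22) (.e (nat_lit 344131) (nat_lit 26) (.e (nat_lit 557100) (nat_lit 13) (.e (nat_lit 172064) (nat_lit 2) (.e (nat_lit 196661) (nat_lit 12) (.e (nat_lit 57353) (nat_lit 0) (.e (nat_lit 7265) (nat_lit 384) (.e (nat_lit 57371) (nat_lit 2) (.e (nat_lit 90128) (nat_lit 9) .nil))))))))) (.g (nat_lit 4) .nil .nil))))))) 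
(.nd (nat_lit 2) (.nd (nat_lit 3) (.nd (nat_lit 4) (.nd (nat_lit 5) 
(.lf (nat_lit 6275) (.g (nat_lit 1209) (.e (nat_lit 297) (nat_lit 22) (.e (nat_lit 344084) (nat_lit 14) (.e (nat_lit 57606) (nat_lit 107) (.e (nat_lit 712448) (nat_lit 6) (.e (nat_lit 188449) (nat_lit 22) (.e (nat_lit 204544) (nat_lit 0) .nil)))))) (.g (nat_lit 5) .nil .nil))) 
(.lf (nat_lit 6307) (.g (nat_lit 1872) (.e (nat_lit 297) (nat_lit 22) (.e (nat_lit 344119) (nat_lit 21) (.e (nat_lit 516195) (nat_lit 26) (.e (nat_lit 336004) (nat_lit 2) (.e (nat_lit 90158) (nat_lit 11) (.e (nat_lit 24603) (nat_lit 2) (.e (nat_lit 90128) (nat_lit 9) .nil))))))) (.g (nat_lit 5) .nil .nil)))) (.nd (nat_lit 5) 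
(.lf (nat_lit 6291) (.g (nat_lit 2213) (.e (nat_lit 297) (nat_lit 22) (.e (nat_lit 344119) (nat_lit 21) (.e (nat_lit 516129) (nat_lit 3) (.e (nat_lit 221210) (nat_lit 22) (.e (nat_lit 196659) (nat_lit 12) (.e (nat_lit 57354) (nat_lit 0) (.e (nat_lit 5195) (nat_lit 294) (.e (nat_lit 57375) (nat_lit 2) (.e (nat_lit 90128) (nat_lit 9) .nil))))))))) (.g (nat_lit 4) .nil .nil))) 
(.lf (nat_lit 6323) (.g (nat_lit 1375) (.e (nat_lit 297) (nat_lit 22) (.e (nat_lit 344131) (nat_lit 26) (.e (nat_lit 557098) (nat_lit 13) (.e (nat_lit 172066) (nat_lit 3) .nil)))) .nil)))) (.nd (nat_lit 4) (.nd (nat_lit 5) 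
(.lf (nat_lit 6283) (.g (nat_lit 3368) (.e (nat_lit 297) (nat_lit 22) (.e (nat_lit 344119) (nat_lit 21) (.e (nat_lit 516129) (nat_lit 3) (.e (nat_lit 221210) (nat_lit 22) (.e (nat_lit 196626) (nat_lit 9) (.e (nat_lit 1183) (nat_lit 87) (.e (nat_lit 57848) (nat_lit 252) (.e (nat_lit 57372) (nat_lit 2) (.e (nat_lit 90128) (nat_lit 9) .nil))))))))) (.g (nat_lit 6) .nil .nil))) 
(.lf (nat_lit 6315) (.g (nat_lit 2814) (.e (nat_lit 297) (nat_lit 22) (.e (nat_lit 344127) (nat_lit 26) (.e (nat_lit 557104) (nat_lit 14) (.e (nat_lit 180233) (nat_lit 0) (.e (nat_lit 5815) (nat_lit 320) (.e (nat_lit 1201) (nat_lit 88) (.e (nat_lit 65578) (nat_lit 6) (.e (nat_lit 147467) (nat_lit 9) .nil)))))))) (.g (nat_lit 6) .nil .nil)))) (.nd (nat_lit 5) 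
(.lf (nat_lit 6299) (.g (nat_lit 1244) (.e (nat_lit 297) (nat_lit 22) (.e (nat_lit 344119) (nat_lit 21) (.e (nat_lit 516131) (nat_lit 3) (.e (nat_lit 221218) (nat_lit 24) (.e (nat_lit 220928) (nat_lit 4) (.e (nat_lit 65580) (nat_lit 6) (.e (nat_lit 147467) (nat_lit 9) .nil))))))) (.g (nat_lit 4) .nil .nil))) 
(.lf (nat_lit 6331) (.g (nat_lit 2406) (.e (nat_lit 297) (nat_lit 22) (.e (nat_lit 344131) (nat_lit 26) (.e (nat_lit 557100) (nat_lit 13) (.e (nat_lit 172062) (nat_lit 2) (.e (nat_lit 196661) (nat_lit 12) (.e (nat_lit 57352) (nat_lit 0) (.e (nat_lit 7261) (nat_lit 384) (.e (nat_lit 57371) (nat_lit 2) (.e (nat_lit 90128) (nat_lit 9) .nil))))))))) (.g (nat_lit 4) .nil .nil)))))) 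
(.nd (nat_lit 3) (.nd (nat_lit 4) (.nd (nat_lit 5) 
(.lf (nat_lit 6279) (.g (nat_lit 2120) (.e (nat_lit 297) (nat_lit 22) (.e (nat_lit 344118) (nat_lit 21) (.e (nat_lit 516129) (nat_lit 3) (.e (nat_lit 221210) (nat_lit 22) (.e (nat_lit 196660) (nat_lit 12) (.e (nat_lit 57354) (nat_lit 0) (.e (nat_lit 5194) (nat_lit 294) (.e (nat_lit 57375) (nat_lit 2) (.e (nat_lit 90128) (nat_lit 9) .nil))))))))) (.g (nat_lit 4) .nil .nil))) 
(.lf (nat_lit 6311) (.g (nat_lit 3831) (.e (nat_lit 297) (nat_lit 22) (.e (nat_lit 344119) (nat_lit 21) (.e (nat_lit 516195) (nat_lit 26) (.e (nat_lit 336021) (nat_lit 3) (.e (nat_lit 98317) (nat_lit 9) (.e (nat_lit 336012) (nat_lit 2) (.e (nat_lit 90128) (nat_lit 9) .nil))))))) (.g (nat_lit 0) .nil .nil)))) (.nd (nat_lit 5) 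
(.lf (nat_lit 6295) (.g (nat_lit 3823) (.e (nat_lit 297) (nat_lit 22) (.e (nat_lit 344119) (nat_lit 21) (.e (nat_lit 516131) (nat_lit 3) (.e (nat_lit 221212) (nat_lit 22) (.e (nat_lit 196660) (nat_lit 12) (.e (nat_lit 57354) (nat_lit 0) (.e (nat_lit 5194) (nat_lit 294) (.e (nat_lit 57375) (nat_lit 2) (.e (nat_lit 90128) (nat_lit 9) .nil))))))))) (.g (nat_lit 0) .nil .nil))) 
(.lf (nat_lit 6327) (.g (nat_lit 2770) (.e (nat_lit 297) (nat_lit 22) (.e (nat_lit 344131) (nat_lit 26) (.e (nat_lit 557098) (nat_lit 13) (.e (nat_lit 172067) (nat_lit 3) (.e (nat_lit 204824) (nat_lit 17) .nil))))) .nil)))) (.nd (nat_lit 4) (.nd (nat_lit 5) 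
(.lf (nat_lit 6287) (.g (nat_lit 2368) (.e (nat_lit 297) (nat_lit 22) (.e (nat_lit 344119) (nat_lit 21) (.e (nat_lit 516129) (nat_lit 3) (.e (nat_lit 221210) (nat_lit 22) (.e (nat_lit 196658) (nat_lit 12) (.e (nat_lit 57354) (nat_lit 0) (.e (nat_lit 5195) (nat_lit 294) (.e (nat_lit 57375) (nat_lit 2) (.e (nat_lit 90128) (nat_lit 9) .nil))))))))) (.g (nat_lit 5) .nil .nil))) 
(.lf (nat_lit 6319) (.g (nat_lit 2666) (.e (nat_lit 297) (nat_lit 22) (.e (nat_lit 344127) (nat_lit 26) (.e (nat_lit 557104) (nat_lit 14) (.e (nat_lit 180266) (nat_lit 22) (.e (nat_lit 671762) (nat_lit 4) (.e (nat_lit 65578) (nat_lit 6) (.e (nat_lit 147467) (nat_lit 9) .nil))))))) (.g (nat_lit 6) .nil .nil)))) (.nd (nat_lit 5) 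
(.lf (nat_lit 6303) (.g (nat_lit 2166) (.e (nat_lit 297) (nat_lit 22) (.e (nat_lit 344119) (nat_lit 21) (.e (nat_lit 516151) (nat_lit 9) (.e (nat_lit 426286) (nat_lit 10) .nil)))) .nil)) 
(.lf (nat_lit 6335) (.g (nat_lit 2607) (.e (nat_lit 297) (nat_lit 22) (.e (nat_lit 344131) (nat_lit 26) (.e (nat_lit 557100) (nat_lit 13) (.e (nat_lit 172065) (nat_lit 3) (.e (nat_lit 204821) (nat_lit 17) .nil))))) .nil))))))))

noncomputable def tv086 : DT := (.nd (nat_lit 0) (.nd (nat_lit 1) (.nd (nat_lit 2) (.nd (nat_lit 3) (.nd (nat_lit 4) (.nd (nat_lit 5) 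
(.lf (nat_lit 6336) (.g (nat_lit 2561) (.e (nat_lit 297) (nat_lit 22) (.e (nat_lit 344131) (nat_lit 26) (.e (nat_lit 557100) (nat_lit 13) (.e (nat_lit 172065) (nat_lit 3) (.e (nat_lit 204824) (nat_lit 17) .nil))))) .nil)) 
(.lf (nat_lit 6368) (.g (nat_lit 4839) (.e (nat_lit 297) (nat_lit 22) (.e (nat_lit 344131) (nat_lit 26) (.e (nat_lit 557105) (nat_lit 14) (.e (nat_lit 180252) (nat_lit 10) (.e (nat_lit 573474) (nat_lit 12) (.e (nat_lit 57354) (nat_lit 0) (.e (nat_lit 5195) (nat_lit 294) (.e (nat_lit 57372) (nat_lit 2) (.e (nat_lit 90128) (nat_lit 9) .nil))))))))) (.g (nat_lit 7) .nil .nil)))) (.nd (nat_lit 5) 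
(.lf (nat_lit 6352) (.g (nat_lit 2928) (.e (nat_lit 297) (nat_lit 22) (.e (nat_lit 344131) (nat_lit 26) (.e (nat_lit 557103) (nat_lit 14) (.e (nat_lit 180266) (nat_lit 22) (.e (nat_lit 671762) (nat_lit 4) (.e (nat_lit 65578) (nat_lit 6) (.e (nat_lit 147467) (nat_lit 9) .nil))))))) (.g (nat_lit 5) .nil .nil))) 
(.lf (nat_lit 6384) (.g (nat_lit 3384) (.e (nat_lit 297) (nat_lit 22) (.e (nat_lit 344132) (nat_lit 26) (.e (nat_lit 557100) (nat_lit 13) (.e (nat_lit 172062) (nat_lit 2) (.e (nat_lit 196661) (nat_lit 12) (.e (nat_lit 57352) (nat_lit 0) (.e (nat_lit 7261) (nat_lit 384) (.e (nat_lit 57371) (nat_lit 2) (.e (nat_lit 90128) (nat_lit 9) .nil))))))))) (.g (nat_lit 5) .nil .nil))))) 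
(.nd (nat_lit 4) (.nd (nat_lit 5) 
(.lf (nat_lit 6344) (.g (nat_lit 3749) (.e (nat_lit 297) (nat_lit 22) (.e (nat_lit 344131) (nat_lit 26) (.e (nat_lit 557103) (nat_lit 14) (.e (nat_lit 180244) (nat_lit 5) (.e (nat_lit 532579) (nat_lit 26) (.e (nat_lit 426123) (nat_lit 2) (.e (nat_lit 204544) (nat_lit 0) .nil))))))) (.g (nat_lit 6) .nil .nil))) 
(.lf (nat_lit 6376) (.g (nat_lit 2884) (.e (nat_lit 297) (nat_lit 22) (.e (nat_lit 344132) (nat_lit 26) (.e (nat_lit 557100) (nat_lit 13) (.e (nat_lit 172042) (nat_lit 0) (.e (nat_lit 3437) (nat_lit 214) (.e (nat_lit 671762) (nat_lit 4) (.e (nat_lit 65578) (nat_lit 6) (.e (nat_lit 147467) (nat_lit 9) .nil)))))))) (.g (nat_lit 6) .nil .nil)))) (.nd (nat_lit 5) 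
(.lf (nat_lit 6360) (.g (nat_lit 3765) (.e (nat_lit 297) (nat_lit 22) (.e (nat_lit 344131) (nat_lit 26) (.e (nat_lit 557105) (nat_lit 14) (.e (nat_lit 180252) (nat_lit 10) (.e (nat_lit 573449) (nat_lit 9) (.e (nat_lit 1183) (nat_lit 87) (.e (nat_lit 57848) (nat_lit 252) (.e (nat_lit 57375) (nat_lit 2) (.e (nat_lit 90128) (nat_lit 9) .nil))))))))) (.g (nat_lit 6) .nil .nil))) 
(.lf (nat_lit 6392) (.g (nat_lit 3074) (.e (nat_lit 297) (nat_lit 22) (.e (nat_lit 344132) (nat_lit 26) (.e (nat_lit 557100) (nat_lit 13) (.e (nat_lit 172065) (nat_lit 3) (.e (nat_lit 204824) (nat_lit 17) (.e (nat_lit 1014) (nat_lit 81) (.e (nat_lit 7261) (nat_lit 384) (.e (nat_lit 57371) (nat_lit 2) (.e (nat_lit 90128) (nat_lit 9) .nil))))))))) (.g (nat_lit 4) .nil .nil)))))) 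
(.nd (nat_lit 3) (.nd (nat_lit 4) (.nd (nat_lit 5) 
(.lf (nat_lit 6340) (.g (nat_lit 2402) (.e (nat_lit 297) (nat_lit 22) (.e (nat_lit 344131) (nat_lit 26) (.e (nat_lit 557103) (nat_lit 14) (.e (nat_lit 180225) (nat_lit 0) (.e (nat_lit 5814) (nat_lit 320) (.e (nat_lit 1201) (nat_lit 88) (.e (nat_lit 65578) (nat_lit 6) (.e (nat_lit 147467) (nat_lit 9) .nil)))))))) (.g (nat_lit 4) .nil .nil))) 
(.lf (nat_lit 6372) (.g (nat_lit 514) (.e (nat_lit 297) (nat_lit 22) (.e (nat_lit 344132) (nat_lit 26) (.e (nat_lit 557100) (nat_lit 13) .nil))) .nil))) (.nd (nat_lit 5) 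
(.lf (nat_lit 6356) (.g (nat_lit 2164) (.e (nat_lit 297) (nat_lit 22) (.e (nat_lit 344131) (nat_lit 26) (.e (nat_lit 557105) (nat_lit 14) (.e (nat_lit 180227) (nat_lit 0) (.e (nat_lit 5916) (nat_lit 320) (.e (nat_lit 1197) (nat_lit 88) (.e (nat_lit 65580) (nat_lit 6) (.e (nat_lit 147467) (nat_lit 9) .nil)))))))) (.g (nat_lit 4) .nil .nil))) 
(.lf (nat_lit 6388) (.g (nat_lit 2658) (.e (nat_lit 297) (nat_lit 22) (.e (nat_lit 344132) (nat_lit 26) (.e (nat_lit 557100) (nat_lit 13) (.e (nat_lit 172065) (nat_lit 3) (.e (nat_lit 204821) (nat_lit 17) .nil))))) .nil)))) (.nd (nat_lit 4) (.nd (nat_lit 5) 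
(.lf (nat_lit 6348) (.g (nat_lit 4821) (.e (nat_lit 297) (nat_lit 22) (.e (nat_lit 344131) (nat_lit 26) (.e (nat_lit 557103) (nat_lit 14) (.e (nat_lit 180250) (nat_lit 10) (.e (nat_lit 573474) (nat_lit 12) (.e (nat_lit 57354) (nat_lit 0) (.e (nat_lit 5195) (nat_lit 294) (.e (nat_lit 57375) (nat_lit 2) (.e (nat_lit 90128) (nat_lit 9) .nil))))))))) (.g (nat_lit 6) .nil .nil))) 
(.lf (nat_lit 6380) (.g (nat_lit 3682) (.e (nat_lit 297) (nat_lit 22) (.e (nat_lit 344132) (nat_lit 26) (.e (nat_lit 557100) (nat_lit 13) (.e (nat_lit 172049) (nat_lit 0) (.e (nat_lit 3437) (nat_lit 214) (.e (nat_lit 671762) (nat_lit 4) (.e (nat_lit 65578) (nat_lit 6) (.e (nat_lit 147467) (nat_lit 9) .nil)))))))) (.g (nat_lit 6) .nil .nil)))) (.nd (nat_lit 5) 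
(.lf (nat_lit 6364) (.g (nat_lit 2548) (.e (nat_lit 297) (nat_lit 22) (.e (nat_lit 344131) (nat_lit 26) (.e (nat_lit 557105) (nat_lit 14) (.e (nat_lit 180252) (nat_lit 10) (.e (nat_lit 573458) (nat_lit 9) (.e (nat_lit 1180) (nat_lit 87) (.e (nat_lit 57849) (nat_lit 252) (.e (nat_lit 57372) (nat_lit 2) (.e (nat_lit 90128) (nat_lit 9) .nil))))))))) (.g (nat_lit 4) .nil .nil))) 
(.lf (nat_lit 6396) (.g (nat_lit 2766) (.e (nat_lit 297) (nat_lit 22) (.e (nat_lit 344132) (nat_lit 26) (.e (nat_lit 557100) (nat_lit 13) (.e (nat_lit 172067) (nat_lit 3) (.e (nat_lit 204824) (nat_lit 17) .nil))))) .nil)))))) (.nd (nat_lit 2) (.nd (nat_lit 3) (.nd (nat_lit 4) (.nd (nat_lit 5) 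
(.lf (nat_lit 6338) (.g (nat_lit 2549) (.e (nat_lit 297) (nat_lit 22) (.e (nat_lit 344131) (nat_lit 26) (.e (nat_lit 557101) (nat_lit 13) (.e (nat_lit 172064) (nat_lit 2) (.e (nat_lit 196661) (nat_lit 12) (.e (nat_lit 57353) (nat_lit 0) (.e (nat_lit 7261) (nat_lit 384) (.e (nat_lit 57371) (nat_lit 2) (.e (nat_lit 90128) (nat_lit 9) .nil))))))))) (.g (nat_lit 5) .nil .nil))) 
(.lf (nat_lit 6370) (.g (nat_lit 2585) (.e (nat_lit 297) (nat_lit 22) (.e (nat_lit 344131) (nat_lit 26) (.e (nat_lit 557105) (nat_lit 14) (.e (nat_lit 180266) (nat_lit 22) (.e (nat_lit 671762) (nat_lit 4) (.e (nat_lit 65578) (nat_lit 6) (.e (nat_lit 147467) (nat_lit 9) .nil))))))) (.g (nat_lit 5) .nil .nil)))) (.nd (nat_lit 5) 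
(.lf (nat_lit 6354) (.g (nat_lit 1164) (.e (nat_lit 297) (nat_lit 22) (.e (nat_lit 344131) (nat_lit 26) (.e (nat_lit 557105) (nat_lit 14) (.e (nat_lit 180227) (nat_lit 0) .nil)))) .nil)) 
(.lf (nat_lit 6386) (.g (nat_lit 2549) (.e (nat_lit 297) (nat_lit 22) (.e (nat_lit 344132) (nat_lit 26) (.e (nat_lit 557100) (nat_lit 13) (.e (nat_lit 172065) (nat_lit 3) (.e (nat_lit 204815) (nat_lit 17) .nil))))) .nil)))) (.nd (nat_lit 4) (.nd (nat_lit 5) 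
(.lf (nat_lit 6346) (.g (nat_lit 3097) (.e (nat_lit 297) (nat_lit 22) (.e (nat_lit 344131) (nat_lit 26) (.e (nat_lit 557103) (nat_lit 14) (.e (nat_lit 180250) (nat_lit 10) (.e (nat_lit 573473) (nat_lit 12) (.e (nat_lit 57354) (nat_lit 0) (.e (nat_lit 5194) (nat_lit 294) (.e (nat_lit 57375) (nat_lit 2) (.e (nat_lit 90128) (nat_lit 9) .nil))))))))) (.g (nat_lit 5) .nil .nil))) 
(.lf (nat_lit 6378) (.g (nat_lit 2464) (.e (nat_lit 297) (nat_lit 22) (.e (nat_lit 344132) (nat_lit 26) (.e (nat_lit 557100) (nat_lit 13) (.e (nat_lit 172049) (nat_lit 0) (.e (nat_lit 3416) (nat_lit 213) (.e (nat_lit 663567) (nat_lit 4) (.e (nat_lit 65578) (nat_lit 6) (.e (nat_lit 147467) (nat_lit 9) .nil)))))))) (.g (nat_lit 4) .nil .nil)))) (.nd (nat_lit 5) 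
(.lf (nat_lit 6362) (.g (nat_lit 2553) (.e (nat_lit 297) (nat_lit 22) (.e (nat_lit 344131) (nat_lit 26) (.e (nat_lit 557105) (nat_lit 14) (.e (nat_lit 180252) (nat_lit 10) (.e (nat_lit 573452) (nat_lit 9) (.e (nat_lit 1175) (nat_lit 87) (.e (nat_lit 57849) (nat_lit 252) (.e (nat_lit 57372) (nat_lit 2) (.e (nat_lit 90128) (nat_lit 9) .nil))))))))) (.g (nat_lit 4) .nil .nil))) 
(.lf (nat_lit 6394) (.g (nat_lit 2894) (.e (nat_lit 297) (nat_lit 22) (.e (nat_lit 344132) (nat_lit 26) (.e (nat_lit 557100) (nat_lit 13) (.e (nat_lit 172067) (nat_lit 3) (.e (nat_lit 204815) (nat_lit 17) (.e (nat_lit 974) (nat_lit 81) (.e (nat_lit 7261) (nat_lit 384) (.e (nat_lit 57371) (nat_lit 2) (.e (nat_lit 90128) (nat_lit 9) .nil))))))))) (.g (nat_lit 4) .nil .nil)))))) 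
(.nd (nat_lit 3) (.nd (nat_lit 4) (.nd (nat_lit 5) 
(.lf (nat_lit 6342) (.g (nat_lit 2809) (.e (nat_lit 297) (nat_lit 22) (.e (nat_lit 344131) (nat_lit 26) (.e (nat_lit 557103) (nat_lit 14) (.e (nat_lit 180225) (nat_lit 0) (.e (nat_lit 5916) (nat_lit 320) (.e (nat_lit 1197) (nat_lit 88) (.e (nat_lit 65580) (nat_lit 6) (.e (nat_lit 147467) (nat_lit 9) .nil)))))))) (.g (nat_lit 5) .nil .nil))) 
(.lf (nat_lit 6374) (.g (nat_lit 2017) (.e (nat_lit 297) (nat_lit 22) (.e (nat_lit 344132) (nat_lit 26) (.e (nat_lit 557100) (nat_lit 13) (.e (nat_lit 172039) (nat_lit 0) .nil)))) .nil))) (.nd (nat_lit 5) 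
(.lf (nat_lit 6358) (.g (nat_lit 2707) (.e (nat_lit 297) (nat_lit 22) (.e (nat_lit 344131) (nat_lit 26) (.e (nat_lit 557105) (nat_lit 14) (.e (nat_lit 180252) (nat_lit 10) (.e (nat_lit 573449) (nat_lit 9) (.e (nat_lit 1175) (nat_lit 87) (.e (nat_lit 57849) (nat_lit 252) (.e (nat_lit 57372) (nat_lit 2) (.e (nat_lit 90128) (nat_lit 9) .nil))))))))) (.g (nat_lit 4) .nil .nil))) 
(.lf (nat_lit 6390) (.g (nat_lit 2619) (.e (nat_lit 297) (nat_lit 22) (.e (nat_lit 344132) (nat_lit 26) (.e (nat_lit 557100) (nat_lit 13) (.e (nat_lit 172065) (nat_lit 3) (.e (nat_lit 204822) (nat_lit 17) .nil))))) .nil)))) (.nd (nat_lit 4) (.nd (nat_lit 5) 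
(.lf (nat_lit 6350) (.g (nat_lit 2968) (.e (nat_lit 297) (nat_lit 22) (.e (nat_lit 344131) (nat_lit 26) (.e (nat_lit 557103) (nat_lit 14) (.e (nat_lit 180262) (nat_lit 21) (.e (nat_lit 663567) (nat_lit 4) (.e (nat_lit 65580) (nat_lit 6) (.e (nat_lit 147467) (nat_lit 9) .nil))))))) (.g (nat_lit 6) .nil .nil))) 
(.lf (nat_lit 6382) (.g (nat_lit 2566) (.e (nat_lit 297) (nat_lit 22) (.e (nat_lit 344132) (nat_lit 26) (.e (nat_lit 557100) (nat_lit 13) (.e (nat_lit 172062) (nat_lit 2) (.e (nat_lit 196654) (nat_lit 11) (.e (nat_lit 16412) (nat_lit 2) (.e (nat_lit 204544) (nat_lit 0) .nil))))))) (.g (nat_lit 4) .nil .nil)))) (.nd (nat_lit 5) 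
(.lf (nat_lit 6366) (.g (nat_lit 3674) (.e (nat_lit 297) (nat_lit 22) (.e (nat_lit 344131) (nat_lit 26) (.e (nat_lit 557105) (nat_lit 14) (.e (nat_lit 180252) (nat_lit 10) (.e (nat_lit 573473) (nat_lit 12) (.e (nat_lit 57354) (nat_lit 0) (.e (nat_lit 5194) (nat_lit 294) (.e (nat_lit 57375) (nat_lit 2) (.e (nat_lit 90128) (nat_lit 9) .nil))))))))) (.g (nat_lit 6) .nil .nil))) 
(.lf (nat_lit 6398) (.g (nat_lit 1605) (.e (nat_lit 297) (nat_lit 22) (.e (nat_lit 344132) (nat_lit 26) (.e (nat_lit 557101) (nat_lit 13) (.e (nat_lit 172032) (nat_lit 0) (.e (nat_lit 3421) (nat_lit 213) .nil))))) .nil))))))) (.nd (nat_lit 1) (.nd (nat_lit 2) (.nd (nat_lit 3) (.nd (nat_lit 4) (.nd (nat_lit 5) 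
(.lf (nat_lit 6337) (.g (nat_lit 2297) (.e (nat_lit 297) (nat_lit 22) (.e (nat_lit 344131) (nat_lit 26) (.e (nat_lit 557100) (nat_lit 13) (.e (nat_lit 172067) (nat_lit 3) (.e (nat_lit 204809) (nat_lit 9) .nil))))) .nil)) 
(.lf (nat_lit 6369) (.g (nat_lit 1661) (.e (nat_lit 297) (nat_lit 22) (.e (nat_lit 344131) (nat_lit 26) (.e (nat_lit 557105) (nat_lit 14) (.e (nat_lit 180265) (nat_lit 21) (.e (nat_lit 663561) (nat_lit 0) (.e (nat_lit 1512) (nat_lit 108) (.e (nat_lit 336051) (nat_lit 6) (.e (nat_lit 147467) (nat_lit 9) .nil)))))))) (.g (nat_lit 4) .nil .nil)))) (.nd (nat_lit 5) 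
(.lf (nat_lit 6353) (.g (nat_lit 1405) (.e (nat_lit 297) (nat_lit 22) (.e (nat_lit 344131) (nat_lit 26) (.e (nat_lit 557105) (nat_lit 14) (.e (nat_lit 180226) (nat_lit 0) .nil)))) .nil)) 
(.lf (nat_lit 6385) (.g (nat_lit 2646) (.e (nat_lit 297) (nat_lit 22) (.e (nat_lit 344132) (nat_lit 26) (.e (nat_lit 557100) (nat_lit 13) (.e (nat_lit 172064) (nat_lit 2) (.e (nat_lit 196661) (nat_lit 12) (.e (nat_lit 57351) (nat_lit 0) (.e (nat_lit 7261) (nat_lit 384) (.e (nat_lit 57371) (nat_lit 2) (.e (nat_lit 90128) (nat_lit 9) .nil))))))))) (.g (nat_lit 4) .nil .nil))))) 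
(.nd (nat_lit 4) (.nd (nat_lit 5) 
(.lf (nat_lit 6345) (.g (nat_lit 3225) (.e (nat_lit 297) (nat_lit 22) (.e (nat_lit 344131) (nat_lit 26) (.e (nat_lit 557103) (nat_lit 14) (.e (nat_lit 180250) (nat_lit 10) (.e (nat_lit 573473) (nat_lit 12) (.e (nat_lit 57354) (nat_lit 0) (.e (nat_lit 5194) (nat_lit 294) (.e (nat_lit 57372) (nat_lit 2) (.e (nat_lit 90128) (nat_lit 9) .nil))))))))) (.g (nat_lit 5) .nil .nil))) 
(.lf (nat_lit 6377) (.g (nat_lit 2158) (.e (nat_lit 297) (nat_lit 22) (.e (nat_lit 344132) (nat_lit 26) (.e (nat_lit 557100) (nat_lit 13) (.e (nat_lit 172046) (nat_lit 0) .nil)))) .nil))) (.nd (nat_lit 5) 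
(.lf (nat_lit 6361) (.g (nat_lit 3837) (.e (nat_lit 297) (nat_lit 22) (.e (nat_lit 344131) (nat_lit 26) (.e (nat_lit 557105) (nat_lit 14) (.e (nat_lit 180252) (nat_lit 10) (.e (nat_lit 573449) (nat_lit 9) (.e (nat_lit 1183) (nat_lit 87) (.e (nat_lit 57849) (nat_lit 252) (.e (nat_lit 57372) (nat_lit 2) (.e (nat_lit 90128) (nat_lit 9) .nil))))))))) (.g (nat_lit 6) .nil .nil))) 
(.lf (nat_lit 6393) (.g (nat_lit 2518) (.e (nat_lit 297) (nat_lit 22) (.e (nat_lit 344132) (nat_lit 26) (.e (nat_lit 557100) (nat_lit 13) (.e (nat_lit 172067) (nat_lit 3) (.e (nat_lit 204815) (nat_lit 17) .nil))))) .nil))))) (.nd (nat_lit 3) (.nd (nat_lit 4) (.nd (nat_lit 5) 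
(.lf (nat_lit 6341) (.g (nat_lit 2452) (.e (nat_lit 297) (nat_lit 22) (.e (nat_lit 344131) (nat_lit 26) (.e (nat_lit 557103) (nat_lit 14) (.e (nat_lit 180225) (nat_lit 0) (.e (nat_lit 5814) (nat_lit 320) (.e (nat_lit 1212) (nat_lit 89) (.e (nat_lit 73776) (nat_lit 26) (.e (nat_lit 778362) (nat_lit 9) .nil)))))))) (.g (nat_lit 4) .nil .nil))) 
(.lf (nat_lit 6373) (.g (nat_lit 1882) (.e (nat_lit 297) (nat_lit 22) (.e (nat_lit 344132) (nat_lit 26) (.e (nat_lit 557100) (nat_lit 13) (.e (nat_lit 172035) (nat_lit 0) .nil)))) .nil))) (.nd (nat_lit 5) 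
(.lf (nat_lit 6357) (.g (nat_lit 1951) (.e (nat_lit 297) (nat_lit 22) (.e (nat_lit 344131) (nat_lit 26) (.e (nat_lit 557105) (nat_lit 14) (.e (nat_lit 180227) (nat_lit 0) (.e (nat_lit 5945) (nat_lit 322) (.e (nat_lit 57412) (nat_lit 12) (.e (nat_lit 336046) (nat_lit 6) (.e (nat_lit 147467) (nat_lit 9) .nil)))))))) (.g (nat_lit 4) .nil .nil))) 
(.lf (nat_lit 6389) (.g (nat_lit 3171) (.e (nat_lit 297) (nat_lit 22) (.e (nat_lit 344132) (nat_lit 26) (.e (nat_lit 557100) (nat_lit 13) (.e (nat_lit 172065) (nat_lit 3) (.e (nat_lit 204821) (nat_lit 17) (.e (nat_lit 1008) (nat_lit 81) (.e (nat_lit 7261) (nat_lit 384) (.e (nat_lit 57371) (nat_lit 2) (.e (nat_lit 90128) (nat_lit 9) .nil))))))))) (.g (nat_lit 4) .nil .nil))))) 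
(.nd (nat_lit 4) (.nd (nat_lit 5) 
(.lf (nat_lit 6349) (.g (nat_lit 3513) (.e (nat_lit 297) (nat_lit 22) (.e (nat_lit 344131) (nat_lit 26) (.e (nat_lit 557103) (nat_lit 14) (.e (nat_lit 180250) (nat_lit 10) (.e (nat_lit 573475) (nat_lit 12) (.e (nat_lit 57354) (nat_lit 0) (.e (nat_lit 5195) (nat_lit 294) (.e (nat_lit 57372) (nat_lit 2) (.e (nat_lit 90128) (nat_lit 9) .nil))))))))) (.g (nat_lit 5) .nil .nil))) 
(.lf (nat_lit 6381) (.g (nat_lit 4823) (.e (nat_lit 297) (nat_lit 22) (.e (nat_lit 344132) (nat_lit 26) (.e (nat_lit 557100) (nat_lit 13) (.e (nat_lit 172049) (nat_lit 0) (.e (nat_lit 3437) (nat_lit 214) (.e (nat_lit 671762) (nat_lit 4) (.e (nat_lit 65580) (nat_lit 6) (.e (nat_lit 147467) (nat_lit 9) .nil)))))))) (.g (nat_lit 0) .nil .nil)))) (.nd (nat_lit 5) 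
(.lf (nat_lit 6365) (.g (nat_lit 3802) (.e (nat_lit 297) (nat_lit 22) (.e (nat_lit 344131) (nat_lit 26) (.e (nat_lit 557105) (nat_lit 14) (.e (nat_lit 180252) (nat_lit 10) (.e (nat_lit 573473) (nat_lit 12) (.e (nat_lit 57354) (nat_lit 0) (.e (nat_lit 5194) (nat_lit 294) (.e (nat_lit 57372) (nat_lit 2) (.e (nat_lit 90128) (nat_lit 9) .nil))))))))) (.g (nat_lit 6) .nil .nil))) 
(.lf (nat_lit 6397) (.g (nat_lit 2469) (.e (nat_lit 297) (nat_lit 22) (.e (nat_lit 344132) (nat_lit 26) (.e (nat_lit 557100) (nat_lit 13) (.e (nat_lit 172068) (nat_lit 4) (.e (nat_lit 229699) (nat_lit 254) .nil))))) .nil)))))) (.nd (nat_lit 2) (.nd (nat_lit 3) (.nd (nat_lit 4) (.nd (nat_lit 5) 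
(.lf (nat_lit 6339) (.g (nat_lit 1428) (.e (nat_lit 297) (nat_lit 22) (.e (nat_lit 344131) (nat_lit 26) (.e (nat_lit 557103) (nat_lit 14) (.e (nat_lit 180225) (nat_lit 0) .nil)))) .nil)) 
(.lf (nat_lit 6371) (.g (nat_lit 3645) (.e (nat_lit 297) (nat_lit 22) (.e (nat_lit 344131) (nat_lit 26) (.e (nat_lit 557105) (nat_lit 14) (.e (nat_lit 180266) (nat_lit 22) (.e (nat_lit 671762) (nat_lit 4) (.e (nat_lit 65580) (nat_lit 6) (.e (nat_lit 147467) (nat_lit 9) .nil))))))) (.g (nat_lit 7) .nil .nil)))) (.nd (nat_lit 5) 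
(.lf (nat_lit 6355) (.g (nat_lit 1928) (.e (nat_lit 297) (nat_lit 22) (.e (nat_lit 344131) (nat_lit 26) (.e (nat_lit 557105) (nat_lit 14) (.e (nat_lit 180227) (nat_lit 0) (.e (nat_lit 5796) (nat_lit 320) .nil))))) .nil)) 
(.lf (nat_lit 6387) (.g (nat_lit 2956) (.e (nat_lit 297) (nat_lit 22) (.e (nat_lit 344132) (nat_lit 26) (.e (nat_lit 557100) (nat_lit 13) (.e (nat_lit 172065) (nat_lit 3) (.e (nat_lit 204815) (nat_lit 17) (.e (nat_lit 974) (nat_lit 81) (.e (nat_lit 7261) (nat_lit 384) (.e (nat_lit 57371) (nat_lit 2) (.e (nat_lit 90128) (nat_lit 9) .nil))))))))) (.g (nat_lit 4) .nil .nil))))) 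
(.nd (nat_lit 4) (.nd (nat_lit 5) 
(.lf (nat_lit 6347) (.g (nat_lit 2993) (.e (nat_lit 297) (nat_lit 22) (.e (nat_lit 344131) (nat_lit 26) (.e (nat_lit 557103) (nat_lit 14) (.e (nat_lit 180250) (nat_lit 10) (.e (nat_lit 573473) (nat_lit 12) (.e (nat_lit 57354) (nat_lit 0) (.e (nat_lit 5195) (nat_lit 294) (.e (nat_lit 57375) (nat_lit 2) (.e (nat_lit 90128) (nat_lit 9) .nil))))))))) (.g (nat_lit 5) .nil .nil))) 
(.lf (nat_lit 6379) (.g (nat_lit 2652) (.e (nat_lit 297) (nat_lit 22) (.e (nat_lit 344132) (nat_lit 26) (.e (nat_lit 557100) (nat_lit 13) (.e (nat_lit 172049) (nat_lit 0) (.e (nat_lit 3434) (nat_lit 214) (.e (nat_lit 671762) (nat_lit 4) (.e (nat_lit 65580) (nat_lit 6) (.e (nat_lit 147467) (nat_lit 9) .nil)))))))) (.g (nat_lit 4) .nil .nil)))) (.nd (nat_lit 5) 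
(.lf (nat_lit 6363) (.g (nat_lit 3065) (.e (nat_lit 297) (nat_lit 22) (.e (nat_lit 344131) (nat_lit 26) (.e (nat_lit 557105) (nat_lit 14) (.e (nat_lit 180252) (nat_lit 10) (.e (nat_lit 573453) (nat_lit 9) .nil))))) .nil)) 
(.lf (nat_lit 6395) (.g (nat_lit 2554) (.e (nat_lit 297) (nat_lit 22) (.e (nat_lit 344132) (nat_lit 26) (.e (nat_lit 557100) (nat_lit 13) (.e (nat_lit 172067) (nat_lit 3) (.e (nat_lit 204821) (nat_lit 17) .nil))))) .nil))))) (.nd (nat_lit 3) (.nd (nat_lit 4) (.nd (nat_lit 5) 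
(.lf (nat_lit 6343) (.g (nat_lit 2197) (.e (nat_lit 297) (nat_lit 22) (.e (nat_lit 344131) (nat_lit 26) (.e (nat_lit 557103) (nat_lit 14) (.e (nat_lit 180233) (nat_lit 0) (.e (nat_lit 5815) (nat_lit 320) (.e (nat_lit 1201) (nat_lit 88) (.e (nat_lit 65578) (nat_lit 6) (.e (nat_lit 147467) (nat_lit 9) .nil)))))))) (.g (nat_lit 4) .nil .nil))) 
(.lf (nat_lit 6375) (.g (nat_lit 2689) (.e (nat_lit 297) (nat_lit 22) (.e (nat_lit 344132) (nat_lit 26) (.e (nat_lit 557100) (nat_lit 13) (.e (nat_lit 172041) (nat_lit 0) (.e (nat_lit 3434) (nat_lit 214) .nil))))) .nil))) (.nd (nat_lit 5) 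
(.lf (nat_lit 6359) (.g (nat_lit 3722) (.e (nat_lit 297) (nat_lit 22) (.e (nat_lit 344131) (nat_lit 26) (.e (nat_lit 557105) (nat_lit 14) (.e (nat_lit 180252) (nat_lit 10) (.e (nat_lit 573449) (nat_lit 9) (.e (nat_lit 1183) (nat_lit 87) (.e (nat_lit 57848) (nat_lit 252) (.e (nat_lit 57372) (nat_lit 2) (.e (nat_lit 90128) (nat_lit 9) .nil))))))))) (.g (nat_lit 6) .nil .nil))) 
(.lf (nat_lit 6391) (.g (nat_lit 2619) (.e (nat_lit 297) (nat_lit 22) (.e (nat_lit 344132) (nat_lit 26) (.e (nat_lit 557100) (nat_lit 13) (.e (nat_lit 172065) (nat_lit 3) (.e (nat_lit 204824) (nat_lit 17) .nil))))) .nil)))) (.nd (nat_lit 4) (.nd (nat_lit 5) 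
(.lf (nat_lit 6351) (.g (nat_lit 1585) (.e (nat_lit 297) (nat_lit 22) (.e (nat_lit 344131) (nat_lit 26) (.e (nat_lit 557103) (nat_lit 14) (.e (nat_lit 180266) (nat_lit 22) .nil)))) .nil)) 
(.lf (nat_lit 6383) (.g (nat_lit 2745) (.e (nat_lit 297) (nat_lit 22) (.e (nat_lit 344132) (nat_lit 26) (.e (nat_lit 557100) (nat_lit 13) (.e (nat_lit 172062) (nat_lit 2) (.e (nat_lit 196661) (nat_lit 12) (.e (nat_lit 57351) (nat_lit 0) (.e (nat_lit 7261) (nat_lit 384) (.e (nat_lit 57371) (nat_lit 2) (.e (nat_lit 90128) (nat_lit 9) .nil))))))))) (.g (nat_lit 4) .nil .nil)))) (.nd (nat_lit 5) 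
(.lf (nat_lit 6367) (.g (nat_lit 3167) (.e (nat_lit 297) (nat_lit 22) (.e (nat_lit 344131) (nat_lit 26) (.e (nat_lit 557105) (nat_lit 14) (.e (nat_lit 180252) (nat_lit 10) (.e (nat_lit 573473) (nat_lit 12) (.e (nat_lit 57354) (nat_lit 0) (.e (nat_lit 5195) (nat_lit 294) (.e (nat_lit 57372) (nat_lit 2) (.e (nat_lit 90128) (nat_lit 9) .nil))))))))) (.g (nat_lit 5) .nil .nil))) 
(.lf (nat_lit 6399) (.g (nat_lit 1816) (.e (nat_lit 297) (nat_lit 22) (.e (nat_lit 344132) (nat_lit 26) (.e (nat_lit 557101) (nat_lit 13) (.e (nat_lit 172032) (nat_lit 0) (.e (nat_lit 3434) (nat_lit 214) (.e (nat_lit 671762) (nat_lit 4) (.e (nat_lit 65580) (nat_lit 6) (.e (nat_lit 147467) (nat_lit 9) .nil)))))))) (.g (nat_lit 4) .nil .nil)))))))))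

noncomputable def tv087 : DT := (.nd (nat_lit 0) (.nd (nat_lit 1) (.nd (nat_lit 2) (.nd (nat_lit 3) (.nd (nat_lit 4) (.nd (nat_lit 5) 
(.lf (nat_lit 6400) (.g (nat_lit 1995) (.e (nat_lit 297) (nat_lit 22) (.e (nat_lit 344132) (nat_lit 26) (.e (nat_lit 557101) (nat_lit 13) (.e (nat_lit 172032) (nat_lit 0) (.e (nat_lit 3438) (nat_lit 214) (.e (nat_lit 671762) (nat_lit 4) (.e (nat_lit 65580) (nat_lit 6) (.e (nat_lit 147467) (nat_lit 9) .nil)))))))) (.g (nat_lit 4) .nil .nil))) 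
(.lf (nat_lit 6432) (.g (nat_lit 1792) (.e (nat_lit 297) (nat_lit 22) (.e (nat_lit 344132) (nat_lit 26) (.e (nat_lit 557105) (nat_lit 14) (.e (nat_lit 180264) (nat_lit 21) (.e (nat_lit 663555) (nat_lit 0) (.e (nat_lit 1512) (nat_lit 108) (.e (nat_lit 336051) (nat_lit 6) (.e (nat_lit 147467) (nat_lit 9) .nil)))))))) (.g (nat_lit 4) .nil .nil)))) (.nd (nat_lit 5) 
(.lf (nat_lit 6416) (.g (nat_lit 4028) (.e (nat_lit 297) (nat_lit 22) (.e (nat_lit 344132) (nat_lit 26) (.e (nat_lit 557105) (nat_lit 14) (.e (nat_lit 180252) (nat_lit 10) (.e (nat_lit 573449) (nat_lit 9) (.e (nat_lit 1183) (nat_lit 87) (.e (nat_lit 57849) (nat_lit 252) (.e (nat_lit 57375) (nat_lit 2) (.e (nat_lit 90128) (nat_lit 9) .nil))))))))) (.g (nat_lit 6) .nil .nil))) 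
(.lf (nat_lit 6448) (.g (nat_lit 2465) (.e (nat_lit 297) (nat_lit 22) (.e (nat_lit 344133) (nat_lit 26) (.e (nat_lit 557098) (nat_lit 13) (.e (nat_lit 172045) (nat_lit 0) (.e (nat_lit 3418) (nat_lit 213) (.e (nat_lit 663567) (nat_lit 4) (.e (nat_lit 65578) (nat_lit 6) (.e (nat_lit 147467) (nat_lit 9) .nil)))))))) (.g (nat_lit 4) .nil .nil))))) (.nd (nat_lit 4) (.nd (nat_lit 5) 
(.lf (nat_lit 6408) (.g (nat_lit 1165) (.e (nat_lit 297) (nat_lit 22) (.e (nat_lit 344132) (nat_lit 26) (.e (nat_lit 557101) (nat_lit 13) (.e (nat_lit 172070) (nat_lit 4) .nil)))) .nil)) 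
(.lf (nat_lit 6440) (.g (nat_lit 2299) (.e (nat_lit 297) (nat_lit 22) (.e (nat_lit 344133) (nat_lit 26) (.e (nat_lit 557096) (nat_lit 13) (.e (nat_lit 172064) (nat_lit 2) (.e (nat_lit 196661) (nat_lit 12) (.e (nat_lit 57351) (nat_lit 0) (.e (nat_lit 7261) (nat_lit 384) (.e (nat_lit 57371) (nat_lit 2) (.e (nat_lit 90128) (nat_lit 9) .nil))))))))) (.g (nat_lit 4) .nil .nil)))) (.nd (nat_lit 5) 
(.lf (nat_lit 6424) (.g (nat_lit 3397) (.e (nat_lit 297) (nat_lit 22) (.e (nat_lit 344132) (nat_lit 26) (.e (nat_lit 557105) (nat_lit 14) (.e (nat_lit 180252) (nat_lit 10) (.e (nat_lit 573463) (nat_lit 9) (.e (nat_lit 1176) (nat_lit 87) (.e (nat_lit 57849) (nat_lit 252) (.e (nat_lit 57372) (nat_lit 2) (.e (nat_lit 90128) (nat_lit 9) .nil))))))))) (.g (nat_lit 4) .nil .nil))) 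
(.lf (nat_lit 6456) (.g (nat_lit 2520) (.e (nat_lit 297) (nat_lit 22) (.e (nat_lit 344133) (nat_lit 26) (.e (nat_lit 557098) (nat_lit 13) (.e (nat_lit 172063) (nat_lit 2) (.e (nat_lit 196661) (nat_lit 12) (.e (nat_lit 57353) (nat_lit 0) (.e (nat_lit 7265) (nat_lit 384) (.e (nat_lit 57371) (nat_lit 2) (.e (nat_lit 90128) (nat_lit 9) .nil))))))))) (.g (nat_lit 4) .nil .nil)))))) 
(.nd (nat_lit 3) (.nd (nat_lit 4) (.nd (nat_lit 5) 
(.lf (nat_lit 6404) (.g (nat_lit 2152) (.e (nat_lit 297) (nat_lit 22) (.e (nat_lit 344132) (nat_lit 26) (.e (nat_lit 557101) (nat_lit 13) (.e (nat_lit 172065) (nat_lit 3) (.e (nat_lit 204809) (nat_lit 9) (.e (nat_lit 426123) (nat_lit 2) (.e (nat_lit 204544) (nat_lit 0) .nil))))))) (.g (nat_lit 4) .nil .nil))) 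
(.lf (nat_lit 6436) (.g (nat_lit 1821) (.e (nat_lit 297) (nat_lit 22) (.e (nat_lit 344132) (nat_lit 26) (.e (nat_lit 557105) (nat_lit 14) (.e (nat_lit 180265) (nat_lit 21) (.e (nat_lit 671488) (nat_lit 4) (.e (nat_lit 65580) (nat_lit 6) (.e (nat_lit 147467) (nat_lit 9) .nil))))))) (.g (nat_lit 4) .nil .nil)))) (.nd (nat_lit 5) 
(.lf (nat_lit 6420) (.g (nat_lit 3273) (.e (nat_lit 297) (nat_lit 22) (.e (nat_lit 344132) (nat_lit 26) (.e (nat_lit 557105) (nat_lit 14) (.e (nat_lit 180252) (nat_lit 10) (.e (nat_lit 573451) (nat_lit 9) (.e (nat_lit 1177) (nat_lit 87) (.e (nat_lit 57854) (nat_lit 252) (.e (nat_lit 57371) (nat_lit 2) (.e (nat_lit 90128) (nat_lit 9) .nil))))))))) (.g (nat_lit 5) .nil .nil))) 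
(.lf (nat_lit 6452) (.g (nat_lit 2491) (.e (nat_lit 297) (nat_lit 22) (.e (nat_lit 344133) (nat_lit 26) (.e (nat_lit 557098) (nat_lit 13) (.e (nat_lit 172048) (nat_lit 0) (.e (nat_lit 3418) (nat_lit 213) (.e (nat_lit 663567) (nat_lit 4) (.e (nat_lit 65578) (nat_lit 6) (.e (nat_lit 147467) (nat_lit 9) .nil)))))))) (.g (nat_lit 4) .nil .nil))))) (.nd (nat_lit 4) (.nd (nat_lit 5) 
(.lf (nat_lit 6412) (.g (nat_lit 2052) (.e (nat_lit 297) (nat_lit 22) (.e (nat_lit 344132) (nat_lit 26) (.e (nat_lit 557105) (nat_lit 14) (.e (nat_lit 180227) (nat_lit 0) (.e (nat_lit 5796) (nat_lit 320) .nil))))) .nil)) 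
(.lf (nat_lit 6444) (.g (nat_lit 3224) (.e (nat_lit 297) (nat_lit 22) (.e (nat_lit 344133) (nat_lit 26) (.e (nat_lit 557098) (nat_lit 13) (.e (nat_lit 172032) (nat_lit 0) (.e (nat_lit 3438) (nat_lit 214) (.e (nat_lit 671762) (nat_lit 4) (.e (nat_lit 65580) (nat_lit 6) (.e (nat_lit 147467) (nat_lit 9) .nil)))))))) (.g (nat_lit 6) .nil .nil)))) (.nd (nat_lit 5) 
(.lf (nat_lit 6428) (.g (nat_lit 5335) (.e (nat_lit 297) (nat_lit 22) (.e (nat_lit 344132) (nat_lit 26) (.e (nat_lit 557105) (nat_lit 14) (.e (nat_lit 180252) (nat_lit 10) (.e (nat_lit 573474) (nat_lit 12) (.e (nat_lit 57354) (nat_lit 0) (.e (nat_lit 5195) (nat_lit 294) (.e (nat_lit 57372) (nat_lit 2) (.e (nat_lit 90128) (nat_lit 9) .nil))))))))) (.g (nat_lit 7) .nil .nil))) 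
(.lf (nat_lit 6460) (.g (nat_lit 2351) (.e (nat_lit 297) (nat_lit 22) (.e (nat_lit 344133) (nat_lit 26) (.e (nat_lit 557098) (nat_lit 13) (.e (nat_lit 172065) (nat_lit 3) (.e (nat_lit 204824) (nat_lit 17) (.e (nat_lit 1014) (nat_lit 81) (.e (nat_lit 7261) (nat_lit 384) (.e (nat_lit 57371) (nat_lit 2) (.e (nat_lit 90128) (nat_lit 9) .nil))))))))) (.g (nat_lit 4) .nil .nil))))))) 
(.nd (nat_lit 2) (.nd (nat_lit 3) (.nd (nat_lit 4) (.nd (nat_lit 5) 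
(.lf (nat_lit 6402) (.g (nat_lit 3623) (.e (nat_lit 297) (nat_lit 22) (.e (nat_lit 344132) (nat_lit 26) (.e (nat_lit 557101) (nat_lit 13) (.e (nat_lit 172051) (nat_lit 0) (.e (nat_lit 3437) (nat_lit 214) (.e (nat_lit 671762) (nat_lit 4) (.e (nat_lit 65580) (nat_lit 6) (.e (nat_lit 147467) (nat_lit 9) .nil)))))))) (.g (nat_lit 8) .nil .nil))) 
(.lf (nat_lit 6434) (.g (nat_lit 2331) (.e (nat_lit 297) (nat_lit 22) (.e (nat_lit 344132) (nat_lit 26) (.e (nat_lit 557105) (nat_lit 14) (.e (nat_lit 180265) (nat_lit 21) (.e (nat_lit 663555) (nat_lit 0) (.e (nat_lit 1512) (nat_lit 108) (.e (nat_lit 336051) (nat_lit 6) (.e (nat_lit 147466) (nat_lit 9) .nil)))))))) (.g (nat_lit 4) .nil .nil)))) (.nd (nat_lit 5) 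
(.lf (nat_lit 6418) (.g (nat_lit 3089) (.e (nat_lit 297) (nat_lit 22) (.e (nat_lit 344132) (nat_lit 26) (.e (nat_lit 557105) (nat_lit 14) (.e (nat_lit 180252) (nat_lit 10) (.e (nat_lit 573451) (nat_lit 9) (.e (nat_lit 1177) (nat_lit 87) (.e (nat_lit 57848) (nat_lit 252) (.e (nat_lit 57372) (nat_lit 2) (.e (nat_lit 90128) (nat_lit 9) .nil))))))))) (.g (nat_lit 5) .nil .nil))) 
(.lf (nat_lit 6450) (.g (nat_lit 3267) (.e (nat_lit 297) (nat_lit 22) (.e (nat_lit 344133) (nat_lit 26) (.e (nat_lit 557098) (nat_lit 13) (.e (nat_lit 172045) (nat_lit 0) (.e (nat_lit 3434) (nat_lit 214) (.e (nat_lit 671762) (nat_lit 4) (.e (nat_lit 65580) (nat_lit 6) (.e (nat_lit 147467) (nat_lit 9) .nil)))))))) (.g (nat_lit 6) .nil .nil))))) (.nd (nat_lit 4) (.nd (nat_lit 5) 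
(.lf (nat_lit 6410) (.g (nat_lit 2083) (.e (nat_lit 297) (nat_lit 22) (.e (nat_lit 344132) (nat_lit 26) (.e (nat_lit 557103) (nat_lit 14) (.e (nat_lit 180250) (nat_lit 10) (.e (nat_lit 573473) (nat_lit 12) (.e (nat_lit 57354) (nat_lit 0) (.e (nat_lit 5194) (nat_lit 294) (.e (nat_lit 57372) (nat_lit 2) (.e (nat_lit 90128) (nat_lit 9) .nil))))))))) (.g (nat_lit 4) .nil .nil))) 
(.lf (nat_lit 6442) (.g (nat_lit 2718) (.e (nat_lit 297) (nat_lit 22) (.e (nat_lit 344133) (nat_lit 26) (.e (nat_lit 557096) (nat_lit 13) (.e (nat_lit 172067) (nat_lit 3) (.e (nat_lit 204809) (nat_lit 9) (.e (nat_lit 426123) (nat_lit 2) (.e (nat_lit 204544) (nat_lit 0) .nil))))))) (.g (nat_lit 4) .nil .nil)))) (.nd (nat_lit 5) 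
(.lf (nat_lit 6426) (.g (nat_lit 1994) (.e (nat_lit 297) (nat_lit 22) (.e (nat_lit 344132) (nat_lit 26) (.e (nat_lit 557105) (nat_lit 14) (.e (nat_lit 180252) (nat_lit 10) (.e (nat_lit 573473) (nat_lit 12) (.e (nat_lit 57508) (nat_lit 39) (.e (nat_lit 647200) (nat_lit 12) (.e (nat_lit 57477) (nat_lit 28) (.e (nat_lit 557066) (nat_lit 9) .nil))))))))) (.g (nat_lit 4) .nil .nil))) 
(.lf (nat_lit 6458) (.g (nat_lit 2892) (.e (nat_lit 297) (nat_lit 22) (.e (nat_lit 344133) (nat_lit 26) (.e (nat_lit 557098) (nat_lit 13) (.e (nat_lit 172065) (nat_lit 3) (.e (nat_lit 204809) (nat_lit 9) (.e (nat_lit 426123) (nat_lit 2) (.e (nat_lit 204544) (nat_lit 0) .nil))))))) (.g (nat_lit 4) .nil .nil)))))) (.nd (nat_lit 3) (.nd (nat_lit 4) (.nd (nat_lit 5) 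
(.lf (nat_lit 6406) (.g (nat_lit 3062) (.e (nat_lit 297) (nat_lit 22) (.e (nat_lit 344132) (nat_lit 26) (.e (nat_lit 557101) (nat_lit 13) (.e (nat_lit 172067) (nat_lit 3) (.e (nat_lit 204809) (nat_lit 9) (.e (nat_lit 426123) (nat_lit 2) (.e (nat_lit 204544) (nat_lit 0) .nil))))))) (.g (nat_lit 5) .nil .nil))) 
(.lf (nat_lit 6438) (.g (nat_lit 3904) (.e (nat_lit 297) (nat_lit 22) (.e (nat_lit 344132) (nat_lit 26) (.e (nat_lit 557105) (nat_lit 14) (.e (nat_lit 180266) (nat_lit 22) (.e (nat_lit 671762) (nat_lit 4) (.e (nat_lit 65580) (nat_lit 6) (.e (nat_lit 147467) (nat_lit 9) .nil))))))) (.g (nat_lit 0) .nil .nil)))) (.nd (nat_lit 5) 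
(.lf (nat_lit 6422) (.g (nat_lit 3703) (.e (nat_lit 297) (nat_lit 22) (.e (nat_lit 344132) (nat_lit 26) (.e (nat_lit 557105) (nat_lit 14) (.e (nat_lit 180252) (nat_lit 10) (.e (nat_lit 573453) (nat_lit 9) (.e (nat_lit 1183) (nat_lit 87) (.e (nat_lit 57849) (nat_lit 252) (.e (nat_lit 57372) (nat_lit 2) (.e (nat_lit 90128) (nat_lit 9) .nil))))))))) (.g (nat_lit 5) .nil .nil))) 
(.lf (nat_lit 6454) (.g (nat_lit 2399) (.e (nat_lit 297) (nat_lit 22) (.e (nat_lit 344133) (nat_lit 26) (.e (nat_lit 557098) (nat_lit 13) (.e (nat_lit 172062) (nat_lit 2) (.e (nat_lit 196661) (nat_lit 12) (.e (nat_lit 57351) (nat_lit 0) (.e (nat_lit 7261) (nat_lit 384) (.e (nat_lit 57371) (nat_lit 2) (.e (nat_lit 90128) (nat_lit 9) .nil))))))))) (.g (nat_lit 4) .nil .nil))))) 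
(.nd (nat_lit 4) (.nd (nat_lit 5) 
(.lf (nat_lit 6414) (.g (nat_lit 2070) (.e (nat_lit 297) (nat_lit 22) (.e (nat_lit 344132) (nat_lit 26) (.e (nat_lit 557105) (nat_lit 14) (.e (nat_lit 180233) (nat_lit 0) (.e (nat_lit 5817) (nat_lit 320) (.e (nat_lit 1201) (nat_lit 88) (.e (nat_lit 65578) (nat_lit 6) (.e (nat_lit 147467) (nat_lit 9) .nil)))))))) (.g (nat_lit 4) .nil .nil))) 
(.lf (nat_lit 6446) (.g (nat_lit 2908) (.e (nat_lit 297) (nat_lit 22) (.e (nat_lit 344133) (nat_lit 26) (.e (nat_lit 557098) (nat_lit 13) (.e (nat_lit 172040) (nat_lit 0) (.e (nat_lit 3434) (nat_lit 214) (.e (nat_lit 671762) (nat_lit 4) (.e (nat_lit 65580) (nat_lit 6) (.e (nat_lit 147467) (nat_lit 9) .nil)))))))) (.g (nat_lit 5) .nil .nil)))) (.nd (nat_lit 5) 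
(.lf (nat_lit 6430) (.g (nat_lit 2827) (.e (nat_lit 297) (nat_lit 22) (.e (nat_lit 344132) (nat_lit 26) (.e (nat_lit 557105) (nat_lit 14) (.e (nat_lit 180252) (nat_lit 10) (.e (nat_lit 573475) (nat_lit 12) (.e (nat_lit 57356) (nat_lit 0) (.e (nat_lit 5194) (nat_lit 294) (.e (nat_lit 57372) (nat_lit 2) (.e (nat_lit 90128) (nat_lit 9) .nil))))))))) (.g (nat_lit 5) .nil .nil))) 
(.lf (nat_lit 6462) (.g (nat_lit 3162) (.e (nat_lit 297) (nat_lit 22) (.e (nat_lit 344133) (nat_lit 26) (.e (nat_lit 557098) (nat_lit 13) (.e (nat_lit 172066) (nat_lit 3) (.e (nat_lit 204822) (nat_lit 17) (.e (nat_lit 1015) (nat_lit 81) (.e (nat_lit 7261) (nat_lit 384) (.e (nat_lit 57371) (nat_lit 2) (.e (nat_lit 90128) (nat_lit 9) .nil))))))))) (.g (nat_lit 5) .nil .nil)))))))) 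
(.nd (nat_lit 1) (.nd (nat_lit 2) (.nd (nat_lit 3) (.nd (nat_lit 4) (.nd (nat_lit 5) 
(.lf (nat_lit 6401) (.g (nat_lit 1946) (.e (nat_lit 297) (nat_lit 22) (.e (nat_lit 344132) (nat_lit 26) (.e (nat_lit 557101) (nat_lit 13) (.e (nat_lit 172041) (nat_lit 0) (.e (nat_lit 3434) (nat_lit 214) (.e (nat_lit 671762) (nat_lit 4) (.e (nat_lit 65580) (nat_lit 6) (.e (nat_lit 147467) (nat_lit 9) .nil)))))))) (.g (nat_lit 4) .nil .nil))) 
(.lf (nat_lit 6433) (.g (nat_lit 1984) (.e (nat_lit 297) (nat_lit 22) (.e (nat_lit 344132) (nat_lit 26) (.e (nat_lit 557105) (nat_lit 14) (.e (nat_lit 180265) (nat_lit 21) (.e (nat_lit 663555) (nat_lit 0) .nil))))) .nil))) (.nd (nat_lit 5) 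
(.lf (nat_lit 6417) (.g (nat_lit 3609) (.e (nat_lit 297) (nat_lit 22) (.e (nat_lit 344132) (nat_lit 26) (.e (nat_lit 557105) (nat_lit 14) (.e (nat_lit 180252) (nat_lit 10) (.e (nat_lit 573451) (nat_lit 9) (.e (nat_lit 1169) (nat_lit 87) (.e (nat_lit 57849) (nat_lit 252) (.e (nat_lit 57375) (nat_lit 2) (.e (nat_lit 90128) (nat_lit 9) .nil))))))))) (.g (nat_lit 5) .nil .nil))) 
(.lf (nat_lit 6449) (.g (nat_lit 2186) (.e (nat_lit 297) (nat_lit 22) (.e (nat_lit 344133) (nat_lit 26) (.e (nat_lit 557098) (nat_lit 13) (.e (nat_lit 172045) (nat_lit 0) (.e (nat_lit 3427) (nat_lit 213) (.e (nat_lit 663568) (nat_lit 5) (.e (nat_lit 73776) (nat_lit 26) (.e (nat_lit 778362) (nat_lit 9) .nil)))))))) (.g (nat_lit 4) .nil .nil))))) (.nd (nat_lit 4) (.nd (nat_lit 5) 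
(.lf (nat_lit 6409) (.g (nat_lit 2448) (.e (nat_lit 297) (nat_lit 22) (.e (nat_lit 344132) (nat_lit 26) (.e (nat_lit 557103) (nat_lit 14) (.e (nat_lit 180244) (nat_lit 5) (.e (nat_lit 532579) (nat_lit 26) (.e (nat_lit 426123) (nat_lit 2) (.e (nat_lit 204544) (nat_lit 0) .nil))))))) (.g (nat_lit 4) .nil .nil))) 
(.lf (nat_lit 6441) (.g (nat_lit 2938) (.e (nat_lit 297) (nat_lit 22) (.e (nat_lit 344133) (nat_lit 26) (.e (nat_lit 557096) (nat_lit 13) (.e (nat_lit 172064) (nat_lit 2) (.e (nat_lit 196661) (nat_lit 12) (.e (nat_lit 57352) (nat_lit 0) (.e (nat_lit 7261) (nat_lit 384) (.e (nat_lit 57371) (nat_lit 2) (.e (nat_lit 90128) (nat_lit 9) .nil))))))))) (.g (nat_lit 5) .nil .nil)))) (.nd (nat_lit 5) 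
(.lf (nat_lit 6425) (.g (nat_lit 4317) (.e (nat_lit 297) (nat_lit 22) (.e (nat_lit 344132) (nat_lit 26) (.e (nat_lit 557105) (nat_lit 14) (.e (nat_lit 180252) (nat_lit 10) (.e (nat_lit 573473) (nat_lit 12) (.e (nat_lit 57354) (nat_lit 0) (.e (nat_lit 5195) (nat_lit 294) (.e (nat_lit 57375) (nat_lit 2) (.e (nat_lit 90128) (nat_lit 9) .nil))))))))) (.g (nat_lit 7) .nil .nil))) 
(.lf (nat_lit 6457) (.g (nat_lit 2869) (.e (nat_lit 297) (nat_lit 22) (.e (nat_lit 344133) (nat_lit 26) (.e (nat_lit 557098) (nat_lit 13) (.e (nat_lit 172064) (nat_lit 2) (.e (nat_lit 196661) (nat_lit 12) (.e (nat_lit 57351) (nat_lit 0) (.e (nat_lit 7265) (nat_lit 384) (.e (nat_lit 57371) (nat_lit 2) (.e (nat_lit 90128) (nat_lit 9) .nil))))))))) (.g (nat_lit 4) .nil .nil)))))) 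
(.nd (nat_lit 3) (.nd (nat_lit 4) (.nd (nat_lit 5) 
(.lf (nat_lit 6405) (.g (nat_lit 2064) (.e (nat_lit 297) (nat_lit 22) (.e (nat_lit 344132) (nat_lit 26) (.e (nat_lit 557101) (nat_lit 13) (.e (nat_lit 172066) (nat_lit 3) (.e (nat_lit 204809) (nat_lit 9) (.e (nat_lit 426123) (nat_lit 2) (.e (nat_lit 204544) (nat_lit 0) .nil))))))) (.g (nat_lit 4) .nil .nil))) 
(.lf (nat_lit 6437) (.g (nat_lit 2870) (.e (nat_lit 297) (nat_lit 22) (.e (nat_lit 344132) (nat_lit 26) (.e (nat_lit 557105) (nat_lit 14) (.e (nat_lit 180266) (nat_lit 22) (.e (nat_lit 671762) (nat_lit 4) (.e (nat_lit 65578) (nat_lit 6) (.e (nat_lit 147467) (nat_lit 9) .nil))))))) (.g (nat_lit 6) .nil .nil)))) (.nd (nat_lit 5) 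
(.lf (nat_lit 6421) (.g (nat_lit 3082) (.e (nat_lit 297) (nat_lit 22) (.e (nat_lit 344132) (nat_lit 26) (.e (nat_lit 557105) (nat_lit 14) (.e (nat_lit 180252) (nat_lit 10) (.e (nat_lit 573453) (nat_lit 9) .nil))))) .nil)) 
(.lf (nat_lit 6453) (.g (nat_lit 2556) (.e (nat_lit 297) (nat_lit 22) (.e (nat_lit 344133) (nat_lit 26) (.e (nat_lit 557098) (nat_lit 13) (.e (nat_lit 172048) (nat_lit 0) (.e (nat_lit 3437) (nat_lit 214) (.e (nat_lit 671762) (nat_lit 4) (.e (nat_lit 65580) (nat_lit 6) (.e (nat_lit 147467) (nat_lit 9) .nil)))))))) (.g (nat_lit 4) .nil .nil))))) (.nd (nat_lit 4) (.nd (nat_lit 5) 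
(.lf (nat_lit 6413) (.g (nat_lit 1952) (.e (nat_lit 297) (nat_lit 22) (.e (nat_lit 344132) (nat_lit 26) (.e (nat_lit 557105) (nat_lit 14) (.e (nat_lit 180227) (nat_lit 0) (.e (nat_lit 5945) (nat_lit 322) .nil))))) .nil)) 
(.lf (nat_lit 6445) (.g (nat_lit 2218) (.e (nat_lit 297) (nat_lit 22) (.e (nat_lit 344133) (nat_lit 26) (.e (nat_lit 557098) (nat_lit 13) (.e (nat_lit 172032) (nat_lit 0) (.e (nat_lit 3439) (nat_lit 214) (.e (nat_lit 671762) (nat_lit 4) (.e (nat_lit 65580) (nat_lit 6) (.e (nat_lit 147467) (nat_lit 9) .nil)))))))) (.g (nat_lit 4) .nil .nil)))) (.nd (nat_lit 5) 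
(.lf (nat_lit 6429) (.g (nat_lit 4632) (.e (nat_lit 297) (nat_lit 22) (.e (nat_lit 344132) (nat_lit 26) (.e (nat_lit 557105) (nat_lit 14) (.e (nat_lit 180252) (nat_lit 10) (.e (nat_lit 573475) (nat_lit 12) (.e (nat_lit 57354) (nat_lit 0) (.e (nat_lit 5195) (nat_lit 294) (.e (nat_lit 57375) (nat_lit 2) (.e (nat_lit 90128) (nat_lit 9) .nil))))))))) (.g (nat_lit 7) .nil .nil))) 
(.lf (nat_lit 6461) (.g (nat_lit 2582) (.e (nat_lit 297) (nat_lit 22) (.e (nat_lit 344133) (nat_lit 26) (.e (nat_lit 557098) (nat_lit 13) (.e (nat_lit 172066) (nat_lit 3) (.e (nat_lit 204809) (nat_lit 9) (.e (nat_lit 426123) (nat_lit 2) (.e (nat_lit 204544) (nat_lit 0) .nil))))))) (.g (nat_lit 4) .nil .nil))))))) (.nd (nat_lit 2) (.nd (nat_lit 3) (.nd (nat_lit 4) (.nd (nat_lit 5) 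
(.lf (nat_lit 6403) (.g (nat_lit 1953) (.e (nat_lit 297) (nat_lit 22) (.e (nat_lit 344132) (nat_lit 26) (.e (nat_lit 557101) (nat_lit 13) (.e (nat_lit 172062) (nat_lit 2) (.e (nat_lit 196661) (nat_lit 12) (.e (nat_lit 57352) (nat_lit 0) (.e (nat_lit 7261) (nat_lit 384) (.e (nat_lit 57371) (nat_lit 2) (.e (nat_lit 90128) (nat_lit 9) .nil))))))))) (.g (nat_lit 4) .nil .nil))) 
(.lf (nat_lit 6435) (.g (nat_lit 2161) (.e (nat_lit 297) (nat_lit 22) (.e (nat_lit 344132) (nat_lit 26) (.e (nat_lit 557105) (nat_lit 14) (.e (nat_lit 180265) (nat_lit 21) (.e (nat_lit 663561) (nat_lit 0) (.e (nat_lit 1512) (nat_lit 108) (.e (nat_lit 336051) (nat_lit 6) (.e (nat_lit 147467) (nat_lit 9) .nil)))))))) (.g (nat_lit 4) .nil .nil)))) (.nd (nat_lit 5) 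
(.lf (nat_lit 6419) (.g (nat_lit 3641) (.e (nat_lit 297) (nat_lit 22) (.e (nat_lit 344132) (nat_lit 26) (.e (nat_lit 557105) (nat_lit 14) (.e (nat_lit 180252) (nat_lit 10) (.e (nat_lit 573451) (nat_lit 9) (.e (nat_lit 1177) (nat_lit 87) (.e (nat_lit 57851) (nat_lit 252) (.e (nat_lit 57371) (nat_lit 2) (.e (nat_lit 90128) (nat_lit 9) .nil))))))))) (.g (nat_lit 6) .nil .nil))) 
(.lf (nat_lit 6451) (.g (nat_lit 3192) (.e (nat_lit 297) (nat_lit 22) (.e (nat_lit 344133) (nat_lit 26) (.e (nat_lit 557098) (nat_lit 13) (.e (nat_lit 172045) (nat_lit 0) (.e (nat_lit 3437) (nat_lit 214) (.e (nat_lit 671762) (nat_lit 4) (.e (nat_lit 65580) (nat_lit 6) (.e (nat_lit 147467) (nat_lit 9) .nil)))))))) (.g (nat_lit 6) .nil .nil))))) (.nd (nat_lit 4) (.nd (nat_lit 5) 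
(.lf (nat_lit 6411) (.g (nat_lit 2037) (.e (nat_lit 297) (nat_lit 22) (.e (nat_lit 344132) (nat_lit 26) (.e (nat_lit 557103) (nat_lit 14) (.e (nat_lit 180266) (nat_lit 22) (.e (nat_lit 671762) (nat_lit 4) (.e (nat_lit 65580) (nat_lit 6) (.e (nat_lit 147467) (nat_lit 9) .nil))))))) (.g (nat_lit 4) .nil .nil))) 
(.lf (nat_lit 6443) (.g (nat_lit 2368) (.e (nat_lit 297) (nat_lit 22) (.e (nat_lit 344133) (nat_lit 26) (.e (nat_lit 557096) (nat_lit 13) (.e (nat_lit 172067) (nat_lit 3) (.e (nat_lit 204815) (nat_lit 17) .nil))))) .nil))) (.nd (nat_lit 5) 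
(.lf (nat_lit 6427) (.g (nat_lit 6805) (.e (nat_lit 297) (nat_lit 22) (.e (nat_lit 344132) (nat_lit 26) (.e (nat_lit 557105) (nat_lit 14) (.e (nat_lit 180252) (nat_lit 10) (.e (nat_lit 573474) (nat_lit 12) (.e (nat_lit 57354) (nat_lit 0) (.e (nat_lit 5194) (nat_lit 294) (.e (nat_lit 57372) (nat_lit 2) (.e (nat_lit 90128) (nat_lit 9) .nil))))))))) (.g (nat_lit 0) .nil .nil))) 
(.lf (nat_lit 6459) (.g (nat_lit 2425) (.e (nat_lit 297) (nat_lit 22) (.e (nat_lit 344133) (nat_lit 26) (.e (nat_lit 557098) (nat_lit 13) (.e (nat_lit 172065) (nat_lit 3) (.e (nat_lit 204821) (nat_lit 17) (.e (nat_lit 1008) (nat_lit 81) (.e (nat_lit 7261) (nat_lit 384) (.e (nat_lit 57371) (nat_lit 2) (.e (nat_lit 90128) (nat_lit 9) .nil))))))))) (.g (nat_lit 4) .nil .nil)))))) 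
(.nd (nat_lit 3) (.nd (nat_lit 4) (.nd (nat_lit 5) 
(.lf (nat_lit 6407) (.g (nat_lit 2433) (.e (nat_lit 297) (nat_lit 22) (.e (nat_lit 344132) (nat_lit 26) (.e (nat_lit 557101) (nat_lit 13) (.e (nat_lit 172067) (nat_lit 3) (.e (nat_lit 204815) (nat_lit 17) .nil))))) .nil)) 
(.lf (nat_lit 6439) (.g (nat_lit 2000) (.e (nat_lit 297) (nat_lit 22) (.e (nat_lit 344133) (nat_lit 26) (.e (nat_lit 557096) (nat_lit 13) (.e (nat_lit 172062) (nat_lit 2) (.e (nat_lit 196661) (nat_lit 12) (.e (nat_lit 57353) (nat_lit 0) (.e (nat_lit 7261) (nat_lit 384) (.e (nat_lit 57371) (nat_lit 2) (.e (nat_lit 90128) (nat_lit 9) .nil))))))))) (.g (nat_lit 4) .nil .nil)))) (.nd (nat_lit 5) 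
(.lf (nat_lit 6423) (.g (nat_lit 3031) (.e (nat_lit 297) (nat_lit 22) (.e (nat_lit 344132) (nat_lit 26) (.e (nat_lit 557105) (nat_lit 14) (.e (nat_lit 180252) (nat_lit 10) (.e (nat_lit 573459) (nat_lit 9) .nil))))) .nil)) 
(.lf (nat_lit 6455) (.g (nat_lit 3038) (.e (nat_lit 297) (nat_lit 22) (.e (nat_lit 344133) (nat_lit 26) (.e (nat_lit 557098) (nat_lit 13) (.e (nat_lit 172062) (nat_lit 2) (.e (nat_lit 196661) (nat_lit 12) (.e (nat_lit 57352) (nat_lit 0) (.e (nat_lit 7261) (nat_lit 384) (.e (nat_lit 57371) (nat_lit 2) (.e (nat_lit 90128) (nat_lit 9) .nil))))))))) (.g (nat_lit 5) .nil .nil))))) 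
(.nd (nat_lit 4) (.nd (nat_lit 5) 
(.lf (nat_lit 6415) (.g (nat_lit 1822) (.e (nat_lit 297) (nat_lit 22) (.e (nat_lit 344132) (nat_lit 26) (.e (nat_lit 557105) (nat_lit 14) (.e (nat_lit 180251) (nat_lit 10) (.e (nat_lit 573478) (nat_lit 12) (.e (nat_lit 57356) (nat_lit 0) (.e (nat_lit 5195) (nat_lit 294) (.e (nat_lit 57375) (nat_lit 2) (.e (nat_lit 90128) (nat_lit 9) .nil))))))))) (.g (nat_lit 4) .nil .nil))) 
(.lf (nat_lit 6447) (.g (nat_lit 2255) (.e (nat_lit 297) (nat_lit 22) (.e (nat_lit 344133) (nat_lit 26) (.e (nat_lit 557098) (nat_lit 13) (.e (nat_lit 172041) (nat_lit 0) (.e (nat_lit 3434) (nat_lit 214) .nil))))) .nil))) (.nd (nat_lit 5) 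
(.lf (nat_lit 6431) (.g (nat_lit 2573) (.e (nat_lit 297) (nat_lit 22) (.e (nat_lit 344132) (nat_lit 26) (.e (nat_lit 557105) (nat_lit 14) (.e (nat_lit 180252) (nat_lit 10) (.e (nat_lit 573475) (nat_lit 12) (.e (nat_lit 57356) (nat_lit 0) (.e (nat_lit 5194) (nat_lit 294) (.e (nat_lit 57375) (nat_lit 2) (.e (nat_lit 90128) (nat_lit 9) .nil))))))))) (.g (nat_lit 5) .nil .nil))) 
(.lf (nat_lit 6463) (.g (nat_lit 3970) (.e (nat_lit 297) (nat_lit 22) (.e (nat_lit 344133) (nat_lit 26) (.e (nat_lit 557098) (nat_lit 13) (.e (nat_lit 172067) (nat_lit 3) (.e (nat_lit 204809) (nat_lit 9) (.e (nat_lit 426123) (nat_lit 2) (.e (nat_lit 204544) (nat_lit 0) .nil))))))) (.g (nat_lit 6) .nil .nil)))))))))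

noncomputable def tv088 : DT := (.nd (nat_lit 0) (.nd (nat_lit 1) (.nd (nat_lit 2) (.nd (nat_lit 3) (.nd (nat_lit 4) (.nd (nat_lit 5) 
(.lf (nat_lit 6464) (.g (nat_lit 3226) (.e (nat_lit 297) (nat_lit 22) (.e (nat_lit 344133) (nat_lit 26) (.e (nat_lit 557098) (nat_lit 13) (.e (nat_lit 172067) (nat_lit 3) (.e (nat_lit 204815) (nat_lit 17) (.e (nat_lit 1016) (nat_lit 81) (.e (nat_lit 7261) (nat_lit 384) (.e (nat_lit 57371) (nat_lit 2) (.e (nat_lit 90128) (nat_lit 9) .nil))))))))) (.g (nat_lit 4) .nil .nil))) 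
(.lf (nat_lit 6496) (.g (nat_lit 1826) (.e (nat_lit 297) (nat_lit 22) (.e (nat_lit 344133) (nat_lit 26) (.e (nat_lit 557105) (nat_lit 14) (.e (nat_lit 180226) (nat_lit 0) .nil)))) .nil))) (.nd (nat_lit 5) 
(.lf (nat_lit 6480) (.g (nat_lit 2373) (.e (nat_lit 297) (nat_lit 22) (.e (nat_lit 344133) (nat_lit 26) (.e (nat_lit 557103) (nat_lit 14) (.e (nat_lit 180244) (nat_lit 5) (.e (nat_lit 532491) (nat_lit 0) .nil))))) .nil)) 
(.lf (nat_lit 6512) (.g (nat_lit 2839) (.e (nat_lit 297) (nat_lit 22) (.e (nat_lit 344133) (nat_lit 26) (.e (nat_lit 557105) (nat_lit 14) (.e (nat_lit 180251) (nat_lit 10) (.e (nat_lit 573475) (nat_lit 12) (.e (nat_lit 57354) (nat_lit 0) (.e (nat_lit 5195) (nat_lit 294) (.e (nat_lit 57372) (nat_lit 2) (.e (nat_lit 90128) (nat_lit 9) .nil))))))))) (.g (nat_lit 4) .nil .nil))))) 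
(.nd (nat_lit 4) (.nd (nat_lit 5) 
(.lf (nat_lit 6472) (.g (nat_lit 1639) (.e (nat_lit 297) (nat_lit 22) (.e (nat_lit 344133) (nat_lit 26) (.e (nat_lit 557098) (nat_lit 13) (.e (nat_lit 172139) (nat_lit 21) .nil)))) .nil)) 
(.lf (nat_lit 6504) (.g (nat_lit 2629) (.e (nat_lit 297) (nat_lit 22) (.e (nat_lit 344133) (nat_lit 26) (.e (nat_lit 557105) (nat_lit 14) (.e (nat_lit 180227) (nat_lit 0) (.e (nat_lit 5945) (nat_lit 322) (.e (nat_lit 57412) (nat_lit 12) (.e (nat_lit 336046) (nat_lit 6) (.e (nat_lit 147467) (nat_lit 9) .nil)))))))) (.g (nat_lit 4) .nil .nil)))) (.nd (nat_lit 5) 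
(.lf (nat_lit 6488) (.g (nat_lit 5358) (.e (nat_lit 297) (nat_lit 22) (.e (nat_lit 344133) (nat_lit 26) (.e (nat_lit 557103) (nat_lit 14) (.e (nat_lit 180250) (nat_lit 10) (.e (nat_lit 573474) (nat_lit 12) (.e (nat_lit 57354) (nat_lit 0) (.e (nat_lit 5195) (nat_lit 294) (.e (nat_lit 57375) (nat_lit 2) (.e (nat_lit 90128) (nat_lit 9) .nil))))))))) (.g (nat_lit 6) .nil .nil))) 
(.lf (nat_lit 6520) (.g (nat_lit 4805) (.e (nat_lit 297) (nat_lit 22) (.e (nat_lit 344133) (nat_lit 26) (.e (nat_lit 557105) (nat_lit 14) (.e (nat_lit 180252) (nat_lit 10) (.e (nat_lit 573449) (nat_lit 9) (.e (nat_lit 1183) (nat_lit 87) (.e (nat_lit 57849) (nat_lit 252) (.e (nat_lit 57372) (nat_lit 2) (.e (nat_lit 90128) (nat_lit 9) .nil))))))))) (.g (nat_lit 6) .nil .nil)))))) 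
(.nd (nat_lit 3) (.nd (nat_lit 4) (.nd (nat_lit 5) 
(.lf (nat_lit 6468) (.g (nat_lit 2693) (.e (nat_lit 297) (nat_lit 22) (.e (nat_lit 344133) (nat_lit 26) (.e (nat_lit 557098) (nat_lit 13) (.e (nat_lit 172067) (nat_lit 3) (.e (nat_lit 204822) (nat_lit 17) .nil))))) .nil)) 
(.lf (nat_lit 6500) (.g (nat_lit 2814) (.e (nat_lit 297) (nat_lit 22) (.e (nat_lit 344133) (nat_lit 26) (.e (nat_lit 557105) (nat_lit 14) (.e (nat_lit 180227) (nat_lit 0) (.e (nat_lit 5814) (nat_lit 320) (.e (nat_lit 1212) (nat_lit 89) (.e (nat_lit 73775) (nat_lit 26) (.e (nat_lit 778362) (nat_lit 9) .nil)))))))) (.g (nat_lit 4) .nil .nil)))) (.nd (nat_lit 5) 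
(.lf (nat_lit 6484) (.g (nat_lit 3551) (.e (nat_lit 297) (nat_lit 22) (.e (nat_lit 344133) (nat_lit 26) (.e (nat_lit 557103) (nat_lit 14) (.e (nat_lit 180250) (nat_lit 10) (.e (nat_lit 573473) (nat_lit 12) (.e (nat_lit 57354) (nat_lit 0) (.e (nat_lit 5194) (nat_lit 294) (.e (nat_lit 57375) (nat_lit 2) (.e (nat_lit 90128) (nat_lit 9) .nil))))))))) (.g (nat_lit 5) .nil .nil))) 
(.lf (nat_lit 6516) (.g (nat_lit 2910) (.e (nat_lit 297) (nat_lit 22) (.e (nat_lit 344133) (nat_lit 26) (.e (nat_lit 557105) (nat_lit 14) (.e (nat_lit 180252) (nat_lit 10) (.e (nat_lit 573449) (nat_lit 9) .nil))))) .nil)))) (.nd (nat_lit 4) (.nd (nat_lit 5) 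
(.lf (nat_lit 6476) (.g (nat_lit 2400) (.e (nat_lit 297) (nat_lit 22) (.e (nat_lit 344133) (nat_lit 26) (.e (nat_lit 557103) (nat_lit 14) (.e (nat_lit 180228) (nat_lit 0) (.e (nat_lit 5815) (nat_lit 320) (.e (nat_lit 1212) (nat_lit 89) (.e (nat_lit 73776) (nat_lit 26) (.e (nat_lit 778362) (nat_lit 9) .nil)))))))) (.g (nat_lit 4) .nil .nil))) 
(.lf (nat_lit 6508) (.g (nat_lit 1814) (.e (nat_lit 297) (nat_lit 22) (.e (nat_lit 344133) (nat_lit 26) (.e (nat_lit 557105) (nat_lit 14) (.e (nat_lit 180234) (nat_lit 1) .nil)))) .nil))) (.nd (nat_lit 5) 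
(.lf (nat_lit 6492) (.g (nat_lit 4401) (.e (nat_lit 297) (nat_lit 22) (.e (nat_lit 344133) (nat_lit 26) (.e (nat_lit 557103) (nat_lit 14) (.e (nat_lit 180250) (nat_lit 10) (.e (nat_lit 573475) (nat_lit 12) (.e (nat_lit 57354) (nat_lit 0) (.e (nat_lit 5195) (nat_lit 294) (.e (nat_lit 57375) (nat_lit 2) (.e (nat_lit 90128) (nat_lit 9) .nil))))))))) (.g (nat_lit 6) .nil .nil))) 
(.lf (nat_lit 6524) (.g (nat_lit 3347) (.e (nat_lit 297) (nat_lit 22) (.e (nat_lit 344133) (nat_lit 26) (.e (nat_lit 557105) (nat_lit 14) (.e (nat_lit 180252) (nat_lit 10) (.e (nat_lit 573450) (nat_lit 9) .nil))))) .nil)))))) (.nd (nat_lit 2) (.nd (nat_lit 3) (.nd (nat_lit 4) (.nd (nat_lit 5) 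
(.lf (nat_lit 6466) (.g (nat_lit 2835) (.e (nat_lit 297) (nat_lit 22) (.e (nat_lit 344133) (nat_lit 26) (.e (nat_lit 557098) (nat_lit 13) (.e (nat_lit 172067) (nat_lit 3) (.e (nat_lit 204818) (nat_lit 17) (.e (nat_lit 1016) (nat_lit 81) (.e (nat_lit 7261) (nat_lit 384) (.e (nat_lit 57371) (nat_lit 2) (.e (nat_lit 90128) (nat_lit 9) .nil))))))))) (.g (nat_lit 4) .nil .nil))) 
(.lf (nat_lit 6498) (.g (nat_lit 2730) (.e (nat_lit 297) (nat_lit 22) (.e (nat_lit 344133) (nat_lit 26) (.e (nat_lit 557105) (nat_lit 14) (.e (nat_lit 180227) (nat_lit 0) (.e (nat_lit 5796) (nat_lit 320) (.e (nat_lit 1214) (nat_lit 89) (.e (nat_lit 73775) (nat_lit 26) (.e (nat_lit 778362) (nat_lit 9) .nil)))))))) (.g (nat_lit 4) .nil .nil)))) (.nd (nat_lit 5) 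
(.lf (nat_lit 6482) (.g (nat_lit 4175) (.e (nat_lit 297) (nat_lit 22) (.e (nat_lit 344133) (nat_lit 26) (.e (nat_lit 557103) (nat_lit 14) (.e (nat_lit 180244) (nat_lit 5) (.e (nat_lit 532579) (nat_lit 26) (.e (nat_lit 426123) (nat_lit 2) (.e (nat_lit 204544) (nat_lit 0) .nil))))))) (.g (nat_lit 6) .nil .nil))) 
(.lf (nat_lit 6514) (.g (nat_lit 2293) (.e (nat_lit 297) (nat_lit 22) (.e (nat_lit 344133) (nat_lit 26) (.e (nat_lit 557105) (nat_lit 14) (.e (nat_lit 180251) (nat_lit 10) (.e (nat_lit 573478) (nat_lit 12) (.e (nat_lit 57356) (nat_lit 0) (.e (nat_lit 5195) (nat_lit 294) (.e (nat_lit 57372) (nat_lit 2) (.e (nat_lit 90128) (nat_lit 9) .nil))))))))) (.g (nat_lit 4) .nil .nil))))) 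
(.nd (nat_lit 4) (.nd (nat_lit 5) 
(.lf (nat_lit 6474) (.g (nat_lit 2875) (.e (nat_lit 297) (nat_lit 22) (.e (nat_lit 344133) (nat_lit 26) (.e (nat_lit 557103) (nat_lit 14) (.e (nat_lit 180225) (nat_lit 0) (.e (nat_lit 5814) (nat_lit 320) (.e (nat_lit 1212) (nat_lit 89) (.e (nat_lit 73776) (nat_lit 26) (.e (nat_lit 778362) (nat_lit 9) .nil)))))))) (.g (nat_lit 4) .nil .nil))) 
(.lf (nat_lit 6506) (.g (nat_lit 2739) (.e (nat_lit 297) (nat_lit 22) (.e (nat_lit 344133) (nat_lit 26) (.e (nat_lit 557105) (nat_lit 14) (.e (nat_lit 180233) (nat_lit 0) (.e (nat_lit 5815) (nat_lit 320) (.e (nat_lit 1201) (nat_lit 88) (.e (nat_lit 65578) (nat_lit 6) (.e (nat_lit 147467) (nat_lit 9) .nil)))))))) (.g (nat_lit 4) .nil .nil)))) (.nd (nat_lit 5) 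
(.lf (nat_lit 6490) (.g (nat_lit 4459) (.e (nat_lit 297) (nat_lit 22) (.e (nat_lit 344133) (nat_lit 26) (.e (nat_lit 557103) (nat_lit 14) (.e (nat_lit 180250) (nat_lit 10) (.e (nat_lit 573475) (nat_lit 12) (.e (nat_lit 57354) (nat_lit 0) (.e (nat_lit 5194) (nat_lit 294) (.e (nat_lit 57372) (nat_lit 2) (.e (nat_lit 90128) (nat_lit 9) .nil))))))))) (.g (nat_lit 6) .nil .nil))) 
(.lf (nat_lit 6522) (.g (nat_lit 3010) (.e (nat_lit 297) (nat_lit 22) (.e (nat_lit 344133) (nat_lit 26) (.e (nat_lit 557105) (nat_lit 14) (.e (nat_lit 180252) (nat_lit 10) (.e (nat_lit 573449) (nat_lit 9) (.e (nat_lit 1183) (nat_lit 87) (.e (nat_lit 57854) (nat_lit 252) (.e (nat_lit 57373) (nat_lit 2) (.e (nat_lit 90128) (nat_lit 9) .nil))))))))) (.g (nat_lit 4) .nil .nil)))))) 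
(.nd (nat_lit 3) (.nd (nat_lit 4) (.nd (nat_lit 5) 
(.lf (nat_lit 6470) (.g (nat_lit 3492) (.e (nat_lit 297) (nat_lit 22) (.e (nat_lit 344133) (nat_lit 26) (.e (nat_lit 557098) (nat_lit 13) (.e (nat_lit 172067) (nat_lit 3) (.e (nat_lit 204824) (nat_lit 17) (.e (nat_lit 1014) (nat_lit 81) (.e (nat_lit 7261) (nat_lit 384) (.e (nat_lit 57371) (nat_lit 2) (.e (nat_lit 90128) (nat_lit 9) .nil))))))))) (.g (nat_lit 4) .nil .nil))) 
(.lf (nat_lit 6502) (.g (nat_lit 2881) (.e (nat_lit 297) (nat_lit 22) (.e (nat_lit 344133) (nat_lit 26) (.e (nat_lit 557105) (nat_lit 14) (.e (nat_lit 180227) (nat_lit 0) (.e (nat_lit 5849) (nat_lit 320) (.e (nat_lit 1208) (nat_lit 89) (.e (nat_lit 73775) (nat_lit 26) (.e (nat_lit 778362) (nat_lit 9) .nil)))))))) (.g (nat_lit 4) .nil .nil)))) (.nd (nat_lit 5) 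
(.lf (nat_lit 6486) (.g (nat_lit 3447) (.e (nat_lit 297) (nat_lit 22) (.e (nat_lit 344133) (nat_lit 26) (.e (nat_lit 557103) (nat_lit 14) (.e (nat_lit 180250) (nat_lit 10) (.e (nat_lit 573473) (nat_lit 12) (.e (nat_lit 57354) (nat_lit 0) (.e (nat_lit 5195) (nat_lit 294) (.e (nat_lit 57375) (nat_lit 2) (.e (nat_lit 90128) (nat_lit 9) .nil))))))))) (.g (nat_lit 5) .nil .nil))) 
(.lf (nat_lit 6518) (.g (nat_lit 4690) (.e (nat_lit 297) (nat_lit 22) (.e (nat_lit 344133) (nat_lit 26) (.e (nat_lit 557105) (nat_lit 14) (.e (nat_lit 180252) (nat_lit 10) (.e (nat_lit 573449) (nat_lit 9) (.e (nat_lit 1183) (nat_lit 87) (.e (nat_lit 57848) (nat_lit 252) (.e (nat_lit 57372) (nat_lit 2) (.e (nat_lit 90128) (nat_lit 9) .nil))))))))) (.g (nat_lit 6) .nil .nil))))) 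
(.nd (nat_lit 4) (.nd (nat_lit 5) 
(.lf (nat_lit 6478) (.g (nat_lit 3470) (.e (nat_lit 297) (nat_lit 22) (.e (nat_lit 344133) (nat_lit 26) (.e (nat_lit 557103) (nat_lit 14) (.e (nat_lit 180229) (nat_lit 0) (.e (nat_lit 5820) (nat_lit 320) (.e (nat_lit 1201) (nat_lit 88) (.e (nat_lit 65578) (nat_lit 6) (.e (nat_lit 147467) (nat_lit 9) .nil)))))))) (.g (nat_lit 6) .nil .nil))) 
(.lf (nat_lit 6510) (.g (nat_lit 3255) (.e (nat_lit 297) (nat_lit 22) (.e (nat_lit 344133) (nat_lit 26) (.e (nat_lit 557105) (nat_lit 14) (.e (nat_lit 180251) (nat_lit 10) (.e (nat_lit 573475) (nat_lit 12) (.e (nat_lit 57354) (nat_lit 0) (.e (nat_lit 5194) (nat_lit 294) (.e (nat_lit 57372) (nat_lit 2) (.e (nat_lit 90128) (nat_lit 9) .nil))))))))) (.g (nat_lit 4) .nil .nil)))) (.nd (nat_lit 5) 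
(.lf (nat_lit 6494) (.g (nat_lit 3260) (.e (nat_lit 297) (nat_lit 22) (.e (nat_lit 344133) (nat_lit 26) (.e (nat_lit 557103) (nat_lit 14) (.e (nat_lit 180266) (nat_lit 22) (.e (nat_lit 671762) (nat_lit 4) (.e (nat_lit 65578) (nat_lit 6) (.e (nat_lit 147467) (nat_lit 9) .nil))))))) (.g (nat_lit 6) .nil .nil))) 
(.lf (nat_lit 6526) (.g (nat_lit 3008) (.e (nat_lit 297) (nat_lit 22) (.e (nat_lit 344133) (nat_lit 26) (.e (nat_lit 557105) (nat_lit 14) (.e (nat_lit 180252) (nat_lit 10) (.e (nat_lit 573451) (nat_lit 9) (.e (nat_lit 1177) (nat_lit 87) (.e (nat_lit 57848) (nat_lit 252) (.e (nat_lit 57372) (nat_lit 2) (.e (nat_lit 90128) (nat_lit 9) .nil))))))))) (.g (nat_lit 4) .nil .nil)))))))) 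
(.nd (nat_lit 1) (.nd (nat_lit 2) (.nd (nat_lit 3) (.nd (nat_lit 4) (.nd (nat_lit 5) 
(.lf (nat_lit 6465) (.g (nat_lit 2636) (.e (nat_lit 297) (nat_lit 22) (.e (nat_lit 344133) (nat_lit 26) (.e (nat_lit 557098) (nat_lit 13) (.e (nat_lit 172067) (nat_lit 3) (.e (nat_lit 204816) (nat_lit 17) .nil))))) .nil)) 
(.lf (nat_lit 6497) (.g (nat_lit 2739) (.e (nat_lit 297) (nat_lit 22) (.e (nat_lit 344133) (nat_lit 26) (.e (nat_lit 557105) (nat_lit 14) (.e (nat_lit 180227) (nat_lit 0) (.e (nat_lit 5796) (nat_lit 320) (.e (nat_lit 1208) (nat_lit 89) (.e (nat_lit 73775) (nat_lit 26) (.e (nat_lit 778362) (nat_lit 9) .nil)))))))) (.g (nat_lit 4) .nil .nil)))) (.nd (nat_lit 5) 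
(.lf (nat_lit 6481) (.g (nat_lit 2373) (.e (nat_lit 297) (nat_lit 22) (.e (nat_lit 344133) (nat_lit 26) (.e (nat_lit 557103) (nat_lit 14) (.e (nat_lit 180244) (nat_lit 5) (.e (nat_lit 532494) (nat_lit 0) .nil))))) .nil)) 
(.lf (nat_lit 6513) (.g (nat_lit 3197) (.e (nat_lit 297) (nat_lit 22) (.e (nat_lit 344133) (nat_lit 26) (.e (nat_lit 557105) (nat_lit 14) (.e (nat_lit 180251) (nat_lit 10) (.e (nat_lit 573475) (nat_lit 12) (.e (nat_lit 57354) (nat_lit 0) (.e (nat_lit 5195) (nat_lit 294) (.e (nat_lit 57375) (nat_lit 2) (.e (nat_lit 90128) (nat_lit 9) .nil))))))))) (.g (nat_lit 4) .nil .nil))))) 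
(.nd (nat_lit 4) (.nd (nat_lit 5) 
(.lf (nat_lit 6473) (.g (nat_lit 2792) (.e (nat_lit 297) (nat_lit 22) (.e (nat_lit 344133) (nat_lit 26) (.e (nat_lit 557103) (nat_lit 14) (.e (nat_lit 180225) (nat_lit 0) (.e (nat_lit 5814) (nat_lit 320) (.e (nat_lit 1201) (nat_lit 88) (.e (nat_lit 65578) (nat_lit 6) (.e (nat_lit 147467) (nat_lit 9) .nil)))))))) (.g (nat_lit 4) .nil .nil))) 
(.lf (nat_lit 6505) (.g (nat_lit 1737) (.e (nat_lit 297) (nat_lit 22) (.e (nat_lit 344133) (nat_lit 26) (.e (nat_lit 557105) (nat_lit 14) (.e (nat_lit 180233) (nat_lit 0) .nil)))) .nil))) (.nd (nat_lit 5) 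
(.lf (nat_lit 6489) (.g (nat_lit 2262) (.e (nat_lit 297) (nat_lit 22) (.e (nat_lit 344133) (nat_lit 26) (.e (nat_lit 557103) (nat_lit 14) (.e (nat_lit 180250) (nat_lit 10) (.e (nat_lit 573474) (nat_lit 12) (.e (nat_lit 57356) (nat_lit 0) (.e (nat_lit 5195) (nat_lit 294) (.e (nat_lit 57375) (nat_lit 2) (.e (nat_lit 90128) (nat_lit 9) .nil))))))))) (.g (nat_lit 4) .nil .nil))) 
(.lf (nat_lit 6521) (.g (nat_lit 3972) (.e (nat_lit 297) (nat_lit 22) (.e (nat_lit 344133) (nat_lit 26) (.e (nat_lit 557105) (nat_lit 14) (.e (nat_lit 180252) (nat_lit 10) (.e (nat_lit 573449) (nat_lit 9) (.e (nat_lit 1183) (nat_lit 87) (.e (nat_lit 57849) (nat_lit 252) (.e (nat_lit 57375) (nat_lit 2) (.e (nat_lit 90128) (nat_lit 9) .nil))))))))) (.g (nat_lit 5) .nil .nil)))))) 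
(.nd (nat_lit 3) (.nd (nat_lit 4) (.nd (nat_lit 5) 
(.lf (nat_lit 6469) (.g (nat_lit 2693) (.e (nat_lit 297) (nat_lit 22) (.e (nat_lit 344133) (nat_lit 26) (.e (nat_lit 557098) (nat_lit 13) (.e (nat_lit 172067) (nat_lit 3) (.e (nat_lit 204824) (nat_lit 17) .nil))))) .nil)) 
(.lf (nat_lit 6501) (.g (nat_lit 2916) (.e (nat_lit 297) (nat_lit 22) (.e (nat_lit 344133) (nat_lit 26) (.e (nat_lit 557105) (nat_lit 14) (.e (nat_lit 180227) (nat_lit 0) (.e (nat_lit 5839) (nat_lit 320) (.e (nat_lit 1208) (nat_lit 89) (.e (nat_lit 73775) (nat_lit 26) (.e (nat_lit 778362) (nat_lit 9) .nil)))))))) (.g (nat_lit 4) .nil .nil)))) (.nd (nat_lit 5) 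
(.lf (nat_lit 6485) (.g (nat_lit 3089) (.e (nat_lit 297) (nat_lit 22) (.e (nat_lit 344133) (nat_lit 26) (.e (nat_lit 557103) (nat_lit 14) (.e (nat_lit 180250) (nat_lit 10) (.e (nat_lit 573473) (nat_lit 12) (.e (nat_lit 57354) (nat_lit 0) (.e (nat_lit 5195) (nat_lit 294) (.e (nat_lit 57372) (nat_lit 2) (.e (nat_lit 90128) (nat_lit 9) .nil))))))))) (.g (nat_lit 5) .nil .nil))) 
(.lf (nat_lit 6517) (.g (nat_lit 3675) (.e (nat_lit 297) (nat_lit 22) (.e (nat_lit 344133) (nat_lit 26) (.e (nat_lit 557105) (nat_lit 14) (.e (nat_lit 180252) (nat_lit 10) (.e (nat_lit 573449) (nat_lit 9) (.e (nat_lit 1175) (nat_lit 87) (.e (nat_lit 57849) (nat_lit 252) (.e (nat_lit 57372) (nat_lit 2) (.e (nat_lit 90128) (nat_lit 9) .nil))))))))) (.g (nat_lit 5) .nil .nil))))) 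
(.nd (nat_lit 4) (.nd (nat_lit 5) 
(.lf (nat_lit 6477) (.g (nat_lit 2306) (.e (nat_lit 297) (nat_lit 22) (.e (nat_lit 344133) (nat_lit 26) (.e (nat_lit 557103) (nat_lit 14) (.e (nat_lit 180229) (nat_lit 0) (.e (nat_lit 5819) (nat_lit 320) (.e (nat_lit 1212) (nat_lit 89) (.e (nat_lit 73776) (nat_lit 26) (.e (nat_lit 778362) (nat_lit 9) .nil)))))))) (.g (nat_lit 4) .nil .nil))) 
(.lf (nat_lit 6509) (.g (nat_lit 1376) (.e (nat_lit 297) (nat_lit 22) (.e (nat_lit 344133) (nat_lit 26) (.e (nat_lit 557105) (nat_lit 14) (.e (nat_lit 188160) (nat_lit 3) .nil)))) .nil))) (.nd (nat_lit 5) 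
(.lf (nat_lit 6493) (.g (nat_lit 1426) (.e (nat_lit 297) (nat_lit 22) (.e (nat_lit 344133) (nat_lit 26) (.e (nat_lit 557103) (nat_lit 14) (.e (nat_lit 180263) (nat_lit 21) .nil)))) .nil)) 
(.lf (nat_lit 6525) (.g (nat_lit 5251) (.e (nat_lit 297) (nat_lit 22) (.e (nat_lit 344133) (nat_lit 26) (.e (nat_lit 557105) (nat_lit 14) (.e (nat_lit 180252) (nat_lit 10) (.e (nat_lit 573451) (nat_lit 9) (.e (nat_lit 1175) (nat_lit 87) (.e (nat_lit 57849) (nat_lit 252) (.e (nat_lit 57372) (nat_lit 2) (.e (nat_lit 90128) (nat_lit 9) .nil))))))))) (.g (nat_lit 7) .nil .nil))))))) 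
(.nd (nat_lit 2) (.nd (nat_lit 3) (.nd (nat_lit 4) (.nd (nat_lit 5) 
(.lf (nat_lit 6467) (.g (nat_lit 2933) (.e (nat_lit 297) (nat_lit 22) (.e (nat_lit 344133) (nat_lit 26) (.e (nat_lit 557098) (nat_lit 13) (.e (nat_lit 172067) (nat_lit 3) (.e (nat_lit 204821) (nat_lit 17) (.e (nat_lit 1008) (nat_lit 81) (.e (nat_lit 7261) (nat_lit 384) (.e (nat_lit 57371) (nat_lit 2) (.e (nat_lit 90128) (nat_lit 9) .nil))))))))) (.g (nat_lit 4) .nil .nil))) 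
(.lf (nat_lit 6499) (.g (nat_lit 2805) (.e (nat_lit 297) (nat_lit 22) (.e (nat_lit 344133) (nat_lit 26) (.e (nat_lit 557105) (nat_lit 14) (.e (nat_lit 180227) (nat_lit 0) (.e (nat_lit 5814) (nat_lit 320) (.e (nat_lit 1208) (nat_lit 89) (.e (nat_lit 73775) (nat_lit 26) (.e (nat_lit 778362) (nat_lit 9) .nil)))))))) (.g (nat_lit 4) .nil .nil)))) (.nd (nat_lit 5) 
(.lf (nat_lit 6483) (.g (nat_lit 3672) (.e (nat_lit 297) (nat_lit 22) (.e (nat_lit 344133) (nat_lit 26) (.e (nat_lit 557103) (nat_lit 14) (.e (nat_lit 180250) (nat_lit 10) (.e (nat_lit 573473) (nat_lit 12) (.e (nat_lit 57354) (nat_lit 0) (.e (nat_lit 5194) (nat_lit 294) (.e (nat_lit 57372) (nat_lit 2) (.e (nat_lit 90128) (nat_lit 9) .nil))))))))) (.g (nat_lit 5) .nil .nil))) 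
(.lf (nat_lit 6515) (.g (nat_lit 2379) (.e (nat_lit 297) (nat_lit 22) (.e (nat_lit 344133) (nat_lit 26) (.e (nat_lit 557105) (nat_lit 14) (.e (nat_lit 180251) (nat_lit 10) (.e (nat_lit 573478) (nat_lit 12) (.e (nat_lit 57356) (nat_lit 0) (.e (nat_lit 5195) (nat_lit 294) (.e (nat_lit 57375) (nat_lit 2) (.e (nat_lit 90128) (nat_lit 9) .nil))))))))) (.g (nat_lit 4) .nil .nil))))) 
(.nd (nat_lit 4) (.nd (nat_lit 5) 
(.lf (nat_lit 6475) (.g (nat_lit 3192) (.e (nat_lit 297) (nat_lit 22) (.e (nat_lit 344133) (nat_lit 26) (.e (nat_lit 557103) (nat_lit 14) (.e (nat_lit 180225) (nat_lit 0) (.e (nat_lit 5916) (nat_lit 320) (.e (nat_lit 1197) (nat_lit 88) (.e (nat_lit 65580) (nat_lit 6) (.e (nat_lit 147467) (nat_lit 9) .nil)))))))) (.g (nat_lit 5) .nil .nil))) 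
(.lf (nat_lit 6507) (.g (nat_lit 2708) (.e (nat_lit 297) (nat_lit 22) (.e (nat_lit 344133) (nat_lit 26) (.e (nat_lit 557105) (nat_lit 14) (.e (nat_lit 180233) (nat_lit 0) (.e (nat_lit 5815) (nat_lit 320) (.e (nat_lit 1212) (nat_lit 89) (.e (nat_lit 73775) (nat_lit 26) (.e (nat_lit 778362) (nat_lit 9) .nil)))))))) (.g (nat_lit 4) .nil .nil)))) (.nd (nat_lit 5) 
(.lf (nat_lit 6491) (.g (nat_lit 4338) (.e (nat_lit 297) (nat_lit 22) (.e (nat_lit 344133) (nat_lit 26) (.e (nat_lit 557103) (nat_lit 14) (.e (nat_lit 180250) (nat_lit 10) (.e (nat_lit 573475) (nat_lit 12) (.e (nat_lit 57354) (nat_lit 0) (.e (nat_lit 5194) (nat_lit 294) (.e (nat_lit 57375) (nat_lit 2) (.e (nat_lit 90128) (nat_lit 9) .nil))))))))) (.g (nat_lit 6) .nil .nil))) 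
(.lf (nat_lit 6523) (.g (nat_lit 3887) (.e (nat_lit 297) (nat_lit 22) (.e (nat_lit 344133) (nat_lit 26) (.e (nat_lit 557105) (nat_lit 14) (.e (nat_lit 180252) (nat_lit 10) (.e (nat_lit 573449) (nat_lit 9) (.e (nat_lit 1186) (nat_lit 87) (.e (nat_lit 57849) (nat_lit 252) (.e (nat_lit 57372) (nat_lit 2) (.e (nat_lit 90128) (nat_lit 9) .nil))))))))) (.g (nat_lit 5) .nil .nil)))))) 
(.nd (nat_lit 3) (.nd (nat_lit 4) (.nd (nat_lit 5) 
(.lf (nat_lit 6471) (.g (nat_lit 2432) (.e (nat_lit 297) (nat_lit 22) (.e (nat_lit 344133) (nat_lit 26) (.e (nat_lit 557098) (nat_lit 13) (.e (nat_lit 172068) (nat_lit 4) (.e (nat_lit 229699) (nat_lit 254) (.e (nat_lit 1201) (nat_lit 88) (.e (nat_lit 65578) (nat_lit 6) (.e (nat_lit 147467) (nat_lit 9) .nil)))))))) (.g (nat_lit 4) .nil .nil))) 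
(.lf (nat_lit 6503) (.g (nat_lit 2859) (.e (nat_lit 297) (nat_lit 22) (.e (nat_lit 344133) (nat_lit 26) (.e (nat_lit 557105) (nat_lit 14) (.e (nat_lit 180227) (nat_lit 0) (.e (nat_lit 5916) (nat_lit 320) (.e (nat_lit 1197) (nat_lit 88) (.e (nat_lit 65580) (nat_lit 6) (.e (nat_lit 147467) (nat_lit 9) .nil)))))))) (.g (nat_lit 4) .nil .nil)))) (.nd (nat_lit 5) 
(.lf (nat_lit 6487) (.g (nat_lit 5000) (.e (nat_lit 297) (nat_lit 22) (.e (nat_lit 344133) (nat_lit 26) (.e (nat_lit 557103) (nat_lit 14) (.e (nat_lit 180250) (nat_lit 10) (.e (nat_lit 573474) (nat_lit 12) (.e (nat_lit 57354) (nat_lit 0) (.e (nat_lit 5195) (nat_lit 294) (.e (nat_lit 57372) (nat_lit 2) (.e (nat_lit 90128) (nat_lit 9) .nil))))))))) (.g (nat_lit 6) .nil .nil))) 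
(.lf (nat_lit 6519) (.g (nat_lit 4740) (.e (nat_lit 297) (nat_lit 22) (.e (nat_lit 344133) (nat_lit 26) (.e (nat_lit 557105) (nat_lit 14) (.e (nat_lit 180252) (nat_lit 10) (.e (nat_lit 573449) (nat_lit 9) (.e (nat_lit 1183) (nat_lit 87) (.e (nat_lit 57848) (nat_lit 252) (.e (nat_lit 57375) (nat_lit 2) (.e (nat_lit 90128) (nat_lit 9) .nil))))))))) (.g (nat_lit 6) .nil .nil))))) 
(.nd (nat_lit 4) (.nd (nat_lit 5) 
(.lf (nat_lit 6479) (.g (nat_lit 1400) (.e (nat_lit 297) (nat_lit 22) (.e (nat_lit 344133) (nat_lit 26) (.e (nat_lit 557103) (nat_lit 14) (.e (nat_lit 188160) (nat_lit 0) .nil)))) .nil)) 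
(.lf (nat_lit 6511) (.g (nat_lit 3134) (.e (nat_lit 297) (nat_lit 22) (.e (nat_lit 344133) (nat_lit 26) (.e (nat_lit 557105) (nat_lit 14) (.e (nat_lit 180251) (nat_lit 10) (.e (nat_lit 573475) (nat_lit 12) (.e (nat_lit 57354) (nat_lit 0) (.e (nat_lit 5194) (nat_lit 294) (.e (nat_lit 57375) (nat_lit 2) (.e (nat_lit 90128) (nat_lit 9) .nil))))))))) (.g (nat_lit 4) .nil .nil)))) (.nd (nat_lit 5) 
(.lf (nat_lit 6495) (.g (nat_lit 4326) (.e (nat_lit 297) (nat_lit 22) (.e (nat_lit 344133) (nat_lit 26) (.e (nat_lit 557103) (nat_lit 14) (.e (nat_lit 180266) (nat_lit 22) (.e (nat_lit 671762) (nat_lit 4) (.e (nat_lit 65580) (nat_lit 6) (.e (nat_lit 147467) (nat_lit 9) .nil))))))) (.g (nat_lit 0) .nil .nil))) 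
(.lf (nat_lit 6527) (.g (nat_lit 5171) (.e (nat_lit 297) (nat_lit 22) (.e (nat_lit 344133) (nat_lit 26) (.e (nat_lit 557105) (nat_lit 14) (.e (nat_lit 180252) (nat_lit 10) (.e (nat_lit 573451) (nat_lit 9) (.e (nat_lit 1177) (nat_lit 87) (.e (nat_lit 57849) (nat_lit 252) (.e (nat_lit 57372) (nat_lit 2) (.e (nat_lit 90128) (nat_lit 9) .nil))))))))) (.g (nat_lit 7) .nil .nil)))))))))

noncomputable def tv089 : DT := (.nd (nat_lit 0) (.nd (nat_lit 1) (.nd (nat_lit 2) (.nd (nat_lit 3) (.nd (nat_lit 4) (.nd (nat_lit 5) 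
(.lf (nat_lit 6528) (.g (nat_lit 3741) (.e (nat_lit 297) (nat_lit 22) (.e (nat_lit 344133) (nat_lit 26) (.e (nat_lit 557105) (nat_lit 14) (.e (nat_lit 180252) (nat_lit 10) (.e (nat_lit 573451) (nat_lit 9) (.e (nat_lit 1177) (nat_lit 87) (.e (nat_lit 57849) (nat_lit 252) (.e (nat_lit 57375) (nat_lit 2) (.e (nat_lit 90128) (nat_lit 9) .nil))))))))) (.g (nat_lit 5) .nil .nil))) 
(.lf (nat_lit 6560) (.g (nat_lit 1181) (.e (nat_lit 298) (nat_lit 22) (.e (nat_lit 344132) (nat_lit 26) (.e (nat_lit 557101) (nat_lit 13) (.e (nat_lit 172065) (nat_lit 3) .nil)))) .nil))) (.nd (nat_lit 5) 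
(.lf (nat_lit 6544) (.g (nat_lit 5786) (.e (nat_lit 297) (nat_lit 22) (.e (nat_lit 344133) (nat_lit 26) (.e (nat_lit 557105) (nat_lit 14) (.e (nat_lit 180252) (nat_lit 10) (.e (nat_lit 573474) (nat_lit 12) (.e (nat_lit 57354) (nat_lit 0) (.e (nat_lit 5195) (nat_lit 294) (.e (nat_lit 57375) (nat_lit 2) (.e (nat_lit 90128) (nat_lit 9) .nil))))))))) (.g (nat_lit 8) .nil .nil))) 
(.lf (nat_lit 6576) (.g (nat_lit 1992) (.e (nat_lit 299) (nat_lit 22) (.e (nat_lit 344127) (nat_lit 26) (.e (nat_lit 557104) (nat_lit 14) (.e (nat_lit 180244) (nat_lit 5) (.e (nat_lit 532579) (nat_lit 26) .nil))))) .nil)))) (.nd (nat_lit 4) (.nd (nat_lit 5) 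
(.lf (nat_lit 6536) (.g (nat_lit 3824) (.e (nat_lit 297) (nat_lit 22) (.e (nat_lit 344133) (nat_lit 26) (.e (nat_lit 557105) (nat_lit 14) (.e (nat_lit 180252) (nat_lit 10) (.e (nat_lit 573458) (nat_lit 9) (.e (nat_lit 1178) (nat_lit 87) (.e (nat_lit 57849) (nat_lit 252) (.e (nat_lit 57372) (nat_lit 2) (.e (nat_lit 90128) (nat_lit 9) .nil))))))))) (.g (nat_lit 5) .nil .nil))) 
(.lf (nat_lit 6568) (.g (nat_lit 3216) (.e (nat_lit 298) (nat_lit 22) (.e (nat_lit 344133) (nat_lit 26) (.e (nat_lit 557105) (nat_lit 14) (.e (nat_lit 180252) (nat_lit 10) (.e (nat_lit 573451) (nat_lit 9) (.e (nat_lit 1169) (nat_lit 87) (.e (nat_lit 57849) (nat_lit 252) (.e (nat_lit 57372) (nat_lit 2) (.e (nat_lit 90128) (nat_lit 9) .nil))))))))) (.g (nat_lit 4) .nil .nil)))) (.nd (nat_lit 5) 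
(.lf (nat_lit 6552) (.g (nat_lit 3163) (.e (nat_lit 297) (nat_lit 22) (.e (nat_lit 344133) (nat_lit 26) (.e (nat_lit 557105) (nat_lit 14) (.e (nat_lit 180252) (nat_lit 10) (.e (nat_lit 573475) (nat_lit 12) (.e (nat_lit 57356) (nat_lit 0) (.e (nat_lit 5195) (nat_lit 294) (.e (nat_lit 57372) (nat_lit 2) (.e (nat_lit 90128) (nat_lit 9) .nil))))))))) (.g (nat_lit 4) .nil .nil))) 
(.lf (nat_lit 6584) (.g (nat_lit 3314) (.e (nat_lit 299) (nat_lit 22) (.e (nat_lit 344131) (nat_lit 26) (.e (nat_lit 557103) (nat_lit 14) (.e (nat_lit 180244) (nat_lit 5) (.e (nat_lit 532579) (nat_lit 26) (.e (nat_lit 426123) (nat_lit 2) (.e (nat_lit 204544) (nat_lit 0) .nil))))))) (.g (nat_lit 6) .nil .nil)))))) (.nd (nat_lit 3) (.nd (nat_lit 4) (.nd (nat_lit 5) 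
(.lf (nat_lit 6532) (.g (nat_lit 3692) (.e (nat_lit 297) (nat_lit 22) (.e (nat_lit 344133) (nat_lit 26) (.e (nat_lit 557105) (nat_lit 14) (.e (nat_lit 180252) (nat_lit 10) (.e (nat_lit 573453) (nat_lit 9) .nil))))) .nil)) 
(.lf (nat_lit 6564) (.g (nat_lit 785) (.e (nat_lit 298) (nat_lit 22) (.e (nat_lit 344133) (nat_lit 26) (.e (nat_lit 557105) (nat_lit 14) .nil))) .nil))) (.nd (nat_lit 5) 
(.lf (nat_lit 6548) (.g (nat_lit 2706) (.e (nat_lit 297) (nat_lit 22) (.e (nat_lit 344133) (nat_lit 26) (.e (nat_lit 557105) (nat_lit 14) (.e (nat_lit 180252) (nat_lit 10) (.e (nat_lit 573474) (nat_lit 12) (.e (nat_lit 57508) (nat_lit 39) (.e (nat_lit 647200) (nat_lit 12) (.e (nat_lit 57480) (nat_lit 28) (.e (nat_lit 557066) (nat_lit 9) .nil))))))))) (.g (nat_lit 4) .nil .nil))) 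
(.lf (nat_lit 6580) (.g (nat_lit 2531) (.e (nat_lit 299) (nat_lit 22) (.e (nat_lit 344131) (nat_lit 26) (.e (nat_lit 557098) (nat_lit 13) (.e (nat_lit 172067) (nat_lit 3) (.e (nat_lit 204809) (nat_lit 9) (.e (nat_lit 426124) (nat_lit 2) (.e (nat_lit 196610) (nat_lit 0) .nil))))))) (.g (nat_lit 4) .nil .nil))))) (.nd (nat_lit 4) (.nd (nat_lit 5) 
(.lf (nat_lit 6540) (.g (nat_lit 3693) (.e (nat_lit 297) (nat_lit 22) (.e (nat_lit 344133) (nat_lit 26) (.e (nat_lit 557105) (nat_lit 14) (.e (nat_lit 180252) (nat_lit 10) (.e (nat_lit 573463) (nat_lit 9) .nil))))) .nil)) 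
(.lf (nat_lit 6572) (.g (nat_lit 5202) (.e (nat_lit 298) (nat_lit 22) (.e (nat_lit 344133) (nat_lit 26) (.e (nat_lit 557105) (nat_lit 14) (.e (nat_lit 180252) (nat_lit 10) (.e (nat_lit 573474) (nat_lit 12) (.e (nat_lit 57354) (nat_lit 0) (.e (nat_lit 5194) (nat_lit 294) (.e (nat_lit 57372) (nat_lit 2) (.e (nat_lit 90128) (nat_lit 9) .nil))))))))) (.g (nat_lit 6) .nil .nil)))) (.nd (nat_lit 5) 
(.lf (nat_lit 6556) (.g (nat_lit 2400) (.e (nat_lit 297) (nat_lit 22) (.e (nat_lit 344133) (nat_lit 26) (.e (nat_lit 557105) (nat_lit 14) (.e (nat_lit 180265) (nat_lit 21) (.e (nat_lit 663561) (nat_lit 0) .nil))))) .nil)) 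
(.lf (nat_lit 6588) (.g (nat_lit 1542) (.e (nat_lit 299) (nat_lit 22) (.e (nat_lit 344133) (nat_lit 26) (.e (nat_lit 557098) (nat_lit 13) (.e (nat_lit 172032) (nat_lit 0) .nil)))) .nil)))))) (.nd (nat_lit 2) (.nd (nat_lit 3) (.nd (nat_lit 4) (.nd (nat_lit 5) 
(.lf (nat_lit 6530) (.g (nat_lit 3182) (.e (nat_lit 297) (nat_lit 22) (.e (nat_lit 344133) (nat_lit 26) (.e (nat_lit 557105) (nat_lit 14) (.e (nat_lit 180252) (nat_lit 10) (.e (nat_lit 573452) (nat_lit 9) .nil))))) .nil)) 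
(.lf (nat_lit 6562) (.g (nat_lit 1912) (.e (nat_lit 298) (nat_lit 22) (.e (nat_lit 344133) (nat_lit 26) (.e (nat_lit 557098) (nat_lit 13) (.e (nat_lit 172066) (nat_lit 3) .nil)))) .nil))) (.nd (nat_lit 5) 
(.lf (nat_lit 6546) (.g (nat_lit 3030) (.e (nat_lit 297) (nat_lit 22) (.e (nat_lit 344133) (nat_lit 26) (.e (nat_lit 557105) (nat_lit 14) (.e (nat_lit 180252) (nat_lit 10) (.e (nat_lit 573474) (nat_lit 12) (.e (nat_lit 57358) (nat_lit 0) (.e (nat_lit 5195) (nat_lit 294) (.e (nat_lit 57375) (nat_lit 2) (.e (nat_lit 90128) (nat_lit 9) .nil))))))))) (.g (nat_lit 4) .nil .nil))) 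
(.lf (nat_lit 6578) (.g (nat_lit 2451) (.e (nat_lit 299) (nat_lit 22) (.e (nat_lit 344131) (nat_lit 26) (.e (nat_lit 557098) (nat_lit 13) (.e (nat_lit 172067) (nat_lit 3) (.e (nat_lit 204809) (nat_lit 9) .nil))))) .nil)))) (.nd (nat_lit 4) (.nd (nat_lit 5) 
(.lf (nat_lit 6538) (.g (nat_lit 3003) (.e (nat_lit 297) (nat_lit 22) (.e (nat_lit 344133) (nat_lit 26) (.e (nat_lit 557105) (nat_lit 14) (.e (nat_lit 180252) (nat_lit 10) (.e (nat_lit 573458) (nat_lit 9) (.e (nat_lit 1180) (nat_lit 87) (.e (nat_lit 57854) (nat_lit 252) (.e (nat_lit 57373) (nat_lit 2) (.e (nat_lit 90128) (nat_lit 9) .nil))))))))) (.g (nat_lit 4) .nil .nil))) 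
(.lf (nat_lit 6570) (.g (nat_lit 3421) (.e (nat_lit 298) (nat_lit 22) (.e (nat_lit 344133) (nat_lit 26) (.e (nat_lit 557105) (nat_lit 14) (.e (nat_lit 180252) (nat_lit 10) (.e (nat_lit 573458) (nat_lit 9) .nil))))) .nil))) (.nd (nat_lit 5) 
(.lf (nat_lit 6554) (.g (nat_lit 1452) (.e (nat_lit 297) (nat_lit 22) (.e (nat_lit 344133) (nat_lit 26) (.e (nat_lit 557105) (nat_lit 14) (.e (nat_lit 180265) (nat_lit 21) .nil)))) .nil)) 
(.lf (nat_lit 6586) (.g (nat_lit 1802) (.e (nat_lit 299) (nat_lit 22) (.e (nat_lit 344132) (nat_lit 26) (.e (nat_lit 557100) (nat_lit 13) (.e (nat_lit 172065) (nat_lit 3) .nil)))) .nil))))) (.nd (nat_lit 3) (.nd (nat_lit 4) (.nd (nat_lit 5) 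
(.lf (nat_lit 6534) (.g (nat_lit 3821) (.e (nat_lit 297) (nat_lit 22) (.e (nat_lit 344133) (nat_lit 26) (.e (nat_lit 557105) (nat_lit 14) (.e (nat_lit 180252) (nat_lit 10) (.e (nat_lit 573453) (nat_lit 9) (.e (nat_lit 1183) (nat_lit 87) (.e (nat_lit 57848) (nat_lit 252) (.e (nat_lit 57375) (nat_lit 2) (.e (nat_lit 90128) (nat_lit 9) .nil))))))))) (.g (nat_lit 4) .nil .nil))) 
(.lf (nat_lit 6566) (.g (nat_lit 3158) (.e (nat_lit 298) (nat_lit 22) (.e (nat_lit 344133) (nat_lit 26) (.e (nat_lit 557105) (nat_lit 14) (.e (nat_lit 180244) (nat_lit 5) (.e (nat_lit 532579) (nat_lit 26) .nil))))) .nil))) (.nd (nat_lit 5) 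
(.lf (nat_lit 6550) (.g (nat_lit 4156) (.e (nat_lit 297) (nat_lit 22) (.e (nat_lit 344133) (nat_lit 26) (.e (nat_lit 557105) (nat_lit 14) (.e (nat_lit 180252) (nat_lit 10) (.e (nat_lit 573475) (nat_lit 12) (.e (nat_lit 57354) (nat_lit 0) (.e (nat_lit 5195) (nat_lit 294) (.e (nat_lit 57372) (nat_lit 2) (.e (nat_lit 90128) (nat_lit 9) .nil))))))))) (.g (nat_lit 5) .nil .nil))) 
(.lf (nat_lit 6582) (.g (nat_lit 1810) (.e (nat_lit 299) (nat_lit 22) (.e (nat_lit 344131) (nat_lit 26) (.e (nat_lit 557103) (nat_lit 14) (.e (nat_lit 180244) (nat_lit 5) (.e (nat_lit 532579) (nat_lit 26) .nil))))) .nil)))) (.nd (nat_lit 4) (.nd (nat_lit 5) 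
(.lf (nat_lit 6542) (.g (nat_lit 3268) (.e (nat_lit 297) (nat_lit 22) (.e (nat_lit 344133) (nat_lit 26) (.e (nat_lit 557105) (nat_lit 14) (.e (nat_lit 180252) (nat_lit 10) (.e (nat_lit 573473) (nat_lit 12) (.e (nat_lit 57354) (nat_lit 0) (.e (nat_lit 5195) (nat_lit 294) (.e (nat_lit 57372) (nat_lit 2) (.e (nat_lit 90128) (nat_lit 9) .nil))))))))) (.g (nat_lit 4) .nil .nil))) 
(.lf (nat_lit 6574) (.g (nat_lit 4196) (.e (nat_lit 298) (nat_lit 22) (.e (nat_lit 344133) (nat_lit 26) (.e (nat_lit 557105) (nat_lit 14) (.e (nat_lit 180252) (nat_lit 10) (.e (nat_lit 573474) (nat_lit 12) (.e (nat_lit 57354) (nat_lit 0) (.e (nat_lit 5195) (nat_lit 294) (.e (nat_lit 57375) (nat_lit 2) (.e (nat_lit 90128) (nat_lit 9) .nil))))))))) (.g (nat_lit 5) .nil .nil)))) (.nd (nat_lit 5) 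
(.lf (nat_lit 6558) (.g (nat_lit 4474) (.e (nat_lit 297) (nat_lit 22) (.e (nat_lit 344133) (nat_lit 26) (.e (nat_lit 557105) (nat_lit 14) (.e (nat_lit 180266) (nat_lit 22) (.e (nat_lit 671762) (nat_lit 4) (.e (nat_lit 65580) (nat_lit 6) (.e (nat_lit 147467) (nat_lit 9) .nil))))))) (.g (nat_lit 0) .nil .nil))) 
(.lf (nat_lit 6590) (.g (nat_lit 1799) (.e (nat_lit 299) (nat_lit 22) (.e (nat_lit 344133) (nat_lit 26) (.e (nat_lit 557098) (nat_lit 13) (.e (nat_lit 172062) (nat_lit 2) .nil)))) .nil))))))) (.nd (nat_lit 1) (.nd (nat_lit 2) (.nd (nat_lit 3) (.nd (nat_lit 4) (.nd (nat_lit 5) 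
(.lf (nat_lit 6529) (.g (nat_lit 3195) (.e (nat_lit 297) (nat_lit 22) (.e (nat_lit 344133) (nat_lit 26) (.e (nat_lit 557105) (nat_lit 14) (.e (nat_lit 180252) (nat_lit 10) (.e (nat_lit 573451) (nat_lit 9) (.e (nat_lit 1177) (nat_lit 87) (.e (nat_lit 57854) (nat_lit 252) (.e (nat_lit 57371) (nat_lit 2) (.e (nat_lit 90128) (nat_lit 9) .nil))))))))) (.g (nat_lit 4) .nil .nil))) 
(.lf (nat_lit 6561) (.g (nat_lit 2837) (.e (nat_lit 298) (nat_lit 22) (.e (nat_lit 344133) (nat_lit 26) (.e (nat_lit 557098) (nat_lit 13) (.e (nat_lit 172064) (nat_lit 2) (.e (nat_lit 196661) (nat_lit 12) .nil))))) .nil))) (.nd (nat_lit 5) 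
(.lf (nat_lit 6545) (.g (nat_lit 3715) (.e (nat_lit 297) (nat_lit 22) (.e (nat_lit 344133) (nat_lit 26) (.e (nat_lit 557105) (nat_lit 14) (.e (nat_lit 180252) (nat_lit 10) (.e (nat_lit 573474) (nat_lit 12) (.e (nat_lit 57356) (nat_lit 0) (.e (nat_lit 5195) (nat_lit 294) (.e (nat_lit 57375) (nat_lit 2) (.e (nat_lit 90128) (nat_lit 9) .nil))))))))) (.g (nat_lit 5) .nil .nil))) 
(.lf (nat_lit 6577) (.g (nat_lit 2200) (.e (nat_lit 299) (nat_lit 22) (.e (nat_lit 344127) (nat_lit 26) (.e (nat_lit 557104) (nat_lit 14) (.e (nat_lit 180244) (nat_lit 5) (.e (nat_lit 532579) (nat_lit 26) (.e (nat_lit 426124) (nat_lit 2) (.e (nat_lit 196610) (nat_lit 0) .nil))))))) (.g (nat_lit 4) .nil .nil))))) (.nd (nat_lit 4) (.nd (nat_lit 5) 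
(.lf (nat_lit 6537) (.g (nat_lit 3503) (.e (nat_lit 297) (nat_lit 22) (.e (nat_lit 344133) (nat_lit 26) (.e (nat_lit 557105) (nat_lit 14) (.e (nat_lit 180252) (nat_lit 10) (.e (nat_lit 573458) (nat_lit 9) (.e (nat_lit 1180) (nat_lit 87) (.e (nat_lit 57849) (nat_lit 252) (.e (nat_lit 57372) (nat_lit 2) (.e (nat_lit 90128) (nat_lit 9) .nil))))))))) (.g (nat_lit 4) .nil .nil))) 
(.lf (nat_lit 6569) (.g (nat_lit 3200) (.e (nat_lit 298) (nat_lit 22) (.e (nat_lit 344133) (nat_lit 26) (.e (nat_lit 557105) (nat_lit 14) (.e (nat_lit 180252) (nat_lit 10) (.e (nat_lit 573451) (nat_lit 9) (.e (nat_lit 1177) (nat_lit 87) (.e (nat_lit 57854) (nat_lit 252) (.e (nat_lit 57373) (nat_lit 2) (.e (nat_lit 90128) (nat_lit 9) .nil))))))))) (.g (nat_lit 4) .nil .nil)))) (.nd (nat_lit 5) 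
(.lf (nat_lit 6553) (.g (nat_lit 3249) (.e (nat_lit 297) (nat_lit 22) (.e (nat_lit 344133) (nat_lit 26) (.e (nat_lit 557105) (nat_lit 14) (.e (nat_lit 180252) (nat_lit 10) (.e (nat_lit 573475) (nat_lit 12) (.e (nat_lit 57356) (nat_lit 0) (.e (nat_lit 5195) (nat_lit 294) (.e (nat_lit 57375) (nat_lit 2) (.e (nat_lit 90128) (nat_lit 9) .nil))))))))) (.g (nat_lit 4) .nil .nil))) 
(.lf (nat_lit 6585) (.g (nat_lit 3383) (.e (nat_lit 299) (nat_lit 22) (.e (nat_lit 344131) (nat_lit 26) (.e (nat_lit 557103) (nat_lit 14) (.e (nat_lit 180244) (nat_lit 5) (.e (nat_lit 532579) (nat_lit 26) (.e (nat_lit 426124) (nat_lit 2) (.e (nat_lit 196610) (nat_lit 0) .nil))))))) (.g (nat_lit 7) .nil .nil)))))) (.nd (nat_lit 3) (.nd (nat_lit 4) (.nd (nat_lit 5) 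
(.lf (nat_lit 6533) (.g (nat_lit 3771) (.e (nat_lit 297) (nat_lit 22) (.e (nat_lit 344133) (nat_lit 26) (.e (nat_lit 557105) (nat_lit 14) (.e (nat_lit 180252) (nat_lit 10) (.e (nat_lit 573453) (nat_lit 9) (.e (nat_lit 1183) (nat_lit 87) (.e (nat_lit 57848) (nat_lit 252) (.e (nat_lit 57372) (nat_lit 2) (.e (nat_lit 90128) (nat_lit 9) .nil))))))))) (.g (nat_lit 4) .nil .nil))) 
(.lf (nat_lit 6565) (.g (nat_lit 2269) (.e (nat_lit 298) (nat_lit 22) (.e (nat_lit 344133) (nat_lit 26) (.e (nat_lit 557105) (nat_lit 14) (.e (nat_lit 180237) (nat_lit 1) .nil)))) .nil))) (.nd (nat_lit 5) 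
(.lf (nat_lit 6549) (.g (nat_lit 2810) (.e (nat_lit 297) (nat_lit 22) (.e (nat_lit 344133) (nat_lit 26) (.e (nat_lit 557105) (nat_lit 14) (.e (nat_lit 180252) (nat_lit 10) (.e (nat_lit 573475) (nat_lit 12) .nil))))) .nil)) 
(.lf (nat_lit 6581) (.g (nat_lit 2410) (.e (nat_lit 299) (nat_lit 22) (.e (nat_lit 344131) (nat_lit 26) (.e (nat_lit 557100) (nat_lit 13) (.e (nat_lit 172065) (nat_lit 3) (.e (nat_lit 204809) (nat_lit 9) .nil))))) .nil)))) (.nd (nat_lit 4) (.nd (nat_lit 5) 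
(.lf (nat_lit 6541) (.g (nat_lit 3903) (.e (nat_lit 297) (nat_lit 22) (.e (nat_lit 344133) (nat_lit 26) (.e (nat_lit 557105) (nat_lit 14) (.e (nat_lit 180252) (nat_lit 10) (.e (nat_lit 573473) (nat_lit 12) (.e (nat_lit 57354) (nat_lit 0) (.e (nat_lit 5194) (nat_lit 294) (.e (nat_lit 57372) (nat_lit 2) (.e (nat_lit 90128) (nat_lit 9) .nil))))))))) (.g (nat_lit 5) .nil .nil))) 
(.lf (nat_lit 6573) (.g (nat_lit 5141) (.e (nat_lit 298) (nat_lit 22) (.e (nat_lit 344133) (nat_lit 26) (.e (nat_lit 557105) (nat_lit 14) (.e (nat_lit 180252) (nat_lit 10) (.e (nat_lit 573474) (nat_lit 12) (.e (nat_lit 57354) (nat_lit 0) (.e (nat_lit 5194) (nat_lit 294) (.e (nat_lit 57375) (nat_lit 2) (.e (nat_lit 90128) (nat_lit 9) .nil))))))))) (.g (nat_lit 6) .nil .nil)))) (.nd (nat_lit 5) 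
(.lf (nat_lit 6557) (.g (nat_lit 3421) (.e (nat_lit 297) (nat_lit 22) (.e (nat_lit 344133) (nat_lit 26) (.e (nat_lit 557105) (nat_lit 14) (.e (nat_lit 180266) (nat_lit 22) (.e (nat_lit 671762) (nat_lit 4) (.e (nat_lit 65578) (nat_lit 6) (.e (nat_lit 147467) (nat_lit 9) .nil))))))) (.g (nat_lit 6) .nil .nil))) 
(.lf (nat_lit 6589) (.g (nat_lit 1568) (.e (nat_lit 299) (nat_lit 22) (.e (nat_lit 344133) (nat_lit 26) (.e (nat_lit 557098) (nat_lit 13) (.e (nat_lit 172051) (nat_lit 0) .nil)))) .nil)))))) (.nd (nat_lit 2) (.nd (nat_lit 3) (.nd (nat_lit 4) (.nd (nat_lit 5) 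
(.lf (nat_lit 6531) (.g (nat_lit 3521) (.e (nat_lit 297) (nat_lit 22) (.e (nat_lit 344133) (nat_lit 26) (.e (nat_lit 557105) (nat_lit 14) (.e (nat_lit 180252) (nat_lit 10) (.e (nat_lit 573452) (nat_lit 9) (.e (nat_lit 1175) (nat_lit 87) (.e (nat_lit 57849) (nat_lit 252) (.e (nat_lit 57372) (nat_lit 2) (.e (nat_lit 90128) (nat_lit 9) .nil))))))))) (.g (nat_lit 4) .nil .nil))) 
(.lf (nat_lit 6563) (.g (nat_lit 4094) (.e (nat_lit 298) (nat_lit 22) (.e (nat_lit 344133) (nat_lit 26) (.e (nat_lit 557103) (nat_lit 14) (.e (nat_lit 180244) (nat_lit 5) (.e (nat_lit 532579) (nat_lit 26) (.e (nat_lit 426123) (nat_lit 2) (.e (nat_lit 204544) (nat_lit 0) .nil))))))) (.g (nat_lit 6) .nil .nil)))) (.nd (nat_lit 5) 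
(.lf (nat_lit 6547) (.g (nat_lit 2755) (.e (nat_lit 297) (nat_lit 22) (.e (nat_lit 344133) (nat_lit 26) (.e (nat_lit 557105) (nat_lit 14) (.e (nat_lit 180252) (nat_lit 10) (.e (nat_lit 573474) (nat_lit 12) (.e (nat_lit 57507) (nat_lit 39) (.e (nat_lit 647200) (nat_lit 12) (.e (nat_lit 57480) (nat_lit 28) (.e (nat_lit 557066) (nat_lit 9) .nil))))))))) (.g (nat_lit 4) .nil .nil))) 
(.lf (nat_lit 6579) (.g (nat_lit 2629) (.e (nat_lit 299) (nat_lit 22) (.e (nat_lit 344131) (nat_lit 26) (.e (nat_lit 557098) (nat_lit 13) (.e (nat_lit 172067) (nat_lit 3) (.e (nat_lit 204809) (nat_lit 9) (.e (nat_lit 426123) (nat_lit 2) (.e (nat_lit 204544) (nat_lit 0) .nil))))))) (.g (nat_lit 4) .nil .nil))))) (.nd (nat_lit 4) (.nd (nat_lit 5) 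
(.lf (nat_lit 6539) (.g (nat_lit 3667) (.e (nat_lit 297) (nat_lit 22) (.e (nat_lit 344133) (nat_lit 26) (.e (nat_lit 557105) (nat_lit 14) (.e (nat_lit 180252) (nat_lit 10) (.e (nat_lit 573459) (nat_lit 9) .nil))))) .nil)) 
(.lf (nat_lit 6571) (.g (nat_lit 3124) (.e (nat_lit 298) (nat_lit 22) (.e (nat_lit 344133) (nat_lit 26) (.e (nat_lit 557105) (nat_lit 14) (.e (nat_lit 180252) (nat_lit 10) (.e (nat_lit 573474) (nat_lit 12) .nil))))) .nil))) (.nd (nat_lit 5) 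
(.lf (nat_lit 6555) (.g (nat_lit 2447) (.e (nat_lit 297) (nat_lit 22) (.e (nat_lit 344133) (nat_lit 26) (.e (nat_lit 557105) (nat_lit 14) (.e (nat_lit 180265) (nat_lit 21) (.e (nat_lit 663555) (nat_lit 0) .nil))))) .nil)) 
(.lf (nat_lit 6587) (.g (nat_lit 2651) (.e (nat_lit 299) (nat_lit 22) (.e (nat_lit 344133) (nat_lit 26) (.e (nat_lit 557096) (nat_lit 13) (.e (nat_lit 172067) (nat_lit 3) (.e (nat_lit 204809) (nat_lit 9) .nil))))) .nil))))) (.nd (nat_lit 3) (.nd (nat_lit 4) (.nd (nat_lit 5) 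
(.lf (nat_lit 6535) (.g (nat_lit 2919) (.e (nat_lit 297) (nat_lit 22) (.e (nat_lit 344133) (nat_lit 26) (.e (nat_lit 557105) (nat_lit 14) (.e (nat_lit 180252) (nat_lit 10) (.e (nat_lit 573458) (nat_lit 9) .nil))))) .nil)) 
(.lf (nat_lit 6567) (.g (nat_lit 3412) (.e (nat_lit 298) (nat_lit 22) (.e (nat_lit 344133) (nat_lit 26) (.e (nat_lit 557105) (nat_lit 14) (.e (nat_lit 180252) (nat_lit 10) (.e (nat_lit 573449) (nat_lit 9) .nil))))) .nil))) (.nd (nat_lit 5) 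
(.lf (nat_lit 6551) (.g (nat_lit 4514) (.e (nat_lit 297) (nat_lit 22) (.e (nat_lit 344133) (nat_lit 26) (.e (nat_lit 557105) (nat_lit 14) (.e (nat_lit 180252) (nat_lit 10) (.e (nat_lit 573475) (nat_lit 12) (.e (nat_lit 57354) (nat_lit 0) (.e (nat_lit 5195) (nat_lit 294) (.e (nat_lit 57375) (nat_lit 2) (.e (nat_lit 90128) (nat_lit 9) .nil))))))))) (.g (nat_lit 5) .nil .nil))) 
(.lf (nat_lit 6583) (.g (nat_lit 3589) (.e (nat_lit 299) (nat_lit 22) (.e (nat_lit 344131) (nat_lit 26) (.e (nat_lit 557103) (nat_lit 14) (.e (nat_lit 180244) (nat_lit 5) (.e (nat_lit 532579) (nat_lit 26) (.e (nat_lit 426123) (nat_lit 2) (.e (nat_lit 196614) (nat_lit 0) .nil))))))) (.g (nat_lit 6) .nil .nil))))) (.nd (nat_lit 4) (.nd (nat_lit 5) 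
(.lf (nat_lit 6543) (.g (nat_lit 5428) (.e (nat_lit 297) (nat_lit 22) (.e (nat_lit 344133) (nat_lit 26) (.e (nat_lit 557105) (nat_lit 14) (.e (nat_lit 180252) (nat_lit 10) (.e (nat_lit 573474) (nat_lit 12) (.e (nat_lit 57354) (nat_lit 0) (.e (nat_lit 5195) (nat_lit 294) (.e (nat_lit 57372) (nat_lit 2) (.e (nat_lit 90128) (nat_lit 9) .nil))))))))) (.g (nat_lit 7) .nil .nil))) 
(.lf (nat_lit 6575) (.g (nat_lit 3312) (.e (nat_lit 298) (nat_lit 22) (.e (nat_lit 344133) (nat_lit 26) (.e (nat_lit 557105) (nat_lit 14) (.e (nat_lit 180252) (nat_lit 10) (.e (nat_lit 573475) (nat_lit 12) .nil))))) .nil))) (.nd (nat_lit 5) 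
(.lf (nat_lit 6559) (.g (nat_lit 2644) (.e (nat_lit 298) (nat_lit 22) (.e (nat_lit 344132) (nat_lit 26) (.e (nat_lit 557100) (nat_lit 13) (.e (nat_lit 172065) (nat_lit 3) (.e (nat_lit 204809) (nat_lit 9) .nil))))) .nil)) 
(.lf (nat_lit 6591) (.g (nat_lit 2635) (.e (nat_lit 299) (nat_lit 22) (.e (nat_lit 344133) (nat_lit 26) (.e (nat_lit 557098) (nat_lit 13) (.e (nat_lit 172065) (nat_lit 3) (.e (nat_lit 204809) (nat_lit 9) .nil))))) .nil))))))))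

noncomputable def tv090 : DT := (.nd (nat_lit 0) (.nd (nat_lit 1) (.nd (nat_lit 2) (.nd (nat_lit 3) (.nd (nat_lit 4) 
(.lf (nat_lit 6592) (.g (nat_lit 2636) (.e (nat_lit 299) (nat_lit 22) (.e (nat_lit 344133) (nat_lit 26) (.e (nat_lit 557098) (nat_lit 13) (.e (nat_lit 172065) (nat_lit 3) (.e (nat_lit 204809) (nat_lit 9) (.e (nat_lit 426123) (nat_lit 2) (.e (nat_lit 204544) (nat_lit 0) .nil))))))) (.g (nat_lit 4) .nil .nil))) 
(.lf (nat_lit 6608) (.g (nat_lit 2276) (.e (nat_lit 299) (nat_lit 22) (.e (nat_lit 344133) (nat_lit 26) (.e (nat_lit 557105) (nat_lit 14) (.e (nat_lit 180237) (nat_lit 1) .nil)))) .nil))) (.nd (nat_lit 4) 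
(.lf (nat_lit 6600) (.g (nat_lit 4616) (.e (nat_lit 299) (nat_lit 22) (.e (nat_lit 344133) (nat_lit 26) (.e (nat_lit 557103) (nat_lit 14) (.e (nat_lit 180244) (nat_lit 5) (.e (nat_lit 532579) (nat_lit 26) (.e (nat_lit 426123) (nat_lit 2) (.e (nat_lit 196613) (nat_lit 0) .nil))))))) (.g (nat_lit 0) .nil .nil))) 
(.lf (nat_lit 6616) (.g (nat_lit 499) (.e (nat_lit 300) (nat_lit 22) (.e (nat_lit 344067) (nat_lit 0) (.e (nat_lit 2939) (nat_lit 184) (.e (nat_lit 426532) (nat_lit 28) (.e (nat_lit 344084) (nat_lit 14) (.e (nat_lit 57863) (nat_lit 256) .nil)))))) (.g (nat_lit 0) .nil .nil))))) (.nd (nat_lit 3) (.nd (nat_lit 4) 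
(.lf (nat_lit 6596) (.g (nat_lit 3422) (.e (nat_lit 299) (nat_lit 22) (.e (nat_lit 344133) (nat_lit 26) (.e (nat_lit 557098) (nat_lit 13) (.e (nat_lit 172067) (nat_lit 3) (.e (nat_lit 204809) (nat_lit 9) (.e (nat_lit 426123) (nat_lit 2) (.e (nat_lit 196616) (nat_lit 0) .nil))))))) (.g (nat_lit 5) .nil .nil))) 
(.lf (nat_lit 6612) (.g (nat_lit 2860) (.e (nat_lit 299) (nat_lit 22) (.e (nat_lit 344133) (nat_lit 26) (.e (nat_lit 557105) (nat_lit 14) (.e (nat_lit 180252) (nat_lit 10) (.e (nat_lit 581376) (nat_lit 0) .nil))))) .nil))) (.nd (nat_lit 4) 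
(.lf (nat_lit 6604) (.g (nat_lit 4023) (.e (nat_lit 299) (nat_lit 22) (.e (nat_lit 344133) (nat_lit 26) (.e (nat_lit 557103) (nat_lit 14) (.e (nat_lit 180244) (nat_lit 5) (.e (nat_lit 532579) (nat_lit 26) (.e (nat_lit 426124) (nat_lit 2) (.e (nat_lit 196610) (nat_lit 0) .nil))))))) (.g (nat_lit 7) .nil .nil))) 
(.lf (nat_lit 6620) (.g (nat_lit 495) (.e (nat_lit 300) (nat_lit 22) (.e (nat_lit 344067) (nat_lit 0) (.e (nat_lit 2940) (nat_lit 184) (.e (nat_lit 426532) (nat_lit 28) (.e (nat_lit 344084) (nat_lit 14) (.e (nat_lit 57863) (nat_lit 256) .nil)))))) (.g (nat_lit 0) .nil .nil)))))) (.nd (nat_lit 2) (.nd (nat_lit 3) (.nd (nat_lit 4) 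
(.lf (nat_lit 6594) (.g (nat_lit 2393) (.e (nat_lit 299) (nat_lit 22) (.e (nat_lit 344133) (nat_lit 26) (.e (nat_lit 557098) (nat_lit 13) (.e (nat_lit 172066) (nat_lit 3) (.e (nat_lit 204809) (nat_lit 9) .nil))))) .nil)) 
(.lf (nat_lit 6610) (.g (nat_lit 3263) (.e (nat_lit 299) (nat_lit 22) (.e (nat_lit 344133) (nat_lit 26) (.e (nat_lit 557105) (nat_lit 14) (.e (nat_lit 180244) (nat_lit 5) (.e (nat_lit 532579) (nat_lit 26) (.e (nat_lit 426124) (nat_lit 2) (.e (nat_lit 196610) (nat_lit 0) .nil))))))) (.g (nat_lit 4) .nil .nil)))) (.nd (nat_lit 4) 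
(.lf (nat_lit 6602) (.g (nat_lit 4118) (.e (nat_lit 299) (nat_lit 22) (.e (nat_lit 344133) (nat_lit 26) (.e (nat_lit 557103) (nat_lit 14) (.e (nat_lit 180244) (nat_lit 5) (.e (nat_lit 532579) (nat_lit 26) (.e (nat_lit 426123) (nat_lit 2) (.e (nat_lit 196616) (nat_lit 0) .nil))))))) (.g (nat_lit 6) .nil .nil))) 
(.lf (nat_lit 6618) (.g (nat_lit 684) (.e (nat_lit 300) (nat_lit 22) (.e (nat_lit 344067) (nat_lit 0) (.e (nat_lit 2939) (nat_lit 184) (.e (nat_lit 426549) (nat_lit 31) (.e (nat_lit 368656) (nat_lit 14) (.e (nat_lit 57865) (nat_lit 256) .nil)))))) (.g (nat_lit 6) .nil .nil))))) (.nd (nat_lit 3) (.nd (nat_lit 4) 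
(.lf (nat_lit 6598) (.g (nat_lit 2296) (.e (nat_lit 299) (nat_lit 22) (.e (nat_lit 344133) (nat_lit 26) (.e (nat_lit 557103) (nat_lit 14) (.e (nat_lit 180244) (nat_lit 5) (.e (nat_lit 532579) (nat_lit 26) .nil))))) .nil)) 
(.lf (nat_lit 6614) (.g (nat_lit 546) (.e (nat_lit 300) (nat_lit 22) (.e (nat_lit 344067) (nat_lit 0) (.e (nat_lit 2936) (nat_lit 184) (.e (nat_lit 426532) (nat_lit 28) (.e (nat_lit 344084) (nat_lit 14) (.e (nat_lit 57863) (nat_lit 256) .nil)))))) (.g (nat_lit 0) .nil .nil)))) (.nd (nat_lit 4) 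
(.lf (nat_lit 6606) (.g (nat_lit 2280) (.e (nat_lit 299) (nat_lit 22) (.e (nat_lit 344133) (nat_lit 26) (.e (nat_lit 557105) (nat_lit 14) (.e (nat_lit 180234) (nat_lit 1) .nil)))) .nil)) 
(.lf (nat_lit 6622) (.g (nat_lit 469) (.e (nat_lit 300) (nat_lit 22) (.e (nat_lit 344067) (nat_lit 0) (.e (nat_lit 2941) (nat_lit 184) (.e (nat_lit 426532) (nat_lit 28) (.e (nat_lit 344084) (nat_lit 14) (.e (nat_lit 57862) (nat_lit 256) .nil)))))) (.g (nat_lit 0) .nil .nil))))))) (.nd (nat_lit 1) (.nd (nat_lit 2) (.nd (nat_lit 3) (.nd (nat_lit 4) 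
(.lf (nat_lit 6593) (.g (nat_lit 2695) (.e (nat_lit 299) (nat_lit 22) (.e (nat_lit 344133) (nat_lit 26) (.e (nat_lit 557098) (nat_lit 13) (.e (nat_lit 172065) (nat_lit 3) (.e (nat_lit 204809) (nat_lit 9) (.e (nat_lit 426124) (nat_lit 2) (.e (nat_lit 196610) (nat_lit 0) .nil))))))) (.g (nat_lit 4) .nil .nil))) 
(.lf (nat_lit 6609) (.g (nat_lit 3165) (.e (nat_lit 299) (nat_lit 22) (.e (nat_lit 344133) (nat_lit 26) (.e (nat_lit 557105) (nat_lit 14) (.e (nat_lit 180244) (nat_lit 5) (.e (nat_lit 532579) (nat_lit 26) .nil))))) .nil))) (.nd (nat_lit 4) 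
(.lf (nat_lit 6601) (.g (nat_lit 4229) (.e (nat_lit 299) (nat_lit 22) (.e (nat_lit 344133) (nat_lit 26) (.e (nat_lit 557103) (nat_lit 14) (.e (nat_lit 180244) (nat_lit 5) (.e (nat_lit 532579) (nat_lit 26) (.e (nat_lit 426123) (nat_lit 2) (.e (nat_lit 196614) (nat_lit 0) .nil))))))) (.g (nat_lit 7) .nil .nil))) 
(.lf (nat_lit 6617) (.g (nat_lit 710) (.e (nat_lit 300) (nat_lit 22) (.e (nat_lit 344067) (nat_lit 0) (.e (nat_lit 2939) (nat_lit 184) (.e (nat_lit 426549) (nat_lit 31) (.e (nat_lit 368656) (nat_lit 14) (.e (nat_lit 57864) (nat_lit 256) .nil)))))) (.g (nat_lit 6) .nil .nil))))) (.nd (nat_lit 3) (.nd (nat_lit 4) 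
(.lf (nat_lit 6597) (.g (nat_lit 3195) (.e (nat_lit 299) (nat_lit 22) (.e (nat_lit 344133) (nat_lit 26) (.e (nat_lit 557098) (nat_lit 13) (.e (nat_lit 172067) (nat_lit 3) (.e (nat_lit 204809) (nat_lit 9) (.e (nat_lit 426124) (nat_lit 2) (.e (nat_lit 196609) (nat_lit 0) .nil))))))) (.g (nat_lit 5) .nil .nil))) 
(.lf (nat_lit 6613) (.g (nat_lit 3131) (.e (nat_lit 299) (nat_lit 22) (.e (nat_lit 344133) (nat_lit 26) (.e (nat_lit 557105) (nat_lit 14) (.e (nat_lit 180252) (nat_lit 10) (.e (nat_lit 573474) (nat_lit 12) .nil))))) .nil))) (.nd (nat_lit 4) 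
(.lf (nat_lit 6605) (.g (nat_lit 2772) (.e (nat_lit 299) (nat_lit 22) (.e (nat_lit 344133) (nat_lit 26) (.e (nat_lit 557103) (nat_lit 14) (.e (nat_lit 180244) (nat_lit 5) (.e (nat_lit 532579) (nat_lit 26) (.e (nat_lit 426124) (nat_lit 2) (.e (nat_lit 204544) (nat_lit 0) .nil))))))) (.g (nat_lit 5) .nil .nil))) 
(.lf (nat_lit 6621) (.g (nat_lit 709) (.e (nat_lit 300) (nat_lit 22) (.e (nat_lit 344067) (nat_lit 0) (.e (nat_lit 2940) (nat_lit 184) (.e (nat_lit 426549) (nat_lit 31) (.e (nat_lit 368656) (nat_lit 14) (.e (nat_lit 57862) (nat_lit 256) .nil)))))) (.g (nat_lit 6) .nil .nil)))))) (.nd (nat_lit 2) (.nd (nat_lit 3) (.nd (nat_lit 4) 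
(.lf (nat_lit 6595) (.g (nat_lit 2704) (.e (nat_lit 299) (nat_lit 22) (.e (nat_lit 344133) (nat_lit 26) (.e (nat_lit 557098) (nat_lit 13) (.e (nat_lit 172067) (nat_lit 3) (.e (nat_lit 204809) (nat_lit 9) .nil))))) .nil)) 
(.lf (nat_lit 6611) (.g (nat_lit 2103) (.e (nat_lit 299) (nat_lit 22) (.e (nat_lit 344133) (nat_lit 26) (.e (nat_lit 557105) (nat_lit 14) (.e (nat_lit 180245) (nat_lit 5) .nil)))) .nil))) (.nd (nat_lit 4) 
(.lf (nat_lit 6603) (.g (nat_lit 3876) (.e (nat_lit 299) (nat_lit 22) (.e (nat_lit 344133) (nat_lit 26) (.e (nat_lit 557103) (nat_lit 14) (.e (nat_lit 180244) (nat_lit 5) (.e (nat_lit 532579) (nat_lit 26) (.e (nat_lit 426123) (nat_lit 2) (.e (nat_lit 204544) (nat_lit 0) .nil))))))) (.g (nat_lit 6) .nil .nil))) 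
(.lf (nat_lit 6619) (.g (nat_lit 512) (.e (nat_lit 300) (nat_lit 22) (.e (nat_lit 344067) (nat_lit 0) (.e (nat_lit 2940) (nat_lit 184) (.e (nat_lit 426532) (nat_lit 28) (.e (nat_lit 344084) (nat_lit 14) (.e (nat_lit 57862) (nat_lit 256) .nil)))))) (.g (nat_lit 0) .nil .nil))))) (.nd (nat_lit 3) (.nd (nat_lit 4) 
(.lf (nat_lit 6599) (.g (nat_lit 2944) (.e (nat_lit 299) (nat_lit 22) (.e (nat_lit 344133) (nat_lit 26) (.e (nat_lit 557103) (nat_lit 14) (.e (nat_lit 180244) (nat_lit 5) (.e (nat_lit 532579) (nat_lit 26) (.e (nat_lit 426116) (nat_lit 2) (.e (nat_lit 196611) (nat_lit 0) .nil))))))) (.g (nat_lit 5) .nil .nil))) 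
(.lf (nat_lit 6615) (.g (nat_lit 839) (.e (nat_lit 300) (nat_lit 22) (.e (nat_lit 344067) (nat_lit 0) (.e (nat_lit 2936) (nat_lit 184) (.e (nat_lit 426549) (nat_lit 31) (.e (nat_lit 368656) (nat_lit 14) (.e (nat_lit 57862) (nat_lit 256) .nil)))))) (.g (nat_lit 6) .nil .nil)))) (.nd (nat_lit 4) 
(.lf (nat_lit 6607) (.g (nat_lit 2279) (.e (nat_lit 299) (nat_lit 22) (.e (nat_lit 344133) (nat_lit 26) (.e (nat_lit 557105) (nat_lit 14) (.e (nat_lit 180235) (nat_lit 1) .nil)))) .nil)) 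
(.lf (nat_lit 6623) (.g (nat_lit 452) (.e (nat_lit 300) (nat_lit 22) (.e (nat_lit 344067) (nat_lit 0) (.e (nat_lit 2941) (nat_lit 184) (.e (nat_lit 426532) (nat_lit 28) (.e (nat_lit 344084) (nat_lit 14) (.e (nat_lit 57863) (nat_lit 256) .nil)))))) (.g (nat_lit 0) .nil .nil))))))))

noncomputable def tv091 : DT := (.nd (nat_lit 0) (.nd (nat_lit 1) (.nd (nat_lit 2) (.nd (nat_lit 3) (.nd (nat_lit 4) 
(.lf (nat_lit 6624) (.g (nat_lit 2162) (.e (nat_lit 300) (nat_lit 22) (.e (nat_lit 344068) (nat_lit 0) (.e (nat_lit 2856) (nat_lit 184) (.e (nat_lit 426533) (nat_lit 28) (.e (nat_lit 344084) (nat_lit 14) (.e (nat_lit 57863) (nat_lit 256) .nil)))))) (.g (nat_lit 6) .nil .nil))) 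
(.lf (nat_lit 6640) (.g (nat_lit 492) (.e (nat_lit 300) (nat_lit 22) (.e (nat_lit 344077) (nat_lit 13) (.e (nat_lit 1383) (nat_lit 105) (.e (nat_lit 311357) (nat_lit 28) (.e (nat_lit 344084) (nat_lit 14) (.e (nat_lit 57863) (nat_lit 256) .nil)))))) (.g (nat_lit 0) .nil .nil)))) (.nd (nat_lit 4) 
(.lf (nat_lit 6632) (.g (nat_lit 1944) (.e (nat_lit 300) (nat_lit 22) (.e (nat_lit 344069) (nat_lit 0) (.e (nat_lit 2856) (nat_lit 184) (.e (nat_lit 426550) (nat_lit 31) (.e (nat_lit 368656) (nat_lit 14) (.e (nat_lit 57865) (nat_lit 256) .nil)))))) (.g (nat_lit 0) .nil .nil))) 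
(.lf (nat_lit 6648) (.g (nat_lit 472) (.e (nat_lit 300) (nat_lit 22) (.e (nat_lit 344084) (nat_lit 14) (.e (nat_lit 57865) (nat_lit 256) (.e (nat_lit 300) (nat_lit 22) (.e (nat_lit 344084) (nat_lit 14) (.e (nat_lit 57865) (nat_lit 256) .nil)))))) (.g (nat_lit 0) .nil .nil))))) (.nd (nat_lit 3) (.nd (nat_lit 4) 
(.lf (nat_lit 6628) (.g (nat_lit 2087) (.e (nat_lit 300) (nat_lit 22) (.e (nat_lit 344068) (nat_lit 0) (.e (nat_lit 2856) (nat_lit 184) (.e (nat_lit 426550) (nat_lit 31) (.e (nat_lit 368656) (nat_lit 14) (.e (nat_lit 57865) (nat_lit 256) .nil)))))) (.g (nat_lit 6) .nil .nil))) 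
(.lf (nat_lit 6644) (.g (nat_lit 951) (.e (nat_lit 300) (nat_lit 22) (.e (nat_lit 344077) (nat_lit 13) (.e (nat_lit 1386) (nat_lit 105) (.e (nat_lit 311357) (nat_lit 28) (.e (nat_lit 344084) (nat_lit 14) (.e (nat_lit 57863) (nat_lit 256) .nil)))))) (.g (nat_lit 0) .nil .nil)))) (.nd (nat_lit 4) 
(.lf (nat_lit 6636) (.g (nat_lit 538) (.e (nat_lit 300) (nat_lit 22) (.e (nat_lit 344075) (nat_lit 13) (.e (nat_lit 1378) (nat_lit 104) (.e (nat_lit 303154) (nat_lit 28) (.e (nat_lit 344084) (nat_lit 14) (.e (nat_lit 57862) (nat_lit 256) .nil)))))) (.g (nat_lit 0) .nil .nil))) 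
(.lf (nat_lit 6652) (.g (nat_lit 860) (.e (nat_lit 300) (nat_lit 22) (.e (nat_lit 344085) (nat_lit 15) (.e (nat_lit 123165) (nat_lit 256) (.e (nat_lit 301) (nat_lit 22) (.e (nat_lit 344084) (nat_lit 14) (.e (nat_lit 57863) (nat_lit 256) .nil)))))) (.g (nat_lit 0) .nil .nil)))))) (.nd (nat_lit 2) (.nd (nat_lit 3) (.nd (nat_lit 4) 
(.lf (nat_lit 6626) (.g (nat_lit 2159) (.e (nat_lit 300) (nat_lit 22) (.e (nat_lit 344068) (nat_lit 0) (.e (nat_lit 2856) (nat_lit 184) (.e (nat_lit 426533) (nat_lit 28) (.e (nat_lit 344084) (nat_lit 14) (.e (nat_lit 57865) (nat_lit 256) .nil)))))) (.g (nat_lit 6) .nil .nil))) 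
(.lf (nat_lit 6642) (.g (nat_lit 661) (.e (nat_lit 300) (nat_lit 22) (.e (nat_lit 344077) (nat_lit 13) (.e (nat_lit 1385) (nat_lit 105) (.e (nat_lit 311357) (nat_lit 28) (.e (nat_lit 344084) (nat_lit 14) (.e (nat_lit 57862) (nat_lit 256) .nil)))))) (.g (nat_lit 0) .nil .nil)))) (.nd (nat_lit 4) 
(.lf (nat_lit 6634) (.g (nat_lit 970) (.e (nat_lit 300) (nat_lit 22) (.e (nat_lit 344075) (nat_lit 13) (.e (nat_lit 1374) (nat_lit 104) (.e (nat_lit 303154) (nat_lit 28) (.e (nat_lit 344084) (nat_lit 14) (.e (nat_lit 57863) (nat_lit 256) .nil)))))) (.g (nat_lit 0) .nil .nil))) 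
(.lf (nat_lit 6650) (.g (nat_lit 759) (.e (nat_lit 300) (nat_lit 22) (.e (nat_lit 344085) (nat_lit 15) (.e (nat_lit 123164) (nat_lit 256) (.e (nat_lit 301) (nat_lit 22) (.e (nat_lit 344084) (nat_lit 14) (.e (nat_lit 57863) (nat_lit 256) .nil)))))) (.g (nat_lit 0) .nil .nil))))) (.nd (nat_lit 3) (.nd (nat_lit 4) 
(.lf (nat_lit 6630) (.g (nat_lit 1860) (.e (nat_lit 300) (nat_lit 22) (.e (nat_lit 344069) (nat_lit 0) (.e (nat_lit 2856) (nat_lit 184) (.e (nat_lit 426533) (nat_lit 28) (.e (nat_lit 344084) (nat_lit 14) (.e (nat_lit 57863) (nat_lit 256) .nil)))))) (.g (nat_lit 0) .nil .nil))) 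
(.lf (nat_lit 6646) (.g (nat_lit 472) (.e (nat_lit 300) (nat_lit 22) (.e (nat_lit 344084) (nat_lit 14) (.e (nat_lit 57863) (nat_lit 256) (.e (nat_lit 300) (nat_lit 22) (.e (nat_lit 344084) (nat_lit 14) (.e (nat_lit 57863) (nat_lit 256) .nil)))))) (.g (nat_lit 0) .nil .nil)))) (.nd (nat_lit 4) 
(.lf (nat_lit 6638) (.g (nat_lit 454) (.e (nat_lit 300) (nat_lit 22) (.e (nat_lit 344075) (nat_lit 13) (.e (nat_lit 1379) (nat_lit 104) (.e (nat_lit 303154) (nat_lit 28) (.e (nat_lit 344084) (nat_lit 14) (.e (nat_lit 57863) (nat_lit 256) .nil)))))) (.g (nat_lit 0) .nil .nil))) 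
(.lf (nat_lit 6654) (.g (nat_lit 1648) (.e (nat_lit 300) (nat_lit 22) (.e (nat_lit 344119) (nat_lit 21) (.e (nat_lit 516117) (nat_lit 1) (.e (nat_lit 164232) (nat_lit 185) .nil)))) .nil)))))) (.nd (nat_lit 1) (.nd (nat_lit 2) (.nd (nat_lit 3) (.nd (nat_lit 4) 
(.lf (nat_lit 6625) (.g (nat_lit 2201) (.e (nat_lit 300) (nat_lit 22) (.e (nat_lit 344068) (nat_lit 0) (.e (nat_lit 2856) (nat_lit 184) (.e (nat_lit 426533) (nat_lit 28) (.e (nat_lit 344084) (nat_lit 14) (.e (nat_lit 57864) (nat_lit 256) .nil)))))) (.g (nat_lit 6) .nil .nil))) 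
(.lf (nat_lit 6641) (.g (nat_lit 528) (.e (nat_lit 300) (nat_lit 22) (.e (nat_lit 344077) (nat_lit 13) (.e (nat_lit 1384) (nat_lit 105) (.e (nat_lit 311357) (nat_lit 28) (.e (nat_lit 344084) (nat_lit 14) (.e (nat_lit 57863) (nat_lit 256) .nil)))))) (.g (nat_lit 0) .nil .nil)))) (.nd (nat_lit 4) 
(.lf (nat_lit 6633) (.g (nat_lit 2599) (.e (nat_lit 300) (nat_lit 22) (.e (nat_lit 352000) (nat_lit 5) (.e (nat_lit 180271) (nat_lit 26) (.e (nat_lit 704629) (nat_lit 9) (.e (nat_lit 442) (nat_lit 33) (.e (nat_lit 442112) (nat_lit 8) .nil)))))) (.g (nat_lit 5) .nil .nil))) 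
(.lf (nat_lit 6649) (.g (nat_lit 731) (.e (nat_lit 300) (nat_lit 22) (.e (nat_lit 344085) (nat_lit 15) (.e (nat_lit 123163) (nat_lit 256) (.e (nat_lit 301) (nat_lit 22) (.e (nat_lit 344084) (nat_lit 14) (.e (nat_lit 57863) (nat_lit 256) .nil)))))) (.g (nat_lit 0) .nil .nil))))) (.nd (nat_lit 3) (.nd (nat_lit 4) 
(.lf (nat_lit 6629) (.g (nat_lit 1872) (.e (nat_lit 300) (nat_lit 22) (.e (nat_lit 344069) (nat_lit 0) (.e (nat_lit 2856) (nat_lit 184) (.e (nat_lit 426533) (nat_lit 28) (.e (nat_lit 344084) (nat_lit 14) (.e (nat_lit 57862) (nat_lit 256) .nil)))))) (.g (nat_lit 0) .nil .nil))) 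
(.lf (nat_lit 6645) (.g (nat_lit 490) (.e (nat_lit 300) (nat_lit 22) (.e (nat_lit 344084) (nat_lit 14) (.e (nat_lit 57862) (nat_lit 256) (.e (nat_lit 300) (nat_lit 22) (.e (nat_lit 344084) (nat_lit 14) (.e (nat_lit 57863) (nat_lit 256) .nil)))))) (.g (nat_lit 0) .nil .nil)))) (.nd (nat_lit 4) 
(.lf (nat_lit 6637) (.g (nat_lit 523) (.e (nat_lit 300) (nat_lit 22) (.e (nat_lit 344075) (nat_lit 13) (.e (nat_lit 1378) (nat_lit 104) (.e (nat_lit 303154) (nat_lit 28) (.e (nat_lit 344084) (nat_lit 14) (.e (nat_lit 57863) (nat_lit 256) .nil)))))) (.g (nat_lit 0) .nil .nil))) 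
(.lf (nat_lit 6653) (.g (nat_lit 854) (.e (nat_lit 300) (nat_lit 22) (.e (nat_lit 344085) (nat_lit 15) (.e (nat_lit 123166) (nat_lit 256) (.e (nat_lit 301) (nat_lit 22) (.e (nat_lit 344084) (nat_lit 14) (.e (nat_lit 57863) (nat_lit 256) .nil)))))) (.g (nat_lit 0) .nil .nil)))))) (.nd (nat_lit 2) (.nd (nat_lit 3) (.nd (nat_lit 4) 
(.lf (nat_lit 6627) (.g (nat_lit 2105) (.e (nat_lit 300) (nat_lit 22) (.e (nat_lit 344068) (nat_lit 0) (.e (nat_lit 2856) (nat_lit 184) (.e (nat_lit 426550) (nat_lit 31) (.e (nat_lit 368656) (nat_lit 14) (.e (nat_lit 57864) (nat_lit 256) .nil)))))) (.g (nat_lit 6) .nil .nil))) 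
(.lf (nat_lit 6643) (.g (nat_lit 635) (.e (nat_lit 300) (nat_lit 22) (.e (nat_lit 344077) (nat_lit 13) (.e (nat_lit 1385) (nat_lit 105) (.e (nat_lit 311357) (nat_lit 28) (.e (nat_lit 344084) (nat_lit 14) (.e (nat_lit 57863) (nat_lit 256) .nil)))))) (.g (nat_lit 0) .nil .nil)))) (.nd (nat_lit 4) 
(.lf (nat_lit 6635) (.g (nat_lit 462) (.e (nat_lit 300) (nat_lit 22) (.e (nat_lit 344075) (nat_lit 13) (.e (nat_lit 1376) (nat_lit 104) (.e (nat_lit 303154) (nat_lit 28) (.e (nat_lit 344084) (nat_lit 14) (.e (nat_lit 57863) (nat_lit 256) .nil)))))) (.g (nat_lit 0) .nil .nil))) 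
(.lf (nat_lit 6651) (.g (nat_lit 875) (.e (nat_lit 300) (nat_lit 22) (.e (nat_lit 344085) (nat_lit 15) (.e (nat_lit 123165) (nat_lit 256) (.e (nat_lit 301) (nat_lit 22) (.e (nat_lit 344084) (nat_lit 14) (.e (nat_lit 57862) (nat_lit 256) .nil)))))) (.g (nat_lit 0) .nil .nil))))) (.nd (nat_lit 3) (.nd (nat_lit 4) 
(.lf (nat_lit 6631) (.g (nat_lit 1993) (.e (nat_lit 300) (nat_lit 22) (.e (nat_lit 344069) (nat_lit 0) (.e (nat_lit 2856) (nat_lit 184) (.e (nat_lit 426550) (nat_lit 31) (.e (nat_lit 368656) (nat_lit 14) (.e (nat_lit 57862) (nat_lit 256) .nil)))))) (.g (nat_lit 0) .nil .nil))) 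
(.lf (nat_lit 6647) (.g (nat_lit 521) (.e (nat_lit 300) (nat_lit 22) (.e (nat_lit 344084) (nat_lit 14) (.e (nat_lit 57864) (nat_lit 256) (.e (nat_lit 300) (nat_lit 22) (.e (nat_lit 344084) (nat_lit 14) (.e (nat_lit 57865) (nat_lit 256) .nil)))))) (.g (nat_lit 0) .nil .nil)))) (.nd (nat_lit 4) 
(.lf (nat_lit 6639) (.g (nat_lit 504) (.e (nat_lit 300) (nat_lit 22) (.e (nat_lit 344077) (nat_lit 13) (.e (nat_lit 1383) (nat_lit 105) (.e (nat_lit 311357) (nat_lit 28) (.e (nat_lit 344084) (nat_lit 14) (.e (nat_lit 57862) (nat_lit 256) .nil)))))) (.g (nat_lit 0) .nil .nil))) 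
(.lf (nat_lit 6655) (.g (nat_lit 1548) (.e (nat_lit 300) (nat_lit 22) (.e (nat_lit 344131) (nat_lit 26) (.e (nat_lit 557100) (nat_lit 13) (.e (nat_lit 172065) (nat_lit 3) .nil)))) .nil)))))))

noncomputable def tv092 : DT := (.nd (nat_lit 0) (.nd (nat_lit 1) (.nd (nat_lit 2) (.nd (nat_lit 3) (.nd (nat_lit 4) 
(.lf (nat_lit 6656) (.g (nat_lit 2275) (.e (nat_lit 300) (nat_lit 22) (.e (nat_lit 344131) (nat_lit 26) (.e (nat_lit 557100) (nat_lit 13) (.e (nat_lit 172067) (nat_lit 3) (.e (nat_lit 204809) (nat_lit 9) .nil))))) .nil)) 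
(.lf (nat_lit 6672) (.g (nat_lit 714) (.e (nat_lit 301) (nat_lit 22) (.e (nat_lit 344067) (nat_lit 0) (.e (nat_lit 2941) (nat_lit 184) (.e (nat_lit 426532) (nat_lit 28) (.e (nat_lit 344085) (nat_lit 15) (.e (nat_lit 123164) (nat_lit 256) .nil)))))) (.g (nat_lit 0) .nil .nil)))) (.nd (nat_lit 4) 
(.lf (nat_lit 6664) (.g (nat_lit 2270) (.e (nat_lit 300) (nat_lit 22) (.e (nat_lit 344133) (nat_lit 26) (.e (nat_lit 557105) (nat_lit 14) (.e (nat_lit 180234) (nat_lit 1) .nil)))) .nil)) 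
(.lf (nat_lit 6680) (.g (nat_lit 1800) (.e (nat_lit 301) (nat_lit 22) (.e (nat_lit 344068) (nat_lit 0) (.e (nat_lit 2857) (nat_lit 184) (.e (nat_lit 426533) (nat_lit 28) (.e (nat_lit 344085) (nat_lit 15) (.e (nat_lit 123166) (nat_lit 256) .nil)))))) (.g (nat_lit 6) .nil .nil))))) (.nd (nat_lit 3) (.nd (nat_lit 4) 
(.lf (nat_lit 6660) (.g (nat_lit 2655) (.e (nat_lit 300) (nat_lit 22) (.e (nat_lit 344133) (nat_lit 26) (.e (nat_lit 557098) (nat_lit 13) (.e (nat_lit 172065) (nat_lit 3) (.e (nat_lit 204809) (nat_lit 9) .nil))))) .nil)) 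
(.lf (nat_lit 6676) (.g (nat_lit 2487) (.e (nat_lit 301) (nat_lit 22) (.e (nat_lit 344068) (nat_lit 0) (.e (nat_lit 2856) (nat_lit 184) (.e (nat_lit 426533) (nat_lit 28) (.e (nat_lit 344085) (nat_lit 15) (.e (nat_lit 123166) (nat_lit 256) .nil)))))) (.g (nat_lit 6) .nil .nil)))) (.nd (nat_lit 4) 
(.lf (nat_lit 6668) (.g (nat_lit 766) (.e (nat_lit 301) (nat_lit 22) (.e (nat_lit 344067) (nat_lit 0) (.e (nat_lit 2939) (nat_lit 184) (.e (nat_lit 426532) (nat_lit 28) (.e (nat_lit 344085) (nat_lit 15) (.e (nat_lit 123164) (nat_lit 256) .nil)))))) (.g (nat_lit 0) .nil .nil))) 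
(.lf (nat_lit 6684) (.g (nat_lit 2178) (.e (nat_lit 301) (nat_lit 22) (.e (nat_lit 344069) (nat_lit 0) (.e (nat_lit 2857) (nat_lit 184) (.e (nat_lit 426533) (nat_lit 28) (.e (nat_lit 344085) (nat_lit 15) (.e (nat_lit 123163) (nat_lit 256) .nil)))))) (.g (nat_lit 0) .nil .nil)))))) (.nd (nat_lit 2) (.nd (nat_lit 3) (.nd (nat_lit 4) 
(.lf (nat_lit 6658) (.g (nat_lit 2644) (.e (nat_lit 300) (nat_lit 22) (.e (nat_lit 344132) (nat_lit 26) (.e (nat_lit 557100) (nat_lit 13) (.e (nat_lit 172065) (nat_lit 3) (.e (nat_lit 204809) (nat_lit 9) .nil))))) .nil)) 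
(.lf (nat_lit 6674) (.g (nat_lit 2384) (.e (nat_lit 301) (nat_lit 22) (.e (nat_lit 344068) (nat_lit 0) (.e (nat_lit 2856) (nat_lit 184) (.e (nat_lit 426533) (nat_lit 28) (.e (nat_lit 344085) (nat_lit 15) (.e (nat_lit 123164) (nat_lit 256) .nil)))))) (.g (nat_lit 5) .nil .nil)))) (.nd (nat_lit 4) 
(.lf (nat_lit 6666) (.g (nat_lit 2851) (.e (nat_lit 300) (nat_lit 22) (.e (nat_lit 344133) (nat_lit 26) (.e (nat_lit 557105) (nat_lit 14) (.e (nat_lit 180252) (nat_lit 10) (.e (nat_lit 581376) (nat_lit 0) .nil))))) .nil)) 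
(.lf (nat_lit 6682) (.g (nat_lit 2198) (.e (nat_lit 301) (nat_lit 22) (.e (nat_lit 344069) (nat_lit 0) (.e (nat_lit 2856) (nat_lit 184) (.e (nat_lit 426533) (nat_lit 28) (.e (nat_lit 344085) (nat_lit 15) (.e (nat_lit 123164) (nat_lit 256) .nil)))))) (.g (nat_lit 0) .nil .nil))))) (.nd (nat_lit 3) (.nd (nat_lit 4) 
(.lf (nat_lit 6662) (.g (nat_lit 3346) (.e (nat_lit 300) (nat_lit 22) (.e (nat_lit 344133) (nat_lit 26) (.e (nat_lit 557098) (nat_lit 13) (.e (nat_lit 172067) (nat_lit 3) (.e (nat_lit 204809) (nat_lit 9) (.e (nat_lit 426123) (nat_lit 2) (.e (nat_lit 204544) (nat_lit 0) .nil))))))) (.g (nat_lit 5) .nil .nil))) 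
(.lf (nat_lit 6678) (.g (nat_lit 1704) (.e (nat_lit 301) (nat_lit 22) (.e (nat_lit 344068) (nat_lit 0) (.e (nat_lit 2857) (nat_lit 184) (.e (nat_lit 426533) (nat_lit 28) (.e (nat_lit 344085) (nat_lit 15) (.e (nat_lit 123164) (nat_lit 256) .nil)))))) (.g (nat_lit 5) .nil .nil)))) (.nd (nat_lit 4) 
(.lf (nat_lit 6670) (.g (nat_lit 765) (.e (nat_lit 301) (nat_lit 22) (.e (nat_lit 344067) (nat_lit 0) (.e (nat_lit 2940) (nat_lit 184) (.e (nat_lit 426532) (nat_lit 28) (.e (nat_lit 344085) (nat_lit 15) (.e (nat_lit 123164) (nat_lit 256) .nil)))))) (.g (nat_lit 0) .nil .nil))) 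
(.lf (nat_lit 6686) (.g (nat_lit 2286) (.e (nat_lit 301) (nat_lit 22) (.e (nat_lit 344069) (nat_lit 0) (.e (nat_lit 2857) (nat_lit 184) (.e (nat_lit 426533) (nat_lit 28) (.e (nat_lit 344085) (nat_lit 15) (.e (nat_lit 123166) (nat_lit 256) .nil)))))) (.g (nat_lit 0) .nil .nil))))))) (.nd (nat_lit 1) (.nd (nat_lit 2) (.nd (nat_lit 3) (.nd (nat_lit 4) 
(.lf (nat_lit 6657) (.g (nat_lit 3487) (.e (nat_lit 300) (nat_lit 22) (.e (nat_lit 344131) (nat_lit 26) (.e (nat_lit 557103) (nat_lit 14) (.e (nat_lit 180244) (nat_lit 5) (.e (nat_lit 532579) (nat_lit 26) (.e (nat_lit 426123) (nat_lit 2) (.e (nat_lit 204544) (nat_lit 0) .nil))))))) (.g (nat_lit 6) .nil .nil))) 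
(.lf (nat_lit 6673) (.g (nat_lit 2373) (.e (nat_lit 301) (nat_lit 22) (.e (nat_lit 344068) (nat_lit 0) (.e (nat_lit 2856) (nat_lit 184) (.e (nat_lit 426533) (nat_lit 28) (.e (nat_lit 344085) (nat_lit 15) (.e (nat_lit 123163) (nat_lit 256) .nil)))))) (.g (nat_lit 5) .nil .nil)))) (.nd (nat_lit 4) 
(.lf (nat_lit 6665) (.g (nat_lit 3156) (.e (nat_lit 300) (nat_lit 22) (.e (nat_lit 344133) (nat_lit 26) (.e (nat_lit 557105) (nat_lit 14) (.e (nat_lit 180244) (nat_lit 5) (.e (nat_lit 532579) (nat_lit 26) .nil))))) .nil)) 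
(.lf (nat_lit 6681) (.g (nat_lit 2173) (.e (nat_lit 301) (nat_lit 22) (.e (nat_lit 344069) (nat_lit 0) (.e (nat_lit 2856) (nat_lit 184) (.e (nat_lit 426533) (nat_lit 28) (.e (nat_lit 344085) (nat_lit 15) (.e (nat_lit 123163) (nat_lit 256) .nil)))))) (.g (nat_lit 0) .nil .nil))))) (.nd (nat_lit 3) (.nd (nat_lit 4) 
(.lf (nat_lit 6661) (.g (nat_lit 2676) (.e (nat_lit 300) (nat_lit 22) (.e (nat_lit 344133) (nat_lit 26) (.e (nat_lit 557098) (nat_lit 13) (.e (nat_lit 172067) (nat_lit 3) (.e (nat_lit 204809) (nat_lit 9) .nil))))) .nil)) 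
(.lf (nat_lit 6677) (.g (nat_lit 1691) (.e (nat_lit 301) (nat_lit 22) (.e (nat_lit 344068) (nat_lit 0) (.e (nat_lit 2857) (nat_lit 184) (.e (nat_lit 426533) (nat_lit 28) (.e (nat_lit 344085) (nat_lit 15) (.e (nat_lit 123163) (nat_lit 256) .nil)))))) (.g (nat_lit 5) .nil .nil)))) (.nd (nat_lit 4) 
(.lf (nat_lit 6669) (.g (nat_lit 738) (.e (nat_lit 301) (nat_lit 22) (.e (nat_lit 344067) (nat_lit 0) (.e (nat_lit 2940) (nat_lit 184) (.e (nat_lit 426532) (nat_lit 28) (.e (nat_lit 344085) (nat_lit 15) (.e (nat_lit 123163) (nat_lit 256) .nil)))))) (.g (nat_lit 0) .nil .nil))) 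
(.lf (nat_lit 6685) (.g (nat_lit 2199) (.e (nat_lit 301) (nat_lit 22) (.e (nat_lit 344069) (nat_lit 0) (.e (nat_lit 2857) (nat_lit 184) (.e (nat_lit 426533) (nat_lit 28) (.e (nat_lit 344085) (nat_lit 15) (.e (nat_lit 123164) (nat_lit 256) .nil)))))) (.g (nat_lit 0) .nil .nil)))))) (.nd (nat_lit 2) (.nd (nat_lit 3) (.nd (nat_lit 4) 
(.lf (nat_lit 6659) (.g (nat_lit 2498) (.e (nat_lit 300) (nat_lit 22) (.e (nat_lit 344132) (nat_lit 26) (.e (nat_lit 557100) (nat_lit 13) (.e (nat_lit 172067) (nat_lit 3) (.e (nat_lit 204809) (nat_lit 9) .nil))))) .nil)) 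
(.lf (nat_lit 6675) (.g (nat_lit 2484) (.e (nat_lit 301) (nat_lit 22) (.e (nat_lit 344068) (nat_lit 0) (.e (nat_lit 2856) (nat_lit 184) (.e (nat_lit 426533) (nat_lit 28) (.e (nat_lit 344085) (nat_lit 15) (.e (nat_lit 123165) (nat_lit 256) .nil)))))) (.g (nat_lit 6) .nil .nil)))) (.nd (nat_lit 4) 
(.lf (nat_lit 6667) (.g (nat_lit 811) (.e (nat_lit 301) (nat_lit 22) (.e (nat_lit 344067) (nat_lit 0) (.e (nat_lit 2936) (nat_lit 184) (.e (nat_lit 426532) (nat_lit 28) (.e (nat_lit 344085) (nat_lit 15) (.e (nat_lit 123164) (nat_lit 256) .nil)))))) (.g (nat_lit 0) .nil .nil))) 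
(.lf (nat_lit 6683) (.g (nat_lit 2289) (.e (nat_lit 301) (nat_lit 22) (.e (nat_lit 344069) (nat_lit 0) (.e (nat_lit 2856) (nat_lit 184) (.e (nat_lit 426533) (nat_lit 28) (.e (nat_lit 344085) (nat_lit 15) (.e (nat_lit 123166) (nat_lit 256) .nil)))))) (.g (nat_lit 0) .nil .nil))))) (.nd (nat_lit 3) (.nd (nat_lit 4) 
(.lf (nat_lit 6663) (.g (nat_lit 783) (.e (nat_lit 300) (nat_lit 22) (.e (nat_lit 344133) (nat_lit 26) (.e (nat_lit 557105) (nat_lit 14) .nil))) .nil)) 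
(.lf (nat_lit 6679) (.g (nat_lit 1806) (.e (nat_lit 301) (nat_lit 22) (.e (nat_lit 344068) (nat_lit 0) (.e (nat_lit 2857) (nat_lit 184) (.e (nat_lit 426533) (nat_lit 28) (.e (nat_lit 344085) (nat_lit 15) (.e (nat_lit 123165) (nat_lit 256) .nil)))))) (.g (nat_lit 6) .nil .nil)))) (.nd (nat_lit 4) 
(.lf (nat_lit 6671) (.g (nat_lit 686) (.e (nat_lit 301) (nat_lit 22) (.e (nat_lit 344067) (nat_lit 0) (.e (nat_lit 2941) (nat_lit 184) (.e (nat_lit 426532) (nat_lit 28) (.e (nat_lit 344085) (nat_lit 15) (.e (nat_lit 123163) (nat_lit 256) .nil)))))) (.g (nat_lit 0) .nil .nil))) 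
(.lf (nat_lit 6687) (.g (nat_lit 1022) (.e (nat_lit 301) (nat_lit 22) (.e (nat_lit 352000) (nat_lit 5) (.e (nat_lit 180271) (nat_lit 26) (.e (nat_lit 704725) (nat_lit 10) (.e (nat_lit 8497) (nat_lit 182) (.e (nat_lit 123166) (nat_lit 256) .nil)))))) (.g (nat_lit 5) .nil .nil))))))))

noncomputable def tv093 : DT := (.nd (nat_lit 0) (.nd (nat_lit 1) (.nd (nat_lit 2) (.nd (nat_lit 3) (.nd (nat_lit 4) 
(.lf (nat_lit 6688) (.g (nat_lit 679) (.e (nat_lit 301) (nat_lit 22) (.e (nat_lit 352000) (nat_lit 5) (.e (nat_lit 180271) (nat_lit 26) (.e (nat_lit 704726) (nat_lit 10) (.e (nat_lit 8497) (nat_lit 182) (.e (nat_lit 123166) (nat_lit 256) .nil)))))) (.g (nat_lit 5) .nil .nil))) 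
(.lf (nat_lit 6704) (.g (nat_lit 850) (.e (nat_lit 301) (nat_lit 22) (.e (nat_lit 344077) (nat_lit 13) (.e (nat_lit 1383) (nat_lit 105) (.e (nat_lit 311357) (nat_lit 28) (.e (nat_lit 344085) (nat_lit 15) (.e (nat_lit 123166) (nat_lit 256) .nil)))))) (.g (nat_lit 0) .nil .nil)))) (.nd (nat_lit 4) 
(.lf (nat_lit 6696) (.g (nat_lit 835) (.e (nat_lit 301) (nat_lit 22) (.e (nat_lit 344075) (nat_lit 13) (.e (nat_lit 1376) (nat_lit 104) (.e (nat_lit 303154) (nat_lit 28) (.e (nat_lit 344085) (nat_lit 15) (.e (nat_lit 123166) (nat_lit 256) .nil)))))) (.g (nat_lit 0) .nil .nil))) 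
(.lf (nat_lit 6712) (.g (nat_lit 870) (.e (nat_lit 301) (nat_lit 22) (.e (nat_lit 344084) (nat_lit 14) (.e (nat_lit 57862) (nat_lit 256) (.e (nat_lit 300) (nat_lit 22) (.e (nat_lit 344085) (nat_lit 15) (.e (nat_lit 123166) (nat_lit 256) .nil)))))) (.g (nat_lit 0) .nil .nil))))) (.nd (nat_lit 3) (.nd (nat_lit 4) 
(.lf (nat_lit 6692) (.g (nat_lit 281) (.e (nat_lit 301) (nat_lit 22) (.e (nat_lit 344074) (nat_lit 13) (.e (nat_lit 1376) (nat_lit 104) (.e (nat_lit 303154) (nat_lit 28) (.e (nat_lit 344085) (nat_lit 15) .nil))))) .nil)) 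
(.lf (nat_lit 6708) (.g (nat_lit 921) (.e (nat_lit 301) (nat_lit 22) (.e (nat_lit 344077) (nat_lit 13) (.e (nat_lit 1385) (nat_lit 105) (.e (nat_lit 311357) (nat_lit 28) (.e (nat_lit 344085) (nat_lit 15) (.e (nat_lit 123164) (nat_lit 256) .nil)))))) (.g (nat_lit 0) .nil .nil)))) (.nd (nat_lit 4) 
(.lf (nat_lit 6700) (.g (nat_lit 731) (.e (nat_lit 301) (nat_lit 22) (.e (nat_lit 344075) (nat_lit 13) (.e (nat_lit 1379) (nat_lit 104) (.e (nat_lit 303154) (nat_lit 28) (.e (nat_lit 344085) (nat_lit 15) (.e (nat_lit 123164) (nat_lit 256) .nil)))))) (.g (nat_lit 0) .nil .nil))) 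
(.lf (nat_lit 6716) (.g (nat_lit 1009) (.e (nat_lit 301) (nat_lit 22) (.e (nat_lit 344085) (nat_lit 15) (.e (nat_lit 123163) (nat_lit 256) (.e (nat_lit 301) (nat_lit 22) (.e (nat_lit 344085) (nat_lit 15) (.e (nat_lit 123164) (nat_lit 256) .nil)))))) (.g (nat_lit 0) .nil .nil)))))) (.nd (nat_lit 2) (.nd (nat_lit 3) (.nd (nat_lit 4) 
(.lf (nat_lit 6690) (.g (nat_lit 874) (.e (nat_lit 301) (nat_lit 22) (.e (nat_lit 344074) (nat_lit 13) (.e (nat_lit 1374) (nat_lit 104) (.e (nat_lit 303154) (nat_lit 28) (.e (nat_lit 344085) (nat_lit 15) (.e (nat_lit 123165) (nat_lit 256) .nil)))))) (.g (nat_lit 4) .nil .nil))) 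
(.lf (nat_lit 6706) (.g (nat_lit 888) (.e (nat_lit 301) (nat_lit 22) (.e (nat_lit 344077) (nat_lit 13) (.e (nat_lit 1384) (nat_lit 105) (.e (nat_lit 311357) (nat_lit 28) (.e (nat_lit 344085) (nat_lit 15) (.e (nat_lit 123166) (nat_lit 256) .nil)))))) (.g (nat_lit 0) .nil .nil)))) (.nd (nat_lit 4) 
(.lf (nat_lit 6698) (.g (nat_lit 796) (.e (nat_lit 301) (nat_lit 22) (.e (nat_lit 344075) (nat_lit 13) (.e (nat_lit 1378) (nat_lit 104) (.e (nat_lit 303154) (nat_lit 28) (.e (nat_lit 344085) (nat_lit 15) (.e (nat_lit 123164) (nat_lit 256) .nil)))))) (.g (nat_lit 0) .nil .nil))) 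
(.lf (nat_lit 6714) (.g (nat_lit 843) (.e (nat_lit 301) (nat_lit 22) (.e (nat_lit 344084) (nat_lit 14) (.e (nat_lit 57865) (nat_lit 256) (.e (nat_lit 300) (nat_lit 22) (.e (nat_lit 344085) (nat_lit 15) (.e (nat_lit 123166) (nat_lit 256) .nil)))))) (.g (nat_lit 0) .nil .nil))))) (.nd (nat_lit 3) (.nd (nat_lit 4) 
(.lf (nat_lit 6694) (.g (nat_lit 1347) (.e (nat_lit 301) (nat_lit 22) (.e (nat_lit 344075) (nat_lit 13) (.e (nat_lit 1374) (nat_lit 104) (.e (nat_lit 303154) (nat_lit 28) (.e (nat_lit 344085) (nat_lit 15) (.e (nat_lit 123166) (nat_lit 256) .nil)))))) (.g (nat_lit 0) .nil .nil))) 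
(.lf (nat_lit 6710) (.g (nat_lit 1236) (.e (nat_lit 301) (nat_lit 22) (.e (nat_lit 344077) (nat_lit 13) (.e (nat_lit 1386) (nat_lit 105) (.e (nat_lit 311357) (nat_lit 28) (.e (nat_lit 344085) (nat_lit 15) (.e (nat_lit 123164) (nat_lit 256) .nil)))))) (.g (nat_lit 0) .nil .nil)))) (.nd (nat_lit 4) 
(.lf (nat_lit 6702) (.g (nat_lit 745) (.e (nat_lit 301) (nat_lit 22) (.e (nat_lit 344077) (nat_lit 13) (.e (nat_lit 1383) (nat_lit 105) (.e (nat_lit 311357) (nat_lit 28) (.e (nat_lit 344085) (nat_lit 15) (.e (nat_lit 123163) (nat_lit 256) .nil)))))) (.g (nat_lit 0) .nil .nil))) 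
(.lf (nat_lit 6718) (.g (nat_lit 1036) (.e (nat_lit 301) (nat_lit 22) (.e (nat_lit 344085) (nat_lit 15) (.e (nat_lit 123164) (nat_lit 256) (.e (nat_lit 301) (nat_lit 22) (.e (nat_lit 344085) (nat_lit 15) (.e (nat_lit 123164) (nat_lit 256) .nil)))))) (.g (nat_lit 0) .nil .nil))))))) (.nd (nat_lit 1) (.nd (nat_lit 2) (.nd (nat_lit 3) (.nd (nat_lit 4) 
(.lf (nat_lit 6689) (.g (nat_lit 808) (.e (nat_lit 301) (nat_lit 22) (.e (nat_lit 344074) (nat_lit 13) (.e (nat_lit 1374) (nat_lit 104) (.e (nat_lit 303154) (nat_lit 28) (.e (nat_lit 344085) (nat_lit 15) .nil))))) .nil)) 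
(.lf (nat_lit 6705) (.g (nat_lit 811) (.e (nat_lit 301) (nat_lit 22) (.e (nat_lit 344077) (nat_lit 13) (.e (nat_lit 1384) (nat_lit 105) (.e (nat_lit 311357) (nat_lit 28) (.e (nat_lit 344085) (nat_lit 15) (.e (nat_lit 123164) (nat_lit 256) .nil)))))) (.g (nat_lit 0) .nil .nil)))) (.nd (nat_lit 4) 
(.lf (nat_lit 6697) (.g (nat_lit 772) (.e (nat_lit 301) (nat_lit 22) (.e (nat_lit 344075) (nat_lit 13) (.e (nat_lit 1378) (nat_lit 104) (.e (nat_lit 303154) (nat_lit 28) (.e (nat_lit 344085) (nat_lit 15) (.e (nat_lit 123163) (nat_lit 256) .nil)))))) (.g (nat_lit 0) .nil .nil))) 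
(.lf (nat_lit 6713) (.g (nat_lit 894) (.e (nat_lit 301) (nat_lit 22) (.e (nat_lit 344084) (nat_lit 14) (.e (nat_lit 57864) (nat_lit 256) (.e (nat_lit 300) (nat_lit 22) (.e (nat_lit 344085) (nat_lit 15) (.e (nat_lit 123166) (nat_lit 256) .nil)))))) (.g (nat_lit 0) .nil .nil))))) (.nd (nat_lit 3) (.nd (nat_lit 4) 
(.lf (nat_lit 6693) (.g (nat_lit 1255) (.e (nat_lit 301) (nat_lit 22) (.e (nat_lit 344075) (nat_lit 13) (.e (nat_lit 1374) (nat_lit 104) (.e (nat_lit 303154) (nat_lit 28) (.e (nat_lit 344085) (nat_lit 15) (.e (nat_lit 123164) (nat_lit 256) .nil)))))) (.g (nat_lit 0) .nil .nil))) 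
(.lf (nat_lit 6709) (.g (nat_lit 1010) (.e (nat_lit 301) (nat_lit 22) (.e (nat_lit 344077) (nat_lit 13) (.e (nat_lit 1385) (nat_lit 105) (.e (nat_lit 311357) (nat_lit 28) (.e (nat_lit 344085) (nat_lit 15) (.e (nat_lit 123166) (nat_lit 256) .nil)))))) (.g (nat_lit 0) .nil .nil)))) (.nd (nat_lit 4) 
(.lf (nat_lit 6701) (.g (nat_lit 824) (.e (nat_lit 301) (nat_lit 22) (.e (nat_lit 344075) (nat_lit 13) (.e (nat_lit 1379) (nat_lit 104) (.e (nat_lit 303154) (nat_lit 28) (.e (nat_lit 344085) (nat_lit 15) (.e (nat_lit 123166) (nat_lit 256) .nil)))))) (.g (nat_lit 0) .nil .nil))) 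
(.lf (nat_lit 6717) (.g (nat_lit 1091) (.e (nat_lit 301) (nat_lit 22) (.e (nat_lit 344085) (nat_lit 15) (.e (nat_lit 123163) (nat_lit 256) (.e (nat_lit 301) (nat_lit 22) (.e (nat_lit 344085) (nat_lit 15) (.e (nat_lit 123166) (nat_lit 256) .nil)))))) (.g (nat_lit 0) .nil .nil)))))) (.nd (nat_lit 2) (.nd (nat_lit 3) (.nd (nat_lit 4) 
(.lf (nat_lit 6691) (.g (nat_lit 850) (.e (nat_lit 301) (nat_lit 22) (.e (nat_lit 344074) (nat_lit 13) (.e (nat_lit 1374) (nat_lit 104) (.e (nat_lit 303154) (nat_lit 28) (.e (nat_lit 344085) (nat_lit 15) (.e (nat_lit 123166) (nat_lit 256) .nil)))))) (.g (nat_lit 4) .nil .nil))) 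
(.lf (nat_lit 6707) (.g (nat_lit 893) (.e (nat_lit 301) (nat_lit 22) (.e (nat_lit 344077) (nat_lit 13) (.e (nat_lit 1385) (nat_lit 105) (.e (nat_lit 311357) (nat_lit 28) (.e (nat_lit 344085) (nat_lit 15) (.e (nat_lit 123163) (nat_lit 256) .nil)))))) (.g (nat_lit 0) .nil .nil)))) (.nd (nat_lit 4) 
(.lf (nat_lit 6699) (.g (nat_lit 882) (.e (nat_lit 301) (nat_lit 22) (.e (nat_lit 344075) (nat_lit 13) (.e (nat_lit 1378) (nat_lit 104) (.e (nat_lit 303154) (nat_lit 28) (.e (nat_lit 344085) (nat_lit 15) (.e (nat_lit 123166) (nat_lit 256) .nil)))))) (.g (nat_lit 0) .nil .nil))) 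
(.lf (nat_lit 6715) (.g (nat_lit 984) (.e (nat_lit 301) (nat_lit 22) (.e (nat_lit 344085) (nat_lit 15) (.e (nat_lit 123163) (nat_lit 256) (.e (nat_lit 301) (nat_lit 22) (.e (nat_lit 344085) (nat_lit 15) (.e (nat_lit 123163) (nat_lit 256) .nil)))))) (.g (nat_lit 0) .nil .nil))))) (.nd (nat_lit 3) (.nd (nat_lit 4) 
(.lf (nat_lit 6695) (.g (nat_lit 741) (.e (nat_lit 301) (nat_lit 22) (.e (nat_lit 344075) (nat_lit 13) (.e (nat_lit 1376) (nat_lit 104) (.e (nat_lit 303154) (nat_lit 28) (.e (nat_lit 344085) (nat_lit 15) (.e (nat_lit 123164) (nat_lit 256) .nil)))))) (.g (nat_lit 0) .nil .nil))) 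
(.lf (nat_lit 6711) (.g (nat_lit 1334) (.e (nat_lit 301) (nat_lit 22) (.e (nat_lit 344077) (nat_lit 13) (.e (nat_lit 1386) (nat_lit 105) (.e (nat_lit 311357) (nat_lit 28) (.e (nat_lit 344085) (nat_lit 15) (.e (nat_lit 123166) (nat_lit 256) .nil)))))) (.g (nat_lit 0) .nil .nil)))) (.nd (nat_lit 4) 
(.lf (nat_lit 6703) (.g (nat_lit 773) (.e (nat_lit 301) (nat_lit 22) (.e (nat_lit 344077) (nat_lit 13) (.e (nat_lit 1383) (nat_lit 105) (.e (nat_lit 311357) (nat_lit 28) (.e (nat_lit 344085) (nat_lit 15) (.e (nat_lit 123164) (nat_lit 256) .nil)))))) (.g (nat_lit 0) .nil .nil))) 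
(.lf (nat_lit 6719) (.g (nat_lit 1117) (.e (nat_lit 301) (nat_lit 22) (.e (nat_lit 344085) (nat_lit 15) (.e (nat_lit 123164) (nat_lit 256) (.e (nat_lit 301) (nat_lit 22) (.e (nat_lit 344085) (nat_lit 15) (.e (nat_lit 123166) (nat_lit 256) .nil)))))) (.g (nat_lit 0) .nil .nil))))))))

noncomputable def tv094 : DT := (.nd (nat_lit 0) (.nd (nat_lit 1) (.nd (nat_lit 2) (.nd (nat_lit 3) (.nd (nat_lit 4) (.nd (nat_lit 5) 
(.lf (nat_lit 6720) (.g (nat_lit 1219) (.e (nat_lit 301) (nat_lit 22) (.e (nat_lit 344085) (nat_lit 15) (.e (nat_lit 123165) (nat_lit 256) (.e (nat_lit 301) (nat_lit 22) (.e (nat_lit 344085) (nat_lit 15) (.e (nat_lit 123166) (nat_lit 256) .nil)))))) (.g (nat_lit 0) .nil .nil))) 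
(.lf (nat_lit 6752) (.g (nat_lit 3241) (.e (nat_lit 303) (nat_lit 22) (.e (nat_lit 344117) (nat_lit 21) (.e (nat_lit 516166) (nat_lit 12) (.e (nat_lit 450587) (nat_lit 10) (.e (nat_lit 573478) (nat_lit 12) .nil))))) .nil))) (.nd (nat_lit 5) 
(.lf (nat_lit 6736) (.g (nat_lit 2269) (.e (nat_lit 302) (nat_lit 22) (.e (nat_lit 344133) (nat_lit 26) (.e (nat_lit 557105) (nat_lit 14) (.e (nat_lit 180237) (nat_lit 1) .nil)))) .nil)) 
(.lf (nat_lit 6768) (.g (nat_lit 2828) (.e (nat_lit 303) (nat_lit 22) (.e (nat_lit 344133) (nat_lit 26) (.e (nat_lit 557105) (nat_lit 14) (.e (nat_lit 180244) (nat_lit 5) (.e (nat_lit 532579) (nat_lit 26) .nil))))) .nil)))) (.nd (nat_lit 4) (.nd (nat_lit 5) 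
(.lf (nat_lit 6728) (.g (nat_lit 4128) (.e (nat_lit 301) (nat_lit 22) (.e (nat_lit 344133) (nat_lit 26) (.e (nat_lit 557103) (nat_lit 14) (.e (nat_lit 180244) (nat_lit 5) (.e (nat_lit 532579) (nat_lit 26) (.e (nat_lit 426123) (nat_lit 2) (.e (nat_lit 204544) (nat_lit 0) .nil))))))) (.g (nat_lit 6) .nil .nil))) 
(.lf (nat_lit 6760) (.g (nat_lit 3003) (.e (nat_lit 303) (nat_lit 22) (.e (nat_lit 344130) (nat_lit 26) (.e (nat_lit 557097) (nat_lit 13) (.e (nat_lit 172067) (nat_lit 3) (.e (nat_lit 204809) (nat_lit 9) (.e (nat_lit 426123) (nat_lit 2) (.e (nat_lit 204544) (nat_lit 0) .nil))))))) (.g (nat_lit 5) .nil .nil)))) (.nd (nat_lit 5) 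
(.lf (nat_lit 6744) (.g (nat_lit 2155) (.e (nat_lit 303) (nat_lit 22) (.e (nat_lit 344117) (nat_lit 21) (.e (nat_lit 516163) (nat_lit 11) (.e (nat_lit 450304) (nat_lit 3) .nil)))) .nil)) 
(.lf (nat_lit 6776) (.g (nat_lit 3221) (.e (nat_lit 304) (nat_lit 22) (.e (nat_lit 344117) (nat_lit 21) (.e (nat_lit 516151) (nat_lit 9) (.e (nat_lit 426286) (nat_lit 10) (.e (nat_lit 434248) (nat_lit 28) .nil))))) .nil))))) (.nd (nat_lit 3) (.nd (nat_lit 4) (.nd (nat_lit 5) 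
(.lf (nat_lit 6724) (.g (nat_lit 2440) (.e (nat_lit 301) (nat_lit 22) (.e (nat_lit 344131) (nat_lit 26) (.e (nat_lit 557100) (nat_lit 13) (.e (nat_lit 172065) (nat_lit 3) (.e (nat_lit 204809) (nat_lit 9) (.e (nat_lit 426123) (nat_lit 2) (.e (nat_lit 204544) (nat_lit 0) .nil))))))) (.g (nat_lit 4) .nil .nil))) 
(.lf (nat_lit 6756) (.g (nat_lit 2019) (.e (nat_lit 303) (nat_lit 22) (.e (nat_lit 344117) (nat_lit 21) (.e (nat_lit 516175) (nat_lit 14) (.e (nat_lit 474880) (nat_lit 3) .nil)))) .nil))) (.nd (nat_lit 5) 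
(.lf (nat_lit 6740) (.g (nat_lit 3432) (.e (nat_lit 303) (nat_lit 22) (.e (nat_lit 344117) (nat_lit 21) (.e (nat_lit 516151) (nat_lit 9) (.e (nat_lit 426286) (nat_lit 10) (.e (nat_lit 434247) (nat_lit 28) (.e (nat_lit 573477) (nat_lit 12) (.e (nat_lit 57573) (nat_lit 55) (.e (nat_lit 778339) (nat_lit 9) .nil)))))))) (.g (nat_lit 4) .nil .nil))) 
(.lf (nat_lit 6772) (.g (nat_lit 4018) (.e (nat_lit 304) (nat_lit 22) (.e (nat_lit 344117) (nat_lit 21) (.e (nat_lit 516151) (nat_lit 9) (.e (nat_lit 426286) (nat_lit 10) (.e (nat_lit 434245) (nat_lit 28) (.e (nat_lit 573474) (nat_lit 12) (.e (nat_lit 57574) (nat_lit 55) (.e (nat_lit 778359) (nat_lit 9) .nil)))))))) (.g (nat_lit 5) .nil .nil))))) (.nd (nat_lit 4) (.nd (nat_lit 5) 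
(.lf (nat_lit 6732) (.g (nat_lit 1909) (.e (nat_lit 301) (nat_lit 22) (.e (nat_lit 344133) (nat_lit 26) (.e (nat_lit 557105) (nat_lit 14) (.e (nat_lit 180265) (nat_lit 21) .nil)))) .nil)) 
(.lf (nat_lit 6764) (.g (nat_lit 2720) (.e (nat_lit 303) (nat_lit 22) (.e (nat_lit 344133) (nat_lit 26) (.e (nat_lit 557098) (nat_lit 13) (.e (nat_lit 172065) (nat_lit 3) (.e (nat_lit 204809) (nat_lit 9) .nil))))) .nil))) (.nd (nat_lit 5) 
(.lf (nat_lit 6748) (.g (nat_lit 3210) (.e (nat_lit 303) (nat_lit 22) (.e (nat_lit 344117) (nat_lit 21) (.e (nat_lit 516165) (nat_lit 12) (.e (nat_lit 450586) (nat_lit 10) (.e (nat_lit 573477) (nat_lit 12) .nil))))) .nil)) 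
(.lf (nat_lit 6780) (.g (nat_lit 3168) (.e (nat_lit 304) (nat_lit 22) (.e (nat_lit 344117) (nat_lit 21) (.e (nat_lit 516165) (nat_lit 12) (.e (nat_lit 450587) (nat_lit 10) (.e (nat_lit 573478) (nat_lit 12) .nil))))) .nil)))))) (.nd (nat_lit 2) (.nd (nat_lit 3) (.nd (nat_lit 4) (.nd (nat_lit 5) 
(.lf (nat_lit 6722) (.g (nat_lit 1381) (.e (nat_lit 301) (nat_lit 22) (.e (nat_lit 344119) (nat_lit 21) (.e (nat_lit 516163) (nat_lit 11) (.e (nat_lit 450304) (nat_lit 3) .nil)))) .nil)) 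
(.lf (nat_lit 6754) (.g (nat_lit 3472) (.e (nat_lit 303) (nat_lit 22) (.e (nat_lit 344117) (nat_lit 21) (.e (nat_lit 516166) (nat_lit 12) (.e (nat_lit 450588) (nat_lit 10) (.e (nat_lit 573475) (nat_lit 12) .nil))))) .nil))) (.nd (nat_lit 5) 
(.lf (nat_lit 6738) (.g (nat_lit 3319) (.e (nat_lit 303) (nat_lit 22) (.e (nat_lit 344117) (nat_lit 21) (.e (nat_lit 516151) (nat_lit 9) (.e (nat_lit 426286) (nat_lit 10) (.e (nat_lit 434245) (nat_lit 28) .nil))))) .nil)) 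
(.lf (nat_lit 6770) (.g (nat_lit 2440) (.e (nat_lit 304) (nat_lit 22) (.e (nat_lit 344117) (nat_lit 21) (.e (nat_lit 516151) (nat_lit 9) (.e (nat_lit 426286) (nat_lit 10) .nil)))) .nil)))) (.nd (nat_lit 4) (.nd (nat_lit 5) 
(.lf (nat_lit 6730) (.g (nat_lit 3158) (.e (nat_lit 301) (nat_lit 22) (.e (nat_lit 344133) (nat_lit 26) (.e (nat_lit 557105) (nat_lit 14) (.e (nat_lit 180244) (nat_lit 5) (.e (nat_lit 532579) (nat_lit 26) .nil))))) .nil)) 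
(.lf (nat_lit 6762) (.g (nat_lit 2644) (.e (nat_lit 303) (nat_lit 22) (.e (nat_lit 344132) (nat_lit 26) (.e (nat_lit 557100) (nat_lit 13) (.e (nat_lit 172065) (nat_lit 3) (.e (nat_lit 204809) (nat_lit 9) .nil))))) .nil))) (.nd (nat_lit 5) 
(.lf (nat_lit 6746) (.g (nat_lit 3164) (.e (nat_lit 303) (nat_lit 22) (.e (nat_lit 344117) (nat_lit 21) (.e (nat_lit 516165) (nat_lit 12) (.e (nat_lit 450586) (nat_lit 10) (.e (nat_lit 573475) (nat_lit 12) .nil))))) .nil)) 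
(.lf (nat_lit 6778) (.g (nat_lit 2381) (.e (nat_lit 304) (nat_lit 22) (.e (nat_lit 344117) (nat_lit 21) (.e (nat_lit 516165) (nat_lit 12) (.e (nat_lit 450586) (nat_lit 10) (.e (nat_lit 573477) (nat_lit 12) .nil))))) .nil))))) (.nd (nat_lit 3) (.nd (nat_lit 4) (.nd (nat_lit 5) 
(.lf (nat_lit 6726) (.g (nat_lit 2722) (.e (nat_lit 301) (nat_lit 22) (.e (nat_lit 344133) (nat_lit 26) (.e (nat_lit 557098) (nat_lit 13) (.e (nat_lit 172065) (nat_lit 3) (.e (nat_lit 204809) (nat_lit 9) .nil))))) .nil)) 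
(.lf (nat_lit 6758) (.g (nat_lit 3048) (.e (nat_lit 303) (nat_lit 22) (.e (nat_lit 344129) (nat_lit 26) (.e (nat_lit 557103) (nat_lit 14) (.e (nat_lit 180244) (nat_lit 5) (.e (nat_lit 532579) (nat_lit 26) .nil))))) .nil))) (.nd (nat_lit 5) 
(.lf (nat_lit 6742) (.g (nat_lit 3392) (.e (nat_lit 303) (nat_lit 22) (.e (nat_lit 344117) (nat_lit 21) (.e (nat_lit 516151) (nat_lit 9) (.e (nat_lit 426286) (nat_lit 10) (.e (nat_lit 434248) (nat_lit 28) .nil))))) .nil)) 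
(.lf (nat_lit 6774) (.g (nat_lit 3414) (.e (nat_lit 304) (nat_lit 22) (.e (nat_lit 344117) (nat_lit 21) (.e (nat_lit 516151) (nat_lit 9) (.e (nat_lit 426286) (nat_lit 10) (.e (nat_lit 434247) (nat_lit 28) (.e (nat_lit 573477) (nat_lit 12) (.e (nat_lit 57574) (nat_lit 55) (.e (nat_lit 778359) (nat_lit 9) .nil)))))))) (.g (nat_lit 4) .nil .nil))))) (.nd (nat_lit 4) (.nd (nat_lit 5) 
(.lf (nat_lit 6734) (.g (nat_lit 1912) (.e (nat_lit 302) (nat_lit 22) (.e (nat_lit 344133) (nat_lit 26) (.e (nat_lit 557098) (nat_lit 13) (.e (nat_lit 172066) (nat_lit 3) .nil)))) .nil)) 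
(.lf (nat_lit 6766) (.g (nat_lit 3935) (.e (nat_lit 303) (nat_lit 22) (.e (nat_lit 344133) (nat_lit 26) (.e (nat_lit 557103) (nat_lit 14) (.e (nat_lit 180244) (nat_lit 5) (.e (nat_lit 532579) (nat_lit 26) (.e (nat_lit 426123) (nat_lit 2) (.e (nat_lit 204544) (nat_lit 0) .nil))))))) (.g (nat_lit 6) .nil .nil)))) (.nd (nat_lit 5) 
(.lf (nat_lit 6750) (.g (nat_lit 4219) (.e (nat_lit 303) (nat_lit 22) (.e (nat_lit 344117) (nat_lit 21) (.e (nat_lit 516165) (nat_lit 12) (.e (nat_lit 450588) (nat_lit 10) (.e (nat_lit 573475) (nat_lit 12) .nil))))) .nil)) 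
(.lf (nat_lit 6782) (.g (nat_lit 2345) (.e (nat_lit 304) (nat_lit 22) (.e (nat_lit 344117) (nat_lit 21) (.e (nat_lit 516166) (nat_lit 12) (.e (nat_lit 450587) (nat_lit 10) (.e (nat_lit 573477) (nat_lit 12) .nil))))) .nil))))))) (.nd (nat_lit 1) (.nd (nat_lit 2) (.nd (nat_lit 3) (.nd (nat_lit 4) (.nd (nat_lit 5) 
(.lf (nat_lit 6721) (.g (nat_lit 1210) (.e (nat_lit 301) (nat_lit 22) (.e (nat_lit 344085) (nat_lit 15) (.e (nat_lit 123166) (nat_lit 256) (.e (nat_lit 301) (nat_lit 22) (.e (nat_lit 344085) (nat_lit 15) (.e (nat_lit 123166) (nat_lit 256) .nil)))))) (.g (nat_lit 0) .nil .nil))) 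
(.lf (nat_lit 6753) (.g (nat_lit 3424) (.e (nat_lit 303) (nat_lit 22) (.e (nat_lit 344117) (nat_lit 21) (.e (nat_lit 516166) (nat_lit 12) (.e (nat_lit 450588) (nat_lit 10) (.e (nat_lit 573473) (nat_lit 12) .nil))))) .nil))) (.nd (nat_lit 5) 
(.lf (nat_lit 6737) (.g (nat_lit 2588) (.e (nat_lit 303) (nat_lit 22) (.e (nat_lit 344117) (nat_lit 21) (.e (nat_lit 516151) (nat_lit 9) (.e (nat_lit 426286) (nat_lit 10) .nil)))) .nil)) 
(.lf (nat_lit 6769) (.g (nat_lit 4218) (.e (nat_lit 304) (nat_lit 22) (.e (nat_lit 344117) (nat_lit 21) (.e (nat_lit 516151) (nat_lit 9) (.e (nat_lit 426285) (nat_lit 10) .nil)))) .nil)))) (.nd (nat_lit 4) (.nd (nat_lit 5) 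
(.lf (nat_lit 6729) (.g (nat_lit 2273) (.e (nat_lit 301) (nat_lit 22) (.e (nat_lit 344133) (nat_lit 26) (.e (nat_lit 557105) (nat_lit 14) (.e (nat_lit 180234) (nat_lit 1) .nil)))) .nil)) 
(.lf (nat_lit 6761) (.g (nat_lit 3680) (.e (nat_lit 303) (nat_lit 22) (.e (nat_lit 344130) (nat_lit 26) (.e (nat_lit 557103) (nat_lit 14) (.e (nat_lit 180244) (nat_lit 5) (.e (nat_lit 532579) (nat_lit 26) (.e (nat_lit 426123) (nat_lit 2) (.e (nat_lit 204544) (nat_lit 0) .nil))))))) (.g (nat_lit 6) .nil .nil)))) (.nd (nat_lit 5) 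
(.lf (nat_lit 6745) (.g (nat_lit 2395) (.e (nat_lit 303) (nat_lit 22) (.e (nat_lit 344117) (nat_lit 21) (.e (nat_lit 516165) (nat_lit 12) (.e (nat_lit 450586) (nat_lit 10) .nil)))) .nil)) 
(.lf (nat_lit 6777) (.g (nat_lit 1566) (.e (nat_lit 304) (nat_lit 22) (.e (nat_lit 344117) (nat_lit 21) (.e (nat_lit 516165) (nat_lit 12) (.e (nat_lit 450586) (nat_lit 10) .nil)))) .nil))))) (.nd (nat_lit 3) (.nd (nat_lit 4) (.nd (nat_lit 5) 
(.lf (nat_lit 6725) (.g (nat_lit 3439) (.e (nat_lit 301) (nat_lit 22) (.e (nat_lit 344131) (nat_lit 26) (.e (nat_lit 557103) (nat_lit 14) (.e (nat_lit 180244) (nat_lit 5) (.e (nat_lit 532579) (nat_lit 26) (.e (nat_lit 426123) (nat_lit 2) (.e (nat_lit 204544) (nat_lit 0) .nil))))))) (.g (nat_lit 6) .nil .nil))) 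
(.lf (nat_lit 6757) (.g (nat_lit 2154) (.e (nat_lit 303) (nat_lit 22) (.e (nat_lit 344129) (nat_lit 26) (.e (nat_lit 557097) (nat_lit 13) (.e (nat_lit 172067) (nat_lit 3) .nil)))) .nil))) (.nd (nat_lit 5) 
(.lf (nat_lit 6741) (.g (nat_lit 3474) (.e (nat_lit 303) (nat_lit 22) (.e (nat_lit 344117) (nat_lit 21) (.e (nat_lit 516151) (nat_lit 9) (.e (nat_lit 426286) (nat_lit 10) (.e (nat_lit 434247) (nat_lit 28) (.e (nat_lit 573478) (nat_lit 12) (.e (nat_lit 57573) (nat_lit 55) (.e (nat_lit 778339) (nat_lit 9) .nil)))))))) (.g (nat_lit 4) .nil .nil))) 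
(.lf (nat_lit 6773) (.g (nat_lit 3253) (.e (nat_lit 304) (nat_lit 22) (.e (nat_lit 344117) (nat_lit 21) (.e (nat_lit 516151) (nat_lit 9) (.e (nat_lit 426286) (nat_lit 10) (.e (nat_lit 434247) (nat_lit 28) .nil))))) .nil)))) (.nd (nat_lit 4) (.nd (nat_lit 5) 
(.lf (nat_lit 6733) (.g (nat_lit 471) (.e (nat_lit 302) (nat_lit 22) (.e (nat_lit 344068) (nat_lit 0) (.e (nat_lit 2856) (nat_lit 184) .nil))) .nil)) 
(.lf (nat_lit 6765) (.g (nat_lit 2420) (.e (nat_lit 303) (nat_lit 22) (.e (nat_lit 344133) (nat_lit 26) (.e (nat_lit 557098) (nat_lit 13) (.e (nat_lit 172066) (nat_lit 3) (.e (nat_lit 204809) (nat_lit 9) .nil))))) .nil))) (.nd (nat_lit 5) 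
(.lf (nat_lit 6749) (.g (nat_lit 3144) (.e (nat_lit 303) (nat_lit 22) (.e (nat_lit 344117) (nat_lit 21) (.e (nat_lit 516165) (nat_lit 12) (.e (nat_lit 450586) (nat_lit 10) (.e (nat_lit 573478) (nat_lit 12) .nil))))) .nil)) 
(.lf (nat_lit 6781) (.g (nat_lit 584) (.e (nat_lit 304) (nat_lit 22) (.e (nat_lit 344117) (nat_lit 21) (.e (nat_lit 516166) (nat_lit 12) .nil))) .nil)))))) (.nd (nat_lit 2) (.nd (nat_lit 3) (.nd (nat_lit 4) (.nd (nat_lit 5) 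
(.lf (nat_lit 6723) (.g (nat_lit 451) (.e (nat_lit 301) (nat_lit 22) (.e (nat_lit 344119) (nat_lit 21) (.e (nat_lit 516167) (nat_lit 12) .nil))) .nil)) 
(.lf (nat_lit 6755) (.g (nat_lit 3566) (.e (nat_lit 303) (nat_lit 22) (.e (nat_lit 344117) (nat_lit 21) (.e (nat_lit 516166) (nat_lit 12) (.e (nat_lit 450588) (nat_lit 10) (.e (nat_lit 573475) (nat_lit 12) (.e (nat_lit 57573) (nat_lit 55) (.e (nat_lit 778340) (nat_lit 9) .nil))))))) (.g (nat_lit 4) .nil .nil)))) (.nd (nat_lit 5) 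
(.lf (nat_lit 6739) (.g (nat_lit 3425) (.e (nat_lit 303) (nat_lit 22) (.e (nat_lit 344117) (nat_lit 21) (.e (nat_lit 516151) (nat_lit 9) (.e (nat_lit 426286) (nat_lit 10) (.e (nat_lit 434247) (nat_lit 28) .nil))))) .nil)) 
(.lf (nat_lit 6771) (.g (nat_lit 3329) (.e (nat_lit 304) (nat_lit 22) (.e (nat_lit 344117) (nat_lit 21) (.e (nat_lit 516151) (nat_lit 9) (.e (nat_lit 426286) (nat_lit 10) (.e (nat_lit 434242) (nat_lit 28) .nil))))) .nil)))) (.nd (nat_lit 4) (.nd (nat_lit 5) 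
(.lf (nat_lit 6731) (.g (nat_lit 2223) (.e (nat_lit 301) (nat_lit 22) (.e (nat_lit 344133) (nat_lit 26) (.e (nat_lit 557105) (nat_lit 14) (.e (nat_lit 180264) (nat_lit 21) .nil)))) .nil)) 
(.lf (nat_lit 6763) (.g (nat_lit 2427) (.e (nat_lit 303) (nat_lit 22) (.e (nat_lit 344132) (nat_lit 26) (.e (nat_lit 557100) (nat_lit 13) (.e (nat_lit 172067) (nat_lit 3) (.e (nat_lit 204809) (nat_lit 9) .nil))))) .nil))) (.nd (nat_lit 5) 
(.lf (nat_lit 6747) (.g (nat_lit 3169) (.e (nat_lit 303) (nat_lit 22) (.e (nat_lit 344117) (nat_lit 21) (.e (nat_lit 516165) (nat_lit 12) (.e (nat_lit 450586) (nat_lit 10) (.e (nat_lit 573475) (nat_lit 12) (.e (nat_lit 57573) (nat_lit 55) (.e (nat_lit 778340) (nat_lit 9) .nil))))))) (.g (nat_lit 4) .nil .nil))) 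
(.lf (nat_lit 6779) (.g (nat_lit 3211) (.e (nat_lit 304) (nat_lit 22) (.e (nat_lit 344117) (nat_lit 21) (.e (nat_lit 516165) (nat_lit 12) (.e (nat_lit 450587) (nat_lit 10) (.e (nat_lit 573477) (nat_lit 12) .nil))))) .nil))))) (.nd (nat_lit 3) (.nd (nat_lit 4) (.nd (nat_lit 5) 
(.lf (nat_lit 6727) (.g (nat_lit 2483) (.e (nat_lit 301) (nat_lit 22) (.e (nat_lit 344133) (nat_lit 26) (.e (nat_lit 557098) (nat_lit 13) (.e (nat_lit 172066) (nat_lit 3) (.e (nat_lit 204809) (nat_lit 9) .nil))))) .nil)) 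
(.lf (nat_lit 6759) (.g (nat_lit 2411) (.e (nat_lit 303) (nat_lit 22) (.e (nat_lit 344129) (nat_lit 26) (.e (nat_lit 557104) (nat_lit 14) (.e (nat_lit 180244) (nat_lit 5) .nil)))) .nil))) (.nd (nat_lit 5) 
(.lf (nat_lit 6743) (.g (nat_lit 4319) (.e (nat_lit 303) (nat_lit 22) (.e (nat_lit 344117) (nat_lit 21) (.e (nat_lit 516151) (nat_lit 9) (.e (nat_lit 426286) (nat_lit 10) (.e (nat_lit 434248) (nat_lit 28) (.e (nat_lit 573475) (nat_lit 12) (.e (nat_lit 57573) (nat_lit 55) (.e (nat_lit 778339) (nat_lit 9) .nil)))))))) (.g (nat_lit 5) .nil .nil))) 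
(.lf (nat_lit 6775) (.g (nat_lit 5523) (.e (nat_lit 304) (nat_lit 22) (.e (nat_lit 344117) (nat_lit 21) (.e (nat_lit 516151) (nat_lit 9) (.e (nat_lit 426286) (nat_lit 10) (.e (nat_lit 434247) (nat_lit 28) (.e (nat_lit 573477) (nat_lit 12) (.e (nat_lit 57574) (nat_lit 55) (.e (nat_lit 778361) (nat_lit 9) .nil)))))))) (.g (nat_lit 8) .nil .nil))))) (.nd (nat_lit 4) (.nd (nat_lit 5) 
(.lf (nat_lit 6735) (.g (nat_lit 3989) (.e (nat_lit 302) (nat_lit 22) (.e (nat_lit 344133) (nat_lit 26) (.e (nat_lit 557103) (nat_lit 14) (.e (nat_lit 180244) (nat_lit 5) (.e (nat_lit 532579) (nat_lit 26) (.e (nat_lit 426123) (nat_lit 2) (.e (nat_lit 204544) (nat_lit 0) .nil))))))) (.g (nat_lit 6) .nil .nil))) 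
(.lf (nat_lit 6767) (.g (nat_lit 1942) (.e (nat_lit 303) (nat_lit 22) (.e (nat_lit 344133) (nat_lit 26) (.e (nat_lit 557105) (nat_lit 14) (.e (nat_lit 180234) (nat_lit 1) .nil)))) .nil))) (.nd (nat_lit 5) 
(.lf (nat_lit 6751) (.g (nat_lit 3319) (.e (nat_lit 303) (nat_lit 22) (.e (nat_lit 344117) (nat_lit 21) (.e (nat_lit 516166) (nat_lit 12) (.e (nat_lit 450587) (nat_lit 10) (.e (nat_lit 573477) (nat_lit 12) .nil))))) .nil)) 
(.lf (nat_lit 6783) (.g (nat_lit 2258) (.e (nat_lit 304) (nat_lit 22) (.e (nat_lit 344117) (nat_lit 21) (.e (nat_lit 516166) (nat_lit 12) (.e (nat_lit 450587) (nat_lit 10) (.e (nat_lit 573478) (nat_lit 12) .nil))))) .nil))))))))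

noncomputable def tv095 : DT := (.nd (nat_lit 0) (.nd (nat_lit 1) (.nd (nat_lit 2) (.nd (nat_lit 3) (.nd (nat_lit 4) (.nd (nat_lit 5) (.nd (nat_lit 6) 
(.lf (nat_lit 6784) (.g (nat_lit 3845) (.e (nat_lit 304) (nat_lit 22) (.e (nat_lit 344117) (nat_lit 21) (.e (nat_lit 516166) (nat_lit 12) (.e (nat_lit 450587) (nat_lit 10) (.e (nat_lit 573478) (nat_lit 12) (.e (nat_lit 57574) (nat_lit 55) (.e (nat_lit 778361) (nat_lit 9) .nil))))))) (.g (nat_lit 7) .nil .nil))) 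
(.lf (nat_lit 6848) (.g (nat_lit 3711) (.e (nat_lit 305) (nat_lit 22) (.e (nat_lit 344117) (nat_lit 21) (.e (nat_lit 516165) (nat_lit 12) (.e (nat_lit 450586) (nat_lit 10) (.e (nat_lit 573477) (nat_lit 12) (.e (nat_lit 57574) (nat_lit 55) (.e (nat_lit 778361) (nat_lit 9) .nil))))))) (.g (nat_lit 6) .nil .nil)))) (.nd (nat_lit 6) 
(.lf (nat_lit 6816) (.g (nat_lit 1695) (.e (nat_lit 304) (nat_lit 22) (.e (nat_lit 344133) (nat_lit 26) (.e (nat_lit 557103) (nat_lit 14) (.e (nat_lit 180263) (nat_lit 21) (.e (nat_lit 663568) (nat_lit 5) (.e (nat_lit 73775) (nat_lit 26) (.e (nat_lit 778361) (nat_lit 9) .nil))))))) (.g (nat_lit 4) .nil .nil))) 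
(.lf (nat_lit 6880) (.g (nat_lit 1610) (.e (nat_lit 305) (nat_lit 22) (.e (nat_lit 344130) (nat_lit 26) (.e (nat_lit 557104) (nat_lit 14) (.e (nat_lit 180262) (nat_lit 21) (.e (nat_lit 663567) (nat_lit 4) (.e (nat_lit 65578) (nat_lit 6) (.e (nat_lit 147467) (nat_lit 9) .nil))))))) (.g (nat_lit 4) .nil .nil))))) (.nd (nat_lit 5) (.nd (nat_lit 6) 
(.lf (nat_lit 6800) (.g (nat_lit 2593) (.e (nat_lit 304) (nat_lit 22) (.e (nat_lit 344132) (nat_lit 26) (.e (nat_lit 557100) (nat_lit 13) (.e (nat_lit 172065) (nat_lit 3) (.e (nat_lit 204809) (nat_lit 9) .nil))))) .nil)) 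
(.lf (nat_lit 6864) (.g (nat_lit 3286) (.e (nat_lit 305) (nat_lit 22) (.e (nat_lit 344129) (nat_lit 26) (.e (nat_lit 557097) (nat_lit 13) (.e (nat_lit 172067) (nat_lit 3) (.e (nat_lit 204809) (nat_lit 9) .nil))))) .nil))) (.nd (nat_lit 6) 
(.lf (nat_lit 6832) (.g (nat_lit 2079) (.e (nat_lit 304) (nat_lit 22) (.e (nat_lit 344133) (nat_lit 26) (.e (nat_lit 557105) (nat_lit 14) (.e (nat_lit 180264) (nat_lit 21) (.e (nat_lit 663566) (nat_lit 4) .nil))))) .nil)) 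
(.lf (nat_lit 6896) (.g (nat_lit 1618) (.e (nat_lit 306) (nat_lit 22) (.e (nat_lit 344097) (nat_lit 18) (.e (nat_lit 5194) (nat_lit 294) (.e (nat_lit 57375) (nat_lit 2) (.e (nat_lit 90160) (nat_lit 11) .nil))))) .nil))))) (.nd (nat_lit 4) (.nd (nat_lit 5) (.nd (nat_lit 6) 
(.lf (nat_lit 6792) (.g (nat_lit 1159) (.e (nat_lit 304) (nat_lit 22) (.e (nat_lit 344130) (nat_lit 26) (.e (nat_lit 557104) (nat_lit 14) (.e (nat_lit 180233) (nat_lit 0) .nil)))) .nil)) 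
(.lf (nat_lit 6856) (.g (nat_lit 2925) (.e (nat_lit 305) (nat_lit 22) (.e (nat_lit 344117) (nat_lit 21) (.e (nat_lit 516166) (nat_lit 12) (.e (nat_lit 450587) (nat_lit 10) (.e (nat_lit 573477) (nat_lit 12) .nil))))) .nil))) (.nd (nat_lit 6) 
(.lf (nat_lit 6824) (.g (nat_lit 3406) (.e (nat_lit 304) (nat_lit 22) (.e (nat_lit 344133) (nat_lit 26) (.e (nat_lit 557105) (nat_lit 14) (.e (nat_lit 180252) (nat_lit 10) (.e (nat_lit 573449) (nat_lit 9) (.e (nat_lit 1183) (nat_lit 87) (.e (nat_lit 57848) (nat_lit 252) (.e (nat_lit 57372) (nat_lit 2) (.e (nat_lit 90128) (nat_lit 9) .nil))))))))) (.g (nat_lit 5) .nil .nil))) 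
(.lf (nat_lit 6888) (.g (nat_lit 3142) (.e (nat_lit 305) (nat_lit 22) (.e (nat_lit 344133) (nat_lit 26) (.e (nat_lit 557105) (nat_lit 14) (.e (nat_lit 180252) (nat_lit 10) (.e (nat_lit 573474) (nat_lit 12) (.e (nat_lit 57506) (nat_lit 39) (.e (nat_lit 647200) (nat_lit 12) (.e (nat_lit 57480) (nat_lit 28) (.e (nat_lit 557066) (nat_lit 9) .nil))))))))) (.g (nat_lit 4) .nil .nil))))) 
(.nd (nat_lit 5) (.nd (nat_lit 6) 
(.lf (nat_lit 6808) (.g (nat_lit 2238) (.e (nat_lit 304) (nat_lit 22) (.e (nat_lit 344133) (nat_lit 26) (.e (nat_lit 557098) (nat_lit 13) (.e (nat_lit 172062) (nat_lit 2) (.e (nat_lit 196661) (nat_lit 12) (.e (nat_lit 57353) (nat_lit 0) (.e (nat_lit 7261) (nat_lit 384) (.e (nat_lit 57371) (nat_lit 2) (.e (nat_lit 90128) (nat_lit 9) .nil))))))))) (.g (nat_lit 4) .nil .nil))) 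
(.lf (nat_lit 6872) (.g (nat_lit 2439) (.e (nat_lit 305) (nat_lit 22) (.e (nat_lit 344129) (nat_lit 26) (.e (nat_lit 557104) (nat_lit 14) (.e (nat_lit 180262) (nat_lit 21) .nil)))) .nil))) (.nd (nat_lit 6) 
(.lf (nat_lit 6840) (.g (nat_lit 3318) (.e (nat_lit 305) (nat_lit 22) (.e (nat_lit 344081) (nat_lit 13) (.e (nat_lit 1140) (nat_lit 84) (.e (nat_lit 32787) (nat_lit 9) (.e (nat_lit 65610) (nat_lit 10) (.e (nat_lit 344129) (nat_lit 26) (.e (nat_lit 557066) (nat_lit 9) .nil))))))) (.g (nat_lit 0) .nil .nil))) 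
(.lf (nat_lit 6904) (.g (nat_lit 2039) (.e (nat_lit 306) (nat_lit 22) (.e (nat_lit 344117) (nat_lit 21) (.e (nat_lit 516151) (nat_lit 9) (.e (nat_lit 426286) (nat_lit 10) (.e (nat_lit 434247) (nat_lit 28) .nil))))) .nil)))))) (.nd (nat_lit 3) (.nd (nat_lit 4) (.nd (nat_lit 5) (.nd (nat_lit 6) 
(.lf (nat_lit 6788) (.g (nat_lit 1533) (.e (nat_lit 304) (nat_lit 22) (.e (nat_lit 344130) (nat_lit 26) (.e (nat_lit 557103) (nat_lit 14) (.e (nat_lit 180263) (nat_lit 21) (.e (nat_lit 663568) (nat_lit 5) (.e (nat_lit 73775) (nat_lit 26) (.e (nat_lit 778361) (nat_lit 9) .nil))))))) (.g (nat_lit 4) .nil .nil))) 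
(.lf (nat_lit 6852) (.g (nat_lit 3500) (.e (nat_lit 305) (nat_lit 22) (.e (nat_lit 344117) (nat_lit 21) (.e (nat_lit 516165) (nat_lit 12) (.e (nat_lit 450587) (nat_lit 10) (.e (nat_lit 573477) (nat_lit 12) .nil))))) .nil))) (.nd (nat_lit 6) 
(.lf (nat_lit 6820) (.g (nat_lit 1698) (.e (nat_lit 304) (nat_lit 22) (.e (nat_lit 344133) (nat_lit 26) (.e (nat_lit 557105) (nat_lit 14) (.e (nat_lit 180233) (nat_lit 0) .nil)))) .nil)) 
(.lf (nat_lit 6884) (.g (nat_lit 3389) (.e (nat_lit 305) (nat_lit 22) (.e (nat_lit 344133) (nat_lit 26) (.e (nat_lit 557105) (nat_lit 14) (.e (nat_lit 180252) (nat_lit 10) (.e (nat_lit 573473) (nat_lit 12) .nil))))) .nil)))) (.nd (nat_lit 5) (.nd (nat_lit 6) 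
(.lf (nat_lit 6804) (.g (nat_lit 1768) (.e (nat_lit 304) (nat_lit 22) (.e (nat_lit 344132) (nat_lit 26) (.e (nat_lit 557105) (nat_lit 14) (.e (nat_lit 180265) (nat_lit 21) (.e (nat_lit 671488) (nat_lit 0) .nil))))) .nil)) 
(.lf (nat_lit 6868) (.g (nat_lit 2289) (.e (nat_lit 305) (nat_lit 22) (.e (nat_lit 344129) (nat_lit 26) (.e (nat_lit 557104) (nat_lit 14) (.e (nat_lit 180233) (nat_lit 0) .nil)))) .nil))) (.nd (nat_lit 6) 
(.lf (nat_lit 6836) (.g (nat_lit 2380) (.e (nat_lit 304) (nat_lit 22) (.e (nat_lit 344133) (nat_lit 26) (.e (nat_lit 557105) (nat_lit 14) (.e (nat_lit 180265) (nat_lit 21) (.e (nat_lit 663561) (nat_lit 0) (.e (nat_lit 1512) (nat_lit 108) (.e (nat_lit 336051) (nat_lit 6) (.e (nat_lit 147466) (nat_lit 9) .nil)))))))) (.g (nat_lit 4) .nil .nil))) 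
(.lf (nat_lit 6900) (.g (nat_lit 1567) (.e (nat_lit 306) (nat_lit 22) (.e (nat_lit 344097) (nat_lit 18) (.e (nat_lit 5195) (nat_lit 294) (.e (nat_lit 57375) (nat_lit 2) (.e (nat_lit 90158) (nat_lit 11) .nil))))) .nil))))) (.nd (nat_lit 4) (.nd (nat_lit 5) (.nd (nat_lit 6) 
(.lf (nat_lit 6796) (.g (nat_lit 1838) (.e (nat_lit 304) (nat_lit 22) (.e (nat_lit 344130) (nat_lit 26) (.e (nat_lit 557104) (nat_lit 14) (.e (nat_lit 180262) (nat_lit 21) (.e (nat_lit 663567) (nat_lit 4) (.e (nat_lit 65580) (nat_lit 6) (.e (nat_lit 147467) (nat_lit 9) .nil))))))) (.g (nat_lit 5) .nil .nil))) 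
(.lf (nat_lit 6860) (.g (nat_lit 818) (.e (nat_lit 305) (nat_lit 22) (.e (nat_lit 344129) (nat_lit 26) (.e (nat_lit 557067) (nat_lit 9) .nil))) .nil))) (.nd (nat_lit 6) 
(.lf (nat_lit 6828) (.g (nat_lit 3743) (.e (nat_lit 304) (nat_lit 22) (.e (nat_lit 344133) (nat_lit 26) (.e (nat_lit 557105) (nat_lit 14) (.e (nat_lit 180252) (nat_lit 10) (.e (nat_lit 573473) (nat_lit 12) (.e (nat_lit 57507) (nat_lit 39) (.e (nat_lit 647200) (nat_lit 12) (.e (nat_lit 57480) (nat_lit 28) (.e (nat_lit 557066) (nat_lit 9) .nil))))))))) (.g (nat_lit 5) .nil .nil))) 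
(.lf (nat_lit 6892) (.g (nat_lit 1922) (.e (nat_lit 305) (nat_lit 22) (.e (nat_lit 344133) (nat_lit 26) (.e (nat_lit 557105) (nat_lit 14) (.e (nat_lit 180265) (nat_lit 21) .nil)))) .nil)))) (.nd (nat_lit 5) (.nd (nat_lit 6) 
(.lf (nat_lit 6812) (.g (nat_lit 2329) (.e (nat_lit 304) (nat_lit 22) (.e (nat_lit 344133) (nat_lit 26) (.e (nat_lit 557098) (nat_lit 13) (.e (nat_lit 172066) (nat_lit 3) (.e (nat_lit 204824) (nat_lit 17) .nil))))) .nil)) 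
(.lf (nat_lit 6876) (.g (nat_lit 3176) (.e (nat_lit 305) (nat_lit 22) (.e (nat_lit 344130) (nat_lit 26) (.e (nat_lit 557103) (nat_lit 14) (.e (nat_lit 180250) (nat_lit 10) (.e (nat_lit 573473) (nat_lit 12) (.e (nat_lit 57508) (nat_lit 39) (.e (nat_lit 647200) (nat_lit 12) (.e (nat_lit 57480) (nat_lit 28) (.e (nat_lit 557066) (nat_lit 9) .nil))))))))) (.g (nat_lit 5) .nil .nil)))) (.nd (nat_lit 6) 
(.lf (nat_lit 6844) (.g (nat_lit 2872) (.e (nat_lit 305) (nat_lit 22) (.e (nat_lit 344117) (nat_lit 21) (.e (nat_lit 516151) (nat_lit 9) (.e (nat_lit 426286) (nat_lit 10) (.e (nat_lit 434247) (nat_lit 28) (.e (nat_lit 573478) (nat_lit 12) (.e (nat_lit 57574) (nat_lit 55) (.e (nat_lit 778360) (nat_lit 9) .nil)))))))) (.g (nat_lit 4) .nil .nil))) 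
(.lf (nat_lit 6908) (.g (nat_lit 1569) (.e (nat_lit 306) (nat_lit 22) (.e (nat_lit 344117) (nat_lit 21) (.e (nat_lit 516163) (nat_lit 11) (.e (nat_lit 450304) (nat_lit 3) .nil)))) .nil))))))) (.nd (nat_lit 2) (.nd (nat_lit 3) (.nd (nat_lit 4) (.nd (nat_lit 5) (.nd (nat_lit 6) 
(.lf (nat_lit 6786) (.g (nat_lit 4663) (.e (nat_lit 304) (nat_lit 22) (.e (nat_lit 344117) (nat_lit 21) (.e (nat_lit 516166) (nat_lit 12) (.e (nat_lit 450588) (nat_lit 10) (.e (nat_lit 573475) (nat_lit 12) (.e (nat_lit 57574) (nat_lit 55) (.e (nat_lit 778361) (nat_lit 9) .nil))))))) (.g (nat_lit 7) .nil .nil))) 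
(.lf (nat_lit 6850) (.g (nat_lit 2717) (.e (nat_lit 305) (nat_lit 22) (.e (nat_lit 344117) (nat_lit 21) (.e (nat_lit 516165) (nat_lit 12) (.e (nat_lit 450586) (nat_lit 10) (.e (nat_lit 573478) (nat_lit 12) .nil))))) .nil))) (.nd (nat_lit 6) 
(.lf (nat_lit 6818) (.g (nat_lit 1605) (.e (nat_lit 304) (nat_lit 22) (.e (nat_lit 344133) (nat_lit 26) (.e (nat_lit 557105) (nat_lit 14) (.e (nat_lit 180227) (nat_lit 0) .nil)))) .nil)) 
(.lf (nat_lit 6882) (.g (nat_lit 2478) (.e (nat_lit 305) (nat_lit 22) (.e (nat_lit 344130) (nat_lit 26) (.e (nat_lit 557104) (nat_lit 14) (.e (nat_lit 180266) (nat_lit 22) (.e (nat_lit 671762) (nat_lit 4) (.e (nat_lit 65580) (nat_lit 6) (.e (nat_lit 147467) (nat_lit 9) .nil))))))) (.g (nat_lit 5) .nil .nil))))) (.nd (nat_lit 5) (.nd (nat_lit 6) 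
(.lf (nat_lit 6802) (.g (nat_lit 1969) (.e (nat_lit 304) (nat_lit 22) (.e (nat_lit 344132) (nat_lit 26) (.e (nat_lit 557105) (nat_lit 14) (.e (nat_lit 180252) (nat_lit 10) (.e (nat_lit 573473) (nat_lit 12) (.e (nat_lit 57508) (nat_lit 39) (.e (nat_lit 647201) (nat_lit 12) (.e (nat_lit 57478) (nat_lit 28) (.e (nat_lit 557066) (nat_lit 9) .nil))))))))) (.g (nat_lit 4) .nil .nil))) 
(.lf (nat_lit 6866) (.g (nat_lit 2317) (.e (nat_lit 305) (nat_lit 22) (.e (nat_lit 344129) (nat_lit 26) (.e (nat_lit 557103) (nat_lit 14) (.e (nat_lit 180250) (nat_lit 10) .nil)))) .nil))) (.nd (nat_lit 6) 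
(.lf (nat_lit 6834) (.g (nat_lit 1628) (.e (nat_lit 304) (nat_lit 22) (.e (nat_lit 344133) (nat_lit 26) (.e (nat_lit 557105) (nat_lit 14) (.e (nat_lit 180265) (nat_lit 21) .nil)))) .nil)) 
(.lf (nat_lit 6898) (.g (nat_lit 2024) (.e (nat_lit 306) (nat_lit 22) (.e (nat_lit 344097) (nat_lit 18) (.e (nat_lit 5195) (nat_lit 294) (.e (nat_lit 57372) (nat_lit 2) (.e (nat_lit 90160) (nat_lit 11) .nil))))) .nil))))) (.nd (nat_lit 4) (.nd (nat_lit 5) (.nd (nat_lit 6) 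
(.lf (nat_lit 6794) (.g (nat_lit 2904) (.e (nat_lit 304) (nat_lit 22) (.e (nat_lit 344130) (nat_lit 26) (.e (nat_lit 557104) (nat_lit 14) (.e (nat_lit 180252) (nat_lit 10) (.e (nat_lit 573474) (nat_lit 12) (.e (nat_lit 57508) (nat_lit 39) (.e (nat_lit 647200) (nat_lit 12) (.e (nat_lit 57477) (nat_lit 28) (.e (nat_lit 557066) (nat_lit 9) .nil))))))))) (.g (nat_lit 6) .nil .nil))) 
(.lf (nat_lit 6858) (.g (nat_lit 3311) (.e (nat_lit 305) (nat_lit 22) (.e (nat_lit 344117) (nat_lit 21) (.e (nat_lit 516166) (nat_lit 12) (.e (nat_lit 450587) (nat_lit 10) (.e (nat_lit 573478) (nat_lit 12) (.e (nat_lit 57574) (nat_lit 55) (.e (nat_lit 778362) (nat_lit 9) .nil))))))) (.g (nat_lit 5) .nil .nil)))) (.nd (nat_lit 6) 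
(.lf (nat_lit 6826) (.g (nat_lit 3591) (.e (nat_lit 304) (nat_lit 22) (.e (nat_lit 344133) (nat_lit 26) (.e (nat_lit 557105) (nat_lit 14) (.e (nat_lit 180252) (nat_lit 10) (.e (nat_lit 573453) (nat_lit 9) .nil))))) .nil)) 
(.lf (nat_lit 6890) (.g (nat_lit 2264) (.e (nat_lit 305) (nat_lit 22) (.e (nat_lit 344133) (nat_lit 26) (.e (nat_lit 557105) (nat_lit 14) (.e (nat_lit 180262) (nat_lit 21) .nil)))) .nil)))) (.nd (nat_lit 5) (.nd (nat_lit 6) 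
(.lf (nat_lit 6810) (.g (nat_lit 2683) (.e (nat_lit 304) (nat_lit 22) (.e (nat_lit 344133) (nat_lit 26) (.e (nat_lit 557098) (nat_lit 13) (.e (nat_lit 172065) (nat_lit 3) (.e (nat_lit 204809) (nat_lit 9) .nil))))) .nil)) 
(.lf (nat_lit 6874) (.g (nat_lit 3017) (.e (nat_lit 305) (nat_lit 22) (.e (nat_lit 344130) (nat_lit 26) (.e (nat_lit 557097) (nat_lit 13) (.e (nat_lit 172067) (nat_lit 3) (.e (nat_lit 204809) (nat_lit 9) (.e (nat_lit 426123) (nat_lit 2) (.e (nat_lit 204544) (nat_lit 0) .nil))))))) (.g (nat_lit 5) .nil .nil)))) (.nd (nat_lit 6) 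
(.lf (nat_lit 6842) (.g (nat_lit 4183) (.e (nat_lit 305) (nat_lit 22) (.e (nat_lit 344117) (nat_lit 21) (.e (nat_lit 516151) (nat_lit 9) (.e (nat_lit 426285) (nat_lit 10) .nil)))) .nil)) 
(.lf (nat_lit 6906) (.g (nat_lit 2823) (.e (nat_lit 306) (nat_lit 22) (.e (nat_lit 344117) (nat_lit 21) (.e (nat_lit 516151) (nat_lit 9) (.e (nat_lit 426312) (nat_lit 12) .nil)))) .nil)))))) (.nd (nat_lit 3) (.nd (nat_lit 4) (.nd (nat_lit 5) (.nd (nat_lit 6) 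
(.lf (nat_lit 6790) (.g (nat_lit 2018) (.e (nat_lit 304) (nat_lit 22) (.e (nat_lit 344130) (nat_lit 26) (.e (nat_lit 557104) (nat_lit 14) (.e (nat_lit 180229) (nat_lit 0) (.e (nat_lit 5820) (nat_lit 320) .nil))))) .nil)) 
(.lf (nat_lit 6854) (.g (nat_lit 4072) (.e (nat_lit 305) (nat_lit 22) (.e (nat_lit 344117) (nat_lit 21) (.e (nat_lit 516165) (nat_lit 12) (.e (nat_lit 450588) (nat_lit 10) (.e (nat_lit 573475) (nat_lit 12) .nil))))) .nil))) (.nd (nat_lit 6) 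
(.lf (nat_lit 6822) (.g (nat_lit 1603) (.e (nat_lit 304) (nat_lit 22) (.e (nat_lit 344133) (nat_lit 26) (.e (nat_lit 557105) (nat_lit 14) (.e (nat_lit 180251) (nat_lit 10) .nil)))) .nil)) 
(.lf (nat_lit 6886) (.g (nat_lit 3124) (.e (nat_lit 305) (nat_lit 22) (.e (nat_lit 344133) (nat_lit 26) (.e (nat_lit 557105) (nat_lit 14) (.e (nat_lit 180252) (nat_lit 10) (.e (nat_lit 573474) (nat_lit 12) .nil))))) .nil)))) (.nd (nat_lit 5) (.nd (nat_lit 6) 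
(.lf (nat_lit 6806) (.g (nat_lit 1711) (.e (nat_lit 304) (nat_lit 22) (.e (nat_lit 344133) (nat_lit 26) (.e (nat_lit 557098) (nat_lit 13) (.e (nat_lit 172061) (nat_lit 1) .nil)))) .nil)) 
(.lf (nat_lit 6870) (.g (nat_lit 2204) (.e (nat_lit 305) (nat_lit 22) (.e (nat_lit 344129) (nat_lit 26) (.e (nat_lit 557104) (nat_lit 14) (.e (nat_lit 180252) (nat_lit 10) .nil)))) .nil))) (.nd (nat_lit 6) 
(.lf (nat_lit 6838) (.g (nat_lit 2377) (.e (nat_lit 304) (nat_lit 22) (.e (nat_lit 344133) (nat_lit 26) (.e (nat_lit 557105) (nat_lit 14) (.e (nat_lit 180265) (nat_lit 21) (.e (nat_lit 663568) (nat_lit 5) .nil))))) .nil)) 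
(.lf (nat_lit 6902) (.g (nat_lit 3953) (.e (nat_lit 306) (nat_lit 22) (.e (nat_lit 344117) (nat_lit 21) (.e (nat_lit 516151) (nat_lit 9) (.e (nat_lit 426211) (nat_lit 9) .nil)))) .nil))))) (.nd (nat_lit 4) (.nd (nat_lit 5) (.nd (nat_lit 6) 
(.lf (nat_lit 6798) (.g (nat_lit 1960) (.e (nat_lit 304) (nat_lit 22) (.e (nat_lit 344132) (nat_lit 26) (.e (nat_lit 557100) (nat_lit 13) (.e (nat_lit 172049) (nat_lit 0) .nil)))) .nil)) 
(.lf (nat_lit 6862) (.g (nat_lit 789) (.e (nat_lit 305) (nat_lit 22) (.e (nat_lit 344129) (nat_lit 26) (.e (nat_lit 557097) (nat_lit 13) .nil))) .nil))) (.nd (nat_lit 6) 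
(.lf (nat_lit 6830) (.g (nat_lit 1688) (.e (nat_lit 304) (nat_lit 22) (.e (nat_lit 344133) (nat_lit 26) (.e (nat_lit 557105) (nat_lit 14) (.e (nat_lit 180264) (nat_lit 21) .nil)))) .nil)) 
(.lf (nat_lit 6894) (.g (nat_lit 2173) (.e (nat_lit 305) (nat_lit 22) (.e (nat_lit 344133) (nat_lit 26) (.e (nat_lit 557105) (nat_lit 14) (.e (nat_lit 180266) (nat_lit 22) .nil)))) .nil)))) (.nd (nat_lit 5) (.nd (nat_lit 6) 
(.lf (nat_lit 6814) (.g (nat_lit 3841) (.e (nat_lit 304) (nat_lit 22) (.e (nat_lit 344133) (nat_lit 26) (.e (nat_lit 557103) (nat_lit 14) (.e (nat_lit 180244) (nat_lit 5) (.e (nat_lit 532579) (nat_lit 26) (.e (nat_lit 426123) (nat_lit 2) (.e (nat_lit 204544) (nat_lit 0) .nil))))))) (.g (nat_lit 6) .nil .nil))) 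
(.lf (nat_lit 6878) (.g (nat_lit 1769) (.e (nat_lit 305) (nat_lit 22) (.e (nat_lit 344130) (nat_lit 26) (.e (nat_lit 557104) (nat_lit 14) (.e (nat_lit 180233) (nat_lit 0) (.e (nat_lit 5817) (nat_lit 320) .nil))))) .nil))) (.nd (nat_lit 6) 
(.lf (nat_lit 6846) (.g (nat_lit 2783) (.e (nat_lit 305) (nat_lit 22) (.e (nat_lit 344117) (nat_lit 21) (.e (nat_lit 516165) (nat_lit 12) (.e (nat_lit 450586) (nat_lit 10) (.e (nat_lit 573477) (nat_lit 12) .nil))))) .nil)) 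
(.lf (nat_lit 6910) (.g (nat_lit 1912) (.e (nat_lit 306) (nat_lit 22) (.e (nat_lit 344117) (nat_lit 21) (.e (nat_lit 516165) (nat_lit 12) (.e (nat_lit 450586) (nat_lit 10) (.e (nat_lit 573473) (nat_lit 12) .nil))))) .nil)))))))) (.nd (nat_lit 1) (.nd (nat_lit 2) (.nd (nat_lit 3) (.nd (nat_lit 4) (.nd (nat_lit 5) (.nd (nat_lit 6) 
(.lf (nat_lit 6785) (.g (nat_lit 2485) (.e (nat_lit 304) (nat_lit 22) (.e (nat_lit 344117) (nat_lit 21) (.e (nat_lit 516166) (nat_lit 12) (.e (nat_lit 450588) (nat_lit 10) (.e (nat_lit 573475) (nat_lit 12) .nil))))) .nil)) 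
(.lf (nat_lit 6849) (.g (nat_lit 3074) (.e (nat_lit 305) (nat_lit 22) (.e (nat_lit 344117) (nat_lit 21) (.e (nat_lit 516165) (nat_lit 12) (.e (nat_lit 450586) (nat_lit 10) (.e (nat_lit 573477) (nat_lit 12) (.e (nat_lit 57574) (nat_lit 55) (.e (nat_lit 778362) (nat_lit 9) .nil))))))) (.g (nat_lit 5) .nil .nil)))) (.nd (nat_lit 6) 
(.lf (nat_lit 6817) (.g (nat_lit 1750) (.e (nat_lit 304) (nat_lit 22) (.e (nat_lit 344133) (nat_lit 26) (.e (nat_lit 557105) (nat_lit 14) (.e (nat_lit 180226) (nat_lit 0) .nil)))) .nil)) 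
(.lf (nat_lit 6881) (.g (nat_lit 1404) (.e (nat_lit 305) (nat_lit 22) (.e (nat_lit 344130) (nat_lit 26) (.e (nat_lit 557104) (nat_lit 14) (.e (nat_lit 180266) (nat_lit 22) .nil)))) .nil)))) (.nd (nat_lit 5) (.nd (nat_lit 6) 
(.lf (nat_lit 6801) (.g (nat_lit 2300) (.e (nat_lit 304) (nat_lit 22) (.e (nat_lit 344132) (nat_lit 26) (.e (nat_lit 557100) (nat_lit 13) (.e (nat_lit 172067) (nat_lit 3) (.e (nat_lit 204809) (nat_lit 9) .nil))))) .nil)) 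
(.lf (nat_lit 6865) (.g (nat_lit 789) (.e (nat_lit 305) (nat_lit 22) (.e (nat_lit 344129) (nat_lit 26) (.e (nat_lit 557103) (nat_lit 14) .nil))) .nil))) (.nd (nat_lit 6) 
(.lf (nat_lit 6833) (.g (nat_lit 2531) (.e (nat_lit 304) (nat_lit 22) (.e (nat_lit 344133) (nat_lit 26) (.e (nat_lit 557105) (nat_lit 14) (.e (nat_lit 180264) (nat_lit 21) (.e (nat_lit 663568) (nat_lit 5) (.e (nat_lit 73775) (nat_lit 26) (.e (nat_lit 778361) (nat_lit 9) .nil))))))) (.g (nat_lit 5) .nil .nil))) 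
(.lf (nat_lit 6897) (.g (nat_lit 1286) (.e (nat_lit 306) (nat_lit 22) (.e (nat_lit 344097) (nat_lit 18) (.e (nat_lit 5195) (nat_lit 294) (.e (nat_lit 57372) (nat_lit 2) .nil)))) .nil))))) (.nd (nat_lit 4) (.nd (nat_lit 5) (.nd (nat_lit 6) 
(.lf (nat_lit 6793) (.g (nat_lit 2596) (.e (nat_lit 304) (nat_lit 22) (.e (nat_lit 344130) (nat_lit 26) (.e (nat_lit 557104) (nat_lit 14) (.e (nat_lit 180252) (nat_lit 10) (.e (nat_lit 573473) (nat_lit 12) (.e (nat_lit 57508) (nat_lit 39) (.e (nat_lit 647200) (nat_lit 12) (.e (nat_lit 57477) (nat_lit 28) (.e (nat_lit 557066) (nat_lit 9) .nil))))))))) (.g (nat_lit 5) .nil .nil))) 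
(.lf (nat_lit 6857) (.g (nat_lit 2847) (.e (nat_lit 305) (nat_lit 22) (.e (nat_lit 344117) (nat_lit 21) (.e (nat_lit 516166) (nat_lit 12) (.e (nat_lit 450587) (nat_lit 10) (.e (nat_lit 573478) (nat_lit 12) .nil))))) .nil))) (.nd (nat_lit 6) 
(.lf (nat_lit 6825) (.g (nat_lit 3876) (.e (nat_lit 304) (nat_lit 22) (.e (nat_lit 344133) (nat_lit 26) (.e (nat_lit 557105) (nat_lit 14) (.e (nat_lit 180252) (nat_lit 10) (.e (nat_lit 573451) (nat_lit 9) (.e (nat_lit 1177) (nat_lit 87) (.e (nat_lit 57849) (nat_lit 252) (.e (nat_lit 57372) (nat_lit 2) (.e (nat_lit 90128) (nat_lit 9) .nil))))))))) (.g (nat_lit 6) .nil .nil))) 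
(.lf (nat_lit 6889) (.g (nat_lit 3312) (.e (nat_lit 305) (nat_lit 22) (.e (nat_lit 344133) (nat_lit 26) (.e (nat_lit 557105) (nat_lit 14) (.e (nat_lit 180252) (nat_lit 10) (.e (nat_lit 573475) (nat_lit 12) .nil))))) .nil)))) (.nd (nat_lit 5) (.nd (nat_lit 6) 
(.lf (nat_lit 6809) (.g (nat_lit 2541) (.e (nat_lit 304) (nat_lit 22) (.e (nat_lit 344133) (nat_lit 26) (.e (nat_lit 557098) (nat_lit 13) (.e (nat_lit 172064) (nat_lit 2) (.e (nat_lit 196661) (nat_lit 12) .nil))))) .nil)) 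
(.lf (nat_lit 6873) (.g (nat_lit 2490) (.e (nat_lit 305) (nat_lit 22) (.e (nat_lit 344129) (nat_lit 26) (.e (nat_lit 557104) (nat_lit 14) (.e (nat_lit 180266) (nat_lit 22) .nil)))) .nil))) (.nd (nat_lit 6) 
(.lf (nat_lit 6841) (.g (nat_lit 3315) (.e (nat_lit 305) (nat_lit 22) (.e (nat_lit 344081) (nat_lit 13) (.e (nat_lit 1141) (nat_lit 84) (.e (nat_lit 32787) (nat_lit 9) (.e (nat_lit 65610) (nat_lit 10) (.e (nat_lit 344129) (nat_lit 26) (.e (nat_lit 557066) (nat_lit 9) .nil))))))) (.g (nat_lit 0) .nil .nil))) 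
(.lf (nat_lit 6905) (.g (nat_lit 2033) (.e (nat_lit 306) (nat_lit 22) (.e (nat_lit 344117) (nat_lit 21) (.e (nat_lit 516151) (nat_lit 9) (.e (nat_lit 426286) (nat_lit 10) (.e (nat_lit 434248) (nat_lit 28) (.e (nat_lit 573475) (nat_lit 12) (.e (nat_lit 65280) (nat_lit 55) (.e (nat_lit 778340) (nat_lit 9) .nil)))))))) (.g (nat_lit 4) .nil .nil))))))) 
(.nd (nat_lit 3) (.nd (nat_lit 4) (.nd (nat_lit 5) (.nd (nat_lit 6) 
(.lf (nat_lit 6789) (.g (nat_lit 2018) (.e (nat_lit 304) (nat_lit 22) (.e (nat_lit 344130) (nat_lit 26) (.e (nat_lit 557104) (nat_lit 14) (.e (nat_lit 180229) (nat_lit 0) (.e (nat_lit 5815) (nat_lit 320) .nil))))) .nil)) 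
(.lf (nat_lit 6853) (.g (nat_lit 3457) (.e (nat_lit 305) (nat_lit 22) (.e (nat_lit 344117) (nat_lit 21) (.e (nat_lit 516165) (nat_lit 12) (.e (nat_lit 450587) (nat_lit 10) (.e (nat_lit 573478) (nat_lit 12) .nil))))) .nil))) (.nd (nat_lit 6) 
(.lf (nat_lit 6821) (.g (nat_lit 1738) (.e (nat_lit 304) (nat_lit 22) (.e (nat_lit 344133) (nat_lit 26) (.e (nat_lit 557105) (nat_lit 14) (.e (nat_lit 180234) (nat_lit 1) .nil)))) .nil)) 
(.lf (nat_lit 6885) (.g (nat_lit 3419) (.e (nat_lit 305) (nat_lit 22) (.e (nat_lit 344133) (nat_lit 26) (.e (nat_lit 557105) (nat_lit 14) (.e (nat_lit 180252) (nat_lit 10) (.e (nat_lit 573473) (nat_lit 12) (.e (nat_lit 57508) (nat_lit 39) (.e (nat_lit 647200) (nat_lit 12) (.e (nat_lit 57480) (nat_lit 28) (.e (nat_lit 557066) (nat_lit 9) .nil))))))))) (.g (nat_lit 4) .nil .nil))))) 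
(.nd (nat_lit 5) (.nd (nat_lit 6) 
(.lf (nat_lit 6805) (.g (nat_lit 530) (.e (nat_lit 304) (nat_lit 22) (.e (nat_lit 344133) (nat_lit 26) (.e (nat_lit 557098) (nat_lit 13) .nil))) .nil)) 
(.lf (nat_lit 6869) (.g (nat_lit 3371) (.e (nat_lit 305) (nat_lit 22) (.e (nat_lit 344129) (nat_lit 26) (.e (nat_lit 557104) (nat_lit 14) (.e (nat_lit 180244) (nat_lit 5) (.e (nat_lit 532579) (nat_lit 26) .nil))))) .nil))) (.nd (nat_lit 6) 
(.lf (nat_lit 6837) (.g (nat_lit 2386) (.e (nat_lit 304) (nat_lit 22) (.e (nat_lit 344133) (nat_lit 26) (.e (nat_lit 557105) (nat_lit 14) (.e (nat_lit 180265) (nat_lit 21) (.e (nat_lit 663566) (nat_lit 4) .nil))))) .nil)) 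
(.lf (nat_lit 6901) (.g (nat_lit 1584) (.e (nat_lit 306) (nat_lit 22) (.e (nat_lit 344097) (nat_lit 18) (.e (nat_lit 5195) (nat_lit 294) (.e (nat_lit 57379) (nat_lit 3) (.e (nat_lit 98317) (nat_lit 9) .nil))))) .nil))))) (.nd (nat_lit 4) (.nd (nat_lit 5) (.nd (nat_lit 6) 
(.lf (nat_lit 6797) (.g (nat_lit 1068) (.e (nat_lit 304) (nat_lit 22) (.e (nat_lit 344130) (nat_lit 26) (.e (nat_lit 557104) (nat_lit 14) (.e (nat_lit 180264) (nat_lit 21) .nil)))) .nil)) 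
(.lf (nat_lit 6861) (.g (nat_lit 2665) (.e (nat_lit 305) (nat_lit 22) (.e (nat_lit 344129) (nat_lit 26) (.e (nat_lit 557067) (nat_lit 9) (.e (nat_lit 2975) (nat_lit 185) .nil)))) .nil))) (.nd (nat_lit 6) 
(.lf (nat_lit 6829) (.g (nat_lit 2520) (.e (nat_lit 304) (nat_lit 22) (.e (nat_lit 344133) (nat_lit 26) (.e (nat_lit 557105) (nat_lit 14) (.e (nat_lit 180252) (nat_lit 10) (.e (nat_lit 573474) (nat_lit 12) .nil))))) .nil)) 
(.lf (nat_lit 6893) (.g (nat_lit 2917) (.e (nat_lit 305) (nat_lit 22) (.e (nat_lit 344133) (nat_lit 26) (.e (nat_lit 557105) (nat_lit 14) (.e (nat_lit 180265) (nat_lit 21) (.e (nat_lit 663555) (nat_lit 0) .nil))))) .nil)))) (.nd (nat_lit 5) (.nd (nat_lit 6) 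
(.lf (nat_lit 6813) (.g (nat_lit 1583) (.e (nat_lit 304) (nat_lit 22) (.e (nat_lit 344133) (nat_lit 26) (.e (nat_lit 557103) (nat_lit 14) (.e (nat_lit 180229) (nat_lit 0) .nil)))) .nil)) 
(.lf (nat_lit 6877) (.g (nat_lit 1516) (.e (nat_lit 305) (nat_lit 22) (.e (nat_lit 344130) (nat_lit 26) (.e (nat_lit 557103) (nat_lit 14) (.e (nat_lit 180262) (nat_lit 21) .nil)))) .nil))) (.nd (nat_lit 6) 
(.lf (nat_lit 6845) (.g (nat_lit 2737) (.e (nat_lit 305) (nat_lit 22) (.e (nat_lit 344117) (nat_lit 21) (.e (nat_lit 516165) (nat_lit 12) (.e (nat_lit 450586) (nat_lit 10) (.e (nat_lit 573475) (nat_lit 12) .nil))))) .nil)) 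
(.lf (nat_lit 6909) (.g (nat_lit 1611) (.e (nat_lit 306) (nat_lit 22) (.e (nat_lit 344117) (nat_lit 21) (.e (nat_lit 516165) (nat_lit 12) (.e (nat_lit 450579) (nat_lit 5) .nil)))) .nil))))))) (.nd (nat_lit 2) (.nd (nat_lit 3) (.nd (nat_lit 4) (.nd (nat_lit 5) (.nd (nat_lit 6) 
(.lf (nat_lit 6787) (.g (nat_lit 3564) (.e (nat_lit 304) (nat_lit 22) (.e (nat_lit 344130) (nat_lit 26) (.e (nat_lit 557103) (nat_lit 14) (.e (nat_lit 180244) (nat_lit 5) (.e (nat_lit 532579) (nat_lit 26) (.e (nat_lit 426123) (nat_lit 2) (.e (nat_lit 204544) (nat_lit 0) .nil))))))) (.g (nat_lit 6) .nil .nil))) 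
(.lf (nat_lit 6851) (.g (nat_lit 2760) (.e (nat_lit 305) (nat_lit 22) (.e (nat_lit 344117) (nat_lit 21) (.e (nat_lit 516165) (nat_lit 12) (.e (nat_lit 450586) (nat_lit 10) (.e (nat_lit 573478) (nat_lit 12) (.e (nat_lit 57574) (nat_lit 55) (.e (nat_lit 778360) (nat_lit 9) .nil))))))) (.g (nat_lit 4) .nil .nil)))) (.nd (nat_lit 6) 
(.lf (nat_lit 6819) (.g (nat_lit 2275) (.e (nat_lit 304) (nat_lit 22) (.e (nat_lit 344133) (nat_lit 26) (.e (nat_lit 557105) (nat_lit 14) (.e (nat_lit 180227) (nat_lit 0) (.e (nat_lit 5945) (nat_lit 322) .nil))))) .nil)) 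
(.lf (nat_lit 6883) (.g (nat_lit 2782) (.e (nat_lit 305) (nat_lit 22) (.e (nat_lit 344133) (nat_lit 26) (.e (nat_lit 557098) (nat_lit 13) (.e (nat_lit 172067) (nat_lit 3) (.e (nat_lit 204809) (nat_lit 9) .nil))))) .nil)))) (.nd (nat_lit 5) (.nd (nat_lit 6) 
(.lf (nat_lit 6803) (.g (nat_lit 2946) (.e (nat_lit 304) (nat_lit 22) (.e (nat_lit 344132) (nat_lit 26) (.e (nat_lit 557105) (nat_lit 14) (.e (nat_lit 180252) (nat_lit 10) (.e (nat_lit 573474) (nat_lit 12) .nil))))) .nil)) 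
(.lf (nat_lit 6867) (.g (nat_lit 2721) (.e (nat_lit 305) (nat_lit 22) (.e (nat_lit 344129) (nat_lit 26) (.e (nat_lit 557103) (nat_lit 14) (.e (nat_lit 180250) (nat_lit 10) (.e (nat_lit 573474) (nat_lit 12) (.e (nat_lit 57507) (nat_lit 39) (.e (nat_lit 647200) (nat_lit 12) (.e (nat_lit 57480) (nat_lit 28) (.e (nat_lit 557066) (nat_lit 9) .nil))))))))) (.g (nat_lit 4) .nil .nil)))) (.nd (nat_lit 6) 
(.lf (nat_lit 6835) (.g (nat_lit 2413) (.e (nat_lit 304) (nat_lit 22) (.e (nat_lit 344133) (nat_lit 26) (.e (nat_lit 557105) (nat_lit 14) (.e (nat_lit 180265) (nat_lit 21) (.e (nat_lit 663555) (nat_lit 0) .nil))))) .nil)) 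
(.lf (nat_lit 6899) (.g (nat_lit 1232) (.e (nat_lit 306) (nat_lit 22) (.e (nat_lit 344097) (nat_lit 18) (.e (nat_lit 5195) (nat_lit 294) (.e (nat_lit 57375) (nat_lit 2) .nil)))) .nil))))) (.nd (nat_lit 4) (.nd (nat_lit 5) (.nd (nat_lit 6) 
(.lf (nat_lit 6795) (.g (nat_lit 2253) (.e (nat_lit 304) (nat_lit 22) (.e (nat_lit 344130) (nat_lit 26) (.e (nat_lit 557104) (nat_lit 14) (.e (nat_lit 180262) (nat_lit 21) (.e (nat_lit 663567) (nat_lit 4) (.e (nat_lit 65578) (nat_lit 6) (.e (nat_lit 147467) (nat_lit 9) .nil))))))) (.g (nat_lit 6) .nil .nil))) 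
(.lf (nat_lit 6859) (.g (nat_lit 4124) (.e (nat_lit 305) (nat_lit 22) (.e (nat_lit 344117) (nat_lit 21) (.e (nat_lit 516166) (nat_lit 12) (.e (nat_lit 450588) (nat_lit 10) (.e (nat_lit 573475) (nat_lit 12) (.e (nat_lit 57574) (nat_lit 55) (.e (nat_lit 778362) (nat_lit 9) .nil))))))) (.g (nat_lit 5) .nil .nil)))) (.nd (nat_lit 6) 
(.lf (nat_lit 6827) (.g (nat_lit 2984) (.e (nat_lit 304) (nat_lit 22) (.e (nat_lit 344133) (nat_lit 26) (.e (nat_lit 557105) (nat_lit 14) (.e (nat_lit 180252) (nat_lit 10) (.e (nat_lit 573473) (nat_lit 12) .nil))))) .nil)) 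
(.lf (nat_lit 6891) (.g (nat_lit 2223) (.e (nat_lit 305) (nat_lit 22) (.e (nat_lit 344133) (nat_lit 26) (.e (nat_lit 557105) (nat_lit 14) (.e (nat_lit 180264) (nat_lit 21) .nil)))) .nil)))) (.nd (nat_lit 5) (.nd (nat_lit 6) 
(.lf (nat_lit 6811) (.g (nat_lit 2330) (.e (nat_lit 304) (nat_lit 22) (.e (nat_lit 344133) (nat_lit 26) (.e (nat_lit 557098) (nat_lit 13) (.e (nat_lit 172066) (nat_lit 3) (.e (nat_lit 204809) (nat_lit 9) .nil))))) .nil)) 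
(.lf (nat_lit 6875) (.g (nat_lit 3694) (.e (nat_lit 305) (nat_lit 22) (.e (nat_lit 344130) (nat_lit 26) (.e (nat_lit 557103) (nat_lit 14) (.e (nat_lit 180244) (nat_lit 5) (.e (nat_lit 532579) (nat_lit 26) (.e (nat_lit 426123) (nat_lit 2) (.e (nat_lit 204544) (nat_lit 0) .nil))))))) (.g (nat_lit 6) .nil .nil)))) (.nd (nat_lit 6) 
(.lf (nat_lit 6843) (.g (nat_lit 2779) (.e (nat_lit 305) (nat_lit 22) (.e (nat_lit 344117) (nat_lit 21) (.e (nat_lit 516151) (nat_lit 9) (.e (nat_lit 426286) (nat_lit 10) (.e (nat_lit 434247) (nat_lit 28) .nil))))) .nil)) 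
(.lf (nat_lit 6907) (.g (nat_lit 558) (.e (nat_lit 306) (nat_lit 22) (.e (nat_lit 344117) (nat_lit 21) (.e (nat_lit 516162) (nat_lit 11) .nil))) .nil)))))) (.nd (nat_lit 3) (.nd (nat_lit 4) (.nd (nat_lit 5) (.nd (nat_lit 6) 
(.lf (nat_lit 6791) (.g (nat_lit 2105) (.e (nat_lit 304) (nat_lit 22) (.e (nat_lit 344130) (nat_lit 26) (.e (nat_lit 557104) (nat_lit 14) (.e (nat_lit 180229) (nat_lit 0) (.e (nat_lit 5820) (nat_lit 320) (.e (nat_lit 1214) (nat_lit 89) (.e (nat_lit 73775) (nat_lit 26) (.e (nat_lit 778361) (nat_lit 9) .nil)))))))) (.g (nat_lit 4) .nil .nil))) 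
(.lf (nat_lit 6855) (.g (nat_lit 782) (.e (nat_lit 305) (nat_lit 22) (.e (nat_lit 344117) (nat_lit 21) (.e (nat_lit 516166) (nat_lit 12) .nil))) .nil))) (.nd (nat_lit 6) 
(.lf (nat_lit 6823) (.g (nat_lit 2808) (.e (nat_lit 304) (nat_lit 22) (.e (nat_lit 344133) (nat_lit 26) (.e (nat_lit 557105) (nat_lit 14) (.e (nat_lit 180252) (nat_lit 10) (.e (nat_lit 573449) (nat_lit 9) .nil))))) .nil)) 
(.lf (nat_lit 6887) (.g (nat_lit 3167) (.e (nat_lit 305) (nat_lit 22) (.e (nat_lit 344133) (nat_lit 26) (.e (nat_lit 557105) (nat_lit 14) (.e (nat_lit 180252) (nat_lit 10) (.e (nat_lit 573474) (nat_lit 12) (.e (nat_lit 57354) (nat_lit 0) (.e (nat_lit 5194) (nat_lit 294) (.e (nat_lit 57372) (nat_lit 2) (.e (nat_lit 90128) (nat_lit 9) .nil))))))))) (.g (nat_lit 4) .nil .nil))))) 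
(.nd (nat_lit 5) (.nd (nat_lit 6) 
(.lf (nat_lit 6807) (.g (nat_lit 1702) (.e (nat_lit 304) (nat_lit 22) (.e (nat_lit 344133) (nat_lit 26) (.e (nat_lit 557098) (nat_lit 13) (.e (nat_lit 172062) (nat_lit 2) .nil)))) .nil)) 
(.lf (nat_lit 6871) (.g (nat_lit 3073) (.e (nat_lit 305) (nat_lit 22) (.e (nat_lit 344129) (nat_lit 26) (.e (nat_lit 557104) (nat_lit 14) (.e (nat_lit 180252) (nat_lit 10) (.e (nat_lit 573474) (nat_lit 12) .nil))))) .nil))) (.nd (nat_lit 6) 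
(.lf (nat_lit 6839) (.g (nat_lit 1922) (.e (nat_lit 304) (nat_lit 22) (.e (nat_lit 344133) (nat_lit 26) (.e (nat_lit 557105) (nat_lit 14) (.e (nat_lit 180266) (nat_lit 22) (.e (nat_lit 671762) (nat_lit 4) .nil))))) .nil)) 
(.lf (nat_lit 6903) (.g (nat_lit 2578) (.e (nat_lit 306) (nat_lit 22) (.e (nat_lit 344117) (nat_lit 21) (.e (nat_lit 516151) (nat_lit 9) (.e (nat_lit 426212) (nat_lit 9) .nil)))) .nil))))) (.nd (nat_lit 4) (.nd (nat_lit 5) (.nd (nat_lit 6) 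
(.lf (nat_lit 6799) (.g (nat_lit 1900) (.e (nat_lit 304) (nat_lit 22) (.e (nat_lit 344132) (nat_lit 26) (.e (nat_lit 557100) (nat_lit 13) (.e (nat_lit 172062) (nat_lit 2) .nil)))) .nil)) 
(.lf (nat_lit 6863) (.g (nat_lit 1980) (.e (nat_lit 305) (nat_lit 22) (.e (nat_lit 344129) (nat_lit 26) (.e (nat_lit 557097) (nat_lit 13) (.e (nat_lit 172066) (nat_lit 3) .nil)))) .nil))) (.nd (nat_lit 6) 
(.lf (nat_lit 6831) (.g (nat_lit 2438) (.e (nat_lit 304) (nat_lit 22) (.e (nat_lit 344133) (nat_lit 26) (.e (nat_lit 557105) (nat_lit 14) (.e (nat_lit 180264) (nat_lit 21) (.e (nat_lit 663555) (nat_lit 0) (.e (nat_lit 1512) (nat_lit 108) (.e (nat_lit 336051) (nat_lit 6) (.e (nat_lit 147466) (nat_lit 9) .nil)))))))) (.g (nat_lit 5) .nil .nil))) 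
(.lf (nat_lit 6895) (.g (nat_lit 1122) (.e (nat_lit 306) (nat_lit 22) (.e (nat_lit 344097) (nat_lit 18) (.e (nat_lit 5194) (nat_lit 294) (.e (nat_lit 57372) (nat_lit 2) .nil)))) .nil)))) (.nd (nat_lit 5) (.nd (nat_lit 6) 
(.lf (nat_lit 6815) (.g (nat_lit 1599) (.e (nat_lit 304) (nat_lit 22) (.e (nat_lit 344133) (nat_lit 26) (.e (nat_lit 557103) (nat_lit 14) (.e (nat_lit 180262) (nat_lit 21) .nil)))) .nil)) 
(.lf (nat_lit 6879) (.g (nat_lit 1355) (.e (nat_lit 305) (nat_lit 22) (.e (nat_lit 344130) (nat_lit 26) (.e (nat_lit 557104) (nat_lit 14) (.e (nat_lit 180262) (nat_lit 21) .nil)))) .nil))) (.nd (nat_lit 6) 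
(.lf (nat_lit 6847) (.g (nat_lit 2875) (.e (nat_lit 305) (nat_lit 22) (.e (nat_lit 344117) (nat_lit 21) (.e (nat_lit 516165) (nat_lit 12) (.e (nat_lit 450586) (nat_lit 10) (.e (nat_lit 573477) (nat_lit 12) (.e (nat_lit 57574) (nat_lit 55) (.e (nat_lit 778360) (nat_lit 9) .nil))))))) (.g (nat_lit 4) .nil .nil))) 
(.lf (nat_lit 6911) (.g (nat_lit 2016) (.e (nat_lit 306) (nat_lit 22) (.e (nat_lit 344117) (nat_lit 21) (.e (nat_lit 516165) (nat_lit 12) (.e (nat_lit 450586) (nat_lit 10) (.e (nat_lit 573475) (nat_lit 12) .nil))))) .nil)))))))))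

noncomputable def tv096 : DT := (.nd (nat_lit 0) (.nd (nat_lit 1) (.nd (nat_lit 2) (.nd (nat_lit 3) (.nd (nat_lit 4) (.nd (nat_lit 5) 
(.lf (nat_lit 6912) (.g (nat_lit 3240) (.e (nat_lit 306) (nat_lit 22) (.e (nat_lit 344117) (nat_lit 21) (.e (nat_lit 516165) (nat_lit 12) (.e (nat_lit 450586) (nat_lit 10) (.e (nat_lit 573475) (nat_lit 12) (.e (nat_lit 57573) (nat_lit 55) (.e (nat_lit 778334) (nat_lit 9) .nil))))))) (.g (nat_lit 0) .nil .nil))) 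
(.lf (nat_lit 6944) (.g (nat_lit 2924) (.e (nat_lit 307) (nat_lit 22) (.e (nat_lit 344117) (nat_lit 21) (.e (nat_lit 516129) (nat_lit 3) (.e (nat_lit 221210) (nat_lit 22) (.e (nat_lit 196660) (nat_lit 12) .nil))))) .nil))) (.nd (nat_lit 5) 
(.lf (nat_lit 6928) (.g (nat_lit 4543) (.e (nat_lit 306) (nat_lit 22) (.e (nat_lit 344129) (nat_lit 26) (.e (nat_lit 557097) (nat_lit 13) (.e (nat_lit 172067) (nat_lit 3) (.e (nat_lit 204809) (nat_lit 9) (.e (nat_lit 426123) (nat_lit 2) (.e (nat_lit 204544) (nat_lit 0) .nil))))))) (.g (nat_lit 6) .nil .nil))) 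
(.lf (nat_lit 6960) (.g (nat_lit 2836) (.e (nat_lit 307) (nat_lit 22) (.e (nat_lit 344117) (nat_lit 21) (.e (nat_lit 516130) (nat_lit 3) (.e (nat_lit 221212) (nat_lit 22) (.e (nat_lit 196660) (nat_lit 12) (.e (nat_lit 57354) (nat_lit 0) (.e (nat_lit 5195) (nat_lit 294) (.e (nat_lit 57375) (nat_lit 2) (.e (nat_lit 90128) (nat_lit 9) .nil))))))))) (.g (nat_lit 4) .nil .nil))))) 
(.nd (nat_lit 4) (.nd (nat_lit 5) 
(.lf (nat_lit 6920) (.g (nat_lit 3531) (.e (nat_lit 306) (nat_lit 22) (.e (nat_lit 344117) (nat_lit 21) (.e (nat_lit 516166) (nat_lit 12) (.e (nat_lit 450588) (nat_lit 10) (.e (nat_lit 573475) (nat_lit 12) (.e (nat_lit 57573) (nat_lit 55) (.e (nat_lit 778334) (nat_lit 9) .nil))))))) (.g (nat_lit 0) .nil .nil))) 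
(.lf (nat_lit 6952) (.g (nat_lit 1891) (.e (nat_lit 307) (nat_lit 22) (.e (nat_lit 344117) (nat_lit 21) (.e (nat_lit 516130) (nat_lit 3) (.e (nat_lit 221204) (nat_lit 20) .nil)))) .nil))) (.nd (nat_lit 5) 
(.lf (nat_lit 6936) (.g (nat_lit 2998) (.e (nat_lit 307) (nat_lit 22) (.e (nat_lit 344076) (nat_lit 13) (.e (nat_lit 1141) (nat_lit 84) (.e (nat_lit 32787) (nat_lit 9) (.e (nat_lit 65610) (nat_lit 10) (.e (nat_lit 344129) (nat_lit 26) (.e (nat_lit 557066) (nat_lit 9) .nil))))))) (.g (nat_lit 0) .nil .nil))) 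
(.lf (nat_lit 6968) (.g (nat_lit 1976) (.e (nat_lit 307) (nat_lit 22) (.e (nat_lit 344117) (nat_lit 21) (.e (nat_lit 516130) (nat_lit 3) (.e (nat_lit 221218) (nat_lit 24) .nil)))) .nil))))) (.nd (nat_lit 3) (.nd (nat_lit 4) (.nd (nat_lit 5) 
(.lf (nat_lit 6916) (.g (nat_lit 2631) (.e (nat_lit 306) (nat_lit 22) (.e (nat_lit 344117) (nat_lit 21) (.e (nat_lit 516166) (nat_lit 12) (.e (nat_lit 450587) (nat_lit 10) (.e (nat_lit 573478) (nat_lit 12) (.e (nat_lit 57573) (nat_lit 55) (.e (nat_lit 778334) (nat_lit 9) .nil))))))) (.g (nat_lit 0) .nil .nil))) 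
(.lf (nat_lit 6948) (.g (nat_lit 1999) (.e (nat_lit 307) (nat_lit 22) (.e (nat_lit 344117) (nat_lit 21) (.e (nat_lit 516129) (nat_lit 3) (.e (nat_lit 221214) (nat_lit 23) .nil)))) .nil))) (.nd (nat_lit 5) 
(.lf (nat_lit 6932) (.g (nat_lit 2376) (.e (nat_lit 306) (nat_lit 22) (.e (nat_lit 344129) (nat_lit 26) (.e (nat_lit 557104) (nat_lit 14) (.e (nat_lit 180236) (nat_lit 1) .nil)))) .nil)) 
(.lf (nat_lit 6964) (.g (nat_lit 3128) (.e (nat_lit 307) (nat_lit 22) (.e (nat_lit 344117) (nat_lit 21) (.e (nat_lit 516130) (nat_lit 3) (.e (nat_lit 221215) (nat_lit 23) (.e (nat_lit 204828) (nat_lit 18) (.e (nat_lit 57849) (nat_lit 252) (.e (nat_lit 57375) (nat_lit 2) (.e (nat_lit 90128) (nat_lit 9) .nil)))))))) (.g (nat_lit 4) .nil .nil))))) (.nd (nat_lit 4) (.nd (nat_lit 5) 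
(.lf (nat_lit 6924) (.g (nat_lit 3035) (.e (nat_lit 306) (nat_lit 22) (.e (nat_lit 344129) (nat_lit 26) (.e (nat_lit 557096) (nat_lit 13) (.e (nat_lit 172067) (nat_lit 3) (.e (nat_lit 204809) (nat_lit 9) .nil))))) .nil)) 
(.lf (nat_lit 6956) (.g (nat_lit 2817) (.e (nat_lit 307) (nat_lit 22) (.e (nat_lit 344117) (nat_lit 21) (.e (nat_lit 516130) (nat_lit 3) (.e (nat_lit 221212) (nat_lit 22) (.e (nat_lit 196626) (nat_lit 9) (.e (nat_lit 1183) (nat_lit 87) (.e (nat_lit 57848) (nat_lit 252) (.e (nat_lit 57372) (nat_lit 2) (.e (nat_lit 90128) (nat_lit 9) .nil))))))))) (.g (nat_lit 4) .nil .nil)))) (.nd (nat_lit 5) 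
(.lf (nat_lit 6940) (.g (nat_lit 2171) (.e (nat_lit 307) (nat_lit 22) (.e (nat_lit 344107) (nat_lit 19) (.e (nat_lit 499913) (nat_lit 9) (.e (nat_lit 172113) (nat_lit 10) (.e (nat_lit 434247) (nat_lit 28) (.e (nat_lit 573478) (nat_lit 12) (.e (nat_lit 57574) (nat_lit 55) (.e (nat_lit 778362) (nat_lit 9) .nil)))))))) (.g (nat_lit 4) .nil .nil))) 
(.lf (nat_lit 6972) (.g (nat_lit 3685) (.e (nat_lit 307) (nat_lit 22) (.e (nat_lit 344117) (nat_lit 21) (.e (nat_lit 516151) (nat_lit 9) (.e (nat_lit 426282) (nat_lit 10) .nil)))) .nil)))))) (.nd (nat_lit 2) (.nd (nat_lit 3) (.nd (nat_lit 4) (.nd (nat_lit 5) 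
(.lf (nat_lit 6914) (.g (nat_lit 1882) (.e (nat_lit 306) (nat_lit 22) (.e (nat_lit 344117) (nat_lit 21) (.e (nat_lit 516165) (nat_lit 12) (.e (nat_lit 450587) (nat_lit 10) .nil)))) .nil)) 
(.lf (nat_lit 6946) (.g (nat_lit 2951) (.e (nat_lit 307) (nat_lit 22) (.e (nat_lit 344117) (nat_lit 21) (.e (nat_lit 516129) (nat_lit 3) (.e (nat_lit 221210) (nat_lit 22) (.e (nat_lit 196660) (nat_lit 12) (.e (nat_lit 57354) (nat_lit 0) (.e (nat_lit 5194) (nat_lit 294) (.e (nat_lit 57375) (nat_lit 2) (.e (nat_lit 90128) (nat_lit 9) .nil))))))))) (.g (nat_lit 4) .nil .nil)))) (.nd (nat_lit 5) 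
(.lf (nat_lit 6930) (.g (nat_lit 4337) (.e (nat_lit 306) (nat_lit 22) (.e (nat_lit 344129) (nat_lit 26) (.e (nat_lit 557103) (nat_lit 14) (.e (nat_lit 180244) (nat_lit 5) (.e (nat_lit 532579) (nat_lit 26) (.e (nat_lit 426123) (nat_lit 2) (.e (nat_lit 204544) (nat_lit 0) .nil))))))) (.g (nat_lit 6) .nil .nil))) 
(.lf (nat_lit 6962) (.g (nat_lit 2957) (.e (nat_lit 307) (nat_lit 22) (.e (nat_lit 344117) (nat_lit 21) (.e (nat_lit 516130) (nat_lit 3) (.e (nat_lit 221214) (nat_lit 23) (.e (nat_lit 204829) (nat_lit 18) (.e (nat_lit 57847) (nat_lit 252) (.e (nat_lit 57372) (nat_lit 2) (.e (nat_lit 90128) (nat_lit 9) .nil)))))))) (.g (nat_lit 4) .nil .nil))))) (.nd (nat_lit 4) (.nd (nat_lit 5) 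
(.lf (nat_lit 6922) (.g (nat_lit 1374) (.e (nat_lit 306) (nat_lit 22) (.e (nat_lit 344117) (nat_lit 21) (.e (nat_lit 516174) (nat_lit 14) (.e (nat_lit 474880) (nat_lit 3) .nil)))) .nil)) 
(.lf (nat_lit 6954) (.g (nat_lit 1878) (.e (nat_lit 307) (nat_lit 22) (.e (nat_lit 344117) (nat_lit 21) (.e (nat_lit 516130) (nat_lit 3) (.e (nat_lit 221212) (nat_lit 22) .nil)))) .nil))) (.nd (nat_lit 5) 
(.lf (nat_lit 6938) (.g (nat_lit 1163) (.e (nat_lit 307) (nat_lit 22) (.e (nat_lit 344107) (nat_lit 19) (.e (nat_lit 499902) (nat_lit 7) (.e (nat_lit 24607) (nat_lit 3) (.e (nat_lit 98317) (nat_lit 9) .nil))))) .nil)) 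
(.lf (nat_lit 6970) (.g (nat_lit 2768) (.e (nat_lit 307) (nat_lit 22) (.e (nat_lit 344117) (nat_lit 21) (.e (nat_lit 516130) (nat_lit 3) (.e (nat_lit 221219) (nat_lit 24) (.e (nat_lit 212992) (nat_lit 0) (.e (nat_lit 1512) (nat_lit 108) (.e (nat_lit 336051) (nat_lit 6) (.e (nat_lit 147466) (nat_lit 9) .nil)))))))) (.g (nat_lit 4) .nil .nil)))))) (.nd (nat_lit 3) (.nd (nat_lit 4) (.nd (nat_lit 5) 
(.lf (nat_lit 6918) (.g (nat_lit 2166) (.e (nat_lit 306) (nat_lit 22) (.e (nat_lit 344117) (nat_lit 21) (.e (nat_lit 516166) (nat_lit 12) (.e (nat_lit 450588) (nat_lit 10) (.e (nat_lit 573473) (nat_lit 12) .nil))))) .nil)) 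
(.lf (nat_lit 6950) (.g (nat_lit 2736) (.e (nat_lit 307) (nat_lit 22) (.e (nat_lit 344117) (nat_lit 21) (.e (nat_lit 516129) (nat_lit 3) (.e (nat_lit 221215) (nat_lit 23) (.e (nat_lit 204830) (nat_lit 18) (.e (nat_lit 57854) (nat_lit 252) (.e (nat_lit 57373) (nat_lit 2) (.e (nat_lit 90128) (nat_lit 9) .nil)))))))) (.g (nat_lit 4) .nil .nil)))) (.nd (nat_lit 5) 
(.lf (nat_lit 6934) (.g (nat_lit 3950) (.e (nat_lit 306) (nat_lit 22) (.e (nat_lit 344129) (nat_lit 26) (.e (nat_lit 557104) (nat_lit 14) (.e (nat_lit 180244) (nat_lit 5) (.e (nat_lit 532579) (nat_lit 26) (.e (nat_lit 426123) (nat_lit 2) (.e (nat_lit 204544) (nat_lit 0) .nil))))))) (.g (nat_lit 5) .nil .nil))) 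
(.lf (nat_lit 6966) (.g (nat_lit 2427) (.e (nat_lit 307) (nat_lit 22) (.e (nat_lit 344117) (nat_lit 21) (.e (nat_lit 516130) (nat_lit 3) (.e (nat_lit 221215) (nat_lit 23) (.e (nat_lit 204829) (nat_lit 18) (.e (nat_lit 57847) (nat_lit 252) (.e (nat_lit 57375) (nat_lit 2) (.e (nat_lit 90128) (nat_lit 9) .nil)))))))) (.g (nat_lit 4) .nil .nil))))) (.nd (nat_lit 4) (.nd (nat_lit 5) 
(.lf (nat_lit 6926) (.g (nat_lit 2220) (.e (nat_lit 306) (nat_lit 22) (.e (nat_lit 344129) (nat_lit 26) (.e (nat_lit 557097) (nat_lit 13) (.e (nat_lit 172045) (nat_lit 0) .nil)))) .nil)) 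
(.lf (nat_lit 6958) (.g (nat_lit 2818) (.e (nat_lit 307) (nat_lit 22) (.e (nat_lit 344117) (nat_lit 21) (.e (nat_lit 516130) (nat_lit 3) (.e (nat_lit 221212) (nat_lit 22) (.e (nat_lit 196660) (nat_lit 12) (.e (nat_lit 57354) (nat_lit 0) (.e (nat_lit 5194) (nat_lit 294) (.e (nat_lit 57372) (nat_lit 2) (.e (nat_lit 90128) (nat_lit 9) .nil))))))))) (.g (nat_lit 4) .nil .nil)))) (.nd (nat_lit 5) 
(.lf (nat_lit 6942) (.g (nat_lit 905) (.e (nat_lit 307) (nat_lit 22) (.e (nat_lit 344117) (nat_lit 21) (.e (nat_lit 516129) (nat_lit 3) .nil))) .nil)) 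
(.lf (nat_lit 6974) (.g (nat_lit 3808) (.e (nat_lit 307) (nat_lit 22) (.e (nat_lit 344117) (nat_lit 21) (.e (nat_lit 516151) (nat_lit 9) (.e (nat_lit 426285) (nat_lit 10) .nil)))) .nil))))))) (.nd (nat_lit 1) (.nd (nat_lit 2) (.nd (nat_lit 3) (.nd (nat_lit 4) (.nd (nat_lit 5) 
(.lf (nat_lit 6913) (.g (nat_lit 2988) (.e (nat_lit 306) (nat_lit 22) (.e (nat_lit 344117) (nat_lit 21) (.e (nat_lit 516165) (nat_lit 12) (.e (nat_lit 450586) (nat_lit 10) (.e (nat_lit 573475) (nat_lit 12) (.e (nat_lit 57573) (nat_lit 55) (.e (nat_lit 778340) (nat_lit 9) .nil))))))) (.g (nat_lit 0) .nil .nil))) 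
(.lf (nat_lit 6945) (.g (nat_lit 3072) (.e (nat_lit 307) (nat_lit 22) (.e (nat_lit 344117) (nat_lit 21) (.e (nat_lit 516129) (nat_lit 3) (.e (nat_lit 221210) (nat_lit 22) (.e (nat_lit 196660) (nat_lit 12) (.e (nat_lit 57354) (nat_lit 0) (.e (nat_lit 5194) (nat_lit 294) (.e (nat_lit 57372) (nat_lit 2) (.e (nat_lit 90128) (nat_lit 9) .nil))))))))) (.g (nat_lit 4) .nil .nil)))) (.nd (nat_lit 5) 
(.lf (nat_lit 6929) (.g (nat_lit 2279) (.e (nat_lit 306) (nat_lit 22) (.e (nat_lit 344129) (nat_lit 26) (.e (nat_lit 557103) (nat_lit 14) (.e (nat_lit 180235) (nat_lit 1) .nil)))) .nil)) 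
(.lf (nat_lit 6961) (.g (nat_lit 1969) (.e (nat_lit 307) (nat_lit 22) (.e (nat_lit 344117) (nat_lit 21) (.e (nat_lit 516130) (nat_lit 3) (.e (nat_lit 221213) (nat_lit 23) .nil)))) .nil)))) (.nd (nat_lit 4) (.nd (nat_lit 5) 
(.lf (nat_lit 6921) (.g (nat_lit 3288) (.e (nat_lit 306) (nat_lit 22) (.e (nat_lit 344117) (nat_lit 21) (.e (nat_lit 516166) (nat_lit 12) (.e (nat_lit 450588) (nat_lit 10) (.e (nat_lit 573475) (nat_lit 12) (.e (nat_lit 57573) (nat_lit 55) (.e (nat_lit 778340) (nat_lit 9) .nil))))))) (.g (nat_lit 0) .nil .nil))) 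
(.lf (nat_lit 6953) (.g (nat_lit 4724) (.e (nat_lit 307) (nat_lit 22) (.e (nat_lit 344117) (nat_lit 21) (.e (nat_lit 516130) (nat_lit 3) (.e (nat_lit 221204) (nat_lit 20) (.e (nat_lit 3747) (nat_lit 228) (.e (nat_lit 786473) (nat_lit 27) (.e (nat_lit 336051) (nat_lit 6) (.e (nat_lit 147467) (nat_lit 9) .nil)))))))) (.g (nat_lit 7) .nil .nil)))) (.nd (nat_lit 5) 
(.lf (nat_lit 6937) (.g (nat_lit 1879) (.e (nat_lit 307) (nat_lit 22) (.e (nat_lit 344107) (nat_lit 19) (.e (nat_lit 499811) (nat_lit 5) (.e (nat_lit 3027) (nat_lit 187) (.e (nat_lit 450586) (nat_lit 10) (.e (nat_lit 573478) (nat_lit 12) (.e (nat_lit 57574) (nat_lit 55) (.e (nat_lit 778362) (nat_lit 9) .nil)))))))) (.g (nat_lit 4) .nil .nil))) 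
(.lf (nat_lit 6969) (.g (nat_lit 1933) (.e (nat_lit 307) (nat_lit 22) (.e (nat_lit 344117) (nat_lit 21) (.e (nat_lit 516130) (nat_lit 3) (.e (nat_lit 221219) (nat_lit 24) .nil)))) .nil))))) (.nd (nat_lit 3) (.nd (nat_lit 4) (.nd (nat_lit 5) 
(.lf (nat_lit 6917) (.g (nat_lit 2388) (.e (nat_lit 306) (nat_lit 22) (.e (nat_lit 344117) (nat_lit 21) (.e (nat_lit 516166) (nat_lit 12) (.e (nat_lit 450587) (nat_lit 10) (.e (nat_lit 573478) (nat_lit 12) (.e (nat_lit 57573) (nat_lit 55) (.e (nat_lit 778340) (nat_lit 9) .nil))))))) (.g (nat_lit 0) .nil .nil))) 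
(.lf (nat_lit 6949) (.g (nat_lit 2921) (.e (nat_lit 307) (nat_lit 22) (.e (nat_lit 344117) (nat_lit 21) (.e (nat_lit 516129) (nat_lit 3) (.e (nat_lit 221214) (nat_lit 23) (.e (nat_lit 204830) (nat_lit 18) .nil))))) .nil))) (.nd (nat_lit 5) 
(.lf (nat_lit 6933) (.g (nat_lit 2361) (.e (nat_lit 306) (nat_lit 22) (.e (nat_lit 344129) (nat_lit 26) (.e (nat_lit 557104) (nat_lit 14) (.e (nat_lit 180237) (nat_lit 1) .nil)))) .nil)) 
(.lf (nat_lit 6965) (.g (nat_lit 3101) (.e (nat_lit 307) (nat_lit 22) (.e (nat_lit 344117) (nat_lit 21) (.e (nat_lit 516130) (nat_lit 3) (.e (nat_lit 221215) (nat_lit 23) (.e (nat_lit 204829) (nat_lit 18) (.e (nat_lit 57847) (nat_lit 252) (.e (nat_lit 57372) (nat_lit 2) (.e (nat_lit 90128) (nat_lit 9) .nil)))))))) (.g (nat_lit 5) .nil .nil))))) (.nd (nat_lit 4) (.nd (nat_lit 5) 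
(.lf (nat_lit 6925) (.g (nat_lit 758) (.e (nat_lit 306) (nat_lit 22) (.e (nat_lit 344129) (nat_lit 26) (.e (nat_lit 557097) (nat_lit 13) .nil))) .nil)) 
(.lf (nat_lit 6957) (.g (nat_lit 2975) (.e (nat_lit 307) (nat_lit 22) (.e (nat_lit 344117) (nat_lit 21) (.e (nat_lit 516130) (nat_lit 3) (.e (nat_lit 221212) (nat_lit 22) (.e (nat_lit 196626) (nat_lit 9) (.e (nat_lit 1183) (nat_lit 87) (.e (nat_lit 57849) (nat_lit 252) (.e (nat_lit 57372) (nat_lit 2) (.e (nat_lit 90128) (nat_lit 9) .nil))))))))) (.g (nat_lit 4) .nil .nil)))) (.nd (nat_lit 5) 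
(.lf (nat_lit 6941) (.g (nat_lit 896) (.e (nat_lit 307) (nat_lit 22) (.e (nat_lit 344117) (nat_lit 21) (.e (nat_lit 516099) (nat_lit 0) .nil))) .nil)) 
(.lf (nat_lit 6973) (.g (nat_lit 3484) (.e (nat_lit 307) (nat_lit 22) (.e (nat_lit 344117) (nat_lit 21) (.e (nat_lit 516151) (nat_lit 9) (.e (nat_lit 426284) (nat_lit 10) .nil)))) .nil)))))) (.nd (nat_lit 2) (.nd (nat_lit 3) (.nd (nat_lit 4) (.nd (nat_lit 5) 
(.lf (nat_lit 6915) (.g (nat_lit 1239) (.e (nat_lit 306) (nat_lit 22) (.e (nat_lit 344117) (nat_lit 21) (.e (nat_lit 516166) (nat_lit 12) (.e (nat_lit 450587) (nat_lit 10) .nil)))) .nil)) 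
(.lf (nat_lit 6947) (.g (nat_lit 3101) (.e (nat_lit 307) (nat_lit 22) (.e (nat_lit 344117) (nat_lit 21) (.e (nat_lit 516129) (nat_lit 3) (.e (nat_lit 221210) (nat_lit 22) (.e (nat_lit 196660) (nat_lit 12) (.e (nat_lit 57354) (nat_lit 0) (.e (nat_lit 5195) (nat_lit 294) (.e (nat_lit 57375) (nat_lit 2) (.e (nat_lit 90128) (nat_lit 9) .nil))))))))) (.g (nat_lit 4) .nil .nil)))) (.nd (nat_lit 5) 
(.lf (nat_lit 6931) (.g (nat_lit 2371) (.e (nat_lit 306) (nat_lit 22) (.e (nat_lit 344129) (nat_lit 26) (.e (nat_lit 557104) (nat_lit 14) (.e (nat_lit 180234) (nat_lit 1) .nil)))) .nil)) 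
(.lf (nat_lit 6963) (.g (nat_lit 3513) (.e (nat_lit 307) (nat_lit 22) (.e (nat_lit 344117) (nat_lit 21) (.e (nat_lit 516130) (nat_lit 3) (.e (nat_lit 221214) (nat_lit 23) (.e (nat_lit 204829) (nat_lit 18) (.e (nat_lit 57849) (nat_lit 252) (.e (nat_lit 57372) (nat_lit 2) (.e (nat_lit 90128) (nat_lit 9) .nil)))))))) (.g (nat_lit 5) .nil .nil))))) (.nd (nat_lit 4) (.nd (nat_lit 5) 
(.lf (nat_lit 6923) (.g (nat_lit 827) (.e (nat_lit 306) (nat_lit 22) (.e (nat_lit 344117) (nat_lit 21) (.e (nat_lit 516177) (nat_lit 14) .nil))) .nil)) 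
(.lf (nat_lit 6955) (.g (nat_lit 2895) (.e (nat_lit 307) (nat_lit 22) (.e (nat_lit 344117) (nat_lit 21) (.e (nat_lit 516130) (nat_lit 3) (.e (nat_lit 221212) (nat_lit 22) (.e (nat_lit 196624) (nat_lit 9) (.e (nat_lit 1186) (nat_lit 87) (.e (nat_lit 57849) (nat_lit 252) (.e (nat_lit 57372) (nat_lit 2) (.e (nat_lit 90128) (nat_lit 9) .nil))))))))) (.g (nat_lit 4) .nil .nil)))) (.nd (nat_lit 5) 
(.lf (nat_lit 6939) (.g (nat_lit 523) (.e (nat_lit 307) (nat_lit 22) (.e (nat_lit 344107) (nat_lit 19) (.e (nat_lit 499913) (nat_lit 9) .nil))) .nil)) 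
(.lf (nat_lit 6971) (.g (nat_lit 3376) (.e (nat_lit 307) (nat_lit 22) (.e (nat_lit 344117) (nat_lit 21) (.e (nat_lit 516151) (nat_lit 9) (.e (nat_lit 426275) (nat_lit 10) .nil)))) .nil))))) (.nd (nat_lit 3) (.nd (nat_lit 4) (.nd (nat_lit 5) 
(.lf (nat_lit 6919) (.g (nat_lit 2219) (.e (nat_lit 306) (nat_lit 22) (.e (nat_lit 344117) (nat_lit 21) (.e (nat_lit 516166) (nat_lit 12) (.e (nat_lit 450588) (nat_lit 10) (.e (nat_lit 573475) (nat_lit 12) .nil))))) .nil)) 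
(.lf (nat_lit 6951) (.g (nat_lit 897) (.e (nat_lit 307) (nat_lit 22) (.e (nat_lit 344117) (nat_lit 21) (.e (nat_lit 516130) (nat_lit 3) .nil))) .nil))) (.nd (nat_lit 5) 
(.lf (nat_lit 6935) (.g (nat_lit 2924) (.e (nat_lit 307) (nat_lit 22) (.e (nat_lit 344076) (nat_lit 13) (.e (nat_lit 1140) (nat_lit 84) (.e (nat_lit 32787) (nat_lit 9) (.e (nat_lit 65610) (nat_lit 10) (.e (nat_lit 344129) (nat_lit 26) (.e (nat_lit 557066) (nat_lit 9) .nil))))))) (.g (nat_lit 0) .nil .nil))) 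
(.lf (nat_lit 6967) (.g (nat_lit 2532) (.e (nat_lit 307) (nat_lit 22) (.e (nat_lit 344117) (nat_lit 21) (.e (nat_lit 516130) (nat_lit 3) (.e (nat_lit 221215) (nat_lit 23) (.e (nat_lit 204830) (nat_lit 18) (.e (nat_lit 57854) (nat_lit 252) (.e (nat_lit 57371) (nat_lit 2) (.e (nat_lit 90128) (nat_lit 9) .nil)))))))) (.g (nat_lit 4) .nil .nil))))) (.nd (nat_lit 4) (.nd (nat_lit 5) 
(.lf (nat_lit 6927) (.g (nat_lit 2070) (.e (nat_lit 306) (nat_lit 22) (.e (nat_lit 344129) (nat_lit 26) (.e (nat_lit 557097) (nat_lit 13) (.e (nat_lit 172062) (nat_lit 2) .nil)))) .nil)) 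
(.lf (nat_lit 6959) (.g (nat_lit 2697) (.e (nat_lit 307) (nat_lit 22) (.e (nat_lit 344117) (nat_lit 21) (.e (nat_lit 516130) (nat_lit 3) (.e (nat_lit 221212) (nat_lit 22) (.e (nat_lit 196660) (nat_lit 12) (.e (nat_lit 57354) (nat_lit 0) (.e (nat_lit 5194) (nat_lit 294) (.e (nat_lit 57375) (nat_lit 2) (.e (nat_lit 90128) (nat_lit 9) .nil))))))))) (.g (nat_lit 4) .nil .nil)))) (.nd (nat_lit 5) 
(.lf (nat_lit 6943) (.g (nat_lit 2859) (.e (nat_lit 307) (nat_lit 22) (.e (nat_lit 344117) (nat_lit 21) (.e (nat_lit 516129) (nat_lit 3) (.e (nat_lit 221210) (nat_lit 22) (.e (nat_lit 196658) (nat_lit 12) (.e (nat_lit 57508) (nat_lit 39) (.e (nat_lit 647200) (nat_lit 12) (.e (nat_lit 57480) (nat_lit 28) (.e (nat_lit 557066) (nat_lit 9) .nil))))))))) (.g (nat_lit 4) .nil .nil))) 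
(.lf (nat_lit 6975) (.g (nat_lit 4467) (.e (nat_lit 307) (nat_lit 22) (.e (nat_lit 344117) (nat_lit 21) (.e (nat_lit 516151) (nat_lit 9) (.e (nat_lit 426286) (nat_lit 10) (.e (nat_lit 434247) (nat_lit 28) (.e (nat_lit 573477) (nat_lit 12) (.e (nat_lit 57574) (nat_lit 55) (.e (nat_lit 778359) (nat_lit 9) .nil)))))))) (.g (nat_lit 0) .nil .nil)))))))))

noncomputable def tv097 : DT := (.nd (nat_lit 0) (.nd (nat_lit 1) (.nd (nat_lit 2) (.nd (nat_lit 3) (.nd (nat_lit 4) (.nd (nat_lit 5) 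
(.lf (nat_lit 6976) (.g (nat_lit 4380) (.e (nat_lit 307) (nat_lit 22) (.e (nat_lit 344117) (nat_lit 21) (.e (nat_lit 516151) (nat_lit 9) (.e (nat_lit 426286) (nat_lit 10) (.e (nat_lit 434247) (nat_lit 28) (.e (nat_lit 573477) (nat_lit 12) (.e (nat_lit 57574) (nat_lit 55) (.e (nat_lit 778360) (nat_lit 9) .nil)))))))) (.g (nat_lit 8) .nil .nil))) 
(.lf (nat_lit 7008) (.g (nat_lit 4423) (.e (nat_lit 307) (nat_lit 22) (.e (nat_lit 344117) (nat_lit 21) (.e (nat_lit 516166) (nat_lit 12) (.e (nat_lit 450588) (nat_lit 10) (.e (nat_lit 573475) (nat_lit 12) (.e (nat_lit 57574) (nat_lit 55) (.e (nat_lit 778359) (nat_lit 9) .nil))))))) (.g (nat_lit 0) .nil .nil)))) (.nd (nat_lit 5) 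
(.lf (nat_lit 6992) (.g (nat_lit 3586) (.e (nat_lit 307) (nat_lit 22) (.e (nat_lit 344117) (nat_lit 21) (.e (nat_lit 516165) (nat_lit 12) (.e (nat_lit 450587) (nat_lit 10) (.e (nat_lit 573477) (nat_lit 12) (.e (nat_lit 57574) (nat_lit 55) (.e (nat_lit 778361) (nat_lit 9) .nil))))))) (.g (nat_lit 5) .nil .nil))) 
(.lf (nat_lit 7024) (.g (nat_lit 3716) (.e (nat_lit 307) (nat_lit 22) (.e (nat_lit 344117) (nat_lit 21) (.e (nat_lit 516195) (nat_lit 26) (.e (nat_lit 336027) (nat_lit 3) (.e (nat_lit 98317) (nat_lit 9) (.e (nat_lit 336012) (nat_lit 2) (.e (nat_lit 90128) (nat_lit 9) .nil))))))) (.g (nat_lit 7) .nil .nil))))) (.nd (nat_lit 4) (.nd (nat_lit 5) 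
(.lf (nat_lit 6984) (.g (nat_lit 4121) (.e (nat_lit 307) (nat_lit 22) (.e (nat_lit 344117) (nat_lit 21) (.e (nat_lit 516165) (nat_lit 12) (.e (nat_lit 450586) (nat_lit 10) (.e (nat_lit 573477) (nat_lit 12) (.e (nat_lit 57574) (nat_lit 55) (.e (nat_lit 778361) (nat_lit 9) .nil))))))) (.g (nat_lit 0) .nil .nil))) 
(.lf (nat_lit 7016) (.g (nat_lit 1090) (.e (nat_lit 307) (nat_lit 22) (.e (nat_lit 344117) (nat_lit 21) (.e (nat_lit 516195) (nat_lit 26) (.e (nat_lit 336021) (nat_lit 3) .nil)))) .nil))) (.nd (nat_lit 5) 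
(.lf (nat_lit 7000) (.g (nat_lit 2234) (.e (nat_lit 307) (nat_lit 22) (.e (nat_lit 344117) (nat_lit 21) (.e (nat_lit 516166) (nat_lit 12) (.e (nat_lit 450586) (nat_lit 10) (.e (nat_lit 573475) (nat_lit 12) .nil))))) .nil)) 
(.lf (nat_lit 7032) (.g (nat_lit 717) (.e (nat_lit 307) (nat_lit 22) (.e (nat_lit 344129) (nat_lit 26) (.e (nat_lit 557067) (nat_lit 9) .nil))) .nil))))) (.nd (nat_lit 3) (.nd (nat_lit 4) (.nd (nat_lit 5) 
(.lf (nat_lit 6980) (.g (nat_lit 4547) (.e (nat_lit 307) (nat_lit 22) (.e (nat_lit 344117) (nat_lit 21) (.e (nat_lit 516151) (nat_lit 9) (.e (nat_lit 426286) (nat_lit 10) (.e (nat_lit 434247) (nat_lit 28) (.e (nat_lit 573477) (nat_lit 12) (.e (nat_lit 57575) (nat_lit 55) (.e (nat_lit 778361) (nat_lit 9) .nil)))))))) (.g (nat_lit 7) .nil .nil))) 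
(.lf (nat_lit 7012) (.g (nat_lit 2504) (.e (nat_lit 307) (nat_lit 22) (.e (nat_lit 344117) (nat_lit 21) (.e (nat_lit 516195) (nat_lit 26) (.e (nat_lit 336004) (nat_lit 2) (.e (nat_lit 90158) (nat_lit 11) (.e (nat_lit 24603) (nat_lit 2) (.e (nat_lit 90128) (nat_lit 9) .nil))))))) (.g (nat_lit 5) .nil .nil)))) (.nd (nat_lit 5) 
(.lf (nat_lit 6996) (.g (nat_lit 3104) (.e (nat_lit 307) (nat_lit 22) (.e (nat_lit 344117) (nat_lit 21) (.e (nat_lit 516165) (nat_lit 12) (.e (nat_lit 450587) (nat_lit 10) (.e (nat_lit 573478) (nat_lit 12) (.e (nat_lit 57574) (nat_lit 55) (.e (nat_lit 778361) (nat_lit 9) .nil))))))) (.g (nat_lit 4) .nil .nil))) 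
(.lf (nat_lit 7028) (.g (nat_lit 2386) (.e (nat_lit 307) (nat_lit 22) (.e (nat_lit 344126) (nat_lit 25) (.e (nat_lit 548873) (nat_lit 5) (.e (nat_lit 1598) (nat_lit 111) (.e (nat_lit 360466) (nat_lit 3) (.e (nat_lit 516117) (nat_lit 1) (.e (nat_lit 164427) (nat_lit 278) (.e (nat_lit 2423) (nat_lit 157) .nil)))))))) (.g (nat_lit 6) .nil .nil))))) (.nd (nat_lit 4) (.nd (nat_lit 5) 
(.lf (nat_lit 6988) (.g (nat_lit 2999) (.e (nat_lit 307) (nat_lit 22) (.e (nat_lit 344117) (nat_lit 21) (.e (nat_lit 516165) (nat_lit 12) (.e (nat_lit 450586) (nat_lit 10) (.e (nat_lit 573477) (nat_lit 12) (.e (nat_lit 57575) (nat_lit 55) (.e (nat_lit 778362) (nat_lit 9) .nil))))))) (.g (nat_lit 5) .nil .nil))) 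
(.lf (nat_lit 7020) (.g (nat_lit 2354) (.e (nat_lit 307) (nat_lit 22) (.e (nat_lit 344117) (nat_lit 21) (.e (nat_lit 516195) (nat_lit 26) (.e (nat_lit 336027) (nat_lit 3) (.e (nat_lit 98313) (nat_lit 9) (.e (nat_lit 336012) (nat_lit 2) (.e (nat_lit 90123) (nat_lit 9) .nil))))))) (.g (nat_lit 4) .nil .nil)))) (.nd (nat_lit 5) 
(.lf (nat_lit 7004) (.g (nat_lit 4362) (.e (nat_lit 307) (nat_lit 22) (.e (nat_lit 344117) (nat_lit 21) (.e (nat_lit 516166) (nat_lit 12) (.e (nat_lit 450587) (nat_lit 10) (.e (nat_lit 573477) (nat_lit 12) (.e (nat_lit 57574) (nat_lit 55) (.e (nat_lit 778361) (nat_lit 9) .nil))))))) (.g (nat_lit 0) .nil .nil))) 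
(.lf (nat_lit 7036) (.g (nat_lit 2732) (.e (nat_lit 307) (nat_lit 22) (.e (nat_lit 344129) (nat_lit 26) (.e (nat_lit 557067) (nat_lit 9) (.e (nat_lit 2974) (nat_lit 185) .nil)))) .nil)))))) (.nd (nat_lit 2) (.nd (nat_lit 3) (.nd (nat_lit 4) (.nd (nat_lit 5) 
(.lf (nat_lit 6978) (.g (nat_lit 4677) (.e (nat_lit 307) (nat_lit 22) (.e (nat_lit 344117) (nat_lit 21) (.e (nat_lit 516151) (nat_lit 9) (.e (nat_lit 426286) (nat_lit 10) (.e (nat_lit 434247) (nat_lit 28) (.e (nat_lit 573477) (nat_lit 12) (.e (nat_lit 57575) (nat_lit 55) (.e (nat_lit 778359) (nat_lit 9) .nil)))))))) (.g (nat_lit 7) .nil .nil))) 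
(.lf (nat_lit 7010) (.g (nat_lit 2544) (.e (nat_lit 307) (nat_lit 22) (.e (nat_lit 344117) (nat_lit 21) (.e (nat_lit 516194) (nat_lit 26) (.e (nat_lit 336021) (nat_lit 3) (.e (nat_lit 98313) (nat_lit 9) .nil))))) .nil))) (.nd (nat_lit 5) 
(.lf (nat_lit 6994) (.g (nat_lit 2802) (.e (nat_lit 307) (nat_lit 22) (.e (nat_lit 344117) (nat_lit 21) (.e (nat_lit 516165) (nat_lit 12) (.e (nat_lit 450587) (nat_lit 10) (.e (nat_lit 573477) (nat_lit 12) (.e (nat_lit 57575) (nat_lit 55) (.e (nat_lit 778361) (nat_lit 9) .nil))))))) (.g (nat_lit 4) .nil .nil))) 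
(.lf (nat_lit 7026) (.g (nat_lit 2340) (.e (nat_lit 307) (nat_lit 22) (.e (nat_lit 344118) (nat_lit 21) (.e (nat_lit 516165) (nat_lit 12) (.e (nat_lit 450586) (nat_lit 10) (.e (nat_lit 573478) (nat_lit 12) (.e (nat_lit 57574) (nat_lit 55) (.e (nat_lit 778362) (nat_lit 9) .nil))))))) (.g (nat_lit 4) .nil .nil))))) (.nd (nat_lit 4) (.nd (nat_lit 5) 
(.lf (nat_lit 6986) (.g (nat_lit 2732) (.e (nat_lit 307) (nat_lit 22) (.e (nat_lit 344117) (nat_lit 21) (.e (nat_lit 516165) (nat_lit 12) (.e (nat_lit 450586) (nat_lit 10) (.e (nat_lit 573477) (nat_lit 12) (.e (nat_lit 57575) (nat_lit 55) (.e (nat_lit 778360) (nat_lit 9) .nil))))))) (.g (nat_lit 5) .nil .nil))) 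
(.lf (nat_lit 7018) (.g (nat_lit 2817) (.e (nat_lit 307) (nat_lit 22) (.e (nat_lit 344117) (nat_lit 21) (.e (nat_lit 516195) (nat_lit 26) (.e (nat_lit 336021) (nat_lit 3) (.e (nat_lit 98317) (nat_lit 9) (.e (nat_lit 336012) (nat_lit 2) (.e (nat_lit 90123) (nat_lit 9) .nil))))))) (.g (nat_lit 5) .nil .nil)))) (.nd (nat_lit 5) 
(.lf (nat_lit 7002) (.g (nat_lit 3936) (.e (nat_lit 307) (nat_lit 22) (.e (nat_lit 344117) (nat_lit 21) (.e (nat_lit 516166) (nat_lit 12) (.e (nat_lit 450587) (nat_lit 10) (.e (nat_lit 573477) (nat_lit 12) (.e (nat_lit 57574) (nat_lit 55) (.e (nat_lit 778359) (nat_lit 9) .nil))))))) (.g (nat_lit 0) .nil .nil))) 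
(.lf (nat_lit 7034) (.g (nat_lit 2595) (.e (nat_lit 307) (nat_lit 22) (.e (nat_lit 344129) (nat_lit 26) (.e (nat_lit 557067) (nat_lit 9) (.e (nat_lit 2878) (nat_lit 184) .nil)))) .nil))))) (.nd (nat_lit 3) (.nd (nat_lit 4) (.nd (nat_lit 5) 
(.lf (nat_lit 6982) (.g (nat_lit 3696) (.e (nat_lit 307) (nat_lit 22) (.e (nat_lit 344117) (nat_lit 21) (.e (nat_lit 516165) (nat_lit 12) (.e (nat_lit 450586) (nat_lit 10) (.e (nat_lit 573477) (nat_lit 12) (.e (nat_lit 57574) (nat_lit 55) (.e (nat_lit 778359) (nat_lit 9) .nil))))))) (.g (nat_lit 0) .nil .nil))) 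
(.lf (nat_lit 7014) (.g (nat_lit 2044) (.e (nat_lit 307) (nat_lit 22) (.e (nat_lit 344117) (nat_lit 21) (.e (nat_lit 516195) (nat_lit 26) (.e (nat_lit 336012) (nat_lit 2) (.e (nat_lit 90158) (nat_lit 11) (.e (nat_lit 24604) (nat_lit 2) (.e (nat_lit 90122) (nat_lit 9) .nil))))))) (.g (nat_lit 4) .nil .nil)))) (.nd (nat_lit 5) 
(.lf (nat_lit 6998) (.g (nat_lit 4382) (.e (nat_lit 307) (nat_lit 22) (.e (nat_lit 344117) (nat_lit 21) (.e (nat_lit 516165) (nat_lit 12) (.e (nat_lit 450588) (nat_lit 10) (.e (nat_lit 573475) (nat_lit 12) (.e (nat_lit 57574) (nat_lit 55) (.e (nat_lit 778359) (nat_lit 9) .nil))))))) (.g (nat_lit 5) .nil .nil))) 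
(.lf (nat_lit 7030) (.g (nat_lit 3347) (.e (nat_lit 307) (nat_lit 22) (.e (nat_lit 344126) (nat_lit 25) (.e (nat_lit 548874) (nat_lit 5) (.e (nat_lit 1598) (nat_lit 111) (.e (nat_lit 360466) (nat_lit 3) (.e (nat_lit 516117) (nat_lit 1) (.e (nat_lit 164427) (nat_lit 278) (.e (nat_lit 2423) (nat_lit 157) .nil)))))))) (.g (nat_lit 6) .nil .nil))))) (.nd (nat_lit 4) (.nd (nat_lit 5) 
(.lf (nat_lit 6990) (.g (nat_lit 3158) (.e (nat_lit 307) (nat_lit 22) (.e (nat_lit 344117) (nat_lit 21) (.e (nat_lit 516165) (nat_lit 12) (.e (nat_lit 450587) (nat_lit 10) (.e (nat_lit 573477) (nat_lit 12) (.e (nat_lit 57574) (nat_lit 55) (.e (nat_lit 778359) (nat_lit 9) .nil))))))) (.g (nat_lit 4) .nil .nil))) 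
(.lf (nat_lit 7022) (.g (nat_lit 1958) (.e (nat_lit 307) (nat_lit 22) (.e (nat_lit 344117) (nat_lit 21) (.e (nat_lit 516195) (nat_lit 26) (.e (nat_lit 336027) (nat_lit 3) (.e (nat_lit 98317) (nat_lit 9) (.e (nat_lit 336004) (nat_lit 2) (.e (nat_lit 90128) (nat_lit 9) .nil))))))) (.g (nat_lit 4) .nil .nil)))) (.nd (nat_lit 5) 
(.lf (nat_lit 7006) (.g (nat_lit 3546) (.e (nat_lit 307) (nat_lit 22) (.e (nat_lit 344117) (nat_lit 21) (.e (nat_lit 516166) (nat_lit 12) (.e (nat_lit 450587) (nat_lit 10) (.e (nat_lit 573478) (nat_lit 12) (.e (nat_lit 57574) (nat_lit 55) (.e (nat_lit 778359) (nat_lit 9) .nil))))))) (.g (nat_lit 0) .nil .nil))) 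
(.lf (nat_lit 7038) (.g (nat_lit 2566) (.e (nat_lit 307) (nat_lit 22) (.e (nat_lit 344129) (nat_lit 26) (.e (nat_lit 557067) (nat_lit 9) (.e (nat_lit 2975) (nat_lit 185) .nil)))) .nil))))))) (.nd (nat_lit 1) (.nd (nat_lit 2) (.nd (nat_lit 3) (.nd (nat_lit 4) (.nd (nat_lit 5) 
(.lf (nat_lit 6977) (.g (nat_lit 4877) (.e (nat_lit 307) (nat_lit 22) (.e (nat_lit 344117) (nat_lit 21) (.e (nat_lit 516151) (nat_lit 9) (.e (nat_lit 426286) (nat_lit 10) (.e (nat_lit 434247) (nat_lit 28) (.e (nat_lit 573477) (nat_lit 12) (.e (nat_lit 57574) (nat_lit 55) (.e (nat_lit 778361) (nat_lit 9) .nil)))))))) (.g (nat_lit 0) .nil .nil))) 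
(.lf (nat_lit 7009) (.g (nat_lit 901) (.e (nat_lit 307) (nat_lit 22) (.e (nat_lit 344117) (nat_lit 21) (.e (nat_lit 516175) (nat_lit 14) .nil))) .nil))) (.nd (nat_lit 5) 
(.lf (nat_lit 6993) (.g (nat_lit 2889) (.e (nat_lit 307) (nat_lit 22) (.e (nat_lit 344117) (nat_lit 21) (.e (nat_lit 516165) (nat_lit 12) (.e (nat_lit 450587) (nat_lit 10) (.e (nat_lit 573477) (nat_lit 12) (.e (nat_lit 57575) (nat_lit 55) (.e (nat_lit 778359) (nat_lit 9) .nil))))))) (.g (nat_lit 4) .nil .nil))) 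
(.lf (nat_lit 7025) (.g (nat_lit 1960) (.e (nat_lit 307) (nat_lit 22) (.e (nat_lit 344118) (nat_lit 21) (.e (nat_lit 516129) (nat_lit 3) (.e (nat_lit 221210) (nat_lit 22) (.e (nat_lit 196660) (nat_lit 12) .nil))))) .nil)))) (.nd (nat_lit 4) (.nd (nat_lit 5) 
(.lf (nat_lit 6985) (.g (nat_lit 3830) (.e (nat_lit 307) (nat_lit 22) (.e (nat_lit 344117) (nat_lit 21) (.e (nat_lit 516165) (nat_lit 12) (.e (nat_lit 450586) (nat_lit 10) (.e (nat_lit 573477) (nat_lit 12) (.e (nat_lit 57575) (nat_lit 55) (.e (nat_lit 778359) (nat_lit 9) .nil))))))) (.g (nat_lit 6) .nil .nil))) 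
(.lf (nat_lit 7017) (.g (nat_lit 2942) (.e (nat_lit 307) (nat_lit 22) (.e (nat_lit 344117) (nat_lit 21) (.e (nat_lit 516195) (nat_lit 26) (.e (nat_lit 336021) (nat_lit 3) (.e (nat_lit 98317) (nat_lit 9) (.e (nat_lit 336004) (nat_lit 2) (.e (nat_lit 90128) (nat_lit 9) .nil))))))) (.g (nat_lit 5) .nil .nil)))) (.nd (nat_lit 5) 
(.lf (nat_lit 7001) (.g (nat_lit 1830) (.e (nat_lit 307) (nat_lit 22) (.e (nat_lit 344117) (nat_lit 21) (.e (nat_lit 516166) (nat_lit 12) (.e (nat_lit 450587) (nat_lit 10) (.e (nat_lit 573454) (nat_lit 9) (.e (nat_lit 1315) (nat_lit 98) (.e (nat_lit 147467) (nat_lit 9) .nil))))))) (.g (nat_lit 4) .nil .nil))) 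
(.lf (nat_lit 7033) (.g (nat_lit 2771) (.e (nat_lit 307) (nat_lit 22) (.e (nat_lit 344129) (nat_lit 26) (.e (nat_lit 557067) (nat_lit 9) (.e (nat_lit 2828) (nat_lit 182) .nil)))) .nil))))) (.nd (nat_lit 3) (.nd (nat_lit 4) (.nd (nat_lit 5) 
(.lf (nat_lit 6981) (.g (nat_lit 4048) (.e (nat_lit 307) (nat_lit 22) (.e (nat_lit 344117) (nat_lit 21) (.e (nat_lit 516165) (nat_lit 12) (.e (nat_lit 450586) (nat_lit 10) (.e (nat_lit 573475) (nat_lit 12) (.e (nat_lit 57574) (nat_lit 55) (.e (nat_lit 778359) (nat_lit 9) .nil))))))) (.g (nat_lit 0) .nil .nil))) 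
(.lf (nat_lit 7013) (.g (nat_lit 3951) (.e (nat_lit 307) (nat_lit 22) (.e (nat_lit 344117) (nat_lit 21) (.e (nat_lit 516195) (nat_lit 26) (.e (nat_lit 336004) (nat_lit 2) (.e (nat_lit 90158) (nat_lit 11) (.e (nat_lit 24604) (nat_lit 2) (.e (nat_lit 90128) (nat_lit 9) .nil))))))) (.g (nat_lit 7) .nil .nil)))) (.nd (nat_lit 5) 
(.lf (nat_lit 6997) (.g (nat_lit 3272) (.e (nat_lit 307) (nat_lit 22) (.e (nat_lit 344117) (nat_lit 21) (.e (nat_lit 516165) (nat_lit 12) (.e (nat_lit 450587) (nat_lit 10) (.e (nat_lit 573478) (nat_lit 12) (.e (nat_lit 57574) (nat_lit 55) (.e (nat_lit 778362) (nat_lit 9) .nil))))))) (.g (nat_lit 5) .nil .nil))) 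
(.lf (nat_lit 7029) (.g (nat_lit 2543) (.e (nat_lit 307) (nat_lit 22) (.e (nat_lit 344126) (nat_lit 25) (.e (nat_lit 548873) (nat_lit 5) (.e (nat_lit 1598) (nat_lit 111) (.e (nat_lit 360466) (nat_lit 3) (.e (nat_lit 516120) (nat_lit 1) (.e (nat_lit 164427) (nat_lit 278) (.e (nat_lit 2423) (nat_lit 157) .nil)))))))) (.g (nat_lit 6) .nil .nil))))) (.nd (nat_lit 4) (.nd (nat_lit 5) 
(.lf (nat_lit 6989) (.g (nat_lit 2739) (.e (nat_lit 307) (nat_lit 22) (.e (nat_lit 344117) (nat_lit 21) (.e (nat_lit 516165) (nat_lit 12) (.e (nat_lit 450587) (nat_lit 10) (.e (nat_lit 573477) (nat_lit 12) .nil))))) .nil)) 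
(.lf (nat_lit 7021) (.g (nat_lit 2743) (.e (nat_lit 307) (nat_lit 22) (.e (nat_lit 344117) (nat_lit 21) (.e (nat_lit 516195) (nat_lit 26) (.e (nat_lit 336027) (nat_lit 3) (.e (nat_lit 98313) (nat_lit 9) (.e (nat_lit 336012) (nat_lit 2) (.e (nat_lit 90128) (nat_lit 9) .nil))))))) (.g (nat_lit 5) .nil .nil)))) (.nd (nat_lit 5) 
(.lf (nat_lit 7005) (.g (nat_lit 3660) (.e (nat_lit 307) (nat_lit 22) (.e (nat_lit 344117) (nat_lit 21) (.e (nat_lit 516166) (nat_lit 12) (.e (nat_lit 450587) (nat_lit 10) (.e (nat_lit 573477) (nat_lit 12) (.e (nat_lit 57575) (nat_lit 55) (.e (nat_lit 778359) (nat_lit 9) .nil))))))) (.g (nat_lit 6) .nil .nil))) 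
(.lf (nat_lit 7037) (.g (nat_lit 3701) (.e (nat_lit 307) (nat_lit 22) (.e (nat_lit 344129) (nat_lit 26) (.e (nat_lit 557067) (nat_lit 9) (.e (nat_lit 2974) (nat_lit 185) (.e (nat_lit 434275) (nat_lit 39) (.e (nat_lit 663567) (nat_lit 4) (.e (nat_lit 65578) (nat_lit 6) (.e (nat_lit 147467) (nat_lit 9) .nil)))))))) (.g (nat_lit 5) .nil .nil))))))) 
(.nd (nat_lit 2) (.nd (nat_lit 3) (.nd (nat_lit 4) (.nd (nat_lit 5) 
(.lf (nat_lit 6979) (.g (nat_lit 3579) (.e (nat_lit 307) (nat_lit 22) (.e (nat_lit 344117) (nat_lit 21) (.e (nat_lit 516151) (nat_lit 9) (.e (nat_lit 426286) (nat_lit 10) (.e (nat_lit 434247) (nat_lit 28) (.e (nat_lit 573477) (nat_lit 12) (.e (nat_lit 57575) (nat_lit 55) (.e (nat_lit 778360) (nat_lit 9) .nil)))))))) (.g (nat_lit 6) .nil .nil))) 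
(.lf (nat_lit 7011) (.g (nat_lit 1070) (.e (nat_lit 307) (nat_lit 22) (.e (nat_lit 344117) (nat_lit 21) (.e (nat_lit 516195) (nat_lit 26) (.e (nat_lit 336004) (nat_lit 2) .nil)))) .nil))) (.nd (nat_lit 5) 
(.lf (nat_lit 6995) (.g (nat_lit 2695) (.e (nat_lit 307) (nat_lit 22) (.e (nat_lit 344117) (nat_lit 21) (.e (nat_lit 516165) (nat_lit 12) (.e (nat_lit 450587) (nat_lit 10) (.e (nat_lit 573478) (nat_lit 12) .nil))))) .nil)) 
(.lf (nat_lit 7027) (.g (nat_lit 2515) (.e (nat_lit 307) (nat_lit 22) (.e (nat_lit 344126) (nat_lit 25) (.e (nat_lit 548872) (nat_lit 5) (.e (nat_lit 1598) (nat_lit 111) (.e (nat_lit 360466) (nat_lit 3) (.e (nat_lit 516120) (nat_lit 1) (.e (nat_lit 164427) (nat_lit 278) (.e (nat_lit 2423) (nat_lit 157) .nil)))))))) (.g (nat_lit 6) .nil .nil))))) (.nd (nat_lit 4) (.nd (nat_lit 5) 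
(.lf (nat_lit 6987) (.g (nat_lit 3703) (.e (nat_lit 307) (nat_lit 22) (.e (nat_lit 344117) (nat_lit 21) (.e (nat_lit 516165) (nat_lit 12) (.e (nat_lit 450586) (nat_lit 10) (.e (nat_lit 573477) (nat_lit 12) (.e (nat_lit 57575) (nat_lit 55) (.e (nat_lit 778361) (nat_lit 9) .nil))))))) (.g (nat_lit 6) .nil .nil))) 
(.lf (nat_lit 7019) (.g (nat_lit 4129) (.e (nat_lit 307) (nat_lit 22) (.e (nat_lit 344117) (nat_lit 21) (.e (nat_lit 516195) (nat_lit 26) (.e (nat_lit 336021) (nat_lit 3) (.e (nat_lit 98317) (nat_lit 9) (.e (nat_lit 336012) (nat_lit 2) (.e (nat_lit 90128) (nat_lit 9) .nil))))))) (.g (nat_lit 7) .nil .nil)))) (.nd (nat_lit 5) 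
(.lf (nat_lit 7003) (.g (nat_lit 3857) (.e (nat_lit 307) (nat_lit 22) (.e (nat_lit 344117) (nat_lit 21) (.e (nat_lit 516166) (nat_lit 12) (.e (nat_lit 450587) (nat_lit 10) (.e (nat_lit 573477) (nat_lit 12) (.e (nat_lit 57574) (nat_lit 55) (.e (nat_lit 778360) (nat_lit 9) .nil))))))) (.g (nat_lit 7) .nil .nil))) 
(.lf (nat_lit 7035) (.g (nat_lit 4329) (.e (nat_lit 307) (nat_lit 22) (.e (nat_lit 344129) (nat_lit 26) (.e (nat_lit 557067) (nat_lit 9) (.e (nat_lit 2878) (nat_lit 184) (.e (nat_lit 426125) (nat_lit 2) (.e (nat_lit 196661) (nat_lit 12) (.e (nat_lit 57353) (nat_lit 0) (.e (nat_lit 7261) (nat_lit 384) (.e (nat_lit 57371) (nat_lit 2) (.e (nat_lit 90128) (nat_lit 9) .nil)))))))))) (.g (nat_lit 5) .nil .nil)))))) 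
(.nd (nat_lit 3) (.nd (nat_lit 4) (.nd (nat_lit 5) 
(.lf (nat_lit 6983) (.g (nat_lit 3647) (.e (nat_lit 307) (nat_lit 22) (.e (nat_lit 344117) (nat_lit 21) (.e (nat_lit 516165) (nat_lit 12) (.e (nat_lit 450586) (nat_lit 10) (.e (nat_lit 573477) (nat_lit 12) (.e (nat_lit 57574) (nat_lit 55) (.e (nat_lit 778360) (nat_lit 9) .nil))))))) (.g (nat_lit 7) .nil .nil))) 
(.lf (nat_lit 7015) (.g (nat_lit 2418) (.e (nat_lit 307) (nat_lit 22) (.e (nat_lit 344117) (nat_lit 21) (.e (nat_lit 516195) (nat_lit 26) (.e (nat_lit 336012) (nat_lit 2) (.e (nat_lit 90158) (nat_lit 11) (.e (nat_lit 24604) (nat_lit 2) (.e (nat_lit 90123) (nat_lit 9) .nil))))))) (.g (nat_lit 5) .nil .nil)))) (.nd (nat_lit 5) 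
(.lf (nat_lit 6999) (.g (nat_lit 1569) (.e (nat_lit 307) (nat_lit 22) (.e (nat_lit 344117) (nat_lit 21) (.e (nat_lit 516166) (nat_lit 12) (.e (nat_lit 450586) (nat_lit 10) .nil)))) .nil)) 
(.lf (nat_lit 7031) (.g (nat_lit 3499) (.e (nat_lit 307) (nat_lit 22) (.e (nat_lit 344126) (nat_lit 25) (.e (nat_lit 548874) (nat_lit 5) (.e (nat_lit 1598) (nat_lit 111) (.e (nat_lit 360466) (nat_lit 3) (.e (nat_lit 516120) (nat_lit 1) (.e (nat_lit 164427) (nat_lit 278) (.e (nat_lit 2423) (nat_lit 157) .nil)))))))) (.g (nat_lit 6) .nil .nil))))) (.nd (nat_lit 4) (.nd (nat_lit 5) 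
(.lf (nat_lit 6991) (.g (nat_lit 3078) (.e (nat_lit 307) (nat_lit 22) (.e (nat_lit 344117) (nat_lit 21) (.e (nat_lit 516165) (nat_lit 12) (.e (nat_lit 450587) (nat_lit 10) (.e (nat_lit 573477) (nat_lit 12) (.e (nat_lit 57574) (nat_lit 55) (.e (nat_lit 778360) (nat_lit 9) .nil))))))) (.g (nat_lit 4) .nil .nil))) 
(.lf (nat_lit 7023) (.g (nat_lit 2399) (.e (nat_lit 307) (nat_lit 22) (.e (nat_lit 344117) (nat_lit 21) (.e (nat_lit 516195) (nat_lit 26) (.e (nat_lit 336027) (nat_lit 3) (.e (nat_lit 98317) (nat_lit 9) (.e (nat_lit 336012) (nat_lit 2) (.e (nat_lit 90123) (nat_lit 9) .nil))))))) (.g (nat_lit 5) .nil .nil)))) (.nd (nat_lit 5) 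
(.lf (nat_lit 7007) (.g (nat_lit 3604) (.e (nat_lit 307) (nat_lit 22) (.e (nat_lit 344117) (nat_lit 21) (.e (nat_lit 516166) (nat_lit 12) (.e (nat_lit 450588) (nat_lit 10) (.e (nat_lit 573454) (nat_lit 9) .nil))))) .nil)) 
(.lf (nat_lit 7039) (.g (nat_lit 4067) (.e (nat_lit 307) (nat_lit 22) (.e (nat_lit 344129) (nat_lit 26) (.e (nat_lit 557067) (nat_lit 9) (.e (nat_lit 2975) (nat_lit 185) (.e (nat_lit 434275) (nat_lit 39) (.e (nat_lit 663567) (nat_lit 4) (.e (nat_lit 65578) (nat_lit 6) (.e (nat_lit 147467) (nat_lit 9) .nil)))))))) (.g (nat_lit 5) .nil .nil)))))))))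

noncomputable def tv098 : DT := (.nd (nat_lit 0) (.nd (nat_lit 1) (.nd (nat_lit 2) (.nd (nat_lit 3) (.nd (nat_lit 4) (.nd (nat_lit 5) (.nd (nat_lit 6) 
(.lf (nat_lit 7040) (.g (nat_lit 3573) (.e (nat_lit 307) (nat_lit 22) (.e (nat_lit 344129) (nat_lit 26) (.e (nat_lit 557067) (nat_lit 9) (.e (nat_lit 2975) (nat_lit 185) (.e (nat_lit 434275) (nat_lit 39) (.e (nat_lit 663567) (nat_lit 4) (.e (nat_lit 65580) (nat_lit 6) (.e (nat_lit 147467) (nat_lit 9) .nil)))))))) (.g (nat_lit 5) .nil .nil))) 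
(.lf (nat_lit 7104) (.g (nat_lit 1929) (.e (nat_lit 307) (nat_lit 22) (.e (nat_lit 344129) (nat_lit 26) (.e (nat_lit 557104) (nat_lit 14) (.e (nat_lit 188160) (nat_lit 1) .nil)))) .nil))) (.nd (nat_lit 6) 
(.lf (nat_lit 7072) (.g (nat_lit 2859) (.e (nat_lit 307) (nat_lit 22) (.e (nat_lit 344129) (nat_lit 26) (.e (nat_lit 557103) (nat_lit 14) (.e (nat_lit 180243) (nat_lit 5) (.e (nat_lit 532579) (nat_lit 26) .nil))))) .nil)) 
(.lf (nat_lit 7136) (.g (nat_lit 3734) (.e (nat_lit 307) (nat_lit 22) (.e (nat_lit 344129) (nat_lit 26) (.e (nat_lit 557105) (nat_lit 14) (.e (nat_lit 180252) (nat_lit 10) (.e (nat_lit 573473) (nat_lit 12) .nil))))) .nil)))) (.nd (nat_lit 5) (.nd (nat_lit 6) 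
(.lf (nat_lit 7056) (.g (nat_lit 3552) (.e (nat_lit 307) (nat_lit 22) (.e (nat_lit 344129) (nat_lit 26) (.e (nat_lit 557097) (nat_lit 13) (.e (nat_lit 172065) (nat_lit 3) (.e (nat_lit 204809) (nat_lit 9) (.e (nat_lit 426123) (nat_lit 2) (.e (nat_lit 204544) (nat_lit 0) .nil))))))) (.g (nat_lit 6) .nil .nil))) 
(.lf (nat_lit 7120) (.g (nat_lit 4344) (.e (nat_lit 307) (nat_lit 22) (.e (nat_lit 344129) (nat_lit 26) (.e (nat_lit 557104) (nat_lit 14) (.e (nat_lit 180252) (nat_lit 10) (.e (nat_lit 573474) (nat_lit 12) (.e (nat_lit 57507) (nat_lit 39) (.e (nat_lit 647201) (nat_lit 12) (.e (nat_lit 57478) (nat_lit 28) (.e (nat_lit 557066) (nat_lit 9) .nil))))))))) (.g (nat_lit 5) .nil .nil)))) (.nd (nat_lit 6) 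
(.lf (nat_lit 7088) (.g (nat_lit 552) (.e (nat_lit 307) (nat_lit 22) (.e (nat_lit 344129) (nat_lit 26) (.e (nat_lit 557104) (nat_lit 14) .nil))) .nil)) 
(.lf (nat_lit 7152) (.g (nat_lit 5397) (.e (nat_lit 307) (nat_lit 22) (.e (nat_lit 344169) (nat_lit 40) (.e (nat_lit 671759) (nat_lit 3) (.e (nat_lit 57479) (nat_lit 28) (.e (nat_lit 557107) (nat_lit 15) (.e (nat_lit 188440) (nat_lit 20) (.e (nat_lit 3307) (nat_lit 202) (.e (nat_lit 581376) (nat_lit 0) .nil)))))))) (.g (nat_lit 7) .nil .nil)))))) (.nd (nat_lit 4) (.nd (nat_lit 5) (.nd (nat_lit 6) 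
(.lf (nat_lit 7048) (.g (nat_lit 1882) (.e (nat_lit 307) (nat_lit 22) (.e (nat_lit 344129) (nat_lit 26) (.e (nat_lit 557097) (nat_lit 13) (.e (nat_lit 172051) (nat_lit 0) .nil)))) .nil)) 
(.lf (nat_lit 7112) (.g (nat_lit 3315) (.e (nat_lit 307) (nat_lit 22) (.e (nat_lit 344129) (nat_lit 26) (.e (nat_lit 557104) (nat_lit 14) (.e (nat_lit 180252) (nat_lit 10) (.e (nat_lit 573451) (nat_lit 9) (.e (nat_lit 1177) (nat_lit 87) (.e (nat_lit 57854) (nat_lit 252) (.e (nat_lit 57373) (nat_lit 2) (.e (nat_lit 90128) (nat_lit 9) .nil))))))))) (.g (nat_lit 4) .nil .nil)))) (.nd (nat_lit 6) 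
(.lf (nat_lit 7080) (.g (nat_lit 2853) (.e (nat_lit 307) (nat_lit 22) (.e (nat_lit 344129) (nat_lit 26) (.e (nat_lit 557103) (nat_lit 14) (.e (nat_lit 180250) (nat_lit 10) (.e (nat_lit 573475) (nat_lit 12) .nil))))) .nil)) 
(.lf (nat_lit 7144) (.g (nat_lit 2680) (.e (nat_lit 307) (nat_lit 22) (.e (nat_lit 344131) (nat_lit 26) (.e (nat_lit 557105) (nat_lit 14) (.e (nat_lit 180252) (nat_lit 10) (.e (nat_lit 573473) (nat_lit 12) (.e (nat_lit 57508) (nat_lit 39) (.e (nat_lit 647200) (nat_lit 12) (.e (nat_lit 57477) (nat_lit 28) (.e (nat_lit 557066) (nat_lit 9) .nil))))))))) (.g (nat_lit 5) .nil .nil))))) 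
(.nd (nat_lit 5) (.nd (nat_lit 6) 
(.lf (nat_lit 7064) (.g (nat_lit 2262) (.e (nat_lit 307) (nat_lit 22) (.e (nat_lit 344129) (nat_lit 26) (.e (nat_lit 557103) (nat_lit 14) (.e (nat_lit 180225) (nat_lit 0) .nil)))) .nil)) 
(.lf (nat_lit 7128) (.g (nat_lit 3224) (.e (nat_lit 307) (nat_lit 22) (.e (nat_lit 344129) (nat_lit 26) (.e (nat_lit 557104) (nat_lit 14) (.e (nat_lit 180262) (nat_lit 21) (.e (nat_lit 663567) (nat_lit 4) (.e (nat_lit 65580) (nat_lit 6) (.e (nat_lit 147467) (nat_lit 9) .nil))))))) (.g (nat_lit 5) .nil .nil)))) (.nd (nat_lit 6) 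
(.lf (nat_lit 7096) (.g (nat_lit 2019) (.e (nat_lit 307) (nat_lit 22) (.e (nat_lit 344129) (nat_lit 26) (.e (nat_lit 557104) (nat_lit 14) (.e (nat_lit 180233) (nat_lit 0) .nil)))) .nil)) 
(.lf (nat_lit 7160) (.g (nat_lit 912) (.e (nat_lit 7936) (nat_lit 22) (.e (nat_lit 344117) (nat_lit 21) (.e (nat_lit 516195) (nat_lit 26) (.e (nat_lit 336027) (nat_lit 3) .nil)))) .nil)))))) (.nd (nat_lit 3) (.nd (nat_lit 4) (.nd (nat_lit 5) (.nd (nat_lit 6) 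
(.lf (nat_lit 7044) (.g (nat_lit 3453) (.e (nat_lit 307) (nat_lit 22) (.e (nat_lit 344129) (nat_lit 26) (.e (nat_lit 557096) (nat_lit 13) (.e (nat_lit 172067) (nat_lit 3) (.e (nat_lit 204809) (nat_lit 9) (.e (nat_lit 426123) (nat_lit 2) (.e (nat_lit 204544) (nat_lit 0) .nil))))))) (.g (nat_lit 4) .nil .nil))) 
(.lf (nat_lit 7108) (.g (nat_lit 2952) (.e (nat_lit 307) (nat_lit 22) (.e (nat_lit 344129) (nat_lit 26) (.e (nat_lit 557104) (nat_lit 14) (.e (nat_lit 180252) (nat_lit 10) (.e (nat_lit 573449) (nat_lit 9) .nil))))) .nil))) (.nd (nat_lit 6) 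
(.lf (nat_lit 7076) (.g (nat_lit 4467) (.e (nat_lit 307) (nat_lit 22) (.e (nat_lit 344129) (nat_lit 26) (.e (nat_lit 557103) (nat_lit 14) (.e (nat_lit 180250) (nat_lit 10) (.e (nat_lit 573473) (nat_lit 12) (.e (nat_lit 57508) (nat_lit 39) (.e (nat_lit 647200) (nat_lit 12) (.e (nat_lit 57477) (nat_lit 28) (.e (nat_lit 557066) (nat_lit 9) .nil))))))))) (.g (nat_lit 6) .nil .nil))) 
(.lf (nat_lit 7140) (.g (nat_lit 3863) (.e (nat_lit 307) (nat_lit 22) (.e (nat_lit 344129) (nat_lit 26) (.e (nat_lit 557105) (nat_lit 14) (.e (nat_lit 180252) (nat_lit 10) (.e (nat_lit 573475) (nat_lit 12) .nil))))) .nil)))) (.nd (nat_lit 5) (.nd (nat_lit 6) 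
(.lf (nat_lit 7060) (.g (nat_lit 2259) (.e (nat_lit 307) (nat_lit 22) (.e (nat_lit 344129) (nat_lit 26) (.e (nat_lit 557097) (nat_lit 13) (.e (nat_lit 172066) (nat_lit 3) (.e (nat_lit 204824) (nat_lit 17) .nil))))) .nil)) 
(.lf (nat_lit 7124) (.g (nat_lit 4777) (.e (nat_lit 307) (nat_lit 22) (.e (nat_lit 344129) (nat_lit 26) (.e (nat_lit 557104) (nat_lit 14) (.e (nat_lit 180252) (nat_lit 10) (.e (nat_lit 573475) (nat_lit 12) (.e (nat_lit 57507) (nat_lit 39) (.e (nat_lit 647200) (nat_lit 12) (.e (nat_lit 57477) (nat_lit 28) (.e (nat_lit 557066) (nat_lit 9) .nil))))))))) (.g (nat_lit 6) .nil .nil)))) (.nd (nat_lit 6) 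
(.lf (nat_lit 7092) (.g (nat_lit 2225) (.e (nat_lit 307) (nat_lit 22) (.e (nat_lit 344129) (nat_lit 26) (.e (nat_lit 557104) (nat_lit 14) (.e (nat_lit 180229) (nat_lit 0) .nil)))) .nil)) 
(.lf (nat_lit 7156) (.g (nat_lit 1055) (.e (nat_lit 7936) (nat_lit 22) (.e (nat_lit 344068) (nat_lit 0) (.e (nat_lit 2856) (nat_lit 184) (.e (nat_lit 426550) (nat_lit 31) .nil)))) .nil))))) (.nd (nat_lit 4) (.nd (nat_lit 5) (.nd (nat_lit 6) 
(.lf (nat_lit 7052) (.g (nat_lit 1862) (.e (nat_lit 307) (nat_lit 22) (.e (nat_lit 344129) (nat_lit 26) (.e (nat_lit 557097) (nat_lit 13) (.e (nat_lit 172064) (nat_lit 2) .nil)))) .nil)) 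
(.lf (nat_lit 7116) (.g (nat_lit 3329) (.e (nat_lit 307) (nat_lit 22) (.e (nat_lit 344129) (nat_lit 26) (.e (nat_lit 557104) (nat_lit 14) (.e (nat_lit 180252) (nat_lit 10) (.e (nat_lit 573473) (nat_lit 12) (.e (nat_lit 57507) (nat_lit 39) (.e (nat_lit 647201) (nat_lit 12) (.e (nat_lit 57478) (nat_lit 28) (.e (nat_lit 557066) (nat_lit 9) .nil))))))))) (.g (nat_lit 4) .nil .nil)))) (.nd (nat_lit 6) 
(.lf (nat_lit 7084) (.g (nat_lit 4432) (.e (nat_lit 307) (nat_lit 22) (.e (nat_lit 344129) (nat_lit 26) (.e (nat_lit 557103) (nat_lit 14) (.e (nat_lit 180250) (nat_lit 10) (.e (nat_lit 573475) (nat_lit 12) (.e (nat_lit 57508) (nat_lit 39) (.e (nat_lit 647200) (nat_lit 12) (.e (nat_lit 57480) (nat_lit 28) (.e (nat_lit 557066) (nat_lit 9) .nil))))))))) (.g (nat_lit 5) .nil .nil))) 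
(.lf (nat_lit 7148) (.g (nat_lit 540) (.e (nat_lit 307) (nat_lit 22) (.e (nat_lit 344160) (nat_lit 37) (.e (nat_lit 647183) (nat_lit 4) .nil))) .nil)))) (.nd (nat_lit 5) (.nd (nat_lit 6) 
(.lf (nat_lit 7068) (.g (nat_lit 2224) (.e (nat_lit 307) (nat_lit 22) (.e (nat_lit 344129) (nat_lit 26) (.e (nat_lit 557103) (nat_lit 14) (.e (nat_lit 180234) (nat_lit 1) .nil)))) .nil)) 
(.lf (nat_lit 7132) (.g (nat_lit 2219) (.e (nat_lit 307) (nat_lit 22) (.e (nat_lit 344129) (nat_lit 26) (.e (nat_lit 557104) (nat_lit 14) (.e (nat_lit 180266) (nat_lit 22) .nil)))) .nil))) (.nd (nat_lit 6) 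
(.lf (nat_lit 7100) (.g (nat_lit 2547) (.e (nat_lit 307) (nat_lit 22) (.e (nat_lit 344129) (nat_lit 26) (.e (nat_lit 557104) (nat_lit 14) (.e (nat_lit 180233) (nat_lit 0) (.e (nat_lit 5949) (nat_lit 322) .nil))))) .nil)) 
(.lf (nat_lit 7164) (.g (nat_lit 1690) (.e (nat_lit 7936) (nat_lit 22) (.e (nat_lit 344129) (nat_lit 26) (.e (nat_lit 557097) (nat_lit 13) (.e (nat_lit 172065) (nat_lit 3) .nil)))) .nil))))))) (.nd (nat_lit 2) (.nd (nat_lit 3) (.nd (nat_lit 4) (.nd (nat_lit 5) (.nd (nat_lit 6) 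
(.lf (nat_lit 7042) (.g (nat_lit 3939) (.e (nat_lit 307) (nat_lit 22) (.e (nat_lit 344129) (nat_lit 26) (.e (nat_lit 557067) (nat_lit 9) (.e (nat_lit 2975) (nat_lit 185) (.e (nat_lit 434276) (nat_lit 39) (.e (nat_lit 663567) (nat_lit 4) (.e (nat_lit 65580) (nat_lit 6) (.e (nat_lit 147467) (nat_lit 9) .nil)))))))) (.g (nat_lit 5) .nil .nil))) 
(.lf (nat_lit 7106) (.g (nat_lit 3294) (.e (nat_lit 307) (nat_lit 22) (.e (nat_lit 344129) (nat_lit 26) (.e (nat_lit 557104) (nat_lit 14) (.e (nat_lit 180250) (nat_lit 10) (.e (nat_lit 573473) (nat_lit 12) .nil))))) .nil))) (.nd (nat_lit 6) 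
(.lf (nat_lit 7074) (.g (nat_lit 2916) (.e (nat_lit 307) (nat_lit 22) (.e (nat_lit 344129) (nat_lit 26) (.e (nat_lit 557103) (nat_lit 14) (.e (nat_lit 180250) (nat_lit 10) (.e (nat_lit 573473) (nat_lit 12) .nil))))) .nil)) 
(.lf (nat_lit 7138) (.g (nat_lit 3826) (.e (nat_lit 307) (nat_lit 22) (.e (nat_lit 344129) (nat_lit 26) (.e (nat_lit 557105) (nat_lit 14) (.e (nat_lit 180252) (nat_lit 10) (.e (nat_lit 573474) (nat_lit 12) (.e (nat_lit 57507) (nat_lit 39) (.e (nat_lit 647200) (nat_lit 12) (.e (nat_lit 57480) (nat_lit 28) (.e (nat_lit 557066) (nat_lit 9) .nil))))))))) (.g (nat_lit 4) .nil .nil))))) 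
(.nd (nat_lit 5) (.nd (nat_lit 6) 
(.lf (nat_lit 7058) (.g (nat_lit 3581) (.e (nat_lit 307) (nat_lit 22) (.e (nat_lit 344129) (nat_lit 26) (.e (nat_lit 557097) (nat_lit 13) (.e (nat_lit 172066) (nat_lit 3) (.e (nat_lit 204809) (nat_lit 9) (.e (nat_lit 426123) (nat_lit 2) (.e (nat_lit 204544) (nat_lit 0) .nil))))))) (.g (nat_lit 6) .nil .nil))) 
(.lf (nat_lit 7122) (.g (nat_lit 3024) (.e (nat_lit 307) (nat_lit 22) (.e (nat_lit 344129) (nat_lit 26) (.e (nat_lit 557104) (nat_lit 14) (.e (nat_lit 180252) (nat_lit 10) (.e (nat_lit 573475) (nat_lit 12) .nil))))) .nil))) (.nd (nat_lit 6) 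
(.lf (nat_lit 7090) (.g (nat_lit 2250) (.e (nat_lit 307) (nat_lit 22) (.e (nat_lit 344129) (nat_lit 26) (.e (nat_lit 557104) (nat_lit 14) (.e (nat_lit 180227) (nat_lit 0) .nil)))) .nil)) 
(.lf (nat_lit 7154) (.g (nat_lit 363) (.e (nat_lit 7936) (nat_lit 22) (.e (nat_lit 344068) (nat_lit 0) (.e (nat_lit 2856) (nat_lit 184) .nil))) .nil))))) (.nd (nat_lit 4) (.nd (nat_lit 5) (.nd (nat_lit 6) 
(.lf (nat_lit 7050) (.g (nat_lit 2491) (.e (nat_lit 307) (nat_lit 22) (.e (nat_lit 344129) (nat_lit 26) (.e (nat_lit 557097) (nat_lit 13) (.e (nat_lit 172062) (nat_lit 2) (.e (nat_lit 196661) (nat_lit 12) (.e (nat_lit 57353) (nat_lit 0) (.e (nat_lit 7261) (nat_lit 384) (.e (nat_lit 57371) (nat_lit 2) (.e (nat_lit 90128) (nat_lit 9) .nil))))))))) (.g (nat_lit 4) .nil .nil))) 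
(.lf (nat_lit 7114) (.g (nat_lit 3304) (.e (nat_lit 307) (nat_lit 22) (.e (nat_lit 344129) (nat_lit 26) (.e (nat_lit 557104) (nat_lit 14) (.e (nat_lit 180252) (nat_lit 10) (.e (nat_lit 573473) (nat_lit 12) (.e (nat_lit 57506) (nat_lit 39) (.e (nat_lit 647200) (nat_lit 12) (.e (nat_lit 57480) (nat_lit 28) (.e (nat_lit 557066) (nat_lit 9) .nil))))))))) (.g (nat_lit 4) .nil .nil)))) (.nd (nat_lit 6) 
(.lf (nat_lit 7082) (.g (nat_lit 4165) (.e (nat_lit 307) (nat_lit 22) (.e (nat_lit 344129) (nat_lit 26) (.e (nat_lit 557103) (nat_lit 14) (.e (nat_lit 180250) (nat_lit 10) (.e (nat_lit 573475) (nat_lit 12) (.e (nat_lit 57507) (nat_lit 39) (.e (nat_lit 647200) (nat_lit 12) (.e (nat_lit 57477) (nat_lit 28) (.e (nat_lit 557066) (nat_lit 9) .nil))))))))) (.g (nat_lit 5) .nil .nil))) 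
(.lf (nat_lit 7146) (.g (nat_lit 2833) (.e (nat_lit 307) (nat_lit 22) (.e (nat_lit 344131) (nat_lit 26) (.e (nat_lit 557105) (nat_lit 14) (.e (nat_lit 180252) (nat_lit 10) (.e (nat_lit 573474) (nat_lit 12) (.e (nat_lit 57508) (nat_lit 39) (.e (nat_lit 647200) (nat_lit 12) (.e (nat_lit 57477) (nat_lit 28) (.e (nat_lit 557066) (nat_lit 9) .nil))))))))) (.g (nat_lit 5) .nil .nil))))) 
(.nd (nat_lit 5) (.nd (nat_lit 6) 
(.lf (nat_lit 7066) (.g (nat_lit 2168) (.e (nat_lit 307) (nat_lit 22) (.e (nat_lit 344129) (nat_lit 26) (.e (nat_lit 557103) (nat_lit 14) (.e (nat_lit 180229) (nat_lit 0) .nil)))) .nil)) 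
(.lf (nat_lit 7130) (.g (nat_lit 2149) (.e (nat_lit 307) (nat_lit 22) (.e (nat_lit 344129) (nat_lit 26) (.e (nat_lit 557104) (nat_lit 14) (.e (nat_lit 180265) (nat_lit 21) .nil)))) .nil))) (.nd (nat_lit 6) 
(.lf (nat_lit 7098) (.g (nat_lit 3888) (.e (nat_lit 307) (nat_lit 22) (.e (nat_lit 344129) (nat_lit 26) (.e (nat_lit 557104) (nat_lit 14) (.e (nat_lit 180233) (nat_lit 0) (.e (nat_lit 5817) (nat_lit 320) (.e (nat_lit 1201) (nat_lit 88) (.e (nat_lit 65578) (nat_lit 6) (.e (nat_lit 147467) (nat_lit 9) .nil)))))))) (.g (nat_lit 6) .nil .nil))) 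
(.lf (nat_lit 7162) (.g (nat_lit 1871) (.e (nat_lit 7936) (nat_lit 22) (.e (nat_lit 344129) (nat_lit 26) (.e (nat_lit 557097) (nat_lit 13) (.e (nat_lit 172062) (nat_lit 2) .nil)))) .nil)))))) (.nd (nat_lit 3) (.nd (nat_lit 4) (.nd (nat_lit 5) (.nd (nat_lit 6) 
(.lf (nat_lit 7046) (.g (nat_lit 2012) (.e (nat_lit 307) (nat_lit 22) (.e (nat_lit 344129) (nat_lit 26) (.e (nat_lit 557097) (nat_lit 13) (.e (nat_lit 172041) (nat_lit 0) .nil)))) .nil)) 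
(.lf (nat_lit 7110) (.g (nat_lit 3277) (.e (nat_lit 307) (nat_lit 22) (.e (nat_lit 344129) (nat_lit 26) (.e (nat_lit 557104) (nat_lit 14) (.e (nat_lit 180252) (nat_lit 10) (.e (nat_lit 573451) (nat_lit 9) (.e (nat_lit 1175) (nat_lit 87) (.e (nat_lit 57849) (nat_lit 252) (.e (nat_lit 57372) (nat_lit 2) (.e (nat_lit 90128) (nat_lit 9) .nil))))))))) (.g (nat_lit 4) .nil .nil)))) (.nd (nat_lit 6) 
(.lf (nat_lit 7078) (.g (nat_lit 5165) (.e (nat_lit 307) (nat_lit 22) (.e (nat_lit 344129) (nat_lit 26) (.e (nat_lit 557103) (nat_lit 14) (.e (nat_lit 180250) (nat_lit 10) (.e (nat_lit 573474) (nat_lit 12) (.e (nat_lit 57507) (nat_lit 39) (.e (nat_lit 647200) (nat_lit 12) (.e (nat_lit 57480) (nat_lit 28) (.e (nat_lit 557066) (nat_lit 9) .nil))))))))) (.g (nat_lit 6) .nil .nil))) 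
(.lf (nat_lit 7142) (.g (nat_lit 2045) (.e (nat_lit 307) (nat_lit 22) (.e (nat_lit 344129) (nat_lit 26) (.e (nat_lit 557113) (nat_lit 17) (.e (nat_lit 237587) (nat_lit 2) (.e (nat_lit 196654) (nat_lit 11) (.e (nat_lit 16412) (nat_lit 2) (.e (nat_lit 204544) (nat_lit 0) .nil))))))) (.g (nat_lit 4) .nil .nil))))) (.nd (nat_lit 5) (.nd (nat_lit 6) 
(.lf (nat_lit 7062) (.g (nat_lit 4493) (.e (nat_lit 307) (nat_lit 22) (.e (nat_lit 344129) (nat_lit 26) (.e (nat_lit 557097) (nat_lit 13) (.e (nat_lit 172067) (nat_lit 3) (.e (nat_lit 204809) (nat_lit 9) (.e (nat_lit 426123) (nat_lit 2) (.e (nat_lit 204544) (nat_lit 0) .nil))))))) (.g (nat_lit 6) .nil .nil))) 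
(.lf (nat_lit 7126) (.g (nat_lit 3050) (.e (nat_lit 307) (nat_lit 22) (.e (nat_lit 344129) (nat_lit 26) (.e (nat_lit 557104) (nat_lit 14) (.e (nat_lit 180252) (nat_lit 10) (.e (nat_lit 573475) (nat_lit 12) (.e (nat_lit 57509) (nat_lit 39) (.e (nat_lit 647200) (nat_lit 12) (.e (nat_lit 57480) (nat_lit 28) (.e (nat_lit 557066) (nat_lit 9) .nil))))))))) (.g (nat_lit 4) .nil .nil)))) (.nd (nat_lit 6) 
(.lf (nat_lit 7094) (.g (nat_lit 3150) (.e (nat_lit 307) (nat_lit 22) (.e (nat_lit 344129) (nat_lit 26) (.e (nat_lit 557104) (nat_lit 14) (.e (nat_lit 180229) (nat_lit 0) (.e (nat_lit 5820) (nat_lit 320) .nil))))) .nil)) 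
(.lf (nat_lit 7158) (.g (nat_lit 1388) (.e (nat_lit 7936) (nat_lit 22) (.e (nat_lit 344069) (nat_lit 0) (.e (nat_lit 2856) (nat_lit 184) (.e (nat_lit 426533) (nat_lit 28) (.e (nat_lit 344085) (nat_lit 15) .nil))))) .nil))))) (.nd (nat_lit 4) (.nd (nat_lit 5) (.nd (nat_lit 6) 
(.lf (nat_lit 7054) (.g (nat_lit 3121) (.e (nat_lit 307) (nat_lit 22) (.e (nat_lit 344129) (nat_lit 26) (.e (nat_lit 557097) (nat_lit 13) (.e (nat_lit 172064) (nat_lit 2) (.e (nat_lit 196661) (nat_lit 12) (.e (nat_lit 57353) (nat_lit 0) (.e (nat_lit 7265) (nat_lit 384) (.e (nat_lit 57371) (nat_lit 2) (.e (nat_lit 90128) (nat_lit 9) .nil))))))))) (.g (nat_lit 4) .nil .nil))) 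
(.lf (nat_lit 7118) (.g (nat_lit 2883) (.e (nat_lit 307) (nat_lit 22) (.e (nat_lit 344129) (nat_lit 26) (.e (nat_lit 557104) (nat_lit 14) (.e (nat_lit 180252) (nat_lit 10) (.e (nat_lit 573474) (nat_lit 12) .nil))))) .nil))) (.nd (nat_lit 6) 
(.lf (nat_lit 7086) (.g (nat_lit 2189) (.e (nat_lit 307) (nat_lit 22) (.e (nat_lit 344129) (nat_lit 26) (.e (nat_lit 557103) (nat_lit 14) (.e (nat_lit 180263) (nat_lit 21) .nil)))) .nil)) 
(.lf (nat_lit 7150) (.g (nat_lit 4472) (.e (nat_lit 307) (nat_lit 22) (.e (nat_lit 344169) (nat_lit 40) (.e (nat_lit 671759) (nat_lit 3) (.e (nat_lit 57479) (nat_lit 28) (.e (nat_lit 557107) (nat_lit 15) (.e (nat_lit 188438) (nat_lit 20) (.e (nat_lit 3304) (nat_lit 202) (.e (nat_lit 581376) (nat_lit 0) .nil)))))))) (.g (nat_lit 5) .nil .nil))))) (.nd (nat_lit 5) (.nd (nat_lit 6) 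
(.lf (nat_lit 7070) (.g (nat_lit 2162) (.e (nat_lit 307) (nat_lit 22) (.e (nat_lit 344129) (nat_lit 26) (.e (nat_lit 557103) (nat_lit 14) (.e (nat_lit 180236) (nat_lit 1) .nil)))) .nil)) 
(.lf (nat_lit 7134) (.g (nat_lit 4522) (.e (nat_lit 307) (nat_lit 22) (.e (nat_lit 344129) (nat_lit 26) (.e (nat_lit 557104) (nat_lit 14) (.e (nat_lit 180266) (nat_lit 22) (.e (nat_lit 671762) (nat_lit 4) (.e (nat_lit 65580) (nat_lit 6) (.e (nat_lit 147467) (nat_lit 9) .nil))))))) (.g (nat_lit 7) .nil .nil)))) (.nd (nat_lit 6) 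
(.lf (nat_lit 7102) (.g (nat_lit 2260) (.e (nat_lit 307) (nat_lit 22) (.e (nat_lit 344129) (nat_lit 26) (.e (nat_lit 557104) (nat_lit 14) (.e (nat_lit 180236) (nat_lit 1) .nil)))) .nil)) 
(.lf (nat_lit 7166) (.g (nat_lit 2266) (.e (nat_lit 7936) (nat_lit 22) (.e (nat_lit 344129) (nat_lit 26) (.e (nat_lit 557097) (nat_lit 13) (.e (nat_lit 172066) (nat_lit 3) (.e (nat_lit 204824) (nat_lit 17) .nil))))) .nil)))))))) (.nd (nat_lit 1) (.nd (nat_lit 2) (.nd (nat_lit 3) (.nd (nat_lit 4) (.nd (nat_lit 5) (.nd (nat_lit 6) 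
(.lf (nat_lit 7041) (.g (nat_lit 4433) (.e (nat_lit 307) (nat_lit 22) (.e (nat_lit 344129) (nat_lit 26) (.e (nat_lit 557067) (nat_lit 9) (.e (nat_lit 2975) (nat_lit 185) (.e (nat_lit 434276) (nat_lit 39) (.e (nat_lit 663567) (nat_lit 4) (.e (nat_lit 65578) (nat_lit 6) (.e (nat_lit 147467) (nat_lit 9) .nil)))))))) (.g (nat_lit 6) .nil .nil))) 
(.lf (nat_lit 7105) (.g (nat_lit 2305) (.e (nat_lit 307) (nat_lit 22) (.e (nat_lit 344129) (nat_lit 26) (.e (nat_lit 557104) (nat_lit 14) (.e (nat_lit 180250) (nat_lit 10) .nil)))) .nil))) (.nd (nat_lit 6) 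
(.lf (nat_lit 7073) (.g (nat_lit 4410) (.e (nat_lit 307) (nat_lit 22) (.e (nat_lit 344129) (nat_lit 26) (.e (nat_lit 557103) (nat_lit 14) (.e (nat_lit 180244) (nat_lit 5) (.e (nat_lit 532579) (nat_lit 26) (.e (nat_lit 426123) (nat_lit 2) (.e (nat_lit 204544) (nat_lit 0) .nil))))))) (.g (nat_lit 6) .nil .nil))) 
(.lf (nat_lit 7137) (.g (nat_lit 3695) (.e (nat_lit 307) (nat_lit 22) (.e (nat_lit 344129) (nat_lit 26) (.e (nat_lit 557105) (nat_lit 14) (.e (nat_lit 180252) (nat_lit 10) (.e (nat_lit 573474) (nat_lit 12) .nil))))) .nil)))) (.nd (nat_lit 5) (.nd (nat_lit 6) 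
(.lf (nat_lit 7057) (.g (nat_lit 1801) (.e (nat_lit 307) (nat_lit 22) (.e (nat_lit 344129) (nat_lit 26) (.e (nat_lit 557097) (nat_lit 13) (.e (nat_lit 172066) (nat_lit 3) .nil)))) .nil)) 
(.lf (nat_lit 7121) (.g (nat_lit 3161) (.e (nat_lit 307) (nat_lit 22) (.e (nat_lit 344129) (nat_lit 26) (.e (nat_lit 557104) (nat_lit 14) (.e (nat_lit 180252) (nat_lit 10) (.e (nat_lit 573474) (nat_lit 12) (.e (nat_lit 57509) (nat_lit 39) (.e (nat_lit 647200) (nat_lit 12) (.e (nat_lit 57477) (nat_lit 28) (.e (nat_lit 557066) (nat_lit 9) .nil))))))))) (.g (nat_lit 4) .nil .nil)))) (.nd (nat_lit 6) 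
(.lf (nat_lit 7089) (.g (nat_lit 2149) (.e (nat_lit 307) (nat_lit 22) (.e (nat_lit 344129) (nat_lit 26) (.e (nat_lit 557104) (nat_lit 14) (.e (nat_lit 180226) (nat_lit 0) .nil)))) .nil)) 
(.lf (nat_lit 7153) (.g (nat_lit 5585) (.e (nat_lit 307) (nat_lit 22) (.e (nat_lit 344169) (nat_lit 40) (.e (nat_lit 671759) (nat_lit 3) (.e (nat_lit 57479) (nat_lit 28) (.e (nat_lit 557109) (nat_lit 15) (.e (nat_lit 188434) (nat_lit 20) (.e (nat_lit 3304) (nat_lit 202) (.e (nat_lit 581376) (nat_lit 0) .nil)))))))) (.g (nat_lit 6) .nil .nil)))))) (.nd (nat_lit 4) (.nd (nat_lit 5) (.nd (nat_lit 6) 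
(.lf (nat_lit 7049) (.g (nat_lit 2773) (.e (nat_lit 307) (nat_lit 22) (.e (nat_lit 344129) (nat_lit 26) (.e (nat_lit 557097) (nat_lit 13) (.e (nat_lit 172062) (nat_lit 2) (.e (nat_lit 196654) (nat_lit 11) (.e (nat_lit 16412) (nat_lit 2) (.e (nat_lit 204544) (nat_lit 0) .nil))))))) (.g (nat_lit 5) .nil .nil))) 
(.lf (nat_lit 7113) (.g (nat_lit 3045) (.e (nat_lit 307) (nat_lit 22) (.e (nat_lit 344129) (nat_lit 26) (.e (nat_lit 557104) (nat_lit 14) (.e (nat_lit 180252) (nat_lit 10) (.e (nat_lit 573473) (nat_lit 12) .nil))))) .nil))) (.nd (nat_lit 6) 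
(.lf (nat_lit 7081) (.g (nat_lit 3038) (.e (nat_lit 307) (nat_lit 22) (.e (nat_lit 344129) (nat_lit 26) (.e (nat_lit 557103) (nat_lit 14) (.e (nat_lit 180250) (nat_lit 10) (.e (nat_lit 573475) (nat_lit 12) (.e (nat_lit 57506) (nat_lit 39) (.e (nat_lit 647200) (nat_lit 12) (.e (nat_lit 57477) (nat_lit 28) (.e (nat_lit 557066) (nat_lit 9) .nil))))))))) (.g (nat_lit 4) .nil .nil))) 
(.lf (nat_lit 7145) (.g (nat_lit 3475) (.e (nat_lit 307) (nat_lit 22) (.e (nat_lit 344131) (nat_lit 26) (.e (nat_lit 557105) (nat_lit 14) (.e (nat_lit 180252) (nat_lit 10) (.e (nat_lit 573474) (nat_lit 12) (.e (nat_lit 57507) (nat_lit 39) (.e (nat_lit 647200) (nat_lit 12) (.e (nat_lit 57480) (nat_lit 28) (.e (nat_lit 557066) (nat_lit 9) .nil))))))))) (.g (nat_lit 5) .nil .nil))))) 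
(.nd (nat_lit 5) (.nd (nat_lit 6) 
(.lf (nat_lit 7065) (.g (nat_lit 3049) (.e (nat_lit 307) (nat_lit 22) (.e (nat_lit 344129) (nat_lit 26) (.e (nat_lit 557103) (nat_lit 14) (.e (nat_lit 180225) (nat_lit 0) (.e (nat_lit 5916) (nat_lit 320) .nil))))) .nil)) 
(.lf (nat_lit 7129) (.g (nat_lit 2157) (.e (nat_lit 307) (nat_lit 22) (.e (nat_lit 344129) (nat_lit 26) (.e (nat_lit 557104) (nat_lit 14) (.e (nat_lit 180264) (nat_lit 21) .nil)))) .nil))) (.nd (nat_lit 6) 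
(.lf (nat_lit 7097) (.g (nat_lit 3681) (.e (nat_lit 307) (nat_lit 22) (.e (nat_lit 344129) (nat_lit 26) (.e (nat_lit 557104) (nat_lit 14) (.e (nat_lit 180233) (nat_lit 0) (.e (nat_lit 5815) (nat_lit 320) (.e (nat_lit 1201) (nat_lit 88) (.e (nat_lit 65578) (nat_lit 6) (.e (nat_lit 147467) (nat_lit 9) .nil)))))))) (.g (nat_lit 6) .nil .nil))) 
(.lf (nat_lit 7161) (.g (nat_lit 2898) (.e (nat_lit 7936) (nat_lit 22) (.e (nat_lit 344129) (nat_lit 26) (.e (nat_lit 557096) (nat_lit 13) (.e (nat_lit 172067) (nat_lit 3) (.e (nat_lit 204809) (nat_lit 9) .nil))))) .nil)))))) (.nd (nat_lit 3) (.nd (nat_lit 4) (.nd (nat_lit 5) (.nd (nat_lit 6) 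
(.lf (nat_lit 7045) (.g (nat_lit 490) (.e (nat_lit 307) (nat_lit 22) (.e (nat_lit 344129) (nat_lit 26) (.e (nat_lit 557097) (nat_lit 13) .nil))) .nil)) 
(.lf (nat_lit 7109) (.g (nat_lit 3012) (.e (nat_lit 307) (nat_lit 22) (.e (nat_lit 344129) (nat_lit 26) (.e (nat_lit 557104) (nat_lit 14) (.e (nat_lit 180252) (nat_lit 10) (.e (nat_lit 573451) (nat_lit 9) (.e (nat_lit 1169) (nat_lit 87) (.e (nat_lit 57849) (nat_lit 252) (.e (nat_lit 57372) (nat_lit 2) (.e (nat_lit 90128) (nat_lit 9) .nil))))))))) (.g (nat_lit 4) .nil .nil)))) (.nd (nat_lit 6) 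
(.lf (nat_lit 7077) (.g (nat_lit 3905) (.e (nat_lit 307) (nat_lit 22) (.e (nat_lit 344129) (nat_lit 26) (.e (nat_lit 557103) (nat_lit 14) (.e (nat_lit 180250) (nat_lit 10) (.e (nat_lit 573473) (nat_lit 12) (.e (nat_lit 57508) (nat_lit 39) (.e (nat_lit 647201) (nat_lit 12) (.e (nat_lit 57478) (nat_lit 28) (.e (nat_lit 557066) (nat_lit 9) .nil))))))))) (.g (nat_lit 5) .nil .nil))) 
(.lf (nat_lit 7141) (.g (nat_lit 717) (.e (nat_lit 307) (nat_lit 22) (.e (nat_lit 344129) (nat_lit 26) (.e (nat_lit 557113) (nat_lit 17) .nil))) .nil)))) (.nd (nat_lit 5) (.nd (nat_lit 6) 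
(.lf (nat_lit 7061) (.g (nat_lit 2912) (.e (nat_lit 307) (nat_lit 22) (.e (nat_lit 344129) (nat_lit 26) (.e (nat_lit 557097) (nat_lit 13) (.e (nat_lit 172067) (nat_lit 3) (.e (nat_lit 204809) (nat_lit 9) .nil))))) .nil)) 
(.lf (nat_lit 7125) (.g (nat_lit 4797) (.e (nat_lit 307) (nat_lit 22) (.e (nat_lit 344129) (nat_lit 26) (.e (nat_lit 557104) (nat_lit 14) (.e (nat_lit 180252) (nat_lit 10) (.e (nat_lit 573475) (nat_lit 12) (.e (nat_lit 57508) (nat_lit 39) (.e (nat_lit 647200) (nat_lit 12) (.e (nat_lit 57477) (nat_lit 28) (.e (nat_lit 557066) (nat_lit 9) .nil))))))))) (.g (nat_lit 6) .nil .nil)))) (.nd (nat_lit 6) 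
(.lf (nat_lit 7093) (.g (nat_lit 3178) (.e (nat_lit 307) (nat_lit 22) (.e (nat_lit 344129) (nat_lit 26) (.e (nat_lit 557104) (nat_lit 14) (.e (nat_lit 180229) (nat_lit 0) (.e (nat_lit 5815) (nat_lit 320) (.e (nat_lit 1201) (nat_lit 88) (.e (nat_lit 65578) (nat_lit 6) (.e (nat_lit 147467) (nat_lit 9) .nil)))))))) (.g (nat_lit 4) .nil .nil))) 
(.lf (nat_lit 7157) (.g (nat_lit 599) (.e (nat_lit 7936) (nat_lit 22) (.e (nat_lit 344068) (nat_lit 0) (.e (nat_lit 2857) (nat_lit 184) (.e (nat_lit 426533) (nat_lit 28) .nil)))) .nil))))) (.nd (nat_lit 4) (.nd (nat_lit 5) (.nd (nat_lit 6) 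
(.lf (nat_lit 7053) (.g (nat_lit 2772) (.e (nat_lit 307) (nat_lit 22) (.e (nat_lit 344129) (nat_lit 26) (.e (nat_lit 557097) (nat_lit 13) (.e (nat_lit 172064) (nat_lit 2) (.e (nat_lit 196656) (nat_lit 11) (.e (nat_lit 16412) (nat_lit 2) (.e (nat_lit 204544) (nat_lit 0) .nil))))))) (.g (nat_lit 4) .nil .nil))) 
(.lf (nat_lit 7117) (.g (nat_lit 3211) (.e (nat_lit 307) (nat_lit 22) (.e (nat_lit 344129) (nat_lit 26) (.e (nat_lit 557104) (nat_lit 14) (.e (nat_lit 180252) (nat_lit 10) (.e (nat_lit 573473) (nat_lit 12) (.e (nat_lit 57511) (nat_lit 39) (.e (nat_lit 647200) (nat_lit 12) (.e (nat_lit 57480) (nat_lit 28) (.e (nat_lit 557066) (nat_lit 9) .nil))))))))) (.g (nat_lit 4) .nil .nil)))) (.nd (nat_lit 6) 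
(.lf (nat_lit 7085) (.g (nat_lit 3255) (.e (nat_lit 307) (nat_lit 22) (.e (nat_lit 344129) (nat_lit 26) (.e (nat_lit 557103) (nat_lit 14) (.e (nat_lit 180250) (nat_lit 10) (.e (nat_lit 573475) (nat_lit 12) (.e (nat_lit 57508) (nat_lit 39) (.e (nat_lit 647201) (nat_lit 12) (.e (nat_lit 57478) (nat_lit 28) (.e (nat_lit 557066) (nat_lit 9) .nil))))))))) (.g (nat_lit 4) .nil .nil))) 
(.lf (nat_lit 7149) (.g (nat_lit 561) (.e (nat_lit 307) (nat_lit 22) (.e (nat_lit 344169) (nat_lit 40) (.e (nat_lit 671759) (nat_lit 3) .nil))) .nil)))) (.nd (nat_lit 5) (.nd (nat_lit 6) 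
(.lf (nat_lit 7069) (.g (nat_lit 2830) (.e (nat_lit 307) (nat_lit 22) (.e (nat_lit 344129) (nat_lit 26) (.e (nat_lit 557103) (nat_lit 14) (.e (nat_lit 180235) (nat_lit 1) (.e (nat_lit 500046) (nat_lit 16) (.e (nat_lit 16412) (nat_lit 2) (.e (nat_lit 204544) (nat_lit 0) .nil))))))) (.g (nat_lit 5) .nil .nil))) 
(.lf (nat_lit 7133) (.g (nat_lit 3373) (.e (nat_lit 307) (nat_lit 22) (.e (nat_lit 344129) (nat_lit 26) (.e (nat_lit 557104) (nat_lit 14) (.e (nat_lit 180266) (nat_lit 22) (.e (nat_lit 671762) (nat_lit 4) (.e (nat_lit 65578) (nat_lit 6) (.e (nat_lit 147467) (nat_lit 9) .nil))))))) (.g (nat_lit 5) .nil .nil)))) (.nd (nat_lit 6) 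
(.lf (nat_lit 7101) (.g (nat_lit 2746) (.e (nat_lit 307) (nat_lit 22) (.e (nat_lit 344129) (nat_lit 26) (.e (nat_lit 557104) (nat_lit 14) (.e (nat_lit 180234) (nat_lit 1) (.e (nat_lit 500046) (nat_lit 16) (.e (nat_lit 16412) (nat_lit 2) (.e (nat_lit 204544) (nat_lit 0) .nil))))))) (.g (nat_lit 4) .nil .nil))) 
(.lf (nat_lit 7165) (.g (nat_lit 2266) (.e (nat_lit 7936) (nat_lit 22) (.e (nat_lit 344129) (nat_lit 26) (.e (nat_lit 557097) (nat_lit 13) (.e (nat_lit 172066) (nat_lit 3) (.e (nat_lit 204809) (nat_lit 9) .nil))))) .nil))))))) (.nd (nat_lit 2) (.nd (nat_lit 3) (.nd (nat_lit 4) (.nd (nat_lit 5) (.nd (nat_lit 6) 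
(.lf (nat_lit 7043) (.g (nat_lit 2614) (.e (nat_lit 307) (nat_lit 22) (.e (nat_lit 344129) (nat_lit 26) (.e (nat_lit 557096) (nat_lit 13) (.e (nat_lit 172064) (nat_lit 2) (.e (nat_lit 196661) (nat_lit 12) (.e (nat_lit 57353) (nat_lit 0) (.e (nat_lit 7261) (nat_lit 384) (.e (nat_lit 57371) (nat_lit 2) (.e (nat_lit 90128) (nat_lit 9) .nil))))))))) (.g (nat_lit 4) .nil .nil))) 
(.lf (nat_lit 7107) (.g (nat_lit 2014) (.e (nat_lit 307) (nat_lit 22) (.e (nat_lit 344129) (nat_lit 26) (.e (nat_lit 557104) (nat_lit 14) (.e (nat_lit 180252) (nat_lit 10) .nil)))) .nil))) (.nd (nat_lit 6) 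
(.lf (nat_lit 7075) (.g (nat_lit 3828) (.e (nat_lit 307) (nat_lit 22) (.e (nat_lit 344129) (nat_lit 26) (.e (nat_lit 557103) (nat_lit 14) (.e (nat_lit 180250) (nat_lit 10) (.e (nat_lit 573473) (nat_lit 12) (.e (nat_lit 57507) (nat_lit 39) (.e (nat_lit 647200) (nat_lit 12) (.e (nat_lit 57477) (nat_lit 28) (.e (nat_lit 557066) (nat_lit 9) .nil))))))))) (.g (nat_lit 5) .nil .nil))) 
(.lf (nat_lit 7139) (.g (nat_lit 3777) (.e (nat_lit 307) (nat_lit 22) (.e (nat_lit 344129) (nat_lit 26) (.e (nat_lit 557105) (nat_lit 14) (.e (nat_lit 180252) (nat_lit 10) (.e (nat_lit 573474) (nat_lit 12) (.e (nat_lit 57508) (nat_lit 39) (.e (nat_lit 647200) (nat_lit 12) (.e (nat_lit 57480) (nat_lit 28) (.e (nat_lit 557066) (nat_lit 9) .nil))))))))) (.g (nat_lit 4) .nil .nil))))) 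
(.nd (nat_lit 5) (.nd (nat_lit 6) 
(.lf (nat_lit 7059) (.g (nat_lit 2446) (.e (nat_lit 307) (nat_lit 22) (.e (nat_lit 344129) (nat_lit 26) (.e (nat_lit 557097) (nat_lit 13) (.e (nat_lit 172066) (nat_lit 3) (.e (nat_lit 204822) (nat_lit 17) (.e (nat_lit 1014) (nat_lit 81) (.e (nat_lit 7261) (nat_lit 384) (.e (nat_lit 57371) (nat_lit 2) (.e (nat_lit 90128) (nat_lit 9) .nil))))))))) (.g (nat_lit 4) .nil .nil))) 
(.lf (nat_lit 7123) (.g (nat_lit 4297) (.e (nat_lit 307) (nat_lit 22) (.e (nat_lit 344129) (nat_lit 26) (.e (nat_lit 557104) (nat_lit 14) (.e (nat_lit 180252) (nat_lit 10) (.e (nat_lit 573475) (nat_lit 12) (.e (nat_lit 57506) (nat_lit 39) (.e (nat_lit 647200) (nat_lit 12) (.e (nat_lit 57480) (nat_lit 28) (.e (nat_lit 557066) (nat_lit 9) .nil))))))))) (.g (nat_lit 5) .nil .nil)))) (.nd (nat_lit 6) 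
(.lf (nat_lit 7091) (.g (nat_lit 2701) (.e (nat_lit 307) (nat_lit 22) (.e (nat_lit 344129) (nat_lit 26) (.e (nat_lit 557104) (nat_lit 14) (.e (nat_lit 180227) (nat_lit 0) (.e (nat_lit 5945) (nat_lit 322) .nil))))) .nil)) 
(.lf (nat_lit 7155) (.g (nat_lit 1817) (.e (nat_lit 7936) (nat_lit 22) (.e (nat_lit 344068) (nat_lit 0) (.e (nat_lit 2856) (nat_lit 184) (.e (nat_lit 426533) (nat_lit 28) (.e (nat_lit 344085) (nat_lit 15) .nil))))) .nil))))) (.nd (nat_lit 4) (.nd (nat_lit 5) (.nd (nat_lit 6) 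
(.lf (nat_lit 7051) (.g (nat_lit 1887) (.e (nat_lit 307) (nat_lit 22) (.e (nat_lit 344129) (nat_lit 26) (.e (nat_lit 557097) (nat_lit 13) (.e (nat_lit 172063) (nat_lit 2) .nil)))) .nil)) 
(.lf (nat_lit 7115) (.g (nat_lit 4403) (.e (nat_lit 307) (nat_lit 22) (.e (nat_lit 344129) (nat_lit 26) (.e (nat_lit 557104) (nat_lit 14) (.e (nat_lit 180252) (nat_lit 10) (.e (nat_lit 573473) (nat_lit 12) (.e (nat_lit 57507) (nat_lit 39) (.e (nat_lit 647200) (nat_lit 12) (.e (nat_lit 57477) (nat_lit 28) (.e (nat_lit 557066) (nat_lit 9) .nil))))))))) (.g (nat_lit 6) .nil .nil)))) (.nd (nat_lit 6) 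
(.lf (nat_lit 7083) (.g (nat_lit 3066) (.e (nat_lit 307) (nat_lit 22) (.e (nat_lit 344129) (nat_lit 26) (.e (nat_lit 557103) (nat_lit 14) (.e (nat_lit 180250) (nat_lit 10) (.e (nat_lit 573475) (nat_lit 12) (.e (nat_lit 57507) (nat_lit 39) (.e (nat_lit 647201) (nat_lit 12) (.e (nat_lit 57478) (nat_lit 28) (.e (nat_lit 557066) (nat_lit 9) .nil))))))))) (.g (nat_lit 4) .nil .nil))) 
(.lf (nat_lit 7147) (.g (nat_lit 2333) (.e (nat_lit 307) (nat_lit 22) (.e (nat_lit 344131) (nat_lit 26) (.e (nat_lit 557105) (nat_lit 14) (.e (nat_lit 180252) (nat_lit 10) (.e (nat_lit 573474) (nat_lit 12) (.e (nat_lit 57508) (nat_lit 39) (.e (nat_lit 647201) (nat_lit 12) (.e (nat_lit 57478) (nat_lit 28) (.e (nat_lit 557066) (nat_lit 9) .nil))))))))) (.g (nat_lit 4) .nil .nil))))) 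
(.nd (nat_lit 5) (.nd (nat_lit 6) 
(.lf (nat_lit 7067) (.g (nat_lit 2224) (.e (nat_lit 307) (nat_lit 22) (.e (nat_lit 344129) (nat_lit 26) (.e (nat_lit 557103) (nat_lit 14) (.e (nat_lit 180233) (nat_lit 0) .nil)))) .nil)) 
(.lf (nat_lit 7131) (.g (nat_lit 2348) (.e (nat_lit 307) (nat_lit 22) (.e (nat_lit 344129) (nat_lit 26) (.e (nat_lit 557104) (nat_lit 14) (.e (nat_lit 180265) (nat_lit 21) (.e (nat_lit 671488) (nat_lit 0) .nil))))) .nil))) (.nd (nat_lit 6) 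
(.lf (nat_lit 7099) (.g (nat_lit 2935) (.e (nat_lit 307) (nat_lit 22) (.e (nat_lit 344129) (nat_lit 26) (.e (nat_lit 557104) (nat_lit 14) (.e (nat_lit 180233) (nat_lit 0) (.e (nat_lit 5948) (nat_lit 322) (.e (nat_lit 57417) (nat_lit 12) (.e (nat_lit 336051) (nat_lit 6) (.e (nat_lit 147467) (nat_lit 9) .nil)))))))) (.g (nat_lit 4) .nil .nil))) 
(.lf (nat_lit 7163) (.g (nat_lit 2505) (.e (nat_lit 7936) (nat_lit 22) (.e (nat_lit 344129) (nat_lit 26) (.e (nat_lit 557097) (nat_lit 13) (.e (nat_lit 172064) (nat_lit 2) (.e (nat_lit 196661) (nat_lit 12) .nil))))) .nil)))))) (.nd (nat_lit 3) (.nd (nat_lit 4) (.nd (nat_lit 5) (.nd (nat_lit 6) 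
(.lf (nat_lit 7047) (.g (nat_lit 1982) (.e (nat_lit 307) (nat_lit 22) (.e (nat_lit 344129) (nat_lit 26) (.e (nat_lit 557097) (nat_lit 13) (.e (nat_lit 172045) (nat_lit 0) .nil)))) .nil)) 
(.lf (nat_lit 7111) (.g (nat_lit 3201) (.e (nat_lit 307) (nat_lit 22) (.e (nat_lit 344129) (nat_lit 26) (.e (nat_lit 557104) (nat_lit 14) (.e (nat_lit 180252) (nat_lit 10) (.e (nat_lit 573451) (nat_lit 9) (.e (nat_lit 1177) (nat_lit 87) (.e (nat_lit 57849) (nat_lit 252) (.e (nat_lit 57372) (nat_lit 2) (.e (nat_lit 90128) (nat_lit 9) .nil))))))))) (.g (nat_lit 4) .nil .nil)))) (.nd (nat_lit 6) 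
(.lf (nat_lit 7079) (.g (nat_lit 4303) (.e (nat_lit 307) (nat_lit 22) (.e (nat_lit 344129) (nat_lit 26) (.e (nat_lit 557103) (nat_lit 14) (.e (nat_lit 180250) (nat_lit 10) (.e (nat_lit 573474) (nat_lit 12) (.e (nat_lit 57508) (nat_lit 39) (.e (nat_lit 647200) (nat_lit 12) (.e (nat_lit 57480) (nat_lit 28) (.e (nat_lit 557066) (nat_lit 9) .nil))))))))) (.g (nat_lit 5) .nil .nil))) 
(.lf (nat_lit 7143) (.g (nat_lit 2729) (.e (nat_lit 307) (nat_lit 22) (.e (nat_lit 344131) (nat_lit 26) (.e (nat_lit 557103) (nat_lit 14) (.e (nat_lit 180244) (nat_lit 5) (.e (nat_lit 532579) (nat_lit 26) (.e (nat_lit 426123) (nat_lit 2) (.e (nat_lit 204544) (nat_lit 0) .nil))))))) (.g (nat_lit 5) .nil .nil))))) (.nd (nat_lit 5) (.nd (nat_lit 6) 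
(.lf (nat_lit 7063) (.g (nat_lit 455) (.e (nat_lit 307) (nat_lit 22) (.e (nat_lit 344129) (nat_lit 26) (.e (nat_lit 557103) (nat_lit 14) .nil))) .nil)) 
(.lf (nat_lit 7127) (.g (nat_lit 2155) (.e (nat_lit 307) (nat_lit 22) (.e (nat_lit 344129) (nat_lit 26) (.e (nat_lit 557104) (nat_lit 14) (.e (nat_lit 180262) (nat_lit 21) .nil)))) .nil))) (.nd (nat_lit 6) 
(.lf (nat_lit 7095) (.g (nat_lit 3536) (.e (nat_lit 307) (nat_lit 22) (.e (nat_lit 344129) (nat_lit 26) (.e (nat_lit 557104) (nat_lit 14) (.e (nat_lit 180229) (nat_lit 0) (.e (nat_lit 5820) (nat_lit 320) (.e (nat_lit 1201) (nat_lit 88) (.e (nat_lit 65578) (nat_lit 6) (.e (nat_lit 147467) (nat_lit 9) .nil)))))))) (.g (nat_lit 4) .nil .nil))) 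
(.lf (nat_lit 7159) (.g (nat_lit 4594) (.e (nat_lit 7936) (nat_lit 22) (.e (nat_lit 344117) (nat_lit 21) (.e (nat_lit 516151) (nat_lit 9) (.e (nat_lit 426211) (nat_lit 9) (.e (nat_lit 426125) (nat_lit 2) .nil))))) .nil))))) (.nd (nat_lit 4) (.nd (nat_lit 5) (.nd (nat_lit 6) 
(.lf (nat_lit 7055) (.g (nat_lit 1655) (.e (nat_lit 307) (nat_lit 22) (.e (nat_lit 344129) (nat_lit 26) (.e (nat_lit 557097) (nat_lit 13) (.e (nat_lit 172065) (nat_lit 3) .nil)))) .nil)) 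
(.lf (nat_lit 7119) (.g (nat_lit 4252) (.e (nat_lit 307) (nat_lit 22) (.e (nat_lit 344129) (nat_lit 26) (.e (nat_lit 557104) (nat_lit 14) (.e (nat_lit 180252) (nat_lit 10) (.e (nat_lit 573474) (nat_lit 12) (.e (nat_lit 57506) (nat_lit 39) (.e (nat_lit 647200) (nat_lit 12) (.e (nat_lit 57477) (nat_lit 28) (.e (nat_lit 557066) (nat_lit 9) .nil))))))))) (.g (nat_lit 5) .nil .nil)))) (.nd (nat_lit 6) 
(.lf (nat_lit 7087) (.g (nat_lit 3564) (.e (nat_lit 307) (nat_lit 22) (.e (nat_lit 344129) (nat_lit 26) (.e (nat_lit 557103) (nat_lit 14) (.e (nat_lit 180266) (nat_lit 22) (.e (nat_lit 671762) (nat_lit 4) (.e (nat_lit 65580) (nat_lit 6) (.e (nat_lit 147467) (nat_lit 9) .nil))))))) (.g (nat_lit 5) .nil .nil))) 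
(.lf (nat_lit 7151) (.g (nat_lit 4694) (.e (nat_lit 307) (nat_lit 22) (.e (nat_lit 344169) (nat_lit 40) (.e (nat_lit 671759) (nat_lit 3) (.e (nat_lit 57479) (nat_lit 28) (.e (nat_lit 557107) (nat_lit 15) (.e (nat_lit 188440) (nat_lit 20) (.e (nat_lit 3304) (nat_lit 202) (.e (nat_lit 581376) (nat_lit 0) .nil)))))))) (.g (nat_lit 7) .nil .nil))))) (.nd (nat_lit 5) (.nd (nat_lit 6) 
(.lf (nat_lit 7071) (.g (nat_lit 2224) (.e (nat_lit 307) (nat_lit 22) (.e (nat_lit 344129) (nat_lit 26) (.e (nat_lit 557103) (nat_lit 14) (.e (nat_lit 180237) (nat_lit 1) .nil)))) .nil)) 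
(.lf (nat_lit 7135) (.g (nat_lit 1929) (.e (nat_lit 307) (nat_lit 22) (.e (nat_lit 344129) (nat_lit 26) (.e (nat_lit 557104) (nat_lit 14) (.e (nat_lit 188160) (nat_lit 22) .nil)))) .nil))) (.nd (nat_lit 6) 
(.lf (nat_lit 7103) (.g (nat_lit 3046) (.e (nat_lit 307) (nat_lit 22) (.e (nat_lit 344129) (nat_lit 26) (.e (nat_lit 557104) (nat_lit 14) (.e (nat_lit 180236) (nat_lit 1) (.e (nat_lit 500046) (nat_lit 16) (.e (nat_lit 16412) (nat_lit 2) (.e (nat_lit 204544) (nat_lit 0) .nil))))))) (.g (nat_lit 5) .nil .nil))) 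
(.lf (nat_lit 7167) (.g (nat_lit 1786) (.e (nat_lit 7936) (nat_lit 22) (.e (nat_lit 344129) (nat_lit 26) (.e (nat_lit 557097) (nat_lit 13) (.e (nat_lit 172067) (nat_lit 3) .nil)))) .nil)))))))))

noncomputable def tv099 : DT := (.nd (nat_lit 0) (.nd (nat_lit 1) (.nd (nat_lit 2) (.nd (nat_lit 3) (.nd (nat_lit 4) (.nd (nat_lit 5) (.nd (nat_lit 6) 
(.lf (nat_lit 7168) (.g (nat_lit 2918) (.e (nat_lit 7936) (nat_lit 22) (.e (nat_lit 344129) (nat_lit 26) (.e (nat_lit 557097) (nat_lit 13) (.e (nat_lit 172067) (nat_lit 3) (.e (nat_lit 204809) (nat_lit 9) .nil))))) .nil)) 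
(.lf (nat_lit 7232) (.g (nat_lit 762) (.e (nat_lit 309) (nat_lit 23) (.e (nat_lit 352307) (nat_lit 21) (.e (nat_lit 57654) (nat_lit 152) .nil))) .nil))) (.nd (nat_lit 6) 
(.lf (nat_lit 7200) (.g (nat_lit 2995) (.e (nat_lit 7936) (nat_lit 22) (.e (nat_lit 344133) (nat_lit 26) (.e (nat_lit 557105) (nat_lit 14) (.e (nat_lit 180252) (nat_lit 10) (.e (nat_lit 573449) (nat_lit 9) .nil))))) .nil)) 
(.lf (nat_lit 7264) (.g (nat_lit 1924) (.e (nat_lit 309) (nat_lit 23) (.e (nat_lit 352315) (nat_lit 23) (.e (nat_lit 98389) (nat_lit 33) (.e (nat_lit 491560) (nat_lit 10) (.e (nat_lit 344131) (nat_lit 26) (.e (nat_lit 557065) (nat_lit 9) .nil)))))) (.g (nat_lit 4) .nil .nil))))) (.nd (nat_lit 5) (.nd (nat_lit 6) 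
(.lf (nat_lit 7184) (.g (nat_lit 783) (.e (nat_lit 7936) (nat_lit 22) (.e (nat_lit 344133) (nat_lit 26) (.e (nat_lit 557087) (nat_lit 11) (.e (nat_lit 24625) (nat_lit 9) .nil)))) .nil)) 
(.lf (nat_lit 7248) (.g (nat_lit 1464) (.e (nat_lit 309) (nat_lit 23) (.e (nat_lit 352312) (nat_lit 22) (.e (nat_lit 90133) (nat_lit 9) (.e (nat_lit 2397) (nat_lit 157) (.e (nat_lit 7592) (nat_lit 407) (.e (nat_lit 73754) (nat_lit 8) (.e (nat_lit 557064) (nat_lit 9) .nil))))))) (.g (nat_lit 4) .nil .nil)))) (.nd (nat_lit 6) 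
(.lf (nat_lit 7216) (.g (nat_lit 1183) (.e (nat_lit 308) (nat_lit 23) (.e (nat_lit 352318) (nat_lit 24) (.e (nat_lit 123182) (nat_lit 264) (.e (nat_lit 1212) (nat_lit 89) .nil)))) .nil)) 
(.lf (nat_lit 7280) (.g (nat_lit 2133) (.e (nat_lit 309) (nat_lit 23) (.e (nat_lit 352324) (nat_lit 26) (.e (nat_lit 147496) (nat_lit 11) (.e (nat_lit 24631) (nat_lit 9) (.e (nat_lit 336046) (nat_lit 6) .nil))))) .nil))))) (.nd (nat_lit 4) (.nd (nat_lit 5) (.nd (nat_lit 6) 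
(.lf (nat_lit 7176) (.g (nat_lit 1964) (.e (nat_lit 7936) (nat_lit 22) (.e (nat_lit 344130) (nat_lit 26) (.e (nat_lit 557103) (nat_lit 14) (.e (nat_lit 180244) (nat_lit 5) (.e (nat_lit 532579) (nat_lit 26) .nil))))) .nil)) 
(.lf (nat_lit 7240) (.g (nat_lit 1860) (.e (nat_lit 309) (nat_lit 23) (.e (nat_lit 352309) (nat_lit 21) (.e (nat_lit 57655) (nat_lit 152) (.e (nat_lit 1217) (nat_lit 90) (.e (nat_lit 81965) (nat_lit 26) .nil))))) .nil))) (.nd (nat_lit 6) 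
(.lf (nat_lit 7208) (.g (nat_lit 1163) (.e (nat_lit 308) (nat_lit 23) (.e (nat_lit 352277) (nat_lit 11) (.e (nat_lit 426344) (nat_lit 14) (.e (nat_lit 491558) (nat_lit 10) .nil)))) .nil)) 
(.lf (nat_lit 7272) (.g (nat_lit 1140) (.e (nat_lit 309) (nat_lit 23) (.e (nat_lit 352324) (nat_lit 26) (.e (nat_lit 147467) (nat_lit 9) (.e (nat_lit 324) (nat_lit 24) .nil)))) .nil)))) (.nd (nat_lit 5) (.nd (nat_lit 6) 
(.lf (nat_lit 7192) (.g (nat_lit 2199) (.e (nat_lit 7936) (nat_lit 22) (.e (nat_lit 344133) (nat_lit 26) (.e (nat_lit 557098) (nat_lit 13) (.e (nat_lit 172066) (nat_lit 3) (.e (nat_lit 204809) (nat_lit 9) .nil))))) .nil)) 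
(.lf (nat_lit 7256) (.g (nat_lit 688) (.e (nat_lit 309) (nat_lit 23) (.e (nat_lit 352315) (nat_lit 23) (.e (nat_lit 98356) (nat_lit 26) .nil))) .nil))) (.nd (nat_lit 6) 
(.lf (nat_lit 7224) (.g (nat_lit 2348) (.e (nat_lit 309) (nat_lit 23) (.e (nat_lit 352275) (nat_lit 11) (.e (nat_lit 426011) (nat_lit 0) (.e (nat_lit 7593) (nat_lit 407) (.e (nat_lit 73775) (nat_lit 26) .nil))))) .nil)) 
(.lf (nat_lit 7288) (.g (nat_lit 710) (.e (nat_lit 310) (nat_lit 23) (.e (nat_lit 352272) (nat_lit 10) (.e (nat_lit 417796) (nat_lit 0) (.e (nat_lit 5409) (nat_lit 303) .nil)))) .nil)))))) (.nd (nat_lit 3) (.nd (nat_lit 4) (.nd (nat_lit 5) (.nd (nat_lit 6) 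
(.lf (nat_lit 7172) (.g (nat_lit 2638) (.e (nat_lit 7936) (nat_lit 22) (.e (nat_lit 344129) (nat_lit 26) (.e (nat_lit 557104) (nat_lit 14) (.e (nat_lit 180252) (nat_lit 10) (.e (nat_lit 573474) (nat_lit 12) .nil))))) .nil)) 
(.lf (nat_lit 7236) (.g (nat_lit 920) (.e (nat_lit 309) (nat_lit 23) (.e (nat_lit 352309) (nat_lit 21) (.e (nat_lit 57654) (nat_lit 152) .nil))) .nil))) (.nd (nat_lit 6) 
(.lf (nat_lit 7204) (.g (nat_lit 535) (.e (nat_lit 308) (nat_lit 23) (.e (nat_lit 352277) (nat_lit 11) (.e (nat_lit 426012) (nat_lit 0) .nil))) .nil)) 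
(.lf (nat_lit 7268) (.g (nat_lit 574) (.e (nat_lit 309) (nat_lit 23) (.e (nat_lit 352324) (nat_lit 26) (.e (nat_lit 147463) (nat_lit 9) .nil))) .nil)))) (.nd (nat_lit 5) (.nd (nat_lit 6) 
(.lf (nat_lit 7188) (.g (nat_lit 2397) (.e (nat_lit 7936) (nat_lit 22) (.e (nat_lit 344133) (nat_lit 26) (.e (nat_lit 557098) (nat_lit 13) (.e (nat_lit 172064) (nat_lit 2) (.e (nat_lit 196661) (nat_lit 12) .nil))))) .nil)) 
(.lf (nat_lit 7252) (.g (nat_lit 1462) (.e (nat_lit 309) (nat_lit 23) (.e (nat_lit 352312) (nat_lit 22) (.e (nat_lit 90170) (nat_lit 13) (.e (nat_lit 179968) (nat_lit 20) .nil)))) .nil))) (.nd (nat_lit 6) 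
(.lf (nat_lit 7220) (.g (nat_lit 742) (.e (nat_lit 308) (nat_lit 23) (.e (nat_lit 352321) (nat_lit 25) (.e (nat_lit 139276) (nat_lit 2) (.e (nat_lit 16461) (nat_lit 12) (.e (nat_lit 483072) (nat_lit 0) .nil))))) (.g (nat_lit 4) .nil .nil))) 
(.lf (nat_lit 7284) (.g (nat_lit 1461) (.e (nat_lit 309) (nat_lit 23) (.e (nat_lit 352324) (nat_lit 26) (.e (nat_lit 147496) (nat_lit 11) (.e (nat_lit 24641) (nat_lit 10) .nil)))) .nil))))) (.nd (nat_lit 4) (.nd (nat_lit 5) (.nd (nat_lit 6) 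
(.lf (nat_lit 7180) (.g (nat_lit 2099) (.e (nat_lit 7936) (nat_lit 22) (.e (nat_lit 344132) (nat_lit 26) (.e (nat_lit 557100) (nat_lit 13) (.e (nat_lit 172064) (nat_lit 2) (.e (nat_lit 196661) (nat_lit 12) .nil))))) .nil)) 
(.lf (nat_lit 7244) (.g (nat_lit 864) (.e (nat_lit 309) (nat_lit 23) (.e (nat_lit 352309) (nat_lit 21) (.e (nat_lit 57684) (nat_lit 155) .nil))) .nil))) (.nd (nat_lit 6) 
(.lf (nat_lit 7212) (.g (nat_lit 936) (.e (nat_lit 308) (nat_lit 23) (.e (nat_lit 352312) (nat_lit 22) (.e (nat_lit 98048) (nat_lit 2) (.e (nat_lit 16461) (nat_lit 12) (.e (nat_lit 483072) (nat_lit 0) .nil))))) .nil)) 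
(.lf (nat_lit 7276) (.g (nat_lit 564) (.e (nat_lit 309) (nat_lit 23) (.e (nat_lit 352324) (nat_lit 26) (.e (nat_lit 147495) (nat_lit 11) .nil))) .nil)))) (.nd (nat_lit 5) (.nd (nat_lit 6) 
(.lf (nat_lit 7196) (.g (nat_lit 2661) (.e (nat_lit 7936) (nat_lit 22) (.e (nat_lit 344133) (nat_lit 26) (.e (nat_lit 557098) (nat_lit 13) (.e (nat_lit 172067) (nat_lit 3) (.e (nat_lit 204815) (nat_lit 17) .nil))))) .nil)) 
(.lf (nat_lit 7260) (.g (nat_lit 1634) (.e (nat_lit 309) (nat_lit 23) (.e (nat_lit 352315) (nat_lit 23) (.e (nat_lit 98389) (nat_lit 33) (.e (nat_lit 491558) (nat_lit 10) (.e (nat_lit 344130) (nat_lit 26) .nil))))) .nil))) (.nd (nat_lit 6) 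
(.lf (nat_lit 7228) (.g (nat_lit 1668) (.e (nat_lit 309) (nat_lit 23) (.e (nat_lit 352277) (nat_lit 11) (.e (nat_lit 426342) (nat_lit 14) (.e (nat_lit 491560) (nat_lit 10) (.e (nat_lit 344179) (nat_lit 44) .nil))))) .nil)) 
(.lf (nat_lit 7292) (.g (nat_lit 1273) (.e (nat_lit 310) (nat_lit 23) (.e (nat_lit 352277) (nat_lit 11) (.e (nat_lit 426010) (nat_lit 0) (.e (nat_lit 7591) (nat_lit 407) (.e (nat_lit 73775) (nat_lit 26) .nil))))) .nil))))))) (.nd (nat_lit 2) (.nd (nat_lit 3) (.nd (nat_lit 4) (.nd (nat_lit 5) (.nd (nat_lit 6) 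
(.lf (nat_lit 7170) (.g (nat_lit 3006) (.e (nat_lit 7936) (nat_lit 22) (.e (nat_lit 344129) (nat_lit 26) (.e (nat_lit 557104) (nat_lit 14) (.e (nat_lit 180244) (nat_lit 5) (.e (nat_lit 532579) (nat_lit 26) .nil))))) .nil)) 
(.lf (nat_lit 7234) (.g (nat_lit 1248) (.e (nat_lit 309) (nat_lit 23) (.e (nat_lit 352307) (nat_lit 21) (.e (nat_lit 57655) (nat_lit 152) (.e (nat_lit 1217) (nat_lit 90) .nil)))) .nil))) (.nd (nat_lit 6) 
(.lf (nat_lit 7202) (.g (nat_lit 1725) (.e (nat_lit 308) (nat_lit 23) (.e (nat_lit 352277) (nat_lit 11) (.e (nat_lit 426011) (nat_lit 0) (.e (nat_lit 7591) (nat_lit 407) .nil)))) .nil)) 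
(.lf (nat_lit 7266) (.g (nat_lit 519) (.e (nat_lit 309) (nat_lit 23) (.e (nat_lit 352318) (nat_lit 24) (.e (nat_lit 130816) (nat_lit 152) .nil))) .nil)))) (.nd (nat_lit 5) (.nd (nat_lit 6) 
(.lf (nat_lit 7186) (.g (nat_lit 1456) (.e (nat_lit 7936) (nat_lit 22) (.e (nat_lit 344133) (nat_lit 26) (.e (nat_lit 557098) (nat_lit 13) (.e (nat_lit 172032) (nat_lit 0) .nil)))) .nil)) 
(.lf (nat_lit 7250) (.g (nat_lit 1305) (.e (nat_lit 309) (nat_lit 23) (.e (nat_lit 352312) (nat_lit 22) (.e (nat_lit 90133) (nat_lit 9) (.e (nat_lit 2400) (nat_lit 157) (.e (nat_lit 7592) (nat_lit 407) .nil))))) .nil))) (.nd (nat_lit 6) 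
(.lf (nat_lit 7218) (.g (nat_lit 1755) (.e (nat_lit 308) (nat_lit 23) (.e (nat_lit 352318) (nat_lit 24) (.e (nat_lit 123194) (nat_lit 266) (.e (nat_lit 57412) (nat_lit 12) (.e (nat_lit 336061) (nat_lit 7) .nil))))) .nil)) 
(.lf (nat_lit 7282) (.g (nat_lit 1376) (.e (nat_lit 309) (nat_lit 23) (.e (nat_lit 352324) (nat_lit 26) (.e (nat_lit 147496) (nat_lit 11) (.e (nat_lit 24636) (nat_lit 9) .nil)))) .nil))))) (.nd (nat_lit 4) (.nd (nat_lit 5) (.nd (nat_lit 6) 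
(.lf (nat_lit 7178) (.g (nat_lit 1699) (.e (nat_lit 7936) (nat_lit 22) (.e (nat_lit 344130) (nat_lit 26) (.e (nat_lit 557104) (nat_lit 14) (.e (nat_lit 180252) (nat_lit 10) (.e (nat_lit 581376) (nat_lit 4) .nil))))) .nil)) 
(.lf (nat_lit 7242) (.g (nat_lit 1842) (.e (nat_lit 309) (nat_lit 23) (.e (nat_lit 352309) (nat_lit 21) (.e (nat_lit 57683) (nat_lit 155) (.e (nat_lit 122917) (nat_lit 15) .nil)))) .nil))) (.nd (nat_lit 6) 
(.lf (nat_lit 7210) (.g (nat_lit 101) (.e (nat_lit 308) (nat_lit 23) (.e (nat_lit 352279) (nat_lit 19) (.e (nat_lit 499456) (nat_lit 30) .nil))) .nil)) 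
(.lf (nat_lit 7274) (.g (nat_lit 551) (.e (nat_lit 309) (nat_lit 23) (.e (nat_lit 352324) (nat_lit 26) (.e (nat_lit 147472) (nat_lit 9) .nil))) .nil)))) (.nd (nat_lit 5) (.nd (nat_lit 6) 
(.lf (nat_lit 7194) (.g (nat_lit 2375) (.e (nat_lit 7936) (nat_lit 22) (.e (nat_lit 344133) (nat_lit 26) (.e (nat_lit 557098) (nat_lit 13) (.e (nat_lit 172067) (nat_lit 3) (.e (nat_lit 204809) (nat_lit 9) .nil))))) .nil)) 
(.lf (nat_lit 7258) (.g (nat_lit 2832) (.e (nat_lit 309) (nat_lit 23) (.e (nat_lit 352315) (nat_lit 23) (.e (nat_lit 98389) (nat_lit 33) (.e (nat_lit 491558) (nat_lit 10) (.e (nat_lit 344129) (nat_lit 26) (.e (nat_lit 557065) (nat_lit 9) .nil)))))) (.g (nat_lit 5) .nil .nil)))) (.nd (nat_lit 6) 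
(.lf (nat_lit 7226) (.g (nat_lit 1468) (.e (nat_lit 309) (nat_lit 23) (.e (nat_lit 352277) (nat_lit 11) (.e (nat_lit 426011) (nat_lit 0) (.e (nat_lit 7587) (nat_lit 406) .nil)))) .nil)) 
(.lf (nat_lit 7290) (.g (nat_lit 795) (.e (nat_lit 310) (nat_lit 23) (.e (nat_lit 352272) (nat_lit 10) (.e (nat_lit 417796) (nat_lit 0) (.e (nat_lit 5413) (nat_lit 303) .nil)))) .nil)))))) (.nd (nat_lit 3) (.nd (nat_lit 4) (.nd (nat_lit 5) (.nd (nat_lit 6) 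
(.lf (nat_lit 7174) (.g (nat_lit 1415) (.e (nat_lit 7936) (nat_lit 22) (.e (nat_lit 344130) (nat_lit 26) (.e (nat_lit 557097) (nat_lit 13) (.e (nat_lit 172066) (nat_lit 3) (.e (nat_lit 204809) (nat_lit 9) .nil))))) .nil)) 
(.lf (nat_lit 7238) (.g (nat_lit 1631) (.e (nat_lit 309) (nat_lit 23) (.e (nat_lit 352309) (nat_lit 21) (.e (nat_lit 57655) (nat_lit 152) (.e (nat_lit 1216) (nat_lit 90) .nil)))) .nil))) (.nd (nat_lit 6) 
(.lf (nat_lit 7206) (.g (nat_lit 1463) (.e (nat_lit 308) (nat_lit 23) (.e (nat_lit 352277) (nat_lit 11) (.e (nat_lit 426343) (nat_lit 14) (.e (nat_lit 491558) (nat_lit 10) .nil)))) .nil)) 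
(.lf (nat_lit 7270) (.g (nat_lit 2447) (.e (nat_lit 309) (nat_lit 23) (.e (nat_lit 352324) (nat_lit 26) (.e (nat_lit 147467) (nat_lit 9) (.e (nat_lit 314) (nat_lit 23) (.e (nat_lit 352324) (nat_lit 26) (.e (nat_lit 147463) (nat_lit 9) .nil)))))) (.g (nat_lit 5) .nil .nil))))) (.nd (nat_lit 5) (.nd (nat_lit 6) 
(.lf (nat_lit 7190) (.g (nat_lit 2316) (.e (nat_lit 7936) (nat_lit 22) (.e (nat_lit 344133) (nat_lit 26) (.e (nat_lit 557098) (nat_lit 13) (.e (nat_lit 172065) (nat_lit 3) (.e (nat_lit 204809) (nat_lit 9) .nil))))) .nil)) 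
(.lf (nat_lit 7254) (.g (nat_lit 1703) (.e (nat_lit 309) (nat_lit 23) (.e (nat_lit 352315) (nat_lit 23) (.e (nat_lit 98320) (nat_lit 17) (.e (nat_lit 7591) (nat_lit 407) (.e (nat_lit 73755) (nat_lit 8) (.e (nat_lit 557065) (nat_lit 9) .nil)))))) (.g (nat_lit 4) .nil .nil)))) (.nd (nat_lit 6) 
(.lf (nat_lit 7222) (.g (nat_lit 2179) (.e (nat_lit 309) (nat_lit 23) (.e (nat_lit 352262) (nat_lit 0) (.e (nat_lit 3305) (nat_lit 202) (.e (nat_lit 573485) (nat_lit 13) (.e (nat_lit 65619) (nat_lit 10) (.e (nat_lit 344129) (nat_lit 26) (.e (nat_lit 557065) (nat_lit 9) .nil))))))) (.g (nat_lit 4) .nil .nil))) 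
(.lf (nat_lit 7286) (.g (nat_lit 1111) (.e (nat_lit 310) (nat_lit 23) (.e (nat_lit 352272) (nat_lit 10) (.e (nat_lit 417795) (nat_lit 0) (.e (nat_lit 5412) (nat_lit 303) (.e (nat_lit 73775) (nat_lit 26) .nil))))) .nil))))) (.nd (nat_lit 4) (.nd (nat_lit 5) (.nd (nat_lit 6) 
(.lf (nat_lit 7182) (.g (nat_lit 2376) (.e (nat_lit 7936) (nat_lit 22) (.e (nat_lit 344132) (nat_lit 26) (.e (nat_lit 557100) (nat_lit 13) (.e (nat_lit 172067) (nat_lit 3) (.e (nat_lit 204809) (nat_lit 9) .nil))))) .nil)) 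
(.lf (nat_lit 7246) (.g (nat_lit 723) (.e (nat_lit 309) (nat_lit 23) (.e (nat_lit 352312) (nat_lit 22) (.e (nat_lit 98048) (nat_lit 2) .nil))) .nil))) (.nd (nat_lit 6) 
(.lf (nat_lit 7214) (.g (nat_lit 649) (.e (nat_lit 308) (nat_lit 23) (.e (nat_lit 352315) (nat_lit 23) (.e (nat_lit 106240) (nat_lit 15) .nil))) .nil)) 
(.lf (nat_lit 7278) (.g (nat_lit 523) (.e (nat_lit 309) (nat_lit 23) (.e (nat_lit 352324) (nat_lit 26) (.e (nat_lit 147496) (nat_lit 11) .nil))) .nil)))) (.nd (nat_lit 5) (.nd (nat_lit 6) 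
(.lf (nat_lit 7198) (.g (nat_lit 2318) (.e (nat_lit 7936) (nat_lit 22) (.e (nat_lit 344133) (nat_lit 26) (.e (nat_lit 557103) (nat_lit 14) (.e (nat_lit 180244) (nat_lit 5) (.e (nat_lit 532579) (nat_lit 26) .nil))))) .nil)) 
(.lf (nat_lit 7262) (.g (nat_lit 3914) (.e (nat_lit 309) (nat_lit 23) (.e (nat_lit 352315) (nat_lit 23) (.e (nat_lit 98389) (nat_lit 33) (.e (nat_lit 491560) (nat_lit 10) (.e (nat_lit 344129) (nat_lit 26) (.e (nat_lit 557066) (nat_lit 9) .nil)))))) (.g (nat_lit 6) .nil .nil)))) (.nd (nat_lit 6) 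
(.lf (nat_lit 7230) (.g (nat_lit 2561) (.e (nat_lit 309) (nat_lit 23) (.e (nat_lit 352277) (nat_lit 11) (.e (nat_lit 426343) (nat_lit 14) (.e (nat_lit 491560) (nat_lit 10) (.e (nat_lit 344179) (nat_lit 44) .nil))))) .nil)) 
(.lf (nat_lit 7294) (.g (nat_lit 1617) (.e (nat_lit 310) (nat_lit 23) (.e (nat_lit 352277) (nat_lit 11) (.e (nat_lit 426011) (nat_lit 0) (.e (nat_lit 7591) (nat_lit 407) .nil)))) .nil)))))))) (.nd (nat_lit 1) (.nd (nat_lit 2) (.nd (nat_lit 3) (.nd (nat_lit 4) (.nd (nat_lit 5) (.nd (nat_lit 6) 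
(.lf (nat_lit 7169) (.g (nat_lit 2811) (.e (nat_lit 7936) (nat_lit 22) (.e (nat_lit 344129) (nat_lit 26) (.e (nat_lit 557103) (nat_lit 14) (.e (nat_lit 180244) (nat_lit 5) (.e (nat_lit 532579) (nat_lit 26) .nil))))) .nil)) 
(.lf (nat_lit 7233) (.g (nat_lit 725) (.e (nat_lit 309) (nat_lit 23) (.e (nat_lit 352307) (nat_lit 21) (.e (nat_lit 57655) (nat_lit 152) .nil))) .nil))) (.nd (nat_lit 6) 
(.lf (nat_lit 7201) (.g (nat_lit 3004) (.e (nat_lit 7936) (nat_lit 22) (.e (nat_lit 344133) (nat_lit 26) (.e (nat_lit 557105) (nat_lit 14) (.e (nat_lit 180252) (nat_lit 10) (.e (nat_lit 573458) (nat_lit 9) .nil))))) .nil)) 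
(.lf (nat_lit 7265) (.g (nat_lit 1975) (.e (nat_lit 309) (nat_lit 23) (.e (nat_lit 352315) (nat_lit 23) (.e (nat_lit 98389) (nat_lit 33) (.e (nat_lit 491560) (nat_lit 10) (.e (nat_lit 344131) (nat_lit 26) (.e (nat_lit 557066) (nat_lit 9) .nil)))))) (.g (nat_lit 4) .nil .nil))))) (.nd (nat_lit 5) (.nd (nat_lit 6) 
(.lf (nat_lit 7185) (.g (nat_lit 2237) (.e (nat_lit 7936) (nat_lit 22) (.e (nat_lit 344133) (nat_lit 26) (.e (nat_lit 557096) (nat_lit 13) (.e (nat_lit 172067) (nat_lit 3) (.e (nat_lit 204809) (nat_lit 9) .nil))))) .nil)) 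
(.lf (nat_lit 7249) (.g (nat_lit 1002) (.e (nat_lit 309) (nat_lit 23) (.e (nat_lit 352312) (nat_lit 22) (.e (nat_lit 90133) (nat_lit 9) (.e (nat_lit 2400) (nat_lit 157) .nil)))) .nil))) (.nd (nat_lit 6) 
(.lf (nat_lit 7217) (.g (nat_lit 464) (.e (nat_lit 308) (nat_lit 23) (.e (nat_lit 352318) (nat_lit 24) (.e (nat_lit 123184) (nat_lit 264) .nil))) .nil)) 
(.lf (nat_lit 7281) (.g (nat_lit 2295) (.e (nat_lit 309) (nat_lit 23) (.e (nat_lit 352324) (nat_lit 26) (.e (nat_lit 147496) (nat_lit 11) (.e (nat_lit 24631) (nat_lit 9) (.e (nat_lit 336046) (nat_lit 6) (.e (nat_lit 147467) (nat_lit 9) .nil)))))) (.g (nat_lit 5) .nil .nil)))))) (.nd (nat_lit 4) (.nd (nat_lit 5) (.nd (nat_lit 6) 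
(.lf (nat_lit 7177) (.g (nat_lit 2143) (.e (nat_lit 7936) (nat_lit 22) (.e (nat_lit 344130) (nat_lit 26) (.e (nat_lit 557104) (nat_lit 14) (.e (nat_lit 180244) (nat_lit 5) (.e (nat_lit 532579) (nat_lit 26) .nil))))) .nil)) 
(.lf (nat_lit 7241) (.g (nat_lit 874) (.e (nat_lit 309) (nat_lit 23) (.e (nat_lit 352309) (nat_lit 21) (.e (nat_lit 57683) (nat_lit 155) .nil))) .nil))) (.nd (nat_lit 6) 
(.lf (nat_lit 7209) (.g (nat_lit 1078) (.e (nat_lit 308) (nat_lit 23) (.e (nat_lit 352277) (nat_lit 11) (.e (nat_lit 426344) (nat_lit 14) (.e (nat_lit 491560) (nat_lit 10) .nil)))) .nil)) 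
(.lf (nat_lit 7273) (.g (nat_lit 2202) (.e (nat_lit 309) (nat_lit 23) (.e (nat_lit 352324) (nat_lit 26) (.e (nat_lit 147467) (nat_lit 9) (.e (nat_lit 324) (nat_lit 24) (.e (nat_lit 360491) (nat_lit 22) (.e (nat_lit 778362) (nat_lit 9) .nil)))))) (.g (nat_lit 6) .nil .nil))))) (.nd (nat_lit 5) (.nd (nat_lit 6) 
(.lf (nat_lit 7193) (.g (nat_lit 2199) (.e (nat_lit 7936) (nat_lit 22) (.e (nat_lit 344133) (nat_lit 26) (.e (nat_lit 557098) (nat_lit 13) (.e (nat_lit 172066) (nat_lit 3) (.e (nat_lit 204822) (nat_lit 17) .nil))))) .nil)) 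
(.lf (nat_lit 7257) (.g (nat_lit 1317) (.e (nat_lit 309) (nat_lit 23) (.e (nat_lit 352315) (nat_lit 23) (.e (nat_lit 98359) (nat_lit 26) (.e (nat_lit 433920) (nat_lit 20) .nil)))) .nil))) (.nd (nat_lit 6) 
(.lf (nat_lit 7225) (.g (nat_lit 1640) (.e (nat_lit 309) (nat_lit 23) (.e (nat_lit 352275) (nat_lit 11) (.e (nat_lit 426343) (nat_lit 14) (.e (nat_lit 491556) (nat_lit 9) .nil)))) .nil)) 
(.lf (nat_lit 7289) (.g (nat_lit 1058) (.e (nat_lit 310) (nat_lit 23) (.e (nat_lit 352272) (nat_lit 10) (.e (nat_lit 417796) (nat_lit 0) (.e (nat_lit 5412) (nat_lit 303) (.e (nat_lit 73775) (nat_lit 26) .nil))))) .nil)))))) (.nd (nat_lit 3) (.nd (nat_lit 4) (.nd (nat_lit 5) (.nd (nat_lit 6) 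
(.lf (nat_lit 7173) (.g (nat_lit 1376) (.e (nat_lit 7936) (nat_lit 22) (.e (nat_lit 344130) (nat_lit 26) (.e (nat_lit 557097) (nat_lit 13) (.e (nat_lit 172065) (nat_lit 3) (.e (nat_lit 204809) (nat_lit 9) .nil))))) .nil)) 
(.lf (nat_lit 7237) (.g (nat_lit 1804) (.e (nat_lit 309) (nat_lit 23) (.e (nat_lit 352309) (nat_lit 21) (.e (nat_lit 57654) (nat_lit 152) (.e (nat_lit 1217) (nat_lit 90) (.e (nat_lit 81965) (nat_lit 26) .nil))))) .nil))) (.nd (nat_lit 6) 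
(.lf (nat_lit 7205) (.g (nat_lit 537) (.e (nat_lit 308) (nat_lit 23) (.e (nat_lit 352277) (nat_lit 11) (.e (nat_lit 426342) (nat_lit 14) .nil))) .nil)) 
(.lf (nat_lit 7269) (.g (nat_lit 2959) (.e (nat_lit 309) (nat_lit 23) (.e (nat_lit 352324) (nat_lit 26) (.e (nat_lit 147467) (nat_lit 9) (.e (nat_lit 314) (nat_lit 23) (.e (nat_lit 352322) (nat_lit 26) (.e (nat_lit 147467) (nat_lit 9) .nil)))))) (.g (nat_lit 0) .nil .nil))))) (.nd (nat_lit 5) (.nd (nat_lit 6) 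
(.lf (nat_lit 7189) (.g (nat_lit 1411) (.e (nat_lit 7936) (nat_lit 22) (.e (nat_lit 344133) (nat_lit 26) (.e (nat_lit 557098) (nat_lit 13) (.e (nat_lit 172065) (nat_lit 3) .nil)))) .nil)) 
(.lf (nat_lit 7253) (.g (nat_lit 691) (.e (nat_lit 309) (nat_lit 23) (.e (nat_lit 352315) (nat_lit 23) (.e (nat_lit 98320) (nat_lit 17) .nil))) .nil))) (.nd (nat_lit 6) 
(.lf (nat_lit 7221) (.g (nat_lit 1952) (.e (nat_lit 309) (nat_lit 23) (.e (nat_lit 352262) (nat_lit 0) (.e (nat_lit 3305) (nat_lit 202) (.e (nat_lit 573482) (nat_lit 13) (.e (nat_lit 65619) (nat_lit 10) .nil))))) .nil)) 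
(.lf (nat_lit 7285) (.g (nat_lit 2446) (.e (nat_lit 310) (nat_lit 23) (.e (nat_lit 352262) (nat_lit 0) (.e (nat_lit 3305) (nat_lit 202) (.e (nat_lit 573484) (nat_lit 13) (.e (nat_lit 65617) (nat_lit 10) .nil))))) .nil))))) (.nd (nat_lit 4) (.nd (nat_lit 5) (.nd (nat_lit 6) 
(.lf (nat_lit 7181) (.g (nat_lit 2556) (.e (nat_lit 7936) (nat_lit 22) (.e (nat_lit 344132) (nat_lit 26) (.e (nat_lit 557100) (nat_lit 13) (.e (nat_lit 172065) (nat_lit 3) (.e (nat_lit 204809) (nat_lit 9) .nil))))) .nil)) 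
(.lf (nat_lit 7245) (.g (nat_lit 1709) (.e (nat_lit 309) (nat_lit 23) (.e (nat_lit 352309) (nat_lit 21) (.e (nat_lit 57684) (nat_lit 155) (.e (nat_lit 122919) (nat_lit 15) .nil)))) .nil))) (.nd (nat_lit 6) 
(.lf (nat_lit 7213) (.g (nat_lit 684) (.e (nat_lit 308) (nat_lit 23) (.e (nat_lit 352315) (nat_lit 23) (.e (nat_lit 98314) (nat_lit 9) .nil))) .nil)) 
(.lf (nat_lit 7277) (.g (nat_lit 2088) (.e (nat_lit 309) (nat_lit 23) (.e (nat_lit 352324) (nat_lit 26) (.e (nat_lit 147495) (nat_lit 11) (.e (nat_lit 24631) (nat_lit 9) (.e (nat_lit 336046) (nat_lit 6) .nil))))) .nil)))) (.nd (nat_lit 5) (.nd (nat_lit 6) 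
(.lf (nat_lit 7197) (.g (nat_lit 511) (.e (nat_lit 7936) (nat_lit 22) (.e (nat_lit 344133) (nat_lit 26) (.e (nat_lit 557103) (nat_lit 14) .nil))) .nil)) 
(.lf (nat_lit 7261) (.g (nat_lit 2958) (.e (nat_lit 309) (nat_lit 23) (.e (nat_lit 352315) (nat_lit 23) (.e (nat_lit 98389) (nat_lit 33) (.e (nat_lit 491558) (nat_lit 10) (.e (nat_lit 344133) (nat_lit 26) (.e (nat_lit 557065) (nat_lit 9) .nil)))))) (.g (nat_lit 5) .nil .nil)))) (.nd (nat_lit 6) 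
(.lf (nat_lit 7229) (.g (nat_lit 2525) (.e (nat_lit 309) (nat_lit 23) (.e (nat_lit 352277) (nat_lit 11) (.e (nat_lit 426343) (nat_lit 14) (.e (nat_lit 491556) (nat_lit 9) (.e (nat_lit 336051) (nat_lit 6) .nil))))) .nil)) 
(.lf (nat_lit 7293) (.g (nat_lit 896) (.e (nat_lit 310) (nat_lit 23) (.e (nat_lit 352277) (nat_lit 11) (.e (nat_lit 426010) (nat_lit 0) (.e (nat_lit 7593) (nat_lit 407) .nil)))) .nil))))))) (.nd (nat_lit 2) (.nd (nat_lit 3) (.nd (nat_lit 4) (.nd (nat_lit 5) (.nd (nat_lit 6) 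
(.lf (nat_lit 7171) (.g (nat_lit 1769) (.e (nat_lit 7936) (nat_lit 22) (.e (nat_lit 344129) (nat_lit 26) (.e (nat_lit 557104) (nat_lit 14) (.e (nat_lit 180252) (nat_lit 10) .nil)))) .nil)) 
(.lf (nat_lit 7235) (.g (nat_lit 701) (.e (nat_lit 309) (nat_lit 23) (.e (nat_lit 352307) (nat_lit 21) (.e (nat_lit 57683) (nat_lit 155) .nil))) .nil))) (.nd (nat_lit 6) 
(.lf (nat_lit 7203) (.g (nat_lit 1710) (.e (nat_lit 308) (nat_lit 23) (.e (nat_lit 352277) (nat_lit 11) (.e (nat_lit 426011) (nat_lit 0) (.e (nat_lit 7593) (nat_lit 407) .nil)))) .nil)) 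
(.lf (nat_lit 7267) (.g (nat_lit 858) (.e (nat_lit 309) (nat_lit 23) (.e (nat_lit 352321) (nat_lit 25) (.e (nat_lit 139276) (nat_lit 2) (.e (nat_lit 16461) (nat_lit 12) (.e (nat_lit 483072) (nat_lit 0) .nil))))) (.g (nat_lit 4) .nil .nil))))) (.nd (nat_lit 5) (.nd (nat_lit 6) 
(.lf (nat_lit 7187) (.g (nat_lit 1467) (.e (nat_lit 7936) (nat_lit 22) (.e (nat_lit 344133) (nat_lit 26) (.e (nat_lit 557098) (nat_lit 13) (.e (nat_lit 172062) (nat_lit 2) .nil)))) .nil)) 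
(.lf (nat_lit 7251) (.g (nat_lit 396) (.e (nat_lit 309) (nat_lit 23) (.e (nat_lit 352312) (nat_lit 22) (.e (nat_lit 90165) (nat_lit 12) .nil))) .nil))) (.nd (nat_lit 6) 
(.lf (nat_lit 7219) (.g (nat_lit 2368) (.e (nat_lit 308) (nat_lit 23) (.e (nat_lit 352318) (nat_lit 24) (.e (nat_lit 123195) (nat_lit 266) (.e (nat_lit 57412) (nat_lit 12) (.e (nat_lit 336061) (nat_lit 7) .nil))))) .nil)) 
(.lf (nat_lit 7283) (.g (nat_lit 1508) (.e (nat_lit 309) (nat_lit 23) (.e (nat_lit 352324) (nat_lit 26) (.e (nat_lit 147496) (nat_lit 11) (.e (nat_lit 32512) (nat_lit 9) .nil)))) .nil))))) (.nd (nat_lit 4) (.nd (nat_lit 5) (.nd (nat_lit 6) 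
(.lf (nat_lit 7179) (.g (nat_lit 2377) (.e (nat_lit 7936) (nat_lit 22) (.e (nat_lit 344132) (nat_lit 26) (.e (nat_lit 557100) (nat_lit 13) (.e (nat_lit 172062) (nat_lit 2) (.e (nat_lit 196661) (nat_lit 12) .nil))))) .nil)) 
(.lf (nat_lit 7243) (.g (nat_lit 1796) (.e (nat_lit 309) (nat_lit 23) (.e (nat_lit 352309) (nat_lit 21) (.e (nat_lit 57683) (nat_lit 155) (.e (nat_lit 122919) (nat_lit 15) .nil)))) .nil))) (.nd (nat_lit 6) 
(.lf (nat_lit 7211) (.g (nat_lit 749) (.e (nat_lit 308) (nat_lit 23) (.e (nat_lit 352309) (nat_lit 21) (.e (nat_lit 57872) (nat_lit 264) .nil))) .nil)) 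
(.lf (nat_lit 7275) (.g (nat_lit 582) (.e (nat_lit 309) (nat_lit 23) (.e (nat_lit 352324) (nat_lit 26) (.e (nat_lit 147493) (nat_lit 11) .nil))) .nil)))) (.nd (nat_lit 5) (.nd (nat_lit 6) 
(.lf (nat_lit 7195) (.g (nat_lit 2196) (.e (nat_lit 7936) (nat_lit 22) (.e (nat_lit 344133) (nat_lit 26) (.e (nat_lit 557098) (nat_lit 13) (.e (nat_lit 172067) (nat_lit 3) (.e (nat_lit 212736) (nat_lit 9) .nil))))) .nil)) 
(.lf (nat_lit 7259) (.g (nat_lit 3548) (.e (nat_lit 309) (nat_lit 23) (.e (nat_lit 352315) (nat_lit 23) (.e (nat_lit 98389) (nat_lit 33) (.e (nat_lit 491558) (nat_lit 10) (.e (nat_lit 344129) (nat_lit 26) (.e (nat_lit 557066) (nat_lit 9) .nil)))))) (.g (nat_lit 6) .nil .nil)))) (.nd (nat_lit 6) 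
(.lf (nat_lit 7227) (.g (nat_lit 460) (.e (nat_lit 309) (nat_lit 23) (.e (nat_lit 352277) (nat_lit 11) (.e (nat_lit 426012) (nat_lit 0) .nil))) .nil)) 
(.lf (nat_lit 7291) (.g (nat_lit 1173) (.e (nat_lit 310) (nat_lit 23) (.e (nat_lit 352277) (nat_lit 11) (.e (nat_lit 426009) (nat_lit 0) (.e (nat_lit 7591) (nat_lit 407) (.e (nat_lit 73775) (nat_lit 26) .nil))))) .nil)))))) (.nd (nat_lit 3) (.nd (nat_lit 4) (.nd (nat_lit 5) (.nd (nat_lit 6) 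
(.lf (nat_lit 7175) (.g (nat_lit 2172) (.e (nat_lit 7936) (nat_lit 22) (.e (nat_lit 344130) (nat_lit 26) (.e (nat_lit 557097) (nat_lit 13) (.e (nat_lit 172067) (nat_lit 3) (.e (nat_lit 204809) (nat_lit 9) .nil))))) .nil)) 
(.lf (nat_lit 7239) (.g (nat_lit 1564) (.e (nat_lit 309) (nat_lit 23) (.e (nat_lit 352309) (nat_lit 21) (.e (nat_lit 57655) (nat_lit 152) (.e (nat_lit 1217) (nat_lit 90) .nil)))) .nil))) (.nd (nat_lit 6) 
(.lf (nat_lit 7207) (.g (nat_lit 1375) (.e (nat_lit 308) (nat_lit 23) (.e (nat_lit 352277) (nat_lit 11) (.e (nat_lit 426343) (nat_lit 14) (.e (nat_lit 491560) (nat_lit 10) .nil)))) .nil)) 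
(.lf (nat_lit 7271) (.g (nat_lit 2245) (.e (nat_lit 309) (nat_lit 23) (.e (nat_lit 352324) (nat_lit 26) (.e (nat_lit 147467) (nat_lit 9) (.e (nat_lit 321) (nat_lit 24) (.e (nat_lit 360492) (nat_lit 22) (.e (nat_lit 778362) (nat_lit 9) .nil)))))) (.g (nat_lit 6) .nil .nil))))) (.nd (nat_lit 5) (.nd (nat_lit 6) 
(.lf (nat_lit 7191) (.g (nat_lit 1524) (.e (nat_lit 7936) (nat_lit 22) (.e (nat_lit 344133) (nat_lit 26) (.e (nat_lit 557098) (nat_lit 13) (.e (nat_lit 172066) (nat_lit 3) .nil)))) .nil)) 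
(.lf (nat_lit 7255) (.g (nat_lit 711) (.e (nat_lit 309) (nat_lit 23) (.e (nat_lit 352315) (nat_lit 23) (.e (nat_lit 98355) (nat_lit 26) .nil))) .nil))) (.nd (nat_lit 6) 
(.lf (nat_lit 7223) (.g (nat_lit 1618) (.e (nat_lit 309) (nat_lit 23) (.e (nat_lit 352275) (nat_lit 11) (.e (nat_lit 426011) (nat_lit 0) (.e (nat_lit 7591) (nat_lit 407) .nil)))) .nil)) 
(.lf (nat_lit 7287) (.g (nat_lit 673) (.e (nat_lit 310) (nat_lit 23) (.e (nat_lit 352272) (nat_lit 10) (.e (nat_lit 417795) (nat_lit 0) (.e (nat_lit 5413) (nat_lit 303) .nil)))) .nil))))) (.nd (nat_lit 4) (.nd (nat_lit 5) (.nd (nat_lit 6) 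
(.lf (nat_lit 7183) (.g (nat_lit 1863) (.e (nat_lit 7936) (nat_lit 22) (.e (nat_lit 344132) (nat_lit 26) (.e (nat_lit 557101) (nat_lit 13) (.e (nat_lit 172064) (nat_lit 2) (.e (nat_lit 196661) (nat_lit 12) .nil))))) .nil)) 
(.lf (nat_lit 7247) (.g (nat_lit 1420) (.e (nat_lit 309) (nat_lit 23) (.e (nat_lit 352312) (nat_lit 22) (.e (nat_lit 90133) (nat_lit 9) (.e (nat_lit 2397) (nat_lit 157) (.e (nat_lit 7590) (nat_lit 407) .nil))))) .nil))) (.nd (nat_lit 6) 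
(.lf (nat_lit 7215) (.g (nat_lit 1119) (.e (nat_lit 308) (nat_lit 23) (.e (nat_lit 352315) (nat_lit 23) (.e (nat_lit 106240) (nat_lit 16) (.e (nat_lit 401454) (nat_lit 12) (.e (nat_lit 483072) (nat_lit 0) .nil))))) (.g (nat_lit 4) .nil .nil))) 
(.lf (nat_lit 7279) (.g (nat_lit 2201) (.e (nat_lit 309) (nat_lit 23) (.e (nat_lit 352324) (nat_lit 26) (.e (nat_lit 147496) (nat_lit 11) (.e (nat_lit 24584) (nat_lit 0) (.e (nat_lit 6097) (nat_lit 332) .nil))))) .nil)))) (.nd (nat_lit 5) (.nd (nat_lit 6) 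
(.lf (nat_lit 7199) (.g (nat_lit 2436) (.e (nat_lit 7936) (nat_lit 22) (.e (nat_lit 344133) (nat_lit 26) (.e (nat_lit 557105) (nat_lit 14) (.e (nat_lit 180252) (nat_lit 10) (.e (nat_lit 581376) (nat_lit 4) .nil))))) .nil)) 
(.lf (nat_lit 7263) (.g (nat_lit 2042) (.e (nat_lit 309) (nat_lit 23) (.e (nat_lit 352315) (nat_lit 23) (.e (nat_lit 98389) (nat_lit 33) (.e (nat_lit 491560) (nat_lit 10) (.e (nat_lit 344130) (nat_lit 26) (.e (nat_lit 557065) (nat_lit 9) .nil)))))) (.g (nat_lit 4) .nil .nil)))) (.nd (nat_lit 6) 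
(.lf (nat_lit 7231) (.g (nat_lit 1955) (.e (nat_lit 309) (nat_lit 23) (.e (nat_lit 352277) (nat_lit 11) (.e (nat_lit 426344) (nat_lit 14) (.e (nat_lit 491560) (nat_lit 10) (.e (nat_lit 344179) (nat_lit 44) .nil))))) .nil)) 
(.lf (nat_lit 7295) (.g (nat_lit 1988) (.e (nat_lit 310) (nat_lit 23) (.e (nat_lit 352277) (nat_lit 11) (.e (nat_lit 426011) (nat_lit 0) (.e (nat_lit 7591) (nat_lit 407) (.e (nat_lit 73775) (nat_lit 26) .nil))))) .nil)))))))))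

noncomputable def tv100 : DT := (.nd (nat_lit 0) (.nd (nat_lit 1) (.nd (nat_lit 2) (.nd (nat_lit 3) (.nd (nat_lit 4) (.nd (nat_lit 5) 
(.lf (nat_lit 7296) (.g (nat_lit 1645) (.e (nat_lit 310) (nat_lit 23) (.e (nat_lit 352277) (nat_lit 11) (.e (nat_lit 426012) (nat_lit 0) (.e (nat_lit 7591) (nat_lit 407) (.e (nat_lit 73775) (nat_lit 26) .nil))))) .nil)) 
(.lf (nat_lit 7328) (.g (nat_lit 625) (.e (nat_lit 311) (nat_lit 23) (.e (nat_lit 352258) (nat_lit 0) (.e (nat_lit 7088) (nat_lit 379) (.e (nat_lit 123214) (nat_lit 275) (.e (nat_lit 73774) (nat_lit 26) (.e (nat_lit 778334) (nat_lit 9) .nil)))))) (.g (nat_lit 0) .nil .nil)))) (.nd (nat_lit 5) 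
(.lf (nat_lit 7312) (.g (nat_lit 1862) (.e (nat_lit 310) (nat_lit 23) (.e (nat_lit 352315) (nat_lit 23) (.e (nat_lit 98389) (nat_lit 33) (.e (nat_lit 491558) (nat_lit 10) (.e (nat_lit 344130) (nat_lit 26) (.e (nat_lit 557065) (nat_lit 9) .nil)))))) (.g (nat_lit 4) .nil .nil))) 
(.lf (nat_lit 7344) (.g (nat_lit 1083) (.e (nat_lit 311) (nat_lit 23) (.e (nat_lit 352269) (nat_lit 7) (.e (nat_lit 245776) (nat_lit 4) (.e (nat_lit 172119) (nat_lit 12) (.e (nat_lit 483072) (nat_lit 0) .nil))))) (.g (nat_lit 4) .nil .nil))))) (.nd (nat_lit 4) (.nd (nat_lit 5) 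
(.lf (nat_lit 7304) (.g (nat_lit 752) (.e (nat_lit 310) (nat_lit 23) (.e (nat_lit 352309) (nat_lit 21) (.e (nat_lit 57857) (nat_lit 254) .nil))) .nil)) 
(.lf (nat_lit 7336) (.g (nat_lit 1905) (.e (nat_lit 311) (nat_lit 23) (.e (nat_lit 352262) (nat_lit 0) (.e (nat_lit 3632) (nat_lit 227) (.e (nat_lit 778323) (nat_lit 5) (.e (nat_lit 73795) (nat_lit 47) .nil))))) .nil))) (.nd (nat_lit 5) 
(.lf (nat_lit 7320) (.g (nat_lit 628) (.e (nat_lit 311) (nat_lit 23) (.e (nat_lit 352257) (nat_lit 0) (.e (nat_lit 7081) (nat_lit 378) (.e (nat_lit 57898) (nat_lit 275) (.e (nat_lit 73774) (nat_lit 26) (.e (nat_lit 778334) (nat_lit 9) .nil)))))) (.g (nat_lit 0) .nil .nil))) 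
(.lf (nat_lit 7352) (.g (nat_lit 397) (.e (nat_lit 311) (nat_lit 23) (.e (nat_lit 352271) (nat_lit 9) (.e (nat_lit 409603) (nat_lit 0) (.e (nat_lit 5411) (nat_lit 303) (.e (nat_lit 73774) (nat_lit 26) (.e (nat_lit 778340) (nat_lit 9) .nil)))))) (.g (nat_lit 0) .nil .nil)))))) (.nd (nat_lit 3) (.nd (nat_lit 4) (.nd (nat_lit 5) 
(.lf (nat_lit 7300) (.g (nat_lit 2560) (.e (nat_lit 310) (nat_lit 23) (.e (nat_lit 352277) (nat_lit 11) (.e (nat_lit 426343) (nat_lit 14) (.e (nat_lit 491560) (nat_lit 10) (.e (nat_lit 344179) (nat_lit 44) .nil))))) .nil)) 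
(.lf (nat_lit 7332) (.g (nat_lit 386) (.e (nat_lit 311) (nat_lit 23) (.e (nat_lit 352258) (nat_lit 0) (.e (nat_lit 7089) (nat_lit 379) (.e (nat_lit 123214) (nat_lit 275) (.e (nat_lit 73774) (nat_lit 26) (.e (nat_lit 778340) (nat_lit 9) .nil)))))) (.g (nat_lit 0) .nil .nil)))) (.nd (nat_lit 5) 
(.lf (nat_lit 7316) (.g (nat_lit 2251) (.e (nat_lit 310) (nat_lit 23) (.e (nat_lit 352315) (nat_lit 23) (.e (nat_lit 98389) (nat_lit 33) (.e (nat_lit 491560) (nat_lit 10) (.e (nat_lit 344133) (nat_lit 26) (.e (nat_lit 557065) (nat_lit 9) .nil)))))) (.g (nat_lit 4) .nil .nil))) 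
(.lf (nat_lit 7348) (.g (nat_lit 753) (.e (nat_lit 311) (nat_lit 23) (.e (nat_lit 352271) (nat_lit 9) (.e (nat_lit 409602) (nat_lit 0) (.e (nat_lit 5411) (nat_lit 303) (.e (nat_lit 73774) (nat_lit 26) (.e (nat_lit 778340) (nat_lit 9) .nil)))))) (.g (nat_lit 0) .nil .nil))))) (.nd (nat_lit 4) (.nd (nat_lit 5) 
(.lf (nat_lit 7308) (.g (nat_lit 707) (.e (nat_lit 310) (nat_lit 23) (.e (nat_lit 352315) (nat_lit 23) (.e (nat_lit 98355) (nat_lit 26) .nil))) .nil)) 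
(.lf (nat_lit 7340) (.g (nat_lit 2011) (.e (nat_lit 311) (nat_lit 23) (.e (nat_lit 352262) (nat_lit 0) (.e (nat_lit 3748) (nat_lit 228) (.e (nat_lit 786473) (nat_lit 27) (.e (nat_lit 343808) (nat_lit 0) .nil))))) .nil))) (.nd (nat_lit 5) 
(.lf (nat_lit 7324) (.g (nat_lit 410) (.e (nat_lit 311) (nat_lit 23) (.e (nat_lit 352258) (nat_lit 0) (.e (nat_lit 3716) (nat_lit 227) (.e (nat_lit 778322) (nat_lit 5) (.e (nat_lit 73795) (nat_lit 47) (.e (nat_lit 123166) (nat_lit 256) .nil)))))) (.g (nat_lit 0) .nil .nil))) 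
(.lf (nat_lit 7356) (.g (nat_lit 344) (.e (nat_lit 311) (nat_lit 23) (.e (nat_lit 352271) (nat_lit 9) (.e (nat_lit 409605) (nat_lit 0) (.e (nat_lit 5411) (nat_lit 303) (.e (nat_lit 73774) (nat_lit 26) (.e (nat_lit 778340) (nat_lit 9) .nil)))))) (.g (nat_lit 0) .nil .nil))))))) (.nd (nat_lit 2) (.nd (nat_lit 3) (.nd (nat_lit 4) (.nd (nat_lit 5) 
(.lf (nat_lit 7298) (.g (nat_lit 1063) (.e (nat_lit 310) (nat_lit 23) (.e (nat_lit 352277) (nat_lit 11) (.e (nat_lit 426012) (nat_lit 0) (.e (nat_lit 7593) (nat_lit 407) .nil)))) .nil)) 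
(.lf (nat_lit 7330) (.g (nat_lit 372) (.e (nat_lit 311) (nat_lit 23) (.e (nat_lit 352258) (nat_lit 0) (.e (nat_lit 7088) (nat_lit 379) (.e (nat_lit 123214) (nat_lit 275) (.e (nat_lit 73774) (nat_lit 26) (.e (nat_lit 778340) (nat_lit 9) .nil)))))) (.g (nat_lit 0) .nil .nil)))) (.nd (nat_lit 5) 
(.lf (nat_lit 7314) (.g (nat_lit 4283) (.e (nat_lit 310) (nat_lit 23) (.e (nat_lit 352315) (nat_lit 23) (.e (nat_lit 98389) (nat_lit 33) (.e (nat_lit 491560) (nat_lit 10) (.e (nat_lit 344129) (nat_lit 26) (.e (nat_lit 557066) (nat_lit 9) .nil)))))) (.g (nat_lit 0) .nil .nil))) 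
(.lf (nat_lit 7346) (.g (nat_lit 1008) (.e (nat_lit 311) (nat_lit 23) (.e (nat_lit 352271) (nat_lit 9) (.e (nat_lit 409602) (nat_lit 0) (.e (nat_lit 5411) (nat_lit 303) (.e (nat_lit 73774) (nat_lit 26) (.e (nat_lit 778334) (nat_lit 9) .nil)))))) (.g (nat_lit 0) .nil .nil))))) (.nd (nat_lit 4) (.nd (nat_lit 5) 
(.lf (nat_lit 7306) (.g (nat_lit 943) (.e (nat_lit 310) (nat_lit 23) (.e (nat_lit 352312) (nat_lit 22) (.e (nat_lit 90133) (nat_lit 9) (.e (nat_lit 2400) (nat_lit 157) .nil)))) .nil)) 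
(.lf (nat_lit 7338) (.g (nat_lit 2200) (.e (nat_lit 311) (nat_lit 23) (.e (nat_lit 352262) (nat_lit 0) (.e (nat_lit 3632) (nat_lit 227) (.e (nat_lit 778323) (nat_lit 5) (.e (nat_lit 73795) (nat_lit 47) (.e (nat_lit 123166) (nat_lit 256) .nil)))))) (.g (nat_lit 0) .nil .nil)))) (.nd (nat_lit 5) 
(.lf (nat_lit 7322) (.g (nat_lit 332) (.e (nat_lit 311) (nat_lit 23) (.e (nat_lit 352257) (nat_lit 0) (.e (nat_lit 7082) (nat_lit 378) (.e (nat_lit 57898) (nat_lit 275) (.e (nat_lit 73774) (nat_lit 26) (.e (nat_lit 778340) (nat_lit 9) .nil)))))) (.g (nat_lit 0) .nil .nil))) 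
(.lf (nat_lit 7354) (.g (nat_lit 643) (.e (nat_lit 311) (nat_lit 23) (.e (nat_lit 352271) (nat_lit 9) (.e (nat_lit 409604) (nat_lit 0) (.e (nat_lit 5411) (nat_lit 303) (.e (nat_lit 73774) (nat_lit 26) (.e (nat_lit 778339) (nat_lit 9) .nil)))))) (.g (nat_lit 0) .nil .nil)))))) (.nd (nat_lit 3) (.nd (nat_lit 4) (.nd (nat_lit 5) 
(.lf (nat_lit 7302) (.g (nat_lit 1724) (.e (nat_lit 310) (nat_lit 23) (.e (nat_lit 352309) (nat_lit 21) (.e (nat_lit 57655) (nat_lit 152) (.e (nat_lit 1216) (nat_lit 90) .nil)))) .nil)) 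
(.lf (nat_lit 7334) (.g (nat_lit 1629) (.e (nat_lit 311) (nat_lit 23) (.e (nat_lit 352262) (nat_lit 0) (.e (nat_lit 3631) (nat_lit 227) (.e (nat_lit 778323) (nat_lit 5) (.e (nat_lit 73795) (nat_lit 47) .nil))))) .nil))) (.nd (nat_lit 5) 
(.lf (nat_lit 7318) (.g (nat_lit 375) (.e (nat_lit 311) (nat_lit 23) (.e (nat_lit 352257) (nat_lit 0) (.e (nat_lit 7077) (nat_lit 378) (.e (nat_lit 57898) (nat_lit 275) (.e (nat_lit 73774) (nat_lit 26) (.e (nat_lit 778340) (nat_lit 9) .nil)))))) (.g (nat_lit 0) .nil .nil))) 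
(.lf (nat_lit 7350) (.g (nat_lit 601) (.e (nat_lit 311) (nat_lit 23) (.e (nat_lit 352271) (nat_lit 9) (.e (nat_lit 409602) (nat_lit 0) (.e (nat_lit 5411) (nat_lit 303) (.e (nat_lit 81664) (nat_lit 26) (.e (nat_lit 778337) (nat_lit 9) .nil)))))) (.g (nat_lit 4) .nil .nil))))) (.nd (nat_lit 4) (.nd (nat_lit 5) 
(.lf (nat_lit 7310) (.g (nat_lit 1338) (.e (nat_lit 310) (nat_lit 23) (.e (nat_lit 352315) (nat_lit 23) (.e (nat_lit 98359) (nat_lit 26) (.e (nat_lit 433920) (nat_lit 20) .nil)))) .nil)) 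
(.lf (nat_lit 7342) (.g (nat_lit 1506) (.e (nat_lit 311) (nat_lit 23) (.e (nat_lit 352262) (nat_lit 0) (.e (nat_lit 3748) (nat_lit 228) (.e (nat_lit 786477) (nat_lit 28) (.e (nat_lit 344085) (nat_lit 15) .nil))))) .nil))) (.nd (nat_lit 5) 
(.lf (nat_lit 7326) (.g (nat_lit 320) (.e (nat_lit 311) (nat_lit 23) (.e (nat_lit 352258) (nat_lit 0) (.e (nat_lit 7086) (nat_lit 379) (.e (nat_lit 123214) (nat_lit 275) (.e (nat_lit 73774) (nat_lit 26) (.e (nat_lit 778340) (nat_lit 9) .nil)))))) (.g (nat_lit 0) .nil .nil))) 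
(.lf (nat_lit 7358) (.g (nat_lit 400) (.e (nat_lit 311) (nat_lit 23) (.e (nat_lit 352272) (nat_lit 10) (.e (nat_lit 417793) (nat_lit 0) (.e (nat_lit 5410) (nat_lit 303) (.e (nat_lit 73774) (nat_lit 26) .nil))))) .nil))))))) (.nd (nat_lit 1) (.nd (nat_lit 2) (.nd (nat_lit 3) (.nd (nat_lit 4) (.nd (nat_lit 5) 
(.lf (nat_lit 7297) (.g (nat_lit 1537) (.e (nat_lit 310) (nat_lit 23) (.e (nat_lit 352277) (nat_lit 11) (.e (nat_lit 426012) (nat_lit 0) (.e (nat_lit 7591) (nat_lit 407) (.e (nat_lit 73776) (nat_lit 26) .nil))))) .nil)) 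
(.lf (nat_lit 7329) (.g (nat_lit 631) (.e (nat_lit 311) (nat_lit 23) (.e (nat_lit 352258) (nat_lit 0) (.e (nat_lit 7088) (nat_lit 379) (.e (nat_lit 123214) (nat_lit 275) (.e (nat_lit 73774) (nat_lit 26) (.e (nat_lit 778339) (nat_lit 9) .nil)))))) (.g (nat_lit 0) .nil .nil)))) (.nd (nat_lit 5) 
(.lf (nat_lit 7313) (.g (nat_lit 3052) (.e (nat_lit 310) (nat_lit 23) (.e (nat_lit 352315) (nat_lit 23) (.e (nat_lit 98389) (nat_lit 33) (.e (nat_lit 491558) (nat_lit 10) (.e (nat_lit 344130) (nat_lit 26) (.e (nat_lit 557066) (nat_lit 9) .nil)))))) (.g (nat_lit 6) .nil .nil))) 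
(.lf (nat_lit 7345) (.g (nat_lit 796) (.e (nat_lit 311) (nat_lit 23) (.e (nat_lit 352271) (nat_lit 9) (.e (nat_lit 409602) (nat_lit 0) (.e (nat_lit 5407) (nat_lit 303) (.e (nat_lit 81664) (nat_lit 26) .nil))))) .nil)))) (.nd (nat_lit 4) (.nd (nat_lit 5) 
(.lf (nat_lit 7305) (.g (nat_lit 963) (.e (nat_lit 310) (nat_lit 23) (.e (nat_lit 352312) (nat_lit 22) (.e (nat_lit 90133) (nat_lit 9) (.e (nat_lit 2397) (nat_lit 157) .nil)))) .nil)) 
(.lf (nat_lit 7337) (.g (nat_lit 2153) (.e (nat_lit 311) (nat_lit 23) (.e (nat_lit 352262) (nat_lit 0) (.e (nat_lit 3632) (nat_lit 227) (.e (nat_lit 778323) (nat_lit 5) (.e (nat_lit 73795) (nat_lit 47) (.e (nat_lit 123165) (nat_lit 256) .nil)))))) (.g (nat_lit 0) .nil .nil)))) (.nd (nat_lit 5) 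
(.lf (nat_lit 7321) (.g (nat_lit 377) (.e (nat_lit 311) (nat_lit 23) (.e (nat_lit 352257) (nat_lit 0) (.e (nat_lit 7081) (nat_lit 378) (.e (nat_lit 57898) (nat_lit 275) (.e (nat_lit 73774) (nat_lit 26) (.e (nat_lit 778340) (nat_lit 9) .nil)))))) (.g (nat_lit 0) .nil .nil))) 
(.lf (nat_lit 7353) (.g (nat_lit 636) (.e (nat_lit 311) (nat_lit 23) (.e (nat_lit 352271) (nat_lit 9) (.e (nat_lit 409604) (nat_lit 0) (.e (nat_lit 5411) (nat_lit 303) (.e (nat_lit 73774) (nat_lit 26) (.e (nat_lit 778334) (nat_lit 9) .nil)))))) (.g (nat_lit 0) .nil .nil)))))) (.nd (nat_lit 3) (.nd (nat_lit 4) (.nd (nat_lit 5) 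
(.lf (nat_lit 7301) (.g (nat_lit 1906) (.e (nat_lit 310) (nat_lit 23) (.e (nat_lit 352277) (nat_lit 11) (.e (nat_lit 426344) (nat_lit 14) (.e (nat_lit 491560) (nat_lit 10) (.e (nat_lit 344179) (nat_lit 44) .nil))))) .nil)) 
(.lf (nat_lit 7333) (.g (nat_lit 471) (.e (nat_lit 311) (nat_lit 23) (.e (nat_lit 352262) (nat_lit 0) (.e (nat_lit 3630) (nat_lit 227) .nil))) .nil))) (.nd (nat_lit 5) 
(.lf (nat_lit 7317) (.g (nat_lit 625) (.e (nat_lit 311) (nat_lit 23) (.e (nat_lit 352257) (nat_lit 0) (.e (nat_lit 7077) (nat_lit 378) (.e (nat_lit 57898) (nat_lit 275) (.e (nat_lit 73774) (nat_lit 26) (.e (nat_lit 778334) (nat_lit 9) .nil)))))) (.g (nat_lit 0) .nil .nil))) 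
(.lf (nat_lit 7349) (.g (nat_lit 590) (.e (nat_lit 311) (nat_lit 23) (.e (nat_lit 352271) (nat_lit 9) (.e (nat_lit 409602) (nat_lit 0) (.e (nat_lit 5411) (nat_lit 303) (.e (nat_lit 81664) (nat_lit 26) (.e (nat_lit 778334) (nat_lit 9) .nil)))))) (.g (nat_lit 4) .nil .nil))))) (.nd (nat_lit 4) (.nd (nat_lit 5) 
(.lf (nat_lit 7309) (.g (nat_lit 684) (.e (nat_lit 310) (nat_lit 23) (.e (nat_lit 352315) (nat_lit 23) (.e (nat_lit 98356) (nat_lit 26) .nil))) .nil)) 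
(.lf (nat_lit 7341) (.g (nat_lit 1074) (.e (nat_lit 311) (nat_lit 23) (.e (nat_lit 352262) (nat_lit 0) (.e (nat_lit 3748) (nat_lit 228) (.e (nat_lit 786477) (nat_lit 28) .nil)))) .nil))) (.nd (nat_lit 5) 
(.lf (nat_lit 7325) (.g (nat_lit 571) (.e (nat_lit 311) (nat_lit 23) (.e (nat_lit 352258) (nat_lit 0) (.e (nat_lit 7086) (nat_lit 379) (.e (nat_lit 123214) (nat_lit 275) (.e (nat_lit 73774) (nat_lit 26) (.e (nat_lit 778334) (nat_lit 9) .nil)))))) (.g (nat_lit 0) .nil .nil))) 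
(.lf (nat_lit 7357) (.g (nat_lit 316) (.e (nat_lit 311) (nat_lit 23) (.e (nat_lit 352272) (nat_lit 10) (.e (nat_lit 417793) (nat_lit 0) (.e (nat_lit 5410) (nat_lit 303) .nil)))) .nil)))))) (.nd (nat_lit 2) (.nd (nat_lit 3) (.nd (nat_lit 4) (.nd (nat_lit 5) 
(.lf (nat_lit 7299) (.g (nat_lit 2524) (.e (nat_lit 310) (nat_lit 23) (.e (nat_lit 352277) (nat_lit 11) (.e (nat_lit 426343) (nat_lit 14) (.e (nat_lit 491556) (nat_lit 9) (.e (nat_lit 336051) (nat_lit 6) .nil))))) .nil)) 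
(.lf (nat_lit 7331) (.g (nat_lit 640) (.e (nat_lit 311) (nat_lit 23) (.e (nat_lit 352258) (nat_lit 0) (.e (nat_lit 7089) (nat_lit 379) (.e (nat_lit 123214) (nat_lit 275) (.e (nat_lit 73774) (nat_lit 26) (.e (nat_lit 778334) (nat_lit 9) .nil)))))) (.g (nat_lit 0) .nil .nil)))) (.nd (nat_lit 5) 
(.lf (nat_lit 7315) (.g (nat_lit 1992) (.e (nat_lit 310) (nat_lit 23) (.e (nat_lit 352315) (nat_lit 23) (.e (nat_lit 98389) (nat_lit 33) (.e (nat_lit 491560) (nat_lit 10) (.e (nat_lit 344131) (nat_lit 26) (.e (nat_lit 557066) (nat_lit 9) .nil)))))) (.g (nat_lit 4) .nil .nil))) 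
(.lf (nat_lit 7347) (.g (nat_lit 1023) (.e (nat_lit 311) (nat_lit 23) (.e (nat_lit 352271) (nat_lit 9) (.e (nat_lit 409602) (nat_lit 0) (.e (nat_lit 5411) (nat_lit 303) (.e (nat_lit 73774) (nat_lit 26) (.e (nat_lit 778339) (nat_lit 9) .nil)))))) (.g (nat_lit 0) .nil .nil))))) (.nd (nat_lit 4) (.nd (nat_lit 5) 
(.lf (nat_lit 7307) (.g (nat_lit 1426) (.e (nat_lit 310) (nat_lit 23) (.e (nat_lit 352312) (nat_lit 22) (.e (nat_lit 90170) (nat_lit 13) (.e (nat_lit 179968) (nat_lit 20) .nil)))) .nil)) 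
(.lf (nat_lit 7339) (.g (nat_lit 1223) (.e (nat_lit 311) (nat_lit 23) (.e (nat_lit 352262) (nat_lit 0) (.e (nat_lit 3748) (nat_lit 228) (.e (nat_lit 786473) (nat_lit 27) .nil)))) .nil))) (.nd (nat_lit 5) 
(.lf (nat_lit 7323) (.g (nat_lit 367) (.e (nat_lit 311) (nat_lit 23) (.e (nat_lit 352258) (nat_lit 0) (.e (nat_lit 3716) (nat_lit 227) (.e (nat_lit 778322) (nat_lit 5) (.e (nat_lit 73795) (nat_lit 47) (.e (nat_lit 123165) (nat_lit 256) .nil)))))) (.g (nat_lit 0) .nil .nil))) 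
(.lf (nat_lit 7355) (.g (nat_lit 377) (.e (nat_lit 311) (nat_lit 23) (.e (nat_lit 352271) (nat_lit 9) (.e (nat_lit 409604) (nat_lit 0) (.e (nat_lit 5411) (nat_lit 303) (.e (nat_lit 73774) (nat_lit 26) (.e (nat_lit 778340) (nat_lit 9) .nil)))))) (.g (nat_lit 0) .nil .nil)))))) (.nd (nat_lit 3) (.nd (nat_lit 4) (.nd (nat_lit 5) 
(.lf (nat_lit 7303) (.g (nat_lit 1759) (.e (nat_lit 310) (nat_lit 23) (.e (nat_lit 352309) (nat_lit 21) (.e (nat_lit 57655) (nat_lit 152) (.e (nat_lit 1217) (nat_lit 90) .nil)))) .nil)) 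
(.lf (nat_lit 7335) (.g (nat_lit 1132) (.e (nat_lit 311) (nat_lit 23) (.e (nat_lit 352262) (nat_lit 0) (.e (nat_lit 3632) (nat_lit 227) (.e (nat_lit 778323) (nat_lit 5) .nil)))) .nil))) (.nd (nat_lit 5) 
(.lf (nat_lit 7319) (.g (nat_lit 362) (.e (nat_lit 311) (nat_lit 23) (.e (nat_lit 352257) (nat_lit 0) (.e (nat_lit 7079) (nat_lit 378) (.e (nat_lit 57898) (nat_lit 275) (.e (nat_lit 73774) (nat_lit 26) (.e (nat_lit 778340) (nat_lit 9) .nil)))))) (.g (nat_lit 0) .nil .nil))) 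
(.lf (nat_lit 7351) (.g (nat_lit 372) (.e (nat_lit 311) (nat_lit 23) (.e (nat_lit 352271) (nat_lit 9) (.e (nat_lit 409603) (nat_lit 0) (.e (nat_lit 5407) (nat_lit 303) (.e (nat_lit 81664) (nat_lit 26) .nil))))) .nil)))) (.nd (nat_lit 4) (.nd (nat_lit 5) 
(.lf (nat_lit 7311) (.g (nat_lit 3853) (.e (nat_lit 310) (nat_lit 23) (.e (nat_lit 352315) (nat_lit 23) (.e (nat_lit 98389) (nat_lit 33) (.e (nat_lit 491558) (nat_lit 10) (.e (nat_lit 344129) (nat_lit 26) (.e (nat_lit 557066) (nat_lit 9) .nil)))))) (.g (nat_lit 6) .nil .nil))) 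
(.lf (nat_lit 7343) (.g (nat_lit 1621) (.e (nat_lit 311) (nat_lit 23) (.e (nat_lit 352269) (nat_lit 7) (.e (nat_lit 245776) (nat_lit 4) (.e (nat_lit 172094) (nat_lit 9) (.e (nat_lit 426365) (nat_lit 15) (.e (nat_lit 6620) (nat_lit 357) .nil)))))) (.g (nat_lit 6) .nil .nil)))) (.nd (nat_lit 5) 
(.lf (nat_lit 7327) (.g (nat_lit 356) (.e (nat_lit 311) (nat_lit 23) (.e (nat_lit 352258) (nat_lit 0) (.e (nat_lit 7087) (nat_lit 379) (.e (nat_lit 123214) (nat_lit 275) (.e (nat_lit 73774) (nat_lit 26) (.e (nat_lit 778340) (nat_lit 9) .nil)))))) (.g (nat_lit 0) .nil .nil))) 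
(.lf (nat_lit 7359) (.g (nat_lit 754) (.e (nat_lit 311) (nat_lit 23) (.e (nat_lit 352272) (nat_lit 10) (.e (nat_lit 417793) (nat_lit 0) (.e (nat_lit 5412) (nat_lit 303) (.e (nat_lit 73774) (nat_lit 26) (.e (nat_lit 778340) (nat_lit 9) .nil)))))) (.g (nat_lit 0) .nil .nil)))))))))

noncomputable def tv101 : DT := (.nd (nat_lit 0) (.nd (nat_lit 1) (.nd (nat_lit 2) (.nd (nat_lit 3) (.nd (nat_lit 4) 
(.lf (nat_lit 7360) (.g (nat_lit 751) (.e (nat_lit 311) (nat_lit 23) (.e (nat_lit 352272) (nat_lit 10) (.e (nat_lit 417794) (nat_lit 0) (.e (nat_lit 5412) (nat_lit 303) (.e (nat_lit 73774) (nat_lit 26) (.e (nat_lit 778340) (nat_lit 9) .nil)))))) (.g (nat_lit 0) .nil .nil))) 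
(.lf (nat_lit 7376) (.g (nat_lit 427) (.e (nat_lit 311) (nat_lit 23) (.e (nat_lit 352276) (nat_lit 11) (.e (nat_lit 425984) (nat_lit 0) (.e (nat_lit 7592) (nat_lit 407) (.e (nat_lit 73774) (nat_lit 26) (.e (nat_lit 778340) (nat_lit 9) .nil)))))) (.g (nat_lit 0) .nil .nil)))) (.nd (nat_lit 4) 
(.lf (nat_lit 7368) (.g (nat_lit 1462) (.e (nat_lit 311) (nat_lit 23) (.e (nat_lit 352272) (nat_lit 10) (.e (nat_lit 417796) (nat_lit 0) (.e (nat_lit 5409) (nat_lit 303) (.e (nat_lit 73774) (nat_lit 26) (.e (nat_lit 778337) (nat_lit 9) .nil)))))) (.g (nat_lit 6) .nil .nil))) 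
(.lf (nat_lit 7384) (.g (nat_lit 1469) (.e (nat_lit 311) (nat_lit 23) (.e (nat_lit 352277) (nat_lit 11) (.e (nat_lit 426009) (nat_lit 0) (.e (nat_lit 7593) (nat_lit 407) (.e (nat_lit 73774) (nat_lit 26) (.e (nat_lit 778334) (nat_lit 9) .nil)))))) (.g (nat_lit 0) .nil .nil))))) (.nd (nat_lit 3) (.nd (nat_lit 4) 
(.lf (nat_lit 7364) (.g (nat_lit 1123) (.e (nat_lit 311) (nat_lit 23) (.e (nat_lit 352272) (nat_lit 10) (.e (nat_lit 417795) (nat_lit 0) (.e (nat_lit 5412) (nat_lit 303) (.e (nat_lit 73774) (nat_lit 26) (.e (nat_lit 778340) (nat_lit 9) .nil)))))) (.g (nat_lit 0) .nil .nil))) 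
(.lf (nat_lit 7380) (.g (nat_lit 377) (.e (nat_lit 311) (nat_lit 23) (.e (nat_lit 352276) (nat_lit 11) (.e (nat_lit 425989) (nat_lit 0) (.e (nat_lit 7592) (nat_lit 407) (.e (nat_lit 73774) (nat_lit 26) (.e (nat_lit 778340) (nat_lit 9) .nil)))))) (.g (nat_lit 0) .nil .nil)))) (.nd (nat_lit 4) 
(.lf (nat_lit 7372) (.g (nat_lit 1146) (.e (nat_lit 311) (nat_lit 23) (.e (nat_lit 352272) (nat_lit 10) (.e (nat_lit 417796) (nat_lit 0) (.e (nat_lit 5413) (nat_lit 303) (.e (nat_lit 73774) (nat_lit 26) (.e (nat_lit 778334) (nat_lit 9) .nil)))))) (.g (nat_lit 6) .nil .nil))) 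
(.lf (nat_lit 7388) (.g (nat_lit 1200) (.e (nat_lit 311) (nat_lit 23) (.e (nat_lit 352277) (nat_lit 11) (.e (nat_lit 426010) (nat_lit 0) (.e (nat_lit 7591) (nat_lit 407) (.e (nat_lit 73774) (nat_lit 26) (.e (nat_lit 778334) (nat_lit 9) .nil)))))) (.g (nat_lit 4) .nil .nil)))))) (.nd (nat_lit 2) (.nd (nat_lit 3) (.nd (nat_lit 4) 
(.lf (nat_lit 7362) (.g (nat_lit 736) (.e (nat_lit 311) (nat_lit 23) (.e (nat_lit 352272) (nat_lit 10) (.e (nat_lit 417795) (nat_lit 0) (.e (nat_lit 5410) (nat_lit 303) (.e (nat_lit 73774) (nat_lit 26) (.e (nat_lit 778340) (nat_lit 9) .nil)))))) (.g (nat_lit 0) .nil .nil))) 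
(.lf (nat_lit 7378) (.g (nat_lit 631) (.e (nat_lit 311) (nat_lit 23) (.e (nat_lit 352276) (nat_lit 11) (.e (nat_lit 425989) (nat_lit 0) (.e (nat_lit 7592) (nat_lit 407) (.e (nat_lit 73774) (nat_lit 26) (.e (nat_lit 778334) (nat_lit 9) .nil)))))) (.g (nat_lit 0) .nil .nil)))) (.nd (nat_lit 4) 
(.lf (nat_lit 7370) (.g (nat_lit 1328) (.e (nat_lit 311) (nat_lit 23) (.e (nat_lit 352272) (nat_lit 10) (.e (nat_lit 417796) (nat_lit 0) (.e (nat_lit 5412) (nat_lit 303) (.e (nat_lit 73774) (nat_lit 26) (.e (nat_lit 778334) (nat_lit 9) .nil)))))) (.g (nat_lit 0) .nil .nil))) 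
(.lf (nat_lit 7386) (.g (nat_lit 1085) (.e (nat_lit 311) (nat_lit 23) (.e (nat_lit 352277) (nat_lit 11) (.e (nat_lit 426009) (nat_lit 0) (.e (nat_lit 7593) (nat_lit 407) (.e (nat_lit 81664) (nat_lit 26) (.e (nat_lit 778334) (nat_lit 9) .nil)))))) (.g (nat_lit 4) .nil .nil))))) (.nd (nat_lit 3) (.nd (nat_lit 4) 
(.lf (nat_lit 7366) (.g (nat_lit 915) (.e (nat_lit 311) (nat_lit 23) (.e (nat_lit 352272) (nat_lit 10) (.e (nat_lit 417795) (nat_lit 0) (.e (nat_lit 5413) (nat_lit 303) (.e (nat_lit 73774) (nat_lit 26) (.e (nat_lit 778337) (nat_lit 9) .nil)))))) (.g (nat_lit 6) .nil .nil))) 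
(.lf (nat_lit 7382) (.g (nat_lit 1084) (.e (nat_lit 311) (nat_lit 23) (.e (nat_lit 352277) (nat_lit 11) (.e (nat_lit 426009) (nat_lit 0) (.e (nat_lit 7591) (nat_lit 407) (.e (nat_lit 73774) (nat_lit 26) .nil))))) .nil))) (.nd (nat_lit 4) 
(.lf (nat_lit 7374) (.g (nat_lit 1160) (.e (nat_lit 311) (nat_lit 23) (.e (nat_lit 352272) (nat_lit 10) (.e (nat_lit 417796) (nat_lit 0) (.e (nat_lit 5413) (nat_lit 303) (.e (nat_lit 73774) (nat_lit 26) (.e (nat_lit 778339) (nat_lit 9) .nil)))))) (.g (nat_lit 6) .nil .nil))) 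
(.lf (nat_lit 7390) (.g (nat_lit 1218) (.e (nat_lit 311) (nat_lit 23) (.e (nat_lit 352277) (nat_lit 11) (.e (nat_lit 426010) (nat_lit 0) (.e (nat_lit 7591) (nat_lit 407) (.e (nat_lit 81664) (nat_lit 26) (.e (nat_lit 778334) (nat_lit 9) .nil)))))) (.g (nat_lit 4) .nil .nil))))))) (.nd (nat_lit 1) (.nd (nat_lit 2) (.nd (nat_lit 3) (.nd (nat_lit 4) 
(.lf (nat_lit 7361) (.g (nat_lit 1169) (.e (nat_lit 311) (nat_lit 23) (.e (nat_lit 352272) (nat_lit 10) (.e (nat_lit 417795) (nat_lit 0) (.e (nat_lit 5409) (nat_lit 303) (.e (nat_lit 73774) (nat_lit 26) (.e (nat_lit 778337) (nat_lit 9) .nil)))))) (.g (nat_lit 6) .nil .nil))) 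
(.lf (nat_lit 7377) (.g (nat_lit 376) (.e (nat_lit 311) (nat_lit 23) (.e (nat_lit 352276) (nat_lit 11) (.e (nat_lit 425987) (nat_lit 0) (.e (nat_lit 7592) (nat_lit 407) (.e (nat_lit 73774) (nat_lit 26) (.e (nat_lit 778340) (nat_lit 9) .nil)))))) (.g (nat_lit 0) .nil .nil)))) (.nd (nat_lit 4) 
(.lf (nat_lit 7369) (.g (nat_lit 883) (.e (nat_lit 311) (nat_lit 23) (.e (nat_lit 352272) (nat_lit 10) (.e (nat_lit 417796) (nat_lit 0) (.e (nat_lit 5410) (nat_lit 303) (.e (nat_lit 73774) (nat_lit 26) (.e (nat_lit 778340) (nat_lit 9) .nil)))))) (.g (nat_lit 0) .nil .nil))) 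
(.lf (nat_lit 7385) (.g (nat_lit 1214) (.e (nat_lit 311) (nat_lit 23) (.e (nat_lit 352277) (nat_lit 11) (.e (nat_lit 426009) (nat_lit 0) (.e (nat_lit 7593) (nat_lit 407) (.e (nat_lit 73774) (nat_lit 26) (.e (nat_lit 778340) (nat_lit 9) .nil)))))) (.g (nat_lit 0) .nil .nil))))) (.nd (nat_lit 3) (.nd (nat_lit 4) 
(.lf (nat_lit 7365) (.g (nat_lit 1011) (.e (nat_lit 311) (nat_lit 23) (.e (nat_lit 352272) (nat_lit 10) (.e (nat_lit 417795) (nat_lit 0) (.e (nat_lit 5413) (nat_lit 303) (.e (nat_lit 73774) (nat_lit 26) (.e (nat_lit 778334) (nat_lit 9) .nil)))))) (.g (nat_lit 6) .nil .nil))) 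
(.lf (nat_lit 7381) (.g (nat_lit 325) (.e (nat_lit 311) (nat_lit 23) (.e (nat_lit 352276) (nat_lit 11) (.e (nat_lit 425990) (nat_lit 0) (.e (nat_lit 7592) (nat_lit 407) (.e (nat_lit 73774) (nat_lit 26) (.e (nat_lit 778340) (nat_lit 9) .nil)))))) (.g (nat_lit 0) .nil .nil)))) (.nd (nat_lit 4) 
(.lf (nat_lit 7373) (.g (nat_lit 1051) (.e (nat_lit 311) (nat_lit 23) (.e (nat_lit 352272) (nat_lit 10) (.e (nat_lit 417796) (nat_lit 0) (.e (nat_lit 5413) (nat_lit 303) (.e (nat_lit 73774) (nat_lit 26) (.e (nat_lit 778337) (nat_lit 9) .nil)))))) (.g (nat_lit 6) .nil .nil))) 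
(.lf (nat_lit 7389) (.g (nat_lit 1144) (.e (nat_lit 311) (nat_lit 23) (.e (nat_lit 352277) (nat_lit 11) (.e (nat_lit 426010) (nat_lit 0) (.e (nat_lit 7591) (nat_lit 407) (.e (nat_lit 73774) (nat_lit 26) (.e (nat_lit 778340) (nat_lit 9) .nil)))))) (.g (nat_lit 4) .nil .nil)))))) (.nd (nat_lit 2) (.nd (nat_lit 3) (.nd (nat_lit 4) 
(.lf (nat_lit 7363) (.g (nat_lit 1391) (.e (nat_lit 311) (nat_lit 23) (.e (nat_lit 352272) (nat_lit 10) (.e (nat_lit 417795) (nat_lit 0) (.e (nat_lit 5412) (nat_lit 303) (.e (nat_lit 73774) (nat_lit 26) (.e (nat_lit 778334) (nat_lit 9) .nil)))))) (.g (nat_lit 0) .nil .nil))) 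
(.lf (nat_lit 7379) (.g (nat_lit 636) (.e (nat_lit 311) (nat_lit 23) (.e (nat_lit 352276) (nat_lit 11) (.e (nat_lit 425989) (nat_lit 0) (.e (nat_lit 7592) (nat_lit 407) (.e (nat_lit 73774) (nat_lit 26) (.e (nat_lit 778339) (nat_lit 9) .nil)))))) (.g (nat_lit 0) .nil .nil)))) (.nd (nat_lit 4) 
(.lf (nat_lit 7371) (.g (nat_lit 1065) (.e (nat_lit 311) (nat_lit 23) (.e (nat_lit 352272) (nat_lit 10) (.e (nat_lit 417796) (nat_lit 0) (.e (nat_lit 5412) (nat_lit 303) (.e (nat_lit 73774) (nat_lit 26) (.e (nat_lit 778340) (nat_lit 9) .nil)))))) (.g (nat_lit 0) .nil .nil))) 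
(.lf (nat_lit 7387) (.g (nat_lit 1128) (.e (nat_lit 311) (nat_lit 23) (.e (nat_lit 352277) (nat_lit 11) (.e (nat_lit 426010) (nat_lit 0) (.e (nat_lit 7591) (nat_lit 407) (.e (nat_lit 73774) (nat_lit 26) .nil))))) .nil)))) (.nd (nat_lit 3) (.nd (nat_lit 4) 
(.lf (nat_lit 7367) (.g (nat_lit 1025) (.e (nat_lit 311) (nat_lit 23) (.e (nat_lit 352272) (nat_lit 10) (.e (nat_lit 417795) (nat_lit 0) (.e (nat_lit 5413) (nat_lit 303) (.e (nat_lit 73774) (nat_lit 26) (.e (nat_lit 778339) (nat_lit 9) .nil)))))) (.g (nat_lit 6) .nil .nil))) 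
(.lf (nat_lit 7383) (.g (nat_lit 1028) (.e (nat_lit 311) (nat_lit 23) (.e (nat_lit 352277) (nat_lit 11) (.e (nat_lit 426009) (nat_lit 0) (.e (nat_lit 7591) (nat_lit 407) (.e (nat_lit 81664) (nat_lit 26) (.e (nat_lit 778334) (nat_lit 9) .nil)))))) (.g (nat_lit 4) .nil .nil)))) (.nd (nat_lit 4) 
(.lf (nat_lit 7375) (.g (nat_lit 669) (.e (nat_lit 311) (nat_lit 23) (.e (nat_lit 352276) (nat_lit 11) (.e (nat_lit 425984) (nat_lit 0) (.e (nat_lit 7592) (nat_lit 407) (.e (nat_lit 73774) (nat_lit 26) (.e (nat_lit 778334) (nat_lit 9) .nil)))))) (.g (nat_lit 0) .nil .nil))) 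
(.lf (nat_lit 7391) (.g (nat_lit 1378) (.e (nat_lit 311) (nat_lit 23) (.e (nat_lit 352277) (nat_lit 11) (.e (nat_lit 426010) (nat_lit 0) (.e (nat_lit 7593) (nat_lit 407) (.e (nat_lit 73774) (nat_lit 26) (.e (nat_lit 778340) (nat_lit 9) .nil)))))) (.g (nat_lit 0) .nil .nil))))))))

noncomputable def tv102 : DT := (.nd (nat_lit 0) (.nd (nat_lit 1) (.nd (nat_lit 2) (.nd (nat_lit 3) (.nd (nat_lit 4) 
(.lf (nat_lit 7392) (.g (nat_lit 1261) (.e (nat_lit 311) (nat_lit 23) (.e (nat_lit 352277) (nat_lit 11) (.e (nat_lit 426010) (nat_lit 0) (.e (nat_lit 7593) (nat_lit 407) (.e (nat_lit 81664) (nat_lit 26) (.e (nat_lit 778334) (nat_lit 9) .nil)))))) (.g (nat_lit 4) .nil .nil))) 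
(.lf (nat_lit 7408) (.g (nat_lit 1744) (.e (nat_lit 311) (nat_lit 23) (.e (nat_lit 352277) (nat_lit 11) (.e (nat_lit 426342) (nat_lit 14) (.e (nat_lit 491560) (nat_lit 10) (.e (nat_lit 344178) (nat_lit 44) (.e (nat_lit 778334) (nat_lit 9) .nil)))))) (.g (nat_lit 4) .nil .nil)))) (.nd (nat_lit 4) 
(.lf (nat_lit 7400) (.g (nat_lit 2043) (.e (nat_lit 311) (nat_lit 23) (.e (nat_lit 352277) (nat_lit 11) (.e (nat_lit 426012) (nat_lit 0) (.e (nat_lit 7593) (nat_lit 407) (.e (nat_lit 73774) (nat_lit 26) (.e (nat_lit 778334) (nat_lit 9) .nil)))))) (.g (nat_lit 0) .nil .nil))) 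
(.lf (nat_lit 7416) (.g (nat_lit 2110) (.e (nat_lit 311) (nat_lit 23) (.e (nat_lit 352277) (nat_lit 11) (.e (nat_lit 426344) (nat_lit 14) (.e (nat_lit 491560) (nat_lit 10) (.e (nat_lit 344178) (nat_lit 44) (.e (nat_lit 778340) (nat_lit 9) .nil)))))) (.g (nat_lit 0) .nil .nil))))) (.nd (nat_lit 3) (.nd (nat_lit 4) 
(.lf (nat_lit 7396) (.g (nat_lit 2496) (.e (nat_lit 311) (nat_lit 23) (.e (nat_lit 352277) (nat_lit 11) (.e (nat_lit 426011) (nat_lit 0) (.e (nat_lit 7593) (nat_lit 407) (.e (nat_lit 73774) (nat_lit 26) (.e (nat_lit 778339) (nat_lit 9) .nil)))))) (.g (nat_lit 0) .nil .nil))) 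
(.lf (nat_lit 7412) (.g (nat_lit 2043) (.e (nat_lit 311) (nat_lit 23) (.e (nat_lit 352277) (nat_lit 11) (.e (nat_lit 426343) (nat_lit 14) (.e (nat_lit 491558) (nat_lit 10) (.e (nat_lit 352000) (nat_lit 44) .nil))))) .nil))) (.nd (nat_lit 4) 
(.lf (nat_lit 7404) (.g (nat_lit 647) (.e (nat_lit 311) (nat_lit 23) (.e (nat_lit 352277) (nat_lit 11) (.e (nat_lit 426341) (nat_lit 14) .nil))) .nil)) 
(.lf (nat_lit 7420) (.g (nat_lit 1483) (.e (nat_lit 312) (nat_lit 23) (.e (nat_lit 352257) (nat_lit 0) (.e (nat_lit 7081) (nat_lit 378) (.e (nat_lit 57898) (nat_lit 275) (.e (nat_lit 73775) (nat_lit 26) (.e (nat_lit 778361) (nat_lit 9) .nil)))))) (.g (nat_lit 0) .nil .nil)))))) (.nd (nat_lit 2) (.nd (nat_lit 3) (.nd (nat_lit 4) 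
(.lf (nat_lit 7394) (.g (nat_lit 2113) (.e (nat_lit 311) (nat_lit 23) (.e (nat_lit 352277) (nat_lit 11) (.e (nat_lit 426011) (nat_lit 0) (.e (nat_lit 7591) (nat_lit 407) (.e (nat_lit 73774) (nat_lit 26) (.e (nat_lit 778340) (nat_lit 9) .nil)))))) (.g (nat_lit 0) .nil .nil))) 
(.lf (nat_lit 7410) (.g (nat_lit 1788) (.e (nat_lit 311) (nat_lit 23) (.e (nat_lit 352277) (nat_lit 11) (.e (nat_lit 426342) (nat_lit 14) (.e (nat_lit 491560) (nat_lit 10) (.e (nat_lit 352000) (nat_lit 44) (.e (nat_lit 778334) (nat_lit 9) .nil)))))) (.g (nat_lit 4) .nil .nil)))) (.nd (nat_lit 4) 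
(.lf (nat_lit 7402) (.g (nat_lit 659) (.e (nat_lit 311) (nat_lit 23) (.e (nat_lit 352277) (nat_lit 11) (.e (nat_lit 426306) (nat_lit 12) .nil))) .nil)) 
(.lf (nat_lit 7418) (.g (nat_lit 1039) (.e (nat_lit 312) (nat_lit 23) (.e (nat_lit 352257) (nat_lit 0) (.e (nat_lit 7077) (nat_lit 378) (.e (nat_lit 57898) (nat_lit 275) (.e (nat_lit 73775) (nat_lit 26) (.e (nat_lit 778359) (nat_lit 9) .nil)))))) (.g (nat_lit 0) .nil .nil))))) (.nd (nat_lit 3) (.nd (nat_lit 4) 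
(.lf (nat_lit 7398) (.g (nat_lit 1637) (.e (nat_lit 311) (nat_lit 23) (.e (nat_lit 352277) (nat_lit 11) (.e (nat_lit 426012) (nat_lit 0) (.e (nat_lit 7591) (nat_lit 407) (.e (nat_lit 73774) (nat_lit 26) (.e (nat_lit 778337) (nat_lit 9) .nil)))))) (.g (nat_lit 5) .nil .nil))) 
(.lf (nat_lit 7414) (.g (nat_lit 1560) (.e (nat_lit 311) (nat_lit 23) (.e (nat_lit 352277) (nat_lit 11) (.e (nat_lit 426344) (nat_lit 14) (.e (nat_lit 491558) (nat_lit 10) (.e (nat_lit 352000) (nat_lit 44) .nil))))) .nil))) (.nd (nat_lit 4) 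
(.lf (nat_lit 7406) (.g (nat_lit 1311) (.e (nat_lit 311) (nat_lit 23) (.e (nat_lit 352277) (nat_lit 11) (.e (nat_lit 426342) (nat_lit 14) (.e (nat_lit 491558) (nat_lit 10) (.e (nat_lit 352000) (nat_lit 44) (.e (nat_lit 778337) (nat_lit 9) .nil)))))) (.g (nat_lit 4) .nil .nil))) 
(.lf (nat_lit 7422) (.g (nat_lit 970) (.e (nat_lit 312) (nat_lit 23) (.e (nat_lit 352258) (nat_lit 0) (.e (nat_lit 7086) (nat_lit 379) (.e (nat_lit 123214) (nat_lit 275) (.e (nat_lit 73775) (nat_lit 26) (.e (nat_lit 778359) (nat_lit 9) .nil)))))) (.g (nat_lit 0) .nil .nil))))))) (.nd (nat_lit 1) (.nd (nat_lit 2) (.nd (nat_lit 3) (.nd (nat_lit 4) 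
(.lf (nat_lit 7393) (.g (nat_lit 2095) (.e (nat_lit 311) (nat_lit 23) (.e (nat_lit 352277) (nat_lit 11) (.e (nat_lit 426011) (nat_lit 0) (.e (nat_lit 7591) (nat_lit 407) (.e (nat_lit 73774) (nat_lit 26) (.e (nat_lit 778337) (nat_lit 9) .nil)))))) (.g (nat_lit 4) .nil .nil))) 
(.lf (nat_lit 7409) (.g (nat_lit 1676) (.e (nat_lit 311) (nat_lit 23) (.e (nat_lit 352277) (nat_lit 11) (.e (nat_lit 426342) (nat_lit 14) (.e (nat_lit 491560) (nat_lit 10) (.e (nat_lit 352000) (nat_lit 44) .nil))))) .nil))) (.nd (nat_lit 4) 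
(.lf (nat_lit 7401) (.g (nat_lit 1793) (.e (nat_lit 311) (nat_lit 23) (.e (nat_lit 352277) (nat_lit 11) (.e (nat_lit 426012) (nat_lit 0) (.e (nat_lit 7593) (nat_lit 407) (.e (nat_lit 73774) (nat_lit 26) (.e (nat_lit 778340) (nat_lit 9) .nil)))))) (.g (nat_lit 0) .nil .nil))) 
(.lf (nat_lit 7417) (.g (nat_lit 1717) (.e (nat_lit 311) (nat_lit 23) (.e (nat_lit 352277) (nat_lit 11) (.e (nat_lit 426344) (nat_lit 14) (.e (nat_lit 491560) (nat_lit 10) (.e (nat_lit 352000) (nat_lit 44) .nil))))) .nil)))) (.nd (nat_lit 3) (.nd (nat_lit 4) 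
(.lf (nat_lit 7397) (.g (nat_lit 2233) (.e (nat_lit 311) (nat_lit 23) (.e (nat_lit 352277) (nat_lit 11) (.e (nat_lit 426011) (nat_lit 0) (.e (nat_lit 7593) (nat_lit 407) (.e (nat_lit 73774) (nat_lit 26) (.e (nat_lit 778340) (nat_lit 9) .nil)))))) (.g (nat_lit 0) .nil .nil))) 
(.lf (nat_lit 7413) (.g (nat_lit 1978) (.e (nat_lit 311) (nat_lit 23) (.e (nat_lit 352277) (nat_lit 11) (.e (nat_lit 426343) (nat_lit 14) (.e (nat_lit 491560) (nat_lit 10) (.e (nat_lit 352000) (nat_lit 44) .nil))))) .nil))) (.nd (nat_lit 4) 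
(.lf (nat_lit 7405) (.g (nat_lit 1310) (.e (nat_lit 311) (nat_lit 23) (.e (nat_lit 352277) (nat_lit 11) (.e (nat_lit 426342) (nat_lit 14) (.e (nat_lit 491558) (nat_lit 10) (.e (nat_lit 352000) (nat_lit 44) .nil))))) .nil)) 
(.lf (nat_lit 7421) (.g (nat_lit 2054) (.e (nat_lit 312) (nat_lit 23) (.e (nat_lit 352257) (nat_lit 0) (.e (nat_lit 7081) (nat_lit 378) (.e (nat_lit 57898) (nat_lit 275) (.e (nat_lit 73775) (nat_lit 26) (.e (nat_lit 778362) (nat_lit 9) .nil)))))) (.g (nat_lit 0) .nil .nil)))))) (.nd (nat_lit 2) (.nd (nat_lit 3) (.nd (nat_lit 4) 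
(.lf (nat_lit 7395) (.g (nat_lit 2479) (.e (nat_lit 311) (nat_lit 23) (.e (nat_lit 352277) (nat_lit 11) (.e (nat_lit 426011) (nat_lit 0) (.e (nat_lit 7593) (nat_lit 407) (.e (nat_lit 73774) (nat_lit 26) (.e (nat_lit 778334) (nat_lit 9) .nil)))))) (.g (nat_lit 0) .nil .nil))) 
(.lf (nat_lit 7411) (.g (nat_lit 457) (.e (nat_lit 311) (nat_lit 23) (.e (nat_lit 352277) (nat_lit 11) (.e (nat_lit 426343) (nat_lit 14) .nil))) .nil))) (.nd (nat_lit 4) 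
(.lf (nat_lit 7403) (.g (nat_lit 327) (.e (nat_lit 311) (nat_lit 23) (.e (nat_lit 352277) (nat_lit 11) (.e (nat_lit 426308) (nat_lit 12) .nil))) .nil)) 
(.lf (nat_lit 7419) (.g (nat_lit 1041) (.e (nat_lit 312) (nat_lit 23) (.e (nat_lit 352257) (nat_lit 0) (.e (nat_lit 7081) (nat_lit 378) (.e (nat_lit 57898) (nat_lit 275) (.e (nat_lit 73775) (nat_lit 26) (.e (nat_lit 778359) (nat_lit 9) .nil)))))) (.g (nat_lit 0) .nil .nil))))) (.nd (nat_lit 3) (.nd (nat_lit 4) 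
(.lf (nat_lit 7399) (.g (nat_lit 1630) (.e (nat_lit 311) (nat_lit 23) (.e (nat_lit 352277) (nat_lit 11) (.e (nat_lit 426012) (nat_lit 0) (.e (nat_lit 7591) (nat_lit 407) (.e (nat_lit 73774) (nat_lit 26) (.e (nat_lit 778340) (nat_lit 9) .nil)))))) (.g (nat_lit 0) .nil .nil))) 
(.lf (nat_lit 7415) (.g (nat_lit 1573) (.e (nat_lit 311) (nat_lit 23) (.e (nat_lit 352277) (nat_lit 11) (.e (nat_lit 426344) (nat_lit 14) (.e (nat_lit 491558) (nat_lit 10) (.e (nat_lit 352000) (nat_lit 44) (.e (nat_lit 778339) (nat_lit 9) .nil)))))) (.g (nat_lit 4) .nil .nil)))) (.nd (nat_lit 4) 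
(.lf (nat_lit 7407) (.g (nat_lit 1713) (.e (nat_lit 311) (nat_lit 23) (.e (nat_lit 352277) (nat_lit 11) (.e (nat_lit 426342) (nat_lit 14) (.e (nat_lit 491560) (nat_lit 10) (.e (nat_lit 344178) (nat_lit 44) .nil))))) .nil)) 
(.lf (nat_lit 7423) (.g (nat_lit 1028) (.e (nat_lit 312) (nat_lit 23) (.e (nat_lit 352258) (nat_lit 0) (.e (nat_lit 7088) (nat_lit 379) (.e (nat_lit 123214) (nat_lit 275) (.e (nat_lit 73775) (nat_lit 26) (.e (nat_lit 778359) (nat_lit 9) .nil)))))) (.g (nat_lit 0) .nil .nil))))))))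

noncomputable def tv103 : DT := (.nd (nat_lit 0) (.nd (nat_lit 1) (.nd (nat_lit 2) (.nd (nat_lit 3) (.nd (nat_lit 4) (.nd (nat_lit 5) 
(.lf (nat_lit 7424) (.g (nat_lit 1465) (.e (nat_lit 312) (nat_lit 23) (.e (nat_lit 352258) (nat_lit 0) (.e (nat_lit 7088) (nat_lit 379) (.e (nat_lit 123214) (nat_lit 275) (.e (nat_lit 73775) (nat_lit 26) (.e (nat_lit 778361) (nat_lit 9) .nil)))))) (.g (nat_lit 0) .nil .nil))) 
(.lf (nat_lit 7456) (.g (nat_lit 1068) (.e (nat_lit 312) (nat_lit 23) (.e (nat_lit 352272) (nat_lit 10) (.e (nat_lit 417796) (nat_lit 0) (.e (nat_lit 5409) (nat_lit 303) (.e (nat_lit 73776) (nat_lit 26) .nil))))) .nil))) (.nd (nat_lit 5) 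
(.lf (nat_lit 7440) (.g (nat_lit 2273) (.e (nat_lit 312) (nat_lit 23) (.e (nat_lit 352267) (nat_lit 0) (.e (nat_lit 3304) (nat_lit 202) (.e (nat_lit 573485) (nat_lit 13) (.e (nat_lit 65619) (nat_lit 10) (.e (nat_lit 344129) (nat_lit 26) (.e (nat_lit 557066) (nat_lit 9) .nil))))))) (.g (nat_lit 4) .nil .nil))) 
(.lf (nat_lit 7472) (.g (nat_lit 2609) (.e (nat_lit 312) (nat_lit 23) (.e (nat_lit 352277) (nat_lit 11) (.e (nat_lit 426011) (nat_lit 0) (.e (nat_lit 7591) (nat_lit 407) (.e (nat_lit 73775) (nat_lit 26) (.e (nat_lit 778360) (nat_lit 9) .nil)))))) (.g (nat_lit 6) .nil .nil))))) (.nd (nat_lit 4) (.nd (nat_lit 5) 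
(.lf (nat_lit 7432) (.g (nat_lit 2931) (.e (nat_lit 312) (nat_lit 23) (.e (nat_lit 352262) (nat_lit 0) (.e (nat_lit 3305) (nat_lit 202) (.e (nat_lit 573482) (nat_lit 13) (.e (nat_lit 65619) (nat_lit 10) (.e (nat_lit 344129) (nat_lit 26) (.e (nat_lit 557065) (nat_lit 9) .nil))))))) (.g (nat_lit 5) .nil .nil))) 
(.lf (nat_lit 7464) (.g (nat_lit 1902) (.e (nat_lit 312) (nat_lit 23) (.e (nat_lit 352277) (nat_lit 11) (.e (nat_lit 426009) (nat_lit 0) (.e (nat_lit 7591) (nat_lit 407) (.e (nat_lit 73775) (nat_lit 26) (.e (nat_lit 778360) (nat_lit 9) .nil)))))) (.g (nat_lit 5) .nil .nil)))) (.nd (nat_lit 5) 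
(.lf (nat_lit 7448) (.g (nat_lit 1438) (.e (nat_lit 312) (nat_lit 23) (.e (nat_lit 352272) (nat_lit 10) (.e (nat_lit 417793) (nat_lit 0) (.e (nat_lit 5412) (nat_lit 303) (.e (nat_lit 73775) (nat_lit 26) (.e (nat_lit 778359) (nat_lit 9) .nil)))))) (.g (nat_lit 0) .nil .nil))) 
(.lf (nat_lit 7480) (.g (nat_lit 2686) (.e (nat_lit 312) (nat_lit 23) (.e (nat_lit 352277) (nat_lit 11) (.e (nat_lit 426012) (nat_lit 0) (.e (nat_lit 7593) (nat_lit 407) (.e (nat_lit 73775) (nat_lit 26) (.e (nat_lit 778359) (nat_lit 9) .nil)))))) (.g (nat_lit 0) .nil .nil)))))) (.nd (nat_lit 3) (.nd (nat_lit 4) (.nd (nat_lit 5) 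
(.lf (nat_lit 7428) (.g (nat_lit 2972) (.e (nat_lit 312) (nat_lit 23) (.e (nat_lit 352262) (nat_lit 0) (.e (nat_lit 3304) (nat_lit 202) (.e (nat_lit 573482) (nat_lit 13) (.e (nat_lit 65619) (nat_lit 10) (.e (nat_lit 344129) (nat_lit 26) (.e (nat_lit 557066) (nat_lit 9) .nil))))))) (.g (nat_lit 5) .nil .nil))) 
(.lf (nat_lit 7460) (.g (nat_lit 2188) (.e (nat_lit 312) (nat_lit 23) (.e (nat_lit 352272) (nat_lit 10) (.e (nat_lit 417796) (nat_lit 0) (.e (nat_lit 5412) (nat_lit 303) (.e (nat_lit 73775) (nat_lit 26) (.e (nat_lit 778361) (nat_lit 9) .nil)))))) (.g (nat_lit 0) .nil .nil)))) (.nd (nat_lit 5) 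
(.lf (nat_lit 7444) (.g (nat_lit 2384) (.e (nat_lit 312) (nat_lit 23) (.e (nat_lit 352267) (nat_lit 0) (.e (nat_lit 3305) (nat_lit 202) (.e (nat_lit 573484) (nat_lit 13) (.e (nat_lit 65617) (nat_lit 10) (.e (nat_lit 344133) (nat_lit 26) (.e (nat_lit 557065) (nat_lit 9) .nil))))))) (.g (nat_lit 4) .nil .nil))) 
(.lf (nat_lit 7476) (.g (nat_lit 1416) (.e (nat_lit 312) (nat_lit 23) (.e (nat_lit 352277) (nat_lit 11) (.e (nat_lit 426012) (nat_lit 0) (.e (nat_lit 7587) (nat_lit 406) (.e (nat_lit 65580) (nat_lit 6) .nil))))) .nil)))) (.nd (nat_lit 4) (.nd (nat_lit 5) 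
(.lf (nat_lit 7436) (.g (nat_lit 3732) (.e (nat_lit 312) (nat_lit 23) (.e (nat_lit 352262) (nat_lit 0) (.e (nat_lit 3305) (nat_lit 202) (.e (nat_lit 573484) (nat_lit 13) (.e (nat_lit 65617) (nat_lit 10) (.e (nat_lit 344133) (nat_lit 26) (.e (nat_lit 557065) (nat_lit 9) .nil))))))) (.g (nat_lit 6) .nil .nil))) 
(.lf (nat_lit 7468) (.g (nat_lit 1336) (.e (nat_lit 312) (nat_lit 23) (.e (nat_lit 352277) (nat_lit 11) (.e (nat_lit 426010) (nat_lit 0) (.e (nat_lit 7591) (nat_lit 407) (.e (nat_lit 73776) (nat_lit 26) (.e (nat_lit 778359) (nat_lit 9) .nil)))))) (.g (nat_lit 4) .nil .nil)))) (.nd (nat_lit 5) 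
(.lf (nat_lit 7452) (.g (nat_lit 1813) (.e (nat_lit 312) (nat_lit 23) (.e (nat_lit 352272) (nat_lit 10) (.e (nat_lit 417795) (nat_lit 0) (.e (nat_lit 5412) (nat_lit 303) (.e (nat_lit 73775) (nat_lit 26) (.e (nat_lit 778359) (nat_lit 9) .nil)))))) (.g (nat_lit 0) .nil .nil))) 
(.lf (nat_lit 7484) (.g (nat_lit 2440) (.e (nat_lit 312) (nat_lit 23) (.e (nat_lit 352277) (nat_lit 11) (.e (nat_lit 426341) (nat_lit 14) (.e (nat_lit 491556) (nat_lit 9) (.e (nat_lit 336051) (nat_lit 6) (.e (nat_lit 147466) (nat_lit 9) .nil)))))) (.g (nat_lit 4) .nil .nil))))))) (.nd (nat_lit 2) (.nd (nat_lit 3) (.nd (nat_lit 4) (.nd (nat_lit 5) 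
(.lf (nat_lit 7426) (.g (nat_lit 1483) (.e (nat_lit 312) (nat_lit 23) (.e (nat_lit 352258) (nat_lit 0) (.e (nat_lit 7089) (nat_lit 379) (.e (nat_lit 123214) (nat_lit 275) (.e (nat_lit 73775) (nat_lit 26) (.e (nat_lit 778361) (nat_lit 9) .nil)))))) (.g (nat_lit 0) .nil .nil))) 
(.lf (nat_lit 7458) (.g (nat_lit 1352) (.e (nat_lit 312) (nat_lit 23) (.e (nat_lit 352272) (nat_lit 10) (.e (nat_lit 417796) (nat_lit 0) (.e (nat_lit 5410) (nat_lit 303) (.e (nat_lit 73776) (nat_lit 26) (.e (nat_lit 778359) (nat_lit 9) .nil)))))) (.g (nat_lit 5) .nil .nil)))) (.nd (nat_lit 5) 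
(.lf (nat_lit 7442) (.g (nat_lit 2273) (.e (nat_lit 312) (nat_lit 23) (.e (nat_lit 352267) (nat_lit 0) (.e (nat_lit 3305) (nat_lit 202) (.e (nat_lit 573484) (nat_lit 13) (.e (nat_lit 65617) (nat_lit 10) (.e (nat_lit 344130) (nat_lit 26) (.e (nat_lit 557065) (nat_lit 9) .nil))))))) (.g (nat_lit 4) .nil .nil))) 
(.lf (nat_lit 7474) (.g (nat_lit 2291) (.e (nat_lit 312) (nat_lit 23) (.e (nat_lit 352277) (nat_lit 11) (.e (nat_lit 426011) (nat_lit 0) (.e (nat_lit 7591) (nat_lit 407) (.e (nat_lit 73776) (nat_lit 26) (.e (nat_lit 778359) (nat_lit 9) .nil)))))) (.g (nat_lit 5) .nil .nil))))) (.nd (nat_lit 4) (.nd (nat_lit 5) 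
(.lf (nat_lit 7434) (.g (nat_lit 3621) (.e (nat_lit 312) (nat_lit 23) (.e (nat_lit 352262) (nat_lit 0) (.e (nat_lit 3305) (nat_lit 202) (.e (nat_lit 573484) (nat_lit 13) (.e (nat_lit 65617) (nat_lit 10) (.e (nat_lit 344130) (nat_lit 26) (.e (nat_lit 557065) (nat_lit 9) .nil))))))) (.g (nat_lit 6) .nil .nil))) 
(.lf (nat_lit 7466) (.g (nat_lit 2123) (.e (nat_lit 312) (nat_lit 23) (.e (nat_lit 352277) (nat_lit 11) (.e (nat_lit 426010) (nat_lit 0) (.e (nat_lit 7591) (nat_lit 407) (.e (nat_lit 73775) (nat_lit 26) (.e (nat_lit 778359) (nat_lit 9) .nil)))))) (.g (nat_lit 6) .nil .nil)))) (.nd (nat_lit 5) 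
(.lf (nat_lit 7450) (.g (nat_lit 764) (.e (nat_lit 312) (nat_lit 23) (.e (nat_lit 352272) (nat_lit 10) (.e (nat_lit 417795) (nat_lit 0) (.e (nat_lit 5409) (nat_lit 303) (.e (nat_lit 73775) (nat_lit 26) .nil))))) .nil)) 
(.lf (nat_lit 7482) (.g (nat_lit 885) (.e (nat_lit 312) (nat_lit 23) (.e (nat_lit 352277) (nat_lit 11) (.e (nat_lit 426035) (nat_lit 0) .nil))) .nil))))) (.nd (nat_lit 3) (.nd (nat_lit 4) (.nd (nat_lit 5) 
(.lf (nat_lit 7430) (.g (nat_lit 3125) (.e (nat_lit 312) (nat_lit 23) (.e (nat_lit 352262) (nat_lit 0) (.e (nat_lit 3304) (nat_lit 202) (.e (nat_lit 573485) (nat_lit 13) (.e (nat_lit 65619) (nat_lit 10) (.e (nat_lit 344129) (nat_lit 26) (.e (nat_lit 557066) (nat_lit 9) .nil))))))) (.g (nat_lit 6) .nil .nil))) 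
(.lf (nat_lit 7462) (.g (nat_lit 882) (.e (nat_lit 312) (nat_lit 23) (.e (nat_lit 352277) (nat_lit 11) (.e (nat_lit 426003) (nat_lit 0) .nil))) .nil))) (.nd (nat_lit 5) 
(.lf (nat_lit 7446) (.g (nat_lit 1438) (.e (nat_lit 312) (nat_lit 23) (.e (nat_lit 352271) (nat_lit 9) (.e (nat_lit 409602) (nat_lit 0) (.e (nat_lit 5411) (nat_lit 303) (.e (nat_lit 73775) (nat_lit 26) (.e (nat_lit 778359) (nat_lit 9) .nil)))))) (.g (nat_lit 0) .nil .nil))) 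
(.lf (nat_lit 7478) (.g (nat_lit 1481) (.e (nat_lit 312) (nat_lit 23) (.e (nat_lit 352277) (nat_lit 11) (.e (nat_lit 426012) (nat_lit 0) (.e (nat_lit 7591) (nat_lit 407) (.e (nat_lit 73776) (nat_lit 26) .nil))))) .nil)))) (.nd (nat_lit 4) (.nd (nat_lit 5) 
(.lf (nat_lit 7438) (.g (nat_lit 2652) (.e (nat_lit 312) (nat_lit 23) (.e (nat_lit 352265) (nat_lit 0) (.e (nat_lit 3305) (nat_lit 202) (.e (nat_lit 573485) (nat_lit 13) (.e (nat_lit 65619) (nat_lit 10) (.e (nat_lit 344129) (nat_lit 26) (.e (nat_lit 557066) (nat_lit 9) .nil))))))) (.g (nat_lit 5) .nil .nil))) 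
(.lf (nat_lit 7470) (.g (nat_lit 1020) (.e (nat_lit 312) (nat_lit 23) (.e (nat_lit 352277) (nat_lit 11) (.e (nat_lit 426011) (nat_lit 0) (.e (nat_lit 7587) (nat_lit 406) .nil)))) .nil))) (.nd (nat_lit 5) 
(.lf (nat_lit 7454) (.g (nat_lit 2457) (.e (nat_lit 312) (nat_lit 23) (.e (nat_lit 352272) (nat_lit 10) (.e (nat_lit 417795) (nat_lit 0) (.e (nat_lit 5413) (nat_lit 303) (.e (nat_lit 73775) (nat_lit 26) (.e (nat_lit 778362) (nat_lit 9) .nil)))))) (.g (nat_lit 0) .nil .nil))) 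
(.lf (nat_lit 7486) (.g (nat_lit 1781) (.e (nat_lit 312) (nat_lit 23) (.e (nat_lit 352277) (nat_lit 11) (.e (nat_lit 426342) (nat_lit 14) (.e (nat_lit 491560) (nat_lit 10) (.e (nat_lit 344179) (nat_lit 44) (.e (nat_lit 778359) (nat_lit 9) .nil)))))) (.g (nat_lit 4) .nil .nil)))))))) (.nd (nat_lit 1) (.nd (nat_lit 2) (.nd (nat_lit 3) (.nd (nat_lit 4) (.nd (nat_lit 5) 
(.lf (nat_lit 7425) (.g (nat_lit 1043) (.e (nat_lit 312) (nat_lit 23) (.e (nat_lit 352258) (nat_lit 0) (.e (nat_lit 7089) (nat_lit 379) (.e (nat_lit 123214) (nat_lit 275) (.e (nat_lit 73775) (nat_lit 26) (.e (nat_lit 778359) (nat_lit 9) .nil)))))) (.g (nat_lit 0) .nil .nil))) 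
(.lf (nat_lit 7457) (.g (nat_lit 619) (.e (nat_lit 312) (nat_lit 23) (.e (nat_lit 352272) (nat_lit 10) (.e (nat_lit 417796) (nat_lit 0) (.e (nat_lit 5410) (nat_lit 303) .nil)))) .nil))) (.nd (nat_lit 5) 
(.lf (nat_lit 7441) (.g (nat_lit 4047) (.e (nat_lit 312) (nat_lit 23) (.e (nat_lit 352267) (nat_lit 0) (.e (nat_lit 3305) (nat_lit 202) (.e (nat_lit 573484) (nat_lit 13) (.e (nat_lit 65610) (nat_lit 10) (.e (nat_lit 344129) (nat_lit 26) (.e (nat_lit 557066) (nat_lit 9) .nil))))))) (.g (nat_lit 6) .nil .nil))) 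
(.lf (nat_lit 7473) (.g (nat_lit 1839) (.e (nat_lit 312) (nat_lit 23) (.e (nat_lit 352277) (nat_lit 11) (.e (nat_lit 426011) (nat_lit 0) (.e (nat_lit 7591) (nat_lit 407) (.e (nat_lit 73776) (nat_lit 26) .nil))))) .nil)))) (.nd (nat_lit 4) (.nd (nat_lit 5) 
(.lf (nat_lit 7433) (.g (nat_lit 4133) (.e (nat_lit 312) (nat_lit 23) (.e (nat_lit 352262) (nat_lit 0) (.e (nat_lit 3305) (nat_lit 202) (.e (nat_lit 573482) (nat_lit 13) (.e (nat_lit 65619) (nat_lit 10) (.e (nat_lit 344129) (nat_lit 26) (.e (nat_lit 557066) (nat_lit 9) .nil))))))) (.g (nat_lit 7) .nil .nil))) 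
(.lf (nat_lit 7465) (.g (nat_lit 2121) (.e (nat_lit 312) (nat_lit 23) (.e (nat_lit 352277) (nat_lit 11) (.e (nat_lit 426009) (nat_lit 0) (.e (nat_lit 7593) (nat_lit 407) (.e (nat_lit 73775) (nat_lit 26) (.e (nat_lit 778359) (nat_lit 9) .nil)))))) (.g (nat_lit 0) .nil .nil)))) (.nd (nat_lit 5) 
(.lf (nat_lit 7449) (.g (nat_lit 1444) (.e (nat_lit 312) (nat_lit 23) (.e (nat_lit 352272) (nat_lit 10) (.e (nat_lit 417794) (nat_lit 0) (.e (nat_lit 5412) (nat_lit 303) (.e (nat_lit 73775) (nat_lit 26) (.e (nat_lit 778359) (nat_lit 9) .nil)))))) (.g (nat_lit 0) .nil .nil))) 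
(.lf (nat_lit 7481) (.g (nat_lit 882) (.e (nat_lit 312) (nat_lit 23) (.e (nat_lit 352277) (nat_lit 11) (.e (nat_lit 426016) (nat_lit 0) .nil))) .nil))))) (.nd (nat_lit 3) (.nd (nat_lit 4) (.nd (nat_lit 5) 
(.lf (nat_lit 7429) (.g (nat_lit 1850) (.e (nat_lit 312) (nat_lit 23) (.e (nat_lit 352262) (nat_lit 0) (.e (nat_lit 3304) (nat_lit 202) (.e (nat_lit 573485) (nat_lit 13) (.e (nat_lit 65619) (nat_lit 10) (.e (nat_lit 344129) (nat_lit 26) (.e (nat_lit 557065) (nat_lit 9) .nil))))))) (.g (nat_lit 4) .nil .nil))) 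
(.lf (nat_lit 7461) (.g (nat_lit 2600) (.e (nat_lit 312) (nat_lit 23) (.e (nat_lit 352272) (nat_lit 10) (.e (nat_lit 417796) (nat_lit 0) (.e (nat_lit 5413) (nat_lit 303) (.e (nat_lit 73775) (nat_lit 26) (.e (nat_lit 778362) (nat_lit 9) .nil)))))) (.g (nat_lit 0) .nil .nil)))) (.nd (nat_lit 5) 
(.lf (nat_lit 7445) (.g (nat_lit 3737) (.e (nat_lit 312) (nat_lit 23) (.e (nat_lit 352267) (nat_lit 0) (.e (nat_lit 3305) (nat_lit 202) (.e (nat_lit 573485) (nat_lit 13) (.e (nat_lit 65619) (nat_lit 10) (.e (nat_lit 344129) (nat_lit 26) (.e (nat_lit 557066) (nat_lit 9) .nil))))))) (.g (nat_lit 6) .nil .nil))) 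
(.lf (nat_lit 7477) (.g (nat_lit 2429) (.e (nat_lit 312) (nat_lit 23) (.e (nat_lit 352277) (nat_lit 11) (.e (nat_lit 426012) (nat_lit 0) (.e (nat_lit 7591) (nat_lit 407) (.e (nat_lit 73775) (nat_lit 26) (.e (nat_lit 778360) (nat_lit 9) .nil)))))) (.g (nat_lit 6) .nil .nil))))) (.nd (nat_lit 4) (.nd (nat_lit 5) 
(.lf (nat_lit 7437) (.g (nat_lit 2958) (.e (nat_lit 312) (nat_lit 23) (.e (nat_lit 352265) (nat_lit 0) (.e (nat_lit 3305) (nat_lit 202) (.e (nat_lit 573484) (nat_lit 13) (.e (nat_lit 65610) (nat_lit 10) (.e (nat_lit 344129) (nat_lit 26) (.e (nat_lit 557066) (nat_lit 9) .nil))))))) (.g (nat_lit 5) .nil .nil))) 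
(.lf (nat_lit 7469) (.g (nat_lit 2272) (.e (nat_lit 312) (nat_lit 23) (.e (nat_lit 352277) (nat_lit 11) (.e (nat_lit 426010) (nat_lit 0) (.e (nat_lit 7593) (nat_lit 407) (.e (nat_lit 73775) (nat_lit 26) (.e (nat_lit 778359) (nat_lit 9) .nil)))))) (.g (nat_lit 0) .nil .nil)))) (.nd (nat_lit 5) 
(.lf (nat_lit 7453) (.g (nat_lit 2254) (.e (nat_lit 312) (nat_lit 23) (.e (nat_lit 352272) (nat_lit 10) (.e (nat_lit 417795) (nat_lit 0) (.e (nat_lit 5412) (nat_lit 303) (.e (nat_lit 73775) (nat_lit 26) (.e (nat_lit 778361) (nat_lit 9) .nil)))))) (.g (nat_lit 0) .nil .nil))) 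
(.lf (nat_lit 7485) (.g (nat_lit 1514) (.e (nat_lit 312) (nat_lit 23) (.e (nat_lit 352277) (nat_lit 11) (.e (nat_lit 426341) (nat_lit 14) (.e (nat_lit 491560) (nat_lit 10) .nil)))) .nil)))))) (.nd (nat_lit 2) (.nd (nat_lit 3) (.nd (nat_lit 4) (.nd (nat_lit 5) 
(.lf (nat_lit 7427) (.g (nat_lit 3374) (.e (nat_lit 312) (nat_lit 23) (.e (nat_lit 352261) (nat_lit 0) (.e (nat_lit 3295) (nat_lit 202) (.e (nat_lit 573485) (nat_lit 13) (.e (nat_lit 65619) (nat_lit 10) (.e (nat_lit 344129) (nat_lit 26) (.e (nat_lit 557066) (nat_lit 9) .nil))))))) (.g (nat_lit 0) .nil .nil))) 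
(.lf (nat_lit 7459) (.g (nat_lit 1747) (.e (nat_lit 312) (nat_lit 23) (.e (nat_lit 352272) (nat_lit 10) (.e (nat_lit 417796) (nat_lit 0) (.e (nat_lit 5412) (nat_lit 303) (.e (nat_lit 73775) (nat_lit 26) (.e (nat_lit 778359) (nat_lit 9) .nil)))))) (.g (nat_lit 0) .nil .nil)))) (.nd (nat_lit 5) 
(.lf (nat_lit 7443) (.g (nat_lit 3737) (.e (nat_lit 312) (nat_lit 23) (.e (nat_lit 352267) (nat_lit 0) (.e (nat_lit 3305) (nat_lit 202) (.e (nat_lit 573484) (nat_lit 13) (.e (nat_lit 65617) (nat_lit 10) (.e (nat_lit 344130) (nat_lit 26) (.e (nat_lit 557066) (nat_lit 9) .nil))))))) (.g (nat_lit 6) .nil .nil))) 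
(.lf (nat_lit 7475) (.g (nat_lit 3192) (.e (nat_lit 312) (nat_lit 23) (.e (nat_lit 352277) (nat_lit 11) (.e (nat_lit 426011) (nat_lit 0) (.e (nat_lit 7593) (nat_lit 407) (.e (nat_lit 73775) (nat_lit 26) (.e (nat_lit 778359) (nat_lit 9) .nil)))))) (.g (nat_lit 0) .nil .nil))))) (.nd (nat_lit 4) (.nd (nat_lit 5) 
(.lf (nat_lit 7435) (.g (nat_lit 4519) (.e (nat_lit 312) (nat_lit 23) (.e (nat_lit 352262) (nat_lit 0) (.e (nat_lit 3305) (nat_lit 202) (.e (nat_lit 573484) (nat_lit 13) (.e (nat_lit 65617) (nat_lit 10) (.e (nat_lit 344130) (nat_lit 26) (.e (nat_lit 557066) (nat_lit 9) .nil))))))) (.g (nat_lit 0) .nil .nil))) 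
(.lf (nat_lit 7467) (.g (nat_lit 2077) (.e (nat_lit 312) (nat_lit 23) (.e (nat_lit 352277) (nat_lit 11) (.e (nat_lit 426010) (nat_lit 0) (.e (nat_lit 7591) (nat_lit 407) (.e (nat_lit 73775) (nat_lit 26) (.e (nat_lit 778360) (nat_lit 9) .nil)))))) (.g (nat_lit 5) .nil .nil)))) (.nd (nat_lit 5) 
(.lf (nat_lit 7451) (.g (nat_lit 1211) (.e (nat_lit 312) (nat_lit 23) (.e (nat_lit 352272) (nat_lit 10) (.e (nat_lit 417795) (nat_lit 0) (.e (nat_lit 5410) (nat_lit 303) (.e (nat_lit 73776) (nat_lit 26) (.e (nat_lit 778359) (nat_lit 9) .nil)))))) (.g (nat_lit 5) .nil .nil))) 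
(.lf (nat_lit 7483) (.g (nat_lit 2415) (.e (nat_lit 312) (nat_lit 23) (.e (nat_lit 352277) (nat_lit 11) (.e (nat_lit 426341) (nat_lit 14) (.e (nat_lit 491556) (nat_lit 9) (.e (nat_lit 336051) (nat_lit 6) .nil))))) .nil))))) (.nd (nat_lit 3) (.nd (nat_lit 4) (.nd (nat_lit 5) 
(.lf (nat_lit 7431) (.g (nat_lit 2831) (.e (nat_lit 312) (nat_lit 23) (.e (nat_lit 352262) (nat_lit 0) (.e (nat_lit 3305) (nat_lit 202) (.e (nat_lit 573479) (nat_lit 13) (.e (nat_lit 65619) (nat_lit 10) (.e (nat_lit 344129) (nat_lit 26) (.e (nat_lit 557066) (nat_lit 9) .nil))))))) (.g (nat_lit 5) .nil .nil))) 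
(.lf (nat_lit 7463) (.g (nat_lit 1944) (.e (nat_lit 312) (nat_lit 23) (.e (nat_lit 352277) (nat_lit 11) (.e (nat_lit 426009) (nat_lit 0) (.e (nat_lit 7591) (nat_lit 407) (.e (nat_lit 73775) (nat_lit 26) (.e (nat_lit 778359) (nat_lit 9) .nil)))))) (.g (nat_lit 6) .nil .nil)))) (.nd (nat_lit 5) 
(.lf (nat_lit 7447) (.g (nat_lit 1068) (.e (nat_lit 312) (nat_lit 23) (.e (nat_lit 352271) (nat_lit 9) (.e (nat_lit 409604) (nat_lit 0) (.e (nat_lit 5411) (nat_lit 303) (.e (nat_lit 73775) (nat_lit 26) (.e (nat_lit 778359) (nat_lit 9) .nil)))))) (.g (nat_lit 0) .nil .nil))) 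
(.lf (nat_lit 7479) (.g (nat_lit 1874) (.e (nat_lit 312) (nat_lit 23) (.e (nat_lit 352277) (nat_lit 11) (.e (nat_lit 426012) (nat_lit 0) (.e (nat_lit 7591) (nat_lit 407) (.e (nat_lit 73776) (nat_lit 26) (.e (nat_lit 778359) (nat_lit 9) .nil)))))) (.g (nat_lit 4) .nil .nil))))) (.nd (nat_lit 4) (.nd (nat_lit 5) 
(.lf (nat_lit 7439) (.g (nat_lit 2384) (.e (nat_lit 312) (nat_lit 23) (.e (nat_lit 352267) (nat_lit 0) (.e (nat_lit 3304) (nat_lit 202) (.e (nat_lit 573482) (nat_lit 13) (.e (nat_lit 65619) (nat_lit 10) (.e (nat_lit 344129) (nat_lit 26) (.e (nat_lit 557066) (nat_lit 9) .nil))))))) (.g (nat_lit 4) .nil .nil))) 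
(.lf (nat_lit 7471) (.g (nat_lit 2594) (.e (nat_lit 312) (nat_lit 23) (.e (nat_lit 352277) (nat_lit 11) (.e (nat_lit 426011) (nat_lit 0) (.e (nat_lit 7587) (nat_lit 406) (.e (nat_lit 65580) (nat_lit 6) (.e (nat_lit 147467) (nat_lit 9) .nil)))))) (.g (nat_lit 0) .nil .nil)))) (.nd (nat_lit 5) 
(.lf (nat_lit 7455) (.g (nat_lit 1081) (.e (nat_lit 312) (nat_lit 23) (.e (nat_lit 352272) (nat_lit 10) (.e (nat_lit 417796) (nat_lit 0) (.e (nat_lit 5409) (nat_lit 303) (.e (nat_lit 73775) (nat_lit 26) .nil))))) .nil)) 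
(.lf (nat_lit 7487) (.g (nat_lit 1753) (.e (nat_lit 312) (nat_lit 23) (.e (nat_lit 352277) (nat_lit 11) (.e (nat_lit 426342) (nat_lit 14) (.e (nat_lit 491560) (nat_lit 10) (.e (nat_lit 344179) (nat_lit 44) (.e (nat_lit 778360) (nat_lit 9) .nil)))))) (.g (nat_lit 4) .nil .nil)))))))))

noncomputable def tv104 : DT := (.nd (nat_lit 0) (.nd (nat_lit 1) (.nd (nat_lit 2) (.nd (nat_lit 3) (.nd (nat_lit 4) (.nd (nat_lit 5) 
(.lf (nat_lit 7488) (.g (nat_lit 2431) (.e (nat_lit 312) (nat_lit 23) (.e (nat_lit 352277) (nat_lit 11) (.e (nat_lit 426342) (nat_lit 14) (.e (nat_lit 491560) (nat_lit 10) (.e (nat_lit 344179) (nat_lit 44) (.e (nat_lit 778362) (nat_lit 9) .nil)))))) (.g (nat_lit 5) .nil .nil))) 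
(.lf (nat_lit 7520) (.g (nat_lit 1287) (.e (nat_lit 313) (nat_lit 23) (.e (nat_lit 352307) (nat_lit 21) (.e (nat_lit 57654) (nat_lit 152) (.e (nat_lit 1216) (nat_lit 90) .nil)))) .nil))) (.nd (nat_lit 5) 
(.lf (nat_lit 7504) (.g (nat_lit 2839) (.e (nat_lit 312) (nat_lit 23) (.e (nat_lit 352277) (nat_lit 11) (.e (nat_lit 426500) (nat_lit 27) (.e (nat_lit 335995) (nat_lit 1) (.e (nat_lit 57848) (nat_lit 252) (.e (nat_lit 57372) (nat_lit 2) (.e (nat_lit 90128) (nat_lit 9) .nil))))))) (.g (nat_lit 0) .nil .nil))) 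
(.lf (nat_lit 7536) (.g (nat_lit 1757) (.e (nat_lit 313) (nat_lit 23) (.e (nat_lit 352313) (nat_lit 23) (.e (nat_lit 98384) (nat_lit 32) (.e (nat_lit 475214) (nat_lit 42) (.e (nat_lit 720939) (nat_lit 22) .nil))))) .nil)))) (.nd (nat_lit 4) (.nd (nat_lit 5) 
(.lf (nat_lit 7496) (.g (nat_lit 2796) (.e (nat_lit 312) (nat_lit 23) (.e (nat_lit 352277) (nat_lit 11) (.e (nat_lit 426500) (nat_lit 27) (.e (nat_lit 335988) (nat_lit 1) (.e (nat_lit 57854) (nat_lit 252) (.e (nat_lit 57373) (nat_lit 2) (.e (nat_lit 90128) (nat_lit 9) .nil))))))) (.g (nat_lit 0) .nil .nil))) 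
(.lf (nat_lit 7528) (.g (nat_lit 916) (.e (nat_lit 313) (nat_lit 23) (.e (nat_lit 352312) (nat_lit 22) (.e (nat_lit 90133) (nat_lit 9) (.e (nat_lit 2397) (nat_lit 157) .nil)))) .nil))) (.nd (nat_lit 5) 
(.lf (nat_lit 7512) (.g (nat_lit 3095) (.e (nat_lit 312) (nat_lit 23) (.e (nat_lit 352277) (nat_lit 11) (.e (nat_lit 426500) (nat_lit 27) (.e (nat_lit 335996) (nat_lit 1) (.e (nat_lit 57851) (nat_lit 252) (.e (nat_lit 57371) (nat_lit 2) (.e (nat_lit 90128) (nat_lit 9) .nil))))))) (.g (nat_lit 0) .nil .nil))) 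
(.lf (nat_lit 7544) (.g (nat_lit 435) (.e (nat_lit 313) (nat_lit 23) (.e (nat_lit 352315) (nat_lit 23) (.e (nat_lit 98356) (nat_lit 26) .nil))) .nil))))) (.nd (nat_lit 3) (.nd (nat_lit 4) (.nd (nat_lit 5) 
(.lf (nat_lit 7492) (.g (nat_lit 2726) (.e (nat_lit 312) (nat_lit 23) (.e (nat_lit 352277) (nat_lit 11) (.e (nat_lit 426343) (nat_lit 14) (.e (nat_lit 491560) (nat_lit 10) (.e (nat_lit 344179) (nat_lit 44) (.e (nat_lit 778360) (nat_lit 9) .nil)))))) (.g (nat_lit 5) .nil .nil))) 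
(.lf (nat_lit 7524) (.g (nat_lit 1414) (.e (nat_lit 313) (nat_lit 23) (.e (nat_lit 352309) (nat_lit 21) (.e (nat_lit 57655) (nat_lit 152) (.e (nat_lit 1217) (nat_lit 90) .nil)))) .nil))) (.nd (nat_lit 5) 
(.lf (nat_lit 7508) (.g (nat_lit 3429) (.e (nat_lit 312) (nat_lit 23) (.e (nat_lit 352277) (nat_lit 11) (.e (nat_lit 426500) (nat_lit 27) (.e (nat_lit 335995) (nat_lit 1) (.e (nat_lit 57848) (nat_lit 252) (.e (nat_lit 57375) (nat_lit 2) (.e (nat_lit 90127) (nat_lit 9) .nil))))))) (.g (nat_lit 0) .nil .nil))) 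
(.lf (nat_lit 7540) (.g (nat_lit 3036) (.e (nat_lit 313) (nat_lit 23) (.e (nat_lit 352315) (nat_lit 23) (.e (nat_lit 98319) (nat_lit 17) (.e (nat_lit 7593) (nat_lit 407) (.e (nat_lit 73754) (nat_lit 8) (.e (nat_lit 557070) (nat_lit 9) .nil)))))) (.g (nat_lit 6) .nil .nil))))) (.nd (nat_lit 4) (.nd (nat_lit 5) 
(.lf (nat_lit 7500) (.g (nat_lit 3453) (.e (nat_lit 312) (nat_lit 23) (.e (nat_lit 352277) (nat_lit 11) (.e (nat_lit 426500) (nat_lit 27) (.e (nat_lit 335995) (nat_lit 1) (.e (nat_lit 57848) (nat_lit 252) (.e (nat_lit 57372) (nat_lit 2) (.e (nat_lit 90121) (nat_lit 9) .nil))))))) (.g (nat_lit 0) .nil .nil))) 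
(.lf (nat_lit 7532) (.g (nat_lit 990) (.e (nat_lit 313) (nat_lit 23) (.e (nat_lit 352313) (nat_lit 23) (.e (nat_lit 98356) (nat_lit 26) (.e (nat_lit 426361) (nat_lit 15) (.e (nat_lit 2195) (nat_lit 144) .nil))))) .nil))) (.nd (nat_lit 5) 
(.lf (nat_lit 7516) (.g (nat_lit 1116) (.e (nat_lit 313) (nat_lit 23) (.e (nat_lit 352287) (nat_lit 20) (.e (nat_lit 2375) (nat_lit 154) (.e (nat_lit 802828) (nat_lit 13) (.e (nat_lit 352324) (nat_lit 26) (.e (nat_lit 147472) (nat_lit 9) .nil)))))) (.g (nat_lit 6) .nil .nil))) 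
(.lf (nat_lit 7548) (.g (nat_lit 976) (.e (nat_lit 313) (nat_lit 23) (.e (nat_lit 352315) (nat_lit 23) (.e (nat_lit 98363) (nat_lit 26) (.e (nat_lit 426447) (nat_lit 20) .nil)))) .nil)))))) (.nd (nat_lit 2) (.nd (nat_lit 3) (.nd (nat_lit 4) (.nd (nat_lit 5) 
(.lf (nat_lit 7490) (.g (nat_lit 2317) (.e (nat_lit 312) (nat_lit 23) (.e (nat_lit 352277) (nat_lit 11) (.e (nat_lit 426343) (nat_lit 14) (.e (nat_lit 491558) (nat_lit 10) (.e (nat_lit 344180) (nat_lit 44) .nil))))) .nil)) 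
(.lf (nat_lit 7522) (.g (nat_lit 722) (.e (nat_lit 313) (nat_lit 23) (.e (nat_lit 352307) (nat_lit 21) (.e (nat_lit 57682) (nat_lit 155) .nil))) .nil))) (.nd (nat_lit 5) 
(.lf (nat_lit 7506) (.g (nat_lit 4099) (.e (nat_lit 312) (nat_lit 23) (.e (nat_lit 352277) (nat_lit 11) (.e (nat_lit 426500) (nat_lit 27) (.e (nat_lit 335995) (nat_lit 1) (.e (nat_lit 57848) (nat_lit 252) (.e (nat_lit 57375) (nat_lit 2) (.e (nat_lit 90122) (nat_lit 9) .nil))))))) (.g (nat_lit 7) .nil .nil))) 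
(.lf (nat_lit 7538) (.g (nat_lit 1184) (.e (nat_lit 313) (nat_lit 23) (.e (nat_lit 352315) (nat_lit 23) (.e (nat_lit 106240) (nat_lit 16) (.e (nat_lit 401454) (nat_lit 12) (.e (nat_lit 483072) (nat_lit 0) .nil))))) (.g (nat_lit 4) .nil .nil))))) (.nd (nat_lit 4) (.nd (nat_lit 5) 
(.lf (nat_lit 7498) (.g (nat_lit 1749) (.e (nat_lit 312) (nat_lit 23) (.e (nat_lit 352277) (nat_lit 11) (.e (nat_lit 426500) (nat_lit 27) (.e (nat_lit 335995) (nat_lit 1) (.e (nat_lit 57847) (nat_lit 252) (.e (nat_lit 57375) (nat_lit 2) (.e (nat_lit 90123) (nat_lit 9) .nil))))))) (.g (nat_lit 4) .nil .nil))) 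
(.lf (nat_lit 7530) (.g (nat_lit 375) (.e (nat_lit 313) (nat_lit 23) (.e (nat_lit 352313) (nat_lit 23) (.e (nat_lit 98354) (nat_lit 26) .nil))) .nil))) (.nd (nat_lit 5) 
(.lf (nat_lit 7514) (.g (nat_lit 3282) (.e (nat_lit 312) (nat_lit 23) (.e (nat_lit 352277) (nat_lit 11) (.e (nat_lit 426500) (nat_lit 27) (.e (nat_lit 335996) (nat_lit 1) (.e (nat_lit 57854) (nat_lit 252) (.e (nat_lit 57373) (nat_lit 2) (.e (nat_lit 90128) (nat_lit 9) .nil))))))) (.g (nat_lit 0) .nil .nil))) 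
(.lf (nat_lit 7546) (.g (nat_lit 1557) (.e (nat_lit 313) (nat_lit 23) (.e (nat_lit 352315) (nat_lit 23) (.e (nat_lit 98356) (nat_lit 26) (.e (nat_lit 426446) (nat_lit 20) (.e (nat_lit 114715) (nat_lit 22) (.e (nat_lit 90133) (nat_lit 9) .nil)))))) (.g (nat_lit 5) .nil .nil)))))) (.nd (nat_lit 3) (.nd (nat_lit 4) (.nd (nat_lit 5) 
(.lf (nat_lit 7494) (.g (nat_lit 2590) (.e (nat_lit 312) (nat_lit 23) (.e (nat_lit 352277) (nat_lit 11) (.e (nat_lit 426500) (nat_lit 27) (.e (nat_lit 335986) (nat_lit 1) (.e (nat_lit 57847) (nat_lit 252) (.e (nat_lit 57375) (nat_lit 2) (.e (nat_lit 90128) (nat_lit 9) .nil))))))) (.g (nat_lit 0) .nil .nil))) 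
(.lf (nat_lit 7526) (.g (nat_lit 752) (.e (nat_lit 313) (nat_lit 23) (.e (nat_lit 352309) (nat_lit 21) (.e (nat_lit 57857) (nat_lit 254) .nil))) .nil))) (.nd (nat_lit 5) 
(.lf (nat_lit 7510) (.g (nat_lit 4011) (.e (nat_lit 312) (nat_lit 23) (.e (nat_lit 352277) (nat_lit 11) (.e (nat_lit 426500) (nat_lit 27) (.e (nat_lit 335995) (nat_lit 1) (.e (nat_lit 57849) (nat_lit 252) (.e (nat_lit 57372) (nat_lit 2) (.e (nat_lit 90128) (nat_lit 9) .nil))))))) (.g (nat_lit 7) .nil .nil))) 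
(.lf (nat_lit 7542) (.g (nat_lit 1922) (.e (nat_lit 313) (nat_lit 23) (.e (nat_lit 352315) (nat_lit 23) (.e (nat_lit 98354) (nat_lit 26) (.e (nat_lit 426448) (nat_lit 20) (.e (nat_lit 114715) (nat_lit 22) .nil))))) .nil)))) (.nd (nat_lit 4) (.nd (nat_lit 5) 
(.lf (nat_lit 7502) (.g (nat_lit 3356) (.e (nat_lit 312) (nat_lit 23) (.e (nat_lit 352277) (nat_lit 11) (.e (nat_lit 426500) (nat_lit 27) (.e (nat_lit 335995) (nat_lit 1) (.e (nat_lit 57848) (nat_lit 252) (.e (nat_lit 57372) (nat_lit 2) (.e (nat_lit 90123) (nat_lit 9) .nil))))))) (.g (nat_lit 6) .nil .nil))) 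
(.lf (nat_lit 7534) (.g (nat_lit 1393) (.e (nat_lit 313) (nat_lit 23) (.e (nat_lit 352313) (nat_lit 23) (.e (nat_lit 98384) (nat_lit 32) (.e (nat_lit 475212) (nat_lit 42) (.e (nat_lit 720938) (nat_lit 22) .nil))))) .nil))) (.nd (nat_lit 5) 
(.lf (nat_lit 7518) (.g (nat_lit 2327) (.e (nat_lit 313) (nat_lit 23) (.e (nat_lit 352297) (nat_lit 20) (.e (nat_lit 1840) (nat_lit 123) (.e (nat_lit 548874) (nat_lit 5) (.e (nat_lit 1598) (nat_lit 111) (.e (nat_lit 360473) (nat_lit 8) (.e (nat_lit 557070) (nat_lit 9) .nil))))))) (.g (nat_lit 7) .nil .nil))) 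
(.lf (nat_lit 7550) (.g (nat_lit 1508) (.e (nat_lit 313) (nat_lit 23) (.e (nat_lit 352315) (nat_lit 23) (.e (nat_lit 98384) (nat_lit 32) (.e (nat_lit 475214) (nat_lit 42) (.e (nat_lit 720938) (nat_lit 22) .nil))))) .nil))))))) (.nd (nat_lit 1) (.nd (nat_lit 2) (.nd (nat_lit 3) (.nd (nat_lit 4) (.nd (nat_lit 5) 
(.lf (nat_lit 7489) (.g (nat_lit 3676) (.e (nat_lit 312) (nat_lit 23) (.e (nat_lit 352277) (nat_lit 11) (.e (nat_lit 426343) (nat_lit 14) (.e (nat_lit 491556) (nat_lit 9) (.e (nat_lit 336051) (nat_lit 6) (.e (nat_lit 147466) (nat_lit 9) .nil)))))) (.g (nat_lit 0) .nil .nil))) 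
(.lf (nat_lit 7521) (.g (nat_lit 1237) (.e (nat_lit 313) (nat_lit 23) (.e (nat_lit 352307) (nat_lit 21) (.e (nat_lit 57654) (nat_lit 152) (.e (nat_lit 1217) (nat_lit 90) .nil)))) .nil))) (.nd (nat_lit 5) 
(.lf (nat_lit 7505) (.g (nat_lit 3196) (.e (nat_lit 312) (nat_lit 23) (.e (nat_lit 352277) (nat_lit 11) (.e (nat_lit 426500) (nat_lit 27) (.e (nat_lit 335995) (nat_lit 1) (.e (nat_lit 57848) (nat_lit 252) (.e (nat_lit 57375) (nat_lit 2) (.e (nat_lit 90121) (nat_lit 9) .nil))))))) (.g (nat_lit 6) .nil .nil))) 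
(.lf (nat_lit 7537) (.g (nat_lit 2359) (.e (nat_lit 313) (nat_lit 23) (.e (nat_lit 352313) (nat_lit 23) (.e (nat_lit 98389) (nat_lit 33) (.e (nat_lit 491560) (nat_lit 10) (.e (nat_lit 344131) (nat_lit 26) (.e (nat_lit 557070) (nat_lit 9) .nil)))))) (.g (nat_lit 6) .nil .nil))))) (.nd (nat_lit 4) (.nd (nat_lit 5) 
(.lf (nat_lit 7497) (.g (nat_lit 3078) (.e (nat_lit 312) (nat_lit 23) (.e (nat_lit 352277) (nat_lit 11) (.e (nat_lit 426500) (nat_lit 27) (.e (nat_lit 335995) (nat_lit 1) (.e (nat_lit 57847) (nat_lit 252) (.e (nat_lit 57372) (nat_lit 2) (.e (nat_lit 90128) (nat_lit 9) .nil))))))) (.g (nat_lit 0) .nil .nil))) 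
(.lf (nat_lit 7529) (.g (nat_lit 906) (.e (nat_lit 313) (nat_lit 23) (.e (nat_lit 352312) (nat_lit 22) (.e (nat_lit 90133) (nat_lit 9) (.e (nat_lit 2400) (nat_lit 157) .nil)))) .nil))) (.nd (nat_lit 5) 
(.lf (nat_lit 7513) (.g (nat_lit 3066) (.e (nat_lit 312) (nat_lit 23) (.e (nat_lit 352277) (nat_lit 11) (.e (nat_lit 426500) (nat_lit 27) (.e (nat_lit 335996) (nat_lit 1) (.e (nat_lit 57854) (nat_lit 252) (.e (nat_lit 57371) (nat_lit 2) (.e (nat_lit 90128) (nat_lit 9) .nil))))))) (.g (nat_lit 0) .nil .nil))) 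
(.lf (nat_lit 7545) (.g (nat_lit 1686) (.e (nat_lit 313) (nat_lit 23) (.e (nat_lit 352315) (nat_lit 23) (.e (nat_lit 98356) (nat_lit 26) (.e (nat_lit 426361) (nat_lit 15) (.e (nat_lit 2203) (nat_lit 144) .nil))))) .nil))))) (.nd (nat_lit 3) (.nd (nat_lit 4) (.nd (nat_lit 5) 
(.lf (nat_lit 7493) (.g (nat_lit 2787) (.e (nat_lit 312) (nat_lit 23) (.e (nat_lit 352277) (nat_lit 11) (.e (nat_lit 426500) (nat_lit 27) (.e (nat_lit 335986) (nat_lit 1) (.e (nat_lit 57847) (nat_lit 252) (.e (nat_lit 57372) (nat_lit 2) (.e (nat_lit 90128) (nat_lit 9) .nil))))))) (.g (nat_lit 0) .nil .nil))) 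
(.lf (nat_lit 7525) (.g (nat_lit 1745) (.e (nat_lit 313) (nat_lit 23) (.e (nat_lit 352309) (nat_lit 21) (.e (nat_lit 57683) (nat_lit 155) (.e (nat_lit 122916) (nat_lit 14) .nil)))) .nil))) (.nd (nat_lit 5) 
(.lf (nat_lit 7509) (.g (nat_lit 2803) (.e (nat_lit 312) (nat_lit 23) (.e (nat_lit 352277) (nat_lit 11) (.e (nat_lit 426500) (nat_lit 27) (.e (nat_lit 335995) (nat_lit 1) (.e (nat_lit 57848) (nat_lit 252) (.e (nat_lit 57375) (nat_lit 2) (.e (nat_lit 90128) (nat_lit 9) .nil))))))) (.g (nat_lit 7) .nil .nil))) 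
(.lf (nat_lit 7541) (.g (nat_lit 3196) (.e (nat_lit 313) (nat_lit 23) (.e (nat_lit 352315) (nat_lit 23) (.e (nat_lit 98320) (nat_lit 17) (.e (nat_lit 7593) (nat_lit 407) (.e (nat_lit 73754) (nat_lit 8) (.e (nat_lit 557070) (nat_lit 9) .nil)))))) (.g (nat_lit 6) .nil .nil))))) (.nd (nat_lit 4) (.nd (nat_lit 5) 
(.lf (nat_lit 7501) (.g (nat_lit 3923) (.e (nat_lit 312) (nat_lit 23) (.e (nat_lit 352277) (nat_lit 11) (.e (nat_lit 426500) (nat_lit 27) (.e (nat_lit 335995) (nat_lit 1) (.e (nat_lit 57848) (nat_lit 252) (.e (nat_lit 57372) (nat_lit 2) (.e (nat_lit 90122) (nat_lit 9) .nil))))))) (.g (nat_lit 0) .nil .nil))) 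
(.lf (nat_lit 7533) (.g (nat_lit 862) (.e (nat_lit 313) (nat_lit 23) (.e (nat_lit 352313) (nat_lit 23) (.e (nat_lit 98356) (nat_lit 26) (.e (nat_lit 433920) (nat_lit 20) .nil)))) .nil))) (.nd (nat_lit 5) 
(.lf (nat_lit 7517) (.g (nat_lit 3246) (.e (nat_lit 313) (nat_lit 23) (.e (nat_lit 352297) (nat_lit 20) (.e (nat_lit 1840) (nat_lit 123) (.e (nat_lit 548874) (nat_lit 5) (.e (nat_lit 1586) (nat_lit 111) (.e (nat_lit 360474) (nat_lit 8) (.e (nat_lit 557070) (nat_lit 9) .nil))))))) (.g (nat_lit 7) .nil .nil))) 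
(.lf (nat_lit 7549) (.g (nat_lit 1164) (.e (nat_lit 313) (nat_lit 23) (.e (nat_lit 352315) (nat_lit 23) (.e (nat_lit 98363) (nat_lit 26) (.e (nat_lit 433920) (nat_lit 20) .nil)))) .nil)))))) (.nd (nat_lit 2) (.nd (nat_lit 3) (.nd (nat_lit 4) (.nd (nat_lit 5) 
(.lf (nat_lit 7491) (.g (nat_lit 2754) (.e (nat_lit 312) (nat_lit 23) (.e (nat_lit 352277) (nat_lit 11) (.e (nat_lit 426343) (nat_lit 14) (.e (nat_lit 491560) (nat_lit 10) (.e (nat_lit 344179) (nat_lit 44) (.e (nat_lit 778359) (nat_lit 9) .nil)))))) (.g (nat_lit 5) .nil .nil))) 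
(.lf (nat_lit 7523) (.g (nat_lit 1356) (.e (nat_lit 313) (nat_lit 23) (.e (nat_lit 352309) (nat_lit 21) (.e (nat_lit 57655) (nat_lit 152) (.e (nat_lit 1216) (nat_lit 90) .nil)))) .nil))) (.nd (nat_lit 5) 
(.lf (nat_lit 7507) (.g (nat_lit 3308) (.e (nat_lit 312) (nat_lit 23) (.e (nat_lit 352277) (nat_lit 11) (.e (nat_lit 426500) (nat_lit 27) (.e (nat_lit 335995) (nat_lit 1) (.e (nat_lit 57848) (nat_lit 252) (.e (nat_lit 57375) (nat_lit 2) (.e (nat_lit 90123) (nat_lit 9) .nil))))))) (.g (nat_lit 7) .nil .nil))) 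
(.lf (nat_lit 7539) (.g (nat_lit 2605) (.e (nat_lit 313) (nat_lit 23) (.e (nat_lit 352315) (nat_lit 23) (.e (nat_lit 98319) (nat_lit 17) (.e (nat_lit 7593) (nat_lit 407) (.e (nat_lit 73753) (nat_lit 8) (.e (nat_lit 557070) (nat_lit 9) .nil)))))) (.g (nat_lit 6) .nil .nil))))) (.nd (nat_lit 4) (.nd (nat_lit 5) 
(.lf (nat_lit 7499) (.g (nat_lit 2833) (.e (nat_lit 312) (nat_lit 23) (.e (nat_lit 352277) (nat_lit 11) (.e (nat_lit 426500) (nat_lit 27) (.e (nat_lit 335995) (nat_lit 1) (.e (nat_lit 57847) (nat_lit 252) (.e (nat_lit 57375) (nat_lit 2) (.e (nat_lit 90128) (nat_lit 9) .nil))))))) (.g (nat_lit 0) .nil .nil))) 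
(.lf (nat_lit 7531) (.g (nat_lit 831) (.e (nat_lit 313) (nat_lit 23) (.e (nat_lit 352313) (nat_lit 23) (.e (nat_lit 98356) (nat_lit 26) (.e (nat_lit 426361) (nat_lit 15) .nil)))) .nil))) (.nd (nat_lit 5) 
(.lf (nat_lit 7515) (.g (nat_lit 1551) (.e (nat_lit 313) (nat_lit 23) (.e (nat_lit 352275) (nat_lit 11) (.e (nat_lit 426011) (nat_lit 0) (.e (nat_lit 7591) (nat_lit 407) .nil)))) .nil)) 
(.lf (nat_lit 7547) (.g (nat_lit 2016) (.e (nat_lit 313) (nat_lit 23) (.e (nat_lit 352315) (nat_lit 23) (.e (nat_lit 98357) (nat_lit 26) (.e (nat_lit 426448) (nat_lit 20) (.e (nat_lit 114715) (nat_lit 22) (.e (nat_lit 90133) (nat_lit 9) .nil)))))) (.g (nat_lit 5) .nil .nil)))))) (.nd (nat_lit 3) (.nd (nat_lit 4) (.nd (nat_lit 5) 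
(.lf (nat_lit 7495) (.g (nat_lit 2477) (.e (nat_lit 312) (nat_lit 23) (.e (nat_lit 352277) (nat_lit 11) (.e (nat_lit 426500) (nat_lit 27) (.e (nat_lit 335988) (nat_lit 1) (.e (nat_lit 57854) (nat_lit 252) (.e (nat_lit 57371) (nat_lit 2) (.e (nat_lit 90128) (nat_lit 9) .nil))))))) (.g (nat_lit 0) .nil .nil))) 
(.lf (nat_lit 7527) (.g (nat_lit 728) (.e (nat_lit 313) (nat_lit 23) (.e (nat_lit 352312) (nat_lit 22) (.e (nat_lit 98048) (nat_lit 2) .nil))) .nil))) (.nd (nat_lit 5) 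
(.lf (nat_lit 7511) (.g (nat_lit 1995) (.e (nat_lit 312) (nat_lit 23) (.e (nat_lit 352277) (nat_lit 11) (.e (nat_lit 426500) (nat_lit 27) (.e (nat_lit 335996) (nat_lit 1) (.e (nat_lit 57851) (nat_lit 252) (.e (nat_lit 57371) (nat_lit 2) (.e (nat_lit 90122) (nat_lit 9) .nil))))))) (.g (nat_lit 4) .nil .nil))) 
(.lf (nat_lit 7543) (.g (nat_lit 1024) (.e (nat_lit 313) (nat_lit 23) (.e (nat_lit 352315) (nat_lit 23) (.e (nat_lit 98354) (nat_lit 26) (.e (nat_lit 433920) (nat_lit 20) .nil)))) .nil)))) (.nd (nat_lit 4) (.nd (nat_lit 5) 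
(.lf (nat_lit 7503) (.g (nat_lit 3332) (.e (nat_lit 312) (nat_lit 23) (.e (nat_lit 352277) (nat_lit 11) (.e (nat_lit 426500) (nat_lit 27) (.e (nat_lit 335995) (nat_lit 1) (.e (nat_lit 57848) (nat_lit 252) (.e (nat_lit 57372) (nat_lit 2) (.e (nat_lit 90127) (nat_lit 9) .nil))))))) (.g (nat_lit 0) .nil .nil))) 
(.lf (nat_lit 7535) (.g (nat_lit 1435) (.e (nat_lit 313) (nat_lit 23) (.e (nat_lit 352313) (nat_lit 23) (.e (nat_lit 98384) (nat_lit 32) (.e (nat_lit 475212) (nat_lit 42) (.e (nat_lit 720941) (nat_lit 22) (.e (nat_lit 90133) (nat_lit 9) .nil)))))) (.g (nat_lit 4) .nil .nil)))) (.nd (nat_lit 5) 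
(.lf (nat_lit 7519) (.g (nat_lit 3188) (.e (nat_lit 313) (nat_lit 23) (.e (nat_lit 352297) (nat_lit 20) (.e (nat_lit 1841) (nat_lit 123) (.e (nat_lit 548874) (nat_lit 5) (.e (nat_lit 1586) (nat_lit 111) (.e (nat_lit 360474) (nat_lit 8) (.e (nat_lit 557070) (nat_lit 9) .nil))))))) (.g (nat_lit 7) .nil .nil))) 
(.lf (nat_lit 7551) (.g (nat_lit 1959) (.e (nat_lit 313) (nat_lit 23) (.e (nat_lit 352315) (nat_lit 23) (.e (nat_lit 98384) (nat_lit 32) (.e (nat_lit 475214) (nat_lit 42) (.e (nat_lit 720941) (nat_lit 22) .nil))))) .nil))))))))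

noncomputable def tv105 : DT := (.nd (nat_lit 0) (.nd (nat_lit 1) (.nd (nat_lit 2) (.nd (nat_lit 3) (.nd (nat_lit 4) (.nd (nat_lit 5) 
(.lf (nat_lit 7552) (.g (nat_lit 1121) (.e (nat_lit 313) (nat_lit 23) (.e (nat_lit 352315) (nat_lit 23) (.e (nat_lit 98385) (nat_lit 32) (.e (nat_lit 475212) (nat_lit 42) (.e (nat_lit 720938) (nat_lit 22) .nil))))) .nil)) 
(.lf (nat_lit 7584) (.g (nat_lit 1857) (.e (nat_lit 314) (nat_lit 23) (.e (nat_lit 352275) (nat_lit 11) (.e (nat_lit 426012) (nat_lit 0) (.e (nat_lit 7593) (nat_lit 407) (.e (nat_lit 73775) (nat_lit 26) (.e (nat_lit 778360) (nat_lit 9) .nil)))))) (.g (nat_lit 4) .nil .nil)))) (.nd (nat_lit 5) 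
(.lf (nat_lit 7568) (.g (nat_lit 2845) (.e (nat_lit 314) (nat_lit 23) (.e (nat_lit 352273) (nat_lit 11) (.e (nat_lit 426344) (nat_lit 14) (.e (nat_lit 491560) (nat_lit 10) (.e (nat_lit 344179) (nat_lit 44) (.e (nat_lit 778362) (nat_lit 9) .nil)))))) (.g (nat_lit 5) .nil .nil))) 
(.lf (nat_lit 7600) (.g (nat_lit 2136) (.e (nat_lit 314) (nat_lit 23) (.e (nat_lit 352290) (nat_lit 20) (.e (nat_lit 2281) (nat_lit 150) (.e (nat_lit 770058) (nat_lit 5) (.e (nat_lit 1589) (nat_lit 111) (.e (nat_lit 360492) (nat_lit 22) (.e (nat_lit 778362) (nat_lit 9) .nil))))))) (.g (nat_lit 5) .nil .nil))))) (.nd (nat_lit 4) (.nd (nat_lit 5) 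
(.lf (nat_lit 7560) (.g (nat_lit 2831) (.e (nat_lit 314) (nat_lit 23) (.e (nat_lit 352267) (nat_lit 0) (.e (nat_lit 3305) (nat_lit 202) (.e (nat_lit 573484) (nat_lit 13) (.e (nat_lit 65617) (nat_lit 10) (.e (nat_lit 344127) (nat_lit 26) (.e (nat_lit 557066) (nat_lit 9) .nil))))))) (.g (nat_lit 5) .nil .nil))) 
(.lf (nat_lit 7592) (.g (nat_lit 2474) (.e (nat_lit 314) (nat_lit 23) (.e (nat_lit 352275) (nat_lit 11) (.e (nat_lit 426343) (nat_lit 14) (.e (nat_lit 491560) (nat_lit 10) (.e (nat_lit 344179) (nat_lit 44) (.e (nat_lit 778360) (nat_lit 9) .nil)))))) (.g (nat_lit 4) .nil .nil)))) (.nd (nat_lit 5) 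
(.lf (nat_lit 7576) (.g (nat_lit 2634) (.e (nat_lit 314) (nat_lit 23) (.e (nat_lit 352275) (nat_lit 11) (.e (nat_lit 426010) (nat_lit 0) (.e (nat_lit 7593) (nat_lit 407) (.e (nat_lit 73775) (nat_lit 26) (.e (nat_lit 778361) (nat_lit 9) .nil)))))) (.g (nat_lit 6) .nil .nil))) 
(.lf (nat_lit 7608) (.g (nat_lit 609) (.e (nat_lit 314) (nat_lit 23) (.e (nat_lit 352307) (nat_lit 21) (.e (nat_lit 57654) (nat_lit 152) .nil))) .nil))))) (.nd (nat_lit 3) (.nd (nat_lit 4) (.nd (nat_lit 5) 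
(.lf (nat_lit 7556) (.g (nat_lit 2018) (.e (nat_lit 313) (nat_lit 23) (.e (nat_lit 352322) (nat_lit 26) (.e (nat_lit 147496) (nat_lit 11) (.e (nat_lit 24584) (nat_lit 0) (.e (nat_lit 6113) (nat_lit 332) .nil))))) .nil)) 
(.lf (nat_lit 7588) (.g (nat_lit 2961) (.e (nat_lit 314) (nat_lit 23) (.e (nat_lit 352275) (nat_lit 11) (.e (nat_lit 426341) (nat_lit 14) (.e (nat_lit 491560) (nat_lit 10) (.e (nat_lit 344179) (nat_lit 44) (.e (nat_lit 778362) (nat_lit 9) .nil)))))) (.g (nat_lit 5) .nil .nil)))) (.nd (nat_lit 5) 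
(.lf (nat_lit 7572) (.g (nat_lit 1798) (.e (nat_lit 314) (nat_lit 23) (.e (nat_lit 352274) (nat_lit 11) (.e (nat_lit 426344) (nat_lit 14) (.e (nat_lit 491556) (nat_lit 9) (.e (nat_lit 336051) (nat_lit 6) (.e (nat_lit 147467) (nat_lit 9) .nil)))))) (.g (nat_lit 4) .nil .nil))) 
(.lf (nat_lit 7604) (.g (nat_lit 3189) (.e (nat_lit 314) (nat_lit 23) (.e (nat_lit 352297) (nat_lit 20) (.e (nat_lit 1842) (nat_lit 123) (.e (nat_lit 548889) (nat_lit 9) (.e (nat_lit 65617) (nat_lit 10) (.e (nat_lit 344130) (nat_lit 26) (.e (nat_lit 557064) (nat_lit 9) .nil))))))) (.g (nat_lit 6) .nil .nil))))) (.nd (nat_lit 4) (.nd (nat_lit 5) 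
(.lf (nat_lit 7564) (.g (nat_lit 2326) (.e (nat_lit 314) (nat_lit 23) (.e (nat_lit 352273) (nat_lit 11) (.e (nat_lit 426011) (nat_lit 0) (.e (nat_lit 7593) (nat_lit 407) (.e (nat_lit 73775) (nat_lit 26) (.e (nat_lit 778361) (nat_lit 9) .nil)))))) (.g (nat_lit 4) .nil .nil))) 
(.lf (nat_lit 7596) (.g (nat_lit 3138) (.e (nat_lit 314) (nat_lit 23) (.e (nat_lit 352275) (nat_lit 11) (.e (nat_lit 426500) (nat_lit 27) (.e (nat_lit 335995) (nat_lit 1) (.e (nat_lit 57848) (nat_lit 252) (.e (nat_lit 57375) (nat_lit 2) (.e (nat_lit 90128) (nat_lit 9) .nil))))))) (.g (nat_lit 0) .nil .nil)))) (.nd (nat_lit 5) 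
(.lf (nat_lit 7580) (.g (nat_lit 1981) (.e (nat_lit 314) (nat_lit 23) (.e (nat_lit 352275) (nat_lit 11) (.e (nat_lit 426011) (nat_lit 0) (.e (nat_lit 7591) (nat_lit 407) (.e (nat_lit 73776) (nat_lit 26) (.e (nat_lit 778361) (nat_lit 9) .nil)))))) (.g (nat_lit 4) .nil .nil))) 
(.lf (nat_lit 7612) (.g (nat_lit 3076) (.e (nat_lit 314) (nat_lit 23) (.e (nat_lit 352307) (nat_lit 21) (.e (nat_lit 57681) (nat_lit 155) (.e (nat_lit 122917) (nat_lit 15) (.e (nat_lit 360491) (nat_lit 22) (.e (nat_lit 778362) (nat_lit 9) .nil)))))) (.g (nat_lit 5) .nil .nil))))))) (.nd (nat_lit 2) (.nd (nat_lit 3) (.nd (nat_lit 4) (.nd (nat_lit 5) 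
(.lf (nat_lit 7554) (.g (nat_lit 527) (.e (nat_lit 313) (nat_lit 23) (.e (nat_lit 352319) (nat_lit 25) (.e (nat_lit 139276) (nat_lit 2) (.e (nat_lit 16461) (nat_lit 12) (.e (nat_lit 483072) (nat_lit 0) .nil))))) .nil)) 
(.lf (nat_lit 7586) (.g (nat_lit 1867) (.e (nat_lit 314) (nat_lit 23) (.e (nat_lit 352275) (nat_lit 11) (.e (nat_lit 426338) (nat_lit 14) (.e (nat_lit 491556) (nat_lit 9) (.e (nat_lit 336051) (nat_lit 6) .nil))))) .nil))) (.nd (nat_lit 5) 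
(.lf (nat_lit 7570) (.g (nat_lit 2609) (.e (nat_lit 314) (nat_lit 23) (.e (nat_lit 352274) (nat_lit 11) (.e (nat_lit 426011) (nat_lit 0) (.e (nat_lit 7591) (nat_lit 407) (.e (nat_lit 73776) (nat_lit 26) (.e (nat_lit 778362) (nat_lit 9) .nil)))))) (.g (nat_lit 5) .nil .nil))) 
(.lf (nat_lit 7602) (.g (nat_lit 2777) (.e (nat_lit 314) (nat_lit 23) (.e (nat_lit 352290) (nat_lit 20) (.e (nat_lit 2281) (nat_lit 150) (.e (nat_lit 770074) (nat_lit 10) (.e (nat_lit 81965) (nat_lit 26) (.e (nat_lit 147463) (nat_lit 9) .nil)))))) (.g (nat_lit 6) .nil .nil))))) (.nd (nat_lit 4) (.nd (nat_lit 5) 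
(.lf (nat_lit 7562) (.g (nat_lit 3125) (.e (nat_lit 314) (nat_lit 23) (.e (nat_lit 352267) (nat_lit 0) (.e (nat_lit 3305) (nat_lit 202) (.e (nat_lit 573484) (nat_lit 13) (.e (nat_lit 65617) (nat_lit 10) (.e (nat_lit 344130) (nat_lit 26) (.e (nat_lit 557065) (nat_lit 9) .nil))))))) (.g (nat_lit 6) .nil .nil))) 
(.lf (nat_lit 7594) (.g (nat_lit 2255) (.e (nat_lit 314) (nat_lit 23) (.e (nat_lit 352275) (nat_lit 11) (.e (nat_lit 426344) (nat_lit 14) (.e (nat_lit 491560) (nat_lit 10) (.e (nat_lit 344179) (nat_lit 44) (.e (nat_lit 778360) (nat_lit 9) .nil)))))) (.g (nat_lit 4) .nil .nil)))) (.nd (nat_lit 5) 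
(.lf (nat_lit 7578) (.g (nat_lit 1986) (.e (nat_lit 314) (nat_lit 23) (.e (nat_lit 352275) (nat_lit 11) (.e (nat_lit 426011) (nat_lit 0) (.e (nat_lit 7591) (nat_lit 407) (.e (nat_lit 73775) (nat_lit 26) (.e (nat_lit 778360) (nat_lit 9) .nil)))))) (.g (nat_lit 4) .nil .nil))) 
(.lf (nat_lit 7610) (.g (nat_lit 587) (.e (nat_lit 314) (nat_lit 23) (.e (nat_lit 352307) (nat_lit 21) (.e (nat_lit 65280) (nat_lit 152) .nil))) .nil))))) (.nd (nat_lit 3) (.nd (nat_lit 4) (.nd (nat_lit 5) 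
(.lf (nat_lit 7558) (.g (nat_lit 1974) (.e (nat_lit 313) (nat_lit 23) (.e (nat_lit 352324) (nat_lit 26) (.e (nat_lit 147496) (nat_lit 11) (.e (nat_lit 24617) (nat_lit 7) (.e (nat_lit 327424) (nat_lit 3) (.e (nat_lit 40976) (nat_lit 9) .nil)))))) (.g (nat_lit 4) .nil .nil))) 
(.lf (nat_lit 7590) (.g (nat_lit 4433) (.e (nat_lit 314) (nat_lit 23) (.e (nat_lit 352275) (nat_lit 11) (.e (nat_lit 426343) (nat_lit 14) (.e (nat_lit 491556) (nat_lit 9) (.e (nat_lit 336051) (nat_lit 6) (.e (nat_lit 147466) (nat_lit 9) .nil)))))) (.g (nat_lit 0) .nil .nil)))) (.nd (nat_lit 5) 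
(.lf (nat_lit 7574) (.g (nat_lit 1344) (.e (nat_lit 314) (nat_lit 23) (.e (nat_lit 352275) (nat_lit 11) (.e (nat_lit 426009) (nat_lit 0) (.e (nat_lit 7593) (nat_lit 407) (.e (nat_lit 73775) (nat_lit 26) (.e (nat_lit 778360) (nat_lit 9) .nil)))))) (.g (nat_lit 4) .nil .nil))) 
(.lf (nat_lit 7606) (.g (nat_lit 2961) (.e (nat_lit 314) (nat_lit 23) (.e (nat_lit 352297) (nat_lit 20) (.e (nat_lit 2281) (nat_lit 150) (.e (nat_lit 770074) (nat_lit 10) (.e (nat_lit 81965) (nat_lit 26) (.e (nat_lit 147463) (nat_lit 9) .nil)))))) (.g (nat_lit 0) .nil .nil))))) (.nd (nat_lit 4) (.nd (nat_lit 5) 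
(.lf (nat_lit 7566) (.g (nat_lit 2287) (.e (nat_lit 314) (nat_lit 23) (.e (nat_lit 352273) (nat_lit 11) (.e (nat_lit 426343) (nat_lit 14) (.e (nat_lit 491560) (nat_lit 10) (.e (nat_lit 344179) (nat_lit 44) .nil))))) .nil)) 
(.lf (nat_lit 7598) (.g (nat_lit 2908) (.e (nat_lit 314) (nat_lit 23) (.e (nat_lit 352290) (nat_lit 20) (.e (nat_lit 1842) (nat_lit 123) (.e (nat_lit 548889) (nat_lit 9) (.e (nat_lit 65617) (nat_lit 10) (.e (nat_lit 344130) (nat_lit 26) (.e (nat_lit 557064) (nat_lit 9) .nil))))))) (.g (nat_lit 6) .nil .nil)))) (.nd (nat_lit 5) 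
(.lf (nat_lit 7582) (.g (nat_lit 3600) (.e (nat_lit 314) (nat_lit 23) (.e (nat_lit 352275) (nat_lit 11) (.e (nat_lit 426011) (nat_lit 0) (.e (nat_lit 7593) (nat_lit 407) (.e (nat_lit 73775) (nat_lit 26) (.e (nat_lit 778361) (nat_lit 9) .nil)))))) (.g (nat_lit 6) .nil .nil))) 
(.lf (nat_lit 7614) (.g (nat_lit 1966) (.e (nat_lit 314) (nat_lit 23) (.e (nat_lit 352307) (nat_lit 21) (.e (nat_lit 57682) (nat_lit 155) (.e (nat_lit 122916) (nat_lit 14) (.e (nat_lit 352324) (nat_lit 26) (.e (nat_lit 147467) (nat_lit 9) .nil)))))) (.g (nat_lit 4) .nil .nil)))))))) (.nd (nat_lit 1) (.nd (nat_lit 2) (.nd (nat_lit 3) (.nd (nat_lit 4) (.nd (nat_lit 5) 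
(.lf (nat_lit 7553) (.g (nat_lit 1162) (.e (nat_lit 313) (nat_lit 23) (.e (nat_lit 352315) (nat_lit 23) (.e (nat_lit 98385) (nat_lit 32) (.e (nat_lit 475212) (nat_lit 42) (.e (nat_lit 720941) (nat_lit 22) .nil))))) .nil)) 
(.lf (nat_lit 7585) (.g (nat_lit 2972) (.e (nat_lit 314) (nat_lit 23) (.e (nat_lit 352275) (nat_lit 11) (.e (nat_lit 426012) (nat_lit 0) (.e (nat_lit 7593) (nat_lit 407) (.e (nat_lit 73775) (nat_lit 26) (.e (nat_lit 778361) (nat_lit 9) .nil)))))) (.g (nat_lit 6) .nil .nil)))) (.nd (nat_lit 5) 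
(.lf (nat_lit 7569) (.g (nat_lit 2395) (.e (nat_lit 314) (nat_lit 23) (.e (nat_lit 352274) (nat_lit 11) (.e (nat_lit 426011) (nat_lit 0) (.e (nat_lit 7591) (nat_lit 407) (.e (nat_lit 73775) (nat_lit 26) (.e (nat_lit 778362) (nat_lit 9) .nil)))))) (.g (nat_lit 4) .nil .nil))) 
(.lf (nat_lit 7601) (.g (nat_lit 2642) (.e (nat_lit 314) (nat_lit 23) (.e (nat_lit 352290) (nat_lit 20) (.e (nat_lit 2281) (nat_lit 150) (.e (nat_lit 770058) (nat_lit 5) (.e (nat_lit 1599) (nat_lit 111) (.e (nat_lit 360491) (nat_lit 22) (.e (nat_lit 778362) (nat_lit 9) .nil))))))) (.g (nat_lit 0) .nil .nil))))) (.nd (nat_lit 4) (.nd (nat_lit 5) 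
(.lf (nat_lit 7561) (.g (nat_lit 3929) (.e (nat_lit 314) (nat_lit 23) (.e (nat_lit 352267) (nat_lit 0) (.e (nat_lit 3305) (nat_lit 202) (.e (nat_lit 573484) (nat_lit 13) (.e (nat_lit 65617) (nat_lit 10) (.e (nat_lit 344130) (nat_lit 26) (.e (nat_lit 557064) (nat_lit 9) .nil))))))) (.g (nat_lit 0) .nil .nil))) 
(.lf (nat_lit 7593) (.g (nat_lit 3957) (.e (nat_lit 314) (nat_lit 23) (.e (nat_lit 352275) (nat_lit 11) (.e (nat_lit 426343) (nat_lit 14) (.e (nat_lit 491560) (nat_lit 10) (.e (nat_lit 344179) (nat_lit 44) (.e (nat_lit 778361) (nat_lit 9) .nil)))))) (.g (nat_lit 6) .nil .nil)))) (.nd (nat_lit 5) 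
(.lf (nat_lit 7577) (.g (nat_lit 2973) (.e (nat_lit 314) (nat_lit 23) (.e (nat_lit 352275) (nat_lit 11) (.e (nat_lit 426011) (nat_lit 0) (.e (nat_lit 7587) (nat_lit 406) (.e (nat_lit 65580) (nat_lit 6) (.e (nat_lit 147467) (nat_lit 9) .nil)))))) (.g (nat_lit 0) .nil .nil))) 
(.lf (nat_lit 7609) (.g (nat_lit 2651) (.e (nat_lit 314) (nat_lit 23) (.e (nat_lit 352307) (nat_lit 21) (.e (nat_lit 57654) (nat_lit 152) (.e (nat_lit 1217) (nat_lit 90) (.e (nat_lit 81965) (nat_lit 26) (.e (nat_lit 147463) (nat_lit 9) .nil)))))) (.g (nat_lit 5) .nil .nil)))))) (.nd (nat_lit 3) (.nd (nat_lit 4) (.nd (nat_lit 5) 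
(.lf (nat_lit 7557) (.g (nat_lit 1469) (.e (nat_lit 313) (nat_lit 23) (.e (nat_lit 352324) (nat_lit 26) (.e (nat_lit 147467) (nat_lit 9) (.e (nat_lit 314) (nat_lit 23) .nil)))) .nil)) 
(.lf (nat_lit 7589) (.g (nat_lit 2569) (.e (nat_lit 314) (nat_lit 23) (.e (nat_lit 352275) (nat_lit 11) (.e (nat_lit 426343) (nat_lit 14) (.e (nat_lit 491546) (nat_lit 9) (.e (nat_lit 336048) (nat_lit 6) .nil))))) .nil))) (.nd (nat_lit 5) 
(.lf (nat_lit 7573) (.g (nat_lit 2727) (.e (nat_lit 314) (nat_lit 23) (.e (nat_lit 352274) (nat_lit 11) (.e (nat_lit 426344) (nat_lit 14) (.e (nat_lit 491560) (nat_lit 10) (.e (nat_lit 344179) (nat_lit 44) (.e (nat_lit 778362) (nat_lit 9) .nil)))))) (.g (nat_lit 5) .nil .nil))) 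
(.lf (nat_lit 7605) (.g (nat_lit 2533) (.e (nat_lit 314) (nat_lit 23) (.e (nat_lit 352297) (nat_lit 20) (.e (nat_lit 2281) (nat_lit 150) (.e (nat_lit 770058) (nat_lit 5) (.e (nat_lit 1599) (nat_lit 111) (.e (nat_lit 360491) (nat_lit 22) (.e (nat_lit 778362) (nat_lit 9) .nil))))))) (.g (nat_lit 0) .nil .nil))))) (.nd (nat_lit 4) (.nd (nat_lit 5) 
(.lf (nat_lit 7565) (.g (nat_lit 2558) (.e (nat_lit 314) (nat_lit 23) (.e (nat_lit 352273) (nat_lit 11) (.e (nat_lit 426343) (nat_lit 14) (.e (nat_lit 491556) (nat_lit 9) (.e (nat_lit 336051) (nat_lit 6) (.e (nat_lit 147467) (nat_lit 9) .nil)))))) (.g (nat_lit 4) .nil .nil))) 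
(.lf (nat_lit 7597) (.g (nat_lit 3653) (.e (nat_lit 314) (nat_lit 23) (.e (nat_lit 352290) (nat_lit 20) (.e (nat_lit 1842) (nat_lit 123) (.e (nat_lit 548874) (nat_lit 5) (.e (nat_lit 1589) (nat_lit 111) (.e (nat_lit 360475) (nat_lit 8) (.e (nat_lit 557066) (nat_lit 9) .nil))))))) (.g (nat_lit 0) .nil .nil)))) (.nd (nat_lit 5) 
(.lf (nat_lit 7581) (.g (nat_lit 2484) (.e (nat_lit 314) (nat_lit 23) (.e (nat_lit 352275) (nat_lit 11) (.e (nat_lit 426011) (nat_lit 0) (.e (nat_lit 7593) (nat_lit 407) (.e (nat_lit 73775) (nat_lit 26) (.e (nat_lit 778360) (nat_lit 9) .nil)))))) (.g (nat_lit 4) .nil .nil))) 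
(.lf (nat_lit 7613) (.g (nat_lit 2667) (.e (nat_lit 314) (nat_lit 23) (.e (nat_lit 352307) (nat_lit 21) (.e (nat_lit 57681) (nat_lit 155) (.e (nat_lit 122917) (nat_lit 15) (.e (nat_lit 360492) (nat_lit 22) (.e (nat_lit 778362) (nat_lit 9) .nil)))))) (.g (nat_lit 4) .nil .nil))))))) (.nd (nat_lit 2) (.nd (nat_lit 3) (.nd (nat_lit 4) (.nd (nat_lit 5) 
(.lf (nat_lit 7555) (.g (nat_lit 861) (.e (nat_lit 313) (nat_lit 23) (.e (nat_lit 352321) (nat_lit 25) (.e (nat_lit 139276) (nat_lit 2) (.e (nat_lit 16461) (nat_lit 12) (.e (nat_lit 483072) (nat_lit 0) .nil))))) (.g (nat_lit 4) .nil .nil))) 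
(.lf (nat_lit 7587) (.g (nat_lit 3519) (.e (nat_lit 314) (nat_lit 23) (.e (nat_lit 352275) (nat_lit 11) (.e (nat_lit 426341) (nat_lit 14) (.e (nat_lit 491556) (nat_lit 9) (.e (nat_lit 336051) (nat_lit 6) (.e (nat_lit 147466) (nat_lit 9) .nil)))))) (.g (nat_lit 6) .nil .nil)))) (.nd (nat_lit 5) 
(.lf (nat_lit 7571) (.g (nat_lit 3072) (.e (nat_lit 314) (nat_lit 23) (.e (nat_lit 352274) (nat_lit 11) (.e (nat_lit 426011) (nat_lit 0) (.e (nat_lit 7593) (nat_lit 407) (.e (nat_lit 73775) (nat_lit 26) (.e (nat_lit 778362) (nat_lit 9) .nil)))))) (.g (nat_lit 5) .nil .nil))) 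
(.lf (nat_lit 7603) (.g (nat_lit 2674) (.e (nat_lit 314) (nat_lit 23) (.e (nat_lit 352297) (nat_lit 20) (.e (nat_lit 1841) (nat_lit 123) (.e (nat_lit 548889) (nat_lit 9) (.e (nat_lit 65617) (nat_lit 10) (.e (nat_lit 344130) (nat_lit 26) (.e (nat_lit 557064) (nat_lit 9) .nil))))))) (.g (nat_lit 6) .nil .nil))))) (.nd (nat_lit 4) (.nd (nat_lit 5) 
(.lf (nat_lit 7563) (.g (nat_lit 2147) (.e (nat_lit 314) (nat_lit 23) (.e (nat_lit 352273) (nat_lit 11) (.e (nat_lit 426011) (nat_lit 0) (.e (nat_lit 7591) (nat_lit 407) (.e (nat_lit 73775) (nat_lit 26) (.e (nat_lit 778361) (nat_lit 9) .nil)))))) (.g (nat_lit 4) .nil .nil))) 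
(.lf (nat_lit 7595) (.g (nat_lit 3769) (.e (nat_lit 314) (nat_lit 23) (.e (nat_lit 352275) (nat_lit 11) (.e (nat_lit 426344) (nat_lit 14) (.e (nat_lit 491560) (nat_lit 10) (.e (nat_lit 344179) (nat_lit 44) (.e (nat_lit 778361) (nat_lit 9) .nil)))))) (.g (nat_lit 6) .nil .nil)))) (.nd (nat_lit 5) 
(.lf (nat_lit 7579) (.g (nat_lit 3177) (.e (nat_lit 314) (nat_lit 23) (.e (nat_lit 352275) (nat_lit 11) (.e (nat_lit 426011) (nat_lit 0) (.e (nat_lit 7591) (nat_lit 407) (.e (nat_lit 73775) (nat_lit 26) (.e (nat_lit 778361) (nat_lit 9) .nil)))))) (.g (nat_lit 6) .nil .nil))) 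
(.lf (nat_lit 7611) (.g (nat_lit 718) (.e (nat_lit 314) (nat_lit 23) (.e (nat_lit 352307) (nat_lit 21) (.e (nat_lit 57680) (nat_lit 155) .nil))) .nil))))) (.nd (nat_lit 3) (.nd (nat_lit 4) (.nd (nat_lit 5) 
(.lf (nat_lit 7559) (.g (nat_lit 2509) (.e (nat_lit 314) (nat_lit 23) (.e (nat_lit 352267) (nat_lit 0) (.e (nat_lit 3304) (nat_lit 202) (.e (nat_lit 573482) (nat_lit 13) (.e (nat_lit 65619) (nat_lit 10) (.e (nat_lit 344129) (nat_lit 26) (.e (nat_lit 557065) (nat_lit 9) .nil))))))) (.g (nat_lit 4) .nil .nil))) 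
(.lf (nat_lit 7591) (.g (nat_lit 1274) (.e (nat_lit 314) (nat_lit 23) (.e (nat_lit 352275) (nat_lit 11) (.e (nat_lit 426343) (nat_lit 14) (.e (nat_lit 491558) (nat_lit 10) .nil)))) .nil))) (.nd (nat_lit 5) 
(.lf (nat_lit 7575) (.g (nat_lit 1511) (.e (nat_lit 314) (nat_lit 23) (.e (nat_lit 352275) (nat_lit 11) (.e (nat_lit 426010) (nat_lit 0) (.e (nat_lit 7593) (nat_lit 407) (.e (nat_lit 73775) (nat_lit 26) (.e (nat_lit 778360) (nat_lit 9) .nil)))))) (.g (nat_lit 4) .nil .nil))) 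
(.lf (nat_lit 7607) (.g (nat_lit 721) (.e (nat_lit 314) (nat_lit 23) (.e (nat_lit 352307) (nat_lit 21) (.e (nat_lit 57653) (nat_lit 152) .nil))) .nil)))) (.nd (nat_lit 4) (.nd (nat_lit 5) 
(.lf (nat_lit 7567) (.g (nat_lit 3141) (.e (nat_lit 314) (nat_lit 23) (.e (nat_lit 352273) (nat_lit 11) (.e (nat_lit 426343) (nat_lit 14) (.e (nat_lit 491560) (nat_lit 10) (.e (nat_lit 344179) (nat_lit 44) (.e (nat_lit 778362) (nat_lit 9) .nil)))))) (.g (nat_lit 5) .nil .nil))) 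
(.lf (nat_lit 7599) (.g (nat_lit 2715) (.e (nat_lit 314) (nat_lit 23) (.e (nat_lit 352290) (nat_lit 20) (.e (nat_lit 2281) (nat_lit 150) (.e (nat_lit 770057) (nat_lit 5) (.e (nat_lit 1586) (nat_lit 111) (.e (nat_lit 360491) (nat_lit 22) (.e (nat_lit 778362) (nat_lit 9) .nil))))))) (.g (nat_lit 0) .nil .nil)))) (.nd (nat_lit 5) 
(.lf (nat_lit 7583) (.g (nat_lit 1668) (.e (nat_lit 314) (nat_lit 23) (.e (nat_lit 352275) (nat_lit 11) (.e (nat_lit 426012) (nat_lit 0) (.e (nat_lit 7591) (nat_lit 407) (.e (nat_lit 73775) (nat_lit 26) (.e (nat_lit 778360) (nat_lit 9) .nil)))))) (.g (nat_lit 4) .nil .nil))) 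
(.lf (nat_lit 7615) (.g (nat_lit 1633) (.e (nat_lit 314) (nat_lit 23) (.e (nat_lit 352307) (nat_lit 21) (.e (nat_lit 57682) (nat_lit 155) (.e (nat_lit 122917) (nat_lit 15) (.e (nat_lit 360491) (nat_lit 22) .nil))))) .nil))))))))

noncomputable def tv106 : DT := (.nd (nat_lit 0) (.nd (nat_lit 1) (.nd (nat_lit 2) (.nd (nat_lit 3) (.nd (nat_lit 4) (.nd (nat_lit 5) 
(.lf (nat_lit 7616) (.g (nat_lit 1648) (.e (nat_lit 314) (nat_lit 23) (.e (nat_lit 352307) (nat_lit 21) (.e (nat_lit 57682) (nat_lit 155) (.e (nat_lit 122917) (nat_lit 15) (.e (nat_lit 360492) (nat_lit 22) .nil))))) .nil)) 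
(.lf (nat_lit 7648) (.g (nat_lit 1097) (.e (nat_lit 314) (nat_lit 23) (.e (nat_lit 352313) (nat_lit 23) (.e (nat_lit 98386) (nat_lit 32) (.e (nat_lit 475214) (nat_lit 42) .nil)))) .nil))) (.nd (nat_lit 5) 
(.lf (nat_lit 7632) (.g (nat_lit 884) (.e (nat_lit 314) (nat_lit 23) (.e (nat_lit 352309) (nat_lit 21) (.e (nat_lit 57666) (nat_lit 152) .nil))) .nil)) 
(.lf (nat_lit 7664) (.g (nat_lit 1649) (.e (nat_lit 314) (nat_lit 23) (.e (nat_lit 352315) (nat_lit 23) (.e (nat_lit 98385) (nat_lit 32) (.e (nat_lit 475214) (nat_lit 42) (.e (nat_lit 720941) (nat_lit 22) (.e (nat_lit 90128) (nat_lit 9) .nil)))))) (.g (nat_lit 4) .nil .nil))))) (.nd (nat_lit 4) (.nd (nat_lit 5) 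
(.lf (nat_lit 7624) (.g (nat_lit 884) (.e (nat_lit 314) (nat_lit 23) (.e (nat_lit 352309) (nat_lit 21) (.e (nat_lit 57652) (nat_lit 152) .nil))) .nil)) 
(.lf (nat_lit 7656) (.g (nat_lit 1756) (.e (nat_lit 314) (nat_lit 23) (.e (nat_lit 352315) (nat_lit 23) (.e (nat_lit 98355) (nat_lit 26) (.e (nat_lit 426448) (nat_lit 20) (.e (nat_lit 114716) (nat_lit 22) (.e (nat_lit 90128) (nat_lit 9) .nil)))))) (.g (nat_lit 4) .nil .nil)))) (.nd (nat_lit 5) 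
(.lf (nat_lit 7640) (.g (nat_lit 1247) (.e (nat_lit 314) (nat_lit 23) (.e (nat_lit 352309) (nat_lit 21) (.e (nat_lit 57683) (nat_lit 155) (.e (nat_lit 122918) (nat_lit 15) .nil)))) .nil)) 
(.lf (nat_lit 7672) (.g (nat_lit 412) (.e (nat_lit 314) (nat_lit 23) (.e (nat_lit 352322) (nat_lit 26) (.e (nat_lit 147467) (nat_lit 9) .nil))) .nil))))) (.nd (nat_lit 3) (.nd (nat_lit 4) (.nd (nat_lit 5) 
(.lf (nat_lit 7620) (.g (nat_lit 1581) (.e (nat_lit 314) (nat_lit 23) (.e (nat_lit 352307) (nat_lit 21) (.e (nat_lit 57683) (nat_lit 155) (.e (nat_lit 122917) (nat_lit 15) (.e (nat_lit 360491) (nat_lit 22) .nil))))) .nil)) 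
(.lf (nat_lit 7652) (.g (nat_lit 1521) (.e (nat_lit 314) (nat_lit 23) (.e (nat_lit 352315) (nat_lit 23) (.e (nat_lit 98320) (nat_lit 17) (.e (nat_lit 7591) (nat_lit 407) (.e (nat_lit 73754) (nat_lit 8) (.e (nat_lit 557064) (nat_lit 9) .nil)))))) (.g (nat_lit 4) .nil .nil)))) (.nd (nat_lit 5) 
(.lf (nat_lit 7636) (.g (nat_lit 2882) (.e (nat_lit 314) (nat_lit 23) (.e (nat_lit 352309) (nat_lit 21) (.e (nat_lit 57681) (nat_lit 155) (.e (nat_lit 122919) (nat_lit 15) (.e (nat_lit 360492) (nat_lit 22) .nil))))) .nil)) 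
(.lf (nat_lit 7668) (.g (nat_lit 1951) (.e (nat_lit 314) (nat_lit 23) (.e (nat_lit 352315) (nat_lit 23) (.e (nat_lit 98389) (nat_lit 33) (.e (nat_lit 491560) (nat_lit 10) (.e (nat_lit 344128) (nat_lit 26) (.e (nat_lit 557066) (nat_lit 9) .nil)))))) (.g (nat_lit 4) .nil .nil))))) (.nd (nat_lit 4) (.nd (nat_lit 5) 
(.lf (nat_lit 7628) (.g (nat_lit 1707) (.e (nat_lit 314) (nat_lit 23) (.e (nat_lit 352309) (nat_lit 21) (.e (nat_lit 57655) (nat_lit 152) (.e (nat_lit 1216) (nat_lit 90) (.e (nat_lit 81963) (nat_lit 26) (.e (nat_lit 147463) (nat_lit 9) .nil)))))) (.g (nat_lit 4) .nil .nil))) 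
(.lf (nat_lit 7660) (.g (nat_lit 1774) (.e (nat_lit 314) (nat_lit 23) (.e (nat_lit 352315) (nat_lit 23) (.e (nat_lit 98358) (nat_lit 26) (.e (nat_lit 426448) (nat_lit 20) .nil)))) .nil))) (.nd (nat_lit 5) 
(.lf (nat_lit 7644) (.g (nat_lit 2378) (.e (nat_lit 314) (nat_lit 23) (.e (nat_lit 352313) (nat_lit 23) (.e (nat_lit 98319) (nat_lit 17) (.e (nat_lit 7593) (nat_lit 407) (.e (nat_lit 73754) (nat_lit 8) (.e (nat_lit 557064) (nat_lit 9) .nil)))))) (.g (nat_lit 6) .nil .nil))) 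
(.lf (nat_lit 7676) (.g (nat_lit 1212) (.e (nat_lit 314) (nat_lit 23) (.e (nat_lit 352322) (nat_lit 26) (.e (nat_lit 147495) (nat_lit 11) (.e (nat_lit 24622) (nat_lit 8) .nil)))) .nil)))))) (.nd (nat_lit 2) (.nd (nat_lit 3) (.nd (nat_lit 4) (.nd (nat_lit 5) 
(.lf (nat_lit 7618) (.g (nat_lit 2017) (.e (nat_lit 314) (nat_lit 23) (.e (nat_lit 352307) (nat_lit 21) (.e (nat_lit 57683) (nat_lit 155) (.e (nat_lit 122914) (nat_lit 14) (.e (nat_lit 352324) (nat_lit 26) (.e (nat_lit 147467) (nat_lit 9) .nil)))))) (.g (nat_lit 4) .nil .nil))) 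
(.lf (nat_lit 7650) (.g (nat_lit 1684) (.e (nat_lit 314) (nat_lit 23) (.e (nat_lit 352313) (nat_lit 23) (.e (nat_lit 98389) (nat_lit 33) (.e (nat_lit 491560) (nat_lit 10) (.e (nat_lit 344128) (nat_lit 26) (.e (nat_lit 557066) (nat_lit 9) .nil)))))) (.g (nat_lit 4) .nil .nil)))) (.nd (nat_lit 5) 
(.lf (nat_lit 7634) (.g (nat_lit 905) (.e (nat_lit 314) (nat_lit 23) (.e (nat_lit 352309) (nat_lit 21) (.e (nat_lit 57680) (nat_lit 155) .nil))) .nil)) 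
(.lf (nat_lit 7666) (.g (nat_lit 1959) (.e (nat_lit 314) (nat_lit 23) (.e (nat_lit 352315) (nat_lit 23) (.e (nat_lit 98389) (nat_lit 33) (.e (nat_lit 491558) (nat_lit 10) (.e (nat_lit 344130) (nat_lit 26) (.e (nat_lit 557064) (nat_lit 9) .nil)))))) (.g (nat_lit 5) .nil .nil))))) (.nd (nat_lit 4) (.nd (nat_lit 5) 
(.lf (nat_lit 7626) (.g (nat_lit 1750) (.e (nat_lit 314) (nat_lit 23) (.e (nat_lit 352309) (nat_lit 21) (.e (nat_lit 57653) (nat_lit 152) (.e (nat_lit 1217) (nat_lit 90) (.e (nat_lit 81965) (nat_lit 26) .nil))))) .nil)) 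
(.lf (nat_lit 7658) (.g (nat_lit 2308) (.e (nat_lit 314) (nat_lit 23) (.e (nat_lit 352315) (nat_lit 23) (.e (nat_lit 98356) (nat_lit 26) (.e (nat_lit 426361) (nat_lit 15) (.e (nat_lit 2203) (nat_lit 144) (.e (nat_lit 720941) (nat_lit 22) (.e (nat_lit 90128) (nat_lit 9) .nil))))))) (.g (nat_lit 5) .nil .nil)))) (.nd (nat_lit 5) 
(.lf (nat_lit 7642) (.g (nat_lit 1111) (.e (nat_lit 314) (nat_lit 23) (.e (nat_lit 352312) (nat_lit 22) (.e (nat_lit 90133) (nat_lit 9) (.e (nat_lit 2902) (nat_lit 184) (.e (nat_lit 426447) (nat_lit 20) .nil))))) .nil)) 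
(.lf (nat_lit 7674) (.g (nat_lit 891) (.e (nat_lit 314) (nat_lit 23) (.e (nat_lit 352322) (nat_lit 26) (.e (nat_lit 147492) (nat_lit 11) (.e (nat_lit 24621) (nat_lit 8) (.e (nat_lit 327694) (nat_lit 3) .nil))))) .nil))))) (.nd (nat_lit 3) (.nd (nat_lit 4) (.nd (nat_lit 5) 
(.lf (nat_lit 7622) (.g (nat_lit 1826) (.e (nat_lit 314) (nat_lit 23) (.e (nat_lit 352307) (nat_lit 21) (.e (nat_lit 57684) (nat_lit 155) (.e (nat_lit 122916) (nat_lit 14) (.e (nat_lit 352322) (nat_lit 26) (.e (nat_lit 147467) (nat_lit 9) .nil)))))) (.g (nat_lit 4) .nil .nil))) 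
(.lf (nat_lit 7654) (.g (nat_lit 1980) (.e (nat_lit 314) (nat_lit 23) (.e (nat_lit 352315) (nat_lit 23) (.e (nat_lit 98354) (nat_lit 26) (.e (nat_lit 426448) (nat_lit 20) (.e (nat_lit 114716) (nat_lit 22) (.e (nat_lit 90128) (nat_lit 9) .nil)))))) (.g (nat_lit 4) .nil .nil)))) (.nd (nat_lit 5) 
(.lf (nat_lit 7638) (.g (nat_lit 2793) (.e (nat_lit 314) (nat_lit 23) (.e (nat_lit 352309) (nat_lit 21) (.e (nat_lit 57683) (nat_lit 155) (.e (nat_lit 122916) (nat_lit 14) (.e (nat_lit 352322) (nat_lit 26) (.e (nat_lit 147467) (nat_lit 9) .nil)))))) (.g (nat_lit 5) .nil .nil))) 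
(.lf (nat_lit 7670) (.g (nat_lit 3766) (.e (nat_lit 314) (nat_lit 23) (.e (nat_lit 352315) (nat_lit 23) (.e (nat_lit 98389) (nat_lit 33) (.e (nat_lit 491560) (nat_lit 10) (.e (nat_lit 344133) (nat_lit 26) (.e (nat_lit 557066) (nat_lit 9) .nil)))))) (.g (nat_lit 6) .nil .nil))))) (.nd (nat_lit 4) (.nd (nat_lit 5) 
(.lf (nat_lit 7630) (.g (nat_lit 1759) (.e (nat_lit 314) (nat_lit 23) (.e (nat_lit 352309) (nat_lit 21) (.e (nat_lit 57655) (nat_lit 152) (.e (nat_lit 1217) (nat_lit 90) (.e (nat_lit 81963) (nat_lit 26) (.e (nat_lit 147463) (nat_lit 9) .nil)))))) (.g (nat_lit 4) .nil .nil))) 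
(.lf (nat_lit 7662) (.g (nat_lit 2454) (.e (nat_lit 314) (nat_lit 23) (.e (nat_lit 352315) (nat_lit 23) (.e (nat_lit 98384) (nat_lit 32) (.e (nat_lit 475212) (nat_lit 42) (.e (nat_lit 720941) (nat_lit 22) (.e (nat_lit 90128) (nat_lit 9) .nil)))))) (.g (nat_lit 6) .nil .nil)))) (.nd (nat_lit 5) 
(.lf (nat_lit 7646) (.g (nat_lit 2446) (.e (nat_lit 314) (nat_lit 23) (.e (nat_lit 352313) (nat_lit 23) (.e (nat_lit 98355) (nat_lit 26) (.e (nat_lit 426446) (nat_lit 20) (.e (nat_lit 114714) (nat_lit 22) (.e (nat_lit 90128) (nat_lit 9) .nil)))))) (.g (nat_lit 6) .nil .nil))) 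
(.lf (nat_lit 7678) (.g (nat_lit 3465) (.e (nat_lit 314) (nat_lit 23) (.e (nat_lit 352322) (nat_lit 26) (.e (nat_lit 147495) (nat_lit 11) (.e (nat_lit 24631) (nat_lit 9) (.e (nat_lit 336046) (nat_lit 6) (.e (nat_lit 147467) (nat_lit 9) .nil)))))) (.g (nat_lit 0) .nil .nil)))))))) (.nd (nat_lit 1) (.nd (nat_lit 2) (.nd (nat_lit 3) (.nd (nat_lit 4) (.nd (nat_lit 5) 
(.lf (nat_lit 7617) (.g (nat_lit 2061) (.e (nat_lit 314) (nat_lit 23) (.e (nat_lit 352307) (nat_lit 21) (.e (nat_lit 57682) (nat_lit 155) (.e (nat_lit 122919) (nat_lit 15) (.e (nat_lit 360492) (nat_lit 22) (.e (nat_lit 778362) (nat_lit 9) .nil)))))) (.g (nat_lit 4) .nil .nil))) 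
(.lf (nat_lit 7649) (.g (nat_lit 1900) (.e (nat_lit 314) (nat_lit 23) (.e (nat_lit 352313) (nat_lit 23) (.e (nat_lit 98389) (nat_lit 33) (.e (nat_lit 491558) (nat_lit 10) (.e (nat_lit 344130) (nat_lit 26) (.e (nat_lit 557064) (nat_lit 9) .nil)))))) (.g (nat_lit 5) .nil .nil)))) (.nd (nat_lit 5) 
(.lf (nat_lit 7633) (.g (nat_lit 865) (.e (nat_lit 314) (nat_lit 23) (.e (nat_lit 352309) (nat_lit 21) (.e (nat_lit 57679) (nat_lit 153) .nil))) .nil)) 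
(.lf (nat_lit 7665) (.g (nat_lit 2900) (.e (nat_lit 314) (nat_lit 23) (.e (nat_lit 352315) (nat_lit 23) (.e (nat_lit 98388) (nat_lit 33) (.e (nat_lit 491560) (nat_lit 10) (.e (nat_lit 344129) (nat_lit 26) (.e (nat_lit 557066) (nat_lit 9) .nil)))))) (.g (nat_lit 5) .nil .nil))))) (.nd (nat_lit 4) (.nd (nat_lit 5) 
(.lf (nat_lit 7625) (.g (nat_lit 917) (.e (nat_lit 314) (nat_lit 23) (.e (nat_lit 352309) (nat_lit 21) (.e (nat_lit 57653) (nat_lit 152) .nil))) .nil)) 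
(.lf (nat_lit 7657) (.g (nat_lit 2293) (.e (nat_lit 314) (nat_lit 23) (.e (nat_lit 352315) (nat_lit 23) (.e (nat_lit 98356) (nat_lit 26) (.e (nat_lit 426361) (nat_lit 15) (.e (nat_lit 2203) (nat_lit 144) (.e (nat_lit 720938) (nat_lit 22) (.e (nat_lit 90128) (nat_lit 9) .nil))))))) (.g (nat_lit 5) .nil .nil)))) (.nd (nat_lit 5) 
(.lf (nat_lit 7641) (.g (nat_lit 884) (.e (nat_lit 314) (nat_lit 23) (.e (nat_lit 352309) (nat_lit 21) (.e (nat_lit 57687) (nat_lit 156) .nil))) .nil)) 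
(.lf (nat_lit 7673) (.g (nat_lit 447) (.e (nat_lit 314) (nat_lit 23) (.e (nat_lit 352322) (nat_lit 26) (.e (nat_lit 147492) (nat_lit 11) .nil))) .nil))))) (.nd (nat_lit 3) (.nd (nat_lit 4) (.nd (nat_lit 5) 
(.lf (nat_lit 7621) (.g (nat_lit 1527) (.e (nat_lit 314) (nat_lit 23) (.e (nat_lit 352307) (nat_lit 21) (.e (nat_lit 57683) (nat_lit 155) (.e (nat_lit 122919) (nat_lit 15) (.e (nat_lit 360491) (nat_lit 22) .nil))))) .nil)) 
(.lf (nat_lit 7653) (.g (nat_lit 2307) (.e (nat_lit 314) (nat_lit 23) (.e (nat_lit 352315) (nat_lit 23) (.e (nat_lit 98354) (nat_lit 26) (.e (nat_lit 426448) (nat_lit 20) (.e (nat_lit 114714) (nat_lit 22) (.e (nat_lit 90128) (nat_lit 9) .nil)))))) (.g (nat_lit 5) .nil .nil)))) (.nd (nat_lit 5) 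
(.lf (nat_lit 7637) (.g (nat_lit 905) (.e (nat_lit 314) (nat_lit 23) (.e (nat_lit 352309) (nat_lit 21) (.e (nat_lit 57682) (nat_lit 155) .nil))) .nil)) 
(.lf (nat_lit 7669) (.g (nat_lit 3913) (.e (nat_lit 314) (nat_lit 23) (.e (nat_lit 352315) (nat_lit 23) (.e (nat_lit 98389) (nat_lit 33) (.e (nat_lit 491560) (nat_lit 10) (.e (nat_lit 344129) (nat_lit 26) (.e (nat_lit 557066) (nat_lit 9) .nil)))))) (.g (nat_lit 0) .nil .nil))))) (.nd (nat_lit 4) (.nd (nat_lit 5) 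
(.lf (nat_lit 7629) (.g (nat_lit 2288) (.e (nat_lit 314) (nat_lit 23) (.e (nat_lit 352309) (nat_lit 21) (.e (nat_lit 57655) (nat_lit 152) (.e (nat_lit 1216) (nat_lit 90) (.e (nat_lit 81965) (nat_lit 26) (.e (nat_lit 147463) (nat_lit 9) .nil)))))) (.g (nat_lit 5) .nil .nil))) 
(.lf (nat_lit 7661) (.g (nat_lit 2747) (.e (nat_lit 314) (nat_lit 23) (.e (nat_lit 352315) (nat_lit 23) (.e (nat_lit 98367) (nat_lit 27) (.e (nat_lit 434275) (nat_lit 39) (.e (nat_lit 663580) (nat_lit 9) (.e (nat_lit 2663) (nat_lit 167) (.e (nat_lit 204544) (nat_lit 0) .nil))))))) (.g (nat_lit 4) .nil .nil)))) (.nd (nat_lit 5) 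
(.lf (nat_lit 7645) (.g (nat_lit 2534) (.e (nat_lit 314) (nat_lit 23) (.e (nat_lit 352313) (nat_lit 23) (.e (nat_lit 98320) (nat_lit 17) (.e (nat_lit 7593) (nat_lit 407) (.e (nat_lit 73754) (nat_lit 8) (.e (nat_lit 557064) (nat_lit 9) .nil)))))) (.g (nat_lit 6) .nil .nil))) 
(.lf (nat_lit 7677) (.g (nat_lit 2832) (.e (nat_lit 314) (nat_lit 23) (.e (nat_lit 352322) (nat_lit 26) (.e (nat_lit 147495) (nat_lit 11) (.e (nat_lit 24623) (nat_lit 9) (.e (nat_lit 336048) (nat_lit 6) (.e (nat_lit 147467) (nat_lit 9) .nil)))))) (.g (nat_lit 5) .nil .nil))))))) (.nd (nat_lit 2) (.nd (nat_lit 3) (.nd (nat_lit 4) (.nd (nat_lit 5) 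
(.lf (nat_lit 7619) (.g (nat_lit 1789) (.e (nat_lit 314) (nat_lit 23) (.e (nat_lit 352307) (nat_lit 21) (.e (nat_lit 57683) (nat_lit 155) (.e (nat_lit 122916) (nat_lit 14) (.e (nat_lit 352323) (nat_lit 26) .nil))))) .nil)) 
(.lf (nat_lit 7651) (.g (nat_lit 1901) (.e (nat_lit 314) (nat_lit 23) (.e (nat_lit 352315) (nat_lit 23) (.e (nat_lit 106240) (nat_lit 16) (.e (nat_lit 401454) (nat_lit 12) (.e (nat_lit 483072) (nat_lit 0) .nil))))) (.g (nat_lit 4) .nil .nil)))) (.nd (nat_lit 5) 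
(.lf (nat_lit 7635) (.g (nat_lit 2961) (.e (nat_lit 314) (nat_lit 23) (.e (nat_lit 352309) (nat_lit 21) (.e (nat_lit 57681) (nat_lit 155) (.e (nat_lit 122919) (nat_lit 15) (.e (nat_lit 360491) (nat_lit 22) .nil))))) .nil)) 
(.lf (nat_lit 7667) (.g (nat_lit 1969) (.e (nat_lit 314) (nat_lit 23) (.e (nat_lit 352315) (nat_lit 23) (.e (nat_lit 98389) (nat_lit 33) (.e (nat_lit 491560) (nat_lit 10) (.e (nat_lit 344127) (nat_lit 26) (.e (nat_lit 557066) (nat_lit 9) .nil)))))) (.g (nat_lit 4) .nil .nil))))) (.nd (nat_lit 4) (.nd (nat_lit 5) 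
(.lf (nat_lit 7627) (.g (nat_lit 688) (.e (nat_lit 314) (nat_lit 23) (.e (nat_lit 352309) (nat_lit 21) (.e (nat_lit 57654) (nat_lit 152) .nil))) .nil)) 
(.lf (nat_lit 7659) (.g (nat_lit 2458) (.e (nat_lit 314) (nat_lit 23) (.e (nat_lit 352315) (nat_lit 23) (.e (nat_lit 98356) (nat_lit 26) (.e (nat_lit 426449) (nat_lit 20) (.e (nat_lit 114716) (nat_lit 22) (.e (nat_lit 90128) (nat_lit 9) .nil)))))) (.g (nat_lit 6) .nil .nil)))) (.nd (nat_lit 5) 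
(.lf (nat_lit 7643) (.g (nat_lit 1423) (.e (nat_lit 314) (nat_lit 23) (.e (nat_lit 352313) (nat_lit 23) (.e (nat_lit 106240) (nat_lit 16) (.e (nat_lit 401454) (nat_lit 12) (.e (nat_lit 483072) (nat_lit 0) .nil))))) (.g (nat_lit 4) .nil .nil))) 
(.lf (nat_lit 7675) (.g (nat_lit 422) (.e (nat_lit 314) (nat_lit 23) (.e (nat_lit 352322) (nat_lit 26) (.e (nat_lit 147495) (nat_lit 11) .nil))) .nil))))) (.nd (nat_lit 3) (.nd (nat_lit 4) (.nd (nat_lit 5) 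
(.lf (nat_lit 7623) (.g (nat_lit 911) (.e (nat_lit 314) (nat_lit 23) (.e (nat_lit 352309) (nat_lit 21) (.e (nat_lit 57651) (nat_lit 152) .nil))) .nil)) 
(.lf (nat_lit 7655) (.g (nat_lit 2717) (.e (nat_lit 314) (nat_lit 23) (.e (nat_lit 352315) (nat_lit 23) (.e (nat_lit 98355) (nat_lit 26) (.e (nat_lit 426446) (nat_lit 20) (.e (nat_lit 114714) (nat_lit 22) (.e (nat_lit 90128) (nat_lit 9) .nil)))))) (.g (nat_lit 6) .nil .nil)))) (.nd (nat_lit 5) 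
(.lf (nat_lit 7639) (.g (nat_lit 3038) (.e (nat_lit 314) (nat_lit 23) (.e (nat_lit 352309) (nat_lit 21) (.e (nat_lit 57683) (nat_lit 155) (.e (nat_lit 122916) (nat_lit 14) (.e (nat_lit 352324) (nat_lit 26) (.e (nat_lit 147467) (nat_lit 9) .nil)))))) (.g (nat_lit 6) .nil .nil))) 
(.lf (nat_lit 7671) (.g (nat_lit 1270) (.e (nat_lit 314) (nat_lit 23) (.e (nat_lit 352321) (nat_lit 25) (.e (nat_lit 139276) (nat_lit 2) (.e (nat_lit 16461) (nat_lit 12) (.e (nat_lit 483072) (nat_lit 0) .nil))))) (.g (nat_lit 4) .nil .nil))))) (.nd (nat_lit 4) (.nd (nat_lit 5) 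
(.lf (nat_lit 7631) (.g (nat_lit 814) (.e (nat_lit 314) (nat_lit 23) (.e (nat_lit 352309) (nat_lit 21) (.e (nat_lit 57660) (nat_lit 152) .nil))) .nil)) 
(.lf (nat_lit 7663) (.g (nat_lit 2181) (.e (nat_lit 314) (nat_lit 23) (.e (nat_lit 352315) (nat_lit 23) (.e (nat_lit 98384) (nat_lit 32) (.e (nat_lit 475214) (nat_lit 42) (.e (nat_lit 720939) (nat_lit 22) (.e (nat_lit 90128) (nat_lit 9) .nil)))))) (.g (nat_lit 5) .nil .nil)))) (.nd (nat_lit 5) 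
(.lf (nat_lit 7647) (.g (nat_lit 1635) (.e (nat_lit 314) (nat_lit 23) (.e (nat_lit 352313) (nat_lit 23) (.e (nat_lit 98358) (nat_lit 26) (.e (nat_lit 426446) (nat_lit 20) .nil)))) .nil)) 
(.lf (nat_lit 7679) (.g (nat_lit 1813) (.e (nat_lit 314) (nat_lit 23) (.e (nat_lit 352322) (nat_lit 26) (.e (nat_lit 147495) (nat_lit 11) (.e (nat_lit 24636) (nat_lit 9) (.e (nat_lit 336051) (nat_lit 6) (.e (nat_lit 147467) (nat_lit 9) .nil)))))) (.g (nat_lit 4) .nil .nil)))))))))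

noncomputable def tv107 : DT := (.nd (nat_lit 0) (.nd (nat_lit 1) (.nd (nat_lit 2) (.nd (nat_lit 3) (.nd (nat_lit 4) (.nd (nat_lit 5) (.nd (nat_lit 6) 
(.lf (nat_lit 7680) (.g (nat_lit 3024) (.e (nat_lit 314) (nat_lit 23) (.e (nat_lit 352322) (nat_lit 26) (.e (nat_lit 147496) (nat_lit 11) (.e (nat_lit 24584) (nat_lit 0) (.e (nat_lit 6097) (nat_lit 332) (.e (nat_lit 2584) (nat_lit 161) (.e (nat_lit 40972) (nat_lit 9) .nil))))))) (.g (nat_lit 0) .nil .nil))) 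
(.lf (nat_lit 7744) (.g (nat_lit 680) (.e (nat_lit 316) (nat_lit 23) (.e (nat_lit 352307) (nat_lit 21) (.e (nat_lit 57683) (nat_lit 155) .nil))) .nil))) (.nd (nat_lit 6) 
(.lf (nat_lit 7712) (.g (nat_lit 1281) (.e (nat_lit 315) (nat_lit 23) (.e (nat_lit 352309) (nat_lit 21) (.e (nat_lit 57857) (nat_lit 254) (.e (nat_lit 163908) (nat_lit 12) .nil)))) .nil)) 
(.lf (nat_lit 7776) (.g (nat_lit 707) (.e (nat_lit 316) (nat_lit 23) (.e (nat_lit 352324) (nat_lit 26) (.e (nat_lit 147492) (nat_lit 11) .nil))) .nil)))) (.nd (nat_lit 5) (.nd (nat_lit 6) 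
(.lf (nat_lit 7696) (.g (nat_lit 2371) (.e (nat_lit 314) (nat_lit 23) (.e (nat_lit 352324) (nat_lit 26) (.e (nat_lit 147495) (nat_lit 11) (.e (nat_lit 24640) (nat_lit 10) (.e (nat_lit 344179) (nat_lit 44) .nil))))) .nil)) 
(.lf (nat_lit 7760) (.g (nat_lit 1949) (.e (nat_lit 316) (nat_lit 23) (.e (nat_lit 352315) (nat_lit 23) (.e (nat_lit 106240) (nat_lit 16) (.e (nat_lit 401454) (nat_lit 12) (.e (nat_lit 475139) (nat_lit 0) .nil))))) (.g (nat_lit 4) .nil .nil)))) (.nd (nat_lit 6) 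
(.lf (nat_lit 7728) (.g (nat_lit 2706) (.e (nat_lit 315) (nat_lit 23) (.e (nat_lit 352315) (nat_lit 23) (.e (nat_lit 98389) (nat_lit 33) (.e (nat_lit 491558) (nat_lit 10) (.e (nat_lit 344129) (nat_lit 26) (.e (nat_lit 557065) (nat_lit 9) .nil)))))) (.g (nat_lit 5) .nil .nil))) 
(.lf (nat_lit 7792) (.g (nat_lit 1591) (.e (nat_lit 316) (nat_lit 23) (.e (nat_lit 352324) (nat_lit 26) (.e (nat_lit 147512) (nat_lit 14) (.e (nat_lit 2808) (nat_lit 180) .nil)))) .nil))))) (.nd (nat_lit 4) (.nd (nat_lit 5) (.nd (nat_lit 6) 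
(.lf (nat_lit 7688) (.g (nat_lit 497) (.e (nat_lit 314) (nat_lit 23) (.e (nat_lit 352324) (nat_lit 26) (.e (nat_lit 147492) (nat_lit 11) .nil))) .nil)) 
(.lf (nat_lit 7752) (.g (nat_lit 1487) (.e (nat_lit 316) (nat_lit 23) (.e (nat_lit 352309) (nat_lit 21) (.e (nat_lit 57872) (nat_lit 264) (.e (nat_lit 1211) (nat_lit 89) .nil)))) .nil))) (.nd (nat_lit 6) 
(.lf (nat_lit 7720) (.g (nat_lit 2961) (.e (nat_lit 315) (nat_lit 23) (.e (nat_lit 352315) (nat_lit 23) (.e (nat_lit 98320) (nat_lit 17) (.e (nat_lit 7593) (nat_lit 407) (.e (nat_lit 73754) (nat_lit 8) (.e (nat_lit 557064) (nat_lit 9) .nil)))))) (.g (nat_lit 0) .nil .nil))) 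
(.lf (nat_lit 7784) (.g (nat_lit 1790) (.e (nat_lit 316) (nat_lit 23) (.e (nat_lit 352324) (nat_lit 26) (.e (nat_lit 147494) (nat_lit 11) (.e (nat_lit 24580) (nat_lit 0) (.e (nat_lit 6203) (nat_lit 332) .nil))))) .nil)))) (.nd (nat_lit 5) (.nd (nat_lit 6) 
(.lf (nat_lit 7704) (.g (nat_lit 2220) (.e (nat_lit 315) (nat_lit 23) (.e (nat_lit 352275) (nat_lit 11) (.e (nat_lit 426011) (nat_lit 0) (.e (nat_lit 7591) (nat_lit 407) (.e (nat_lit 73775) (nat_lit 26) .nil))))) .nil)) 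
(.lf (nat_lit 7768) (.g (nat_lit 795) (.e (nat_lit 316) (nat_lit 23) (.e (nat_lit 352321) (nat_lit 25) (.e (nat_lit 139276) (nat_lit 2) (.e (nat_lit 16461) (nat_lit 12) (.e (nat_lit 483072) (nat_lit 0) .nil))))) (.g (nat_lit 4) .nil .nil)))) (.nd (nat_lit 6) 
(.lf (nat_lit 7736) (.g (nat_lit 746) (.e (nat_lit 316) (nat_lit 23) (.e (nat_lit 352287) (nat_lit 20) (.e (nat_lit 1999) (nat_lit 137) (.e (nat_lit 663567) (nat_lit 4) .nil)))) .nil)) 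
(.lf (nat_lit 7800) (.g (nat_lit 595) (.e (nat_lit 317) (nat_lit 23) (.e (nat_lit 352264) (nat_lit 0) (.e (nat_lit 3715) (nat_lit 227) (.e (nat_lit 778322) (nat_lit 5) (.e (nat_lit 73794) (nat_lit 46) (.e (nat_lit 57865) (nat_lit 256) .nil)))))) (.g (nat_lit 0) .nil .nil))))))) (.nd (nat_lit 3) (.nd (nat_lit 4) (.nd (nat_lit 5) (.nd (nat_lit 6) 
(.lf (nat_lit 7684) (.g (nat_lit 1991) (.e (nat_lit 314) (nat_lit 23) (.e (nat_lit 352322) (nat_lit 26) (.e (nat_lit 147496) (nat_lit 11) (.e (nat_lit 24641) (nat_lit 10) (.e (nat_lit 344180) (nat_lit 44) (.e (nat_lit 778362) (nat_lit 9) .nil)))))) (.g (nat_lit 4) .nil .nil))) 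
(.lf (nat_lit 7748) (.g (nat_lit 898) (.e (nat_lit 316) (nat_lit 23) (.e (nat_lit 352309) (nat_lit 21) (.e (nat_lit 57849) (nat_lit 252) .nil))) .nil))) (.nd (nat_lit 6) 
(.lf (nat_lit 7716) (.g (nat_lit 997) (.e (nat_lit 315) (nat_lit 23) (.e (nat_lit 352312) (nat_lit 22) (.e (nat_lit 90165) (nat_lit 12) (.e (nat_lit 171776) (nat_lit 192) .nil)))) .nil)) 
(.lf (nat_lit 7780) (.g (nat_lit 596) (.e (nat_lit 316) (nat_lit 23) (.e (nat_lit 352324) (nat_lit 26) (.e (nat_lit 147494) (nat_lit 11) .nil))) .nil)))) (.nd (nat_lit 5) (.nd (nat_lit 6) 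
(.lf (nat_lit 7700) (.g (nat_lit 2088) (.e (nat_lit 314) (nat_lit 23) (.e (nat_lit 352324) (nat_lit 26) (.e (nat_lit 147496) (nat_lit 11) (.e (nat_lit 24623) (nat_lit 9) (.e (nat_lit 336048) (nat_lit 6) .nil))))) .nil)) 
(.lf (nat_lit 7764) (.g (nat_lit 1111) (.e (nat_lit 316) (nat_lit 23) (.e (nat_lit 352315) (nat_lit 23) (.e (nat_lit 98320) (nat_lit 17) (.e (nat_lit 7593) (nat_lit 407) .nil)))) .nil))) (.nd (nat_lit 6) 
(.lf (nat_lit 7732) (.g (nat_lit 1511) (.e (nat_lit 315) (nat_lit 23) (.e (nat_lit 352324) (nat_lit 26) (.e (nat_lit 147467) (nat_lit 9) (.e (nat_lit 314) (nat_lit 23) .nil)))) .nil)) 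
(.lf (nat_lit 7796) (.g (nat_lit 521) (.e (nat_lit 317) (nat_lit 23) (.e (nat_lit 352264) (nat_lit 0) (.e (nat_lit 3714) (nat_lit 227) (.e (nat_lit 778322) (nat_lit 5) (.e (nat_lit 73794) (nat_lit 46) (.e (nat_lit 57863) (nat_lit 256) .nil)))))) (.g (nat_lit 0) .nil .nil)))))) (.nd (nat_lit 4) (.nd (nat_lit 5) (.nd (nat_lit 6) 
(.lf (nat_lit 7692) (.g (nat_lit 1278) (.e (nat_lit 314) (nat_lit 23) (.e (nat_lit 352324) (nat_lit 26) (.e (nat_lit 147495) (nat_lit 11) (.e (nat_lit 24622) (nat_lit 8) .nil)))) .nil)) 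
(.lf (nat_lit 7756) (.g (nat_lit 1687) (.e (nat_lit 316) (nat_lit 23) (.e (nat_lit 352313) (nat_lit 23) (.e (nat_lit 106240) (nat_lit 16) (.e (nat_lit 401454) (nat_lit 12) (.e (nat_lit 475139) (nat_lit 0) .nil))))) .nil))) (.nd (nat_lit 6) 
(.lf (nat_lit 7724) (.g (nat_lit 720) (.e (nat_lit 315) (nat_lit 23) (.e (nat_lit 352315) (nat_lit 23) (.e (nat_lit 98357) (nat_lit 26) .nil))) .nil)) 
(.lf (nat_lit 7788) (.g (nat_lit 2277) (.e (nat_lit 316) (nat_lit 23) (.e (nat_lit 352324) (nat_lit 26) (.e (nat_lit 147495) (nat_lit 11) (.e (nat_lit 24580) (nat_lit 0) (.e (nat_lit 6203) (nat_lit 332) .nil))))) .nil)))) (.nd (nat_lit 5) (.nd (nat_lit 6) 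
(.lf (nat_lit 7708) (.g (nat_lit 2751) (.e (nat_lit 315) (nat_lit 23) (.e (nat_lit 352275) (nat_lit 11) (.e (nat_lit 426343) (nat_lit 14) (.e (nat_lit 491560) (nat_lit 10) (.e (nat_lit 344179) (nat_lit 44) .nil))))) .nil)) 
(.lf (nat_lit 7772) (.g (nat_lit 1935) (.e (nat_lit 316) (nat_lit 23) (.e (nat_lit 352322) (nat_lit 26) (.e (nat_lit 147495) (nat_lit 11) (.e (nat_lit 24580) (nat_lit 0) (.e (nat_lit 6154) (nat_lit 332) .nil))))) .nil))) (.nd (nat_lit 6) 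
(.lf (nat_lit 7740) (.g (nat_lit 3317) (.e (nat_lit 316) (nat_lit 23) (.e (nat_lit 352297) (nat_lit 20) (.e (nat_lit 1842) (nat_lit 123) (.e (nat_lit 548889) (nat_lit 9) (.e (nat_lit 65617) (nat_lit 10) (.e (nat_lit 344127) (nat_lit 26) (.e (nat_lit 557081) (nat_lit 9) .nil))))))) (.g (nat_lit 0) .nil .nil))) 
(.lf (nat_lit 7804) (.g (nat_lit 995) (.e (nat_lit 317) (nat_lit 23) (.e (nat_lit 352267) (nat_lit 0) (.e (nat_lit 3629) (nat_lit 227) (.e (nat_lit 778323) (nat_lit 5) (.e (nat_lit 73794) (nat_lit 46) (.e (nat_lit 57865) (nat_lit 256) .nil)))))) (.g (nat_lit 0) .nil .nil)))))))) (.nd (nat_lit 2) (.nd (nat_lit 3) (.nd (nat_lit 4) (.nd (nat_lit 5) (.nd (nat_lit 6) 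
(.lf (nat_lit 7682) (.g (nat_lit 2710) (.e (nat_lit 314) (nat_lit 23) (.e (nat_lit 352322) (nat_lit 26) (.e (nat_lit 147496) (nat_lit 11) (.e (nat_lit 24584) (nat_lit 0) (.e (nat_lit 6113) (nat_lit 332) (.e (nat_lit 2584) (nat_lit 161) (.e (nat_lit 40972) (nat_lit 9) .nil))))))) (.g (nat_lit 5) .nil .nil))) 
(.lf (nat_lit 7746) (.g (nat_lit 1736) (.e (nat_lit 316) (nat_lit 23) (.e (nat_lit 352307) (nat_lit 21) (.e (nat_lit 57873) (nat_lit 264) (.e (nat_lit 1211) (nat_lit 89) .nil)))) .nil))) (.nd (nat_lit 6) 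
(.lf (nat_lit 7714) (.g (nat_lit 2024) (.e (nat_lit 315) (nat_lit 23) (.e (nat_lit 352309) (nat_lit 21) (.e (nat_lit 57857) (nat_lit 254) (.e (nat_lit 163923) (nat_lit 15) (.e (nat_lit 450597) (nat_lit 17) .nil))))) .nil)) 
(.lf (nat_lit 7778) (.g (nat_lit 1434) (.e (nat_lit 316) (nat_lit 23) (.e (nat_lit 352324) (nat_lit 26) (.e (nat_lit 147492) (nat_lit 11) (.e (nat_lit 24621) (nat_lit 8) (.e (nat_lit 327694) (nat_lit 3) (.e (nat_lit 40987) (nat_lit 9) .nil)))))) (.g (nat_lit 4) .nil .nil))))) (.nd (nat_lit 5) (.nd (nat_lit 6) 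
(.lf (nat_lit 7698) (.g (nat_lit 2056) (.e (nat_lit 314) (nat_lit 23) (.e (nat_lit 352324) (nat_lit 26) (.e (nat_lit 147496) (nat_lit 11) (.e (nat_lit 24584) (nat_lit 0) (.e (nat_lit 6113) (nat_lit 332) .nil))))) .nil)) 
(.lf (nat_lit 7762) (.g (nat_lit 1063) (.e (nat_lit 316) (nat_lit 23) (.e (nat_lit 352315) (nat_lit 23) (.e (nat_lit 106240) (nat_lit 16) (.e (nat_lit 401454) (nat_lit 12) (.e (nat_lit 483072) (nat_lit 0) .nil))))) (.g (nat_lit 4) .nil .nil)))) (.nd (nat_lit 6) 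
(.lf (nat_lit 7730) (.g (nat_lit 1881) (.e (nat_lit 315) (nat_lit 23) (.e (nat_lit 352315) (nat_lit 23) (.e (nat_lit 98389) (nat_lit 33) (.e (nat_lit 491560) (nat_lit 10) (.e (nat_lit 344131) (nat_lit 26) .nil))))) .nil)) 
(.lf (nat_lit 7794) (.g (nat_lit 584) (.e (nat_lit 317) (nat_lit 23) (.e (nat_lit 352264) (nat_lit 0) (.e (nat_lit 3711) (nat_lit 227) (.e (nat_lit 778322) (nat_lit 5) (.e (nat_lit 73794) (nat_lit 46) (.e (nat_lit 57865) (nat_lit 256) .nil)))))) (.g (nat_lit 0) .nil .nil)))))) (.nd (nat_lit 4) (.nd (nat_lit 5) (.nd (nat_lit 6) 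
(.lf (nat_lit 7690) (.g (nat_lit 601) (.e (nat_lit 314) (nat_lit 23) (.e (nat_lit 352324) (nat_lit 26) (.e (nat_lit 147494) (nat_lit 11) .nil))) .nil)) 
(.lf (nat_lit 7754) (.g (nat_lit 732) (.e (nat_lit 316) (nat_lit 23) (.e (nat_lit 352312) (nat_lit 22) (.e (nat_lit 98048) (nat_lit 2) (.e (nat_lit 16458) (nat_lit 12) (.e (nat_lit 483072) (nat_lit 0) .nil))))) (.g (nat_lit 4) .nil .nil)))) (.nd (nat_lit 6) 
(.lf (nat_lit 7722) (.g (nat_lit 730) (.e (nat_lit 315) (nat_lit 23) (.e (nat_lit 352315) (nat_lit 23) (.e (nat_lit 98355) (nat_lit 26) .nil))) .nil)) 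
(.lf (nat_lit 7786) (.g (nat_lit 727) (.e (nat_lit 316) (nat_lit 23) (.e (nat_lit 352324) (nat_lit 26) (.e (nat_lit 147495) (nat_lit 11) .nil))) .nil)))) (.nd (nat_lit 5) (.nd (nat_lit 6) 
(.lf (nat_lit 7706) (.g (nat_lit 1643) (.e (nat_lit 315) (nat_lit 23) (.e (nat_lit 352275) (nat_lit 11) (.e (nat_lit 426012) (nat_lit 0) (.e (nat_lit 7593) (nat_lit 407) (.e (nat_lit 73775) (nat_lit 26) .nil))))) .nil)) 
(.lf (nat_lit 7770) (.g (nat_lit 595) (.e (nat_lit 316) (nat_lit 23) (.e (nat_lit 352322) (nat_lit 26) (.e (nat_lit 147494) (nat_lit 11) .nil))) .nil))) (.nd (nat_lit 6) 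
(.lf (nat_lit 7738) (.g (nat_lit 1675) (.e (nat_lit 316) (nat_lit 23) (.e (nat_lit 352287) (nat_lit 20) (.e (nat_lit 2384) (nat_lit 155) (.e (nat_lit 811029) (nat_lit 9) (.e (nat_lit 303131) (nat_lit 9) (.e (nat_lit 426125) (nat_lit 2) (.e (nat_lit 204544) (nat_lit 0) .nil))))))) (.g (nat_lit 6) .nil .nil))) 
(.lf (nat_lit 7802) (.g (nat_lit 332) (.e (nat_lit 317) (nat_lit 23) (.e (nat_lit 352264) (nat_lit 0) (.e (nat_lit 3716) (nat_lit 227) (.e (nat_lit 778322) (nat_lit 5) (.e (nat_lit 73794) (nat_lit 46) (.e (nat_lit 57865) (nat_lit 256) .nil)))))) (.g (nat_lit 0) .nil .nil))))))) (.nd (nat_lit 3) (.nd (nat_lit 4) (.nd (nat_lit 5) (.nd (nat_lit 6) 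
(.lf (nat_lit 7686) (.g (nat_lit 1175) (.e (nat_lit 314) (nat_lit 23) (.e (nat_lit 352324) (nat_lit 26) (.e (nat_lit 147466) (nat_lit 9) (.e (nat_lit 309) (nat_lit 23) .nil)))) .nil)) 
(.lf (nat_lit 7750) (.g (nat_lit 660) (.e (nat_lit 316) (nat_lit 23) (.e (nat_lit 352309) (nat_lit 21) (.e (nat_lit 57872) (nat_lit 264) .nil))) .nil))) (.nd (nat_lit 6) 
(.lf (nat_lit 7718) (.g (nat_lit 709) (.e (nat_lit 315) (nat_lit 23) (.e (nat_lit 352315) (nat_lit 23) (.e (nat_lit 98319) (nat_lit 17) .nil))) .nil)) 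
(.lf (nat_lit 7782) (.g (nat_lit 1850) (.e (nat_lit 316) (nat_lit 23) (.e (nat_lit 352324) (nat_lit 26) (.e (nat_lit 147494) (nat_lit 11) (.e (nat_lit 24580) (nat_lit 0) (.e (nat_lit 6152) (nat_lit 332) .nil))))) .nil)))) (.nd (nat_lit 5) (.nd (nat_lit 6) 
(.lf (nat_lit 7702) (.g (nat_lit 1985) (.e (nat_lit 314) (nat_lit 23) (.e (nat_lit 352324) (nat_lit 26) (.e (nat_lit 147496) (nat_lit 11) (.e (nat_lit 24632) (nat_lit 9) (.e (nat_lit 336048) (nat_lit 6) .nil))))) .nil)) 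
(.lf (nat_lit 7766) (.g (nat_lit 672) (.e (nat_lit 316) (nat_lit 23) (.e (nat_lit 352315) (nat_lit 23) (.e (nat_lit 98389) (nat_lit 33) .nil))) .nil))) (.nd (nat_lit 6) 
(.lf (nat_lit 7734) (.g (nat_lit 1563) (.e (nat_lit 316) (nat_lit 23) (.e (nat_lit 352275) (nat_lit 11) (.e (nat_lit 426011) (nat_lit 0) (.e (nat_lit 7591) (nat_lit 407) .nil)))) .nil)) 
(.lf (nat_lit 7798) (.g (nat_lit 357) (.e (nat_lit 317) (nat_lit 23) (.e (nat_lit 352264) (nat_lit 0) (.e (nat_lit 3714) (nat_lit 227) (.e (nat_lit 786176) (nat_lit 5) .nil)))) .nil))))) (.nd (nat_lit 4) (.nd (nat_lit 5) (.nd (nat_lit 6) 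
(.lf (nat_lit 7694) (.g (nat_lit 3497) (.e (nat_lit 314) (nat_lit 23) (.e (nat_lit 352324) (nat_lit 26) (.e (nat_lit 147495) (nat_lit 11) (.e (nat_lit 24631) (nat_lit 9) (.e (nat_lit 336046) (nat_lit 6) (.e (nat_lit 147467) (nat_lit 9) .nil)))))) (.g (nat_lit 0) .nil .nil))) 
(.lf (nat_lit 7758) (.g (nat_lit 814) (.e (nat_lit 316) (nat_lit 23) (.e (nat_lit 352313) (nat_lit 23) (.e (nat_lit 106240) (nat_lit 16) (.e (nat_lit 401454) (nat_lit 12) (.e (nat_lit 483072) (nat_lit 0) .nil))))) .nil))) (.nd (nat_lit 6) 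
(.lf (nat_lit 7726) (.g (nat_lit 649) (.e (nat_lit 315) (nat_lit 23) (.e (nat_lit 352315) (nat_lit 23) (.e (nat_lit 98363) (nat_lit 26) .nil))) .nil)) 
(.lf (nat_lit 7790) (.g (nat_lit 1853) (.e (nat_lit 316) (nat_lit 23) (.e (nat_lit 352324) (nat_lit 26) (.e (nat_lit 147496) (nat_lit 11) (.e (nat_lit 24620) (nat_lit 8) .nil)))) .nil)))) (.nd (nat_lit 5) (.nd (nat_lit 6) 
(.lf (nat_lit 7710) (.g (nat_lit 877) (.e (nat_lit 315) (nat_lit 23) (.e (nat_lit 352309) (nat_lit 21) (.e (nat_lit 57655) (nat_lit 152) .nil))) .nil)) 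
(.lf (nat_lit 7774) (.g (nat_lit 1890) (.e (nat_lit 316) (nat_lit 23) (.e (nat_lit 352322) (nat_lit 26) (.e (nat_lit 147495) (nat_lit 11) (.e (nat_lit 24580) (nat_lit 0) (.e (nat_lit 6203) (nat_lit 332) .nil))))) .nil))) (.nd (nat_lit 6) 
(.lf (nat_lit 7742) (.g (nat_lit 706) (.e (nat_lit 316) (nat_lit 23) (.e (nat_lit 352307) (nat_lit 21) (.e (nat_lit 57655) (nat_lit 152) .nil))) .nil)) 
(.lf (nat_lit 7806) (.g (nat_lit 991) (.e (nat_lit 317) (nat_lit 23) (.e (nat_lit 352267) (nat_lit 0) (.e (nat_lit 3630) (nat_lit 227) (.e (nat_lit 778323) (nat_lit 5) (.e (nat_lit 73794) (nat_lit 46) (.e (nat_lit 57865) (nat_lit 256) .nil)))))) (.g (nat_lit 0) .nil .nil))))))))) (.nd (nat_lit 1) (.nd (nat_lit 2) (.nd (nat_lit 3) (.nd (nat_lit 4) (.nd (nat_lit 5) (.nd (nat_lit 6) 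
(.lf (nat_lit 7681) (.g (nat_lit 1962) (.e (nat_lit 314) (nat_lit 23) (.e (nat_lit 352322) (nat_lit 26) (.e (nat_lit 147496) (nat_lit 11) (.e (nat_lit 24584) (nat_lit 0) (.e (nat_lit 6113) (nat_lit 332) .nil))))) .nil)) 
(.lf (nat_lit 7745) (.g (nat_lit 1369) (.e (nat_lit 316) (nat_lit 23) (.e (nat_lit 352307) (nat_lit 21) (.e (nat_lit 57872) (nat_lit 264) (.e (nat_lit 1209) (nat_lit 89) .nil)))) .nil))) (.nd (nat_lit 6) 
(.lf (nat_lit 7713) (.g (nat_lit 1947) (.e (nat_lit 315) (nat_lit 23) (.e (nat_lit 352309) (nat_lit 21) (.e (nat_lit 57857) (nat_lit 254) (.e (nat_lit 163923) (nat_lit 15) (.e (nat_lit 450596) (nat_lit 17) .nil))))) .nil)) 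
(.lf (nat_lit 7777) (.g (nat_lit 1719) (.e (nat_lit 316) (nat_lit 23) (.e (nat_lit 352324) (nat_lit 26) (.e (nat_lit 147492) (nat_lit 11) (.e (nat_lit 24580) (nat_lit 0) (.e (nat_lit 6203) (nat_lit 332) .nil))))) .nil)))) (.nd (nat_lit 5) (.nd (nat_lit 6) 
(.lf (nat_lit 7697) (.g (nat_lit 420) (.e (nat_lit 314) (nat_lit 23) (.e (nat_lit 352324) (nat_lit 26) (.e (nat_lit 147496) (nat_lit 11) .nil))) .nil)) 
(.lf (nat_lit 7761) (.g (nat_lit 1753) (.e (nat_lit 316) (nat_lit 23) (.e (nat_lit 352315) (nat_lit 23) (.e (nat_lit 106240) (nat_lit 16) (.e (nat_lit 401454) (nat_lit 12) (.e (nat_lit 475140) (nat_lit 0) .nil))))) (.g (nat_lit 4) .nil .nil)))) (.nd (nat_lit 6) 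
(.lf (nat_lit 7729) (.g (nat_lit 1802) (.e (nat_lit 315) (nat_lit 23) (.e (nat_lit 352315) (nat_lit 23) (.e (nat_lit 98389) (nat_lit 33) (.e (nat_lit 491560) (nat_lit 10) (.e (nat_lit 344130) (nat_lit 26) (.e (nat_lit 557064) (nat_lit 9) .nil)))))) (.g (nat_lit 4) .nil .nil))) 
(.lf (nat_lit 7793) (.g (nat_lit 612) (.e (nat_lit 317) (nat_lit 23) (.e (nat_lit 352264) (nat_lit 0) (.e (nat_lit 3711) (nat_lit 227) (.e (nat_lit 778322) (nat_lit 5) (.e (nat_lit 73794) (nat_lit 46) (.e (nat_lit 57863) (nat_lit 256) .nil)))))) (.g (nat_lit 0) .nil .nil)))))) (.nd (nat_lit 4) (.nd (nat_lit 5) (.nd (nat_lit 6) 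
(.lf (nat_lit 7689) (.g (nat_lit 630) (.e (nat_lit 314) (nat_lit 23) (.e (nat_lit 352324) (nat_lit 26) (.e (nat_lit 147493) (nat_lit 11) .nil))) .nil)) 
(.lf (nat_lit 7753) (.g (nat_lit 903) (.e (nat_lit 316) (nat_lit 23) (.e (nat_lit 352309) (nat_lit 21) (.e (nat_lit 57873) (nat_lit 264) .nil))) .nil))) (.nd (nat_lit 6) 
(.lf (nat_lit 7721) (.g (nat_lit 606) (.e (nat_lit 315) (nat_lit 23) (.e (nat_lit 352315) (nat_lit 23) (.e (nat_lit 98325) (nat_lit 17) .nil))) .nil)) 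
(.lf (nat_lit 7785) (.g (nat_lit 1181) (.e (nat_lit 316) (nat_lit 23) (.e (nat_lit 352324) (nat_lit 26) (.e (nat_lit 147494) (nat_lit 11) (.e (nat_lit 24621) (nat_lit 8) .nil)))) .nil)))) (.nd (nat_lit 5) (.nd (nat_lit 6) 
(.lf (nat_lit 7705) (.g (nat_lit 1693) (.e (nat_lit 315) (nat_lit 23) (.e (nat_lit 352275) (nat_lit 11) (.e (nat_lit 426012) (nat_lit 0) (.e (nat_lit 7591) (nat_lit 407) (.e (nat_lit 73775) (nat_lit 26) .nil))))) .nil)) 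
(.lf (nat_lit 7769) (.g (nat_lit 464) (.e (nat_lit 316) (nat_lit 23) (.e (nat_lit 352322) (nat_lit 26) (.e (nat_lit 147492) (nat_lit 11) .nil))) .nil))) (.nd (nat_lit 6) 
(.lf (nat_lit 7737) (.g (nat_lit 583) (.e (nat_lit 316) (nat_lit 23) (.e (nat_lit 352287) (nat_lit 20) (.e (nat_lit 2383) (nat_lit 155) (.e (nat_lit 811028) (nat_lit 9) .nil)))) .nil)) 
(.lf (nat_lit 7801) (.g (nat_lit 362) (.e (nat_lit 317) (nat_lit 23) (.e (nat_lit 352264) (nat_lit 0) (.e (nat_lit 3716) (nat_lit 227) (.e (nat_lit 778322) (nat_lit 5) (.e (nat_lit 73794) (nat_lit 46) (.e (nat_lit 57863) (nat_lit 256) .nil)))))) (.g (nat_lit 0) .nil .nil))))))) (.nd (nat_lit 3) (.nd (nat_lit 4) (.nd (nat_lit 5) (.nd (nat_lit 6) 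
(.lf (nat_lit 7685) (.g (nat_lit 1418) (.e (nat_lit 314) (nat_lit 23) (.e (nat_lit 352324) (nat_lit 26) (.e (nat_lit 147463) (nat_lit 9) (.e (nat_lit 314) (nat_lit 23) (.e (nat_lit 352322) (nat_lit 26) .nil))))) .nil)) 
(.lf (nat_lit 7749) (.g (nat_lit 543) (.e (nat_lit 316) (nat_lit 23) (.e (nat_lit 352309) (nat_lit 21) (.e (nat_lit 57871) (nat_lit 264) .nil))) .nil))) (.nd (nat_lit 6) 
(.lf (nat_lit 7717) (.g (nat_lit 1051) (.e (nat_lit 315) (nat_lit 23) (.e (nat_lit 352315) (nat_lit 23) (.e (nat_lit 106240) (nat_lit 16) (.e (nat_lit 401454) (nat_lit 12) (.e (nat_lit 483072) (nat_lit 0) .nil))))) .nil)) 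
(.lf (nat_lit 7781) (.g (nat_lit 1198) (.e (nat_lit 316) (nat_lit 23) (.e (nat_lit 352324) (nat_lit 26) (.e (nat_lit 147494) (nat_lit 11) (.e (nat_lit 24580) (nat_lit 0) .nil)))) .nil)))) (.nd (nat_lit 5) (.nd (nat_lit 6) 
(.lf (nat_lit 7701) (.g (nat_lit 3560) (.e (nat_lit 314) (nat_lit 23) (.e (nat_lit 352324) (nat_lit 26) (.e (nat_lit 147496) (nat_lit 11) (.e (nat_lit 24631) (nat_lit 9) (.e (nat_lit 336046) (nat_lit 6) (.e (nat_lit 147467) (nat_lit 9) .nil)))))) (.g (nat_lit 0) .nil .nil))) 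
(.lf (nat_lit 7765) (.g (nat_lit 747) (.e (nat_lit 316) (nat_lit 23) (.e (nat_lit 352315) (nat_lit 23) (.e (nat_lit 98367) (nat_lit 27) .nil))) .nil))) (.nd (nat_lit 6) 
(.lf (nat_lit 7733) (.g (nat_lit 1843) (.e (nat_lit 316) (nat_lit 23) (.e (nat_lit 352267) (nat_lit 0) (.e (nat_lit 3305) (nat_lit 202) (.e (nat_lit 573484) (nat_lit 13) (.e (nat_lit 65617) (nat_lit 10) .nil))))) .nil)) 
(.lf (nat_lit 7797) (.g (nat_lit 494) (.e (nat_lit 317) (nat_lit 23) (.e (nat_lit 352264) (nat_lit 0) (.e (nat_lit 3714) (nat_lit 227) (.e (nat_lit 778322) (nat_lit 5) (.e (nat_lit 73794) (nat_lit 46) (.e (nat_lit 57865) (nat_lit 256) .nil)))))) (.g (nat_lit 0) .nil .nil)))))) (.nd (nat_lit 4) (.nd (nat_lit 5) (.nd (nat_lit 6) 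
(.lf (nat_lit 7693) (.g (nat_lit 2970) (.e (nat_lit 314) (nat_lit 23) (.e (nat_lit 352324) (nat_lit 26) (.e (nat_lit 147495) (nat_lit 11) (.e (nat_lit 24623) (nat_lit 9) (.e (nat_lit 336048) (nat_lit 6) (.e (nat_lit 147467) (nat_lit 9) .nil)))))) (.g (nat_lit 5) .nil .nil))) 
(.lf (nat_lit 7757) (.g (nat_lit 1528) (.e (nat_lit 316) (nat_lit 23) (.e (nat_lit 352313) (nat_lit 23) (.e (nat_lit 106240) (nat_lit 16) (.e (nat_lit 401454) (nat_lit 12) (.e (nat_lit 475140) (nat_lit 0) .nil))))) (.g (nat_lit 4) .nil .nil)))) (.nd (nat_lit 6) 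
(.lf (nat_lit 7725) (.g (nat_lit 1334) (.e (nat_lit 315) (nat_lit 23) (.e (nat_lit 352315) (nat_lit 23) (.e (nat_lit 98359) (nat_lit 26) (.e (nat_lit 433920) (nat_lit 20) .nil)))) .nil)) 
(.lf (nat_lit 7789) (.g (nat_lit 1696) (.e (nat_lit 316) (nat_lit 23) (.e (nat_lit 352324) (nat_lit 26) (.e (nat_lit 147495) (nat_lit 11) (.e (nat_lit 24622) (nat_lit 8) .nil)))) .nil)))) (.nd (nat_lit 5) (.nd (nat_lit 6) 
(.lf (nat_lit 7709) (.g (nat_lit 1986) (.e (nat_lit 315) (nat_lit 23) (.e (nat_lit 352275) (nat_lit 11) (.e (nat_lit 426344) (nat_lit 14) (.e (nat_lit 491560) (nat_lit 10) (.e (nat_lit 344179) (nat_lit 44) .nil))))) .nil)) 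
(.lf (nat_lit 7773) (.g (nat_lit 1956) (.e (nat_lit 316) (nat_lit 23) (.e (nat_lit 352322) (nat_lit 26) (.e (nat_lit 147495) (nat_lit 11) (.e (nat_lit 24580) (nat_lit 0) (.e (nat_lit 6155) (nat_lit 332) .nil))))) .nil))) (.nd (nat_lit 6) 
(.lf (nat_lit 7741) (.g (nat_lit 2720) (.e (nat_lit 316) (nat_lit 23) (.e (nat_lit 352297) (nat_lit 20) (.e (nat_lit 2391) (nat_lit 156) (.e (nat_lit 819219) (nat_lit 4) (.e (nat_lit 172094) (nat_lit 9) (.e (nat_lit 426125) (nat_lit 2) (.e (nat_lit 204544) (nat_lit 0) .nil))))))) (.g (nat_lit 6) .nil .nil))) 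
(.lf (nat_lit 7805) (.g (nat_lit 1019) (.e (nat_lit 317) (nat_lit 23) (.e (nat_lit 352267) (nat_lit 0) (.e (nat_lit 3630) (nat_lit 227) (.e (nat_lit 778323) (nat_lit 5) (.e (nat_lit 73794) (nat_lit 46) (.e (nat_lit 57863) (nat_lit 256) .nil)))))) (.g (nat_lit 0) .nil .nil)))))))) (.nd (nat_lit 2) (.nd (nat_lit 3) (.nd (nat_lit 4) (.nd (nat_lit 5) (.nd (nat_lit 6) 
(.lf (nat_lit 7683) (.g (nat_lit 2327) (.e (nat_lit 314) (nat_lit 23) (.e (nat_lit 352322) (nat_lit 26) (.e (nat_lit 147496) (nat_lit 11) (.e (nat_lit 24617) (nat_lit 7) (.e (nat_lit 327424) (nat_lit 3) (.e (nat_lit 40972) (nat_lit 9) .nil)))))) (.g (nat_lit 4) .nil .nil))) 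
(.lf (nat_lit 7747) (.g (nat_lit 743) (.e (nat_lit 316) (nat_lit 23) (.e (nat_lit 352309) (nat_lit 21) (.e (nat_lit 57848) (nat_lit 252) .nil))) .nil))) (.nd (nat_lit 6) 
(.lf (nat_lit 7715) (.g (nat_lit 465) (.e (nat_lit 315) (nat_lit 23) (.e (nat_lit 352312) (nat_lit 22) (.e (nat_lit 90133) (nat_lit 9) .nil))) .nil)) 
(.lf (nat_lit 7779) (.g (nat_lit 1103) (.e (nat_lit 316) (nat_lit 23) (.e (nat_lit 352324) (nat_lit 26) (.e (nat_lit 147492) (nat_lit 11) (.e (nat_lit 24622) (nat_lit 8) .nil)))) .nil)))) (.nd (nat_lit 5) (.nd (nat_lit 6) 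
(.lf (nat_lit 7699) (.g (nat_lit 2915) (.e (nat_lit 314) (nat_lit 23) (.e (nat_lit 352324) (nat_lit 26) (.e (nat_lit 147496) (nat_lit 11) (.e (nat_lit 24584) (nat_lit 0) (.e (nat_lit 6113) (nat_lit 332) (.e (nat_lit 2584) (nat_lit 161) (.e (nat_lit 40972) (nat_lit 9) .nil))))))) (.g (nat_lit 5) .nil .nil))) 
(.lf (nat_lit 7763) (.g (nat_lit 990) (.e (nat_lit 316) (nat_lit 23) (.e (nat_lit 352315) (nat_lit 23) (.e (nat_lit 98319) (nat_lit 17) (.e (nat_lit 7593) (nat_lit 407) .nil)))) .nil))) (.nd (nat_lit 6) 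
(.lf (nat_lit 7731) (.g (nat_lit 770) (.e (nat_lit 315) (nat_lit 23) (.e (nat_lit 352321) (nat_lit 25) (.e (nat_lit 139276) (nat_lit 2) (.e (nat_lit 16461) (nat_lit 12) (.e (nat_lit 483072) (nat_lit 0) .nil))))) (.g (nat_lit 4) .nil .nil))) 
(.lf (nat_lit 7795) (.g (nat_lit 350) (.e (nat_lit 317) (nat_lit 23) (.e (nat_lit 352264) (nat_lit 0) (.e (nat_lit 3711) (nat_lit 227) (.e (nat_lit 786176) (nat_lit 5) .nil)))) .nil))))) (.nd (nat_lit 4) (.nd (nat_lit 5) (.nd (nat_lit 6) 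
(.lf (nat_lit 7691) (.g (nat_lit 472) (.e (nat_lit 314) (nat_lit 23) (.e (nat_lit 352324) (nat_lit 26) (.e (nat_lit 147495) (nat_lit 11) .nil))) .nil)) 
(.lf (nat_lit 7755) (.g (nat_lit 677) (.e (nat_lit 316) (nat_lit 23) (.e (nat_lit 352312) (nat_lit 22) (.e (nat_lit 98048) (nat_lit 2) (.e (nat_lit 16461) (nat_lit 12) (.e (nat_lit 483072) (nat_lit 0) .nil))))) (.g (nat_lit 4) .nil .nil)))) (.nd (nat_lit 6) 
(.lf (nat_lit 7723) (.g (nat_lit 2217) (.e (nat_lit 315) (nat_lit 23) (.e (nat_lit 352315) (nat_lit 23) (.e (nat_lit 98356) (nat_lit 26) (.e (nat_lit 426448) (nat_lit 20) (.e (nat_lit 114715) (nat_lit 22) .nil))))) .nil)) 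
(.lf (nat_lit 7787) (.g (nat_lit 1714) (.e (nat_lit 316) (nat_lit 23) (.e (nat_lit 352324) (nat_lit 26) (.e (nat_lit 147495) (nat_lit 11) (.e (nat_lit 24580) (nat_lit 0) .nil)))) .nil)))) (.nd (nat_lit 5) (.nd (nat_lit 6) 
(.lf (nat_lit 7707) (.g (nat_lit 1896) (.e (nat_lit 315) (nat_lit 23) (.e (nat_lit 352275) (nat_lit 11) (.e (nat_lit 426343) (nat_lit 14) (.e (nat_lit 491546) (nat_lit 9) .nil)))) .nil)) 
(.lf (nat_lit 7771) (.g (nat_lit 1954) (.e (nat_lit 316) (nat_lit 23) (.e (nat_lit 352322) (nat_lit 26) (.e (nat_lit 147495) (nat_lit 11) (.e (nat_lit 24580) (nat_lit 0) (.e (nat_lit 6152) (nat_lit 332) .nil))))) .nil))) (.nd (nat_lit 6) 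
(.lf (nat_lit 7739) (.g (nat_lit 1728) (.e (nat_lit 316) (nat_lit 23) (.e (nat_lit 352297) (nat_lit 20) (.e (nat_lit 1841) (nat_lit 123) (.e (nat_lit 548889) (nat_lit 9) (.e (nat_lit 65617) (nat_lit 10) (.e (nat_lit 344127) (nat_lit 26) (.e (nat_lit 557080) (nat_lit 9) .nil))))))) (.g (nat_lit 6) .nil .nil))) 
(.lf (nat_lit 7803) (.g (nat_lit 1025) (.e (nat_lit 317) (nat_lit 23) (.e (nat_lit 352267) (nat_lit 0) (.e (nat_lit 3629) (nat_lit 227) (.e (nat_lit 778323) (nat_lit 5) (.e (nat_lit 73794) (nat_lit 46) (.e (nat_lit 57863) (nat_lit 256) .nil)))))) (.g (nat_lit 0) .nil .nil))))))) (.nd (nat_lit 3) (.nd (nat_lit 4) (.nd (nat_lit 5) (.nd (nat_lit 6) 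
(.lf (nat_lit 7687) (.g (nat_lit 529) (.e (nat_lit 314) (nat_lit 23) (.e (nat_lit 352324) (nat_lit 26) (.e (nat_lit 147491) (nat_lit 10) .nil))) .nil)) 
(.lf (nat_lit 7751) (.g (nat_lit 2207) (.e (nat_lit 316) (nat_lit 23) (.e (nat_lit 352309) (nat_lit 21) (.e (nat_lit 57872) (nat_lit 264) (.e (nat_lit 1209) (nat_lit 89) (.e (nat_lit 73794) (nat_lit 46) .nil))))) .nil))) (.nd (nat_lit 6) 
(.lf (nat_lit 7719) (.g (nat_lit 2787) (.e (nat_lit 315) (nat_lit 23) (.e (nat_lit 352315) (nat_lit 23) (.e (nat_lit 98319) (nat_lit 17) (.e (nat_lit 7593) (nat_lit 407) (.e (nat_lit 73754) (nat_lit 8) (.e (nat_lit 557064) (nat_lit 9) .nil)))))) (.g (nat_lit 0) .nil .nil))) 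
(.lf (nat_lit 7783) (.g (nat_lit 1850) (.e (nat_lit 316) (nat_lit 23) (.e (nat_lit 352324) (nat_lit 26) (.e (nat_lit 147494) (nat_lit 11) (.e (nat_lit 24580) (nat_lit 0) (.e (nat_lit 6155) (nat_lit 332) .nil))))) .nil)))) (.nd (nat_lit 5) (.nd (nat_lit 6) 
(.lf (nat_lit 7703) (.g (nat_lit 925) (.e (nat_lit 315) (nat_lit 23) (.e (nat_lit 352275) (nat_lit 11) (.e (nat_lit 426010) (nat_lit 0) (.e (nat_lit 7593) (nat_lit 407) .nil)))) .nil)) 
(.lf (nat_lit 7767) (.g (nat_lit 569) (.e (nat_lit 316) (nat_lit 23) (.e (nat_lit 352319) (nat_lit 25) (.e (nat_lit 139276) (nat_lit 2) (.e (nat_lit 16461) (nat_lit 12) (.e (nat_lit 483072) (nat_lit 0) .nil))))) (.g (nat_lit 4) .nil .nil)))) (.nd (nat_lit 6) 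
(.lf (nat_lit 7735) (.g (nat_lit 601) (.e (nat_lit 316) (nat_lit 23) (.e (nat_lit 352287) (nat_lit 20) (.e (nat_lit 1994) (nat_lit 137) (.e (nat_lit 663567) (nat_lit 4) .nil)))) .nil)) 
(.lf (nat_lit 7799) (.g (nat_lit 626) (.e (nat_lit 317) (nat_lit 23) (.e (nat_lit 352264) (nat_lit 0) (.e (nat_lit 3715) (nat_lit 227) (.e (nat_lit 778322) (nat_lit 5) (.e (nat_lit 73794) (nat_lit 46) (.e (nat_lit 57863) (nat_lit 256) .nil)))))) (.g (nat_lit 0) .nil .nil)))))) (.nd (nat_lit 4) (.nd (nat_lit 5) (.nd (nat_lit 6) 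
(.lf (nat_lit 7695) (.g (nat_lit 1274) (.e (nat_lit 314) (nat_lit 23) (.e (nat_lit 352324) (nat_lit 26) (.e (nat_lit 147495) (nat_lit 11) (.e (nat_lit 24632) (nat_lit 9) .nil)))) .nil)) 
(.lf (nat_lit 7759) (.g (nat_lit 2400) (.e (nat_lit 316) (nat_lit 23) (.e (nat_lit 352313) (nat_lit 23) (.e (nat_lit 98350) (nat_lit 24) (.e (nat_lit 409649) (nat_lit 18) (.e (nat_lit 303111) (nat_lit 0) .nil))))) .nil))) (.nd (nat_lit 6) 
(.lf (nat_lit 7727) (.g (nat_lit 1060) (.e (nat_lit 315) (nat_lit 23) (.e (nat_lit 352315) (nat_lit 23) (.e (nat_lit 98389) (nat_lit 33) (.e (nat_lit 491558) (nat_lit 10) .nil)))) .nil)) 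
(.lf (nat_lit 7791) (.g (nat_lit 1448) (.e (nat_lit 316) (nat_lit 23) (.e (nat_lit 352324) (nat_lit 26) (.e (nat_lit 147512) (nat_lit 14) (.e (nat_lit 2807) (nat_lit 180) (.e (nat_lit 303131) (nat_lit 9) .nil))))) .nil)))) (.nd (nat_lit 5) (.nd (nat_lit 6) 
(.lf (nat_lit 7711) (.g (nat_lit 1724) (.e (nat_lit 315) (nat_lit 23) (.e (nat_lit 352309) (nat_lit 21) (.e (nat_lit 57655) (nat_lit 152) (.e (nat_lit 1216) (nat_lit 90) .nil)))) .nil)) 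
(.lf (nat_lit 7775) (.g (nat_lit 1251) (.e (nat_lit 316) (nat_lit 23) (.e (nat_lit 352322) (nat_lit 26) (.e (nat_lit 147495) (nat_lit 11) (.e (nat_lit 24620) (nat_lit 8) .nil)))) .nil))) (.nd (nat_lit 6) 
(.lf (nat_lit 7743) (.g (nat_lit 725) (.e (nat_lit 316) (nat_lit 23) (.e (nat_lit 352307) (nat_lit 21) (.e (nat_lit 57681) (nat_lit 155) .nil))) .nil)) 
(.lf (nat_lit 7807) (.g (nat_lit 1465) (.e (nat_lit 317) (nat_lit 23) (.e (nat_lit 352267) (nat_lit 0) (.e (nat_lit 3631) (nat_lit 227) (.e (nat_lit 778323) (nat_lit 5) (.e (nat_lit 73794) (nat_lit 46) (.e (nat_lit 57863) (nat_lit 256) .nil)))))) (.g (nat_lit 0) .nil .nil))))))))))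

noncomputable def tv108 : DT := (.nd (nat_lit 0) (.nd (nat_lit 1) (.nd (nat_lit 2) (.nd (nat_lit 3) (.nd (nat_lit 4) (.nd (nat_lit 5) 
(.lf (nat_lit 7808) (.g (nat_lit 1440) (.e (nat_lit 317) (nat_lit 23) (.e (nat_lit 352267) (nat_lit 0) (.e (nat_lit 3631) (nat_lit 227) (.e (nat_lit 778323) (nat_lit 5) (.e (nat_lit 73794) (nat_lit 46) (.e (nat_lit 57865) (nat_lit 256) .nil)))))) (.g (nat_lit 0) .nil .nil))) 
(.lf (nat_lit 7840) (.g (nat_lit 696) (.e (nat_lit 317) (nat_lit 23) (.e (nat_lit 352297) (nat_lit 20) (.e (nat_lit 2003) (nat_lit 138) (.e (nat_lit 671763) (nat_lit 5) (.e (nat_lit 73794) (nat_lit 46) (.e (nat_lit 57862) (nat_lit 256) .nil)))))) (.g (nat_lit 0) .nil .nil)))) (.nd (nat_lit 5) 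
(.lf (nat_lit 7824) (.g (nat_lit 679) (.e (nat_lit 317) (nat_lit 23) (.e (nat_lit 352285) (nat_lit 20) (.e (nat_lit 1999) (nat_lit 137) (.e (nat_lit 663568) (nat_lit 5) (.e (nat_lit 73794) (nat_lit 46) (.e (nat_lit 57865) (nat_lit 256) .nil)))))) (.g (nat_lit 5) .nil .nil))) 
(.lf (nat_lit 7856) (.g (nat_lit 1819) (.e (nat_lit 317) (nat_lit 23) (.e (nat_lit 352307) (nat_lit 21) (.e (nat_lit 57871) (nat_lit 264) (.e (nat_lit 1209) (nat_lit 89) (.e (nat_lit 73794) (nat_lit 46) (.e (nat_lit 57865) (nat_lit 256) .nil)))))) (.g (nat_lit 0) .nil .nil))))) (.nd (nat_lit 4) (.nd (nat_lit 5) 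
(.lf (nat_lit 7816) (.g (nat_lit 1062) (.e (nat_lit 317) (nat_lit 23) (.e (nat_lit 352275) (nat_lit 11) (.e (nat_lit 426344) (nat_lit 14) (.e (nat_lit 491560) (nat_lit 10) .nil)))) .nil)) 
(.lf (nat_lit 7848) (.g (nat_lit 786) (.e (nat_lit 317) (nat_lit 23) (.e (nat_lit 352297) (nat_lit 20) (.e (nat_lit 2006) (nat_lit 138) (.e (nat_lit 671763) (nat_lit 5) (.e (nat_lit 73794) (nat_lit 46) (.e (nat_lit 57863) (nat_lit 256) .nil)))))) (.g (nat_lit 0) .nil .nil)))) (.nd (nat_lit 5) 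
(.lf (nat_lit 7832) (.g (nat_lit 856) (.e (nat_lit 317) (nat_lit 23) (.e (nat_lit 352287) (nat_lit 20) (.e (nat_lit 1998) (nat_lit 137) (.e (nat_lit 663554) (nat_lit 0) (.e (nat_lit 1603) (nat_lit 112) .nil))))) .nil)) 
(.lf (nat_lit 7864) (.g (nat_lit 1924) (.e (nat_lit 317) (nat_lit 23) (.e (nat_lit 352307) (nat_lit 21) (.e (nat_lit 57873) (nat_lit 264) (.e (nat_lit 1211) (nat_lit 89) (.e (nat_lit 73794) (nat_lit 46) (.e (nat_lit 57864) (nat_lit 256) .nil)))))) (.g (nat_lit 6) .nil .nil)))))) (.nd (nat_lit 3) (.nd (nat_lit 4) (.nd (nat_lit 5) 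
(.lf (nat_lit 7812) (.g (nat_lit 477) (.e (nat_lit 317) (nat_lit 23) (.e (nat_lit 352275) (nat_lit 11) (.e (nat_lit 426342) (nat_lit 14) .nil))) .nil)) 
(.lf (nat_lit 7844) (.g (nat_lit 555) (.e (nat_lit 317) (nat_lit 23) (.e (nat_lit 352297) (nat_lit 20) (.e (nat_lit 2004) (nat_lit 138) (.e (nat_lit 671763) (nat_lit 5) (.e (nat_lit 73794) (nat_lit 46) (.e (nat_lit 57865) (nat_lit 256) .nil)))))) (.g (nat_lit 0) .nil .nil)))) (.nd (nat_lit 5) 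
(.lf (nat_lit 7828) (.g (nat_lit 772) (.e (nat_lit 317) (nat_lit 23) (.e (nat_lit 352287) (nat_lit 20) (.e (nat_lit 1994) (nat_lit 137) (.e (nat_lit 663568) (nat_lit 5) (.e (nat_lit 73794) (nat_lit 46) (.e (nat_lit 57865) (nat_lit 256) .nil)))))) (.g (nat_lit 0) .nil .nil))) 
(.lf (nat_lit 7860) (.g (nat_lit 2192) (.e (nat_lit 317) (nat_lit 23) (.e (nat_lit 352307) (nat_lit 21) (.e (nat_lit 57873) (nat_lit 264) (.e (nat_lit 1209) (nat_lit 89) (.e (nat_lit 73794) (nat_lit 46) (.e (nat_lit 57863) (nat_lit 256) .nil)))))) (.g (nat_lit 0) .nil .nil))))) (.nd (nat_lit 4) (.nd (nat_lit 5) 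
(.lf (nat_lit 7820) (.g (nat_lit 476) (.e (nat_lit 317) (nat_lit 23) (.e (nat_lit 352285) (nat_lit 20) (.e (nat_lit 1998) (nat_lit 137) (.e (nat_lit 663568) (nat_lit 5) (.e (nat_lit 73794) (nat_lit 46) (.e (nat_lit 57865) (nat_lit 256) .nil)))))) (.g (nat_lit 5) .nil .nil))) 
(.lf (nat_lit 7852) (.g (nat_lit 1582) (.e (nat_lit 317) (nat_lit 23) (.e (nat_lit 352307) (nat_lit 21) (.e (nat_lit 57870) (nat_lit 264) (.e (nat_lit 1209) (nat_lit 89) (.e (nat_lit 73794) (nat_lit 46) (.e (nat_lit 57863) (nat_lit 256) .nil)))))) (.g (nat_lit 0) .nil .nil)))) (.nd (nat_lit 5) 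
(.lf (nat_lit 7836) (.g (nat_lit 2393) (.e (nat_lit 317) (nat_lit 23) (.e (nat_lit 352287) (nat_lit 20) (.e (nat_lit 1999) (nat_lit 137) (.e (nat_lit 663567) (nat_lit 4) (.e (nat_lit 65583) (nat_lit 7) (.e (nat_lit 319506) (nat_lit 10) (.e (nat_lit 5723) (nat_lit 312) .nil))))))) (.g (nat_lit 7) .nil .nil))) 
(.lf (nat_lit 7868) (.g (nat_lit 1513) (.e (nat_lit 317) (nat_lit 23) (.e (nat_lit 352308) (nat_lit 21) (.e (nat_lit 57872) (nat_lit 264) (.e (nat_lit 1209) (nat_lit 89) (.e (nat_lit 73794) (nat_lit 46) .nil))))) .nil)))))) (.nd (nat_lit 2) (.nd (nat_lit 3) (.nd (nat_lit 4) (.nd (nat_lit 5) 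
(.lf (nat_lit 7810) (.g (nat_lit 2011) (.e (nat_lit 317) (nat_lit 23) (.e (nat_lit 352267) (nat_lit 0) (.e (nat_lit 3632) (nat_lit 227) (.e (nat_lit 778323) (nat_lit 5) (.e (nat_lit 73794) (nat_lit 46) (.e (nat_lit 57865) (nat_lit 256) .nil)))))) (.g (nat_lit 0) .nil .nil))) 
(.lf (nat_lit 7842) (.g (nat_lit 656) (.e (nat_lit 317) (nat_lit 23) (.e (nat_lit 352297) (nat_lit 20) (.e (nat_lit 2003) (nat_lit 138) (.e (nat_lit 671763) (nat_lit 5) (.e (nat_lit 73794) (nat_lit 46) (.e (nat_lit 57865) (nat_lit 256) .nil)))))) (.g (nat_lit 0) .nil .nil)))) (.nd (nat_lit 5) 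
(.lf (nat_lit 7826) (.g (nat_lit 2313) (.e (nat_lit 317) (nat_lit 23) (.e (nat_lit 352287) (nat_lit 20) (.e (nat_lit 1994) (nat_lit 137) (.e (nat_lit 663567) (nat_lit 4) (.e (nat_lit 65583) (nat_lit 7) (.e (nat_lit 319506) (nat_lit 10) (.e (nat_lit 5722) (nat_lit 312) .nil))))))) (.g (nat_lit 6) .nil .nil))) 
(.lf (nat_lit 7858) (.g (nat_lit 1935) (.e (nat_lit 317) (nat_lit 23) (.e (nat_lit 352307) (nat_lit 21) (.e (nat_lit 57872) (nat_lit 264) (.e (nat_lit 1209) (nat_lit 89) (.e (nat_lit 73794) (nat_lit 46) (.e (nat_lit 57865) (nat_lit 256) .nil)))))) (.g (nat_lit 0) .nil .nil))))) (.nd (nat_lit 4) (.nd (nat_lit 5) 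
(.lf (nat_lit 7818) (.g (nat_lit 496) (.e (nat_lit 317) (nat_lit 23) (.e (nat_lit 352285) (nat_lit 20) (.e (nat_lit 1998) (nat_lit 137) (.e (nat_lit 663568) (nat_lit 5) (.e (nat_lit 73794) (nat_lit 46) (.e (nat_lit 57863) (nat_lit 256) .nil)))))) (.g (nat_lit 5) .nil .nil))) 
(.lf (nat_lit 7850) (.g (nat_lit 152) (.e (nat_lit 317) (nat_lit 23) (.e (nat_lit 352303) (nat_lit 20) (.e (nat_lit 2005) (nat_lit 138) .nil))) .nil))) (.nd (nat_lit 5) 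
(.lf (nat_lit 7834) (.g (nat_lit 680) (.e (nat_lit 317) (nat_lit 23) (.e (nat_lit 352287) (nat_lit 20) (.e (nat_lit 1998) (nat_lit 137) (.e (nat_lit 663568) (nat_lit 5) (.e (nat_lit 73794) (nat_lit 46) (.e (nat_lit 57863) (nat_lit 256) .nil)))))) (.g (nat_lit 0) .nil .nil))) 
(.lf (nat_lit 7866) (.g (nat_lit 1291) (.e (nat_lit 317) (nat_lit 23) (.e (nat_lit 352308) (nat_lit 21) (.e (nat_lit 57870) (nat_lit 264) (.e (nat_lit 1209) (nat_lit 89) (.e (nat_lit 73794) (nat_lit 46) (.e (nat_lit 57863) (nat_lit 256) .nil)))))) (.g (nat_lit 5) .nil .nil)))))) (.nd (nat_lit 3) (.nd (nat_lit 4) (.nd (nat_lit 5) 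
(.lf (nat_lit 7814) (.g (nat_lit 2775) (.e (nat_lit 317) (nat_lit 23) (.e (nat_lit 352275) (nat_lit 11) (.e (nat_lit 426343) (nat_lit 14) (.e (nat_lit 491560) (nat_lit 10) (.e (nat_lit 352000) (nat_lit 44) .nil))))) .nil)) 
(.lf (nat_lit 7846) (.g (nat_lit 616) (.e (nat_lit 317) (nat_lit 23) (.e (nat_lit 352297) (nat_lit 20) (.e (nat_lit 2005) (nat_lit 138) (.e (nat_lit 671763) (nat_lit 5) (.e (nat_lit 73794) (nat_lit 46) (.e (nat_lit 57863) (nat_lit 256) .nil)))))) (.g (nat_lit 0) .nil .nil)))) (.nd (nat_lit 5) 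
(.lf (nat_lit 7830) (.g (nat_lit 651) (.e (nat_lit 317) (nat_lit 23) (.e (nat_lit 352287) (nat_lit 20) (.e (nat_lit 1996) (nat_lit 137) (.e (nat_lit 663568) (nat_lit 5) (.e (nat_lit 73794) (nat_lit 46) (.e (nat_lit 57863) (nat_lit 256) .nil)))))) (.g (nat_lit 0) .nil .nil))) 
(.lf (nat_lit 7862) (.g (nat_lit 1934) (.e (nat_lit 317) (nat_lit 23) (.e (nat_lit 352307) (nat_lit 21) (.e (nat_lit 57873) (nat_lit 264) (.e (nat_lit 1211) (nat_lit 89) (.e (nat_lit 73794) (nat_lit 46) (.e (nat_lit 57862) (nat_lit 256) .nil)))))) (.g (nat_lit 6) .nil .nil))))) (.nd (nat_lit 4) (.nd (nat_lit 5) 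
(.lf (nat_lit 7822) (.g (nat_lit 696) (.e (nat_lit 317) (nat_lit 23) (.e (nat_lit 352285) (nat_lit 20) (.e (nat_lit 1999) (nat_lit 137) (.e (nat_lit 663568) (nat_lit 5) (.e (nat_lit 73794) (nat_lit 46) (.e (nat_lit 57863) (nat_lit 256) .nil)))))) (.g (nat_lit 5) .nil .nil))) 
(.lf (nat_lit 7854) (.g (nat_lit 1333) (.e (nat_lit 317) (nat_lit 23) (.e (nat_lit 352307) (nat_lit 21) (.e (nat_lit 57870) (nat_lit 264) (.e (nat_lit 1211) (nat_lit 89) (.e (nat_lit 73794) (nat_lit 46) .nil))))) .nil))) (.nd (nat_lit 5) 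
(.lf (nat_lit 7838) (.g (nat_lit 1012) (.e (nat_lit 317) (nat_lit 23) (.e (nat_lit 352287) (nat_lit 20) (.e (nat_lit 1999) (nat_lit 137) (.e (nat_lit 663568) (nat_lit 5) (.e (nat_lit 73794) (nat_lit 46) (.e (nat_lit 57865) (nat_lit 256) .nil)))))) (.g (nat_lit 0) .nil .nil))) 
(.lf (nat_lit 7870) (.g (nat_lit 1623) (.e (nat_lit 317) (nat_lit 23) (.e (nat_lit 352309) (nat_lit 21) (.e (nat_lit 57870) (nat_lit 264) (.e (nat_lit 1209) (nat_lit 89) (.e (nat_lit 73794) (nat_lit 46) .nil))))) .nil))))))) (.nd (nat_lit 1) (.nd (nat_lit 2) (.nd (nat_lit 3) (.nd (nat_lit 4) (.nd (nat_lit 5) 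
(.lf (nat_lit 7809) (.g (nat_lit 2036) (.e (nat_lit 317) (nat_lit 23) (.e (nat_lit 352267) (nat_lit 0) (.e (nat_lit 3632) (nat_lit 227) (.e (nat_lit 778323) (nat_lit 5) (.e (nat_lit 73794) (nat_lit 46) (.e (nat_lit 57863) (nat_lit 256) .nil)))))) (.g (nat_lit 0) .nil .nil))) 
(.lf (nat_lit 7841) (.g (nat_lit 688) (.e (nat_lit 317) (nat_lit 23) (.e (nat_lit 352297) (nat_lit 20) (.e (nat_lit 2003) (nat_lit 138) (.e (nat_lit 671763) (nat_lit 5) (.e (nat_lit 73794) (nat_lit 46) (.e (nat_lit 57863) (nat_lit 256) .nil)))))) (.g (nat_lit 0) .nil .nil)))) (.nd (nat_lit 5) 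
(.lf (nat_lit 7825) (.g (nat_lit 1287) (.e (nat_lit 317) (nat_lit 23) (.e (nat_lit 352285) (nat_lit 20) (.e (nat_lit 2384) (nat_lit 155) (.e (nat_lit 811029) (nat_lit 9) (.e (nat_lit 303131) (nat_lit 9) (.e (nat_lit 426125) (nat_lit 2) (.e (nat_lit 204544) (nat_lit 0) .nil))))))) (.g (nat_lit 6) .nil .nil))) 
(.lf (nat_lit 7857) (.g (nat_lit 1961) (.e (nat_lit 317) (nat_lit 23) (.e (nat_lit 352307) (nat_lit 21) (.e (nat_lit 57872) (nat_lit 264) (.e (nat_lit 1209) (nat_lit 89) (.e (nat_lit 73794) (nat_lit 46) (.e (nat_lit 57863) (nat_lit 256) .nil)))))) (.g (nat_lit 0) .nil .nil))))) (.nd (nat_lit 4) (.nd (nat_lit 5) 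
(.lf (nat_lit 7817) (.g (nat_lit 513) (.e (nat_lit 317) (nat_lit 23) (.e (nat_lit 352285) (nat_lit 20) (.e (nat_lit 1998) (nat_lit 137) (.e (nat_lit 663568) (nat_lit 5) (.e (nat_lit 73794) (nat_lit 46) (.e (nat_lit 57862) (nat_lit 256) .nil)))))) (.g (nat_lit 5) .nil .nil))) 
(.lf (nat_lit 7849) (.g (nat_lit 743) (.e (nat_lit 317) (nat_lit 23) (.e (nat_lit 352297) (nat_lit 20) (.e (nat_lit 2006) (nat_lit 138) (.e (nat_lit 671763) (nat_lit 5) (.e (nat_lit 73794) (nat_lit 46) (.e (nat_lit 57865) (nat_lit 256) .nil)))))) (.g (nat_lit 0) .nil .nil)))) (.nd (nat_lit 5) 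
(.lf (nat_lit 7833) (.g (nat_lit 2045) (.e (nat_lit 317) (nat_lit 23) (.e (nat_lit 352287) (nat_lit 20) (.e (nat_lit 1998) (nat_lit 137) (.e (nat_lit 663567) (nat_lit 4) (.e (nat_lit 65583) (nat_lit 7) (.e (nat_lit 319506) (nat_lit 10) (.e (nat_lit 5722) (nat_lit 312) .nil))))))) (.g (nat_lit 6) .nil .nil))) 
(.lf (nat_lit 7865) (.g (nat_lit 1880) (.e (nat_lit 317) (nat_lit 23) (.e (nat_lit 352307) (nat_lit 21) (.e (nat_lit 57873) (nat_lit 264) (.e (nat_lit 1211) (nat_lit 89) (.e (nat_lit 73794) (nat_lit 46) (.e (nat_lit 57865) (nat_lit 256) .nil)))))) (.g (nat_lit 6) .nil .nil)))))) (.nd (nat_lit 3) (.nd (nat_lit 4) (.nd (nat_lit 5) 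
(.lf (nat_lit 7813) (.g (nat_lit 2618) (.e (nat_lit 317) (nat_lit 23) (.e (nat_lit 352275) (nat_lit 11) (.e (nat_lit 426343) (nat_lit 14) (.e (nat_lit 491558) (nat_lit 10) (.e (nat_lit 352000) (nat_lit 44) .nil))))) .nil)) 
(.lf (nat_lit 7845) (.g (nat_lit 620) (.e (nat_lit 317) (nat_lit 23) (.e (nat_lit 352297) (nat_lit 20) (.e (nat_lit 2005) (nat_lit 138) (.e (nat_lit 671763) (nat_lit 5) (.e (nat_lit 73794) (nat_lit 46) (.e (nat_lit 57862) (nat_lit 256) .nil)))))) (.g (nat_lit 0) .nil .nil)))) (.nd (nat_lit 5) 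
(.lf (nat_lit 7829) (.g (nat_lit 2113) (.e (nat_lit 317) (nat_lit 23) (.e (nat_lit 352287) (nat_lit 20) (.e (nat_lit 1996) (nat_lit 137) (.e (nat_lit 663567) (nat_lit 4) (.e (nat_lit 65583) (nat_lit 7) (.e (nat_lit 319506) (nat_lit 10) (.e (nat_lit 5722) (nat_lit 312) .nil))))))) (.g (nat_lit 6) .nil .nil))) 
(.lf (nat_lit 7861) (.g (nat_lit 2160) (.e (nat_lit 317) (nat_lit 23) (.e (nat_lit 352307) (nat_lit 21) (.e (nat_lit 57873) (nat_lit 264) (.e (nat_lit 1209) (nat_lit 89) (.e (nat_lit 73794) (nat_lit 46) (.e (nat_lit 57865) (nat_lit 256) .nil)))))) (.g (nat_lit 0) .nil .nil))))) (.nd (nat_lit 4) (.nd (nat_lit 5) 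
(.lf (nat_lit 7821) (.g (nat_lit 2041) (.e (nat_lit 317) (nat_lit 23) (.e (nat_lit 352285) (nat_lit 20) (.e (nat_lit 1999) (nat_lit 137) (.e (nat_lit 663567) (nat_lit 4) (.e (nat_lit 65583) (nat_lit 7) (.e (nat_lit 319506) (nat_lit 10) (.e (nat_lit 5723) (nat_lit 312) .nil))))))) (.g (nat_lit 6) .nil .nil))) 
(.lf (nat_lit 7853) (.g (nat_lit 1540) (.e (nat_lit 317) (nat_lit 23) (.e (nat_lit 352307) (nat_lit 21) (.e (nat_lit 57870) (nat_lit 264) (.e (nat_lit 1209) (nat_lit 89) (.e (nat_lit 73794) (nat_lit 46) (.e (nat_lit 57865) (nat_lit 256) .nil)))))) (.g (nat_lit 0) .nil .nil)))) (.nd (nat_lit 5) 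
(.lf (nat_lit 7837) (.g (nat_lit 1039) (.e (nat_lit 317) (nat_lit 23) (.e (nat_lit 352287) (nat_lit 20) (.e (nat_lit 1999) (nat_lit 137) (.e (nat_lit 663568) (nat_lit 5) (.e (nat_lit 73794) (nat_lit 46) (.e (nat_lit 57863) (nat_lit 256) .nil)))))) (.g (nat_lit 0) .nil .nil))) 
(.lf (nat_lit 7869) (.g (nat_lit 595) (.e (nat_lit 317) (nat_lit 23) (.e (nat_lit 352309) (nat_lit 21) (.e (nat_lit 57870) (nat_lit 264) .nil))) .nil)))))) (.nd (nat_lit 2) (.nd (nat_lit 3) (.nd (nat_lit 4) (.nd (nat_lit 5) 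
(.lf (nat_lit 7811) (.g (nat_lit 1194) (.e (nat_lit 317) (nat_lit 23) (.e (nat_lit 352275) (nat_lit 11) (.e (nat_lit 426341) (nat_lit 14) (.e (nat_lit 491560) (nat_lit 10) .nil)))) .nil)) 
(.lf (nat_lit 7843) (.g (nat_lit 589) (.e (nat_lit 317) (nat_lit 23) (.e (nat_lit 352297) (nat_lit 20) (.e (nat_lit 2004) (nat_lit 138) (.e (nat_lit 671763) (nat_lit 5) (.e (nat_lit 73794) (nat_lit 46) (.e (nat_lit 57863) (nat_lit 256) .nil)))))) (.g (nat_lit 0) .nil .nil)))) (.nd (nat_lit 5) 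
(.lf (nat_lit 7827) (.g (nat_lit 799) (.e (nat_lit 317) (nat_lit 23) (.e (nat_lit 352287) (nat_lit 20) (.e (nat_lit 1994) (nat_lit 137) (.e (nat_lit 663568) (nat_lit 5) (.e (nat_lit 73794) (nat_lit 46) (.e (nat_lit 57863) (nat_lit 256) .nil)))))) (.g (nat_lit 0) .nil .nil))) 
(.lf (nat_lit 7859) (.g (nat_lit 1573) (.e (nat_lit 317) (nat_lit 23) (.e (nat_lit 352307) (nat_lit 21) (.e (nat_lit 57872) (nat_lit 264) (.e (nat_lit 1211) (nat_lit 89) (.e (nat_lit 73794) (nat_lit 46) .nil))))) .nil)))) (.nd (nat_lit 4) (.nd (nat_lit 5) 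
(.lf (nat_lit 7819) (.g (nat_lit 518) (.e (nat_lit 317) (nat_lit 23) (.e (nat_lit 352285) (nat_lit 20) (.e (nat_lit 1998) (nat_lit 137) (.e (nat_lit 663568) (nat_lit 5) (.e (nat_lit 73794) (nat_lit 46) (.e (nat_lit 57864) (nat_lit 256) .nil)))))) (.g (nat_lit 6) .nil .nil))) 
(.lf (nat_lit 7851) (.g (nat_lit 1593) (.e (nat_lit 317) (nat_lit 23) (.e (nat_lit 352307) (nat_lit 21) (.e (nat_lit 57870) (nat_lit 264) (.e (nat_lit 1209) (nat_lit 89) (.e (nat_lit 73794) (nat_lit 46) (.e (nat_lit 57862) (nat_lit 256) .nil)))))) (.g (nat_lit 0) .nil .nil)))) (.nd (nat_lit 5) 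
(.lf (nat_lit 7835) (.g (nat_lit 656) (.e (nat_lit 317) (nat_lit 23) (.e (nat_lit 352287) (nat_lit 20) (.e (nat_lit 1998) (nat_lit 137) (.e (nat_lit 663568) (nat_lit 5) (.e (nat_lit 73794) (nat_lit 46) (.e (nat_lit 57865) (nat_lit 256) .nil)))))) (.g (nat_lit 0) .nil .nil))) 
(.lf (nat_lit 7867) (.g (nat_lit 1253) (.e (nat_lit 317) (nat_lit 23) (.e (nat_lit 352308) (nat_lit 21) (.e (nat_lit 57870) (nat_lit 264) (.e (nat_lit 1209) (nat_lit 89) (.e (nat_lit 73794) (nat_lit 46) (.e (nat_lit 57865) (nat_lit 256) .nil)))))) (.g (nat_lit 5) .nil .nil)))))) (.nd (nat_lit 3) (.nd (nat_lit 4) (.nd (nat_lit 5) 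
(.lf (nat_lit 7815) (.g (nat_lit 390) (.e (nat_lit 317) (nat_lit 23) (.e (nat_lit 352275) (nat_lit 11) (.e (nat_lit 426344) (nat_lit 14) .nil))) .nil)) 
(.lf (nat_lit 7847) (.g (nat_lit 579) (.e (nat_lit 317) (nat_lit 23) (.e (nat_lit 352297) (nat_lit 20) (.e (nat_lit 2005) (nat_lit 138) (.e (nat_lit 671763) (nat_lit 5) (.e (nat_lit 73794) (nat_lit 46) (.e (nat_lit 57865) (nat_lit 256) .nil)))))) (.g (nat_lit 0) .nil .nil)))) (.nd (nat_lit 5) 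
(.lf (nat_lit 7831) (.g (nat_lit 625) (.e (nat_lit 317) (nat_lit 23) (.e (nat_lit 352287) (nat_lit 20) (.e (nat_lit 1996) (nat_lit 137) (.e (nat_lit 663568) (nat_lit 5) (.e (nat_lit 73794) (nat_lit 46) (.e (nat_lit 57865) (nat_lit 256) .nil)))))) (.g (nat_lit 0) .nil .nil))) 
(.lf (nat_lit 7863) (.g (nat_lit 1912) (.e (nat_lit 317) (nat_lit 23) (.e (nat_lit 352307) (nat_lit 21) (.e (nat_lit 57873) (nat_lit 264) (.e (nat_lit 1211) (nat_lit 89) (.e (nat_lit 73794) (nat_lit 46) (.e (nat_lit 57863) (nat_lit 256) .nil)))))) (.g (nat_lit 6) .nil .nil))))) (.nd (nat_lit 4) (.nd (nat_lit 5) 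
(.lf (nat_lit 7823) (.g (nat_lit 725) (.e (nat_lit 317) (nat_lit 23) (.e (nat_lit 352285) (nat_lit 20) (.e (nat_lit 1999) (nat_lit 137) (.e (nat_lit 663568) (nat_lit 5) (.e (nat_lit 73794) (nat_lit 46) (.e (nat_lit 57864) (nat_lit 256) .nil)))))) (.g (nat_lit 6) .nil .nil))) 
(.lf (nat_lit 7855) (.g (nat_lit 1850) (.e (nat_lit 317) (nat_lit 23) (.e (nat_lit 352307) (nat_lit 21) (.e (nat_lit 57871) (nat_lit 264) (.e (nat_lit 1209) (nat_lit 89) (.e (nat_lit 73794) (nat_lit 46) (.e (nat_lit 57863) (nat_lit 256) .nil)))))) (.g (nat_lit 0) .nil .nil)))) (.nd (nat_lit 5) 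
(.lf (nat_lit 7839) (.g (nat_lit 1509) (.e (nat_lit 317) (nat_lit 23) (.e (nat_lit 352287) (nat_lit 20) (.e (nat_lit 2384) (nat_lit 155) (.e (nat_lit 811029) (nat_lit 9) (.e (nat_lit 303131) (nat_lit 9) (.e (nat_lit 426125) (nat_lit 2) (.e (nat_lit 204544) (nat_lit 0) .nil))))))) (.g (nat_lit 6) .nil .nil))) 
(.lf (nat_lit 7871) (.g (nat_lit 1880) (.e (nat_lit 317) (nat_lit 23) (.e (nat_lit 352309) (nat_lit 21) (.e (nat_lit 57871) (nat_lit 264) (.e (nat_lit 1209) (nat_lit 89) (.e (nat_lit 73794) (nat_lit 46) .nil))))) .nil))))))))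

noncomputable def tv109 : DT := (.nd (nat_lit 0) (.nd (nat_lit 1) (.nd (nat_lit 2) (.nd (nat_lit 3) (.nd (nat_lit 4) (.nd (nat_lit 5) 
(.lf (nat_lit 7872) (.g (nat_lit 2133) (.e (nat_lit 317) (nat_lit 23) (.e (nat_lit 352309) (nat_lit 21) (.e (nat_lit 57872) (nat_lit 264) (.e (nat_lit 1209) (nat_lit 89) (.e (nat_lit 73794) (nat_lit 46) (.e (nat_lit 57862) (nat_lit 256) .nil)))))) (.g (nat_lit 6) .nil .nil))) 
(.lf (nat_lit 7904) (.g (nat_lit 1293) (.e (nat_lit 317) (nat_lit 23) (.e (nat_lit 352316) (nat_lit 24) (.e (nat_lit 123198) (nat_lit 266) (.e (nat_lit 57421) (nat_lit 13) (.e (nat_lit 344084) (nat_lit 14) (.e (nat_lit 57863) (nat_lit 256) .nil)))))) (.g (nat_lit 5) .nil .nil)))) (.nd (nat_lit 5) 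
(.lf (nat_lit 7888) (.g (nat_lit 1553) (.e (nat_lit 317) (nat_lit 23) (.e (nat_lit 352316) (nat_lit 24) (.e (nat_lit 123184) (nat_lit 264) (.e (nat_lit 1212) (nat_lit 89) (.e (nat_lit 73794) (nat_lit 46) (.e (nat_lit 57863) (nat_lit 256) .nil)))))) (.g (nat_lit 0) .nil .nil))) 
(.lf (nat_lit 7920) (.g (nat_lit 427) (.e (nat_lit 317) (nat_lit 23) (.e (nat_lit 352324) (nat_lit 26) (.e (nat_lit 147511) (nat_lit 14) .nil))) .nil)))) (.nd (nat_lit 4) (.nd (nat_lit 5) 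
(.lf (nat_lit 7880) (.g (nat_lit 556) (.e (nat_lit 317) (nat_lit 23) (.e (nat_lit 352313) (nat_lit 23) (.e (nat_lit 98321) (nat_lit 17) (.e (nat_lit 7936) (nat_lit 220) .nil)))) .nil)) 
(.lf (nat_lit 7912) (.g (nat_lit 1783) (.e (nat_lit 317) (nat_lit 23) (.e (nat_lit 352318) (nat_lit 24) (.e (nat_lit 123184) (nat_lit 264) (.e (nat_lit 1214) (nat_lit 89) (.e (nat_lit 73794) (nat_lit 46) .nil))))) .nil))) (.nd (nat_lit 5) 
(.lf (nat_lit 7896) (.g (nat_lit 1936) (.e (nat_lit 317) (nat_lit 23) (.e (nat_lit 352316) (nat_lit 24) (.e (nat_lit 123197) (nat_lit 266) (.e (nat_lit 57406) (nat_lit 12) (.e (nat_lit 335982) (nat_lit 0) .nil))))) .nil)) 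
(.lf (nat_lit 7928) (.g (nat_lit 1447) (.e (nat_lit 318) (nat_lit 23) (.e (nat_lit 352267) (nat_lit 0) (.e (nat_lit 3631) (nat_lit 227) (.e (nat_lit 778323) (nat_lit 5) (.e (nat_lit 73795) (nat_lit 47) (.e (nat_lit 123164) (nat_lit 256) .nil)))))) (.g (nat_lit 0) .nil .nil)))))) (.nd (nat_lit 3) (.nd (nat_lit 4) (.nd (nat_lit 5) 
(.lf (nat_lit 7876) (.g (nat_lit 1862) (.e (nat_lit 317) (nat_lit 23) (.e (nat_lit 352309) (nat_lit 21) (.e (nat_lit 57873) (nat_lit 264) (.e (nat_lit 1209) (nat_lit 89) .nil)))) .nil)) 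
(.lf (nat_lit 7908) (.g (nat_lit 1850) (.e (nat_lit 317) (nat_lit 23) (.e (nat_lit 352318) (nat_lit 24) (.e (nat_lit 123182) (nat_lit 264) (.e (nat_lit 1212) (nat_lit 89) (.e (nat_lit 73794) (nat_lit 46) (.e (nat_lit 57865) (nat_lit 256) .nil)))))) (.g (nat_lit 6) .nil .nil)))) (.nd (nat_lit 5) 
(.lf (nat_lit 7892) (.g (nat_lit 479) (.e (nat_lit 317) (nat_lit 23) (.e (nat_lit 352316) (nat_lit 24) (.e (nat_lit 123195) (nat_lit 266) .nil))) .nil)) 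
(.lf (nat_lit 7924) (.g (nat_lit 356) (.e (nat_lit 318) (nat_lit 23) (.e (nat_lit 352264) (nat_lit 0) (.e (nat_lit 3716) (nat_lit 227) (.e (nat_lit 778322) (nat_lit 5) (.e (nat_lit 73795) (nat_lit 47) (.e (nat_lit 123164) (nat_lit 256) .nil)))))) (.g (nat_lit 0) .nil .nil))))) (.nd (nat_lit 4) (.nd (nat_lit 5) 
(.lf (nat_lit 7884) (.g (nat_lit 1683) (.e (nat_lit 317) (nat_lit 23) (.e (nat_lit 352316) (nat_lit 24) (.e (nat_lit 123182) (nat_lit 264) (.e (nat_lit 1212) (nat_lit 89) (.e (nat_lit 73794) (nat_lit 46) (.e (nat_lit 57863) (nat_lit 256) .nil)))))) (.g (nat_lit 0) .nil .nil))) 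
(.lf (nat_lit 7916) (.g (nat_lit 1149) (.e (nat_lit 317) (nat_lit 23) (.e (nat_lit 352318) (nat_lit 24) (.e (nat_lit 123197) (nat_lit 266) (.e (nat_lit 57431) (nat_lit 16) .nil)))) .nil))) (.nd (nat_lit 5) 
(.lf (nat_lit 7900) (.g (nat_lit 1137) (.e (nat_lit 317) (nat_lit 23) (.e (nat_lit 352316) (nat_lit 24) (.e (nat_lit 123197) (nat_lit 266) (.e (nat_lit 57431) (nat_lit 16) (.e (nat_lit 368656) (nat_lit 14) .nil))))) .nil)) 
(.lf (nat_lit 7932) (.g (nat_lit 1885) (.e (nat_lit 318) (nat_lit 23) (.e (nat_lit 352267) (nat_lit 0) (.e (nat_lit 3632) (nat_lit 227) (.e (nat_lit 778324) (nat_lit 5) (.e (nat_lit 73795) (nat_lit 47) (.e (nat_lit 123164) (nat_lit 256) .nil)))))) (.g (nat_lit 6) .nil .nil))))))) (.nd (nat_lit 2) (.nd (nat_lit 3) (.nd (nat_lit 4) (.nd (nat_lit 5) 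
(.lf (nat_lit 7874) (.g (nat_lit 2087) (.e (nat_lit 317) (nat_lit 23) (.e (nat_lit 352309) (nat_lit 21) (.e (nat_lit 57872) (nat_lit 264) (.e (nat_lit 1209) (nat_lit 89) (.e (nat_lit 73794) (nat_lit 46) (.e (nat_lit 57865) (nat_lit 256) .nil)))))) (.g (nat_lit 6) .nil .nil))) 
(.lf (nat_lit 7906) (.g (nat_lit 943) (.e (nat_lit 317) (nat_lit 23) (.e (nat_lit 352316) (nat_lit 24) (.e (nat_lit 123198) (nat_lit 266) (.e (nat_lit 57430) (nat_lit 16) (.e (nat_lit 368656) (nat_lit 14) .nil))))) .nil))) (.nd (nat_lit 5) 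
(.lf (nat_lit 7890) (.g (nat_lit 1200) (.e (nat_lit 317) (nat_lit 23) (.e (nat_lit 352316) (nat_lit 24) (.e (nat_lit 123185) (nat_lit 264) (.e (nat_lit 1212) (nat_lit 89) (.e (nat_lit 73794) (nat_lit 46) (.e (nat_lit 57863) (nat_lit 256) .nil)))))) (.g (nat_lit 0) .nil .nil))) 
(.lf (nat_lit 7922) (.g (nat_lit 521) (.e (nat_lit 318) (nat_lit 23) (.e (nat_lit 352264) (nat_lit 0) (.e (nat_lit 3714) (nat_lit 227) (.e (nat_lit 778322) (nat_lit 5) (.e (nat_lit 73795) (nat_lit 47) (.e (nat_lit 123164) (nat_lit 256) .nil)))))) (.g (nat_lit 0) .nil .nil))))) (.nd (nat_lit 4) (.nd (nat_lit 5) 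
(.lf (nat_lit 7882) (.g (nat_lit 1021) (.e (nat_lit 317) (nat_lit 23) (.e (nat_lit 352315) (nat_lit 23) (.e (nat_lit 106240) (nat_lit 16) (.e (nat_lit 401454) (nat_lit 12) (.e (nat_lit 483072) (nat_lit 0) .nil))))) .nil)) 
(.lf (nat_lit 7914) (.g (nat_lit 2258) (.e (nat_lit 317) (nat_lit 23) (.e (nat_lit 352318) (nat_lit 24) (.e (nat_lit 123197) (nat_lit 266) (.e (nat_lit 57406) (nat_lit 12) (.e (nat_lit 335977) (nat_lit 0) .nil))))) .nil))) (.nd (nat_lit 5) 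
(.lf (nat_lit 7898) (.g (nat_lit 1204) (.e (nat_lit 317) (nat_lit 23) (.e (nat_lit 352316) (nat_lit 24) (.e (nat_lit 123197) (nat_lit 266) (.e (nat_lit 57430) (nat_lit 16) (.e (nat_lit 368656) (nat_lit 14) .nil))))) .nil)) 
(.lf (nat_lit 7930) (.g (nat_lit 2017) (.e (nat_lit 318) (nat_lit 23) (.e (nat_lit 352267) (nat_lit 0) (.e (nat_lit 3632) (nat_lit 227) (.e (nat_lit 778323) (nat_lit 5) (.e (nat_lit 73795) (nat_lit 47) (.e (nat_lit 123164) (nat_lit 256) .nil)))))) (.g (nat_lit 0) .nil .nil)))))) (.nd (nat_lit 3) (.nd (nat_lit 4) (.nd (nat_lit 5) 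
(.lf (nat_lit 7878) (.g (nat_lit 692) (.e (nat_lit 317) (nat_lit 23) (.e (nat_lit 352312) (nat_lit 22) (.e (nat_lit 98048) (nat_lit 2) .nil))) .nil)) 
(.lf (nat_lit 7910) (.g (nat_lit 1763) (.e (nat_lit 317) (nat_lit 23) (.e (nat_lit 352318) (nat_lit 24) (.e (nat_lit 123183) (nat_lit 264) (.e (nat_lit 1212) (nat_lit 89) (.e (nat_lit 73794) (nat_lit 46) (.e (nat_lit 57865) (nat_lit 256) .nil)))))) (.g (nat_lit 6) .nil .nil)))) (.nd (nat_lit 5) 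
(.lf (nat_lit 7894) (.g (nat_lit 1945) (.e (nat_lit 317) (nat_lit 23) (.e (nat_lit 352316) (nat_lit 24) (.e (nat_lit 123197) (nat_lit 266) (.e (nat_lit 57406) (nat_lit 12) (.e (nat_lit 335977) (nat_lit 0) .nil))))) .nil)) 
(.lf (nat_lit 7926) (.g (nat_lit 967) (.e (nat_lit 318) (nat_lit 23) (.e (nat_lit 352267) (nat_lit 0) (.e (nat_lit 3629) (nat_lit 227) (.e (nat_lit 778324) (nat_lit 5) (.e (nat_lit 73795) (nat_lit 47) .nil))))) .nil)))) (.nd (nat_lit 4) (.nd (nat_lit 5) 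
(.lf (nat_lit 7886) (.g (nat_lit 1621) (.e (nat_lit 317) (nat_lit 23) (.e (nat_lit 352316) (nat_lit 24) (.e (nat_lit 123183) (nat_lit 264) (.e (nat_lit 1212) (nat_lit 89) (.e (nat_lit 73794) (nat_lit 46) (.e (nat_lit 57863) (nat_lit 256) .nil)))))) (.g (nat_lit 0) .nil .nil))) 
(.lf (nat_lit 7918) (.g (nat_lit 2363) (.e (nat_lit 317) (nat_lit 23) (.e (nat_lit 352322) (nat_lit 26) (.e (nat_lit 147496) (nat_lit 11) (.e (nat_lit 24617) (nat_lit 7) (.e (nat_lit 327424) (nat_lit 0) .nil))))) .nil))) (.nd (nat_lit 5) 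
(.lf (nat_lit 7902) (.g (nat_lit 1007) (.e (nat_lit 317) (nat_lit 23) (.e (nat_lit 352316) (nat_lit 24) (.e (nat_lit 123198) (nat_lit 266) (.e (nat_lit 57421) (nat_lit 13) (.e (nat_lit 344084) (nat_lit 14) .nil))))) .nil)) 
(.lf (nat_lit 7934) (.g (nat_lit 2003) (.e (nat_lit 318) (nat_lit 23) (.e (nat_lit 352267) (nat_lit 0) (.e (nat_lit 3747) (nat_lit 228) (.e (nat_lit 786473) (nat_lit 27) (.e (nat_lit 343808) (nat_lit 0) .nil))))) .nil))))))) (.nd (nat_lit 1) (.nd (nat_lit 2) (.nd (nat_lit 3) (.nd (nat_lit 4) (.nd (nat_lit 5) 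
(.lf (nat_lit 7873) (.g (nat_lit 2130) (.e (nat_lit 317) (nat_lit 23) (.e (nat_lit 352309) (nat_lit 21) (.e (nat_lit 57872) (nat_lit 264) (.e (nat_lit 1209) (nat_lit 89) (.e (nat_lit 73794) (nat_lit 46) (.e (nat_lit 57864) (nat_lit 256) .nil)))))) (.g (nat_lit 6) .nil .nil))) 
(.lf (nat_lit 7905) (.g (nat_lit 1375) (.e (nat_lit 317) (nat_lit 23) (.e (nat_lit 352316) (nat_lit 24) (.e (nat_lit 123198) (nat_lit 266) (.e (nat_lit 57421) (nat_lit 13) (.e (nat_lit 344084) (nat_lit 14) (.e (nat_lit 57864) (nat_lit 256) .nil)))))) (.g (nat_lit 0) .nil .nil)))) (.nd (nat_lit 5) 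
(.lf (nat_lit 7889) (.g (nat_lit 1532) (.e (nat_lit 317) (nat_lit 23) (.e (nat_lit 352316) (nat_lit 24) (.e (nat_lit 123184) (nat_lit 264) (.e (nat_lit 1212) (nat_lit 89) (.e (nat_lit 73794) (nat_lit 46) (.e (nat_lit 57865) (nat_lit 256) .nil)))))) (.g (nat_lit 0) .nil .nil))) 
(.lf (nat_lit 7921) (.g (nat_lit 613) (.e (nat_lit 318) (nat_lit 23) (.e (nat_lit 352264) (nat_lit 0) (.e (nat_lit 3711) (nat_lit 227) (.e (nat_lit 778322) (nat_lit 5) (.e (nat_lit 73795) (nat_lit 47) (.e (nat_lit 123164) (nat_lit 256) .nil)))))) (.g (nat_lit 0) .nil .nil))))) (.nd (nat_lit 4) (.nd (nat_lit 5) 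
(.lf (nat_lit 7881) (.g (nat_lit 486) (.e (nat_lit 317) (nat_lit 23) (.e (nat_lit 352314) (nat_lit 23) (.e (nat_lit 106240) (nat_lit 16) (.e (nat_lit 401454) (nat_lit 12) (.e (nat_lit 483072) (nat_lit 0) .nil))))) .nil)) 
(.lf (nat_lit 7913) (.g (nat_lit 622) (.e (nat_lit 317) (nat_lit 23) (.e (nat_lit 352318) (nat_lit 24) (.e (nat_lit 123185) (nat_lit 264) .nil))) .nil))) (.nd (nat_lit 5) 
(.lf (nat_lit 7897) (.g (nat_lit 1493) (.e (nat_lit 317) (nat_lit 23) (.e (nat_lit 352316) (nat_lit 24) (.e (nat_lit 123197) (nat_lit 266) (.e (nat_lit 57421) (nat_lit 13) (.e (nat_lit 344084) (nat_lit 14) .nil))))) .nil)) 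
(.lf (nat_lit 7929) (.g (nat_lit 1449) (.e (nat_lit 318) (nat_lit 23) (.e (nat_lit 352267) (nat_lit 0) (.e (nat_lit 3631) (nat_lit 227) (.e (nat_lit 778324) (nat_lit 5) (.e (nat_lit 73795) (nat_lit 47) .nil))))) .nil))))) (.nd (nat_lit 3) (.nd (nat_lit 4) (.nd (nat_lit 5) 
(.lf (nat_lit 7877) (.g (nat_lit 1803) (.e (nat_lit 317) (nat_lit 23) (.e (nat_lit 352309) (nat_lit 21) (.e (nat_lit 57873) (nat_lit 264) (.e (nat_lit 1211) (nat_lit 89) .nil)))) .nil)) 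
(.lf (nat_lit 7909) (.g (nat_lit 1315) (.e (nat_lit 317) (nat_lit 23) (.e (nat_lit 352318) (nat_lit 24) (.e (nat_lit 123182) (nat_lit 264) (.e (nat_lit 1214) (nat_lit 89) .nil)))) .nil))) (.nd (nat_lit 5) 
(.lf (nat_lit 7893) (.g (nat_lit 583) (.e (nat_lit 317) (nat_lit 23) (.e (nat_lit 352316) (nat_lit 24) (.e (nat_lit 123197) (nat_lit 266) .nil))) .nil)) 
(.lf (nat_lit 7925) (.g (nat_lit 1017) (.e (nat_lit 318) (nat_lit 23) (.e (nat_lit 352267) (nat_lit 0) (.e (nat_lit 3629) (nat_lit 227) (.e (nat_lit 778323) (nat_lit 5) (.e (nat_lit 73795) (nat_lit 47) (.e (nat_lit 123164) (nat_lit 256) .nil)))))) (.g (nat_lit 0) .nil .nil))))) (.nd (nat_lit 4) (.nd (nat_lit 5) 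
(.lf (nat_lit 7885) (.g (nat_lit 1656) (.e (nat_lit 317) (nat_lit 23) (.e (nat_lit 352316) (nat_lit 24) (.e (nat_lit 123182) (nat_lit 264) (.e (nat_lit 1212) (nat_lit 89) (.e (nat_lit 73794) (nat_lit 46) (.e (nat_lit 57865) (nat_lit 256) .nil)))))) (.g (nat_lit 0) .nil .nil))) 
(.lf (nat_lit 7917) (.g (nat_lit 587) (.e (nat_lit 317) (nat_lit 23) (.e (nat_lit 352318) (nat_lit 24) (.e (nat_lit 123198) (nat_lit 266) .nil))) .nil))) (.nd (nat_lit 5) 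
(.lf (nat_lit 7901) (.g (nat_lit 438) (.e (nat_lit 317) (nat_lit 23) (.e (nat_lit 352316) (nat_lit 24) (.e (nat_lit 123198) (nat_lit 266) .nil))) .nil)) 
(.lf (nat_lit 7933) (.g (nat_lit 1102) (.e (nat_lit 318) (nat_lit 23) (.e (nat_lit 352267) (nat_lit 0) (.e (nat_lit 3747) (nat_lit 228) (.e (nat_lit 786473) (nat_lit 27) .nil)))) .nil)))))) (.nd (nat_lit 2) (.nd (nat_lit 3) (.nd (nat_lit 4) (.nd (nat_lit 5) 
(.lf (nat_lit 7875) (.g (nat_lit 1780) (.e (nat_lit 317) (nat_lit 23) (.e (nat_lit 352309) (nat_lit 21) (.e (nat_lit 57872) (nat_lit 264) (.e (nat_lit 1211) (nat_lit 89) (.e (nat_lit 73794) (nat_lit 46) .nil))))) .nil)) 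
(.lf (nat_lit 7907) (.g (nat_lit 849) (.e (nat_lit 317) (nat_lit 23) (.e (nat_lit 352316) (nat_lit 24) (.e (nat_lit 123198) (nat_lit 266) (.e (nat_lit 57431) (nat_lit 16) (.e (nat_lit 368656) (nat_lit 14) .nil))))) .nil))) (.nd (nat_lit 5) 
(.lf (nat_lit 7891) (.g (nat_lit 1186) (.e (nat_lit 317) (nat_lit 23) (.e (nat_lit 352316) (nat_lit 24) (.e (nat_lit 123185) (nat_lit 264) (.e (nat_lit 1212) (nat_lit 89) (.e (nat_lit 73794) (nat_lit 46) (.e (nat_lit 57865) (nat_lit 256) .nil)))))) (.g (nat_lit 0) .nil .nil))) 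
(.lf (nat_lit 7923) (.g (nat_lit 614) (.e (nat_lit 318) (nat_lit 23) (.e (nat_lit 352264) (nat_lit 0) (.e (nat_lit 3715) (nat_lit 227) (.e (nat_lit 778322) (nat_lit 5) (.e (nat_lit 73795) (nat_lit 47) (.e (nat_lit 123164) (nat_lit 256) .nil)))))) (.g (nat_lit 0) .nil .nil))))) (.nd (nat_lit 4) (.nd (nat_lit 5) 
(.lf (nat_lit 7883) (.g (nat_lit 1692) (.e (nat_lit 317) (nat_lit 23) (.e (nat_lit 352316) (nat_lit 24) (.e (nat_lit 123182) (nat_lit 264) (.e (nat_lit 1212) (nat_lit 89) (.e (nat_lit 73794) (nat_lit 46) (.e (nat_lit 57862) (nat_lit 256) .nil)))))) (.g (nat_lit 0) .nil .nil))) 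
(.lf (nat_lit 7915) (.g (nat_lit 1147) (.e (nat_lit 317) (nat_lit 23) (.e (nat_lit 352318) (nat_lit 24) (.e (nat_lit 123197) (nat_lit 266) (.e (nat_lit 57430) (nat_lit 16) .nil)))) .nil))) (.nd (nat_lit 5) 
(.lf (nat_lit 7899) (.g (nat_lit 1249) (.e (nat_lit 317) (nat_lit 23) (.e (nat_lit 352316) (nat_lit 24) (.e (nat_lit 123197) (nat_lit 266) (.e (nat_lit 57430) (nat_lit 16) (.e (nat_lit 368656) (nat_lit 14) (.e (nat_lit 57862) (nat_lit 256) .nil)))))) (.g (nat_lit 4) .nil .nil))) 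
(.lf (nat_lit 7931) (.g (nat_lit 1861) (.e (nat_lit 318) (nat_lit 23) (.e (nat_lit 352267) (nat_lit 0) (.e (nat_lit 3632) (nat_lit 227) (.e (nat_lit 778324) (nat_lit 5) (.e (nat_lit 73795) (nat_lit 47) (.e (nat_lit 123163) (nat_lit 256) .nil)))))) (.g (nat_lit 6) .nil .nil)))))) (.nd (nat_lit 3) (.nd (nat_lit 4) (.nd (nat_lit 5) 
(.lf (nat_lit 7879) (.g (nat_lit 815) (.e (nat_lit 317) (nat_lit 23) (.e (nat_lit 352313) (nat_lit 23) (.e (nat_lit 106240) (nat_lit 16) (.e (nat_lit 401454) (nat_lit 12) (.e (nat_lit 483072) (nat_lit 0) .nil))))) .nil)) 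
(.lf (nat_lit 7911) (.g (nat_lit 1757) (.e (nat_lit 317) (nat_lit 23) (.e (nat_lit 352318) (nat_lit 24) (.e (nat_lit 123184) (nat_lit 264) (.e (nat_lit 1212) (nat_lit 89) (.e (nat_lit 73794) (nat_lit 46) (.e (nat_lit 57865) (nat_lit 256) .nil)))))) (.g (nat_lit 6) .nil .nil)))) (.nd (nat_lit 5) 
(.lf (nat_lit 7895) (.g (nat_lit 1936) (.e (nat_lit 317) (nat_lit 23) (.e (nat_lit 352316) (nat_lit 24) (.e (nat_lit 123197) (nat_lit 266) (.e (nat_lit 57406) (nat_lit 12) (.e (nat_lit 335979) (nat_lit 0) .nil))))) .nil)) 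
(.lf (nat_lit 7927) (.g (nat_lit 1010) (.e (nat_lit 318) (nat_lit 23) (.e (nat_lit 352267) (nat_lit 0) (.e (nat_lit 3630) (nat_lit 227) (.e (nat_lit 778323) (nat_lit 5) (.e (nat_lit 73795) (nat_lit 47) (.e (nat_lit 123164) (nat_lit 256) .nil)))))) (.g (nat_lit 0) .nil .nil))))) (.nd (nat_lit 4) (.nd (nat_lit 5) 
(.lf (nat_lit 7887) (.g (nat_lit 1599) (.e (nat_lit 317) (nat_lit 23) (.e (nat_lit 352316) (nat_lit 24) (.e (nat_lit 123183) (nat_lit 264) (.e (nat_lit 1212) (nat_lit 89) (.e (nat_lit 73794) (nat_lit 46) (.e (nat_lit 57865) (nat_lit 256) .nil)))))) (.g (nat_lit 0) .nil .nil))) 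
(.lf (nat_lit 7919) (.g (nat_lit 1528) (.e (nat_lit 317) (nat_lit 23) (.e (nat_lit 352324) (nat_lit 26) (.e (nat_lit 147496) (nat_lit 11) (.e (nat_lit 24617) (nat_lit 7) .nil)))) .nil))) (.nd (nat_lit 5) 
(.lf (nat_lit 7903) (.g (nat_lit 1325) (.e (nat_lit 317) (nat_lit 23) (.e (nat_lit 352316) (nat_lit 24) (.e (nat_lit 123198) (nat_lit 266) (.e (nat_lit 57421) (nat_lit 13) (.e (nat_lit 344084) (nat_lit 14) (.e (nat_lit 57862) (nat_lit 256) .nil)))))) (.g (nat_lit 6) .nil .nil))) 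
(.lf (nat_lit 7935) (.g (nat_lit 1619) (.e (nat_lit 318) (nat_lit 23) (.e (nat_lit 352267) (nat_lit 0) (.e (nat_lit 3748) (nat_lit 228) (.e (nat_lit 786473) (nat_lit 27) (.e (nat_lit 343808) (nat_lit 0) .nil))))) .nil))))))))

noncomputable def tv110 : DT := (.nd (nat_lit 0) (.nd (nat_lit 1) (.nd (nat_lit 2) (.nd (nat_lit 3) (.nd (nat_lit 4) (.nd (nat_lit 5) 
(.lf (nat_lit 7936) (.g (nat_lit 1366) (.e (nat_lit 318) (nat_lit 23) (.e (nat_lit 352267) (nat_lit 0) (.e (nat_lit 3748) (nat_lit 228) (.e (nat_lit 786477) (nat_lit 28) (.e (nat_lit 344085) (nat_lit 15) .nil))))) .nil)) 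
(.lf (nat_lit 7968) (.g (nat_lit 612) (.e (nat_lit 318) (nat_lit 23) (.e (nat_lit 352297) (nat_lit 20) (.e (nat_lit 2280) (nat_lit 150) (.e (nat_lit 770056) (nat_lit 5) .nil)))) .nil))) (.nd (nat_lit 5) 
(.lf (nat_lit 7952) (.g (nat_lit 815) (.e (nat_lit 318) (nat_lit 23) (.e (nat_lit 352287) (nat_lit 20) (.e (nat_lit 1994) (nat_lit 137) (.e (nat_lit 663568) (nat_lit 5) (.e (nat_lit 73795) (nat_lit 47) (.e (nat_lit 123166) (nat_lit 256) .nil)))))) (.g (nat_lit 0) .nil .nil))) 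
(.lf (nat_lit 7984) (.g (nat_lit 1872) (.e (nat_lit 318) (nat_lit 23) (.e (nat_lit 352307) (nat_lit 21) (.e (nat_lit 57871) (nat_lit 264) (.e (nat_lit 1209) (nat_lit 89) (.e (nat_lit 73795) (nat_lit 47) (.e (nat_lit 123164) (nat_lit 256) .nil)))))) (.g (nat_lit 0) .nil .nil))))) (.nd (nat_lit 4) (.nd (nat_lit 5) 
(.lf (nat_lit 7944) (.g (nat_lit 1727) (.e (nat_lit 318) (nat_lit 23) (.e (nat_lit 352275) (nat_lit 11) (.e (nat_lit 426342) (nat_lit 14) (.e (nat_lit 491560) (nat_lit 10) (.e (nat_lit 352000) (nat_lit 44) (.e (nat_lit 778340) (nat_lit 9) .nil)))))) (.g (nat_lit 4) .nil .nil))) 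
(.lf (nat_lit 7976) (.g (nat_lit 1964) (.e (nat_lit 318) (nat_lit 23) (.e (nat_lit 352307) (nat_lit 21) (.e (nat_lit 57682) (nat_lit 155) (.e (nat_lit 122919) (nat_lit 15) (.e (nat_lit 360490) (nat_lit 22) .nil))))) .nil))) (.nd (nat_lit 5) 
(.lf (nat_lit 7960) (.g (nat_lit 660) (.e (nat_lit 318) (nat_lit 23) (.e (nat_lit 352297) (nat_lit 20) (.e (nat_lit 2003) (nat_lit 138) (.e (nat_lit 671763) (nat_lit 5) (.e (nat_lit 73795) (nat_lit 47) (.e (nat_lit 123163) (nat_lit 256) .nil)))))) (.g (nat_lit 0) .nil .nil))) 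
(.lf (nat_lit 7992) (.g (nat_lit 854) (.e (nat_lit 318) (nat_lit 23) (.e (nat_lit 352309) (nat_lit 21) (.e (nat_lit 57683) (nat_lit 155) .nil))) .nil))))) (.nd (nat_lit 3) (.nd (nat_lit 4) (.nd (nat_lit 5) 
(.lf (nat_lit 7940) (.g (nat_lit 1329) (.e (nat_lit 318) (nat_lit 23) (.e (nat_lit 352275) (nat_lit 11) (.e (nat_lit 426010) (nat_lit 0) (.e (nat_lit 7593) (nat_lit 407) (.e (nat_lit 73774) (nat_lit 26) .nil))))) .nil)) 
(.lf (nat_lit 7972) (.g (nat_lit 1670) (.e (nat_lit 318) (nat_lit 23) (.e (nat_lit 352297) (nat_lit 20) (.e (nat_lit 2281) (nat_lit 150) (.e (nat_lit 770058) (nat_lit 5) (.e (nat_lit 1595) (nat_lit 111) (.e (nat_lit 360490) (nat_lit 22) (.e (nat_lit 778340) (nat_lit 9) .nil))))))) (.g (nat_lit 0) .nil .nil)))) (.nd (nat_lit 5) 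
(.lf (nat_lit 7956) (.g (nat_lit 671) (.e (nat_lit 318) (nat_lit 23) (.e (nat_lit 352287) (nat_lit 20) (.e (nat_lit 1998) (nat_lit 137) (.e (nat_lit 663568) (nat_lit 5) (.e (nat_lit 73795) (nat_lit 47) (.e (nat_lit 123164) (nat_lit 256) .nil)))))) (.g (nat_lit 0) .nil .nil))) 
(.lf (nat_lit 7988) (.g (nat_lit 969) (.e (nat_lit 318) (nat_lit 23) (.e (nat_lit 352307) (nat_lit 21) (.e (nat_lit 57872) (nat_lit 264) (.e (nat_lit 1211) (nat_lit 89) .nil)))) .nil)))) (.nd (nat_lit 4) (.nd (nat_lit 5) 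
(.lf (nat_lit 7948) (.g (nat_lit 1565) (.e (nat_lit 318) (nat_lit 23) (.e (nat_lit 352275) (nat_lit 11) (.e (nat_lit 426344) (nat_lit 14) (.e (nat_lit 491558) (nat_lit 10) (.e (nat_lit 352000) (nat_lit 44) .nil))))) .nil)) 
(.lf (nat_lit 7980) (.g (nat_lit 1607) (.e (nat_lit 318) (nat_lit 23) (.e (nat_lit 352307) (nat_lit 21) (.e (nat_lit 57684) (nat_lit 155) (.e (nat_lit 122919) (nat_lit 15) (.e (nat_lit 360490) (nat_lit 22) (.e (nat_lit 778340) (nat_lit 9) .nil)))))) (.g (nat_lit 6) .nil .nil)))) (.nd (nat_lit 5) 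
(.lf (nat_lit 7964) (.g (nat_lit 624) (.e (nat_lit 318) (nat_lit 23) (.e (nat_lit 352297) (nat_lit 20) (.e (nat_lit 2005) (nat_lit 138) (.e (nat_lit 671763) (nat_lit 5) (.e (nat_lit 73795) (nat_lit 47) (.e (nat_lit 123164) (nat_lit 256) .nil)))))) (.g (nat_lit 0) .nil .nil))) 
(.lf (nat_lit 7996) (.g (nat_lit 2260) (.e (nat_lit 318) (nat_lit 23) (.e (nat_lit 352309) (nat_lit 21) (.e (nat_lit 57872) (nat_lit 264) (.e (nat_lit 1209) (nat_lit 89) (.e (nat_lit 73795) (nat_lit 47) .nil))))) .nil)))))) (.nd (nat_lit 2) (.nd (nat_lit 3) (.nd (nat_lit 4) (.nd (nat_lit 5) 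
(.lf (nat_lit 7938) (.g (nat_lit 1090) (.e (nat_lit 318) (nat_lit 23) (.e (nat_lit 352275) (nat_lit 11) (.e (nat_lit 426009) (nat_lit 0) (.e (nat_lit 7593) (nat_lit 407) (.e (nat_lit 73774) (nat_lit 26) .nil))))) .nil)) 
(.lf (nat_lit 7970) (.g (nat_lit 1712) (.e (nat_lit 318) (nat_lit 23) (.e (nat_lit 352297) (nat_lit 20) (.e (nat_lit 2281) (nat_lit 150) (.e (nat_lit 770057) (nat_lit 5) (.e (nat_lit 1595) (nat_lit 111) (.e (nat_lit 360490) (nat_lit 22) (.e (nat_lit 778340) (nat_lit 9) .nil))))))) (.g (nat_lit 0) .nil .nil)))) (.nd (nat_lit 5) 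
(.lf (nat_lit 7954) (.g (nat_lit 674) (.e (nat_lit 318) (nat_lit 23) (.e (nat_lit 352287) (nat_lit 20) (.e (nat_lit 1996) (nat_lit 137) (.e (nat_lit 663568) (nat_lit 5) (.e (nat_lit 73795) (nat_lit 47) (.e (nat_lit 123166) (nat_lit 256) .nil)))))) (.g (nat_lit 0) .nil .nil))) 
(.lf (nat_lit 7986) (.g (nat_lit 1984) (.e (nat_lit 318) (nat_lit 23) (.e (nat_lit 352307) (nat_lit 21) (.e (nat_lit 57872) (nat_lit 264) (.e (nat_lit 1209) (nat_lit 89) (.e (nat_lit 73795) (nat_lit 47) (.e (nat_lit 123164) (nat_lit 256) .nil)))))) (.g (nat_lit 0) .nil .nil))))) (.nd (nat_lit 4) (.nd (nat_lit 5) 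
(.lf (nat_lit 7946) (.g (nat_lit 2378) (.e (nat_lit 318) (nat_lit 23) (.e (nat_lit 352275) (nat_lit 11) (.e (nat_lit 426343) (nat_lit 14) (.e (nat_lit 491558) (nat_lit 10) (.e (nat_lit 352000) (nat_lit 44) (.e (nat_lit 778340) (nat_lit 9) .nil)))))) (.g (nat_lit 4) .nil .nil))) 
(.lf (nat_lit 7978) (.g (nat_lit 1875) (.e (nat_lit 318) (nat_lit 23) (.e (nat_lit 352307) (nat_lit 21) (.e (nat_lit 57683) (nat_lit 155) (.e (nat_lit 122919) (nat_lit 15) (.e (nat_lit 360490) (nat_lit 22) (.e (nat_lit 778340) (nat_lit 9) .nil)))))) (.g (nat_lit 5) .nil .nil)))) (.nd (nat_lit 5) 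
(.lf (nat_lit 7962) (.g (nat_lit 727) (.e (nat_lit 318) (nat_lit 23) (.e (nat_lit 352297) (nat_lit 20) (.e (nat_lit 2003) (nat_lit 138) (.e (nat_lit 671763) (nat_lit 5) (.e (nat_lit 73795) (nat_lit 47) (.e (nat_lit 123166) (nat_lit 256) .nil)))))) (.g (nat_lit 0) .nil .nil))) 
(.lf (nat_lit 7994) (.g (nat_lit 554) (.e (nat_lit 318) (nat_lit 23) (.e (nat_lit 352309) (nat_lit 21) (.e (nat_lit 57871) (nat_lit 264) .nil))) .nil))))) (.nd (nat_lit 3) (.nd (nat_lit 4) (.nd (nat_lit 5) 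
(.lf (nat_lit 7942) (.g (nat_lit 1358) (.e (nat_lit 318) (nat_lit 23) (.e (nat_lit 352275) (nat_lit 11) (.e (nat_lit 426342) (nat_lit 14) (.e (nat_lit 491558) (nat_lit 10) (.e (nat_lit 352000) (nat_lit 44) .nil))))) .nil)) 
(.lf (nat_lit 7974) (.g (nat_lit 2564) (.e (nat_lit 318) (nat_lit 23) (.e (nat_lit 352307) (nat_lit 21) (.e (nat_lit 57681) (nat_lit 155) (.e (nat_lit 122919) (nat_lit 15) (.e (nat_lit 360490) (nat_lit 22) .nil))))) .nil))) (.nd (nat_lit 5) 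
(.lf (nat_lit 7958) (.g (nat_lit 1036) (.e (nat_lit 318) (nat_lit 23) (.e (nat_lit 352287) (nat_lit 20) (.e (nat_lit 1999) (nat_lit 137) (.e (nat_lit 663568) (nat_lit 5) (.e (nat_lit 73795) (nat_lit 47) (.e (nat_lit 123164) (nat_lit 256) .nil)))))) (.g (nat_lit 0) .nil .nil))) 
(.lf (nat_lit 7990) (.g (nat_lit 2251) (.e (nat_lit 318) (nat_lit 23) (.e (nat_lit 352307) (nat_lit 21) (.e (nat_lit 57873) (nat_lit 264) (.e (nat_lit 1209) (nat_lit 89) (.e (nat_lit 73795) (nat_lit 47) (.e (nat_lit 123166) (nat_lit 256) .nil)))))) (.g (nat_lit 0) .nil .nil))))) (.nd (nat_lit 4) (.nd (nat_lit 5) 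
(.lf (nat_lit 7950) (.g (nat_lit 1713) (.e (nat_lit 318) (nat_lit 23) (.e (nat_lit 352275) (nat_lit 11) (.e (nat_lit 426344) (nat_lit 14) (.e (nat_lit 491560) (nat_lit 10) (.e (nat_lit 352000) (nat_lit 44) .nil))))) .nil)) 
(.lf (nat_lit 7982) (.g (nat_lit 1583) (.e (nat_lit 318) (nat_lit 23) (.e (nat_lit 352307) (nat_lit 21) (.e (nat_lit 57870) (nat_lit 264) (.e (nat_lit 1209) (nat_lit 89) (.e (nat_lit 73795) (nat_lit 47) (.e (nat_lit 123164) (nat_lit 256) .nil)))))) (.g (nat_lit 0) .nil .nil)))) (.nd (nat_lit 5) 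
(.lf (nat_lit 7966) (.g (nat_lit 832) (.e (nat_lit 318) (nat_lit 23) (.e (nat_lit 352297) (nat_lit 20) (.e (nat_lit 2006) (nat_lit 138) (.e (nat_lit 671763) (nat_lit 5) (.e (nat_lit 73795) (nat_lit 47) (.e (nat_lit 123164) (nat_lit 256) .nil)))))) (.g (nat_lit 0) .nil .nil))) 
(.lf (nat_lit 7998) (.g (nat_lit 718) (.e (nat_lit 318) (nat_lit 23) (.e (nat_lit 352312) (nat_lit 22) (.e (nat_lit 98048) (nat_lit 2) .nil))) .nil))))))) (.nd (nat_lit 1) (.nd (nat_lit 2) (.nd (nat_lit 3) (.nd (nat_lit 4) (.nd (nat_lit 5) 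
(.lf (nat_lit 7937) (.g (nat_lit 357) (.e (nat_lit 318) (nat_lit 23) (.e (nat_lit 352275) (nat_lit 11) (.e (nat_lit 426009) (nat_lit 0) .nil))) .nil)) 
(.lf (nat_lit 7969) (.g (nat_lit 1343) (.e (nat_lit 318) (nat_lit 23) (.e (nat_lit 352297) (nat_lit 20) (.e (nat_lit 2281) (nat_lit 150) (.e (nat_lit 770056) (nat_lit 5) (.e (nat_lit 1598) (nat_lit 111) (.e (nat_lit 360490) (nat_lit 22) (.e (nat_lit 778340) (nat_lit 9) .nil))))))) (.g (nat_lit 7) .nil .nil)))) (.nd (nat_lit 5) 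
(.lf (nat_lit 7953) (.g (nat_lit 644) (.e (nat_lit 318) (nat_lit 23) (.e (nat_lit 352287) (nat_lit 20) (.e (nat_lit 1996) (nat_lit 137) (.e (nat_lit 663568) (nat_lit 5) (.e (nat_lit 73795) (nat_lit 47) (.e (nat_lit 123164) (nat_lit 256) .nil)))))) (.g (nat_lit 0) .nil .nil))) 
(.lf (nat_lit 7985) (.g (nat_lit 1903) (.e (nat_lit 318) (nat_lit 23) (.e (nat_lit 352307) (nat_lit 21) (.e (nat_lit 57871) (nat_lit 264) (.e (nat_lit 1209) (nat_lit 89) (.e (nat_lit 73795) (nat_lit 47) (.e (nat_lit 123166) (nat_lit 256) .nil)))))) (.g (nat_lit 0) .nil .nil))))) (.nd (nat_lit 4) (.nd (nat_lit 5) 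
(.lf (nat_lit 7945) (.g (nat_lit 2870) (.e (nat_lit 318) (nat_lit 23) (.e (nat_lit 352275) (nat_lit 11) (.e (nat_lit 426343) (nat_lit 14) (.e (nat_lit 491546) (nat_lit 9) (.e (nat_lit 335907) (nat_lit 0) .nil))))) .nil)) 
(.lf (nat_lit 7977) (.g (nat_lit 2302) (.e (nat_lit 318) (nat_lit 23) (.e (nat_lit 352307) (nat_lit 21) (.e (nat_lit 57683) (nat_lit 155) (.e (nat_lit 122917) (nat_lit 15) (.e (nat_lit 360490) (nat_lit 22) (.e (nat_lit 778340) (nat_lit 9) .nil)))))) (.g (nat_lit 0) .nil .nil)))) (.nd (nat_lit 5) 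
(.lf (nat_lit 7961) (.g (nat_lit 700) (.e (nat_lit 318) (nat_lit 23) (.e (nat_lit 352297) (nat_lit 20) (.e (nat_lit 2003) (nat_lit 138) (.e (nat_lit 671763) (nat_lit 5) (.e (nat_lit 73795) (nat_lit 47) (.e (nat_lit 123164) (nat_lit 256) .nil)))))) (.g (nat_lit 0) .nil .nil))) 
(.lf (nat_lit 7993) (.g (nat_lit 785) (.e (nat_lit 318) (nat_lit 23) (.e (nat_lit 352309) (nat_lit 21) (.e (nat_lit 57684) (nat_lit 155) .nil))) .nil))))) (.nd (nat_lit 3) (.nd (nat_lit 4) (.nd (nat_lit 5) 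
(.lf (nat_lit 7941) (.g (nat_lit 1613) (.e (nat_lit 318) (nat_lit 23) (.e (nat_lit 352275) (nat_lit 11) (.e (nat_lit 426341) (nat_lit 14) (.e (nat_lit 491560) (nat_lit 10) (.e (nat_lit 352000) (nat_lit 44) (.e (nat_lit 778340) (nat_lit 9) .nil)))))) (.g (nat_lit 4) .nil .nil))) 
(.lf (nat_lit 7973) (.g (nat_lit 2619) (.e (nat_lit 318) (nat_lit 23) (.e (nat_lit 352307) (nat_lit 21) (.e (nat_lit 57681) (nat_lit 155) (.e (nat_lit 122917) (nat_lit 15) (.e (nat_lit 360490) (nat_lit 22) (.e (nat_lit 778340) (nat_lit 9) .nil)))))) (.g (nat_lit 5) .nil .nil)))) (.nd (nat_lit 5) 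
(.lf (nat_lit 7957) (.g (nat_lit 701) (.e (nat_lit 318) (nat_lit 23) (.e (nat_lit 352287) (nat_lit 20) (.e (nat_lit 1998) (nat_lit 137) (.e (nat_lit 663568) (nat_lit 5) (.e (nat_lit 73795) (nat_lit 47) (.e (nat_lit 123166) (nat_lit 256) .nil)))))) (.g (nat_lit 0) .nil .nil))) 
(.lf (nat_lit 7989) (.g (nat_lit 2214) (.e (nat_lit 318) (nat_lit 23) (.e (nat_lit 352307) (nat_lit 21) (.e (nat_lit 57873) (nat_lit 264) (.e (nat_lit 1209) (nat_lit 89) (.e (nat_lit 73795) (nat_lit 47) (.e (nat_lit 123164) (nat_lit 256) .nil)))))) (.g (nat_lit 0) .nil .nil))))) (.nd (nat_lit 4) (.nd (nat_lit 5) 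
(.lf (nat_lit 7949) (.g (nat_lit 2096) (.e (nat_lit 318) (nat_lit 23) (.e (nat_lit 352275) (nat_lit 11) (.e (nat_lit 426344) (nat_lit 14) (.e (nat_lit 491560) (nat_lit 10) (.e (nat_lit 344178) (nat_lit 44) (.e (nat_lit 778340) (nat_lit 9) .nil)))))) (.g (nat_lit 0) .nil .nil))) 
(.lf (nat_lit 7981) (.g (nat_lit 1582) (.e (nat_lit 318) (nat_lit 23) (.e (nat_lit 352307) (nat_lit 21) (.e (nat_lit 57849) (nat_lit 252) (.e (nat_lit 57390) (nat_lit 5) .nil)))) .nil))) (.nd (nat_lit 5) 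
(.lf (nat_lit 7965) (.g (nat_lit 794) (.e (nat_lit 318) (nat_lit 23) (.e (nat_lit 352297) (nat_lit 20) (.e (nat_lit 2006) (nat_lit 138) (.e (nat_lit 671763) (nat_lit 5) (.e (nat_lit 73795) (nat_lit 47) (.e (nat_lit 123163) (nat_lit 256) .nil)))))) (.g (nat_lit 0) .nil .nil))) 
(.lf (nat_lit 7997) (.g (nat_lit 1957) (.e (nat_lit 318) (nat_lit 23) (.e (nat_lit 352309) (nat_lit 21) (.e (nat_lit 57873) (nat_lit 264) (.e (nat_lit 1209) (nat_lit 89) .nil)))) .nil)))))) (.nd (nat_lit 2) (.nd (nat_lit 3) (.nd (nat_lit 4) (.nd (nat_lit 5) 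
(.lf (nat_lit 7939) (.g (nat_lit 864) (.e (nat_lit 318) (nat_lit 23) (.e (nat_lit 352275) (nat_lit 11) (.e (nat_lit 426010) (nat_lit 0) (.e (nat_lit 7591) (nat_lit 407) .nil)))) .nil)) 
(.lf (nat_lit 7971) (.g (nat_lit 1392) (.e (nat_lit 318) (nat_lit 23) (.e (nat_lit 352297) (nat_lit 20) (.e (nat_lit 2281) (nat_lit 150) (.e (nat_lit 770057) (nat_lit 5) (.e (nat_lit 1598) (nat_lit 111) (.e (nat_lit 360490) (nat_lit 22) (.e (nat_lit 778340) (nat_lit 9) .nil))))))) (.g (nat_lit 0) .nil .nil)))) (.nd (nat_lit 5) 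
(.lf (nat_lit 7955) (.g (nat_lit 633) (.e (nat_lit 318) (nat_lit 23) (.e (nat_lit 352287) (nat_lit 20) (.e (nat_lit 1998) (nat_lit 137) (.e (nat_lit 663568) (nat_lit 5) (.e (nat_lit 73795) (nat_lit 47) (.e (nat_lit 123163) (nat_lit 256) .nil)))))) (.g (nat_lit 0) .nil .nil))) 
(.lf (nat_lit 7987) (.g (nat_lit 2018) (.e (nat_lit 318) (nat_lit 23) (.e (nat_lit 352307) (nat_lit 21) (.e (nat_lit 57872) (nat_lit 264) (.e (nat_lit 1209) (nat_lit 89) (.e (nat_lit 73795) (nat_lit 47) (.e (nat_lit 123166) (nat_lit 256) .nil)))))) (.g (nat_lit 0) .nil .nil))))) (.nd (nat_lit 4) (.nd (nat_lit 5) 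
(.lf (nat_lit 7947) (.g (nat_lit 2539) (.e (nat_lit 318) (nat_lit 23) (.e (nat_lit 352275) (nat_lit 11) (.e (nat_lit 426343) (nat_lit 14) (.e (nat_lit 491560) (nat_lit 10) (.e (nat_lit 344178) (nat_lit 44) (.e (nat_lit 778340) (nat_lit 9) .nil)))))) (.g (nat_lit 6) .nil .nil))) 
(.lf (nat_lit 7979) (.g (nat_lit 1656) (.e (nat_lit 318) (nat_lit 23) (.e (nat_lit 352307) (nat_lit 21) (.e (nat_lit 57684) (nat_lit 155) (.e (nat_lit 122917) (nat_lit 15) (.e (nat_lit 360490) (nat_lit 22) (.e (nat_lit 778340) (nat_lit 9) .nil)))))) (.g (nat_lit 0) .nil .nil)))) (.nd (nat_lit 5) 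
(.lf (nat_lit 7963) (.g (nat_lit 594) (.e (nat_lit 318) (nat_lit 23) (.e (nat_lit 352297) (nat_lit 20) (.e (nat_lit 2004) (nat_lit 138) (.e (nat_lit 671763) (nat_lit 5) (.e (nat_lit 73795) (nat_lit 47) (.e (nat_lit 123164) (nat_lit 256) .nil)))))) (.g (nat_lit 0) .nil .nil))) 
(.lf (nat_lit 7995) (.g (nat_lit 555) (.e (nat_lit 318) (nat_lit 23) (.e (nat_lit 352309) (nat_lit 21) (.e (nat_lit 57872) (nat_lit 264) .nil))) .nil))))) (.nd (nat_lit 3) (.nd (nat_lit 4) (.nd (nat_lit 5) 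
(.lf (nat_lit 7943) (.g (nat_lit 1761) (.e (nat_lit 318) (nat_lit 23) (.e (nat_lit 352275) (nat_lit 11) (.e (nat_lit 426342) (nat_lit 14) (.e (nat_lit 491560) (nat_lit 10) (.e (nat_lit 344178) (nat_lit 44) .nil))))) .nil)) 
(.lf (nat_lit 7975) (.g (nat_lit 1711) (.e (nat_lit 318) (nat_lit 23) (.e (nat_lit 352307) (nat_lit 21) (.e (nat_lit 57682) (nat_lit 155) (.e (nat_lit 122917) (nat_lit 15) (.e (nat_lit 360490) (nat_lit 22) .nil))))) .nil))) (.nd (nat_lit 5) 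
(.lf (nat_lit 7959) (.g (nat_lit 1069) (.e (nat_lit 318) (nat_lit 23) (.e (nat_lit 352287) (nat_lit 20) (.e (nat_lit 1999) (nat_lit 137) (.e (nat_lit 663568) (nat_lit 5) (.e (nat_lit 73795) (nat_lit 47) (.e (nat_lit 123166) (nat_lit 256) .nil)))))) (.g (nat_lit 0) .nil .nil))) 
(.lf (nat_lit 7991) (.g (nat_lit 2028) (.e (nat_lit 318) (nat_lit 23) (.e (nat_lit 352307) (nat_lit 21) (.e (nat_lit 57873) (nat_lit 264) (.e (nat_lit 1211) (nat_lit 89) (.e (nat_lit 73795) (nat_lit 47) .nil))))) .nil)))) (.nd (nat_lit 4) (.nd (nat_lit 5) 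
(.lf (nat_lit 7951) (.g (nat_lit 793) (.e (nat_lit 318) (nat_lit 23) (.e (nat_lit 352287) (nat_lit 20) (.e (nat_lit 1994) (nat_lit 137) (.e (nat_lit 663568) (nat_lit 5) (.e (nat_lit 73795) (nat_lit 47) (.e (nat_lit 123164) (nat_lit 256) .nil)))))) (.g (nat_lit 0) .nil .nil))) 
(.lf (nat_lit 7983) (.g (nat_lit 1616) (.e (nat_lit 318) (nat_lit 23) (.e (nat_lit 352307) (nat_lit 21) (.e (nat_lit 57870) (nat_lit 264) (.e (nat_lit 1209) (nat_lit 89) (.e (nat_lit 73795) (nat_lit 47) (.e (nat_lit 123166) (nat_lit 256) .nil)))))) (.g (nat_lit 0) .nil .nil)))) (.nd (nat_lit 5) 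
(.lf (nat_lit 7967) (.g (nat_lit 853) (.e (nat_lit 318) (nat_lit 23) (.e (nat_lit 352297) (nat_lit 20) (.e (nat_lit 2006) (nat_lit 138) (.e (nat_lit 671763) (nat_lit 5) (.e (nat_lit 73795) (nat_lit 47) (.e (nat_lit 123166) (nat_lit 256) .nil)))))) (.g (nat_lit 0) .nil .nil))) 
(.lf (nat_lit 7999) (.g (nat_lit 364) (.e (nat_lit 318) (nat_lit 23) (.e (nat_lit 352313) (nat_lit 23) (.e (nat_lit 106240) (nat_lit 15) .nil))) .nil))))))))

noncomputable def tv111 : DT := (.nd (nat_lit 0) (.nd (nat_lit 1) (.nd (nat_lit 2) (.nd (nat_lit 3) (.nd (nat_lit 4) (.nd (nat_lit 5) 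
(.lf (nat_lit 8000) (.g (nat_lit 800) (.e (nat_lit 318) (nat_lit 23) (.e (nat_lit 352313) (nat_lit 23) (.e (nat_lit 106240) (nat_lit 16) (.e (nat_lit 401454) (nat_lit 12) (.e (nat_lit 483072) (nat_lit 0) .nil))))) (.g (nat_lit 4) .nil .nil))) 
(.lf (nat_lit 8032) (.g (nat_lit 727) (.e (nat_lit 319) (nat_lit 23) (.e (nat_lit 352312) (nat_lit 22) (.e (nat_lit 98048) (nat_lit 2) .nil))) .nil))) (.nd (nat_lit 5) 
(.lf (nat_lit 8016) (.g (nat_lit 1205) (.e (nat_lit 318) (nat_lit 23) (.e (nat_lit 352316) (nat_lit 24) (.e (nat_lit 123185) (nat_lit 264) (.e (nat_lit 1212) (nat_lit 89) (.e (nat_lit 73795) (nat_lit 47) (.e (nat_lit 123164) (nat_lit 256) .nil)))))) (.g (nat_lit 0) .nil .nil))) 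
(.lf (nat_lit 8048) (.g (nat_lit 1061) (.e (nat_lit 7936) (nat_lit 23) (.e (nat_lit 352315) (nat_lit 23) (.e (nat_lit 98359) (nat_lit 26) (.e (nat_lit 433920) (nat_lit 20) .nil)))) .nil)))) (.nd (nat_lit 4) (.nd (nat_lit 5) 
(.lf (nat_lit 8008) (.g (nat_lit 1781) (.e (nat_lit 318) (nat_lit 23) (.e (nat_lit 352316) (nat_lit 24) (.e (nat_lit 123182) (nat_lit 264) (.e (nat_lit 1214) (nat_lit 89) (.e (nat_lit 73795) (nat_lit 47) (.e (nat_lit 123165) (nat_lit 256) .nil)))))) (.g (nat_lit 4) .nil .nil))) 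
(.lf (nat_lit 8040) (.g (nat_lit 780) (.e (nat_lit 7936) (nat_lit 23) (.e (nat_lit 352312) (nat_lit 22) (.e (nat_lit 90133) (nat_lit 9) (.e (nat_lit 2397) (nat_lit 157) .nil)))) .nil))) (.nd (nat_lit 5) 
(.lf (nat_lit 8024) (.g (nat_lit 1621) (.e (nat_lit 318) (nat_lit 23) (.e (nat_lit 352318) (nat_lit 24) (.e (nat_lit 123184) (nat_lit 264) (.e (nat_lit 1212) (nat_lit 89) (.e (nat_lit 73795) (nat_lit 47) (.e (nat_lit 123163) (nat_lit 256) .nil)))))) (.g (nat_lit 5) .nil .nil))) 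
(.lf (nat_lit 8056) (.g (nat_lit 422) (.e (nat_lit 7936) (nat_lit 23) (.e (nat_lit 352324) (nat_lit 26) (.e (nat_lit 147492) (nat_lit 11) .nil))) .nil))))) (.nd (nat_lit 3) (.nd (nat_lit 4) (.nd (nat_lit 5) 
(.lf (nat_lit 8004) (.g (nat_lit 1700) (.e (nat_lit 318) (nat_lit 23) (.e (nat_lit 352316) (nat_lit 24) (.e (nat_lit 123182) (nat_lit 264) (.e (nat_lit 1212) (nat_lit 89) (.e (nat_lit 73795) (nat_lit 47) (.e (nat_lit 123164) (nat_lit 256) .nil)))))) (.g (nat_lit 0) .nil .nil))) 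
(.lf (nat_lit 8036) (.g (nat_lit 709) (.e (nat_lit 7936) (nat_lit 23) (.e (nat_lit 352280) (nat_lit 20) (.e (nat_lit 1842) (nat_lit 123) (.e (nat_lit 548873) (nat_lit 5) .nil)))) .nil))) (.nd (nat_lit 5) 
(.lf (nat_lit 8020) (.g (nat_lit 1032) (.e (nat_lit 318) (nat_lit 23) (.e (nat_lit 352316) (nat_lit 24) (.e (nat_lit 123198) (nat_lit 266) (.e (nat_lit 57421) (nat_lit 13) (.e (nat_lit 344085) (nat_lit 15) .nil))))) .nil)) 
(.lf (nat_lit 8052) (.g (nat_lit 582) (.e (nat_lit 7936) (nat_lit 23) (.e (nat_lit 352316) (nat_lit 24) (.e (nat_lit 130816) (nat_lit 143) .nil))) .nil)))) (.nd (nat_lit 4) (.nd (nat_lit 5) 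
(.lf (nat_lit 8012) (.g (nat_lit 1582) (.e (nat_lit 318) (nat_lit 23) (.e (nat_lit 352316) (nat_lit 24) (.e (nat_lit 123184) (nat_lit 264) (.e (nat_lit 1212) (nat_lit 89) (.e (nat_lit 73795) (nat_lit 47) (.e (nat_lit 123166) (nat_lit 256) .nil)))))) (.g (nat_lit 0) .nil .nil))) 
(.lf (nat_lit 8044) (.g (nat_lit 938) (.e (nat_lit 7936) (nat_lit 23) (.e (nat_lit 352313) (nat_lit 23) (.e (nat_lit 98356) (nat_lit 26) (.e (nat_lit 426361) (nat_lit 15) .nil)))) .nil))) (.nd (nat_lit 5) 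
(.lf (nat_lit 8028) (.g (nat_lit 1429) (.e (nat_lit 318) (nat_lit 23) (.e (nat_lit 352322) (nat_lit 26) (.e (nat_lit 147466) (nat_lit 9) (.e (nat_lit 324) (nat_lit 24) (.e (nat_lit 360490) (nat_lit 22) (.e (nat_lit 778340) (nat_lit 9) .nil)))))) (.g (nat_lit 0) .nil .nil))) 
(.lf (nat_lit 8060) (.g (nat_lit 1326) (.e (nat_lit 7936) (nat_lit 23) (.e (nat_lit 352324) (nat_lit 26) (.e (nat_lit 147495) (nat_lit 11) (.e (nat_lit 24631) (nat_lit 9) .nil)))) .nil)))))) (.nd (nat_lit 2) (.nd (nat_lit 3) (.nd (nat_lit 4) (.nd (nat_lit 5) 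
(.lf (nat_lit 8002) (.g (nat_lit 677) (.e (nat_lit 318) (nat_lit 23) (.e (nat_lit 352315) (nat_lit 23) (.e (nat_lit 106240) (nat_lit 15) .nil))) .nil)) 
(.lf (nat_lit 8034) (.g (nat_lit 1117) (.e (nat_lit 319) (nat_lit 23) (.e (nat_lit 352315) (nat_lit 23) (.e (nat_lit 106240) (nat_lit 16) (.e (nat_lit 401454) (nat_lit 12) (.e (nat_lit 483072) (nat_lit 0) .nil))))) (.g (nat_lit 4) .nil .nil)))) (.nd (nat_lit 5) 
(.lf (nat_lit 8018) (.g (nat_lit 1210) (.e (nat_lit 318) (nat_lit 23) (.e (nat_lit 352316) (nat_lit 24) (.e (nat_lit 123185) (nat_lit 264) (.e (nat_lit 1214) (nat_lit 89) (.e (nat_lit 73795) (nat_lit 47) (.e (nat_lit 123163) (nat_lit 256) .nil)))))) (.g (nat_lit 6) .nil .nil))) 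
(.lf (nat_lit 8050) (.g (nat_lit 813) (.e (nat_lit 7936) (nat_lit 23) (.e (nat_lit 352315) (nat_lit 23) (.e (nat_lit 98389) (nat_lit 33) (.e (nat_lit 491560) (nat_lit 10) .nil)))) .nil)))) (.nd (nat_lit 4) (.nd (nat_lit 5) 
(.lf (nat_lit 8010) (.g (nat_lit 1654) (.e (nat_lit 318) (nat_lit 23) (.e (nat_lit 352316) (nat_lit 24) (.e (nat_lit 123183) (nat_lit 264) (.e (nat_lit 1212) (nat_lit 89) (.e (nat_lit 73795) (nat_lit 47) (.e (nat_lit 123166) (nat_lit 256) .nil)))))) (.g (nat_lit 0) .nil .nil))) 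
(.lf (nat_lit 8042) (.g (nat_lit 811) (.e (nat_lit 7936) (nat_lit 23) (.e (nat_lit 352312) (nat_lit 22) (.e (nat_lit 90165) (nat_lit 12) (.e (nat_lit 171776) (nat_lit 192) .nil)))) .nil))) (.nd (nat_lit 5) 
(.lf (nat_lit 8026) (.g (nat_lit 643) (.e (nat_lit 318) (nat_lit 23) (.e (nat_lit 352318) (nat_lit 24) (.e (nat_lit 123185) (nat_lit 264) .nil))) .nil)) 
(.lf (nat_lit 8058) (.g (nat_lit 1524) (.e (nat_lit 7936) (nat_lit 23) (.e (nat_lit 352324) (nat_lit 26) (.e (nat_lit 147494) (nat_lit 11) (.e (nat_lit 24638) (nat_lit 9) (.e (nat_lit 336049) (nat_lit 6) .nil))))) .nil))))) (.nd (nat_lit 3) (.nd (nat_lit 4) (.nd (nat_lit 5) 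
(.lf (nat_lit 8006) (.g (nat_lit 1755) (.e (nat_lit 318) (nat_lit 23) (.e (nat_lit 352316) (nat_lit 24) (.e (nat_lit 123182) (nat_lit 264) (.e (nat_lit 1214) (nat_lit 89) (.e (nat_lit 73795) (nat_lit 47) .nil))))) .nil)) 
(.lf (nat_lit 8038) (.g (nat_lit 1580) (.e (nat_lit 7936) (nat_lit 23) (.e (nat_lit 352309) (nat_lit 21) (.e (nat_lit 57857) (nat_lit 254) (.e (nat_lit 163923) (nat_lit 15) (.e (nat_lit 450596) (nat_lit 17) .nil))))) .nil))) (.nd (nat_lit 5) 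
(.lf (nat_lit 8022) (.g (nat_lit 2030) (.e (nat_lit 318) (nat_lit 23) (.e (nat_lit 352318) (nat_lit 24) (.e (nat_lit 123182) (nat_lit 264) (.e (nat_lit 1214) (nat_lit 89) (.e (nat_lit 73795) (nat_lit 47) .nil))))) .nil)) 
(.lf (nat_lit 8054) (.g (nat_lit 1892) (.e (nat_lit 7936) (nat_lit 23) (.e (nat_lit 352322) (nat_lit 26) (.e (nat_lit 147495) (nat_lit 11) (.e (nat_lit 24631) (nat_lit 9) (.e (nat_lit 336046) (nat_lit 6) .nil))))) .nil)))) (.nd (nat_lit 4) (.nd (nat_lit 5) 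
(.lf (nat_lit 8014) (.g (nat_lit 1531) (.e (nat_lit 318) (nat_lit 23) (.e (nat_lit 352316) (nat_lit 24) (.e (nat_lit 123184) (nat_lit 264) (.e (nat_lit 1214) (nat_lit 89) (.e (nat_lit 73795) (nat_lit 47) (.e (nat_lit 123165) (nat_lit 256) .nil)))))) (.g (nat_lit 4) .nil .nil))) 
(.lf (nat_lit 8046) (.g (nat_lit 410) (.e (nat_lit 7936) (nat_lit 23) (.e (nat_lit 352315) (nat_lit 23) (.e (nat_lit 98325) (nat_lit 17) .nil))) .nil))) (.nd (nat_lit 5) 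
(.lf (nat_lit 8030) (.g (nat_lit 2523) (.e (nat_lit 318) (nat_lit 23) (.e (nat_lit 352322) (nat_lit 26) (.e (nat_lit 147496) (nat_lit 11) (.e (nat_lit 24640) (nat_lit 10) (.e (nat_lit 344178) (nat_lit 44) (.e (nat_lit 778340) (nat_lit 9) .nil)))))) (.g (nat_lit 6) .nil .nil))) 
(.lf (nat_lit 8062) (.g (nat_lit 1134) (.e (nat_lit 320) (nat_lit 24) (.e (nat_lit 360449) (nat_lit 0) (.e (nat_lit 7261) (nat_lit 384) (.e (nat_lit 57426) (nat_lit 15) (.e (nat_lit 360490) (nat_lit 22) .nil))))) .nil))))))) (.nd (nat_lit 1) (.nd (nat_lit 2) (.nd (nat_lit 3) (.nd (nat_lit 4) (.nd (nat_lit 5) 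
(.lf (nat_lit 8001) (.g (nat_lit 385) (.e (nat_lit 318) (nat_lit 23) (.e (nat_lit 352313) (nat_lit 23) (.e (nat_lit 98321) (nat_lit 17) .nil))) .nil)) 
(.lf (nat_lit 8033) (.g (nat_lit 979) (.e (nat_lit 319) (nat_lit 23) (.e (nat_lit 352312) (nat_lit 22) (.e (nat_lit 98048) (nat_lit 2) (.e (nat_lit 16461) (nat_lit 12) (.e (nat_lit 483072) (nat_lit 0) .nil))))) .nil))) (.nd (nat_lit 5) 
(.lf (nat_lit 8017) (.g (nat_lit 1235) (.e (nat_lit 318) (nat_lit 23) (.e (nat_lit 352316) (nat_lit 24) (.e (nat_lit 123185) (nat_lit 264) (.e (nat_lit 1212) (nat_lit 89) (.e (nat_lit 73795) (nat_lit 47) (.e (nat_lit 123166) (nat_lit 256) .nil)))))) (.g (nat_lit 0) .nil .nil))) 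
(.lf (nat_lit 8049) (.g (nat_lit 1325) (.e (nat_lit 7936) (nat_lit 23) (.e (nat_lit 352315) (nat_lit 23) (.e (nat_lit 98389) (nat_lit 33) (.e (nat_lit 491558) (nat_lit 10) (.e (nat_lit 344130) (nat_lit 26) .nil))))) .nil)))) (.nd (nat_lit 4) (.nd (nat_lit 5) 
(.lf (nat_lit 8009) (.g (nat_lit 1629) (.e (nat_lit 318) (nat_lit 23) (.e (nat_lit 352316) (nat_lit 24) (.e (nat_lit 123183) (nat_lit 264) (.e (nat_lit 1212) (nat_lit 89) (.e (nat_lit 73795) (nat_lit 47) (.e (nat_lit 123164) (nat_lit 256) .nil)))))) (.g (nat_lit 0) .nil .nil))) 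
(.lf (nat_lit 8041) (.g (nat_lit 751) (.e (nat_lit 7936) (nat_lit 23) (.e (nat_lit 352312) (nat_lit 22) (.e (nat_lit 90133) (nat_lit 9) (.e (nat_lit 2400) (nat_lit 157) .nil)))) .nil))) (.nd (nat_lit 5) 
(.lf (nat_lit 8025) (.g (nat_lit 1741) (.e (nat_lit 318) (nat_lit 23) (.e (nat_lit 352318) (nat_lit 24) (.e (nat_lit 123184) (nat_lit 264) (.e (nat_lit 1214) (nat_lit 89) (.e (nat_lit 73795) (nat_lit 47) .nil))))) .nil)) 
(.lf (nat_lit 8057) (.g (nat_lit 573) (.e (nat_lit 7936) (nat_lit 23) (.e (nat_lit 352324) (nat_lit 26) (.e (nat_lit 147493) (nat_lit 11) .nil))) .nil))))) (.nd (nat_lit 3) (.nd (nat_lit 4) (.nd (nat_lit 5) 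
(.lf (nat_lit 8005) (.g (nat_lit 1721) (.e (nat_lit 318) (nat_lit 23) (.e (nat_lit 352316) (nat_lit 24) (.e (nat_lit 123182) (nat_lit 264) (.e (nat_lit 1212) (nat_lit 89) (.e (nat_lit 73795) (nat_lit 47) (.e (nat_lit 123166) (nat_lit 256) .nil)))))) (.g (nat_lit 0) .nil .nil))) 
(.lf (nat_lit 8037) (.g (nat_lit 937) (.e (nat_lit 7936) (nat_lit 23) (.e (nat_lit 352303) (nat_lit 20) (.e (nat_lit 1842) (nat_lit 123) (.e (nat_lit 548872) (nat_lit 5) (.e (nat_lit 1598) (nat_lit 111) .nil))))) .nil))) (.nd (nat_lit 5) 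
(.lf (nat_lit 8021) (.g (nat_lit 1083) (.e (nat_lit 318) (nat_lit 23) (.e (nat_lit 352316) (nat_lit 24) (.e (nat_lit 123198) (nat_lit 266) (.e (nat_lit 57421) (nat_lit 13) (.e (nat_lit 344085) (nat_lit 15) (.e (nat_lit 123165) (nat_lit 256) .nil)))))) (.g (nat_lit 4) .nil .nil))) 
(.lf (nat_lit 8053) (.g (nat_lit 257) (.e (nat_lit 7936) (nat_lit 23) (.e (nat_lit 352316) (nat_lit 24) (.e (nat_lit 123183) (nat_lit 264) .nil))) .nil)))) (.nd (nat_lit 4) (.nd (nat_lit 5) 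
(.lf (nat_lit 8013) (.g (nat_lit 1526) (.e (nat_lit 318) (nat_lit 23) (.e (nat_lit 352316) (nat_lit 24) (.e (nat_lit 123184) (nat_lit 264) (.e (nat_lit 1214) (nat_lit 89) (.e (nat_lit 73795) (nat_lit 47) .nil))))) .nil)) 
(.lf (nat_lit 8045) (.g (nat_lit 1383) (.e (nat_lit 7936) (nat_lit 23) (.e (nat_lit 352315) (nat_lit 23) (.e (nat_lit 98320) (nat_lit 17) (.e (nat_lit 7593) (nat_lit 407) (.e (nat_lit 73754) (nat_lit 8) .nil))))) .nil))) (.nd (nat_lit 5) 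
(.lf (nat_lit 8029) (.g (nat_lit 1204) (.e (nat_lit 318) (nat_lit 23) (.e (nat_lit 352322) (nat_lit 26) (.e (nat_lit 147467) (nat_lit 9) (.e (nat_lit 324) (nat_lit 24) (.e (nat_lit 360490) (nat_lit 22) (.e (nat_lit 778340) (nat_lit 9) .nil)))))) (.g (nat_lit 0) .nil .nil))) 
(.lf (nat_lit 8061) (.g (nat_lit 1977) (.e (nat_lit 7936) (nat_lit 23) (.e (nat_lit 352324) (nat_lit 26) (.e (nat_lit 147496) (nat_lit 11) (.e (nat_lit 24631) (nat_lit 9) (.e (nat_lit 336046) (nat_lit 6) .nil))))) .nil)))))) (.nd (nat_lit 2) (.nd (nat_lit 3) (.nd (nat_lit 4) (.nd (nat_lit 5) 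
(.lf (nat_lit 8003) (.g (nat_lit 1657) (.e (nat_lit 318) (nat_lit 23) (.e (nat_lit 352316) (nat_lit 24) (.e (nat_lit 123182) (nat_lit 264) (.e (nat_lit 1212) (nat_lit 89) (.e (nat_lit 73795) (nat_lit 47) (.e (nat_lit 123163) (nat_lit 256) .nil)))))) (.g (nat_lit 0) .nil .nil))) 
(.lf (nat_lit 8035) (.g (nat_lit 1853) (.e (nat_lit 7936) (nat_lit 23) (.e (nat_lit 352262) (nat_lit 0) (.e (nat_lit 3632) (nat_lit 227) (.e (nat_lit 778323) (nat_lit 5) (.e (nat_lit 73794) (nat_lit 46) .nil))))) .nil))) (.nd (nat_lit 5) 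
(.lf (nat_lit 8019) (.g (nat_lit 1286) (.e (nat_lit 318) (nat_lit 23) (.e (nat_lit 352316) (nat_lit 24) (.e (nat_lit 123185) (nat_lit 264) (.e (nat_lit 1214) (nat_lit 89) (.e (nat_lit 73795) (nat_lit 47) (.e (nat_lit 123166) (nat_lit 256) .nil)))))) (.g (nat_lit 0) .nil .nil))) 
(.lf (nat_lit 8051) (.g (nat_lit 1611) (.e (nat_lit 7936) (nat_lit 23) (.e (nat_lit 352315) (nat_lit 23) (.e (nat_lit 98389) (nat_lit 33) (.e (nat_lit 491560) (nat_lit 10) (.e (nat_lit 344133) (nat_lit 26) .nil))))) .nil)))) (.nd (nat_lit 4) (.nd (nat_lit 5) 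
(.lf (nat_lit 8011) (.g (nat_lit 1555) (.e (nat_lit 318) (nat_lit 23) (.e (nat_lit 352316) (nat_lit 24) (.e (nat_lit 123184) (nat_lit 264) (.e (nat_lit 1212) (nat_lit 89) (.e (nat_lit 73795) (nat_lit 47) (.e (nat_lit 123164) (nat_lit 256) .nil)))))) (.g (nat_lit 0) .nil .nil))) 
(.lf (nat_lit 8043) (.g (nat_lit 1405) (.e (nat_lit 7936) (nat_lit 23) (.e (nat_lit 352312) (nat_lit 22) (.e (nat_lit 90170) (nat_lit 13) (.e (nat_lit 179968) (nat_lit 20) .nil)))) .nil))) (.nd (nat_lit 5) 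
(.lf (nat_lit 8027) (.g (nat_lit 638) (.e (nat_lit 318) (nat_lit 23) (.e (nat_lit 352318) (nat_lit 24) (.e (nat_lit 123197) (nat_lit 266) .nil))) .nil)) 
(.lf (nat_lit 8059) (.g (nat_lit 469) (.e (nat_lit 7936) (nat_lit 23) (.e (nat_lit 352324) (nat_lit 26) (.e (nat_lit 147495) (nat_lit 11) .nil))) .nil))))) (.nd (nat_lit 3) (.nd (nat_lit 4) (.nd (nat_lit 5) 
(.lf (nat_lit 8007) (.g (nat_lit 1768) (.e (nat_lit 318) (nat_lit 23) (.e (nat_lit 352316) (nat_lit 24) (.e (nat_lit 123182) (nat_lit 264) (.e (nat_lit 1214) (nat_lit 89) (.e (nat_lit 73795) (nat_lit 47) (.e (nat_lit 123164) (nat_lit 256) .nil)))))) (.g (nat_lit 4) .nil .nil))) 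
(.lf (nat_lit 8039) (.g (nat_lit 1005) (.e (nat_lit 7936) (nat_lit 23) (.e (nat_lit 352310) (nat_lit 22) (.e (nat_lit 90170) (nat_lit 13) (.e (nat_lit 179968) (nat_lit 20) .nil)))) .nil))) (.nd (nat_lit 5) 
(.lf (nat_lit 8023) (.g (nat_lit 1594) (.e (nat_lit 318) (nat_lit 23) (.e (nat_lit 352318) (nat_lit 24) (.e (nat_lit 123183) (nat_lit 264) (.e (nat_lit 1212) (nat_lit 89) (.e (nat_lit 73795) (nat_lit 47) (.e (nat_lit 123163) (nat_lit 256) .nil)))))) (.g (nat_lit 5) .nil .nil))) 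
(.lf (nat_lit 8055) (.g (nat_lit 531) (.e (nat_lit 7936) (nat_lit 23) (.e (nat_lit 352324) (nat_lit 26) (.e (nat_lit 147465) (nat_lit 9) .nil))) .nil)))) (.nd (nat_lit 4) (.nd (nat_lit 5) 
(.lf (nat_lit 8015) (.g (nat_lit 1550) (.e (nat_lit 318) (nat_lit 23) (.e (nat_lit 352316) (nat_lit 24) (.e (nat_lit 123184) (nat_lit 264) (.e (nat_lit 1214) (nat_lit 89) (.e (nat_lit 73795) (nat_lit 47) (.e (nat_lit 123166) (nat_lit 256) .nil)))))) (.g (nat_lit 4) .nil .nil))) 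
(.lf (nat_lit 8047) (.g (nat_lit 428) (.e (nat_lit 7936) (nat_lit 23) (.e (nat_lit 352315) (nat_lit 23) (.e (nat_lit 98357) (nat_lit 26) .nil))) .nil))) (.nd (nat_lit 5) 
(.lf (nat_lit 8031) (.g (nat_lit 728) (.e (nat_lit 318) (nat_lit 23) (.e (nat_lit 352324) (nat_lit 26) (.e (nat_lit 147495) (nat_lit 11) .nil))) .nil)) 
(.lf (nat_lit 8063) (.g (nat_lit 1608) (.e (nat_lit 320) (nat_lit 24) (.e (nat_lit 360449) (nat_lit 0) (.e (nat_lit 7261) (nat_lit 384) (.e (nat_lit 57426) (nat_lit 15) (.e (nat_lit 360490) (nat_lit 22) (.e (nat_lit 778339) (nat_lit 9) .nil)))))) (.g (nat_lit 6) .nil .nil)))))))))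

noncomputable def tv112 : DT := (.nd (nat_lit 0) (.nd (nat_lit 1) (.nd (nat_lit 2) (.nd (nat_lit 3) (.nd (nat_lit 4) (.nd (nat_lit 5) (.nd (nat_lit 6) 
(.lf (nat_lit 8064) (.g (nat_lit 1423) (.e (nat_lit 320) (nat_lit 24) (.e (nat_lit 360449) (nat_lit 0) (.e (nat_lit 7261) (nat_lit 384) (.e (nat_lit 57427) (nat_lit 15) (.e (nat_lit 360490) (nat_lit 22) .nil))))) .nil)) 
(.lf (nat_lit 8128) (.g (nat_lit 1064) (.e (nat_lit 320) (nat_lit 24) (.e (nat_lit 360489) (nat_lit 21) (.e (nat_lit 770057) (nat_lit 5) (.e (nat_lit 1595) (nat_lit 111) (.e (nat_lit 360490) (nat_lit 22) .nil))))) .nil))) (.nd (nat_lit 6) 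
(.lf (nat_lit 8096) (.g (nat_lit 2850) (.e (nat_lit 320) (nat_lit 24) (.e (nat_lit 360453) (nat_lit 0) (.e (nat_lit 7270) (nat_lit 385) (.e (nat_lit 122917) (nat_lit 15) (.e (nat_lit 360490) (nat_lit 22) (.e (nat_lit 778339) (nat_lit 9) .nil)))))) (.g (nat_lit 0) .nil .nil))) 
(.lf (nat_lit 8160) (.g (nat_lit 719) (.e (nat_lit 321) (nat_lit 24) (.e (nat_lit 360449) (nat_lit 0) (.e (nat_lit 7261) (nat_lit 384) (.e (nat_lit 57426) (nat_lit 15) .nil)))) .nil)))) (.nd (nat_lit 5) (.nd (nat_lit 6) 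
(.lf (nat_lit 8080) (.g (nat_lit 1687) (.e (nat_lit 320) (nat_lit 24) (.e (nat_lit 360451) (nat_lit 0) (.e (nat_lit 7261) (nat_lit 384) (.e (nat_lit 57427) (nat_lit 15) (.e (nat_lit 360490) (nat_lit 22) .nil))))) .nil)) 
(.lf (nat_lit 8144) (.g (nat_lit 1503) (.e (nat_lit 320) (nat_lit 24) (.e (nat_lit 360492) (nat_lit 22) (.e (nat_lit 778362) (nat_lit 9) (.e (nat_lit 321) (nat_lit 24) (.e (nat_lit 360490) (nat_lit 22) (.e (nat_lit 778339) (nat_lit 9) .nil)))))) (.g (nat_lit 6) .nil .nil)))) (.nd (nat_lit 6) 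
(.lf (nat_lit 8112) (.g (nat_lit 1806) (.e (nat_lit 320) (nat_lit 24) (.e (nat_lit 360474) (nat_lit 8) (.e (nat_lit 557059) (nat_lit 0) (.e (nat_lit 1633) (nat_lit 114) .nil)))) .nil)) 
(.lf (nat_lit 8176) (.g (nat_lit 2728) (.e (nat_lit 321) (nat_lit 24) (.e (nat_lit 360449) (nat_lit 0) (.e (nat_lit 7265) (nat_lit 384) (.e (nat_lit 57424) (nat_lit 14) (.e (nat_lit 352324) (nat_lit 26) (.e (nat_lit 147465) (nat_lit 9) .nil)))))) (.g (nat_lit 6) .nil .nil)))))) (.nd (nat_lit 4) (.nd (nat_lit 5) (.nd (nat_lit 6) 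
(.lf (nat_lit 8072) (.g (nat_lit 2050) (.e (nat_lit 320) (nat_lit 24) (.e (nat_lit 360449) (nat_lit 0) (.e (nat_lit 7265) (nat_lit 384) (.e (nat_lit 57427) (nat_lit 15) (.e (nat_lit 360490) (nat_lit 22) .nil))))) .nil)) 
(.lf (nat_lit 8136) (.g (nat_lit 396) (.e (nat_lit 320) (nat_lit 24) (.e (nat_lit 360490) (nat_lit 22) (.e (nat_lit 778339) (nat_lit 9) (.e (nat_lit 320) (nat_lit 24) .nil)))) .nil))) (.nd (nat_lit 6) 
(.lf (nat_lit 8104) (.g (nat_lit 1582) (.e (nat_lit 320) (nat_lit 24) (.e (nat_lit 360453) (nat_lit 0) (.e (nat_lit 7272) (nat_lit 385) (.e (nat_lit 122919) (nat_lit 15) (.e (nat_lit 368384) (nat_lit 22) .nil))))) .nil)) 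
(.lf (nat_lit 8168) (.g (nat_lit 1370) (.e (nat_lit 321) (nat_lit 24) (.e (nat_lit 360449) (nat_lit 0) (.e (nat_lit 7263) (nat_lit 384) (.e (nat_lit 57426) (nat_lit 15) (.e (nat_lit 360491) (nat_lit 22) (.e (nat_lit 778361) (nat_lit 9) .nil)))))) (.g (nat_lit 5) .nil .nil))))) (.nd (nat_lit 5) (.nd (nat_lit 6) 
(.lf (nat_lit 8088) (.g (nat_lit 569) (.e (nat_lit 320) (nat_lit 24) (.e (nat_lit 360452) (nat_lit 0) (.e (nat_lit 7270) (nat_lit 385) .nil))) .nil)) 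
(.lf (nat_lit 8152) (.g (nat_lit 1317) (.e (nat_lit 321) (nat_lit 24) (.e (nat_lit 360449) (nat_lit 0) (.e (nat_lit 7122) (nat_lit 382) (.e (nat_lit 1224) (nat_lit 90) .nil)))) .nil))) (.nd (nat_lit 6) 
(.lf (nat_lit 8120) (.g (nat_lit 1066) (.e (nat_lit 320) (nat_lit 24) (.e (nat_lit 360488) (nat_lit 20) (.e (nat_lit 761868) (nat_lit 5) (.e (nat_lit 1597) (nat_lit 111) (.e (nat_lit 368384) (nat_lit 22) .nil))))) .nil)) 
(.lf (nat_lit 8184) (.g (nat_lit 2522) (.e (nat_lit 321) (nat_lit 24) (.e (nat_lit 360449) (nat_lit 0) (.e (nat_lit 7266) (nat_lit 384) (.e (nat_lit 57426) (nat_lit 15) (.e (nat_lit 360491) (nat_lit 22) (.e (nat_lit 778362) (nat_lit 9) .nil)))))) (.g (nat_lit 0) .nil .nil))))))) (.nd (nat_lit 3) (.nd (nat_lit 4) (.nd (nat_lit 5) (.nd (nat_lit 6) 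
(.lf (nat_lit 8068) (.g (nat_lit 2296) (.e (nat_lit 320) (nat_lit 24) (.e (nat_lit 360449) (nat_lit 0) (.e (nat_lit 7265) (nat_lit 384) (.e (nat_lit 57406) (nat_lit 12) (.e (nat_lit 336182) (nat_lit 11) .nil))))) .nil)) 
(.lf (nat_lit 8132) (.g (nat_lit 970) (.e (nat_lit 320) (nat_lit 24) (.e (nat_lit 360489) (nat_lit 21) (.e (nat_lit 770058) (nat_lit 5) (.e (nat_lit 1595) (nat_lit 111) (.e (nat_lit 360490) (nat_lit 22) .nil))))) .nil))) (.nd (nat_lit 6) 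
(.lf (nat_lit 8100) (.g (nat_lit 425) (.e (nat_lit 320) (nat_lit 24) (.e (nat_lit 360453) (nat_lit 0) (.e (nat_lit 7272) (nat_lit 385) .nil))) .nil)) 
(.lf (nat_lit 8164) (.g (nat_lit 1330) (.e (nat_lit 321) (nat_lit 24) (.e (nat_lit 360449) (nat_lit 0) (.e (nat_lit 7261) (nat_lit 384) (.e (nat_lit 57427) (nat_lit 15) (.e (nat_lit 360492) (nat_lit 22) .nil))))) .nil)))) (.nd (nat_lit 5) (.nd (nat_lit 6) 
(.lf (nat_lit 8084) (.g (nat_lit 2197) (.e (nat_lit 320) (nat_lit 24) (.e (nat_lit 360451) (nat_lit 0) (.e (nat_lit 7265) (nat_lit 384) (.e (nat_lit 57427) (nat_lit 15) (.e (nat_lit 360490) (nat_lit 22) .nil))))) .nil)) 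
(.lf (nat_lit 8148) (.g (nat_lit 2096) (.e (nat_lit 320) (nat_lit 24) (.e (nat_lit 360492) (nat_lit 22) (.e (nat_lit 778466) (nat_lit 11) (.e (nat_lit 24640) (nat_lit 10) (.e (nat_lit 344178) (nat_lit 44) (.e (nat_lit 778339) (nat_lit 9) .nil)))))) (.g (nat_lit 4) .nil .nil)))) (.nd (nat_lit 6) 
(.lf (nat_lit 8116) (.g (nat_lit 1151) (.e (nat_lit 320) (nat_lit 24) (.e (nat_lit 360488) (nat_lit 20) (.e (nat_lit 761866) (nat_lit 5) (.e (nat_lit 1597) (nat_lit 111) (.e (nat_lit 368384) (nat_lit 22) .nil))))) .nil)) 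
(.lf (nat_lit 8180) (.g (nat_lit 2063) (.e (nat_lit 321) (nat_lit 24) (.e (nat_lit 360449) (nat_lit 0) (.e (nat_lit 7265) (nat_lit 384) (.e (nat_lit 57427) (nat_lit 15) (.e (nat_lit 360492) (nat_lit 22) .nil))))) .nil))))) (.nd (nat_lit 4) (.nd (nat_lit 5) (.nd (nat_lit 6) 
(.lf (nat_lit 8076) (.g (nat_lit 2135) (.e (nat_lit 320) (nat_lit 24) (.e (nat_lit 360449) (nat_lit 0) (.e (nat_lit 7266) (nat_lit 384) (.e (nat_lit 57426) (nat_lit 15) (.e (nat_lit 360490) (nat_lit 22) (.e (nat_lit 778339) (nat_lit 9) .nil)))))) (.g (nat_lit 0) .nil .nil))) 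
(.lf (nat_lit 8140) (.g (nat_lit 2255) (.e (nat_lit 320) (nat_lit 24) (.e (nat_lit 360491) (nat_lit 22) (.e (nat_lit 778466) (nat_lit 11) (.e (nat_lit 24640) (nat_lit 10) (.e (nat_lit 344178) (nat_lit 44) .nil))))) .nil))) (.nd (nat_lit 6) 
(.lf (nat_lit 8108) (.g (nat_lit 1094) (.e (nat_lit 320) (nat_lit 24) (.e (nat_lit 360467) (nat_lit 3) (.e (nat_lit 524032) (nat_lit 33) (.e (nat_lit 401454) (nat_lit 12) (.e (nat_lit 483072) (nat_lit 0) .nil))))) (.g (nat_lit 4) .nil .nil))) 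
(.lf (nat_lit 8172) (.g (nat_lit 352) (.e (nat_lit 321) (nat_lit 24) (.e (nat_lit 360449) (nat_lit 0) (.e (nat_lit 7265) (nat_lit 384) .nil))) .nil)))) (.nd (nat_lit 5) (.nd (nat_lit 6) 
(.lf (nat_lit 8092) (.g (nat_lit 1495) (.e (nat_lit 320) (nat_lit 24) (.e (nat_lit 360452) (nat_lit 0) (.e (nat_lit 7272) (nat_lit 385) (.e (nat_lit 122917) (nat_lit 15) .nil)))) .nil)) 
(.lf (nat_lit 8156) (.g (nat_lit 1608) (.e (nat_lit 321) (nat_lit 24) (.e (nat_lit 360449) (nat_lit 0) (.e (nat_lit 7125) (nat_lit 382) (.e (nat_lit 1224) (nat_lit 90) (.e (nat_lit 81963) (nat_lit 26) .nil))))) .nil))) (.nd (nat_lit 6) 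
(.lf (nat_lit 8124) (.g (nat_lit 1077) (.e (nat_lit 320) (nat_lit 24) (.e (nat_lit 360488) (nat_lit 20) (.e (nat_lit 761869) (nat_lit 5) (.e (nat_lit 1597) (nat_lit 111) (.e (nat_lit 368384) (nat_lit 22) .nil))))) .nil)) 
(.lf (nat_lit 8188) (.g (nat_lit 450) (.e (nat_lit 321) (nat_lit 24) (.e (nat_lit 360451) (nat_lit 0) (.e (nat_lit 7122) (nat_lit 382) .nil))) .nil))))))) (.nd (nat_lit 2) (.nd (nat_lit 3) (.nd (nat_lit 4) (.nd (nat_lit 5) (.nd (nat_lit 6) 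
(.lf (nat_lit 8066) (.g (nat_lit 1514) (.e (nat_lit 320) (nat_lit 24) (.e (nat_lit 360449) (nat_lit 0) (.e (nat_lit 7263) (nat_lit 384) (.e (nat_lit 57426) (nat_lit 15) (.e (nat_lit 360490) (nat_lit 22) (.e (nat_lit 778339) (nat_lit 9) .nil)))))) (.g (nat_lit 6) .nil .nil))) 
(.lf (nat_lit 8130) (.g (nat_lit 1233) (.e (nat_lit 320) (nat_lit 24) (.e (nat_lit 360489) (nat_lit 21) (.e (nat_lit 770057) (nat_lit 5) (.e (nat_lit 1598) (nat_lit 111) (.e (nat_lit 360490) (nat_lit 22) (.e (nat_lit 778339) (nat_lit 9) .nil)))))) (.g (nat_lit 6) .nil .nil)))) (.nd (nat_lit 6) 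
(.lf (nat_lit 8098) (.g (nat_lit 3377) (.e (nat_lit 320) (nat_lit 24) (.e (nat_lit 360453) (nat_lit 0) (.e (nat_lit 7270) (nat_lit 385) (.e (nat_lit 122919) (nat_lit 15) (.e (nat_lit 360490) (nat_lit 22) (.e (nat_lit 778339) (nat_lit 9) .nil)))))) (.g (nat_lit 6) .nil .nil))) 
(.lf (nat_lit 8162) (.g (nat_lit 1456) (.e (nat_lit 321) (nat_lit 24) (.e (nat_lit 360449) (nat_lit 0) (.e (nat_lit 7261) (nat_lit 384) (.e (nat_lit 57426) (nat_lit 15) (.e (nat_lit 360491) (nat_lit 22) (.e (nat_lit 778361) (nat_lit 9) .nil)))))) (.g (nat_lit 5) .nil .nil))))) (.nd (nat_lit 5) (.nd (nat_lit 6) 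
(.lf (nat_lit 8082) (.g (nat_lit 429) (.e (nat_lit 320) (nat_lit 24) (.e (nat_lit 360451) (nat_lit 0) (.e (nat_lit 7265) (nat_lit 384) .nil))) .nil)) 
(.lf (nat_lit 8146) (.g (nat_lit 1457) (.e (nat_lit 320) (nat_lit 24) (.e (nat_lit 360492) (nat_lit 22) (.e (nat_lit 778362) (nat_lit 9) (.e (nat_lit 324) (nat_lit 24) (.e (nat_lit 360490) (nat_lit 22) (.e (nat_lit 778339) (nat_lit 9) .nil)))))) (.g (nat_lit 6) .nil .nil)))) (.nd (nat_lit 6) 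
(.lf (nat_lit 8114) (.g (nat_lit 1782) (.e (nat_lit 320) (nat_lit 24) (.e (nat_lit 360486) (nat_lit 18) (.e (nat_lit 671762) (nat_lit 4) (.e (nat_lit 65584) (nat_lit 7) (.e (nat_lit 319511) (nat_lit 10) .nil))))) .nil)) 
(.lf (nat_lit 8178) (.g (nat_lit 1935) (.e (nat_lit 321) (nat_lit 24) (.e (nat_lit 360449) (nat_lit 0) (.e (nat_lit 7265) (nat_lit 384) (.e (nat_lit 57426) (nat_lit 15) (.e (nat_lit 360492) (nat_lit 22) .nil))))) .nil))))) (.nd (nat_lit 4) (.nd (nat_lit 5) (.nd (nat_lit 6) 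
(.lf (nat_lit 8074) (.g (nat_lit 1671) (.e (nat_lit 320) (nat_lit 24) (.e (nat_lit 360449) (nat_lit 0) (.e (nat_lit 7266) (nat_lit 384) (.e (nat_lit 57409) (nat_lit 12) (.e (nat_lit 336182) (nat_lit 11) .nil))))) .nil)) 
(.lf (nat_lit 8138) (.g (nat_lit 1226) (.e (nat_lit 320) (nat_lit 24) (.e (nat_lit 360491) (nat_lit 22) (.e (nat_lit 778362) (nat_lit 9) (.e (nat_lit 321) (nat_lit 24) (.e (nat_lit 360490) (nat_lit 22) (.e (nat_lit 778339) (nat_lit 9) .nil)))))) (.g (nat_lit 4) .nil .nil)))) (.nd (nat_lit 6) 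
(.lf (nat_lit 8106) (.g (nat_lit 1386) (.e (nat_lit 320) (nat_lit 24) (.e (nat_lit 360453) (nat_lit 0) (.e (nat_lit 7273) (nat_lit 385) (.e (nat_lit 122919) (nat_lit 15) (.e (nat_lit 360490) (nat_lit 22) .nil))))) .nil)) 
(.lf (nat_lit 8170) (.g (nat_lit 1560) (.e (nat_lit 321) (nat_lit 24) (.e (nat_lit 360449) (nat_lit 0) (.e (nat_lit 7263) (nat_lit 384) (.e (nat_lit 57427) (nat_lit 15) (.e (nat_lit 360491) (nat_lit 22) (.e (nat_lit 778361) (nat_lit 9) .nil)))))) (.g (nat_lit 5) .nil .nil))))) (.nd (nat_lit 5) (.nd (nat_lit 6) 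
(.lf (nat_lit 8090) (.g (nat_lit 2874) (.e (nat_lit 320) (nat_lit 24) (.e (nat_lit 360452) (nat_lit 0) (.e (nat_lit 7270) (nat_lit 385) (.e (nat_lit 122919) (nat_lit 15) (.e (nat_lit 360490) (nat_lit 22) .nil))))) .nil)) 
(.lf (nat_lit 8154) (.g (nat_lit 1526) (.e (nat_lit 321) (nat_lit 24) (.e (nat_lit 360449) (nat_lit 0) (.e (nat_lit 7125) (nat_lit 382) (.e (nat_lit 1223) (nat_lit 90) (.e (nat_lit 81965) (nat_lit 26) (.e (nat_lit 147463) (nat_lit 9) .nil)))))) (.g (nat_lit 4) .nil .nil)))) (.nd (nat_lit 6) 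
(.lf (nat_lit 8122) (.g (nat_lit 722) (.e (nat_lit 320) (nat_lit 24) (.e (nat_lit 360488) (nat_lit 20) (.e (nat_lit 761869) (nat_lit 5) (.e (nat_lit 1585) (nat_lit 111) .nil)))) .nil)) 
(.lf (nat_lit 8186) (.g (nat_lit 2134) (.e (nat_lit 321) (nat_lit 24) (.e (nat_lit 360449) (nat_lit 0) (.e (nat_lit 7266) (nat_lit 384) (.e (nat_lit 57427) (nat_lit 15) (.e (nat_lit 360491) (nat_lit 22) (.e (nat_lit 778360) (nat_lit 9) .nil)))))) (.g (nat_lit 6) .nil .nil))))))) (.nd (nat_lit 3) (.nd (nat_lit 4) (.nd (nat_lit 5) (.nd (nat_lit 6) 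
(.lf (nat_lit 8070) (.g (nat_lit 2359) (.e (nat_lit 320) (nat_lit 24) (.e (nat_lit 360449) (nat_lit 0) (.e (nat_lit 7265) (nat_lit 384) (.e (nat_lit 57426) (nat_lit 15) (.e (nat_lit 360490) (nat_lit 22) (.e (nat_lit 778339) (nat_lit 9) .nil)))))) (.g (nat_lit 6) .nil .nil))) 
(.lf (nat_lit 8134) (.g (nat_lit 821) (.e (nat_lit 320) (nat_lit 24) (.e (nat_lit 360489) (nat_lit 21) (.e (nat_lit 770058) (nat_lit 5) (.e (nat_lit 1598) (nat_lit 111) (.e (nat_lit 360490) (nat_lit 22) .nil))))) .nil))) (.nd (nat_lit 6) 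
(.lf (nat_lit 8102) (.g (nat_lit 1643) (.e (nat_lit 320) (nat_lit 24) (.e (nat_lit 360453) (nat_lit 0) (.e (nat_lit 7272) (nat_lit 385) (.e (nat_lit 122917) (nat_lit 15) (.e (nat_lit 368384) (nat_lit 22) .nil))))) .nil)) 
(.lf (nat_lit 8166) (.g (nat_lit 1642) (.e (nat_lit 321) (nat_lit 24) (.e (nat_lit 360449) (nat_lit 0) (.e (nat_lit 7263) (nat_lit 384) (.e (nat_lit 57424) (nat_lit 14) (.e (nat_lit 352322) (nat_lit 26) .nil))))) .nil)))) (.nd (nat_lit 5) (.nd (nat_lit 6) 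
(.lf (nat_lit 8086) (.g (nat_lit 1887) (.e (nat_lit 320) (nat_lit 24) (.e (nat_lit 360451) (nat_lit 0) (.e (nat_lit 7266) (nat_lit 384) (.e (nat_lit 57426) (nat_lit 15) (.e (nat_lit 360490) (nat_lit 22) .nil))))) .nil)) 
(.lf (nat_lit 8150) (.g (nat_lit 2351) (.e (nat_lit 321) (nat_lit 24) (.e (nat_lit 360449) (nat_lit 0) (.e (nat_lit 7122) (nat_lit 382) (.e (nat_lit 1222) (nat_lit 90) (.e (nat_lit 81965) (nat_lit 26) (.e (nat_lit 147466) (nat_lit 9) .nil)))))) (.g (nat_lit 4) .nil .nil)))) (.nd (nat_lit 6) 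
(.lf (nat_lit 8118) (.g (nat_lit 641) (.e (nat_lit 320) (nat_lit 24) (.e (nat_lit 360488) (nat_lit 20) (.e (nat_lit 761868) (nat_lit 5) (.e (nat_lit 1585) (nat_lit 111) .nil)))) .nil)) 
(.lf (nat_lit 8182) (.g (nat_lit 1686) (.e (nat_lit 321) (nat_lit 24) (.e (nat_lit 360449) (nat_lit 0) (.e (nat_lit 7266) (nat_lit 384) (.e (nat_lit 57426) (nat_lit 15) (.e (nat_lit 360491) (nat_lit 22) (.e (nat_lit 778359) (nat_lit 9) .nil)))))) (.g (nat_lit 4) .nil .nil)))))) (.nd (nat_lit 4) (.nd (nat_lit 5) (.nd (nat_lit 6) 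
(.lf (nat_lit 8078) (.g (nat_lit 2366) (.e (nat_lit 320) (nat_lit 24) (.e (nat_lit 360449) (nat_lit 0) (.e (nat_lit 7266) (nat_lit 384) (.e (nat_lit 57427) (nat_lit 15) (.e (nat_lit 360490) (nat_lit 22) (.e (nat_lit 778339) (nat_lit 9) .nil)))))) (.g (nat_lit 0) .nil .nil))) 
(.lf (nat_lit 8142) (.g (nat_lit 936) (.e (nat_lit 320) (nat_lit 24) (.e (nat_lit 360492) (nat_lit 22) (.e (nat_lit 778359) (nat_lit 9) (.e (nat_lit 324) (nat_lit 24) (.e (nat_lit 360490) (nat_lit 22) (.e (nat_lit 778339) (nat_lit 9) .nil)))))) (.g (nat_lit 6) .nil .nil)))) (.nd (nat_lit 6) 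
(.lf (nat_lit 8110) (.g (nat_lit 741) (.e (nat_lit 320) (nat_lit 24) (.e (nat_lit 360473) (nat_lit 8) (.e (nat_lit 557060) (nat_lit 0) .nil))) .nil)) 
(.lf (nat_lit 8174) (.g (nat_lit 2032) (.e (nat_lit 321) (nat_lit 24) (.e (nat_lit 360449) (nat_lit 0) (.e (nat_lit 7265) (nat_lit 384) (.e (nat_lit 57424) (nat_lit 14) (.e (nat_lit 352322) (nat_lit 26) (.e (nat_lit 147467) (nat_lit 9) .nil)))))) (.g (nat_lit 4) .nil .nil))))) (.nd (nat_lit 5) (.nd (nat_lit 6) 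
(.lf (nat_lit 8094) (.g (nat_lit 636) (.e (nat_lit 320) (nat_lit 24) (.e (nat_lit 360452) (nat_lit 0) (.e (nat_lit 7273) (nat_lit 385) .nil))) .nil)) 
(.lf (nat_lit 8158) (.g (nat_lit 381) (.e (nat_lit 321) (nat_lit 24) (.e (nat_lit 360449) (nat_lit 0) (.e (nat_lit 7261) (nat_lit 384) .nil))) .nil))) (.nd (nat_lit 6) 
(.lf (nat_lit 8126) (.g (nat_lit 1140) (.e (nat_lit 320) (nat_lit 24) (.e (nat_lit 360489) (nat_lit 21) (.e (nat_lit 770056) (nat_lit 5) (.e (nat_lit 1598) (nat_lit 111) (.e (nat_lit 360490) (nat_lit 22) (.e (nat_lit 778339) (nat_lit 9) .nil)))))) (.g (nat_lit 6) .nil .nil))) 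
(.lf (nat_lit 8190) (.g (nat_lit 2290) (.e (nat_lit 321) (nat_lit 24) (.e (nat_lit 360451) (nat_lit 0) (.e (nat_lit 7125) (nat_lit 382) (.e (nat_lit 1222) (nat_lit 90) (.e (nat_lit 81963) (nat_lit 26) .nil))))) .nil)))))))) (.nd (nat_lit 1) (.nd (nat_lit 2) (.nd (nat_lit 3) (.nd (nat_lit 4) (.nd (nat_lit 5) (.nd (nat_lit 6) 
(.lf (nat_lit 8065) (.g (nat_lit 1054) (.e (nat_lit 320) (nat_lit 24) (.e (nat_lit 360449) (nat_lit 0) (.e (nat_lit 7263) (nat_lit 384) (.e (nat_lit 57426) (nat_lit 15) (.e (nat_lit 360490) (nat_lit 22) .nil))))) .nil)) 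
(.lf (nat_lit 8129) (.g (nat_lit 1492) (.e (nat_lit 320) (nat_lit 24) (.e (nat_lit 360489) (nat_lit 21) (.e (nat_lit 770057) (nat_lit 5) (.e (nat_lit 1595) (nat_lit 111) (.e (nat_lit 360490) (nat_lit 22) (.e (nat_lit 778339) (nat_lit 9) .nil)))))) (.g (nat_lit 6) .nil .nil)))) (.nd (nat_lit 6) 
(.lf (nat_lit 8097) (.g (nat_lit 2081) (.e (nat_lit 320) (nat_lit 24) (.e (nat_lit 360453) (nat_lit 0) (.e (nat_lit 7270) (nat_lit 385) (.e (nat_lit 122917) (nat_lit 15) (.e (nat_lit 368384) (nat_lit 22) .nil))))) .nil)) 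
(.lf (nat_lit 8161) (.g (nat_lit 1121) (.e (nat_lit 321) (nat_lit 24) (.e (nat_lit 360449) (nat_lit 0) (.e (nat_lit 7261) (nat_lit 384) (.e (nat_lit 57426) (nat_lit 15) (.e (nat_lit 360491) (nat_lit 22) .nil))))) .nil)))) (.nd (nat_lit 5) (.nd (nat_lit 6) 
(.lf (nat_lit 8081) (.g (nat_lit 543) (.e (nat_lit 320) (nat_lit 24) (.e (nat_lit 360451) (nat_lit 0) (.e (nat_lit 7263) (nat_lit 384) .nil))) .nil)) 
(.lf (nat_lit 8145) (.g (nat_lit 980) (.e (nat_lit 320) (nat_lit 24) (.e (nat_lit 360492) (nat_lit 22) (.e (nat_lit 778362) (nat_lit 9) (.e (nat_lit 324) (nat_lit 24) (.e (nat_lit 360490) (nat_lit 22) .nil))))) .nil))) (.nd (nat_lit 6) 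
(.lf (nat_lit 8113) (.g (nat_lit 1987) (.e (nat_lit 320) (nat_lit 24) (.e (nat_lit 360475) (nat_lit 8) (.e (nat_lit 557119) (nat_lit 18) (.e (nat_lit 2797) (nat_lit 180) .nil)))) .nil)) 
(.lf (nat_lit 8177) (.g (nat_lit 1889) (.e (nat_lit 321) (nat_lit 24) (.e (nat_lit 360449) (nat_lit 0) (.e (nat_lit 7265) (nat_lit 384) (.e (nat_lit 57426) (nat_lit 15) (.e (nat_lit 360491) (nat_lit 22) .nil))))) .nil))))) (.nd (nat_lit 4) (.nd (nat_lit 5) (.nd (nat_lit 6) 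
(.lf (nat_lit 8073) (.g (nat_lit 2602) (.e (nat_lit 320) (nat_lit 24) (.e (nat_lit 360449) (nat_lit 0) (.e (nat_lit 7265) (nat_lit 384) (.e (nat_lit 57427) (nat_lit 15) (.e (nat_lit 360490) (nat_lit 22) (.e (nat_lit 778339) (nat_lit 9) .nil)))))) (.g (nat_lit 6) .nil .nil))) 
(.lf (nat_lit 8137) (.g (nat_lit 1178) (.e (nat_lit 320) (nat_lit 24) (.e (nat_lit 360491) (nat_lit 22) (.e (nat_lit 778361) (nat_lit 9) (.e (nat_lit 321) (nat_lit 24) (.e (nat_lit 360490) (nat_lit 22) (.e (nat_lit 778339) (nat_lit 9) .nil)))))) (.g (nat_lit 5) .nil .nil)))) (.nd (nat_lit 6) 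
(.lf (nat_lit 8105) (.g (nat_lit 1829) (.e (nat_lit 320) (nat_lit 24) (.e (nat_lit 360453) (nat_lit 0) (.e (nat_lit 7273) (nat_lit 385) (.e (nat_lit 122917) (nat_lit 15) (.e (nat_lit 360490) (nat_lit 22) (.e (nat_lit 778339) (nat_lit 9) .nil)))))) (.g (nat_lit 0) .nil .nil))) 
(.lf (nat_lit 8169) (.g (nat_lit 1224) (.e (nat_lit 321) (nat_lit 24) (.e (nat_lit 360449) (nat_lit 0) (.e (nat_lit 7263) (nat_lit 384) (.e (nat_lit 57427) (nat_lit 15) (.e (nat_lit 360491) (nat_lit 22) .nil))))) .nil)))) (.nd (nat_lit 5) (.nd (nat_lit 6) 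
(.lf (nat_lit 8089) (.g (nat_lit 2445) (.e (nat_lit 320) (nat_lit 24) (.e (nat_lit 360452) (nat_lit 0) (.e (nat_lit 7270) (nat_lit 385) (.e (nat_lit 122917) (nat_lit 15) (.e (nat_lit 360490) (nat_lit 22) .nil))))) .nil)) 
(.lf (nat_lit 8153) (.g (nat_lit 1702) (.e (nat_lit 321) (nat_lit 24) (.e (nat_lit 360449) (nat_lit 0) (.e (nat_lit 7125) (nat_lit 382) (.e (nat_lit 1222) (nat_lit 90) (.e (nat_lit 81963) (nat_lit 26) .nil))))) .nil))) (.nd (nat_lit 6) 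
(.lf (nat_lit 8121) (.g (nat_lit 433) (.e (nat_lit 320) (nat_lit 24) (.e (nat_lit 360488) (nat_lit 20) (.e (nat_lit 761869) (nat_lit 5) .nil))) .nil)) 
(.lf (nat_lit 8185) (.g (nat_lit 1759) (.e (nat_lit 321) (nat_lit 24) (.e (nat_lit 360449) (nat_lit 0) (.e (nat_lit 7266) (nat_lit 384) (.e (nat_lit 57427) (nat_lit 15) (.e (nat_lit 360491) (nat_lit 22) (.e (nat_lit 778359) (nat_lit 9) .nil)))))) (.g (nat_lit 4) .nil .nil))))))) (.nd (nat_lit 3) (.nd (nat_lit 4) (.nd (nat_lit 5) (.nd (nat_lit 6) 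
(.lf (nat_lit 8069) (.g (nat_lit 1871) (.e (nat_lit 320) (nat_lit 24) (.e (nat_lit 360449) (nat_lit 0) (.e (nat_lit 7265) (nat_lit 384) (.e (nat_lit 57426) (nat_lit 15) (.e (nat_lit 360490) (nat_lit 22) .nil))))) .nil)) 
(.lf (nat_lit 8133) (.g (nat_lit 1415) (.e (nat_lit 320) (nat_lit 24) (.e (nat_lit 360489) (nat_lit 21) (.e (nat_lit 770058) (nat_lit 5) (.e (nat_lit 1595) (nat_lit 111) (.e (nat_lit 360490) (nat_lit 22) (.e (nat_lit 778339) (nat_lit 9) .nil)))))) (.g (nat_lit 6) .nil .nil)))) (.nd (nat_lit 6) 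
(.lf (nat_lit 8101) (.g (nat_lit 2388) (.e (nat_lit 320) (nat_lit 24) (.e (nat_lit 360453) (nat_lit 0) (.e (nat_lit 7272) (nat_lit 385) (.e (nat_lit 122917) (nat_lit 15) (.e (nat_lit 360490) (nat_lit 22) (.e (nat_lit 778339) (nat_lit 9) .nil)))))) (.g (nat_lit 6) .nil .nil))) 
(.lf (nat_lit 8165) (.g (nat_lit 1499) (.e (nat_lit 321) (nat_lit 24) (.e (nat_lit 360449) (nat_lit 0) (.e (nat_lit 7261) (nat_lit 384) (.e (nat_lit 57428) (nat_lit 15) (.e (nat_lit 360492) (nat_lit 22) .nil))))) .nil)))) (.nd (nat_lit 5) (.nd (nat_lit 6) 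
(.lf (nat_lit 8085) (.g (nat_lit 1422) (.e (nat_lit 320) (nat_lit 24) (.e (nat_lit 360451) (nat_lit 0) (.e (nat_lit 7266) (nat_lit 384) (.e (nat_lit 57409) (nat_lit 12) .nil)))) .nil)) 
(.lf (nat_lit 8149) (.g (nat_lit 2442) (.e (nat_lit 321) (nat_lit 24) (.e (nat_lit 360449) (nat_lit 0) (.e (nat_lit 7122) (nat_lit 382) (.e (nat_lit 1222) (nat_lit 90) (.e (nat_lit 81963) (nat_lit 26) (.e (nat_lit 147466) (nat_lit 9) .nil)))))) (.g (nat_lit 5) .nil .nil)))) (.nd (nat_lit 6) 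
(.lf (nat_lit 8117) (.g (nat_lit 956) (.e (nat_lit 320) (nat_lit 24) (.e (nat_lit 360488) (nat_lit 20) (.e (nat_lit 761867) (nat_lit 5) (.e (nat_lit 1597) (nat_lit 111) (.e (nat_lit 360490) (nat_lit 22) .nil))))) .nil)) 
(.lf (nat_lit 8181) (.g (nat_lit 1730) (.e (nat_lit 321) (nat_lit 24) (.e (nat_lit 360449) (nat_lit 0) (.e (nat_lit 7265) (nat_lit 384) (.e (nat_lit 57428) (nat_lit 15) (.e (nat_lit 360492) (nat_lit 22) .nil))))) .nil))))) (.nd (nat_lit 4) (.nd (nat_lit 5) (.nd (nat_lit 6) 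
(.lf (nat_lit 8077) (.g (nat_lit 1828) (.e (nat_lit 320) (nat_lit 24) (.e (nat_lit 360449) (nat_lit 0) (.e (nat_lit 7266) (nat_lit 384) (.e (nat_lit 57427) (nat_lit 15) (.e (nat_lit 360490) (nat_lit 22) (.e (nat_lit 778337) (nat_lit 9) .nil)))))) (.g (nat_lit 4) .nil .nil))) 
(.lf (nat_lit 8141) (.g (nat_lit 359) (.e (nat_lit 320) (nat_lit 24) (.e (nat_lit 360492) (nat_lit 22) (.e (nat_lit 778359) (nat_lit 9) (.e (nat_lit 324) (nat_lit 24) .nil)))) .nil))) (.nd (nat_lit 6) 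
(.lf (nat_lit 8109) (.g (nat_lit 1019) (.e (nat_lit 320) (nat_lit 24) (.e (nat_lit 368384) (nat_lit 5) (.e (nat_lit 532583) (nat_lit 26) (.e (nat_lit 426308) (nat_lit 12) (.e (nat_lit 483072) (nat_lit 0) .nil))))) (.g (nat_lit 4) .nil .nil))) 
(.lf (nat_lit 8173) (.g (nat_lit 2230) (.e (nat_lit 321) (nat_lit 24) (.e (nat_lit 360449) (nat_lit 0) (.e (nat_lit 7265) (nat_lit 384) (.e (nat_lit 57347) (nat_lit 0) (.e (nat_lit 7936) (nat_lit 348) .nil))))) .nil)))) (.nd (nat_lit 5) (.nd (nat_lit 6) 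
(.lf (nat_lit 8093) (.g (nat_lit 1504) (.e (nat_lit 320) (nat_lit 24) (.e (nat_lit 360452) (nat_lit 0) (.e (nat_lit 7272) (nat_lit 385) (.e (nat_lit 122919) (nat_lit 15) .nil)))) .nil)) 
(.lf (nat_lit 8157) (.g (nat_lit 1034) (.e (nat_lit 321) (nat_lit 24) (.e (nat_lit 360449) (nat_lit 0) (.e (nat_lit 7125) (nat_lit 382) (.e (nat_lit 7936) (nat_lit 90) .nil)))) .nil))) (.nd (nat_lit 6) 
(.lf (nat_lit 8125) (.g (nat_lit 1165) (.e (nat_lit 320) (nat_lit 24) (.e (nat_lit 360489) (nat_lit 21) (.e (nat_lit 770055) (nat_lit 5) (.e (nat_lit 1598) (nat_lit 111) (.e (nat_lit 360490) (nat_lit 22) (.e (nat_lit 778339) (nat_lit 9) .nil)))))) (.g (nat_lit 6) .nil .nil))) 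
(.lf (nat_lit 8189) (.g (nat_lit 565) (.e (nat_lit 321) (nat_lit 24) (.e (nat_lit 360451) (nat_lit 0) (.e (nat_lit 7124) (nat_lit 382) .nil))) .nil))))))) (.nd (nat_lit 2) (.nd (nat_lit 3) (.nd (nat_lit 4) (.nd (nat_lit 5) (.nd (nat_lit 6) 
(.lf (nat_lit 8067) (.g (nat_lit 1317) (.e (nat_lit 320) (nat_lit 24) (.e (nat_lit 360449) (nat_lit 0) (.e (nat_lit 7263) (nat_lit 384) (.e (nat_lit 57427) (nat_lit 15) (.e (nat_lit 360490) (nat_lit 22) .nil))))) .nil)) 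
(.lf (nat_lit 8131) (.g (nat_lit 228) (.e (nat_lit 320) (nat_lit 24) (.e (nat_lit 360489) (nat_lit 21) (.e (nat_lit 770058) (nat_lit 5) .nil))) .nil))) (.nd (nat_lit 6) 
(.lf (nat_lit 8099) (.g (nat_lit 2503) (.e (nat_lit 320) (nat_lit 24) (.e (nat_lit 360453) (nat_lit 0) (.e (nat_lit 7270) (nat_lit 385) (.e (nat_lit 122919) (nat_lit 15) (.e (nat_lit 368384) (nat_lit 22) .nil))))) .nil)) 
(.lf (nat_lit 8163) (.g (nat_lit 1257) (.e (nat_lit 321) (nat_lit 24) (.e (nat_lit 360449) (nat_lit 0) (.e (nat_lit 7261) (nat_lit 384) (.e (nat_lit 57427) (nat_lit 15) (.e (nat_lit 360491) (nat_lit 22) .nil))))) .nil)))) (.nd (nat_lit 5) (.nd (nat_lit 6) 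
(.lf (nat_lit 8083) (.g (nat_lit 1920) (.e (nat_lit 320) (nat_lit 24) (.e (nat_lit 360451) (nat_lit 0) (.e (nat_lit 7265) (nat_lit 384) (.e (nat_lit 57426) (nat_lit 15) (.e (nat_lit 360490) (nat_lit 22) .nil))))) .nil)) 
(.lf (nat_lit 8147) (.g (nat_lit 2253) (.e (nat_lit 320) (nat_lit 24) (.e (nat_lit 360492) (nat_lit 22) (.e (nat_lit 778465) (nat_lit 11) (.e (nat_lit 24640) (nat_lit 10) (.e (nat_lit 344178) (nat_lit 44) .nil))))) .nil))) (.nd (nat_lit 6) 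
(.lf (nat_lit 8115) (.g (nat_lit 1061) (.e (nat_lit 320) (nat_lit 24) (.e (nat_lit 360488) (nat_lit 20) (.e (nat_lit 761866) (nat_lit 5) (.e (nat_lit 1597) (nat_lit 111) (.e (nat_lit 360490) (nat_lit 22) .nil))))) .nil)) 
(.lf (nat_lit 8179) (.g (nat_lit 1946) (.e (nat_lit 321) (nat_lit 24) (.e (nat_lit 360449) (nat_lit 0) (.e (nat_lit 7265) (nat_lit 384) (.e (nat_lit 57427) (nat_lit 15) (.e (nat_lit 360491) (nat_lit 22) .nil))))) .nil))))) (.nd (nat_lit 4) (.nd (nat_lit 5) (.nd (nat_lit 6) 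
(.lf (nat_lit 8075) (.g (nat_lit 1607) (.e (nat_lit 320) (nat_lit 24) (.e (nat_lit 360449) (nat_lit 0) (.e (nat_lit 7266) (nat_lit 384) (.e (nat_lit 57426) (nat_lit 15) (.e (nat_lit 360490) (nat_lit 22) .nil))))) .nil)) 
(.lf (nat_lit 8139) (.g (nat_lit 1110) (.e (nat_lit 320) (nat_lit 24) (.e (nat_lit 360491) (nat_lit 22) (.e (nat_lit 778362) (nat_lit 9) (.e (nat_lit 324) (nat_lit 24) (.e (nat_lit 360490) (nat_lit 22) (.e (nat_lit 778339) (nat_lit 9) .nil)))))) (.g (nat_lit 4) .nil .nil)))) (.nd (nat_lit 6) 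
(.lf (nat_lit 8107) (.g (nat_lit 613) (.e (nat_lit 320) (nat_lit 24) (.e (nat_lit 360467) (nat_lit 3) (.e (nat_lit 524032) (nat_lit 32) .nil))) .nil)) 
(.lf (nat_lit 8171) (.g (nat_lit 1271) (.e (nat_lit 321) (nat_lit 24) (.e (nat_lit 360449) (nat_lit 0) (.e (nat_lit 7263) (nat_lit 384) (.e (nat_lit 57427) (nat_lit 15) (.e (nat_lit 360492) (nat_lit 22) .nil))))) .nil)))) (.nd (nat_lit 5) (.nd (nat_lit 6) 
(.lf (nat_lit 8091) (.g (nat_lit 632) (.e (nat_lit 320) (nat_lit 24) (.e (nat_lit 360452) (nat_lit 0) (.e (nat_lit 7271) (nat_lit 385) .nil))) .nil)) 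
(.lf (nat_lit 8155) (.g (nat_lit 2850) (.e (nat_lit 321) (nat_lit 24) (.e (nat_lit 360449) (nat_lit 0) (.e (nat_lit 7125) (nat_lit 382) (.e (nat_lit 1223) (nat_lit 90) (.e (nat_lit 81965) (nat_lit 26) (.e (nat_lit 147467) (nat_lit 9) .nil)))))) (.g (nat_lit 6) .nil .nil)))) (.nd (nat_lit 6) 
(.lf (nat_lit 8123) (.g (nat_lit 1101) (.e (nat_lit 320) (nat_lit 24) (.e (nat_lit 360488) (nat_lit 20) (.e (nat_lit 761869) (nat_lit 5) (.e (nat_lit 1597) (nat_lit 111) (.e (nat_lit 360490) (nat_lit 22) .nil))))) .nil)) 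
(.lf (nat_lit 8187) (.g (nat_lit 1857) (.e (nat_lit 321) (nat_lit 24) (.e (nat_lit 360449) (nat_lit 0) (.e (nat_lit 7266) (nat_lit 384) (.e (nat_lit 57428) (nat_lit 15) (.e (nat_lit 360492) (nat_lit 22) .nil))))) .nil)))))) (.nd (nat_lit 3) (.nd (nat_lit 4) (.nd (nat_lit 5) (.nd (nat_lit 6) 
(.lf (nat_lit 8071) (.g (nat_lit 1043) (.e (nat_lit 320) (nat_lit 24) (.e (nat_lit 360449) (nat_lit 0) (.e (nat_lit 7265) (nat_lit 384) (.e (nat_lit 57427) (nat_lit 15) .nil)))) .nil)) 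
(.lf (nat_lit 8135) (.g (nat_lit 1251) (.e (nat_lit 320) (nat_lit 24) (.e (nat_lit 360489) (nat_lit 21) (.e (nat_lit 770058) (nat_lit 5) (.e (nat_lit 1598) (nat_lit 111) (.e (nat_lit 360490) (nat_lit 22) (.e (nat_lit 778339) (nat_lit 9) .nil)))))) (.g (nat_lit 6) .nil .nil)))) (.nd (nat_lit 6) 
(.lf (nat_lit 8103) (.g (nat_lit 1773) (.e (nat_lit 320) (nat_lit 24) (.e (nat_lit 360453) (nat_lit 0) (.e (nat_lit 7272) (nat_lit 385) (.e (nat_lit 122919) (nat_lit 15) (.e (nat_lit 360490) (nat_lit 22) .nil))))) .nil)) 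
(.lf (nat_lit 8167) (.g (nat_lit 1065) (.e (nat_lit 321) (nat_lit 24) (.e (nat_lit 360449) (nat_lit 0) (.e (nat_lit 7263) (nat_lit 384) (.e (nat_lit 57426) (nat_lit 15) (.e (nat_lit 360491) (nat_lit 22) .nil))))) .nil)))) (.nd (nat_lit 5) (.nd (nat_lit 6) 
(.lf (nat_lit 8087) (.g (nat_lit 2066) (.e (nat_lit 320) (nat_lit 24) (.e (nat_lit 360451) (nat_lit 0) (.e (nat_lit 7266) (nat_lit 384) (.e (nat_lit 57427) (nat_lit 15) (.e (nat_lit 360490) (nat_lit 22) .nil))))) .nil)) 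
(.lf (nat_lit 8151) (.g (nat_lit 2237) (.e (nat_lit 321) (nat_lit 24) (.e (nat_lit 360449) (nat_lit 0) (.e (nat_lit 7122) (nat_lit 382) (.e (nat_lit 1222) (nat_lit 90) (.e (nat_lit 81965) (nat_lit 26) (.e (nat_lit 147467) (nat_lit 9) .nil)))))) (.g (nat_lit 4) .nil .nil)))) (.nd (nat_lit 6) 
(.lf (nat_lit 8119) (.g (nat_lit 1090) (.e (nat_lit 320) (nat_lit 24) (.e (nat_lit 360488) (nat_lit 20) (.e (nat_lit 761868) (nat_lit 5) (.e (nat_lit 1597) (nat_lit 111) (.e (nat_lit 360490) (nat_lit 22) .nil))))) .nil)) 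
(.lf (nat_lit 8183) (.g (nat_lit 2044) (.e (nat_lit 321) (nat_lit 24) (.e (nat_lit 360449) (nat_lit 0) (.e (nat_lit 7266) (nat_lit 384) (.e (nat_lit 57426) (nat_lit 15) (.e (nat_lit 360491) (nat_lit 22) (.e (nat_lit 778360) (nat_lit 9) .nil)))))) (.g (nat_lit 0) .nil .nil)))))) (.nd (nat_lit 4) (.nd (nat_lit 5) (.nd (nat_lit 6) 
(.lf (nat_lit 8079) (.g (nat_lit 1350) (.e (nat_lit 320) (nat_lit 24) (.e (nat_lit 360451) (nat_lit 0) (.e (nat_lit 7261) (nat_lit 384) (.e (nat_lit 57426) (nat_lit 15) (.e (nat_lit 360490) (nat_lit 22) .nil))))) .nil)) 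
(.lf (nat_lit 8143) (.g (nat_lit 1050) (.e (nat_lit 320) (nat_lit 24) (.e (nat_lit 360492) (nat_lit 22) (.e (nat_lit 778362) (nat_lit 9) (.e (nat_lit 321) (nat_lit 24) (.e (nat_lit 360490) (nat_lit 22) .nil))))) .nil))) (.nd (nat_lit 6) 
(.lf (nat_lit 8111) (.g (nat_lit 2059) (.e (nat_lit 320) (nat_lit 24) (.e (nat_lit 360473) (nat_lit 8) (.e (nat_lit 557119) (nat_lit 18) (.e (nat_lit 2797) (nat_lit 180) (.e (nat_lit 303143) (nat_lit 12) .nil))))) .nil)) 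
(.lf (nat_lit 8175) (.g (nat_lit 1902) (.e (nat_lit 321) (nat_lit 24) (.e (nat_lit 360449) (nat_lit 0) (.e (nat_lit 7265) (nat_lit 384) (.e (nat_lit 57424) (nat_lit 14) (.e (nat_lit 352323) (nat_lit 26) .nil))))) .nil)))) (.nd (nat_lit 5) (.nd (nat_lit 6) 
(.lf (nat_lit 8095) (.g (nat_lit 1213) (.e (nat_lit 320) (nat_lit 24) (.e (nat_lit 360453) (nat_lit 0) (.e (nat_lit 7270) (nat_lit 385) (.e (nat_lit 122917) (nat_lit 15) .nil)))) .nil)) 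
(.lf (nat_lit 8159) (.g (nat_lit 1490) (.e (nat_lit 321) (nat_lit 24) (.e (nat_lit 360449) (nat_lit 0) (.e (nat_lit 7261) (nat_lit 384) (.e (nat_lit 57424) (nat_lit 14) (.e (nat_lit 352322) (nat_lit 26) .nil))))) .nil))) (.nd (nat_lit 6) 
(.lf (nat_lit 8127) (.g (nat_lit 1446) (.e (nat_lit 320) (nat_lit 24) (.e (nat_lit 360489) (nat_lit 21) (.e (nat_lit 770057) (nat_lit 5) (.e (nat_lit 1589) (nat_lit 111) (.e (nat_lit 360490) (nat_lit 22) (.e (nat_lit 778339) (nat_lit 9) .nil)))))) (.g (nat_lit 5) .nil .nil))) 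
(.lf (nat_lit 8191) (.g (nat_lit 2620) (.e (nat_lit 321) (nat_lit 24) (.e (nat_lit 360451) (nat_lit 0) (.e (nat_lit 7125) (nat_lit 382) (.e (nat_lit 1222) (nat_lit 90) (.e (nat_lit 81965) (nat_lit 26) .nil))))) .nil)))))))))

noncomputable def tv113 : DT := (.nd (nat_lit 0) (.nd (nat_lit 1) (.nd (nat_lit 2) (.nd (nat_lit 3) (.nd (nat_lit 4) (.nd (nat_lit 5) 
(.lf (nat_lit 8192) (.g (nat_lit 2003) (.e (nat_lit 321) (nat_lit 24) (.e (nat_lit 360451) (nat_lit 0) (.e (nat_lit 7125) (nat_lit 382) (.e (nat_lit 1223) (nat_lit 90) (.e (nat_lit 81965) (nat_lit 26) .nil))))) .nil)) 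
(.lf (nat_lit 8224) (.g (nat_lit 2280) (.e (nat_lit 321) (nat_lit 24) (.e (nat_lit 360453) (nat_lit 0) (.e (nat_lit 7270) (nat_lit 385) (.e (nat_lit 122917) (nat_lit 15) (.e (nat_lit 360491) (nat_lit 22) (.e (nat_lit 778359) (nat_lit 9) .nil)))))) (.g (nat_lit 4) .nil .nil)))) (.nd (nat_lit 5) 
(.lf (nat_lit 8208) (.g (nat_lit 1734) (.e (nat_lit 321) (nat_lit 24) (.e (nat_lit 360452) (nat_lit 0) (.e (nat_lit 7270) (nat_lit 385) (.e (nat_lit 122917) (nat_lit 15) .nil)))) .nil)) 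
(.lf (nat_lit 8240) (.g (nat_lit 2153) (.e (nat_lit 321) (nat_lit 24) (.e (nat_lit 360453) (nat_lit 0) (.e (nat_lit 7272) (nat_lit 385) (.e (nat_lit 122917) (nat_lit 15) (.e (nat_lit 360491) (nat_lit 22) (.e (nat_lit 778360) (nat_lit 9) .nil)))))) (.g (nat_lit 6) .nil .nil))))) (.nd (nat_lit 4) (.nd (nat_lit 5) 
(.lf (nat_lit 8200) (.g (nat_lit 2211) (.e (nat_lit 321) (nat_lit 24) (.e (nat_lit 360451) (nat_lit 0) (.e (nat_lit 7265) (nat_lit 384) (.e (nat_lit 57427) (nat_lit 15) (.e (nat_lit 360491) (nat_lit 22) .nil))))) .nil)) 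
(.lf (nat_lit 8232) (.g (nat_lit 2857) (.e (nat_lit 321) (nat_lit 24) (.e (nat_lit 360453) (nat_lit 0) (.e (nat_lit 7270) (nat_lit 385) (.e (nat_lit 122919) (nat_lit 15) (.e (nat_lit 360491) (nat_lit 22) (.e (nat_lit 778360) (nat_lit 9) .nil)))))) (.g (nat_lit 5) .nil .nil)))) (.nd (nat_lit 5) 
(.lf (nat_lit 8216) (.g (nat_lit 1503) (.e (nat_lit 321) (nat_lit 24) (.e (nat_lit 360452) (nat_lit 0) (.e (nat_lit 7272) (nat_lit 385) (.e (nat_lit 122917) (nat_lit 15) .nil)))) .nil)) 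
(.lf (nat_lit 8248) (.g (nat_lit 2317) (.e (nat_lit 321) (nat_lit 24) (.e (nat_lit 360453) (nat_lit 0) (.e (nat_lit 7272) (nat_lit 385) (.e (nat_lit 122919) (nat_lit 15) (.e (nat_lit 360491) (nat_lit 22) (.e (nat_lit 778361) (nat_lit 9) .nil)))))) (.g (nat_lit 0) .nil .nil)))))) (.nd (nat_lit 3) (.nd (nat_lit 4) (.nd (nat_lit 5) 
(.lf (nat_lit 8196) (.g (nat_lit 526) (.e (nat_lit 321) (nat_lit 24) (.e (nat_lit 360451) (nat_lit 0) (.e (nat_lit 7265) (nat_lit 384) .nil))) .nil)) 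
(.lf (nat_lit 8228) (.g (nat_lit 2350) (.e (nat_lit 321) (nat_lit 24) (.e (nat_lit 360453) (nat_lit 0) (.e (nat_lit 7270) (nat_lit 385) (.e (nat_lit 122917) (nat_lit 15) (.e (nat_lit 360492) (nat_lit 22) .nil))))) .nil))) (.nd (nat_lit 5) 
(.lf (nat_lit 8212) (.g (nat_lit 635) (.e (nat_lit 321) (nat_lit 24) (.e (nat_lit 360452) (nat_lit 0) (.e (nat_lit 7271) (nat_lit 385) .nil))) .nil)) 
(.lf (nat_lit 8244) (.g (nat_lit 2593) (.e (nat_lit 321) (nat_lit 24) (.e (nat_lit 360453) (nat_lit 0) (.e (nat_lit 7272) (nat_lit 385) (.e (nat_lit 122917) (nat_lit 15) (.e (nat_lit 360492) (nat_lit 22) (.e (nat_lit 778361) (nat_lit 9) .nil)))))) (.g (nat_lit 0) .nil .nil))))) (.nd (nat_lit 4) (.nd (nat_lit 5) 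
(.lf (nat_lit 8204) (.g (nat_lit 1988) (.e (nat_lit 321) (nat_lit 24) (.e (nat_lit 360451) (nat_lit 0) (.e (nat_lit 7266) (nat_lit 384) (.e (nat_lit 57427) (nat_lit 15) (.e (nat_lit 360491) (nat_lit 22) .nil))))) .nil)) 
(.lf (nat_lit 8236) (.g (nat_lit 3413) (.e (nat_lit 321) (nat_lit 24) (.e (nat_lit 360453) (nat_lit 0) (.e (nat_lit 7270) (nat_lit 385) (.e (nat_lit 122919) (nat_lit 15) (.e (nat_lit 360492) (nat_lit 22) (.e (nat_lit 778362) (nat_lit 9) .nil)))))) (.g (nat_lit 6) .nil .nil)))) (.nd (nat_lit 5) 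
(.lf (nat_lit 8220) (.g (nat_lit 1083) (.e (nat_lit 321) (nat_lit 24) (.e (nat_lit 360452) (nat_lit 0) (.e (nat_lit 7273) (nat_lit 385) (.e (nat_lit 122919) (nat_lit 15) .nil)))) .nil)) 
(.lf (nat_lit 8252) (.g (nat_lit 1173) (.e (nat_lit 321) (nat_lit 24) (.e (nat_lit 360453) (nat_lit 0) (.e (nat_lit 7273) (nat_lit 385) (.e (nat_lit 122917) (nat_lit 15) (.e (nat_lit 360492) (nat_lit 22) (.e (nat_lit 778359) (nat_lit 9) .nil)))))) (.g (nat_lit 4) .nil .nil))))))) (.nd (nat_lit 2) (.nd (nat_lit 3) (.nd (nat_lit 4) (.nd (nat_lit 5) 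
(.lf (nat_lit 8194) (.g (nat_lit 2188) (.e (nat_lit 321) (nat_lit 24) (.e (nat_lit 360451) (nat_lit 0) (.e (nat_lit 7125) (nat_lit 382) (.e (nat_lit 1224) (nat_lit 90) (.e (nat_lit 81963) (nat_lit 26) .nil))))) .nil)) 
(.lf (nat_lit 8226) (.g (nat_lit 3148) (.e (nat_lit 321) (nat_lit 24) (.e (nat_lit 360453) (nat_lit 0) (.e (nat_lit 7270) (nat_lit 385) (.e (nat_lit 122917) (nat_lit 15) (.e (nat_lit 360491) (nat_lit 22) (.e (nat_lit 778361) (nat_lit 9) .nil)))))) (.g (nat_lit 6) .nil .nil)))) (.nd (nat_lit 5) 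
(.lf (nat_lit 8210) (.g (nat_lit 2734) (.e (nat_lit 321) (nat_lit 24) (.e (nat_lit 360452) (nat_lit 0) (.e (nat_lit 7270) (nat_lit 385) (.e (nat_lit 122919) (nat_lit 15) (.e (nat_lit 360491) (nat_lit 22) .nil))))) .nil)) 
(.lf (nat_lit 8242) (.g (nat_lit 1678) (.e (nat_lit 321) (nat_lit 24) (.e (nat_lit 360453) (nat_lit 0) (.e (nat_lit 7272) (nat_lit 385) (.e (nat_lit 122917) (nat_lit 15) (.e (nat_lit 360492) (nat_lit 22) (.e (nat_lit 778359) (nat_lit 9) .nil)))))) (.g (nat_lit 4) .nil .nil))))) (.nd (nat_lit 4) (.nd (nat_lit 5) 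
(.lf (nat_lit 8202) (.g (nat_lit 651) (.e (nat_lit 321) (nat_lit 24) (.e (nat_lit 360451) (nat_lit 0) (.e (nat_lit 7266) (nat_lit 384) .nil))) .nil)) 
(.lf (nat_lit 8234) (.g (nat_lit 3271) (.e (nat_lit 321) (nat_lit 24) (.e (nat_lit 360453) (nat_lit 0) (.e (nat_lit 7270) (nat_lit 385) (.e (nat_lit 122919) (nat_lit 15) (.e (nat_lit 360491) (nat_lit 22) (.e (nat_lit 778362) (nat_lit 9) .nil)))))) (.g (nat_lit 6) .nil .nil)))) (.nd (nat_lit 5) 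
(.lf (nat_lit 8218) (.g (nat_lit 1512) (.e (nat_lit 321) (nat_lit 24) (.e (nat_lit 360452) (nat_lit 0) (.e (nat_lit 7272) (nat_lit 385) (.e (nat_lit 122919) (nat_lit 15) .nil)))) .nil)) 
(.lf (nat_lit 8250) (.g (nat_lit 1787) (.e (nat_lit 321) (nat_lit 24) (.e (nat_lit 360453) (nat_lit 0) (.e (nat_lit 7272) (nat_lit 385) (.e (nat_lit 122919) (nat_lit 15) (.e (nat_lit 360492) (nat_lit 22) (.e (nat_lit 778360) (nat_lit 9) .nil)))))) (.g (nat_lit 5) .nil .nil)))))) (.nd (nat_lit 3) (.nd (nat_lit 4) (.nd (nat_lit 5) 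
(.lf (nat_lit 8198) (.g (nat_lit 2383) (.e (nat_lit 321) (nat_lit 24) (.e (nat_lit 360451) (nat_lit 0) (.e (nat_lit 7265) (nat_lit 384) (.e (nat_lit 57424) (nat_lit 14) (.e (nat_lit 352324) (nat_lit 26) (.e (nat_lit 147466) (nat_lit 9) .nil)))))) (.g (nat_lit 4) .nil .nil))) 
(.lf (nat_lit 8230) (.g (nat_lit 1279) (.e (nat_lit 321) (nat_lit 24) (.e (nat_lit 360453) (nat_lit 0) (.e (nat_lit 7270) (nat_lit 385) (.e (nat_lit 122918) (nat_lit 15) .nil)))) .nil))) (.nd (nat_lit 5) 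
(.lf (nat_lit 8214) (.g (nat_lit 1401) (.e (nat_lit 321) (nat_lit 24) (.e (nat_lit 360452) (nat_lit 0) (.e (nat_lit 7271) (nat_lit 385) (.e (nat_lit 122919) (nat_lit 15) .nil)))) .nil)) 
(.lf (nat_lit 8246) (.g (nat_lit 1237) (.e (nat_lit 321) (nat_lit 24) (.e (nat_lit 360453) (nat_lit 0) (.e (nat_lit 7272) (nat_lit 385) (.e (nat_lit 122918) (nat_lit 15) (.e (nat_lit 360491) (nat_lit 22) (.e (nat_lit 778361) (nat_lit 9) .nil)))))) (.g (nat_lit 4) .nil .nil))))) (.nd (nat_lit 4) (.nd (nat_lit 5) 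
(.lf (nat_lit 8206) (.g (nat_lit 1333) (.e (nat_lit 321) (nat_lit 24) (.e (nat_lit 360452) (nat_lit 0) (.e (nat_lit 7147) (nat_lit 382) (.e (nat_lit 1217) (nat_lit 90) (.e (nat_lit 81965) (nat_lit 26) .nil))))) .nil)) 
(.lf (nat_lit 8238) (.g (nat_lit 2291) (.e (nat_lit 321) (nat_lit 24) (.e (nat_lit 360453) (nat_lit 0) (.e (nat_lit 7272) (nat_lit 385) (.e (nat_lit 122916) (nat_lit 14) (.e (nat_lit 352324) (nat_lit 26) (.e (nat_lit 147464) (nat_lit 9) .nil)))))) (.g (nat_lit 5) .nil .nil)))) (.nd (nat_lit 5) 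
(.lf (nat_lit 8222) (.g (nat_lit 864) (.e (nat_lit 321) (nat_lit 24) (.e (nat_lit 360453) (nat_lit 0) (.e (nat_lit 7255) (nat_lit 383) (.e (nat_lit 8192) (nat_lit 0) (.e (nat_lit 5353) (nat_lit 298) (.e (nat_lit 1512) (nat_lit 108) (.e (nat_lit 336051) (nat_lit 6) (.e (nat_lit 147466) (nat_lit 9) .nil)))))))) (.g (nat_lit 4) .nil .nil))) 
(.lf (nat_lit 8254) (.g (nat_lit 2091) (.e (nat_lit 321) (nat_lit 24) (.e (nat_lit 360453) (nat_lit 0) (.e (nat_lit 7273) (nat_lit 385) (.e (nat_lit 122917) (nat_lit 15) (.e (nat_lit 360492) (nat_lit 22) (.e (nat_lit 778361) (nat_lit 9) .nil)))))) (.g (nat_lit 0) .nil .nil)))))))) (.nd (nat_lit 1) (.nd (nat_lit 2) (.nd (nat_lit 3) (.nd (nat_lit 4) (.nd (nat_lit 5) 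
(.lf (nat_lit 8193) (.g (nat_lit 2039) (.e (nat_lit 321) (nat_lit 24) (.e (nat_lit 360451) (nat_lit 0) (.e (nat_lit 7125) (nat_lit 382) (.e (nat_lit 1223) (nat_lit 90) (.e (nat_lit 81965) (nat_lit 26) (.e (nat_lit 147467) (nat_lit 9) .nil)))))) (.g (nat_lit 4) .nil .nil))) 
(.lf (nat_lit 8225) (.g (nat_lit 2674) (.e (nat_lit 321) (nat_lit 24) (.e (nat_lit 360453) (nat_lit 0) (.e (nat_lit 7270) (nat_lit 385) (.e (nat_lit 122917) (nat_lit 15) (.e (nat_lit 360491) (nat_lit 22) (.e (nat_lit 778360) (nat_lit 9) .nil)))))) (.g (nat_lit 5) .nil .nil)))) (.nd (nat_lit 5) 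
(.lf (nat_lit 8209) (.g (nat_lit 2592) (.e (nat_lit 321) (nat_lit 24) (.e (nat_lit 360452) (nat_lit 0) (.e (nat_lit 7270) (nat_lit 385) (.e (nat_lit 122917) (nat_lit 15) (.e (nat_lit 360491) (nat_lit 22) .nil))))) .nil)) 
(.lf (nat_lit 8241) (.g (nat_lit 2608) (.e (nat_lit 321) (nat_lit 24) (.e (nat_lit 360453) (nat_lit 0) (.e (nat_lit 7272) (nat_lit 385) (.e (nat_lit 122917) (nat_lit 15) (.e (nat_lit 360491) (nat_lit 22) (.e (nat_lit 778361) (nat_lit 9) .nil)))))) (.g (nat_lit 0) .nil .nil))))) (.nd (nat_lit 4) (.nd (nat_lit 5) 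
(.lf (nat_lit 8201) (.g (nat_lit 2350) (.e (nat_lit 321) (nat_lit 24) (.e (nat_lit 360451) (nat_lit 0) (.e (nat_lit 7265) (nat_lit 384) (.e (nat_lit 57427) (nat_lit 15) (.e (nat_lit 360492) (nat_lit 22) .nil))))) .nil)) 
(.lf (nat_lit 8233) (.g (nat_lit 3228) (.e (nat_lit 321) (nat_lit 24) (.e (nat_lit 360453) (nat_lit 0) (.e (nat_lit 7270) (nat_lit 385) (.e (nat_lit 122919) (nat_lit 15) (.e (nat_lit 360491) (nat_lit 22) (.e (nat_lit 778361) (nat_lit 9) .nil)))))) (.g (nat_lit 6) .nil .nil)))) (.nd (nat_lit 5) 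
(.lf (nat_lit 8217) (.g (nat_lit 2148) (.e (nat_lit 321) (nat_lit 24) (.e (nat_lit 360452) (nat_lit 0) (.e (nat_lit 7272) (nat_lit 385) (.e (nat_lit 122917) (nat_lit 15) (.e (nat_lit 360491) (nat_lit 22) .nil))))) .nil)) 
(.lf (nat_lit 8249) (.g (nat_lit 1537) (.e (nat_lit 321) (nat_lit 24) (.e (nat_lit 360453) (nat_lit 0) (.e (nat_lit 7272) (nat_lit 385) (.e (nat_lit 122919) (nat_lit 15) (.e (nat_lit 360492) (nat_lit 22) (.e (nat_lit 778359) (nat_lit 9) .nil)))))) (.g (nat_lit 4) .nil .nil)))))) (.nd (nat_lit 3) (.nd (nat_lit 4) (.nd (nat_lit 5) 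
(.lf (nat_lit 8197) (.g (nat_lit 2198) (.e (nat_lit 321) (nat_lit 24) (.e (nat_lit 360451) (nat_lit 0) (.e (nat_lit 7265) (nat_lit 384) (.e (nat_lit 57424) (nat_lit 14) (.e (nat_lit 352324) (nat_lit 26) .nil))))) .nil)) 
(.lf (nat_lit 8229) (.g (nat_lit 2400) (.e (nat_lit 321) (nat_lit 24) (.e (nat_lit 360453) (nat_lit 0) (.e (nat_lit 7270) (nat_lit 385) (.e (nat_lit 122917) (nat_lit 15) (.e (nat_lit 360492) (nat_lit 22) (.e (nat_lit 778360) (nat_lit 9) .nil)))))) (.g (nat_lit 4) .nil .nil)))) (.nd (nat_lit 5) 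
(.lf (nat_lit 8213) (.g (nat_lit 1288) (.e (nat_lit 321) (nat_lit 24) (.e (nat_lit 360452) (nat_lit 0) (.e (nat_lit 7271) (nat_lit 385) (.e (nat_lit 122917) (nat_lit 15) .nil)))) .nil)) 
(.lf (nat_lit 8245) (.g (nat_lit 925) (.e (nat_lit 321) (nat_lit 24) (.e (nat_lit 360453) (nat_lit 0) (.e (nat_lit 7272) (nat_lit 385) (.e (nat_lit 122918) (nat_lit 15) .nil)))) .nil)))) (.nd (nat_lit 4) (.nd (nat_lit 5) 
(.lf (nat_lit 8205) (.g (nat_lit 638) (.e (nat_lit 321) (nat_lit 24) (.e (nat_lit 360452) (nat_lit 0) (.e (nat_lit 7147) (nat_lit 382) .nil))) .nil)) 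
(.lf (nat_lit 8237) (.g (nat_lit 1991) (.e (nat_lit 321) (nat_lit 24) (.e (nat_lit 360453) (nat_lit 0) (.e (nat_lit 7272) (nat_lit 385) (.e (nat_lit 122916) (nat_lit 14) (.e (nat_lit 352322) (nat_lit 26) (.e (nat_lit 147467) (nat_lit 9) .nil)))))) (.g (nat_lit 5) .nil .nil)))) (.nd (nat_lit 5) 
(.lf (nat_lit 8221) (.g (nat_lit 2078) (.e (nat_lit 321) (nat_lit 24) (.e (nat_lit 360453) (nat_lit 0) (.e (nat_lit 7147) (nat_lit 382) (.e (nat_lit 1217) (nat_lit 90) (.e (nat_lit 81963) (nat_lit 26) (.e (nat_lit 147467) (nat_lit 9) .nil)))))) (.g (nat_lit 0) .nil .nil))) 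
(.lf (nat_lit 8253) (.g (nat_lit 1400) (.e (nat_lit 321) (nat_lit 24) (.e (nat_lit 360453) (nat_lit 0) (.e (nat_lit 7273) (nat_lit 385) (.e (nat_lit 122917) (nat_lit 15) (.e (nat_lit 360492) (nat_lit 22) (.e (nat_lit 778360) (nat_lit 9) .nil)))))) (.g (nat_lit 5) .nil .nil))))))) (.nd (nat_lit 2) (.nd (nat_lit 3) (.nd (nat_lit 4) (.nd (nat_lit 5) 
(.lf (nat_lit 8195) (.g (nat_lit 2385) (.e (nat_lit 321) (nat_lit 24) (.e (nat_lit 360451) (nat_lit 0) (.e (nat_lit 7125) (nat_lit 382) (.e (nat_lit 1224) (nat_lit 90) (.e (nat_lit 81965) (nat_lit 26) .nil))))) .nil)) 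
(.lf (nat_lit 8227) (.g (nat_lit 3251) (.e (nat_lit 321) (nat_lit 24) (.e (nat_lit 360453) (nat_lit 0) (.e (nat_lit 7270) (nat_lit 385) (.e (nat_lit 122917) (nat_lit 15) (.e (nat_lit 360491) (nat_lit 22) (.e (nat_lit 778362) (nat_lit 9) .nil)))))) (.g (nat_lit 6) .nil .nil)))) (.nd (nat_lit 5) 
(.lf (nat_lit 8211) (.g (nat_lit 2780) (.e (nat_lit 321) (nat_lit 24) (.e (nat_lit 360452) (nat_lit 0) (.e (nat_lit 7270) (nat_lit 385) (.e (nat_lit 122919) (nat_lit 15) (.e (nat_lit 360492) (nat_lit 22) .nil))))) .nil)) 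
(.lf (nat_lit 8243) (.g (nat_lit 1905) (.e (nat_lit 321) (nat_lit 24) (.e (nat_lit 360453) (nat_lit 0) (.e (nat_lit 7272) (nat_lit 385) (.e (nat_lit 122917) (nat_lit 15) (.e (nat_lit 360492) (nat_lit 22) (.e (nat_lit 778360) (nat_lit 9) .nil)))))) (.g (nat_lit 5) .nil .nil))))) (.nd (nat_lit 4) (.nd (nat_lit 5) 
(.lf (nat_lit 8203) (.g (nat_lit 1864) (.e (nat_lit 321) (nat_lit 24) (.e (nat_lit 360451) (nat_lit 0) (.e (nat_lit 7266) (nat_lit 384) (.e (nat_lit 57426) (nat_lit 15) (.e (nat_lit 360491) (nat_lit 22) .nil))))) .nil)) 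
(.lf (nat_lit 8235) (.g (nat_lit 3424) (.e (nat_lit 321) (nat_lit 24) (.e (nat_lit 360453) (nat_lit 0) (.e (nat_lit 7270) (nat_lit 385) (.e (nat_lit 122919) (nat_lit 15) (.e (nat_lit 360492) (nat_lit 22) (.e (nat_lit 778361) (nat_lit 9) .nil)))))) (.g (nat_lit 6) .nil .nil)))) (.nd (nat_lit 5) 
(.lf (nat_lit 8219) (.g (nat_lit 1085) (.e (nat_lit 321) (nat_lit 24) (.e (nat_lit 360452) (nat_lit 0) (.e (nat_lit 7273) (nat_lit 385) (.e (nat_lit 122917) (nat_lit 15) .nil)))) .nil)) 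
(.lf (nat_lit 8251) (.g (nat_lit 1713) (.e (nat_lit 321) (nat_lit 24) (.e (nat_lit 360453) (nat_lit 0) (.e (nat_lit 7273) (nat_lit 385) (.e (nat_lit 122917) (nat_lit 15) (.e (nat_lit 360491) (nat_lit 22) (.e (nat_lit 778360) (nat_lit 9) .nil)))))) (.g (nat_lit 0) .nil .nil)))))) (.nd (nat_lit 3) (.nd (nat_lit 4) (.nd (nat_lit 5) 
(.lf (nat_lit 8199) (.g (nat_lit 2078) (.e (nat_lit 321) (nat_lit 24) (.e (nat_lit 360451) (nat_lit 0) (.e (nat_lit 7265) (nat_lit 384) (.e (nat_lit 57426) (nat_lit 15) (.e (nat_lit 360491) (nat_lit 22) .nil))))) .nil)) 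
(.lf (nat_lit 8231) (.g (nat_lit 2314) (.e (nat_lit 321) (nat_lit 24) (.e (nat_lit 360453) (nat_lit 0) (.e (nat_lit 7270) (nat_lit 385) (.e (nat_lit 122919) (nat_lit 15) (.e (nat_lit 360491) (nat_lit 22) (.e (nat_lit 778359) (nat_lit 9) .nil)))))) (.g (nat_lit 4) .nil .nil)))) (.nd (nat_lit 5) 
(.lf (nat_lit 8215) (.g (nat_lit 1494) (.e (nat_lit 321) (nat_lit 24) (.e (nat_lit 360452) (nat_lit 0) (.e (nat_lit 7272) (nat_lit 385) (.e (nat_lit 122916) (nat_lit 14) .nil)))) .nil)) 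
(.lf (nat_lit 8247) (.g (nat_lit 1421) (.e (nat_lit 321) (nat_lit 24) (.e (nat_lit 360453) (nat_lit 0) (.e (nat_lit 7272) (nat_lit 385) (.e (nat_lit 122919) (nat_lit 15) (.e (nat_lit 360491) (nat_lit 22) (.e (nat_lit 778359) (nat_lit 9) .nil)))))) (.g (nat_lit 4) .nil .nil))))) (.nd (nat_lit 4) (.nd (nat_lit 5) 
(.lf (nat_lit 8207) (.g (nat_lit 1568) (.e (nat_lit 321) (nat_lit 24) (.e (nat_lit 360452) (nat_lit 0) (.e (nat_lit 7270) (nat_lit 385) (.e (nat_lit 122916) (nat_lit 14) .nil)))) .nil)) 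
(.lf (nat_lit 8239) (.g (nat_lit 2720) (.e (nat_lit 321) (nat_lit 24) (.e (nat_lit 360453) (nat_lit 0) (.e (nat_lit 7272) (nat_lit 385) (.e (nat_lit 122916) (nat_lit 14) (.e (nat_lit 352324) (nat_lit 26) (.e (nat_lit 147466) (nat_lit 9) .nil)))))) (.g (nat_lit 6) .nil .nil)))) (.nd (nat_lit 5) 
(.lf (nat_lit 8223) (.g (nat_lit 2341) (.e (nat_lit 321) (nat_lit 24) (.e (nat_lit 360453) (nat_lit 0) (.e (nat_lit 7270) (nat_lit 385) (.e (nat_lit 122916) (nat_lit 14) (.e (nat_lit 352322) (nat_lit 26) .nil))))) .nil)) 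
(.lf (nat_lit 8255) (.g (nat_lit 2028) (.e (nat_lit 321) (nat_lit 24) (.e (nat_lit 360453) (nat_lit 0) (.e (nat_lit 7273) (nat_lit 385) (.e (nat_lit 122917) (nat_lit 15) (.e (nat_lit 360492) (nat_lit 22) (.e (nat_lit 778362) (nat_lit 9) .nil)))))) (.g (nat_lit 0) .nil .nil)))))))))

noncomputable def tv114 : DT := (.nd (nat_lit 0) (.nd (nat_lit 1) (.nd (nat_lit 2) (.nd (nat_lit 3) (.nd (nat_lit 4) (.nd (nat_lit 5) 
(.lf (nat_lit 8256) (.g (nat_lit 1145) (.e (nat_lit 321) (nat_lit 24) (.e (nat_lit 360453) (nat_lit 0) (.e (nat_lit 7273) (nat_lit 385) (.e (nat_lit 122919) (nat_lit 15) (.e (nat_lit 360491) (nat_lit 22) (.e (nat_lit 778359) (nat_lit 9) .nil)))))) (.g (nat_lit 4) .nil .nil))) 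
(.lf (nat_lit 8288) (.g (nat_lit 1623) (.e (nat_lit 321) (nat_lit 24) (.e (nat_lit 360466) (nat_lit 3) (.e (nat_lit 516147) (nat_lit 9) (.e (nat_lit 426448) (nat_lit 20) (.e (nat_lit 114716) (nat_lit 22) (.e (nat_lit 90128) (nat_lit 9) .nil)))))) (.g (nat_lit 4) .nil .nil)))) (.nd (nat_lit 5) 
(.lf (nat_lit 8272) (.g (nat_lit 1291) (.e (nat_lit 321) (nat_lit 24) (.e (nat_lit 360466) (nat_lit 3) (.e (nat_lit 516097) (nat_lit 0) (.e (nat_lit 7936) (nat_lit 407) .nil)))) .nil)) 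
(.lf (nat_lit 8304) (.g (nat_lit 3040) (.e (nat_lit 321) (nat_lit 24) (.e (nat_lit 360467) (nat_lit 3) (.e (nat_lit 516098) (nat_lit 0) (.e (nat_lit 7591) (nat_lit 407) (.e (nat_lit 73753) (nat_lit 8) (.e (nat_lit 557066) (nat_lit 9) .nil)))))) (.g (nat_lit 0) .nil .nil))))) (.nd (nat_lit 4) (.nd (nat_lit 5) 
(.lf (nat_lit 8264) (.g (nat_lit 2472) (.e (nat_lit 321) (nat_lit 24) (.e (nat_lit 360464) (nat_lit 2) (.e (nat_lit 507906) (nat_lit 0) (.e (nat_lit 5412) (nat_lit 303) (.e (nat_lit 73753) (nat_lit 8) (.e (nat_lit 557065) (nat_lit 9) .nil)))))) (.g (nat_lit 6) .nil .nil))) 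
(.lf (nat_lit 8296) (.g (nat_lit 3410) (.e (nat_lit 321) (nat_lit 24) (.e (nat_lit 360466) (nat_lit 3) (.e (nat_lit 516185) (nat_lit 16) (.e (nat_lit 491560) (nat_lit 10) (.e (nat_lit 344129) (nat_lit 26) (.e (nat_lit 557066) (nat_lit 9) .nil)))))) (.g (nat_lit 5) .nil .nil)))) (.nd (nat_lit 5) 
(.lf (nat_lit 8280) (.g (nat_lit 1562) (.e (nat_lit 321) (nat_lit 24) (.e (nat_lit 360466) (nat_lit 3) (.e (nat_lit 516146) (nat_lit 9) (.e (nat_lit 426361) (nat_lit 15) (.e (nat_lit 2203) (nat_lit 144) (.e (nat_lit 720941) (nat_lit 22) (.e (nat_lit 90128) (nat_lit 9) .nil))))))) (.g (nat_lit 4) .nil .nil))) 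
(.lf (nat_lit 8312) (.g (nat_lit 1430) (.e (nat_lit 321) (nat_lit 24) (.e (nat_lit 360467) (nat_lit 3) (.e (nat_lit 516146) (nat_lit 9) (.e (nat_lit 426361) (nat_lit 15) (.e (nat_lit 2195) (nat_lit 144) .nil))))) .nil))))) (.nd (nat_lit 3) (.nd (nat_lit 4) (.nd (nat_lit 5) 
(.lf (nat_lit 8260) (.g (nat_lit 1469) (.e (nat_lit 321) (nat_lit 24) (.e (nat_lit 360453) (nat_lit 0) (.e (nat_lit 7273) (nat_lit 385) (.e (nat_lit 122919) (nat_lit 15) (.e (nat_lit 360492) (nat_lit 22) (.e (nat_lit 778360) (nat_lit 9) .nil)))))) (.g (nat_lit 5) .nil .nil))) 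
(.lf (nat_lit 8292) (.g (nat_lit 1335) (.e (nat_lit 321) (nat_lit 24) (.e (nat_lit 360466) (nat_lit 3) (.e (nat_lit 516180) (nat_lit 15) (.e (nat_lit 475214) (nat_lit 42) (.e (nat_lit 720938) (nat_lit 22) .nil))))) .nil))) (.nd (nat_lit 5) 
(.lf (nat_lit 8276) (.g (nat_lit 1810) (.e (nat_lit 321) (nat_lit 24) (.e (nat_lit 360466) (nat_lit 3) (.e (nat_lit 516098) (nat_lit 0) (.e (nat_lit 7593) (nat_lit 407) (.e (nat_lit 73754) (nat_lit 8) .nil))))) .nil)) 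
(.lf (nat_lit 8308) (.g (nat_lit 1869) (.e (nat_lit 321) (nat_lit 24) (.e (nat_lit 360467) (nat_lit 3) (.e (nat_lit 516144) (nat_lit 9) (.e (nat_lit 426446) (nat_lit 20) (.e (nat_lit 114714) (nat_lit 22) (.e (nat_lit 90128) (nat_lit 9) .nil)))))) (.g (nat_lit 5) .nil .nil))))) (.nd (nat_lit 4) (.nd (nat_lit 5) 
(.lf (nat_lit 8268) (.g (nat_lit 1939) (.e (nat_lit 321) (nat_lit 24) (.e (nat_lit 360466) (nat_lit 3) (.e (nat_lit 516097) (nat_lit 0) (.e (nat_lit 7591) (nat_lit 407) (.e (nat_lit 73753) (nat_lit 8) .nil))))) .nil)) 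
(.lf (nat_lit 8300) (.g (nat_lit 1642) (.e (nat_lit 321) (nat_lit 24) (.e (nat_lit 360467) (nat_lit 3) (.e (nat_lit 516097) (nat_lit 0) (.e (nat_lit 7591) (nat_lit 407) (.e (nat_lit 73755) (nat_lit 8) (.e (nat_lit 557065) (nat_lit 9) .nil)))))) (.g (nat_lit 4) .nil .nil)))) (.nd (nat_lit 5) 
(.lf (nat_lit 8284) (.g (nat_lit 2021) (.e (nat_lit 321) (nat_lit 24) (.e (nat_lit 360466) (nat_lit 3) (.e (nat_lit 516146) (nat_lit 9) (.e (nat_lit 426448) (nat_lit 20) (.e (nat_lit 114714) (nat_lit 22) (.e (nat_lit 90128) (nat_lit 9) .nil)))))) (.g (nat_lit 4) .nil .nil))) 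
(.lf (nat_lit 8316) (.g (nat_lit 1190) (.e (nat_lit 321) (nat_lit 24) (.e (nat_lit 360467) (nat_lit 3) (.e (nat_lit 516146) (nat_lit 9) (.e (nat_lit 426439) (nat_lit 19) .nil)))) .nil)))))) (.nd (nat_lit 2) (.nd (nat_lit 3) (.nd (nat_lit 4) (.nd (nat_lit 5) 
(.lf (nat_lit 8258) (.g (nat_lit 2084) (.e (nat_lit 321) (nat_lit 24) (.e (nat_lit 360453) (nat_lit 0) (.e (nat_lit 7273) (nat_lit 385) (.e (nat_lit 122919) (nat_lit 15) (.e (nat_lit 360491) (nat_lit 22) (.e (nat_lit 778362) (nat_lit 9) .nil)))))) (.g (nat_lit 0) .nil .nil))) 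
(.lf (nat_lit 8290) (.g (nat_lit 1788) (.e (nat_lit 321) (nat_lit 24) (.e (nat_lit 360466) (nat_lit 3) (.e (nat_lit 516179) (nat_lit 15) (.e (nat_lit 475214) (nat_lit 42) (.e (nat_lit 720938) (nat_lit 22) .nil))))) .nil))) (.nd (nat_lit 5) 
(.lf (nat_lit 8274) (.g (nat_lit 1367) (.e (nat_lit 321) (nat_lit 24) (.e (nat_lit 360466) (nat_lit 3) (.e (nat_lit 516098) (nat_lit 0) (.e (nat_lit 7593) (nat_lit 407) .nil)))) .nil)) 
(.lf (nat_lit 8306) (.g (nat_lit 3110) (.e (nat_lit 321) (nat_lit 24) (.e (nat_lit 360467) (nat_lit 3) (.e (nat_lit 516098) (nat_lit 0) (.e (nat_lit 7593) (nat_lit 407) (.e (nat_lit 73755) (nat_lit 8) (.e (nat_lit 557066) (nat_lit 9) .nil)))))) (.g (nat_lit 0) .nil .nil))))) (.nd (nat_lit 4) (.nd (nat_lit 5) 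
(.lf (nat_lit 8266) (.g (nat_lit 2268) (.e (nat_lit 321) (nat_lit 24) (.e (nat_lit 360464) (nat_lit 2) (.e (nat_lit 507922) (nat_lit 6) (.e (nat_lit 286756) (nat_lit 10) (.e (nat_lit 344129) (nat_lit 26) (.e (nat_lit 557066) (nat_lit 9) .nil)))))) (.g (nat_lit 6) .nil .nil))) 
(.lf (nat_lit 8298) (.g (nat_lit 2747) (.e (nat_lit 321) (nat_lit 24) (.e (nat_lit 360466) (nat_lit 3) (.e (nat_lit 516185) (nat_lit 16) (.e (nat_lit 491560) (nat_lit 10) (.e (nat_lit 344131) (nat_lit 26) .nil))))) .nil))) (.nd (nat_lit 5) 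
(.lf (nat_lit 8282) (.g (nat_lit 1625) (.e (nat_lit 321) (nat_lit 24) (.e (nat_lit 360466) (nat_lit 3) (.e (nat_lit 516146) (nat_lit 9) (.e (nat_lit 426446) (nat_lit 20) (.e (nat_lit 114716) (nat_lit 22) .nil))))) .nil)) 
(.lf (nat_lit 8314) (.g (nat_lit 2133) (.e (nat_lit 321) (nat_lit 24) (.e (nat_lit 360467) (nat_lit 3) (.e (nat_lit 516146) (nat_lit 9) (.e (nat_lit 426361) (nat_lit 15) (.e (nat_lit 2203) (nat_lit 144) (.e (nat_lit 720941) (nat_lit 22) (.e (nat_lit 90128) (nat_lit 9) .nil))))))) (.g (nat_lit 5) .nil .nil)))))) (.nd (nat_lit 3) (.nd (nat_lit 4) (.nd (nat_lit 5) 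
(.lf (nat_lit 8262) (.g (nat_lit 2116) (.e (nat_lit 321) (nat_lit 24) (.e (nat_lit 360453) (nat_lit 0) (.e (nat_lit 7273) (nat_lit 385) (.e (nat_lit 122919) (nat_lit 15) (.e (nat_lit 360492) (nat_lit 22) (.e (nat_lit 778362) (nat_lit 9) .nil)))))) (.g (nat_lit 0) .nil .nil))) 
(.lf (nat_lit 8294) (.g (nat_lit 2374) (.e (nat_lit 321) (nat_lit 24) (.e (nat_lit 360466) (nat_lit 3) (.e (nat_lit 516185) (nat_lit 16) (.e (nat_lit 491558) (nat_lit 10) (.e (nat_lit 344130) (nat_lit 26) .nil))))) .nil))) (.nd (nat_lit 5) 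
(.lf (nat_lit 8278) (.g (nat_lit 1192) (.e (nat_lit 321) (nat_lit 24) (.e (nat_lit 360466) (nat_lit 3) (.e (nat_lit 516146) (nat_lit 9) (.e (nat_lit 426361) (nat_lit 15) .nil)))) .nil)) 
(.lf (nat_lit 8310) (.g (nat_lit 1189) (.e (nat_lit 321) (nat_lit 24) (.e (nat_lit 360467) (nat_lit 3) (.e (nat_lit 516146) (nat_lit 9) (.e (nat_lit 426360) (nat_lit 15) .nil)))) .nil)))) (.nd (nat_lit 4) (.nd (nat_lit 5) 
(.lf (nat_lit 8270) (.g (nat_lit 2186) (.e (nat_lit 321) (nat_lit 24) (.e (nat_lit 360466) (nat_lit 3) (.e (nat_lit 516097) (nat_lit 0) (.e (nat_lit 7593) (nat_lit 407) (.e (nat_lit 73753) (nat_lit 8) .nil))))) .nil)) 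
(.lf (nat_lit 8302) (.g (nat_lit 1655) (.e (nat_lit 321) (nat_lit 24) (.e (nat_lit 360467) (nat_lit 3) (.e (nat_lit 516097) (nat_lit 0) (.e (nat_lit 7593) (nat_lit 407) (.e (nat_lit 73754) (nat_lit 8) (.e (nat_lit 557064) (nat_lit 9) .nil)))))) (.g (nat_lit 4) .nil .nil)))) (.nd (nat_lit 5) 
(.lf (nat_lit 8286) (.g (nat_lit 1312) (.e (nat_lit 321) (nat_lit 24) (.e (nat_lit 360466) (nat_lit 3) (.e (nat_lit 516146) (nat_lit 9) (.e (nat_lit 426449) (nat_lit 20) .nil)))) .nil)) 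
(.lf (nat_lit 8318) (.g (nat_lit 1898) (.e (nat_lit 321) (nat_lit 24) (.e (nat_lit 360467) (nat_lit 3) (.e (nat_lit 516146) (nat_lit 9) (.e (nat_lit 426446) (nat_lit 20) (.e (nat_lit 114714) (nat_lit 22) (.e (nat_lit 90127) (nat_lit 9) .nil)))))) (.g (nat_lit 5) .nil .nil)))))))) (.nd (nat_lit 1) (.nd (nat_lit 2) (.nd (nat_lit 3) (.nd (nat_lit 4) (.nd (nat_lit 5) 
(.lf (nat_lit 8257) (.g (nat_lit 1602) (.e (nat_lit 321) (nat_lit 24) (.e (nat_lit 360453) (nat_lit 0) (.e (nat_lit 7273) (nat_lit 385) (.e (nat_lit 122919) (nat_lit 15) (.e (nat_lit 360491) (nat_lit 22) (.e (nat_lit 778360) (nat_lit 9) .nil)))))) (.g (nat_lit 0) .nil .nil))) 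
(.lf (nat_lit 8289) (.g (nat_lit 1807) (.e (nat_lit 321) (nat_lit 24) (.e (nat_lit 360466) (nat_lit 3) (.e (nat_lit 516179) (nat_lit 15) (.e (nat_lit 475214) (nat_lit 42) (.e (nat_lit 720937) (nat_lit 22) .nil))))) .nil))) (.nd (nat_lit 5) 
(.lf (nat_lit 8273) (.g (nat_lit 732) (.e (nat_lit 321) (nat_lit 24) (.e (nat_lit 360466) (nat_lit 3) (.e (nat_lit 516098) (nat_lit 0) .nil))) .nil)) 
(.lf (nat_lit 8305) (.g (nat_lit 3144) (.e (nat_lit 321) (nat_lit 24) (.e (nat_lit 360467) (nat_lit 3) (.e (nat_lit 516098) (nat_lit 0) (.e (nat_lit 7593) (nat_lit 407) (.e (nat_lit 73753) (nat_lit 8) (.e (nat_lit 557066) (nat_lit 9) .nil)))))) (.g (nat_lit 0) .nil .nil))))) (.nd (nat_lit 4) (.nd (nat_lit 5) 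
(.lf (nat_lit 8265) (.g (nat_lit 2035) (.e (nat_lit 321) (nat_lit 24) (.e (nat_lit 360464) (nat_lit 2) (.e (nat_lit 507908) (nat_lit 0) (.e (nat_lit 5412) (nat_lit 303) (.e (nat_lit 73753) (nat_lit 8) (.e (nat_lit 557064) (nat_lit 9) .nil)))))) (.g (nat_lit 6) .nil .nil))) 
(.lf (nat_lit 8297) (.g (nat_lit 2510) (.e (nat_lit 321) (nat_lit 24) (.e (nat_lit 360466) (nat_lit 3) (.e (nat_lit 516185) (nat_lit 16) (.e (nat_lit 491560) (nat_lit 10) (.e (nat_lit 344130) (nat_lit 26) .nil))))) .nil))) (.nd (nat_lit 5) 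
(.lf (nat_lit 8281) (.g (nat_lit 1696) (.e (nat_lit 321) (nat_lit 24) (.e (nat_lit 360466) (nat_lit 3) (.e (nat_lit 516146) (nat_lit 9) (.e (nat_lit 426446) (nat_lit 20) (.e (nat_lit 114714) (nat_lit 22) (.e (nat_lit 90128) (nat_lit 9) .nil)))))) (.g (nat_lit 4) .nil .nil))) 
(.lf (nat_lit 8313) (.g (nat_lit 1788) (.e (nat_lit 321) (nat_lit 24) (.e (nat_lit 360467) (nat_lit 3) (.e (nat_lit 516146) (nat_lit 9) (.e (nat_lit 426361) (nat_lit 15) (.e (nat_lit 2203) (nat_lit 144) (.e (nat_lit 720941) (nat_lit 22) (.e (nat_lit 90127) (nat_lit 9) .nil))))))) (.g (nat_lit 4) .nil .nil)))))) (.nd (nat_lit 3) (.nd (nat_lit 4) (.nd (nat_lit 5) 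
(.lf (nat_lit 8261) (.g (nat_lit 2130) (.e (nat_lit 321) (nat_lit 24) (.e (nat_lit 360453) (nat_lit 0) (.e (nat_lit 7273) (nat_lit 385) (.e (nat_lit 122919) (nat_lit 15) (.e (nat_lit 360492) (nat_lit 22) (.e (nat_lit 778361) (nat_lit 9) .nil)))))) (.g (nat_lit 0) .nil .nil))) 
(.lf (nat_lit 8293) (.g (nat_lit 747) (.e (nat_lit 321) (nat_lit 24) (.e (nat_lit 360466) (nat_lit 3) (.e (nat_lit 516185) (nat_lit 16) .nil))) .nil))) (.nd (nat_lit 5) 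
(.lf (nat_lit 8277) (.g (nat_lit 498) (.e (nat_lit 321) (nat_lit 24) (.e (nat_lit 360466) (nat_lit 3) (.e (nat_lit 516100) (nat_lit 0) .nil))) .nil)) 
(.lf (nat_lit 8309) (.g (nat_lit 1386) (.e (nat_lit 321) (nat_lit 24) (.e (nat_lit 360467) (nat_lit 3) (.e (nat_lit 516144) (nat_lit 9) (.e (nat_lit 426448) (nat_lit 20) (.e (nat_lit 114714) (nat_lit 22) .nil))))) .nil)))) (.nd (nat_lit 4) (.nd (nat_lit 5) 
(.lf (nat_lit 8269) (.g (nat_lit 1929) (.e (nat_lit 321) (nat_lit 24) (.e (nat_lit 360466) (nat_lit 3) (.e (nat_lit 516097) (nat_lit 0) (.e (nat_lit 7591) (nat_lit 407) (.e (nat_lit 73755) (nat_lit 8) (.e (nat_lit 557066) (nat_lit 9) .nil)))))) (.g (nat_lit 4) .nil .nil))) 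
(.lf (nat_lit 8301) (.g (nat_lit 3637) (.e (nat_lit 321) (nat_lit 24) (.e (nat_lit 360467) (nat_lit 3) (.e (nat_lit 516097) (nat_lit 0) (.e (nat_lit 7593) (nat_lit 407) (.e (nat_lit 73753) (nat_lit 8) (.e (nat_lit 557066) (nat_lit 9) .nil)))))) (.g (nat_lit 0) .nil .nil)))) (.nd (nat_lit 5) 
(.lf (nat_lit 8285) (.g (nat_lit 1897) (.e (nat_lit 321) (nat_lit 24) (.e (nat_lit 360466) (nat_lit 3) (.e (nat_lit 516146) (nat_lit 9) (.e (nat_lit 426448) (nat_lit 20) (.e (nat_lit 114716) (nat_lit 22) .nil))))) .nil)) 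
(.lf (nat_lit 8317) (.g (nat_lit 1162) (.e (nat_lit 321) (nat_lit 24) (.e (nat_lit 360467) (nat_lit 3) (.e (nat_lit 516146) (nat_lit 9) (.e (nat_lit 426440) (nat_lit 19) .nil)))) .nil)))))) (.nd (nat_lit 2) (.nd (nat_lit 3) (.nd (nat_lit 4) (.nd (nat_lit 5) 
(.lf (nat_lit 8259) (.g (nat_lit 1219) (.e (nat_lit 321) (nat_lit 24) (.e (nat_lit 360453) (nat_lit 0) (.e (nat_lit 7273) (nat_lit 385) (.e (nat_lit 122919) (nat_lit 15) (.e (nat_lit 360492) (nat_lit 22) (.e (nat_lit 778359) (nat_lit 9) .nil)))))) (.g (nat_lit 4) .nil .nil))) 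
(.lf (nat_lit 8291) (.g (nat_lit 1355) (.e (nat_lit 321) (nat_lit 24) (.e (nat_lit 360466) (nat_lit 3) (.e (nat_lit 516180) (nat_lit 15) (.e (nat_lit 475214) (nat_lit 42) (.e (nat_lit 720937) (nat_lit 22) .nil))))) .nil))) (.nd (nat_lit 5) 
(.lf (nat_lit 8275) (.g (nat_lit 2401) (.e (nat_lit 321) (nat_lit 24) (.e (nat_lit 360466) (nat_lit 3) (.e (nat_lit 516098) (nat_lit 0) (.e (nat_lit 7593) (nat_lit 407) (.e (nat_lit 73753) (nat_lit 8) (.e (nat_lit 557066) (nat_lit 9) .nil)))))) (.g (nat_lit 5) .nil .nil))) 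
(.lf (nat_lit 8307) (.g (nat_lit 553) (.e (nat_lit 321) (nat_lit 24) (.e (nat_lit 360467) (nat_lit 3) (.e (nat_lit 516106) (nat_lit 0) .nil))) .nil)))) (.nd (nat_lit 4) (.nd (nat_lit 5) 
(.lf (nat_lit 8267) (.g (nat_lit 202) (.e (nat_lit 321) (nat_lit 24) (.e (nat_lit 360464) (nat_lit 2) (.e (nat_lit 507923) (nat_lit 6) .nil))) .nil)) 
(.lf (nat_lit 8299) (.g (nat_lit 3136) (.e (nat_lit 321) (nat_lit 24) (.e (nat_lit 360467) (nat_lit 3) (.e (nat_lit 516097) (nat_lit 0) (.e (nat_lit 7591) (nat_lit 407) (.e (nat_lit 73753) (nat_lit 8) (.e (nat_lit 557066) (nat_lit 9) .nil)))))) (.g (nat_lit 6) .nil .nil)))) (.nd (nat_lit 5) 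
(.lf (nat_lit 8283) (.g (nat_lit 1198) (.e (nat_lit 321) (nat_lit 24) (.e (nat_lit 360466) (nat_lit 3) (.e (nat_lit 516146) (nat_lit 9) (.e (nat_lit 426448) (nat_lit 20) .nil)))) .nil)) 
(.lf (nat_lit 8315) (.g (nat_lit 1513) (.e (nat_lit 321) (nat_lit 24) (.e (nat_lit 360467) (nat_lit 3) (.e (nat_lit 516146) (nat_lit 9) (.e (nat_lit 426361) (nat_lit 15) (.e (nat_lit 2206) (nat_lit 144) (.e (nat_lit 720937) (nat_lit 22) (.e (nat_lit 90128) (nat_lit 9) .nil))))))) (.g (nat_lit 4) .nil .nil)))))) (.nd (nat_lit 3) (.nd (nat_lit 4) (.nd (nat_lit 5) 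
(.lf (nat_lit 8263) (.g (nat_lit 2010) (.e (nat_lit 321) (nat_lit 24) (.e (nat_lit 360464) (nat_lit 2) (.e (nat_lit 507906) (nat_lit 0) (.e (nat_lit 5412) (nat_lit 303) (.e (nat_lit 73753) (nat_lit 8) (.e (nat_lit 557064) (nat_lit 9) .nil)))))) (.g (nat_lit 5) .nil .nil))) 
(.lf (nat_lit 8295) (.g (nat_lit 1603) (.e (nat_lit 321) (nat_lit 24) (.e (nat_lit 360466) (nat_lit 3) (.e (nat_lit 516185) (nat_lit 16) (.e (nat_lit 491560) (nat_lit 10) .nil)))) .nil))) (.nd (nat_lit 5) 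
(.lf (nat_lit 8279) (.g (nat_lit 1566) (.e (nat_lit 321) (nat_lit 24) (.e (nat_lit 360466) (nat_lit 3) (.e (nat_lit 516146) (nat_lit 9) (.e (nat_lit 426361) (nat_lit 15) (.e (nat_lit 2203) (nat_lit 144) (.e (nat_lit 720938) (nat_lit 22) (.e (nat_lit 90128) (nat_lit 9) .nil))))))) (.g (nat_lit 4) .nil .nil))) 
(.lf (nat_lit 8311) (.g (nat_lit 1103) (.e (nat_lit 321) (nat_lit 24) (.e (nat_lit 360467) (nat_lit 3) (.e (nat_lit 516146) (nat_lit 9) (.e (nat_lit 426361) (nat_lit 15) .nil)))) .nil)))) (.nd (nat_lit 4) (.nd (nat_lit 5) 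
(.lf (nat_lit 8271) (.g (nat_lit 2215) (.e (nat_lit 321) (nat_lit 24) (.e (nat_lit 360466) (nat_lit 3) (.e (nat_lit 516097) (nat_lit 0) (.e (nat_lit 7593) (nat_lit 407) (.e (nat_lit 73755) (nat_lit 8) .nil))))) .nil)) 
(.lf (nat_lit 8303) (.g (nat_lit 3091) (.e (nat_lit 321) (nat_lit 24) (.e (nat_lit 360467) (nat_lit 3) (.e (nat_lit 516097) (nat_lit 0) (.e (nat_lit 7593) (nat_lit 407) (.e (nat_lit 73754) (nat_lit 8) (.e (nat_lit 557066) (nat_lit 9) .nil)))))) (.g (nat_lit 6) .nil .nil)))) (.nd (nat_lit 5) 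
(.lf (nat_lit 8287) (.g (nat_lit 1293) (.e (nat_lit 321) (nat_lit 24) (.e (nat_lit 360466) (nat_lit 3) (.e (nat_lit 516146) (nat_lit 9) (.e (nat_lit 433920) (nat_lit 20) .nil)))) .nil)) 
(.lf (nat_lit 8319) (.g (nat_lit 2029) (.e (nat_lit 321) (nat_lit 24) (.e (nat_lit 360467) (nat_lit 3) (.e (nat_lit 516146) (nat_lit 9) (.e (nat_lit 426446) (nat_lit 20) (.e (nat_lit 114715) (nat_lit 22) (.e (nat_lit 90121) (nat_lit 9) .nil)))))) (.g (nat_lit 6) .nil .nil)))))))))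

noncomputable def tv115 : DT := (.nd (nat_lit 0) (.nd (nat_lit 1) (.nd (nat_lit 2) (.nd (nat_lit 3) (.nd (nat_lit 4) (.nd (nat_lit 5) 
(.lf (nat_lit 8320) (.g (nat_lit 735) (.e (nat_lit 321) (nat_lit 24) (.e (nat_lit 360467) (nat_lit 3) (.e (nat_lit 516146) (nat_lit 9) (.e (nat_lit 426448) (nat_lit 20) .nil)))) .nil)) 
(.lf (nat_lit 8352) (.g (nat_lit 1212) (.e (nat_lit 321) (nat_lit 24) (.e (nat_lit 360467) (nat_lit 3) (.e (nat_lit 516180) (nat_lit 15) (.e (nat_lit 475214) (nat_lit 42) (.e (nat_lit 720937) (nat_lit 22) (.e (nat_lit 90123) (nat_lit 9) .nil)))))) (.g (nat_lit 4) .nil .nil)))) (.nd (nat_lit 5) 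
(.lf (nat_lit 8336) (.g (nat_lit 1401) (.e (nat_lit 321) (nat_lit 24) (.e (nat_lit 360467) (nat_lit 3) (.e (nat_lit 516179) (nat_lit 15) (.e (nat_lit 475212) (nat_lit 42) (.e (nat_lit 720937) (nat_lit 22) (.e (nat_lit 90127) (nat_lit 9) .nil)))))) (.g (nat_lit 4) .nil .nil))) 
(.lf (nat_lit 8368) (.g (nat_lit 2769) (.e (nat_lit 321) (nat_lit 24) (.e (nat_lit 360473) (nat_lit 8) (.e (nat_lit 557087) (nat_lit 11) (.e (nat_lit 24625) (nat_lit 9) (.e (nat_lit 335969) (nat_lit 0) .nil))))) .nil)))) (.nd (nat_lit 4) (.nd (nat_lit 5) 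
(.lf (nat_lit 8328) (.g (nat_lit 1482) (.e (nat_lit 321) (nat_lit 24) (.e (nat_lit 360467) (nat_lit 3) (.e (nat_lit 516147) (nat_lit 9) (.e (nat_lit 426446) (nat_lit 20) (.e (nat_lit 114715) (nat_lit 22) (.e (nat_lit 90121) (nat_lit 9) .nil)))))) (.g (nat_lit 5) .nil .nil))) 
(.lf (nat_lit 8360) (.g (nat_lit 3402) (.e (nat_lit 321) (nat_lit 24) (.e (nat_lit 360467) (nat_lit 3) (.e (nat_lit 516185) (nat_lit 16) (.e (nat_lit 491560) (nat_lit 10) (.e (nat_lit 344130) (nat_lit 26) (.e (nat_lit 557066) (nat_lit 9) .nil)))))) (.g (nat_lit 0) .nil .nil)))) (.nd (nat_lit 5) 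
(.lf (nat_lit 8344) (.g (nat_lit 2429) (.e (nat_lit 321) (nat_lit 24) (.e (nat_lit 360467) (nat_lit 3) (.e (nat_lit 516179) (nat_lit 15) (.e (nat_lit 475214) (nat_lit 42) (.e (nat_lit 720938) (nat_lit 22) (.e (nat_lit 90127) (nat_lit 9) .nil)))))) (.g (nat_lit 6) .nil .nil))) 
(.lf (nat_lit 8376) (.g (nat_lit 1982) (.e (nat_lit 321) (nat_lit 24) (.e (nat_lit 360475) (nat_lit 8) (.e (nat_lit 557065) (nat_lit 9) (.e (nat_lit 321) (nat_lit 24) .nil)))) .nil))))) (.nd (nat_lit 3) (.nd (nat_lit 4) (.nd (nat_lit 5) 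
(.lf (nat_lit 8324) (.g (nat_lit 1067) (.e (nat_lit 321) (nat_lit 24) (.e (nat_lit 360467) (nat_lit 3) (.e (nat_lit 516146) (nat_lit 9) (.e (nat_lit 426449) (nat_lit 20) .nil)))) .nil)) 
(.lf (nat_lit 8356) (.g (nat_lit 1784) (.e (nat_lit 321) (nat_lit 24) (.e (nat_lit 360467) (nat_lit 3) (.e (nat_lit 516180) (nat_lit 15) (.e (nat_lit 475214) (nat_lit 42) (.e (nat_lit 720941) (nat_lit 22) (.e (nat_lit 90128) (nat_lit 9) .nil)))))) (.g (nat_lit 4) .nil .nil)))) (.nd (nat_lit 5) 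
(.lf (nat_lit 8340) (.g (nat_lit 1501) (.e (nat_lit 321) (nat_lit 24) (.e (nat_lit 360467) (nat_lit 3) (.e (nat_lit 516179) (nat_lit 15) (.e (nat_lit 475214) (nat_lit 42) (.e (nat_lit 720937) (nat_lit 22) (.e (nat_lit 90123) (nat_lit 9) .nil)))))) (.g (nat_lit 4) .nil .nil))) 
(.lf (nat_lit 8372) (.g (nat_lit 3410) (.e (nat_lit 321) (nat_lit 24) (.e (nat_lit 360473) (nat_lit 8) (.e (nat_lit 557087) (nat_lit 11) (.e (nat_lit 24640) (nat_lit 10) (.e (nat_lit 344133) (nat_lit 26) (.e (nat_lit 557066) (nat_lit 9) .nil)))))) (.g (nat_lit 6) .nil .nil))))) (.nd (nat_lit 4) (.nd (nat_lit 5) 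
(.lf (nat_lit 8332) (.g (nat_lit 204) (.e (nat_lit 321) (nat_lit 24) (.e (nat_lit 360467) (nat_lit 3) (.e (nat_lit 516179) (nat_lit 15) .nil))) .nil)) 
(.lf (nat_lit 8364) (.g (nat_lit 3797) (.e (nat_lit 321) (nat_lit 24) (.e (nat_lit 360471) (nat_lit 7) (.e (nat_lit 548889) (nat_lit 9) (.e (nat_lit 65619) (nat_lit 10) (.e (nat_lit 344129) (nat_lit 26) (.e (nat_lit 557066) (nat_lit 9) .nil)))))) (.g (nat_lit 0) .nil .nil)))) (.nd (nat_lit 5) 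
(.lf (nat_lit 8348) (.g (nat_lit 1087) (.e (nat_lit 321) (nat_lit 24) (.e (nat_lit 360467) (nat_lit 3) (.e (nat_lit 516180) (nat_lit 15) (.e (nat_lit 475212) (nat_lit 42) (.e (nat_lit 720938) (nat_lit 22) .nil))))) .nil)) 
(.lf (nat_lit 8380) (.g (nat_lit 2322) (.e (nat_lit 321) (nat_lit 24) (.e (nat_lit 360475) (nat_lit 8) (.e (nat_lit 557066) (nat_lit 9) (.e (nat_lit 321) (nat_lit 24) (.e (nat_lit 360475) (nat_lit 8) (.e (nat_lit 557066) (nat_lit 9) .nil)))))) (.g (nat_lit 4) .nil .nil))))))) (.nd (nat_lit 2) (.nd (nat_lit 3) (.nd (nat_lit 4) (.nd (nat_lit 5) 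
(.lf (nat_lit 8322) (.g (nat_lit 2763) (.e (nat_lit 321) (nat_lit 24) (.e (nat_lit 360467) (nat_lit 3) (.e (nat_lit 516146) (nat_lit 9) (.e (nat_lit 426448) (nat_lit 20) (.e (nat_lit 114714) (nat_lit 22) (.e (nat_lit 90127) (nat_lit 9) .nil)))))) (.g (nat_lit 6) .nil .nil))) 
(.lf (nat_lit 8354) (.g (nat_lit 1261) (.e (nat_lit 321) (nat_lit 24) (.e (nat_lit 360467) (nat_lit 3) (.e (nat_lit 516180) (nat_lit 15) (.e (nat_lit 475214) (nat_lit 42) (.e (nat_lit 720938) (nat_lit 22) (.e (nat_lit 90122) (nat_lit 9) .nil)))))) (.g (nat_lit 4) .nil .nil)))) (.nd (nat_lit 5) 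
(.lf (nat_lit 8338) (.g (nat_lit 1800) (.e (nat_lit 321) (nat_lit 24) (.e (nat_lit 360467) (nat_lit 3) (.e (nat_lit 516179) (nat_lit 15) (.e (nat_lit 475212) (nat_lit 42) (.e (nat_lit 720941) (nat_lit 22) (.e (nat_lit 90127) (nat_lit 9) .nil)))))) (.g (nat_lit 5) .nil .nil))) 
(.lf (nat_lit 8370) (.g (nat_lit 3835) (.e (nat_lit 321) (nat_lit 24) (.e (nat_lit 360473) (nat_lit 8) (.e (nat_lit 557087) (nat_lit 11) (.e (nat_lit 24640) (nat_lit 10) (.e (nat_lit 344129) (nat_lit 26) (.e (nat_lit 557066) (nat_lit 9) .nil)))))) (.g (nat_lit 0) .nil .nil))))) (.nd (nat_lit 4) (.nd (nat_lit 5) 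
(.lf (nat_lit 8330) (.g (nat_lit 2185) (.e (nat_lit 321) (nat_lit 24) (.e (nat_lit 360467) (nat_lit 3) (.e (nat_lit 516147) (nat_lit 9) (.e (nat_lit 426448) (nat_lit 20) (.e (nat_lit 114714) (nat_lit 22) (.e (nat_lit 90127) (nat_lit 9) .nil)))))) (.g (nat_lit 6) .nil .nil))) 
(.lf (nat_lit 8362) (.g (nat_lit 1453) (.e (nat_lit 321) (nat_lit 24) (.e (nat_lit 360467) (nat_lit 3) (.e (nat_lit 524032) (nat_lit 33) (.e (nat_lit 401454) (nat_lit 12) (.e (nat_lit 483072) (nat_lit 0) .nil))))) (.g (nat_lit 4) .nil .nil)))) (.nd (nat_lit 5) 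
(.lf (nat_lit 8346) (.g (nat_lit 423) (.e (nat_lit 321) (nat_lit 24) (.e (nat_lit 360467) (nat_lit 3) (.e (nat_lit 516180) (nat_lit 15) .nil))) .nil)) 
(.lf (nat_lit 8378) (.g (nat_lit 1805) (.e (nat_lit 321) (nat_lit 24) (.e (nat_lit 360475) (nat_lit 8) (.e (nat_lit 557065) (nat_lit 9) (.e (nat_lit 324) (nat_lit 24) .nil)))) .nil))))) (.nd (nat_lit 3) (.nd (nat_lit 4) (.nd (nat_lit 5) 
(.lf (nat_lit 8326) (.g (nat_lit 1534) (.e (nat_lit 321) (nat_lit 24) (.e (nat_lit 360467) (nat_lit 3) (.e (nat_lit 516146) (nat_lit 9) (.e (nat_lit 426449) (nat_lit 20) (.e (nat_lit 114716) (nat_lit 22) (.e (nat_lit 90127) (nat_lit 9) .nil)))))) (.g (nat_lit 4) .nil .nil))) 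
(.lf (nat_lit 8358) (.g (nat_lit 3246) (.e (nat_lit 321) (nat_lit 24) (.e (nat_lit 360467) (nat_lit 3) (.e (nat_lit 516185) (nat_lit 16) (.e (nat_lit 491558) (nat_lit 10) (.e (nat_lit 344130) (nat_lit 26) (.e (nat_lit 557066) (nat_lit 9) .nil)))))) (.g (nat_lit 0) .nil .nil)))) (.nd (nat_lit 5) 
(.lf (nat_lit 8342) (.g (nat_lit 1239) (.e (nat_lit 321) (nat_lit 24) (.e (nat_lit 360467) (nat_lit 3) (.e (nat_lit 516179) (nat_lit 15) (.e (nat_lit 475214) (nat_lit 42) (.e (nat_lit 720938) (nat_lit 22) .nil))))) .nil)) 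
(.lf (nat_lit 8374) (.g (nat_lit 3019) (.e (nat_lit 321) (nat_lit 24) (.e (nat_lit 360473) (nat_lit 8) (.e (nat_lit 557119) (nat_lit 18) (.e (nat_lit 2798) (nat_lit 180) (.e (nat_lit 303133) (nat_lit 9) (.e (nat_lit 426412) (nat_lit 15) (.e (nat_lit 7936) (nat_lit 357) .nil))))))) (.g (nat_lit 6) .nil .nil))))) (.nd (nat_lit 4) (.nd (nat_lit 5) 
(.lf (nat_lit 8334) (.g (nat_lit 2218) (.e (nat_lit 321) (nat_lit 24) (.e (nat_lit 360467) (nat_lit 3) (.e (nat_lit 516179) (nat_lit 15) (.e (nat_lit 475211) (nat_lit 41) (.e (nat_lit 712706) (nat_lit 0) (.e (nat_lit 1848) (nat_lit 124) (.e (nat_lit 557066) (nat_lit 9) .nil))))))) (.g (nat_lit 4) .nil .nil))) 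
(.lf (nat_lit 8366) (.g (nat_lit 535) (.e (nat_lit 321) (nat_lit 24) (.e (nat_lit 360473) (nat_lit 8) (.e (nat_lit 557086) (nat_lit 11) .nil))) .nil))) (.nd (nat_lit 5) 
(.lf (nat_lit 8350) (.g (nat_lit 1772) (.e (nat_lit 321) (nat_lit 24) (.e (nat_lit 360467) (nat_lit 3) (.e (nat_lit 516180) (nat_lit 15) (.e (nat_lit 475212) (nat_lit 42) (.e (nat_lit 720941) (nat_lit 22) (.e (nat_lit 90127) (nat_lit 9) .nil)))))) (.g (nat_lit 5) .nil .nil))) 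
(.lf (nat_lit 8382) (.g (nat_lit 828) (.e (nat_lit 321) (nat_lit 24) (.e (nat_lit 360475) (nat_lit 8) (.e (nat_lit 557068) (nat_lit 9) .nil))) .nil))))))) (.nd (nat_lit 1) (.nd (nat_lit 2) (.nd (nat_lit 3) (.nd (nat_lit 4) (.nd (nat_lit 5) 
(.lf (nat_lit 8321) (.g (nat_lit 2252) (.e (nat_lit 321) (nat_lit 24) (.e (nat_lit 360467) (nat_lit 3) (.e (nat_lit 516146) (nat_lit 9) (.e (nat_lit 426448) (nat_lit 20) (.e (nat_lit 114714) (nat_lit 22) (.e (nat_lit 90123) (nat_lit 9) .nil)))))) (.g (nat_lit 5) .nil .nil))) 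
(.lf (nat_lit 8353) (.g (nat_lit 2063) (.e (nat_lit 321) (nat_lit 24) (.e (nat_lit 360467) (nat_lit 3) (.e (nat_lit 516180) (nat_lit 15) (.e (nat_lit 475214) (nat_lit 42) (.e (nat_lit 720937) (nat_lit 22) (.e (nat_lit 90127) (nat_lit 9) .nil)))))) (.g (nat_lit 6) .nil .nil)))) (.nd (nat_lit 5) 
(.lf (nat_lit 8337) (.g (nat_lit 1926) (.e (nat_lit 321) (nat_lit 24) (.e (nat_lit 360467) (nat_lit 3) (.e (nat_lit 516179) (nat_lit 15) (.e (nat_lit 475212) (nat_lit 42) (.e (nat_lit 720938) (nat_lit 22) (.e (nat_lit 90127) (nat_lit 9) .nil)))))) (.g (nat_lit 6) .nil .nil))) 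
(.lf (nat_lit 8369) (.g (nat_lit 3698) (.e (nat_lit 321) (nat_lit 24) (.e (nat_lit 360473) (nat_lit 8) (.e (nat_lit 557087) (nat_lit 11) (.e (nat_lit 24639) (nat_lit 10) (.e (nat_lit 344129) (nat_lit 26) (.e (nat_lit 557066) (nat_lit 9) .nil)))))) (.g (nat_lit 0) .nil .nil))))) (.nd (nat_lit 4) (.nd (nat_lit 5) 
(.lf (nat_lit 8329) (.g (nat_lit 1666) (.e (nat_lit 321) (nat_lit 24) (.e (nat_lit 360467) (nat_lit 3) (.e (nat_lit 516147) (nat_lit 9) (.e (nat_lit 426448) (nat_lit 20) (.e (nat_lit 114714) (nat_lit 22) (.e (nat_lit 90123) (nat_lit 9) .nil)))))) (.g (nat_lit 5) .nil .nil))) 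
(.lf (nat_lit 8361) (.g (nat_lit 2253) (.e (nat_lit 321) (nat_lit 24) (.e (nat_lit 360467) (nat_lit 3) (.e (nat_lit 516185) (nat_lit 16) (.e (nat_lit 491560) (nat_lit 10) (.e (nat_lit 344133) (nat_lit 26) (.e (nat_lit 557065) (nat_lit 9) .nil)))))) (.g (nat_lit 4) .nil .nil)))) (.nd (nat_lit 5) 
(.lf (nat_lit 8345) (.g (nat_lit 2225) (.e (nat_lit 321) (nat_lit 24) (.e (nat_lit 360467) (nat_lit 3) (.e (nat_lit 516179) (nat_lit 15) (.e (nat_lit 475214) (nat_lit 42) (.e (nat_lit 720941) (nat_lit 22) (.e (nat_lit 90127) (nat_lit 9) .nil)))))) (.g (nat_lit 5) .nil .nil))) 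
(.lf (nat_lit 8377) (.g (nat_lit 2603) (.e (nat_lit 321) (nat_lit 24) (.e (nat_lit 360475) (nat_lit 8) (.e (nat_lit 557065) (nat_lit 9) (.e (nat_lit 322) (nat_lit 24) (.e (nat_lit 360475) (nat_lit 8) (.e (nat_lit 557065) (nat_lit 9) .nil)))))) (.g (nat_lit 4) .nil .nil)))))) (.nd (nat_lit 3) (.nd (nat_lit 4) (.nd (nat_lit 5) 
(.lf (nat_lit 8325) (.g (nat_lit 1628) (.e (nat_lit 321) (nat_lit 24) (.e (nat_lit 360467) (nat_lit 3) (.e (nat_lit 516146) (nat_lit 9) (.e (nat_lit 426449) (nat_lit 20) (.e (nat_lit 114716) (nat_lit 22) (.e (nat_lit 90122) (nat_lit 9) .nil)))))) (.g (nat_lit 4) .nil .nil))) 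
(.lf (nat_lit 8357) (.g (nat_lit 3805) (.e (nat_lit 321) (nat_lit 24) (.e (nat_lit 360467) (nat_lit 3) (.e (nat_lit 516185) (nat_lit 16) (.e (nat_lit 491558) (nat_lit 10) (.e (nat_lit 344129) (nat_lit 26) (.e (nat_lit 557066) (nat_lit 9) .nil)))))) (.g (nat_lit 0) .nil .nil)))) (.nd (nat_lit 5) 
(.lf (nat_lit 8341) (.g (nat_lit 2332) (.e (nat_lit 321) (nat_lit 24) (.e (nat_lit 360467) (nat_lit 3) (.e (nat_lit 516179) (nat_lit 15) (.e (nat_lit 475214) (nat_lit 42) (.e (nat_lit 720937) (nat_lit 22) (.e (nat_lit 90127) (nat_lit 9) .nil)))))) (.g (nat_lit 6) .nil .nil))) 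
(.lf (nat_lit 8373) (.g (nat_lit 2122) (.e (nat_lit 321) (nat_lit 24) (.e (nat_lit 360473) (nat_lit 8) (.e (nat_lit 557119) (nat_lit 18) (.e (nat_lit 2797) (nat_lit 180) (.e (nat_lit 303143) (nat_lit 12) (.e (nat_lit 483072) (nat_lit 0) .nil)))))) (.g (nat_lit 4) .nil .nil))))) (.nd (nat_lit 4) (.nd (nat_lit 5) 
(.lf (nat_lit 8333) (.g (nat_lit 1662) (.e (nat_lit 321) (nat_lit 24) (.e (nat_lit 360467) (nat_lit 3) (.e (nat_lit 516179) (nat_lit 15) (.e (nat_lit 475209) (nat_lit 41) (.e (nat_lit 712706) (nat_lit 0) .nil))))) .nil)) 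
(.lf (nat_lit 8365) (.g (nat_lit 1849) (.e (nat_lit 321) (nat_lit 24) (.e (nat_lit 360473) (nat_lit 8) (.e (nat_lit 557065) (nat_lit 9) (.e (nat_lit 321) (nat_lit 24) (.e (nat_lit 360473) (nat_lit 8) (.e (nat_lit 557066) (nat_lit 9) .nil)))))) (.g (nat_lit 4) .nil .nil)))) (.nd (nat_lit 5) 
(.lf (nat_lit 8349) (.g (nat_lit 1887) (.e (nat_lit 321) (nat_lit 24) (.e (nat_lit 360467) (nat_lit 3) (.e (nat_lit 516180) (nat_lit 15) (.e (nat_lit 475212) (nat_lit 42) (.e (nat_lit 720938) (nat_lit 22) (.e (nat_lit 90127) (nat_lit 9) .nil)))))) (.g (nat_lit 6) .nil .nil))) 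
(.lf (nat_lit 8381) (.g (nat_lit 2567) (.e (nat_lit 321) (nat_lit 24) (.e (nat_lit 360475) (nat_lit 8) (.e (nat_lit 557066) (nat_lit 9) (.e (nat_lit 324) (nat_lit 24) (.e (nat_lit 360473) (nat_lit 8) (.e (nat_lit 557066) (nat_lit 9) .nil)))))) (.g (nat_lit 4) .nil .nil))))))) (.nd (nat_lit 2) (.nd (nat_lit 3) (.nd (nat_lit 4) (.nd (nat_lit 5) 
(.lf (nat_lit 8323) (.g (nat_lit 2719) (.e (nat_lit 321) (nat_lit 24) (.e (nat_lit 360467) (nat_lit 3) (.e (nat_lit 516146) (nat_lit 9) (.e (nat_lit 426448) (nat_lit 20) (.e (nat_lit 114715) (nat_lit 22) (.e (nat_lit 90121) (nat_lit 9) .nil)))))) (.g (nat_lit 6) .nil .nil))) 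
(.lf (nat_lit 8355) (.g (nat_lit 2112) (.e (nat_lit 321) (nat_lit 24) (.e (nat_lit 360467) (nat_lit 3) (.e (nat_lit 516180) (nat_lit 15) (.e (nat_lit 475214) (nat_lit 42) (.e (nat_lit 720938) (nat_lit 22) (.e (nat_lit 90127) (nat_lit 9) .nil)))))) (.g (nat_lit 6) .nil .nil)))) (.nd (nat_lit 5) 
(.lf (nat_lit 8339) (.g (nat_lit 1600) (.e (nat_lit 321) (nat_lit 24) (.e (nat_lit 360467) (nat_lit 3) (.e (nat_lit 516179) (nat_lit 15) (.e (nat_lit 475214) (nat_lit 42) (.e (nat_lit 720937) (nat_lit 22) (.e (nat_lit 90122) (nat_lit 9) .nil)))))) (.g (nat_lit 4) .nil .nil))) 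
(.lf (nat_lit 8371) (.g (nat_lit 2699) (.e (nat_lit 321) (nat_lit 24) (.e (nat_lit 360473) (nat_lit 8) (.e (nat_lit 557087) (nat_lit 11) (.e (nat_lit 24640) (nat_lit 10) (.e (nat_lit 344130) (nat_lit 26) (.e (nat_lit 557066) (nat_lit 9) .nil)))))) (.g (nat_lit 4) .nil .nil))))) (.nd (nat_lit 4) (.nd (nat_lit 5) 
(.lf (nat_lit 8331) (.g (nat_lit 1933) (.e (nat_lit 321) (nat_lit 24) (.e (nat_lit 360467) (nat_lit 3) (.e (nat_lit 516147) (nat_lit 9) (.e (nat_lit 426448) (nat_lit 20) (.e (nat_lit 114715) (nat_lit 22) (.e (nat_lit 90121) (nat_lit 9) .nil)))))) (.g (nat_lit 5) .nil .nil))) 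
(.lf (nat_lit 8363) (.g (nat_lit 3575) (.e (nat_lit 321) (nat_lit 24) (.e (nat_lit 360471) (nat_lit 7) (.e (nat_lit 548889) (nat_lit 9) (.e (nat_lit 65617) (nat_lit 10) (.e (nat_lit 344130) (nat_lit 26) (.e (nat_lit 557066) (nat_lit 9) .nil)))))) (.g (nat_lit 0) .nil .nil)))) (.nd (nat_lit 5) 
(.lf (nat_lit 8347) (.g (nat_lit 1361) (.e (nat_lit 321) (nat_lit 24) (.e (nat_lit 360467) (nat_lit 3) (.e (nat_lit 516180) (nat_lit 15) (.e (nat_lit 475212) (nat_lit 42) (.e (nat_lit 720937) (nat_lit 22) (.e (nat_lit 90127) (nat_lit 9) .nil)))))) (.g (nat_lit 4) .nil .nil))) 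
(.lf (nat_lit 8379) (.g (nat_lit 3004) (.e (nat_lit 321) (nat_lit 24) (.e (nat_lit 360475) (nat_lit 8) (.e (nat_lit 557065) (nat_lit 9) (.e (nat_lit 324) (nat_lit 24) (.e (nat_lit 360473) (nat_lit 8) (.e (nat_lit 557066) (nat_lit 9) .nil)))))) (.g (nat_lit 5) .nil .nil)))))) (.nd (nat_lit 3) (.nd (nat_lit 4) (.nd (nat_lit 5) 
(.lf (nat_lit 8327) (.g (nat_lit 1051) (.e (nat_lit 321) (nat_lit 24) (.e (nat_lit 360467) (nat_lit 3) (.e (nat_lit 516146) (nat_lit 9) (.e (nat_lit 433920) (nat_lit 20) .nil)))) .nil)) 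
(.lf (nat_lit 8359) (.g (nat_lit 4361) (.e (nat_lit 321) (nat_lit 24) (.e (nat_lit 360467) (nat_lit 3) (.e (nat_lit 516185) (nat_lit 16) (.e (nat_lit 491560) (nat_lit 10) (.e (nat_lit 344129) (nat_lit 26) (.e (nat_lit 557066) (nat_lit 9) .nil)))))) (.g (nat_lit 0) .nil .nil)))) (.nd (nat_lit 5) 
(.lf (nat_lit 8343) (.g (nat_lit 1574) (.e (nat_lit 321) (nat_lit 24) (.e (nat_lit 360467) (nat_lit 3) (.e (nat_lit 516179) (nat_lit 15) (.e (nat_lit 475214) (nat_lit 42) (.e (nat_lit 720938) (nat_lit 22) (.e (nat_lit 90122) (nat_lit 9) .nil)))))) (.g (nat_lit 4) .nil .nil))) 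
(.lf (nat_lit 8375) (.g (nat_lit 2093) (.e (nat_lit 321) (nat_lit 24) (.e (nat_lit 360474) (nat_lit 8) (.e (nat_lit 557070) (nat_lit 9) (.e (nat_lit 7936) (nat_lit 24) .nil)))) .nil)))) (.nd (nat_lit 4) (.nd (nat_lit 5) 
(.lf (nat_lit 8335) (.g (nat_lit 643) (.e (nat_lit 321) (nat_lit 24) (.e (nat_lit 360467) (nat_lit 3) (.e (nat_lit 516179) (nat_lit 15) (.e (nat_lit 475212) (nat_lit 42) .nil)))) .nil)) 
(.lf (nat_lit 8367) (.g (nat_lit 1276) (.e (nat_lit 321) (nat_lit 24) (.e (nat_lit 360473) (nat_lit 8) (.e (nat_lit 557086) (nat_lit 11) (.e (nat_lit 24639) (nat_lit 10) .nil)))) .nil))) (.nd (nat_lit 5) 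
(.lf (nat_lit 8351) (.g (nat_lit 1311) (.e (nat_lit 321) (nat_lit 24) (.e (nat_lit 360467) (nat_lit 3) (.e (nat_lit 516180) (nat_lit 15) (.e (nat_lit 475214) (nat_lit 42) (.e (nat_lit 720937) (nat_lit 22) (.e (nat_lit 90122) (nat_lit 9) .nil)))))) (.g (nat_lit 4) .nil .nil))) 
(.lf (nat_lit 8383) (.g (nat_lit 826) (.e (nat_lit 321) (nat_lit 24) (.e (nat_lit 360475) (nat_lit 8) (.e (nat_lit 557070) (nat_lit 9) .nil))) .nil))))))))

noncomputable def tv116 : DT := (.nd (nat_lit 0) (.nd (nat_lit 1) (.nd (nat_lit 2) (.nd (nat_lit 3) (.nd (nat_lit 4) (.nd (nat_lit 5) 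
(.lf (nat_lit 8384) (.g (nat_lit 1237) (.e (nat_lit 321) (nat_lit 24) (.e (nat_lit 360475) (nat_lit 8) (.e (nat_lit 557086) (nat_lit 11) .nil))) .nil)) 
(.lf (nat_lit 8416) (.g (nat_lit 953) (.e (nat_lit 321) (nat_lit 24) (.e (nat_lit 360489) (nat_lit 21) (.e (nat_lit 770055) (nat_lit 5) (.e (nat_lit 1586) (nat_lit 111) (.e (nat_lit 360491) (nat_lit 22) .nil))))) .nil))) (.nd (nat_lit 5) 
(.lf (nat_lit 8400) (.g (nat_lit 1793) (.e (nat_lit 321) (nat_lit 24) (.e (nat_lit 360488) (nat_lit 20) (.e (nat_lit 761866) (nat_lit 5) (.e (nat_lit 1582) (nat_lit 111) (.e (nat_lit 360491) (nat_lit 22) (.e (nat_lit 778361) (nat_lit 9) .nil)))))) (.g (nat_lit 0) .nil .nil))) 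
(.lf (nat_lit 8432) (.g (nat_lit 2068) (.e (nat_lit 321) (nat_lit 24) (.e (nat_lit 360489) (nat_lit 21) (.e (nat_lit 770058) (nat_lit 5) (.e (nat_lit 1595) (nat_lit 111) (.e (nat_lit 360492) (nat_lit 22) (.e (nat_lit 778361) (nat_lit 9) .nil)))))) (.g (nat_lit 0) .nil .nil))))) (.nd (nat_lit 4) (.nd (nat_lit 5) 
(.lf (nat_lit 8392) (.g (nat_lit 4130) (.e (nat_lit 321) (nat_lit 24) (.e (nat_lit 360475) (nat_lit 8) (.e (nat_lit 557087) (nat_lit 11) (.e (nat_lit 24641) (nat_lit 10) (.e (nat_lit 344130) (nat_lit 26) (.e (nat_lit 557066) (nat_lit 9) .nil)))))) (.g (nat_lit 5) .nil .nil))) 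
(.lf (nat_lit 8424) (.g (nat_lit 1068) (.e (nat_lit 321) (nat_lit 24) (.e (nat_lit 360489) (nat_lit 21) (.e (nat_lit 770057) (nat_lit 5) (.e (nat_lit 1598) (nat_lit 111) (.e (nat_lit 360491) (nat_lit 22) (.e (nat_lit 778360) (nat_lit 9) .nil)))))) (.g (nat_lit 5) .nil .nil)))) (.nd (nat_lit 5) 
(.lf (nat_lit 8408) (.g (nat_lit 1706) (.e (nat_lit 321) (nat_lit 24) (.e (nat_lit 360488) (nat_lit 20) (.e (nat_lit 761868) (nat_lit 5) (.e (nat_lit 1582) (nat_lit 111) (.e (nat_lit 360491) (nat_lit 22) (.e (nat_lit 778361) (nat_lit 9) .nil)))))) (.g (nat_lit 0) .nil .nil))) 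
(.lf (nat_lit 8440) (.g (nat_lit 1717) (.e (nat_lit 321) (nat_lit 24) (.e (nat_lit 360489) (nat_lit 21) (.e (nat_lit 770058) (nat_lit 5) (.e (nat_lit 1599) (nat_lit 111) (.e (nat_lit 360491) (nat_lit 22) (.e (nat_lit 778362) (nat_lit 9) .nil)))))) (.g (nat_lit 0) .nil .nil)))))) (.nd (nat_lit 3) (.nd (nat_lit 4) (.nd (nat_lit 5) 
(.lf (nat_lit 8388) (.g (nat_lit 3516) (.e (nat_lit 321) (nat_lit 24) (.e (nat_lit 360475) (nat_lit 8) (.e (nat_lit 557087) (nat_lit 11) (.e (nat_lit 24640) (nat_lit 10) (.e (nat_lit 344130) (nat_lit 26) .nil))))) .nil)) 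
(.lf (nat_lit 8420) (.g (nat_lit 958) (.e (nat_lit 321) (nat_lit 24) (.e (nat_lit 360489) (nat_lit 21) (.e (nat_lit 770057) (nat_lit 5) (.e (nat_lit 1586) (nat_lit 111) (.e (nat_lit 360491) (nat_lit 22) .nil))))) .nil))) (.nd (nat_lit 5) 
(.lf (nat_lit 8404) (.g (nat_lit 1730) (.e (nat_lit 321) (nat_lit 24) (.e (nat_lit 360488) (nat_lit 20) (.e (nat_lit 761867) (nat_lit 5) (.e (nat_lit 1597) (nat_lit 111) (.e (nat_lit 360491) (nat_lit 22) (.e (nat_lit 778361) (nat_lit 9) .nil)))))) (.g (nat_lit 0) .nil .nil))) 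
(.lf (nat_lit 8436) (.g (nat_lit 1855) (.e (nat_lit 321) (nat_lit 24) (.e (nat_lit 360489) (nat_lit 21) (.e (nat_lit 770058) (nat_lit 5) (.e (nat_lit 1598) (nat_lit 111) (.e (nat_lit 360491) (nat_lit 22) (.e (nat_lit 778362) (nat_lit 9) .nil)))))) (.g (nat_lit 0) .nil .nil))))) (.nd (nat_lit 4) (.nd (nat_lit 5) 
(.lf (nat_lit 8396) (.g (nat_lit 3727) (.e (nat_lit 321) (nat_lit 24) (.e (nat_lit 360475) (nat_lit 8) (.e (nat_lit 557119) (nat_lit 18) (.e (nat_lit 2798) (nat_lit 180) (.e (nat_lit 303133) (nat_lit 9) (.e (nat_lit 426412) (nat_lit 15) (.e (nat_lit 7936) (nat_lit 357) .nil))))))) (.g (nat_lit 6) .nil .nil))) 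
(.lf (nat_lit 8428) (.g (nat_lit 1108) (.e (nat_lit 321) (nat_lit 24) (.e (nat_lit 360489) (nat_lit 21) (.e (nat_lit 770058) (nat_lit 5) (.e (nat_lit 1586) (nat_lit 111) (.e (nat_lit 360491) (nat_lit 22) (.e (nat_lit 778359) (nat_lit 9) .nil)))))) (.g (nat_lit 4) .nil .nil)))) (.nd (nat_lit 5) 
(.lf (nat_lit 8412) (.g (nat_lit 1073) (.e (nat_lit 321) (nat_lit 24) (.e (nat_lit 360488) (nat_lit 20) (.e (nat_lit 761868) (nat_lit 5) (.e (nat_lit 1597) (nat_lit 111) (.e (nat_lit 368384) (nat_lit 22) (.e (nat_lit 778360) (nat_lit 9) .nil)))))) (.g (nat_lit 4) .nil .nil))) 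
(.lf (nat_lit 8444) (.g (nat_lit 2614) (.e (nat_lit 321) (nat_lit 24) (.e (nat_lit 360489) (nat_lit 21) (.e (nat_lit 770074) (nat_lit 10) (.e (nat_lit 81965) (nat_lit 26) (.e (nat_lit 147466) (nat_lit 9) .nil))))) (.g (nat_lit 0) .nil .nil))))))) (.nd (nat_lit 2) (.nd (nat_lit 3) (.nd (nat_lit 4) (.nd (nat_lit 5) 
(.lf (nat_lit 8386) (.g (nat_lit 3382) (.e (nat_lit 321) (nat_lit 24) (.e (nat_lit 360475) (nat_lit 8) (.e (nat_lit 557086) (nat_lit 11) (.e (nat_lit 24641) (nat_lit 10) (.e (nat_lit 344130) (nat_lit 26) (.e (nat_lit 557066) (nat_lit 9) .nil)))))) (.g (nat_lit 4) .nil .nil))) 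
(.lf (nat_lit 8418) (.g (nat_lit 1005) (.e (nat_lit 321) (nat_lit 24) (.e (nat_lit 360489) (nat_lit 21) (.e (nat_lit 770055) (nat_lit 5) (.e (nat_lit 1598) (nat_lit 111) (.e (nat_lit 360491) (nat_lit 22) (.e (nat_lit 778360) (nat_lit 9) .nil)))))) (.g (nat_lit 5) .nil .nil)))) (.nd (nat_lit 5) 
(.lf (nat_lit 8402) (.g (nat_lit 1056) (.e (nat_lit 321) (nat_lit 24) (.e (nat_lit 360488) (nat_lit 20) (.e (nat_lit 761866) (nat_lit 5) (.e (nat_lit 1597) (nat_lit 111) (.e (nat_lit 368384) (nat_lit 22) .nil))))) .nil)) 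
(.lf (nat_lit 8434) (.g (nat_lit 926) (.e (nat_lit 321) (nat_lit 24) (.e (nat_lit 360489) (nat_lit 21) (.e (nat_lit 770058) (nat_lit 5) (.e (nat_lit 1598) (nat_lit 111) (.e (nat_lit 360491) (nat_lit 22) (.e (nat_lit 778359) (nat_lit 9) .nil)))))) (.g (nat_lit 4) .nil .nil))))) (.nd (nat_lit 4) (.nd (nat_lit 5) 
(.lf (nat_lit 8394) (.g (nat_lit 3537) (.e (nat_lit 321) (nat_lit 24) (.e (nat_lit 360475) (nat_lit 8) (.e (nat_lit 557090) (nat_lit 12) (.e (nat_lit 163844) (nat_lit 0) .nil)))) .nil)) 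
(.lf (nat_lit 8426) (.g (nat_lit 1509) (.e (nat_lit 321) (nat_lit 24) (.e (nat_lit 360489) (nat_lit 21) (.e (nat_lit 770057) (nat_lit 5) (.e (nat_lit 1599) (nat_lit 111) (.e (nat_lit 360491) (nat_lit 22) (.e (nat_lit 778361) (nat_lit 9) .nil)))))) (.g (nat_lit 6) .nil .nil)))) (.nd (nat_lit 5) 
(.lf (nat_lit 8410) (.g (nat_lit 1410) (.e (nat_lit 321) (nat_lit 24) (.e (nat_lit 360488) (nat_lit 20) (.e (nat_lit 761868) (nat_lit 5) (.e (nat_lit 1597) (nat_lit 111) (.e (nat_lit 360491) (nat_lit 22) (.e (nat_lit 778360) (nat_lit 9) .nil)))))) (.g (nat_lit 6) .nil .nil))) 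
(.lf (nat_lit 8442) (.g (nat_lit 2321) (.e (nat_lit 321) (nat_lit 24) (.e (nat_lit 360489) (nat_lit 21) (.e (nat_lit 770074) (nat_lit 10) (.e (nat_lit 81965) (nat_lit 26) (.e (nat_lit 147463) (nat_lit 9) .nil))))) (.g (nat_lit 5) .nil .nil)))))) (.nd (nat_lit 3) (.nd (nat_lit 4) (.nd (nat_lit 5) 
(.lf (nat_lit 8390) (.g (nat_lit 1843) (.e (nat_lit 321) (nat_lit 24) (.e (nat_lit 360475) (nat_lit 8) (.e (nat_lit 557087) (nat_lit 11) (.e (nat_lit 24641) (nat_lit 10) .nil)))) .nil)) 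
(.lf (nat_lit 8422) (.g (nat_lit 1023) (.e (nat_lit 321) (nat_lit 24) (.e (nat_lit 360489) (nat_lit 21) (.e (nat_lit 770057) (nat_lit 5) (.e (nat_lit 1595) (nat_lit 111) (.e (nat_lit 360492) (nat_lit 22) (.e (nat_lit 778359) (nat_lit 9) .nil)))))) (.g (nat_lit 4) .nil .nil)))) (.nd (nat_lit 5) 
(.lf (nat_lit 8406) (.g (nat_lit 357) (.e (nat_lit 321) (nat_lit 24) (.e (nat_lit 360488) (nat_lit 20) (.e (nat_lit 761868) (nat_lit 5) .nil))) .nil)) 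
(.lf (nat_lit 8438) (.g (nat_lit 1092) (.e (nat_lit 321) (nat_lit 24) (.e (nat_lit 360489) (nat_lit 21) (.e (nat_lit 770058) (nat_lit 5) (.e (nat_lit 1599) (nat_lit 111) (.e (nat_lit 360491) (nat_lit 22) (.e (nat_lit 778360) (nat_lit 9) .nil)))))) (.g (nat_lit 5) .nil .nil))))) (.nd (nat_lit 4) (.nd (nat_lit 5) 
(.lf (nat_lit 8398) (.g (nat_lit 561) (.e (nat_lit 321) (nat_lit 24) (.e (nat_lit 360488) (nat_lit 20) (.e (nat_lit 761866) (nat_lit 5) (.e (nat_lit 1582) (nat_lit 111) .nil)))) .nil)) 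
(.lf (nat_lit 8430) (.g (nat_lit 1086) (.e (nat_lit 321) (nat_lit 24) (.e (nat_lit 360489) (nat_lit 21) (.e (nat_lit 770058) (nat_lit 5) (.e (nat_lit 1595) (nat_lit 111) (.e (nat_lit 360492) (nat_lit 22) (.e (nat_lit 778359) (nat_lit 9) .nil)))))) (.g (nat_lit 4) .nil .nil)))) (.nd (nat_lit 5) 
(.lf (nat_lit 8414) (.g (nat_lit 901) (.e (nat_lit 321) (nat_lit 24) (.e (nat_lit 360488) (nat_lit 20) (.e (nat_lit 761869) (nat_lit 5) (.e (nat_lit 1582) (nat_lit 111) (.e (nat_lit 368384) (nat_lit 22) (.e (nat_lit 778360) (nat_lit 9) .nil)))))) (.g (nat_lit 4) .nil .nil))) 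
(.lf (nat_lit 8446) (.g (nat_lit 1337) (.e (nat_lit 321) (nat_lit 24) (.e (nat_lit 360491) (nat_lit 22) (.e (nat_lit 778361) (nat_lit 9) (.e (nat_lit 321) (nat_lit 24) (.e (nat_lit 360491) (nat_lit 22) .nil))))) .nil))))))) (.nd (nat_lit 1) (.nd (nat_lit 2) (.nd (nat_lit 3) (.nd (nat_lit 4) (.nd (nat_lit 5) 
(.lf (nat_lit 8385) (.g (nat_lit 3432) (.e (nat_lit 321) (nat_lit 24) (.e (nat_lit 360475) (nat_lit 8) (.e (nat_lit 557086) (nat_lit 11) (.e (nat_lit 24640) (nat_lit 10) (.e (nat_lit 344129) (nat_lit 26) .nil))))) .nil)) 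
(.lf (nat_lit 8417) (.g (nat_lit 1158) (.e (nat_lit 321) (nat_lit 24) (.e (nat_lit 360489) (nat_lit 21) (.e (nat_lit 770055) (nat_lit 5) (.e (nat_lit 1586) (nat_lit 111) (.e (nat_lit 360491) (nat_lit 22) (.e (nat_lit 778360) (nat_lit 9) .nil)))))) (.g (nat_lit 4) .nil .nil)))) (.nd (nat_lit 5) 
(.lf (nat_lit 8401) (.g (nat_lit 1389) (.e (nat_lit 321) (nat_lit 24) (.e (nat_lit 360488) (nat_lit 20) (.e (nat_lit 761866) (nat_lit 5) (.e (nat_lit 1597) (nat_lit 111) (.e (nat_lit 360491) (nat_lit 22) (.e (nat_lit 778360) (nat_lit 9) .nil)))))) (.g (nat_lit 6) .nil .nil))) 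
(.lf (nat_lit 8433) (.g (nat_lit 2040) (.e (nat_lit 321) (nat_lit 24) (.e (nat_lit 360489) (nat_lit 21) (.e (nat_lit 770058) (nat_lit 5) (.e (nat_lit 1595) (nat_lit 111) (.e (nat_lit 360492) (nat_lit 22) (.e (nat_lit 778362) (nat_lit 9) .nil)))))) (.g (nat_lit 0) .nil .nil))))) (.nd (nat_lit 4) (.nd (nat_lit 5) 
(.lf (nat_lit 8393) (.g (nat_lit 3089) (.e (nat_lit 321) (nat_lit 24) (.e (nat_lit 360475) (nat_lit 8) (.e (nat_lit 557087) (nat_lit 11) (.e (nat_lit 24641) (nat_lit 10) (.e (nat_lit 344133) (nat_lit 26) (.e (nat_lit 557066) (nat_lit 9) .nil)))))) (.g (nat_lit 4) .nil .nil))) 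
(.lf (nat_lit 8425) (.g (nat_lit 1045) (.e (nat_lit 321) (nat_lit 24) (.e (nat_lit 360489) (nat_lit 21) (.e (nat_lit 770057) (nat_lit 5) (.e (nat_lit 1599) (nat_lit 111) (.e (nat_lit 360491) (nat_lit 22) (.e (nat_lit 778360) (nat_lit 9) .nil)))))) (.g (nat_lit 5) .nil .nil)))) (.nd (nat_lit 5) 
(.lf (nat_lit 8409) (.g (nat_lit 1705) (.e (nat_lit 321) (nat_lit 24) (.e (nat_lit 360488) (nat_lit 20) (.e (nat_lit 761868) (nat_lit 5) (.e (nat_lit 1582) (nat_lit 111) (.e (nat_lit 360491) (nat_lit 22) (.e (nat_lit 778362) (nat_lit 9) .nil)))))) (.g (nat_lit 0) .nil .nil))) 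
(.lf (nat_lit 8441) (.g (nat_lit 1803) (.e (nat_lit 321) (nat_lit 24) (.e (nat_lit 360489) (nat_lit 21) (.e (nat_lit 770074) (nat_lit 10) (.e (nat_lit 81963) (nat_lit 26) (.e (nat_lit 147467) (nat_lit 9) .nil))))) (.g (nat_lit 0) .nil .nil)))))) (.nd (nat_lit 3) (.nd (nat_lit 4) (.nd (nat_lit 5) 
(.lf (nat_lit 8389) (.g (nat_lit 3884) (.e (nat_lit 321) (nat_lit 24) (.e (nat_lit 360475) (nat_lit 8) (.e (nat_lit 557087) (nat_lit 11) (.e (nat_lit 24640) (nat_lit 10) (.e (nat_lit 344133) (nat_lit 26) (.e (nat_lit 557066) (nat_lit 9) .nil)))))) (.g (nat_lit 4) .nil .nil))) 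
(.lf (nat_lit 8421) (.g (nat_lit 1157) (.e (nat_lit 321) (nat_lit 24) (.e (nat_lit 360489) (nat_lit 21) (.e (nat_lit 770057) (nat_lit 5) (.e (nat_lit 1586) (nat_lit 111) (.e (nat_lit 360491) (nat_lit 22) (.e (nat_lit 778360) (nat_lit 9) .nil)))))) (.g (nat_lit 4) .nil .nil)))) (.nd (nat_lit 5) 
(.lf (nat_lit 8405) (.g (nat_lit 949) (.e (nat_lit 321) (nat_lit 24) (.e (nat_lit 360488) (nat_lit 20) (.e (nat_lit 761867) (nat_lit 5) (.e (nat_lit 1597) (nat_lit 111) (.e (nat_lit 368384) (nat_lit 22) .nil))))) .nil)) 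
(.lf (nat_lit 8437) (.g (nat_lit 712) (.e (nat_lit 321) (nat_lit 24) (.e (nat_lit 360489) (nat_lit 21) (.e (nat_lit 770058) (nat_lit 5) (.e (nat_lit 1599) (nat_lit 111) (.e (nat_lit 360491) (nat_lit 22) (.e (nat_lit 778359) (nat_lit 9) .nil)))))) (.g (nat_lit 4) .nil .nil))))) (.nd (nat_lit 4) (.nd (nat_lit 5) 
(.lf (nat_lit 8397) (.g (nat_lit 1687) (.e (nat_lit 321) (nat_lit 24) (.e (nat_lit 360477) (nat_lit 11) (.e (nat_lit 581651) (nat_lit 4) (.e (nat_lit 172119) (nat_lit 12) (.e (nat_lit 483072) (nat_lit 0) .nil))))) .nil)) 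
(.lf (nat_lit 8429) (.g (nat_lit 1285) (.e (nat_lit 321) (nat_lit 24) (.e (nat_lit 360489) (nat_lit 21) (.e (nat_lit 770058) (nat_lit 5) (.e (nat_lit 1586) (nat_lit 111) (.e (nat_lit 360491) (nat_lit 22) (.e (nat_lit 778360) (nat_lit 9) .nil)))))) (.g (nat_lit 5) .nil .nil)))) (.nd (nat_lit 5) 
(.lf (nat_lit 8413) (.g (nat_lit 1300) (.e (nat_lit 321) (nat_lit 24) (.e (nat_lit 360488) (nat_lit 20) (.e (nat_lit 761869) (nat_lit 5) (.e (nat_lit 1582) (nat_lit 111) (.e (nat_lit 360491) (nat_lit 22) (.e (nat_lit 778360) (nat_lit 9) .nil)))))) (.g (nat_lit 6) .nil .nil))) 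
(.lf (nat_lit 8445) (.g (nat_lit 842) (.e (nat_lit 321) (nat_lit 24) (.e (nat_lit 360490) (nat_lit 22) (.e (nat_lit 778339) (nat_lit 9) (.e (nat_lit 323) (nat_lit 24) (.e (nat_lit 360491) (nat_lit 22) (.e (nat_lit 778360) (nat_lit 9) .nil)))))) (.g (nat_lit 6) .nil .nil))))))) (.nd (nat_lit 2) (.nd (nat_lit 3) (.nd (nat_lit 4) (.nd (nat_lit 5) 
(.lf (nat_lit 8387) (.g (nat_lit 3873) (.e (nat_lit 321) (nat_lit 24) (.e (nat_lit 360475) (nat_lit 8) (.e (nat_lit 557087) (nat_lit 11) (.e (nat_lit 24640) (nat_lit 10) (.e (nat_lit 344129) (nat_lit 26) (.e (nat_lit 557066) (nat_lit 9) .nil)))))) (.g (nat_lit 5) .nil .nil))) 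
(.lf (nat_lit 8419) (.g (nat_lit 957) (.e (nat_lit 321) (nat_lit 24) (.e (nat_lit 360489) (nat_lit 21) (.e (nat_lit 770056) (nat_lit 5) (.e (nat_lit 1598) (nat_lit 111) (.e (nat_lit 360491) (nat_lit 22) (.e (nat_lit 778360) (nat_lit 9) .nil)))))) (.g (nat_lit 5) .nil .nil)))) (.nd (nat_lit 5) 
(.lf (nat_lit 8403) (.g (nat_lit 1256) (.e (nat_lit 321) (nat_lit 24) (.e (nat_lit 360488) (nat_lit 20) (.e (nat_lit 761867) (nat_lit 5) (.e (nat_lit 1597) (nat_lit 111) (.e (nat_lit 360491) (nat_lit 22) (.e (nat_lit 778360) (nat_lit 9) .nil)))))) (.g (nat_lit 6) .nil .nil))) 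
(.lf (nat_lit 8435) (.g (nat_lit 1316) (.e (nat_lit 321) (nat_lit 24) (.e (nat_lit 360489) (nat_lit 21) (.e (nat_lit 770058) (nat_lit 5) (.e (nat_lit 1598) (nat_lit 111) (.e (nat_lit 360491) (nat_lit 22) (.e (nat_lit 778360) (nat_lit 9) .nil)))))) (.g (nat_lit 6) .nil .nil))))) (.nd (nat_lit 4) (.nd (nat_lit 5) 
(.lf (nat_lit 8395) (.g (nat_lit 2656) (.e (nat_lit 321) (nat_lit 24) (.e (nat_lit 360475) (nat_lit 8) (.e (nat_lit 557119) (nat_lit 18) (.e (nat_lit 2797) (nat_lit 180) (.e (nat_lit 303143) (nat_lit 12) (.e (nat_lit 483072) (nat_lit 0) .nil)))))) (.g (nat_lit 4) .nil .nil))) 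
(.lf (nat_lit 8427) (.g (nat_lit 1663) (.e (nat_lit 321) (nat_lit 24) (.e (nat_lit 360489) (nat_lit 21) (.e (nat_lit 770057) (nat_lit 5) (.e (nat_lit 1599) (nat_lit 111) (.e (nat_lit 360491) (nat_lit 22) (.e (nat_lit 778362) (nat_lit 9) .nil)))))) (.g (nat_lit 6) .nil .nil)))) (.nd (nat_lit 5) 
(.lf (nat_lit 8411) (.g (nat_lit 1881) (.e (nat_lit 321) (nat_lit 24) (.e (nat_lit 360488) (nat_lit 20) (.e (nat_lit 761868) (nat_lit 5) (.e (nat_lit 1597) (nat_lit 111) (.e (nat_lit 360491) (nat_lit 22) (.e (nat_lit 778361) (nat_lit 9) .nil)))))) (.g (nat_lit 0) .nil .nil))) 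
(.lf (nat_lit 8443) (.g (nat_lit 1902) (.e (nat_lit 321) (nat_lit 24) (.e (nat_lit 360489) (nat_lit 21) (.e (nat_lit 770074) (nat_lit 10) (.e (nat_lit 81965) (nat_lit 26) (.e (nat_lit 147464) (nat_lit 9) .nil))))) (.g (nat_lit 4) .nil .nil)))))) (.nd (nat_lit 3) (.nd (nat_lit 4) (.nd (nat_lit 5) 
(.lf (nat_lit 8391) (.g (nat_lit 3697) (.e (nat_lit 321) (nat_lit 24) (.e (nat_lit 360475) (nat_lit 8) (.e (nat_lit 557087) (nat_lit 11) (.e (nat_lit 24641) (nat_lit 10) (.e (nat_lit 344129) (nat_lit 26) .nil))))) .nil)) 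
(.lf (nat_lit 8423) (.g (nat_lit 1101) (.e (nat_lit 321) (nat_lit 24) (.e (nat_lit 360489) (nat_lit 21) (.e (nat_lit 770057) (nat_lit 5) (.e (nat_lit 1595) (nat_lit 111) (.e (nat_lit 360492) (nat_lit 22) (.e (nat_lit 778360) (nat_lit 9) .nil)))))) (.g (nat_lit 4) .nil .nil)))) (.nd (nat_lit 5) 
(.lf (nat_lit 8407) (.g (nat_lit 1189) (.e (nat_lit 321) (nat_lit 24) (.e (nat_lit 360488) (nat_lit 20) (.e (nat_lit 761868) (nat_lit 5) (.e (nat_lit 1582) (nat_lit 111) (.e (nat_lit 360491) (nat_lit 22) (.e (nat_lit 778360) (nat_lit 9) .nil)))))) (.g (nat_lit 5) .nil .nil))) 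
(.lf (nat_lit 8439) (.g (nat_lit 1563) (.e (nat_lit 321) (nat_lit 24) (.e (nat_lit 360489) (nat_lit 21) (.e (nat_lit 770058) (nat_lit 5) (.e (nat_lit 1599) (nat_lit 111) (.e (nat_lit 360491) (nat_lit 22) (.e (nat_lit 778361) (nat_lit 9) .nil)))))) (.g (nat_lit 0) .nil .nil))))) (.nd (nat_lit 4) (.nd (nat_lit 5) 
(.lf (nat_lit 8399) (.g (nat_lit 1275) (.e (nat_lit 321) (nat_lit 24) (.e (nat_lit 360488) (nat_lit 20) (.e (nat_lit 761866) (nat_lit 5) (.e (nat_lit 1582) (nat_lit 111) (.e (nat_lit 360491) (nat_lit 22) (.e (nat_lit 778360) (nat_lit 9) .nil)))))) (.g (nat_lit 5) .nil .nil))) 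
(.lf (nat_lit 8431) (.g (nat_lit 1154) (.e (nat_lit 321) (nat_lit 24) (.e (nat_lit 360489) (nat_lit 21) (.e (nat_lit 770058) (nat_lit 5) (.e (nat_lit 1595) (nat_lit 111) (.e (nat_lit 360492) (nat_lit 22) (.e (nat_lit 778360) (nat_lit 9) .nil)))))) (.g (nat_lit 4) .nil .nil)))) (.nd (nat_lit 5) 
(.lf (nat_lit 8415) (.g (nat_lit 1002) (.e (nat_lit 321) (nat_lit 24) (.e (nat_lit 360488) (nat_lit 20) (.e (nat_lit 761869) (nat_lit 5) (.e (nat_lit 1597) (nat_lit 111) (.e (nat_lit 360491) (nat_lit 22) .nil))))) .nil)) 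
(.lf (nat_lit 8447) (.g (nat_lit 738) (.e (nat_lit 321) (nat_lit 24) (.e (nat_lit 360491) (nat_lit 22) (.e (nat_lit 778361) (nat_lit 9) (.e (nat_lit 324) (nat_lit 24) .nil)))) .nil))))))))

noncomputable def tv117 : DT := (.nd (nat_lit 0) (.nd (nat_lit 1) (.nd (nat_lit 2) (.nd (nat_lit 3) (.nd (nat_lit 4) (.nd (nat_lit 5) 
(.lf (nat_lit 8448) (.g (nat_lit 824) (.e (nat_lit 321) (nat_lit 24) (.e (nat_lit 360491) (nat_lit 22) (.e (nat_lit 778362) (nat_lit 9) (.e (nat_lit 321) (nat_lit 24) .nil)))) .nil)) 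
(.lf (nat_lit 8480) (.g (nat_lit 1305) (.e (nat_lit 322) (nat_lit 24) (.e (nat_lit 360451) (nat_lit 0) (.e (nat_lit 7124) (nat_lit 382) (.e (nat_lit 1223) (nat_lit 90) .nil)))) .nil))) (.nd (nat_lit 5) 
(.lf (nat_lit 8464) (.g (nat_lit 1853) (.e (nat_lit 321) (nat_lit 24) (.e (nat_lit 360492) (nat_lit 22) (.e (nat_lit 778362) (nat_lit 9) (.e (nat_lit 324) (nat_lit 24) (.e (nat_lit 360491) (nat_lit 22) (.e (nat_lit 778362) (nat_lit 9) .nil)))))) (.g (nat_lit 0) .nil .nil))) 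
(.lf (nat_lit 8496) (.g (nat_lit 2036) (.e (nat_lit 322) (nat_lit 24) (.e (nat_lit 360451) (nat_lit 0) (.e (nat_lit 7265) (nat_lit 384) (.e (nat_lit 57427) (nat_lit 15) (.e (nat_lit 360491) (nat_lit 22) .nil))))) .nil)))) (.nd (nat_lit 4) (.nd (nat_lit 5) 
(.lf (nat_lit 8456) (.g (nat_lit 147) (.e (nat_lit 321) (nat_lit 24) (.e (nat_lit 360492) (nat_lit 22) (.e (nat_lit 778360) (nat_lit 9) .nil))) .nil)) 
(.lf (nat_lit 8488) (.g (nat_lit 1487) (.e (nat_lit 322) (nat_lit 24) (.e (nat_lit 360451) (nat_lit 0) (.e (nat_lit 7261) (nat_lit 384) (.e (nat_lit 57424) (nat_lit 14) (.e (nat_lit 352324) (nat_lit 26) .nil))))) .nil))) (.nd (nat_lit 5) 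
(.lf (nat_lit 8472) (.g (nat_lit 1070) (.e (nat_lit 321) (nat_lit 24) (.e (nat_lit 368384) (nat_lit 26) (.e (nat_lit 811029) (nat_lit 9) (.e (nat_lit 303131) (nat_lit 9) (.e (nat_lit 426125) (nat_lit 2) (.e (nat_lit 204544) (nat_lit 0) .nil)))))) (.g (nat_lit 5) .nil .nil))) 
(.lf (nat_lit 8504) (.g (nat_lit 630) (.e (nat_lit 322) (nat_lit 24) (.e (nat_lit 360467) (nat_lit 3) (.e (nat_lit 516098) (nat_lit 0) .nil))) .nil))))) (.nd (nat_lit 3) (.nd (nat_lit 4) (.nd (nat_lit 5) 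
(.lf (nat_lit 8452) (.g (nat_lit 1791) (.e (nat_lit 321) (nat_lit 24) (.e (nat_lit 360491) (nat_lit 22) (.e (nat_lit 778466) (nat_lit 11) (.e (nat_lit 24631) (nat_lit 9) (.e (nat_lit 336046) (nat_lit 6) .nil))))) .nil)) 
(.lf (nat_lit 8484) (.g (nat_lit 2900) (.e (nat_lit 322) (nat_lit 24) (.e (nat_lit 360451) (nat_lit 0) (.e (nat_lit 7125) (nat_lit 382) (.e (nat_lit 1223) (nat_lit 90) (.e (nat_lit 81965) (nat_lit 26) (.e (nat_lit 147463) (nat_lit 9) .nil)))))) (.g (nat_lit 6) .nil .nil)))) (.nd (nat_lit 5) 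
(.lf (nat_lit 8468) (.g (nat_lit 1287) (.e (nat_lit 321) (nat_lit 24) (.e (nat_lit 360492) (nat_lit 22) (.e (nat_lit 778466) (nat_lit 11) (.e (nat_lit 24632) (nat_lit 9) (.e (nat_lit 336048) (nat_lit 6) .nil))))) .nil)) 
(.lf (nat_lit 8500) (.g (nat_lit 1769) (.e (nat_lit 322) (nat_lit 24) (.e (nat_lit 360451) (nat_lit 0) (.e (nat_lit 7266) (nat_lit 384) (.e (nat_lit 57426) (nat_lit 15) (.e (nat_lit 360491) (nat_lit 22) .nil))))) .nil)))) (.nd (nat_lit 4) (.nd (nat_lit 5) 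
(.lf (nat_lit 8460) (.g (nat_lit 1000) (.e (nat_lit 321) (nat_lit 24) (.e (nat_lit 360492) (nat_lit 22) (.e (nat_lit 778362) (nat_lit 9) (.e (nat_lit 321) (nat_lit 24) (.e (nat_lit 360492) (nat_lit 22) (.e (nat_lit 778360) (nat_lit 9) .nil)))))) (.g (nat_lit 4) .nil .nil))) 
(.lf (nat_lit 8492) (.g (nat_lit 3461) (.e (nat_lit 322) (nat_lit 24) (.e (nat_lit 360451) (nat_lit 0) (.e (nat_lit 7265) (nat_lit 384) (.e (nat_lit 57424) (nat_lit 14) (.e (nat_lit 352324) (nat_lit 26) (.e (nat_lit 147463) (nat_lit 9) .nil)))))) (.g (nat_lit 0) .nil .nil)))) (.nd (nat_lit 5) 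
(.lf (nat_lit 8476) (.g (nat_lit 1404) (.e (nat_lit 322) (nat_lit 24) (.e (nat_lit 360451) (nat_lit 0) (.e (nat_lit 7122) (nat_lit 382) (.e (nat_lit 1224) (nat_lit 90) .nil)))) .nil)) 
(.lf (nat_lit 8508) (.g (nat_lit 587) (.e (nat_lit 322) (nat_lit 24) (.e (nat_lit 360467) (nat_lit 3) (.e (nat_lit 516179) (nat_lit 15) .nil))) .nil)))))) (.nd (nat_lit 2) (.nd (nat_lit 3) (.nd (nat_lit 4) (.nd (nat_lit 5) 
(.lf (nat_lit 8450) (.g (nat_lit 1817) (.e (nat_lit 321) (nat_lit 24) (.e (nat_lit 360491) (nat_lit 22) (.e (nat_lit 778466) (nat_lit 11) (.e (nat_lit 24584) (nat_lit 0) (.e (nat_lit 6097) (nat_lit 332) .nil))))) .nil)) 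
(.lf (nat_lit 8482) (.g (nat_lit 3019) (.e (nat_lit 322) (nat_lit 24) (.e (nat_lit 360451) (nat_lit 0) (.e (nat_lit 7125) (nat_lit 382) (.e (nat_lit 1222) (nat_lit 90) (.e (nat_lit 81963) (nat_lit 26) (.e (nat_lit 147463) (nat_lit 9) .nil)))))) (.g (nat_lit 0) .nil .nil)))) (.nd (nat_lit 5) 
(.lf (nat_lit 8466) (.g (nat_lit 808) (.e (nat_lit 321) (nat_lit 24) (.e (nat_lit 360492) (nat_lit 22) (.e (nat_lit 778465) (nat_lit 11) (.e (nat_lit 24641) (nat_lit 10) .nil)))) .nil)) 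
(.lf (nat_lit 8498) (.g (nat_lit 2294) (.e (nat_lit 322) (nat_lit 24) (.e (nat_lit 360451) (nat_lit 0) (.e (nat_lit 7265) (nat_lit 384) (.e (nat_lit 57427) (nat_lit 15) (.e (nat_lit 360491) (nat_lit 22) (.e (nat_lit 778362) (nat_lit 9) .nil)))))) (.g (nat_lit 5) .nil .nil))))) (.nd (nat_lit 4) (.nd (nat_lit 5) 
(.lf (nat_lit 8458) (.g (nat_lit 1250) (.e (nat_lit 321) (nat_lit 24) (.e (nat_lit 360492) (nat_lit 22) (.e (nat_lit 778361) (nat_lit 9) (.e (nat_lit 324) (nat_lit 24) (.e (nat_lit 360491) (nat_lit 22) (.e (nat_lit 778360) (nat_lit 9) .nil)))))) (.g (nat_lit 6) .nil .nil))) 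
(.lf (nat_lit 8490) (.g (nat_lit 957) (.e (nat_lit 322) (nat_lit 24) (.e (nat_lit 360451) (nat_lit 0) (.e (nat_lit 7261) (nat_lit 384) (.e (nat_lit 57427) (nat_lit 15) .nil)))) .nil))) (.nd (nat_lit 5) 
(.lf (nat_lit 8474) (.g (nat_lit 448) (.e (nat_lit 322) (nat_lit 24) (.e (nat_lit 360451) (nat_lit 0) (.e (nat_lit 7122) (nat_lit 382) .nil))) .nil)) 
(.lf (nat_lit 8506) (.g (nat_lit 595) (.e (nat_lit 322) (nat_lit 24) (.e (nat_lit 360467) (nat_lit 3) (.e (nat_lit 516147) (nat_lit 9) .nil))) .nil))))) (.nd (nat_lit 3) (.nd (nat_lit 4) (.nd (nat_lit 5) 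
(.lf (nat_lit 8454) (.g (nat_lit 1543) (.e (nat_lit 321) (nat_lit 24) (.e (nat_lit 360491) (nat_lit 22) (.e (nat_lit 778466) (nat_lit 11) (.e (nat_lit 24641) (nat_lit 10) (.e (nat_lit 344180) (nat_lit 44) (.e (nat_lit 778362) (nat_lit 9) .nil)))))) (.g (nat_lit 4) .nil .nil))) 
(.lf (nat_lit 8486) (.g (nat_lit 1419) (.e (nat_lit 322) (nat_lit 24) (.e (nat_lit 360451) (nat_lit 0) (.e (nat_lit 7125) (nat_lit 382) (.e (nat_lit 7936) (nat_lit 90) .nil)))) .nil))) (.nd (nat_lit 5) 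
(.lf (nat_lit 8470) (.g (nat_lit 1345) (.e (nat_lit 321) (nat_lit 24) (.e (nat_lit 360492) (nat_lit 22) (.e (nat_lit 778466) (nat_lit 11) (.e (nat_lit 24641) (nat_lit 10) (.e (nat_lit 344180) (nat_lit 44) (.e (nat_lit 778359) (nat_lit 9) .nil)))))) (.g (nat_lit 4) .nil .nil))) 
(.lf (nat_lit 8502) (.g (nat_lit 1895) (.e (nat_lit 322) (nat_lit 24) (.e (nat_lit 360451) (nat_lit 0) (.e (nat_lit 7266) (nat_lit 384) (.e (nat_lit 57427) (nat_lit 15) (.e (nat_lit 360491) (nat_lit 22) .nil))))) .nil)))) (.nd (nat_lit 4) (.nd (nat_lit 5) 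
(.lf (nat_lit 8462) (.g (nat_lit 917) (.e (nat_lit 321) (nat_lit 24) (.e (nat_lit 360492) (nat_lit 22) (.e (nat_lit 778362) (nat_lit 9) (.e (nat_lit 324) (nat_lit 24) (.e (nat_lit 360491) (nat_lit 22) (.e (nat_lit 778359) (nat_lit 9) .nil)))))) (.g (nat_lit 4) .nil .nil))) 
(.lf (nat_lit 8494) (.g (nat_lit 1919) (.e (nat_lit 322) (nat_lit 24) (.e (nat_lit 360451) (nat_lit 0) (.e (nat_lit 7265) (nat_lit 384) (.e (nat_lit 57426) (nat_lit 15) (.e (nat_lit 360491) (nat_lit 22) (.e (nat_lit 778359) (nat_lit 9) .nil)))))) (.g (nat_lit 4) .nil .nil)))) (.nd (nat_lit 5) 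
(.lf (nat_lit 8478) (.g (nat_lit 2102) (.e (nat_lit 322) (nat_lit 24) (.e (nat_lit 360451) (nat_lit 0) (.e (nat_lit 7122) (nat_lit 382) (.e (nat_lit 7936) (nat_lit 90) (.e (nat_lit 81965) (nat_lit 26) (.e (nat_lit 147463) (nat_lit 9) .nil)))))) (.g (nat_lit 5) .nil .nil))) 
(.lf (nat_lit 8510) (.g (nat_lit 2681) (.e (nat_lit 322) (nat_lit 24) (.e (nat_lit 360467) (nat_lit 3) (.e (nat_lit 516185) (nat_lit 16) (.e (nat_lit 491560) (nat_lit 10) (.e (nat_lit 344129) (nat_lit 26) .nil))))) .nil))))))) (.nd (nat_lit 1) (.nd (nat_lit 2) (.nd (nat_lit 3) (.nd (nat_lit 4) (.nd (nat_lit 5) 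
(.lf (nat_lit 8449) (.g (nat_lit 1260) (.e (nat_lit 321) (nat_lit 24) (.e (nat_lit 360491) (nat_lit 22) (.e (nat_lit 778362) (nat_lit 9) (.e (nat_lit 321) (nat_lit 24) (.e (nat_lit 360491) (nat_lit 22) .nil))))) .nil)) 
(.lf (nat_lit 8481) (.g (nat_lit 2070) (.e (nat_lit 322) (nat_lit 24) (.e (nat_lit 360451) (nat_lit 0) (.e (nat_lit 7125) (nat_lit 382) (.e (nat_lit 1222) (nat_lit 90) (.e (nat_lit 81963) (nat_lit 26) .nil))))) .nil))) (.nd (nat_lit 5) 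
(.lf (nat_lit 8465) (.g (nat_lit 2746) (.e (nat_lit 321) (nat_lit 24) (.e (nat_lit 360492) (nat_lit 22) (.e (nat_lit 778465) (nat_lit 11) (.e (nat_lit 24640) (nat_lit 10) (.e (nat_lit 344179) (nat_lit 44) (.e (nat_lit 778361) (nat_lit 9) .nil)))))) (.g (nat_lit 6) .nil .nil))) 
(.lf (nat_lit 8497) (.g (nat_lit 2345) (.e (nat_lit 322) (nat_lit 24) (.e (nat_lit 360451) (nat_lit 0) (.e (nat_lit 7265) (nat_lit 384) (.e (nat_lit 57427) (nat_lit 15) (.e (nat_lit 360491) (nat_lit 22) (.e (nat_lit 778361) (nat_lit 9) .nil)))))) (.g (nat_lit 5) .nil .nil))))) (.nd (nat_lit 4) (.nd (nat_lit 5) 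
(.lf (nat_lit 8457) (.g (nat_lit 1064) (.e (nat_lit 321) (nat_lit 24) (.e (nat_lit 360492) (nat_lit 22) (.e (nat_lit 778361) (nat_lit 9) (.e (nat_lit 321) (nat_lit 24) (.e (nat_lit 360492) (nat_lit 22) (.e (nat_lit 778360) (nat_lit 9) .nil)))))) (.g (nat_lit 4) .nil .nil))) 
(.lf (nat_lit 8489) (.g (nat_lit 930) (.e (nat_lit 322) (nat_lit 24) (.e (nat_lit 360451) (nat_lit 0) (.e (nat_lit 7261) (nat_lit 384) (.e (nat_lit 57426) (nat_lit 15) .nil)))) .nil))) (.nd (nat_lit 5) 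
(.lf (nat_lit 8473) (.g (nat_lit 1985) (.e (nat_lit 321) (nat_lit 24) (.e (nat_lit 360493) (nat_lit 27) (.e (nat_lit 819219) (nat_lit 4) (.e (nat_lit 172094) (nat_lit 9) (.e (nat_lit 426125) (nat_lit 2) (.e (nat_lit 204544) (nat_lit 0) .nil)))))) (.g (nat_lit 5) .nil .nil))) 
(.lf (nat_lit 8505) (.g (nat_lit 516) (.e (nat_lit 322) (nat_lit 24) (.e (nat_lit 360467) (nat_lit 3) (.e (nat_lit 516146) (nat_lit 9) .nil))) .nil))))) (.nd (nat_lit 3) (.nd (nat_lit 4) (.nd (nat_lit 5) 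
(.lf (nat_lit 8453) (.g (nat_lit 1603) (.e (nat_lit 321) (nat_lit 24) (.e (nat_lit 360491) (nat_lit 22) (.e (nat_lit 778466) (nat_lit 11) (.e (nat_lit 24632) (nat_lit 9) (.e (nat_lit 336048) (nat_lit 6) (.e (nat_lit 147466) (nat_lit 9) .nil)))))) (.g (nat_lit 4) .nil .nil))) 
(.lf (nat_lit 8485) (.g (nat_lit 1967) (.e (nat_lit 322) (nat_lit 24) (.e (nat_lit 360451) (nat_lit 0) (.e (nat_lit 7125) (nat_lit 382) (.e (nat_lit 1224) (nat_lit 90) (.e (nat_lit 81963) (nat_lit 26) .nil))))) .nil))) (.nd (nat_lit 5) 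
(.lf (nat_lit 8469) (.g (nat_lit 2250) (.e (nat_lit 321) (nat_lit 24) (.e (nat_lit 360492) (nat_lit 22) (.e (nat_lit 778466) (nat_lit 11) (.e (nat_lit 24636) (nat_lit 9) (.e (nat_lit 336051) (nat_lit 6) (.e (nat_lit 147466) (nat_lit 9) .nil)))))) (.g (nat_lit 6) .nil .nil))) 
(.lf (nat_lit 8501) (.g (nat_lit 1798) (.e (nat_lit 322) (nat_lit 24) (.e (nat_lit 360451) (nat_lit 0) (.e (nat_lit 7266) (nat_lit 384) (.e (nat_lit 57426) (nat_lit 15) (.e (nat_lit 360491) (nat_lit 22) (.e (nat_lit 778360) (nat_lit 9) .nil)))))) (.g (nat_lit 4) .nil .nil))))) (.nd (nat_lit 4) (.nd (nat_lit 5) 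
(.lf (nat_lit 8461) (.g (nat_lit 1878) (.e (nat_lit 321) (nat_lit 24) (.e (nat_lit 360492) (nat_lit 22) (.e (nat_lit 778362) (nat_lit 9) (.e (nat_lit 321) (nat_lit 24) (.e (nat_lit 360492) (nat_lit 22) (.e (nat_lit 778362) (nat_lit 9) .nil)))))) (.g (nat_lit 0) .nil .nil))) 
(.lf (nat_lit 8493) (.g (nat_lit 2873) (.e (nat_lit 322) (nat_lit 24) (.e (nat_lit 360451) (nat_lit 0) (.e (nat_lit 7265) (nat_lit 384) (.e (nat_lit 57424) (nat_lit 14) (.e (nat_lit 352324) (nat_lit 26) (.e (nat_lit 147466) (nat_lit 9) .nil)))))) (.g (nat_lit 5) .nil .nil)))) (.nd (nat_lit 5) 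
(.lf (nat_lit 8477) (.g (nat_lit 1425) (.e (nat_lit 322) (nat_lit 24) (.e (nat_lit 360451) (nat_lit 0) (.e (nat_lit 7122) (nat_lit 382) (.e (nat_lit 7936) (nat_lit 90) .nil)))) .nil)) 
(.lf (nat_lit 8509) (.g (nat_lit 593) (.e (nat_lit 322) (nat_lit 24) (.e (nat_lit 360467) (nat_lit 3) (.e (nat_lit 516180) (nat_lit 15) .nil))) .nil)))))) (.nd (nat_lit 2) (.nd (nat_lit 3) (.nd (nat_lit 4) (.nd (nat_lit 5) 
(.lf (nat_lit 8451) (.g (nat_lit 1849) (.e (nat_lit 321) (nat_lit 24) (.e (nat_lit 360491) (nat_lit 22) (.e (nat_lit 778466) (nat_lit 11) (.e (nat_lit 24617) (nat_lit 7) (.e (nat_lit 327424) (nat_lit 3) .nil))))) .nil)) 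
(.lf (nat_lit 8483) (.g (nat_lit 1783) (.e (nat_lit 322) (nat_lit 24) (.e (nat_lit 360451) (nat_lit 0) (.e (nat_lit 7125) (nat_lit 382) (.e (nat_lit 1223) (nat_lit 90) (.e (nat_lit 81965) (nat_lit 26) .nil))))) .nil))) (.nd (nat_lit 5) 
(.lf (nat_lit 8467) (.g (nat_lit 1519) (.e (nat_lit 321) (nat_lit 24) (.e (nat_lit 360492) (nat_lit 22) (.e (nat_lit 778466) (nat_lit 11) (.e (nat_lit 24631) (nat_lit 9) (.e (nat_lit 336046) (nat_lit 6) .nil))))) .nil)) 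
(.lf (nat_lit 8499) (.g (nat_lit 2175) (.e (nat_lit 322) (nat_lit 24) (.e (nat_lit 360451) (nat_lit 0) (.e (nat_lit 7265) (nat_lit 384) (.e (nat_lit 57427) (nat_lit 15) (.e (nat_lit 360492) (nat_lit 22) .nil))))) .nil)))) (.nd (nat_lit 4) (.nd (nat_lit 5) 
(.lf (nat_lit 8459) (.g (nat_lit 999) (.e (nat_lit 321) (nat_lit 24) (.e (nat_lit 360492) (nat_lit 22) (.e (nat_lit 778362) (nat_lit 9) (.e (nat_lit 321) (nat_lit 24) (.e (nat_lit 360491) (nat_lit 22) .nil))))) .nil)) 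
(.lf (nat_lit 8491) (.g (nat_lit 2218) (.e (nat_lit 322) (nat_lit 24) (.e (nat_lit 360451) (nat_lit 0) (.e (nat_lit 7265) (nat_lit 384) (.e (nat_lit 57424) (nat_lit 14) (.e (nat_lit 352322) (nat_lit 26) .nil))))) .nil))) (.nd (nat_lit 5) 
(.lf (nat_lit 8475) (.g (nat_lit 2368) (.e (nat_lit 322) (nat_lit 24) (.e (nat_lit 360451) (nat_lit 0) (.e (nat_lit 7122) (nat_lit 382) (.e (nat_lit 1222) (nat_lit 90) (.e (nat_lit 81963) (nat_lit 26) (.e (nat_lit 147463) (nat_lit 9) .nil)))))) (.g (nat_lit 6) .nil .nil))) 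
(.lf (nat_lit 8507) (.g (nat_lit 795) (.e (nat_lit 322) (nat_lit 24) (.e (nat_lit 360467) (nat_lit 3) (.e (nat_lit 516147) (nat_lit 9) (.e (nat_lit 426446) (nat_lit 20) .nil)))) .nil))))) (.nd (nat_lit 3) (.nd (nat_lit 4) (.nd (nat_lit 5) 
(.lf (nat_lit 8455) (.g (nat_lit 809) (.e (nat_lit 321) (nat_lit 24) (.e (nat_lit 360492) (nat_lit 22) (.e (nat_lit 778359) (nat_lit 9) (.e (nat_lit 324) (nat_lit 24) (.e (nat_lit 360491) (nat_lit 22) (.e (nat_lit 778360) (nat_lit 9) .nil)))))) (.g (nat_lit 6) .nil .nil))) 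
(.lf (nat_lit 8487) (.g (nat_lit 474) (.e (nat_lit 322) (nat_lit 24) (.e (nat_lit 360451) (nat_lit 0) (.e (nat_lit 7261) (nat_lit 384) .nil))) .nil))) (.nd (nat_lit 5) 
(.lf (nat_lit 8471) (.g (nat_lit 1315) (.e (nat_lit 321) (nat_lit 24) (.e (nat_lit 360492) (nat_lit 22) (.e (nat_lit 778466) (nat_lit 11) (.e (nat_lit 24641) (nat_lit 10) (.e (nat_lit 344180) (nat_lit 44) (.e (nat_lit 778360) (nat_lit 9) .nil)))))) (.g (nat_lit 4) .nil .nil))) 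
(.lf (nat_lit 8503) (.g (nat_lit 1896) (.e (nat_lit 322) (nat_lit 24) (.e (nat_lit 360451) (nat_lit 0) (.e (nat_lit 7266) (nat_lit 384) (.e (nat_lit 57427) (nat_lit 15) (.e (nat_lit 360491) (nat_lit 22) (.e (nat_lit 778360) (nat_lit 9) .nil)))))) (.g (nat_lit 4) .nil .nil))))) (.nd (nat_lit 4) (.nd (nat_lit 5) 
(.lf (nat_lit 8463) (.g (nat_lit 1317) (.e (nat_lit 321) (nat_lit 24) (.e (nat_lit 360492) (nat_lit 22) (.e (nat_lit 778362) (nat_lit 9) (.e (nat_lit 324) (nat_lit 24) (.e (nat_lit 360491) (nat_lit 22) (.e (nat_lit 778360) (nat_lit 9) .nil)))))) (.g (nat_lit 6) .nil .nil))) 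
(.lf (nat_lit 8495) (.g (nat_lit 2354) (.e (nat_lit 322) (nat_lit 24) (.e (nat_lit 360451) (nat_lit 0) (.e (nat_lit 7265) (nat_lit 384) (.e (nat_lit 57426) (nat_lit 15) (.e (nat_lit 360491) (nat_lit 22) (.e (nat_lit 778360) (nat_lit 9) .nil)))))) (.g (nat_lit 0) .nil .nil)))) (.nd (nat_lit 5) 
(.lf (nat_lit 8479) (.g (nat_lit 447) (.e (nat_lit 322) (nat_lit 24) (.e (nat_lit 360451) (nat_lit 0) (.e (nat_lit 7124) (nat_lit 382) .nil))) .nil)) 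
(.lf (nat_lit 8511) (.g (nat_lit 1018) (.e (nat_lit 322) (nat_lit 24) (.e (nat_lit 360471) (nat_lit 7) (.e (nat_lit 548873) (nat_lit 5) (.e (nat_lit 1589) (nat_lit 111) .nil)))) .nil))))))))

noncomputable def tv118 : DT := (.nd (nat_lit 0) (.nd (nat_lit 1) (.nd (nat_lit 2) (.nd (nat_lit 3) (.nd (nat_lit 4) (.nd (nat_lit 5) 
(.lf (nat_lit 8512) (.g (nat_lit 1404) (.e (nat_lit 322) (nat_lit 24) (.e (nat_lit 360471) (nat_lit 7) (.e (nat_lit 548874) (nat_lit 5) (.e (nat_lit 1589) (nat_lit 111) .nil)))) .nil)) 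
(.lf (nat_lit 8544) (.g (nat_lit 3457) (.e (nat_lit 322) (nat_lit 24) (.e (nat_lit 360475) (nat_lit 8) (.e (nat_lit 557090) (nat_lit 12) (.e (nat_lit 163844) (nat_lit 0) (.e (nat_lit 6047) (nat_lit 326) (.e (nat_lit 1211) (nat_lit 89) (.e (nat_lit 73755) (nat_lit 8) (.e (nat_lit 557066) (nat_lit 9) .nil)))))))) (.g (nat_lit 4) .nil .nil)))) (.nd (nat_lit 5) 
(.lf (nat_lit 8528) (.g (nat_lit 3647) (.e (nat_lit 322) (nat_lit 24) (.e (nat_lit 360475) (nat_lit 8) (.e (nat_lit 557086) (nat_lit 11) (.e (nat_lit 24640) (nat_lit 10) (.e (nat_lit 344129) (nat_lit 26) (.e (nat_lit 557066) (nat_lit 9) .nil)))))) (.g (nat_lit 5) .nil .nil))) 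
(.lf (nat_lit 8560) (.g (nat_lit 2258) (.e (nat_lit 323) (nat_lit 24) (.e (nat_lit 360449) (nat_lit 0) (.e (nat_lit 7265) (nat_lit 384) (.e (nat_lit 57426) (nat_lit 15) (.e (nat_lit 360490) (nat_lit 22) (.e (nat_lit 778334) (nat_lit 9) .nil)))))) (.g (nat_lit 0) .nil .nil))))) (.nd (nat_lit 4) (.nd (nat_lit 5) 
(.lf (nat_lit 8520) (.g (nat_lit 575) (.e (nat_lit 322) (nat_lit 24) (.e (nat_lit 360475) (nat_lit 8) (.e (nat_lit 557065) (nat_lit 9) .nil))) .nil)) 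
(.lf (nat_lit 8552) (.g (nat_lit 1247) (.e (nat_lit 323) (nat_lit 24) (.e (nat_lit 360449) (nat_lit 0) (.e (nat_lit 7261) (nat_lit 384) (.e (nat_lit 57426) (nat_lit 15) (.e (nat_lit 360490) (nat_lit 22) (.e (nat_lit 778340) (nat_lit 9) .nil)))))) (.g (nat_lit 0) .nil .nil)))) (.nd (nat_lit 5) 
(.lf (nat_lit 8536) (.g (nat_lit 3262) (.e (nat_lit 322) (nat_lit 24) (.e (nat_lit 360475) (nat_lit 8) (.e (nat_lit 557087) (nat_lit 11) (.e (nat_lit 24640) (nat_lit 10) (.e (nat_lit 344133) (nat_lit 26) (.e (nat_lit 557065) (nat_lit 9) .nil)))))) (.g (nat_lit 4) .nil .nil))) 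
(.lf (nat_lit 8568) (.g (nat_lit 822) (.e (nat_lit 323) (nat_lit 24) (.e (nat_lit 360449) (nat_lit 0) (.e (nat_lit 7266) (nat_lit 384) (.e (nat_lit 57427) (nat_lit 15) .nil)))) .nil))))) (.nd (nat_lit 3) (.nd (nat_lit 4) (.nd (nat_lit 5) 
(.lf (nat_lit 8516) (.g (nat_lit 1594) (.e (nat_lit 322) (nat_lit 24) (.e (nat_lit 360474) (nat_lit 8) (.e (nat_lit 557072) (nat_lit 9) (.e (nat_lit 7936) (nat_lit 24) .nil)))) .nil)) 
(.lf (nat_lit 8548) (.g (nat_lit 3453) (.e (nat_lit 322) (nat_lit 24) (.e (nat_lit 360475) (nat_lit 8) (.e (nat_lit 557119) (nat_lit 18) (.e (nat_lit 2798) (nat_lit 180) (.e (nat_lit 303143) (nat_lit 12) (.e (nat_lit 483072) (nat_lit 0) .nil)))))) (.g (nat_lit 5) .nil .nil)))) (.nd (nat_lit 5) 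
(.lf (nat_lit 8532) (.g (nat_lit 2154) (.e (nat_lit 322) (nat_lit 24) (.e (nat_lit 360475) (nat_lit 8) (.e (nat_lit 557087) (nat_lit 11) (.e (nat_lit 24639) (nat_lit 10) .nil)))) .nil)) 
(.lf (nat_lit 8564) (.g (nat_lit 2536) (.e (nat_lit 323) (nat_lit 24) (.e (nat_lit 360449) (nat_lit 0) (.e (nat_lit 7265) (nat_lit 384) (.e (nat_lit 57427) (nat_lit 15) (.e (nat_lit 360490) (nat_lit 22) (.e (nat_lit 778339) (nat_lit 9) .nil)))))) (.g (nat_lit 0) .nil .nil))))) (.nd (nat_lit 4) (.nd (nat_lit 5) 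
(.lf (nat_lit 8524) (.g (nat_lit 1797) (.e (nat_lit 322) (nat_lit 24) (.e (nat_lit 360475) (nat_lit 8) (.e (nat_lit 557067) (nat_lit 9) (.e (nat_lit 7936) (nat_lit 24) .nil)))) .nil)) 
(.lf (nat_lit 8556) (.g (nat_lit 1337) (.e (nat_lit 323) (nat_lit 24) (.e (nat_lit 360449) (nat_lit 0) (.e (nat_lit 7263) (nat_lit 384) (.e (nat_lit 57427) (nat_lit 15) (.e (nat_lit 360490) (nat_lit 22) (.e (nat_lit 778337) (nat_lit 9) .nil)))))) (.g (nat_lit 5) .nil .nil)))) (.nd (nat_lit 5) 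
(.lf (nat_lit 8540) (.g (nat_lit 3811) (.e (nat_lit 322) (nat_lit 24) (.e (nat_lit 360475) (nat_lit 8) (.e (nat_lit 557087) (nat_lit 11) (.e (nat_lit 24641) (nat_lit 10) (.e (nat_lit 344130) (nat_lit 26) (.e (nat_lit 557066) (nat_lit 9) .nil)))))) (.g (nat_lit 4) .nil .nil))) 
(.lf (nat_lit 8572) (.g (nat_lit 1976) (.e (nat_lit 323) (nat_lit 24) (.e (nat_lit 360451) (nat_lit 0) (.e (nat_lit 7265) (nat_lit 384) (.e (nat_lit 57426) (nat_lit 15) (.e (nat_lit 360490) (nat_lit 22) .nil))))) .nil)))))) (.nd (nat_lit 2) (.nd (nat_lit 3) (.nd (nat_lit 4) (.nd (nat_lit 5) 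
(.lf (nat_lit 8514) (.g (nat_lit 2156) (.e (nat_lit 322) (nat_lit 24) (.e (nat_lit 360471) (nat_lit 7) (.e (nat_lit 548889) (nat_lit 9) (.e (nat_lit 65617) (nat_lit 10) .nil)))) .nil)) 
(.lf (nat_lit 8546) (.g (nat_lit 2369) (.e (nat_lit 322) (nat_lit 24) (.e (nat_lit 360475) (nat_lit 8) (.e (nat_lit 557091) (nat_lit 12) (.e (nat_lit 163843) (nat_lit 0) .nil)))) .nil))) (.nd (nat_lit 5) 
(.lf (nat_lit 8530) (.g (nat_lit 2807) (.e (nat_lit 322) (nat_lit 24) (.e (nat_lit 360475) (nat_lit 8) (.e (nat_lit 557086) (nat_lit 11) (.e (nat_lit 24641) (nat_lit 10) (.e (nat_lit 344133) (nat_lit 26) (.e (nat_lit 557066) (nat_lit 9) .nil)))))) (.g (nat_lit 4) .nil .nil))) 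
(.lf (nat_lit 8562) (.g (nat_lit 2544) (.e (nat_lit 323) (nat_lit 24) (.e (nat_lit 360449) (nat_lit 0) (.e (nat_lit 7265) (nat_lit 384) (.e (nat_lit 57427) (nat_lit 15) (.e (nat_lit 360490) (nat_lit 22) (.e (nat_lit 778334) (nat_lit 9) .nil)))))) (.g (nat_lit 6) .nil .nil))))) (.nd (nat_lit 4) (.nd (nat_lit 5) 
(.lf (nat_lit 8522) (.g (nat_lit 3037) (.e (nat_lit 322) (nat_lit 24) (.e (nat_lit 360475) (nat_lit 8) (.e (nat_lit 557065) (nat_lit 9) (.e (nat_lit 324) (nat_lit 24) (.e (nat_lit 360473) (nat_lit 8) (.e (nat_lit 557065) (nat_lit 9) .nil)))))) (.g (nat_lit 5) .nil .nil))) 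
(.lf (nat_lit 8554) (.g (nat_lit 1176) (.e (nat_lit 323) (nat_lit 24) (.e (nat_lit 360449) (nat_lit 0) (.e (nat_lit 7263) (nat_lit 384) (.e (nat_lit 57426) (nat_lit 15) (.e (nat_lit 360490) (nat_lit 22) (.e (nat_lit 778340) (nat_lit 9) .nil)))))) (.g (nat_lit 0) .nil .nil)))) (.nd (nat_lit 5) 
(.lf (nat_lit 8538) (.g (nat_lit 3922) (.e (nat_lit 322) (nat_lit 24) (.e (nat_lit 360475) (nat_lit 8) (.e (nat_lit 557087) (nat_lit 11) (.e (nat_lit 24641) (nat_lit 10) (.e (nat_lit 344129) (nat_lit 26) .nil))))) .nil)) 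
(.lf (nat_lit 8570) (.g (nat_lit 2121) (.e (nat_lit 323) (nat_lit 24) (.e (nat_lit 360449) (nat_lit 0) (.e (nat_lit 7266) (nat_lit 384) (.e (nat_lit 57427) (nat_lit 15) (.e (nat_lit 360490) (nat_lit 22) (.e (nat_lit 778337) (nat_lit 9) .nil)))))) (.g (nat_lit 6) .nil .nil)))))) (.nd (nat_lit 3) (.nd (nat_lit 4) (.nd (nat_lit 5) 
(.lf (nat_lit 8518) (.g (nat_lit 1184) (.e (nat_lit 322) (nat_lit 24) (.e (nat_lit 360474) (nat_lit 8) (.e (nat_lit 557077) (nat_lit 9) .nil))) .nil)) 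
(.lf (nat_lit 8550) (.g (nat_lit 1749) (.e (nat_lit 323) (nat_lit 24) (.e (nat_lit 360449) (nat_lit 0) (.e (nat_lit 7261) (nat_lit 384) (.e (nat_lit 57411) (nat_lit 12) (.e (nat_lit 336182) (nat_lit 11) .nil))))) .nil))) (.nd (nat_lit 5) 
(.lf (nat_lit 8534) (.g (nat_lit 3780) (.e (nat_lit 322) (nat_lit 24) (.e (nat_lit 360475) (nat_lit 8) (.e (nat_lit 557087) (nat_lit 11) (.e (nat_lit 24640) (nat_lit 10) (.e (nat_lit 344129) (nat_lit 26) (.e (nat_lit 557066) (nat_lit 9) .nil)))))) (.g (nat_lit 5) .nil .nil))) 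
(.lf (nat_lit 8566) (.g (nat_lit 1327) (.e (nat_lit 323) (nat_lit 24) (.e (nat_lit 360449) (nat_lit 0) (.e (nat_lit 7265) (nat_lit 384) (.e (nat_lit 57427) (nat_lit 15) (.e (nat_lit 368384) (nat_lit 22) .nil))))) .nil)))) (.nd (nat_lit 4) (.nd (nat_lit 5) 
(.lf (nat_lit 8526) (.g (nat_lit 1195) (.e (nat_lit 322) (nat_lit 24) (.e (nat_lit 360475) (nat_lit 8) (.e (nat_lit 557074) (nat_lit 9) (.e (nat_lit 7936) (nat_lit 24) .nil)))) .nil)) 
(.lf (nat_lit 8558) (.g (nat_lit 1165) (.e (nat_lit 323) (nat_lit 24) (.e (nat_lit 360449) (nat_lit 0) (.e (nat_lit 7265) (nat_lit 384) (.e (nat_lit 57409) (nat_lit 12) .nil)))) .nil))) (.nd (nat_lit 5) 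
(.lf (nat_lit 8542) (.g (nat_lit 3301) (.e (nat_lit 322) (nat_lit 24) (.e (nat_lit 360475) (nat_lit 8) (.e (nat_lit 557090) (nat_lit 12) (.e (nat_lit 163843) (nat_lit 0) (.e (nat_lit 6830) (nat_lit 367) .nil))))) .nil)) 
(.lf (nat_lit 8574) (.g (nat_lit 1585) (.e (nat_lit 323) (nat_lit 24) (.e (nat_lit 360451) (nat_lit 0) (.e (nat_lit 7266) (nat_lit 384) (.e (nat_lit 57409) (nat_lit 12) .nil)))) .nil))))))) (.nd (nat_lit 1) (.nd (nat_lit 2) (.nd (nat_lit 3) (.nd (nat_lit 4) (.nd (nat_lit 5) 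
(.lf (nat_lit 8513) (.g (nat_lit 1399) (.e (nat_lit 322) (nat_lit 24) (.e (nat_lit 360471) (nat_lit 7) (.e (nat_lit 548874) (nat_lit 5) (.e (nat_lit 1595) (nat_lit 111) .nil)))) .nil)) 
(.lf (nat_lit 8545) (.g (nat_lit 3030) (.e (nat_lit 322) (nat_lit 24) (.e (nat_lit 360475) (nat_lit 8) (.e (nat_lit 557090) (nat_lit 12) (.e (nat_lit 163844) (nat_lit 0) (.e (nat_lit 6830) (nat_lit 367) .nil))))) .nil))) (.nd (nat_lit 5) 
(.lf (nat_lit 8529) (.g (nat_lit 3160) (.e (nat_lit 322) (nat_lit 24) (.e (nat_lit 360475) (nat_lit 8) (.e (nat_lit 557086) (nat_lit 11) (.e (nat_lit 24641) (nat_lit 10) (.e (nat_lit 344130) (nat_lit 26) (.e (nat_lit 557066) (nat_lit 9) .nil)))))) (.g (nat_lit 5) .nil .nil))) 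
(.lf (nat_lit 8561) (.g (nat_lit 2004) (.e (nat_lit 323) (nat_lit 24) (.e (nat_lit 360449) (nat_lit 0) (.e (nat_lit 7265) (nat_lit 384) (.e (nat_lit 57426) (nat_lit 15) (.e (nat_lit 360490) (nat_lit 22) (.e (nat_lit 778340) (nat_lit 9) .nil)))))) (.g (nat_lit 0) .nil .nil))))) (.nd (nat_lit 4) (.nd (nat_lit 5) 
(.lf (nat_lit 8521) (.g (nat_lit 3866) (.e (nat_lit 322) (nat_lit 24) (.e (nat_lit 360475) (nat_lit 8) (.e (nat_lit 557065) (nat_lit 9) (.e (nat_lit 322) (nat_lit 24) (.e (nat_lit 360475) (nat_lit 8) (.e (nat_lit 557065) (nat_lit 9) .nil)))))) (.g (nat_lit 6) .nil .nil))) 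
(.lf (nat_lit 8553) (.g (nat_lit 1408) (.e (nat_lit 323) (nat_lit 24) (.e (nat_lit 360449) (nat_lit 0) (.e (nat_lit 7261) (nat_lit 384) (.e (nat_lit 57427) (nat_lit 15) (.e (nat_lit 360490) (nat_lit 22) (.e (nat_lit 778340) (nat_lit 9) .nil)))))) (.g (nat_lit 5) .nil .nil)))) (.nd (nat_lit 5) 
(.lf (nat_lit 8537) (.g (nat_lit 3660) (.e (nat_lit 322) (nat_lit 24) (.e (nat_lit 360475) (nat_lit 8) (.e (nat_lit 557087) (nat_lit 11) (.e (nat_lit 24640) (nat_lit 10) (.e (nat_lit 344133) (nat_lit 26) (.e (nat_lit 557066) (nat_lit 9) .nil)))))) (.g (nat_lit 4) .nil .nil))) 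
(.lf (nat_lit 8569) (.g (nat_lit 2217) (.e (nat_lit 323) (nat_lit 24) (.e (nat_lit 360449) (nat_lit 0) (.e (nat_lit 7266) (nat_lit 384) (.e (nat_lit 57427) (nat_lit 15) (.e (nat_lit 360490) (nat_lit 22) (.e (nat_lit 778334) (nat_lit 9) .nil)))))) (.g (nat_lit 6) .nil .nil)))))) (.nd (nat_lit 3) (.nd (nat_lit 4) (.nd (nat_lit 5) 
(.lf (nat_lit 8517) (.g (nat_lit 1509) (.e (nat_lit 322) (nat_lit 24) (.e (nat_lit 360474) (nat_lit 8) (.e (nat_lit 557073) (nat_lit 9) (.e (nat_lit 7936) (nat_lit 24) .nil)))) .nil)) 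
(.lf (nat_lit 8549) (.g (nat_lit 1938) (.e (nat_lit 322) (nat_lit 24) (.e (nat_lit 360489) (nat_lit 21) (.e (nat_lit 770074) (nat_lit 10) (.e (nat_lit 81965) (nat_lit 26) (.e (nat_lit 147463) (nat_lit 9) .nil))))) (.g (nat_lit 4) .nil .nil)))) (.nd (nat_lit 5) 
(.lf (nat_lit 8533) (.g (nat_lit 3853) (.e (nat_lit 322) (nat_lit 24) (.e (nat_lit 360475) (nat_lit 8) (.e (nat_lit 557087) (nat_lit 11) (.e (nat_lit 24639) (nat_lit 10) (.e (nat_lit 344129) (nat_lit 26) (.e (nat_lit 557066) (nat_lit 9) .nil)))))) (.g (nat_lit 5) .nil .nil))) 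
(.lf (nat_lit 8565) (.g (nat_lit 2291) (.e (nat_lit 323) (nat_lit 24) (.e (nat_lit 360449) (nat_lit 0) (.e (nat_lit 7265) (nat_lit 384) (.e (nat_lit 57427) (nat_lit 15) (.e (nat_lit 360490) (nat_lit 22) (.e (nat_lit 778340) (nat_lit 9) .nil)))))) (.g (nat_lit 6) .nil .nil))))) (.nd (nat_lit 4) (.nd (nat_lit 5) 
(.lf (nat_lit 8525) (.g (nat_lit 556) (.e (nat_lit 322) (nat_lit 24) (.e (nat_lit 360475) (nat_lit 8) (.e (nat_lit 557068) (nat_lit 9) .nil))) .nil)) 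
(.lf (nat_lit 8557) (.g (nat_lit 2201) (.e (nat_lit 323) (nat_lit 24) (.e (nat_lit 360449) (nat_lit 0) (.e (nat_lit 7265) (nat_lit 384) (.e (nat_lit 57406) (nat_lit 12) (.e (nat_lit 336182) (nat_lit 11) .nil))))) .nil))) (.nd (nat_lit 5) 
(.lf (nat_lit 8541) (.g (nat_lit 3246) (.e (nat_lit 322) (nat_lit 24) (.e (nat_lit 360475) (nat_lit 8) (.e (nat_lit 557087) (nat_lit 11) (.e (nat_lit 24641) (nat_lit 10) (.e (nat_lit 344133) (nat_lit 26) .nil))))) .nil)) 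
(.lf (nat_lit 8573) (.g (nat_lit 2238) (.e (nat_lit 323) (nat_lit 24) (.e (nat_lit 360451) (nat_lit 0) (.e (nat_lit 7265) (nat_lit 384) (.e (nat_lit 57427) (nat_lit 15) (.e (nat_lit 360490) (nat_lit 22) .nil))))) .nil)))))) (.nd (nat_lit 2) (.nd (nat_lit 3) (.nd (nat_lit 4) (.nd (nat_lit 5) 
(.lf (nat_lit 8515) (.g (nat_lit 606) (.e (nat_lit 322) (nat_lit 24) (.e (nat_lit 360473) (nat_lit 8) (.e (nat_lit 557087) (nat_lit 11) .nil))) .nil)) 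
(.lf (nat_lit 8547) (.g (nat_lit 3561) (.e (nat_lit 322) (nat_lit 24) (.e (nat_lit 360475) (nat_lit 8) (.e (nat_lit 557119) (nat_lit 18) (.e (nat_lit 2798) (nat_lit 180) (.e (nat_lit 303133) (nat_lit 9) (.e (nat_lit 426412) (nat_lit 15) (.e (nat_lit 7936) (nat_lit 357) .nil))))))) (.g (nat_lit 6) .nil .nil)))) (.nd (nat_lit 5) 
(.lf (nat_lit 8531) (.g (nat_lit 1675) (.e (nat_lit 322) (nat_lit 24) (.e (nat_lit 360475) (nat_lit 8) (.e (nat_lit 557087) (nat_lit 11) (.e (nat_lit 24625) (nat_lit 9) .nil)))) .nil)) 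
(.lf (nat_lit 8563) (.g (nat_lit 2442) (.e (nat_lit 323) (nat_lit 24) (.e (nat_lit 360449) (nat_lit 0) (.e (nat_lit 7265) (nat_lit 384) (.e (nat_lit 57427) (nat_lit 15) (.e (nat_lit 360490) (nat_lit 22) (.e (nat_lit 778337) (nat_lit 9) .nil)))))) (.g (nat_lit 6) .nil .nil))))) (.nd (nat_lit 4) (.nd (nat_lit 5) 
(.lf (nat_lit 8523) (.g (nat_lit 3637) (.e (nat_lit 322) (nat_lit 24) (.e (nat_lit 360475) (nat_lit 8) (.e (nat_lit 557065) (nat_lit 9) (.e (nat_lit 324) (nat_lit 24) (.e (nat_lit 360473) (nat_lit 8) (.e (nat_lit 557066) (nat_lit 9) .nil)))))) (.g (nat_lit 6) .nil .nil))) 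
(.lf (nat_lit 8555) (.g (nat_lit 1218) (.e (nat_lit 323) (nat_lit 24) (.e (nat_lit 360449) (nat_lit 0) (.e (nat_lit 7263) (nat_lit 384) (.e (nat_lit 57427) (nat_lit 15) (.e (nat_lit 360490) (nat_lit 22) .nil))))) .nil))) (.nd (nat_lit 5) 
(.lf (nat_lit 8539) (.g (nat_lit 3602) (.e (nat_lit 322) (nat_lit 24) (.e (nat_lit 360475) (nat_lit 8) (.e (nat_lit 557087) (nat_lit 11) (.e (nat_lit 24641) (nat_lit 10) (.e (nat_lit 344130) (nat_lit 26) .nil))))) .nil)) 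
(.lf (nat_lit 8571) (.g (nat_lit 1967) (.e (nat_lit 323) (nat_lit 24) (.e (nat_lit 360449) (nat_lit 0) (.e (nat_lit 7266) (nat_lit 384) (.e (nat_lit 57427) (nat_lit 15) (.e (nat_lit 360490) (nat_lit 22) (.e (nat_lit 778340) (nat_lit 9) .nil)))))) (.g (nat_lit 6) .nil .nil)))))) (.nd (nat_lit 3) (.nd (nat_lit 4) (.nd (nat_lit 5) 
(.lf (nat_lit 8519) (.g (nat_lit 1162) (.e (nat_lit 322) (nat_lit 24) (.e (nat_lit 360474) (nat_lit 8) (.e (nat_lit 557081) (nat_lit 9) .nil))) .nil)) 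
(.lf (nat_lit 8551) (.g (nat_lit 1499) (.e (nat_lit 323) (nat_lit 24) (.e (nat_lit 360449) (nat_lit 0) (.e (nat_lit 7261) (nat_lit 384) (.e (nat_lit 57426) (nat_lit 15) (.e (nat_lit 360490) (nat_lit 22) (.e (nat_lit 778334) (nat_lit 9) .nil)))))) (.g (nat_lit 0) .nil .nil)))) (.nd (nat_lit 5) 
(.lf (nat_lit 8535) (.g (nat_lit 3666) (.e (nat_lit 322) (nat_lit 24) (.e (nat_lit 360475) (nat_lit 8) (.e (nat_lit 557087) (nat_lit 11) (.e (nat_lit 24640) (nat_lit 10) (.e (nat_lit 344130) (nat_lit 26) .nil))))) .nil)) 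
(.lf (nat_lit 8567) (.g (nat_lit 1715) (.e (nat_lit 323) (nat_lit 24) (.e (nat_lit 360449) (nat_lit 0) (.e (nat_lit 7266) (nat_lit 384) (.e (nat_lit 57426) (nat_lit 15) (.e (nat_lit 360490) (nat_lit 22) (.e (nat_lit 778340) (nat_lit 9) .nil)))))) (.g (nat_lit 0) .nil .nil))))) (.nd (nat_lit 4) (.nd (nat_lit 5) 
(.lf (nat_lit 8527) (.g (nat_lit 4016) (.e (nat_lit 322) (nat_lit 24) (.e (nat_lit 360475) (nat_lit 8) (.e (nat_lit 557086) (nat_lit 11) (.e (nat_lit 24639) (nat_lit 10) (.e (nat_lit 344129) (nat_lit 26) (.e (nat_lit 557066) (nat_lit 9) .nil)))))) (.g (nat_lit 6) .nil .nil))) 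
(.lf (nat_lit 8559) (.g (nat_lit 1000) (.e (nat_lit 323) (nat_lit 24) (.e (nat_lit 360449) (nat_lit 0) (.e (nat_lit 7265) (nat_lit 384) (.e (nat_lit 57426) (nat_lit 15) .nil)))) .nil))) (.nd (nat_lit 5) 
(.lf (nat_lit 8543) (.g (nat_lit 2257) (.e (nat_lit 322) (nat_lit 24) (.e (nat_lit 360475) (nat_lit 8) (.e (nat_lit 557090) (nat_lit 12) (.e (nat_lit 163844) (nat_lit 0) .nil)))) .nil)) 
(.lf (nat_lit 8575) (.g (nat_lit 376) (.e (nat_lit 323) (nat_lit 24) (.e (nat_lit 360452) (nat_lit 0) (.e (nat_lit 5907) (nat_lit 320) .nil))) .nil))))))))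

noncomputable def tv119 : DT := (.nd (nat_lit 0) (.nd (nat_lit 1) (.nd (nat_lit 2) (.nd (nat_lit 3) (.nd (nat_lit 4) (.nd (nat_lit 5) 
(.lf (nat_lit 8576) (.g (nat_lit 2383) (.e (nat_lit 323) (nat_lit 24) (.e (nat_lit 360452) (nat_lit 0) (.e (nat_lit 5907) (nat_lit 320) (.e (nat_lit 1209) (nat_lit 89) (.e (nat_lit 73795) (nat_lit 47) (.e (nat_lit 123165) (nat_lit 256) .nil)))))) (.g (nat_lit 0) .nil .nil))) 
(.lf (nat_lit 8608) (.g (nat_lit 1001) (.e (nat_lit 323) (nat_lit 24) (.e (nat_lit 360466) (nat_lit 3) (.e (nat_lit 524032) (nat_lit 33) (.e (nat_lit 401454) (nat_lit 12) (.e (nat_lit 483072) (nat_lit 0) .nil))))) (.g (nat_lit 4) .nil .nil)))) (.nd (nat_lit 5) 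
(.lf (nat_lit 8592) (.g (nat_lit 2677) (.e (nat_lit 323) (nat_lit 24) (.e (nat_lit 360452) (nat_lit 0) (.e (nat_lit 7272) (nat_lit 385) (.e (nat_lit 122917) (nat_lit 15) (.e (nat_lit 360490) (nat_lit 22) (.e (nat_lit 778340) (nat_lit 9) .nil)))))) (.g (nat_lit 0) .nil .nil))) 
(.lf (nat_lit 8624) (.g (nat_lit 3499) (.e (nat_lit 323) (nat_lit 24) (.e (nat_lit 360475) (nat_lit 8) (.e (nat_lit 557119) (nat_lit 18) (.e (nat_lit 2798) (nat_lit 180) (.e (nat_lit 303133) (nat_lit 9) (.e (nat_lit 426412) (nat_lit 15) (.e (nat_lit 7936) (nat_lit 357) .nil))))))) (.g (nat_lit 6) .nil .nil))))) (.nd (nat_lit 4) (.nd (nat_lit 5) 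
(.lf (nat_lit 8584) (.g (nat_lit 2042) (.e (nat_lit 323) (nat_lit 24) (.e (nat_lit 360452) (nat_lit 0) (.e (nat_lit 7271) (nat_lit 385) (.e (nat_lit 122917) (nat_lit 15) (.e (nat_lit 360490) (nat_lit 22) (.e (nat_lit 778340) (nat_lit 9) .nil)))))) (.g (nat_lit 0) .nil .nil))) 
(.lf (nat_lit 8616) (.g (nat_lit 1613) (.e (nat_lit 323) (nat_lit 24) (.e (nat_lit 360474) (nat_lit 8) (.e (nat_lit 557059) (nat_lit 0) (.e (nat_lit 1633) (nat_lit 114) .nil)))) .nil))) (.nd (nat_lit 5) 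
(.lf (nat_lit 8600) (.g (nat_lit 1411) (.e (nat_lit 323) (nat_lit 24) (.e (nat_lit 360452) (nat_lit 0) (.e (nat_lit 7273) (nat_lit 385) (.e (nat_lit 122919) (nat_lit 15) (.e (nat_lit 368384) (nat_lit 22) (.e (nat_lit 778334) (nat_lit 9) .nil)))))) (.g (nat_lit 4) .nil .nil))) 
(.lf (nat_lit 8632) (.g (nat_lit 1388) (.e (nat_lit 323) (nat_lit 24) (.e (nat_lit 360488) (nat_lit 20) (.e (nat_lit 761866) (nat_lit 5) (.e (nat_lit 1597) (nat_lit 111) (.e (nat_lit 360490) (nat_lit 22) (.e (nat_lit 778334) (nat_lit 9) .nil)))))) (.g (nat_lit 0) .nil .nil)))))) (.nd (nat_lit 3) (.nd (nat_lit 4) (.nd (nat_lit 5) 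
(.lf (nat_lit 8580) (.g (nat_lit 3111) (.e (nat_lit 323) (nat_lit 24) (.e (nat_lit 360452) (nat_lit 0) (.e (nat_lit 7270) (nat_lit 385) (.e (nat_lit 122917) (nat_lit 15) (.e (nat_lit 360490) (nat_lit 22) (.e (nat_lit 778334) (nat_lit 9) .nil)))))) (.g (nat_lit 0) .nil .nil))) 
(.lf (nat_lit 8612) (.g (nat_lit 1779) (.e (nat_lit 323) (nat_lit 24) (.e (nat_lit 360473) (nat_lit 8) (.e (nat_lit 557059) (nat_lit 0) (.e (nat_lit 1633) (nat_lit 114) (.e (nat_lit 385094) (nat_lit 49) (.e (nat_lit 778585) (nat_lit 17) (.e (nat_lit 164353) (nat_lit 246) .nil))))))) (.g (nat_lit 4) .nil .nil)))) (.nd (nat_lit 5) 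
(.lf (nat_lit 8596) (.g (nat_lit 1287) (.e (nat_lit 323) (nat_lit 24) (.e (nat_lit 360452) (nat_lit 0) (.e (nat_lit 7273) (nat_lit 385) (.e (nat_lit 122917) (nat_lit 15) (.e (nat_lit 368384) (nat_lit 22) .nil))))) .nil)) 
(.lf (nat_lit 8628) (.g (nat_lit 1405) (.e (nat_lit 323) (nat_lit 24) (.e (nat_lit 360486) (nat_lit 18) (.e (nat_lit 671762) (nat_lit 4) (.e (nat_lit 65582) (nat_lit 7) .nil)))) .nil)))) (.nd (nat_lit 4) (.nd (nat_lit 5) 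
(.lf (nat_lit 8588) (.g (nat_lit 2037) (.e (nat_lit 323) (nat_lit 24) (.e (nat_lit 360452) (nat_lit 0) (.e (nat_lit 7271) (nat_lit 385) (.e (nat_lit 122919) (nat_lit 15) (.e (nat_lit 368384) (nat_lit 22) (.e (nat_lit 778334) (nat_lit 9) .nil)))))) (.g (nat_lit 4) .nil .nil))) 
(.lf (nat_lit 8620) (.g (nat_lit 2028) (.e (nat_lit 323) (nat_lit 24) (.e (nat_lit 360474) (nat_lit 8) (.e (nat_lit 557060) (nat_lit 0) (.e (nat_lit 1633) (nat_lit 114) .nil)))) .nil))) (.nd (nat_lit 5) 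
(.lf (nat_lit 8604) (.g (nat_lit 478) (.e (nat_lit 323) (nat_lit 24) (.e (nat_lit 360466) (nat_lit 3) (.e (nat_lit 516100) (nat_lit 0) .nil))) .nil)) 
(.lf (nat_lit 8636) (.g (nat_lit 965) (.e (nat_lit 323) (nat_lit 24) (.e (nat_lit 360488) (nat_lit 20) (.e (nat_lit 761867) (nat_lit 5) (.e (nat_lit 1597) (nat_lit 111) (.e (nat_lit 368384) (nat_lit 22) (.e (nat_lit 778337) (nat_lit 9) .nil)))))) (.g (nat_lit 4) .nil .nil))))))) (.nd (nat_lit 2) (.nd (nat_lit 3) (.nd (nat_lit 4) (.nd (nat_lit 5) 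
(.lf (nat_lit 8578) (.g (nat_lit 1957) (.e (nat_lit 323) (nat_lit 24) (.e (nat_lit 360452) (nat_lit 0) (.e (nat_lit 5907) (nat_lit 320) (.e (nat_lit 1211) (nat_lit 89) (.e (nat_lit 73795) (nat_lit 47) .nil))))) .nil)) 
(.lf (nat_lit 8610) (.g (nat_lit 2205) (.e (nat_lit 323) (nat_lit 24) (.e (nat_lit 360471) (nat_lit 7) (.e (nat_lit 548889) (nat_lit 9) (.e (nat_lit 65617) (nat_lit 10) .nil)))) .nil))) (.nd (nat_lit 5) 
(.lf (nat_lit 8594) (.g (nat_lit 2368) (.e (nat_lit 323) (nat_lit 24) (.e (nat_lit 360452) (nat_lit 0) (.e (nat_lit 7272) (nat_lit 385) (.e (nat_lit 122919) (nat_lit 15) (.e (nat_lit 360490) (nat_lit 22) (.e (nat_lit 778340) (nat_lit 9) .nil)))))) (.g (nat_lit 6) .nil .nil))) 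
(.lf (nat_lit 8626) (.g (nat_lit 362) (.e (nat_lit 323) (nat_lit 24) (.e (nat_lit 360486) (nat_lit 18) (.e (nat_lit 671762) (nat_lit 4) .nil))) .nil)))) (.nd (nat_lit 4) (.nd (nat_lit 5) 
(.lf (nat_lit 8586) (.g (nat_lit 2211) (.e (nat_lit 323) (nat_lit 24) (.e (nat_lit 360452) (nat_lit 0) (.e (nat_lit 7271) (nat_lit 385) (.e (nat_lit 122919) (nat_lit 15) (.e (nat_lit 360490) (nat_lit 22) (.e (nat_lit 778337) (nat_lit 9) .nil)))))) (.g (nat_lit 4) .nil .nil))) 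
(.lf (nat_lit 8618) (.g (nat_lit 2947) (.e (nat_lit 323) (nat_lit 24) (.e (nat_lit 360474) (nat_lit 8) (.e (nat_lit 557059) (nat_lit 0) (.e (nat_lit 1633) (nat_lit 114) (.e (nat_lit 385094) (nat_lit 49) (.e (nat_lit 778583) (nat_lit 17) (.e (nat_lit 164354) (nat_lit 246) .nil))))))) (.g (nat_lit 4) .nil .nil)))) (.nd (nat_lit 5) 
(.lf (nat_lit 8602) (.g (nat_lit 1165) (.e (nat_lit 323) (nat_lit 24) (.e (nat_lit 360456) (nat_lit 0) (.e (nat_lit 5818) (nat_lit 320) (.e (nat_lit 1214) (nat_lit 89) (.e (nat_lit 73795) (nat_lit 47) (.e (nat_lit 123165) (nat_lit 256) .nil)))))) (.g (nat_lit 0) .nil .nil))) 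
(.lf (nat_lit 8634) (.g (nat_lit 1078) (.e (nat_lit 323) (nat_lit 24) (.e (nat_lit 360488) (nat_lit 20) (.e (nat_lit 761866) (nat_lit 5) (.e (nat_lit 1597) (nat_lit 111) (.e (nat_lit 368384) (nat_lit 22) (.e (nat_lit 778337) (nat_lit 9) .nil)))))) (.g (nat_lit 4) .nil .nil)))))) (.nd (nat_lit 3) (.nd (nat_lit 4) (.nd (nat_lit 5) 
(.lf (nat_lit 8582) (.g (nat_lit 2824) (.e (nat_lit 323) (nat_lit 24) (.e (nat_lit 360452) (nat_lit 0) (.e (nat_lit 7270) (nat_lit 385) (.e (nat_lit 122919) (nat_lit 15) (.e (nat_lit 360490) (nat_lit 22) (.e (nat_lit 778340) (nat_lit 9) .nil)))))) (.g (nat_lit 5) .nil .nil))) 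
(.lf (nat_lit 8614) (.g (nat_lit 3037) (.e (nat_lit 323) (nat_lit 24) (.e (nat_lit 360473) (nat_lit 8) (.e (nat_lit 557119) (nat_lit 18) (.e (nat_lit 2798) (nat_lit 180) (.e (nat_lit 303133) (nat_lit 9) (.e (nat_lit 426412) (nat_lit 15) (.e (nat_lit 7936) (nat_lit 357) .nil))))))) (.g (nat_lit 6) .nil .nil)))) (.nd (nat_lit 5) 
(.lf (nat_lit 8598) (.g (nat_lit 1882) (.e (nat_lit 323) (nat_lit 24) (.e (nat_lit 360452) (nat_lit 0) (.e (nat_lit 7273) (nat_lit 385) (.e (nat_lit 122919) (nat_lit 15) (.e (nat_lit 360490) (nat_lit 22) (.e (nat_lit 778340) (nat_lit 9) .nil)))))) (.g (nat_lit 6) .nil .nil))) 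
(.lf (nat_lit 8630) (.g (nat_lit 983) (.e (nat_lit 323) (nat_lit 24) (.e (nat_lit 360486) (nat_lit 18) (.e (nat_lit 671763) (nat_lit 5) (.e (nat_lit 73795) (nat_lit 47) (.e (nat_lit 123166) (nat_lit 256) .nil))))) (.g (nat_lit 0) .nil .nil))))) (.nd (nat_lit 4) (.nd (nat_lit 5) 
(.lf (nat_lit 8590) (.g (nat_lit 413) (.e (nat_lit 323) (nat_lit 24) (.e (nat_lit 360452) (nat_lit 0) (.e (nat_lit 7272) (nat_lit 385) .nil))) .nil)) 
(.lf (nat_lit 8622) (.g (nat_lit 3339) (.e (nat_lit 323) (nat_lit 24) (.e (nat_lit 360474) (nat_lit 8) (.e (nat_lit 557060) (nat_lit 0) (.e (nat_lit 1633) (nat_lit 114) (.e (nat_lit 385094) (nat_lit 49) (.e (nat_lit 778585) (nat_lit 17) (.e (nat_lit 164353) (nat_lit 246) .nil))))))) (.g (nat_lit 4) .nil .nil)))) (.nd (nat_lit 5) 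
(.lf (nat_lit 8606) (.g (nat_lit 830) (.e (nat_lit 323) (nat_lit 24) (.e (nat_lit 360466) (nat_lit 3) (.e (nat_lit 516197) (nat_lit 26) .nil))) .nil)) 
(.lf (nat_lit 8638) (.g (nat_lit 1433) (.e (nat_lit 323) (nat_lit 24) (.e (nat_lit 360488) (nat_lit 20) (.e (nat_lit 761868) (nat_lit 5) (.e (nat_lit 1597) (nat_lit 111) (.e (nat_lit 360490) (nat_lit 22) (.e (nat_lit 778334) (nat_lit 9) .nil)))))) (.g (nat_lit 0) .nil .nil)))))))) (.nd (nat_lit 1) (.nd (nat_lit 2) (.nd (nat_lit 3) (.nd (nat_lit 4) (.nd (nat_lit 5) 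
(.lf (nat_lit 8577) (.g (nat_lit 2393) (.e (nat_lit 323) (nat_lit 24) (.e (nat_lit 360452) (nat_lit 0) (.e (nat_lit 5907) (nat_lit 320) (.e (nat_lit 1209) (nat_lit 89) (.e (nat_lit 73795) (nat_lit 47) (.e (nat_lit 123166) (nat_lit 256) .nil)))))) (.g (nat_lit 0) .nil .nil))) 
(.lf (nat_lit 8609) (.g (nat_lit 1027) (.e (nat_lit 323) (nat_lit 24) (.e (nat_lit 368384) (nat_lit 5) (.e (nat_lit 532583) (nat_lit 26) (.e (nat_lit 426315) (nat_lit 12) (.e (nat_lit 483072) (nat_lit 0) .nil))))) (.g (nat_lit 4) .nil .nil)))) (.nd (nat_lit 5) 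
(.lf (nat_lit 8593) (.g (nat_lit 2591) (.e (nat_lit 323) (nat_lit 24) (.e (nat_lit 360452) (nat_lit 0) (.e (nat_lit 7272) (nat_lit 385) (.e (nat_lit 122919) (nat_lit 15) (.e (nat_lit 360490) (nat_lit 22) (.e (nat_lit 778339) (nat_lit 9) .nil)))))) (.g (nat_lit 6) .nil .nil))) 
(.lf (nat_lit 8625) (.g (nat_lit 1104) (.e (nat_lit 323) (nat_lit 24) (.e (nat_lit 360486) (nat_lit 18) (.e (nat_lit 671748) (nat_lit 0) (.e (nat_lit 1535) (nat_lit 109) .nil)))) .nil)))) (.nd (nat_lit 4) (.nd (nat_lit 5) 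
(.lf (nat_lit 8585) (.g (nat_lit 2306) (.e (nat_lit 323) (nat_lit 24) (.e (nat_lit 360452) (nat_lit 0) (.e (nat_lit 7271) (nat_lit 385) (.e (nat_lit 122919) (nat_lit 15) (.e (nat_lit 360490) (nat_lit 22) (.e (nat_lit 778334) (nat_lit 9) .nil)))))) (.g (nat_lit 5) .nil .nil))) 
(.lf (nat_lit 8617) (.g (nat_lit 2053) (.e (nat_lit 323) (nat_lit 24) (.e (nat_lit 360474) (nat_lit 8) (.e (nat_lit 557059) (nat_lit 0) (.e (nat_lit 1633) (nat_lit 114) (.e (nat_lit 385094) (nat_lit 49) .nil))))) .nil))) (.nd (nat_lit 5) 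
(.lf (nat_lit 8601) (.g (nat_lit 1128) (.e (nat_lit 323) (nat_lit 24) (.e (nat_lit 360456) (nat_lit 0) (.e (nat_lit 5818) (nat_lit 320) (.e (nat_lit 1212) (nat_lit 89) (.e (nat_lit 73795) (nat_lit 47) (.e (nat_lit 123166) (nat_lit 256) .nil)))))) (.g (nat_lit 0) .nil .nil))) 
(.lf (nat_lit 8633) (.g (nat_lit 1143) (.e (nat_lit 323) (nat_lit 24) (.e (nat_lit 360488) (nat_lit 20) (.e (nat_lit 761866) (nat_lit 5) (.e (nat_lit 1597) (nat_lit 111) (.e (nat_lit 360490) (nat_lit 22) (.e (nat_lit 778340) (nat_lit 9) .nil)))))) (.g (nat_lit 0) .nil .nil)))))) (.nd (nat_lit 3) (.nd (nat_lit 4) (.nd (nat_lit 5) 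
(.lf (nat_lit 8581) (.g (nat_lit 2878) (.e (nat_lit 323) (nat_lit 24) (.e (nat_lit 360452) (nat_lit 0) (.e (nat_lit 7270) (nat_lit 385) (.e (nat_lit 122917) (nat_lit 15) (.e (nat_lit 360490) (nat_lit 22) (.e (nat_lit 778340) (nat_lit 9) .nil)))))) (.g (nat_lit 0) .nil .nil))) 
(.lf (nat_lit 8613) (.g (nat_lit 1005) (.e (nat_lit 323) (nat_lit 24) (.e (nat_lit 360473) (nat_lit 8) (.e (nat_lit 557060) (nat_lit 0) (.e (nat_lit 1633) (nat_lit 114) .nil)))) .nil))) (.nd (nat_lit 5) 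
(.lf (nat_lit 8597) (.g (nat_lit 2114) (.e (nat_lit 323) (nat_lit 24) (.e (nat_lit 360452) (nat_lit 0) (.e (nat_lit 7273) (nat_lit 385) (.e (nat_lit 122919) (nat_lit 15) (.e (nat_lit 360490) (nat_lit 22) (.e (nat_lit 778339) (nat_lit 9) .nil)))))) (.g (nat_lit 6) .nil .nil))) 
(.lf (nat_lit 8629) (.g (nat_lit 974) (.e (nat_lit 323) (nat_lit 24) (.e (nat_lit 360486) (nat_lit 18) (.e (nat_lit 671763) (nat_lit 5) (.e (nat_lit 73795) (nat_lit 47) (.e (nat_lit 123165) (nat_lit 256) .nil))))) (.g (nat_lit 0) .nil .nil))))) (.nd (nat_lit 4) (.nd (nat_lit 5) 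
(.lf (nat_lit 8589) (.g (nat_lit 1933) (.e (nat_lit 323) (nat_lit 24) (.e (nat_lit 360452) (nat_lit 0) (.e (nat_lit 7271) (nat_lit 385) (.e (nat_lit 122919) (nat_lit 15) (.e (nat_lit 368384) (nat_lit 22) (.e (nat_lit 778337) (nat_lit 9) .nil)))))) (.g (nat_lit 4) .nil .nil))) 
(.lf (nat_lit 8621) (.g (nat_lit 2456) (.e (nat_lit 323) (nat_lit 24) (.e (nat_lit 360474) (nat_lit 8) (.e (nat_lit 557060) (nat_lit 0) (.e (nat_lit 1633) (nat_lit 114) (.e (nat_lit 385094) (nat_lit 49) .nil))))) .nil))) (.nd (nat_lit 5) 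
(.lf (nat_lit 8605) (.g (nat_lit 830) (.e (nat_lit 323) (nat_lit 24) (.e (nat_lit 360466) (nat_lit 3) (.e (nat_lit 516196) (nat_lit 26) .nil))) .nil)) 
(.lf (nat_lit 8637) (.g (nat_lit 328) (.e (nat_lit 323) (nat_lit 24) (.e (nat_lit 360488) (nat_lit 20) (.e (nat_lit 761868) (nat_lit 5) .nil))) .nil)))))) (.nd (nat_lit 2) (.nd (nat_lit 3) (.nd (nat_lit 4) (.nd (nat_lit 5) 
(.lf (nat_lit 8579) (.g (nat_lit 1465) (.e (nat_lit 323) (nat_lit 24) (.e (nat_lit 360452) (nat_lit 0) (.e (nat_lit 7270) (nat_lit 385) (.e (nat_lit 122917) (nat_lit 15) .nil)))) .nil)) 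
(.lf (nat_lit 8611) (.g (nat_lit 1064) (.e (nat_lit 323) (nat_lit 24) (.e (nat_lit 360473) (nat_lit 8) (.e (nat_lit 557059) (nat_lit 0) (.e (nat_lit 1633) (nat_lit 114) .nil)))) .nil))) (.nd (nat_lit 5) 
(.lf (nat_lit 8595) (.g (nat_lit 1899) (.e (nat_lit 323) (nat_lit 24) (.e (nat_lit 360452) (nat_lit 0) (.e (nat_lit 7273) (nat_lit 385) (.e (nat_lit 122917) (nat_lit 15) (.e (nat_lit 360490) (nat_lit 22) (.e (nat_lit 778340) (nat_lit 9) .nil)))))) (.g (nat_lit 0) .nil .nil))) 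
(.lf (nat_lit 8627) (.g (nat_lit 1407) (.e (nat_lit 323) (nat_lit 24) (.e (nat_lit 360486) (nat_lit 18) (.e (nat_lit 671762) (nat_lit 4) (.e (nat_lit 65541) (nat_lit 0) .nil)))) .nil)))) (.nd (nat_lit 4) (.nd (nat_lit 5) 
(.lf (nat_lit 8587) (.g (nat_lit 2095) (.e (nat_lit 323) (nat_lit 24) (.e (nat_lit 360452) (nat_lit 0) (.e (nat_lit 7271) (nat_lit 385) (.e (nat_lit 122919) (nat_lit 15) (.e (nat_lit 360490) (nat_lit 22) (.e (nat_lit 778340) (nat_lit 9) .nil)))))) (.g (nat_lit 4) .nil .nil))) 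
(.lf (nat_lit 8619) (.g (nat_lit 3690) (.e (nat_lit 323) (nat_lit 24) (.e (nat_lit 360474) (nat_lit 8) (.e (nat_lit 557059) (nat_lit 0) (.e (nat_lit 1633) (nat_lit 114) (.e (nat_lit 385094) (nat_lit 49) (.e (nat_lit 778585) (nat_lit 17) (.e (nat_lit 164353) (nat_lit 246) .nil))))))) (.g (nat_lit 5) .nil .nil)))) (.nd (nat_lit 5) 
(.lf (nat_lit 8603) (.g (nat_lit 1169) (.e (nat_lit 323) (nat_lit 24) (.e (nat_lit 360456) (nat_lit 0) (.e (nat_lit 5818) (nat_lit 320) (.e (nat_lit 1214) (nat_lit 89) (.e (nat_lit 73795) (nat_lit 47) (.e (nat_lit 123166) (nat_lit 256) .nil)))))) (.g (nat_lit 0) .nil .nil))) 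
(.lf (nat_lit 8635) (.g (nat_lit 1020) (.e (nat_lit 323) (nat_lit 24) (.e (nat_lit 360488) (nat_lit 20) (.e (nat_lit 761867) (nat_lit 5) (.e (nat_lit 1597) (nat_lit 111) (.e (nat_lit 360490) (nat_lit 22) (.e (nat_lit 778340) (nat_lit 9) .nil)))))) (.g (nat_lit 0) .nil .nil)))))) (.nd (nat_lit 3) (.nd (nat_lit 4) (.nd (nat_lit 5) 
(.lf (nat_lit 8583) (.g (nat_lit 433) (.e (nat_lit 323) (nat_lit 24) (.e (nat_lit 360452) (nat_lit 0) (.e (nat_lit 7271) (nat_lit 385) .nil))) .nil)) 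
(.lf (nat_lit 8615) (.g (nat_lit 1163) (.e (nat_lit 323) (nat_lit 24) (.e (nat_lit 360474) (nat_lit 8) (.e (nat_lit 557058) (nat_lit 0) .nil))) .nil))) (.nd (nat_lit 5) 
(.lf (nat_lit 8599) (.g (nat_lit 1335) (.e (nat_lit 323) (nat_lit 24) (.e (nat_lit 360452) (nat_lit 0) (.e (nat_lit 7273) (nat_lit 385) (.e (nat_lit 122919) (nat_lit 15) (.e (nat_lit 368384) (nat_lit 22) .nil))))) .nil)) 
(.lf (nat_lit 8631) (.g (nat_lit 324) (.e (nat_lit 323) (nat_lit 24) (.e (nat_lit 360488) (nat_lit 20) (.e (nat_lit 761866) (nat_lit 5) .nil))) .nil)))) (.nd (nat_lit 4) (.nd (nat_lit 5) 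
(.lf (nat_lit 8591) (.g (nat_lit 2915) (.e (nat_lit 323) (nat_lit 24) (.e (nat_lit 360452) (nat_lit 0) (.e (nat_lit 7272) (nat_lit 385) (.e (nat_lit 122917) (nat_lit 15) (.e (nat_lit 360490) (nat_lit 22) (.e (nat_lit 778334) (nat_lit 9) .nil)))))) (.g (nat_lit 0) .nil .nil))) 
(.lf (nat_lit 8623) (.g (nat_lit 1163) (.e (nat_lit 323) (nat_lit 24) (.e (nat_lit 360474) (nat_lit 8) (.e (nat_lit 557119) (nat_lit 18) .nil))) .nil))) (.nd (nat_lit 5) 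
(.lf (nat_lit 8607) (.g (nat_lit 525) (.e (nat_lit 323) (nat_lit 24) (.e (nat_lit 360466) (nat_lit 3) (.e (nat_lit 524032) (nat_lit 32) .nil))) .nil)) 
(.lf (nat_lit 8639) (.g (nat_lit 1184) (.e (nat_lit 323) (nat_lit 24) (.e (nat_lit 360488) (nat_lit 20) (.e (nat_lit 761868) (nat_lit 5) (.e (nat_lit 1597) (nat_lit 111) (.e (nat_lit 360490) (nat_lit 22) (.e (nat_lit 778340) (nat_lit 9) .nil)))))) (.g (nat_lit 0) .nil .nil)))))))))

noncomputable def tv120 : DT := (.nd (nat_lit 0) (.nd (nat_lit 1) (.nd (nat_lit 2) (.nd (nat_lit 3) (.nd (nat_lit 4) (.nd (nat_lit 5) 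
(.lf (nat_lit 8640) (.g (nat_lit 833) (.e (nat_lit 323) (nat_lit 24) (.e (nat_lit 360488) (nat_lit 20) (.e (nat_lit 761869) (nat_lit 5) (.e (nat_lit 1582) (nat_lit 111) (.e (nat_lit 368384) (nat_lit 22) .nil))))) .nil)) 
(.lf (nat_lit 8672) (.g (nat_lit 587) (.e (nat_lit 323) (nat_lit 24) (.e (nat_lit 360491) (nat_lit 22) (.e (nat_lit 778360) (nat_lit 9) (.e (nat_lit 321) (nat_lit 24) (.e (nat_lit 360490) (nat_lit 22) (.e (nat_lit 778340) (nat_lit 9) .nil)))))) (.g (nat_lit 5) .nil .nil)))) (.nd (nat_lit 5) 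
(.lf (nat_lit 8656) (.g (nat_lit 987) (.e (nat_lit 323) (nat_lit 24) (.e (nat_lit 360489) (nat_lit 21) (.e (nat_lit 770058) (nat_lit 5) (.e (nat_lit 1586) (nat_lit 111) (.e (nat_lit 368384) (nat_lit 22) .nil))))) .nil)) 
(.lf (nat_lit 8688) (.g (nat_lit 1414) (.e (nat_lit 324) (nat_lit 24) (.e (nat_lit 360449) (nat_lit 0) (.e (nat_lit 7261) (nat_lit 384) (.e (nat_lit 57424) (nat_lit 14) (.e (nat_lit 352322) (nat_lit 26) (.e (nat_lit 147467) (nat_lit 9) .nil)))))) (.g (nat_lit 4) .nil .nil))))) (.nd (nat_lit 4) (.nd (nat_lit 5) 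
(.lf (nat_lit 8648) (.g (nat_lit 1190) (.e (nat_lit 323) (nat_lit 24) (.e (nat_lit 360489) (nat_lit 21) (.e (nat_lit 770057) (nat_lit 5) (.e (nat_lit 1589) (nat_lit 111) (.e (nat_lit 360490) (nat_lit 22) .nil))))) .nil)) 
(.lf (nat_lit 8680) (.g (nat_lit 1158) (.e (nat_lit 324) (nat_lit 24) (.e (nat_lit 360449) (nat_lit 0) (.e (nat_lit 7122) (nat_lit 382) (.e (nat_lit 1224) (nat_lit 90) .nil)))) .nil))) (.nd (nat_lit 5) 
(.lf (nat_lit 8664) (.g (nat_lit 779) (.e (nat_lit 323) (nat_lit 24) (.e (nat_lit 360489) (nat_lit 21) (.e (nat_lit 770074) (nat_lit 10) (.e (nat_lit 81934) (nat_lit 20) (.e (nat_lit 2335) (nat_lit 151) .nil))))) .nil)) 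
(.lf (nat_lit 8696) (.g (nat_lit 2134) (.e (nat_lit 324) (nat_lit 24) (.e (nat_lit 360449) (nat_lit 0) (.e (nat_lit 7261) (nat_lit 384) (.e (nat_lit 57427) (nat_lit 15) (.e (nat_lit 360491) (nat_lit 22) (.e (nat_lit 778362) (nat_lit 9) .nil)))))) (.g (nat_lit 0) .nil .nil)))))) (.nd (nat_lit 3) (.nd (nat_lit 4) (.nd (nat_lit 5) 
(.lf (nat_lit 8644) (.g (nat_lit 1125) (.e (nat_lit 323) (nat_lit 24) (.e (nat_lit 360489) (nat_lit 21) (.e (nat_lit 770055) (nat_lit 5) (.e (nat_lit 1598) (nat_lit 111) (.e (nat_lit 360490) (nat_lit 22) (.e (nat_lit 778334) (nat_lit 9) .nil)))))) (.g (nat_lit 0) .nil .nil))) 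
(.lf (nat_lit 8676) (.g (nat_lit 2082) (.e (nat_lit 323) (nat_lit 24) (.e (nat_lit 360491) (nat_lit 22) (.e (nat_lit 778466) (nat_lit 11) (.e (nat_lit 24640) (nat_lit 10) (.e (nat_lit 344178) (nat_lit 44) (.e (nat_lit 778339) (nat_lit 9) .nil)))))) (.g (nat_lit 5) .nil .nil)))) (.nd (nat_lit 5) 
(.lf (nat_lit 8660) (.g (nat_lit 1071) (.e (nat_lit 323) (nat_lit 24) (.e (nat_lit 360489) (nat_lit 21) (.e (nat_lit 770058) (nat_lit 5) (.e (nat_lit 1595) (nat_lit 111) (.e (nat_lit 360490) (nat_lit 22) (.e (nat_lit 778340) (nat_lit 9) .nil)))))) (.g (nat_lit 0) .nil .nil))) 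
(.lf (nat_lit 8692) (.g (nat_lit 1420) (.e (nat_lit 324) (nat_lit 24) (.e (nat_lit 360449) (nat_lit 0) (.e (nat_lit 7261) (nat_lit 384) (.e (nat_lit 57426) (nat_lit 15) (.e (nat_lit 360491) (nat_lit 22) (.e (nat_lit 778359) (nat_lit 9) .nil)))))) (.g (nat_lit 0) .nil .nil))))) (.nd (nat_lit 4) (.nd (nat_lit 5) 
(.lf (nat_lit 8652) (.g (nat_lit 1131) (.e (nat_lit 323) (nat_lit 24) (.e (nat_lit 360489) (nat_lit 21) (.e (nat_lit 770057) (nat_lit 5) (.e (nat_lit 1598) (nat_lit 111) (.e (nat_lit 360490) (nat_lit 22) (.e (nat_lit 778334) (nat_lit 9) .nil)))))) (.g (nat_lit 0) .nil .nil))) 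
(.lf (nat_lit 8684) (.g (nat_lit 2803) (.e (nat_lit 324) (nat_lit 24) (.e (nat_lit 360449) (nat_lit 0) (.e (nat_lit 7125) (nat_lit 382) (.e (nat_lit 1223) (nat_lit 90) (.e (nat_lit 81965) (nat_lit 26) (.e (nat_lit 147466) (nat_lit 9) .nil)))))) (.g (nat_lit 0) .nil .nil)))) (.nd (nat_lit 5) 
(.lf (nat_lit 8668) (.g (nat_lit 886) (.e (nat_lit 323) (nat_lit 24) (.e (nat_lit 360490) (nat_lit 22) (.e (nat_lit 778339) (nat_lit 9) (.e (nat_lit 323) (nat_lit 24) (.e (nat_lit 360490) (nat_lit 22) (.e (nat_lit 778339) (nat_lit 9) .nil)))))) (.g (nat_lit 0) .nil .nil))) 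
(.lf (nat_lit 8700) (.g (nat_lit 1225) (.e (nat_lit 324) (nat_lit 24) (.e (nat_lit 360449) (nat_lit 0) (.e (nat_lit 7263) (nat_lit 384) (.e (nat_lit 57354) (nat_lit 0) (.e (nat_lit 7936) (nat_lit 348) .nil))))) .nil)))))) (.nd (nat_lit 2) (.nd (nat_lit 3) (.nd (nat_lit 4) (.nd (nat_lit 5) 
(.lf (nat_lit 8642) (.g (nat_lit 1206) (.e (nat_lit 323) (nat_lit 24) (.e (nat_lit 360488) (nat_lit 20) (.e (nat_lit 761869) (nat_lit 5) (.e (nat_lit 1597) (nat_lit 111) (.e (nat_lit 360490) (nat_lit 22) (.e (nat_lit 778340) (nat_lit 9) .nil)))))) (.g (nat_lit 0) .nil .nil))) 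
(.lf (nat_lit 8674) (.g (nat_lit 1343) (.e (nat_lit 323) (nat_lit 24) (.e (nat_lit 360491) (nat_lit 22) (.e (nat_lit 778362) (nat_lit 9) (.e (nat_lit 324) (nat_lit 24) (.e (nat_lit 360490) (nat_lit 22) (.e (nat_lit 778334) (nat_lit 9) .nil)))))) (.g (nat_lit 0) .nil .nil)))) (.nd (nat_lit 5) 
(.lf (nat_lit 8658) (.g (nat_lit 1445) (.e (nat_lit 323) (nat_lit 24) (.e (nat_lit 360489) (nat_lit 21) (.e (nat_lit 770058) (nat_lit 5) (.e (nat_lit 1589) (nat_lit 111) (.e (nat_lit 360490) (nat_lit 22) (.e (nat_lit 778337) (nat_lit 9) .nil)))))) (.g (nat_lit 5) .nil .nil))) 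
(.lf (nat_lit 8690) (.g (nat_lit 1459) (.e (nat_lit 324) (nat_lit 24) (.e (nat_lit 360449) (nat_lit 0) (.e (nat_lit 7261) (nat_lit 384) (.e (nat_lit 57424) (nat_lit 14) (.e (nat_lit 352324) (nat_lit 26) (.e (nat_lit 147465) (nat_lit 9) .nil)))))) (.g (nat_lit 4) .nil .nil))))) (.nd (nat_lit 4) (.nd (nat_lit 5) 
(.lf (nat_lit 8650) (.g (nat_lit 1347) (.e (nat_lit 323) (nat_lit 24) (.e (nat_lit 360489) (nat_lit 21) (.e (nat_lit 770057) (nat_lit 5) (.e (nat_lit 1595) (nat_lit 111) (.e (nat_lit 360490) (nat_lit 22) (.e (nat_lit 778337) (nat_lit 9) .nil)))))) (.g (nat_lit 6) .nil .nil))) 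
(.lf (nat_lit 8682) (.g (nat_lit 1728) (.e (nat_lit 324) (nat_lit 24) (.e (nat_lit 360449) (nat_lit 0) (.e (nat_lit 7124) (nat_lit 382) (.e (nat_lit 1222) (nat_lit 90) (.e (nat_lit 81963) (nat_lit 26) .nil))))) .nil))) (.nd (nat_lit 5) 
(.lf (nat_lit 8666) (.g (nat_lit 905) (.e (nat_lit 323) (nat_lit 24) (.e (nat_lit 360490) (nat_lit 22) (.e (nat_lit 778334) (nat_lit 9) (.e (nat_lit 323) (nat_lit 24) (.e (nat_lit 360490) (nat_lit 22) (.e (nat_lit 778339) (nat_lit 9) .nil)))))) (.g (nat_lit 0) .nil .nil))) 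
(.lf (nat_lit 8698) (.g (nat_lit 1304) (.e (nat_lit 324) (nat_lit 24) (.e (nat_lit 360449) (nat_lit 0) (.e (nat_lit 7261) (nat_lit 384) (.e (nat_lit 57427) (nat_lit 15) (.e (nat_lit 360492) (nat_lit 22) (.e (nat_lit 778361) (nat_lit 9) .nil)))))) (.g (nat_lit 4) .nil .nil)))))) (.nd (nat_lit 3) (.nd (nat_lit 4) (.nd (nat_lit 5) 
(.lf (nat_lit 8646) (.g (nat_lit 864) (.e (nat_lit 323) (nat_lit 24) (.e (nat_lit 360489) (nat_lit 21) (.e (nat_lit 770055) (nat_lit 5) (.e (nat_lit 1598) (nat_lit 111) (.e (nat_lit 360490) (nat_lit 22) (.e (nat_lit 778340) (nat_lit 9) .nil)))))) (.g (nat_lit 0) .nil .nil))) 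
(.lf (nat_lit 8678) (.g (nat_lit 2708) (.e (nat_lit 324) (nat_lit 24) (.e (nat_lit 360449) (nat_lit 0) (.e (nat_lit 7122) (nat_lit 382) (.e (nat_lit 1222) (nat_lit 90) (.e (nat_lit 81963) (nat_lit 26) (.e (nat_lit 147466) (nat_lit 9) .nil)))))) (.g (nat_lit 6) .nil .nil)))) (.nd (nat_lit 5) 
(.lf (nat_lit 8662) (.g (nat_lit 1150) (.e (nat_lit 323) (nat_lit 24) (.e (nat_lit 360489) (nat_lit 21) (.e (nat_lit 770058) (nat_lit 5) (.e (nat_lit 1598) (nat_lit 111) (.e (nat_lit 360490) (nat_lit 22) (.e (nat_lit 778339) (nat_lit 9) .nil)))))) (.g (nat_lit 0) .nil .nil))) 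
(.lf (nat_lit 8694) (.g (nat_lit 1542) (.e (nat_lit 324) (nat_lit 24) (.e (nat_lit 360449) (nat_lit 0) (.e (nat_lit 7261) (nat_lit 384) (.e (nat_lit 57427) (nat_lit 15) (.e (nat_lit 360491) (nat_lit 22) (.e (nat_lit 778359) (nat_lit 9) .nil)))))) (.g (nat_lit 0) .nil .nil))))) (.nd (nat_lit 4) (.nd (nat_lit 5) 
(.lf (nat_lit 8654) (.g (nat_lit 869) (.e (nat_lit 323) (nat_lit 24) (.e (nat_lit 360489) (nat_lit 21) (.e (nat_lit 770057) (nat_lit 5) (.e (nat_lit 1598) (nat_lit 111) (.e (nat_lit 360490) (nat_lit 22) (.e (nat_lit 778340) (nat_lit 9) .nil)))))) (.g (nat_lit 0) .nil .nil))) 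
(.lf (nat_lit 8686) (.g (nat_lit 1076) (.e (nat_lit 324) (nat_lit 24) (.e (nat_lit 360449) (nat_lit 0) (.e (nat_lit 7125) (nat_lit 382) (.e (nat_lit 7936) (nat_lit 90) .nil)))) .nil))) (.nd (nat_lit 5) 
(.lf (nat_lit 8670) (.g (nat_lit 515) (.e (nat_lit 323) (nat_lit 24) (.e (nat_lit 360491) (nat_lit 22) (.e (nat_lit 778359) (nat_lit 9) (.e (nat_lit 321) (nat_lit 24) (.e (nat_lit 360490) (nat_lit 22) .nil))))) .nil)) 
(.lf (nat_lit 8702) (.g (nat_lit 1573) (.e (nat_lit 324) (nat_lit 24) (.e (nat_lit 360449) (nat_lit 0) (.e (nat_lit 7263) (nat_lit 384) (.e (nat_lit 57424) (nat_lit 14) (.e (nat_lit 352323) (nat_lit 26) .nil))))) .nil))))))) (.nd (nat_lit 1) (.nd (nat_lit 2) (.nd (nat_lit 3) (.nd (nat_lit 4) (.nd (nat_lit 5) 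
(.lf (nat_lit 8641) (.g (nat_lit 1447) (.e (nat_lit 323) (nat_lit 24) (.e (nat_lit 360488) (nat_lit 20) (.e (nat_lit 761869) (nat_lit 5) (.e (nat_lit 1597) (nat_lit 111) (.e (nat_lit 360490) (nat_lit 22) (.e (nat_lit 778334) (nat_lit 9) .nil)))))) (.g (nat_lit 0) .nil .nil))) 
(.lf (nat_lit 8673) (.g (nat_lit 1224) (.e (nat_lit 323) (nat_lit 24) (.e (nat_lit 360491) (nat_lit 22) (.e (nat_lit 778361) (nat_lit 9) (.e (nat_lit 324) (nat_lit 24) (.e (nat_lit 360490) (nat_lit 22) (.e (nat_lit 778334) (nat_lit 9) .nil)))))) (.g (nat_lit 0) .nil .nil)))) (.nd (nat_lit 5) 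
(.lf (nat_lit 8657) (.g (nat_lit 1294) (.e (nat_lit 323) (nat_lit 24) (.e (nat_lit 360489) (nat_lit 21) (.e (nat_lit 770058) (nat_lit 5) (.e (nat_lit 1589) (nat_lit 111) (.e (nat_lit 360490) (nat_lit 22) .nil))))) .nil)) 
(.lf (nat_lit 8689) (.g (nat_lit 1345) (.e (nat_lit 324) (nat_lit 24) (.e (nat_lit 360449) (nat_lit 0) (.e (nat_lit 7261) (nat_lit 384) (.e (nat_lit 57424) (nat_lit 14) (.e (nat_lit 352323) (nat_lit 26) .nil))))) .nil)))) (.nd (nat_lit 4) (.nd (nat_lit 5) 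
(.lf (nat_lit 8649) (.g (nat_lit 1433) (.e (nat_lit 323) (nat_lit 24) (.e (nat_lit 360489) (nat_lit 21) (.e (nat_lit 770057) (nat_lit 5) (.e (nat_lit 1595) (nat_lit 111) (.e (nat_lit 360490) (nat_lit 22) (.e (nat_lit 778334) (nat_lit 9) .nil)))))) (.g (nat_lit 6) .nil .nil))) 
(.lf (nat_lit 8681) (.g (nat_lit 1063) (.e (nat_lit 324) (nat_lit 24) (.e (nat_lit 360449) (nat_lit 0) (.e (nat_lit 7122) (nat_lit 382) (.e (nat_lit 7936) (nat_lit 90) .nil)))) .nil))) (.nd (nat_lit 5) 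
(.lf (nat_lit 8665) (.g (nat_lit 916) (.e (nat_lit 323) (nat_lit 24) (.e (nat_lit 360490) (nat_lit 22) (.e (nat_lit 778334) (nat_lit 9) (.e (nat_lit 323) (nat_lit 24) (.e (nat_lit 360490) (nat_lit 22) (.e (nat_lit 778334) (nat_lit 9) .nil)))))) (.g (nat_lit 0) .nil .nil))) 
(.lf (nat_lit 8697) (.g (nat_lit 1195) (.e (nat_lit 324) (nat_lit 24) (.e (nat_lit 360449) (nat_lit 0) (.e (nat_lit 7261) (nat_lit 384) (.e (nat_lit 57427) (nat_lit 15) (.e (nat_lit 360492) (nat_lit 22) .nil))))) .nil))))) (.nd (nat_lit 3) (.nd (nat_lit 4) (.nd (nat_lit 5) 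
(.lf (nat_lit 8645) (.g (nat_lit 1124) (.e (nat_lit 323) (nat_lit 24) (.e (nat_lit 360489) (nat_lit 21) (.e (nat_lit 770055) (nat_lit 5) (.e (nat_lit 1598) (nat_lit 111) (.e (nat_lit 360490) (nat_lit 22) (.e (nat_lit 778339) (nat_lit 9) .nil)))))) (.g (nat_lit 0) .nil .nil))) 
(.lf (nat_lit 8677) (.g (nat_lit 1726) (.e (nat_lit 323) (nat_lit 24) (.e (nat_lit 360493) (nat_lit 27) (.e (nat_lit 819219) (nat_lit 4) (.e (nat_lit 172094) (nat_lit 9) (.e (nat_lit 426125) (nat_lit 2) (.e (nat_lit 204544) (nat_lit 0) .nil)))))) (.g (nat_lit 5) .nil .nil)))) (.nd (nat_lit 5) 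
(.lf (nat_lit 8661) (.g (nat_lit 1157) (.e (nat_lit 323) (nat_lit 24) (.e (nat_lit 360489) (nat_lit 21) (.e (nat_lit 770058) (nat_lit 5) (.e (nat_lit 1598) (nat_lit 111) (.e (nat_lit 360490) (nat_lit 22) (.e (nat_lit 778334) (nat_lit 9) .nil)))))) (.g (nat_lit 0) .nil .nil))) 
(.lf (nat_lit 8693) (.g (nat_lit 1036) (.e (nat_lit 324) (nat_lit 24) (.e (nat_lit 360449) (nat_lit 0) (.e (nat_lit 7261) (nat_lit 384) (.e (nat_lit 57426) (nat_lit 15) (.e (nat_lit 360492) (nat_lit 22) .nil))))) .nil)))) (.nd (nat_lit 4) (.nd (nat_lit 5) 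
(.lf (nat_lit 8653) (.g (nat_lit 1125) (.e (nat_lit 323) (nat_lit 24) (.e (nat_lit 360489) (nat_lit 21) (.e (nat_lit 770057) (nat_lit 5) (.e (nat_lit 1598) (nat_lit 111) (.e (nat_lit 360490) (nat_lit 22) (.e (nat_lit 778339) (nat_lit 9) .nil)))))) (.g (nat_lit 0) .nil .nil))) 
(.lf (nat_lit 8685) (.g (nat_lit 2846) (.e (nat_lit 324) (nat_lit 24) (.e (nat_lit 360449) (nat_lit 0) (.e (nat_lit 7125) (nat_lit 382) (.e (nat_lit 1223) (nat_lit 90) (.e (nat_lit 81965) (nat_lit 26) (.e (nat_lit 147467) (nat_lit 9) .nil)))))) (.g (nat_lit 6) .nil .nil)))) (.nd (nat_lit 5) 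
(.lf (nat_lit 8669) (.g (nat_lit 653) (.e (nat_lit 323) (nat_lit 24) (.e (nat_lit 360490) (nat_lit 22) (.e (nat_lit 778340) (nat_lit 9) (.e (nat_lit 323) (nat_lit 24) (.e (nat_lit 360490) (nat_lit 22) (.e (nat_lit 778339) (nat_lit 9) .nil)))))) (.g (nat_lit 0) .nil .nil))) 
(.lf (nat_lit 8701) (.g (nat_lit 1598) (.e (nat_lit 324) (nat_lit 24) (.e (nat_lit 360449) (nat_lit 0) (.e (nat_lit 7263) (nat_lit 384) (.e (nat_lit 57424) (nat_lit 14) (.e (nat_lit 352322) (nat_lit 26) (.e (nat_lit 147467) (nat_lit 9) .nil)))))) (.g (nat_lit 4) .nil .nil))))))) (.nd (nat_lit 2) (.nd (nat_lit 3) (.nd (nat_lit 4) (.nd (nat_lit 5) 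
(.lf (nat_lit 8643) (.g (nat_lit 388) (.e (nat_lit 323) (nat_lit 24) (.e (nat_lit 360488) (nat_lit 20) (.e (nat_lit 769792) (nat_lit 10) .nil))) .nil)) 
(.lf (nat_lit 8675) (.g (nat_lit 1603) (.e (nat_lit 323) (nat_lit 24) (.e (nat_lit 360491) (nat_lit 22) (.e (nat_lit 778466) (nat_lit 11) (.e (nat_lit 24638) (nat_lit 9) (.e (nat_lit 335892) (nat_lit 0) .nil))))) .nil))) (.nd (nat_lit 5) 
(.lf (nat_lit 8659) (.g (nat_lit 1329) (.e (nat_lit 323) (nat_lit 24) (.e (nat_lit 360489) (nat_lit 21) (.e (nat_lit 770058) (nat_lit 5) (.e (nat_lit 1595) (nat_lit 111) (.e (nat_lit 360490) (nat_lit 22) (.e (nat_lit 778334) (nat_lit 9) .nil)))))) (.g (nat_lit 6) .nil .nil))) 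
(.lf (nat_lit 8691) (.g (nat_lit 2676) (.e (nat_lit 324) (nat_lit 24) (.e (nat_lit 360449) (nat_lit 0) (.e (nat_lit 7261) (nat_lit 384) (.e (nat_lit 57424) (nat_lit 14) (.e (nat_lit 352324) (nat_lit 26) (.e (nat_lit 147467) (nat_lit 9) .nil)))))) (.g (nat_lit 0) .nil .nil))))) (.nd (nat_lit 4) (.nd (nat_lit 5) 
(.lf (nat_lit 8651) (.g (nat_lit 1177) (.e (nat_lit 323) (nat_lit 24) (.e (nat_lit 360489) (nat_lit 21) (.e (nat_lit 770057) (nat_lit 5) (.e (nat_lit 1595) (nat_lit 111) (.e (nat_lit 360490) (nat_lit 22) (.e (nat_lit 778340) (nat_lit 9) .nil)))))) (.g (nat_lit 0) .nil .nil))) 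
(.lf (nat_lit 8683) (.g (nat_lit 1696) (.e (nat_lit 324) (nat_lit 24) (.e (nat_lit 360449) (nat_lit 0) (.e (nat_lit 7125) (nat_lit 382) (.e (nat_lit 1222) (nat_lit 90) (.e (nat_lit 81963) (nat_lit 26) .nil))))) .nil))) (.nd (nat_lit 5) 
(.lf (nat_lit 8667) (.g (nat_lit 362) (.e (nat_lit 323) (nat_lit 24) (.e (nat_lit 360490) (nat_lit 22) (.e (nat_lit 778339) (nat_lit 9) (.e (nat_lit 320) (nat_lit 24) .nil)))) .nil)) 
(.lf (nat_lit 8699) (.g (nat_lit 1360) (.e (nat_lit 324) (nat_lit 24) (.e (nat_lit 360449) (nat_lit 0) (.e (nat_lit 7261) (nat_lit 384) (.e (nat_lit 57428) (nat_lit 15) (.e (nat_lit 360492) (nat_lit 22) .nil))))) .nil))))) (.nd (nat_lit 3) (.nd (nat_lit 4) (.nd (nat_lit 5) 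
(.lf (nat_lit 8647) (.g (nat_lit 799) (.e (nat_lit 323) (nat_lit 24) (.e (nat_lit 360489) (nat_lit 21) (.e (nat_lit 770056) (nat_lit 5) (.e (nat_lit 1598) (nat_lit 111) (.e (nat_lit 360490) (nat_lit 22) (.e (nat_lit 778340) (nat_lit 9) .nil)))))) (.g (nat_lit 0) .nil .nil))) 
(.lf (nat_lit 8679) (.g (nat_lit 2439) (.e (nat_lit 324) (nat_lit 24) (.e (nat_lit 360449) (nat_lit 0) (.e (nat_lit 7122) (nat_lit 382) (.e (nat_lit 1222) (nat_lit 90) (.e (nat_lit 81963) (nat_lit 26) (.e (nat_lit 147467) (nat_lit 9) .nil)))))) (.g (nat_lit 6) .nil .nil)))) (.nd (nat_lit 5) 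
(.lf (nat_lit 8663) (.g (nat_lit 893) (.e (nat_lit 323) (nat_lit 24) (.e (nat_lit 360489) (nat_lit 21) (.e (nat_lit 770058) (nat_lit 5) (.e (nat_lit 1598) (nat_lit 111) (.e (nat_lit 360490) (nat_lit 22) (.e (nat_lit 778340) (nat_lit 9) .nil)))))) (.g (nat_lit 0) .nil .nil))) 
(.lf (nat_lit 8695) (.g (nat_lit 1576) (.e (nat_lit 324) (nat_lit 24) (.e (nat_lit 360449) (nat_lit 0) (.e (nat_lit 7261) (nat_lit 384) (.e (nat_lit 57427) (nat_lit 15) (.e (nat_lit 360491) (nat_lit 22) (.e (nat_lit 778360) (nat_lit 9) .nil)))))) (.g (nat_lit 6) .nil .nil))))) (.nd (nat_lit 4) (.nd (nat_lit 5) 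
(.lf (nat_lit 8655) (.g (nat_lit 475) (.e (nat_lit 323) (nat_lit 24) (.e (nat_lit 360489) (nat_lit 21) (.e (nat_lit 770057) (nat_lit 5) (.e (nat_lit 1599) (nat_lit 111) .nil)))) .nil)) 
(.lf (nat_lit 8687) (.g (nat_lit 654) (.e (nat_lit 324) (nat_lit 24) (.e (nat_lit 360449) (nat_lit 0) (.e (nat_lit 7261) (nat_lit 384) (.e (nat_lit 57347) (nat_lit 0) .nil)))) .nil))) (.nd (nat_lit 5) 
(.lf (nat_lit 8671) (.g (nat_lit 745) (.e (nat_lit 323) (nat_lit 24) (.e (nat_lit 360491) (nat_lit 22) (.e (nat_lit 778359) (nat_lit 9) (.e (nat_lit 324) (nat_lit 24) (.e (nat_lit 360490) (nat_lit 22) (.e (nat_lit 778334) (nat_lit 9) .nil)))))) (.g (nat_lit 0) .nil .nil))) 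
(.lf (nat_lit 8703) (.g (nat_lit 2448) (.e (nat_lit 324) (nat_lit 24) (.e (nat_lit 360449) (nat_lit 0) (.e (nat_lit 7263) (nat_lit 384) (.e (nat_lit 57424) (nat_lit 14) (.e (nat_lit 352324) (nat_lit 26) (.e (nat_lit 147464) (nat_lit 9) .nil)))))) (.g (nat_lit 5) .nil .nil)))))))))

noncomputable def tv121 : DT := (.nd (nat_lit 0) (.nd (nat_lit 1) (.nd (nat_lit 2) (.nd (nat_lit 3) (.nd (nat_lit 4) (.nd (nat_lit 5) 
(.lf (nat_lit 8704) (.g (nat_lit 2993) (.e (nat_lit 324) (nat_lit 24) (.e (nat_lit 360449) (nat_lit 0) (.e (nat_lit 7263) (nat_lit 384) (.e (nat_lit 57424) (nat_lit 14) (.e (nat_lit 352324) (nat_lit 26) (.e (nat_lit 147466) (nat_lit 9) .nil)))))) (.g (nat_lit 6) .nil .nil))) 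
(.lf (nat_lit 8736) (.g (nat_lit 450) (.e (nat_lit 324) (nat_lit 24) (.e (nat_lit 360451) (nat_lit 0) (.e (nat_lit 7122) (nat_lit 382) .nil))) .nil))) (.nd (nat_lit 5) 
(.lf (nat_lit 8720) (.g (nat_lit 1721) (.e (nat_lit 324) (nat_lit 24) (.e (nat_lit 360449) (nat_lit 0) (.e (nat_lit 7265) (nat_lit 384) (.e (nat_lit 57426) (nat_lit 15) (.e (nat_lit 360492) (nat_lit 22) .nil))))) .nil)) 
(.lf (nat_lit 8752) (.g (nat_lit 415) (.e (nat_lit 324) (nat_lit 24) (.e (nat_lit 360452) (nat_lit 0) (.e (nat_lit 7254) (nat_lit 383) .nil))) .nil)))) (.nd (nat_lit 4) (.nd (nat_lit 5) 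
(.lf (nat_lit 8712) (.g (nat_lit 1680) (.e (nat_lit 324) (nat_lit 24) (.e (nat_lit 360449) (nat_lit 0) (.e (nat_lit 7265) (nat_lit 384) (.e (nat_lit 57354) (nat_lit 0) (.e (nat_lit 7936) (nat_lit 348) .nil))))) .nil)) 
(.lf (nat_lit 8744) (.g (nat_lit 1326) (.e (nat_lit 324) (nat_lit 24) (.e (nat_lit 360451) (nat_lit 0) (.e (nat_lit 7265) (nat_lit 384) (.e (nat_lit 57427) (nat_lit 15) .nil)))) .nil))) (.nd (nat_lit 5) 
(.lf (nat_lit 8728) (.g (nat_lit 1947) (.e (nat_lit 324) (nat_lit 24) (.e (nat_lit 360449) (nat_lit 0) (.e (nat_lit 7266) (nat_lit 384) (.e (nat_lit 57426) (nat_lit 15) (.e (nat_lit 360491) (nat_lit 22) (.e (nat_lit 778359) (nat_lit 9) .nil)))))) (.g (nat_lit 0) .nil .nil))) 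
(.lf (nat_lit 8760) (.g (nat_lit 2902) (.e (nat_lit 324) (nat_lit 24) (.e (nat_lit 360452) (nat_lit 0) (.e (nat_lit 7270) (nat_lit 385) (.e (nat_lit 122917) (nat_lit 15) (.e (nat_lit 360492) (nat_lit 22) (.e (nat_lit 778360) (nat_lit 9) .nil)))))) (.g (nat_lit 5) .nil .nil)))))) (.nd (nat_lit 3) (.nd (nat_lit 4) (.nd (nat_lit 5) 
(.lf (nat_lit 8708) (.g (nat_lit 1503) (.e (nat_lit 324) (nat_lit 24) (.e (nat_lit 360449) (nat_lit 0) (.e (nat_lit 7263) (nat_lit 384) (.e (nat_lit 57427) (nat_lit 15) (.e (nat_lit 360491) (nat_lit 22) (.e (nat_lit 778359) (nat_lit 9) .nil)))))) (.g (nat_lit 0) .nil .nil))) 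
(.lf (nat_lit 8740) (.g (nat_lit 2182) (.e (nat_lit 324) (nat_lit 24) (.e (nat_lit 360451) (nat_lit 0) (.e (nat_lit 7125) (nat_lit 382) (.e (nat_lit 1224) (nat_lit 90) (.e (nat_lit 81963) (nat_lit 26) .nil))))) .nil))) (.nd (nat_lit 5) 
(.lf (nat_lit 8724) (.g (nat_lit 2867) (.e (nat_lit 324) (nat_lit 24) (.e (nat_lit 360449) (nat_lit 0) (.e (nat_lit 7265) (nat_lit 384) (.e (nat_lit 57427) (nat_lit 15) (.e (nat_lit 360491) (nat_lit 22) (.e (nat_lit 778362) (nat_lit 9) .nil)))))) (.g (nat_lit 0) .nil .nil))) 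
(.lf (nat_lit 8756) (.g (nat_lit 3536) (.e (nat_lit 324) (nat_lit 24) (.e (nat_lit 360452) (nat_lit 0) (.e (nat_lit 7270) (nat_lit 385) (.e (nat_lit 122916) (nat_lit 14) (.e (nat_lit 352324) (nat_lit 26) (.e (nat_lit 147466) (nat_lit 9) .nil)))))) (.g (nat_lit 0) .nil .nil))))) (.nd (nat_lit 4) (.nd (nat_lit 5) 
(.lf (nat_lit 8716) (.g (nat_lit 2367) (.e (nat_lit 324) (nat_lit 24) (.e (nat_lit 360449) (nat_lit 0) (.e (nat_lit 7265) (nat_lit 384) (.e (nat_lit 57424) (nat_lit 14) (.e (nat_lit 352324) (nat_lit 26) (.e (nat_lit 147465) (nat_lit 9) .nil)))))) (.g (nat_lit 5) .nil .nil))) 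
(.lf (nat_lit 8748) (.g (nat_lit 1370) (.e (nat_lit 324) (nat_lit 24) (.e (nat_lit 360452) (nat_lit 0) (.e (nat_lit 7147) (nat_lit 382) (.e (nat_lit 1216) (nat_lit 90) (.e (nat_lit 81965) (nat_lit 26) (.e (nat_lit 147463) (nat_lit 9) .nil)))))) (.g (nat_lit 4) .nil .nil)))) (.nd (nat_lit 5) 
(.lf (nat_lit 8732) (.g (nat_lit 1837) (.e (nat_lit 324) (nat_lit 24) (.e (nat_lit 360449) (nat_lit 0) (.e (nat_lit 7266) (nat_lit 384) (.e (nat_lit 57428) (nat_lit 15) (.e (nat_lit 360492) (nat_lit 22) .nil))))) .nil)) 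
(.lf (nat_lit 8764) (.g (nat_lit 1938) (.e (nat_lit 324) (nat_lit 24) (.e (nat_lit 360452) (nat_lit 0) (.e (nat_lit 7270) (nat_lit 385) (.e (nat_lit 122918) (nat_lit 15) (.e (nat_lit 360491) (nat_lit 22) (.e (nat_lit 778361) (nat_lit 9) .nil)))))) (.g (nat_lit 4) .nil .nil))))))) (.nd (nat_lit 2) (.nd (nat_lit 3) (.nd (nat_lit 4) (.nd (nat_lit 5) 
(.lf (nat_lit 8706) (.g (nat_lit 1358) (.e (nat_lit 324) (nat_lit 24) (.e (nat_lit 360449) (nat_lit 0) (.e (nat_lit 7263) (nat_lit 384) (.e (nat_lit 57426) (nat_lit 15) (.e (nat_lit 360491) (nat_lit 22) (.e (nat_lit 778359) (nat_lit 9) .nil)))))) (.g (nat_lit 0) .nil .nil))) 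
(.lf (nat_lit 8738) (.g (nat_lit 2285) (.e (nat_lit 324) (nat_lit 24) (.e (nat_lit 360451) (nat_lit 0) (.e (nat_lit 7125) (nat_lit 382) (.e (nat_lit 1222) (nat_lit 90) (.e (nat_lit 81963) (nat_lit 26) .nil))))) .nil))) (.nd (nat_lit 5) 
(.lf (nat_lit 8722) (.g (nat_lit 2266) (.e (nat_lit 324) (nat_lit 24) (.e (nat_lit 360449) (nat_lit 0) (.e (nat_lit 7265) (nat_lit 384) (.e (nat_lit 57427) (nat_lit 15) (.e (nat_lit 360491) (nat_lit 22) (.e (nat_lit 778359) (nat_lit 9) .nil)))))) (.g (nat_lit 0) .nil .nil))) 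
(.lf (nat_lit 8754) (.g (nat_lit 3095) (.e (nat_lit 324) (nat_lit 24) (.e (nat_lit 360452) (nat_lit 0) (.e (nat_lit 7270) (nat_lit 385) (.e (nat_lit 122916) (nat_lit 14) (.e (nat_lit 352322) (nat_lit 26) (.e (nat_lit 147466) (nat_lit 9) .nil)))))) (.g (nat_lit 6) .nil .nil))))) (.nd (nat_lit 4) (.nd (nat_lit 5) 
(.lf (nat_lit 8714) (.g (nat_lit 2231) (.e (nat_lit 324) (nat_lit 24) (.e (nat_lit 360449) (nat_lit 0) (.e (nat_lit 7265) (nat_lit 384) (.e (nat_lit 57424) (nat_lit 14) (.e (nat_lit 352284) (nat_lit 20) .nil))))) .nil)) 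
(.lf (nat_lit 8746) (.g (nat_lit 1847) (.e (nat_lit 324) (nat_lit 24) (.e (nat_lit 360451) (nat_lit 0) (.e (nat_lit 7266) (nat_lit 384) (.e (nat_lit 57426) (nat_lit 15) (.e (nat_lit 360491) (nat_lit 22) .nil))))) .nil))) (.nd (nat_lit 5) 
(.lf (nat_lit 8730) (.g (nat_lit 2067) (.e (nat_lit 324) (nat_lit 24) (.e (nat_lit 360449) (nat_lit 0) (.e (nat_lit 7266) (nat_lit 384) (.e (nat_lit 57427) (nat_lit 15) (.e (nat_lit 360491) (nat_lit 22) (.e (nat_lit 778360) (nat_lit 9) .nil)))))) (.g (nat_lit 6) .nil .nil))) 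
(.lf (nat_lit 8762) (.g (nat_lit 3522) (.e (nat_lit 324) (nat_lit 24) (.e (nat_lit 360452) (nat_lit 0) (.e (nat_lit 7270) (nat_lit 385) (.e (nat_lit 122917) (nat_lit 15) (.e (nat_lit 360492) (nat_lit 22) (.e (nat_lit 778362) (nat_lit 9) .nil)))))) (.g (nat_lit 0) .nil .nil)))))) (.nd (nat_lit 3) (.nd (nat_lit 4) (.nd (nat_lit 5) 
(.lf (nat_lit 8710) (.g (nat_lit 2091) (.e (nat_lit 324) (nat_lit 24) (.e (nat_lit 360449) (nat_lit 0) (.e (nat_lit 7263) (nat_lit 384) (.e (nat_lit 57427) (nat_lit 15) (.e (nat_lit 360491) (nat_lit 22) (.e (nat_lit 778362) (nat_lit 9) .nil)))))) (.g (nat_lit 0) .nil .nil))) 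
(.lf (nat_lit 8742) (.g (nat_lit 2203) (.e (nat_lit 324) (nat_lit 24) (.e (nat_lit 360451) (nat_lit 0) (.e (nat_lit 7265) (nat_lit 384) (.e (nat_lit 57424) (nat_lit 14) (.e (nat_lit 352324) (nat_lit 26) .nil))))) .nil))) (.nd (nat_lit 5) 
(.lf (nat_lit 8726) (.g (nat_lit 2194) (.e (nat_lit 324) (nat_lit 24) (.e (nat_lit 360449) (nat_lit 0) (.e (nat_lit 7265) (nat_lit 384) (.e (nat_lit 57427) (nat_lit 15) (.e (nat_lit 360492) (nat_lit 22) (.e (nat_lit 778361) (nat_lit 9) .nil)))))) (.g (nat_lit 5) .nil .nil))) 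
(.lf (nat_lit 8758) (.g (nat_lit 3129) (.e (nat_lit 324) (nat_lit 24) (.e (nat_lit 360452) (nat_lit 0) (.e (nat_lit 7270) (nat_lit 385) (.e (nat_lit 122917) (nat_lit 15) (.e (nat_lit 360491) (nat_lit 22) (.e (nat_lit 778359) (nat_lit 9) .nil)))))) (.g (nat_lit 0) .nil .nil))))) (.nd (nat_lit 4) (.nd (nat_lit 5) 
(.lf (nat_lit 8718) (.g (nat_lit 1159) (.e (nat_lit 324) (nat_lit 24) (.e (nat_lit 360449) (nat_lit 0) (.e (nat_lit 7265) (nat_lit 384) (.e (nat_lit 57425) (nat_lit 14) .nil)))) .nil)) 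
(.lf (nat_lit 8750) (.g (nat_lit 2506) (.e (nat_lit 324) (nat_lit 24) (.e (nat_lit 360452) (nat_lit 0) (.e (nat_lit 7147) (nat_lit 382) (.e (nat_lit 1217) (nat_lit 90) (.e (nat_lit 81963) (nat_lit 26) (.e (nat_lit 147467) (nat_lit 9) .nil)))))) (.g (nat_lit 0) .nil .nil)))) (.nd (nat_lit 5) 
(.lf (nat_lit 8734) (.g (nat_lit 472) (.e (nat_lit 324) (nat_lit 24) (.e (nat_lit 360450) (nat_lit 0) (.e (nat_lit 7261) (nat_lit 384) .nil))) .nil)) 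
(.lf (nat_lit 8766) (.g (nat_lit 2787) (.e (nat_lit 324) (nat_lit 24) (.e (nat_lit 360452) (nat_lit 0) (.e (nat_lit 7270) (nat_lit 385) (.e (nat_lit 122919) (nat_lit 15) (.e (nat_lit 360491) (nat_lit 22) (.e (nat_lit 778359) (nat_lit 9) .nil)))))) (.g (nat_lit 0) .nil .nil)))))))) (.nd (nat_lit 1) (.nd (nat_lit 2) (.nd (nat_lit 3) (.nd (nat_lit 4) (.nd (nat_lit 5) 
(.lf (nat_lit 8705) (.g (nat_lit 2838) (.e (nat_lit 324) (nat_lit 24) (.e (nat_lit 360449) (nat_lit 0) (.e (nat_lit 7263) (nat_lit 384) (.e (nat_lit 57424) (nat_lit 14) (.e (nat_lit 352324) (nat_lit 26) (.e (nat_lit 147467) (nat_lit 9) .nil)))))) (.g (nat_lit 0) .nil .nil))) 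
(.lf (nat_lit 8737) (.g (nat_lit 565) (.e (nat_lit 324) (nat_lit 24) (.e (nat_lit 360451) (nat_lit 0) (.e (nat_lit 7124) (nat_lit 382) .nil))) .nil))) (.nd (nat_lit 5) 
(.lf (nat_lit 8721) (.g (nat_lit 1764) (.e (nat_lit 324) (nat_lit 24) (.e (nat_lit 360449) (nat_lit 0) (.e (nat_lit 7265) (nat_lit 384) (.e (nat_lit 57426) (nat_lit 15) (.e (nat_lit 360492) (nat_lit 22) (.e (nat_lit 778362) (nat_lit 9) .nil)))))) (.g (nat_lit 4) .nil .nil))) 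
(.lf (nat_lit 8753) (.g (nat_lit 1203) (.e (nat_lit 324) (nat_lit 24) (.e (nat_lit 360452) (nat_lit 0) (.e (nat_lit 7270) (nat_lit 385) (.e (nat_lit 122916) (nat_lit 14) .nil)))) .nil)))) (.nd (nat_lit 4) (.nd (nat_lit 5) 
(.lf (nat_lit 8713) (.g (nat_lit 988) (.e (nat_lit 324) (nat_lit 24) (.e (nat_lit 360449) (nat_lit 0) (.e (nat_lit 7265) (nat_lit 384) (.e (nat_lit 57423) (nat_lit 14) .nil)))) .nil)) 
(.lf (nat_lit 8745) (.g (nat_lit 2216) (.e (nat_lit 324) (nat_lit 24) (.e (nat_lit 360451) (nat_lit 0) (.e (nat_lit 7265) (nat_lit 384) (.e (nat_lit 57427) (nat_lit 15) (.e (nat_lit 360491) (nat_lit 22) .nil))))) .nil))) (.nd (nat_lit 5) 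
(.lf (nat_lit 8729) (.g (nat_lit 2006) (.e (nat_lit 324) (nat_lit 24) (.e (nat_lit 360449) (nat_lit 0) (.e (nat_lit 7266) (nat_lit 384) (.e (nat_lit 57427) (nat_lit 15) (.e (nat_lit 360491) (nat_lit 22) (.e (nat_lit 778359) (nat_lit 9) .nil)))))) (.g (nat_lit 0) .nil .nil))) 
(.lf (nat_lit 8761) (.g (nat_lit 3524) (.e (nat_lit 324) (nat_lit 24) (.e (nat_lit 360452) (nat_lit 0) (.e (nat_lit 7270) (nat_lit 385) (.e (nat_lit 122917) (nat_lit 15) (.e (nat_lit 360492) (nat_lit 22) (.e (nat_lit 778361) (nat_lit 9) .nil)))))) (.g (nat_lit 0) .nil .nil)))))) (.nd (nat_lit 3) (.nd (nat_lit 4) (.nd (nat_lit 5) 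
(.lf (nat_lit 8709) (.g (nat_lit 1546) (.e (nat_lit 324) (nat_lit 24) (.e (nat_lit 360449) (nat_lit 0) (.e (nat_lit 7263) (nat_lit 384) (.e (nat_lit 57427) (nat_lit 15) (.e (nat_lit 360491) (nat_lit 22) (.e (nat_lit 778360) (nat_lit 9) .nil)))))) (.g (nat_lit 0) .nil .nil))) 
(.lf (nat_lit 8741) (.g (nat_lit 2367) (.e (nat_lit 324) (nat_lit 24) (.e (nat_lit 360451) (nat_lit 0) (.e (nat_lit 7125) (nat_lit 382) (.e (nat_lit 1224) (nat_lit 90) (.e (nat_lit 81965) (nat_lit 26) .nil))))) .nil))) (.nd (nat_lit 5) 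
(.lf (nat_lit 8725) (.g (nat_lit 1868) (.e (nat_lit 324) (nat_lit 24) (.e (nat_lit 360449) (nat_lit 0) (.e (nat_lit 7265) (nat_lit 384) (.e (nat_lit 57427) (nat_lit 15) (.e (nat_lit 360492) (nat_lit 22) .nil))))) .nil)) 
(.lf (nat_lit 8757) (.g (nat_lit 3436) (.e (nat_lit 324) (nat_lit 24) (.e (nat_lit 360452) (nat_lit 0) (.e (nat_lit 7270) (nat_lit 385) (.e (nat_lit 122916) (nat_lit 14) (.e (nat_lit 352324) (nat_lit 26) (.e (nat_lit 147467) (nat_lit 9) .nil)))))) (.g (nat_lit 0) .nil .nil))))) (.nd (nat_lit 4) (.nd (nat_lit 5) 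
(.lf (nat_lit 8717) (.g (nat_lit 3615) (.e (nat_lit 324) (nat_lit 24) (.e (nat_lit 360449) (nat_lit 0) (.e (nat_lit 7265) (nat_lit 384) (.e (nat_lit 57424) (nat_lit 14) (.e (nat_lit 352324) (nat_lit 26) (.e (nat_lit 147466) (nat_lit 9) .nil)))))) (.g (nat_lit 0) .nil .nil))) 
(.lf (nat_lit 8749) (.g (nat_lit 2781) (.e (nat_lit 324) (nat_lit 24) (.e (nat_lit 360452) (nat_lit 0) (.e (nat_lit 7147) (nat_lit 382) (.e (nat_lit 1216) (nat_lit 90) (.e (nat_lit 81965) (nat_lit 26) (.e (nat_lit 147466) (nat_lit 9) .nil)))))) (.g (nat_lit 0) .nil .nil)))) (.nd (nat_lit 5) 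
(.lf (nat_lit 8733) (.g (nat_lit 1408) (.e (nat_lit 324) (nat_lit 24) (.e (nat_lit 360450) (nat_lit 0) (.e (nat_lit 7122) (nat_lit 382) (.e (nat_lit 1222) (nat_lit 90) .nil)))) .nil)) 
(.lf (nat_lit 8765) (.g (nat_lit 1490) (.e (nat_lit 324) (nat_lit 24) (.e (nat_lit 360452) (nat_lit 0) (.e (nat_lit 7270) (nat_lit 385) (.e (nat_lit 122918) (nat_lit 15) (.e (nat_lit 360492) (nat_lit 22) .nil))))) .nil)))))) (.nd (nat_lit 2) (.nd (nat_lit 3) (.nd (nat_lit 4) (.nd (nat_lit 5) 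
(.lf (nat_lit 8707) (.g (nat_lit 949) (.e (nat_lit 324) (nat_lit 24) (.e (nat_lit 360449) (nat_lit 0) (.e (nat_lit 7263) (nat_lit 384) (.e (nat_lit 57426) (nat_lit 15) (.e (nat_lit 360492) (nat_lit 22) .nil))))) .nil)) 
(.lf (nat_lit 8739) (.g (nat_lit 1967) (.e (nat_lit 324) (nat_lit 24) (.e (nat_lit 360451) (nat_lit 0) (.e (nat_lit 7125) (nat_lit 382) (.e (nat_lit 1223) (nat_lit 90) (.e (nat_lit 81965) (nat_lit 26) .nil))))) .nil))) (.nd (nat_lit 5) 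
(.lf (nat_lit 8723) (.g (nat_lit 2302) (.e (nat_lit 324) (nat_lit 24) (.e (nat_lit 360449) (nat_lit 0) (.e (nat_lit 7265) (nat_lit 384) (.e (nat_lit 57427) (nat_lit 15) (.e (nat_lit 360491) (nat_lit 22) (.e (nat_lit 778360) (nat_lit 9) .nil)))))) (.g (nat_lit 0) .nil .nil))) 
(.lf (nat_lit 8755) (.g (nat_lit 2839) (.e (nat_lit 324) (nat_lit 24) (.e (nat_lit 360452) (nat_lit 0) (.e (nat_lit 7270) (nat_lit 385) (.e (nat_lit 122916) (nat_lit 14) (.e (nat_lit 352322) (nat_lit 26) (.e (nat_lit 147467) (nat_lit 9) .nil)))))) (.g (nat_lit 6) .nil .nil))))) (.nd (nat_lit 4) (.nd (nat_lit 5) 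
(.lf (nat_lit 8715) (.g (nat_lit 3152) (.e (nat_lit 324) (nat_lit 24) (.e (nat_lit 360449) (nat_lit 0) (.e (nat_lit 7265) (nat_lit 384) (.e (nat_lit 57424) (nat_lit 14) (.e (nat_lit 352324) (nat_lit 26) (.e (nat_lit 147464) (nat_lit 9) .nil)))))) (.g (nat_lit 0) .nil .nil))) 
(.lf (nat_lit 8747) (.g (nat_lit 1969) (.e (nat_lit 324) (nat_lit 24) (.e (nat_lit 360451) (nat_lit 0) (.e (nat_lit 7266) (nat_lit 384) (.e (nat_lit 57427) (nat_lit 15) (.e (nat_lit 360491) (nat_lit 22) .nil))))) .nil))) (.nd (nat_lit 5) 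
(.lf (nat_lit 8731) (.g (nat_lit 1708) (.e (nat_lit 324) (nat_lit 24) (.e (nat_lit 360449) (nat_lit 0) (.e (nat_lit 7266) (nat_lit 384) (.e (nat_lit 57427) (nat_lit 15) (.e (nat_lit 360492) (nat_lit 22) .nil))))) .nil)) 
(.lf (nat_lit 8763) (.g (nat_lit 1564) (.e (nat_lit 324) (nat_lit 24) (.e (nat_lit 360452) (nat_lit 0) (.e (nat_lit 7270) (nat_lit 385) (.e (nat_lit 122918) (nat_lit 15) (.e (nat_lit 360491) (nat_lit 22) .nil))))) .nil))))) (.nd (nat_lit 3) (.nd (nat_lit 4) (.nd (nat_lit 5) 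
(.lf (nat_lit 8711) (.g (nat_lit 1201) (.e (nat_lit 324) (nat_lit 24) (.e (nat_lit 360449) (nat_lit 0) (.e (nat_lit 7263) (nat_lit 384) (.e (nat_lit 57427) (nat_lit 15) (.e (nat_lit 360492) (nat_lit 22) (.e (nat_lit 778361) (nat_lit 9) .nil)))))) (.g (nat_lit 4) .nil .nil))) 
(.lf (nat_lit 8743) (.g (nat_lit 2083) (.e (nat_lit 324) (nat_lit 24) (.e (nat_lit 360451) (nat_lit 0) (.e (nat_lit 7265) (nat_lit 384) (.e (nat_lit 57426) (nat_lit 15) (.e (nat_lit 360491) (nat_lit 22) .nil))))) .nil))) (.nd (nat_lit 5) 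
(.lf (nat_lit 8727) (.g (nat_lit 1595) (.e (nat_lit 324) (nat_lit 24) (.e (nat_lit 360449) (nat_lit 0) (.e (nat_lit 7265) (nat_lit 384) (.e (nat_lit 57428) (nat_lit 15) (.e (nat_lit 360492) (nat_lit 22) .nil))))) .nil)) 
(.lf (nat_lit 8759) (.g (nat_lit 3724) (.e (nat_lit 324) (nat_lit 24) (.e (nat_lit 360452) (nat_lit 0) (.e (nat_lit 7270) (nat_lit 385) (.e (nat_lit 122917) (nat_lit 15) (.e (nat_lit 360491) (nat_lit 22) (.e (nat_lit 778362) (nat_lit 9) .nil)))))) (.g (nat_lit 0) .nil .nil))))) (.nd (nat_lit 4) (.nd (nat_lit 5) 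
(.lf (nat_lit 8719) (.g (nat_lit 2199) (.e (nat_lit 324) (nat_lit 24) (.e (nat_lit 360449) (nat_lit 0) (.e (nat_lit 7265) (nat_lit 384) (.e (nat_lit 57426) (nat_lit 15) (.e (nat_lit 360491) (nat_lit 22) (.e (nat_lit 778359) (nat_lit 9) .nil)))))) (.g (nat_lit 0) .nil .nil))) 
(.lf (nat_lit 8751) (.g (nat_lit 3251) (.e (nat_lit 324) (nat_lit 24) (.e (nat_lit 360452) (nat_lit 0) (.e (nat_lit 7147) (nat_lit 382) (.e (nat_lit 1217) (nat_lit 90) (.e (nat_lit 81965) (nat_lit 26) (.e (nat_lit 147466) (nat_lit 9) .nil)))))) (.g (nat_lit 0) .nil .nil)))) (.nd (nat_lit 5) 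
(.lf (nat_lit 8735) (.g (nat_lit 1657) (.e (nat_lit 324) (nat_lit 24) (.e (nat_lit 360450) (nat_lit 0) (.e (nat_lit 7263) (nat_lit 384) (.e (nat_lit 57424) (nat_lit 14) (.e (nat_lit 352324) (nat_lit 26) .nil))))) .nil)) 
(.lf (nat_lit 8767) (.g (nat_lit 2944) (.e (nat_lit 324) (nat_lit 24) (.e (nat_lit 360452) (nat_lit 0) (.e (nat_lit 7270) (nat_lit 385) (.e (nat_lit 122919) (nat_lit 15) (.e (nat_lit 360491) (nat_lit 22) (.e (nat_lit 778360) (nat_lit 9) .nil)))))) (.g (nat_lit 6) .nil .nil)))))))))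

noncomputable def tv122 : DT := (.nd (nat_lit 0) (.nd (nat_lit 1) (.nd (nat_lit 2) (.nd (nat_lit 3) (.nd (nat_lit 4) 
(.lf (nat_lit 8768) (.g (nat_lit 3353) (.e (nat_lit 324) (nat_lit 24) (.e (nat_lit 360452) (nat_lit 0) (.e (nat_lit 7270) (nat_lit 385) (.e (nat_lit 122919) (nat_lit 15) (.e (nat_lit 360491) (nat_lit 22) (.e (nat_lit 778362) (nat_lit 9) .nil)))))) (.g (nat_lit 0) .nil .nil))) 
(.lf (nat_lit 8784) (.g (nat_lit 2281) (.e (nat_lit 324) (nat_lit 24) (.e (nat_lit 360452) (nat_lit 0) (.e (nat_lit 7271) (nat_lit 385) (.e (nat_lit 122919) (nat_lit 15) (.e (nat_lit 360492) (nat_lit 22) (.e (nat_lit 778360) (nat_lit 9) .nil)))))) (.g (nat_lit 5) .nil .nil)))) (.nd (nat_lit 4) 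
(.lf (nat_lit 8776) (.g (nat_lit 2629) (.e (nat_lit 324) (nat_lit 24) (.e (nat_lit 360452) (nat_lit 0) (.e (nat_lit 7271) (nat_lit 385) (.e (nat_lit 122917) (nat_lit 15) (.e (nat_lit 360492) (nat_lit 22) (.e (nat_lit 778361) (nat_lit 9) .nil)))))) (.g (nat_lit 0) .nil .nil))) 
(.lf (nat_lit 8792) (.g (nat_lit 2794) (.e (nat_lit 324) (nat_lit 24) (.e (nat_lit 360452) (nat_lit 0) (.e (nat_lit 7272) (nat_lit 385) (.e (nat_lit 122917) (nat_lit 15) (.e (nat_lit 360492) (nat_lit 22) (.e (nat_lit 778359) (nat_lit 9) .nil)))))) (.g (nat_lit 0) .nil .nil))))) (.nd (nat_lit 3) (.nd (nat_lit 4) 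
(.lf (nat_lit 8772) (.g (nat_lit 2911) (.e (nat_lit 324) (nat_lit 24) (.e (nat_lit 360452) (nat_lit 0) (.e (nat_lit 7271) (nat_lit 385) (.e (nat_lit 122916) (nat_lit 14) (.e (nat_lit 352324) (nat_lit 26) (.e (nat_lit 147467) (nat_lit 9) .nil)))))) (.g (nat_lit 0) .nil .nil))) 
(.lf (nat_lit 8788) (.g (nat_lit 3370) (.e (nat_lit 324) (nat_lit 24) (.e (nat_lit 360452) (nat_lit 0) (.e (nat_lit 7272) (nat_lit 385) (.e (nat_lit 122916) (nat_lit 14) (.e (nat_lit 352324) (nat_lit 26) (.e (nat_lit 147466) (nat_lit 9) .nil)))))) (.g (nat_lit 6) .nil .nil)))) (.nd (nat_lit 4) 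
(.lf (nat_lit 8780) (.g (nat_lit 1578) (.e (nat_lit 324) (nat_lit 24) (.e (nat_lit 360452) (nat_lit 0) (.e (nat_lit 7271) (nat_lit 385) (.e (nat_lit 122918) (nat_lit 15) (.e (nat_lit 360491) (nat_lit 22) (.e (nat_lit 778360) (nat_lit 9) .nil)))))) (.g (nat_lit 5) .nil .nil))) 
(.lf (nat_lit 8796) (.g (nat_lit 3101) (.e (nat_lit 324) (nat_lit 24) (.e (nat_lit 360452) (nat_lit 0) (.e (nat_lit 7272) (nat_lit 385) (.e (nat_lit 122919) (nat_lit 15) (.e (nat_lit 360491) (nat_lit 22) (.e (nat_lit 778362) (nat_lit 9) .nil)))))) (.g (nat_lit 0) .nil .nil)))))) (.nd (nat_lit 2) (.nd (nat_lit 3) (.nd (nat_lit 4) 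
(.lf (nat_lit 8770) (.g (nat_lit 2666) (.e (nat_lit 324) (nat_lit 24) (.e (nat_lit 360452) (nat_lit 0) (.e (nat_lit 7271) (nat_lit 385) (.e (nat_lit 122916) (nat_lit 14) (.e (nat_lit 352322) (nat_lit 26) (.e (nat_lit 147466) (nat_lit 9) .nil)))))) (.g (nat_lit 6) .nil .nil))) 
(.lf (nat_lit 8786) (.g (nat_lit 2971) (.e (nat_lit 324) (nat_lit 24) (.e (nat_lit 360452) (nat_lit 0) (.e (nat_lit 7272) (nat_lit 385) (.e (nat_lit 122916) (nat_lit 14) (.e (nat_lit 352322) (nat_lit 26) (.e (nat_lit 147466) (nat_lit 9) .nil)))))) (.g (nat_lit 6) .nil .nil)))) (.nd (nat_lit 4) 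
(.lf (nat_lit 8778) (.g (nat_lit 710) (.e (nat_lit 324) (nat_lit 24) (.e (nat_lit 360452) (nat_lit 0) (.e (nat_lit 7271) (nat_lit 385) (.e (nat_lit 122918) (nat_lit 15) .nil)))) .nil)) 
(.lf (nat_lit 8794) (.g (nat_lit 3226) (.e (nat_lit 324) (nat_lit 24) (.e (nat_lit 360452) (nat_lit 0) (.e (nat_lit 7272) (nat_lit 385) (.e (nat_lit 122917) (nat_lit 15) (.e (nat_lit 360492) (nat_lit 22) (.e (nat_lit 778361) (nat_lit 9) .nil)))))) (.g (nat_lit 0) .nil .nil))))) (.nd (nat_lit 3) (.nd (nat_lit 4) 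
(.lf (nat_lit 8774) (.g (nat_lit 2184) (.e (nat_lit 324) (nat_lit 24) (.e (nat_lit 360452) (nat_lit 0) (.e (nat_lit 7271) (nat_lit 385) (.e (nat_lit 122917) (nat_lit 15) (.e (nat_lit 360492) (nat_lit 22) (.e (nat_lit 778359) (nat_lit 9) .nil)))))) (.g (nat_lit 0) .nil .nil))) 
(.lf (nat_lit 8790) (.g (nat_lit 2824) (.e (nat_lit 324) (nat_lit 24) (.e (nat_lit 360452) (nat_lit 0) (.e (nat_lit 7272) (nat_lit 385) (.e (nat_lit 122917) (nat_lit 15) (.e (nat_lit 360491) (nat_lit 22) (.e (nat_lit 778359) (nat_lit 9) .nil)))))) (.g (nat_lit 0) .nil .nil)))) (.nd (nat_lit 4) 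
(.lf (nat_lit 8782) (.g (nat_lit 2313) (.e (nat_lit 324) (nat_lit 24) (.e (nat_lit 360452) (nat_lit 0) (.e (nat_lit 7271) (nat_lit 385) (.e (nat_lit 122919) (nat_lit 15) (.e (nat_lit 360491) (nat_lit 22) (.e (nat_lit 778359) (nat_lit 9) .nil)))))) (.g (nat_lit 0) .nil .nil))) 
(.lf (nat_lit 8798) (.g (nat_lit 3101) (.e (nat_lit 324) (nat_lit 24) (.e (nat_lit 360452) (nat_lit 0) (.e (nat_lit 7272) (nat_lit 385) (.e (nat_lit 122919) (nat_lit 15) (.e (nat_lit 360492) (nat_lit 22) (.e (nat_lit 778361) (nat_lit 9) .nil)))))) (.g (nat_lit 0) .nil .nil))))))) (.nd (nat_lit 1) (.nd (nat_lit 2) (.nd (nat_lit 3) (.nd (nat_lit 4) 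
(.lf (nat_lit 8769) (.g (nat_lit 2807) (.e (nat_lit 324) (nat_lit 24) (.e (nat_lit 360452) (nat_lit 0) (.e (nat_lit 7270) (nat_lit 385) (.e (nat_lit 122919) (nat_lit 15) (.e (nat_lit 360492) (nat_lit 22) (.e (nat_lit 778360) (nat_lit 9) .nil)))))) (.g (nat_lit 5) .nil .nil))) 
(.lf (nat_lit 8785) (.g (nat_lit 2875) (.e (nat_lit 324) (nat_lit 24) (.e (nat_lit 360452) (nat_lit 0) (.e (nat_lit 7271) (nat_lit 385) (.e (nat_lit 122919) (nat_lit 15) (.e (nat_lit 360492) (nat_lit 22) (.e (nat_lit 778361) (nat_lit 9) .nil)))))) (.g (nat_lit 0) .nil .nil)))) (.nd (nat_lit 4) 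
(.lf (nat_lit 8777) (.g (nat_lit 2617) (.e (nat_lit 324) (nat_lit 24) (.e (nat_lit 360452) (nat_lit 0) (.e (nat_lit 7271) (nat_lit 385) (.e (nat_lit 122917) (nat_lit 15) (.e (nat_lit 360492) (nat_lit 22) (.e (nat_lit 778362) (nat_lit 9) .nil)))))) (.g (nat_lit 0) .nil .nil))) 
(.lf (nat_lit 8793) (.g (nat_lit 2615) (.e (nat_lit 324) (nat_lit 24) (.e (nat_lit 360452) (nat_lit 0) (.e (nat_lit 7272) (nat_lit 385) (.e (nat_lit 122917) (nat_lit 15) (.e (nat_lit 360492) (nat_lit 22) (.e (nat_lit 778360) (nat_lit 9) .nil)))))) (.g (nat_lit 5) .nil .nil))))) (.nd (nat_lit 3) (.nd (nat_lit 4) 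
(.lf (nat_lit 8773) (.g (nat_lit 2202) (.e (nat_lit 324) (nat_lit 24) (.e (nat_lit 360452) (nat_lit 0) (.e (nat_lit 7271) (nat_lit 385) (.e (nat_lit 122917) (nat_lit 15) (.e (nat_lit 360491) (nat_lit 22) (.e (nat_lit 778359) (nat_lit 9) .nil)))))) (.g (nat_lit 0) .nil .nil))) 
(.lf (nat_lit 8789) (.g (nat_lit 3311) (.e (nat_lit 324) (nat_lit 24) (.e (nat_lit 360452) (nat_lit 0) (.e (nat_lit 7272) (nat_lit 385) (.e (nat_lit 122916) (nat_lit 14) (.e (nat_lit 352324) (nat_lit 26) (.e (nat_lit 147467) (nat_lit 9) .nil)))))) (.g (nat_lit 0) .nil .nil)))) (.nd (nat_lit 4) 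
(.lf (nat_lit 8781) (.g (nat_lit 2326) (.e (nat_lit 324) (nat_lit 24) (.e (nat_lit 360452) (nat_lit 0) (.e (nat_lit 7271) (nat_lit 385) (.e (nat_lit 122918) (nat_lit 15) (.e (nat_lit 360491) (nat_lit 22) (.e (nat_lit 778362) (nat_lit 9) .nil)))))) (.g (nat_lit 0) .nil .nil))) 
(.lf (nat_lit 8797) (.g (nat_lit 2503) (.e (nat_lit 324) (nat_lit 24) (.e (nat_lit 360452) (nat_lit 0) (.e (nat_lit 7272) (nat_lit 385) (.e (nat_lit 122919) (nat_lit 15) (.e (nat_lit 360492) (nat_lit 22) (.e (nat_lit 778360) (nat_lit 9) .nil)))))) (.g (nat_lit 5) .nil .nil)))))) (.nd (nat_lit 2) (.nd (nat_lit 3) (.nd (nat_lit 4) 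
(.lf (nat_lit 8771) (.g (nat_lit 2393) (.e (nat_lit 324) (nat_lit 24) (.e (nat_lit 360452) (nat_lit 0) (.e (nat_lit 7271) (nat_lit 385) (.e (nat_lit 122916) (nat_lit 14) (.e (nat_lit 352322) (nat_lit 26) (.e (nat_lit 147467) (nat_lit 9) .nil)))))) (.g (nat_lit 6) .nil .nil))) 
(.lf (nat_lit 8787) (.g (nat_lit 2710) (.e (nat_lit 324) (nat_lit 24) (.e (nat_lit 360452) (nat_lit 0) (.e (nat_lit 7272) (nat_lit 385) (.e (nat_lit 122916) (nat_lit 14) (.e (nat_lit 352322) (nat_lit 26) (.e (nat_lit 147467) (nat_lit 9) .nil)))))) (.g (nat_lit 6) .nil .nil)))) (.nd (nat_lit 4) 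
(.lf (nat_lit 8779) (.g (nat_lit 1574) (.e (nat_lit 324) (nat_lit 24) (.e (nat_lit 360452) (nat_lit 0) (.e (nat_lit 7271) (nat_lit 385) (.e (nat_lit 122918) (nat_lit 15) (.e (nat_lit 360491) (nat_lit 22) (.e (nat_lit 778359) (nat_lit 9) .nil)))))) (.g (nat_lit 5) .nil .nil))) 
(.lf (nat_lit 8795) (.g (nat_lit 2621) (.e (nat_lit 324) (nat_lit 24) (.e (nat_lit 360452) (nat_lit 0) (.e (nat_lit 7272) (nat_lit 385) (.e (nat_lit 122919) (nat_lit 15) (.e (nat_lit 360491) (nat_lit 22) (.e (nat_lit 778360) (nat_lit 9) .nil)))))) (.g (nat_lit 0) .nil .nil))))) (.nd (nat_lit 3) (.nd (nat_lit 4) 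
(.lf (nat_lit 8775) (.g (nat_lit 2006) (.e (nat_lit 324) (nat_lit 24) (.e (nat_lit 360452) (nat_lit 0) (.e (nat_lit 7271) (nat_lit 385) (.e (nat_lit 122917) (nat_lit 15) (.e (nat_lit 360492) (nat_lit 22) (.e (nat_lit 778360) (nat_lit 9) .nil)))))) (.g (nat_lit 5) .nil .nil))) 
(.lf (nat_lit 8791) (.g (nat_lit 3413) (.e (nat_lit 324) (nat_lit 24) (.e (nat_lit 360452) (nat_lit 0) (.e (nat_lit 7272) (nat_lit 385) (.e (nat_lit 122917) (nat_lit 15) (.e (nat_lit 360491) (nat_lit 22) (.e (nat_lit 778362) (nat_lit 9) .nil)))))) (.g (nat_lit 0) .nil .nil)))) (.nd (nat_lit 4) 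
(.lf (nat_lit 8783) (.g (nat_lit 2402) (.e (nat_lit 324) (nat_lit 24) (.e (nat_lit 360452) (nat_lit 0) (.e (nat_lit 7271) (nat_lit 385) (.e (nat_lit 122919) (nat_lit 15) (.e (nat_lit 360491) (nat_lit 22) (.e (nat_lit 778360) (nat_lit 9) .nil)))))) (.g (nat_lit 0) .nil .nil))) 
(.lf (nat_lit 8799) (.g (nat_lit 440) (.e (nat_lit 324) (nat_lit 24) (.e (nat_lit 360452) (nat_lit 0) (.e (nat_lit 7273) (nat_lit 385) .nil))) .nil)))))))

noncomputable def tv123 : DT := (.nd (nat_lit 0) (.nd (nat_lit 1) (.nd (nat_lit 2) (.nd (nat_lit 3) (.nd (nat_lit 4) 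
(.lf (nat_lit 8800) (.g (nat_lit 2105) (.e (nat_lit 324) (nat_lit 24) (.e (nat_lit 360452) (nat_lit 0) (.e (nat_lit 7273) (nat_lit 385) (.e (nat_lit 122916) (nat_lit 14) (.e (nat_lit 352322) (nat_lit 26) (.e (nat_lit 147466) (nat_lit 9) .nil)))))) (.g (nat_lit 5) .nil .nil))) 
(.lf (nat_lit 8816) (.g (nat_lit 1757) (.e (nat_lit 324) (nat_lit 24) (.e (nat_lit 360464) (nat_lit 2) (.e (nat_lit 507908) (nat_lit 0) (.e (nat_lit 5412) (nat_lit 303) (.e (nat_lit 73753) (nat_lit 8) (.e (nat_lit 557064) (nat_lit 9) .nil)))))) (.g (nat_lit 5) .nil .nil)))) (.nd (nat_lit 4) 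
(.lf (nat_lit 8808) (.g (nat_lit 1974) (.e (nat_lit 324) (nat_lit 24) (.e (nat_lit 360452) (nat_lit 0) (.e (nat_lit 7273) (nat_lit 385) (.e (nat_lit 122919) (nat_lit 15) (.e (nat_lit 360491) (nat_lit 22) (.e (nat_lit 778359) (nat_lit 9) .nil)))))) (.g (nat_lit 0) .nil .nil))) 
(.lf (nat_lit 8824) (.g (nat_lit 2402) (.e (nat_lit 324) (nat_lit 24) (.e (nat_lit 360466) (nat_lit 3) (.e (nat_lit 516098) (nat_lit 0) (.e (nat_lit 7591) (nat_lit 407) (.e (nat_lit 73755) (nat_lit 8) (.e (nat_lit 557065) (nat_lit 9) .nil)))))) (.g (nat_lit 6) .nil .nil))))) (.nd (nat_lit 3) (.nd (nat_lit 4) 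
(.lf (nat_lit 8804) (.g (nat_lit 2111) (.e (nat_lit 324) (nat_lit 24) (.e (nat_lit 360452) (nat_lit 0) (.e (nat_lit 7273) (nat_lit 385) (.e (nat_lit 122917) (nat_lit 15) (.e (nat_lit 360491) (nat_lit 22) (.e (nat_lit 778359) (nat_lit 9) .nil)))))) (.g (nat_lit 0) .nil .nil))) 
(.lf (nat_lit 8820) (.g (nat_lit 2569) (.e (nat_lit 324) (nat_lit 24) (.e (nat_lit 360466) (nat_lit 3) (.e (nat_lit 516097) (nat_lit 0) (.e (nat_lit 7591) (nat_lit 407) (.e (nat_lit 73755) (nat_lit 8) (.e (nat_lit 557065) (nat_lit 9) .nil)))))) (.g (nat_lit 6) .nil .nil)))) (.nd (nat_lit 4) 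
(.lf (nat_lit 8812) (.g (nat_lit 1926) (.e (nat_lit 324) (nat_lit 24) (.e (nat_lit 360452) (nat_lit 0) (.e (nat_lit 7273) (nat_lit 385) (.e (nat_lit 122919) (nat_lit 15) (.e (nat_lit 360492) (nat_lit 22) (.e (nat_lit 778360) (nat_lit 9) .nil)))))) (.g (nat_lit 5) .nil .nil))) 
(.lf (nat_lit 8828) (.g (nat_lit 1485) (.e (nat_lit 324) (nat_lit 24) (.e (nat_lit 360466) (nat_lit 3) (.e (nat_lit 516139) (nat_lit 7) (.e (nat_lit 409616) (nat_lit 10) (.e (nat_lit 7936) (nat_lit 301) (.e (nat_lit 57476) (nat_lit 28) (.e (nat_lit 557066) (nat_lit 9) .nil))))))) (.g (nat_lit 4) .nil .nil)))))) (.nd (nat_lit 2) (.nd (nat_lit 3) (.nd (nat_lit 4) 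
(.lf (nat_lit 8802) (.g (nat_lit 2487) (.e (nat_lit 324) (nat_lit 24) (.e (nat_lit 360452) (nat_lit 0) (.e (nat_lit 7273) (nat_lit 385) (.e (nat_lit 122916) (nat_lit 14) (.e (nat_lit 352324) (nat_lit 26) (.e (nat_lit 147466) (nat_lit 9) .nil)))))) (.g (nat_lit 5) .nil .nil))) 
(.lf (nat_lit 8818) (.g (nat_lit 1187) (.e (nat_lit 324) (nat_lit 24) (.e (nat_lit 360464) (nat_lit 2) (.e (nat_lit 507923) (nat_lit 6) (.e (nat_lit 286754) (nat_lit 10) (.e (nat_lit 344130) (nat_lit 26) (.e (nat_lit 557066) (nat_lit 9) .nil)))))) (.g (nat_lit 5) .nil .nil)))) (.nd (nat_lit 4) 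
(.lf (nat_lit 8810) (.g (nat_lit 2544) (.e (nat_lit 324) (nat_lit 24) (.e (nat_lit 360452) (nat_lit 0) (.e (nat_lit 7273) (nat_lit 385) (.e (nat_lit 122919) (nat_lit 15) (.e (nat_lit 360491) (nat_lit 22) (.e (nat_lit 778362) (nat_lit 9) .nil)))))) (.g (nat_lit 0) .nil .nil))) 
(.lf (nat_lit 8826) (.g (nat_lit 2885) (.e (nat_lit 324) (nat_lit 24) (.e (nat_lit 360466) (nat_lit 3) (.e (nat_lit 516098) (nat_lit 0) (.e (nat_lit 7593) (nat_lit 407) (.e (nat_lit 73755) (nat_lit 8) (.e (nat_lit 557066) (nat_lit 9) .nil)))))) (.g (nat_lit 0) .nil .nil))))) (.nd (nat_lit 3) (.nd (nat_lit 4) 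
(.lf (nat_lit 8806) (.g (nat_lit 2466) (.e (nat_lit 324) (nat_lit 24) (.e (nat_lit 360452) (nat_lit 0) (.e (nat_lit 7273) (nat_lit 385) (.e (nat_lit 122917) (nat_lit 15) (.e (nat_lit 360492) (nat_lit 22) (.e (nat_lit 778361) (nat_lit 9) .nil)))))) (.g (nat_lit 0) .nil .nil))) 
(.lf (nat_lit 8822) (.g (nat_lit 2511) (.e (nat_lit 324) (nat_lit 24) (.e (nat_lit 360466) (nat_lit 3) (.e (nat_lit 516097) (nat_lit 0) (.e (nat_lit 7593) (nat_lit 407) (.e (nat_lit 73755) (nat_lit 8) (.e (nat_lit 557065) (nat_lit 9) .nil)))))) (.g (nat_lit 5) .nil .nil)))) (.nd (nat_lit 4) 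
(.lf (nat_lit 8814) (.g (nat_lit 1698) (.e (nat_lit 324) (nat_lit 24) (.e (nat_lit 360464) (nat_lit 2) (.e (nat_lit 507907) (nat_lit 0) (.e (nat_lit 5412) (nat_lit 303) (.e (nat_lit 73753) (nat_lit 8) (.e (nat_lit 557064) (nat_lit 9) .nil)))))) (.g (nat_lit 5) .nil .nil))) 
(.lf (nat_lit 8830) (.g (nat_lit 1301) (.e (nat_lit 324) (nat_lit 24) (.e (nat_lit 360466) (nat_lit 3) (.e (nat_lit 516144) (nat_lit 9) (.e (nat_lit 426446) (nat_lit 20) (.e (nat_lit 114716) (nat_lit 22) (.e (nat_lit 90123) (nat_lit 9) .nil)))))) (.g (nat_lit 4) .nil .nil))))))) (.nd (nat_lit 1) (.nd (nat_lit 2) (.nd (nat_lit 3) (.nd (nat_lit 4) 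
(.lf (nat_lit 8801) (.g (nat_lit 1849) (.e (nat_lit 324) (nat_lit 24) (.e (nat_lit 360452) (nat_lit 0) (.e (nat_lit 7273) (nat_lit 385) (.e (nat_lit 122916) (nat_lit 14) (.e (nat_lit 352322) (nat_lit 26) (.e (nat_lit 147467) (nat_lit 9) .nil)))))) (.g (nat_lit 4) .nil .nil))) 
(.lf (nat_lit 8817) (.g (nat_lit 2345) (.e (nat_lit 324) (nat_lit 24) (.e (nat_lit 360464) (nat_lit 2) (.e (nat_lit 507922) (nat_lit 6) (.e (nat_lit 286756) (nat_lit 10) (.e (nat_lit 344129) (nat_lit 26) (.e (nat_lit 557066) (nat_lit 9) .nil)))))) (.g (nat_lit 0) .nil .nil)))) (.nd (nat_lit 4) 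
(.lf (nat_lit 8809) (.g (nat_lit 2051) (.e (nat_lit 324) (nat_lit 24) (.e (nat_lit 360452) (nat_lit 0) (.e (nat_lit 7273) (nat_lit 385) (.e (nat_lit 122919) (nat_lit 15) (.e (nat_lit 360491) (nat_lit 22) (.e (nat_lit 778360) (nat_lit 9) .nil)))))) (.g (nat_lit 6) .nil .nil))) 
(.lf (nat_lit 8825) (.g (nat_lit 2995) (.e (nat_lit 324) (nat_lit 24) (.e (nat_lit 360466) (nat_lit 3) (.e (nat_lit 516098) (nat_lit 0) (.e (nat_lit 7593) (nat_lit 407) (.e (nat_lit 73753) (nat_lit 8) (.e (nat_lit 557066) (nat_lit 9) .nil)))))) (.g (nat_lit 0) .nil .nil))))) (.nd (nat_lit 3) (.nd (nat_lit 4) 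
(.lf (nat_lit 8805) (.g (nat_lit 1856) (.e (nat_lit 324) (nat_lit 24) (.e (nat_lit 360452) (nat_lit 0) (.e (nat_lit 7273) (nat_lit 385) (.e (nat_lit 122917) (nat_lit 15) (.e (nat_lit 360492) (nat_lit 22) (.e (nat_lit 778360) (nat_lit 9) .nil)))))) (.g (nat_lit 5) .nil .nil))) 
(.lf (nat_lit 8821) (.g (nat_lit 3104) (.e (nat_lit 324) (nat_lit 24) (.e (nat_lit 360466) (nat_lit 3) (.e (nat_lit 516097) (nat_lit 0) (.e (nat_lit 7591) (nat_lit 407) (.e (nat_lit 73755) (nat_lit 8) (.e (nat_lit 557066) (nat_lit 9) .nil)))))) (.g (nat_lit 0) .nil .nil)))) (.nd (nat_lit 4) 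
(.lf (nat_lit 8813) (.g (nat_lit 2691) (.e (nat_lit 324) (nat_lit 24) (.e (nat_lit 360464) (nat_lit 2) (.e (nat_lit 507907) (nat_lit 0) (.e (nat_lit 5409) (nat_lit 303) (.e (nat_lit 73753) (nat_lit 8) (.e (nat_lit 557065) (nat_lit 9) .nil)))))) (.g (nat_lit 0) .nil .nil))) 
(.lf (nat_lit 8829) (.g (nat_lit 1396) (.e (nat_lit 324) (nat_lit 24) (.e (nat_lit 360466) (nat_lit 3) (.e (nat_lit 516144) (nat_lit 9) (.e (nat_lit 426446) (nat_lit 20) (.e (nat_lit 114715) (nat_lit 22) (.e (nat_lit 90121) (nat_lit 9) .nil)))))) (.g (nat_lit 5) .nil .nil)))))) (.nd (nat_lit 2) (.nd (nat_lit 3) (.nd (nat_lit 4) 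
(.lf (nat_lit 8803) (.g (nat_lit 2436) (.e (nat_lit 324) (nat_lit 24) (.e (nat_lit 360452) (nat_lit 0) (.e (nat_lit 7273) (nat_lit 385) (.e (nat_lit 122916) (nat_lit 14) (.e (nat_lit 352324) (nat_lit 26) (.e (nat_lit 147467) (nat_lit 9) .nil)))))) (.g (nat_lit 5) .nil .nil))) 
(.lf (nat_lit 8819) (.g (nat_lit 2922) (.e (nat_lit 324) (nat_lit 24) (.e (nat_lit 360466) (nat_lit 3) (.e (nat_lit 516097) (nat_lit 0) (.e (nat_lit 7591) (nat_lit 407) (.e (nat_lit 73753) (nat_lit 8) (.e (nat_lit 557066) (nat_lit 9) .nil)))))) (.g (nat_lit 6) .nil .nil)))) (.nd (nat_lit 4) 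
(.lf (nat_lit 8811) (.g (nat_lit 2059) (.e (nat_lit 324) (nat_lit 24) (.e (nat_lit 360452) (nat_lit 0) (.e (nat_lit 7273) (nat_lit 385) (.e (nat_lit 122919) (nat_lit 15) (.e (nat_lit 360492) (nat_lit 22) (.e (nat_lit 778359) (nat_lit 9) .nil)))))) (.g (nat_lit 6) .nil .nil))) 
(.lf (nat_lit 8827) (.g (nat_lit 707) (.e (nat_lit 324) (nat_lit 24) (.e (nat_lit 360466) (nat_lit 3) (.e (nat_lit 516099) (nat_lit 0) .nil))) .nil)))) (.nd (nat_lit 3) (.nd (nat_lit 4) 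
(.lf (nat_lit 8807) (.g (nat_lit 945) (.e (nat_lit 324) (nat_lit 24) (.e (nat_lit 360452) (nat_lit 0) (.e (nat_lit 7273) (nat_lit 385) (.e (nat_lit 122918) (nat_lit 15) .nil)))) .nil)) 
(.lf (nat_lit 8823) (.g (nat_lit 3067) (.e (nat_lit 324) (nat_lit 24) (.e (nat_lit 360466) (nat_lit 3) (.e (nat_lit 516097) (nat_lit 0) (.e (nat_lit 7593) (nat_lit 407) (.e (nat_lit 73755) (nat_lit 8) (.e (nat_lit 557066) (nat_lit 9) .nil)))))) (.g (nat_lit 6) .nil .nil)))) (.nd (nat_lit 4) 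
(.lf (nat_lit 8815) (.g (nat_lit 2715) (.e (nat_lit 324) (nat_lit 24) (.e (nat_lit 360464) (nat_lit 2) (.e (nat_lit 507908) (nat_lit 0) (.e (nat_lit 5409) (nat_lit 303) (.e (nat_lit 73753) (nat_lit 8) (.e (nat_lit 557065) (nat_lit 9) .nil)))))) (.g (nat_lit 0) .nil .nil))) 
(.lf (nat_lit 8831) (.g (nat_lit 1976) (.e (nat_lit 324) (nat_lit 24) (.e (nat_lit 360466) (nat_lit 3) (.e (nat_lit 516144) (nat_lit 9) (.e (nat_lit 426446) (nat_lit 20) (.e (nat_lit 114716) (nat_lit 22) (.e (nat_lit 90128) (nat_lit 9) .nil)))))) (.g (nat_lit 6) .nil .nil))))))))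

noncomputable def tv124 : DT := (.nd (nat_lit 0) (.nd (nat_lit 1) (.nd (nat_lit 2) (.nd (nat_lit 3) (.nd (nat_lit 4) (.nd (nat_lit 5) 
(.lf (nat_lit 8832) (.g (nat_lit 1742) (.e (nat_lit 324) (nat_lit 24) (.e (nat_lit 360466) (nat_lit 3) (.e (nat_lit 516144) (nat_lit 9) (.e (nat_lit 426448) (nat_lit 20) (.e (nat_lit 114714) (nat_lit 22) (.e (nat_lit 90127) (nat_lit 9) .nil)))))) (.g (nat_lit 4) .nil .nil))) 
(.lf (nat_lit 8864) (.g (nat_lit 1857) (.e (nat_lit 324) (nat_lit 24) (.e (nat_lit 360466) (nat_lit 3) (.e (nat_lit 516147) (nat_lit 9) (.e (nat_lit 426448) (nat_lit 20) (.e (nat_lit 114715) (nat_lit 22) (.e (nat_lit 90121) (nat_lit 9) .nil)))))) (.g (nat_lit 5) .nil .nil)))) (.nd (nat_lit 5) 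
(.lf (nat_lit 8848) (.g (nat_lit 1448) (.e (nat_lit 324) (nat_lit 24) (.e (nat_lit 360466) (nat_lit 3) (.e (nat_lit 516146) (nat_lit 9) (.e (nat_lit 426446) (nat_lit 20) (.e (nat_lit 114714) (nat_lit 22) (.e (nat_lit 90123) (nat_lit 9) .nil)))))) (.g (nat_lit 4) .nil .nil))) 
(.lf (nat_lit 8880) (.g (nat_lit 2490) (.e (nat_lit 324) (nat_lit 24) (.e (nat_lit 360466) (nat_lit 3) (.e (nat_lit 516179) (nat_lit 15) (.e (nat_lit 475214) (nat_lit 42) (.e (nat_lit 720938) (nat_lit 22) (.e (nat_lit 90127) (nat_lit 9) .nil)))))) (.g (nat_lit 6) .nil .nil))))) (.nd (nat_lit 4) (.nd (nat_lit 5) 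
(.lf (nat_lit 8840) (.g (nat_lit 2625) (.e (nat_lit 324) (nat_lit 24) (.e (nat_lit 360466) (nat_lit 3) (.e (nat_lit 516146) (nat_lit 9) (.e (nat_lit 426361) (nat_lit 15) (.e (nat_lit 2203) (nat_lit 144) (.e (nat_lit 720938) (nat_lit 22) (.e (nat_lit 90128) (nat_lit 9) .nil))))))) (.g (nat_lit 0) .nil .nil))) 
(.lf (nat_lit 8872) (.g (nat_lit 812) (.e (nat_lit 324) (nat_lit 24) (.e (nat_lit 360466) (nat_lit 3) (.e (nat_lit 516150) (nat_lit 9) (.e (nat_lit 433920) (nat_lit 20) .nil)))) .nil))) (.nd (nat_lit 5) 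
(.lf (nat_lit 8856) (.g (nat_lit 2565) (.e (nat_lit 324) (nat_lit 24) (.e (nat_lit 360466) (nat_lit 3) (.e (nat_lit 516146) (nat_lit 9) (.e (nat_lit 426448) (nat_lit 20) (.e (nat_lit 114716) (nat_lit 22) (.e (nat_lit 90128) (nat_lit 9) .nil)))))) (.g (nat_lit 0) .nil .nil))) 
(.lf (nat_lit 8888) (.g (nat_lit 1830) (.e (nat_lit 324) (nat_lit 24) (.e (nat_lit 360466) (nat_lit 3) (.e (nat_lit 516180) (nat_lit 15) (.e (nat_lit 475214) (nat_lit 42) (.e (nat_lit 720937) (nat_lit 22) (.e (nat_lit 90127) (nat_lit 9) .nil)))))) (.g (nat_lit 6) .nil .nil)))))) (.nd (nat_lit 3) (.nd (nat_lit 4) (.nd (nat_lit 5) 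
(.lf (nat_lit 8836) (.g (nat_lit 272) (.e (nat_lit 324) (nat_lit 24) (.e (nat_lit 360466) (nat_lit 3) (.e (nat_lit 516146) (nat_lit 9) .nil))) .nil)) 
(.lf (nat_lit 8868) (.g (nat_lit 2337) (.e (nat_lit 324) (nat_lit 24) (.e (nat_lit 360466) (nat_lit 3) (.e (nat_lit 516150) (nat_lit 9) (.e (nat_lit 426448) (nat_lit 20) (.e (nat_lit 114714) (nat_lit 22) (.e (nat_lit 90127) (nat_lit 9) .nil)))))) (.g (nat_lit 5) .nil .nil)))) (.nd (nat_lit 5) 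
(.lf (nat_lit 8852) (.g (nat_lit 2215) (.e (nat_lit 324) (nat_lit 24) (.e (nat_lit 360466) (nat_lit 3) (.e (nat_lit 516146) (nat_lit 9) (.e (nat_lit 426448) (nat_lit 20) (.e (nat_lit 114714) (nat_lit 22) (.e (nat_lit 90123) (nat_lit 9) .nil)))))) (.g (nat_lit 5) .nil .nil))) 
(.lf (nat_lit 8884) (.g (nat_lit 1931) (.e (nat_lit 324) (nat_lit 24) (.e (nat_lit 360466) (nat_lit 3) (.e (nat_lit 516180) (nat_lit 15) (.e (nat_lit 475212) (nat_lit 42) (.e (nat_lit 720937) (nat_lit 22) (.e (nat_lit 90128) (nat_lit 9) .nil)))))) (.g (nat_lit 0) .nil .nil))))) (.nd (nat_lit 4) (.nd (nat_lit 5) 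
(.lf (nat_lit 8844) (.g (nat_lit 1266) (.e (nat_lit 324) (nat_lit 24) (.e (nat_lit 360466) (nat_lit 3) (.e (nat_lit 516146) (nat_lit 9) (.e (nat_lit 426361) (nat_lit 15) (.e (nat_lit 2206) (nat_lit 144) (.e (nat_lit 720937) (nat_lit 22) (.e (nat_lit 90127) (nat_lit 9) .nil))))))) (.g (nat_lit 4) .nil .nil))) 
(.lf (nat_lit 8876) (.g (nat_lit 1493) (.e (nat_lit 324) (nat_lit 24) (.e (nat_lit 360466) (nat_lit 3) (.e (nat_lit 516179) (nat_lit 15) (.e (nat_lit 475212) (nat_lit 42) (.e (nat_lit 720937) (nat_lit 22) (.e (nat_lit 90127) (nat_lit 9) .nil)))))) (.g (nat_lit 4) .nil .nil)))) (.nd (nat_lit 5) 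
(.lf (nat_lit 8860) (.g (nat_lit 1382) (.e (nat_lit 324) (nat_lit 24) (.e (nat_lit 360466) (nat_lit 3) (.e (nat_lit 516147) (nat_lit 9) (.e (nat_lit 426446) (nat_lit 20) (.e (nat_lit 114716) (nat_lit 22) (.e (nat_lit 90123) (nat_lit 9) .nil)))))) (.g (nat_lit 5) .nil .nil))) 
(.lf (nat_lit 8892) (.g (nat_lit 1100) (.e (nat_lit 324) (nat_lit 24) (.e (nat_lit 360466) (nat_lit 3) (.e (nat_lit 516182) (nat_lit 15) (.e (nat_lit 475214) (nat_lit 42) (.e (nat_lit 720938) (nat_lit 22) .nil))))) .nil)))))) (.nd (nat_lit 2) (.nd (nat_lit 3) (.nd (nat_lit 4) (.nd (nat_lit 5) 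
(.lf (nat_lit 8834) (.g (nat_lit 1675) (.e (nat_lit 324) (nat_lit 24) (.e (nat_lit 360466) (nat_lit 3) (.e (nat_lit 516144) (nat_lit 9) (.e (nat_lit 426448) (nat_lit 20) (.e (nat_lit 114716) (nat_lit 22) (.e (nat_lit 90128) (nat_lit 9) .nil)))))) (.g (nat_lit 4) .nil .nil))) 
(.lf (nat_lit 8866) (.g (nat_lit 1065) (.e (nat_lit 324) (nat_lit 24) (.e (nat_lit 360466) (nat_lit 3) (.e (nat_lit 516150) (nat_lit 9) (.e (nat_lit 426360) (nat_lit 15) .nil)))) .nil))) (.nd (nat_lit 5) 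
(.lf (nat_lit 8850) (.g (nat_lit 2102) (.e (nat_lit 324) (nat_lit 24) (.e (nat_lit 360466) (nat_lit 3) (.e (nat_lit 516146) (nat_lit 9) (.e (nat_lit 426446) (nat_lit 20) (.e (nat_lit 114715) (nat_lit 22) (.e (nat_lit 90121) (nat_lit 9) .nil)))))) (.g (nat_lit 6) .nil .nil))) 
(.lf (nat_lit 8882) (.g (nat_lit 2187) (.e (nat_lit 324) (nat_lit 24) (.e (nat_lit 360466) (nat_lit 3) (.e (nat_lit 516179) (nat_lit 15) (.e (nat_lit 475214) (nat_lit 42) (.e (nat_lit 720941) (nat_lit 22) (.e (nat_lit 90127) (nat_lit 9) .nil)))))) (.g (nat_lit 5) .nil .nil))))) (.nd (nat_lit 4) (.nd (nat_lit 5) 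
(.lf (nat_lit 8842) (.g (nat_lit 2502) (.e (nat_lit 324) (nat_lit 24) (.e (nat_lit 360466) (nat_lit 3) (.e (nat_lit 516146) (nat_lit 9) (.e (nat_lit 426361) (nat_lit 15) (.e (nat_lit 2203) (nat_lit 144) (.e (nat_lit 720941) (nat_lit 22) (.e (nat_lit 90127) (nat_lit 9) .nil))))))) (.g (nat_lit 0) .nil .nil))) 
(.lf (nat_lit 8874) (.g (nat_lit 1290) (.e (nat_lit 324) (nat_lit 24) (.e (nat_lit 360466) (nat_lit 3) (.e (nat_lit 516179) (nat_lit 15) (.e (nat_lit 475211) (nat_lit 41) .nil)))) .nil))) (.nd (nat_lit 5) 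
(.lf (nat_lit 8858) (.g (nat_lit 770) (.e (nat_lit 324) (nat_lit 24) (.e (nat_lit 360466) (nat_lit 3) (.e (nat_lit 516146) (nat_lit 9) (.e (nat_lit 433920) (nat_lit 20) .nil)))) .nil)) 
(.lf (nat_lit 8890) (.g (nat_lit 1511) (.e (nat_lit 324) (nat_lit 24) (.e (nat_lit 360466) (nat_lit 3) (.e (nat_lit 516180) (nat_lit 15) (.e (nat_lit 475214) (nat_lit 42) (.e (nat_lit 720941) (nat_lit 22) .nil))))) .nil))))) (.nd (nat_lit 3) (.nd (nat_lit 4) (.nd (nat_lit 5) 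
(.lf (nat_lit 8838) (.g (nat_lit 840) (.e (nat_lit 324) (nat_lit 24) (.e (nat_lit 360466) (nat_lit 3) (.e (nat_lit 516146) (nat_lit 9) (.e (nat_lit 426361) (nat_lit 15) .nil)))) .nil)) 
(.lf (nat_lit 8870) (.g (nat_lit 1519) (.e (nat_lit 324) (nat_lit 24) (.e (nat_lit 360466) (nat_lit 3) (.e (nat_lit 516150) (nat_lit 9) (.e (nat_lit 426448) (nat_lit 20) (.e (nat_lit 114716) (nat_lit 22) .nil))))) .nil))) (.nd (nat_lit 5) 
(.lf (nat_lit 8854) (.g (nat_lit 2846) (.e (nat_lit 324) (nat_lit 24) (.e (nat_lit 360466) (nat_lit 3) (.e (nat_lit 516146) (nat_lit 9) (.e (nat_lit 426448) (nat_lit 20) (.e (nat_lit 114714) (nat_lit 22) (.e (nat_lit 90128) (nat_lit 9) .nil)))))) (.g (nat_lit 0) .nil .nil))) 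
(.lf (nat_lit 8886) (.g (nat_lit 1394) (.e (nat_lit 324) (nat_lit 24) (.e (nat_lit 360466) (nat_lit 3) (.e (nat_lit 516180) (nat_lit 15) (.e (nat_lit 475212) (nat_lit 42) (.e (nat_lit 720941) (nat_lit 22) (.e (nat_lit 90127) (nat_lit 9) .nil)))))) (.g (nat_lit 5) .nil .nil))))) (.nd (nat_lit 4) (.nd (nat_lit 5) 
(.lf (nat_lit 8846) (.g (nat_lit 1053) (.e (nat_lit 324) (nat_lit 24) (.e (nat_lit 360466) (nat_lit 3) (.e (nat_lit 516146) (nat_lit 9) (.e (nat_lit 426361) (nat_lit 15) (.e (nat_lit 2206) (nat_lit 144) (.e (nat_lit 720939) (nat_lit 22) (.e (nat_lit 90128) (nat_lit 9) .nil))))))) (.g (nat_lit 4) .nil .nil))) 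
(.lf (nat_lit 8878) (.g (nat_lit 1107) (.e (nat_lit 324) (nat_lit 24) (.e (nat_lit 360466) (nat_lit 3) (.e (nat_lit 516179) (nat_lit 15) (.e (nat_lit 475214) (nat_lit 42) (.e (nat_lit 728832) (nat_lit 20) .nil))))) .nil))) (.nd (nat_lit 5) 
(.lf (nat_lit 8862) (.g (nat_lit 1964) (.e (nat_lit 324) (nat_lit 24) (.e (nat_lit 360466) (nat_lit 3) (.e (nat_lit 516147) (nat_lit 9) (.e (nat_lit 426448) (nat_lit 20) (.e (nat_lit 114714) (nat_lit 22) (.e (nat_lit 90127) (nat_lit 9) .nil)))))) (.g (nat_lit 6) .nil .nil))) 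
(.lf (nat_lit 8894) (.g (nat_lit 1212) (.e (nat_lit 324) (nat_lit 24) (.e (nat_lit 360466) (nat_lit 3) (.e (nat_lit 516185) (nat_lit 16) (.e (nat_lit 491558) (nat_lit 10) .nil)))) .nil))))))) (.nd (nat_lit 1) (.nd (nat_lit 2) (.nd (nat_lit 3) (.nd (nat_lit 4) (.nd (nat_lit 5) 
(.lf (nat_lit 8833) (.g (nat_lit 1791) (.e (nat_lit 324) (nat_lit 24) (.e (nat_lit 360466) (nat_lit 3) (.e (nat_lit 516144) (nat_lit 9) (.e (nat_lit 426448) (nat_lit 20) (.e (nat_lit 114715) (nat_lit 22) (.e (nat_lit 90121) (nat_lit 9) .nil)))))) (.g (nat_lit 4) .nil .nil))) 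
(.lf (nat_lit 8865) (.g (nat_lit 1388) (.e (nat_lit 324) (nat_lit 24) (.e (nat_lit 360466) (nat_lit 3) (.e (nat_lit 516147) (nat_lit 9) (.e (nat_lit 426448) (nat_lit 20) (.e (nat_lit 114716) (nat_lit 22) (.e (nat_lit 90123) (nat_lit 9) .nil)))))) (.g (nat_lit 5) .nil .nil)))) (.nd (nat_lit 5) 
(.lf (nat_lit 8849) (.g (nat_lit 2476) (.e (nat_lit 324) (nat_lit 24) (.e (nat_lit 360466) (nat_lit 3) (.e (nat_lit 516146) (nat_lit 9) (.e (nat_lit 426446) (nat_lit 20) (.e (nat_lit 114714) (nat_lit 22) (.e (nat_lit 90128) (nat_lit 9) .nil)))))) (.g (nat_lit 0) .nil .nil))) 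
(.lf (nat_lit 8881) (.g (nat_lit 1901) (.e (nat_lit 324) (nat_lit 24) (.e (nat_lit 360466) (nat_lit 3) (.e (nat_lit 516179) (nat_lit 15) (.e (nat_lit 475214) (nat_lit 42) (.e (nat_lit 720939) (nat_lit 22) (.e (nat_lit 90128) (nat_lit 9) .nil)))))) (.g (nat_lit 4) .nil .nil))))) (.nd (nat_lit 4) (.nd (nat_lit 5) 
(.lf (nat_lit 8841) (.g (nat_lit 1916) (.e (nat_lit 324) (nat_lit 24) (.e (nat_lit 360466) (nat_lit 3) (.e (nat_lit 516146) (nat_lit 9) (.e (nat_lit 426361) (nat_lit 15) (.e (nat_lit 2203) (nat_lit 144) (.e (nat_lit 720941) (nat_lit 22) (.e (nat_lit 90123) (nat_lit 9) .nil))))))) (.g (nat_lit 6) .nil .nil))) 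
(.lf (nat_lit 8873) (.g (nat_lit 2179) (.e (nat_lit 324) (nat_lit 24) (.e (nat_lit 360466) (nat_lit 3) (.e (nat_lit 516179) (nat_lit 15) (.e (nat_lit 475210) (nat_lit 41) (.e (nat_lit 712706) (nat_lit 0) .nil))))) .nil))) (.nd (nat_lit 5) 
(.lf (nat_lit 8857) (.g (nat_lit 793) (.e (nat_lit 324) (nat_lit 24) (.e (nat_lit 360466) (nat_lit 3) (.e (nat_lit 516146) (nat_lit 9) (.e (nat_lit 426449) (nat_lit 20) .nil)))) .nil)) 
(.lf (nat_lit 8889) (.g (nat_lit 1855) (.e (nat_lit 324) (nat_lit 24) (.e (nat_lit 360466) (nat_lit 3) (.e (nat_lit 516180) (nat_lit 15) (.e (nat_lit 475214) (nat_lit 42) (.e (nat_lit 720938) (nat_lit 22) (.e (nat_lit 90127) (nat_lit 9) .nil)))))) (.g (nat_lit 6) .nil .nil)))))) (.nd (nat_lit 3) (.nd (nat_lit 4) (.nd (nat_lit 5) 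
(.lf (nat_lit 8837) (.g (nat_lit 1160) (.e (nat_lit 324) (nat_lit 24) (.e (nat_lit 360466) (nat_lit 3) (.e (nat_lit 516146) (nat_lit 9) (.e (nat_lit 426360) (nat_lit 15) .nil)))) .nil)) 
(.lf (nat_lit 8869) (.g (nat_lit 2501) (.e (nat_lit 324) (nat_lit 24) (.e (nat_lit 360466) (nat_lit 3) (.e (nat_lit 516150) (nat_lit 9) (.e (nat_lit 426448) (nat_lit 20) (.e (nat_lit 114715) (nat_lit 22) (.e (nat_lit 90121) (nat_lit 9) .nil)))))) (.g (nat_lit 6) .nil .nil)))) (.nd (nat_lit 5) 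
(.lf (nat_lit 8853) (.g (nat_lit 2659) (.e (nat_lit 324) (nat_lit 24) (.e (nat_lit 360466) (nat_lit 3) (.e (nat_lit 516146) (nat_lit 9) (.e (nat_lit 426448) (nat_lit 20) (.e (nat_lit 114714) (nat_lit 22) (.e (nat_lit 90127) (nat_lit 9) .nil)))))) (.g (nat_lit 6) .nil .nil))) 
(.lf (nat_lit 8885) (.g (nat_lit 1629) (.e (nat_lit 324) (nat_lit 24) (.e (nat_lit 360466) (nat_lit 3) (.e (nat_lit 516180) (nat_lit 15) (.e (nat_lit 475212) (nat_lit 42) (.e (nat_lit 720938) (nat_lit 22) (.e (nat_lit 90127) (nat_lit 9) .nil)))))) (.g (nat_lit 6) .nil .nil))))) (.nd (nat_lit 4) (.nd (nat_lit 5) 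
(.lf (nat_lit 8845) (.g (nat_lit 2282) (.e (nat_lit 324) (nat_lit 24) (.e (nat_lit 360466) (nat_lit 3) (.e (nat_lit 516146) (nat_lit 9) (.e (nat_lit 426361) (nat_lit 15) (.e (nat_lit 2206) (nat_lit 144) (.e (nat_lit 720937) (nat_lit 22) (.e (nat_lit 90128) (nat_lit 9) .nil))))))) (.g (nat_lit 0) .nil .nil))) 
(.lf (nat_lit 8877) (.g (nat_lit 1768) (.e (nat_lit 324) (nat_lit 24) (.e (nat_lit 360466) (nat_lit 3) (.e (nat_lit 516179) (nat_lit 15) (.e (nat_lit 475212) (nat_lit 42) (.e (nat_lit 720941) (nat_lit 22) (.e (nat_lit 90127) (nat_lit 9) .nil)))))) (.g (nat_lit 5) .nil .nil)))) (.nd (nat_lit 5) 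
(.lf (nat_lit 8861) (.g (nat_lit 1716) (.e (nat_lit 324) (nat_lit 24) (.e (nat_lit 360466) (nat_lit 3) (.e (nat_lit 516147) (nat_lit 9) (.e (nat_lit 426448) (nat_lit 20) (.e (nat_lit 114714) (nat_lit 22) (.e (nat_lit 90123) (nat_lit 9) .nil)))))) (.g (nat_lit 5) .nil .nil))) 
(.lf (nat_lit 8893) (.g (nat_lit 1835) (.e (nat_lit 324) (nat_lit 24) (.e (nat_lit 360466) (nat_lit 3) (.e (nat_lit 516184) (nat_lit 16) (.e (nat_lit 491558) (nat_lit 10) (.e (nat_lit 344129) (nat_lit 26) (.e (nat_lit 557066) (nat_lit 9) .nil)))))) (.g (nat_lit 4) .nil .nil))))))) (.nd (nat_lit 2) (.nd (nat_lit 3) (.nd (nat_lit 4) (.nd (nat_lit 5) 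
(.lf (nat_lit 8835) (.g (nat_lit 2975) (.e (nat_lit 324) (nat_lit 24) (.e (nat_lit 360466) (nat_lit 3) (.e (nat_lit 516145) (nat_lit 9) (.e (nat_lit 426448) (nat_lit 20) (.e (nat_lit 114715) (nat_lit 22) .nil))))) .nil)) 
(.lf (nat_lit 8867) (.g (nat_lit 1163) (.e (nat_lit 324) (nat_lit 24) (.e (nat_lit 360466) (nat_lit 3) (.e (nat_lit 516150) (nat_lit 9) (.e (nat_lit 426446) (nat_lit 20) .nil)))) .nil))) (.nd (nat_lit 5) 
(.lf (nat_lit 8851) (.g (nat_lit 2265) (.e (nat_lit 324) (nat_lit 24) (.e (nat_lit 360466) (nat_lit 3) (.e (nat_lit 516146) (nat_lit 9) (.e (nat_lit 426446) (nat_lit 20) (.e (nat_lit 114716) (nat_lit 22) (.e (nat_lit 90128) (nat_lit 9) .nil)))))) (.g (nat_lit 0) .nil .nil))) 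
(.lf (nat_lit 8883) (.g (nat_lit 1125) (.e (nat_lit 324) (nat_lit 24) (.e (nat_lit 360466) (nat_lit 3) (.e (nat_lit 516180) (nat_lit 15) (.e (nat_lit 475212) (nat_lit 42) (.e (nat_lit 720937) (nat_lit 22) (.e (nat_lit 90127) (nat_lit 9) .nil)))))) (.g (nat_lit 4) .nil .nil))))) (.nd (nat_lit 4) (.nd (nat_lit 5) 
(.lf (nat_lit 8843) (.g (nat_lit 2704) (.e (nat_lit 324) (nat_lit 24) (.e (nat_lit 360466) (nat_lit 3) (.e (nat_lit 516146) (nat_lit 9) (.e (nat_lit 426361) (nat_lit 15) (.e (nat_lit 2203) (nat_lit 144) (.e (nat_lit 720941) (nat_lit 22) (.e (nat_lit 90128) (nat_lit 9) .nil))))))) (.g (nat_lit 0) .nil .nil))) 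
(.lf (nat_lit 8875) (.g (nat_lit 2906) (.e (nat_lit 324) (nat_lit 24) (.e (nat_lit 360466) (nat_lit 3) (.e (nat_lit 516179) (nat_lit 15) (.e (nat_lit 475211) (nat_lit 41) (.e (nat_lit 712706) (nat_lit 0) (.e (nat_lit 1848) (nat_lit 124) (.e (nat_lit 557066) (nat_lit 9) .nil))))))) (.g (nat_lit 6) .nil .nil)))) (.nd (nat_lit 5) 
(.lf (nat_lit 8859) (.g (nat_lit 1408) (.e (nat_lit 324) (nat_lit 24) (.e (nat_lit 360466) (nat_lit 3) (.e (nat_lit 516147) (nat_lit 9) (.e (nat_lit 426446) (nat_lit 20) (.e (nat_lit 114715) (nat_lit 22) (.e (nat_lit 90121) (nat_lit 9) .nil)))))) (.g (nat_lit 5) .nil .nil))) 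
(.lf (nat_lit 8891) (.g (nat_lit 1052) (.e (nat_lit 324) (nat_lit 24) (.e (nat_lit 360466) (nat_lit 3) (.e (nat_lit 516182) (nat_lit 15) (.e (nat_lit 475214) (nat_lit 42) (.e (nat_lit 720937) (nat_lit 22) .nil))))) .nil))))) (.nd (nat_lit 3) (.nd (nat_lit 4) (.nd (nat_lit 5) 
(.lf (nat_lit 8839) (.g (nat_lit 2075) (.e (nat_lit 324) (nat_lit 24) (.e (nat_lit 360466) (nat_lit 3) (.e (nat_lit 516146) (nat_lit 9) (.e (nat_lit 426361) (nat_lit 15) (.e (nat_lit 2203) (nat_lit 144) (.e (nat_lit 720938) (nat_lit 22) (.e (nat_lit 90127) (nat_lit 9) .nil))))))) (.g (nat_lit 6) .nil .nil))) 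
(.lf (nat_lit 8871) (.g (nat_lit 1265) (.e (nat_lit 324) (nat_lit 24) (.e (nat_lit 360466) (nat_lit 3) (.e (nat_lit 516150) (nat_lit 9) (.e (nat_lit 426449) (nat_lit 20) .nil)))) .nil))) (.nd (nat_lit 5) 
(.lf (nat_lit 8855) (.g (nat_lit 2739) (.e (nat_lit 324) (nat_lit 24) (.e (nat_lit 360466) (nat_lit 3) (.e (nat_lit 516146) (nat_lit 9) (.e (nat_lit 426448) (nat_lit 20) (.e (nat_lit 114715) (nat_lit 22) (.e (nat_lit 90121) (nat_lit 9) .nil)))))) (.g (nat_lit 6) .nil .nil))) 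
(.lf (nat_lit 8887) (.g (nat_lit 1271) (.e (nat_lit 324) (nat_lit 24) (.e (nat_lit 360466) (nat_lit 3) (.e (nat_lit 516180) (nat_lit 15) (.e (nat_lit 475214) (nat_lit 42) (.e (nat_lit 720937) (nat_lit 22) (.e (nat_lit 90123) (nat_lit 9) .nil)))))) (.g (nat_lit 4) .nil .nil))))) (.nd (nat_lit 4) (.nd (nat_lit 5) 
(.lf (nat_lit 8847) (.g (nat_lit 1073) (.e (nat_lit 324) (nat_lit 24) (.e (nat_lit 360466) (nat_lit 3) (.e (nat_lit 516146) (nat_lit 9) (.e (nat_lit 426440) (nat_lit 19) .nil)))) .nil)) 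
(.lf (nat_lit 8879) (.g (nat_lit 2415) (.e (nat_lit 324) (nat_lit 24) (.e (nat_lit 360466) (nat_lit 3) (.e (nat_lit 516179) (nat_lit 15) (.e (nat_lit 475214) (nat_lit 42) (.e (nat_lit 720937) (nat_lit 22) (.e (nat_lit 90127) (nat_lit 9) .nil)))))) (.g (nat_lit 6) .nil .nil)))) (.nd (nat_lit 5) 
(.lf (nat_lit 8863) (.g (nat_lit 2240) (.e (nat_lit 324) (nat_lit 24) (.e (nat_lit 360466) (nat_lit 3) (.e (nat_lit 516147) (nat_lit 9) (.e (nat_lit 426448) (nat_lit 20) (.e (nat_lit 114714) (nat_lit 22) (.e (nat_lit 90128) (nat_lit 9) .nil)))))) (.g (nat_lit 0) .nil .nil))) 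
(.lf (nat_lit 8895) (.g (nat_lit 3444) (.e (nat_lit 324) (nat_lit 24) (.e (nat_lit 360466) (nat_lit 3) (.e (nat_lit 516185) (nat_lit 16) (.e (nat_lit 491558) (nat_lit 10) (.e (nat_lit 344129) (nat_lit 26) (.e (nat_lit 557066) (nat_lit 9) .nil)))))) (.g (nat_lit 0) .nil .nil)))))))))

noncomputable def tv125 : DT := (.nd (nat_lit 0) (.nd (nat_lit 1) (.nd (nat_lit 2) (.nd (nat_lit 3) (.nd (nat_lit 4) (.nd (nat_lit 5) 
(.lf (nat_lit 8896) (.g (nat_lit 2837) (.e (nat_lit 324) (nat_lit 24) (.e (nat_lit 360466) (nat_lit 3) (.e (nat_lit 516185) (nat_lit 16) (.e (nat_lit 491558) (nat_lit 10) (.e (nat_lit 344130) (nat_lit 26) (.e (nat_lit 557066) (nat_lit 9) .nil)))))) (.g (nat_lit 0) .nil .nil))) 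
(.lf (nat_lit 8928) (.g (nat_lit 2202) (.e (nat_lit 324) (nat_lit 24) (.e (nat_lit 360475) (nat_lit 8) (.e (nat_lit 557066) (nat_lit 9) (.e (nat_lit 324) (nat_lit 24) .nil)))) .nil))) (.nd (nat_lit 5) 
(.lf (nat_lit 8912) (.g (nat_lit 2681) (.e (nat_lit 324) (nat_lit 24) (.e (nat_lit 360473) (nat_lit 8) (.e (nat_lit 557087) (nat_lit 11) (.e (nat_lit 24640) (nat_lit 10) (.e (nat_lit 344130) (nat_lit 26) (.e (nat_lit 557066) (nat_lit 9) .nil)))))) (.g (nat_lit 4) .nil .nil))) 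
(.lf (nat_lit 8944) (.g (nat_lit 1059) (.e (nat_lit 324) (nat_lit 24) (.e (nat_lit 360488) (nat_lit 20) (.e (nat_lit 761866) (nat_lit 5) (.e (nat_lit 1597) (nat_lit 111) (.e (nat_lit 368384) (nat_lit 22) .nil))))) .nil)))) (.nd (nat_lit 4) (.nd (nat_lit 5) 
(.lf (nat_lit 8904) (.g (nat_lit 3867) (.e (nat_lit 324) (nat_lit 24) (.e (nat_lit 360471) (nat_lit 7) (.e (nat_lit 548889) (nat_lit 9) (.e (nat_lit 65619) (nat_lit 10) (.e (nat_lit 344129) (nat_lit 26) (.e (nat_lit 557066) (nat_lit 9) .nil)))))) (.g (nat_lit 0) .nil .nil))) 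
(.lf (nat_lit 8936) (.g (nat_lit 3838) (.e (nat_lit 324) (nat_lit 24) (.e (nat_lit 360475) (nat_lit 8) (.e (nat_lit 557087) (nat_lit 11) (.e (nat_lit 24641) (nat_lit 10) (.e (nat_lit 344130) (nat_lit 26) .nil))))) .nil))) (.nd (nat_lit 5) 
(.lf (nat_lit 8920) (.g (nat_lit 1633) (.e (nat_lit 324) (nat_lit 24) (.e (nat_lit 360474) (nat_lit 8) (.e (nat_lit 557072) (nat_lit 9) (.e (nat_lit 7936) (nat_lit 24) .nil)))) .nil)) 
(.lf (nat_lit 8952) (.g (nat_lit 955) (.e (nat_lit 324) (nat_lit 24) (.e (nat_lit 360488) (nat_lit 20) (.e (nat_lit 761868) (nat_lit 5) (.e (nat_lit 1597) (nat_lit 111) (.e (nat_lit 368384) (nat_lit 22) .nil))))) .nil))))) (.nd (nat_lit 3) (.nd (nat_lit 4) (.nd (nat_lit 5) 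
(.lf (nat_lit 8900) (.g (nat_lit 1718) (.e (nat_lit 324) (nat_lit 24) (.e (nat_lit 360466) (nat_lit 3) (.e (nat_lit 524032) (nat_lit 33) (.e (nat_lit 401454) (nat_lit 12) (.e (nat_lit 483072) (nat_lit 0) .nil))))) (.g (nat_lit 4) .nil .nil))) 
(.lf (nat_lit 8932) (.g (nat_lit 3177) (.e (nat_lit 324) (nat_lit 24) (.e (nat_lit 360475) (nat_lit 8) (.e (nat_lit 557087) (nat_lit 11) (.e (nat_lit 24639) (nat_lit 10) (.e (nat_lit 344129) (nat_lit 26) .nil))))) .nil))) (.nd (nat_lit 5) 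
(.lf (nat_lit 8916) (.g (nat_lit 1602) (.e (nat_lit 324) (nat_lit 24) (.e (nat_lit 360473) (nat_lit 8) (.e (nat_lit 557087) (nat_lit 11) (.e (nat_lit 24644) (nat_lit 11) .nil)))) .nil)) 
(.lf (nat_lit 8948) (.g (nat_lit 1085) (.e (nat_lit 324) (nat_lit 24) (.e (nat_lit 360488) (nat_lit 20) (.e (nat_lit 761868) (nat_lit 5) (.e (nat_lit 1582) (nat_lit 111) (.e (nat_lit 360491) (nat_lit 22) (.e (nat_lit 778360) (nat_lit 9) .nil)))))) (.g (nat_lit 6) .nil .nil))))) (.nd (nat_lit 4) (.nd (nat_lit 5) 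
(.lf (nat_lit 8908) (.g (nat_lit 1418) (.e (nat_lit 324) (nat_lit 24) (.e (nat_lit 360473) (nat_lit 8) (.e (nat_lit 557074) (nat_lit 9) (.e (nat_lit 7936) (nat_lit 24) .nil)))) .nil)) 
(.lf (nat_lit 8940) (.g (nat_lit 347) (.e (nat_lit 324) (nat_lit 24) (.e (nat_lit 360488) (nat_lit 20) (.e (nat_lit 761866) (nat_lit 5) .nil))) .nil))) (.nd (nat_lit 5) 
(.lf (nat_lit 8924) (.g (nat_lit 1942) (.e (nat_lit 324) (nat_lit 24) (.e (nat_lit 360475) (nat_lit 8) (.e (nat_lit 557065) (nat_lit 9) (.e (nat_lit 324) (nat_lit 24) .nil)))) .nil)) 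
(.lf (nat_lit 8956) (.g (nat_lit 1766) (.e (nat_lit 324) (nat_lit 24) (.e (nat_lit 360488) (nat_lit 20) (.e (nat_lit 761869) (nat_lit 5) (.e (nat_lit 1582) (nat_lit 111) (.e (nat_lit 360491) (nat_lit 22) (.e (nat_lit 778362) (nat_lit 9) .nil)))))) (.g (nat_lit 0) .nil .nil))))))) (.nd (nat_lit 2) (.nd (nat_lit 3) (.nd (nat_lit 4) (.nd (nat_lit 5) 
(.lf (nat_lit 8898) (.g (nat_lit 3977) (.e (nat_lit 324) (nat_lit 24) (.e (nat_lit 360466) (nat_lit 3) (.e (nat_lit 516185) (nat_lit 16) (.e (nat_lit 491560) (nat_lit 10) (.e (nat_lit 344129) (nat_lit 26) (.e (nat_lit 557066) (nat_lit 9) .nil)))))) (.g (nat_lit 0) .nil .nil))) 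
(.lf (nat_lit 8930) (.g (nat_lit 2603) (.e (nat_lit 324) (nat_lit 24) (.e (nat_lit 360475) (nat_lit 8) (.e (nat_lit 557086) (nat_lit 11) (.e (nat_lit 24640) (nat_lit 10) .nil)))) .nil))) (.nd (nat_lit 5) 
(.lf (nat_lit 8914) (.g (nat_lit 2532) (.e (nat_lit 324) (nat_lit 24) (.e (nat_lit 360473) (nat_lit 8) (.e (nat_lit 557087) (nat_lit 11) (.e (nat_lit 24641) (nat_lit 10) (.e (nat_lit 344130) (nat_lit 26) .nil))))) .nil)) 
(.lf (nat_lit 8946) (.g (nat_lit 343) (.e (nat_lit 324) (nat_lit 24) (.e (nat_lit 360488) (nat_lit 20) (.e (nat_lit 761868) (nat_lit 5) .nil))) .nil)))) (.nd (nat_lit 4) (.nd (nat_lit 5) 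
(.lf (nat_lit 8906) (.g (nat_lit 2432) (.e (nat_lit 324) (nat_lit 24) (.e (nat_lit 360473) (nat_lit 8) (.e (nat_lit 557065) (nat_lit 9) (.e (nat_lit 324) (nat_lit 24) (.e (nat_lit 360473) (nat_lit 8) (.e (nat_lit 557065) (nat_lit 9) .nil)))))) (.g (nat_lit 5) .nil .nil))) 
(.lf (nat_lit 8938) (.g (nat_lit 2688) (.e (nat_lit 324) (nat_lit 24) (.e (nat_lit 360475) (nat_lit 8) (.e (nat_lit 557119) (nat_lit 18) (.e (nat_lit 2798) (nat_lit 180) (.e (nat_lit 303133) (nat_lit 9) (.e (nat_lit 426412) (nat_lit 15) (.e (nat_lit 7936) (nat_lit 357) .nil))))))) (.g (nat_lit 4) .nil .nil)))) (.nd (nat_lit 5) 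
(.lf (nat_lit 8922) (.g (nat_lit 1140) (.e (nat_lit 324) (nat_lit 24) (.e (nat_lit 360475) (nat_lit 8) (.e (nat_lit 557065) (nat_lit 9) .nil))) .nil)) 
(.lf (nat_lit 8954) (.g (nat_lit 1134) (.e (nat_lit 324) (nat_lit 24) (.e (nat_lit 360488) (nat_lit 20) (.e (nat_lit 761869) (nat_lit 5) (.e (nat_lit 1582) (nat_lit 111) (.e (nat_lit 360491) (nat_lit 22) (.e (nat_lit 778359) (nat_lit 9) .nil)))))) (.g (nat_lit 0) .nil .nil)))))) (.nd (nat_lit 3) (.nd (nat_lit 4) (.nd (nat_lit 5) 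
(.lf (nat_lit 8902) (.g (nat_lit 2797) (.e (nat_lit 324) (nat_lit 24) (.e (nat_lit 360471) (nat_lit 7) (.e (nat_lit 548874) (nat_lit 5) (.e (nat_lit 1595) (nat_lit 111) (.e (nat_lit 360473) (nat_lit 8) (.e (nat_lit 557065) (nat_lit 9) .nil)))))) (.g (nat_lit 6) .nil .nil))) 
(.lf (nat_lit 8934) (.g (nat_lit 3668) (.e (nat_lit 324) (nat_lit 24) (.e (nat_lit 360475) (nat_lit 8) (.e (nat_lit 557087) (nat_lit 11) (.e (nat_lit 24640) (nat_lit 10) (.e (nat_lit 344133) (nat_lit 26) .nil))))) .nil))) (.nd (nat_lit 5) 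
(.lf (nat_lit 8918) (.g (nat_lit 1093) (.e (nat_lit 324) (nat_lit 24) (.e (nat_lit 360474) (nat_lit 8) (.e (nat_lit 557060) (nat_lit 0) .nil))) .nil)) 
(.lf (nat_lit 8950) (.g (nat_lit 632) (.e (nat_lit 324) (nat_lit 24) (.e (nat_lit 360488) (nat_lit 20) (.e (nat_lit 761868) (nat_lit 5) (.e (nat_lit 1585) (nat_lit 111) (.e (nat_lit 368384) (nat_lit 22) (.e (nat_lit 778360) (nat_lit 9) .nil)))))) (.g (nat_lit 4) .nil .nil))))) (.nd (nat_lit 4) (.nd (nat_lit 5) 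
(.lf (nat_lit 8910) (.g (nat_lit 2837) (.e (nat_lit 324) (nat_lit 24) (.e (nat_lit 360473) (nat_lit 8) (.e (nat_lit 557087) (nat_lit 11) (.e (nat_lit 24625) (nat_lit 9) (.e (nat_lit 335969) (nat_lit 0) .nil))))) .nil)) 
(.lf (nat_lit 8942) (.g (nat_lit 1153) (.e (nat_lit 324) (nat_lit 24) (.e (nat_lit 360488) (nat_lit 20) (.e (nat_lit 761866) (nat_lit 5) (.e (nat_lit 1582) (nat_lit 111) (.e (nat_lit 360491) (nat_lit 22) (.e (nat_lit 778360) (nat_lit 9) .nil)))))) (.g (nat_lit 6) .nil .nil)))) (.nd (nat_lit 5) 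
(.lf (nat_lit 8926) (.g (nat_lit 2158) (.e (nat_lit 324) (nat_lit 24) (.e (nat_lit 360475) (nat_lit 8) (.e (nat_lit 557066) (nat_lit 9) (.e (nat_lit 321) (nat_lit 24) .nil)))) .nil)) 
(.lf (nat_lit 8958) (.g (nat_lit 751) (.e (nat_lit 324) (nat_lit 24) (.e (nat_lit 360488) (nat_lit 20) (.e (nat_lit 761869) (nat_lit 5) (.e (nat_lit 1582) (nat_lit 111) (.e (nat_lit 368384) (nat_lit 22) (.e (nat_lit 778359) (nat_lit 9) .nil)))))) (.g (nat_lit 4) .nil .nil)))))))) (.nd (nat_lit 1) (.nd (nat_lit 2) (.nd (nat_lit 3) (.nd (nat_lit 4) (.nd (nat_lit 5) 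
(.lf (nat_lit 8897) (.g (nat_lit 2584) (.e (nat_lit 324) (nat_lit 24) (.e (nat_lit 360466) (nat_lit 3) (.e (nat_lit 516185) (nat_lit 16) (.e (nat_lit 491560) (nat_lit 10) (.e (nat_lit 344128) (nat_lit 26) .nil))))) .nil)) 
(.lf (nat_lit 8929) (.g (nat_lit 1217) (.e (nat_lit 324) (nat_lit 24) (.e (nat_lit 360475) (nat_lit 8) (.e (nat_lit 557086) (nat_lit 11) .nil))) .nil))) (.nd (nat_lit 5) 
(.lf (nat_lit 8913) (.g (nat_lit 2770) (.e (nat_lit 324) (nat_lit 24) (.e (nat_lit 360473) (nat_lit 8) (.e (nat_lit 557087) (nat_lit 11) (.e (nat_lit 24640) (nat_lit 10) (.e (nat_lit 344133) (nat_lit 26) (.e (nat_lit 557065) (nat_lit 9) .nil)))))) (.g (nat_lit 5) .nil .nil))) 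
(.lf (nat_lit 8945) (.g (nat_lit 938) (.e (nat_lit 324) (nat_lit 24) (.e (nat_lit 360488) (nat_lit 20) (.e (nat_lit 761867) (nat_lit 5) (.e (nat_lit 1597) (nat_lit 111) (.e (nat_lit 368384) (nat_lit 22) .nil))))) .nil)))) (.nd (nat_lit 4) (.nd (nat_lit 5) 
(.lf (nat_lit 8905) (.g (nat_lit 1012) (.e (nat_lit 324) (nat_lit 24) (.e (nat_lit 360473) (nat_lit 8) (.e (nat_lit 557064) (nat_lit 9) (.e (nat_lit 322) (nat_lit 24) .nil)))) .nil)) 
(.lf (nat_lit 8937) (.g (nat_lit 2036) (.e (nat_lit 324) (nat_lit 24) (.e (nat_lit 360475) (nat_lit 8) (.e (nat_lit 557119) (nat_lit 18) (.e (nat_lit 2797) (nat_lit 180) .nil)))) .nil))) (.nd (nat_lit 5) 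
(.lf (nat_lit 8921) (.g (nat_lit 1547) (.e (nat_lit 324) (nat_lit 24) (.e (nat_lit 360474) (nat_lit 8) (.e (nat_lit 557073) (nat_lit 9) (.e (nat_lit 7936) (nat_lit 24) .nil)))) .nil)) 
(.lf (nat_lit 8953) (.g (nat_lit 971) (.e (nat_lit 324) (nat_lit 24) (.e (nat_lit 360488) (nat_lit 20) (.e (nat_lit 761868) (nat_lit 5) (.e (nat_lit 1597) (nat_lit 111) (.e (nat_lit 368384) (nat_lit 22) (.e (nat_lit 778359) (nat_lit 9) .nil)))))) (.g (nat_lit 4) .nil .nil)))))) (.nd (nat_lit 3) (.nd (nat_lit 4) (.nd (nat_lit 5) 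
(.lf (nat_lit 8901) (.g (nat_lit 2681) (.e (nat_lit 324) (nat_lit 24) (.e (nat_lit 360471) (nat_lit 7) (.e (nat_lit 548874) (nat_lit 5) (.e (nat_lit 1589) (nat_lit 111) (.e (nat_lit 360473) (nat_lit 8) (.e (nat_lit 557065) (nat_lit 9) .nil)))))) (.g (nat_lit 5) .nil .nil))) 
(.lf (nat_lit 8933) (.g (nat_lit 3438) (.e (nat_lit 324) (nat_lit 24) (.e (nat_lit 360475) (nat_lit 8) (.e (nat_lit 557087) (nat_lit 11) (.e (nat_lit 24640) (nat_lit 10) (.e (nat_lit 344129) (nat_lit 26) .nil))))) .nil))) (.nd (nat_lit 5) 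
(.lf (nat_lit 8917) (.g (nat_lit 2789) (.e (nat_lit 324) (nat_lit 24) (.e (nat_lit 360473) (nat_lit 8) (.e (nat_lit 557119) (nat_lit 18) (.e (nat_lit 2798) (nat_lit 180) (.e (nat_lit 303133) (nat_lit 9) (.e (nat_lit 426412) (nat_lit 15) (.e (nat_lit 7936) (nat_lit 357) .nil))))))) (.g (nat_lit 6) .nil .nil))) 
(.lf (nat_lit 8949) (.g (nat_lit 647) (.e (nat_lit 324) (nat_lit 24) (.e (nat_lit 360488) (nat_lit 20) (.e (nat_lit 761868) (nat_lit 5) (.e (nat_lit 1585) (nat_lit 111) (.e (nat_lit 368384) (nat_lit 22) (.e (nat_lit 778359) (nat_lit 9) .nil)))))) (.g (nat_lit 4) .nil .nil))))) (.nd (nat_lit 4) (.nd (nat_lit 5) 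
(.lf (nat_lit 8909) (.g (nat_lit 1419) (.e (nat_lit 324) (nat_lit 24) (.e (nat_lit 360473) (nat_lit 8) (.e (nat_lit 557086) (nat_lit 11) (.e (nat_lit 24639) (nat_lit 10) (.e (nat_lit 344129) (nat_lit 26) .nil))))) .nil)) 
(.lf (nat_lit 8941) (.g (nat_lit 1120) (.e (nat_lit 324) (nat_lit 24) (.e (nat_lit 360488) (nat_lit 20) (.e (nat_lit 761866) (nat_lit 5) (.e (nat_lit 1582) (nat_lit 111) (.e (nat_lit 360491) (nat_lit 22) (.e (nat_lit 778359) (nat_lit 9) .nil)))))) (.g (nat_lit 6) .nil .nil)))) (.nd (nat_lit 5) 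
(.lf (nat_lit 8925) (.g (nat_lit 1925) (.e (nat_lit 324) (nat_lit 24) (.e (nat_lit 360475) (nat_lit 8) (.e (nat_lit 557065) (nat_lit 9) (.e (nat_lit 7936) (nat_lit 24) .nil)))) .nil)) 
(.lf (nat_lit 8957) (.g (nat_lit 746) (.e (nat_lit 324) (nat_lit 24) (.e (nat_lit 360488) (nat_lit 20) (.e (nat_lit 761869) (nat_lit 5) (.e (nat_lit 1582) (nat_lit 111) (.e (nat_lit 368384) (nat_lit 22) .nil))))) .nil)))))) (.nd (nat_lit 2) (.nd (nat_lit 3) (.nd (nat_lit 4) (.nd (nat_lit 5) 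
(.lf (nat_lit 8899) (.g (nat_lit 2977) (.e (nat_lit 324) (nat_lit 24) (.e (nat_lit 360466) (nat_lit 3) (.e (nat_lit 516185) (nat_lit 16) (.e (nat_lit 491560) (nat_lit 10) (.e (nat_lit 344130) (nat_lit 26) (.e (nat_lit 557066) (nat_lit 9) .nil)))))) (.g (nat_lit 0) .nil .nil))) 
(.lf (nat_lit 8931) (.g (nat_lit 2504) (.e (nat_lit 324) (nat_lit 24) (.e (nat_lit 360475) (nat_lit 8) (.e (nat_lit 557086) (nat_lit 11) (.e (nat_lit 24641) (nat_lit 10) .nil)))) .nil))) (.nd (nat_lit 5) 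
(.lf (nat_lit 8915) (.g (nat_lit 2378) (.e (nat_lit 324) (nat_lit 24) (.e (nat_lit 360473) (nat_lit 8) (.e (nat_lit 557087) (nat_lit 11) (.e (nat_lit 24641) (nat_lit 10) (.e (nat_lit 344133) (nat_lit 26) .nil))))) .nil)) 
(.lf (nat_lit 8947) (.g (nat_lit 1056) (.e (nat_lit 324) (nat_lit 24) (.e (nat_lit 360488) (nat_lit 20) (.e (nat_lit 761868) (nat_lit 5) (.e (nat_lit 1582) (nat_lit 111) (.e (nat_lit 360491) (nat_lit 22) (.e (nat_lit 778359) (nat_lit 9) .nil)))))) (.g (nat_lit 6) .nil .nil))))) (.nd (nat_lit 4) (.nd (nat_lit 5) 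
(.lf (nat_lit 8907) (.g (nat_lit 783) (.e (nat_lit 324) (nat_lit 24) (.e (nat_lit 360473) (nat_lit 8) (.e (nat_lit 557068) (nat_lit 9) (.e (nat_lit 7936) (nat_lit 23) .nil)))) .nil)) 
(.lf (nat_lit 8939) (.g (nat_lit 2755) (.e (nat_lit 324) (nat_lit 24) (.e (nat_lit 360475) (nat_lit 8) (.e (nat_lit 557119) (nat_lit 18) (.e (nat_lit 2798) (nat_lit 180) (.e (nat_lit 303143) (nat_lit 12) (.e (nat_lit 483072) (nat_lit 0) .nil)))))) (.g (nat_lit 4) .nil .nil)))) (.nd (nat_lit 5) 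
(.lf (nat_lit 8923) (.g (nat_lit 2149) (.e (nat_lit 324) (nat_lit 24) (.e (nat_lit 360475) (nat_lit 8) (.e (nat_lit 557065) (nat_lit 9) (.e (nat_lit 322) (nat_lit 24) .nil)))) .nil)) 
(.lf (nat_lit 8955) (.g (nat_lit 1164) (.e (nat_lit 324) (nat_lit 24) (.e (nat_lit 360488) (nat_lit 20) (.e (nat_lit 761869) (nat_lit 5) (.e (nat_lit 1582) (nat_lit 111) (.e (nat_lit 360491) (nat_lit 22) (.e (nat_lit 778360) (nat_lit 9) .nil)))))) (.g (nat_lit 0) .nil .nil)))))) (.nd (nat_lit 3) (.nd (nat_lit 4) (.nd (nat_lit 5) 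
(.lf (nat_lit 8903) (.g (nat_lit 2041) (.e (nat_lit 324) (nat_lit 24) (.e (nat_lit 360471) (nat_lit 7) (.e (nat_lit 548889) (nat_lit 9) (.e (nat_lit 65617) (nat_lit 10) (.e (nat_lit 344130) (nat_lit 26) (.e (nat_lit 557065) (nat_lit 9) .nil)))))) (.g (nat_lit 4) .nil .nil))) 
(.lf (nat_lit 8935) (.g (nat_lit 2454) (.e (nat_lit 324) (nat_lit 24) (.e (nat_lit 360475) (nat_lit 8) (.e (nat_lit 557087) (nat_lit 11) (.e (nat_lit 24641) (nat_lit 10) .nil)))) .nil))) (.nd (nat_lit 5) 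
(.lf (nat_lit 8919) (.g (nat_lit 744) (.e (nat_lit 324) (nat_lit 24) (.e (nat_lit 360474) (nat_lit 8) (.e (nat_lit 557064) (nat_lit 9) .nil))) .nil)) 
(.lf (nat_lit 8951) (.g (nat_lit 1278) (.e (nat_lit 324) (nat_lit 24) (.e (nat_lit 360488) (nat_lit 20) (.e (nat_lit 761868) (nat_lit 5) (.e (nat_lit 1597) (nat_lit 111) (.e (nat_lit 360491) (nat_lit 22) (.e (nat_lit 778359) (nat_lit 9) .nil)))))) (.g (nat_lit 0) .nil .nil))))) (.nd (nat_lit 4) (.nd (nat_lit 5) 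
(.lf (nat_lit 8911) (.g (nat_lit 2242) (.e (nat_lit 324) (nat_lit 24) (.e (nat_lit 360473) (nat_lit 8) (.e (nat_lit 557087) (nat_lit 11) (.e (nat_lit 24639) (nat_lit 10) (.e (nat_lit 344129) (nat_lit 26) .nil))))) .nil)) 
(.lf (nat_lit 8943) (.g (nat_lit 1240) (.e (nat_lit 324) (nat_lit 24) (.e (nat_lit 360488) (nat_lit 20) (.e (nat_lit 761866) (nat_lit 5) (.e (nat_lit 1597) (nat_lit 111) (.e (nat_lit 360491) (nat_lit 22) (.e (nat_lit 778359) (nat_lit 9) .nil)))))) (.g (nat_lit 0) .nil .nil)))) (.nd (nat_lit 5) 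
(.lf (nat_lit 8927) (.g (nat_lit 2280) (.e (nat_lit 324) (nat_lit 24) (.e (nat_lit 360475) (nat_lit 8) (.e (nat_lit 557066) (nat_lit 9) (.e (nat_lit 322) (nat_lit 24) .nil)))) .nil)) 
(.lf (nat_lit 8959) (.g (nat_lit 998) (.e (nat_lit 324) (nat_lit 24) (.e (nat_lit 360489) (nat_lit 21) (.e (nat_lit 770055) (nat_lit 5) (.e (nat_lit 1598) (nat_lit 111) (.e (nat_lit 360491) (nat_lit 22) (.e (nat_lit 778359) (nat_lit 9) .nil)))))) (.g (nat_lit 0) .nil .nil)))))))))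

noncomputable def tv126 : DT := (.nd (nat_lit 0) (.nd (nat_lit 1) (.nd (nat_lit 2) (.nd (nat_lit 3) (.nd (nat_lit 4) (.nd (nat_lit 5) (.nd (nat_lit 6) 
(.lf (nat_lit 8960) (.g (nat_lit 925) (.e (nat_lit 324) (nat_lit 24) (.e (nat_lit 360489) (nat_lit 21) (.e (nat_lit 770056) (nat_lit 5) (.e (nat_lit 1598) (nat_lit 111) (.e (nat_lit 360491) (nat_lit 22) (.e (nat_lit 778359) (nat_lit 9) .nil)))))) (.g (nat_lit 0) .nil .nil))) 
(.lf (nat_lit 9024) (.g (nat_lit 1067) (.e (nat_lit 7936) (nat_lit 24) (.e (nat_lit 360466) (nat_lit 3) (.e (nat_lit 516146) (nat_lit 9) (.e (nat_lit 426361) (nat_lit 15) .nil)))) .nil))) (.nd (nat_lit 6) 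
(.lf (nat_lit 8992) (.g (nat_lit 2976) (.e (nat_lit 324) (nat_lit 24) (.e (nat_lit 360491) (nat_lit 22) (.e (nat_lit 778466) (nat_lit 11) (.e (nat_lit 24640) (nat_lit 10) (.e (nat_lit 344179) (nat_lit 44) (.e (nat_lit 778361) (nat_lit 9) .nil)))))) (.g (nat_lit 0) .nil .nil))) 
(.lf (nat_lit 9056) (.g (nat_lit 1326) (.e (nat_lit 7936) (nat_lit 24) (.e (nat_lit 360466) (nat_lit 3) (.e (nat_lit 516179) (nat_lit 15) (.e (nat_lit 475220) (nat_lit 44) .nil)))) .nil)))) (.nd (nat_lit 5) (.nd (nat_lit 6) 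
(.lf (nat_lit 8976) (.g (nat_lit 1543) (.e (nat_lit 324) (nat_lit 24) (.e (nat_lit 360489) (nat_lit 21) (.e (nat_lit 770058) (nat_lit 5) (.e (nat_lit 1599) (nat_lit 111) (.e (nat_lit 360491) (nat_lit 22) (.e (nat_lit 778362) (nat_lit 9) .nil)))))) (.g (nat_lit 0) .nil .nil))) 
(.lf (nat_lit 9040) (.g (nat_lit 1674) (.e (nat_lit 7936) (nat_lit 24) (.e (nat_lit 360466) (nat_lit 3) (.e (nat_lit 516150) (nat_lit 9) (.e (nat_lit 426446) (nat_lit 20) (.e (nat_lit 114715) (nat_lit 22) .nil))))) .nil))) (.nd (nat_lit 6) 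
(.lf (nat_lit 9008) (.g (nat_lit 1982) (.e (nat_lit 7936) (nat_lit 24) (.e (nat_lit 360466) (nat_lit 3) (.e (nat_lit 516097) (nat_lit 0) (.e (nat_lit 7593) (nat_lit 407) (.e (nat_lit 73753) (nat_lit 8) .nil))))) .nil)) 
(.lf (nat_lit 9072) (.g (nat_lit 1244) (.e (nat_lit 7936) (nat_lit 24) (.e (nat_lit 360467) (nat_lit 3) (.e (nat_lit 516106) (nat_lit 0) (.e (nat_lit 7936) (nat_lit 407) .nil)))) .nil))))) (.nd (nat_lit 4) (.nd (nat_lit 5) (.nd (nat_lit 6) 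
(.lf (nat_lit 8968) (.g (nat_lit 1269) (.e (nat_lit 324) (nat_lit 24) (.e (nat_lit 360489) (nat_lit 21) (.e (nat_lit 770058) (nat_lit 5) (.e (nat_lit 1586) (nat_lit 111) (.e (nat_lit 360491) (nat_lit 22) (.e (nat_lit 778359) (nat_lit 9) .nil)))))) (.g (nat_lit 0) .nil .nil))) 
(.lf (nat_lit 9032) (.g (nat_lit 1019) (.e (nat_lit 7936) (nat_lit 24) (.e (nat_lit 360466) (nat_lit 3) (.e (nat_lit 516146) (nat_lit 9) (.e (nat_lit 426449) (nat_lit 20) .nil)))) .nil))) (.nd (nat_lit 6) 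
(.lf (nat_lit 9000) (.g (nat_lit 1625) (.e (nat_lit 7936) (nat_lit 24) (.e (nat_lit 360451) (nat_lit 0) (.e (nat_lit 7125) (nat_lit 382) (.e (nat_lit 1223) (nat_lit 90) (.e (nat_lit 81965) (nat_lit 26) .nil))))) .nil)) 
(.lf (nat_lit 9064) (.g (nat_lit 1783) (.e (nat_lit 7936) (nat_lit 24) (.e (nat_lit 360467) (nat_lit 3) (.e (nat_lit 516097) (nat_lit 0) (.e (nat_lit 7591) (nat_lit 407) (.e (nat_lit 73754) (nat_lit 8) .nil))))) .nil)))) (.nd (nat_lit 5) (.nd (nat_lit 6) 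
(.lf (nat_lit 8984) (.g (nat_lit 989) (.e (nat_lit 324) (nat_lit 24) (.e (nat_lit 360491) (nat_lit 22) (.e (nat_lit 778362) (nat_lit 9) (.e (nat_lit 321) (nat_lit 24) (.e (nat_lit 360491) (nat_lit 22) .nil))))) .nil)) 
(.lf (nat_lit 9048) (.g (nat_lit 1471) (.e (nat_lit 7936) (nat_lit 24) (.e (nat_lit 360466) (nat_lit 3) (.e (nat_lit 516179) (nat_lit 15) (.e (nat_lit 475212) (nat_lit 42) (.e (nat_lit 720938) (nat_lit 22) .nil))))) .nil))) (.nd (nat_lit 6) 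
(.lf (nat_lit 9016) (.g (nat_lit 1133) (.e (nat_lit 7936) (nat_lit 24) (.e (nat_lit 360466) (nat_lit 3) (.e (nat_lit 516144) (nat_lit 9) (.e (nat_lit 426446) (nat_lit 20) (.e (nat_lit 114715) (nat_lit 22) .nil))))) .nil)) 
(.lf (nat_lit 9080) (.g (nat_lit 1679) (.e (nat_lit 7936) (nat_lit 24) (.e (nat_lit 360467) (nat_lit 3) (.e (nat_lit 516146) (nat_lit 9) (.e (nat_lit 426361) (nat_lit 15) (.e (nat_lit 2203) (nat_lit 144) .nil))))) .nil)))))) (.nd (nat_lit 3) (.nd (nat_lit 4) (.nd (nat_lit 5) (.nd (nat_lit 6) 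
(.lf (nat_lit 8964) (.g (nat_lit 1117) (.e (nat_lit 324) (nat_lit 24) (.e (nat_lit 360489) (nat_lit 21) (.e (nat_lit 770057) (nat_lit 5) (.e (nat_lit 1598) (nat_lit 111) (.e (nat_lit 360491) (nat_lit 22) (.e (nat_lit 778359) (nat_lit 9) .nil)))))) (.g (nat_lit 0) .nil .nil))) 
(.lf (nat_lit 9028) (.g (nat_lit 1229) (.e (nat_lit 7936) (nat_lit 24) (.e (nat_lit 360466) (nat_lit 3) (.e (nat_lit 516146) (nat_lit 9) (.e (nat_lit 426440) (nat_lit 19) .nil)))) .nil))) (.nd (nat_lit 6) 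
(.lf (nat_lit 8996) (.g (nat_lit 1013) (.e (nat_lit 324) (nat_lit 24) (.e (nat_lit 368384) (nat_lit 26) (.e (nat_lit 811029) (nat_lit 9) (.e (nat_lit 303131) (nat_lit 9) (.e (nat_lit 426125) (nat_lit 2) (.e (nat_lit 204544) (nat_lit 0) .nil)))))) (.g (nat_lit 5) .nil .nil))) 
(.lf (nat_lit 9060) (.g (nat_lit 1116) (.e (nat_lit 7936) (nat_lit 24) (.e (nat_lit 360466) (nat_lit 3) (.e (nat_lit 516180) (nat_lit 15) (.e (nat_lit 475214) (nat_lit 42) (.e (nat_lit 720936) (nat_lit 22) .nil))))) .nil)))) (.nd (nat_lit 5) (.nd (nat_lit 6) 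
(.lf (nat_lit 8980) (.g (nat_lit 630) (.e (nat_lit 324) (nat_lit 24) (.e (nat_lit 360491) (nat_lit 22) (.e (nat_lit 778359) (nat_lit 9) (.e (nat_lit 324) (nat_lit 24) (.e (nat_lit 360491) (nat_lit 22) (.e (nat_lit 778359) (nat_lit 9) .nil)))))) (.g (nat_lit 0) .nil .nil))) 
(.lf (nat_lit 9044) (.g (nat_lit 1416) (.e (nat_lit 7936) (nat_lit 24) (.e (nat_lit 360466) (nat_lit 3) (.e (nat_lit 516150) (nat_lit 9) (.e (nat_lit 426449) (nat_lit 20) .nil)))) .nil))) (.nd (nat_lit 6) 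
(.lf (nat_lit 9012) (.g (nat_lit 1407) (.e (nat_lit 7936) (nat_lit 24) (.e (nat_lit 360466) (nat_lit 3) (.e (nat_lit 516098) (nat_lit 0) (.e (nat_lit 7593) (nat_lit 407) (.e (nat_lit 73754) (nat_lit 8) .nil))))) .nil)) 
(.lf (nat_lit 9076) (.g (nat_lit 1708) (.e (nat_lit 7936) (nat_lit 24) (.e (nat_lit 360467) (nat_lit 3) (.e (nat_lit 516144) (nat_lit 9) (.e (nat_lit 426448) (nat_lit 20) (.e (nat_lit 114715) (nat_lit 22) .nil))))) .nil))))) (.nd (nat_lit 4) (.nd (nat_lit 5) (.nd (nat_lit 6) 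
(.lf (nat_lit 8972) (.g (nat_lit 1736) (.e (nat_lit 324) (nat_lit 24) (.e (nat_lit 360489) (nat_lit 21) (.e (nat_lit 770058) (nat_lit 5) (.e (nat_lit 1598) (nat_lit 111) (.e (nat_lit 360491) (nat_lit 22) (.e (nat_lit 778362) (nat_lit 9) .nil)))))) (.g (nat_lit 0) .nil .nil))) 
(.lf (nat_lit 9036) (.g (nat_lit 404) (.e (nat_lit 7936) (nat_lit 24) (.e (nat_lit 360466) (nat_lit 3) (.e (nat_lit 516149) (nat_lit 9) .nil))) .nil))) (.nd (nat_lit 6) 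
(.lf (nat_lit 9004) (.g (nat_lit 1046) (.e (nat_lit 7936) (nat_lit 24) (.e (nat_lit 360451) (nat_lit 0) (.e (nat_lit 7265) (nat_lit 384) (.e (nat_lit 57426) (nat_lit 15) .nil)))) .nil)) 
(.lf (nat_lit 9068) (.g (nat_lit 2031) (.e (nat_lit 7936) (nat_lit 24) (.e (nat_lit 360467) (nat_lit 3) (.e (nat_lit 516097) (nat_lit 0) (.e (nat_lit 7593) (nat_lit 407) (.e (nat_lit 73755) (nat_lit 8) .nil))))) .nil)))) (.nd (nat_lit 5) (.nd (nat_lit 6) 
(.lf (nat_lit 8988) (.g (nat_lit 983) (.e (nat_lit 324) (nat_lit 24) (.e (nat_lit 360491) (nat_lit 22) (.e (nat_lit 778466) (nat_lit 11) (.e (nat_lit 24620) (nat_lit 8) .nil)))) .nil)) 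
(.lf (nat_lit 9052) (.g (nat_lit 1561) (.e (nat_lit 7936) (nat_lit 24) (.e (nat_lit 360466) (nat_lit 3) (.e (nat_lit 516179) (nat_lit 15) (.e (nat_lit 475214) (nat_lit 42) (.e (nat_lit 720937) (nat_lit 22) .nil))))) .nil))) (.nd (nat_lit 6) 
(.lf (nat_lit 9020) (.g (nat_lit 1150) (.e (nat_lit 7936) (nat_lit 24) (.e (nat_lit 360466) (nat_lit 3) (.e (nat_lit 516145) (nat_lit 9) (.e (nat_lit 426446) (nat_lit 20) .nil)))) .nil)) 
(.lf (nat_lit 9084) (.g (nat_lit 1252) (.e (nat_lit 7936) (nat_lit 24) (.e (nat_lit 360467) (nat_lit 3) (.e (nat_lit 516146) (nat_lit 9) (.e (nat_lit 426449) (nat_lit 20) .nil)))) .nil))))))) (.nd (nat_lit 2) (.nd (nat_lit 3) (.nd (nat_lit 4) (.nd (nat_lit 5) (.nd (nat_lit 6) 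
(.lf (nat_lit 8962) (.g (nat_lit 1502) (.e (nat_lit 324) (nat_lit 24) (.e (nat_lit 360489) (nat_lit 21) (.e (nat_lit 770057) (nat_lit 5) (.e (nat_lit 1595) (nat_lit 111) (.e (nat_lit 360492) (nat_lit 22) (.e (nat_lit 778359) (nat_lit 9) .nil)))))) (.g (nat_lit 0) .nil .nil))) 
(.lf (nat_lit 9026) (.g (nat_lit 1274) (.e (nat_lit 7936) (nat_lit 24) (.e (nat_lit 360466) (nat_lit 3) (.e (nat_lit 516146) (nat_lit 9) (.e (nat_lit 426361) (nat_lit 15) (.e (nat_lit 2203) (nat_lit 144) .nil))))) .nil))) (.nd (nat_lit 6) 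
(.lf (nat_lit 8994) (.g (nat_lit 1304) (.e (nat_lit 324) (nat_lit 24) (.e (nat_lit 360491) (nat_lit 22) (.e (nat_lit 778466) (nat_lit 11) (.e (nat_lit 24641) (nat_lit 10) (.e (nat_lit 344180) (nat_lit 44) (.e (nat_lit 778360) (nat_lit 9) .nil)))))) (.g (nat_lit 4) .nil .nil))) 
(.lf (nat_lit 9058) (.g (nat_lit 856) (.e (nat_lit 7936) (nat_lit 24) (.e (nat_lit 360466) (nat_lit 3) (.e (nat_lit 516180) (nat_lit 15) (.e (nat_lit 475212) (nat_lit 42) (.e (nat_lit 720938) (nat_lit 22) .nil))))) .nil)))) (.nd (nat_lit 5) (.nd (nat_lit 6) 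
(.lf (nat_lit 8978) (.g (nat_lit 1335) (.e (nat_lit 324) (nat_lit 24) (.e (nat_lit 360490) (nat_lit 22) (.e (nat_lit 778339) (nat_lit 9) (.e (nat_lit 323) (nat_lit 24) (.e (nat_lit 360491) (nat_lit 22) (.e (nat_lit 778362) (nat_lit 9) .nil)))))) (.g (nat_lit 0) .nil .nil))) 
(.lf (nat_lit 9042) (.g (nat_lit 1817) (.e (nat_lit 7936) (nat_lit 24) (.e (nat_lit 360466) (nat_lit 3) (.e (nat_lit 516150) (nat_lit 9) (.e (nat_lit 426448) (nat_lit 20) (.e (nat_lit 114715) (nat_lit 22) .nil))))) .nil))) (.nd (nat_lit 6) 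
(.lf (nat_lit 9010) (.g (nat_lit 1980) (.e (nat_lit 7936) (nat_lit 24) (.e (nat_lit 360466) (nat_lit 3) (.e (nat_lit 516097) (nat_lit 0) (.e (nat_lit 7593) (nat_lit 407) (.e (nat_lit 73755) (nat_lit 8) .nil))))) .nil)) 
(.lf (nat_lit 9074) (.g (nat_lit 1078) (.e (nat_lit 7936) (nat_lit 24) (.e (nat_lit 360467) (nat_lit 3) (.e (nat_lit 516144) (nat_lit 9) (.e (nat_lit 426446) (nat_lit 20) (.e (nat_lit 114716) (nat_lit 22) .nil))))) .nil))))) (.nd (nat_lit 4) (.nd (nat_lit 5) (.nd (nat_lit 6) 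
(.lf (nat_lit 8970) (.g (nat_lit 1853) (.e (nat_lit 324) (nat_lit 24) (.e (nat_lit 360489) (nat_lit 21) (.e (nat_lit 770058) (nat_lit 5) (.e (nat_lit 1595) (nat_lit 111) (.e (nat_lit 360492) (nat_lit 22) (.e (nat_lit 778361) (nat_lit 9) .nil)))))) (.g (nat_lit 0) .nil .nil))) 
(.lf (nat_lit 9034) (.g (nat_lit 1277) (.e (nat_lit 7936) (nat_lit 24) (.e (nat_lit 360466) (nat_lit 3) (.e (nat_lit 516146) (nat_lit 9) (.e (nat_lit 426449) (nat_lit 20) (.e (nat_lit 114716) (nat_lit 22) .nil))))) .nil))) (.nd (nat_lit 6) 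
(.lf (nat_lit 9002) (.g (nat_lit 2025) (.e (nat_lit 7936) (nat_lit 24) (.e (nat_lit 360451) (nat_lit 0) (.e (nat_lit 7125) (nat_lit 382) (.e (nat_lit 1224) (nat_lit 90) (.e (nat_lit 81965) (nat_lit 26) .nil))))) .nil)) 
(.lf (nat_lit 9066) (.g (nat_lit 1976) (.e (nat_lit 7936) (nat_lit 24) (.e (nat_lit 360467) (nat_lit 3) (.e (nat_lit 516097) (nat_lit 0) (.e (nat_lit 7593) (nat_lit 407) (.e (nat_lit 73753) (nat_lit 8) .nil))))) .nil)))) (.nd (nat_lit 5) (.nd (nat_lit 6) 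
(.lf (nat_lit 8986) (.g (nat_lit 1820) (.e (nat_lit 324) (nat_lit 24) (.e (nat_lit 360491) (nat_lit 22) (.e (nat_lit 778362) (nat_lit 9) (.e (nat_lit 324) (nat_lit 24) (.e (nat_lit 360491) (nat_lit 22) (.e (nat_lit 778362) (nat_lit 9) .nil)))))) (.g (nat_lit 0) .nil .nil))) 
(.lf (nat_lit 9050) (.g (nat_lit 793) (.e (nat_lit 7936) (nat_lit 24) (.e (nat_lit 360466) (nat_lit 3) (.e (nat_lit 516179) (nat_lit 15) (.e (nat_lit 475214) (nat_lit 42) .nil)))) .nil))) (.nd (nat_lit 6) 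
(.lf (nat_lit 9018) (.g (nat_lit 1564) (.e (nat_lit 7936) (nat_lit 24) (.e (nat_lit 360466) (nat_lit 3) (.e (nat_lit 516144) (nat_lit 9) (.e (nat_lit 426448) (nat_lit 20) (.e (nat_lit 114714) (nat_lit 22) .nil))))) .nil)) 
(.lf (nat_lit 9082) (.g (nat_lit 1359) (.e (nat_lit 7936) (nat_lit 24) (.e (nat_lit 360467) (nat_lit 3) (.e (nat_lit 516146) (nat_lit 9) (.e (nat_lit 426446) (nat_lit 20) (.e (nat_lit 114716) (nat_lit 22) .nil))))) .nil)))))) (.nd (nat_lit 3) (.nd (nat_lit 4) (.nd (nat_lit 5) (.nd (nat_lit 6) 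
(.lf (nat_lit 8966) (.g (nat_lit 1046) (.e (nat_lit 324) (nat_lit 24) (.e (nat_lit 360489) (nat_lit 21) (.e (nat_lit 770057) (nat_lit 5) (.e (nat_lit 1599) (nat_lit 111) (.e (nat_lit 360491) (nat_lit 22) (.e (nat_lit 778360) (nat_lit 9) .nil)))))) (.g (nat_lit 6) .nil .nil))) 
(.lf (nat_lit 9030) (.g (nat_lit 1734) (.e (nat_lit 7936) (nat_lit 24) (.e (nat_lit 360466) (nat_lit 3) (.e (nat_lit 516146) (nat_lit 9) (.e (nat_lit 426448) (nat_lit 20) (.e (nat_lit 114715) (nat_lit 22) .nil))))) .nil))) (.nd (nat_lit 6) 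
(.lf (nat_lit 8998) (.g (nat_lit 356) (.e (nat_lit 7936) (nat_lit 24) (.e (nat_lit 360449) (nat_lit 0) (.e (nat_lit 7263) (nat_lit 384) .nil))) .nil)) 
(.lf (nat_lit 9062) (.g (nat_lit 1396) (.e (nat_lit 7936) (nat_lit 24) (.e (nat_lit 360466) (nat_lit 3) (.e (nat_lit 524032) (nat_lit 33) (.e (nat_lit 401454) (nat_lit 12) (.e (nat_lit 475140) (nat_lit 0) .nil))))) .nil)))) (.nd (nat_lit 5) (.nd (nat_lit 6) 
(.lf (nat_lit 8982) (.g (nat_lit 1107) (.e (nat_lit 324) (nat_lit 24) (.e (nat_lit 360491) (nat_lit 22) (.e (nat_lit 778361) (nat_lit 9) (.e (nat_lit 324) (nat_lit 24) (.e (nat_lit 360491) (nat_lit 22) (.e (nat_lit 778359) (nat_lit 9) .nil)))))) (.g (nat_lit 0) .nil .nil))) 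
(.lf (nat_lit 9046) (.g (nat_lit 967) (.e (nat_lit 7936) (nat_lit 24) (.e (nat_lit 360466) (nat_lit 3) (.e (nat_lit 516150) (nat_lit 9) (.e (nat_lit 433920) (nat_lit 20) .nil)))) .nil))) (.nd (nat_lit 6) 
(.lf (nat_lit 9014) (.g (nat_lit 890) (.e (nat_lit 7936) (nat_lit 24) (.e (nat_lit 360466) (nat_lit 3) (.e (nat_lit 516100) (nat_lit 0) (.e (nat_lit 7936) (nat_lit 220) .nil)))) .nil)) 
(.lf (nat_lit 9078) (.g (nat_lit 399) (.e (nat_lit 7936) (nat_lit 24) (.e (nat_lit 360467) (nat_lit 3) (.e (nat_lit 516146) (nat_lit 9) .nil))) .nil))))) (.nd (nat_lit 4) (.nd (nat_lit 5) (.nd (nat_lit 6) 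
(.lf (nat_lit 8974) (.g (nat_lit 871) (.e (nat_lit 324) (nat_lit 24) (.e (nat_lit 360489) (nat_lit 21) (.e (nat_lit 770058) (nat_lit 5) (.e (nat_lit 1599) (nat_lit 111) (.e (nat_lit 360491) (nat_lit 22) (.e (nat_lit 778360) (nat_lit 9) .nil)))))) (.g (nat_lit 6) .nil .nil))) 
(.lf (nat_lit 9038) (.g (nat_lit 1194) (.e (nat_lit 7936) (nat_lit 24) (.e (nat_lit 360466) (nat_lit 3) (.e (nat_lit 516150) (nat_lit 9) (.e (nat_lit 426360) (nat_lit 15) .nil)))) .nil))) (.nd (nat_lit 6) 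
(.lf (nat_lit 9006) (.g (nat_lit 1204) (.e (nat_lit 7936) (nat_lit 24) (.e (nat_lit 360466) (nat_lit 3) (.e (nat_lit 516097) (nat_lit 0) (.e (nat_lit 7591) (nat_lit 407) .nil)))) .nil)) 
(.lf (nat_lit 9070) (.g (nat_lit 1052) (.e (nat_lit 7936) (nat_lit 24) (.e (nat_lit 360467) (nat_lit 3) (.e (nat_lit 516098) (nat_lit 0) (.e (nat_lit 7591) (nat_lit 407) .nil)))) .nil)))) (.nd (nat_lit 5) (.nd (nat_lit 6) 
(.lf (nat_lit 8990) (.g (nat_lit 2248) (.e (nat_lit 324) (nat_lit 24) (.e (nat_lit 360491) (nat_lit 22) (.e (nat_lit 778466) (nat_lit 11) (.e (nat_lit 24632) (nat_lit 9) (.e (nat_lit 336048) (nat_lit 6) (.e (nat_lit 147466) (nat_lit 9) .nil)))))) (.g (nat_lit 0) .nil .nil))) 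
(.lf (nat_lit 9054) (.g (nat_lit 1891) (.e (nat_lit 7936) (nat_lit 24) (.e (nat_lit 360466) (nat_lit 3) (.e (nat_lit 516179) (nat_lit 15) (.e (nat_lit 475214) (nat_lit 42) (.e (nat_lit 720939) (nat_lit 22) .nil))))) .nil))) (.nd (nat_lit 6) 
(.lf (nat_lit 9022) (.g (nat_lit 368) (.e (nat_lit 7936) (nat_lit 24) (.e (nat_lit 360466) (nat_lit 3) (.e (nat_lit 516146) (nat_lit 9) .nil))) .nil)) 
(.lf (nat_lit 9086) (.g (nat_lit 1585) (.e (nat_lit 7936) (nat_lit 24) (.e (nat_lit 360467) (nat_lit 3) (.e (nat_lit 516146) (nat_lit 9) (.e (nat_lit 426449) (nat_lit 20) (.e (nat_lit 114716) (nat_lit 22) .nil))))) .nil)))))))) (.nd (nat_lit 1) (.nd (nat_lit 2) (.nd (nat_lit 3) (.nd (nat_lit 4) (.nd (nat_lit 5) (.nd (nat_lit 6) 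
(.lf (nat_lit 8961) (.g (nat_lit 1325) (.e (nat_lit 324) (nat_lit 24) (.e (nat_lit 360489) (nat_lit 21) (.e (nat_lit 770057) (nat_lit 5) (.e (nat_lit 1586) (nat_lit 111) (.e (nat_lit 360491) (nat_lit 22) (.e (nat_lit 778359) (nat_lit 9) .nil)))))) (.g (nat_lit 6) .nil .nil))) 
(.lf (nat_lit 9025) (.g (nat_lit 1259) (.e (nat_lit 7936) (nat_lit 24) (.e (nat_lit 360466) (nat_lit 3) (.e (nat_lit 516146) (nat_lit 9) (.e (nat_lit 426361) (nat_lit 15) (.e (nat_lit 2195) (nat_lit 144) .nil))))) .nil))) (.nd (nat_lit 6) 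
(.lf (nat_lit 8993) (.g (nat_lit 2619) (.e (nat_lit 324) (nat_lit 24) (.e (nat_lit 360491) (nat_lit 22) (.e (nat_lit 778466) (nat_lit 11) (.e (nat_lit 24641) (nat_lit 10) (.e (nat_lit 344179) (nat_lit 44) (.e (nat_lit 778361) (nat_lit 9) .nil)))))) (.g (nat_lit 0) .nil .nil))) 
(.lf (nat_lit 9057) (.g (nat_lit 504) (.e (nat_lit 7936) (nat_lit 24) (.e (nat_lit 360466) (nat_lit 3) (.e (nat_lit 516180) (nat_lit 15) (.e (nat_lit 475212) (nat_lit 42) .nil)))) .nil)))) (.nd (nat_lit 5) (.nd (nat_lit 6) 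
(.lf (nat_lit 8977) (.g (nat_lit 2491) (.e (nat_lit 324) (nat_lit 24) (.e (nat_lit 360489) (nat_lit 21) (.e (nat_lit 770074) (nat_lit 10) (.e (nat_lit 81965) (nat_lit 26) (.e (nat_lit 147466) (nat_lit 9) .nil))))) (.g (nat_lit 0) .nil .nil))) 
(.lf (nat_lit 9041) (.g (nat_lit 1650) (.e (nat_lit 7936) (nat_lit 24) (.e (nat_lit 360466) (nat_lit 3) (.e (nat_lit 516150) (nat_lit 9) (.e (nat_lit 426446) (nat_lit 20) (.e (nat_lit 114716) (nat_lit 22) .nil))))) .nil))) (.nd (nat_lit 6) 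
(.lf (nat_lit 9009) (.g (nat_lit 1647) (.e (nat_lit 7936) (nat_lit 24) (.e (nat_lit 360466) (nat_lit 3) (.e (nat_lit 516097) (nat_lit 0) (.e (nat_lit 7593) (nat_lit 407) (.e (nat_lit 73754) (nat_lit 8) .nil))))) .nil)) 
(.lf (nat_lit 9073) (.g (nat_lit 1109) (.e (nat_lit 7936) (nat_lit 24) (.e (nat_lit 360467) (nat_lit 3) (.e (nat_lit 516144) (nat_lit 9) (.e (nat_lit 426446) (nat_lit 20) (.e (nat_lit 114715) (nat_lit 22) .nil))))) .nil))))) (.nd (nat_lit 4) (.nd (nat_lit 5) (.nd (nat_lit 6) 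
(.lf (nat_lit 8969) (.g (nat_lit 1400) (.e (nat_lit 324) (nat_lit 24) (.e (nat_lit 360489) (nat_lit 21) (.e (nat_lit 770058) (nat_lit 5) (.e (nat_lit 1595) (nat_lit 111) (.e (nat_lit 360492) (nat_lit 22) (.e (nat_lit 778359) (nat_lit 9) .nil)))))) (.g (nat_lit 0) .nil .nil))) 
(.lf (nat_lit 9033) (.g (nat_lit 1285) (.e (nat_lit 7936) (nat_lit 24) (.e (nat_lit 360466) (nat_lit 3) (.e (nat_lit 516146) (nat_lit 9) (.e (nat_lit 426449) (nat_lit 20) (.e (nat_lit 114714) (nat_lit 22) .nil))))) .nil))) (.nd (nat_lit 6) 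
(.lf (nat_lit 9001) (.g (nat_lit 988) (.e (nat_lit 7936) (nat_lit 24) (.e (nat_lit 360451) (nat_lit 0) (.e (nat_lit 7125) (nat_lit 382) (.e (nat_lit 1224) (nat_lit 90) .nil)))) .nil)) 
(.lf (nat_lit 9065) (.g (nat_lit 1694) (.e (nat_lit 7936) (nat_lit 24) (.e (nat_lit 360467) (nat_lit 3) (.e (nat_lit 516097) (nat_lit 0) (.e (nat_lit 7591) (nat_lit 407) (.e (nat_lit 73755) (nat_lit 8) .nil))))) .nil)))) (.nd (nat_lit 5) (.nd (nat_lit 6) 
(.lf (nat_lit 8985) (.g (nat_lit 948) (.e (nat_lit 324) (nat_lit 24) (.e (nat_lit 360491) (nat_lit 22) (.e (nat_lit 778362) (nat_lit 9) (.e (nat_lit 321) (nat_lit 24) (.e (nat_lit 360492) (nat_lit 22) (.e (nat_lit 778360) (nat_lit 9) .nil)))))) (.g (nat_lit 4) .nil .nil))) 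
(.lf (nat_lit 9049) (.g (nat_lit 1457) (.e (nat_lit 7936) (nat_lit 24) (.e (nat_lit 360466) (nat_lit 3) (.e (nat_lit 516179) (nat_lit 15) (.e (nat_lit 475212) (nat_lit 42) (.e (nat_lit 720941) (nat_lit 22) .nil))))) .nil))) (.nd (nat_lit 6) 
(.lf (nat_lit 9017) (.g (nat_lit 1103) (.e (nat_lit 7936) (nat_lit 24) (.e (nat_lit 360466) (nat_lit 3) (.e (nat_lit 516144) (nat_lit 9) (.e (nat_lit 426446) (nat_lit 20) (.e (nat_lit 114716) (nat_lit 22) .nil))))) .nil)) 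
(.lf (nat_lit 9081) (.g (nat_lit 1349) (.e (nat_lit 7936) (nat_lit 24) (.e (nat_lit 360467) (nat_lit 3) (.e (nat_lit 516146) (nat_lit 9) (.e (nat_lit 426440) (nat_lit 19) .nil)))) .nil)))))) (.nd (nat_lit 3) (.nd (nat_lit 4) (.nd (nat_lit 5) (.nd (nat_lit 6) 
(.lf (nat_lit 8965) (.g (nat_lit 1038) (.e (nat_lit 324) (nat_lit 24) (.e (nat_lit 360489) (nat_lit 21) (.e (nat_lit 770057) (nat_lit 5) (.e (nat_lit 1599) (nat_lit 111) (.e (nat_lit 360491) (nat_lit 22) (.e (nat_lit 778359) (nat_lit 9) .nil)))))) (.g (nat_lit 6) .nil .nil))) 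
(.lf (nat_lit 9029) (.g (nat_lit 1152) (.e (nat_lit 7936) (nat_lit 24) (.e (nat_lit 360466) (nat_lit 3) (.e (nat_lit 516146) (nat_lit 9) (.e (nat_lit 426446) (nat_lit 20) (.e (nat_lit 114715) (nat_lit 22) .nil))))) .nil))) (.nd (nat_lit 6) 
(.lf (nat_lit 8997) (.g (nat_lit 1893) (.e (nat_lit 324) (nat_lit 24) (.e (nat_lit 360493) (nat_lit 27) (.e (nat_lit 819219) (nat_lit 4) (.e (nat_lit 172094) (nat_lit 9) (.e (nat_lit 426125) (nat_lit 2) (.e (nat_lit 204544) (nat_lit 0) .nil)))))) (.g (nat_lit 5) .nil .nil))) 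
(.lf (nat_lit 9061) (.g (nat_lit 749) (.e (nat_lit 7936) (nat_lit 24) (.e (nat_lit 360466) (nat_lit 3) (.e (nat_lit 516180) (nat_lit 15) (.e (nat_lit 475214) (nat_lit 42) (.e (nat_lit 720938) (nat_lit 22) .nil))))) .nil)))) (.nd (nat_lit 5) (.nd (nat_lit 6) 
(.lf (nat_lit 8981) (.g (nat_lit 897) (.e (nat_lit 324) (nat_lit 24) (.e (nat_lit 360491) (nat_lit 22) (.e (nat_lit 778361) (nat_lit 9) (.e (nat_lit 321) (nat_lit 24) (.e (nat_lit 360492) (nat_lit 22) (.e (nat_lit 778360) (nat_lit 9) .nil)))))) (.g (nat_lit 4) .nil .nil))) 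
(.lf (nat_lit 9045) (.g (nat_lit 1710) (.e (nat_lit 7936) (nat_lit 24) (.e (nat_lit 360466) (nat_lit 3) (.e (nat_lit 516150) (nat_lit 9) (.e (nat_lit 426449) (nat_lit 20) (.e (nat_lit 114716) (nat_lit 22) .nil))))) .nil))) (.nd (nat_lit 6) 
(.lf (nat_lit 9013) (.g (nat_lit 1473) (.e (nat_lit 7936) (nat_lit 24) (.e (nat_lit 360466) (nat_lit 3) (.e (nat_lit 516098) (nat_lit 0) (.e (nat_lit 7593) (nat_lit 407) (.e (nat_lit 73755) (nat_lit 8) .nil))))) .nil)) 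
(.lf (nat_lit 9077) (.g (nat_lit 513) (.e (nat_lit 7936) (nat_lit 24) (.e (nat_lit 360467) (nat_lit 3) (.e (nat_lit 516145) (nat_lit 9) .nil))) .nil))))) (.nd (nat_lit 4) (.nd (nat_lit 5) (.nd (nat_lit 6) 
(.lf (nat_lit 8973) (.g (nat_lit 860) (.e (nat_lit 324) (nat_lit 24) (.e (nat_lit 360489) (nat_lit 21) (.e (nat_lit 770058) (nat_lit 5) (.e (nat_lit 1599) (nat_lit 111) (.e (nat_lit 360491) (nat_lit 22) (.e (nat_lit 778359) (nat_lit 9) .nil)))))) (.g (nat_lit 0) .nil .nil))) 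
(.lf (nat_lit 9037) (.g (nat_lit 1501) (.e (nat_lit 7936) (nat_lit 24) (.e (nat_lit 360466) (nat_lit 3) (.e (nat_lit 516149) (nat_lit 9) (.e (nat_lit 426448) (nat_lit 20) (.e (nat_lit 114714) (nat_lit 22) .nil))))) .nil))) (.nd (nat_lit 6) 
(.lf (nat_lit 9005) (.g (nat_lit 1228) (.e (nat_lit 7936) (nat_lit 24) (.e (nat_lit 360456) (nat_lit 0) (.e (nat_lit 5230) (nat_lit 296) (.e (nat_lit 163923) (nat_lit 15) (.e (nat_lit 450597) (nat_lit 17) .nil))))) .nil)) 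
(.lf (nat_lit 9069) (.g (nat_lit 507) (.e (nat_lit 7936) (nat_lit 24) (.e (nat_lit 360467) (nat_lit 3) (.e (nat_lit 516098) (nat_lit 0) .nil))) .nil)))) (.nd (nat_lit 5) (.nd (nat_lit 6) 
(.lf (nat_lit 8989) (.g (nat_lit 1348) (.e (nat_lit 324) (nat_lit 24) (.e (nat_lit 360491) (nat_lit 22) (.e (nat_lit 778466) (nat_lit 11) (.e (nat_lit 24632) (nat_lit 9) (.e (nat_lit 336048) (nat_lit 6) .nil))))) .nil)) 
(.lf (nat_lit 9053) (.g (nat_lit 1542) (.e (nat_lit 7936) (nat_lit 24) (.e (nat_lit 360466) (nat_lit 3) (.e (nat_lit 516179) (nat_lit 15) (.e (nat_lit 475214) (nat_lit 42) (.e (nat_lit 720938) (nat_lit 22) .nil))))) .nil))) (.nd (nat_lit 6) 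
(.lf (nat_lit 9021) (.g (nat_lit 3039) (.e (nat_lit 7936) (nat_lit 24) (.e (nat_lit 360466) (nat_lit 3) (.e (nat_lit 516145) (nat_lit 9) (.e (nat_lit 426448) (nat_lit 20) (.e (nat_lit 114715) (nat_lit 22) .nil))))) .nil)) 
(.lf (nat_lit 9085) (.g (nat_lit 1580) (.e (nat_lit 7936) (nat_lit 24) (.e (nat_lit 360467) (nat_lit 3) (.e (nat_lit 516146) (nat_lit 9) (.e (nat_lit 426449) (nat_lit 20) (.e (nat_lit 114714) (nat_lit 22) .nil))))) .nil))))))) (.nd (nat_lit 2) (.nd (nat_lit 3) (.nd (nat_lit 4) (.nd (nat_lit 5) (.nd (nat_lit 6) 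
(.lf (nat_lit 8963) (.g (nat_lit 1952) (.e (nat_lit 324) (nat_lit 24) (.e (nat_lit 360489) (nat_lit 21) (.e (nat_lit 770057) (nat_lit 5) (.e (nat_lit 1595) (nat_lit 111) (.e (nat_lit 360492) (nat_lit 22) (.e (nat_lit 778361) (nat_lit 9) .nil)))))) (.g (nat_lit 0) .nil .nil))) 
(.lf (nat_lit 9027) (.g (nat_lit 1539) (.e (nat_lit 7936) (nat_lit 24) (.e (nat_lit 360466) (nat_lit 3) (.e (nat_lit 516146) (nat_lit 9) (.e (nat_lit 426416) (nat_lit 15) .nil)))) .nil))) (.nd (nat_lit 6) 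
(.lf (nat_lit 8995) (.g (nat_lit 2158) (.e (nat_lit 324) (nat_lit 24) (.e (nat_lit 360491) (nat_lit 22) (.e (nat_lit 778466) (nat_lit 11) (.e (nat_lit 24641) (nat_lit 10) (.e (nat_lit 344180) (nat_lit 44) (.e (nat_lit 778361) (nat_lit 9) .nil)))))) (.g (nat_lit 0) .nil .nil))) 
(.lf (nat_lit 9059) (.g (nat_lit 901) (.e (nat_lit 7936) (nat_lit 24) (.e (nat_lit 360466) (nat_lit 3) (.e (nat_lit 516180) (nat_lit 15) (.e (nat_lit 475212) (nat_lit 42) (.e (nat_lit 720941) (nat_lit 22) .nil))))) .nil)))) (.nd (nat_lit 5) (.nd (nat_lit 6) 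
(.lf (nat_lit 8979) (.g (nat_lit 1090) (.e (nat_lit 324) (nat_lit 24) (.e (nat_lit 360490) (nat_lit 22) (.e (nat_lit 778340) (nat_lit 9) (.e (nat_lit 323) (nat_lit 24) (.e (nat_lit 360491) (nat_lit 22) (.e (nat_lit 778362) (nat_lit 9) .nil)))))) (.g (nat_lit 0) .nil .nil))) 
(.lf (nat_lit 9043) (.g (nat_lit 1683) (.e (nat_lit 7936) (nat_lit 24) (.e (nat_lit 360466) (nat_lit 3) (.e (nat_lit 516150) (nat_lit 9) (.e (nat_lit 426448) (nat_lit 20) (.e (nat_lit 114716) (nat_lit 22) .nil))))) .nil))) (.nd (nat_lit 6) 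
(.lf (nat_lit 9011) (.g (nat_lit 981) (.e (nat_lit 7936) (nat_lit 24) (.e (nat_lit 360466) (nat_lit 3) (.e (nat_lit 516098) (nat_lit 0) (.e (nat_lit 7591) (nat_lit 407) .nil)))) .nil)) 
(.lf (nat_lit 9075) (.g (nat_lit 1534) (.e (nat_lit 7936) (nat_lit 24) (.e (nat_lit 360467) (nat_lit 3) (.e (nat_lit 516144) (nat_lit 9) (.e (nat_lit 426448) (nat_lit 20) (.e (nat_lit 114714) (nat_lit 22) .nil))))) .nil))))) (.nd (nat_lit 4) (.nd (nat_lit 5) (.nd (nat_lit 6) 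
(.lf (nat_lit 8971) (.g (nat_lit 1116) (.e (nat_lit 324) (nat_lit 24) (.e (nat_lit 360489) (nat_lit 21) (.e (nat_lit 770058) (nat_lit 5) (.e (nat_lit 1598) (nat_lit 111) (.e (nat_lit 360491) (nat_lit 22) (.e (nat_lit 778359) (nat_lit 9) .nil)))))) (.g (nat_lit 0) .nil .nil))) 
(.lf (nat_lit 9035) (.g (nat_lit 989) (.e (nat_lit 7936) (nat_lit 24) (.e (nat_lit 360466) (nat_lit 3) (.e (nat_lit 516146) (nat_lit 9) (.e (nat_lit 433920) (nat_lit 20) .nil)))) .nil))) (.nd (nat_lit 6) 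
(.lf (nat_lit 9003) (.g (nat_lit 876) (.e (nat_lit 7936) (nat_lit 24) (.e (nat_lit 360451) (nat_lit 0) (.e (nat_lit 7261) (nat_lit 384) (.e (nat_lit 57424) (nat_lit 14) .nil)))) .nil)) 
(.lf (nat_lit 9067) (.g (nat_lit 1723) (.e (nat_lit 7936) (nat_lit 24) (.e (nat_lit 360467) (nat_lit 3) (.e (nat_lit 516097) (nat_lit 0) (.e (nat_lit 7593) (nat_lit 407) (.e (nat_lit 73754) (nat_lit 8) .nil))))) .nil)))) (.nd (nat_lit 5) (.nd (nat_lit 6) 
(.lf (nat_lit 8987) (.g (nat_lit 2309) (.e (nat_lit 324) (nat_lit 24) (.e (nat_lit 360491) (nat_lit 22) (.e (nat_lit 778464) (nat_lit 11) (.e (nat_lit 24640) (nat_lit 10) (.e (nat_lit 344179) (nat_lit 44) (.e (nat_lit 778361) (nat_lit 9) .nil)))))) (.g (nat_lit 6) .nil .nil))) 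
(.lf (nat_lit 9051) (.g (nat_lit 1836) (.e (nat_lit 7936) (nat_lit 24) (.e (nat_lit 360466) (nat_lit 3) (.e (nat_lit 516179) (nat_lit 15) (.e (nat_lit 475214) (nat_lit 42) (.e (nat_lit 720936) (nat_lit 22) .nil))))) .nil))) (.nd (nat_lit 6) 
(.lf (nat_lit 9019) (.g (nat_lit 1737) (.e (nat_lit 7936) (nat_lit 24) (.e (nat_lit 360466) (nat_lit 3) (.e (nat_lit 516144) (nat_lit 9) (.e (nat_lit 426448) (nat_lit 20) (.e (nat_lit 114715) (nat_lit 22) .nil))))) .nil)) 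
(.lf (nat_lit 9083) (.g (nat_lit 1653) (.e (nat_lit 7936) (nat_lit 24) (.e (nat_lit 360467) (nat_lit 3) (.e (nat_lit 516146) (nat_lit 9) (.e (nat_lit 426448) (nat_lit 20) (.e (nat_lit 114716) (nat_lit 22) .nil))))) .nil)))))) (.nd (nat_lit 3) (.nd (nat_lit 4) (.nd (nat_lit 5) (.nd (nat_lit 6) 
(.lf (nat_lit 8967) (.g (nat_lit 1740) (.e (nat_lit 324) (nat_lit 24) (.e (nat_lit 360489) (nat_lit 21) (.e (nat_lit 770057) (nat_lit 5) (.e (nat_lit 1599) (nat_lit 111) (.e (nat_lit 360491) (nat_lit 22) (.e (nat_lit 778362) (nat_lit 9) .nil)))))) (.g (nat_lit 0) .nil .nil))) 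
(.lf (nat_lit 9031) (.g (nat_lit 1492) (.e (nat_lit 7936) (nat_lit 24) (.e (nat_lit 360466) (nat_lit 3) (.e (nat_lit 516146) (nat_lit 9) (.e (nat_lit 426448) (nat_lit 20) (.e (nat_lit 114716) (nat_lit 22) .nil))))) .nil))) (.nd (nat_lit 6) 
(.lf (nat_lit 8999) (.g (nat_lit 1919) (.e (nat_lit 7936) (nat_lit 24) (.e (nat_lit 360451) (nat_lit 0) (.e (nat_lit 7125) (nat_lit 382) (.e (nat_lit 1222) (nat_lit 90) (.e (nat_lit 81963) (nat_lit 26) .nil))))) .nil)) 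
(.lf (nat_lit 9063) (.g (nat_lit 526) (.e (nat_lit 7936) (nat_lit 24) (.e (nat_lit 360467) (nat_lit 3) (.e (nat_lit 516097) (nat_lit 0) .nil))) .nil)))) (.nd (nat_lit 5) (.nd (nat_lit 6) 
(.lf (nat_lit 8983) (.g (nat_lit 731) (.e (nat_lit 324) (nat_lit 24) (.e (nat_lit 360491) (nat_lit 22) (.e (nat_lit 778362) (nat_lit 9) (.e (nat_lit 309) (nat_lit 23) .nil)))) .nil)) 
(.lf (nat_lit 9047) (.g (nat_lit 914) (.e (nat_lit 7936) (nat_lit 24) (.e (nat_lit 360466) (nat_lit 3) (.e (nat_lit 516179) (nat_lit 15) (.e (nat_lit 475212) (nat_lit 42) .nil)))) .nil))) (.nd (nat_lit 6) 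
(.lf (nat_lit 9015) (.g (nat_lit 950) (.e (nat_lit 7936) (nat_lit 24) (.e (nat_lit 360466) (nat_lit 3) (.e (nat_lit 516105) (nat_lit 0) (.e (nat_lit 7936) (nat_lit 407) .nil)))) .nil)) 
(.lf (nat_lit 9079) (.g (nat_lit 1296) (.e (nat_lit 7936) (nat_lit 24) (.e (nat_lit 360467) (nat_lit 3) (.e (nat_lit 516146) (nat_lit 9) (.e (nat_lit 426361) (nat_lit 15) .nil)))) .nil))))) (.nd (nat_lit 4) (.nd (nat_lit 5) (.nd (nat_lit 6) 
(.lf (nat_lit 8975) (.g (nat_lit 1290) (.e (nat_lit 324) (nat_lit 24) (.e (nat_lit 360489) (nat_lit 21) (.e (nat_lit 770058) (nat_lit 5) (.e (nat_lit 1599) (nat_lit 111) (.e (nat_lit 360491) (nat_lit 22) (.e (nat_lit 778361) (nat_lit 9) .nil)))))) (.g (nat_lit 0) .nil .nil))) 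
(.lf (nat_lit 9039) (.g (nat_lit 1318) (.e (nat_lit 7936) (nat_lit 24) (.e (nat_lit 360466) (nat_lit 3) (.e (nat_lit 516150) (nat_lit 9) (.e (nat_lit 426446) (nat_lit 20) .nil)))) .nil))) (.nd (nat_lit 6) 
(.lf (nat_lit 9007) (.g (nat_lit 1660) (.e (nat_lit 7936) (nat_lit 24) (.e (nat_lit 360466) (nat_lit 3) (.e (nat_lit 516097) (nat_lit 0) (.e (nat_lit 7591) (nat_lit 407) (.e (nat_lit 73754) (nat_lit 8) .nil))))) .nil)) 
(.lf (nat_lit 9071) (.g (nat_lit 1476) (.e (nat_lit 7936) (nat_lit 24) (.e (nat_lit 360467) (nat_lit 3) (.e (nat_lit 516098) (nat_lit 0) (.e (nat_lit 7593) (nat_lit 407) (.e (nat_lit 73754) (nat_lit 8) .nil))))) .nil)))) (.nd (nat_lit 5) (.nd (nat_lit 6) 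
(.lf (nat_lit 8991) (.g (nat_lit 2321) (.e (nat_lit 324) (nat_lit 24) (.e (nat_lit 360491) (nat_lit 22) (.e (nat_lit 778466) (nat_lit 11) (.e (nat_lit 24636) (nat_lit 9) (.e (nat_lit 336051) (nat_lit 6) (.e (nat_lit 147466) (nat_lit 9) .nil)))))) (.g (nat_lit 0) .nil .nil))) 
(.lf (nat_lit 9055) (.g (nat_lit 1888) (.e (nat_lit 7936) (nat_lit 24) (.e (nat_lit 360466) (nat_lit 3) (.e (nat_lit 516179) (nat_lit 15) (.e (nat_lit 475214) (nat_lit 42) (.e (nat_lit 720941) (nat_lit 22) .nil))))) .nil))) (.nd (nat_lit 6) 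
(.lf (nat_lit 9023) (.g (nat_lit 1255) (.e (nat_lit 7936) (nat_lit 24) (.e (nat_lit 360466) (nat_lit 3) (.e (nat_lit 516146) (nat_lit 9) (.e (nat_lit 426360) (nat_lit 15) .nil)))) .nil)) 
(.lf (nat_lit 9087) (.g (nat_lit 1244) (.e (nat_lit 7936) (nat_lit 24) (.e (nat_lit 360467) (nat_lit 3) (.e (nat_lit 516146) (nat_lit 9) (.e (nat_lit 433920) (nat_lit 20) .nil)))) .nil)))))))))

noncomputable def tv127 : DT := (.nd (nat_lit 0) (.nd (nat_lit 1) (.nd (nat_lit 2) (.nd (nat_lit 3) (.nd (nat_lit 4) (.nd (nat_lit 5) (.nd (nat_lit 6) 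
(.lf (nat_lit 9088) (.g (nat_lit 362) (.e (nat_lit 7936) (nat_lit 24) (.e (nat_lit 360467) (nat_lit 3) (.e (nat_lit 516179) (nat_lit 15) .nil))) .nil)) 
(.lf (nat_lit 9152) (.g (nat_lit 2233) (.e (nat_lit 7936) (nat_lit 24) (.e (nat_lit 360475) (nat_lit 8) (.e (nat_lit 557087) (nat_lit 11) (.e (nat_lit 24644) (nat_lit 11) (.e (nat_lit 368682) (nat_lit 26) .nil))))) .nil))) (.nd (nat_lit 6) 
(.lf (nat_lit 9120) (.g (nat_lit 2180) (.e (nat_lit 7936) (nat_lit 24) (.e (nat_lit 360473) (nat_lit 8) (.e (nat_lit 557087) (nat_lit 11) (.e (nat_lit 24640) (nat_lit 10) (.e (nat_lit 344132) (nat_lit 26) .nil))))) .nil)) 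
(.lf (nat_lit 9184) (.g (nat_lit 1638) (.e (nat_lit 331) (nat_lit 26) (.e (nat_lit 376842) (nat_lit 11) (.e (nat_lit 426188) (nat_lit 9) .nil))) .nil)))) (.nd (nat_lit 5) (.nd (nat_lit 6) 
(.lf (nat_lit 9104) (.g (nat_lit 1991) (.e (nat_lit 7936) (nat_lit 24) (.e (nat_lit 360467) (nat_lit 3) (.e (nat_lit 516185) (nat_lit 16) (.e (nat_lit 491560) (nat_lit 10) (.e (nat_lit 344133) (nat_lit 26) .nil))))) .nil)) 
(.lf (nat_lit 9168) (.g (nat_lit 354) (.e (nat_lit 7936) (nat_lit 24) (.e (nat_lit 360486) (nat_lit 18) (.e (nat_lit 671762) (nat_lit 4) .nil))) .nil))) (.nd (nat_lit 6) 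
(.lf (nat_lit 9136) (.g (nat_lit 1251) (.e (nat_lit 7936) (nat_lit 24) (.e (nat_lit 360475) (nat_lit 8) (.e (nat_lit 557065) (nat_lit 9) (.e (nat_lit 324) (nat_lit 24) .nil)))) .nil)) 
(.lf (nat_lit 9200) (.g (nat_lit 2840) (.e (nat_lit 332) (nat_lit 26) (.e (nat_lit 376842) (nat_lit 11) (.e (nat_lit 426011) (nat_lit 0) (.e (nat_lit 7591) (nat_lit 407) (.e (nat_lit 73776) (nat_lit 26) (.e (nat_lit 778362) (nat_lit 9) .nil)))))) (.g (nat_lit 5) .nil .nil)))))) (.nd (nat_lit 4) (.nd (nat_lit 5) (.nd (nat_lit 6) 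
(.lf (nat_lit 9096) (.g (nat_lit 1631) (.e (nat_lit 7936) (nat_lit 24) (.e (nat_lit 360467) (nat_lit 3) (.e (nat_lit 516179) (nat_lit 15) (.e (nat_lit 475220) (nat_lit 44) (.e (nat_lit 737316) (nat_lit 13) .nil))))) .nil)) 
(.lf (nat_lit 9160) (.g (nat_lit 1643) (.e (nat_lit 7936) (nat_lit 24) (.e (nat_lit 360475) (nat_lit 8) (.e (nat_lit 557119) (nat_lit 18) (.e (nat_lit 2797) (nat_lit 180) (.e (nat_lit 303143) (nat_lit 12) .nil))))) .nil))) (.nd (nat_lit 6) 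
(.lf (nat_lit 9128) (.g (nat_lit 1582) (.e (nat_lit 7936) (nat_lit 24) (.e (nat_lit 360474) (nat_lit 8) (.e (nat_lit 557072) (nat_lit 9) (.e (nat_lit 7936) (nat_lit 24) .nil)))) .nil)) 
(.lf (nat_lit 9192) (.g (nat_lit 1637) (.e (nat_lit 331) (nat_lit 26) (.e (nat_lit 376862) (nat_lit 22) (.e (nat_lit 90170) (nat_lit 13) (.e (nat_lit 179968) (nat_lit 20) .nil)))) .nil)))) (.nd (nat_lit 5) (.nd (nat_lit 6) 
(.lf (nat_lit 9112) (.g (nat_lit 1244) (.e (nat_lit 7936) (nat_lit 24) (.e (nat_lit 360471) (nat_lit 7) (.e (nat_lit 548874) (nat_lit 5) (.e (nat_lit 1599) (nat_lit 111) .nil)))) .nil)) 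
(.lf (nat_lit 9176) (.g (nat_lit 2636) (.e (nat_lit 328) (nat_lit 25) (.e (nat_lit 376576) (nat_lit 5) (.e (nat_lit 180271) (nat_lit 26) (.e (nat_lit 704629) (nat_lit 9) (.e (nat_lit 442) (nat_lit 33) (.e (nat_lit 442112) (nat_lit 8) .nil)))))) (.g (nat_lit 5) .nil .nil)))) (.nd (nat_lit 6) 
(.lf (nat_lit 9144) (.g (nat_lit 2040) (.e (nat_lit 7936) (nat_lit 24) (.e (nat_lit 360475) (nat_lit 8) (.e (nat_lit 557086) (nat_lit 11) (.e (nat_lit 24640) (nat_lit 10) (.e (nat_lit 344129) (nat_lit 26) .nil))))) .nil)) 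
(.lf (nat_lit 9208) (.g (nat_lit 1496) (.e (nat_lit 332) (nat_lit 26) (.e (nat_lit 376842) (nat_lit 11) (.e (nat_lit 426500) (nat_lit 27) (.e (nat_lit 335995) (nat_lit 1) .nil)))) .nil)))))) (.nd (nat_lit 3) (.nd (nat_lit 4) (.nd (nat_lit 5) (.nd (nat_lit 6) 
(.lf (nat_lit 9092) (.g (nat_lit 1441) (.e (nat_lit 7936) (nat_lit 24) (.e (nat_lit 360467) (nat_lit 3) (.e (nat_lit 516179) (nat_lit 15) (.e (nat_lit 475212) (nat_lit 42) (.e (nat_lit 720941) (nat_lit 22) .nil))))) .nil)) 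
(.lf (nat_lit 9156) (.g (nat_lit 2826) (.e (nat_lit 7936) (nat_lit 24) (.e (nat_lit 360475) (nat_lit 8) (.e (nat_lit 557090) (nat_lit 12) (.e (nat_lit 163843) (nat_lit 0) (.e (nat_lit 6830) (nat_lit 367) .nil))))) .nil))) (.nd (nat_lit 6) 
(.lf (nat_lit 9124) (.g (nat_lit 1280) (.e (nat_lit 7936) (nat_lit 24) (.e (nat_lit 360473) (nat_lit 8) (.e (nat_lit 557119) (nat_lit 18) (.e (nat_lit 2797) (nat_lit 180) .nil)))) .nil)) 
(.lf (nat_lit 9188) (.g (nat_lit 2022) (.e (nat_lit 331) (nat_lit 26) (.e (nat_lit 376842) (nat_lit 11) (.e (nat_lit 426500) (nat_lit 27) (.e (nat_lit 335996) (nat_lit 1) (.e (nat_lit 57851) (nat_lit 252) .nil))))) .nil)))) (.nd (nat_lit 5) (.nd (nat_lit 6) 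
(.lf (nat_lit 9108) (.g (nat_lit 848) (.e (nat_lit 7936) (nat_lit 24) (.e (nat_lit 360471) (nat_lit 7) (.e (nat_lit 548872) (nat_lit 5) (.e (nat_lit 1586) (nat_lit 111) .nil)))) .nil)) 
(.lf (nat_lit 9172) (.g (nat_lit 1599) (.e (nat_lit 7936) (nat_lit 24) (.e (nat_lit 360491) (nat_lit 22) (.e (nat_lit 778466) (nat_lit 11) (.e (nat_lit 24617) (nat_lit 7) (.e (nat_lit 327424) (nat_lit 3) .nil))))) .nil))) (.nd (nat_lit 6) 
(.lf (nat_lit 9140) (.g (nat_lit 1436) (.e (nat_lit 7936) (nat_lit 24) (.e (nat_lit 360475) (nat_lit 8) (.e (nat_lit 557067) (nat_lit 9) (.e (nat_lit 7936) (nat_lit 24) .nil)))) .nil)) 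
(.lf (nat_lit 9204) (.g (nat_lit 1965) (.e (nat_lit 332) (nat_lit 26) (.e (nat_lit 376842) (nat_lit 11) (.e (nat_lit 426343) (nat_lit 14) (.e (nat_lit 491560) (nat_lit 10) .nil)))) .nil))))) (.nd (nat_lit 4) (.nd (nat_lit 5) (.nd (nat_lit 6) 
(.lf (nat_lit 9100) (.g (nat_lit 985) (.e (nat_lit 7936) (nat_lit 24) (.e (nat_lit 360467) (nat_lit 3) (.e (nat_lit 516180) (nat_lit 15) (.e (nat_lit 475214) (nat_lit 42) (.e (nat_lit 720938) (nat_lit 22) .nil))))) .nil)) 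
(.lf (nat_lit 9164) (.g (nat_lit 949) (.e (nat_lit 7936) (nat_lit 24) (.e (nat_lit 360482) (nat_lit 15) (.e (nat_lit 647195) (nat_lit 9) (.e (nat_lit 7936) (nat_lit 35) .nil)))) .nil))) (.nd (nat_lit 6) 
(.lf (nat_lit 9132) (.g (nat_lit 2679) (.e (nat_lit 7936) (nat_lit 24) (.e (nat_lit 360474) (nat_lit 8) (.e (nat_lit 557087) (nat_lit 11) (.e (nat_lit 24640) (nat_lit 10) .nil)))) .nil)) 
(.lf (nat_lit 9196) (.g (nat_lit 830) (.e (nat_lit 331) (nat_lit 26) (.e (nat_lit 376865) (nat_lit 22) (.e (nat_lit 90185) (nat_lit 17) .nil))) .nil)))) (.nd (nat_lit 5) (.nd (nat_lit 6) 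
(.lf (nat_lit 9116) (.g (nat_lit 1320) (.e (nat_lit 7936) (nat_lit 24) (.e (nat_lit 360473) (nat_lit 8) (.e (nat_lit 557067) (nat_lit 9) (.e (nat_lit 7936) (nat_lit 24) .nil)))) .nil)) 
(.lf (nat_lit 9180) (.g (nat_lit 1614) (.e (nat_lit 329) (nat_lit 25) (.e (nat_lit 368676) (nat_lit 21) (.e (nat_lit 516174) (nat_lit 14) (.e (nat_lit 474880) (nat_lit 3) .nil)))) .nil))) (.nd (nat_lit 6) 
(.lf (nat_lit 9148) (.g (nat_lit 1947) (.e (nat_lit 7936) (nat_lit 24) (.e (nat_lit 360475) (nat_lit 8) (.e (nat_lit 557087) (nat_lit 11) (.e (nat_lit 24640) (nat_lit 10) (.e (nat_lit 344132) (nat_lit 26) .nil))))) .nil)) 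
(.lf (nat_lit 9212) (.g (nat_lit 548) (.e (nat_lit 332) (nat_lit 26) (.e (nat_lit 376871) (nat_lit 25) (.e (nat_lit 139276) (nat_lit 2) (.e (nat_lit 16461) (nat_lit 12) (.e (nat_lit 483072) (nat_lit 0) .nil))))) (.g (nat_lit 4) .nil .nil)))))))) (.nd (nat_lit 2) (.nd (nat_lit 3) (.nd (nat_lit 4) (.nd (nat_lit 5) (.nd (nat_lit 6) 
(.lf (nat_lit 9090) (.g (nat_lit 1493) (.e (nat_lit 7936) (nat_lit 24) (.e (nat_lit 360467) (nat_lit 3) (.e (nat_lit 516179) (nat_lit 15) (.e (nat_lit 475212) (nat_lit 42) (.e (nat_lit 720937) (nat_lit 22) .nil))))) .nil)) 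
(.lf (nat_lit 9154) (.g (nat_lit 2020) (.e (nat_lit 7936) (nat_lit 24) (.e (nat_lit 360475) (nat_lit 8) (.e (nat_lit 557090) (nat_lit 12) (.e (nat_lit 163841) (nat_lit 0) .nil)))) .nil))) (.nd (nat_lit 6) 
(.lf (nat_lit 9122) (.g (nat_lit 2285) (.e (nat_lit 7936) (nat_lit 24) (.e (nat_lit 360473) (nat_lit 8) (.e (nat_lit 557087) (nat_lit 11) (.e (nat_lit 24641) (nat_lit 10) (.e (nat_lit 344132) (nat_lit 26) .nil))))) .nil)) 
(.lf (nat_lit 9186) (.g (nat_lit 1653) (.e (nat_lit 331) (nat_lit 26) (.e (nat_lit 376842) (nat_lit 11) (.e (nat_lit 426298) (nat_lit 11) .nil))) .nil)))) (.nd (nat_lit 5) (.nd (nat_lit 6) 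
(.lf (nat_lit 9106) (.g (nat_lit 1734) (.e (nat_lit 7936) (nat_lit 24) (.e (nat_lit 360467) (nat_lit 3) (.e (nat_lit 524032) (nat_lit 33) (.e (nat_lit 401454) (nat_lit 12) (.e (nat_lit 475139) (nat_lit 0) .nil))))) .nil)) 
(.lf (nat_lit 9170) (.g (nat_lit 1164) (.e (nat_lit 7936) (nat_lit 24) (.e (nat_lit 360486) (nat_lit 18) (.e (nat_lit 671762) (nat_lit 4) (.e (nat_lit 65583) (nat_lit 7) .nil)))) .nil))) (.nd (nat_lit 6) 
(.lf (nat_lit 9138) (.g (nat_lit 1249) (.e (nat_lit 7936) (nat_lit 24) (.e (nat_lit 360475) (nat_lit 8) (.e (nat_lit 557066) (nat_lit 9) (.e (nat_lit 321) (nat_lit 24) .nil)))) .nil)) 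
(.lf (nat_lit 9202) (.g (nat_lit 1171) (.e (nat_lit 332) (nat_lit 26) (.e (nat_lit 376842) (nat_lit 11) (.e (nat_lit 426341) (nat_lit 14) .nil))) .nil))))) (.nd (nat_lit 4) (.nd (nat_lit 5) (.nd (nat_lit 6) 
(.lf (nat_lit 9098) (.g (nat_lit 1089) (.e (nat_lit 7936) (nat_lit 24) (.e (nat_lit 360467) (nat_lit 3) (.e (nat_lit 516180) (nat_lit 15) (.e (nat_lit 475212) (nat_lit 42) (.e (nat_lit 720938) (nat_lit 22) .nil))))) .nil)) 
(.lf (nat_lit 9162) (.g (nat_lit 950) (.e (nat_lit 7936) (nat_lit 24) (.e (nat_lit 360482) (nat_lit 15) (.e (nat_lit 647190) (nat_lit 9) (.e (nat_lit 7936) (nat_lit 35) .nil)))) .nil))) (.nd (nat_lit 6) 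
(.lf (nat_lit 9130) (.g (nat_lit 1552) (.e (nat_lit 7936) (nat_lit 24) (.e (nat_lit 360474) (nat_lit 8) (.e (nat_lit 557077) (nat_lit 9) (.e (nat_lit 7936) (nat_lit 24) .nil)))) .nil)) 
(.lf (nat_lit 9194) (.g (nat_lit 1561) (.e (nat_lit 331) (nat_lit 26) (.e (nat_lit 376862) (nat_lit 22) (.e (nat_lit 90185) (nat_lit 17) (.e (nat_lit 245504) (nat_lit 20) .nil)))) .nil)))) (.nd (nat_lit 5) (.nd (nat_lit 6) 
(.lf (nat_lit 9114) (.g (nat_lit 1473) (.e (nat_lit 7936) (nat_lit 24) (.e (nat_lit 360473) (nat_lit 8) (.e (nat_lit 557065) (nat_lit 9) (.e (nat_lit 321) (nat_lit 24) (.e (nat_lit 360473) (nat_lit 8) .nil))))) .nil)) 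
(.lf (nat_lit 9178) (.g (nat_lit 4193) (.e (nat_lit 328) (nat_lit 25) (.e (nat_lit 368675) (nat_lit 21) (.e (nat_lit 516166) (nat_lit 12) (.e (nat_lit 450587) (nat_lit 10) (.e (nat_lit 573478) (nat_lit 12) (.e (nat_lit 57574) (nat_lit 55) (.e (nat_lit 778359) (nat_lit 9) .nil))))))) (.g (nat_lit 4) .nil .nil)))) (.nd (nat_lit 6) 
(.lf (nat_lit 9146) (.g (nat_lit 1351) (.e (nat_lit 7936) (nat_lit 24) (.e (nat_lit 360475) (nat_lit 8) (.e (nat_lit 557087) (nat_lit 11) (.e (nat_lit 24639) (nat_lit 10) .nil)))) .nil)) 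
(.lf (nat_lit 9210) (.g (nat_lit 2022) (.e (nat_lit 332) (nat_lit 26) (.e (nat_lit 376842) (nat_lit 11) (.e (nat_lit 426500) (nat_lit 27) (.e (nat_lit 335996) (nat_lit 1) (.e (nat_lit 57851) (nat_lit 252) .nil))))) .nil)))))) (.nd (nat_lit 3) (.nd (nat_lit 4) (.nd (nat_lit 5) (.nd (nat_lit 6) 
(.lf (nat_lit 9094) (.g (nat_lit 1518) (.e (nat_lit 7936) (nat_lit 24) (.e (nat_lit 360467) (nat_lit 3) (.e (nat_lit 516179) (nat_lit 15) (.e (nat_lit 475214) (nat_lit 42) (.e (nat_lit 720938) (nat_lit 22) .nil))))) .nil)) 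
(.lf (nat_lit 9158) (.g (nat_lit 2628) (.e (nat_lit 7936) (nat_lit 24) (.e (nat_lit 360475) (nat_lit 8) (.e (nat_lit 557090) (nat_lit 12) (.e (nat_lit 163844) (nat_lit 0) (.e (nat_lit 6828) (nat_lit 367) .nil))))) .nil))) (.nd (nat_lit 6) 
(.lf (nat_lit 9126) (.g (nat_lit 1966) (.e (nat_lit 7936) (nat_lit 24) (.e (nat_lit 360473) (nat_lit 8) (.e (nat_lit 557119) (nat_lit 18) (.e (nat_lit 2798) (nat_lit 180) (.e (nat_lit 303143) (nat_lit 12) .nil))))) .nil)) 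
(.lf (nat_lit 9190) (.g (nat_lit 553) (.e (nat_lit 331) (nat_lit 26) (.e (nat_lit 376862) (nat_lit 22) (.e (nat_lit 90168) (nat_lit 13) .nil))) .nil)))) (.nd (nat_lit 5) (.nd (nat_lit 6) 
(.lf (nat_lit 9110) (.g (nat_lit 478) (.e (nat_lit 7936) (nat_lit 24) (.e (nat_lit 360471) (nat_lit 7) (.e (nat_lit 548874) (nat_lit 5) .nil))) .nil)) 
(.lf (nat_lit 9174) (.g (nat_lit 1431) (.e (nat_lit 326) (nat_lit 25) (.e (nat_lit 368676) (nat_lit 21) (.e (nat_lit 516174) (nat_lit 14) .nil))) .nil))) (.nd (nat_lit 6) 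
(.lf (nat_lit 9142) (.g (nat_lit 1003) (.e (nat_lit 7936) (nat_lit 24) (.e (nat_lit 360475) (nat_lit 8) (.e (nat_lit 557074) (nat_lit 9) (.e (nat_lit 7936) (nat_lit 24) .nil)))) .nil)) 
(.lf (nat_lit 9206) (.g (nat_lit 862) (.e (nat_lit 332) (nat_lit 26) (.e (nat_lit 376842) (nat_lit 11) (.e (nat_lit 426500) (nat_lit 27) .nil))) .nil))))) (.nd (nat_lit 4) (.nd (nat_lit 5) (.nd (nat_lit 6) 
(.lf (nat_lit 9102) (.g (nat_lit 2094) (.e (nat_lit 7936) (nat_lit 24) (.e (nat_lit 360467) (nat_lit 3) (.e (nat_lit 516185) (nat_lit 16) (.e (nat_lit 491560) (nat_lit 10) (.e (nat_lit 344129) (nat_lit 26) .nil))))) .nil)) 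
(.lf (nat_lit 9166) (.g (nat_lit 1001) (.e (nat_lit 7936) (nat_lit 24) (.e (nat_lit 360484) (nat_lit 15) (.e (nat_lit 647195) (nat_lit 9) (.e (nat_lit 7936) (nat_lit 35) .nil)))) .nil))) (.nd (nat_lit 6) 
(.lf (nat_lit 9134) (.g (nat_lit 597) (.e (nat_lit 7936) (nat_lit 24) (.e (nat_lit 360475) (nat_lit 8) (.e (nat_lit 557065) (nat_lit 9) .nil))) .nil)) 
(.lf (nat_lit 9198) (.g (nat_lit 2042) (.e (nat_lit 332) (nat_lit 26) (.e (nat_lit 376842) (nat_lit 11) (.e (nat_lit 426011) (nat_lit 0) (.e (nat_lit 7591) (nat_lit 407) .nil)))) .nil)))) (.nd (nat_lit 5) (.nd (nat_lit 6) 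
(.lf (nat_lit 9118) (.g (nat_lit 669) (.e (nat_lit 7936) (nat_lit 24) (.e (nat_lit 360473) (nat_lit 8) (.e (nat_lit 557077) (nat_lit 9) .nil))) .nil)) 
(.lf (nat_lit 9182) (.g (nat_lit 1346) (.e (nat_lit 330) (nat_lit 25) (.e (nat_lit 368676) (nat_lit 21) (.e (nat_lit 516174) (nat_lit 14) .nil))) .nil))) (.nd (nat_lit 6) 
(.lf (nat_lit 9150) (.g (nat_lit 2652) (.e (nat_lit 7936) (nat_lit 24) (.e (nat_lit 360475) (nat_lit 8) (.e (nat_lit 557087) (nat_lit 11) (.e (nat_lit 24641) (nat_lit 10) (.e (nat_lit 344132) (nat_lit 26) .nil))))) .nil)) 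
(.lf (nat_lit 9214) (.g (nat_lit 1272) (.e (nat_lit 333) (nat_lit 26) (.e (nat_lit 376857) (nat_lit 21) (.e (nat_lit 57655) (nat_lit 152) (.e (nat_lit 1217) (nat_lit 90) (.e (nat_lit 81963) (nat_lit 26) .nil))))) .nil)))))))) (.nd (nat_lit 1) (.nd (nat_lit 2) (.nd (nat_lit 3) (.nd (nat_lit 4) (.nd (nat_lit 5) (.nd (nat_lit 6) 
(.lf (nat_lit 9089) (.g (nat_lit 924) (.e (nat_lit 7936) (nat_lit 24) (.e (nat_lit 360467) (nat_lit 3) (.e (nat_lit 516179) (nat_lit 15) (.e (nat_lit 475212) (nat_lit 42) .nil)))) .nil)) 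
(.lf (nat_lit 9153) (.g (nat_lit 1628) (.e (nat_lit 7936) (nat_lit 24) (.e (nat_lit 360475) (nat_lit 8) (.e (nat_lit 557087) (nat_lit 11) (.e (nat_lit 24645) (nat_lit 11) .nil)))) .nil))) (.nd (nat_lit 6) 
(.lf (nat_lit 9121) (.g (nat_lit 2255) (.e (nat_lit 7936) (nat_lit 24) (.e (nat_lit 360473) (nat_lit 8) (.e (nat_lit 557087) (nat_lit 11) (.e (nat_lit 24641) (nat_lit 10) (.e (nat_lit 344130) (nat_lit 26) .nil))))) .nil)) 
(.lf (nat_lit 9185) (.g (nat_lit 1650) (.e (nat_lit 331) (nat_lit 26) (.e (nat_lit 376842) (nat_lit 11) (.e (nat_lit 426296) (nat_lit 11) .nil))) .nil)))) (.nd (nat_lit 5) (.nd (nat_lit 6) 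
(.lf (nat_lit 9105) (.g (nat_lit 1897) (.e (nat_lit 7936) (nat_lit 24) (.e (nat_lit 360467) (nat_lit 3) (.e (nat_lit 524032) (nat_lit 33) (.e (nat_lit 401454) (nat_lit 12) (.e (nat_lit 475138) (nat_lit 0) .nil))))) .nil)) 
(.lf (nat_lit 9169) (.g (nat_lit 1372) (.e (nat_lit 7936) (nat_lit 24) (.e (nat_lit 360486) (nat_lit 18) (.e (nat_lit 671762) (nat_lit 4) (.e (nat_lit 65582) (nat_lit 7) .nil)))) .nil))) (.nd (nat_lit 6) 
(.lf (nat_lit 9137) (.g (nat_lit 1999) (.e (nat_lit 7936) (nat_lit 24) (.e (nat_lit 360475) (nat_lit 8) (.e (nat_lit 557065) (nat_lit 9) (.e (nat_lit 324) (nat_lit 24) (.e (nat_lit 360474) (nat_lit 8) .nil))))) .nil)) 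
(.lf (nat_lit 9201) (.g (nat_lit 2008) (.e (nat_lit 332) (nat_lit 26) (.e (nat_lit 376842) (nat_lit 11) (.e (nat_lit 426011) (nat_lit 0) (.e (nat_lit 7593) (nat_lit 407) .nil)))) .nil))))) (.nd (nat_lit 4) (.nd (nat_lit 5) (.nd (nat_lit 6) 
(.lf (nat_lit 9097) (.g (nat_lit 731) (.e (nat_lit 7936) (nat_lit 24) (.e (nat_lit 360467) (nat_lit 3) (.e (nat_lit 516180) (nat_lit 15) (.e (nat_lit 475212) (nat_lit 42) .nil)))) .nil)) 
(.lf (nat_lit 9161) (.g (nat_lit 2250) (.e (nat_lit 7936) (nat_lit 24) (.e (nat_lit 360475) (nat_lit 8) (.e (nat_lit 557119) (nat_lit 18) (.e (nat_lit 2798) (nat_lit 180) (.e (nat_lit 303133) (nat_lit 9) .nil))))) .nil))) (.nd (nat_lit 6) 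
(.lf (nat_lit 9129) (.g (nat_lit 1453) (.e (nat_lit 7936) (nat_lit 24) (.e (nat_lit 360474) (nat_lit 8) (.e (nat_lit 557073) (nat_lit 9) (.e (nat_lit 7936) (nat_lit 24) .nil)))) .nil)) 
(.lf (nat_lit 9193) (.g (nat_lit 1874) (.e (nat_lit 331) (nat_lit 26) (.e (nat_lit 376862) (nat_lit 22) (.e (nat_lit 90172) (nat_lit 14) (.e (nat_lit 180261) (nat_lit 20) (.e (nat_lit 655390) (nat_lit 9) .nil))))) .nil)))) (.nd (nat_lit 5) (.nd (nat_lit 6) 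
(.lf (nat_lit 9113) (.g (nat_lit 1891) (.e (nat_lit 7936) (nat_lit 24) (.e (nat_lit 360471) (nat_lit 7) (.e (nat_lit 548889) (nat_lit 9) (.e (nat_lit 65619) (nat_lit 10) (.e (nat_lit 344129) (nat_lit 26) .nil))))) .nil)) 
(.lf (nat_lit 9177) (.g (nat_lit 1228) (.e (nat_lit 328) (nat_lit 25) (.e (nat_lit 368656) (nat_lit 14) (.e (nat_lit 57606) (nat_lit 107) (.e (nat_lit 712448) (nat_lit 6) (.e (nat_lit 188449) (nat_lit 22) (.e (nat_lit 204544) (nat_lit 0) .nil)))))) (.g (nat_lit 5) .nil .nil)))) (.nd (nat_lit 6) 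
(.lf (nat_lit 9145) (.g (nat_lit 945) (.e (nat_lit 7936) (nat_lit 24) (.e (nat_lit 360475) (nat_lit 8) (.e (nat_lit 557086) (nat_lit 11) (.e (nat_lit 24641) (nat_lit 10) .nil)))) .nil)) 
(.lf (nat_lit 9209) (.g (nat_lit 1829) (.e (nat_lit 332) (nat_lit 26) (.e (nat_lit 376842) (nat_lit 11) (.e (nat_lit 426500) (nat_lit 27) (.e (nat_lit 335995) (nat_lit 1) (.e (nat_lit 57848) (nat_lit 252) .nil))))) .nil)))))) (.nd (nat_lit 3) (.nd (nat_lit 4) (.nd (nat_lit 5) (.nd (nat_lit 6) 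
(.lf (nat_lit 9093) (.g (nat_lit 1538) (.e (nat_lit 7936) (nat_lit 24) (.e (nat_lit 360467) (nat_lit 3) (.e (nat_lit 516179) (nat_lit 15) (.e (nat_lit 475214) (nat_lit 42) (.e (nat_lit 720937) (nat_lit 22) .nil))))) .nil)) 
(.lf (nat_lit 9157) (.g (nat_lit 2628) (.e (nat_lit 7936) (nat_lit 24) (.e (nat_lit 360475) (nat_lit 8) (.e (nat_lit 557090) (nat_lit 12) (.e (nat_lit 163844) (nat_lit 0) (.e (nat_lit 6047) (nat_lit 326) .nil))))) .nil))) (.nd (nat_lit 6) 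
(.lf (nat_lit 9125) (.g (nat_lit 1913) (.e (nat_lit 7936) (nat_lit 24) (.e (nat_lit 360473) (nat_lit 8) (.e (nat_lit 557119) (nat_lit 18) (.e (nat_lit 2798) (nat_lit 180) (.e (nat_lit 303133) (nat_lit 9) .nil))))) .nil)) 
(.lf (nat_lit 9189) (.g (nat_lit 1157) (.e (nat_lit 331) (nat_lit 26) (.e (nat_lit 376862) (nat_lit 22) (.e (nat_lit 90167) (nat_lit 13) (.e (nat_lit 179968) (nat_lit 20) .nil)))) .nil)))) (.nd (nat_lit 5) (.nd (nat_lit 6) 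
(.lf (nat_lit 9109) (.g (nat_lit 1411) (.e (nat_lit 7936) (nat_lit 24) (.e (nat_lit 360471) (nat_lit 7) (.e (nat_lit 548873) (nat_lit 5) (.e (nat_lit 1589) (nat_lit 111) (.e (nat_lit 360473) (nat_lit 8) .nil))))) .nil)) 
(.lf (nat_lit 9173) (.g (nat_lit 1339) (.e (nat_lit 325) (nat_lit 25) (.e (nat_lit 368676) (nat_lit 21) (.e (nat_lit 516174) (nat_lit 14) .nil))) .nil))) (.nd (nat_lit 6) 
(.lf (nat_lit 9141) (.g (nat_lit 1149) (.e (nat_lit 7936) (nat_lit 24) (.e (nat_lit 360475) (nat_lit 8) (.e (nat_lit 557073) (nat_lit 9) (.e (nat_lit 7936) (nat_lit 24) .nil)))) .nil)) 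
(.lf (nat_lit 9205) (.g (nat_lit 2091) (.e (nat_lit 332) (nat_lit 26) (.e (nat_lit 376842) (nat_lit 11) (.e (nat_lit 426344) (nat_lit 14) (.e (nat_lit 491556) (nat_lit 9) .nil)))) .nil))))) (.nd (nat_lit 4) (.nd (nat_lit 5) (.nd (nat_lit 6) 
(.lf (nat_lit 9101) (.g (nat_lit 355) (.e (nat_lit 7936) (nat_lit 24) (.e (nat_lit 360467) (nat_lit 3) (.e (nat_lit 516185) (nat_lit 16) .nil))) .nil)) 
(.lf (nat_lit 9165) (.g (nat_lit 812) (.e (nat_lit 7936) (nat_lit 24) (.e (nat_lit 360484) (nat_lit 15) (.e (nat_lit 647190) (nat_lit 9) (.e (nat_lit 7936) (nat_lit 35) .nil)))) .nil))) (.nd (nat_lit 6) 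
(.lf (nat_lit 9133) (.g (nat_lit 839) (.e (nat_lit 7936) (nat_lit 24) (.e (nat_lit 360475) (nat_lit 8) (.e (nat_lit 557064) (nat_lit 9) (.e (nat_lit 322) (nat_lit 24) .nil)))) .nil)) 
(.lf (nat_lit 9197) (.g (nat_lit 765) (.e (nat_lit 332) (nat_lit 26) (.e (nat_lit 376842) (nat_lit 11) (.e (nat_lit 426011) (nat_lit 0) .nil))) .nil)))) (.nd (nat_lit 5) (.nd (nat_lit 6) 
(.lf (nat_lit 9117) (.g (nat_lit 1228) (.e (nat_lit 7936) (nat_lit 24) (.e (nat_lit 360473) (nat_lit 8) (.e (nat_lit 557074) (nat_lit 9) (.e (nat_lit 7936) (nat_lit 24) .nil)))) .nil)) 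
(.lf (nat_lit 9181) (.g (nat_lit 2032) (.e (nat_lit 329) (nat_lit 25) (.e (nat_lit 368676) (nat_lit 21) (.e (nat_lit 516176) (nat_lit 14) (.e (nat_lit 474880) (nat_lit 3) .nil)))) .nil))) (.nd (nat_lit 6) 
(.lf (nat_lit 9149) (.g (nat_lit 2815) (.e (nat_lit 7936) (nat_lit 24) (.e (nat_lit 360475) (nat_lit 8) (.e (nat_lit 557087) (nat_lit 11) (.e (nat_lit 24641) (nat_lit 10) (.e (nat_lit 344130) (nat_lit 26) .nil))))) .nil)) 
(.lf (nat_lit 9213) (.g (nat_lit 1311) (.e (nat_lit 333) (nat_lit 26) (.e (nat_lit 376857) (nat_lit 21) (.e (nat_lit 57655) (nat_lit 152) (.e (nat_lit 1216) (nat_lit 90) (.e (nat_lit 81963) (nat_lit 26) .nil))))) .nil))))))) (.nd (nat_lit 2) (.nd (nat_lit 3) (.nd (nat_lit 4) (.nd (nat_lit 5) (.nd (nat_lit 6) 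
(.lf (nat_lit 9091) (.g (nat_lit 1452) (.e (nat_lit 7936) (nat_lit 24) (.e (nat_lit 360467) (nat_lit 3) (.e (nat_lit 516179) (nat_lit 15) (.e (nat_lit 475212) (nat_lit 42) (.e (nat_lit 720938) (nat_lit 22) .nil))))) .nil)) 
(.lf (nat_lit 9155) (.g (nat_lit 2890) (.e (nat_lit 7936) (nat_lit 24) (.e (nat_lit 360475) (nat_lit 8) (.e (nat_lit 557090) (nat_lit 12) (.e (nat_lit 163843) (nat_lit 0) (.e (nat_lit 6828) (nat_lit 367) .nil))))) .nil))) (.nd (nat_lit 6) 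
(.lf (nat_lit 9123) (.g (nat_lit 2098) (.e (nat_lit 7936) (nat_lit 24) (.e (nat_lit 360473) (nat_lit 8) (.e (nat_lit 557087) (nat_lit 11) (.e (nat_lit 24641) (nat_lit 10) (.e (nat_lit 344133) (nat_lit 26) .nil))))) .nil)) 
(.lf (nat_lit 9187) (.g (nat_lit 862) (.e (nat_lit 331) (nat_lit 26) (.e (nat_lit 376842) (nat_lit 11) (.e (nat_lit 426500) (nat_lit 27) .nil))) .nil)))) (.nd (nat_lit 5) (.nd (nat_lit 6) 
(.lf (nat_lit 9107) (.g (nat_lit 1428) (.e (nat_lit 7936) (nat_lit 24) (.e (nat_lit 360467) (nat_lit 3) (.e (nat_lit 524032) (nat_lit 33) (.e (nat_lit 401454) (nat_lit 12) (.e (nat_lit 475140) (nat_lit 0) .nil))))) .nil)) 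
(.lf (nat_lit 9171) (.g (nat_lit 2311) (.e (nat_lit 7936) (nat_lit 24) (.e (nat_lit 360491) (nat_lit 22) (.e (nat_lit 778466) (nat_lit 11) (.e (nat_lit 24617) (nat_lit 7) (.e (nat_lit 319492) (nat_lit 0) .nil))))) .nil))) (.nd (nat_lit 6) 
(.lf (nat_lit 9139) (.g (nat_lit 1147) (.e (nat_lit 7936) (nat_lit 24) (.e (nat_lit 360475) (nat_lit 8) (.e (nat_lit 557066) (nat_lit 9) (.e (nat_lit 324) (nat_lit 24) .nil)))) .nil)) 
(.lf (nat_lit 9203) (.g (nat_lit 2689) (.e (nat_lit 332) (nat_lit 26) (.e (nat_lit 376842) (nat_lit 11) (.e (nat_lit 426343) (nat_lit 14) (.e (nat_lit 491556) (nat_lit 9) (.e (nat_lit 336051) (nat_lit 6) .nil))))) .nil))))) (.nd (nat_lit 4) (.nd (nat_lit 5) (.nd (nat_lit 6) 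
(.lf (nat_lit 9099) (.g (nat_lit 1137) (.e (nat_lit 7936) (nat_lit 24) (.e (nat_lit 360467) (nat_lit 3) (.e (nat_lit 516180) (nat_lit 15) (.e (nat_lit 475212) (nat_lit 42) (.e (nat_lit 720941) (nat_lit 22) .nil))))) .nil)) 
(.lf (nat_lit 9163) (.g (nat_lit 283) (.e (nat_lit 7936) (nat_lit 24) (.e (nat_lit 360482) (nat_lit 15) (.e (nat_lit 647191) (nat_lit 9) .nil))) .nil))) (.nd (nat_lit 6) 
(.lf (nat_lit 9131) (.g (nat_lit 1844) (.e (nat_lit 7936) (nat_lit 24) (.e (nat_lit 360474) (nat_lit 8) (.e (nat_lit 557081) (nat_lit 9) (.e (nat_lit 7936) (nat_lit 24) .nil)))) .nil)) 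
(.lf (nat_lit 9195) (.g (nat_lit 1634) (.e (nat_lit 331) (nat_lit 26) (.e (nat_lit 376865) (nat_lit 22) (.e (nat_lit 90160) (nat_lit 11) (.e (nat_lit 24584) (nat_lit 0) .nil)))) .nil)))) (.nd (nat_lit 5) (.nd (nat_lit 6) 
(.lf (nat_lit 9115) (.g (nat_lit 1216) (.e (nat_lit 7936) (nat_lit 24) (.e (nat_lit 360473) (nat_lit 8) (.e (nat_lit 557066) (nat_lit 9) (.e (nat_lit 321) (nat_lit 24) .nil)))) .nil)) 
(.lf (nat_lit 9179) (.g (nat_lit 1009) (.e (nat_lit 329) (nat_lit 25) (.e (nat_lit 368676) (nat_lit 21) (.e (nat_lit 516174) (nat_lit 14) .nil))) .nil))) (.nd (nat_lit 6) 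
(.lf (nat_lit 9147) (.g (nat_lit 2010) (.e (nat_lit 7936) (nat_lit 24) (.e (nat_lit 360475) (nat_lit 8) (.e (nat_lit 557087) (nat_lit 11) (.e (nat_lit 24639) (nat_lit 10) (.e (nat_lit 344129) (nat_lit 26) .nil))))) .nil)) 
(.lf (nat_lit 9211) (.g (nat_lit 2220) (.e (nat_lit 332) (nat_lit 26) (.e (nat_lit 376865) (nat_lit 22) (.e (nat_lit 90160) (nat_lit 11) (.e (nat_lit 24584) (nat_lit 0) (.e (nat_lit 1996) (nat_lit 137) .nil))))) .nil)))))) (.nd (nat_lit 3) (.nd (nat_lit 4) (.nd (nat_lit 5) (.nd (nat_lit 6) 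
(.lf (nat_lit 9095) (.g (nat_lit 1861) (.e (nat_lit 7936) (nat_lit 24) (.e (nat_lit 360467) (nat_lit 3) (.e (nat_lit 516179) (nat_lit 15) (.e (nat_lit 475214) (nat_lit 42) (.e (nat_lit 720941) (nat_lit 22) .nil))))) .nil)) 
(.lf (nat_lit 9159) (.g (nat_lit 2628) (.e (nat_lit 7936) (nat_lit 24) (.e (nat_lit 360475) (nat_lit 8) (.e (nat_lit 557090) (nat_lit 12) (.e (nat_lit 163844) (nat_lit 0) (.e (nat_lit 6830) (nat_lit 367) .nil))))) .nil))) (.nd (nat_lit 6) 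
(.lf (nat_lit 9127) (.g (nat_lit 1857) (.e (nat_lit 7936) (nat_lit 24) (.e (nat_lit 360474) (nat_lit 8) (.e (nat_lit 557070) (nat_lit 9) (.e (nat_lit 7936) (nat_lit 24) .nil)))) .nil)) 
(.lf (nat_lit 9191) (.g (nat_lit 997) (.e (nat_lit 331) (nat_lit 26) (.e (nat_lit 376862) (nat_lit 22) (.e (nat_lit 90169) (nat_lit 13) (.e (nat_lit 179968) (nat_lit 20) .nil)))) .nil)))) (.nd (nat_lit 5) (.nd (nat_lit 6) 
(.lf (nat_lit 9111) (.g (nat_lit 2022) (.e (nat_lit 7936) (nat_lit 24) (.e (nat_lit 360471) (nat_lit 7) (.e (nat_lit 548874) (nat_lit 5) (.e (nat_lit 1589) (nat_lit 111) (.e (nat_lit 360473) (nat_lit 8) .nil))))) .nil)) 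
(.lf (nat_lit 9175) (.g (nat_lit 1438) (.e (nat_lit 326) (nat_lit 25) (.e (nat_lit 368676) (nat_lit 21) (.e (nat_lit 516176) (nat_lit 14) .nil))) .nil))) (.nd (nat_lit 6) 
(.lf (nat_lit 9143) (.g (nat_lit 296) (.e (nat_lit 7936) (nat_lit 24) (.e (nat_lit 360475) (nat_lit 8) (.e (nat_lit 557086) (nat_lit 11) .nil))) .nil)) 
(.lf (nat_lit 9207) (.g (nat_lit 1507) (.e (nat_lit 332) (nat_lit 26) (.e (nat_lit 376842) (nat_lit 11) (.e (nat_lit 426500) (nat_lit 27) (.e (nat_lit 335988) (nat_lit 1) .nil)))) .nil))))) (.nd (nat_lit 4) (.nd (nat_lit 5) (.nd (nat_lit 6) 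
(.lf (nat_lit 9103) (.g (nat_lit 2176) (.e (nat_lit 7936) (nat_lit 24) (.e (nat_lit 360467) (nat_lit 3) (.e (nat_lit 516185) (nat_lit 16) (.e (nat_lit 491560) (nat_lit 10) (.e (nat_lit 344132) (nat_lit 26) .nil))))) .nil)) 
(.lf (nat_lit 9167) (.g (nat_lit 364) (.e (nat_lit 7936) (nat_lit 24) (.e (nat_lit 360484) (nat_lit 15) (.e (nat_lit 647196) (nat_lit 9) .nil))) .nil))) (.nd (nat_lit 6) 
(.lf (nat_lit 9135) (.g (nat_lit 1776) (.e (nat_lit 7936) (nat_lit 24) (.e (nat_lit 360475) (nat_lit 8) (.e (nat_lit 557065) (nat_lit 9) (.e (nat_lit 321) (nat_lit 24) (.e (nat_lit 360473) (nat_lit 8) .nil))))) .nil)) 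
(.lf (nat_lit 9199) (.g (nat_lit 2704) (.e (nat_lit 332) (nat_lit 26) (.e (nat_lit 376842) (nat_lit 11) (.e (nat_lit 426011) (nat_lit 0) (.e (nat_lit 7591) (nat_lit 407) (.e (nat_lit 73775) (nat_lit 26) (.e (nat_lit 778362) (nat_lit 9) .nil)))))) (.g (nat_lit 4) .nil .nil))))) (.nd (nat_lit 5) (.nd (nat_lit 6) 
(.lf (nat_lit 9119) (.g (nat_lit 669) (.e (nat_lit 7936) (nat_lit 24) (.e (nat_lit 360473) (nat_lit 8) (.e (nat_lit 557081) (nat_lit 9) .nil))) .nil)) 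
(.lf (nat_lit 9183) (.g (nat_lit 1354) (.e (nat_lit 330) (nat_lit 25) (.e (nat_lit 368676) (nat_lit 21) (.e (nat_lit 516176) (nat_lit 14) .nil))) .nil))) (.nd (nat_lit 6) 
(.lf (nat_lit 9151) (.g (nat_lit 2458) (.e (nat_lit 7936) (nat_lit 24) (.e (nat_lit 360475) (nat_lit 8) (.e (nat_lit 557087) (nat_lit 11) (.e (nat_lit 24641) (nat_lit 10) (.e (nat_lit 344133) (nat_lit 26) .nil))))) .nil)) 
(.lf (nat_lit 9215) (.g (nat_lit 561) (.e (nat_lit 333) (nat_lit 26) (.e (nat_lit 376857) (nat_lit 21) (.e (nat_lit 57664) (nat_lit 152) .nil))) .nil)))))))))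

noncomputable def tv128 : DT := (.nd (nat_lit 0) (.nd (nat_lit 1) (.nd (nat_lit 2) (.nd (nat_lit 3) (.nd (nat_lit 4) (.nd (nat_lit 5) 
(.lf (nat_lit 9216) (.g (nat_lit 602) (.e (nat_lit 333) (nat_lit 26) (.e (nat_lit 376857) (nat_lit 21) (.e (nat_lit 65280) (nat_lit 152) .nil))) .nil)) 
(.lf (nat_lit 9248) (.g (nat_lit 1003) (.e (nat_lit 333) (nat_lit 26) (.e (nat_lit 376867) (nat_lit 23) (.e (nat_lit 98355) (nat_lit 26) (.e (nat_lit 426446) (nat_lit 20) (.e (nat_lit 114715) (nat_lit 22) (.e (nat_lit 90125) (nat_lit 9) .nil)))))) (.g (nat_lit 4) .nil .nil)))) (.nd (nat_lit 5) 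
(.lf (nat_lit 9232) (.g (nat_lit 1093) (.e (nat_lit 333) (nat_lit 26) (.e (nat_lit 376862) (nat_lit 22) (.e (nat_lit 90185) (nat_lit 17) (.e (nat_lit 245504) (nat_lit 20) .nil)))) .nil)) 
(.lf (nat_lit 9264) (.g (nat_lit 1385) (.e (nat_lit 333) (nat_lit 26) (.e (nat_lit 376867) (nat_lit 23) (.e (nat_lit 98384) (nat_lit 32) (.e (nat_lit 475212) (nat_lit 42) (.e (nat_lit 720938) (nat_lit 22) .nil))))) .nil)))) (.nd (nat_lit 4) (.nd (nat_lit 5) 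
(.lf (nat_lit 9224) (.g (nat_lit 583) (.e (nat_lit 333) (nat_lit 26) (.e (nat_lit 376862) (nat_lit 22) (.e (nat_lit 90168) (nat_lit 13) (.e (nat_lit 179968) (nat_lit 20) .nil)))) .nil)) 
(.lf (nat_lit 9256) (.g (nat_lit 1131) (.e (nat_lit 333) (nat_lit 26) (.e (nat_lit 376867) (nat_lit 23) (.e (nat_lit 98359) (nat_lit 26) (.e (nat_lit 433920) (nat_lit 20) .nil)))) .nil))) (.nd (nat_lit 5) 
(.lf (nat_lit 9240) (.g (nat_lit 2273) (.e (nat_lit 333) (nat_lit 26) (.e (nat_lit 376865) (nat_lit 22) (.e (nat_lit 90174) (nat_lit 14) (.e (nat_lit 180261) (nat_lit 20) (.e (nat_lit 655390) (nat_lit 9) (.e (nat_lit 1234) (nat_lit 91) (.e (nat_lit 90125) (nat_lit 9) .nil))))))) (.g (nat_lit 5) .nil .nil))) 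
(.lf (nat_lit 9272) (.g (nat_lit 1770) (.e (nat_lit 333) (nat_lit 26) (.e (nat_lit 376867) (nat_lit 23) (.e (nat_lit 98384) (nat_lit 32) (.e (nat_lit 475214) (nat_lit 42) (.e (nat_lit 720939) (nat_lit 22) (.e (nat_lit 90125) (nat_lit 9) .nil)))))) (.g (nat_lit 6) .nil .nil)))))) (.nd (nat_lit 3) (.nd (nat_lit 4) (.nd (nat_lit 5) 
(.lf (nat_lit 9220) (.g (nat_lit 947) (.e (nat_lit 333) (nat_lit 26) (.e (nat_lit 376860) (nat_lit 21) (.e (nat_lit 57665) (nat_lit 152) (.e (nat_lit 7936) (nat_lit 90) .nil)))) .nil)) 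
(.lf (nat_lit 9252) (.g (nat_lit 1462) (.e (nat_lit 333) (nat_lit 26) (.e (nat_lit 376867) (nat_lit 23) (.e (nat_lit 98356) (nat_lit 26) (.e (nat_lit 426448) (nat_lit 20) (.e (nat_lit 114716) (nat_lit 22) .nil))))) .nil))) (.nd (nat_lit 5) 
(.lf (nat_lit 9236) (.g (nat_lit 518) (.e (nat_lit 333) (nat_lit 26) (.e (nat_lit 376865) (nat_lit 22) (.e (nat_lit 90167) (nat_lit 13) .nil))) .nil)) 
(.lf (nat_lit 9268) (.g (nat_lit 1326) (.e (nat_lit 333) (nat_lit 26) (.e (nat_lit 376867) (nat_lit 23) (.e (nat_lit 98384) (nat_lit 32) (.e (nat_lit 475214) (nat_lit 42) (.e (nat_lit 720937) (nat_lit 22) .nil))))) .nil)))) (.nd (nat_lit 4) (.nd (nat_lit 5) 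
(.lf (nat_lit 9228) (.g (nat_lit 1119) (.e (nat_lit 333) (nat_lit 26) (.e (nat_lit 376862) (nat_lit 22) (.e (nat_lit 90172) (nat_lit 14) (.e (nat_lit 188160) (nat_lit 19) .nil)))) .nil)) 
(.lf (nat_lit 9260) (.g (nat_lit 650) (.e (nat_lit 333) (nat_lit 26) (.e (nat_lit 376867) (nat_lit 23) (.e (nat_lit 98363) (nat_lit 26) (.e (nat_lit 433920) (nat_lit 20) .nil)))) .nil))) (.nd (nat_lit 5) 
(.lf (nat_lit 9244) (.g (nat_lit 730) (.e (nat_lit 333) (nat_lit 26) (.e (nat_lit 376867) (nat_lit 23) (.e (nat_lit 106240) (nat_lit 16) (.e (nat_lit 401454) (nat_lit 12) (.e (nat_lit 483072) (nat_lit 0) .nil))))) (.g (nat_lit 4) .nil .nil))) 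
(.lf (nat_lit 9276) (.g (nat_lit 1440) (.e (nat_lit 333) (nat_lit 26) (.e (nat_lit 376867) (nat_lit 23) (.e (nat_lit 98385) (nat_lit 32) (.e (nat_lit 475214) (nat_lit 42) (.e (nat_lit 720938) (nat_lit 22) (.e (nat_lit 90122) (nat_lit 9) .nil)))))) (.g (nat_lit 0) .nil .nil))))))) (.nd (nat_lit 2) (.nd (nat_lit 3) (.nd (nat_lit 4) (.nd (nat_lit 5) 
(.lf (nat_lit 9218) (.g (nat_lit 514) (.e (nat_lit 333) (nat_lit 26) (.e (nat_lit 376859) (nat_lit 21) (.e (nat_lit 57655) (nat_lit 152) .nil))) .nil)) 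
(.lf (nat_lit 9250) (.g (nat_lit 1459) (.e (nat_lit 333) (nat_lit 26) (.e (nat_lit 376867) (nat_lit 23) (.e (nat_lit 98355) (nat_lit 26) (.e (nat_lit 426446) (nat_lit 20) (.e (nat_lit 114716) (nat_lit 22) (.e (nat_lit 90125) (nat_lit 9) .nil)))))) (.g (nat_lit 6) .nil .nil)))) (.nd (nat_lit 5) 
(.lf (nat_lit 9234) (.g (nat_lit 1126) (.e (nat_lit 333) (nat_lit 26) (.e (nat_lit 376864) (nat_lit 22) (.e (nat_lit 90170) (nat_lit 13) (.e (nat_lit 179968) (nat_lit 20) .nil)))) .nil)) 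
(.lf (nat_lit 9266) (.g (nat_lit 1478) (.e (nat_lit 333) (nat_lit 26) (.e (nat_lit 376867) (nat_lit 23) (.e (nat_lit 98384) (nat_lit 32) (.e (nat_lit 475212) (nat_lit 42) (.e (nat_lit 720941) (nat_lit 22) (.e (nat_lit 90133) (nat_lit 9) .nil)))))) (.g (nat_lit 4) .nil .nil))))) (.nd (nat_lit 4) (.nd (nat_lit 5) 
(.lf (nat_lit 9226) (.g (nat_lit 1269) (.e (nat_lit 333) (nat_lit 26) (.e (nat_lit 376862) (nat_lit 22) (.e (nat_lit 90170) (nat_lit 13) (.e (nat_lit 179968) (nat_lit 20) .nil)))) .nil)) 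
(.lf (nat_lit 9258) (.g (nat_lit 1437) (.e (nat_lit 333) (nat_lit 26) (.e (nat_lit 376867) (nat_lit 23) (.e (nat_lit 98363) (nat_lit 26) (.e (nat_lit 426447) (nat_lit 20) (.e (nat_lit 114714) (nat_lit 22) (.e (nat_lit 90122) (nat_lit 9) .nil)))))) (.g (nat_lit 6) .nil .nil)))) (.nd (nat_lit 5) 
(.lf (nat_lit 9242) (.g (nat_lit 1437) (.e (nat_lit 333) (nat_lit 26) (.e (nat_lit 376865) (nat_lit 22) (.e (nat_lit 90185) (nat_lit 17) (.e (nat_lit 237582) (nat_lit 1) .nil)))) .nil)) 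
(.lf (nat_lit 9274) (.g (nat_lit 2573) (.e (nat_lit 333) (nat_lit 26) (.e (nat_lit 376867) (nat_lit 23) (.e (nat_lit 98384) (nat_lit 32) (.e (nat_lit 475214) (nat_lit 42) (.e (nat_lit 720940) (nat_lit 22) (.e (nat_lit 90133) (nat_lit 9) .nil)))))) (.g (nat_lit 4) .nil .nil)))))) (.nd (nat_lit 3) (.nd (nat_lit 4) (.nd (nat_lit 5) 
(.lf (nat_lit 9222) (.g (nat_lit 1280) (.e (nat_lit 333) (nat_lit 26) (.e (nat_lit 376862) (nat_lit 22) (.e (nat_lit 90160) (nat_lit 11) (.e (nat_lit 24584) (nat_lit 0) .nil)))) .nil)) 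
(.lf (nat_lit 9254) (.g (nat_lit 1811) (.e (nat_lit 333) (nat_lit 26) (.e (nat_lit 376867) (nat_lit 23) (.e (nat_lit 98357) (nat_lit 26) (.e (nat_lit 426448) (nat_lit 20) (.e (nat_lit 114714) (nat_lit 22) (.e (nat_lit 90122) (nat_lit 9) .nil)))))) (.g (nat_lit 0) .nil .nil)))) (.nd (nat_lit 5) 
(.lf (nat_lit 9238) (.g (nat_lit 1058) (.e (nat_lit 333) (nat_lit 26) (.e (nat_lit 376865) (nat_lit 22) (.e (nat_lit 90170) (nat_lit 13) (.e (nat_lit 179968) (nat_lit 20) .nil)))) .nil)) 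
(.lf (nat_lit 9270) (.g (nat_lit 1875) (.e (nat_lit 333) (nat_lit 26) (.e (nat_lit 376867) (nat_lit 23) (.e (nat_lit 98384) (nat_lit 32) (.e (nat_lit 475214) (nat_lit 42) (.e (nat_lit 720938) (nat_lit 22) (.e (nat_lit 90122) (nat_lit 9) .nil)))))) (.g (nat_lit 5) .nil .nil))))) (.nd (nat_lit 4) (.nd (nat_lit 5) 
(.lf (nat_lit 9230) (.g (nat_lit 2096) (.e (nat_lit 333) (nat_lit 26) (.e (nat_lit 376862) (nat_lit 22) (.e (nat_lit 90174) (nat_lit 14) (.e (nat_lit 180261) (nat_lit 20) (.e (nat_lit 655390) (nat_lit 9) .nil))))) .nil)) 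
(.lf (nat_lit 9262) (.g (nat_lit 1255) (.e (nat_lit 333) (nat_lit 26) (.e (nat_lit 376867) (nat_lit 23) (.e (nat_lit 98384) (nat_lit 32) (.e (nat_lit 475201) (nat_lit 40) (.e (nat_lit 704664) (nat_lit 9) .nil))))) .nil))) (.nd (nat_lit 5) 
(.lf (nat_lit 9246) (.g (nat_lit 3004) (.e (nat_lit 333) (nat_lit 26) (.e (nat_lit 376867) (nat_lit 23) (.e (nat_lit 98320) (nat_lit 17) (.e (nat_lit 7593) (nat_lit 407) (.e (nat_lit 73754) (nat_lit 8) (.e (nat_lit 557070) (nat_lit 9) .nil)))))) (.g (nat_lit 6) .nil .nil))) 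
(.lf (nat_lit 9278) (.g (nat_lit 3027) (.e (nat_lit 333) (nat_lit 26) (.e (nat_lit 376869) (nat_lit 23) (.e (nat_lit 98320) (nat_lit 17) (.e (nat_lit 7593) (nat_lit 407) (.e (nat_lit 73754) (nat_lit 8) (.e (nat_lit 557070) (nat_lit 9) .nil)))))) (.g (nat_lit 6) .nil .nil)))))))) (.nd (nat_lit 1) (.nd (nat_lit 2) (.nd (nat_lit 3) (.nd (nat_lit 4) (.nd (nat_lit 5) 
(.lf (nat_lit 9217) (.g (nat_lit 583) (.e (nat_lit 333) (nat_lit 26) (.e (nat_lit 376857) (nat_lit 21) (.e (nat_lit 57681) (nat_lit 155) .nil))) .nil)) 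
(.lf (nat_lit 9249) (.g (nat_lit 1399) (.e (nat_lit 333) (nat_lit 26) (.e (nat_lit 376867) (nat_lit 23) (.e (nat_lit 98355) (nat_lit 26) (.e (nat_lit 426446) (nat_lit 20) (.e (nat_lit 114716) (nat_lit 22) (.e (nat_lit 90124) (nat_lit 9) .nil)))))) (.g (nat_lit 5) .nil .nil)))) (.nd (nat_lit 5) 
(.lf (nat_lit 9233) (.g (nat_lit 1529) (.e (nat_lit 333) (nat_lit 26) (.e (nat_lit 376862) (nat_lit 22) (.e (nat_lit 90185) (nat_lit 17) (.e (nat_lit 245504) (nat_lit 20) (.e (nat_lit 114714) (nat_lit 22) (.e (nat_lit 90133) (nat_lit 9) .nil)))))) (.g (nat_lit 5) .nil .nil))) 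
(.lf (nat_lit 9265) (.g (nat_lit 1475) (.e (nat_lit 333) (nat_lit 26) (.e (nat_lit 376867) (nat_lit 23) (.e (nat_lit 98384) (nat_lit 32) (.e (nat_lit 475212) (nat_lit 42) (.e (nat_lit 720941) (nat_lit 22) .nil))))) .nil)))) (.nd (nat_lit 4) (.nd (nat_lit 5) 
(.lf (nat_lit 9225) (.g (nat_lit 808) (.e (nat_lit 333) (nat_lit 26) (.e (nat_lit 376862) (nat_lit 22) (.e (nat_lit 90169) (nat_lit 13) (.e (nat_lit 179968) (nat_lit 20) .nil)))) .nil)) 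
(.lf (nat_lit 9257) (.g (nat_lit 669) (.e (nat_lit 333) (nat_lit 26) (.e (nat_lit 376867) (nat_lit 23) (.e (nat_lit 98363) (nat_lit 26) (.e (nat_lit 426445) (nat_lit 20) (.e (nat_lit 114715) (nat_lit 22) (.e (nat_lit 90125) (nat_lit 9) .nil)))))) (.g (nat_lit 4) .nil .nil)))) (.nd (nat_lit 5) 
(.lf (nat_lit 9241) (.g (nat_lit 2026) (.e (nat_lit 333) (nat_lit 26) (.e (nat_lit 376865) (nat_lit 22) (.e (nat_lit 90174) (nat_lit 14) (.e (nat_lit 180261) (nat_lit 20) (.e (nat_lit 655390) (nat_lit 9) (.e (nat_lit 1234) (nat_lit 91) (.e (nat_lit 90133) (nat_lit 9) .nil))))))) (.g (nat_lit 4) .nil .nil))) 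
(.lf (nat_lit 9273) (.g (nat_lit 2051) (.e (nat_lit 333) (nat_lit 26) (.e (nat_lit 376867) (nat_lit 23) (.e (nat_lit 98384) (nat_lit 32) (.e (nat_lit 475214) (nat_lit 42) (.e (nat_lit 720939) (nat_lit 22) (.e (nat_lit 90133) (nat_lit 9) .nil)))))) (.g (nat_lit 0) .nil .nil)))))) (.nd (nat_lit 3) (.nd (nat_lit 4) (.nd (nat_lit 5) 
(.lf (nat_lit 9221) (.g (nat_lit 617) (.e (nat_lit 333) (nat_lit 26) (.e (nat_lit 376860) (nat_lit 21) (.e (nat_lit 65280) (nat_lit 152) .nil))) .nil)) 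
(.lf (nat_lit 9253) (.g (nat_lit 1002) (.e (nat_lit 333) (nat_lit 26) (.e (nat_lit 376867) (nat_lit 23) (.e (nat_lit 98356) (nat_lit 26) (.e (nat_lit 426449) (nat_lit 20) .nil)))) .nil))) (.nd (nat_lit 5) 
(.lf (nat_lit 9237) (.g (nat_lit 710) (.e (nat_lit 333) (nat_lit 26) (.e (nat_lit 376865) (nat_lit 22) (.e (nat_lit 90169) (nat_lit 13) (.e (nat_lit 179968) (nat_lit 20) .nil)))) .nil)) 
(.lf (nat_lit 9269) (.g (nat_lit 1912) (.e (nat_lit 333) (nat_lit 26) (.e (nat_lit 376867) (nat_lit 23) (.e (nat_lit 98384) (nat_lit 32) (.e (nat_lit 475214) (nat_lit 42) (.e (nat_lit 720937) (nat_lit 22) (.e (nat_lit 90122) (nat_lit 9) .nil)))))) (.g (nat_lit 5) .nil .nil))))) (.nd (nat_lit 4) (.nd (nat_lit 5) 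
(.lf (nat_lit 9229) (.g (nat_lit 1478) (.e (nat_lit 333) (nat_lit 26) (.e (nat_lit 376862) (nat_lit 22) (.e (nat_lit 90172) (nat_lit 14) (.e (nat_lit 180261) (nat_lit 20) .nil)))) .nil)) 
(.lf (nat_lit 9261) (.g (nat_lit 522) (.e (nat_lit 333) (nat_lit 26) (.e (nat_lit 376867) (nat_lit 23) (.e (nat_lit 98384) (nat_lit 32) (.e (nat_lit 475201) (nat_lit 40) .nil)))) .nil))) (.nd (nat_lit 5) 
(.lf (nat_lit 9245) (.g (nat_lit 2439) (.e (nat_lit 333) (nat_lit 26) (.e (nat_lit 376867) (nat_lit 23) (.e (nat_lit 98319) (nat_lit 17) (.e (nat_lit 7593) (nat_lit 407) (.e (nat_lit 73753) (nat_lit 8) (.e (nat_lit 557070) (nat_lit 9) .nil)))))) (.g (nat_lit 6) .nil .nil))) 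
(.lf (nat_lit 9277) (.g (nat_lit 2473) (.e (nat_lit 333) (nat_lit 26) (.e (nat_lit 376869) (nat_lit 23) (.e (nat_lit 98319) (nat_lit 17) (.e (nat_lit 7593) (nat_lit 407) (.e (nat_lit 73753) (nat_lit 8) (.e (nat_lit 557070) (nat_lit 9) .nil)))))) (.g (nat_lit 6) .nil .nil))))))) (.nd (nat_lit 2) (.nd (nat_lit 3) (.nd (nat_lit 4) (.nd (nat_lit 5) 
(.lf (nat_lit 9219) (.g (nat_lit 1381) (.e (nat_lit 333) (nat_lit 26) (.e (nat_lit 376859) (nat_lit 21) (.e (nat_lit 57655) (nat_lit 152) (.e (nat_lit 1216) (nat_lit 90) (.e (nat_lit 81965) (nat_lit 26) (.e (nat_lit 147463) (nat_lit 9) .nil)))))) (.g (nat_lit 4) .nil .nil))) 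
(.lf (nat_lit 9251) (.g (nat_lit 2210) (.e (nat_lit 333) (nat_lit 26) (.e (nat_lit 376867) (nat_lit 23) (.e (nat_lit 98356) (nat_lit 26) (.e (nat_lit 426448) (nat_lit 20) (.e (nat_lit 114714) (nat_lit 22) (.e (nat_lit 90122) (nat_lit 9) .nil)))))) (.g (nat_lit 5) .nil .nil)))) (.nd (nat_lit 5) 
(.lf (nat_lit 9235) (.g (nat_lit 2223) (.e (nat_lit 333) (nat_lit 26) (.e (nat_lit 376865) (nat_lit 22) (.e (nat_lit 90160) (nat_lit 11) (.e (nat_lit 24584) (nat_lit 0) (.e (nat_lit 1996) (nat_lit 137) .nil))))) .nil)) 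
(.lf (nat_lit 9267) (.g (nat_lit 1770) (.e (nat_lit 333) (nat_lit 26) (.e (nat_lit 376867) (nat_lit 23) (.e (nat_lit 98384) (nat_lit 32) (.e (nat_lit 475214) (nat_lit 42) (.e (nat_lit 720936) (nat_lit 22) .nil))))) .nil)))) (.nd (nat_lit 4) (.nd (nat_lit 5) 
(.lf (nat_lit 9227) (.g (nat_lit 1739) (.e (nat_lit 333) (nat_lit 26) (.e (nat_lit 376862) (nat_lit 22) (.e (nat_lit 90170) (nat_lit 13) (.e (nat_lit 179968) (nat_lit 20) (.e (nat_lit 114714) (nat_lit 22) (.e (nat_lit 90133) (nat_lit 9) .nil)))))) (.g (nat_lit 5) .nil .nil))) 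
(.lf (nat_lit 9259) (.g (nat_lit 1192) (.e (nat_lit 333) (nat_lit 26) (.e (nat_lit 376867) (nat_lit 23) (.e (nat_lit 98363) (nat_lit 26) (.e (nat_lit 426447) (nat_lit 20) (.e (nat_lit 114716) (nat_lit 22) (.e (nat_lit 90125) (nat_lit 9) .nil)))))) (.g (nat_lit 5) .nil .nil)))) (.nd (nat_lit 5) 
(.lf (nat_lit 9243) (.g (nat_lit 1175) (.e (nat_lit 333) (nat_lit 26) (.e (nat_lit 376865) (nat_lit 22) (.e (nat_lit 90185) (nat_lit 17) (.e (nat_lit 245504) (nat_lit 20) .nil)))) .nil)) 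
(.lf (nat_lit 9275) (.g (nat_lit 1557) (.e (nat_lit 333) (nat_lit 26) (.e (nat_lit 376867) (nat_lit 23) (.e (nat_lit 98384) (nat_lit 32) (.e (nat_lit 475214) (nat_lit 42) (.e (nat_lit 720941) (nat_lit 22) .nil))))) .nil))))) (.nd (nat_lit 3) (.nd (nat_lit 4) (.nd (nat_lit 5) 
(.lf (nat_lit 9223) (.g (nat_lit 1007) (.e (nat_lit 333) (nat_lit 26) (.e (nat_lit 376862) (nat_lit 22) (.e (nat_lit 90167) (nat_lit 13) (.e (nat_lit 179968) (nat_lit 20) .nil)))) .nil)) 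
(.lf (nat_lit 9255) (.g (nat_lit 1839) (.e (nat_lit 333) (nat_lit 26) (.e (nat_lit 376867) (nat_lit 23) (.e (nat_lit 98357) (nat_lit 26) (.e (nat_lit 426448) (nat_lit 20) (.e (nat_lit 114715) (nat_lit 22) (.e (nat_lit 90125) (nat_lit 9) .nil)))))) (.g (nat_lit 5) .nil .nil)))) (.nd (nat_lit 5) 
(.lf (nat_lit 9239) (.g (nat_lit 1129) (.e (nat_lit 333) (nat_lit 26) (.e (nat_lit 376865) (nat_lit 22) (.e (nat_lit 90172) (nat_lit 14) (.e (nat_lit 188160) (nat_lit 19) .nil)))) .nil)) 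
(.lf (nat_lit 9271) (.g (nat_lit 1653) (.e (nat_lit 333) (nat_lit 26) (.e (nat_lit 376867) (nat_lit 23) (.e (nat_lit 98384) (nat_lit 32) (.e (nat_lit 475214) (nat_lit 42) (.e (nat_lit 720939) (nat_lit 22) (.e (nat_lit 90122) (nat_lit 9) .nil)))))) (.g (nat_lit 6) .nil .nil))))) (.nd (nat_lit 4) (.nd (nat_lit 5) 
(.lf (nat_lit 9231) (.g (nat_lit 1035) (.e (nat_lit 333) (nat_lit 26) (.e (nat_lit 376862) (nat_lit 22) (.e (nat_lit 90185) (nat_lit 17) (.e (nat_lit 237582) (nat_lit 1) .nil)))) .nil)) 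
(.lf (nat_lit 9263) (.g (nat_lit 1050) (.e (nat_lit 333) (nat_lit 26) (.e (nat_lit 376867) (nat_lit 23) (.e (nat_lit 98384) (nat_lit 32) (.e (nat_lit 475201) (nat_lit 40) (.e (nat_lit 704749) (nat_lit 12) .nil))))) .nil))) (.nd (nat_lit 5) 
(.lf (nat_lit 9247) (.g (nat_lit 337) (.e (nat_lit 333) (nat_lit 26) (.e (nat_lit 376867) (nat_lit 23) (.e (nat_lit 98354) (nat_lit 26) .nil))) .nil)) 
(.lf (nat_lit 9279) (.g (nat_lit 1457) (.e (nat_lit 333) (nat_lit 26) (.e (nat_lit 376869) (nat_lit 23) (.e (nat_lit 98354) (nat_lit 26) (.e (nat_lit 426448) (nat_lit 20) (.e (nat_lit 114714) (nat_lit 22) .nil))))) .nil))))))))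

noncomputable def tv129 : DT := (.nd (nat_lit 0) (.nd (nat_lit 1) (.nd (nat_lit 2) (.nd (nat_lit 3) (.nd (nat_lit 4) (.nd (nat_lit 5) 
(.lf (nat_lit 9280) (.g (nat_lit 804) (.e (nat_lit 333) (nat_lit 26) (.e (nat_lit 376869) (nat_lit 23) (.e (nat_lit 98354) (nat_lit 26) (.e (nat_lit 433920) (nat_lit 20) .nil)))) .nil)) 
(.lf (nat_lit 9312) (.g (nat_lit 1504) (.e (nat_lit 333) (nat_lit 26) (.e (nat_lit 376869) (nat_lit 23) (.e (nat_lit 98384) (nat_lit 32) (.e (nat_lit 475212) (nat_lit 42) (.e (nat_lit 720941) (nat_lit 22) .nil))))) .nil))) (.nd (nat_lit 5) 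
(.lf (nat_lit 9296) (.g (nat_lit 1702) (.e (nat_lit 333) (nat_lit 26) (.e (nat_lit 376869) (nat_lit 23) (.e (nat_lit 98357) (nat_lit 26) (.e (nat_lit 426448) (nat_lit 20) (.e (nat_lit 114714) (nat_lit 22) (.e (nat_lit 90124) (nat_lit 9) .nil)))))) (.g (nat_lit 0) .nil .nil))) 
(.lf (nat_lit 9328) (.g (nat_lit 1864) (.e (nat_lit 334) (nat_lit 26) (.e (nat_lit 376841) (nat_lit 11) (.e (nat_lit 426011) (nat_lit 0) (.e (nat_lit 7591) (nat_lit 407) (.e (nat_lit 73776) (nat_lit 26) .nil))))) .nil)))) (.nd (nat_lit 4) (.nd (nat_lit 5) 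
(.lf (nat_lit 9288) (.g (nat_lit 2209) (.e (nat_lit 333) (nat_lit 26) (.e (nat_lit 376869) (nat_lit 23) (.e (nat_lit 98356) (nat_lit 26) (.e (nat_lit 426448) (nat_lit 20) (.e (nat_lit 114714) (nat_lit 22) (.e (nat_lit 90122) (nat_lit 9) .nil)))))) (.g (nat_lit 5) .nil .nil))) 
(.lf (nat_lit 9320) (.g (nat_lit 924) (.e (nat_lit 333) (nat_lit 26) (.e (nat_lit 376869) (nat_lit 23) (.e (nat_lit 98385) (nat_lit 32) (.e (nat_lit 475212) (nat_lit 42) (.e (nat_lit 720941) (nat_lit 22) .nil))))) .nil))) (.nd (nat_lit 5) 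
(.lf (nat_lit 9304) (.g (nat_lit 1391) (.e (nat_lit 333) (nat_lit 26) (.e (nat_lit 376869) (nat_lit 23) (.e (nat_lit 98363) (nat_lit 26) (.e (nat_lit 426447) (nat_lit 20) (.e (nat_lit 114714) (nat_lit 22) (.e (nat_lit 90125) (nat_lit 9) .nil)))))) (.g (nat_lit 0) .nil .nil))) 
(.lf (nat_lit 9336) (.g (nat_lit 2689) (.e (nat_lit 334) (nat_lit 26) (.e (nat_lit 376857) (nat_lit 21) (.e (nat_lit 57655) (nat_lit 152) (.e (nat_lit 1216) (nat_lit 90) (.e (nat_lit 81965) (nat_lit 26) (.e (nat_lit 147463) (nat_lit 9) .nil)))))) (.g (nat_lit 6) .nil .nil)))))) (.nd (nat_lit 3) (.nd (nat_lit 4) (.nd (nat_lit 5) 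
(.lf (nat_lit 9284) (.g (nat_lit 1423) (.e (nat_lit 333) (nat_lit 26) (.e (nat_lit 376869) (nat_lit 23) (.e (nat_lit 98355) (nat_lit 26) (.e (nat_lit 426446) (nat_lit 20) (.e (nat_lit 114716) (nat_lit 22) (.e (nat_lit 90125) (nat_lit 9) .nil)))))) (.g (nat_lit 6) .nil .nil))) 
(.lf (nat_lit 9316) (.g (nat_lit 1687) (.e (nat_lit 333) (nat_lit 26) (.e (nat_lit 376869) (nat_lit 23) (.e (nat_lit 98384) (nat_lit 32) (.e (nat_lit 475214) (nat_lit 42) (.e (nat_lit 720939) (nat_lit 22) (.e (nat_lit 90122) (nat_lit 9) .nil)))))) (.g (nat_lit 6) .nil .nil)))) (.nd (nat_lit 5) 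
(.lf (nat_lit 9300) (.g (nat_lit 660) (.e (nat_lit 333) (nat_lit 26) (.e (nat_lit 376869) (nat_lit 23) (.e (nat_lit 98363) (nat_lit 26) (.e (nat_lit 426445) (nat_lit 20) (.e (nat_lit 114715) (nat_lit 22) (.e (nat_lit 90125) (nat_lit 9) .nil)))))) (.g (nat_lit 4) .nil .nil))) 
(.lf (nat_lit 9332) (.g (nat_lit 1601) (.e (nat_lit 334) (nat_lit 26) (.e (nat_lit 376857) (nat_lit 21) (.e (nat_lit 57654) (nat_lit 152) (.e (nat_lit 1217) (nat_lit 90) (.e (nat_lit 81965) (nat_lit 26) (.e (nat_lit 147465) (nat_lit 9) .nil)))))) (.g (nat_lit 4) .nil .nil))))) (.nd (nat_lit 4) (.nd (nat_lit 5) 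
(.lf (nat_lit 9292) (.g (nat_lit 1034) (.e (nat_lit 333) (nat_lit 26) (.e (nat_lit 376869) (nat_lit 23) (.e (nat_lit 98356) (nat_lit 26) (.e (nat_lit 426449) (nat_lit 20) .nil)))) .nil)) 
(.lf (nat_lit 9324) (.g (nat_lit 2013) (.e (nat_lit 334) (nat_lit 26) (.e (nat_lit 376838) (nat_lit 11) (.e (nat_lit 426011) (nat_lit 0) (.e (nat_lit 7591) (nat_lit 407) (.e (nat_lit 73775) (nat_lit 26) (.e (nat_lit 778362) (nat_lit 9) .nil)))))) (.g (nat_lit 4) .nil .nil)))) (.nd (nat_lit 5) 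
(.lf (nat_lit 9308) (.g (nat_lit 539) (.e (nat_lit 333) (nat_lit 26) (.e (nat_lit 376869) (nat_lit 23) (.e (nat_lit 98384) (nat_lit 32) (.e (nat_lit 475201) (nat_lit 40) .nil)))) .nil)) 
(.lf (nat_lit 9340) (.g (nat_lit 2083) (.e (nat_lit 334) (nat_lit 26) (.e (nat_lit 376857) (nat_lit 21) (.e (nat_lit 57655) (nat_lit 152) (.e (nat_lit 1217) (nat_lit 90) (.e (nat_lit 81963) (nat_lit 26) (.e (nat_lit 147464) (nat_lit 9) .nil)))))) (.g (nat_lit 6) .nil .nil))))))) (.nd (nat_lit 2) (.nd (nat_lit 3) (.nd (nat_lit 4) (.nd (nat_lit 5) 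
(.lf (nat_lit 9282) (.g (nat_lit 1016) (.e (nat_lit 333) (nat_lit 26) (.e (nat_lit 376869) (nat_lit 23) (.e (nat_lit 98355) (nat_lit 26) (.e (nat_lit 426446) (nat_lit 20) (.e (nat_lit 114715) (nat_lit 22) (.e (nat_lit 90133) (nat_lit 9) .nil)))))) (.g (nat_lit 4) .nil .nil))) 
(.lf (nat_lit 9314) (.g (nat_lit 1378) (.e (nat_lit 333) (nat_lit 26) (.e (nat_lit 376869) (nat_lit 23) (.e (nat_lit 98384) (nat_lit 32) (.e (nat_lit 475214) (nat_lit 42) (.e (nat_lit 720937) (nat_lit 22) .nil))))) .nil))) (.nd (nat_lit 5) 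
(.lf (nat_lit 9298) (.g (nat_lit 1827) (.e (nat_lit 333) (nat_lit 26) (.e (nat_lit 376869) (nat_lit 23) (.e (nat_lit 98357) (nat_lit 26) (.e (nat_lit 426448) (nat_lit 20) (.e (nat_lit 114715) (nat_lit 22) (.e (nat_lit 90125) (nat_lit 9) .nil)))))) (.g (nat_lit 5) .nil .nil))) 
(.lf (nat_lit 9330) (.g (nat_lit 473) (.e (nat_lit 334) (nat_lit 26) (.e (nat_lit 376857) (nat_lit 21) (.e (nat_lit 57654) (nat_lit 152) .nil))) .nil)))) (.nd (nat_lit 4) (.nd (nat_lit 5) 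
(.lf (nat_lit 9290) (.g (nat_lit 2175) (.e (nat_lit 333) (nat_lit 26) (.e (nat_lit 376869) (nat_lit 23) (.e (nat_lit 98356) (nat_lit 26) (.e (nat_lit 426448) (nat_lit 20) (.e (nat_lit 114714) (nat_lit 22) (.e (nat_lit 90125) (nat_lit 9) .nil)))))) (.g (nat_lit 0) .nil .nil))) 
(.lf (nat_lit 9322) (.g (nat_lit 952) (.e (nat_lit 334) (nat_lit 26) (.e (nat_lit 376838) (nat_lit 11) (.e (nat_lit 426009) (nat_lit 0) (.e (nat_lit 7591) (nat_lit 407) (.e (nat_lit 73775) (nat_lit 26) (.e (nat_lit 778359) (nat_lit 9) .nil)))))) (.g (nat_lit 4) .nil .nil)))) (.nd (nat_lit 5) 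
(.lf (nat_lit 9306) (.g (nat_lit 684) (.e (nat_lit 333) (nat_lit 26) (.e (nat_lit 376869) (nat_lit 23) (.e (nat_lit 98363) (nat_lit 26) (.e (nat_lit 433920) (nat_lit 20) .nil)))) .nil)) 
(.lf (nat_lit 9338) (.g (nat_lit 2848) (.e (nat_lit 334) (nat_lit 26) (.e (nat_lit 376857) (nat_lit 21) (.e (nat_lit 57655) (nat_lit 152) (.e (nat_lit 1216) (nat_lit 90) (.e (nat_lit 81965) (nat_lit 26) (.e (nat_lit 147467) (nat_lit 9) .nil)))))) (.g (nat_lit 0) .nil .nil)))))) (.nd (nat_lit 3) (.nd (nat_lit 4) (.nd (nat_lit 5) 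
(.lf (nat_lit 9286) (.g (nat_lit 1470) (.e (nat_lit 333) (nat_lit 26) (.e (nat_lit 376869) (nat_lit 23) (.e (nat_lit 98356) (nat_lit 26) (.e (nat_lit 426446) (nat_lit 20) (.e (nat_lit 114716) (nat_lit 22) (.e (nat_lit 90124) (nat_lit 9) .nil)))))) (.g (nat_lit 0) .nil .nil))) 
(.lf (nat_lit 9318) (.g (nat_lit 2608) (.e (nat_lit 333) (nat_lit 26) (.e (nat_lit 376869) (nat_lit 23) (.e (nat_lit 98384) (nat_lit 32) (.e (nat_lit 475214) (nat_lit 42) (.e (nat_lit 720940) (nat_lit 22) (.e (nat_lit 90133) (nat_lit 9) .nil)))))) (.g (nat_lit 4) .nil .nil)))) (.nd (nat_lit 5) 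
(.lf (nat_lit 9302) (.g (nat_lit 1138) (.e (nat_lit 333) (nat_lit 26) (.e (nat_lit 376869) (nat_lit 23) (.e (nat_lit 98363) (nat_lit 26) (.e (nat_lit 426445) (nat_lit 20) (.e (nat_lit 114716) (nat_lit 22) (.e (nat_lit 90125) (nat_lit 9) .nil)))))) (.g (nat_lit 0) .nil .nil))) 
(.lf (nat_lit 9334) (.g (nat_lit 2255) (.e (nat_lit 334) (nat_lit 26) (.e (nat_lit 376857) (nat_lit 21) (.e (nat_lit 57655) (nat_lit 152) (.e (nat_lit 1216) (nat_lit 90) (.e (nat_lit 81963) (nat_lit 26) (.e (nat_lit 147463) (nat_lit 9) .nil)))))) (.g (nat_lit 6) .nil .nil))))) (.nd (nat_lit 4) (.nd (nat_lit 5) 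
(.lf (nat_lit 9294) (.g (nat_lit 1223) (.e (nat_lit 333) (nat_lit 26) (.e (nat_lit 376869) (nat_lit 23) (.e (nat_lit 98357) (nat_lit 26) (.e (nat_lit 426446) (nat_lit 20) (.e (nat_lit 114716) (nat_lit 22) (.e (nat_lit 90125) (nat_lit 9) .nil)))))) (.g (nat_lit 0) .nil .nil))) 
(.lf (nat_lit 9326) (.g (nat_lit 910) (.e (nat_lit 334) (nat_lit 26) (.e (nat_lit 376841) (nat_lit 11) (.e (nat_lit 426009) (nat_lit 0) (.e (nat_lit 7593) (nat_lit 407) (.e (nat_lit 73775) (nat_lit 26) (.e (nat_lit 778359) (nat_lit 9) .nil)))))) (.g (nat_lit 4) .nil .nil)))) (.nd (nat_lit 5) 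
(.lf (nat_lit 9310) (.g (nat_lit 1076) (.e (nat_lit 333) (nat_lit 26) (.e (nat_lit 376869) (nat_lit 23) (.e (nat_lit 98384) (nat_lit 32) (.e (nat_lit 475201) (nat_lit 40) (.e (nat_lit 704749) (nat_lit 12) .nil))))) .nil)) 
(.lf (nat_lit 9342) (.g (nat_lit 2639) (.e (nat_lit 334) (nat_lit 26) (.e (nat_lit 376857) (nat_lit 21) (.e (nat_lit 57655) (nat_lit 152) (.e (nat_lit 1217) (nat_lit 90) (.e (nat_lit 81965) (nat_lit 26) (.e (nat_lit 147463) (nat_lit 9) .nil)))))) (.g (nat_lit 5) .nil .nil)))))))) (.nd (nat_lit 1) (.nd (nat_lit 2) (.nd (nat_lit 3) (.nd (nat_lit 4) (.nd (nat_lit 5) 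
(.lf (nat_lit 9281) (.g (nat_lit 973) (.e (nat_lit 333) (nat_lit 26) (.e (nat_lit 376869) (nat_lit 23) (.e (nat_lit 98355) (nat_lit 26) (.e (nat_lit 426446) (nat_lit 20) (.e (nat_lit 114715) (nat_lit 22) (.e (nat_lit 90125) (nat_lit 9) .nil)))))) (.g (nat_lit 4) .nil .nil))) 
(.lf (nat_lit 9313) (.g (nat_lit 1865) (.e (nat_lit 333) (nat_lit 26) (.e (nat_lit 376869) (nat_lit 23) (.e (nat_lit 98384) (nat_lit 32) (.e (nat_lit 475214) (nat_lit 42) (.e (nat_lit 720936) (nat_lit 22) .nil))))) .nil))) (.nd (nat_lit 5) 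
(.lf (nat_lit 9297) (.g (nat_lit 1778) (.e (nat_lit 333) (nat_lit 26) (.e (nat_lit 376869) (nat_lit 23) (.e (nat_lit 98357) (nat_lit 26) (.e (nat_lit 426448) (nat_lit 20) (.e (nat_lit 114714) (nat_lit 22) (.e (nat_lit 90125) (nat_lit 9) .nil)))))) (.g (nat_lit 0) .nil .nil))) 
(.lf (nat_lit 9329) (.g (nat_lit 1507) (.e (nat_lit 334) (nat_lit 26) (.e (nat_lit 376841) (nat_lit 11) (.e (nat_lit 426012) (nat_lit 0) (.e (nat_lit 7591) (nat_lit 407) (.e (nat_lit 73776) (nat_lit 26) (.e (nat_lit 778362) (nat_lit 9) .nil)))))) (.g (nat_lit 4) .nil .nil))))) (.nd (nat_lit 4) (.nd (nat_lit 5) 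
(.lf (nat_lit 9289) (.g (nat_lit 2107) (.e (nat_lit 333) (nat_lit 26) (.e (nat_lit 376869) (nat_lit 23) (.e (nat_lit 98356) (nat_lit 26) (.e (nat_lit 426448) (nat_lit 20) (.e (nat_lit 114714) (nat_lit 22) (.e (nat_lit 90124) (nat_lit 9) .nil)))))) (.g (nat_lit 0) .nil .nil))) 
(.lf (nat_lit 9321) (.g (nat_lit 1443) (.e (nat_lit 333) (nat_lit 26) (.e (nat_lit 376869) (nat_lit 23) (.e (nat_lit 98385) (nat_lit 32) (.e (nat_lit 475214) (nat_lit 42) (.e (nat_lit 720938) (nat_lit 22) (.e (nat_lit 90122) (nat_lit 9) .nil)))))) (.g (nat_lit 0) .nil .nil)))) (.nd (nat_lit 5) 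
(.lf (nat_lit 9305) (.g (nat_lit 1178) (.e (nat_lit 333) (nat_lit 26) (.e (nat_lit 376869) (nat_lit 23) (.e (nat_lit 98363) (nat_lit 26) (.e (nat_lit 426447) (nat_lit 20) (.e (nat_lit 114716) (nat_lit 22) (.e (nat_lit 90125) (nat_lit 9) .nil)))))) (.g (nat_lit 5) .nil .nil))) 
(.lf (nat_lit 9337) (.g (nat_lit 2385) (.e (nat_lit 334) (nat_lit 26) (.e (nat_lit 376857) (nat_lit 21) (.e (nat_lit 57655) (nat_lit 152) (.e (nat_lit 1216) (nat_lit 90) (.e (nat_lit 81965) (nat_lit 26) (.e (nat_lit 147464) (nat_lit 9) .nil)))))) (.g (nat_lit 6) .nil .nil)))))) (.nd (nat_lit 3) (.nd (nat_lit 4) (.nd (nat_lit 5) 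
(.lf (nat_lit 9285) (.g (nat_lit 1178) (.e (nat_lit 333) (nat_lit 26) (.e (nat_lit 376869) (nat_lit 23) (.e (nat_lit 98356) (nat_lit 26) (.e (nat_lit 426446) (nat_lit 20) (.e (nat_lit 114716) (nat_lit 22) .nil))))) .nil)) 
(.lf (nat_lit 9317) (.g (nat_lit 1807) (.e (nat_lit 333) (nat_lit 26) (.e (nat_lit 376869) (nat_lit 23) (.e (nat_lit 98384) (nat_lit 32) (.e (nat_lit 475214) (nat_lit 42) (.e (nat_lit 720939) (nat_lit 22) (.e (nat_lit 90125) (nat_lit 9) .nil)))))) (.g (nat_lit 6) .nil .nil)))) (.nd (nat_lit 5) 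
(.lf (nat_lit 9301) (.g (nat_lit 1043) (.e (nat_lit 333) (nat_lit 26) (.e (nat_lit 376869) (nat_lit 23) (.e (nat_lit 98363) (nat_lit 26) (.e (nat_lit 426445) (nat_lit 20) (.e (nat_lit 114716) (nat_lit 22) (.e (nat_lit 90124) (nat_lit 9) .nil)))))) (.g (nat_lit 0) .nil .nil))) 
(.lf (nat_lit 9333) (.g (nat_lit 1555) (.e (nat_lit 334) (nat_lit 26) (.e (nat_lit 376857) (nat_lit 21) (.e (nat_lit 57654) (nat_lit 152) (.e (nat_lit 1217) (nat_lit 90) (.e (nat_lit 81965) (nat_lit 26) (.e (nat_lit 147467) (nat_lit 9) .nil)))))) (.g (nat_lit 4) .nil .nil))))) (.nd (nat_lit 4) (.nd (nat_lit 5) 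
(.lf (nat_lit 9293) (.g (nat_lit 1157) (.e (nat_lit 333) (nat_lit 26) (.e (nat_lit 376869) (nat_lit 23) (.e (nat_lit 98357) (nat_lit 26) (.e (nat_lit 426446) (nat_lit 20) (.e (nat_lit 114716) (nat_lit 22) (.e (nat_lit 90124) (nat_lit 9) .nil)))))) (.g (nat_lit 0) .nil .nil))) 
(.lf (nat_lit 9325) (.g (nat_lit 1880) (.e (nat_lit 334) (nat_lit 26) (.e (nat_lit 376838) (nat_lit 11) (.e (nat_lit 426011) (nat_lit 0) (.e (nat_lit 7591) (nat_lit 407) (.e (nat_lit 73776) (nat_lit 26) (.e (nat_lit 778362) (nat_lit 9) .nil)))))) (.g (nat_lit 4) .nil .nil)))) (.nd (nat_lit 5) 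
(.lf (nat_lit 9309) (.g (nat_lit 1179) (.e (nat_lit 333) (nat_lit 26) (.e (nat_lit 376869) (nat_lit 23) (.e (nat_lit 98384) (nat_lit 32) (.e (nat_lit 475201) (nat_lit 40) (.e (nat_lit 704664) (nat_lit 9) .nil))))) .nil)) 
(.lf (nat_lit 9341) (.g (nat_lit 1169) (.e (nat_lit 334) (nat_lit 26) (.e (nat_lit 376857) (nat_lit 21) (.e (nat_lit 57655) (nat_lit 152) (.e (nat_lit 1217) (nat_lit 90) (.e (nat_lit 81964) (nat_lit 26) .nil))))) .nil)))))) (.nd (nat_lit 2) (.nd (nat_lit 3) (.nd (nat_lit 4) (.nd (nat_lit 5) 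
(.lf (nat_lit 9283) (.g (nat_lit 1363) (.e (nat_lit 333) (nat_lit 26) (.e (nat_lit 376869) (nat_lit 23) (.e (nat_lit 98355) (nat_lit 26) (.e (nat_lit 426446) (nat_lit 20) (.e (nat_lit 114716) (nat_lit 22) (.e (nat_lit 90124) (nat_lit 9) .nil)))))) (.g (nat_lit 5) .nil .nil))) 
(.lf (nat_lit 9315) (.g (nat_lit 1889) (.e (nat_lit 333) (nat_lit 26) (.e (nat_lit 376869) (nat_lit 23) (.e (nat_lit 98384) (nat_lit 32) (.e (nat_lit 475214) (nat_lit 42) (.e (nat_lit 720938) (nat_lit 22) (.e (nat_lit 90122) (nat_lit 9) .nil)))))) (.g (nat_lit 5) .nil .nil)))) (.nd (nat_lit 5) 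
(.lf (nat_lit 9299) (.g (nat_lit 1239) (.e (nat_lit 333) (nat_lit 26) (.e (nat_lit 376869) (nat_lit 23) (.e (nat_lit 98359) (nat_lit 26) (.e (nat_lit 433920) (nat_lit 20) .nil)))) .nil)) 
(.lf (nat_lit 9331) (.g (nat_lit 847) (.e (nat_lit 334) (nat_lit 26) (.e (nat_lit 376857) (nat_lit 21) (.e (nat_lit 57654) (nat_lit 152) (.e (nat_lit 1217) (nat_lit 90) .nil)))) .nil)))) (.nd (nat_lit 4) (.nd (nat_lit 5) 
(.lf (nat_lit 9291) (.g (nat_lit 1502) (.e (nat_lit 333) (nat_lit 26) (.e (nat_lit 376869) (nat_lit 23) (.e (nat_lit 98356) (nat_lit 26) (.e (nat_lit 426448) (nat_lit 20) (.e (nat_lit 114716) (nat_lit 22) .nil))))) .nil)) 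
(.lf (nat_lit 9323) (.g (nat_lit 1179) (.e (nat_lit 334) (nat_lit 26) (.e (nat_lit 376838) (nat_lit 11) (.e (nat_lit 426010) (nat_lit 0) (.e (nat_lit 7593) (nat_lit 407) (.e (nat_lit 73775) (nat_lit 26) (.e (nat_lit 778359) (nat_lit 9) .nil)))))) (.g (nat_lit 4) .nil .nil)))) (.nd (nat_lit 5) 
(.lf (nat_lit 9307) (.g (nat_lit 1005) (.e (nat_lit 333) (nat_lit 26) (.e (nat_lit 376869) (nat_lit 23) (.e (nat_lit 98365) (nat_lit 26) (.e (nat_lit 433920) (nat_lit 20) .nil)))) .nil)) 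
(.lf (nat_lit 9339) (.g (nat_lit 2273) (.e (nat_lit 334) (nat_lit 26) (.e (nat_lit 376857) (nat_lit 21) (.e (nat_lit 57655) (nat_lit 152) (.e (nat_lit 1217) (nat_lit 90) (.e (nat_lit 81963) (nat_lit 26) (.e (nat_lit 147463) (nat_lit 9) .nil)))))) (.g (nat_lit 6) .nil .nil)))))) (.nd (nat_lit 3) (.nd (nat_lit 4) (.nd (nat_lit 5) 
(.lf (nat_lit 9287) (.g (nat_lit 1536) (.e (nat_lit 333) (nat_lit 26) (.e (nat_lit 376869) (nat_lit 23) (.e (nat_lit 98356) (nat_lit 26) (.e (nat_lit 426446) (nat_lit 20) (.e (nat_lit 114716) (nat_lit 22) (.e (nat_lit 90125) (nat_lit 9) .nil)))))) (.g (nat_lit 0) .nil .nil))) 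
(.lf (nat_lit 9319) (.g (nat_lit 1610) (.e (nat_lit 333) (nat_lit 26) (.e (nat_lit 376869) (nat_lit 23) (.e (nat_lit 98384) (nat_lit 32) (.e (nat_lit 475214) (nat_lit 42) (.e (nat_lit 720941) (nat_lit 22) .nil))))) .nil))) (.nd (nat_lit 5) 
(.lf (nat_lit 9303) (.g (nat_lit 1308) (.e (nat_lit 333) (nat_lit 26) (.e (nat_lit 376869) (nat_lit 23) (.e (nat_lit 98363) (nat_lit 26) (.e (nat_lit 426447) (nat_lit 20) (.e (nat_lit 114714) (nat_lit 22) (.e (nat_lit 90124) (nat_lit 9) .nil)))))) (.g (nat_lit 0) .nil .nil))) 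
(.lf (nat_lit 9335) (.g (nat_lit 2118) (.e (nat_lit 334) (nat_lit 26) (.e (nat_lit 376857) (nat_lit 21) (.e (nat_lit 57655) (nat_lit 152) (.e (nat_lit 1216) (nat_lit 90) (.e (nat_lit 81963) (nat_lit 26) (.e (nat_lit 147464) (nat_lit 9) .nil)))))) (.g (nat_lit 6) .nil .nil))))) (.nd (nat_lit 4) (.nd (nat_lit 5) 
(.lf (nat_lit 9295) (.g (nat_lit 1793) (.e (nat_lit 333) (nat_lit 26) (.e (nat_lit 376869) (nat_lit 23) (.e (nat_lit 98357) (nat_lit 26) (.e (nat_lit 426448) (nat_lit 20) (.e (nat_lit 114714) (nat_lit 22) (.e (nat_lit 90122) (nat_lit 9) .nil)))))) (.g (nat_lit 0) .nil .nil))) 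
(.lf (nat_lit 9327) (.g (nat_lit 1999) (.e (nat_lit 334) (nat_lit 26) (.e (nat_lit 376841) (nat_lit 11) (.e (nat_lit 426011) (nat_lit 0) (.e (nat_lit 7591) (nat_lit 407) (.e (nat_lit 73775) (nat_lit 26) .nil))))) .nil))) (.nd (nat_lit 5) 
(.lf (nat_lit 9311) (.g (nat_lit 1406) (.e (nat_lit 333) (nat_lit 26) (.e (nat_lit 376869) (nat_lit 23) (.e (nat_lit 98384) (nat_lit 32) (.e (nat_lit 475212) (nat_lit 42) (.e (nat_lit 720938) (nat_lit 22) .nil))))) .nil)) 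
(.lf (nat_lit 9343) (.g (nat_lit 2489) (.e (nat_lit 334) (nat_lit 26) (.e (nat_lit 376857) (nat_lit 21) (.e (nat_lit 57655) (nat_lit 152) (.e (nat_lit 1217) (nat_lit 90) (.e (nat_lit 81965) (nat_lit 26) (.e (nat_lit 147464) (nat_lit 9) .nil)))))) (.g (nat_lit 5) .nil .nil)))))))))

noncomputable def tv130 : DT := (.nd (nat_lit 0) (.nd (nat_lit 1) (.nd (nat_lit 2) (.nd (nat_lit 3) (.nd (nat_lit 4) (.nd (nat_lit 5) 
(.lf (nat_lit 9344) (.g (nat_lit 482) (.e (nat_lit 334) (nat_lit 26) (.e (nat_lit 376857) (nat_lit 21) (.e (nat_lit 57671) (nat_lit 152) .nil))) .nil)) 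
(.lf (nat_lit 9376) (.g (nat_lit 860) (.e (nat_lit 334) (nat_lit 26) (.e (nat_lit 376859) (nat_lit 21) (.e (nat_lit 57654) (nat_lit 152) (.e (nat_lit 1216) (nat_lit 90) .nil)))) .nil))) (.nd (nat_lit 5) 
(.lf (nat_lit 9360) (.g (nat_lit 1521) (.e (nat_lit 334) (nat_lit 26) (.e (nat_lit 376857) (nat_lit 21) (.e (nat_lit 57683) (nat_lit 155) (.e (nat_lit 122917) (nat_lit 15) (.e (nat_lit 360492) (nat_lit 22) (.e (nat_lit 778361) (nat_lit 9) .nil)))))) (.g (nat_lit 4) .nil .nil))) 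
(.lf (nat_lit 9392) (.g (nat_lit 2165) (.e (nat_lit 334) (nat_lit 26) (.e (nat_lit 376859) (nat_lit 21) (.e (nat_lit 57681) (nat_lit 155) (.e (nat_lit 122917) (nat_lit 15) (.e (nat_lit 360491) (nat_lit 22) .nil))))) .nil)))) (.nd (nat_lit 4) (.nd (nat_lit 5) 
(.lf (nat_lit 9352) (.g (nat_lit 1860) (.e (nat_lit 334) (nat_lit 26) (.e (nat_lit 376857) (nat_lit 21) (.e (nat_lit 57683) (nat_lit 155) (.e (nat_lit 122916) (nat_lit 14) (.e (nat_lit 352322) (nat_lit 26) (.e (nat_lit 147467) (nat_lit 9) .nil)))))) (.g (nat_lit 4) .nil .nil))) 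
(.lf (nat_lit 9384) (.g (nat_lit 2801) (.e (nat_lit 334) (nat_lit 26) (.e (nat_lit 376859) (nat_lit 21) (.e (nat_lit 57655) (nat_lit 152) (.e (nat_lit 1216) (nat_lit 90) (.e (nat_lit 81965) (nat_lit 26) (.e (nat_lit 147467) (nat_lit 9) .nil)))))) (.g (nat_lit 0) .nil .nil)))) (.nd (nat_lit 5) 
(.lf (nat_lit 9368) (.g (nat_lit 1639) (.e (nat_lit 334) (nat_lit 26) (.e (nat_lit 376857) (nat_lit 21) (.e (nat_lit 57684) (nat_lit 155) (.e (nat_lit 122916) (nat_lit 14) (.e (nat_lit 352324) (nat_lit 26) (.e (nat_lit 147467) (nat_lit 9) .nil)))))) (.g (nat_lit 4) .nil .nil))) 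
(.lf (nat_lit 9400) (.g (nat_lit 2277) (.e (nat_lit 334) (nat_lit 26) (.e (nat_lit 376859) (nat_lit 21) (.e (nat_lit 57683) (nat_lit 155) (.e (nat_lit 122917) (nat_lit 15) (.e (nat_lit 360491) (nat_lit 22) (.e (nat_lit 778359) (nat_lit 9) .nil)))))) (.g (nat_lit 0) .nil .nil)))))) (.nd (nat_lit 3) (.nd (nat_lit 4) (.nd (nat_lit 5) 
(.lf (nat_lit 9348) (.g (nat_lit 2886) (.e (nat_lit 334) (nat_lit 26) (.e (nat_lit 376857) (nat_lit 21) (.e (nat_lit 57681) (nat_lit 155) (.e (nat_lit 122919) (nat_lit 15) (.e (nat_lit 360491) (nat_lit 22) .nil))))) .nil)) 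
(.lf (nat_lit 9380) (.g (nat_lit 2181) (.e (nat_lit 334) (nat_lit 26) (.e (nat_lit 376859) (nat_lit 21) (.e (nat_lit 57655) (nat_lit 152) (.e (nat_lit 1216) (nat_lit 90) (.e (nat_lit 81963) (nat_lit 26) (.e (nat_lit 147463) (nat_lit 9) .nil)))))) (.g (nat_lit 6) .nil .nil)))) (.nd (nat_lit 5) 
(.lf (nat_lit 9364) (.g (nat_lit 1176) (.e (nat_lit 334) (nat_lit 26) (.e (nat_lit 376857) (nat_lit 21) (.e (nat_lit 57683) (nat_lit 155) (.e (nat_lit 122919) (nat_lit 15) (.e (nat_lit 360492) (nat_lit 22) (.e (nat_lit 778360) (nat_lit 9) .nil)))))) (.g (nat_lit 4) .nil .nil))) 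
(.lf (nat_lit 9396) (.g (nat_lit 1853) (.e (nat_lit 334) (nat_lit 26) (.e (nat_lit 376859) (nat_lit 21) (.e (nat_lit 57683) (nat_lit 155) (.e (nat_lit 122916) (nat_lit 14) (.e (nat_lit 352322) (nat_lit 26) .nil))))) .nil)))) (.nd (nat_lit 4) (.nd (nat_lit 5) 
(.lf (nat_lit 9356) (.g (nat_lit 1676) (.e (nat_lit 334) (nat_lit 26) (.e (nat_lit 376857) (nat_lit 21) (.e (nat_lit 57683) (nat_lit 155) (.e (nat_lit 122917) (nat_lit 15) (.e (nat_lit 360491) (nat_lit 22) (.e (nat_lit 778360) (nat_lit 9) .nil)))))) (.g (nat_lit 4) .nil .nil))) 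
(.lf (nat_lit 9388) (.g (nat_lit 2441) (.e (nat_lit 334) (nat_lit 26) (.e (nat_lit 376859) (nat_lit 21) (.e (nat_lit 57655) (nat_lit 152) (.e (nat_lit 1217) (nat_lit 90) (.e (nat_lit 81965) (nat_lit 26) (.e (nat_lit 147464) (nat_lit 9) .nil)))))) (.g (nat_lit 5) .nil .nil)))) (.nd (nat_lit 5) 
(.lf (nat_lit 9372) (.g (nat_lit 1842) (.e (nat_lit 334) (nat_lit 26) (.e (nat_lit 376857) (nat_lit 21) (.e (nat_lit 57684) (nat_lit 155) (.e (nat_lit 122919) (nat_lit 15) (.e (nat_lit 360491) (nat_lit 22) (.e (nat_lit 778359) (nat_lit 9) .nil)))))) (.g (nat_lit 0) .nil .nil))) 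
(.lf (nat_lit 9404) (.g (nat_lit 1511) (.e (nat_lit 334) (nat_lit 26) (.e (nat_lit 376859) (nat_lit 21) (.e (nat_lit 57683) (nat_lit 155) (.e (nat_lit 122919) (nat_lit 15) (.e (nat_lit 360491) (nat_lit 22) (.e (nat_lit 778360) (nat_lit 9) .nil)))))) (.g (nat_lit 4) .nil .nil))))))) (.nd (nat_lit 2) (.nd (nat_lit 3) (.nd (nat_lit 4) (.nd (nat_lit 5) 
(.lf (nat_lit 9346) (.g (nat_lit 2342) (.e (nat_lit 334) (nat_lit 26) (.e (nat_lit 376857) (nat_lit 21) (.e (nat_lit 57681) (nat_lit 155) (.e (nat_lit 122917) (nat_lit 15) (.e (nat_lit 360491) (nat_lit 22) .nil))))) .nil)) 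
(.lf (nat_lit 9378) (.g (nat_lit 2037) (.e (nat_lit 334) (nat_lit 26) (.e (nat_lit 376859) (nat_lit 21) (.e (nat_lit 57654) (nat_lit 152) (.e (nat_lit 1217) (nat_lit 90) (.e (nat_lit 81965) (nat_lit 26) (.e (nat_lit 147465) (nat_lit 9) .nil)))))) (.g (nat_lit 5) .nil .nil)))) (.nd (nat_lit 5) 
(.lf (nat_lit 9362) (.g (nat_lit 1475) (.e (nat_lit 334) (nat_lit 26) (.e (nat_lit 376857) (nat_lit 21) (.e (nat_lit 57683) (nat_lit 155) (.e (nat_lit 122919) (nat_lit 15) (.e (nat_lit 360491) (nat_lit 22) (.e (nat_lit 778360) (nat_lit 9) .nil)))))) (.g (nat_lit 4) .nil .nil))) 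
(.lf (nat_lit 9394) (.g (nat_lit 2532) (.e (nat_lit 334) (nat_lit 26) (.e (nat_lit 376859) (nat_lit 21) (.e (nat_lit 57681) (nat_lit 155) (.e (nat_lit 122919) (nat_lit 15) (.e (nat_lit 360492) (nat_lit 22) .nil))))) .nil)))) (.nd (nat_lit 4) (.nd (nat_lit 5) 
(.lf (nat_lit 9354) (.g (nat_lit 1961) (.e (nat_lit 334) (nat_lit 26) (.e (nat_lit 376857) (nat_lit 21) (.e (nat_lit 57683) (nat_lit 155) (.e (nat_lit 122916) (nat_lit 14) (.e (nat_lit 352324) (nat_lit 26) (.e (nat_lit 147467) (nat_lit 9) .nil)))))) (.g (nat_lit 4) .nil .nil))) 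
(.lf (nat_lit 9386) (.g (nat_lit 2040) (.e (nat_lit 334) (nat_lit 26) (.e (nat_lit 376859) (nat_lit 21) (.e (nat_lit 57655) (nat_lit 152) (.e (nat_lit 1217) (nat_lit 90) (.e (nat_lit 81963) (nat_lit 26) (.e (nat_lit 147464) (nat_lit 9) .nil)))))) (.g (nat_lit 6) .nil .nil)))) (.nd (nat_lit 5) 
(.lf (nat_lit 9370) (.g (nat_lit 1309) (.e (nat_lit 334) (nat_lit 26) (.e (nat_lit 376857) (nat_lit 21) (.e (nat_lit 57684) (nat_lit 155) (.e (nat_lit 122917) (nat_lit 15) (.e (nat_lit 360491) (nat_lit 22) (.e (nat_lit 778360) (nat_lit 9) .nil)))))) (.g (nat_lit 4) .nil .nil))) 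
(.lf (nat_lit 9402) (.g (nat_lit 1917) (.e (nat_lit 334) (nat_lit 26) (.e (nat_lit 376859) (nat_lit 21) (.e (nat_lit 57683) (nat_lit 155) (.e (nat_lit 122917) (nat_lit 15) (.e (nat_lit 360491) (nat_lit 22) (.e (nat_lit 778361) (nat_lit 9) .nil)))))) (.g (nat_lit 5) .nil .nil)))))) (.nd (nat_lit 3) (.nd (nat_lit 4) (.nd (nat_lit 5) 
(.lf (nat_lit 9350) (.g (nat_lit 2702) (.e (nat_lit 334) (nat_lit 26) (.e (nat_lit 376857) (nat_lit 21) (.e (nat_lit 57683) (nat_lit 155) (.e (nat_lit 122914) (nat_lit 14) (.e (nat_lit 352324) (nat_lit 26) (.e (nat_lit 147465) (nat_lit 9) .nil)))))) (.g (nat_lit 6) .nil .nil))) 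
(.lf (nat_lit 9382) (.g (nat_lit 2626) (.e (nat_lit 334) (nat_lit 26) (.e (nat_lit 376859) (nat_lit 21) (.e (nat_lit 57655) (nat_lit 152) (.e (nat_lit 1216) (nat_lit 90) (.e (nat_lit 81965) (nat_lit 26) (.e (nat_lit 147463) (nat_lit 9) .nil)))))) (.g (nat_lit 6) .nil .nil)))) (.nd (nat_lit 5) 
(.lf (nat_lit 9366) (.g (nat_lit 1679) (.e (nat_lit 334) (nat_lit 26) (.e (nat_lit 376857) (nat_lit 21) (.e (nat_lit 57684) (nat_lit 155) (.e (nat_lit 122916) (nat_lit 14) (.e (nat_lit 352322) (nat_lit 26) (.e (nat_lit 147467) (nat_lit 9) .nil)))))) (.g (nat_lit 4) .nil .nil))) 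
(.lf (nat_lit 9398) (.g (nat_lit 3327) (.e (nat_lit 334) (nat_lit 26) (.e (nat_lit 376859) (nat_lit 21) (.e (nat_lit 57683) (nat_lit 155) (.e (nat_lit 122916) (nat_lit 14) (.e (nat_lit 352324) (nat_lit 26) (.e (nat_lit 147465) (nat_lit 9) .nil)))))) (.g (nat_lit 0) .nil .nil))))) (.nd (nat_lit 4) (.nd (nat_lit 5) 
(.lf (nat_lit 9358) (.g (nat_lit 2228) (.e (nat_lit 334) (nat_lit 26) (.e (nat_lit 376857) (nat_lit 21) (.e (nat_lit 57683) (nat_lit 155) (.e (nat_lit 122917) (nat_lit 15) (.e (nat_lit 360492) (nat_lit 22) (.e (nat_lit 778359) (nat_lit 9) .nil)))))) (.g (nat_lit 0) .nil .nil))) 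
(.lf (nat_lit 9390) (.g (nat_lit 1046) (.e (nat_lit 334) (nat_lit 26) (.e (nat_lit 376859) (nat_lit 21) (.e (nat_lit 57666) (nat_lit 152) (.e (nat_lit 7936) (nat_lit 90) .nil)))) .nil))) (.nd (nat_lit 5) 
(.lf (nat_lit 9374) (.g (nat_lit 1489) (.e (nat_lit 334) (nat_lit 26) (.e (nat_lit 376857) (nat_lit 21) (.e (nat_lit 57684) (nat_lit 155) (.e (nat_lit 122919) (nat_lit 15) (.e (nat_lit 360491) (nat_lit 22) (.e (nat_lit 778361) (nat_lit 9) .nil)))))) (.g (nat_lit 4) .nil .nil))) 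
(.lf (nat_lit 9406) (.g (nat_lit 1247) (.e (nat_lit 334) (nat_lit 26) (.e (nat_lit 376859) (nat_lit 21) (.e (nat_lit 57683) (nat_lit 155) (.e (nat_lit 122919) (nat_lit 15) (.e (nat_lit 360492) (nat_lit 22) .nil))))) .nil))))))) (.nd (nat_lit 1) (.nd (nat_lit 2) (.nd (nat_lit 3) (.nd (nat_lit 4) (.nd (nat_lit 5) 
(.lf (nat_lit 9345) (.g (nat_lit 1924) (.e (nat_lit 334) (nat_lit 26) (.e (nat_lit 376857) (nat_lit 21) (.e (nat_lit 57680) (nat_lit 155) (.e (nat_lit 122916) (nat_lit 14) (.e (nat_lit 352324) (nat_lit 26) (.e (nat_lit 147465) (nat_lit 9) .nil)))))) (.g (nat_lit 4) .nil .nil))) 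
(.lf (nat_lit 9377) (.g (nat_lit 1249) (.e (nat_lit 334) (nat_lit 26) (.e (nat_lit 376859) (nat_lit 21) (.e (nat_lit 57654) (nat_lit 152) (.e (nat_lit 1217) (nat_lit 90) (.e (nat_lit 81963) (nat_lit 26) .nil))))) .nil))) (.nd (nat_lit 5) 
(.lf (nat_lit 9361) (.g (nat_lit 1964) (.e (nat_lit 334) (nat_lit 26) (.e (nat_lit 376857) (nat_lit 21) (.e (nat_lit 57683) (nat_lit 155) (.e (nat_lit 122919) (nat_lit 15) (.e (nat_lit 360491) (nat_lit 22) (.e (nat_lit 778359) (nat_lit 9) .nil)))))) (.g (nat_lit 0) .nil .nil))) 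
(.lf (nat_lit 9393) (.g (nat_lit 2185) (.e (nat_lit 334) (nat_lit 26) (.e (nat_lit 376859) (nat_lit 21) (.e (nat_lit 57681) (nat_lit 155) (.e (nat_lit 122917) (nat_lit 15) (.e (nat_lit 360492) (nat_lit 22) .nil))))) .nil)))) (.nd (nat_lit 4) (.nd (nat_lit 5) 
(.lf (nat_lit 9353) (.g (nat_lit 2673) (.e (nat_lit 334) (nat_lit 26) (.e (nat_lit 376857) (nat_lit 21) (.e (nat_lit 57683) (nat_lit 155) (.e (nat_lit 122916) (nat_lit 14) (.e (nat_lit 352324) (nat_lit 26) (.e (nat_lit 147464) (nat_lit 9) .nil)))))) (.g (nat_lit 5) .nil .nil))) 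
(.lf (nat_lit 9385) (.g (nat_lit 2203) (.e (nat_lit 334) (nat_lit 26) (.e (nat_lit 376859) (nat_lit 21) (.e (nat_lit 57655) (nat_lit 152) (.e (nat_lit 1217) (nat_lit 90) (.e (nat_lit 81963) (nat_lit 26) (.e (nat_lit 147463) (nat_lit 9) .nil)))))) (.g (nat_lit 6) .nil .nil)))) (.nd (nat_lit 5) 
(.lf (nat_lit 9369) (.g (nat_lit 1973) (.e (nat_lit 334) (nat_lit 26) (.e (nat_lit 376857) (nat_lit 21) (.e (nat_lit 57684) (nat_lit 155) (.e (nat_lit 122917) (nat_lit 15) (.e (nat_lit 360491) (nat_lit 22) (.e (nat_lit 778359) (nat_lit 9) .nil)))))) (.g (nat_lit 0) .nil .nil))) 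
(.lf (nat_lit 9401) (.g (nat_lit 1715) (.e (nat_lit 334) (nat_lit 26) (.e (nat_lit 376859) (nat_lit 21) (.e (nat_lit 57683) (nat_lit 155) (.e (nat_lit 122917) (nat_lit 15) (.e (nat_lit 360491) (nat_lit 22) (.e (nat_lit 778360) (nat_lit 9) .nil)))))) (.g (nat_lit 4) .nil .nil)))))) (.nd (nat_lit 3) (.nd (nat_lit 4) (.nd (nat_lit 5) 
(.lf (nat_lit 9349) (.g (nat_lit 2663) (.e (nat_lit 334) (nat_lit 26) (.e (nat_lit 376857) (nat_lit 21) (.e (nat_lit 57681) (nat_lit 155) (.e (nat_lit 122919) (nat_lit 15) (.e (nat_lit 360492) (nat_lit 22) .nil))))) .nil)) 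
(.lf (nat_lit 9381) (.g (nat_lit 2071) (.e (nat_lit 334) (nat_lit 26) (.e (nat_lit 376859) (nat_lit 21) (.e (nat_lit 57655) (nat_lit 152) (.e (nat_lit 1216) (nat_lit 90) (.e (nat_lit 81963) (nat_lit 26) (.e (nat_lit 147464) (nat_lit 9) .nil)))))) (.g (nat_lit 6) .nil .nil)))) (.nd (nat_lit 5) 
(.lf (nat_lit 9365) (.g (nat_lit 2839) (.e (nat_lit 334) (nat_lit 26) (.e (nat_lit 376857) (nat_lit 21) (.e (nat_lit 57684) (nat_lit 155) (.e (nat_lit 122914) (nat_lit 14) (.e (nat_lit 352324) (nat_lit 26) (.e (nat_lit 147465) (nat_lit 9) .nil)))))) (.g (nat_lit 0) .nil .nil))) 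
(.lf (nat_lit 9397) (.g (nat_lit 2791) (.e (nat_lit 334) (nat_lit 26) (.e (nat_lit 376859) (nat_lit 21) (.e (nat_lit 57683) (nat_lit 155) (.e (nat_lit 122916) (nat_lit 14) (.e (nat_lit 352322) (nat_lit 26) (.e (nat_lit 147465) (nat_lit 9) .nil)))))) (.g (nat_lit 5) .nil .nil))))) (.nd (nat_lit 4) (.nd (nat_lit 5) 
(.lf (nat_lit 9357) (.g (nat_lit 1925) (.e (nat_lit 334) (nat_lit 26) (.e (nat_lit 376857) (nat_lit 21) (.e (nat_lit 57683) (nat_lit 155) (.e (nat_lit 122917) (nat_lit 15) (.e (nat_lit 360491) (nat_lit 22) (.e (nat_lit 778361) (nat_lit 9) .nil)))))) (.g (nat_lit 5) .nil .nil))) 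
(.lf (nat_lit 9389) (.g (nat_lit 865) (.e (nat_lit 334) (nat_lit 26) (.e (nat_lit 376859) (nat_lit 21) (.e (nat_lit 57657) (nat_lit 152) (.e (nat_lit 7936) (nat_lit 90) .nil)))) .nil))) (.nd (nat_lit 5) 
(.lf (nat_lit 9373) (.g (nat_lit 1295) (.e (nat_lit 334) (nat_lit 26) (.e (nat_lit 376857) (nat_lit 21) (.e (nat_lit 57684) (nat_lit 155) (.e (nat_lit 122919) (nat_lit 15) (.e (nat_lit 360491) (nat_lit 22) (.e (nat_lit 778360) (nat_lit 9) .nil)))))) (.g (nat_lit 4) .nil .nil))) 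
(.lf (nat_lit 9405) (.g (nat_lit 1615) (.e (nat_lit 334) (nat_lit 26) (.e (nat_lit 376859) (nat_lit 21) (.e (nat_lit 57683) (nat_lit 155) (.e (nat_lit 122919) (nat_lit 15) (.e (nat_lit 360491) (nat_lit 22) (.e (nat_lit 778361) (nat_lit 9) .nil)))))) (.g (nat_lit 4) .nil .nil))))))) (.nd (nat_lit 2) (.nd (nat_lit 3) (.nd (nat_lit 4) (.nd (nat_lit 5) 
(.lf (nat_lit 9347) (.g (nat_lit 2362) (.e (nat_lit 334) (nat_lit 26) (.e (nat_lit 376857) (nat_lit 21) (.e (nat_lit 57681) (nat_lit 155) (.e (nat_lit 122917) (nat_lit 15) (.e (nat_lit 360492) (nat_lit 22) .nil))))) .nil)) 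
(.lf (nat_lit 9379) (.g (nat_lit 1950) (.e (nat_lit 334) (nat_lit 26) (.e (nat_lit 376859) (nat_lit 21) (.e (nat_lit 57654) (nat_lit 152) (.e (nat_lit 1217) (nat_lit 90) (.e (nat_lit 81965) (nat_lit 26) (.e (nat_lit 147467) (nat_lit 9) .nil)))))) (.g (nat_lit 5) .nil .nil)))) (.nd (nat_lit 5) 
(.lf (nat_lit 9363) (.g (nat_lit 1626) (.e (nat_lit 334) (nat_lit 26) (.e (nat_lit 376857) (nat_lit 21) (.e (nat_lit 57683) (nat_lit 155) (.e (nat_lit 122919) (nat_lit 15) (.e (nat_lit 360491) (nat_lit 22) (.e (nat_lit 778361) (nat_lit 9) .nil)))))) (.g (nat_lit 4) .nil .nil))) 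
(.lf (nat_lit 9395) (.g (nat_lit 2652) (.e (nat_lit 334) (nat_lit 26) (.e (nat_lit 376859) (nat_lit 21) (.e (nat_lit 57683) (nat_lit 155) (.e (nat_lit 122914) (nat_lit 14) (.e (nat_lit 352324) (nat_lit 26) (.e (nat_lit 147465) (nat_lit 9) .nil)))))) (.g (nat_lit 6) .nil .nil))))) (.nd (nat_lit 4) (.nd (nat_lit 5) 
(.lf (nat_lit 9355) (.g (nat_lit 2339) (.e (nat_lit 334) (nat_lit 26) (.e (nat_lit 376857) (nat_lit 21) (.e (nat_lit 57683) (nat_lit 155) (.e (nat_lit 122917) (nat_lit 15) (.e (nat_lit 360491) (nat_lit 22) (.e (nat_lit 778359) (nat_lit 9) .nil)))))) (.g (nat_lit 0) .nil .nil))) 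
(.lf (nat_lit 9387) (.g (nat_lit 2565) (.e (nat_lit 334) (nat_lit 26) (.e (nat_lit 376859) (nat_lit 21) (.e (nat_lit 57655) (nat_lit 152) (.e (nat_lit 1217) (nat_lit 90) (.e (nat_lit 81965) (nat_lit 26) (.e (nat_lit 147463) (nat_lit 9) .nil)))))) (.g (nat_lit 5) .nil .nil)))) (.nd (nat_lit 5) 
(.lf (nat_lit 9371) (.g (nat_lit 1825) (.e (nat_lit 334) (nat_lit 26) (.e (nat_lit 376857) (nat_lit 21) (.e (nat_lit 57684) (nat_lit 155) (.e (nat_lit 122917) (nat_lit 15) (.e (nat_lit 360492) (nat_lit 22) (.e (nat_lit 778359) (nat_lit 9) .nil)))))) (.g (nat_lit 0) .nil .nil))) 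
(.lf (nat_lit 9403) (.g (nat_lit 1388) (.e (nat_lit 334) (nat_lit 26) (.e (nat_lit 376859) (nat_lit 21) (.e (nat_lit 57683) (nat_lit 155) (.e (nat_lit 122917) (nat_lit 15) (.e (nat_lit 360492) (nat_lit 22) .nil))))) .nil))))) (.nd (nat_lit 3) (.nd (nat_lit 4) (.nd (nat_lit 5) 
(.lf (nat_lit 9351) (.g (nat_lit 2775) (.e (nat_lit 334) (nat_lit 26) (.e (nat_lit 376857) (nat_lit 21) (.e (nat_lit 57683) (nat_lit 155) (.e (nat_lit 122916) (nat_lit 14) (.e (nat_lit 352322) (nat_lit 26) (.e (nat_lit 147465) (nat_lit 9) .nil)))))) (.g (nat_lit 6) .nil .nil))) 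
(.lf (nat_lit 9383) (.g (nat_lit 2348) (.e (nat_lit 334) (nat_lit 26) (.e (nat_lit 376859) (nat_lit 21) (.e (nat_lit 57655) (nat_lit 152) (.e (nat_lit 1216) (nat_lit 90) (.e (nat_lit 81965) (nat_lit 26) (.e (nat_lit 147464) (nat_lit 9) .nil)))))) (.g (nat_lit 6) .nil .nil)))) (.nd (nat_lit 5) 
(.lf (nat_lit 9367) (.g (nat_lit 2943) (.e (nat_lit 334) (nat_lit 26) (.e (nat_lit 376857) (nat_lit 21) (.e (nat_lit 57684) (nat_lit 155) (.e (nat_lit 122916) (nat_lit 14) (.e (nat_lit 352324) (nat_lit 26) (.e (nat_lit 147465) (nat_lit 9) .nil)))))) (.g (nat_lit 0) .nil .nil))) 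
(.lf (nat_lit 9399) (.g (nat_lit 1936) (.e (nat_lit 334) (nat_lit 26) (.e (nat_lit 376859) (nat_lit 21) (.e (nat_lit 57683) (nat_lit 155) (.e (nat_lit 122916) (nat_lit 14) (.e (nat_lit 352324) (nat_lit 26) (.e (nat_lit 147467) (nat_lit 9) .nil)))))) (.g (nat_lit 4) .nil .nil))))) (.nd (nat_lit 4) (.nd (nat_lit 5) 
(.lf (nat_lit 9359) (.g (nat_lit 1346) (.e (nat_lit 334) (nat_lit 26) (.e (nat_lit 376857) (nat_lit 21) (.e (nat_lit 57683) (nat_lit 155) (.e (nat_lit 122917) (nat_lit 15) (.e (nat_lit 360492) (nat_lit 22) (.e (nat_lit 778360) (nat_lit 9) .nil)))))) (.g (nat_lit 4) .nil .nil))) 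
(.lf (nat_lit 9391) (.g (nat_lit 575) (.e (nat_lit 334) (nat_lit 26) (.e (nat_lit 376859) (nat_lit 21) (.e (nat_lit 57671) (nat_lit 152) .nil))) .nil))) (.nd (nat_lit 5) 
(.lf (nat_lit 9375) (.g (nat_lit 526) (.e (nat_lit 334) (nat_lit 26) (.e (nat_lit 376859) (nat_lit 21) (.e (nat_lit 57654) (nat_lit 152) .nil))) .nil)) 
(.lf (nat_lit 9407) (.g (nat_lit 1964) (.e (nat_lit 334) (nat_lit 26) (.e (nat_lit 376859) (nat_lit 21) (.e (nat_lit 57683) (nat_lit 155) (.e (nat_lit 122919) (nat_lit 15) (.e (nat_lit 360492) (nat_lit 22) (.e (nat_lit 778359) (nat_lit 9) .nil)))))) (.g (nat_lit 6) .nil .nil)))))))))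

noncomputable def tv131 : DT := (.nd (nat_lit 0) (.nd (nat_lit 1) (.nd (nat_lit 2) (.nd (nat_lit 3) (.nd (nat_lit 4) (.nd (nat_lit 5) 
(.lf (nat_lit 9408) (.g (nat_lit 2779) (.e (nat_lit 334) (nat_lit 26) (.e (nat_lit 376859) (nat_lit 21) (.e (nat_lit 57684) (nat_lit 155) (.e (nat_lit 122914) (nat_lit 14) (.e (nat_lit 352324) (nat_lit 26) (.e (nat_lit 147465) (nat_lit 9) .nil)))))) (.g (nat_lit 0) .nil .nil))) 
(.lf (nat_lit 9440) (.g (nat_lit 2262) (.e (nat_lit 334) (nat_lit 26) (.e (nat_lit 376865) (nat_lit 22) (.e (nat_lit 90160) (nat_lit 11) (.e (nat_lit 24584) (nat_lit 0) (.e (nat_lit 1996) (nat_lit 137) (.e (nat_lit 663565) (nat_lit 3) (.e (nat_lit 65280) (nat_lit 201) .nil))))))) (.g (nat_lit 5) .nil .nil)))) (.nd (nat_lit 5) 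
(.lf (nat_lit 9424) (.g (nat_lit 2203) (.e (nat_lit 334) (nat_lit 26) (.e (nat_lit 376862) (nat_lit 22) (.e (nat_lit 90160) (nat_lit 11) (.e (nat_lit 24584) (nat_lit 0) (.e (nat_lit 1994) (nat_lit 137) .nil))))) .nil)) 
(.lf (nat_lit 9456) (.g (nat_lit 1297) (.e (nat_lit 334) (nat_lit 26) (.e (nat_lit 376867) (nat_lit 23) (.e (nat_lit 98319) (nat_lit 17) (.e (nat_lit 7593) (nat_lit 407) (.e (nat_lit 73753) (nat_lit 8) (.e (nat_lit 564992) (nat_lit 9) .nil)))))) (.g (nat_lit 4) .nil .nil))))) (.nd (nat_lit 4) (.nd (nat_lit 5) 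
(.lf (nat_lit 9416) (.g (nat_lit 1769) (.e (nat_lit 334) (nat_lit 26) (.e (nat_lit 376859) (nat_lit 21) (.e (nat_lit 57684) (nat_lit 155) (.e (nat_lit 122919) (nat_lit 15) (.e (nat_lit 360492) (nat_lit 22) (.e (nat_lit 778359) (nat_lit 9) .nil)))))) (.g (nat_lit 6) .nil .nil))) 
(.lf (nat_lit 9448) (.g (nat_lit 2587) (.e (nat_lit 334) (nat_lit 26) (.e (nat_lit 376865) (nat_lit 22) (.e (nat_lit 90174) (nat_lit 14) (.e (nat_lit 180263) (nat_lit 21) (.e (nat_lit 663574) (nat_lit 9) (.e (nat_lit 2668) (nat_lit 167) (.e (nat_lit 204544) (nat_lit 0) .nil))))))) (.g (nat_lit 5) .nil .nil)))) (.nd (nat_lit 5) 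
(.lf (nat_lit 9432) (.g (nat_lit 1712) (.e (nat_lit 334) (nat_lit 26) (.e (nat_lit 376862) (nat_lit 22) (.e (nat_lit 90174) (nat_lit 14) (.e (nat_lit 180225) (nat_lit 0) .nil)))) .nil)) 
(.lf (nat_lit 9464) (.g (nat_lit 2392) (.e (nat_lit 334) (nat_lit 26) (.e (nat_lit 376867) (nat_lit 23) (.e (nat_lit 98350) (nat_lit 24) (.e (nat_lit 409648) (nat_lit 18) (.e (nat_lit 303108) (nat_lit 0) .nil))))) .nil))))) (.nd (nat_lit 3) (.nd (nat_lit 4) (.nd (nat_lit 5) 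
(.lf (nat_lit 9412) (.g (nat_lit 1327) (.e (nat_lit 334) (nat_lit 26) (.e (nat_lit 376859) (nat_lit 21) (.e (nat_lit 57684) (nat_lit 155) (.e (nat_lit 122917) (nat_lit 15) (.e (nat_lit 360491) (nat_lit 22) (.e (nat_lit 778360) (nat_lit 9) .nil)))))) (.g (nat_lit 4) .nil .nil))) 
(.lf (nat_lit 9444) (.g (nat_lit 1405) (.e (nat_lit 334) (nat_lit 26) (.e (nat_lit 376865) (nat_lit 22) (.e (nat_lit 90172) (nat_lit 14) (.e (nat_lit 180263) (nat_lit 21) .nil)))) .nil))) (.nd (nat_lit 5) 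
(.lf (nat_lit 9428) (.g (nat_lit 1430) (.e (nat_lit 334) (nat_lit 26) (.e (nat_lit 376862) (nat_lit 22) (.e (nat_lit 90172) (nat_lit 14) (.e (nat_lit 180225) (nat_lit 0) .nil)))) .nil)) 
(.lf (nat_lit 9460) (.g (nat_lit 3574) (.e (nat_lit 334) (nat_lit 26) (.e (nat_lit 376867) (nat_lit 23) (.e (nat_lit 98320) (nat_lit 17) (.e (nat_lit 7593) (nat_lit 407) (.e (nat_lit 73753) (nat_lit 8) (.e (nat_lit 557065) (nat_lit 9) .nil)))))) (.g (nat_lit 0) .nil .nil))))) (.nd (nat_lit 4) (.nd (nat_lit 5) 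
(.lf (nat_lit 9420) (.g (nat_lit 1728) (.e (nat_lit 334) (nat_lit 26) (.e (nat_lit 376860) (nat_lit 21) (.e (nat_lit 65280) (nat_lit 152) (.e (nat_lit 1220) (nat_lit 90) (.e (nat_lit 81965) (nat_lit 26) (.e (nat_lit 147464) (nat_lit 9) .nil)))))) (.g (nat_lit 5) .nil .nil))) 
(.lf (nat_lit 9452) (.g (nat_lit 1247) (.e (nat_lit 334) (nat_lit 26) (.e (nat_lit 376867) (nat_lit 23) (.e (nat_lit 106240) (nat_lit 16) (.e (nat_lit 401454) (nat_lit 12) (.e (nat_lit 483072) (nat_lit 0) .nil))))) (.g (nat_lit 4) .nil .nil)))) (.nd (nat_lit 5) 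
(.lf (nat_lit 9436) (.g (nat_lit 1916) (.e (nat_lit 334) (nat_lit 26) (.e (nat_lit 376862) (nat_lit 22) (.e (nat_lit 90185) (nat_lit 17) (.e (nat_lit 237585) (nat_lit 1) (.e (nat_lit 164330) (nat_lit 230) (.e (nat_lit 171776) (nat_lit 63) (.e (nat_lit 90128) (nat_lit 9) .nil))))))) (.g (nat_lit 5) .nil .nil))) 
(.lf (nat_lit 9468) (.g (nat_lit 1486) (.e (nat_lit 334) (nat_lit 26) (.e (nat_lit 376867) (nat_lit 23) (.e (nat_lit 98356) (nat_lit 26) (.e (nat_lit 426446) (nat_lit 20) (.e (nat_lit 114715) (nat_lit 22) (.e (nat_lit 90121) (nat_lit 9) .nil)))))) (.g (nat_lit 5) .nil .nil))))))) (.nd (nat_lit 2) (.nd (nat_lit 3) (.nd (nat_lit 4) (.nd (nat_lit 5) 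
(.lf (nat_lit 9410) (.g (nat_lit 2961) (.e (nat_lit 334) (nat_lit 26) (.e (nat_lit 376859) (nat_lit 21) (.e (nat_lit 57684) (nat_lit 155) (.e (nat_lit 122916) (nat_lit 14) (.e (nat_lit 352324) (nat_lit 26) (.e (nat_lit 147465) (nat_lit 9) .nil)))))) (.g (nat_lit 0) .nil .nil))) 
(.lf (nat_lit 9442) (.g (nat_lit 1370) (.e (nat_lit 334) (nat_lit 26) (.e (nat_lit 376865) (nat_lit 22) (.e (nat_lit 90172) (nat_lit 14) (.e (nat_lit 180225) (nat_lit 0) .nil)))) .nil))) (.nd (nat_lit 5) 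
(.lf (nat_lit 9426) (.g (nat_lit 704) (.e (nat_lit 334) (nat_lit 26) (.e (nat_lit 376862) (nat_lit 22) (.e (nat_lit 90162) (nat_lit 12) .nil))) .nil)) 
(.lf (nat_lit 9458) (.g (nat_lit 2035) (.e (nat_lit 334) (nat_lit 26) (.e (nat_lit 376867) (nat_lit 23) (.e (nat_lit 98319) (nat_lit 17) (.e (nat_lit 7593) (nat_lit 407) (.e (nat_lit 73754) (nat_lit 8) (.e (nat_lit 564992) (nat_lit 9) .nil)))))) (.g (nat_lit 5) .nil .nil))))) (.nd (nat_lit 4) (.nd (nat_lit 5) 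
(.lf (nat_lit 9418) (.g (nat_lit 808) (.e (nat_lit 334) (nat_lit 26) (.e (nat_lit 376860) (nat_lit 21) (.e (nat_lit 57651) (nat_lit 152) .nil))) .nil)) 
(.lf (nat_lit 9450) (.g (nat_lit 2002) (.e (nat_lit 334) (nat_lit 26) (.e (nat_lit 376865) (nat_lit 22) (.e (nat_lit 90185) (nat_lit 17) (.e (nat_lit 237585) (nat_lit 1) (.e (nat_lit 164330) (nat_lit 230) (.e (nat_lit 171776) (nat_lit 63) (.e (nat_lit 90128) (nat_lit 9) .nil))))))) (.g (nat_lit 5) .nil .nil)))) (.nd (nat_lit 5) 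
(.lf (nat_lit 9434) (.g (nat_lit 1990) (.e (nat_lit 334) (nat_lit 26) (.e (nat_lit 376862) (nat_lit 22) (.e (nat_lit 90174) (nat_lit 14) (.e (nat_lit 180263) (nat_lit 21) (.e (nat_lit 663580) (nat_lit 9) .nil))))) .nil)) 
(.lf (nat_lit 9466) (.g (nat_lit 1393) (.e (nat_lit 334) (nat_lit 26) (.e (nat_lit 376867) (nat_lit 23) (.e (nat_lit 98356) (nat_lit 26) (.e (nat_lit 426361) (nat_lit 15) (.e (nat_lit 2203) (nat_lit 144) (.e (nat_lit 720938) (nat_lit 22) (.e (nat_lit 90128) (nat_lit 9) .nil))))))) (.g (nat_lit 4) .nil .nil)))))) (.nd (nat_lit 3) (.nd (nat_lit 4) (.nd (nat_lit 5) 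
(.lf (nat_lit 9414) (.g (nat_lit 1315) (.e (nat_lit 334) (nat_lit 26) (.e (nat_lit 376859) (nat_lit 21) (.e (nat_lit 57684) (nat_lit 155) (.e (nat_lit 122919) (nat_lit 15) (.e (nat_lit 360491) (nat_lit 22) (.e (nat_lit 778360) (nat_lit 9) .nil)))))) (.g (nat_lit 4) .nil .nil))) 
(.lf (nat_lit 9446) (.g (nat_lit 1558) (.e (nat_lit 334) (nat_lit 26) (.e (nat_lit 376865) (nat_lit 22) (.e (nat_lit 90174) (nat_lit 14) (.e (nat_lit 180225) (nat_lit 0) .nil)))) .nil))) (.nd (nat_lit 5) 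
(.lf (nat_lit 9430) (.g (nat_lit 1439) (.e (nat_lit 334) (nat_lit 26) (.e (nat_lit 376862) (nat_lit 22) (.e (nat_lit 90172) (nat_lit 14) (.e (nat_lit 180263) (nat_lit 21) .nil)))) .nil)) 
(.lf (nat_lit 9462) (.g (nat_lit 2539) (.e (nat_lit 334) (nat_lit 26) (.e (nat_lit 376867) (nat_lit 23) (.e (nat_lit 98320) (nat_lit 17) (.e (nat_lit 7593) (nat_lit 407) (.e (nat_lit 73754) (nat_lit 8) (.e (nat_lit 557064) (nat_lit 9) .nil)))))) (.g (nat_lit 6) .nil .nil))))) (.nd (nat_lit 4) (.nd (nat_lit 5) 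
(.lf (nat_lit 9422) (.g (nat_lit 1848) (.e (nat_lit 334) (nat_lit 26) (.e (nat_lit 376862) (nat_lit 22) (.e (nat_lit 90133) (nat_lit 9) (.e (nat_lit 2397) (nat_lit 157) (.e (nat_lit 7590) (nat_lit 407) (.e (nat_lit 73755) (nat_lit 8) (.e (nat_lit 557066) (nat_lit 9) .nil))))))) (.g (nat_lit 4) .nil .nil))) 
(.lf (nat_lit 9454) (.g (nat_lit 2735) (.e (nat_lit 334) (nat_lit 26) (.e (nat_lit 376867) (nat_lit 23) (.e (nat_lit 98319) (nat_lit 17) (.e (nat_lit 7591) (nat_lit 407) (.e (nat_lit 73755) (nat_lit 8) (.e (nat_lit 557065) (nat_lit 9) .nil)))))) (.g (nat_lit 0) .nil .nil)))) (.nd (nat_lit 5) 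
(.lf (nat_lit 9438) (.g (nat_lit 1712) (.e (nat_lit 334) (nat_lit 26) (.e (nat_lit 376865) (nat_lit 22) (.e (nat_lit 90133) (nat_lit 9) (.e (nat_lit 2397) (nat_lit 157) (.e (nat_lit 7590) (nat_lit 407) (.e (nat_lit 73755) (nat_lit 8) (.e (nat_lit 557066) (nat_lit 9) .nil))))))) (.g (nat_lit 4) .nil .nil))) 
(.lf (nat_lit 9470) (.g (nat_lit 1057) (.e (nat_lit 334) (nat_lit 26) (.e (nat_lit 376867) (nat_lit 23) (.e (nat_lit 98357) (nat_lit 26) (.e (nat_lit 426446) (nat_lit 20) (.e (nat_lit 114715) (nat_lit 22) (.e (nat_lit 90121) (nat_lit 9) .nil)))))) (.g (nat_lit 4) .nil .nil)))))))) (.nd (nat_lit 1) (.nd (nat_lit 2) (.nd (nat_lit 3) (.nd (nat_lit 4) (.nd (nat_lit 5) 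
(.lf (nat_lit 9409) (.g (nat_lit 1628) (.e (nat_lit 334) (nat_lit 26) (.e (nat_lit 376859) (nat_lit 21) (.e (nat_lit 57684) (nat_lit 155) (.e (nat_lit 122916) (nat_lit 14) (.e (nat_lit 352322) (nat_lit 26) (.e (nat_lit 147467) (nat_lit 9) .nil)))))) (.g (nat_lit 4) .nil .nil))) 
(.lf (nat_lit 9441) (.g (nat_lit 496) (.e (nat_lit 334) (nat_lit 26) (.e (nat_lit 376865) (nat_lit 22) (.e (nat_lit 90172) (nat_lit 14) .nil))) .nil))) (.nd (nat_lit 5) 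
(.lf (nat_lit 9425) (.g (nat_lit 2113) (.e (nat_lit 334) (nat_lit 26) (.e (nat_lit 376862) (nat_lit 22) (.e (nat_lit 90160) (nat_lit 11) (.e (nat_lit 24584) (nat_lit 0) (.e (nat_lit 1996) (nat_lit 137) .nil))))) .nil)) 
(.lf (nat_lit 9457) (.g (nat_lit 2406) (.e (nat_lit 334) (nat_lit 26) (.e (nat_lit 376867) (nat_lit 23) (.e (nat_lit 98319) (nat_lit 17) (.e (nat_lit 7593) (nat_lit 407) (.e (nat_lit 73754) (nat_lit 8) (.e (nat_lit 557064) (nat_lit 9) .nil)))))) (.g (nat_lit 6) .nil .nil))))) (.nd (nat_lit 4) (.nd (nat_lit 5) 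
(.lf (nat_lit 9417) (.g (nat_lit 584) (.e (nat_lit 334) (nat_lit 26) (.e (nat_lit 376860) (nat_lit 21) (.e (nat_lit 65280) (nat_lit 143) .nil))) .nil)) 
(.lf (nat_lit 9449) (.g (nat_lit 508) (.e (nat_lit 334) (nat_lit 26) (.e (nat_lit 376865) (nat_lit 22) (.e (nat_lit 90181) (nat_lit 16) .nil))) .nil))) (.nd (nat_lit 5) 
(.lf (nat_lit 9433) (.g (nat_lit 1711) (.e (nat_lit 334) (nat_lit 26) (.e (nat_lit 376862) (nat_lit 22) (.e (nat_lit 90174) (nat_lit 14) (.e (nat_lit 180263) (nat_lit 21) .nil)))) .nil)) 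
(.lf (nat_lit 9465) (.g (nat_lit 1185) (.e (nat_lit 334) (nat_lit 26) (.e (nat_lit 376867) (nat_lit 23) (.e (nat_lit 98355) (nat_lit 26) (.e (nat_lit 426446) (nat_lit 20) (.e (nat_lit 114715) (nat_lit 22) (.e (nat_lit 90121) (nat_lit 9) .nil)))))) (.g (nat_lit 4) .nil .nil)))))) (.nd (nat_lit 3) (.nd (nat_lit 4) (.nd (nat_lit 5) 
(.lf (nat_lit 9413) (.g (nat_lit 1760) (.e (nat_lit 334) (nat_lit 26) (.e (nat_lit 376859) (nat_lit 21) (.e (nat_lit 57684) (nat_lit 155) (.e (nat_lit 122919) (nat_lit 15) (.e (nat_lit 360491) (nat_lit 22) (.e (nat_lit 778359) (nat_lit 9) .nil)))))) (.g (nat_lit 0) .nil .nil))) 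
(.lf (nat_lit 9445) (.g (nat_lit 1909) (.e (nat_lit 334) (nat_lit 26) (.e (nat_lit 376865) (nat_lit 22) (.e (nat_lit 90172) (nat_lit 14) (.e (nat_lit 180263) (nat_lit 21) (.e (nat_lit 663580) (nat_lit 9) (.e (nat_lit 2663) (nat_lit 167) (.e (nat_lit 204544) (nat_lit 0) .nil))))))) (.g (nat_lit 4) .nil .nil)))) (.nd (nat_lit 5) 
(.lf (nat_lit 9429) (.g (nat_lit 1105) (.e (nat_lit 334) (nat_lit 26) (.e (nat_lit 376862) (nat_lit 22) (.e (nat_lit 90172) (nat_lit 14) (.e (nat_lit 188160) (nat_lit 0) .nil)))) .nil)) 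
(.lf (nat_lit 9461) (.g (nat_lit 1418) (.e (nat_lit 334) (nat_lit 26) (.e (nat_lit 376867) (nat_lit 23) (.e (nat_lit 98320) (nat_lit 17) (.e (nat_lit 7593) (nat_lit 407) (.e (nat_lit 73753) (nat_lit 8) (.e (nat_lit 564992) (nat_lit 9) .nil)))))) (.g (nat_lit 4) .nil .nil))))) (.nd (nat_lit 4) (.nd (nat_lit 5) 
(.lf (nat_lit 9421) (.g (nat_lit 716) (.e (nat_lit 334) (nat_lit 26) (.e (nat_lit 376862) (nat_lit 22) (.e (nat_lit 90133) (nat_lit 9) .nil))) .nil)) 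
(.lf (nat_lit 9453) (.g (nat_lit 2275) (.e (nat_lit 334) (nat_lit 26) (.e (nat_lit 376867) (nat_lit 23) (.e (nat_lit 98319) (nat_lit 17) (.e (nat_lit 7591) (nat_lit 407) (.e (nat_lit 73753) (nat_lit 8) (.e (nat_lit 557066) (nat_lit 9) .nil)))))) (.g (nat_lit 6) .nil .nil)))) (.nd (nat_lit 5) 
(.lf (nat_lit 9437) (.g (nat_lit 629) (.e (nat_lit 334) (nat_lit 26) (.e (nat_lit 376865) (nat_lit 22) (.e (nat_lit 90133) (nat_lit 9) .nil))) .nil)) 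
(.lf (nat_lit 9469) (.g (nat_lit 2229) (.e (nat_lit 334) (nat_lit 26) (.e (nat_lit 376867) (nat_lit 23) (.e (nat_lit 98356) (nat_lit 26) (.e (nat_lit 426448) (nat_lit 20) (.e (nat_lit 114715) (nat_lit 22) (.e (nat_lit 90121) (nat_lit 9) .nil)))))) (.g (nat_lit 5) .nil .nil))))))) (.nd (nat_lit 2) (.nd (nat_lit 3) (.nd (nat_lit 4) (.nd (nat_lit 5) 
(.lf (nat_lit 9411) (.g (nat_lit 1613) (.e (nat_lit 334) (nat_lit 26) (.e (nat_lit 376859) (nat_lit 21) (.e (nat_lit 57684) (nat_lit 155) (.e (nat_lit 122916) (nat_lit 14) (.e (nat_lit 352324) (nat_lit 26) (.e (nat_lit 147467) (nat_lit 9) .nil)))))) (.g (nat_lit 4) .nil .nil))) 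
(.lf (nat_lit 9443) (.g (nat_lit 1031) (.e (nat_lit 334) (nat_lit 26) (.e (nat_lit 376865) (nat_lit 22) (.e (nat_lit 90172) (nat_lit 14) (.e (nat_lit 188160) (nat_lit 0) .nil)))) .nil))) (.nd (nat_lit 5) 
(.lf (nat_lit 9427) (.g (nat_lit 1030) (.e (nat_lit 334) (nat_lit 26) (.e (nat_lit 376862) (nat_lit 22) (.e (nat_lit 90167) (nat_lit 13) (.e (nat_lit 179968) (nat_lit 20) .nil)))) .nil)) 
(.lf (nat_lit 9459) (.g (nat_lit 2895) (.e (nat_lit 334) (nat_lit 26) (.e (nat_lit 376867) (nat_lit 23) (.e (nat_lit 98320) (nat_lit 17) (.e (nat_lit 7591) (nat_lit 407) (.e (nat_lit 73755) (nat_lit 8) (.e (nat_lit 557065) (nat_lit 9) .nil)))))) (.g (nat_lit 0) .nil .nil))))) (.nd (nat_lit 4) (.nd (nat_lit 5) 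
(.lf (nat_lit 9419) (.g (nat_lit 1365) (.e (nat_lit 334) (nat_lit 26) (.e (nat_lit 376860) (nat_lit 21) (.e (nat_lit 57663) (nat_lit 152) (.e (nat_lit 7936) (nat_lit 90) .nil)))) .nil)) 
(.lf (nat_lit 9451) (.g (nat_lit 1990) (.e (nat_lit 334) (nat_lit 26) (.e (nat_lit 376865) (nat_lit 22) (.e (nat_lit 90185) (nat_lit 17) (.e (nat_lit 237595) (nat_lit 4) .nil)))) .nil))) (.nd (nat_lit 5) 
(.lf (nat_lit 9435) (.g (nat_lit 492) (.e (nat_lit 334) (nat_lit 26) (.e (nat_lit 376862) (nat_lit 22) (.e (nat_lit 90181) (nat_lit 16) .nil))) .nil)) 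
(.lf (nat_lit 9467) (.g (nat_lit 1429) (.e (nat_lit 334) (nat_lit 26) (.e (nat_lit 376867) (nat_lit 23) (.e (nat_lit 98356) (nat_lit 26) (.e (nat_lit 426361) (nat_lit 15) (.e (nat_lit 2203) (nat_lit 144) (.e (nat_lit 720941) (nat_lit 22) (.e (nat_lit 90128) (nat_lit 9) .nil))))))) (.g (nat_lit 4) .nil .nil)))))) (.nd (nat_lit 3) (.nd (nat_lit 4) (.nd (nat_lit 5) 
(.lf (nat_lit 9415) (.g (nat_lit 1462) (.e (nat_lit 334) (nat_lit 26) (.e (nat_lit 376859) (nat_lit 21) (.e (nat_lit 57684) (nat_lit 155) (.e (nat_lit 122919) (nat_lit 15) (.e (nat_lit 360491) (nat_lit 22) (.e (nat_lit 778361) (nat_lit 9) .nil)))))) (.g (nat_lit 4) .nil .nil))) 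
(.lf (nat_lit 9447) (.g (nat_lit 1568) (.e (nat_lit 334) (nat_lit 26) (.e (nat_lit 376865) (nat_lit 22) (.e (nat_lit 90174) (nat_lit 14) (.e (nat_lit 180263) (nat_lit 21) .nil)))) .nil))) (.nd (nat_lit 5) 
(.lf (nat_lit 9431) (.g (nat_lit 1924) (.e (nat_lit 334) (nat_lit 26) (.e (nat_lit 376862) (nat_lit 22) (.e (nat_lit 90172) (nat_lit 14) (.e (nat_lit 180263) (nat_lit 21) (.e (nat_lit 663572) (nat_lit 9) (.e (nat_lit 2668) (nat_lit 167) (.e (nat_lit 204544) (nat_lit 0) .nil))))))) (.g (nat_lit 4) .nil .nil))) 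
(.lf (nat_lit 9463) (.g (nat_lit 2160) (.e (nat_lit 334) (nat_lit 26) (.e (nat_lit 376867) (nat_lit 23) (.e (nat_lit 98320) (nat_lit 17) (.e (nat_lit 7593) (nat_lit 407) (.e (nat_lit 73754) (nat_lit 8) (.e (nat_lit 564992) (nat_lit 9) .nil)))))) (.g (nat_lit 5) .nil .nil))))) (.nd (nat_lit 4) (.nd (nat_lit 5) 
(.lf (nat_lit 9423) (.g (nat_lit 1714) (.e (nat_lit 334) (nat_lit 26) (.e (nat_lit 376862) (nat_lit 22) (.e (nat_lit 90133) (nat_lit 9) (.e (nat_lit 2400) (nat_lit 157) (.e (nat_lit 7590) (nat_lit 407) (.e (nat_lit 73755) (nat_lit 8) (.e (nat_lit 557066) (nat_lit 9) .nil))))))) (.g (nat_lit 4) .nil .nil))) 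
(.lf (nat_lit 9455) (.g (nat_lit 3454) (.e (nat_lit 334) (nat_lit 26) (.e (nat_lit 376867) (nat_lit 23) (.e (nat_lit 98319) (nat_lit 17) (.e (nat_lit 7593) (nat_lit 407) (.e (nat_lit 73753) (nat_lit 8) (.e (nat_lit 557065) (nat_lit 9) .nil)))))) (.g (nat_lit 0) .nil .nil)))) (.nd (nat_lit 5) 
(.lf (nat_lit 9439) (.g (nat_lit 1578) (.e (nat_lit 334) (nat_lit 26) (.e (nat_lit 376865) (nat_lit 22) (.e (nat_lit 90133) (nat_lit 9) (.e (nat_lit 2400) (nat_lit 157) (.e (nat_lit 7590) (nat_lit 407) (.e (nat_lit 73755) (nat_lit 8) (.e (nat_lit 557066) (nat_lit 9) .nil))))))) (.g (nat_lit 4) .nil .nil))) 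
(.lf (nat_lit 9471) (.g (nat_lit 1794) (.e (nat_lit 334) (nat_lit 26) (.e (nat_lit 376867) (nat_lit 23) (.e (nat_lit 98357) (nat_lit 26) (.e (nat_lit 426448) (nat_lit 20) (.e (nat_lit 114715) (nat_lit 22) (.e (nat_lit 90121) (nat_lit 9) .nil)))))) (.g (nat_lit 4) .nil .nil)))))))))

noncomputable def tv132 : DT := (.nd (nat_lit 0) (.nd (nat_lit 1) (.nd (nat_lit 2) (.nd (nat_lit 3) (.nd (nat_lit 4) (.nd (nat_lit 5) (.nd (nat_lit 6) 
(.lf (nat_lit 9472) (.g (nat_lit 1580) (.e (nat_lit 334) (nat_lit 26) (.e (nat_lit 376867) (nat_lit 23) (.e (nat_lit 98358) (nat_lit 26) (.e (nat_lit 426448) (nat_lit 20) .nil)))) .nil)) 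
(.lf (nat_lit 9536) (.g (nat_lit 1679) (.e (nat_lit 334) (nat_lit 26) (.e (nat_lit 376869) (nat_lit 23) (.e (nat_lit 98389) (nat_lit 33) (.e (nat_lit 491560) (nat_lit 10) (.e (nat_lit 344128) (nat_lit 26) .nil))))) .nil))) (.nd (nat_lit 6) 
(.lf (nat_lit 9504) (.g (nat_lit 1193) (.e (nat_lit 334) (nat_lit 26) (.e (nat_lit 376869) (nat_lit 23) (.e (nat_lit 98355) (nat_lit 26) (.e (nat_lit 426446) (nat_lit 20) (.e (nat_lit 114715) (nat_lit 22) (.e (nat_lit 90121) (nat_lit 9) .nil)))))) (.g (nat_lit 4) .nil .nil))) 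
(.lf (nat_lit 9568) (.g (nat_lit 1496) (.e (nat_lit 336) (nat_lit 26) (.e (nat_lit 376842) (nat_lit 11) (.e (nat_lit 426500) (nat_lit 27) (.e (nat_lit 335995) (nat_lit 1) .nil)))) .nil)))) (.nd (nat_lit 5) (.nd (nat_lit 6) 
(.lf (nat_lit 9488) (.g (nat_lit 1583) (.e (nat_lit 334) (nat_lit 26) (.e (nat_lit 376867) (nat_lit 23) (.e (nat_lit 98389) (nat_lit 33) (.e (nat_lit 491560) (nat_lit 10) (.e (nat_lit 344128) (nat_lit 26) .nil))))) .nil)) 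
(.lf (nat_lit 9552) (.g (nat_lit 1517) (.e (nat_lit 336) (nat_lit 26) (.e (nat_lit 376842) (nat_lit 11) (.e (nat_lit 426009) (nat_lit 0) (.e (nat_lit 7591) (nat_lit 407) .nil)))) .nil))) (.nd (nat_lit 6) 
(.lf (nat_lit 9520) (.g (nat_lit 2574) (.e (nat_lit 334) (nat_lit 26) (.e (nat_lit 376869) (nat_lit 23) (.e (nat_lit 98367) (nat_lit 27) (.e (nat_lit 434276) (nat_lit 39) (.e (nat_lit 663580) (nat_lit 9) (.e (nat_lit 2663) (nat_lit 167) (.e (nat_lit 204544) (nat_lit 0) .nil))))))) (.g (nat_lit 4) .nil .nil))) 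
(.lf (nat_lit 9584) (.g (nat_lit 1003) (.e (nat_lit 7936) (nat_lit 26) (.e (nat_lit 376865) (nat_lit 22) (.e (nat_lit 90170) (nat_lit 13) (.e (nat_lit 179968) (nat_lit 20) .nil)))) .nil))))) (.nd (nat_lit 4) (.nd (nat_lit 5) (.nd (nat_lit 6) 
(.lf (nat_lit 9480) (.g (nat_lit 1115) (.e (nat_lit 334) (nat_lit 26) (.e (nat_lit 376867) (nat_lit 23) (.e (nat_lit 98385) (nat_lit 32) (.e (nat_lit 475214) (nat_lit 42) (.e (nat_lit 720937) (nat_lit 22) (.e (nat_lit 90127) (nat_lit 9) .nil)))))) (.g (nat_lit 4) .nil .nil))) 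
(.lf (nat_lit 9544) (.g (nat_lit 2945) (.e (nat_lit 335) (nat_lit 26) (.e (nat_lit 376842) (nat_lit 11) (.e (nat_lit 426011) (nat_lit 0) (.e (nat_lit 7593) (nat_lit 407) (.e (nat_lit 73774) (nat_lit 26) .nil))))) .nil))) (.nd (nat_lit 6) 
(.lf (nat_lit 9512) (.g (nat_lit 1167) (.e (nat_lit 334) (nat_lit 26) (.e (nat_lit 376869) (nat_lit 23) (.e (nat_lit 98365) (nat_lit 26) (.e (nat_lit 426009) (nat_lit 0) .nil)))) .nil)) 
(.lf (nat_lit 9576) (.g (nat_lit 1226) (.e (nat_lit 7936) (nat_lit 26) (.e (nat_lit 376862) (nat_lit 22) (.e (nat_lit 90170) (nat_lit 13) (.e (nat_lit 179968) (nat_lit 20) .nil)))) .nil)))) (.nd (nat_lit 5) (.nd (nat_lit 6) 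
(.lf (nat_lit 9496) (.g (nat_lit 1355) (.e (nat_lit 334) (nat_lit 26) (.e (nat_lit 376869) (nat_lit 23) (.e (nat_lit 98319) (nat_lit 17) (.e (nat_lit 7593) (nat_lit 407) (.e (nat_lit 73753) (nat_lit 8) (.e (nat_lit 564992) (nat_lit 9) .nil)))))) (.g (nat_lit 4) .nil .nil))) 
(.lf (nat_lit 9560) (.g (nat_lit 1533) (.e (nat_lit 336) (nat_lit 26) (.e (nat_lit 376842) (nat_lit 11) (.e (nat_lit 426298) (nat_lit 11) .nil))) .nil))) (.nd (nat_lit 6) 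
(.lf (nat_lit 9528) (.g (nat_lit 1153) (.e (nat_lit 334) (nat_lit 26) (.e (nat_lit 376869) (nat_lit 23) (.e (nat_lit 98385) (nat_lit 32) (.e (nat_lit 475214) (nat_lit 42) (.e (nat_lit 720938) (nat_lit 22) (.e (nat_lit 90127) (nat_lit 9) .nil)))))) (.g (nat_lit 4) .nil .nil))) 
(.lf (nat_lit 9592) (.g (nat_lit 879) (.e (nat_lit 7936) (nat_lit 26) (.e (nat_lit 376869) (nat_lit 23) (.e (nat_lit 98365) (nat_lit 26) (.e (nat_lit 433920) (nat_lit 20) .nil)))) .nil)))))) (.nd (nat_lit 3) (.nd (nat_lit 4) (.nd (nat_lit 5) (.nd (nat_lit 6) 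
(.lf (nat_lit 9476) (.g (nat_lit 927) (.e (nat_lit 334) (nat_lit 26) (.e (nat_lit 376867) (nat_lit 23) (.e (nat_lit 98384) (nat_lit 32) (.e (nat_lit 475201) (nat_lit 40) (.e (nat_lit 704743) (nat_lit 12) .nil))))) .nil)) 
(.lf (nat_lit 9540) (.g (nat_lit 1743) (.e (nat_lit 334) (nat_lit 26) (.e (nat_lit 376869) (nat_lit 23) (.e (nat_lit 98389) (nat_lit 33) (.e (nat_lit 491560) (nat_lit 10) (.e (nat_lit 344131) (nat_lit 26) (.e (nat_lit 564992) (nat_lit 9) .nil)))))) (.g (nat_lit 4) .nil .nil)))) (.nd (nat_lit 6) 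
(.lf (nat_lit 9508) (.g (nat_lit 2248) (.e (nat_lit 334) (nat_lit 26) (.e (nat_lit 376869) (nat_lit 23) (.e (nat_lit 98356) (nat_lit 26) (.e (nat_lit 426448) (nat_lit 20) (.e (nat_lit 114715) (nat_lit 22) (.e (nat_lit 90121) (nat_lit 9) .nil)))))) (.g (nat_lit 5) .nil .nil))) 
(.lf (nat_lit 9572) (.g (nat_lit 1468) (.e (nat_lit 7936) (nat_lit 26) (.e (nat_lit 376862) (nat_lit 22) (.e (nat_lit 90133) (nat_lit 9) (.e (nat_lit 2397) (nat_lit 157) (.e (nat_lit 7590) (nat_lit 407) .nil))))) .nil)))) (.nd (nat_lit 5) (.nd (nat_lit 6) 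
(.lf (nat_lit 9492) (.g (nat_lit 2781) (.e (nat_lit 334) (nat_lit 26) (.e (nat_lit 376867) (nat_lit 23) (.e (nat_lit 98389) (nat_lit 33) (.e (nat_lit 491560) (nat_lit 10) (.e (nat_lit 344131) (nat_lit 26) (.e (nat_lit 557066) (nat_lit 9) .nil)))))) (.g (nat_lit 0) .nil .nil))) 
(.lf (nat_lit 9556) (.g (nat_lit 2027) (.e (nat_lit 336) (nat_lit 26) (.e (nat_lit 376842) (nat_lit 11) (.e (nat_lit 426010) (nat_lit 0) (.e (nat_lit 7593) (nat_lit 407) (.e (nat_lit 73775) (nat_lit 26) .nil))))) .nil))) (.nd (nat_lit 6) 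
(.lf (nat_lit 9524) (.g (nat_lit 1624) (.e (nat_lit 334) (nat_lit 26) (.e (nat_lit 376869) (nat_lit 23) (.e (nat_lit 98384) (nat_lit 32) (.e (nat_lit 475214) (nat_lit 42) (.e (nat_lit 720937) (nat_lit 22) (.e (nat_lit 90127) (nat_lit 9) .nil)))))) (.g (nat_lit 4) .nil .nil))) 
(.lf (nat_lit 9588) (.g (nat_lit 962) (.e (nat_lit 7936) (nat_lit 26) (.e (nat_lit 376866) (nat_lit 23) (.e (nat_lit 98320) (nat_lit 17) (.e (nat_lit 7593) (nat_lit 407) (.e (nat_lit 73753) (nat_lit 8) .nil))))) .nil))))) (.nd (nat_lit 4) (.nd (nat_lit 5) (.nd (nat_lit 6) 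
(.lf (nat_lit 9484) (.g (nat_lit 1846) (.e (nat_lit 334) (nat_lit 26) (.e (nat_lit 376867) (nat_lit 23) (.e (nat_lit 98389) (nat_lit 33) (.e (nat_lit 491558) (nat_lit 10) (.e (nat_lit 344130) (nat_lit 26) (.e (nat_lit 557064) (nat_lit 9) .nil)))))) (.g (nat_lit 5) .nil .nil))) 
(.lf (nat_lit 9548) (.g (nat_lit 1965) (.e (nat_lit 335) (nat_lit 26) (.e (nat_lit 376842) (nat_lit 11) (.e (nat_lit 426343) (nat_lit 14) (.e (nat_lit 491560) (nat_lit 10) .nil)))) .nil))) (.nd (nat_lit 6) 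
(.lf (nat_lit 9516) (.g (nat_lit 2717) (.e (nat_lit 334) (nat_lit 26) (.e (nat_lit 376869) (nat_lit 23) (.e (nat_lit 98366) (nat_lit 27) (.e (nat_lit 434276) (nat_lit 39) (.e (nat_lit 663580) (nat_lit 9) (.e (nat_lit 2663) (nat_lit 167) (.e (nat_lit 204544) (nat_lit 0) .nil))))))) (.g (nat_lit 5) .nil .nil))) 
(.lf (nat_lit 9580) (.g (nat_lit 1313) (.e (nat_lit 7936) (nat_lit 26) (.e (nat_lit 376865) (nat_lit 22) (.e (nat_lit 90133) (nat_lit 9) (.e (nat_lit 2397) (nat_lit 157) (.e (nat_lit 7590) (nat_lit 407) .nil))))) .nil)))) (.nd (nat_lit 5) (.nd (nat_lit 6) 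
(.lf (nat_lit 9500) (.g (nat_lit 2575) (.e (nat_lit 334) (nat_lit 26) (.e (nat_lit 376869) (nat_lit 23) (.e (nat_lit 98320) (nat_lit 17) (.e (nat_lit 7593) (nat_lit 407) (.e (nat_lit 73754) (nat_lit 8) (.e (nat_lit 557064) (nat_lit 9) .nil)))))) (.g (nat_lit 6) .nil .nil))) 
(.lf (nat_lit 9564) (.g (nat_lit 3059) (.e (nat_lit 336) (nat_lit 26) (.e (nat_lit 376842) (nat_lit 11) (.e (nat_lit 426343) (nat_lit 14) (.e (nat_lit 491560) (nat_lit 10) (.e (nat_lit 344179) (nat_lit 44) .nil))))) .nil))) (.nd (nat_lit 6) 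
(.lf (nat_lit 9532) (.g (nat_lit 3855) (.e (nat_lit 334) (nat_lit 26) (.e (nat_lit 376869) (nat_lit 23) (.e (nat_lit 98389) (nat_lit 33) (.e (nat_lit 491558) (nat_lit 10) (.e (nat_lit 344133) (nat_lit 26) (.e (nat_lit 557065) (nat_lit 9) .nil)))))) (.g (nat_lit 0) .nil .nil))) 
(.lf (nat_lit 9596) (.g (nat_lit 3535) (.e (nat_lit 337) (nat_lit 27) (.e (nat_lit 385065) (nat_lit 26) (.e (nat_lit 532543) (nat_lit 10) (.e (nat_lit 344129) (nat_lit 26) (.e (nat_lit 557097) (nat_lit 13) (.e (nat_lit 172064) (nat_lit 2) (.e (nat_lit 204544) (nat_lit 0) .nil))))))) (.g (nat_lit 6) .nil .nil)))))))) 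
(.nd (nat_lit 2) (.nd (nat_lit 3) (.nd (nat_lit 4) (.nd (nat_lit 5) (.nd (nat_lit 6) 
(.lf (nat_lit 9474) (.g (nat_lit 3643) (.e (nat_lit 334) (nat_lit 26) (.e (nat_lit 376867) (nat_lit 23) (.e (nat_lit 98366) (nat_lit 27) (.e (nat_lit 434275) (nat_lit 39) (.e (nat_lit 663580) (nat_lit 9) (.e (nat_lit 2663) (nat_lit 167) (.e (nat_lit 204544) (nat_lit 0) .nil))))))) (.g (nat_lit 5) .nil .nil))) 
(.lf (nat_lit 9538) (.g (nat_lit 3813) (.e (nat_lit 334) (nat_lit 26) (.e (nat_lit 376869) (nat_lit 23) (.e (nat_lit 98389) (nat_lit 33) (.e (nat_lit 491560) (nat_lit 10) (.e (nat_lit 344129) (nat_lit 26) (.e (nat_lit 557065) (nat_lit 9) .nil)))))) (.g (nat_lit 0) .nil .nil)))) (.nd (nat_lit 6) 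
(.lf (nat_lit 9506) (.g (nat_lit 1480) (.e (nat_lit 334) (nat_lit 26) (.e (nat_lit 376869) (nat_lit 23) (.e (nat_lit 98356) (nat_lit 26) (.e (nat_lit 426361) (nat_lit 15) (.e (nat_lit 2203) (nat_lit 144) (.e (nat_lit 720941) (nat_lit 22) (.e (nat_lit 90128) (nat_lit 9) .nil))))))) (.g (nat_lit 4) .nil .nil))) 
(.lf (nat_lit 9570) (.g (nat_lit 589) (.e (nat_lit 336) (nat_lit 26) (.e (nat_lit 376857) (nat_lit 21) (.e (nat_lit 57655) (nat_lit 152) .nil))) .nil)))) (.nd (nat_lit 5) (.nd (nat_lit 6) 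
(.lf (nat_lit 9490) (.g (nat_lit 3733) (.e (nat_lit 334) (nat_lit 26) (.e (nat_lit 376867) (nat_lit 23) (.e (nat_lit 98389) (nat_lit 33) (.e (nat_lit 491560) (nat_lit 10) (.e (nat_lit 344129) (nat_lit 26) (.e (nat_lit 557065) (nat_lit 9) .nil)))))) (.g (nat_lit 0) .nil .nil))) 
(.lf (nat_lit 9554) (.g (nat_lit 1917) (.e (nat_lit 336) (nat_lit 26) (.e (nat_lit 376842) (nat_lit 11) (.e (nat_lit 426009) (nat_lit 0) (.e (nat_lit 7593) (nat_lit 407) (.e (nat_lit 73775) (nat_lit 26) (.e (nat_lit 778362) (nat_lit 9) .nil)))))) (.g (nat_lit 4) .nil .nil)))) (.nd (nat_lit 6) 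
(.lf (nat_lit 9522) (.g (nat_lit 972) (.e (nat_lit 334) (nat_lit 26) (.e (nat_lit 376869) (nat_lit 23) (.e (nat_lit 98384) (nat_lit 32) (.e (nat_lit 475201) (nat_lit 40) (.e (nat_lit 704743) (nat_lit 12) .nil))))) .nil)) 
(.lf (nat_lit 9586) (.g (nat_lit 1050) (.e (nat_lit 7936) (nat_lit 26) (.e (nat_lit 376865) (nat_lit 22) (.e (nat_lit 90181) (nat_lit 16) (.e (nat_lit 237312) (nat_lit 192) .nil)))) .nil))))) (.nd (nat_lit 4) (.nd (nat_lit 5) (.nd (nat_lit 6) 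
(.lf (nat_lit 9482) (.g (nat_lit 1740) (.e (nat_lit 334) (nat_lit 26) (.e (nat_lit 376867) (nat_lit 23) (.e (nat_lit 98388) (nat_lit 33) (.e (nat_lit 491560) (nat_lit 10) (.e (nat_lit 344131) (nat_lit 26) .nil))))) .nil)) 
(.lf (nat_lit 9546) (.g (nat_lit 3100) (.e (nat_lit 335) (nat_lit 26) (.e (nat_lit 376842) (nat_lit 11) (.e (nat_lit 426306) (nat_lit 12) (.e (nat_lit 475214) (nat_lit 42) (.e (nat_lit 728832) (nat_lit 0) .nil))))) .nil))) (.nd (nat_lit 6) 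
(.lf (nat_lit 9514) (.g (nat_lit 4574) (.e (nat_lit 334) (nat_lit 26) (.e (nat_lit 376869) (nat_lit 23) (.e (nat_lit 98366) (nat_lit 27) (.e (nat_lit 434275) (nat_lit 39) (.e (nat_lit 663574) (nat_lit 9) (.e (nat_lit 2668) (nat_lit 167) (.e (nat_lit 204544) (nat_lit 0) .nil))))))) (.g (nat_lit 6) .nil .nil))) 
(.lf (nat_lit 9578) (.g (nat_lit 713) (.e (nat_lit 7936) (nat_lit 26) (.e (nat_lit 376862) (nat_lit 22) (.e (nat_lit 90181) (nat_lit 16) (.e (nat_lit 237312) (nat_lit 192) .nil)))) .nil)))) (.nd (nat_lit 5) (.nd (nat_lit 6) 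
(.lf (nat_lit 9498) (.g (nat_lit 2090) (.e (nat_lit 334) (nat_lit 26) (.e (nat_lit 376869) (nat_lit 23) (.e (nat_lit 98319) (nat_lit 17) (.e (nat_lit 7593) (nat_lit 407) (.e (nat_lit 73754) (nat_lit 8) (.e (nat_lit 564992) (nat_lit 9) .nil)))))) (.g (nat_lit 5) .nil .nil))) 
(.lf (nat_lit 9562) (.g (nat_lit 1970) (.e (nat_lit 336) (nat_lit 26) (.e (nat_lit 376842) (nat_lit 11) (.e (nat_lit 426341) (nat_lit 14) (.e (nat_lit 491556) (nat_lit 9) .nil)))) .nil))) (.nd (nat_lit 6) 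
(.lf (nat_lit 9530) (.g (nat_lit 1671) (.e (nat_lit 334) (nat_lit 26) (.e (nat_lit 376869) (nat_lit 23) (.e (nat_lit 98388) (nat_lit 33) (.e (nat_lit 491560) (nat_lit 10) (.e (nat_lit 344130) (nat_lit 26) .nil))))) .nil)) 
(.lf (nat_lit 9594) (.g (nat_lit 1640) (.e (nat_lit 7936) (nat_lit 26) (.e (nat_lit 376869) (nat_lit 23) (.e (nat_lit 98384) (nat_lit 32) (.e (nat_lit 475214) (nat_lit 42) (.e (nat_lit 720939) (nat_lit 22) .nil))))) .nil)))))) (.nd (nat_lit 3) (.nd (nat_lit 4) (.nd (nat_lit 5) (.nd (nat_lit 6) 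
(.lf (nat_lit 9478) (.g (nat_lit 1660) (.e (nat_lit 334) (nat_lit 26) (.e (nat_lit 376867) (nat_lit 23) (.e (nat_lit 98384) (nat_lit 32) (.e (nat_lit 475214) (nat_lit 42) (.e (nat_lit 720938) (nat_lit 22) (.e (nat_lit 90127) (nat_lit 9) .nil)))))) (.g (nat_lit 4) .nil .nil))) 
(.lf (nat_lit 9542) (.g (nat_lit 1729) (.e (nat_lit 334) (nat_lit 26) (.e (nat_lit 376872) (nat_lit 26) (.e (nat_lit 147496) (nat_lit 11) (.e (nat_lit 24617) (nat_lit 7) (.e (nat_lit 327424) (nat_lit 3) (.e (nat_lit 40972) (nat_lit 9) .nil)))))) (.g (nat_lit 4) .nil .nil)))) (.nd (nat_lit 6) 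
(.lf (nat_lit 9510) (.g (nat_lit 1778) (.e (nat_lit 334) (nat_lit 26) (.e (nat_lit 376869) (nat_lit 23) (.e (nat_lit 98357) (nat_lit 26) (.e (nat_lit 426448) (nat_lit 20) (.e (nat_lit 114715) (nat_lit 22) (.e (nat_lit 90121) (nat_lit 9) .nil)))))) (.g (nat_lit 4) .nil .nil))) 
(.lf (nat_lit 9574) (.g (nat_lit 1377) (.e (nat_lit 7936) (nat_lit 26) (.e (nat_lit 376862) (nat_lit 22) (.e (nat_lit 90133) (nat_lit 9) (.e (nat_lit 2400) (nat_lit 157) (.e (nat_lit 7592) (nat_lit 407) .nil))))) .nil)))) (.nd (nat_lit 5) (.nd (nat_lit 6) 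
(.lf (nat_lit 9494) (.g (nat_lit 1299) (.e (nat_lit 334) (nat_lit 26) (.e (nat_lit 376869) (nat_lit 23) (.e (nat_lit 106240) (nat_lit 16) (.e (nat_lit 401454) (nat_lit 12) (.e (nat_lit 483072) (nat_lit 0) .nil))))) (.g (nat_lit 4) .nil .nil))) 
(.lf (nat_lit 9558) (.g (nat_lit 2074) (.e (nat_lit 336) (nat_lit 26) (.e (nat_lit 376842) (nat_lit 11) (.e (nat_lit 426011) (nat_lit 0) (.e (nat_lit 7593) (nat_lit 407) (.e (nat_lit 73775) (nat_lit 26) .nil))))) .nil))) (.nd (nat_lit 6) 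
(.lf (nat_lit 9526) (.g (nat_lit 1672) (.e (nat_lit 334) (nat_lit 26) (.e (nat_lit 376869) (nat_lit 23) (.e (nat_lit 98384) (nat_lit 32) (.e (nat_lit 475214) (nat_lit 42) (.e (nat_lit 720941) (nat_lit 22) (.e (nat_lit 90127) (nat_lit 9) .nil)))))) (.g (nat_lit 4) .nil .nil))) 
(.lf (nat_lit 9590) (.g (nat_lit 856) (.e (nat_lit 7936) (nat_lit 26) (.e (nat_lit 376869) (nat_lit 23) (.e (nat_lit 98356) (nat_lit 26) (.e (nat_lit 426446) (nat_lit 20) .nil)))) .nil))))) (.nd (nat_lit 4) (.nd (nat_lit 5) (.nd (nat_lit 6) 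
(.lf (nat_lit 9486) (.g (nat_lit 3508) (.e (nat_lit 334) (nat_lit 26) (.e (nat_lit 376867) (nat_lit 23) (.e (nat_lit 98389) (nat_lit 33) (.e (nat_lit 491558) (nat_lit 10) (.e (nat_lit 344133) (nat_lit 26) (.e (nat_lit 557066) (nat_lit 9) .nil)))))) (.g (nat_lit 0) .nil .nil))) 
(.lf (nat_lit 9550) (.g (nat_lit 1740) (.e (nat_lit 335) (nat_lit 26) (.e (nat_lit 376865) (nat_lit 22) (.e (nat_lit 90160) (nat_lit 11) (.e (nat_lit 32512) (nat_lit 19) .nil)))) .nil))) (.nd (nat_lit 6) 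
(.lf (nat_lit 9518) (.g (nat_lit 4436) (.e (nat_lit 334) (nat_lit 26) (.e (nat_lit 376869) (nat_lit 23) (.e (nat_lit 98367) (nat_lit 27) (.e (nat_lit 434275) (nat_lit 39) (.e (nat_lit 663574) (nat_lit 9) (.e (nat_lit 2668) (nat_lit 167) (.e (nat_lit 204544) (nat_lit 0) .nil))))))) (.g (nat_lit 6) .nil .nil))) 
(.lf (nat_lit 9582) (.g (nat_lit 1222) (.e (nat_lit 7936) (nat_lit 26) (.e (nat_lit 376865) (nat_lit 22) (.e (nat_lit 90133) (nat_lit 9) (.e (nat_lit 2400) (nat_lit 157) (.e (nat_lit 7592) (nat_lit 407) .nil))))) .nil)))) (.nd (nat_lit 5) (.nd (nat_lit 6) 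
(.lf (nat_lit 9502) (.g (nat_lit 2408) (.e (nat_lit 334) (nat_lit 26) (.e (nat_lit 376869) (nat_lit 23) (.e (nat_lit 98350) (nat_lit 24) (.e (nat_lit 409648) (nat_lit 18) (.e (nat_lit 303108) (nat_lit 0) .nil))))) .nil)) 
(.lf (nat_lit 9566) (.g (nat_lit 2825) (.e (nat_lit 336) (nat_lit 26) (.e (nat_lit 376842) (nat_lit 11) (.e (nat_lit 426344) (nat_lit 14) (.e (nat_lit 491560) (nat_lit 10) (.e (nat_lit 344179) (nat_lit 44) .nil))))) .nil))) (.nd (nat_lit 6) 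
(.lf (nat_lit 9534) (.g (nat_lit 2002) (.e (nat_lit 334) (nat_lit 26) (.e (nat_lit 376869) (nat_lit 23) (.e (nat_lit 98389) (nat_lit 33) (.e (nat_lit 491560) (nat_lit 10) (.e (nat_lit 344127) (nat_lit 26) (.e (nat_lit 557065) (nat_lit 9) .nil)))))) (.g (nat_lit 4) .nil .nil))) 
(.lf (nat_lit 9598) (.g (nat_lit 1602) (.e (nat_lit 337) (nat_lit 27) (.e (nat_lit 385068) (nat_lit 26) (.e (nat_lit 532545) (nat_lit 10) (.e (nat_lit 344130) (nat_lit 26) .nil)))) .nil)))))))) (.nd (nat_lit 1) (.nd (nat_lit 2) (.nd (nat_lit 3) (.nd (nat_lit 4) (.nd (nat_lit 5) (.nd (nat_lit 6) 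
(.lf (nat_lit 9473) (.g (nat_lit 1105) (.e (nat_lit 334) (nat_lit 26) (.e (nat_lit 376867) (nat_lit 23) (.e (nat_lit 98365) (nat_lit 26) (.e (nat_lit 426009) (nat_lit 0) .nil)))) .nil)) 
(.lf (nat_lit 9537) (.g (nat_lit 2023) (.e (nat_lit 334) (nat_lit 26) (.e (nat_lit 376869) (nat_lit 23) (.e (nat_lit 98389) (nat_lit 33) (.e (nat_lit 491560) (nat_lit 10) (.e (nat_lit 344128) (nat_lit 26) (.e (nat_lit 557066) (nat_lit 9) .nil)))))) (.g (nat_lit 4) .nil .nil)))) (.nd (nat_lit 6) 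
(.lf (nat_lit 9505) (.g (nat_lit 1444) (.e (nat_lit 334) (nat_lit 26) (.e (nat_lit 376869) (nat_lit 23) (.e (nat_lit 98356) (nat_lit 26) (.e (nat_lit 426361) (nat_lit 15) (.e (nat_lit 2203) (nat_lit 144) (.e (nat_lit 720938) (nat_lit 22) (.e (nat_lit 90128) (nat_lit 9) .nil))))))) (.g (nat_lit 4) .nil .nil))) 
(.lf (nat_lit 9569) (.g (nat_lit 1829) (.e (nat_lit 336) (nat_lit 26) (.e (nat_lit 376842) (nat_lit 11) (.e (nat_lit 426500) (nat_lit 27) (.e (nat_lit 335995) (nat_lit 1) (.e (nat_lit 57848) (nat_lit 252) .nil))))) .nil)))) (.nd (nat_lit 5) (.nd (nat_lit 6) 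
(.lf (nat_lit 9489) (.g (nat_lit 1927) (.e (nat_lit 334) (nat_lit 26) (.e (nat_lit 376867) (nat_lit 23) (.e (nat_lit 98389) (nat_lit 33) (.e (nat_lit 491560) (nat_lit 10) (.e (nat_lit 344128) (nat_lit 26) (.e (nat_lit 557066) (nat_lit 9) .nil)))))) (.g (nat_lit 4) .nil .nil))) 
(.lf (nat_lit 9553) (.g (nat_lit 1510) (.e (nat_lit 336) (nat_lit 26) (.e (nat_lit 376842) (nat_lit 11) (.e (nat_lit 426009) (nat_lit 0) (.e (nat_lit 7593) (nat_lit 407) .nil)))) .nil))) (.nd (nat_lit 6) 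
(.lf (nat_lit 9521) (.g (nat_lit 1607) (.e (nat_lit 334) (nat_lit 26) (.e (nat_lit 376869) (nat_lit 23) (.e (nat_lit 98367) (nat_lit 27) (.e (nat_lit 434278) (nat_lit 39) .nil)))) .nil)) 
(.lf (nat_lit 9585) (.g (nat_lit 2386) (.e (nat_lit 7936) (nat_lit 26) (.e (nat_lit 376865) (nat_lit 22) (.e (nat_lit 90174) (nat_lit 14) (.e (nat_lit 180225) (nat_lit 0) (.e (nat_lit 5968) (nat_lit 324) .nil))))) .nil))))) (.nd (nat_lit 4) (.nd (nat_lit 5) (.nd (nat_lit 6) 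
(.lf (nat_lit 9481) (.g (nat_lit 1159) (.e (nat_lit 334) (nat_lit 26) (.e (nat_lit 376867) (nat_lit 23) (.e (nat_lit 98385) (nat_lit 32) (.e (nat_lit 475214) (nat_lit 42) (.e (nat_lit 720938) (nat_lit 22) (.e (nat_lit 90127) (nat_lit 9) .nil)))))) (.g (nat_lit 4) .nil .nil))) 
(.lf (nat_lit 9545) (.g (nat_lit 1589) (.e (nat_lit 335) (nat_lit 26) (.e (nat_lit 376842) (nat_lit 11) (.e (nat_lit 426188) (nat_lit 9) .nil))) .nil))) (.nd (nat_lit 6) 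
(.lf (nat_lit 9513) (.g (nat_lit 2356) (.e (nat_lit 334) (nat_lit 26) (.e (nat_lit 376869) (nat_lit 23) (.e (nat_lit 98366) (nat_lit 27) (.e (nat_lit 434275) (nat_lit 39) (.e (nat_lit 663572) (nat_lit 9) (.e (nat_lit 2668) (nat_lit 167) (.e (nat_lit 204544) (nat_lit 0) .nil))))))) (.g (nat_lit 4) .nil .nil))) 
(.lf (nat_lit 9577) (.g (nat_lit 1703) (.e (nat_lit 7936) (nat_lit 26) (.e (nat_lit 376862) (nat_lit 22) (.e (nat_lit 90174) (nat_lit 14) (.e (nat_lit 180225) (nat_lit 0) .nil)))) .nil)))) (.nd (nat_lit 5) (.nd (nat_lit 6) 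
(.lf (nat_lit 9497) (.g (nat_lit 2444) (.e (nat_lit 334) (nat_lit 26) (.e (nat_lit 376869) (nat_lit 23) (.e (nat_lit 98319) (nat_lit 17) (.e (nat_lit 7593) (nat_lit 407) (.e (nat_lit 73754) (nat_lit 8) (.e (nat_lit 557064) (nat_lit 9) .nil)))))) (.g (nat_lit 6) .nil .nil))) 
(.lf (nat_lit 9561) (.g (nat_lit 1171) (.e (nat_lit 336) (nat_lit 26) (.e (nat_lit 376842) (nat_lit 11) (.e (nat_lit 426341) (nat_lit 14) .nil))) .nil))) (.nd (nat_lit 6) 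
(.lf (nat_lit 9529) (.g (nat_lit 1912) (.e (nat_lit 334) (nat_lit 26) (.e (nat_lit 376869) (nat_lit 23) (.e (nat_lit 98387) (nat_lit 33) (.e (nat_lit 491560) (nat_lit 10) (.e (nat_lit 344129) (nat_lit 26) .nil))))) .nil)) 
(.lf (nat_lit 9593) (.g (nat_lit 1806) (.e (nat_lit 7936) (nat_lit 26) (.e (nat_lit 376869) (nat_lit 23) (.e (nat_lit 98367) (nat_lit 27) (.e (nat_lit 434275) (nat_lit 39) (.e (nat_lit 663580) (nat_lit 9) .nil))))) .nil)))))) (.nd (nat_lit 3) (.nd (nat_lit 4) (.nd (nat_lit 5) (.nd (nat_lit 6) 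
(.lf (nat_lit 9477) (.g (nat_lit 1630) (.e (nat_lit 334) (nat_lit 26) (.e (nat_lit 376867) (nat_lit 23) (.e (nat_lit 98384) (nat_lit 32) (.e (nat_lit 475214) (nat_lit 42) (.e (nat_lit 720937) (nat_lit 22) (.e (nat_lit 90127) (nat_lit 9) .nil)))))) (.g (nat_lit 4) .nil .nil))) 
(.lf (nat_lit 9541) (.g (nat_lit 1936) (.e (nat_lit 334) (nat_lit 26) (.e (nat_lit 376872) (nat_lit 26) (.e (nat_lit 147496) (nat_lit 11) (.e (nat_lit 24584) (nat_lit 0) (.e (nat_lit 6097) (nat_lit 332) (.e (nat_lit 2584) (nat_lit 161) (.e (nat_lit 40972) (nat_lit 9) .nil))))))) (.g (nat_lit 4) .nil .nil)))) (.nd (nat_lit 6) 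
(.lf (nat_lit 9509) (.g (nat_lit 1040) (.e (nat_lit 334) (nat_lit 26) (.e (nat_lit 376869) (nat_lit 23) (.e (nat_lit 98357) (nat_lit 26) (.e (nat_lit 426446) (nat_lit 20) (.e (nat_lit 114715) (nat_lit 22) (.e (nat_lit 90121) (nat_lit 9) .nil)))))) (.g (nat_lit 4) .nil .nil))) 
(.lf (nat_lit 9573) (.g (nat_lit 1353) (.e (nat_lit 7936) (nat_lit 26) (.e (nat_lit 376862) (nat_lit 22) (.e (nat_lit 90133) (nat_lit 9) (.e (nat_lit 2400) (nat_lit 157) (.e (nat_lit 7590) (nat_lit 407) .nil))))) .nil)))) (.nd (nat_lit 5) (.nd (nat_lit 6) 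
(.lf (nat_lit 9493) (.g (nat_lit 1635) (.e (nat_lit 334) (nat_lit 26) (.e (nat_lit 376867) (nat_lit 23) (.e (nat_lit 98389) (nat_lit 33) (.e (nat_lit 491560) (nat_lit 10) (.e (nat_lit 344131) (nat_lit 26) (.e (nat_lit 564992) (nat_lit 9) .nil)))))) (.g (nat_lit 4) .nil .nil))) 
(.lf (nat_lit 9557) (.g (nat_lit 2042) (.e (nat_lit 336) (nat_lit 26) (.e (nat_lit 376842) (nat_lit 11) (.e (nat_lit 426011) (nat_lit 0) (.e (nat_lit 7591) (nat_lit 407) (.e (nat_lit 73775) (nat_lit 26) .nil))))) .nil))) (.nd (nat_lit 6) 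
(.lf (nat_lit 9525) (.g (nat_lit 1655) (.e (nat_lit 334) (nat_lit 26) (.e (nat_lit 376869) (nat_lit 23) (.e (nat_lit 98384) (nat_lit 32) (.e (nat_lit 475214) (nat_lit 42) (.e (nat_lit 720938) (nat_lit 22) (.e (nat_lit 90127) (nat_lit 9) .nil)))))) (.g (nat_lit 4) .nil .nil))) 
(.lf (nat_lit 9589) (.g (nat_lit 1324) (.e (nat_lit 7936) (nat_lit 26) (.e (nat_lit 376867) (nat_lit 23) (.e (nat_lit 98389) (nat_lit 33) (.e (nat_lit 491560) (nat_lit 10) (.e (nat_lit 344131) (nat_lit 26) .nil))))) .nil))))) (.nd (nat_lit 4) (.nd (nat_lit 5) (.nd (nat_lit 6) 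
(.lf (nat_lit 9485) (.g (nat_lit 3791) (.e (nat_lit 334) (nat_lit 26) (.e (nat_lit 376867) (nat_lit 23) (.e (nat_lit 98389) (nat_lit 33) (.e (nat_lit 491558) (nat_lit 10) (.e (nat_lit 344133) (nat_lit 26) (.e (nat_lit 557065) (nat_lit 9) .nil)))))) (.g (nat_lit 0) .nil .nil))) 
(.lf (nat_lit 9549) (.g (nat_lit 2560) (.e (nat_lit 335) (nat_lit 26) (.e (nat_lit 376865) (nat_lit 22) (.e (nat_lit 90160) (nat_lit 11) (.e (nat_lit 24584) (nat_lit 0) (.e (nat_lit 1994) (nat_lit 137) (.e (nat_lit 663565) (nat_lit 3) (.e (nat_lit 65280) (nat_lit 201) .nil))))))) (.g (nat_lit 5) .nil .nil)))) (.nd (nat_lit 6) 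
(.lf (nat_lit 9517) (.g (nat_lit 2161) (.e (nat_lit 334) (nat_lit 26) (.e (nat_lit 376869) (nat_lit 23) (.e (nat_lit 98367) (nat_lit 27) (.e (nat_lit 434275) (nat_lit 39) (.e (nat_lit 663572) (nat_lit 9) (.e (nat_lit 2668) (nat_lit 167) (.e (nat_lit 204544) (nat_lit 0) .nil))))))) (.g (nat_lit 4) .nil .nil))) 
(.lf (nat_lit 9581) (.g (nat_lit 905) (.e (nat_lit 7936) (nat_lit 26) (.e (nat_lit 376865) (nat_lit 22) (.e (nat_lit 90133) (nat_lit 9) (.e (nat_lit 2400) (nat_lit 157) .nil)))) .nil)))) (.nd (nat_lit 5) (.nd (nat_lit 6) 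
(.lf (nat_lit 9501) (.g (nat_lit 2213) (.e (nat_lit 334) (nat_lit 26) (.e (nat_lit 376869) (nat_lit 23) (.e (nat_lit 98320) (nat_lit 17) (.e (nat_lit 7593) (nat_lit 407) (.e (nat_lit 73754) (nat_lit 8) (.e (nat_lit 564992) (nat_lit 9) .nil)))))) (.g (nat_lit 5) .nil .nil))) 
(.lf (nat_lit 9565) (.g (nat_lit 2829) (.e (nat_lit 336) (nat_lit 26) (.e (nat_lit 376842) (nat_lit 11) (.e (nat_lit 426344) (nat_lit 14) (.e (nat_lit 491556) (nat_lit 9) (.e (nat_lit 336051) (nat_lit 6) .nil))))) .nil))) (.nd (nat_lit 6) 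
(.lf (nat_lit 9533) (.g (nat_lit 3594) (.e (nat_lit 334) (nat_lit 26) (.e (nat_lit 376869) (nat_lit 23) (.e (nat_lit 98389) (nat_lit 33) (.e (nat_lit 491558) (nat_lit 10) (.e (nat_lit 344133) (nat_lit 26) (.e (nat_lit 557066) (nat_lit 9) .nil)))))) (.g (nat_lit 0) .nil .nil))) 
(.lf (nat_lit 9597) (.g (nat_lit 3315) (.e (nat_lit 337) (nat_lit 27) (.e (nat_lit 385065) (nat_lit 26) (.e (nat_lit 532543) (nat_lit 10) (.e (nat_lit 344133) (nat_lit 26) (.e (nat_lit 557098) (nat_lit 13) (.e (nat_lit 172064) (nat_lit 2) (.e (nat_lit 204544) (nat_lit 0) .nil))))))) (.g (nat_lit 6) .nil .nil)))))))) 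
(.nd (nat_lit 2) (.nd (nat_lit 3) (.nd (nat_lit 4) (.nd (nat_lit 5) (.nd (nat_lit 6) 
(.lf (nat_lit 9475) (.g (nat_lit 3708) (.e (nat_lit 334) (nat_lit 26) (.e (nat_lit 376867) (nat_lit 23) (.e (nat_lit 98367) (nat_lit 27) (.e (nat_lit 434275) (nat_lit 39) (.e (nat_lit 663580) (nat_lit 9) (.e (nat_lit 2663) (nat_lit 167) (.e (nat_lit 204544) (nat_lit 0) .nil))))))) (.g (nat_lit 6) .nil .nil))) 
(.lf (nat_lit 9539) (.g (nat_lit 2888) (.e (nat_lit 334) (nat_lit 26) (.e (nat_lit 376869) (nat_lit 23) (.e (nat_lit 98389) (nat_lit 33) (.e (nat_lit 491560) (nat_lit 10) (.e (nat_lit 344131) (nat_lit 26) (.e (nat_lit 557066) (nat_lit 9) .nil)))))) (.g (nat_lit 0) .nil .nil)))) (.nd (nat_lit 6) 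
(.lf (nat_lit 9507) (.g (nat_lit 1476) (.e (nat_lit 334) (nat_lit 26) (.e (nat_lit 376869) (nat_lit 23) (.e (nat_lit 98356) (nat_lit 26) (.e (nat_lit 426446) (nat_lit 20) (.e (nat_lit 114715) (nat_lit 22) (.e (nat_lit 90121) (nat_lit 9) .nil)))))) (.g (nat_lit 5) .nil .nil))) 
(.lf (nat_lit 9571) (.g (nat_lit 1546) (.e (nat_lit 7936) (nat_lit 26) (.e (nat_lit 376834) (nat_lit 0) (.e (nat_lit 3305) (nat_lit 202) (.e (nat_lit 573485) (nat_lit 13) (.e (nat_lit 65619) (nat_lit 10) .nil))))) .nil)))) (.nd (nat_lit 5) (.nd (nat_lit 6) 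
(.lf (nat_lit 9491) (.g (nat_lit 2803) (.e (nat_lit 334) (nat_lit 26) (.e (nat_lit 376867) (nat_lit 23) (.e (nat_lit 98389) (nat_lit 33) (.e (nat_lit 491560) (nat_lit 10) (.e (nat_lit 344130) (nat_lit 26) (.e (nat_lit 557065) (nat_lit 9) .nil)))))) (.g (nat_lit 0) .nil .nil))) 
(.lf (nat_lit 9555) (.g (nat_lit 1570) (.e (nat_lit 336) (nat_lit 26) (.e (nat_lit 376842) (nat_lit 11) (.e (nat_lit 426010) (nat_lit 0) (.e (nat_lit 7591) (nat_lit 407) .nil)))) .nil))) (.nd (nat_lit 6) 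
(.lf (nat_lit 9523) (.g (nat_lit 1747) (.e (nat_lit 334) (nat_lit 26) (.e (nat_lit 376869) (nat_lit 23) (.e (nat_lit 98384) (nat_lit 32) (.e (nat_lit 475214) (nat_lit 42) (.e (nat_lit 720936) (nat_lit 22) .nil))))) .nil)) 
(.lf (nat_lit 9587) (.g (nat_lit 1131) (.e (nat_lit 7936) (nat_lit 26) (.e (nat_lit 376865) (nat_lit 22) (.e (nat_lit 90185) (nat_lit 17) (.e (nat_lit 245504) (nat_lit 20) .nil)))) .nil))))) (.nd (nat_lit 4) (.nd (nat_lit 5) (.nd (nat_lit 6) 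
(.lf (nat_lit 9483) (.g (nat_lit 3670) (.e (nat_lit 334) (nat_lit 26) (.e (nat_lit 376867) (nat_lit 23) (.e (nat_lit 98389) (nat_lit 33) (.e (nat_lit 491558) (nat_lit 10) (.e (nat_lit 344129) (nat_lit 26) (.e (nat_lit 557065) (nat_lit 9) .nil)))))) (.g (nat_lit 0) .nil .nil))) 
(.lf (nat_lit 9547) (.g (nat_lit 1990) (.e (nat_lit 335) (nat_lit 26) (.e (nat_lit 376842) (nat_lit 11) (.e (nat_lit 426343) (nat_lit 14) (.e (nat_lit 491558) (nat_lit 10) .nil)))) .nil))) (.nd (nat_lit 6) 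
(.lf (nat_lit 9515) (.g (nat_lit 4703) (.e (nat_lit 334) (nat_lit 26) (.e (nat_lit 376869) (nat_lit 23) (.e (nat_lit 98366) (nat_lit 27) (.e (nat_lit 434275) (nat_lit 39) (.e (nat_lit 663580) (nat_lit 9) (.e (nat_lit 2663) (nat_lit 167) (.e (nat_lit 204544) (nat_lit 0) .nil))))))) (.g (nat_lit 6) .nil .nil))) 
(.lf (nat_lit 9579) (.g (nat_lit 1007) (.e (nat_lit 7936) (nat_lit 26) (.e (nat_lit 376862) (nat_lit 22) (.e (nat_lit 90185) (nat_lit 17) (.e (nat_lit 245504) (nat_lit 20) .nil)))) .nil)))) (.nd (nat_lit 5) (.nd (nat_lit 6) 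
(.lf (nat_lit 9499) (.g (nat_lit 1482) (.e (nat_lit 334) (nat_lit 26) (.e (nat_lit 376869) (nat_lit 23) (.e (nat_lit 98320) (nat_lit 17) (.e (nat_lit 7593) (nat_lit 407) (.e (nat_lit 73753) (nat_lit 8) (.e (nat_lit 564992) (nat_lit 9) .nil)))))) (.g (nat_lit 4) .nil .nil))) 
(.lf (nat_lit 9563) (.g (nat_lit 2607) (.e (nat_lit 336) (nat_lit 26) (.e (nat_lit 376842) (nat_lit 11) (.e (nat_lit 426343) (nat_lit 14) (.e (nat_lit 491556) (nat_lit 9) (.e (nat_lit 336051) (nat_lit 6) .nil))))) .nil))) (.nd (nat_lit 6) 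
(.lf (nat_lit 9531) (.g (nat_lit 1889) (.e (nat_lit 334) (nat_lit 26) (.e (nat_lit 376869) (nat_lit 23) (.e (nat_lit 98389) (nat_lit 33) (.e (nat_lit 491558) (nat_lit 10) (.e (nat_lit 344130) (nat_lit 26) (.e (nat_lit 557064) (nat_lit 9) .nil)))))) (.g (nat_lit 5) .nil .nil))) 
(.lf (nat_lit 9595) (.g (nat_lit 1439) (.e (nat_lit 7936) (nat_lit 26) (.e (nat_lit 376869) (nat_lit 23) (.e (nat_lit 98389) (nat_lit 33) (.e (nat_lit 491560) (nat_lit 10) (.e (nat_lit 344131) (nat_lit 26) .nil))))) .nil)))))) (.nd (nat_lit 3) (.nd (nat_lit 4) (.nd (nat_lit 5) (.nd (nat_lit 6) 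
(.lf (nat_lit 9479) (.g (nat_lit 1663) (.e (nat_lit 334) (nat_lit 26) (.e (nat_lit 376867) (nat_lit 23) (.e (nat_lit 98384) (nat_lit 32) (.e (nat_lit 475214) (nat_lit 42) (.e (nat_lit 720941) (nat_lit 22) (.e (nat_lit 90127) (nat_lit 9) .nil)))))) (.g (nat_lit 4) .nil .nil))) 
(.lf (nat_lit 9543) (.g (nat_lit 2945) (.e (nat_lit 335) (nat_lit 26) (.e (nat_lit 376842) (nat_lit 11) (.e (nat_lit 426011) (nat_lit 0) (.e (nat_lit 7591) (nat_lit 407) (.e (nat_lit 73774) (nat_lit 26) .nil))))) .nil))) (.nd (nat_lit 6) 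
(.lf (nat_lit 9511) (.g (nat_lit 252) (.e (nat_lit 334) (nat_lit 26) (.e (nat_lit 376869) (nat_lit 23) (.e (nat_lit 98363) (nat_lit 26) .nil))) .nil)) 
(.lf (nat_lit 9575) (.g (nat_lit 1049) (.e (nat_lit 7936) (nat_lit 26) (.e (nat_lit 376862) (nat_lit 22) (.e (nat_lit 90167) (nat_lit 13) (.e (nat_lit 179968) (nat_lit 20) .nil)))) .nil)))) (.nd (nat_lit 5) (.nd (nat_lit 6) 
(.lf (nat_lit 9495) (.g (nat_lit 2329) (.e (nat_lit 334) (nat_lit 26) (.e (nat_lit 376869) (nat_lit 23) (.e (nat_lit 98319) (nat_lit 17) (.e (nat_lit 7591) (nat_lit 407) (.e (nat_lit 73753) (nat_lit 8) (.e (nat_lit 557066) (nat_lit 9) .nil)))))) (.g (nat_lit 6) .nil .nil))) 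
(.lf (nat_lit 9559) (.g (nat_lit 1532) (.e (nat_lit 336) (nat_lit 26) (.e (nat_lit 376842) (nat_lit 11) (.e (nat_lit 426296) (nat_lit 11) .nil))) .nil))) (.nd (nat_lit 6) 
(.lf (nat_lit 9527) (.g (nat_lit 1109) (.e (nat_lit 334) (nat_lit 26) (.e (nat_lit 376869) (nat_lit 23) (.e (nat_lit 98385) (nat_lit 32) (.e (nat_lit 475214) (nat_lit 42) (.e (nat_lit 720937) (nat_lit 22) (.e (nat_lit 90127) (nat_lit 9) .nil)))))) (.g (nat_lit 4) .nil .nil))) 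
(.lf (nat_lit 9591) (.g (nat_lit 690) (.e (nat_lit 7936) (nat_lit 26) (.e (nat_lit 376869) (nat_lit 23) (.e (nat_lit 98363) (nat_lit 26) (.e (nat_lit 426447) (nat_lit 20) (.e (nat_lit 114714) (nat_lit 22) .nil))))) .nil))))) (.nd (nat_lit 4) (.nd (nat_lit 5) (.nd (nat_lit 6) 
(.lf (nat_lit 9487) (.g (nat_lit 1931) (.e (nat_lit 334) (nat_lit 26) (.e (nat_lit 376867) (nat_lit 23) (.e (nat_lit 98389) (nat_lit 33) (.e (nat_lit 491560) (nat_lit 10) (.e (nat_lit 344127) (nat_lit 26) (.e (nat_lit 557065) (nat_lit 9) .nil)))))) (.g (nat_lit 4) .nil .nil))) 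
(.lf (nat_lit 9551) (.g (nat_lit 405) (.e (nat_lit 335) (nat_lit 26) (.e (nat_lit 376869) (nat_lit 23) (.e (nat_lit 106240) (nat_lit 16) .nil))) .nil))) (.nd (nat_lit 6) 
(.lf (nat_lit 9519) (.g (nat_lit 4195) (.e (nat_lit 334) (nat_lit 26) (.e (nat_lit 376869) (nat_lit 23) (.e (nat_lit 98367) (nat_lit 27) (.e (nat_lit 434275) (nat_lit 39) (.e (nat_lit 663580) (nat_lit 9) (.e (nat_lit 2663) (nat_lit 167) (.e (nat_lit 204544) (nat_lit 0) .nil))))))) (.g (nat_lit 6) .nil .nil))) 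
(.lf (nat_lit 9583) (.g (nat_lit 902) (.e (nat_lit 7936) (nat_lit 26) (.e (nat_lit 376865) (nat_lit 22) (.e (nat_lit 90167) (nat_lit 13) (.e (nat_lit 179968) (nat_lit 20) .nil)))) .nil)))) (.nd (nat_lit 5) (.nd (nat_lit 6) 
(.lf (nat_lit 9503) (.g (nat_lit 1868) (.e (nat_lit 334) (nat_lit 26) (.e (nat_lit 376869) (nat_lit 23) (.e (nat_lit 98354) (nat_lit 26) (.e (nat_lit 426448) (nat_lit 20) (.e (nat_lit 114714) (nat_lit 22) (.e (nat_lit 90128) (nat_lit 9) .nil)))))) (.g (nat_lit 4) .nil .nil))) 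
(.lf (nat_lit 9567) (.g (nat_lit 1503) (.e (nat_lit 336) (nat_lit 26) (.e (nat_lit 376842) (nat_lit 11) (.e (nat_lit 426500) (nat_lit 27) (.e (nat_lit 335986) (nat_lit 1) .nil)))) .nil))) (.nd (nat_lit 6) 
(.lf (nat_lit 9535) (.g (nat_lit 1893) (.e (nat_lit 334) (nat_lit 26) (.e (nat_lit 376869) (nat_lit 23) (.e (nat_lit 98389) (nat_lit 33) (.e (nat_lit 491560) (nat_lit 10) (.e (nat_lit 344127) (nat_lit 26) (.e (nat_lit 557066) (nat_lit 9) .nil)))))) (.g (nat_lit 4) .nil .nil))) 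
(.lf (nat_lit 9599) (.g (nat_lit 3141) (.e (nat_lit 337) (nat_lit 27) (.e (nat_lit 385074) (nat_lit 31) (.e (nat_lit 573484) (nat_lit 13) (.e (nat_lit 65617) (nat_lit 10) .nil)))) .nil)))))))))

noncomputable def tv133 : DT := (.nd (nat_lit 0) (.nd (nat_lit 1) (.nd (nat_lit 2) (.nd (nat_lit 3) (.nd (nat_lit 4) (.nd (nat_lit 5) (.nd (nat_lit 6) 
(.lf (nat_lit 9600) (.g (nat_lit 2866) (.e (nat_lit 338) (nat_lit 27) (.e (nat_lit 385066) (nat_lit 26) (.e (nat_lit 532534) (nat_lit 9) (.e (nat_lit 336019) (nat_lit 3) (.e (nat_lit 98341) (nat_lit 20) .nil))))) .nil)) 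
(.lf (nat_lit 9664) (.g (nat_lit 1440) (.e (nat_lit 343) (nat_lit 27) (.e (nat_lit 385068) (nat_lit 26) (.e (nat_lit 532560) (nat_lit 14) (.e (nat_lit 376859) (nat_lit 21) .nil)))) .nil))) (.nd (nat_lit 6) 
(.lf (nat_lit 9632) (.g (nat_lit 3141) (.e (nat_lit 339) (nat_lit 27) (.e (nat_lit 385074) (nat_lit 31) (.e (nat_lit 573484) (nat_lit 13) (.e (nat_lit 65617) (nat_lit 10) .nil)))) .nil)) 
(.lf (nat_lit 9696) (.g (nat_lit 1217) (.e (nat_lit 345) (nat_lit 28) (.e (nat_lit 393271) (nat_lit 23) (.e (nat_lit 426432) (nat_lit 17) .nil))) .nil)))) (.nd (nat_lit 5) (.nd (nat_lit 6) 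
(.lf (nat_lit 9616) (.g (nat_lit 3660) (.e (nat_lit 339) (nat_lit 27) (.e (nat_lit 385068) (nat_lit 26) (.e (nat_lit 532543) (nat_lit 10) (.e (nat_lit 344133) (nat_lit 26) (.e (nat_lit 557098) (nat_lit 13) (.e (nat_lit 172064) (nat_lit 2) (.e (nat_lit 204544) (nat_lit 0) .nil))))))) (.g (nat_lit 5) .nil .nil))) 
(.lf (nat_lit 9680) (.g (nat_lit 3307) (.e (nat_lit 344) (nat_lit 27) (.e (nat_lit 385068) (nat_lit 26) (.e (nat_lit 532545) (nat_lit 10) (.e (nat_lit 344133) (nat_lit 26) (.e (nat_lit 557098) (nat_lit 13) (.e (nat_lit 172064) (nat_lit 2) (.e (nat_lit 204544) (nat_lit 0) .nil))))))) (.g (nat_lit 5) .nil .nil)))) (.nd (nat_lit 6) 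
(.lf (nat_lit 9648) (.g (nat_lit 2477) (.e (nat_lit 341) (nat_lit 27) (.e (nat_lit 385094) (nat_lit 49) (.e (nat_lit 778317) (nat_lit 3) (.e (nat_lit 57477) (nat_lit 28) .nil)))) .nil)) 
(.lf (nat_lit 9712) (.g (nat_lit 1217) (.e (nat_lit 346) (nat_lit 28) (.e (nat_lit 393271) (nat_lit 23) (.e (nat_lit 426432) (nat_lit 17) .nil))) .nil))))) (.nd (nat_lit 4) (.nd (nat_lit 5) (.nd (nat_lit 6) 
(.lf (nat_lit 9608) (.g (nat_lit 1769) (.e (nat_lit 339) (nat_lit 27) (.e (nat_lit 385066) (nat_lit 26) (.e (nat_lit 532534) (nat_lit 9) (.e (nat_lit 336208) (nat_lit 12) .nil)))) .nil)) 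
(.lf (nat_lit 9672) (.g (nat_lit 659) (.e (nat_lit 343) (nat_lit 27) (.e (nat_lit 385107) (nat_lit 51) (.e (nat_lit 794659) (nat_lit 21) .nil))) .nil))) (.nd (nat_lit 6) 
(.lf (nat_lit 9640) (.g (nat_lit 3141) (.e (nat_lit 340) (nat_lit 27) (.e (nat_lit 385074) (nat_lit 31) (.e (nat_lit 573484) (nat_lit 13) (.e (nat_lit 65617) (nat_lit 10) .nil)))) .nil)) 
(.lf (nat_lit 9704) (.g (nat_lit 919) (.e (nat_lit 345) (nat_lit 28) (.e (nat_lit 393301) (nat_lit 27) (.e (nat_lit 499456) (nat_lit 18) .nil))) .nil)))) (.nd (nat_lit 5) (.nd (nat_lit 6) 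
(.lf (nat_lit 9624) (.g (nat_lit 4258) (.e (nat_lit 339) (nat_lit 27) (.e (nat_lit 385068) (nat_lit 26) (.e (nat_lit 532544) (nat_lit 10) (.e (nat_lit 344133) (nat_lit 26) (.e (nat_lit 557098) (nat_lit 13) (.e (nat_lit 172064) (nat_lit 2) (.e (nat_lit 204544) (nat_lit 0) .nil))))))) (.g (nat_lit 5) .nil .nil))) 
(.lf (nat_lit 9688) (.g (nat_lit 2080) (.e (nat_lit 7936) (nat_lit 27) (.e (nat_lit 385068) (nat_lit 26) (.e (nat_lit 532560) (nat_lit 14) (.e (nat_lit 376859) (nat_lit 21) (.e (nat_lit 57691) (nat_lit 156) .nil))))) .nil))) (.nd (nat_lit 6) 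
(.lf (nat_lit 9656) (.g (nat_lit 2066) (.e (nat_lit 342) (nat_lit 27) (.e (nat_lit 385068) (nat_lit 26) (.e (nat_lit 532545) (nat_lit 10) (.e (nat_lit 344132) (nat_lit 26) (.e (nat_lit 557100) (nat_lit 13) (.e (nat_lit 172064) (nat_lit 2) (.e (nat_lit 204544) (nat_lit 0) .nil))))))) (.g (nat_lit 4) .nil .nil))) 
(.lf (nat_lit 9720) (.g (nat_lit 779) (.e (nat_lit 346) (nat_lit 28) (.e (nat_lit 393291) (nat_lit 26) (.e (nat_lit 483072) (nat_lit 26) .nil))) .nil)))))) (.nd (nat_lit 3) (.nd (nat_lit 4) (.nd (nat_lit 5) (.nd (nat_lit 6) 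
(.lf (nat_lit 9604) (.g (nat_lit 2450) (.e (nat_lit 338) (nat_lit 27) (.e (nat_lit 385094) (nat_lit 49) (.e (nat_lit 778317) (nat_lit 3) (.e (nat_lit 57480) (nat_lit 28) .nil)))) .nil)) 
(.lf (nat_lit 9668) (.g (nat_lit 2671) (.e (nat_lit 343) (nat_lit 27) (.e (nat_lit 385094) (nat_lit 49) (.e (nat_lit 778317) (nat_lit 3) (.e (nat_lit 57476) (nat_lit 28) (.e (nat_lit 557097) (nat_lit 13) (.e (nat_lit 172115) (nat_lit 10) (.e (nat_lit 434244) (nat_lit 28) (.e (nat_lit 581376) (nat_lit 0) .nil)))))))) (.g (nat_lit 4) .nil .nil)))) (.nd (nat_lit 6) 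
(.lf (nat_lit 9636) (.g (nat_lit 2198) (.e (nat_lit 340) (nat_lit 27) (.e (nat_lit 385066) (nat_lit 26) (.e (nat_lit 532534) (nat_lit 9) (.e (nat_lit 336019) (nat_lit 3) .nil)))) .nil)) 
(.lf (nat_lit 9700) (.g (nat_lit 634) (.e (nat_lit 345) (nat_lit 28) (.e (nat_lit 393300) (nat_lit 27) (.e (nat_lit 499456) (nat_lit 18) .nil))) .nil)))) (.nd (nat_lit 5) (.nd (nat_lit 6) 
(.lf (nat_lit 9620) (.g (nat_lit 3042) (.e (nat_lit 339) (nat_lit 27) (.e (nat_lit 385068) (nat_lit 26) (.e (nat_lit 532544) (nat_lit 10) (.e (nat_lit 344130) (nat_lit 26) (.e (nat_lit 557097) (nat_lit 13) (.e (nat_lit 172064) (nat_lit 2) (.e (nat_lit 204544) (nat_lit 0) .nil))))))) (.g (nat_lit 4) .nil .nil))) 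
(.lf (nat_lit 9684) (.g (nat_lit 1966) (.e (nat_lit 344) (nat_lit 27) (.e (nat_lit 385068) (nat_lit 26) (.e (nat_lit 532555) (nat_lit 13) (.e (nat_lit 368676) (nat_lit 21) (.e (nat_lit 516131) (nat_lit 3) .nil))))) .nil))) (.nd (nat_lit 6) 
(.lf (nat_lit 9652) (.g (nat_lit 2638) (.e (nat_lit 342) (nat_lit 27) (.e (nat_lit 385068) (nat_lit 26) (.e (nat_lit 532543) (nat_lit 10) (.e (nat_lit 344129) (nat_lit 26) (.e (nat_lit 557097) (nat_lit 13) .nil))))) .nil)) 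
(.lf (nat_lit 9716) (.g (nat_lit 489) (.e (nat_lit 346) (nat_lit 28) (.e (nat_lit 393283) (nat_lit 24) (.e (nat_lit 434241) (nat_lit 27) .nil))) .nil))))) (.nd (nat_lit 4) (.nd (nat_lit 5) (.nd (nat_lit 6) 
(.lf (nat_lit 9612) (.g (nat_lit 3160) (.e (nat_lit 339) (nat_lit 27) (.e (nat_lit 385068) (nat_lit 26) (.e (nat_lit 532543) (nat_lit 10) (.e (nat_lit 344129) (nat_lit 26) (.e (nat_lit 557096) (nat_lit 13) (.e (nat_lit 172064) (nat_lit 2) (.e (nat_lit 204544) (nat_lit 0) .nil))))))) (.g (nat_lit 4) .nil .nil))) 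
(.lf (nat_lit 9676) (.g (nat_lit 2422) (.e (nat_lit 344) (nat_lit 27) (.e (nat_lit 385068) (nat_lit 26) (.e (nat_lit 532544) (nat_lit 10) (.e (nat_lit 344132) (nat_lit 26) (.e (nat_lit 557100) (nat_lit 13) .nil))))) .nil))) (.nd (nat_lit 6) 
(.lf (nat_lit 9644) (.g (nat_lit 2912) (.e (nat_lit 341) (nat_lit 27) (.e (nat_lit 385066) (nat_lit 26) (.e (nat_lit 532534) (nat_lit 9) (.e (nat_lit 336019) (nat_lit 3) (.e (nat_lit 98342) (nat_lit 20) .nil))))) .nil)) 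
(.lf (nat_lit 9708) (.g (nat_lit 2742) (.e (nat_lit 346) (nat_lit 28) (.e (nat_lit 393260) (nat_lit 21) (.e (nat_lit 409617) (nat_lit 10) (.e (nat_lit 632) (nat_lit 50) (.e (nat_lit 573489) (nat_lit 14) .nil))))) .nil)))) (.nd (nat_lit 5) (.nd (nat_lit 6) 
(.lf (nat_lit 9628) (.g (nat_lit 2711) (.e (nat_lit 339) (nat_lit 27) (.e (nat_lit 385068) (nat_lit 26) (.e (nat_lit 532545) (nat_lit 10) (.e (nat_lit 344133) (nat_lit 26) (.e (nat_lit 557096) (nat_lit 13) (.e (nat_lit 172064) (nat_lit 2) (.e (nat_lit 204544) (nat_lit 0) .nil))))))) (.g (nat_lit 4) .nil .nil))) 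
(.lf (nat_lit 9692) (.g (nat_lit 2179) (.e (nat_lit 345) (nat_lit 28) (.e (nat_lit 393260) (nat_lit 21) (.e (nat_lit 409616) (nat_lit 10) (.e (nat_lit 632) (nat_lit 50) (.e (nat_lit 573489) (nat_lit 14) (.e (nat_lit 81664) (nat_lit 32) .nil)))))) (.g (nat_lit 4) .nil .nil)))) (.nd (nat_lit 6) 
(.lf (nat_lit 9660) (.g (nat_lit 2970) (.e (nat_lit 342) (nat_lit 27) (.e (nat_lit 385094) (nat_lit 49) (.e (nat_lit 778317) (nat_lit 3) (.e (nat_lit 57479) (nat_lit 28) (.e (nat_lit 557101) (nat_lit 13) .nil))))) .nil)) 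
(.lf (nat_lit 9724) (.g (nat_lit 2414) (.e (nat_lit 347) (nat_lit 28) (.e (nat_lit 393251) (nat_lit 18) (.e (nat_lit 164325) (nat_lit 230) (.e (nat_lit 163861) (nat_lit 1) (.e (nat_lit 164332) (nat_lit 230) .nil))))) .nil))))))) (.nd (nat_lit 2) (.nd (nat_lit 3) (.nd (nat_lit 4) (.nd (nat_lit 5) (.nd (nat_lit 6) 
(.lf (nat_lit 9602) (.g (nat_lit 952) (.e (nat_lit 338) (nat_lit 27) (.e (nat_lit 385068) (nat_lit 26) (.e (nat_lit 532530) (nat_lit 9) .nil))) .nil)) 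
(.lf (nat_lit 9666) (.g (nat_lit 2176) (.e (nat_lit 343) (nat_lit 27) (.e (nat_lit 385068) (nat_lit 26) (.e (nat_lit 532560) (nat_lit 14) (.e (nat_lit 376860) (nat_lit 21) (.e (nat_lit 57692) (nat_lit 156) .nil))))) .nil))) (.nd (nat_lit 6) 
(.lf (nat_lit 9634) (.g (nat_lit 3515) (.e (nat_lit 339) (nat_lit 27) (.e (nat_lit 385074) (nat_lit 31) (.e (nat_lit 573484) (nat_lit 13) (.e (nat_lit 65617) (nat_lit 10) (.e (nat_lit 344133) (nat_lit 26) .nil))))) .nil)) 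
(.lf (nat_lit 9698) (.g (nat_lit 1418) (.e (nat_lit 345) (nat_lit 28) (.e (nat_lit 393291) (nat_lit 26) (.e (nat_lit 475169) (nat_lit 22) (.e (nat_lit 507648) (nat_lit 19) .nil)))) .nil)))) (.nd (nat_lit 5) (.nd (nat_lit 6) 
(.lf (nat_lit 9618) (.g (nat_lit 2179) (.e (nat_lit 339) (nat_lit 27) (.e (nat_lit 385068) (nat_lit 26) (.e (nat_lit 532544) (nat_lit 10) (.e (nat_lit 344129) (nat_lit 26) .nil)))) .nil)) 
(.lf (nat_lit 9682) (.g (nat_lit 813) (.e (nat_lit 344) (nat_lit 27) (.e (nat_lit 385068) (nat_lit 26) (.e (nat_lit 532555) (nat_lit 13) .nil))) .nil))) (.nd (nat_lit 6) 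
(.lf (nat_lit 9650) (.g (nat_lit 2866) (.e (nat_lit 341) (nat_lit 27) (.e (nat_lit 385094) (nat_lit 49) (.e (nat_lit 778317) (nat_lit 3) (.e (nat_lit 57480) (nat_lit 28) (.e (nat_lit 557098) (nat_lit 13) .nil))))) .nil)) 
(.lf (nat_lit 9714) (.g (nat_lit 1296) (.e (nat_lit 346) (nat_lit 28) (.e (nat_lit 393273) (nat_lit 23) (.e (nat_lit 426432) (nat_lit 17) (.e (nat_lit 98048) (nat_lit 5) .nil)))) .nil))))) (.nd (nat_lit 4) (.nd (nat_lit 5) (.nd (nat_lit 6) 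
(.lf (nat_lit 9610) (.g (nat_lit 2765) (.e (nat_lit 339) (nat_lit 27) (.e (nat_lit 385068) (nat_lit 26) (.e (nat_lit 532535) (nat_lit 9) (.e (nat_lit 335925) (nat_lit 0) .nil)))) .nil)) 
(.lf (nat_lit 9674) (.g (nat_lit 2905) (.e (nat_lit 344) (nat_lit 27) (.e (nat_lit 385068) (nat_lit 26) (.e (nat_lit 532530) (nat_lit 9) (.e (nat_lit 336019) (nat_lit 3) (.e (nat_lit 98342) (nat_lit 20) (.e (nat_lit 229120) (nat_lit 2) (.e (nat_lit 90128) (nat_lit 9) .nil))))))) (.g (nat_lit 4) .nil .nil)))) (.nd (nat_lit 6) 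
(.lf (nat_lit 9642) (.g (nat_lit 2450) (.e (nat_lit 340) (nat_lit 27) (.e (nat_lit 385094) (nat_lit 49) (.e (nat_lit 778317) (nat_lit 3) (.e (nat_lit 57480) (nat_lit 28) .nil)))) .nil)) 
(.lf (nat_lit 9706) (.g (nat_lit 2456) (.e (nat_lit 346) (nat_lit 28) (.e (nat_lit 393251) (nat_lit 18) (.e (nat_lit 164399) (nat_lit 256) (.e (nat_lit 57372) (nat_lit 2) (.e (nat_lit 90172) (nat_lit 14) .nil))))) .nil)))) (.nd (nat_lit 5) (.nd (nat_lit 6) 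
(.lf (nat_lit 9626) (.g (nat_lit 1599) (.e (nat_lit 339) (nat_lit 27) (.e (nat_lit 385068) (nat_lit 26) (.e (nat_lit 532545) (nat_lit 10) (.e (nat_lit 344130) (nat_lit 26) .nil)))) .nil)) 
(.lf (nat_lit 9690) (.g (nat_lit 2033) (.e (nat_lit 7936) (nat_lit 27) (.e (nat_lit 385068) (nat_lit 26) (.e (nat_lit 532560) (nat_lit 14) (.e (nat_lit 376860) (nat_lit 21) (.e (nat_lit 57692) (nat_lit 156) .nil))))) .nil))) (.nd (nat_lit 6) 
(.lf (nat_lit 9658) (.g (nat_lit 2660) (.e (nat_lit 342) (nat_lit 27) (.e (nat_lit 385094) (nat_lit 49) (.e (nat_lit 778317) (nat_lit 3) (.e (nat_lit 57476) (nat_lit 28) (.e (nat_lit 557097) (nat_lit 13) .nil))))) .nil)) 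
(.lf (nat_lit 9722) (.g (nat_lit 872) (.e (nat_lit 346) (nat_lit 28) (.e (nat_lit 393294) (nat_lit 26) (.e (nat_lit 483072) (nat_lit 26) .nil))) .nil)))))) (.nd (nat_lit 3) (.nd (nat_lit 4) (.nd (nat_lit 5) (.nd (nat_lit 6) 
(.lf (nat_lit 9606) (.g (nat_lit 3310) (.e (nat_lit 339) (nat_lit 27) (.e (nat_lit 385065) (nat_lit 26) (.e (nat_lit 532543) (nat_lit 10) (.e (nat_lit 344133) (nat_lit 26) (.e (nat_lit 557098) (nat_lit 13) (.e (nat_lit 172064) (nat_lit 2) (.e (nat_lit 204544) (nat_lit 0) .nil))))))) (.g (nat_lit 6) .nil .nil))) 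
(.lf (nat_lit 9670) (.g (nat_lit 2970) (.e (nat_lit 343) (nat_lit 27) (.e (nat_lit 385094) (nat_lit 49) (.e (nat_lit 778317) (nat_lit 3) (.e (nat_lit 57479) (nat_lit 28) (.e (nat_lit 557101) (nat_lit 13) .nil))))) .nil))) (.nd (nat_lit 6) 
(.lf (nat_lit 9638) (.g (nat_lit 2116) (.e (nat_lit 340) (nat_lit 27) (.e (nat_lit 385068) (nat_lit 26) (.e (nat_lit 532545) (nat_lit 10) (.e (nat_lit 344130) (nat_lit 26) (.e (nat_lit 557097) (nat_lit 13) (.e (nat_lit 172064) (nat_lit 2) (.e (nat_lit 204544) (nat_lit 0) .nil))))))) (.g (nat_lit 4) .nil .nil))) 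
(.lf (nat_lit 9702) (.g (nat_lit 2986) (.e (nat_lit 345) (nat_lit 28) (.e (nat_lit 393301) (nat_lit 27) (.e (nat_lit 491560) (nat_lit 10) (.e (nat_lit 352000) (nat_lit 48) .nil)))) .nil)))) (.nd (nat_lit 5) (.nd (nat_lit 6) 
(.lf (nat_lit 9622) (.g (nat_lit 2085) (.e (nat_lit 339) (nat_lit 27) (.e (nat_lit 385068) (nat_lit 26) (.e (nat_lit 532544) (nat_lit 10) (.e (nat_lit 344132) (nat_lit 26) .nil)))) .nil)) 
(.lf (nat_lit 9686) (.g (nat_lit 3141) (.e (nat_lit 344) (nat_lit 27) (.e (nat_lit 385074) (nat_lit 31) (.e (nat_lit 573484) (nat_lit 13) (.e (nat_lit 65617) (nat_lit 10) .nil)))) .nil))) (.nd (nat_lit 6) 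
(.lf (nat_lit 9654) (.g (nat_lit 2085) (.e (nat_lit 342) (nat_lit 27) (.e (nat_lit 385068) (nat_lit 26) (.e (nat_lit 532544) (nat_lit 10) (.e (nat_lit 344132) (nat_lit 26) .nil)))) .nil)) 
(.lf (nat_lit 9718) (.g (nat_lit 1030) (.e (nat_lit 346) (nat_lit 28) (.e (nat_lit 393284) (nat_lit 24) (.e (nat_lit 434241) (nat_lit 27) (.e (nat_lit 565268) (nat_lit 5) (.e (nat_lit 81664) (nat_lit 32) .nil))))) (.g (nat_lit 4) .nil .nil)))))) (.nd (nat_lit 4) (.nd (nat_lit 5) (.nd (nat_lit 6) 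
(.lf (nat_lit 9614) (.g (nat_lit 2623) (.e (nat_lit 339) (nat_lit 27) (.e (nat_lit 385068) (nat_lit 26) (.e (nat_lit 532543) (nat_lit 10) (.e (nat_lit 344132) (nat_lit 26) (.e (nat_lit 557100) (nat_lit 13) (.e (nat_lit 172064) (nat_lit 2) (.e (nat_lit 204544) (nat_lit 0) .nil))))))) (.g (nat_lit 4) .nil .nil))) 
(.lf (nat_lit 9678) (.g (nat_lit 3034) (.e (nat_lit 344) (nat_lit 27) (.e (nat_lit 385068) (nat_lit 26) (.e (nat_lit 532544) (nat_lit 10) (.e (nat_lit 344133) (nat_lit 26) (.e (nat_lit 557096) (nat_lit 13) .nil))))) .nil))) (.nd (nat_lit 6) 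
(.lf (nat_lit 9646) (.g (nat_lit 1533) (.e (nat_lit 341) (nat_lit 27) (.e (nat_lit 385068) (nat_lit 26) (.e (nat_lit 532560) (nat_lit 14) (.e (nat_lit 376860) (nat_lit 21) .nil)))) .nil)) 
(.lf (nat_lit 9710) (.g (nat_lit 1174) (.e (nat_lit 346) (nat_lit 28) (.e (nat_lit 393268) (nat_lit 23) (.e (nat_lit 426432) (nat_lit 17) .nil))) .nil)))) (.nd (nat_lit 5) (.nd (nat_lit 6) 
(.lf (nat_lit 9630) (.g (nat_lit 1510) (.e (nat_lit 339) (nat_lit 27) (.e (nat_lit 385068) (nat_lit 26) (.e (nat_lit 532555) (nat_lit 13) (.e (nat_lit 368682) (nat_lit 26) .nil)))) .nil)) 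
(.lf (nat_lit 9694) (.g (nat_lit 2116) (.e (nat_lit 345) (nat_lit 28) (.e (nat_lit 393268) (nat_lit 23) (.e (nat_lit 426428) (nat_lit 17) (.e (nat_lit 98048) (nat_lit 5) .nil)))) .nil))) (.nd (nat_lit 6) 
(.lf (nat_lit 9662) (.g (nat_lit 2464) (.e (nat_lit 343) (nat_lit 27) (.e (nat_lit 385068) (nat_lit 26) (.e (nat_lit 532534) (nat_lit 9) (.e (nat_lit 336019) (nat_lit 3) .nil)))) .nil)) 
(.lf (nat_lit 9726) (.g (nat_lit 2210) (.e (nat_lit 347) (nat_lit 28) (.e (nat_lit 393251) (nat_lit 18) (.e (nat_lit 164325) (nat_lit 230) (.e (nat_lit 163864) (nat_lit 1) (.e (nat_lit 164332) (nat_lit 230) (.e (nat_lit 163885) (nat_lit 5) (.e (nat_lit 221218) (nat_lit 24) (.e (nat_lit 213004) (nat_lit 9) .nil)))))))) (.g (nat_lit 4) .nil .nil))))))))) 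
(.nd (nat_lit 1) (.nd (nat_lit 2) (.nd (nat_lit 3) (.nd (nat_lit 4) (.nd (nat_lit 5) 
(.nd (nat_lit 6) 
(.lf (nat_lit 9601) (.g (nat_lit 2912) (.e (nat_lit 338) (nat_lit 27) (.e (nat_lit 385066) (nat_lit 26) (.e (nat_lit 532534) (nat_lit 9) (.e (nat_lit 336019) (nat_lit 3) (.e (nat_lit 98342) (nat_lit 20) .nil))))) .nil)) 
(.lf (nat_lit 9665) (.g (nat_lit 1529) (.e (nat_lit 343) (nat_lit 27) (.e (nat_lit 385068) (nat_lit 26) (.e (nat_lit 532560) (nat_lit 14) (.e (nat_lit 376860) (nat_lit 21) .nil)))) .nil))) (.nd (nat_lit 6) 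
(.lf (nat_lit 9633) (.g (nat_lit 3583) (.e (nat_lit 339) (nat_lit 27) (.e (nat_lit 385074) (nat_lit 31) (.e (nat_lit 573484) (nat_lit 13) (.e (nat_lit 65617) (nat_lit 10) (.e (nat_lit 344132) (nat_lit 26) .nil))))) .nil)) 
(.lf (nat_lit 9697) (.g (nat_lit 873) (.e (nat_lit 345) (nat_lit 28) (.e (nat_lit 393273) (nat_lit 23) (.e (nat_lit 426432) (nat_lit 17) .nil))) .nil)))) (.nd (nat_lit 5) (.nd (nat_lit 6) 
(.lf (nat_lit 9617) (.g (nat_lit 1268) (.e (nat_lit 339) (nat_lit 27) (.e (nat_lit 385068) (nat_lit 26) (.e (nat_lit 532544) (nat_lit 10) .nil))) .nil)) 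
(.lf (nat_lit 9681) (.g (nat_lit 1711) (.e (nat_lit 344) (nat_lit 27) (.e (nat_lit 385068) (nat_lit 26) (.e (nat_lit 532553) (nat_lit 13) (.e (nat_lit 368676) (nat_lit 21) .nil)))) .nil))) (.nd (nat_lit 6) 
(.lf (nat_lit 9649) (.g (nat_lit 2970) (.e (nat_lit 341) (nat_lit 27) (.e (nat_lit 385094) (nat_lit 49) (.e (nat_lit 778317) (nat_lit 3) (.e (nat_lit 57479) (nat_lit 28) (.e (nat_lit 557101) (nat_lit 13) .nil))))) .nil)) 
(.lf (nat_lit 9713) (.g (nat_lit 621) (.e (nat_lit 346) (nat_lit 28) (.e (nat_lit 393273) (nat_lit 23) (.e (nat_lit 426364) (nat_lit 15) .nil))) .nil))))) (.nd (nat_lit 4) (.nd (nat_lit 5) (.nd (nat_lit 6) 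
(.lf (nat_lit 9609) (.g (nat_lit 2777) (.e (nat_lit 339) (nat_lit 27) (.e (nat_lit 385066) (nat_lit 26) (.e (nat_lit 532543) (nat_lit 10) (.e (nat_lit 344133) (nat_lit 26) (.e (nat_lit 557098) (nat_lit 13) (.e (nat_lit 172064) (nat_lit 2) (.e (nat_lit 204544) (nat_lit 0) .nil))))))) (.g (nat_lit 5) .nil .nil))) 
(.lf (nat_lit 9673) (.g (nat_lit 2286) (.e (nat_lit 344) (nat_lit 27) (.e (nat_lit 385068) (nat_lit 26) (.e (nat_lit 532523) (nat_lit 7) (.e (nat_lit 319490) (nat_lit 0) .nil)))) .nil))) (.nd (nat_lit 6) 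
(.lf (nat_lit 9641) (.g (nat_lit 2544) (.e (nat_lit 340) (nat_lit 27) (.e (nat_lit 385094) (nat_lit 49) (.e (nat_lit 778317) (nat_lit 3) (.e (nat_lit 57479) (nat_lit 28) .nil)))) .nil)) 
(.lf (nat_lit 9705) (.g (nat_lit 851) (.e (nat_lit 346) (nat_lit 28) (.e (nat_lit 393251) (nat_lit 18) (.e (nat_lit 164398) (nat_lit 256) .nil))) .nil)))) (.nd (nat_lit 5) (.nd (nat_lit 6) 
(.lf (nat_lit 9625) (.g (nat_lit 1211) (.e (nat_lit 339) (nat_lit 27) (.e (nat_lit 385068) (nat_lit 26) (.e (nat_lit 532545) (nat_lit 10) .nil))) .nil)) 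
(.lf (nat_lit 9689) (.g (nat_lit 2068) (.e (nat_lit 7936) (nat_lit 27) (.e (nat_lit 385068) (nat_lit 26) (.e (nat_lit 532560) (nat_lit 14) (.e (nat_lit 376860) (nat_lit 21) (.e (nat_lit 57691) (nat_lit 156) .nil))))) .nil))) (.nd (nat_lit 6) 
(.lf (nat_lit 9657) (.g (nat_lit 2060) (.e (nat_lit 342) (nat_lit 27) (.e (nat_lit 385068) (nat_lit 26) (.e (nat_lit 532545) (nat_lit 10) (.e (nat_lit 344132) (nat_lit 26) (.e (nat_lit 557101) (nat_lit 13) .nil))))) .nil)) 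
(.lf (nat_lit 9721) (.g (nat_lit 841) (.e (nat_lit 346) (nat_lit 28) (.e (nat_lit 393293) (nat_lit 26) (.e (nat_lit 483072) (nat_lit 26) (.e (nat_lit 532544) (nat_lit 10) (.e (nat_lit 352000) (nat_lit 0) .nil))))) .nil)))))) (.nd (nat_lit 3) (.nd (nat_lit 4) (.nd (nat_lit 5) (.nd (nat_lit 6) 
(.lf (nat_lit 9605) (.g (nat_lit 3530) (.e (nat_lit 339) (nat_lit 27) (.e (nat_lit 385065) (nat_lit 26) (.e (nat_lit 532543) (nat_lit 10) (.e (nat_lit 344129) (nat_lit 26) (.e (nat_lit 557097) (nat_lit 13) (.e (nat_lit 172064) (nat_lit 2) (.e (nat_lit 204544) (nat_lit 0) .nil))))))) (.g (nat_lit 6) .nil .nil))) 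
(.lf (nat_lit 9669) (.g (nat_lit 2477) (.e (nat_lit 343) (nat_lit 27) (.e (nat_lit 385094) (nat_lit 49) (.e (nat_lit 778317) (nat_lit 3) (.e (nat_lit 57477) (nat_lit 28) .nil)))) .nil))) (.nd (nat_lit 6) 
(.lf (nat_lit 9637) (.g (nat_lit 3039) (.e (nat_lit 340) (nat_lit 27) (.e (nat_lit 385068) (nat_lit 26) (.e (nat_lit 532544) (nat_lit 10) (.e (nat_lit 344133) (nat_lit 26) (.e (nat_lit 557098) (nat_lit 13) .nil))))) .nil)) 
(.lf (nat_lit 9701) (.g (nat_lit 3029) (.e (nat_lit 345) (nat_lit 28) (.e (nat_lit 393301) (nat_lit 27) (.e (nat_lit 491560) (nat_lit 10) (.e (nat_lit 344174) (nat_lit 42) .nil)))) .nil)))) (.nd (nat_lit 5) (.nd (nat_lit 6) 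
(.lf (nat_lit 9621) (.g (nat_lit 2193) (.e (nat_lit 339) (nat_lit 27) (.e (nat_lit 385068) (nat_lit 26) (.e (nat_lit 532544) (nat_lit 10) (.e (nat_lit 344131) (nat_lit 26) .nil)))) .nil)) 
(.lf (nat_lit 9685) (.g (nat_lit 683) (.e (nat_lit 344) (nat_lit 27) (.e (nat_lit 385068) (nat_lit 26) (.e (nat_lit 532560) (nat_lit 14) .nil))) .nil))) (.nd (nat_lit 6) 
(.lf (nat_lit 9653) (.g (nat_lit 2193) (.e (nat_lit 342) (nat_lit 27) (.e (nat_lit 385068) (nat_lit 26) (.e (nat_lit 532544) (nat_lit 10) (.e (nat_lit 344131) (nat_lit 26) .nil)))) .nil)) 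
(.lf (nat_lit 9717) (.g (nat_lit 938) (.e (nat_lit 346) (nat_lit 28) (.e (nat_lit 393284) (nat_lit 24) (.e (nat_lit 434229) (nat_lit 22) (.e (nat_lit 524339) (nat_lit 27) (.e (nat_lit 352000) (nat_lit 0) .nil))))) (.g (nat_lit 4) .nil .nil)))))) (.nd (nat_lit 4) (.nd (nat_lit 5) (.nd (nat_lit 6) 
(.lf (nat_lit 9613) (.g (nat_lit 2663) (.e (nat_lit 339) (nat_lit 27) (.e (nat_lit 385068) (nat_lit 26) (.e (nat_lit 532543) (nat_lit 10) (.e (nat_lit 344130) (nat_lit 26) (.e (nat_lit 557097) (nat_lit 13) (.e (nat_lit 172064) (nat_lit 2) (.e (nat_lit 204544) (nat_lit 0) .nil))))))) (.g (nat_lit 4) .nil .nil))) 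
(.lf (nat_lit 9677) (.g (nat_lit 2484) (.e (nat_lit 344) (nat_lit 27) (.e (nat_lit 385068) (nat_lit 26) (.e (nat_lit 532544) (nat_lit 10) (.e (nat_lit 344132) (nat_lit 26) (.e (nat_lit 557101) (nat_lit 13) .nil))))) .nil))) (.nd (nat_lit 6) 
(.lf (nat_lit 9645) (.g (nat_lit 952) (.e (nat_lit 341) (nat_lit 27) (.e (nat_lit 385068) (nat_lit 26) (.e (nat_lit 532530) (nat_lit 9) .nil))) .nil)) 
(.lf (nat_lit 9709) (.g (nat_lit 1680) (.e (nat_lit 346) (nat_lit 28) (.e (nat_lit 393268) (nat_lit 23) (.e (nat_lit 426428) (nat_lit 17) (.e (nat_lit 98048) (nat_lit 5) .nil)))) .nil)))) (.nd (nat_lit 5) (.nd (nat_lit 6) 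
(.lf (nat_lit 9629) (.g (nat_lit 4270) (.e (nat_lit 339) (nat_lit 27) (.e (nat_lit 385068) (nat_lit 26) (.e (nat_lit 532545) (nat_lit 10) (.e (nat_lit 344133) (nat_lit 26) (.e (nat_lit 557098) (nat_lit 13) (.e (nat_lit 172064) (nat_lit 2) (.e (nat_lit 204544) (nat_lit 0) .nil))))))) (.g (nat_lit 6) .nil .nil))) 
(.lf (nat_lit 9693) (.g (nat_lit 2588) (.e (nat_lit 345) (nat_lit 28) (.e (nat_lit 393260) (nat_lit 21) (.e (nat_lit 409617) (nat_lit 10) (.e (nat_lit 632) (nat_lit 50) (.e (nat_lit 573487) (nat_lit 14) .nil))))) .nil))) (.nd (nat_lit 6) 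
(.lf (nat_lit 9661) (.g (nat_lit 2517) (.e (nat_lit 343) (nat_lit 27) (.e (nat_lit 385068) (nat_lit 26) (.e (nat_lit 532530) (nat_lit 9) (.e (nat_lit 336019) (nat_lit 3) .nil)))) .nil)) 
(.lf (nat_lit 9725) (.g (nat_lit 2084) (.e (nat_lit 347) (nat_lit 28) (.e (nat_lit 393251) (nat_lit 18) (.e (nat_lit 164325) (nat_lit 230) (.e (nat_lit 163864) (nat_lit 1) (.e (nat_lit 164332) (nat_lit 230) .nil))))) .nil))))))) (.nd (nat_lit 2) (.nd (nat_lit 3) (.nd (nat_lit 4) (.nd (nat_lit 5) (.nd (nat_lit 6) 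
(.lf (nat_lit 9603) (.g (nat_lit 2544) (.e (nat_lit 338) (nat_lit 27) (.e (nat_lit 385094) (nat_lit 49) (.e (nat_lit 778317) (nat_lit 3) (.e (nat_lit 57479) (nat_lit 28) .nil)))) .nil)) 
(.lf (nat_lit 9667) (.g (nat_lit 3141) (.e (nat_lit 343) (nat_lit 27) (.e (nat_lit 385074) (nat_lit 31) (.e (nat_lit 573484) (nat_lit 13) (.e (nat_lit 65617) (nat_lit 10) .nil)))) .nil))) (.nd (nat_lit 6) 
(.lf (nat_lit 9635) (.g (nat_lit 2648) (.e (nat_lit 339) (nat_lit 27) (.e (nat_lit 385094) (nat_lit 49) (.e (nat_lit 778317) (nat_lit 3) (.e (nat_lit 57477) (nat_lit 28) (.e (nat_lit 557097) (nat_lit 13) .nil))))) .nil)) 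
(.lf (nat_lit 9699) (.g (nat_lit 1186) (.e (nat_lit 345) (nat_lit 28) (.e (nat_lit 393300) (nat_lit 27) (.e (nat_lit 499456) (nat_lit 17) (.e (nat_lit 196668) (nat_lit 14) (.e (nat_lit 81664) (nat_lit 32) .nil))))) .nil)))) (.nd (nat_lit 5) (.nd (nat_lit 6) 
(.lf (nat_lit 9619) (.g (nat_lit 3048) (.e (nat_lit 339) (nat_lit 27) (.e (nat_lit 385068) (nat_lit 26) (.e (nat_lit 532544) (nat_lit 10) (.e (nat_lit 344129) (nat_lit 26) (.e (nat_lit 557097) (nat_lit 13) (.e (nat_lit 172064) (nat_lit 2) (.e (nat_lit 204544) (nat_lit 0) .nil))))))) (.g (nat_lit 4) .nil .nil))) 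
(.lf (nat_lit 9683) (.g (nat_lit 1987) (.e (nat_lit 344) (nat_lit 27) (.e (nat_lit 385068) (nat_lit 26) (.e (nat_lit 532555) (nat_lit 13) (.e (nat_lit 368676) (nat_lit 21) (.e (nat_lit 516129) (nat_lit 3) .nil))))) .nil))) (.nd (nat_lit 6) 
(.lf (nat_lit 9651) (.g (nat_lit 2198) (.e (nat_lit 342) (nat_lit 27) (.e (nat_lit 385066) (nat_lit 26) (.e (nat_lit 532534) (nat_lit 9) (.e (nat_lit 336019) (nat_lit 3) .nil)))) .nil)) 
(.lf (nat_lit 9715) (.g (nat_lit 449) (.e (nat_lit 346) (nat_lit 28) (.e (nat_lit 393282) (nat_lit 24) (.e (nat_lit 434241) (nat_lit 27) .nil))) .nil))))) (.nd (nat_lit 4) (.nd (nat_lit 5) (.nd (nat_lit 6) 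
(.lf (nat_lit 9611) (.g (nat_lit 3564) (.e (nat_lit 339) (nat_lit 27) (.e (nat_lit 385068) (nat_lit 26) (.e (nat_lit 532535) (nat_lit 9) (.e (nat_lit 335925) (nat_lit 0) (.e (nat_lit 1858) (nat_lit 124) (.e (nat_lit 557100) (nat_lit 13) (.e (nat_lit 172064) (nat_lit 2) (.e (nat_lit 204544) (nat_lit 0) .nil)))))))) (.g (nat_lit 4) .nil .nil))) 
(.lf (nat_lit 9675) (.g (nat_lit 2455) (.e (nat_lit 344) (nat_lit 27) (.e (nat_lit 385068) (nat_lit 26) (.e (nat_lit 532544) (nat_lit 10) (.e (nat_lit 344130) (nat_lit 26) (.e (nat_lit 557097) (nat_lit 13) .nil))))) .nil))) (.nd (nat_lit 6) 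
(.lf (nat_lit 9643) (.g (nat_lit 2866) (.e (nat_lit 341) (nat_lit 27) (.e (nat_lit 385066) (nat_lit 26) (.e (nat_lit 532534) (nat_lit 9) (.e (nat_lit 336019) (nat_lit 3) (.e (nat_lit 98341) (nat_lit 20) .nil))))) .nil)) 
(.lf (nat_lit 9707) (.g (nat_lit 1735) (.e (nat_lit 346) (nat_lit 28) (.e (nat_lit 393253) (nat_lit 18) (.e (nat_lit 164403) (nat_lit 256) (.e (nat_lit 57371) (nat_lit 2) .nil)))) .nil)))) (.nd (nat_lit 5) (.nd (nat_lit 6) 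
(.lf (nat_lit 9627) (.g (nat_lit 3718) (.e (nat_lit 339) (nat_lit 27) (.e (nat_lit 385068) (nat_lit 26) (.e (nat_lit 532545) (nat_lit 10) (.e (nat_lit 344130) (nat_lit 26) (.e (nat_lit 557097) (nat_lit 13) (.e (nat_lit 172064) (nat_lit 2) (.e (nat_lit 204544) (nat_lit 0) .nil))))))) (.g (nat_lit 6) .nil .nil))) 
(.lf (nat_lit 9691) (.g (nat_lit 2294) (.e (nat_lit 345) (nat_lit 28) (.e (nat_lit 393260) (nat_lit 21) (.e (nat_lit 409616) (nat_lit 10) (.e (nat_lit 632) (nat_lit 50) (.e (nat_lit 573487) (nat_lit 14) .nil))))) .nil))) (.nd (nat_lit 6) 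
(.lf (nat_lit 9659) (.g (nat_lit 2477) (.e (nat_lit 342) (nat_lit 27) (.e (nat_lit 385094) (nat_lit 49) (.e (nat_lit 778317) (nat_lit 3) (.e (nat_lit 57477) (nat_lit 28) .nil)))) .nil)) 
(.lf (nat_lit 9723) (.g (nat_lit 831) (.e (nat_lit 347) (nat_lit 28) (.e (nat_lit 393251) (nat_lit 18) (.e (nat_lit 164325) (nat_lit 230) .nil))) .nil)))))) (.nd (nat_lit 3) (.nd (nat_lit 4) (.nd (nat_lit 5) (.nd (nat_lit 6) 
(.lf (nat_lit 9607) (.g (nat_lit 2414) (.e (nat_lit 339) (nat_lit 27) (.e (nat_lit 385065) (nat_lit 26) (.e (nat_lit 532544) (nat_lit 10) (.e (nat_lit 344133) (nat_lit 26) (.e (nat_lit 557096) (nat_lit 13) (.e (nat_lit 172064) (nat_lit 2) (.e (nat_lit 204544) (nat_lit 0) .nil))))))) (.g (nat_lit 4) .nil .nil))) 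
(.lf (nat_lit 9671) (.g (nat_lit 743) (.e (nat_lit 343) (nat_lit 27) (.e (nat_lit 385107) (nat_lit 51) (.e (nat_lit 794657) (nat_lit 21) .nil))) .nil))) (.nd (nat_lit 6) 
(.lf (nat_lit 9639) (.g (nat_lit 1409) (.e (nat_lit 340) (nat_lit 27) (.e (nat_lit 385068) (nat_lit 26) (.e (nat_lit 532560) (nat_lit 14) (.e (nat_lit 376859) (nat_lit 21) .nil)))) .nil)) 
(.lf (nat_lit 9703) (.g (nat_lit 1471) (.e (nat_lit 345) (nat_lit 28) (.e (nat_lit 393301) (nat_lit 27) (.e (nat_lit 499456) (nat_lit 17) (.e (nat_lit 196668) (nat_lit 14) (.e (nat_lit 81664) (nat_lit 32) .nil))))) .nil)))) (.nd (nat_lit 5) (.nd (nat_lit 6) 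
(.lf (nat_lit 9623) (.g (nat_lit 3357) (.e (nat_lit 339) (nat_lit 27) (.e (nat_lit 385068) (nat_lit 26) (.e (nat_lit 532544) (nat_lit 10) (.e (nat_lit 344133) (nat_lit 26) (.e (nat_lit 557096) (nat_lit 13) .nil))))) .nil)) 
(.lf (nat_lit 9687) (.g (nat_lit 2606) (.e (nat_lit 344) (nat_lit 27) (.e (nat_lit 385094) (nat_lit 49) (.e (nat_lit 778317) (nat_lit 3) (.e (nat_lit 57477) (nat_lit 28) (.e (nat_lit 557097) (nat_lit 13) .nil))))) .nil))) (.nd (nat_lit 6) 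
(.lf (nat_lit 9655) (.g (nat_lit 3039) (.e (nat_lit 342) (nat_lit 27) (.e (nat_lit 385068) (nat_lit 26) (.e (nat_lit 532544) (nat_lit 10) (.e (nat_lit 344133) (nat_lit 26) (.e (nat_lit 557098) (nat_lit 13) .nil))))) .nil)) 
(.lf (nat_lit 9719) (.g (nat_lit 1744) (.e (nat_lit 346) (nat_lit 28) (.e (nat_lit 393291) (nat_lit 26) (.e (nat_lit 475169) (nat_lit 22) (.e (nat_lit 499791) (nat_lit 3) .nil)))) .nil))))) (.nd (nat_lit 4) (.nd (nat_lit 5) (.nd (nat_lit 6) 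
(.lf (nat_lit 9615) (.g (nat_lit 2393) (.e (nat_lit 339) (nat_lit 27) (.e (nat_lit 385068) (nat_lit 26) (.e (nat_lit 532543) (nat_lit 10) (.e (nat_lit 344132) (nat_lit 26) (.e (nat_lit 557101) (nat_lit 13) (.e (nat_lit 172064) (nat_lit 2) (.e (nat_lit 204544) (nat_lit 0) .nil))))))) (.g (nat_lit 4) .nil .nil))) 
(.lf (nat_lit 9679) (.g (nat_lit 2187) (.e (nat_lit 344) (nat_lit 27) (.e (nat_lit 385068) (nat_lit 26) (.e (nat_lit 532545) (nat_lit 10) (.e (nat_lit 344132) (nat_lit 26) (.e (nat_lit 557101) (nat_lit 13) (.e (nat_lit 172064) (nat_lit 2) (.e (nat_lit 204544) (nat_lit 0) .nil))))))) (.g (nat_lit 4) .nil .nil)))) (.nd (nat_lit 6) 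
(.lf (nat_lit 9647) (.g (nat_lit 2420) (.e (nat_lit 341) (nat_lit 27) (.e (nat_lit 385094) (nat_lit 49) (.e (nat_lit 778317) (nat_lit 3) (.e (nat_lit 57476) (nat_lit 28) .nil)))) .nil)) 
(.lf (nat_lit 9711) (.g (nat_lit 1257) (.e (nat_lit 346) (nat_lit 28) (.e (nat_lit 393271) (nat_lit 23) (.e (nat_lit 426131) (nat_lit 3) .nil))) .nil)))) (.nd (nat_lit 5) (.nd (nat_lit 6) 
(.lf (nat_lit 9631) (.g (nat_lit 2867) (.e (nat_lit 339) (nat_lit 27) (.e (nat_lit 385074) (nat_lit 31) (.e (nat_lit 573471) (nat_lit 11) (.e (nat_lit 16411) (nat_lit 2) .nil)))) .nil)) 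
(.lf (nat_lit 9695) (.g (nat_lit 1257) (.e (nat_lit 345) (nat_lit 28) (.e (nat_lit 393271) (nat_lit 23) (.e (nat_lit 426131) (nat_lit 3) .nil))) .nil))) (.nd (nat_lit 6) 
(.lf (nat_lit 9663) (.g (nat_lit 813) (.e (nat_lit 343) (nat_lit 27) (.e (nat_lit 385068) (nat_lit 26) (.e (nat_lit 532555) (nat_lit 13) .nil))) .nil)) 
(.lf (nat_lit 9727) (.g (nat_lit 2722) (.e (nat_lit 347) (nat_lit 28) (.e (nat_lit 393251) (nat_lit 18) (.e (nat_lit 164325) (nat_lit 230) (.e (nat_lit 163864) (nat_lit 1) (.e (nat_lit 164332) (nat_lit 230) (.e (nat_lit 163885) (nat_lit 5) (.e (nat_lit 221219) (nat_lit 24) (.e (nat_lit 213000) (nat_lit 9) .nil)))))))) (.g (nat_lit 5) .nil .nil))))))))))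

noncomputable def tv134 : DT := (.nd (nat_lit 0) (.nd (nat_lit 1) (.nd (nat_lit 2) (.nd (nat_lit 3) (.nd (nat_lit 4) (.nd (nat_lit 5) (.nd (nat_lit 6) 
(.lf (nat_lit 9728) (.g (nat_lit 3709) (.e (nat_lit 347) (nat_lit 28) (.e (nat_lit 393251) (nat_lit 18) (.e (nat_lit 164325) (nat_lit 230) (.e (nat_lit 163864) (nat_lit 1) (.e (nat_lit 164332) (nat_lit 230) (.e (nat_lit 163885) (nat_lit 5) (.e (nat_lit 221219) (nat_lit 24) (.e (nat_lit 213003) (nat_lit 9) .nil)))))))) (.g (nat_lit 0) .nil .nil))) 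
(.lf (nat_lit 9792) (.g (nat_lit 940) (.e (nat_lit 348) (nat_lit 28) (.e (nat_lit 393271) (nat_lit 23) (.e (nat_lit 426436) (nat_lit 18) .nil))) .nil))) (.nd (nat_lit 6) 
(.lf (nat_lit 9760) (.g (nat_lit 905) (.e (nat_lit 347) (nat_lit 28) (.e (nat_lit 393282) (nat_lit 24) (.e (nat_lit 434241) (nat_lit 27) (.e (nat_lit 565268) (nat_lit 5) .nil)))) .nil)) 
(.lf (nat_lit 9824) (.g (nat_lit 1257) (.e (nat_lit 349) (nat_lit 28) (.e (nat_lit 393271) (nat_lit 23) (.e (nat_lit 426131) (nat_lit 3) .nil))) .nil)))) (.nd (nat_lit 5) (.nd (nat_lit 6) 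
(.lf (nat_lit 9744) (.g (nat_lit 1626) (.e (nat_lit 347) (nat_lit 28) (.e (nat_lit 393253) (nat_lit 18) (.e (nat_lit 164332) (nat_lit 230) (.e (nat_lit 163860) (nat_lit 1) .nil)))) .nil)) 
(.lf (nat_lit 9808) (.g (nat_lit 1378) (.e (nat_lit 348) (nat_lit 28) (.e (nat_lit 393294) (nat_lit 26) (.e (nat_lit 483072) (nat_lit 26) (.e (nat_lit 532544) (nat_lit 10) (.e (nat_lit 352000) (nat_lit 0) .nil))))) (.g (nat_lit 4) .nil .nil)))) (.nd (nat_lit 6) 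
(.lf (nat_lit 9776) (.g (nat_lit 3064) (.e (nat_lit 348) (nat_lit 28) (.e (nat_lit 393253) (nat_lit 18) (.e (nat_lit 164327) (nat_lit 230) (.e (nat_lit 163868) (nat_lit 2) (.e (nat_lit 196656) (nat_lit 11) .nil))))) .nil)) 
(.lf (nat_lit 9840) (.g (nat_lit 1004) (.e (nat_lit 349) (nat_lit 28) (.e (nat_lit 393301) (nat_lit 27) (.e (nat_lit 499456) (nat_lit 18) (.e (nat_lit 204848) (nat_lit 25) (.e (nat_lit 327684) (nat_lit 0) (.e (nat_lit 5630) (nat_lit 312) .nil)))))) (.g (nat_lit 4) .nil .nil)))))) (.nd (nat_lit 4) (.nd (nat_lit 5) (.nd (nat_lit 6) 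
(.lf (nat_lit 9736) (.g (nat_lit 3518) (.e (nat_lit 347) (nat_lit 28) (.e (nat_lit 393253) (nat_lit 18) (.e (nat_lit 164325) (nat_lit 230) (.e (nat_lit 163864) (nat_lit 1) (.e (nat_lit 164332) (nat_lit 230) (.e (nat_lit 163885) (nat_lit 5) (.e (nat_lit 221219) (nat_lit 24) (.e (nat_lit 213004) (nat_lit 9) .nil)))))))) (.g (nat_lit 0) .nil .nil))) 
(.lf (nat_lit 9800) (.g (nat_lit 1747) (.e (nat_lit 348) (nat_lit 28) (.e (nat_lit 393291) (nat_lit 26) (.e (nat_lit 475169) (nat_lit 22) (.e (nat_lit 499791) (nat_lit 3) .nil)))) .nil))) (.nd (nat_lit 6) 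
(.lf (nat_lit 9768) (.g (nat_lit 913) (.e (nat_lit 347) (nat_lit 28) (.e (nat_lit 393301) (nat_lit 27) (.e (nat_lit 491560) (nat_lit 10) .nil))) .nil)) 
(.lf (nat_lit 9832) (.g (nat_lit 1245) (.e (nat_lit 349) (nat_lit 28) (.e (nat_lit 393281) (nat_lit 23) (.e (nat_lit 426133) (nat_lit 3) (.e (nat_lit 204805) (nat_lit 0) (.e (nat_lit 7105) (nat_lit 380) .nil))))) .nil)))) (.nd (nat_lit 5) (.nd (nat_lit 6) 
(.lf (nat_lit 9752) (.g (nat_lit 2479) (.e (nat_lit 347) (nat_lit 28) (.e (nat_lit 393268) (nat_lit 23) (.e (nat_lit 426438) (nat_lit 18) (.e (nat_lit 98335) (nat_lit 18) .nil)))) .nil)) 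
(.lf (nat_lit 9816) (.g (nat_lit 1305) (.e (nat_lit 349) (nat_lit 28) (.e (nat_lit 393253) (nat_lit 18) (.e (nat_lit 164326) (nat_lit 230) (.e (nat_lit 163871) (nat_lit 2) .nil)))) .nil))) (.nd (nat_lit 6) 
(.lf (nat_lit 9784) (.g (nat_lit 1636) (.e (nat_lit 348) (nat_lit 28) (.e (nat_lit 393268) (nat_lit 23) (.e (nat_lit 426438) (nat_lit 18) .nil))) .nil)) 
(.lf (nat_lit 9848) (.g (nat_lit 913) (.e (nat_lit 350) (nat_lit 28) (.e (nat_lit 393301) (nat_lit 27) (.e (nat_lit 491560) (nat_lit 10) .nil))) .nil)))))) (.nd (nat_lit 3) (.nd (nat_lit 4) (.nd (nat_lit 5) (.nd (nat_lit 6) 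
(.lf (nat_lit 9732) (.g (nat_lit 1669) (.e (nat_lit 347) (nat_lit 28) (.e (nat_lit 393253) (nat_lit 18) (.e (nat_lit 164324) (nat_lit 230) (.e (nat_lit 163861) (nat_lit 1) (.e (nat_lit 164332) (nat_lit 230) .nil))))) .nil)) 
(.lf (nat_lit 9796) (.g (nat_lit 1309) (.e (nat_lit 348) (nat_lit 28) (.e (nat_lit 393273) (nat_lit 23) (.e (nat_lit 426364) (nat_lit 15) (.e (nat_lit 1689) (nat_lit 117) .nil)))) .nil))) (.nd (nat_lit 6) 
(.lf (nat_lit 9764) (.g (nat_lit 1346) (.e (nat_lit 347) (nat_lit 28) (.e (nat_lit 393294) (nat_lit 26) (.e (nat_lit 483072) (nat_lit 26) (.e (nat_lit 532544) (nat_lit 10) (.e (nat_lit 352000) (nat_lit 0) .nil))))) (.g (nat_lit 4) .nil .nil))) 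
(.lf (nat_lit 9828) (.g (nat_lit 1092) (.e (nat_lit 349) (nat_lit 28) (.e (nat_lit 393281) (nat_lit 23) (.e (nat_lit 426115) (nat_lit 2) (.e (nat_lit 196649) (nat_lit 10) (.e (nat_lit 8499) (nat_lit 183) (.e (nat_lit 164358) (nat_lit 246) .nil)))))) (.g (nat_lit 4) .nil .nil))))) (.nd (nat_lit 5) (.nd (nat_lit 6) 
(.lf (nat_lit 9748) (.g (nat_lit 2080) (.e (nat_lit 347) (nat_lit 28) (.e (nat_lit 393260) (nat_lit 21) (.e (nat_lit 409616) (nat_lit 10) (.e (nat_lit 632) (nat_lit 50) (.e (nat_lit 573489) (nat_lit 14) .nil))))) .nil)) 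
(.lf (nat_lit 9812) (.g (nat_lit 935) (.e (nat_lit 348) (nat_lit 28) (.e (nat_lit 393299) (nat_lit 27) (.e (nat_lit 491526) (nat_lit 0) .nil))) .nil))) (.nd (nat_lit 6) 
(.lf (nat_lit 9780) (.g (nat_lit 2504) (.e (nat_lit 348) (nat_lit 28) (.e (nat_lit 393260) (nat_lit 21) (.e (nat_lit 409617) (nat_lit 10) (.e (nat_lit 632) (nat_lit 50) (.e (nat_lit 573489) (nat_lit 14) .nil))))) .nil)) 
(.lf (nat_lit 9844) (.g (nat_lit 1879) (.e (nat_lit 350) (nat_lit 28) (.e (nat_lit 393253) (nat_lit 18) (.e (nat_lit 164332) (nat_lit 230) (.e (nat_lit 163862) (nat_lit 1) .nil)))) .nil))))) (.nd (nat_lit 4) (.nd (nat_lit 5) (.nd (nat_lit 6) 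
(.lf (nat_lit 9740) (.g (nat_lit 3006) (.e (nat_lit 347) (nat_lit 28) (.e (nat_lit 393253) (nat_lit 18) (.e (nat_lit 164326) (nat_lit 230) (.e (nat_lit 163871) (nat_lit 2) (.e (nat_lit 196655) (nat_lit 11) (.e (nat_lit 16388) (nat_lit 0) (.e (nat_lit 7309) (nat_lit 388) .nil))))))) (.g (nat_lit 0) .nil .nil))) 
(.lf (nat_lit 9804) (.g (nat_lit 528) (.e (nat_lit 348) (nat_lit 28) (.e (nat_lit 393294) (nat_lit 26) (.e (nat_lit 475169) (nat_lit 22) .nil))) .nil))) (.nd (nat_lit 6) 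
(.lf (nat_lit 9772) (.g (nat_lit 851) (.e (nat_lit 348) (nat_lit 28) (.e (nat_lit 393251) (nat_lit 18) (.e (nat_lit 164398) (nat_lit 256) .nil))) .nil)) 
(.lf (nat_lit 9836) (.g (nat_lit 597) (.e (nat_lit 349) (nat_lit 28) (.e (nat_lit 393300) (nat_lit 27) (.e (nat_lit 499456) (nat_lit 17) .nil))) .nil)))) (.nd (nat_lit 5) (.nd (nat_lit 6) 
(.lf (nat_lit 9756) (.g (nat_lit 939) (.e (nat_lit 347) (nat_lit 28) (.e (nat_lit 393271) (nat_lit 23) (.e (nat_lit 426436) (nat_lit 18) .nil))) .nil)) 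
(.lf (nat_lit 9820) (.g (nat_lit 2328) (.e (nat_lit 349) (nat_lit 28) (.e (nat_lit 393268) (nat_lit 23) (.e (nat_lit 426428) (nat_lit 17) (.e (nat_lit 98048) (nat_lit 5) .nil)))) .nil))) (.nd (nat_lit 6) 
(.lf (nat_lit 9788) (.g (nat_lit 2253) (.e (nat_lit 348) (nat_lit 28) (.e (nat_lit 393271) (nat_lit 23) (.e (nat_lit 426131) (nat_lit 3) (.e (nat_lit 204805) (nat_lit 0) .nil)))) .nil)) 
(.lf (nat_lit 9852) (.g (nat_lit 1078) (.e (nat_lit 350) (nat_lit 28) (.e (nat_lit 393301) (nat_lit 27) (.e (nat_lit 499456) (nat_lit 18) (.e (nat_lit 204848) (nat_lit 25) (.e (nat_lit 327680) (nat_lit 0) .nil))))) .nil))))))) (.nd (nat_lit 2) (.nd (nat_lit 3) (.nd (nat_lit 4) (.nd (nat_lit 5) (.nd (nat_lit 6) 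
(.lf (nat_lit 9730) (.g (nat_lit 2870) (.e (nat_lit 347) (nat_lit 28) (.e (nat_lit 393251) (nat_lit 18) (.e (nat_lit 164332) (nat_lit 230) (.e (nat_lit 163869) (nat_lit 2) (.e (nat_lit 196656) (nat_lit 11) .nil))))) .nil)) 
(.lf (nat_lit 9794) (.g (nat_lit 608) (.e (nat_lit 348) (nat_lit 28) (.e (nat_lit 393273) (nat_lit 23) (.e (nat_lit 426364) (nat_lit 15) .nil))) .nil))) (.nd (nat_lit 6) 
(.lf (nat_lit 9762) (.g (nat_lit 1198) (.e (nat_lit 347) (nat_lit 28) (.e (nat_lit 393291) (nat_lit 26) (.e (nat_lit 483072) (nat_lit 26) (.e (nat_lit 532544) (nat_lit 10) (.e (nat_lit 352000) (nat_lit 0) .nil))))) .nil)) 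
(.lf (nat_lit 9826) (.g (nat_lit 857) (.e (nat_lit 349) (nat_lit 28) (.e (nat_lit 393272) (nat_lit 23) (.e (nat_lit 426432) (nat_lit 17) (.e (nat_lit 90203) (nat_lit 21) .nil)))) .nil)))) (.nd (nat_lit 5) (.nd (nat_lit 6) 
(.lf (nat_lit 9746) (.g (nat_lit 2030) (.e (nat_lit 347) (nat_lit 28) (.e (nat_lit 393253) (nat_lit 18) (.e (nat_lit 164332) (nat_lit 230) (.e (nat_lit 163862) (nat_lit 1) (.e (nat_lit 164332) (nat_lit 230) .nil))))) .nil)) 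
(.lf (nat_lit 9810) (.g (nat_lit 593) (.e (nat_lit 348) (nat_lit 28) (.e (nat_lit 393296) (nat_lit 26) (.e (nat_lit 483072) (nat_lit 22) .nil))) .nil))) (.nd (nat_lit 6) 
(.lf (nat_lit 9778) (.g (nat_lit 3274) (.e (nat_lit 348) (nat_lit 28) (.e (nat_lit 393253) (nat_lit 18) (.e (nat_lit 164403) (nat_lit 256) (.e (nat_lit 57373) (nat_lit 2) (.e (nat_lit 90172) (nat_lit 14) .nil))))) .nil)) 
(.lf (nat_lit 9842) (.g (nat_lit 2043) (.e (nat_lit 350) (nat_lit 28) (.e (nat_lit 393253) (nat_lit 18) (.e (nat_lit 164325) (nat_lit 230) (.e (nat_lit 163861) (nat_lit 1) (.e (nat_lit 164332) (nat_lit 230) .nil))))) .nil))))) (.nd (nat_lit 4) (.nd (nat_lit 5) (.nd (nat_lit 6) 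
(.lf (nat_lit 9738) (.g (nat_lit 1619) (.e (nat_lit 347) (nat_lit 28) (.e (nat_lit 393253) (nat_lit 18) (.e (nat_lit 164326) (nat_lit 230) (.e (nat_lit 163864) (nat_lit 1) (.e (nat_lit 164332) (nat_lit 230) (.e (nat_lit 163885) (nat_lit 5) (.e (nat_lit 221219) (nat_lit 24) (.e (nat_lit 213001) (nat_lit 9) .nil)))))))) (.g (nat_lit 4) .nil .nil))) 
(.lf (nat_lit 9802) (.g (nat_lit 700) (.e (nat_lit 348) (nat_lit 28) (.e (nat_lit 393291) (nat_lit 26) (.e (nat_lit 483072) (nat_lit 22) .nil))) .nil))) (.nd (nat_lit 6) 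
(.lf (nat_lit 9770) (.g (nat_lit 2371) (.e (nat_lit 348) (nat_lit 28) (.e (nat_lit 393251) (nat_lit 18) (.e (nat_lit 164325) (nat_lit 230) (.e (nat_lit 163861) (nat_lit 1) (.e (nat_lit 164332) (nat_lit 230) .nil))))) .nil)) 
(.lf (nat_lit 9834) (.g (nat_lit 1734) (.e (nat_lit 349) (nat_lit 28) (.e (nat_lit 393291) (nat_lit 26) (.e (nat_lit 475169) (nat_lit 22) (.e (nat_lit 499791) (nat_lit 3) .nil)))) .nil)))) (.nd (nat_lit 5) (.nd (nat_lit 6) 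
(.lf (nat_lit 9754) (.g (nat_lit 1553) (.e (nat_lit 347) (nat_lit 28) (.e (nat_lit 393271) (nat_lit 23) (.e (nat_lit 426428) (nat_lit 17) (.e (nat_lit 98048) (nat_lit 5) .nil)))) .nil)) 
(.lf (nat_lit 9818) (.g (nat_lit 2588) (.e (nat_lit 349) (nat_lit 28) (.e (nat_lit 393260) (nat_lit 21) (.e (nat_lit 409617) (nat_lit 10) (.e (nat_lit 632) (nat_lit 50) (.e (nat_lit 573487) (nat_lit 14) .nil))))) .nil))) (.nd (nat_lit 6) 
(.lf (nat_lit 9786) (.g (nat_lit 2904) (.e (nat_lit 348) (nat_lit 28) (.e (nat_lit 393268) (nat_lit 23) (.e (nat_lit 426438) (nat_lit 18) (.e (nat_lit 98335) (nat_lit 18) (.e (nat_lit 164330) (nat_lit 230) (.e (nat_lit 163846) (nat_lit 0) (.e (nat_lit 7936) (nat_lit 388) .nil))))))) (.g (nat_lit 4) .nil .nil))) 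
(.lf (nat_lit 9850) (.g (nat_lit 1465) (.e (nat_lit 350) (nat_lit 28) (.e (nat_lit 393301) (nat_lit 27) (.e (nat_lit 499456) (nat_lit 17) (.e (nat_lit 196668) (nat_lit 14) (.e (nat_lit 81664) (nat_lit 32) .nil))))) .nil)))))) (.nd (nat_lit 3) (.nd (nat_lit 4) (.nd (nat_lit 5) (.nd (nat_lit 6) 
(.lf (nat_lit 9734) (.g (nat_lit 1935) (.e (nat_lit 347) (nat_lit 28) (.e (nat_lit 393253) (nat_lit 18) (.e (nat_lit 164325) (nat_lit 230) (.e (nat_lit 163864) (nat_lit 1) (.e (nat_lit 164332) (nat_lit 230) (.e (nat_lit 163885) (nat_lit 5) (.e (nat_lit 221218) (nat_lit 24) (.e (nat_lit 213004) (nat_lit 9) .nil)))))))) (.g (nat_lit 4) .nil .nil))) 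
(.lf (nat_lit 9798) (.g (nat_lit 934) (.e (nat_lit 348) (nat_lit 28) (.e (nat_lit 393284) (nat_lit 24) (.e (nat_lit 434229) (nat_lit 22) (.e (nat_lit 524339) (nat_lit 27) (.e (nat_lit 352000) (nat_lit 0) .nil))))) (.g (nat_lit 4) .nil .nil)))) (.nd (nat_lit 6) 
(.lf (nat_lit 9766) (.g (nat_lit 1447) (.e (nat_lit 347) (nat_lit 28) (.e (nat_lit 393296) (nat_lit 26) (.e (nat_lit 483072) (nat_lit 26) (.e (nat_lit 532544) (nat_lit 10) (.e (nat_lit 352000) (nat_lit 0) .nil))))) (.g (nat_lit 4) .nil .nil))) 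
(.lf (nat_lit 9830) (.g (nat_lit 1676) (.e (nat_lit 349) (nat_lit 28) (.e (nat_lit 393281) (nat_lit 23) (.e (nat_lit 426116) (nat_lit 2) (.e (nat_lit 196649) (nat_lit 10) (.e (nat_lit 8499) (nat_lit 183) (.e (nat_lit 164358) (nat_lit 246) .nil)))))) (.g (nat_lit 4) .nil .nil))))) (.nd (nat_lit 5) (.nd (nat_lit 6) 
(.lf (nat_lit 9750) (.g (nat_lit 1304) (.e (nat_lit 347) (nat_lit 28) (.e (nat_lit 393268) (nat_lit 23) (.e (nat_lit 426432) (nat_lit 17) (.e (nat_lit 98048) (nat_lit 5) .nil)))) .nil)) 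
(.lf (nat_lit 9814) (.g (nat_lit 2105) (.e (nat_lit 349) (nat_lit 28) (.e (nat_lit 393252) (nat_lit 18) (.e (nat_lit 164332) (nat_lit 230) (.e (nat_lit 163874) (nat_lit 3) (.e (nat_lit 204805) (nat_lit 0) .nil))))) .nil))) (.nd (nat_lit 6) 
(.lf (nat_lit 9782) (.g (nat_lit 991) (.e (nat_lit 348) (nat_lit 28) (.e (nat_lit 393268) (nat_lit 23) (.e (nat_lit 426427) (nat_lit 17) .nil))) .nil)) 
(.lf (nat_lit 9846) (.g (nat_lit 2115) (.e (nat_lit 350) (nat_lit 28) (.e (nat_lit 393268) (nat_lit 23) (.e (nat_lit 426428) (nat_lit 17) (.e (nat_lit 98048) (nat_lit 5) .nil)))) .nil))))) (.nd (nat_lit 4) (.nd (nat_lit 5) (.nd (nat_lit 6) 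
(.lf (nat_lit 9742) (.g (nat_lit 1883) (.e (nat_lit 347) (nat_lit 28) (.e (nat_lit 393253) (nat_lit 18) (.e (nat_lit 164327) (nat_lit 230) (.e (nat_lit 163863) (nat_lit 1) .nil)))) .nil)) 
(.lf (nat_lit 9806) (.g (nat_lit 869) (.e (nat_lit 348) (nat_lit 28) (.e (nat_lit 393294) (nat_lit 26) (.e (nat_lit 475172) (nat_lit 22) .nil))) .nil))) (.nd (nat_lit 6) 
(.lf (nat_lit 9774) (.g (nat_lit 1915) (.e (nat_lit 348) (nat_lit 28) (.e (nat_lit 393253) (nat_lit 18) (.e (nat_lit 164325) (nat_lit 230) (.e (nat_lit 163864) (nat_lit 1) (.e (nat_lit 164332) (nat_lit 230) (.e (nat_lit 163885) (nat_lit 5) (.e (nat_lit 221219) (nat_lit 24) (.e (nat_lit 213000) (nat_lit 9) .nil)))))))) (.g (nat_lit 4) .nil .nil))) 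
(.lf (nat_lit 9838) (.g (nat_lit 1463) (.e (nat_lit 349) (nat_lit 28) (.e (nat_lit 393301) (nat_lit 27) (.e (nat_lit 499456) (nat_lit 17) (.e (nat_lit 196668) (nat_lit 14) (.e (nat_lit 81664) (nat_lit 32) .nil))))) (.g (nat_lit 4) .nil .nil))))) (.nd (nat_lit 5) (.nd (nat_lit 6) 
(.lf (nat_lit 9758) (.g (nat_lit 1070) (.e (nat_lit 347) (nat_lit 28) (.e (nat_lit 393273) (nat_lit 23) (.e (nat_lit 426432) (nat_lit 17) (.e (nat_lit 98048) (nat_lit 5) .nil)))) .nil)) 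
(.lf (nat_lit 9822) (.g (nat_lit 1174) (.e (nat_lit 349) (nat_lit 28) (.e (nat_lit 393268) (nat_lit 23) (.e (nat_lit 426432) (nat_lit 17) .nil))) .nil))) (.nd (nat_lit 6) 
(.lf (nat_lit 9790) (.g (nat_lit 3021) (.e (nat_lit 348) (nat_lit 28) (.e (nat_lit 393271) (nat_lit 23) (.e (nat_lit 426131) (nat_lit 3) (.e (nat_lit 204805) (nat_lit 0) (.e (nat_lit 7098) (nat_lit 380) (.e (nat_lit 164352) (nat_lit 246) .nil)))))) (.g (nat_lit 5) .nil .nil))) 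
(.lf (nat_lit 9854) (.g (nat_lit 606) (.e (nat_lit 351) (nat_lit 28) (.e (nat_lit 393229) (nat_lit 9) (.e (nat_lit 336087) (nat_lit 9) .nil))) .nil)))))))) (.nd (nat_lit 1) (.nd (nat_lit 2) (.nd (nat_lit 3) (.nd (nat_lit 4) (.nd (nat_lit 5) (.nd (nat_lit 6) 
(.lf (nat_lit 9729) (.g (nat_lit 3793) (.e (nat_lit 347) (nat_lit 28) (.e (nat_lit 393251) (nat_lit 18) (.e (nat_lit 164325) (nat_lit 230) (.e (nat_lit 163864) (nat_lit 1) (.e (nat_lit 164332) (nat_lit 230) (.e (nat_lit 163885) (nat_lit 5) (.e (nat_lit 221219) (nat_lit 24) (.e (nat_lit 213004) (nat_lit 9) .nil)))))))) (.g (nat_lit 0) .nil .nil))) 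
(.lf (nat_lit 9793) (.g (nat_lit 2155) (.e (nat_lit 348) (nat_lit 28) (.e (nat_lit 393271) (nat_lit 23) (.e (nat_lit 426436) (nat_lit 18) (.e (nat_lit 98334) (nat_lit 18) .nil)))) .nil))) (.nd (nat_lit 6) 
(.lf (nat_lit 9761) (.g (nat_lit 897) (.e (nat_lit 347) (nat_lit 28) (.e (nat_lit 393291) (nat_lit 26) (.e (nat_lit 475169) (nat_lit 22) .nil))) .nil)) 
(.lf (nat_lit 9825) (.g (nat_lit 1912) (.e (nat_lit 349) (nat_lit 28) (.e (nat_lit 393271) (nat_lit 23) (.e (nat_lit 426432) (nat_lit 17) (.e (nat_lit 90203) (nat_lit 21) .nil)))) .nil)))) (.nd (nat_lit 5) (.nd (nat_lit 6) 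
(.lf (nat_lit 9745) (.g (nat_lit 1879) (.e (nat_lit 347) (nat_lit 28) (.e (nat_lit 393253) (nat_lit 18) (.e (nat_lit 164332) (nat_lit 230) (.e (nat_lit 163862) (nat_lit 1) .nil)))) .nil)) 
(.lf (nat_lit 9809) (.g (nat_lit 933) (.e (nat_lit 348) (nat_lit 28) (.e (nat_lit 393296) (nat_lit 26) (.e (nat_lit 475167) (nat_lit 22) .nil))) .nil))) (.nd (nat_lit 6) 
(.lf (nat_lit 9777) (.g (nat_lit 2483) (.e (nat_lit 348) (nat_lit 28) (.e (nat_lit 393253) (nat_lit 18) (.e (nat_lit 164403) (nat_lit 256) (.e (nat_lit 57371) (nat_lit 2) (.e (nat_lit 90172) (nat_lit 14) .nil))))) .nil)) 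
(.lf (nat_lit 9841) (.g (nat_lit 1166) (.e (nat_lit 350) (nat_lit 28) (.e (nat_lit 393251) (nat_lit 18) (.e (nat_lit 164399) (nat_lit 256) .nil))) .nil))))) (.nd (nat_lit 4) (.nd (nat_lit 5) (.nd (nat_lit 6) 
(.lf (nat_lit 9737) (.g (nat_lit 1376) (.e (nat_lit 347) (nat_lit 28) (.e (nat_lit 393253) (nat_lit 18) (.e (nat_lit 164326) (nat_lit 230) (.e (nat_lit 163861) (nat_lit 1) .nil)))) .nil)) 
(.lf (nat_lit 9801) (.g (nat_lit 1417) (.e (nat_lit 348) (nat_lit 28) (.e (nat_lit 393291) (nat_lit 26) (.e (nat_lit 475169) (nat_lit 22) (.e (nat_lit 507648) (nat_lit 14) .nil)))) .nil))) (.nd (nat_lit 6) 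
(.lf (nat_lit 9769) (.g (nat_lit 2029) (.e (nat_lit 348) (nat_lit 28) (.e (nat_lit 393225) (nat_lit 9) (.e (nat_lit 335995) (nat_lit 1) (.e (nat_lit 57848) (nat_lit 252) (.e (nat_lit 57374) (nat_lit 2) .nil))))) .nil)) 
(.lf (nat_lit 9833) (.g (nat_lit 1145) (.e (nat_lit 349) (nat_lit 28) (.e (nat_lit 393281) (nat_lit 23) (.e (nat_lit 426133) (nat_lit 3) (.e (nat_lit 212736) (nat_lit 7) .nil)))) .nil)))) (.nd (nat_lit 5) (.nd (nat_lit 6) 
(.lf (nat_lit 9753) (.g (nat_lit 1065) (.e (nat_lit 347) (nat_lit 28) (.e (nat_lit 393271) (nat_lit 23) (.e (nat_lit 426131) (nat_lit 3) .nil))) .nil)) 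
(.lf (nat_lit 9817) (.g (nat_lit 1947) (.e (nat_lit 349) (nat_lit 28) (.e (nat_lit 393253) (nat_lit 18) (.e (nat_lit 164327) (nat_lit 230) (.e (nat_lit 163868) (nat_lit 2) .nil)))) .nil))) (.nd (nat_lit 6) 
(.lf (nat_lit 9785) (.g (nat_lit 3219) (.e (nat_lit 348) (nat_lit 28) (.e (nat_lit 393268) (nat_lit 23) (.e (nat_lit 426438) (nat_lit 18) (.e (nat_lit 98334) (nat_lit 18) (.e (nat_lit 164330) (nat_lit 230) .nil))))) .nil)) 
(.lf (nat_lit 9849) (.g (nat_lit 2986) (.e (nat_lit 350) (nat_lit 28) (.e (nat_lit 393301) (nat_lit 27) (.e (nat_lit 491560) (nat_lit 10) (.e (nat_lit 352000) (nat_lit 48) .nil)))) .nil)))))) (.nd (nat_lit 3) (.nd (nat_lit 4) (.nd (nat_lit 5) (.nd (nat_lit 6) 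
(.lf (nat_lit 9733) (.g (nat_lit 621) (.e (nat_lit 347) (nat_lit 28) (.e (nat_lit 393253) (nat_lit 18) (.e (nat_lit 164325) (nat_lit 230) .nil))) .nil)) 
(.lf (nat_lit 9797) (.g (nat_lit 1298) (.e (nat_lit 348) (nat_lit 28) (.e (nat_lit 393273) (nat_lit 23) (.e (nat_lit 426364) (nat_lit 15) (.e (nat_lit 7936) (nat_lit 117) .nil)))) .nil))) (.nd (nat_lit 6) 
(.lf (nat_lit 9765) (.g (nat_lit 940) (.e (nat_lit 347) (nat_lit 28) (.e (nat_lit 393296) (nat_lit 26) (.e (nat_lit 483072) (nat_lit 22) .nil))) .nil)) 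
(.lf (nat_lit 9829) (.g (nat_lit 1673) (.e (nat_lit 349) (nat_lit 28) (.e (nat_lit 393281) (nat_lit 23) (.e (nat_lit 426116) (nat_lit 2) (.e (nat_lit 196649) (nat_lit 10) (.e (nat_lit 8499) (nat_lit 183) .nil))))) .nil)))) (.nd (nat_lit 5) (.nd (nat_lit 6) 
(.lf (nat_lit 9749) (.g (nat_lit 1146) (.e (nat_lit 347) (nat_lit 28) (.e (nat_lit 393268) (nat_lit 23) (.e (nat_lit 426427) (nat_lit 17) .nil))) .nil)) 
(.lf (nat_lit 9813) (.g (nat_lit 913) (.e (nat_lit 348) (nat_lit 28) (.e (nat_lit 393301) (nat_lit 27) (.e (nat_lit 491560) (nat_lit 10) .nil))) .nil))) (.nd (nat_lit 6) 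
(.lf (nat_lit 9781) (.g (nat_lit 946) (.e (nat_lit 348) (nat_lit 28) (.e (nat_lit 393268) (nat_lit 23) (.e (nat_lit 426361) (nat_lit 15) .nil))) .nil)) 
(.lf (nat_lit 9845) (.g (nat_lit 2770) (.e (nat_lit 350) (nat_lit 28) (.e (nat_lit 393260) (nat_lit 21) (.e (nat_lit 409617) (nat_lit 10) (.e (nat_lit 632) (nat_lit 50) (.e (nat_lit 573489) (nat_lit 14) .nil))))) .nil))))) (.nd (nat_lit 4) (.nd (nat_lit 5) (.nd (nat_lit 6) 
(.lf (nat_lit 9741) (.g (nat_lit 1702) (.e (nat_lit 347) (nat_lit 28) (.e (nat_lit 393253) (nat_lit 18) (.e (nat_lit 164327) (nat_lit 230) (.e (nat_lit 163861) (nat_lit 1) (.e (nat_lit 164332) (nat_lit 230) .nil))))) .nil)) 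
(.lf (nat_lit 9805) (.g (nat_lit 1205) (.e (nat_lit 348) (nat_lit 28) (.e (nat_lit 393294) (nat_lit 26) (.e (nat_lit 475169) (nat_lit 22) (.e (nat_lit 507648) (nat_lit 19) .nil)))) .nil))) (.nd (nat_lit 6) 
(.lf (nat_lit 9773) (.g (nat_lit 2529) (.e (nat_lit 348) (nat_lit 28) (.e (nat_lit 393251) (nat_lit 18) (.e (nat_lit 164399) (nat_lit 256) (.e (nat_lit 57372) (nat_lit 2) (.e (nat_lit 90172) (nat_lit 14) .nil))))) .nil)) 
(.lf (nat_lit 9837) (.g (nat_lit 2234) (.e (nat_lit 349) (nat_lit 28) (.e (nat_lit 393301) (nat_lit 27) (.e (nat_lit 491577) (nat_lit 15) (.e (nat_lit 3238) (nat_lit 197) (.e (nat_lit 532523) (nat_lit 7) .nil))))) .nil)))) (.nd (nat_lit 5) (.nd (nat_lit 6) 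
(.lf (nat_lit 9757) (.g (nat_lit 1321) (.e (nat_lit 347) (nat_lit 28) (.e (nat_lit 393273) (nat_lit 23) (.e (nat_lit 426364) (nat_lit 15) (.e (nat_lit 1689) (nat_lit 117) .nil)))) .nil)) 
(.lf (nat_lit 9821) (.g (nat_lit 2378) (.e (nat_lit 349) (nat_lit 28) (.e (nat_lit 393268) (nat_lit 23) (.e (nat_lit 426428) (nat_lit 17) (.e (nat_lit 90203) (nat_lit 21) .nil)))) .nil))) (.nd (nat_lit 6) 
(.lf (nat_lit 9789) (.g (nat_lit 2457) (.e (nat_lit 348) (nat_lit 28) (.e (nat_lit 393271) (nat_lit 23) (.e (nat_lit 426131) (nat_lit 3) (.e (nat_lit 204805) (nat_lit 0) (.e (nat_lit 7096) (nat_lit 380) (.e (nat_lit 164352) (nat_lit 246) .nil)))))) (.g (nat_lit 4) .nil .nil))) 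
(.lf (nat_lit 9853) (.g (nat_lit 2240) (.e (nat_lit 351) (nat_lit 28) (.e (nat_lit 393225) (nat_lit 9) (.e (nat_lit 335995) (nat_lit 1) (.e (nat_lit 57848) (nat_lit 252) (.e (nat_lit 57374) (nat_lit 2) .nil))))) .nil))))))) (.nd (nat_lit 2) (.nd (nat_lit 3) (.nd (nat_lit 4) (.nd (nat_lit 5) (.nd (nat_lit 6) 
(.lf (nat_lit 9731) (.g (nat_lit 1167) (.e (nat_lit 347) (nat_lit 28) (.e (nat_lit 393251) (nat_lit 18) (.e (nat_lit 164399) (nat_lit 256) .nil))) .nil)) 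
(.lf (nat_lit 9795) (.g (nat_lit 1321) (.e (nat_lit 348) (nat_lit 28) (.e (nat_lit 393273) (nat_lit 23) (.e (nat_lit 426364) (nat_lit 15) (.e (nat_lit 1682) (nat_lit 117) .nil)))) .nil))) (.nd (nat_lit 6) 
(.lf (nat_lit 9763) (.g (nat_lit 747) (.e (nat_lit 347) (nat_lit 28) (.e (nat_lit 393294) (nat_lit 26) (.e (nat_lit 483072) (nat_lit 22) .nil))) .nil)) 
(.lf (nat_lit 9827) (.g (nat_lit 399) (.e (nat_lit 349) (nat_lit 28) (.e (nat_lit 393281) (nat_lit 23) (.e (nat_lit 426115) (nat_lit 2) .nil))) .nil)))) (.nd (nat_lit 5) (.nd (nat_lit 6) 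
(.lf (nat_lit 9747) (.g (nat_lit 2294) (.e (nat_lit 347) (nat_lit 28) (.e (nat_lit 393260) (nat_lit 21) (.e (nat_lit 409616) (nat_lit 10) (.e (nat_lit 632) (nat_lit 50) (.e (nat_lit 573487) (nat_lit 14) .nil))))) .nil)) 
(.lf (nat_lit 9811) (.g (nat_lit 1094) (.e (nat_lit 348) (nat_lit 28) (.e (nat_lit 393296) (nat_lit 26) (.e (nat_lit 483072) (nat_lit 26) (.e (nat_lit 532544) (nat_lit 10) (.e (nat_lit 352000) (nat_lit 0) .nil))))) (.g (nat_lit 4) .nil .nil)))) (.nd (nat_lit 6) 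
(.lf (nat_lit 9779) (.g (nat_lit 2079) (.e (nat_lit 348) (nat_lit 28) (.e (nat_lit 393260) (nat_lit 21) (.e (nat_lit 409616) (nat_lit 10) (.e (nat_lit 632) (nat_lit 50) (.e (nat_lit 573487) (nat_lit 14) (.e (nat_lit 81664) (nat_lit 32) .nil)))))) (.g (nat_lit 4) .nil .nil))) 
(.lf (nat_lit 9843) (.g (nat_lit 1571) (.e (nat_lit 350) (nat_lit 28) (.e (nat_lit 393253) (nat_lit 18) (.e (nat_lit 164325) (nat_lit 230) (.e (nat_lit 163864) (nat_lit 1) .nil)))) .nil))))) (.nd (nat_lit 4) (.nd (nat_lit 5) (.nd (nat_lit 6) 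
(.lf (nat_lit 9739) (.g (nat_lit 3153) (.e (nat_lit 347) (nat_lit 28) (.e (nat_lit 393253) (nat_lit 18) (.e (nat_lit 164326) (nat_lit 230) (.e (nat_lit 163868) (nat_lit 2) (.e (nat_lit 196655) (nat_lit 11) (.e (nat_lit 16388) (nat_lit 0) (.e (nat_lit 7309) (nat_lit 388) .nil))))))) (.g (nat_lit 0) .nil .nil))) 
(.lf (nat_lit 9803) (.g (nat_lit 1034) (.e (nat_lit 348) (nat_lit 28) (.e (nat_lit 393291) (nat_lit 26) (.e (nat_lit 475177) (nat_lit 24) .nil))) .nil))) (.nd (nat_lit 6) 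
(.lf (nat_lit 9771) (.g (nat_lit 2019) (.e (nat_lit 348) (nat_lit 28) (.e (nat_lit 393251) (nat_lit 18) (.e (nat_lit 164325) (nat_lit 230) (.e (nat_lit 163864) (nat_lit 1) (.e (nat_lit 164332) (nat_lit 230) .nil))))) .nil)) 
(.lf (nat_lit 9835) (.g (nat_lit 1614) (.e (nat_lit 349) (nat_lit 28) (.e (nat_lit 393294) (nat_lit 26) (.e (nat_lit 475169) (nat_lit 22) (.e (nat_lit 499791) (nat_lit 3) .nil)))) .nil)))) (.nd (nat_lit 5) (.nd (nat_lit 6) 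
(.lf (nat_lit 9755) (.g (nat_lit 1767) (.e (nat_lit 347) (nat_lit 28) (.e (nat_lit 393271) (nat_lit 23) (.e (nat_lit 426432) (nat_lit 17) (.e (nat_lit 98048) (nat_lit 5) .nil)))) .nil)) 
(.lf (nat_lit 9819) (.g (nat_lit 1374) (.e (nat_lit 349) (nat_lit 28) (.e (nat_lit 393268) (nat_lit 23) (.e (nat_lit 426428) (nat_lit 17) .nil))) .nil))) (.nd (nat_lit 6) 
(.lf (nat_lit 9787) (.g (nat_lit 1232) (.e (nat_lit 348) (nat_lit 28) (.e (nat_lit 393271) (nat_lit 23) (.e (nat_lit 426131) (nat_lit 3) .nil))) .nil)) 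
(.lf (nat_lit 9851) (.g (nat_lit 913) (.e (nat_lit 350) (nat_lit 28) (.e (nat_lit 393301) (nat_lit 27) (.e (nat_lit 499456) (nat_lit 18) .nil))) .nil)))))) (.nd (nat_lit 3) (.nd (nat_lit 4) (.nd (nat_lit 5) (.nd (nat_lit 6) 
(.lf (nat_lit 9735) (.g (nat_lit 3430) (.e (nat_lit 347) (nat_lit 28) (.e (nat_lit 393253) (nat_lit 18) (.e (nat_lit 164325) (nat_lit 230) (.e (nat_lit 163864) (nat_lit 1) (.e (nat_lit 164332) (nat_lit 230) (.e (nat_lit 163885) (nat_lit 5) (.e (nat_lit 221219) (nat_lit 24) (.e (nat_lit 213003) (nat_lit 9) .nil)))))))) (.g (nat_lit 0) .nil .nil))) 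
(.lf (nat_lit 9799) (.g (nat_lit 891) (.e (nat_lit 348) (nat_lit 28) (.e (nat_lit 393291) (nat_lit 26) (.e (nat_lit 475167) (nat_lit 22) .nil))) .nil))) (.nd (nat_lit 6) 
(.lf (nat_lit 9767) (.g (nat_lit 2569) (.e (nat_lit 347) (nat_lit 28) (.e (nat_lit 393298) (nat_lit 27) (.e (nat_lit 491571) (nat_lit 13) (.e (nat_lit 393252) (nat_lit 18) .nil)))) .nil)) 
(.lf (nat_lit 9831) (.g (nat_lit 1047) (.e (nat_lit 349) (nat_lit 28) (.e (nat_lit 393281) (nat_lit 23) (.e (nat_lit 426133) (nat_lit 3) (.e (nat_lit 204805) (nat_lit 0) .nil)))) .nil)))) (.nd (nat_lit 5) (.nd (nat_lit 6) 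
(.lf (nat_lit 9751) (.g (nat_lit 2406) (.e (nat_lit 347) (nat_lit 28) (.e (nat_lit 393268) (nat_lit 23) (.e (nat_lit 426438) (nat_lit 18) (.e (nat_lit 98334) (nat_lit 18) .nil)))) .nil)) 
(.lf (nat_lit 9815) (.g (nat_lit 1314) (.e (nat_lit 349) (nat_lit 28) (.e (nat_lit 393253) (nat_lit 18) (.e (nat_lit 164326) (nat_lit 230) (.e (nat_lit 163868) (nat_lit 2) .nil)))) .nil))) (.nd (nat_lit 6) 
(.lf (nat_lit 9783) (.g (nat_lit 1322) (.e (nat_lit 348) (nat_lit 28) (.e (nat_lit 393268) (nat_lit 23) (.e (nat_lit 426428) (nat_lit 17) (.e (nat_lit 98048) (nat_lit 5) .nil)))) .nil)) 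
(.lf (nat_lit 9847) (.g (nat_lit 408) (.e (nat_lit 350) (nat_lit 28) (.e (nat_lit 393284) (nat_lit 24) (.e (nat_lit 434229) (nat_lit 22) .nil))) .nil))))) (.nd (nat_lit 4) (.nd (nat_lit 5) (.nd (nat_lit 6) 
(.lf (nat_lit 9743) (.g (nat_lit 696) (.e (nat_lit 347) (nat_lit 28) (.e (nat_lit 393253) (nat_lit 18) (.e (nat_lit 164332) (nat_lit 230) .nil))) .nil)) 
(.lf (nat_lit 9807) (.g (nat_lit 678) (.e (nat_lit 348) (nat_lit 28) (.e (nat_lit 393294) (nat_lit 26) (.e (nat_lit 483072) (nat_lit 26) .nil))) .nil))) (.nd (nat_lit 6) 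
(.lf (nat_lit 9775) (.g (nat_lit 1614) (.e (nat_lit 348) (nat_lit 28) (.e (nat_lit 393253) (nat_lit 18) (.e (nat_lit 164326) (nat_lit 230) (.e (nat_lit 163868) (nat_lit 2) (.e (nat_lit 196655) (nat_lit 11) .nil))))) .nil)) 
(.lf (nat_lit 9839) (.g (nat_lit 817) (.e (nat_lit 349) (nat_lit 28) (.e (nat_lit 393301) (nat_lit 27) (.e (nat_lit 499456) (nat_lit 18) .nil))) .nil)))) (.nd (nat_lit 5) (.nd (nat_lit 6) 
(.lf (nat_lit 9759) (.g (nat_lit 939) (.e (nat_lit 347) (nat_lit 28) (.e (nat_lit 393275) (nat_lit 23) (.e (nat_lit 426125) (nat_lit 2) (.e (nat_lit 204544) (nat_lit 2) .nil)))) .nil)) 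
(.lf (nat_lit 9823) (.g (nat_lit 358) (.e (nat_lit 349) (nat_lit 28) (.e (nat_lit 393270) (nat_lit 23) (.e (nat_lit 426432) (nat_lit 17) .nil))) .nil))) (.nd (nat_lit 6) 
(.lf (nat_lit 9791) (.g (nat_lit 1022) (.e (nat_lit 348) (nat_lit 28) (.e (nat_lit 393271) (nat_lit 23) (.e (nat_lit 426432) (nat_lit 17) (.e (nat_lit 90203) (nat_lit 21) (.e (nat_lit 164293) (nat_lit 224) (.e (nat_lit 164352) (nat_lit 246) .nil)))))) (.g (nat_lit 4) .nil .nil))) 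
(.lf (nat_lit 9855) (.g (nat_lit 590) (.e (nat_lit 351) (nat_lit 28) (.e (nat_lit 393229) (nat_lit 9) (.e (nat_lit 336088) (nat_lit 9) .nil))) .nil)))))))))

noncomputable def tv135 : DT := (.nd (nat_lit 0) (.nd (nat_lit 1) (.nd (nat_lit 2) (.nd (nat_lit 3) (.nd (nat_lit 4) (.nd (nat_lit 5) (.nd (nat_lit 6) 
(.lf (nat_lit 9856) (.g (nat_lit 705) (.e (nat_lit 351) (nat_lit 28) (.e (nat_lit 393251) (nat_lit 18) (.e (nat_lit 164325) (nat_lit 230) .nil))) .nil)) 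
(.lf (nat_lit 9920) (.g (nat_lit 3075) (.e (nat_lit 351) (nat_lit 28) (.e (nat_lit 393260) (nat_lit 21) (.e (nat_lit 409617) (nat_lit 10) (.e (nat_lit 632) (nat_lit 50) (.e (nat_lit 573489) (nat_lit 14) (.e (nat_lit 81664) (nat_lit 32) .nil)))))) (.g (nat_lit 5) .nil .nil)))) (.nd (nat_lit 6) 
(.lf (nat_lit 9888) (.g (nat_lit 2010) (.e (nat_lit 351) (nat_lit 28) (.e (nat_lit 393252) (nat_lit 18) (.e (nat_lit 164399) (nat_lit 256) (.e (nat_lit 57375) (nat_lit 2) (.e (nat_lit 90172) (nat_lit 14) (.e (nat_lit 188160) (nat_lit 40) .nil)))))) (.g (nat_lit 4) .nil .nil))) 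
(.lf (nat_lit 9952) (.g (nat_lit 954) (.e (nat_lit 351) (nat_lit 28) (.e (nat_lit 393271) (nat_lit 23) (.e (nat_lit 426131) (nat_lit 3) (.e (nat_lit 204805) (nat_lit 0) .nil)))) .nil)))) (.nd (nat_lit 5) (.nd (nat_lit 6) 
(.lf (nat_lit 9872) (.g (nat_lit 2081) (.e (nat_lit 351) (nat_lit 28) (.e (nat_lit 393251) (nat_lit 18) (.e (nat_lit 164399) (nat_lit 256) (.e (nat_lit 57372) (nat_lit 2) (.e (nat_lit 90172) (nat_lit 14) (.e (nat_lit 188160) (nat_lit 40) .nil)))))) (.g (nat_lit 4) .nil .nil))) 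
(.lf (nat_lit 9936) (.g (nat_lit 1898) (.e (nat_lit 351) (nat_lit 28) (.e (nat_lit 393268) (nat_lit 23) (.e (nat_lit 426428) (nat_lit 17) (.e (nat_lit 90203) (nat_lit 21) (.e (nat_lit 164289) (nat_lit 224) (.e (nat_lit 164358) (nat_lit 246) .nil)))))) (.g (nat_lit 4) .nil .nil)))) (.nd (nat_lit 6) 
(.lf (nat_lit 9904) (.g (nat_lit 3003) (.e (nat_lit 351) (nat_lit 28) (.e (nat_lit 393253) (nat_lit 18) (.e (nat_lit 164327) (nat_lit 230) (.e (nat_lit 163871) (nat_lit 2) (.e (nat_lit 196656) (nat_lit 11) (.e (nat_lit 16388) (nat_lit 0) (.e (nat_lit 7310) (nat_lit 388) .nil))))))) (.g (nat_lit 4) .nil .nil))) 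
(.lf (nat_lit 9968) (.g (nat_lit 1058) (.e (nat_lit 351) (nat_lit 28) (.e (nat_lit 393277) (nat_lit 23) (.e (nat_lit 426135) (nat_lit 3) (.e (nat_lit 204805) (nat_lit 0) (.e (nat_lit 6988) (nat_lit 377) (.e (nat_lit 7936) (nat_lit 157) (.e (nat_lit 5629) (nat_lit 312) .nil))))))) (.g (nat_lit 5) .nil .nil)))))) (.nd (nat_lit 4) (.nd (nat_lit 5) (.nd (nat_lit 6) 
(.lf (nat_lit 9864) (.g (nat_lit 896) (.e (nat_lit 351) (nat_lit 28) (.e (nat_lit 393251) (nat_lit 18) (.e (nat_lit 164332) (nat_lit 230) .nil))) .nil)) 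
(.lf (nat_lit 9928) (.g (nat_lit 1986) (.e (nat_lit 351) (nat_lit 28) (.e (nat_lit 393267) (nat_lit 23) (.e (nat_lit 426432) (nat_lit 17) (.e (nat_lit 90203) (nat_lit 21) (.e (nat_lit 164291) (nat_lit 224) (.e (nat_lit 164353) (nat_lit 246) .nil)))))) (.g (nat_lit 0) .nil .nil)))) (.nd (nat_lit 6) 
(.lf (nat_lit 9896) (.g (nat_lit 2594) (.e (nat_lit 351) (nat_lit 28) (.e (nat_lit 393253) (nat_lit 18) (.e (nat_lit 164325) (nat_lit 230) (.e (nat_lit 163875) (nat_lit 3) (.e (nat_lit 204805) (nat_lit 0) (.e (nat_lit 6988) (nat_lit 377) (.e (nat_lit 1076) (nat_lit 81) (.e (nat_lit 5629) (nat_lit 312) .nil)))))))) (.g (nat_lit 5) .nil .nil))) 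
(.lf (nat_lit 9960) (.g (nat_lit 2005) (.e (nat_lit 351) (nat_lit 28) (.e (nat_lit 393271) (nat_lit 23) (.e (nat_lit 426428) (nat_lit 17) (.e (nat_lit 90203) (nat_lit 21) (.e (nat_lit 164294) (nat_lit 224) (.e (nat_lit 164356) (nat_lit 246) .nil)))))) (.g (nat_lit 4) .nil .nil))))) (.nd (nat_lit 5) (.nd (nat_lit 6) 
(.lf (nat_lit 9880) (.g (nat_lit 2019) (.e (nat_lit 351) (nat_lit 28) (.e (nat_lit 393252) (nat_lit 18) (.e (nat_lit 164332) (nat_lit 230) (.e (nat_lit 163874) (nat_lit 3) (.e (nat_lit 204805) (nat_lit 0) .nil))))) .nil)) 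
(.lf (nat_lit 9944) (.g (nat_lit 916) (.e (nat_lit 351) (nat_lit 28) (.e (nat_lit 393270) (nat_lit 23) (.e (nat_lit 426428) (nat_lit 17) (.e (nat_lit 90203) (nat_lit 21) .nil)))) .nil))) (.nd (nat_lit 6) 
(.lf (nat_lit 9912) (.g (nat_lit 2443) (.e (nat_lit 351) (nat_lit 28) (.e (nat_lit 393253) (nat_lit 18) (.e (nat_lit 164403) (nat_lit 256) (.e (nat_lit 57371) (nat_lit 2) (.e (nat_lit 90172) (nat_lit 14) (.e (nat_lit 188160) (nat_lit 40) .nil)))))) (.g (nat_lit 4) .nil .nil))) 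
(.lf (nat_lit 9976) (.g (nat_lit 2620) (.e (nat_lit 351) (nat_lit 28) (.e (nat_lit 393281) (nat_lit 23) (.e (nat_lit 426133) (nat_lit 3) (.e (nat_lit 204805) (nat_lit 0) (.e (nat_lit 7098) (nat_lit 380) (.e (nat_lit 164356) (nat_lit 246) .nil)))))) (.g (nat_lit 6) .nil .nil))))))) (.nd (nat_lit 3) (.nd (nat_lit 4) (.nd (nat_lit 5) (.nd (nat_lit 6) 
(.lf (nat_lit 9860) (.g (nat_lit 2819) (.e (nat_lit 351) (nat_lit 28) (.e (nat_lit 393251) (nat_lit 18) (.e (nat_lit 164325) (nat_lit 230) (.e (nat_lit 163875) (nat_lit 3) (.e (nat_lit 204805) (nat_lit 0) (.e (nat_lit 6988) (nat_lit 377) (.e (nat_lit 977) (nat_lit 81) (.e (nat_lit 5629) (nat_lit 312) .nil)))))))) (.g (nat_lit 6) .nil .nil))) 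
(.lf (nat_lit 9924) (.g (nat_lit 1859) (.e (nat_lit 351) (nat_lit 28) (.e (nat_lit 393267) (nat_lit 23) (.e (nat_lit 426432) (nat_lit 17) (.e (nat_lit 90203) (nat_lit 21) (.e (nat_lit 164287) (nat_lit 224) (.e (nat_lit 164354) (nat_lit 246) .nil)))))) (.g (nat_lit 0) .nil .nil)))) (.nd (nat_lit 6) 
(.lf (nat_lit 9892) (.g (nat_lit 3422) (.e (nat_lit 351) (nat_lit 28) (.e (nat_lit 393253) (nat_lit 18) (.e (nat_lit 164324) (nat_lit 230) (.e (nat_lit 163868) (nat_lit 2) (.e (nat_lit 196656) (nat_lit 11) (.e (nat_lit 16388) (nat_lit 0) (.e (nat_lit 7309) (nat_lit 388) .nil))))))) (.g (nat_lit 5) .nil .nil))) 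
(.lf (nat_lit 9956) (.g (nat_lit 987) (.e (nat_lit 351) (nat_lit 28) (.e (nat_lit 393271) (nat_lit 23) (.e (nat_lit 426427) (nat_lit 17) .nil))) .nil)))) (.nd (nat_lit 5) (.nd (nat_lit 6) 
(.lf (nat_lit 9876) (.g (nat_lit 3022) (.e (nat_lit 351) (nat_lit 28) (.e (nat_lit 393252) (nat_lit 18) (.e (nat_lit 164332) (nat_lit 230) (.e (nat_lit 163867) (nat_lit 2) (.e (nat_lit 196656) (nat_lit 11) (.e (nat_lit 16388) (nat_lit 0) (.e (nat_lit 7310) (nat_lit 388) .nil))))))) (.g (nat_lit 5) .nil .nil))) 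
(.lf (nat_lit 9940) (.g (nat_lit 1419) (.e (nat_lit 351) (nat_lit 28) (.e (nat_lit 393269) (nat_lit 23) (.e (nat_lit 426432) (nat_lit 17) (.e (nat_lit 90203) (nat_lit 21) (.e (nat_lit 164288) (nat_lit 224) (.e (nat_lit 164354) (nat_lit 246) .nil)))))) (.g (nat_lit 5) .nil .nil)))) (.nd (nat_lit 6) 
(.lf (nat_lit 9908) (.g (nat_lit 3505) (.e (nat_lit 351) (nat_lit 28) (.e (nat_lit 393253) (nat_lit 18) (.e (nat_lit 164332) (nat_lit 230) (.e (nat_lit 163869) (nat_lit 2) (.e (nat_lit 196656) (nat_lit 11) (.e (nat_lit 16388) (nat_lit 0) (.e (nat_lit 7309) (nat_lit 388) .nil))))))) (.g (nat_lit 5) .nil .nil))) 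
(.lf (nat_lit 9972) (.g (nat_lit 1464) (.e (nat_lit 351) (nat_lit 28) (.e (nat_lit 393281) (nat_lit 23) (.e (nat_lit 426133) (nat_lit 3) (.e (nat_lit 204803) (nat_lit 0) .nil)))) .nil))))) (.nd (nat_lit 4) (.nd (nat_lit 5) (.nd (nat_lit 6) 
(.lf (nat_lit 9868) (.g (nat_lit 2747) (.e (nat_lit 351) (nat_lit 28) (.e (nat_lit 393251) (nat_lit 18) (.e (nat_lit 164332) (nat_lit 230) (.e (nat_lit 163869) (nat_lit 2) (.e (nat_lit 196656) (nat_lit 11) (.e (nat_lit 16388) (nat_lit 0) (.e (nat_lit 7310) (nat_lit 388) .nil))))))) (.g (nat_lit 4) .nil .nil))) 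
(.lf (nat_lit 9932) (.g (nat_lit 1212) (.e (nat_lit 351) (nat_lit 28) (.e (nat_lit 393268) (nat_lit 23) (.e (nat_lit 426428) (nat_lit 17) (.e (nat_lit 98048) (nat_lit 5) .nil)))) .nil))) (.nd (nat_lit 6) 
(.lf (nat_lit 9900) (.g (nat_lit 3394) (.e (nat_lit 351) (nat_lit 28) (.e (nat_lit 393253) (nat_lit 18) (.e (nat_lit 164326) (nat_lit 230) (.e (nat_lit 163868) (nat_lit 2) (.e (nat_lit 196655) (nat_lit 11) (.e (nat_lit 16388) (nat_lit 0) (.e (nat_lit 7310) (nat_lit 388) .nil))))))) (.g (nat_lit 0) .nil .nil))) 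
(.lf (nat_lit 9964) (.g (nat_lit 873) (.e (nat_lit 351) (nat_lit 28) (.e (nat_lit 393273) (nat_lit 23) (.e (nat_lit 426432) (nat_lit 17) .nil))) .nil)))) (.nd (nat_lit 5) (.nd (nat_lit 6) 
(.lf (nat_lit 9884) (.g (nat_lit 2289) (.e (nat_lit 351) (nat_lit 28) (.e (nat_lit 393252) (nat_lit 18) (.e (nat_lit 164398) (nat_lit 256) (.e (nat_lit 57373) (nat_lit 2) (.e (nat_lit 90172) (nat_lit 14) (.e (nat_lit 188160) (nat_lit 40) .nil)))))) (.g (nat_lit 4) .nil .nil))) 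
(.lf (nat_lit 9948) (.g (nat_lit 1800) (.e (nat_lit 351) (nat_lit 28) (.e (nat_lit 393270) (nat_lit 23) (.e (nat_lit 426432) (nat_lit 17) (.e (nat_lit 90203) (nat_lit 21) (.e (nat_lit 164287) (nat_lit 224) (.e (nat_lit 164354) (nat_lit 246) .nil)))))) (.g (nat_lit 0) .nil .nil)))) (.nd (nat_lit 6) 
(.lf (nat_lit 9916) (.g (nat_lit 3074) (.e (nat_lit 351) (nat_lit 28) (.e (nat_lit 393260) (nat_lit 21) (.e (nat_lit 409616) (nat_lit 10) (.e (nat_lit 632) (nat_lit 50) (.e (nat_lit 573487) (nat_lit 14) (.e (nat_lit 81664) (nat_lit 32) .nil)))))) (.g (nat_lit 5) .nil .nil))) 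
(.lf (nat_lit 9980) (.g (nat_lit 256) (.e (nat_lit 351) (nat_lit 28) (.e (nat_lit 393282) (nat_lit 24) (.e (nat_lit 434231) (nat_lit 23) .nil))) .nil))))))) (.nd (nat_lit 2) (.nd (nat_lit 3) (.nd (nat_lit 4) (.nd (nat_lit 5) (.nd (nat_lit 6) 
(.lf (nat_lit 9858) (.g (nat_lit 3195) (.e (nat_lit 351) (nat_lit 28) (.e (nat_lit 393251) (nat_lit 18) (.e (nat_lit 164325) (nat_lit 230) (.e (nat_lit 163871) (nat_lit 2) (.e (nat_lit 196656) (nat_lit 11) (.e (nat_lit 16388) (nat_lit 0) (.e (nat_lit 7309) (nat_lit 388) .nil))))))) (.g (nat_lit 5) .nil .nil))) 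
(.lf (nat_lit 9922) (.g (nat_lit 196) (.e (nat_lit 351) (nat_lit 28) (.e (nat_lit 393267) (nat_lit 23) (.e (nat_lit 426430) (nat_lit 17) .nil))) .nil))) (.nd (nat_lit 6) 
(.lf (nat_lit 9890) (.g (nat_lit 597) (.e (nat_lit 351) (nat_lit 28) (.e (nat_lit 393253) (nat_lit 18) (.e (nat_lit 164324) (nat_lit 230) .nil))) .nil)) 
(.lf (nat_lit 9954) (.g (nat_lit 1036) (.e (nat_lit 351) (nat_lit 28) (.e (nat_lit 393271) (nat_lit 23) (.e (nat_lit 426131) (nat_lit 3) (.e (nat_lit 212736) (nat_lit 0) .nil)))) .nil)))) (.nd (nat_lit 5) (.nd (nat_lit 6) 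
(.lf (nat_lit 9874) (.g (nat_lit 2535) (.e (nat_lit 351) (nat_lit 28) (.e (nat_lit 393252) (nat_lit 18) (.e (nat_lit 164330) (nat_lit 230) (.e (nat_lit 163873) (nat_lit 3) (.e (nat_lit 204805) (nat_lit 0) .nil))))) .nil)) 
(.lf (nat_lit 9938) (.g (nat_lit 1212) (.e (nat_lit 351) (nat_lit 28) (.e (nat_lit 393268) (nat_lit 23) (.e (nat_lit 426428) (nat_lit 17) (.e (nat_lit 98048) (nat_lit 21) .nil)))) .nil))) (.nd (nat_lit 6) 
(.lf (nat_lit 9906) (.g (nat_lit 3550) (.e (nat_lit 351) (nat_lit 28) (.e (nat_lit 393253) (nat_lit 18) (.e (nat_lit 164327) (nat_lit 230) (.e (nat_lit 163875) (nat_lit 3) (.e (nat_lit 204805) (nat_lit 0) .nil))))) .nil)) 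
(.lf (nat_lit 9970) (.g (nat_lit 1342) (.e (nat_lit 351) (nat_lit 28) (.e (nat_lit 393281) (nat_lit 23) (.e (nat_lit 426124) (nat_lit 2) (.e (nat_lit 196649) (nat_lit 10) .nil)))) .nil))))) (.nd (nat_lit 4) (.nd (nat_lit 5) (.nd (nat_lit 6) 
(.lf (nat_lit 9866) (.g (nat_lit 2593) (.e (nat_lit 351) (nat_lit 28) (.e (nat_lit 393251) (nat_lit 18) (.e (nat_lit 164332) (nat_lit 230) (.e (nat_lit 163869) (nat_lit 2) (.e (nat_lit 196656) (nat_lit 11) (.e (nat_lit 16388) (nat_lit 0) (.e (nat_lit 7303) (nat_lit 388) .nil))))))) (.g (nat_lit 4) .nil .nil))) 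
(.lf (nat_lit 9930) (.g (nat_lit 2140) (.e (nat_lit 351) (nat_lit 28) (.e (nat_lit 393267) (nat_lit 23) (.e (nat_lit 426432) (nat_lit 17) (.e (nat_lit 90203) (nat_lit 21) (.e (nat_lit 164294) (nat_lit 224) (.e (nat_lit 164356) (nat_lit 246) .nil)))))) (.g (nat_lit 0) .nil .nil)))) (.nd (nat_lit 6) 
(.lf (nat_lit 9898) (.g (nat_lit 3213) (.e (nat_lit 351) (nat_lit 28) (.e (nat_lit 393253) (nat_lit 18) (.e (nat_lit 164326) (nat_lit 230) (.e (nat_lit 163868) (nat_lit 2) (.e (nat_lit 196655) (nat_lit 11) (.e (nat_lit 16388) (nat_lit 0) (.e (nat_lit 7303) (nat_lit 388) .nil))))))) (.g (nat_lit 6) .nil .nil))) 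
(.lf (nat_lit 9962) (.g (nat_lit 1759) (.e (nat_lit 351) (nat_lit 28) (.e (nat_lit 393271) (nat_lit 23) (.e (nat_lit 433920) (nat_lit 17) (.e (nat_lit 90203) (nat_lit 21) (.e (nat_lit 164291) (nat_lit 224) (.e (nat_lit 164353) (nat_lit 246) .nil)))))) (.g (nat_lit 5) .nil .nil))))) (.nd (nat_lit 5) (.nd (nat_lit 6) 
(.lf (nat_lit 9882) (.g (nat_lit 1783) (.e (nat_lit 351) (nat_lit 28) (.e (nat_lit 393252) (nat_lit 18) (.e (nat_lit 164396) (nat_lit 256) (.e (nat_lit 57371) (nat_lit 2) (.e (nat_lit 90172) (nat_lit 14) .nil))))) .nil)) 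
(.lf (nat_lit 9946) (.g (nat_lit 893) (.e (nat_lit 351) (nat_lit 28) (.e (nat_lit 393270) (nat_lit 23) (.e (nat_lit 426432) (nat_lit 17) (.e (nat_lit 90203) (nat_lit 21) (.e (nat_lit 164286) (nat_lit 224) .nil))))) .nil))) (.nd (nat_lit 6) 
(.lf (nat_lit 9914) (.g (nat_lit 1607) (.e (nat_lit 351) (nat_lit 28) (.e (nat_lit 393260) (nat_lit 21) (.e (nat_lit 409615) (nat_lit 10) (.e (nat_lit 632) (nat_lit 50) (.e (nat_lit 573489) (nat_lit 14) (.e (nat_lit 81664) (nat_lit 32) .nil)))))) (.g (nat_lit 4) .nil .nil))) 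
(.lf (nat_lit 9978) (.g (nat_lit 1103) (.e (nat_lit 351) (nat_lit 28) (.e (nat_lit 393281) (nat_lit 23) (.e (nat_lit 426133) (nat_lit 3) (.e (nat_lit 212736) (nat_lit 7) .nil)))) .nil)))))) (.nd (nat_lit 3) (.nd (nat_lit 4) (.nd (nat_lit 5) (.nd (nat_lit 6) 
(.lf (nat_lit 9862) (.g (nat_lit 3007) (.e (nat_lit 351) (nat_lit 28) (.e (nat_lit 393251) (nat_lit 18) (.e (nat_lit 164327) (nat_lit 230) (.e (nat_lit 163868) (nat_lit 2) (.e (nat_lit 196656) (nat_lit 11) (.e (nat_lit 16388) (nat_lit 0) (.e (nat_lit 7309) (nat_lit 388) .nil))))))) (.g (nat_lit 4) .nil .nil))) 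
(.lf (nat_lit 9926) (.g (nat_lit 1872) (.e (nat_lit 351) (nat_lit 28) (.e (nat_lit 393267) (nat_lit 23) (.e (nat_lit 426432) (nat_lit 17) (.e (nat_lit 90203) (nat_lit 21) (.e (nat_lit 164288) (nat_lit 224) (.e (nat_lit 164354) (nat_lit 246) .nil)))))) (.g (nat_lit 0) .nil .nil)))) (.nd (nat_lit 6) 
(.lf (nat_lit 9894) (.g (nat_lit 2187) (.e (nat_lit 351) (nat_lit 28) (.e (nat_lit 393253) (nat_lit 18) (.e (nat_lit 164325) (nat_lit 230) (.e (nat_lit 163873) (nat_lit 3) .nil)))) .nil)) 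
(.lf (nat_lit 9958) (.g (nat_lit 1502) (.e (nat_lit 351) (nat_lit 28) (.e (nat_lit 393271) (nat_lit 23) (.e (nat_lit 426428) (nat_lit 17) (.e (nat_lit 98048) (nat_lit 5) .nil)))) .nil)))) (.nd (nat_lit 5) (.nd (nat_lit 6) 
(.lf (nat_lit 9878) (.g (nat_lit 3199) (.e (nat_lit 351) (nat_lit 28) (.e (nat_lit 393252) (nat_lit 18) (.e (nat_lit 164332) (nat_lit 230) (.e (nat_lit 163869) (nat_lit 2) (.e (nat_lit 196656) (nat_lit 11) (.e (nat_lit 16388) (nat_lit 0) (.e (nat_lit 7310) (nat_lit 388) .nil))))))) (.g (nat_lit 5) .nil .nil))) 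
(.lf (nat_lit 9942) (.g (nat_lit 1537) (.e (nat_lit 351) (nat_lit 28) (.e (nat_lit 393269) (nat_lit 23) (.e (nat_lit 426432) (nat_lit 17) (.e (nat_lit 90203) (nat_lit 21) (.e (nat_lit 164291) (nat_lit 224) (.e (nat_lit 164353) (nat_lit 246) .nil)))))) (.g (nat_lit 5) .nil .nil)))) (.nd (nat_lit 6) 
(.lf (nat_lit 9910) (.g (nat_lit 2522) (.e (nat_lit 351) (nat_lit 28) (.e (nat_lit 393253) (nat_lit 18) (.e (nat_lit 164332) (nat_lit 230) (.e (nat_lit 163874) (nat_lit 3) (.e (nat_lit 204805) (nat_lit 0) .nil))))) .nil)) 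
(.lf (nat_lit 9974) (.g (nat_lit 1437) (.e (nat_lit 351) (nat_lit 28) (.e (nat_lit 393281) (nat_lit 23) (.e (nat_lit 426133) (nat_lit 3) (.e (nat_lit 204805) (nat_lit 0) (.e (nat_lit 6988) (nat_lit 377) (.e (nat_lit 2506) (nat_lit 157) (.e (nat_lit 5629) (nat_lit 312) .nil))))))) (.g (nat_lit 4) .nil .nil)))))) (.nd (nat_lit 4) (.nd (nat_lit 5) (.nd (nat_lit 6) 
(.lf (nat_lit 9870) (.g (nat_lit 2823) (.e (nat_lit 351) (nat_lit 28) (.e (nat_lit 393251) (nat_lit 18) (.e (nat_lit 164332) (nat_lit 230) (.e (nat_lit 163874) (nat_lit 3) (.e (nat_lit 204805) (nat_lit 0) (.e (nat_lit 6988) (nat_lit 377) (.e (nat_lit 1076) (nat_lit 81) (.e (nat_lit 5629) (nat_lit 312) .nil)))))))) (.g (nat_lit 4) .nil .nil))) 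
(.lf (nat_lit 9934) (.g (nat_lit 1454) (.e (nat_lit 351) (nat_lit 28) (.e (nat_lit 393268) (nat_lit 23) (.e (nat_lit 426428) (nat_lit 17) (.e (nat_lit 90203) (nat_lit 21) .nil)))) .nil))) (.nd (nat_lit 6) 
(.lf (nat_lit 9902) (.g (nat_lit 3246) (.e (nat_lit 351) (nat_lit 28) (.e (nat_lit 393253) (nat_lit 18) (.e (nat_lit 164326) (nat_lit 230) (.e (nat_lit 163871) (nat_lit 2) (.e (nat_lit 196655) (nat_lit 11) (.e (nat_lit 16388) (nat_lit 0) (.e (nat_lit 7310) (nat_lit 388) .nil))))))) (.g (nat_lit 7) .nil .nil))) 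
(.lf (nat_lit 9966) (.g (nat_lit 357) (.e (nat_lit 351) (nat_lit 28) (.e (nat_lit 393274) (nat_lit 23) (.e (nat_lit 426132) (nat_lit 3) .nil))) .nil)))) (.nd (nat_lit 5) (.nd (nat_lit 6) 
(.lf (nat_lit 9886) (.g (nat_lit 2944) (.e (nat_lit 351) (nat_lit 28) (.e (nat_lit 393252) (nat_lit 18) (.e (nat_lit 164399) (nat_lit 256) (.e (nat_lit 57372) (nat_lit 2) (.e (nat_lit 90172) (nat_lit 14) (.e (nat_lit 188160) (nat_lit 40) .nil)))))) (.g (nat_lit 5) .nil .nil))) 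
(.lf (nat_lit 9950) (.g (nat_lit 1801) (.e (nat_lit 351) (nat_lit 28) (.e (nat_lit 393270) (nat_lit 23) (.e (nat_lit 426432) (nat_lit 17) (.e (nat_lit 90203) (nat_lit 21) (.e (nat_lit 164289) (nat_lit 224) (.e (nat_lit 164354) (nat_lit 246) .nil)))))) (.g (nat_lit 0) .nil .nil)))) (.nd (nat_lit 6) 
(.lf (nat_lit 9918) (.g (nat_lit 2987) (.e (nat_lit 351) (nat_lit 28) (.e (nat_lit 393260) (nat_lit 21) (.e (nat_lit 409616) (nat_lit 10) (.e (nat_lit 632) (nat_lit 50) (.e (nat_lit 573489) (nat_lit 14) (.e (nat_lit 81664) (nat_lit 32) .nil)))))) (.g (nat_lit 5) .nil .nil))) 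
(.lf (nat_lit 9982) (.g (nat_lit 1781) (.e (nat_lit 351) (nat_lit 28) (.e (nat_lit 393282) (nat_lit 24) (.e (nat_lit 434231) (nat_lit 23) (.e (nat_lit 532575) (nat_lit 17) (.e (nat_lit 6988) (nat_lit 377) (.e (nat_lit 2404) (nat_lit 157) (.e (nat_lit 5629) (nat_lit 312) .nil))))))) (.g (nat_lit 4) .nil .nil))))))))) 
(.nd (nat_lit 1) (.nd (nat_lit 2) (.nd (nat_lit 3) (.nd (nat_lit 4) (.nd (nat_lit 5) 
(.nd (nat_lit 6) 
(.lf (nat_lit 9857) (.g (nat_lit 3419) (.e (nat_lit 351) (nat_lit 28) (.e (nat_lit 393251) (nat_lit 18) (.e (nat_lit 164325) (nat_lit 230) (.e (nat_lit 163868) (nat_lit 2) (.e (nat_lit 196656) (nat_lit 11) (.e (nat_lit 16388) (nat_lit 0) (.e (nat_lit 7309) (nat_lit 388) .nil))))))) (.g (nat_lit 5) .nil .nil))) 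
(.lf (nat_lit 9921) (.g (nat_lit 1128) (.e (nat_lit 351) (nat_lit 28) (.e (nat_lit 393266) (nat_lit 23) (.e (nat_lit 426140) (nat_lit 3) (.e (nat_lit 212736) (nat_lit 7) .nil)))) .nil))) (.nd (nat_lit 6) 
(.lf (nat_lit 9889) (.g (nat_lit 3017) (.e (nat_lit 351) (nat_lit 28) (.e (nat_lit 393252) (nat_lit 18) (.e (nat_lit 164403) (nat_lit 256) (.e (nat_lit 57373) (nat_lit 2) (.e (nat_lit 90172) (nat_lit 14) (.e (nat_lit 188160) (nat_lit 40) .nil)))))) (.g (nat_lit 4) .nil .nil))) 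
(.lf (nat_lit 9953) (.g (nat_lit 1518) (.e (nat_lit 351) (nat_lit 28) (.e (nat_lit 393271) (nat_lit 23) (.e (nat_lit 426131) (nat_lit 3) (.e (nat_lit 204807) (nat_lit 0) .nil)))) .nil)))) (.nd (nat_lit 5) (.nd (nat_lit 6) 
(.lf (nat_lit 9873) (.g (nat_lit 1857) (.e (nat_lit 351) (nat_lit 28) (.e (nat_lit 393251) (nat_lit 18) (.e (nat_lit 164403) (nat_lit 256) (.e (nat_lit 57371) (nat_lit 2) .nil)))) .nil)) 
(.lf (nat_lit 9937) (.g (nat_lit 1601) (.e (nat_lit 351) (nat_lit 28) (.e (nat_lit 393268) (nat_lit 23) (.e (nat_lit 426428) (nat_lit 17) (.e (nat_lit 90203) (nat_lit 21) (.e (nat_lit 164293) (nat_lit 224) .nil))))) .nil))) (.nd (nat_lit 6) 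
(.lf (nat_lit 9905) (.g (nat_lit 2059) (.e (nat_lit 351) (nat_lit 28) (.e (nat_lit 393253) (nat_lit 18) (.e (nat_lit 164327) (nat_lit 230) (.e (nat_lit 163873) (nat_lit 3) .nil)))) .nil)) 
(.lf (nat_lit 9969) (.g (nat_lit 873) (.e (nat_lit 351) (nat_lit 28) (.e (nat_lit 393281) (nat_lit 23) (.e (nat_lit 426115) (nat_lit 2) (.e (nat_lit 196651) (nat_lit 10) (.e (nat_lit 16128) (nat_lit 183) (.e (nat_lit 164354) (nat_lit 246) .nil)))))) (.g (nat_lit 4) .nil .nil)))))) (.nd (nat_lit 4) (.nd (nat_lit 5) (.nd (nat_lit 6) 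
(.lf (nat_lit 9865) (.g (nat_lit 2367) (.e (nat_lit 351) (nat_lit 28) (.e (nat_lit 393251) (nat_lit 18) (.e (nat_lit 164332) (nat_lit 230) (.e (nat_lit 163867) (nat_lit 2) (.e (nat_lit 196656) (nat_lit 11) (.e (nat_lit 16388) (nat_lit 0) (.e (nat_lit 7310) (nat_lit 388) .nil))))))) (.g (nat_lit 4) .nil .nil))) 
(.lf (nat_lit 9929) (.g (nat_lit 2001) (.e (nat_lit 351) (nat_lit 28) (.e (nat_lit 393267) (nat_lit 23) (.e (nat_lit 426432) (nat_lit 17) (.e (nat_lit 90203) (nat_lit 21) (.e (nat_lit 164294) (nat_lit 224) (.e (nat_lit 164353) (nat_lit 246) .nil)))))) (.g (nat_lit 0) .nil .nil)))) (.nd (nat_lit 6) 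
(.lf (nat_lit 9897) (.g (nat_lit 646) (.e (nat_lit 351) (nat_lit 28) (.e (nat_lit 393253) (nat_lit 18) (.e (nat_lit 164326) (nat_lit 230) .nil))) .nil)) 
(.lf (nat_lit 9961) (.g (nat_lit 931) (.e (nat_lit 351) (nat_lit 28) (.e (nat_lit 393271) (nat_lit 23) (.e (nat_lit 433920) (nat_lit 17) .nil))) .nil)))) (.nd (nat_lit 5) (.nd (nat_lit 6) 
(.lf (nat_lit 9881) (.g (nat_lit 2021) (.e (nat_lit 351) (nat_lit 28) (.e (nat_lit 393252) (nat_lit 18) (.e (nat_lit 164332) (nat_lit 230) (.e (nat_lit 163874) (nat_lit 3) (.e (nat_lit 204805) (nat_lit 0) (.e (nat_lit 7089) (nat_lit 379) (.e (nat_lit 123163) (nat_lit 256) .nil))))))) (.g (nat_lit 4) .nil .nil))) 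
(.lf (nat_lit 9945) (.g (nat_lit 273) (.e (nat_lit 351) (nat_lit 28) (.e (nat_lit 393270) (nat_lit 23) (.e (nat_lit 426430) (nat_lit 17) .nil))) .nil))) (.nd (nat_lit 6) 
(.lf (nat_lit 9913) (.g (nat_lit 3109) (.e (nat_lit 351) (nat_lit 28) (.e (nat_lit 393253) (nat_lit 18) (.e (nat_lit 164403) (nat_lit 256) (.e (nat_lit 57373) (nat_lit 2) (.e (nat_lit 90172) (nat_lit 14) (.e (nat_lit 188160) (nat_lit 40) .nil)))))) (.g (nat_lit 4) .nil .nil))) 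
(.lf (nat_lit 9977) (.g (nat_lit 1137) (.e (nat_lit 351) (nat_lit 28) (.e (nat_lit 393281) (nat_lit 23) (.e (nat_lit 426133) (nat_lit 3) (.e (nat_lit 204805) (nat_lit 0) (.e (nat_lit 7106) (nat_lit 380) .nil))))) .nil)))))) (.nd (nat_lit 3) (.nd (nat_lit 4) (.nd (nat_lit 5) (.nd (nat_lit 6) 
(.lf (nat_lit 9861) (.g (nat_lit 2839) (.e (nat_lit 351) (nat_lit 28) (.e (nat_lit 393251) (nat_lit 18) (.e (nat_lit 164325) (nat_lit 230) (.e (nat_lit 163875) (nat_lit 3) (.e (nat_lit 204805) (nat_lit 0) (.e (nat_lit 6988) (nat_lit 377) (.e (nat_lit 1076) (nat_lit 81) (.e (nat_lit 5629) (nat_lit 312) .nil)))))))) (.g (nat_lit 6) .nil .nil))) 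
(.lf (nat_lit 9925) (.g (nat_lit 2015) (.e (nat_lit 351) (nat_lit 28) (.e (nat_lit 393267) (nat_lit 23) (.e (nat_lit 426432) (nat_lit 17) (.e (nat_lit 90203) (nat_lit 21) (.e (nat_lit 164287) (nat_lit 224) (.e (nat_lit 164358) (nat_lit 246) .nil)))))) (.g (nat_lit 0) .nil .nil)))) (.nd (nat_lit 6) 
(.lf (nat_lit 9893) (.g (nat_lit 622) (.e (nat_lit 351) (nat_lit 28) (.e (nat_lit 393253) (nat_lit 18) (.e (nat_lit 164325) (nat_lit 230) .nil))) .nil)) 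
(.lf (nat_lit 9957) (.g (nat_lit 666) (.e (nat_lit 351) (nat_lit 28) (.e (nat_lit 393271) (nat_lit 23) (.e (nat_lit 426428) (nat_lit 17) .nil))) .nil)))) (.nd (nat_lit 5) (.nd (nat_lit 6) 
(.lf (nat_lit 9877) (.g (nat_lit 3471) (.e (nat_lit 351) (nat_lit 28) (.e (nat_lit 393252) (nat_lit 18) (.e (nat_lit 164332) (nat_lit 230) (.e (nat_lit 163869) (nat_lit 2) (.e (nat_lit 196656) (nat_lit 11) (.e (nat_lit 16388) (nat_lit 0) (.e (nat_lit 7309) (nat_lit 388) .nil))))))) (.g (nat_lit 5) .nil .nil))) 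
(.lf (nat_lit 9941) (.g (nat_lit 1421) (.e (nat_lit 351) (nat_lit 28) (.e (nat_lit 393269) (nat_lit 23) (.e (nat_lit 426432) (nat_lit 17) (.e (nat_lit 90203) (nat_lit 21) (.e (nat_lit 164289) (nat_lit 224) (.e (nat_lit 164354) (nat_lit 246) .nil)))))) (.g (nat_lit 5) .nil .nil)))) (.nd (nat_lit 6) 
(.lf (nat_lit 9909) (.g (nat_lit 1616) (.e (nat_lit 351) (nat_lit 28) (.e (nat_lit 393253) (nat_lit 18) (.e (nat_lit 164332) (nat_lit 230) (.e (nat_lit 163874) (nat_lit 3) .nil)))) .nil)) 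
(.lf (nat_lit 9973) (.g (nat_lit 1437) (.e (nat_lit 351) (nat_lit 28) (.e (nat_lit 393281) (nat_lit 23) (.e (nat_lit 426133) (nat_lit 3) (.e (nat_lit 204805) (nat_lit 0) (.e (nat_lit 6988) (nat_lit 377) (.e (nat_lit 2404) (nat_lit 157) (.e (nat_lit 5629) (nat_lit 312) .nil))))))) (.g (nat_lit 4) .nil .nil)))))) (.nd (nat_lit 4) (.nd (nat_lit 5) (.nd (nat_lit 6) 
(.lf (nat_lit 9869) (.g (nat_lit 2803) (.e (nat_lit 351) (nat_lit 28) (.e (nat_lit 393251) (nat_lit 18) (.e (nat_lit 164332) (nat_lit 230) (.e (nat_lit 163874) (nat_lit 3) (.e (nat_lit 204805) (nat_lit 0) (.e (nat_lit 6988) (nat_lit 377) (.e (nat_lit 977) (nat_lit 81) (.e (nat_lit 5629) (nat_lit 312) .nil)))))))) (.g (nat_lit 4) .nil .nil))) 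
(.lf (nat_lit 9933) (.g (nat_lit 1476) (.e (nat_lit 351) (nat_lit 28) (.e (nat_lit 393268) (nat_lit 23) (.e (nat_lit 426428) (nat_lit 17) (.e (nat_lit 90202) (nat_lit 21) .nil)))) .nil))) (.nd (nat_lit 6) 
(.lf (nat_lit 9901) (.g (nat_lit 3547) (.e (nat_lit 351) (nat_lit 28) (.e (nat_lit 393253) (nat_lit 18) (.e (nat_lit 164326) (nat_lit 230) (.e (nat_lit 163871) (nat_lit 2) (.e (nat_lit 196655) (nat_lit 11) (.e (nat_lit 16388) (nat_lit 0) (.e (nat_lit 7309) (nat_lit 388) .nil))))))) (.g (nat_lit 0) .nil .nil))) 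
(.lf (nat_lit 9965) (.g (nat_lit 458) (.e (nat_lit 351) (nat_lit 28) (.e (nat_lit 393274) (nat_lit 23) (.e (nat_lit 426113) (nat_lit 2) .nil))) .nil)))) (.nd (nat_lit 5) (.nd (nat_lit 6) 
(.lf (nat_lit 9885) (.g (nat_lit 2109) (.e (nat_lit 351) (nat_lit 28) (.e (nat_lit 393252) (nat_lit 18) (.e (nat_lit 164398) (nat_lit 256) (.e (nat_lit 57375) (nat_lit 2) (.e (nat_lit 90172) (nat_lit 14) (.e (nat_lit 188160) (nat_lit 40) .nil)))))) (.g (nat_lit 4) .nil .nil))) 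
(.lf (nat_lit 9949) (.g (nat_lit 1803) (.e (nat_lit 351) (nat_lit 28) (.e (nat_lit 393270) (nat_lit 23) (.e (nat_lit 426432) (nat_lit 17) (.e (nat_lit 90203) (nat_lit 21) (.e (nat_lit 164288) (nat_lit 224) (.e (nat_lit 164354) (nat_lit 246) .nil)))))) (.g (nat_lit 0) .nil .nil)))) (.nd (nat_lit 6) 
(.lf (nat_lit 9917) (.g (nat_lit 1992) (.e (nat_lit 351) (nat_lit 28) (.e (nat_lit 393260) (nat_lit 21) (.e (nat_lit 409616) (nat_lit 10) (.e (nat_lit 632) (nat_lit 50) (.e (nat_lit 573488) (nat_lit 14) .nil))))) .nil)) 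
(.lf (nat_lit 9981) (.g (nat_lit 852) (.e (nat_lit 351) (nat_lit 28) (.e (nat_lit 393282) (nat_lit 24) (.e (nat_lit 434231) (nat_lit 23) (.e (nat_lit 532575) (nat_lit 17) .nil)))) .nil))))))) (.nd (nat_lit 2) (.nd (nat_lit 3) (.nd (nat_lit 4) (.nd (nat_lit 5) (.nd (nat_lit 6) 
(.lf (nat_lit 9859) (.g (nat_lit 2118) (.e (nat_lit 351) (nat_lit 28) (.e (nat_lit 393251) (nat_lit 18) (.e (nat_lit 164325) (nat_lit 230) (.e (nat_lit 163873) (nat_lit 3) .nil)))) .nil)) 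
(.lf (nat_lit 9923) (.g (nat_lit 1846) (.e (nat_lit 351) (nat_lit 28) (.e (nat_lit 393267) (nat_lit 23) (.e (nat_lit 426432) (nat_lit 17) (.e (nat_lit 90203) (nat_lit 21) (.e (nat_lit 164286) (nat_lit 224) (.e (nat_lit 164354) (nat_lit 246) .nil)))))) (.g (nat_lit 0) .nil .nil)))) (.nd (nat_lit 6) 
(.lf (nat_lit 9891) (.g (nat_lit 1374) (.e (nat_lit 351) (nat_lit 28) (.e (nat_lit 393253) (nat_lit 18) (.e (nat_lit 164324) (nat_lit 230) (.e (nat_lit 163868) (nat_lit 2) .nil)))) .nil)) 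
(.lf (nat_lit 9955) (.g (nat_lit 1036) (.e (nat_lit 351) (nat_lit 28) (.e (nat_lit 393271) (nat_lit 23) (.e (nat_lit 426131) (nat_lit 3) (.e (nat_lit 212736) (nat_lit 7) .nil)))) .nil)))) (.nd (nat_lit 5) (.nd (nat_lit 6) 
(.lf (nat_lit 9875) (.g (nat_lit 3294) (.e (nat_lit 351) (nat_lit 28) (.e (nat_lit 393252) (nat_lit 18) (.e (nat_lit 164332) (nat_lit 230) (.e (nat_lit 163867) (nat_lit 2) (.e (nat_lit 196656) (nat_lit 11) (.e (nat_lit 16388) (nat_lit 0) (.e (nat_lit 7309) (nat_lit 388) .nil))))))) (.g (nat_lit 5) .nil .nil))) 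
(.lf (nat_lit 9939) (.g (nat_lit 1638) (.e (nat_lit 351) (nat_lit 28) (.e (nat_lit 393268) (nat_lit 23) (.e (nat_lit 426438) (nat_lit 18) .nil))) .nil))) (.nd (nat_lit 6) 
(.lf (nat_lit 9907) (.g (nat_lit 3567) (.e (nat_lit 351) (nat_lit 28) (.e (nat_lit 393253) (nat_lit 18) (.e (nat_lit 164327) (nat_lit 230) (.e (nat_lit 163875) (nat_lit 3) (.e (nat_lit 204805) (nat_lit 0) (.e (nat_lit 6988) (nat_lit 377) (.e (nat_lit 1076) (nat_lit 81) (.e (nat_lit 5629) (nat_lit 312) .nil)))))))) (.g (nat_lit 4) .nil .nil))) 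
(.lf (nat_lit 9971) (.g (nat_lit 330) (.e (nat_lit 351) (nat_lit 28) (.e (nat_lit 393281) (nat_lit 23) (.e (nat_lit 426133) (nat_lit 3) .nil))) .nil))))) (.nd (nat_lit 4) (.nd (nat_lit 5) (.nd (nat_lit 6) 
(.lf (nat_lit 9867) (.g (nat_lit 3079) (.e (nat_lit 351) (nat_lit 28) (.e (nat_lit 393251) (nat_lit 18) (.e (nat_lit 164332) (nat_lit 230) (.e (nat_lit 163869) (nat_lit 2) (.e (nat_lit 196656) (nat_lit 11) (.e (nat_lit 16388) (nat_lit 0) (.e (nat_lit 7309) (nat_lit 388) .nil))))))) (.g (nat_lit 4) .nil .nil))) 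
(.lf (nat_lit 9931) (.g (nat_lit 952) (.e (nat_lit 351) (nat_lit 28) (.e (nat_lit 393268) (nat_lit 23) (.e (nat_lit 426427) (nat_lit 17) .nil))) .nil))) (.nd (nat_lit 6) 
(.lf (nat_lit 9899) (.g (nat_lit 3695) (.e (nat_lit 351) (nat_lit 28) (.e (nat_lit 393253) (nat_lit 18) (.e (nat_lit 164326) (nat_lit 230) (.e (nat_lit 163868) (nat_lit 2) (.e (nat_lit 196655) (nat_lit 11) (.e (nat_lit 16388) (nat_lit 0) (.e (nat_lit 7309) (nat_lit 388) .nil))))))) (.g (nat_lit 0) .nil .nil))) 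
(.lf (nat_lit 9963) (.g (nat_lit 744) (.e (nat_lit 351) (nat_lit 28) (.e (nat_lit 393272) (nat_lit 23) (.e (nat_lit 426432) (nat_lit 17) (.e (nat_lit 90203) (nat_lit 21) .nil)))) .nil)))) (.nd (nat_lit 5) (.nd (nat_lit 6) 
(.lf (nat_lit 9883) (.g (nat_lit 3089) (.e (nat_lit 351) (nat_lit 28) (.e (nat_lit 393252) (nat_lit 18) (.e (nat_lit 164398) (nat_lit 256) (.e (nat_lit 57372) (nat_lit 2) (.e (nat_lit 90172) (nat_lit 14) (.e (nat_lit 188160) (nat_lit 40) .nil)))))) (.g (nat_lit 5) .nil .nil))) 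
(.lf (nat_lit 9947) (.g (nat_lit 1778) (.e (nat_lit 351) (nat_lit 28) (.e (nat_lit 393270) (nat_lit 23) (.e (nat_lit 426432) (nat_lit 17) (.e (nat_lit 90203) (nat_lit 21) (.e (nat_lit 164286) (nat_lit 224) (.e (nat_lit 164354) (nat_lit 246) .nil)))))) (.g (nat_lit 0) .nil .nil)))) (.nd (nat_lit 6) 
(.lf (nat_lit 9915) (.g (nat_lit 1987) (.e (nat_lit 351) (nat_lit 28) (.e (nat_lit 393260) (nat_lit 21) (.e (nat_lit 409616) (nat_lit 10) (.e (nat_lit 630) (nat_lit 50) .nil)))) .nil)) 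
(.lf (nat_lit 9979) (.g (nat_lit 1307) (.e (nat_lit 351) (nat_lit 28) (.e (nat_lit 393282) (nat_lit 24) (.e (nat_lit 434229) (nat_lit 22) (.e (nat_lit 524339) (nat_lit 27) (.e (nat_lit 352000) (nat_lit 0) .nil))))) (.g (nat_lit 4) .nil .nil))))))) (.nd (nat_lit 3) (.nd (nat_lit 4) (.nd (nat_lit 5) (.nd (nat_lit 6) 
(.lf (nat_lit 9863) (.g (nat_lit 2616) (.e (nat_lit 351) (nat_lit 28) (.e (nat_lit 393251) (nat_lit 18) (.e (nat_lit 164327) (nat_lit 230) (.e (nat_lit 163875) (nat_lit 3) (.e (nat_lit 204805) (nat_lit 0) .nil))))) .nil)) 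
(.lf (nat_lit 9927) (.g (nat_lit 1870) (.e (nat_lit 351) (nat_lit 28) (.e (nat_lit 393267) (nat_lit 23) (.e (nat_lit 426432) (nat_lit 17) (.e (nat_lit 90203) (nat_lit 21) (.e (nat_lit 164289) (nat_lit 224) (.e (nat_lit 164354) (nat_lit 246) .nil)))))) (.g (nat_lit 0) .nil .nil)))) (.nd (nat_lit 6) 
(.lf (nat_lit 9895) (.g (nat_lit 2576) (.e (nat_lit 351) (nat_lit 28) (.e (nat_lit 393253) (nat_lit 18) (.e (nat_lit 164325) (nat_lit 230) (.e (nat_lit 163875) (nat_lit 3) (.e (nat_lit 204805) (nat_lit 0) (.e (nat_lit 6988) (nat_lit 377) (.e (nat_lit 977) (nat_lit 81) (.e (nat_lit 5629) (nat_lit 312) .nil)))))))) (.g (nat_lit 5) .nil .nil))) 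
(.lf (nat_lit 9959) (.g (nat_lit 1617) (.e (nat_lit 351) (nat_lit 28) (.e (nat_lit 393271) (nat_lit 23) (.e (nat_lit 426428) (nat_lit 17) (.e (nat_lit 90202) (nat_lit 21) .nil)))) .nil)))) (.nd (nat_lit 5) (.nd (nat_lit 6) 
(.lf (nat_lit 9879) (.g (nat_lit 1199) (.e (nat_lit 351) (nat_lit 28) (.e (nat_lit 393252) (nat_lit 18) (.e (nat_lit 164332) (nat_lit 230) (.e (nat_lit 163874) (nat_lit 3) .nil)))) .nil)) 
(.lf (nat_lit 9943) (.g (nat_lit 1538) (.e (nat_lit 351) (nat_lit 28) (.e (nat_lit 393269) (nat_lit 23) (.e (nat_lit 426432) (nat_lit 17) (.e (nat_lit 90203) (nat_lit 21) (.e (nat_lit 164294) (nat_lit 224) (.e (nat_lit 164353) (nat_lit 246) .nil)))))) (.g (nat_lit 5) .nil .nil)))) (.nd (nat_lit 6) 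
(.lf (nat_lit 9911) (.g (nat_lit 788) (.e (nat_lit 351) (nat_lit 28) (.e (nat_lit 393253) (nat_lit 18) (.e (nat_lit 164402) (nat_lit 256) .nil))) .nil)) 
(.lf (nat_lit 9975) (.g (nat_lit 2609) (.e (nat_lit 351) (nat_lit 28) (.e (nat_lit 393281) (nat_lit 23) (.e (nat_lit 426133) (nat_lit 3) (.e (nat_lit 204805) (nat_lit 0) (.e (nat_lit 7096) (nat_lit 380) (.e (nat_lit 164358) (nat_lit 246) .nil)))))) (.g (nat_lit 6) .nil .nil)))))) (.nd (nat_lit 4) (.nd (nat_lit 5) (.nd (nat_lit 6) 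
(.lf (nat_lit 9871) (.g (nat_lit 2975) (.e (nat_lit 351) (nat_lit 28) (.e (nat_lit 393251) (nat_lit 18) (.e (nat_lit 164398) (nat_lit 256) (.e (nat_lit 57372) (nat_lit 2) (.e (nat_lit 90172) (nat_lit 14) .nil))))) .nil)) 
(.lf (nat_lit 9935) (.g (nat_lit 1944) (.e (nat_lit 351) (nat_lit 28) (.e (nat_lit 393268) (nat_lit 23) (.e (nat_lit 426428) (nat_lit 17) (.e (nat_lit 90203) (nat_lit 21) (.e (nat_lit 164287) (nat_lit 224) (.e (nat_lit 164358) (nat_lit 246) .nil)))))) (.g (nat_lit 4) .nil .nil)))) (.nd (nat_lit 6) 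
(.lf (nat_lit 9903) (.g (nat_lit 1933) (.e (nat_lit 351) (nat_lit 28) (.e (nat_lit 393253) (nat_lit 18) (.e (nat_lit 164327) (nat_lit 230) (.e (nat_lit 163871) (nat_lit 2) .nil)))) .nil)) 
(.lf (nat_lit 9967) (.g (nat_lit 1024) (.e (nat_lit 351) (nat_lit 28) (.e (nat_lit 393275) (nat_lit 23) (.e (nat_lit 426140) (nat_lit 3) (.e (nat_lit 212736) (nat_lit 7) .nil)))) .nil)))) (.nd (nat_lit 5) (.nd (nat_lit 6) 
(.lf (nat_lit 9887) (.g (nat_lit 2475) (.e (nat_lit 351) (nat_lit 28) (.e (nat_lit 393252) (nat_lit 18) (.e (nat_lit 164399) (nat_lit 256) (.e (nat_lit 57373) (nat_lit 2) (.e (nat_lit 90172) (nat_lit 14) (.e (nat_lit 188160) (nat_lit 40) .nil)))))) (.g (nat_lit 4) .nil .nil))) 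
(.lf (nat_lit 9951) (.g (nat_lit 1513) (.e (nat_lit 351) (nat_lit 28) (.e (nat_lit 393271) (nat_lit 23) (.e (nat_lit 426131) (nat_lit 3) (.e (nat_lit 204804) (nat_lit 0) .nil)))) .nil))) (.nd (nat_lit 6) 
(.lf (nat_lit 9919) (.g (nat_lit 3653) (.e (nat_lit 351) (nat_lit 28) (.e (nat_lit 393260) (nat_lit 21) (.e (nat_lit 409617) (nat_lit 10) (.e (nat_lit 632) (nat_lit 50) (.e (nat_lit 573487) (nat_lit 14) (.e (nat_lit 81664) (nat_lit 32) .nil)))))) (.g (nat_lit 5) .nil .nil))) 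
(.lf (nat_lit 9983) (.g (nat_lit 1781) (.e (nat_lit 351) (nat_lit 28) (.e (nat_lit 393282) (nat_lit 24) (.e (nat_lit 434231) (nat_lit 23) (.e (nat_lit 532575) (nat_lit 17) (.e (nat_lit 6988) (nat_lit 377) (.e (nat_lit 2506) (nat_lit 157) (.e (nat_lit 5629) (nat_lit 312) .nil))))))) (.g (nat_lit 4) .nil .nil))))))))))

noncomputable def tv136 : DT := (.nd (nat_lit 0) (.nd (nat_lit 1) (.nd (nat_lit 2) (.nd (nat_lit 3) (.nd (nat_lit 4) (.nd (nat_lit 5) (.nd (nat_lit 6) 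
(.lf (nat_lit 9984) (.g (nat_lit 2222) (.e (nat_lit 351) (nat_lit 28) (.e (nat_lit 393282) (nat_lit 24) (.e (nat_lit 434231) (nat_lit 23) (.e (nat_lit 532575) (nat_lit 17) (.e (nat_lit 7105) (nat_lit 380) (.e (nat_lit 164358) (nat_lit 246) .nil)))))) (.g (nat_lit 0) .nil .nil))) 
(.lf (nat_lit 10048) (.g (nat_lit 2401) (.e (nat_lit 352) (nat_lit 28) (.e (nat_lit 393251) (nat_lit 18) (.e (nat_lit 164325) (nat_lit 230) (.e (nat_lit 163861) (nat_lit 1) (.e (nat_lit 164332) (nat_lit 230) (.e (nat_lit 163885) (nat_lit 5) (.e (nat_lit 221218) (nat_lit 24) (.e (nat_lit 213001) (nat_lit 9) .nil)))))))) (.g (nat_lit 4) .nil .nil)))) (.nd (nat_lit 6) 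
(.lf (nat_lit 10016) (.g (nat_lit 447) (.e (nat_lit 351) (nat_lit 28) (.e (nat_lit 393291) (nat_lit 26) (.e (nat_lit 475169) (nat_lit 22) .nil))) .nil)) 
(.lf (nat_lit 10080) (.g (nat_lit 551) (.e (nat_lit 7936) (nat_lit 28) (.e (nat_lit 393225) (nat_lit 9) (.e (nat_lit 336163) (nat_lit 10) .nil))) .nil)))) (.nd (nat_lit 5) (.nd (nat_lit 6) 
(.lf (nat_lit 10000) (.g (nat_lit 1349) (.e (nat_lit 351) (nat_lit 28) (.e (nat_lit 393283) (nat_lit 24) (.e (nat_lit 434231) (nat_lit 23) (.e (nat_lit 532577) (nat_lit 17) .nil)))) .nil)) 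
(.lf (nat_lit 10064) (.g (nat_lit 3292) (.e (nat_lit 352) (nat_lit 28) (.e (nat_lit 393260) (nat_lit 21) (.e (nat_lit 409617) (nat_lit 10) (.e (nat_lit 632) (nat_lit 50) (.e (nat_lit 573487) (nat_lit 14) (.e (nat_lit 81664) (nat_lit 32) .nil)))))) (.g (nat_lit 5) .nil .nil)))) (.nd (nat_lit 6) 
(.lf (nat_lit 10032) (.g (nat_lit 807) (.e (nat_lit 351) (nat_lit 28) (.e (nat_lit 393293) (nat_lit 26) (.e (nat_lit 475181) (nat_lit 27) (.e (nat_lit 540700) (nat_lit 10) (.e (nat_lit 352000) (nat_lit 0) .nil))))) (.g (nat_lit 4) .nil .nil))) 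
(.lf (nat_lit 10096) (.g (nat_lit 705) (.e (nat_lit 7936) (nat_lit 28) (.e (nat_lit 393272) (nat_lit 23) (.e (nat_lit 426432) (nat_lit 17) (.e (nat_lit 90203) (nat_lit 21) .nil)))) .nil))))) (.nd (nat_lit 4) (.nd (nat_lit 5) (.nd (nat_lit 6) 
(.lf (nat_lit 9992) (.g (nat_lit 1781) (.e (nat_lit 351) (nat_lit 28) (.e (nat_lit 393283) (nat_lit 24) (.e (nat_lit 434231) (nat_lit 23) (.e (nat_lit 532575) (nat_lit 17) (.e (nat_lit 6988) (nat_lit 377) (.e (nat_lit 2404) (nat_lit 157) (.e (nat_lit 5629) (nat_lit 312) .nil))))))) (.g (nat_lit 4) .nil .nil))) 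
(.lf (nat_lit 10056) (.g (nat_lit 1708) (.e (nat_lit 352) (nat_lit 28) (.e (nat_lit 393253) (nat_lit 18) (.e (nat_lit 164327) (nat_lit 230) (.e (nat_lit 163861) (nat_lit 1) (.e (nat_lit 164332) (nat_lit 230) .nil))))) .nil))) (.nd (nat_lit 6) 
(.lf (nat_lit 10024) (.g (nat_lit 1663) (.e (nat_lit 351) (nat_lit 28) (.e (nat_lit 393293) (nat_lit 26) (.e (nat_lit 475169) (nat_lit 22) (.e (nat_lit 499791) (nat_lit 3) (.e (nat_lit 164289) (nat_lit 224) (.e (nat_lit 164354) (nat_lit 246) .nil)))))) (.g (nat_lit 0) .nil .nil))) 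
(.lf (nat_lit 10088) (.g (nat_lit 2132) (.e (nat_lit 7936) (nat_lit 28) (.e (nat_lit 393260) (nat_lit 21) (.e (nat_lit 409617) (nat_lit 10) (.e (nat_lit 632) (nat_lit 50) (.e (nat_lit 573487) (nat_lit 14) .nil))))) .nil)))) (.nd (nat_lit 5) (.nd (nat_lit 6) 
(.lf (nat_lit 10008) (.g (nat_lit 2100) (.e (nat_lit 351) (nat_lit 28) (.e (nat_lit 393286) (nat_lit 25) (.e (nat_lit 458789) (nat_lit 23) (.e (nat_lit 532575) (nat_lit 17) (.e (nat_lit 7098) (nat_lit 380) (.e (nat_lit 164358) (nat_lit 246) .nil)))))) (.g (nat_lit 6) .nil .nil))) 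
(.lf (nat_lit 10072) (.g (nat_lit 1092) (.e (nat_lit 352) (nat_lit 28) (.e (nat_lit 393282) (nat_lit 24) (.e (nat_lit 434241) (nat_lit 27) (.e (nat_lit 565268) (nat_lit 5) (.e (nat_lit 81664) (nat_lit 32) .nil))))) (.g (nat_lit 4) .nil .nil)))) (.nd (nat_lit 6) 
(.lf (nat_lit 10040) (.g (nat_lit 669) (.e (nat_lit 351) (nat_lit 28) (.e (nat_lit 393301) (nat_lit 27) (.e (nat_lit 491526) (nat_lit 0) .nil))) .nil)) 
(.lf (nat_lit 10104) (.g (nat_lit 1216) (.e (nat_lit 7936) (nat_lit 28) (.e (nat_lit 393291) (nat_lit 26) (.e (nat_lit 475169) (nat_lit 22) (.e (nat_lit 499791) (nat_lit 3) .nil)))) .nil)))))) (.nd (nat_lit 3) (.nd (nat_lit 4) (.nd (nat_lit 5) (.nd (nat_lit 6) 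
(.lf (nat_lit 9988) (.g (nat_lit 440) (.e (nat_lit 351) (nat_lit 28) (.e (nat_lit 393283) (nat_lit 24) (.e (nat_lit 434223) (nat_lit 19) .nil))) .nil)) 
(.lf (nat_lit 10052) (.g (nat_lit 1570) (.e (nat_lit 352) (nat_lit 28) (.e (nat_lit 393253) (nat_lit 18) (.e (nat_lit 164325) (nat_lit 230) (.e (nat_lit 163864) (nat_lit 1) .nil)))) .nil))) (.nd (nat_lit 6) 
(.lf (nat_lit 10020) (.g (nat_lit 753) (.e (nat_lit 351) (nat_lit 28) (.e (nat_lit 393293) (nat_lit 26) (.e (nat_lit 475169) (nat_lit 22) (.e (nat_lit 499791) (nat_lit 3) .nil)))) .nil)) 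
(.lf (nat_lit 10084) (.g (nat_lit 1291) (.e (nat_lit 7936) (nat_lit 28) (.e (nat_lit 393260) (nat_lit 21) (.e (nat_lit 409616) (nat_lit 10) (.e (nat_lit 632) (nat_lit 50) .nil)))) .nil)))) (.nd (nat_lit 5) (.nd (nat_lit 6) 
(.lf (nat_lit 10004) (.g (nat_lit 1325) (.e (nat_lit 351) (nat_lit 28) (.e (nat_lit 393283) (nat_lit 24) (.e (nat_lit 434241) (nat_lit 27) (.e (nat_lit 565268) (nat_lit 5) (.e (nat_lit 81664) (nat_lit 32) .nil))))) (.g (nat_lit 4) .nil .nil))) 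
(.lf (nat_lit 10068) (.g (nat_lit 1861) (.e (nat_lit 352) (nat_lit 28) (.e (nat_lit 393271) (nat_lit 23) (.e (nat_lit 426131) (nat_lit 3) (.e (nat_lit 212736) (nat_lit 7) .nil)))) .nil))) (.nd (nat_lit 6) 
(.lf (nat_lit 10036) (.g (nat_lit 1524) (.e (nat_lit 351) (nat_lit 28) (.e (nat_lit 393298) (nat_lit 27) (.e (nat_lit 499456) (nat_lit 17) (.e (nat_lit 196668) (nat_lit 14) (.e (nat_lit 81664) (nat_lit 32) .nil))))) (.g (nat_lit 4) .nil .nil))) 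
(.lf (nat_lit 10100) (.g (nat_lit 1239) (.e (nat_lit 7936) (nat_lit 28) (.e (nat_lit 393273) (nat_lit 23) (.e (nat_lit 426428) (nat_lit 17) (.e (nat_lit 98048) (nat_lit 5) .nil)))) .nil))))) (.nd (nat_lit 4) (.nd (nat_lit 5) (.nd (nat_lit 6) 
(.lf (nat_lit 9996) (.g (nat_lit 2365) (.e (nat_lit 351) (nat_lit 28) (.e (nat_lit 393283) (nat_lit 24) (.e (nat_lit 434231) (nat_lit 23) (.e (nat_lit 532575) (nat_lit 17) (.e (nat_lit 7105) (nat_lit 380) (.e (nat_lit 164358) (nat_lit 246) .nil)))))) (.g (nat_lit 0) .nil .nil))) 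
(.lf (nat_lit 10060) (.g (nat_lit 1097) (.e (nat_lit 352) (nat_lit 28) (.e (nat_lit 393260) (nat_lit 21) (.e (nat_lit 409612) (nat_lit 10) .nil))) .nil))) (.nd (nat_lit 6) 
(.lf (nat_lit 10028) (.g (nat_lit 437) (.e (nat_lit 351) (nat_lit 28) (.e (nat_lit 393293) (nat_lit 26) (.e (nat_lit 475172) (nat_lit 22) .nil))) .nil)) 
(.lf (nat_lit 10092) (.g (nat_lit 1007) (.e (nat_lit 7936) (nat_lit 28) (.e (nat_lit 393268) (nat_lit 23) (.e (nat_lit 426432) (nat_lit 17) (.e (nat_lit 90203) (nat_lit 21) (.e (nat_lit 164289) (nat_lit 224) .nil))))) .nil)))) (.nd (nat_lit 5) (.nd (nat_lit 6) 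
(.lf (nat_lit 10012) (.g (nat_lit 1378) (.e (nat_lit 351) (nat_lit 28) (.e (nat_lit 393287) (nat_lit 25) (.e (nat_lit 458789) (nat_lit 23) (.e (nat_lit 532572) (nat_lit 17) .nil)))) .nil)) 
(.lf (nat_lit 10076) (.g (nat_lit 889) (.e (nat_lit 352) (nat_lit 28) (.e (nat_lit 393291) (nat_lit 26) (.e (nat_lit 475169) (nat_lit 22) .nil))) .nil))) (.nd (nat_lit 6) 
(.lf (nat_lit 10044) (.g (nat_lit 517) (.e (nat_lit 351) (nat_lit 28) (.e (nat_lit 393301) (nat_lit 27) (.e (nat_lit 499456) (nat_lit 18) .nil))) .nil)) 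
(.lf (nat_lit 10108) (.g (nat_lit 964) (.e (nat_lit 7936) (nat_lit 28) (.e (nat_lit 393294) (nat_lit 26) (.e (nat_lit 475169) (nat_lit 22) (.e (nat_lit 499791) (nat_lit 3) .nil)))) .nil))))))) (.nd (nat_lit 2) (.nd (nat_lit 3) (.nd (nat_lit 4) (.nd (nat_lit 5) (.nd (nat_lit 6) 
(.lf (nat_lit 9986) (.g (nat_lit 733) (.e (nat_lit 351) (nat_lit 28) (.e (nat_lit 393282) (nat_lit 24) (.e (nat_lit 434233) (nat_lit 23) (.e (nat_lit 532575) (nat_lit 17) .nil)))) .nil)) 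
(.lf (nat_lit 10050) (.g (nat_lit 3580) (.e (nat_lit 352) (nat_lit 28) (.e (nat_lit 393251) (nat_lit 18) (.e (nat_lit 164325) (nat_lit 230) (.e (nat_lit 163864) (nat_lit 1) (.e (nat_lit 164332) (nat_lit 230) (.e (nat_lit 163885) (nat_lit 5) (.e (nat_lit 221219) (nat_lit 24) (.e (nat_lit 213001) (nat_lit 9) .nil)))))))) (.g (nat_lit 8) .nil .nil)))) (.nd (nat_lit 6) 
(.lf (nat_lit 10018) (.g (nat_lit 812) (.e (nat_lit 351) (nat_lit 28) (.e (nat_lit 393293) (nat_lit 26) (.e (nat_lit 475167) (nat_lit 22) (.e (nat_lit 500068) (nat_lit 19) (.e (nat_lit 81664) (nat_lit 32) .nil))))) (.g (nat_lit 4) .nil .nil))) 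
(.lf (nat_lit 10082) (.g (nat_lit 514) (.e (nat_lit 7936) (nat_lit 28) (.e (nat_lit 393229) (nat_lit 9) (.e (nat_lit 336073) (nat_lit 9) .nil))) .nil)))) (.nd (nat_lit 5) (.nd (nat_lit 6) 
(.lf (nat_lit 10002) (.g (nat_lit 439) (.e (nat_lit 351) (nat_lit 28) (.e (nat_lit 393283) (nat_lit 24) (.e (nat_lit 434234) (nat_lit 23) .nil))) .nil)) 
(.lf (nat_lit 10066) (.g (nat_lit 1174) (.e (nat_lit 352) (nat_lit 28) (.e (nat_lit 393268) (nat_lit 23) (.e (nat_lit 426432) (nat_lit 17) .nil))) .nil))) (.nd (nat_lit 6) 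
(.lf (nat_lit 10034) (.g (nat_lit 1462) (.e (nat_lit 351) (nat_lit 28) (.e (nat_lit 393294) (nat_lit 26) (.e (nat_lit 475169) (nat_lit 22) (.e (nat_lit 499791) (nat_lit 3) (.e (nat_lit 164284) (nat_lit 224) (.e (nat_lit 164353) (nat_lit 246) .nil)))))) (.g (nat_lit 4) .nil .nil))) 
(.lf (nat_lit 10098) (.g (nat_lit 890) (.e (nat_lit 7936) (nat_lit 28) (.e (nat_lit 393272) (nat_lit 23) (.e (nat_lit 426432) (nat_lit 17) (.e (nat_lit 90203) (nat_lit 21) (.e (nat_lit 164289) (nat_lit 224) .nil))))) .nil))))) (.nd (nat_lit 4) (.nd (nat_lit 5) (.nd (nat_lit 6) 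
(.lf (nat_lit 9994) (.g (nat_lit 2449) (.e (nat_lit 351) (nat_lit 28) (.e (nat_lit 393283) (nat_lit 24) (.e (nat_lit 434231) (nat_lit 23) (.e (nat_lit 532575) (nat_lit 17) (.e (nat_lit 6988) (nat_lit 377) (.e (nat_lit 7936) (nat_lit 157) (.e (nat_lit 5629) (nat_lit 312) .nil))))))) (.g (nat_lit 5) .nil .nil))) 
(.lf (nat_lit 10058) (.g (nat_lit 1625) (.e (nat_lit 352) (nat_lit 28) (.e (nat_lit 393253) (nat_lit 18) (.e (nat_lit 164332) (nat_lit 230) (.e (nat_lit 163860) (nat_lit 1) .nil)))) .nil))) (.nd (nat_lit 6) 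
(.lf (nat_lit 10026) (.g (nat_lit 1831) (.e (nat_lit 351) (nat_lit 28) (.e (nat_lit 393293) (nat_lit 26) (.e (nat_lit 475169) (nat_lit 22) (.e (nat_lit 499791) (nat_lit 3) (.e (nat_lit 164291) (nat_lit 224) (.e (nat_lit 164353) (nat_lit 246) .nil)))))) (.g (nat_lit 0) .nil .nil))) 
(.lf (nat_lit 10090) (.g (nat_lit 416) (.e (nat_lit 7936) (nat_lit 28) (.e (nat_lit 393268) (nat_lit 23) (.e (nat_lit 426432) (nat_lit 17) .nil))) .nil)))) (.nd (nat_lit 5) (.nd (nat_lit 6) 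
(.lf (nat_lit 10010) (.g (nat_lit 1380) (.e (nat_lit 351) (nat_lit 28) (.e (nat_lit 393286) (nat_lit 25) (.e (nat_lit 458789) (nat_lit 23) (.e (nat_lit 532577) (nat_lit 17) .nil)))) .nil)) 
(.lf (nat_lit 10074) (.g (nat_lit 956) (.e (nat_lit 352) (nat_lit 28) (.e (nat_lit 393284) (nat_lit 24) (.e (nat_lit 434229) (nat_lit 22) (.e (nat_lit 524339) (nat_lit 27) (.e (nat_lit 352000) (nat_lit 0) .nil))))) (.g (nat_lit 4) .nil .nil)))) (.nd (nat_lit 6) 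
(.lf (nat_lit 10042) (.g (nat_lit 3808) (.e (nat_lit 351) (nat_lit 28) (.e (nat_lit 393301) (nat_lit 27) (.e (nat_lit 491577) (nat_lit 15) (.e (nat_lit 3238) (nat_lit 197) (.e (nat_lit 532523) (nat_lit 7) (.e (nat_lit 319490) (nat_lit 0) (.e (nat_lit 5629) (nat_lit 312) .nil))))))) (.g (nat_lit 5) .nil .nil))) 
(.lf (nat_lit 10106) (.g (nat_lit 1364) (.e (nat_lit 7936) (nat_lit 28) (.e (nat_lit 393291) (nat_lit 26) (.e (nat_lit 475169) (nat_lit 22) (.e (nat_lit 499791) (nat_lit 3) (.e (nat_lit 164287) (nat_lit 224) .nil))))) .nil)))))) (.nd (nat_lit 3) (.nd (nat_lit 4) (.nd (nat_lit 5) (.nd (nat_lit 6) 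
(.lf (nat_lit 9990) (.g (nat_lit 1384) (.e (nat_lit 351) (nat_lit 28) (.e (nat_lit 393283) (nat_lit 24) (.e (nat_lit 434231) (nat_lit 23) (.e (nat_lit 532574) (nat_lit 17) .nil)))) .nil)) 
(.lf (nat_lit 10054) (.g (nat_lit 721) (.e (nat_lit 352) (nat_lit 28) (.e (nat_lit 393253) (nat_lit 18) (.e (nat_lit 164326) (nat_lit 230) .nil))) .nil))) (.nd (nat_lit 6) 
(.lf (nat_lit 10022) (.g (nat_lit 1688) (.e (nat_lit 351) (nat_lit 28) (.e (nat_lit 393293) (nat_lit 26) (.e (nat_lit 475169) (nat_lit 22) (.e (nat_lit 499791) (nat_lit 3) (.e (nat_lit 164287) (nat_lit 224) (.e (nat_lit 164354) (nat_lit 246) .nil)))))) (.g (nat_lit 0) .nil .nil))) 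
(.lf (nat_lit 10086) (.g (nat_lit 1756) (.e (nat_lit 7936) (nat_lit 28) (.e (nat_lit 393260) (nat_lit 21) (.e (nat_lit 409616) (nat_lit 10) (.e (nat_lit 632) (nat_lit 50) (.e (nat_lit 573489) (nat_lit 14) .nil))))) .nil)))) (.nd (nat_lit 5) (.nd (nat_lit 6) 
(.lf (nat_lit 10006) (.g (nat_lit 1370) (.e (nat_lit 351) (nat_lit 28) (.e (nat_lit 393286) (nat_lit 25) (.e (nat_lit 458789) (nat_lit 23) (.e (nat_lit 532572) (nat_lit 17) .nil)))) .nil)) 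
(.lf (nat_lit 10070) (.g (nat_lit 2150) (.e (nat_lit 352) (nat_lit 28) (.e (nat_lit 393271) (nat_lit 23) (.e (nat_lit 426432) (nat_lit 17) (.e (nat_lit 98048) (nat_lit 5) .nil)))) .nil))) (.nd (nat_lit 6) 
(.lf (nat_lit 10038) (.g (nat_lit 1346) (.e (nat_lit 351) (nat_lit 28) (.e (nat_lit 393300) (nat_lit 27) (.e (nat_lit 499456) (nat_lit 17) (.e (nat_lit 196668) (nat_lit 14) (.e (nat_lit 81664) (nat_lit 32) .nil))))) (.g (nat_lit 4) .nil .nil))) 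
(.lf (nat_lit 10102) (.g (nat_lit 1234) (.e (nat_lit 7936) (nat_lit 28) (.e (nat_lit 393273) (nat_lit 23) (.e (nat_lit 426432) (nat_lit 17) (.e (nat_lit 90203) (nat_lit 21) .nil)))) .nil))))) (.nd (nat_lit 4) (.nd (nat_lit 5) (.nd (nat_lit 6) 
(.lf (nat_lit 9998) (.g (nat_lit 1891) (.e (nat_lit 351) (nat_lit 28) (.e (nat_lit 393283) (nat_lit 24) (.e (nat_lit 434231) (nat_lit 23) (.e (nat_lit 532576) (nat_lit 17) (.e (nat_lit 7095) (nat_lit 380) (.e (nat_lit 164358) (nat_lit 246) .nil)))))) (.g (nat_lit 4) .nil .nil))) 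
(.lf (nat_lit 10062) (.g (nat_lit 2073) (.e (nat_lit 352) (nat_lit 28) (.e (nat_lit 393260) (nat_lit 21) (.e (nat_lit 409616) (nat_lit 10) (.e (nat_lit 632) (nat_lit 50) (.e (nat_lit 573488) (nat_lit 14) (.e (nat_lit 81664) (nat_lit 32) .nil)))))) (.g (nat_lit 4) .nil .nil)))) (.nd (nat_lit 6) 
(.lf (nat_lit 10030) (.g (nat_lit 335) (.e (nat_lit 351) (nat_lit 28) (.e (nat_lit 393293) (nat_lit 26) (.e (nat_lit 483072) (nat_lit 26) .nil))) .nil)) 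
(.lf (nat_lit 10094) (.g (nat_lit 602) (.e (nat_lit 7936) (nat_lit 28) (.e (nat_lit 393271) (nat_lit 23) (.e (nat_lit 426432) (nat_lit 17) (.e (nat_lit 90203) (nat_lit 21) (.e (nat_lit 164289) (nat_lit 224) .nil))))) .nil)))) (.nd (nat_lit 5) (.nd (nat_lit 6) 
(.lf (nat_lit 10014) (.g (nat_lit 2029) (.e (nat_lit 351) (nat_lit 28) (.e (nat_lit 393287) (nat_lit 25) (.e (nat_lit 458789) (nat_lit 23) (.e (nat_lit 532575) (nat_lit 17) (.e (nat_lit 7105) (nat_lit 380) (.e (nat_lit 164358) (nat_lit 246) .nil)))))) (.g (nat_lit 0) .nil .nil))) 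
(.lf (nat_lit 10078) (.g (nat_lit 1168) (.e (nat_lit 352) (nat_lit 28) (.e (nat_lit 393300) (nat_lit 27) (.e (nat_lit 499456) (nat_lit 17) (.e (nat_lit 196668) (nat_lit 14) (.e (nat_lit 81664) (nat_lit 32) .nil))))) .nil))) (.nd (nat_lit 6) 
(.lf (nat_lit 10046) (.g (nat_lit 1392) (.e (nat_lit 351) (nat_lit 28) (.e (nat_lit 393301) (nat_lit 27) (.e (nat_lit 499456) (nat_lit 18) (.e (nat_lit 204848) (nat_lit 25) (.e (nat_lit 327687) (nat_lit 0) (.e (nat_lit 5638) (nat_lit 312) .nil)))))) (.g (nat_lit 4) .nil .nil))) 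
(.lf (nat_lit 10110) (.g (nat_lit 1089) (.e (nat_lit 7936) (nat_lit 28) (.e (nat_lit 393294) (nat_lit 26) (.e (nat_lit 475169) (nat_lit 22) (.e (nat_lit 499791) (nat_lit 3) (.e (nat_lit 164287) (nat_lit 224) .nil))))) .nil)))))))) (.nd (nat_lit 1) (.nd (nat_lit 2) (.nd (nat_lit 3) (.nd (nat_lit 4) (.nd (nat_lit 5) (.nd (nat_lit 6) 
(.lf (nat_lit 9985) (.g (nat_lit 1298) (.e (nat_lit 351) (nat_lit 28) (.e (nat_lit 393282) (nat_lit 24) (.e (nat_lit 434231) (nat_lit 23) (.e (nat_lit 532576) (nat_lit 17) .nil)))) .nil)) 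
(.lf (nat_lit 10049) (.g (nat_lit 3680) (.e (nat_lit 352) (nat_lit 28) (.e (nat_lit 393251) (nat_lit 18) (.e (nat_lit 164325) (nat_lit 230) (.e (nat_lit 163864) (nat_lit 1) (.e (nat_lit 164332) (nat_lit 230) (.e (nat_lit 163885) (nat_lit 5) (.e (nat_lit 221219) (nat_lit 24) (.e (nat_lit 213000) (nat_lit 9) .nil)))))))) (.g (nat_lit 0) .nil .nil)))) (.nd (nat_lit 6) 
(.lf (nat_lit 10017) (.g (nat_lit 1912) (.e (nat_lit 351) (nat_lit 28) (.e (nat_lit 393291) (nat_lit 26) (.e (nat_lit 475169) (nat_lit 22) (.e (nat_lit 499791) (nat_lit 3) (.e (nat_lit 164284) (nat_lit 224) (.e (nat_lit 164353) (nat_lit 246) .nil)))))) (.g (nat_lit 4) .nil .nil))) 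
(.lf (nat_lit 10081) (.g (nat_lit 774) (.e (nat_lit 7936) (nat_lit 28) (.e (nat_lit 393225) (nat_lit 9) (.e (nat_lit 336174) (nat_lit 10) .nil))) .nil)))) (.nd (nat_lit 5) (.nd (nat_lit 6) 
(.lf (nat_lit 10001) (.g (nat_lit 1037) (.e (nat_lit 351) (nat_lit 28) (.e (nat_lit 393283) (nat_lit 24) (.e (nat_lit 434231) (nat_lit 23) (.e (nat_lit 540416) (nat_lit 24) .nil)))) .nil)) 
(.lf (nat_lit 10065) (.g (nat_lit 2586) (.e (nat_lit 352) (nat_lit 28) (.e (nat_lit 393260) (nat_lit 21) (.e (nat_lit 409617) (nat_lit 10) (.e (nat_lit 632) (nat_lit 50) (.e (nat_lit 573488) (nat_lit 14) .nil))))) .nil))) (.nd (nat_lit 6) 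
(.lf (nat_lit 10033) (.g (nat_lit 989) (.e (nat_lit 351) (nat_lit 28) (.e (nat_lit 393294) (nat_lit 26) (.e (nat_lit 475169) (nat_lit 22) (.e (nat_lit 499791) (nat_lit 3) .nil)))) .nil)) 
(.lf (nat_lit 10097) (.g (nat_lit 883) (.e (nat_lit 7936) (nat_lit 28) (.e (nat_lit 393272) (nat_lit 23) (.e (nat_lit 426432) (nat_lit 17) (.e (nat_lit 90203) (nat_lit 21) (.e (nat_lit 164287) (nat_lit 224) .nil))))) .nil))))) (.nd (nat_lit 4) (.nd (nat_lit 5) (.nd (nat_lit 6) 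
(.lf (nat_lit 9993) (.g (nat_lit 1781) (.e (nat_lit 351) (nat_lit 28) (.e (nat_lit 393283) (nat_lit 24) (.e (nat_lit 434231) (nat_lit 23) (.e (nat_lit 532575) (nat_lit 17) (.e (nat_lit 6988) (nat_lit 377) (.e (nat_lit 2506) (nat_lit 157) (.e (nat_lit 5629) (nat_lit 312) .nil))))))) (.g (nat_lit 4) .nil .nil))) 
(.lf (nat_lit 10057) (.g (nat_lit 2128) (.e (nat_lit 352) (nat_lit 28) (.e (nat_lit 393253) (nat_lit 18) (.e (nat_lit 164327) (nat_lit 230) (.e (nat_lit 163864) (nat_lit 1) (.e (nat_lit 164332) (nat_lit 230) .nil))))) .nil))) (.nd (nat_lit 6) 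
(.lf (nat_lit 10025) (.g (nat_lit 1822) (.e (nat_lit 351) (nat_lit 28) (.e (nat_lit 393293) (nat_lit 26) (.e (nat_lit 475169) (nat_lit 22) (.e (nat_lit 499791) (nat_lit 3) (.e (nat_lit 164289) (nat_lit 224) (.e (nat_lit 164358) (nat_lit 246) .nil)))))) (.g (nat_lit 0) .nil .nil))) 
(.lf (nat_lit 10089) (.g (nat_lit 498) (.e (nat_lit 7936) (nat_lit 28) (.e (nat_lit 393268) (nat_lit 23) (.e (nat_lit 426428) (nat_lit 17) .nil))) .nil)))) (.nd (nat_lit 5) (.nd (nat_lit 6) 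
(.lf (nat_lit 10009) (.g (nat_lit 2054) (.e (nat_lit 351) (nat_lit 28) (.e (nat_lit 393286) (nat_lit 25) (.e (nat_lit 458789) (nat_lit 23) (.e (nat_lit 532575) (nat_lit 17) (.e (nat_lit 7105) (nat_lit 380) (.e (nat_lit 164358) (nat_lit 246) .nil)))))) (.g (nat_lit 0) .nil .nil))) 
(.lf (nat_lit 10073) (.g (nat_lit 501) (.e (nat_lit 352) (nat_lit 28) (.e (nat_lit 393283) (nat_lit 24) (.e (nat_lit 434229) (nat_lit 22) .nil))) .nil))) (.nd (nat_lit 6) 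
(.lf (nat_lit 10041) (.g (nat_lit 688) (.e (nat_lit 351) (nat_lit 28) (.e (nat_lit 393301) (nat_lit 27) (.e (nat_lit 491560) (nat_lit 10) .nil))) .nil)) 
(.lf (nat_lit 10105) (.g (nat_lit 1414) (.e (nat_lit 7936) (nat_lit 28) (.e (nat_lit 393291) (nat_lit 26) (.e (nat_lit 475169) (nat_lit 22) (.e (nat_lit 499791) (nat_lit 3) (.e (nat_lit 164284) (nat_lit 224) .nil))))) .nil)))))) (.nd (nat_lit 3) (.nd (nat_lit 4) (.nd (nat_lit 5) (.nd (nat_lit 6) 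
(.lf (nat_lit 9989) (.g (nat_lit 1285) (.e (nat_lit 351) (nat_lit 28) (.e (nat_lit 393283) (nat_lit 24) (.e (nat_lit 434229) (nat_lit 22) (.e (nat_lit 524339) (nat_lit 27) (.e (nat_lit 352000) (nat_lit 0) .nil))))) (.g (nat_lit 4) .nil .nil))) 
(.lf (nat_lit 10053) (.g (nat_lit 2925) (.e (nat_lit 352) (nat_lit 28) (.e (nat_lit 393253) (nat_lit 18) (.e (nat_lit 164325) (nat_lit 230) (.e (nat_lit 163864) (nat_lit 1) (.e (nat_lit 164332) (nat_lit 230) (.e (nat_lit 163885) (nat_lit 5) (.e (nat_lit 221219) (nat_lit 24) (.e (nat_lit 213000) (nat_lit 9) .nil)))))))) (.g (nat_lit 6) .nil .nil)))) (.nd (nat_lit 6) 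
(.lf (nat_lit 10021) (.g (nat_lit 1647) (.e (nat_lit 351) (nat_lit 28) (.e (nat_lit 393293) (nat_lit 26) (.e (nat_lit 475169) (nat_lit 22) (.e (nat_lit 499791) (nat_lit 3) (.e (nat_lit 164286) (nat_lit 224) (.e (nat_lit 164354) (nat_lit 246) .nil)))))) (.g (nat_lit 0) .nil .nil))) 
(.lf (nat_lit 10085) (.g (nat_lit 1970) (.e (nat_lit 7936) (nat_lit 28) (.e (nat_lit 393260) (nat_lit 21) (.e (nat_lit 409616) (nat_lit 10) (.e (nat_lit 632) (nat_lit 50) (.e (nat_lit 573487) (nat_lit 14) .nil))))) .nil)))) (.nd (nat_lit 5) (.nd (nat_lit 6) 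
(.lf (nat_lit 10005) (.g (nat_lit 1521) (.e (nat_lit 351) (nat_lit 28) (.e (nat_lit 393283) (nat_lit 24) (.e (nat_lit 434248) (nat_lit 28) (.e (nat_lit 581376) (nat_lit 19) .nil)))) .nil)) 
(.lf (nat_lit 10069) (.g (nat_lit 1164) (.e (nat_lit 352) (nat_lit 28) (.e (nat_lit 393271) (nat_lit 23) (.e (nat_lit 426432) (nat_lit 17) .nil))) .nil))) (.nd (nat_lit 6) 
(.lf (nat_lit 10037) (.g (nat_lit 722) (.e (nat_lit 351) (nat_lit 28) (.e (nat_lit 393298) (nat_lit 27) (.e (nat_lit 499456) (nat_lit 18) .nil))) .nil)) 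
(.lf (nat_lit 10101) (.g (nat_lit 493) (.e (nat_lit 7936) (nat_lit 28) (.e (nat_lit 393273) (nat_lit 23) (.e (nat_lit 426432) (nat_lit 17) .nil))) .nil))))) (.nd (nat_lit 4) (.nd (nat_lit 5) (.nd (nat_lit 6) 
(.lf (nat_lit 9997) (.g (nat_lit 1400) (.e (nat_lit 351) (nat_lit 28) (.e (nat_lit 393283) (nat_lit 24) (.e (nat_lit 434231) (nat_lit 23) (.e (nat_lit 532576) (nat_lit 17) .nil)))) .nil)) 
(.lf (nat_lit 10061) (.g (nat_lit 796) (.e (nat_lit 352) (nat_lit 28) (.e (nat_lit 393260) (nat_lit 21) (.e (nat_lit 409615) (nat_lit 10) .nil))) .nil))) (.nd (nat_lit 6) 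
(.lf (nat_lit 10029) (.g (nat_lit 703) (.e (nat_lit 351) (nat_lit 28) (.e (nat_lit 393293) (nat_lit 26) (.e (nat_lit 483072) (nat_lit 22) (.e (nat_lit 500068) (nat_lit 19) (.e (nat_lit 81664) (nat_lit 32) .nil))))) (.g (nat_lit 4) .nil .nil))) 
(.lf (nat_lit 10093) (.g (nat_lit 1193) (.e (nat_lit 7936) (nat_lit 28) (.e (nat_lit 393271) (nat_lit 23) (.e (nat_lit 426428) (nat_lit 17) (.e (nat_lit 98048) (nat_lit 5) .nil)))) .nil)))) (.nd (nat_lit 5) (.nd (nat_lit 6) 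
(.lf (nat_lit 10013) (.g (nat_lit 745) (.e (nat_lit 351) (nat_lit 28) (.e (nat_lit 393287) (nat_lit 25) (.e (nat_lit 458789) (nat_lit 23) (.e (nat_lit 532575) (nat_lit 17) .nil)))) .nil)) 
(.lf (nat_lit 10077) (.g (nat_lit 1359) (.e (nat_lit 352) (nat_lit 28) (.e (nat_lit 393294) (nat_lit 26) (.e (nat_lit 483072) (nat_lit 26) (.e (nat_lit 532544) (nat_lit 10) (.e (nat_lit 352000) (nat_lit 0) .nil))))) .nil))) (.nd (nat_lit 6) 
(.lf (nat_lit 10045) (.g (nat_lit 1470) (.e (nat_lit 351) (nat_lit 28) (.e (nat_lit 393301) (nat_lit 27) (.e (nat_lit 499456) (nat_lit 18) (.e (nat_lit 204848) (nat_lit 25) (.e (nat_lit 327680) (nat_lit 0) (.e (nat_lit 5638) (nat_lit 312) .nil)))))) (.g (nat_lit 5) .nil .nil))) 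
(.lf (nat_lit 10109) (.g (nat_lit 1129) (.e (nat_lit 7936) (nat_lit 28) (.e (nat_lit 393294) (nat_lit 26) (.e (nat_lit 475169) (nat_lit 22) (.e (nat_lit 499791) (nat_lit 3) (.e (nat_lit 164284) (nat_lit 224) .nil))))) .nil))))))) (.nd (nat_lit 2) (.nd (nat_lit 3) (.nd (nat_lit 4) (.nd (nat_lit 5) (.nd (nat_lit 6) 
(.lf (nat_lit 9987) (.g (nat_lit 1101) (.e (nat_lit 351) (nat_lit 28) (.e (nat_lit 393282) (nat_lit 24) (.e (nat_lit 434233) (nat_lit 23) (.e (nat_lit 532575) (nat_lit 17) (.e (nat_lit 7096) (nat_lit 380) .nil))))) .nil)) 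
(.lf (nat_lit 10051) (.g (nat_lit 1792) (.e (nat_lit 352) (nat_lit 28) (.e (nat_lit 393251) (nat_lit 18) (.e (nat_lit 164399) (nat_lit 256) (.e (nat_lit 57372) (nat_lit 2) .nil)))) .nil))) (.nd (nat_lit 6) 
(.lf (nat_lit 10019) (.g (nat_lit 437) (.e (nat_lit 351) (nat_lit 28) (.e (nat_lit 393293) (nat_lit 26) (.e (nat_lit 475168) (nat_lit 22) .nil))) .nil)) 
(.lf (nat_lit 10083) (.g (nat_lit 897) (.e (nat_lit 7936) (nat_lit 28) (.e (nat_lit 393229) (nat_lit 9) (.e (nat_lit 336163) (nat_lit 10) (.e (nat_lit 344133) (nat_lit 26) .nil)))) .nil)))) (.nd (nat_lit 5) (.nd (nat_lit 6) 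
(.lf (nat_lit 10003) (.g (nat_lit 607) (.e (nat_lit 351) (nat_lit 28) (.e (nat_lit 393283) (nat_lit 24) (.e (nat_lit 434234) (nat_lit 23) (.e (nat_lit 540416) (nat_lit 24) .nil)))) .nil)) 
(.lf (nat_lit 10067) (.g (nat_lit 1993) (.e (nat_lit 352) (nat_lit 28) (.e (nat_lit 393271) (nat_lit 23) (.e (nat_lit 426131) (nat_lit 3) (.e (nat_lit 204805) (nat_lit 0) (.e (nat_lit 7098) (nat_lit 380) .nil))))) .nil))) (.nd (nat_lit 6) 
(.lf (nat_lit 10035) (.g (nat_lit 1047) (.e (nat_lit 351) (nat_lit 28) (.e (nat_lit 393296) (nat_lit 26) (.e (nat_lit 475169) (nat_lit 22) .nil))) .nil)) 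
(.lf (nat_lit 10099) (.g (nat_lit 447) (.e (nat_lit 7936) (nat_lit 28) (.e (nat_lit 393273) (nat_lit 23) (.e (nat_lit 426364) (nat_lit 15) .nil))) .nil))))) (.nd (nat_lit 4) (.nd (nat_lit 5) (.nd (nat_lit 6) 
(.lf (nat_lit 9995) (.g (nat_lit 2536) (.e (nat_lit 351) (nat_lit 28) (.e (nat_lit 393283) (nat_lit 24) (.e (nat_lit 434231) (nat_lit 23) (.e (nat_lit 532575) (nat_lit 17) (.e (nat_lit 7105) (nat_lit 380) (.e (nat_lit 164356) (nat_lit 246) .nil)))))) (.g (nat_lit 0) .nil .nil))) 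
(.lf (nat_lit 10059) (.g (nat_lit 2030) (.e (nat_lit 352) (nat_lit 28) (.e (nat_lit 393253) (nat_lit 18) (.e (nat_lit 164332) (nat_lit 230) (.e (nat_lit 163862) (nat_lit 1) (.e (nat_lit 164332) (nat_lit 230) .nil))))) .nil))) (.nd (nat_lit 6) 
(.lf (nat_lit 10027) (.g (nat_lit 1808) (.e (nat_lit 351) (nat_lit 28) (.e (nat_lit 393293) (nat_lit 26) (.e (nat_lit 475169) (nat_lit 22) (.e (nat_lit 499791) (nat_lit 3) (.e (nat_lit 164294) (nat_lit 224) (.e (nat_lit 164353) (nat_lit 246) .nil)))))) (.g (nat_lit 0) .nil .nil))) 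
(.lf (nat_lit 10091) (.g (nat_lit 852) (.e (nat_lit 7936) (nat_lit 28) (.e (nat_lit 393268) (nat_lit 23) (.e (nat_lit 426432) (nat_lit 17) (.e (nat_lit 90203) (nat_lit 21) .nil)))) .nil)))) (.nd (nat_lit 5) (.nd (nat_lit 6) 
(.lf (nat_lit 10011) (.g (nat_lit 735) (.e (nat_lit 351) (nat_lit 28) (.e (nat_lit 393286) (nat_lit 25) (.e (nat_lit 458789) (nat_lit 23) (.e (nat_lit 540416) (nat_lit 24) .nil)))) .nil)) 
(.lf (nat_lit 10075) (.g (nat_lit 1048) (.e (nat_lit 352) (nat_lit 28) (.e (nat_lit 393284) (nat_lit 24) (.e (nat_lit 434241) (nat_lit 27) (.e (nat_lit 565268) (nat_lit 5) (.e (nat_lit 81664) (nat_lit 32) .nil))))) (.g (nat_lit 4) .nil .nil)))) (.nd (nat_lit 6) 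
(.lf (nat_lit 10043) (.g (nat_lit 1439) (.e (nat_lit 351) (nat_lit 28) (.e (nat_lit 393301) (nat_lit 27) (.e (nat_lit 499456) (nat_lit 17) (.e (nat_lit 196668) (nat_lit 14) (.e (nat_lit 81664) (nat_lit 32) .nil))))) (.g (nat_lit 4) .nil .nil))) 
(.lf (nat_lit 10107) (.g (nat_lit 260) (.e (nat_lit 7936) (nat_lit 28) (.e (nat_lit 393293) (nat_lit 26) (.e (nat_lit 483072) (nat_lit 26) .nil))) .nil)))))) (.nd (nat_lit 3) (.nd (nat_lit 4) (.nd (nat_lit 5) (.nd (nat_lit 6) 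
(.lf (nat_lit 9991) (.g (nat_lit 913) (.e (nat_lit 351) (nat_lit 28) (.e (nat_lit 393283) (nat_lit 24) (.e (nat_lit 434231) (nat_lit 23) (.e (nat_lit 532575) (nat_lit 17) .nil)))) .nil)) 
(.lf (nat_lit 10055) (.g (nat_lit 1722) (.e (nat_lit 352) (nat_lit 28) (.e (nat_lit 393253) (nat_lit 18) (.e (nat_lit 164326) (nat_lit 230) (.e (nat_lit 163864) (nat_lit 1) (.e (nat_lit 164332) (nat_lit 230) .nil))))) .nil))) (.nd (nat_lit 6) 
(.lf (nat_lit 10023) (.g (nat_lit 1675) (.e (nat_lit 351) (nat_lit 28) (.e (nat_lit 393293) (nat_lit 26) (.e (nat_lit 475169) (nat_lit 22) (.e (nat_lit 499791) (nat_lit 3) (.e (nat_lit 164288) (nat_lit 224) (.e (nat_lit 164354) (nat_lit 246) .nil)))))) (.g (nat_lit 0) .nil .nil))) 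
(.lf (nat_lit 10087) (.g (nat_lit 1339) (.e (nat_lit 7936) (nat_lit 28) (.e (nat_lit 393260) (nat_lit 21) (.e (nat_lit 409617) (nat_lit 10) (.e (nat_lit 632) (nat_lit 50) .nil)))) .nil)))) (.nd (nat_lit 5) (.nd (nat_lit 6) 
(.lf (nat_lit 10007) (.g (nat_lit 766) (.e (nat_lit 351) (nat_lit 28) (.e (nat_lit 393286) (nat_lit 25) (.e (nat_lit 458789) (nat_lit 23) (.e (nat_lit 532575) (nat_lit 17) .nil)))) .nil)) 
(.lf (nat_lit 10071) (.g (nat_lit 427) (.e (nat_lit 352) (nat_lit 28) (.e (nat_lit 393282) (nat_lit 24) (.e (nat_lit 434229) (nat_lit 22) .nil))) .nil))) (.nd (nat_lit 6) 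
(.lf (nat_lit 10039) (.g (nat_lit 462) (.e (nat_lit 351) (nat_lit 28) (.e (nat_lit 393300) (nat_lit 27) (.e (nat_lit 499456) (nat_lit 18) .nil))) .nil)) 
(.lf (nat_lit 10103) (.g (nat_lit 623) (.e (nat_lit 7936) (nat_lit 28) (.e (nat_lit 393284) (nat_lit 24) (.e (nat_lit 434229) (nat_lit 22) (.e (nat_lit 524339) (nat_lit 27) .nil)))) .nil))))) (.nd (nat_lit 4) (.nd (nat_lit 5) (.nd (nat_lit 6) 
(.lf (nat_lit 9999) (.g (nat_lit 1904) (.e (nat_lit 351) (nat_lit 28) (.e (nat_lit 393283) (nat_lit 24) (.e (nat_lit 434231) (nat_lit 23) (.e (nat_lit 532576) (nat_lit 17) (.e (nat_lit 7103) (nat_lit 380) (.e (nat_lit 164358) (nat_lit 246) .nil)))))) (.g (nat_lit 4) .nil .nil))) 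
(.lf (nat_lit 10063) (.g (nat_lit 2835) (.e (nat_lit 352) (nat_lit 28) (.e (nat_lit 393260) (nat_lit 21) (.e (nat_lit 409616) (nat_lit 10) (.e (nat_lit 632) (nat_lit 50) (.e (nat_lit 573489) (nat_lit 14) (.e (nat_lit 81664) (nat_lit 32) .nil)))))) (.g (nat_lit 5) .nil .nil)))) (.nd (nat_lit 6) 
(.lf (nat_lit 10031) (.g (nat_lit 1127) (.e (nat_lit 351) (nat_lit 28) (.e (nat_lit 393293) (nat_lit 26) (.e (nat_lit 483072) (nat_lit 26) (.e (nat_lit 532544) (nat_lit 10) (.e (nat_lit 352000) (nat_lit 0) .nil))))) (.g (nat_lit 4) .nil .nil))) 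
(.lf (nat_lit 10095) (.g (nat_lit 834) (.e (nat_lit 7936) (nat_lit 28) (.e (nat_lit 393272) (nat_lit 23) (.e (nat_lit 426432) (nat_lit 17) (.e (nat_lit 98048) (nat_lit 5) .nil)))) .nil)))) (.nd (nat_lit 5) (.nd (nat_lit 6) 
(.lf (nat_lit 10015) (.g (nat_lit 1387) (.e (nat_lit 351) (nat_lit 28) (.e (nat_lit 393287) (nat_lit 25) (.e (nat_lit 458789) (nat_lit 23) (.e (nat_lit 532577) (nat_lit 17) .nil)))) .nil)) 
(.lf (nat_lit 10079) (.g (nat_lit 1215) (.e (nat_lit 352) (nat_lit 28) (.e (nat_lit 393301) (nat_lit 27) (.e (nat_lit 499456) (nat_lit 17) (.e (nat_lit 196668) (nat_lit 14) (.e (nat_lit 81664) (nat_lit 32) .nil))))) .nil))) (.nd (nat_lit 6) 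
(.lf (nat_lit 10047) (.g (nat_lit 810) (.e (nat_lit 352) (nat_lit 28) (.e (nat_lit 393251) (nat_lit 18) (.e (nat_lit 164325) (nat_lit 230) .nil))) .nil)) 
(.lf (nat_lit 10111) (.g (nat_lit 1065) (.e (nat_lit 7936) (nat_lit 28) (.e (nat_lit 393294) (nat_lit 26) (.e (nat_lit 475169) (nat_lit 22) (.e (nat_lit 507648) (nat_lit 19) .nil)))) .nil)))))))))

noncomputable def tv137 : DT := (.nd (nat_lit 0) (.nd (nat_lit 1) (.nd (nat_lit 2) (.nd (nat_lit 3) (.nd (nat_lit 4) (.nd (nat_lit 5) (.nd (nat_lit 6) 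
(.lf (nat_lit 10112) (.g (nat_lit 860) (.e (nat_lit 7936) (nat_lit 28) (.e (nat_lit 393296) (nat_lit 26) (.e (nat_lit 475169) (nat_lit 22) (.e (nat_lit 499791) (nat_lit 3) .nil)))) .nil)) 
(.lf (nat_lit 10176) (.g (nat_lit 1736) (.e (nat_lit 353) (nat_lit 29) (.e (nat_lit 401457) (nat_lit 13) (.e (nat_lit 483413) (nat_lit 27) (.e (nat_lit 401446) (nat_lit 10) .nil)))) .nil))) (.nd (nat_lit 6) 
(.lf (nat_lit 10144) (.g (nat_lit 2088) (.e (nat_lit 353) (nat_lit 29) (.e (nat_lit 401453) (nat_lit 12) (.e (nat_lit 475178) (nat_lit 24) (.e (nat_lit 516129) (nat_lit 3) (.e (nat_lit 229120) (nat_lit 12) .nil))))) .nil)) 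
(.lf (nat_lit 10208) (.g (nat_lit 2556) (.e (nat_lit 354) (nat_lit 29) (.e (nat_lit 401454) (nat_lit 12) (.e (nat_lit 475185) (nat_lit 29) (.e (nat_lit 557101) (nat_lit 13) .nil)))) .nil)))) (.nd (nat_lit 5) (.nd (nat_lit 6) 
(.lf (nat_lit 10128) (.g (nat_lit 2736) (.e (nat_lit 353) (nat_lit 29) (.e (nat_lit 401434) (nat_lit 9) (.e (nat_lit 426140) (nat_lit 3) (.e (nat_lit 204863) (nat_lit 27) (.e (nat_lit 344161) (nat_lit 37) .nil))))) .nil)) 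
(.lf (nat_lit 10192) (.g (nat_lit 1002) (.e (nat_lit 353) (nat_lit 29) (.e (nat_lit 401459) (nat_lit 13) (.e (nat_lit 483344) (nat_lit 17) .nil))) .nil))) (.nd (nat_lit 6) 
(.lf (nat_lit 10160) (.g (nat_lit 2170) (.e (nat_lit 353) (nat_lit 29) (.e (nat_lit 401454) (nat_lit 12) (.e (nat_lit 475179) (nat_lit 24) (.e (nat_lit 516131) (nat_lit 3) (.e (nat_lit 229120) (nat_lit 12) .nil))))) .nil)) 
(.lf (nat_lit 10224) (.g (nat_lit 2935) (.e (nat_lit 354) (nat_lit 29) (.e (nat_lit 401459) (nat_lit 13) (.e (nat_lit 483411) (nat_lit 27) (.e (nat_lit 401448) (nat_lit 10) (.e (nat_lit 442112) (nat_lit 44) .nil))))) .nil))))) (.nd (nat_lit 4) (.nd (nat_lit 5) (.nd (nat_lit 6) 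
(.lf (nat_lit 10120) (.g (nat_lit 523) (.e (nat_lit 7936) (nat_lit 28) (.e (nat_lit 393300) (nat_lit 27) (.e (nat_lit 499456) (nat_lit 17) .nil))) .nil)) 
(.lf (nat_lit 10184) (.g (nat_lit 4223) (.e (nat_lit 353) (nat_lit 29) (.e (nat_lit 401457) (nat_lit 13) (.e (nat_lit 483413) (nat_lit 27) (.e (nat_lit 401448) (nat_lit 10) (.e (nat_lit 434207) (nat_lit 18) .nil))))) .nil))) (.nd (nat_lit 6) 
(.lf (nat_lit 10152) (.g (nat_lit 3075) (.e (nat_lit 353) (nat_lit 29) (.e (nat_lit 401454) (nat_lit 12) (.e (nat_lit 475177) (nat_lit 24) (.e (nat_lit 516097) (nat_lit 0) (.e (nat_lit 3783) (nat_lit 230) .nil))))) .nil)) 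
(.lf (nat_lit 10216) (.g (nat_lit 1842) (.e (nat_lit 354) (nat_lit 29) (.e (nat_lit 401457) (nat_lit 13) (.e (nat_lit 483413) (nat_lit 27) (.e (nat_lit 401448) (nat_lit 10) .nil)))) .nil)))) (.nd (nat_lit 5) (.nd (nat_lit 6) 
(.lf (nat_lit 10136) (.g (nat_lit 1331) (.e (nat_lit 353) (nat_lit 29) (.e (nat_lit 401451) (nat_lit 12) (.e (nat_lit 475177) (nat_lit 24) .nil))) .nil)) 
(.lf (nat_lit 10200) (.g (nat_lit 3471) (.e (nat_lit 353) (nat_lit 29) (.e (nat_lit 401459) (nat_lit 13) (.e (nat_lit 483372) (nat_lit 21) (.e (nat_lit 319534) (nat_lit 16) .nil)))) .nil))) (.nd (nat_lit 6) 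
(.lf (nat_lit 10168) (.g (nat_lit 2770) (.e (nat_lit 353) (nat_lit 29) (.e (nat_lit 401454) (nat_lit 12) (.e (nat_lit 475210) (nat_lit 41) (.e (nat_lit 712755) (nat_lit 30) (.e (nat_lit 450590) (nat_lit 12) .nil))))) .nil)) 
(.lf (nat_lit 10232) (.g (nat_lit 3914) (.e (nat_lit 355) (nat_lit 29) (.e (nat_lit 401454) (nat_lit 12) (.e (nat_lit 475185) (nat_lit 29) (.e (nat_lit 557100) (nat_lit 13) (.e (nat_lit 172113) (nat_lit 10) .nil))))) .nil)))))) (.nd (nat_lit 3) (.nd (nat_lit 4) (.nd (nat_lit 5) (.nd (nat_lit 6) 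
(.lf (nat_lit 10116) (.g (nat_lit 796) (.e (nat_lit 7936) (nat_lit 28) (.e (nat_lit 393296) (nat_lit 26) (.e (nat_lit 483072) (nat_lit 26) (.e (nat_lit 532553) (nat_lit 13) (.e (nat_lit 368640) (nat_lit 0) .nil))))) .nil)) 
(.lf (nat_lit 10180) (.g (nat_lit 3817) (.e (nat_lit 353) (nat_lit 29) (.e (nat_lit 401457) (nat_lit 13) (.e (nat_lit 483413) (nat_lit 27) (.e (nat_lit 401447) (nat_lit 10) (.e (nat_lit 434203) (nat_lit 18) .nil))))) .nil))) (.nd (nat_lit 6) 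
(.lf (nat_lit 10148) (.g (nat_lit 1271) (.e (nat_lit 353) (nat_lit 29) (.e (nat_lit 401454) (nat_lit 12) (.e (nat_lit 475176) (nat_lit 24) .nil))) .nil)) 
(.lf (nat_lit 10212) (.g (nat_lit 3669) (.e (nat_lit 354) (nat_lit 29) (.e (nat_lit 401456) (nat_lit 13) (.e (nat_lit 483413) (nat_lit 27) (.e (nat_lit 401448) (nat_lit 10) (.e (nat_lit 434290) (nat_lit 44) (.e (nat_lit 704512) (nat_lit 0) .nil)))))) (.g (nat_lit 6) .nil .nil))))) (.nd (nat_lit 5) (.nd (nat_lit 6) 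
(.lf (nat_lit 10132) (.g (nat_lit 2392) (.e (nat_lit 353) (nat_lit 29) (.e (nat_lit 401438) (nat_lit 9) (.e (nat_lit 426436) (nat_lit 18) (.e (nat_lit 98342) (nat_lit 20) (.e (nat_lit 229120) (nat_lit 12) .nil))))) .nil)) 
(.lf (nat_lit 10196) (.g (nat_lit 1020) (.e (nat_lit 353) (nat_lit 29) (.e (nat_lit 401459) (nat_lit 13) (.e (nat_lit 483364) (nat_lit 18) .nil))) .nil))) (.nd (nat_lit 6) 
(.lf (nat_lit 10164) (.g (nat_lit 1487) (.e (nat_lit 353) (nat_lit 29) (.e (nat_lit 401454) (nat_lit 12) (.e (nat_lit 475207) (nat_lit 41) (.e (nat_lit 712755) (nat_lit 30) .nil)))) .nil)) 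
(.lf (nat_lit 10228) (.g (nat_lit 1199) (.e (nat_lit 355) (nat_lit 29) (.e (nat_lit 401454) (nat_lit 12) (.e (nat_lit 475183) (nat_lit 29) .nil))) .nil))))) (.nd (nat_lit 4) (.nd (nat_lit 5) (.nd (nat_lit 6) 
(.lf (nat_lit 10124) (.g (nat_lit 2637) (.e (nat_lit 353) (nat_lit 29) (.e (nat_lit 401434) (nat_lit 9) (.e (nat_lit 426140) (nat_lit 3) (.e (nat_lit 204862) (nat_lit 27) (.e (nat_lit 344161) (nat_lit 37) .nil))))) .nil)) 
(.lf (nat_lit 10188) (.g (nat_lit 1545) (.e (nat_lit 353) (nat_lit 29) (.e (nat_lit 401458) (nat_lit 13) (.e (nat_lit 483372) (nat_lit 21) (.e (nat_lit 319531) (nat_lit 16) .nil)))) .nil))) (.nd (nat_lit 6) 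
(.lf (nat_lit 10156) (.g (nat_lit 2722) (.e (nat_lit 353) (nat_lit 29) (.e (nat_lit 401454) (nat_lit 12) (.e (nat_lit 475177) (nat_lit 24) (.e (nat_lit 516131) (nat_lit 3) (.e (nat_lit 229120) (nat_lit 12) (.e (nat_lit 344130) (nat_lit 26) (.e (nat_lit 557067) (nat_lit 9) .nil))))))) (.g (nat_lit 4) .nil .nil))) 
(.lf (nat_lit 10220) (.g (nat_lit 4569) (.e (nat_lit 354) (nat_lit 29) (.e (nat_lit 401459) (nat_lit 13) (.e (nat_lit 483372) (nat_lit 21) (.e (nat_lit 319504) (nat_lit 10) .nil)))) .nil)))) (.nd (nat_lit 5) (.nd (nat_lit 6) 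
(.lf (nat_lit 10140) (.g (nat_lit 2915) (.e (nat_lit 353) (nat_lit 29) (.e (nat_lit 401451) (nat_lit 12) (.e (nat_lit 475179) (nat_lit 24) (.e (nat_lit 516131) (nat_lit 3) (.e (nat_lit 229120) (nat_lit 12) (.e (nat_lit 344133) (nat_lit 26) (.e (nat_lit 557068) (nat_lit 9) .nil))))))) (.g (nat_lit 4) .nil .nil))) 
(.lf (nat_lit 10204) (.g (nat_lit 2722) (.e (nat_lit 353) (nat_lit 29) (.e (nat_lit 401459) (nat_lit 13) (.e (nat_lit 483411) (nat_lit 27) (.e (nat_lit 401448) (nat_lit 10) (.e (nat_lit 442112) (nat_lit 44) .nil))))) .nil))) (.nd (nat_lit 6) 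
(.lf (nat_lit 10172) (.g (nat_lit 3427) (.e (nat_lit 353) (nat_lit 29) (.e (nat_lit 401456) (nat_lit 13) (.e (nat_lit 483413) (nat_lit 27) (.e (nat_lit 401448) (nat_lit 10) (.e (nat_lit 434207) (nat_lit 18) .nil))))) .nil)) 
(.lf (nat_lit 10236) (.g (nat_lit 929) (.e (nat_lit 355) (nat_lit 29) (.e (nat_lit 401454) (nat_lit 12) (.e (nat_lit 475198) (nat_lit 40) .nil))) .nil))))))) (.nd (nat_lit 2) (.nd (nat_lit 3) (.nd (nat_lit 4) (.nd (nat_lit 5) (.nd (nat_lit 6) 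
(.lf (nat_lit 10114) (.g (nat_lit 537) (.e (nat_lit 7936) (nat_lit 28) (.e (nat_lit 393296) (nat_lit 26) (.e (nat_lit 483072) (nat_lit 22) .nil))) .nil)) 
(.lf (nat_lit 10178) (.g (nat_lit 2899) (.e (nat_lit 353) (nat_lit 29) (.e (nat_lit 401457) (nat_lit 13) (.e (nat_lit 483413) (nat_lit 27) (.e (nat_lit 401446) (nat_lit 10) (.e (nat_lit 434207) (nat_lit 18) .nil))))) .nil))) (.nd (nat_lit 6) 
(.lf (nat_lit 10146) (.g (nat_lit 1552) (.e (nat_lit 353) (nat_lit 29) (.e (nat_lit 401453) (nat_lit 12) (.e (nat_lit 475207) (nat_lit 41) (.e (nat_lit 712755) (nat_lit 30) (.e (nat_lit 450590) (nat_lit 12) .nil))))) .nil)) 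
(.lf (nat_lit 10210) (.g (nat_lit 722) (.e (nat_lit 354) (nat_lit 29) (.e (nat_lit 401456) (nat_lit 13) (.e (nat_lit 483413) (nat_lit 27) .nil))) .nil)))) (.nd (nat_lit 5) (.nd (nat_lit 6) 
(.lf (nat_lit 10130) (.g (nat_lit 2067) (.e (nat_lit 353) (nat_lit 29) (.e (nat_lit 401437) (nat_lit 9) (.e (nat_lit 426437) (nat_lit 18) (.e (nat_lit 98341) (nat_lit 20) (.e (nat_lit 229120) (nat_lit 12) (.e (nat_lit 344133) (nat_lit 26) (.e (nat_lit 557068) (nat_lit 9) .nil))))))) (.g (nat_lit 4) .nil .nil))) 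
(.lf (nat_lit 10194) (.g (nat_lit 2259) (.e (nat_lit 353) (nat_lit 29) (.e (nat_lit 401459) (nat_lit 13) (.e (nat_lit 483363) (nat_lit 18) (.e (nat_lit 57686) (nat_lit 156) .nil)))) .nil))) (.nd (nat_lit 6) 
(.lf (nat_lit 10162) (.g (nat_lit 4115) (.e (nat_lit 353) (nat_lit 29) (.e (nat_lit 401454) (nat_lit 12) (.e (nat_lit 475185) (nat_lit 29) (.e (nat_lit 557100) (nat_lit 13) (.e (nat_lit 172113) (nat_lit 10) .nil))))) .nil)) 
(.lf (nat_lit 10226) (.g (nat_lit 1095) (.e (nat_lit 355) (nat_lit 29) (.e (nat_lit 401454) (nat_lit 12) (.e (nat_lit 475179) (nat_lit 24) .nil))) .nil))))) (.nd (nat_lit 4) (.nd (nat_lit 5) (.nd (nat_lit 6) 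
(.lf (nat_lit 10122) (.g (nat_lit 2166) (.e (nat_lit 353) (nat_lit 29) (.e (nat_lit 401434) (nat_lit 9) (.e (nat_lit 426140) (nat_lit 3) (.e (nat_lit 204846) (nat_lit 24) (.e (nat_lit 319534) (nat_lit 16) .nil))))) .nil)) 
(.lf (nat_lit 10186) (.g (nat_lit 748) (.e (nat_lit 353) (nat_lit 29) (.e (nat_lit 401458) (nat_lit 13) (.e (nat_lit 483363) (nat_lit 18) .nil))) .nil))) (.nd (nat_lit 6) 
(.lf (nat_lit 10154) (.g (nat_lit 2841) (.e (nat_lit 353) (nat_lit 29) (.e (nat_lit 401454) (nat_lit 12) (.e (nat_lit 475177) (nat_lit 24) (.e (nat_lit 516129) (nat_lit 3) (.e (nat_lit 229120) (nat_lit 12) .nil))))) .nil)) 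
(.lf (nat_lit 10218) (.g (nat_lit 3667) (.e (nat_lit 354) (nat_lit 29) (.e (nat_lit 401457) (nat_lit 13) (.e (nat_lit 483413) (nat_lit 27) (.e (nat_lit 401448) (nat_lit 10) (.e (nat_lit 434291) (nat_lit 44) .nil))))) .nil)))) (.nd (nat_lit 5) (.nd (nat_lit 6) 
(.lf (nat_lit 10138) (.g (nat_lit 2732) (.e (nat_lit 353) (nat_lit 29) (.e (nat_lit 401451) (nat_lit 12) (.e (nat_lit 475178) (nat_lit 24) (.e (nat_lit 516131) (nat_lit 3) (.e (nat_lit 229120) (nat_lit 12) (.e (nat_lit 344133) (nat_lit 26) (.e (nat_lit 557068) (nat_lit 9) .nil))))))) (.g (nat_lit 4) .nil .nil))) 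
(.lf (nat_lit 10202) (.g (nat_lit 1864) (.e (nat_lit 353) (nat_lit 29) (.e (nat_lit 401459) (nat_lit 13) (.e (nat_lit 483411) (nat_lit 27) (.e (nat_lit 401448) (nat_lit 10) .nil)))) .nil))) (.nd (nat_lit 6) 
(.lf (nat_lit 10170) (.g (nat_lit 3597) (.e (nat_lit 353) (nat_lit 29) (.e (nat_lit 401456) (nat_lit 13) (.e (nat_lit 483413) (nat_lit 27) (.e (nat_lit 401448) (nat_lit 10) (.e (nat_lit 434206) (nat_lit 18) (.e (nat_lit 6595) (nat_lit 351) (.e (nat_lit 2426) (nat_lit 157) .nil))))))) (.g (nat_lit 6) .nil .nil))) 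
(.lf (nat_lit 10234) (.g (nat_lit 3100) (.e (nat_lit 355) (nat_lit 29) (.e (nat_lit 401454) (nat_lit 12) (.e (nat_lit 475185) (nat_lit 29) (.e (nat_lit 557107) (nat_lit 15) .nil)))) .nil)))))) (.nd (nat_lit 3) (.nd (nat_lit 4) (.nd (nat_lit 5) (.nd (nat_lit 6) 
(.lf (nat_lit 10118) (.g (nat_lit 668) (.e (nat_lit 7936) (nat_lit 28) (.e (nat_lit 393296) (nat_lit 26) (.e (nat_lit 483072) (nat_lit 26) (.e (nat_lit 532555) (nat_lit 13) (.e (nat_lit 368642) (nat_lit 0) .nil))))) .nil)) 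
(.lf (nat_lit 10182) (.g (nat_lit 3023) (.e (nat_lit 353) (nat_lit 29) (.e (nat_lit 401457) (nat_lit 13) (.e (nat_lit 483413) (nat_lit 27) (.e (nat_lit 401448) (nat_lit 10) (.e (nat_lit 434206) (nat_lit 18) .nil))))) .nil))) (.nd (nat_lit 6) 
(.lf (nat_lit 10150) (.g (nat_lit 2643) (.e (nat_lit 353) (nat_lit 29) (.e (nat_lit 401454) (nat_lit 12) (.e (nat_lit 475176) (nat_lit 24) (.e (nat_lit 516131) (nat_lit 3) (.e (nat_lit 229120) (nat_lit 12) (.e (nat_lit 344130) (nat_lit 26) (.e (nat_lit 557067) (nat_lit 9) .nil))))))) (.g (nat_lit 4) .nil .nil))) 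
(.lf (nat_lit 10214) (.g (nat_lit 3469) (.e (nat_lit 354) (nat_lit 29) (.e (nat_lit 401456) (nat_lit 13) (.e (nat_lit 483413) (nat_lit 27) (.e (nat_lit 401448) (nat_lit 10) (.e (nat_lit 442112) (nat_lit 44) (.e (nat_lit 704512) (nat_lit 0) .nil)))))) (.g (nat_lit 4) .nil .nil))))) (.nd (nat_lit 5) (.nd (nat_lit 6) 
(.lf (nat_lit 10134) (.g (nat_lit 2985) (.e (nat_lit 353) (nat_lit 29) (.e (nat_lit 401451) (nat_lit 12) (.e (nat_lit 475176) (nat_lit 24) (.e (nat_lit 516129) (nat_lit 3) (.e (nat_lit 229120) (nat_lit 12) (.e (nat_lit 344129) (nat_lit 26) (.e (nat_lit 557067) (nat_lit 9) .nil))))))) (.g (nat_lit 4) .nil .nil))) 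
(.lf (nat_lit 10198) (.g (nat_lit 4019) (.e (nat_lit 353) (nat_lit 29) (.e (nat_lit 401459) (nat_lit 13) (.e (nat_lit 483372) (nat_lit 21) (.e (nat_lit 319531) (nat_lit 16) .nil)))) .nil))) (.nd (nat_lit 6) 
(.lf (nat_lit 10166) (.g (nat_lit 2925) (.e (nat_lit 353) (nat_lit 29) (.e (nat_lit 401454) (nat_lit 12) (.e (nat_lit 475209) (nat_lit 41) (.e (nat_lit 712755) (nat_lit 30) (.e (nat_lit 450590) (nat_lit 12) .nil))))) .nil)) 
(.lf (nat_lit 10230) (.g (nat_lit 1097) (.e (nat_lit 355) (nat_lit 29) (.e (nat_lit 401454) (nat_lit 12) (.e (nat_lit 475185) (nat_lit 29) .nil))) .nil))))) (.nd (nat_lit 4) (.nd (nat_lit 5) (.nd (nat_lit 6) 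
(.lf (nat_lit 10126) (.g (nat_lit 2740) (.e (nat_lit 353) (nat_lit 29) (.e (nat_lit 401434) (nat_lit 9) (.e (nat_lit 426140) (nat_lit 3) (.e (nat_lit 204863) (nat_lit 27) (.e (nat_lit 344160) (nat_lit 37) .nil))))) .nil)) 
(.lf (nat_lit 10190) (.g (nat_lit 2350) (.e (nat_lit 353) (nat_lit 29) (.e (nat_lit 401458) (nat_lit 13) (.e (nat_lit 483372) (nat_lit 21) (.e (nat_lit 319533) (nat_lit 16) (.e (nat_lit 286724) (nat_lit 0) .nil))))) .nil))) (.nd (nat_lit 6) 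
(.lf (nat_lit 10158) (.g (nat_lit 829) (.e (nat_lit 353) (nat_lit 29) (.e (nat_lit 401454) (nat_lit 12) (.e (nat_lit 475179) (nat_lit 24) .nil))) .nil)) 
(.lf (nat_lit 10222) (.g (nat_lit 2077) (.e (nat_lit 354) (nat_lit 29) (.e (nat_lit 401459) (nat_lit 13) (.e (nat_lit 483411) (nat_lit 27) (.e (nat_lit 401448) (nat_lit 10) .nil)))) .nil)))) (.nd (nat_lit 5) (.nd (nat_lit 6) 
(.lf (nat_lit 10142) (.g (nat_lit 3795) (.e (nat_lit 353) (nat_lit 29) (.e (nat_lit 401451) (nat_lit 12) (.e (nat_lit 475185) (nat_lit 29) (.e (nat_lit 557100) (nat_lit 13) .nil)))) .nil)) 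
(.lf (nat_lit 10206) (.g (nat_lit 1190) (.e (nat_lit 354) (nat_lit 29) (.e (nat_lit 401454) (nat_lit 12) (.e (nat_lit 475185) (nat_lit 29) .nil))) .nil))) (.nd (nat_lit 6) 
(.lf (nat_lit 10174) (.g (nat_lit 2932) (.e (nat_lit 353) (nat_lit 29) (.e (nat_lit 401456) (nat_lit 13) (.e (nat_lit 483413) (nat_lit 27) (.e (nat_lit 401448) (nat_lit 10) (.e (nat_lit 442112) (nat_lit 44) .nil))))) .nil)) 
(.lf (nat_lit 10238) (.g (nat_lit 1059) (.e (nat_lit 355) (nat_lit 29) (.e (nat_lit 401454) (nat_lit 12) (.e (nat_lit 475210) (nat_lit 41) .nil))) .nil)))))))) (.nd (nat_lit 1) (.nd (nat_lit 2) (.nd (nat_lit 3) (.nd (nat_lit 4) (.nd (nat_lit 5) (.nd (nat_lit 6) 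
(.lf (nat_lit 10113) (.g (nat_lit 1003) (.e (nat_lit 7936) (nat_lit 28) (.e (nat_lit 393296) (nat_lit 26) (.e (nat_lit 475169) (nat_lit 22) (.e (nat_lit 499791) (nat_lit 3) (.e (nat_lit 164287) (nat_lit 224) .nil))))) .nil)) 
(.lf (nat_lit 10177) (.g (nat_lit 2888) (.e (nat_lit 353) (nat_lit 29) (.e (nat_lit 401457) (nat_lit 13) (.e (nat_lit 483413) (nat_lit 27) (.e (nat_lit 401446) (nat_lit 10) (.e (nat_lit 434203) (nat_lit 18) .nil))))) .nil))) (.nd (nat_lit 6) 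
(.lf (nat_lit 10145) (.g (nat_lit 2473) (.e (nat_lit 353) (nat_lit 29) (.e (nat_lit 401453) (nat_lit 12) (.e (nat_lit 475179) (nat_lit 24) (.e (nat_lit 516129) (nat_lit 3) (.e (nat_lit 229120) (nat_lit 12) .nil))))) .nil)) 
(.lf (nat_lit 10209) (.g (nat_lit 3194) (.e (nat_lit 354) (nat_lit 29) (.e (nat_lit 401454) (nat_lit 12) (.e (nat_lit 475185) (nat_lit 29) (.e (nat_lit 557107) (nat_lit 15) .nil)))) .nil)))) (.nd (nat_lit 5) (.nd (nat_lit 6) 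
(.lf (nat_lit 10129) (.g (nat_lit 3140) (.e (nat_lit 353) (nat_lit 29) (.e (nat_lit 401437) (nat_lit 9) (.e (nat_lit 426436) (nat_lit 18) (.e (nat_lit 98342) (nat_lit 20) (.e (nat_lit 229120) (nat_lit 12) (.e (nat_lit 344133) (nat_lit 26) (.e (nat_lit 557068) (nat_lit 9) .nil))))))) (.g (nat_lit 6) .nil .nil))) 
(.lf (nat_lit 10193) (.g (nat_lit 1042) (.e (nat_lit 353) (nat_lit 29) (.e (nat_lit 401459) (nat_lit 13) (.e (nat_lit 483363) (nat_lit 18) .nil))) .nil))) (.nd (nat_lit 6) 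
(.lf (nat_lit 10161) (.g (nat_lit 1172) (.e (nat_lit 353) (nat_lit 29) (.e (nat_lit 401454) (nat_lit 12) (.e (nat_lit 475185) (nat_lit 29) .nil))) .nil)) 
(.lf (nat_lit 10225) (.g (nat_lit 3795) (.e (nat_lit 355) (nat_lit 29) (.e (nat_lit 401451) (nat_lit 12) (.e (nat_lit 475185) (nat_lit 29) (.e (nat_lit 557100) (nat_lit 13) .nil)))) .nil))))) (.nd (nat_lit 4) (.nd (nat_lit 5) (.nd (nat_lit 6) 
(.lf (nat_lit 10121) (.g (nat_lit 444) (.e (nat_lit 353) (nat_lit 29) (.e (nat_lit 401434) (nat_lit 9) (.e (nat_lit 426125) (nat_lit 2) .nil))) .nil)) 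
(.lf (nat_lit 10185) (.g (nat_lit 3181) (.e (nat_lit 353) (nat_lit 29) (.e (nat_lit 401457) (nat_lit 13) (.e (nat_lit 483413) (nat_lit 27) (.e (nat_lit 401448) (nat_lit 10) (.e (nat_lit 434290) (nat_lit 44) .nil))))) .nil))) (.nd (nat_lit 6) 
(.lf (nat_lit 10153) (.g (nat_lit 2147) (.e (nat_lit 353) (nat_lit 29) (.e (nat_lit 401454) (nat_lit 12) (.e (nat_lit 475177) (nat_lit 24) (.e (nat_lit 516098) (nat_lit 0) .nil)))) .nil)) 
(.lf (nat_lit 10217) (.g (nat_lit 3193) (.e (nat_lit 354) (nat_lit 29) (.e (nat_lit 401457) (nat_lit 13) (.e (nat_lit 483413) (nat_lit 27) (.e (nat_lit 401448) (nat_lit 10) (.e (nat_lit 434290) (nat_lit 44) .nil))))) .nil)))) (.nd (nat_lit 5) (.nd (nat_lit 6) 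
(.lf (nat_lit 10137) (.g (nat_lit 3140) (.e (nat_lit 353) (nat_lit 29) (.e (nat_lit 401451) (nat_lit 12) (.e (nat_lit 475178) (nat_lit 24) (.e (nat_lit 516129) (nat_lit 3) (.e (nat_lit 229120) (nat_lit 12) (.e (nat_lit 344133) (nat_lit 26) (.e (nat_lit 557068) (nat_lit 9) .nil))))))) (.g (nat_lit 4) .nil .nil))) 
(.lf (nat_lit 10201) (.g (nat_lit 2146) (.e (nat_lit 353) (nat_lit 29) (.e (nat_lit 401459) (nat_lit 13) (.e (nat_lit 483411) (nat_lit 27) (.e (nat_lit 401446) (nat_lit 10) .nil)))) .nil))) (.nd (nat_lit 6) 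
(.lf (nat_lit 10169) (.g (nat_lit 1239) (.e (nat_lit 353) (nat_lit 29) (.e (nat_lit 401456) (nat_lit 13) (.e (nat_lit 483413) (nat_lit 27) (.e (nat_lit 401446) (nat_lit 10) .nil)))) .nil)) 
(.lf (nat_lit 10233) (.g (nat_lit 4486) (.e (nat_lit 355) (nat_lit 29) (.e (nat_lit 401454) (nat_lit 12) (.e (nat_lit 475185) (nat_lit 29) (.e (nat_lit 557100) (nat_lit 13) (.e (nat_lit 172113) (nat_lit 10) (.e (nat_lit 434248) (nat_lit 28) (.e (nat_lit 581376) (nat_lit 0) .nil))))))) (.g (nat_lit 5) .nil .nil))))))) (.nd (nat_lit 3) (.nd (nat_lit 4) (.nd (nat_lit 5) (.nd (nat_lit 6) 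
(.lf (nat_lit 10117) (.g (nat_lit 670) (.e (nat_lit 7936) (nat_lit 28) (.e (nat_lit 393296) (nat_lit 26) (.e (nat_lit 483072) (nat_lit 26) (.e (nat_lit 532555) (nat_lit 13) (.e (nat_lit 368640) (nat_lit 0) .nil))))) .nil)) 
(.lf (nat_lit 10181) (.g (nat_lit 3863) (.e (nat_lit 353) (nat_lit 29) (.e (nat_lit 401457) (nat_lit 13) (.e (nat_lit 483413) (nat_lit 27) (.e (nat_lit 401447) (nat_lit 10) (.e (nat_lit 434207) (nat_lit 18) .nil))))) .nil))) (.nd (nat_lit 6) 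
(.lf (nat_lit 10149) (.g (nat_lit 2695) (.e (nat_lit 353) (nat_lit 29) (.e (nat_lit 401454) (nat_lit 12) (.e (nat_lit 475176) (nat_lit 24) (.e (nat_lit 516129) (nat_lit 3) (.e (nat_lit 229120) (nat_lit 12) (.e (nat_lit 344130) (nat_lit 26) (.e (nat_lit 557067) (nat_lit 9) .nil))))))) (.g (nat_lit 4) .nil .nil))) 
(.lf (nat_lit 10213) (.g (nat_lit 3566) (.e (nat_lit 354) (nat_lit 29) (.e (nat_lit 401456) (nat_lit 13) (.e (nat_lit 483413) (nat_lit 27) (.e (nat_lit 401448) (nat_lit 10) (.e (nat_lit 434291) (nat_lit 44) (.e (nat_lit 712448) (nat_lit 0) .nil)))))) (.g (nat_lit 5) .nil .nil))))) (.nd (nat_lit 5) (.nd (nat_lit 6) 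
(.lf (nat_lit 10133) (.g (nat_lit 1122) (.e (nat_lit 353) (nat_lit 29) (.e (nat_lit 401448) (nat_lit 10) (.e (nat_lit 434295) (nat_lit 49) .nil))) .nil)) 
(.lf (nat_lit 10197) (.g (nat_lit 551) (.e (nat_lit 353) (nat_lit 29) (.e (nat_lit 401459) (nat_lit 13) (.e (nat_lit 483372) (nat_lit 21) .nil))) .nil))) (.nd (nat_lit 6) 
(.lf (nat_lit 10165) (.g (nat_lit 1008) (.e (nat_lit 353) (nat_lit 29) (.e (nat_lit 401454) (nat_lit 12) (.e (nat_lit 475209) (nat_lit 41) .nil))) .nil)) 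
(.lf (nat_lit 10229) (.g (nat_lit 1222) (.e (nat_lit 355) (nat_lit 29) (.e (nat_lit 401454) (nat_lit 12) (.e (nat_lit 475184) (nat_lit 29) .nil))) .nil))))) (.nd (nat_lit 4) (.nd (nat_lit 5) (.nd (nat_lit 6) 
(.lf (nat_lit 10125) (.g (nat_lit 1852) (.e (nat_lit 353) (nat_lit 29) (.e (nat_lit 401434) (nat_lit 9) (.e (nat_lit 426140) (nat_lit 3) (.e (nat_lit 204863) (nat_lit 27) .nil)))) .nil)) 
(.lf (nat_lit 10189) (.g (nat_lit 1248) (.e (nat_lit 353) (nat_lit 29) (.e (nat_lit 401458) (nat_lit 13) (.e (nat_lit 483372) (nat_lit 21) (.e (nat_lit 319533) (nat_lit 16) .nil)))) .nil))) (.nd (nat_lit 6) 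
(.lf (nat_lit 10157) (.g (nat_lit 2482) (.e (nat_lit 353) (nat_lit 29) (.e (nat_lit 401454) (nat_lit 12) (.e (nat_lit 475178) (nat_lit 24) (.e (nat_lit 516129) (nat_lit 3) (.e (nat_lit 229120) (nat_lit 12) (.e (nat_lit 344130) (nat_lit 26) (.e (nat_lit 557067) (nat_lit 9) .nil))))))) (.g (nat_lit 4) .nil .nil))) 
(.lf (nat_lit 10221) (.g (nat_lit 3925) (.e (nat_lit 354) (nat_lit 29) (.e (nat_lit 401459) (nat_lit 13) (.e (nat_lit 483372) (nat_lit 21) (.e (nat_lit 319534) (nat_lit 16) .nil)))) .nil)))) (.nd (nat_lit 5) (.nd (nat_lit 6) 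
(.lf (nat_lit 10141) (.g (nat_lit 883) (.e (nat_lit 353) (nat_lit 29) (.e (nat_lit 401451) (nat_lit 12) (.e (nat_lit 475185) (nat_lit 29) .nil))) .nil)) 
(.lf (nat_lit 10205) (.g (nat_lit 3654) (.e (nat_lit 354) (nat_lit 29) (.e (nat_lit 401451) (nat_lit 12) (.e (nat_lit 475185) (nat_lit 29) (.e (nat_lit 557100) (nat_lit 13) .nil)))) .nil))) (.nd (nat_lit 6) 
(.lf (nat_lit 10173) (.g (nat_lit 2777) (.e (nat_lit 353) (nat_lit 29) (.e (nat_lit 401456) (nat_lit 13) (.e (nat_lit 483413) (nat_lit 27) (.e (nat_lit 401448) (nat_lit 10) (.e (nat_lit 434290) (nat_lit 44) .nil))))) .nil)) 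
(.lf (nat_lit 10237) (.g (nat_lit 1016) (.e (nat_lit 355) (nat_lit 29) (.e (nat_lit 401454) (nat_lit 12) (.e (nat_lit 475209) (nat_lit 41) .nil))) .nil))))))) (.nd (nat_lit 2) (.nd (nat_lit 3) (.nd (nat_lit 4) (.nd (nat_lit 5) (.nd (nat_lit 6) 
(.lf (nat_lit 10115) (.g (nat_lit 537) (.e (nat_lit 7936) (nat_lit 28) (.e (nat_lit 393296) (nat_lit 26) (.e (nat_lit 483072) (nat_lit 26) .nil))) .nil)) 
(.lf (nat_lit 10179) (.g (nat_lit 2954) (.e (nat_lit 353) (nat_lit 29) (.e (nat_lit 401457) (nat_lit 13) (.e (nat_lit 483413) (nat_lit 27) (.e (nat_lit 401446) (nat_lit 10) (.e (nat_lit 434207) (nat_lit 18) (.e (nat_lit 6595) (nat_lit 351) (.e (nat_lit 2426) (nat_lit 157) .nil))))))) (.g (nat_lit 4) .nil .nil)))) (.nd (nat_lit 6) 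
(.lf (nat_lit 10147) (.g (nat_lit 1717) (.e (nat_lit 353) (nat_lit 29) (.e (nat_lit 401453) (nat_lit 12) (.e (nat_lit 475207) (nat_lit 41) (.e (nat_lit 712755) (nat_lit 30) (.e (nat_lit 450590) (nat_lit 12) (.e (nat_lit 622622) (nat_lit 13) .nil)))))) (.g (nat_lit 5) .nil .nil))) 
(.lf (nat_lit 10211) (.g (nat_lit 2790) (.e (nat_lit 354) (nat_lit 29) (.e (nat_lit 401456) (nat_lit 13) (.e (nat_lit 483413) (nat_lit 27) (.e (nat_lit 401448) (nat_lit 10) (.e (nat_lit 434290) (nat_lit 44) .nil))))) .nil)))) (.nd (nat_lit 5) (.nd (nat_lit 6) 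
(.lf (nat_lit 10131) (.g (nat_lit 1342) (.e (nat_lit 353) (nat_lit 29) (.e (nat_lit 401437) (nat_lit 9) (.e (nat_lit 426437) (nat_lit 18) (.e (nat_lit 98342) (nat_lit 20) .nil)))) .nil)) 
(.lf (nat_lit 10195) (.g (nat_lit 3096) (.e (nat_lit 353) (nat_lit 29) (.e (nat_lit 401459) (nat_lit 13) (.e (nat_lit 483363) (nat_lit 18) (.e (nat_lit 57688) (nat_lit 156) (.e (nat_lit 163938) (nat_lit 18) .nil))))) .nil))) (.nd (nat_lit 6) 
(.lf (nat_lit 10163) (.g (nat_lit 2291) (.e (nat_lit 353) (nat_lit 29) (.e (nat_lit 401454) (nat_lit 12) (.e (nat_lit 475185) (nat_lit 29) (.e (nat_lit 557103) (nat_lit 14) .nil)))) .nil)) 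
(.lf (nat_lit 10227) (.g (nat_lit 2117) (.e (nat_lit 355) (nat_lit 29) (.e (nat_lit 401454) (nat_lit 12) (.e (nat_lit 475179) (nat_lit 24) (.e (nat_lit 516115) (nat_lit 1) .nil)))) .nil))))) (.nd (nat_lit 4) (.nd (nat_lit 5) (.nd (nat_lit 6) 
(.lf (nat_lit 10123) (.g (nat_lit 2442) (.e (nat_lit 353) (nat_lit 29) (.e (nat_lit 401434) (nat_lit 9) (.e (nat_lit 426140) (nat_lit 3) (.e (nat_lit 204862) (nat_lit 27) (.e (nat_lit 344160) (nat_lit 37) .nil))))) .nil)) 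
(.lf (nat_lit 10187) (.g (nat_lit 2271) (.e (nat_lit 353) (nat_lit 29) (.e (nat_lit 401458) (nat_lit 13) (.e (nat_lit 483365) (nat_lit 18) (.e (nat_lit 57691) (nat_lit 156) (.e (nat_lit 163938) (nat_lit 18) .nil))))) .nil))) (.nd (nat_lit 6) 
(.lf (nat_lit 10155) (.g (nat_lit 2174) (.e (nat_lit 353) (nat_lit 29) (.e (nat_lit 401454) (nat_lit 12) (.e (nat_lit 475177) (nat_lit 24) (.e (nat_lit 516130) (nat_lit 3) .nil)))) .nil)) 
(.lf (nat_lit 10219) (.g (nat_lit 887) (.e (nat_lit 354) (nat_lit 29) (.e (nat_lit 401459) (nat_lit 13) (.e (nat_lit 483372) (nat_lit 21) .nil))) .nil)))) (.nd (nat_lit 5) (.nd (nat_lit 6) 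
(.lf (nat_lit 10139) (.g (nat_lit 3043) (.e (nat_lit 353) (nat_lit 29) (.e (nat_lit 401451) (nat_lit 12) (.e (nat_lit 475179) (nat_lit 24) (.e (nat_lit 516129) (nat_lit 3) (.e (nat_lit 229120) (nat_lit 12) (.e (nat_lit 344133) (nat_lit 26) (.e (nat_lit 557068) (nat_lit 9) .nil))))))) (.g (nat_lit 4) .nil .nil))) 
(.lf (nat_lit 10203) (.g (nat_lit 2607) (.e (nat_lit 353) (nat_lit 29) (.e (nat_lit 401459) (nat_lit 13) (.e (nat_lit 483411) (nat_lit 27) (.e (nat_lit 401448) (nat_lit 10) (.e (nat_lit 434206) (nat_lit 18) .nil))))) .nil))) (.nd (nat_lit 6) 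
(.lf (nat_lit 10171) (.g (nat_lit 3164) (.e (nat_lit 353) (nat_lit 29) (.e (nat_lit 401456) (nat_lit 13) (.e (nat_lit 483413) (nat_lit 27) (.e (nat_lit 401448) (nat_lit 10) (.e (nat_lit 434206) (nat_lit 18) (.e (nat_lit 6595) (nat_lit 351) (.e (nat_lit 2427) (nat_lit 157) .nil))))))) (.g (nat_lit 4) .nil .nil))) 
(.lf (nat_lit 10235) (.g (nat_lit 2716) (.e (nat_lit 355) (nat_lit 29) (.e (nat_lit 401454) (nat_lit 12) (.e (nat_lit 475185) (nat_lit 29) (.e (nat_lit 557109) (nat_lit 15) .nil)))) .nil)))))) (.nd (nat_lit 3) (.nd (nat_lit 4) (.nd (nat_lit 5) (.nd (nat_lit 6) 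
(.lf (nat_lit 10119) (.g (nat_lit 507) (.e (nat_lit 7936) (nat_lit 28) (.e (nat_lit 393299) (nat_lit 27) (.e (nat_lit 499456) (nat_lit 17) .nil))) .nil)) 
(.lf (nat_lit 10183) (.g (nat_lit 3525) (.e (nat_lit 353) (nat_lit 29) (.e (nat_lit 401457) (nat_lit 13) (.e (nat_lit 483413) (nat_lit 27) (.e (nat_lit 401448) (nat_lit 10) (.e (nat_lit 434206) (nat_lit 18) (.e (nat_lit 6595) (nat_lit 351) (.e (nat_lit 2426) (nat_lit 157) .nil))))))) (.g (nat_lit 6) .nil .nil)))) (.nd (nat_lit 6) 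
(.lf (nat_lit 10151) (.g (nat_lit 1449) (.e (nat_lit 353) (nat_lit 29) (.e (nat_lit 401454) (nat_lit 12) (.e (nat_lit 475177) (nat_lit 24) .nil))) .nil)) 
(.lf (nat_lit 10215) (.g (nat_lit 959) (.e (nat_lit 354) (nat_lit 29) (.e (nat_lit 401457) (nat_lit 13) (.e (nat_lit 483413) (nat_lit 27) .nil))) .nil)))) (.nd (nat_lit 5) (.nd (nat_lit 6) 
(.lf (nat_lit 10135) (.g (nat_lit 2840) (.e (nat_lit 353) (nat_lit 29) (.e (nat_lit 401451) (nat_lit 12) (.e (nat_lit 475176) (nat_lit 24) (.e (nat_lit 516131) (nat_lit 3) (.e (nat_lit 229120) (nat_lit 12) (.e (nat_lit 344129) (nat_lit 26) (.e (nat_lit 557067) (nat_lit 9) .nil))))))) (.g (nat_lit 4) .nil .nil))) 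
(.lf (nat_lit 10199) (.g (nat_lit 3429) (.e (nat_lit 353) (nat_lit 29) (.e (nat_lit 401459) (nat_lit 13) (.e (nat_lit 483372) (nat_lit 21) (.e (nat_lit 319533) (nat_lit 16) .nil)))) .nil))) (.nd (nat_lit 6) 
(.lf (nat_lit 10167) (.g (nat_lit 1056) (.e (nat_lit 353) (nat_lit 29) (.e (nat_lit 401454) (nat_lit 12) (.e (nat_lit 475210) (nat_lit 41) .nil))) .nil)) 
(.lf (nat_lit 10231) (.g (nat_lit 2444) (.e (nat_lit 355) (nat_lit 29) (.e (nat_lit 401454) (nat_lit 12) (.e (nat_lit 475185) (nat_lit 29) (.e (nat_lit 557100) (nat_lit 13) .nil)))) .nil))))) (.nd (nat_lit 4) (.nd (nat_lit 5) (.nd (nat_lit 6) 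
(.lf (nat_lit 10127) (.g (nat_lit 3699) (.e (nat_lit 353) (nat_lit 29) (.e (nat_lit 401434) (nat_lit 9) (.e (nat_lit 426140) (nat_lit 3) (.e (nat_lit 204863) (nat_lit 27) (.e (nat_lit 344160) (nat_lit 37) (.e (nat_lit 647195) (nat_lit 9) (.e (nat_lit 1234) (nat_lit 91) (.e (nat_lit 90134) (nat_lit 9) .nil)))))))) (.g (nat_lit 5) .nil .nil))) 
(.lf (nat_lit 10191) (.g (nat_lit 1957) (.e (nat_lit 353) (nat_lit 29) (.e (nat_lit 401459) (nat_lit 13) (.e (nat_lit 483333) (nat_lit 0) (.e (nat_lit 6988) (nat_lit 377) .nil)))) .nil))) (.nd (nat_lit 6) 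
(.lf (nat_lit 10159) (.g (nat_lit 2278) (.e (nat_lit 353) (nat_lit 29) (.e (nat_lit 401454) (nat_lit 12) (.e (nat_lit 475179) (nat_lit 24) (.e (nat_lit 516129) (nat_lit 3) (.e (nat_lit 229120) (nat_lit 12) .nil))))) .nil)) 
(.lf (nat_lit 10223) (.g (nat_lit 2808) (.e (nat_lit 354) (nat_lit 29) (.e (nat_lit 401459) (nat_lit 13) (.e (nat_lit 483411) (nat_lit 27) (.e (nat_lit 401448) (nat_lit 10) (.e (nat_lit 434290) (nat_lit 44) .nil))))) .nil)))) (.nd (nat_lit 5) (.nd (nat_lit 6) 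
(.lf (nat_lit 10143) (.g (nat_lit 1963) (.e (nat_lit 353) (nat_lit 29) (.e (nat_lit 401452) (nat_lit 12) (.e (nat_lit 475177) (nat_lit 24) (.e (nat_lit 516129) (nat_lit 3) (.e (nat_lit 229120) (nat_lit 12) .nil))))) .nil)) 
(.lf (nat_lit 10207) (.g (nat_lit 4132) (.e (nat_lit 354) (nat_lit 29) (.e (nat_lit 401454) (nat_lit 12) (.e (nat_lit 475185) (nat_lit 29) (.e (nat_lit 557100) (nat_lit 13) (.e (nat_lit 172113) (nat_lit 10) .nil))))) .nil))) (.nd (nat_lit 6) 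
(.lf (nat_lit 10175) (.g (nat_lit 932) (.e (nat_lit 353) (nat_lit 29) (.e (nat_lit 401457) (nat_lit 13) (.e (nat_lit 483413) (nat_lit 27) .nil))) .nil)) 
(.lf (nat_lit 10239) (.g (nat_lit 2804) (.e (nat_lit 355) (nat_lit 29) (.e (nat_lit 401456) (nat_lit 13) (.e (nat_lit 483413) (nat_lit 27) (.e (nat_lit 401448) (nat_lit 10) (.e (nat_lit 434290) (nat_lit 44) .nil))))) .nil)))))))))

noncomputable def tv138 : DT := (.nd (nat_lit 0) (.nd (nat_lit 1) (.nd (nat_lit 2) (.nd (nat_lit 3) (.nd (nat_lit 4) (.nd (nat_lit 5) 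
(.lf (nat_lit 10240) (.g (nat_lit 2958) (.e (nat_lit 355) (nat_lit 29) (.e (nat_lit 401456) (nat_lit 13) (.e (nat_lit 483413) (nat_lit 27) (.e (nat_lit 401448) (nat_lit 10) (.e (nat_lit 442112) (nat_lit 44) .nil))))) .nil)) 
(.lf (nat_lit 10272) (.g (nat_lit 2895) (.e (nat_lit 356) (nat_lit 29) (.e (nat_lit 401457) (nat_lit 13) (.e (nat_lit 483413) (nat_lit 27) (.e (nat_lit 401446) (nat_lit 10) (.e (nat_lit 434207) (nat_lit 18) .nil))))) .nil))) (.nd (nat_lit 5) 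
(.lf (nat_lit 10256) (.g (nat_lit 947) (.e (nat_lit 355) (nat_lit 29) (.e (nat_lit 401459) (nat_lit 13) (.e (nat_lit 483411) (nat_lit 27) .nil))) .nil)) 
(.lf (nat_lit 10288) (.g (nat_lit 3913) (.e (nat_lit 357) (nat_lit 29) (.e (nat_lit 401454) (nat_lit 12) (.e (nat_lit 475185) (nat_lit 29) (.e (nat_lit 557100) (nat_lit 13) (.e (nat_lit 172113) (nat_lit 10) .nil))))) .nil)))) (.nd (nat_lit 4) (.nd (nat_lit 5) 
(.lf (nat_lit 10248) (.g (nat_lit 1198) (.e (nat_lit 355) (nat_lit 29) (.e (nat_lit 401459) (nat_lit 13) (.e (nat_lit 483337) (nat_lit 9) .nil))) .nil)) 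
(.lf (nat_lit 10280) (.g (nat_lit 1280) (.e (nat_lit 356) (nat_lit 29) (.e (nat_lit 401459) (nat_lit 13) (.e (nat_lit 483411) (nat_lit 27) .nil))) .nil))) (.nd (nat_lit 5) 
(.lf (nat_lit 10264) (.g (nat_lit 4161) (.e (nat_lit 356) (nat_lit 29) (.e (nat_lit 401454) (nat_lit 12) (.e (nat_lit 475185) (nat_lit 29) (.e (nat_lit 557100) (nat_lit 13) (.e (nat_lit 172113) (nat_lit 10) (.e (nat_lit 434248) (nat_lit 28) (.e (nat_lit 581376) (nat_lit 0) .nil))))))) (.g (nat_lit 4) .nil .nil))) 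
(.lf (nat_lit 10296) (.g (nat_lit 3584) (.e (nat_lit 357) (nat_lit 29) (.e (nat_lit 401456) (nat_lit 13) (.e (nat_lit 483413) (nat_lit 27) (.e (nat_lit 401448) (nat_lit 10) (.e (nat_lit 442112) (nat_lit 44) (.e (nat_lit 704526) (nat_lit 0) .nil)))))) (.g (nat_lit 4) .nil .nil)))))) (.nd (nat_lit 3) (.nd (nat_lit 4) (.nd (nat_lit 5) 
(.lf (nat_lit 10244) (.g (nat_lit 2701) (.e (nat_lit 355) (nat_lit 29) (.e (nat_lit 401457) (nat_lit 13) (.e (nat_lit 483413) (nat_lit 27) (.e (nat_lit 401446) (nat_lit 10) (.e (nat_lit 442112) (nat_lit 44) .nil))))) .nil)) 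
(.lf (nat_lit 10276) (.g (nat_lit 709) (.e (nat_lit 356) (nat_lit 29) (.e (nat_lit 401458) (nat_lit 13) (.e (nat_lit 483372) (nat_lit 21) .nil))) .nil))) (.nd (nat_lit 5) 
(.lf (nat_lit 10260) (.g (nat_lit 3631) (.e (nat_lit 356) (nat_lit 29) (.e (nat_lit 401451) (nat_lit 12) (.e (nat_lit 475185) (nat_lit 29) (.e (nat_lit 557100) (nat_lit 13) .nil)))) .nil)) 
(.lf (nat_lit 10292) (.g (nat_lit 2914) (.e (nat_lit 357) (nat_lit 29) (.e (nat_lit 401454) (nat_lit 12) (.e (nat_lit 475209) (nat_lit 41) (.e (nat_lit 712755) (nat_lit 30) (.e (nat_lit 450590) (nat_lit 12) .nil))))) .nil)))) (.nd (nat_lit 4) (.nd (nat_lit 5) 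
(.lf (nat_lit 10252) (.g (nat_lit 4506) (.e (nat_lit 355) (nat_lit 29) (.e (nat_lit 401459) (nat_lit 13) (.e (nat_lit 483372) (nat_lit 21) (.e (nat_lit 319504) (nat_lit 10) .nil)))) .nil)) 
(.lf (nat_lit 10284) (.g (nat_lit 3625) (.e (nat_lit 357) (nat_lit 29) (.e (nat_lit 401451) (nat_lit 12) (.e (nat_lit 475185) (nat_lit 29) (.e (nat_lit 557100) (nat_lit 13) .nil)))) .nil))) (.nd (nat_lit 5) 
(.lf (nat_lit 10268) (.g (nat_lit 3000) (.e (nat_lit 356) (nat_lit 29) (.e (nat_lit 401456) (nat_lit 13) (.e (nat_lit 483413) (nat_lit 27) (.e (nat_lit 401448) (nat_lit 10) (.e (nat_lit 434290) (nat_lit 44) (.e (nat_lit 704512) (nat_lit 0) .nil)))))) (.g (nat_lit 4) .nil .nil))) 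
(.lf (nat_lit 10300) (.g (nat_lit 3100) (.e (nat_lit 357) (nat_lit 29) (.e (nat_lit 401457) (nat_lit 13) (.e (nat_lit 483413) (nat_lit 27) (.e (nat_lit 401448) (nat_lit 10) (.e (nat_lit 442112) (nat_lit 44) .nil))))) .nil)))))) (.nd (nat_lit 2) (.nd (nat_lit 3) (.nd (nat_lit 4) (.nd (nat_lit 5) 
(.lf (nat_lit 10242) (.g (nat_lit 3301) (.e (nat_lit 355) (nat_lit 29) (.e (nat_lit 401456) (nat_lit 13) (.e (nat_lit 483413) (nat_lit 27) (.e (nat_lit 401448) (nat_lit 10) (.e (nat_lit 442112) (nat_lit 44) (.e (nat_lit 704526) (nat_lit 0) .nil)))))) (.g (nat_lit 4) .nil .nil))) 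
(.lf (nat_lit 10274) (.g (nat_lit 3163) (.e (nat_lit 356) (nat_lit 29) (.e (nat_lit 401457) (nat_lit 13) (.e (nat_lit 483413) (nat_lit 27) (.e (nat_lit 401448) (nat_lit 10) (.e (nat_lit 434290) (nat_lit 44) .nil))))) .nil))) (.nd (nat_lit 5) 
(.lf (nat_lit 10258) (.g (nat_lit 2710) (.e (nat_lit 355) (nat_lit 29) (.e (nat_lit 401459) (nat_lit 13) (.e (nat_lit 483411) (nat_lit 27) (.e (nat_lit 401448) (nat_lit 10) (.e (nat_lit 442112) (nat_lit 44) .nil))))) .nil)) 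
(.lf (nat_lit 10290) (.g (nat_lit 3134) (.e (nat_lit 357) (nat_lit 29) (.e (nat_lit 401454) (nat_lit 12) (.e (nat_lit 475185) (nat_lit 29) (.e (nat_lit 557107) (nat_lit 15) .nil)))) .nil)))) (.nd (nat_lit 4) (.nd (nat_lit 5) 
(.lf (nat_lit 10250) (.g (nat_lit 1474) (.e (nat_lit 355) (nat_lit 29) (.e (nat_lit 401459) (nat_lit 13) (.e (nat_lit 483344) (nat_lit 17) (.e (nat_lit 6724) (nat_lit 362) .nil)))) .nil)) 
(.lf (nat_lit 10282) (.g (nat_lit 3025) (.e (nat_lit 356) (nat_lit 29) (.e (nat_lit 401459) (nat_lit 13) (.e (nat_lit 483411) (nat_lit 27) (.e (nat_lit 401448) (nat_lit 10) (.e (nat_lit 434206) (nat_lit 18) .nil))))) .nil))) (.nd (nat_lit 5) 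
(.lf (nat_lit 10266) (.g (nat_lit 3200) (.e (nat_lit 356) (nat_lit 29) (.e (nat_lit 401454) (nat_lit 12) (.e (nat_lit 475185) (nat_lit 29) (.e (nat_lit 557107) (nat_lit 15) .nil)))) .nil)) 
(.lf (nat_lit 10298) (.g (nat_lit 3035) (.e (nat_lit 357) (nat_lit 29) (.e (nat_lit 401457) (nat_lit 13) (.e (nat_lit 483413) (nat_lit 27) (.e (nat_lit 401446) (nat_lit 10) (.e (nat_lit 442112) (nat_lit 44) .nil))))) .nil))))) (.nd (nat_lit 3) (.nd (nat_lit 4) (.nd (nat_lit 5) 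
(.lf (nat_lit 10246) (.g (nat_lit 3321) (.e (nat_lit 355) (nat_lit 29) (.e (nat_lit 401457) (nat_lit 13) (.e (nat_lit 483413) (nat_lit 27) (.e (nat_lit 401448) (nat_lit 10) (.e (nat_lit 434291) (nat_lit 44) .nil))))) .nil)) 
(.lf (nat_lit 10278) (.g (nat_lit 4323) (.e (nat_lit 356) (nat_lit 29) (.e (nat_lit 401459) (nat_lit 13) (.e (nat_lit 483372) (nat_lit 21) (.e (nat_lit 319531) (nat_lit 16) .nil)))) .nil))) (.nd (nat_lit 5) 
(.lf (nat_lit 10262) (.g (nat_lit 1196) (.e (nat_lit 356) (nat_lit 29) (.e (nat_lit 401454) (nat_lit 12) (.e (nat_lit 475185) (nat_lit 29) .nil))) .nil)) 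
(.lf (nat_lit 10294) (.g (nat_lit 2777) (.e (nat_lit 357) (nat_lit 29) (.e (nat_lit 401454) (nat_lit 12) (.e (nat_lit 475210) (nat_lit 41) (.e (nat_lit 712755) (nat_lit 30) (.e (nat_lit 450590) (nat_lit 12) .nil))))) .nil)))) (.nd (nat_lit 4) (.nd (nat_lit 5) 
(.lf (nat_lit 10254) (.g (nat_lit 4146) (.e (nat_lit 355) (nat_lit 29) (.e (nat_lit 401459) (nat_lit 13) (.e (nat_lit 483372) (nat_lit 21) (.e (nat_lit 319506) (nat_lit 10) .nil)))) .nil)) 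
(.lf (nat_lit 10286) (.g (nat_lit 1204) (.e (nat_lit 357) (nat_lit 29) (.e (nat_lit 401454) (nat_lit 12) (.e (nat_lit 475184) (nat_lit 29) .nil))) .nil))) (.nd (nat_lit 5) 
(.lf (nat_lit 10270) (.g (nat_lit 2958) (.e (nat_lit 356) (nat_lit 29) (.e (nat_lit 401456) (nat_lit 13) (.e (nat_lit 483413) (nat_lit 27) (.e (nat_lit 401448) (nat_lit 10) (.e (nat_lit 442112) (nat_lit 44) .nil))))) .nil)) 
(.lf (nat_lit 10302) (.g (nat_lit 4212) (.e (nat_lit 357) (nat_lit 29) (.e (nat_lit 401459) (nat_lit 13) (.e (nat_lit 483372) (nat_lit 21) (.e (nat_lit 319531) (nat_lit 16) .nil)))) .nil))))))) (.nd (nat_lit 1) (.nd (nat_lit 2) (.nd (nat_lit 3) (.nd (nat_lit 4) (.nd (nat_lit 5) 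
(.lf (nat_lit 10241) (.g (nat_lit 3406) (.e (nat_lit 355) (nat_lit 29) (.e (nat_lit 401456) (nat_lit 13) (.e (nat_lit 483413) (nat_lit 27) (.e (nat_lit 401448) (nat_lit 10) (.e (nat_lit 442112) (nat_lit 44) (.e (nat_lit 704517) (nat_lit 0) .nil)))))) (.g (nat_lit 4) .nil .nil))) 
(.lf (nat_lit 10273) (.g (nat_lit 3005) (.e (nat_lit 356) (nat_lit 29) (.e (nat_lit 401457) (nat_lit 13) (.e (nat_lit 483413) (nat_lit 27) (.e (nat_lit 401448) (nat_lit 10) (.e (nat_lit 434206) (nat_lit 18) .nil))))) .nil))) (.nd (nat_lit 5) 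
(.lf (nat_lit 10257) (.g (nat_lit 1852) (.e (nat_lit 355) (nat_lit 29) (.e (nat_lit 401459) (nat_lit 13) (.e (nat_lit 483411) (nat_lit 27) (.e (nat_lit 401448) (nat_lit 10) .nil)))) .nil)) 
(.lf (nat_lit 10289) (.g (nat_lit 2933) (.e (nat_lit 357) (nat_lit 29) (.e (nat_lit 401454) (nat_lit 12) (.e (nat_lit 475185) (nat_lit 29) (.e (nat_lit 557101) (nat_lit 13) (.e (nat_lit 172115) (nat_lit 10) .nil))))) .nil)))) (.nd (nat_lit 4) (.nd (nat_lit 5) 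
(.lf (nat_lit 10249) (.g (nat_lit 1469) (.e (nat_lit 355) (nat_lit 29) (.e (nat_lit 401459) (nat_lit 13) (.e (nat_lit 483344) (nat_lit 17) (.e (nat_lit 6722) (nat_lit 362) .nil)))) .nil)) 
(.lf (nat_lit 10281) (.g (nat_lit 2282) (.e (nat_lit 356) (nat_lit 29) (.e (nat_lit 401459) (nat_lit 13) (.e (nat_lit 483411) (nat_lit 27) (.e (nat_lit 401448) (nat_lit 10) .nil)))) .nil))) (.nd (nat_lit 5) 
(.lf (nat_lit 10265) (.g (nat_lit 2562) (.e (nat_lit 356) (nat_lit 29) (.e (nat_lit 401454) (nat_lit 12) (.e (nat_lit 475185) (nat_lit 29) (.e (nat_lit 557101) (nat_lit 13) .nil)))) .nil)) 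
(.lf (nat_lit 10297) (.g (nat_lit 987) (.e (nat_lit 357) (nat_lit 29) (.e (nat_lit 401457) (nat_lit 13) (.e (nat_lit 483413) (nat_lit 27) .nil))) .nil))))) (.nd (nat_lit 3) (.nd (nat_lit 4) (.nd (nat_lit 5) 
(.lf (nat_lit 10245) (.g (nat_lit 2848) (.e (nat_lit 355) (nat_lit 29) (.e (nat_lit 401457) (nat_lit 13) (.e (nat_lit 483413) (nat_lit 27) (.e (nat_lit 401448) (nat_lit 10) (.e (nat_lit 434290) (nat_lit 44) .nil))))) .nil)) 
(.lf (nat_lit 10277) (.g (nat_lit 859) (.e (nat_lit 356) (nat_lit 29) (.e (nat_lit 401459) (nat_lit 13) (.e (nat_lit 483372) (nat_lit 21) .nil))) .nil))) (.nd (nat_lit 5) 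
(.lf (nat_lit 10261) (.g (nat_lit 1210) (.e (nat_lit 356) (nat_lit 29) (.e (nat_lit 401454) (nat_lit 12) (.e (nat_lit 475179) (nat_lit 24) .nil))) .nil)) 
(.lf (nat_lit 10293) (.g (nat_lit 1045) (.e (nat_lit 357) (nat_lit 29) (.e (nat_lit 401454) (nat_lit 12) (.e (nat_lit 475210) (nat_lit 41) .nil))) .nil)))) (.nd (nat_lit 4) (.nd (nat_lit 5) 
(.lf (nat_lit 10253) (.g (nat_lit 3875) (.e (nat_lit 355) (nat_lit 29) (.e (nat_lit 401459) (nat_lit 13) (.e (nat_lit 483372) (nat_lit 21) (.e (nat_lit 319505) (nat_lit 10) .nil)))) .nil)) 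
(.lf (nat_lit 10285) (.g (nat_lit 4176) (.e (nat_lit 357) (nat_lit 29) (.e (nat_lit 401451) (nat_lit 12) (.e (nat_lit 475185) (nat_lit 29) (.e (nat_lit 557107) (nat_lit 15) .nil)))) .nil))) (.nd (nat_lit 5) 
(.lf (nat_lit 10269) (.g (nat_lit 2883) (.e (nat_lit 356) (nat_lit 29) (.e (nat_lit 401456) (nat_lit 13) (.e (nat_lit 483413) (nat_lit 27) (.e (nat_lit 401448) (nat_lit 10) (.e (nat_lit 434291) (nat_lit 44) .nil))))) .nil)) 
(.lf (nat_lit 10301) (.g (nat_lit 1168) (.e (nat_lit 357) (nat_lit 29) (.e (nat_lit 401459) (nat_lit 13) (.e (nat_lit 483363) (nat_lit 18) .nil))) .nil)))))) (.nd (nat_lit 2) (.nd (nat_lit 3) (.nd (nat_lit 4) (.nd (nat_lit 5) 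
(.lf (nat_lit 10243) (.g (nat_lit 621) (.e (nat_lit 355) (nat_lit 29) (.e (nat_lit 401457) (nat_lit 13) (.e (nat_lit 483413) (nat_lit 27) .nil))) .nil)) 
(.lf (nat_lit 10275) (.g (nat_lit 3637) (.e (nat_lit 356) (nat_lit 29) (.e (nat_lit 401457) (nat_lit 13) (.e (nat_lit 483413) (nat_lit 27) (.e (nat_lit 401448) (nat_lit 10) (.e (nat_lit 434291) (nat_lit 44) .nil))))) .nil))) (.nd (nat_lit 5) 
(.lf (nat_lit 10259) (.g (nat_lit 2959) (.e (nat_lit 355) (nat_lit 29) (.e (nat_lit 401459) (nat_lit 13) (.e (nat_lit 483411) (nat_lit 27) (.e (nat_lit 401448) (nat_lit 10) (.e (nat_lit 442112) (nat_lit 44) (.e (nat_lit 704526) (nat_lit 0) .nil)))))) (.g (nat_lit 4) .nil .nil))) 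
(.lf (nat_lit 10291) (.g (nat_lit 2750) (.e (nat_lit 357) (nat_lit 29) (.e (nat_lit 401454) (nat_lit 12) (.e (nat_lit 475185) (nat_lit 29) (.e (nat_lit 557109) (nat_lit 15) .nil)))) .nil)))) (.nd (nat_lit 4) (.nd (nat_lit 5) 
(.lf (nat_lit 10251) (.g (nat_lit 823) (.e (nat_lit 355) (nat_lit 29) (.e (nat_lit 401459) (nat_lit 13) (.e (nat_lit 483372) (nat_lit 21) .nil))) .nil)) 
(.lf (nat_lit 10283) (.g (nat_lit 3140) (.e (nat_lit 356) (nat_lit 29) (.e (nat_lit 401459) (nat_lit 13) (.e (nat_lit 483411) (nat_lit 27) (.e (nat_lit 401448) (nat_lit 10) (.e (nat_lit 442112) (nat_lit 44) .nil))))) .nil))) (.nd (nat_lit 5) 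
(.lf (nat_lit 10267) (.g (nat_lit 3112) (.e (nat_lit 356) (nat_lit 29) (.e (nat_lit 401456) (nat_lit 13) (.e (nat_lit 483413) (nat_lit 27) (.e (nat_lit 401448) (nat_lit 10) (.e (nat_lit 434206) (nat_lit 18) (.e (nat_lit 6595) (nat_lit 351) (.e (nat_lit 2423) (nat_lit 157) .nil))))))) (.g (nat_lit 4) .nil .nil))) 
(.lf (nat_lit 10299) (.g (nat_lit 3723) (.e (nat_lit 357) (nat_lit 29) (.e (nat_lit 401457) (nat_lit 13) (.e (nat_lit 483413) (nat_lit 27) (.e (nat_lit 401448) (nat_lit 10) (.e (nat_lit 434291) (nat_lit 44) .nil))))) .nil))))) (.nd (nat_lit 3) (.nd (nat_lit 4) (.nd (nat_lit 5) 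
(.lf (nat_lit 10247) (.g (nat_lit 2697) (.e (nat_lit 355) (nat_lit 29) (.e (nat_lit 401457) (nat_lit 13) (.e (nat_lit 483413) (nat_lit 27) (.e (nat_lit 401448) (nat_lit 10) (.e (nat_lit 442112) (nat_lit 44) .nil))))) .nil)) 
(.lf (nat_lit 10279) (.g (nat_lit 4959) (.e (nat_lit 356) (nat_lit 29) (.e (nat_lit 401459) (nat_lit 13) (.e (nat_lit 483372) (nat_lit 21) (.e (nat_lit 319534) (nat_lit 16) (.e (nat_lit 286728) (nat_lit 0) .nil))))) .nil))) (.nd (nat_lit 5) 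
(.lf (nat_lit 10263) (.g (nat_lit 4138) (.e (nat_lit 356) (nat_lit 29) (.e (nat_lit 401454) (nat_lit 12) (.e (nat_lit 475185) (nat_lit 29) (.e (nat_lit 557100) (nat_lit 13) (.e (nat_lit 172113) (nat_lit 10) .nil))))) .nil)) 
(.lf (nat_lit 10295) (.g (nat_lit 1059) (.e (nat_lit 357) (nat_lit 29) (.e (nat_lit 401456) (nat_lit 13) (.e (nat_lit 483372) (nat_lit 21) .nil))) .nil)))) (.nd (nat_lit 4) (.nd (nat_lit 5) 
(.lf (nat_lit 10255) (.g (nat_lit 4655) (.e (nat_lit 355) (nat_lit 29) (.e (nat_lit 401459) (nat_lit 13) (.e (nat_lit 483372) (nat_lit 21) (.e (nat_lit 319524) (nat_lit 14) .nil)))) .nil)) 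
(.lf (nat_lit 10287) (.g (nat_lit 1129) (.e (nat_lit 357) (nat_lit 29) (.e (nat_lit 401454) (nat_lit 12) (.e (nat_lit 475185) (nat_lit 29) .nil))) .nil))) (.nd (nat_lit 5) 
(.lf (nat_lit 10271) (.g (nat_lit 932) (.e (nat_lit 356) (nat_lit 29) (.e (nat_lit 401457) (nat_lit 13) (.e (nat_lit 483413) (nat_lit 27) .nil))) .nil)) 
(.lf (nat_lit 10303) (.g (nat_lit 3647) (.e (nat_lit 357) (nat_lit 29) (.e (nat_lit 401459) (nat_lit 13) (.e (nat_lit 483372) (nat_lit 21) (.e (nat_lit 319533) (nat_lit 16) .nil)))) .nil))))))))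

noncomputable def tv139 : DT := (.nd (nat_lit 0) (.nd (nat_lit 1) (.nd (nat_lit 2) (.nd (nat_lit 3) (.nd (nat_lit 4) (.nd (nat_lit 5) 
(.lf (nat_lit 10304) (.g (nat_lit 4807) (.e (nat_lit 357) (nat_lit 29) (.e (nat_lit 401459) (nat_lit 13) (.e (nat_lit 483372) (nat_lit 21) (.e (nat_lit 319534) (nat_lit 16) (.e (nat_lit 286728) (nat_lit 0) .nil))))) .nil)) 
(.lf (nat_lit 10336) (.g (nat_lit 2379) (.e (nat_lit 359) (nat_lit 30) (.e (nat_lit 409602) (nat_lit 0) (.e (nat_lit 5270) (nat_lit 298) (.e (nat_lit 1256) (nat_lit 92) (.e (nat_lit 98373) (nat_lit 29) (.e (nat_lit 450587) (nat_lit 10) (.e (nat_lit 573456) (nat_lit 9) .nil))))))) (.g (nat_lit 4) .nil .nil)))) (.nd (nat_lit 5) 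
(.lf (nat_lit 10320) (.g (nat_lit 3759) (.e (nat_lit 358) (nat_lit 29) (.e (nat_lit 401457) (nat_lit 13) (.e (nat_lit 483413) (nat_lit 27) (.e (nat_lit 401448) (nat_lit 10) (.e (nat_lit 434291) (nat_lit 44) .nil))))) .nil)) 
(.lf (nat_lit 10352) (.g (nat_lit 3537) (.e (nat_lit 359) (nat_lit 30) (.e (nat_lit 409604) (nat_lit 0) (.e (nat_lit 5270) (nat_lit 298) (.e (nat_lit 1256) (nat_lit 92) (.e (nat_lit 98373) (nat_lit 29) (.e (nat_lit 450587) (nat_lit 10) (.e (nat_lit 573457) (nat_lit 9) .nil))))))) (.g (nat_lit 0) .nil .nil))))) (.nd (nat_lit 4) (.nd (nat_lit 5) 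
(.lf (nat_lit 10312) (.g (nat_lit 3453) (.e (nat_lit 358) (nat_lit 29) (.e (nat_lit 401456) (nat_lit 13) (.e (nat_lit 483413) (nat_lit 27) (.e (nat_lit 401448) (nat_lit 10) (.e (nat_lit 434207) (nat_lit 18) .nil))))) .nil)) 
(.lf (nat_lit 10344) (.g (nat_lit 2546) (.e (nat_lit 359) (nat_lit 30) (.e (nat_lit 409602) (nat_lit 0) (.e (nat_lit 5394) (nat_lit 301) (.e (nat_lit 57464) (nat_lit 23) (.e (nat_lit 516151) (nat_lit 9) (.e (nat_lit 426286) (nat_lit 10) (.e (nat_lit 434248) (nat_lit 28) (.e (nat_lit 573455) (nat_lit 9) .nil)))))))) (.g (nat_lit 5) .nil .nil)))) (.nd (nat_lit 5) 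
(.lf (nat_lit 10328) (.g (nat_lit 3803) (.e (nat_lit 7936) (nat_lit 29) (.e (nat_lit 401459) (nat_lit 13) (.e (nat_lit 483372) (nat_lit 21) (.e (nat_lit 319506) (nat_lit 10) .nil)))) .nil)) 
(.lf (nat_lit 10360) (.g (nat_lit 1781) (.e (nat_lit 7936) (nat_lit 30) (.e (nat_lit 409602) (nat_lit 0) (.e (nat_lit 5293) (nat_lit 298) (.e (nat_lit 1656) (nat_lit 115) (.e (nat_lit 393265) (nat_lit 22) .nil))))) .nil))))) (.nd (nat_lit 3) (.nd (nat_lit 4) (.nd (nat_lit 5) 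
(.lf (nat_lit 10308) (.g (nat_lit 2527) (.e (nat_lit 358) (nat_lit 29) (.e (nat_lit 401454) (nat_lit 12) (.e (nat_lit 475185) (nat_lit 29) (.e (nat_lit 557101) (nat_lit 13) .nil)))) .nil)) 
(.lf (nat_lit 10340) (.g (nat_lit 2827) (.e (nat_lit 359) (nat_lit 30) (.e (nat_lit 409602) (nat_lit 0) (.e (nat_lit 5270) (nat_lit 298) (.e (nat_lit 1400) (nat_lit 106) (.e (nat_lit 319534) (nat_lit 16) (.e (nat_lit 286756) (nat_lit 10) (.e (nat_lit 344160) (nat_lit 37) (.e (nat_lit 647190) (nat_lit 9) .nil)))))))) (.g (nat_lit 5) .nil .nil)))) (.nd (nat_lit 5) 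
(.lf (nat_lit 10324) (.g (nat_lit 1273) (.e (nat_lit 358) (nat_lit 29) (.e (nat_lit 401459) (nat_lit 13) (.e (nat_lit 483411) (nat_lit 27) .nil))) .nil)) 
(.lf (nat_lit 10356) (.g (nat_lit 2138) (.e (nat_lit 361) (nat_lit 30) (.e (nat_lit 409602) (nat_lit 0) (.e (nat_lit 5293) (nat_lit 298) (.e (nat_lit 1656) (nat_lit 115) (.e (nat_lit 393265) (nat_lit 22) (.e (nat_lit 417821) (nat_lit 10) (.e (nat_lit 5261) (nat_lit 298) .nil))))))) (.g (nat_lit 4) .nil .nil))))) (.nd (nat_lit 4) (.nd (nat_lit 5) 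
(.lf (nat_lit 10316) (.g (nat_lit 968) (.e (nat_lit 358) (nat_lit 29) (.e (nat_lit 401457) (nat_lit 13) (.e (nat_lit 483413) (nat_lit 27) .nil))) .nil)) 
(.lf (nat_lit 10348) (.g (nat_lit 3446) (.e (nat_lit 359) (nat_lit 30) (.e (nat_lit 409604) (nat_lit 0) (.e (nat_lit 5245) (nat_lit 298) (.e (nat_lit 1400) (nat_lit 106) (.e (nat_lit 319534) (nat_lit 16) (.e (nat_lit 286756) (nat_lit 10) (.e (nat_lit 344160) (nat_lit 37) (.e (nat_lit 647190) (nat_lit 9) .nil)))))))) (.g (nat_lit 6) .nil .nil)))) (.nd (nat_lit 5) 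
(.lf (nat_lit 10332) (.g (nat_lit 4505) (.e (nat_lit 359) (nat_lit 30) (.e (nat_lit 409602) (nat_lit 0) (.e (nat_lit 5270) (nat_lit 298) (.e (nat_lit 1256) (nat_lit 92) (.e (nat_lit 98359) (nat_lit 26) (.e (nat_lit 426286) (nat_lit 10) (.e (nat_lit 434248) (nat_lit 28) (.e (nat_lit 573452) (nat_lit 9) .nil)))))))) (.g (nat_lit 0) .nil .nil))) 
(.lf (nat_lit 10364) (.g (nat_lit 2848) (.e (nat_lit 365) (nat_lit 31) (.e (nat_lit 417793) (nat_lit 0) (.e (nat_lit 5271) (nat_lit 298) (.e (nat_lit 1256) (nat_lit 92) (.e (nat_lit 98373) (nat_lit 29) (.e (nat_lit 450587) (nat_lit 10) (.e (nat_lit 573457) (nat_lit 9) .nil))))))) (.g (nat_lit 0) .nil .nil))))))) (.nd (nat_lit 2) (.nd (nat_lit 3) (.nd (nat_lit 4) (.nd (nat_lit 5) 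
(.lf (nat_lit 10306) (.g (nat_lit 3630) (.e (nat_lit 358) (nat_lit 29) (.e (nat_lit 401451) (nat_lit 12) (.e (nat_lit 475185) (nat_lit 29) (.e (nat_lit 557100) (nat_lit 13) .nil)))) .nil)) 
(.lf (nat_lit 10338) (.g (nat_lit 4543) (.e (nat_lit 359) (nat_lit 30) (.e (nat_lit 409602) (nat_lit 0) (.e (nat_lit 5270) (nat_lit 298) (.e (nat_lit 1256) (nat_lit 92) (.e (nat_lit 98373) (nat_lit 29) (.e (nat_lit 450588) (nat_lit 10) (.e (nat_lit 573457) (nat_lit 9) .nil))))))) (.g (nat_lit 7) .nil .nil)))) (.nd (nat_lit 5) 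
(.lf (nat_lit 10322) (.g (nat_lit 4365) (.e (nat_lit 358) (nat_lit 29) (.e (nat_lit 401459) (nat_lit 13) (.e (nat_lit 483372) (nat_lit 21) (.e (nat_lit 319531) (nat_lit 16) .nil)))) .nil)) 
(.lf (nat_lit 10354) (.g (nat_lit 3236) (.e (nat_lit 359) (nat_lit 30) (.e (nat_lit 409604) (nat_lit 0) (.e (nat_lit 5270) (nat_lit 298) (.e (nat_lit 1401) (nat_lit 106) (.e (nat_lit 319533) (nat_lit 16) (.e (nat_lit 286753) (nat_lit 10) (.e (nat_lit 344160) (nat_lit 37) (.e (nat_lit 647190) (nat_lit 9) .nil)))))))) (.g (nat_lit 5) .nil .nil))))) (.nd (nat_lit 4) (.nd (nat_lit 5) 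
(.lf (nat_lit 10314) (.g (nat_lit 2803) (.e (nat_lit 358) (nat_lit 29) (.e (nat_lit 401456) (nat_lit 13) (.e (nat_lit 483413) (nat_lit 27) (.e (nat_lit 401448) (nat_lit 10) (.e (nat_lit 434290) (nat_lit 44) .nil))))) .nil)) 
(.lf (nat_lit 10346) (.g (nat_lit 2969) (.e (nat_lit 359) (nat_lit 30) (.e (nat_lit 409603) (nat_lit 0) (.e (nat_lit 5270) (nat_lit 298) (.e (nat_lit 1256) (nat_lit 92) (.e (nat_lit 98359) (nat_lit 26) (.e (nat_lit 426286) (nat_lit 10) (.e (nat_lit 434248) (nat_lit 28) (.e (nat_lit 573455) (nat_lit 9) .nil)))))))) (.g (nat_lit 6) .nil .nil)))) (.nd (nat_lit 5) 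
(.lf (nat_lit 10330) (.g (nat_lit 3395) (.e (nat_lit 7936) (nat_lit 29) (.e (nat_lit 401459) (nat_lit 13) (.e (nat_lit 483372) (nat_lit 21) (.e (nat_lit 319534) (nat_lit 16) .nil)))) .nil)) 
(.lf (nat_lit 10362) (.g (nat_lit 2330) (.e (nat_lit 365) (nat_lit 31) (.e (nat_lit 417793) (nat_lit 0) (.e (nat_lit 5271) (nat_lit 298) (.e (nat_lit 1256) (nat_lit 92) (.e (nat_lit 98372) (nat_lit 29) (.e (nat_lit 450586) (nat_lit 10) (.e (nat_lit 573456) (nat_lit 9) .nil))))))) (.g (nat_lit 0) .nil .nil)))))) (.nd (nat_lit 3) (.nd (nat_lit 4) (.nd (nat_lit 5) 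
(.lf (nat_lit 10310) (.g (nat_lit 710) (.e (nat_lit 358) (nat_lit 29) (.e (nat_lit 401456) (nat_lit 13) (.e (nat_lit 483413) (nat_lit 27) .nil))) .nil)) 
(.lf (nat_lit 10342) (.g (nat_lit 2739) (.e (nat_lit 359) (nat_lit 30) (.e (nat_lit 409602) (nat_lit 0) (.e (nat_lit 5389) (nat_lit 301) (.e (nat_lit 57464) (nat_lit 23) (.e (nat_lit 516151) (nat_lit 9) (.e (nat_lit 426286) (nat_lit 10) (.e (nat_lit 434247) (nat_lit 28) (.e (nat_lit 573457) (nat_lit 9) .nil)))))))) (.g (nat_lit 6) .nil .nil)))) (.nd (nat_lit 5) 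
(.lf (nat_lit 10326) (.g (nat_lit 3004) (.e (nat_lit 358) (nat_lit 29) (.e (nat_lit 401459) (nat_lit 13) (.e (nat_lit 483411) (nat_lit 27) (.e (nat_lit 401448) (nat_lit 10) (.e (nat_lit 434206) (nat_lit 18) .nil))))) .nil)) 
(.lf (nat_lit 10358) (.g (nat_lit 2598) (.e (nat_lit 361) (nat_lit 30) (.e (nat_lit 409602) (nat_lit 0) (.e (nat_lit 5293) (nat_lit 298) (.e (nat_lit 1656) (nat_lit 115) (.e (nat_lit 393265) (nat_lit 22) (.e (nat_lit 417821) (nat_lit 10) (.e (nat_lit 5264) (nat_lit 298) .nil))))))) (.g (nat_lit 7) .nil .nil))))) (.nd (nat_lit 4) (.nd (nat_lit 5) 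
(.lf (nat_lit 10318) (.g (nat_lit 3128) (.e (nat_lit 358) (nat_lit 29) (.e (nat_lit 401457) (nat_lit 13) (.e (nat_lit 483413) (nat_lit 27) (.e (nat_lit 401448) (nat_lit 10) (.e (nat_lit 434206) (nat_lit 18) .nil))))) .nil)) 
(.lf (nat_lit 10350) (.g (nat_lit 1901) (.e (nat_lit 359) (nat_lit 30) (.e (nat_lit 409604) (nat_lit 0) (.e (nat_lit 5270) (nat_lit 298) (.e (nat_lit 1256) (nat_lit 92) (.e (nat_lit 98359) (nat_lit 26) (.e (nat_lit 426286) (nat_lit 10) (.e (nat_lit 434245) (nat_lit 28) (.e (nat_lit 573455) (nat_lit 9) .nil)))))))) (.g (nat_lit 4) .nil .nil)))) (.nd (nat_lit 5) 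
(.lf (nat_lit 10334) (.g (nat_lit 3193) (.e (nat_lit 359) (nat_lit 30) (.e (nat_lit 409602) (nat_lit 0) (.e (nat_lit 5270) (nat_lit 298) (.e (nat_lit 1256) (nat_lit 92) (.e (nat_lit 98372) (nat_lit 29) (.e (nat_lit 450586) (nat_lit 10) (.e (nat_lit 573457) (nat_lit 9) .nil))))))) (.g (nat_lit 0) .nil .nil))) 
(.lf (nat_lit 10366) (.g (nat_lit 2243) (.e (nat_lit 365) (nat_lit 31) (.e (nat_lit 417793) (nat_lit 0) (.e (nat_lit 5395) (nat_lit 301) (.e (nat_lit 57464) (nat_lit 23) (.e (nat_lit 516165) (nat_lit 12) (.e (nat_lit 450586) (nat_lit 10) (.e (nat_lit 573456) (nat_lit 9) .nil))))))) (.g (nat_lit 0) .nil .nil)))))))) 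
(.nd (nat_lit 1) (.nd (nat_lit 2) (.nd (nat_lit 3) (.nd (nat_lit 4) (.nd (nat_lit 5) 
(.lf (nat_lit 10305) (.g (nat_lit 1270) (.e (nat_lit 357) (nat_lit 29) (.e (nat_lit 401459) (nat_lit 13) (.e (nat_lit 483411) (nat_lit 27) .nil))) .nil)) 
(.lf (nat_lit 10337) (.g (nat_lit 3892) (.e (nat_lit 359) (nat_lit 30) (.e (nat_lit 409602) (nat_lit 0) (.e (nat_lit 5270) (nat_lit 298) (.e (nat_lit 1256) (nat_lit 92) (.e (nat_lit 98373) (nat_lit 29) (.e (nat_lit 450587) (nat_lit 10) (.e (nat_lit 573457) (nat_lit 9) .nil))))))) (.g (nat_lit 0) .nil .nil)))) (.nd (nat_lit 5) 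
(.lf (nat_lit 10321) (.g (nat_lit 901) (.e (nat_lit 358) (nat_lit 29) (.e (nat_lit 401459) (nat_lit 13) (.e (nat_lit 483372) (nat_lit 21) .nil))) .nil)) 
(.lf (nat_lit 10353) (.g (nat_lit 4663) (.e (nat_lit 359) (nat_lit 30) (.e (nat_lit 409604) (nat_lit 0) (.e (nat_lit 5270) (nat_lit 298) (.e (nat_lit 1400) (nat_lit 106) (.e (nat_lit 319534) (nat_lit 16) (.e (nat_lit 286756) (nat_lit 10) (.e (nat_lit 344160) (nat_lit 37) (.e (nat_lit 647190) (nat_lit 9) .nil)))))))) (.g (nat_lit 7) .nil .nil))))) (.nd (nat_lit 4) (.nd (nat_lit 5) 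
(.lf (nat_lit 10313) (.g (nat_lit 3182) (.e (nat_lit 358) (nat_lit 29) (.e (nat_lit 401456) (nat_lit 13) (.e (nat_lit 483413) (nat_lit 27) (.e (nat_lit 401448) (nat_lit 10) (.e (nat_lit 434208) (nat_lit 18) .nil))))) .nil)) 
(.lf (nat_lit 10345) (.g (nat_lit 3438) (.e (nat_lit 359) (nat_lit 30) (.e (nat_lit 409603) (nat_lit 0) (.e (nat_lit 5245) (nat_lit 298) (.e (nat_lit 1400) (nat_lit 106) (.e (nat_lit 319534) (nat_lit 16) (.e (nat_lit 286756) (nat_lit 10) (.e (nat_lit 344160) (nat_lit 37) (.e (nat_lit 647190) (nat_lit 9) .nil)))))))) (.g (nat_lit 6) .nil .nil)))) (.nd (nat_lit 5) 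
(.lf (nat_lit 10329) (.g (nat_lit 3260) (.e (nat_lit 7936) (nat_lit 29) (.e (nat_lit 401459) (nat_lit 13) (.e (nat_lit 483372) (nat_lit 21) (.e (nat_lit 319533) (nat_lit 16) .nil)))) .nil)) 
(.lf (nat_lit 10361) (.g (nat_lit 3137) (.e (nat_lit 365) (nat_lit 31) (.e (nat_lit 417793) (nat_lit 0) (.e (nat_lit 5271) (nat_lit 298) (.e (nat_lit 1256) (nat_lit 92) (.e (nat_lit 98359) (nat_lit 26) (.e (nat_lit 426286) (nat_lit 10) (.e (nat_lit 434247) (nat_lit 28) (.e (nat_lit 573456) (nat_lit 9) .nil)))))))) (.g (nat_lit 0) .nil .nil)))))) (.nd (nat_lit 3) (.nd (nat_lit 4) (.nd (nat_lit 5) 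
(.lf (nat_lit 10309) (.g (nat_lit 3165) (.e (nat_lit 358) (nat_lit 29) (.e (nat_lit 401454) (nat_lit 12) (.e (nat_lit 475185) (nat_lit 29) (.e (nat_lit 557107) (nat_lit 15) .nil)))) .nil)) 
(.lf (nat_lit 10341) (.g (nat_lit 5027) (.e (nat_lit 359) (nat_lit 30) (.e (nat_lit 409602) (nat_lit 0) (.e (nat_lit 5293) (nat_lit 298) (.e (nat_lit 1397) (nat_lit 106) (.e (nat_lit 319534) (nat_lit 16) (.e (nat_lit 286756) (nat_lit 10) (.e (nat_lit 344160) (nat_lit 37) (.e (nat_lit 647190) (nat_lit 9) .nil)))))))) (.g (nat_lit 7) .nil .nil)))) (.nd (nat_lit 5) 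
(.lf (nat_lit 10325) (.g (nat_lit 2261) (.e (nat_lit 358) (nat_lit 29) (.e (nat_lit 401459) (nat_lit 13) (.e (nat_lit 483411) (nat_lit 27) (.e (nat_lit 401448) (nat_lit 10) .nil)))) .nil)) 
(.lf (nat_lit 10357) (.g (nat_lit 2601) (.e (nat_lit 361) (nat_lit 30) (.e (nat_lit 409602) (nat_lit 0) (.e (nat_lit 5293) (nat_lit 298) (.e (nat_lit 1656) (nat_lit 115) (.e (nat_lit 393265) (nat_lit 22) (.e (nat_lit 417821) (nat_lit 10) (.e (nat_lit 5262) (nat_lit 298) .nil))))))) (.g (nat_lit 7) .nil .nil))))) (.nd (nat_lit 4) (.nd (nat_lit 5) 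
(.lf (nat_lit 10317) (.g (nat_lit 2920) (.e (nat_lit 358) (nat_lit 29) (.e (nat_lit 401457) (nat_lit 13) (.e (nat_lit 483413) (nat_lit 27) (.e (nat_lit 401446) (nat_lit 10) (.e (nat_lit 434207) (nat_lit 18) .nil))))) .nil)) 
(.lf (nat_lit 10349) (.g (nat_lit 2525) (.e (nat_lit 359) (nat_lit 30) (.e (nat_lit 409604) (nat_lit 0) (.e (nat_lit 5270) (nat_lit 298) (.e (nat_lit 1256) (nat_lit 92) (.e (nat_lit 98359) (nat_lit 26) (.e (nat_lit 426286) (nat_lit 10) (.e (nat_lit 434245) (nat_lit 28) (.e (nat_lit 573448) (nat_lit 9) .nil)))))))) (.g (nat_lit 5) .nil .nil)))) (.nd (nat_lit 5) 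
(.lf (nat_lit 10333) (.g (nat_lit 2809) (.e (nat_lit 359) (nat_lit 30) (.e (nat_lit 409602) (nat_lit 0) (.e (nat_lit 5270) (nat_lit 298) (.e (nat_lit 1256) (nat_lit 92) (.e (nat_lit 98359) (nat_lit 26) (.e (nat_lit 426286) (nat_lit 10) (.e (nat_lit 434248) (nat_lit 28) (.e (nat_lit 573455) (nat_lit 9) .nil)))))))) (.g (nat_lit 5) .nil .nil))) 
(.lf (nat_lit 10365) (.g (nat_lit 3186) (.e (nat_lit 365) (nat_lit 31) (.e (nat_lit 417793) (nat_lit 0) (.e (nat_lit 5395) (nat_lit 301) (.e (nat_lit 57464) (nat_lit 23) (.e (nat_lit 516151) (nat_lit 9) (.e (nat_lit 426286) (nat_lit 10) (.e (nat_lit 434247) (nat_lit 28) (.e (nat_lit 573456) (nat_lit 9) .nil)))))))) (.g (nat_lit 0) .nil .nil))))))) 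
(.nd (nat_lit 2) (.nd (nat_lit 3) (.nd (nat_lit 4) (.nd (nat_lit 5) 
(.lf (nat_lit 10307) (.g (nat_lit 4103) (.e (nat_lit 358) (nat_lit 29) (.e (nat_lit 401454) (nat_lit 12) (.e (nat_lit 475185) (nat_lit 29) (.e (nat_lit 557100) (nat_lit 13) (.e (nat_lit 172113) (nat_lit 10) .nil))))) .nil)) 
(.lf (nat_lit 10339) (.g (nat_lit 3219) (.e (nat_lit 359) (nat_lit 30) (.e (nat_lit 409602) (nat_lit 0) (.e (nat_lit 5270) (nat_lit 298) (.e (nat_lit 1400) (nat_lit 106) (.e (nat_lit 319533) (nat_lit 16) (.e (nat_lit 286753) (nat_lit 10) (.e (nat_lit 344160) (nat_lit 37) (.e (nat_lit 647190) (nat_lit 9) .nil)))))))) (.g (nat_lit 5) .nil .nil)))) (.nd (nat_lit 5) 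
(.lf (nat_lit 10323) (.g (nat_lit 3866) (.e (nat_lit 358) (nat_lit 29) (.e (nat_lit 401459) (nat_lit 13) (.e (nat_lit 483372) (nat_lit 21) (.e (nat_lit 319534) (nat_lit 16) .nil)))) .nil)) 
(.lf (nat_lit 10355) (.g (nat_lit 1083) (.e (nat_lit 361) (nat_lit 30) (.e (nat_lit 409602) (nat_lit 0) (.e (nat_lit 5293) (nat_lit 298) (.e (nat_lit 1656) (nat_lit 115) .nil)))) .nil)))) (.nd (nat_lit 4) (.nd (nat_lit 5) 
(.lf (nat_lit 10315) (.g (nat_lit 3618) (.e (nat_lit 358) (nat_lit 29) (.e (nat_lit 401456) (nat_lit 13) (.e (nat_lit 483413) (nat_lit 27) (.e (nat_lit 401448) (nat_lit 10) (.e (nat_lit 434291) (nat_lit 44) (.e (nat_lit 712448) (nat_lit 0) .nil)))))) (.g (nat_lit 5) .nil .nil))) 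
(.lf (nat_lit 10347) (.g (nat_lit 3638) (.e (nat_lit 359) (nat_lit 30) (.e (nat_lit 409603) (nat_lit 0) (.e (nat_lit 5270) (nat_lit 298) (.e (nat_lit 1400) (nat_lit 106) (.e (nat_lit 319534) (nat_lit 16) (.e (nat_lit 286756) (nat_lit 10) (.e (nat_lit 344160) (nat_lit 37) (.e (nat_lit 647190) (nat_lit 9) .nil)))))))) (.g (nat_lit 6) .nil .nil)))) (.nd (nat_lit 5) 
(.lf (nat_lit 10331) (.g (nat_lit 3378) (.e (nat_lit 359) (nat_lit 30) (.e (nat_lit 409602) (nat_lit 0) (.e (nat_lit 5245) (nat_lit 298) (.e (nat_lit 1400) (nat_lit 106) (.e (nat_lit 319534) (nat_lit 16) (.e (nat_lit 286756) (nat_lit 10) (.e (nat_lit 344160) (nat_lit 37) (.e (nat_lit 647190) (nat_lit 9) .nil)))))))) (.g (nat_lit 6) .nil .nil))) 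
(.lf (nat_lit 10363) (.g (nat_lit 3103) (.e (nat_lit 365) (nat_lit 31) (.e (nat_lit 417793) (nat_lit 0) (.e (nat_lit 5271) (nat_lit 298) (.e (nat_lit 1256) (nat_lit 92) (.e (nat_lit 98373) (nat_lit 29) (.e (nat_lit 450587) (nat_lit 10) (.e (nat_lit 573456) (nat_lit 9) .nil))))))) (.g (nat_lit 0) .nil .nil)))))) (.nd (nat_lit 3) (.nd (nat_lit 4) (.nd (nat_lit 5) 
(.lf (nat_lit 10311) (.g (nat_lit 3854) (.e (nat_lit 358) (nat_lit 29) (.e (nat_lit 401456) (nat_lit 13) (.e (nat_lit 483413) (nat_lit 27) (.e (nat_lit 401448) (nat_lit 10) (.e (nat_lit 434206) (nat_lit 18) (.e (nat_lit 6595) (nat_lit 351) (.e (nat_lit 2423) (nat_lit 157) .nil))))))) (.g (nat_lit 7) .nil .nil))) 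
(.lf (nat_lit 10343) (.g (nat_lit 4257) (.e (nat_lit 359) (nat_lit 30) (.e (nat_lit 409602) (nat_lit 0) (.e (nat_lit 5394) (nat_lit 301) (.e (nat_lit 57464) (nat_lit 23) (.e (nat_lit 516151) (nat_lit 9) (.e (nat_lit 426286) (nat_lit 10) (.e (nat_lit 434248) (nat_lit 28) (.e (nat_lit 573452) (nat_lit 9) .nil)))))))) (.g (nat_lit 0) .nil .nil)))) (.nd (nat_lit 5) 
(.lf (nat_lit 10327) (.g (nat_lit 3119) (.e (nat_lit 358) (nat_lit 29) (.e (nat_lit 401459) (nat_lit 13) (.e (nat_lit 483411) (nat_lit 27) (.e (nat_lit 401448) (nat_lit 10) (.e (nat_lit 442112) (nat_lit 44) .nil))))) .nil)) 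
(.lf (nat_lit 10359) (.g (nat_lit 716) (.e (nat_lit 362) (nat_lit 30) (.e (nat_lit 409646) (nat_lit 18) (.e (nat_lit 311040) (nat_lit 34) .nil))) .nil)))) (.nd (nat_lit 4) (.nd (nat_lit 5) 
(.lf (nat_lit 10319) (.g (nat_lit 3286) (.e (nat_lit 358) (nat_lit 29) (.e (nat_lit 401457) (nat_lit 13) (.e (nat_lit 483413) (nat_lit 27) (.e (nat_lit 401448) (nat_lit 10) (.e (nat_lit 434290) (nat_lit 44) .nil))))) .nil)) 
(.lf (nat_lit 10351) (.g (nat_lit 3370) (.e (nat_lit 359) (nat_lit 30) (.e (nat_lit 409604) (nat_lit 0) (.e (nat_lit 5270) (nat_lit 298) (.e (nat_lit 1256) (nat_lit 92) (.e (nat_lit 98359) (nat_lit 26) (.e (nat_lit 426286) (nat_lit 10) (.e (nat_lit 434248) (nat_lit 28) (.e (nat_lit 573455) (nat_lit 9) .nil)))))))) (.g (nat_lit 7) .nil .nil)))) (.nd (nat_lit 5) 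
(.lf (nat_lit 10335) (.g (nat_lit 4161) (.e (nat_lit 359) (nat_lit 30) (.e (nat_lit 409602) (nat_lit 0) (.e (nat_lit 5270) (nat_lit 298) (.e (nat_lit 1256) (nat_lit 92) (.e (nat_lit 98372) (nat_lit 29) (.e (nat_lit 450588) (nat_lit 10) (.e (nat_lit 573452) (nat_lit 9) .nil))))))) (.g (nat_lit 6) .nil .nil))) 
(.lf (nat_lit 10367) (.g (nat_lit 2420) (.e (nat_lit 365) (nat_lit 31) (.e (nat_lit 417793) (nat_lit 0) (.e (nat_lit 5395) (nat_lit 301) (.e (nat_lit 57464) (nat_lit 23) (.e (nat_lit 516166) (nat_lit 12) (.e (nat_lit 450587) (nat_lit 10) (.e (nat_lit 573456) (nat_lit 9) .nil))))))) (.g (nat_lit 0) .nil .nil)))))))))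

noncomputable def tv140 : DT := (.nd (nat_lit 0) (.nd (nat_lit 1) (.nd (nat_lit 2) (.nd (nat_lit 3) (.nd (nat_lit 4) (.nd (nat_lit 5) 
(.lf (nat_lit 10368) (.g (nat_lit 2252) (.e (nat_lit 365) (nat_lit 31) (.e (nat_lit 417793) (nat_lit 0) (.e (nat_lit 5395) (nat_lit 301) (.e (nat_lit 57464) (nat_lit 23) (.e (nat_lit 516166) (nat_lit 12) (.e (nat_lit 450587) (nat_lit 10) (.e (nat_lit 573457) (nat_lit 9) .nil))))))) (.g (nat_lit 0) .nil .nil))) 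
(.lf (nat_lit 10400) (.g (nat_lit 4787) (.e (nat_lit 365) (nat_lit 31) (.e (nat_lit 417812) (nat_lit 7) (.e (nat_lit 294930) (nat_lit 3) (.e (nat_lit 98373) (nat_lit 29) (.e (nat_lit 450588) (nat_lit 10) (.e (nat_lit 573452) (nat_lit 9) .nil)))))) (.g (nat_lit 0) .nil .nil)))) (.nd (nat_lit 5) 
(.lf (nat_lit 10384) (.g (nat_lit 2749) (.e (nat_lit 365) (nat_lit 31) (.e (nat_lit 417810) (nat_lit 6) (.e (nat_lit 286733) (nat_lit 2) (.e (nat_lit 90170) (nat_lit 13) (.e (nat_lit 172113) (nat_lit 10) .nil))))) .nil)) 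
(.lf (nat_lit 10416) (.g (nat_lit 1814) (.e (nat_lit 371) (nat_lit 32) (.e (nat_lit 426482) (nat_lit 27) (.e (nat_lit 336060) (nat_lit 7) (.e (nat_lit 319505) (nat_lit 10) (.e (nat_lit 618) (nat_lit 48) (.e (nat_lit 564992) (nat_lit 19) (.e (nat_lit 57816) (nat_lit 246) (.e (nat_lit 57881) (nat_lit 270) .nil)))))))) (.g (nat_lit 4) .nil .nil))))) (.nd (nat_lit 4) (.nd (nat_lit 5) 
(.lf (nat_lit 10376) (.g (nat_lit 3466) (.e (nat_lit 365) (nat_lit 31) (.e (nat_lit 417795) (nat_lit 0) (.e (nat_lit 5271) (nat_lit 298) (.e (nat_lit 1256) (nat_lit 92) (.e (nat_lit 98373) (nat_lit 29) (.e (nat_lit 450588) (nat_lit 10) (.e (nat_lit 573457) (nat_lit 9) .nil))))))) (.g (nat_lit 6) .nil .nil))) 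
(.lf (nat_lit 10408) (.g (nat_lit 2633) (.e (nat_lit 369) (nat_lit 32) (.e (nat_lit 426482) (nat_lit 27) (.e (nat_lit 336060) (nat_lit 7) (.e (nat_lit 319505) (nat_lit 10) (.e (nat_lit 618) (nat_lit 48) (.e (nat_lit 557105) (nat_lit 14) (.e (nat_lit 188160) (nat_lit 32) .nil))))))) (.g (nat_lit 5) .nil .nil)))) (.nd (nat_lit 5) 
(.lf (nat_lit 10392) (.g (nat_lit 3927) (.e (nat_lit 365) (nat_lit 31) (.e (nat_lit 417811) (nat_lit 6) (.e (nat_lit 286734) (nat_lit 3) (.e (nat_lit 98373) (nat_lit 29) (.e (nat_lit 450587) (nat_lit 10) (.e (nat_lit 573456) (nat_lit 9) .nil)))))) (.g (nat_lit 0) .nil .nil))) 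
(.lf (nat_lit 10424) (.g (nat_lit 2436) (.e (nat_lit 373) (nat_lit 32) (.e (nat_lit 426312) (nat_lit 12) (.e (nat_lit 475185) (nat_lit 29) (.e (nat_lit 557100) (nat_lit 13) (.e (nat_lit 172113) (nat_lit 10) (.e (nat_lit 434245) (nat_lit 28) (.e (nat_lit 573449) (nat_lit 9) .nil))))))) (.g (nat_lit 5) .nil .nil)))))) (.nd (nat_lit 3) (.nd (nat_lit 4) (.nd (nat_lit 5) 
(.lf (nat_lit 10372) (.g (nat_lit 3225) (.e (nat_lit 365) (nat_lit 31) (.e (nat_lit 417794) (nat_lit 0) (.e (nat_lit 5395) (nat_lit 301) (.e (nat_lit 57464) (nat_lit 23) (.e (nat_lit 516151) (nat_lit 9) (.e (nat_lit 426286) (nat_lit 10) (.e (nat_lit 434247) (nat_lit 28) (.e (nat_lit 573456) (nat_lit 9) .nil)))))))) (.g (nat_lit 0) .nil .nil))) 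
(.lf (nat_lit 10404) (.g (nat_lit 2501) (.e (nat_lit 369) (nat_lit 32) (.e (nat_lit 426340) (nat_lit 14) (.e (nat_lit 491571) (nat_lit 13) (.e (nat_lit 393238) (nat_lit 17) (.e (nat_lit 6989) (nat_lit 377) .nil))))) .nil))) (.nd (nat_lit 5) 
(.lf (nat_lit 10388) (.g (nat_lit 6010) (.e (nat_lit 365) (nat_lit 31) (.e (nat_lit 417810) (nat_lit 6) (.e (nat_lit 286735) (nat_lit 3) (.e (nat_lit 98373) (nat_lit 29) (.e (nat_lit 450587) (nat_lit 10) (.e (nat_lit 573456) (nat_lit 9) .nil)))))) (.g (nat_lit 6) .nil .nil))) 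
(.lf (nat_lit 10420) (.g (nat_lit 4476) (.e (nat_lit 372) (nat_lit 32) (.e (nat_lit 426131) (nat_lit 3) (.e (nat_lit 204869) (nat_lit 29) (.e (nat_lit 360474) (nat_lit 8) (.e (nat_lit 557094) (nat_lit 12) .nil))))) .nil)))) (.nd (nat_lit 4) (.nd (nat_lit 5) 
(.lf (nat_lit 10380) (.g (nat_lit 3338) (.e (nat_lit 365) (nat_lit 31) (.e (nat_lit 417796) (nat_lit 0) (.e (nat_lit 5389) (nat_lit 301) (.e (nat_lit 57464) (nat_lit 23) (.e (nat_lit 516151) (nat_lit 9) (.e (nat_lit 426286) (nat_lit 10) (.e (nat_lit 434247) (nat_lit 28) (.e (nat_lit 573456) (nat_lit 9) .nil)))))))) (.g (nat_lit 7) .nil .nil))) 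
(.lf (nat_lit 10412) (.g (nat_lit 3299) (.e (nat_lit 371) (nat_lit 32) (.e (nat_lit 426482) (nat_lit 27) (.e (nat_lit 336060) (nat_lit 7) (.e (nat_lit 319505) (nat_lit 10) (.e (nat_lit 618) (nat_lit 48) (.e (nat_lit 557104) (nat_lit 14) (.e (nat_lit 188160) (nat_lit 32) .nil))))))) (.g (nat_lit 6) .nil .nil)))) (.nd (nat_lit 5) 
(.lf (nat_lit 10396) (.g (nat_lit 6021) (.e (nat_lit 365) (nat_lit 31) (.e (nat_lit 417811) (nat_lit 6) (.e (nat_lit 286735) (nat_lit 3) (.e (nat_lit 98373) (nat_lit 29) (.e (nat_lit 450587) (nat_lit 10) (.e (nat_lit 573456) (nat_lit 9) .nil)))))) (.g (nat_lit 6) .nil .nil))) 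
(.lf (nat_lit 10428) (.g (nat_lit 3851) (.e (nat_lit 375) (nat_lit 32) (.e (nat_lit 426025) (nat_lit 0) (.e (nat_lit 7537) (nat_lit 402) (.e (nat_lit 1661) (nat_lit 115) (.e (nat_lit 393260) (nat_lit 21) (.e (nat_lit 409616) (nat_lit 10) (.e (nat_lit 7936) (nat_lit 298) .nil))))))) (.g (nat_lit 6) .nil .nil))))))) (.nd (nat_lit 2) (.nd (nat_lit 3) (.nd (nat_lit 4) (.nd (nat_lit 5) 
(.lf (nat_lit 10370) (.g (nat_lit 2386) (.e (nat_lit 365) (nat_lit 31) (.e (nat_lit 417794) (nat_lit 0) (.e (nat_lit 5271) (nat_lit 298) (.e (nat_lit 1256) (nat_lit 92) (.e (nat_lit 98372) (nat_lit 29) (.e (nat_lit 450586) (nat_lit 10) (.e (nat_lit 573456) (nat_lit 9) .nil))))))) (.g (nat_lit 0) .nil .nil))) 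
(.lf (nat_lit 10402) (.g (nat_lit 1095) (.e (nat_lit 367) (nat_lit 31) (.e (nat_lit 417809) (nat_lit 6) (.e (nat_lit 286761) (nat_lit 13) (.e (nat_lit 393265) (nat_lit 22) .nil)))) .nil))) (.nd (nat_lit 5) 
(.lf (nat_lit 10386) (.g (nat_lit 1813) (.e (nat_lit 365) (nat_lit 31) (.e (nat_lit 417810) (nat_lit 6) (.e (nat_lit 286735) (nat_lit 3) (.e (nat_lit 98372) (nat_lit 29) (.e (nat_lit 450586) (nat_lit 10) (.e (nat_lit 573456) (nat_lit 9) .nil)))))) (.g (nat_lit 6) .nil .nil))) 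
(.lf (nat_lit 10418) (.g (nat_lit 2519) (.e (nat_lit 372) (nat_lit 32) (.e (nat_lit 426131) (nat_lit 3) (.e (nat_lit 204868) (nat_lit 29) (.e (nat_lit 360473) (nat_lit 8) (.e (nat_lit 557093) (nat_lit 12) .nil))))) .nil)))) (.nd (nat_lit 4) (.nd (nat_lit 5) 
(.lf (nat_lit 10378) (.g (nat_lit 3180) (.e (nat_lit 365) (nat_lit 31) (.e (nat_lit 417796) (nat_lit 0) (.e (nat_lit 5271) (nat_lit 298) (.e (nat_lit 1256) (nat_lit 92) (.e (nat_lit 98373) (nat_lit 29) (.e (nat_lit 450587) (nat_lit 10) (.e (nat_lit 573457) (nat_lit 9) .nil))))))) (.g (nat_lit 0) .nil .nil))) 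
(.lf (nat_lit 10410) (.g (nat_lit 4810) (.e (nat_lit 371) (nat_lit 32) (.e (nat_lit 426436) (nat_lit 18) (.e (nat_lit 98335) (nat_lit 18) (.e (nat_lit 164327) (nat_lit 230) .nil)))) .nil))) (.nd (nat_lit 5) 
(.lf (nat_lit 10394) (.g (nat_lit 2319) (.e (nat_lit 365) (nat_lit 31) (.e (nat_lit 417811) (nat_lit 6) (.e (nat_lit 286735) (nat_lit 3) (.e (nat_lit 98372) (nat_lit 29) (.e (nat_lit 450586) (nat_lit 10) (.e (nat_lit 573456) (nat_lit 9) .nil)))))) (.g (nat_lit 6) .nil .nil))) 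
(.lf (nat_lit 10426) (.g (nat_lit 1518) (.e (nat_lit 374) (nat_lit 32) (.e (nat_lit 426340) (nat_lit 14) (.e (nat_lit 491571) (nat_lit 13) (.e (nat_lit 393260) (nat_lit 21) .nil)))) .nil))))) (.nd (nat_lit 3) (.nd (nat_lit 4) (.nd (nat_lit 5) 
(.lf (nat_lit 10374) (.g (nat_lit 3633) (.e (nat_lit 365) (nat_lit 31) (.e (nat_lit 417795) (nat_lit 0) (.e (nat_lit 5271) (nat_lit 298) (.e (nat_lit 1256) (nat_lit 92) (.e (nat_lit 98359) (nat_lit 26) (.e (nat_lit 426286) (nat_lit 10) (.e (nat_lit 434248) (nat_lit 28) (.e (nat_lit 573452) (nat_lit 9) .nil)))))))) (.g (nat_lit 0) .nil .nil))) 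
(.lf (nat_lit 10406) (.g (nat_lit 1835) (.e (nat_lit 369) (nat_lit 32) (.e (nat_lit 426482) (nat_lit 27) (.e (nat_lit 336060) (nat_lit 7) (.e (nat_lit 319505) (nat_lit 10) (.e (nat_lit 618) (nat_lit 48) .nil))))) .nil))) (.nd (nat_lit 5) 
(.lf (nat_lit 10390) (.g (nat_lit 5911) (.e (nat_lit 365) (nat_lit 31) (.e (nat_lit 417810) (nat_lit 6) (.e (nat_lit 286735) (nat_lit 3) (.e (nat_lit 98373) (nat_lit 29) (.e (nat_lit 450588) (nat_lit 10) (.e (nat_lit 573451) (nat_lit 9) .nil)))))) (.g (nat_lit 6) .nil .nil))) 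
(.lf (nat_lit 10422) (.g (nat_lit 1440) (.e (nat_lit 372) (nat_lit 32) (.e (nat_lit 426568) (nat_lit 34) (.e (nat_lit 393260) (nat_lit 21) .nil))) .nil)))) (.nd (nat_lit 4) (.nd (nat_lit 5) 
(.lf (nat_lit 10382) (.g (nat_lit 2926) (.e (nat_lit 365) (nat_lit 31) (.e (nat_lit 417809) (nat_lit 6) (.e (nat_lit 286735) (nat_lit 3) (.e (nat_lit 98373) (nat_lit 29) (.e (nat_lit 450587) (nat_lit 10) (.e (nat_lit 573457) (nat_lit 9) .nil)))))) (.g (nat_lit 6) .nil .nil))) 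
(.lf (nat_lit 10414) (.g (nat_lit 1682) (.e (nat_lit 371) (nat_lit 32) (.e (nat_lit 426482) (nat_lit 27) (.e (nat_lit 336060) (nat_lit 7) (.e (nat_lit 319505) (nat_lit 10) (.e (nat_lit 618) (nat_lit 48) (.e (nat_lit 564992) (nat_lit 19) (.e (nat_lit 57813) (nat_lit 246) (.e (nat_lit 57878) (nat_lit 270) .nil)))))))) (.g (nat_lit 4) .nil .nil)))) (.nd (nat_lit 5) 
(.lf (nat_lit 10398) (.g (nat_lit 2243) (.e (nat_lit 365) (nat_lit 31) (.e (nat_lit 417811) (nat_lit 6) (.e (nat_lit 286739) (nat_lit 7) (.e (nat_lit 319533) (nat_lit 16) (.e (nat_lit 286753) (nat_lit 10) (.e (nat_lit 344160) (nat_lit 37) (.e (nat_lit 647188) (nat_lit 9) .nil))))))) (.g (nat_lit 6) .nil .nil))) 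
(.lf (nat_lit 10430) (.g (nat_lit 3206) (.e (nat_lit 375) (nat_lit 32) (.e (nat_lit 426025) (nat_lit 0) (.e (nat_lit 7554) (nat_lit 402) (.e (nat_lit 1661) (nat_lit 115) (.e (nat_lit 393260) (nat_lit 21) (.e (nat_lit 409616) (nat_lit 10) (.e (nat_lit 7936) (nat_lit 298) .nil))))))) (.g (nat_lit 5) .nil .nil)))))))) 
(.nd (nat_lit 1) (.nd (nat_lit 2) (.nd (nat_lit 3) (.nd (nat_lit 4) (.nd (nat_lit 5) 
(.lf (nat_lit 10369) (.g (nat_lit 3196) (.e (nat_lit 365) (nat_lit 31) (.e (nat_lit 417794) (nat_lit 0) (.e (nat_lit 5271) (nat_lit 298) (.e (nat_lit 1256) (nat_lit 92) (.e (nat_lit 98359) (nat_lit 26) (.e (nat_lit 426286) (nat_lit 10) (.e (nat_lit 434247) (nat_lit 28) (.e (nat_lit 573456) (nat_lit 9) .nil)))))))) (.g (nat_lit 0) .nil .nil))) 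
(.lf (nat_lit 10401) (.g (nat_lit 4022) (.e (nat_lit 365) (nat_lit 31) (.e (nat_lit 417812) (nat_lit 7) (.e (nat_lit 294931) (nat_lit 3) (.e (nat_lit 98373) (nat_lit 29) (.e (nat_lit 450588) (nat_lit 10) (.e (nat_lit 573452) (nat_lit 9) .nil)))))) (.g (nat_lit 6) .nil .nil)))) (.nd (nat_lit 5) 
(.lf (nat_lit 10385) (.g (nat_lit 942) (.e (nat_lit 365) (nat_lit 31) (.e (nat_lit 417810) (nat_lit 6) (.e (nat_lit 286734) (nat_lit 3) (.e (nat_lit 98372) (nat_lit 29) .nil)))) .nil)) 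
(.lf (nat_lit 10417) (.g (nat_lit 245) (.e (nat_lit 371) (nat_lit 32) (.e (nat_lit 426540) (nat_lit 29) (.e (nat_lit 360192) (nat_lit 2) .nil))) .nil)))) (.nd (nat_lit 4) (.nd (nat_lit 5) 
(.lf (nat_lit 10377) (.g (nat_lit 3801) (.e (nat_lit 365) (nat_lit 31) (.e (nat_lit 417796) (nat_lit 0) (.e (nat_lit 5271) (nat_lit 298) (.e (nat_lit 1256) (nat_lit 92) (.e (nat_lit 98359) (nat_lit 26) (.e (nat_lit 426286) (nat_lit 10) (.e (nat_lit 434248) (nat_lit 28) (.e (nat_lit 573452) (nat_lit 9) .nil)))))))) (.g (nat_lit 0) .nil .nil))) 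
(.lf (nat_lit 10409) (.g (nat_lit 1791) (.e (nat_lit 370) (nat_lit 32) (.e (nat_lit 426312) (nat_lit 12) (.e (nat_lit 475185) (nat_lit 29) (.e (nat_lit 557100) (nat_lit 13) (.e (nat_lit 172113) (nat_lit 10) .nil))))) .nil))) (.nd (nat_lit 5) 
(.lf (nat_lit 10393) (.g (nat_lit 3681) (.e (nat_lit 365) (nat_lit 31) (.e (nat_lit 417811) (nat_lit 6) (.e (nat_lit 286734) (nat_lit 3) (.e (nat_lit 98373) (nat_lit 29) (.e (nat_lit 450587) (nat_lit 10) (.e (nat_lit 573457) (nat_lit 9) .nil)))))) (.g (nat_lit 0) .nil .nil))) 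
(.lf (nat_lit 10425) (.g (nat_lit 2510) (.e (nat_lit 373) (nat_lit 32) (.e (nat_lit 426338) (nat_lit 14) (.e (nat_lit 491549) (nat_lit 9) (.e (nat_lit 336369) (nat_lit 27) (.e (nat_lit 426173) (nat_lit 7) .nil))))) .nil))))) (.nd (nat_lit 3) (.nd (nat_lit 4) (.nd (nat_lit 5) 
(.lf (nat_lit 10373) (.g (nat_lit 2290) (.e (nat_lit 365) (nat_lit 31) (.e (nat_lit 417794) (nat_lit 0) (.e (nat_lit 5395) (nat_lit 301) (.e (nat_lit 57464) (nat_lit 23) (.e (nat_lit 516165) (nat_lit 12) (.e (nat_lit 450586) (nat_lit 10) (.e (nat_lit 573456) (nat_lit 9) .nil))))))) (.g (nat_lit 0) .nil .nil))) 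
(.lf (nat_lit 10405) (.g (nat_lit 2771) (.e (nat_lit 369) (nat_lit 32) (.e (nat_lit 426340) (nat_lit 14) (.e (nat_lit 491571) (nat_lit 13) (.e (nat_lit 393260) (nat_lit 21) (.e (nat_lit 417536) (nat_lit 10) .nil))))) .nil))) (.nd (nat_lit 5) 
(.lf (nat_lit 10389) (.g (nat_lit 5778) (.e (nat_lit 365) (nat_lit 31) (.e (nat_lit 417810) (nat_lit 6) (.e (nat_lit 286735) (nat_lit 3) (.e (nat_lit 98373) (nat_lit 29) (.e (nat_lit 450587) (nat_lit 10) (.e (nat_lit 573457) (nat_lit 9) .nil)))))) (.g (nat_lit 6) .nil .nil))) 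
(.lf (nat_lit 10421) (.g (nat_lit 3222) (.e (nat_lit 372) (nat_lit 32) (.e (nat_lit 426482) (nat_lit 27) (.e (nat_lit 336060) (nat_lit 7) (.e (nat_lit 319505) (nat_lit 10) (.e (nat_lit 618) (nat_lit 48) (.e (nat_lit 557103) (nat_lit 14) (.e (nat_lit 188160) (nat_lit 32) .nil))))))) (.g (nat_lit 6) .nil .nil))))) (.nd (nat_lit 4) (.nd (nat_lit 5) 
(.lf (nat_lit 10381) (.g (nat_lit 3117) (.e (nat_lit 365) (nat_lit 31) (.e (nat_lit 417809) (nat_lit 6) (.e (nat_lit 286735) (nat_lit 3) (.e (nat_lit 98373) (nat_lit 29) (.e (nat_lit 450587) (nat_lit 10) (.e (nat_lit 573456) (nat_lit 9) .nil)))))) (.g (nat_lit 6) .nil .nil))) 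
(.lf (nat_lit 10413) (.g (nat_lit 3603) (.e (nat_lit 371) (nat_lit 32) (.e (nat_lit 426482) (nat_lit 27) (.e (nat_lit 336060) (nat_lit 7) (.e (nat_lit 319505) (nat_lit 10) (.e (nat_lit 618) (nat_lit 48) (.e (nat_lit 557105) (nat_lit 14) (.e (nat_lit 188160) (nat_lit 32) .nil))))))) (.g (nat_lit 6) .nil .nil)))) (.nd (nat_lit 5) 
(.lf (nat_lit 10397) (.g (nat_lit 5833) (.e (nat_lit 365) (nat_lit 31) (.e (nat_lit 417811) (nat_lit 6) (.e (nat_lit 286735) (nat_lit 3) (.e (nat_lit 98373) (nat_lit 29) (.e (nat_lit 450587) (nat_lit 10) (.e (nat_lit 573457) (nat_lit 9) .nil)))))) (.g (nat_lit 0) .nil .nil))) 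
(.lf (nat_lit 10429) (.g (nat_lit 4392) (.e (nat_lit 375) (nat_lit 32) (.e (nat_lit 426025) (nat_lit 0) (.e (nat_lit 7537) (nat_lit 402) (.e (nat_lit 1661) (nat_lit 115) (.e (nat_lit 393260) (nat_lit 21) (.e (nat_lit 409617) (nat_lit 10) (.e (nat_lit 7936) (nat_lit 298) .nil))))))) (.g (nat_lit 6) .nil .nil))))))) (.nd (nat_lit 2) (.nd (nat_lit 3) (.nd (nat_lit 4) (.nd (nat_lit 5) 
(.lf (nat_lit 10371) (.g (nat_lit 3168) (.e (nat_lit 365) (nat_lit 31) (.e (nat_lit 417794) (nat_lit 0) (.e (nat_lit 5271) (nat_lit 298) (.e (nat_lit 1256) (nat_lit 92) (.e (nat_lit 98373) (nat_lit 29) (.e (nat_lit 450587) (nat_lit 10) (.e (nat_lit 573456) (nat_lit 9) .nil))))))) (.g (nat_lit 0) .nil .nil))) 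
(.lf (nat_lit 10403) (.g (nat_lit 1898) (.e (nat_lit 367) (nat_lit 31) (.e (nat_lit 417812) (nat_lit 7) (.e (nat_lit 294959) (nat_lit 13) (.e (nat_lit 393260) (nat_lit 21) (.e (nat_lit 409623) (nat_lit 10) (.e (nat_lit 5259) (nat_lit 298) .nil)))))) (.g (nat_lit 0) .nil .nil)))) (.nd (nat_lit 5) 
(.lf (nat_lit 10387) (.g (nat_lit 1610) (.e (nat_lit 365) (nat_lit 31) (.e (nat_lit 417810) (nat_lit 6) (.e (nat_lit 286735) (nat_lit 3) (.e (nat_lit 98372) (nat_lit 29) (.e (nat_lit 450586) (nat_lit 10) (.e (nat_lit 573457) (nat_lit 9) .nil)))))) (.g (nat_lit 6) .nil .nil))) 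
(.lf (nat_lit 10419) (.g (nat_lit 4557) (.e (nat_lit 372) (nat_lit 32) (.e (nat_lit 426131) (nat_lit 3) (.e (nat_lit 204869) (nat_lit 29) (.e (nat_lit 360474) (nat_lit 8) (.e (nat_lit 557093) (nat_lit 12) .nil))))) .nil)))) (.nd (nat_lit 4) (.nd (nat_lit 5) 
(.lf (nat_lit 10379) (.g (nat_lit 3633) (.e (nat_lit 365) (nat_lit 31) (.e (nat_lit 417796) (nat_lit 0) (.e (nat_lit 5271) (nat_lit 298) (.e (nat_lit 1256) (nat_lit 92) (.e (nat_lit 98373) (nat_lit 29) (.e (nat_lit 450588) (nat_lit 10) (.e (nat_lit 573457) (nat_lit 9) .nil))))))) (.g (nat_lit 6) .nil .nil))) 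
(.lf (nat_lit 10411) (.g (nat_lit 3642) (.e (nat_lit 371) (nat_lit 32) (.e (nat_lit 426482) (nat_lit 27) (.e (nat_lit 336060) (nat_lit 7) (.e (nat_lit 319505) (nat_lit 10) (.e (nat_lit 618) (nat_lit 48) (.e (nat_lit 557103) (nat_lit 14) (.e (nat_lit 188160) (nat_lit 32) .nil))))))) (.g (nat_lit 6) .nil .nil)))) (.nd (nat_lit 5) 
(.lf (nat_lit 10395) (.g (nat_lit 2171) (.e (nat_lit 365) (nat_lit 31) (.e (nat_lit 417811) (nat_lit 6) (.e (nat_lit 286735) (nat_lit 3) (.e (nat_lit 98372) (nat_lit 29) (.e (nat_lit 450586) (nat_lit 10) (.e (nat_lit 573457) (nat_lit 9) .nil)))))) (.g (nat_lit 0) .nil .nil))) 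
(.lf (nat_lit 10427) (.g (nat_lit 2443) (.e (nat_lit 375) (nat_lit 32) (.e (nat_lit 426025) (nat_lit 0) (.e (nat_lit 3277) (nat_lit 200) (.e (nat_lit 557103) (nat_lit 14) (.e (nat_lit 180250) (nat_lit 10) (.e (nat_lit 573480) (nat_lit 13) (.e (nat_lit 65568) (nat_lit 2) (.e (nat_lit 98048) (nat_lit 0) .nil)))))))) (.g (nat_lit 4) .nil .nil)))))) (.nd (nat_lit 3) (.nd (nat_lit 4) (.nd (nat_lit 5) 
(.lf (nat_lit 10375) (.g (nat_lit 3020) (.e (nat_lit 365) (nat_lit 31) (.e (nat_lit 417795) (nat_lit 0) (.e (nat_lit 5271) (nat_lit 298) (.e (nat_lit 1256) (nat_lit 92) (.e (nat_lit 98373) (nat_lit 29) (.e (nat_lit 450587) (nat_lit 10) (.e (nat_lit 573457) (nat_lit 9) .nil))))))) (.g (nat_lit 0) .nil .nil))) 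
(.lf (nat_lit 10407) (.g (nat_lit 3647) (.e (nat_lit 369) (nat_lit 32) (.e (nat_lit 426482) (nat_lit 27) (.e (nat_lit 336060) (nat_lit 7) (.e (nat_lit 319505) (nat_lit 10) (.e (nat_lit 618) (nat_lit 48) (.e (nat_lit 557103) (nat_lit 14) (.e (nat_lit 188160) (nat_lit 32) .nil))))))) (.g (nat_lit 6) .nil .nil)))) (.nd (nat_lit 5) 
(.lf (nat_lit 10391) (.g (nat_lit 930) (.e (nat_lit 365) (nat_lit 31) (.e (nat_lit 417811) (nat_lit 6) (.e (nat_lit 286734) (nat_lit 3) (.e (nat_lit 98373) (nat_lit 29) .nil)))) .nil)) 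
(.lf (nat_lit 10423) (.g (nat_lit 1791) (.e (nat_lit 373) (nat_lit 32) (.e (nat_lit 426312) (nat_lit 12) (.e (nat_lit 475185) (nat_lit 29) (.e (nat_lit 557100) (nat_lit 13) (.e (nat_lit 172113) (nat_lit 10) .nil))))) .nil)))) (.nd (nat_lit 4) (.nd (nat_lit 5) 
(.lf (nat_lit 10383) (.g (nat_lit 4306) (.e (nat_lit 365) (nat_lit 31) (.e (nat_lit 417809) (nat_lit 6) (.e (nat_lit 286735) (nat_lit 3) (.e (nat_lit 98373) (nat_lit 29) (.e (nat_lit 450588) (nat_lit 10) (.e (nat_lit 573452) (nat_lit 9) .nil)))))) (.g (nat_lit 0) .nil .nil))) 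
(.lf (nat_lit 10415) (.g (nat_lit 1610) (.e (nat_lit 371) (nat_lit 32) (.e (nat_lit 426482) (nat_lit 27) (.e (nat_lit 336060) (nat_lit 7) (.e (nat_lit 319505) (nat_lit 10) (.e (nat_lit 618) (nat_lit 48) (.e (nat_lit 564992) (nat_lit 19) (.e (nat_lit 57816) (nat_lit 246) (.e (nat_lit 57878) (nat_lit 270) .nil)))))))) (.g (nat_lit 4) .nil .nil)))) (.nd (nat_lit 5) 
(.lf (nat_lit 10399) (.g (nat_lit 3414) (.e (nat_lit 365) (nat_lit 31) (.e (nat_lit 417811) (nat_lit 6) (.e (nat_lit 286739) (nat_lit 7) (.e (nat_lit 319533) (nat_lit 16) (.e (nat_lit 286753) (nat_lit 10) (.e (nat_lit 344160) (nat_lit 37) (.e (nat_lit 647190) (nat_lit 9) .nil))))))) (.g (nat_lit 0) .nil .nil))) 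
(.lf (nat_lit 10431) (.g (nat_lit 3358) (.e (nat_lit 375) (nat_lit 32) (.e (nat_lit 426025) (nat_lit 0) (.e (nat_lit 7554) (nat_lit 402) (.e (nat_lit 1661) (nat_lit 115) (.e (nat_lit 393260) (nat_lit 21) (.e (nat_lit 409617) (nat_lit 10) (.e (nat_lit 7936) (nat_lit 298) .nil))))))) (.g (nat_lit 5) .nil .nil)))))))))

noncomputable def tv141 : DT := (.nd (nat_lit 0) (.nd (nat_lit 1) (.nd (nat_lit 2) (.nd (nat_lit 3) (.nd (nat_lit 4) (.nd (nat_lit 5) 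
(.lf (nat_lit 10432) (.g (nat_lit 562) (.e (nat_lit 375) (nat_lit 32) (.e (nat_lit 426109) (nat_lit 1) (.e (nat_lit 164403) (nat_lit 256) .nil))) .nil)) 
(.lf (nat_lit 10464) (.g (nat_lit 652) (.e (nat_lit 378) (nat_lit 32) (.e (nat_lit 426436) (nat_lit 18) (.e (nat_lit 106240) (nat_lit 3) .nil))) .nil))) (.nd (nat_lit 5) 
(.lf (nat_lit 10448) (.g (nat_lit 3365) (.e (nat_lit 375) (nat_lit 32) (.e (nat_lit 426125) (nat_lit 2) (.e (nat_lit 196630) (nat_lit 9) (.e (nat_lit 1596) (nat_lit 111) (.e (nat_lit 360475) (nat_lit 8) (.e (nat_lit 557091) (nat_lit 12) (.e (nat_lit 164022) (nat_lit 46) (.e (nat_lit 704627) (nat_lit 9) .nil)))))))) (.g (nat_lit 5) .nil .nil))) 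
(.lf (nat_lit 10480) (.g (nat_lit 2304) (.e (nat_lit 382) (nat_lit 32) (.e (nat_lit 426318) (nat_lit 12) (.e (nat_lit 475185) (nat_lit 29) (.e (nat_lit 557100) (nat_lit 13) (.e (nat_lit 172113) (nat_lit 10) .nil))))) .nil)))) (.nd (nat_lit 4) (.nd (nat_lit 5) 
(.lf (nat_lit 10440) (.g (nat_lit 3370) (.e (nat_lit 375) (nat_lit 32) (.e (nat_lit 426109) (nat_lit 1) (.e (nat_lit 164403) (nat_lit 256) (.e (nat_lit 57447) (nat_lit 19) (.e (nat_lit 393281) (nat_lit 23) (.e (nat_lit 426116) (nat_lit 2) (.e (nat_lit 196624) (nat_lit 9) .nil))))))) (.g (nat_lit 5) .nil .nil))) 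
(.lf (nat_lit 10472) (.g (nat_lit 2312) (.e (nat_lit 379) (nat_lit 32) (.e (nat_lit 426318) (nat_lit 12) (.e (nat_lit 475185) (nat_lit 29) (.e (nat_lit 557100) (nat_lit 13) (.e (nat_lit 172113) (nat_lit 10) .nil))))) .nil))) (.nd (nat_lit 5) 
(.lf (nat_lit 10456) (.g (nat_lit 1642) (.e (nat_lit 375) (nat_lit 32) (.e (nat_lit 426173) (nat_lit 7) (.e (nat_lit 409617) (nat_lit 10) (.e (nat_lit 5355) (nat_lit 298) (.e (nat_lit 1179) (nat_lit 87) (.e (nat_lit 57655) (nat_lit 152) (.e (nat_lit 1206) (nat_lit 89) (.e (nat_lit 81664) (nat_lit 40) .nil)))))))) (.g (nat_lit 4) .nil .nil))) 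
(.lf (nat_lit 10488) (.g (nat_lit 2514) (.e (nat_lit 389) (nat_lit 32) (.e (nat_lit 426338) (nat_lit 14) (.e (nat_lit 491549) (nat_lit 9) (.e (nat_lit 336369) (nat_lit 27) (.e (nat_lit 426173) (nat_lit 7) .nil))))) .nil))))) (.nd (nat_lit 3) (.nd (nat_lit 4) (.nd (nat_lit 5) 
(.lf (nat_lit 10436) (.g (nat_lit 2591) (.e (nat_lit 375) (nat_lit 32) (.e (nat_lit 426109) (nat_lit 1) (.e (nat_lit 164403) (nat_lit 256) (.e (nat_lit 57445) (nat_lit 19) (.e (nat_lit 393281) (nat_lit 23) (.e (nat_lit 426115) (nat_lit 2) (.e (nat_lit 196624) (nat_lit 9) .nil))))))) (.g (nat_lit 4) .nil .nil))) 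
(.lf (nat_lit 10468) (.g (nat_lit 2423) (.e (nat_lit 378) (nat_lit 32) (.e (nat_lit 426568) (nat_lit 34) (.e (nat_lit 393260) (nat_lit 21) (.e (nat_lit 409616) (nat_lit 10) .nil)))) .nil))) (.nd (nat_lit 5) 
(.lf (nat_lit 10452) (.g (nat_lit 826) (.e (nat_lit 375) (nat_lit 32) (.e (nat_lit 426125) (nat_lit 2) (.e (nat_lit 204544) (nat_lit 9) .nil))) .nil)) 
(.lf (nat_lit 10484) (.g (nat_lit 2906) (.e (nat_lit 387) (nat_lit 32) (.e (nat_lit 426343) (nat_lit 14) (.e (nat_lit 491570) (nat_lit 13) (.e (nat_lit 393260) (nat_lit 21) (.e (nat_lit 409617) (nat_lit 10) .nil))))) .nil)))) (.nd (nat_lit 4) (.nd (nat_lit 5) 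
(.lf (nat_lit 10444) (.g (nat_lit 761) (.e (nat_lit 375) (nat_lit 32) (.e (nat_lit 426125) (nat_lit 2) (.e (nat_lit 196630) (nat_lit 9) .nil))) .nil)) 
(.lf (nat_lit 10476) (.g (nat_lit 534) (.e (nat_lit 380) (nat_lit 32) (.e (nat_lit 426438) (nat_lit 18) (.e (nat_lit 98358) (nat_lit 26) .nil))) .nil))) (.nd (nat_lit 5) 
(.lf (nat_lit 10460) (.g (nat_lit 3120) (.e (nat_lit 375) (nat_lit 32) (.e (nat_lit 426201) (nat_lit 9) (.e (nat_lit 426354) (nat_lit 15) (.e (nat_lit 1860) (nat_lit 124) (.e (nat_lit 557100) (nat_lit 13) (.e (nat_lit 172113) (nat_lit 10) (.e (nat_lit 434245) (nat_lit 28) (.e (nat_lit 573450) (nat_lit 9) .nil)))))))) (.g (nat_lit 5) .nil .nil))) 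
(.lf (nat_lit 10492) (.g (nat_lit 870) (.e (nat_lit 392) (nat_lit 32) (.e (nat_lit 426100) (nat_lit 1) (.e (nat_lit 164399) (nat_lit 256) .nil))) .nil)))))) (.nd (nat_lit 2) (.nd (nat_lit 3) (.nd (nat_lit 4) (.nd (nat_lit 5) 
(.lf (nat_lit 10434) (.g (nat_lit 3408) (.e (nat_lit 375) (nat_lit 32) (.e (nat_lit 426109) (nat_lit 1) (.e (nat_lit 164403) (nat_lit 256) (.e (nat_lit 57406) (nat_lit 12) (.e (nat_lit 336443) (nat_lit 32) (.e (nat_lit 466977) (nat_lit 22) (.e (nat_lit 196624) (nat_lit 9) .nil))))))) (.g (nat_lit 5) .nil .nil))) 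
(.lf (nat_lit 10466) (.g (nat_lit 2117) (.e (nat_lit 378) (nat_lit 32) (.e (nat_lit 426438) (nat_lit 18) (.e (nat_lit 106240) (nat_lit 3) (.e (nat_lit 114714) (nat_lit 22) (.e (nat_lit 90172) (nat_lit 14) (.e (nat_lit 180236) (nat_lit 1) (.e (nat_lit 499965) (nat_lit 14) .nil))))))) (.g (nat_lit 6) .nil .nil)))) (.nd (nat_lit 5) 
(.lf (nat_lit 10450) (.g (nat_lit 2148) (.e (nat_lit 375) (nat_lit 32) (.e (nat_lit 426125) (nat_lit 2) (.e (nat_lit 196630) (nat_lit 9) (.e (nat_lit 1599) (nat_lit 111) .nil)))) .nil)) 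
(.lf (nat_lit 10482) (.g (nat_lit 1515) (.e (nat_lit 385) (nat_lit 32) (.e (nat_lit 426435) (nat_lit 18) (.e (nat_lit 98381) (nat_lit 31) (.e (nat_lit 466972) (nat_lit 21) (.e (nat_lit 164182) (nat_lit 154) .nil))))) .nil)))) (.nd (nat_lit 4) (.nd (nat_lit 5) 
(.lf (nat_lit 10442) (.g (nat_lit 3523) (.e (nat_lit 375) (nat_lit 32) (.e (nat_lit 426109) (nat_lit 1) (.e (nat_lit 164422) (nat_lit 272) (.e (nat_lit 1181) (nat_lit 87) (.e (nat_lit 57480) (nat_lit 28) (.e (nat_lit 557098) (nat_lit 13) (.e (nat_lit 172115) (nat_lit 10) (.e (nat_lit 434244) (nat_lit 28) (.e (nat_lit 573450) (nat_lit 9) .nil))))))))) (.g (nat_lit 6) .nil .nil))) 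
(.lf (nat_lit 10474) (.g (nat_lit 2547) (.e (nat_lit 379) (nat_lit 32) (.e (nat_lit 426482) (nat_lit 27) (.e (nat_lit 336060) (nat_lit 7) (.e (nat_lit 319505) (nat_lit 10) (.e (nat_lit 618) (nat_lit 48) (.e (nat_lit 557105) (nat_lit 14) (.e (nat_lit 188160) (nat_lit 32) .nil))))))) (.g (nat_lit 5) .nil .nil)))) (.nd (nat_lit 5) 
(.lf (nat_lit 10458) (.g (nat_lit 3039) (.e (nat_lit 375) (nat_lit 32) (.e (nat_lit 426173) (nat_lit 7) (.e (nat_lit 409649) (nat_lit 18) (.e (nat_lit 303106) (nat_lit 0) (.e (nat_lit 3453) (nat_lit 216) (.e (nat_lit 688182) (nat_lit 17) (.e (nat_lit 81664) (nat_lit 40) .nil))))))) (.g (nat_lit 6) .nil .nil))) 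
(.lf (nat_lit 10490) (.g (nat_lit 1435) (.e (nat_lit 390) (nat_lit 32) (.e (nat_lit 426344) (nat_lit 14) (.e (nat_lit 491568) (nat_lit 13) (.e (nat_lit 393260) (nat_lit 21) .nil)))) .nil))))) (.nd (nat_lit 3) (.nd (nat_lit 4) (.nd (nat_lit 5) 
(.lf (nat_lit 10438) (.g (nat_lit 2554) (.e (nat_lit 375) (nat_lit 32) (.e (nat_lit 426109) (nat_lit 1) (.e (nat_lit 164403) (nat_lit 256) (.e (nat_lit 57446) (nat_lit 19) (.e (nat_lit 393281) (nat_lit 23) (.e (nat_lit 426116) (nat_lit 2) (.e (nat_lit 196624) (nat_lit 9) .nil))))))) (.g (nat_lit 4) .nil .nil))) 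
(.lf (nat_lit 10470) (.g (nat_lit 4536) (.e (nat_lit 379) (nat_lit 32) (.e (nat_lit 426131) (nat_lit 3) (.e (nat_lit 204869) (nat_lit 29) (.e (nat_lit 360474) (nat_lit 8) (.e (nat_lit 557094) (nat_lit 12) .nil))))) .nil))) (.nd (nat_lit 5) 
(.lf (nat_lit 10454) (.g (nat_lit 2382) (.e (nat_lit 375) (nat_lit 32) (.e (nat_lit 426173) (nat_lit 7) (.e (nat_lit 409616) (nat_lit 10) (.e (nat_lit 926) (nat_lit 75) (.e (nat_lit 778280) (nat_lit 0) (.e (nat_lit 1454) (nat_lit 108) (.e (nat_lit 336099) (nat_lit 9) (.e (nat_lit 336013) (nat_lit 2) (.e (nat_lit 98048) (nat_lit 0) .nil))))))))) (.g (nat_lit 6) .nil .nil))) 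
(.lf (nat_lit 10486) (.g (nat_lit 2906) (.e (nat_lit 388) (nat_lit 32) (.e (nat_lit 426343) (nat_lit 14) (.e (nat_lit 491570) (nat_lit 13) (.e (nat_lit 393260) (nat_lit 21) (.e (nat_lit 409617) (nat_lit 10) .nil))))) .nil)))) (.nd (nat_lit 4) (.nd (nat_lit 5) 
(.lf (nat_lit 10446) (.g (nat_lit 3393) (.e (nat_lit 375) (nat_lit 32) (.e (nat_lit 426125) (nat_lit 2) (.e (nat_lit 196630) (nat_lit 9) (.e (nat_lit 1586) (nat_lit 111) (.e (nat_lit 360475) (nat_lit 8) (.e (nat_lit 557091) (nat_lit 12) (.e (nat_lit 164022) (nat_lit 46) (.e (nat_lit 704628) (nat_lit 9) .nil)))))))) (.g (nat_lit 4) .nil .nil))) 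
(.lf (nat_lit 10478) (.g (nat_lit 3119) (.e (nat_lit 381) (nat_lit 32) (.e (nat_lit 426482) (nat_lit 27) (.e (nat_lit 336060) (nat_lit 7) (.e (nat_lit 319505) (nat_lit 10) (.e (nat_lit 618) (nat_lit 48) (.e (nat_lit 557103) (nat_lit 14) (.e (nat_lit 188160) (nat_lit 32) .nil))))))) (.g (nat_lit 6) .nil .nil)))) (.nd (nat_lit 5) 
(.lf (nat_lit 10462) (.g (nat_lit 3292) (.e (nat_lit 377) (nat_lit 32) (.e (nat_lit 426312) (nat_lit 12) (.e (nat_lit 475185) (nat_lit 29) (.e (nat_lit 557100) (nat_lit 13) (.e (nat_lit 172113) (nat_lit 10) (.e (nat_lit 434248) (nat_lit 28) (.e (nat_lit 573449) (nat_lit 9) .nil))))))) (.g (nat_lit 6) .nil .nil))) 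
(.lf (nat_lit 10494) (.g (nat_lit 2325) (.e (nat_lit 392) (nat_lit 32) (.e (nat_lit 426188) (nat_lit 9) (.e (nat_lit 426354) (nat_lit 15) (.e (nat_lit 2031) (nat_lit 140) (.e (nat_lit 688177) (nat_lit 16) (.e (nat_lit 65610) (nat_lit 10) (.e (nat_lit 344160) (nat_lit 37) (.e (nat_lit 647195) (nat_lit 9) .nil)))))))) (.g (nat_lit 4) .nil .nil)))))))) 
(.nd (nat_lit 1) (.nd (nat_lit 2) (.nd (nat_lit 3) (.nd (nat_lit 4) (.nd (nat_lit 5) 
(.lf (nat_lit 10433) (.g (nat_lit 2752) (.e (nat_lit 375) (nat_lit 32) (.e (nat_lit 426109) (nat_lit 1) (.e (nat_lit 164403) (nat_lit 256) (.e (nat_lit 57406) (nat_lit 12) (.e (nat_lit 336443) (nat_lit 32) (.e (nat_lit 466974) (nat_lit 22) (.e (nat_lit 196624) (nat_lit 9) .nil))))))) (.g (nat_lit 4) .nil .nil))) 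
(.lf (nat_lit 10465) (.g (nat_lit 520) (.e (nat_lit 378) (nat_lit 32) (.e (nat_lit 426438) (nat_lit 18) (.e (nat_lit 106240) (nat_lit 3) .nil))) .nil))) (.nd (nat_lit 5) 
(.lf (nat_lit 10449) (.g (nat_lit 4639) (.e (nat_lit 375) (nat_lit 32) (.e (nat_lit 426125) (nat_lit 2) (.e (nat_lit 196630) (nat_lit 9) (.e (nat_lit 1596) (nat_lit 111) (.e (nat_lit 360475) (nat_lit 8) (.e (nat_lit 557091) (nat_lit 12) (.e (nat_lit 164022) (nat_lit 46) (.e (nat_lit 704629) (nat_lit 9) .nil)))))))) (.g (nat_lit 6) .nil .nil))) 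
(.lf (nat_lit 10481) (.g (nat_lit 2292) (.e (nat_lit 385) (nat_lit 32) (.e (nat_lit 426318) (nat_lit 12) (.e (nat_lit 475185) (nat_lit 29) (.e (nat_lit 557100) (nat_lit 13) (.e (nat_lit 172113) (nat_lit 10) .nil))))) .nil)))) (.nd (nat_lit 4) (.nd (nat_lit 5) 
(.lf (nat_lit 10441) (.g (nat_lit 3467) (.e (nat_lit 375) (nat_lit 32) (.e (nat_lit 426109) (nat_lit 1) (.e (nat_lit 164422) (nat_lit 272) (.e (nat_lit 1181) (nat_lit 87) (.e (nat_lit 57479) (nat_lit 28) (.e (nat_lit 557101) (nat_lit 13) (.e (nat_lit 172115) (nat_lit 10) (.e (nat_lit 434244) (nat_lit 28) (.e (nat_lit 573450) (nat_lit 9) .nil))))))))) (.g (nat_lit 6) .nil .nil))) 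
(.lf (nat_lit 10473) (.g (nat_lit 3426) (.e (nat_lit 379) (nat_lit 32) (.e (nat_lit 426482) (nat_lit 27) (.e (nat_lit 336060) (nat_lit 7) (.e (nat_lit 319505) (nat_lit 10) (.e (nat_lit 618) (nat_lit 48) (.e (nat_lit 557103) (nat_lit 14) (.e (nat_lit 188160) (nat_lit 32) .nil))))))) (.g (nat_lit 6) .nil .nil)))) (.nd (nat_lit 5) 
(.lf (nat_lit 10457) (.g (nat_lit 1163) (.e (nat_lit 375) (nat_lit 32) (.e (nat_lit 426173) (nat_lit 7) (.e (nat_lit 409634) (nat_lit 13) (.e (nat_lit 40963) (nat_lit 0) .nil)))) .nil)) 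
(.lf (nat_lit 10489) (.g (nat_lit 2906) (.e (nat_lit 389) (nat_lit 32) (.e (nat_lit 426343) (nat_lit 14) (.e (nat_lit 491570) (nat_lit 13) (.e (nat_lit 393260) (nat_lit 21) (.e (nat_lit 409617) (nat_lit 10) .nil))))) .nil))))) (.nd (nat_lit 3) (.nd (nat_lit 4) (.nd (nat_lit 5) 
(.lf (nat_lit 10437) (.g (nat_lit 2990) (.e (nat_lit 375) (nat_lit 32) (.e (nat_lit 426109) (nat_lit 1) (.e (nat_lit 164403) (nat_lit 256) (.e (nat_lit 57445) (nat_lit 19) (.e (nat_lit 393281) (nat_lit 23) (.e (nat_lit 426116) (nat_lit 2) (.e (nat_lit 196624) (nat_lit 9) .nil))))))) (.g (nat_lit 4) .nil .nil))) 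
(.lf (nat_lit 10469) (.g (nat_lit 4617) (.e (nat_lit 379) (nat_lit 32) (.e (nat_lit 426131) (nat_lit 3) (.e (nat_lit 204869) (nat_lit 29) (.e (nat_lit 360474) (nat_lit 8) (.e (nat_lit 557093) (nat_lit 12) .nil))))) .nil))) (.nd (nat_lit 5) 
(.lf (nat_lit 10453) (.g (nat_lit 1002) (.e (nat_lit 375) (nat_lit 32) (.e (nat_lit 426125) (nat_lit 2) (.e (nat_lit 196697) (nat_lit 19) .nil))) .nil)) 
(.lf (nat_lit 10485) (.g (nat_lit 1435) (.e (nat_lit 387) (nat_lit 32) (.e (nat_lit 426344) (nat_lit 14) (.e (nat_lit 491568) (nat_lit 13) (.e (nat_lit 393260) (nat_lit 21) .nil)))) .nil)))) (.nd (nat_lit 4) (.nd (nat_lit 5) 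
(.lf (nat_lit 10445) (.g (nat_lit 2173) (.e (nat_lit 375) (nat_lit 32) (.e (nat_lit 426125) (nat_lit 2) (.e (nat_lit 196630) (nat_lit 9) (.e (nat_lit 1586) (nat_lit 111) .nil)))) .nil)) 
(.lf (nat_lit 10477) (.g (nat_lit 1440) (.e (nat_lit 380) (nat_lit 32) (.e (nat_lit 426568) (nat_lit 34) (.e (nat_lit 393260) (nat_lit 21) .nil))) .nil))) (.nd (nat_lit 5) 
(.lf (nat_lit 10461) (.g (nat_lit 3702) (.e (nat_lit 376) (nat_lit 32) (.e (nat_lit 426338) (nat_lit 14) (.e (nat_lit 491571) (nat_lit 13) (.e (nat_lit 393260) (nat_lit 21) (.e (nat_lit 417536) (nat_lit 10) .nil))))) .nil)) 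
(.lf (nat_lit 10493) (.g (nat_lit 1530) (.e (nat_lit 392) (nat_lit 32) (.e (nat_lit 426100) (nat_lit 1) (.e (nat_lit 164399) (nat_lit 256) (.e (nat_lit 57447) (nat_lit 19) .nil)))) .nil)))))) (.nd (nat_lit 2) (.nd (nat_lit 3) (.nd (nat_lit 4) (.nd (nat_lit 5) 
(.lf (nat_lit 10435) (.g (nat_lit 2909) (.e (nat_lit 375) (nat_lit 32) (.e (nat_lit 426109) (nat_lit 1) (.e (nat_lit 164403) (nat_lit 256) (.e (nat_lit 57408) (nat_lit 12) (.e (nat_lit 336443) (nat_lit 32) (.e (nat_lit 466977) (nat_lit 22) (.e (nat_lit 196624) (nat_lit 9) .nil))))))) (.g (nat_lit 5) .nil .nil))) 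
(.lf (nat_lit 10467) (.g (nat_lit 520) (.e (nat_lit 378) (nat_lit 32) (.e (nat_lit 426438) (nat_lit 18) (.e (nat_lit 98358) (nat_lit 26) .nil))) .nil))) (.nd (nat_lit 5) 
(.lf (nat_lit 10451) (.g (nat_lit 2498) (.e (nat_lit 375) (nat_lit 32) (.e (nat_lit 426125) (nat_lit 2) (.e (nat_lit 196637) (nat_lit 9) (.e (nat_lit 1587) (nat_lit 111) .nil)))) .nil)) 
(.lf (nat_lit 10483) (.g (nat_lit 2514) (.e (nat_lit 387) (nat_lit 32) (.e (nat_lit 426338) (nat_lit 14) (.e (nat_lit 491549) (nat_lit 9) (.e (nat_lit 336369) (nat_lit 27) (.e (nat_lit 426173) (nat_lit 7) .nil))))) .nil)))) (.nd (nat_lit 4) (.nd (nat_lit 5) 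
(.lf (nat_lit 10443) (.g (nat_lit 2787) (.e (nat_lit 375) (nat_lit 32) (.e (nat_lit 426125) (nat_lit 2) (.e (nat_lit 196617) (nat_lit 9) (.e (nat_lit 1586) (nat_lit 111) .nil)))) .nil)) 
(.lf (nat_lit 10475) (.g (nat_lit 1440) (.e (nat_lit 379) (nat_lit 32) (.e (nat_lit 426568) (nat_lit 34) (.e (nat_lit 393260) (nat_lit 21) .nil))) .nil))) (.nd (nat_lit 5) 
(.lf (nat_lit 10459) (.g (nat_lit 4636) (.e (nat_lit 375) (nat_lit 32) (.e (nat_lit 426201) (nat_lit 9) (.e (nat_lit 426354) (nat_lit 15) (.e (nat_lit 1860) (nat_lit 124) (.e (nat_lit 557100) (nat_lit 13) (.e (nat_lit 172106) (nat_lit 10) (.e (nat_lit 434244) (nat_lit 28) (.e (nat_lit 573450) (nat_lit 9) .nil)))))))) (.g (nat_lit 7) .nil .nil))) 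
(.lf (nat_lit 10491) (.g (nat_lit 2906) (.e (nat_lit 391) (nat_lit 32) (.e (nat_lit 426343) (nat_lit 14) (.e (nat_lit 491570) (nat_lit 13) (.e (nat_lit 393260) (nat_lit 21) (.e (nat_lit 409617) (nat_lit 10) .nil))))) .nil))))) (.nd (nat_lit 3) (.nd (nat_lit 4) (.nd (nat_lit 5) 
(.lf (nat_lit 10439) (.g (nat_lit 2958) (.e (nat_lit 375) (nat_lit 32) (.e (nat_lit 426109) (nat_lit 1) (.e (nat_lit 164403) (nat_lit 256) (.e (nat_lit 57447) (nat_lit 19) (.e (nat_lit 393281) (nat_lit 23) (.e (nat_lit 426115) (nat_lit 2) (.e (nat_lit 196624) (nat_lit 9) .nil))))))) (.g (nat_lit 4) .nil .nil))) 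
(.lf (nat_lit 10471) (.g (nat_lit 5099) (.e (nat_lit 379) (nat_lit 32) (.e (nat_lit 426131) (nat_lit 3) (.e (nat_lit 204869) (nat_lit 29) (.e (nat_lit 360475) (nat_lit 8) (.e (nat_lit 557091) (nat_lit 12) .nil))))) .nil))) (.nd (nat_lit 5) 
(.lf (nat_lit 10455) (.g (nat_lit 1074) (.e (nat_lit 375) (nat_lit 32) (.e (nat_lit 426173) (nat_lit 7) (.e (nat_lit 409617) (nat_lit 10) (.e (nat_lit 858) (nat_lit 75) (.e (nat_lit 786176) (nat_lit 6) .nil))))) .nil)) 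
(.lf (nat_lit 10487) (.g (nat_lit 1435) (.e (nat_lit 388) (nat_lit 32) (.e (nat_lit 426344) (nat_lit 14) (.e (nat_lit 491568) (nat_lit 13) (.e (nat_lit 393260) (nat_lit 21) .nil)))) .nil)))) (.nd (nat_lit 4) (.nd (nat_lit 5) 
(.lf (nat_lit 10447) (.g (nat_lit 3477) (.e (nat_lit 375) (nat_lit 32) (.e (nat_lit 426125) (nat_lit 2) (.e (nat_lit 196630) (nat_lit 9) (.e (nat_lit 1596) (nat_lit 111) (.e (nat_lit 360475) (nat_lit 8) (.e (nat_lit 557091) (nat_lit 12) (.e (nat_lit 164022) (nat_lit 46) (.e (nat_lit 704626) (nat_lit 9) .nil)))))))) (.g (nat_lit 5) .nil .nil))) 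
(.lf (nat_lit 10479) (.g (nat_lit 1440) (.e (nat_lit 381) (nat_lit 32) (.e (nat_lit 426568) (nat_lit 34) (.e (nat_lit 393260) (nat_lit 21) .nil))) .nil))) (.nd (nat_lit 5) 
(.lf (nat_lit 10463) (.g (nat_lit 1609) (.e (nat_lit 378) (nat_lit 32) (.e (nat_lit 426428) (nat_lit 17) (.e (nat_lit 90174) (nat_lit 14) (.e (nat_lit 180250) (nat_lit 10) (.e (nat_lit 573487) (nat_lit 14) .nil))))) .nil)) 
(.lf (nat_lit 10495) (.g (nat_lit 2168) (.e (nat_lit 392) (nat_lit 32) (.e (nat_lit 426188) (nat_lit 9) (.e (nat_lit 426354) (nat_lit 15) (.e (nat_lit 2031) (nat_lit 140) (.e (nat_lit 688177) (nat_lit 16) (.e (nat_lit 65617) (nat_lit 10) (.e (nat_lit 344161) (nat_lit 37) (.e (nat_lit 647195) (nat_lit 9) .nil)))))))) (.g (nat_lit 4) .nil .nil)))))))))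

noncomputable def tv142 : DT := (.nd (nat_lit 0) (.nd (nat_lit 1) (.nd (nat_lit 2) (.nd (nat_lit 3) (.nd (nat_lit 4) (.nd (nat_lit 5) 
(.lf (nat_lit 10496) (.g (nat_lit 2189) (.e (nat_lit 392) (nat_lit 32) (.e (nat_lit 426200) (nat_lit 9) (.e (nat_lit 426354) (nat_lit 15) (.e (nat_lit 1860) (nat_lit 124) (.e (nat_lit 557100) (nat_lit 13) (.e (nat_lit 172113) (nat_lit 10) (.e (nat_lit 434245) (nat_lit 28) (.e (nat_lit 573451) (nat_lit 9) .nil)))))))) (.g (nat_lit 4) .nil .nil))) 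
(.lf (nat_lit 10528) (.g (nat_lit 2544) (.e (nat_lit 394) (nat_lit 32) (.e (nat_lit 426306) (nat_lit 12) (.e (nat_lit 475193) (nat_lit 38) (.e (nat_lit 688177) (nat_lit 16) (.e (nat_lit 65617) (nat_lit 10) (.e (nat_lit 344164) (nat_lit 37) (.e (nat_lit 647196) (nat_lit 9) .nil))))))) (.g (nat_lit 4) .nil .nil)))) (.nd (nat_lit 5) 
(.lf (nat_lit 10512) (.g (nat_lit 2723) (.e (nat_lit 392) (nat_lit 32) (.e (nat_lit 426343) (nat_lit 14) (.e (nat_lit 491544) (nat_lit 7) (.e (nat_lit 319534) (nat_lit 16) (.e (nat_lit 286756) (nat_lit 10) .nil))))) .nil)) 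
(.lf (nat_lit 10544) (.g (nat_lit 2309) (.e (nat_lit 395) (nat_lit 32) (.e (nat_lit 426313) (nat_lit 12) (.e (nat_lit 475185) (nat_lit 29) (.e (nat_lit 557100) (nat_lit 13) (.e (nat_lit 172113) (nat_lit 10) (.e (nat_lit 434248) (nat_lit 28) (.e (nat_lit 573452) (nat_lit 9) .nil))))))) (.g (nat_lit 4) .nil .nil))))) (.nd (nat_lit 4) (.nd (nat_lit 5) 
(.lf (nat_lit 10504) (.g (nat_lit 2337) (.e (nat_lit 392) (nat_lit 32) (.e (nat_lit 426305) (nat_lit 12) (.e (nat_lit 475185) (nat_lit 29) (.e (nat_lit 557100) (nat_lit 13) (.e (nat_lit 172113) (nat_lit 10) .nil))))) .nil)) 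
(.lf (nat_lit 10536) (.g (nat_lit 2681) (.e (nat_lit 394) (nat_lit 32) (.e (nat_lit 426343) (nat_lit 14) (.e (nat_lit 491544) (nat_lit 7) (.e (nat_lit 319534) (nat_lit 16) (.e (nat_lit 286756) (nat_lit 10) .nil))))) .nil))) (.nd (nat_lit 5) 
(.lf (nat_lit 10520) (.g (nat_lit 1943) (.e (nat_lit 393) (nat_lit 32) (.e (nat_lit 426343) (nat_lit 14) (.e (nat_lit 491570) (nat_lit 13) (.e (nat_lit 393260) (nat_lit 21) .nil)))) .nil)) 
(.lf (nat_lit 10552) (.g (nat_lit 3680) (.e (nat_lit 396) (nat_lit 32) (.e (nat_lit 426308) (nat_lit 12) (.e (nat_lit 475193) (nat_lit 38) (.e (nat_lit 688178) (nat_lit 16) (.e (nat_lit 65619) (nat_lit 10) (.e (nat_lit 344160) (nat_lit 37) (.e (nat_lit 647190) (nat_lit 9) .nil))))))) (.g (nat_lit 7) .nil .nil)))))) (.nd (nat_lit 3) (.nd (nat_lit 4) (.nd (nat_lit 5) 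
(.lf (nat_lit 10500) (.g (nat_lit 2245) (.e (nat_lit 392) (nat_lit 32) (.e (nat_lit 426200) (nat_lit 9) (.e (nat_lit 426354) (nat_lit 15) (.e (nat_lit 2031) (nat_lit 140) (.e (nat_lit 688177) (nat_lit 16) (.e (nat_lit 65617) (nat_lit 10) (.e (nat_lit 344161) (nat_lit 37) (.e (nat_lit 647194) (nat_lit 9) .nil)))))))) (.g (nat_lit 4) .nil .nil))) 
(.lf (nat_lit 10532) (.g (nat_lit 3296) (.e (nat_lit 394) (nat_lit 32) (.e (nat_lit 426308) (nat_lit 12) (.e (nat_lit 475193) (nat_lit 38) (.e (nat_lit 688177) (nat_lit 16) (.e (nat_lit 65617) (nat_lit 10) (.e (nat_lit 344164) (nat_lit 37) (.e (nat_lit 647196) (nat_lit 9) .nil))))))) (.g (nat_lit 7) .nil .nil)))) (.nd (nat_lit 5) 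
(.lf (nat_lit 10516) (.g (nat_lit 2468) (.e (nat_lit 392) (nat_lit 32) (.e (nat_lit 426344) (nat_lit 14) (.e (nat_lit 491544) (nat_lit 7) (.e (nat_lit 319533) (nat_lit 16) (.e (nat_lit 286753) (nat_lit 10) .nil))))) .nil)) 
(.lf (nat_lit 10548) (.g (nat_lit 2195) (.e (nat_lit 396) (nat_lit 32) (.e (nat_lit 426190) (nat_lit 9) (.e (nat_lit 426354) (nat_lit 15) (.e (nat_lit 1860) (nat_lit 124) (.e (nat_lit 557100) (nat_lit 13) (.e (nat_lit 172113) (nat_lit 10) (.e (nat_lit 434245) (nat_lit 28) (.e (nat_lit 573451) (nat_lit 9) .nil)))))))) (.g (nat_lit 4) .nil .nil))))) (.nd (nat_lit 4) (.nd (nat_lit 5) 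
(.lf (nat_lit 10508) (.g (nat_lit 1510) (.e (nat_lit 392) (nat_lit 32) (.e (nat_lit 426316) (nat_lit 12) (.e (nat_lit 475185) (nat_lit 29) (.e (nat_lit 557107) (nat_lit 15) .nil)))) .nil)) 
(.lf (nat_lit 10540) (.g (nat_lit 3201) (.e (nat_lit 395) (nat_lit 32) (.e (nat_lit 426200) (nat_lit 9) (.e (nat_lit 426354) (nat_lit 15) (.e (nat_lit 1860) (nat_lit 124) (.e (nat_lit 557100) (nat_lit 13) (.e (nat_lit 172113) (nat_lit 10) (.e (nat_lit 434248) (nat_lit 28) (.e (nat_lit 573452) (nat_lit 9) .nil)))))))) (.g (nat_lit 5) .nil .nil)))) (.nd (nat_lit 5) 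
(.lf (nat_lit 10524) (.g (nat_lit 3141) (.e (nat_lit 394) (nat_lit 32) (.e (nat_lit 426200) (nat_lit 9) (.e (nat_lit 426354) (nat_lit 15) (.e (nat_lit 1860) (nat_lit 124) (.e (nat_lit 557100) (nat_lit 13) (.e (nat_lit 172113) (nat_lit 10) (.e (nat_lit 434245) (nat_lit 28) (.e (nat_lit 573458) (nat_lit 9) .nil)))))))) (.g (nat_lit 5) .nil .nil))) 
(.lf (nat_lit 10556) (.g (nat_lit 2502) (.e (nat_lit 396) (nat_lit 32) (.e (nat_lit 426343) (nat_lit 14) (.e (nat_lit 491526) (nat_lit 0) (.e (nat_lit 1788) (nat_lit 119) (.e (nat_lit 516151) (nat_lit 9) (.e (nat_lit 426286) (nat_lit 10) (.e (nat_lit 434245) (nat_lit 28) (.e (nat_lit 573451) (nat_lit 9) .nil)))))))) (.g (nat_lit 4) .nil .nil))))))) 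
(.nd (nat_lit 2) (.nd (nat_lit 3) (.nd (nat_lit 4) (.nd (nat_lit 5) 
(.lf (nat_lit 10498) (.g (nat_lit 2388) (.e (nat_lit 392) (nat_lit 32) (.e (nat_lit 426200) (nat_lit 9) (.e (nat_lit 426354) (nat_lit 15) (.e (nat_lit 2031) (nat_lit 140) (.e (nat_lit 688177) (nat_lit 16) (.e (nat_lit 65610) (nat_lit 10) (.e (nat_lit 344160) (nat_lit 37) (.e (nat_lit 647190) (nat_lit 9) .nil)))))))) (.g (nat_lit 4) .nil .nil))) 
(.lf (nat_lit 10530) (.g (nat_lit 1961) (.e (nat_lit 394) (nat_lit 32) (.e (nat_lit 426308) (nat_lit 12) (.e (nat_lit 475193) (nat_lit 38) (.e (nat_lit 688177) (nat_lit 16) (.e (nat_lit 65610) (nat_lit 10) (.e (nat_lit 344160) (nat_lit 37) (.e (nat_lit 647196) (nat_lit 9) .nil))))))) (.g (nat_lit 4) .nil .nil)))) (.nd (nat_lit 5) 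
(.lf (nat_lit 10514) (.g (nat_lit 2287) (.e (nat_lit 392) (nat_lit 32) (.e (nat_lit 426343) (nat_lit 14) (.e (nat_lit 491568) (nat_lit 13) (.e (nat_lit 393260) (nat_lit 21) (.e (nat_lit 409617) (nat_lit 10) (.e (nat_lit 5355) (nat_lit 298) .nil)))))) (.g (nat_lit 4) .nil .nil))) 
(.lf (nat_lit 10546) (.g (nat_lit 3249) (.e (nat_lit 395) (nat_lit 32) (.e (nat_lit 426316) (nat_lit 12) (.e (nat_lit 475185) (nat_lit 29) (.e (nat_lit 557109) (nat_lit 15) (.e (nat_lit 188441) (nat_lit 20) .nil))))) .nil)))) (.nd (nat_lit 4) (.nd (nat_lit 5) 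
(.lf (nat_lit 10506) (.g (nat_lit 1788) (.e (nat_lit 392) (nat_lit 32) (.e (nat_lit 426308) (nat_lit 12) (.e (nat_lit 475193) (nat_lit 38) (.e (nat_lit 688177) (nat_lit 16) (.e (nat_lit 65617) (nat_lit 10) (.e (nat_lit 344161) (nat_lit 37) (.e (nat_lit 647195) (nat_lit 9) .nil))))))) (.g (nat_lit 4) .nil .nil))) 
(.lf (nat_lit 10538) (.g (nat_lit 2699) (.e (nat_lit 394) (nat_lit 32) (.e (nat_lit 426344) (nat_lit 14) (.e (nat_lit 491544) (nat_lit 7) (.e (nat_lit 319534) (nat_lit 16) (.e (nat_lit 286756) (nat_lit 10) .nil))))) .nil))) (.nd (nat_lit 5) 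
(.lf (nat_lit 10522) (.g (nat_lit 2213) (.e (nat_lit 394) (nat_lit 32) (.e (nat_lit 426198) (nat_lit 9) (.e (nat_lit 426354) (nat_lit 15) (.e (nat_lit 1860) (nat_lit 124) (.e (nat_lit 557100) (nat_lit 13) (.e (nat_lit 172106) (nat_lit 10) (.e (nat_lit 434244) (nat_lit 28) (.e (nat_lit 573458) (nat_lit 9) .nil)))))))) (.g (nat_lit 4) .nil .nil))) 
(.lf (nat_lit 10554) (.g (nat_lit 894) (.e (nat_lit 396) (nat_lit 32) (.e (nat_lit 426343) (nat_lit 14) (.e (nat_lit 491526) (nat_lit 0) .nil))) .nil))))) (.nd (nat_lit 3) (.nd (nat_lit 4) (.nd (nat_lit 5) 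
(.lf (nat_lit 10502) (.g (nat_lit 2150) (.e (nat_lit 392) (nat_lit 32) (.e (nat_lit 426200) (nat_lit 9) (.e (nat_lit 426354) (nat_lit 15) (.e (nat_lit 2031) (nat_lit 140) (.e (nat_lit 688177) (nat_lit 16) (.e (nat_lit 65617) (nat_lit 10) (.e (nat_lit 344164) (nat_lit 37) (.e (nat_lit 647196) (nat_lit 9) .nil)))))))) (.g (nat_lit 4) .nil .nil))) 
(.lf (nat_lit 10534) (.g (nat_lit 4166) (.e (nat_lit 394) (nat_lit 32) (.e (nat_lit 426338) (nat_lit 14) (.e (nat_lit 491571) (nat_lit 13) (.e (nat_lit 393260) (nat_lit 21) (.e (nat_lit 409616) (nat_lit 10) .nil))))) .nil))) (.nd (nat_lit 5) 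
(.lf (nat_lit 10518) (.g (nat_lit 1435) (.e (nat_lit 392) (nat_lit 32) (.e (nat_lit 426344) (nat_lit 14) (.e (nat_lit 491568) (nat_lit 13) (.e (nat_lit 393260) (nat_lit 21) .nil)))) .nil)) 
(.lf (nat_lit 10550) (.g (nat_lit 4025) (.e (nat_lit 396) (nat_lit 32) (.e (nat_lit 426308) (nat_lit 12) (.e (nat_lit 475193) (nat_lit 38) (.e (nat_lit 688177) (nat_lit 16) (.e (nat_lit 65617) (nat_lit 10) (.e (nat_lit 344161) (nat_lit 37) (.e (nat_lit 647190) (nat_lit 9) .nil))))))) (.g (nat_lit 0) .nil .nil))))) (.nd (nat_lit 4) (.nd (nat_lit 5) 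
(.lf (nat_lit 10510) (.g (nat_lit 2621) (.e (nat_lit 392) (nat_lit 32) (.e (nat_lit 426343) (nat_lit 14) (.e (nat_lit 491544) (nat_lit 7) (.e (nat_lit 319533) (nat_lit 16) (.e (nat_lit 286753) (nat_lit 10) .nil))))) .nil)) 
(.lf (nat_lit 10542) (.g (nat_lit 2799) (.e (nat_lit 395) (nat_lit 32) (.e (nat_lit 426305) (nat_lit 12) (.e (nat_lit 475185) (nat_lit 29) (.e (nat_lit 557100) (nat_lit 13) (.e (nat_lit 172113) (nat_lit 10) (.e (nat_lit 434245) (nat_lit 28) (.e (nat_lit 573451) (nat_lit 9) .nil))))))) (.g (nat_lit 5) .nil .nil)))) (.nd (nat_lit 5) 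
(.lf (nat_lit 10526) (.g (nat_lit 948) (.e (nat_lit 394) (nat_lit 32) (.e (nat_lit 426306) (nat_lit 12) (.e (nat_lit 475161) (nat_lit 21) .nil))) .nil)) 
(.lf (nat_lit 10558) (.g (nat_lit 2537) (.e (nat_lit 396) (nat_lit 32) (.e (nat_lit 426343) (nat_lit 14) (.e (nat_lit 491544) (nat_lit 7) (.e (nat_lit 319533) (nat_lit 16) (.e (nat_lit 286753) (nat_lit 10) .nil))))) .nil))))))) (.nd (nat_lit 1) (.nd (nat_lit 2) (.nd (nat_lit 3) (.nd (nat_lit 4) (.nd (nat_lit 5) 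
(.lf (nat_lit 10497) (.g (nat_lit 2355) (.e (nat_lit 392) (nat_lit 32) (.e (nat_lit 426200) (nat_lit 9) (.e (nat_lit 426354) (nat_lit 15) (.e (nat_lit 1860) (nat_lit 124) (.e (nat_lit 557100) (nat_lit 13) (.e (nat_lit 172113) (nat_lit 10) (.e (nat_lit 434248) (nat_lit 28) (.e (nat_lit 573452) (nat_lit 9) .nil)))))))) (.g (nat_lit 4) .nil .nil))) 
(.lf (nat_lit 10529) (.g (nat_lit 1235) (.e (nat_lit 394) (nat_lit 32) (.e (nat_lit 426307) (nat_lit 12) (.e (nat_lit 475193) (nat_lit 38) (.e (nat_lit 688177) (nat_lit 16) (.e (nat_lit 65617) (nat_lit 10) .nil))))) .nil))) (.nd (nat_lit 5) 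
(.lf (nat_lit 10513) (.g (nat_lit 3849) (.e (nat_lit 392) (nat_lit 32) (.e (nat_lit 426343) (nat_lit 14) (.e (nat_lit 491544) (nat_lit 7) (.e (nat_lit 319534) (nat_lit 16) (.e (nat_lit 286756) (nat_lit 10) (.e (nat_lit 344160) (nat_lit 37) (.e (nat_lit 647195) (nat_lit 9) .nil))))))) (.g (nat_lit 5) .nil .nil))) 
(.lf (nat_lit 10545) (.g (nat_lit 2524) (.e (nat_lit 395) (nat_lit 32) (.e (nat_lit 426314) (nat_lit 12) (.e (nat_lit 475185) (nat_lit 29) (.e (nat_lit 557100) (nat_lit 13) (.e (nat_lit 172113) (nat_lit 10) (.e (nat_lit 434248) (nat_lit 28) (.e (nat_lit 573452) (nat_lit 9) .nil))))))) (.g (nat_lit 4) .nil .nil))))) (.nd (nat_lit 4) (.nd (nat_lit 5) 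
(.lf (nat_lit 10505) (.g (nat_lit 3062) (.e (nat_lit 392) (nat_lit 32) (.e (nat_lit 426306) (nat_lit 12) (.e (nat_lit 475185) (nat_lit 29) (.e (nat_lit 557100) (nat_lit 13) (.e (nat_lit 172113) (nat_lit 10) .nil))))) .nil)) 
(.lf (nat_lit 10537) (.g (nat_lit 2786) (.e (nat_lit 394) (nat_lit 32) (.e (nat_lit 426344) (nat_lit 14) (.e (nat_lit 491544) (nat_lit 7) (.e (nat_lit 319533) (nat_lit 16) (.e (nat_lit 286753) (nat_lit 10) (.e (nat_lit 344160) (nat_lit 37) (.e (nat_lit 647196) (nat_lit 9) .nil))))))) (.g (nat_lit 4) .nil .nil)))) (.nd (nat_lit 5) 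
(.lf (nat_lit 10521) (.g (nat_lit 3001) (.e (nat_lit 394) (nat_lit 32) (.e (nat_lit 426100) (nat_lit 1) (.e (nat_lit 164398) (nat_lit 256) (.e (nat_lit 57447) (nat_lit 19) (.e (nat_lit 393275) (nat_lit 23) .nil))))) .nil)) 
(.lf (nat_lit 10553) (.g (nat_lit 2472) (.e (nat_lit 396) (nat_lit 32) (.e (nat_lit 426316) (nat_lit 12) (.e (nat_lit 475185) (nat_lit 29) (.e (nat_lit 557107) (nat_lit 15) (.e (nat_lit 188440) (nat_lit 20) .nil))))) .nil))))) (.nd (nat_lit 3) (.nd (nat_lit 4) (.nd (nat_lit 5) 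
(.lf (nat_lit 10501) (.g (nat_lit 3445) (.e (nat_lit 392) (nat_lit 32) (.e (nat_lit 426200) (nat_lit 9) (.e (nat_lit 426354) (nat_lit 15) (.e (nat_lit 2031) (nat_lit 140) (.e (nat_lit 688177) (nat_lit 16) (.e (nat_lit 65617) (nat_lit 10) (.e (nat_lit 344161) (nat_lit 37) (.e (nat_lit 647195) (nat_lit 9) .nil)))))))) (.g (nat_lit 5) .nil .nil))) 
(.lf (nat_lit 10533) (.g (nat_lit 1676) (.e (nat_lit 394) (nat_lit 32) (.e (nat_lit 426316) (nat_lit 12) (.e (nat_lit 475193) (nat_lit 38) (.e (nat_lit 688177) (nat_lit 16) .nil)))) .nil))) (.nd (nat_lit 5) 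
(.lf (nat_lit 10517) (.g (nat_lit 2915) (.e (nat_lit 392) (nat_lit 32) (.e (nat_lit 426344) (nat_lit 14) (.e (nat_lit 491544) (nat_lit 7) (.e (nat_lit 319534) (nat_lit 16) (.e (nat_lit 286756) (nat_lit 10) (.e (nat_lit 344160) (nat_lit 37) (.e (nat_lit 647195) (nat_lit 9) .nil))))))) (.g (nat_lit 4) .nil .nil))) 
(.lf (nat_lit 10549) (.g (nat_lit 3697) (.e (nat_lit 396) (nat_lit 32) (.e (nat_lit 426308) (nat_lit 12) (.e (nat_lit 475193) (nat_lit 38) (.e (nat_lit 688175) (nat_lit 16) (.e (nat_lit 65619) (nat_lit 10) (.e (nat_lit 344160) (nat_lit 37) (.e (nat_lit 647190) (nat_lit 9) .nil))))))) (.g (nat_lit 7) .nil .nil))))) (.nd (nat_lit 4) (.nd (nat_lit 5) 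
(.lf (nat_lit 10509) (.g (nat_lit 2226) (.e (nat_lit 392) (nat_lit 32) (.e (nat_lit 426342) (nat_lit 14) (.e (nat_lit 491544) (nat_lit 7) (.e (nat_lit 319533) (nat_lit 16) (.e (nat_lit 286753) (nat_lit 10) (.e (nat_lit 344160) (nat_lit 37) (.e (nat_lit 647195) (nat_lit 9) .nil))))))) (.g (nat_lit 4) .nil .nil))) 
(.lf (nat_lit 10541) (.g (nat_lit 4344) (.e (nat_lit 395) (nat_lit 32) (.e (nat_lit 426204) (nat_lit 9) (.e (nat_lit 426412) (nat_lit 15) (.e (nat_lit 1856) (nat_lit 124) (.e (nat_lit 557100) (nat_lit 13) (.e (nat_lit 172113) (nat_lit 10) (.e (nat_lit 434248) (nat_lit 28) (.e (nat_lit 573452) (nat_lit 9) .nil)))))))) (.g (nat_lit 8) .nil .nil)))) (.nd (nat_lit 5) 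
(.lf (nat_lit 10525) (.g (nat_lit 3260) (.e (nat_lit 394) (nat_lit 32) (.e (nat_lit 426200) (nat_lit 9) (.e (nat_lit 426354) (nat_lit 15) (.e (nat_lit 2031) (nat_lit 140) (.e (nat_lit 688177) (nat_lit 16) (.e (nat_lit 65617) (nat_lit 10) (.e (nat_lit 344164) (nat_lit 37) (.e (nat_lit 647196) (nat_lit 9) .nil)))))))) (.g (nat_lit 5) .nil .nil))) 
(.lf (nat_lit 10557) (.g (nat_lit 3914) (.e (nat_lit 396) (nat_lit 32) (.e (nat_lit 426343) (nat_lit 14) (.e (nat_lit 491544) (nat_lit 7) (.e (nat_lit 319531) (nat_lit 16) (.e (nat_lit 286756) (nat_lit 10) (.e (nat_lit 344160) (nat_lit 37) (.e (nat_lit 647190) (nat_lit 9) .nil))))))) (.g (nat_lit 6) .nil .nil))))))) (.nd (nat_lit 2) (.nd (nat_lit 3) (.nd (nat_lit 4) (.nd (nat_lit 5) 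
(.lf (nat_lit 10499) (.g (nat_lit 3602) (.e (nat_lit 392) (nat_lit 32) (.e (nat_lit 426200) (nat_lit 9) (.e (nat_lit 426354) (nat_lit 15) (.e (nat_lit 2031) (nat_lit 140) (.e (nat_lit 688177) (nat_lit 16) (.e (nat_lit 65610) (nat_lit 10) (.e (nat_lit 344160) (nat_lit 37) (.e (nat_lit 647195) (nat_lit 9) .nil)))))))) (.g (nat_lit 6) .nil .nil))) 
(.lf (nat_lit 10531) (.g (nat_lit 3078) (.e (nat_lit 394) (nat_lit 32) (.e (nat_lit 426308) (nat_lit 12) (.e (nat_lit 475193) (nat_lit 38) (.e (nat_lit 688177) (nat_lit 16) (.e (nat_lit 65617) (nat_lit 10) (.e (nat_lit 344161) (nat_lit 37) (.e (nat_lit 647196) (nat_lit 9) .nil))))))) (.g (nat_lit 6) .nil .nil)))) (.nd (nat_lit 5) 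
(.lf (nat_lit 10515) (.g (nat_lit 2953) (.e (nat_lit 392) (nat_lit 32) (.e (nat_lit 426343) (nat_lit 14) (.e (nat_lit 491568) (nat_lit 13) (.e (nat_lit 393260) (nat_lit 21) (.e (nat_lit 409623) (nat_lit 10) (.e (nat_lit 5293) (nat_lit 298) .nil)))))) (.g (nat_lit 5) .nil .nil))) 
(.lf (nat_lit 10547) (.g (nat_lit 1943) (.e (nat_lit 395) (nat_lit 32) (.e (nat_lit 426343) (nat_lit 14) (.e (nat_lit 491570) (nat_lit 13) (.e (nat_lit 393260) (nat_lit 21) .nil)))) .nil)))) (.nd (nat_lit 4) (.nd (nat_lit 5) 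
(.lf (nat_lit 10507) (.g (nat_lit 2680) (.e (nat_lit 392) (nat_lit 32) (.e (nat_lit 426316) (nat_lit 12) (.e (nat_lit 475185) (nat_lit 29) (.e (nat_lit 557100) (nat_lit 13) (.e (nat_lit 172113) (nat_lit 10) .nil))))) .nil)) 
(.lf (nat_lit 10539) (.g (nat_lit 2207) (.e (nat_lit 395) (nat_lit 32) (.e (nat_lit 426200) (nat_lit 9) (.e (nat_lit 426354) (nat_lit 15) (.e (nat_lit 1860) (nat_lit 124) (.e (nat_lit 557100) (nat_lit 13) (.e (nat_lit 172113) (nat_lit 10) (.e (nat_lit 434245) (nat_lit 28) (.e (nat_lit 573451) (nat_lit 9) .nil)))))))) (.g (nat_lit 4) .nil .nil)))) (.nd (nat_lit 5) 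
(.lf (nat_lit 10523) (.g (nat_lit 2280) (.e (nat_lit 394) (nat_lit 32) (.e (nat_lit 426198) (nat_lit 9) (.e (nat_lit 426354) (nat_lit 15) (.e (nat_lit 2031) (nat_lit 140) (.e (nat_lit 688177) (nat_lit 16) (.e (nat_lit 65617) (nat_lit 10) (.e (nat_lit 344164) (nat_lit 37) (.e (nat_lit 647196) (nat_lit 9) .nil)))))))) (.g (nat_lit 4) .nil .nil))) 
(.lf (nat_lit 10555) (.g (nat_lit 2331) (.e (nat_lit 396) (nat_lit 32) (.e (nat_lit 426343) (nat_lit 14) (.e (nat_lit 491526) (nat_lit 0) (.e (nat_lit 1788) (nat_lit 119) (.e (nat_lit 516151) (nat_lit 9) .nil))))) .nil))))) (.nd (nat_lit 3) (.nd (nat_lit 4) (.nd (nat_lit 5) 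
(.lf (nat_lit 10503) (.g (nat_lit 2604) (.e (nat_lit 392) (nat_lit 32) (.e (nat_lit 426200) (nat_lit 9) (.e (nat_lit 426354) (nat_lit 15) (.e (nat_lit 2031) (nat_lit 140) (.e (nat_lit 688178) (nat_lit 16) (.e (nat_lit 65619) (nat_lit 10) (.e (nat_lit 344160) (nat_lit 37) (.e (nat_lit 647190) (nat_lit 9) .nil)))))))) (.g (nat_lit 4) .nil .nil))) 
(.lf (nat_lit 10535) (.g (nat_lit 2633) (.e (nat_lit 394) (nat_lit 32) (.e (nat_lit 426343) (nat_lit 14) (.e (nat_lit 491544) (nat_lit 7) (.e (nat_lit 319533) (nat_lit 16) (.e (nat_lit 286753) (nat_lit 10) (.e (nat_lit 344160) (nat_lit 37) (.e (nat_lit 647196) (nat_lit 9) .nil))))))) (.g (nat_lit 4) .nil .nil)))) (.nd (nat_lit 5) 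
(.lf (nat_lit 10519) (.g (nat_lit 2512) (.e (nat_lit 393) (nat_lit 32) (.e (nat_lit 426316) (nat_lit 12) (.e (nat_lit 475185) (nat_lit 29) (.e (nat_lit 557107) (nat_lit 15) (.e (nat_lit 188440) (nat_lit 20) .nil))))) .nil)) 
(.lf (nat_lit 10551) (.g (nat_lit 3129) (.e (nat_lit 396) (nat_lit 32) (.e (nat_lit 426308) (nat_lit 12) (.e (nat_lit 475193) (nat_lit 38) (.e (nat_lit 688177) (nat_lit 16) (.e (nat_lit 65617) (nat_lit 10) (.e (nat_lit 344164) (nat_lit 37) (.e (nat_lit 647190) (nat_lit 9) .nil))))))) (.g (nat_lit 6) .nil .nil))))) (.nd (nat_lit 4) (.nd (nat_lit 5) 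
(.lf (nat_lit 10511) (.g (nat_lit 3354) (.e (nat_lit 392) (nat_lit 32) (.e (nat_lit 426343) (nat_lit 14) (.e (nat_lit 491544) (nat_lit 7) (.e (nat_lit 319533) (nat_lit 16) (.e (nat_lit 286753) (nat_lit 10) (.e (nat_lit 344160) (nat_lit 37) (.e (nat_lit 647195) (nat_lit 9) .nil))))))) (.g (nat_lit 5) .nil .nil))) 
(.lf (nat_lit 10543) (.g (nat_lit 3797) (.e (nat_lit 395) (nat_lit 32) (.e (nat_lit 426305) (nat_lit 12) (.e (nat_lit 475185) (nat_lit 29) (.e (nat_lit 557100) (nat_lit 13) (.e (nat_lit 172113) (nat_lit 10) (.e (nat_lit 434248) (nat_lit 28) (.e (nat_lit 573452) (nat_lit 9) .nil))))))) (.g (nat_lit 7) .nil .nil)))) (.nd (nat_lit 5) 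
(.lf (nat_lit 10527) (.g (nat_lit 2326) (.e (nat_lit 394) (nat_lit 32) (.e (nat_lit 426306) (nat_lit 12) (.e (nat_lit 475193) (nat_lit 38) (.e (nat_lit 688177) (nat_lit 16) (.e (nat_lit 65617) (nat_lit 10) (.e (nat_lit 344161) (nat_lit 37) (.e (nat_lit 647196) (nat_lit 9) .nil))))))) (.g (nat_lit 4) .nil .nil))) 
(.lf (nat_lit 10559) (.g (nat_lit 4904) (.e (nat_lit 396) (nat_lit 32) (.e (nat_lit 426343) (nat_lit 14) (.e (nat_lit 491544) (nat_lit 7) (.e (nat_lit 319533) (nat_lit 16) (.e (nat_lit 286753) (nat_lit 10) (.e (nat_lit 344160) (nat_lit 37) (.e (nat_lit 647190) (nat_lit 9) .nil))))))) (.g (nat_lit 7) .nil .nil)))))))))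

noncomputable def tv143 : DT := (.nd (nat_lit 0) (.nd (nat_lit 1) (.nd (nat_lit 2) (.nd (nat_lit 3) (.nd (nat_lit 4) (.nd (nat_lit 5) 
(.lf (nat_lit 10560) (.g (nat_lit 789) (.e (nat_lit 396) (nat_lit 32) (.e (nat_lit 426344) (nat_lit 14) (.e (nat_lit 491526) (nat_lit 0) .nil))) .nil)) 
(.lf (nat_lit 10592) (.g (nat_lit 3379) (.e (nat_lit 416) (nat_lit 32) (.e (nat_lit 426123) (nat_lit 2) (.e (nat_lit 196666) (nat_lit 13) (.e (nat_lit 65617) (nat_lit 10) (.e (nat_lit 344133) (nat_lit 26) .nil))))) .nil))) (.nd (nat_lit 5) 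
(.lf (nat_lit 10576) (.g (nat_lit 3305) (.e (nat_lit 405) (nat_lit 32) (.e (nat_lit 426316) (nat_lit 12) (.e (nat_lit 475185) (nat_lit 29) (.e (nat_lit 557100) (nat_lit 13) .nil)))) .nil)) 
(.lf (nat_lit 10608) (.g (nat_lit 4372) (.e (nat_lit 420) (nat_lit 32) (.e (nat_lit 426230) (nat_lit 9) (.e (nat_lit 426353) (nat_lit 15) (.e (nat_lit 2031) (nat_lit 140) (.e (nat_lit 688177) (nat_lit 16) (.e (nat_lit 65610) (nat_lit 10) (.e (nat_lit 344160) (nat_lit 37) (.e (nat_lit 647195) (nat_lit 9) .nil)))))))) (.g (nat_lit 0) .nil .nil))))) (.nd (nat_lit 4) (.nd (nat_lit 5) 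
(.lf (nat_lit 10568) (.g (nat_lit 3264) (.e (nat_lit 400) (nat_lit 32) (.e (nat_lit 426139) (nat_lit 3) (.e (nat_lit 204869) (nat_lit 29) (.e (nat_lit 360474) (nat_lit 8) (.e (nat_lit 557093) (nat_lit 12) .nil))))) .nil)) 
(.lf (nat_lit 10600) (.g (nat_lit 2161) (.e (nat_lit 417) (nat_lit 32) (.e (nat_lit 426347) (nat_lit 14) (.e (nat_lit 491549) (nat_lit 9) (.e (nat_lit 336369) (nat_lit 27) (.e (nat_lit 426173) (nat_lit 7) .nil))))) .nil))) (.nd (nat_lit 5) 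
(.lf (nat_lit 10584) (.g (nat_lit 3154) (.e (nat_lit 413) (nat_lit 32) (.e (nat_lit 426139) (nat_lit 3) (.e (nat_lit 204869) (nat_lit 29) (.e (nat_lit 360474) (nat_lit 8) (.e (nat_lit 557094) (nat_lit 12) .nil))))) .nil)) 
(.lf (nat_lit 10616) (.g (nat_lit 4185) (.e (nat_lit 420) (nat_lit 32) (.e (nat_lit 426260) (nat_lit 9) (.e (nat_lit 426349) (nat_lit 15) (.e (nat_lit 2031) (nat_lit 140) (.e (nat_lit 688178) (nat_lit 16) (.e (nat_lit 65619) (nat_lit 10) (.e (nat_lit 344160) (nat_lit 37) (.e (nat_lit 647195) (nat_lit 9) .nil)))))))) (.g (nat_lit 0) .nil .nil)))))) 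
(.nd (nat_lit 3) (.nd (nat_lit 4) (.nd (nat_lit 5) 
(.lf (nat_lit 10564) (.g (nat_lit 1732) (.e (nat_lit 397) (nat_lit 32) (.e (nat_lit 426316) (nat_lit 12) (.e (nat_lit 475185) (nat_lit 29) (.e (nat_lit 557107) (nat_lit 15) .nil)))) .nil)) 
(.lf (nat_lit 10596) (.g (nat_lit 1601) (.e (nat_lit 417) (nat_lit 32) (.e (nat_lit 426163) (nat_lit 6) (.e (nat_lit 253991) (nat_lit 11) (.e (nat_lit 24320) (nat_lit 17) .nil)))) .nil))) (.nd (nat_lit 5) 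
(.lf (nat_lit 10580) (.g (nat_lit 2296) (.e (nat_lit 411) (nat_lit 32) (.e (nat_lit 426113) (nat_lit 2) (.e (nat_lit 196666) (nat_lit 13) (.e (nat_lit 65617) (nat_lit 10) (.e (nat_lit 344130) (nat_lit 26) .nil))))) .nil)) 
(.lf (nat_lit 10612) (.g (nat_lit 3935) (.e (nat_lit 420) (nat_lit 32) (.e (nat_lit 426232) (nat_lit 9) (.e (nat_lit 426353) (nat_lit 15) (.e (nat_lit 2031) (nat_lit 140) (.e (nat_lit 688178) (nat_lit 16) (.e (nat_lit 65619) (nat_lit 10) (.e (nat_lit 344160) (nat_lit 37) (.e (nat_lit 647195) (nat_lit 9) .nil)))))))) (.g (nat_lit 8) .nil .nil))))) (.nd (nat_lit 4) (.nd (nat_lit 5) 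
(.lf (nat_lit 10572) (.g (nat_lit 2012) (.e (nat_lit 401) (nat_lit 32) (.e (nat_lit 426569) (nat_lit 35) (.e (nat_lit 401438) (nat_lit 9) (.e (nat_lit 426428) (nat_lit 17) (.e (nat_lit 98048) (nat_lit 5) (.e (nat_lit 73785) (nat_lit 40) .nil)))))) (.g (nat_lit 4) .nil .nil))) 
(.lf (nat_lit 10604) (.g (nat_lit 1433) (.e (nat_lit 418) (nat_lit 32) (.e (nat_lit 426163) (nat_lit 6) (.e (nat_lit 253992) (nat_lit 11) (.e (nat_lit 24320) (nat_lit 17) .nil)))) .nil))) (.nd (nat_lit 5) 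
(.lf (nat_lit 10588) (.g (nat_lit 3984) (.e (nat_lit 414) (nat_lit 32) (.e (nat_lit 426312) (nat_lit 12) (.e (nat_lit 475185) (nat_lit 29) (.e (nat_lit 557100) (nat_lit 13) (.e (nat_lit 172113) (nat_lit 10) (.e (nat_lit 434245) (nat_lit 28) (.e (nat_lit 573449) (nat_lit 9) .nil))))))) (.g (nat_lit 0) .nil .nil))) 
(.lf (nat_lit 10620) (.g (nat_lit 3935) (.e (nat_lit 420) (nat_lit 32) (.e (nat_lit 426261) (nat_lit 9) (.e (nat_lit 426353) (nat_lit 15) (.e (nat_lit 2031) (nat_lit 140) (.e (nat_lit 688177) (nat_lit 16) (.e (nat_lit 65617) (nat_lit 10) (.e (nat_lit 344161) (nat_lit 37) (.e (nat_lit 647195) (nat_lit 9) .nil)))))))) (.g (nat_lit 8) .nil .nil))))))) 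
(.nd (nat_lit 2) (.nd (nat_lit 3) (.nd (nat_lit 4) (.nd (nat_lit 5) 
(.lf (nat_lit 10562) (.g (nat_lit 890) (.e (nat_lit 397) (nat_lit 32) (.e (nat_lit 426100) (nat_lit 1) (.e (nat_lit 164399) (nat_lit 256) .nil))) .nil)) 
(.lf (nat_lit 10594) (.g (nat_lit 2790) (.e (nat_lit 416) (nat_lit 32) (.e (nat_lit 426139) (nat_lit 3) (.e (nat_lit 204869) (nat_lit 29) (.e (nat_lit 360473) (nat_lit 8) (.e (nat_lit 557093) (nat_lit 12) .nil))))) .nil))) (.nd (nat_lit 5) 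
(.lf (nat_lit 10578) (.g (nat_lit 3481) (.e (nat_lit 405) (nat_lit 32) (.e (nat_lit 426338) (nat_lit 14) (.e (nat_lit 491571) (nat_lit 13) (.e (nat_lit 393260) (nat_lit 21) (.e (nat_lit 409617) (nat_lit 10) .nil))))) .nil)) 
(.lf (nat_lit 10610) (.g (nat_lit 4353) (.e (nat_lit 420) (nat_lit 32) (.e (nat_lit 426230) (nat_lit 9) (.e (nat_lit 426353) (nat_lit 15) (.e (nat_lit 2031) (nat_lit 140) (.e (nat_lit 688178) (nat_lit 16) (.e (nat_lit 65619) (nat_lit 10) (.e (nat_lit 344160) (nat_lit 37) (.e (nat_lit 647195) (nat_lit 9) .nil)))))))) (.g (nat_lit 0) .nil .nil))))) (.nd (nat_lit 4) (.nd (nat_lit 5) 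
(.lf (nat_lit 10570) (.g (nat_lit 457) (.e (nat_lit 401) (nat_lit 32) (.e (nat_lit 426171) (nat_lit 7) (.e (nat_lit 409634) (nat_lit 13) .nil))) .nil)) 
(.lf (nat_lit 10602) (.g (nat_lit 3656) (.e (nat_lit 418) (nat_lit 32) (.e (nat_lit 425984) (nat_lit 0) (.e (nat_lit 7510) (nat_lit 402) (.e (nat_lit 1661) (nat_lit 115) (.e (nat_lit 393260) (nat_lit 21) (.e (nat_lit 409617) (nat_lit 10) (.e (nat_lit 5353) (nat_lit 298) .nil))))))) (.g (nat_lit 7) .nil .nil)))) (.nd (nat_lit 5) 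
(.lf (nat_lit 10586) (.g (nat_lit 3811) (.e (nat_lit 414) (nat_lit 32) (.e (nat_lit 426125) (nat_lit 2) (.e (nat_lit 196666) (nat_lit 13) (.e (nat_lit 65617) (nat_lit 10) (.e (nat_lit 344132) (nat_lit 26) .nil))))) .nil)) 
(.lf (nat_lit 10618) (.g (nat_lit 4353) (.e (nat_lit 420) (nat_lit 32) (.e (nat_lit 426260) (nat_lit 9) (.e (nat_lit 426353) (nat_lit 15) (.e (nat_lit 2031) (nat_lit 140) (.e (nat_lit 688177) (nat_lit 16) (.e (nat_lit 65617) (nat_lit 10) (.e (nat_lit 344161) (nat_lit 37) (.e (nat_lit 647195) (nat_lit 9) .nil)))))))) (.g (nat_lit 0) .nil .nil)))))) 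
(.nd (nat_lit 3) (.nd (nat_lit 4) (.nd (nat_lit 5) 
(.lf (nat_lit 10566) (.g (nat_lit 2906) (.e (nat_lit 398) (nat_lit 32) (.e (nat_lit 426343) (nat_lit 14) (.e (nat_lit 491570) (nat_lit 13) (.e (nat_lit 393260) (nat_lit 21) (.e (nat_lit 409617) (nat_lit 10) .nil))))) .nil)) 
(.lf (nat_lit 10598) (.g (nat_lit 3978) (.e (nat_lit 417) (nat_lit 32) (.e (nat_lit 426232) (nat_lit 9) (.e (nat_lit 426353) (nat_lit 15) (.e (nat_lit 2031) (nat_lit 140) (.e (nat_lit 688177) (nat_lit 16) (.e (nat_lit 65617) (nat_lit 10) (.e (nat_lit 344161) (nat_lit 37) (.e (nat_lit 647195) (nat_lit 9) .nil)))))))) (.g (nat_lit 8) .nil .nil)))) (.nd (nat_lit 5) 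
(.lf (nat_lit 10582) (.g (nat_lit 3175) (.e (nat_lit 412) (nat_lit 32) (.e (nat_lit 426316) (nat_lit 12) (.e (nat_lit 475185) (nat_lit 29) (.e (nat_lit 557100) (nat_lit 13) .nil)))) .nil)) 
(.lf (nat_lit 10614) (.g (nat_lit 4173) (.e (nat_lit 420) (nat_lit 32) (.e (nat_lit 426234) (nat_lit 9) (.e (nat_lit 426353) (nat_lit 15) (.e (nat_lit 2031) (nat_lit 140) (.e (nat_lit 688177) (nat_lit 16) (.e (nat_lit 65617) (nat_lit 10) (.e (nat_lit 344161) (nat_lit 37) (.e (nat_lit 647195) (nat_lit 9) .nil)))))))) (.g (nat_lit 8) .nil .nil))))) (.nd (nat_lit 4) (.nd (nat_lit 5) 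
(.lf (nat_lit 10574) (.g (nat_lit 3801) (.e (nat_lit 402) (nat_lit 32) (.e (nat_lit 426338) (nat_lit 14) (.e (nat_lit 491571) (nat_lit 13) (.e (nat_lit 393260) (nat_lit 21) (.e (nat_lit 417536) (nat_lit 10) .nil))))) .nil)) 
(.lf (nat_lit 10606) (.g (nat_lit 2010) (.e (nat_lit 418) (nat_lit 32) (.e (nat_lit 426351) (nat_lit 15) (.e (nat_lit 6723) (nat_lit 362) (.e (nat_lit 180243) (nat_lit 5) (.e (nat_lit 532575) (nat_lit 17) (.e (nat_lit 7105) (nat_lit 380) (.e (nat_lit 164339) (nat_lit 232) .nil))))))) (.g (nat_lit 0) .nil .nil)))) (.nd (nat_lit 5) 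
(.lf (nat_lit 10590) (.g (nat_lit 3244) (.e (nat_lit 416) (nat_lit 32) (.e (nat_lit 426123) (nat_lit 2) (.e (nat_lit 196666) (nat_lit 13) (.e (nat_lit 65617) (nat_lit 10) (.e (nat_lit 344127) (nat_lit 26) .nil))))) .nil)) 
(.lf (nat_lit 10622) (.g (nat_lit 4194) (.e (nat_lit 420) (nat_lit 32) (.e (nat_lit 426262) (nat_lit 9) (.e (nat_lit 426353) (nat_lit 15) (.e (nat_lit 2031) (nat_lit 140) (.e (nat_lit 688177) (nat_lit 16) (.e (nat_lit 65610) (nat_lit 10) (.e (nat_lit 344160) (nat_lit 37) (.e (nat_lit 647195) (nat_lit 9) .nil)))))))) (.g (nat_lit 8) .nil .nil)))))))) 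
(.nd (nat_lit 1) (.nd (nat_lit 2) (.nd (nat_lit 3) (.nd (nat_lit 4) (.nd (nat_lit 5) 
(.lf (nat_lit 10561) (.g (nat_lit 2394) (.e (nat_lit 397) (nat_lit 32) (.e (nat_lit 426011) (nat_lit 0) (.e (nat_lit 7581) (nat_lit 405) (.e (nat_lit 57464) (nat_lit 23) (.e (nat_lit 516151) (nat_lit 9) .nil))))) .nil)) 
(.lf (nat_lit 10593) (.g (nat_lit 2555) (.e (nat_lit 416) (nat_lit 32) (.e (nat_lit 426139) (nat_lit 3) (.e (nat_lit 204869) (nat_lit 29) (.e (nat_lit 360473) (nat_lit 8) (.e (nat_lit 557091) (nat_lit 12) .nil))))) .nil))) (.nd (nat_lit 5) 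
(.lf (nat_lit 10577) (.g (nat_lit 2526) (.e (nat_lit 405) (nat_lit 32) (.e (nat_lit 426338) (nat_lit 14) (.e (nat_lit 491549) (nat_lit 9) (.e (nat_lit 336369) (nat_lit 27) (.e (nat_lit 426173) (nat_lit 7) .nil))))) .nil)) 
(.lf (nat_lit 10609) (.g (nat_lit 4357) (.e (nat_lit 420) (nat_lit 32) (.e (nat_lit 426230) (nat_lit 9) (.e (nat_lit 426353) (nat_lit 15) (.e (nat_lit 2031) (nat_lit 140) (.e (nat_lit 688177) (nat_lit 16) (.e (nat_lit 65617) (nat_lit 10) (.e (nat_lit 344161) (nat_lit 37) (.e (nat_lit 647195) (nat_lit 9) .nil)))))))) (.g (nat_lit 0) .nil .nil))))) (.nd (nat_lit 4) (.nd (nat_lit 5) 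
(.lf (nat_lit 10569) (.g (nat_lit 3319) (.e (nat_lit 400) (nat_lit 32) (.e (nat_lit 426139) (nat_lit 3) (.e (nat_lit 204869) (nat_lit 29) (.e (nat_lit 360475) (nat_lit 8) (.e (nat_lit 557091) (nat_lit 12) .nil))))) .nil)) 
(.lf (nat_lit 10601) (.g (nat_lit 2419) (.e (nat_lit 417) (nat_lit 32) (.e (nat_lit 426347) (nat_lit 14) (.e (nat_lit 491550) (nat_lit 9) (.e (nat_lit 336369) (nat_lit 27) (.e (nat_lit 426173) (nat_lit 7) .nil))))) .nil))) (.nd (nat_lit 5) 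
(.lf (nat_lit 10585) (.g (nat_lit 3319) (.e (nat_lit 413) (nat_lit 32) (.e (nat_lit 426139) (nat_lit 3) (.e (nat_lit 204869) (nat_lit 29) (.e (nat_lit 360475) (nat_lit 8) (.e (nat_lit 557091) (nat_lit 12) .nil))))) .nil)) 
(.lf (nat_lit 10617) (.g (nat_lit 4372) (.e (nat_lit 420) (nat_lit 32) (.e (nat_lit 426260) (nat_lit 9) (.e (nat_lit 426353) (nat_lit 15) (.e (nat_lit 2031) (nat_lit 140) (.e (nat_lit 688177) (nat_lit 16) (.e (nat_lit 65610) (nat_lit 10) (.e (nat_lit 344160) (nat_lit 37) (.e (nat_lit 647195) (nat_lit 9) .nil)))))))) (.g (nat_lit 0) .nil .nil)))))) 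
(.nd (nat_lit 3) (.nd (nat_lit 4) (.nd (nat_lit 5) 
(.lf (nat_lit 10565) (.g (nat_lit 1877) (.e (nat_lit 397) (nat_lit 32) (.e (nat_lit 426343) (nat_lit 14) (.e (nat_lit 491537) (nat_lit 2) (.e (nat_lit 90170) (nat_lit 13) .nil)))) .nil)) 
(.lf (nat_lit 10597) (.g (nat_lit 4185) (.e (nat_lit 417) (nat_lit 32) (.e (nat_lit 426230) (nat_lit 9) (.e (nat_lit 426353) (nat_lit 15) (.e (nat_lit 2031) (nat_lit 140) (.e (nat_lit 688177) (nat_lit 16) (.e (nat_lit 65617) (nat_lit 10) (.e (nat_lit 344161) (nat_lit 37) (.e (nat_lit 647195) (nat_lit 9) .nil)))))))) (.g (nat_lit 0) .nil .nil)))) (.nd (nat_lit 5) 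
(.lf (nat_lit 10581) (.g (nat_lit 2269) (.e (nat_lit 411) (nat_lit 32) (.e (nat_lit 426113) (nat_lit 2) (.e (nat_lit 196666) (nat_lit 13) (.e (nat_lit 65617) (nat_lit 10) (.e (nat_lit 344133) (nat_lit 26) .nil))))) .nil)) 
(.lf (nat_lit 10613) (.g (nat_lit 4194) (.e (nat_lit 420) (nat_lit 32) (.e (nat_lit 426234) (nat_lit 9) (.e (nat_lit 426353) (nat_lit 15) (.e (nat_lit 2031) (nat_lit 140) (.e (nat_lit 688177) (nat_lit 16) (.e (nat_lit 65610) (nat_lit 10) (.e (nat_lit 344160) (nat_lit 37) (.e (nat_lit 647195) (nat_lit 9) .nil)))))))) (.g (nat_lit 8) .nil .nil))))) (.nd (nat_lit 4) (.nd (nat_lit 5) 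
(.lf (nat_lit 10573) (.g (nat_lit 4063) (.e (nat_lit 402) (nat_lit 32) (.e (nat_lit 426338) (nat_lit 14) (.e (nat_lit 491571) (nat_lit 13) (.e (nat_lit 393260) (nat_lit 21) (.e (nat_lit 409623) (nat_lit 10) .nil))))) .nil)) 
(.lf (nat_lit 10605) (.g (nat_lit 3560) (.e (nat_lit 418) (nat_lit 32) (.e (nat_lit 426347) (nat_lit 14) (.e (nat_lit 491550) (nat_lit 9) (.e (nat_lit 336369) (nat_lit 27) (.e (nat_lit 426173) (nat_lit 7) (.e (nat_lit 409617) (nat_lit 10) (.e (nat_lit 5353) (nat_lit 298) .nil))))))) (.g (nat_lit 0) .nil .nil)))) (.nd (nat_lit 5) 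
(.lf (nat_lit 10589) (.g (nat_lit 1771) (.e (nat_lit 414) (nat_lit 32) (.e (nat_lit 426317) (nat_lit 12) (.e (nat_lit 475185) (nat_lit 29) (.e (nat_lit 557100) (nat_lit 13) (.e (nat_lit 172113) (nat_lit 10) (.e (nat_lit 434245) (nat_lit 28) (.e (nat_lit 573449) (nat_lit 9) .nil))))))) (.g (nat_lit 4) .nil .nil))) 
(.lf (nat_lit 10621) (.g (nat_lit 3935) (.e (nat_lit 420) (nat_lit 32) (.e (nat_lit 426261) (nat_lit 9) (.e (nat_lit 426353) (nat_lit 15) (.e (nat_lit 2031) (nat_lit 140) (.e (nat_lit 688178) (nat_lit 16) (.e (nat_lit 65619) (nat_lit 10) (.e (nat_lit 344160) (nat_lit 37) (.e (nat_lit 647195) (nat_lit 9) .nil)))))))) (.g (nat_lit 8) .nil .nil))))))) 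
(.nd (nat_lit 2) (.nd (nat_lit 3) (.nd (nat_lit 4) (.nd (nat_lit 5) 
(.lf (nat_lit 10563) (.g (nat_lit 3062) (.e (nat_lit 397) (nat_lit 32) (.e (nat_lit 426306) (nat_lit 12) (.e (nat_lit 475185) (nat_lit 29) (.e (nat_lit 557100) (nat_lit 13) (.e (nat_lit 172113) (nat_lit 10) .nil))))) .nil)) 
(.lf (nat_lit 10595) (.g (nat_lit 549) (.e (nat_lit 416) (nat_lit 32) (.e (nat_lit 426198) (nat_lit 9) (.e (nat_lit 426533) (nat_lit 28) .nil))) .nil))) (.nd (nat_lit 5) 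
(.lf (nat_lit 10579) (.g (nat_lit 3959) (.e (nat_lit 405) (nat_lit 32) (.e (nat_lit 426338) (nat_lit 14) (.e (nat_lit 491571) (nat_lit 13) (.e (nat_lit 393260) (nat_lit 21) (.e (nat_lit 409623) (nat_lit 10) .nil))))) .nil)) 
(.lf (nat_lit 10611) (.g (nat_lit 3935) (.e (nat_lit 420) (nat_lit 32) (.e (nat_lit 426232) (nat_lit 9) (.e (nat_lit 426353) (nat_lit 15) (.e (nat_lit 2031) (nat_lit 140) (.e (nat_lit 688177) (nat_lit 16) (.e (nat_lit 65617) (nat_lit 10) (.e (nat_lit 344161) (nat_lit 37) (.e (nat_lit 647195) (nat_lit 9) .nil)))))))) (.g (nat_lit 8) .nil .nil))))) (.nd (nat_lit 4) (.nd (nat_lit 5) 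
(.lf (nat_lit 10571) (.g (nat_lit 1682) (.e (nat_lit 401) (nat_lit 32) (.e (nat_lit 426340) (nat_lit 14) (.e (nat_lit 491549) (nat_lit 9) (.e (nat_lit 336421) (nat_lit 28) (.e (nat_lit 434198) (nat_lit 17) .nil))))) .nil)) 
(.lf (nat_lit 10603) (.g (nat_lit 3262) (.e (nat_lit 418) (nat_lit 32) (.e (nat_lit 425987) (nat_lit 0) (.e (nat_lit 7532) (nat_lit 402) (.e (nat_lit 1661) (nat_lit 115) (.e (nat_lit 393260) (nat_lit 21) (.e (nat_lit 409617) (nat_lit 10) (.e (nat_lit 5353) (nat_lit 298) .nil))))))) (.g (nat_lit 7) .nil .nil)))) (.nd (nat_lit 5) 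
(.lf (nat_lit 10587) (.g (nat_lit 3674) (.e (nat_lit 414) (nat_lit 32) (.e (nat_lit 426312) (nat_lit 12) (.e (nat_lit 475185) (nat_lit 29) (.e (nat_lit 557100) (nat_lit 13) (.e (nat_lit 172113) (nat_lit 10) (.e (nat_lit 434245) (nat_lit 28) (.e (nat_lit 573448) (nat_lit 9) .nil))))))) (.g (nat_lit 0) .nil .nil))) 
(.lf (nat_lit 10619) (.g (nat_lit 4357) (.e (nat_lit 420) (nat_lit 32) (.e (nat_lit 426260) (nat_lit 9) (.e (nat_lit 426353) (nat_lit 15) (.e (nat_lit 2031) (nat_lit 140) (.e (nat_lit 688178) (nat_lit 16) (.e (nat_lit 65619) (nat_lit 10) (.e (nat_lit 344160) (nat_lit 37) (.e (nat_lit 647195) (nat_lit 9) .nil)))))))) (.g (nat_lit 0) .nil .nil)))))) 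
(.nd (nat_lit 3) (.nd (nat_lit 4) (.nd (nat_lit 5) 
(.lf (nat_lit 10567) (.g (nat_lit 2906) (.e (nat_lit 399) (nat_lit 32) (.e (nat_lit 426343) (nat_lit 14) (.e (nat_lit 491570) (nat_lit 13) (.e (nat_lit 393260) (nat_lit 21) (.e (nat_lit 409617) (nat_lit 10) .nil))))) .nil)) 
(.lf (nat_lit 10599) (.g (nat_lit 4189) (.e (nat_lit 417) (nat_lit 32) (.e (nat_lit 426234) (nat_lit 9) (.e (nat_lit 426353) (nat_lit 15) (.e (nat_lit 2031) (nat_lit 140) (.e (nat_lit 688177) (nat_lit 16) (.e (nat_lit 65617) (nat_lit 10) (.e (nat_lit 344161) (nat_lit 37) (.e (nat_lit 647195) (nat_lit 9) .nil)))))))) (.g (nat_lit 8) .nil .nil)))) (.nd (nat_lit 5) 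
(.lf (nat_lit 10583) (.g (nat_lit 3264) (.e (nat_lit 413) (nat_lit 32) (.e (nat_lit 426139) (nat_lit 3) (.e (nat_lit 204869) (nat_lit 29) (.e (nat_lit 360474) (nat_lit 8) (.e (nat_lit 557093) (nat_lit 12) .nil))))) .nil)) 
(.lf (nat_lit 10615) (.g (nat_lit 4173) (.e (nat_lit 420) (nat_lit 32) (.e (nat_lit 426234) (nat_lit 9) (.e (nat_lit 426353) (nat_lit 15) (.e (nat_lit 2031) (nat_lit 140) (.e (nat_lit 688178) (nat_lit 16) (.e (nat_lit 65619) (nat_lit 10) (.e (nat_lit 344160) (nat_lit 37) (.e (nat_lit 647195) (nat_lit 9) .nil)))))))) (.g (nat_lit 8) .nil .nil))))) (.nd (nat_lit 4) (.nd (nat_lit 5) 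
(.lf (nat_lit 10575) (.g (nat_lit 1826) (.e (nat_lit 404) (nat_lit 32) (.e (nat_lit 426340) (nat_lit 14) (.e (nat_lit 491570) (nat_lit 13) (.e (nat_lit 393238) (nat_lit 17) (.e (nat_lit 7114) (nat_lit 381) .nil))))) .nil)) 
(.lf (nat_lit 10607) (.g (nat_lit 2312) (.e (nat_lit 419) (nat_lit 32) (.e (nat_lit 426318) (nat_lit 12) (.e (nat_lit 475185) (nat_lit 29) (.e (nat_lit 557100) (nat_lit 13) (.e (nat_lit 172113) (nat_lit 10) .nil))))) .nil))) (.nd (nat_lit 5) 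
(.lf (nat_lit 10591) (.g (nat_lit 3458) (.e (nat_lit 416) (nat_lit 32) (.e (nat_lit 426123) (nat_lit 2) (.e (nat_lit 196666) (nat_lit 13) (.e (nat_lit 65617) (nat_lit 10) (.e (nat_lit 344132) (nat_lit 26) .nil))))) .nil)) 
(.lf (nat_lit 10623) (.g (nat_lit 4173) (.e (nat_lit 420) (nat_lit 32) (.e (nat_lit 426262) (nat_lit 9) (.e (nat_lit 426353) (nat_lit 15) (.e (nat_lit 2031) (nat_lit 140) (.e (nat_lit 688177) (nat_lit 16) (.e (nat_lit 65617) (nat_lit 10) (.e (nat_lit 344161) (nat_lit 37) (.e (nat_lit 647195) (nat_lit 9) .nil)))))))) (.g (nat_lit 8) .nil .nil)))))))))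

noncomputable def tv144 : DT := (.nd (nat_lit 0) (.nd (nat_lit 1) (.nd (nat_lit 2) (.nd (nat_lit 3) (.nd (nat_lit 4) (.nd (nat_lit 5) 
(.lf (nat_lit 10624) (.g (nat_lit 4173) (.e (nat_lit 420) (nat_lit 32) (.e (nat_lit 426262) (nat_lit 9) (.e (nat_lit 426353) (nat_lit 15) (.e (nat_lit 2031) (nat_lit 140) (.e (nat_lit 688178) (nat_lit 16) (.e (nat_lit 65619) (nat_lit 10) (.e (nat_lit 344160) (nat_lit 37) (.e (nat_lit 647195) (nat_lit 9) .nil)))))))) (.g (nat_lit 8) .nil .nil))) 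
(.lf (nat_lit 10656) (.g (nat_lit 1452) (.e (nat_lit 424) (nat_lit 32) (.e (nat_lit 426341) (nat_lit 14) (.e (nat_lit 491550) (nat_lit 9) (.e (nat_lit 336369) (nat_lit 27) (.e (nat_lit 426173) (nat_lit 7) .nil))))) .nil))) (.nd (nat_lit 5) 
(.lf (nat_lit 10640) (.g (nat_lit 2435) (.e (nat_lit 422) (nat_lit 32) (.e (nat_lit 426316) (nat_lit 12) (.e (nat_lit 475185) (nat_lit 29) (.e (nat_lit 557107) (nat_lit 15) (.e (nat_lit 188440) (nat_lit 20) .nil))))) .nil)) 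
(.lf (nat_lit 10672) (.g (nat_lit 846) (.e (nat_lit 426) (nat_lit 32) (.e (nat_lit 426100) (nat_lit 1) (.e (nat_lit 164398) (nat_lit 256) .nil))) .nil)))) (.nd (nat_lit 4) (.nd (nat_lit 5) 
(.lf (nat_lit 10632) (.g (nat_lit 3114) (.e (nat_lit 422) (nat_lit 32) (.e (nat_lit 426200) (nat_lit 9) (.e (nat_lit 426354) (nat_lit 15) (.e (nat_lit 2031) (nat_lit 140) (.e (nat_lit 688177) (nat_lit 16) (.e (nat_lit 65617) (nat_lit 10) (.e (nat_lit 344164) (nat_lit 37) (.e (nat_lit 647195) (nat_lit 9) .nil)))))))) (.g (nat_lit 5) .nil .nil))) 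
(.lf (nat_lit 10664) (.g (nat_lit 2172) (.e (nat_lit 424) (nat_lit 32) (.e (nat_lit 426344) (nat_lit 14) (.e (nat_lit 491568) (nat_lit 13) (.e (nat_lit 393260) (nat_lit 21) (.e (nat_lit 409616) (nat_lit 10) (.e (nat_lit 7936) (nat_lit 298) .nil)))))) (.g (nat_lit 5) .nil .nil)))) (.nd (nat_lit 5) 
(.lf (nat_lit 10648) (.g (nat_lit 4655) (.e (nat_lit 422) (nat_lit 32) (.e (nat_lit 426344) (nat_lit 14) (.e (nat_lit 491544) (nat_lit 7) (.e (nat_lit 319533) (nat_lit 16) (.e (nat_lit 286753) (nat_lit 10) (.e (nat_lit 344160) (nat_lit 37) (.e (nat_lit 647195) (nat_lit 9) .nil))))))) (.g (nat_lit 0) .nil .nil))) 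
(.lf (nat_lit 10680) (.g (nat_lit 4074) (.e (nat_lit 426) (nat_lit 32) (.e (nat_lit 426186) (nat_lit 9) (.e (nat_lit 426354) (nat_lit 15) (.e (nat_lit 1860) (nat_lit 124) (.e (nat_lit 557100) (nat_lit 13) (.e (nat_lit 172113) (nat_lit 10) (.e (nat_lit 434245) (nat_lit 28) (.e (nat_lit 573458) (nat_lit 9) .nil)))))))) (.g (nat_lit 7) .nil .nil)))))) 
(.nd (nat_lit 3) (.nd (nat_lit 4) (.nd (nat_lit 5) 
(.lf (nat_lit 10628) (.g (nat_lit 3604) (.e (nat_lit 422) (nat_lit 32) (.e (nat_lit 426200) (nat_lit 9) (.e (nat_lit 426354) (nat_lit 15) (.e (nat_lit 2031) (nat_lit 140) (.e (nat_lit 688175) (nat_lit 16) (.e (nat_lit 65619) (nat_lit 10) (.e (nat_lit 344160) (nat_lit 37) (.e (nat_lit 647195) (nat_lit 9) .nil)))))))) (.g (nat_lit 6) .nil .nil))) 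
(.lf (nat_lit 10660) (.g (nat_lit 3440) (.e (nat_lit 424) (nat_lit 32) (.e (nat_lit 426343) (nat_lit 14) (.e (nat_lit 491549) (nat_lit 9) (.e (nat_lit 336369) (nat_lit 27) (.e (nat_lit 426173) (nat_lit 7) (.e (nat_lit 409617) (nat_lit 10) (.e (nat_lit 5353) (nat_lit 298) .nil))))))) (.g (nat_lit 5) .nil .nil)))) (.nd (nat_lit 5) 
(.lf (nat_lit 10644) (.g (nat_lit 2271) (.e (nat_lit 422) (nat_lit 32) (.e (nat_lit 426343) (nat_lit 14) (.e (nat_lit 491544) (nat_lit 7) (.e (nat_lit 319531) (nat_lit 16) (.e (nat_lit 286756) (nat_lit 10) .nil))))) .nil)) 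
(.lf (nat_lit 10676) (.g (nat_lit 1371) (.e (nat_lit 426) (nat_lit 32) (.e (nat_lit 426100) (nat_lit 1) (.e (nat_lit 164399) (nat_lit 256) (.e (nat_lit 57409) (nat_lit 12) .nil)))) .nil)))) (.nd (nat_lit 4) (.nd (nat_lit 5) 
(.lf (nat_lit 10636) (.g (nat_lit 2308) (.e (nat_lit 422) (nat_lit 32) (.e (nat_lit 426306) (nat_lit 12) (.e (nat_lit 475193) (nat_lit 38) (.e (nat_lit 688177) (nat_lit 16) (.e (nat_lit 65617) (nat_lit 10) (.e (nat_lit 344161) (nat_lit 37) (.e (nat_lit 647195) (nat_lit 9) .nil))))))) (.g (nat_lit 4) .nil .nil))) 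
(.lf (nat_lit 10668) (.g (nat_lit 738) (.e (nat_lit 426) (nat_lit 32) (.e (nat_lit 426011) (nat_lit 0) (.e (nat_lit 3276) (nat_lit 200) .nil))) .nil))) (.nd (nat_lit 5) 
(.lf (nat_lit 10652) (.g (nat_lit 2521) (.e (nat_lit 423) (nat_lit 32) (.e (nat_lit 426316) (nat_lit 12) (.e (nat_lit 475185) (nat_lit 29) (.e (nat_lit 557107) (nat_lit 15) (.e (nat_lit 188440) (nat_lit 20) .nil))))) .nil)) 
(.lf (nat_lit 10684) (.g (nat_lit 2824) (.e (nat_lit 426) (nat_lit 32) (.e (nat_lit 426187) (nat_lit 9) (.e (nat_lit 426354) (nat_lit 15) (.e (nat_lit 2031) (nat_lit 140) (.e (nat_lit 688177) (nat_lit 16) (.e (nat_lit 65617) (nat_lit 10) (.e (nat_lit 344164) (nat_lit 37) (.e (nat_lit 647195) (nat_lit 9) .nil)))))))) (.g (nat_lit 5) .nil .nil))))))) 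
(.nd (nat_lit 2) (.nd (nat_lit 3) (.nd (nat_lit 4) (.nd (nat_lit 5) 
(.lf (nat_lit 10626) (.g (nat_lit 2764) (.e (nat_lit 422) (nat_lit 32) (.e (nat_lit 426188) (nat_lit 9) (.e (nat_lit 426354) (nat_lit 15) (.e (nat_lit 2031) (nat_lit 140) (.e (nat_lit 688178) (nat_lit 16) (.e (nat_lit 65619) (nat_lit 10) (.e (nat_lit 344160) (nat_lit 37) (.e (nat_lit 647195) (nat_lit 9) .nil)))))))) (.g (nat_lit 5) .nil .nil))) 
(.lf (nat_lit 10658) (.g (nat_lit 2521) (.e (nat_lit 424) (nat_lit 32) (.e (nat_lit 426342) (nat_lit 14) (.e (nat_lit 491568) (nat_lit 13) (.e (nat_lit 393260) (nat_lit 21) (.e (nat_lit 409617) (nat_lit 10) .nil))))) .nil))) (.nd (nat_lit 5) 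
(.lf (nat_lit 10642) (.g (nat_lit 2133) (.e (nat_lit 422) (nat_lit 32) (.e (nat_lit 426338) (nat_lit 14) (.e (nat_lit 491550) (nat_lit 9) (.e (nat_lit 336369) (nat_lit 27) (.e (nat_lit 426173) (nat_lit 7) .nil))))) .nil)) 
(.lf (nat_lit 10674) (.g (nat_lit 3183) (.e (nat_lit 426) (nat_lit 32) (.e (nat_lit 426100) (nat_lit 1) (.e (nat_lit 164398) (nat_lit 256) (.e (nat_lit 57378) (nat_lit 3) (.e (nat_lit 98373) (nat_lit 29) (.e (nat_lit 450599) (nat_lit 19) (.e (nat_lit 679950) (nat_lit 5) .nil))))))) (.g (nat_lit 4) .nil .nil))))) (.nd (nat_lit 4) (.nd (nat_lit 5) 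
(.lf (nat_lit 10634) (.g (nat_lit 3062) (.e (nat_lit 422) (nat_lit 32) (.e (nat_lit 426306) (nat_lit 12) (.e (nat_lit 475185) (nat_lit 29) (.e (nat_lit 557100) (nat_lit 13) (.e (nat_lit 172113) (nat_lit 10) .nil))))) .nil)) 
(.lf (nat_lit 10666) (.g (nat_lit 3074) (.e (nat_lit 425) (nat_lit 32) (.e (nat_lit 426316) (nat_lit 12) (.e (nat_lit 475185) (nat_lit 29) (.e (nat_lit 557100) (nat_lit 13) .nil)))) .nil))) (.nd (nat_lit 5) 
(.lf (nat_lit 10650) (.g (nat_lit 1776) (.e (nat_lit 422) (nat_lit 32) (.e (nat_lit 426344) (nat_lit 14) (.e (nat_lit 491568) (nat_lit 13) (.e (nat_lit 393260) (nat_lit 21) (.e (nat_lit 409616) (nat_lit 10) .nil))))) .nil)) 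
(.lf (nat_lit 10682) (.g (nat_lit 2824) (.e (nat_lit 426) (nat_lit 32) (.e (nat_lit 426187) (nat_lit 9) (.e (nat_lit 426354) (nat_lit 15) (.e (nat_lit 2031) (nat_lit 140) (.e (nat_lit 688175) (nat_lit 16) (.e (nat_lit 65619) (nat_lit 10) (.e (nat_lit 344160) (nat_lit 37) (.e (nat_lit 647195) (nat_lit 9) .nil)))))))) (.g (nat_lit 5) .nil .nil)))))) 
(.nd (nat_lit 3) (.nd (nat_lit 4) (.nd (nat_lit 5) 
(.lf (nat_lit 10630) (.g (nat_lit 2298) (.e (nat_lit 422) (nat_lit 32) (.e (nat_lit 426200) (nat_lit 9) (.e (nat_lit 426354) (nat_lit 15) (.e (nat_lit 2031) (nat_lit 140) (.e (nat_lit 688177) (nat_lit 16) (.e (nat_lit 65617) (nat_lit 10) (.e (nat_lit 344161) (nat_lit 37) (.e (nat_lit 647194) (nat_lit 9) .nil)))))))) (.g (nat_lit 4) .nil .nil))) 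
(.lf (nat_lit 10662) (.g (nat_lit 2195) (.e (nat_lit 424) (nat_lit 32) (.e (nat_lit 426344) (nat_lit 14) (.e (nat_lit 491547) (nat_lit 9) (.e (nat_lit 336369) (nat_lit 27) (.e (nat_lit 426173) (nat_lit 7) .nil))))) .nil))) (.nd (nat_lit 5) 
(.lf (nat_lit 10646) (.g (nat_lit 634) (.e (nat_lit 422) (nat_lit 32) (.e (nat_lit 426343) (nat_lit 14) (.e (nat_lit 491570) (nat_lit 13) .nil))) .nil)) 
(.lf (nat_lit 10678) (.g (nat_lit 2387) (.e (nat_lit 426) (nat_lit 32) (.e (nat_lit 426185) (nat_lit 9) (.e (nat_lit 426412) (nat_lit 15) (.e (nat_lit 1856) (nat_lit 124) (.e (nat_lit 557100) (nat_lit 13) (.e (nat_lit 172106) (nat_lit 10) (.e (nat_lit 434244) (nat_lit 28) (.e (nat_lit 573458) (nat_lit 9) .nil)))))))) (.g (nat_lit 4) .nil .nil))))) (.nd (nat_lit 4) (.nd (nat_lit 5) 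
(.lf (nat_lit 10638) (.g (nat_lit 2487) (.e (nat_lit 422) (nat_lit 32) (.e (nat_lit 426315) (nat_lit 12) (.e (nat_lit 475185) (nat_lit 29) (.e (nat_lit 557100) (nat_lit 13) (.e (nat_lit 172113) (nat_lit 10) .nil))))) .nil)) 
(.lf (nat_lit 10670) (.g (nat_lit 4479) (.e (nat_lit 426) (nat_lit 32) (.e (nat_lit 426011) (nat_lit 0) (.e (nat_lit 7490) (nat_lit 402) (.e (nat_lit 1400) (nat_lit 106) (.e (nat_lit 319533) (nat_lit 16) (.e (nat_lit 286753) (nat_lit 10) (.e (nat_lit 344160) (nat_lit 37) (.e (nat_lit 647195) (nat_lit 9) .nil)))))))) (.g (nat_lit 8) .nil .nil)))) (.nd (nat_lit 5) 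
(.lf (nat_lit 10654) (.g (nat_lit 3840) (.e (nat_lit 424) (nat_lit 32) (.e (nat_lit 426338) (nat_lit 14) (.e (nat_lit 491571) (nat_lit 13) (.e (nat_lit 393260) (nat_lit 21) (.e (nat_lit 409616) (nat_lit 10) .nil))))) .nil)) 
(.lf (nat_lit 10686) (.g (nat_lit 3604) (.e (nat_lit 426) (nat_lit 32) (.e (nat_lit 426188) (nat_lit 9) (.e (nat_lit 426350) (nat_lit 15) (.e (nat_lit 2031) (nat_lit 140) (.e (nat_lit 688177) (nat_lit 16) (.e (nat_lit 65617) (nat_lit 10) (.e (nat_lit 344164) (nat_lit 37) (.e (nat_lit 647195) (nat_lit 9) .nil)))))))) (.g (nat_lit 6) .nil .nil)))))))) 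
(.nd (nat_lit 1) (.nd (nat_lit 2) (.nd (nat_lit 3) (.nd (nat_lit 4) (.nd (nat_lit 5) 
(.lf (nat_lit 10625) (.g (nat_lit 880) (.e (nat_lit 422) (nat_lit 32) (.e (nat_lit 426100) (nat_lit 1) (.e (nat_lit 164399) (nat_lit 256) .nil))) .nil)) 
(.lf (nat_lit 10657) (.g (nat_lit 4219) (.e (nat_lit 424) (nat_lit 32) (.e (nat_lit 426341) (nat_lit 14) (.e (nat_lit 491571) (nat_lit 13) (.e (nat_lit 393260) (nat_lit 21) (.e (nat_lit 409614) (nat_lit 10) .nil))))) .nil))) (.nd (nat_lit 5) 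
(.lf (nat_lit 10641) (.g (nat_lit 2536) (.e (nat_lit 422) (nat_lit 32) (.e (nat_lit 426338) (nat_lit 14) (.e (nat_lit 491549) (nat_lit 9) (.e (nat_lit 336369) (nat_lit 27) (.e (nat_lit 426173) (nat_lit 7) .nil))))) .nil)) 
(.lf (nat_lit 10673) (.g (nat_lit 3080) (.e (nat_lit 426) (nat_lit 32) (.e (nat_lit 426100) (nat_lit 1) (.e (nat_lit 164398) (nat_lit 256) (.e (nat_lit 57378) (nat_lit 3) (.e (nat_lit 98373) (nat_lit 29) .nil))))) .nil)))) (.nd (nat_lit 4) (.nd (nat_lit 5) 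
(.lf (nat_lit 10633) (.g (nat_lit 5301) (.e (nat_lit 422) (nat_lit 32) (.e (nat_lit 426200) (nat_lit 9) (.e (nat_lit 426354) (nat_lit 15) (.e (nat_lit 2031) (nat_lit 140) (.e (nat_lit 688178) (nat_lit 16) (.e (nat_lit 65619) (nat_lit 10) (.e (nat_lit 344160) (nat_lit 37) (.e (nat_lit 647195) (nat_lit 9) .nil)))))))) (.g (nat_lit 0) .nil .nil))) 
(.lf (nat_lit 10665) (.g (nat_lit 3575) (.e (nat_lit 424) (nat_lit 32) (.e (nat_lit 426344) (nat_lit 14) (.e (nat_lit 491568) (nat_lit 13) (.e (nat_lit 393260) (nat_lit 21) (.e (nat_lit 409617) (nat_lit 10) (.e (nat_lit 5353) (nat_lit 298) .nil)))))) (.g (nat_lit 0) .nil .nil)))) (.nd (nat_lit 5) 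
(.lf (nat_lit 10649) (.g (nat_lit 4643) (.e (nat_lit 422) (nat_lit 32) (.e (nat_lit 426344) (nat_lit 14) (.e (nat_lit 491544) (nat_lit 7) (.e (nat_lit 319534) (nat_lit 16) (.e (nat_lit 286756) (nat_lit 10) (.e (nat_lit 344160) (nat_lit 37) (.e (nat_lit 647195) (nat_lit 9) .nil))))))) (.g (nat_lit 7) .nil .nil))) 
(.lf (nat_lit 10681) (.g (nat_lit 4257) (.e (nat_lit 426) (nat_lit 32) (.e (nat_lit 426187) (nat_lit 9) (.e (nat_lit 426354) (nat_lit 15) (.e (nat_lit 1860) (nat_lit 124) (.e (nat_lit 557100) (nat_lit 13) (.e (nat_lit 172113) (nat_lit 10) (.e (nat_lit 434245) (nat_lit 28) (.e (nat_lit 573458) (nat_lit 9) .nil)))))))) (.g (nat_lit 7) .nil .nil)))))) 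
(.nd (nat_lit 3) (.nd (nat_lit 4) (.nd (nat_lit 5) 
(.lf (nat_lit 10629) (.g (nat_lit 5013) (.e (nat_lit 422) (nat_lit 32) (.e (nat_lit 426200) (nat_lit 9) (.e (nat_lit 426354) (nat_lit 15) (.e (nat_lit 2031) (nat_lit 140) (.e (nat_lit 688177) (nat_lit 16) (.e (nat_lit 65610) (nat_lit 10) (.e (nat_lit 344160) (nat_lit 37) (.e (nat_lit 647195) (nat_lit 9) .nil)))))))) (.g (nat_lit 8) .nil .nil))) 
(.lf (nat_lit 10661) (.g (nat_lit 2110) (.e (nat_lit 424) (nat_lit 32) (.e (nat_lit 426343) (nat_lit 14) (.e (nat_lit 491568) (nat_lit 13) (.e (nat_lit 393260) (nat_lit 21) (.e (nat_lit 409616) (nat_lit 10) .nil))))) .nil))) (.nd (nat_lit 5) 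
(.lf (nat_lit 10645) (.g (nat_lit 2973) (.e (nat_lit 422) (nat_lit 32) (.e (nat_lit 426343) (nat_lit 14) (.e (nat_lit 491544) (nat_lit 7) (.e (nat_lit 319534) (nat_lit 16) (.e (nat_lit 286756) (nat_lit 10) (.e (nat_lit 344160) (nat_lit 37) (.e (nat_lit 647195) (nat_lit 9) .nil))))))) (.g (nat_lit 4) .nil .nil))) 
(.lf (nat_lit 10677) (.g (nat_lit 2248) (.e (nat_lit 426) (nat_lit 32) (.e (nat_lit 426185) (nat_lit 9) (.e (nat_lit 426354) (nat_lit 15) (.e (nat_lit 2031) (nat_lit 140) (.e (nat_lit 688177) (nat_lit 16) (.e (nat_lit 65610) (nat_lit 10) (.e (nat_lit 344160) (nat_lit 37) (.e (nat_lit 647195) (nat_lit 9) .nil)))))))) (.g (nat_lit 5) .nil .nil))))) (.nd (nat_lit 4) (.nd (nat_lit 5) 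
(.lf (nat_lit 10637) (.g (nat_lit 2519) (.e (nat_lit 422) (nat_lit 32) (.e (nat_lit 426308) (nat_lit 12) (.e (nat_lit 475193) (nat_lit 38) (.e (nat_lit 688177) (nat_lit 16) (.e (nat_lit 65617) (nat_lit 10) (.e (nat_lit 344161) (nat_lit 37) (.e (nat_lit 647195) (nat_lit 9) .nil))))))) (.g (nat_lit 5) .nil .nil))) 
(.lf (nat_lit 10669) (.g (nat_lit 2002) (.e (nat_lit 426) (nat_lit 32) (.e (nat_lit 426011) (nat_lit 0) (.e (nat_lit 3544) (nat_lit 219) (.e (nat_lit 712755) (nat_lit 30) (.e (nat_lit 450588) (nat_lit 10) .nil))))) .nil))) (.nd (nat_lit 5) 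
(.lf (nat_lit 10653) (.g (nat_lit 2713) (.e (nat_lit 424) (nat_lit 32) (.e (nat_lit 426338) (nat_lit 14) (.e (nat_lit 491550) (nat_lit 9) (.e (nat_lit 336369) (nat_lit 27) (.e (nat_lit 426173) (nat_lit 7) (.e (nat_lit 409617) (nat_lit 10) (.e (nat_lit 5353) (nat_lit 298) .nil))))))) (.g (nat_lit 5) .nil .nil))) 
(.lf (nat_lit 10685) (.g (nat_lit 3051) (.e (nat_lit 426) (nat_lit 32) (.e (nat_lit 426188) (nat_lit 9) (.e (nat_lit 426350) (nat_lit 15) (.e (nat_lit 1860) (nat_lit 124) (.e (nat_lit 557100) (nat_lit 13) (.e (nat_lit 172113) (nat_lit 10) (.e (nat_lit 434245) (nat_lit 28) (.e (nat_lit 573458) (nat_lit 9) .nil)))))))) (.g (nat_lit 6) .nil .nil))))))) 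
(.nd (nat_lit 2) (.nd (nat_lit 3) (.nd (nat_lit 4) (.nd (nat_lit 5) 
(.lf (nat_lit 10627) (.g (nat_lit 3029) (.e (nat_lit 422) (nat_lit 32) (.e (nat_lit 426200) (nat_lit 9) (.e (nat_lit 426354) (nat_lit 15) (.e (nat_lit 1860) (nat_lit 124) (.e (nat_lit 557100) (nat_lit 13) (.e (nat_lit 172106) (nat_lit 10) (.e (nat_lit 434244) (nat_lit 28) (.e (nat_lit 573458) (nat_lit 9) .nil)))))))) (.g (nat_lit 5) .nil .nil))) 
(.lf (nat_lit 10659) (.g (nat_lit 3041) (.e (nat_lit 424) (nat_lit 32) (.e (nat_lit 426342) (nat_lit 14) (.e (nat_lit 491570) (nat_lit 13) (.e (nat_lit 393260) (nat_lit 21) (.e (nat_lit 409617) (nat_lit 10) (.e (nat_lit 5353) (nat_lit 298) .nil)))))) (.g (nat_lit 0) .nil .nil)))) (.nd (nat_lit 5) 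
(.lf (nat_lit 10643) (.g (nat_lit 3422) (.e (nat_lit 422) (nat_lit 32) (.e (nat_lit 426341) (nat_lit 14) (.e (nat_lit 491570) (nat_lit 13) (.e (nat_lit 393260) (nat_lit 21) (.e (nat_lit 409617) (nat_lit 10) (.e (nat_lit 5353) (nat_lit 298) .nil)))))) (.g (nat_lit 0) .nil .nil))) 
(.lf (nat_lit 10675) (.g (nat_lit 810) (.e (nat_lit 426) (nat_lit 32) (.e (nat_lit 426100) (nat_lit 1) (.e (nat_lit 164399) (nat_lit 256) .nil))) .nil)))) (.nd (nat_lit 4) (.nd (nat_lit 5) 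
(.lf (nat_lit 10635) (.g (nat_lit 2388) (.e (nat_lit 422) (nat_lit 32) (.e (nat_lit 426306) (nat_lit 12) (.e (nat_lit 475193) (nat_lit 38) (.e (nat_lit 688177) (nat_lit 16) (.e (nat_lit 65610) (nat_lit 10) (.e (nat_lit 344160) (nat_lit 37) (.e (nat_lit 647195) (nat_lit 9) .nil))))))) (.g (nat_lit 4) .nil .nil))) 
(.lf (nat_lit 10667) (.g (nat_lit 1421) (.e (nat_lit 425) (nat_lit 32) (.e (nat_lit 426344) (nat_lit 14) (.e (nat_lit 491580) (nat_lit 27) (.e (nat_lit 433920) (nat_lit 29) (.e (nat_lit 352321) (nat_lit 25) (.e (nat_lit 139265) (nat_lit 0) .nil)))))) (.g (nat_lit 5) .nil .nil)))) (.nd (nat_lit 5) 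
(.lf (nat_lit 10651) (.g (nat_lit 3099) (.e (nat_lit 422) (nat_lit 32) (.e (nat_lit 426344) (nat_lit 14) (.e (nat_lit 491568) (nat_lit 13) (.e (nat_lit 393260) (nat_lit 21) (.e (nat_lit 409617) (nat_lit 10) (.e (nat_lit 5353) (nat_lit 298) .nil)))))) (.g (nat_lit 5) .nil .nil))) 
(.lf (nat_lit 10683) (.g (nat_lit 4325) (.e (nat_lit 426) (nat_lit 32) (.e (nat_lit 426187) (nat_lit 9) (.e (nat_lit 426354) (nat_lit 15) (.e (nat_lit 2031) (nat_lit 140) (.e (nat_lit 688177) (nat_lit 16) (.e (nat_lit 65610) (nat_lit 10) (.e (nat_lit 344160) (nat_lit 37) (.e (nat_lit 647195) (nat_lit 9) .nil)))))))) (.g (nat_lit 8) .nil .nil)))))) 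
(.nd (nat_lit 3) (.nd (nat_lit 4) (.nd (nat_lit 5) 
(.lf (nat_lit 10631) (.g (nat_lit 5185) (.e (nat_lit 422) (nat_lit 32) (.e (nat_lit 426200) (nat_lit 9) (.e (nat_lit 426354) (nat_lit 15) (.e (nat_lit 2031) (nat_lit 140) (.e (nat_lit 688177) (nat_lit 16) (.e (nat_lit 65617) (nat_lit 10) (.e (nat_lit 344161) (nat_lit 37) (.e (nat_lit 647195) (nat_lit 9) .nil)))))))) (.g (nat_lit 8) .nil .nil))) 
(.lf (nat_lit 10663) (.g (nat_lit 2377) (.e (nat_lit 424) (nat_lit 32) (.e (nat_lit 426344) (nat_lit 14) (.e (nat_lit 491568) (nat_lit 13) (.e (nat_lit 393260) (nat_lit 21) (.e (nat_lit 409614) (nat_lit 10) .nil))))) .nil))) (.nd (nat_lit 5) 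
(.lf (nat_lit 10647) (.g (nat_lit 3826) (.e (nat_lit 422) (nat_lit 32) (.e (nat_lit 426343) (nat_lit 14) (.e (nat_lit 491570) (nat_lit 13) (.e (nat_lit 393260) (nat_lit 21) (.e (nat_lit 409617) (nat_lit 10) (.e (nat_lit 5353) (nat_lit 298) .nil)))))) (.g (nat_lit 0) .nil .nil))) 
(.lf (nat_lit 10679) (.g (nat_lit 3029) (.e (nat_lit 426) (nat_lit 32) (.e (nat_lit 426185) (nat_lit 9) (.e (nat_lit 426412) (nat_lit 15) (.e (nat_lit 1856) (nat_lit 124) (.e (nat_lit 557100) (nat_lit 13) (.e (nat_lit 172113) (nat_lit 10) (.e (nat_lit 434245) (nat_lit 28) (.e (nat_lit 573458) (nat_lit 9) .nil)))))))) (.g (nat_lit 5) .nil .nil))))) (.nd (nat_lit 4) (.nd (nat_lit 5) 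
(.lf (nat_lit 10639) (.g (nat_lit 2675) (.e (nat_lit 422) (nat_lit 32) (.e (nat_lit 426315) (nat_lit 12) (.e (nat_lit 475193) (nat_lit 38) (.e (nat_lit 688177) (nat_lit 16) (.e (nat_lit 65617) (nat_lit 10) (.e (nat_lit 344161) (nat_lit 37) (.e (nat_lit 647195) (nat_lit 9) .nil))))))) (.g (nat_lit 5) .nil .nil))) 
(.lf (nat_lit 10671) (.g (nat_lit 618) (.e (nat_lit 426) (nat_lit 32) (.e (nat_lit 426098) (nat_lit 1) (.e (nat_lit 164399) (nat_lit 256) .nil))) .nil))) (.nd (nat_lit 5) 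
(.lf (nat_lit 10655) (.g (nat_lit 1986) (.e (nat_lit 424) (nat_lit 32) (.e (nat_lit 426341) (nat_lit 14) (.e (nat_lit 491549) (nat_lit 9) (.e (nat_lit 336369) (nat_lit 27) (.e (nat_lit 426173) (nat_lit 7) .nil))))) .nil)) 
(.lf (nat_lit 10687) (.g (nat_lit 5185) (.e (nat_lit 426) (nat_lit 32) (.e (nat_lit 426188) (nat_lit 9) (.e (nat_lit 426350) (nat_lit 15) (.e (nat_lit 2031) (nat_lit 140) (.e (nat_lit 688178) (nat_lit 16) (.e (nat_lit 65619) (nat_lit 10) (.e (nat_lit 344160) (nat_lit 37) (.e (nat_lit 647195) (nat_lit 9) .nil)))))))) (.g (nat_lit 8) .nil .nil)))))))))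

noncomputable def tv145 : DT := (.nd (nat_lit 0) (.nd (nat_lit 1) (.nd (nat_lit 2) (.nd (nat_lit 3) (.nd (nat_lit 4) 
(.lf (nat_lit 10688) (.g (nat_lit 5310) (.e (nat_lit 426) (nat_lit 32) (.e (nat_lit 426188) (nat_lit 9) (.e (nat_lit 426354) (nat_lit 15) (.e (nat_lit 1860) (nat_lit 124) (.e (nat_lit 557100) (nat_lit 13) (.e (nat_lit 172113) (nat_lit 10) (.e (nat_lit 434245) (nat_lit 28) (.e (nat_lit 573458) (nat_lit 9) .nil)))))))) (.g (nat_lit 0) .nil .nil))) 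
(.lf (nat_lit 10704) (.g (nat_lit 4074) (.e (nat_lit 426) (nat_lit 32) (.e (nat_lit 426196) (nat_lit 9) (.e (nat_lit 426354) (nat_lit 15) (.e (nat_lit 1860) (nat_lit 124) (.e (nat_lit 557100) (nat_lit 13) (.e (nat_lit 172113) (nat_lit 10) (.e (nat_lit 434245) (nat_lit 28) (.e (nat_lit 573458) (nat_lit 9) .nil)))))))) (.g (nat_lit 7) .nil .nil)))) (.nd (nat_lit 4) 
(.lf (nat_lit 10696) (.g (nat_lit 2150) (.e (nat_lit 426) (nat_lit 32) (.e (nat_lit 426188) (nat_lit 9) (.e (nat_lit 426360) (nat_lit 15) (.e (nat_lit 2032) (nat_lit 140) (.e (nat_lit 688175) (nat_lit 16) (.e (nat_lit 65619) (nat_lit 10) (.e (nat_lit 344160) (nat_lit 37) (.e (nat_lit 647195) (nat_lit 9) .nil)))))))) (.g (nat_lit 4) .nil .nil))) 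
(.lf (nat_lit 10712) (.g (nat_lit 3386) (.e (nat_lit 426) (nat_lit 32) (.e (nat_lit 426198) (nat_lit 9) (.e (nat_lit 426364) (nat_lit 15) (.e (nat_lit 1858) (nat_lit 124) (.e (nat_lit 557100) (nat_lit 13) (.e (nat_lit 172106) (nat_lit 10) (.e (nat_lit 434244) (nat_lit 28) (.e (nat_lit 573458) (nat_lit 9) .nil)))))))) (.g (nat_lit 5) .nil .nil))))) (.nd (nat_lit 3) (.nd (nat_lit 4) 
(.lf (nat_lit 10692) (.g (nat_lit 4997) (.e (nat_lit 426) (nat_lit 32) (.e (nat_lit 426188) (nat_lit 9) (.e (nat_lit 426354) (nat_lit 15) (.e (nat_lit 2031) (nat_lit 140) (.e (nat_lit 688178) (nat_lit 16) (.e (nat_lit 65619) (nat_lit 10) (.e (nat_lit 344160) (nat_lit 37) (.e (nat_lit 647195) (nat_lit 9) .nil)))))))) (.g (nat_lit 8) .nil .nil))) 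
(.lf (nat_lit 10708) (.g (nat_lit 4779) (.e (nat_lit 426) (nat_lit 32) (.e (nat_lit 426198) (nat_lit 9) (.e (nat_lit 426354) (nat_lit 15) (.e (nat_lit 2031) (nat_lit 140) (.e (nat_lit 688177) (nat_lit 16) (.e (nat_lit 65617) (nat_lit 10) (.e (nat_lit 344161) (nat_lit 37) (.e (nat_lit 647195) (nat_lit 9) .nil)))))))) (.g (nat_lit 8) .nil .nil)))) (.nd (nat_lit 4) 
(.lf (nat_lit 10700) (.g (nat_lit 2908) (.e (nat_lit 426) (nat_lit 32) (.e (nat_lit 426189) (nat_lit 9) (.e (nat_lit 426354) (nat_lit 15) (.e (nat_lit 2031) (nat_lit 140) (.e (nat_lit 688177) (nat_lit 16) (.e (nat_lit 65610) (nat_lit 10) (.e (nat_lit 344160) (nat_lit 37) (.e (nat_lit 647195) (nat_lit 9) .nil)))))))) (.g (nat_lit 6) .nil .nil))) 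
(.lf (nat_lit 10716) (.g (nat_lit 4325) (.e (nat_lit 426) (nat_lit 32) (.e (nat_lit 426199) (nat_lit 9) (.e (nat_lit 426354) (nat_lit 15) (.e (nat_lit 2031) (nat_lit 140) (.e (nat_lit 688177) (nat_lit 16) (.e (nat_lit 65610) (nat_lit 10) (.e (nat_lit 344160) (nat_lit 37) (.e (nat_lit 647195) (nat_lit 9) .nil)))))))) (.g (nat_lit 8) .nil .nil)))))) 
(.nd (nat_lit 2) (.nd (nat_lit 3) (.nd (nat_lit 4) 
(.lf (nat_lit 10690) (.g (nat_lit 5010) (.e (nat_lit 426) (nat_lit 32) (.e (nat_lit 426188) (nat_lit 9) (.e (nat_lit 426354) (nat_lit 15) (.e (nat_lit 2031) (nat_lit 140) (.e (nat_lit 688177) (nat_lit 16) (.e (nat_lit 65617) (nat_lit 10) (.e (nat_lit 344161) (nat_lit 37) (.e (nat_lit 647195) (nat_lit 9) .nil)))))))) (.g (nat_lit 8) .nil .nil))) 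
(.lf (nat_lit 10706) (.g (nat_lit 2908) (.e (nat_lit 426) (nat_lit 32) (.e (nat_lit 426197) (nat_lit 9) (.e (nat_lit 426354) (nat_lit 15) (.e (nat_lit 2031) (nat_lit 140) (.e (nat_lit 688177) (nat_lit 16) (.e (nat_lit 65610) (nat_lit 10) (.e (nat_lit 344160) (nat_lit 37) (.e (nat_lit 647195) (nat_lit 9) .nil)))))))) (.g (nat_lit 6) .nil .nil)))) (.nd (nat_lit 4) 
(.lf (nat_lit 10698) (.g (nat_lit 3771) (.e (nat_lit 426) (nat_lit 32) (.e (nat_lit 426188) (nat_lit 9) (.e (nat_lit 426399) (nat_lit 15) (.e (nat_lit 1855) (nat_lit 124) (.e (nat_lit 557100) (nat_lit 13) (.e (nat_lit 172113) (nat_lit 10) (.e (nat_lit 434245) (nat_lit 28) (.e (nat_lit 573458) (nat_lit 9) .nil)))))))) (.g (nat_lit 6) .nil .nil))) 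
(.lf (nat_lit 10714) (.g (nat_lit 4128) (.e (nat_lit 426) (nat_lit 32) (.e (nat_lit 426199) (nat_lit 9) (.e (nat_lit 426354) (nat_lit 15) (.e (nat_lit 1860) (nat_lit 124) (.e (nat_lit 557100) (nat_lit 13) (.e (nat_lit 172113) (nat_lit 10) (.e (nat_lit 434245) (nat_lit 28) (.e (nat_lit 573458) (nat_lit 9) .nil)))))))) (.g (nat_lit 7) .nil .nil))))) (.nd (nat_lit 3) (.nd (nat_lit 4) 
(.lf (nat_lit 10694) (.g (nat_lit 3602) (.e (nat_lit 426) (nat_lit 32) (.e (nat_lit 426188) (nat_lit 9) (.e (nat_lit 426360) (nat_lit 15) (.e (nat_lit 2031) (nat_lit 140) (.e (nat_lit 688177) (nat_lit 16) (.e (nat_lit 65610) (nat_lit 10) (.e (nat_lit 344160) (nat_lit 37) (.e (nat_lit 647195) (nat_lit 9) .nil)))))))) (.g (nat_lit 6) .nil .nil))) 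
(.lf (nat_lit 10710) (.g (nat_lit 4779) (.e (nat_lit 426) (nat_lit 32) (.e (nat_lit 426198) (nat_lit 9) (.e (nat_lit 426354) (nat_lit 15) (.e (nat_lit 2031) (nat_lit 140) (.e (nat_lit 688178) (nat_lit 16) (.e (nat_lit 65619) (nat_lit 10) (.e (nat_lit 344160) (nat_lit 37) (.e (nat_lit 647195) (nat_lit 9) .nil)))))))) (.g (nat_lit 8) .nil .nil)))) (.nd (nat_lit 4) 
(.lf (nat_lit 10702) (.g (nat_lit 4215) (.e (nat_lit 426) (nat_lit 32) (.e (nat_lit 426190) (nat_lit 9) (.e (nat_lit 426354) (nat_lit 15) (.e (nat_lit 1860) (nat_lit 124) (.e (nat_lit 557100) (nat_lit 13) (.e (nat_lit 172106) (nat_lit 10) (.e (nat_lit 434244) (nat_lit 28) (.e (nat_lit 573458) (nat_lit 9) .nil)))))))) (.g (nat_lit 7) .nil .nil))) 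
(.lf (nat_lit 10718) (.g (nat_lit 2764) (.e (nat_lit 426) (nat_lit 32) (.e (nat_lit 426200) (nat_lit 9) (.e (nat_lit 426350) (nat_lit 15) (.e (nat_lit 2031) (nat_lit 140) (.e (nat_lit 688177) (nat_lit 16) (.e (nat_lit 65617) (nat_lit 10) (.e (nat_lit 344161) (nat_lit 37) (.e (nat_lit 647195) (nat_lit 9) .nil)))))))) (.g (nat_lit 5) .nil .nil))))))) 
(.nd (nat_lit 1) (.nd (nat_lit 2) (.nd (nat_lit 3) (.nd (nat_lit 4) 
(.lf (nat_lit 10689) (.g (nat_lit 4743) (.e (nat_lit 426) (nat_lit 32) (.e (nat_lit 426188) (nat_lit 9) (.e (nat_lit 426354) (nat_lit 15) (.e (nat_lit 2031) (nat_lit 140) (.e (nat_lit 688177) (nat_lit 16) (.e (nat_lit 65610) (nat_lit 10) (.e (nat_lit 344160) (nat_lit 37) (.e (nat_lit 647195) (nat_lit 9) .nil)))))))) (.g (nat_lit 8) .nil .nil))) 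
(.lf (nat_lit 10705) (.g (nat_lit 2893) (.e (nat_lit 426) (nat_lit 32) (.e (nat_lit 426197) (nat_lit 9) (.e (nat_lit 426354) (nat_lit 15) (.e (nat_lit 1860) (nat_lit 124) (.e (nat_lit 557100) (nat_lit 13) (.e (nat_lit 172113) (nat_lit 10) (.e (nat_lit 434245) (nat_lit 28) (.e (nat_lit 573458) (nat_lit 9) .nil)))))))) (.g (nat_lit 5) .nil .nil)))) (.nd (nat_lit 4) 
(.lf (nat_lit 10697) (.g (nat_lit 3137) (.e (nat_lit 426) (nat_lit 32) (.e (nat_lit 426188) (nat_lit 9) (.e (nat_lit 426361) (nat_lit 15) (.e (nat_lit 1860) (nat_lit 124) (.e (nat_lit 557100) (nat_lit 13) (.e (nat_lit 172113) (nat_lit 10) (.e (nat_lit 434245) (nat_lit 28) (.e (nat_lit 573458) (nat_lit 9) .nil)))))))) (.g (nat_lit 5) .nil .nil))) 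
(.lf (nat_lit 10713) (.g (nat_lit 4543) (.e (nat_lit 426) (nat_lit 32) (.e (nat_lit 426199) (nat_lit 9) (.e (nat_lit 426354) (nat_lit 15) (.e (nat_lit 1860) (nat_lit 124) (.e (nat_lit 557100) (nat_lit 13) (.e (nat_lit 172106) (nat_lit 10) (.e (nat_lit 434244) (nat_lit 28) (.e (nat_lit 573458) (nat_lit 9) .nil)))))))) (.g (nat_lit 7) .nil .nil))))) (.nd (nat_lit 3) (.nd (nat_lit 4) 
(.lf (nat_lit 10693) (.g (nat_lit 2388) (.e (nat_lit 426) (nat_lit 32) (.e (nat_lit 426188) (nat_lit 9) (.e (nat_lit 426360) (nat_lit 15) (.e (nat_lit 2030) (nat_lit 140) (.e (nat_lit 688177) (nat_lit 16) (.e (nat_lit 65610) (nat_lit 10) (.e (nat_lit 344160) (nat_lit 37) (.e (nat_lit 647195) (nat_lit 9) .nil)))))))) (.g (nat_lit 4) .nil .nil))) 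
(.lf (nat_lit 10709) (.g (nat_lit 3058) (.e (nat_lit 426) (nat_lit 32) (.e (nat_lit 426198) (nat_lit 9) (.e (nat_lit 426354) (nat_lit 15) (.e (nat_lit 2031) (nat_lit 140) (.e (nat_lit 688177) (nat_lit 16) (.e (nat_lit 65617) (nat_lit 10) (.e (nat_lit 344164) (nat_lit 37) (.e (nat_lit 647195) (nat_lit 9) .nil)))))))) (.g (nat_lit 5) .nil .nil)))) (.nd (nat_lit 4) 
(.lf (nat_lit 10701) (.g (nat_lit 3046) (.e (nat_lit 426) (nat_lit 32) (.e (nat_lit 426190) (nat_lit 9) (.e (nat_lit 426350) (nat_lit 15) (.e (nat_lit 2031) (nat_lit 140) (.e (nat_lit 688177) (nat_lit 16) (.e (nat_lit 65617) (nat_lit 10) (.e (nat_lit 344164) (nat_lit 37) (.e (nat_lit 647195) (nat_lit 9) .nil)))))))) (.g (nat_lit 5) .nil .nil))) 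
(.lf (nat_lit 10717) (.g (nat_lit 2824) (.e (nat_lit 426) (nat_lit 32) (.e (nat_lit 426199) (nat_lit 9) (.e (nat_lit 426354) (nat_lit 15) (.e (nat_lit 2031) (nat_lit 140) (.e (nat_lit 688177) (nat_lit 16) (.e (nat_lit 65617) (nat_lit 10) (.e (nat_lit 344164) (nat_lit 37) (.e (nat_lit 647195) (nat_lit 9) .nil)))))))) (.g (nat_lit 5) .nil .nil)))))) 
(.nd (nat_lit 2) (.nd (nat_lit 3) (.nd (nat_lit 4) 
(.lf (nat_lit 10691) (.g (nat_lit 3313) (.e (nat_lit 426) (nat_lit 32) (.e (nat_lit 426188) (nat_lit 9) (.e (nat_lit 426354) (nat_lit 15) (.e (nat_lit 2031) (nat_lit 140) (.e (nat_lit 688177) (nat_lit 16) (.e (nat_lit 65617) (nat_lit 10) (.e (nat_lit 344164) (nat_lit 37) (.e (nat_lit 647195) (nat_lit 9) .nil)))))))) (.g (nat_lit 5) .nil .nil))) 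
(.lf (nat_lit 10707) (.g (nat_lit 4215) (.e (nat_lit 426) (nat_lit 32) (.e (nat_lit 426198) (nat_lit 9) (.e (nat_lit 426354) (nat_lit 15) (.e (nat_lit 1860) (nat_lit 124) (.e (nat_lit 557100) (nat_lit 13) (.e (nat_lit 172106) (nat_lit 10) (.e (nat_lit 434244) (nat_lit 28) (.e (nat_lit 573458) (nat_lit 9) .nil)))))))) (.g (nat_lit 7) .nil .nil)))) (.nd (nat_lit 4) 
(.lf (nat_lit 10699) (.g (nat_lit 2846) (.e (nat_lit 426) (nat_lit 32) (.e (nat_lit 426189) (nat_lit 9) (.e (nat_lit 426354) (nat_lit 15) (.e (nat_lit 1860) (nat_lit 124) (.e (nat_lit 557100) (nat_lit 13) (.e (nat_lit 172113) (nat_lit 10) (.e (nat_lit 434245) (nat_lit 28) (.e (nat_lit 573458) (nat_lit 9) .nil)))))))) (.g (nat_lit 5) .nil .nil))) 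
(.lf (nat_lit 10715) (.g (nat_lit 2824) (.e (nat_lit 426) (nat_lit 32) (.e (nat_lit 426199) (nat_lit 9) (.e (nat_lit 426354) (nat_lit 15) (.e (nat_lit 2031) (nat_lit 140) (.e (nat_lit 688175) (nat_lit 16) (.e (nat_lit 65619) (nat_lit 10) (.e (nat_lit 344160) (nat_lit 37) (.e (nat_lit 647195) (nat_lit 9) .nil)))))))) (.g (nat_lit 5) .nil .nil))))) (.nd (nat_lit 3) (.nd (nat_lit 4) 
(.lf (nat_lit 10695) (.g (nat_lit 3890) (.e (nat_lit 426) (nat_lit 32) (.e (nat_lit 426188) (nat_lit 9) (.e (nat_lit 426360) (nat_lit 15) (.e (nat_lit 2031) (nat_lit 140) (.e (nat_lit 688177) (nat_lit 16) (.e (nat_lit 65617) (nat_lit 10) (.e (nat_lit 344161) (nat_lit 37) (.e (nat_lit 647195) (nat_lit 9) .nil)))))))) (.g (nat_lit 6) .nil .nil))) 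
(.lf (nat_lit 10711) (.g (nat_lit 2242) (.e (nat_lit 426) (nat_lit 32) (.e (nat_lit 426198) (nat_lit 9) (.e (nat_lit 426364) (nat_lit 15) (.e (nat_lit 1855) (nat_lit 124) (.e (nat_lit 557100) (nat_lit 13) (.e (nat_lit 172113) (nat_lit 10) (.e (nat_lit 434245) (nat_lit 28) (.e (nat_lit 573458) (nat_lit 9) .nil)))))))) (.g (nat_lit 4) .nil .nil)))) (.nd (nat_lit 4) 
(.lf (nat_lit 10703) (.g (nat_lit 4290) (.e (nat_lit 426) (nat_lit 32) (.e (nat_lit 426190) (nat_lit 9) (.e (nat_lit 426402) (nat_lit 15) (.e (nat_lit 1858) (nat_lit 124) (.e (nat_lit 557100) (nat_lit 13) (.e (nat_lit 172106) (nat_lit 10) (.e (nat_lit 434244) (nat_lit 28) (.e (nat_lit 573458) (nat_lit 9) .nil)))))))) (.g (nat_lit 6) .nil .nil))) 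
(.lf (nat_lit 10719) (.g (nat_lit 5573) (.e (nat_lit 426) (nat_lit 32) (.e (nat_lit 426200) (nat_lit 9) (.e (nat_lit 426354) (nat_lit 15) (.e (nat_lit 1860) (nat_lit 124) (.e (nat_lit 557100) (nat_lit 13) (.e (nat_lit 172106) (nat_lit 10) (.e (nat_lit 434244) (nat_lit 28) (.e (nat_lit 573458) (nat_lit 9) .nil)))))))) (.g (nat_lit 0) .nil .nil))))))))

noncomputable def tv146 : DT := (.nd (nat_lit 0) (.nd (nat_lit 1) (.nd (nat_lit 2) (.nd (nat_lit 3) (.nd (nat_lit 4) 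
(.lf (nat_lit 10720) (.g (nat_lit 5088) (.e (nat_lit 426) (nat_lit 32) (.e (nat_lit 426200) (nat_lit 9) (.e (nat_lit 426354) (nat_lit 15) (.e (nat_lit 1860) (nat_lit 124) (.e (nat_lit 557100) (nat_lit 13) (.e (nat_lit 172113) (nat_lit 10) (.e (nat_lit 434245) (nat_lit 28) (.e (nat_lit 573458) (nat_lit 9) .nil)))))))) (.g (nat_lit 8) .nil .nil))) 
(.lf (nat_lit 10736) (.g (nat_lit 4184) (.e (nat_lit 426) (nat_lit 32) (.e (nat_lit 426338) (nat_lit 14) (.e (nat_lit 491571) (nat_lit 13) (.e (nat_lit 393260) (nat_lit 21) (.e (nat_lit 409616) (nat_lit 10) .nil))))) .nil))) (.nd (nat_lit 4) 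
(.lf (nat_lit 10728) (.g (nat_lit 4636) (.e (nat_lit 426) (nat_lit 32) (.e (nat_lit 426204) (nat_lit 9) (.e (nat_lit 426412) (nat_lit 15) (.e (nat_lit 1856) (nat_lit 124) (.e (nat_lit 557100) (nat_lit 13) (.e (nat_lit 172106) (nat_lit 10) (.e (nat_lit 434244) (nat_lit 28) (.e (nat_lit 573458) (nat_lit 9) .nil)))))))) (.g (nat_lit 7) .nil .nil))) 
(.lf (nat_lit 10744) (.g (nat_lit 3640) (.e (nat_lit 426) (nat_lit 32) (.e (nat_lit 426344) (nat_lit 14) (.e (nat_lit 491544) (nat_lit 7) (.e (nat_lit 319531) (nat_lit 16) (.e (nat_lit 286756) (nat_lit 10) (.e (nat_lit 344160) (nat_lit 37) (.e (nat_lit 647195) (nat_lit 9) .nil))))))) (.g (nat_lit 6) .nil .nil))))) (.nd (nat_lit 3) (.nd (nat_lit 4) 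
(.lf (nat_lit 10724) (.g (nat_lit 5010) (.e (nat_lit 426) (nat_lit 32) (.e (nat_lit 426200) (nat_lit 9) (.e (nat_lit 426354) (nat_lit 15) (.e (nat_lit 2031) (nat_lit 140) (.e (nat_lit 688178) (nat_lit 16) (.e (nat_lit 65619) (nat_lit 10) (.e (nat_lit 344160) (nat_lit 37) (.e (nat_lit 647195) (nat_lit 9) .nil)))))))) (.g (nat_lit 8) .nil .nil))) 
(.lf (nat_lit 10740) (.g (nat_lit 4170) (.e (nat_lit 426) (nat_lit 32) (.e (nat_lit 426343) (nat_lit 14) (.e (nat_lit 491544) (nat_lit 7) (.e (nat_lit 319531) (nat_lit 16) (.e (nat_lit 286756) (nat_lit 10) (.e (nat_lit 344160) (nat_lit 37) (.e (nat_lit 647195) (nat_lit 9) .nil))))))) (.g (nat_lit 7) .nil .nil)))) (.nd (nat_lit 4) 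
(.lf (nat_lit 10732) (.g (nat_lit 3219) (.e (nat_lit 426) (nat_lit 32) (.e (nat_lit 426315) (nat_lit 12) (.e (nat_lit 475193) (nat_lit 38) (.e (nat_lit 688177) (nat_lit 16) (.e (nat_lit 65610) (nat_lit 10) (.e (nat_lit 344160) (nat_lit 37) (.e (nat_lit 647195) (nat_lit 9) .nil))))))) (.g (nat_lit 6) .nil .nil))) 
(.lf (nat_lit 10748) (.g (nat_lit 2022) (.e (nat_lit 428) (nat_lit 32) (.e (nat_lit 425984) (nat_lit 0) (.e (nat_lit 7489) (nat_lit 402) (.e (nat_lit 1256) (nat_lit 92) (.e (nat_lit 98372) (nat_lit 29) (.e (nat_lit 450586) (nat_lit 10) (.e (nat_lit 573452) (nat_lit 9) .nil))))))) (.g (nat_lit 0) .nil .nil)))))) (.nd (nat_lit 2) (.nd (nat_lit 3) (.nd (nat_lit 4) 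
(.lf (nat_lit 10722) (.g (nat_lit 4997) (.e (nat_lit 426) (nat_lit 32) (.e (nat_lit 426200) (nat_lit 9) (.e (nat_lit 426354) (nat_lit 15) (.e (nat_lit 2031) (nat_lit 140) (.e (nat_lit 688177) (nat_lit 16) (.e (nat_lit 65617) (nat_lit 10) (.e (nat_lit 344161) (nat_lit 37) (.e (nat_lit 647195) (nat_lit 9) .nil)))))))) (.g (nat_lit 8) .nil .nil))) 
(.lf (nat_lit 10738) (.g (nat_lit 3924) (.e (nat_lit 426) (nat_lit 32) (.e (nat_lit 426342) (nat_lit 14) (.e (nat_lit 491544) (nat_lit 7) (.e (nat_lit 319531) (nat_lit 16) (.e (nat_lit 286756) (nat_lit 10) (.e (nat_lit 344160) (nat_lit 37) (.e (nat_lit 647195) (nat_lit 9) .nil))))))) (.g (nat_lit 7) .nil .nil)))) (.nd (nat_lit 4) 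
(.lf (nat_lit 10730) (.g (nat_lit 2508) (.e (nat_lit 426) (nat_lit 32) (.e (nat_lit 426308) (nat_lit 12) (.e (nat_lit 475193) (nat_lit 38) (.e (nat_lit 688177) (nat_lit 16) (.e (nat_lit 65617) (nat_lit 10) (.e (nat_lit 344164) (nat_lit 37) (.e (nat_lit 647195) (nat_lit 9) .nil))))))) (.g (nat_lit 5) .nil .nil))) 
(.lf (nat_lit 10746) (.g (nat_lit 4829) (.e (nat_lit 427) (nat_lit 32) (.e (nat_lit 426338) (nat_lit 14) (.e (nat_lit 491571) (nat_lit 13) (.e (nat_lit 393260) (nat_lit 21) (.e (nat_lit 409614) (nat_lit 10) .nil))))) .nil)))) (.nd (nat_lit 3) (.nd (nat_lit 4) 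
(.lf (nat_lit 10726) (.g (nat_lit 2168) (.e (nat_lit 426) (nat_lit 32) (.e (nat_lit 426200) (nat_lit 9) (.e (nat_lit 426360) (nat_lit 15) (.e (nat_lit 2031) (nat_lit 140) (.e (nat_lit 688178) (nat_lit 16) (.e (nat_lit 65619) (nat_lit 10) (.e (nat_lit 344160) (nat_lit 37) (.e (nat_lit 647195) (nat_lit 9) .nil)))))))) (.g (nat_lit 4) .nil .nil))) 
(.lf (nat_lit 10742) (.g (nat_lit 4886) (.e (nat_lit 426) (nat_lit 32) (.e (nat_lit 426343) (nat_lit 14) (.e (nat_lit 491544) (nat_lit 7) (.e (nat_lit 319534) (nat_lit 16) (.e (nat_lit 286756) (nat_lit 10) (.e (nat_lit 344160) (nat_lit 37) (.e (nat_lit 647195) (nat_lit 9) .nil))))))) (.g (nat_lit 0) .nil .nil)))) (.nd (nat_lit 4) 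
(.lf (nat_lit 10734) (.g (nat_lit 3193) (.e (nat_lit 426) (nat_lit 32) (.e (nat_lit 426316) (nat_lit 12) (.e (nat_lit 475193) (nat_lit 38) (.e (nat_lit 688177) (nat_lit 16) (.e (nat_lit 65610) (nat_lit 10) (.e (nat_lit 344160) (nat_lit 37) (.e (nat_lit 647195) (nat_lit 9) .nil))))))) (.g (nat_lit 6) .nil .nil))) 
(.lf (nat_lit 10750) (.g (nat_lit 3122) (.e (nat_lit 428) (nat_lit 32) (.e (nat_lit 425984) (nat_lit 0) (.e (nat_lit 7580) (nat_lit 405) (.e (nat_lit 57464) (nat_lit 23) (.e (nat_lit 516151) (nat_lit 9) (.e (nat_lit 426286) (nat_lit 10) (.e (nat_lit 434247) (nat_lit 28) (.e (nat_lit 573457) (nat_lit 9) .nil)))))))) (.g (nat_lit 0) .nil .nil))))))) 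
(.nd (nat_lit 1) (.nd (nat_lit 2) (.nd (nat_lit 3) (.nd (nat_lit 4) 
(.lf (nat_lit 10721) (.g (nat_lit 4743) (.e (nat_lit 426) (nat_lit 32) (.e (nat_lit 426200) (nat_lit 9) (.e (nat_lit 426354) (nat_lit 15) (.e (nat_lit 2031) (nat_lit 140) (.e (nat_lit 688177) (nat_lit 16) (.e (nat_lit 65610) (nat_lit 10) (.e (nat_lit 344160) (nat_lit 37) (.e (nat_lit 647195) (nat_lit 9) .nil)))))))) (.g (nat_lit 8) .nil .nil))) 
(.lf (nat_lit 10737) (.g (nat_lit 3881) (.e (nat_lit 426) (nat_lit 32) (.e (nat_lit 426341) (nat_lit 14) (.e (nat_lit 491544) (nat_lit 7) (.e (nat_lit 319534) (nat_lit 16) (.e (nat_lit 286756) (nat_lit 10) (.e (nat_lit 344160) (nat_lit 37) (.e (nat_lit 647195) (nat_lit 9) .nil))))))) (.g (nat_lit 5) .nil .nil)))) (.nd (nat_lit 4) 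
(.lf (nat_lit 10729) (.g (nat_lit 2603) (.e (nat_lit 426) (nat_lit 32) (.e (nat_lit 426306) (nat_lit 12) (.e (nat_lit 475193) (nat_lit 38) (.e (nat_lit 688177) (nat_lit 16) (.e (nat_lit 65617) (nat_lit 10) (.e (nat_lit 344164) (nat_lit 37) (.e (nat_lit 647195) (nat_lit 9) .nil))))))) (.g (nat_lit 5) .nil .nil))) 
(.lf (nat_lit 10745) (.g (nat_lit 4242) (.e (nat_lit 426) (nat_lit 32) (.e (nat_lit 426344) (nat_lit 14) (.e (nat_lit 491544) (nat_lit 7) (.e (nat_lit 319533) (nat_lit 16) (.e (nat_lit 286753) (nat_lit 10) (.e (nat_lit 344160) (nat_lit 37) (.e (nat_lit 647195) (nat_lit 9) .nil))))))) (.g (nat_lit 7) .nil .nil))))) (.nd (nat_lit 3) (.nd (nat_lit 4) 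
(.lf (nat_lit 10725) (.g (nat_lit 2325) (.e (nat_lit 426) (nat_lit 32) (.e (nat_lit 426200) (nat_lit 9) (.e (nat_lit 426360) (nat_lit 15) (.e (nat_lit 2031) (nat_lit 140) (.e (nat_lit 688177) (nat_lit 16) (.e (nat_lit 65610) (nat_lit 10) (.e (nat_lit 344160) (nat_lit 37) (.e (nat_lit 647195) (nat_lit 9) .nil)))))))) (.g (nat_lit 4) .nil .nil))) 
(.lf (nat_lit 10741) (.g (nat_lit 4656) (.e (nat_lit 426) (nat_lit 32) (.e (nat_lit 426343) (nat_lit 14) (.e (nat_lit 491544) (nat_lit 7) (.e (nat_lit 319533) (nat_lit 16) (.e (nat_lit 286753) (nat_lit 10) (.e (nat_lit 344160) (nat_lit 37) (.e (nat_lit 647195) (nat_lit 9) .nil))))))) (.g (nat_lit 0) .nil .nil)))) (.nd (nat_lit 4) 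
(.lf (nat_lit 10733) (.g (nat_lit 3206) (.e (nat_lit 426) (nat_lit 32) (.e (nat_lit 426315) (nat_lit 12) (.e (nat_lit 475193) (nat_lit 38) (.e (nat_lit 688177) (nat_lit 16) (.e (nat_lit 65617) (nat_lit 10) (.e (nat_lit 344161) (nat_lit 37) (.e (nat_lit 647195) (nat_lit 9) .nil))))))) (.g (nat_lit 6) .nil .nil))) 
(.lf (nat_lit 10749) (.g (nat_lit 2643) (.e (nat_lit 428) (nat_lit 32) (.e (nat_lit 425984) (nat_lit 0) (.e (nat_lit 7489) (nat_lit 402) (.e (nat_lit 1256) (nat_lit 92) (.e (nat_lit 98373) (nat_lit 29) (.e (nat_lit 450587) (nat_lit 10) (.e (nat_lit 573457) (nat_lit 9) .nil))))))) (.g (nat_lit 0) .nil .nil)))))) (.nd (nat_lit 2) (.nd (nat_lit 3) (.nd (nat_lit 4) 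
(.lf (nat_lit 10723) (.g (nat_lit 3292) (.e (nat_lit 426) (nat_lit 32) (.e (nat_lit 426200) (nat_lit 9) (.e (nat_lit 426354) (nat_lit 15) (.e (nat_lit 2031) (nat_lit 140) (.e (nat_lit 688177) (nat_lit 16) (.e (nat_lit 65617) (nat_lit 10) (.e (nat_lit 344164) (nat_lit 37) (.e (nat_lit 647195) (nat_lit 9) .nil)))))))) (.g (nat_lit 5) .nil .nil))) 
(.lf (nat_lit 10739) (.g (nat_lit 2319) (.e (nat_lit 426) (nat_lit 32) (.e (nat_lit 426343) (nat_lit 14) (.e (nat_lit 491544) (nat_lit 7) (.e (nat_lit 319530) (nat_lit 16) (.e (nat_lit 286756) (nat_lit 10) (.e (nat_lit 344160) (nat_lit 37) (.e (nat_lit 647195) (nat_lit 9) .nil))))))) (.g (nat_lit 4) .nil .nil)))) (.nd (nat_lit 4) 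
(.lf (nat_lit 10731) (.g (nat_lit 3178) (.e (nat_lit 426) (nat_lit 32) (.e (nat_lit 426315) (nat_lit 12) (.e (nat_lit 475193) (nat_lit 38) (.e (nat_lit 688175) (nat_lit 16) (.e (nat_lit 65619) (nat_lit 10) (.e (nat_lit 344160) (nat_lit 37) (.e (nat_lit 647195) (nat_lit 9) .nil))))))) (.g (nat_lit 6) .nil .nil))) 
(.lf (nat_lit 10747) (.g (nat_lit 3156) (.e (nat_lit 428) (nat_lit 32) (.e (nat_lit 425984) (nat_lit 0) (.e (nat_lit 7489) (nat_lit 402) (.e (nat_lit 1256) (nat_lit 92) (.e (nat_lit 98359) (nat_lit 26) (.e (nat_lit 426286) (nat_lit 10) (.e (nat_lit 434248) (nat_lit 28) (.e (nat_lit 573452) (nat_lit 9) .nil)))))))) (.g (nat_lit 0) .nil .nil))))) (.nd (nat_lit 3) (.nd (nat_lit 4) 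
(.lf (nat_lit 10727) (.g (nat_lit 2090) (.e (nat_lit 426) (nat_lit 32) (.e (nat_lit 426200) (nat_lit 9) (.e (nat_lit 426374) (nat_lit 15) (.e (nat_lit 1856) (nat_lit 124) (.e (nat_lit 557100) (nat_lit 13) .nil))))) .nil)) 
(.lf (nat_lit 10743) (.g (nat_lit 2779) (.e (nat_lit 426) (nat_lit 32) (.e (nat_lit 426343) (nat_lit 14) (.e (nat_lit 491568) (nat_lit 13) (.e (nat_lit 393260) (nat_lit 21) (.e (nat_lit 409616) (nat_lit 10) (.e (nat_lit 5345) (nat_lit 298) .nil)))))) (.g (nat_lit 4) .nil .nil)))) (.nd (nat_lit 4) 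
(.lf (nat_lit 10735) (.g (nat_lit 3180) (.e (nat_lit 426) (nat_lit 32) (.e (nat_lit 426316) (nat_lit 12) (.e (nat_lit 475193) (nat_lit 38) (.e (nat_lit 688177) (nat_lit 16) (.e (nat_lit 65617) (nat_lit 10) (.e (nat_lit 344161) (nat_lit 37) (.e (nat_lit 647195) (nat_lit 9) .nil))))))) (.g (nat_lit 6) .nil .nil))) 
(.lf (nat_lit 10751) (.g (nat_lit 3638) (.e (nat_lit 428) (nat_lit 32) (.e (nat_lit 425984) (nat_lit 0) (.e (nat_lit 7580) (nat_lit 405) (.e (nat_lit 57464) (nat_lit 23) (.e (nat_lit 516151) (nat_lit 9) (.e (nat_lit 426286) (nat_lit 10) (.e (nat_lit 434248) (nat_lit 28) (.e (nat_lit 573452) (nat_lit 9) .nil)))))))) (.g (nat_lit 0) .nil .nil))))))))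

noncomputable def tv147 : DT := (.nd (nat_lit 0) (.nd (nat_lit 1) (.nd (nat_lit 2) (.nd (nat_lit 3) (.nd (nat_lit 4) 
(.lf (nat_lit 10752) (.g (nat_lit 2381) (.e (nat_lit 428) (nat_lit 32) (.e (nat_lit 425984) (nat_lit 0) (.e (nat_lit 7580) (nat_lit 405) (.e (nat_lit 57464) (nat_lit 23) (.e (nat_lit 516165) (nat_lit 12) (.e (nat_lit 450586) (nat_lit 10) (.e (nat_lit 573452) (nat_lit 9) .nil))))))) (.g (nat_lit 0) .nil .nil))) 
(.lf (nat_lit 10768) (.g (nat_lit 2072) (.e (nat_lit 428) (nat_lit 32) (.e (nat_lit 425989) (nat_lit 0) (.e (nat_lit 7582) (nat_lit 405) (.e (nat_lit 57464) (nat_lit 23) (.e (nat_lit 516165) (nat_lit 12) (.e (nat_lit 450586) (nat_lit 10) (.e (nat_lit 573452) (nat_lit 9) .nil))))))) (.g (nat_lit 0) .nil .nil)))) (.nd (nat_lit 4) 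
(.lf (nat_lit 10760) (.g (nat_lit 2567) (.e (nat_lit 428) (nat_lit 32) (.e (nat_lit 425989) (nat_lit 0) (.e (nat_lit 7489) (nat_lit 402) (.e (nat_lit 1256) (nat_lit 92) (.e (nat_lit 98373) (nat_lit 29) (.e (nat_lit 450587) (nat_lit 10) (.e (nat_lit 573457) (nat_lit 9) .nil))))))) (.g (nat_lit 0) .nil .nil))) 
(.lf (nat_lit 10776) (.g (nat_lit 2493) (.e (nat_lit 430) (nat_lit 32) (.e (nat_lit 426010) (nat_lit 0) (.e (nat_lit 7486) (nat_lit 402) (.e (nat_lit 1256) (nat_lit 92) (.e (nat_lit 98359) (nat_lit 26) (.e (nat_lit 426286) (nat_lit 10) (.e (nat_lit 434247) (nat_lit 28) (.e (nat_lit 573457) (nat_lit 9) .nil)))))))) (.g (nat_lit 7) .nil .nil))))) (.nd (nat_lit 3) (.nd (nat_lit 4) 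
(.lf (nat_lit 10756) (.g (nat_lit 2158) (.e (nat_lit 428) (nat_lit 32) (.e (nat_lit 425984) (nat_lit 0) (.e (nat_lit 7582) (nat_lit 405) (.e (nat_lit 57464) (nat_lit 23) (.e (nat_lit 516165) (nat_lit 12) (.e (nat_lit 450586) (nat_lit 10) (.e (nat_lit 573452) (nat_lit 9) .nil))))))) (.g (nat_lit 0) .nil .nil))) 
(.lf (nat_lit 10772) (.g (nat_lit 3050) (.e (nat_lit 428) (nat_lit 32) (.e (nat_lit 425990) (nat_lit 0) (.e (nat_lit 7489) (nat_lit 402) (.e (nat_lit 1256) (nat_lit 92) (.e (nat_lit 98373) (nat_lit 29) (.e (nat_lit 450588) (nat_lit 10) (.e (nat_lit 573452) (nat_lit 9) .nil))))))) (.g (nat_lit 0) .nil .nil)))) (.nd (nat_lit 4) 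
(.lf (nat_lit 10764) (.g (nat_lit 2272) (.e (nat_lit 428) (nat_lit 32) (.e (nat_lit 425989) (nat_lit 0) (.e (nat_lit 7580) (nat_lit 405) (.e (nat_lit 57464) (nat_lit 23) (.e (nat_lit 516165) (nat_lit 12) (.e (nat_lit 450586) (nat_lit 10) (.e (nat_lit 573452) (nat_lit 9) .nil))))))) (.g (nat_lit 0) .nil .nil))) 
(.lf (nat_lit 10780) (.g (nat_lit 3731) (.e (nat_lit 430) (nat_lit 32) (.e (nat_lit 426011) (nat_lit 0) (.e (nat_lit 7486) (nat_lit 402) (.e (nat_lit 1256) (nat_lit 92) (.e (nat_lit 98359) (nat_lit 26) (.e (nat_lit 426286) (nat_lit 10) (.e (nat_lit 434247) (nat_lit 28) (.e (nat_lit 573456) (nat_lit 9) .nil)))))))) (.g (nat_lit 8) .nil .nil)))))) (.nd (nat_lit 2) (.nd (nat_lit 3) (.nd (nat_lit 4) 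
(.lf (nat_lit 10754) (.g (nat_lit 2423) (.e (nat_lit 428) (nat_lit 32) (.e (nat_lit 425984) (nat_lit 0) (.e (nat_lit 7580) (nat_lit 405) (.e (nat_lit 57464) (nat_lit 23) (.e (nat_lit 516166) (nat_lit 12) (.e (nat_lit 450587) (nat_lit 10) (.e (nat_lit 573457) (nat_lit 9) .nil))))))) (.g (nat_lit 0) .nil .nil))) 
(.lf (nat_lit 10770) (.g (nat_lit 2791) (.e (nat_lit 428) (nat_lit 32) (.e (nat_lit 425989) (nat_lit 0) (.e (nat_lit 7582) (nat_lit 405) (.e (nat_lit 57464) (nat_lit 23) (.e (nat_lit 516166) (nat_lit 12) (.e (nat_lit 450588) (nat_lit 10) (.e (nat_lit 573452) (nat_lit 9) .nil))))))) (.g (nat_lit 0) .nil .nil)))) (.nd (nat_lit 4) 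
(.lf (nat_lit 10762) (.g (nat_lit 3047) (.e (nat_lit 428) (nat_lit 32) (.e (nat_lit 425989) (nat_lit 0) (.e (nat_lit 7580) (nat_lit 405) (.e (nat_lit 57464) (nat_lit 23) (.e (nat_lit 516151) (nat_lit 9) (.e (nat_lit 426286) (nat_lit 10) (.e (nat_lit 434247) (nat_lit 28) (.e (nat_lit 573457) (nat_lit 9) .nil)))))))) (.g (nat_lit 0) .nil .nil))) 
(.lf (nat_lit 10778) (.g (nat_lit 2086) (.e (nat_lit 430) (nat_lit 32) (.e (nat_lit 426011) (nat_lit 0) (.e (nat_lit 3549) (nat_lit 219) (.e (nat_lit 712753) (nat_lit 30) (.e (nat_lit 450586) (nat_lit 10) (.e (nat_lit 573473) (nat_lit 12) (.e (nat_lit 57508) (nat_lit 39) (.e (nat_lit 647190) (nat_lit 9) .nil)))))))) (.g (nat_lit 4) .nil .nil))))) (.nd (nat_lit 3) (.nd (nat_lit 4) 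
(.lf (nat_lit 10758) (.g (nat_lit 3090) (.e (nat_lit 428) (nat_lit 32) (.e (nat_lit 425989) (nat_lit 0) (.e (nat_lit 7489) (nat_lit 402) (.e (nat_lit 1256) (nat_lit 92) (.e (nat_lit 98359) (nat_lit 26) (.e (nat_lit 426286) (nat_lit 10) (.e (nat_lit 434248) (nat_lit 28) (.e (nat_lit 573452) (nat_lit 9) .nil)))))))) (.g (nat_lit 0) .nil .nil))) 
(.lf (nat_lit 10774) (.g (nat_lit 4258) (.e (nat_lit 428) (nat_lit 32) (.e (nat_lit 426234) (nat_lit 9) (.e (nat_lit 426353) (nat_lit 15) (.e (nat_lit 1860) (nat_lit 124) (.e (nat_lit 557100) (nat_lit 13) (.e (nat_lit 172106) (nat_lit 10) (.e (nat_lit 434244) (nat_lit 28) (.e (nat_lit 573451) (nat_lit 9) .nil)))))))) (.g (nat_lit 8) .nil .nil)))) (.nd (nat_lit 4) 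
(.lf (nat_lit 10766) (.g (nat_lit 2345) (.e (nat_lit 428) (nat_lit 32) (.e (nat_lit 425989) (nat_lit 0) (.e (nat_lit 7580) (nat_lit 405) (.e (nat_lit 57464) (nat_lit 23) (.e (nat_lit 516166) (nat_lit 12) (.e (nat_lit 450587) (nat_lit 10) (.e (nat_lit 573457) (nat_lit 9) .nil))))))) (.g (nat_lit 0) .nil .nil))) 
(.lf (nat_lit 10782) (.g (nat_lit 3944) (.e (nat_lit 430) (nat_lit 32) (.e (nat_lit 426011) (nat_lit 0) (.e (nat_lit 7486) (nat_lit 402) (.e (nat_lit 1256) (nat_lit 92) (.e (nat_lit 98359) (nat_lit 26) (.e (nat_lit 426286) (nat_lit 10) (.e (nat_lit 434248) (nat_lit 28) (.e (nat_lit 573452) (nat_lit 9) .nil)))))))) (.g (nat_lit 8) .nil .nil))))))) 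
(.nd (nat_lit 1) (.nd (nat_lit 2) (.nd (nat_lit 3) (.nd (nat_lit 4) 
(.lf (nat_lit 10753) (.g (nat_lit 2274) (.e (nat_lit 428) (nat_lit 32) (.e (nat_lit 425984) (nat_lit 0) (.e (nat_lit 7580) (nat_lit 405) (.e (nat_lit 57464) (nat_lit 23) (.e (nat_lit 516165) (nat_lit 12) (.e (nat_lit 450586) (nat_lit 10) (.e (nat_lit 573457) (nat_lit 9) .nil))))))) (.g (nat_lit 0) .nil .nil))) 
(.lf (nat_lit 10769) (.g (nat_lit 2146) (.e (nat_lit 428) (nat_lit 32) (.e (nat_lit 425989) (nat_lit 0) (.e (nat_lit 7582) (nat_lit 405) (.e (nat_lit 57464) (nat_lit 23) (.e (nat_lit 516166) (nat_lit 12) (.e (nat_lit 450587) (nat_lit 10) (.e (nat_lit 573457) (nat_lit 9) .nil))))))) (.g (nat_lit 0) .nil .nil)))) (.nd (nat_lit 4) 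
(.lf (nat_lit 10761) (.g (nat_lit 3086) (.e (nat_lit 428) (nat_lit 32) (.e (nat_lit 425989) (nat_lit 0) (.e (nat_lit 7489) (nat_lit 402) (.e (nat_lit 1256) (nat_lit 92) (.e (nat_lit 98373) (nat_lit 29) (.e (nat_lit 450588) (nat_lit 10) (.e (nat_lit 573452) (nat_lit 9) .nil))))))) (.g (nat_lit 0) .nil .nil))) 
(.lf (nat_lit 10777) (.g (nat_lit 2038) (.e (nat_lit 430) (nat_lit 32) (.e (nat_lit 426011) (nat_lit 0) (.e (nat_lit 3549) (nat_lit 219) (.e (nat_lit 712753) (nat_lit 30) (.e (nat_lit 450586) (nat_lit 10) (.e (nat_lit 573473) (nat_lit 12) (.e (nat_lit 57507) (nat_lit 39) (.e (nat_lit 647190) (nat_lit 9) .nil)))))))) (.g (nat_lit 4) .nil .nil))))) (.nd (nat_lit 3) (.nd (nat_lit 4) 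
(.lf (nat_lit 10757) (.g (nat_lit 2235) (.e (nat_lit 428) (nat_lit 32) (.e (nat_lit 425984) (nat_lit 0) (.e (nat_lit 7582) (nat_lit 405) (.e (nat_lit 57464) (nat_lit 23) (.e (nat_lit 516166) (nat_lit 12) (.e (nat_lit 450587) (nat_lit 10) (.e (nat_lit 573457) (nat_lit 9) .nil))))))) (.g (nat_lit 0) .nil .nil))) 
(.lf (nat_lit 10773) (.g (nat_lit 3480) (.e (nat_lit 428) (nat_lit 32) (.e (nat_lit 425990) (nat_lit 0) (.e (nat_lit 7582) (nat_lit 405) (.e (nat_lit 57464) (nat_lit 23) (.e (nat_lit 516151) (nat_lit 9) (.e (nat_lit 426286) (nat_lit 10) (.e (nat_lit 434245) (nat_lit 28) (.e (nat_lit 573451) (nat_lit 9) .nil)))))))) (.g (nat_lit 0) .nil .nil)))) (.nd (nat_lit 4) 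
(.lf (nat_lit 10765) (.g (nat_lit 2186) (.e (nat_lit 428) (nat_lit 32) (.e (nat_lit 425989) (nat_lit 0) (.e (nat_lit 7580) (nat_lit 405) (.e (nat_lit 57464) (nat_lit 23) (.e (nat_lit 516165) (nat_lit 12) (.e (nat_lit 450586) (nat_lit 10) (.e (nat_lit 573457) (nat_lit 9) .nil))))))) (.g (nat_lit 0) .nil .nil))) 
(.lf (nat_lit 10781) (.g (nat_lit 3414) (.e (nat_lit 430) (nat_lit 32) (.e (nat_lit 426011) (nat_lit 0) (.e (nat_lit 7486) (nat_lit 402) (.e (nat_lit 1256) (nat_lit 92) (.e (nat_lit 98359) (nat_lit 26) (.e (nat_lit 426286) (nat_lit 10) (.e (nat_lit 434247) (nat_lit 28) (.e (nat_lit 573457) (nat_lit 9) .nil)))))))) (.g (nat_lit 0) .nil .nil)))))) (.nd (nat_lit 2) (.nd (nat_lit 3) (.nd (nat_lit 4) 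
(.lf (nat_lit 10755) (.g (nat_lit 3073) (.e (nat_lit 428) (nat_lit 32) (.e (nat_lit 425984) (nat_lit 0) (.e (nat_lit 7580) (nat_lit 405) (.e (nat_lit 57464) (nat_lit 23) (.e (nat_lit 516166) (nat_lit 12) (.e (nat_lit 450588) (nat_lit 10) (.e (nat_lit 573452) (nat_lit 9) .nil))))))) (.g (nat_lit 0) .nil .nil))) 
(.lf (nat_lit 10771) (.g (nat_lit 3260) (.e (nat_lit 428) (nat_lit 32) (.e (nat_lit 425990) (nat_lit 0) (.e (nat_lit 7489) (nat_lit 402) (.e (nat_lit 1256) (nat_lit 92) (.e (nat_lit 98359) (nat_lit 26) (.e (nat_lit 426286) (nat_lit 10) (.e (nat_lit 434245) (nat_lit 28) (.e (nat_lit 573451) (nat_lit 9) .nil)))))))) (.g (nat_lit 0) .nil .nil)))) (.nd (nat_lit 4) 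
(.lf (nat_lit 10763) (.g (nat_lit 3544) (.e (nat_lit 428) (nat_lit 32) (.e (nat_lit 425989) (nat_lit 0) (.e (nat_lit 7580) (nat_lit 405) (.e (nat_lit 57464) (nat_lit 23) (.e (nat_lit 516151) (nat_lit 9) (.e (nat_lit 426286) (nat_lit 10) (.e (nat_lit 434248) (nat_lit 28) (.e (nat_lit 573452) (nat_lit 9) .nil)))))))) (.g (nat_lit 0) .nil .nil))) 
(.lf (nat_lit 10779) (.g (nat_lit 4027) (.e (nat_lit 430) (nat_lit 32) (.e (nat_lit 426011) (nat_lit 0) (.e (nat_lit 7486) (nat_lit 402) (.e (nat_lit 1256) (nat_lit 92) (.e (nat_lit 98359) (nat_lit 26) (.e (nat_lit 426286) (nat_lit 10) (.e (nat_lit 434245) (nat_lit 28) (.e (nat_lit 573451) (nat_lit 9) .nil)))))))) (.g (nat_lit 0) .nil .nil))))) (.nd (nat_lit 3) (.nd (nat_lit 4) 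
(.lf (nat_lit 10759) (.g (nat_lit 1953) (.e (nat_lit 428) (nat_lit 32) (.e (nat_lit 425989) (nat_lit 0) (.e (nat_lit 7489) (nat_lit 402) (.e (nat_lit 1256) (nat_lit 92) (.e (nat_lit 98372) (nat_lit 29) (.e (nat_lit 450586) (nat_lit 10) (.e (nat_lit 573452) (nat_lit 9) .nil))))))) (.g (nat_lit 0) .nil .nil))) 
(.lf (nat_lit 10775) (.g (nat_lit 2165) (.e (nat_lit 428) (nat_lit 32) (.e (nat_lit 426318) (nat_lit 12) (.e (nat_lit 475185) (nat_lit 29) (.e (nat_lit 557100) (nat_lit 13) (.e (nat_lit 172113) (nat_lit 10) (.e (nat_lit 434247) (nat_lit 28) (.e (nat_lit 573457) (nat_lit 9) .nil))))))) (.g (nat_lit 4) .nil .nil)))) (.nd (nat_lit 4) 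
(.lf (nat_lit 10767) (.g (nat_lit 2974) (.e (nat_lit 428) (nat_lit 32) (.e (nat_lit 425989) (nat_lit 0) (.e (nat_lit 7580) (nat_lit 405) (.e (nat_lit 57464) (nat_lit 23) (.e (nat_lit 516166) (nat_lit 12) (.e (nat_lit 450588) (nat_lit 10) (.e (nat_lit 573452) (nat_lit 9) .nil))))))) (.g (nat_lit 0) .nil .nil))) 
(.lf (nat_lit 10783) (.g (nat_lit 2858) (.e (nat_lit 430) (nat_lit 32) (.e (nat_lit 426011) (nat_lit 0) (.e (nat_lit 7486) (nat_lit 402) (.e (nat_lit 1256) (nat_lit 92) (.e (nat_lit 98372) (nat_lit 29) (.e (nat_lit 450586) (nat_lit 10) (.e (nat_lit 573452) (nat_lit 9) .nil))))))) (.g (nat_lit 7) .nil .nil))))))))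

noncomputable def tv148 : DT := (.nd (nat_lit 0) (.nd (nat_lit 1) (.nd (nat_lit 2) (.nd (nat_lit 3) (.nd (nat_lit 4) 
(.lf (nat_lit 10784) (.g (nat_lit 2927) (.e (nat_lit 430) (nat_lit 32) (.e (nat_lit 426011) (nat_lit 0) (.e (nat_lit 7486) (nat_lit 402) (.e (nat_lit 1256) (nat_lit 92) (.e (nat_lit 98372) (nat_lit 29) (.e (nat_lit 450586) (nat_lit 10) (.e (nat_lit 573456) (nat_lit 9) .nil))))))) (.g (nat_lit 7) .nil .nil))) 
(.lf (nat_lit 10800) (.g (nat_lit 2940) (.e (nat_lit 430) (nat_lit 32) (.e (nat_lit 426100) (nat_lit 1) (.e (nat_lit 164398) (nat_lit 256) (.e (nat_lit 57447) (nat_lit 19) (.e (nat_lit 393266) (nat_lit 23) .nil))))) .nil))) (.nd (nat_lit 4) 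
(.lf (nat_lit 10792) (.g (nat_lit 3747) (.e (nat_lit 430) (nat_lit 32) (.e (nat_lit 426012) (nat_lit 0) (.e (nat_lit 7486) (nat_lit 402) (.e (nat_lit 1256) (nat_lit 92) (.e (nat_lit 98359) (nat_lit 26) (.e (nat_lit 426286) (nat_lit 10) (.e (nat_lit 434248) (nat_lit 28) (.e (nat_lit 573452) (nat_lit 9) .nil)))))))) (.g (nat_lit 0) .nil .nil))) 
(.lf (nat_lit 10808) (.g (nat_lit 2860) (.e (nat_lit 430) (nat_lit 32) (.e (nat_lit 426187) (nat_lit 9) (.e (nat_lit 426354) (nat_lit 15) (.e (nat_lit 1860) (nat_lit 124) (.e (nat_lit 557100) (nat_lit 13) (.e (nat_lit 172113) (nat_lit 10) (.e (nat_lit 434248) (nat_lit 28) (.e (nat_lit 573452) (nat_lit 9) .nil)))))))) (.g (nat_lit 5) .nil .nil))))) (.nd (nat_lit 3) (.nd (nat_lit 4) 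
(.lf (nat_lit 10788) (.g (nat_lit 1412) (.e (nat_lit 430) (nat_lit 32) (.e (nat_lit 426011) (nat_lit 0) (.e (nat_lit 7581) (nat_lit 405) (.e (nat_lit 57464) (nat_lit 23) .nil)))) .nil)) 
(.lf (nat_lit 10804) (.g (nat_lit 3661) (.e (nat_lit 430) (nat_lit 32) (.e (nat_lit 426182) (nat_lit 8) (.e (nat_lit 417820) (nat_lit 10) (.e (nat_lit 577) (nat_lit 43) (.e (nat_lit 516166) (nat_lit 12) (.e (nat_lit 450587) (nat_lit 10) (.e (nat_lit 573456) (nat_lit 9) .nil))))))) (.g (nat_lit 6) .nil .nil)))) (.nd (nat_lit 4) 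
(.lf (nat_lit 10796) (.g (nat_lit 3713) (.e (nat_lit 430) (nat_lit 32) (.e (nat_lit 426012) (nat_lit 0) (.e (nat_lit 7490) (nat_lit 402) (.e (nat_lit 1256) (nat_lit 92) (.e (nat_lit 98359) (nat_lit 26) (.e (nat_lit 426286) (nat_lit 10) (.e (nat_lit 434248) (nat_lit 28) (.e (nat_lit 573452) (nat_lit 9) .nil)))))))) (.g (nat_lit 0) .nil .nil))) 
(.lf (nat_lit 10812) (.g (nat_lit 3617) (.e (nat_lit 430) (nat_lit 32) (.e (nat_lit 426188) (nat_lit 9) (.e (nat_lit 426354) (nat_lit 15) (.e (nat_lit 1860) (nat_lit 124) (.e (nat_lit 557100) (nat_lit 13) (.e (nat_lit 172113) (nat_lit 10) (.e (nat_lit 434248) (nat_lit 28) (.e (nat_lit 573452) (nat_lit 9) .nil)))))))) (.g (nat_lit 6) .nil .nil)))))) 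
(.nd (nat_lit 2) (.nd (nat_lit 3) (.nd (nat_lit 4) 
(.lf (nat_lit 10786) (.g (nat_lit 1884) (.e (nat_lit 430) (nat_lit 32) (.e (nat_lit 426011) (nat_lit 0) (.e (nat_lit 7486) (nat_lit 402) (.e (nat_lit 1400) (nat_lit 106) (.e (nat_lit 319533) (nat_lit 16) (.e (nat_lit 286753) (nat_lit 10) (.e (nat_lit 344160) (nat_lit 37) (.e (nat_lit 647190) (nat_lit 9) .nil)))))))) (.g (nat_lit 4) .nil .nil))) 
(.lf (nat_lit 10802) (.g (nat_lit 2612) (.e (nat_lit 430) (nat_lit 32) (.e (nat_lit 426100) (nat_lit 1) (.e (nat_lit 164399) (nat_lit 256) (.e (nat_lit 57445) (nat_lit 19) (.e (nat_lit 393275) (nat_lit 23) .nil))))) .nil))) (.nd (nat_lit 4) 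
(.lf (nat_lit 10794) (.g (nat_lit 2766) (.e (nat_lit 430) (nat_lit 32) (.e (nat_lit 426012) (nat_lit 0) (.e (nat_lit 7486) (nat_lit 402) (.e (nat_lit 1256) (nat_lit 92) (.e (nat_lit 98372) (nat_lit 29) (.e (nat_lit 450586) (nat_lit 10) (.e (nat_lit 573456) (nat_lit 9) .nil))))))) (.g (nat_lit 7) .nil .nil))) 
(.lf (nat_lit 10810) (.g (nat_lit 3468) (.e (nat_lit 430) (nat_lit 32) (.e (nat_lit 426188) (nat_lit 9) (.e (nat_lit 426354) (nat_lit 15) (.e (nat_lit 1860) (nat_lit 124) (.e (nat_lit 557100) (nat_lit 13) (.e (nat_lit 172113) (nat_lit 10) (.e (nat_lit 434247) (nat_lit 28) (.e (nat_lit 573456) (nat_lit 9) .nil)))))))) (.g (nat_lit 5) .nil .nil))))) (.nd (nat_lit 3) (.nd (nat_lit 4) 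
(.lf (nat_lit 10790) (.g (nat_lit 3564) (.e (nat_lit 430) (nat_lit 32) (.e (nat_lit 426012) (nat_lit 0) (.e (nat_lit 7486) (nat_lit 402) (.e (nat_lit 1256) (nat_lit 92) (.e (nat_lit 98359) (nat_lit 26) (.e (nat_lit 426286) (nat_lit 10) (.e (nat_lit 434247) (nat_lit 28) (.e (nat_lit 573456) (nat_lit 9) .nil)))))))) (.g (nat_lit 8) .nil .nil))) 
(.lf (nat_lit 10806) (.g (nat_lit 4533) (.e (nat_lit 430) (nat_lit 32) (.e (nat_lit 426182) (nat_lit 8) (.e (nat_lit 417820) (nat_lit 10) (.e (nat_lit 577) (nat_lit 43) (.e (nat_lit 516166) (nat_lit 12) (.e (nat_lit 450588) (nat_lit 10) (.e (nat_lit 573452) (nat_lit 9) .nil))))))) (.g (nat_lit 6) .nil .nil)))) (.nd (nat_lit 4) 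
(.lf (nat_lit 10798) (.g (nat_lit 749) (.e (nat_lit 430) (nat_lit 32) (.e (nat_lit 426024) (nat_lit 0) (.e (nat_lit 7107) (nat_lit 380) (.e (nat_lit 171776) (nat_lit 84) .nil)))) .nil)) 
(.lf (nat_lit 10814) (.g (nat_lit 3946) (.e (nat_lit 430) (nat_lit 32) (.e (nat_lit 426189) (nat_lit 9) (.e (nat_lit 426354) (nat_lit 15) (.e (nat_lit 1860) (nat_lit 124) (.e (nat_lit 557100) (nat_lit 13) (.e (nat_lit 172113) (nat_lit 10) (.e (nat_lit 434247) (nat_lit 28) (.e (nat_lit 573457) (nat_lit 9) .nil)))))))) (.g (nat_lit 7) .nil .nil))))))) 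
(.nd (nat_lit 1) (.nd (nat_lit 2) (.nd (nat_lit 3) (.nd (nat_lit 4) 
(.lf (nat_lit 10785) (.g (nat_lit 2767) (.e (nat_lit 430) (nat_lit 32) (.e (nat_lit 426011) (nat_lit 0) (.e (nat_lit 7486) (nat_lit 402) (.e (nat_lit 1256) (nat_lit 92) (.e (nat_lit 98372) (nat_lit 29) (.e (nat_lit 450586) (nat_lit 10) (.e (nat_lit 573457) (nat_lit 9) .nil))))))) (.g (nat_lit 7) .nil .nil))) 
(.lf (nat_lit 10801) (.g (nat_lit 918) (.e (nat_lit 430) (nat_lit 32) (.e (nat_lit 426100) (nat_lit 1) (.e (nat_lit 164399) (nat_lit 256) .nil))) .nil))) (.nd (nat_lit 4) 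
(.lf (nat_lit 10793) (.g (nat_lit 2660) (.e (nat_lit 430) (nat_lit 32) (.e (nat_lit 426012) (nat_lit 0) (.e (nat_lit 7486) (nat_lit 402) (.e (nat_lit 1256) (nat_lit 92) (.e (nat_lit 98372) (nat_lit 29) (.e (nat_lit 450586) (nat_lit 10) (.e (nat_lit 573452) (nat_lit 9) .nil))))))) (.g (nat_lit 7) .nil .nil))) 
(.lf (nat_lit 10809) (.g (nat_lit 3645) (.e (nat_lit 430) (nat_lit 32) (.e (nat_lit 426188) (nat_lit 9) (.e (nat_lit 426354) (nat_lit 15) (.e (nat_lit 1860) (nat_lit 124) (.e (nat_lit 557100) (nat_lit 13) (.e (nat_lit 172113) (nat_lit 10) (.e (nat_lit 434245) (nat_lit 28) (.e (nat_lit 573451) (nat_lit 9) .nil)))))))) (.g (nat_lit 6) .nil .nil))))) (.nd (nat_lit 3) (.nd (nat_lit 4) 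
(.lf (nat_lit 10789) (.g (nat_lit 3817) (.e (nat_lit 430) (nat_lit 32) (.e (nat_lit 426012) (nat_lit 0) (.e (nat_lit 7486) (nat_lit 402) (.e (nat_lit 1256) (nat_lit 92) (.e (nat_lit 98359) (nat_lit 26) (.e (nat_lit 426286) (nat_lit 10) (.e (nat_lit 434245) (nat_lit 28) (.e (nat_lit 573451) (nat_lit 9) .nil)))))))) (.g (nat_lit 0) .nil .nil))) 
(.lf (nat_lit 10805) (.g (nat_lit 3463) (.e (nat_lit 430) (nat_lit 32) (.e (nat_lit 426182) (nat_lit 8) (.e (nat_lit 417820) (nat_lit 10) (.e (nat_lit 577) (nat_lit 43) (.e (nat_lit 516166) (nat_lit 12) (.e (nat_lit 450587) (nat_lit 10) (.e (nat_lit 573457) (nat_lit 9) .nil))))))) (.g (nat_lit 6) .nil .nil)))) (.nd (nat_lit 4) 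
(.lf (nat_lit 10797) (.g (nat_lit 891) (.e (nat_lit 430) (nat_lit 32) (.e (nat_lit 426012) (nat_lit 0) (.e (nat_lit 7536) (nat_lit 402) (.e (nat_lit 7936) (nat_lit 92) .nil)))) .nil)) 
(.lf (nat_lit 10813) (.g (nat_lit 4335) (.e (nat_lit 430) (nat_lit 32) (.e (nat_lit 426189) (nat_lit 9) (.e (nat_lit 426354) (nat_lit 15) (.e (nat_lit 1860) (nat_lit 124) (.e (nat_lit 557100) (nat_lit 13) (.e (nat_lit 172113) (nat_lit 10) (.e (nat_lit 434245) (nat_lit 28) (.e (nat_lit 573451) (nat_lit 9) .nil)))))))) (.g (nat_lit 8) .nil .nil)))))) 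
(.nd (nat_lit 2) (.nd (nat_lit 3) (.nd (nat_lit 4) 
(.lf (nat_lit 10787) (.g (nat_lit 2943) (.e (nat_lit 430) (nat_lit 32) (.e (nat_lit 426011) (nat_lit 0) (.e (nat_lit 7545) (nat_lit 402) (.e (nat_lit 1238) (nat_lit 91) (.e (nat_lit 90178) (nat_lit 15) (.e (nat_lit 188440) (nat_lit 20) (.e (nat_lit 3307) (nat_lit 202) (.e (nat_lit 573456) (nat_lit 9) .nil)))))))) (.g (nat_lit 6) .nil .nil))) 
(.lf (nat_lit 10803) (.g (nat_lit 3260) (.e (nat_lit 430) (nat_lit 32) (.e (nat_lit 426100) (nat_lit 1) (.e (nat_lit 164403) (nat_lit 256) (.e (nat_lit 57447) (nat_lit 19) (.e (nat_lit 393275) (nat_lit 23) .nil))))) .nil))) (.nd (nat_lit 4) 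
(.lf (nat_lit 10795) (.g (nat_lit 2591) (.e (nat_lit 430) (nat_lit 32) (.e (nat_lit 426012) (nat_lit 0) (.e (nat_lit 7486) (nat_lit 402) (.e (nat_lit 1256) (nat_lit 92) (.e (nat_lit 98372) (nat_lit 29) (.e (nat_lit 450586) (nat_lit 10) (.e (nat_lit 573457) (nat_lit 9) .nil))))))) (.g (nat_lit 7) .nil .nil))) 
(.lf (nat_lit 10811) (.g (nat_lit 3256) (.e (nat_lit 430) (nat_lit 32) (.e (nat_lit 426188) (nat_lit 9) (.e (nat_lit 426354) (nat_lit 15) (.e (nat_lit 1860) (nat_lit 124) (.e (nat_lit 557100) (nat_lit 13) (.e (nat_lit 172113) (nat_lit 10) (.e (nat_lit 434247) (nat_lit 28) (.e (nat_lit 573457) (nat_lit 9) .nil)))))))) (.g (nat_lit 5) .nil .nil))))) (.nd (nat_lit 3) (.nd (nat_lit 4) 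
(.lf (nat_lit 10791) (.g (nat_lit 3236) (.e (nat_lit 430) (nat_lit 32) (.e (nat_lit 426012) (nat_lit 0) (.e (nat_lit 7486) (nat_lit 402) (.e (nat_lit 1256) (nat_lit 92) (.e (nat_lit 98359) (nat_lit 26) (.e (nat_lit 426286) (nat_lit 10) (.e (nat_lit 434247) (nat_lit 28) (.e (nat_lit 573457) (nat_lit 9) .nil)))))))) (.g (nat_lit 0) .nil .nil))) 
(.lf (nat_lit 10807) (.g (nat_lit 2888) (.e (nat_lit 430) (nat_lit 32) (.e (nat_lit 426187) (nat_lit 9) (.e (nat_lit 426354) (nat_lit 15) (.e (nat_lit 1860) (nat_lit 124) (.e (nat_lit 557100) (nat_lit 13) (.e (nat_lit 172113) (nat_lit 10) (.e (nat_lit 434245) (nat_lit 28) (.e (nat_lit 573451) (nat_lit 9) .nil)))))))) (.g (nat_lit 5) .nil .nil)))) (.nd (nat_lit 4) 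
(.lf (nat_lit 10799) (.g (nat_lit 2771) (.e (nat_lit 430) (nat_lit 32) (.e (nat_lit 426098) (nat_lit 1) (.e (nat_lit 164403) (nat_lit 256) (.e (nat_lit 57447) (nat_lit 19) (.e (nat_lit 393266) (nat_lit 23) (.e (nat_lit 426125) (nat_lit 2) (.e (nat_lit 196630) (nat_lit 9) .nil))))))) (.g (nat_lit 4) .nil .nil))) 
(.lf (nat_lit 10815) (.g (nat_lit 4331) (.e (nat_lit 430) (nat_lit 32) (.e (nat_lit 426189) (nat_lit 9) (.e (nat_lit 426354) (nat_lit 15) (.e (nat_lit 1860) (nat_lit 124) (.e (nat_lit 557100) (nat_lit 13) (.e (nat_lit 172113) (nat_lit 10) (.e (nat_lit 434248) (nat_lit 28) (.e (nat_lit 573452) (nat_lit 9) .nil)))))))) (.g (nat_lit 8) .nil .nil))))))))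

noncomputable def tv149 : DT := (.nd (nat_lit 0) (.nd (nat_lit 1) (.nd (nat_lit 2) (.nd (nat_lit 3) (.nd (nat_lit 4) (.nd (nat_lit 5) 
(.lf (nat_lit 10816) (.g (nat_lit 3667) (.e (nat_lit 430) (nat_lit 32) (.e (nat_lit 426190) (nat_lit 9) (.e (nat_lit 426350) (nat_lit 15) (.e (nat_lit 1860) (nat_lit 124) (.e (nat_lit 557100) (nat_lit 13) (.e (nat_lit 172113) (nat_lit 10) (.e (nat_lit 434245) (nat_lit 28) (.e (nat_lit 573451) (nat_lit 9) .nil)))))))) (.g (nat_lit 7) .nil .nil))) 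
(.lf (nat_lit 10848) (.g (nat_lit 2837) (.e (nat_lit 430) (nat_lit 32) (.e (nat_lit 426344) (nat_lit 14) (.e (nat_lit 491530) (nat_lit 0) (.e (nat_lit 1796) (nat_lit 119) (.e (nat_lit 516165) (nat_lit 12) (.e (nat_lit 450586) (nat_lit 10) (.e (nat_lit 573456) (nat_lit 9) .nil))))))) (.g (nat_lit 7) .nil .nil)))) (.nd (nat_lit 5) 
(.lf (nat_lit 10832) (.g (nat_lit 3367) (.e (nat_lit 430) (nat_lit 32) (.e (nat_lit 426200) (nat_lit 9) (.e (nat_lit 426354) (nat_lit 15) (.e (nat_lit 1860) (nat_lit 124) (.e (nat_lit 557100) (nat_lit 13) (.e (nat_lit 172113) (nat_lit 10) (.e (nat_lit 434248) (nat_lit 28) (.e (nat_lit 573452) (nat_lit 9) .nil)))))))) (.g (nat_lit 5) .nil .nil))) 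
(.lf (nat_lit 10864) (.g (nat_lit 2165) (.e (nat_lit 433) (nat_lit 32) (.e (nat_lit 426318) (nat_lit 12) (.e (nat_lit 475185) (nat_lit 29) (.e (nat_lit 557100) (nat_lit 13) (.e (nat_lit 172113) (nat_lit 10) .nil))))) .nil)))) (.nd (nat_lit 4) (.nd (nat_lit 5) 
(.lf (nat_lit 10824) (.g (nat_lit 3890) (.e (nat_lit 430) (nat_lit 32) (.e (nat_lit 426190) (nat_lit 9) (.e (nat_lit 426382) (nat_lit 15) (.e (nat_lit 1856) (nat_lit 124) (.e (nat_lit 557100) (nat_lit 13) (.e (nat_lit 172113) (nat_lit 10) (.e (nat_lit 434248) (nat_lit 28) (.e (nat_lit 573452) (nat_lit 9) .nil)))))))) (.g (nat_lit 7) .nil .nil))) 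
(.lf (nat_lit 10856) (.g (nat_lit 3379) (.e (nat_lit 433) (nat_lit 32) (.e (nat_lit 425984) (nat_lit 0) (.e (nat_lit 7580) (nat_lit 405) (.e (nat_lit 57464) (nat_lit 23) (.e (nat_lit 516166) (nat_lit 12) (.e (nat_lit 450588) (nat_lit 10) (.e (nat_lit 573450) (nat_lit 9) .nil))))))) (.g (nat_lit 0) .nil .nil)))) (.nd (nat_lit 5) 
(.lf (nat_lit 10840) (.g (nat_lit 2804) (.e (nat_lit 430) (nat_lit 32) (.e (nat_lit 426343) (nat_lit 14) (.e (nat_lit 491520) (nat_lit 0) (.e (nat_lit 1788) (nat_lit 119) (.e (nat_lit 516151) (nat_lit 9) (.e (nat_lit 426286) (nat_lit 10) (.e (nat_lit 434247) (nat_lit 28) (.e (nat_lit 573457) (nat_lit 9) .nil)))))))) (.g (nat_lit 5) .nil .nil))) 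
(.lf (nat_lit 10872) (.g (nat_lit 1435) (.e (nat_lit 434) (nat_lit 32) (.e (nat_lit 426344) (nat_lit 14) (.e (nat_lit 491568) (nat_lit 13) (.e (nat_lit 393260) (nat_lit 21) .nil)))) .nil))))) (.nd (nat_lit 3) (.nd (nat_lit 4) (.nd (nat_lit 5) 
(.lf (nat_lit 10820) (.g (nat_lit 4376) (.e (nat_lit 430) (nat_lit 32) (.e (nat_lit 426190) (nat_lit 9) (.e (nat_lit 426354) (nat_lit 15) (.e (nat_lit 1860) (nat_lit 124) (.e (nat_lit 557100) (nat_lit 13) (.e (nat_lit 172113) (nat_lit 10) (.e (nat_lit 434247) (nat_lit 28) (.e (nat_lit 573457) (nat_lit 9) .nil)))))))) (.g (nat_lit 8) .nil .nil))) 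
(.lf (nat_lit 10852) (.g (nat_lit 1555) (.e (nat_lit 432) (nat_lit 32) (.e (nat_lit 426347) (nat_lit 14) (.e (nat_lit 491570) (nat_lit 13) (.e (nat_lit 393238) (nat_lit 17) .nil)))) .nil))) (.nd (nat_lit 5) 
(.lf (nat_lit 10836) (.g (nat_lit 2324) (.e (nat_lit 430) (nat_lit 32) (.e (nat_lit 426308) (nat_lit 12) (.e (nat_lit 475193) (nat_lit 38) (.e (nat_lit 688177) (nat_lit 16) (.e (nat_lit 65617) (nat_lit 10) (.e (nat_lit 344164) (nat_lit 37) (.e (nat_lit 647190) (nat_lit 9) .nil))))))) (.g (nat_lit 5) .nil .nil))) 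
(.lf (nat_lit 10868) (.g (nat_lit 1767) (.e (nat_lit 434) (nat_lit 32) (.e (nat_lit 426343) (nat_lit 14) (.e (nat_lit 491570) (nat_lit 13) (.e (nat_lit 393238) (nat_lit 17) .nil)))) .nil)))) (.nd (nat_lit 4) (.nd (nat_lit 5) 
(.lf (nat_lit 10828) (.g (nat_lit 3073) (.e (nat_lit 430) (nat_lit 32) (.e (nat_lit 426198) (nat_lit 9) (.e (nat_lit 426354) (nat_lit 15) (.e (nat_lit 1860) (nat_lit 124) (.e (nat_lit 557100) (nat_lit 13) (.e (nat_lit 172113) (nat_lit 10) (.e (nat_lit 434248) (nat_lit 28) (.e (nat_lit 573457) (nat_lit 9) .nil)))))))) (.g (nat_lit 5) .nil .nil))) 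
(.lf (nat_lit 10860) (.g (nat_lit 3416) (.e (nat_lit 433) (nat_lit 32) (.e (nat_lit 425987) (nat_lit 0) (.e (nat_lit 7489) (nat_lit 402) (.e (nat_lit 1256) (nat_lit 92) (.e (nat_lit 98373) (nat_lit 29) (.e (nat_lit 450588) (nat_lit 10) (.e (nat_lit 573450) (nat_lit 9) .nil))))))) (.g (nat_lit 0) .nil .nil)))) (.nd (nat_lit 5) 
(.lf (nat_lit 10844) (.g (nat_lit 4816) (.e (nat_lit 430) (nat_lit 32) (.e (nat_lit 426343) (nat_lit 14) (.e (nat_lit 491526) (nat_lit 0) (.e (nat_lit 1788) (nat_lit 119) (.e (nat_lit 516151) (nat_lit 9) (.e (nat_lit 426286) (nat_lit 10) (.e (nat_lit 434247) (nat_lit 28) (.e (nat_lit 573456) (nat_lit 9) .nil)))))))) (.g (nat_lit 8) .nil .nil))) 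
(.lf (nat_lit 10876) (.g (nat_lit 1435) (.e (nat_lit 435) (nat_lit 32) (.e (nat_lit 426344) (nat_lit 14) (.e (nat_lit 491568) (nat_lit 13) (.e (nat_lit 393260) (nat_lit 21) .nil)))) .nil)))))) (.nd (nat_lit 2) (.nd (nat_lit 3) (.nd (nat_lit 4) (.nd (nat_lit 5) 
(.lf (nat_lit 10818) (.g (nat_lit 4660) (.e (nat_lit 430) (nat_lit 32) (.e (nat_lit 426190) (nat_lit 9) (.e (nat_lit 426354) (nat_lit 15) (.e (nat_lit 1860) (nat_lit 124) (.e (nat_lit 557100) (nat_lit 13) (.e (nat_lit 172113) (nat_lit 10) (.e (nat_lit 434245) (nat_lit 28) (.e (nat_lit 573451) (nat_lit 9) .nil)))))))) (.g (nat_lit 8) .nil .nil))) 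
(.lf (nat_lit 10850) (.g (nat_lit 2906) (.e (nat_lit 431) (nat_lit 32) (.e (nat_lit 426343) (nat_lit 14) (.e (nat_lit 491570) (nat_lit 13) (.e (nat_lit 393260) (nat_lit 21) (.e (nat_lit 409617) (nat_lit 10) .nil))))) .nil))) (.nd (nat_lit 5) 
(.lf (nat_lit 10834) (.g (nat_lit 3114) (.e (nat_lit 430) (nat_lit 32) (.e (nat_lit 426308) (nat_lit 12) (.e (nat_lit 475185) (nat_lit 29) (.e (nat_lit 557107) (nat_lit 15) (.e (nat_lit 188440) (nat_lit 20) (.e (nat_lit 3307) (nat_lit 202) (.e (nat_lit 573456) (nat_lit 9) .nil))))))) (.g (nat_lit 4) .nil .nil))) 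
(.lf (nat_lit 10866) (.g (nat_lit 1279) (.e (nat_lit 434) (nat_lit 32) (.e (nat_lit 426341) (nat_lit 14) (.e (nat_lit 491570) (nat_lit 13) (.e (nat_lit 393260) (nat_lit 21) .nil)))) .nil)))) (.nd (nat_lit 4) (.nd (nat_lit 5) 
(.lf (nat_lit 10826) (.g (nat_lit 4445) (.e (nat_lit 430) (nat_lit 32) (.e (nat_lit 426198) (nat_lit 9) (.e (nat_lit 426354) (nat_lit 15) (.e (nat_lit 1860) (nat_lit 124) (.e (nat_lit 557100) (nat_lit 13) (.e (nat_lit 172113) (nat_lit 10) (.e (nat_lit 434247) (nat_lit 28) (.e (nat_lit 573457) (nat_lit 9) .nil)))))))) (.g (nat_lit 7) .nil .nil))) 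
(.lf (nat_lit 10858) (.g (nat_lit 3211) (.e (nat_lit 433) (nat_lit 32) (.e (nat_lit 425984) (nat_lit 0) (.e (nat_lit 7582) (nat_lit 405) (.e (nat_lit 57464) (nat_lit 23) (.e (nat_lit 516166) (nat_lit 12) (.e (nat_lit 450588) (nat_lit 10) (.e (nat_lit 573450) (nat_lit 9) .nil))))))) (.g (nat_lit 0) .nil .nil)))) (.nd (nat_lit 5) 
(.lf (nat_lit 10842) (.g (nat_lit 3580) (.e (nat_lit 430) (nat_lit 32) (.e (nat_lit 426343) (nat_lit 14) (.e (nat_lit 491522) (nat_lit 0) (.e (nat_lit 1812) (nat_lit 120) (.e (nat_lit 524322) (nat_lit 12) (.e (nat_lit 450588) (nat_lit 10) (.e (nat_lit 573457) (nat_lit 9) .nil))))))) (.g (nat_lit 6) .nil .nil))) 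
(.lf (nat_lit 10874) (.g (nat_lit 1738) (.e (nat_lit 435) (nat_lit 32) (.e (nat_lit 426341) (nat_lit 14) (.e (nat_lit 491570) (nat_lit 13) (.e (nat_lit 393260) (nat_lit 21) (.e (nat_lit 409616) (nat_lit 10) (.e (nat_lit 7936) (nat_lit 298) .nil)))))) (.g (nat_lit 4) .nil .nil)))))) (.nd (nat_lit 3) (.nd (nat_lit 4) (.nd (nat_lit 5) 
(.lf (nat_lit 10822) (.g (nat_lit 2060) (.e (nat_lit 430) (nat_lit 32) (.e (nat_lit 426190) (nat_lit 9) (.e (nat_lit 426364) (nat_lit 15) (.e (nat_lit 1855) (nat_lit 124) (.e (nat_lit 557100) (nat_lit 13) (.e (nat_lit 172113) (nat_lit 10) (.e (nat_lit 434247) (nat_lit 28) (.e (nat_lit 573456) (nat_lit 9) .nil)))))))) (.g (nat_lit 4) .nil .nil))) 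
(.lf (nat_lit 10854) (.g (nat_lit 3552) (.e (nat_lit 433) (nat_lit 32) (.e (nat_lit 425984) (nat_lit 0) (.e (nat_lit 7489) (nat_lit 402) (.e (nat_lit 1256) (nat_lit 92) (.e (nat_lit 98373) (nat_lit 29) (.e (nat_lit 450588) (nat_lit 10) (.e (nat_lit 573450) (nat_lit 9) .nil))))))) (.g (nat_lit 0) .nil .nil)))) (.nd (nat_lit 5) 
(.lf (nat_lit 10838) (.g (nat_lit 2757) (.e (nat_lit 430) (nat_lit 32) (.e (nat_lit 426315) (nat_lit 12) (.e (nat_lit 475185) (nat_lit 29) (.e (nat_lit 557107) (nat_lit 15) (.e (nat_lit 188440) (nat_lit 20) .nil))))) .nil)) 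
(.lf (nat_lit 10870) (.g (nat_lit 2373) (.e (nat_lit 434) (nat_lit 32) (.e (nat_lit 426343) (nat_lit 14) (.e (nat_lit 491570) (nat_lit 13) (.e (nat_lit 393260) (nat_lit 21) (.e (nat_lit 409616) (nat_lit 10) .nil))))) .nil)))) (.nd (nat_lit 4) (.nd (nat_lit 5) 
(.lf (nat_lit 10830) (.g (nat_lit 3395) (.e (nat_lit 430) (nat_lit 32) (.e (nat_lit 426200) (nat_lit 9) (.e (nat_lit 426354) (nat_lit 15) (.e (nat_lit 1860) (nat_lit 124) (.e (nat_lit 557100) (nat_lit 13) (.e (nat_lit 172113) (nat_lit 10) (.e (nat_lit 434245) (nat_lit 28) (.e (nat_lit 573451) (nat_lit 9) .nil)))))))) (.g (nat_lit 5) .nil .nil))) 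
(.lf (nat_lit 10862) (.g (nat_lit 3048) (.e (nat_lit 433) (nat_lit 32) (.e (nat_lit 425987) (nat_lit 0) (.e (nat_lit 7582) (nat_lit 405) (.e (nat_lit 57464) (nat_lit 23) (.e (nat_lit 516166) (nat_lit 12) (.e (nat_lit 450588) (nat_lit 10) (.e (nat_lit 573450) (nat_lit 9) .nil))))))) (.g (nat_lit 0) .nil .nil)))) (.nd (nat_lit 5) 
(.lf (nat_lit 10846) (.g (nat_lit 5004) (.e (nat_lit 430) (nat_lit 32) (.e (nat_lit 426343) (nat_lit 14) (.e (nat_lit 491526) (nat_lit 0) (.e (nat_lit 1788) (nat_lit 119) (.e (nat_lit 516151) (nat_lit 9) (.e (nat_lit 426286) (nat_lit 10) (.e (nat_lit 434248) (nat_lit 28) (.e (nat_lit 573452) (nat_lit 9) .nil)))))))) (.g (nat_lit 8) .nil .nil))) 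
(.lf (nat_lit 10878) (.g (nat_lit 1632) (.e (nat_lit 437) (nat_lit 32) (.e (nat_lit 426100) (nat_lit 1) (.e (nat_lit 164399) (nat_lit 256) (.e (nat_lit 57447) (nat_lit 19) .nil)))) .nil))))))) (.nd (nat_lit 1) (.nd (nat_lit 2) (.nd (nat_lit 3) (.nd (nat_lit 4) (.nd (nat_lit 5) 
(.lf (nat_lit 10817) (.g (nat_lit 3645) (.e (nat_lit 430) (nat_lit 32) (.e (nat_lit 426190) (nat_lit 9) (.e (nat_lit 426350) (nat_lit 15) (.e (nat_lit 1860) (nat_lit 124) (.e (nat_lit 557100) (nat_lit 13) (.e (nat_lit 172113) (nat_lit 10) (.e (nat_lit 434248) (nat_lit 28) (.e (nat_lit 573452) (nat_lit 9) .nil)))))))) (.g (nat_lit 7) .nil .nil))) 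
(.lf (nat_lit 10849) (.g (nat_lit 2652) (.e (nat_lit 430) (nat_lit 32) (.e (nat_lit 426344) (nat_lit 14) (.e (nat_lit 491530) (nat_lit 0) (.e (nat_lit 1796) (nat_lit 119) (.e (nat_lit 516165) (nat_lit 12) (.e (nat_lit 450586) (nat_lit 10) (.e (nat_lit 573457) (nat_lit 9) .nil))))))) (.g (nat_lit 7) .nil .nil)))) (.nd (nat_lit 5) 
(.lf (nat_lit 10833) (.g (nat_lit 2509) (.e (nat_lit 430) (nat_lit 32) (.e (nat_lit 426306) (nat_lit 12) (.e (nat_lit 475185) (nat_lit 29) (.e (nat_lit 557107) (nat_lit 15) .nil)))) .nil)) 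
(.lf (nat_lit 10865) (.g (nat_lit 2333) (.e (nat_lit 433) (nat_lit 32) (.e (nat_lit 426347) (nat_lit 14) (.e (nat_lit 491550) (nat_lit 9) (.e (nat_lit 336369) (nat_lit 27) (.e (nat_lit 426173) (nat_lit 7) (.e (nat_lit 409617) (nat_lit 10) (.e (nat_lit 7936) (nat_lit 298) .nil))))))) (.g (nat_lit 4) .nil .nil))))) (.nd (nat_lit 4) (.nd (nat_lit 5) 
(.lf (nat_lit 10825) (.g (nat_lit 4657) (.e (nat_lit 430) (nat_lit 32) (.e (nat_lit 426198) (nat_lit 9) (.e (nat_lit 426354) (nat_lit 15) (.e (nat_lit 1860) (nat_lit 124) (.e (nat_lit 557100) (nat_lit 13) (.e (nat_lit 172113) (nat_lit 10) (.e (nat_lit 434247) (nat_lit 28) (.e (nat_lit 573456) (nat_lit 9) .nil)))))))) (.g (nat_lit 7) .nil .nil))) 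
(.lf (nat_lit 10857) (.g (nat_lit 2707) (.e (nat_lit 433) (nat_lit 32) (.e (nat_lit 425984) (nat_lit 0) (.e (nat_lit 7582) (nat_lit 405) (.e (nat_lit 57464) (nat_lit 23) (.e (nat_lit 516165) (nat_lit 12) (.e (nat_lit 450586) (nat_lit 10) (.e (nat_lit 573450) (nat_lit 9) .nil))))))) (.g (nat_lit 0) .nil .nil)))) (.nd (nat_lit 5) 
(.lf (nat_lit 10841) (.g (nat_lit 3963) (.e (nat_lit 430) (nat_lit 32) (.e (nat_lit 426343) (nat_lit 14) (.e (nat_lit 491522) (nat_lit 0) (.e (nat_lit 1812) (nat_lit 120) (.e (nat_lit 524322) (nat_lit 12) (.e (nat_lit 450588) (nat_lit 10) (.e (nat_lit 573452) (nat_lit 9) .nil))))))) (.g (nat_lit 7) .nil .nil))) 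
(.lf (nat_lit 10873) (.g (nat_lit 3258) (.e (nat_lit 435) (nat_lit 32) (.e (nat_lit 426139) (nat_lit 3) (.e (nat_lit 204869) (nat_lit 29) (.e (nat_lit 360474) (nat_lit 8) (.e (nat_lit 557093) (nat_lit 12) .nil))))) .nil))))) (.nd (nat_lit 3) (.nd (nat_lit 4) (.nd (nat_lit 5) 
(.lf (nat_lit 10821) (.g (nat_lit 4643) (.e (nat_lit 430) (nat_lit 32) (.e (nat_lit 426190) (nat_lit 9) (.e (nat_lit 426354) (nat_lit 15) (.e (nat_lit 1860) (nat_lit 124) (.e (nat_lit 557100) (nat_lit 13) (.e (nat_lit 172113) (nat_lit 10) (.e (nat_lit 434248) (nat_lit 28) (.e (nat_lit 573452) (nat_lit 9) .nil)))))))) (.g (nat_lit 8) .nil .nil))) 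
(.lf (nat_lit 10853) (.g (nat_lit 2549) (.e (nat_lit 433) (nat_lit 32) (.e (nat_lit 425984) (nat_lit 0) (.e (nat_lit 7489) (nat_lit 402) (.e (nat_lit 1256) (nat_lit 92) (.e (nat_lit 98372) (nat_lit 29) (.e (nat_lit 450586) (nat_lit 10) (.e (nat_lit 573450) (nat_lit 9) .nil))))))) (.g (nat_lit 0) .nil .nil)))) (.nd (nat_lit 5) 
(.lf (nat_lit 10837) (.g (nat_lit 3783) (.e (nat_lit 430) (nat_lit 32) (.e (nat_lit 426308) (nat_lit 12) (.e (nat_lit 475193) (nat_lit 38) (.e (nat_lit 688178) (nat_lit 16) (.e (nat_lit 65619) (nat_lit 10) (.e (nat_lit 344160) (nat_lit 37) (.e (nat_lit 647190) (nat_lit 9) .nil))))))) (.g (nat_lit 7) .nil .nil))) 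
(.lf (nat_lit 10869) (.g (nat_lit 1943) (.e (nat_lit 434) (nat_lit 32) (.e (nat_lit 426343) (nat_lit 14) (.e (nat_lit 491570) (nat_lit 13) (.e (nat_lit 393260) (nat_lit 21) .nil)))) .nil)))) (.nd (nat_lit 4) (.nd (nat_lit 5) 
(.lf (nat_lit 10829) (.g (nat_lit 2040) (.e (nat_lit 430) (nat_lit 32) (.e (nat_lit 426198) (nat_lit 9) (.e (nat_lit 426364) (nat_lit 15) (.e (nat_lit 1855) (nat_lit 124) (.e (nat_lit 557100) (nat_lit 13) (.e (nat_lit 172113) (nat_lit 10) (.e (nat_lit 434247) (nat_lit 28) (.e (nat_lit 573456) (nat_lit 9) .nil)))))))) (.g (nat_lit 4) .nil .nil))) 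
(.lf (nat_lit 10861) (.g (nat_lit 2539) (.e (nat_lit 433) (nat_lit 32) (.e (nat_lit 425987) (nat_lit 0) (.e (nat_lit 7582) (nat_lit 405) (.e (nat_lit 57464) (nat_lit 23) (.e (nat_lit 516165) (nat_lit 12) (.e (nat_lit 450586) (nat_lit 10) (.e (nat_lit 573450) (nat_lit 9) .nil))))))) (.g (nat_lit 0) .nil .nil)))) (.nd (nat_lit 5) 
(.lf (nat_lit 10845) (.g (nat_lit 4505) (.e (nat_lit 430) (nat_lit 32) (.e (nat_lit 426343) (nat_lit 14) (.e (nat_lit 491526) (nat_lit 0) (.e (nat_lit 1788) (nat_lit 119) (.e (nat_lit 516151) (nat_lit 9) (.e (nat_lit 426286) (nat_lit 10) (.e (nat_lit 434247) (nat_lit 28) (.e (nat_lit 573457) (nat_lit 9) .nil)))))))) (.g (nat_lit 8) .nil .nil))) 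
(.lf (nat_lit 10877) (.g (nat_lit 1003) (.e (nat_lit 437) (nat_lit 32) (.e (nat_lit 426098) (nat_lit 1) (.e (nat_lit 164399) (nat_lit 256) .nil))) .nil)))))) (.nd (nat_lit 2) (.nd (nat_lit 3) (.nd (nat_lit 4) (.nd (nat_lit 5) 
(.lf (nat_lit 10819) (.g (nat_lit 4562) (.e (nat_lit 430) (nat_lit 32) (.e (nat_lit 426190) (nat_lit 9) (.e (nat_lit 426354) (nat_lit 15) (.e (nat_lit 1860) (nat_lit 124) (.e (nat_lit 557100) (nat_lit 13) (.e (nat_lit 172113) (nat_lit 10) (.e (nat_lit 434247) (nat_lit 28) (.e (nat_lit 573456) (nat_lit 9) .nil)))))))) (.g (nat_lit 8) .nil .nil))) 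
(.lf (nat_lit 10851) (.g (nat_lit 1435) (.e (nat_lit 431) (nat_lit 32) (.e (nat_lit 426344) (nat_lit 14) (.e (nat_lit 491568) (nat_lit 13) (.e (nat_lit 393260) (nat_lit 21) .nil)))) .nil))) (.nd (nat_lit 5) 
(.lf (nat_lit 10835) (.g (nat_lit 3800) (.e (nat_lit 430) (nat_lit 32) (.e (nat_lit 426308) (nat_lit 12) (.e (nat_lit 475193) (nat_lit 38) (.e (nat_lit 688175) (nat_lit 16) (.e (nat_lit 65619) (nat_lit 10) (.e (nat_lit 344160) (nat_lit 37) (.e (nat_lit 647190) (nat_lit 9) .nil))))))) (.g (nat_lit 0) .nil .nil))) 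
(.lf (nat_lit 10867) (.g (nat_lit 2371) (.e (nat_lit 434) (nat_lit 32) (.e (nat_lit 426341) (nat_lit 14) (.e (nat_lit 491570) (nat_lit 13) (.e (nat_lit 393260) (nat_lit 21) (.e (nat_lit 409623) (nat_lit 10) .nil))))) .nil)))) (.nd (nat_lit 4) (.nd (nat_lit 5) 
(.lf (nat_lit 10827) (.g (nat_lit 4806) (.e (nat_lit 430) (nat_lit 32) (.e (nat_lit 426198) (nat_lit 9) (.e (nat_lit 426354) (nat_lit 15) (.e (nat_lit 1860) (nat_lit 124) (.e (nat_lit 557100) (nat_lit 13) (.e (nat_lit 172113) (nat_lit 10) (.e (nat_lit 434248) (nat_lit 28) (.e (nat_lit 573452) (nat_lit 9) .nil)))))))) (.g (nat_lit 7) .nil .nil))) 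
(.lf (nat_lit 10859) (.g (nat_lit 2410) (.e (nat_lit 433) (nat_lit 32) (.e (nat_lit 425987) (nat_lit 0) (.e (nat_lit 7489) (nat_lit 402) (.e (nat_lit 1256) (nat_lit 92) (.e (nat_lit 98372) (nat_lit 29) (.e (nat_lit 450586) (nat_lit 10) (.e (nat_lit 573450) (nat_lit 9) .nil))))))) (.g (nat_lit 0) .nil .nil)))) (.nd (nat_lit 5) 
(.lf (nat_lit 10843) (.g (nat_lit 5110) (.e (nat_lit 430) (nat_lit 32) (.e (nat_lit 426343) (nat_lit 14) (.e (nat_lit 491526) (nat_lit 0) (.e (nat_lit 1788) (nat_lit 119) (.e (nat_lit 516151) (nat_lit 9) (.e (nat_lit 426286) (nat_lit 10) (.e (nat_lit 434245) (nat_lit 28) (.e (nat_lit 573451) (nat_lit 9) .nil)))))))) (.g (nat_lit 0) .nil .nil))) 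
(.lf (nat_lit 10875) (.g (nat_lit 2906) (.e (nat_lit 435) (nat_lit 32) (.e (nat_lit 426343) (nat_lit 14) (.e (nat_lit 491570) (nat_lit 13) (.e (nat_lit 393260) (nat_lit 21) (.e (nat_lit 409617) (nat_lit 10) .nil))))) .nil))))) (.nd (nat_lit 3) (.nd (nat_lit 4) (.nd (nat_lit 5) 
(.lf (nat_lit 10823) (.g (nat_lit 3902) (.e (nat_lit 430) (nat_lit 32) (.e (nat_lit 426190) (nat_lit 9) (.e (nat_lit 426382) (nat_lit 15) (.e (nat_lit 1856) (nat_lit 124) (.e (nat_lit 557100) (nat_lit 13) (.e (nat_lit 172113) (nat_lit 10) (.e (nat_lit 434245) (nat_lit 28) (.e (nat_lit 573451) (nat_lit 9) .nil)))))))) (.g (nat_lit 7) .nil .nil))) 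
(.lf (nat_lit 10855) (.g (nat_lit 2908) (.e (nat_lit 433) (nat_lit 32) (.e (nat_lit 425984) (nat_lit 0) (.e (nat_lit 7580) (nat_lit 405) (.e (nat_lit 57464) (nat_lit 23) (.e (nat_lit 516165) (nat_lit 12) (.e (nat_lit 450586) (nat_lit 10) (.e (nat_lit 573450) (nat_lit 9) .nil))))))) (.g (nat_lit 0) .nil .nil)))) (.nd (nat_lit 5) 
(.lf (nat_lit 10839) (.g (nat_lit 3575) (.e (nat_lit 430) (nat_lit 32) (.e (nat_lit 426342) (nat_lit 14) (.e (nat_lit 491522) (nat_lit 0) (.e (nat_lit 1812) (nat_lit 120) (.e (nat_lit 524322) (nat_lit 12) (.e (nat_lit 450588) (nat_lit 10) (.e (nat_lit 573452) (nat_lit 9) .nil))))))) (.g (nat_lit 7) .nil .nil))) 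
(.lf (nat_lit 10871) (.g (nat_lit 2880) (.e (nat_lit 434) (nat_lit 32) (.e (nat_lit 426343) (nat_lit 14) (.e (nat_lit 491570) (nat_lit 13) (.e (nat_lit 393260) (nat_lit 21) (.e (nat_lit 409623) (nat_lit 10) (.e (nat_lit 5259) (nat_lit 298) .nil)))))) (.g (nat_lit 4) .nil .nil))))) (.nd (nat_lit 4) (.nd (nat_lit 5) 
(.lf (nat_lit 10831) (.g (nat_lit 3218) (.e (nat_lit 430) (nat_lit 32) (.e (nat_lit 426200) (nat_lit 9) (.e (nat_lit 426354) (nat_lit 15) (.e (nat_lit 1860) (nat_lit 124) (.e (nat_lit 557100) (nat_lit 13) (.e (nat_lit 172113) (nat_lit 10) (.e (nat_lit 434247) (nat_lit 28) (.e (nat_lit 573456) (nat_lit 9) .nil)))))))) (.g (nat_lit 5) .nil .nil))) 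
(.lf (nat_lit 10863) (.g (nat_lit 1544) (.e (nat_lit 433) (nat_lit 32) (.e (nat_lit 426110) (nat_lit 1) (.e (nat_lit 164399) (nat_lit 256) (.e (nat_lit 57411) (nat_lit 12) .nil)))) .nil))) (.nd (nat_lit 5) 
(.lf (nat_lit 10847) (.g (nat_lit 2736) (.e (nat_lit 430) (nat_lit 32) (.e (nat_lit 426344) (nat_lit 14) (.e (nat_lit 491530) (nat_lit 0) (.e (nat_lit 1796) (nat_lit 119) (.e (nat_lit 516165) (nat_lit 12) (.e (nat_lit 450586) (nat_lit 10) (.e (nat_lit 573452) (nat_lit 9) .nil))))))) (.g (nat_lit 7) .nil .nil))) 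
(.lf (nat_lit 10879) (.g (nat_lit 2216) (.e (nat_lit 437) (nat_lit 32) (.e (nat_lit 426200) (nat_lit 9) (.e (nat_lit 426354) (nat_lit 15) (.e (nat_lit 1860) (nat_lit 124) (.e (nat_lit 557100) (nat_lit 13) (.e (nat_lit 172113) (nat_lit 10) (.e (nat_lit 434245) (nat_lit 28) (.e (nat_lit 573451) (nat_lit 9) .nil)))))))) (.g (nat_lit 4) .nil .nil)))))))))

noncomputable def tv150 : DT := (.nd (nat_lit 0) (.nd (nat_lit 1) (.nd (nat_lit 2) (.nd (nat_lit 3) (.nd (nat_lit 4) (.nd (nat_lit 5) 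
(.lf (nat_lit 10880) (.g (nat_lit 3200) (.e (nat_lit 440) (nat_lit 32) (.e (nat_lit 426316) (nat_lit 12) (.e (nat_lit 475185) (nat_lit 29) (.e (nat_lit 557100) (nat_lit 13) .nil)))) .nil)) 
(.lf (nat_lit 10912) (.g (nat_lit 3437) (.e (nat_lit 444) (nat_lit 33) (.e (nat_lit 434206) (nat_lit 18) (.e (nat_lit 6420) (nat_lit 341) (.e (nat_lit 163902) (nat_lit 12) (.e (nat_lit 426428) (nat_lit 17) (.e (nat_lit 90172) (nat_lit 14) (.e (nat_lit 180278) (nat_lit 32) .nil))))))) (.g (nat_lit 0) .nil .nil)))) (.nd (nat_lit 5) 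
(.lf (nat_lit 10896) (.g (nat_lit 2234) (.e (nat_lit 442) (nat_lit 33) (.e (nat_lit 434212) (nat_lit 18) (.e (nat_lit 5953) (nat_lit 322) (.e (nat_lit 57447) (nat_lit 19) (.e (nat_lit 393281) (nat_lit 23) (.e (nat_lit 426115) (nat_lit 2) (.e (nat_lit 196624) (nat_lit 9) .nil))))))) (.g (nat_lit 5) .nil .nil))) 
(.lf (nat_lit 10928) (.g (nat_lit 1853) (.e (nat_lit 446) (nat_lit 33) (.e (nat_lit 434180) (nat_lit 0) (.e (nat_lit 1661) (nat_lit 115) (.e (nat_lit 393260) (nat_lit 21) (.e (nat_lit 409608) (nat_lit 10) .nil))))) .nil)))) (.nd (nat_lit 4) (.nd (nat_lit 5) 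
(.lf (nat_lit 10888) (.g (nat_lit 2029) (.e (nat_lit 7936) (nat_lit 32) (.e (nat_lit 426347) (nat_lit 14) (.e (nat_lit 491550) (nat_lit 9) (.e (nat_lit 336369) (nat_lit 27) (.e (nat_lit 426173) (nat_lit 7) .nil))))) .nil)) 
(.lf (nat_lit 10920) (.g (nat_lit 1344) (.e (nat_lit 446) (nat_lit 33) (.e (nat_lit 434180) (nat_lit 0) (.e (nat_lit 1428) (nat_lit 108) (.e (nat_lit 336421) (nat_lit 28) (.e (nat_lit 434197) (nat_lit 16) (.e (nat_lit 164338) (nat_lit 232) .nil)))))) (.g (nat_lit 6) .nil .nil)))) (.nd (nat_lit 5) 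
(.lf (nat_lit 10904) (.g (nat_lit 2432) (.e (nat_lit 444) (nat_lit 33) (.e (nat_lit 434180) (nat_lit 0) (.e (nat_lit 1661) (nat_lit 115) (.e (nat_lit 393260) (nat_lit 21) (.e (nat_lit 409617) (nat_lit 10) (.e (nat_lit 5353) (nat_lit 298) .nil)))))) (.g (nat_lit 5) .nil .nil))) 
(.lf (nat_lit 10936) (.g (nat_lit 2562) (.e (nat_lit 446) (nat_lit 33) (.e (nat_lit 434180) (nat_lit 0) (.e (nat_lit 1661) (nat_lit 115) (.e (nat_lit 393260) (nat_lit 21) (.e (nat_lit 409621) (nat_lit 10) (.e (nat_lit 5364) (nat_lit 298) .nil)))))) (.g (nat_lit 4) .nil .nil)))))) (.nd (nat_lit 3) (.nd (nat_lit 4) (.nd (nat_lit 5) 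
(.lf (nat_lit 10884) (.g (nat_lit 2184) (.e (nat_lit 7936) (nat_lit 32) (.e (nat_lit 426316) (nat_lit 12) (.e (nat_lit 475185) (nat_lit 29) (.e (nat_lit 557107) (nat_lit 15) (.e (nat_lit 188440) (nat_lit 20) .nil))))) .nil)) 
(.lf (nat_lit 10916) (.g (nat_lit 1127) (.e (nat_lit 446) (nat_lit 33) (.e (nat_lit 434180) (nat_lit 0) (.e (nat_lit 1425) (nat_lit 108) (.e (nat_lit 336438) (nat_lit 31) (.e (nat_lit 458769) (nat_lit 16) .nil))))) .nil))) (.nd (nat_lit 5) 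
(.lf (nat_lit 10900) (.g (nat_lit 2332) (.e (nat_lit 443) (nat_lit 33) (.e (nat_lit 434180) (nat_lit 0) (.e (nat_lit 1661) (nat_lit 115) (.e (nat_lit 393260) (nat_lit 21) (.e (nat_lit 409616) (nat_lit 10) (.e (nat_lit 7936) (nat_lit 298) .nil)))))) (.g (nat_lit 5) .nil .nil))) 
(.lf (nat_lit 10932) (.g (nat_lit 1375) (.e (nat_lit 446) (nat_lit 33) (.e (nat_lit 434180) (nat_lit 0) (.e (nat_lit 1661) (nat_lit 115) (.e (nat_lit 393260) (nat_lit 21) (.e (nat_lit 409617) (nat_lit 10) (.e (nat_lit 7936) (nat_lit 298) .nil)))))) (.g (nat_lit 4) .nil .nil))))) (.nd (nat_lit 4) (.nd (nat_lit 5) 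
(.lf (nat_lit 10892) (.g (nat_lit 1865) (.e (nat_lit 442) (nat_lit 33) (.e (nat_lit 434180) (nat_lit 0) (.e (nat_lit 1661) (nat_lit 115) (.e (nat_lit 393260) (nat_lit 21) (.e (nat_lit 409617) (nat_lit 10) (.e (nat_lit 7936) (nat_lit 298) .nil)))))) (.g (nat_lit 5) .nil .nil))) 
(.lf (nat_lit 10924) (.g (nat_lit 275) (.e (nat_lit 446) (nat_lit 33) (.e (nat_lit 434180) (nat_lit 0) (.e (nat_lit 1661) (nat_lit 115) .nil))) .nil))) (.nd (nat_lit 5) 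
(.lf (nat_lit 10908) (.g (nat_lit 2004) (.e (nat_lit 444) (nat_lit 33) (.e (nat_lit 434181) (nat_lit 0) (.e (nat_lit 1661) (nat_lit 115) (.e (nat_lit 393260) (nat_lit 21) (.e (nat_lit 409608) (nat_lit 10) .nil))))) .nil)) 
(.lf (nat_lit 10940) (.g (nat_lit 1831) (.e (nat_lit 446) (nat_lit 33) (.e (nat_lit 434180) (nat_lit 0) (.e (nat_lit 1661) (nat_lit 115) (.e (nat_lit 393263) (nat_lit 22) (.e (nat_lit 417817) (nat_lit 10) .nil))))) .nil)))))) (.nd (nat_lit 2) (.nd (nat_lit 3) (.nd (nat_lit 4) (.nd (nat_lit 5) 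
(.lf (nat_lit 10882) (.g (nat_lit 3057) (.e (nat_lit 7936) (nat_lit 32) (.e (nat_lit 426306) (nat_lit 12) (.e (nat_lit 475185) (nat_lit 29) (.e (nat_lit 557100) (nat_lit 13) (.e (nat_lit 172113) (nat_lit 10) .nil))))) .nil)) 
(.lf (nat_lit 10914) (.g (nat_lit 3011) (.e (nat_lit 444) (nat_lit 33) (.e (nat_lit 434208) (nat_lit 18) (.e (nat_lit 6420) (nat_lit 341) (.e (nat_lit 163902) (nat_lit 12) (.e (nat_lit 426428) (nat_lit 17) (.e (nat_lit 90172) (nat_lit 14) (.e (nat_lit 180278) (nat_lit 32) .nil))))))) (.g (nat_lit 6) .nil .nil)))) (.nd (nat_lit 5) 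
(.lf (nat_lit 10898) (.g (nat_lit 1780) (.e (nat_lit 442) (nat_lit 33) (.e (nat_lit 434248) (nat_lit 28) (.e (nat_lit 573475) (nat_lit 12) (.e (nat_lit 57507) (nat_lit 39) .nil)))) .nil)) 
(.lf (nat_lit 10930) (.g (nat_lit 1898) (.e (nat_lit 446) (nat_lit 33) (.e (nat_lit 434180) (nat_lit 0) (.e (nat_lit 1661) (nat_lit 115) (.e (nat_lit 393260) (nat_lit 21) (.e (nat_lit 409608) (nat_lit 10) (.e (nat_lit 5364) (nat_lit 298) .nil)))))) (.g (nat_lit 4) .nil .nil))))) (.nd (nat_lit 4) (.nd (nat_lit 5) 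
(.lf (nat_lit 10890) (.g (nat_lit 2299) (.e (nat_lit 441) (nat_lit 33) (.e (nat_lit 434181) (nat_lit 0) (.e (nat_lit 1661) (nat_lit 115) (.e (nat_lit 393260) (nat_lit 21) (.e (nat_lit 409616) (nat_lit 10) (.e (nat_lit 7936) (nat_lit 298) .nil)))))) (.g (nat_lit 5) .nil .nil))) 
(.lf (nat_lit 10922) (.g (nat_lit 1339) (.e (nat_lit 446) (nat_lit 33) (.e (nat_lit 434180) (nat_lit 0) (.e (nat_lit 1428) (nat_lit 108) (.e (nat_lit 336421) (nat_lit 28) (.e (nat_lit 434197) (nat_lit 16) (.e (nat_lit 164340) (nat_lit 232) .nil)))))) (.g (nat_lit 6) .nil .nil)))) (.nd (nat_lit 5) 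
(.lf (nat_lit 10906) (.g (nat_lit 1646) (.e (nat_lit 444) (nat_lit 33) (.e (nat_lit 434181) (nat_lit 0) (.e (nat_lit 1660) (nat_lit 115) (.e (nat_lit 393260) (nat_lit 21) (.e (nat_lit 409623) (nat_lit 10) .nil))))) .nil)) 
(.lf (nat_lit 10938) (.g (nat_lit 1806) (.e (nat_lit 446) (nat_lit 33) (.e (nat_lit 434180) (nat_lit 0) (.e (nat_lit 1661) (nat_lit 115) (.e (nat_lit 393260) (nat_lit 21) (.e (nat_lit 409622) (nat_lit 10) (.e (nat_lit 5364) (nat_lit 298) .nil)))))) (.g (nat_lit 4) .nil .nil)))))) (.nd (nat_lit 3) (.nd (nat_lit 4) (.nd (nat_lit 5) 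
(.lf (nat_lit 10886) (.g (nat_lit 4404) (.e (nat_lit 7936) (nat_lit 32) (.e (nat_lit 426339) (nat_lit 14) (.e (nat_lit 491571) (nat_lit 13) (.e (nat_lit 393260) (nat_lit 21) (.e (nat_lit 409623) (nat_lit 10) .nil))))) .nil)) 
(.lf (nat_lit 10918) (.g (nat_lit 1202) (.e (nat_lit 446) (nat_lit 33) (.e (nat_lit 434180) (nat_lit 0) (.e (nat_lit 1428) (nat_lit 108) (.e (nat_lit 336369) (nat_lit 27) (.e (nat_lit 426173) (nat_lit 7) .nil))))) .nil))) (.nd (nat_lit 5) 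
(.lf (nat_lit 10902) (.g (nat_lit 797) (.e (nat_lit 444) (nat_lit 33) (.e (nat_lit 434180) (nat_lit 0) (.e (nat_lit 1661) (nat_lit 115) (.e (nat_lit 393260) (nat_lit 21) .nil)))) .nil)) 
(.lf (nat_lit 10934) (.g (nat_lit 3102) (.e (nat_lit 446) (nat_lit 33) (.e (nat_lit 434180) (nat_lit 0) (.e (nat_lit 1661) (nat_lit 115) (.e (nat_lit 393260) (nat_lit 21) (.e (nat_lit 409618) (nat_lit 10) (.e (nat_lit 5363) (nat_lit 298) .nil)))))) (.g (nat_lit 6) .nil .nil))))) (.nd (nat_lit 4) (.nd (nat_lit 5) 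
(.lf (nat_lit 10894) (.g (nat_lit 2296) (.e (nat_lit 442) (nat_lit 33) (.e (nat_lit 434181) (nat_lit 0) (.e (nat_lit 1661) (nat_lit 115) (.e (nat_lit 393260) (nat_lit 21) (.e (nat_lit 409616) (nat_lit 10) (.e (nat_lit 7936) (nat_lit 298) .nil)))))) (.g (nat_lit 5) .nil .nil))) 
(.lf (nat_lit 10926) (.g (nat_lit 2857) (.e (nat_lit 446) (nat_lit 33) (.e (nat_lit 434180) (nat_lit 0) (.e (nat_lit 1661) (nat_lit 115) (.e (nat_lit 393238) (nat_lit 17) (.e (nat_lit 7107) (nat_lit 380) (.e (nat_lit 164338) (nat_lit 232) .nil)))))) (.g (nat_lit 6) .nil .nil)))) (.nd (nat_lit 5) 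
(.lf (nat_lit 10910) (.g (nat_lit 2668) (.e (nat_lit 444) (nat_lit 33) (.e (nat_lit 434181) (nat_lit 0) (.e (nat_lit 1661) (nat_lit 115) (.e (nat_lit 393260) (nat_lit 21) (.e (nat_lit 409617) (nat_lit 10) (.e (nat_lit 5321) (nat_lit 298) .nil)))))) (.g (nat_lit 5) .nil .nil))) 
(.lf (nat_lit 10942) (.g (nat_lit 929) (.e (nat_lit 446) (nat_lit 33) (.e (nat_lit 434181) (nat_lit 0) (.e (nat_lit 1425) (nat_lit 108) (.e (nat_lit 336421) (nat_lit 28) (.e (nat_lit 434197) (nat_lit 16) (.e (nat_lit 164338) (nat_lit 232) .nil)))))) (.g (nat_lit 0) .nil .nil)))))))) (.nd (nat_lit 1) (.nd (nat_lit 2) (.nd (nat_lit 3) (.nd (nat_lit 4) (.nd (nat_lit 5) 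
(.lf (nat_lit 10881) (.g (nat_lit 2031) (.e (nat_lit 7936) (nat_lit 32) (.e (nat_lit 426200) (nat_lit 9) (.e (nat_lit 426354) (nat_lit 15) (.e (nat_lit 2031) (nat_lit 140) (.e (nat_lit 688178) (nat_lit 16) .nil))))) .nil)) 
(.lf (nat_lit 10913) (.g (nat_lit 1445) (.e (nat_lit 444) (nat_lit 33) (.e (nat_lit 434208) (nat_lit 18) (.e (nat_lit 6420) (nat_lit 341) (.e (nat_lit 163902) (nat_lit 12) (.e (nat_lit 426428) (nat_lit 17) .nil))))) .nil))) (.nd (nat_lit 5) 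
(.lf (nat_lit 10897) (.g (nat_lit 4164) (.e (nat_lit 442) (nat_lit 33) (.e (nat_lit 434232) (nat_lit 23) (.e (nat_lit 532535) (nat_lit 9) (.e (nat_lit 336176) (nat_lit 10) (.e (nat_lit 344132) (nat_lit 26) .nil))))) .nil)) 
(.lf (nat_lit 10929) (.g (nat_lit 1924) (.e (nat_lit 446) (nat_lit 33) (.e (nat_lit 434180) (nat_lit 0) (.e (nat_lit 1661) (nat_lit 115) (.e (nat_lit 393260) (nat_lit 21) (.e (nat_lit 409608) (nat_lit 10) (.e (nat_lit 5362) (nat_lit 298) .nil)))))) (.g (nat_lit 4) .nil .nil))))) (.nd (nat_lit 4) (.nd (nat_lit 5) 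
(.lf (nat_lit 10889) (.g (nat_lit 2228) (.e (nat_lit 441) (nat_lit 33) (.e (nat_lit 434180) (nat_lit 0) (.e (nat_lit 1661) (nat_lit 115) (.e (nat_lit 393260) (nat_lit 21) (.e (nat_lit 409616) (nat_lit 10) (.e (nat_lit 7936) (nat_lit 298) .nil)))))) (.g (nat_lit 5) .nil .nil))) 
(.lf (nat_lit 10921) (.g (nat_lit 1384) (.e (nat_lit 446) (nat_lit 33) (.e (nat_lit 434180) (nat_lit 0) (.e (nat_lit 1428) (nat_lit 108) (.e (nat_lit 336421) (nat_lit 28) (.e (nat_lit 434197) (nat_lit 16) (.e (nat_lit 164339) (nat_lit 232) .nil)))))) (.g (nat_lit 6) .nil .nil)))) (.nd (nat_lit 5) 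
(.lf (nat_lit 10905) (.g (nat_lit 4869) (.e (nat_lit 444) (nat_lit 33) (.e (nat_lit 434181) (nat_lit 0) (.e (nat_lit 1253) (nat_lit 92) (.e (nat_lit 98373) (nat_lit 29) (.e (nat_lit 450587) (nat_lit 10) (.e (nat_lit 573465) (nat_lit 9) .nil)))))) (.g (nat_lit 0) .nil .nil))) 
(.lf (nat_lit 10937) (.g (nat_lit 1787) (.e (nat_lit 446) (nat_lit 33) (.e (nat_lit 434180) (nat_lit 0) (.e (nat_lit 1661) (nat_lit 115) (.e (nat_lit 393260) (nat_lit 21) (.e (nat_lit 409622) (nat_lit 10) (.e (nat_lit 5362) (nat_lit 298) .nil)))))) (.g (nat_lit 4) .nil .nil)))))) (.nd (nat_lit 3) (.nd (nat_lit 4) (.nd (nat_lit 5) 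
(.lf (nat_lit 10885) (.g (nat_lit 4134) (.e (nat_lit 7936) (nat_lit 32) (.e (nat_lit 426338) (nat_lit 14) (.e (nat_lit 491571) (nat_lit 13) (.e (nat_lit 393260) (nat_lit 21) (.e (nat_lit 409618) (nat_lit 10) .nil))))) .nil)) 
(.lf (nat_lit 10917) (.g (nat_lit 1085) (.e (nat_lit 446) (nat_lit 33) (.e (nat_lit 434180) (nat_lit 0) (.e (nat_lit 1426) (nat_lit 108) (.e (nat_lit 336421) (nat_lit 28) (.e (nat_lit 434197) (nat_lit 16) .nil))))) .nil))) (.nd (nat_lit 5) 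
(.lf (nat_lit 10901) (.g (nat_lit 2294) (.e (nat_lit 443) (nat_lit 33) (.e (nat_lit 434181) (nat_lit 0) (.e (nat_lit 1661) (nat_lit 115) (.e (nat_lit 393260) (nat_lit 21) (.e (nat_lit 409616) (nat_lit 10) (.e (nat_lit 7936) (nat_lit 298) .nil)))))) (.g (nat_lit 5) .nil .nil))) 
(.lf (nat_lit 10933) (.g (nat_lit 3204) (.e (nat_lit 446) (nat_lit 33) (.e (nat_lit 434180) (nat_lit 0) (.e (nat_lit 1661) (nat_lit 115) (.e (nat_lit 393260) (nat_lit 21) (.e (nat_lit 409618) (nat_lit 10) (.e (nat_lit 5362) (nat_lit 298) .nil)))))) (.g (nat_lit 6) .nil .nil))))) (.nd (nat_lit 4) (.nd (nat_lit 5) 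
(.lf (nat_lit 10893) (.g (nat_lit 1523) (.e (nat_lit 442) (nat_lit 33) (.e (nat_lit 434181) (nat_lit 0) (.e (nat_lit 1253) (nat_lit 92) (.e (nat_lit 98373) (nat_lit 29) (.e (nat_lit 450563) (nat_lit 0) .nil))))) .nil)) 
(.lf (nat_lit 10925) (.g (nat_lit 1749) (.e (nat_lit 446) (nat_lit 33) (.e (nat_lit 434180) (nat_lit 0) (.e (nat_lit 1661) (nat_lit 115) (.e (nat_lit 393238) (nat_lit 17) (.e (nat_lit 7101) (nat_lit 380) .nil))))) .nil))) (.nd (nat_lit 5) 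
(.lf (nat_lit 10909) (.g (nat_lit 2307) (.e (nat_lit 444) (nat_lit 33) (.e (nat_lit 434181) (nat_lit 0) (.e (nat_lit 1661) (nat_lit 115) (.e (nat_lit 393260) (nat_lit 21) (.e (nat_lit 409616) (nat_lit 10) (.e (nat_lit 7936) (nat_lit 298) .nil)))))) (.g (nat_lit 5) .nil .nil))) 
(.lf (nat_lit 10941) (.g (nat_lit 947) (.e (nat_lit 446) (nat_lit 33) (.e (nat_lit 434181) (nat_lit 0) (.e (nat_lit 1425) (nat_lit 108) (.e (nat_lit 336421) (nat_lit 28) (.e (nat_lit 434197) (nat_lit 16) (.e (nat_lit 164337) (nat_lit 232) .nil)))))) (.g (nat_lit 0) .nil .nil))))))) (.nd (nat_lit 2) (.nd (nat_lit 3) (.nd (nat_lit 4) (.nd (nat_lit 5) 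
(.lf (nat_lit 10883) (.g (nat_lit 3989) (.e (nat_lit 7936) (nat_lit 32) (.e (nat_lit 426316) (nat_lit 12) (.e (nat_lit 475185) (nat_lit 29) (.e (nat_lit 557100) (nat_lit 13) (.e (nat_lit 172113) (nat_lit 10) .nil))))) .nil)) 
(.lf (nat_lit 10915) (.g (nat_lit 993) (.e (nat_lit 446) (nat_lit 33) (.e (nat_lit 434180) (nat_lit 0) (.e (nat_lit 1425) (nat_lit 108) (.e (nat_lit 336421) (nat_lit 28) (.e (nat_lit 434197) (nat_lit 16) .nil))))) .nil))) (.nd (nat_lit 5) 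
(.lf (nat_lit 10899) (.g (nat_lit 1986) (.e (nat_lit 442) (nat_lit 33) (.e (nat_lit 434248) (nat_lit 28) (.e (nat_lit 573475) (nat_lit 12) (.e (nat_lit 57508) (nat_lit 39) .nil)))) .nil)) 
(.lf (nat_lit 10931) (.g (nat_lit 2558) (.e (nat_lit 446) (nat_lit 33) (.e (nat_lit 434180) (nat_lit 0) (.e (nat_lit 1661) (nat_lit 115) (.e (nat_lit 393260) (nat_lit 21) (.e (nat_lit 409614) (nat_lit 10) .nil))))) .nil)))) (.nd (nat_lit 4) (.nd (nat_lit 5) 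
(.lf (nat_lit 10891) (.g (nat_lit 2053) (.e (nat_lit 442) (nat_lit 33) (.e (nat_lit 434180) (nat_lit 0) (.e (nat_lit 1661) (nat_lit 115) (.e (nat_lit 393260) (nat_lit 21) (.e (nat_lit 409616) (nat_lit 10) (.e (nat_lit 7936) (nat_lit 298) .nil)))))) (.g (nat_lit 5) .nil .nil))) 
(.lf (nat_lit 10923) (.g (nat_lit 1981) (.e (nat_lit 446) (nat_lit 33) (.e (nat_lit 434180) (nat_lit 0) (.e (nat_lit 1660) (nat_lit 115) (.e (nat_lit 393260) (nat_lit 21) (.e (nat_lit 409618) (nat_lit 10) .nil))))) .nil))) (.nd (nat_lit 5) 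
(.lf (nat_lit 10907) (.g (nat_lit 951) (.e (nat_lit 444) (nat_lit 33) (.e (nat_lit 434181) (nat_lit 0) (.e (nat_lit 1661) (nat_lit 115) (.e (nat_lit 393260) (nat_lit 21) .nil)))) .nil)) 
(.lf (nat_lit 10939) (.g (nat_lit 2110) (.e (nat_lit 446) (nat_lit 33) (.e (nat_lit 434180) (nat_lit 0) (.e (nat_lit 1661) (nat_lit 115) (.e (nat_lit 393260) (nat_lit 21) (.e (nat_lit 417536) (nat_lit 10) .nil))))) .nil))))) (.nd (nat_lit 3) (.nd (nat_lit 4) (.nd (nat_lit 5) 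
(.lf (nat_lit 10887) (.g (nat_lit 2452) (.e (nat_lit 7936) (nat_lit 32) (.e (nat_lit 426343) (nat_lit 14) (.e (nat_lit 491544) (nat_lit 7) (.e (nat_lit 319533) (nat_lit 16) (.e (nat_lit 286753) (nat_lit 10) .nil))))) .nil)) 
(.lf (nat_lit 10919) (.g (nat_lit 1379) (.e (nat_lit 446) (nat_lit 33) (.e (nat_lit 434180) (nat_lit 0) (.e (nat_lit 1428) (nat_lit 108) (.e (nat_lit 336421) (nat_lit 28) (.e (nat_lit 434197) (nat_lit 16) (.e (nat_lit 164337) (nat_lit 232) .nil)))))) (.g (nat_lit 6) .nil .nil)))) (.nd (nat_lit 5) 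
(.lf (nat_lit 10903) (.g (nat_lit 1990) (.e (nat_lit 444) (nat_lit 33) (.e (nat_lit 434180) (nat_lit 0) (.e (nat_lit 1661) (nat_lit 115) (.e (nat_lit 393260) (nat_lit 21) (.e (nat_lit 409616) (nat_lit 10) (.e (nat_lit 7936) (nat_lit 298) .nil)))))) (.g (nat_lit 5) .nil .nil))) 
(.lf (nat_lit 10935) (.g (nat_lit 3119) (.e (nat_lit 446) (nat_lit 33) (.e (nat_lit 434180) (nat_lit 0) (.e (nat_lit 1661) (nat_lit 115) (.e (nat_lit 393260) (nat_lit 21) (.e (nat_lit 409618) (nat_lit 10) (.e (nat_lit 5364) (nat_lit 298) .nil)))))) (.g (nat_lit 6) .nil .nil))))) (.nd (nat_lit 4) (.nd (nat_lit 5) 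
(.lf (nat_lit 10895) (.g (nat_lit 2078) (.e (nat_lit 442) (nat_lit 33) (.e (nat_lit 434181) (nat_lit 0) (.e (nat_lit 1661) (nat_lit 115) (.e (nat_lit 393260) (nat_lit 21) (.e (nat_lit 409617) (nat_lit 10) (.e (nat_lit 7936) (nat_lit 298) .nil)))))) (.g (nat_lit 5) .nil .nil))) 
(.lf (nat_lit 10927) (.g (nat_lit 2789) (.e (nat_lit 446) (nat_lit 33) (.e (nat_lit 434180) (nat_lit 0) (.e (nat_lit 1661) (nat_lit 115) (.e (nat_lit 393238) (nat_lit 17) (.e (nat_lit 7107) (nat_lit 380) (.e (nat_lit 164339) (nat_lit 232) .nil)))))) (.g (nat_lit 6) .nil .nil)))) (.nd (nat_lit 5) 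
(.lf (nat_lit 10911) (.g (nat_lit 2809) (.e (nat_lit 444) (nat_lit 33) (.e (nat_lit 434181) (nat_lit 0) (.e (nat_lit 1661) (nat_lit 115) (.e (nat_lit 393260) (nat_lit 21) (.e (nat_lit 409623) (nat_lit 10) (.e (nat_lit 5293) (nat_lit 298) .nil)))))) (.g (nat_lit 5) .nil .nil))) 
(.lf (nat_lit 10943) (.g (nat_lit 1167) (.e (nat_lit 446) (nat_lit 33) (.e (nat_lit 434181) (nat_lit 0) (.e (nat_lit 1425) (nat_lit 108) (.e (nat_lit 336438) (nat_lit 31) (.e (nat_lit 458769) (nat_lit 16) (.e (nat_lit 164337) (nat_lit 232) .nil)))))) (.g (nat_lit 5) .nil .nil)))))))))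

noncomputable def tv151 : DT := (.nd (nat_lit 0) (.nd (nat_lit 1) (.nd (nat_lit 2) (.nd (nat_lit 3) (.nd (nat_lit 4) (.nd (nat_lit 5) 
(.lf (nat_lit 10944) (.g (nat_lit 1137) (.e (nat_lit 446) (nat_lit 33) (.e (nat_lit 434181) (nat_lit 0) (.e (nat_lit 1425) (nat_lit 108) (.e (nat_lit 336438) (nat_lit 31) (.e (nat_lit 458769) (nat_lit 16) (.e (nat_lit 164339) (nat_lit 232) .nil)))))) (.g (nat_lit 5) .nil .nil))) 
(.lf (nat_lit 10976) (.g (nat_lit 2342) (.e (nat_lit 446) (nat_lit 33) (.e (nat_lit 434181) (nat_lit 0) (.e (nat_lit 1661) (nat_lit 115) (.e (nat_lit 393260) (nat_lit 21) (.e (nat_lit 409622) (nat_lit 10) (.e (nat_lit 5364) (nat_lit 298) .nil)))))) (.g (nat_lit 0) .nil .nil)))) (.nd (nat_lit 5) 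
(.lf (nat_lit 10960) (.g (nat_lit 2591) (.e (nat_lit 446) (nat_lit 33) (.e (nat_lit 434181) (nat_lit 0) (.e (nat_lit 1661) (nat_lit 115) (.e (nat_lit 393238) (nat_lit 17) (.e (nat_lit 7101) (nat_lit 380) (.e (nat_lit 164340) (nat_lit 232) .nil)))))) (.g (nat_lit 5) .nil .nil))) 
(.lf (nat_lit 10992) (.g (nat_lit 1616) (.e (nat_lit 447) (nat_lit 33) (.e (nat_lit 434180) (nat_lit 0) (.e (nat_lit 1661) (nat_lit 115) (.e (nat_lit 393260) (nat_lit 21) (.e (nat_lit 409624) (nat_lit 10) .nil))))) .nil)))) (.nd (nat_lit 4) (.nd (nat_lit 5) 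
(.lf (nat_lit 10952) (.g (nat_lit 1823) (.e (nat_lit 446) (nat_lit 33) (.e (nat_lit 434181) (nat_lit 0) (.e (nat_lit 1428) (nat_lit 108) (.e (nat_lit 336421) (nat_lit 28) (.e (nat_lit 434197) (nat_lit 16) (.e (nat_lit 164340) (nat_lit 232) .nil)))))) (.g (nat_lit 0) .nil .nil))) 
(.lf (nat_lit 10984) (.g (nat_lit 2198) (.e (nat_lit 447) (nat_lit 33) (.e (nat_lit 434180) (nat_lit 0) (.e (nat_lit 1661) (nat_lit 115) (.e (nat_lit 393238) (nat_lit 17) (.e (nat_lit 7112) (nat_lit 381) .nil))))) .nil))) (.nd (nat_lit 5) 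
(.lf (nat_lit 10968) (.g (nat_lit 2594) (.e (nat_lit 446) (nat_lit 33) (.e (nat_lit 434181) (nat_lit 0) (.e (nat_lit 1661) (nat_lit 115) (.e (nat_lit 393260) (nat_lit 21) (.e (nat_lit 409614) (nat_lit 10) (.e (nat_lit 5315) (nat_lit 298) .nil)))))) (.g (nat_lit 4) .nil .nil))) 
(.lf (nat_lit 11000) (.g (nat_lit 1720) (.e (nat_lit 447) (nat_lit 33) (.e (nat_lit 434181) (nat_lit 0) (.e (nat_lit 1660) (nat_lit 115) (.e (nat_lit 393238) (nat_lit 17) (.e (nat_lit 7114) (nat_lit 381) (.e (nat_lit 229644) (nat_lit 232) .nil)))))) (.g (nat_lit 6) .nil .nil)))))) (.nd (nat_lit 3) (.nd (nat_lit 4) (.nd (nat_lit 5) 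
(.lf (nat_lit 10948) (.g (nat_lit 2511) (.e (nat_lit 446) (nat_lit 33) (.e (nat_lit 434181) (nat_lit 0) (.e (nat_lit 1428) (nat_lit 108) (.e (nat_lit 336369) (nat_lit 27) (.e (nat_lit 426025) (nat_lit 0) (.e (nat_lit 7107) (nat_lit 380) (.e (nat_lit 164338) (nat_lit 232) .nil))))))) (.g (nat_lit 6) .nil .nil))) 
(.lf (nat_lit 10980) (.g (nat_lit 2663) (.e (nat_lit 446) (nat_lit 33) (.e (nat_lit 434208) (nat_lit 18) (.e (nat_lit 6420) (nat_lit 341) (.e (nat_lit 163902) (nat_lit 12) (.e (nat_lit 426428) (nat_lit 17) (.e (nat_lit 90174) (nat_lit 14) (.e (nat_lit 180275) (nat_lit 32) .nil))))))) (.g (nat_lit 6) .nil .nil)))) (.nd (nat_lit 5) 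
(.lf (nat_lit 10964) (.g (nat_lit 2213) (.e (nat_lit 446) (nat_lit 33) (.e (nat_lit 434181) (nat_lit 0) (.e (nat_lit 1661) (nat_lit 115) (.e (nat_lit 393260) (nat_lit 21) (.e (nat_lit 409608) (nat_lit 10) (.e (nat_lit 5315) (nat_lit 298) .nil)))))) (.g (nat_lit 5) .nil .nil))) 
(.lf (nat_lit 10996) (.g (nat_lit 1255) (.e (nat_lit 447) (nat_lit 33) (.e (nat_lit 434181) (nat_lit 0) (.e (nat_lit 1425) (nat_lit 108) (.e (nat_lit 336421) (nat_lit 28) (.e (nat_lit 434198) (nat_lit 17) (.e (nat_lit 229645) (nat_lit 232) .nil)))))) (.g (nat_lit 0) .nil .nil))))) (.nd (nat_lit 4) (.nd (nat_lit 5) 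
(.lf (nat_lit 10956) (.g (nat_lit 1525) (.e (nat_lit 446) (nat_lit 33) (.e (nat_lit 434181) (nat_lit 0) (.e (nat_lit 1660) (nat_lit 115) (.e (nat_lit 393260) (nat_lit 21) (.e (nat_lit 417536) (nat_lit 10) .nil))))) .nil)) 
(.lf (nat_lit 10988) (.g (nat_lit 2276) (.e (nat_lit 447) (nat_lit 33) (.e (nat_lit 434180) (nat_lit 0) (.e (nat_lit 1661) (nat_lit 115) (.e (nat_lit 393238) (nat_lit 17) (.e (nat_lit 7114) (nat_lit 381) (.e (nat_lit 229645) (nat_lit 232) .nil)))))) (.g (nat_lit 5) .nil .nil)))) (.nd (nat_lit 5) 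
(.lf (nat_lit 10972) (.g (nat_lit 3042) (.e (nat_lit 446) (nat_lit 33) (.e (nat_lit 434181) (nat_lit 0) (.e (nat_lit 1661) (nat_lit 115) (.e (nat_lit 393260) (nat_lit 21) (.e (nat_lit 409618) (nat_lit 10) (.e (nat_lit 5363) (nat_lit 298) .nil)))))) (.g (nat_lit 6) .nil .nil))) 
(.lf (nat_lit 11004) (.g (nat_lit 2332) (.e (nat_lit 447) (nat_lit 33) (.e (nat_lit 434181) (nat_lit 0) (.e (nat_lit 1661) (nat_lit 115) (.e (nat_lit 393238) (nat_lit 17) (.e (nat_lit 7113) (nat_lit 381) .nil))))) .nil)))))) (.nd (nat_lit 2) (.nd (nat_lit 3) (.nd (nat_lit 4) (.nd (nat_lit 5) 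
(.lf (nat_lit 10946) (.g (nat_lit 1073) (.e (nat_lit 446) (nat_lit 33) (.e (nat_lit 434181) (nat_lit 0) (.e (nat_lit 1426) (nat_lit 108) (.e (nat_lit 336421) (nat_lit 28) (.e (nat_lit 434197) (nat_lit 16) (.e (nat_lit 164338) (nat_lit 232) .nil)))))) (.g (nat_lit 0) .nil .nil))) 
(.lf (nat_lit 10978) (.g (nat_lit 2252) (.e (nat_lit 446) (nat_lit 33) (.e (nat_lit 434181) (nat_lit 0) (.e (nat_lit 1661) (nat_lit 115) (.e (nat_lit 393263) (nat_lit 22) (.e (nat_lit 417817) (nat_lit 10) (.e (nat_lit 5364) (nat_lit 298) .nil)))))) (.g (nat_lit 6) .nil .nil)))) (.nd (nat_lit 5) 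
(.lf (nat_lit 10962) (.g (nat_lit 1344) (.e (nat_lit 446) (nat_lit 33) (.e (nat_lit 434181) (nat_lit 0) (.e (nat_lit 1661) (nat_lit 115) (.e (nat_lit 393242) (nat_lit 17) (.e (nat_lit 7095) (nat_lit 380) (.e (nat_lit 164338) (nat_lit 232) .nil)))))) (.g (nat_lit 0) .nil .nil))) 
(.lf (nat_lit 10994) (.g (nat_lit 2365) (.e (nat_lit 447) (nat_lit 33) (.e (nat_lit 434180) (nat_lit 0) (.e (nat_lit 1661) (nat_lit 115) (.e (nat_lit 393260) (nat_lit 21) (.e (nat_lit 409625) (nat_lit 10) (.e (nat_lit 5264) (nat_lit 298) .nil)))))) (.g (nat_lit 4) .nil .nil))))) (.nd (nat_lit 4) (.nd (nat_lit 5) 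
(.lf (nat_lit 10954) (.g (nat_lit 2339) (.e (nat_lit 446) (nat_lit 33) (.e (nat_lit 434181) (nat_lit 0) (.e (nat_lit 1660) (nat_lit 115) (.e (nat_lit 393238) (nat_lit 17) (.e (nat_lit 7107) (nat_lit 380) (.e (nat_lit 164338) (nat_lit 232) .nil)))))) (.g (nat_lit 6) .nil .nil))) 
(.lf (nat_lit 10986) (.g (nat_lit 1790) (.e (nat_lit 447) (nat_lit 33) (.e (nat_lit 434180) (nat_lit 0) (.e (nat_lit 1661) (nat_lit 115) (.e (nat_lit 393238) (nat_lit 17) (.e (nat_lit 7114) (nat_lit 381) .nil))))) .nil))) (.nd (nat_lit 5) 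
(.lf (nat_lit 10970) (.g (nat_lit 2106) (.e (nat_lit 446) (nat_lit 33) (.e (nat_lit 434181) (nat_lit 0) (.e (nat_lit 1661) (nat_lit 115) (.e (nat_lit 393260) (nat_lit 21) (.e (nat_lit 409617) (nat_lit 10) (.e (nat_lit 7936) (nat_lit 298) .nil)))))) (.g (nat_lit 5) .nil .nil))) 
(.lf (nat_lit 11002) (.g (nat_lit 1728) (.e (nat_lit 447) (nat_lit 33) (.e (nat_lit 434181) (nat_lit 0) (.e (nat_lit 1660) (nat_lit 115) (.e (nat_lit 393238) (nat_lit 17) (.e (nat_lit 7114) (nat_lit 381) (.e (nat_lit 229646) (nat_lit 232) .nil)))))) (.g (nat_lit 0) .nil .nil)))))) (.nd (nat_lit 3) (.nd (nat_lit 4) (.nd (nat_lit 5) 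
(.lf (nat_lit 10950) (.g (nat_lit 1835) (.e (nat_lit 446) (nat_lit 33) (.e (nat_lit 434181) (nat_lit 0) (.e (nat_lit 1428) (nat_lit 108) (.e (nat_lit 336421) (nat_lit 28) (.e (nat_lit 434197) (nat_lit 16) (.e (nat_lit 164337) (nat_lit 232) .nil)))))) (.g (nat_lit 0) .nil .nil))) 
(.lf (nat_lit 10982) (.g (nat_lit 1052) (.e (nat_lit 447) (nat_lit 33) (.e (nat_lit 434180) (nat_lit 0) (.e (nat_lit 1425) (nat_lit 108) (.e (nat_lit 336421) (nat_lit 28) (.e (nat_lit 434198) (nat_lit 17) .nil))))) .nil))) (.nd (nat_lit 5) 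
(.lf (nat_lit 10966) (.g (nat_lit 2503) (.e (nat_lit 446) (nat_lit 33) (.e (nat_lit 434181) (nat_lit 0) (.e (nat_lit 1661) (nat_lit 115) (.e (nat_lit 393260) (nat_lit 21) (.e (nat_lit 409608) (nat_lit 10) (.e (nat_lit 5362) (nat_lit 298) .nil)))))) (.g (nat_lit 0) .nil .nil))) 
(.lf (nat_lit 10998) (.g (nat_lit 1428) (.e (nat_lit 447) (nat_lit 33) (.e (nat_lit 434181) (nat_lit 0) (.e (nat_lit 1426) (nat_lit 108) (.e (nat_lit 336421) (nat_lit 28) (.e (nat_lit 434198) (nat_lit 17) (.e (nat_lit 229645) (nat_lit 232) .nil)))))) (.g (nat_lit 0) .nil .nil))))) (.nd (nat_lit 4) (.nd (nat_lit 5) 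
(.lf (nat_lit 10958) (.g (nat_lit 1972) (.e (nat_lit 446) (nat_lit 33) (.e (nat_lit 434181) (nat_lit 0) (.e (nat_lit 1661) (nat_lit 115) (.e (nat_lit 393238) (nat_lit 17) (.e (nat_lit 7101) (nat_lit 380) .nil))))) .nil)) 
(.lf (nat_lit 10990) (.g (nat_lit 1227) (.e (nat_lit 447) (nat_lit 33) (.e (nat_lit 434180) (nat_lit 0) (.e (nat_lit 1661) (nat_lit 115) (.e (nat_lit 393242) (nat_lit 17) .nil)))) .nil))) (.nd (nat_lit 5) 
(.lf (nat_lit 10974) (.g (nat_lit 1926) (.e (nat_lit 446) (nat_lit 33) (.e (nat_lit 434181) (nat_lit 0) (.e (nat_lit 1661) (nat_lit 115) (.e (nat_lit 393260) (nat_lit 21) (.e (nat_lit 409622) (nat_lit 10) .nil))))) .nil)) 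
(.lf (nat_lit 11006) (.g (nat_lit 2455) (.e (nat_lit 447) (nat_lit 33) (.e (nat_lit 434181) (nat_lit 0) (.e (nat_lit 1661) (nat_lit 115) (.e (nat_lit 393238) (nat_lit 17) (.e (nat_lit 7114) (nat_lit 381) (.e (nat_lit 229644) (nat_lit 232) .nil)))))) (.g (nat_lit 0) .nil .nil)))))))) (.nd (nat_lit 1) (.nd (nat_lit 2) (.nd (nat_lit 3) (.nd (nat_lit 4) (.nd (nat_lit 5) 
(.lf (nat_lit 10945) (.g (nat_lit 1110) (.e (nat_lit 446) (nat_lit 33) (.e (nat_lit 434181) (nat_lit 0) (.e (nat_lit 1425) (nat_lit 108) (.e (nat_lit 336438) (nat_lit 31) (.e (nat_lit 458769) (nat_lit 16) (.e (nat_lit 164340) (nat_lit 232) .nil)))))) (.g (nat_lit 5) .nil .nil))) 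
(.lf (nat_lit 10977) (.g (nat_lit 2112) (.e (nat_lit 446) (nat_lit 33) (.e (nat_lit 434181) (nat_lit 0) (.e (nat_lit 1661) (nat_lit 115) (.e (nat_lit 393260) (nat_lit 21) (.e (nat_lit 417536) (nat_lit 10) .nil))))) .nil))) (.nd (nat_lit 5) 
(.lf (nat_lit 10961) (.g (nat_lit 2985) (.e (nat_lit 446) (nat_lit 33) (.e (nat_lit 434181) (nat_lit 0) (.e (nat_lit 1661) (nat_lit 115) (.e (nat_lit 393238) (nat_lit 17) (.e (nat_lit 7107) (nat_lit 380) (.e (nat_lit 164338) (nat_lit 232) .nil)))))) (.g (nat_lit 0) .nil .nil))) 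
(.lf (nat_lit 10993) (.g (nat_lit 1934) (.e (nat_lit 447) (nat_lit 33) (.e (nat_lit 434180) (nat_lit 0) (.e (nat_lit 1661) (nat_lit 115) (.e (nat_lit 393260) (nat_lit 21) (.e (nat_lit 409624) (nat_lit 10) (.e (nat_lit 5264) (nat_lit 298) .nil)))))) (.g (nat_lit 5) .nil .nil))))) (.nd (nat_lit 4) (.nd (nat_lit 5) 
(.lf (nat_lit 10953) (.g (nat_lit 2319) (.e (nat_lit 446) (nat_lit 33) (.e (nat_lit 434181) (nat_lit 0) (.e (nat_lit 1660) (nat_lit 115) (.e (nat_lit 393238) (nat_lit 17) (.e (nat_lit 7107) (nat_lit 380) (.e (nat_lit 164337) (nat_lit 232) .nil)))))) (.g (nat_lit 6) .nil .nil))) 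
(.lf (nat_lit 10985) (.g (nat_lit 2231) (.e (nat_lit 447) (nat_lit 33) (.e (nat_lit 434180) (nat_lit 0) (.e (nat_lit 1661) (nat_lit 115) (.e (nat_lit 393238) (nat_lit 17) (.e (nat_lit 7113) (nat_lit 381) .nil))))) .nil))) (.nd (nat_lit 5) 
(.lf (nat_lit 10969) (.g (nat_lit 2326) (.e (nat_lit 446) (nat_lit 33) (.e (nat_lit 434181) (nat_lit 0) (.e (nat_lit 1661) (nat_lit 115) (.e (nat_lit 393260) (nat_lit 21) (.e (nat_lit 409616) (nat_lit 10) (.e (nat_lit 7936) (nat_lit 298) .nil)))))) (.g (nat_lit 5) .nil .nil))) 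
(.lf (nat_lit 11001) (.g (nat_lit 1727) (.e (nat_lit 447) (nat_lit 33) (.e (nat_lit 434181) (nat_lit 0) (.e (nat_lit 1660) (nat_lit 115) (.e (nat_lit 393238) (nat_lit 17) (.e (nat_lit 7114) (nat_lit 381) (.e (nat_lit 229645) (nat_lit 232) .nil)))))) (.g (nat_lit 6) .nil .nil)))))) (.nd (nat_lit 3) (.nd (nat_lit 4) (.nd (nat_lit 5) 
(.lf (nat_lit 10949) (.g (nat_lit 2616) (.e (nat_lit 446) (nat_lit 33) (.e (nat_lit 434181) (nat_lit 0) (.e (nat_lit 1428) (nat_lit 108) (.e (nat_lit 336369) (nat_lit 27) (.e (nat_lit 426025) (nat_lit 0) (.e (nat_lit 7107) (nat_lit 380) (.e (nat_lit 164339) (nat_lit 232) .nil))))))) (.g (nat_lit 7) .nil .nil))) 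
(.lf (nat_lit 10981) (.g (nat_lit 3359) (.e (nat_lit 446) (nat_lit 33) (.e (nat_lit 442112) (nat_lit 26) (.e (nat_lit 557105) (nat_lit 14) (.e (nat_lit 180252) (nat_lit 10) (.e (nat_lit 573451) (nat_lit 9) (.e (nat_lit 1449) (nat_lit 108) (.e (nat_lit 336013) (nat_lit 2) (.e (nat_lit 98048) (nat_lit 0) .nil)))))))) (.g (nat_lit 7) .nil .nil)))) (.nd (nat_lit 5) 
(.lf (nat_lit 10965) (.g (nat_lit 2109) (.e (nat_lit 446) (nat_lit 33) (.e (nat_lit 434181) (nat_lit 0) (.e (nat_lit 1661) (nat_lit 115) (.e (nat_lit 393260) (nat_lit 21) (.e (nat_lit 409608) (nat_lit 10) (.e (nat_lit 5359) (nat_lit 298) .nil)))))) (.g (nat_lit 4) .nil .nil))) 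
(.lf (nat_lit 10997) (.g (nat_lit 1343) (.e (nat_lit 447) (nat_lit 33) (.e (nat_lit 434181) (nat_lit 0) (.e (nat_lit 1425) (nat_lit 108) (.e (nat_lit 336421) (nat_lit 28) (.e (nat_lit 434198) (nat_lit 17) (.e (nat_lit 229647) (nat_lit 232) .nil)))))) (.g (nat_lit 0) .nil .nil))))) (.nd (nat_lit 4) (.nd (nat_lit 5) 
(.lf (nat_lit 10957) (.g (nat_lit 1137) (.e (nat_lit 446) (nat_lit 33) (.e (nat_lit 434181) (nat_lit 0) (.e (nat_lit 1661) (nat_lit 115) (.e (nat_lit 393230) (nat_lit 17) .nil)))) .nil)) 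
(.lf (nat_lit 10989) (.g (nat_lit 2282) (.e (nat_lit 447) (nat_lit 33) (.e (nat_lit 434180) (nat_lit 0) (.e (nat_lit 1661) (nat_lit 115) (.e (nat_lit 393238) (nat_lit 17) (.e (nat_lit 7114) (nat_lit 381) (.e (nat_lit 229646) (nat_lit 232) .nil)))))) (.g (nat_lit 5) .nil .nil)))) (.nd (nat_lit 5) 
(.lf (nat_lit 10973) (.g (nat_lit 3060) (.e (nat_lit 446) (nat_lit 33) (.e (nat_lit 434181) (nat_lit 0) (.e (nat_lit 1661) (nat_lit 115) (.e (nat_lit 393260) (nat_lit 21) (.e (nat_lit 409618) (nat_lit 10) (.e (nat_lit 5364) (nat_lit 298) .nil)))))) (.g (nat_lit 6) .nil .nil))) 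
(.lf (nat_lit 11005) (.g (nat_lit 1841) (.e (nat_lit 447) (nat_lit 33) (.e (nat_lit 434181) (nat_lit 0) (.e (nat_lit 1661) (nat_lit 115) (.e (nat_lit 393238) (nat_lit 17) (.e (nat_lit 7114) (nat_lit 381) .nil))))) .nil)))))) (.nd (nat_lit 2) (.nd (nat_lit 3) (.nd (nat_lit 4) (.nd (nat_lit 5) 
(.lf (nat_lit 10947) (.g (nat_lit 2527) (.e (nat_lit 446) (nat_lit 33) (.e (nat_lit 434181) (nat_lit 0) (.e (nat_lit 1428) (nat_lit 108) (.e (nat_lit 336369) (nat_lit 27) (.e (nat_lit 426025) (nat_lit 0) (.e (nat_lit 7107) (nat_lit 380) (.e (nat_lit 164337) (nat_lit 232) .nil))))))) (.g (nat_lit 7) .nil .nil))) 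
(.lf (nat_lit 10979) (.g (nat_lit 2726) (.e (nat_lit 446) (nat_lit 33) (.e (nat_lit 434206) (nat_lit 18) (.e (nat_lit 6420) (nat_lit 341) (.e (nat_lit 163902) (nat_lit 12) (.e (nat_lit 426428) (nat_lit 17) (.e (nat_lit 90172) (nat_lit 14) (.e (nat_lit 180276) (nat_lit 32) .nil))))))) (.g (nat_lit 7) .nil .nil)))) (.nd (nat_lit 5) 
(.lf (nat_lit 10963) (.g (nat_lit 2021) (.e (nat_lit 446) (nat_lit 33) (.e (nat_lit 434181) (nat_lit 0) (.e (nat_lit 1661) (nat_lit 115) (.e (nat_lit 393260) (nat_lit 21) (.e (nat_lit 409608) (nat_lit 10) .nil))))) .nil)) 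
(.lf (nat_lit 10995) (.g (nat_lit 1228) (.e (nat_lit 447) (nat_lit 33) (.e (nat_lit 434181) (nat_lit 0) (.e (nat_lit 1425) (nat_lit 108) (.e (nat_lit 336421) (nat_lit 28) (.e (nat_lit 434198) (nat_lit 17) (.e (nat_lit 229644) (nat_lit 232) .nil)))))) (.g (nat_lit 0) .nil .nil))))) (.nd (nat_lit 4) (.nd (nat_lit 5) 
(.lf (nat_lit 10955) (.g (nat_lit 2264) (.e (nat_lit 446) (nat_lit 33) (.e (nat_lit 434181) (nat_lit 0) (.e (nat_lit 1660) (nat_lit 115) (.e (nat_lit 393238) (nat_lit 17) (.e (nat_lit 7107) (nat_lit 380) (.e (nat_lit 164339) (nat_lit 232) .nil)))))) (.g (nat_lit 0) .nil .nil))) 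
(.lf (nat_lit 10987) (.g (nat_lit 2280) (.e (nat_lit 447) (nat_lit 33) (.e (nat_lit 434180) (nat_lit 0) (.e (nat_lit 1661) (nat_lit 115) (.e (nat_lit 393238) (nat_lit 17) (.e (nat_lit 7114) (nat_lit 381) (.e (nat_lit 229644) (nat_lit 232) .nil)))))) (.g (nat_lit 5) .nil .nil)))) (.nd (nat_lit 5) 
(.lf (nat_lit 10971) (.g (nat_lit 3148) (.e (nat_lit 446) (nat_lit 33) (.e (nat_lit 434181) (nat_lit 0) (.e (nat_lit 1661) (nat_lit 115) (.e (nat_lit 393260) (nat_lit 21) (.e (nat_lit 409618) (nat_lit 10) (.e (nat_lit 5362) (nat_lit 298) .nil)))))) (.g (nat_lit 6) .nil .nil))) 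
(.lf (nat_lit 11003) (.g (nat_lit 2321) (.e (nat_lit 447) (nat_lit 33) (.e (nat_lit 434181) (nat_lit 0) (.e (nat_lit 1661) (nat_lit 115) (.e (nat_lit 393238) (nat_lit 17) (.e (nat_lit 7112) (nat_lit 381) .nil))))) .nil))))) (.nd (nat_lit 3) (.nd (nat_lit 4) (.nd (nat_lit 5) 
(.lf (nat_lit 10951) (.g (nat_lit 1820) (.e (nat_lit 446) (nat_lit 33) (.e (nat_lit 434181) (nat_lit 0) (.e (nat_lit 1428) (nat_lit 108) (.e (nat_lit 336421) (nat_lit 28) (.e (nat_lit 434197) (nat_lit 16) (.e (nat_lit 164338) (nat_lit 232) .nil)))))) (.g (nat_lit 0) .nil .nil))) 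
(.lf (nat_lit 10983) (.g (nat_lit 1183) (.e (nat_lit 447) (nat_lit 33) (.e (nat_lit 434180) (nat_lit 0) (.e (nat_lit 1426) (nat_lit 108) (.e (nat_lit 336421) (nat_lit 28) (.e (nat_lit 434198) (nat_lit 17) .nil))))) .nil))) (.nd (nat_lit 5) 
(.lf (nat_lit 10967) (.g (nat_lit 2478) (.e (nat_lit 446) (nat_lit 33) (.e (nat_lit 434181) (nat_lit 0) (.e (nat_lit 1661) (nat_lit 115) (.e (nat_lit 393260) (nat_lit 21) (.e (nat_lit 409608) (nat_lit 10) (.e (nat_lit 5364) (nat_lit 298) .nil)))))) (.g (nat_lit 0) .nil .nil))) 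
(.lf (nat_lit 10999) (.g (nat_lit 1500) (.e (nat_lit 447) (nat_lit 33) (.e (nat_lit 434181) (nat_lit 0) (.e (nat_lit 1426) (nat_lit 108) (.e (nat_lit 336421) (nat_lit 28) (.e (nat_lit 434198) (nat_lit 17) (.e (nat_lit 229647) (nat_lit 232) .nil)))))) (.g (nat_lit 0) .nil .nil))))) (.nd (nat_lit 4) (.nd (nat_lit 5) 
(.lf (nat_lit 10959) (.g (nat_lit 2046) (.e (nat_lit 446) (nat_lit 33) (.e (nat_lit 434181) (nat_lit 0) (.e (nat_lit 1661) (nat_lit 115) (.e (nat_lit 393238) (nat_lit 17) (.e (nat_lit 7101) (nat_lit 380) (.e (nat_lit 164339) (nat_lit 232) .nil)))))) (.g (nat_lit 4) .nil .nil))) 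
(.lf (nat_lit 10991) (.g (nat_lit 1505) (.e (nat_lit 447) (nat_lit 33) (.e (nat_lit 434180) (nat_lit 0) (.e (nat_lit 1661) (nat_lit 115) (.e (nat_lit 393260) (nat_lit 21) (.e (nat_lit 409617) (nat_lit 10) (.e (nat_lit 7936) (nat_lit 298) .nil)))))) (.g (nat_lit 4) .nil .nil)))) (.nd (nat_lit 5) 
(.lf (nat_lit 10975) (.g (nat_lit 2336) (.e (nat_lit 446) (nat_lit 33) (.e (nat_lit 434181) (nat_lit 0) (.e (nat_lit 1661) (nat_lit 115) (.e (nat_lit 393260) (nat_lit 21) (.e (nat_lit 409622) (nat_lit 10) (.e (nat_lit 5362) (nat_lit 298) .nil)))))) (.g (nat_lit 6) .nil .nil))) 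
(.lf (nat_lit 11007) (.g (nat_lit 2449) (.e (nat_lit 447) (nat_lit 33) (.e (nat_lit 434181) (nat_lit 0) (.e (nat_lit 1661) (nat_lit 115) (.e (nat_lit 393238) (nat_lit 17) (.e (nat_lit 7114) (nat_lit 381) (.e (nat_lit 229645) (nat_lit 232) .nil)))))) (.g (nat_lit 0) .nil .nil)))))))))

noncomputable def tv152 : DT := (.nd (nat_lit 0) (.nd (nat_lit 1) (.nd (nat_lit 2) (.nd (nat_lit 3) (.nd (nat_lit 4) (.nd (nat_lit 5) 
(.lf (nat_lit 11008) (.g (nat_lit 2369) (.e (nat_lit 447) (nat_lit 33) (.e (nat_lit 434181) (nat_lit 0) (.e (nat_lit 1661) (nat_lit 115) (.e (nat_lit 393260) (nat_lit 21) (.e (nat_lit 409616) (nat_lit 10) (.e (nat_lit 7936) (nat_lit 298) .nil)))))) (.g (nat_lit 5) .nil .nil))) 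
(.lf (nat_lit 11040) (.g (nat_lit 2216) (.e (nat_lit 452) (nat_lit 33) (.e (nat_lit 434209) (nat_lit 18) (.e (nat_lit 4606) (nat_lit 269) (.e (nat_lit 1181) (nat_lit 87) (.e (nat_lit 57480) (nat_lit 28) (.e (nat_lit 557098) (nat_lit 13) (.e (nat_lit 172115) (nat_lit 10) (.e (nat_lit 434244) (nat_lit 28) (.e (nat_lit 573449) (nat_lit 9) .nil))))))))) (.g (nat_lit 4) .nil .nil)))) (.nd (nat_lit 5) 
(.lf (nat_lit 11024) (.g (nat_lit 2117) (.e (nat_lit 452) (nat_lit 33) (.e (nat_lit 434180) (nat_lit 0) (.e (nat_lit 1661) (nat_lit 115) (.e (nat_lit 393260) (nat_lit 21) (.e (nat_lit 409617) (nat_lit 10) (.e (nat_lit 7936) (nat_lit 298) .nil)))))) (.g (nat_lit 5) .nil .nil))) 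
(.lf (nat_lit 11056) (.g (nat_lit 2582) (.e (nat_lit 454) (nat_lit 34) (.e (nat_lit 442374) (nat_lit 0) (.e (nat_lit 1856) (nat_lit 124) (.e (nat_lit 557100) (nat_lit 13) (.e (nat_lit 172113) (nat_lit 10) .nil))))) .nil)))) (.nd (nat_lit 4) (.nd (nat_lit 5) 
(.lf (nat_lit 11016) (.g (nat_lit 2355) (.e (nat_lit 448) (nat_lit 33) (.e (nat_lit 434180) (nat_lit 0) (.e (nat_lit 1661) (nat_lit 115) (.e (nat_lit 393260) (nat_lit 21) (.e (nat_lit 409623) (nat_lit 10) (.e (nat_lit 5259) (nat_lit 298) .nil)))))) (.g (nat_lit 4) .nil .nil))) 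
(.lf (nat_lit 11048) (.g (nat_lit 2902) (.e (nat_lit 452) (nat_lit 33) (.e (nat_lit 434209) (nat_lit 18) (.e (nat_lit 5939) (nat_lit 322) (.e (nat_lit 57448) (nat_lit 19) (.e (nat_lit 393281) (nat_lit 23) (.e (nat_lit 426116) (nat_lit 2) (.e (nat_lit 196624) (nat_lit 9) .nil))))))) (.g (nat_lit 5) .nil .nil)))) (.nd (nat_lit 5) 
(.lf (nat_lit 11032) (.g (nat_lit 5238) (.e (nat_lit 452) (nat_lit 33) (.e (nat_lit 434202) (nat_lit 18) (.e (nat_lit 4598) (nat_lit 269) (.e (nat_lit 1182) (nat_lit 87) (.e (nat_lit 57480) (nat_lit 28) (.e (nat_lit 557098) (nat_lit 13) (.e (nat_lit 172115) (nat_lit 10) (.e (nat_lit 434244) (nat_lit 28) (.e (nat_lit 573450) (nat_lit 9) .nil))))))))) (.g (nat_lit 9) .nil .nil))) 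
(.lf (nat_lit 11064) (.g (nat_lit 4426) (.e (nat_lit 458) (nat_lit 34) (.e (nat_lit 442379) (nat_lit 0) (.e (nat_lit 1856) (nat_lit 124) (.e (nat_lit 557100) (nat_lit 13) (.e (nat_lit 172113) (nat_lit 10) (.e (nat_lit 434247) (nat_lit 28) (.e (nat_lit 573454) (nat_lit 9) .nil))))))) (.g (nat_lit 0) .nil .nil)))))) (.nd (nat_lit 3) (.nd (nat_lit 4) (.nd (nat_lit 5) 
(.lf (nat_lit 11012) (.g (nat_lit 2807) (.e (nat_lit 447) (nat_lit 33) (.e (nat_lit 434181) (nat_lit 0) (.e (nat_lit 1661) (nat_lit 115) (.e (nat_lit 393260) (nat_lit 21) (.e (nat_lit 409625) (nat_lit 10) (.e (nat_lit 5264) (nat_lit 298) .nil)))))) (.g (nat_lit 6) .nil .nil))) 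
(.lf (nat_lit 11044) (.g (nat_lit 2472) (.e (nat_lit 452) (nat_lit 33) (.e (nat_lit 434209) (nat_lit 18) (.e (nat_lit 5939) (nat_lit 322) (.e (nat_lit 57411) (nat_lit 12) (.e (nat_lit 336443) (nat_lit 32) (.e (nat_lit 466974) (nat_lit 22) (.e (nat_lit 196624) (nat_lit 9) .nil))))))) (.g (nat_lit 4) .nil .nil)))) (.nd (nat_lit 5) 
(.lf (nat_lit 11028) (.g (nat_lit 3358) (.e (nat_lit 452) (nat_lit 33) (.e (nat_lit 434202) (nat_lit 18) (.e (nat_lit 4598) (nat_lit 269) (.e (nat_lit 1181) (nat_lit 87) (.e (nat_lit 57478) (nat_lit 28) (.e (nat_lit 557101) (nat_lit 13) (.e (nat_lit 172115) (nat_lit 10) (.e (nat_lit 434244) (nat_lit 28) (.e (nat_lit 573450) (nat_lit 9) .nil))))))))) (.g (nat_lit 6) .nil .nil))) 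
(.lf (nat_lit 11060) (.g (nat_lit 2387) (.e (nat_lit 457) (nat_lit 34) (.e (nat_lit 442374) (nat_lit 0) (.e (nat_lit 1855) (nat_lit 124) (.e (nat_lit 557100) (nat_lit 13) (.e (nat_lit 172113) (nat_lit 10) (.e (nat_lit 434245) (nat_lit 28) (.e (nat_lit 573449) (nat_lit 9) .nil))))))) (.g (nat_lit 4) .nil .nil))))) (.nd (nat_lit 4) (.nd (nat_lit 5) 
(.lf (nat_lit 11020) (.g (nat_lit 2178) (.e (nat_lit 450) (nat_lit 33) (.e (nat_lit 434180) (nat_lit 0) (.e (nat_lit 1661) (nat_lit 115) (.e (nat_lit 393260) (nat_lit 21) (.e (nat_lit 409617) (nat_lit 10) (.e (nat_lit 7936) (nat_lit 298) .nil)))))) (.g (nat_lit 5) .nil .nil))) 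
(.lf (nat_lit 11052) (.g (nat_lit 4211) (.e (nat_lit 452) (nat_lit 33) (.e (nat_lit 434232) (nat_lit 23) (.e (nat_lit 532550) (nat_lit 12) (.e (nat_lit 360474) (nat_lit 8) (.e (nat_lit 557094) (nat_lit 12) .nil))))) .nil))) (.nd (nat_lit 5) 
(.lf (nat_lit 11036) (.g (nat_lit 5316) (.e (nat_lit 452) (nat_lit 33) (.e (nat_lit 434209) (nat_lit 18) (.e (nat_lit 4605) (nat_lit 269) (.e (nat_lit 1182) (nat_lit 87) (.e (nat_lit 57478) (nat_lit 28) (.e (nat_lit 557098) (nat_lit 13) (.e (nat_lit 172115) (nat_lit 10) (.e (nat_lit 434244) (nat_lit 28) (.e (nat_lit 573450) (nat_lit 9) .nil))))))))) (.g (nat_lit 0) .nil .nil))) 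
(.lf (nat_lit 11068) (.g (nat_lit 1850) (.e (nat_lit 459) (nat_lit 34) (.e (nat_lit 442379) (nat_lit 0) (.e (nat_lit 1855) (nat_lit 124) (.e (nat_lit 557100) (nat_lit 13) (.e (nat_lit 172113) (nat_lit 10) (.e (nat_lit 434245) (nat_lit 28) (.e (nat_lit 573449) (nat_lit 9) .nil))))))) (.g (nat_lit 4) .nil .nil))))))) (.nd (nat_lit 2) (.nd (nat_lit 3) (.nd (nat_lit 4) (.nd (nat_lit 5) 
(.lf (nat_lit 11010) (.g (nat_lit 1694) (.e (nat_lit 447) (nat_lit 33) (.e (nat_lit 434181) (nat_lit 0) (.e (nat_lit 1661) (nat_lit 115) (.e (nat_lit 393260) (nat_lit 21) (.e (nat_lit 409624) (nat_lit 10) .nil))))) .nil)) 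
(.lf (nat_lit 11042) (.g (nat_lit 4863) (.e (nat_lit 452) (nat_lit 33) (.e (nat_lit 434209) (nat_lit 18) (.e (nat_lit 4607) (nat_lit 269) (.e (nat_lit 1182) (nat_lit 87) (.e (nat_lit 57478) (nat_lit 28) (.e (nat_lit 557101) (nat_lit 13) (.e (nat_lit 172115) (nat_lit 10) (.e (nat_lit 434244) (nat_lit 28) (.e (nat_lit 573450) (nat_lit 9) .nil))))))))) (.g (nat_lit 9) .nil .nil)))) (.nd (nat_lit 5) 
(.lf (nat_lit 11026) (.g (nat_lit 2322) (.e (nat_lit 452) (nat_lit 33) (.e (nat_lit 434181) (nat_lit 0) (.e (nat_lit 1661) (nat_lit 115) (.e (nat_lit 393260) (nat_lit 21) (.e (nat_lit 409617) (nat_lit 10) (.e (nat_lit 7936) (nat_lit 298) .nil)))))) (.g (nat_lit 5) .nil .nil))) 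
(.lf (nat_lit 11058) (.g (nat_lit 2391) (.e (nat_lit 457) (nat_lit 34) (.e (nat_lit 442372) (nat_lit 0) (.e (nat_lit 1855) (nat_lit 124) (.e (nat_lit 557100) (nat_lit 13) (.e (nat_lit 172113) (nat_lit 10) (.e (nat_lit 434245) (nat_lit 28) (.e (nat_lit 573449) (nat_lit 9) .nil))))))) (.g (nat_lit 4) .nil .nil))))) (.nd (nat_lit 4) (.nd (nat_lit 5) 
(.lf (nat_lit 11018) (.g (nat_lit 1540) (.e (nat_lit 449) (nat_lit 33) (.e (nat_lit 434180) (nat_lit 0) (.e (nat_lit 1661) (nat_lit 115) (.e (nat_lit 393260) (nat_lit 21) (.e (nat_lit 409617) (nat_lit 10) .nil))))) .nil)) 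
(.lf (nat_lit 11050) (.g (nat_lit 526) (.e (nat_lit 452) (nat_lit 33) (.e (nat_lit 434219) (nat_lit 19) (.e (nat_lit 499952) (nat_lit 14) .nil))) .nil))) (.nd (nat_lit 5) 
(.lf (nat_lit 11034) (.g (nat_lit 3754) (.e (nat_lit 452) (nat_lit 33) (.e (nat_lit 434209) (nat_lit 18) (.e (nat_lit 4605) (nat_lit 269) (.e (nat_lit 1181) (nat_lit 87) (.e (nat_lit 57478) (nat_lit 28) (.e (nat_lit 557098) (nat_lit 13) (.e (nat_lit 172115) (nat_lit 10) (.e (nat_lit 434244) (nat_lit 28) (.e (nat_lit 573450) (nat_lit 9) .nil))))))))) (.g (nat_lit 6) .nil .nil))) 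
(.lf (nat_lit 11066) (.g (nat_lit 2249) (.e (nat_lit 458) (nat_lit 34) (.e (nat_lit 442419) (nat_lit 21) (.e (nat_lit 164196) (nat_lit 158) (.e (nat_lit 1221) (nat_lit 90) (.e (nat_lit 81962) (nat_lit 25) .nil))))) .nil))))) (.nd (nat_lit 3) (.nd (nat_lit 4) (.nd (nat_lit 5) 
(.lf (nat_lit 11014) (.g (nat_lit 1999) (.e (nat_lit 447) (nat_lit 33) (.e (nat_lit 442112) (nat_lit 0) (.e (nat_lit 1661) (nat_lit 115) (.e (nat_lit 393238) (nat_lit 17) (.e (nat_lit 7114) (nat_lit 381) (.e (nat_lit 229645) (nat_lit 232) .nil)))))) (.g (nat_lit 5) .nil .nil))) 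
(.lf (nat_lit 11046) (.g (nat_lit 1210) (.e (nat_lit 452) (nat_lit 33) (.e (nat_lit 434209) (nat_lit 18) (.e (nat_lit 5939) (nat_lit 322) (.e (nat_lit 57448) (nat_lit 19) .nil)))) .nil))) (.nd (nat_lit 5) 
(.lf (nat_lit 11030) (.g (nat_lit 5016) (.e (nat_lit 452) (nat_lit 33) (.e (nat_lit 434202) (nat_lit 18) (.e (nat_lit 4598) (nat_lit 269) (.e (nat_lit 1182) (nat_lit 87) (.e (nat_lit 57478) (nat_lit 28) (.e (nat_lit 557101) (nat_lit 13) (.e (nat_lit 172115) (nat_lit 10) (.e (nat_lit 434244) (nat_lit 28) (.e (nat_lit 573450) (nat_lit 9) .nil))))))))) (.g (nat_lit 0) .nil .nil))) 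
(.lf (nat_lit 11062) (.g (nat_lit 2094) (.e (nat_lit 457) (nat_lit 34) (.e (nat_lit 442379) (nat_lit 0) (.e (nat_lit 1855) (nat_lit 124) (.e (nat_lit 557100) (nat_lit 13) (.e (nat_lit 172113) (nat_lit 10) .nil))))) .nil)))) (.nd (nat_lit 4) (.nd (nat_lit 5) 
(.lf (nat_lit 11022) (.g (nat_lit 2199) (.e (nat_lit 451) (nat_lit 33) (.e (nat_lit 434181) (nat_lit 0) (.e (nat_lit 1661) (nat_lit 115) (.e (nat_lit 393260) (nat_lit 21) (.e (nat_lit 409616) (nat_lit 10) (.e (nat_lit 7936) (nat_lit 298) .nil)))))) (.g (nat_lit 5) .nil .nil))) 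
(.lf (nat_lit 11054) (.g (nat_lit 977) (.e (nat_lit 7936) (nat_lit 33) (.e (nat_lit 434181) (nat_lit 0) (.e (nat_lit 1661) (nat_lit 115) (.e (nat_lit 393242) (nat_lit 17) .nil)))) .nil))) (.nd (nat_lit 5) 
(.lf (nat_lit 11038) (.g (nat_lit 5743) (.e (nat_lit 452) (nat_lit 33) (.e (nat_lit 434209) (nat_lit 18) (.e (nat_lit 4605) (nat_lit 269) (.e (nat_lit 1182) (nat_lit 87) (.e (nat_lit 57479) (nat_lit 28) (.e (nat_lit 557101) (nat_lit 13) (.e (nat_lit 172115) (nat_lit 10) (.e (nat_lit 434244) (nat_lit 28) (.e (nat_lit 573450) (nat_lit 9) .nil))))))))) (.g (nat_lit 9) .nil .nil))) 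
(.lf (nat_lit 11070) (.g (nat_lit 4221) (.e (nat_lit 459) (nat_lit 34) (.e (nat_lit 442419) (nat_lit 21) (.e (nat_lit 164196) (nat_lit 158) (.e (nat_lit 1221) (nat_lit 90) (.e (nat_lit 81953) (nat_lit 22) (.e (nat_lit 98048) (nat_lit 0) .nil)))))) (.g (nat_lit 5) .nil .nil)))))))) (.nd (nat_lit 1) (.nd (nat_lit 2) (.nd (nat_lit 3) (.nd (nat_lit 4) (.nd (nat_lit 5) 
(.lf (nat_lit 11009) (.g (nat_lit 2088) (.e (nat_lit 447) (nat_lit 33) (.e (nat_lit 434181) (nat_lit 0) (.e (nat_lit 1661) (nat_lit 115) (.e (nat_lit 393260) (nat_lit 21) (.e (nat_lit 409617) (nat_lit 10) (.e (nat_lit 7936) (nat_lit 298) .nil)))))) (.g (nat_lit 5) .nil .nil))) 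
(.lf (nat_lit 11041) (.g (nat_lit 4955) (.e (nat_lit 452) (nat_lit 33) (.e (nat_lit 434209) (nat_lit 18) (.e (nat_lit 4607) (nat_lit 269) (.e (nat_lit 1182) (nat_lit 87) (.e (nat_lit 57478) (nat_lit 28) (.e (nat_lit 557098) (nat_lit 13) (.e (nat_lit 172115) (nat_lit 10) (.e (nat_lit 434244) (nat_lit 28) (.e (nat_lit 573450) (nat_lit 9) .nil))))))))) (.g (nat_lit 9) .nil .nil)))) (.nd (nat_lit 5) 
(.lf (nat_lit 11025) (.g (nat_lit 2626) (.e (nat_lit 452) (nat_lit 33) (.e (nat_lit 434181) (nat_lit 0) (.e (nat_lit 1661) (nat_lit 115) (.e (nat_lit 393260) (nat_lit 21) (.e (nat_lit 409616) (nat_lit 10) (.e (nat_lit 7936) (nat_lit 298) .nil)))))) (.g (nat_lit 5) .nil .nil))) 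
(.lf (nat_lit 11057) (.g (nat_lit 2361) (.e (nat_lit 456) (nat_lit 34) (.e (nat_lit 442374) (nat_lit 0) (.e (nat_lit 1856) (nat_lit 124) (.e (nat_lit 557100) (nat_lit 13) (.e (nat_lit 172113) (nat_lit 10) .nil))))) .nil)))) (.nd (nat_lit 4) (.nd (nat_lit 5) 
(.lf (nat_lit 11017) (.g (nat_lit 2346) (.e (nat_lit 448) (nat_lit 33) (.e (nat_lit 434181) (nat_lit 0) (.e (nat_lit 1661) (nat_lit 115) (.e (nat_lit 393260) (nat_lit 21) (.e (nat_lit 409616) (nat_lit 10) (.e (nat_lit 7936) (nat_lit 298) .nil)))))) (.g (nat_lit 5) .nil .nil))) 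
(.lf (nat_lit 11049) (.g (nat_lit 743) (.e (nat_lit 452) (nat_lit 33) (.e (nat_lit 434209) (nat_lit 18) (.e (nat_lit 5951) (nat_lit 322) .nil))) .nil))) (.nd (nat_lit 5) 
(.lf (nat_lit 11033) (.g (nat_lit 762) (.e (nat_lit 452) (nat_lit 33) (.e (nat_lit 434209) (nat_lit 18) (.e (nat_lit 4605) (nat_lit 269) .nil))) .nil)) 
(.lf (nat_lit 11065) (.g (nat_lit 2376) (.e (nat_lit 458) (nat_lit 34) (.e (nat_lit 442419) (nat_lit 21) (.e (nat_lit 164196) (nat_lit 158) (.e (nat_lit 1221) (nat_lit 90) (.e (nat_lit 81953) (nat_lit 22) .nil))))) .nil))))) (.nd (nat_lit 3) (.nd (nat_lit 4) (.nd (nat_lit 5) 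
(.lf (nat_lit 11013) (.g (nat_lit 1988) (.e (nat_lit 447) (nat_lit 33) (.e (nat_lit 442112) (nat_lit 0) (.e (nat_lit 1661) (nat_lit 115) (.e (nat_lit 393238) (nat_lit 17) (.e (nat_lit 7114) (nat_lit 381) (.e (nat_lit 229644) (nat_lit 232) .nil)))))) (.g (nat_lit 5) .nil .nil))) 
(.lf (nat_lit 11045) (.g (nat_lit 3181) (.e (nat_lit 452) (nat_lit 33) (.e (nat_lit 434209) (nat_lit 18) (.e (nat_lit 5939) (nat_lit 322) (.e (nat_lit 57411) (nat_lit 12) (.e (nat_lit 336443) (nat_lit 32) (.e (nat_lit 466977) (nat_lit 22) (.e (nat_lit 196624) (nat_lit 9) .nil))))))) (.g (nat_lit 5) .nil .nil)))) (.nd (nat_lit 5) 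
(.lf (nat_lit 11029) (.g (nat_lit 5108) (.e (nat_lit 452) (nat_lit 33) (.e (nat_lit 434202) (nat_lit 18) (.e (nat_lit 4598) (nat_lit 269) (.e (nat_lit 1182) (nat_lit 87) (.e (nat_lit 57478) (nat_lit 28) (.e (nat_lit 557098) (nat_lit 13) (.e (nat_lit 172115) (nat_lit 10) (.e (nat_lit 434244) (nat_lit 28) (.e (nat_lit 573450) (nat_lit 9) .nil))))))))) (.g (nat_lit 0) .nil .nil))) 
(.lf (nat_lit 11061) (.g (nat_lit 2509) (.e (nat_lit 457) (nat_lit 34) (.e (nat_lit 442374) (nat_lit 0) (.e (nat_lit 1855) (nat_lit 124) (.e (nat_lit 557100) (nat_lit 13) (.e (nat_lit 172113) (nat_lit 10) (.e (nat_lit 434248) (nat_lit 28) (.e (nat_lit 573449) (nat_lit 9) .nil))))))) (.g (nat_lit 4) .nil .nil))))) (.nd (nat_lit 4) (.nd (nat_lit 5) 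
(.lf (nat_lit 11021) (.g (nat_lit 1533) (.e (nat_lit 451) (nat_lit 33) (.e (nat_lit 434180) (nat_lit 0) (.e (nat_lit 1661) (nat_lit 115) (.e (nat_lit 393260) (nat_lit 21) (.e (nat_lit 409617) (nat_lit 10) .nil))))) .nil)) 
(.lf (nat_lit 11053) (.g (nat_lit 2075) (.e (nat_lit 7936) (nat_lit 33) (.e (nat_lit 434180) (nat_lit 0) (.e (nat_lit 1661) (nat_lit 115) (.e (nat_lit 393260) (nat_lit 21) (.e (nat_lit 409625) (nat_lit 10) .nil))))) .nil))) (.nd (nat_lit 5) 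
(.lf (nat_lit 11037) (.g (nat_lit 5224) (.e (nat_lit 452) (nat_lit 33) (.e (nat_lit 434209) (nat_lit 18) (.e (nat_lit 4605) (nat_lit 269) (.e (nat_lit 1182) (nat_lit 87) (.e (nat_lit 57478) (nat_lit 28) (.e (nat_lit 557101) (nat_lit 13) (.e (nat_lit 172115) (nat_lit 10) (.e (nat_lit 434244) (nat_lit 28) (.e (nat_lit 573450) (nat_lit 9) .nil))))))))) (.g (nat_lit 0) .nil .nil))) 
(.lf (nat_lit 11069) (.g (nat_lit 1484) (.e (nat_lit 459) (nat_lit 34) (.e (nat_lit 442419) (nat_lit 21) (.e (nat_lit 164196) (nat_lit 158) (.e (nat_lit 1221) (nat_lit 90) .nil)))) .nil)))))) (.nd (nat_lit 2) (.nd (nat_lit 3) (.nd (nat_lit 4) (.nd (nat_lit 5) 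
(.lf (nat_lit 11011) (.g (nat_lit 2332) (.e (nat_lit 447) (nat_lit 33) (.e (nat_lit 434181) (nat_lit 0) (.e (nat_lit 1661) (nat_lit 115) (.e (nat_lit 393260) (nat_lit 21) (.e (nat_lit 409624) (nat_lit 10) (.e (nat_lit 5264) (nat_lit 298) .nil)))))) (.g (nat_lit 0) .nil .nil))) 
(.lf (nat_lit 11043) (.g (nat_lit 2583) (.e (nat_lit 452) (nat_lit 33) (.e (nat_lit 434209) (nat_lit 18) (.e (nat_lit 5939) (nat_lit 322) (.e (nat_lit 57407) (nat_lit 12) (.e (nat_lit 336443) (nat_lit 32) (.e (nat_lit 466977) (nat_lit 22) (.e (nat_lit 196624) (nat_lit 9) .nil))))))) (.g (nat_lit 4) .nil .nil)))) (.nd (nat_lit 5) 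
(.lf (nat_lit 11027) (.g (nat_lit 3368) (.e (nat_lit 452) (nat_lit 33) (.e (nat_lit 434202) (nat_lit 18) (.e (nat_lit 4598) (nat_lit 269) (.e (nat_lit 1181) (nat_lit 87) (.e (nat_lit 57478) (nat_lit 28) (.e (nat_lit 557098) (nat_lit 13) (.e (nat_lit 172115) (nat_lit 10) (.e (nat_lit 434244) (nat_lit 28) (.e (nat_lit 573450) (nat_lit 9) .nil))))))))) (.g (nat_lit 6) .nil .nil))) 
(.lf (nat_lit 11059) (.g (nat_lit 2246) (.e (nat_lit 457) (nat_lit 34) (.e (nat_lit 442374) (nat_lit 0) (.e (nat_lit 1846) (nat_lit 124) (.e (nat_lit 557100) (nat_lit 13) (.e (nat_lit 172113) (nat_lit 10) .nil))))) .nil)))) (.nd (nat_lit 4) (.nd (nat_lit 5) 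
(.lf (nat_lit 11019) (.g (nat_lit 2419) (.e (nat_lit 450) (nat_lit 33) (.e (nat_lit 434180) (nat_lit 0) (.e (nat_lit 1661) (nat_lit 115) (.e (nat_lit 393260) (nat_lit 21) (.e (nat_lit 409616) (nat_lit 10) (.e (nat_lit 7936) (nat_lit 298) .nil)))))) (.g (nat_lit 5) .nil .nil))) 
(.lf (nat_lit 11051) (.g (nat_lit 2484) (.e (nat_lit 452) (nat_lit 33) (.e (nat_lit 434231) (nat_lit 23) (.e (nat_lit 532500) (nat_lit 1) (.e (nat_lit 57730) (nat_lit 181) .nil)))) .nil))) (.nd (nat_lit 5) 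
(.lf (nat_lit 11035) (.g (nat_lit 4249) (.e (nat_lit 452) (nat_lit 33) (.e (nat_lit 434209) (nat_lit 18) (.e (nat_lit 4605) (nat_lit 269) (.e (nat_lit 1181) (nat_lit 87) (.e (nat_lit 57479) (nat_lit 28) (.e (nat_lit 557095) (nat_lit 13) (.e (nat_lit 172115) (nat_lit 10) (.e (nat_lit 434244) (nat_lit 28) (.e (nat_lit 573450) (nat_lit 9) .nil))))))))) (.g (nat_lit 6) .nil .nil))) 
(.lf (nat_lit 11067) (.g (nat_lit 2654) (.e (nat_lit 459) (nat_lit 34) (.e (nat_lit 442379) (nat_lit 0) (.e (nat_lit 1855) (nat_lit 124) (.e (nat_lit 557100) (nat_lit 13) (.e (nat_lit 172113) (nat_lit 10) (.e (nat_lit 434245) (nat_lit 28) (.e (nat_lit 573448) (nat_lit 9) .nil))))))) (.g (nat_lit 5) .nil .nil)))))) (.nd (nat_lit 3) (.nd (nat_lit 4) (.nd (nat_lit 5) 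
(.lf (nat_lit 11015) (.g (nat_lit 2160) (.e (nat_lit 448) (nat_lit 33) (.e (nat_lit 434180) (nat_lit 0) (.e (nat_lit 1661) (nat_lit 115) (.e (nat_lit 393260) (nat_lit 21) (.e (nat_lit 409616) (nat_lit 10) (.e (nat_lit 7936) (nat_lit 298) .nil)))))) (.g (nat_lit 5) .nil .nil))) 
(.lf (nat_lit 11047) (.g (nat_lit 2427) (.e (nat_lit 452) (nat_lit 33) (.e (nat_lit 434209) (nat_lit 18) (.e (nat_lit 5939) (nat_lit 322) (.e (nat_lit 57448) (nat_lit 19) (.e (nat_lit 393281) (nat_lit 23) (.e (nat_lit 426115) (nat_lit 2) (.e (nat_lit 196624) (nat_lit 9) .nil))))))) (.g (nat_lit 5) .nil .nil)))) (.nd (nat_lit 5) 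
(.lf (nat_lit 11031) (.g (nat_lit 5562) (.e (nat_lit 452) (nat_lit 33) (.e (nat_lit 434202) (nat_lit 18) (.e (nat_lit 4598) (nat_lit 269) (.e (nat_lit 1182) (nat_lit 87) (.e (nat_lit 57479) (nat_lit 28) (.e (nat_lit 557101) (nat_lit 13) (.e (nat_lit 172115) (nat_lit 10) (.e (nat_lit 434244) (nat_lit 28) (.e (nat_lit 573450) (nat_lit 9) .nil))))))))) (.g (nat_lit 9) .nil .nil))) 
(.lf (nat_lit 11063) (.g (nat_lit 3374) (.e (nat_lit 458) (nat_lit 34) (.e (nat_lit 442379) (nat_lit 0) (.e (nat_lit 1856) (nat_lit 124) (.e (nat_lit 557100) (nat_lit 13) (.e (nat_lit 172113) (nat_lit 10) (.e (nat_lit 434245) (nat_lit 28) (.e (nat_lit 573448) (nat_lit 9) .nil))))))) (.g (nat_lit 0) .nil .nil))))) (.nd (nat_lit 4) (.nd (nat_lit 5) 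
(.lf (nat_lit 11023) (.g (nat_lit 2391) (.e (nat_lit 452) (nat_lit 33) (.e (nat_lit 434180) (nat_lit 0) (.e (nat_lit 1661) (nat_lit 115) (.e (nat_lit 393260) (nat_lit 21) (.e (nat_lit 409616) (nat_lit 10) (.e (nat_lit 7936) (nat_lit 298) .nil)))))) (.g (nat_lit 5) .nil .nil))) 
(.lf (nat_lit 11055) (.g (nat_lit 193) (.e (nat_lit 7936) (nat_lit 33) (.e (nat_lit 434198) (nat_lit 17) (.e (nat_lit 237312) (nat_lit 84) .nil))) .nil))) (.nd (nat_lit 5) 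
(.lf (nat_lit 11039) (.g (nat_lit 5419) (.e (nat_lit 452) (nat_lit 33) (.e (nat_lit 434209) (nat_lit 18) (.e (nat_lit 4605) (nat_lit 269) (.e (nat_lit 1182) (nat_lit 87) (.e (nat_lit 57480) (nat_lit 28) (.e (nat_lit 557098) (nat_lit 13) (.e (nat_lit 172115) (nat_lit 10) (.e (nat_lit 434244) (nat_lit 28) (.e (nat_lit 573450) (nat_lit 9) .nil))))))))) (.g (nat_lit 9) .nil .nil))) 
(.lf (nat_lit 11071) (.g (nat_lit 4307) (.e (nat_lit 459) (nat_lit 34) (.e (nat_lit 442421) (nat_lit 21) (.e (nat_lit 164196) (nat_lit 158) (.e (nat_lit 1221) (nat_lit 90) (.e (nat_lit 81953) (nat_lit 22) (.e (nat_lit 98048) (nat_lit 0) .nil)))))) (.g (nat_lit 5) .nil .nil)))))))))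

noncomputable def tv153 : DT := (.nd (nat_lit 0) (.nd (nat_lit 1) (.nd (nat_lit 2) (.nd (nat_lit 3) (.nd (nat_lit 4) (.nd (nat_lit 5) 
(.lf (nat_lit 11072) (.g (nat_lit 2098) (.e (nat_lit 460) (nat_lit 34) (.e (nat_lit 442379) (nat_lit 0) (.e (nat_lit 1855) (nat_lit 124) (.e (nat_lit 557100) (nat_lit 13) (.e (nat_lit 172113) (nat_lit 10) .nil))))) .nil)) 
(.lf (nat_lit 11104) (.g (nat_lit 3859) (.e (nat_lit 479) (nat_lit 37) (.e (nat_lit 466969) (nat_lit 21) (.e (nat_lit 164196) (nat_lit 158) (.e (nat_lit 1221) (nat_lit 90) (.e (nat_lit 81953) (nat_lit 22) (.e (nat_lit 98048) (nat_lit 0) .nil)))))) (.g (nat_lit 5) .nil .nil)))) (.nd (nat_lit 5) 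
(.lf (nat_lit 11088) (.g (nat_lit 1496) (.e (nat_lit 7936) (nat_lit 34) (.e (nat_lit 442421) (nat_lit 21) (.e (nat_lit 164319) (nat_lit 228) (.e (nat_lit 57412) (nat_lit 12) (.e (nat_lit 336176) (nat_lit 10) .nil))))) .nil)) 
(.lf (nat_lit 11120) (.g (nat_lit 1215) (.e (nat_lit 484) (nat_lit 38) (.e (nat_lit 475212) (nat_lit 42) (.e (nat_lit 720956) (nat_lit 25) (.e (nat_lit 114712) (nat_lit 21) (.e (nat_lit 57832) (nat_lit 250) .nil))))) .nil)))) (.nd (nat_lit 4) (.nd (nat_lit 5) 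
(.lf (nat_lit 11080) (.g (nat_lit 2264) (.e (nat_lit 463) (nat_lit 34) (.e (nat_lit 450304) (nat_lit 0) (.e (nat_lit 2031) (nat_lit 140) (.e (nat_lit 688177) (nat_lit 16) (.e (nat_lit 65617) (nat_lit 10) (.e (nat_lit 344161) (nat_lit 37) (.e (nat_lit 655104) (nat_lit 9) .nil))))))) (.g (nat_lit 6) .nil .nil))) 
(.lf (nat_lit 11112) (.g (nat_lit 2303) (.e (nat_lit 481) (nat_lit 37) (.e (nat_lit 466947) (nat_lit 0) (.e (nat_lit 1855) (nat_lit 124) (.e (nat_lit 557100) (nat_lit 13) (.e (nat_lit 172113) (nat_lit 10) .nil))))) .nil))) (.nd (nat_lit 5) 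
(.lf (nat_lit 11096) (.g (nat_lit 2049) (.e (nat_lit 478) (nat_lit 37) (.e (nat_lit 466969) (nat_lit 21) (.e (nat_lit 164196) (nat_lit 158) (.e (nat_lit 1221) (nat_lit 90) (.e (nat_lit 81962) (nat_lit 25) .nil))))) .nil)) 
(.lf (nat_lit 11128) (.g (nat_lit 1865) (.e (nat_lit 492) (nat_lit 39) (.e (nat_lit 483365) (nat_lit 18) (.e (nat_lit 57847) (nat_lit 252) (.e (nat_lit 57368) (nat_lit 1) (.e (nat_lit 57854) (nat_lit 252) .nil))))) .nil))))) (.nd (nat_lit 3) (.nd (nat_lit 4) (.nd (nat_lit 5) 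
(.lf (nat_lit 11076) (.g (nat_lit 499) (.e (nat_lit 461) (nat_lit 34) (.e (nat_lit 442419) (nat_lit 21) (.e (nat_lit 164196) (nat_lit 158) .nil))) .nil)) 
(.lf (nat_lit 11108) (.g (nat_lit 3671) (.e (nat_lit 479) (nat_lit 37) (.e (nat_lit 466971) (nat_lit 21) (.e (nat_lit 164196) (nat_lit 158) (.e (nat_lit 1221) (nat_lit 90) (.e (nat_lit 81953) (nat_lit 22) (.e (nat_lit 98048) (nat_lit 0) .nil)))))) (.g (nat_lit 5) .nil .nil)))) (.nd (nat_lit 5) 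
(.lf (nat_lit 11092) (.g (nat_lit 1514) (.e (nat_lit 7936) (nat_lit 35) (.e (nat_lit 450563) (nat_lit 0) (.e (nat_lit 6740) (nat_lit 365) (.e (nat_lit 1222) (nat_lit 90) (.e (nat_lit 81960) (nat_lit 25) .nil))))) .nil)) 
(.lf (nat_lit 11124) (.g (nat_lit 895) (.e (nat_lit 488) (nat_lit 38) (.e (nat_lit 475179) (nat_lit 24) (.e (nat_lit 524032) (nat_lit 20) .nil))) .nil)))) (.nd (nat_lit 4) (.nd (nat_lit 5) 
(.lf (nat_lit 11084) (.g (nat_lit 2044) (.e (nat_lit 7936) (nat_lit 34) (.e (nat_lit 442374) (nat_lit 0) (.e (nat_lit 1856) (nat_lit 124) (.e (nat_lit 557100) (nat_lit 13) (.e (nat_lit 172113) (nat_lit 10) .nil))))) .nil)) 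
(.lf (nat_lit 11116) (.g (nat_lit 690) (.e (nat_lit 7936) (nat_lit 37) (.e (nat_lit 466971) (nat_lit 21) (.e (nat_lit 164321) (nat_lit 229) (.e (nat_lit 122919) (nat_lit 15) .nil)))) .nil))) (.nd (nat_lit 5) 
(.lf (nat_lit 11100) (.g (nat_lit 1546) (.e (nat_lit 479) (nat_lit 37) (.e (nat_lit 466969) (nat_lit 21) (.e (nat_lit 164195) (nat_lit 158) (.e (nat_lit 1199) (nat_lit 88) (.e (nat_lit 65598) (nat_lit 9) (.e (nat_lit 336013) (nat_lit 2) (.e (nat_lit 98048) (nat_lit 0) .nil))))))) (.g (nat_lit 4) .nil .nil))) 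
(.lf (nat_lit 11132) (.g (nat_lit 891) (.e (nat_lit 492) (nat_lit 39) (.e (nat_lit 483413) (nat_lit 27) (.e (nat_lit 409344) (nat_lit 17) .nil))) .nil)))))) (.nd (nat_lit 2) (.nd (nat_lit 3) (.nd (nat_lit 4) (.nd (nat_lit 5) 
(.lf (nat_lit 11074) (.g (nat_lit 1746) (.e (nat_lit 460) (nat_lit 34) (.e (nat_lit 442419) (nat_lit 21) (.e (nat_lit 164196) (nat_lit 158) (.e (nat_lit 1221) (nat_lit 90) .nil)))) .nil)) 
(.lf (nat_lit 11106) (.g (nat_lit 2565) (.e (nat_lit 479) (nat_lit 37) (.e (nat_lit 466971) (nat_lit 21) (.e (nat_lit 164195) (nat_lit 158) (.e (nat_lit 1221) (nat_lit 90) (.e (nat_lit 81953) (nat_lit 22) (.e (nat_lit 98048) (nat_lit 0) .nil)))))) (.g (nat_lit 5) .nil .nil)))) (.nd (nat_lit 5) 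
(.lf (nat_lit 11090) (.g (nat_lit 131) (.e (nat_lit 469) (nat_lit 35) (.e (nat_lit 450560) (nat_lit 0) (.e (nat_lit 6806) (nat_lit 365) .nil))) .nil)) 
(.lf (nat_lit 11122) (.g (nat_lit 1814) (.e (nat_lit 484) (nat_lit 38) (.e (nat_lit 475214) (nat_lit 42) (.e (nat_lit 720955) (nat_lit 25) (.e (nat_lit 114712) (nat_lit 21) (.e (nat_lit 57832) (nat_lit 250) .nil))))) .nil)))) (.nd (nat_lit 4) (.nd (nat_lit 5) 
(.lf (nat_lit 11082) (.g (nat_lit 591) (.e (nat_lit 463) (nat_lit 34) (.e (nat_lit 442419) (nat_lit 21) (.e (nat_lit 164327) (nat_lit 230) .nil))) .nil)) 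
(.lf (nat_lit 11114) (.g (nat_lit 2225) (.e (nat_lit 7936) (nat_lit 37) (.e (nat_lit 466947) (nat_lit 0) (.e (nat_lit 1855) (nat_lit 124) (.e (nat_lit 557100) (nat_lit 13) (.e (nat_lit 172113) (nat_lit 10) .nil))))) .nil))) (.nd (nat_lit 5) 
(.lf (nat_lit 11098) (.g (nat_lit 2044) (.e (nat_lit 478) (nat_lit 37) (.e (nat_lit 466971) (nat_lit 21) (.e (nat_lit 164196) (nat_lit 158) (.e (nat_lit 1221) (nat_lit 90) (.e (nat_lit 81953) (nat_lit 22) .nil))))) .nil)) 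
(.lf (nat_lit 11130) (.g (nat_lit 1522) (.e (nat_lit 492) (nat_lit 39) (.e (nat_lit 483411) (nat_lit 27) (.e (nat_lit 409344) (nat_lit 17) (.e (nat_lit 90172) (nat_lit 14) (.e (nat_lit 188160) (nat_lit 32) .nil))))) (.g (nat_lit 4) .nil .nil)))))) (.nd (nat_lit 3) (.nd (nat_lit 4) (.nd (nat_lit 5) 
(.lf (nat_lit 11078) (.g (nat_lit 2347) (.e (nat_lit 461) (nat_lit 34) (.e (nat_lit 442421) (nat_lit 21) (.e (nat_lit 164196) (nat_lit 158) (.e (nat_lit 1199) (nat_lit 88) (.e (nat_lit 65598) (nat_lit 9) .nil))))) .nil)) 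
(.lf (nat_lit 11110) (.g (nat_lit 2718) (.e (nat_lit 479) (nat_lit 37) (.e (nat_lit 466972) (nat_lit 21) (.e (nat_lit 164195) (nat_lit 158) (.e (nat_lit 1221) (nat_lit 90) (.e (nat_lit 81953) (nat_lit 22) (.e (nat_lit 98048) (nat_lit 0) .nil)))))) (.g (nat_lit 5) .nil .nil)))) (.nd (nat_lit 5) 
(.lf (nat_lit 11094) (.g (nat_lit 422) (.e (nat_lit 7936) (nat_lit 36) (.e (nat_lit 458769) (nat_lit 16) (.e (nat_lit 171776) (nat_lit 84) (.e (nat_lit 516166) (nat_lit 12) (.e (nat_lit 450587) (nat_lit 10) .nil))))) .nil)) 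
(.lf (nat_lit 11126) (.g (nat_lit 936) (.e (nat_lit 491) (nat_lit 39) (.e (nat_lit 483412) (nat_lit 27) (.e (nat_lit 409344) (nat_lit 17) (.e (nat_lit 90172) (nat_lit 14) (.e (nat_lit 188160) (nat_lit 32) .nil))))) .nil)))) (.nd (nat_lit 4) (.nd (nat_lit 5) 
(.lf (nat_lit 11086) (.g (nat_lit 1499) (.e (nat_lit 7936) (nat_lit 34) (.e (nat_lit 442419) (nat_lit 21) (.e (nat_lit 164321) (nat_lit 229) (.e (nat_lit 122919) (nat_lit 15) (.e (nat_lit 360484) (nat_lit 15) .nil))))) .nil)) 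
(.lf (nat_lit 11118) (.g (nat_lit 706) (.e (nat_lit 7936) (nat_lit 37) (.e (nat_lit 466972) (nat_lit 21) (.e (nat_lit 164320) (nat_lit 229) (.e (nat_lit 122919) (nat_lit 15) .nil)))) .nil))) (.nd (nat_lit 5) 
(.lf (nat_lit 11102) (.g (nat_lit 3154) (.e (nat_lit 479) (nat_lit 37) (.e (nat_lit 466969) (nat_lit 21) (.e (nat_lit 164195) (nat_lit 158) (.e (nat_lit 1221) (nat_lit 90) (.e (nat_lit 81953) (nat_lit 22) (.e (nat_lit 98048) (nat_lit 0) .nil)))))) (.g (nat_lit 5) .nil .nil))) 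
(.lf (nat_lit 11134) (.g (nat_lit 928) (.e (nat_lit 493) (nat_lit 39) (.e (nat_lit 483412) (nat_lit 27) (.e (nat_lit 409344) (nat_lit 17) (.e (nat_lit 90172) (nat_lit 14) (.e (nat_lit 188160) (nat_lit 32) .nil))))) .nil))))))) (.nd (nat_lit 1) (.nd (nat_lit 2) (.nd (nat_lit 3) (.nd (nat_lit 4) (.nd (nat_lit 5) 
(.lf (nat_lit 11073) (.g (nat_lit 2062) (.e (nat_lit 460) (nat_lit 34) (.e (nat_lit 442379) (nat_lit 0) (.e (nat_lit 1856) (nat_lit 124) (.e (nat_lit 557100) (nat_lit 13) (.e (nat_lit 172113) (nat_lit 10) .nil))))) .nil)) 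
(.lf (nat_lit 11105) (.g (nat_lit 2455) (.e (nat_lit 479) (nat_lit 37) (.e (nat_lit 466969) (nat_lit 21) (.e (nat_lit 164196) (nat_lit 158) (.e (nat_lit 1221) (nat_lit 90) (.e (nat_lit 81962) (nat_lit 25) (.e (nat_lit 139264) (nat_lit 0) .nil)))))) (.g (nat_lit 5) .nil .nil)))) (.nd (nat_lit 5) 
(.lf (nat_lit 11089) (.g (nat_lit 747) (.e (nat_lit 7936) (nat_lit 34) (.e (nat_lit 442421) (nat_lit 21) (.e (nat_lit 164321) (nat_lit 229) .nil))) .nil)) 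
(.lf (nat_lit 11121) (.g (nat_lit 1623) (.e (nat_lit 484) (nat_lit 38) (.e (nat_lit 475212) (nat_lit 42) (.e (nat_lit 720956) (nat_lit 25) (.e (nat_lit 114712) (nat_lit 21) (.e (nat_lit 57832) (nat_lit 250) (.e (nat_lit 92) (nat_lit 1) (.e (nat_lit 57809) (nat_lit 246) (.e (nat_lit 57879) (nat_lit 270) .nil)))))))) (.g (nat_lit 5) .nil .nil))))) (.nd (nat_lit 4) (.nd (nat_lit 5) 
(.lf (nat_lit 11081) (.g (nat_lit 857) (.e (nat_lit 463) (nat_lit 34) (.e (nat_lit 442409) (nat_lit 20) (.e (nat_lit 3579) (nat_lit 223) (.e (nat_lit 745489) (nat_lit 4) .nil)))) .nil)) 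
(.lf (nat_lit 11113) (.g (nat_lit 2216) (.e (nat_lit 481) (nat_lit 37) (.e (nat_lit 466947) (nat_lit 0) (.e (nat_lit 1856) (nat_lit 124) (.e (nat_lit 557100) (nat_lit 13) (.e (nat_lit 172113) (nat_lit 10) .nil))))) .nil))) (.nd (nat_lit 5) 
(.lf (nat_lit 11097) (.g (nat_lit 613) (.e (nat_lit 478) (nat_lit 37) (.e (nat_lit 466971) (nat_lit 21) (.e (nat_lit 164196) (nat_lit 158) .nil))) .nil)) 
(.lf (nat_lit 11129) (.g (nat_lit 2122) (.e (nat_lit 492) (nat_lit 39) (.e (nat_lit 483365) (nat_lit 18) (.e (nat_lit 57849) (nat_lit 252) (.e (nat_lit 57368) (nat_lit 1) (.e (nat_lit 57854) (nat_lit 252) .nil))))) .nil))))) (.nd (nat_lit 3) (.nd (nat_lit 4) (.nd (nat_lit 5) 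
(.lf (nat_lit 11077) (.g (nat_lit 2649) (.e (nat_lit 461) (nat_lit 34) (.e (nat_lit 442419) (nat_lit 21) (.e (nat_lit 164196) (nat_lit 158) (.e (nat_lit 1199) (nat_lit 88) (.e (nat_lit 65598) (nat_lit 9) .nil))))) .nil)) 
(.lf (nat_lit 11109) (.g (nat_lit 2236) (.e (nat_lit 479) (nat_lit 37) (.e (nat_lit 466971) (nat_lit 21) (.e (nat_lit 164196) (nat_lit 158) (.e (nat_lit 1221) (nat_lit 90) (.e (nat_lit 81962) (nat_lit 25) (.e (nat_lit 139264) (nat_lit 0) .nil)))))) (.g (nat_lit 4) .nil .nil)))) (.nd (nat_lit 5) 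
(.lf (nat_lit 11093) (.g (nat_lit 486) (.e (nat_lit 7936) (nat_lit 35) (.e (nat_lit 450563) (nat_lit 0) (.e (nat_lit 6808) (nat_lit 365) .nil))) .nil)) 
(.lf (nat_lit 11125) (.g (nat_lit 1528) (.e (nat_lit 491) (nat_lit 39) (.e (nat_lit 483411) (nat_lit 27) (.e (nat_lit 409344) (nat_lit 17) (.e (nat_lit 90172) (nat_lit 14) (.e (nat_lit 188160) (nat_lit 32) .nil))))) (.g (nat_lit 4) .nil .nil))))) (.nd (nat_lit 4) (.nd (nat_lit 5) 
(.lf (nat_lit 11085) (.g (nat_lit 1591) (.e (nat_lit 7936) (nat_lit 34) (.e (nat_lit 442419) (nat_lit 21) (.e (nat_lit 164196) (nat_lit 158) (.e (nat_lit 1221) (nat_lit 90) (.e (nat_lit 81962) (nat_lit 25) .nil))))) .nil)) 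
(.lf (nat_lit 11117) (.g (nat_lit 1480) (.e (nat_lit 7936) (nat_lit 37) (.e (nat_lit 466972) (nat_lit 21) (.e (nat_lit 164297) (nat_lit 226) (.e (nat_lit 1201) (nat_lit 88) (.e (nat_lit 65617) (nat_lit 10) .nil))))) .nil))) (.nd (nat_lit 5) 
(.lf (nat_lit 11101) (.g (nat_lit 2018) (.e (nat_lit 479) (nat_lit 37) (.e (nat_lit 466969) (nat_lit 21) (.e (nat_lit 164195) (nat_lit 158) (.e (nat_lit 1220) (nat_lit 90) (.e (nat_lit 81953) (nat_lit 22) (.e (nat_lit 98048) (nat_lit 0) .nil)))))) (.g (nat_lit 4) .nil .nil))) 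
(.lf (nat_lit 11133) (.g (nat_lit 1351) (.e (nat_lit 493) (nat_lit 39) (.e (nat_lit 483411) (nat_lit 27) (.e (nat_lit 409344) (nat_lit 17) (.e (nat_lit 90172) (nat_lit 14) (.e (nat_lit 188160) (nat_lit 32) .nil))))) (.g (nat_lit 4) .nil .nil))))))) (.nd (nat_lit 2) (.nd (nat_lit 3) (.nd (nat_lit 4) (.nd (nat_lit 5) 
(.lf (nat_lit 11075) (.g (nat_lit 2328) (.e (nat_lit 461) (nat_lit 34) (.e (nat_lit 442379) (nat_lit 0) (.e (nat_lit 1855) (nat_lit 124) (.e (nat_lit 557107) (nat_lit 15) (.e (nat_lit 188440) (nat_lit 20) .nil))))) .nil)) 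
(.lf (nat_lit 11107) (.g (nat_lit 2376) (.e (nat_lit 479) (nat_lit 37) (.e (nat_lit 466971) (nat_lit 21) (.e (nat_lit 164196) (nat_lit 158) (.e (nat_lit 1220) (nat_lit 90) (.e (nat_lit 81953) (nat_lit 22) (.e (nat_lit 98048) (nat_lit 0) .nil)))))) (.g (nat_lit 4) .nil .nil)))) (.nd (nat_lit 5) 
(.lf (nat_lit 11091) (.g (nat_lit 2913) (.e (nat_lit 469) (nat_lit 35) (.e (nat_lit 450564) (nat_lit 0) (.e (nat_lit 6792) (nat_lit 365) (.e (nat_lit 1221) (nat_lit 90) (.e (nat_lit 81953) (nat_lit 22) (.e (nat_lit 98048) (nat_lit 0) .nil)))))) (.g (nat_lit 5) .nil .nil))) 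
(.lf (nat_lit 11123) (.g (nat_lit 1596) (.e (nat_lit 484) (nat_lit 38) (.e (nat_lit 475214) (nat_lit 42) (.e (nat_lit 720956) (nat_lit 25) (.e (nat_lit 114712) (nat_lit 21) (.e (nat_lit 57832) (nat_lit 250) .nil))))) .nil)))) (.nd (nat_lit 4) (.nd (nat_lit 5) 
(.lf (nat_lit 11083) (.g (nat_lit 1590) (.e (nat_lit 463) (nat_lit 34) (.e (nat_lit 442436) (nat_lit 26) (.e (nat_lit 254008) (nat_lit 14) (.e (nat_lit 1359) (nat_lit 102) .nil)))) .nil)) 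
(.lf (nat_lit 11115) (.g (nat_lit 1462) (.e (nat_lit 7936) (nat_lit 37) (.e (nat_lit 466969) (nat_lit 21) (.e (nat_lit 164321) (nat_lit 229) (.e (nat_lit 122919) (nat_lit 15) (.e (nat_lit 360484) (nat_lit 15) .nil))))) .nil))) (.nd (nat_lit 5) 
(.lf (nat_lit 11099) (.g (nat_lit 2078) (.e (nat_lit 479) (nat_lit 37) (.e (nat_lit 466960) (nat_lit 20) (.e (nat_lit 3573) (nat_lit 223) (.e (nat_lit 745491) (nat_lit 4) (.e (nat_lit 65598) (nat_lit 9) (.e (nat_lit 336013) (nat_lit 2) (.e (nat_lit 98048) (nat_lit 0) .nil))))))) (.g (nat_lit 6) .nil .nil))) 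
(.lf (nat_lit 11131) (.g (nat_lit 974) (.e (nat_lit 492) (nat_lit 39) (.e (nat_lit 483412) (nat_lit 27) (.e (nat_lit 409344) (nat_lit 17) (.e (nat_lit 90172) (nat_lit 14) (.e (nat_lit 188160) (nat_lit 32) .nil))))) .nil))))) (.nd (nat_lit 3) (.nd (nat_lit 4) (.nd (nat_lit 5) 
(.lf (nat_lit 11079) (.g (nat_lit 1981) (.e (nat_lit 463) (nat_lit 34) (.e (nat_lit 442379) (nat_lit 0) (.e (nat_lit 1856) (nat_lit 124) (.e (nat_lit 557100) (nat_lit 13) (.e (nat_lit 172113) (nat_lit 10) (.e (nat_lit 434247) (nat_lit 28) (.e (nat_lit 581376) (nat_lit 9) .nil))))))) (.g (nat_lit 4) .nil .nil))) 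
(.lf (nat_lit 11111) (.g (nat_lit 1409) (.e (nat_lit 479) (nat_lit 37) (.e (nat_lit 466972) (nat_lit 21) (.e (nat_lit 164195) (nat_lit 158) (.e (nat_lit 1221) (nat_lit 90) (.e (nat_lit 81962) (nat_lit 25) (.e (nat_lit 139264) (nat_lit 0) .nil)))))) (.g (nat_lit 4) .nil .nil)))) (.nd (nat_lit 5) 
(.lf (nat_lit 11095) (.g (nat_lit 2218) (.e (nat_lit 477) (nat_lit 37) (.e (nat_lit 466947) (nat_lit 0) (.e (nat_lit 1856) (nat_lit 124) (.e (nat_lit 557100) (nat_lit 13) (.e (nat_lit 172113) (nat_lit 10) .nil))))) .nil)) 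
(.lf (nat_lit 11127) (.g (nat_lit 1443) (.e (nat_lit 491) (nat_lit 39) (.e (nat_lit 483413) (nat_lit 27) (.e (nat_lit 409344) (nat_lit 17) (.e (nat_lit 90172) (nat_lit 14) (.e (nat_lit 188160) (nat_lit 32) .nil))))) .nil)))) (.nd (nat_lit 4) (.nd (nat_lit 5) 
(.lf (nat_lit 11087) (.g (nat_lit 1680) (.e (nat_lit 7936) (nat_lit 34) (.e (nat_lit 442421) (nat_lit 21) (.e (nat_lit 164297) (nat_lit 226) (.e (nat_lit 1201) (nat_lit 88) (.e (nat_lit 65617) (nat_lit 10) .nil))))) .nil)) 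
(.lf (nat_lit 11119) (.g (nat_lit 854) (.e (nat_lit 484) (nat_lit 38) (.e (nat_lit 475212) (nat_lit 42) (.e (nat_lit 720955) (nat_lit 25) (.e (nat_lit 114712) (nat_lit 21) .nil)))) .nil))) (.nd (nat_lit 5) 
(.lf (nat_lit 11103) (.g (nat_lit 1749) (.e (nat_lit 479) (nat_lit 37) (.e (nat_lit 466969) (nat_lit 21) (.e (nat_lit 164195) (nat_lit 158) (.e (nat_lit 1221) (nat_lit 90) (.e (nat_lit 81962) (nat_lit 25) (.e (nat_lit 139264) (nat_lit 0) .nil)))))) (.g (nat_lit 4) .nil .nil))) 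
(.lf (nat_lit 11135) (.g (nat_lit 1511) (.e (nat_lit 494) (nat_lit 39) (.e (nat_lit 483363) (nat_lit 18) (.e (nat_lit 57847) (nat_lit 252) (.e (nat_lit 57379) (nat_lit 3) .nil)))) .nil))))))))

noncomputable def tv154 : DT := (.nd (nat_lit 0) (.nd (nat_lit 1) (.nd (nat_lit 2) (.nd (nat_lit 3) (.nd (nat_lit 4) (.nd (nat_lit 5) (.nd (nat_lit 6) 
(.lf (nat_lit 11136) (.g (nat_lit 2328) (.e (nat_lit 494) (nat_lit 39) (.e (nat_lit 483380) (nat_lit 23) (.e (nat_lit 336316) (nat_lit 17) (.e (nat_lit 204544) (nat_lit 19) .nil)))) .nil)) 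
(.lf (nat_lit 11200) (.g (nat_lit 2129) (.e (nat_lit 555) (nat_lit 41) (.e (nat_lit 499919) (nat_lit 9) (.e (nat_lit 172106) (nat_lit 10) (.e (nat_lit 434244) (nat_lit 28) (.e (nat_lit 573450) (nat_lit 9) .nil))))) .nil))) (.nd (nat_lit 6) 
(.lf (nat_lit 11168) (.g (nat_lit 2717) (.e (nat_lit 502) (nat_lit 40) (.e (nat_lit 491540) (nat_lit 3) (.e (nat_lit 98372) (nat_lit 29) (.e (nat_lit 450579) (nat_lit 5) (.e (nat_lit 532501) (nat_lit 1) (.e (nat_lit 57776) (nat_lit 233) (.e (nat_lit 982) (nat_lit 81) .nil))))))) (.g (nat_lit 5) .nil .nil))) 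
(.lf (nat_lit 11232) (.g (nat_lit 1863) (.e (nat_lit 577) (nat_lit 43) (.e (nat_lit 516145) (nat_lit 9) (.e (nat_lit 426428) (nat_lit 17) (.e (nat_lit 90174) (nat_lit 14) .nil)))) .nil)))) (.nd (nat_lit 5) (.nd (nat_lit 6) 
(.lf (nat_lit 11152) (.g (nat_lit 3263) (.e (nat_lit 498) (nat_lit 40) (.e (nat_lit 491537) (nat_lit 2) (.e (nat_lit 90170) (nat_lit 13) (.e (nat_lit 172106) (nat_lit 10) (.e (nat_lit 434231) (nat_lit 23) .nil))))) .nil)) 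
(.lf (nat_lit 11216) (.g (nat_lit 5028) (.e (nat_lit 574) (nat_lit 43) (.e (nat_lit 516166) (nat_lit 12) (.e (nat_lit 450588) (nat_lit 10) (.e (nat_lit 573452) (nat_lit 9) .nil)))) .nil))) (.nd (nat_lit 6) 
(.lf (nat_lit 11184) (.g (nat_lit 1503) (.e (nat_lit 531) (nat_lit 41) (.e (nat_lit 499967) (nat_lit 14) (.e (nat_lit 1586) (nat_lit 111) (.e (nat_lit 360475) (nat_lit 8) (.e (nat_lit 557087) (nat_lit 11) .nil))))) .nil)) 
(.lf (nat_lit 11248) (.g (nat_lit 4904) (.e (nat_lit 577) (nat_lit 43) (.e (nat_lit 516151) (nat_lit 9) (.e (nat_lit 426211) (nat_lit 9) (.e (nat_lit 426125) (nat_lit 2) (.e (nat_lit 196670) (nat_lit 14) .nil))))) .nil))))) (.nd (nat_lit 4) (.nd (nat_lit 5) (.nd (nat_lit 6) 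
(.lf (nat_lit 11144) (.g (nat_lit 2370) (.e (nat_lit 496) (nat_lit 39) (.e (nat_lit 483372) (nat_lit 21) (.e (nat_lit 319504) (nat_lit 10) (.e (nat_lit 618) (nat_lit 48) (.e (nat_lit 564992) (nat_lit 19) (.e (nat_lit 57811) (nat_lit 246) (.e (nat_lit 57879) (nat_lit 270) .nil))))))) (.g (nat_lit 4) .nil .nil))) 
(.lf (nat_lit 11208) (.g (nat_lit 1877) (.e (nat_lit 7936) (nat_lit 41) (.e (nat_lit 500059) (nat_lit 18) (.e (nat_lit 65610) (nat_lit 10) (.e (nat_lit 344129) (nat_lit 26) (.e (nat_lit 557087) (nat_lit 11) .nil))))) .nil))) (.nd (nat_lit 6) 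
(.lf (nat_lit 11176) (.g (nat_lit 1324) (.e (nat_lit 504) (nat_lit 41) (.e (nat_lit 500069) (nat_lit 19) (.e (nat_lit 81664) (nat_lit 32) (.e (nat_lit 2685) (nat_lit 168) (.e (nat_lit 204855) (nat_lit 26) (.e (nat_lit 336061) (nat_lit 7) (.e (nat_lit 327424) (nat_lit 10) .nil))))))) (.g (nat_lit 6) .nil .nil))) 
(.lf (nat_lit 11240) (.g (nat_lit 2971) (.e (nat_lit 577) (nat_lit 43) (.e (nat_lit 516151) (nat_lit 9) (.e (nat_lit 426211) (nat_lit 9) (.e (nat_lit 426125) (nat_lit 2) (.e (nat_lit 196661) (nat_lit 12) (.e (nat_lit 57714) (nat_lit 176) (.e (nat_lit 1340) (nat_lit 101) (.e (nat_lit 278536) (nat_lit 0) .nil)))))))) (.g (nat_lit 4) .nil .nil))))) (.nd (nat_lit 5) (.nd (nat_lit 6) 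
(.lf (nat_lit 11160) (.g (nat_lit 849) (.e (nat_lit 500) (nat_lit 40) (.e (nat_lit 491562) (nat_lit 12) (.e (nat_lit 385094) (nat_lit 49) .nil))) .nil)) 
(.lf (nat_lit 11224) (.g (nat_lit 3012) (.e (nat_lit 576) (nat_lit 43) (.e (nat_lit 516166) (nat_lit 12) (.e (nat_lit 450587) (nat_lit 10) (.e (nat_lit 573456) (nat_lit 9) .nil)))) .nil))) (.nd (nat_lit 6) 
(.lf (nat_lit 11192) (.g (nat_lit 1877) (.e (nat_lit 536) (nat_lit 41) (.e (nat_lit 500059) (nat_lit 18) (.e (nat_lit 65610) (nat_lit 10) (.e (nat_lit 344129) (nat_lit 26) (.e (nat_lit 557087) (nat_lit 11) .nil))))) .nil)) 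
(.lf (nat_lit 11256) (.g (nat_lit 1953) (.e (nat_lit 577) (nat_lit 43) (.e (nat_lit 516151) (nat_lit 9) (.e (nat_lit 426285) (nat_lit 10) (.e (nat_lit 434244) (nat_lit 28) .nil)))) .nil)))))) (.nd (nat_lit 3) (.nd (nat_lit 4) (.nd (nat_lit 5) (.nd (nat_lit 6) 
(.lf (nat_lit 11140) (.g (nat_lit 3606) (.e (nat_lit 496) (nat_lit 39) (.e (nat_lit 483365) (nat_lit 18) (.e (nat_lit 57849) (nat_lit 252) (.e (nat_lit 57377) (nat_lit 3) (.e (nat_lit 98309) (nat_lit 0) .nil))))) .nil)) 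
(.lf (nat_lit 11204) (.g (nat_lit 2158) (.e (nat_lit 558) (nat_lit 41) (.e (nat_lit 499910) (nat_lit 8) (.e (nat_lit 164023) (nat_lit 46) (.e (nat_lit 704737) (nat_lit 11) (.e (nat_lit 24320) (nat_lit 34) .nil))))) .nil))) (.nd (nat_lit 6) 
(.lf (nat_lit 11172) (.g (nat_lit 2621) (.e (nat_lit 502) (nat_lit 40) (.e (nat_lit 491540) (nat_lit 3) (.e (nat_lit 98373) (nat_lit 29) (.e (nat_lit 450587) (nat_lit 10) (.e (nat_lit 573475) (nat_lit 12) (.e (nat_lit 57346) (nat_lit 0) (.e (nat_lit 7404) (nat_lit 396) (.e (nat_lit 985) (nat_lit 81) .nil)))))))) (.g (nat_lit 5) .nil .nil))) 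
(.lf (nat_lit 11236) (.g (nat_lit 2228) (.e (nat_lit 577) (nat_lit 43) (.e (nat_lit 516151) (nat_lit 9) (.e (nat_lit 426211) (nat_lit 9) (.e (nat_lit 426109) (nat_lit 1) .nil)))) .nil)))) (.nd (nat_lit 5) (.nd (nat_lit 6) 
(.lf (nat_lit 11156) (.g (nat_lit 2711) (.e (nat_lit 498) (nat_lit 40) (.e (nat_lit 491568) (nat_lit 13) (.e (nat_lit 393301) (nat_lit 27) (.e (nat_lit 491560) (nat_lit 10) (.e (nat_lit 344094) (nat_lit 18) .nil))))) .nil)) 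
(.lf (nat_lit 11220) (.g (nat_lit 5338) (.e (nat_lit 574) (nat_lit 43) (.e (nat_lit 516166) (nat_lit 12) (.e (nat_lit 450588) (nat_lit 10) (.e (nat_lit 573471) (nat_lit 11) (.e (nat_lit 16425) (nat_lit 7) .nil))))) .nil))) (.nd (nat_lit 6) 
(.lf (nat_lit 11188) (.g (nat_lit 4314) (.e (nat_lit 531) (nat_lit 41) (.e (nat_lit 500059) (nat_lit 18) (.e (nat_lit 65610) (nat_lit 10) (.e (nat_lit 344129) (nat_lit 26) (.e (nat_lit 557087) (nat_lit 11) (.e (nat_lit 24617) (nat_lit 7) (.e (nat_lit 319504) (nat_lit 10) .nil))))))) (.g (nat_lit 7) .nil .nil))) 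
(.lf (nat_lit 11252) (.g (nat_lit 3381) (.e (nat_lit 577) (nat_lit 43) (.e (nat_lit 516151) (nat_lit 9) (.e (nat_lit 426211) (nat_lit 9) (.e (nat_lit 426140) (nat_lit 3) (.e (nat_lit 204821) (nat_lit 17) (.e (nat_lit 6206) (nat_lit 333) (.e (nat_lit 57791) (nat_lit 245) (.e (nat_lit 2494) (nat_lit 157) .nil)))))))) (.g (nat_lit 4) .nil .nil)))))) (.nd (nat_lit 4) (.nd (nat_lit 5) (.nd (nat_lit 6) 
(.lf (nat_lit 11148) (.g (nat_lit 1444) (.e (nat_lit 496) (nat_lit 39) (.e (nat_lit 483376) (nat_lit 22) (.e (nat_lit 327682) (nat_lit 0) (.e (nat_lit 632) (nat_lit 50) (.e (nat_lit 581376) (nat_lit 19) (.e (nat_lit 57809) (nat_lit 246) (.e (nat_lit 57883) (nat_lit 270) .nil))))))) (.g (nat_lit 4) .nil .nil))) 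
(.lf (nat_lit 11212) (.g (nat_lit 3360) (.e (nat_lit 574) (nat_lit 43) (.e (nat_lit 516166) (nat_lit 12) (.e (nat_lit 450586) (nat_lit 10) (.e (nat_lit 573471) (nat_lit 11) .nil)))) .nil))) (.nd (nat_lit 6) 
(.lf (nat_lit 11180) (.g (nat_lit 3039) (.e (nat_lit 511) (nat_lit 41) (.e (nat_lit 500074) (nat_lit 20) (.e (nat_lit 81938) (nat_lit 20) (.e (nat_lit 1842) (nat_lit 123) (.e (nat_lit 548889) (nat_lit 9) (.e (nat_lit 65586) (nat_lit 7) (.e (nat_lit 319500) (nat_lit 10) .nil))))))) (.g (nat_lit 7) .nil .nil))) 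
(.lf (nat_lit 11244) (.g (nat_lit 4794) (.e (nat_lit 577) (nat_lit 43) (.e (nat_lit 516151) (nat_lit 9) (.e (nat_lit 426211) (nat_lit 9) (.e (nat_lit 426125) (nat_lit 2) (.e (nat_lit 196661) (nat_lit 12) (.e (nat_lit 57721) (nat_lit 177) (.e (nat_lit 57791) (nat_lit 245) (.e (nat_lit 2494) (nat_lit 157) .nil)))))))) (.g (nat_lit 5) .nil .nil))))) (.nd (nat_lit 5) (.nd (nat_lit 6) 
(.lf (nat_lit 11164) (.g (nat_lit 3100) (.e (nat_lit 500) (nat_lit 40) (.e (nat_lit 491572) (nat_lit 14) (.e (nat_lit 401459) (nat_lit 13) (.e (nat_lit 483350) (nat_lit 17) (.e (nat_lit 6212) (nat_lit 333) .nil))))) .nil)) 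
(.lf (nat_lit 11228) (.g (nat_lit 4649) (.e (nat_lit 576) (nat_lit 43) (.e (nat_lit 516166) (nat_lit 12) (.e (nat_lit 450588) (nat_lit 10) (.e (nat_lit 573450) (nat_lit 9) .nil)))) .nil))) (.nd (nat_lit 6) 
(.lf (nat_lit 11196) (.g (nat_lit 2050) (.e (nat_lit 540) (nat_lit 41) (.e (nat_lit 500065) (nat_lit 18) (.e (nat_lit 65610) (nat_lit 10) (.e (nat_lit 344129) (nat_lit 26) (.e (nat_lit 557066) (nat_lit 9) .nil))))) .nil)) 
(.lf (nat_lit 11260) (.g (nat_lit 2208) (.e (nat_lit 577) (nat_lit 43) (.e (nat_lit 516151) (nat_lit 9) (.e (nat_lit 426338) (nat_lit 14) (.e (nat_lit 491540) (nat_lit 3) .nil)))) .nil))))))) (.nd (nat_lit 2) (.nd (nat_lit 3) (.nd (nat_lit 4) (.nd (nat_lit 5) (.nd (nat_lit 6) 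
(.lf (nat_lit 11138) (.g (nat_lit 1404) (.e (nat_lit 496) (nat_lit 39) (.e (nat_lit 483363) (nat_lit 18) (.e (nat_lit 57847) (nat_lit 252) (.e (nat_lit 57379) (nat_lit 3) .nil)))) .nil)) 
(.lf (nat_lit 11202) (.g (nat_lit 1336) (.e (nat_lit 555) (nat_lit 41) (.e (nat_lit 499919) (nat_lit 9) (.e (nat_lit 172113) (nat_lit 10) (.e (nat_lit 434245) (nat_lit 28) .nil)))) .nil))) (.nd (nat_lit 6) 
(.lf (nat_lit 11170) (.g (nat_lit 3083) (.e (nat_lit 502) (nat_lit 40) (.e (nat_lit 491540) (nat_lit 3) (.e (nat_lit 98372) (nat_lit 29) (.e (nat_lit 450579) (nat_lit 5) (.e (nat_lit 532504) (nat_lit 1) (.e (nat_lit 57776) (nat_lit 233) (.e (nat_lit 982) (nat_lit 81) .nil))))))) (.g (nat_lit 6) .nil .nil))) 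
(.lf (nat_lit 11234) (.g (nat_lit 949) (.e (nat_lit 577) (nat_lit 43) (.e (nat_lit 516151) (nat_lit 9) (.e (nat_lit 426132) (nat_lit 3) .nil))) .nil)))) (.nd (nat_lit 5) (.nd (nat_lit 6) 
(.lf (nat_lit 11154) (.g (nat_lit 877) (.e (nat_lit 498) (nat_lit 40) (.e (nat_lit 491560) (nat_lit 10) (.e (nat_lit 344117) (nat_lit 21) .nil))) .nil)) 
(.lf (nat_lit 11218) (.g (nat_lit 5043) (.e (nat_lit 574) (nat_lit 43) (.e (nat_lit 516166) (nat_lit 12) (.e (nat_lit 450588) (nat_lit 10) (.e (nat_lit 573470) (nat_lit 11) .nil)))) .nil))) (.nd (nat_lit 6) 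
(.lf (nat_lit 11186) (.g (nat_lit 4087) (.e (nat_lit 531) (nat_lit 41) (.e (nat_lit 499991) (nat_lit 14) (.e (nat_lit 1440) (nat_lit 108) (.e (nat_lit 336176) (nat_lit 10) (.e (nat_lit 344130) (nat_lit 26) (.e (nat_lit 557087) (nat_lit 11) (.e (nat_lit 24617) (nat_lit 7) (.e (nat_lit 319505) (nat_lit 10) .nil)))))))) (.g (nat_lit 0) .nil .nil))) 
(.lf (nat_lit 11250) (.g (nat_lit 4944) (.e (nat_lit 577) (nat_lit 43) (.e (nat_lit 516151) (nat_lit 9) (.e (nat_lit 426211) (nat_lit 9) (.e (nat_lit 426125) (nat_lit 2) (.e (nat_lit 196677) (nat_lit 16) .nil))))) .nil))))) (.nd (nat_lit 4) (.nd (nat_lit 5) (.nd (nat_lit 6) 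
(.lf (nat_lit 11146) (.g (nat_lit 2323) (.e (nat_lit 496) (nat_lit 39) (.e (nat_lit 483372) (nat_lit 21) (.e (nat_lit 319505) (nat_lit 10) (.e (nat_lit 618) (nat_lit 48) (.e (nat_lit 564992) (nat_lit 19) .nil))))) .nil)) 
(.lf (nat_lit 11210) (.g (nat_lit 1297) (.e (nat_lit 574) (nat_lit 43) (.e (nat_lit 516151) (nat_lit 9) (.e (nat_lit 426170) (nat_lit 7) .nil))) .nil))) (.nd (nat_lit 6) 
(.lf (nat_lit 11178) (.g (nat_lit 2427) (.e (nat_lit 511) (nat_lit 41) (.e (nat_lit 500074) (nat_lit 20) (.e (nat_lit 81938) (nat_lit 20) (.e (nat_lit 1841) (nat_lit 123) (.e (nat_lit 548889) (nat_lit 9) (.e (nat_lit 65586) (nat_lit 7) (.e (nat_lit 319500) (nat_lit 10) .nil))))))) (.g (nat_lit 7) .nil .nil))) 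
(.lf (nat_lit 11242) (.g (nat_lit 3117) (.e (nat_lit 577) (nat_lit 43) (.e (nat_lit 516151) (nat_lit 9) (.e (nat_lit 426211) (nat_lit 9) (.e (nat_lit 426125) (nat_lit 2) (.e (nat_lit 196661) (nat_lit 12) (.e (nat_lit 57721) (nat_lit 177) (.e (nat_lit 57787) (nat_lit 245) (.e (nat_lit 2414) (nat_lit 157) .nil)))))))) (.g (nat_lit 4) .nil .nil))))) (.nd (nat_lit 5) (.nd (nat_lit 6) 
(.lf (nat_lit 11162) (.g (nat_lit 2313) (.e (nat_lit 500) (nat_lit 40) (.e (nat_lit 491566) (nat_lit 12) (.e (nat_lit 385093) (nat_lit 49) (.e (nat_lit 778323) (nat_lit 5) (.e (nat_lit 73794) (nat_lit 46) .nil))))) .nil)) 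
(.lf (nat_lit 11226) (.g (nat_lit 3207) (.e (nat_lit 576) (nat_lit 43) (.e (nat_lit 516166) (nat_lit 12) (.e (nat_lit 450587) (nat_lit 10) (.e (nat_lit 573469) (nat_lit 11) .nil)))) .nil))) (.nd (nat_lit 6) 
(.lf (nat_lit 11194) (.g (nat_lit 1988) (.e (nat_lit 539) (nat_lit 41) (.e (nat_lit 500065) (nat_lit 18) (.e (nat_lit 65617) (nat_lit 10) (.e (nat_lit 344130) (nat_lit 26) (.e (nat_lit 557087) (nat_lit 11) .nil))))) .nil)) 
(.lf (nat_lit 11258) (.g (nat_lit 864) (.e (nat_lit 577) (nat_lit 43) (.e (nat_lit 516151) (nat_lit 9) (.e (nat_lit 433920) (nat_lit 10) .nil))) .nil)))))) (.nd (nat_lit 3) (.nd (nat_lit 4) (.nd (nat_lit 5) (.nd (nat_lit 6) 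
(.lf (nat_lit 11142) (.g (nat_lit 2363) (.e (nat_lit 496) (nat_lit 39) (.e (nat_lit 483372) (nat_lit 21) (.e (nat_lit 319504) (nat_lit 10) (.e (nat_lit 618) (nat_lit 48) (.e (nat_lit 564992) (nat_lit 19) (.e (nat_lit 57809) (nat_lit 246) (.e (nat_lit 57879) (nat_lit 270) .nil))))))) (.g (nat_lit 4) .nil .nil))) 
(.lf (nat_lit 11206) (.g (nat_lit 1649) (.e (nat_lit 562) (nat_lit 41) (.e (nat_lit 500070) (nat_lit 19) (.e (nat_lit 73791) (nat_lit 45) (.e (nat_lit 1141) (nat_lit 84) (.e (nat_lit 32787) (nat_lit 9) (.e (nat_lit 65586) (nat_lit 7) (.e (nat_lit 319500) (nat_lit 10) .nil))))))) (.g (nat_lit 7) .nil .nil)))) (.nd (nat_lit 6) 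
(.lf (nat_lit 11174) (.g (nat_lit 1364) (.e (nat_lit 502) (nat_lit 40) (.e (nat_lit 491563) (nat_lit 12) (.e (nat_lit 385102) (nat_lit 50) .nil))) .nil)) 
(.lf (nat_lit 11238) (.g (nat_lit 4632) (.e (nat_lit 577) (nat_lit 43) (.e (nat_lit 516151) (nat_lit 9) (.e (nat_lit 426211) (nat_lit 9) (.e (nat_lit 426125) (nat_lit 2) (.e (nat_lit 196657) (nat_lit 12) .nil))))) .nil)))) (.nd (nat_lit 5) (.nd (nat_lit 6) 
(.lf (nat_lit 11158) (.g (nat_lit 538) (.e (nat_lit 498) (nat_lit 40) (.e (nat_lit 491572) (nat_lit 14) (.e (nat_lit 401459) (nat_lit 13) .nil))) .nil)) 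
(.lf (nat_lit 11222) (.g (nat_lit 1174) (.e (nat_lit 575) (nat_lit 43) (.e (nat_lit 516166) (nat_lit 12) (.e (nat_lit 450587) (nat_lit 10) .nil))) .nil))) (.nd (nat_lit 6) 
(.lf (nat_lit 11190) (.g (nat_lit 4266) (.e (nat_lit 531) (nat_lit 41) (.e (nat_lit 500059) (nat_lit 18) (.e (nat_lit 65619) (nat_lit 10) (.e (nat_lit 344129) (nat_lit 26) (.e (nat_lit 557087) (nat_lit 11) (.e (nat_lit 24617) (nat_lit 7) (.e (nat_lit 319504) (nat_lit 10) .nil))))))) (.g (nat_lit 0) .nil .nil))) 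
(.lf (nat_lit 11254) (.g (nat_lit 3468) (.e (nat_lit 577) (nat_lit 43) (.e (nat_lit 516151) (nat_lit 9) (.e (nat_lit 426211) (nat_lit 9) (.e (nat_lit 426140) (nat_lit 3) (.e (nat_lit 204863) (nat_lit 27) .nil))))) .nil))))) (.nd (nat_lit 4) (.nd (nat_lit 5) (.nd (nat_lit 6) 
(.lf (nat_lit 11150) (.g (nat_lit 647) (.e (nat_lit 496) (nat_lit 39) (.e (nat_lit 483395) (nat_lit 24) (.e (nat_lit 344138) (nat_lit 29) (.e (nat_lit 589568) (nat_lit 19) .nil)))) .nil)) 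
(.lf (nat_lit 11214) (.g (nat_lit 4419) (.e (nat_lit 574) (nat_lit 43) (.e (nat_lit 516166) (nat_lit 12) (.e (nat_lit 450587) (nat_lit 10) (.e (nat_lit 573469) (nat_lit 11) .nil)))) .nil))) (.nd (nat_lit 6) 
(.lf (nat_lit 11182) (.g (nat_lit 2674) (.e (nat_lit 511) (nat_lit 41) (.e (nat_lit 500074) (nat_lit 20) (.e (nat_lit 81943) (nat_lit 20) (.e (nat_lit 1842) (nat_lit 123) (.e (nat_lit 548889) (nat_lit 9) (.e (nat_lit 65586) (nat_lit 7) (.e (nat_lit 319500) (nat_lit 10) .nil))))))) (.g (nat_lit 7) .nil .nil))) 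
(.lf (nat_lit 11246) (.g (nat_lit 4904) (.e (nat_lit 577) (nat_lit 43) (.e (nat_lit 516151) (nat_lit 9) (.e (nat_lit 426211) (nat_lit 9) (.e (nat_lit 426125) (nat_lit 2) (.e (nat_lit 196668) (nat_lit 14) .nil))))) .nil)))) (.nd (nat_lit 5) (.nd (nat_lit 6) 
(.lf (nat_lit 11166) (.g (nat_lit 2296) (.e (nat_lit 502) (nat_lit 40) (.e (nat_lit 491537) (nat_lit 2) (.e (nat_lit 90170) (nat_lit 13) (.e (nat_lit 172106) (nat_lit 10) .nil)))) .nil)) 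
(.lf (nat_lit 11230) (.g (nat_lit 4686) (.e (nat_lit 576) (nat_lit 43) (.e (nat_lit 516166) (nat_lit 12) (.e (nat_lit 450588) (nat_lit 10) (.e (nat_lit 573470) (nat_lit 11) .nil)))) .nil))) (.nd (nat_lit 6) 
(.lf (nat_lit 11198) (.g (nat_lit 2067) (.e (nat_lit 548) (nat_lit 41) (.e (nat_lit 500076) (nat_lit 20) (.e (nat_lit 81956) (nat_lit 23) (.e (nat_lit 98389) (nat_lit 33) .nil)))) .nil)) 
(.lf (nat_lit 11262) (.g (nat_lit 2050) (.e (nat_lit 577) (nat_lit 43) (.e (nat_lit 516163) (nat_lit 11) (.e (nat_lit 442424) (nat_lit 22) (.e (nat_lit 196661) (nat_lit 12) (.e (nat_lit 57721) (nat_lit 177) .nil))))) .nil)))))))) (.nd (nat_lit 1) (.nd (nat_lit 2) (.nd (nat_lit 3) (.nd (nat_lit 4) (.nd (nat_lit 5) (.nd (nat_lit 6) 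
(.lf (nat_lit 11137) (.g (nat_lit 677) (.e (nat_lit 496) (nat_lit 39) (.e (nat_lit 483346) (nat_lit 17) (.e (nat_lit 6445) (nat_lit 343) .nil))) .nil)) 
(.lf (nat_lit 11201) (.g (nat_lit 2304) (.e (nat_lit 555) (nat_lit 41) (.e (nat_lit 499919) (nat_lit 9) (.e (nat_lit 172106) (nat_lit 10) (.e (nat_lit 434244) (nat_lit 28) (.e (nat_lit 573471) (nat_lit 11) .nil))))) .nil))) (.nd (nat_lit 6) 
(.lf (nat_lit 11169) (.g (nat_lit 1661) (.e (nat_lit 502) (nat_lit 40) (.e (nat_lit 491540) (nat_lit 3) (.e (nat_lit 98372) (nat_lit 29) (.e (nat_lit 450579) (nat_lit 5) (.e (nat_lit 532503) (nat_lit 1) .nil))))) .nil)) 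
(.lf (nat_lit 11233) (.g (nat_lit 1704) (.e (nat_lit 577) (nat_lit 43) (.e (nat_lit 516151) (nat_lit 9) (.e (nat_lit 426042) (nat_lit 0) (.e (nat_lit 3307) (nat_lit 202) .nil)))) .nil)))) (.nd (nat_lit 5) (.nd (nat_lit 6) 
(.lf (nat_lit 11153) (.g (nat_lit 2883) (.e (nat_lit 498) (nat_lit 40) (.e (nat_lit 491540) (nat_lit 3) (.e (nat_lit 98373) (nat_lit 29) (.e (nat_lit 450587) (nat_lit 10) (.e (nat_lit 573475) (nat_lit 12) (.e (nat_lit 57345) (nat_lit 0) (.e (nat_lit 7454) (nat_lit 396) (.e (nat_lit 992) (nat_lit 81) .nil)))))))) (.g (nat_lit 6) .nil .nil))) 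
(.lf (nat_lit 11217) (.g (nat_lit 4764) (.e (nat_lit 574) (nat_lit 43) (.e (nat_lit 516166) (nat_lit 12) (.e (nat_lit 450588) (nat_lit 10) (.e (nat_lit 573469) (nat_lit 11) .nil)))) .nil))) (.nd (nat_lit 6) 
(.lf (nat_lit 11185) (.g (nat_lit 4148) (.e (nat_lit 531) (nat_lit 41) (.e (nat_lit 499991) (nat_lit 14) (.e (nat_lit 1440) (nat_lit 108) (.e (nat_lit 336176) (nat_lit 10) (.e (nat_lit 344130) (nat_lit 26) (.e (nat_lit 557087) (nat_lit 11) (.e (nat_lit 24617) (nat_lit 7) (.e (nat_lit 319504) (nat_lit 10) .nil)))))))) (.g (nat_lit 0) .nil .nil))) 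
(.lf (nat_lit 11249) (.g (nat_lit 4979) (.e (nat_lit 577) (nat_lit 43) (.e (nat_lit 516151) (nat_lit 9) (.e (nat_lit 426211) (nat_lit 9) (.e (nat_lit 426125) (nat_lit 2) (.e (nat_lit 196670) (nat_lit 14) (.e (nat_lit 73729) (nat_lit 0) (.e (nat_lit 5185) (nat_lit 293) (.e (nat_lit 8289) (nat_lit 51) .nil)))))))) (.g (nat_lit 4) .nil .nil)))))) (.nd (nat_lit 4) (.nd (nat_lit 5) (.nd (nat_lit 6) 
(.lf (nat_lit 11145) (.g (nat_lit 2488) (.e (nat_lit 496) (nat_lit 39) (.e (nat_lit 483372) (nat_lit 21) (.e (nat_lit 319504) (nat_lit 10) (.e (nat_lit 618) (nat_lit 48) (.e (nat_lit 564992) (nat_lit 19) (.e (nat_lit 57811) (nat_lit 246) (.e (nat_lit 57883) (nat_lit 270) .nil))))))) (.g (nat_lit 4) .nil .nil))) 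
(.lf (nat_lit 11209) (.g (nat_lit 2091) (.e (nat_lit 7936) (nat_lit 41) (.e (nat_lit 500074) (nat_lit 20) (.e (nat_lit 81956) (nat_lit 23) (.e (nat_lit 98389) (nat_lit 33) .nil)))) .nil))) (.nd (nat_lit 6) 
(.lf (nat_lit 11177) (.g (nat_lit 2120) (.e (nat_lit 504) (nat_lit 41) (.e (nat_lit 500074) (nat_lit 20) (.e (nat_lit 81956) (nat_lit 23) (.e (nat_lit 98389) (nat_lit 33) .nil)))) .nil)) 
(.lf (nat_lit 11241) (.g (nat_lit 2972) (.e (nat_lit 577) (nat_lit 43) (.e (nat_lit 516151) (nat_lit 9) (.e (nat_lit 426211) (nat_lit 9) (.e (nat_lit 426125) (nat_lit 2) (.e (nat_lit 196661) (nat_lit 12) (.e (nat_lit 57714) (nat_lit 176) (.e (nat_lit 1342) (nat_lit 101) (.e (nat_lit 286464) (nat_lit 0) .nil)))))))) (.g (nat_lit 4) .nil .nil))))) (.nd (nat_lit 5) (.nd (nat_lit 6) 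
(.lf (nat_lit 11161) (.g (nat_lit 1991) (.e (nat_lit 500) (nat_lit 40) (.e (nat_lit 491566) (nat_lit 12) (.e (nat_lit 385092) (nat_lit 49) (.e (nat_lit 778323) (nat_lit 5) (.e (nat_lit 73794) (nat_lit 46) .nil))))) .nil)) 
(.lf (nat_lit 11225) (.g (nat_lit 2986) (.e (nat_lit 576) (nat_lit 43) (.e (nat_lit 516166) (nat_lit 12) (.e (nat_lit 450587) (nat_lit 10) (.e (nat_lit 573457) (nat_lit 9) .nil)))) .nil))) (.nd (nat_lit 6) 
(.lf (nat_lit 11193) (.g (nat_lit 3870) (.e (nat_lit 536) (nat_lit 41) (.e (nat_lit 500063) (nat_lit 18) (.e (nat_lit 65610) (nat_lit 10) (.e (nat_lit 344129) (nat_lit 26) (.e (nat_lit 557087) (nat_lit 11) (.e (nat_lit 24617) (nat_lit 7) (.e (nat_lit 319504) (nat_lit 10) .nil))))))) (.g (nat_lit 7) .nil .nil))) 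
(.lf (nat_lit 11257) (.g (nat_lit 1924) (.e (nat_lit 577) (nat_lit 43) (.e (nat_lit 516151) (nat_lit 9) (.e (nat_lit 426290) (nat_lit 10) (.e (nat_lit 434244) (nat_lit 28) .nil)))) .nil)))))) (.nd (nat_lit 3) (.nd (nat_lit 4) (.nd (nat_lit 5) (.nd (nat_lit 6) 
(.lf (nat_lit 11141) (.g (nat_lit 822) (.e (nat_lit 496) (nat_lit 39) (.e (nat_lit 483372) (nat_lit 21) (.e (nat_lit 319496) (nat_lit 10) .nil))) .nil)) 
(.lf (nat_lit 11205) (.g (nat_lit 1644) (.e (nat_lit 562) (nat_lit 41) (.e (nat_lit 500070) (nat_lit 19) (.e (nat_lit 73791) (nat_lit 45) (.e (nat_lit 1140) (nat_lit 84) (.e (nat_lit 32787) (nat_lit 9) (.e (nat_lit 65586) (nat_lit 7) (.e (nat_lit 319500) (nat_lit 10) .nil))))))) (.g (nat_lit 7) .nil .nil)))) (.nd (nat_lit 6) 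
(.lf (nat_lit 11173) (.g (nat_lit 2550) (.e (nat_lit 502) (nat_lit 40) (.e (nat_lit 491540) (nat_lit 3) (.e (nat_lit 98373) (nat_lit 29) (.e (nat_lit 450587) (nat_lit 10) (.e (nat_lit 573475) (nat_lit 12) (.e (nat_lit 57346) (nat_lit 0) (.e (nat_lit 7404) (nat_lit 396) (.e (nat_lit 1005) (nat_lit 81) .nil)))))))) (.g (nat_lit 5) .nil .nil))) 
(.lf (nat_lit 11237) (.g (nat_lit 2284) (.e (nat_lit 577) (nat_lit 43) (.e (nat_lit 516151) (nat_lit 9) (.e (nat_lit 426211) (nat_lit 9) (.e (nat_lit 426125) (nat_lit 2) .nil)))) .nil)))) (.nd (nat_lit 5) (.nd (nat_lit 6) 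
(.lf (nat_lit 11157) (.g (nat_lit 4598) (.e (nat_lit 498) (nat_lit 40) (.e (nat_lit 491571) (nat_lit 13) (.e (nat_lit 393260) (nat_lit 21) (.e (nat_lit 409649) (nat_lit 18) (.e (nat_lit 303111) (nat_lit 0) .nil))))) .nil)) 
(.lf (nat_lit 11221) (.g (nat_lit 1272) (.e (nat_lit 575) (nat_lit 43) (.e (nat_lit 516151) (nat_lit 9) (.e (nat_lit 426170) (nat_lit 7) .nil))) .nil))) (.nd (nat_lit 6) 
(.lf (nat_lit 11189) (.g (nat_lit 3975) (.e (nat_lit 531) (nat_lit 41) (.e (nat_lit 500059) (nat_lit 18) (.e (nat_lit 65610) (nat_lit 10) (.e (nat_lit 344129) (nat_lit 26) (.e (nat_lit 557087) (nat_lit 11) (.e (nat_lit 24617) (nat_lit 7) (.e (nat_lit 319505) (nat_lit 10) .nil))))))) (.g (nat_lit 7) .nil .nil))) 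
(.lf (nat_lit 11253) (.g (nat_lit 2962) (.e (nat_lit 577) (nat_lit 43) (.e (nat_lit 516151) (nat_lit 9) (.e (nat_lit 426211) (nat_lit 9) (.e (nat_lit 426140) (nat_lit 3) (.e (nat_lit 204845) (nat_lit 24) .nil))))) .nil))))) (.nd (nat_lit 4) (.nd (nat_lit 5) (.nd (nat_lit 6) 
(.lf (nat_lit 11149) (.g (nat_lit 1281) (.e (nat_lit 496) (nat_lit 39) (.e (nat_lit 483376) (nat_lit 22) (.e (nat_lit 327682) (nat_lit 0) (.e (nat_lit 632) (nat_lit 50) (.e (nat_lit 581376) (nat_lit 19) (.e (nat_lit 57811) (nat_lit 246) (.e (nat_lit 57879) (nat_lit 270) .nil))))))) (.g (nat_lit 4) .nil .nil))) 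
(.lf (nat_lit 11213) (.g (nat_lit 1164) (.e (nat_lit 574) (nat_lit 43) (.e (nat_lit 516166) (nat_lit 12) (.e (nat_lit 450587) (nat_lit 10) .nil))) .nil))) (.nd (nat_lit 6) 
(.lf (nat_lit 11181) (.g (nat_lit 2076) (.e (nat_lit 511) (nat_lit 41) (.e (nat_lit 500074) (nat_lit 20) (.e (nat_lit 81943) (nat_lit 20) (.e (nat_lit 1841) (nat_lit 123) (.e (nat_lit 548889) (nat_lit 9) (.e (nat_lit 65586) (nat_lit 7) (.e (nat_lit 319500) (nat_lit 10) .nil))))))) (.g (nat_lit 7) .nil .nil))) 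
(.lf (nat_lit 11245) (.g (nat_lit 4664) (.e (nat_lit 577) (nat_lit 43) (.e (nat_lit 516151) (nat_lit 9) (.e (nat_lit 426211) (nat_lit 9) (.e (nat_lit 426125) (nat_lit 2) (.e (nat_lit 196667) (nat_lit 14) .nil))))) .nil)))) (.nd (nat_lit 5) (.nd (nat_lit 6) 
(.lf (nat_lit 11165) (.g (nat_lit 3732) (.e (nat_lit 501) (nat_lit 40) (.e (nat_lit 491571) (nat_lit 13) (.e (nat_lit 393260) (nat_lit 21) (.e (nat_lit 409648) (nat_lit 18) .nil)))) .nil)) 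
(.lf (nat_lit 11229) (.g (nat_lit 4672) (.e (nat_lit 576) (nat_lit 43) (.e (nat_lit 516166) (nat_lit 12) (.e (nat_lit 450588) (nat_lit 10) (.e (nat_lit 573452) (nat_lit 9) .nil)))) .nil))) (.nd (nat_lit 6) 
(.lf (nat_lit 11197) (.g (nat_lit 1304) (.e (nat_lit 540) (nat_lit 41) (.e (nat_lit 500065) (nat_lit 18) (.e (nat_lit 65617) (nat_lit 10) (.e (nat_lit 344130) (nat_lit 26) .nil)))) .nil)) 
(.lf (nat_lit 11261) (.g (nat_lit 864) (.e (nat_lit 577) (nat_lit 43) (.e (nat_lit 516151) (nat_lit 9) (.e (nat_lit 433920) (nat_lit 20) .nil))) .nil))))))) (.nd (nat_lit 2) (.nd (nat_lit 3) (.nd (nat_lit 4) (.nd (nat_lit 5) (.nd (nat_lit 6) 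
(.lf (nat_lit 11139) (.g (nat_lit 1390) (.e (nat_lit 496) (nat_lit 39) (.e (nat_lit 483365) (nat_lit 18) (.e (nat_lit 57847) (nat_lit 252) (.e (nat_lit 57379) (nat_lit 3) .nil)))) .nil)) 
(.lf (nat_lit 11203) (.g (nat_lit 1267) (.e (nat_lit 556) (nat_lit 41) (.e (nat_lit 499900) (nat_lit 7) (.e (nat_lit 24651) (nat_lit 12) (.e (nat_lit 392960) (nat_lit 2) .nil)))) .nil))) (.nd (nat_lit 6) 
(.lf (nat_lit 11171) (.g (nat_lit 1952) (.e (nat_lit 502) (nat_lit 40) (.e (nat_lit 491540) (nat_lit 3) (.e (nat_lit 98373) (nat_lit 29) (.e (nat_lit 458496) (nat_lit 3) .nil)))) .nil)) 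
(.lf (nat_lit 11235) (.g (nat_lit 847) (.e (nat_lit 577) (nat_lit 43) (.e (nat_lit 516151) (nat_lit 9) (.e (nat_lit 426211) (nat_lit 9) .nil))) .nil)))) (.nd (nat_lit 5) (.nd (nat_lit 6) 
(.lf (nat_lit 11155) (.g (nat_lit 1334) (.e (nat_lit 498) (nat_lit 40) (.e (nat_lit 491563) (nat_lit 12) (.e (nat_lit 385102) (nat_lit 50) .nil))) .nil)) 
(.lf (nat_lit 11219) (.g (nat_lit 4280) (.e (nat_lit 574) (nat_lit 43) (.e (nat_lit 516166) (nat_lit 12) (.e (nat_lit 450588) (nat_lit 10) (.e (nat_lit 573471) (nat_lit 11) .nil)))) .nil))) (.nd (nat_lit 6) 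
(.lf (nat_lit 11187) (.g (nat_lit 2902) (.e (nat_lit 531) (nat_lit 41) (.e (nat_lit 499991) (nat_lit 14) (.e (nat_lit 1580) (nat_lit 111) (.e (nat_lit 360475) (nat_lit 8) (.e (nat_lit 557087) (nat_lit 11) (.e (nat_lit 24617) (nat_lit 7) (.e (nat_lit 319504) (nat_lit 10) .nil))))))) (.g (nat_lit 5) .nil .nil))) 
(.lf (nat_lit 11251) (.g (nat_lit 3125) (.e (nat_lit 577) (nat_lit 43) (.e (nat_lit 516151) (nat_lit 9) (.e (nat_lit 426211) (nat_lit 9) (.e (nat_lit 426140) (nat_lit 3) (.e (nat_lit 204821) (nat_lit 17) .nil))))) .nil))))) (.nd (nat_lit 4) (.nd (nat_lit 5) (.nd (nat_lit 6) 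
(.lf (nat_lit 11147) (.g (nat_lit 1270) (.e (nat_lit 496) (nat_lit 39) (.e (nat_lit 483376) (nat_lit 22) (.e (nat_lit 327682) (nat_lit 0) (.e (nat_lit 632) (nat_lit 50) (.e (nat_lit 581376) (nat_lit 19) (.e (nat_lit 57809) (nat_lit 246) (.e (nat_lit 57879) (nat_lit 270) .nil))))))) (.g (nat_lit 4) .nil .nil))) 
(.lf (nat_lit 11211) (.g (nat_lit 1224) (.e (nat_lit 574) (nat_lit 43) (.e (nat_lit 516166) (nat_lit 12) (.e (nat_lit 450585) (nat_lit 10) .nil))) .nil))) (.nd (nat_lit 6) 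
(.lf (nat_lit 11179) (.g (nat_lit 2759) (.e (nat_lit 511) (nat_lit 41) (.e (nat_lit 500074) (nat_lit 20) (.e (nat_lit 81938) (nat_lit 20) (.e (nat_lit 1842) (nat_lit 123) (.e (nat_lit 548889) (nat_lit 9) (.e (nat_lit 65583) (nat_lit 7) (.e (nat_lit 319499) (nat_lit 10) .nil))))))) (.g (nat_lit 7) .nil .nil))) 
(.lf (nat_lit 11243) (.g (nat_lit 3072) (.e (nat_lit 577) (nat_lit 43) (.e (nat_lit 516151) (nat_lit 9) (.e (nat_lit 426211) (nat_lit 9) (.e (nat_lit 426125) (nat_lit 2) (.e (nat_lit 196661) (nat_lit 12) (.e (nat_lit 57721) (nat_lit 177) (.e (nat_lit 57787) (nat_lit 245) (.e (nat_lit 2415) (nat_lit 157) .nil)))))))) (.g (nat_lit 4) .nil .nil))))) (.nd (nat_lit 5) (.nd (nat_lit 6) 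
(.lf (nat_lit 11163) (.g (nat_lit 3130) (.e (nat_lit 500) (nat_lit 40) (.e (nat_lit 491566) (nat_lit 12) (.e (nat_lit 385093) (nat_lit 49) (.e (nat_lit 778323) (nat_lit 5) (.e (nat_lit 73794) (nat_lit 46) (.e (nat_lit 57883) (nat_lit 270) .nil)))))) (.g (nat_lit 6) .nil .nil))) 
(.lf (nat_lit 11227) (.g (nat_lit 4259) (.e (nat_lit 576) (nat_lit 43) (.e (nat_lit 516166) (nat_lit 12) (.e (nat_lit 450587) (nat_lit 10) (.e (nat_lit 573471) (nat_lit 11) .nil)))) .nil))) (.nd (nat_lit 6) 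
(.lf (nat_lit 11195) (.g (nat_lit 1267) (.e (nat_lit 540) (nat_lit 41) (.e (nat_lit 500046) (nat_lit 16) (.e (nat_lit 16459) (nat_lit 12) (.e (nat_lit 483072) (nat_lit 2) .nil)))) .nil)) 
(.lf (nat_lit 11259) (.g (nat_lit 875) (.e (nat_lit 577) (nat_lit 43) (.e (nat_lit 516151) (nat_lit 9) (.e (nat_lit 426324) (nat_lit 13) .nil))) .nil)))))) (.nd (nat_lit 3) (.nd (nat_lit 4) (.nd (nat_lit 5) (.nd (nat_lit 6) 
(.lf (nat_lit 11143) (.g (nat_lit 2441) (.e (nat_lit 496) (nat_lit 39) (.e (nat_lit 483372) (nat_lit 21) (.e (nat_lit 319504) (nat_lit 10) (.e (nat_lit 618) (nat_lit 48) (.e (nat_lit 564992) (nat_lit 19) (.e (nat_lit 57809) (nat_lit 246) (.e (nat_lit 57883) (nat_lit 270) .nil))))))) (.g (nat_lit 4) .nil .nil))) 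
(.lf (nat_lit 11207) (.g (nat_lit 2016) (.e (nat_lit 7936) (nat_lit 41) (.e (nat_lit 499969) (nat_lit 14) (.e (nat_lit 1586) (nat_lit 111) (.e (nat_lit 360475) (nat_lit 8) (.e (nat_lit 557087) (nat_lit 11) .nil))))) .nil))) (.nd (nat_lit 6) 
(.lf (nat_lit 11175) (.g (nat_lit 3804) (.e (nat_lit 503) (nat_lit 40) (.e (nat_lit 491571) (nat_lit 13) (.e (nat_lit 393260) (nat_lit 21) (.e (nat_lit 409648) (nat_lit 18) .nil)))) .nil)) 
(.lf (nat_lit 11239) (.g (nat_lit 2958) (.e (nat_lit 577) (nat_lit 43) (.e (nat_lit 516151) (nat_lit 9) (.e (nat_lit 426211) (nat_lit 9) (.e (nat_lit 426125) (nat_lit 2) (.e (nat_lit 196661) (nat_lit 12) .nil))))) .nil)))) (.nd (nat_lit 5) (.nd (nat_lit 6) 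
(.lf (nat_lit 11159) (.g (nat_lit 4880) (.e (nat_lit 500) (nat_lit 40) (.e (nat_lit 491540) (nat_lit 3) (.e (nat_lit 98373) (nat_lit 29) (.e (nat_lit 450587) (nat_lit 10) (.e (nat_lit 573477) (nat_lit 12) .nil))))) .nil)) 
(.lf (nat_lit 11223) (.g (nat_lit 2201) (.e (nat_lit 576) (nat_lit 43) (.e (nat_lit 516165) (nat_lit 12) (.e (nat_lit 450588) (nat_lit 10) (.e (nat_lit 573471) (nat_lit 11) .nil)))) .nil))) (.nd (nat_lit 6) 
(.lf (nat_lit 11191) (.g (nat_lit 3879) (.e (nat_lit 531) (nat_lit 41) (.e (nat_lit 500059) (nat_lit 18) (.e (nat_lit 65619) (nat_lit 10) (.e (nat_lit 344129) (nat_lit 26) (.e (nat_lit 557087) (nat_lit 11) (.e (nat_lit 24617) (nat_lit 7) (.e (nat_lit 319505) (nat_lit 10) .nil))))))) (.g (nat_lit 0) .nil .nil))) 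
(.lf (nat_lit 11255) (.g (nat_lit 2405) (.e (nat_lit 577) (nat_lit 43) (.e (nat_lit 516151) (nat_lit 9) (.e (nat_lit 426211) (nat_lit 9) (.e (nat_lit 426526) (nat_lit 27) .nil)))) .nil))))) (.nd (nat_lit 4) (.nd (nat_lit 5) (.nd (nat_lit 6) 
(.lf (nat_lit 11151) (.g (nat_lit 1727) (.e (nat_lit 497) (nat_lit 39) (.e (nat_lit 483363) (nat_lit 18) (.e (nat_lit 57847) (nat_lit 252) (.e (nat_lit 57368) (nat_lit 1) .nil)))) .nil)) 
(.lf (nat_lit 11215) (.g (nat_lit 5440) (.e (nat_lit 574) (nat_lit 43) (.e (nat_lit 516166) (nat_lit 12) (.e (nat_lit 450588) (nat_lit 10) (.e (nat_lit 573450) (nat_lit 9) .nil)))) .nil))) (.nd (nat_lit 6) 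
(.lf (nat_lit 11183) (.g (nat_lit 2963) (.e (nat_lit 511) (nat_lit 41) (.e (nat_lit 500074) (nat_lit 20) (.e (nat_lit 81956) (nat_lit 23) (.e (nat_lit 98389) (nat_lit 33) (.e (nat_lit 491544) (nat_lit 7) .nil))))) .nil)) 
(.lf (nat_lit 11247) (.g (nat_lit 4904) (.e (nat_lit 577) (nat_lit 43) (.e (nat_lit 516151) (nat_lit 9) (.e (nat_lit 426211) (nat_lit 9) (.e (nat_lit 426125) (nat_lit 2) (.e (nat_lit 196669) (nat_lit 14) .nil))))) .nil)))) (.nd (nat_lit 5) (.nd (nat_lit 6) 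
(.lf (nat_lit 11167) (.g (nat_lit 1614) (.e (nat_lit 502) (nat_lit 40) (.e (nat_lit 491539) (nat_lit 3) (.e (nat_lit 98372) (nat_lit 29) (.e (nat_lit 450579) (nat_lit 5) (.e (nat_lit 532504) (nat_lit 1) .nil))))) .nil)) 
(.lf (nat_lit 11231) (.g (nat_lit 3697) (.e (nat_lit 576) (nat_lit 43) (.e (nat_lit 516166) (nat_lit 12) (.e (nat_lit 450588) (nat_lit 10) (.e (nat_lit 573471) (nat_lit 11) .nil)))) .nil))) (.nd (nat_lit 6) 
(.lf (nat_lit 11199) (.g (nat_lit 2295) (.e (nat_lit 548) (nat_lit 41) (.e (nat_lit 500078) (nat_lit 20) (.e (nat_lit 81956) (nat_lit 23) (.e (nat_lit 98389) (nat_lit 33) .nil)))) .nil)) 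
(.lf (nat_lit 11263) (.g (nat_lit 1287) (.e (nat_lit 577) (nat_lit 43) (.e (nat_lit 516163) (nat_lit 11) (.e (nat_lit 442427) (nat_lit 23) (.e (nat_lit 204821) (nat_lit 17) .nil)))) .nil)))))))))

noncomputable def tv155 : DT := (.nd (nat_lit 0) (.nd (nat_lit 1) (.nd (nat_lit 2) (.nd (nat_lit 3) (.nd (nat_lit 4) (.nd (nat_lit 5) (.nd (nat_lit 6) 
(.lf (nat_lit 11264) (.g (nat_lit 3495) (.e (nat_lit 577) (nat_lit 43) (.e (nat_lit 516165) (nat_lit 12) (.e (nat_lit 450588) (nat_lit 10) (.e (nat_lit 573471) (nat_lit 11) (.e (nat_lit 16425) (nat_lit 7) .nil))))) .nil)) 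
(.lf (nat_lit 11328) (.g (nat_lit 4626) (.e (nat_lit 580) (nat_lit 43) (.e (nat_lit 516151) (nat_lit 9) (.e (nat_lit 426211) (nat_lit 9) (.e (nat_lit 426125) (nat_lit 2) (.e (nat_lit 196681) (nat_lit 17) (.e (nat_lit 131089) (nat_lit 1) (.e (nat_lit 57842) (nat_lit 251) (.e (nat_lit 8288) (nat_lit 51) .nil)))))))) (.g (nat_lit 4) .nil .nil)))) (.nd (nat_lit 6) 
(.lf (nat_lit 11296) (.g (nat_lit 697) (.e (nat_lit 580) (nat_lit 43) (.e (nat_lit 516145) (nat_lit 9) (.e (nat_lit 426428) (nat_lit 17) .nil))) .nil)) 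
(.lf (nat_lit 11360) (.g (nat_lit 1254) (.e (nat_lit 580) (nat_lit 43) (.e (nat_lit 516199) (nat_lit 26) (.e (nat_lit 336203) (nat_lit 12) (.e (nat_lit 392960) (nat_lit 2) .nil)))) .nil)))) (.nd (nat_lit 5) (.nd (nat_lit 6) 
(.lf (nat_lit 11280) (.g (nat_lit 3273) (.e (nat_lit 577) (nat_lit 43) (.e (nat_lit 516166) (nat_lit 12) (.e (nat_lit 450588) (nat_lit 10) (.e (nat_lit 573470) (nat_lit 11) (.e (nat_lit 16425) (nat_lit 7) .nil))))) .nil)) 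
(.lf (nat_lit 11344) (.g (nat_lit 1874) (.e (nat_lit 580) (nat_lit 43) (.e (nat_lit 516151) (nat_lit 9) (.e (nat_lit 426290) (nat_lit 10) (.e (nat_lit 434244) (nat_lit 28) .nil)))) .nil))) (.nd (nat_lit 6) 
(.lf (nat_lit 11312) (.g (nat_lit 2998) (.e (nat_lit 580) (nat_lit 43) (.e (nat_lit 516151) (nat_lit 9) (.e (nat_lit 426211) (nat_lit 9) (.e (nat_lit 426125) (nat_lit 2) (.e (nat_lit 196661) (nat_lit 12) (.e (nat_lit 57721) (nat_lit 177) (.e (nat_lit 57786) (nat_lit 245) (.e (nat_lit 2411) (nat_lit 157) .nil)))))))) (.g (nat_lit 4) .nil .nil))) 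
(.lf (nat_lit 11376) (.g (nat_lit 2712) (.e (nat_lit 584) (nat_lit 43) (.e (nat_lit 516115) (nat_lit 1) (.e (nat_lit 164398) (nat_lit 256) (.e (nat_lit 57388) (nat_lit 5) (.e (nat_lit 114716) (nat_lit 22) .nil))))) .nil))))) (.nd (nat_lit 4) (.nd (nat_lit 5) (.nd (nat_lit 6) 
(.lf (nat_lit 11272) (.g (nat_lit 3537) (.e (nat_lit 577) (nat_lit 43) (.e (nat_lit 516166) (nat_lit 12) (.e (nat_lit 450587) (nat_lit 10) (.e (nat_lit 573469) (nat_lit 11) (.e (nat_lit 16425) (nat_lit 7) .nil))))) .nil)) 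
(.lf (nat_lit 11336) (.g (nat_lit 952) (.e (nat_lit 580) (nat_lit 43) (.e (nat_lit 516151) (nat_lit 9) (.e (nat_lit 426275) (nat_lit 10) .nil))) .nil))) (.nd (nat_lit 6) 
(.lf (nat_lit 11304) (.g (nat_lit 2054) (.e (nat_lit 580) (nat_lit 43) (.e (nat_lit 516151) (nat_lit 9) (.e (nat_lit 426132) (nat_lit 3) (.e (nat_lit 204809) (nat_lit 9) (.e (nat_lit 426139) (nat_lit 3) .nil))))) .nil)) 
(.lf (nat_lit 11368) (.g (nat_lit 5179) (.e (nat_lit 582) (nat_lit 43) (.e (nat_lit 516166) (nat_lit 12) (.e (nat_lit 450588) (nat_lit 10) (.e (nat_lit 573471) (nat_lit 11) .nil)))) .nil)))) (.nd (nat_lit 5) (.nd (nat_lit 6) 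
(.lf (nat_lit 11288) (.g (nat_lit 5438) (.e (nat_lit 579) (nat_lit 43) (.e (nat_lit 516166) (nat_lit 12) (.e (nat_lit 450588) (nat_lit 10) (.e (nat_lit 573471) (nat_lit 11) .nil)))) .nil)) 
(.lf (nat_lit 11352) (.g (nat_lit 844) (.e (nat_lit 580) (nat_lit 43) (.e (nat_lit 516151) (nat_lit 9) (.e (nat_lit 433920) (nat_lit 22) .nil))) .nil))) (.nd (nat_lit 6) 
(.lf (nat_lit 11320) (.g (nat_lit 4647) (.e (nat_lit 580) (nat_lit 43) (.e (nat_lit 516151) (nat_lit 9) (.e (nat_lit 426211) (nat_lit 9) (.e (nat_lit 426125) (nat_lit 2) (.e (nat_lit 196670) (nat_lit 14) .nil))))) .nil)) 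
(.lf (nat_lit 11384) (.g (nat_lit 3003) (.e (nat_lit 584) (nat_lit 43) (.e (nat_lit 516115) (nat_lit 1) (.e (nat_lit 164403) (nat_lit 256) (.e (nat_lit 57388) (nat_lit 5) (.e (nat_lit 114714) (nat_lit 22) (.e (nat_lit 90160) (nat_lit 11) (.e (nat_lit 24617) (nat_lit 7) (.e (nat_lit 319505) (nat_lit 10) .nil)))))))) (.g (nat_lit 5) .nil .nil))))))) 
(.nd (nat_lit 3) (.nd (nat_lit 4) (.nd (nat_lit 5) (.nd (nat_lit 6) 
(.lf (nat_lit 11268) (.g (nat_lit 1006) (.e (nat_lit 577) (nat_lit 43) (.e (nat_lit 516166) (nat_lit 12) (.e (nat_lit 450569) (nat_lit 0) .nil))) .nil)) 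
(.lf (nat_lit 11332) (.g (nat_lit 3302) (.e (nat_lit 580) (nat_lit 43) (.e (nat_lit 516151) (nat_lit 9) (.e (nat_lit 426211) (nat_lit 9) (.e (nat_lit 426140) (nat_lit 3) (.e (nat_lit 204863) (nat_lit 27) (.e (nat_lit 344096) (nat_lit 18) (.e (nat_lit 5185) (nat_lit 293) (.e (nat_lit 8285) (nat_lit 51) .nil)))))))) (.g (nat_lit 4) .nil .nil)))) (.nd (nat_lit 6) 
(.lf (nat_lit 11300) (.g (nat_lit 4656) (.e (nat_lit 580) (nat_lit 43) (.e (nat_lit 516151) (nat_lit 9) (.e (nat_lit 426042) (nat_lit 0) (.e (nat_lit 3307) (nat_lit 202) (.e (nat_lit 573484) (nat_lit 13) (.e (nat_lit 65571) (nat_lit 3) (.e (nat_lit 98320) (nat_lit 17) (.e (nat_lit 3570) (nat_lit 222) (.e (nat_lit 737283) (nat_lit 0) .nil))))))))) (.g (nat_lit 6) .nil .nil))) 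
(.lf (nat_lit 11364) (.g (nat_lit 1862) (.e (nat_lit 581) (nat_lit 43) (.e (nat_lit 516151) (nat_lit 9) (.e (nat_lit 426286) (nat_lit 10) .nil))) .nil)))) (.nd (nat_lit 5) (.nd (nat_lit 6) 
(.lf (nat_lit 11284) (.g (nat_lit 2704) (.e (nat_lit 577) (nat_lit 43) (.e (nat_lit 516166) (nat_lit 12) (.e (nat_lit 450602) (nat_lit 22) (.e (nat_lit 704552) (nat_lit 0) .nil)))) .nil)) 
(.lf (nat_lit 11348) (.g (nat_lit 2754) (.e (nat_lit 580) (nat_lit 43) (.e (nat_lit 516151) (nat_lit 9) (.e (nat_lit 426338) (nat_lit 14) (.e (nat_lit 491537) (nat_lit 2) (.e (nat_lit 90170) (nat_lit 13) .nil))))) .nil))) (.nd (nat_lit 6) 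
(.lf (nat_lit 11316) (.g (nat_lit 4732) (.e (nat_lit 580) (nat_lit 43) (.e (nat_lit 516151) (nat_lit 9) (.e (nat_lit 426211) (nat_lit 9) (.e (nat_lit 426125) (nat_lit 2) (.e (nat_lit 196668) (nat_lit 14) (.e (nat_lit 73733) (nat_lit 0) (.e (nat_lit 5178) (nat_lit 293) (.e (nat_lit 8287) (nat_lit 51) .nil)))))))) (.g (nat_lit 4) .nil .nil))) 
(.lf (nat_lit 11380) (.g (nat_lit 3802) (.e (nat_lit 584) (nat_lit 43) (.e (nat_lit 516115) (nat_lit 1) (.e (nat_lit 164399) (nat_lit 256) (.e (nat_lit 57388) (nat_lit 5) (.e (nat_lit 114716) (nat_lit 22) (.e (nat_lit 90160) (nat_lit 11) (.e (nat_lit 24617) (nat_lit 7) (.e (nat_lit 319505) (nat_lit 10) .nil)))))))) (.g (nat_lit 6) .nil .nil)))))) (.nd (nat_lit 4) (.nd (nat_lit 5) (.nd (nat_lit 6) 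
(.lf (nat_lit 11276) (.g (nat_lit 4188) (.e (nat_lit 577) (nat_lit 43) (.e (nat_lit 516166) (nat_lit 12) (.e (nat_lit 450588) (nat_lit 10) (.e (nat_lit 573457) (nat_lit 9) .nil)))) .nil)) 
(.lf (nat_lit 11340) (.g (nat_lit 4972) (.e (nat_lit 580) (nat_lit 43) (.e (nat_lit 516151) (nat_lit 9) (.e (nat_lit 426285) (nat_lit 10) (.e (nat_lit 434238) (nat_lit 25) (.e (nat_lit 548913) (nat_lit 18) (.e (nat_lit 172082) (nat_lit 7) (.e (nat_lit 417536) (nat_lit 10) .nil))))))) (.g (nat_lit 6) .nil .nil)))) (.nd (nat_lit 6) 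
(.lf (nat_lit 11308) (.g (nat_lit 1646) (.e (nat_lit 580) (nat_lit 43) (.e (nat_lit 516151) (nat_lit 9) (.e (nat_lit 426170) (nat_lit 7) (.e (nat_lit 409631) (nat_lit 12) .nil)))) .nil)) 
(.lf (nat_lit 11372) (.g (nat_lit 1297) (.e (nat_lit 583) (nat_lit 43) (.e (nat_lit 516151) (nat_lit 9) (.e (nat_lit 426170) (nat_lit 7) .nil))) .nil)))) (.nd (nat_lit 5) (.nd (nat_lit 6) 
(.lf (nat_lit 11292) (.g (nat_lit 2134) (.e (nat_lit 580) (nat_lit 43) (.e (nat_lit 516106) (nat_lit 0) (.e (nat_lit 3537) (nat_lit 218) (.e (nat_lit 704738) (nat_lit 11) (.e (nat_lit 24320) (nat_lit 34) .nil))))) .nil)) 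
(.lf (nat_lit 11356) (.g (nat_lit 820) (.e (nat_lit 580) (nat_lit 43) (.e (nat_lit 516166) (nat_lit 12) (.e (nat_lit 450588) (nat_lit 10) .nil))) .nil))) (.nd (nat_lit 6) 
(.lf (nat_lit 11324) (.g (nat_lit 5366) (.e (nat_lit 580) (nat_lit 43) (.e (nat_lit 516151) (nat_lit 9) (.e (nat_lit 426211) (nat_lit 9) (.e (nat_lit 426125) (nat_lit 2) (.e (nat_lit 196670) (nat_lit 14) (.e (nat_lit 73732) (nat_lit 0) (.e (nat_lit 5181) (nat_lit 293) (.e (nat_lit 8287) (nat_lit 51) .nil)))))))) (.g (nat_lit 5) .nil .nil))) 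
(.lf (nat_lit 11388) (.g (nat_lit 2594) (.e (nat_lit 584) (nat_lit 43) (.e (nat_lit 516117) (nat_lit 1) (.e (nat_lit 164398) (nat_lit 256) (.e (nat_lit 57388) (nat_lit 5) (.e (nat_lit 114716) (nat_lit 22) .nil))))) .nil))))))) (.nd (nat_lit 2) (.nd (nat_lit 3) (.nd (nat_lit 4) (.nd (nat_lit 5) (.nd (nat_lit 6) 
(.lf (nat_lit 11266) (.g (nat_lit 2800) (.e (nat_lit 577) (nat_lit 43) (.e (nat_lit 516166) (nat_lit 12) (.e (nat_lit 450563) (nat_lit 0) (.e (nat_lit 4168) (nat_lit 251) .nil)))) .nil)) 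
(.lf (nat_lit 11330) (.g (nat_lit 2899) (.e (nat_lit 580) (nat_lit 43) (.e (nat_lit 516151) (nat_lit 9) (.e (nat_lit 426211) (nat_lit 9) (.e (nat_lit 426140) (nat_lit 3) (.e (nat_lit 204821) (nat_lit 17) .nil))))) .nil))) (.nd (nat_lit 6) 
(.lf (nat_lit 11298) (.g (nat_lit 2517) (.e (nat_lit 580) (nat_lit 43) (.e (nat_lit 516145) (nat_lit 9) (.e (nat_lit 426428) (nat_lit 17) (.e (nat_lit 90174) (nat_lit 14) (.e (nat_lit 180243) (nat_lit 5) .nil))))) .nil)) 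
(.lf (nat_lit 11362) (.g (nat_lit 491) (.e (nat_lit 581) (nat_lit 43) (.e (nat_lit 516131) (nat_lit 3) (.e (nat_lit 229120) (nat_lit 18) .nil))) .nil)))) (.nd (nat_lit 5) (.nd (nat_lit 6) 
(.lf (nat_lit 11282) (.g (nat_lit 3561) (.e (nat_lit 577) (nat_lit 43) (.e (nat_lit 516166) (nat_lit 12) (.e (nat_lit 450588) (nat_lit 10) (.e (nat_lit 573470) (nat_lit 11) (.e (nat_lit 16430) (nat_lit 8) .nil))))) .nil)) 
(.lf (nat_lit 11346) (.g (nat_lit 1218) (.e (nat_lit 580) (nat_lit 43) (.e (nat_lit 516151) (nat_lit 9) (.e (nat_lit 426331) (nat_lit 13) (.e (nat_lit 483337) (nat_lit 9) .nil)))) .nil))) (.nd (nat_lit 6) 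
(.lf (nat_lit 11314) (.g (nat_lit 4408) (.e (nat_lit 580) (nat_lit 43) (.e (nat_lit 516151) (nat_lit 9) (.e (nat_lit 426211) (nat_lit 9) (.e (nat_lit 426125) (nat_lit 2) (.e (nat_lit 196667) (nat_lit 14) .nil))))) .nil)) 
(.lf (nat_lit 11378) (.g (nat_lit 2336) (.e (nat_lit 584) (nat_lit 43) (.e (nat_lit 516115) (nat_lit 1) (.e (nat_lit 164398) (nat_lit 256) (.e (nat_lit 57390) (nat_lit 5) (.e (nat_lit 114715) (nat_lit 22) .nil))))) .nil))))) (.nd (nat_lit 4) (.nd (nat_lit 5) (.nd (nat_lit 6) 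
(.lf (nat_lit 11274) (.g (nat_lit 2888) (.e (nat_lit 577) (nat_lit 43) (.e (nat_lit 516166) (nat_lit 12) (.e (nat_lit 450588) (nat_lit 10) (.e (nat_lit 573452) (nat_lit 9) .nil)))) .nil)) 
(.lf (nat_lit 11338) (.g (nat_lit 2222) (.e (nat_lit 580) (nat_lit 43) (.e (nat_lit 516151) (nat_lit 9) (.e (nat_lit 426285) (nat_lit 10) (.e (nat_lit 434238) (nat_lit 25) .nil)))) .nil))) (.nd (nat_lit 6) 
(.lf (nat_lit 11306) (.g (nat_lit 1986) (.e (nat_lit 580) (nat_lit 43) (.e (nat_lit 516151) (nat_lit 9) (.e (nat_lit 426132) (nat_lit 3) (.e (nat_lit 204838) (nat_lit 20) (.e (nat_lit 114716) (nat_lit 22) .nil))))) .nil)) 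
(.lf (nat_lit 11370) (.g (nat_lit 2035) (.e (nat_lit 583) (nat_lit 43) (.e (nat_lit 516131) (nat_lit 3) (.e (nat_lit 221212) (nat_lit 22) (.e (nat_lit 196668) (nat_lit 14) (.e (nat_lit 73747) (nat_lit 3) .nil))))) .nil)))) (.nd (nat_lit 5) (.nd (nat_lit 6) 
(.lf (nat_lit 11290) (.g (nat_lit 743) (.e (nat_lit 580) (nat_lit 43) (.e (nat_lit 516106) (nat_lit 0) (.e (nat_lit 3537) (nat_lit 218) .nil))) .nil)) 
(.lf (nat_lit 11354) (.g (nat_lit 764) (.e (nat_lit 580) (nat_lit 43) (.e (nat_lit 516166) (nat_lit 12) (.e (nat_lit 450587) (nat_lit 10) .nil))) .nil))) (.nd (nat_lit 6) 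
(.lf (nat_lit 11322) (.g (nat_lit 5738) (.e (nat_lit 580) (nat_lit 43) (.e (nat_lit 516151) (nat_lit 9) (.e (nat_lit 426211) (nat_lit 9) (.e (nat_lit 426125) (nat_lit 2) (.e (nat_lit 196670) (nat_lit 14) (.e (nat_lit 73729) (nat_lit 0) (.e (nat_lit 5185) (nat_lit 293) (.e (nat_lit 8289) (nat_lit 51) .nil)))))))) (.g (nat_lit 5) .nil .nil))) 
(.lf (nat_lit 11386) (.g (nat_lit 3002) (.e (nat_lit 584) (nat_lit 43) (.e (nat_lit 516115) (nat_lit 1) (.e (nat_lit 164403) (nat_lit 256) (.e (nat_lit 57389) (nat_lit 5) (.e (nat_lit 114714) (nat_lit 22) (.e (nat_lit 90160) (nat_lit 11) (.e (nat_lit 24617) (nat_lit 7) (.e (nat_lit 319505) (nat_lit 10) .nil)))))))) (.g (nat_lit 5) .nil .nil))))))) 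
(.nd (nat_lit 3) (.nd (nat_lit 4) (.nd (nat_lit 5) (.nd (nat_lit 6) 
(.lf (nat_lit 11270) (.g (nat_lit 2614) (.e (nat_lit 577) (nat_lit 43) (.e (nat_lit 516166) (nat_lit 12) (.e (nat_lit 450587) (nat_lit 10) (.e (nat_lit 573456) (nat_lit 9) (.e (nat_lit 430) (nat_lit 32) .nil))))) .nil)) 
(.lf (nat_lit 11334) (.g (nat_lit 2134) (.e (nat_lit 580) (nat_lit 43) (.e (nat_lit 516151) (nat_lit 9) (.e (nat_lit 426211) (nat_lit 9) (.e (nat_lit 433920) (nat_lit 34) .nil)))) .nil))) (.nd (nat_lit 6) 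
(.lf (nat_lit 11302) (.g (nat_lit 2294) (.e (nat_lit 580) (nat_lit 43) (.e (nat_lit 516151) (nat_lit 9) (.e (nat_lit 426042) (nat_lit 0) (.e (nat_lit 3307) (nat_lit 202) (.e (nat_lit 573489) (nat_lit 14) .nil))))) .nil)) 
(.lf (nat_lit 11366) (.g (nat_lit 2035) (.e (nat_lit 582) (nat_lit 43) (.e (nat_lit 516131) (nat_lit 3) (.e (nat_lit 221212) (nat_lit 22) (.e (nat_lit 196668) (nat_lit 14) (.e (nat_lit 73747) (nat_lit 3) .nil))))) .nil)))) (.nd (nat_lit 5) (.nd (nat_lit 6) 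
(.lf (nat_lit 11286) (.g (nat_lit 2152) (.e (nat_lit 578) (nat_lit 43) (.e (nat_lit 516151) (nat_lit 9) (.e (nat_lit 426286) (nat_lit 10) .nil))) .nil)) 
(.lf (nat_lit 11350) (.g (nat_lit 887) (.e (nat_lit 580) (nat_lit 43) (.e (nat_lit 516151) (nat_lit 9) (.e (nat_lit 426412) (nat_lit 15) .nil))) .nil))) (.nd (nat_lit 6) 
(.lf (nat_lit 11318) (.g (nat_lit 4692) (.e (nat_lit 580) (nat_lit 43) (.e (nat_lit 516151) (nat_lit 9) (.e (nat_lit 426211) (nat_lit 9) (.e (nat_lit 426125) (nat_lit 2) (.e (nat_lit 196668) (nat_lit 14) (.e (nat_lit 73733) (nat_lit 0) (.e (nat_lit 5178) (nat_lit 293) (.e (nat_lit 8289) (nat_lit 51) .nil)))))))) (.g (nat_lit 4) .nil .nil))) 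
(.lf (nat_lit 11382) (.g (nat_lit 4905) (.e (nat_lit 584) (nat_lit 43) (.e (nat_lit 516115) (nat_lit 1) (.e (nat_lit 164399) (nat_lit 256) (.e (nat_lit 57390) (nat_lit 5) (.e (nat_lit 114716) (nat_lit 22) (.e (nat_lit 90160) (nat_lit 11) (.e (nat_lit 24617) (nat_lit 7) (.e (nat_lit 319505) (nat_lit 10) .nil)))))))) (.g (nat_lit 0) .nil .nil)))))) (.nd (nat_lit 4) (.nd (nat_lit 5) (.nd (nat_lit 6) 
(.lf (nat_lit 11278) (.g (nat_lit 3809) (.e (nat_lit 577) (nat_lit 43) (.e (nat_lit 516166) (nat_lit 12) (.e (nat_lit 450588) (nat_lit 10) (.e (nat_lit 573469) (nat_lit 11) (.e (nat_lit 16430) (nat_lit 8) .nil))))) .nil)) 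
(.lf (nat_lit 11342) (.g (nat_lit 3800) (.e (nat_lit 580) (nat_lit 43) (.e (nat_lit 516151) (nat_lit 9) (.e (nat_lit 426285) (nat_lit 10) (.e (nat_lit 434248) (nat_lit 28) (.e (nat_lit 573450) (nat_lit 9) .nil))))) .nil))) (.nd (nat_lit 6) 
(.lf (nat_lit 11310) (.g (nat_lit 627) (.e (nat_lit 580) (nat_lit 43) (.e (nat_lit 516151) (nat_lit 9) (.e (nat_lit 426211) (nat_lit 9) .nil))) .nil)) 
(.lf (nat_lit 11374) (.g (nat_lit 5431) (.e (nat_lit 583) (nat_lit 43) (.e (nat_lit 516166) (nat_lit 12) (.e (nat_lit 450588) (nat_lit 10) (.e (nat_lit 573450) (nat_lit 9) .nil)))) .nil)))) (.nd (nat_lit 5) (.nd (nat_lit 6) 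
(.lf (nat_lit 11294) (.g (nat_lit 1339) (.e (nat_lit 580) (nat_lit 43) (.e (nat_lit 516115) (nat_lit 1) (.e (nat_lit 164190) (nat_lit 157) (.e (nat_lit 229405) (nat_lit 12) .nil)))) .nil)) 
(.lf (nat_lit 11358) (.g (nat_lit 3332) (.e (nat_lit 580) (nat_lit 43) (.e (nat_lit 516166) (nat_lit 12) (.e (nat_lit 450588) (nat_lit 10) (.e (nat_lit 573470) (nat_lit 11) .nil)))) .nil))) (.nd (nat_lit 6) 
(.lf (nat_lit 11326) (.g (nat_lit 5386) (.e (nat_lit 580) (nat_lit 43) (.e (nat_lit 516151) (nat_lit 9) (.e (nat_lit 426211) (nat_lit 9) (.e (nat_lit 426125) (nat_lit 2) (.e (nat_lit 196670) (nat_lit 14) (.e (nat_lit 73732) (nat_lit 0) (.e (nat_lit 5181) (nat_lit 293) (.e (nat_lit 8289) (nat_lit 51) .nil)))))))) (.g (nat_lit 5) .nil .nil))) 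
(.lf (nat_lit 11390) (.g (nat_lit 2610) (.e (nat_lit 584) (nat_lit 43) (.e (nat_lit 516117) (nat_lit 1) (.e (nat_lit 164398) (nat_lit 256) (.e (nat_lit 57389) (nat_lit 5) (.e (nat_lit 114714) (nat_lit 22) (.e (nat_lit 90160) (nat_lit 11) (.e (nat_lit 24617) (nat_lit 7) (.e (nat_lit 319505) (nat_lit 10) .nil)))))))) (.g (nat_lit 4) .nil .nil))))))))) 
(.nd (nat_lit 1) (.nd (nat_lit 2) (.nd (nat_lit 3) (.nd (nat_lit 4) (.nd (nat_lit 5) 
(.nd (nat_lit 6) 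
(.lf (nat_lit 11265) (.g (nat_lit 3049) (.e (nat_lit 577) (nat_lit 43) (.e (nat_lit 516166) (nat_lit 12) (.e (nat_lit 450562) (nat_lit 0) (.e (nat_lit 4168) (nat_lit 251) .nil)))) .nil)) 
(.lf (nat_lit 11329) (.g (nat_lit 2032) (.e (nat_lit 580) (nat_lit 43) (.e (nat_lit 516151) (nat_lit 9) (.e (nat_lit 426211) (nat_lit 9) (.e (nat_lit 426140) (nat_lit 3) .nil)))) .nil))) (.nd (nat_lit 6) 
(.lf (nat_lit 11297) (.g (nat_lit 1914) (.e (nat_lit 580) (nat_lit 43) (.e (nat_lit 516145) (nat_lit 9) (.e (nat_lit 426428) (nat_lit 17) (.e (nat_lit 90170) (nat_lit 13) .nil)))) .nil)) 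
(.lf (nat_lit 11361) (.g (nat_lit 1539) (.e (nat_lit 581) (nat_lit 43) (.e (nat_lit 516119) (nat_lit 1) (.e (nat_lit 164403) (nat_lit 256) (.e (nat_lit 57389) (nat_lit 5) .nil)))) .nil)))) (.nd (nat_lit 5) (.nd (nat_lit 6) 
(.lf (nat_lit 11281) (.g (nat_lit 3670) (.e (nat_lit 577) (nat_lit 43) (.e (nat_lit 516166) (nat_lit 12) (.e (nat_lit 450588) (nat_lit 10) (.e (nat_lit 573470) (nat_lit 11) (.e (nat_lit 16429) (nat_lit 8) .nil))))) .nil)) 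
(.lf (nat_lit 11345) (.g (nat_lit 1445) (.e (nat_lit 580) (nat_lit 43) (.e (nat_lit 516151) (nat_lit 9) (.e (nat_lit 426295) (nat_lit 11) (.e (nat_lit 458789) (nat_lit 23) .nil)))) .nil))) (.nd (nat_lit 6) 
(.lf (nat_lit 11313) (.g (nat_lit 3013) (.e (nat_lit 580) (nat_lit 43) (.e (nat_lit 516151) (nat_lit 9) (.e (nat_lit 426211) (nat_lit 9) (.e (nat_lit 426125) (nat_lit 2) (.e (nat_lit 196661) (nat_lit 12) (.e (nat_lit 57721) (nat_lit 177) (.e (nat_lit 57786) (nat_lit 245) (.e (nat_lit 2412) (nat_lit 157) .nil)))))))) (.g (nat_lit 4) .nil .nil))) 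
(.lf (nat_lit 11377) (.g (nat_lit 2729) (.e (nat_lit 584) (nat_lit 43) (.e (nat_lit 516115) (nat_lit 1) (.e (nat_lit 164398) (nat_lit 256) (.e (nat_lit 57389) (nat_lit 5) (.e (nat_lit 114716) (nat_lit 22) (.e (nat_lit 90160) (nat_lit 11) (.e (nat_lit 24617) (nat_lit 7) (.e (nat_lit 319504) (nat_lit 10) .nil)))))))) (.g (nat_lit 4) .nil .nil)))))) (.nd (nat_lit 4) (.nd (nat_lit 5) (.nd (nat_lit 6) 
(.lf (nat_lit 11273) (.g (nat_lit 5103) (.e (nat_lit 577) (nat_lit 43) (.e (nat_lit 516166) (nat_lit 12) (.e (nat_lit 450588) (nat_lit 10) (.e (nat_lit 573450) (nat_lit 9) .nil)))) .nil)) 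
(.lf (nat_lit 11337) (.g (nat_lit 2038) (.e (nat_lit 580) (nat_lit 43) (.e (nat_lit 516151) (nat_lit 9) (.e (nat_lit 426285) (nat_lit 10) (.e (nat_lit 434227) (nat_lit 20) .nil)))) .nil))) (.nd (nat_lit 6) 
(.lf (nat_lit 11305) (.g (nat_lit 1592) (.e (nat_lit 580) (nat_lit 43) (.e (nat_lit 516151) (nat_lit 9) (.e (nat_lit 426132) (nat_lit 3) (.e (nat_lit 212736) (nat_lit 16) .nil)))) .nil)) 
(.lf (nat_lit 11369) (.g (nat_lit 1959) (.e (nat_lit 583) (nat_lit 43) (.e (nat_lit 516129) (nat_lit 3) (.e (nat_lit 221210) (nat_lit 22) (.e (nat_lit 196668) (nat_lit 14) (.e (nat_lit 73747) (nat_lit 3) .nil))))) .nil)))) (.nd (nat_lit 5) (.nd (nat_lit 6) 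
(.lf (nat_lit 11289) (.g (nat_lit 2323) (.e (nat_lit 580) (nat_lit 43) (.e (nat_lit 516106) (nat_lit 0) (.e (nat_lit 2478) (nat_lit 157) (.e (nat_lit 6428) (nat_lit 342) (.e (nat_lit 229405) (nat_lit 12) (.e (nat_lit 426565) (nat_lit 34) (.e (nat_lit 393264) (nat_lit 22) (.e (nat_lit 417795) (nat_lit 0) .nil)))))))) (.g (nat_lit 8) .nil .nil))) 
(.lf (nat_lit 11353) (.g (nat_lit 529) (.e (nat_lit 580) (nat_lit 43) (.e (nat_lit 516163) (nat_lit 11) (.e (nat_lit 450304) (nat_lit 18) .nil))) .nil))) (.nd (nat_lit 6) 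
(.lf (nat_lit 11321) (.g (nat_lit 5710) (.e (nat_lit 580) (nat_lit 43) (.e (nat_lit 516151) (nat_lit 9) (.e (nat_lit 426211) (nat_lit 9) (.e (nat_lit 426125) (nat_lit 2) (.e (nat_lit 196670) (nat_lit 14) (.e (nat_lit 73729) (nat_lit 0) (.e (nat_lit 5185) (nat_lit 293) (.e (nat_lit 8288) (nat_lit 51) .nil)))))))) (.g (nat_lit 5) .nil .nil))) 
(.lf (nat_lit 11385) (.g (nat_lit 2325) (.e (nat_lit 584) (nat_lit 43) (.e (nat_lit 516115) (nat_lit 1) (.e (nat_lit 164403) (nat_lit 256) (.e (nat_lit 57389) (nat_lit 5) (.e (nat_lit 114714) (nat_lit 22) .nil))))) .nil)))))) (.nd (nat_lit 3) (.nd (nat_lit 4) (.nd (nat_lit 5) (.nd (nat_lit 6) 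
(.lf (nat_lit 11269) (.g (nat_lit 3346) (.e (nat_lit 577) (nat_lit 43) (.e (nat_lit 516166) (nat_lit 12) (.e (nat_lit 450587) (nat_lit 10) (.e (nat_lit 573454) (nat_lit 9) .nil)))) .nil)) 
(.lf (nat_lit 11333) (.g (nat_lit 2134) (.e (nat_lit 580) (nat_lit 43) (.e (nat_lit 516151) (nat_lit 9) (.e (nat_lit 426211) (nat_lit 9) (.e (nat_lit 433920) (nat_lit 27) .nil)))) .nil))) (.nd (nat_lit 6) 
(.lf (nat_lit 11301) (.g (nat_lit 2427) (.e (nat_lit 580) (nat_lit 43) (.e (nat_lit 516151) (nat_lit 9) (.e (nat_lit 426042) (nat_lit 0) (.e (nat_lit 3307) (nat_lit 202) (.e (nat_lit 573487) (nat_lit 14) (.e (nat_lit 73747) (nat_lit 3) (.e (nat_lit 516098) (nat_lit 0) (.e (nat_lit 3570) (nat_lit 222) (.e (nat_lit 737283) (nat_lit 0) .nil))))))))) (.g (nat_lit 4) .nil .nil))) 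
(.lf (nat_lit 11365) (.g (nat_lit 1179) (.e (nat_lit 581) (nat_lit 43) (.e (nat_lit 516166) (nat_lit 12) (.e (nat_lit 450588) (nat_lit 10) .nil))) .nil)))) (.nd (nat_lit 5) (.nd (nat_lit 6) 
(.lf (nat_lit 11285) (.g (nat_lit 733) (.e (nat_lit 577) (nat_lit 43) (.e (nat_lit 516166) (nat_lit 12) (.e (nat_lit 458496) (nat_lit 23) .nil))) .nil)) 
(.lf (nat_lit 11349) (.g (nat_lit 2569) (.e (nat_lit 580) (nat_lit 43) (.e (nat_lit 516151) (nat_lit 9) (.e (nat_lit 426338) (nat_lit 14) (.e (nat_lit 491538) (nat_lit 3) .nil)))) .nil))) (.nd (nat_lit 6) 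
(.lf (nat_lit 11317) (.g (nat_lit 4910) (.e (nat_lit 580) (nat_lit 43) (.e (nat_lit 516151) (nat_lit 9) (.e (nat_lit 426211) (nat_lit 9) (.e (nat_lit 426125) (nat_lit 2) (.e (nat_lit 196668) (nat_lit 14) (.e (nat_lit 73733) (nat_lit 0) (.e (nat_lit 5178) (nat_lit 293) (.e (nat_lit 8288) (nat_lit 51) .nil)))))))) (.g (nat_lit 4) .nil .nil))) 
(.lf (nat_lit 11381) (.g (nat_lit 2659) (.e (nat_lit 584) (nat_lit 43) (.e (nat_lit 516115) (nat_lit 1) (.e (nat_lit 164399) (nat_lit 256) (.e (nat_lit 57389) (nat_lit 5) (.e (nat_lit 114716) (nat_lit 22) (.e (nat_lit 90160) (nat_lit 11) (.e (nat_lit 24617) (nat_lit 7) (.e (nat_lit 319504) (nat_lit 10) .nil)))))))) (.g (nat_lit 5) .nil .nil)))))) (.nd (nat_lit 4) (.nd (nat_lit 5) (.nd (nat_lit 6) 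
(.lf (nat_lit 11277) (.g (nat_lit 2723) (.e (nat_lit 577) (nat_lit 43) (.e (nat_lit 516166) (nat_lit 12) (.e (nat_lit 450588) (nat_lit 10) (.e (nat_lit 573469) (nat_lit 11) .nil)))) .nil)) 
(.lf (nat_lit 11341) (.g (nat_lit 1969) (.e (nat_lit 580) (nat_lit 43) (.e (nat_lit 516151) (nat_lit 9) (.e (nat_lit 426285) (nat_lit 10) (.e (nat_lit 434244) (nat_lit 28) .nil)))) .nil))) (.nd (nat_lit 6) 
(.lf (nat_lit 11309) (.g (nat_lit 3274) (.e (nat_lit 580) (nat_lit 43) (.e (nat_lit 516151) (nat_lit 9) (.e (nat_lit 426170) (nat_lit 7) (.e (nat_lit 409631) (nat_lit 12) (.e (nat_lit 32807) (nat_lit 18) (.e (nat_lit 172082) (nat_lit 7) (.e (nat_lit 417536) (nat_lit 10) .nil))))))) (.g (nat_lit 6) .nil .nil))) 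
(.lf (nat_lit 11373) (.g (nat_lit 1174) (.e (nat_lit 583) (nat_lit 43) (.e (nat_lit 516166) (nat_lit 12) (.e (nat_lit 450587) (nat_lit 10) .nil))) .nil)))) (.nd (nat_lit 5) (.nd (nat_lit 6) 
(.lf (nat_lit 11293) (.g (nat_lit 451) (.e (nat_lit 580) (nat_lit 43) (.e (nat_lit 516106) (nat_lit 0) (.e (nat_lit 7936) (nat_lit 221) .nil))) .nil)) 
(.lf (nat_lit 11357) (.g (nat_lit 5278) (.e (nat_lit 580) (nat_lit 43) (.e (nat_lit 516166) (nat_lit 12) (.e (nat_lit 450588) (nat_lit 10) (.e (nat_lit 573450) (nat_lit 9) .nil)))) .nil))) (.nd (nat_lit 6) 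
(.lf (nat_lit 11325) (.g (nat_lit 5450) (.e (nat_lit 580) (nat_lit 43) (.e (nat_lit 516151) (nat_lit 9) (.e (nat_lit 426211) (nat_lit 9) (.e (nat_lit 426125) (nat_lit 2) (.e (nat_lit 196670) (nat_lit 14) (.e (nat_lit 73732) (nat_lit 0) (.e (nat_lit 5181) (nat_lit 293) (.e (nat_lit 8288) (nat_lit 51) .nil)))))))) (.g (nat_lit 5) .nil .nil))) 
(.lf (nat_lit 11389) (.g (nat_lit 3180) (.e (nat_lit 584) (nat_lit 43) (.e (nat_lit 516117) (nat_lit 1) (.e (nat_lit 164398) (nat_lit 256) (.e (nat_lit 57388) (nat_lit 5) (.e (nat_lit 114716) (nat_lit 22) (.e (nat_lit 90160) (nat_lit 11) (.e (nat_lit 24617) (nat_lit 7) (.e (nat_lit 319505) (nat_lit 10) .nil)))))))) (.g (nat_lit 5) .nil .nil)))))))) 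
(.nd (nat_lit 2) (.nd (nat_lit 3) (.nd (nat_lit 4) (.nd (nat_lit 5) (.nd (nat_lit 6) 
(.lf (nat_lit 11267) (.g (nat_lit 2797) (.e (nat_lit 577) (nat_lit 43) (.e (nat_lit 516166) (nat_lit 12) (.e (nat_lit 450563) (nat_lit 0) (.e (nat_lit 4212) (nat_lit 251) .nil)))) .nil)) 
(.lf (nat_lit 11331) (.g (nat_lit 3242) (.e (nat_lit 580) (nat_lit 43) (.e (nat_lit 516151) (nat_lit 9) (.e (nat_lit 426211) (nat_lit 9) (.e (nat_lit 426140) (nat_lit 3) (.e (nat_lit 204863) (nat_lit 27) .nil))))) .nil))) (.nd (nat_lit 6) 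
(.lf (nat_lit 11299) (.g (nat_lit 1653) (.e (nat_lit 580) (nat_lit 43) (.e (nat_lit 516151) (nat_lit 9) (.e (nat_lit 426042) (nat_lit 0) (.e (nat_lit 3307) (nat_lit 202) .nil)))) .nil)) 
(.lf (nat_lit 11363) (.g (nat_lit 1195) (.e (nat_lit 581) (nat_lit 43) (.e (nat_lit 516131) (nat_lit 3) (.e (nat_lit 229120) (nat_lit 18) (.e (nat_lit 393229) (nat_lit 9) (.e (nat_lit 336067) (nat_lit 8) .nil))))) .nil)))) (.nd (nat_lit 5) (.nd (nat_lit 6) 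
(.lf (nat_lit 11283) (.g (nat_lit 1011) (.e (nat_lit 577) (nat_lit 43) (.e (nat_lit 516166) (nat_lit 12) (.e (nat_lit 450602) (nat_lit 22) .nil))) .nil)) 
(.lf (nat_lit 11347) (.g (nat_lit 771) (.e (nat_lit 580) (nat_lit 43) (.e (nat_lit 516151) (nat_lit 9) (.e (nat_lit 426338) (nat_lit 14) .nil))) .nil))) (.nd (nat_lit 6) 
(.lf (nat_lit 11315) (.g (nat_lit 4647) (.e (nat_lit 580) (nat_lit 43) (.e (nat_lit 516151) (nat_lit 9) (.e (nat_lit 426211) (nat_lit 9) (.e (nat_lit 426125) (nat_lit 2) (.e (nat_lit 196668) (nat_lit 14) .nil))))) .nil)) 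
(.lf (nat_lit 11379) (.g (nat_lit 3571) (.e (nat_lit 584) (nat_lit 43) (.e (nat_lit 516115) (nat_lit 1) (.e (nat_lit 164398) (nat_lit 256) (.e (nat_lit 57390) (nat_lit 5) (.e (nat_lit 114716) (nat_lit 22) (.e (nat_lit 90160) (nat_lit 11) (.e (nat_lit 24617) (nat_lit 7) (.e (nat_lit 319504) (nat_lit 10) .nil)))))))) (.g (nat_lit 6) .nil .nil)))))) (.nd (nat_lit 4) (.nd (nat_lit 5) (.nd (nat_lit 6) 
(.lf (nat_lit 11275) (.g (nat_lit 3121) (.e (nat_lit 577) (nat_lit 43) (.e (nat_lit 516166) (nat_lit 12) (.e (nat_lit 450588) (nat_lit 10) (.e (nat_lit 573452) (nat_lit 9) (.e (nat_lit 430) (nat_lit 32) .nil))))) .nil)) 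
(.lf (nat_lit 11339) (.g (nat_lit 2983) (.e (nat_lit 580) (nat_lit 43) (.e (nat_lit 516151) (nat_lit 9) (.e (nat_lit 426285) (nat_lit 10) (.e (nat_lit 434238) (nat_lit 25) (.e (nat_lit 548913) (nat_lit 18) (.e (nat_lit 172079) (nat_lit 7) (.e (nat_lit 417536) (nat_lit 10) .nil))))))) (.g (nat_lit 4) .nil .nil)))) (.nd (nat_lit 6) 
(.lf (nat_lit 11307) (.g (nat_lit 692) (.e (nat_lit 580) (nat_lit 43) (.e (nat_lit 516151) (nat_lit 9) (.e (nat_lit 426170) (nat_lit 7) .nil))) .nil)) 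
(.lf (nat_lit 11371) (.g (nat_lit 1636) (.e (nat_lit 583) (nat_lit 43) (.e (nat_lit 516146) (nat_lit 9) (.e (nat_lit 426428) (nat_lit 17) (.e (nat_lit 90174) (nat_lit 14) .nil)))) .nil)))) (.nd (nat_lit 5) (.nd (nat_lit 6) 
(.lf (nat_lit 11291) (.g (nat_lit 2081) (.e (nat_lit 580) (nat_lit 43) (.e (nat_lit 516106) (nat_lit 0) (.e (nat_lit 3537) (nat_lit 218) (.e (nat_lit 704737) (nat_lit 11) (.e (nat_lit 24320) (nat_lit 34) .nil))))) .nil)) 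
(.lf (nat_lit 11355) (.g (nat_lit 3716) (.e (nat_lit 580) (nat_lit 43) (.e (nat_lit 516166) (nat_lit 12) (.e (nat_lit 450587) (nat_lit 10) (.e (nat_lit 573454) (nat_lit 9) .nil)))) .nil))) (.nd (nat_lit 6) 
(.lf (nat_lit 11323) (.g (nat_lit 5442) (.e (nat_lit 580) (nat_lit 43) (.e (nat_lit 516151) (nat_lit 9) (.e (nat_lit 426211) (nat_lit 9) (.e (nat_lit 426125) (nat_lit 2) (.e (nat_lit 196670) (nat_lit 14) (.e (nat_lit 73732) (nat_lit 0) (.e (nat_lit 5181) (nat_lit 293) (.e (nat_lit 8286) (nat_lit 51) .nil)))))))) (.g (nat_lit 5) .nil .nil))) 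
(.lf (nat_lit 11387) (.g (nat_lit 5817) (.e (nat_lit 584) (nat_lit 43) (.e (nat_lit 516117) (nat_lit 1) (.e (nat_lit 164258) (nat_lit 215) (.e (nat_lit 1211) (nat_lit 89) (.e (nat_lit 73755) (nat_lit 8) (.e (nat_lit 557087) (nat_lit 11) (.e (nat_lit 24617) (nat_lit 7) (.e (nat_lit 319505) (nat_lit 10) .nil)))))))) (.g (nat_lit 0) .nil .nil))))))) 
(.nd (nat_lit 3) (.nd (nat_lit 4) (.nd (nat_lit 5) (.nd (nat_lit 6) 
(.lf (nat_lit 11271) (.g (nat_lit 2001) (.e (nat_lit 577) (nat_lit 43) (.e (nat_lit 516166) (nat_lit 12) (.e (nat_lit 450587) (nat_lit 10) (.e (nat_lit 573457) (nat_lit 9) .nil)))) .nil)) 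
(.lf (nat_lit 11335) (.g (nat_lit 962) (.e (nat_lit 580) (nat_lit 43) (.e (nat_lit 516151) (nat_lit 9) (.e (nat_lit 426212) (nat_lit 9) .nil))) .nil))) (.nd (nat_lit 6) 
(.lf (nat_lit 11303) (.g (nat_lit 919) (.e (nat_lit 580) (nat_lit 43) (.e (nat_lit 516151) (nat_lit 9) (.e (nat_lit 426132) (nat_lit 3) .nil))) .nil)) 
(.lf (nat_lit 11367) (.g (nat_lit 1089) (.e (nat_lit 582) (nat_lit 43) (.e (nat_lit 516166) (nat_lit 12) (.e (nat_lit 450588) (nat_lit 10) .nil))) .nil)))) (.nd (nat_lit 5) (.nd (nat_lit 6) 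
(.lf (nat_lit 11287) (.g (nat_lit 5438) (.e (nat_lit 578) (nat_lit 43) (.e (nat_lit 516166) (nat_lit 12) (.e (nat_lit 450588) (nat_lit 10) (.e (nat_lit 573471) (nat_lit 11) .nil)))) .nil)) 
(.lf (nat_lit 11351) (.g (nat_lit 1497) (.e (nat_lit 580) (nat_lit 43) (.e (nat_lit 516151) (nat_lit 9) (.e (nat_lit 426455) (nat_lit 22) (.e (nat_lit 139281) (nat_lit 5) .nil)))) .nil))) (.nd (nat_lit 6) 
(.lf (nat_lit 11319) (.g (nat_lit 4647) (.e (nat_lit 580) (nat_lit 43) (.e (nat_lit 516151) (nat_lit 9) (.e (nat_lit 426211) (nat_lit 9) (.e (nat_lit 426125) (nat_lit 2) (.e (nat_lit 196669) (nat_lit 14) .nil))))) .nil)) 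
(.lf (nat_lit 11383) (.g (nat_lit 2247) (.e (nat_lit 584) (nat_lit 43) (.e (nat_lit 516115) (nat_lit 1) (.e (nat_lit 164403) (nat_lit 256) (.e (nat_lit 57388) (nat_lit 5) (.e (nat_lit 114714) (nat_lit 22) (.e (nat_lit 90160) (nat_lit 11) (.e (nat_lit 24617) (nat_lit 7) (.e (nat_lit 319504) (nat_lit 10) .nil)))))))) (.g (nat_lit 4) .nil .nil)))))) (.nd (nat_lit 4) (.nd (nat_lit 5) (.nd (nat_lit 6) 
(.lf (nat_lit 11279) (.g (nat_lit 2391) (.e (nat_lit 577) (nat_lit 43) (.e (nat_lit 516166) (nat_lit 12) (.e (nat_lit 450588) (nat_lit 10) (.e (nat_lit 573470) (nat_lit 11) .nil)))) .nil)) 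
(.lf (nat_lit 11343) (.g (nat_lit 2115) (.e (nat_lit 580) (nat_lit 43) (.e (nat_lit 516151) (nat_lit 9) (.e (nat_lit 426286) (nat_lit 10) (.e (nat_lit 434245) (nat_lit 28) .nil)))) .nil))) (.nd (nat_lit 6) 
(.lf (nat_lit 11311) (.g (nat_lit 2027) (.e (nat_lit 580) (nat_lit 43) (.e (nat_lit 516151) (nat_lit 9) (.e (nat_lit 426211) (nat_lit 9) (.e (nat_lit 426125) (nat_lit 2) .nil)))) .nil)) 
(.lf (nat_lit 11375) (.g (nat_lit 5018) (.e (nat_lit 583) (nat_lit 43) (.e (nat_lit 516166) (nat_lit 12) (.e (nat_lit 450588) (nat_lit 10) (.e (nat_lit 573452) (nat_lit 9) .nil)))) .nil)))) (.nd (nat_lit 5) (.nd (nat_lit 6) 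
(.lf (nat_lit 11295) (.g (nat_lit 562) (.e (nat_lit 580) (nat_lit 43) (.e (nat_lit 516129) (nat_lit 3) (.e (nat_lit 229120) (nat_lit 18) .nil))) .nil)) 
(.lf (nat_lit 11359) (.g (nat_lit 604) (.e (nat_lit 580) (nat_lit 43) (.e (nat_lit 516199) (nat_lit 26) (.e (nat_lit 336196) (nat_lit 12) .nil))) .nil))) (.nd (nat_lit 6) 
(.lf (nat_lit 11327) (.g (nat_lit 4498) (.e (nat_lit 580) (nat_lit 43) (.e (nat_lit 516151) (nat_lit 9) (.e (nat_lit 426211) (nat_lit 9) (.e (nat_lit 426125) (nat_lit 2) (.e (nat_lit 196681) (nat_lit 17) .nil))))) .nil)) 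
(.lf (nat_lit 11391) (.g (nat_lit 2420) (.e (nat_lit 584) (nat_lit 43) (.e (nat_lit 516117) (nat_lit 1) (.e (nat_lit 164398) (nat_lit 256) (.e (nat_lit 57389) (nat_lit 5) (.e (nat_lit 114716) (nat_lit 22) .nil))))) .nil)))))))))

noncomputable def tv156 : DT := (.nd (nat_lit 0) (.nd (nat_lit 1) (.nd (nat_lit 2) (.nd (nat_lit 3) (.nd (nat_lit 4) (.nd (nat_lit 5) (.nd (nat_lit 6) 
(.lf (nat_lit 11392) (.g (nat_lit 3231) (.e (nat_lit 584) (nat_lit 43) (.e (nat_lit 516117) (nat_lit 1) (.e (nat_lit 164398) (nat_lit 256) (.e (nat_lit 57389) (nat_lit 5) (.e (nat_lit 114716) (nat_lit 22) (.e (nat_lit 90160) (nat_lit 11) (.e (nat_lit 24617) (nat_lit 7) (.e (nat_lit 319504) (nat_lit 10) .nil)))))))) (.g (nat_lit 5) .nil .nil))) 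
(.lf (nat_lit 11456) (.g (nat_lit 1959) (.e (nat_lit 585) (nat_lit 43) (.e (nat_lit 516129) (nat_lit 3) (.e (nat_lit 221210) (nat_lit 22) (.e (nat_lit 196668) (nat_lit 14) (.e (nat_lit 73747) (nat_lit 3) .nil))))) .nil))) (.nd (nat_lit 6) 
(.lf (nat_lit 11424) (.g (nat_lit 2716) (.e (nat_lit 584) (nat_lit 43) (.e (nat_lit 516131) (nat_lit 3) (.e (nat_lit 221212) (nat_lit 22) (.e (nat_lit 196681) (nat_lit 17) (.e (nat_lit 131095) (nat_lit 3) .nil))))) .nil)) 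
(.lf (nat_lit 11488) (.g (nat_lit 2474) (.e (nat_lit 588) (nat_lit 44) (.e (nat_lit 524322) (nat_lit 12) (.e (nat_lit 450588) (nat_lit 10) (.e (nat_lit 573448) (nat_lit 9) .nil)))) .nil)))) (.nd (nat_lit 5) (.nd (nat_lit 6) 
(.lf (nat_lit 11408) (.g (nat_lit 2085) (.e (nat_lit 584) (nat_lit 43) (.e (nat_lit 516119) (nat_lit 1) (.e (nat_lit 164403) (nat_lit 256) (.e (nat_lit 57388) (nat_lit 5) (.e (nat_lit 114714) (nat_lit 22) (.e (nat_lit 90128) (nat_lit 9) (.e (nat_lit 232) (nat_lit 21) (.e (nat_lit 336060) (nat_lit 7) (.e (nat_lit 319505) (nat_lit 10) .nil))))))))) (.g (nat_lit 4) .nil .nil))) 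
(.lf (nat_lit 11472) (.g (nat_lit 1754) (.e (nat_lit 7936) (nat_lit 43) (.e (nat_lit 516165) (nat_lit 12) (.e (nat_lit 450588) (nat_lit 10) (.e (nat_lit 573450) (nat_lit 9) .nil)))) .nil))) (.nd (nat_lit 6) 
(.lf (nat_lit 11440) (.g (nat_lit 2578) (.e (nat_lit 584) (nat_lit 43) (.e (nat_lit 516146) (nat_lit 9) (.e (nat_lit 426428) (nat_lit 17) (.e (nat_lit 90174) (nat_lit 14) (.e (nat_lit 180243) (nat_lit 5) (.e (nat_lit 532508) (nat_lit 2) (.e (nat_lit 106549) (nat_lit 14) (.e (nat_lit 1009) (nat_lit 81) .nil)))))))) (.g (nat_lit 4) .nil .nil))) 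
(.lf (nat_lit 11504) (.g (nat_lit 1426) (.e (nat_lit 595) (nat_lit 45) (.e (nat_lit 532499) (nat_lit 1) (.e (nat_lit 57927) (nat_lit 282) (.e (nat_lit 163884) (nat_lit 5) .nil)))) .nil))))) (.nd (nat_lit 4) (.nd (nat_lit 5) (.nd (nat_lit 6) 
(.lf (nat_lit 11400) (.g (nat_lit 2269) (.e (nat_lit 584) (nat_lit 43) (.e (nat_lit 516117) (nat_lit 1) (.e (nat_lit 164399) (nat_lit 256) (.e (nat_lit 57390) (nat_lit 5) (.e (nat_lit 114716) (nat_lit 22) (.e (nat_lit 90128) (nat_lit 9) (.e (nat_lit 232) (nat_lit 21) (.e (nat_lit 336060) (nat_lit 7) (.e (nat_lit 319505) (nat_lit 10) .nil))))))))) (.g (nat_lit 4) .nil .nil))) 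
(.lf (nat_lit 11464) (.g (nat_lit 2933) (.e (nat_lit 7936) (nat_lit 43) (.e (nat_lit 516151) (nat_lit 9) (.e (nat_lit 426211) (nat_lit 9) (.e (nat_lit 426125) (nat_lit 2) (.e (nat_lit 196657) (nat_lit 12) .nil))))) .nil))) (.nd (nat_lit 6) 
(.lf (nat_lit 11432) (.g (nat_lit 2403) (.e (nat_lit 584) (nat_lit 43) (.e (nat_lit 516146) (nat_lit 9) (.e (nat_lit 426428) (nat_lit 17) (.e (nat_lit 90174) (nat_lit 14) (.e (nat_lit 180243) (nat_lit 5) (.e (nat_lit 532508) (nat_lit 2) (.e (nat_lit 106543) (nat_lit 14) (.e (nat_lit 993) (nat_lit 81) .nil)))))))) (.g (nat_lit 4) .nil .nil))) 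
(.lf (nat_lit 11496) (.g (nat_lit 3651) (.e (nat_lit 592) (nat_lit 45) (.e (nat_lit 532535) (nat_lit 9) (.e (nat_lit 336176) (nat_lit 10) (.e (nat_lit 344130) (nat_lit 26) (.e (nat_lit 557087) (nat_lit 11) .nil))))) .nil)))) (.nd (nat_lit 5) (.nd (nat_lit 6) 
(.lf (nat_lit 11416) (.g (nat_lit 1149) (.e (nat_lit 584) (nat_lit 43) (.e (nat_lit 516120) (nat_lit 1) (.e (nat_lit 164403) (nat_lit 256) .nil))) .nil)) 
(.lf (nat_lit 11480) (.g (nat_lit 2577) (.e (nat_lit 7936) (nat_lit 43) (.e (nat_lit 516166) (nat_lit 12) (.e (nat_lit 450587) (nat_lit 10) (.e (nat_lit 573454) (nat_lit 9) .nil)))) .nil))) (.nd (nat_lit 6) 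
(.lf (nat_lit 11448) (.g (nat_lit 3052) (.e (nat_lit 584) (nat_lit 43) (.e (nat_lit 516146) (nat_lit 9) (.e (nat_lit 426428) (nat_lit 17) (.e (nat_lit 90174) (nat_lit 14) (.e (nat_lit 180243) (nat_lit 5) (.e (nat_lit 532510) (nat_lit 2) (.e (nat_lit 106551) (nat_lit 14) (.e (nat_lit 1015) (nat_lit 81) .nil)))))))) (.g (nat_lit 5) .nil .nil))) 
(.lf (nat_lit 11512) (.g (nat_lit 3667) (.e (nat_lit 595) (nat_lit 45) (.e (nat_lit 532550) (nat_lit 12) (.e (nat_lit 360475) (nat_lit 8) (.e (nat_lit 557087) (nat_lit 11) .nil)))) .nil)))))) (.nd (nat_lit 3) (.nd (nat_lit 4) (.nd (nat_lit 5) (.nd (nat_lit 6) 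
(.lf (nat_lit 11396) (.g (nat_lit 750) (.e (nat_lit 584) (nat_lit 43) (.e (nat_lit 516117) (nat_lit 1) (.e (nat_lit 164399) (nat_lit 256) .nil))) .nil)) 
(.lf (nat_lit 11460) (.g (nat_lit 5134) (.e (nat_lit 585) (nat_lit 43) (.e (nat_lit 516166) (nat_lit 12) (.e (nat_lit 450588) (nat_lit 10) (.e (nat_lit 573452) (nat_lit 9) .nil)))) .nil))) (.nd (nat_lit 6) 
(.lf (nat_lit 11428) (.g (nat_lit 2663) (.e (nat_lit 584) (nat_lit 43) (.e (nat_lit 516146) (nat_lit 9) (.e (nat_lit 426428) (nat_lit 17) (.e (nat_lit 90170) (nat_lit 13) (.e (nat_lit 172065) (nat_lit 3) .nil))))) .nil)) 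
(.lf (nat_lit 11492) (.g (nat_lit 165) (.e (nat_lit 588) (nat_lit 44) (.e (nat_lit 524340) (nat_lit 28) (.e (nat_lit 352313) (nat_lit 23) .nil))) .nil)))) (.nd (nat_lit 5) (.nd (nat_lit 6) 
(.lf (nat_lit 11412) (.g (nat_lit 4978) (.e (nat_lit 584) (nat_lit 43) (.e (nat_lit 516119) (nat_lit 1) (.e (nat_lit 164403) (nat_lit 256) (.e (nat_lit 57389) (nat_lit 5) (.e (nat_lit 114716) (nat_lit 22) (.e (nat_lit 90160) (nat_lit 11) (.e (nat_lit 24617) (nat_lit 7) (.e (nat_lit 319505) (nat_lit 10) .nil)))))))) (.g (nat_lit 0) .nil .nil))) 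
(.lf (nat_lit 11476) (.g (nat_lit 1743) (.e (nat_lit 7936) (nat_lit 43) (.e (nat_lit 516166) (nat_lit 12) (.e (nat_lit 450567) (nat_lit 0) (.e (nat_lit 4189) (nat_lit 251) .nil)))) .nil))) (.nd (nat_lit 6) 
(.lf (nat_lit 11444) (.g (nat_lit 3307) (.e (nat_lit 584) (nat_lit 43) (.e (nat_lit 516146) (nat_lit 9) (.e (nat_lit 426428) (nat_lit 17) (.e (nat_lit 90174) (nat_lit 14) (.e (nat_lit 180243) (nat_lit 5) (.e (nat_lit 532510) (nat_lit 2) (.e (nat_lit 106551) (nat_lit 14) (.e (nat_lit 992) (nat_lit 81) .nil)))))))) (.g (nat_lit 5) .nil .nil))) 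
(.lf (nat_lit 11508) (.g (nat_lit 522) (.e (nat_lit 595) (nat_lit 45) (.e (nat_lit 532544) (nat_lit 10) (.e (nat_lit 344132) (nat_lit 26) .nil))) .nil))))) (.nd (nat_lit 4) (.nd (nat_lit 5) (.nd (nat_lit 6) 
(.lf (nat_lit 11404) (.g (nat_lit 2201) (.e (nat_lit 584) (nat_lit 43) (.e (nat_lit 516117) (nat_lit 1) (.e (nat_lit 164403) (nat_lit 256) (.e (nat_lit 57389) (nat_lit 5) (.e (nat_lit 114714) (nat_lit 22) .nil))))) .nil)) 
(.lf (nat_lit 11468) (.g (nat_lit 529) (.e (nat_lit 7936) (nat_lit 43) (.e (nat_lit 516160) (nat_lit 10) (.e (nat_lit 434192) (nat_lit 13) .nil))) .nil))) (.nd (nat_lit 6) 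
(.lf (nat_lit 11436) (.g (nat_lit 2441) (.e (nat_lit 584) (nat_lit 43) (.e (nat_lit 516146) (nat_lit 9) (.e (nat_lit 426428) (nat_lit 17) (.e (nat_lit 90174) (nat_lit 14) (.e (nat_lit 180243) (nat_lit 5) (.e (nat_lit 532508) (nat_lit 2) (.e (nat_lit 106543) (nat_lit 14) (.e (nat_lit 1014) (nat_lit 81) .nil)))))))) (.g (nat_lit 4) .nil .nil))) 
(.lf (nat_lit 11500) (.g (nat_lit 3676) (.e (nat_lit 594) (nat_lit 45) (.e (nat_lit 532535) (nat_lit 9) (.e (nat_lit 336176) (nat_lit 10) (.e (nat_lit 344130) (nat_lit 26) (.e (nat_lit 557087) (nat_lit 11) .nil))))) .nil)))) (.nd (nat_lit 5) (.nd (nat_lit 6) 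
(.lf (nat_lit 11420) (.g (nat_lit 2639) (.e (nat_lit 584) (nat_lit 43) (.e (nat_lit 516120) (nat_lit 1) (.e (nat_lit 164403) (nat_lit 256) (.e (nat_lit 57389) (nat_lit 5) (.e (nat_lit 114715) (nat_lit 22) .nil))))) .nil)) 
(.lf (nat_lit 11484) (.g (nat_lit 720) (.e (nat_lit 7936) (nat_lit 43) (.e (nat_lit 516166) (nat_lit 12) (.e (nat_lit 450588) (nat_lit 10) (.e (nat_lit 573452) (nat_lit 9) (.e (nat_lit 430) (nat_lit 32) .nil))))) .nil))) (.nd (nat_lit 6) 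
(.lf (nat_lit 11452) (.g (nat_lit 1515) (.e (nat_lit 584) (nat_lit 43) (.e (nat_lit 516146) (nat_lit 9) (.e (nat_lit 426438) (nat_lit 18) (.e (nat_lit 98376) (nat_lit 30) .nil)))) .nil)) 
(.lf (nat_lit 11516) (.g (nat_lit 3166) (.e (nat_lit 596) (nat_lit 45) (.e (nat_lit 532490) (nat_lit 0) (.e (nat_lit 1040) (nat_lit 81) (.e (nat_lit 7273) (nat_lit 385) (.e (nat_lit 122904) (nat_lit 12) (.e (nat_lit 336454) (nat_lit 34) (.e (nat_lit 483376) (nat_lit 22) (.e (nat_lit 327683) (nat_lit 0) .nil)))))))) (.g (nat_lit 8) .nil .nil)))))))) 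
(.nd (nat_lit 2) (.nd (nat_lit 3) (.nd (nat_lit 4) (.nd (nat_lit 5) (.nd (nat_lit 6) 
(.lf (nat_lit 11394) (.g (nat_lit 2218) (.e (nat_lit 584) (nat_lit 43) (.e (nat_lit 516117) (nat_lit 1) (.e (nat_lit 164398) (nat_lit 256) (.e (nat_lit 57390) (nat_lit 5) (.e (nat_lit 114714) (nat_lit 22) .nil))))) .nil)) 
(.lf (nat_lit 11458) (.g (nat_lit 2773) (.e (nat_lit 585) (nat_lit 43) (.e (nat_lit 516131) (nat_lit 3) (.e (nat_lit 221215) (nat_lit 23) (.e (nat_lit 204861) (nat_lit 26) (.e (nat_lit 336021) (nat_lit 3) .nil))))) .nil))) (.nd (nat_lit 6) 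
(.lf (nat_lit 11426) (.g (nat_lit 862) (.e (nat_lit 584) (nat_lit 43) (.e (nat_lit 516146) (nat_lit 9) (.e (nat_lit 426428) (nat_lit 17) .nil))) .nil)) 
(.lf (nat_lit 11490) (.g (nat_lit 2492) (.e (nat_lit 588) (nat_lit 44) (.e (nat_lit 524322) (nat_lit 12) (.e (nat_lit 450588) (nat_lit 10) (.e (nat_lit 573471) (nat_lit 11) (.e (nat_lit 16425) (nat_lit 7) .nil))))) .nil)))) (.nd (nat_lit 5) (.nd (nat_lit 6) 
(.lf (nat_lit 11410) (.g (nat_lit 3351) (.e (nat_lit 584) (nat_lit 43) (.e (nat_lit 516119) (nat_lit 1) (.e (nat_lit 164403) (nat_lit 256) (.e (nat_lit 57389) (nat_lit 5) (.e (nat_lit 114714) (nat_lit 22) (.e (nat_lit 90160) (nat_lit 11) (.e (nat_lit 24617) (nat_lit 7) (.e (nat_lit 319504) (nat_lit 10) .nil)))))))) (.g (nat_lit 6) .nil .nil))) 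
(.lf (nat_lit 11474) (.g (nat_lit 1615) (.e (nat_lit 7936) (nat_lit 43) (.e (nat_lit 516166) (nat_lit 12) (.e (nat_lit 450562) (nat_lit 0) (.e (nat_lit 4192) (nat_lit 251) .nil)))) .nil))) (.nd (nat_lit 6) 
(.lf (nat_lit 11442) (.g (nat_lit 2331) (.e (nat_lit 584) (nat_lit 43) (.e (nat_lit 516146) (nat_lit 9) (.e (nat_lit 426428) (nat_lit 17) (.e (nat_lit 90174) (nat_lit 14) (.e (nat_lit 180243) (nat_lit 5) (.e (nat_lit 532508) (nat_lit 2) (.e (nat_lit 106550) (nat_lit 14) (.e (nat_lit 1015) (nat_lit 81) .nil)))))))) (.g (nat_lit 4) .nil .nil))) 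
(.lf (nat_lit 11506) (.g (nat_lit 2314) (.e (nat_lit 595) (nat_lit 45) (.e (nat_lit 532535) (nat_lit 9) (.e (nat_lit 336176) (nat_lit 10) (.e (nat_lit 344132) (nat_lit 26) .nil)))) .nil))))) (.nd (nat_lit 4) (.nd (nat_lit 5) (.nd (nat_lit 6) 
(.lf (nat_lit 11402) (.g (nat_lit 2115) (.e (nat_lit 584) (nat_lit 43) (.e (nat_lit 516117) (nat_lit 1) (.e (nat_lit 164401) (nat_lit 256) (.e (nat_lit 57388) (nat_lit 5) (.e (nat_lit 114714) (nat_lit 22) (.e (nat_lit 90160) (nat_lit 11) (.e (nat_lit 24617) (nat_lit 7) (.e (nat_lit 319504) (nat_lit 10) .nil)))))))) (.g (nat_lit 4) .nil .nil))) 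
(.lf (nat_lit 11466) (.g (nat_lit 1741) (.e (nat_lit 7936) (nat_lit 43) (.e (nat_lit 516151) (nat_lit 9) (.e (nat_lit 426211) (nat_lit 9) (.e (nat_lit 426140) (nat_lit 3) (.e (nat_lit 204821) (nat_lit 17) .nil))))) .nil))) (.nd (nat_lit 6) 
(.lf (nat_lit 11434) (.g (nat_lit 2451) (.e (nat_lit 584) (nat_lit 43) (.e (nat_lit 516146) (nat_lit 9) (.e (nat_lit 426428) (nat_lit 17) (.e (nat_lit 90174) (nat_lit 14) (.e (nat_lit 180243) (nat_lit 5) (.e (nat_lit 532508) (nat_lit 2) (.e (nat_lit 106543) (nat_lit 14) (.e (nat_lit 999) (nat_lit 81) .nil)))))))) (.g (nat_lit 4) .nil .nil))) 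
(.lf (nat_lit 11498) (.g (nat_lit 3444) (.e (nat_lit 593) (nat_lit 45) (.e (nat_lit 532535) (nat_lit 9) (.e (nat_lit 336176) (nat_lit 10) (.e (nat_lit 344130) (nat_lit 26) .nil)))) .nil)))) (.nd (nat_lit 5) (.nd (nat_lit 6) 
(.lf (nat_lit 11418) (.g (nat_lit 2566) (.e (nat_lit 584) (nat_lit 43) (.e (nat_lit 516120) (nat_lit 1) (.e (nat_lit 164403) (nat_lit 256) (.e (nat_lit 57388) (nat_lit 5) (.e (nat_lit 114716) (nat_lit 22) .nil))))) .nil)) 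
(.lf (nat_lit 11482) (.g (nat_lit 962) (.e (nat_lit 7936) (nat_lit 43) (.e (nat_lit 516166) (nat_lit 12) (.e (nat_lit 450587) (nat_lit 10) (.e (nat_lit 573457) (nat_lit 9) (.e (nat_lit 430) (nat_lit 32) .nil))))) .nil))) (.nd (nat_lit 6) 
(.lf (nat_lit 11450) (.g (nat_lit 2247) (.e (nat_lit 584) (nat_lit 43) (.e (nat_lit 516146) (nat_lit 9) (.e (nat_lit 426428) (nat_lit 17) (.e (nat_lit 90174) (nat_lit 14) (.e (nat_lit 180243) (nat_lit 5) (.e (nat_lit 532511) (nat_lit 2) (.e (nat_lit 106550) (nat_lit 14) (.e (nat_lit 1015) (nat_lit 81) .nil)))))))) (.g (nat_lit 4) .nil .nil))) 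
(.lf (nat_lit 11514) (.g (nat_lit 1201) (.e (nat_lit 596) (nat_lit 45) (.e (nat_lit 532490) (nat_lit 0) (.e (nat_lit 1040) (nat_lit 81) (.e (nat_lit 7147) (nat_lit 382) .nil)))) .nil)))))) (.nd (nat_lit 3) (.nd (nat_lit 4) (.nd (nat_lit 5) (.nd (nat_lit 6) 
(.lf (nat_lit 11398) (.g (nat_lit 3061) (.e (nat_lit 584) (nat_lit 43) (.e (nat_lit 516117) (nat_lit 1) (.e (nat_lit 164399) (nat_lit 256) (.e (nat_lit 57388) (nat_lit 5) (.e (nat_lit 114716) (nat_lit 22) (.e (nat_lit 90160) (nat_lit 11) (.e (nat_lit 24617) (nat_lit 7) (.e (nat_lit 319505) (nat_lit 10) .nil)))))))) (.g (nat_lit 5) .nil .nil))) 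
(.lf (nat_lit 11462) (.g (nat_lit 753) (.e (nat_lit 7936) (nat_lit 43) (.e (nat_lit 516106) (nat_lit 0) (.e (nat_lit 3721) (nat_lit 227) .nil))) .nil))) (.nd (nat_lit 6) 
(.lf (nat_lit 11430) (.g (nat_lit 2628) (.e (nat_lit 584) (nat_lit 43) (.e (nat_lit 516146) (nat_lit 9) (.e (nat_lit 426428) (nat_lit 17) (.e (nat_lit 90174) (nat_lit 14) (.e (nat_lit 180243) (nat_lit 5) (.e (nat_lit 532508) (nat_lit 2) (.e (nat_lit 106543) (nat_lit 14) (.e (nat_lit 968) (nat_lit 81) .nil)))))))) (.g (nat_lit 4) .nil .nil))) 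
(.lf (nat_lit 11494) (.g (nat_lit 2478) (.e (nat_lit 7936) (nat_lit 44) (.e (nat_lit 524322) (nat_lit 12) (.e (nat_lit 450588) (nat_lit 10) (.e (nat_lit 573448) (nat_lit 9) .nil)))) .nil)))) (.nd (nat_lit 5) (.nd (nat_lit 6) 
(.lf (nat_lit 11414) (.g (nat_lit 2395) (.e (nat_lit 584) (nat_lit 43) (.e (nat_lit 516120) (nat_lit 1) (.e (nat_lit 164401) (nat_lit 256) (.e (nat_lit 57388) (nat_lit 5) (.e (nat_lit 114714) (nat_lit 22) .nil))))) .nil)) 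
(.lf (nat_lit 11478) (.g (nat_lit 1901) (.e (nat_lit 7936) (nat_lit 43) (.e (nat_lit 516166) (nat_lit 12) (.e (nat_lit 450583) (nat_lit 7) (.e (nat_lit 548913) (nat_lit 18) .nil)))) .nil))) (.nd (nat_lit 6) 
(.lf (nat_lit 11446) (.g (nat_lit 2966) (.e (nat_lit 584) (nat_lit 43) (.e (nat_lit 516146) (nat_lit 9) (.e (nat_lit 426428) (nat_lit 17) (.e (nat_lit 90174) (nat_lit 14) (.e (nat_lit 180243) (nat_lit 5) (.e (nat_lit 532510) (nat_lit 2) (.e (nat_lit 106551) (nat_lit 14) (.e (nat_lit 1008) (nat_lit 81) .nil)))))))) (.g (nat_lit 5) .nil .nil))) 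
(.lf (nat_lit 11510) (.g (nat_lit 2418) (.e (nat_lit 595) (nat_lit 45) (.e (nat_lit 532550) (nat_lit 12) (.e (nat_lit 360474) (nat_lit 8) (.e (nat_lit 557085) (nat_lit 11) .nil)))) .nil))))) (.nd (nat_lit 4) (.nd (nat_lit 5) (.nd (nat_lit 6) 
(.lf (nat_lit 11406) (.g (nat_lit 816) (.e (nat_lit 584) (nat_lit 43) (.e (nat_lit 516119) (nat_lit 1) (.e (nat_lit 164190) (nat_lit 157) .nil))) .nil)) 
(.lf (nat_lit 11470) (.g (nat_lit 1281) (.e (nat_lit 7936) (nat_lit 43) (.e (nat_lit 516163) (nat_lit 11) (.e (nat_lit 442424) (nat_lit 22) (.e (nat_lit 196661) (nat_lit 12) (.e (nat_lit 57721) (nat_lit 177) .nil))))) .nil))) (.nd (nat_lit 6) 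
(.lf (nat_lit 11438) (.g (nat_lit 2415) (.e (nat_lit 584) (nat_lit 43) (.e (nat_lit 516146) (nat_lit 9) (.e (nat_lit 426428) (nat_lit 17) (.e (nat_lit 90174) (nat_lit 14) (.e (nat_lit 180243) (nat_lit 5) (.e (nat_lit 532508) (nat_lit 2) (.e (nat_lit 106543) (nat_lit 14) (.e (nat_lit 1016) (nat_lit 81) .nil)))))))) (.g (nat_lit 4) .nil .nil))) 
(.lf (nat_lit 11502) (.g (nat_lit 909) (.e (nat_lit 595) (nat_lit 45) (.e (nat_lit 532499) (nat_lit 1) (.e (nat_lit 57847) (nat_lit 252) .nil))) .nil)))) (.nd (nat_lit 5) (.nd (nat_lit 6) 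
(.lf (nat_lit 11422) (.g (nat_lit 1353) (.e (nat_lit 584) (nat_lit 43) (.e (nat_lit 516129) (nat_lit 3) (.e (nat_lit 229120) (nat_lit 18) (.e (nat_lit 393229) (nat_lit 9) (.e (nat_lit 336067) (nat_lit 8) (.e (nat_lit 327702) (nat_lit 10) .nil)))))) (.g (nat_lit 4) .nil .nil))) 
(.lf (nat_lit 11486) (.g (nat_lit 3499) (.e (nat_lit 588) (nat_lit 44) (.e (nat_lit 524320) (nat_lit 12) (.e (nat_lit 450586) (nat_lit 10) (.e (nat_lit 573471) (nat_lit 11) (.e (nat_lit 16425) (nat_lit 7) (.e (nat_lit 409616) (nat_lit 10) .nil)))))) (.g (nat_lit 6) .nil .nil)))) (.nd (nat_lit 6) 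
(.lf (nat_lit 11454) (.g (nat_lit 5494) (.e (nat_lit 584) (nat_lit 43) (.e (nat_lit 516166) (nat_lit 12) (.e (nat_lit 450588) (nat_lit 10) (.e (nat_lit 573450) (nat_lit 9) .nil)))) .nil)) 
(.lf (nat_lit 11518) (.g (nat_lit 2340) (.e (nat_lit 596) (nat_lit 45) (.e (nat_lit 532490) (nat_lit 0) (.e (nat_lit 2270) (nat_lit 149) (.e (nat_lit 761867) (nat_lit 5) (.e (nat_lit 1656) (nat_lit 115) (.e (nat_lit 393225) (nat_lit 9) (.e (nat_lit 336069) (nat_lit 8) (.e (nat_lit 327683) (nat_lit 0) .nil)))))))) (.g (nat_lit 5) .nil .nil))))))))) 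
(.nd (nat_lit 1) (.nd (nat_lit 2) (.nd (nat_lit 3) (.nd (nat_lit 4) (.nd (nat_lit 5) 
(.nd (nat_lit 6) 
(.lf (nat_lit 11393) (.g (nat_lit 1547) (.e (nat_lit 584) (nat_lit 43) (.e (nat_lit 516117) (nat_lit 1) (.e (nat_lit 164398) (nat_lit 256) (.e (nat_lit 57390) (nat_lit 5) .nil)))) .nil)) 
(.lf (nat_lit 11457) (.g (nat_lit 1254) (.e (nat_lit 585) (nat_lit 43) (.e (nat_lit 516131) (nat_lit 3) (.e (nat_lit 221212) (nat_lit 22) (.e (nat_lit 196681) (nat_lit 17) .nil)))) .nil))) (.nd (nat_lit 6) 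
(.lf (nat_lit 11425) (.g (nat_lit 2527) (.e (nat_lit 584) (nat_lit 43) (.e (nat_lit 516131) (nat_lit 3) (.e (nat_lit 221215) (nat_lit 23) (.e (nat_lit 204861) (nat_lit 26) (.e (nat_lit 336025) (nat_lit 3) .nil))))) .nil)) 
(.lf (nat_lit 11489) (.g (nat_lit 2278) (.e (nat_lit 588) (nat_lit 44) (.e (nat_lit 524322) (nat_lit 12) (.e (nat_lit 450588) (nat_lit 10) (.e (nat_lit 573452) (nat_lit 9) .nil)))) .nil)))) (.nd (nat_lit 5) (.nd (nat_lit 6) 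
(.lf (nat_lit 11409) (.g (nat_lit 3997) (.e (nat_lit 584) (nat_lit 43) (.e (nat_lit 516119) (nat_lit 1) (.e (nat_lit 164403) (nat_lit 256) (.e (nat_lit 57388) (nat_lit 5) (.e (nat_lit 114714) (nat_lit 22) (.e (nat_lit 90160) (nat_lit 11) (.e (nat_lit 24617) (nat_lit 7) (.e (nat_lit 319504) (nat_lit 10) .nil)))))))) (.g (nat_lit 7) .nil .nil))) 
(.lf (nat_lit 11473) (.g (nat_lit 1615) (.e (nat_lit 7936) (nat_lit 43) (.e (nat_lit 516166) (nat_lit 12) (.e (nat_lit 450562) (nat_lit 0) (.e (nat_lit 4181) (nat_lit 251) .nil)))) .nil))) (.nd (nat_lit 6) 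
(.lf (nat_lit 11441) (.g (nat_lit 2241) (.e (nat_lit 584) (nat_lit 43) (.e (nat_lit 516146) (nat_lit 9) (.e (nat_lit 426428) (nat_lit 17) (.e (nat_lit 90174) (nat_lit 14) (.e (nat_lit 180243) (nat_lit 5) (.e (nat_lit 532508) (nat_lit 2) (.e (nat_lit 106550) (nat_lit 14) (.e (nat_lit 1014) (nat_lit 81) .nil)))))))) (.g (nat_lit 4) .nil .nil))) 
(.lf (nat_lit 11505) (.g (nat_lit 2275) (.e (nat_lit 595) (nat_lit 45) (.e (nat_lit 532535) (nat_lit 9) (.e (nat_lit 336176) (nat_lit 10) (.e (nat_lit 344130) (nat_lit 26) .nil)))) .nil))))) (.nd (nat_lit 4) (.nd (nat_lit 5) (.nd (nat_lit 6) 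
(.lf (nat_lit 11401) (.g (nat_lit 3540) (.e (nat_lit 584) (nat_lit 43) (.e (nat_lit 516117) (nat_lit 1) (.e (nat_lit 164399) (nat_lit 256) (.e (nat_lit 57390) (nat_lit 5) (.e (nat_lit 114716) (nat_lit 22) (.e (nat_lit 90160) (nat_lit 11) (.e (nat_lit 24617) (nat_lit 7) (.e (nat_lit 319504) (nat_lit 10) .nil)))))))) (.g (nat_lit 6) .nil .nil))) 
(.lf (nat_lit 11465) (.g (nat_lit 806) (.e (nat_lit 7936) (nat_lit 43) (.e (nat_lit 516151) (nat_lit 9) (.e (nat_lit 426211) (nat_lit 9) (.e (nat_lit 426125) (nat_lit 2) (.e (nat_lit 204544) (nat_lit 12) .nil))))) .nil))) (.nd (nat_lit 6) 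
(.lf (nat_lit 11433) (.g (nat_lit 2494) (.e (nat_lit 584) (nat_lit 43) (.e (nat_lit 516146) (nat_lit 9) (.e (nat_lit 426428) (nat_lit 17) (.e (nat_lit 90174) (nat_lit 14) (.e (nat_lit 180243) (nat_lit 5) (.e (nat_lit 532508) (nat_lit 2) (.e (nat_lit 106543) (nat_lit 14) (.e (nat_lit 996) (nat_lit 81) .nil)))))))) (.g (nat_lit 4) .nil .nil))) 
(.lf (nat_lit 11497) (.g (nat_lit 2179) (.e (nat_lit 592) (nat_lit 45) (.e (nat_lit 532549) (nat_lit 12) (.e (nat_lit 360475) (nat_lit 8) (.e (nat_lit 557087) (nat_lit 11) .nil)))) .nil)))) (.nd (nat_lit 5) (.nd (nat_lit 6) 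
(.lf (nat_lit 11417) (.g (nat_lit 2964) (.e (nat_lit 584) (nat_lit 43) (.e (nat_lit 516120) (nat_lit 1) (.e (nat_lit 164403) (nat_lit 256) (.e (nat_lit 57388) (nat_lit 5) (.e (nat_lit 114714) (nat_lit 22) (.e (nat_lit 90160) (nat_lit 11) (.e (nat_lit 24617) (nat_lit 7) (.e (nat_lit 319504) (nat_lit 10) .nil)))))))) (.g (nat_lit 4) .nil .nil))) 
(.lf (nat_lit 11481) (.g (nat_lit 1257) (.e (nat_lit 7936) (nat_lit 43) (.e (nat_lit 516166) (nat_lit 12) (.e (nat_lit 450587) (nat_lit 10) (.e (nat_lit 573456) (nat_lit 9) (.e (nat_lit 430) (nat_lit 32) .nil))))) .nil))) (.nd (nat_lit 6) 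
(.lf (nat_lit 11449) (.g (nat_lit 2554) (.e (nat_lit 584) (nat_lit 43) (.e (nat_lit 516146) (nat_lit 9) (.e (nat_lit 426428) (nat_lit 17) (.e (nat_lit 90174) (nat_lit 14) (.e (nat_lit 180243) (nat_lit 5) (.e (nat_lit 532511) (nat_lit 2) (.e (nat_lit 106550) (nat_lit 14) (.e (nat_lit 992) (nat_lit 81) .nil)))))))) (.g (nat_lit 4) .nil .nil))) 
(.lf (nat_lit 11513) (.g (nat_lit 1710) (.e (nat_lit 595) (nat_lit 45) (.e (nat_lit 532567) (nat_lit 16) (.e (nat_lit 401459) (nat_lit 13) (.e (nat_lit 491264) (nat_lit 15) .nil)))) .nil)))))) (.nd (nat_lit 3) (.nd (nat_lit 4) (.nd (nat_lit 5) (.nd (nat_lit 6) 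
(.lf (nat_lit 11397) (.g (nat_lit 2478) (.e (nat_lit 584) (nat_lit 43) (.e (nat_lit 516117) (nat_lit 1) (.e (nat_lit 164399) (nat_lit 256) (.e (nat_lit 57388) (nat_lit 5) (.e (nat_lit 114716) (nat_lit 22) .nil))))) .nil)) 
(.lf (nat_lit 11461) (.g (nat_lit 2297) (.e (nat_lit 586) (nat_lit 43) (.e (nat_lit 516119) (nat_lit 1) (.e (nat_lit 164403) (nat_lit 256) (.e (nat_lit 57389) (nat_lit 5) (.e (nat_lit 114714) (nat_lit 22) .nil))))) .nil))) (.nd (nat_lit 6) 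
(.lf (nat_lit 11429) (.g (nat_lit 2233) (.e (nat_lit 584) (nat_lit 43) (.e (nat_lit 516146) (nat_lit 9) (.e (nat_lit 426428) (nat_lit 17) (.e (nat_lit 90174) (nat_lit 14) (.e (nat_lit 180243) (nat_lit 5) .nil))))) .nil)) 
(.lf (nat_lit 11493) (.g (nat_lit 1691) (.e (nat_lit 589) (nat_lit 44) (.e (nat_lit 524322) (nat_lit 12) (.e (nat_lit 450588) (nat_lit 10) (.e (nat_lit 573470) (nat_lit 11) .nil)))) .nil)))) (.nd (nat_lit 5) (.nd (nat_lit 6) 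
(.lf (nat_lit 11413) (.g (nat_lit 2068) (.e (nat_lit 584) (nat_lit 43) (.e (nat_lit 516120) (nat_lit 1) (.e (nat_lit 164330) (nat_lit 230) (.e (nat_lit 163905) (nat_lit 12) (.e (nat_lit 426131) (nat_lit 3) (.e (nat_lit 204857) (nat_lit 26) (.e (nat_lit 336060) (nat_lit 7) (.e (nat_lit 319505) (nat_lit 10) .nil)))))))) (.g (nat_lit 4) .nil .nil))) 
(.lf (nat_lit 11477) (.g (nat_lit 2042) (.e (nat_lit 7936) (nat_lit 43) (.e (nat_lit 516166) (nat_lit 12) (.e (nat_lit 450569) (nat_lit 0) (.e (nat_lit 4215) (nat_lit 251) (.e (nat_lit 1128) (nat_lit 83) .nil))))) .nil))) (.nd (nat_lit 6) 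
(.lf (nat_lit 11445) (.g (nat_lit 2544) (.e (nat_lit 584) (nat_lit 43) (.e (nat_lit 516146) (nat_lit 9) (.e (nat_lit 426428) (nat_lit 17) (.e (nat_lit 90174) (nat_lit 14) (.e (nat_lit 180243) (nat_lit 5) (.e (nat_lit 532510) (nat_lit 2) (.e (nat_lit 106551) (nat_lit 14) (.e (nat_lit 993) (nat_lit 81) .nil)))))))) (.g (nat_lit 4) .nil .nil))) 
(.lf (nat_lit 11509) (.g (nat_lit 2556) (.e (nat_lit 595) (nat_lit 45) (.e (nat_lit 532544) (nat_lit 10) (.e (nat_lit 344133) (nat_lit 26) (.e (nat_lit 557103) (nat_lit 14) (.e (nat_lit 180250) (nat_lit 10) .nil))))) .nil))))) (.nd (nat_lit 4) (.nd (nat_lit 5) (.nd (nat_lit 6) 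
(.lf (nat_lit 11405) (.g (nat_lit 2126) (.e (nat_lit 584) (nat_lit 43) (.e (nat_lit 516117) (nat_lit 1) (.e (nat_lit 164403) (nat_lit 256) (.e (nat_lit 57389) (nat_lit 5) (.e (nat_lit 114716) (nat_lit 22) .nil))))) .nil)) 
(.lf (nat_lit 11469) (.g (nat_lit 1349) (.e (nat_lit 7936) (nat_lit 43) (.e (nat_lit 516163) (nat_lit 11) (.e (nat_lit 442424) (nat_lit 22) (.e (nat_lit 196661) (nat_lit 12) (.e (nat_lit 57714) (nat_lit 176) .nil))))) .nil))) (.nd (nat_lit 6) 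
(.lf (nat_lit 11437) (.g (nat_lit 3049) (.e (nat_lit 584) (nat_lit 43) (.e (nat_lit 516146) (nat_lit 9) (.e (nat_lit 426428) (nat_lit 17) (.e (nat_lit 90174) (nat_lit 14) (.e (nat_lit 180243) (nat_lit 5) (.e (nat_lit 532508) (nat_lit 2) (.e (nat_lit 106543) (nat_lit 14) (.e (nat_lit 1015) (nat_lit 81) .nil)))))))) (.g (nat_lit 5) .nil .nil))) 
(.lf (nat_lit 11501) (.g (nat_lit 4968) (.e (nat_lit 594) (nat_lit 45) (.e (nat_lit 532550) (nat_lit 12) (.e (nat_lit 360475) (nat_lit 8) (.e (nat_lit 557087) (nat_lit 11) (.e (nat_lit 24617) (nat_lit 7) .nil))))) .nil)))) (.nd (nat_lit 5) (.nd (nat_lit 6) 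
(.lf (nat_lit 11421) (.g (nat_lit 4564) (.e (nat_lit 584) (nat_lit 43) (.e (nat_lit 516120) (nat_lit 1) (.e (nat_lit 164403) (nat_lit 256) (.e (nat_lit 57389) (nat_lit 5) (.e (nat_lit 114716) (nat_lit 22) (.e (nat_lit 90160) (nat_lit 11) (.e (nat_lit 24617) (nat_lit 7) (.e (nat_lit 319505) (nat_lit 10) .nil)))))))) (.g (nat_lit 7) .nil .nil))) 
(.lf (nat_lit 11485) (.g (nat_lit 1727) (.e (nat_lit 7936) (nat_lit 43) (.e (nat_lit 516166) (nat_lit 12) (.e (nat_lit 450588) (nat_lit 10) (.e (nat_lit 573470) (nat_lit 11) (.e (nat_lit 16429) (nat_lit 8) .nil))))) .nil))) (.nd (nat_lit 6) 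
(.lf (nat_lit 11453) (.g (nat_lit 4063) (.e (nat_lit 584) (nat_lit 43) (.e (nat_lit 516151) (nat_lit 9) (.e (nat_lit 426286) (nat_lit 10) (.e (nat_lit 434245) (nat_lit 28) .nil)))) .nil)) 
(.lf (nat_lit 11517) (.g (nat_lit 1649) (.e (nat_lit 596) (nat_lit 45) (.e (nat_lit 532490) (nat_lit 0) (.e (nat_lit 2270) (nat_lit 149) (.e (nat_lit 761867) (nat_lit 5) .nil)))) .nil))))))) (.nd (nat_lit 2) (.nd (nat_lit 3) (.nd (nat_lit 4) (.nd (nat_lit 5) (.nd (nat_lit 6) 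
(.lf (nat_lit 11395) (.g (nat_lit 4028) (.e (nat_lit 584) (nat_lit 43) (.e (nat_lit 516117) (nat_lit 1) (.e (nat_lit 164398) (nat_lit 256) (.e (nat_lit 57390) (nat_lit 5) (.e (nat_lit 114716) (nat_lit 22) (.e (nat_lit 90160) (nat_lit 11) (.e (nat_lit 24617) (nat_lit 7) (.e (nat_lit 319504) (nat_lit 10) .nil)))))))) (.g (nat_lit 7) .nil .nil))) 
(.lf (nat_lit 11459) (.g (nat_lit 1186) (.e (nat_lit 585) (nat_lit 43) (.e (nat_lit 516166) (nat_lit 12) (.e (nat_lit 450588) (nat_lit 10) .nil))) .nil))) (.nd (nat_lit 6) 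
(.lf (nat_lit 11427) (.g (nat_lit 1816) (.e (nat_lit 584) (nat_lit 43) (.e (nat_lit 516146) (nat_lit 9) (.e (nat_lit 426428) (nat_lit 17) (.e (nat_lit 90170) (nat_lit 13) .nil)))) .nil)) 
(.lf (nat_lit 11491) (.g (nat_lit 4201) (.e (nat_lit 588) (nat_lit 44) (.e (nat_lit 524322) (nat_lit 12) (.e (nat_lit 450588) (nat_lit 10) (.e (nat_lit 573471) (nat_lit 11) (.e (nat_lit 16425) (nat_lit 7) (.e (nat_lit 409616) (nat_lit 10) .nil)))))) (.g (nat_lit 0) .nil .nil))))) (.nd (nat_lit 5) (.nd (nat_lit 6) 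
(.lf (nat_lit 11411) (.g (nat_lit 1838) (.e (nat_lit 584) (nat_lit 43) (.e (nat_lit 516119) (nat_lit 1) (.e (nat_lit 164403) (nat_lit 256) (.e (nat_lit 57389) (nat_lit 5) (.e (nat_lit 114716) (nat_lit 22) .nil))))) .nil)) 
(.lf (nat_lit 11475) (.g (nat_lit 1468) (.e (nat_lit 7936) (nat_lit 43) (.e (nat_lit 516166) (nat_lit 12) (.e (nat_lit 450563) (nat_lit 0) (.e (nat_lit 4168) (nat_lit 251) .nil)))) .nil))) (.nd (nat_lit 6) 
(.lf (nat_lit 11443) (.g (nat_lit 2658) (.e (nat_lit 584) (nat_lit 43) (.e (nat_lit 516146) (nat_lit 9) (.e (nat_lit 426428) (nat_lit 17) (.e (nat_lit 90174) (nat_lit 14) (.e (nat_lit 180243) (nat_lit 5) (.e (nat_lit 532510) (nat_lit 2) (.e (nat_lit 106551) (nat_lit 14) (.e (nat_lit 982) (nat_lit 81) .nil)))))))) (.g (nat_lit 4) .nil .nil))) 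
(.lf (nat_lit 11507) (.g (nat_lit 1322) (.e (nat_lit 595) (nat_lit 45) (.e (nat_lit 532544) (nat_lit 10) (.e (nat_lit 344117) (nat_lit 21) (.e (nat_lit 516130) (nat_lit 3) .nil)))) .nil))))) (.nd (nat_lit 4) (.nd (nat_lit 5) (.nd (nat_lit 6) 
(.lf (nat_lit 11403) (.g (nat_lit 2158) (.e (nat_lit 584) (nat_lit 43) (.e (nat_lit 516117) (nat_lit 1) (.e (nat_lit 164403) (nat_lit 256) (.e (nat_lit 57388) (nat_lit 5) (.e (nat_lit 114714) (nat_lit 22) (.e (nat_lit 90160) (nat_lit 11) (.e (nat_lit 24617) (nat_lit 7) (.e (nat_lit 319504) (nat_lit 10) .nil)))))))) (.g (nat_lit 4) .nil .nil))) 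
(.lf (nat_lit 11467) (.g (nat_lit 1275) (.e (nat_lit 7936) (nat_lit 43) (.e (nat_lit 516151) (nat_lit 9) (.e (nat_lit 433920) (nat_lit 10) .nil))) .nil))) (.nd (nat_lit 6) 
(.lf (nat_lit 11435) (.g (nat_lit 2470) (.e (nat_lit 584) (nat_lit 43) (.e (nat_lit 516146) (nat_lit 9) (.e (nat_lit 426428) (nat_lit 17) (.e (nat_lit 90174) (nat_lit 14) (.e (nat_lit 180243) (nat_lit 5) (.e (nat_lit 532508) (nat_lit 2) (.e (nat_lit 106543) (nat_lit 14) (.e (nat_lit 1008) (nat_lit 81) .nil)))))))) (.g (nat_lit 4) .nil .nil))) 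
(.lf (nat_lit 11499) (.g (nat_lit 5124) (.e (nat_lit 593) (nat_lit 45) (.e (nat_lit 532550) (nat_lit 12) (.e (nat_lit 360475) (nat_lit 8) (.e (nat_lit 557087) (nat_lit 11) .nil)))) .nil)))) (.nd (nat_lit 5) (.nd (nat_lit 6) 
(.lf (nat_lit 11419) (.g (nat_lit 2886) (.e (nat_lit 584) (nat_lit 43) (.e (nat_lit 516120) (nat_lit 1) (.e (nat_lit 164403) (nat_lit 256) (.e (nat_lit 57389) (nat_lit 5) (.e (nat_lit 114714) (nat_lit 22) (.e (nat_lit 90160) (nat_lit 11) (.e (nat_lit 24617) (nat_lit 7) (.e (nat_lit 319504) (nat_lit 10) .nil)))))))) (.g (nat_lit 4) .nil .nil))) 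
(.lf (nat_lit 11483) (.g (nat_lit 103) (.e (nat_lit 7936) (nat_lit 43) (.e (nat_lit 516166) (nat_lit 12) (.e (nat_lit 450588) (nat_lit 10) .nil))) .nil))) (.nd (nat_lit 6) 
(.lf (nat_lit 11451) (.g (nat_lit 798) (.e (nat_lit 584) (nat_lit 43) (.e (nat_lit 516146) (nat_lit 9) (.e (nat_lit 426438) (nat_lit 18) .nil))) .nil)) 
(.lf (nat_lit 11515) (.g (nat_lit 1184) (.e (nat_lit 596) (nat_lit 45) (.e (nat_lit 532490) (nat_lit 0) (.e (nat_lit 1040) (nat_lit 81) (.e (nat_lit 7273) (nat_lit 385) .nil)))) .nil)))))) (.nd (nat_lit 3) (.nd (nat_lit 4) (.nd (nat_lit 5) (.nd (nat_lit 6) 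
(.lf (nat_lit 11399) (.g (nat_lit 2664) (.e (nat_lit 584) (nat_lit 43) (.e (nat_lit 516117) (nat_lit 1) (.e (nat_lit 164399) (nat_lit 256) (.e (nat_lit 57389) (nat_lit 5) (.e (nat_lit 114716) (nat_lit 22) (.e (nat_lit 90160) (nat_lit 11) (.e (nat_lit 24617) (nat_lit 7) (.e (nat_lit 319505) (nat_lit 10) .nil)))))))) (.g (nat_lit 4) .nil .nil))) 
(.lf (nat_lit 11463) (.g (nat_lit 689) (.e (nat_lit 7936) (nat_lit 43) (.e (nat_lit 516151) (nat_lit 9) (.e (nat_lit 426170) (nat_lit 7) (.e (nat_lit 409631) (nat_lit 12) (.e (nat_lit 32807) (nat_lit 18) .nil))))) .nil))) (.nd (nat_lit 6) 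
(.lf (nat_lit 11431) (.g (nat_lit 2321) (.e (nat_lit 584) (nat_lit 43) (.e (nat_lit 516146) (nat_lit 9) (.e (nat_lit 426428) (nat_lit 17) (.e (nat_lit 90174) (nat_lit 14) (.e (nat_lit 180243) (nat_lit 5) (.e (nat_lit 532508) (nat_lit 2) (.e (nat_lit 106543) (nat_lit 14) (.e (nat_lit 974) (nat_lit 81) .nil)))))))) (.g (nat_lit 4) .nil .nil))) 
(.lf (nat_lit 11495) (.g (nat_lit 1689) (.e (nat_lit 7936) (nat_lit 44) (.e (nat_lit 524322) (nat_lit 12) (.e (nat_lit 450588) (nat_lit 10) (.e (nat_lit 573470) (nat_lit 11) (.e (nat_lit 16430) (nat_lit 8) .nil))))) .nil)))) (.nd (nat_lit 5) (.nd (nat_lit 6) 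
(.lf (nat_lit 11415) (.g (nat_lit 2251) (.e (nat_lit 584) (nat_lit 43) (.e (nat_lit 516120) (nat_lit 1) (.e (nat_lit 164401) (nat_lit 256) (.e (nat_lit 57389) (nat_lit 5) (.e (nat_lit 114716) (nat_lit 22) .nil))))) .nil)) 
(.lf (nat_lit 11479) (.g (nat_lit 3304) (.e (nat_lit 7936) (nat_lit 43) (.e (nat_lit 516166) (nat_lit 12) (.e (nat_lit 450586) (nat_lit 10) (.e (nat_lit 573471) (nat_lit 11) (.e (nat_lit 16425) (nat_lit 7) .nil))))) .nil))) (.nd (nat_lit 6) 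
(.lf (nat_lit 11447) (.g (nat_lit 3128) (.e (nat_lit 584) (nat_lit 43) (.e (nat_lit 516146) (nat_lit 9) (.e (nat_lit 426428) (nat_lit 17) (.e (nat_lit 90174) (nat_lit 14) (.e (nat_lit 180243) (nat_lit 5) (.e (nat_lit 532510) (nat_lit 2) (.e (nat_lit 106551) (nat_lit 14) (.e (nat_lit 1014) (nat_lit 81) .nil)))))))) (.g (nat_lit 5) .nil .nil))) 
(.lf (nat_lit 11511) (.g (nat_lit 4847) (.e (nat_lit 595) (nat_lit 45) (.e (nat_lit 532550) (nat_lit 12) (.e (nat_lit 360474) (nat_lit 8) (.e (nat_lit 557087) (nat_lit 11) .nil)))) .nil))))) (.nd (nat_lit 4) (.nd (nat_lit 5) (.nd (nat_lit 6) 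
(.lf (nat_lit 11407) (.g (nat_lit 2140) (.e (nat_lit 584) (nat_lit 43) (.e (nat_lit 516119) (nat_lit 1) (.e (nat_lit 164401) (nat_lit 256) (.e (nat_lit 57388) (nat_lit 5) (.e (nat_lit 114714) (nat_lit 22) .nil))))) .nil)) 
(.lf (nat_lit 11471) (.g (nat_lit 2328) (.e (nat_lit 7936) (nat_lit 43) (.e (nat_lit 516165) (nat_lit 12) (.e (nat_lit 450586) (nat_lit 10) (.e (nat_lit 573450) (nat_lit 9) (.e (nat_lit 375) (nat_lit 32) .nil))))) .nil))) (.nd (nat_lit 6) 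
(.lf (nat_lit 11439) (.g (nat_lit 2479) (.e (nat_lit 584) (nat_lit 43) (.e (nat_lit 516146) (nat_lit 9) (.e (nat_lit 426428) (nat_lit 17) (.e (nat_lit 90174) (nat_lit 14) (.e (nat_lit 180243) (nat_lit 5) (.e (nat_lit 532508) (nat_lit 2) (.e (nat_lit 106548) (nat_lit 14) (.e (nat_lit 1006) (nat_lit 81) .nil)))))))) (.g (nat_lit 4) .nil .nil))) 
(.lf (nat_lit 11503) (.g (nat_lit 2537) (.e (nat_lit 595) (nat_lit 45) (.e (nat_lit 532499) (nat_lit 1) (.e (nat_lit 57847) (nat_lit 252) (.e (nat_lit 57432) (nat_lit 16) .nil)))) .nil)))) (.nd (nat_lit 5) (.nd (nat_lit 6) 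
(.lf (nat_lit 11423) (.g (nat_lit 1232) (.e (nat_lit 584) (nat_lit 43) (.e (nat_lit 516131) (nat_lit 3) (.e (nat_lit 229120) (nat_lit 18) (.e (nat_lit 393229) (nat_lit 9) (.e (nat_lit 336067) (nat_lit 8) (.e (nat_lit 327702) (nat_lit 10) .nil)))))) (.g (nat_lit 4) .nil .nil))) 
(.lf (nat_lit 11487) (.g (nat_lit 3984) (.e (nat_lit 588) (nat_lit 44) (.e (nat_lit 524320) (nat_lit 12) (.e (nat_lit 450586) (nat_lit 10) (.e (nat_lit 573471) (nat_lit 11) (.e (nat_lit 16425) (nat_lit 7) (.e (nat_lit 409617) (nat_lit 10) .nil)))))) (.g (nat_lit 6) .nil .nil)))) (.nd (nat_lit 6) 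
(.lf (nat_lit 11455) (.g (nat_lit 2521) (.e (nat_lit 584) (nat_lit 43) (.e (nat_lit 516195) (nat_lit 26) (.e (nat_lit 336223) (nat_lit 13) (.e (nat_lit 393251) (nat_lit 18) .nil)))) .nil)) 
(.lf (nat_lit 11519) (.g (nat_lit 1430) (.e (nat_lit 596) (nat_lit 45) (.e (nat_lit 532535) (nat_lit 9) (.e (nat_lit 336038) (nat_lit 5) (.e (nat_lit 139276) (nat_lit 2) .nil)))) .nil)))))))))

noncomputable def tv157 : DT := (.nd (nat_lit 0) (.nd (nat_lit 1) (.nd (nat_lit 2) (.nd (nat_lit 3) (.nd (nat_lit 4) (.nd (nat_lit 5) 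
(.lf (nat_lit 11520) (.g (nat_lit 1179) (.e (nat_lit 596) (nat_lit 45) (.e (nat_lit 532544) (nat_lit 10) (.e (nat_lit 344129) (nat_lit 26) (.e (nat_lit 557097) (nat_lit 13) .nil)))) .nil)) 
(.lf (nat_lit 11552) (.g (nat_lit 3437) (.e (nat_lit 601) (nat_lit 45) (.e (nat_lit 532535) (nat_lit 9) (.e (nat_lit 336176) (nat_lit 10) (.e (nat_lit 344130) (nat_lit 26) .nil)))) .nil))) (.nd (nat_lit 5) 
(.lf (nat_lit 11536) (.g (nat_lit 4047) (.e (nat_lit 598) (nat_lit 45) (.e (nat_lit 532535) (nat_lit 9) (.e (nat_lit 336176) (nat_lit 10) (.e (nat_lit 344130) (nat_lit 26) .nil)))) .nil)) 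
(.lf (nat_lit 11568) (.g (nat_lit 4236) (.e (nat_lit 604) (nat_lit 45) (.e (nat_lit 532499) (nat_lit 1) (.e (nat_lit 57847) (nat_lit 252) (.e (nat_lit 57430) (nat_lit 16) (.e (nat_lit 368676) (nat_lit 21) (.e (nat_lit 516152) (nat_lit 9) (.e (nat_lit 426173) (nat_lit 7) (.e (nat_lit 409617) (nat_lit 10) .nil)))))))) (.g (nat_lit 5) .nil .nil))))) (.nd (nat_lit 4) (.nd (nat_lit 5) 
(.lf (nat_lit 11528) (.g (nat_lit 1485) (.e (nat_lit 596) (nat_lit 45) (.e (nat_lit 532544) (nat_lit 10) (.e (nat_lit 344133) (nat_lit 26) (.e (nat_lit 557098) (nat_lit 13) .nil)))) .nil)) 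
(.lf (nat_lit 11560) (.g (nat_lit 1917) (.e (nat_lit 603) (nat_lit 45) (.e (nat_lit 532504) (nat_lit 1) (.e (nat_lit 57852) (nat_lit 252) (.e (nat_lit 57404) (nat_lit 12) .nil)))) .nil))) (.nd (nat_lit 5) 
(.lf (nat_lit 11544) (.g (nat_lit 2800) (.e (nat_lit 599) (nat_lit 45) (.e (nat_lit 532504) (nat_lit 1) (.e (nat_lit 57851) (nat_lit 252) (.e (nat_lit 57420) (nat_lit 13) (.e (nat_lit 344117) (nat_lit 21) (.e (nat_lit 516151) (nat_lit 9) (.e (nat_lit 426171) (nat_lit 7) (.e (nat_lit 409612) (nat_lit 10) .nil)))))))) (.g (nat_lit 4) .nil .nil))) 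
(.lf (nat_lit 11576) (.g (nat_lit 2354) (.e (nat_lit 604) (nat_lit 45) (.e (nat_lit 532499) (nat_lit 1) (.e (nat_lit 57927) (nat_lit 282) (.e (nat_lit 163884) (nat_lit 5) (.e (nat_lit 221210) (nat_lit 22) .nil))))) .nil))))) (.nd (nat_lit 3) (.nd (nat_lit 4) (.nd (nat_lit 5) 
(.lf (nat_lit 11524) (.g (nat_lit 1894) (.e (nat_lit 596) (nat_lit 45) (.e (nat_lit 532544) (nat_lit 10) (.e (nat_lit 344130) (nat_lit 26) (.e (nat_lit 557097) (nat_lit 13) (.e (nat_lit 172066) (nat_lit 3) .nil))))) .nil)) 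
(.lf (nat_lit 11556) (.g (nat_lit 2363) (.e (nat_lit 602) (nat_lit 45) (.e (nat_lit 532504) (nat_lit 1) (.e (nat_lit 57829) (nat_lit 250) (.e (nat_lit 1201) (nat_lit 88) (.e (nat_lit 65566) (nat_lit 2) .nil))))) .nil))) (.nd (nat_lit 5) 
(.lf (nat_lit 11540) (.g (nat_lit 2381) (.e (nat_lit 599) (nat_lit 45) (.e (nat_lit 532504) (nat_lit 1) (.e (nat_lit 57829) (nat_lit 250) (.e (nat_lit 1201) (nat_lit 88) (.e (nat_lit 65566) (nat_lit 2) (.e (nat_lit 90170) (nat_lit 13) (.e (nat_lit 172079) (nat_lit 7) (.e (nat_lit 409611) (nat_lit 10) .nil)))))))) (.g (nat_lit 4) .nil .nil))) 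
(.lf (nat_lit 11572) (.g (nat_lit 4164) (.e (nat_lit 604) (nat_lit 45) (.e (nat_lit 532499) (nat_lit 1) (.e (nat_lit 57847) (nat_lit 252) (.e (nat_lit 57432) (nat_lit 16) (.e (nat_lit 368676) (nat_lit 21) (.e (nat_lit 516152) (nat_lit 9) (.e (nat_lit 426173) (nat_lit 7) (.e (nat_lit 409617) (nat_lit 10) .nil)))))))) (.g (nat_lit 5) .nil .nil))))) (.nd (nat_lit 4) (.nd (nat_lit 5) 
(.lf (nat_lit 11532) (.g (nat_lit 2599) (.e (nat_lit 596) (nat_lit 45) (.e (nat_lit 532544) (nat_lit 10) (.e (nat_lit 344133) (nat_lit 26) (.e (nat_lit 557098) (nat_lit 13) (.e (nat_lit 172067) (nat_lit 3) .nil))))) .nil)) 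
(.lf (nat_lit 11564) (.g (nat_lit 3087) (.e (nat_lit 604) (nat_lit 45) (.e (nat_lit 532499) (nat_lit 1) (.e (nat_lit 57847) (nat_lit 252) (.e (nat_lit 57411) (nat_lit 12) (.e (nat_lit 336019) (nat_lit 3) .nil))))) .nil))) (.nd (nat_lit 5) 
(.lf (nat_lit 11548) (.g (nat_lit 2996) (.e (nat_lit 600) (nat_lit 45) (.e (nat_lit 532535) (nat_lit 9) (.e (nat_lit 336176) (nat_lit 10) (.e (nat_lit 344130) (nat_lit 26) .nil)))) .nil)) 
(.lf (nat_lit 11580) (.g (nat_lit 4245) (.e (nat_lit 604) (nat_lit 45) (.e (nat_lit 532501) (nat_lit 1) (.e (nat_lit 57830) (nat_lit 250) (.e (nat_lit 1201) (nat_lit 88) (.e (nat_lit 65566) (nat_lit 2) (.e (nat_lit 90170) (nat_lit 13) (.e (nat_lit 172082) (nat_lit 7) (.e (nat_lit 409612) (nat_lit 10) .nil)))))))) (.g (nat_lit 7) .nil .nil))))))) 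
(.nd (nat_lit 2) (.nd (nat_lit 3) (.nd (nat_lit 4) (.nd (nat_lit 5) 
(.lf (nat_lit 11522) (.g (nat_lit 2208) (.e (nat_lit 596) (nat_lit 45) (.e (nat_lit 532544) (nat_lit 10) (.e (nat_lit 344129) (nat_lit 26) (.e (nat_lit 557097) (nat_lit 13) (.e (nat_lit 172067) (nat_lit 3) .nil))))) .nil)) 
(.lf (nat_lit 11554) (.g (nat_lit 1063) (.e (nat_lit 601) (nat_lit 45) (.e (nat_lit 532550) (nat_lit 12) (.e (nat_lit 360475) (nat_lit 8) .nil))) .nil))) (.nd (nat_lit 5) 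
(.lf (nat_lit 11538) (.g (nat_lit 1762) (.e (nat_lit 599) (nat_lit 45) (.e (nat_lit 532501) (nat_lit 1) (.e (nat_lit 57830) (nat_lit 250) (.e (nat_lit 1296) (nat_lit 96) (.e (nat_lit 131093) (nat_lit 2) (.e (nat_lit 90170) (nat_lit 13) (.e (nat_lit 172079) (nat_lit 7) (.e (nat_lit 409611) (nat_lit 10) .nil)))))))) (.g (nat_lit 4) .nil .nil))) 
(.lf (nat_lit 11570) (.g (nat_lit 2440) (.e (nat_lit 604) (nat_lit 45) (.e (nat_lit 532499) (nat_lit 1) (.e (nat_lit 57847) (nat_lit 252) (.e (nat_lit 57432) (nat_lit 16) .nil)))) .nil)))) (.nd (nat_lit 4) (.nd (nat_lit 5) 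
(.lf (nat_lit 11530) (.g (nat_lit 2528) (.e (nat_lit 596) (nat_lit 45) (.e (nat_lit 532544) (nat_lit 10) (.e (nat_lit 344133) (nat_lit 26) (.e (nat_lit 557098) (nat_lit 13) (.e (nat_lit 172051) (nat_lit 0) .nil))))) .nil)) 
(.lf (nat_lit 11562) (.g (nat_lit 2844) (.e (nat_lit 604) (nat_lit 45) (.e (nat_lit 532499) (nat_lit 1) (.e (nat_lit 57847) (nat_lit 252) (.e (nat_lit 57410) (nat_lit 12) (.e (nat_lit 336019) (nat_lit 3) .nil))))) .nil))) (.nd (nat_lit 5) 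
(.lf (nat_lit 11546) (.g (nat_lit 1681) (.e (nat_lit 599) (nat_lit 45) (.e (nat_lit 532504) (nat_lit 1) (.e (nat_lit 57852) (nat_lit 252) (.e (nat_lit 57419) (nat_lit 12) .nil)))) .nil)) 
(.lf (nat_lit 11578) (.g (nat_lit 2250) (.e (nat_lit 604) (nat_lit 45) (.e (nat_lit 532499) (nat_lit 1) (.e (nat_lit 57931) (nat_lit 282) (.e (nat_lit 163885) (nat_lit 5) (.e (nat_lit 221212) (nat_lit 22) .nil))))) .nil))))) (.nd (nat_lit 3) (.nd (nat_lit 4) (.nd (nat_lit 5) 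
(.lf (nat_lit 11526) (.g (nat_lit 1246) (.e (nat_lit 596) (nat_lit 45) (.e (nat_lit 532544) (nat_lit 10) (.e (nat_lit 344132) (nat_lit 26) (.e (nat_lit 557101) (nat_lit 13) .nil)))) .nil)) 
(.lf (nat_lit 11558) (.g (nat_lit 2561) (.e (nat_lit 602) (nat_lit 45) (.e (nat_lit 532504) (nat_lit 1) (.e (nat_lit 57851) (nat_lit 252) (.e (nat_lit 57412) (nat_lit 12) .nil)))) .nil))) (.nd (nat_lit 5) 
(.lf (nat_lit 11542) (.g (nat_lit 1485) (.e (nat_lit 599) (nat_lit 45) (.e (nat_lit 532504) (nat_lit 1) (.e (nat_lit 57830) (nat_lit 250) (.e (nat_lit 1296) (nat_lit 96) (.e (nat_lit 131091) (nat_lit 2) .nil))))) .nil)) 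
(.lf (nat_lit 11574) (.g (nat_lit 917) (.e (nat_lit 604) (nat_lit 45) (.e (nat_lit 532499) (nat_lit 1) (.e (nat_lit 57926) (nat_lit 282) .nil))) .nil)))) (.nd (nat_lit 4) (.nd (nat_lit 5) 
(.lf (nat_lit 11534) (.g (nat_lit 2481) (.e (nat_lit 596) (nat_lit 45) (.e (nat_lit 532563) (nat_lit 15) (.e (nat_lit 385066) (nat_lit 26) (.e (nat_lit 532553) (nat_lit 13) (.e (nat_lit 368676) (nat_lit 21) .nil))))) .nil)) 
(.lf (nat_lit 11566) (.g (nat_lit 2428) (.e (nat_lit 604) (nat_lit 45) (.e (nat_lit 532499) (nat_lit 1) (.e (nat_lit 57847) (nat_lit 252) (.e (nat_lit 57430) (nat_lit 16) .nil)))) .nil))) (.nd (nat_lit 5) 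
(.lf (nat_lit 11550) (.g (nat_lit 2810) (.e (nat_lit 601) (nat_lit 45) (.e (nat_lit 532504) (nat_lit 1) (.e (nat_lit 57851) (nat_lit 252) (.e (nat_lit 57421) (nat_lit 13) (.e (nat_lit 344117) (nat_lit 21) (.e (nat_lit 516151) (nat_lit 9) (.e (nat_lit 426171) (nat_lit 7) (.e (nat_lit 417536) (nat_lit 10) .nil)))))))) (.g (nat_lit 4) .nil .nil))) 
(.lf (nat_lit 11582) (.g (nat_lit 1540) (.e (nat_lit 604) (nat_lit 45) (.e (nat_lit 532501) (nat_lit 1) (.e (nat_lit 57830) (nat_lit 250) (.e (nat_lit 1201) (nat_lit 88) (.e (nat_lit 65569) (nat_lit 3) .nil))))) .nil))))))) (.nd (nat_lit 1) (.nd (nat_lit 2) (.nd (nat_lit 3) (.nd (nat_lit 4) (.nd (nat_lit 5) 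
(.lf (nat_lit 11521) (.g (nat_lit 1971) (.e (nat_lit 596) (nat_lit 45) (.e (nat_lit 532544) (nat_lit 10) (.e (nat_lit 344129) (nat_lit 26) (.e (nat_lit 557097) (nat_lit 13) (.e (nat_lit 172066) (nat_lit 3) .nil))))) .nil)) 
(.lf (nat_lit 11553) (.g (nat_lit 2180) (.e (nat_lit 601) (nat_lit 45) (.e (nat_lit 532549) (nat_lit 12) (.e (nat_lit 360475) (nat_lit 8) (.e (nat_lit 557087) (nat_lit 11) .nil)))) .nil))) (.nd (nat_lit 5) 
(.lf (nat_lit 11537) (.g (nat_lit 1186) (.e (nat_lit 598) (nat_lit 45) (.e (nat_lit 532550) (nat_lit 12) (.e (nat_lit 360475) (nat_lit 8) .nil))) .nil)) 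
(.lf (nat_lit 11569) (.g (nat_lit 4046) (.e (nat_lit 604) (nat_lit 45) (.e (nat_lit 532499) (nat_lit 1) (.e (nat_lit 57847) (nat_lit 252) (.e (nat_lit 57430) (nat_lit 16) (.e (nat_lit 368676) (nat_lit 21) (.e (nat_lit 516153) (nat_lit 9) (.e (nat_lit 426173) (nat_lit 7) (.e (nat_lit 409617) (nat_lit 10) .nil)))))))) (.g (nat_lit 5) .nil .nil))))) (.nd (nat_lit 4) (.nd (nat_lit 5) 
(.lf (nat_lit 11529) (.g (nat_lit 2493) (.e (nat_lit 596) (nat_lit 45) (.e (nat_lit 532544) (nat_lit 10) (.e (nat_lit 344133) (nat_lit 26) (.e (nat_lit 557098) (nat_lit 13) (.e (nat_lit 172032) (nat_lit 0) .nil))))) .nil)) 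
(.lf (nat_lit 11561) (.g (nat_lit 3062) (.e (nat_lit 604) (nat_lit 45) (.e (nat_lit 532499) (nat_lit 1) (.e (nat_lit 57847) (nat_lit 252) (.e (nat_lit 57404) (nat_lit 12) .nil)))) .nil))) (.nd (nat_lit 5) 
(.lf (nat_lit 11545) (.g (nat_lit 4319) (.e (nat_lit 599) (nat_lit 45) (.e (nat_lit 532504) (nat_lit 1) (.e (nat_lit 57852) (nat_lit 252) (.e (nat_lit 57404) (nat_lit 12) (.e (nat_lit 336013) (nat_lit 2) (.e (nat_lit 90170) (nat_lit 13) (.e (nat_lit 172079) (nat_lit 7) (.e (nat_lit 409611) (nat_lit 10) .nil)))))))) (.g (nat_lit 7) .nil .nil))) 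
(.lf (nat_lit 11577) (.g (nat_lit 1820) (.e (nat_lit 604) (nat_lit 45) (.e (nat_lit 532499) (nat_lit 1) (.e (nat_lit 57927) (nat_lit 282) (.e (nat_lit 163886) (nat_lit 5) (.e (nat_lit 221212) (nat_lit 22) .nil))))) .nil))))) (.nd (nat_lit 3) (.nd (nat_lit 4) (.nd (nat_lit 5) 
(.lf (nat_lit 11525) (.g (nat_lit 2019) (.e (nat_lit 596) (nat_lit 45) (.e (nat_lit 532544) (nat_lit 10) (.e (nat_lit 344130) (nat_lit 26) (.e (nat_lit 557097) (nat_lit 13) (.e (nat_lit 172067) (nat_lit 3) .nil))))) .nil)) 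
(.lf (nat_lit 11557) (.g (nat_lit 1529) (.e (nat_lit 602) (nat_lit 45) (.e (nat_lit 532504) (nat_lit 1) (.e (nat_lit 57851) (nat_lit 252) .nil))) .nil))) (.nd (nat_lit 5) 
(.lf (nat_lit 11541) (.g (nat_lit 641) (.e (nat_lit 599) (nat_lit 45) (.e (nat_lit 532504) (nat_lit 1) (.e (nat_lit 57830) (nat_lit 250) .nil))) .nil)) 
(.lf (nat_lit 11573) (.g (nat_lit 3975) (.e (nat_lit 604) (nat_lit 45) (.e (nat_lit 532499) (nat_lit 1) (.e (nat_lit 57847) (nat_lit 252) (.e (nat_lit 57432) (nat_lit 16) (.e (nat_lit 368676) (nat_lit 21) (.e (nat_lit 516153) (nat_lit 9) (.e (nat_lit 426173) (nat_lit 7) (.e (nat_lit 409617) (nat_lit 10) .nil)))))))) (.g (nat_lit 5) .nil .nil))))) (.nd (nat_lit 4) (.nd (nat_lit 5) 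
(.lf (nat_lit 11533) (.g (nat_lit 4488) (.e (nat_lit 596) (nat_lit 45) (.e (nat_lit 532550) (nat_lit 12) (.e (nat_lit 360475) (nat_lit 8) (.e (nat_lit 557087) (nat_lit 11) .nil)))) .nil)) 
(.lf (nat_lit 11565) (.g (nat_lit 3059) (.e (nat_lit 604) (nat_lit 45) (.e (nat_lit 532499) (nat_lit 1) (.e (nat_lit 57847) (nat_lit 252) (.e (nat_lit 57420) (nat_lit 13) .nil)))) .nil))) (.nd (nat_lit 5) 
(.lf (nat_lit 11549) (.g (nat_lit 2624) (.e (nat_lit 601) (nat_lit 45) (.e (nat_lit 532504) (nat_lit 1) (.e (nat_lit 57851) (nat_lit 252) (.e (nat_lit 57420) (nat_lit 13) .nil)))) .nil)) 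
(.lf (nat_lit 11581) (.g (nat_lit 4500) (.e (nat_lit 604) (nat_lit 45) (.e (nat_lit 532501) (nat_lit 1) (.e (nat_lit 57830) (nat_lit 250) (.e (nat_lit 1201) (nat_lit 88) (.e (nat_lit 65568) (nat_lit 2) (.e (nat_lit 90170) (nat_lit 13) (.e (nat_lit 172082) (nat_lit 7) (.e (nat_lit 409612) (nat_lit 10) .nil)))))))) (.g (nat_lit 7) .nil .nil))))))) 
(.nd (nat_lit 2) (.nd (nat_lit 3) (.nd (nat_lit 4) (.nd (nat_lit 5) 
(.lf (nat_lit 11523) (.g (nat_lit 1138) (.e (nat_lit 596) (nat_lit 45) (.e (nat_lit 532544) (nat_lit 10) (.e (nat_lit 344130) (nat_lit 26) (.e (nat_lit 557097) (nat_lit 13) .nil)))) .nil)) 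
(.lf (nat_lit 11555) (.g (nat_lit 4977) (.e (nat_lit 601) (nat_lit 45) (.e (nat_lit 532550) (nat_lit 12) (.e (nat_lit 360475) (nat_lit 8) (.e (nat_lit 557087) (nat_lit 11) .nil)))) .nil))) (.nd (nat_lit 5) 
(.lf (nat_lit 11539) (.g (nat_lit 1472) (.e (nat_lit 599) (nat_lit 45) (.e (nat_lit 532501) (nat_lit 1) (.e (nat_lit 57851) (nat_lit 252) .nil))) .nil)) 
(.lf (nat_lit 11571) (.g (nat_lit 4180) (.e (nat_lit 604) (nat_lit 45) (.e (nat_lit 532499) (nat_lit 1) (.e (nat_lit 57847) (nat_lit 252) (.e (nat_lit 57432) (nat_lit 16) (.e (nat_lit 368676) (nat_lit 21) (.e (nat_lit 516143) (nat_lit 9) (.e (nat_lit 426173) (nat_lit 7) (.e (nat_lit 409617) (nat_lit 10) .nil)))))))) (.g (nat_lit 5) .nil .nil))))) (.nd (nat_lit 4) (.nd (nat_lit 5) 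
(.lf (nat_lit 11531) (.g (nat_lit 2749) (.e (nat_lit 596) (nat_lit 45) (.e (nat_lit 532544) (nat_lit 10) (.e (nat_lit 344133) (nat_lit 26) (.e (nat_lit 557098) (nat_lit 13) (.e (nat_lit 172066) (nat_lit 3) .nil))))) .nil)) 
(.lf (nat_lit 11563) (.g (nat_lit 2987) (.e (nat_lit 604) (nat_lit 45) (.e (nat_lit 532499) (nat_lit 1) (.e (nat_lit 57847) (nat_lit 252) (.e (nat_lit 57410) (nat_lit 12) (.e (nat_lit 336019) (nat_lit 3) (.e (nat_lit 98354) (nat_lit 26) (.e (nat_lit 426173) (nat_lit 7) (.e (nat_lit 409617) (nat_lit 10) .nil)))))))) (.g (nat_lit 4) .nil .nil)))) (.nd (nat_lit 5) 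
(.lf (nat_lit 11547) (.g (nat_lit 5422) (.e (nat_lit 599) (nat_lit 45) (.e (nat_lit 532550) (nat_lit 12) (.e (nat_lit 360475) (nat_lit 8) (.e (nat_lit 557087) (nat_lit 11) .nil)))) .nil)) 
(.lf (nat_lit 11579) (.g (nat_lit 439) (.e (nat_lit 604) (nat_lit 45) (.e (nat_lit 532501) (nat_lit 1) (.e (nat_lit 57830) (nat_lit 250) .nil))) .nil))))) (.nd (nat_lit 3) (.nd (nat_lit 4) (.nd (nat_lit 5) 
(.lf (nat_lit 11527) (.g (nat_lit 1770) (.e (nat_lit 596) (nat_lit 45) (.e (nat_lit 532544) (nat_lit 10) (.e (nat_lit 344133) (nat_lit 26) (.e (nat_lit 557096) (nat_lit 13) .nil)))) .nil)) 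
(.lf (nat_lit 11559) (.g (nat_lit 1529) (.e (nat_lit 603) (nat_lit 45) (.e (nat_lit 532504) (nat_lit 1) (.e (nat_lit 57851) (nat_lit 252) .nil))) .nil))) (.nd (nat_lit 5) 
(.lf (nat_lit 11543) (.g (nat_lit 2473) (.e (nat_lit 599) (nat_lit 45) (.e (nat_lit 532504) (nat_lit 1) (.e (nat_lit 57851) (nat_lit 252) (.e (nat_lit 57412) (nat_lit 12) .nil)))) .nil)) 
(.lf (nat_lit 11575) (.g (nat_lit 2252) (.e (nat_lit 604) (nat_lit 45) (.e (nat_lit 532499) (nat_lit 1) (.e (nat_lit 57926) (nat_lit 282) (.e (nat_lit 163886) (nat_lit 5) (.e (nat_lit 221212) (nat_lit 22) .nil))))) .nil)))) (.nd (nat_lit 4) (.nd (nat_lit 5) 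
(.lf (nat_lit 11535) (.g (nat_lit 1186) (.e (nat_lit 597) (nat_lit 45) (.e (nat_lit 532550) (nat_lit 12) (.e (nat_lit 360475) (nat_lit 8) .nil))) .nil)) 
(.lf (nat_lit 11567) (.g (nat_lit 4252) (.e (nat_lit 604) (nat_lit 45) (.e (nat_lit 532499) (nat_lit 1) (.e (nat_lit 57847) (nat_lit 252) (.e (nat_lit 57430) (nat_lit 16) (.e (nat_lit 368676) (nat_lit 21) (.e (nat_lit 516143) (nat_lit 9) (.e (nat_lit 426173) (nat_lit 7) (.e (nat_lit 409617) (nat_lit 10) .nil)))))))) (.g (nat_lit 5) .nil .nil)))) (.nd (nat_lit 5) 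
(.lf (nat_lit 11551) (.g (nat_lit 1917) (.e (nat_lit 601) (nat_lit 45) (.e (nat_lit 532504) (nat_lit 1) (.e (nat_lit 57852) (nat_lit 252) (.e (nat_lit 57404) (nat_lit 12) .nil)))) .nil)) 
(.lf (nat_lit 11583) (.g (nat_lit 3770) (.e (nat_lit 604) (nat_lit 45) (.e (nat_lit 532501) (nat_lit 1) (.e (nat_lit 57830) (nat_lit 250) (.e (nat_lit 1201) (nat_lit 88) (.e (nat_lit 65571) (nat_lit 3) (.e (nat_lit 98359) (nat_lit 26) (.e (nat_lit 426173) (nat_lit 7) (.e (nat_lit 409617) (nat_lit 10) .nil)))))))) (.g (nat_lit 6) .nil .nil)))))))))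

noncomputable def tv158 : DT := (.nd (nat_lit 0) (.nd (nat_lit 1) (.nd (nat_lit 2) (.nd (nat_lit 3) (.nd (nat_lit 4) (.nd (nat_lit 5) 
(.lf (nat_lit 11584) (.g (nat_lit 1512) (.e (nat_lit 604) (nat_lit 45) (.e (nat_lit 532501) (nat_lit 1) (.e (nat_lit 57830) (nat_lit 250) (.e (nat_lit 1214) (nat_lit 89) (.e (nat_lit 73746) (nat_lit 3) .nil))))) .nil)) 
(.lf (nat_lit 11616) (.g (nat_lit 1078) (.e (nat_lit 604) (nat_lit 45) (.e (nat_lit 532504) (nat_lit 1) (.e (nat_lit 57830) (nat_lit 250) (.e (nat_lit 1296) (nat_lit 96) .nil)))) .nil))) (.nd (nat_lit 5) 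
(.lf (nat_lit 11600) (.g (nat_lit 4965) (.e (nat_lit 604) (nat_lit 45) (.e (nat_lit 532501) (nat_lit 1) (.e (nat_lit 57852) (nat_lit 252) (.e (nat_lit 57421) (nat_lit 13) (.e (nat_lit 344117) (nat_lit 21) (.e (nat_lit 516151) (nat_lit 9) (.e (nat_lit 426170) (nat_lit 7) (.e (nat_lit 409617) (nat_lit 10) .nil)))))))) (.g (nat_lit 6) .nil .nil))) 
(.lf (nat_lit 11632) (.g (nat_lit 2708) (.e (nat_lit 604) (nat_lit 45) (.e (nat_lit 532504) (nat_lit 1) (.e (nat_lit 57852) (nat_lit 252) (.e (nat_lit 57417) (nat_lit 12) (.e (nat_lit 336017) (nat_lit 3) .nil))))) .nil)))) (.nd (nat_lit 4) (.nd (nat_lit 5) 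
(.lf (nat_lit 11592) (.g (nat_lit 1696) (.e (nat_lit 604) (nat_lit 45) (.e (nat_lit 532501) (nat_lit 1) (.e (nat_lit 57830) (nat_lit 250) (.e (nat_lit 1296) (nat_lit 96) (.e (nat_lit 131096) (nat_lit 3) (.e (nat_lit 98360) (nat_lit 26) (.e (nat_lit 426173) (nat_lit 7) (.e (nat_lit 409617) (nat_lit 10) .nil)))))))) (.g (nat_lit 4) .nil .nil))) 
(.lf (nat_lit 11624) (.g (nat_lit 2668) (.e (nat_lit 604) (nat_lit 45) (.e (nat_lit 532504) (nat_lit 1) (.e (nat_lit 57851) (nat_lit 252) (.e (nat_lit 57430) (nat_lit 16) (.e (nat_lit 368676) (nat_lit 21) (.e (nat_lit 516143) (nat_lit 9) (.e (nat_lit 426173) (nat_lit 7) (.e (nat_lit 409617) (nat_lit 10) .nil)))))))) (.g (nat_lit 5) .nil .nil)))) (.nd (nat_lit 5) 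
(.lf (nat_lit 11608) (.g (nat_lit 4145) (.e (nat_lit 604) (nat_lit 45) (.e (nat_lit 532504) (nat_lit 1) (.e (nat_lit 57829) (nat_lit 250) (.e (nat_lit 1201) (nat_lit 88) (.e (nat_lit 65569) (nat_lit 3) (.e (nat_lit 98359) (nat_lit 26) (.e (nat_lit 426171) (nat_lit 7) (.e (nat_lit 409612) (nat_lit 10) .nil)))))))) (.g (nat_lit 7) .nil .nil))) 
(.lf (nat_lit 11640) (.g (nat_lit 2292) (.e (nat_lit 604) (nat_lit 45) (.e (nat_lit 532504) (nat_lit 1) (.e (nat_lit 57852) (nat_lit 252) (.e (nat_lit 57421) (nat_lit 13) (.e (nat_lit 344117) (nat_lit 21) (.e (nat_lit 516143) (nat_lit 9) (.e (nat_lit 426173) (nat_lit 7) (.e (nat_lit 409617) (nat_lit 10) .nil)))))))) (.g (nat_lit 4) .nil .nil)))))) 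
(.nd (nat_lit 3) (.nd (nat_lit 4) (.nd (nat_lit 5) 
(.lf (nat_lit 11588) (.g (nat_lit 4039) (.e (nat_lit 604) (nat_lit 45) (.e (nat_lit 532501) (nat_lit 1) (.e (nat_lit 57830) (nat_lit 250) (.e (nat_lit 1296) (nat_lit 96) (.e (nat_lit 131093) (nat_lit 2) (.e (nat_lit 90170) (nat_lit 13) (.e (nat_lit 172082) (nat_lit 7) (.e (nat_lit 409612) (nat_lit 10) .nil)))))))) (.g (nat_lit 7) .nil .nil))) 
(.lf (nat_lit 11620) (.g (nat_lit 2725) (.e (nat_lit 604) (nat_lit 45) (.e (nat_lit 532504) (nat_lit 1) (.e (nat_lit 57851) (nat_lit 252) (.e (nat_lit 57412) (nat_lit 12) (.e (nat_lit 336001) (nat_lit 2) (.e (nat_lit 90170) (nat_lit 13) (.e (nat_lit 172079) (nat_lit 7) (.e (nat_lit 409611) (nat_lit 10) .nil)))))))) (.g (nat_lit 6) .nil .nil)))) (.nd (nat_lit 5) 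
(.lf (nat_lit 11604) (.g (nat_lit 3803) (.e (nat_lit 604) (nat_lit 45) (.e (nat_lit 532504) (nat_lit 1) (.e (nat_lit 57829) (nat_lit 250) (.e (nat_lit 1201) (nat_lit 88) (.e (nat_lit 65566) (nat_lit 2) (.e (nat_lit 90170) (nat_lit 13) (.e (nat_lit 172079) (nat_lit 7) (.e (nat_lit 409611) (nat_lit 10) .nil)))))))) (.g (nat_lit 8) .nil .nil))) 
(.lf (nat_lit 11636) (.g (nat_lit 2043) (.e (nat_lit 604) (nat_lit 45) (.e (nat_lit 532504) (nat_lit 1) (.e (nat_lit 57852) (nat_lit 252) (.e (nat_lit 57419) (nat_lit 12) (.e (nat_lit 336012) (nat_lit 2) .nil))))) .nil)))) (.nd (nat_lit 4) (.nd (nat_lit 5) 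
(.lf (nat_lit 11596) (.g (nat_lit 456) (.e (nat_lit 604) (nat_lit 45) (.e (nat_lit 532501) (nat_lit 1) (.e (nat_lit 57852) (nat_lit 252) .nil))) .nil)) 
(.lf (nat_lit 11628) (.g (nat_lit 574) (.e (nat_lit 604) (nat_lit 45) (.e (nat_lit 532504) (nat_lit 1) (.e (nat_lit 57852) (nat_lit 252) .nil))) .nil))) (.nd (nat_lit 5) 
(.lf (nat_lit 11612) (.g (nat_lit 1669) (.e (nat_lit 604) (nat_lit 45) (.e (nat_lit 532504) (nat_lit 1) (.e (nat_lit 57829) (nat_lit 250) (.e (nat_lit 1214) (nat_lit 89) (.e (nat_lit 73746) (nat_lit 3) (.e (nat_lit 516152) (nat_lit 9) (.e (nat_lit 426173) (nat_lit 7) (.e (nat_lit 409617) (nat_lit 10) .nil)))))))) (.g (nat_lit 4) .nil .nil))) 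
(.lf (nat_lit 11644) (.g (nat_lit 2137) (.e (nat_lit 604) (nat_lit 45) (.e (nat_lit 532504) (nat_lit 1) (.e (nat_lit 57852) (nat_lit 252) (.e (nat_lit 57431) (nat_lit 16) .nil)))) .nil)))))) (.nd (nat_lit 2) (.nd (nat_lit 3) (.nd (nat_lit 4) (.nd (nat_lit 5) 
(.lf (nat_lit 11586) (.g (nat_lit 3187) (.e (nat_lit 604) (nat_lit 45) (.e (nat_lit 532501) (nat_lit 1) (.e (nat_lit 57830) (nat_lit 250) (.e (nat_lit 1296) (nat_lit 96) (.e (nat_lit 131091) (nat_lit 2) (.e (nat_lit 90170) (nat_lit 13) (.e (nat_lit 172079) (nat_lit 7) (.e (nat_lit 409611) (nat_lit 10) .nil)))))))) (.g (nat_lit 7) .nil .nil))) 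
(.lf (nat_lit 11618) (.g (nat_lit 1789) (.e (nat_lit 604) (nat_lit 45) (.e (nat_lit 532504) (nat_lit 1) (.e (nat_lit 57830) (nat_lit 250) (.e (nat_lit 1296) (nat_lit 96) (.e (nat_lit 131096) (nat_lit 3) .nil))))) .nil))) (.nd (nat_lit 5) 
(.lf (nat_lit 11602) (.g (nat_lit 554) (.e (nat_lit 604) (nat_lit 45) (.e (nat_lit 532503) (nat_lit 1) (.e (nat_lit 57847) (nat_lit 252) .nil))) .nil)) 
(.lf (nat_lit 11634) (.g (nat_lit 2277) (.e (nat_lit 604) (nat_lit 45) (.e (nat_lit 532504) (nat_lit 1) (.e (nat_lit 57852) (nat_lit 252) (.e (nat_lit 57419) (nat_lit 12) (.e (nat_lit 336003) (nat_lit 2) (.e (nat_lit 90172) (nat_lit 14) (.e (nat_lit 180285) (nat_lit 45) (.e (nat_lit 2422) (nat_lit 157) .nil)))))))) (.g (nat_lit 4) .nil .nil))))) (.nd (nat_lit 4) (.nd (nat_lit 5) 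
(.lf (nat_lit 11594) (.g (nat_lit 2868) (.e (nat_lit 604) (nat_lit 45) (.e (nat_lit 532501) (nat_lit 1) (.e (nat_lit 57851) (nat_lit 252) (.e (nat_lit 57412) (nat_lit 12) (.e (nat_lit 336001) (nat_lit 2) (.e (nat_lit 90170) (nat_lit 13) (.e (nat_lit 172079) (nat_lit 7) (.e (nat_lit 409611) (nat_lit 10) .nil)))))))) (.g (nat_lit 7) .nil .nil))) 
(.lf (nat_lit 11626) (.g (nat_lit 2917) (.e (nat_lit 604) (nat_lit 45) (.e (nat_lit 532504) (nat_lit 1) (.e (nat_lit 57851) (nat_lit 252) (.e (nat_lit 57431) (nat_lit 16) (.e (nat_lit 368676) (nat_lit 21) (.e (nat_lit 516143) (nat_lit 9) (.e (nat_lit 426173) (nat_lit 7) (.e (nat_lit 409617) (nat_lit 10) .nil)))))))) (.g (nat_lit 6) .nil .nil)))) (.nd (nat_lit 5) 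
(.lf (nat_lit 11610) (.g (nat_lit 4456) (.e (nat_lit 604) (nat_lit 45) (.e (nat_lit 532504) (nat_lit 1) (.e (nat_lit 57829) (nat_lit 250) (.e (nat_lit 1201) (nat_lit 88) (.e (nat_lit 65571) (nat_lit 3) (.e (nat_lit 98359) (nat_lit 26) (.e (nat_lit 426171) (nat_lit 7) (.e (nat_lit 409612) (nat_lit 10) .nil)))))))) (.g (nat_lit 7) .nil .nil))) 
(.lf (nat_lit 11642) (.g (nat_lit 5200) (.e (nat_lit 604) (nat_lit 45) (.e (nat_lit 532504) (nat_lit 1) (.e (nat_lit 57852) (nat_lit 252) (.e (nat_lit 57421) (nat_lit 13) (.e (nat_lit 344117) (nat_lit 21) (.e (nat_lit 516151) (nat_lit 9) (.e (nat_lit 426171) (nat_lit 7) (.e (nat_lit 409612) (nat_lit 10) .nil)))))))) (.g (nat_lit 7) .nil .nil)))))) 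
(.nd (nat_lit 3) (.nd (nat_lit 4) (.nd (nat_lit 5) 
(.lf (nat_lit 11590) (.g (nat_lit 3003) (.e (nat_lit 604) (nat_lit 45) (.e (nat_lit 532501) (nat_lit 1) (.e (nat_lit 57830) (nat_lit 250) (.e (nat_lit 1296) (nat_lit 96) (.e (nat_lit 131094) (nat_lit 2) (.e (nat_lit 90172) (nat_lit 14) (.e (nat_lit 180285) (nat_lit 45) (.e (nat_lit 2422) (nat_lit 157) .nil)))))))) (.g (nat_lit 7) .nil .nil))) 
(.lf (nat_lit 11622) (.g (nat_lit 4950) (.e (nat_lit 604) (nat_lit 45) (.e (nat_lit 532504) (nat_lit 1) (.e (nat_lit 57851) (nat_lit 252) (.e (nat_lit 57421) (nat_lit 13) (.e (nat_lit 344117) (nat_lit 21) (.e (nat_lit 516151) (nat_lit 9) (.e (nat_lit 426171) (nat_lit 7) (.e (nat_lit 409612) (nat_lit 10) .nil)))))))) (.g (nat_lit 8) .nil .nil)))) (.nd (nat_lit 5) 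
(.lf (nat_lit 11606) (.g (nat_lit 4133) (.e (nat_lit 604) (nat_lit 45) (.e (nat_lit 532504) (nat_lit 1) (.e (nat_lit 57829) (nat_lit 250) (.e (nat_lit 1201) (nat_lit 88) (.e (nat_lit 65568) (nat_lit 2) (.e (nat_lit 90170) (nat_lit 13) (.e (nat_lit 172079) (nat_lit 7) (.e (nat_lit 409611) (nat_lit 10) .nil)))))))) (.g (nat_lit 8) .nil .nil))) 
(.lf (nat_lit 11638) (.g (nat_lit 3533) (.e (nat_lit 604) (nat_lit 45) (.e (nat_lit 532504) (nat_lit 1) (.e (nat_lit 57852) (nat_lit 252) (.e (nat_lit 57419) (nat_lit 12) (.e (nat_lit 336021) (nat_lit 3) (.e (nat_lit 98360) (nat_lit 26) (.e (nat_lit 426173) (nat_lit 7) (.e (nat_lit 409617) (nat_lit 10) .nil)))))))) (.g (nat_lit 5) .nil .nil))))) (.nd (nat_lit 4) (.nd (nat_lit 5) 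
(.lf (nat_lit 11598) (.g (nat_lit 1100) (.e (nat_lit 604) (nat_lit 45) (.e (nat_lit 532501) (nat_lit 1) (.e (nat_lit 57852) (nat_lit 252) (.e (nat_lit 57419) (nat_lit 12) .nil)))) .nil)) 
(.lf (nat_lit 11630) (.g (nat_lit 5186) (.e (nat_lit 604) (nat_lit 45) (.e (nat_lit 532504) (nat_lit 1) (.e (nat_lit 57852) (nat_lit 252) (.e (nat_lit 57404) (nat_lit 12) (.e (nat_lit 336013) (nat_lit 2) (.e (nat_lit 90170) (nat_lit 13) (.e (nat_lit 172082) (nat_lit 7) (.e (nat_lit 409612) (nat_lit 10) .nil)))))))) (.g (nat_lit 7) .nil .nil)))) (.nd (nat_lit 5) 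
(.lf (nat_lit 11614) (.g (nat_lit 4197) (.e (nat_lit 604) (nat_lit 45) (.e (nat_lit 532504) (nat_lit 1) (.e (nat_lit 57830) (nat_lit 250) (.e (nat_lit 1201) (nat_lit 88) (.e (nat_lit 65568) (nat_lit 2) (.e (nat_lit 90170) (nat_lit 13) (.e (nat_lit 172082) (nat_lit 7) (.e (nat_lit 409612) (nat_lit 10) .nil)))))))) (.g (nat_lit 6) .nil .nil))) 
(.lf (nat_lit 11646) (.g (nat_lit 878) (.e (nat_lit 604) (nat_lit 45) (.e (nat_lit 532510) (nat_lit 2) (.e (nat_lit 106534) (nat_lit 11) (.e (nat_lit 24320) (nat_lit 34) .nil)))) .nil))))))) (.nd (nat_lit 1) (.nd (nat_lit 2) (.nd (nat_lit 3) (.nd (nat_lit 4) (.nd (nat_lit 5) 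
(.lf (nat_lit 11585) (.g (nat_lit 841) (.e (nat_lit 604) (nat_lit 45) (.e (nat_lit 532501) (nat_lit 1) (.e (nat_lit 57830) (nat_lit 250) (.e (nat_lit 1296) (nat_lit 96) .nil)))) .nil)) 
(.lf (nat_lit 11617) (.g (nat_lit 2702) (.e (nat_lit 604) (nat_lit 45) (.e (nat_lit 532504) (nat_lit 1) (.e (nat_lit 57830) (nat_lit 250) (.e (nat_lit 1296) (nat_lit 96) (.e (nat_lit 131094) (nat_lit 2) (.e (nat_lit 90172) (nat_lit 14) (.e (nat_lit 180285) (nat_lit 45) (.e (nat_lit 2422) (nat_lit 157) .nil)))))))) (.g (nat_lit 6) .nil .nil)))) (.nd (nat_lit 5) 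
(.lf (nat_lit 11601) (.g (nat_lit 4586) (.e (nat_lit 604) (nat_lit 45) (.e (nat_lit 532501) (nat_lit 1) (.e (nat_lit 57852) (nat_lit 252) (.e (nat_lit 57421) (nat_lit 13) (.e (nat_lit 344117) (nat_lit 21) (.e (nat_lit 516151) (nat_lit 9) (.e (nat_lit 426171) (nat_lit 7) (.e (nat_lit 409612) (nat_lit 10) .nil)))))))) (.g (nat_lit 7) .nil .nil))) 
(.lf (nat_lit 11633) (.g (nat_lit 1717) (.e (nat_lit 604) (nat_lit 45) (.e (nat_lit 532504) (nat_lit 1) (.e (nat_lit 57852) (nat_lit 252) (.e (nat_lit 57419) (nat_lit 12) .nil)))) .nil)))) (.nd (nat_lit 4) (.nd (nat_lit 5) 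
(.lf (nat_lit 11593) (.g (nat_lit 2004) (.e (nat_lit 604) (nat_lit 45) (.e (nat_lit 532501) (nat_lit 1) (.e (nat_lit 57830) (nat_lit 250) (.e (nat_lit 1296) (nat_lit 96) (.e (nat_lit 131098) (nat_lit 3) (.e (nat_lit 98360) (nat_lit 26) (.e (nat_lit 426173) (nat_lit 7) (.e (nat_lit 409617) (nat_lit 10) .nil)))))))) (.g (nat_lit 5) .nil .nil))) 
(.lf (nat_lit 11625) (.g (nat_lit 2652) (.e (nat_lit 604) (nat_lit 45) (.e (nat_lit 532504) (nat_lit 1) (.e (nat_lit 57851) (nat_lit 252) (.e (nat_lit 57430) (nat_lit 16) (.e (nat_lit 368676) (nat_lit 21) (.e (nat_lit 516152) (nat_lit 9) (.e (nat_lit 426173) (nat_lit 7) (.e (nat_lit 409617) (nat_lit 10) .nil)))))))) (.g (nat_lit 5) .nil .nil)))) (.nd (nat_lit 5) 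
(.lf (nat_lit 11609) (.g (nat_lit 1658) (.e (nat_lit 604) (nat_lit 45) (.e (nat_lit 532504) (nat_lit 1) (.e (nat_lit 57829) (nat_lit 250) (.e (nat_lit 1201) (nat_lit 88) (.e (nat_lit 65571) (nat_lit 3) .nil))))) .nil)) 
(.lf (nat_lit 11641) (.g (nat_lit 5588) (.e (nat_lit 604) (nat_lit 45) (.e (nat_lit 532504) (nat_lit 1) (.e (nat_lit 57852) (nat_lit 252) (.e (nat_lit 57421) (nat_lit 13) (.e (nat_lit 344117) (nat_lit 21) (.e (nat_lit 516151) (nat_lit 9) (.e (nat_lit 426170) (nat_lit 7) (.e (nat_lit 409617) (nat_lit 10) .nil)))))))) (.g (nat_lit 6) .nil .nil)))))) 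
(.nd (nat_lit 3) (.nd (nat_lit 4) (.nd (nat_lit 5) 
(.lf (nat_lit 11589) (.g (nat_lit 1202) (.e (nat_lit 604) (nat_lit 45) (.e (nat_lit 532501) (nat_lit 1) (.e (nat_lit 57830) (nat_lit 250) (.e (nat_lit 1296) (nat_lit 96) (.e (nat_lit 131094) (nat_lit 2) .nil))))) .nil)) 
(.lf (nat_lit 11621) (.g (nat_lit 4519) (.e (nat_lit 604) (nat_lit 45) (.e (nat_lit 532504) (nat_lit 1) (.e (nat_lit 57851) (nat_lit 252) (.e (nat_lit 57420) (nat_lit 13) (.e (nat_lit 344117) (nat_lit 21) (.e (nat_lit 516151) (nat_lit 9) (.e (nat_lit 426171) (nat_lit 7) (.e (nat_lit 409612) (nat_lit 10) .nil)))))))) (.g (nat_lit 8) .nil .nil)))) (.nd (nat_lit 5) 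
(.lf (nat_lit 11605) (.g (nat_lit 4125) (.e (nat_lit 604) (nat_lit 45) (.e (nat_lit 532504) (nat_lit 1) (.e (nat_lit 57829) (nat_lit 250) (.e (nat_lit 1201) (nat_lit 88) (.e (nat_lit 65566) (nat_lit 2) (.e (nat_lit 90170) (nat_lit 13) (.e (nat_lit 172082) (nat_lit 7) (.e (nat_lit 409612) (nat_lit 10) .nil)))))))) (.g (nat_lit 7) .nil .nil))) 
(.lf (nat_lit 11637) (.g (nat_lit 3043) (.e (nat_lit 604) (nat_lit 45) (.e (nat_lit 532504) (nat_lit 1) (.e (nat_lit 57852) (nat_lit 252) (.e (nat_lit 57419) (nat_lit 12) (.e (nat_lit 336012) (nat_lit 2) (.e (nat_lit 90172) (nat_lit 14) (.e (nat_lit 180285) (nat_lit 45) (.e (nat_lit 2422) (nat_lit 157) .nil)))))))) (.g (nat_lit 5) .nil .nil))))) (.nd (nat_lit 4) (.nd (nat_lit 5) 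
(.lf (nat_lit 11597) (.g (nat_lit 4428) (.e (nat_lit 604) (nat_lit 45) (.e (nat_lit 532501) (nat_lit 1) (.e (nat_lit 57852) (nat_lit 252) (.e (nat_lit 57404) (nat_lit 12) (.e (nat_lit 336013) (nat_lit 2) (.e (nat_lit 90170) (nat_lit 13) (.e (nat_lit 172082) (nat_lit 7) (.e (nat_lit 409612) (nat_lit 10) .nil)))))))) (.g (nat_lit 7) .nil .nil))) 
(.lf (nat_lit 11629) (.g (nat_lit 1999) (.e (nat_lit 604) (nat_lit 45) (.e (nat_lit 532504) (nat_lit 1) (.e (nat_lit 57852) (nat_lit 252) (.e (nat_lit 57404) (nat_lit 12) .nil)))) .nil))) (.nd (nat_lit 5) 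
(.lf (nat_lit 11613) (.g (nat_lit 3620) (.e (nat_lit 604) (nat_lit 45) (.e (nat_lit 532504) (nat_lit 1) (.e (nat_lit 57830) (nat_lit 250) (.e (nat_lit 1201) (nat_lit 88) (.e (nat_lit 65566) (nat_lit 2) (.e (nat_lit 90170) (nat_lit 13) (.e (nat_lit 172079) (nat_lit 7) (.e (nat_lit 409611) (nat_lit 10) .nil)))))))) (.g (nat_lit 7) .nil .nil))) 
(.lf (nat_lit 11645) (.g (nat_lit 1258) (.e (nat_lit 604) (nat_lit 45) (.e (nat_lit 532508) (nat_lit 2) (.e (nat_lit 106536) (nat_lit 11) (.e (nat_lit 24320) (nat_lit 34) .nil)))) .nil)))))) (.nd (nat_lit 2) (.nd (nat_lit 3) (.nd (nat_lit 4) (.nd (nat_lit 5) 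
(.lf (nat_lit 11587) (.g (nat_lit 2905) (.e (nat_lit 604) (nat_lit 45) (.e (nat_lit 532501) (nat_lit 1) (.e (nat_lit 57830) (nat_lit 250) (.e (nat_lit 1296) (nat_lit 96) (.e (nat_lit 131091) (nat_lit 2) (.e (nat_lit 90172) (nat_lit 14) (.e (nat_lit 180285) (nat_lit 45) (.e (nat_lit 2422) (nat_lit 157) .nil)))))))) (.g (nat_lit 6) .nil .nil))) 
(.lf (nat_lit 11619) (.g (nat_lit 1893) (.e (nat_lit 604) (nat_lit 45) (.e (nat_lit 532504) (nat_lit 1) (.e (nat_lit 57830) (nat_lit 250) (.e (nat_lit 1296) (nat_lit 96) (.e (nat_lit 131098) (nat_lit 3) .nil))))) .nil))) (.nd (nat_lit 5) 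
(.lf (nat_lit 11603) (.g (nat_lit 607) (.e (nat_lit 604) (nat_lit 45) (.e (nat_lit 532504) (nat_lit 1) (.e (nat_lit 57829) (nat_lit 250) .nil))) .nil)) 
(.lf (nat_lit 11635) (.g (nat_lit 2988) (.e (nat_lit 604) (nat_lit 45) (.e (nat_lit 532504) (nat_lit 1) (.e (nat_lit 57852) (nat_lit 252) (.e (nat_lit 57419) (nat_lit 12) (.e (nat_lit 336004) (nat_lit 2) (.e (nat_lit 90172) (nat_lit 14) (.e (nat_lit 180285) (nat_lit 45) (.e (nat_lit 2422) (nat_lit 157) .nil)))))))) (.g (nat_lit 5) .nil .nil))))) (.nd (nat_lit 4) (.nd (nat_lit 5) 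
(.lf (nat_lit 11595) (.g (nat_lit 3845) (.e (nat_lit 604) (nat_lit 45) (.e (nat_lit 532501) (nat_lit 1) (.e (nat_lit 57851) (nat_lit 252) (.e (nat_lit 57413) (nat_lit 12) (.e (nat_lit 336013) (nat_lit 2) (.e (nat_lit 90170) (nat_lit 13) (.e (nat_lit 172079) (nat_lit 7) (.e (nat_lit 409611) (nat_lit 10) .nil)))))))) (.g (nat_lit 6) .nil .nil))) 
(.lf (nat_lit 11627) (.g (nat_lit 2875) (.e (nat_lit 604) (nat_lit 45) (.e (nat_lit 532504) (nat_lit 1) (.e (nat_lit 57851) (nat_lit 252) (.e (nat_lit 57431) (nat_lit 16) (.e (nat_lit 368676) (nat_lit 21) (.e (nat_lit 516152) (nat_lit 9) (.e (nat_lit 426173) (nat_lit 7) (.e (nat_lit 409617) (nat_lit 10) .nil)))))))) (.g (nat_lit 6) .nil .nil)))) (.nd (nat_lit 5) 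
(.lf (nat_lit 11611) (.g (nat_lit 4413) (.e (nat_lit 604) (nat_lit 45) (.e (nat_lit 532504) (nat_lit 1) (.e (nat_lit 57829) (nat_lit 250) (.e (nat_lit 1201) (nat_lit 88) (.e (nat_lit 65571) (nat_lit 3) (.e (nat_lit 98359) (nat_lit 26) (.e (nat_lit 426171) (nat_lit 7) (.e (nat_lit 409617) (nat_lit 10) .nil)))))))) (.g (nat_lit 7) .nil .nil))) 
(.lf (nat_lit 11643) (.g (nat_lit 2252) (.e (nat_lit 604) (nat_lit 45) (.e (nat_lit 532504) (nat_lit 1) (.e (nat_lit 57852) (nat_lit 252) (.e (nat_lit 57430) (nat_lit 16) .nil)))) .nil))))) (.nd (nat_lit 3) (.nd (nat_lit 4) (.nd (nat_lit 5) 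
(.lf (nat_lit 11591) (.g (nat_lit 3433) (.e (nat_lit 604) (nat_lit 45) (.e (nat_lit 532501) (nat_lit 1) (.e (nat_lit 57830) (nat_lit 250) (.e (nat_lit 1296) (nat_lit 96) (.e (nat_lit 131094) (nat_lit 2) (.e (nat_lit 90185) (nat_lit 17) (.e (nat_lit 237598) (nat_lit 7) (.e (nat_lit 409617) (nat_lit 10) .nil)))))))) (.g (nat_lit 6) .nil .nil))) 
(.lf (nat_lit 11623) (.g (nat_lit 5081) (.e (nat_lit 604) (nat_lit 45) (.e (nat_lit 532504) (nat_lit 1) (.e (nat_lit 57851) (nat_lit 252) (.e (nat_lit 57421) (nat_lit 13) (.e (nat_lit 344117) (nat_lit 21) (.e (nat_lit 516151) (nat_lit 9) (.e (nat_lit 426171) (nat_lit 7) (.e (nat_lit 409617) (nat_lit 10) .nil)))))))) (.g (nat_lit 8) .nil .nil)))) (.nd (nat_lit 5) 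
(.lf (nat_lit 11607) (.g (nat_lit 1657) (.e (nat_lit 604) (nat_lit 45) (.e (nat_lit 532504) (nat_lit 1) (.e (nat_lit 57829) (nat_lit 250) (.e (nat_lit 1201) (nat_lit 88) (.e (nat_lit 65569) (nat_lit 3) .nil))))) .nil)) 
(.lf (nat_lit 11639) (.g (nat_lit 2230) (.e (nat_lit 604) (nat_lit 45) (.e (nat_lit 532504) (nat_lit 1) (.e (nat_lit 57852) (nat_lit 252) (.e (nat_lit 57420) (nat_lit 13) (.e (nat_lit 344117) (nat_lit 21) .nil))))) .nil)))) (.nd (nat_lit 4) (.nd (nat_lit 5) 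
(.lf (nat_lit 11599) (.g (nat_lit 4461) (.e (nat_lit 604) (nat_lit 45) (.e (nat_lit 532501) (nat_lit 1) (.e (nat_lit 57852) (nat_lit 252) (.e (nat_lit 57420) (nat_lit 13) (.e (nat_lit 344117) (nat_lit 21) (.e (nat_lit 516151) (nat_lit 9) (.e (nat_lit 426171) (nat_lit 7) (.e (nat_lit 409612) (nat_lit 10) .nil)))))))) (.g (nat_lit 7) .nil .nil))) 
(.lf (nat_lit 11631) (.g (nat_lit 3425) (.e (nat_lit 604) (nat_lit 45) (.e (nat_lit 532504) (nat_lit 1) (.e (nat_lit 57852) (nat_lit 252) (.e (nat_lit 57404) (nat_lit 12) (.e (nat_lit 336028) (nat_lit 3) (.e (nat_lit 98359) (nat_lit 26) (.e (nat_lit 426171) (nat_lit 7) (.e (nat_lit 409612) (nat_lit 10) .nil)))))))) (.g (nat_lit 6) .nil .nil)))) (.nd (nat_lit 5) 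
(.lf (nat_lit 11615) (.g (nat_lit 1840) (.e (nat_lit 604) (nat_lit 45) (.e (nat_lit 532504) (nat_lit 1) (.e (nat_lit 57830) (nat_lit 250) (.e (nat_lit 1214) (nat_lit 89) (.e (nat_lit 73746) (nat_lit 3) (.e (nat_lit 516152) (nat_lit 9) (.e (nat_lit 426173) (nat_lit 7) (.e (nat_lit 409617) (nat_lit 10) .nil)))))))) (.g (nat_lit 4) .nil .nil))) 
(.lf (nat_lit 11647) (.g (nat_lit 5262) (.e (nat_lit 604) (nat_lit 45) (.e (nat_lit 532550) (nat_lit 12) (.e (nat_lit 360475) (nat_lit 8) (.e (nat_lit 557087) (nat_lit 11) .nil)))) .nil))))))))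

noncomputable def tv159 : DT := (.nd (nat_lit 0) (.nd (nat_lit 1) (.nd (nat_lit 2) (.nd (nat_lit 3) (.nd (nat_lit 4) (.nd (nat_lit 5) (.nd (nat_lit 6) 
(.lf (nat_lit 11648) (.g (nat_lit 641) (.e (nat_lit 605) (nat_lit 45) (.e (nat_lit 532504) (nat_lit 1) (.e (nat_lit 57830) (nat_lit 250) .nil))) .nil)) 
(.lf (nat_lit 11712) (.g (nat_lit 2314) (.e (nat_lit 616) (nat_lit 48) (.e (nat_lit 557108) (nat_lit 15) (.e (nat_lit 188435) (nat_lit 20) (.e (nat_lit 3578) (nat_lit 223) (.e (nat_lit 745491) (nat_lit 4) (.e (nat_lit 65586) (nat_lit 7) (.e (nat_lit 319500) (nat_lit 10) .nil))))))) (.g (nat_lit 5) .nil .nil)))) (.nd (nat_lit 6) 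
(.lf (nat_lit 11680) (.g (nat_lit 479) (.e (nat_lit 616) (nat_lit 48) (.e (nat_lit 557104) (nat_lit 14) (.e (nat_lit 188160) (nat_lit 34) .nil))) .nil)) 
(.lf (nat_lit 11744) (.g (nat_lit 4377) (.e (nat_lit 617) (nat_lit 48) (.e (nat_lit 557109) (nat_lit 15) (.e (nat_lit 188452) (nat_lit 23) (.e (nat_lit 204880) (nat_lit 32) .nil)))) .nil)))) (.nd (nat_lit 5) (.nd (nat_lit 6) 
(.lf (nat_lit 11664) (.g (nat_lit 450) (.e (nat_lit 616) (nat_lit 48) (.e (nat_lit 557097) (nat_lit 13) (.e (nat_lit 172115) (nat_lit 10) .nil))) .nil)) 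
(.lf (nat_lit 11728) (.g (nat_lit 819) (.e (nat_lit 616) (nat_lit 48) (.e (nat_lit 557108) (nat_lit 15) (.e (nat_lit 188455) (nat_lit 24) .nil))) .nil))) (.nd (nat_lit 6) 
(.lf (nat_lit 11696) (.g (nat_lit 2843) (.e (nat_lit 616) (nat_lit 48) (.e (nat_lit 557107) (nat_lit 15) (.e (nat_lit 188441) (nat_lit 20) (.e (nat_lit 3579) (nat_lit 223) (.e (nat_lit 745491) (nat_lit 4) (.e (nat_lit 65586) (nat_lit 7) (.e (nat_lit 319500) (nat_lit 10) .nil))))))) (.g (nat_lit 7) .nil .nil))) 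
(.lf (nat_lit 11760) (.g (nat_lit 2472) (.e (nat_lit 618) (nat_lit 48) (.e (nat_lit 557098) (nat_lit 13) (.e (nat_lit 172097) (nat_lit 9) (.e (nat_lit 426365) (nat_lit 15) (.e (nat_lit 6707) (nat_lit 359) (.e (nat_lit 24617) (nat_lit 7) (.e (nat_lit 319505) (nat_lit 10) .nil))))))) (.g (nat_lit 4) .nil .nil)))))) (.nd (nat_lit 4) (.nd (nat_lit 5) (.nd (nat_lit 6) 
(.lf (nat_lit 11656) (.g (nat_lit 1995) (.e (nat_lit 605) (nat_lit 45) (.e (nat_lit 532535) (nat_lit 9) (.e (nat_lit 336176) (nat_lit 10) .nil))) .nil)) 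
(.lf (nat_lit 11720) (.g (nat_lit 4222) (.e (nat_lit 616) (nat_lit 48) (.e (nat_lit 557108) (nat_lit 15) (.e (nat_lit 188446) (nat_lit 21) (.e (nat_lit 164195) (nat_lit 158) (.e (nat_lit 1199) (nat_lit 88) (.e (nat_lit 65586) (nat_lit 7) (.e (nat_lit 319500) (nat_lit 10) .nil))))))) (.g (nat_lit 7) .nil .nil)))) (.nd (nat_lit 6) 
(.lf (nat_lit 11688) (.g (nat_lit 527) (.e (nat_lit 616) (nat_lit 48) (.e (nat_lit 557107) (nat_lit 15) (.e (nat_lit 188440) (nat_lit 20) .nil))) .nil)) 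
(.lf (nat_lit 11752) (.g (nat_lit 3067) (.e (nat_lit 618) (nat_lit 48) (.e (nat_lit 557098) (nat_lit 13) (.e (nat_lit 172097) (nat_lit 9) (.e (nat_lit 426140) (nat_lit 3) (.e (nat_lit 204862) (nat_lit 27) (.e (nat_lit 344160) (nat_lit 37) (.e (nat_lit 647203) (nat_lit 14) (.e (nat_lit 993) (nat_lit 81) .nil)))))))) (.g (nat_lit 4) .nil .nil))))) (.nd (nat_lit 5) (.nd (nat_lit 6) 
(.lf (nat_lit 11672) (.g (nat_lit 1684) (.e (nat_lit 616) (nat_lit 48) (.e (nat_lit 557100) (nat_lit 13) (.e (nat_lit 172113) (nat_lit 10) (.e (nat_lit 434293) (nat_lit 49) .nil)))) .nil)) 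
(.lf (nat_lit 11736) (.g (nat_lit 2827) (.e (nat_lit 616) (nat_lit 48) (.e (nat_lit 557109) (nat_lit 15) (.e (nat_lit 188441) (nat_lit 20) (.e (nat_lit 3579) (nat_lit 223) (.e (nat_lit 745491) (nat_lit 4) .nil))))) .nil))) (.nd (nat_lit 6) 
(.lf (nat_lit 11704) (.g (nat_lit 3017) (.e (nat_lit 616) (nat_lit 48) (.e (nat_lit 557108) (nat_lit 15) (.e (nat_lit 188434) (nat_lit 20) (.e (nat_lit 3578) (nat_lit 223) (.e (nat_lit 745491) (nat_lit 4) (.e (nat_lit 65583) (nat_lit 7) (.e (nat_lit 319499) (nat_lit 10) .nil))))))) (.g (nat_lit 7) .nil .nil))) 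
(.lf (nat_lit 11768) (.g (nat_lit 2212) (.e (nat_lit 618) (nat_lit 48) (.e (nat_lit 557098) (nat_lit 13) (.e (nat_lit 172115) (nat_lit 10) (.e (nat_lit 434202) (nat_lit 18) (.e (nat_lit 6828) (nat_lit 367) (.e (nat_lit 57412) (nat_lit 12) (.e (nat_lit 336061) (nat_lit 7) (.e (nat_lit 319500) (nat_lit 10) .nil)))))))) (.g (nat_lit 4) .nil .nil))))))) 
(.nd (nat_lit 3) (.nd (nat_lit 4) (.nd (nat_lit 5) (.nd (nat_lit 6) 
(.lf (nat_lit 11652) (.g (nat_lit 1681) (.e (nat_lit 605) (nat_lit 45) (.e (nat_lit 532504) (nat_lit 1) (.e (nat_lit 57852) (nat_lit 252) (.e (nat_lit 57419) (nat_lit 12) .nil)))) .nil)) 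
(.lf (nat_lit 11716) (.g (nat_lit 1846) (.e (nat_lit 616) (nat_lit 48) (.e (nat_lit 557108) (nat_lit 15) (.e (nat_lit 188441) (nat_lit 20) (.e (nat_lit 3579) (nat_lit 223) .nil)))) .nil))) (.nd (nat_lit 6) 
(.lf (nat_lit 11684) (.g (nat_lit 410) (.e (nat_lit 616) (nat_lit 48) (.e (nat_lit 557107) (nat_lit 15) (.e (nat_lit 188439) (nat_lit 20) .nil))) .nil)) 
(.lf (nat_lit 11748) (.g (nat_lit 1298) (.e (nat_lit 618) (nat_lit 48) (.e (nat_lit 557098) (nat_lit 13) (.e (nat_lit 172097) (nat_lit 9) (.e (nat_lit 426109) (nat_lit 1) .nil)))) .nil)))) (.nd (nat_lit 5) (.nd (nat_lit 6) 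
(.lf (nat_lit 11668) (.g (nat_lit 891) (.e (nat_lit 616) (nat_lit 48) (.e (nat_lit 557100) (nat_lit 13) (.e (nat_lit 172106) (nat_lit 10) .nil))) .nil)) 
(.lf (nat_lit 11732) (.g (nat_lit 2268) (.e (nat_lit 616) (nat_lit 48) (.e (nat_lit 557109) (nat_lit 15) (.e (nat_lit 188434) (nat_lit 20) (.e (nat_lit 3578) (nat_lit 223) .nil)))) .nil))) (.nd (nat_lit 6) 
(.lf (nat_lit 11700) (.g (nat_lit 465) (.e (nat_lit 616) (nat_lit 48) (.e (nat_lit 557108) (nat_lit 15) (.e (nat_lit 188434) (nat_lit 20) .nil))) .nil)) 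
(.lf (nat_lit 11764) (.g (nat_lit 2016) (.e (nat_lit 618) (nat_lit 48) (.e (nat_lit 557098) (nat_lit 13) (.e (nat_lit 172115) (nat_lit 10) (.e (nat_lit 434202) (nat_lit 18) (.e (nat_lit 5979) (nat_lit 326) .nil))))) .nil))))) (.nd (nat_lit 4) (.nd (nat_lit 5) (.nd (nat_lit 6) 
(.lf (nat_lit 11660) (.g (nat_lit 5014) (.e (nat_lit 7936) (nat_lit 45) (.e (nat_lit 532550) (nat_lit 12) (.e (nat_lit 360474) (nat_lit 8) (.e (nat_lit 557065) (nat_lit 9) (.e (nat_lit 232) (nat_lit 21) .nil))))) .nil)) 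
(.lf (nat_lit 11724) (.g (nat_lit 2248) (.e (nat_lit 616) (nat_lit 48) (.e (nat_lit 557108) (nat_lit 15) (.e (nat_lit 188446) (nat_lit 21) (.e (nat_lit 164196) (nat_lit 158) (.e (nat_lit 1199) (nat_lit 88) .nil))))) .nil))) (.nd (nat_lit 6) 
(.lf (nat_lit 11692) (.g (nat_lit 2647) (.e (nat_lit 616) (nat_lit 48) (.e (nat_lit 557107) (nat_lit 15) (.e (nat_lit 188440) (nat_lit 20) (.e (nat_lit 3579) (nat_lit 223) (.e (nat_lit 745491) (nat_lit 4) (.e (nat_lit 65583) (nat_lit 7) (.e (nat_lit 319499) (nat_lit 10) .nil))))))) (.g (nat_lit 7) .nil .nil))) 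
(.lf (nat_lit 11756) (.g (nat_lit 3168) (.e (nat_lit 618) (nat_lit 48) (.e (nat_lit 557098) (nat_lit 13) (.e (nat_lit 172097) (nat_lit 9) (.e (nat_lit 426140) (nat_lit 3) (.e (nat_lit 204863) (nat_lit 27) (.e (nat_lit 344160) (nat_lit 37) (.e (nat_lit 647203) (nat_lit 14) (.e (nat_lit 993) (nat_lit 81) .nil)))))))) (.g (nat_lit 4) .nil .nil))))) (.nd (nat_lit 5) (.nd (nat_lit 6) 
(.lf (nat_lit 11676) (.g (nat_lit 994) (.e (nat_lit 616) (nat_lit 48) (.e (nat_lit 557103) (nat_lit 14) (.e (nat_lit 188160) (nat_lit 32) (.e (nat_lit 496) (nat_lit 39) (.e (nat_lit 483371) (nat_lit 21) .nil))))) .nil)) 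
(.lf (nat_lit 11740) (.g (nat_lit 2816) (.e (nat_lit 616) (nat_lit 48) (.e (nat_lit 557109) (nat_lit 15) (.e (nat_lit 188446) (nat_lit 21) (.e (nat_lit 164196) (nat_lit 158) (.e (nat_lit 1199) (nat_lit 88) .nil))))) .nil))) (.nd (nat_lit 6) 
(.lf (nat_lit 11708) (.g (nat_lit 3487) (.e (nat_lit 616) (nat_lit 48) (.e (nat_lit 557108) (nat_lit 15) (.e (nat_lit 188434) (nat_lit 20) (.e (nat_lit 3579) (nat_lit 223) (.e (nat_lit 745491) (nat_lit 4) (.e (nat_lit 65586) (nat_lit 7) (.e (nat_lit 319500) (nat_lit 10) .nil))))))) (.g (nat_lit 7) .nil .nil))) 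
(.lf (nat_lit 11772) (.g (nat_lit 3203) (.e (nat_lit 618) (nat_lit 48) (.e (nat_lit 557098) (nat_lit 13) (.e (nat_lit 172115) (nat_lit 10) (.e (nat_lit 434202) (nat_lit 18) (.e (nat_lit 6830) (nat_lit 367) (.e (nat_lit 57412) (nat_lit 12) (.e (nat_lit 336061) (nat_lit 7) (.e (nat_lit 319500) (nat_lit 10) .nil)))))))) (.g (nat_lit 5) .nil .nil)))))))) 
(.nd (nat_lit 2) (.nd (nat_lit 3) (.nd (nat_lit 4) (.nd (nat_lit 5) (.nd (nat_lit 6) 
(.lf (nat_lit 11650) (.g (nat_lit 3623) (.e (nat_lit 605) (nat_lit 45) (.e (nat_lit 532504) (nat_lit 1) (.e (nat_lit 57851) (nat_lit 252) (.e (nat_lit 57421) (nat_lit 13) (.e (nat_lit 344117) (nat_lit 21) (.e (nat_lit 516151) (nat_lit 9) (.e (nat_lit 426171) (nat_lit 7) (.e (nat_lit 417536) (nat_lit 10) .nil)))))))) (.g (nat_lit 5) .nil .nil))) 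
(.lf (nat_lit 11714) (.g (nat_lit 3161) (.e (nat_lit 616) (nat_lit 48) (.e (nat_lit 557108) (nat_lit 15) (.e (nat_lit 188435) (nat_lit 20) (.e (nat_lit 3579) (nat_lit 223) (.e (nat_lit 745491) (nat_lit 4) (.e (nat_lit 65583) (nat_lit 7) (.e (nat_lit 319499) (nat_lit 10) .nil))))))) (.g (nat_lit 6) .nil .nil)))) (.nd (nat_lit 6) 
(.lf (nat_lit 11682) (.g (nat_lit 795) (.e (nat_lit 616) (nat_lit 48) (.e (nat_lit 557107) (nat_lit 15) (.e (nat_lit 188434) (nat_lit 20) .nil))) .nil)) 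
(.lf (nat_lit 11746) (.g (nat_lit 839) (.e (nat_lit 618) (nat_lit 48) (.e (nat_lit 557098) (nat_lit 13) (.e (nat_lit 172085) (nat_lit 9) .nil))) .nil)))) (.nd (nat_lit 5) (.nd (nat_lit 6) 
(.lf (nat_lit 11666) (.g (nat_lit 856) (.e (nat_lit 616) (nat_lit 48) (.e (nat_lit 557098) (nat_lit 13) (.e (nat_lit 172115) (nat_lit 10) .nil))) .nil)) 
(.lf (nat_lit 11730) (.g (nat_lit 763) (.e (nat_lit 616) (nat_lit 48) (.e (nat_lit 557109) (nat_lit 15) (.e (nat_lit 188434) (nat_lit 20) .nil))) .nil))) (.nd (nat_lit 6) 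
(.lf (nat_lit 11698) (.g (nat_lit 721) (.e (nat_lit 616) (nat_lit 48) (.e (nat_lit 557108) (nat_lit 15) (.e (nat_lit 196352) (nat_lit 19) .nil))) .nil)) 
(.lf (nat_lit 11762) (.g (nat_lit 1021) (.e (nat_lit 618) (nat_lit 48) (.e (nat_lit 557098) (nat_lit 13) (.e (nat_lit 172105) (nat_lit 10) (.e (nat_lit 434293) (nat_lit 49) .nil)))) .nil))))) (.nd (nat_lit 4) (.nd (nat_lit 5) (.nd (nat_lit 6) 
(.lf (nat_lit 11658) (.g (nat_lit 589) (.e (nat_lit 7936) (nat_lit 45) (.e (nat_lit 532535) (nat_lit 9) (.e (nat_lit 336176) (nat_lit 10) .nil))) .nil)) 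
(.lf (nat_lit 11722) (.g (nat_lit 2446) (.e (nat_lit 616) (nat_lit 48) (.e (nat_lit 557108) (nat_lit 15) (.e (nat_lit 188446) (nat_lit 21) (.e (nat_lit 164196) (nat_lit 158) (.e (nat_lit 1196) (nat_lit 88) .nil))))) .nil))) (.nd (nat_lit 6) 
(.lf (nat_lit 11690) (.g (nat_lit 1930) (.e (nat_lit 616) (nat_lit 48) (.e (nat_lit 557107) (nat_lit 15) (.e (nat_lit 188440) (nat_lit 20) (.e (nat_lit 3578) (nat_lit 223) (.e (nat_lit 745491) (nat_lit 4) (.e (nat_lit 65583) (nat_lit 7) (.e (nat_lit 319499) (nat_lit 10) .nil))))))) (.g (nat_lit 5) .nil .nil))) 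
(.lf (nat_lit 11754) (.g (nat_lit 2972) (.e (nat_lit 618) (nat_lit 48) (.e (nat_lit 557098) (nat_lit 13) (.e (nat_lit 172097) (nat_lit 9) (.e (nat_lit 426140) (nat_lit 3) (.e (nat_lit 204862) (nat_lit 27) (.e (nat_lit 344160) (nat_lit 37) (.e (nat_lit 647203) (nat_lit 14) (.e (nat_lit 1015) (nat_lit 81) .nil)))))))) (.g (nat_lit 4) .nil .nil))))) (.nd (nat_lit 5) (.nd (nat_lit 6) 
(.lf (nat_lit 11674) (.g (nat_lit 1338) (.e (nat_lit 616) (nat_lit 48) (.e (nat_lit 557101) (nat_lit 13) (.e (nat_lit 172115) (nat_lit 10) (.e (nat_lit 434295) (nat_lit 49) .nil)))) .nil)) 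
(.lf (nat_lit 11738) (.g (nat_lit 1200) (.e (nat_lit 616) (nat_lit 48) (.e (nat_lit 557109) (nat_lit 15) (.e (nat_lit 188446) (nat_lit 21) .nil))) .nil))) (.nd (nat_lit 6) 
(.lf (nat_lit 11706) (.g (nat_lit 1216) (.e (nat_lit 616) (nat_lit 48) (.e (nat_lit 557108) (nat_lit 15) (.e (nat_lit 188434) (nat_lit 20) (.e (nat_lit 3579) (nat_lit 223) .nil)))) .nil)) 
(.lf (nat_lit 11770) (.g (nat_lit 2276) (.e (nat_lit 618) (nat_lit 48) (.e (nat_lit 557098) (nat_lit 13) (.e (nat_lit 172115) (nat_lit 10) (.e (nat_lit 434202) (nat_lit 18) (.e (nat_lit 6830) (nat_lit 367) (.e (nat_lit 57412) (nat_lit 12) (.e (nat_lit 336058) (nat_lit 7) (.e (nat_lit 319505) (nat_lit 10) .nil)))))))) (.g (nat_lit 4) .nil .nil))))))) 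
(.nd (nat_lit 3) (.nd (nat_lit 4) (.nd (nat_lit 5) (.nd (nat_lit 6) 
(.lf (nat_lit 11654) (.g (nat_lit 2215) (.e (nat_lit 605) (nat_lit 45) (.e (nat_lit 532504) (nat_lit 1) (.e (nat_lit 57852) (nat_lit 252) (.e (nat_lit 57430) (nat_lit 16) .nil)))) .nil)) 
(.lf (nat_lit 11718) (.g (nat_lit 1838) (.e (nat_lit 616) (nat_lit 48) (.e (nat_lit 557108) (nat_lit 15) (.e (nat_lit 188446) (nat_lit 21) (.e (nat_lit 164195) (nat_lit 158) .nil)))) .nil))) (.nd (nat_lit 6) 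
(.lf (nat_lit 11686) (.g (nat_lit 2694) (.e (nat_lit 616) (nat_lit 48) (.e (nat_lit 557107) (nat_lit 15) (.e (nat_lit 188439) (nat_lit 20) (.e (nat_lit 3579) (nat_lit 223) (.e (nat_lit 745491) (nat_lit 4) (.e (nat_lit 65583) (nat_lit 7) (.e (nat_lit 319499) (nat_lit 10) .nil))))))) (.g (nat_lit 0) .nil .nil))) 
(.lf (nat_lit 11750) (.g (nat_lit 2543) (.e (nat_lit 618) (nat_lit 48) (.e (nat_lit 557098) (nat_lit 13) (.e (nat_lit 172097) (nat_lit 9) (.e (nat_lit 426109) (nat_lit 1) (.e (nat_lit 164196) (nat_lit 158) (.e (nat_lit 1199) (nat_lit 88) (.e (nat_lit 65586) (nat_lit 7) (.e (nat_lit 319500) (nat_lit 10) .nil)))))))) (.g (nat_lit 4) .nil .nil))))) (.nd (nat_lit 5) (.nd (nat_lit 6) 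
(.lf (nat_lit 11670) (.g (nat_lit 2734) (.e (nat_lit 616) (nat_lit 48) (.e (nat_lit 557100) (nat_lit 13) (.e (nat_lit 172106) (nat_lit 10) (.e (nat_lit 434295) (nat_lit 49) (.e (nat_lit 745491) (nat_lit 4) (.e (nat_lit 65583) (nat_lit 7) (.e (nat_lit 319499) (nat_lit 10) .nil))))))) (.g (nat_lit 5) .nil .nil))) 
(.lf (nat_lit 11734) (.g (nat_lit 1295) (.e (nat_lit 616) (nat_lit 48) (.e (nat_lit 557109) (nat_lit 15) (.e (nat_lit 188435) (nat_lit 20) .nil))) .nil))) (.nd (nat_lit 6) 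
(.lf (nat_lit 11702) (.g (nat_lit 2690) (.e (nat_lit 616) (nat_lit 48) (.e (nat_lit 557108) (nat_lit 15) (.e (nat_lit 188434) (nat_lit 20) (.e (nat_lit 3577) (nat_lit 223) (.e (nat_lit 745491) (nat_lit 4) (.e (nat_lit 65586) (nat_lit 7) (.e (nat_lit 319500) (nat_lit 10) .nil))))))) (.g (nat_lit 6) .nil .nil))) 
(.lf (nat_lit 11766) (.g (nat_lit 2314) (.e (nat_lit 618) (nat_lit 48) (.e (nat_lit 557098) (nat_lit 13) (.e (nat_lit 172115) (nat_lit 10) (.e (nat_lit 434202) (nat_lit 18) (.e (nat_lit 6740) (nat_lit 365) (.e (nat_lit 1201) (nat_lit 88) (.e (nat_lit 65586) (nat_lit 7) (.e (nat_lit 319500) (nat_lit 10) .nil)))))))) (.g (nat_lit 4) .nil .nil)))))) (.nd (nat_lit 4) (.nd (nat_lit 5) (.nd (nat_lit 6) 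
(.lf (nat_lit 11662) (.g (nat_lit 2100) (.e (nat_lit 7936) (nat_lit 45) (.e (nat_lit 532550) (nat_lit 12) (.e (nat_lit 360474) (nat_lit 8) (.e (nat_lit 557085) (nat_lit 11) (.e (nat_lit 24616) (nat_lit 7) .nil))))) .nil)) 
(.lf (nat_lit 11726) (.g (nat_lit 4897) (.e (nat_lit 616) (nat_lit 48) (.e (nat_lit 557108) (nat_lit 15) (.e (nat_lit 188446) (nat_lit 21) (.e (nat_lit 164196) (nat_lit 158) (.e (nat_lit 1199) (nat_lit 88) (.e (nat_lit 65586) (nat_lit 7) (.e (nat_lit 319500) (nat_lit 10) .nil))))))) (.g (nat_lit 7) .nil .nil)))) (.nd (nat_lit 6) 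
(.lf (nat_lit 11694) (.g (nat_lit 1679) (.e (nat_lit 616) (nat_lit 48) (.e (nat_lit 557107) (nat_lit 15) (.e (nat_lit 188441) (nat_lit 20) (.e (nat_lit 3578) (nat_lit 223) (.e (nat_lit 745491) (nat_lit 4) (.e (nat_lit 65583) (nat_lit 7) (.e (nat_lit 319499) (nat_lit 10) .nil))))))) (.g (nat_lit 5) .nil .nil))) 
(.lf (nat_lit 11758) (.g (nat_lit 3074) (.e (nat_lit 618) (nat_lit 48) (.e (nat_lit 557098) (nat_lit 13) (.e (nat_lit 172097) (nat_lit 9) (.e (nat_lit 426140) (nat_lit 3) (.e (nat_lit 204863) (nat_lit 27) (.e (nat_lit 344160) (nat_lit 37) (.e (nat_lit 647203) (nat_lit 14) (.e (nat_lit 1015) (nat_lit 81) .nil)))))))) (.g (nat_lit 4) .nil .nil))))) (.nd (nat_lit 5) (.nd (nat_lit 6) 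
(.lf (nat_lit 11678) (.g (nat_lit 1149) (.e (nat_lit 616) (nat_lit 48) (.e (nat_lit 557103) (nat_lit 14) (.e (nat_lit 188160) (nat_lit 34) (.e (nat_lit 16487) (nat_lit 27) (.e (nat_lit 336069) (nat_lit 8) .nil))))) .nil)) 
(.lf (nat_lit 11742) (.g (nat_lit 2581) (.e (nat_lit 616) (nat_lit 48) (.e (nat_lit 557109) (nat_lit 15) (.e (nat_lit 188455) (nat_lit 24) (.e (nat_lit 229558) (nat_lit 158) .nil)))) .nil))) (.nd (nat_lit 6) 
(.lf (nat_lit 11710) (.g (nat_lit 1327) (.e (nat_lit 616) (nat_lit 48) (.e (nat_lit 557108) (nat_lit 15) (.e (nat_lit 188435) (nat_lit 20) (.e (nat_lit 3577) (nat_lit 223) .nil)))) .nil)) 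
(.lf (nat_lit 11774) (.g (nat_lit 2758) (.e (nat_lit 618) (nat_lit 48) (.e (nat_lit 557098) (nat_lit 13) (.e (nat_lit 172115) (nat_lit 10) (.e (nat_lit 434209) (nat_lit 18) (.e (nat_lit 6792) (nat_lit 365) (.e (nat_lit 1199) (nat_lit 88) (.e (nat_lit 65586) (nat_lit 7) (.e (nat_lit 319500) (nat_lit 10) .nil)))))))) (.g (nat_lit 4) .nil .nil))))))))) 
(.nd (nat_lit 1) (.nd (nat_lit 2) (.nd (nat_lit 3) (.nd (nat_lit 4) (.nd (nat_lit 5) 
(.nd (nat_lit 6) 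
(.lf (nat_lit 11649) (.g (nat_lit 1529) (.e (nat_lit 605) (nat_lit 45) (.e (nat_lit 532504) (nat_lit 1) (.e (nat_lit 57851) (nat_lit 252) .nil))) .nil)) 
(.lf (nat_lit 11713) (.g (nat_lit 1285) (.e (nat_lit 616) (nat_lit 48) (.e (nat_lit 557108) (nat_lit 15) (.e (nat_lit 188435) (nat_lit 20) (.e (nat_lit 3579) (nat_lit 223) .nil)))) .nil))) (.nd (nat_lit 6) 
(.lf (nat_lit 11681) (.g (nat_lit 2196) (.e (nat_lit 616) (nat_lit 48) (.e (nat_lit 557105) (nat_lit 14) (.e (nat_lit 180252) (nat_lit 10) (.e (nat_lit 573489) (nat_lit 14) .nil)))) .nil)) 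
(.lf (nat_lit 11745) (.g (nat_lit 2819) (.e (nat_lit 618) (nat_lit 48) (.e (nat_lit 557087) (nat_lit 11) (.e (nat_lit 24625) (nat_lit 9) (.e (nat_lit 336456) (nat_lit 34) .nil)))) .nil)))) (.nd (nat_lit 5) (.nd (nat_lit 6) 
(.lf (nat_lit 11665) (.g (nat_lit 1285) (.e (nat_lit 616) (nat_lit 48) (.e (nat_lit 557097) (nat_lit 13) (.e (nat_lit 172115) (nat_lit 10) (.e (nat_lit 434202) (nat_lit 18) .nil)))) .nil)) 
(.lf (nat_lit 11729) (.g (nat_lit 2228) (.e (nat_lit 616) (nat_lit 48) (.e (nat_lit 557108) (nat_lit 15) (.e (nat_lit 188455) (nat_lit 24) (.e (nat_lit 229558) (nat_lit 158) (.e (nat_lit 1196) (nat_lit 88) .nil))))) .nil))) (.nd (nat_lit 6) 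
(.lf (nat_lit 11697) (.g (nat_lit 962) (.e (nat_lit 616) (nat_lit 48) (.e (nat_lit 557107) (nat_lit 15) (.e (nat_lit 188444) (nat_lit 21) (.e (nat_lit 164196) (nat_lit 158) .nil)))) .nil)) 
(.lf (nat_lit 11761) (.g (nat_lit 837) (.e (nat_lit 618) (nat_lit 48) (.e (nat_lit 557098) (nat_lit 13) (.e (nat_lit 172105) (nat_lit 10) .nil))) .nil))))) (.nd (nat_lit 4) (.nd (nat_lit 5) (.nd (nat_lit 6) 
(.lf (nat_lit 11657) (.g (nat_lit 5438) (.e (nat_lit 605) (nat_lit 45) (.e (nat_lit 532550) (nat_lit 12) (.e (nat_lit 360475) (nat_lit 8) (.e (nat_lit 557087) (nat_lit 11) .nil)))) .nil)) 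
(.lf (nat_lit 11721) (.g (nat_lit 1599) (.e (nat_lit 616) (nat_lit 48) (.e (nat_lit 557108) (nat_lit 15) (.e (nat_lit 188446) (nat_lit 21) (.e (nat_lit 164196) (nat_lit 158) .nil)))) .nil))) (.nd (nat_lit 6) 
(.lf (nat_lit 11689) (.g (nat_lit 1309) (.e (nat_lit 616) (nat_lit 48) (.e (nat_lit 557107) (nat_lit 15) (.e (nat_lit 188440) (nat_lit 20) (.e (nat_lit 3577) (nat_lit 223) .nil)))) .nil)) 
(.lf (nat_lit 11753) (.g (nat_lit 3333) (.e (nat_lit 618) (nat_lit 48) (.e (nat_lit 557098) (nat_lit 13) (.e (nat_lit 172097) (nat_lit 9) (.e (nat_lit 426140) (nat_lit 3) (.e (nat_lit 204862) (nat_lit 27) (.e (nat_lit 344160) (nat_lit 37) (.e (nat_lit 647203) (nat_lit 14) (.e (nat_lit 1014) (nat_lit 81) .nil)))))))) (.g (nat_lit 5) .nil .nil))))) (.nd (nat_lit 5) (.nd (nat_lit 6) 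
(.lf (nat_lit 11673) (.g (nat_lit 3533) (.e (nat_lit 616) (nat_lit 48) (.e (nat_lit 557100) (nat_lit 13) (.e (nat_lit 172113) (nat_lit 10) (.e (nat_lit 434295) (nat_lit 49) (.e (nat_lit 745491) (nat_lit 4) (.e (nat_lit 65586) (nat_lit 7) (.e (nat_lit 319500) (nat_lit 10) .nil))))))) (.g (nat_lit 0) .nil .nil))) 
(.lf (nat_lit 11737) (.g (nat_lit 1377) (.e (nat_lit 616) (nat_lit 48) (.e (nat_lit 557109) (nat_lit 15) (.e (nat_lit 188444) (nat_lit 21) .nil))) .nil))) (.nd (nat_lit 6) 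
(.lf (nat_lit 11705) (.g (nat_lit 3200) (.e (nat_lit 616) (nat_lit 48) (.e (nat_lit 557108) (nat_lit 15) (.e (nat_lit 188434) (nat_lit 20) (.e (nat_lit 3578) (nat_lit 223) (.e (nat_lit 745491) (nat_lit 4) (.e (nat_lit 65586) (nat_lit 7) (.e (nat_lit 319500) (nat_lit 10) .nil))))))) (.g (nat_lit 7) .nil .nil))) 
(.lf (nat_lit 11769) (.g (nat_lit 2603) (.e (nat_lit 618) (nat_lit 48) (.e (nat_lit 557098) (nat_lit 13) (.e (nat_lit 172115) (nat_lit 10) (.e (nat_lit 434202) (nat_lit 18) (.e (nat_lit 6828) (nat_lit 367) (.e (nat_lit 57413) (nat_lit 12) (.e (nat_lit 336060) (nat_lit 7) (.e (nat_lit 319505) (nat_lit 10) .nil)))))))) (.g (nat_lit 4) .nil .nil))))))) 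
(.nd (nat_lit 3) (.nd (nat_lit 4) (.nd (nat_lit 5) (.nd (nat_lit 6) 
(.lf (nat_lit 11653) (.g (nat_lit 2006) (.e (nat_lit 605) (nat_lit 45) (.e (nat_lit 532504) (nat_lit 1) (.e (nat_lit 57852) (nat_lit 252) (.e (nat_lit 57419) (nat_lit 12) (.e (nat_lit 336012) (nat_lit 2) .nil))))) .nil)) 
(.lf (nat_lit 11717) (.g (nat_lit 2010) (.e (nat_lit 616) (nat_lit 48) (.e (nat_lit 557108) (nat_lit 15) (.e (nat_lit 188446) (nat_lit 21) (.e (nat_lit 164193) (nat_lit 158) .nil)))) .nil))) (.nd (nat_lit 6) 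
(.lf (nat_lit 11685) (.g (nat_lit 1664) (.e (nat_lit 616) (nat_lit 48) (.e (nat_lit 557107) (nat_lit 15) (.e (nat_lit 188439) (nat_lit 20) (.e (nat_lit 3578) (nat_lit 223) (.e (nat_lit 745491) (nat_lit 4) (.e (nat_lit 65583) (nat_lit 7) (.e (nat_lit 319499) (nat_lit 10) .nil))))))) (.g (nat_lit 6) .nil .nil))) 
(.lf (nat_lit 11749) (.g (nat_lit 2082) (.e (nat_lit 618) (nat_lit 48) (.e (nat_lit 557098) (nat_lit 13) (.e (nat_lit 172097) (nat_lit 9) (.e (nat_lit 426109) (nat_lit 1) (.e (nat_lit 164195) (nat_lit 158) .nil))))) .nil)))) (.nd (nat_lit 5) (.nd (nat_lit 6) 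
(.lf (nat_lit 11669) (.g (nat_lit 2187) (.e (nat_lit 616) (nat_lit 48) (.e (nat_lit 557100) (nat_lit 13) (.e (nat_lit 172106) (nat_lit 10) (.e (nat_lit 434209) (nat_lit 18) .nil)))) .nil)) 
(.lf (nat_lit 11733) (.g (nat_lit 2063) (.e (nat_lit 616) (nat_lit 48) (.e (nat_lit 557109) (nat_lit 15) (.e (nat_lit 188434) (nat_lit 20) (.e (nat_lit 3579) (nat_lit 223) .nil)))) .nil))) (.nd (nat_lit 6) 
(.lf (nat_lit 11701) (.g (nat_lit 2528) (.e (nat_lit 616) (nat_lit 48) (.e (nat_lit 557108) (nat_lit 15) (.e (nat_lit 188434) (nat_lit 20) (.e (nat_lit 3577) (nat_lit 223) (.e (nat_lit 745491) (nat_lit 4) (.e (nat_lit 65583) (nat_lit 7) (.e (nat_lit 319499) (nat_lit 10) .nil))))))) (.g (nat_lit 6) .nil .nil))) 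
(.lf (nat_lit 11765) (.g (nat_lit 2448) (.e (nat_lit 618) (nat_lit 48) (.e (nat_lit 557098) (nat_lit 13) (.e (nat_lit 172115) (nat_lit 10) (.e (nat_lit 434202) (nat_lit 18) (.e (nat_lit 5992) (nat_lit 326) (.e (nat_lit 2551) (nat_lit 159) (.e (nat_lit 24617) (nat_lit 7) (.e (nat_lit 319505) (nat_lit 10) .nil)))))))) (.g (nat_lit 4) .nil .nil)))))) 
(.nd (nat_lit 4) (.nd (nat_lit 5) (.nd (nat_lit 6) 
(.lf (nat_lit 11661) (.g (nat_lit 4699) (.e (nat_lit 7936) (nat_lit 45) (.e (nat_lit 532550) (nat_lit 12) (.e (nat_lit 360474) (nat_lit 8) (.e (nat_lit 557066) (nat_lit 9) .nil)))) .nil)) 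
(.lf (nat_lit 11725) (.g (nat_lit 4217) (.e (nat_lit 616) (nat_lit 48) (.e (nat_lit 557108) (nat_lit 15) (.e (nat_lit 188446) (nat_lit 21) (.e (nat_lit 164196) (nat_lit 158) (.e (nat_lit 1199) (nat_lit 88) (.e (nat_lit 65583) (nat_lit 7) (.e (nat_lit 319499) (nat_lit 10) .nil))))))) (.g (nat_lit 7) .nil .nil)))) (.nd (nat_lit 6) 
(.lf (nat_lit 11693) (.g (nat_lit 537) (.e (nat_lit 616) (nat_lit 48) (.e (nat_lit 557107) (nat_lit 15) (.e (nat_lit 188441) (nat_lit 20) .nil))) .nil)) 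
(.lf (nat_lit 11757) (.g (nat_lit 3435) (.e (nat_lit 618) (nat_lit 48) (.e (nat_lit 557098) (nat_lit 13) (.e (nat_lit 172097) (nat_lit 9) (.e (nat_lit 426140) (nat_lit 3) (.e (nat_lit 204863) (nat_lit 27) (.e (nat_lit 344160) (nat_lit 37) (.e (nat_lit 647203) (nat_lit 14) (.e (nat_lit 1014) (nat_lit 81) .nil)))))))) (.g (nat_lit 5) .nil .nil))))) (.nd (nat_lit 5) (.nd (nat_lit 6) 
(.lf (nat_lit 11677) (.g (nat_lit 608) (.e (nat_lit 616) (nat_lit 48) (.e (nat_lit 557103) (nat_lit 14) (.e (nat_lit 188160) (nat_lit 34) .nil))) .nil)) 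
(.lf (nat_lit 11741) (.g (nat_lit 3213) (.e (nat_lit 616) (nat_lit 48) (.e (nat_lit 557109) (nat_lit 15) (.e (nat_lit 188446) (nat_lit 21) (.e (nat_lit 164196) (nat_lit 158) (.e (nat_lit 1199) (nat_lit 88) (.e (nat_lit 65586) (nat_lit 7) (.e (nat_lit 319500) (nat_lit 10) .nil))))))) (.g (nat_lit 4) .nil .nil)))) (.nd (nat_lit 6) 
(.lf (nat_lit 11709) (.g (nat_lit 718) (.e (nat_lit 616) (nat_lit 48) (.e (nat_lit 557108) (nat_lit 15) (.e (nat_lit 188435) (nat_lit 20) .nil))) .nil)) 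
(.lf (nat_lit 11773) (.g (nat_lit 2443) (.e (nat_lit 618) (nat_lit 48) (.e (nat_lit 557098) (nat_lit 13) (.e (nat_lit 172115) (nat_lit 10) (.e (nat_lit 434209) (nat_lit 18) (.e (nat_lit 6029) (nat_lit 326) (.e (nat_lit 2551) (nat_lit 159) (.e (nat_lit 24617) (nat_lit 7) (.e (nat_lit 319505) (nat_lit 10) .nil)))))))) (.g (nat_lit 4) .nil .nil)))))))) 
(.nd (nat_lit 2) (.nd (nat_lit 3) (.nd (nat_lit 4) (.nd (nat_lit 5) (.nd (nat_lit 6) 
(.lf (nat_lit 11651) (.g (nat_lit 1917) (.e (nat_lit 605) (nat_lit 45) (.e (nat_lit 532504) (nat_lit 1) (.e (nat_lit 57852) (nat_lit 252) (.e (nat_lit 57404) (nat_lit 12) .nil)))) .nil)) 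
(.lf (nat_lit 11715) (.g (nat_lit 3274) (.e (nat_lit 616) (nat_lit 48) (.e (nat_lit 557108) (nat_lit 15) (.e (nat_lit 188435) (nat_lit 20) (.e (nat_lit 3579) (nat_lit 223) (.e (nat_lit 745491) (nat_lit 4) (.e (nat_lit 65586) (nat_lit 7) (.e (nat_lit 319500) (nat_lit 10) .nil))))))) (.g (nat_lit 6) .nil .nil)))) (.nd (nat_lit 6) 
(.lf (nat_lit 11683) (.g (nat_lit 1236) (.e (nat_lit 616) (nat_lit 48) (.e (nat_lit 557107) (nat_lit 15) (.e (nat_lit 188438) (nat_lit 20) (.e (nat_lit 3579) (nat_lit 223) (.e (nat_lit 745491) (nat_lit 4) .nil))))) .nil)) 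
(.lf (nat_lit 11747) (.g (nat_lit 836) (.e (nat_lit 618) (nat_lit 48) (.e (nat_lit 557098) (nat_lit 13) (.e (nat_lit 172086) (nat_lit 9) .nil))) .nil)))) (.nd (nat_lit 5) (.nd (nat_lit 6) 
(.lf (nat_lit 11667) (.g (nat_lit 2104) (.e (nat_lit 616) (nat_lit 48) (.e (nat_lit 557098) (nat_lit 13) (.e (nat_lit 172115) (nat_lit 10) (.e (nat_lit 434295) (nat_lit 49) (.e (nat_lit 745491) (nat_lit 4) .nil))))) .nil)) 
(.lf (nat_lit 11731) (.g (nat_lit 2584) (.e (nat_lit 616) (nat_lit 48) (.e (nat_lit 557109) (nat_lit 15) (.e (nat_lit 188434) (nat_lit 20) (.e (nat_lit 3577) (nat_lit 223) .nil)))) .nil))) (.nd (nat_lit 6) 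
(.lf (nat_lit 11699) (.g (nat_lit 582) (.e (nat_lit 616) (nat_lit 48) (.e (nat_lit 557108) (nat_lit 15) (.e (nat_lit 188433) (nat_lit 20) .nil))) .nil)) 
(.lf (nat_lit 11763) (.g (nat_lit 464) (.e (nat_lit 618) (nat_lit 48) (.e (nat_lit 557098) (nat_lit 13) (.e (nat_lit 172115) (nat_lit 10) .nil))) .nil))))) (.nd (nat_lit 4) (.nd (nat_lit 5) (.nd (nat_lit 6) 
(.lf (nat_lit 11659) (.g (nat_lit 3036) (.e (nat_lit 7936) (nat_lit 45) (.e (nat_lit 532550) (nat_lit 12) (.e (nat_lit 360473) (nat_lit 8) (.e (nat_lit 557066) (nat_lit 9) (.e (nat_lit 232) (nat_lit 21) .nil))))) .nil)) 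
(.lf (nat_lit 11723) (.g (nat_lit 2499) (.e (nat_lit 616) (nat_lit 48) (.e (nat_lit 557108) (nat_lit 15) (.e (nat_lit 188446) (nat_lit 21) (.e (nat_lit 164196) (nat_lit 158) (.e (nat_lit 1196) (nat_lit 88) (.e (nat_lit 65583) (nat_lit 7) (.e (nat_lit 319499) (nat_lit 10) .nil))))))) (.g (nat_lit 4) .nil .nil)))) (.nd (nat_lit 6) 
(.lf (nat_lit 11691) (.g (nat_lit 1201) (.e (nat_lit 616) (nat_lit 48) (.e (nat_lit 557107) (nat_lit 15) (.e (nat_lit 188440) (nat_lit 20) (.e (nat_lit 3579) (nat_lit 223) .nil)))) .nil)) 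
(.lf (nat_lit 11755) (.g (nat_lit 2469) (.e (nat_lit 618) (nat_lit 48) (.e (nat_lit 557098) (nat_lit 13) (.e (nat_lit 172097) (nat_lit 9) (.e (nat_lit 426140) (nat_lit 3) (.e (nat_lit 204863) (nat_lit 27) (.e (nat_lit 344160) (nat_lit 37) (.e (nat_lit 647203) (nat_lit 14) (.e (nat_lit 992) (nat_lit 81) .nil)))))))) (.g (nat_lit 4) .nil .nil))))) (.nd (nat_lit 5) (.nd (nat_lit 6) 
(.lf (nat_lit 11675) (.g (nat_lit 608) (.e (nat_lit 616) (nat_lit 48) (.e (nat_lit 557103) (nat_lit 14) (.e (nat_lit 188160) (nat_lit 32) .nil))) .nil)) 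
(.lf (nat_lit 11739) (.g (nat_lit 2478) (.e (nat_lit 616) (nat_lit 48) (.e (nat_lit 557109) (nat_lit 15) (.e (nat_lit 188446) (nat_lit 21) (.e (nat_lit 164195) (nat_lit 158) .nil)))) .nil))) (.nd (nat_lit 6) 
(.lf (nat_lit 11707) (.g (nat_lit 3381) (.e (nat_lit 616) (nat_lit 48) (.e (nat_lit 557108) (nat_lit 15) (.e (nat_lit 188434) (nat_lit 20) (.e (nat_lit 3579) (nat_lit 223) (.e (nat_lit 745491) (nat_lit 4) (.e (nat_lit 65583) (nat_lit 7) (.e (nat_lit 319499) (nat_lit 10) .nil))))))) (.g (nat_lit 0) .nil .nil))) 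
(.lf (nat_lit 11771) (.g (nat_lit 3262) (.e (nat_lit 618) (nat_lit 48) (.e (nat_lit 557098) (nat_lit 13) (.e (nat_lit 172115) (nat_lit 10) (.e (nat_lit 434202) (nat_lit 18) (.e (nat_lit 6830) (nat_lit 367) (.e (nat_lit 57412) (nat_lit 12) (.e (nat_lit 336060) (nat_lit 7) (.e (nat_lit 319505) (nat_lit 10) .nil)))))))) (.g (nat_lit 5) .nil .nil))))))) 
(.nd (nat_lit 3) (.nd (nat_lit 4) (.nd (nat_lit 5) (.nd (nat_lit 6) 
(.lf (nat_lit 11655) (.g (nat_lit 2101) (.e (nat_lit 605) (nat_lit 45) (.e (nat_lit 532504) (nat_lit 1) (.e (nat_lit 57852) (nat_lit 252) (.e (nat_lit 57431) (nat_lit 16) .nil)))) .nil)) 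
(.lf (nat_lit 11719) (.g (nat_lit 3301) (.e (nat_lit 616) (nat_lit 48) (.e (nat_lit 557108) (nat_lit 15) (.e (nat_lit 188446) (nat_lit 21) (.e (nat_lit 164195) (nat_lit 158) (.e (nat_lit 1199) (nat_lit 88) (.e (nat_lit 65583) (nat_lit 7) (.e (nat_lit 319499) (nat_lit 10) .nil))))))) (.g (nat_lit 6) .nil .nil)))) (.nd (nat_lit 6) 
(.lf (nat_lit 11687) (.g (nat_lit 2871) (.e (nat_lit 616) (nat_lit 48) (.e (nat_lit 557107) (nat_lit 15) (.e (nat_lit 188439) (nat_lit 20) (.e (nat_lit 3579) (nat_lit 223) (.e (nat_lit 745491) (nat_lit 4) (.e (nat_lit 65586) (nat_lit 7) (.e (nat_lit 319500) (nat_lit 10) .nil))))))) (.g (nat_lit 0) .nil .nil))) 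
(.lf (nat_lit 11751) (.g (nat_lit 2444) (.e (nat_lit 618) (nat_lit 48) (.e (nat_lit 557098) (nat_lit 13) (.e (nat_lit 172097) (nat_lit 9) (.e (nat_lit 426109) (nat_lit 1) (.e (nat_lit 164196) (nat_lit 158) (.e (nat_lit 1199) (nat_lit 88) (.e (nat_lit 65586) (nat_lit 7) (.e (nat_lit 319505) (nat_lit 10) .nil)))))))) (.g (nat_lit 4) .nil .nil))))) (.nd (nat_lit 5) (.nd (nat_lit 6) 
(.lf (nat_lit 11671) (.g (nat_lit 421) (.e (nat_lit 616) (nat_lit 48) (.e (nat_lit 557100) (nat_lit 13) (.e (nat_lit 172113) (nat_lit 10) .nil))) .nil)) 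
(.lf (nat_lit 11735) (.g (nat_lit 2253) (.e (nat_lit 616) (nat_lit 48) (.e (nat_lit 557109) (nat_lit 15) (.e (nat_lit 188441) (nat_lit 20) (.e (nat_lit 3578) (nat_lit 223) .nil)))) .nil))) (.nd (nat_lit 6) 
(.lf (nat_lit 11703) (.g (nat_lit 1483) (.e (nat_lit 616) (nat_lit 48) (.e (nat_lit 557108) (nat_lit 15) (.e (nat_lit 188434) (nat_lit 20) (.e (nat_lit 3578) (nat_lit 223) .nil)))) .nil)) 
(.lf (nat_lit 11767) (.g (nat_lit 2509) (.e (nat_lit 618) (nat_lit 48) (.e (nat_lit 557098) (nat_lit 13) (.e (nat_lit 172115) (nat_lit 10) (.e (nat_lit 434202) (nat_lit 18) (.e (nat_lit 6828) (nat_lit 367) (.e (nat_lit 57412) (nat_lit 12) (.e (nat_lit 336060) (nat_lit 7) (.e (nat_lit 319505) (nat_lit 10) .nil)))))))) (.g (nat_lit 4) .nil .nil)))))) 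
(.nd (nat_lit 4) (.nd (nat_lit 5) (.nd (nat_lit 6) 
(.lf (nat_lit 11663) (.g (nat_lit 603) (.e (nat_lit 612) (nat_lit 47) (.e (nat_lit 548889) (nat_lit 9) (.e (nat_lit 65627) (nat_lit 13) .nil))) .nil)) 
(.lf (nat_lit 11727) (.g (nat_lit 2995) (.e (nat_lit 616) (nat_lit 48) (.e (nat_lit 557108) (nat_lit 15) (.e (nat_lit 188452) (nat_lit 23) (.e (nat_lit 204863) (nat_lit 27) .nil)))) .nil))) (.nd (nat_lit 6) 
(.lf (nat_lit 11695) (.g (nat_lit 2674) (.e (nat_lit 616) (nat_lit 48) (.e (nat_lit 557107) (nat_lit 15) (.e (nat_lit 188441) (nat_lit 20) (.e (nat_lit 3579) (nat_lit 223) (.e (nat_lit 745491) (nat_lit 4) (.e (nat_lit 65583) (nat_lit 7) (.e (nat_lit 319499) (nat_lit 10) .nil))))))) (.g (nat_lit 7) .nil .nil))) 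
(.lf (nat_lit 11759) (.g (nat_lit 1388) (.e (nat_lit 618) (nat_lit 48) (.e (nat_lit 557098) (nat_lit 13) (.e (nat_lit 172097) (nat_lit 9) (.e (nat_lit 426365) (nat_lit 15) .nil)))) .nil)))) (.nd (nat_lit 5) (.nd (nat_lit 6) 
(.lf (nat_lit 11679) (.g (nat_lit 479) (.e (nat_lit 616) (nat_lit 48) (.e (nat_lit 557104) (nat_lit 14) (.e (nat_lit 188160) (nat_lit 32) .nil))) .nil)) 
(.lf (nat_lit 11743) (.g (nat_lit 2370) (.e (nat_lit 617) (nat_lit 48) (.e (nat_lit 557100) (nat_lit 13) (.e (nat_lit 172106) (nat_lit 10) (.e (nat_lit 434231) (nat_lit 23) .nil)))) .nil))) (.nd (nat_lit 6) 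
(.lf (nat_lit 11711) (.g (nat_lit 2131) (.e (nat_lit 616) (nat_lit 48) (.e (nat_lit 557108) (nat_lit 15) (.e (nat_lit 188435) (nat_lit 20) (.e (nat_lit 3578) (nat_lit 223) (.e (nat_lit 745491) (nat_lit 4) (.e (nat_lit 65583) (nat_lit 7) (.e (nat_lit 319499) (nat_lit 10) .nil))))))) (.g (nat_lit 4) .nil .nil))) 
(.lf (nat_lit 11775) (.g (nat_lit 2985) (.e (nat_lit 618) (nat_lit 48) (.e (nat_lit 557098) (nat_lit 13) (.e (nat_lit 172115) (nat_lit 10) (.e (nat_lit 434209) (nat_lit 18) (.e (nat_lit 6792) (nat_lit 365) (.e (nat_lit 1199) (nat_lit 88) (.e (nat_lit 65586) (nat_lit 7) (.e (nat_lit 319505) (nat_lit 10) .nil)))))))) (.g (nat_lit 5) .nil .nil))))))))))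

noncomputable def tv160 : DT := (.nd (nat_lit 0) (.nd (nat_lit 1) (.nd (nat_lit 2) (.nd (nat_lit 3) (.nd (nat_lit 4) (.nd (nat_lit 5) 
(.lf (nat_lit 11776) (.g (nat_lit 2506) (.e (nat_lit 618) (nat_lit 48) (.e (nat_lit 557098) (nat_lit 13) (.e (nat_lit 172115) (nat_lit 10) (.e (nat_lit 434231) (nat_lit 23) (.e (nat_lit 532543) (nat_lit 10) (.e (nat_lit 344160) (nat_lit 37) (.e (nat_lit 647203) (nat_lit 14) (.e (nat_lit 992) (nat_lit 81) .nil)))))))) (.g (nat_lit 4) .nil .nil))) 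
(.lf (nat_lit 11808) (.g (nat_lit 1919) (.e (nat_lit 618) (nat_lit 48) (.e (nat_lit 557100) (nat_lit 13) (.e (nat_lit 172106) (nat_lit 10) (.e (nat_lit 434295) (nat_lit 49) (.e (nat_lit 745476) (nat_lit 0) (.e (nat_lit 1439) (nat_lit 108) (.e (nat_lit 336060) (nat_lit 7) (.e (nat_lit 319505) (nat_lit 10) .nil)))))))) (.g (nat_lit 4) .nil .nil)))) (.nd (nat_lit 5) 
(.lf (nat_lit 11792) (.g (nat_lit 1509) (.e (nat_lit 618) (nat_lit 48) (.e (nat_lit 557100) (nat_lit 13) (.e (nat_lit 172106) (nat_lit 10) (.e (nat_lit 434202) (nat_lit 18) .nil)))) .nil)) 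
(.lf (nat_lit 11824) (.g (nat_lit 2516) (.e (nat_lit 618) (nat_lit 48) (.e (nat_lit 557101) (nat_lit 13) (.e (nat_lit 172097) (nat_lit 9) (.e (nat_lit 426140) (nat_lit 3) (.e (nat_lit 204863) (nat_lit 27) (.e (nat_lit 344160) (nat_lit 37) (.e (nat_lit 647203) (nat_lit 14) (.e (nat_lit 1014) (nat_lit 81) .nil)))))))) (.g (nat_lit 4) .nil .nil))))) (.nd (nat_lit 4) (.nd (nat_lit 5) 
(.lf (nat_lit 11784) (.g (nat_lit 2685) (.e (nat_lit 618) (nat_lit 48) (.e (nat_lit 557098) (nat_lit 13) (.e (nat_lit 172115) (nat_lit 10) (.e (nat_lit 434295) (nat_lit 49) (.e (nat_lit 745476) (nat_lit 0) (.e (nat_lit 1464) (nat_lit 108) (.e (nat_lit 336060) (nat_lit 7) (.e (nat_lit 319505) (nat_lit 10) .nil)))))))) (.g (nat_lit 5) .nil .nil))) 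
(.lf (nat_lit 11816) (.g (nat_lit 1946) (.e (nat_lit 618) (nat_lit 48) (.e (nat_lit 557100) (nat_lit 13) (.e (nat_lit 172113) (nat_lit 10) (.e (nat_lit 434284) (nat_lit 41) (.e (nat_lit 679965) (nat_lit 13) .nil))))) .nil))) (.nd (nat_lit 5) 
(.lf (nat_lit 11800) (.g (nat_lit 3189) (.e (nat_lit 618) (nat_lit 48) (.e (nat_lit 557100) (nat_lit 13) (.e (nat_lit 172106) (nat_lit 10) (.e (nat_lit 434231) (nat_lit 23) (.e (nat_lit 532543) (nat_lit 10) (.e (nat_lit 344160) (nat_lit 37) (.e (nat_lit 647203) (nat_lit 14) (.e (nat_lit 993) (nat_lit 81) .nil)))))))) (.g (nat_lit 8) .nil .nil))) 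
(.lf (nat_lit 11832) (.g (nat_lit 2916) (.e (nat_lit 618) (nat_lit 48) (.e (nat_lit 557101) (nat_lit 13) (.e (nat_lit 172115) (nat_lit 10) (.e (nat_lit 434202) (nat_lit 18) (.e (nat_lit 6830) (nat_lit 367) (.e (nat_lit 57412) (nat_lit 12) (.e (nat_lit 336060) (nat_lit 7) (.e (nat_lit 319505) (nat_lit 10) .nil)))))))) (.g (nat_lit 5) .nil .nil)))))) 
(.nd (nat_lit 3) (.nd (nat_lit 4) (.nd (nat_lit 5) 
(.lf (nat_lit 11780) (.g (nat_lit 2847) (.e (nat_lit 618) (nat_lit 48) (.e (nat_lit 557098) (nat_lit 13) (.e (nat_lit 172115) (nat_lit 10) (.e (nat_lit 434231) (nat_lit 23) (.e (nat_lit 532544) (nat_lit 10) (.e (nat_lit 344160) (nat_lit 37) (.e (nat_lit 647203) (nat_lit 14) (.e (nat_lit 993) (nat_lit 81) .nil)))))))) (.g (nat_lit 4) .nil .nil))) 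
(.lf (nat_lit 11812) (.g (nat_lit 1995) (.e (nat_lit 618) (nat_lit 48) (.e (nat_lit 557100) (nat_lit 13) (.e (nat_lit 172106) (nat_lit 10) (.e (nat_lit 434295) (nat_lit 49) (.e (nat_lit 745491) (nat_lit 4) .nil))))) .nil))) (.nd (nat_lit 5) 
(.lf (nat_lit 11796) (.g (nat_lit 2321) (.e (nat_lit 618) (nat_lit 48) (.e (nat_lit 557100) (nat_lit 13) (.e (nat_lit 172106) (nat_lit 10) (.e (nat_lit 434202) (nat_lit 18) (.e (nat_lit 6830) (nat_lit 367) (.e (nat_lit 57412) (nat_lit 12) (.e (nat_lit 336061) (nat_lit 7) (.e (nat_lit 319504) (nat_lit 10) .nil)))))))) (.g (nat_lit 4) .nil .nil))) 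
(.lf (nat_lit 11828) (.g (nat_lit 1925) (.e (nat_lit 618) (nat_lit 48) (.e (nat_lit 557101) (nat_lit 13) (.e (nat_lit 172115) (nat_lit 10) (.e (nat_lit 434202) (nat_lit 18) (.e (nat_lit 6828) (nat_lit 367) .nil))))) .nil)))) (.nd (nat_lit 4) (.nd (nat_lit 5) 
(.lf (nat_lit 11788) (.g (nat_lit 836) (.e (nat_lit 618) (nat_lit 48) (.e (nat_lit 557098) (nat_lit 13) (.e (nat_lit 172122) (nat_lit 13) .nil))) .nil)) 
(.lf (nat_lit 11820) (.g (nat_lit 2239) (.e (nat_lit 618) (nat_lit 48) (.e (nat_lit 557100) (nat_lit 13) (.e (nat_lit 172113) (nat_lit 10) (.e (nat_lit 434295) (nat_lit 49) (.e (nat_lit 745491) (nat_lit 4) (.e (nat_lit 65585) (nat_lit 7) (.e (nat_lit 319505) (nat_lit 10) .nil))))))) (.g (nat_lit 4) .nil .nil)))) (.nd (nat_lit 5) 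
(.lf (nat_lit 11804) (.g (nat_lit 2090) (.e (nat_lit 618) (nat_lit 48) (.e (nat_lit 557100) (nat_lit 13) (.e (nat_lit 172106) (nat_lit 10) (.e (nat_lit 434283) (nat_lit 41) (.e (nat_lit 679965) (nat_lit 13) .nil))))) .nil)) 
(.lf (nat_lit 11836) (.g (nat_lit 3070) (.e (nat_lit 618) (nat_lit 48) (.e (nat_lit 557101) (nat_lit 13) (.e (nat_lit 172115) (nat_lit 10) (.e (nat_lit 434231) (nat_lit 23) (.e (nat_lit 532543) (nat_lit 10) (.e (nat_lit 344160) (nat_lit 37) (.e (nat_lit 647203) (nat_lit 14) (.e (nat_lit 1014) (nat_lit 81) .nil)))))))) (.g (nat_lit 5) .nil .nil))))))) 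
(.nd (nat_lit 2) (.nd (nat_lit 3) (.nd (nat_lit 4) (.nd (nat_lit 5) 
(.lf (nat_lit 11778) (.g (nat_lit 3472) (.e (nat_lit 618) (nat_lit 48) (.e (nat_lit 557098) (nat_lit 13) (.e (nat_lit 172115) (nat_lit 10) (.e (nat_lit 434231) (nat_lit 23) (.e (nat_lit 532543) (nat_lit 10) (.e (nat_lit 344160) (nat_lit 37) (.e (nat_lit 647203) (nat_lit 14) (.e (nat_lit 1014) (nat_lit 81) .nil)))))))) (.g (nat_lit 5) .nil .nil))) 
(.lf (nat_lit 11810) (.g (nat_lit 2607) (.e (nat_lit 618) (nat_lit 48) (.e (nat_lit 557100) (nat_lit 13) (.e (nat_lit 172106) (nat_lit 10) (.e (nat_lit 434295) (nat_lit 49) (.e (nat_lit 745476) (nat_lit 0) (.e (nat_lit 1464) (nat_lit 108) (.e (nat_lit 336060) (nat_lit 7) (.e (nat_lit 319505) (nat_lit 10) .nil)))))))) (.g (nat_lit 5) .nil .nil)))) (.nd (nat_lit 5) 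
(.lf (nat_lit 11794) (.g (nat_lit 1784) (.e (nat_lit 618) (nat_lit 48) (.e (nat_lit 557100) (nat_lit 13) (.e (nat_lit 172106) (nat_lit 10) (.e (nat_lit 434202) (nat_lit 18) (.e (nat_lit 6830) (nat_lit 367) .nil))))) .nil)) 
(.lf (nat_lit 11826) (.g (nat_lit 1839) (.e (nat_lit 618) (nat_lit 48) (.e (nat_lit 557101) (nat_lit 13) (.e (nat_lit 172115) (nat_lit 10) (.e (nat_lit 434202) (nat_lit 18) (.e (nat_lit 6740) (nat_lit 365) .nil))))) .nil)))) (.nd (nat_lit 4) (.nd (nat_lit 5) 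
(.lf (nat_lit 11786) (.g (nat_lit 868) (.e (nat_lit 618) (nat_lit 48) (.e (nat_lit 557098) (nat_lit 13) (.e (nat_lit 172118) (nat_lit 12) .nil))) .nil)) 
(.lf (nat_lit 11818) (.g (nat_lit 1692) (.e (nat_lit 618) (nat_lit 48) (.e (nat_lit 557100) (nat_lit 13) (.e (nat_lit 172113) (nat_lit 10) (.e (nat_lit 434294) (nat_lit 49) .nil)))) .nil))) (.nd (nat_lit 5) 
(.lf (nat_lit 11802) (.g (nat_lit 2911) (.e (nat_lit 618) (nat_lit 48) (.e (nat_lit 557100) (nat_lit 13) (.e (nat_lit 172106) (nat_lit 10) (.e (nat_lit 434231) (nat_lit 23) (.e (nat_lit 532544) (nat_lit 10) (.e (nat_lit 344160) (nat_lit 37) (.e (nat_lit 647203) (nat_lit 14) (.e (nat_lit 1014) (nat_lit 81) .nil)))))))) (.g (nat_lit 6) .nil .nil))) 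
(.lf (nat_lit 11834) (.g (nat_lit 2529) (.e (nat_lit 618) (nat_lit 48) (.e (nat_lit 557101) (nat_lit 13) (.e (nat_lit 172115) (nat_lit 10) (.e (nat_lit 434209) (nat_lit 18) (.e (nat_lit 6792) (nat_lit 365) (.e (nat_lit 1199) (nat_lit 88) (.e (nat_lit 65586) (nat_lit 7) (.e (nat_lit 319500) (nat_lit 10) .nil)))))))) (.g (nat_lit 4) .nil .nil)))))) (.nd (nat_lit 3) (.nd (nat_lit 4) (.nd (nat_lit 5) 
(.lf (nat_lit 11782) (.g (nat_lit 1554) (.e (nat_lit 618) (nat_lit 48) (.e (nat_lit 557098) (nat_lit 13) (.e (nat_lit 172115) (nat_lit 10) (.e (nat_lit 434293) (nat_lit 49) .nil)))) .nil)) 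
(.lf (nat_lit 11814) (.g (nat_lit 1344) (.e (nat_lit 618) (nat_lit 48) (.e (nat_lit 557100) (nat_lit 13) (.e (nat_lit 172113) (nat_lit 10) (.e (nat_lit 434203) (nat_lit 18) .nil)))) .nil))) (.nd (nat_lit 5) 
(.lf (nat_lit 11798) (.g (nat_lit 2670) (.e (nat_lit 618) (nat_lit 48) (.e (nat_lit 557100) (nat_lit 13) (.e (nat_lit 172106) (nat_lit 10) (.e (nat_lit 434209) (nat_lit 18) (.e (nat_lit 6029) (nat_lit 326) .nil))))) .nil)) 
(.lf (nat_lit 11830) (.g (nat_lit 1953) (.e (nat_lit 618) (nat_lit 48) (.e (nat_lit 557101) (nat_lit 13) (.e (nat_lit 172115) (nat_lit 10) (.e (nat_lit 434202) (nat_lit 18) (.e (nat_lit 6828) (nat_lit 367) (.e (nat_lit 57412) (nat_lit 12) (.e (nat_lit 336061) (nat_lit 7) (.e (nat_lit 319500) (nat_lit 10) .nil)))))))) (.g (nat_lit 4) .nil .nil))))) (.nd (nat_lit 4) (.nd (nat_lit 5) 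
(.lf (nat_lit 11790) (.g (nat_lit 556) (.e (nat_lit 618) (nat_lit 48) (.e (nat_lit 557098) (nat_lit 13) (.e (nat_lit 179968) (nat_lit 18) .nil))) .nil)) 
(.lf (nat_lit 11822) (.g (nat_lit 2413) (.e (nat_lit 618) (nat_lit 48) (.e (nat_lit 557101) (nat_lit 13) (.e (nat_lit 172097) (nat_lit 9) (.e (nat_lit 426140) (nat_lit 3) (.e (nat_lit 204862) (nat_lit 27) (.e (nat_lit 344160) (nat_lit 37) (.e (nat_lit 647203) (nat_lit 14) (.e (nat_lit 1014) (nat_lit 81) .nil)))))))) (.g (nat_lit 4) .nil .nil)))) (.nd (nat_lit 5) 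
(.lf (nat_lit 11806) (.g (nat_lit 1988) (.e (nat_lit 618) (nat_lit 48) (.e (nat_lit 557100) (nat_lit 13) (.e (nat_lit 172106) (nat_lit 10) (.e (nat_lit 434294) (nat_lit 49) (.e (nat_lit 745491) (nat_lit 4) .nil))))) .nil)) 
(.lf (nat_lit 11838) (.g (nat_lit 1547) (.e (nat_lit 618) (nat_lit 48) (.e (nat_lit 557101) (nat_lit 13) (.e (nat_lit 172115) (nat_lit 10) (.e (nat_lit 434294) (nat_lit 49) (.e (nat_lit 745491) (nat_lit 4) .nil))))) .nil))))))) (.nd (nat_lit 1) (.nd (nat_lit 2) (.nd (nat_lit 3) (.nd (nat_lit 4) (.nd (nat_lit 5) 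
(.lf (nat_lit 11777) (.g (nat_lit 3203) (.e (nat_lit 618) (nat_lit 48) (.e (nat_lit 557098) (nat_lit 13) (.e (nat_lit 172115) (nat_lit 10) (.e (nat_lit 434231) (nat_lit 23) (.e (nat_lit 532543) (nat_lit 10) (.e (nat_lit 344160) (nat_lit 37) (.e (nat_lit 647203) (nat_lit 14) (.e (nat_lit 993) (nat_lit 81) .nil)))))))) (.g (nat_lit 5) .nil .nil))) 
(.lf (nat_lit 11809) (.g (nat_lit 2557) (.e (nat_lit 618) (nat_lit 48) (.e (nat_lit 557100) (nat_lit 13) (.e (nat_lit 172106) (nat_lit 10) (.e (nat_lit 434295) (nat_lit 49) (.e (nat_lit 745476) (nat_lit 0) (.e (nat_lit 1449) (nat_lit 108) (.e (nat_lit 336060) (nat_lit 7) (.e (nat_lit 319505) (nat_lit 10) .nil)))))))) (.g (nat_lit 5) .nil .nil)))) (.nd (nat_lit 5) 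
(.lf (nat_lit 11793) (.g (nat_lit 2114) (.e (nat_lit 618) (nat_lit 48) (.e (nat_lit 557100) (nat_lit 13) (.e (nat_lit 172106) (nat_lit 10) (.e (nat_lit 434202) (nat_lit 18) (.e (nat_lit 6740) (nat_lit 365) (.e (nat_lit 1201) (nat_lit 88) (.e (nat_lit 65586) (nat_lit 7) (.e (nat_lit 319505) (nat_lit 10) .nil)))))))) (.g (nat_lit 4) .nil .nil))) 
(.lf (nat_lit 11825) (.g (nat_lit 1927) (.e (nat_lit 618) (nat_lit 48) (.e (nat_lit 557101) (nat_lit 13) (.e (nat_lit 172115) (nat_lit 10) (.e (nat_lit 434202) (nat_lit 18) (.e (nat_lit 5979) (nat_lit 326) .nil))))) .nil)))) (.nd (nat_lit 4) (.nd (nat_lit 5) 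
(.lf (nat_lit 11785) (.g (nat_lit 2103) (.e (nat_lit 618) (nat_lit 48) (.e (nat_lit 557098) (nat_lit 13) (.e (nat_lit 172115) (nat_lit 10) (.e (nat_lit 434295) (nat_lit 49) (.e (nat_lit 745491) (nat_lit 4) (.e (nat_lit 65583) (nat_lit 7) (.e (nat_lit 319505) (nat_lit 10) .nil))))))) (.g (nat_lit 4) .nil .nil))) 
(.lf (nat_lit 11817) (.g (nat_lit 1698) (.e (nat_lit 618) (nat_lit 48) (.e (nat_lit 557100) (nat_lit 13) (.e (nat_lit 172113) (nat_lit 10) (.e (nat_lit 434293) (nat_lit 49) .nil)))) .nil))) (.nd (nat_lit 5) 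
(.lf (nat_lit 11801) (.g (nat_lit 3099) (.e (nat_lit 618) (nat_lit 48) (.e (nat_lit 557100) (nat_lit 13) (.e (nat_lit 172106) (nat_lit 10) (.e (nat_lit 434231) (nat_lit 23) (.e (nat_lit 532543) (nat_lit 10) (.e (nat_lit 344160) (nat_lit 37) (.e (nat_lit 647203) (nat_lit 14) (.e (nat_lit 1015) (nat_lit 81) .nil)))))))) (.g (nat_lit 7) .nil .nil))) 
(.lf (nat_lit 11833) (.g (nat_lit 2876) (.e (nat_lit 618) (nat_lit 48) (.e (nat_lit 557101) (nat_lit 13) (.e (nat_lit 172115) (nat_lit 10) (.e (nat_lit 434202) (nat_lit 18) (.e (nat_lit 6830) (nat_lit 367) (.e (nat_lit 57412) (nat_lit 12) (.e (nat_lit 336061) (nat_lit 7) (.e (nat_lit 319500) (nat_lit 10) .nil)))))))) (.g (nat_lit 5) .nil .nil)))))) 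
(.nd (nat_lit 3) (.nd (nat_lit 4) (.nd (nat_lit 5) 
(.lf (nat_lit 11781) (.g (nat_lit 2755) (.e (nat_lit 618) (nat_lit 48) (.e (nat_lit 557098) (nat_lit 13) (.e (nat_lit 172115) (nat_lit 10) (.e (nat_lit 434231) (nat_lit 23) (.e (nat_lit 532544) (nat_lit 10) (.e (nat_lit 344160) (nat_lit 37) (.e (nat_lit 647203) (nat_lit 14) (.e (nat_lit 1015) (nat_lit 81) .nil)))))))) (.g (nat_lit 4) .nil .nil))) 
(.lf (nat_lit 11813) (.g (nat_lit 2027) (.e (nat_lit 618) (nat_lit 48) (.e (nat_lit 557100) (nat_lit 13) (.e (nat_lit 172106) (nat_lit 10) (.e (nat_lit 434295) (nat_lit 49) (.e (nat_lit 745491) (nat_lit 4) (.e (nat_lit 65583) (nat_lit 7) (.e (nat_lit 319505) (nat_lit 10) .nil))))))) (.g (nat_lit 4) .nil .nil)))) (.nd (nat_lit 5) 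
(.lf (nat_lit 11797) (.g (nat_lit 1348) (.e (nat_lit 618) (nat_lit 48) (.e (nat_lit 557100) (nat_lit 13) (.e (nat_lit 172106) (nat_lit 10) (.e (nat_lit 434209) (nat_lit 18) .nil)))) .nil)) 
(.lf (nat_lit 11829) (.g (nat_lit 2231) (.e (nat_lit 618) (nat_lit 48) (.e (nat_lit 557101) (nat_lit 13) (.e (nat_lit 172115) (nat_lit 10) (.e (nat_lit 434202) (nat_lit 18) (.e (nat_lit 6828) (nat_lit 367) (.e (nat_lit 57412) (nat_lit 12) (.e (nat_lit 336060) (nat_lit 7) (.e (nat_lit 319505) (nat_lit 10) .nil)))))))) (.g (nat_lit 4) .nil .nil))))) (.nd (nat_lit 4) (.nd (nat_lit 5) 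
(.lf (nat_lit 11789) (.g (nat_lit 670) (.e (nat_lit 618) (nat_lit 48) (.e (nat_lit 557098) (nat_lit 13) (.e (nat_lit 172123) (nat_lit 13) .nil))) .nil)) 
(.lf (nat_lit 11821) (.g (nat_lit 2149) (.e (nat_lit 618) (nat_lit 48) (.e (nat_lit 557101) (nat_lit 13) (.e (nat_lit 172097) (nat_lit 9) (.e (nat_lit 426140) (nat_lit 3) (.e (nat_lit 204862) (nat_lit 27) (.e (nat_lit 344160) (nat_lit 37) (.e (nat_lit 647203) (nat_lit 14) (.e (nat_lit 993) (nat_lit 81) .nil)))))))) (.g (nat_lit 4) .nil .nil)))) (.nd (nat_lit 5) 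
(.lf (nat_lit 11805) (.g (nat_lit 1819) (.e (nat_lit 618) (nat_lit 48) (.e (nat_lit 557100) (nat_lit 13) (.e (nat_lit 172106) (nat_lit 10) (.e (nat_lit 434293) (nat_lit 49) .nil)))) .nil)) 
(.lf (nat_lit 11837) (.g (nat_lit 1341) (.e (nat_lit 618) (nat_lit 48) (.e (nat_lit 557101) (nat_lit 13) (.e (nat_lit 172115) (nat_lit 10) (.e (nat_lit 434293) (nat_lit 49) .nil)))) .nil)))))) (.nd (nat_lit 2) (.nd (nat_lit 3) (.nd (nat_lit 4) (.nd (nat_lit 5) 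
(.lf (nat_lit 11779) (.g (nat_lit 3111) (.e (nat_lit 618) (nat_lit 48) (.e (nat_lit 557098) (nat_lit 13) (.e (nat_lit 172115) (nat_lit 10) (.e (nat_lit 434231) (nat_lit 23) (.e (nat_lit 532543) (nat_lit 10) (.e (nat_lit 344160) (nat_lit 37) (.e (nat_lit 647203) (nat_lit 14) (.e (nat_lit 1015) (nat_lit 81) .nil)))))))) (.g (nat_lit 5) .nil .nil))) 
(.lf (nat_lit 11811) (.g (nat_lit 1983) (.e (nat_lit 618) (nat_lit 48) (.e (nat_lit 557100) (nat_lit 13) (.e (nat_lit 172106) (nat_lit 10) (.e (nat_lit 434295) (nat_lit 49) (.e (nat_lit 745489) (nat_lit 4) .nil))))) .nil))) (.nd (nat_lit 5) 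
(.lf (nat_lit 11795) (.g (nat_lit 2649) (.e (nat_lit 618) (nat_lit 48) (.e (nat_lit 557100) (nat_lit 13) (.e (nat_lit 172106) (nat_lit 10) (.e (nat_lit 434202) (nat_lit 18) (.e (nat_lit 6830) (nat_lit 367) (.e (nat_lit 57412) (nat_lit 12) (.e (nat_lit 336061) (nat_lit 7) (.e (nat_lit 319500) (nat_lit 10) .nil)))))))) (.g (nat_lit 5) .nil .nil))) 
(.lf (nat_lit 11827) (.g (nat_lit 2078) (.e (nat_lit 618) (nat_lit 48) (.e (nat_lit 557101) (nat_lit 13) (.e (nat_lit 172115) (nat_lit 10) (.e (nat_lit 434202) (nat_lit 18) (.e (nat_lit 6740) (nat_lit 365) (.e (nat_lit 1201) (nat_lit 88) (.e (nat_lit 65586) (nat_lit 7) (.e (nat_lit 319500) (nat_lit 10) .nil)))))))) (.g (nat_lit 4) .nil .nil))))) (.nd (nat_lit 4) (.nd (nat_lit 5) 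
(.lf (nat_lit 11787) (.g (nat_lit 1960) (.e (nat_lit 618) (nat_lit 48) (.e (nat_lit 557098) (nat_lit 13) (.e (nat_lit 172120) (nat_lit 12) (.e (nat_lit 483072) (nat_lit 0) .nil)))) .nil)) 
(.lf (nat_lit 11819) (.g (nat_lit 1232) (.e (nat_lit 618) (nat_lit 48) (.e (nat_lit 557100) (nat_lit 13) (.e (nat_lit 172113) (nat_lit 10) (.e (nat_lit 434295) (nat_lit 49) .nil)))) .nil))) (.nd (nat_lit 5) 
(.lf (nat_lit 11803) (.g (nat_lit 2550) (.e (nat_lit 618) (nat_lit 48) (.e (nat_lit 557100) (nat_lit 13) (.e (nat_lit 172106) (nat_lit 10) (.e (nat_lit 434231) (nat_lit 23) (.e (nat_lit 532544) (nat_lit 10) (.e (nat_lit 344160) (nat_lit 37) (.e (nat_lit 647203) (nat_lit 14) (.e (nat_lit 1015) (nat_lit 81) .nil)))))))) (.g (nat_lit 5) .nil .nil))) 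
(.lf (nat_lit 11835) (.g (nat_lit 2702) (.e (nat_lit 618) (nat_lit 48) (.e (nat_lit 557101) (nat_lit 13) (.e (nat_lit 172115) (nat_lit 10) (.e (nat_lit 434209) (nat_lit 18) (.e (nat_lit 6792) (nat_lit 365) (.e (nat_lit 1199) (nat_lit 88) (.e (nat_lit 65586) (nat_lit 7) (.e (nat_lit 319505) (nat_lit 10) .nil)))))))) (.g (nat_lit 5) .nil .nil)))))) (.nd (nat_lit 3) (.nd (nat_lit 4) (.nd (nat_lit 5) 
(.lf (nat_lit 11783) (.g (nat_lit 1431) (.e (nat_lit 618) (nat_lit 48) (.e (nat_lit 557098) (nat_lit 13) (.e (nat_lit 172115) (nat_lit 10) (.e (nat_lit 434295) (nat_lit 49) .nil)))) .nil)) 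
(.lf (nat_lit 11815) (.g (nat_lit 2143) (.e (nat_lit 618) (nat_lit 48) (.e (nat_lit 557100) (nat_lit 13) (.e (nat_lit 172113) (nat_lit 10) (.e (nat_lit 434203) (nat_lit 18) (.e (nat_lit 6830) (nat_lit 367) (.e (nat_lit 57412) (nat_lit 12) (.e (nat_lit 336061) (nat_lit 7) (.e (nat_lit 319505) (nat_lit 10) .nil)))))))) (.g (nat_lit 4) .nil .nil)))) (.nd (nat_lit 5) 
(.lf (nat_lit 11799) (.g (nat_lit 2723) (.e (nat_lit 618) (nat_lit 48) (.e (nat_lit 557100) (nat_lit 13) (.e (nat_lit 172106) (nat_lit 10) (.e (nat_lit 434231) (nat_lit 23) (.e (nat_lit 532535) (nat_lit 9) (.e (nat_lit 336295) (nat_lit 15) (.e (nat_lit 3806) (nat_lit 231) (.e (nat_lit 818944) (nat_lit 0) .nil)))))))) (.g (nat_lit 6) .nil .nil))) 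
(.lf (nat_lit 11831) (.g (nat_lit 2325) (.e (nat_lit 618) (nat_lit 48) (.e (nat_lit 557101) (nat_lit 13) (.e (nat_lit 172115) (nat_lit 10) (.e (nat_lit 434202) (nat_lit 18) (.e (nat_lit 6828) (nat_lit 367) (.e (nat_lit 57413) (nat_lit 12) (.e (nat_lit 336060) (nat_lit 7) (.e (nat_lit 319505) (nat_lit 10) .nil)))))))) (.g (nat_lit 5) .nil .nil))))) (.nd (nat_lit 4) (.nd (nat_lit 5) 
(.lf (nat_lit 11791) (.g (nat_lit 727) (.e (nat_lit 618) (nat_lit 48) (.e (nat_lit 557100) (nat_lit 13) (.e (nat_lit 172082) (nat_lit 7) .nil))) .nil)) 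
(.lf (nat_lit 11823) (.g (nat_lit 2052) (.e (nat_lit 618) (nat_lit 48) (.e (nat_lit 557101) (nat_lit 13) (.e (nat_lit 172097) (nat_lit 9) (.e (nat_lit 426140) (nat_lit 3) (.e (nat_lit 204862) (nat_lit 27) (.e (nat_lit 344160) (nat_lit 37) (.e (nat_lit 647203) (nat_lit 14) (.e (nat_lit 1015) (nat_lit 81) .nil)))))))) (.g (nat_lit 4) .nil .nil)))) (.nd (nat_lit 5) 
(.lf (nat_lit 11807) (.g (nat_lit 1507) (.e (nat_lit 618) (nat_lit 48) (.e (nat_lit 557100) (nat_lit 13) (.e (nat_lit 172106) (nat_lit 10) (.e (nat_lit 434295) (nat_lit 49) .nil)))) .nil)) 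
(.lf (nat_lit 11839) (.g (nat_lit 1242) (.e (nat_lit 618) (nat_lit 48) (.e (nat_lit 557101) (nat_lit 13) (.e (nat_lit 172115) (nat_lit 10) (.e (nat_lit 434295) (nat_lit 49) .nil)))) .nil))))))))

noncomputable def tv161 : DT := (.nd (nat_lit 0) (.nd (nat_lit 1) (.nd (nat_lit 2) (.nd (nat_lit 3) (.nd (nat_lit 4) (.nd (nat_lit 5) 
(.lf (nat_lit 11840) (.g (nat_lit 2061) (.e (nat_lit 618) (nat_lit 48) (.e (nat_lit 557103) (nat_lit 14) (.e (nat_lit 180250) (nat_lit 10) (.e (nat_lit 573480) (nat_lit 13) (.e (nat_lit 65571) (nat_lit 3) (.e (nat_lit 106240) (nat_lit 7) (.e (nat_lit 319505) (nat_lit 10) .nil))))))) (.g (nat_lit 4) .nil .nil))) 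
(.lf (nat_lit 11872) (.g (nat_lit 2983) (.e (nat_lit 618) (nat_lit 48) (.e (nat_lit 557105) (nat_lit 14) (.e (nat_lit 180251) (nat_lit 10) (.e (nat_lit 573487) (nat_lit 14) (.e (nat_lit 73746) (nat_lit 3) (.e (nat_lit 524032) (nat_lit 24) (.e (nat_lit 319504) (nat_lit 10) .nil))))))) (.g (nat_lit 4) .nil .nil)))) (.nd (nat_lit 5) 
(.lf (nat_lit 11856) (.g (nat_lit 2450) (.e (nat_lit 618) (nat_lit 48) (.e (nat_lit 557105) (nat_lit 14) (.e (nat_lit 180251) (nat_lit 10) (.e (nat_lit 573484) (nat_lit 13) (.e (nat_lit 65571) (nat_lit 3) (.e (nat_lit 106240) (nat_lit 7) (.e (nat_lit 319500) (nat_lit 10) .nil))))))) (.g (nat_lit 4) .nil .nil))) 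
(.lf (nat_lit 11888) (.g (nat_lit 3237) (.e (nat_lit 618) (nat_lit 48) (.e (nat_lit 557105) (nat_lit 14) (.e (nat_lit 180252) (nat_lit 10) (.e (nat_lit 573481) (nat_lit 13) (.e (nat_lit 65570) (nat_lit 3) (.e (nat_lit 98309) (nat_lit 0) (.e (nat_lit 6112) (nat_lit 332) (.e (nat_lit 7936) (nat_lit 81) .nil)))))))) (.g (nat_lit 5) .nil .nil))))) (.nd (nat_lit 4) (.nd (nat_lit 5) 
(.lf (nat_lit 11848) (.g (nat_lit 2654) (.e (nat_lit 618) (nat_lit 48) (.e (nat_lit 557103) (nat_lit 14) (.e (nat_lit 180250) (nat_lit 10) (.e (nat_lit 573487) (nat_lit 14) (.e (nat_lit 73747) (nat_lit 3) (.e (nat_lit 524032) (nat_lit 24) (.e (nat_lit 319505) (nat_lit 10) .nil))))))) (.g (nat_lit 5) .nil .nil))) 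
(.lf (nat_lit 11880) (.g (nat_lit 3395) (.e (nat_lit 618) (nat_lit 48) (.e (nat_lit 557105) (nat_lit 14) (.e (nat_lit 180252) (nat_lit 10) (.e (nat_lit 573480) (nat_lit 13) (.e (nat_lit 65571) (nat_lit 3) (.e (nat_lit 106240) (nat_lit 7) (.e (nat_lit 319505) (nat_lit 10) .nil))))))) (.g (nat_lit 5) .nil .nil)))) (.nd (nat_lit 5) 
(.lf (nat_lit 11864) (.g (nat_lit 1602) (.e (nat_lit 618) (nat_lit 48) (.e (nat_lit 557105) (nat_lit 14) (.e (nat_lit 180251) (nat_lit 10) (.e (nat_lit 573485) (nat_lit 13) (.e (nat_lit 65570) (nat_lit 3) .nil))))) .nil)) 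
(.lf (nat_lit 11896) (.g (nat_lit 1691) (.e (nat_lit 618) (nat_lit 48) (.e (nat_lit 557105) (nat_lit 14) (.e (nat_lit 180252) (nat_lit 10) (.e (nat_lit 573482) (nat_lit 13) .nil)))) .nil))))) (.nd (nat_lit 3) (.nd (nat_lit 4) (.nd (nat_lit 5) 
(.lf (nat_lit 11844) (.g (nat_lit 2081) (.e (nat_lit 618) (nat_lit 48) (.e (nat_lit 557103) (nat_lit 14) (.e (nat_lit 180250) (nat_lit 10) (.e (nat_lit 573485) (nat_lit 13) (.e (nat_lit 65569) (nat_lit 3) (.e (nat_lit 106240) (nat_lit 7) (.e (nat_lit 319505) (nat_lit 10) .nil))))))) (.g (nat_lit 4) .nil .nil))) 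
(.lf (nat_lit 11876) (.g (nat_lit 2722) (.e (nat_lit 618) (nat_lit 48) (.e (nat_lit 557105) (nat_lit 14) (.e (nat_lit 180252) (nat_lit 10) (.e (nat_lit 573480) (nat_lit 13) (.e (nat_lit 65571) (nat_lit 3) (.e (nat_lit 98309) (nat_lit 0) (.e (nat_lit 6112) (nat_lit 332) (.e (nat_lit 7936) (nat_lit 81) .nil)))))))) (.g (nat_lit 4) .nil .nil)))) (.nd (nat_lit 5) 
(.lf (nat_lit 11860) (.g (nat_lit 2590) (.e (nat_lit 618) (nat_lit 48) (.e (nat_lit 557105) (nat_lit 14) (.e (nat_lit 180251) (nat_lit 10) (.e (nat_lit 573484) (nat_lit 13) (.e (nat_lit 65571) (nat_lit 3) (.e (nat_lit 106240) (nat_lit 8) (.e (nat_lit 327703) (nat_lit 10) .nil))))))) (.g (nat_lit 4) .nil .nil))) 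
(.lf (nat_lit 11892) (.g (nat_lit 2718) (.e (nat_lit 618) (nat_lit 48) (.e (nat_lit 557105) (nat_lit 14) (.e (nat_lit 180252) (nat_lit 10) (.e (nat_lit 573481) (nat_lit 13) (.e (nat_lit 65571) (nat_lit 3) (.e (nat_lit 98309) (nat_lit 0) (.e (nat_lit 6134) (nat_lit 332) (.e (nat_lit 992) (nat_lit 81) .nil)))))))) (.g (nat_lit 4) .nil .nil))))) (.nd (nat_lit 4) (.nd (nat_lit 5) 
(.lf (nat_lit 11852) (.g (nat_lit 2542) (.e (nat_lit 618) (nat_lit 48) (.e (nat_lit 557105) (nat_lit 14) (.e (nat_lit 180251) (nat_lit 10) (.e (nat_lit 573484) (nat_lit 13) (.e (nat_lit 65569) (nat_lit 3) .nil))))) .nil)) 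
(.lf (nat_lit 11884) (.g (nat_lit 3362) (.e (nat_lit 618) (nat_lit 48) (.e (nat_lit 557105) (nat_lit 14) (.e (nat_lit 180252) (nat_lit 10) (.e (nat_lit 573481) (nat_lit 13) (.e (nat_lit 65569) (nat_lit 3) (.e (nat_lit 106240) (nat_lit 7) (.e (nat_lit 319504) (nat_lit 10) .nil))))))) (.g (nat_lit 5) .nil .nil)))) (.nd (nat_lit 5) 
(.lf (nat_lit 11868) (.g (nat_lit 1945) (.e (nat_lit 618) (nat_lit 48) (.e (nat_lit 557105) (nat_lit 14) (.e (nat_lit 180251) (nat_lit 10) (.e (nat_lit 573485) (nat_lit 13) (.e (nat_lit 65571) (nat_lit 3) (.e (nat_lit 106240) (nat_lit 7) (.e (nat_lit 319500) (nat_lit 10) .nil))))))) (.g (nat_lit 4) .nil .nil))) 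
(.lf (nat_lit 11900) (.g (nat_lit 2773) (.e (nat_lit 618) (nat_lit 48) (.e (nat_lit 557105) (nat_lit 14) (.e (nat_lit 180252) (nat_lit 10) (.e (nat_lit 573482) (nat_lit 13) (.e (nat_lit 65568) (nat_lit 2) .nil))))) .nil)))))) (.nd (nat_lit 2) (.nd (nat_lit 3) (.nd (nat_lit 4) (.nd (nat_lit 5) 
(.lf (nat_lit 11842) (.g (nat_lit 2661) (.e (nat_lit 618) (nat_lit 48) (.e (nat_lit 557103) (nat_lit 14) (.e (nat_lit 180250) (nat_lit 10) (.e (nat_lit 573482) (nat_lit 13) (.e (nat_lit 65571) (nat_lit 3) (.e (nat_lit 106240) (nat_lit 7) (.e (nat_lit 319505) (nat_lit 10) .nil))))))) (.g (nat_lit 4) .nil .nil))) 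
(.lf (nat_lit 11874) (.g (nat_lit 2429) (.e (nat_lit 618) (nat_lit 48) (.e (nat_lit 557105) (nat_lit 14) (.e (nat_lit 180252) (nat_lit 10) (.e (nat_lit 573451) (nat_lit 9) (.e (nat_lit 1449) (nat_lit 108) .nil))))) .nil))) (.nd (nat_lit 5) 
(.lf (nat_lit 11858) (.g (nat_lit 2882) (.e (nat_lit 618) (nat_lit 48) (.e (nat_lit 557105) (nat_lit 14) (.e (nat_lit 180251) (nat_lit 10) (.e (nat_lit 573484) (nat_lit 13) (.e (nat_lit 65571) (nat_lit 3) (.e (nat_lit 106240) (nat_lit 7) (.e (nat_lit 319504) (nat_lit 10) .nil))))))) (.g (nat_lit 4) .nil .nil))) 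
(.lf (nat_lit 11890) (.g (nat_lit 3733) (.e (nat_lit 618) (nat_lit 48) (.e (nat_lit 557105) (nat_lit 14) (.e (nat_lit 180252) (nat_lit 10) (.e (nat_lit 573481) (nat_lit 13) (.e (nat_lit 65571) (nat_lit 3) (.e (nat_lit 98309) (nat_lit 0) (.e (nat_lit 6112) (nat_lit 332) (.e (nat_lit 7936) (nat_lit 81) .nil)))))))) (.g (nat_lit 5) .nil .nil))))) (.nd (nat_lit 4) (.nd (nat_lit 5) 
(.lf (nat_lit 11850) (.g (nat_lit 1164) (.e (nat_lit 618) (nat_lit 48) (.e (nat_lit 557105) (nat_lit 14) (.e (nat_lit 180251) (nat_lit 10) (.e (nat_lit 573479) (nat_lit 13) .nil)))) .nil)) 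
(.lf (nat_lit 11882) (.g (nat_lit 1173) (.e (nat_lit 618) (nat_lit 48) (.e (nat_lit 557105) (nat_lit 14) (.e (nat_lit 180252) (nat_lit 10) (.e (nat_lit 573481) (nat_lit 13) .nil)))) .nil))) (.nd (nat_lit 5) 
(.lf (nat_lit 11866) (.g (nat_lit 2607) (.e (nat_lit 618) (nat_lit 48) (.e (nat_lit 557105) (nat_lit 14) (.e (nat_lit 180251) (nat_lit 10) (.e (nat_lit 573485) (nat_lit 13) (.e (nat_lit 65570) (nat_lit 3) (.e (nat_lit 98309) (nat_lit 0) (.e (nat_lit 6112) (nat_lit 332) (.e (nat_lit 7936) (nat_lit 81) .nil)))))))) (.g (nat_lit 5) .nil .nil))) 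
(.lf (nat_lit 11898) (.g (nat_lit 3146) (.e (nat_lit 618) (nat_lit 48) (.e (nat_lit 557105) (nat_lit 14) (.e (nat_lit 180252) (nat_lit 10) (.e (nat_lit 573482) (nat_lit 13) (.e (nat_lit 65549) (nat_lit 0) .nil))))) .nil))))) (.nd (nat_lit 3) (.nd (nat_lit 4) (.nd (nat_lit 5) 
(.lf (nat_lit 11846) (.g (nat_lit 2128) (.e (nat_lit 618) (nat_lit 48) (.e (nat_lit 557103) (nat_lit 14) (.e (nat_lit 180250) (nat_lit 10) (.e (nat_lit 573485) (nat_lit 13) (.e (nat_lit 65571) (nat_lit 3) (.e (nat_lit 106240) (nat_lit 7) (.e (nat_lit 319505) (nat_lit 10) .nil))))))) (.g (nat_lit 4) .nil .nil))) 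
(.lf (nat_lit 11878) (.g (nat_lit 2849) (.e (nat_lit 618) (nat_lit 48) (.e (nat_lit 557105) (nat_lit 14) (.e (nat_lit 180252) (nat_lit 10) (.e (nat_lit 573480) (nat_lit 13) (.e (nat_lit 65571) (nat_lit 3) (.e (nat_lit 106240) (nat_lit 7) (.e (nat_lit 319503) (nat_lit 10) .nil))))))) (.g (nat_lit 4) .nil .nil)))) (.nd (nat_lit 5) 
(.lf (nat_lit 11862) (.g (nat_lit 1610) (.e (nat_lit 618) (nat_lit 48) (.e (nat_lit 557105) (nat_lit 14) (.e (nat_lit 180251) (nat_lit 10) (.e (nat_lit 573485) (nat_lit 13) (.e (nat_lit 65569) (nat_lit 3) .nil))))) .nil)) 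
(.lf (nat_lit 11894) (.g (nat_lit 2680) (.e (nat_lit 618) (nat_lit 48) (.e (nat_lit 557105) (nat_lit 14) (.e (nat_lit 180252) (nat_lit 10) (.e (nat_lit 573481) (nat_lit 13) (.e (nat_lit 65571) (nat_lit 3) (.e (nat_lit 106240) (nat_lit 7) (.e (nat_lit 319496) (nat_lit 10) .nil))))))) (.g (nat_lit 4) .nil .nil))))) (.nd (nat_lit 4) (.nd (nat_lit 5) 
(.lf (nat_lit 11854) (.g (nat_lit 3246) (.e (nat_lit 618) (nat_lit 48) (.e (nat_lit 557105) (nat_lit 14) (.e (nat_lit 180251) (nat_lit 10) (.e (nat_lit 573484) (nat_lit 13) (.e (nat_lit 65569) (nat_lit 3) (.e (nat_lit 106240) (nat_lit 7) (.e (nat_lit 319505) (nat_lit 10) .nil))))))) (.g (nat_lit 4) .nil .nil))) 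
(.lf (nat_lit 11886) (.g (nat_lit 1933) (.e (nat_lit 618) (nat_lit 48) (.e (nat_lit 557105) (nat_lit 14) (.e (nat_lit 180252) (nat_lit 10) (.e (nat_lit 573481) (nat_lit 13) (.e (nat_lit 65570) (nat_lit 3) .nil))))) .nil))) (.nd (nat_lit 5) 
(.lf (nat_lit 11870) (.g (nat_lit 2377) (.e (nat_lit 618) (nat_lit 48) (.e (nat_lit 557105) (nat_lit 14) (.e (nat_lit 180251) (nat_lit 10) (.e (nat_lit 573485) (nat_lit 13) (.e (nat_lit 65571) (nat_lit 3) (.e (nat_lit 106240) (nat_lit 7) (.e (nat_lit 319504) (nat_lit 10) .nil))))))) (.g (nat_lit 4) .nil .nil))) 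
(.lf (nat_lit 11902) (.g (nat_lit 3983) (.e (nat_lit 618) (nat_lit 48) (.e (nat_lit 557105) (nat_lit 14) (.e (nat_lit 180252) (nat_lit 10) (.e (nat_lit 573482) (nat_lit 13) (.e (nat_lit 65569) (nat_lit 3) (.e (nat_lit 106240) (nat_lit 7) (.e (nat_lit 319504) (nat_lit 10) .nil))))))) (.g (nat_lit 5) .nil .nil)))))))) 
(.nd (nat_lit 1) (.nd (nat_lit 2) (.nd (nat_lit 3) (.nd (nat_lit 4) (.nd (nat_lit 5) 
(.lf (nat_lit 11841) (.g (nat_lit 2737) (.e (nat_lit 618) (nat_lit 48) (.e (nat_lit 557103) (nat_lit 14) (.e (nat_lit 180250) (nat_lit 10) (.e (nat_lit 573482) (nat_lit 13) (.e (nat_lit 65570) (nat_lit 3) (.e (nat_lit 106240) (nat_lit 7) (.e (nat_lit 319505) (nat_lit 10) .nil))))))) (.g (nat_lit 4) .nil .nil))) 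
(.lf (nat_lit 11873) (.g (nat_lit 3078) (.e (nat_lit 618) (nat_lit 48) (.e (nat_lit 557105) (nat_lit 14) (.e (nat_lit 180251) (nat_lit 10) (.e (nat_lit 573487) (nat_lit 14) (.e (nat_lit 73746) (nat_lit 3) (.e (nat_lit 524032) (nat_lit 24) (.e (nat_lit 319505) (nat_lit 10) .nil))))))) (.g (nat_lit 4) .nil .nil)))) (.nd (nat_lit 5) 
(.lf (nat_lit 11857) (.g (nat_lit 2536) (.e (nat_lit 618) (nat_lit 48) (.e (nat_lit 557105) (nat_lit 14) (.e (nat_lit 180251) (nat_lit 10) (.e (nat_lit 573484) (nat_lit 13) (.e (nat_lit 65571) (nat_lit 3) (.e (nat_lit 106240) (nat_lit 7) (.e (nat_lit 319503) (nat_lit 10) .nil))))))) (.g (nat_lit 4) .nil .nil))) 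
(.lf (nat_lit 11889) (.g (nat_lit 3231) (.e (nat_lit 618) (nat_lit 48) (.e (nat_lit 557105) (nat_lit 14) (.e (nat_lit 180252) (nat_lit 10) (.e (nat_lit 573481) (nat_lit 13) (.e (nat_lit 65571) (nat_lit 3) (.e (nat_lit 98309) (nat_lit 0) (.e (nat_lit 6112) (nat_lit 332) (.e (nat_lit 968) (nat_lit 81) .nil)))))))) (.g (nat_lit 5) .nil .nil))))) (.nd (nat_lit 4) (.nd (nat_lit 5) 
(.lf (nat_lit 11849) (.g (nat_lit 427) (.e (nat_lit 618) (nat_lit 48) (.e (nat_lit 557103) (nat_lit 14) (.e (nat_lit 188160) (nat_lit 34) .nil))) .nil)) 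
(.lf (nat_lit 11881) (.g (nat_lit 2897) (.e (nat_lit 618) (nat_lit 48) (.e (nat_lit 557105) (nat_lit 14) (.e (nat_lit 180252) (nat_lit 10) (.e (nat_lit 573480) (nat_lit 13) (.e (nat_lit 65571) (nat_lit 3) (.e (nat_lit 106240) (nat_lit 8) (.e (nat_lit 327703) (nat_lit 10) .nil))))))) (.g (nat_lit 4) .nil .nil)))) (.nd (nat_lit 5) 
(.lf (nat_lit 11865) (.g (nat_lit 2088) (.e (nat_lit 618) (nat_lit 48) (.e (nat_lit 557105) (nat_lit 14) (.e (nat_lit 180251) (nat_lit 10) (.e (nat_lit 573485) (nat_lit 13) (.e (nat_lit 65570) (nat_lit 3) (.e (nat_lit 98309) (nat_lit 0) (.e (nat_lit 6112) (nat_lit 332) (.e (nat_lit 968) (nat_lit 81) .nil)))))))) (.g (nat_lit 4) .nil .nil))) 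
(.lf (nat_lit 11897) (.g (nat_lit 2728) (.e (nat_lit 618) (nat_lit 48) (.e (nat_lit 557105) (nat_lit 14) (.e (nat_lit 180252) (nat_lit 10) (.e (nat_lit 573482) (nat_lit 13) (.e (nat_lit 65536) (nat_lit 0) .nil))))) .nil))))) (.nd (nat_lit 3) (.nd (nat_lit 4) (.nd (nat_lit 5) 
(.lf (nat_lit 11845) (.g (nat_lit 2718) (.e (nat_lit 618) (nat_lit 48) (.e (nat_lit 557103) (nat_lit 14) (.e (nat_lit 180250) (nat_lit 10) (.e (nat_lit 573485) (nat_lit 13) (.e (nat_lit 65570) (nat_lit 3) (.e (nat_lit 106240) (nat_lit 7) (.e (nat_lit 319505) (nat_lit 10) .nil))))))) (.g (nat_lit 4) .nil .nil))) 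
(.lf (nat_lit 11877) (.g (nat_lit 2703) (.e (nat_lit 618) (nat_lit 48) (.e (nat_lit 557105) (nat_lit 14) (.e (nat_lit 180252) (nat_lit 10) (.e (nat_lit 573480) (nat_lit 13) (.e (nat_lit 65571) (nat_lit 3) (.e (nat_lit 106240) (nat_lit 7) (.e (nat_lit 319500) (nat_lit 10) .nil))))))) (.g (nat_lit 5) .nil .nil)))) (.nd (nat_lit 5) 
(.lf (nat_lit 11861) (.g (nat_lit 1032) (.e (nat_lit 618) (nat_lit 48) (.e (nat_lit 557105) (nat_lit 14) (.e (nat_lit 180251) (nat_lit 10) (.e (nat_lit 573485) (nat_lit 13) .nil)))) .nil)) 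
(.lf (nat_lit 11893) (.g (nat_lit 2263) (.e (nat_lit 618) (nat_lit 48) (.e (nat_lit 557105) (nat_lit 14) (.e (nat_lit 180252) (nat_lit 10) (.e (nat_lit 573481) (nat_lit 13) (.e (nat_lit 65571) (nat_lit 3) (.e (nat_lit 98309) (nat_lit 0) (.e (nat_lit 6134) (nat_lit 332) (.e (nat_lit 993) (nat_lit 81) .nil)))))))) (.g (nat_lit 4) .nil .nil))))) (.nd (nat_lit 4) (.nd (nat_lit 5) 
(.lf (nat_lit 11853) (.g (nat_lit 3560) (.e (nat_lit 618) (nat_lit 48) (.e (nat_lit 557105) (nat_lit 14) (.e (nat_lit 180251) (nat_lit 10) (.e (nat_lit 573484) (nat_lit 13) (.e (nat_lit 65569) (nat_lit 3) (.e (nat_lit 106240) (nat_lit 7) (.e (nat_lit 319504) (nat_lit 10) .nil))))))) (.g (nat_lit 5) .nil .nil))) 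
(.lf (nat_lit 11885) (.g (nat_lit 2981) (.e (nat_lit 618) (nat_lit 48) (.e (nat_lit 557105) (nat_lit 14) (.e (nat_lit 180252) (nat_lit 10) (.e (nat_lit 573481) (nat_lit 13) (.e (nat_lit 65569) (nat_lit 3) (.e (nat_lit 106240) (nat_lit 7) (.e (nat_lit 319505) (nat_lit 10) .nil))))))) (.g (nat_lit 5) .nil .nil)))) (.nd (nat_lit 5) 
(.lf (nat_lit 11869) (.g (nat_lit 2031) (.e (nat_lit 618) (nat_lit 48) (.e (nat_lit 557105) (nat_lit 14) (.e (nat_lit 180251) (nat_lit 10) (.e (nat_lit 573485) (nat_lit 13) (.e (nat_lit 65571) (nat_lit 3) (.e (nat_lit 106240) (nat_lit 7) (.e (nat_lit 319503) (nat_lit 10) .nil))))))) (.g (nat_lit 4) .nil .nil))) 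
(.lf (nat_lit 11901) (.g (nat_lit 2994) (.e (nat_lit 618) (nat_lit 48) (.e (nat_lit 557105) (nat_lit 14) (.e (nat_lit 180252) (nat_lit 10) (.e (nat_lit 573482) (nat_lit 13) (.e (nat_lit 65569) (nat_lit 3) .nil))))) .nil)))))) (.nd (nat_lit 2) (.nd (nat_lit 3) (.nd (nat_lit 4) (.nd (nat_lit 5) 
(.lf (nat_lit 11843) (.g (nat_lit 2842) (.e (nat_lit 618) (nat_lit 48) (.e (nat_lit 557103) (nat_lit 14) (.e (nat_lit 180250) (nat_lit 10) (.e (nat_lit 573484) (nat_lit 13) (.e (nat_lit 65569) (nat_lit 3) (.e (nat_lit 106240) (nat_lit 7) (.e (nat_lit 319505) (nat_lit 10) .nil))))))) (.g (nat_lit 4) .nil .nil))) 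
(.lf (nat_lit 11875) (.g (nat_lit 4405) (.e (nat_lit 618) (nat_lit 48) (.e (nat_lit 557105) (nat_lit 14) (.e (nat_lit 180252) (nat_lit 10) (.e (nat_lit 573451) (nat_lit 9) (.e (nat_lit 1449) (nat_lit 108) (.e (nat_lit 336028) (nat_lit 3) (.e (nat_lit 106240) (nat_lit 7) (.e (nat_lit 319505) (nat_lit 10) .nil)))))))) (.g (nat_lit 6) .nil .nil)))) (.nd (nat_lit 5) 
(.lf (nat_lit 11859) (.g (nat_lit 3139) (.e (nat_lit 618) (nat_lit 48) (.e (nat_lit 557105) (nat_lit 14) (.e (nat_lit 180251) (nat_lit 10) (.e (nat_lit 573484) (nat_lit 13) (.e (nat_lit 65571) (nat_lit 3) (.e (nat_lit 106240) (nat_lit 7) (.e (nat_lit 319505) (nat_lit 10) .nil))))))) (.g (nat_lit 4) .nil .nil))) 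
(.lf (nat_lit 11891) (.g (nat_lit 2683) (.e (nat_lit 618) (nat_lit 48) (.e (nat_lit 557105) (nat_lit 14) (.e (nat_lit 180252) (nat_lit 10) (.e (nat_lit 573481) (nat_lit 13) (.e (nat_lit 65571) (nat_lit 3) (.e (nat_lit 98309) (nat_lit 0) (.e (nat_lit 6124) (nat_lit 332) (.e (nat_lit 992) (nat_lit 81) .nil)))))))) (.g (nat_lit 4) .nil .nil))))) (.nd (nat_lit 4) (.nd (nat_lit 5) 
(.lf (nat_lit 11851) (.g (nat_lit 2708) (.e (nat_lit 618) (nat_lit 48) (.e (nat_lit 557105) (nat_lit 14) (.e (nat_lit 180251) (nat_lit 10) (.e (nat_lit 573484) (nat_lit 13) (.e (nat_lit 65566) (nat_lit 2) .nil))))) .nil)) 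
(.lf (nat_lit 11883) (.g (nat_lit 1917) (.e (nat_lit 618) (nat_lit 48) (.e (nat_lit 557105) (nat_lit 14) (.e (nat_lit 180252) (nat_lit 10) (.e (nat_lit 573481) (nat_lit 13) (.e (nat_lit 65569) (nat_lit 3) .nil))))) .nil))) (.nd (nat_lit 5) 
(.lf (nat_lit 11867) (.g (nat_lit 2924) (.e (nat_lit 618) (nat_lit 48) (.e (nat_lit 557105) (nat_lit 14) (.e (nat_lit 180251) (nat_lit 10) (.e (nat_lit 573485) (nat_lit 13) (.e (nat_lit 65570) (nat_lit 3) (.e (nat_lit 106240) (nat_lit 7) (.e (nat_lit 319504) (nat_lit 10) .nil))))))) (.g (nat_lit 5) .nil .nil))) 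
(.lf (nat_lit 11899) (.g (nat_lit 3017) (.e (nat_lit 618) (nat_lit 48) (.e (nat_lit 557105) (nat_lit 14) (.e (nat_lit 180252) (nat_lit 10) (.e (nat_lit 573482) (nat_lit 13) (.e (nat_lit 65566) (nat_lit 2) .nil))))) .nil))))) (.nd (nat_lit 3) (.nd (nat_lit 4) (.nd (nat_lit 5) 
(.lf (nat_lit 11847) (.g (nat_lit 3485) (.e (nat_lit 618) (nat_lit 48) (.e (nat_lit 557103) (nat_lit 14) (.e (nat_lit 180250) (nat_lit 10) (.e (nat_lit 573487) (nat_lit 14) (.e (nat_lit 73746) (nat_lit 3) (.e (nat_lit 524032) (nat_lit 24) (.e (nat_lit 319505) (nat_lit 10) .nil))))))) (.g (nat_lit 5) .nil .nil))) 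
(.lf (nat_lit 11879) (.g (nat_lit 3205) (.e (nat_lit 618) (nat_lit 48) (.e (nat_lit 557105) (nat_lit 14) (.e (nat_lit 180252) (nat_lit 10) (.e (nat_lit 573480) (nat_lit 13) (.e (nat_lit 65571) (nat_lit 3) (.e (nat_lit 106240) (nat_lit 7) (.e (nat_lit 319504) (nat_lit 10) .nil))))))) (.g (nat_lit 5) .nil .nil)))) (.nd (nat_lit 5) 
(.lf (nat_lit 11863) (.g (nat_lit 2853) (.e (nat_lit 618) (nat_lit 48) (.e (nat_lit 557105) (nat_lit 14) (.e (nat_lit 180251) (nat_lit 10) (.e (nat_lit 573485) (nat_lit 13) (.e (nat_lit 65569) (nat_lit 3) (.e (nat_lit 106240) (nat_lit 7) (.e (nat_lit 319504) (nat_lit 10) .nil))))))) (.g (nat_lit 5) .nil .nil))) 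
(.lf (nat_lit 11895) (.g (nat_lit 2636) (.e (nat_lit 618) (nat_lit 48) (.e (nat_lit 557105) (nat_lit 14) (.e (nat_lit 180252) (nat_lit 10) (.e (nat_lit 573481) (nat_lit 13) (.e (nat_lit 65571) (nat_lit 3) (.e (nat_lit 106240) (nat_lit 7) (.e (nat_lit 319499) (nat_lit 10) .nil))))))) (.g (nat_lit 5) .nil .nil))))) (.nd (nat_lit 4) (.nd (nat_lit 5) 
(.lf (nat_lit 11855) (.g (nat_lit 2836) (.e (nat_lit 618) (nat_lit 48) (.e (nat_lit 557105) (nat_lit 14) (.e (nat_lit 180251) (nat_lit 10) (.e (nat_lit 573484) (nat_lit 13) (.e (nat_lit 65571) (nat_lit 3) (.e (nat_lit 98309) (nat_lit 0) (.e (nat_lit 6112) (nat_lit 332) (.e (nat_lit 7936) (nat_lit 81) .nil)))))))) (.g (nat_lit 4) .nil .nil))) 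
(.lf (nat_lit 11887) (.g (nat_lit 2735) (.e (nat_lit 618) (nat_lit 48) (.e (nat_lit 557105) (nat_lit 14) (.e (nat_lit 180252) (nat_lit 10) (.e (nat_lit 573481) (nat_lit 13) (.e (nat_lit 65570) (nat_lit 3) (.e (nat_lit 98309) (nat_lit 0) (.e (nat_lit 6112) (nat_lit 332) (.e (nat_lit 968) (nat_lit 81) .nil)))))))) (.g (nat_lit 4) .nil .nil)))) (.nd (nat_lit 5) 
(.lf (nat_lit 11871) (.g (nat_lit 2085) (.e (nat_lit 618) (nat_lit 48) (.e (nat_lit 557105) (nat_lit 14) (.e (nat_lit 180251) (nat_lit 10) (.e (nat_lit 573485) (nat_lit 13) (.e (nat_lit 65571) (nat_lit 3) (.e (nat_lit 106240) (nat_lit 8) (.e (nat_lit 327703) (nat_lit 10) .nil))))))) (.g (nat_lit 4) .nil .nil))) 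
(.lf (nat_lit 11903) (.g (nat_lit 3602) (.e (nat_lit 618) (nat_lit 48) (.e (nat_lit 557105) (nat_lit 14) (.e (nat_lit 180252) (nat_lit 10) (.e (nat_lit 573482) (nat_lit 13) (.e (nat_lit 65569) (nat_lit 3) (.e (nat_lit 106240) (nat_lit 7) (.e (nat_lit 319505) (nat_lit 10) .nil))))))) (.g (nat_lit 4) .nil .nil)))))))))


end

end Pool.Agent.Lib.MP_5854e1_co.Cz
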