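import Pool.Agent.Lib.MP_5854e1_co.DtD

/-!
# Windows and cells of the rings
-/

set_option autoImplicit false
set_option maxRecDepth 100000
set_option deprecated.oldSectionVars true

namespace Pool.Agent.Lib.MP_5854e1_co.Cz

open Pool.Agent.Lib.MP_5854e1_co

noncomputable section

noncomputable def tv162 : DT := (.nd (nat_lit 0) (.nd (nat_lit 1) (.nd (nat_lit 2) (.nd (nat_lit 3) (.nd (nat_lit 4) (.nd (nat_lit 5) 
(.lf (nat_lit 11904) (.g (nat_lit 2906) (.e (nat_lit 618) (nat_lit 48) (.e (nat_lit 557105) (nat_lit 14) (.e (nat_lit 180252) (nat_lit 10) (.e (nat_lit 573482) (nat_lit 13) (.e (nat_lit 65570) (nat_lit 3) .nil))))) .nil)) 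
(.lf (nat_lit 11936) (.g (nat_lit 4217) (.e (nat_lit 618) (nat_lit 48) (.e (nat_lit 557105) (nat_lit 14) (.e (nat_lit 180252) (nat_lit 10) (.e (nat_lit 573488) (nat_lit 14) (.e (nat_lit 73747) (nat_lit 3) (.e (nat_lit 516191) (nat_lit 17) (.e (nat_lit 6112) (nat_lit 332) (.e (nat_lit 968) (nat_lit 81) .nil)))))))) (.g (nat_lit 6) .nil .nil)))) (.nd (nat_lit 5) 
(.lf (nat_lit 11920) (.g (nat_lit 4526) (.e (nat_lit 618) (nat_lit 48) (.e (nat_lit 557105) (nat_lit 14) (.e (nat_lit 180252) (nat_lit 10) (.e (nat_lit 573487) (nat_lit 14) (.e (nat_lit 73747) (nat_lit 3) (.e (nat_lit 516191) (nat_lit 17) (.e (nat_lit 6112) (nat_lit 332) (.e (nat_lit 7936) (nat_lit 81) .nil)))))))) (.g (nat_lit 7) .nil .nil))) 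
(.lf (nat_lit 11952) (.g (nat_lit 2768) (.e (nat_lit 618) (nat_lit 48) (.e (nat_lit 557105) (nat_lit 14) (.e (nat_lit 180252) (nat_lit 10) (.e (nat_lit 573488) (nat_lit 14) (.e (nat_lit 73756) (nat_lit 9) (.e (nat_lit 565252) (nat_lit 0) (.e (nat_lit 1395) (nat_lit 106) (.e (nat_lit 319499) (nat_lit 10) .nil)))))))) (.g (nat_lit 4) .nil .nil))))) (.nd (nat_lit 4) (.nd (nat_lit 5) 
(.lf (nat_lit 11912) (.g (nat_lit 4048) (.e (nat_lit 618) (nat_lit 48) (.e (nat_lit 557105) (nat_lit 14) (.e (nat_lit 180252) (nat_lit 10) (.e (nat_lit 573482) (nat_lit 13) (.e (nat_lit 65571) (nat_lit 3) (.e (nat_lit 106240) (nat_lit 7) (.e (nat_lit 319504) (nat_lit 10) .nil))))))) (.g (nat_lit 5) .nil .nil))) 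
(.lf (nat_lit 11944) (.g (nat_lit 2156) (.e (nat_lit 618) (nat_lit 48) (.e (nat_lit 557105) (nat_lit 14) (.e (nat_lit 180252) (nat_lit 10) (.e (nat_lit 573488) (nat_lit 14) (.e (nat_lit 73748) (nat_lit 3) .nil))))) .nil))) (.nd (nat_lit 5) 
(.lf (nat_lit 11928) (.g (nat_lit 3111) (.e (nat_lit 618) (nat_lit 48) (.e (nat_lit 557105) (nat_lit 14) (.e (nat_lit 180252) (nat_lit 10) (.e (nat_lit 573487) (nat_lit 14) (.e (nat_lit 81664) (nat_lit 5) (.e (nat_lit 532575) (nat_lit 17) (.e (nat_lit 6988) (nat_lit 377) (.e (nat_lit 968) (nat_lit 81) .nil)))))))) (.g (nat_lit 4) .nil .nil))) 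
(.lf (nat_lit 11960) (.g (nat_lit 2081) (.e (nat_lit 618) (nat_lit 48) (.e (nat_lit 557105) (nat_lit 14) (.e (nat_lit 180252) (nat_lit 10) (.e (nat_lit 573489) (nat_lit 14) (.e (nat_lit 73731) (nat_lit 0) .nil))))) .nil))))) (.nd (nat_lit 3) (.nd (nat_lit 4) (.nd (nat_lit 5) 
(.lf (nat_lit 11908) (.g (nat_lit 2769) (.e (nat_lit 618) (nat_lit 48) (.e (nat_lit 557105) (nat_lit 14) (.e (nat_lit 180252) (nat_lit 10) (.e (nat_lit 573482) (nat_lit 13) (.e (nat_lit 65571) (nat_lit 3) .nil))))) .nil)) 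
(.lf (nat_lit 11940) (.g (nat_lit 3790) (.e (nat_lit 618) (nat_lit 48) (.e (nat_lit 557105) (nat_lit 14) (.e (nat_lit 180252) (nat_lit 10) (.e (nat_lit 573488) (nat_lit 14) (.e (nat_lit 73747) (nat_lit 3) (.e (nat_lit 516191) (nat_lit 17) (.e (nat_lit 6134) (nat_lit 332) (.e (nat_lit 993) (nat_lit 81) .nil)))))))) (.g (nat_lit 5) .nil .nil)))) (.nd (nat_lit 5) 
(.lf (nat_lit 11924) (.g (nat_lit 2552) (.e (nat_lit 618) (nat_lit 48) (.e (nat_lit 557105) (nat_lit 14) (.e (nat_lit 180252) (nat_lit 10) (.e (nat_lit 573487) (nat_lit 14) (.e (nat_lit 73747) (nat_lit 3) (.e (nat_lit 524032) (nat_lit 24) (.e (nat_lit 319499) (nat_lit 10) .nil))))))) (.g (nat_lit 4) .nil .nil))) 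
(.lf (nat_lit 11956) (.g (nat_lit 2553) (.e (nat_lit 618) (nat_lit 48) (.e (nat_lit 557105) (nat_lit 14) (.e (nat_lit 180252) (nat_lit 10) (.e (nat_lit 573488) (nat_lit 14) (.e (nat_lit 81664) (nat_lit 9) (.e (nat_lit 565252) (nat_lit 0) (.e (nat_lit 1395) (nat_lit 106) (.e (nat_lit 319500) (nat_lit 10) .nil)))))))) (.g (nat_lit 4) .nil .nil))))) (.nd (nat_lit 4) (.nd (nat_lit 5) 
(.lf (nat_lit 11916) (.g (nat_lit 3349) (.e (nat_lit 618) (nat_lit 48) (.e (nat_lit 557105) (nat_lit 14) (.e (nat_lit 180252) (nat_lit 10) (.e (nat_lit 573487) (nat_lit 14) (.e (nat_lit 73746) (nat_lit 3) (.e (nat_lit 524032) (nat_lit 24) (.e (nat_lit 319504) (nat_lit 10) .nil))))))) (.g (nat_lit 4) .nil .nil))) 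
(.lf (nat_lit 11948) (.g (nat_lit 3205) (.e (nat_lit 618) (nat_lit 48) (.e (nat_lit 557105) (nat_lit 14) (.e (nat_lit 180252) (nat_lit 10) (.e (nat_lit 573488) (nat_lit 14) (.e (nat_lit 81664) (nat_lit 5) (.e (nat_lit 540416) (nat_lit 25) (.e (nat_lit 417794) (nat_lit 0) .nil))))))) (.g (nat_lit 4) .nil .nil)))) (.nd (nat_lit 5) 
(.lf (nat_lit 11932) (.g (nat_lit 2022) (.e (nat_lit 618) (nat_lit 48) (.e (nat_lit 557105) (nat_lit 14) (.e (nat_lit 180252) (nat_lit 10) (.e (nat_lit 573488) (nat_lit 14) (.e (nat_lit 73740) (nat_lit 1) .nil))))) .nil)) 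
(.lf (nat_lit 11964) (.g (nat_lit 2859) (.e (nat_lit 618) (nat_lit 48) (.e (nat_lit 557105) (nat_lit 14) (.e (nat_lit 180252) (nat_lit 10) (.e (nat_lit 573489) (nat_lit 14) (.e (nat_lit 73738) (nat_lit 1) .nil))))) .nil)))))) (.nd (nat_lit 2) (.nd (nat_lit 3) (.nd (nat_lit 4) (.nd (nat_lit 5) 
(.lf (nat_lit 11906) (.g (nat_lit 3567) (.e (nat_lit 618) (nat_lit 48) (.e (nat_lit 557105) (nat_lit 14) (.e (nat_lit 180252) (nat_lit 10) (.e (nat_lit 573482) (nat_lit 13) (.e (nat_lit 65570) (nat_lit 3) (.e (nat_lit 106240) (nat_lit 7) (.e (nat_lit 319504) (nat_lit 10) .nil))))))) (.g (nat_lit 4) .nil .nil))) 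
(.lf (nat_lit 11938) (.g (nat_lit 3628) (.e (nat_lit 618) (nat_lit 48) (.e (nat_lit 557105) (nat_lit 14) (.e (nat_lit 180252) (nat_lit 10) (.e (nat_lit 573488) (nat_lit 14) (.e (nat_lit 73747) (nat_lit 3) (.e (nat_lit 516191) (nat_lit 17) (.e (nat_lit 6124) (nat_lit 332) (.e (nat_lit 992) (nat_lit 81) .nil)))))))) (.g (nat_lit 5) .nil .nil)))) (.nd (nat_lit 5) 
(.lf (nat_lit 11922) (.g (nat_lit 4235) (.e (nat_lit 618) (nat_lit 48) (.e (nat_lit 557105) (nat_lit 14) (.e (nat_lit 180252) (nat_lit 10) (.e (nat_lit 573487) (nat_lit 14) (.e (nat_lit 73747) (nat_lit 3) (.e (nat_lit 516191) (nat_lit 17) (.e (nat_lit 6134) (nat_lit 332) (.e (nat_lit 992) (nat_lit 81) .nil)))))))) (.g (nat_lit 6) .nil .nil))) 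
(.lf (nat_lit 11954) (.g (nat_lit 3290) (.e (nat_lit 618) (nat_lit 48) (.e (nat_lit 557105) (nat_lit 14) (.e (nat_lit 180252) (nat_lit 10) (.e (nat_lit 573488) (nat_lit 14) (.e (nat_lit 73756) (nat_lit 9) (.e (nat_lit 565252) (nat_lit 0) (.e (nat_lit 1395) (nat_lit 106) (.e (nat_lit 319505) (nat_lit 10) .nil)))))))) (.g (nat_lit 4) .nil .nil))))) (.nd (nat_lit 4) (.nd (nat_lit 5) 
(.lf (nat_lit 11914) (.g (nat_lit 3360) (.e (nat_lit 618) (nat_lit 48) (.e (nat_lit 557105) (nat_lit 14) (.e (nat_lit 180252) (nat_lit 10) (.e (nat_lit 573484) (nat_lit 13) (.e (nat_lit 65569) (nat_lit 3) .nil))))) .nil)) 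
(.lf (nat_lit 11946) (.g (nat_lit 3099) (.e (nat_lit 618) (nat_lit 48) (.e (nat_lit 557105) (nat_lit 14) (.e (nat_lit 180252) (nat_lit 10) (.e (nat_lit 573488) (nat_lit 14) (.e (nat_lit 73748) (nat_lit 3) (.e (nat_lit 524032) (nat_lit 24) (.e (nat_lit 319505) (nat_lit 10) .nil))))))) (.g (nat_lit 5) .nil .nil)))) (.nd (nat_lit 5) 
(.lf (nat_lit 11930) (.g (nat_lit 2123) (.e (nat_lit 618) (nat_lit 48) (.e (nat_lit 557105) (nat_lit 14) (.e (nat_lit 180252) (nat_lit 10) (.e (nat_lit 573487) (nat_lit 14) (.e (nat_lit 81664) (nat_lit 9) .nil))))) .nil)) 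
(.lf (nat_lit 11962) (.g (nat_lit 2681) (.e (nat_lit 618) (nat_lit 48) (.e (nat_lit 557105) (nat_lit 14) (.e (nat_lit 180252) (nat_lit 10) (.e (nat_lit 573489) (nat_lit 14) (.e (nat_lit 73731) (nat_lit 0) (.e (nat_lit 4102) (nat_lit 245) (.e (nat_lit 1011) (nat_lit 81) (.e (nat_lit 1401) (nat_lit 106) (.e (nat_lit 319505) (nat_lit 10) .nil))))))))) (.g (nat_lit 4) .nil .nil)))))) 
(.nd (nat_lit 3) (.nd (nat_lit 4) (.nd (nat_lit 5) 
(.lf (nat_lit 11910) (.g (nat_lit 2953) (.e (nat_lit 618) (nat_lit 48) (.e (nat_lit 557105) (nat_lit 14) (.e (nat_lit 180252) (nat_lit 10) (.e (nat_lit 573482) (nat_lit 13) (.e (nat_lit 65571) (nat_lit 3) (.e (nat_lit 98309) (nat_lit 0) (.e (nat_lit 6124) (nat_lit 332) (.e (nat_lit 992) (nat_lit 81) .nil)))))))) (.g (nat_lit 4) .nil .nil))) 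
(.lf (nat_lit 11942) (.g (nat_lit 2783) (.e (nat_lit 618) (nat_lit 48) (.e (nat_lit 557105) (nat_lit 14) (.e (nat_lit 180252) (nat_lit 10) (.e (nat_lit 573488) (nat_lit 14) (.e (nat_lit 73747) (nat_lit 3) (.e (nat_lit 524032) (nat_lit 24) (.e (nat_lit 319499) (nat_lit 10) .nil))))))) (.g (nat_lit 5) .nil .nil)))) (.nd (nat_lit 5) 
(.lf (nat_lit 11926) (.g (nat_lit 3546) (.e (nat_lit 618) (nat_lit 48) (.e (nat_lit 557105) (nat_lit 14) (.e (nat_lit 180252) (nat_lit 10) (.e (nat_lit 573487) (nat_lit 14) (.e (nat_lit 73747) (nat_lit 3) (.e (nat_lit 524032) (nat_lit 24) (.e (nat_lit 319503) (nat_lit 10) .nil))))))) (.g (nat_lit 5) .nil .nil))) 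
(.lf (nat_lit 11958) (.g (nat_lit 2430) (.e (nat_lit 618) (nat_lit 48) (.e (nat_lit 557105) (nat_lit 14) (.e (nat_lit 180252) (nat_lit 10) (.e (nat_lit 573488) (nat_lit 14) (.e (nat_lit 81664) (nat_lit 9) (.e (nat_lit 565252) (nat_lit 0) (.e (nat_lit 1395) (nat_lit 106) (.e (nat_lit 319504) (nat_lit 10) .nil)))))))) (.g (nat_lit 4) .nil .nil))))) (.nd (nat_lit 4) (.nd (nat_lit 5) 
(.lf (nat_lit 11918) (.g (nat_lit 2251) (.e (nat_lit 618) (nat_lit 48) (.e (nat_lit 557105) (nat_lit 14) (.e (nat_lit 180252) (nat_lit 10) (.e (nat_lit 573487) (nat_lit 14) (.e (nat_lit 73747) (nat_lit 3) .nil))))) .nil)) 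
(.lf (nat_lit 11950) (.g (nat_lit 2546) (.e (nat_lit 618) (nat_lit 48) (.e (nat_lit 557105) (nat_lit 14) (.e (nat_lit 180252) (nat_lit 10) (.e (nat_lit 573488) (nat_lit 14) (.e (nat_lit 73756) (nat_lit 9) (.e (nat_lit 565251) (nat_lit 0) (.e (nat_lit 1401) (nat_lit 106) (.e (nat_lit 319504) (nat_lit 10) .nil)))))))) (.g (nat_lit 4) .nil .nil)))) (.nd (nat_lit 5) 
(.lf (nat_lit 11934) (.g (nat_lit 2394) (.e (nat_lit 618) (nat_lit 48) (.e (nat_lit 557105) (nat_lit 14) (.e (nat_lit 180252) (nat_lit 10) (.e (nat_lit 573488) (nat_lit 14) (.e (nat_lit 73746) (nat_lit 3) (.e (nat_lit 524032) (nat_lit 24) (.e (nat_lit 319505) (nat_lit 10) .nil))))))) (.g (nat_lit 4) .nil .nil))) 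
(.lf (nat_lit 11966) (.g (nat_lit 2758) (.e (nat_lit 618) (nat_lit 48) (.e (nat_lit 557105) (nat_lit 14) (.e (nat_lit 180252) (nat_lit 10) (.e (nat_lit 573489) (nat_lit 14) (.e (nat_lit 73747) (nat_lit 3) (.e (nat_lit 524032) (nat_lit 24) (.e (nat_lit 319505) (nat_lit 10) .nil))))))) (.g (nat_lit 4) .nil .nil)))))))) 
(.nd (nat_lit 1) (.nd (nat_lit 2) (.nd (nat_lit 3) (.nd (nat_lit 4) (.nd (nat_lit 5) 
(.lf (nat_lit 11905) (.g (nat_lit 3236) (.e (nat_lit 618) (nat_lit 48) (.e (nat_lit 557105) (nat_lit 14) (.e (nat_lit 180252) (nat_lit 10) (.e (nat_lit 573482) (nat_lit 13) (.e (nat_lit 65570) (nat_lit 3) (.e (nat_lit 98309) (nat_lit 0) (.e (nat_lit 6112) (nat_lit 332) (.e (nat_lit 7936) (nat_lit 81) .nil)))))))) (.g (nat_lit 4) .nil .nil))) 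
(.lf (nat_lit 11937) (.g (nat_lit 4598) (.e (nat_lit 618) (nat_lit 48) (.e (nat_lit 557105) (nat_lit 14) (.e (nat_lit 180252) (nat_lit 10) (.e (nat_lit 573488) (nat_lit 14) (.e (nat_lit 73747) (nat_lit 3) (.e (nat_lit 516191) (nat_lit 17) (.e (nat_lit 6112) (nat_lit 332) (.e (nat_lit 7936) (nat_lit 81) .nil)))))))) (.g (nat_lit 7) .nil .nil)))) (.nd (nat_lit 5) 
(.lf (nat_lit 11921) (.g (nat_lit 3618) (.e (nat_lit 618) (nat_lit 48) (.e (nat_lit 557105) (nat_lit 14) (.e (nat_lit 180252) (nat_lit 10) (.e (nat_lit 573487) (nat_lit 14) (.e (nat_lit 73747) (nat_lit 3) (.e (nat_lit 516191) (nat_lit 17) (.e (nat_lit 6124) (nat_lit 332) (.e (nat_lit 992) (nat_lit 81) .nil)))))))) (.g (nat_lit 5) .nil .nil))) 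
(.lf (nat_lit 11953) (.g (nat_lit 2728) (.e (nat_lit 618) (nat_lit 48) (.e (nat_lit 557105) (nat_lit 14) (.e (nat_lit 180252) (nat_lit 10) (.e (nat_lit 573488) (nat_lit 14) (.e (nat_lit 73756) (nat_lit 9) (.e (nat_lit 565252) (nat_lit 0) (.e (nat_lit 1395) (nat_lit 106) (.e (nat_lit 319503) (nat_lit 10) .nil)))))))) (.g (nat_lit 4) .nil .nil))))) (.nd (nat_lit 4) (.nd (nat_lit 5) 
(.lf (nat_lit 11913) (.g (nat_lit 4238) (.e (nat_lit 618) (nat_lit 48) (.e (nat_lit 557105) (nat_lit 14) (.e (nat_lit 180252) (nat_lit 10) (.e (nat_lit 573482) (nat_lit 13) (.e (nat_lit 65571) (nat_lit 3) (.e (nat_lit 106240) (nat_lit 7) (.e (nat_lit 319505) (nat_lit 10) .nil))))))) (.g (nat_lit 5) .nil .nil))) 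
(.lf (nat_lit 11945) (.g (nat_lit 3198) (.e (nat_lit 618) (nat_lit 48) (.e (nat_lit 557105) (nat_lit 14) (.e (nat_lit 180252) (nat_lit 10) (.e (nat_lit 573488) (nat_lit 14) (.e (nat_lit 73748) (nat_lit 3) (.e (nat_lit 524032) (nat_lit 24) (.e (nat_lit 319504) (nat_lit 10) .nil))))))) (.g (nat_lit 5) .nil .nil)))) (.nd (nat_lit 5) 
(.lf (nat_lit 11929) (.g (nat_lit 2756) (.e (nat_lit 618) (nat_lit 48) (.e (nat_lit 557105) (nat_lit 14) (.e (nat_lit 180252) (nat_lit 10) (.e (nat_lit 573487) (nat_lit 14) (.e (nat_lit 73756) (nat_lit 9) .nil))))) .nil)) 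
(.lf (nat_lit 11961) (.g (nat_lit 2407) (.e (nat_lit 618) (nat_lit 48) (.e (nat_lit 557105) (nat_lit 14) (.e (nat_lit 180252) (nat_lit 10) (.e (nat_lit 573489) (nat_lit 14) (.e (nat_lit 73731) (nat_lit 0) (.e (nat_lit 4102) (nat_lit 245) (.e (nat_lit 1010) (nat_lit 81) (.e (nat_lit 1401) (nat_lit 106) (.e (nat_lit 319505) (nat_lit 10) .nil))))))))) (.g (nat_lit 4) .nil .nil)))))) 
(.nd (nat_lit 3) (.nd (nat_lit 4) (.nd (nat_lit 5) 
(.lf (nat_lit 11909) (.g (nat_lit 3501) (.e (nat_lit 618) (nat_lit 48) (.e (nat_lit 557105) (nat_lit 14) (.e (nat_lit 180252) (nat_lit 10) (.e (nat_lit 573482) (nat_lit 13) (.e (nat_lit 65571) (nat_lit 3) (.e (nat_lit 98309) (nat_lit 0) (.e (nat_lit 6112) (nat_lit 332) (.e (nat_lit 968) (nat_lit 81) .nil)))))))) (.g (nat_lit 4) .nil .nil))) 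
(.lf (nat_lit 11941) (.g (nat_lit 2827) (.e (nat_lit 618) (nat_lit 48) (.e (nat_lit 557105) (nat_lit 14) (.e (nat_lit 180252) (nat_lit 10) (.e (nat_lit 573488) (nat_lit 14) (.e (nat_lit 73747) (nat_lit 3) (.e (nat_lit 524032) (nat_lit 24) (.e (nat_lit 319496) (nat_lit 10) .nil))))))) (.g (nat_lit 4) .nil .nil)))) (.nd (nat_lit 5) 
(.lf (nat_lit 11925) (.g (nat_lit 3400) (.e (nat_lit 618) (nat_lit 48) (.e (nat_lit 557105) (nat_lit 14) (.e (nat_lit 180252) (nat_lit 10) (.e (nat_lit 573487) (nat_lit 14) (.e (nat_lit 73747) (nat_lit 3) (.e (nat_lit 524032) (nat_lit 24) (.e (nat_lit 319500) (nat_lit 10) .nil))))))) (.g (nat_lit 5) .nil .nil))) 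
(.lf (nat_lit 11957) (.g (nat_lit 3217) (.e (nat_lit 618) (nat_lit 48) (.e (nat_lit 557105) (nat_lit 14) (.e (nat_lit 180252) (nat_lit 10) (.e (nat_lit 573488) (nat_lit 14) (.e (nat_lit 81664) (nat_lit 9) (.e (nat_lit 565252) (nat_lit 0) (.e (nat_lit 1395) (nat_lit 106) (.e (nat_lit 319503) (nat_lit 10) .nil)))))))) (.g (nat_lit 4) .nil .nil))))) (.nd (nat_lit 4) (.nd (nat_lit 5) 
(.lf (nat_lit 11917) (.g (nat_lit 3377) (.e (nat_lit 618) (nat_lit 48) (.e (nat_lit 557105) (nat_lit 14) (.e (nat_lit 180252) (nat_lit 10) (.e (nat_lit 573487) (nat_lit 14) (.e (nat_lit 73746) (nat_lit 3) (.e (nat_lit 524032) (nat_lit 24) (.e (nat_lit 319505) (nat_lit 10) .nil))))))) (.g (nat_lit 4) .nil .nil))) 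
(.lf (nat_lit 11949) (.g (nat_lit 2446) (.e (nat_lit 618) (nat_lit 48) (.e (nat_lit 557105) (nat_lit 14) (.e (nat_lit 180252) (nat_lit 10) (.e (nat_lit 573488) (nat_lit 14) (.e (nat_lit 73756) (nat_lit 9) .nil))))) .nil))) (.nd (nat_lit 5) 
(.lf (nat_lit 11933) (.g (nat_lit 2366) (.e (nat_lit 618) (nat_lit 48) (.e (nat_lit 557105) (nat_lit 14) (.e (nat_lit 180252) (nat_lit 10) (.e (nat_lit 573488) (nat_lit 14) (.e (nat_lit 73746) (nat_lit 3) (.e (nat_lit 524032) (nat_lit 24) (.e (nat_lit 319504) (nat_lit 10) .nil))))))) (.g (nat_lit 4) .nil .nil))) 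
(.lf (nat_lit 11965) (.g (nat_lit 2954) (.e (nat_lit 618) (nat_lit 48) (.e (nat_lit 557105) (nat_lit 14) (.e (nat_lit 180252) (nat_lit 10) (.e (nat_lit 573489) (nat_lit 14) (.e (nat_lit 73747) (nat_lit 3) (.e (nat_lit 516191) (nat_lit 17) (.e (nat_lit 6112) (nat_lit 332) (.e (nat_lit 7936) (nat_lit 81) .nil)))))))) (.g (nat_lit 4) .nil .nil))))))) 
(.nd (nat_lit 2) (.nd (nat_lit 3) (.nd (nat_lit 4) (.nd (nat_lit 5) 
(.lf (nat_lit 11907) (.g (nat_lit 4002) (.e (nat_lit 618) (nat_lit 48) (.e (nat_lit 557105) (nat_lit 14) (.e (nat_lit 180252) (nat_lit 10) (.e (nat_lit 573482) (nat_lit 13) (.e (nat_lit 65570) (nat_lit 3) (.e (nat_lit 106240) (nat_lit 7) (.e (nat_lit 319505) (nat_lit 10) .nil))))))) (.g (nat_lit 5) .nil .nil))) 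
(.lf (nat_lit 11939) (.g (nat_lit 4245) (.e (nat_lit 618) (nat_lit 48) (.e (nat_lit 557105) (nat_lit 14) (.e (nat_lit 180252) (nat_lit 10) (.e (nat_lit 573488) (nat_lit 14) (.e (nat_lit 73747) (nat_lit 3) (.e (nat_lit 516191) (nat_lit 17) (.e (nat_lit 6134) (nat_lit 332) (.e (nat_lit 992) (nat_lit 81) .nil)))))))) (.g (nat_lit 6) .nil .nil)))) (.nd (nat_lit 5) 
(.lf (nat_lit 11923) (.g (nat_lit 3780) (.e (nat_lit 618) (nat_lit 48) (.e (nat_lit 557105) (nat_lit 14) (.e (nat_lit 180252) (nat_lit 10) (.e (nat_lit 573487) (nat_lit 14) (.e (nat_lit 73747) (nat_lit 3) (.e (nat_lit 516191) (nat_lit 17) (.e (nat_lit 6134) (nat_lit 332) (.e (nat_lit 993) (nat_lit 81) .nil)))))))) (.g (nat_lit 5) .nil .nil))) 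
(.lf (nat_lit 11955) (.g (nat_lit 2243) (.e (nat_lit 618) (nat_lit 48) (.e (nat_lit 557105) (nat_lit 14) (.e (nat_lit 180252) (nat_lit 10) (.e (nat_lit 573488) (nat_lit 14) (.e (nat_lit 81664) (nat_lit 9) .nil))))) .nil)))) (.nd (nat_lit 4) (.nd (nat_lit 5) 
(.lf (nat_lit 11915) (.g (nat_lit 1427) (.e (nat_lit 618) (nat_lit 48) (.e (nat_lit 557105) (nat_lit 14) (.e (nat_lit 180252) (nat_lit 10) (.e (nat_lit 573487) (nat_lit 14) .nil)))) .nil)) 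
(.lf (nat_lit 11947) (.g (nat_lit 2963) (.e (nat_lit 618) (nat_lit 48) (.e (nat_lit 557105) (nat_lit 14) (.e (nat_lit 180252) (nat_lit 10) (.e (nat_lit 573488) (nat_lit 14) (.e (nat_lit 81664) (nat_lit 5) (.e (nat_lit 532575) (nat_lit 17) (.e (nat_lit 6988) (nat_lit 377) (.e (nat_lit 7936) (nat_lit 81) .nil)))))))) (.g (nat_lit 4) .nil .nil)))) (.nd (nat_lit 5) 
(.lf (nat_lit 11931) (.g (nat_lit 1299) (.e (nat_lit 618) (nat_lit 48) (.e (nat_lit 557105) (nat_lit 14) (.e (nat_lit 180252) (nat_lit 10) (.e (nat_lit 573488) (nat_lit 14) .nil)))) .nil)) 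
(.lf (nat_lit 11963) (.g (nat_lit 2773) (.e (nat_lit 618) (nat_lit 48) (.e (nat_lit 557105) (nat_lit 14) (.e (nat_lit 180252) (nat_lit 10) (.e (nat_lit 573489) (nat_lit 14) (.e (nat_lit 73731) (nat_lit 0) (.e (nat_lit 4144) (nat_lit 248) (.e (nat_lit 122901) (nat_lit 10) (.e (nat_lit 319505) (nat_lit 10) .nil)))))))) (.g (nat_lit 4) .nil .nil)))))) 
(.nd (nat_lit 3) (.nd (nat_lit 4) (.nd (nat_lit 5) 
(.lf (nat_lit 11911) (.g (nat_lit 2988) (.e (nat_lit 618) (nat_lit 48) (.e (nat_lit 557105) (nat_lit 14) (.e (nat_lit 180252) (nat_lit 10) (.e (nat_lit 573482) (nat_lit 13) (.e (nat_lit 65571) (nat_lit 3) (.e (nat_lit 98309) (nat_lit 0) (.e (nat_lit 6134) (nat_lit 332) (.e (nat_lit 992) (nat_lit 81) .nil)))))))) (.g (nat_lit 4) .nil .nil))) 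
(.lf (nat_lit 11943) (.g (nat_lit 3777) (.e (nat_lit 618) (nat_lit 48) (.e (nat_lit 557105) (nat_lit 14) (.e (nat_lit 180252) (nat_lit 10) (.e (nat_lit 573488) (nat_lit 14) (.e (nat_lit 73747) (nat_lit 3) (.e (nat_lit 524032) (nat_lit 24) (.e (nat_lit 319503) (nat_lit 10) .nil))))))) (.g (nat_lit 5) .nil .nil)))) (.nd (nat_lit 5) 
(.lf (nat_lit 11927) (.g (nat_lit 2123) (.e (nat_lit 618) (nat_lit 48) (.e (nat_lit 557105) (nat_lit 14) (.e (nat_lit 180252) (nat_lit 10) (.e (nat_lit 573487) (nat_lit 14) (.e (nat_lit 81664) (nat_lit 5) .nil))))) .nil)) 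
(.lf (nat_lit 11959) (.g (nat_lit 1374) (.e (nat_lit 618) (nat_lit 48) (.e (nat_lit 557105) (nat_lit 14) (.e (nat_lit 180252) (nat_lit 10) (.e (nat_lit 573489) (nat_lit 14) .nil)))) .nil)))) (.nd (nat_lit 4) (.nd (nat_lit 5) 
(.lf (nat_lit 11919) (.g (nat_lit 4145) (.e (nat_lit 618) (nat_lit 48) (.e (nat_lit 557105) (nat_lit 14) (.e (nat_lit 180252) (nat_lit 10) (.e (nat_lit 573487) (nat_lit 14) (.e (nat_lit 73747) (nat_lit 3) (.e (nat_lit 516191) (nat_lit 17) (.e (nat_lit 6112) (nat_lit 332) (.e (nat_lit 968) (nat_lit 81) .nil)))))))) (.g (nat_lit 6) .nil .nil))) 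
(.lf (nat_lit 11951) (.g (nat_lit 3322) (.e (nat_lit 618) (nat_lit 48) (.e (nat_lit 557105) (nat_lit 14) (.e (nat_lit 180252) (nat_lit 10) (.e (nat_lit 573488) (nat_lit 14) (.e (nat_lit 73756) (nat_lit 9) (.e (nat_lit 565251) (nat_lit 0) (.e (nat_lit 1401) (nat_lit 106) (.e (nat_lit 319505) (nat_lit 10) .nil)))))))) (.g (nat_lit 4) .nil .nil)))) (.nd (nat_lit 5) 
(.lf (nat_lit 11935) (.g (nat_lit 1946) (.e (nat_lit 618) (nat_lit 48) (.e (nat_lit 557105) (nat_lit 14) (.e (nat_lit 180252) (nat_lit 10) (.e (nat_lit 573488) (nat_lit 14) (.e (nat_lit 73747) (nat_lit 3) .nil))))) .nil)) 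
(.lf (nat_lit 11967) (.g (nat_lit 2475) (.e (nat_lit 618) (nat_lit 48) (.e (nat_lit 557105) (nat_lit 14) (.e (nat_lit 180252) (nat_lit 10) (.e (nat_lit 573489) (nat_lit 14) (.e (nat_lit 73748) (nat_lit 3) .nil))))) .nil))))))))

noncomputable def tv163 : DT := (.nd (nat_lit 0) (.nd (nat_lit 1) (.nd (nat_lit 2) (.nd (nat_lit 3) (.nd (nat_lit 4) (.nd (nat_lit 5) 
(.lf (nat_lit 11968) (.g (nat_lit 2883) (.e (nat_lit 618) (nat_lit 48) (.e (nat_lit 557105) (nat_lit 14) (.e (nat_lit 180252) (nat_lit 10) (.e (nat_lit 573489) (nat_lit 14) (.e (nat_lit 73748) (nat_lit 3) (.e (nat_lit 524032) (nat_lit 24) (.e (nat_lit 319500) (nat_lit 10) .nil))))))) (.g (nat_lit 5) .nil .nil))) 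
(.lf (nat_lit 12000) (.g (nat_lit 3282) (.e (nat_lit 618) (nat_lit 48) (.e (nat_lit 557105) (nat_lit 14) (.e (nat_lit 180252) (nat_lit 10) (.e (nat_lit 573489) (nat_lit 14) (.e (nat_lit 73756) (nat_lit 9) (.e (nat_lit 565252) (nat_lit 0) (.e (nat_lit 1395) (nat_lit 106) (.e (nat_lit 319505) (nat_lit 10) .nil)))))))) (.g (nat_lit 4) .nil .nil)))) (.nd (nat_lit 5) 
(.lf (nat_lit 11984) (.g (nat_lit 2689) (.e (nat_lit 618) (nat_lit 48) (.e (nat_lit 557105) (nat_lit 14) (.e (nat_lit 180252) (nat_lit 10) (.e (nat_lit 573489) (nat_lit 14) (.e (nat_lit 73755) (nat_lit 8) (.e (nat_lit 564992) (nat_lit 0) (.e (nat_lit 1399) (nat_lit 106) (.e (nat_lit 319503) (nat_lit 10) .nil)))))))) (.g (nat_lit 5) .nil .nil))) 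
(.lf (nat_lit 12016) (.g (nat_lit 2911) (.e (nat_lit 618) (nat_lit 48) (.e (nat_lit 557107) (nat_lit 15) (.e (nat_lit 188439) (nat_lit 20) (.e (nat_lit 3578) (nat_lit 223) (.e (nat_lit 745491) (nat_lit 4) (.e (nat_lit 65586) (nat_lit 7) (.e (nat_lit 319500) (nat_lit 10) .nil))))))) (.g (nat_lit 7) .nil .nil))))) (.nd (nat_lit 4) (.nd (nat_lit 5) 
(.lf (nat_lit 11976) (.g (nat_lit 1831) (.e (nat_lit 618) (nat_lit 48) (.e (nat_lit 557105) (nat_lit 14) (.e (nat_lit 180252) (nat_lit 10) (.e (nat_lit 573489) (nat_lit 14) (.e (nat_lit 73755) (nat_lit 8) (.e (nat_lit 557058) (nat_lit 0) (.e (nat_lit 1397) (nat_lit 106) (.e (nat_lit 319500) (nat_lit 10) .nil)))))))) (.g (nat_lit 4) .nil .nil))) 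
(.lf (nat_lit 12008) (.g (nat_lit 2267) (.e (nat_lit 618) (nat_lit 48) (.e (nat_lit 557107) (nat_lit 15) (.e (nat_lit 188431) (nat_lit 20) (.e (nat_lit 3572) (nat_lit 222) (.e (nat_lit 737284) (nat_lit 0) (.e (nat_lit 5271) (nat_lit 298) (.e (nat_lit 1400) (nat_lit 106) (.e (nat_lit 319505) (nat_lit 10) .nil)))))))) (.g (nat_lit 4) .nil .nil)))) (.nd (nat_lit 5) 
(.lf (nat_lit 11992) (.g (nat_lit 2961) (.e (nat_lit 618) (nat_lit 48) (.e (nat_lit 557105) (nat_lit 14) (.e (nat_lit 180252) (nat_lit 10) (.e (nat_lit 573489) (nat_lit 14) (.e (nat_lit 73755) (nat_lit 8) (.e (nat_lit 557119) (nat_lit 18) (.e (nat_lit 2766) (nat_lit 177) (.e (nat_lit 278550) (nat_lit 10) .nil)))))))) (.g (nat_lit 5) .nil .nil))) 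
(.lf (nat_lit 12024) (.g (nat_lit 980) (.e (nat_lit 618) (nat_lit 48) (.e (nat_lit 557107) (nat_lit 15) (.e (nat_lit 188440) (nat_lit 20) (.e (nat_lit 3578) (nat_lit 223) .nil)))) .nil))))) (.nd (nat_lit 3) (.nd (nat_lit 4) (.nd (nat_lit 5) 
(.lf (nat_lit 11972) (.g (nat_lit 2188) (.e (nat_lit 618) (nat_lit 48) (.e (nat_lit 557105) (nat_lit 14) (.e (nat_lit 180252) (nat_lit 10) (.e (nat_lit 573489) (nat_lit 14) (.e (nat_lit 73754) (nat_lit 8) (.e (nat_lit 564992) (nat_lit 0) (.e (nat_lit 1400) (nat_lit 106) (.e (nat_lit 319505) (nat_lit 10) .nil)))))))) (.g (nat_lit 4) .nil .nil))) 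
(.lf (nat_lit 12004) (.g (nat_lit 1943) (.e (nat_lit 618) (nat_lit 48) (.e (nat_lit 557106) (nat_lit 15) (.e (nat_lit 188446) (nat_lit 21) (.e (nat_lit 164196) (nat_lit 158) (.e (nat_lit 1199) (nat_lit 88) (.e (nat_lit 65583) (nat_lit 7) (.e (nat_lit 319499) (nat_lit 10) .nil))))))) (.g (nat_lit 4) .nil .nil)))) (.nd (nat_lit 5) 
(.lf (nat_lit 11988) (.g (nat_lit 2606) (.e (nat_lit 618) (nat_lit 48) (.e (nat_lit 557105) (nat_lit 14) (.e (nat_lit 180252) (nat_lit 10) (.e (nat_lit 573489) (nat_lit 14) (.e (nat_lit 73755) (nat_lit 8) (.e (nat_lit 557119) (nat_lit 18) (.e (nat_lit 2423) (nat_lit 157) (.e (nat_lit 4959) (nat_lit 287) (.e (nat_lit 1015) (nat_lit 81) .nil))))))))) (.g (nat_lit 4) .nil .nil))) 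
(.lf (nat_lit 12020) (.g (nat_lit 1996) (.e (nat_lit 618) (nat_lit 48) (.e (nat_lit 557107) (nat_lit 15) (.e (nat_lit 188439) (nat_lit 20) (.e (nat_lit 3579) (nat_lit 223) (.e (nat_lit 745490) (nat_lit 4) (.e (nat_lit 65586) (nat_lit 7) (.e (nat_lit 319505) (nat_lit 10) .nil))))))) (.g (nat_lit 4) .nil .nil))))) (.nd (nat_lit 4) (.nd (nat_lit 5) 
(.lf (nat_lit 11980) (.g (nat_lit 2497) (.e (nat_lit 618) (nat_lit 48) (.e (nat_lit 557105) (nat_lit 14) (.e (nat_lit 180252) (nat_lit 10) (.e (nat_lit 573489) (nat_lit 14) (.e (nat_lit 73755) (nat_lit 8) (.e (nat_lit 564992) (nat_lit 0) (.e (nat_lit 1395) (nat_lit 106) (.e (nat_lit 319503) (nat_lit 10) .nil)))))))) (.g (nat_lit 4) .nil .nil))) 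
(.lf (nat_lit 12012) (.g (nat_lit 1870) (.e (nat_lit 618) (nat_lit 48) (.e (nat_lit 557107) (nat_lit 15) (.e (nat_lit 188438) (nat_lit 20) (.e (nat_lit 3579) (nat_lit 223) (.e (nat_lit 745491) (nat_lit 4) (.e (nat_lit 65583) (nat_lit 7) (.e (nat_lit 319499) (nat_lit 10) .nil))))))) (.g (nat_lit 4) .nil .nil)))) (.nd (nat_lit 5) 
(.lf (nat_lit 11996) (.g (nat_lit 4302) (.e (nat_lit 618) (nat_lit 48) (.e (nat_lit 557105) (nat_lit 14) (.e (nat_lit 180252) (nat_lit 10) (.e (nat_lit 573489) (nat_lit 14) (.e (nat_lit 73755) (nat_lit 8) (.e (nat_lit 557119) (nat_lit 18) (.e (nat_lit 2769) (nat_lit 177) (.e (nat_lit 278549) (nat_lit 10) .nil)))))))) (.g (nat_lit 6) .nil .nil))) 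
(.lf (nat_lit 12028) (.g (nat_lit 2678) (.e (nat_lit 618) (nat_lit 48) (.e (nat_lit 557107) (nat_lit 15) (.e (nat_lit 188440) (nat_lit 20) (.e (nat_lit 3579) (nat_lit 223) (.e (nat_lit 745475) (nat_lit 0) (.e (nat_lit 1464) (nat_lit 108) (.e (nat_lit 336060) (nat_lit 7) (.e (nat_lit 319505) (nat_lit 10) .nil)))))))) (.g (nat_lit 5) .nil .nil))))))) 
(.nd (nat_lit 2) (.nd (nat_lit 3) (.nd (nat_lit 4) (.nd (nat_lit 5) 
(.lf (nat_lit 11970) (.g (nat_lit 2660) (.e (nat_lit 618) (nat_lit 48) (.e (nat_lit 557105) (nat_lit 14) (.e (nat_lit 180252) (nat_lit 10) (.e (nat_lit 573489) (nat_lit 14) (.e (nat_lit 81664) (nat_lit 5) .nil))))) .nil)) 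
(.lf (nat_lit 12002) (.g (nat_lit 1960) (.e (nat_lit 618) (nat_lit 48) (.e (nat_lit 557105) (nat_lit 14) (.e (nat_lit 180265) (nat_lit 21) (.e (nat_lit 663555) (nat_lit 0) (.e (nat_lit 1663) (nat_lit 115) (.e (nat_lit 393260) (nat_lit 21) (.e (nat_lit 417536) (nat_lit 10) .nil))))))) (.g (nat_lit 4) .nil .nil)))) (.nd (nat_lit 5) 
(.lf (nat_lit 11986) (.g (nat_lit 5055) (.e (nat_lit 618) (nat_lit 48) (.e (nat_lit 557105) (nat_lit 14) (.e (nat_lit 180252) (nat_lit 10) (.e (nat_lit 573489) (nat_lit 14) (.e (nat_lit 73755) (nat_lit 8) (.e (nat_lit 557119) (nat_lit 18) (.e (nat_lit 2423) (nat_lit 157) (.e (nat_lit 4959) (nat_lit 287) (.e (nat_lit 992) (nat_lit 81) .nil))))))))) (.g (nat_lit 8) .nil .nil))) 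
(.lf (nat_lit 12018) (.g (nat_lit 3781) (.e (nat_lit 618) (nat_lit 48) (.e (nat_lit 557107) (nat_lit 15) (.e (nat_lit 188439) (nat_lit 20) (.e (nat_lit 3579) (nat_lit 223) (.e (nat_lit 745476) (nat_lit 0) (.e (nat_lit 1464) (nat_lit 108) (.e (nat_lit 336060) (nat_lit 7) (.e (nat_lit 319505) (nat_lit 10) .nil)))))))) (.g (nat_lit 0) .nil .nil))))) (.nd (nat_lit 4) (.nd (nat_lit 5) 
(.lf (nat_lit 11978) (.g (nat_lit 2537) (.e (nat_lit 618) (nat_lit 48) (.e (nat_lit 557105) (nat_lit 14) (.e (nat_lit 180252) (nat_lit 10) (.e (nat_lit 573489) (nat_lit 14) (.e (nat_lit 73755) (nat_lit 8) (.e (nat_lit 564992) (nat_lit 0) (.e (nat_lit 1395) (nat_lit 106) (.e (nat_lit 319499) (nat_lit 10) .nil)))))))) (.g (nat_lit 5) .nil .nil))) 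
(.lf (nat_lit 12010) (.g (nat_lit 557) (.e (nat_lit 618) (nat_lit 48) (.e (nat_lit 557107) (nat_lit 15) (.e (nat_lit 188438) (nat_lit 20) .nil))) .nil))) (.nd (nat_lit 5) 
(.lf (nat_lit 11994) (.g (nat_lit 2961) (.e (nat_lit 618) (nat_lit 48) (.e (nat_lit 557105) (nat_lit 14) (.e (nat_lit 180252) (nat_lit 10) (.e (nat_lit 573489) (nat_lit 14) (.e (nat_lit 73755) (nat_lit 8) (.e (nat_lit 557119) (nat_lit 18) (.e (nat_lit 2768) (nat_lit 177) (.e (nat_lit 278549) (nat_lit 10) .nil)))))))) (.g (nat_lit 5) .nil .nil))) 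
(.lf (nat_lit 12026) (.g (nat_lit 2047) (.e (nat_lit 618) (nat_lit 48) (.e (nat_lit 557107) (nat_lit 15) (.e (nat_lit 188440) (nat_lit 20) (.e (nat_lit 3578) (nat_lit 223) (.e (nat_lit 745476) (nat_lit 0) (.e (nat_lit 1465) (nat_lit 108) (.e (nat_lit 336060) (nat_lit 7) (.e (nat_lit 319505) (nat_lit 10) .nil)))))))) (.g (nat_lit 4) .nil .nil)))))) 
(.nd (nat_lit 3) (.nd (nat_lit 4) (.nd (nat_lit 5) 
(.lf (nat_lit 11974) (.g (nat_lit 2481) (.e (nat_lit 618) (nat_lit 48) (.e (nat_lit 557105) (nat_lit 14) (.e (nat_lit 180252) (nat_lit 10) (.e (nat_lit 573489) (nat_lit 14) (.e (nat_lit 73755) (nat_lit 8) (.e (nat_lit 557057) (nat_lit 0) (.e (nat_lit 1393) (nat_lit 106) (.e (nat_lit 319500) (nat_lit 10) .nil)))))))) (.g (nat_lit 5) .nil .nil))) 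
(.lf (nat_lit 12006) (.g (nat_lit 400) (.e (nat_lit 618) (nat_lit 48) (.e (nat_lit 557107) (nat_lit 15) (.e (nat_lit 196352) (nat_lit 19) .nil))) .nil))) (.nd (nat_lit 5) 
(.lf (nat_lit 11990) (.g (nat_lit 5055) (.e (nat_lit 618) (nat_lit 48) (.e (nat_lit 557105) (nat_lit 14) (.e (nat_lit 180252) (nat_lit 10) (.e (nat_lit 573489) (nat_lit 14) (.e (nat_lit 73755) (nat_lit 8) (.e (nat_lit 557119) (nat_lit 18) (.e (nat_lit 2448) (nat_lit 157) (.e (nat_lit 4939) (nat_lit 287) (.e (nat_lit 1009) (nat_lit 81) .nil))))))))) (.g (nat_lit 8) .nil .nil))) 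
(.lf (nat_lit 12022) (.g (nat_lit 1912) (.e (nat_lit 618) (nat_lit 48) (.e (nat_lit 557107) (nat_lit 15) (.e (nat_lit 188439) (nat_lit 20) (.e (nat_lit 3579) (nat_lit 223) (.e (nat_lit 745491) (nat_lit 4) (.e (nat_lit 65584) (nat_lit 7) (.e (nat_lit 319499) (nat_lit 10) .nil))))))) (.g (nat_lit 4) .nil .nil))))) (.nd (nat_lit 4) (.nd (nat_lit 5) 
(.lf (nat_lit 11982) (.g (nat_lit 3000) (.e (nat_lit 618) (nat_lit 48) (.e (nat_lit 557105) (nat_lit 14) (.e (nat_lit 180252) (nat_lit 10) (.e (nat_lit 573489) (nat_lit 14) (.e (nat_lit 73755) (nat_lit 8) (.e (nat_lit 564992) (nat_lit 0) (.e (nat_lit 1398) (nat_lit 106) (.e (nat_lit 319503) (nat_lit 10) .nil)))))))) (.g (nat_lit 5) .nil .nil))) 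
(.lf (nat_lit 12014) (.g (nat_lit 1601) (.e (nat_lit 618) (nat_lit 48) (.e (nat_lit 557107) (nat_lit 15) (.e (nat_lit 188439) (nat_lit 20) (.e (nat_lit 3576) (nat_lit 223) (.e (nat_lit 745491) (nat_lit 4) (.e (nat_lit 65586) (nat_lit 7) (.e (nat_lit 319500) (nat_lit 10) .nil))))))) (.g (nat_lit 4) .nil .nil)))) (.nd (nat_lit 5) 
(.lf (nat_lit 11998) (.g (nat_lit 2809) (.e (nat_lit 618) (nat_lit 48) (.e (nat_lit 557105) (nat_lit 14) (.e (nat_lit 180252) (nat_lit 10) (.e (nat_lit 573489) (nat_lit 14) (.e (nat_lit 73756) (nat_lit 9) .nil))))) .nil)) 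
(.lf (nat_lit 12030) (.g (nat_lit 3257) (.e (nat_lit 618) (nat_lit 48) (.e (nat_lit 557107) (nat_lit 15) (.e (nat_lit 188440) (nat_lit 20) (.e (nat_lit 3579) (nat_lit 223) (.e (nat_lit 745476) (nat_lit 0) (.e (nat_lit 1464) (nat_lit 108) (.e (nat_lit 336060) (nat_lit 7) (.e (nat_lit 319505) (nat_lit 10) .nil)))))))) (.g (nat_lit 6) .nil .nil)))))))) 
(.nd (nat_lit 1) (.nd (nat_lit 2) (.nd (nat_lit 3) (.nd (nat_lit 4) (.nd (nat_lit 5) 
(.lf (nat_lit 11969) (.g (nat_lit 3029) (.e (nat_lit 618) (nat_lit 48) (.e (nat_lit 557105) (nat_lit 14) (.e (nat_lit 180252) (nat_lit 10) (.e (nat_lit 573489) (nat_lit 14) (.e (nat_lit 73748) (nat_lit 3) (.e (nat_lit 524032) (nat_lit 24) (.e (nat_lit 319503) (nat_lit 10) .nil))))))) (.g (nat_lit 4) .nil .nil))) 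
(.lf (nat_lit 12001) (.g (nat_lit 2660) (.e (nat_lit 618) (nat_lit 48) (.e (nat_lit 557105) (nat_lit 14) (.e (nat_lit 180252) (nat_lit 10) (.e (nat_lit 573489) (nat_lit 14) (.e (nat_lit 81664) (nat_lit 9) .nil))))) .nil))) (.nd (nat_lit 5) 
(.lf (nat_lit 11985) (.g (nat_lit 2877) (.e (nat_lit 618) (nat_lit 48) (.e (nat_lit 557105) (nat_lit 14) (.e (nat_lit 180252) (nat_lit 10) (.e (nat_lit 573489) (nat_lit 14) (.e (nat_lit 73755) (nat_lit 8) (.e (nat_lit 564992) (nat_lit 0) (.e (nat_lit 1401) (nat_lit 106) (.e (nat_lit 319503) (nat_lit 10) .nil)))))))) (.g (nat_lit 5) .nil .nil))) 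
(.lf (nat_lit 12017) (.g (nat_lit 3842) (.e (nat_lit 618) (nat_lit 48) (.e (nat_lit 557107) (nat_lit 15) (.e (nat_lit 188439) (nat_lit 20) (.e (nat_lit 3579) (nat_lit 223) (.e (nat_lit 745476) (nat_lit 0) (.e (nat_lit 1449) (nat_lit 108) (.e (nat_lit 336060) (nat_lit 7) (.e (nat_lit 319505) (nat_lit 10) .nil)))))))) (.g (nat_lit 0) .nil .nil))))) (.nd (nat_lit 4) (.nd (nat_lit 5) 
(.lf (nat_lit 11977) (.g (nat_lit 1784) (.e (nat_lit 618) (nat_lit 48) (.e (nat_lit 557105) (nat_lit 14) (.e (nat_lit 180252) (nat_lit 10) (.e (nat_lit 573489) (nat_lit 14) (.e (nat_lit 73755) (nat_lit 8) (.e (nat_lit 564992) (nat_lit 0) (.e (nat_lit 1394) (nat_lit 106) (.e (nat_lit 319500) (nat_lit 10) .nil)))))))) (.g (nat_lit 4) .nil .nil))) 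
(.lf (nat_lit 12009) (.g (nat_lit 1187) (.e (nat_lit 618) (nat_lit 48) (.e (nat_lit 557107) (nat_lit 15) (.e (nat_lit 188434) (nat_lit 20) (.e (nat_lit 3578) (nat_lit 223) .nil)))) .nil))) (.nd (nat_lit 5) 
(.lf (nat_lit 11993) (.g (nat_lit 4302) (.e (nat_lit 618) (nat_lit 48) (.e (nat_lit 557105) (nat_lit 14) (.e (nat_lit 180252) (nat_lit 10) (.e (nat_lit 573489) (nat_lit 14) (.e (nat_lit 73755) (nat_lit 8) (.e (nat_lit 557119) (nat_lit 18) (.e (nat_lit 2766) (nat_lit 177) (.e (nat_lit 278551) (nat_lit 10) .nil)))))))) (.g (nat_lit 6) .nil .nil))) 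
(.lf (nat_lit 12025) (.g (nat_lit 2113) (.e (nat_lit 618) (nat_lit 48) (.e (nat_lit 557107) (nat_lit 15) (.e (nat_lit 188440) (nat_lit 20) (.e (nat_lit 3578) (nat_lit 223) (.e (nat_lit 745475) (nat_lit 0) (.e (nat_lit 1442) (nat_lit 108) (.e (nat_lit 336060) (nat_lit 7) (.e (nat_lit 319505) (nat_lit 10) .nil)))))))) (.g (nat_lit 4) .nil .nil)))))) 
(.nd (nat_lit 3) (.nd (nat_lit 4) (.nd (nat_lit 5) 
(.lf (nat_lit 11973) (.g (nat_lit 1675) (.e (nat_lit 618) (nat_lit 48) (.e (nat_lit 557105) (nat_lit 14) (.e (nat_lit 180252) (nat_lit 10) (.e (nat_lit 573489) (nat_lit 14) (.e (nat_lit 73755) (nat_lit 8) .nil))))) .nil)) 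
(.lf (nat_lit 12005) (.g (nat_lit 2288) (.e (nat_lit 618) (nat_lit 48) (.e (nat_lit 557106) (nat_lit 15) (.e (nat_lit 188446) (nat_lit 21) (.e (nat_lit 164196) (nat_lit 158) (.e (nat_lit 1199) (nat_lit 88) (.e (nat_lit 65586) (nat_lit 7) (.e (nat_lit 319500) (nat_lit 10) .nil))))))) (.g (nat_lit 4) .nil .nil)))) (.nd (nat_lit 5) 
(.lf (nat_lit 11989) (.g (nat_lit 2606) (.e (nat_lit 618) (nat_lit 48) (.e (nat_lit 557105) (nat_lit 14) (.e (nat_lit 180252) (nat_lit 10) (.e (nat_lit 573489) (nat_lit 14) (.e (nat_lit 73755) (nat_lit 8) (.e (nat_lit 557119) (nat_lit 18) (.e (nat_lit 2427) (nat_lit 157) (.e (nat_lit 4939) (nat_lit 287) (.e (nat_lit 1009) (nat_lit 81) .nil))))))))) (.g (nat_lit 4) .nil .nil))) 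
(.lf (nat_lit 12021) (.g (nat_lit 1779) (.e (nat_lit 618) (nat_lit 48) (.e (nat_lit 557107) (nat_lit 15) (.e (nat_lit 188439) (nat_lit 20) (.e (nat_lit 3579) (nat_lit 223) (.e (nat_lit 745491) (nat_lit 4) (.e (nat_lit 65583) (nat_lit 7) (.e (nat_lit 319503) (nat_lit 10) .nil))))))) (.g (nat_lit 4) .nil .nil))))) (.nd (nat_lit 4) (.nd (nat_lit 5) 
(.lf (nat_lit 11981) (.g (nat_lit 2661) (.e (nat_lit 618) (nat_lit 48) (.e (nat_lit 557105) (nat_lit 14) (.e (nat_lit 180252) (nat_lit 10) (.e (nat_lit 573489) (nat_lit 14) (.e (nat_lit 73755) (nat_lit 8) (.e (nat_lit 564992) (nat_lit 0) (.e (nat_lit 1397) (nat_lit 106) (.e (nat_lit 319503) (nat_lit 10) .nil)))))))) (.g (nat_lit 5) .nil .nil))) 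
(.lf (nat_lit 12013) (.g (nat_lit 374) (.e (nat_lit 618) (nat_lit 48) (.e (nat_lit 557107) (nat_lit 15) (.e (nat_lit 188439) (nat_lit 20) .nil))) .nil))) (.nd (nat_lit 5) 
(.lf (nat_lit 11997) (.g (nat_lit 4296) (.e (nat_lit 618) (nat_lit 48) (.e (nat_lit 557105) (nat_lit 14) (.e (nat_lit 180252) (nat_lit 10) (.e (nat_lit 573489) (nat_lit 14) (.e (nat_lit 73755) (nat_lit 8) (.e (nat_lit 557119) (nat_lit 18) (.e (nat_lit 2769) (nat_lit 177) (.e (nat_lit 278550) (nat_lit 10) .nil)))))))) (.g (nat_lit 6) .nil .nil))) 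
(.lf (nat_lit 12029) (.g (nat_lit 2299) (.e (nat_lit 618) (nat_lit 48) (.e (nat_lit 557107) (nat_lit 15) (.e (nat_lit 188440) (nat_lit 20) (.e (nat_lit 3579) (nat_lit 223) (.e (nat_lit 745476) (nat_lit 0) (.e (nat_lit 1413) (nat_lit 108) (.e (nat_lit 336060) (nat_lit 7) (.e (nat_lit 319505) (nat_lit 10) .nil)))))))) (.g (nat_lit 4) .nil .nil))))))) 
(.nd (nat_lit 2) (.nd (nat_lit 3) (.nd (nat_lit 4) (.nd (nat_lit 5) 
(.lf (nat_lit 11971) (.g (nat_lit 3102) (.e (nat_lit 618) (nat_lit 48) (.e (nat_lit 557105) (nat_lit 14) (.e (nat_lit 180252) (nat_lit 10) (.e (nat_lit 573489) (nat_lit 14) (.e (nat_lit 81664) (nat_lit 5) (.e (nat_lit 532575) (nat_lit 17) (.e (nat_lit 6988) (nat_lit 377) (.e (nat_lit 968) (nat_lit 81) .nil)))))))) (.g (nat_lit 4) .nil .nil))) 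
(.lf (nat_lit 12003) (.g (nat_lit 2046) (.e (nat_lit 618) (nat_lit 48) (.e (nat_lit 557105) (nat_lit 14) (.e (nat_lit 188160) (nat_lit 34) (.e (nat_lit 16483) (nat_lit 27) (.e (nat_lit 336059) (nat_lit 7) (.e (nat_lit 319503) (nat_lit 10) .nil)))))) (.g (nat_lit 5) .nil .nil)))) (.nd (nat_lit 5) 
(.lf (nat_lit 11987) (.g (nat_lit 4598) (.e (nat_lit 618) (nat_lit 48) (.e (nat_lit 557105) (nat_lit 14) (.e (nat_lit 180252) (nat_lit 10) (.e (nat_lit 573489) (nat_lit 14) (.e (nat_lit 73755) (nat_lit 8) (.e (nat_lit 557119) (nat_lit 18) (.e (nat_lit 2423) (nat_lit 157) (.e (nat_lit 4959) (nat_lit 287) (.e (nat_lit 993) (nat_lit 81) .nil))))))))) (.g (nat_lit 7) .nil .nil))) 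
(.lf (nat_lit 12019) (.g (nat_lit 1781) (.e (nat_lit 618) (nat_lit 48) (.e (nat_lit 557107) (nat_lit 15) (.e (nat_lit 188439) (nat_lit 20) (.e (nat_lit 3579) (nat_lit 223) (.e (nat_lit 745490) (nat_lit 4) (.e (nat_lit 65586) (nat_lit 7) (.e (nat_lit 319500) (nat_lit 10) .nil))))))) (.g (nat_lit 4) .nil .nil))))) (.nd (nat_lit 4) (.nd (nat_lit 5) 
(.lf (nat_lit 11979) (.g (nat_lit 1833) (.e (nat_lit 618) (nat_lit 48) (.e (nat_lit 557105) (nat_lit 14) (.e (nat_lit 180252) (nat_lit 10) (.e (nat_lit 573489) (nat_lit 14) (.e (nat_lit 73755) (nat_lit 8) (.e (nat_lit 564992) (nat_lit 0) (.e (nat_lit 1395) (nat_lit 106) (.e (nat_lit 319500) (nat_lit 10) .nil)))))))) (.g (nat_lit 4) .nil .nil))) 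
(.lf (nat_lit 12011) (.g (nat_lit 759) (.e (nat_lit 618) (nat_lit 48) (.e (nat_lit 557107) (nat_lit 15) (.e (nat_lit 188438) (nat_lit 20) (.e (nat_lit 3578) (nat_lit 223) .nil)))) .nil))) (.nd (nat_lit 5) 
(.lf (nat_lit 11995) (.g (nat_lit 4296) (.e (nat_lit 618) (nat_lit 48) (.e (nat_lit 557105) (nat_lit 14) (.e (nat_lit 180252) (nat_lit 10) (.e (nat_lit 573489) (nat_lit 14) (.e (nat_lit 73755) (nat_lit 8) (.e (nat_lit 557119) (nat_lit 18) (.e (nat_lit 2768) (nat_lit 177) (.e (nat_lit 278551) (nat_lit 10) .nil)))))))) (.g (nat_lit 6) .nil .nil))) 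
(.lf (nat_lit 12027) (.g (nat_lit 2044) (.e (nat_lit 618) (nat_lit 48) (.e (nat_lit 557107) (nat_lit 15) (.e (nat_lit 188440) (nat_lit 20) (.e (nat_lit 3579) (nat_lit 223) (.e (nat_lit 745475) (nat_lit 0) (.e (nat_lit 1442) (nat_lit 108) (.e (nat_lit 336060) (nat_lit 7) (.e (nat_lit 319505) (nat_lit 10) .nil)))))))) (.g (nat_lit 4) .nil .nil)))))) 
(.nd (nat_lit 3) (.nd (nat_lit 4) (.nd (nat_lit 5) 
(.lf (nat_lit 11975) (.g (nat_lit 1829) (.e (nat_lit 618) (nat_lit 48) (.e (nat_lit 557105) (nat_lit 14) (.e (nat_lit 180252) (nat_lit 10) (.e (nat_lit 573489) (nat_lit 14) (.e (nat_lit 73755) (nat_lit 8) (.e (nat_lit 557058) (nat_lit 0) (.e (nat_lit 1393) (nat_lit 106) (.e (nat_lit 319500) (nat_lit 10) .nil)))))))) (.g (nat_lit 4) .nil .nil))) 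
(.lf (nat_lit 12007) (.g (nat_lit 535) (.e (nat_lit 618) (nat_lit 48) (.e (nat_lit 557107) (nat_lit 15) (.e (nat_lit 188431) (nat_lit 20) .nil))) .nil))) (.nd (nat_lit 5) 
(.lf (nat_lit 11991) (.g (nat_lit 2603) (.e (nat_lit 618) (nat_lit 48) (.e (nat_lit 557105) (nat_lit 14) (.e (nat_lit 180252) (nat_lit 10) (.e (nat_lit 573489) (nat_lit 14) (.e (nat_lit 73755) (nat_lit 8) (.e (nat_lit 557119) (nat_lit 18) (.e (nat_lit 2766) (nat_lit 177) (.e (nat_lit 278549) (nat_lit 10) .nil)))))))) (.g (nat_lit 4) .nil .nil))) 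
(.lf (nat_lit 12023) (.g (nat_lit 2552) (.e (nat_lit 618) (nat_lit 48) (.e (nat_lit 557107) (nat_lit 15) (.e (nat_lit 188439) (nat_lit 20) (.e (nat_lit 3579) (nat_lit 223) (.e (nat_lit 745492) (nat_lit 5) (.e (nat_lit 73792) (nat_lit 45) (.e (nat_lit 993) (nat_lit 81) .nil))))))) (.g (nat_lit 5) .nil .nil))))) (.nd (nat_lit 4) (.nd (nat_lit 5) 
(.lf (nat_lit 11983) (.g (nat_lit 1780) (.e (nat_lit 618) (nat_lit 48) (.e (nat_lit 557105) (nat_lit 14) (.e (nat_lit 180252) (nat_lit 10) (.e (nat_lit 573489) (nat_lit 14) (.e (nat_lit 73755) (nat_lit 8) (.e (nat_lit 564992) (nat_lit 0) (.e (nat_lit 1399) (nat_lit 106) (.e (nat_lit 319500) (nat_lit 10) .nil)))))))) (.g (nat_lit 4) .nil .nil))) 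
(.lf (nat_lit 12015) (.g (nat_lit 3370) (.e (nat_lit 618) (nat_lit 48) (.e (nat_lit 557107) (nat_lit 15) (.e (nat_lit 188439) (nat_lit 20) (.e (nat_lit 3578) (nat_lit 223) (.e (nat_lit 745476) (nat_lit 0) (.e (nat_lit 1464) (nat_lit 108) (.e (nat_lit 336060) (nat_lit 7) (.e (nat_lit 319505) (nat_lit 10) .nil)))))))) (.g (nat_lit 0) .nil .nil)))) (.nd (nat_lit 5) 
(.lf (nat_lit 11999) (.g (nat_lit 3314) (.e (nat_lit 618) (nat_lit 48) (.e (nat_lit 557105) (nat_lit 14) (.e (nat_lit 180252) (nat_lit 10) (.e (nat_lit 573489) (nat_lit 14) (.e (nat_lit 73756) (nat_lit 9) (.e (nat_lit 565251) (nat_lit 0) (.e (nat_lit 1401) (nat_lit 106) (.e (nat_lit 319505) (nat_lit 10) .nil)))))))) (.g (nat_lit 4) .nil .nil))) 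
(.lf (nat_lit 12031) (.g (nat_lit 3562) (.e (nat_lit 618) (nat_lit 48) (.e (nat_lit 557107) (nat_lit 15) (.e (nat_lit 188440) (nat_lit 20) (.e (nat_lit 3579) (nat_lit 223) (.e (nat_lit 745491) (nat_lit 4) (.e (nat_lit 65583) (nat_lit 7) (.e (nat_lit 319499) (nat_lit 10) .nil))))))) (.g (nat_lit 0) .nil .nil)))))))))

noncomputable def tv164 : DT := (.nd (nat_lit 0) (.nd (nat_lit 1) (.nd (nat_lit 2) (.nd (nat_lit 3) (.nd (nat_lit 4) (.nd (nat_lit 5) (.nd (nat_lit 6) 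
(.lf (nat_lit 12032) (.g (nat_lit 3939) (.e (nat_lit 618) (nat_lit 48) (.e (nat_lit 557107) (nat_lit 15) (.e (nat_lit 188440) (nat_lit 20) (.e (nat_lit 3579) (nat_lit 223) (.e (nat_lit 745491) (nat_lit 4) (.e (nat_lit 65586) (nat_lit 7) (.e (nat_lit 319500) (nat_lit 10) .nil))))))) (.g (nat_lit 7) .nil .nil))) 
(.lf (nat_lit 12096) (.g (nat_lit 2728) (.e (nat_lit 618) (nat_lit 48) (.e (nat_lit 557109) (nat_lit 15) (.e (nat_lit 188441) (nat_lit 20) (.e (nat_lit 2425) (nat_lit 157) (.e (nat_lit 6052) (nat_lit 326) (.e (nat_lit 2555) (nat_lit 159) (.e (nat_lit 24617) (nat_lit 7) (.e (nat_lit 319505) (nat_lit 10) .nil)))))))) (.g (nat_lit 4) .nil .nil)))) (.nd (nat_lit 6) 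
(.lf (nat_lit 12064) (.g (nat_lit 516) (.e (nat_lit 618) (nat_lit 48) (.e (nat_lit 557109) (nat_lit 15) (.e (nat_lit 196352) (nat_lit 19) .nil))) .nil)) 
(.lf (nat_lit 12128) (.g (nat_lit 1968) (.e (nat_lit 618) (nat_lit 48) (.e (nat_lit 557109) (nat_lit 15) (.e (nat_lit 188450) (nat_lit 23) (.e (nat_lit 204863) (nat_lit 27) .nil)))) .nil)))) (.nd (nat_lit 5) (.nd (nat_lit 6) 
(.lf (nat_lit 12048) (.g (nat_lit 3518) (.e (nat_lit 618) (nat_lit 48) (.e (nat_lit 557108) (nat_lit 15) (.e (nat_lit 188434) (nat_lit 20) (.e (nat_lit 3579) (nat_lit 223) .nil)))) .nil)) 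
(.lf (nat_lit 12112) (.g (nat_lit 3220) (.e (nat_lit 618) (nat_lit 48) (.e (nat_lit 557109) (nat_lit 15) (.e (nat_lit 188444) (nat_lit 21) (.e (nat_lit 164195) (nat_lit 158) (.e (nat_lit 1199) (nat_lit 88) (.e (nat_lit 65586) (nat_lit 7) (.e (nat_lit 319500) (nat_lit 10) .nil))))))) (.g (nat_lit 5) .nil .nil)))) (.nd (nat_lit 6) 
(.lf (nat_lit 12080) (.g (nat_lit 4651) (.e (nat_lit 618) (nat_lit 48) (.e (nat_lit 557109) (nat_lit 15) (.e (nat_lit 188434) (nat_lit 20) (.e (nat_lit 3578) (nat_lit 223) (.e (nat_lit 745476) (nat_lit 0) (.e (nat_lit 1464) (nat_lit 108) (.e (nat_lit 336060) (nat_lit 7) (.e (nat_lit 319505) (nat_lit 10) .nil)))))))) (.g (nat_lit 0) .nil .nil))) 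
(.lf (nat_lit 12144) (.g (nat_lit 3261) (.e (nat_lit 618) (nat_lit 48) (.e (nat_lit 557109) (nat_lit 15) (.e (nat_lit 188452) (nat_lit 23) (.e (nat_lit 204863) (nat_lit 27) (.e (nat_lit 344161) (nat_lit 37) .nil))))) .nil))))) (.nd (nat_lit 4) (.nd (nat_lit 5) (.nd (nat_lit 6) 
(.lf (nat_lit 12040) (.g (nat_lit 3123) (.e (nat_lit 618) (nat_lit 48) (.e (nat_lit 557107) (nat_lit 15) (.e (nat_lit 188444) (nat_lit 21) (.e (nat_lit 164196) (nat_lit 158) (.e (nat_lit 1199) (nat_lit 88) (.e (nat_lit 65586) (nat_lit 7) (.e (nat_lit 319500) (nat_lit 10) .nil))))))) (.g (nat_lit 5) .nil .nil))) 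
(.lf (nat_lit 12104) (.g (nat_lit 2362) (.e (nat_lit 618) (nat_lit 48) (.e (nat_lit 557109) (nat_lit 15) (.e (nat_lit 188441) (nat_lit 20) (.e (nat_lit 3579) (nat_lit 223) (.e (nat_lit 745475) (nat_lit 0) (.e (nat_lit 1449) (nat_lit 108) (.e (nat_lit 336060) (nat_lit 7) (.e (nat_lit 319505) (nat_lit 10) .nil)))))))) (.g (nat_lit 4) .nil .nil)))) (.nd (nat_lit 6) 
(.lf (nat_lit 12072) (.g (nat_lit 1811) (.e (nat_lit 618) (nat_lit 48) (.e (nat_lit 557109) (nat_lit 15) (.e (nat_lit 188433) (nat_lit 20) (.e (nat_lit 3575) (nat_lit 223) .nil)))) .nil)) 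
(.lf (nat_lit 12136) (.g (nat_lit 4311) (.e (nat_lit 618) (nat_lit 48) (.e (nat_lit 557109) (nat_lit 15) (.e (nat_lit 188452) (nat_lit 23) (.e (nat_lit 204862) (nat_lit 27) (.e (nat_lit 344160) (nat_lit 37) (.e (nat_lit 647203) (nat_lit 14) (.e (nat_lit 993) (nat_lit 81) .nil))))))) (.g (nat_lit 5) .nil .nil))))) (.nd (nat_lit 5) (.nd (nat_lit 6) 
(.lf (nat_lit 12056) (.g (nat_lit 4656) (.e (nat_lit 618) (nat_lit 48) (.e (nat_lit 557108) (nat_lit 15) (.e (nat_lit 188446) (nat_lit 21) (.e (nat_lit 164196) (nat_lit 158) (.e (nat_lit 1199) (nat_lit 88) (.e (nat_lit 65586) (nat_lit 7) (.e (nat_lit 319500) (nat_lit 10) .nil))))))) (.g (nat_lit 5) .nil .nil))) 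
(.lf (nat_lit 12120) (.g (nat_lit 3204) (.e (nat_lit 618) (nat_lit 48) (.e (nat_lit 557109) (nat_lit 15) (.e (nat_lit 188446) (nat_lit 21) (.e (nat_lit 164196) (nat_lit 158) (.e (nat_lit 1199) (nat_lit 88) (.e (nat_lit 65581) (nat_lit 7) (.e (nat_lit 319505) (nat_lit 10) .nil))))))) (.g (nat_lit 5) .nil .nil)))) (.nd (nat_lit 6) 
(.lf (nat_lit 12088) (.g (nat_lit 2248) (.e (nat_lit 618) (nat_lit 48) (.e (nat_lit 557109) (nat_lit 15) (.e (nat_lit 188434) (nat_lit 20) (.e (nat_lit 3579) (nat_lit 223) (.e (nat_lit 745490) (nat_lit 4) (.e (nat_lit 65586) (nat_lit 7) (.e (nat_lit 319505) (nat_lit 10) .nil))))))) (.g (nat_lit 4) .nil .nil))) 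
(.lf (nat_lit 12152) (.g (nat_lit 4303) (.e (nat_lit 618) (nat_lit 48) (.e (nat_lit 557109) (nat_lit 15) (.e (nat_lit 188452) (nat_lit 23) (.e (nat_lit 204864) (nat_lit 27) (.e (nat_lit 344161) (nat_lit 37) (.e (nat_lit 647203) (nat_lit 14) (.e (nat_lit 1014) (nat_lit 81) .nil))))))) (.g (nat_lit 5) .nil .nil))))))) (.nd (nat_lit 3) (.nd (nat_lit 4) (.nd (nat_lit 5) (.nd (nat_lit 6) 
(.lf (nat_lit 12036) (.g (nat_lit 1771) (.e (nat_lit 618) (nat_lit 48) (.e (nat_lit 557107) (nat_lit 15) (.e (nat_lit 188441) (nat_lit 20) (.e (nat_lit 3579) (nat_lit 223) (.e (nat_lit 745490) (nat_lit 4) (.e (nat_lit 65586) (nat_lit 7) (.e (nat_lit 319500) (nat_lit 10) .nil))))))) (.g (nat_lit 4) .nil .nil))) 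
(.lf (nat_lit 12100) (.g (nat_lit 2578) (.e (nat_lit 618) (nat_lit 48) (.e (nat_lit 557109) (nat_lit 15) (.e (nat_lit 188441) (nat_lit 20) (.e (nat_lit 3578) (nat_lit 223) (.e (nat_lit 745491) (nat_lit 4) (.e (nat_lit 65585) (nat_lit 7) (.e (nat_lit 319505) (nat_lit 10) .nil))))))) (.g (nat_lit 4) .nil .nil)))) (.nd (nat_lit 6) 
(.lf (nat_lit 12068) (.g (nat_lit 844) (.e (nat_lit 618) (nat_lit 48) (.e (nat_lit 557109) (nat_lit 15) (.e (nat_lit 188431) (nat_lit 20) .nil))) .nil)) 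
(.lf (nat_lit 12132) (.g (nat_lit 3668) (.e (nat_lit 618) (nat_lit 48) (.e (nat_lit 557109) (nat_lit 15) (.e (nat_lit 188452) (nat_lit 23) (.e (nat_lit 204852) (nat_lit 26) .nil)))) .nil)))) (.nd (nat_lit 5) (.nd (nat_lit 6) 
(.lf (nat_lit 12052) (.g (nat_lit 3276) (.e (nat_lit 618) (nat_lit 48) (.e (nat_lit 557108) (nat_lit 15) (.e (nat_lit 188446) (nat_lit 21) (.e (nat_lit 164193) (nat_lit 158) .nil)))) .nil)) 
(.lf (nat_lit 12116) (.g (nat_lit 961) (.e (nat_lit 618) (nat_lit 48) (.e (nat_lit 557109) (nat_lit 15) (.e (nat_lit 188446) (nat_lit 21) (.e (nat_lit 164196) (nat_lit 158) .nil)))) .nil))) (.nd (nat_lit 6) 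
(.lf (nat_lit 12084) (.g (nat_lit 2678) (.e (nat_lit 618) (nat_lit 48) (.e (nat_lit 557109) (nat_lit 15) (.e (nat_lit 188434) (nat_lit 20) (.e (nat_lit 3579) (nat_lit 223) (.e (nat_lit 745475) (nat_lit 0) (.e (nat_lit 1449) (nat_lit 108) (.e (nat_lit 336060) (nat_lit 7) (.e (nat_lit 319505) (nat_lit 10) .nil)))))))) (.g (nat_lit 4) .nil .nil))) 
(.lf (nat_lit 12148) (.g (nat_lit 3666) (.e (nat_lit 618) (nat_lit 48) (.e (nat_lit 557109) (nat_lit 15) (.e (nat_lit 188452) (nat_lit 23) (.e (nat_lit 204864) (nat_lit 27) (.e (nat_lit 344160) (nat_lit 37) (.e (nat_lit 647203) (nat_lit 14) (.e (nat_lit 993) (nat_lit 81) .nil))))))) (.g (nat_lit 4) .nil .nil)))))) (.nd (nat_lit 4) (.nd (nat_lit 5) (.nd (nat_lit 6) 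
(.lf (nat_lit 12044) (.g (nat_lit 1163) (.e (nat_lit 618) (nat_lit 48) (.e (nat_lit 557108) (nat_lit 15) (.e (nat_lit 188417) (nat_lit 0) .nil))) .nil)) 
(.lf (nat_lit 12108) (.g (nat_lit 4093) (.e (nat_lit 618) (nat_lit 48) (.e (nat_lit 557109) (nat_lit 15) (.e (nat_lit 188441) (nat_lit 20) (.e (nat_lit 3579) (nat_lit 223) (.e (nat_lit 745491) (nat_lit 4) (.e (nat_lit 65583) (nat_lit 7) (.e (nat_lit 319499) (nat_lit 10) .nil))))))) (.g (nat_lit 0) .nil .nil)))) (.nd (nat_lit 6) 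
(.lf (nat_lit 12076) (.g (nat_lit 1731) (.e (nat_lit 618) (nat_lit 48) (.e (nat_lit 557109) (nat_lit 15) (.e (nat_lit 188434) (nat_lit 20) (.e (nat_lit 3577) (nat_lit 223) .nil)))) .nil)) 
(.lf (nat_lit 12140) (.g (nat_lit 4351) (.e (nat_lit 618) (nat_lit 48) (.e (nat_lit 557109) (nat_lit 15) (.e (nat_lit 188452) (nat_lit 23) (.e (nat_lit 204863) (nat_lit 27) (.e (nat_lit 344160) (nat_lit 37) (.e (nat_lit 647203) (nat_lit 14) (.e (nat_lit 992) (nat_lit 81) .nil))))))) (.g (nat_lit 4) .nil .nil))))) (.nd (nat_lit 5) (.nd (nat_lit 6) 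
(.lf (nat_lit 12060) (.g (nat_lit 524) (.e (nat_lit 618) (nat_lit 48) (.e (nat_lit 557109) (nat_lit 15) (.e (nat_lit 188422) (nat_lit 11) .nil))) .nil)) 
(.lf (nat_lit 12124) (.g (nat_lit 3963) (.e (nat_lit 618) (nat_lit 48) (.e (nat_lit 557109) (nat_lit 15) (.e (nat_lit 188449) (nat_lit 22) (.e (nat_lit 196630) (nat_lit 9) (.e (nat_lit 1549) (nat_lit 109) .nil))))) .nil))) (.nd (nat_lit 6) 
(.lf (nat_lit 12092) (.g (nat_lit 2934) (.e (nat_lit 618) (nat_lit 48) (.e (nat_lit 557109) (nat_lit 15) (.e (nat_lit 188434) (nat_lit 20) (.e (nat_lit 3579) (nat_lit 223) (.e (nat_lit 745492) (nat_lit 5) (.e (nat_lit 73792) (nat_lit 45) (.e (nat_lit 993) (nat_lit 81) .nil))))))) (.g (nat_lit 4) .nil .nil))) 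
(.lf (nat_lit 12156) (.g (nat_lit 4170) (.e (nat_lit 618) (nat_lit 48) (.e (nat_lit 557109) (nat_lit 15) (.e (nat_lit 188452) (nat_lit 23) (.e (nat_lit 204874) (nat_lit 30) .nil)))) .nil))))))) (.nd (nat_lit 2) (.nd (nat_lit 3) (.nd (nat_lit 4) (.nd (nat_lit 5) (.nd (nat_lit 6) 
(.lf (nat_lit 12034) (.g (nat_lit 1636) (.e (nat_lit 618) (nat_lit 48) (.e (nat_lit 557107) (nat_lit 15) (.e (nat_lit 188441) (nat_lit 20) (.e (nat_lit 3578) (nat_lit 223) (.e (nat_lit 745474) (nat_lit 0) (.e (nat_lit 1464) (nat_lit 108) (.e (nat_lit 336060) (nat_lit 7) (.e (nat_lit 319505) (nat_lit 10) .nil)))))))) (.g (nat_lit 4) .nil .nil))) 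
(.lf (nat_lit 12098) (.g (nat_lit 3077) (.e (nat_lit 618) (nat_lit 48) (.e (nat_lit 557109) (nat_lit 15) (.e (nat_lit 188441) (nat_lit 20) (.e (nat_lit 3578) (nat_lit 223) (.e (nat_lit 745476) (nat_lit 0) (.e (nat_lit 1413) (nat_lit 108) (.e (nat_lit 336060) (nat_lit 7) (.e (nat_lit 319505) (nat_lit 10) .nil)))))))) (.g (nat_lit 5) .nil .nil)))) (.nd (nat_lit 6) 
(.lf (nat_lit 12066) (.g (nat_lit 2230) (.e (nat_lit 618) (nat_lit 48) (.e (nat_lit 557109) (nat_lit 15) (.e (nat_lit 188427) (nat_lit 20) (.e (nat_lit 3571) (nat_lit 222) (.e (nat_lit 737283) (nat_lit 0) (.e (nat_lit 5271) (nat_lit 298) (.e (nat_lit 1400) (nat_lit 106) (.e (nat_lit 319505) (nat_lit 10) .nil)))))))) (.g (nat_lit 4) .nil .nil))) 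
(.lf (nat_lit 12130) (.g (nat_lit 3592) (.e (nat_lit 618) (nat_lit 48) (.e (nat_lit 557109) (nat_lit 15) (.e (nat_lit 188450) (nat_lit 23) (.e (nat_lit 204863) (nat_lit 27) (.e (nat_lit 344160) (nat_lit 37) (.e (nat_lit 647203) (nat_lit 14) (.e (nat_lit 1014) (nat_lit 81) .nil))))))) (.g (nat_lit 4) .nil .nil))))) (.nd (nat_lit 5) (.nd (nat_lit 6) 
(.lf (nat_lit 12050) (.g (nat_lit 2793) (.e (nat_lit 618) (nat_lit 48) (.e (nat_lit 557108) (nat_lit 15) (.e (nat_lit 188435) (nat_lit 20) (.e (nat_lit 3579) (nat_lit 223) .nil)))) .nil)) 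
(.lf (nat_lit 12114) (.g (nat_lit 2870) (.e (nat_lit 618) (nat_lit 48) (.e (nat_lit 557109) (nat_lit 15) (.e (nat_lit 188444) (nat_lit 21) (.e (nat_lit 164196) (nat_lit 158) (.e (nat_lit 1199) (nat_lit 88) (.e (nat_lit 65581) (nat_lit 7) (.e (nat_lit 319505) (nat_lit 10) .nil))))))) (.g (nat_lit 4) .nil .nil)))) (.nd (nat_lit 6) 
(.lf (nat_lit 12082) (.g (nat_lit 1175) (.e (nat_lit 618) (nat_lit 48) (.e (nat_lit 557109) (nat_lit 15) (.e (nat_lit 188434) (nat_lit 20) (.e (nat_lit 3579) (nat_lit 223) .nil)))) .nil)) 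
(.lf (nat_lit 12146) (.g (nat_lit 2080) (.e (nat_lit 618) (nat_lit 48) (.e (nat_lit 557109) (nat_lit 15) (.e (nat_lit 188452) (nat_lit 23) (.e (nat_lit 204864) (nat_lit 27) .nil)))) .nil))))) (.nd (nat_lit 4) (.nd (nat_lit 5) (.nd (nat_lit 6) 
(.lf (nat_lit 12042) (.g (nat_lit 1254) (.e (nat_lit 618) (nat_lit 48) (.e (nat_lit 557107) (nat_lit 15) (.e (nat_lit 188450) (nat_lit 23) (.e (nat_lit 204862) (nat_lit 27) .nil)))) .nil)) 
(.lf (nat_lit 12106) (.g (nat_lit 3220) (.e (nat_lit 618) (nat_lit 48) (.e (nat_lit 557109) (nat_lit 15) (.e (nat_lit 188441) (nat_lit 20) (.e (nat_lit 3579) (nat_lit 223) (.e (nat_lit 745476) (nat_lit 0) (.e (nat_lit 1439) (nat_lit 108) (.e (nat_lit 336060) (nat_lit 7) (.e (nat_lit 319505) (nat_lit 10) .nil)))))))) (.g (nat_lit 5) .nil .nil)))) (.nd (nat_lit 6) 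
(.lf (nat_lit 12074) (.g (nat_lit 1776) (.e (nat_lit 618) (nat_lit 48) (.e (nat_lit 557109) (nat_lit 15) (.e (nat_lit 188434) (nat_lit 20) (.e (nat_lit 2424) (nat_lit 157) .nil)))) .nil)) 
(.lf (nat_lit 12138) (.g (nat_lit 4318) (.e (nat_lit 618) (nat_lit 48) (.e (nat_lit 557109) (nat_lit 15) (.e (nat_lit 188452) (nat_lit 23) (.e (nat_lit 204862) (nat_lit 27) (.e (nat_lit 344160) (nat_lit 37) (.e (nat_lit 647203) (nat_lit 14) (.e (nat_lit 1015) (nat_lit 81) .nil))))))) (.g (nat_lit 5) .nil .nil))))) (.nd (nat_lit 5) (.nd (nat_lit 6) 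
(.lf (nat_lit 12058) (.g (nat_lit 930) (.e (nat_lit 618) (nat_lit 48) (.e (nat_lit 557109) (nat_lit 15) (.e (nat_lit 188421) (nat_lit 11) .nil))) .nil)) 
(.lf (nat_lit 12122) (.g (nat_lit 3025) (.e (nat_lit 618) (nat_lit 48) (.e (nat_lit 557109) (nat_lit 15) (.e (nat_lit 188446) (nat_lit 21) (.e (nat_lit 164196) (nat_lit 158) (.e (nat_lit 1200) (nat_lit 88) (.e (nat_lit 65581) (nat_lit 7) (.e (nat_lit 319505) (nat_lit 10) .nil))))))) (.g (nat_lit 5) .nil .nil)))) (.nd (nat_lit 6) 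
(.lf (nat_lit 12090) (.g (nat_lit 2682) (.e (nat_lit 618) (nat_lit 48) (.e (nat_lit 557109) (nat_lit 15) (.e (nat_lit 188434) (nat_lit 20) (.e (nat_lit 3579) (nat_lit 223) (.e (nat_lit 745491) (nat_lit 4) (.e (nat_lit 65584) (nat_lit 7) (.e (nat_lit 319499) (nat_lit 10) .nil))))))) (.g (nat_lit 4) .nil .nil))) 
(.lf (nat_lit 12154) (.g (nat_lit 3691) (.e (nat_lit 618) (nat_lit 48) (.e (nat_lit 557109) (nat_lit 15) (.e (nat_lit 188452) (nat_lit 23) (.e (nat_lit 204872) (nat_lit 30) .nil)))) .nil)))))) (.nd (nat_lit 3) (.nd (nat_lit 4) (.nd (nat_lit 5) (.nd (nat_lit 6) 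
(.lf (nat_lit 12038) (.g (nat_lit 540) (.e (nat_lit 618) (nat_lit 48) (.e (nat_lit 557107) (nat_lit 15) (.e (nat_lit 188444) (nat_lit 21) .nil))) .nil)) 
(.lf (nat_lit 12102) (.g (nat_lit 2696) (.e (nat_lit 618) (nat_lit 48) (.e (nat_lit 557109) (nat_lit 15) (.e (nat_lit 188441) (nat_lit 20) (.e (nat_lit 3578) (nat_lit 223) (.e (nat_lit 745492) (nat_lit 5) (.e (nat_lit 73792) (nat_lit 45) (.e (nat_lit 993) (nat_lit 81) .nil))))))) (.g (nat_lit 4) .nil .nil)))) (.nd (nat_lit 6) 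
(.lf (nat_lit 12070) (.g (nat_lit 3202) (.e (nat_lit 618) (nat_lit 48) (.e (nat_lit 557109) (nat_lit 15) (.e (nat_lit 188433) (nat_lit 20) (.e (nat_lit 3445) (nat_lit 215) (.e (nat_lit 679974) (nat_lit 15) (.e (nat_lit 24617) (nat_lit 7) (.e (nat_lit 319504) (nat_lit 10) .nil))))))) (.g (nat_lit 4) .nil .nil))) 
(.lf (nat_lit 12134) (.g (nat_lit 1967) (.e (nat_lit 618) (nat_lit 48) (.e (nat_lit 557109) (nat_lit 15) (.e (nat_lit 188452) (nat_lit 23) (.e (nat_lit 204862) (nat_lit 27) .nil)))) .nil)))) (.nd (nat_lit 5) (.nd (nat_lit 6) 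
(.lf (nat_lit 12054) (.g (nat_lit 3797) (.e (nat_lit 618) (nat_lit 48) (.e (nat_lit 557108) (nat_lit 15) (.e (nat_lit 188446) (nat_lit 21) (.e (nat_lit 164195) (nat_lit 158) (.e (nat_lit 1199) (nat_lit 88) (.e (nat_lit 65586) (nat_lit 7) (.e (nat_lit 319500) (nat_lit 10) .nil))))))) (.g (nat_lit 4) .nil .nil))) 
(.lf (nat_lit 12118) (.g (nat_lit 2507) (.e (nat_lit 618) (nat_lit 48) (.e (nat_lit 557109) (nat_lit 15) (.e (nat_lit 188446) (nat_lit 21) (.e (nat_lit 164196) (nat_lit 158) (.e (nat_lit 1190) (nat_lit 88) (.e (nat_lit 65581) (nat_lit 7) (.e (nat_lit 319505) (nat_lit 10) .nil))))))) (.g (nat_lit 4) .nil .nil)))) (.nd (nat_lit 6) 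
(.lf (nat_lit 12086) (.g (nat_lit 2251) (.e (nat_lit 618) (nat_lit 48) (.e (nat_lit 557109) (nat_lit 15) (.e (nat_lit 188434) (nat_lit 20) (.e (nat_lit 3579) (nat_lit 223) (.e (nat_lit 745476) (nat_lit 0) (.e (nat_lit 1452) (nat_lit 108) (.e (nat_lit 336060) (nat_lit 7) (.e (nat_lit 319505) (nat_lit 10) .nil)))))))) (.g (nat_lit 4) .nil .nil))) 
(.lf (nat_lit 12150) (.g (nat_lit 3674) (.e (nat_lit 618) (nat_lit 48) (.e (nat_lit 557109) (nat_lit 15) (.e (nat_lit 188452) (nat_lit 23) (.e (nat_lit 204864) (nat_lit 27) (.e (nat_lit 344160) (nat_lit 37) (.e (nat_lit 647203) (nat_lit 14) (.e (nat_lit 1015) (nat_lit 81) .nil))))))) (.g (nat_lit 4) .nil .nil)))))) (.nd (nat_lit 4) (.nd (nat_lit 5) (.nd (nat_lit 6) 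
(.lf (nat_lit 12046) (.g (nat_lit 3710) (.e (nat_lit 618) (nat_lit 48) (.e (nat_lit 557108) (nat_lit 15) (.e (nat_lit 188434) (nat_lit 20) (.e (nat_lit 3577) (nat_lit 223) .nil)))) .nil)) 
(.lf (nat_lit 12110) (.g (nat_lit 2644) (.e (nat_lit 618) (nat_lit 48) (.e (nat_lit 557109) (nat_lit 15) (.e (nat_lit 188441) (nat_lit 20) (.e (nat_lit 3579) (nat_lit 223) (.e (nat_lit 745492) (nat_lit 5) (.e (nat_lit 73792) (nat_lit 45) (.e (nat_lit 993) (nat_lit 81) .nil))))))) (.g (nat_lit 4) .nil .nil)))) (.nd (nat_lit 6) 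
(.lf (nat_lit 12078) (.g (nat_lit 2584) (.e (nat_lit 618) (nat_lit 48) (.e (nat_lit 557109) (nat_lit 15) (.e (nat_lit 188434) (nat_lit 20) (.e (nat_lit 3578) (nat_lit 223) (.e (nat_lit 745475) (nat_lit 0) (.e (nat_lit 1439) (nat_lit 108) (.e (nat_lit 336060) (nat_lit 7) (.e (nat_lit 319505) (nat_lit 10) .nil)))))))) (.g (nat_lit 4) .nil .nil))) 
(.lf (nat_lit 12142) (.g (nat_lit 5241) (.e (nat_lit 618) (nat_lit 48) (.e (nat_lit 557109) (nat_lit 15) (.e (nat_lit 188452) (nat_lit 23) (.e (nat_lit 204863) (nat_lit 27) (.e (nat_lit 344160) (nat_lit 37) (.e (nat_lit 647203) (nat_lit 14) (.e (nat_lit 1014) (nat_lit 81) .nil))))))) (.g (nat_lit 6) .nil .nil))))) (.nd (nat_lit 5) (.nd (nat_lit 6) 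
(.lf (nat_lit 12062) (.g (nat_lit 3230) (.e (nat_lit 618) (nat_lit 48) (.e (nat_lit 557109) (nat_lit 15) (.e (nat_lit 188422) (nat_lit 11) (.e (nat_lit 335995) (nat_lit 1) (.e (nat_lit 57688) (nat_lit 156) (.e (nat_lit 163899) (nat_lit 11) (.e (nat_lit 417792) (nat_lit 0) .nil))))))) (.g (nat_lit 5) .nil .nil))) 
(.lf (nat_lit 12126) (.g (nat_lit 4209) (.e (nat_lit 618) (nat_lit 48) (.e (nat_lit 557109) (nat_lit 15) (.e (nat_lit 188449) (nat_lit 22) (.e (nat_lit 196670) (nat_lit 14) .nil)))) .nil))) (.nd (nat_lit 6) 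
(.lf (nat_lit 12094) (.g (nat_lit 2982) (.e (nat_lit 618) (nat_lit 48) (.e (nat_lit 557109) (nat_lit 15) (.e (nat_lit 188435) (nat_lit 20) (.e (nat_lit 3579) (nat_lit 223) (.e (nat_lit 745476) (nat_lit 0) (.e (nat_lit 1464) (nat_lit 108) (.e (nat_lit 336060) (nat_lit 7) (.e (nat_lit 319505) (nat_lit 10) .nil)))))))) (.g (nat_lit 5) .nil .nil))) 
(.lf (nat_lit 12158) (.g (nat_lit 5652) (.e (nat_lit 618) (nat_lit 48) (.e (nat_lit 557109) (nat_lit 15) (.e (nat_lit 188452) (nat_lit 23) (.e (nat_lit 204880) (nat_lit 32) (.e (nat_lit 385114) (nat_lit 53) .nil))))) .nil)))))))) (.nd (nat_lit 1) (.nd (nat_lit 2) (.nd (nat_lit 3) (.nd (nat_lit 4) (.nd (nat_lit 5) (.nd (nat_lit 6) 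
(.lf (nat_lit 12033) (.g (nat_lit 828) (.e (nat_lit 618) (nat_lit 48) (.e (nat_lit 557107) (nat_lit 15) (.e (nat_lit 188441) (nat_lit 20) (.e (nat_lit 3578) (nat_lit 223) .nil)))) .nil)) 
(.lf (nat_lit 12097) (.g (nat_lit 2437) (.e (nat_lit 618) (nat_lit 48) (.e (nat_lit 557109) (nat_lit 15) (.e (nat_lit 188441) (nat_lit 20) (.e (nat_lit 3578) (nat_lit 223) (.e (nat_lit 745474) (nat_lit 0) (.e (nat_lit 1464) (nat_lit 108) (.e (nat_lit 336060) (nat_lit 7) (.e (nat_lit 319505) (nat_lit 10) .nil)))))))) (.g (nat_lit 4) .nil .nil)))) (.nd (nat_lit 6) 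
(.lf (nat_lit 12065) (.g (nat_lit 530) (.e (nat_lit 618) (nat_lit 48) (.e (nat_lit 557109) (nat_lit 15) (.e (nat_lit 188427) (nat_lit 20) .nil))) .nil)) 
(.lf (nat_lit 12129) (.g (nat_lit 3389) (.e (nat_lit 618) (nat_lit 48) (.e (nat_lit 557109) (nat_lit 15) (.e (nat_lit 188450) (nat_lit 23) (.e (nat_lit 204863) (nat_lit 27) (.e (nat_lit 344160) (nat_lit 37) (.e (nat_lit 647203) (nat_lit 14) (.e (nat_lit 993) (nat_lit 81) .nil))))))) (.g (nat_lit 4) .nil .nil))))) (.nd (nat_lit 5) (.nd (nat_lit 6) 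
(.lf (nat_lit 12049) (.g (nat_lit 1137) (.e (nat_lit 618) (nat_lit 48) (.e (nat_lit 557108) (nat_lit 15) (.e (nat_lit 188435) (nat_lit 20) .nil))) .nil)) 
(.lf (nat_lit 12113) (.g (nat_lit 1292) (.e (nat_lit 618) (nat_lit 48) (.e (nat_lit 557109) (nat_lit 15) (.e (nat_lit 188444) (nat_lit 21) (.e (nat_lit 164196) (nat_lit 158) .nil)))) .nil))) (.nd (nat_lit 6) 
(.lf (nat_lit 12081) (.g (nat_lit 1646) (.e (nat_lit 618) (nat_lit 48) (.e (nat_lit 557109) (nat_lit 15) (.e (nat_lit 188434) (nat_lit 20) (.e (nat_lit 3578) (nat_lit 223) (.e (nat_lit 745491) (nat_lit 4) .nil))))) .nil)) 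
(.lf (nat_lit 12145) (.g (nat_lit 3177) (.e (nat_lit 618) (nat_lit 48) (.e (nat_lit 557109) (nat_lit 15) (.e (nat_lit 188452) (nat_lit 23) (.e (nat_lit 204863) (nat_lit 27) (.e (nat_lit 344163) (nat_lit 37) .nil))))) .nil))))) (.nd (nat_lit 4) (.nd (nat_lit 5) (.nd (nat_lit 6) 
(.lf (nat_lit 12041) (.g (nat_lit 2962) (.e (nat_lit 618) (nat_lit 48) (.e (nat_lit 557107) (nat_lit 15) (.e (nat_lit 188444) (nat_lit 21) (.e (nat_lit 164196) (nat_lit 158) (.e (nat_lit 1199) (nat_lit 88) (.e (nat_lit 65586) (nat_lit 7) (.e (nat_lit 319505) (nat_lit 10) .nil))))))) (.g (nat_lit 5) .nil .nil))) 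
(.lf (nat_lit 12105) (.g (nat_lit 2897) (.e (nat_lit 618) (nat_lit 48) (.e (nat_lit 557109) (nat_lit 15) (.e (nat_lit 188441) (nat_lit 20) (.e (nat_lit 3579) (nat_lit 223) (.e (nat_lit 745476) (nat_lit 0) (.e (nat_lit 1413) (nat_lit 108) (.e (nat_lit 336060) (nat_lit 7) (.e (nat_lit 319505) (nat_lit 10) .nil)))))))) (.g (nat_lit 4) .nil .nil)))) (.nd (nat_lit 6) 
(.lf (nat_lit 12073) (.g (nat_lit 1784) (.e (nat_lit 618) (nat_lit 48) (.e (nat_lit 557109) (nat_lit 15) (.e (nat_lit 188434) (nat_lit 20) (.e (nat_lit 2423) (nat_lit 157) .nil)))) .nil)) 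
(.lf (nat_lit 12137) (.g (nat_lit 4513) (.e (nat_lit 618) (nat_lit 48) (.e (nat_lit 557109) (nat_lit 15) (.e (nat_lit 188452) (nat_lit 23) (.e (nat_lit 204862) (nat_lit 27) (.e (nat_lit 344160) (nat_lit 37) (.e (nat_lit 647203) (nat_lit 14) (.e (nat_lit 1014) (nat_lit 81) .nil))))))) (.g (nat_lit 5) .nil .nil))))) (.nd (nat_lit 5) (.nd (nat_lit 6) 
(.lf (nat_lit 12057) (.g (nat_lit 5007) (.e (nat_lit 618) (nat_lit 48) (.e (nat_lit 557108) (nat_lit 15) (.e (nat_lit 188452) (nat_lit 23) (.e (nat_lit 204863) (nat_lit 27) .nil)))) .nil)) 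
(.lf (nat_lit 12121) (.g (nat_lit 3291) (.e (nat_lit 618) (nat_lit 48) (.e (nat_lit 557109) (nat_lit 15) (.e (nat_lit 188446) (nat_lit 21) (.e (nat_lit 164196) (nat_lit 158) (.e (nat_lit 1200) (nat_lit 88) (.e (nat_lit 65581) (nat_lit 7) (.e (nat_lit 319504) (nat_lit 10) .nil))))))) (.g (nat_lit 5) .nil .nil)))) (.nd (nat_lit 6) 
(.lf (nat_lit 12089) (.g (nat_lit 2715) (.e (nat_lit 618) (nat_lit 48) (.e (nat_lit 557109) (nat_lit 15) (.e (nat_lit 188434) (nat_lit 20) (.e (nat_lit 3579) (nat_lit 223) (.e (nat_lit 745491) (nat_lit 4) (.e (nat_lit 65583) (nat_lit 7) (.e (nat_lit 319505) (nat_lit 10) .nil))))))) (.g (nat_lit 4) .nil .nil))) 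
(.lf (nat_lit 12153) (.g (nat_lit 4141) (.e (nat_lit 618) (nat_lit 48) (.e (nat_lit 557109) (nat_lit 15) (.e (nat_lit 188452) (nat_lit 23) (.e (nat_lit 204864) (nat_lit 27) (.e (nat_lit 344161) (nat_lit 37) (.e (nat_lit 647203) (nat_lit 14) (.e (nat_lit 1015) (nat_lit 81) .nil))))))) (.g (nat_lit 5) .nil .nil))))))) (.nd (nat_lit 3) (.nd (nat_lit 4) (.nd (nat_lit 5) (.nd (nat_lit 6) 
(.lf (nat_lit 12037) (.g (nat_lit 2385) (.e (nat_lit 618) (nat_lit 48) (.e (nat_lit 557107) (nat_lit 15) (.e (nat_lit 188441) (nat_lit 20) (.e (nat_lit 3579) (nat_lit 223) (.e (nat_lit 745492) (nat_lit 5) (.e (nat_lit 73792) (nat_lit 45) (.e (nat_lit 993) (nat_lit 81) .nil))))))) (.g (nat_lit 4) .nil .nil))) 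
(.lf (nat_lit 12101) (.g (nat_lit 3891) (.e (nat_lit 618) (nat_lit 48) (.e (nat_lit 557109) (nat_lit 15) (.e (nat_lit 188441) (nat_lit 20) (.e (nat_lit 3578) (nat_lit 223) (.e (nat_lit 745491) (nat_lit 4) (.e (nat_lit 65586) (nat_lit 7) (.e (nat_lit 319500) (nat_lit 10) .nil))))))) (.g (nat_lit 7) .nil .nil)))) (.nd (nat_lit 6) 
(.lf (nat_lit 12069) (.g (nat_lit 1452) (.e (nat_lit 618) (nat_lit 48) (.e (nat_lit 557109) (nat_lit 15) (.e (nat_lit 188431) (nat_lit 20) (.e (nat_lit 3572) (nat_lit 222) .nil)))) .nil)) 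
(.lf (nat_lit 12133) (.g (nat_lit 4101) (.e (nat_lit 618) (nat_lit 48) (.e (nat_lit 557109) (nat_lit 15) (.e (nat_lit 188452) (nat_lit 23) (.e (nat_lit 204861) (nat_lit 26) .nil)))) .nil)))) (.nd (nat_lit 5) (.nd (nat_lit 6) 
(.lf (nat_lit 12053) (.g (nat_lit 3145) (.e (nat_lit 618) (nat_lit 48) (.e (nat_lit 557108) (nat_lit 15) (.e (nat_lit 188446) (nat_lit 21) (.e (nat_lit 164195) (nat_lit 158) .nil)))) .nil)) 
(.lf (nat_lit 12117) (.g (nat_lit 2245) (.e (nat_lit 618) (nat_lit 48) (.e (nat_lit 557109) (nat_lit 15) (.e (nat_lit 188446) (nat_lit 21) (.e (nat_lit 164196) (nat_lit 158) (.e (nat_lit 1189) (nat_lit 88) (.e (nat_lit 65581) (nat_lit 7) (.e (nat_lit 319505) (nat_lit 10) .nil))))))) (.g (nat_lit 4) .nil .nil)))) (.nd (nat_lit 6) 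
(.lf (nat_lit 12085) (.g (nat_lit 3208) (.e (nat_lit 618) (nat_lit 48) (.e (nat_lit 557109) (nat_lit 15) (.e (nat_lit 188434) (nat_lit 20) (.e (nat_lit 3579) (nat_lit 223) (.e (nat_lit 745476) (nat_lit 0) (.e (nat_lit 1413) (nat_lit 108) (.e (nat_lit 336060) (nat_lit 7) (.e (nat_lit 319505) (nat_lit 10) .nil)))))))) (.g (nat_lit 5) .nil .nil))) 
(.lf (nat_lit 12149) (.g (nat_lit 3869) (.e (nat_lit 618) (nat_lit 48) (.e (nat_lit 557109) (nat_lit 15) (.e (nat_lit 188452) (nat_lit 23) (.e (nat_lit 204864) (nat_lit 27) (.e (nat_lit 344160) (nat_lit 37) (.e (nat_lit 647203) (nat_lit 14) (.e (nat_lit 1014) (nat_lit 81) .nil))))))) (.g (nat_lit 4) .nil .nil)))))) (.nd (nat_lit 4) (.nd (nat_lit 5) (.nd (nat_lit 6) 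
(.lf (nat_lit 12045) (.g (nat_lit 1082) (.e (nat_lit 618) (nat_lit 48) (.e (nat_lit 557108) (nat_lit 15) (.e (nat_lit 196352) (nat_lit 19) .nil))) .nil)) 
(.lf (nat_lit 12109) (.g (nat_lit 4275) (.e (nat_lit 618) (nat_lit 48) (.e (nat_lit 557109) (nat_lit 15) (.e (nat_lit 188441) (nat_lit 20) (.e (nat_lit 3579) (nat_lit 223) (.e (nat_lit 745491) (nat_lit 4) (.e (nat_lit 65586) (nat_lit 7) (.e (nat_lit 319500) (nat_lit 10) .nil))))))) (.g (nat_lit 7) .nil .nil)))) (.nd (nat_lit 6) 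
(.lf (nat_lit 12077) (.g (nat_lit 1329) (.e (nat_lit 618) (nat_lit 48) (.e (nat_lit 557109) (nat_lit 15) (.e (nat_lit 188434) (nat_lit 20) (.e (nat_lit 3578) (nat_lit 223) .nil)))) .nil)) 
(.lf (nat_lit 12141) (.g (nat_lit 5038) (.e (nat_lit 618) (nat_lit 48) (.e (nat_lit 557109) (nat_lit 15) (.e (nat_lit 188452) (nat_lit 23) (.e (nat_lit 204863) (nat_lit 27) (.e (nat_lit 344160) (nat_lit 37) (.e (nat_lit 647203) (nat_lit 14) (.e (nat_lit 993) (nat_lit 81) .nil))))))) (.g (nat_lit 6) .nil .nil))))) (.nd (nat_lit 5) (.nd (nat_lit 6) 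
(.lf (nat_lit 12061) (.g (nat_lit 2624) (.e (nat_lit 618) (nat_lit 48) (.e (nat_lit 557109) (nat_lit 15) (.e (nat_lit 188422) (nat_lit 11) (.e (nat_lit 335986) (nat_lit 1) (.e (nat_lit 57688) (nat_lit 156) (.e (nat_lit 163899) (nat_lit 11) (.e (nat_lit 417792) (nat_lit 0) .nil))))))) (.g (nat_lit 5) .nil .nil))) 
(.lf (nat_lit 12125) (.g (nat_lit 4229) (.e (nat_lit 618) (nat_lit 48) (.e (nat_lit 557109) (nat_lit 15) (.e (nat_lit 188449) (nat_lit 22) (.e (nat_lit 196667) (nat_lit 14) .nil)))) .nil))) (.nd (nat_lit 6) 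
(.lf (nat_lit 12093) (.g (nat_lit 633) (.e (nat_lit 618) (nat_lit 48) (.e (nat_lit 557109) (nat_lit 15) (.e (nat_lit 188435) (nat_lit 20) .nil))) .nil)) 
(.lf (nat_lit 12157) (.g (nat_lit 3707) (.e (nat_lit 618) (nat_lit 48) (.e (nat_lit 557109) (nat_lit 15) (.e (nat_lit 188452) (nat_lit 23) (.e (nat_lit 204880) (nat_lit 32) .nil)))) .nil))))))) (.nd (nat_lit 2) (.nd (nat_lit 3) (.nd (nat_lit 4) (.nd (nat_lit 5) (.nd (nat_lit 6) 
(.lf (nat_lit 12035) (.g (nat_lit 1973) (.e (nat_lit 618) (nat_lit 48) (.e (nat_lit 557107) (nat_lit 15) (.e (nat_lit 188441) (nat_lit 20) (.e (nat_lit 3578) (nat_lit 223) (.e (nat_lit 745492) (nat_lit 5) (.e (nat_lit 73792) (nat_lit 45) (.e (nat_lit 993) (nat_lit 81) .nil))))))) (.g (nat_lit 4) .nil .nil))) 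
(.lf (nat_lit 12099) (.g (nat_lit 3628) (.e (nat_lit 618) (nat_lit 48) (.e (nat_lit 557109) (nat_lit 15) (.e (nat_lit 188441) (nat_lit 20) (.e (nat_lit 3578) (nat_lit 223) (.e (nat_lit 745491) (nat_lit 4) (.e (nat_lit 65583) (nat_lit 7) (.e (nat_lit 319499) (nat_lit 10) .nil))))))) (.g (nat_lit 0) .nil .nil)))) (.nd (nat_lit 6) 
(.lf (nat_lit 12067) (.g (nat_lit 743) (.e (nat_lit 618) (nat_lit 48) (.e (nat_lit 557109) (nat_lit 15) (.e (nat_lit 188428) (nat_lit 20) .nil))) .nil)) 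
(.lf (nat_lit 12131) (.g (nat_lit 3397) (.e (nat_lit 618) (nat_lit 48) (.e (nat_lit 557109) (nat_lit 15) (.e (nat_lit 188450) (nat_lit 23) (.e (nat_lit 204863) (nat_lit 27) (.e (nat_lit 344160) (nat_lit 37) (.e (nat_lit 647203) (nat_lit 14) (.e (nat_lit 1015) (nat_lit 81) .nil))))))) (.g (nat_lit 4) .nil .nil))))) (.nd (nat_lit 5) (.nd (nat_lit 6) 
(.lf (nat_lit 12051) (.g (nat_lit 3168) (.e (nat_lit 618) (nat_lit 48) (.e (nat_lit 557108) (nat_lit 15) (.e (nat_lit 188446) (nat_lit 21) (.e (nat_lit 171776) (nat_lit 146) .nil)))) .nil)) 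
(.lf (nat_lit 12115) (.g (nat_lit 4883) (.e (nat_lit 618) (nat_lit 48) (.e (nat_lit 557109) (nat_lit 15) (.e (nat_lit 188444) (nat_lit 21) (.e (nat_lit 164196) (nat_lit 158) (.e (nat_lit 1199) (nat_lit 88) (.e (nat_lit 65586) (nat_lit 7) (.e (nat_lit 319500) (nat_lit 10) .nil))))))) (.g (nat_lit 7) .nil .nil)))) (.nd (nat_lit 6) 
(.lf (nat_lit 12083) (.g (nat_lit 2957) (.e (nat_lit 618) (nat_lit 48) (.e (nat_lit 557109) (nat_lit 15) (.e (nat_lit 188434) (nat_lit 20) (.e (nat_lit 3579) (nat_lit 223) (.e (nat_lit 745475) (nat_lit 0) (.e (nat_lit 1442) (nat_lit 108) (.e (nat_lit 336060) (nat_lit 7) (.e (nat_lit 319505) (nat_lit 10) .nil)))))))) (.g (nat_lit 5) .nil .nil))) 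
(.lf (nat_lit 12147) (.g (nat_lit 3261) (.e (nat_lit 618) (nat_lit 48) (.e (nat_lit 557109) (nat_lit 15) (.e (nat_lit 188452) (nat_lit 23) (.e (nat_lit 204864) (nat_lit 27) (.e (nat_lit 344160) (nat_lit 37) .nil))))) .nil))))) (.nd (nat_lit 4) (.nd (nat_lit 5) (.nd (nat_lit 6) 
(.lf (nat_lit 12043) (.g (nat_lit 2442) (.e (nat_lit 618) (nat_lit 48) (.e (nat_lit 557107) (nat_lit 15) (.e (nat_lit 188450) (nat_lit 23) (.e (nat_lit 204863) (nat_lit 27) (.e (nat_lit 344160) (nat_lit 37) .nil))))) .nil)) 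
(.lf (nat_lit 12107) (.g (nat_lit 2627) (.e (nat_lit 618) (nat_lit 48) (.e (nat_lit 557109) (nat_lit 15) (.e (nat_lit 188441) (nat_lit 20) (.e (nat_lit 3579) (nat_lit 223) (.e (nat_lit 745476) (nat_lit 0) (.e (nat_lit 1465) (nat_lit 108) (.e (nat_lit 336060) (nat_lit 7) (.e (nat_lit 319505) (nat_lit 10) .nil)))))))) (.g (nat_lit 4) .nil .nil)))) (.nd (nat_lit 6) 
(.lf (nat_lit 12075) (.g (nat_lit 1973) (.e (nat_lit 618) (nat_lit 48) (.e (nat_lit 557109) (nat_lit 15) (.e (nat_lit 188434) (nat_lit 20) (.e (nat_lit 3446) (nat_lit 215) (.e (nat_lit 679974) (nat_lit 15) .nil))))) .nil)) 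
(.lf (nat_lit 12139) (.g (nat_lit 1942) (.e (nat_lit 618) (nat_lit 48) (.e (nat_lit 557109) (nat_lit 15) (.e (nat_lit 188452) (nat_lit 23) (.e (nat_lit 204863) (nat_lit 27) .nil)))) .nil)))) (.nd (nat_lit 5) (.nd (nat_lit 6) 
(.lf (nat_lit 12059) (.g (nat_lit 1323) (.e (nat_lit 618) (nat_lit 48) (.e (nat_lit 557109) (nat_lit 15) (.e (nat_lit 188421) (nat_lit 11) (.e (nat_lit 336288) (nat_lit 15) .nil)))) .nil)) 
(.lf (nat_lit 12123) (.g (nat_lit 3122) (.e (nat_lit 618) (nat_lit 48) (.e (nat_lit 557109) (nat_lit 15) (.e (nat_lit 188449) (nat_lit 22) (.e (nat_lit 196630) (nat_lit 9) .nil)))) .nil))) (.nd (nat_lit 6) 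
(.lf (nat_lit 12091) (.g (nat_lit 2726) (.e (nat_lit 618) (nat_lit 48) (.e (nat_lit 557109) (nat_lit 15) (.e (nat_lit 188434) (nat_lit 20) (.e (nat_lit 3579) (nat_lit 223) (.e (nat_lit 745491) (nat_lit 4) (.e (nat_lit 65586) (nat_lit 7) (.e (nat_lit 319504) (nat_lit 10) .nil))))))) (.g (nat_lit 4) .nil .nil))) 
(.lf (nat_lit 12155) (.g (nat_lit 3703) (.e (nat_lit 618) (nat_lit 48) (.e (nat_lit 557109) (nat_lit 15) (.e (nat_lit 188452) (nat_lit 23) (.e (nat_lit 204873) (nat_lit 30) .nil)))) .nil)))))) (.nd (nat_lit 3) (.nd (nat_lit 4) (.nd (nat_lit 5) (.nd (nat_lit 6) 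
(.lf (nat_lit 12039) (.g (nat_lit 2370) (.e (nat_lit 618) (nat_lit 48) (.e (nat_lit 557107) (nat_lit 15) (.e (nat_lit 188444) (nat_lit 21) (.e (nat_lit 164196) (nat_lit 158) (.e (nat_lit 1199) (nat_lit 88) (.e (nat_lit 65583) (nat_lit 7) (.e (nat_lit 319499) (nat_lit 10) .nil))))))) (.g (nat_lit 4) .nil .nil))) 
(.lf (nat_lit 12103) (.g (nat_lit 2641) (.e (nat_lit 618) (nat_lit 48) (.e (nat_lit 557109) (nat_lit 15) (.e (nat_lit 188441) (nat_lit 20) (.e (nat_lit 3579) (nat_lit 223) (.e (nat_lit 745475) (nat_lit 0) (.e (nat_lit 1442) (nat_lit 108) (.e (nat_lit 336060) (nat_lit 7) (.e (nat_lit 319505) (nat_lit 10) .nil)))))))) (.g (nat_lit 4) .nil .nil)))) (.nd (nat_lit 6) 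
(.lf (nat_lit 12071) (.g (nat_lit 1811) (.e (nat_lit 618) (nat_lit 48) (.e (nat_lit 557109) (nat_lit 15) (.e (nat_lit 188433) (nat_lit 20) (.e (nat_lit 3574) (nat_lit 223) .nil)))) .nil)) 
(.lf (nat_lit 12135) (.g (nat_lit 3624) (.e (nat_lit 618) (nat_lit 48) (.e (nat_lit 557109) (nat_lit 15) (.e (nat_lit 188452) (nat_lit 23) (.e (nat_lit 204862) (nat_lit 27) (.e (nat_lit 344160) (nat_lit 37) (.e (nat_lit 647203) (nat_lit 14) (.e (nat_lit 992) (nat_lit 81) .nil))))))) (.g (nat_lit 4) .nil .nil))))) (.nd (nat_lit 5) (.nd (nat_lit 6) 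
(.lf (nat_lit 12055) (.g (nat_lit 3118) (.e (nat_lit 618) (nat_lit 48) (.e (nat_lit 557108) (nat_lit 15) (.e (nat_lit 188446) (nat_lit 21) (.e (nat_lit 164196) (nat_lit 158) .nil)))) .nil)) 
(.lf (nat_lit 12119) (.g (nat_lit 2566) (.e (nat_lit 618) (nat_lit 48) (.e (nat_lit 557109) (nat_lit 15) (.e (nat_lit 188446) (nat_lit 21) (.e (nat_lit 164196) (nat_lit 158) (.e (nat_lit 1196) (nat_lit 88) (.e (nat_lit 65583) (nat_lit 7) (.e (nat_lit 319499) (nat_lit 10) .nil))))))) (.g (nat_lit 4) .nil .nil)))) (.nd (nat_lit 6) 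
(.lf (nat_lit 12087) (.g (nat_lit 2938) (.e (nat_lit 618) (nat_lit 48) (.e (nat_lit 557109) (nat_lit 15) (.e (nat_lit 188434) (nat_lit 20) (.e (nat_lit 3579) (nat_lit 223) (.e (nat_lit 745476) (nat_lit 0) (.e (nat_lit 1465) (nat_lit 108) (.e (nat_lit 336060) (nat_lit 7) (.e (nat_lit 319505) (nat_lit 10) .nil)))))))) (.g (nat_lit 5) .nil .nil))) 
(.lf (nat_lit 12151) (.g (nat_lit 3735) (.e (nat_lit 618) (nat_lit 48) (.e (nat_lit 557109) (nat_lit 15) (.e (nat_lit 188452) (nat_lit 23) (.e (nat_lit 204864) (nat_lit 27) (.e (nat_lit 344161) (nat_lit 37) (.e (nat_lit 647203) (nat_lit 14) (.e (nat_lit 993) (nat_lit 81) .nil))))))) (.g (nat_lit 4) .nil .nil)))))) (.nd (nat_lit 4) (.nd (nat_lit 5) (.nd (nat_lit 6) 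
(.lf (nat_lit 12047) (.g (nat_lit 3513) (.e (nat_lit 618) (nat_lit 48) (.e (nat_lit 557108) (nat_lit 15) (.e (nat_lit 188434) (nat_lit 20) (.e (nat_lit 3578) (nat_lit 223) .nil)))) .nil)) 
(.lf (nat_lit 12111) (.g (nat_lit 844) (.e (nat_lit 618) (nat_lit 48) (.e (nat_lit 557109) (nat_lit 15) (.e (nat_lit 188443) (nat_lit 20) .nil))) .nil))) (.nd (nat_lit 6) 
(.lf (nat_lit 12079) (.g (nat_lit 2728) (.e (nat_lit 618) (nat_lit 48) (.e (nat_lit 557109) (nat_lit 15) (.e (nat_lit 188434) (nat_lit 20) (.e (nat_lit 3578) (nat_lit 223) (.e (nat_lit 745476) (nat_lit 0) (.e (nat_lit 1452) (nat_lit 108) (.e (nat_lit 336060) (nat_lit 7) (.e (nat_lit 319505) (nat_lit 10) .nil)))))))) (.g (nat_lit 4) .nil .nil))) 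
(.lf (nat_lit 12143) (.g (nat_lit 5046) (.e (nat_lit 618) (nat_lit 48) (.e (nat_lit 557109) (nat_lit 15) (.e (nat_lit 188452) (nat_lit 23) (.e (nat_lit 204863) (nat_lit 27) (.e (nat_lit 344160) (nat_lit 37) (.e (nat_lit 647203) (nat_lit 14) (.e (nat_lit 1015) (nat_lit 81) .nil))))))) (.g (nat_lit 6) .nil .nil))))) (.nd (nat_lit 5) (.nd (nat_lit 6) 
(.lf (nat_lit 12063) (.g (nat_lit 2573) (.e (nat_lit 618) (nat_lit 48) (.e (nat_lit 557109) (nat_lit 15) (.e (nat_lit 188422) (nat_lit 11) (.e (nat_lit 335995) (nat_lit 1) (.e (nat_lit 57688) (nat_lit 156) (.e (nat_lit 163899) (nat_lit 11) (.e (nat_lit 417794) (nat_lit 0) .nil))))))) (.g (nat_lit 4) .nil .nil))) 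
(.lf (nat_lit 12127) (.g (nat_lit 2630) (.e (nat_lit 618) (nat_lit 48) (.e (nat_lit 557109) (nat_lit 15) (.e (nat_lit 188450) (nat_lit 23) (.e (nat_lit 204862) (nat_lit 27) (.e (nat_lit 344160) (nat_lit 37) .nil))))) .nil))) (.nd (nat_lit 6) 
(.lf (nat_lit 12095) (.g (nat_lit 844) (.e (nat_lit 618) (nat_lit 48) (.e (nat_lit 557109) (nat_lit 15) (.e (nat_lit 188439) (nat_lit 20) .nil))) .nil)) 
(.lf (nat_lit 12159) (.g (nat_lit 5391) (.e (nat_lit 618) (nat_lit 48) (.e (nat_lit 557109) (nat_lit 15) (.e (nat_lit 188452) (nat_lit 23) (.e (nat_lit 204880) (nat_lit 32) (.e (nat_lit 385115) (nat_lit 53) .nil))))) .nil)))))))))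

noncomputable def tv165 : DT := (.nd (nat_lit 0) (.nd (nat_lit 1) (.nd (nat_lit 2) (.nd (nat_lit 3) (.nd (nat_lit 4) (.nd (nat_lit 5) (.nd (nat_lit 6) 
(.lf (nat_lit 12160) (.g (nat_lit 3740) (.e (nat_lit 618) (nat_lit 48) (.e (nat_lit 557109) (nat_lit 15) (.e (nat_lit 188452) (nat_lit 23) (.e (nat_lit 204881) (nat_lit 32) .nil)))) .nil)) 
(.lf (nat_lit 12224) (.g (nat_lit 3938) (.e (nat_lit 7936) (nat_lit 48) (.e (nat_lit 557109) (nat_lit 15) (.e (nat_lit 188452) (nat_lit 23) (.e (nat_lit 204852) (nat_lit 26) .nil)))) .nil))) (.nd (nat_lit 6) 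
(.lf (nat_lit 12192) (.g (nat_lit 1663) (.e (nat_lit 619) (nat_lit 48) (.e (nat_lit 557105) (nat_lit 14) (.e (nat_lit 180265) (nat_lit 21) (.e (nat_lit 663561) (nat_lit 0) .nil)))) .nil)) 
(.lf (nat_lit 12256) (.g (nat_lit 5407) (.e (nat_lit 632) (nat_lit 50) (.e (nat_lit 573475) (nat_lit 12) (.e (nat_lit 57520) (nat_lit 44) (.e (nat_lit 688177) (nat_lit 16) (.e (nat_lit 65571) (nat_lit 3) (.e (nat_lit 98359) (nat_lit 26) (.e (nat_lit 426173) (nat_lit 7) (.e (nat_lit 409617) (nat_lit 10) .nil)))))))) (.g (nat_lit 7) .nil .nil))))) (.nd (nat_lit 5) (.nd (nat_lit 6) 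
(.lf (nat_lit 12176) (.g (nat_lit 2367) (.e (nat_lit 618) (nat_lit 48) (.e (nat_lit 557109) (nat_lit 15) (.e (nat_lit 188461) (nat_lit 26) (.e (nat_lit 254008) (nat_lit 14) (.e (nat_lit 1358) (nat_lit 102) (.e (nat_lit 286739) (nat_lit 7) (.e (nat_lit 319504) (nat_lit 10) .nil))))))) (.g (nat_lit 4) .nil .nil))) 
(.lf (nat_lit 12240) (.g (nat_lit 4738) (.e (nat_lit 632) (nat_lit 50) (.e (nat_lit 573475) (nat_lit 12) (.e (nat_lit 57520) (nat_lit 44) (.e (nat_lit 688177) (nat_lit 16) (.e (nat_lit 65566) (nat_lit 2) (.e (nat_lit 90170) (nat_lit 13) (.e (nat_lit 172082) (nat_lit 7) (.e (nat_lit 409612) (nat_lit 10) .nil)))))))) (.g (nat_lit 6) .nil .nil)))) (.nd (nat_lit 6) 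
(.lf (nat_lit 12208) (.g (nat_lit 1274) (.e (nat_lit 622) (nat_lit 48) (.e (nat_lit 557108) (nat_lit 15) (.e (nat_lit 188434) (nat_lit 20) .nil))) .nil)) 
(.lf (nat_lit 12272) (.g (nat_lit 4089) (.e (nat_lit 632) (nat_lit 50) (.e (nat_lit 573478) (nat_lit 12) (.e (nat_lit 57520) (nat_lit 44) (.e (nat_lit 688177) (nat_lit 16) (.e (nat_lit 65571) (nat_lit 3) (.e (nat_lit 98359) (nat_lit 26) (.e (nat_lit 426171) (nat_lit 7) (.e (nat_lit 409616) (nat_lit 10) .nil)))))))) (.g (nat_lit 6) .nil .nil)))))) (.nd (nat_lit 4) (.nd (nat_lit 5) (.nd (nat_lit 6) 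
(.lf (nat_lit 12168) (.g (nat_lit 2360) (.e (nat_lit 618) (nat_lit 48) (.e (nat_lit 557109) (nat_lit 15) (.e (nat_lit 188461) (nat_lit 26) (.e (nat_lit 254007) (nat_lit 14) (.e (nat_lit 1348) (nat_lit 102) (.e (nat_lit 286739) (nat_lit 7) (.e (nat_lit 319504) (nat_lit 10) .nil))))))) (.g (nat_lit 4) .nil .nil))) 
(.lf (nat_lit 12232) (.g (nat_lit 2091) (.e (nat_lit 632) (nat_lit 50) (.e (nat_lit 573473) (nat_lit 12) (.e (nat_lit 57521) (nat_lit 44) (.e (nat_lit 688177) (nat_lit 16) (.e (nat_lit 65569) (nat_lit 3) (.e (nat_lit 98359) (nat_lit 26) (.e (nat_lit 426171) (nat_lit 7) (.e (nat_lit 409615) (nat_lit 10) .nil)))))))) (.g (nat_lit 4) .nil .nil)))) (.nd (nat_lit 6) 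
(.lf (nat_lit 12200) (.g (nat_lit 2196) (.e (nat_lit 620) (nat_lit 48) (.e (nat_lit 557105) (nat_lit 14) (.e (nat_lit 180252) (nat_lit 10) (.e (nat_lit 573489) (nat_lit 14) .nil)))) .nil)) 
(.lf (nat_lit 12264) (.g (nat_lit 2172) (.e (nat_lit 632) (nat_lit 50) (.e (nat_lit 573475) (nat_lit 12) (.e (nat_lit 57521) (nat_lit 44) (.e (nat_lit 688177) (nat_lit 16) (.e (nat_lit 65568) (nat_lit 2) (.e (nat_lit 90170) (nat_lit 13) (.e (nat_lit 172079) (nat_lit 7) (.e (nat_lit 409611) (nat_lit 10) .nil)))))))) (.g (nat_lit 4) .nil .nil))))) (.nd (nat_lit 5) (.nd (nat_lit 6) 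
(.lf (nat_lit 12184) (.g (nat_lit 3148) (.e (nat_lit 619) (nat_lit 48) (.e (nat_lit 557105) (nat_lit 14) (.e (nat_lit 180252) (nat_lit 10) (.e (nat_lit 573481) (nat_lit 13) (.e (nat_lit 65571) (nat_lit 3) .nil))))) .nil)) 
(.lf (nat_lit 12248) (.g (nat_lit 2778) (.e (nat_lit 632) (nat_lit 50) (.e (nat_lit 573475) (nat_lit 12) (.e (nat_lit 57520) (nat_lit 44) (.e (nat_lit 688177) (nat_lit 16) (.e (nat_lit 65569) (nat_lit 3) (.e (nat_lit 98360) (nat_lit 26) (.e (nat_lit 426173) (nat_lit 7) (.e (nat_lit 409617) (nat_lit 10) .nil)))))))) (.g (nat_lit 4) .nil .nil)))) (.nd (nat_lit 6) 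
(.lf (nat_lit 12216) (.g (nat_lit 1252) (.e (nat_lit 623) (nat_lit 48) (.e (nat_lit 557108) (nat_lit 15) (.e (nat_lit 196352) (nat_lit 19) .nil))) .nil)) 
(.lf (nat_lit 12280) (.g (nat_lit 1453) (.e (nat_lit 632) (nat_lit 50) (.e (nat_lit 573484) (nat_lit 13) (.e (nat_lit 65630) (nat_lit 14) (.e (nat_lit 409344) (nat_lit 34) .nil)))) .nil)))))) (.nd (nat_lit 3) (.nd (nat_lit 4) (.nd (nat_lit 5) (.nd (nat_lit 6) 
(.lf (nat_lit 12164) (.g (nat_lit 2571) (.e (nat_lit 618) (nat_lit 48) (.e (nat_lit 557109) (nat_lit 15) (.e (nat_lit 188454) (nat_lit 24) (.e (nat_lit 229558) (nat_lit 158) (.e (nat_lit 1196) (nat_lit 88) (.e (nat_lit 65586) (nat_lit 7) (.e (nat_lit 319500) (nat_lit 10) .nil))))))) (.g (nat_lit 4) .nil .nil))) 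
(.lf (nat_lit 12228) (.g (nat_lit 4009) (.e (nat_lit 7936) (nat_lit 48) (.e (nat_lit 557109) (nat_lit 15) (.e (nat_lit 188452) (nat_lit 23) (.e (nat_lit 204881) (nat_lit 32) .nil)))) .nil))) (.nd (nat_lit 6) 
(.lf (nat_lit 12196) (.g (nat_lit 6237) (.e (nat_lit 619) (nat_lit 48) (.e (nat_lit 557109) (nat_lit 15) (.e (nat_lit 188452) (nat_lit 23) (.e (nat_lit 204880) (nat_lit 32) (.e (nat_lit 385114) (nat_lit 53) .nil))))) .nil)) 
(.lf (nat_lit 12260) (.g (nat_lit 2571) (.e (nat_lit 632) (nat_lit 50) (.e (nat_lit 573475) (nat_lit 12) (.e (nat_lit 57520) (nat_lit 44) (.e (nat_lit 688178) (nat_lit 16) (.e (nat_lit 65569) (nat_lit 3) (.e (nat_lit 98359) (nat_lit 26) (.e (nat_lit 426171) (nat_lit 7) (.e (nat_lit 409612) (nat_lit 10) .nil)))))))) (.g (nat_lit 4) .nil .nil))))) (.nd (nat_lit 5) (.nd (nat_lit 6) 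
(.lf (nat_lit 12180) (.g (nat_lit 2403) (.e (nat_lit 618) (nat_lit 48) (.e (nat_lit 557109) (nat_lit 15) (.e (nat_lit 188461) (nat_lit 26) (.e (nat_lit 254008) (nat_lit 14) (.e (nat_lit 1359) (nat_lit 102) (.e (nat_lit 286740) (nat_lit 7) (.e (nat_lit 319504) (nat_lit 10) .nil))))))) (.g (nat_lit 4) .nil .nil))) 
(.lf (nat_lit 12244) (.g (nat_lit 3162) (.e (nat_lit 632) (nat_lit 50) (.e (nat_lit 573475) (nat_lit 12) (.e (nat_lit 57520) (nat_lit 44) (.e (nat_lit 688177) (nat_lit 16) (.e (nat_lit 65569) (nat_lit 3) (.e (nat_lit 98359) (nat_lit 26) (.e (nat_lit 426171) (nat_lit 7) (.e (nat_lit 409611) (nat_lit 10) .nil)))))))) (.g (nat_lit 5) .nil .nil)))) (.nd (nat_lit 6) 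
(.lf (nat_lit 12212) (.g (nat_lit 3499) (.e (nat_lit 622) (nat_lit 48) (.e (nat_lit 557108) (nat_lit 15) (.e (nat_lit 188452) (nat_lit 23) (.e (nat_lit 204880) (nat_lit 32) .nil)))) .nil)) 
(.lf (nat_lit 12276) (.g (nat_lit 1379) (.e (nat_lit 632) (nat_lit 50) (.e (nat_lit 573482) (nat_lit 13) (.e (nat_lit 65609) (nat_lit 10) (.e (nat_lit 344183) (nat_lit 49) (.e (nat_lit 819219) (nat_lit 4) .nil))))) .nil))))) (.nd (nat_lit 4) (.nd (nat_lit 5) (.nd (nat_lit 6) 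
(.lf (nat_lit 12172) (.g (nat_lit 2183) (.e (nat_lit 618) (nat_lit 48) (.e (nat_lit 557109) (nat_lit 15) (.e (nat_lit 188461) (nat_lit 26) (.e (nat_lit 254007) (nat_lit 14) (.e (nat_lit 1359) (nat_lit 102) (.e (nat_lit 286740) (nat_lit 7) (.e (nat_lit 319500) (nat_lit 10) .nil))))))) (.g (nat_lit 4) .nil .nil))) 
(.lf (nat_lit 12236) (.g (nat_lit 4700) (.e (nat_lit 632) (nat_lit 50) (.e (nat_lit 573473) (nat_lit 12) (.e (nat_lit 57521) (nat_lit 44) (.e (nat_lit 688177) (nat_lit 16) (.e (nat_lit 65571) (nat_lit 3) (.e (nat_lit 98359) (nat_lit 26) (.e (nat_lit 426173) (nat_lit 7) (.e (nat_lit 409617) (nat_lit 10) .nil)))))))) (.g (nat_lit 7) .nil .nil)))) (.nd (nat_lit 6) 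
(.lf (nat_lit 12204) (.g (nat_lit 1467) (.e (nat_lit 621) (nat_lit 48) (.e (nat_lit 557067) (nat_lit 9) (.e (nat_lit 3022) (nat_lit 187) (.e (nat_lit 450605) (nat_lit 27) .nil)))) .nil)) 
(.lf (nat_lit 12268) (.g (nat_lit 2709) (.e (nat_lit 632) (nat_lit 50) (.e (nat_lit 573475) (nat_lit 12) (.e (nat_lit 57521) (nat_lit 44) (.e (nat_lit 688177) (nat_lit 16) (.e (nat_lit 65571) (nat_lit 3) (.e (nat_lit 98359) (nat_lit 26) (.e (nat_lit 426173) (nat_lit 7) (.e (nat_lit 409617) (nat_lit 10) .nil)))))))) (.g (nat_lit 4) .nil .nil))))) (.nd (nat_lit 5) (.nd (nat_lit 6) 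
(.lf (nat_lit 12188) (.g (nat_lit 2682) (.e (nat_lit 619) (nat_lit 48) (.e (nat_lit 557105) (nat_lit 14) (.e (nat_lit 180252) (nat_lit 10) (.e (nat_lit 573488) (nat_lit 14) .nil)))) .nil)) 
(.lf (nat_lit 12252) (.g (nat_lit 5536) (.e (nat_lit 632) (nat_lit 50) (.e (nat_lit 573475) (nat_lit 12) (.e (nat_lit 57520) (nat_lit 44) (.e (nat_lit 688177) (nat_lit 16) (.e (nat_lit 65571) (nat_lit 3) (.e (nat_lit 98359) (nat_lit 26) (.e (nat_lit 426171) (nat_lit 7) (.e (nat_lit 409612) (nat_lit 10) .nil)))))))) (.g (nat_lit 7) .nil .nil)))) (.nd (nat_lit 6) 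
(.lf (nat_lit 12220) (.g (nat_lit 1070) (.e (nat_lit 7936) (nat_lit 48) (.e (nat_lit 557100) (nat_lit 13) (.e (nat_lit 172106) (nat_lit 10) (.e (nat_lit 434231) (nat_lit 23) .nil)))) .nil)) 
(.lf (nat_lit 12284) (.g (nat_lit 2147) (.e (nat_lit 632) (nat_lit 50) (.e (nat_lit 573489) (nat_lit 14) (.e (nat_lit 73755) (nat_lit 8) (.e (nat_lit 557104) (nat_lit 14) (.e (nat_lit 180252) (nat_lit 10) .nil))))) .nil))))))) (.nd (nat_lit 2) (.nd (nat_lit 3) (.nd (nat_lit 4) (.nd (nat_lit 5) (.nd (nat_lit 6) 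
(.lf (nat_lit 12162) (.g (nat_lit 1499) (.e (nat_lit 618) (nat_lit 48) (.e (nat_lit 557109) (nat_lit 15) (.e (nat_lit 188453) (nat_lit 24) (.e (nat_lit 237312) (nat_lit 146) .nil)))) .nil)) 
(.lf (nat_lit 12226) (.g (nat_lit 2003) (.e (nat_lit 7936) (nat_lit 48) (.e (nat_lit 557109) (nat_lit 15) (.e (nat_lit 188452) (nat_lit 23) (.e (nat_lit 204863) (nat_lit 27) .nil)))) .nil))) (.nd (nat_lit 6) 
(.lf (nat_lit 12194) (.g (nat_lit 4178) (.e (nat_lit 619) (nat_lit 48) (.e (nat_lit 557109) (nat_lit 15) (.e (nat_lit 188452) (nat_lit 23) (.e (nat_lit 204852) (nat_lit 26) .nil)))) .nil)) 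
(.lf (nat_lit 12258) (.g (nat_lit 2866) (.e (nat_lit 632) (nat_lit 50) (.e (nat_lit 573475) (nat_lit 12) (.e (nat_lit 57520) (nat_lit 44) (.e (nat_lit 688177) (nat_lit 16) (.e (nat_lit 65571) (nat_lit 3) (.e (nat_lit 98362) (nat_lit 26) (.e (nat_lit 426173) (nat_lit 7) (.e (nat_lit 409617) (nat_lit 10) .nil)))))))) (.g (nat_lit 4) .nil .nil))))) (.nd (nat_lit 5) (.nd (nat_lit 6) 
(.lf (nat_lit 12178) (.g (nat_lit 2313) (.e (nat_lit 618) (nat_lit 48) (.e (nat_lit 557109) (nat_lit 15) (.e (nat_lit 188461) (nat_lit 26) (.e (nat_lit 254008) (nat_lit 14) (.e (nat_lit 1359) (nat_lit 102) (.e (nat_lit 286739) (nat_lit 7) (.e (nat_lit 319503) (nat_lit 10) .nil))))))) (.g (nat_lit 4) .nil .nil))) 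
(.lf (nat_lit 12242) (.g (nat_lit 4584) (.e (nat_lit 632) (nat_lit 50) (.e (nat_lit 573475) (nat_lit 12) (.e (nat_lit 57520) (nat_lit 44) (.e (nat_lit 688177) (nat_lit 16) (.e (nat_lit 65568) (nat_lit 2) (.e (nat_lit 90170) (nat_lit 13) (.e (nat_lit 172082) (nat_lit 7) (.e (nat_lit 409612) (nat_lit 10) .nil)))))))) (.g (nat_lit 6) .nil .nil)))) (.nd (nat_lit 6) 
(.lf (nat_lit 12210) (.g (nat_lit 3564) (.e (nat_lit 622) (nat_lit 48) (.e (nat_lit 557108) (nat_lit 15) (.e (nat_lit 188452) (nat_lit 23) (.e (nat_lit 204852) (nat_lit 26) .nil)))) .nil)) 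
(.lf (nat_lit 12274) (.g (nat_lit 1182) (.e (nat_lit 632) (nat_lit 50) (.e (nat_lit 573479) (nat_lit 13) (.e (nat_lit 65619) (nat_lit 10) (.e (nat_lit 344183) (nat_lit 49) (.e (nat_lit 819219) (nat_lit 4) .nil))))) .nil))))) (.nd (nat_lit 4) (.nd (nat_lit 5) (.nd (nat_lit 6) 
(.lf (nat_lit 12170) (.g (nat_lit 2056) (.e (nat_lit 618) (nat_lit 48) (.e (nat_lit 557109) (nat_lit 15) (.e (nat_lit 188461) (nat_lit 26) (.e (nat_lit 254007) (nat_lit 14) (.e (nat_lit 1349) (nat_lit 102) (.e (nat_lit 286739) (nat_lit 7) (.e (nat_lit 319504) (nat_lit 10) .nil))))))) (.g (nat_lit 4) .nil .nil))) 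
(.lf (nat_lit 12234) (.g (nat_lit 3199) (.e (nat_lit 632) (nat_lit 50) (.e (nat_lit 573473) (nat_lit 12) (.e (nat_lit 57521) (nat_lit 44) (.e (nat_lit 688177) (nat_lit 16) (.e (nat_lit 65571) (nat_lit 3) (.e (nat_lit 98354) (nat_lit 26) (.e (nat_lit 426173) (nat_lit 7) (.e (nat_lit 409617) (nat_lit 10) .nil)))))))) (.g (nat_lit 5) .nil .nil)))) (.nd (nat_lit 6) 
(.lf (nat_lit 12202) (.g (nat_lit 4359) (.e (nat_lit 620) (nat_lit 48) (.e (nat_lit 557109) (nat_lit 15) (.e (nat_lit 188452) (nat_lit 23) (.e (nat_lit 204880) (nat_lit 32) .nil)))) .nil)) 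
(.lf (nat_lit 12266) (.g (nat_lit 2695) (.e (nat_lit 632) (nat_lit 50) (.e (nat_lit 573475) (nat_lit 12) (.e (nat_lit 57521) (nat_lit 44) (.e (nat_lit 688177) (nat_lit 16) (.e (nat_lit 65569) (nat_lit 3) (.e (nat_lit 98359) (nat_lit 26) (.e (nat_lit 426171) (nat_lit 7) (.e (nat_lit 409617) (nat_lit 10) .nil)))))))) (.g (nat_lit 4) .nil .nil))))) (.nd (nat_lit 5) (.nd (nat_lit 6) 
(.lf (nat_lit 12186) (.g (nat_lit 3761) (.e (nat_lit 619) (nat_lit 48) (.e (nat_lit 557105) (nat_lit 14) (.e (nat_lit 180252) (nat_lit 10) (.e (nat_lit 573482) (nat_lit 13) (.e (nat_lit 65571) (nat_lit 3) .nil))))) .nil)) 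
(.lf (nat_lit 12250) (.g (nat_lit 2749) (.e (nat_lit 632) (nat_lit 50) (.e (nat_lit 573475) (nat_lit 12) (.e (nat_lit 57520) (nat_lit 44) (.e (nat_lit 688177) (nat_lit 16) (.e (nat_lit 65571) (nat_lit 3) (.e (nat_lit 98359) (nat_lit 26) (.e (nat_lit 426170) (nat_lit 7) (.e (nat_lit 409617) (nat_lit 10) .nil)))))))) (.g (nat_lit 4) .nil .nil)))) (.nd (nat_lit 6) 
(.lf (nat_lit 12218) (.g (nat_lit 3630) (.e (nat_lit 623) (nat_lit 48) (.e (nat_lit 557108) (nat_lit 15) (.e (nat_lit 188446) (nat_lit 21) (.e (nat_lit 164196) (nat_lit 158) .nil)))) .nil)) 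
(.lf (nat_lit 12282) (.g (nat_lit 1224) (.e (nat_lit 632) (nat_lit 50) (.e (nat_lit 573485) (nat_lit 13) (.e (nat_lit 65628) (nat_lit 14) (.e (nat_lit 409344) (nat_lit 34) .nil)))) .nil)))))) (.nd (nat_lit 3) (.nd (nat_lit 4) (.nd (nat_lit 5) (.nd (nat_lit 6) 
(.lf (nat_lit 12166) (.g (nat_lit 3639) (.e (nat_lit 618) (nat_lit 48) (.e (nat_lit 557109) (nat_lit 15) (.e (nat_lit 188455) (nat_lit 24) (.e (nat_lit 229558) (nat_lit 158) (.e (nat_lit 1196) (nat_lit 88) (.e (nat_lit 65586) (nat_lit 7) (.e (nat_lit 319500) (nat_lit 10) .nil))))))) (.g (nat_lit 6) .nil .nil))) 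
(.lf (nat_lit 12230) (.g (nat_lit 1467) (.e (nat_lit 632) (nat_lit 50) (.e (nat_lit 573451) (nat_lit 9) (.e (nat_lit 1595) (nat_lit 111) (.e (nat_lit 360493) (nat_lit 27) .nil)))) .nil))) (.nd (nat_lit 6) 
(.lf (nat_lit 12198) (.g (nat_lit 2681) (.e (nat_lit 620) (nat_lit 48) (.e (nat_lit 557105) (nat_lit 14) (.e (nat_lit 180252) (nat_lit 10) (.e (nat_lit 573481) (nat_lit 13) .nil)))) .nil)) 
(.lf (nat_lit 12262) (.g (nat_lit 3385) (.e (nat_lit 632) (nat_lit 50) (.e (nat_lit 573475) (nat_lit 12) (.e (nat_lit 57520) (nat_lit 44) (.e (nat_lit 688178) (nat_lit 16) (.e (nat_lit 65571) (nat_lit 3) (.e (nat_lit 98359) (nat_lit 26) (.e (nat_lit 426171) (nat_lit 7) (.e (nat_lit 409617) (nat_lit 10) .nil)))))))) (.g (nat_lit 5) .nil .nil))))) (.nd (nat_lit 5) (.nd (nat_lit 6) 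
(.lf (nat_lit 12182) (.g (nat_lit 1514) (.e (nat_lit 619) (nat_lit 48) (.e (nat_lit 557105) (nat_lit 14) (.e (nat_lit 180251) (nat_lit 10) (.e (nat_lit 573485) (nat_lit 13) .nil)))) .nil)) 
(.lf (nat_lit 12246) (.g (nat_lit 2601) (.e (nat_lit 632) (nat_lit 50) (.e (nat_lit 573475) (nat_lit 12) (.e (nat_lit 57520) (nat_lit 44) (.e (nat_lit 688177) (nat_lit 16) (.e (nat_lit 65569) (nat_lit 3) (.e (nat_lit 98359) (nat_lit 26) (.e (nat_lit 426171) (nat_lit 7) (.e (nat_lit 417536) (nat_lit 10) .nil)))))))) (.g (nat_lit 4) .nil .nil)))) (.nd (nat_lit 6) 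
(.lf (nat_lit 12214) (.g (nat_lit 3373) (.e (nat_lit 622) (nat_lit 48) (.e (nat_lit 557108) (nat_lit 15) (.e (nat_lit 188452) (nat_lit 23) (.e (nat_lit 204881) (nat_lit 32) .nil)))) .nil)) 
(.lf (nat_lit 12278) (.g (nat_lit 1781) (.e (nat_lit 632) (nat_lit 50) (.e (nat_lit 573482) (nat_lit 13) (.e (nat_lit 65619) (nat_lit 10) (.e (nat_lit 344183) (nat_lit 49) (.e (nat_lit 819219) (nat_lit 4) .nil))))) .nil))))) (.nd (nat_lit 4) (.nd (nat_lit 5) (.nd (nat_lit 6) 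
(.lf (nat_lit 12174) (.g (nat_lit 2237) (.e (nat_lit 618) (nat_lit 48) (.e (nat_lit 557109) (nat_lit 15) (.e (nat_lit 188461) (nat_lit 26) (.e (nat_lit 254008) (nat_lit 14) (.e (nat_lit 1348) (nat_lit 102) (.e (nat_lit 286739) (nat_lit 7) (.e (nat_lit 319505) (nat_lit 10) .nil))))))) (.g (nat_lit 4) .nil .nil))) 
(.lf (nat_lit 12238) (.g (nat_lit 999) (.e (nat_lit 632) (nat_lit 50) (.e (nat_lit 573475) (nat_lit 12) (.e (nat_lit 57520) (nat_lit 44) (.e (nat_lit 688177) (nat_lit 16) .nil)))) .nil))) (.nd (nat_lit 6) 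
(.lf (nat_lit 12206) (.g (nat_lit 1218) (.e (nat_lit 621) (nat_lit 48) (.e (nat_lit 557108) (nat_lit 15) (.e (nat_lit 188446) (nat_lit 21) .nil))) .nil)) 
(.lf (nat_lit 12270) (.g (nat_lit 2984) (.e (nat_lit 632) (nat_lit 50) (.e (nat_lit 573478) (nat_lit 12) (.e (nat_lit 57520) (nat_lit 44) (.e (nat_lit 688177) (nat_lit 16) (.e (nat_lit 65571) (nat_lit 3) (.e (nat_lit 98354) (nat_lit 26) (.e (nat_lit 426173) (nat_lit 7) (.e (nat_lit 409617) (nat_lit 10) .nil)))))))) (.g (nat_lit 5) .nil .nil))))) (.nd (nat_lit 5) (.nd (nat_lit 6) 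
(.lf (nat_lit 12190) (.g (nat_lit 2082) (.e (nat_lit 619) (nat_lit 48) (.e (nat_lit 557105) (nat_lit 14) (.e (nat_lit 180252) (nat_lit 10) (.e (nat_lit 573489) (nat_lit 14) .nil)))) .nil)) 
(.lf (nat_lit 12254) (.g (nat_lit 4727) (.e (nat_lit 632) (nat_lit 50) (.e (nat_lit 573475) (nat_lit 12) (.e (nat_lit 57520) (nat_lit 44) (.e (nat_lit 688177) (nat_lit 16) (.e (nat_lit 65571) (nat_lit 3) (.e (nat_lit 98359) (nat_lit 26) (.e (nat_lit 426171) (nat_lit 7) (.e (nat_lit 409616) (nat_lit 10) .nil)))))))) (.g (nat_lit 6) .nil .nil)))) (.nd (nat_lit 6) 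
(.lf (nat_lit 12222) (.g (nat_lit 2798) (.e (nat_lit 7936) (nat_lit 48) (.e (nat_lit 557109) (nat_lit 15) (.e (nat_lit 188450) (nat_lit 23) (.e (nat_lit 204880) (nat_lit 32) .nil)))) .nil)) 
(.lf (nat_lit 12286) (.g (nat_lit 2939) (.e (nat_lit 658) (nat_lit 54) (.e (nat_lit 606221) (nat_lit 3) (.e (nat_lit 57476) (nat_lit 28) (.e (nat_lit 557108) (nat_lit 15) (.e (nat_lit 188452) (nat_lit 23) (.e (nat_lit 204846) (nat_lit 24) (.e (nat_lit 319504) (nat_lit 10) .nil))))))) (.g (nat_lit 7) .nil .nil))))))))) 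
(.nd (nat_lit 1) (.nd (nat_lit 2) (.nd (nat_lit 3) (.nd (nat_lit 4) (.nd (nat_lit 5) 
(.nd (nat_lit 6) 
(.lf (nat_lit 12161) (.g (nat_lit 844) (.e (nat_lit 618) (nat_lit 48) (.e (nat_lit 557109) (nat_lit 15) (.e (nat_lit 188453) (nat_lit 24) .nil))) .nil)) 
(.lf (nat_lit 12225) (.g (nat_lit 2531) (.e (nat_lit 7936) (nat_lit 48) (.e (nat_lit 557109) (nat_lit 15) (.e (nat_lit 188452) (nat_lit 23) (.e (nat_lit 204862) (nat_lit 27) .nil)))) .nil))) (.nd (nat_lit 6) 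
(.lf (nat_lit 12193) (.g (nat_lit 927) (.e (nat_lit 619) (nat_lit 48) (.e (nat_lit 557109) (nat_lit 15) (.e (nat_lit 188434) (nat_lit 20) .nil))) .nil)) 
(.lf (nat_lit 12257) (.g (nat_lit 3178) (.e (nat_lit 632) (nat_lit 50) (.e (nat_lit 573475) (nat_lit 12) (.e (nat_lit 57520) (nat_lit 44) (.e (nat_lit 688177) (nat_lit 16) (.e (nat_lit 65571) (nat_lit 3) (.e (nat_lit 98360) (nat_lit 26) (.e (nat_lit 426173) (nat_lit 7) (.e (nat_lit 409617) (nat_lit 10) .nil)))))))) (.g (nat_lit 5) .nil .nil))))) (.nd (nat_lit 5) (.nd (nat_lit 6) 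
(.lf (nat_lit 12177) (.g (nat_lit 3171) (.e (nat_lit 618) (nat_lit 48) (.e (nat_lit 557109) (nat_lit 15) (.e (nat_lit 188461) (nat_lit 26) (.e (nat_lit 254008) (nat_lit 14) (.e (nat_lit 1359) (nat_lit 102) (.e (nat_lit 286739) (nat_lit 7) (.e (nat_lit 319500) (nat_lit 10) .nil))))))) (.g (nat_lit 5) .nil .nil))) 
(.lf (nat_lit 12241) (.g (nat_lit 5107) (.e (nat_lit 632) (nat_lit 50) (.e (nat_lit 573475) (nat_lit 12) (.e (nat_lit 57520) (nat_lit 44) (.e (nat_lit 688177) (nat_lit 16) (.e (nat_lit 65568) (nat_lit 2) (.e (nat_lit 90170) (nat_lit 13) (.e (nat_lit 172079) (nat_lit 7) (.e (nat_lit 409611) (nat_lit 10) .nil)))))))) (.g (nat_lit 7) .nil .nil)))) (.nd (nat_lit 6) 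
(.lf (nat_lit 12209) (.g (nat_lit 1010) (.e (nat_lit 622) (nat_lit 48) (.e (nat_lit 557108) (nat_lit 15) (.e (nat_lit 188446) (nat_lit 21) .nil))) .nil)) 
(.lf (nat_lit 12273) (.g (nat_lit 850) (.e (nat_lit 632) (nat_lit 50) (.e (nat_lit 573478) (nat_lit 12) (.e (nat_lit 57520) (nat_lit 44) (.e (nat_lit 688178) (nat_lit 16) .nil)))) .nil))))) (.nd (nat_lit 4) (.nd (nat_lit 5) (.nd (nat_lit 6) 
(.lf (nat_lit 12169) (.g (nat_lit 3118) (.e (nat_lit 618) (nat_lit 48) (.e (nat_lit 557109) (nat_lit 15) (.e (nat_lit 188461) (nat_lit 26) (.e (nat_lit 254007) (nat_lit 14) (.e (nat_lit 1348) (nat_lit 102) (.e (nat_lit 286739) (nat_lit 7) (.e (nat_lit 319505) (nat_lit 10) .nil))))))) (.g (nat_lit 5) .nil .nil))) 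
(.lf (nat_lit 12233) (.g (nat_lit 3554) (.e (nat_lit 632) (nat_lit 50) (.e (nat_lit 573473) (nat_lit 12) (.e (nat_lit 57521) (nat_lit 44) (.e (nat_lit 688177) (nat_lit 16) (.e (nat_lit 65569) (nat_lit 3) (.e (nat_lit 98359) (nat_lit 26) (.e (nat_lit 426173) (nat_lit 7) (.e (nat_lit 409617) (nat_lit 10) .nil)))))))) (.g (nat_lit 6) .nil .nil)))) (.nd (nat_lit 6) 
(.lf (nat_lit 12201) (.g (nat_lit 4419) (.e (nat_lit 620) (nat_lit 48) (.e (nat_lit 557109) (nat_lit 15) (.e (nat_lit 188452) (nat_lit 23) (.e (nat_lit 204852) (nat_lit 26) .nil)))) .nil)) 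
(.lf (nat_lit 12265) (.g (nat_lit 2155) (.e (nat_lit 632) (nat_lit 50) (.e (nat_lit 573475) (nat_lit 12) (.e (nat_lit 57521) (nat_lit 44) (.e (nat_lit 688177) (nat_lit 16) (.e (nat_lit 65569) (nat_lit 3) (.e (nat_lit 98359) (nat_lit 26) (.e (nat_lit 426171) (nat_lit 7) (.e (nat_lit 409612) (nat_lit 10) .nil)))))))) (.g (nat_lit 4) .nil .nil))))) (.nd (nat_lit 5) (.nd (nat_lit 6) 
(.lf (nat_lit 12185) (.g (nat_lit 2683) (.e (nat_lit 619) (nat_lit 48) (.e (nat_lit 557105) (nat_lit 14) (.e (nat_lit 180252) (nat_lit 10) (.e (nat_lit 573482) (nat_lit 13) .nil)))) .nil)) 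
(.lf (nat_lit 12249) (.g (nat_lit 3916) (.e (nat_lit 632) (nat_lit 50) (.e (nat_lit 573475) (nat_lit 12) (.e (nat_lit 57520) (nat_lit 44) (.e (nat_lit 688177) (nat_lit 16) (.e (nat_lit 65571) (nat_lit 3) (.e (nat_lit 98354) (nat_lit 26) (.e (nat_lit 426173) (nat_lit 7) (.e (nat_lit 409617) (nat_lit 10) .nil)))))))) (.g (nat_lit 5) .nil .nil)))) (.nd (nat_lit 6) 
(.lf (nat_lit 12217) (.g (nat_lit 1273) (.e (nat_lit 623) (nat_lit 48) (.e (nat_lit 557108) (nat_lit 15) (.e (nat_lit 188434) (nat_lit 20) .nil))) .nil)) 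
(.lf (nat_lit 12281) (.g (nat_lit 1669) (.e (nat_lit 632) (nat_lit 50) (.e (nat_lit 573485) (nat_lit 13) (.e (nat_lit 65619) (nat_lit 10) (.e (nat_lit 344183) (nat_lit 49) (.e (nat_lit 819219) (nat_lit 4) .nil))))) .nil)))))) (.nd (nat_lit 3) (.nd (nat_lit 4) (.nd (nat_lit 5) (.nd (nat_lit 6) 
(.lf (nat_lit 12165) (.g (nat_lit 2350) (.e (nat_lit 618) (nat_lit 48) (.e (nat_lit 557109) (nat_lit 15) (.e (nat_lit 188454) (nat_lit 24) (.e (nat_lit 229558) (nat_lit 158) (.e (nat_lit 1196) (nat_lit 88) (.e (nat_lit 65586) (nat_lit 7) (.e (nat_lit 319505) (nat_lit 10) .nil))))))) (.g (nat_lit 4) .nil .nil))) 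
(.lf (nat_lit 12229) (.g (nat_lit 3784) (.e (nat_lit 630) (nat_lit 50) (.e (nat_lit 573474) (nat_lit 12) (.e (nat_lit 57520) (nat_lit 44) (.e (nat_lit 688177) (nat_lit 16) (.e (nat_lit 65566) (nat_lit 2) (.e (nat_lit 90170) (nat_lit 13) (.e (nat_lit 172079) (nat_lit 7) (.e (nat_lit 409611) (nat_lit 10) .nil)))))))) (.g (nat_lit 6) .nil .nil)))) (.nd (nat_lit 6) 
(.lf (nat_lit 12197) (.g (nat_lit 4284) (.e (nat_lit 619) (nat_lit 48) (.e (nat_lit 557109) (nat_lit 15) (.e (nat_lit 188452) (nat_lit 23) (.e (nat_lit 204881) (nat_lit 32) .nil)))) .nil)) 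
(.lf (nat_lit 12261) (.g (nat_lit 3059) (.e (nat_lit 632) (nat_lit 50) (.e (nat_lit 573475) (nat_lit 12) (.e (nat_lit 57520) (nat_lit 44) (.e (nat_lit 688178) (nat_lit 16) (.e (nat_lit 65571) (nat_lit 3) (.e (nat_lit 98359) (nat_lit 26) (.e (nat_lit 426171) (nat_lit 7) (.e (nat_lit 409612) (nat_lit 10) .nil)))))))) (.g (nat_lit 5) .nil .nil))))) (.nd (nat_lit 5) (.nd (nat_lit 6) 
(.lf (nat_lit 12181) (.g (nat_lit 2790) (.e (nat_lit 619) (nat_lit 48) (.e (nat_lit 557100) (nat_lit 13) (.e (nat_lit 172106) (nat_lit 10) (.e (nat_lit 434231) (nat_lit 23) (.e (nat_lit 532563) (nat_lit 15) .nil))))) .nil)) 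
(.lf (nat_lit 12245) (.g (nat_lit 3682) (.e (nat_lit 632) (nat_lit 50) (.e (nat_lit 573475) (nat_lit 12) (.e (nat_lit 57520) (nat_lit 44) (.e (nat_lit 688177) (nat_lit 16) (.e (nat_lit 65569) (nat_lit 3) (.e (nat_lit 98359) (nat_lit 26) (.e (nat_lit 426171) (nat_lit 7) (.e (nat_lit 409615) (nat_lit 10) .nil)))))))) (.g (nat_lit 5) .nil .nil)))) (.nd (nat_lit 6) 
(.lf (nat_lit 12213) (.g (nat_lit 5293) (.e (nat_lit 622) (nat_lit 48) (.e (nat_lit 557108) (nat_lit 15) (.e (nat_lit 188452) (nat_lit 23) (.e (nat_lit 204880) (nat_lit 32) (.e (nat_lit 385114) (nat_lit 53) .nil))))) .nil)) 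
(.lf (nat_lit 12277) (.g (nat_lit 2027) (.e (nat_lit 632) (nat_lit 50) (.e (nat_lit 573482) (nat_lit 13) (.e (nat_lit 65619) (nat_lit 10) (.e (nat_lit 344090) (nat_lit 18) (.e (nat_lit 7708) (nat_lit 414) .nil))))) .nil))))) (.nd (nat_lit 4) (.nd (nat_lit 5) (.nd (nat_lit 6) 
(.lf (nat_lit 12173) (.g (nat_lit 2249) (.e (nat_lit 618) (nat_lit 48) (.e (nat_lit 557109) (nat_lit 15) (.e (nat_lit 188461) (nat_lit 26) (.e (nat_lit 254007) (nat_lit 14) (.e (nat_lit 1368) (nat_lit 103) (.e (nat_lit 294935) (nat_lit 7) (.e (nat_lit 319505) (nat_lit 10) .nil))))))) (.g (nat_lit 4) .nil .nil))) 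
(.lf (nat_lit 12237) (.g (nat_lit 2515) (.e (nat_lit 632) (nat_lit 50) (.e (nat_lit 573475) (nat_lit 12) (.e (nat_lit 57520) (nat_lit 44) (.e (nat_lit 688174) (nat_lit 16) (.e (nat_lit 65571) (nat_lit 3) (.e (nat_lit 98359) (nat_lit 26) (.e (nat_lit 426171) (nat_lit 7) (.e (nat_lit 409612) (nat_lit 10) .nil)))))))) (.g (nat_lit 4) .nil .nil)))) (.nd (nat_lit 6) 
(.lf (nat_lit 12205) (.g (nat_lit 1465) (.e (nat_lit 621) (nat_lit 48) (.e (nat_lit 557100) (nat_lit 13) (.e (nat_lit 172113) (nat_lit 10) (.e (nat_lit 434295) (nat_lit 49) .nil)))) .nil)) 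
(.lf (nat_lit 12269) (.g (nat_lit 2778) (.e (nat_lit 632) (nat_lit 50) (.e (nat_lit 573478) (nat_lit 12) (.e (nat_lit 57520) (nat_lit 44) (.e (nat_lit 688177) (nat_lit 16) (.e (nat_lit 65569) (nat_lit 3) (.e (nat_lit 98359) (nat_lit 26) (.e (nat_lit 426171) (nat_lit 7) (.e (nat_lit 409615) (nat_lit 10) .nil)))))))) (.g (nat_lit 5) .nil .nil))))) (.nd (nat_lit 5) (.nd (nat_lit 6) 
(.lf (nat_lit 12189) (.g (nat_lit 3627) (.e (nat_lit 619) (nat_lit 48) (.e (nat_lit 557105) (nat_lit 14) (.e (nat_lit 180252) (nat_lit 10) (.e (nat_lit 573488) (nat_lit 14) (.e (nat_lit 81664) (nat_lit 5) .nil))))) .nil)) 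
(.lf (nat_lit 12253) (.g (nat_lit 4067) (.e (nat_lit 632) (nat_lit 50) (.e (nat_lit 573475) (nat_lit 12) (.e (nat_lit 57520) (nat_lit 44) (.e (nat_lit 688177) (nat_lit 16) (.e (nat_lit 65571) (nat_lit 3) (.e (nat_lit 98359) (nat_lit 26) (.e (nat_lit 426171) (nat_lit 7) (.e (nat_lit 409615) (nat_lit 10) .nil)))))))) (.g (nat_lit 5) .nil .nil)))) (.nd (nat_lit 6) 
(.lf (nat_lit 12221) (.g (nat_lit 2634) (.e (nat_lit 7936) (nat_lit 48) (.e (nat_lit 557109) (nat_lit 15) (.e (nat_lit 188450) (nat_lit 23) (.e (nat_lit 204863) (nat_lit 27) .nil)))) .nil)) 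
(.lf (nat_lit 12285) (.g (nat_lit 2067) (.e (nat_lit 654) (nat_lit 53) (.e (nat_lit 598036) (nat_lit 7) (.e (nat_lit 57479) (nat_lit 28) (.e (nat_lit 557105) (nat_lit 14) (.e (nat_lit 180252) (nat_lit 10) .nil))))) .nil))))))) (.nd (nat_lit 2) (.nd (nat_lit 3) (.nd (nat_lit 4) (.nd (nat_lit 5) (.nd (nat_lit 6) 
(.lf (nat_lit 12163) (.g (nat_lit 550) (.e (nat_lit 618) (nat_lit 48) (.e (nat_lit 557109) (nat_lit 15) (.e (nat_lit 188454) (nat_lit 24) .nil))) .nil)) 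
(.lf (nat_lit 12227) (.g (nat_lit 3633) (.e (nat_lit 7936) (nat_lit 48) (.e (nat_lit 557109) (nat_lit 15) (.e (nat_lit 188452) (nat_lit 23) (.e (nat_lit 204880) (nat_lit 32) .nil)))) .nil))) (.nd (nat_lit 6) 
(.lf (nat_lit 12195) (.g (nat_lit 4111) (.e (nat_lit 619) (nat_lit 48) (.e (nat_lit 557109) (nat_lit 15) (.e (nat_lit 188452) (nat_lit 23) (.e (nat_lit 204880) (nat_lit 32) .nil)))) .nil)) 
(.lf (nat_lit 12259) (.g (nat_lit 2675) (.e (nat_lit 632) (nat_lit 50) (.e (nat_lit 573475) (nat_lit 12) (.e (nat_lit 57520) (nat_lit 44) (.e (nat_lit 688178) (nat_lit 16) (.e (nat_lit 65568) (nat_lit 2) (.e (nat_lit 90170) (nat_lit 13) (.e (nat_lit 172079) (nat_lit 7) (.e (nat_lit 409611) (nat_lit 10) .nil)))))))) (.g (nat_lit 4) .nil .nil))))) (.nd (nat_lit 5) (.nd (nat_lit 6) 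
(.lf (nat_lit 12179) (.g (nat_lit 2670) (.e (nat_lit 618) (nat_lit 48) (.e (nat_lit 557109) (nat_lit 15) (.e (nat_lit 188461) (nat_lit 26) (.e (nat_lit 254008) (nat_lit 14) (.e (nat_lit 1359) (nat_lit 102) (.e (nat_lit 286740) (nat_lit 7) (.e (nat_lit 319500) (nat_lit 10) .nil))))))) (.g (nat_lit 4) .nil .nil))) 
(.lf (nat_lit 12243) (.g (nat_lit 3088) (.e (nat_lit 632) (nat_lit 50) (.e (nat_lit 573475) (nat_lit 12) (.e (nat_lit 57520) (nat_lit 44) (.e (nat_lit 688177) (nat_lit 16) (.e (nat_lit 65569) (nat_lit 3) (.e (nat_lit 98354) (nat_lit 26) (.e (nat_lit 426173) (nat_lit 7) (.e (nat_lit 409617) (nat_lit 10) .nil)))))))) (.g (nat_lit 5) .nil .nil)))) (.nd (nat_lit 6) 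
(.lf (nat_lit 12211) (.g (nat_lit 4912) (.e (nat_lit 622) (nat_lit 48) (.e (nat_lit 557108) (nat_lit 15) (.e (nat_lit 188452) (nat_lit 23) (.e (nat_lit 204863) (nat_lit 27) .nil)))) .nil)) 
(.lf (nat_lit 12275) (.g (nat_lit 847) (.e (nat_lit 632) (nat_lit 50) (.e (nat_lit 573482) (nat_lit 13) (.e (nat_lit 65558) (nat_lit 0) .nil))) .nil))))) (.nd (nat_lit 4) (.nd (nat_lit 5) (.nd (nat_lit 6) 
(.lf (nat_lit 12171) (.g (nat_lit 2947) (.e (nat_lit 618) (nat_lit 48) (.e (nat_lit 557109) (nat_lit 15) (.e (nat_lit 188461) (nat_lit 26) (.e (nat_lit 254007) (nat_lit 14) (.e (nat_lit 1349) (nat_lit 102) (.e (nat_lit 286739) (nat_lit 7) (.e (nat_lit 319505) (nat_lit 10) .nil))))))) (.g (nat_lit 5) .nil .nil))) 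
(.lf (nat_lit 12235) (.g (nat_lit 4179) (.e (nat_lit 632) (nat_lit 50) (.e (nat_lit 573473) (nat_lit 12) (.e (nat_lit 57521) (nat_lit 44) (.e (nat_lit 688177) (nat_lit 16) (.e (nat_lit 65571) (nat_lit 3) (.e (nat_lit 98359) (nat_lit 26) (.e (nat_lit 426171) (nat_lit 7) (.e (nat_lit 409612) (nat_lit 10) .nil)))))))) (.g (nat_lit 6) .nil .nil)))) (.nd (nat_lit 6) 
(.lf (nat_lit 12203) (.g (nat_lit 4525) (.e (nat_lit 620) (nat_lit 48) (.e (nat_lit 557109) (nat_lit 15) (.e (nat_lit 188452) (nat_lit 23) (.e (nat_lit 204881) (nat_lit 32) .nil)))) .nil)) 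
(.lf (nat_lit 12267) (.g (nat_lit 2628) (.e (nat_lit 632) (nat_lit 50) (.e (nat_lit 573475) (nat_lit 12) (.e (nat_lit 57521) (nat_lit 44) (.e (nat_lit 688177) (nat_lit 16) (.e (nat_lit 65571) (nat_lit 3) (.e (nat_lit 98359) (nat_lit 26) (.e (nat_lit 426171) (nat_lit 7) (.e (nat_lit 409612) (nat_lit 10) .nil)))))))) (.g (nat_lit 4) .nil .nil))))) (.nd (nat_lit 5) (.nd (nat_lit 6) 
(.lf (nat_lit 12187) (.g (nat_lit 2645) (.e (nat_lit 619) (nat_lit 48) (.e (nat_lit 557105) (nat_lit 14) (.e (nat_lit 180252) (nat_lit 10) (.e (nat_lit 573487) (nat_lit 14) .nil)))) .nil)) 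
(.lf (nat_lit 12251) (.g (nat_lit 3547) (.e (nat_lit 632) (nat_lit 50) (.e (nat_lit 573475) (nat_lit 12) (.e (nat_lit 57520) (nat_lit 44) (.e (nat_lit 688177) (nat_lit 16) (.e (nat_lit 65571) (nat_lit 3) (.e (nat_lit 98359) (nat_lit 26) (.e (nat_lit 426171) (nat_lit 7) (.e (nat_lit 409611) (nat_lit 10) .nil)))))))) (.g (nat_lit 5) .nil .nil)))) (.nd (nat_lit 6) 
(.lf (nat_lit 12219) (.g (nat_lit 1189) (.e (nat_lit 623) (nat_lit 48) (.e (nat_lit 557108) (nat_lit 15) (.e (nat_lit 188452) (nat_lit 23) .nil))) .nil)) 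
(.lf (nat_lit 12283) (.g (nat_lit 2014) (.e (nat_lit 632) (nat_lit 50) (.e (nat_lit 573489) (nat_lit 14) (.e (nat_lit 73755) (nat_lit 8) (.e (nat_lit 557103) (nat_lit 14) (.e (nat_lit 180250) (nat_lit 10) .nil))))) .nil)))))) (.nd (nat_lit 3) (.nd (nat_lit 4) (.nd (nat_lit 5) (.nd (nat_lit 6) 
(.lf (nat_lit 12167) (.g (nat_lit 425) (.e (nat_lit 618) (nat_lit 48) (.e (nat_lit 557109) (nat_lit 15) (.e (nat_lit 188461) (nat_lit 26) .nil))) .nil)) 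
(.lf (nat_lit 12231) (.g (nat_lit 458) (.e (nat_lit 632) (nat_lit 50) (.e (nat_lit 573473) (nat_lit 12) (.e (nat_lit 57521) (nat_lit 44) .nil))) .nil))) (.nd (nat_lit 6) 
(.lf (nat_lit 12199) (.g (nat_lit 2682) (.e (nat_lit 620) (nat_lit 48) (.e (nat_lit 557105) (nat_lit 14) (.e (nat_lit 180252) (nat_lit 10) (.e (nat_lit 573488) (nat_lit 14) .nil)))) .nil)) 
(.lf (nat_lit 12263) (.g (nat_lit 2441) (.e (nat_lit 632) (nat_lit 50) (.e (nat_lit 573475) (nat_lit 12) (.e (nat_lit 57521) (nat_lit 44) (.e (nat_lit 688177) (nat_lit 16) (.e (nat_lit 65566) (nat_lit 2) (.e (nat_lit 90170) (nat_lit 13) (.e (nat_lit 172079) (nat_lit 7) (.e (nat_lit 409611) (nat_lit 10) .nil)))))))) (.g (nat_lit 4) .nil .nil))))) (.nd (nat_lit 5) (.nd (nat_lit 6) 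
(.lf (nat_lit 12183) (.g (nat_lit 2681) (.e (nat_lit 619) (nat_lit 48) (.e (nat_lit 557105) (nat_lit 14) (.e (nat_lit 180252) (nat_lit 10) (.e (nat_lit 573481) (nat_lit 13) .nil)))) .nil)) 
(.lf (nat_lit 12247) (.g (nat_lit 2862) (.e (nat_lit 632) (nat_lit 50) (.e (nat_lit 573475) (nat_lit 12) (.e (nat_lit 57520) (nat_lit 44) (.e (nat_lit 688177) (nat_lit 16) (.e (nat_lit 65569) (nat_lit 3) (.e (nat_lit 98359) (nat_lit 26) (.e (nat_lit 426173) (nat_lit 7) (.e (nat_lit 409616) (nat_lit 10) .nil)))))))) (.g (nat_lit 4) .nil .nil)))) (.nd (nat_lit 6) 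
(.lf (nat_lit 12215) (.g (nat_lit 1467) (.e (nat_lit 623) (nat_lit 48) (.e (nat_lit 557067) (nat_lit 9) (.e (nat_lit 3022) (nat_lit 187) (.e (nat_lit 450605) (nat_lit 27) .nil)))) .nil)) 
(.lf (nat_lit 12279) (.g (nat_lit 831) (.e (nat_lit 632) (nat_lit 50) (.e (nat_lit 573482) (nat_lit 13) (.e (nat_lit 65643) (nat_lit 21) .nil))) .nil))))) (.nd (nat_lit 4) (.nd (nat_lit 5) (.nd (nat_lit 6) 
(.lf (nat_lit 12175) (.g (nat_lit 2465) (.e (nat_lit 618) (nat_lit 48) (.e (nat_lit 557109) (nat_lit 15) (.e (nat_lit 188461) (nat_lit 26) (.e (nat_lit 254008) (nat_lit 14) (.e (nat_lit 1355) (nat_lit 102) (.e (nat_lit 286740) (nat_lit 7) (.e (nat_lit 319505) (nat_lit 10) .nil))))))) (.g (nat_lit 4) .nil .nil))) 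
(.lf (nat_lit 12239) (.g (nat_lit 5172) (.e (nat_lit 632) (nat_lit 50) (.e (nat_lit 573475) (nat_lit 12) (.e (nat_lit 57520) (nat_lit 44) (.e (nat_lit 688177) (nat_lit 16) (.e (nat_lit 65566) (nat_lit 2) (.e (nat_lit 90170) (nat_lit 13) (.e (nat_lit 172079) (nat_lit 7) (.e (nat_lit 409611) (nat_lit 10) .nil)))))))) (.g (nat_lit 0) .nil .nil)))) (.nd (nat_lit 6) 
(.lf (nat_lit 12207) (.g (nat_lit 582) (.e (nat_lit 622) (nat_lit 48) (.e (nat_lit 557104) (nat_lit 14) (.e (nat_lit 188160) (nat_lit 34) .nil))) .nil)) 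
(.lf (nat_lit 12271) (.g (nat_lit 4767) (.e (nat_lit 632) (nat_lit 50) (.e (nat_lit 573478) (nat_lit 12) (.e (nat_lit 57520) (nat_lit 44) (.e (nat_lit 688177) (nat_lit 16) (.e (nat_lit 65571) (nat_lit 3) (.e (nat_lit 98359) (nat_lit 26) (.e (nat_lit 426171) (nat_lit 7) (.e (nat_lit 409612) (nat_lit 10) .nil)))))))) (.g (nat_lit 7) .nil .nil))))) (.nd (nat_lit 5) (.nd (nat_lit 6) 
(.lf (nat_lit 12191) (.g (nat_lit 3367) (.e (nat_lit 619) (nat_lit 48) (.e (nat_lit 557105) (nat_lit 14) (.e (nat_lit 180252) (nat_lit 10) (.e (nat_lit 573489) (nat_lit 14) (.e (nat_lit 81664) (nat_lit 5) .nil))))) .nil)) 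
(.lf (nat_lit 12255) (.g (nat_lit 2986) (.e (nat_lit 632) (nat_lit 50) (.e (nat_lit 573475) (nat_lit 12) (.e (nat_lit 57520) (nat_lit 44) (.e (nat_lit 688177) (nat_lit 16) (.e (nat_lit 65571) (nat_lit 3) (.e (nat_lit 98359) (nat_lit 26) (.e (nat_lit 426171) (nat_lit 7) (.e (nat_lit 417536) (nat_lit 10) .nil)))))))) (.g (nat_lit 4) .nil .nil)))) (.nd (nat_lit 6) 
(.lf (nat_lit 12223) (.g (nat_lit 5217) (.e (nat_lit 7936) (nat_lit 48) (.e (nat_lit 557109) (nat_lit 15) (.e (nat_lit 188450) (nat_lit 23) (.e (nat_lit 204880) (nat_lit 32) (.e (nat_lit 385114) (nat_lit 53) .nil))))) .nil)) 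
(.lf (nat_lit 12287) (.g (nat_lit 3702) (.e (nat_lit 658) (nat_lit 54) (.e (nat_lit 606222) (nat_lit 3) (.e (nat_lit 57478) (nat_lit 28) (.e (nat_lit 557109) (nat_lit 15) (.e (nat_lit 188452) (nat_lit 23) (.e (nat_lit 204846) (nat_lit 24) (.e (nat_lit 319504) (nat_lit 10) .nil))))))) (.g (nat_lit 7) .nil .nil))))))))))

noncomputable def tv166 : DT := (.nd (nat_lit 0) (.nd (nat_lit 1) (.nd (nat_lit 2) (.nd (nat_lit 3) (.nd (nat_lit 4) (.nd (nat_lit 5) 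
(.lf (nat_lit 12288) (.g (nat_lit 2192) (.e (nat_lit 658) (nat_lit 54) (.e (nat_lit 606223) (nat_lit 3) (.e (nat_lit 57480) (nat_lit 28) (.e (nat_lit 557109) (nat_lit 15) (.e (nat_lit 188452) (nat_lit 23) (.e (nat_lit 204846) (nat_lit 24) (.e (nat_lit 319505) (nat_lit 10) .nil))))))) (.g (nat_lit 5) .nil .nil))) 
(.lf (nat_lit 12320) (.g (nat_lit 4227) (.e (nat_lit 708) (nat_lit 62) (.e (nat_lit 671762) (nat_lit 4) (.e (nat_lit 65629) (nat_lit 14) (.e (nat_lit 401459) (nat_lit 13) (.e (nat_lit 483375) (nat_lit 22) (.e (nat_lit 327682) (nat_lit 0) .nil)))))) (.g (nat_lit 6) .nil .nil)))) (.nd (nat_lit 5) 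
(.lf (nat_lit 12304) (.g (nat_lit 1692) (.e (nat_lit 7936) (nat_lit 61) (.e (nat_lit 663554) (nat_lit 0) (.e (nat_lit 1401) (nat_lit 106) (.e (nat_lit 319531) (nat_lit 16) (.e (nat_lit 286761) (nat_lit 13) .nil))))) .nil)) 
(.lf (nat_lit 12336) (.g (nat_lit 3907) (.e (nat_lit 720) (nat_lit 64) (.e (nat_lit 688147) (nat_lit 13) (.e (nat_lit 1595) (nat_lit 111) (.e (nat_lit 360492) (nat_lit 22) (.e (nat_lit 778466) (nat_lit 11) (.e (nat_lit 24617) (nat_lit 7) (.e (nat_lit 319505) (nat_lit 10) .nil))))))) (.g (nat_lit 0) .nil .nil))))) (.nd (nat_lit 4) (.nd (nat_lit 5) 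
(.lf (nat_lit 12296) (.g (nat_lit 2005) (.e (nat_lit 680) (nat_lit 58) (.e (nat_lit 639020) (nat_lit 16) (.e (nat_lit 65627) (nat_lit 13) (.e (nat_lit 393296) (nat_lit 26) (.e (nat_lit 475219) (nat_lit 44) .nil))))) .nil)) 
(.lf (nat_lit 12328) (.g (nat_lit 1237) (.e (nat_lit 7936) (nat_lit 62) (.e (nat_lit 671762) (nat_lit 4) (.e (nat_lit 65630) (nat_lit 14) (.e (nat_lit 401459) (nat_lit 13) .nil)))) .nil))) (.nd (nat_lit 5) 
(.lf (nat_lit 12312) (.g (nat_lit 3858) (.e (nat_lit 707) (nat_lit 62) (.e (nat_lit 671762) (nat_lit 4) (.e (nat_lit 65630) (nat_lit 14) (.e (nat_lit 401459) (nat_lit 13) (.e (nat_lit 483372) (nat_lit 21) (.e (nat_lit 327424) (nat_lit 0) .nil)))))) (.g (nat_lit 5) .nil .nil))) 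
(.lf (nat_lit 12344) (.g (nat_lit 3975) (.e (nat_lit 720) (nat_lit 64) (.e (nat_lit 688170) (nat_lit 15) (.e (nat_lit 57466) (nat_lit 23) (.e (nat_lit 516131) (nat_lit 3) (.e (nat_lit 221215) (nat_lit 23) (.e (nat_lit 204863) (nat_lit 27) (.e (nat_lit 344115) (nat_lit 20) (.e (nat_lit 507906) (nat_lit 0) .nil)))))))) (.g (nat_lit 0) .nil .nil)))))) 
(.nd (nat_lit 3) (.nd (nat_lit 4) (.nd (nat_lit 5) 
(.lf (nat_lit 12292) (.g (nat_lit 448) (.e (nat_lit 680) (nat_lit 58) (.e (nat_lit 639020) (nat_lit 16) (.e (nat_lit 65627) (nat_lit 13) .nil))) .nil)) 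
(.lf (nat_lit 12324) (.g (nat_lit 4345) (.e (nat_lit 710) (nat_lit 62) (.e (nat_lit 671762) (nat_lit 4) (.e (nat_lit 65629) (nat_lit 14) (.e (nat_lit 401459) (nat_lit 13) (.e (nat_lit 483375) (nat_lit 22) (.e (nat_lit 327680) (nat_lit 0) .nil)))))) (.g (nat_lit 6) .nil .nil)))) (.nd (nat_lit 5) 
(.lf (nat_lit 12308) (.g (nat_lit 4042) (.e (nat_lit 706) (nat_lit 62) (.e (nat_lit 671748) (nat_lit 0) (.e (nat_lit 1401) (nat_lit 106) (.e (nat_lit 319531) (nat_lit 16) (.e (nat_lit 286761) (nat_lit 13) (.e (nat_lit 393234) (nat_lit 17) (.e (nat_lit 7065) (nat_lit 377) (.e (nat_lit 993) (nat_lit 81) .nil)))))))) (.g (nat_lit 0) .nil .nil))) 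
(.lf (nat_lit 12340) (.g (nat_lit 1723) (.e (nat_lit 720) (nat_lit 64) (.e (nat_lit 688152) (nat_lit 13) (.e (nat_lit 1595) (nat_lit 111) (.e (nat_lit 360492) (nat_lit 22) (.e (nat_lit 778466) (nat_lit 11) (.e (nat_lit 24617) (nat_lit 7) (.e (nat_lit 319500) (nat_lit 10) .nil))))))) (.g (nat_lit 4) .nil .nil))))) (.nd (nat_lit 4) (.nd (nat_lit 5) 
(.lf (nat_lit 12300) (.g (nat_lit 2367) (.e (nat_lit 704) (nat_lit 61) (.e (nat_lit 663566) (nat_lit 4) (.e (nat_lit 65630) (nat_lit 14) (.e (nat_lit 401459) (nat_lit 13) (.e (nat_lit 483374) (nat_lit 22) (.e (nat_lit 327680) (nat_lit 0) .nil)))))) (.g (nat_lit 5) .nil .nil))) 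
(.lf (nat_lit 12332) (.g (nat_lit 1823) (.e (nat_lit 718) (nat_lit 64) (.e (nat_lit 688185) (nat_lit 18) (.e (nat_lit 81965) (nat_lit 26) (.e (nat_lit 147496) (nat_lit 11) (.e (nat_lit 24617) (nat_lit 7) (.e (nat_lit 327424) (nat_lit 10) .nil)))))) (.g (nat_lit 5) .nil .nil)))) (.nd (nat_lit 5) 
(.lf (nat_lit 12316) (.g (nat_lit 3564) (.e (nat_lit 708) (nat_lit 62) (.e (nat_lit 671762) (nat_lit 4) (.e (nat_lit 65629) (nat_lit 14) (.e (nat_lit 401459) (nat_lit 13) (.e (nat_lit 483374) (nat_lit 22) (.e (nat_lit 327681) (nat_lit 0) .nil)))))) (.g (nat_lit 5) .nil .nil))) 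
(.lf (nat_lit 12348) (.g (nat_lit 4704) (.e (nat_lit 720) (nat_lit 64) (.e (nat_lit 688170) (nat_lit 15) (.e (nat_lit 57479) (nat_lit 28) (.e (nat_lit 557105) (nat_lit 14) (.e (nat_lit 180252) (nat_lit 10) (.e (nat_lit 573488) (nat_lit 14) (.e (nat_lit 73744) (nat_lit 2) (.e (nat_lit 507906) (nat_lit 0) .nil)))))))) (.g (nat_lit 6) .nil .nil))))))) 
(.nd (nat_lit 2) (.nd (nat_lit 3) (.nd (nat_lit 4) (.nd (nat_lit 5) 
(.lf (nat_lit 12290) (.g (nat_lit 2229) (.e (nat_lit 660) (nat_lit 54) (.e (nat_lit 606227) (nat_lit 5) (.e (nat_lit 73782) (nat_lit 32) (.e (nat_lit 3090) (nat_lit 191) (.e (nat_lit 483372) (nat_lit 21) (.e (nat_lit 319496) (nat_lit 10) .nil)))))) (.g (nat_lit 6) .nil .nil))) 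
(.lf (nat_lit 12322) (.g (nat_lit 3911) (.e (nat_lit 710) (nat_lit 62) (.e (nat_lit 671759) (nat_lit 3) (.e (nat_lit 57479) (nat_lit 28) (.e (nat_lit 557109) (nat_lit 15) (.e (nat_lit 188452) (nat_lit 23) (.e (nat_lit 204849) (nat_lit 25) (.e (nat_lit 327680) (nat_lit 0) .nil))))))) (.g (nat_lit 5) .nil .nil)))) (.nd (nat_lit 5) 
(.lf (nat_lit 12306) (.g (nat_lit 2289) (.e (nat_lit 706) (nat_lit 62) (.e (nat_lit 671748) (nat_lit 0) (.e (nat_lit 1395) (nat_lit 106) (.e (nat_lit 319530) (nat_lit 16) (.e (nat_lit 286761) (nat_lit 13) (.e (nat_lit 393264) (nat_lit 22) (.e (nat_lit 417794) (nat_lit 0) .nil))))))) (.g (nat_lit 5) .nil .nil))) 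
(.lf (nat_lit 12338) (.g (nat_lit 3634) (.e (nat_lit 720) (nat_lit 64) (.e (nat_lit 688152) (nat_lit 13) (.e (nat_lit 1586) (nat_lit 111) (.e (nat_lit 360491) (nat_lit 22) (.e (nat_lit 778466) (nat_lit 11) (.e (nat_lit 24617) (nat_lit 7) (.e (nat_lit 319505) (nat_lit 10) .nil))))))) (.g (nat_lit 0) .nil .nil))))) (.nd (nat_lit 4) (.nd (nat_lit 5) 
(.lf (nat_lit 12298) (.g (nat_lit 1833) (.e (nat_lit 704) (nat_lit 61) (.e (nat_lit 663554) (nat_lit 0) (.e (nat_lit 1401) (nat_lit 106) (.e (nat_lit 319531) (nat_lit 16) (.e (nat_lit 286748) (nat_lit 9) .nil))))) .nil)) 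
(.lf (nat_lit 12330) (.g (nat_lit 2014) (.e (nat_lit 718) (nat_lit 64) (.e (nat_lit 688177) (nat_lit 16) (.e (nat_lit 65586) (nat_lit 7) (.e (nat_lit 319531) (nat_lit 16) (.e (nat_lit 286748) (nat_lit 9) .nil))))) .nil))) (.nd (nat_lit 5) 
(.lf (nat_lit 12314) (.g (nat_lit 3508) (.e (nat_lit 708) (nat_lit 62) (.e (nat_lit 671758) (nat_lit 3) (.e (nat_lit 57480) (nat_lit 28) (.e (nat_lit 557108) (nat_lit 15) (.e (nat_lit 188452) (nat_lit 23) (.e (nat_lit 204849) (nat_lit 25) (.e (nat_lit 327680) (nat_lit 0) .nil))))))) (.g (nat_lit 7) .nil .nil))) 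
(.lf (nat_lit 12346) (.g (nat_lit 2407) (.e (nat_lit 720) (nat_lit 64) (.e (nat_lit 688170) (nat_lit 15) (.e (nat_lit 57479) (nat_lit 28) (.e (nat_lit 557103) (nat_lit 14) (.e (nat_lit 180250) (nat_lit 10) (.e (nat_lit 573482) (nat_lit 13) (.e (nat_lit 65558) (nat_lit 0) (.e (nat_lit 1774) (nat_lit 118) (.e (nat_lit 507906) (nat_lit 0) .nil))))))))) (.g (nat_lit 4) .nil .nil)))))) 
(.nd (nat_lit 3) (.nd (nat_lit 4) (.nd (nat_lit 5) 
(.lf (nat_lit 12294) (.g (nat_lit 2462) (.e (nat_lit 680) (nat_lit 58) (.e (nat_lit 639020) (nat_lit 16) (.e (nat_lit 65627) (nat_lit 13) (.e (nat_lit 393296) (nat_lit 26) (.e (nat_lit 475216) (nat_lit 44) (.e (nat_lit 737305) (nat_lit 11) .nil)))))) (.g (nat_lit 6) .nil .nil))) 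
(.lf (nat_lit 12326) (.g (nat_lit 1930) (.e (nat_lit 710) (nat_lit 62) (.e (nat_lit 671762) (nat_lit 4) (.e (nat_lit 65630) (nat_lit 14) (.e (nat_lit 401459) (nat_lit 13) (.e (nat_lit 483375) (nat_lit 22) (.e (nat_lit 327680) (nat_lit 0) .nil)))))) (.g (nat_lit 4) .nil .nil)))) (.nd (nat_lit 5) 
(.lf (nat_lit 12310) (.g (nat_lit 3556) (.e (nat_lit 707) (nat_lit 62) (.e (nat_lit 671762) (nat_lit 4) (.e (nat_lit 65629) (nat_lit 14) (.e (nat_lit 401459) (nat_lit 13) (.e (nat_lit 483374) (nat_lit 22) (.e (nat_lit 327680) (nat_lit 0) .nil)))))) (.g (nat_lit 5) .nil .nil))) 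
(.lf (nat_lit 12342) (.g (nat_lit 3378) (.e (nat_lit 720) (nat_lit 64) (.e (nat_lit 688152) (nat_lit 13) (.e (nat_lit 1598) (nat_lit 111) (.e (nat_lit 360491) (nat_lit 22) (.e (nat_lit 778466) (nat_lit 11) (.e (nat_lit 24617) (nat_lit 7) (.e (nat_lit 319505) (nat_lit 10) .nil))))))) (.g (nat_lit 0) .nil .nil))))) (.nd (nat_lit 4) (.nd (nat_lit 5) 
(.lf (nat_lit 12302) (.g (nat_lit 1836) (.e (nat_lit 705) (nat_lit 61) (.e (nat_lit 663554) (nat_lit 0) (.e (nat_lit 1401) (nat_lit 106) (.e (nat_lit 319531) (nat_lit 16) (.e (nat_lit 286748) (nat_lit 9) .nil))))) .nil)) 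
(.lf (nat_lit 12334) (.g (nat_lit 1727) (.e (nat_lit 719) (nat_lit 64) (.e (nat_lit 688185) (nat_lit 18) (.e (nat_lit 81965) (nat_lit 26) (.e (nat_lit 147496) (nat_lit 11) (.e (nat_lit 24617) (nat_lit 7) (.e (nat_lit 327424) (nat_lit 10) .nil)))))) (.g (nat_lit 5) .nil .nil)))) (.nd (nat_lit 5) 
(.lf (nat_lit 12318) (.g (nat_lit 4119) (.e (nat_lit 708) (nat_lit 62) (.e (nat_lit 671762) (nat_lit 4) (.e (nat_lit 65629) (nat_lit 14) (.e (nat_lit 401459) (nat_lit 13) (.e (nat_lit 483375) (nat_lit 22) (.e (nat_lit 327680) (nat_lit 0) .nil)))))) (.g (nat_lit 5) .nil .nil))) 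
(.lf (nat_lit 12350) (.g (nat_lit 3464) (.e (nat_lit 720) (nat_lit 64) (.e (nat_lit 688171) (nat_lit 15) (.e (nat_lit 57465) (nat_lit 23) (.e (nat_lit 516129) (nat_lit 3) (.e (nat_lit 221210) (nat_lit 22) (.e (nat_lit 196668) (nat_lit 14) (.e (nat_lit 73744) (nat_lit 2) (.e (nat_lit 507906) (nat_lit 0) .nil)))))))) (.g (nat_lit 7) .nil .nil)))))))) 
(.nd (nat_lit 1) (.nd (nat_lit 2) (.nd (nat_lit 3) (.nd (nat_lit 4) (.nd (nat_lit 5) 
(.lf (nat_lit 12289) (.g (nat_lit 2488) (.e (nat_lit 660) (nat_lit 54) (.e (nat_lit 606227) (nat_lit 5) (.e (nat_lit 73781) (nat_lit 32) (.e (nat_lit 3090) (nat_lit 191) (.e (nat_lit 483372) (nat_lit 21) (.e (nat_lit 319496) (nat_lit 10) .nil)))))) (.g (nat_lit 6) .nil .nil))) 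
(.lf (nat_lit 12321) (.g (nat_lit 1903) (.e (nat_lit 708) (nat_lit 62) (.e (nat_lit 671762) (nat_lit 4) (.e (nat_lit 65630) (nat_lit 14) (.e (nat_lit 401459) (nat_lit 13) (.e (nat_lit 483375) (nat_lit 22) .nil))))) .nil))) (.nd (nat_lit 5) 
(.lf (nat_lit 12305) (.g (nat_lit 843) (.e (nat_lit 7936) (nat_lit 61) (.e (nat_lit 663554) (nat_lit 0) (.e (nat_lit 1401) (nat_lit 106) (.e (nat_lit 319534) (nat_lit 16) .nil)))) .nil)) 
(.lf (nat_lit 12337) (.g (nat_lit 3288) (.e (nat_lit 720) (nat_lit 64) (.e (nat_lit 688151) (nat_lit 13) (.e (nat_lit 1599) (nat_lit 111) (.e (nat_lit 360491) (nat_lit 22) (.e (nat_lit 778466) (nat_lit 11) (.e (nat_lit 24617) (nat_lit 7) (.e (nat_lit 319505) (nat_lit 10) .nil))))))) (.g (nat_lit 0) .nil .nil))))) (.nd (nat_lit 4) (.nd (nat_lit 5) 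
(.lf (nat_lit 12297) (.g (nat_lit 2453) (.e (nat_lit 698) (nat_lit 61) (.e (nat_lit 663567) (nat_lit 4) (.e (nat_lit 65628) (nat_lit 14) (.e (nat_lit 401459) (nat_lit 13) (.e (nat_lit 483374) (nat_lit 22) .nil))))) .nil)) 
(.lf (nat_lit 12329) (.g (nat_lit 3091) (.e (nat_lit 7936) (nat_lit 62) (.e (nat_lit 671762) (nat_lit 4) (.e (nat_lit 65630) (nat_lit 14) (.e (nat_lit 401459) (nat_lit 13) (.e (nat_lit 483350) (nat_lit 17) .nil))))) .nil))) (.nd (nat_lit 5) 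
(.lf (nat_lit 12313) (.g (nat_lit 1895) (.e (nat_lit 707) (nat_lit 62) (.e (nat_lit 671762) (nat_lit 4) (.e (nat_lit 65630) (nat_lit 14) (.e (nat_lit 401459) (nat_lit 13) (.e (nat_lit 483375) (nat_lit 22) .nil))))) .nil)) 
(.lf (nat_lit 12345) (.g (nat_lit 3037) (.e (nat_lit 720) (nat_lit 64) (.e (nat_lit 688170) (nat_lit 15) (.e (nat_lit 57467) (nat_lit 23) (.e (nat_lit 516131) (nat_lit 3) (.e (nat_lit 221215) (nat_lit 23) (.e (nat_lit 204863) (nat_lit 27) (.e (nat_lit 344115) (nat_lit 20) (.e (nat_lit 507906) (nat_lit 0) .nil)))))))) (.g (nat_lit 6) .nil .nil)))))) 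
(.nd (nat_lit 3) (.nd (nat_lit 4) (.nd (nat_lit 5) 
(.lf (nat_lit 12293) (.g (nat_lit 1891) (.e (nat_lit 680) (nat_lit 58) (.e (nat_lit 639020) (nat_lit 16) (.e (nat_lit 65627) (nat_lit 13) (.e (nat_lit 393291) (nat_lit 26) (.e (nat_lit 475219) (nat_lit 44) .nil))))) .nil)) 
(.lf (nat_lit 12325) (.g (nat_lit 4083) (.e (nat_lit 710) (nat_lit 62) (.e (nat_lit 671762) (nat_lit 4) (.e (nat_lit 65630) (nat_lit 14) (.e (nat_lit 401459) (nat_lit 13) (.e (nat_lit 483372) (nat_lit 21) (.e (nat_lit 327424) (nat_lit 0) .nil)))))) (.g (nat_lit 5) .nil .nil)))) (.nd (nat_lit 5) 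
(.lf (nat_lit 12309) (.g (nat_lit 2657) (.e (nat_lit 706) (nat_lit 62) (.e (nat_lit 671748) (nat_lit 0) (.e (nat_lit 1401) (nat_lit 106) (.e (nat_lit 319531) (nat_lit 16) (.e (nat_lit 286761) (nat_lit 13) (.e (nat_lit 393264) (nat_lit 22) (.e (nat_lit 417794) (nat_lit 0) .nil))))))) (.g (nat_lit 6) .nil .nil))) 
(.lf (nat_lit 12341) (.g (nat_lit 3897) (.e (nat_lit 720) (nat_lit 64) (.e (nat_lit 688152) (nat_lit 13) (.e (nat_lit 1595) (nat_lit 111) (.e (nat_lit 360492) (nat_lit 22) (.e (nat_lit 778466) (nat_lit 11) (.e (nat_lit 24617) (nat_lit 7) (.e (nat_lit 319505) (nat_lit 10) .nil))))))) (.g (nat_lit 0) .nil .nil))))) (.nd (nat_lit 4) (.nd (nat_lit 5) 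
(.lf (nat_lit 12301) (.g (nat_lit 2468) (.e (nat_lit 704) (nat_lit 61) (.e (nat_lit 663567) (nat_lit 4) (.e (nat_lit 65628) (nat_lit 14) (.e (nat_lit 401459) (nat_lit 13) (.e (nat_lit 483374) (nat_lit 22) .nil))))) .nil)) 
(.lf (nat_lit 12333) (.g (nat_lit 1854) (.e (nat_lit 718) (nat_lit 64) (.e (nat_lit 688186) (nat_lit 18) (.e (nat_lit 81965) (nat_lit 26) (.e (nat_lit 147496) (nat_lit 11) (.e (nat_lit 24617) (nat_lit 7) (.e (nat_lit 327424) (nat_lit 10) .nil)))))) (.g (nat_lit 5) .nil .nil)))) (.nd (nat_lit 5) 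
(.lf (nat_lit 12317) (.g (nat_lit 3307) (.e (nat_lit 708) (nat_lit 62) (.e (nat_lit 671762) (nat_lit 4) (.e (nat_lit 65629) (nat_lit 14) (.e (nat_lit 401459) (nat_lit 13) (.e (nat_lit 483374) (nat_lit 22) (.e (nat_lit 327682) (nat_lit 0) .nil)))))) (.g (nat_lit 4) .nil .nil))) 
(.lf (nat_lit 12349) (.g (nat_lit 3069) (.e (nat_lit 720) (nat_lit 64) (.e (nat_lit 688170) (nat_lit 15) (.e (nat_lit 57480) (nat_lit 28) (.e (nat_lit 557105) (nat_lit 14) (.e (nat_lit 180252) (nat_lit 10) (.e (nat_lit 573488) (nat_lit 14) (.e (nat_lit 73744) (nat_lit 2) (.e (nat_lit 507904) (nat_lit 0) .nil)))))))) (.g (nat_lit 5) .nil .nil))))))) 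
(.nd (nat_lit 2) (.nd (nat_lit 3) (.nd (nat_lit 4) (.nd (nat_lit 5) 
(.lf (nat_lit 12291) (.g (nat_lit 1209) (.e (nat_lit 7936) (nat_lit 54) (.e (nat_lit 606223) (nat_lit 3) (.e (nat_lit 57478) (nat_lit 28) (.e (nat_lit 557109) (nat_lit 15) (.e (nat_lit 188452) (nat_lit 23) .nil))))) .nil)) 
(.lf (nat_lit 12323) (.g (nat_lit 3545) (.e (nat_lit 710) (nat_lit 62) (.e (nat_lit 671762) (nat_lit 4) (.e (nat_lit 65629) (nat_lit 14) (.e (nat_lit 401459) (nat_lit 13) (.e (nat_lit 483374) (nat_lit 22) (.e (nat_lit 327680) (nat_lit 0) .nil)))))) (.g (nat_lit 4) .nil .nil)))) (.nd (nat_lit 5) 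
(.lf (nat_lit 12307) (.g (nat_lit 3713) (.e (nat_lit 706) (nat_lit 62) (.e (nat_lit 671748) (nat_lit 0) (.e (nat_lit 1401) (nat_lit 106) (.e (nat_lit 319531) (nat_lit 16) (.e (nat_lit 286761) (nat_lit 13) (.e (nat_lit 393234) (nat_lit 17) (.e (nat_lit 7065) (nat_lit 377) (.e (nat_lit 982) (nat_lit 81) .nil)))))))) (.g (nat_lit 7) .nil .nil))) 
(.lf (nat_lit 12339) (.g (nat_lit 3582) (.e (nat_lit 720) (nat_lit 64) (.e (nat_lit 688152) (nat_lit 13) (.e (nat_lit 1589) (nat_lit 111) (.e (nat_lit 360491) (nat_lit 22) (.e (nat_lit 778466) (nat_lit 11) (.e (nat_lit 24617) (nat_lit 7) (.e (nat_lit 319505) (nat_lit 10) .nil))))))) (.g (nat_lit 7) .nil .nil))))) (.nd (nat_lit 4) (.nd (nat_lit 5) 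
(.lf (nat_lit 12299) (.g (nat_lit 1315) (.e (nat_lit 704) (nat_lit 61) (.e (nat_lit 663554) (nat_lit 0) (.e (nat_lit 1401) (nat_lit 106) (.e (nat_lit 319534) (nat_lit 16) (.e (nat_lit 286761) (nat_lit 13) .nil))))) .nil)) 
(.lf (nat_lit 12331) (.g (nat_lit 2323) (.e (nat_lit 718) (nat_lit 64) (.e (nat_lit 688177) (nat_lit 16) (.e (nat_lit 65586) (nat_lit 7) (.e (nat_lit 319531) (nat_lit 16) (.e (nat_lit 286748) (nat_lit 9) (.e (nat_lit 336295) (nat_lit 15) (.e (nat_lit 3806) (nat_lit 231) (.e (nat_lit 811009) (nat_lit 0) .nil)))))))) (.g (nat_lit 5) .nil .nil)))) (.nd (nat_lit 5) 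
(.lf (nat_lit 12315) (.g (nat_lit 3319) (.e (nat_lit 708) (nat_lit 62) (.e (nat_lit 671762) (nat_lit 4) (.e (nat_lit 65629) (nat_lit 14) (.e (nat_lit 401459) (nat_lit 13) (.e (nat_lit 483374) (nat_lit 22) (.e (nat_lit 327680) (nat_lit 0) .nil)))))) (.g (nat_lit 4) .nil .nil))) 
(.lf (nat_lit 12347) (.g (nat_lit 2652) (.e (nat_lit 720) (nat_lit 64) (.e (nat_lit 688170) (nat_lit 15) (.e (nat_lit 57479) (nat_lit 28) (.e (nat_lit 557103) (nat_lit 14) (.e (nat_lit 180250) (nat_lit 10) (.e (nat_lit 573485) (nat_lit 13) (.e (nat_lit 65558) (nat_lit 0) (.e (nat_lit 1774) (nat_lit 118) (.e (nat_lit 507906) (nat_lit 0) .nil))))))))) (.g (nat_lit 4) .nil .nil)))))) 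
(.nd (nat_lit 3) (.nd (nat_lit 4) (.nd (nat_lit 5) 
(.lf (nat_lit 12295) (.g (nat_lit 1972) (.e (nat_lit 680) (nat_lit 58) (.e (nat_lit 639020) (nat_lit 16) (.e (nat_lit 65627) (nat_lit 13) (.e (nat_lit 393296) (nat_lit 26) (.e (nat_lit 475218) (nat_lit 44) .nil))))) .nil)) 
(.lf (nat_lit 12327) (.g (nat_lit 2978) (.e (nat_lit 7936) (nat_lit 62) (.e (nat_lit 671762) (nat_lit 4) (.e (nat_lit 65629) (nat_lit 14) (.e (nat_lit 401459) (nat_lit 13) (.e (nat_lit 483375) (nat_lit 22) .nil))))) .nil))) (.nd (nat_lit 5) 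
(.lf (nat_lit 12311) (.g (nat_lit 4328) (.e (nat_lit 707) (nat_lit 62) (.e (nat_lit 671762) (nat_lit 4) (.e (nat_lit 65629) (nat_lit 14) (.e (nat_lit 401459) (nat_lit 13) (.e (nat_lit 483375) (nat_lit 22) (.e (nat_lit 327680) (nat_lit 0) .nil)))))) (.g (nat_lit 0) .nil .nil))) 
(.lf (nat_lit 12343) (.g (nat_lit 2965) (.e (nat_lit 720) (nat_lit 64) (.e (nat_lit 688170) (nat_lit 15) (.e (nat_lit 57466) (nat_lit 23) (.e (nat_lit 516129) (nat_lit 3) (.e (nat_lit 221210) (nat_lit 22) (.e (nat_lit 196668) (nat_lit 14) (.e (nat_lit 73744) (nat_lit 2) (.e (nat_lit 507906) (nat_lit 0) .nil)))))))) (.g (nat_lit 6) .nil .nil))))) (.nd (nat_lit 4) (.nd (nat_lit 5) 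
(.lf (nat_lit 12303) (.g (nat_lit 2446) (.e (nat_lit 705) (nat_lit 61) (.e (nat_lit 663567) (nat_lit 4) (.e (nat_lit 65628) (nat_lit 14) (.e (nat_lit 401459) (nat_lit 13) (.e (nat_lit 483375) (nat_lit 22) .nil))))) .nil)) 
(.lf (nat_lit 12335) (.g (nat_lit 1536) (.e (nat_lit 719) (nat_lit 64) (.e (nat_lit 688186) (nat_lit 18) (.e (nat_lit 81965) (nat_lit 26) (.e (nat_lit 147496) (nat_lit 11) (.e (nat_lit 24617) (nat_lit 7) .nil))))) .nil))) (.nd (nat_lit 5) 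
(.lf (nat_lit 12319) (.g (nat_lit 4229) (.e (nat_lit 708) (nat_lit 62) (.e (nat_lit 671762) (nat_lit 4) (.e (nat_lit 65629) (nat_lit 14) (.e (nat_lit 401459) (nat_lit 13) (.e (nat_lit 483375) (nat_lit 22) (.e (nat_lit 327681) (nat_lit 0) .nil)))))) (.g (nat_lit 6) .nil .nil))) 
(.lf (nat_lit 12351) (.g (nat_lit 3444) (.e (nat_lit 720) (nat_lit 64) (.e (nat_lit 688171) (nat_lit 15) (.e (nat_lit 57465) (nat_lit 23) (.e (nat_lit 516129) (nat_lit 3) (.e (nat_lit 221214) (nat_lit 23) (.e (nat_lit 204863) (nat_lit 27) (.e (nat_lit 344115) (nat_lit 20) (.e (nat_lit 507906) (nat_lit 0) .nil)))))))) (.g (nat_lit 6) .nil .nil)))))))))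

noncomputable def tv167 : DT := (.nd (nat_lit 0) (.nd (nat_lit 1) (.nd (nat_lit 2) (.nd (nat_lit 3) (.nd (nat_lit 4) (.nd (nat_lit 5) 
(.lf (nat_lit 12352) (.g (nat_lit 3580) (.e (nat_lit 720) (nat_lit 64) (.e (nat_lit 688171) (nat_lit 15) (.e (nat_lit 57465) (nat_lit 23) (.e (nat_lit 516131) (nat_lit 3) (.e (nat_lit 221215) (nat_lit 23) (.e (nat_lit 204863) (nat_lit 27) (.e (nat_lit 344115) (nat_lit 20) (.e (nat_lit 507906) (nat_lit 0) .nil)))))))) (.g (nat_lit 8) .nil .nil))) 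
(.lf (nat_lit 12384) (.g (nat_lit 561) (.e (nat_lit 720) (nat_lit 64) (.e (nat_lit 688177) (nat_lit 16) (.e (nat_lit 65570) (nat_lit 3) .nil))) .nil))) (.nd (nat_lit 5) 
(.lf (nat_lit 12368) (.g (nat_lit 834) (.e (nat_lit 720) (nat_lit 64) (.e (nat_lit 688177) (nat_lit 16) (.e (nat_lit 65568) (nat_lit 2) (.e (nat_lit 90170) (nat_lit 13) .nil)))) .nil)) 
(.lf (nat_lit 12400) (.g (nat_lit 2267) (.e (nat_lit 720) (nat_lit 64) (.e (nat_lit 688177) (nat_lit 16) (.e (nat_lit 65583) (nat_lit 7) (.e (nat_lit 319530) (nat_lit 16) (.e (nat_lit 286748) (nat_lit 9) (.e (nat_lit 336295) (nat_lit 15) (.e (nat_lit 3632) (nat_lit 227) (.e (nat_lit 778506) (nat_lit 14) (.e (nat_lit 2403) (nat_lit 157) .nil))))))))) (.g (nat_lit 4) .nil .nil))))) 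
(.nd (nat_lit 4) (.nd (nat_lit 5) 
(.lf (nat_lit 12360) (.g (nat_lit 404) (.e (nat_lit 720) (nat_lit 64) (.e (nat_lit 688177) (nat_lit 16) (.e (nat_lit 65566) (nat_lit 2) .nil))) .nil)) 
(.lf (nat_lit 12392) (.g (nat_lit 3301) (.e (nat_lit 720) (nat_lit 64) (.e (nat_lit 688177) (nat_lit 16) (.e (nat_lit 65571) (nat_lit 3) (.e (nat_lit 98370) (nat_lit 28) (.e (nat_lit 442430) (nat_lit 24) (.e (nat_lit 229528) (nat_lit 129) (.e (nat_lit 8287) (nat_lit 51) .nil))))))) (.g (nat_lit 5) .nil .nil)))) (.nd (nat_lit 5) 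
(.lf (nat_lit 12376) (.g (nat_lit 420) (.e (nat_lit 720) (nat_lit 64) (.e (nat_lit 688177) (nat_lit 16) (.e (nat_lit 65569) (nat_lit 3) .nil))) .nil)) 
(.lf (nat_lit 12408) (.g (nat_lit 3832) (.e (nat_lit 720) (nat_lit 64) (.e (nat_lit 688177) (nat_lit 16) (.e (nat_lit 65583) (nat_lit 7) (.e (nat_lit 319530) (nat_lit 16) (.e (nat_lit 286759) (nat_lit 12) (.e (nat_lit 385094) (nat_lit 49) (.e (nat_lit 778506) (nat_lit 14) (.e (nat_lit 2397) (nat_lit 157) .nil)))))))) (.g (nat_lit 6) .nil .nil)))))) 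
(.nd (nat_lit 3) (.nd (nat_lit 4) (.nd (nat_lit 5) 
(.lf (nat_lit 12356) (.g (nat_lit 3623) (.e (nat_lit 720) (nat_lit 64) (.e (nat_lit 688171) (nat_lit 15) (.e (nat_lit 57480) (nat_lit 28) (.e (nat_lit 557105) (nat_lit 14) (.e (nat_lit 180252) (nat_lit 10) (.e (nat_lit 573488) (nat_lit 14) (.e (nat_lit 73744) (nat_lit 2) (.e (nat_lit 507906) (nat_lit 0) .nil)))))))) (.g (nat_lit 6) .nil .nil))) 
(.lf (nat_lit 12388) (.g (nat_lit 3074) (.e (nat_lit 720) (nat_lit 64) (.e (nat_lit 688177) (nat_lit 16) (.e (nat_lit 65571) (nat_lit 3) (.e (nat_lit 98359) (nat_lit 26) (.e (nat_lit 426286) (nat_lit 10) (.e (nat_lit 434248) (nat_lit 28) (.e (nat_lit 573503) (nat_lit 18) (.e (nat_lit 993) (nat_lit 81) .nil)))))))) (.g (nat_lit 4) .nil .nil)))) (.nd (nat_lit 5) 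
(.lf (nat_lit 12372) (.g (nat_lit 2640) (.e (nat_lit 720) (nat_lit 64) (.e (nat_lit 688177) (nat_lit 16) (.e (nat_lit 65568) (nat_lit 2) (.e (nat_lit 90170) (nat_lit 13) (.e (nat_lit 172106) (nat_lit 10) (.e (nat_lit 434244) (nat_lit 28) (.e (nat_lit 573503) (nat_lit 18) (.e (nat_lit 1015) (nat_lit 81) .nil)))))))) (.g (nat_lit 5) .nil .nil))) 
(.lf (nat_lit 12404) (.g (nat_lit 3638) (.e (nat_lit 720) (nat_lit 64) (.e (nat_lit 688177) (nat_lit 16) (.e (nat_lit 65583) (nat_lit 7) (.e (nat_lit 319530) (nat_lit 16) (.e (nat_lit 286759) (nat_lit 12) (.e (nat_lit 385092) (nat_lit 49) (.e (nat_lit 778506) (nat_lit 14) (.e (nat_lit 2397) (nat_lit 157) .nil)))))))) (.g (nat_lit 6) .nil .nil))))) (.nd (nat_lit 4) (.nd (nat_lit 5) 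
(.lf (nat_lit 12364) (.g (nat_lit 3472) (.e (nat_lit 720) (nat_lit 64) (.e (nat_lit 688177) (nat_lit 16) (.e (nat_lit 65566) (nat_lit 2) (.e (nat_lit 90170) (nat_lit 13) (.e (nat_lit 172113) (nat_lit 10) (.e (nat_lit 434248) (nat_lit 28) (.e (nat_lit 573503) (nat_lit 18) (.e (nat_lit 992) (nat_lit 81) .nil)))))))) (.g (nat_lit 5) .nil .nil))) 
(.lf (nat_lit 12396) (.g (nat_lit 5038) (.e (nat_lit 720) (nat_lit 64) (.e (nat_lit 688177) (nat_lit 16) (.e (nat_lit 65571) (nat_lit 3) (.e (nat_lit 98373) (nat_lit 29) (.e (nat_lit 450588) (nat_lit 10) (.e (nat_lit 573503) (nat_lit 18) (.e (nat_lit 1015) (nat_lit 81) .nil))))))) (.g (nat_lit 6) .nil .nil)))) (.nd (nat_lit 5) 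
(.lf (nat_lit 12380) (.g (nat_lit 1054) (.e (nat_lit 720) (nat_lit 64) (.e (nat_lit 688177) (nat_lit 16) (.e (nat_lit 65569) (nat_lit 3) (.e (nat_lit 98370) (nat_lit 28) .nil)))) .nil)) 
(.lf (nat_lit 12412) (.g (nat_lit 2510) (.e (nat_lit 720) (nat_lit 64) (.e (nat_lit 688177) (nat_lit 16) (.e (nat_lit 65586) (nat_lit 7) (.e (nat_lit 319531) (nat_lit 16) (.e (nat_lit 286743) (nat_lit 9) (.e (nat_lit 336327) (nat_lit 19) (.e (nat_lit 213039) (nat_lit 14) (.e (nat_lit 2400) (nat_lit 157) .nil)))))))) (.g (nat_lit 4) .nil .nil))))))) 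
(.nd (nat_lit 2) (.nd (nat_lit 3) (.nd (nat_lit 4) (.nd (nat_lit 5) 
(.lf (nat_lit 12354) (.g (nat_lit 3747) (.e (nat_lit 720) (nat_lit 64) (.e (nat_lit 688171) (nat_lit 15) (.e (nat_lit 57479) (nat_lit 28) (.e (nat_lit 557105) (nat_lit 14) (.e (nat_lit 180252) (nat_lit 10) (.e (nat_lit 573489) (nat_lit 14) (.e (nat_lit 73744) (nat_lit 2) (.e (nat_lit 507906) (nat_lit 0) .nil)))))))) (.g (nat_lit 7) .nil .nil))) 
(.lf (nat_lit 12386) (.g (nat_lit 2516) (.e (nat_lit 720) (nat_lit 64) (.e (nat_lit 688177) (nat_lit 16) (.e (nat_lit 65571) (nat_lit 3) (.e (nat_lit 98359) (nat_lit 26) (.e (nat_lit 426286) (nat_lit 10) (.e (nat_lit 434245) (nat_lit 28) (.e (nat_lit 573503) (nat_lit 18) (.e (nat_lit 992) (nat_lit 81) .nil)))))))) (.g (nat_lit 4) .nil .nil)))) (.nd (nat_lit 5) 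
(.lf (nat_lit 12370) (.g (nat_lit 2550) (.e (nat_lit 720) (nat_lit 64) (.e (nat_lit 688177) (nat_lit 16) (.e (nat_lit 65568) (nat_lit 2) (.e (nat_lit 90170) (nat_lit 13) (.e (nat_lit 172106) (nat_lit 10) (.e (nat_lit 434244) (nat_lit 28) (.e (nat_lit 573503) (nat_lit 18) (.e (nat_lit 993) (nat_lit 81) .nil)))))))) (.g (nat_lit 5) .nil .nil))) 
(.lf (nat_lit 12402) (.g (nat_lit 2570) (.e (nat_lit 720) (nat_lit 64) (.e (nat_lit 688177) (nat_lit 16) (.e (nat_lit 65583) (nat_lit 7) (.e (nat_lit 319530) (nat_lit 16) (.e (nat_lit 286753) (nat_lit 10) (.e (nat_lit 344160) (nat_lit 37) (.e (nat_lit 647203) (nat_lit 14) (.e (nat_lit 988) (nat_lit 81) .nil)))))))) (.g (nat_lit 4) .nil .nil))))) (.nd (nat_lit 4) (.nd (nat_lit 5) 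
(.lf (nat_lit 12362) (.g (nat_lit 3099) (.e (nat_lit 720) (nat_lit 64) (.e (nat_lit 688177) (nat_lit 16) (.e (nat_lit 65566) (nat_lit 2) (.e (nat_lit 90170) (nat_lit 13) (.e (nat_lit 172106) (nat_lit 10) (.e (nat_lit 434244) (nat_lit 28) (.e (nat_lit 573503) (nat_lit 18) (.e (nat_lit 993) (nat_lit 81) .nil)))))))) (.g (nat_lit 7) .nil .nil))) 
(.lf (nat_lit 12394) (.g (nat_lit 5241) (.e (nat_lit 720) (nat_lit 64) (.e (nat_lit 688177) (nat_lit 16) (.e (nat_lit 65571) (nat_lit 3) (.e (nat_lit 98373) (nat_lit 29) (.e (nat_lit 450588) (nat_lit 10) (.e (nat_lit 573503) (nat_lit 18) (.e (nat_lit 992) (nat_lit 81) .nil))))))) (.g (nat_lit 6) .nil .nil)))) (.nd (nat_lit 5) 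
(.lf (nat_lit 12378) (.g (nat_lit 2052) (.e (nat_lit 720) (nat_lit 64) (.e (nat_lit 688177) (nat_lit 16) (.e (nat_lit 65569) (nat_lit 3) (.e (nat_lit 98359) (nat_lit 26) (.e (nat_lit 426286) (nat_lit 10) (.e (nat_lit 434245) (nat_lit 28) (.e (nat_lit 573503) (nat_lit 18) (.e (nat_lit 993) (nat_lit 81) .nil)))))))) (.g (nat_lit 4) .nil .nil))) 
(.lf (nat_lit 12410) (.g (nat_lit 2570) (.e (nat_lit 720) (nat_lit 64) (.e (nat_lit 688177) (nat_lit 16) (.e (nat_lit 65583) (nat_lit 7) (.e (nat_lit 319533) (nat_lit 16) (.e (nat_lit 286753) (nat_lit 10) (.e (nat_lit 344160) (nat_lit 37) (.e (nat_lit 647203) (nat_lit 14) (.e (nat_lit 988) (nat_lit 81) .nil)))))))) (.g (nat_lit 4) .nil .nil)))))) (.nd (nat_lit 3) (.nd (nat_lit 4) (.nd (nat_lit 5) 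
(.lf (nat_lit 12358) (.g (nat_lit 2953) (.e (nat_lit 720) (nat_lit 64) (.e (nat_lit 688175) (nat_lit 16) (.e (nat_lit 65619) (nat_lit 10) (.e (nat_lit 344177) (nat_lit 43) (.e (nat_lit 770071) (nat_lit 8) (.e (nat_lit 65586) (nat_lit 7) (.e (nat_lit 319500) (nat_lit 10) .nil))))))) (.g (nat_lit 6) .nil .nil))) 
(.lf (nat_lit 12390) (.g (nat_lit 3277) (.e (nat_lit 720) (nat_lit 64) (.e (nat_lit 688177) (nat_lit 16) (.e (nat_lit 65571) (nat_lit 3) (.e (nat_lit 98370) (nat_lit 28) (.e (nat_lit 442430) (nat_lit 24) (.e (nat_lit 229528) (nat_lit 129) (.e (nat_lit 8285) (nat_lit 51) .nil))))))) (.g (nat_lit 5) .nil .nil)))) (.nd (nat_lit 5) 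
(.lf (nat_lit 12374) (.g (nat_lit 2755) (.e (nat_lit 720) (nat_lit 64) (.e (nat_lit 688177) (nat_lit 16) (.e (nat_lit 65568) (nat_lit 2) (.e (nat_lit 90170) (nat_lit 13) (.e (nat_lit 172113) (nat_lit 10) (.e (nat_lit 434248) (nat_lit 28) (.e (nat_lit 573503) (nat_lit 18) (.e (nat_lit 993) (nat_lit 81) .nil)))))))) (.g (nat_lit 4) .nil .nil))) 
(.lf (nat_lit 12406) (.g (nat_lit 3399) (.e (nat_lit 720) (nat_lit 64) (.e (nat_lit 688177) (nat_lit 16) (.e (nat_lit 65583) (nat_lit 7) (.e (nat_lit 319530) (nat_lit 16) (.e (nat_lit 286759) (nat_lit 12) (.e (nat_lit 385092) (nat_lit 49) (.e (nat_lit 778506) (nat_lit 14) (.e (nat_lit 2402) (nat_lit 157) .nil)))))))) (.g (nat_lit 6) .nil .nil))))) (.nd (nat_lit 4) (.nd (nat_lit 5) 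
(.lf (nat_lit 12366) (.g (nat_lit 2506) (.e (nat_lit 720) (nat_lit 64) (.e (nat_lit 688177) (nat_lit 16) (.e (nat_lit 65566) (nat_lit 2) (.e (nat_lit 90170) (nat_lit 13) (.e (nat_lit 172113) (nat_lit 10) (.e (nat_lit 434248) (nat_lit 28) (.e (nat_lit 573503) (nat_lit 18) (.e (nat_lit 1014) (nat_lit 81) .nil)))))))) (.g (nat_lit 4) .nil .nil))) 
(.lf (nat_lit 12398) (.g (nat_lit 2472) (.e (nat_lit 720) (nat_lit 64) (.e (nat_lit 688177) (nat_lit 16) (.e (nat_lit 65581) (nat_lit 7) (.e (nat_lit 319534) (nat_lit 16) (.e (nat_lit 286756) (nat_lit 10) (.e (nat_lit 344160) (nat_lit 37) (.e (nat_lit 647203) (nat_lit 14) (.e (nat_lit 1008) (nat_lit 81) .nil)))))))) (.g (nat_lit 4) .nil .nil)))) (.nd (nat_lit 5) 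
(.lf (nat_lit 12382) (.g (nat_lit 2774) (.e (nat_lit 720) (nat_lit 64) (.e (nat_lit 688177) (nat_lit 16) (.e (nat_lit 65569) (nat_lit 3) (.e (nat_lit 98370) (nat_lit 28) (.e (nat_lit 442430) (nat_lit 24) (.e (nat_lit 229528) (nat_lit 129) (.e (nat_lit 8287) (nat_lit 51) .nil))))))) (.g (nat_lit 4) .nil .nil))) 
(.lf (nat_lit 12414) (.g (nat_lit 2065) (.e (nat_lit 720) (nat_lit 64) (.e (nat_lit 688177) (nat_lit 16) (.e (nat_lit 65586) (nat_lit 7) (.e (nat_lit 319531) (nat_lit 16) (.e (nat_lit 286748) (nat_lit 9) (.e (nat_lit 336295) (nat_lit 15) (.e (nat_lit 3617) (nat_lit 227) (.e (nat_lit 778506) (nat_lit 14) (.e (nat_lit 2402) (nat_lit 157) .nil))))))))) (.g (nat_lit 4) .nil .nil)))))))) 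
(.nd (nat_lit 1) (.nd (nat_lit 2) (.nd (nat_lit 3) (.nd (nat_lit 4) (.nd (nat_lit 5) 
(.lf (nat_lit 12353) (.g (nat_lit 3965) (.e (nat_lit 720) (nat_lit 64) (.e (nat_lit 688171) (nat_lit 15) (.e (nat_lit 57478) (nat_lit 28) (.e (nat_lit 557105) (nat_lit 14) (.e (nat_lit 180252) (nat_lit 10) (.e (nat_lit 573488) (nat_lit 14) (.e (nat_lit 73744) (nat_lit 2) (.e (nat_lit 507906) (nat_lit 0) .nil)))))))) (.g (nat_lit 7) .nil .nil))) 
(.lf (nat_lit 12385) (.g (nat_lit 433) (.e (nat_lit 720) (nat_lit 64) (.e (nat_lit 688177) (nat_lit 16) (.e (nat_lit 65571) (nat_lit 3) .nil))) .nil))) (.nd (nat_lit 5) 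
(.lf (nat_lit 12369) (.g (nat_lit 2911) (.e (nat_lit 720) (nat_lit 64) (.e (nat_lit 688177) (nat_lit 16) (.e (nat_lit 65568) (nat_lit 2) (.e (nat_lit 90170) (nat_lit 13) (.e (nat_lit 172106) (nat_lit 10) (.e (nat_lit 434244) (nat_lit 28) (.e (nat_lit 573503) (nat_lit 18) (.e (nat_lit 992) (nat_lit 81) .nil)))))))) (.g (nat_lit 6) .nil .nil))) 
(.lf (nat_lit 12401) (.g (nat_lit 2601) (.e (nat_lit 720) (nat_lit 64) (.e (nat_lit 688177) (nat_lit 16) (.e (nat_lit 65583) (nat_lit 7) (.e (nat_lit 319530) (nat_lit 16) (.e (nat_lit 286748) (nat_lit 9) (.e (nat_lit 336295) (nat_lit 15) (.e (nat_lit 3806) (nat_lit 231) (.e (nat_lit 818944) (nat_lit 0) .nil)))))))) (.g (nat_lit 5) .nil .nil))))) (.nd (nat_lit 4) (.nd (nat_lit 5) 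
(.lf (nat_lit 12361) (.g (nat_lit 3460) (.e (nat_lit 720) (nat_lit 64) (.e (nat_lit 688177) (nat_lit 16) (.e (nat_lit 65566) (nat_lit 2) (.e (nat_lit 90170) (nat_lit 13) (.e (nat_lit 172106) (nat_lit 10) (.e (nat_lit 434244) (nat_lit 28) (.e (nat_lit 573503) (nat_lit 18) (.e (nat_lit 992) (nat_lit 81) .nil)))))))) (.g (nat_lit 8) .nil .nil))) 
(.lf (nat_lit 12393) (.g (nat_lit 3397) (.e (nat_lit 720) (nat_lit 64) (.e (nat_lit 688177) (nat_lit 16) (.e (nat_lit 65571) (nat_lit 3) (.e (nat_lit 98372) (nat_lit 29) (.e (nat_lit 450588) (nat_lit 10) (.e (nat_lit 573503) (nat_lit 18) (.e (nat_lit 993) (nat_lit 81) .nil))))))) (.g (nat_lit 4) .nil .nil)))) (.nd (nat_lit 5) 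
(.lf (nat_lit 12377) (.g (nat_lit 2413) (.e (nat_lit 720) (nat_lit 64) (.e (nat_lit 688177) (nat_lit 16) (.e (nat_lit 65569) (nat_lit 3) (.e (nat_lit 98359) (nat_lit 26) (.e (nat_lit 426286) (nat_lit 10) (.e (nat_lit 434245) (nat_lit 28) (.e (nat_lit 573503) (nat_lit 18) (.e (nat_lit 992) (nat_lit 81) .nil)))))))) (.g (nat_lit 4) .nil .nil))) 
(.lf (nat_lit 12409) (.g (nat_lit 3068) (.e (nat_lit 720) (nat_lit 64) (.e (nat_lit 688177) (nat_lit 16) (.e (nat_lit 65583) (nat_lit 7) (.e (nat_lit 319530) (nat_lit 16) (.e (nat_lit 286759) (nat_lit 12) (.e (nat_lit 385115) (nat_lit 53) (.e (nat_lit 818944) (nat_lit 0) .nil))))))) (.g (nat_lit 6) .nil .nil)))))) (.nd (nat_lit 3) (.nd (nat_lit 4) (.nd (nat_lit 5) 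
(.lf (nat_lit 12357) (.g (nat_lit 3026) (.e (nat_lit 720) (nat_lit 64) (.e (nat_lit 688175) (nat_lit 16) (.e (nat_lit 65619) (nat_lit 10) (.e (nat_lit 344177) (nat_lit 43) (.e (nat_lit 770071) (nat_lit 8) (.e (nat_lit 65583) (nat_lit 7) (.e (nat_lit 319499) (nat_lit 10) .nil))))))) (.g (nat_lit 6) .nil .nil))) 
(.lf (nat_lit 12389) (.g (nat_lit 2469) (.e (nat_lit 720) (nat_lit 64) (.e (nat_lit 688177) (nat_lit 16) (.e (nat_lit 65571) (nat_lit 3) (.e (nat_lit 98359) (nat_lit 26) (.e (nat_lit 426286) (nat_lit 10) (.e (nat_lit 434248) (nat_lit 28) (.e (nat_lit 573503) (nat_lit 18) (.e (nat_lit 1014) (nat_lit 81) .nil)))))))) (.g (nat_lit 4) .nil .nil)))) (.nd (nat_lit 5) 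
(.lf (nat_lit 12373) (.g (nat_lit 3116) (.e (nat_lit 720) (nat_lit 64) (.e (nat_lit 688177) (nat_lit 16) (.e (nat_lit 65568) (nat_lit 2) (.e (nat_lit 90170) (nat_lit 13) (.e (nat_lit 172113) (nat_lit 10) (.e (nat_lit 434248) (nat_lit 28) (.e (nat_lit 573503) (nat_lit 18) (.e (nat_lit 992) (nat_lit 81) .nil)))))))) (.g (nat_lit 4) .nil .nil))) 
(.lf (nat_lit 12405) (.g (nat_lit 3092) (.e (nat_lit 720) (nat_lit 64) (.e (nat_lit 688177) (nat_lit 16) (.e (nat_lit 65583) (nat_lit 7) (.e (nat_lit 319530) (nat_lit 16) (.e (nat_lit 286759) (nat_lit 12) (.e (nat_lit 385092) (nat_lit 49) (.e (nat_lit 778506) (nat_lit 14) (.e (nat_lit 2400) (nat_lit 157) .nil)))))))) (.g (nat_lit 5) .nil .nil))))) (.nd (nat_lit 4) (.nd (nat_lit 5) 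
(.lf (nat_lit 12365) (.g (nat_lit 3111) (.e (nat_lit 720) (nat_lit 64) (.e (nat_lit 688177) (nat_lit 16) (.e (nat_lit 65566) (nat_lit 2) (.e (nat_lit 90170) (nat_lit 13) (.e (nat_lit 172113) (nat_lit 10) (.e (nat_lit 434248) (nat_lit 28) (.e (nat_lit 573503) (nat_lit 18) (.e (nat_lit 993) (nat_lit 81) .nil)))))))) (.g (nat_lit 5) .nil .nil))) 
(.lf (nat_lit 12397) (.g (nat_lit 2472) (.e (nat_lit 720) (nat_lit 64) (.e (nat_lit 688177) (nat_lit 16) (.e (nat_lit 65581) (nat_lit 7) (.e (nat_lit 319534) (nat_lit 16) (.e (nat_lit 286756) (nat_lit 10) (.e (nat_lit 344160) (nat_lit 37) (.e (nat_lit 647203) (nat_lit 14) (.e (nat_lit 988) (nat_lit 81) .nil)))))))) (.g (nat_lit 4) .nil .nil)))) (.nd (nat_lit 5) 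
(.lf (nat_lit 12381) (.g (nat_lit 2750) (.e (nat_lit 720) (nat_lit 64) (.e (nat_lit 688177) (nat_lit 16) (.e (nat_lit 65569) (nat_lit 3) (.e (nat_lit 98370) (nat_lit 28) (.e (nat_lit 442430) (nat_lit 24) (.e (nat_lit 229528) (nat_lit 129) (.e (nat_lit 8285) (nat_lit 51) .nil))))))) (.g (nat_lit 4) .nil .nil))) 
(.lf (nat_lit 12413) (.g (nat_lit 2139) (.e (nat_lit 720) (nat_lit 64) (.e (nat_lit 688177) (nat_lit 16) (.e (nat_lit 65586) (nat_lit 7) (.e (nat_lit 319531) (nat_lit 16) (.e (nat_lit 286748) (nat_lit 9) (.e (nat_lit 336295) (nat_lit 15) (.e (nat_lit 3617) (nat_lit 227) (.e (nat_lit 778506) (nat_lit 14) (.e (nat_lit 2397) (nat_lit 157) .nil))))))))) (.g (nat_lit 4) .nil .nil))))))) 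
(.nd (nat_lit 2) (.nd (nat_lit 3) (.nd (nat_lit 4) (.nd (nat_lit 5) 
(.lf (nat_lit 12355) (.g (nat_lit 2051) (.e (nat_lit 720) (nat_lit 64) (.e (nat_lit 688171) (nat_lit 15) (.e (nat_lit 57480) (nat_lit 28) (.e (nat_lit 557105) (nat_lit 14) (.e (nat_lit 180252) (nat_lit 10) (.e (nat_lit 573488) (nat_lit 14) (.e (nat_lit 73744) (nat_lit 2) (.e (nat_lit 507904) (nat_lit 0) .nil)))))))) (.g (nat_lit 4) .nil .nil))) 
(.lf (nat_lit 12387) (.g (nat_lit 3435) (.e (nat_lit 720) (nat_lit 64) (.e (nat_lit 688177) (nat_lit 16) (.e (nat_lit 65571) (nat_lit 3) (.e (nat_lit 98359) (nat_lit 26) (.e (nat_lit 426286) (nat_lit 10) (.e (nat_lit 434248) (nat_lit 28) (.e (nat_lit 573503) (nat_lit 18) (.e (nat_lit 992) (nat_lit 81) .nil)))))))) (.g (nat_lit 5) .nil .nil)))) (.nd (nat_lit 5) 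
(.lf (nat_lit 12371) (.g (nat_lit 1945) (.e (nat_lit 720) (nat_lit 64) (.e (nat_lit 688177) (nat_lit 16) (.e (nat_lit 65568) (nat_lit 2) (.e (nat_lit 90170) (nat_lit 13) (.e (nat_lit 172106) (nat_lit 10) (.e (nat_lit 434244) (nat_lit 28) (.e (nat_lit 573503) (nat_lit 18) (.e (nat_lit 1014) (nat_lit 81) .nil)))))))) (.g (nat_lit 4) .nil .nil))) 
(.lf (nat_lit 12403) (.g (nat_lit 2570) (.e (nat_lit 720) (nat_lit 64) (.e (nat_lit 688177) (nat_lit 16) (.e (nat_lit 65583) (nat_lit 7) (.e (nat_lit 319530) (nat_lit 16) (.e (nat_lit 286753) (nat_lit 10) (.e (nat_lit 344160) (nat_lit 37) (.e (nat_lit 647203) (nat_lit 14) (.e (nat_lit 1008) (nat_lit 81) .nil)))))))) (.g (nat_lit 4) .nil .nil))))) (.nd (nat_lit 4) (.nd (nat_lit 5) 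
(.lf (nat_lit 12363) (.g (nat_lit 3070) (.e (nat_lit 720) (nat_lit 64) (.e (nat_lit 688177) (nat_lit 16) (.e (nat_lit 65566) (nat_lit 2) (.e (nat_lit 90170) (nat_lit 13) (.e (nat_lit 172113) (nat_lit 10) (.e (nat_lit 434245) (nat_lit 28) (.e (nat_lit 573503) (nat_lit 18) (.e (nat_lit 992) (nat_lit 81) .nil)))))))) (.g (nat_lit 5) .nil .nil))) 
(.lf (nat_lit 12395) (.g (nat_lit 5046) (.e (nat_lit 720) (nat_lit 64) (.e (nat_lit 688177) (nat_lit 16) (.e (nat_lit 65571) (nat_lit 3) (.e (nat_lit 98373) (nat_lit 29) (.e (nat_lit 450588) (nat_lit 10) (.e (nat_lit 573503) (nat_lit 18) (.e (nat_lit 993) (nat_lit 81) .nil))))))) (.g (nat_lit 6) .nil .nil)))) (.nd (nat_lit 5) 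
(.lf (nat_lit 12379) (.g (nat_lit 2149) (.e (nat_lit 720) (nat_lit 64) (.e (nat_lit 688177) (nat_lit 16) (.e (nat_lit 65569) (nat_lit 3) (.e (nat_lit 98359) (nat_lit 26) (.e (nat_lit 426286) (nat_lit 10) (.e (nat_lit 434245) (nat_lit 28) (.e (nat_lit 573503) (nat_lit 18) (.e (nat_lit 1015) (nat_lit 81) .nil)))))))) (.g (nat_lit 4) .nil .nil))) 
(.lf (nat_lit 12411) (.g (nat_lit 2570) (.e (nat_lit 720) (nat_lit 64) (.e (nat_lit 688177) (nat_lit 16) (.e (nat_lit 65583) (nat_lit 7) (.e (nat_lit 319533) (nat_lit 16) (.e (nat_lit 286753) (nat_lit 10) (.e (nat_lit 344160) (nat_lit 37) (.e (nat_lit 647203) (nat_lit 14) (.e (nat_lit 1008) (nat_lit 81) .nil)))))))) (.g (nat_lit 4) .nil .nil)))))) 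
(.nd (nat_lit 3) (.nd (nat_lit 4) (.nd (nat_lit 5) 
(.lf (nat_lit 12359) (.g (nat_lit 1570) (.e (nat_lit 720) (nat_lit 64) (.e (nat_lit 688175) (nat_lit 16) (.e (nat_lit 65619) (nat_lit 10) (.e (nat_lit 344177) (nat_lit 43) (.e (nat_lit 770072) (nat_lit 8) .nil))))) .nil)) 
(.lf (nat_lit 12391) (.g (nat_lit 2277) (.e (nat_lit 720) (nat_lit 64) (.e (nat_lit 688177) (nat_lit 16) (.e (nat_lit 65571) (nat_lit 3) (.e (nat_lit 98370) (nat_lit 28) (.e (nat_lit 442430) (nat_lit 24) (.e (nat_lit 229528) (nat_lit 129) (.e (nat_lit 8286) (nat_lit 51) .nil))))))) (.g (nat_lit 4) .nil .nil)))) (.nd (nat_lit 5) 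
(.lf (nat_lit 12375) (.g (nat_lit 2847) (.e (nat_lit 720) (nat_lit 64) (.e (nat_lit 688177) (nat_lit 16) (.e (nat_lit 65568) (nat_lit 2) (.e (nat_lit 90170) (nat_lit 13) (.e (nat_lit 172113) (nat_lit 10) (.e (nat_lit 434248) (nat_lit 28) (.e (nat_lit 573503) (nat_lit 18) (.e (nat_lit 1015) (nat_lit 81) .nil)))))))) (.g (nat_lit 4) .nil .nil))) 
(.lf (nat_lit 12407) (.g (nat_lit 2304) (.e (nat_lit 720) (nat_lit 64) (.e (nat_lit 688177) (nat_lit 16) (.e (nat_lit 65583) (nat_lit 7) (.e (nat_lit 319530) (nat_lit 16) (.e (nat_lit 286759) (nat_lit 12) (.e (nat_lit 385092) (nat_lit 49) (.e (nat_lit 778506) (nat_lit 14) (.e (nat_lit 2403) (nat_lit 157) .nil)))))))) (.g (nat_lit 4) .nil .nil))))) (.nd (nat_lit 4) (.nd (nat_lit 5) 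
(.lf (nat_lit 12367) (.g (nat_lit 3203) (.e (nat_lit 720) (nat_lit 64) (.e (nat_lit 688177) (nat_lit 16) (.e (nat_lit 65566) (nat_lit 2) (.e (nat_lit 90170) (nat_lit 13) (.e (nat_lit 172113) (nat_lit 10) (.e (nat_lit 434248) (nat_lit 28) (.e (nat_lit 573503) (nat_lit 18) (.e (nat_lit 1015) (nat_lit 81) .nil)))))))) (.g (nat_lit 5) .nil .nil))) 
(.lf (nat_lit 12399) (.g (nat_lit 1864) (.e (nat_lit 720) (nat_lit 64) (.e (nat_lit 688177) (nat_lit 16) (.e (nat_lit 65583) (nat_lit 7) (.e (nat_lit 319530) (nat_lit 16) (.e (nat_lit 286743) (nat_lit 9) (.e (nat_lit 336327) (nat_lit 19) (.e (nat_lit 213039) (nat_lit 14) (.e (nat_lit 2400) (nat_lit 157) .nil)))))))) (.g (nat_lit 4) .nil .nil)))) (.nd (nat_lit 5) 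
(.lf (nat_lit 12383) (.g (nat_lit 4318) (.e (nat_lit 720) (nat_lit 64) (.e (nat_lit 688177) (nat_lit 16) (.e (nat_lit 65569) (nat_lit 3) (.e (nat_lit 98373) (nat_lit 29) (.e (nat_lit 450588) (nat_lit 10) (.e (nat_lit 573503) (nat_lit 18) (.e (nat_lit 993) (nat_lit 81) .nil))))))) (.g (nat_lit 5) .nil .nil))) 
(.lf (nat_lit 12415) (.g (nat_lit 2020) (.e (nat_lit 720) (nat_lit 64) (.e (nat_lit 688177) (nat_lit 16) (.e (nat_lit 65586) (nat_lit 7) (.e (nat_lit 319531) (nat_lit 16) (.e (nat_lit 286748) (nat_lit 9) (.e (nat_lit 336295) (nat_lit 15) (.e (nat_lit 3629) (nat_lit 227) (.e (nat_lit 778506) (nat_lit 14) (.e (nat_lit 2397) (nat_lit 157) .nil))))))))) (.g (nat_lit 4) .nil .nil)))))))))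

noncomputable def tv168 : DT := (.nd (nat_lit 0) (.nd (nat_lit 1) (.nd (nat_lit 2) (.nd (nat_lit 3) (.nd (nat_lit 4) (.nd (nat_lit 5) 
(.lf (nat_lit 12416) (.g (nat_lit 2494) (.e (nat_lit 720) (nat_lit 64) (.e (nat_lit 688177) (nat_lit 16) (.e (nat_lit 65586) (nat_lit 7) (.e (nat_lit 319531) (nat_lit 16) (.e (nat_lit 286748) (nat_lit 9) (.e (nat_lit 336295) (nat_lit 15) (.e (nat_lit 3631) (nat_lit 227) (.e (nat_lit 778506) (nat_lit 14) (.e (nat_lit 2400) (nat_lit 157) .nil))))))))) (.g (nat_lit 4) .nil .nil))) 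
(.lf (nat_lit 12448) (.g (nat_lit 3340) (.e (nat_lit 720) (nat_lit 64) (.e (nat_lit 688177) (nat_lit 16) (.e (nat_lit 65586) (nat_lit 7) (.e (nat_lit 319534) (nat_lit 16) (.e (nat_lit 286756) (nat_lit 10) (.e (nat_lit 344160) (nat_lit 37) (.e (nat_lit 647203) (nat_lit 14) (.e (nat_lit 982) (nat_lit 81) .nil)))))))) (.g (nat_lit 5) .nil .nil)))) (.nd (nat_lit 5) 
(.lf (nat_lit 12432) (.g (nat_lit 2196) (.e (nat_lit 720) (nat_lit 64) (.e (nat_lit 688177) (nat_lit 16) (.e (nat_lit 65586) (nat_lit 7) (.e (nat_lit 319531) (nat_lit 16) (.e (nat_lit 286756) (nat_lit 10) (.e (nat_lit 344160) (nat_lit 37) (.e (nat_lit 647203) (nat_lit 14) (.e (nat_lit 1015) (nat_lit 81) .nil)))))))) (.g (nat_lit 4) .nil .nil))) 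
(.lf (nat_lit 12464) (.g (nat_lit 3014) (.e (nat_lit 720) (nat_lit 64) (.e (nat_lit 688177) (nat_lit 16) (.e (nat_lit 65610) (nat_lit 10) (.e (nat_lit 344176) (nat_lit 43) (.e (nat_lit 770072) (nat_lit 8) (.e (nat_lit 65583) (nat_lit 7) (.e (nat_lit 319499) (nat_lit 10) .nil))))))) (.g (nat_lit 5) .nil .nil))))) (.nd (nat_lit 4) (.nd (nat_lit 5) 
(.lf (nat_lit 12424) (.g (nat_lit 3485) (.e (nat_lit 720) (nat_lit 64) (.e (nat_lit 688177) (nat_lit 16) (.e (nat_lit 65586) (nat_lit 7) (.e (nat_lit 319531) (nat_lit 16) (.e (nat_lit 286753) (nat_lit 10) (.e (nat_lit 344160) (nat_lit 37) (.e (nat_lit 647203) (nat_lit 14) (.e (nat_lit 988) (nat_lit 81) .nil)))))))) (.g (nat_lit 4) .nil .nil))) 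
(.lf (nat_lit 12456) (.g (nat_lit 2764) (.e (nat_lit 720) (nat_lit 64) (.e (nat_lit 688177) (nat_lit 16) (.e (nat_lit 65586) (nat_lit 7) (.e (nat_lit 319534) (nat_lit 16) (.e (nat_lit 286756) (nat_lit 10) (.e (nat_lit 344160) (nat_lit 37) (.e (nat_lit 655104) (nat_lit 14) (.e (nat_lit 999) (nat_lit 81) .nil)))))))) (.g (nat_lit 4) .nil .nil)))) (.nd (nat_lit 5) 
(.lf (nat_lit 12440) (.g (nat_lit 2242) (.e (nat_lit 720) (nat_lit 64) (.e (nat_lit 688177) (nat_lit 16) (.e (nat_lit 65586) (nat_lit 7) (.e (nat_lit 319531) (nat_lit 16) (.e (nat_lit 286759) (nat_lit 12) (.e (nat_lit 385093) (nat_lit 49) (.e (nat_lit 778506) (nat_lit 14) (.e (nat_lit 2400) (nat_lit 157) .nil)))))))) (.g (nat_lit 4) .nil .nil))) 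
(.lf (nat_lit 12472) (.g (nat_lit 1143) (.e (nat_lit 720) (nat_lit 64) (.e (nat_lit 688177) (nat_lit 16) (.e (nat_lit 65617) (nat_lit 10) (.e (nat_lit 344091) (nat_lit 18) .nil)))) .nil))))) (.nd (nat_lit 3) (.nd (nat_lit 4) (.nd (nat_lit 5) 
(.lf (nat_lit 12420) (.g (nat_lit 3915) (.e (nat_lit 720) (nat_lit 64) (.e (nat_lit 688177) (nat_lit 16) (.e (nat_lit 65586) (nat_lit 7) (.e (nat_lit 319531) (nat_lit 16) (.e (nat_lit 286748) (nat_lit 9) (.e (nat_lit 336295) (nat_lit 15) (.e (nat_lit 3806) (nat_lit 231) (.e (nat_lit 818944) (nat_lit 0) .nil)))))))) (.g (nat_lit 7) .nil .nil))) 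
(.lf (nat_lit 12452) (.g (nat_lit 4481) (.e (nat_lit 720) (nat_lit 64) (.e (nat_lit 688177) (nat_lit 16) (.e (nat_lit 65586) (nat_lit 7) (.e (nat_lit 319534) (nat_lit 16) (.e (nat_lit 286756) (nat_lit 10) (.e (nat_lit 344160) (nat_lit 37) (.e (nat_lit 647203) (nat_lit 14) (.e (nat_lit 1008) (nat_lit 81) .nil)))))))) (.g (nat_lit 6) .nil .nil)))) (.nd (nat_lit 5) 
(.lf (nat_lit 12436) (.g (nat_lit 3311) (.e (nat_lit 720) (nat_lit 64) (.e (nat_lit 688177) (nat_lit 16) (.e (nat_lit 65586) (nat_lit 7) (.e (nat_lit 319531) (nat_lit 16) (.e (nat_lit 286759) (nat_lit 12) (.e (nat_lit 385092) (nat_lit 49) (.e (nat_lit 778506) (nat_lit 14) (.e (nat_lit 2400) (nat_lit 157) .nil)))))))) (.g (nat_lit 5) .nil .nil))) 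
(.lf (nat_lit 12468) (.g (nat_lit 2805) (.e (nat_lit 720) (nat_lit 64) (.e (nat_lit 688177) (nat_lit 16) (.e (nat_lit 65610) (nat_lit 10) (.e (nat_lit 344177) (nat_lit 43) (.e (nat_lit 770072) (nat_lit 8) (.e (nat_lit 65583) (nat_lit 7) (.e (nat_lit 319497) (nat_lit 10) .nil))))))) (.g (nat_lit 5) .nil .nil))))) (.nd (nat_lit 4) (.nd (nat_lit 5) 
(.lf (nat_lit 12428) (.g (nat_lit 3028) (.e (nat_lit 720) (nat_lit 64) (.e (nat_lit 688177) (nat_lit 16) (.e (nat_lit 65586) (nat_lit 7) (.e (nat_lit 319531) (nat_lit 16) (.e (nat_lit 286756) (nat_lit 10) (.e (nat_lit 344160) (nat_lit 37) (.e (nat_lit 647203) (nat_lit 14) (.e (nat_lit 992) (nat_lit 81) .nil)))))))) (.g (nat_lit 5) .nil .nil))) 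
(.lf (nat_lit 12460) (.g (nat_lit 1575) (.e (nat_lit 720) (nat_lit 64) (.e (nat_lit 688177) (nat_lit 16) (.e (nat_lit 65610) (nat_lit 10) (.e (nat_lit 344097) (nat_lit 18) (.e (nat_lit 7147) (nat_lit 382) .nil))))) .nil))) (.nd (nat_lit 5) 
(.lf (nat_lit 12444) (.g (nat_lit 2538) (.e (nat_lit 720) (nat_lit 64) (.e (nat_lit 688177) (nat_lit 16) (.e (nat_lit 65586) (nat_lit 7) (.e (nat_lit 319531) (nat_lit 16) (.e (nat_lit 286759) (nat_lit 12) (.e (nat_lit 385115) (nat_lit 53) (.e (nat_lit 818944) (nat_lit 0) .nil))))))) (.g (nat_lit 4) .nil .nil))) 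
(.lf (nat_lit 12476) (.g (nat_lit 2162) (.e (nat_lit 720) (nat_lit 64) (.e (nat_lit 688177) (nat_lit 16) (.e (nat_lit 65617) (nat_lit 10) (.e (nat_lit 344096) (nat_lit 18) (.e (nat_lit 7261) (nat_lit 384) (.e (nat_lit 57412) (nat_lit 12) (.e (nat_lit 336061) (nat_lit 7) (.e (nat_lit 319500) (nat_lit 10) .nil)))))))) (.g (nat_lit 4) .nil .nil))))))) 
(.nd (nat_lit 2) (.nd (nat_lit 3) (.nd (nat_lit 4) (.nd (nat_lit 5) 
(.lf (nat_lit 12418) (.g (nat_lit 4199) (.e (nat_lit 720) (nat_lit 64) (.e (nat_lit 688177) (nat_lit 16) (.e (nat_lit 65586) (nat_lit 7) (.e (nat_lit 319531) (nat_lit 16) (.e (nat_lit 286748) (nat_lit 9) (.e (nat_lit 336295) (nat_lit 15) (.e (nat_lit 3632) (nat_lit 227) (.e (nat_lit 778506) (nat_lit 14) (.e (nat_lit 2400) (nat_lit 157) .nil))))))))) (.g (nat_lit 7) .nil .nil))) 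
(.lf (nat_lit 12450) (.g (nat_lit 3028) (.e (nat_lit 720) (nat_lit 64) (.e (nat_lit 688177) (nat_lit 16) (.e (nat_lit 65586) (nat_lit 7) (.e (nat_lit 319534) (nat_lit 16) (.e (nat_lit 286756) (nat_lit 10) (.e (nat_lit 344160) (nat_lit 37) (.e (nat_lit 647203) (nat_lit 14) (.e (nat_lit 992) (nat_lit 81) .nil)))))))) (.g (nat_lit 5) .nil .nil)))) (.nd (nat_lit 5) 
(.lf (nat_lit 12434) (.g (nat_lit 2755) (.e (nat_lit 720) (nat_lit 64) (.e (nat_lit 688177) (nat_lit 16) (.e (nat_lit 65586) (nat_lit 7) (.e (nat_lit 319531) (nat_lit 16) (.e (nat_lit 286756) (nat_lit 10) (.e (nat_lit 344160) (nat_lit 37) (.e (nat_lit 655104) (nat_lit 14) (.e (nat_lit 999) (nat_lit 81) .nil)))))))) (.g (nat_lit 4) .nil .nil))) 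
(.lf (nat_lit 12466) (.g (nat_lit 2316) (.e (nat_lit 720) (nat_lit 64) (.e (nat_lit 688177) (nat_lit 16) (.e (nat_lit 65610) (nat_lit 10) (.e (nat_lit 344176) (nat_lit 43) (.e (nat_lit 770072) (nat_lit 8) (.e (nat_lit 65586) (nat_lit 7) (.e (nat_lit 319505) (nat_lit 10) .nil))))))) (.g (nat_lit 5) .nil .nil))))) (.nd (nat_lit 4) (.nd (nat_lit 5) 
(.lf (nat_lit 12426) (.g (nat_lit 3340) (.e (nat_lit 720) (nat_lit 64) (.e (nat_lit 688177) (nat_lit 16) (.e (nat_lit 65586) (nat_lit 7) (.e (nat_lit 319531) (nat_lit 16) (.e (nat_lit 286756) (nat_lit 10) (.e (nat_lit 344160) (nat_lit 37) (.e (nat_lit 647203) (nat_lit 14) (.e (nat_lit 982) (nat_lit 81) .nil)))))))) (.g (nat_lit 5) .nil .nil))) 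
(.lf (nat_lit 12458) (.g (nat_lit 1643) (.e (nat_lit 720) (nat_lit 64) (.e (nat_lit 688177) (nat_lit 16) (.e (nat_lit 65610) (nat_lit 10) (.e (nat_lit 344090) (nat_lit 18) (.e (nat_lit 7261) (nat_lit 384) (.e (nat_lit 57412) (nat_lit 12) (.e (nat_lit 336061) (nat_lit 7) (.e (nat_lit 319500) (nat_lit 10) .nil)))))))) (.g (nat_lit 4) .nil .nil)))) (.nd (nat_lit 5) 
(.lf (nat_lit 12442) (.g (nat_lit 3904) (.e (nat_lit 720) (nat_lit 64) (.e (nat_lit 688177) (nat_lit 16) (.e (nat_lit 65586) (nat_lit 7) (.e (nat_lit 319531) (nat_lit 16) (.e (nat_lit 286759) (nat_lit 12) (.e (nat_lit 385094) (nat_lit 49) (.e (nat_lit 778506) (nat_lit 14) (.e (nat_lit 2397) (nat_lit 157) .nil)))))))) (.g (nat_lit 6) .nil .nil))) 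
(.lf (nat_lit 12474) (.g (nat_lit 2053) (.e (nat_lit 720) (nat_lit 64) (.e (nat_lit 688177) (nat_lit 16) (.e (nat_lit 65617) (nat_lit 10) (.e (nat_lit 344091) (nat_lit 18) (.e (nat_lit 7265) (nat_lit 384) (.e (nat_lit 57412) (nat_lit 12) (.e (nat_lit 336061) (nat_lit 7) (.e (nat_lit 319500) (nat_lit 10) .nil)))))))) (.g (nat_lit 4) .nil .nil)))))) 
(.nd (nat_lit 3) (.nd (nat_lit 4) (.nd (nat_lit 5) 
(.lf (nat_lit 12422) (.g (nat_lit 2472) (.e (nat_lit 720) (nat_lit 64) (.e (nat_lit 688177) (nat_lit 16) (.e (nat_lit 65586) (nat_lit 7) (.e (nat_lit 319531) (nat_lit 16) (.e (nat_lit 286751) (nat_lit 10) (.e (nat_lit 344160) (nat_lit 37) (.e (nat_lit 647203) (nat_lit 14) (.e (nat_lit 1008) (nat_lit 81) .nil)))))))) (.g (nat_lit 4) .nil .nil))) 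
(.lf (nat_lit 12454) (.g (nat_lit 2196) (.e (nat_lit 720) (nat_lit 64) (.e (nat_lit 688177) (nat_lit 16) (.e (nat_lit 65586) (nat_lit 7) (.e (nat_lit 319534) (nat_lit 16) (.e (nat_lit 286756) (nat_lit 10) (.e (nat_lit 344160) (nat_lit 37) (.e (nat_lit 647203) (nat_lit 14) (.e (nat_lit 1015) (nat_lit 81) .nil)))))))) (.g (nat_lit 4) .nil .nil)))) (.nd (nat_lit 5) 
(.lf (nat_lit 12438) (.g (nat_lit 2716) (.e (nat_lit 720) (nat_lit 64) (.e (nat_lit 688177) (nat_lit 16) (.e (nat_lit 65586) (nat_lit 7) (.e (nat_lit 319531) (nat_lit 16) (.e (nat_lit 286759) (nat_lit 12) (.e (nat_lit 385092) (nat_lit 49) (.e (nat_lit 778506) (nat_lit 14) (.e (nat_lit 2403) (nat_lit 157) .nil)))))))) (.g (nat_lit 4) .nil .nil))) 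
(.lf (nat_lit 12470) (.g (nat_lit 1946) (.e (nat_lit 720) (nat_lit 64) (.e (nat_lit 688177) (nat_lit 16) (.e (nat_lit 65611) (nat_lit 10) (.e (nat_lit 344177) (nat_lit 43) (.e (nat_lit 770072) (nat_lit 8) (.e (nat_lit 65586) (nat_lit 7) (.e (nat_lit 319500) (nat_lit 10) .nil))))))) (.g (nat_lit 4) .nil .nil))))) (.nd (nat_lit 4) (.nd (nat_lit 5) 
(.lf (nat_lit 12430) (.g (nat_lit 4481) (.e (nat_lit 720) (nat_lit 64) (.e (nat_lit 688177) (nat_lit 16) (.e (nat_lit 65586) (nat_lit 7) (.e (nat_lit 319531) (nat_lit 16) (.e (nat_lit 286756) (nat_lit 10) (.e (nat_lit 344160) (nat_lit 37) (.e (nat_lit 647203) (nat_lit 14) (.e (nat_lit 1008) (nat_lit 81) .nil)))))))) (.g (nat_lit 6) .nil .nil))) 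
(.lf (nat_lit 12462) (.g (nat_lit 2231) (.e (nat_lit 720) (nat_lit 64) (.e (nat_lit 688177) (nat_lit 16) (.e (nat_lit 65610) (nat_lit 10) (.e (nat_lit 344176) (nat_lit 43) (.e (nat_lit 770071) (nat_lit 8) (.e (nat_lit 65586) (nat_lit 7) (.e (nat_lit 319500) (nat_lit 10) .nil))))))) (.g (nat_lit 4) .nil .nil)))) (.nd (nat_lit 5) 
(.lf (nat_lit 12446) (.g (nat_lit 2571) (.e (nat_lit 720) (nat_lit 64) (.e (nat_lit 688177) (nat_lit 16) (.e (nat_lit 65586) (nat_lit 7) (.e (nat_lit 319533) (nat_lit 16) (.e (nat_lit 286753) (nat_lit 10) (.e (nat_lit 344160) (nat_lit 37) (.e (nat_lit 647203) (nat_lit 14) (.e (nat_lit 988) (nat_lit 81) .nil)))))))) (.g (nat_lit 4) .nil .nil))) 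
(.lf (nat_lit 12478) (.g (nat_lit 2050) (.e (nat_lit 720) (nat_lit 64) (.e (nat_lit 688177) (nat_lit 16) (.e (nat_lit 65617) (nat_lit 10) (.e (nat_lit 344096) (nat_lit 18) (.e (nat_lit 7464) (nat_lit 396) (.e (nat_lit 2422) (nat_lit 157) (.e (nat_lit 232) (nat_lit 21) (.e (nat_lit 336060) (nat_lit 7) (.e (nat_lit 319505) (nat_lit 10) .nil))))))))) (.g (nat_lit 4) .nil .nil)))))))) 
(.nd (nat_lit 1) (.nd (nat_lit 2) (.nd (nat_lit 3) (.nd (nat_lit 4) (.nd (nat_lit 5) 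
(.lf (nat_lit 12417) (.g (nat_lit 4736) (.e (nat_lit 720) (nat_lit 64) (.e (nat_lit 688177) (nat_lit 16) (.e (nat_lit 65586) (nat_lit 7) (.e (nat_lit 319531) (nat_lit 16) (.e (nat_lit 286748) (nat_lit 9) (.e (nat_lit 336295) (nat_lit 15) (.e (nat_lit 3632) (nat_lit 227) (.e (nat_lit 778506) (nat_lit 14) (.e (nat_lit 2397) (nat_lit 157) .nil))))))))) (.g (nat_lit 8) .nil .nil))) 
(.lf (nat_lit 12449) (.g (nat_lit 4481) (.e (nat_lit 720) (nat_lit 64) (.e (nat_lit 688177) (nat_lit 16) (.e (nat_lit 65586) (nat_lit 7) (.e (nat_lit 319534) (nat_lit 16) (.e (nat_lit 286756) (nat_lit 10) (.e (nat_lit 344160) (nat_lit 37) (.e (nat_lit 647203) (nat_lit 14) (.e (nat_lit 988) (nat_lit 81) .nil)))))))) (.g (nat_lit 6) .nil .nil)))) (.nd (nat_lit 5) 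
(.lf (nat_lit 12433) (.g (nat_lit 2164) (.e (nat_lit 720) (nat_lit 64) (.e (nat_lit 688177) (nat_lit 16) (.e (nat_lit 65586) (nat_lit 7) (.e (nat_lit 319531) (nat_lit 16) (.e (nat_lit 286756) (nat_lit 10) (.e (nat_lit 344160) (nat_lit 37) (.e (nat_lit 655104) (nat_lit 14) (.e (nat_lit 974) (nat_lit 81) .nil)))))))) (.g (nat_lit 4) .nil .nil))) 
(.lf (nat_lit 12465) (.g (nat_lit 3048) (.e (nat_lit 720) (nat_lit 64) (.e (nat_lit 688177) (nat_lit 16) (.e (nat_lit 65610) (nat_lit 10) (.e (nat_lit 344176) (nat_lit 43) (.e (nat_lit 770072) (nat_lit 8) (.e (nat_lit 65586) (nat_lit 7) (.e (nat_lit 319500) (nat_lit 10) .nil))))))) (.g (nat_lit 6) .nil .nil))))) (.nd (nat_lit 4) (.nd (nat_lit 5) 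
(.lf (nat_lit 12425) (.g (nat_lit 3485) (.e (nat_lit 720) (nat_lit 64) (.e (nat_lit 688177) (nat_lit 16) (.e (nat_lit 65586) (nat_lit 7) (.e (nat_lit 319531) (nat_lit 16) (.e (nat_lit 286753) (nat_lit 10) (.e (nat_lit 344160) (nat_lit 37) (.e (nat_lit 647203) (nat_lit 14) (.e (nat_lit 1008) (nat_lit 81) .nil)))))))) (.g (nat_lit 4) .nil .nil))) 
(.lf (nat_lit 12457) (.g (nat_lit 2284) (.e (nat_lit 720) (nat_lit 64) (.e (nat_lit 688177) (nat_lit 16) (.e (nat_lit 65604) (nat_lit 9) (.e (nat_lit 335907) (nat_lit 0) (.e (nat_lit 2343) (nat_lit 151) (.e (nat_lit 778464) (nat_lit 11) (.e (nat_lit 24617) (nat_lit 7) (.e (nat_lit 319505) (nat_lit 10) .nil)))))))) (.g (nat_lit 4) .nil .nil)))) (.nd (nat_lit 5) 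
(.lf (nat_lit 12441) (.g (nat_lit 2723) (.e (nat_lit 720) (nat_lit 64) (.e (nat_lit 688177) (nat_lit 16) (.e (nat_lit 65586) (nat_lit 7) (.e (nat_lit 319531) (nat_lit 16) (.e (nat_lit 286759) (nat_lit 12) (.e (nat_lit 385093) (nat_lit 49) (.e (nat_lit 778506) (nat_lit 14) (.e (nat_lit 2402) (nat_lit 157) .nil)))))))) (.g (nat_lit 4) .nil .nil))) 
(.lf (nat_lit 12473) (.g (nat_lit 2056) (.e (nat_lit 720) (nat_lit 64) (.e (nat_lit 688177) (nat_lit 16) (.e (nat_lit 65617) (nat_lit 10) (.e (nat_lit 344091) (nat_lit 18) (.e (nat_lit 7261) (nat_lit 384) (.e (nat_lit 57412) (nat_lit 12) (.e (nat_lit 336061) (nat_lit 7) (.e (nat_lit 319500) (nat_lit 10) .nil)))))))) (.g (nat_lit 4) .nil .nil)))))) 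
(.nd (nat_lit 3) (.nd (nat_lit 4) (.nd (nat_lit 5) 
(.lf (nat_lit 12421) (.g (nat_lit 2472) (.e (nat_lit 720) (nat_lit 64) (.e (nat_lit 688177) (nat_lit 16) (.e (nat_lit 65586) (nat_lit 7) (.e (nat_lit 319531) (nat_lit 16) (.e (nat_lit 286751) (nat_lit 10) (.e (nat_lit 344160) (nat_lit 37) (.e (nat_lit 647203) (nat_lit 14) (.e (nat_lit 988) (nat_lit 81) .nil)))))))) (.g (nat_lit 4) .nil .nil))) 
(.lf (nat_lit 12453) (.g (nat_lit 3028) (.e (nat_lit 720) (nat_lit 64) (.e (nat_lit 688177) (nat_lit 16) (.e (nat_lit 65586) (nat_lit 7) (.e (nat_lit 319534) (nat_lit 16) (.e (nat_lit 286756) (nat_lit 10) (.e (nat_lit 344160) (nat_lit 37) (.e (nat_lit 647203) (nat_lit 14) (.e (nat_lit 1014) (nat_lit 81) .nil)))))))) (.g (nat_lit 5) .nil .nil)))) (.nd (nat_lit 5) 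
(.lf (nat_lit 12437) (.g (nat_lit 3792) (.e (nat_lit 720) (nat_lit 64) (.e (nat_lit 688177) (nat_lit 16) (.e (nat_lit 65586) (nat_lit 7) (.e (nat_lit 319531) (nat_lit 16) (.e (nat_lit 286759) (nat_lit 12) (.e (nat_lit 385092) (nat_lit 49) (.e (nat_lit 778506) (nat_lit 14) (.e (nat_lit 2402) (nat_lit 157) .nil)))))))) (.g (nat_lit 6) .nil .nil))) 
(.lf (nat_lit 12469) (.g (nat_lit 3903) (.e (nat_lit 720) (nat_lit 64) (.e (nat_lit 688177) (nat_lit 16) (.e (nat_lit 65610) (nat_lit 10) (.e (nat_lit 344177) (nat_lit 43) (.e (nat_lit 770072) (nat_lit 8) (.e (nat_lit 65586) (nat_lit 7) (.e (nat_lit 319505) (nat_lit 10) .nil))))))) (.g (nat_lit 0) .nil .nil))))) (.nd (nat_lit 4) (.nd (nat_lit 5) 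
(.lf (nat_lit 12429) (.g (nat_lit 2196) (.e (nat_lit 720) (nat_lit 64) (.e (nat_lit 688177) (nat_lit 16) (.e (nat_lit 65586) (nat_lit 7) (.e (nat_lit 319531) (nat_lit 16) (.e (nat_lit 286756) (nat_lit 10) (.e (nat_lit 344160) (nat_lit 37) (.e (nat_lit 647203) (nat_lit 14) (.e (nat_lit 993) (nat_lit 81) .nil)))))))) (.g (nat_lit 4) .nil .nil))) 
(.lf (nat_lit 12461) (.g (nat_lit 936) (.e (nat_lit 720) (nat_lit 64) (.e (nat_lit 688177) (nat_lit 16) (.e (nat_lit 65610) (nat_lit 10) (.e (nat_lit 344176) (nat_lit 43) .nil)))) .nil))) (.nd (nat_lit 5) 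
(.lf (nat_lit 12445) (.g (nat_lit 1680) (.e (nat_lit 720) (nat_lit 64) (.e (nat_lit 688177) (nat_lit 16) (.e (nat_lit 65586) (nat_lit 7) (.e (nat_lit 319533) (nat_lit 16) (.e (nat_lit 286753) (nat_lit 10) .nil))))) .nil)) 
(.lf (nat_lit 12477) (.g (nat_lit 2164) (.e (nat_lit 720) (nat_lit 64) (.e (nat_lit 688177) (nat_lit 16) (.e (nat_lit 65617) (nat_lit 10) (.e (nat_lit 344096) (nat_lit 18) (.e (nat_lit 7265) (nat_lit 384) (.e (nat_lit 57412) (nat_lit 12) (.e (nat_lit 336061) (nat_lit 7) (.e (nat_lit 319500) (nat_lit 10) .nil)))))))) (.g (nat_lit 4) .nil .nil))))))) 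
(.nd (nat_lit 2) (.nd (nat_lit 3) (.nd (nat_lit 4) (.nd (nat_lit 5) 
(.lf (nat_lit 12419) (.g (nat_lit 4680) (.e (nat_lit 720) (nat_lit 64) (.e (nat_lit 688177) (nat_lit 16) (.e (nat_lit 65586) (nat_lit 7) (.e (nat_lit 319531) (nat_lit 16) (.e (nat_lit 286748) (nat_lit 9) (.e (nat_lit 336295) (nat_lit 15) (.e (nat_lit 3632) (nat_lit 227) (.e (nat_lit 778506) (nat_lit 14) (.e (nat_lit 2402) (nat_lit 157) .nil))))))))) (.g (nat_lit 7) .nil .nil))) 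
(.lf (nat_lit 12451) (.g (nat_lit 2196) (.e (nat_lit 720) (nat_lit 64) (.e (nat_lit 688177) (nat_lit 16) (.e (nat_lit 65586) (nat_lit 7) (.e (nat_lit 319534) (nat_lit 16) (.e (nat_lit 286756) (nat_lit 10) (.e (nat_lit 344160) (nat_lit 37) (.e (nat_lit 647203) (nat_lit 14) (.e (nat_lit 993) (nat_lit 81) .nil)))))))) (.g (nat_lit 4) .nil .nil)))) (.nd (nat_lit 5) 
(.lf (nat_lit 12435) (.g (nat_lit 3851) (.e (nat_lit 720) (nat_lit 64) (.e (nat_lit 688177) (nat_lit 16) (.e (nat_lit 65586) (nat_lit 7) (.e (nat_lit 319531) (nat_lit 16) (.e (nat_lit 286759) (nat_lit 12) (.e (nat_lit 385092) (nat_lit 49) (.e (nat_lit 778506) (nat_lit 14) (.e (nat_lit 2397) (nat_lit 157) .nil)))))))) (.g (nat_lit 6) .nil .nil))) 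
(.lf (nat_lit 12467) (.g (nat_lit 3167) (.e (nat_lit 720) (nat_lit 64) (.e (nat_lit 688177) (nat_lit 16) (.e (nat_lit 65610) (nat_lit 10) (.e (nat_lit 344177) (nat_lit 43) (.e (nat_lit 770071) (nat_lit 8) (.e (nat_lit 65583) (nat_lit 7) (.e (nat_lit 319499) (nat_lit 10) .nil))))))) (.g (nat_lit 6) .nil .nil))))) (.nd (nat_lit 4) (.nd (nat_lit 5) 
(.lf (nat_lit 12427) (.g (nat_lit 4481) (.e (nat_lit 720) (nat_lit 64) (.e (nat_lit 688177) (nat_lit 16) (.e (nat_lit 65586) (nat_lit 7) (.e (nat_lit 319531) (nat_lit 16) (.e (nat_lit 286756) (nat_lit 10) (.e (nat_lit 344160) (nat_lit 37) (.e (nat_lit 647203) (nat_lit 14) (.e (nat_lit 988) (nat_lit 81) .nil)))))))) (.g (nat_lit 6) .nil .nil))) 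
(.lf (nat_lit 12459) (.g (nat_lit 1555) (.e (nat_lit 720) (nat_lit 64) (.e (nat_lit 688177) (nat_lit 16) (.e (nat_lit 65610) (nat_lit 10) (.e (nat_lit 344090) (nat_lit 18) (.e (nat_lit 7265) (nat_lit 384) (.e (nat_lit 57412) (nat_lit 12) (.e (nat_lit 336061) (nat_lit 7) (.e (nat_lit 319500) (nat_lit 10) .nil)))))))) (.g (nat_lit 4) .nil .nil)))) (.nd (nat_lit 5) 
(.lf (nat_lit 12443) (.g (nat_lit 3831) (.e (nat_lit 720) (nat_lit 64) (.e (nat_lit 688177) (nat_lit 16) (.e (nat_lit 65586) (nat_lit 7) (.e (nat_lit 319531) (nat_lit 16) (.e (nat_lit 286759) (nat_lit 12) (.e (nat_lit 385094) (nat_lit 49) (.e (nat_lit 778506) (nat_lit 14) (.e (nat_lit 2402) (nat_lit 157) .nil)))))))) (.g (nat_lit 6) .nil .nil))) 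
(.lf (nat_lit 12475) (.g (nat_lit 1108) (.e (nat_lit 720) (nat_lit 64) (.e (nat_lit 688177) (nat_lit 16) (.e (nat_lit 65617) (nat_lit 10) (.e (nat_lit 344096) (nat_lit 18) .nil)))) .nil))))) (.nd (nat_lit 3) (.nd (nat_lit 4) (.nd (nat_lit 5) 
(.lf (nat_lit 12423) (.g (nat_lit 2718) (.e (nat_lit 720) (nat_lit 64) (.e (nat_lit 688177) (nat_lit 16) (.e (nat_lit 65586) (nat_lit 7) (.e (nat_lit 319531) (nat_lit 16) (.e (nat_lit 286753) (nat_lit 10) .nil))))) .nil)) 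
(.lf (nat_lit 12455) (.g (nat_lit 2173) (.e (nat_lit 720) (nat_lit 64) (.e (nat_lit 688177) (nat_lit 16) (.e (nat_lit 65586) (nat_lit 7) (.e (nat_lit 319534) (nat_lit 16) (.e (nat_lit 286756) (nat_lit 10) (.e (nat_lit 344160) (nat_lit 37) (.e (nat_lit 655104) (nat_lit 14) (.e (nat_lit 974) (nat_lit 81) .nil)))))))) (.g (nat_lit 4) .nil .nil)))) (.nd (nat_lit 5) 
(.lf (nat_lit 12439) (.g (nat_lit 2797) (.e (nat_lit 720) (nat_lit 64) (.e (nat_lit 688177) (nat_lit 16) (.e (nat_lit 65586) (nat_lit 7) (.e (nat_lit 319531) (nat_lit 16) (.e (nat_lit 286759) (nat_lit 12) (.e (nat_lit 385093) (nat_lit 49) (.e (nat_lit 778506) (nat_lit 14) (.e (nat_lit 2397) (nat_lit 157) .nil)))))))) (.g (nat_lit 5) .nil .nil))) 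
(.lf (nat_lit 12471) (.g (nat_lit 541) (.e (nat_lit 720) (nat_lit 64) (.e (nat_lit 688177) (nat_lit 16) (.e (nat_lit 65617) (nat_lit 10) .nil))) .nil)))) (.nd (nat_lit 4) (.nd (nat_lit 5) 
(.lf (nat_lit 12431) (.g (nat_lit 3028) (.e (nat_lit 720) (nat_lit 64) (.e (nat_lit 688177) (nat_lit 16) (.e (nat_lit 65586) (nat_lit 7) (.e (nat_lit 319531) (nat_lit 16) (.e (nat_lit 286756) (nat_lit 10) (.e (nat_lit 344160) (nat_lit 37) (.e (nat_lit 647203) (nat_lit 14) (.e (nat_lit 1014) (nat_lit 81) .nil)))))))) (.g (nat_lit 5) .nil .nil))) 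
(.lf (nat_lit 12463) (.g (nat_lit 1495) (.e (nat_lit 720) (nat_lit 64) (.e (nat_lit 688177) (nat_lit 16) (.e (nat_lit 65610) (nat_lit 10) (.e (nat_lit 344176) (nat_lit 43) (.e (nat_lit 770072) (nat_lit 8) .nil))))) .nil))) (.nd (nat_lit 5) 
(.lf (nat_lit 12447) (.g (nat_lit 2571) (.e (nat_lit 720) (nat_lit 64) (.e (nat_lit 688177) (nat_lit 16) (.e (nat_lit 65586) (nat_lit 7) (.e (nat_lit 319533) (nat_lit 16) (.e (nat_lit 286753) (nat_lit 10) (.e (nat_lit 344160) (nat_lit 37) (.e (nat_lit 647203) (nat_lit 14) (.e (nat_lit 1008) (nat_lit 81) .nil)))))))) (.g (nat_lit 4) .nil .nil))) 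
(.lf (nat_lit 12479) (.g (nat_lit 1332) (.e (nat_lit 720) (nat_lit 64) (.e (nat_lit 688177) (nat_lit 16) (.e (nat_lit 65617) (nat_lit 10) (.e (nat_lit 344175) (nat_lit 43) .nil)))) .nil))))))))

noncomputable def tv169 : DT := (.nd (nat_lit 0) (.nd (nat_lit 1) (.nd (nat_lit 2) (.nd (nat_lit 3) (.nd (nat_lit 4) (.nd (nat_lit 5) 
(.lf (nat_lit 12480) (.g (nat_lit 2520) (.e (nat_lit 720) (nat_lit 64) (.e (nat_lit 688177) (nat_lit 16) (.e (nat_lit 65617) (nat_lit 10) (.e (nat_lit 344175) (nat_lit 43) (.e (nat_lit 770072) (nat_lit 8) (.e (nat_lit 65583) (nat_lit 7) (.e (nat_lit 319499) (nat_lit 10) .nil))))))) (.g (nat_lit 5) .nil .nil))) 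
(.lf (nat_lit 12512) (.g (nat_lit 1415) (.e (nat_lit 720) (nat_lit 64) (.e (nat_lit 688177) (nat_lit 16) (.e (nat_lit 65630) (nat_lit 14) (.e (nat_lit 401454) (nat_lit 12) .nil)))) .nil))) (.nd (nat_lit 5) 
(.lf (nat_lit 12496) (.g (nat_lit 2556) (.e (nat_lit 720) (nat_lit 64) (.e (nat_lit 688177) (nat_lit 16) (.e (nat_lit 65625) (nat_lit 13) (.e (nat_lit 393260) (nat_lit 21) (.e (nat_lit 409638) (nat_lit 15) (.e (nat_lit 278550) (nat_lit 10) .nil)))))) (.g (nat_lit 4) .nil .nil))) 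
(.lf (nat_lit 12528) (.g (nat_lit 1759) (.e (nat_lit 720) (nat_lit 64) (.e (nat_lit 688184) (nat_lit 18) (.e (nat_lit 81963) (nat_lit 26) (.e (nat_lit 147496) (nat_lit 11) (.e (nat_lit 24616) (nat_lit 7) .nil))))) .nil)))) (.nd (nat_lit 4) (.nd (nat_lit 5) 
(.lf (nat_lit 12488) (.g (nat_lit 1882) (.e (nat_lit 720) (nat_lit 64) (.e (nat_lit 688177) (nat_lit 16) (.e (nat_lit 65617) (nat_lit 10) (.e (nat_lit 344177) (nat_lit 43) (.e (nat_lit 770072) (nat_lit 8) .nil))))) .nil)) 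
(.lf (nat_lit 12520) (.g (nat_lit 328) (.e (nat_lit 720) (nat_lit 64) (.e (nat_lit 688178) (nat_lit 16) (.e (nat_lit 65619) (nat_lit 10) .nil))) .nil))) (.nd (nat_lit 5) 
(.lf (nat_lit 12504) (.g (nat_lit 2129) (.e (nat_lit 720) (nat_lit 64) (.e (nat_lit 688177) (nat_lit 16) (.e (nat_lit 65627) (nat_lit 13) (.e (nat_lit 393263) (nat_lit 22) (.e (nat_lit 417825) (nat_lit 14) (.e (nat_lit 270358) (nat_lit 10) .nil)))))) (.g (nat_lit 4) .nil .nil))) 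
(.lf (nat_lit 12536) (.g (nat_lit 854) (.e (nat_lit 720) (nat_lit 64) (.e (nat_lit 688186) (nat_lit 18) (.e (nat_lit 81965) (nat_lit 26) (.e (nat_lit 147463) (nat_lit 9) .nil)))) .nil))))) (.nd (nat_lit 3) (.nd (nat_lit 4) (.nd (nat_lit 5) 
(.lf (nat_lit 12484) (.g (nat_lit 2242) (.e (nat_lit 720) (nat_lit 64) (.e (nat_lit 688177) (nat_lit 16) (.e (nat_lit 65617) (nat_lit 10) (.e (nat_lit 344177) (nat_lit 43) (.e (nat_lit 770071) (nat_lit 8) (.e (nat_lit 65583) (nat_lit 7) (.e (nat_lit 319497) (nat_lit 10) .nil))))))) (.g (nat_lit 4) .nil .nil))) 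
(.lf (nat_lit 12516) (.g (nat_lit 4188) (.e (nat_lit 720) (nat_lit 64) (.e (nat_lit 688177) (nat_lit 16) (.e (nat_lit 65630) (nat_lit 14) (.e (nat_lit 401454) (nat_lit 12) (.e (nat_lit 475219) (nat_lit 44) (.e (nat_lit 737303) (nat_lit 11) (.e (nat_lit 832) (nat_lit 70) (.e (nat_lit 737282) (nat_lit 0) .nil)))))))) (.g (nat_lit 4) .nil .nil)))) (.nd (nat_lit 5) 
(.lf (nat_lit 12500) (.g (nat_lit 2966) (.e (nat_lit 720) (nat_lit 64) (.e (nat_lit 688177) (nat_lit 16) (.e (nat_lit 65625) (nat_lit 13) (.e (nat_lit 393301) (nat_lit 27) (.e (nat_lit 491544) (nat_lit 7) (.e (nat_lit 319500) (nat_lit 10) .nil)))))) (.g (nat_lit 5) .nil .nil))) 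
(.lf (nat_lit 12532) (.g (nat_lit 1965) (.e (nat_lit 720) (nat_lit 64) (.e (nat_lit 688185) (nat_lit 18) (.e (nat_lit 81965) (nat_lit 26) (.e (nat_lit 147496) (nat_lit 11) (.e (nat_lit 24617) (nat_lit 7) (.e (nat_lit 319497) (nat_lit 10) .nil)))))) (.g (nat_lit 4) .nil .nil))))) (.nd (nat_lit 4) (.nd (nat_lit 5) 
(.lf (nat_lit 12492) (.g (nat_lit 2459) (.e (nat_lit 720) (nat_lit 64) (.e (nat_lit 688177) (nat_lit 16) (.e (nat_lit 65617) (nat_lit 10) (.e (nat_lit 344177) (nat_lit 43) (.e (nat_lit 770072) (nat_lit 8) (.e (nat_lit 65584) (nat_lit 7) (.e (nat_lit 319499) (nat_lit 10) .nil))))))) (.g (nat_lit 4) .nil .nil))) 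
(.lf (nat_lit 12524) (.g (nat_lit 1797) (.e (nat_lit 720) (nat_lit 64) (.e (nat_lit 688178) (nat_lit 16) (.e (nat_lit 65619) (nat_lit 10) (.e (nat_lit 344177) (nat_lit 43) (.e (nat_lit 770072) (nat_lit 8) .nil))))) .nil))) (.nd (nat_lit 5) 
(.lf (nat_lit 12508) (.g (nat_lit 1551) (.e (nat_lit 720) (nat_lit 64) (.e (nat_lit 688177) (nat_lit 16) (.e (nat_lit 65627) (nat_lit 13) (.e (nat_lit 393300) (nat_lit 27) (.e (nat_lit 491544) (nat_lit 7) .nil))))) .nil)) 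
(.lf (nat_lit 12540) (.g (nat_lit 2610) (.e (nat_lit 720) (nat_lit 64) (.e (nat_lit 688186) (nat_lit 18) (.e (nat_lit 81965) (nat_lit 26) (.e (nat_lit 147492) (nat_lit 11) (.e (nat_lit 24580) (nat_lit 0) (.e (nat_lit 6152) (nat_lit 332) (.e (nat_lit 974) (nat_lit 81) .nil))))))) (.g (nat_lit 7) .nil .nil))))))) (.nd (nat_lit 2) (.nd (nat_lit 3) (.nd (nat_lit 4) (.nd (nat_lit 5) 
(.lf (nat_lit 12482) (.g (nat_lit 1925) (.e (nat_lit 720) (nat_lit 64) (.e (nat_lit 688177) (nat_lit 16) (.e (nat_lit 65617) (nat_lit 10) (.e (nat_lit 344176) (nat_lit 43) (.e (nat_lit 770072) (nat_lit 8) .nil))))) .nil)) 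
(.lf (nat_lit 12514) (.g (nat_lit 4305) (.e (nat_lit 720) (nat_lit 64) (.e (nat_lit 688177) (nat_lit 16) (.e (nat_lit 65630) (nat_lit 14) (.e (nat_lit 401454) (nat_lit 12) (.e (nat_lit 475218) (nat_lit 44) (.e (nat_lit 737303) (nat_lit 11) (.e (nat_lit 832) (nat_lit 70) (.e (nat_lit 737282) (nat_lit 0) .nil)))))))) (.g (nat_lit 4) .nil .nil)))) (.nd (nat_lit 5) 
(.lf (nat_lit 12498) (.g (nat_lit 3002) (.e (nat_lit 720) (nat_lit 64) (.e (nat_lit 688177) (nat_lit 16) (.e (nat_lit 65625) (nat_lit 13) (.e (nat_lit 393299) (nat_lit 27) (.e (nat_lit 491544) (nat_lit 7) (.e (nat_lit 319505) (nat_lit 10) .nil)))))) (.g (nat_lit 5) .nil .nil))) 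
(.lf (nat_lit 12530) (.g (nat_lit 2732) (.e (nat_lit 720) (nat_lit 64) (.e (nat_lit 688184) (nat_lit 18) (.e (nat_lit 81963) (nat_lit 26) (.e (nat_lit 147496) (nat_lit 11) (.e (nat_lit 24617) (nat_lit 7) (.e (nat_lit 319503) (nat_lit 10) .nil)))))) (.g (nat_lit 5) .nil .nil))))) (.nd (nat_lit 4) (.nd (nat_lit 5) 
(.lf (nat_lit 12490) (.g (nat_lit 2188) (.e (nat_lit 720) (nat_lit 64) (.e (nat_lit 688177) (nat_lit 16) (.e (nat_lit 65617) (nat_lit 10) (.e (nat_lit 344177) (nat_lit 43) (.e (nat_lit 770072) (nat_lit 8) (.e (nat_lit 65583) (nat_lit 7) (.e (nat_lit 319500) (nat_lit 10) .nil))))))) (.g (nat_lit 4) .nil .nil))) 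
(.lf (nat_lit 12522) (.g (nat_lit 1148) (.e (nat_lit 720) (nat_lit 64) (.e (nat_lit 688178) (nat_lit 16) (.e (nat_lit 65619) (nat_lit 10) (.e (nat_lit 344177) (nat_lit 43) .nil)))) .nil))) (.nd (nat_lit 5) 
(.lf (nat_lit 12506) (.g (nat_lit 2261) (.e (nat_lit 720) (nat_lit 64) (.e (nat_lit 688177) (nat_lit 16) (.e (nat_lit 65627) (nat_lit 13) (.e (nat_lit 393298) (nat_lit 27) (.e (nat_lit 491544) (nat_lit 7) (.e (nat_lit 319500) (nat_lit 10) .nil)))))) (.g (nat_lit 4) .nil .nil))) 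
(.lf (nat_lit 12538) (.g (nat_lit 1564) (.e (nat_lit 720) (nat_lit 64) (.e (nat_lit 688186) (nat_lit 18) (.e (nat_lit 81965) (nat_lit 26) (.e (nat_lit 147492) (nat_lit 11) (.e (nat_lit 24580) (nat_lit 0) (.e (nat_lit 6079) (nat_lit 332) (.e (nat_lit 974) (nat_lit 81) .nil))))))) (.g (nat_lit 4) .nil .nil)))))) (.nd (nat_lit 3) (.nd (nat_lit 4) (.nd (nat_lit 5) 
(.lf (nat_lit 12486) (.g (nat_lit 2974) (.e (nat_lit 720) (nat_lit 64) (.e (nat_lit 688177) (nat_lit 16) (.e (nat_lit 65617) (nat_lit 10) (.e (nat_lit 344177) (nat_lit 43) (.e (nat_lit 770071) (nat_lit 8) (.e (nat_lit 65585) (nat_lit 7) (.e (nat_lit 319505) (nat_lit 10) .nil))))))) (.g (nat_lit 5) .nil .nil))) 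
(.lf (nat_lit 12518) (.g (nat_lit 4141) (.e (nat_lit 720) (nat_lit 64) (.e (nat_lit 688178) (nat_lit 16) (.e (nat_lit 65570) (nat_lit 3) (.e (nat_lit 98373) (nat_lit 29) (.e (nat_lit 450588) (nat_lit 10) (.e (nat_lit 573503) (nat_lit 18) (.e (nat_lit 993) (nat_lit 81) .nil))))))) (.g (nat_lit 5) .nil .nil)))) (.nd (nat_lit 5) 
(.lf (nat_lit 12502) (.g (nat_lit 2137) (.e (nat_lit 720) (nat_lit 64) (.e (nat_lit 688177) (nat_lit 16) (.e (nat_lit 65627) (nat_lit 13) (.e (nat_lit 393260) (nat_lit 21) (.e (nat_lit 409638) (nat_lit 15) (.e (nat_lit 278550) (nat_lit 10) .nil)))))) (.g (nat_lit 4) .nil .nil))) 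
(.lf (nat_lit 12534) (.g (nat_lit 3943) (.e (nat_lit 720) (nat_lit 64) (.e (nat_lit 688185) (nat_lit 18) (.e (nat_lit 81965) (nat_lit 26) (.e (nat_lit 147496) (nat_lit 11) (.e (nat_lit 24617) (nat_lit 7) (.e (nat_lit 319505) (nat_lit 10) .nil)))))) (.g (nat_lit 0) .nil .nil))))) (.nd (nat_lit 4) (.nd (nat_lit 5) 
(.lf (nat_lit 12494) (.g (nat_lit 1729) (.e (nat_lit 720) (nat_lit 64) (.e (nat_lit 688177) (nat_lit 16) (.e (nat_lit 65625) (nat_lit 13) (.e (nat_lit 393260) (nat_lit 21) (.e (nat_lit 409636) (nat_lit 14) .nil))))) .nil)) 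
(.lf (nat_lit 12526) (.g (nat_lit 2155) (.e (nat_lit 720) (nat_lit 64) (.e (nat_lit 688178) (nat_lit 16) (.e (nat_lit 65626) (nat_lit 13) (.e (nat_lit 393300) (nat_lit 27) (.e (nat_lit 491544) (nat_lit 7) (.e (nat_lit 319500) (nat_lit 10) .nil)))))) (.g (nat_lit 4) .nil .nil)))) (.nd (nat_lit 5) 
(.lf (nat_lit 12510) (.g (nat_lit 3527) (.e (nat_lit 720) (nat_lit 64) (.e (nat_lit 688177) (nat_lit 16) (.e (nat_lit 65627) (nat_lit 13) (.e (nat_lit 393301) (nat_lit 27) (.e (nat_lit 491544) (nat_lit 7) (.e (nat_lit 319500) (nat_lit 10) .nil)))))) (.g (nat_lit 5) .nil .nil))) 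
(.lf (nat_lit 12542) (.g (nat_lit 1305) (.e (nat_lit 720) (nat_lit 64) (.e (nat_lit 688186) (nat_lit 18) (.e (nat_lit 81965) (nat_lit 26) (.e (nat_lit 147492) (nat_lit 11) (.e (nat_lit 24616) (nat_lit 7) (.e (nat_lit 319499) (nat_lit 10) .nil)))))) (.g (nat_lit 4) .nil .nil)))))))) (.nd (nat_lit 1) (.nd (nat_lit 2) (.nd (nat_lit 3) (.nd (nat_lit 4) (.nd (nat_lit 5) 
(.lf (nat_lit 12481) (.g (nat_lit 2748) (.e (nat_lit 720) (nat_lit 64) (.e (nat_lit 688177) (nat_lit 16) (.e (nat_lit 65617) (nat_lit 10) (.e (nat_lit 344175) (nat_lit 43) (.e (nat_lit 770072) (nat_lit 8) (.e (nat_lit 65586) (nat_lit 7) (.e (nat_lit 319500) (nat_lit 10) .nil))))))) (.g (nat_lit 5) .nil .nil))) 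
(.lf (nat_lit 12513) (.g (nat_lit 3486) (.e (nat_lit 720) (nat_lit 64) (.e (nat_lit 688177) (nat_lit 16) (.e (nat_lit 65630) (nat_lit 14) (.e (nat_lit 401454) (nat_lit 12) (.e (nat_lit 475218) (nat_lit 44) .nil))))) .nil))) (.nd (nat_lit 5) 
(.lf (nat_lit 12497) (.g (nat_lit 3086) (.e (nat_lit 720) (nat_lit 64) (.e (nat_lit 688177) (nat_lit 16) (.e (nat_lit 65625) (nat_lit 13) (.e (nat_lit 393299) (nat_lit 27) (.e (nat_lit 491544) (nat_lit 7) (.e (nat_lit 319500) (nat_lit 10) .nil)))))) (.g (nat_lit 5) .nil .nil))) 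
(.lf (nat_lit 12529) (.g (nat_lit 2089) (.e (nat_lit 720) (nat_lit 64) (.e (nat_lit 688184) (nat_lit 18) (.e (nat_lit 81963) (nat_lit 26) (.e (nat_lit 147496) (nat_lit 11) (.e (nat_lit 24616) (nat_lit 7) (.e (nat_lit 319500) (nat_lit 10) .nil)))))) (.g (nat_lit 4) .nil .nil))))) (.nd (nat_lit 4) (.nd (nat_lit 5) 
(.lf (nat_lit 12489) (.g (nat_lit 3117) (.e (nat_lit 720) (nat_lit 64) (.e (nat_lit 688177) (nat_lit 16) (.e (nat_lit 65617) (nat_lit 10) (.e (nat_lit 344177) (nat_lit 43) (.e (nat_lit 770072) (nat_lit 8) (.e (nat_lit 65583) (nat_lit 7) (.e (nat_lit 319497) (nat_lit 10) .nil))))))) (.g (nat_lit 5) .nil .nil))) 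
(.lf (nat_lit 12521) (.g (nat_lit 1192) (.e (nat_lit 720) (nat_lit 64) (.e (nat_lit 688178) (nat_lit 16) (.e (nat_lit 65619) (nat_lit 10) (.e (nat_lit 344090) (nat_lit 18) .nil)))) .nil))) (.nd (nat_lit 5) 
(.lf (nat_lit 12505) (.g (nat_lit 2134) (.e (nat_lit 720) (nat_lit 64) (.e (nat_lit 688177) (nat_lit 16) (.e (nat_lit 65627) (nat_lit 13) (.e (nat_lit 393264) (nat_lit 22) (.e (nat_lit 417825) (nat_lit 14) (.e (nat_lit 270358) (nat_lit 10) .nil)))))) (.g (nat_lit 6) .nil .nil))) 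
(.lf (nat_lit 12537) (.g (nat_lit 3123) (.e (nat_lit 720) (nat_lit 64) (.e (nat_lit 688186) (nat_lit 18) (.e (nat_lit 81965) (nat_lit 26) (.e (nat_lit 147467) (nat_lit 9) (.e (nat_lit 297) (nat_lit 22) (.e (nat_lit 344074) (nat_lit 13) (.e (nat_lit 974) (nat_lit 81) .nil))))))) (.g (nat_lit 6) .nil .nil)))))) (.nd (nat_lit 3) (.nd (nat_lit 4) (.nd (nat_lit 5) 
(.lf (nat_lit 12485) (.g (nat_lit 3364) (.e (nat_lit 720) (nat_lit 64) (.e (nat_lit 688177) (nat_lit 16) (.e (nat_lit 65617) (nat_lit 10) (.e (nat_lit 344177) (nat_lit 43) (.e (nat_lit 770071) (nat_lit 8) (.e (nat_lit 65583) (nat_lit 7) (.e (nat_lit 319499) (nat_lit 10) .nil))))))) (.g (nat_lit 6) .nil .nil))) 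
(.lf (nat_lit 12517) (.g (nat_lit 3370) (.e (nat_lit 720) (nat_lit 64) (.e (nat_lit 688177) (nat_lit 16) (.e (nat_lit 65630) (nat_lit 14) (.e (nat_lit 401454) (nat_lit 12) (.e (nat_lit 475219) (nat_lit 44) (.e (nat_lit 737303) (nat_lit 11) (.e (nat_lit 833) (nat_lit 70) (.e (nat_lit 737282) (nat_lit 0) .nil)))))))) (.g (nat_lit 4) .nil .nil)))) (.nd (nat_lit 5) 
(.lf (nat_lit 12501) (.g (nat_lit 377) (.e (nat_lit 720) (nat_lit 64) (.e (nat_lit 688177) (nat_lit 16) (.e (nat_lit 65627) (nat_lit 13) .nil))) .nil)) 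
(.lf (nat_lit 12533) (.g (nat_lit 2453) (.e (nat_lit 720) (nat_lit 64) (.e (nat_lit 688185) (nat_lit 18) (.e (nat_lit 81965) (nat_lit 26) (.e (nat_lit 147496) (nat_lit 11) (.e (nat_lit 24617) (nat_lit 7) (.e (nat_lit 319503) (nat_lit 10) .nil)))))) (.g (nat_lit 5) .nil .nil))))) (.nd (nat_lit 4) (.nd (nat_lit 5) 
(.lf (nat_lit 12493) (.g (nat_lit 438) (.e (nat_lit 720) (nat_lit 64) (.e (nat_lit 688177) (nat_lit 16) (.e (nat_lit 65625) (nat_lit 13) .nil))) .nil)) 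
(.lf (nat_lit 12525) (.g (nat_lit 2455) (.e (nat_lit 720) (nat_lit 64) (.e (nat_lit 688178) (nat_lit 16) (.e (nat_lit 65619) (nat_lit 10) (.e (nat_lit 344177) (nat_lit 43) (.e (nat_lit 770072) (nat_lit 8) (.e (nat_lit 65583) (nat_lit 7) (.e (nat_lit 319497) (nat_lit 10) .nil))))))) (.g (nat_lit 4) .nil .nil)))) (.nd (nat_lit 5) 
(.lf (nat_lit 12509) (.g (nat_lit 3229) (.e (nat_lit 720) (nat_lit 64) (.e (nat_lit 688177) (nat_lit 16) (.e (nat_lit 65627) (nat_lit 13) (.e (nat_lit 393300) (nat_lit 27) (.e (nat_lit 491544) (nat_lit 7) (.e (nat_lit 319505) (nat_lit 10) .nil)))))) (.g (nat_lit 6) .nil .nil))) 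
(.lf (nat_lit 12541) (.g (nat_lit 1446) (.e (nat_lit 720) (nat_lit 64) (.e (nat_lit 688186) (nat_lit 18) (.e (nat_lit 81965) (nat_lit 26) (.e (nat_lit 147492) (nat_lit 11) (.e (nat_lit 24580) (nat_lit 0) (.e (nat_lit 6192) (nat_lit 332) (.e (nat_lit 992) (nat_lit 81) .nil))))))) (.g (nat_lit 4) .nil .nil))))))) (.nd (nat_lit 2) (.nd (nat_lit 3) (.nd (nat_lit 4) (.nd (nat_lit 5) 
(.lf (nat_lit 12483) (.g (nat_lit 1273) (.e (nat_lit 720) (nat_lit 64) (.e (nat_lit 688177) (nat_lit 16) (.e (nat_lit 65617) (nat_lit 10) (.e (nat_lit 344177) (nat_lit 43) .nil)))) .nil)) 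
(.lf (nat_lit 12515) (.g (nat_lit 3487) (.e (nat_lit 720) (nat_lit 64) (.e (nat_lit 688177) (nat_lit 16) (.e (nat_lit 65630) (nat_lit 14) (.e (nat_lit 401454) (nat_lit 12) (.e (nat_lit 475218) (nat_lit 44) (.e (nat_lit 737303) (nat_lit 11) (.e (nat_lit 833) (nat_lit 70) (.e (nat_lit 737282) (nat_lit 0) .nil)))))))) (.g (nat_lit 4) .nil .nil)))) (.nd (nat_lit 5) 
(.lf (nat_lit 12499) (.g (nat_lit 3133) (.e (nat_lit 720) (nat_lit 64) (.e (nat_lit 688177) (nat_lit 16) (.e (nat_lit 65625) (nat_lit 13) (.e (nat_lit 393300) (nat_lit 27) (.e (nat_lit 491544) (nat_lit 7) (.e (nat_lit 319505) (nat_lit 10) .nil)))))) (.g (nat_lit 6) .nil .nil))) 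
(.lf (nat_lit 12531) (.g (nat_lit 2598) (.e (nat_lit 720) (nat_lit 64) (.e (nat_lit 688185) (nat_lit 18) (.e (nat_lit 81965) (nat_lit 26) (.e (nat_lit 147496) (nat_lit 11) (.e (nat_lit 24584) (nat_lit 0) (.e (nat_lit 6113) (nat_lit 332) (.e (nat_lit 968) (nat_lit 81) .nil))))))) (.g (nat_lit 5) .nil .nil))))) (.nd (nat_lit 4) (.nd (nat_lit 5) 
(.lf (nat_lit 12491) (.g (nat_lit 3399) (.e (nat_lit 720) (nat_lit 64) (.e (nat_lit 688177) (nat_lit 16) (.e (nat_lit 65617) (nat_lit 10) (.e (nat_lit 344177) (nat_lit 43) (.e (nat_lit 770072) (nat_lit 8) (.e (nat_lit 65583) (nat_lit 7) (.e (nat_lit 319505) (nat_lit 10) .nil))))))) (.g (nat_lit 6) .nil .nil))) 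
(.lf (nat_lit 12523) (.g (nat_lit 2025) (.e (nat_lit 720) (nat_lit 64) (.e (nat_lit 688178) (nat_lit 16) (.e (nat_lit 65619) (nat_lit 10) (.e (nat_lit 344177) (nat_lit 43) (.e (nat_lit 770071) (nat_lit 8) (.e (nat_lit 65586) (nat_lit 7) (.e (nat_lit 319505) (nat_lit 10) .nil))))))) (.g (nat_lit 4) .nil .nil)))) (.nd (nat_lit 5) 
(.lf (nat_lit 12507) (.g (nat_lit 3912) (.e (nat_lit 720) (nat_lit 64) (.e (nat_lit 688177) (nat_lit 16) (.e (nat_lit 65627) (nat_lit 13) (.e (nat_lit 393299) (nat_lit 27) (.e (nat_lit 491544) (nat_lit 7) (.e (nat_lit 319505) (nat_lit 10) .nil)))))) (.g (nat_lit 0) .nil .nil))) 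
(.lf (nat_lit 12539) (.g (nat_lit 2962) (.e (nat_lit 720) (nat_lit 64) (.e (nat_lit 688186) (nat_lit 18) (.e (nat_lit 81965) (nat_lit 26) (.e (nat_lit 147492) (nat_lit 11) (.e (nat_lit 24580) (nat_lit 0) (.e (nat_lit 6079) (nat_lit 332) (.e (nat_lit 999) (nat_lit 81) .nil))))))) (.g (nat_lit 0) .nil .nil)))))) (.nd (nat_lit 3) (.nd (nat_lit 4) (.nd (nat_lit 5) 
(.lf (nat_lit 12487) (.g (nat_lit 3930) (.e (nat_lit 720) (nat_lit 64) (.e (nat_lit 688177) (nat_lit 16) (.e (nat_lit 65617) (nat_lit 10) (.e (nat_lit 344177) (nat_lit 43) (.e (nat_lit 770071) (nat_lit 8) (.e (nat_lit 65586) (nat_lit 7) (.e (nat_lit 319505) (nat_lit 10) .nil))))))) (.g (nat_lit 7) .nil .nil))) 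
(.lf (nat_lit 12519) (.g (nat_lit 1663) (.e (nat_lit 720) (nat_lit 64) (.e (nat_lit 688178) (nat_lit 16) (.e (nat_lit 65604) (nat_lit 9) (.e (nat_lit 335907) (nat_lit 0) (.e (nat_lit 2345) (nat_lit 151) .nil))))) .nil))) (.nd (nat_lit 5) 
(.lf (nat_lit 12503) (.g (nat_lit 2007) (.e (nat_lit 720) (nat_lit 64) (.e (nat_lit 688177) (nat_lit 16) (.e (nat_lit 65627) (nat_lit 13) (.e (nat_lit 393263) (nat_lit 22) (.e (nat_lit 417817) (nat_lit 10) (.e (nat_lit 4855) (nat_lit 287) (.e (nat_lit 974) (nat_lit 81) .nil))))))) (.g (nat_lit 4) .nil .nil))) 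
(.lf (nat_lit 12535) (.g (nat_lit 2443) (.e (nat_lit 720) (nat_lit 64) (.e (nat_lit 688186) (nat_lit 18) (.e (nat_lit 81938) (nat_lit 20) (.e (nat_lit 2281) (nat_lit 150) (.e (nat_lit 770072) (nat_lit 8) (.e (nat_lit 65583) (nat_lit 7) (.e (nat_lit 319499) (nat_lit 10) .nil))))))) (.g (nat_lit 5) .nil .nil))))) (.nd (nat_lit 4) (.nd (nat_lit 5) 
(.lf (nat_lit 12495) (.g (nat_lit 2229) (.e (nat_lit 720) (nat_lit 64) (.e (nat_lit 688177) (nat_lit 16) (.e (nat_lit 65625) (nat_lit 13) (.e (nat_lit 393260) (nat_lit 21) (.e (nat_lit 409638) (nat_lit 15) .nil))))) .nil)) 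
(.lf (nat_lit 12527) (.g (nat_lit 2817) (.e (nat_lit 720) (nat_lit 64) (.e (nat_lit 688184) (nat_lit 18) (.e (nat_lit 81963) (nat_lit 26) (.e (nat_lit 147496) (nat_lit 11) (.e (nat_lit 24584) (nat_lit 0) (.e (nat_lit 6113) (nat_lit 332) (.e (nat_lit 968) (nat_lit 81) .nil))))))) (.g (nat_lit 5) .nil .nil)))) (.nd (nat_lit 5) 
(.lf (nat_lit 12511) (.g (nat_lit 3269) (.e (nat_lit 720) (nat_lit 64) (.e (nat_lit 688177) (nat_lit 16) (.e (nat_lit 65627) (nat_lit 13) (.e (nat_lit 393301) (nat_lit 27) (.e (nat_lit 491544) (nat_lit 7) (.e (nat_lit 319505) (nat_lit 10) .nil)))))) (.g (nat_lit 6) .nil .nil))) 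
(.lf (nat_lit 12543) (.g (nat_lit 2106) (.e (nat_lit 720) (nat_lit 64) (.e (nat_lit 688186) (nat_lit 18) (.e (nat_lit 81965) (nat_lit 26) (.e (nat_lit 147492) (nat_lit 11) (.e (nat_lit 24617) (nat_lit 7) (.e (nat_lit 319496) (nat_lit 10) .nil)))))) (.g (nat_lit 5) .nil .nil)))))))))

noncomputable def tv170 : DT := (.nd (nat_lit 0) (.nd (nat_lit 1) (.nd (nat_lit 2) (.nd (nat_lit 3) (.nd (nat_lit 4) (.nd (nat_lit 5) 
(.lf (nat_lit 12544) (.g (nat_lit 1749) (.e (nat_lit 720) (nat_lit 64) (.e (nat_lit 688186) (nat_lit 18) (.e (nat_lit 81965) (nat_lit 26) (.e (nat_lit 147492) (nat_lit 11) (.e (nat_lit 24617) (nat_lit 7) (.e (nat_lit 319497) (nat_lit 10) .nil)))))) (.g (nat_lit 5) .nil .nil))) 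
(.lf (nat_lit 12576) (.g (nat_lit 1843) (.e (nat_lit 724) (nat_lit 65) (.e (nat_lit 696344) (nat_lit 8) (.e (nat_lit 172082) (nat_lit 7) (.e (nat_lit 409646) (nat_lit 18) (.e (nat_lit 303133) (nat_lit 9) .nil))))) .nil))) (.nd (nat_lit 5) 
(.lf (nat_lit 12560) (.g (nat_lit 3543) (.e (nat_lit 721) (nat_lit 64) (.e (nat_lit 688177) (nat_lit 16) (.e (nat_lit 65586) (nat_lit 7) (.e (nat_lit 319531) (nat_lit 16) (.e (nat_lit 286748) (nat_lit 9) (.e (nat_lit 336295) (nat_lit 15) (.e (nat_lit 3806) (nat_lit 231) (.e (nat_lit 811008) (nat_lit 0) .nil)))))))) (.g (nat_lit 7) .nil .nil))) 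
(.lf (nat_lit 12592) (.g (nat_lit 2347) (.e (nat_lit 747) (nat_lit 66) (.e (nat_lit 704738) (nat_lit 11) (.e (nat_lit 16425) (nat_lit 7) (.e (nat_lit 409646) (nat_lit 18) .nil)))) .nil)))) (.nd (nat_lit 4) (.nd (nat_lit 5) 
(.lf (nat_lit 12552) (.g (nat_lit 2007) (.e (nat_lit 720) (nat_lit 64) (.e (nat_lit 688186) (nat_lit 18) (.e (nat_lit 81965) (nat_lit 26) (.e (nat_lit 147496) (nat_lit 11) (.e (nat_lit 24584) (nat_lit 0) (.e (nat_lit 6109) (nat_lit 332) (.e (nat_lit 998) (nat_lit 81) .nil))))))) (.g (nat_lit 4) .nil .nil))) 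
(.lf (nat_lit 12584) (.g (nat_lit 1702) (.e (nat_lit 7936) (nat_lit 65) (.e (nat_lit 696344) (nat_lit 8) (.e (nat_lit 172082) (nat_lit 7) (.e (nat_lit 409646) (nat_lit 18) (.e (nat_lit 303133) (nat_lit 9) .nil))))) .nil))) (.nd (nat_lit 5) 
(.lf (nat_lit 12568) (.g (nat_lit 3344) (.e (nat_lit 722) (nat_lit 65) (.e (nat_lit 696344) (nat_lit 8) (.e (nat_lit 172079) (nat_lit 7) (.e (nat_lit 409645) (nat_lit 18) (.e (nat_lit 303133) (nat_lit 9) (.e (nat_lit 426412) (nat_lit 15) (.e (nat_lit 2233) (nat_lit 146) (.e (nat_lit 737303) (nat_lit 11) .nil)))))))) (.g (nat_lit 6) .nil .nil))) 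
(.lf (nat_lit 12600) (.g (nat_lit 2426) (.e (nat_lit 750) (nat_lit 66) (.e (nat_lit 704738) (nat_lit 11) (.e (nat_lit 16425) (nat_lit 7) (.e (nat_lit 409643) (nat_lit 18) .nil)))) .nil))))) (.nd (nat_lit 3) (.nd (nat_lit 4) (.nd (nat_lit 5) 
(.lf (nat_lit 12548) (.g (nat_lit 1898) (.e (nat_lit 720) (nat_lit 64) (.e (nat_lit 688186) (nat_lit 18) (.e (nat_lit 81965) (nat_lit 26) (.e (nat_lit 147495) (nat_lit 11) (.e (nat_lit 24580) (nat_lit 0) (.e (nat_lit 6079) (nat_lit 332) (.e (nat_lit 999) (nat_lit 81) .nil))))))) (.g (nat_lit 4) .nil .nil))) 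
(.lf (nat_lit 12580) (.g (nat_lit 1845) (.e (nat_lit 724) (nat_lit 65) (.e (nat_lit 696344) (nat_lit 8) (.e (nat_lit 172082) (nat_lit 7) (.e (nat_lit 409646) (nat_lit 18) (.e (nat_lit 303143) (nat_lit 12) .nil))))) .nil))) (.nd (nat_lit 5) 
(.lf (nat_lit 12564) (.g (nat_lit 1689) (.e (nat_lit 7936) (nat_lit 64) (.e (nat_lit 688184) (nat_lit 18) (.e (nat_lit 81965) (nat_lit 26) (.e (nat_lit 147496) (nat_lit 11) (.e (nat_lit 24617) (nat_lit 7) .nil))))) .nil)) 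
(.lf (nat_lit 12596) (.g (nat_lit 2372) (.e (nat_lit 748) (nat_lit 66) (.e (nat_lit 704738) (nat_lit 11) (.e (nat_lit 16425) (nat_lit 7) (.e (nat_lit 409649) (nat_lit 18) .nil)))) .nil)))) (.nd (nat_lit 4) (.nd (nat_lit 5) 
(.lf (nat_lit 12556) (.g (nat_lit 4183) (.e (nat_lit 720) (nat_lit 64) (.e (nat_lit 688186) (nat_lit 18) (.e (nat_lit 81965) (nat_lit 26) (.e (nat_lit 147496) (nat_lit 11) (.e (nat_lit 24617) (nat_lit 7) (.e (nat_lit 319505) (nat_lit 10) .nil)))))) (.g (nat_lit 0) .nil .nil))) 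
(.lf (nat_lit 12588) (.g (nat_lit 2597) (.e (nat_lit 746) (nat_lit 66) (.e (nat_lit 704738) (nat_lit 11) (.e (nat_lit 16425) (nat_lit 7) (.e (nat_lit 409644) (nat_lit 18) .nil)))) .nil))) (.nd (nat_lit 5) 
(.lf (nat_lit 12572) (.g (nat_lit 2461) (.e (nat_lit 722) (nat_lit 65) (.e (nat_lit 696344) (nat_lit 8) (.e (nat_lit 172082) (nat_lit 7) (.e (nat_lit 409646) (nat_lit 18) (.e (nat_lit 303143) (nat_lit 12) (.e (nat_lit 475220) (nat_lit 44) (.e (nat_lit 737303) (nat_lit 11) .nil))))))) (.g (nat_lit 5) .nil .nil))) 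
(.lf (nat_lit 12604) (.g (nat_lit 1792) (.e (nat_lit 751) (nat_lit 66) (.e (nat_lit 704738) (nat_lit 11) (.e (nat_lit 16424) (nat_lit 7) (.e (nat_lit 409645) (nat_lit 18) (.e (nat_lit 303143) (nat_lit 12) .nil))))) .nil)))))) (.nd (nat_lit 2) (.nd (nat_lit 3) (.nd (nat_lit 4) (.nd (nat_lit 5) 
(.lf (nat_lit 12546) (.g (nat_lit 3126) (.e (nat_lit 720) (nat_lit 64) (.e (nat_lit 688186) (nat_lit 18) (.e (nat_lit 81965) (nat_lit 26) (.e (nat_lit 147492) (nat_lit 11) (.e (nat_lit 24617) (nat_lit 7) (.e (nat_lit 319504) (nat_lit 10) .nil)))))) (.g (nat_lit 6) .nil .nil))) 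
(.lf (nat_lit 12578) (.g (nat_lit 3627) (.e (nat_lit 724) (nat_lit 65) (.e (nat_lit 696344) (nat_lit 8) (.e (nat_lit 172082) (nat_lit 7) (.e (nat_lit 409646) (nat_lit 18) (.e (nat_lit 303133) (nat_lit 9) (.e (nat_lit 426412) (nat_lit 15) (.e (nat_lit 2233) (nat_lit 146) (.e (nat_lit 737303) (nat_lit 11) .nil)))))))) (.g (nat_lit 0) .nil .nil)))) (.nd (nat_lit 5) 
(.lf (nat_lit 12562) (.g (nat_lit 1793) (.e (nat_lit 7936) (nat_lit 64) (.e (nat_lit 688177) (nat_lit 16) (.e (nat_lit 65583) (nat_lit 7) (.e (nat_lit 319530) (nat_lit 16) (.e (nat_lit 286748) (nat_lit 9) .nil))))) .nil)) 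
(.lf (nat_lit 12594) (.g (nat_lit 2426) (.e (nat_lit 748) (nat_lit 66) (.e (nat_lit 704738) (nat_lit 11) (.e (nat_lit 16425) (nat_lit 7) (.e (nat_lit 409643) (nat_lit 18) .nil)))) .nil)))) (.nd (nat_lit 4) (.nd (nat_lit 5) 
(.lf (nat_lit 12554) (.g (nat_lit 2748) (.e (nat_lit 720) (nat_lit 64) (.e (nat_lit 688186) (nat_lit 18) (.e (nat_lit 81965) (nat_lit 26) (.e (nat_lit 147496) (nat_lit 11) (.e (nat_lit 24616) (nat_lit 7) (.e (nat_lit 319499) (nat_lit 10) .nil)))))) (.g (nat_lit 0) .nil .nil))) 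
(.lf (nat_lit 12586) (.g (nat_lit 1924) (.e (nat_lit 731) (nat_lit 66) (.e (nat_lit 704598) (nat_lit 6) (.e (nat_lit 188449) (nat_lit 22) (.e (nat_lit 204544) (nat_lit 2) .nil)))) .nil))) (.nd (nat_lit 5) 
(.lf (nat_lit 12570) (.g (nat_lit 3685) (.e (nat_lit 722) (nat_lit 65) (.e (nat_lit 696344) (nat_lit 8) (.e (nat_lit 172079) (nat_lit 7) (.e (nat_lit 409645) (nat_lit 18) (.e (nat_lit 303143) (nat_lit 12) (.e (nat_lit 475220) (nat_lit 44) (.e (nat_lit 737303) (nat_lit 11) .nil))))))) (.g (nat_lit 7) .nil .nil))) 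
(.lf (nat_lit 12602) (.g (nat_lit 2372) (.e (nat_lit 750) (nat_lit 66) (.e (nat_lit 704738) (nat_lit 11) (.e (nat_lit 16425) (nat_lit 7) (.e (nat_lit 409649) (nat_lit 18) .nil)))) .nil))))) (.nd (nat_lit 3) (.nd (nat_lit 4) (.nd (nat_lit 5) 
(.lf (nat_lit 12550) (.g (nat_lit 1757) (.e (nat_lit 720) (nat_lit 64) (.e (nat_lit 688186) (nat_lit 18) (.e (nat_lit 81965) (nat_lit 26) (.e (nat_lit 147495) (nat_lit 11) (.e (nat_lit 24616) (nat_lit 7) (.e (nat_lit 319500) (nat_lit 10) .nil)))))) (.g (nat_lit 4) .nil .nil))) 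
(.lf (nat_lit 12582) (.g (nat_lit 1837) (.e (nat_lit 7936) (nat_lit 65) (.e (nat_lit 696344) (nat_lit 8) (.e (nat_lit 172079) (nat_lit 7) (.e (nat_lit 409645) (nat_lit 18) (.e (nat_lit 303133) (nat_lit 9) .nil))))) .nil))) (.nd (nat_lit 5) 
(.lf (nat_lit 12566) (.g (nat_lit 878) (.e (nat_lit 7936) (nat_lit 64) (.e (nat_lit 688186) (nat_lit 18) (.e (nat_lit 81965) (nat_lit 26) (.e (nat_lit 147492) (nat_lit 11) .nil)))) .nil)) 
(.lf (nat_lit 12598) (.g (nat_lit 2277) (.e (nat_lit 749) (nat_lit 66) (.e (nat_lit 704738) (nat_lit 11) (.e (nat_lit 16425) (nat_lit 7) (.e (nat_lit 409646) (nat_lit 18) .nil)))) .nil)))) (.nd (nat_lit 4) (.nd (nat_lit 5) 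
(.lf (nat_lit 12558) (.g (nat_lit 3254) (.e (nat_lit 721) (nat_lit 64) (.e (nat_lit 688177) (nat_lit 16) (.e (nat_lit 65583) (nat_lit 7) (.e (nat_lit 319530) (nat_lit 16) (.e (nat_lit 286759) (nat_lit 12) (.e (nat_lit 385115) (nat_lit 53) (.e (nat_lit 811008) (nat_lit 0) .nil))))))) (.g (nat_lit 7) .nil .nil))) 
(.lf (nat_lit 12590) (.g (nat_lit 2374) (.e (nat_lit 746) (nat_lit 66) (.e (nat_lit 704738) (nat_lit 11) (.e (nat_lit 16425) (nat_lit 7) (.e (nat_lit 409649) (nat_lit 18) .nil)))) .nil))) (.nd (nat_lit 5) 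
(.lf (nat_lit 12574) (.g (nat_lit 3663) (.e (nat_lit 724) (nat_lit 65) (.e (nat_lit 696344) (nat_lit 8) (.e (nat_lit 172079) (nat_lit 7) (.e (nat_lit 409645) (nat_lit 18) (.e (nat_lit 303143) (nat_lit 12) (.e (nat_lit 475220) (nat_lit 44) (.e (nat_lit 737305) (nat_lit 11) .nil))))))) (.g (nat_lit 7) .nil .nil))) 
(.lf (nat_lit 12606) (.g (nat_lit 2154) (.e (nat_lit 751) (nat_lit 66) (.e (nat_lit 704738) (nat_lit 11) (.e (nat_lit 16425) (nat_lit 7) (.e (nat_lit 409643) (nat_lit 18) (.e (nat_lit 303143) (nat_lit 12) .nil))))) .nil))))))) (.nd (nat_lit 1) (.nd (nat_lit 2) (.nd (nat_lit 3) (.nd (nat_lit 4) (.nd (nat_lit 5) 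
(.lf (nat_lit 12545) (.g (nat_lit 2685) (.e (nat_lit 720) (nat_lit 64) (.e (nat_lit 688186) (nat_lit 18) (.e (nat_lit 81965) (nat_lit 26) (.e (nat_lit 147492) (nat_lit 11) (.e (nat_lit 24617) (nat_lit 7) (.e (nat_lit 319500) (nat_lit 10) .nil)))))) (.g (nat_lit 6) .nil .nil))) 
(.lf (nat_lit 12577) (.g (nat_lit 4147) (.e (nat_lit 724) (nat_lit 65) (.e (nat_lit 696344) (nat_lit 8) (.e (nat_lit 172082) (nat_lit 7) (.e (nat_lit 409646) (nat_lit 18) (.e (nat_lit 303133) (nat_lit 9) (.e (nat_lit 426412) (nat_lit 15) (.e (nat_lit 2059) (nat_lit 142) (.e (nat_lit 704836) (nat_lit 14) (.e (nat_lit 2426) (nat_lit 157) .nil))))))))) (.g (nat_lit 9) .nil .nil)))) (.nd (nat_lit 5) 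
(.lf (nat_lit 12561) (.g (nat_lit 1869) (.e (nat_lit 721) (nat_lit 64) (.e (nat_lit 688186) (nat_lit 18) (.e (nat_lit 81965) (nat_lit 26) (.e (nat_lit 147496) (nat_lit 11) (.e (nat_lit 24617) (nat_lit 7) (.e (nat_lit 327424) (nat_lit 10) .nil)))))) (.g (nat_lit 5) .nil .nil))) 
(.lf (nat_lit 12593) (.g (nat_lit 2255) (.e (nat_lit 747) (nat_lit 66) (.e (nat_lit 704738) (nat_lit 11) (.e (nat_lit 16425) (nat_lit 7) (.e (nat_lit 409649) (nat_lit 18) .nil)))) .nil)))) (.nd (nat_lit 4) (.nd (nat_lit 5) 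
(.lf (nat_lit 12553) (.g (nat_lit 3135) (.e (nat_lit 720) (nat_lit 64) (.e (nat_lit 688186) (nat_lit 18) (.e (nat_lit 81965) (nat_lit 26) (.e (nat_lit 147496) (nat_lit 11) (.e (nat_lit 24584) (nat_lit 0) (.e (nat_lit 6109) (nat_lit 332) (.e (nat_lit 999) (nat_lit 81) .nil))))))) (.g (nat_lit 6) .nil .nil))) 
(.lf (nat_lit 12585) (.g (nat_lit 1704) (.e (nat_lit 7936) (nat_lit 65) (.e (nat_lit 696344) (nat_lit 8) (.e (nat_lit 172082) (nat_lit 7) (.e (nat_lit 409646) (nat_lit 18) (.e (nat_lit 303143) (nat_lit 12) .nil))))) .nil))) (.nd (nat_lit 5) 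
(.lf (nat_lit 12569) (.g (nat_lit 2398) (.e (nat_lit 722) (nat_lit 65) (.e (nat_lit 696344) (nat_lit 8) (.e (nat_lit 172079) (nat_lit 7) (.e (nat_lit 409645) (nat_lit 18) (.e (nat_lit 303143) (nat_lit 12) (.e (nat_lit 475218) (nat_lit 44) (.e (nat_lit 737303) (nat_lit 11) .nil))))))) (.g (nat_lit 4) .nil .nil))) 
(.lf (nat_lit 12601) (.g (nat_lit 2464) (.e (nat_lit 750) (nat_lit 66) (.e (nat_lit 704738) (nat_lit 11) (.e (nat_lit 16425) (nat_lit 7) (.e (nat_lit 409646) (nat_lit 18) .nil)))) .nil))))) (.nd (nat_lit 3) (.nd (nat_lit 4) (.nd (nat_lit 5) 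
(.lf (nat_lit 12549) (.g (nat_lit 1828) (.e (nat_lit 720) (nat_lit 64) (.e (nat_lit 688186) (nat_lit 18) (.e (nat_lit 81965) (nat_lit 26) (.e (nat_lit 147495) (nat_lit 11) (.e (nat_lit 24616) (nat_lit 7) (.e (nat_lit 319499) (nat_lit 10) .nil)))))) (.g (nat_lit 4) .nil .nil))) 
(.lf (nat_lit 12581) (.g (nat_lit 1860) (.e (nat_lit 724) (nat_lit 65) (.e (nat_lit 696344) (nat_lit 8) (.e (nat_lit 172082) (nat_lit 7) (.e (nat_lit 409646) (nat_lit 18) (.e (nat_lit 303143) (nat_lit 12) (.e (nat_lit 475220) (nat_lit 44) (.e (nat_lit 737304) (nat_lit 11) .nil))))))) (.g (nat_lit 4) .nil .nil)))) (.nd (nat_lit 5) 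
(.lf (nat_lit 12565) (.g (nat_lit 1367) (.e (nat_lit 7936) (nat_lit 64) (.e (nat_lit 688186) (nat_lit 18) (.e (nat_lit 81965) (nat_lit 26) (.e (nat_lit 147463) (nat_lit 9) (.e (nat_lit 232) (nat_lit 21) .nil))))) .nil)) 
(.lf (nat_lit 12597) (.g (nat_lit 2243) (.e (nat_lit 749) (nat_lit 66) (.e (nat_lit 704738) (nat_lit 11) (.e (nat_lit 16425) (nat_lit 7) (.e (nat_lit 409643) (nat_lit 18) .nil)))) .nil)))) (.nd (nat_lit 4) (.nd (nat_lit 5) 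
(.lf (nat_lit 12557) (.g (nat_lit 2196) (.e (nat_lit 720) (nat_lit 64) (.e (nat_lit 688186) (nat_lit 18) (.e (nat_lit 81965) (nat_lit 26) (.e (nat_lit 147496) (nat_lit 11) (.e (nat_lit 24617) (nat_lit 7) (.e (nat_lit 327424) (nat_lit 10) .nil)))))) (.g (nat_lit 5) .nil .nil))) 
(.lf (nat_lit 12589) (.g (nat_lit 2465) (.e (nat_lit 746) (nat_lit 66) (.e (nat_lit 704738) (nat_lit 11) (.e (nat_lit 16425) (nat_lit 7) (.e (nat_lit 409646) (nat_lit 18) .nil)))) .nil))) (.nd (nat_lit 5) 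
(.lf (nat_lit 12573) (.g (nat_lit 3108) (.e (nat_lit 724) (nat_lit 65) (.e (nat_lit 696344) (nat_lit 8) (.e (nat_lit 172079) (nat_lit 7) (.e (nat_lit 409645) (nat_lit 18) (.e (nat_lit 303143) (nat_lit 12) (.e (nat_lit 475220) (nat_lit 44) (.e (nat_lit 737303) (nat_lit 11) .nil))))))) (.g (nat_lit 6) .nil .nil))) 
(.lf (nat_lit 12605) (.g (nat_lit 1990) (.e (nat_lit 751) (nat_lit 66) (.e (nat_lit 704738) (nat_lit 11) (.e (nat_lit 16424) (nat_lit 7) (.e (nat_lit 409645) (nat_lit 18) (.e (nat_lit 303143) (nat_lit 12) (.e (nat_lit 475220) (nat_lit 44) (.e (nat_lit 737305) (nat_lit 11) .nil))))))) (.g (nat_lit 4) .nil .nil))))))) (.nd (nat_lit 2) (.nd (nat_lit 3) (.nd (nat_lit 4) (.nd (nat_lit 5) 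
(.lf (nat_lit 12547) (.g (nat_lit 2167) (.e (nat_lit 720) (nat_lit 64) (.e (nat_lit 688186) (nat_lit 18) (.e (nat_lit 81965) (nat_lit 26) (.e (nat_lit 147492) (nat_lit 11) (.e (nat_lit 24622) (nat_lit 8) (.e (nat_lit 327702) (nat_lit 10) .nil)))))) (.g (nat_lit 6) .nil .nil))) 
(.lf (nat_lit 12579) (.g (nat_lit 2945) (.e (nat_lit 724) (nat_lit 65) (.e (nat_lit 696344) (nat_lit 8) (.e (nat_lit 172082) (nat_lit 7) (.e (nat_lit 409646) (nat_lit 18) (.e (nat_lit 303133) (nat_lit 9) (.e (nat_lit 426412) (nat_lit 15) (.e (nat_lit 2233) (nat_lit 146) (.e (nat_lit 737305) (nat_lit 11) .nil)))))))) (.g (nat_lit 6) .nil .nil)))) (.nd (nat_lit 5) 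
(.lf (nat_lit 12563) (.g (nat_lit 1821) (.e (nat_lit 7936) (nat_lit 64) (.e (nat_lit 688177) (nat_lit 16) (.e (nat_lit 65586) (nat_lit 7) (.e (nat_lit 319531) (nat_lit 16) (.e (nat_lit 286748) (nat_lit 9) .nil))))) .nil)) 
(.lf (nat_lit 12595) (.g (nat_lit 2464) (.e (nat_lit 748) (nat_lit 66) (.e (nat_lit 704738) (nat_lit 11) (.e (nat_lit 16425) (nat_lit 7) (.e (nat_lit 409646) (nat_lit 18) .nil)))) .nil)))) (.nd (nat_lit 4) (.nd (nat_lit 5) 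
(.lf (nat_lit 12555) (.g (nat_lit 2910) (.e (nat_lit 720) (nat_lit 64) (.e (nat_lit 688186) (nat_lit 18) (.e (nat_lit 81965) (nat_lit 26) (.e (nat_lit 147496) (nat_lit 11) (.e (nat_lit 24617) (nat_lit 7) (.e (nat_lit 319497) (nat_lit 10) .nil)))))) (.g (nat_lit 0) .nil .nil))) 
(.lf (nat_lit 12587) (.g (nat_lit 2429) (.e (nat_lit 746) (nat_lit 66) (.e (nat_lit 704738) (nat_lit 11) (.e (nat_lit 16425) (nat_lit 7) (.e (nat_lit 409643) (nat_lit 18) .nil)))) .nil))) (.nd (nat_lit 5) 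
(.lf (nat_lit 12571) (.g (nat_lit 3884) (.e (nat_lit 722) (nat_lit 65) (.e (nat_lit 696344) (nat_lit 8) (.e (nat_lit 172082) (nat_lit 7) (.e (nat_lit 409646) (nat_lit 18) (.e (nat_lit 303133) (nat_lit 9) (.e (nat_lit 426412) (nat_lit 15) (.e (nat_lit 2233) (nat_lit 146) (.e (nat_lit 737303) (nat_lit 11) .nil)))))))) (.g (nat_lit 0) .nil .nil))) 
(.lf (nat_lit 12603) (.g (nat_lit 2366) (.e (nat_lit 751) (nat_lit 66) (.e (nat_lit 704737) (nat_lit 11) (.e (nat_lit 16425) (nat_lit 7) (.e (nat_lit 409648) (nat_lit 18) (.e (nat_lit 303137) (nat_lit 10) .nil))))) .nil))))) (.nd (nat_lit 3) (.nd (nat_lit 4) (.nd (nat_lit 5) 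
(.lf (nat_lit 12551) (.g (nat_lit 1956) (.e (nat_lit 720) (nat_lit 64) (.e (nat_lit 688186) (nat_lit 18) (.e (nat_lit 81965) (nat_lit 26) (.e (nat_lit 147496) (nat_lit 11) (.e (nat_lit 24584) (nat_lit 0) (.e (nat_lit 6097) (nat_lit 332) (.e (nat_lit 968) (nat_lit 81) .nil))))))) (.g (nat_lit 4) .nil .nil))) 
(.lf (nat_lit 12583) (.g (nat_lit 657) (.e (nat_lit 7936) (nat_lit 65) (.e (nat_lit 696344) (nat_lit 8) (.e (nat_lit 172080) (nat_lit 7) .nil))) .nil))) (.nd (nat_lit 5) 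
(.lf (nat_lit 12567) (.g (nat_lit 1549) (.e (nat_lit 7936) (nat_lit 64) (.e (nat_lit 688186) (nat_lit 18) (.e (nat_lit 81965) (nat_lit 26) (.e (nat_lit 147496) (nat_lit 11) (.e (nat_lit 24617) (nat_lit 7) .nil))))) .nil)) 
(.lf (nat_lit 12599) (.g (nat_lit 2190) (.e (nat_lit 749) (nat_lit 66) (.e (nat_lit 704738) (nat_lit 11) (.e (nat_lit 16425) (nat_lit 7) (.e (nat_lit 409649) (nat_lit 18) .nil)))) .nil)))) (.nd (nat_lit 4) (.nd (nat_lit 5) 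
(.lf (nat_lit 12559) (.g (nat_lit 2019) (.e (nat_lit 721) (nat_lit 64) (.e (nat_lit 688177) (nat_lit 16) (.e (nat_lit 65586) (nat_lit 7) (.e (nat_lit 319531) (nat_lit 16) (.e (nat_lit 286748) (nat_lit 9) (.e (nat_lit 336295) (nat_lit 15) (.e (nat_lit 3805) (nat_lit 231) (.e (nat_lit 811008) (nat_lit 0) .nil)))))))) (.g (nat_lit 4) .nil .nil))) 
(.lf (nat_lit 12591) (.g (nat_lit 2309) (.e (nat_lit 747) (nat_lit 66) (.e (nat_lit 704738) (nat_lit 11) (.e (nat_lit 16425) (nat_lit 7) (.e (nat_lit 409643) (nat_lit 18) .nil)))) .nil))) (.nd (nat_lit 5) 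
(.lf (nat_lit 12575) (.g (nat_lit 658) (.e (nat_lit 724) (nat_lit 65) (.e (nat_lit 696344) (nat_lit 8) (.e (nat_lit 172080) (nat_lit 7) .nil))) .nil)) 
(.lf (nat_lit 12607) (.g (nat_lit 2187) (.e (nat_lit 751) (nat_lit 66) (.e (nat_lit 704738) (nat_lit 11) (.e (nat_lit 16425) (nat_lit 7) (.e (nat_lit 409643) (nat_lit 18) (.e (nat_lit 303143) (nat_lit 12) (.e (nat_lit 475220) (nat_lit 44) (.e (nat_lit 737306) (nat_lit 11) .nil))))))) (.g (nat_lit 4) .nil .nil)))))))))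

noncomputable def tv171 : DT := (.nd (nat_lit 0) (.nd (nat_lit 1) (.nd (nat_lit 2) (.nd (nat_lit 3) (.nd (nat_lit 4) (.nd (nat_lit 5) 
(.lf (nat_lit 12608) (.g (nat_lit 2076) (.e (nat_lit 751) (nat_lit 66) (.e (nat_lit 704738) (nat_lit 11) (.e (nat_lit 16425) (nat_lit 7) (.e (nat_lit 409644) (nat_lit 18) .nil)))) .nil)) 
(.lf (nat_lit 12640) (.g (nat_lit 3628) (.e (nat_lit 753) (nat_lit 66) (.e (nat_lit 704737) (nat_lit 11) (.e (nat_lit 16425) (nat_lit 7) (.e (nat_lit 409644) (nat_lit 18) (.e (nat_lit 303143) (nat_lit 12) (.e (nat_lit 475220) (nat_lit 44) (.e (nat_lit 737303) (nat_lit 11) .nil))))))) (.g (nat_lit 7) .nil .nil)))) (.nd (nat_lit 5) 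
(.lf (nat_lit 12624) (.g (nat_lit 3810) (.e (nat_lit 753) (nat_lit 66) (.e (nat_lit 704737) (nat_lit 11) (.e (nat_lit 16392) (nat_lit 0) (.e (nat_lit 6989) (nat_lit 377) (.e (nat_lit 2810) (nat_lit 180) (.e (nat_lit 303143) (nat_lit 12) (.e (nat_lit 475220) (nat_lit 44) (.e (nat_lit 737306) (nat_lit 11) .nil)))))))) (.g (nat_lit 8) .nil .nil))) 
(.lf (nat_lit 12656) (.g (nat_lit 2557) (.e (nat_lit 753) (nat_lit 66) (.e (nat_lit 704737) (nat_lit 11) (.e (nat_lit 16425) (nat_lit 7) (.e (nat_lit 409648) (nat_lit 18) (.e (nat_lit 303142) (nat_lit 12) (.e (nat_lit 475220) (nat_lit 44) (.e (nat_lit 737304) (nat_lit 11) .nil))))))) (.g (nat_lit 4) .nil .nil))))) (.nd (nat_lit 4) (.nd (nat_lit 5) 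
(.lf (nat_lit 12616) (.g (nat_lit 2873) (.e (nat_lit 751) (nat_lit 66) (.e (nat_lit 704738) (nat_lit 11) (.e (nat_lit 16425) (nat_lit 7) (.e (nat_lit 409648) (nat_lit 18) (.e (nat_lit 303142) (nat_lit 12) .nil))))) .nil)) 
(.lf (nat_lit 12648) (.g (nat_lit 2867) (.e (nat_lit 753) (nat_lit 66) (.e (nat_lit 704737) (nat_lit 11) (.e (nat_lit 16425) (nat_lit 7) (.e (nat_lit 409646) (nat_lit 18) (.e (nat_lit 303143) (nat_lit 12) (.e (nat_lit 475218) (nat_lit 44) (.e (nat_lit 737303) (nat_lit 11) .nil))))))) (.g (nat_lit 5) .nil .nil)))) (.nd (nat_lit 5) 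
(.lf (nat_lit 12632) (.g (nat_lit 1853) (.e (nat_lit 753) (nat_lit 66) (.e (nat_lit 704737) (nat_lit 11) (.e (nat_lit 16425) (nat_lit 7) (.e (nat_lit 409643) (nat_lit 18) (.e (nat_lit 303143) (nat_lit 12) .nil))))) .nil)) 
(.lf (nat_lit 12664) (.g (nat_lit 2354) (.e (nat_lit 753) (nat_lit 66) (.e (nat_lit 704737) (nat_lit 11) (.e (nat_lit 16425) (nat_lit 7) (.e (nat_lit 409649) (nat_lit 18) (.e (nat_lit 303143) (nat_lit 12) (.e (nat_lit 475216) (nat_lit 44) (.e (nat_lit 737307) (nat_lit 11) .nil))))))) (.g (nat_lit 4) .nil .nil)))))) (.nd (nat_lit 3) (.nd (nat_lit 4) (.nd (nat_lit 5) 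
(.lf (nat_lit 12612) (.g (nat_lit 2996) (.e (nat_lit 751) (nat_lit 66) (.e (nat_lit 704738) (nat_lit 11) (.e (nat_lit 16425) (nat_lit 7) (.e (nat_lit 409646) (nat_lit 18) (.e (nat_lit 303143) (nat_lit 12) (.e (nat_lit 475220) (nat_lit 44) (.e (nat_lit 737305) (nat_lit 11) .nil))))))) (.g (nat_lit 5) .nil .nil))) 
(.lf (nat_lit 12644) (.g (nat_lit 3043) (.e (nat_lit 753) (nat_lit 66) (.e (nat_lit 704737) (nat_lit 11) (.e (nat_lit 16425) (nat_lit 7) (.e (nat_lit 409645) (nat_lit 18) (.e (nat_lit 303143) (nat_lit 12) (.e (nat_lit 475220) (nat_lit 44) (.e (nat_lit 737304) (nat_lit 11) .nil))))))) (.g (nat_lit 5) .nil .nil)))) (.nd (nat_lit 5) 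
(.lf (nat_lit 12628) (.g (nat_lit 3470) (.e (nat_lit 753) (nat_lit 66) (.e (nat_lit 704737) (nat_lit 11) (.e (nat_lit 16424) (nat_lit 7) (.e (nat_lit 409645) (nat_lit 18) (.e (nat_lit 303143) (nat_lit 12) (.e (nat_lit 475220) (nat_lit 44) (.e (nat_lit 737303) (nat_lit 11) .nil))))))) (.g (nat_lit 7) .nil .nil))) 
(.lf (nat_lit 12660) (.g (nat_lit 4232) (.e (nat_lit 753) (nat_lit 66) (.e (nat_lit 704737) (nat_lit 11) (.e (nat_lit 16425) (nat_lit 7) (.e (nat_lit 409648) (nat_lit 18) (.e (nat_lit 303143) (nat_lit 12) (.e (nat_lit 475220) (nat_lit 44) (.e (nat_lit 737306) (nat_lit 11) .nil))))))) (.g (nat_lit 7) .nil .nil))))) (.nd (nat_lit 4) (.nd (nat_lit 5) 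
(.lf (nat_lit 12620) (.g (nat_lit 1988) (.e (nat_lit 753) (nat_lit 66) (.e (nat_lit 704736) (nat_lit 11) (.e (nat_lit 16425) (nat_lit 7) (.e (nat_lit 409648) (nat_lit 18) (.e (nat_lit 303143) (nat_lit 12) (.e (nat_lit 475220) (nat_lit 44) (.e (nat_lit 737304) (nat_lit 11) .nil))))))) (.g (nat_lit 4) .nil .nil))) 
(.lf (nat_lit 12652) (.g (nat_lit 2085) (.e (nat_lit 753) (nat_lit 66) (.e (nat_lit 704737) (nat_lit 11) (.e (nat_lit 16425) (nat_lit 7) (.e (nat_lit 409647) (nat_lit 18) (.e (nat_lit 303143) (nat_lit 12) .nil))))) .nil))) (.nd (nat_lit 5) 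
(.lf (nat_lit 12636) (.g (nat_lit 3580) (.e (nat_lit 753) (nat_lit 66) (.e (nat_lit 704737) (nat_lit 11) (.e (nat_lit 16425) (nat_lit 7) (.e (nat_lit 409643) (nat_lit 18) (.e (nat_lit 303143) (nat_lit 12) (.e (nat_lit 475220) (nat_lit 44) (.e (nat_lit 737303) (nat_lit 11) .nil))))))) (.g (nat_lit 7) .nil .nil))) 
(.lf (nat_lit 12668) (.g (nat_lit 3787) (.e (nat_lit 753) (nat_lit 66) (.e (nat_lit 704737) (nat_lit 11) (.e (nat_lit 16425) (nat_lit 7) (.e (nat_lit 409649) (nat_lit 18) (.e (nat_lit 303143) (nat_lit 12) (.e (nat_lit 475220) (nat_lit 44) (.e (nat_lit 737305) (nat_lit 11) .nil))))))) (.g (nat_lit 7) .nil .nil))))))) (.nd (nat_lit 2) (.nd (nat_lit 3) (.nd (nat_lit 4) (.nd (nat_lit 5) 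
(.lf (nat_lit 12610) (.g (nat_lit 2948) (.e (nat_lit 751) (nat_lit 66) (.e (nat_lit 704738) (nat_lit 11) (.e (nat_lit 16425) (nat_lit 7) (.e (nat_lit 409645) (nat_lit 18) (.e (nat_lit 303143) (nat_lit 12) .nil))))) .nil)) 
(.lf (nat_lit 12642) (.g (nat_lit 3704) (.e (nat_lit 753) (nat_lit 66) (.e (nat_lit 704737) (nat_lit 11) (.e (nat_lit 16425) (nat_lit 7) (.e (nat_lit 409644) (nat_lit 18) (.e (nat_lit 303143) (nat_lit 12) (.e (nat_lit 475220) (nat_lit 44) (.e (nat_lit 737306) (nat_lit 11) .nil))))))) (.g (nat_lit 7) .nil .nil)))) (.nd (nat_lit 5) 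
(.lf (nat_lit 12626) (.g (nat_lit 2697) (.e (nat_lit 753) (nat_lit 66) (.e (nat_lit 704737) (nat_lit 11) (.e (nat_lit 16424) (nat_lit 7) (.e (nat_lit 409645) (nat_lit 18) (.e (nat_lit 303143) (nat_lit 12) (.e (nat_lit 475218) (nat_lit 44) (.e (nat_lit 737303) (nat_lit 11) .nil))))))) (.g (nat_lit 5) .nil .nil))) 
(.lf (nat_lit 12658) (.g (nat_lit 4114) (.e (nat_lit 753) (nat_lit 66) (.e (nat_lit 704737) (nat_lit 11) (.e (nat_lit 16425) (nat_lit 7) (.e (nat_lit 409648) (nat_lit 18) (.e (nat_lit 303143) (nat_lit 12) (.e (nat_lit 475220) (nat_lit 44) (.e (nat_lit 737303) (nat_lit 11) .nil))))))) (.g (nat_lit 7) .nil .nil))))) (.nd (nat_lit 4) (.nd (nat_lit 5) 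
(.lf (nat_lit 12618) (.g (nat_lit 2199) (.e (nat_lit 751) (nat_lit 66) (.e (nat_lit 704738) (nat_lit 11) (.e (nat_lit 16425) (nat_lit 7) (.e (nat_lit 409649) (nat_lit 18) (.e (nat_lit 303143) (nat_lit 12) .nil))))) .nil)) 
(.lf (nat_lit 12650) (.g (nat_lit 3605) (.e (nat_lit 753) (nat_lit 66) (.e (nat_lit 704737) (nat_lit 11) (.e (nat_lit 16425) (nat_lit 7) (.e (nat_lit 409646) (nat_lit 18) (.e (nat_lit 303143) (nat_lit 12) (.e (nat_lit 475220) (nat_lit 44) (.e (nat_lit 737305) (nat_lit 11) .nil))))))) (.g (nat_lit 7) .nil .nil)))) (.nd (nat_lit 5) 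
(.lf (nat_lit 12634) (.g (nat_lit 1930) (.e (nat_lit 753) (nat_lit 66) (.e (nat_lit 704737) (nat_lit 11) (.e (nat_lit 16425) (nat_lit 7) (.e (nat_lit 409643) (nat_lit 18) (.e (nat_lit 303143) (nat_lit 12) (.e (nat_lit 475199) (nat_lit 40) (.e (nat_lit 704790) (nat_lit 14) (.e (nat_lit 2416) (nat_lit 157) .nil)))))))) (.g (nat_lit 4) .nil .nil))) 
(.lf (nat_lit 12666) (.g (nat_lit 2159) (.e (nat_lit 753) (nat_lit 66) (.e (nat_lit 704737) (nat_lit 11) (.e (nat_lit 16425) (nat_lit 7) (.e (nat_lit 409649) (nat_lit 18) (.e (nat_lit 303143) (nat_lit 12) (.e (nat_lit 475218) (nat_lit 44) (.e (nat_lit 737307) (nat_lit 11) .nil))))))) (.g (nat_lit 4) .nil .nil)))))) (.nd (nat_lit 3) (.nd (nat_lit 4) (.nd (nat_lit 5) 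
(.lf (nat_lit 12614) (.g (nat_lit 2970) (.e (nat_lit 751) (nat_lit 66) (.e (nat_lit 704738) (nat_lit 11) (.e (nat_lit 16425) (nat_lit 7) (.e (nat_lit 409648) (nat_lit 18) (.e (nat_lit 303137) (nat_lit 10) .nil))))) .nil)) 
(.lf (nat_lit 12646) (.g (nat_lit 2168) (.e (nat_lit 753) (nat_lit 66) (.e (nat_lit 704737) (nat_lit 11) (.e (nat_lit 16425) (nat_lit 7) (.e (nat_lit 409646) (nat_lit 18) (.e (nat_lit 303143) (nat_lit 12) (.e (nat_lit 475198) (nat_lit 40) (.e (nat_lit 704790) (nat_lit 14) (.e (nat_lit 2416) (nat_lit 157) .nil)))))))) (.g (nat_lit 4) .nil .nil)))) (.nd (nat_lit 5) 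
(.lf (nat_lit 12630) (.g (nat_lit 3513) (.e (nat_lit 753) (nat_lit 66) (.e (nat_lit 704737) (nat_lit 11) (.e (nat_lit 16424) (nat_lit 7) (.e (nat_lit 409645) (nat_lit 18) (.e (nat_lit 303143) (nat_lit 12) (.e (nat_lit 475220) (nat_lit 44) (.e (nat_lit 737306) (nat_lit 11) .nil))))))) (.g (nat_lit 7) .nil .nil))) 
(.lf (nat_lit 12662) (.g (nat_lit 2168) (.e (nat_lit 753) (nat_lit 66) (.e (nat_lit 704737) (nat_lit 11) (.e (nat_lit 16425) (nat_lit 7) (.e (nat_lit 409649) (nat_lit 18) (.e (nat_lit 303143) (nat_lit 12) (.e (nat_lit 475198) (nat_lit 40) (.e (nat_lit 704790) (nat_lit 14) (.e (nat_lit 2416) (nat_lit 157) .nil)))))))) (.g (nat_lit 4) .nil .nil))))) (.nd (nat_lit 4) (.nd (nat_lit 5) 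
(.lf (nat_lit 12622) (.g (nat_lit 3749) (.e (nat_lit 753) (nat_lit 66) (.e (nat_lit 704737) (nat_lit 11) (.e (nat_lit 16392) (nat_lit 0) (.e (nat_lit 6989) (nat_lit 377) (.e (nat_lit 2810) (nat_lit 180) (.e (nat_lit 303143) (nat_lit 12) (.e (nat_lit 475220) (nat_lit 44) (.e (nat_lit 737303) (nat_lit 11) .nil)))))))) (.g (nat_lit 8) .nil .nil))) 
(.lf (nat_lit 12654) (.g (nat_lit 2631) (.e (nat_lit 753) (nat_lit 66) (.e (nat_lit 704737) (nat_lit 11) (.e (nat_lit 16425) (nat_lit 7) (.e (nat_lit 409648) (nat_lit 18) (.e (nat_lit 303142) (nat_lit 12) (.e (nat_lit 475218) (nat_lit 44) (.e (nat_lit 737303) (nat_lit 11) .nil))))))) (.g (nat_lit 4) .nil .nil)))) (.nd (nat_lit 5) 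
(.lf (nat_lit 12638) (.g (nat_lit 3722) (.e (nat_lit 753) (nat_lit 66) (.e (nat_lit 704737) (nat_lit 11) (.e (nat_lit 16425) (nat_lit 7) (.e (nat_lit 409643) (nat_lit 18) (.e (nat_lit 303143) (nat_lit 12) (.e (nat_lit 475220) (nat_lit 44) (.e (nat_lit 737306) (nat_lit 11) .nil))))))) (.g (nat_lit 7) .nil .nil))) 
(.lf (nat_lit 12670) (.g (nat_lit 2132) (.e (nat_lit 753) (nat_lit 66) (.e (nat_lit 704737) (nat_lit 11) (.e (nat_lit 16448) (nat_lit 10) (.e (nat_lit 434291) (nat_lit 44) .nil)))) .nil))))))) (.nd (nat_lit 1) (.nd (nat_lit 2) (.nd (nat_lit 3) (.nd (nat_lit 4) (.nd (nat_lit 5) 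
(.lf (nat_lit 12609) (.g (nat_lit 2590) (.e (nat_lit 751) (nat_lit 66) (.e (nat_lit 704738) (nat_lit 11) (.e (nat_lit 16425) (nat_lit 7) (.e (nat_lit 409644) (nat_lit 18) (.e (nat_lit 303143) (nat_lit 12) (.e (nat_lit 475220) (nat_lit 44) (.e (nat_lit 737306) (nat_lit 11) .nil))))))) (.g (nat_lit 4) .nil .nil))) 
(.lf (nat_lit 12641) (.g (nat_lit 3584) (.e (nat_lit 753) (nat_lit 66) (.e (nat_lit 704737) (nat_lit 11) (.e (nat_lit 16425) (nat_lit 7) (.e (nat_lit 409644) (nat_lit 18) (.e (nat_lit 303143) (nat_lit 12) (.e (nat_lit 475220) (nat_lit 44) (.e (nat_lit 737305) (nat_lit 11) .nil))))))) (.g (nat_lit 7) .nil .nil)))) (.nd (nat_lit 5) 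
(.lf (nat_lit 12625) (.g (nat_lit 1680) (.e (nat_lit 753) (nat_lit 66) (.e (nat_lit 704737) (nat_lit 11) (.e (nat_lit 16416) (nat_lit 3) (.e (nat_lit 204861) (nat_lit 26) (.e (nat_lit 336194) (nat_lit 12) (.e (nat_lit 385062) (nat_lit 23) (.e (nat_lit 507930) (nat_lit 10) .nil))))))) (.g (nat_lit 4) .nil .nil))) 
(.lf (nat_lit 12657) (.g (nat_lit 3150) (.e (nat_lit 753) (nat_lit 66) (.e (nat_lit 704737) (nat_lit 11) (.e (nat_lit 16425) (nat_lit 7) (.e (nat_lit 409648) (nat_lit 18) (.e (nat_lit 303142) (nat_lit 12) (.e (nat_lit 475220) (nat_lit 44) (.e (nat_lit 737305) (nat_lit 11) .nil))))))) (.g (nat_lit 6) .nil .nil))))) (.nd (nat_lit 4) (.nd (nat_lit 5) 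
(.lf (nat_lit 12617) (.g (nat_lit 2705) (.e (nat_lit 751) (nat_lit 66) (.e (nat_lit 704738) (nat_lit 11) (.e (nat_lit 16425) (nat_lit 7) (.e (nat_lit 409648) (nat_lit 18) (.e (nat_lit 303143) (nat_lit 12) .nil))))) .nil)) 
(.lf (nat_lit 12649) (.g (nat_lit 3648) (.e (nat_lit 753) (nat_lit 66) (.e (nat_lit 704737) (nat_lit 11) (.e (nat_lit 16425) (nat_lit 7) (.e (nat_lit 409646) (nat_lit 18) (.e (nat_lit 303143) (nat_lit 12) (.e (nat_lit 475220) (nat_lit 44) (.e (nat_lit 737303) (nat_lit 11) .nil))))))) (.g (nat_lit 0) .nil .nil)))) (.nd (nat_lit 5) 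
(.lf (nat_lit 12633) (.g (nat_lit 2006) (.e (nat_lit 753) (nat_lit 66) (.e (nat_lit 704737) (nat_lit 11) (.e (nat_lit 16425) (nat_lit 7) (.e (nat_lit 409643) (nat_lit 18) (.e (nat_lit 303143) (nat_lit 12) (.e (nat_lit 475198) (nat_lit 40) (.e (nat_lit 704790) (nat_lit 14) (.e (nat_lit 2416) (nat_lit 157) .nil)))))))) (.g (nat_lit 4) .nil .nil))) 
(.lf (nat_lit 12665) (.g (nat_lit 3145) (.e (nat_lit 753) (nat_lit 66) (.e (nat_lit 704737) (nat_lit 11) (.e (nat_lit 16425) (nat_lit 7) (.e (nat_lit 409649) (nat_lit 18) (.e (nat_lit 303143) (nat_lit 12) (.e (nat_lit 475218) (nat_lit 44) (.e (nat_lit 737303) (nat_lit 11) .nil))))))) (.g (nat_lit 5) .nil .nil)))))) (.nd (nat_lit 3) (.nd (nat_lit 4) (.nd (nat_lit 5) 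
(.lf (nat_lit 12613) (.g (nat_lit 2321) (.e (nat_lit 751) (nat_lit 66) (.e (nat_lit 704738) (nat_lit 11) (.e (nat_lit 16425) (nat_lit 7) (.e (nat_lit 409647) (nat_lit 18) .nil)))) .nil)) 
(.lf (nat_lit 12645) (.g (nat_lit 1947) (.e (nat_lit 753) (nat_lit 66) (.e (nat_lit 704737) (nat_lit 11) (.e (nat_lit 16425) (nat_lit 7) (.e (nat_lit 409646) (nat_lit 18) (.e (nat_lit 303143) (nat_lit 12) .nil))))) .nil))) (.nd (nat_lit 5) 
(.lf (nat_lit 12629) (.g (nat_lit 3554) (.e (nat_lit 753) (nat_lit 66) (.e (nat_lit 704737) (nat_lit 11) (.e (nat_lit 16424) (nat_lit 7) (.e (nat_lit 409645) (nat_lit 18) (.e (nat_lit 303143) (nat_lit 12) (.e (nat_lit 475220) (nat_lit 44) (.e (nat_lit 737305) (nat_lit 11) .nil))))))) (.g (nat_lit 7) .nil .nil))) 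
(.lf (nat_lit 12661) (.g (nat_lit 2137) (.e (nat_lit 753) (nat_lit 66) (.e (nat_lit 704737) (nat_lit 11) (.e (nat_lit 16425) (nat_lit 7) (.e (nat_lit 409649) (nat_lit 18) (.e (nat_lit 303143) (nat_lit 12) .nil))))) .nil)))) (.nd (nat_lit 4) (.nd (nat_lit 5) 
(.lf (nat_lit 12621) (.g (nat_lit 1851) (.e (nat_lit 753) (nat_lit 66) (.e (nat_lit 704736) (nat_lit 11) (.e (nat_lit 16425) (nat_lit 7) (.e (nat_lit 409649) (nat_lit 18) (.e (nat_lit 303143) (nat_lit 12) (.e (nat_lit 475220) (nat_lit 44) (.e (nat_lit 737304) (nat_lit 11) .nil))))))) (.g (nat_lit 4) .nil .nil))) 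
(.lf (nat_lit 12653) (.g (nat_lit 2425) (.e (nat_lit 753) (nat_lit 66) (.e (nat_lit 704737) (nat_lit 11) (.e (nat_lit 16425) (nat_lit 7) (.e (nat_lit 409648) (nat_lit 18) (.e (nat_lit 303142) (nat_lit 12) .nil))))) .nil))) (.nd (nat_lit 5) 
(.lf (nat_lit 12637) (.g (nat_lit 3617) (.e (nat_lit 753) (nat_lit 66) (.e (nat_lit 704737) (nat_lit 11) (.e (nat_lit 16425) (nat_lit 7) (.e (nat_lit 409643) (nat_lit 18) (.e (nat_lit 303143) (nat_lit 12) (.e (nat_lit 475220) (nat_lit 44) (.e (nat_lit 737305) (nat_lit 11) .nil))))))) (.g (nat_lit 7) .nil .nil))) 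
(.lf (nat_lit 12669) (.g (nat_lit 4039) (.e (nat_lit 753) (nat_lit 66) (.e (nat_lit 704737) (nat_lit 11) (.e (nat_lit 16425) (nat_lit 7) (.e (nat_lit 409649) (nat_lit 18) (.e (nat_lit 303143) (nat_lit 12) (.e (nat_lit 475220) (nat_lit 44) (.e (nat_lit 737306) (nat_lit 11) .nil))))))) (.g (nat_lit 7) .nil .nil))))))) (.nd (nat_lit 2) (.nd (nat_lit 3) (.nd (nat_lit 4) (.nd (nat_lit 5) 
(.lf (nat_lit 12611) (.g (nat_lit 2284) (.e (nat_lit 751) (nat_lit 66) (.e (nat_lit 704738) (nat_lit 11) (.e (nat_lit 16425) (nat_lit 7) (.e (nat_lit 409646) (nat_lit 18) (.e (nat_lit 303143) (nat_lit 12) .nil))))) .nil)) 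
(.lf (nat_lit 12643) (.g (nat_lit 2189) (.e (nat_lit 753) (nat_lit 66) (.e (nat_lit 704737) (nat_lit 11) (.e (nat_lit 16425) (nat_lit 7) (.e (nat_lit 409645) (nat_lit 18) (.e (nat_lit 303143) (nat_lit 12) .nil))))) .nil))) (.nd (nat_lit 5) 
(.lf (nat_lit 12627) (.g (nat_lit 1694) (.e (nat_lit 753) (nat_lit 66) (.e (nat_lit 704737) (nat_lit 11) (.e (nat_lit 16424) (nat_lit 7) (.e (nat_lit 409645) (nat_lit 18) (.e (nat_lit 303143) (nat_lit 12) (.e (nat_lit 475218) (nat_lit 44) (.e (nat_lit 737307) (nat_lit 11) .nil))))))) (.g (nat_lit 4) .nil .nil))) 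
(.lf (nat_lit 12659) (.g (nat_lit 4111) (.e (nat_lit 753) (nat_lit 66) (.e (nat_lit 704737) (nat_lit 11) (.e (nat_lit 16425) (nat_lit 7) (.e (nat_lit 409648) (nat_lit 18) (.e (nat_lit 303143) (nat_lit 12) (.e (nat_lit 475220) (nat_lit 44) (.e (nat_lit 737305) (nat_lit 11) .nil))))))) (.g (nat_lit 7) .nil .nil))))) (.nd (nat_lit 4) (.nd (nat_lit 5) 
(.lf (nat_lit 12619) (.g (nat_lit 2010) (.e (nat_lit 753) (nat_lit 66) (.e (nat_lit 704736) (nat_lit 11) (.e (nat_lit 16425) (nat_lit 7) (.e (nat_lit 409648) (nat_lit 18) (.e (nat_lit 303142) (nat_lit 12) .nil))))) .nil)) 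
(.lf (nat_lit 12651) (.g (nat_lit 3706) (.e (nat_lit 753) (nat_lit 66) (.e (nat_lit 704737) (nat_lit 11) (.e (nat_lit 16425) (nat_lit 7) (.e (nat_lit 409646) (nat_lit 18) (.e (nat_lit 303143) (nat_lit 12) (.e (nat_lit 475220) (nat_lit 44) (.e (nat_lit 737306) (nat_lit 11) .nil))))))) (.g (nat_lit 7) .nil .nil)))) (.nd (nat_lit 5) 
(.lf (nat_lit 12635) (.g (nat_lit 2864) (.e (nat_lit 753) (nat_lit 66) (.e (nat_lit 704737) (nat_lit 11) (.e (nat_lit 16425) (nat_lit 7) (.e (nat_lit 409643) (nat_lit 18) (.e (nat_lit 303143) (nat_lit 12) (.e (nat_lit 475218) (nat_lit 44) (.e (nat_lit 737303) (nat_lit 11) .nil))))))) (.g (nat_lit 5) .nil .nil))) 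
(.lf (nat_lit 12667) (.g (nat_lit 3915) (.e (nat_lit 753) (nat_lit 66) (.e (nat_lit 704737) (nat_lit 11) (.e (nat_lit 16425) (nat_lit 7) (.e (nat_lit 409649) (nat_lit 18) (.e (nat_lit 303143) (nat_lit 12) (.e (nat_lit 475220) (nat_lit 44) (.e (nat_lit 737303) (nat_lit 11) .nil))))))) (.g (nat_lit 7) .nil .nil)))))) (.nd (nat_lit 3) (.nd (nat_lit 4) (.nd (nat_lit 5) 
(.lf (nat_lit 12615) (.g (nat_lit 3832) (.e (nat_lit 751) (nat_lit 66) (.e (nat_lit 704738) (nat_lit 11) (.e (nat_lit 16425) (nat_lit 7) (.e (nat_lit 409648) (nat_lit 18) (.e (nat_lit 303137) (nat_lit 10) (.e (nat_lit 434275) (nat_lit 39) (.e (nat_lit 663589) (nat_lit 14) (.e (nat_lit 1074) (nat_lit 81) .nil)))))))) (.g (nat_lit 6) .nil .nil))) 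
(.lf (nat_lit 12647) (.g (nat_lit 2025) (.e (nat_lit 753) (nat_lit 66) (.e (nat_lit 704737) (nat_lit 11) (.e (nat_lit 16425) (nat_lit 7) (.e (nat_lit 409646) (nat_lit 18) (.e (nat_lit 303143) (nat_lit 12) (.e (nat_lit 475216) (nat_lit 44) (.e (nat_lit 737307) (nat_lit 11) .nil))))))) (.g (nat_lit 4) .nil .nil)))) (.nd (nat_lit 5) 
(.lf (nat_lit 12631) (.g (nat_lit 1339) (.e (nat_lit 753) (nat_lit 66) (.e (nat_lit 704737) (nat_lit 11) (.e (nat_lit 16425) (nat_lit 7) (.e (nat_lit 409623) (nat_lit 10) .nil)))) .nil)) 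
(.lf (nat_lit 12663) (.g (nat_lit 2167) (.e (nat_lit 753) (nat_lit 66) (.e (nat_lit 704737) (nat_lit 11) (.e (nat_lit 16425) (nat_lit 7) (.e (nat_lit 409649) (nat_lit 18) (.e (nat_lit 303143) (nat_lit 12) (.e (nat_lit 475199) (nat_lit 40) (.e (nat_lit 704790) (nat_lit 14) (.e (nat_lit 2416) (nat_lit 157) .nil)))))))) (.g (nat_lit 4) .nil .nil))))) (.nd (nat_lit 4) (.nd (nat_lit 5) 
(.lf (nat_lit 12623) (.g (nat_lit 3691) (.e (nat_lit 753) (nat_lit 66) (.e (nat_lit 704737) (nat_lit 11) (.e (nat_lit 16392) (nat_lit 0) (.e (nat_lit 6989) (nat_lit 377) (.e (nat_lit 2810) (nat_lit 180) (.e (nat_lit 303143) (nat_lit 12) (.e (nat_lit 475220) (nat_lit 44) (.e (nat_lit 737305) (nat_lit 11) .nil)))))))) (.g (nat_lit 8) .nil .nil))) 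
(.lf (nat_lit 12655) (.g (nat_lit 3306) (.e (nat_lit 753) (nat_lit 66) (.e (nat_lit 704737) (nat_lit 11) (.e (nat_lit 16425) (nat_lit 7) (.e (nat_lit 409648) (nat_lit 18) (.e (nat_lit 303142) (nat_lit 12) (.e (nat_lit 475220) (nat_lit 44) (.e (nat_lit 737303) (nat_lit 11) .nil))))))) (.g (nat_lit 7) .nil .nil)))) (.nd (nat_lit 5) 
(.lf (nat_lit 12639) (.g (nat_lit 2047) (.e (nat_lit 753) (nat_lit 66) (.e (nat_lit 704737) (nat_lit 11) (.e (nat_lit 16425) (nat_lit 7) (.e (nat_lit 409644) (nat_lit 18) (.e (nat_lit 303143) (nat_lit 12) (.e (nat_lit 475218) (nat_lit 44) (.e (nat_lit 737303) (nat_lit 11) .nil))))))) (.g (nat_lit 4) .nil .nil))) 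
(.lf (nat_lit 12671) (.g (nat_lit 1273) (.e (nat_lit 753) (nat_lit 66) (.e (nat_lit 704737) (nat_lit 11) (.e (nat_lit 16473) (nat_lit 14) (.e (nat_lit 491560) (nat_lit 10) .nil)))) .nil))))))))

noncomputable def tv172 : DT := (.nd (nat_lit 0) (.nd (nat_lit 1) (.nd (nat_lit 2) (.nd (nat_lit 3) (.nd (nat_lit 4) (.nd (nat_lit 5) 
(.lf (nat_lit 12672) (.g (nat_lit 2545) (.e (nat_lit 753) (nat_lit 66) (.e (nat_lit 704737) (nat_lit 11) (.e (nat_lit 16473) (nat_lit 14) (.e (nat_lit 491572) (nat_lit 14) (.e (nat_lit 401454) (nat_lit 12) .nil))))) .nil)) 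
(.lf (nat_lit 12704) (.g (nat_lit 2837) (.e (nat_lit 757) (nat_lit 66) (.e (nat_lit 704738) (nat_lit 11) (.e (nat_lit 16425) (nat_lit 7) (.e (nat_lit 409645) (nat_lit 18) (.e (nat_lit 303143) (nat_lit 12) .nil))))) .nil))) (.nd (nat_lit 5) 
(.lf (nat_lit 12688) (.g (nat_lit 2185) (.e (nat_lit 753) (nat_lit 66) (.e (nat_lit 704738) (nat_lit 11) (.e (nat_lit 16425) (nat_lit 7) (.e (nat_lit 409647) (nat_lit 18) .nil)))) .nil)) 
(.lf (nat_lit 12720) (.g (nat_lit 2380) (.e (nat_lit 780) (nat_lit 66) (.e (nat_lit 704738) (nat_lit 11) (.e (nat_lit 16425) (nat_lit 7) (.e (nat_lit 409649) (nat_lit 18) .nil)))) .nil)))) (.nd (nat_lit 4) (.nd (nat_lit 5) 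
(.lf (nat_lit 12680) (.g (nat_lit 2662) (.e (nat_lit 753) (nat_lit 66) (.e (nat_lit 704738) (nat_lit 11) (.e (nat_lit 16425) (nat_lit 7) (.e (nat_lit 409644) (nat_lit 18) (.e (nat_lit 303143) (nat_lit 12) (.e (nat_lit 475220) (nat_lit 44) (.e (nat_lit 737304) (nat_lit 11) .nil))))))) (.g (nat_lit 5) .nil .nil))) 
(.lf (nat_lit 12712) (.g (nat_lit 2571) (.e (nat_lit 758) (nat_lit 66) (.e (nat_lit 704738) (nat_lit 11) (.e (nat_lit 16425) (nat_lit 7) (.e (nat_lit 409644) (nat_lit 18) .nil)))) .nil))) (.nd (nat_lit 5) 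
(.lf (nat_lit 12696) (.g (nat_lit 2261) (.e (nat_lit 755) (nat_lit 66) (.e (nat_lit 704738) (nat_lit 11) (.e (nat_lit 16425) (nat_lit 7) (.e (nat_lit 409643) (nat_lit 18) .nil)))) .nil)) 
(.lf (nat_lit 12728) (.g (nat_lit 1513) (.e (nat_lit 788) (nat_lit 66) (.e (nat_lit 704737) (nat_lit 11) (.e (nat_lit 16392) (nat_lit 0) (.e (nat_lit 6989) (nat_lit 377) .nil)))) .nil))))) (.nd (nat_lit 3) (.nd (nat_lit 4) (.nd (nat_lit 5) 
(.lf (nat_lit 12676) (.g (nat_lit 3121) (.e (nat_lit 753) (nat_lit 66) (.e (nat_lit 704738) (nat_lit 11) (.e (nat_lit 16424) (nat_lit 7) (.e (nat_lit 409645) (nat_lit 18) (.e (nat_lit 303143) (nat_lit 12) (.e (nat_lit 475220) (nat_lit 44) (.e (nat_lit 737306) (nat_lit 11) .nil))))))) (.g (nat_lit 6) .nil .nil))) 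
(.lf (nat_lit 12708) (.g (nat_lit 2885) (.e (nat_lit 757) (nat_lit 66) (.e (nat_lit 704738) (nat_lit 11) (.e (nat_lit 16425) (nat_lit 7) (.e (nat_lit 409648) (nat_lit 18) (.e (nat_lit 303142) (nat_lit 12) .nil))))) .nil))) (.nd (nat_lit 5) 
(.lf (nat_lit 12692) (.g (nat_lit 2903) (.e (nat_lit 753) (nat_lit 66) (.e (nat_lit 704738) (nat_lit 11) (.e (nat_lit 16425) (nat_lit 7) (.e (nat_lit 409648) (nat_lit 18) (.e (nat_lit 303143) (nat_lit 12) (.e (nat_lit 475220) (nat_lit 44) (.e (nat_lit 737303) (nat_lit 11) .nil))))))) (.g (nat_lit 5) .nil .nil))) 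
(.lf (nat_lit 12724) (.g (nat_lit 2450) (.e (nat_lit 786) (nat_lit 66) (.e (nat_lit 704738) (nat_lit 11) (.e (nat_lit 16425) (nat_lit 7) (.e (nat_lit 409646) (nat_lit 18) (.e (nat_lit 303143) (nat_lit 12) (.e (nat_lit 475220) (nat_lit 44) (.e (nat_lit 737303) (nat_lit 11) .nil))))))) (.g (nat_lit 4) .nil .nil))))) (.nd (nat_lit 4) (.nd (nat_lit 5) 
(.lf (nat_lit 12684) (.g (nat_lit 3090) (.e (nat_lit 753) (nat_lit 66) (.e (nat_lit 704738) (nat_lit 11) (.e (nat_lit 16425) (nat_lit 7) (.e (nat_lit 409646) (nat_lit 18) (.e (nat_lit 303143) (nat_lit 12) (.e (nat_lit 475220) (nat_lit 44) (.e (nat_lit 737303) (nat_lit 11) .nil))))))) (.g (nat_lit 6) .nil .nil))) 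
(.lf (nat_lit 12716) (.g (nat_lit 1550) (.e (nat_lit 761) (nat_lit 66) (.e (nat_lit 704734) (nat_lit 11) (.e (nat_lit 16468) (nat_lit 13) (.e (nat_lit 483371) (nat_lit 21) (.e (nat_lit 319524) (nat_lit 14) .nil))))) .nil))) (.nd (nat_lit 5) 
(.lf (nat_lit 12700) (.g (nat_lit 2463) (.e (nat_lit 756) (nat_lit 66) (.e (nat_lit 704738) (nat_lit 11) (.e (nat_lit 16425) (nat_lit 7) (.e (nat_lit 409646) (nat_lit 18) .nil)))) .nil)) 
(.lf (nat_lit 12732) (.g (nat_lit 2239) (.e (nat_lit 788) (nat_lit 66) (.e (nat_lit 704737) (nat_lit 11) (.e (nat_lit 16425) (nat_lit 7) (.e (nat_lit 409649) (nat_lit 18) (.e (nat_lit 303143) (nat_lit 12) .nil))))) .nil)))))) (.nd (nat_lit 2) (.nd (nat_lit 3) (.nd (nat_lit 4) (.nd (nat_lit 5) 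
(.lf (nat_lit 12674) (.g (nat_lit 2686) (.e (nat_lit 753) (nat_lit 66) (.e (nat_lit 704738) (nat_lit 11) (.e (nat_lit 16424) (nat_lit 7) (.e (nat_lit 409645) (nat_lit 18) (.e (nat_lit 303143) (nat_lit 12) (.e (nat_lit 475220) (nat_lit 44) (.e (nat_lit 737304) (nat_lit 11) .nil))))))) (.g (nat_lit 5) .nil .nil))) 
(.lf (nat_lit 12706) (.g (nat_lit 2245) (.e (nat_lit 757) (nat_lit 66) (.e (nat_lit 704738) (nat_lit 11) (.e (nat_lit 16425) (nat_lit 7) (.e (nat_lit 409647) (nat_lit 18) .nil)))) .nil))) (.nd (nat_lit 5) 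
(.lf (nat_lit 12690) (.g (nat_lit 2817) (.e (nat_lit 753) (nat_lit 66) (.e (nat_lit 704738) (nat_lit 11) (.e (nat_lit 16425) (nat_lit 7) (.e (nat_lit 409647) (nat_lit 18) (.e (nat_lit 303143) (nat_lit 12) (.e (nat_lit 475220) (nat_lit 44) (.e (nat_lit 737305) (nat_lit 11) .nil))))))) (.g (nat_lit 4) .nil .nil))) 
(.lf (nat_lit 12722) (.g (nat_lit 2095) (.e (nat_lit 786) (nat_lit 66) (.e (nat_lit 704738) (nat_lit 11) (.e (nat_lit 16425) (nat_lit 7) (.e (nat_lit 409644) (nat_lit 18) .nil)))) .nil)))) (.nd (nat_lit 4) (.nd (nat_lit 5) 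
(.lf (nat_lit 12682) (.g (nat_lit 2167) (.e (nat_lit 753) (nat_lit 66) (.e (nat_lit 704738) (nat_lit 11) (.e (nat_lit 16425) (nat_lit 7) (.e (nat_lit 409646) (nat_lit 18) (.e (nat_lit 303143) (nat_lit 12) (.e (nat_lit 475198) (nat_lit 40) (.e (nat_lit 704790) (nat_lit 14) (.e (nat_lit 2416) (nat_lit 157) .nil)))))))) (.g (nat_lit 4) .nil .nil))) 
(.lf (nat_lit 12714) (.g (nat_lit 2497) (.e (nat_lit 758) (nat_lit 66) (.e (nat_lit 704738) (nat_lit 11) (.e (nat_lit 16425) (nat_lit 7) (.e (nat_lit 409648) (nat_lit 18) .nil)))) .nil))) (.nd (nat_lit 5) 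
(.lf (nat_lit 12698) (.g (nat_lit 2359) (.e (nat_lit 755) (nat_lit 66) (.e (nat_lit 704738) (nat_lit 11) (.e (nat_lit 16425) (nat_lit 7) (.e (nat_lit 409648) (nat_lit 18) .nil)))) .nil)) 
(.lf (nat_lit 12730) (.g (nat_lit 2077) (.e (nat_lit 788) (nat_lit 66) (.e (nat_lit 704737) (nat_lit 11) (.e (nat_lit 16425) (nat_lit 7) (.e (nat_lit 409646) (nat_lit 18) (.e (nat_lit 303143) (nat_lit 12) .nil))))) .nil))))) (.nd (nat_lit 3) (.nd (nat_lit 4) (.nd (nat_lit 5) 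
(.lf (nat_lit 12678) (.g (nat_lit 1909) (.e (nat_lit 753) (nat_lit 66) (.e (nat_lit 704738) (nat_lit 11) (.e (nat_lit 16425) (nat_lit 7) (.e (nat_lit 409643) (nat_lit 18) (.e (nat_lit 303143) (nat_lit 12) .nil))))) .nil)) 
(.lf (nat_lit 12710) (.g (nat_lit 2801) (.e (nat_lit 757) (nat_lit 66) (.e (nat_lit 704738) (nat_lit 11) (.e (nat_lit 16425) (nat_lit 7) (.e (nat_lit 409649) (nat_lit 18) (.e (nat_lit 303143) (nat_lit 12) (.e (nat_lit 475220) (nat_lit 44) (.e (nat_lit 737303) (nat_lit 11) .nil))))))) (.g (nat_lit 5) .nil .nil)))) (.nd (nat_lit 5) 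
(.lf (nat_lit 12694) (.g (nat_lit 2876) (.e (nat_lit 753) (nat_lit 66) (.e (nat_lit 704738) (nat_lit 11) (.e (nat_lit 16425) (nat_lit 7) (.e (nat_lit 409648) (nat_lit 18) (.e (nat_lit 303143) (nat_lit 12) (.e (nat_lit 475220) (nat_lit 44) (.e (nat_lit 737305) (nat_lit 11) .nil))))))) (.g (nat_lit 5) .nil .nil))) 
(.lf (nat_lit 12726) (.g (nat_lit 2796) (.e (nat_lit 786) (nat_lit 66) (.e (nat_lit 704738) (nat_lit 11) (.e (nat_lit 16425) (nat_lit 7) (.e (nat_lit 409648) (nat_lit 18) (.e (nat_lit 303143) (nat_lit 12) .nil))))) .nil)))) (.nd (nat_lit 4) (.nd (nat_lit 5) 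
(.lf (nat_lit 12686) (.g (nat_lit 3023) (.e (nat_lit 753) (nat_lit 66) (.e (nat_lit 704738) (nat_lit 11) (.e (nat_lit 16425) (nat_lit 7) (.e (nat_lit 409646) (nat_lit 18) (.e (nat_lit 303143) (nat_lit 12) (.e (nat_lit 475220) (nat_lit 44) (.e (nat_lit 737305) (nat_lit 11) .nil))))))) (.g (nat_lit 6) .nil .nil))) 
(.lf (nat_lit 12718) (.g (nat_lit 2434) (.e (nat_lit 780) (nat_lit 66) (.e (nat_lit 704738) (nat_lit 11) (.e (nat_lit 16425) (nat_lit 7) (.e (nat_lit 409643) (nat_lit 18) .nil)))) .nil))) (.nd (nat_lit 5) 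
(.lf (nat_lit 12702) (.g (nat_lit 2258) (.e (nat_lit 757) (nat_lit 66) (.e (nat_lit 704738) (nat_lit 11) (.e (nat_lit 16425) (nat_lit 7) (.e (nat_lit 409643) (nat_lit 18) (.e (nat_lit 303143) (nat_lit 12) .nil))))) .nil)) 
(.lf (nat_lit 12734) (.g (nat_lit 2382) (.e (nat_lit 788) (nat_lit 66) (.e (nat_lit 704738) (nat_lit 11) (.e (nat_lit 16425) (nat_lit 7) (.e (nat_lit 409649) (nat_lit 18) (.e (nat_lit 303143) (nat_lit 12) (.e (nat_lit 475220) (nat_lit 44) (.e (nat_lit 737311) (nat_lit 11) .nil))))))) (.g (nat_lit 4) .nil .nil)))))))) 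
(.nd (nat_lit 1) (.nd (nat_lit 2) (.nd (nat_lit 3) (.nd (nat_lit 4) (.nd (nat_lit 5) 
(.lf (nat_lit 12673) (.g (nat_lit 3122) (.e (nat_lit 753) (nat_lit 66) (.e (nat_lit 704738) (nat_lit 11) (.e (nat_lit 16424) (nat_lit 7) (.e (nat_lit 409645) (nat_lit 18) (.e (nat_lit 303143) (nat_lit 12) (.e (nat_lit 475220) (nat_lit 44) (.e (nat_lit 737303) (nat_lit 11) .nil))))))) (.g (nat_lit 6) .nil .nil))) 
(.lf (nat_lit 12705) (.g (nat_lit 2184) (.e (nat_lit 757) (nat_lit 66) (.e (nat_lit 704738) (nat_lit 11) (.e (nat_lit 16425) (nat_lit 7) (.e (nat_lit 409646) (nat_lit 18) (.e (nat_lit 303143) (nat_lit 12) .nil))))) .nil))) (.nd (nat_lit 5) 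
(.lf (nat_lit 12689) (.g (nat_lit 2769) (.e (nat_lit 753) (nat_lit 66) (.e (nat_lit 704738) (nat_lit 11) (.e (nat_lit 16425) (nat_lit 7) (.e (nat_lit 409647) (nat_lit 18) (.e (nat_lit 303143) (nat_lit 12) (.e (nat_lit 475220) (nat_lit 44) (.e (nat_lit 737303) (nat_lit 11) .nil))))))) (.g (nat_lit 4) .nil .nil))) 
(.lf (nat_lit 12721) (.g (nat_lit 2376) (.e (nat_lit 786) (nat_lit 66) (.e (nat_lit 704738) (nat_lit 11) (.e (nat_lit 16425) (nat_lit 7) (.e (nat_lit 409643) (nat_lit 18) (.e (nat_lit 303143) (nat_lit 12) .nil))))) .nil)))) (.nd (nat_lit 4) (.nd (nat_lit 5) 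
(.lf (nat_lit 12681) (.g (nat_lit 2811) (.e (nat_lit 753) (nat_lit 66) (.e (nat_lit 704738) (nat_lit 11) (.e (nat_lit 16425) (nat_lit 7) (.e (nat_lit 409645) (nat_lit 18) (.e (nat_lit 303143) (nat_lit 12) .nil))))) .nil)) 
(.lf (nat_lit 12713) (.g (nat_lit 2418) (.e (nat_lit 758) (nat_lit 66) (.e (nat_lit 704738) (nat_lit 11) (.e (nat_lit 16425) (nat_lit 7) (.e (nat_lit 409646) (nat_lit 18) .nil)))) .nil))) (.nd (nat_lit 5) 
(.lf (nat_lit 12697) (.g (nat_lit 2301) (.e (nat_lit 755) (nat_lit 66) (.e (nat_lit 704738) (nat_lit 11) (.e (nat_lit 16425) (nat_lit 7) (.e (nat_lit 409646) (nat_lit 18) .nil)))) .nil)) 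
(.lf (nat_lit 12729) (.g (nat_lit 1941) (.e (nat_lit 788) (nat_lit 66) (.e (nat_lit 704737) (nat_lit 11) (.e (nat_lit 16425) (nat_lit 7) (.e (nat_lit 409643) (nat_lit 18) (.e (nat_lit 303143) (nat_lit 12) .nil))))) .nil))))) (.nd (nat_lit 3) (.nd (nat_lit 4) (.nd (nat_lit 5) 
(.lf (nat_lit 12677) (.g (nat_lit 2466) (.e (nat_lit 753) (nat_lit 66) (.e (nat_lit 704738) (nat_lit 11) (.e (nat_lit 16425) (nat_lit 7) (.e (nat_lit 409623) (nat_lit 10) .nil)))) .nil)) 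
(.lf (nat_lit 12709) (.g (nat_lit 2307) (.e (nat_lit 757) (nat_lit 66) (.e (nat_lit 704738) (nat_lit 11) (.e (nat_lit 16425) (nat_lit 7) (.e (nat_lit 409649) (nat_lit 18) (.e (nat_lit 303143) (nat_lit 12) .nil))))) .nil))) (.nd (nat_lit 5) 
(.lf (nat_lit 12693) (.g (nat_lit 2263) (.e (nat_lit 753) (nat_lit 66) (.e (nat_lit 704738) (nat_lit 11) (.e (nat_lit 16425) (nat_lit 7) (.e (nat_lit 409648) (nat_lit 18) (.e (nat_lit 303143) (nat_lit 12) (.e (nat_lit 475220) (nat_lit 44) (.e (nat_lit 737304) (nat_lit 11) .nil))))))) (.g (nat_lit 4) .nil .nil))) 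
(.lf (nat_lit 12725) (.g (nat_lit 2021) (.e (nat_lit 786) (nat_lit 66) (.e (nat_lit 704738) (nat_lit 11) (.e (nat_lit 16425) (nat_lit 7) (.e (nat_lit 409648) (nat_lit 18) .nil)))) .nil)))) (.nd (nat_lit 4) (.nd (nat_lit 5) 
(.lf (nat_lit 12685) (.g (nat_lit 2532) (.e (nat_lit 753) (nat_lit 66) (.e (nat_lit 704738) (nat_lit 11) (.e (nat_lit 16425) (nat_lit 7) (.e (nat_lit 409646) (nat_lit 18) (.e (nat_lit 303143) (nat_lit 12) (.e (nat_lit 475220) (nat_lit 44) (.e (nat_lit 737304) (nat_lit 11) .nil))))))) (.g (nat_lit 5) .nil .nil))) 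
(.lf (nat_lit 12717) (.g (nat_lit 2273) (.e (nat_lit 761) (nat_lit 66) (.e (nat_lit 704734) (nat_lit 11) (.e (nat_lit 16468) (nat_lit 13) (.e (nat_lit 483372) (nat_lit 21) (.e (nat_lit 319524) (nat_lit 14) (.e (nat_lit 270361) (nat_lit 10) .nil)))))) (.g (nat_lit 5) .nil .nil)))) (.nd (nat_lit 5) 
(.lf (nat_lit 12701) (.g (nat_lit 2372) (.e (nat_lit 756) (nat_lit 66) (.e (nat_lit 704738) (nat_lit 11) (.e (nat_lit 16425) (nat_lit 7) (.e (nat_lit 409649) (nat_lit 18) .nil)))) .nil)) 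
(.lf (nat_lit 12733) (.g (nat_lit 2757) (.e (nat_lit 788) (nat_lit 66) (.e (nat_lit 704738) (nat_lit 11) (.e (nat_lit 16425) (nat_lit 7) (.e (nat_lit 409648) (nat_lit 18) (.e (nat_lit 303143) (nat_lit 12) .nil))))) .nil)))))) (.nd (nat_lit 2) (.nd (nat_lit 3) (.nd (nat_lit 4) (.nd (nat_lit 5) 
(.lf (nat_lit 12675) (.g (nat_lit 3156) (.e (nat_lit 753) (nat_lit 66) (.e (nat_lit 704738) (nat_lit 11) (.e (nat_lit 16424) (nat_lit 7) (.e (nat_lit 409645) (nat_lit 18) (.e (nat_lit 303143) (nat_lit 12) (.e (nat_lit 475220) (nat_lit 44) (.e (nat_lit 737305) (nat_lit 11) .nil))))))) (.g (nat_lit 6) .nil .nil))) 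
(.lf (nat_lit 12707) (.g (nat_lit 1943) (.e (nat_lit 757) (nat_lit 66) (.e (nat_lit 704738) (nat_lit 11) (.e (nat_lit 16425) (nat_lit 7) (.e (nat_lit 409648) (nat_lit 18) .nil)))) .nil))) (.nd (nat_lit 5) 
(.lf (nat_lit 12691) (.g (nat_lit 2337) (.e (nat_lit 753) (nat_lit 66) (.e (nat_lit 704738) (nat_lit 11) (.e (nat_lit 16425) (nat_lit 7) (.e (nat_lit 409648) (nat_lit 18) (.e (nat_lit 303142) (nat_lit 12) .nil))))) .nil)) 
(.lf (nat_lit 12723) (.g (nat_lit 2361) (.e (nat_lit 786) (nat_lit 66) (.e (nat_lit 704738) (nat_lit 11) (.e (nat_lit 16425) (nat_lit 7) (.e (nat_lit 409646) (nat_lit 18) (.e (nat_lit 303143) (nat_lit 12) .nil))))) .nil)))) (.nd (nat_lit 4) (.nd (nat_lit 5) 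
(.lf (nat_lit 12683) (.g (nat_lit 1867) (.e (nat_lit 753) (nat_lit 66) (.e (nat_lit 704738) (nat_lit 11) (.e (nat_lit 16425) (nat_lit 7) (.e (nat_lit 409646) (nat_lit 18) (.e (nat_lit 303143) (nat_lit 12) (.e (nat_lit 475199) (nat_lit 40) (.e (nat_lit 704790) (nat_lit 14) (.e (nat_lit 2416) (nat_lit 157) .nil)))))))) (.g (nat_lit 4) .nil .nil))) 
(.lf (nat_lit 12715) (.g (nat_lit 2335) (.e (nat_lit 758) (nat_lit 66) (.e (nat_lit 704738) (nat_lit 11) (.e (nat_lit 16425) (nat_lit 7) (.e (nat_lit 409649) (nat_lit 18) .nil)))) .nil))) (.nd (nat_lit 5) 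
(.lf (nat_lit 12699) (.g (nat_lit 2426) (.e (nat_lit 756) (nat_lit 66) (.e (nat_lit 704738) (nat_lit 11) (.e (nat_lit 16425) (nat_lit 7) (.e (nat_lit 409643) (nat_lit 18) .nil)))) .nil)) 
(.lf (nat_lit 12731) (.g (nat_lit 2439) (.e (nat_lit 788) (nat_lit 66) (.e (nat_lit 704737) (nat_lit 11) (.e (nat_lit 16425) (nat_lit 7) (.e (nat_lit 409648) (nat_lit 18) (.e (nat_lit 303143) (nat_lit 12) .nil))))) .nil))))) (.nd (nat_lit 3) (.nd (nat_lit 4) (.nd (nat_lit 5) 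
(.lf (nat_lit 12679) (.g (nat_lit 1930) (.e (nat_lit 753) (nat_lit 66) (.e (nat_lit 704738) (nat_lit 11) (.e (nat_lit 16425) (nat_lit 7) (.e (nat_lit 409643) (nat_lit 18) (.e (nat_lit 303143) (nat_lit 12) (.e (nat_lit 475198) (nat_lit 40) (.e (nat_lit 704790) (nat_lit 14) (.e (nat_lit 2416) (nat_lit 157) .nil)))))))) (.g (nat_lit 4) .nil .nil))) 
(.lf (nat_lit 12711) (.g (nat_lit 2396) (.e (nat_lit 758) (nat_lit 66) (.e (nat_lit 704738) (nat_lit 11) (.e (nat_lit 16425) (nat_lit 7) (.e (nat_lit 409643) (nat_lit 18) .nil)))) .nil))) (.nd (nat_lit 5) 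
(.lf (nat_lit 12695) (.g (nat_lit 1867) (.e (nat_lit 753) (nat_lit 66) (.e (nat_lit 704738) (nat_lit 11) (.e (nat_lit 16425) (nat_lit 7) (.e (nat_lit 409649) (nat_lit 18) (.e (nat_lit 303143) (nat_lit 12) (.e (nat_lit 475199) (nat_lit 40) (.e (nat_lit 704790) (nat_lit 14) (.e (nat_lit 2416) (nat_lit 157) .nil)))))))) (.g (nat_lit 4) .nil .nil))) 
(.lf (nat_lit 12727) (.g (nat_lit 2425) (.e (nat_lit 786) (nat_lit 66) (.e (nat_lit 704738) (nat_lit 11) (.e (nat_lit 16425) (nat_lit 7) (.e (nat_lit 409649) (nat_lit 18) (.e (nat_lit 303143) (nat_lit 12) .nil))))) .nil)))) (.nd (nat_lit 4) (.nd (nat_lit 5) 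
(.lf (nat_lit 12687) (.g (nat_lit 3134) (.e (nat_lit 753) (nat_lit 66) (.e (nat_lit 704738) (nat_lit 11) (.e (nat_lit 16425) (nat_lit 7) (.e (nat_lit 409646) (nat_lit 18) (.e (nat_lit 303143) (nat_lit 12) (.e (nat_lit 475220) (nat_lit 44) (.e (nat_lit 737306) (nat_lit 11) .nil))))))) (.g (nat_lit 6) .nil .nil))) 
(.lf (nat_lit 12719) (.g (nat_lit 2472) (.e (nat_lit 780) (nat_lit 66) (.e (nat_lit 704738) (nat_lit 11) (.e (nat_lit 16425) (nat_lit 7) (.e (nat_lit 409646) (nat_lit 18) .nil)))) .nil))) (.nd (nat_lit 5) 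
(.lf (nat_lit 12703) (.g (nat_lit 2006) (.e (nat_lit 757) (nat_lit 66) (.e (nat_lit 704738) (nat_lit 11) (.e (nat_lit 16425) (nat_lit 7) (.e (nat_lit 409644) (nat_lit 18) .nil)))) .nil)) 
(.lf (nat_lit 12735) (.g (nat_lit 3438) (.e (nat_lit 790) (nat_lit 66) (.e (nat_lit 704738) (nat_lit 11) (.e (nat_lit 16425) (nat_lit 7) (.e (nat_lit 409643) (nat_lit 18) (.e (nat_lit 303143) (nat_lit 12) (.e (nat_lit 475220) (nat_lit 44) (.e (nat_lit 745216) (nat_lit 11) .nil))))))) (.g (nat_lit 5) .nil .nil)))))))))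

noncomputable def tv173 : DT := (.nd (nat_lit 0) (.nd (nat_lit 1) (.nd (nat_lit 2) (.nd (nat_lit 3) (.nd (nat_lit 4) (.nd (nat_lit 5) 
(.lf (nat_lit 12736) (.g (nat_lit 3697) (.e (nat_lit 790) (nat_lit 66) (.e (nat_lit 704738) (nat_lit 11) (.e (nat_lit 16425) (nat_lit 7) (.e (nat_lit 409646) (nat_lit 18) (.e (nat_lit 303143) (nat_lit 12) (.e (nat_lit 475220) (nat_lit 44) (.e (nat_lit 745216) (nat_lit 11) .nil))))))) (.g (nat_lit 5) .nil .nil))) 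
(.lf (nat_lit 12768) (.g (nat_lit 3236) (.e (nat_lit 794) (nat_lit 66) (.e (nat_lit 704738) (nat_lit 11) (.e (nat_lit 16425) (nat_lit 7) (.e (nat_lit 409646) (nat_lit 18) (.e (nat_lit 303143) (nat_lit 12) (.e (nat_lit 475220) (nat_lit 44) (.e (nat_lit 737305) (nat_lit 11) .nil))))))) (.g (nat_lit 0) .nil .nil)))) (.nd (nat_lit 5) 
(.lf (nat_lit 12752) (.g (nat_lit 1416) (.e (nat_lit 794) (nat_lit 66) (.e (nat_lit 704737) (nat_lit 11) (.e (nat_lit 16425) (nat_lit 7) (.e (nat_lit 409643) (nat_lit 18) .nil)))) .nil)) 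
(.lf (nat_lit 12784) (.g (nat_lit 2601) (.e (nat_lit 795) (nat_lit 66) (.e (nat_lit 704738) (nat_lit 11) (.e (nat_lit 16425) (nat_lit 7) (.e (nat_lit 409644) (nat_lit 18) .nil)))) .nil)))) (.nd (nat_lit 4) (.nd (nat_lit 5) 
(.lf (nat_lit 12744) (.g (nat_lit 3461) (.e (nat_lit 790) (nat_lit 66) (.e (nat_lit 704738) (nat_lit 11) (.e (nat_lit 16425) (nat_lit 7) (.e (nat_lit 409649) (nat_lit 18) (.e (nat_lit 303143) (nat_lit 12) (.e (nat_lit 475220) (nat_lit 44) (.e (nat_lit 745216) (nat_lit 11) .nil))))))) (.g (nat_lit 5) .nil .nil))) 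
(.lf (nat_lit 12776) (.g (nat_lit 3348) (.e (nat_lit 794) (nat_lit 66) (.e (nat_lit 704738) (nat_lit 11) (.e (nat_lit 16425) (nat_lit 7) (.e (nat_lit 409649) (nat_lit 18) (.e (nat_lit 303143) (nat_lit 12) (.e (nat_lit 475199) (nat_lit 40) (.e (nat_lit 704836) (nat_lit 14) (.e (nat_lit 2426) (nat_lit 157) .nil)))))))) (.g (nat_lit 0) .nil .nil)))) (.nd (nat_lit 5) 
(.lf (nat_lit 12760) (.g (nat_lit 2938) (.e (nat_lit 794) (nat_lit 66) (.e (nat_lit 704738) (nat_lit 11) (.e (nat_lit 16425) (nat_lit 7) (.e (nat_lit 409645) (nat_lit 18) (.e (nat_lit 303143) (nat_lit 12) .nil))))) .nil)) 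
(.lf (nat_lit 12792) (.g (nat_lit 2677) (.e (nat_lit 800) (nat_lit 67) (.e (nat_lit 712755) (nat_lit 30) (.e (nat_lit 450587) (nat_lit 10) (.e (nat_lit 573475) (nat_lit 12) .nil)))) .nil))))) (.nd (nat_lit 3) (.nd (nat_lit 4) (.nd (nat_lit 5) 
(.lf (nat_lit 12740) (.g (nat_lit 2178) (.e (nat_lit 790) (nat_lit 66) (.e (nat_lit 704738) (nat_lit 11) (.e (nat_lit 16425) (nat_lit 7) (.e (nat_lit 409649) (nat_lit 18) .nil)))) .nil)) 
(.lf (nat_lit 12772) (.g (nat_lit 2507) (.e (nat_lit 794) (nat_lit 66) (.e (nat_lit 704738) (nat_lit 11) (.e (nat_lit 16425) (nat_lit 7) (.e (nat_lit 409648) (nat_lit 18) (.e (nat_lit 303142) (nat_lit 12) (.e (nat_lit 475220) (nat_lit 44) (.e (nat_lit 737305) (nat_lit 11) .nil))))))) (.g (nat_lit 5) .nil .nil)))) (.nd (nat_lit 5) 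
(.lf (nat_lit 12756) (.g (nat_lit 2467) (.e (nat_lit 794) (nat_lit 66) (.e (nat_lit 704738) (nat_lit 11) (.e (nat_lit 16425) (nat_lit 7) (.e (nat_lit 409623) (nat_lit 10) .nil)))) .nil)) 
(.lf (nat_lit 12788) (.g (nat_lit 2471) (.e (nat_lit 799) (nat_lit 66) (.e (nat_lit 704738) (nat_lit 11) (.e (nat_lit 16425) (nat_lit 7) (.e (nat_lit 409646) (nat_lit 18) .nil)))) .nil)))) (.nd (nat_lit 4) (.nd (nat_lit 5) 
(.lf (nat_lit 12748) (.g (nat_lit 2371) (.e (nat_lit 791) (nat_lit 66) (.e (nat_lit 704738) (nat_lit 11) (.e (nat_lit 16425) (nat_lit 7) (.e (nat_lit 409647) (nat_lit 18) .nil)))) .nil)) 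
(.lf (nat_lit 12780) (.g (nat_lit 3021) (.e (nat_lit 794) (nat_lit 66) (.e (nat_lit 704738) (nat_lit 11) (.e (nat_lit 16425) (nat_lit 7) (.e (nat_lit 409649) (nat_lit 18) (.e (nat_lit 303143) (nat_lit 12) (.e (nat_lit 475220) (nat_lit 44) (.e (nat_lit 737303) (nat_lit 11) .nil))))))) (.g (nat_lit 6) .nil .nil)))) (.nd (nat_lit 5) 
(.lf (nat_lit 12764) (.g (nat_lit 3232) (.e (nat_lit 794) (nat_lit 66) (.e (nat_lit 704738) (nat_lit 11) (.e (nat_lit 16425) (nat_lit 7) (.e (nat_lit 409646) (nat_lit 18) (.e (nat_lit 303143) (nat_lit 12) (.e (nat_lit 475199) (nat_lit 40) (.e (nat_lit 704836) (nat_lit 14) (.e (nat_lit 2449) (nat_lit 157) .nil)))))))) (.g (nat_lit 0) .nil .nil))) 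
(.lf (nat_lit 12796) (.g (nat_lit 1387) (.e (nat_lit 804) (nat_lit 67) (.e (nat_lit 712755) (nat_lit 30) (.e (nat_lit 450563) (nat_lit 0) (.e (nat_lit 4093) (nat_lit 245) (.e (nat_lit 1197) (nat_lit 88) .nil))))) .nil)))))) (.nd (nat_lit 2) (.nd (nat_lit 3) (.nd (nat_lit 4) (.nd (nat_lit 5) 
(.lf (nat_lit 12738) (.g (nat_lit 3301) (.e (nat_lit 790) (nat_lit 66) (.e (nat_lit 704738) (nat_lit 11) (.e (nat_lit 16425) (nat_lit 7) (.e (nat_lit 409648) (nat_lit 18) (.e (nat_lit 303137) (nat_lit 10) .nil))))) .nil)) 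
(.lf (nat_lit 12770) (.g (nat_lit 2433) (.e (nat_lit 794) (nat_lit 66) (.e (nat_lit 704738) (nat_lit 11) (.e (nat_lit 16425) (nat_lit 7) (.e (nat_lit 409648) (nat_lit 18) (.e (nat_lit 303137) (nat_lit 10) .nil))))) .nil))) (.nd (nat_lit 5) 
(.lf (nat_lit 12754) (.g (nat_lit 2005) (.e (nat_lit 794) (nat_lit 66) (.e (nat_lit 704738) (nat_lit 11) (.e (nat_lit 16424) (nat_lit 7) (.e (nat_lit 409645) (nat_lit 18) (.e (nat_lit 303143) (nat_lit 12) (.e (nat_lit 475220) (nat_lit 44) (.e (nat_lit 737303) (nat_lit 11) .nil))))))) (.g (nat_lit 4) .nil .nil))) 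
(.lf (nat_lit 12786) (.g (nat_lit 2380) (.e (nat_lit 795) (nat_lit 66) (.e (nat_lit 704738) (nat_lit 11) (.e (nat_lit 16425) (nat_lit 7) (.e (nat_lit 409649) (nat_lit 18) .nil)))) .nil)))) (.nd (nat_lit 4) (.nd (nat_lit 5) 
(.lf (nat_lit 12746) (.g (nat_lit 2418) (.e (nat_lit 791) (nat_lit 66) (.e (nat_lit 704738) (nat_lit 11) (.e (nat_lit 16425) (nat_lit 7) (.e (nat_lit 409645) (nat_lit 18) .nil)))) .nil)) 
(.lf (nat_lit 12778) (.g (nat_lit 3348) (.e (nat_lit 794) (nat_lit 66) (.e (nat_lit 704738) (nat_lit 11) (.e (nat_lit 16425) (nat_lit 7) (.e (nat_lit 409649) (nat_lit 18) (.e (nat_lit 303143) (nat_lit 12) (.e (nat_lit 475199) (nat_lit 40) (.e (nat_lit 704836) (nat_lit 14) (.e (nat_lit 2448) (nat_lit 157) .nil)))))))) (.g (nat_lit 0) .nil .nil)))) (.nd (nat_lit 5) 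
(.lf (nat_lit 12762) (.g (nat_lit 3232) (.e (nat_lit 794) (nat_lit 66) (.e (nat_lit 704738) (nat_lit 11) (.e (nat_lit 16425) (nat_lit 7) (.e (nat_lit 409646) (nat_lit 18) (.e (nat_lit 303143) (nat_lit 12) (.e (nat_lit 475199) (nat_lit 40) (.e (nat_lit 704836) (nat_lit 14) (.e (nat_lit 2427) (nat_lit 157) .nil)))))))) (.g (nat_lit 0) .nil .nil))) 
(.lf (nat_lit 12794) (.g (nat_lit 1558) (.e (nat_lit 804) (nat_lit 67) (.e (nat_lit 712753) (nat_lit 30) (.e (nat_lit 450584) (nat_lit 9) (.e (nat_lit 565267) (nat_lit 4) (.e (nat_lit 65586) (nat_lit 7) (.e (nat_lit 319500) (nat_lit 10) .nil)))))) (.g (nat_lit 4) .nil .nil)))))) (.nd (nat_lit 3) (.nd (nat_lit 4) (.nd (nat_lit 5) 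
(.lf (nat_lit 12742) (.g (nat_lit 2908) (.e (nat_lit 790) (nat_lit 66) (.e (nat_lit 704738) (nat_lit 11) (.e (nat_lit 16425) (nat_lit 7) (.e (nat_lit 409649) (nat_lit 18) (.e (nat_lit 303140) (nat_lit 10) (.e (nat_lit 434275) (nat_lit 39) (.e (nat_lit 663590) (nat_lit 14) (.e (nat_lit 1041) (nat_lit 81) .nil)))))))) (.g (nat_lit 4) .nil .nil))) 
(.lf (nat_lit 12774) (.g (nat_lit 1428) (.e (nat_lit 794) (nat_lit 66) (.e (nat_lit 704738) (nat_lit 11) (.e (nat_lit 16425) (nat_lit 7) (.e (nat_lit 409649) (nat_lit 18) (.e (nat_lit 303140) (nat_lit 10) .nil))))) .nil))) (.nd (nat_lit 5) 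
(.lf (nat_lit 12758) (.g (nat_lit 1889) (.e (nat_lit 794) (nat_lit 66) (.e (nat_lit 704738) (nat_lit 11) (.e (nat_lit 16425) (nat_lit 7) (.e (nat_lit 409643) (nat_lit 18) (.e (nat_lit 303143) (nat_lit 12) (.e (nat_lit 475218) (nat_lit 44) (.e (nat_lit 737303) (nat_lit 11) .nil))))))) (.g (nat_lit 4) .nil .nil))) 
(.lf (nat_lit 12790) (.g (nat_lit 1640) (.e (nat_lit 800) (nat_lit 67) (.e (nat_lit 712753) (nat_lit 30) (.e (nat_lit 458496) (nat_lit 3) (.e (nat_lit 516195) (nat_lit 26) (.e (nat_lit 336059) (nat_lit 7) (.e (nat_lit 327424) (nat_lit 10) .nil)))))) (.g (nat_lit 5) .nil .nil))))) (.nd (nat_lit 4) (.nd (nat_lit 5) 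
(.lf (nat_lit 12750) (.g (nat_lit 3046) (.e (nat_lit 791) (nat_lit 66) (.e (nat_lit 704738) (nat_lit 11) (.e (nat_lit 16425) (nat_lit 7) (.e (nat_lit 409649) (nat_lit 18) (.e (nat_lit 303143) (nat_lit 12) (.e (nat_lit 475220) (nat_lit 44) (.e (nat_lit 737303) (nat_lit 11) .nil))))))) (.g (nat_lit 5) .nil .nil))) 
(.lf (nat_lit 12782) (.g (nat_lit 3361) (.e (nat_lit 794) (nat_lit 66) (.e (nat_lit 704738) (nat_lit 11) (.e (nat_lit 16425) (nat_lit 7) (.e (nat_lit 409649) (nat_lit 18) (.e (nat_lit 303143) (nat_lit 12) (.e (nat_lit 475220) (nat_lit 44) (.e (nat_lit 737305) (nat_lit 11) .nil))))))) (.g (nat_lit 0) .nil .nil)))) (.nd (nat_lit 5) 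
(.lf (nat_lit 12766) (.g (nat_lit 2811) (.e (nat_lit 794) (nat_lit 66) (.e (nat_lit 704738) (nat_lit 11) (.e (nat_lit 16425) (nat_lit 7) (.e (nat_lit 409646) (nat_lit 18) (.e (nat_lit 303143) (nat_lit 12) (.e (nat_lit 475220) (nat_lit 44) (.e (nat_lit 737303) (nat_lit 11) .nil))))))) (.g (nat_lit 6) .nil .nil))) 
(.lf (nat_lit 12798) (.g (nat_lit 505) (.e (nat_lit 804) (nat_lit 67) (.e (nat_lit 712755) (nat_lit 30) (.e (nat_lit 458496) (nat_lit 1) .nil))) .nil))))))) (.nd (nat_lit 1) (.nd (nat_lit 2) (.nd (nat_lit 3) (.nd (nat_lit 4) (.nd (nat_lit 5) 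
(.lf (nat_lit 12737) (.g (nat_lit 2589) (.e (nat_lit 790) (nat_lit 66) (.e (nat_lit 704738) (nat_lit 11) (.e (nat_lit 16425) (nat_lit 7) (.e (nat_lit 409647) (nat_lit 18) .nil)))) .nil)) 
(.lf (nat_lit 12769) (.g (nat_lit 2755) (.e (nat_lit 794) (nat_lit 66) (.e (nat_lit 704738) (nat_lit 11) (.e (nat_lit 16425) (nat_lit 7) (.e (nat_lit 409647) (nat_lit 18) (.e (nat_lit 303143) (nat_lit 12) .nil))))) .nil))) (.nd (nat_lit 5) 
(.lf (nat_lit 12753) (.g (nat_lit 2239) (.e (nat_lit 794) (nat_lit 66) (.e (nat_lit 704737) (nat_lit 11) (.e (nat_lit 16425) (nat_lit 7) (.e (nat_lit 409649) (nat_lit 18) (.e (nat_lit 303143) (nat_lit 12) .nil))))) .nil)) 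
(.lf (nat_lit 12785) (.g (nat_lit 2472) (.e (nat_lit 795) (nat_lit 66) (.e (nat_lit 704738) (nat_lit 11) (.e (nat_lit 16425) (nat_lit 7) (.e (nat_lit 409646) (nat_lit 18) .nil)))) .nil)))) (.nd (nat_lit 4) (.nd (nat_lit 5) 
(.lf (nat_lit 12745) (.g (nat_lit 2760) (.e (nat_lit 791) (nat_lit 66) (.e (nat_lit 704738) (nat_lit 11) (.e (nat_lit 16425) (nat_lit 7) (.e (nat_lit 409644) (nat_lit 18) (.e (nat_lit 303143) (nat_lit 12) (.e (nat_lit 475220) (nat_lit 44) (.e (nat_lit 737303) (nat_lit 11) .nil))))))) (.g (nat_lit 4) .nil .nil))) 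
(.lf (nat_lit 12777) (.g (nat_lit 3232) (.e (nat_lit 794) (nat_lit 66) (.e (nat_lit 704738) (nat_lit 11) (.e (nat_lit 16425) (nat_lit 7) (.e (nat_lit 409649) (nat_lit 18) (.e (nat_lit 303143) (nat_lit 12) (.e (nat_lit 475199) (nat_lit 40) (.e (nat_lit 704836) (nat_lit 14) (.e (nat_lit 2427) (nat_lit 157) .nil)))))))) (.g (nat_lit 0) .nil .nil)))) (.nd (nat_lit 5) 
(.lf (nat_lit 12761) (.g (nat_lit 3348) (.e (nat_lit 794) (nat_lit 66) (.e (nat_lit 704738) (nat_lit 11) (.e (nat_lit 16425) (nat_lit 7) (.e (nat_lit 409646) (nat_lit 18) (.e (nat_lit 303143) (nat_lit 12) (.e (nat_lit 475199) (nat_lit 40) (.e (nat_lit 704836) (nat_lit 14) (.e (nat_lit 2426) (nat_lit 157) .nil)))))))) (.g (nat_lit 0) .nil .nil))) 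
(.lf (nat_lit 12793) (.g (nat_lit 1219) (.e (nat_lit 804) (nat_lit 67) (.e (nat_lit 712753) (nat_lit 30) (.e (nat_lit 458496) (nat_lit 3) (.e (nat_lit 516195) (nat_lit 26) (.e (nat_lit 336059) (nat_lit 7) (.e (nat_lit 327424) (nat_lit 10) .nil)))))) (.g (nat_lit 4) .nil .nil)))))) (.nd (nat_lit 3) (.nd (nat_lit 4) (.nd (nat_lit 5) 
(.lf (nat_lit 12741) (.g (nat_lit 2657) (.e (nat_lit 790) (nat_lit 66) (.e (nat_lit 704738) (nat_lit 11) (.e (nat_lit 16425) (nat_lit 7) (.e (nat_lit 409649) (nat_lit 18) (.e (nat_lit 303140) (nat_lit 10) .nil))))) .nil)) 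
(.lf (nat_lit 12773) (.g (nat_lit 2813) (.e (nat_lit 794) (nat_lit 66) (.e (nat_lit 704738) (nat_lit 11) (.e (nat_lit 16425) (nat_lit 7) (.e (nat_lit 409648) (nat_lit 18) (.e (nat_lit 303143) (nat_lit 12) (.e (nat_lit 475220) (nat_lit 44) (.e (nat_lit 737303) (nat_lit 11) .nil))))))) (.g (nat_lit 5) .nil .nil)))) (.nd (nat_lit 5) 
(.lf (nat_lit 12757) (.g (nat_lit 1198) (.e (nat_lit 794) (nat_lit 66) (.e (nat_lit 704738) (nat_lit 11) (.e (nat_lit 16425) (nat_lit 7) (.e (nat_lit 409643) (nat_lit 18) .nil)))) .nil)) 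
(.lf (nat_lit 12789) (.g (nat_lit 2379) (.e (nat_lit 799) (nat_lit 66) (.e (nat_lit 704738) (nat_lit 11) (.e (nat_lit 16425) (nat_lit 7) (.e (nat_lit 409649) (nat_lit 18) .nil)))) .nil)))) (.nd (nat_lit 4) (.nd (nat_lit 5) 
(.lf (nat_lit 12749) (.g (nat_lit 2942) (.e (nat_lit 791) (nat_lit 66) (.e (nat_lit 704738) (nat_lit 11) (.e (nat_lit 16425) (nat_lit 7) (.e (nat_lit 409648) (nat_lit 18) (.e (nat_lit 303143) (nat_lit 12) (.e (nat_lit 475220) (nat_lit 44) (.e (nat_lit 737303) (nat_lit 11) .nil))))))) (.g (nat_lit 4) .nil .nil))) 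
(.lf (nat_lit 12781) (.g (nat_lit 3082) (.e (nat_lit 794) (nat_lit 66) (.e (nat_lit 704738) (nat_lit 11) (.e (nat_lit 16425) (nat_lit 7) (.e (nat_lit 409649) (nat_lit 18) (.e (nat_lit 303143) (nat_lit 12) (.e (nat_lit 475220) (nat_lit 44) (.e (nat_lit 737304) (nat_lit 11) .nil))))))) (.g (nat_lit 6) .nil .nil)))) (.nd (nat_lit 5) 
(.lf (nat_lit 12765) (.g (nat_lit 1862) (.e (nat_lit 794) (nat_lit 66) (.e (nat_lit 704738) (nat_lit 11) (.e (nat_lit 16425) (nat_lit 7) (.e (nat_lit 409646) (nat_lit 18) (.e (nat_lit 303143) (nat_lit 12) (.e (nat_lit 475218) (nat_lit 44) (.e (nat_lit 737303) (nat_lit 11) .nil))))))) (.g (nat_lit 4) .nil .nil))) 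
(.lf (nat_lit 12797) (.g (nat_lit 1961) (.e (nat_lit 804) (nat_lit 67) (.e (nat_lit 712755) (nat_lit 30) (.e (nat_lit 450563) (nat_lit 0) (.e (nat_lit 4106) (nat_lit 245) (.e (nat_lit 1196) (nat_lit 88) (.e (nat_lit 65583) (nat_lit 7) (.e (nat_lit 319499) (nat_lit 10) .nil))))))) (.g (nat_lit 4) .nil .nil))))))) (.nd (nat_lit 2) (.nd (nat_lit 3) (.nd (nat_lit 4) (.nd (nat_lit 5) 
(.lf (nat_lit 12739) (.g (nat_lit 3291) (.e (nat_lit 790) (nat_lit 66) (.e (nat_lit 704738) (nat_lit 11) (.e (nat_lit 16425) (nat_lit 7) (.e (nat_lit 409648) (nat_lit 18) (.e (nat_lit 303143) (nat_lit 12) (.e (nat_lit 475220) (nat_lit 44) (.e (nat_lit 745216) (nat_lit 11) .nil))))))) (.g (nat_lit 4) .nil .nil))) 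
(.lf (nat_lit 12771) (.g (nat_lit 2242) (.e (nat_lit 794) (nat_lit 66) (.e (nat_lit 704738) (nat_lit 11) (.e (nat_lit 16425) (nat_lit 7) (.e (nat_lit 409648) (nat_lit 18) (.e (nat_lit 303142) (nat_lit 12) .nil))))) .nil))) (.nd (nat_lit 5) 
(.lf (nat_lit 12755) (.g (nat_lit 2810) (.e (nat_lit 794) (nat_lit 66) (.e (nat_lit 704738) (nat_lit 11) (.e (nat_lit 16424) (nat_lit 7) (.e (nat_lit 409645) (nat_lit 18) (.e (nat_lit 303143) (nat_lit 12) (.e (nat_lit 475220) (nat_lit 44) (.e (nat_lit 737304) (nat_lit 11) .nil))))))) (.g (nat_lit 5) .nil .nil))) 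
(.lf (nat_lit 12787) (.g (nat_lit 2433) (.e (nat_lit 799) (nat_lit 66) (.e (nat_lit 704738) (nat_lit 11) (.e (nat_lit 16425) (nat_lit 7) (.e (nat_lit 409643) (nat_lit 18) .nil)))) .nil)))) (.nd (nat_lit 4) (.nd (nat_lit 5) 
(.lf (nat_lit 12747) (.g (nat_lit 3108) (.e (nat_lit 791) (nat_lit 66) (.e (nat_lit 704738) (nat_lit 11) (.e (nat_lit 16425) (nat_lit 7) (.e (nat_lit 409646) (nat_lit 18) (.e (nat_lit 303143) (nat_lit 12) (.e (nat_lit 475220) (nat_lit 44) (.e (nat_lit 737303) (nat_lit 11) .nil))))))) (.g (nat_lit 5) .nil .nil))) 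
(.lf (nat_lit 12779) (.g (nat_lit 3232) (.e (nat_lit 794) (nat_lit 66) (.e (nat_lit 704738) (nat_lit 11) (.e (nat_lit 16425) (nat_lit 7) (.e (nat_lit 409649) (nat_lit 18) (.e (nat_lit 303143) (nat_lit 12) (.e (nat_lit 475199) (nat_lit 40) (.e (nat_lit 704836) (nat_lit 14) (.e (nat_lit 2449) (nat_lit 157) .nil)))))))) (.g (nat_lit 0) .nil .nil)))) (.nd (nat_lit 5) 
(.lf (nat_lit 12763) (.g (nat_lit 3348) (.e (nat_lit 794) (nat_lit 66) (.e (nat_lit 704738) (nat_lit 11) (.e (nat_lit 16425) (nat_lit 7) (.e (nat_lit 409646) (nat_lit 18) (.e (nat_lit 303143) (nat_lit 12) (.e (nat_lit 475199) (nat_lit 40) (.e (nat_lit 704836) (nat_lit 14) (.e (nat_lit 2448) (nat_lit 157) .nil)))))))) (.g (nat_lit 0) .nil .nil))) 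
(.lf (nat_lit 12795) (.g (nat_lit 1399) (.e (nat_lit 804) (nat_lit 67) (.e (nat_lit 712755) (nat_lit 30) (.e (nat_lit 450562) (nat_lit 0) (.e (nat_lit 4106) (nat_lit 245) .nil)))) .nil))))) (.nd (nat_lit 3) (.nd (nat_lit 4) (.nd (nat_lit 5) 
(.lf (nat_lit 12743) (.g (nat_lit 3628) (.e (nat_lit 790) (nat_lit 66) (.e (nat_lit 704738) (nat_lit 11) (.e (nat_lit 16425) (nat_lit 7) (.e (nat_lit 409649) (nat_lit 18) (.e (nat_lit 303140) (nat_lit 10) (.e (nat_lit 434275) (nat_lit 39) (.e (nat_lit 671488) (nat_lit 14) (.e (nat_lit 1021) (nat_lit 81) .nil)))))))) (.g (nat_lit 5) .nil .nil))) 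
(.lf (nat_lit 12775) (.g (nat_lit 1663) (.e (nat_lit 794) (nat_lit 66) (.e (nat_lit 704738) (nat_lit 11) (.e (nat_lit 16425) (nat_lit 7) (.e (nat_lit 409649) (nat_lit 18) (.e (nat_lit 303143) (nat_lit 12) .nil))))) .nil))) (.nd (nat_lit 5) 
(.lf (nat_lit 12759) (.g (nat_lit 2924) (.e (nat_lit 794) (nat_lit 66) (.e (nat_lit 704738) (nat_lit 11) (.e (nat_lit 16425) (nat_lit 7) (.e (nat_lit 409644) (nat_lit 18) (.e (nat_lit 303143) (nat_lit 12) (.e (nat_lit 475220) (nat_lit 44) (.e (nat_lit 737303) (nat_lit 11) .nil))))))) (.g (nat_lit 5) .nil .nil))) 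
(.lf (nat_lit 12791) (.g (nat_lit 1719) (.e (nat_lit 800) (nat_lit 67) (.e (nat_lit 712755) (nat_lit 30) (.e (nat_lit 458496) (nat_lit 3) (.e (nat_lit 516195) (nat_lit 26) (.e (nat_lit 336059) (nat_lit 7) (.e (nat_lit 327424) (nat_lit 10) .nil)))))) (.g (nat_lit 5) .nil .nil))))) (.nd (nat_lit 4) (.nd (nat_lit 5) 
(.lf (nat_lit 12751) (.g (nat_lit 1513) (.e (nat_lit 794) (nat_lit 66) (.e (nat_lit 704737) (nat_lit 11) (.e (nat_lit 16392) (nat_lit 0) (.e (nat_lit 6989) (nat_lit 377) .nil)))) .nil)) 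
(.lf (nat_lit 12783) (.g (nat_lit 2434) (.e (nat_lit 795) (nat_lit 66) (.e (nat_lit 704738) (nat_lit 11) (.e (nat_lit 16425) (nat_lit 7) (.e (nat_lit 409643) (nat_lit 18) .nil)))) .nil))) (.nd (nat_lit 5) 
(.lf (nat_lit 12767) (.g (nat_lit 2943) (.e (nat_lit 794) (nat_lit 66) (.e (nat_lit 704738) (nat_lit 11) (.e (nat_lit 16425) (nat_lit 7) (.e (nat_lit 409646) (nat_lit 18) (.e (nat_lit 303143) (nat_lit 12) (.e (nat_lit 475220) (nat_lit 44) (.e (nat_lit 737304) (nat_lit 11) .nil))))))) (.g (nat_lit 6) .nil .nil))) 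
(.lf (nat_lit 12799) (.g (nat_lit 946) (.e (nat_lit 804) (nat_lit 67) (.e (nat_lit 712755) (nat_lit 30) (.e (nat_lit 458496) (nat_lit 3) (.e (nat_lit 516195) (nat_lit 26) (.e (nat_lit 336059) (nat_lit 7) .nil))))) .nil))))))))

noncomputable def tv174 : DT := (.nd (nat_lit 0) (.nd (nat_lit 1) (.nd (nat_lit 2) (.nd (nat_lit 3) (.nd (nat_lit 4) (.nd (nat_lit 5) 
(.lf (nat_lit 12800) (.g (nat_lit 1723) (.e (nat_lit 804) (nat_lit 67) (.e (nat_lit 712755) (nat_lit 30) (.e (nat_lit 458496) (nat_lit 3) (.e (nat_lit 516195) (nat_lit 26) (.e (nat_lit 336059) (nat_lit 7) (.e (nat_lit 327424) (nat_lit 10) .nil)))))) (.g (nat_lit 5) .nil .nil))) 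
(.lf (nat_lit 12832) (.g (nat_lit 3171) (.e (nat_lit 806) (nat_lit 67) (.e (nat_lit 712755) (nat_lit 30) (.e (nat_lit 450588) (nat_lit 10) (.e (nat_lit 573503) (nat_lit 18) (.e (nat_lit 1359) (nat_lit 102) (.e (nat_lit 286739) (nat_lit 7) (.e (nat_lit 319500) (nat_lit 10) .nil))))))) (.g (nat_lit 5) .nil .nil)))) (.nd (nat_lit 5) 
(.lf (nat_lit 12816) (.g (nat_lit 2769) (.e (nat_lit 805) (nat_lit 67) (.e (nat_lit 712755) (nat_lit 30) (.e (nat_lit 450587) (nat_lit 10) (.e (nat_lit 573475) (nat_lit 12) .nil)))) .nil)) 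
(.lf (nat_lit 12848) (.g (nat_lit 1297) (.e (nat_lit 848) (nat_lit 73) (.e (nat_lit 769792) (nat_lit 10) (.e (nat_lit 81965) (nat_lit 26) (.e (nat_lit 147492) (nat_lit 11) (.e (nat_lit 24622) (nat_lit 8) (.e (nat_lit 327680) (nat_lit 0) .nil)))))) (.g (nat_lit 4) .nil .nil))))) (.nd (nat_lit 4) (.nd (nat_lit 5) 
(.lf (nat_lit 12808) (.g (nat_lit 2056) (.e (nat_lit 804) (nat_lit 67) (.e (nat_lit 712755) (nat_lit 30) (.e (nat_lit 450588) (nat_lit 10) (.e (nat_lit 573503) (nat_lit 18) (.e (nat_lit 1348) (nat_lit 102) (.e (nat_lit 286739) (nat_lit 7) (.e (nat_lit 319505) (nat_lit 10) .nil))))))) (.g (nat_lit 4) .nil .nil))) 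
(.lf (nat_lit 12840) (.g (nat_lit 2441) (.e (nat_lit 815) (nat_lit 68) (.e (nat_lit 720929) (nat_lit 21) (.e (nat_lit 57847) (nat_lit 252) (.e (nat_lit 57407) (nat_lit 12) .nil)))) .nil))) (.nd (nat_lit 5) 
(.lf (nat_lit 12824) (.g (nat_lit 2313) (.e (nat_lit 806) (nat_lit 67) (.e (nat_lit 712755) (nat_lit 30) (.e (nat_lit 450588) (nat_lit 10) (.e (nat_lit 573503) (nat_lit 18) (.e (nat_lit 1347) (nat_lit 102) (.e (nat_lit 286739) (nat_lit 7) (.e (nat_lit 319500) (nat_lit 10) .nil))))))) (.g (nat_lit 4) .nil .nil))) 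
(.lf (nat_lit 12856) (.g (nat_lit 3071) (.e (nat_lit 850) (nat_lit 74) (.e (nat_lit 770071) (nat_lit 8) (.e (nat_lit 65586) (nat_lit 7) (.e (nat_lit 319531) (nat_lit 16) (.e (nat_lit 286748) (nat_lit 9) (.e (nat_lit 336295) (nat_lit 15) (.e (nat_lit 3806) (nat_lit 231) (.e (nat_lit 811031) (nat_lit 11) .nil)))))))) (.g (nat_lit 6) .nil .nil)))))) (.nd (nat_lit 3) (.nd (nat_lit 4) (.nd (nat_lit 5) 
(.lf (nat_lit 12804) (.g (nat_lit 2252) (.e (nat_lit 804) (nat_lit 67) (.e (nat_lit 712755) (nat_lit 30) (.e (nat_lit 450588) (nat_lit 10) (.e (nat_lit 573503) (nat_lit 18) (.e (nat_lit 1347) (nat_lit 102) .nil))))) .nil)) 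
(.lf (nat_lit 12836) (.g (nat_lit 1828) (.e (nat_lit 807) (nat_lit 67) (.e (nat_lit 712755) (nat_lit 30) (.e (nat_lit 458496) (nat_lit 3) (.e (nat_lit 516195) (nat_lit 26) (.e (nat_lit 336059) (nat_lit 7) (.e (nat_lit 327424) (nat_lit 10) .nil)))))) (.g (nat_lit 5) .nil .nil)))) (.nd (nat_lit 5) 
(.lf (nat_lit 12820) (.g (nat_lit 1583) (.e (nat_lit 806) (nat_lit 67) (.e (nat_lit 712755) (nat_lit 30) (.e (nat_lit 450562) (nat_lit 0) (.e (nat_lit 4106) (nat_lit 245) .nil)))) .nil)) 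
(.lf (nat_lit 12852) (.g (nat_lit 4020) (.e (nat_lit 848) (nat_lit 73) (.e (nat_lit 761905) (nat_lit 16) (.e (nat_lit 172112) (nat_lit 10) (.e (nat_lit 434291) (nat_lit 44) (.e (nat_lit 704738) (nat_lit 11) (.e (nat_lit 16425) (nat_lit 7) (.e (nat_lit 409617) (nat_lit 10) .nil))))))) (.g (nat_lit 0) .nil .nil))))) (.nd (nat_lit 4) (.nd (nat_lit 5) 
(.lf (nat_lit 12812) (.g (nat_lit 3113) (.e (nat_lit 804) (nat_lit 67) (.e (nat_lit 712755) (nat_lit 30) (.e (nat_lit 450588) (nat_lit 10) (.e (nat_lit 573503) (nat_lit 18) (.e (nat_lit 1349) (nat_lit 102) (.e (nat_lit 286740) (nat_lit 7) (.e (nat_lit 319505) (nat_lit 10) .nil))))))) (.g (nat_lit 5) .nil .nil))) 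
(.lf (nat_lit 12844) (.g (nat_lit 3158) (.e (nat_lit 818) (nat_lit 68) (.e (nat_lit 720929) (nat_lit 21) (.e (nat_lit 57847) (nat_lit 252) (.e (nat_lit 57407) (nat_lit 12) (.e (nat_lit 336316) (nat_lit 17) (.e (nat_lit 196666) (nat_lit 13) (.e (nat_lit 65586) (nat_lit 7) (.e (nat_lit 319500) (nat_lit 10) .nil)))))))) (.g (nat_lit 4) .nil .nil)))) (.nd (nat_lit 5) 
(.lf (nat_lit 12828) (.g (nat_lit 2237) (.e (nat_lit 806) (nat_lit 67) (.e (nat_lit 712755) (nat_lit 30) (.e (nat_lit 450588) (nat_lit 10) (.e (nat_lit 573503) (nat_lit 18) (.e (nat_lit 1349) (nat_lit 102) (.e (nat_lit 286739) (nat_lit 7) (.e (nat_lit 319504) (nat_lit 10) .nil))))))) (.g (nat_lit 4) .nil .nil))) 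
(.lf (nat_lit 12860) (.g (nat_lit 3242) (.e (nat_lit 852) (nat_lit 74) (.e (nat_lit 770071) (nat_lit 8) (.e (nat_lit 65586) (nat_lit 7) (.e (nat_lit 319531) (nat_lit 16) (.e (nat_lit 286748) (nat_lit 9) (.e (nat_lit 336295) (nat_lit 15) (.e (nat_lit 3806) (nat_lit 231) (.e (nat_lit 811032) (nat_lit 11) .nil)))))))) (.g (nat_lit 7) .nil .nil))))))) 
(.nd (nat_lit 2) (.nd (nat_lit 3) (.nd (nat_lit 4) (.nd (nat_lit 5) 
(.lf (nat_lit 12802) (.g (nat_lit 2479) (.e (nat_lit 804) (nat_lit 67) (.e (nat_lit 712755) (nat_lit 30) (.e (nat_lit 450587) (nat_lit 10) (.e (nat_lit 573475) (nat_lit 12) .nil)))) .nil)) 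
(.lf (nat_lit 12834) (.g (nat_lit 645) (.e (nat_lit 807) (nat_lit 67) (.e (nat_lit 712752) (nat_lit 29) (.e (nat_lit 442424) (nat_lit 22) .nil))) .nil))) (.nd (nat_lit 5) 
(.lf (nat_lit 12818) (.g (nat_lit 465) (.e (nat_lit 806) (nat_lit 67) (.e (nat_lit 712752) (nat_lit 29) (.e (nat_lit 442412) (nat_lit 20) .nil))) .nil)) 
(.lf (nat_lit 12850) (.g (nat_lit 4073) (.e (nat_lit 848) (nat_lit 73) (.e (nat_lit 761905) (nat_lit 16) (.e (nat_lit 172107) (nat_lit 10) (.e (nat_lit 434291) (nat_lit 44) (.e (nat_lit 704738) (nat_lit 11) (.e (nat_lit 16425) (nat_lit 7) (.e (nat_lit 409617) (nat_lit 10) .nil))))))) (.g (nat_lit 0) .nil .nil))))) (.nd (nat_lit 4) (.nd (nat_lit 5) 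
(.lf (nat_lit 12810) (.g (nat_lit 2947) (.e (nat_lit 804) (nat_lit 67) (.e (nat_lit 712755) (nat_lit 30) (.e (nat_lit 450588) (nat_lit 10) (.e (nat_lit 573503) (nat_lit 18) (.e (nat_lit 1349) (nat_lit 102) (.e (nat_lit 286739) (nat_lit 7) (.e (nat_lit 319505) (nat_lit 10) .nil))))))) (.g (nat_lit 5) .nil .nil))) 
(.lf (nat_lit 12842) (.g (nat_lit 2200) (.e (nat_lit 815) (nat_lit 68) (.e (nat_lit 720940) (nat_lit 22) (.e (nat_lit 90170) (nat_lit 13) (.e (nat_lit 172067) (nat_lit 3) (.e (nat_lit 204809) (nat_lit 9) .nil))))) .nil))) (.nd (nat_lit 5) 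
(.lf (nat_lit 12826) (.g (nat_lit 2403) (.e (nat_lit 806) (nat_lit 67) (.e (nat_lit 712755) (nat_lit 30) (.e (nat_lit 450588) (nat_lit 10) (.e (nat_lit 573503) (nat_lit 18) (.e (nat_lit 1348) (nat_lit 102) (.e (nat_lit 286740) (nat_lit 7) (.e (nat_lit 319500) (nat_lit 10) .nil))))))) (.g (nat_lit 4) .nil .nil))) 
(.lf (nat_lit 12858) (.g (nat_lit 1718) (.e (nat_lit 851) (nat_lit 74) (.e (nat_lit 770074) (nat_lit 10) (.e (nat_lit 81965) (nat_lit 26) (.e (nat_lit 147496) (nat_lit 11) (.e (nat_lit 24617) (nat_lit 7) .nil))))) .nil))))) (.nd (nat_lit 3) (.nd (nat_lit 4) (.nd (nat_lit 5) 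
(.lf (nat_lit 12806) (.g (nat_lit 3331) (.e (nat_lit 804) (nat_lit 67) (.e (nat_lit 712755) (nat_lit 30) (.e (nat_lit 450588) (nat_lit 10) (.e (nat_lit 573503) (nat_lit 18) (.e (nat_lit 1348) (nat_lit 102) (.e (nat_lit 286739) (nat_lit 7) (.e (nat_lit 319500) (nat_lit 10) .nil))))))) (.g (nat_lit 5) .nil .nil))) 
(.lf (nat_lit 12838) (.g (nat_lit 644) (.e (nat_lit 7936) (nat_lit 67) (.e (nat_lit 712750) (nat_lit 29) (.e (nat_lit 442381) (nat_lit 7) .nil))) .nil))) (.nd (nat_lit 5) 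
(.lf (nat_lit 12822) (.g (nat_lit 2749) (.e (nat_lit 806) (nat_lit 67) (.e (nat_lit 712755) (nat_lit 30) (.e (nat_lit 450584) (nat_lit 9) (.e (nat_lit 565267) (nat_lit 4) (.e (nat_lit 65583) (nat_lit 7) (.e (nat_lit 319499) (nat_lit 10) .nil)))))) (.g (nat_lit 0) .nil .nil))) 
(.lf (nat_lit 12854) (.g (nat_lit 4053) (.e (nat_lit 848) (nat_lit 73) (.e (nat_lit 761905) (nat_lit 16) (.e (nat_lit 172116) (nat_lit 10) (.e (nat_lit 434291) (nat_lit 44) (.e (nat_lit 704738) (nat_lit 11) (.e (nat_lit 16425) (nat_lit 7) (.e (nat_lit 409617) (nat_lit 10) .nil))))))) (.g (nat_lit 0) .nil .nil))))) (.nd (nat_lit 4) (.nd (nat_lit 5) 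
(.lf (nat_lit 12814) (.g (nat_lit 2108) (.e (nat_lit 804) (nat_lit 67) (.e (nat_lit 712755) (nat_lit 30) (.e (nat_lit 450588) (nat_lit 10) (.e (nat_lit 573503) (nat_lit 18) (.e (nat_lit 1359) (nat_lit 102) .nil))))) .nil)) 
(.lf (nat_lit 12846) (.g (nat_lit 1138) (.e (nat_lit 848) (nat_lit 73) (.e (nat_lit 769792) (nat_lit 10) (.e (nat_lit 81963) (nat_lit 26) (.e (nat_lit 147492) (nat_lit 11) (.e (nat_lit 24621) (nat_lit 8) (.e (nat_lit 327680) (nat_lit 0) .nil)))))) (.g (nat_lit 5) .nil .nil)))) (.nd (nat_lit 5) 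
(.lf (nat_lit 12830) (.g (nat_lit 3341) (.e (nat_lit 806) (nat_lit 67) (.e (nat_lit 712755) (nat_lit 30) (.e (nat_lit 450588) (nat_lit 10) (.e (nat_lit 573503) (nat_lit 18) (.e (nat_lit 1349) (nat_lit 102) (.e (nat_lit 286740) (nat_lit 7) (.e (nat_lit 319499) (nat_lit 10) .nil))))))) (.g (nat_lit 5) .nil .nil))) 
(.lf (nat_lit 12862) (.g (nat_lit 1729) (.e (nat_lit 853) (nat_lit 74) (.e (nat_lit 770074) (nat_lit 10) (.e (nat_lit 81965) (nat_lit 26) (.e (nat_lit 147496) (nat_lit 11) (.e (nat_lit 24617) (nat_lit 7) .nil))))) .nil))))))) (.nd (nat_lit 1) (.nd (nat_lit 2) (.nd (nat_lit 3) (.nd (nat_lit 4) (.nd (nat_lit 5) 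
(.lf (nat_lit 12801) (.g (nat_lit 1616) (.e (nat_lit 804) (nat_lit 67) (.e (nat_lit 712755) (nat_lit 30) (.e (nat_lit 450584) (nat_lit 9) (.e (nat_lit 565267) (nat_lit 4) (.e (nat_lit 65586) (nat_lit 7) (.e (nat_lit 319500) (nat_lit 10) .nil)))))) (.g (nat_lit 4) .nil .nil))) 
(.lf (nat_lit 12833) (.g (nat_lit 2670) (.e (nat_lit 806) (nat_lit 67) (.e (nat_lit 712755) (nat_lit 30) (.e (nat_lit 450588) (nat_lit 10) (.e (nat_lit 573503) (nat_lit 18) (.e (nat_lit 1359) (nat_lit 102) (.e (nat_lit 286740) (nat_lit 7) (.e (nat_lit 319500) (nat_lit 10) .nil))))))) (.g (nat_lit 4) .nil .nil)))) (.nd (nat_lit 5) 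
(.lf (nat_lit 12817) (.g (nat_lit 2304) (.e (nat_lit 806) (nat_lit 67) (.e (nat_lit 712752) (nat_lit 29) (.e (nat_lit 442381) (nat_lit 7) (.e (nat_lit 139280) (nat_lit 4) (.e (nat_lit 65583) (nat_lit 7) (.e (nat_lit 319499) (nat_lit 10) .nil)))))) (.g (nat_lit 0) .nil .nil))) 
(.lf (nat_lit 12849) (.g (nat_lit 1093) (.e (nat_lit 848) (nat_lit 73) (.e (nat_lit 769792) (nat_lit 10) (.e (nat_lit 81965) (nat_lit 26) (.e (nat_lit 147492) (nat_lit 11) (.e (nat_lit 24622) (nat_lit 8) (.e (nat_lit 327681) (nat_lit 0) .nil)))))) (.g (nat_lit 4) .nil .nil))))) (.nd (nat_lit 4) (.nd (nat_lit 5) 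
(.lf (nat_lit 12809) (.g (nat_lit 3118) (.e (nat_lit 804) (nat_lit 67) (.e (nat_lit 712755) (nat_lit 30) (.e (nat_lit 450588) (nat_lit 10) (.e (nat_lit 573503) (nat_lit 18) (.e (nat_lit 1349) (nat_lit 102) (.e (nat_lit 286739) (nat_lit 7) (.e (nat_lit 319504) (nat_lit 10) .nil))))))) (.g (nat_lit 5) .nil .nil))) 
(.lf (nat_lit 12841) (.g (nat_lit 1698) (.e (nat_lit 815) (nat_lit 68) (.e (nat_lit 720933) (nat_lit 21) (.e (nat_lit 57844) (nat_lit 252) (.e (nat_lit 57406) (nat_lit 12) (.e (nat_lit 336316) (nat_lit 17) .nil))))) .nil))) (.nd (nat_lit 5) 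
(.lf (nat_lit 12825) (.g (nat_lit 2367) (.e (nat_lit 806) (nat_lit 67) (.e (nat_lit 712755) (nat_lit 30) (.e (nat_lit 450588) (nat_lit 10) (.e (nat_lit 573503) (nat_lit 18) (.e (nat_lit 1348) (nat_lit 102) (.e (nat_lit 286739) (nat_lit 7) (.e (nat_lit 319499) (nat_lit 10) .nil))))))) (.g (nat_lit 4) .nil .nil))) 
(.lf (nat_lit 12857) (.g (nat_lit 1802) (.e (nat_lit 851) (nat_lit 74) (.e (nat_lit 770071) (nat_lit 8) (.e (nat_lit 65586) (nat_lit 7) (.e (nat_lit 319531) (nat_lit 16) (.e (nat_lit 286748) (nat_lit 9) .nil))))) .nil))))) (.nd (nat_lit 3) (.nd (nat_lit 4) (.nd (nat_lit 5) 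
(.lf (nat_lit 12805) (.g (nat_lit 2034) (.e (nat_lit 804) (nat_lit 67) (.e (nat_lit 712755) (nat_lit 30) (.e (nat_lit 450588) (nat_lit 10) (.e (nat_lit 573503) (nat_lit 18) (.e (nat_lit 1348) (nat_lit 102) .nil))))) .nil)) 
(.lf (nat_lit 12837) (.g (nat_lit 3412) (.e (nat_lit 807) (nat_lit 67) (.e (nat_lit 712755) (nat_lit 30) (.e (nat_lit 450588) (nat_lit 10) (.e (nat_lit 573503) (nat_lit 18) (.e (nat_lit 1349) (nat_lit 102) (.e (nat_lit 286740) (nat_lit 7) (.e (nat_lit 327424) (nat_lit 10) .nil))))))) (.g (nat_lit 5) .nil .nil)))) (.nd (nat_lit 5) 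
(.lf (nat_lit 12821) (.g (nat_lit 2475) (.e (nat_lit 806) (nat_lit 67) (.e (nat_lit 712755) (nat_lit 30) (.e (nat_lit 450563) (nat_lit 0) (.e (nat_lit 4093) (nat_lit 245) (.e (nat_lit 1196) (nat_lit 88) (.e (nat_lit 65583) (nat_lit 7) (.e (nat_lit 319499) (nat_lit 10) .nil))))))) (.g (nat_lit 5) .nil .nil))) 
(.lf (nat_lit 12853) (.g (nat_lit 3851) (.e (nat_lit 848) (nat_lit 73) (.e (nat_lit 761905) (nat_lit 16) (.e (nat_lit 172113) (nat_lit 10) (.e (nat_lit 434291) (nat_lit 44) (.e (nat_lit 704738) (nat_lit 11) (.e (nat_lit 16425) (nat_lit 7) (.e (nat_lit 409617) (nat_lit 10) .nil))))))) (.g (nat_lit 7) .nil .nil))))) (.nd (nat_lit 4) (.nd (nat_lit 5) 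
(.lf (nat_lit 12813) (.g (nat_lit 2249) (.e (nat_lit 804) (nat_lit 67) (.e (nat_lit 712755) (nat_lit 30) (.e (nat_lit 450588) (nat_lit 10) (.e (nat_lit 573503) (nat_lit 18) (.e (nat_lit 1349) (nat_lit 102) (.e (nat_lit 286741) (nat_lit 8) (.e (nat_lit 327703) (nat_lit 10) .nil))))))) (.g (nat_lit 4) .nil .nil))) 
(.lf (nat_lit 12845) (.g (nat_lit 100) (.e (nat_lit 832) (nat_lit 70) (.e (nat_lit 737299) (nat_lit 7) (.e (nat_lit 286747) (nat_lit 9) .nil))) .nil))) (.nd (nat_lit 5) 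
(.lf (nat_lit 12829) (.g (nat_lit 2465) (.e (nat_lit 806) (nat_lit 67) (.e (nat_lit 712755) (nat_lit 30) (.e (nat_lit 450588) (nat_lit 10) (.e (nat_lit 573503) (nat_lit 18) (.e (nat_lit 1349) (nat_lit 102) (.e (nat_lit 286740) (nat_lit 7) (.e (nat_lit 319497) (nat_lit 10) .nil))))))) (.g (nat_lit 4) .nil .nil))) 
(.lf (nat_lit 12861) (.g (nat_lit 2033) (.e (nat_lit 853) (nat_lit 74) (.e (nat_lit 770072) (nat_lit 8) (.e (nat_lit 65583) (nat_lit 7) (.e (nat_lit 319530) (nat_lit 16) (.e (nat_lit 286748) (nat_lit 9) .nil))))) .nil)))))) (.nd (nat_lit 2) (.nd (nat_lit 3) (.nd (nat_lit 4) (.nd (nat_lit 5) 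
(.lf (nat_lit 12803) (.g (nat_lit 1145) (.e (nat_lit 804) (nat_lit 67) (.e (nat_lit 712755) (nat_lit 30) (.e (nat_lit 450588) (nat_lit 10) (.e (nat_lit 573503) (nat_lit 18) .nil)))) .nil)) 
(.lf (nat_lit 12835) (.g (nat_lit 1543) (.e (nat_lit 807) (nat_lit 67) (.e (nat_lit 712753) (nat_lit 30) (.e (nat_lit 458496) (nat_lit 3) (.e (nat_lit 516195) (nat_lit 26) (.e (nat_lit 336059) (nat_lit 7) (.e (nat_lit 327424) (nat_lit 10) .nil)))))) (.g (nat_lit 5) .nil .nil)))) (.nd (nat_lit 5) 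
(.lf (nat_lit 12819) (.g (nat_lit 2590) (.e (nat_lit 806) (nat_lit 67) (.e (nat_lit 712753) (nat_lit 30) (.e (nat_lit 450584) (nat_lit 9) (.e (nat_lit 565267) (nat_lit 4) (.e (nat_lit 65586) (nat_lit 7) (.e (nat_lit 319500) (nat_lit 10) .nil)))))) (.g (nat_lit 6) .nil .nil))) 
(.lf (nat_lit 12851) (.g (nat_lit 3917) (.e (nat_lit 848) (nat_lit 73) (.e (nat_lit 761905) (nat_lit 16) (.e (nat_lit 172110) (nat_lit 10) (.e (nat_lit 434291) (nat_lit 44) (.e (nat_lit 704738) (nat_lit 11) (.e (nat_lit 16425) (nat_lit 7) (.e (nat_lit 409617) (nat_lit 10) .nil))))))) (.g (nat_lit 0) .nil .nil))))) (.nd (nat_lit 4) (.nd (nat_lit 5) 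
(.lf (nat_lit 12811) (.g (nat_lit 4224) (.e (nat_lit 804) (nat_lit 67) (.e (nat_lit 712755) (nat_lit 30) (.e (nat_lit 450588) (nat_lit 10) (.e (nat_lit 573503) (nat_lit 18) (.e (nat_lit 1349) (nat_lit 102) (.e (nat_lit 286740) (nat_lit 7) (.e (nat_lit 319500) (nat_lit 10) .nil))))))) (.g (nat_lit 7) .nil .nil))) 
(.lf (nat_lit 12843) (.g (nat_lit 1974) (.e (nat_lit 815) (nat_lit 68) (.e (nat_lit 720945) (nat_lit 23) (.e (nat_lit 98367) (nat_lit 27) (.e (nat_lit 434231) (nat_lit 23) (.e (nat_lit 532579) (nat_lit 26) .nil))))) .nil))) (.nd (nat_lit 5) 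
(.lf (nat_lit 12827) (.g (nat_lit 3171) (.e (nat_lit 806) (nat_lit 67) (.e (nat_lit 712755) (nat_lit 30) (.e (nat_lit 450588) (nat_lit 10) (.e (nat_lit 573503) (nat_lit 18) (.e (nat_lit 1349) (nat_lit 102) (.e (nat_lit 286739) (nat_lit 7) (.e (nat_lit 319499) (nat_lit 10) .nil))))))) (.g (nat_lit 5) .nil .nil))) 
(.lf (nat_lit 12859) (.g (nat_lit 3255) (.e (nat_lit 852) (nat_lit 74) (.e (nat_lit 770071) (nat_lit 8) (.e (nat_lit 65583) (nat_lit 7) (.e (nat_lit 319530) (nat_lit 16) (.e (nat_lit 286759) (nat_lit 12) (.e (nat_lit 385115) (nat_lit 53) (.e (nat_lit 811033) (nat_lit 11) .nil))))))) (.g (nat_lit 0) .nil .nil)))))) (.nd (nat_lit 3) (.nd (nat_lit 4) (.nd (nat_lit 5) 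
(.lf (nat_lit 12807) (.g (nat_lit 2360) (.e (nat_lit 804) (nat_lit 67) (.e (nat_lit 712755) (nat_lit 30) (.e (nat_lit 450588) (nat_lit 10) (.e (nat_lit 573503) (nat_lit 18) (.e (nat_lit 1348) (nat_lit 102) (.e (nat_lit 286739) (nat_lit 7) (.e (nat_lit 319504) (nat_lit 10) .nil))))))) (.g (nat_lit 4) .nil .nil))) 
(.lf (nat_lit 12839) (.g (nat_lit 678) (.e (nat_lit 7936) (nat_lit 67) (.e (nat_lit 712755) (nat_lit 30) (.e (nat_lit 450571) (nat_lit 1) .nil))) .nil))) (.nd (nat_lit 5) 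
(.lf (nat_lit 12823) (.g (nat_lit 2501) (.e (nat_lit 806) (nat_lit 67) (.e (nat_lit 712755) (nat_lit 30) (.e (nat_lit 450584) (nat_lit 9) (.e (nat_lit 565267) (nat_lit 4) (.e (nat_lit 65586) (nat_lit 7) (.e (nat_lit 319500) (nat_lit 10) .nil)))))) (.g (nat_lit 5) .nil .nil))) 
(.lf (nat_lit 12855) (.g (nat_lit 2454) (.e (nat_lit 850) (nat_lit 74) (.e (nat_lit 770071) (nat_lit 8) (.e (nat_lit 65583) (nat_lit 7) (.e (nat_lit 319530) (nat_lit 16) (.e (nat_lit 286759) (nat_lit 12) (.e (nat_lit 385115) (nat_lit 53) (.e (nat_lit 811031) (nat_lit 11) .nil))))))) (.g (nat_lit 5) .nil .nil))))) (.nd (nat_lit 4) (.nd (nat_lit 5) 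
(.lf (nat_lit 12815) (.g (nat_lit 2183) (.e (nat_lit 804) (nat_lit 67) (.e (nat_lit 712755) (nat_lit 30) (.e (nat_lit 450588) (nat_lit 10) (.e (nat_lit 573503) (nat_lit 18) (.e (nat_lit 1359) (nat_lit 102) (.e (nat_lit 286740) (nat_lit 7) (.e (nat_lit 319500) (nat_lit 10) .nil))))))) (.g (nat_lit 4) .nil .nil))) 
(.lf (nat_lit 12847) (.g (nat_lit 1116) (.e (nat_lit 848) (nat_lit 73) (.e (nat_lit 769792) (nat_lit 10) (.e (nat_lit 81965) (nat_lit 26) (.e (nat_lit 147492) (nat_lit 11) (.e (nat_lit 24621) (nat_lit 8) (.e (nat_lit 327680) (nat_lit 0) .nil)))))) (.g (nat_lit 4) .nil .nil)))) (.nd (nat_lit 5) 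
(.lf (nat_lit 12831) (.g (nat_lit 4703) (.e (nat_lit 806) (nat_lit 67) (.e (nat_lit 712755) (nat_lit 30) (.e (nat_lit 450588) (nat_lit 10) (.e (nat_lit 573503) (nat_lit 18) (.e (nat_lit 1349) (nat_lit 102) (.e (nat_lit 286740) (nat_lit 7) (.e (nat_lit 319500) (nat_lit 10) .nil))))))) (.g (nat_lit 0) .nil .nil))) 
(.lf (nat_lit 12863) (.g (nat_lit 1322) (.e (nat_lit 854) (nat_lit 74) (.e (nat_lit 770074) (nat_lit 10) (.e (nat_lit 81965) (nat_lit 26) (.e (nat_lit 147492) (nat_lit 11) .nil)))) .nil))))))))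

noncomputable def tv175 : DT := (.nd (nat_lit 0) (.nd (nat_lit 1) (.nd (nat_lit 2) (.nd (nat_lit 3) (.nd (nat_lit 4) (.nd (nat_lit 5) 
(.lf (nat_lit 12864) (.g (nat_lit 1772) (.e (nat_lit 854) (nat_lit 74) (.e (nat_lit 770074) (nat_lit 10) (.e (nat_lit 81965) (nat_lit 26) (.e (nat_lit 147492) (nat_lit 11) (.e (nat_lit 24580) (nat_lit 0) .nil))))) .nil)) 
(.lf (nat_lit 12896) (.g (nat_lit 2991) (.e (nat_lit 914) (nat_lit 75) (.e (nat_lit 778466) (nat_lit 11) (.e (nat_lit 24617) (nat_lit 7) (.e (nat_lit 319534) (nat_lit 16) (.e (nat_lit 286759) (nat_lit 12) .nil))))) .nil))) (.nd (nat_lit 5) 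
(.lf (nat_lit 12880) (.g (nat_lit 2240) (.e (nat_lit 910) (nat_lit 75) (.e (nat_lit 778466) (nat_lit 11) (.e (nat_lit 24617) (nat_lit 7) (.e (nat_lit 319528) (nat_lit 16) .nil)))) .nil)) 
(.lf (nat_lit 12912) (.g (nat_lit 1964) (.e (nat_lit 968) (nat_lit 81) (.e (nat_lit 585) (nat_lit 43) (.e (nat_lit 516146) (nat_lit 9) (.e (nat_lit 426428) (nat_lit 17) (.e (nat_lit 90174) (nat_lit 14) .nil))))) .nil)))) (.nd (nat_lit 4) (.nd (nat_lit 5) 
(.lf (nat_lit 12872) (.g (nat_lit 2941) (.e (nat_lit 880) (nat_lit 75) (.e (nat_lit 778466) (nat_lit 11) (.e (nat_lit 24617) (nat_lit 7) (.e (nat_lit 319533) (nat_lit 16) (.e (nat_lit 286759) (nat_lit 12) .nil))))) .nil)) 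
(.lf (nat_lit 12904) (.g (nat_lit 1158) (.e (nat_lit 934) (nat_lit 76) (.e (nat_lit 786467) (nat_lit 27) (.e (nat_lit 336173) (nat_lit 10) (.e (nat_lit 344138) (nat_lit 29) (.e (nat_lit 581651) (nat_lit 4) (.e (nat_lit 172079) (nat_lit 7) (.e (nat_lit 409611) (nat_lit 10) .nil))))))) (.g (nat_lit 4) .nil .nil)))) (.nd (nat_lit 5) 
(.lf (nat_lit 12888) (.g (nat_lit 2228) (.e (nat_lit 913) (nat_lit 75) (.e (nat_lit 778466) (nat_lit 11) (.e (nat_lit 24617) (nat_lit 7) (.e (nat_lit 319528) (nat_lit 16) (.e (nat_lit 286759) (nat_lit 12) .nil))))) .nil)) 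
(.lf (nat_lit 12920) (.g (nat_lit 4095) (.e (nat_lit 968) (nat_lit 81) (.e (nat_lit 4425) (nat_lit 261) (.e (nat_lit 163869) (nat_lit 2) (.e (nat_lit 196666) (nat_lit 13) (.e (nat_lit 65610) (nat_lit 10) (.e (nat_lit 344129) (nat_lit 26) (.e (nat_lit 557087) (nat_lit 11) (.e (nat_lit 24584) (nat_lit 0) .nil)))))))) (.g (nat_lit 8) .nil .nil)))))) (.nd (nat_lit 3) (.nd (nat_lit 4) (.nd (nat_lit 5) 
(.lf (nat_lit 12868) (.g (nat_lit 2023) (.e (nat_lit 879) (nat_lit 75) (.e (nat_lit 778361) (nat_lit 9) (.e (nat_lit 232) (nat_lit 21) (.e (nat_lit 336060) (nat_lit 7) (.e (nat_lit 319534) (nat_lit 16) .nil))))) .nil)) 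
(.lf (nat_lit 12900) (.g (nat_lit 725) (.e (nat_lit 929) (nat_lit 76) (.e (nat_lit 786478) (nat_lit 29) (.e (nat_lit 352269) (nat_lit 7) (.e (nat_lit 245776) (nat_lit 4) .nil)))) .nil))) (.nd (nat_lit 5) 
(.lf (nat_lit 12884) (.g (nat_lit 2875) (.e (nat_lit 910) (nat_lit 75) (.e (nat_lit 778466) (nat_lit 11) (.e (nat_lit 24617) (nat_lit 7) (.e (nat_lit 319534) (nat_lit 16) (.e (nat_lit 286759) (nat_lit 12) .nil))))) .nil)) 
(.lf (nat_lit 12916) (.g (nat_lit 2458) (.e (nat_lit 968) (nat_lit 81) (.e (nat_lit 1256) (nat_lit 92) (.e (nat_lit 98372) (nat_lit 29) (.e (nat_lit 450579) (nat_lit 5) (.e (nat_lit 532555) (nat_lit 13) (.e (nat_lit 368659) (nat_lit 18) (.e (nat_lit 4761) (nat_lit 281) .nil))))))) (.g (nat_lit 7) .nil .nil))))) (.nd (nat_lit 4) (.nd (nat_lit 5) 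
(.lf (nat_lit 12876) (.g (nat_lit 2819) (.e (nat_lit 881) (nat_lit 75) (.e (nat_lit 778466) (nat_lit 11) (.e (nat_lit 24617) (nat_lit 7) (.e (nat_lit 319533) (nat_lit 16) (.e (nat_lit 286759) (nat_lit 12) .nil))))) .nil)) 
(.lf (nat_lit 12908) (.g (nat_lit 2366) (.e (nat_lit 7936) (nat_lit 76) (.e (nat_lit 786489) (nat_lit 34) (.e (nat_lit 393301) (nat_lit 27) (.e (nat_lit 491535) (nat_lit 2) (.e (nat_lit 90165) (nat_lit 12) .nil))))) .nil))) (.nd (nat_lit 5) 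
(.lf (nat_lit 12892) (.g (nat_lit 2330) (.e (nat_lit 914) (nat_lit 75) (.e (nat_lit 778466) (nat_lit 11) (.e (nat_lit 24617) (nat_lit 7) (.e (nat_lit 319528) (nat_lit 16) .nil)))) .nil)) 
(.lf (nat_lit 12924) (.g (nat_lit 5152) (.e (nat_lit 968) (nat_lit 81) (.e (nat_lit 5270) (nat_lit 298) (.e (nat_lit 1239) (nat_lit 91) (.e (nat_lit 90170) (nat_lit 13) (.e (nat_lit 172106) (nat_lit 10) (.e (nat_lit 434231) (nat_lit 23) (.e (nat_lit 532490) (nat_lit 0) (.e (nat_lit 6114) (nat_lit 332) .nil)))))))) (.g (nat_lit 8) .nil .nil))))))) 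
(.nd (nat_lit 2) (.nd (nat_lit 3) (.nd (nat_lit 4) (.nd (nat_lit 5) 
(.lf (nat_lit 12866) (.g (nat_lit 1793) (.e (nat_lit 7936) (nat_lit 74) (.e (nat_lit 770071) (nat_lit 8) (.e (nat_lit 65586) (nat_lit 7) (.e (nat_lit 319531) (nat_lit 16) (.e (nat_lit 286748) (nat_lit 9) .nil))))) .nil)) 
(.lf (nat_lit 12898) (.g (nat_lit 3835) (.e (nat_lit 917) (nat_lit 75) (.e (nat_lit 778362) (nat_lit 9) (.e (nat_lit 232) (nat_lit 21) (.e (nat_lit 336060) (nat_lit 7) (.e (nat_lit 319534) (nat_lit 16) (.e (nat_lit 286756) (nat_lit 10) (.e (nat_lit 344168) (nat_lit 40) (.e (nat_lit 671786) (nat_lit 14) (.e (nat_lit 1014) (nat_lit 81) .nil))))))))) (.g (nat_lit 7) .nil .nil)))) (.nd (nat_lit 5) 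
(.lf (nat_lit 12882) (.g (nat_lit 2278) (.e (nat_lit 910) (nat_lit 75) (.e (nat_lit 778466) (nat_lit 11) (.e (nat_lit 24617) (nat_lit 7) (.e (nat_lit 319531) (nat_lit 16) .nil)))) .nil)) 
(.lf (nat_lit 12914) (.g (nat_lit 2629) (.e (nat_lit 968) (nat_lit 81) (.e (nat_lit 618) (nat_lit 48) (.e (nat_lit 557105) (nat_lit 14) (.e (nat_lit 180252) (nat_lit 10) (.e (nat_lit 573480) (nat_lit 13) .nil))))) .nil)))) (.nd (nat_lit 4) (.nd (nat_lit 5) 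
(.lf (nat_lit 12874) (.g (nat_lit 2127) (.e (nat_lit 881) (nat_lit 75) (.e (nat_lit 778466) (nat_lit 11) (.e (nat_lit 24617) (nat_lit 7) (.e (nat_lit 319529) (nat_lit 16) .nil)))) .nil)) 
(.lf (nat_lit 12906) (.g (nat_lit 2762) (.e (nat_lit 934) (nat_lit 76) (.e (nat_lit 786478) (nat_lit 29) (.e (nat_lit 352269) (nat_lit 7) (.e (nat_lit 245776) (nat_lit 4) (.e (nat_lit 172082) (nat_lit 7) (.e (nat_lit 409612) (nat_lit 10) .nil)))))) (.g (nat_lit 0) .nil .nil)))) (.nd (nat_lit 5) 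
(.lf (nat_lit 12890) (.g (nat_lit 2384) (.e (nat_lit 913) (nat_lit 75) (.e (nat_lit 778466) (nat_lit 11) (.e (nat_lit 24617) (nat_lit 7) (.e (nat_lit 319530) (nat_lit 16) .nil)))) .nil)) 
(.lf (nat_lit 12922) (.g (nat_lit 4766) (.e (nat_lit 968) (nat_lit 81) (.e (nat_lit 4840) (nat_lit 283) (.e (nat_lit 57374) (nat_lit 2) (.e (nat_lit 90170) (nat_lit 13) (.e (nat_lit 172106) (nat_lit 10) (.e (nat_lit 434231) (nat_lit 23) (.e (nat_lit 532535) (nat_lit 9) (.e (nat_lit 335908) (nat_lit 0) .nil)))))))) (.g (nat_lit 7) .nil .nil)))))) (.nd (nat_lit 3) (.nd (nat_lit 4) (.nd (nat_lit 5) 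
(.lf (nat_lit 12870) (.g (nat_lit 2240) (.e (nat_lit 880) (nat_lit 75) (.e (nat_lit 778466) (nat_lit 11) (.e (nat_lit 24617) (nat_lit 7) (.e (nat_lit 319529) (nat_lit 16) .nil)))) .nil)) 
(.lf (nat_lit 12902) (.g (nat_lit 1068) (.e (nat_lit 931) (nat_lit 76) (.e (nat_lit 786478) (nat_lit 29) (.e (nat_lit 352269) (nat_lit 7) (.e (nat_lit 245776) (nat_lit 4) .nil)))) .nil))) (.nd (nat_lit 5) 
(.lf (nat_lit 12886) (.g (nat_lit 2319) (.e (nat_lit 911) (nat_lit 75) (.e (nat_lit 778465) (nat_lit 11) (.e (nat_lit 24660) (nat_lit 13) (.e (nat_lit 393260) (nat_lit 21) (.e (nat_lit 409636) (nat_lit 14) .nil))))) .nil)) 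
(.lf (nat_lit 12918) (.g (nat_lit 4448) (.e (nat_lit 968) (nat_lit 81) (.e (nat_lit 2031) (nat_lit 140) (.e (nat_lit 688177) (nat_lit 16) (.e (nat_lit 65586) (nat_lit 7) (.e (nat_lit 319531) (nat_lit 16) (.e (nat_lit 286759) (nat_lit 12) (.e (nat_lit 385094) (nat_lit 49) (.e (nat_lit 778254) (nat_lit 0) .nil)))))))) (.g (nat_lit 7) .nil .nil))))) (.nd (nat_lit 4) (.nd (nat_lit 5) 
(.lf (nat_lit 12878) (.g (nat_lit 2433) (.e (nat_lit 882) (nat_lit 75) (.e (nat_lit 778466) (nat_lit 11) (.e (nat_lit 24617) (nat_lit 7) (.e (nat_lit 319529) (nat_lit 16) .nil)))) .nil)) 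
(.lf (nat_lit 12910) (.g (nat_lit 1842) (.e (nat_lit 951) (nat_lit 78) (.e (nat_lit 802828) (nat_lit 13) (.e (nat_lit 352322) (nat_lit 26) (.e (nat_lit 147495) (nat_lit 11) (.e (nat_lit 24622) (nat_lit 8) (.e (nat_lit 327680) (nat_lit 0) .nil)))))) (.g (nat_lit 6) .nil .nil)))) (.nd (nat_lit 5) 
(.lf (nat_lit 12894) (.g (nat_lit 2369) (.e (nat_lit 914) (nat_lit 75) (.e (nat_lit 778466) (nat_lit 11) (.e (nat_lit 24617) (nat_lit 7) (.e (nat_lit 319531) (nat_lit 16) .nil)))) .nil)) 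
(.lf (nat_lit 12926) (.g (nat_lit 1646) (.e (nat_lit 968) (nat_lit 81) (.e (nat_lit 5345) (nat_lit 298) (.e (nat_lit 1228) (nat_lit 91) (.e (nat_lit 90176) (nat_lit 15) (.e (nat_lit 188447) (nat_lit 22) (.e (nat_lit 196661) (nat_lit 12) (.e (nat_lit 57712) (nat_lit 176) .nil))))))) (.g (nat_lit 5) .nil .nil)))))))) 
(.nd (nat_lit 1) (.nd (nat_lit 2) (.nd (nat_lit 3) (.nd (nat_lit 4) (.nd (nat_lit 5) 
(.lf (nat_lit 12865) (.g (nat_lit 1796) (.e (nat_lit 854) (nat_lit 74) (.e (nat_lit 770074) (nat_lit 10) (.e (nat_lit 81965) (nat_lit 26) (.e (nat_lit 147492) (nat_lit 11) (.e (nat_lit 24580) (nat_lit 0) (.e (nat_lit 6203) (nat_lit 332) (.e (nat_lit 2427) (nat_lit 157) .nil))))))) (.g (nat_lit 4) .nil .nil))) 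
(.lf (nat_lit 12897) (.g (nat_lit 2182) (.e (nat_lit 917) (nat_lit 75) (.e (nat_lit 778362) (nat_lit 9) (.e (nat_lit 232) (nat_lit 21) (.e (nat_lit 336060) (nat_lit 7) (.e (nat_lit 319533) (nat_lit 16) .nil))))) .nil))) (.nd (nat_lit 5) 
(.lf (nat_lit 12881) (.g (nat_lit 2407) (.e (nat_lit 910) (nat_lit 75) (.e (nat_lit 778466) (nat_lit 11) (.e (nat_lit 24617) (nat_lit 7) (.e (nat_lit 319529) (nat_lit 16) .nil)))) .nil)) 
(.lf (nat_lit 12913) (.g (nat_lit 1438) (.e (nat_lit 968) (nat_lit 81) (.e (nat_lit 618) (nat_lit 48) (.e (nat_lit 557105) (nat_lit 14) (.e (nat_lit 180252) (nat_lit 10) .nil)))) .nil)))) (.nd (nat_lit 4) (.nd (nat_lit 5) 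
(.lf (nat_lit 12873) (.g (nat_lit 2733) (.e (nat_lit 880) (nat_lit 75) (.e (nat_lit 778466) (nat_lit 11) (.e (nat_lit 24617) (nat_lit 7) (.e (nat_lit 319534) (nat_lit 16) (.e (nat_lit 286759) (nat_lit 12) .nil))))) .nil)) 
(.lf (nat_lit 12905) (.g (nat_lit 2275) (.e (nat_lit 934) (nat_lit 76) (.e (nat_lit 786471) (nat_lit 27) (.e (nat_lit 336173) (nat_lit 10) (.e (nat_lit 344138) (nat_lit 29) (.e (nat_lit 581651) (nat_lit 4) (.e (nat_lit 172079) (nat_lit 7) (.e (nat_lit 409611) (nat_lit 10) .nil))))))) (.g (nat_lit 0) .nil .nil)))) (.nd (nat_lit 5) 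
(.lf (nat_lit 12889) (.g (nat_lit 2519) (.e (nat_lit 913) (nat_lit 75) (.e (nat_lit 778466) (nat_lit 11) (.e (nat_lit 24617) (nat_lit 7) (.e (nat_lit 319529) (nat_lit 16) (.e (nat_lit 286759) (nat_lit 12) .nil))))) .nil)) 
(.lf (nat_lit 12921) (.g (nat_lit 3790) (.e (nat_lit 968) (nat_lit 81) (.e (nat_lit 4425) (nat_lit 261) (.e (nat_lit 163870) (nat_lit 2) (.e (nat_lit 196666) (nat_lit 13) (.e (nat_lit 65610) (nat_lit 10) (.e (nat_lit 344129) (nat_lit 26) (.e (nat_lit 557087) (nat_lit 11) (.e (nat_lit 24584) (nat_lit 0) .nil)))))))) (.g (nat_lit 0) .nil .nil)))))) (.nd (nat_lit 3) (.nd (nat_lit 4) (.nd (nat_lit 5) 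
(.lf (nat_lit 12869) (.g (nat_lit 2647) (.e (nat_lit 880) (nat_lit 75) (.e (nat_lit 778466) (nat_lit 11) (.e (nat_lit 24617) (nat_lit 7) (.e (nat_lit 319528) (nat_lit 16) (.e (nat_lit 286759) (nat_lit 12) .nil))))) .nil)) 
(.lf (nat_lit 12901) (.g (nat_lit 542) (.e (nat_lit 930) (nat_lit 76) (.e (nat_lit 786478) (nat_lit 29) (.e (nat_lit 352269) (nat_lit 7) .nil))) .nil))) (.nd (nat_lit 5) 
(.lf (nat_lit 12885) (.g (nat_lit 678) (.e (nat_lit 911) (nat_lit 75) (.e (nat_lit 778465) (nat_lit 11) (.e (nat_lit 24660) (nat_lit 13) .nil))) .nil)) 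
(.lf (nat_lit 12917) (.g (nat_lit 1363) (.e (nat_lit 968) (nat_lit 81) (.e (nat_lit 1633) (nat_lit 114) (.e (nat_lit 385068) (nat_lit 26) (.e (nat_lit 532533) (nat_lit 9) .nil)))) .nil)))) (.nd (nat_lit 4) (.nd (nat_lit 5) 
(.lf (nat_lit 12877) (.g (nat_lit 2610) (.e (nat_lit 881) (nat_lit 75) (.e (nat_lit 778466) (nat_lit 11) (.e (nat_lit 24617) (nat_lit 7) (.e (nat_lit 319534) (nat_lit 16) (.e (nat_lit 286759) (nat_lit 12) .nil))))) .nil)) 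
(.lf (nat_lit 12909) (.g (nat_lit 2001) (.e (nat_lit 941) (nat_lit 77) (.e (nat_lit 794637) (nat_lit 11) (.e (nat_lit 336222) (nat_lit 13) (.e (nat_lit 393260) (nat_lit 21) (.e (nat_lit 409636) (nat_lit 14) .nil))))) .nil))) (.nd (nat_lit 5) 
(.lf (nat_lit 12893) (.g (nat_lit 2498) (.e (nat_lit 914) (nat_lit 75) (.e (nat_lit 778466) (nat_lit 11) (.e (nat_lit 24617) (nat_lit 7) (.e (nat_lit 319529) (nat_lit 16) .nil)))) .nil)) 
(.lf (nat_lit 12925) (.g (nat_lit 3267) (.e (nat_lit 968) (nat_lit 81) (.e (nat_lit 5270) (nat_lit 298) (.e (nat_lit 1239) (nat_lit 91) (.e (nat_lit 90170) (nat_lit 13) (.e (nat_lit 172115) (nat_lit 10) .nil))))) .nil)))))) (.nd (nat_lit 2) (.nd (nat_lit 3) (.nd (nat_lit 4) (.nd (nat_lit 5) 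
(.lf (nat_lit 12867) (.g (nat_lit 1710) (.e (nat_lit 858) (nat_lit 75) (.e (nat_lit 778327) (nat_lit 6) (.e (nat_lit 81953) (nat_lit 22) (.e (nat_lit 98048) (nat_lit 2) .nil)))) .nil)) 
(.lf (nat_lit 12899) (.g (nat_lit 1683) (.e (nat_lit 919) (nat_lit 75) (.e (nat_lit 778325) (nat_lit 6) (.e (nat_lit 81953) (nat_lit 22) (.e (nat_lit 98048) (nat_lit 0) .nil)))) .nil))) (.nd (nat_lit 5) 
(.lf (nat_lit 12883) (.g (nat_lit 2333) (.e (nat_lit 910) (nat_lit 75) (.e (nat_lit 778466) (nat_lit 11) (.e (nat_lit 24617) (nat_lit 7) (.e (nat_lit 319533) (nat_lit 16) .nil)))) .nil)) 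
(.lf (nat_lit 12915) (.g (nat_lit 2584) (.e (nat_lit 968) (nat_lit 81) (.e (nat_lit 1239) (nat_lit 91) (.e (nat_lit 90170) (nat_lit 13) (.e (nat_lit 172106) (nat_lit 10) (.e (nat_lit 434231) (nat_lit 23) .nil))))) .nil)))) (.nd (nat_lit 4) (.nd (nat_lit 5) 
(.lf (nat_lit 12875) (.g (nat_lit 2451) (.e (nat_lit 881) (nat_lit 75) (.e (nat_lit 778466) (nat_lit 11) (.e (nat_lit 24617) (nat_lit 7) (.e (nat_lit 319531) (nat_lit 16) (.e (nat_lit 286759) (nat_lit 12) .nil))))) .nil)) 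
(.lf (nat_lit 12907) (.g (nat_lit 1581) (.e (nat_lit 934) (nat_lit 76) (.e (nat_lit 786479) (nat_lit 29) (.e (nat_lit 352269) (nat_lit 7) (.e (nat_lit 245776) (nat_lit 4) (.e (nat_lit 172079) (nat_lit 7) (.e (nat_lit 409611) (nat_lit 10) .nil)))))) (.g (nat_lit 0) .nil .nil)))) (.nd (nat_lit 5) 
(.lf (nat_lit 12891) (.g (nat_lit 1982) (.e (nat_lit 913) (nat_lit 75) (.e (nat_lit 778466) (nat_lit 11) (.e (nat_lit 24617) (nat_lit 7) (.e (nat_lit 319533) (nat_lit 16) .nil)))) .nil)) 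
(.lf (nat_lit 12923) (.g (nat_lit 3751) (.e (nat_lit 968) (nat_lit 81) (.e (nat_lit 5270) (nat_lit 298) (.e (nat_lit 1239) (nat_lit 91) (.e (nat_lit 90170) (nat_lit 13) (.e (nat_lit 172106) (nat_lit 10) (.e (nat_lit 434231) (nat_lit 23) (.e (nat_lit 532486) (nat_lit 0) (.e (nat_lit 6113) (nat_lit 332) .nil)))))))) (.g (nat_lit 6) .nil .nil)))))) (.nd (nat_lit 3) (.nd (nat_lit 4) (.nd (nat_lit 5) 
(.lf (nat_lit 12871) (.g (nat_lit 2582) (.e (nat_lit 880) (nat_lit 75) (.e (nat_lit 778466) (nat_lit 11) (.e (nat_lit 24617) (nat_lit 7) (.e (nat_lit 319531) (nat_lit 16) (.e (nat_lit 286759) (nat_lit 12) .nil))))) .nil)) 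
(.lf (nat_lit 12903) (.g (nat_lit 427) (.e (nat_lit 932) (nat_lit 76) (.e (nat_lit 786480) (nat_lit 29) (.e (nat_lit 352257) (nat_lit 0) .nil))) .nil))) (.nd (nat_lit 5) 
(.lf (nat_lit 12887) (.g (nat_lit 2394) (.e (nat_lit 912) (nat_lit 75) (.e (nat_lit 778362) (nat_lit 9) (.e (nat_lit 232) (nat_lit 21) (.e (nat_lit 336060) (nat_lit 7) (.e (nat_lit 319534) (nat_lit 16) (.e (nat_lit 286756) (nat_lit 10) (.e (nat_lit 344160) (nat_lit 37) (.e (nat_lit 655104) (nat_lit 14) (.e (nat_lit 2421) (nat_lit 157) .nil))))))))) (.g (nat_lit 5) .nil .nil))) 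
(.lf (nat_lit 12919) (.g (nat_lit 4214) (.e (nat_lit 968) (nat_lit 81) (.e (nat_lit 4421) (nat_lit 261) (.e (nat_lit 163870) (nat_lit 2) (.e (nat_lit 196666) (nat_lit 13) (.e (nat_lit 65610) (nat_lit 10) (.e (nat_lit 344129) (nat_lit 26) (.e (nat_lit 557087) (nat_lit 11) (.e (nat_lit 24584) (nat_lit 0) .nil)))))))) (.g (nat_lit 0) .nil .nil))))) (.nd (nat_lit 4) (.nd (nat_lit 5) 
(.lf (nat_lit 12879) (.g (nat_lit 1663) (.e (nat_lit 883) (nat_lit 75) (.e (nat_lit 778362) (nat_lit 9) (.e (nat_lit 232) (nat_lit 21) (.e (nat_lit 336060) (nat_lit 7) .nil)))) .nil)) 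
(.lf (nat_lit 12911) (.g (nat_lit 1256) (.e (nat_lit 968) (nat_lit 81) (.e (nat_lit 411) (nat_lit 32) (.e (nat_lit 426340) (nat_lit 14) (.e (nat_lit 491540) (nat_lit 3) .nil)))) .nil))) (.nd (nat_lit 5) 
(.lf (nat_lit 12895) (.g (nat_lit 2424) (.e (nat_lit 914) (nat_lit 75) (.e (nat_lit 778466) (nat_lit 11) (.e (nat_lit 24617) (nat_lit 7) (.e (nat_lit 319533) (nat_lit 16) .nil)))) .nil)) 
(.lf (nat_lit 12927) (.g (nat_lit 5084) (.e (nat_lit 968) (nat_lit 81) (.e (nat_lit 5345) (nat_lit 298) (.e (nat_lit 1237) (nat_lit 91) (.e (nat_lit 90170) (nat_lit 13) (.e (nat_lit 172106) (nat_lit 10) (.e (nat_lit 434231) (nat_lit 23) (.e (nat_lit 532490) (nat_lit 0) (.e (nat_lit 6114) (nat_lit 332) .nil)))))))) (.g (nat_lit 8) .nil .nil)))))))))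

noncomputable def tv176 : DT := (.nd (nat_lit 0) (.nd (nat_lit 1) (.nd (nat_lit 2) (.nd (nat_lit 3) (.nd (nat_lit 4) 
(.lf (nat_lit 12928) (.g (nat_lit 2336) (.e (nat_lit 968) (nat_lit 81) (.e (nat_lit 5345) (nat_lit 298) (.e (nat_lit 1238) (nat_lit 91) (.e (nat_lit 90176) (nat_lit 15) (.e (nat_lit 188447) (nat_lit 22) (.e (nat_lit 196661) (nat_lit 12) (.e (nat_lit 57712) (nat_lit 176) .nil))))))) (.g (nat_lit 6) .nil .nil))) 
(.lf (nat_lit 12944) (.g (nat_lit 3860) (.e (nat_lit 968) (nat_lit 81) (.e (nat_lit 6713) (nat_lit 360) (.e (nat_lit 164235) (nat_lit 187) (.e (nat_lit 1074) (nat_lit 81) (.e (nat_lit 1796) (nat_lit 119) (.e (nat_lit 516163) (nat_lit 11) (.e (nat_lit 442424) (nat_lit 22) (.e (nat_lit 196628) (nat_lit 9) .nil)))))))) (.g (nat_lit 0) .nil .nil)))) (.nd (nat_lit 4) 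
(.lf (nat_lit 12936) (.g (nat_lit 2739) (.e (nat_lit 968) (nat_lit 81) (.e (nat_lit 6220) (nat_lit 333) (.e (nat_lit 57900) (nat_lit 276) (.e (nat_lit 122936) (nat_lit 23) (.e (nat_lit 516176) (nat_lit 14) (.e (nat_lit 466976) (nat_lit 22) (.e (nat_lit 196628) (nat_lit 9) .nil))))))) (.g (nat_lit 0) .nil .nil))) 
(.lf (nat_lit 12952) (.g (nat_lit 3955) (.e (nat_lit 968) (nat_lit 81) (.e (nat_lit 6717) (nat_lit 361) (.e (nat_lit 172067) (nat_lit 3) (.e (nat_lit 204885) (nat_lit 33) (.e (nat_lit 401446) (nat_lit 10) (.e (nat_lit 434219) (nat_lit 19) (.e (nat_lit 499965) (nat_lit 14) .nil))))))) (.g (nat_lit 6) .nil .nil))))) (.nd (nat_lit 3) (.nd (nat_lit 4) 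
(.lf (nat_lit 12932) (.g (nat_lit 2443) (.e (nat_lit 968) (nat_lit 81) (.e (nat_lit 5590) (nat_lit 310) (.e (nat_lit 163905) (nat_lit 12) (.e (nat_lit 426555) (nat_lit 32) (.e (nat_lit 376862) (nat_lit 22) .nil))))) .nil)) 
(.lf (nat_lit 12948) (.g (nat_lit 3868) (.e (nat_lit 968) (nat_lit 81) (.e (nat_lit 6713) (nat_lit 360) (.e (nat_lit 164237) (nat_lit 187) (.e (nat_lit 1077) (nat_lit 81) (.e (nat_lit 1796) (nat_lit 119) (.e (nat_lit 516163) (nat_lit 11) (.e (nat_lit 442424) (nat_lit 22) (.e (nat_lit 196628) (nat_lit 9) .nil)))))))) (.g (nat_lit 0) .nil .nil)))) (.nd (nat_lit 4) 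
(.lf (nat_lit 12940) (.g (nat_lit 4278) (.e (nat_lit 968) (nat_lit 81) (.e (nat_lit 6711) (nat_lit 360) (.e (nat_lit 164236) (nat_lit 187) (.e (nat_lit 1074) (nat_lit 81) (.e (nat_lit 1796) (nat_lit 119) (.e (nat_lit 516163) (nat_lit 11) (.e (nat_lit 442424) (nat_lit 22) (.e (nat_lit 196628) (nat_lit 9) .nil)))))))) (.g (nat_lit 0) .nil .nil))) 
(.lf (nat_lit 12956) (.g (nat_lit 1262) (.e (nat_lit 968) (nat_lit 81) (.e (nat_lit 6721) (nat_lit 362) (.e (nat_lit 180244) (nat_lit 5) (.e (nat_lit 532569) (nat_lit 16) (.e (nat_lit 401440) (nat_lit 9) .nil))))) .nil))))) (.nd (nat_lit 2) (.nd (nat_lit 3) (.nd (nat_lit 4) 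
(.lf (nat_lit 12930) (.g (nat_lit 1706) (.e (nat_lit 968) (nat_lit 81) (.e (nat_lit 5355) (nat_lit 298) (.e (nat_lit 1661) (nat_lit 115) (.e (nat_lit 393260) (nat_lit 21) (.e (nat_lit 409648) (nat_lit 18) .nil))))) .nil)) 
(.lf (nat_lit 12946) (.g (nat_lit 4031) (.e (nat_lit 968) (nat_lit 81) (.e (nat_lit 6713) (nat_lit 360) (.e (nat_lit 164236) (nat_lit 187) (.e (nat_lit 1077) (nat_lit 81) (.e (nat_lit 1796) (nat_lit 119) (.e (nat_lit 516163) (nat_lit 11) (.e (nat_lit 442424) (nat_lit 22) (.e (nat_lit 196628) (nat_lit 9) .nil)))))))) (.g (nat_lit 0) .nil .nil)))) (.nd (nat_lit 4) 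
(.lf (nat_lit 12938) (.g (nat_lit 3860) (.e (nat_lit 968) (nat_lit 81) (.e (nat_lit 6710) (nat_lit 360) (.e (nat_lit 164237) (nat_lit 187) (.e (nat_lit 1074) (nat_lit 81) (.e (nat_lit 1796) (nat_lit 119) (.e (nat_lit 516163) (nat_lit 11) (.e (nat_lit 442424) (nat_lit 22) (.e (nat_lit 196628) (nat_lit 9) .nil)))))))) (.g (nat_lit 0) .nil .nil))) 
(.lf (nat_lit 12954) (.g (nat_lit 5011) (.e (nat_lit 968) (nat_lit 81) (.e (nat_lit 6721) (nat_lit 362) (.e (nat_lit 180244) (nat_lit 5) (.e (nat_lit 532523) (nat_lit 7) (.e (nat_lit 319538) (nat_lit 19) (.e (nat_lit 311312) (nat_lit 2) (.e (nat_lit 196628) (nat_lit 9) .nil))))))) (.g (nat_lit 0) .nil .nil))))) (.nd (nat_lit 3) (.nd (nat_lit 4) 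
(.lf (nat_lit 12934) (.g (nat_lit 2889) (.e (nat_lit 968) (nat_lit 81) (.e (nat_lit 6219) (nat_lit 333) (.e (nat_lit 57876) (nat_lit 270) (.e (nat_lit 1256) (nat_lit 92) (.e (nat_lit 98370) (nat_lit 28) (.e (nat_lit 442424) (nat_lit 22) (.e (nat_lit 196628) (nat_lit 9) .nil))))))) (.g (nat_lit 0) .nil .nil))) 
(.lf (nat_lit 12950) (.g (nat_lit 3430) (.e (nat_lit 968) (nat_lit 81) (.e (nat_lit 6716) (nat_lit 361) (.e (nat_lit 172067) (nat_lit 3) (.e (nat_lit 204885) (nat_lit 33) (.e (nat_lit 401446) (nat_lit 10) (.e (nat_lit 434219) (nat_lit 19) (.e (nat_lit 499965) (nat_lit 14) .nil))))))) (.g (nat_lit 0) .nil .nil)))) (.nd (nat_lit 4) 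
(.lf (nat_lit 12942) (.g (nat_lit 4138) (.e (nat_lit 968) (nat_lit 81) (.e (nat_lit 6711) (nat_lit 360) (.e (nat_lit 164237) (nat_lit 187) (.e (nat_lit 1074) (nat_lit 81) (.e (nat_lit 1796) (nat_lit 119) (.e (nat_lit 516163) (nat_lit 11) (.e (nat_lit 442424) (nat_lit 22) (.e (nat_lit 196628) (nat_lit 9) .nil)))))))) (.g (nat_lit 0) .nil .nil))) 
(.lf (nat_lit 12958) (.g (nat_lit 1627) (.e (nat_lit 968) (nat_lit 81) (.e (nat_lit 7237) (nat_lit 382) (.e (nat_lit 1220) (nat_lit 90) (.e (nat_lit 81965) (nat_lit 26) (.e (nat_lit 147492) (nat_lit 11) .nil))))) .nil)))))) (.nd (nat_lit 1) (.nd (nat_lit 2) (.nd (nat_lit 3) (.nd (nat_lit 4) 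
(.lf (nat_lit 12929) (.g (nat_lit 2601) (.e (nat_lit 968) (nat_lit 81) (.e (nat_lit 5345) (nat_lit 298) (.e (nat_lit 1238) (nat_lit 91) (.e (nat_lit 90176) (nat_lit 15) (.e (nat_lit 188450) (nat_lit 23) (.e (nat_lit 204821) (nat_lit 17) (.e (nat_lit 6114) (nat_lit 332) .nil))))))) (.g (nat_lit 7) .nil .nil))) 
(.lf (nat_lit 12945) (.g (nat_lit 4138) (.e (nat_lit 968) (nat_lit 81) (.e (nat_lit 6713) (nat_lit 360) (.e (nat_lit 164236) (nat_lit 187) (.e (nat_lit 1074) (nat_lit 81) (.e (nat_lit 1796) (nat_lit 119) (.e (nat_lit 516163) (nat_lit 11) (.e (nat_lit 442424) (nat_lit 22) (.e (nat_lit 196628) (nat_lit 9) .nil)))))))) (.g (nat_lit 0) .nil .nil)))) (.nd (nat_lit 4) 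
(.lf (nat_lit 12937) (.g (nat_lit 3017) (.e (nat_lit 968) (nat_lit 81) (.e (nat_lit 6221) (nat_lit 333) (.e (nat_lit 57900) (nat_lit 276) (.e (nat_lit 122936) (nat_lit 23) (.e (nat_lit 516176) (nat_lit 14) (.e (nat_lit 466976) (nat_lit 22) (.e (nat_lit 196628) (nat_lit 9) .nil))))))) (.g (nat_lit 0) .nil .nil))) 
(.lf (nat_lit 12953) (.g (nat_lit 4296) (.e (nat_lit 968) (nat_lit 81) (.e (nat_lit 6717) (nat_lit 361) (.e (nat_lit 172067) (nat_lit 3) (.e (nat_lit 204885) (nat_lit 33) (.e (nat_lit 401448) (nat_lit 10) (.e (nat_lit 434219) (nat_lit 19) (.e (nat_lit 499965) (nat_lit 14) .nil))))))) (.g (nat_lit 7) .nil .nil))))) (.nd (nat_lit 3) (.nd (nat_lit 4) 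
(.lf (nat_lit 12933) (.g (nat_lit 2856) (.e (nat_lit 968) (nat_lit 81) (.e (nat_lit 6202) (nat_lit 332) (.e (nat_lit 2797) (nat_lit 180) (.e (nat_lit 303119) (nat_lit 3) (.e (nat_lit 204856) (nat_lit 26) (.e (nat_lit 336228) (nat_lit 14) (.e (nat_lit 401425) (nat_lit 2) (.e (nat_lit 196628) (nat_lit 9) .nil)))))))) (.g (nat_lit 5) .nil .nil))) 
(.lf (nat_lit 12949) (.g (nat_lit 3506) (.e (nat_lit 968) (nat_lit 81) (.e (nat_lit 6713) (nat_lit 360) (.e (nat_lit 164238) (nat_lit 187) (.e (nat_lit 1234) (nat_lit 91) (.e (nat_lit 90176) (nat_lit 15) (.e (nat_lit 188447) (nat_lit 22) (.e (nat_lit 196628) (nat_lit 9) .nil))))))) (.g (nat_lit 6) .nil .nil)))) (.nd (nat_lit 4) 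
(.lf (nat_lit 12941) (.g (nat_lit 4187) (.e (nat_lit 968) (nat_lit 81) (.e (nat_lit 6711) (nat_lit 360) (.e (nat_lit 164236) (nat_lit 187) (.e (nat_lit 1077) (nat_lit 81) (.e (nat_lit 1796) (nat_lit 119) (.e (nat_lit 516163) (nat_lit 11) (.e (nat_lit 442424) (nat_lit 22) (.e (nat_lit 196628) (nat_lit 9) .nil)))))))) (.g (nat_lit 0) .nil .nil))) 
(.lf (nat_lit 12957) (.g (nat_lit 3671) (.e (nat_lit 968) (nat_lit 81) (.e (nat_lit 6723) (nat_lit 362) (.e (nat_lit 180243) (nat_lit 5) (.e (nat_lit 532569) (nat_lit 16) (.e (nat_lit 401448) (nat_lit 10) (.e (nat_lit 434219) (nat_lit 19) (.e (nat_lit 499965) (nat_lit 14) .nil))))))) (.g (nat_lit 6) .nil .nil)))))) (.nd (nat_lit 2) (.nd (nat_lit 3) (.nd (nat_lit 4) 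
(.lf (nat_lit 12931) (.g (nat_lit 967) (.e (nat_lit 968) (nat_lit 81) (.e (nat_lit 5412) (nat_lit 303) (.e (nat_lit 73729) (nat_lit 0) (.e (nat_lit 7124) (nat_lit 382) (.e (nat_lit 7936) (nat_lit 90) (.e (nat_lit 81920) (nat_lit 0) (.e (nat_lit 6988) (nat_lit 377) .nil))))))) (.g (nat_lit 4) .nil .nil))) 
(.lf (nat_lit 12947) (.g (nat_lit 3929) (.e (nat_lit 968) (nat_lit 81) (.e (nat_lit 6713) (nat_lit 360) (.e (nat_lit 164237) (nat_lit 187) (.e (nat_lit 1074) (nat_lit 81) (.e (nat_lit 1796) (nat_lit 119) (.e (nat_lit 516163) (nat_lit 11) (.e (nat_lit 442424) (nat_lit 22) (.e (nat_lit 196628) (nat_lit 9) .nil)))))))) (.g (nat_lit 0) .nil .nil)))) (.nd (nat_lit 4) 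
(.lf (nat_lit 12939) (.g (nat_lit 3746) (.e (nat_lit 968) (nat_lit 81) (.e (nat_lit 6710) (nat_lit 360) (.e (nat_lit 164237) (nat_lit 187) (.e (nat_lit 1077) (nat_lit 81) (.e (nat_lit 1796) (nat_lit 119) (.e (nat_lit 516163) (nat_lit 11) (.e (nat_lit 442424) (nat_lit 22) (.e (nat_lit 196628) (nat_lit 9) .nil)))))))) (.g (nat_lit 0) .nil .nil))) 
(.lf (nat_lit 12955) (.g (nat_lit 4329) (.e (nat_lit 968) (nat_lit 81) (.e (nat_lit 6721) (nat_lit 362) (.e (nat_lit 180244) (nat_lit 5) (.e (nat_lit 532523) (nat_lit 7) (.e (nat_lit 319539) (nat_lit 19) (.e (nat_lit 311312) (nat_lit 2) (.e (nat_lit 196628) (nat_lit 9) .nil))))))) (.g (nat_lit 0) .nil .nil))))) (.nd (nat_lit 3) (.nd (nat_lit 4) 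
(.lf (nat_lit 12935) (.g (nat_lit 3318) (.e (nat_lit 968) (nat_lit 81) (.e (nat_lit 6219) (nat_lit 333) (.e (nat_lit 57896) (nat_lit 273) (.e (nat_lit 57464) (nat_lit 23) (.e (nat_lit 516163) (nat_lit 11) (.e (nat_lit 442424) (nat_lit 22) (.e (nat_lit 196628) (nat_lit 9) .nil))))))) (.g (nat_lit 0) .nil .nil))) 
(.lf (nat_lit 12951) (.g (nat_lit 3690) (.e (nat_lit 968) (nat_lit 81) (.e (nat_lit 6716) (nat_lit 361) (.e (nat_lit 172067) (nat_lit 3) (.e (nat_lit 204885) (nat_lit 33) (.e (nat_lit 401448) (nat_lit 10) (.e (nat_lit 434219) (nat_lit 19) (.e (nat_lit 499965) (nat_lit 14) .nil))))))) (.g (nat_lit 0) .nil .nil)))) (.nd (nat_lit 4) 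
(.lf (nat_lit 12943) (.g (nat_lit 4078) (.e (nat_lit 968) (nat_lit 81) (.e (nat_lit 6711) (nat_lit 360) (.e (nat_lit 164237) (nat_lit 187) (.e (nat_lit 1077) (nat_lit 81) (.e (nat_lit 1796) (nat_lit 119) (.e (nat_lit 516163) (nat_lit 11) (.e (nat_lit 442424) (nat_lit 22) (.e (nat_lit 196628) (nat_lit 9) .nil)))))))) (.g (nat_lit 0) .nil .nil))) 
(.lf (nat_lit 12959) (.g (nat_lit 1722) (.e (nat_lit 968) (nat_lit 81) (.e (nat_lit 7237) (nat_lit 382) (.e (nat_lit 1220) (nat_lit 90) (.e (nat_lit 81965) (nat_lit 26) (.e (nat_lit 147495) (nat_lit 11) .nil))))) .nil)))))))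

noncomputable def tv177 : DT := (.nd (nat_lit 0) (.nd (nat_lit 1) (.nd (nat_lit 2) (.nd (nat_lit 3) (.nd (nat_lit 4) 
(.lf (nat_lit 12960) (.g (nat_lit 2180) (.e (nat_lit 968) (nat_lit 81) (.e (nat_lit 7694) (nat_lit 412) (.e (nat_lit 57375) (nat_lit 2) (.e (nat_lit 90185) (nat_lit 17) (.e (nat_lit 237594) (nat_lit 3) (.e (nat_lit 204809) (nat_lit 9) (.e (nat_lit 426139) (nat_lit 3) (.e (nat_lit 204819) (nat_lit 17) .nil)))))))) (.g (nat_lit 4) .nil .nil))) 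
(.lf (nat_lit 12976) (.g (nat_lit 5034) (.e (nat_lit 970) (nat_lit 81) (.e (nat_lit 5954) (nat_lit 322) (.e (nat_lit 57347) (nat_lit 0) (.e (nat_lit 2031) (nat_lit 140) (.e (nat_lit 688177) (nat_lit 16) (.e (nat_lit 65586) (nat_lit 7) (.e (nat_lit 319531) (nat_lit 16) (.e (nat_lit 286748) (nat_lit 9) (.e (nat_lit 335891) (nat_lit 0) .nil))))))))) (.g (nat_lit 9) .nil .nil)))) (.nd (nat_lit 4) 
(.lf (nat_lit 12968) (.g (nat_lit 3809) (.e (nat_lit 970) (nat_lit 81) (.e (nat_lit 5954) (nat_lit 322) (.e (nat_lit 57345) (nat_lit 0) (.e (nat_lit 2031) (nat_lit 140) (.e (nat_lit 688177) (nat_lit 16) (.e (nat_lit 65583) (nat_lit 7) (.e (nat_lit 319530) (nat_lit 16) (.e (nat_lit 286748) (nat_lit 9) (.e (nat_lit 335891) (nat_lit 0) .nil))))))))) (.g (nat_lit 8) .nil .nil))) 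
(.lf (nat_lit 12984) (.g (nat_lit 4077) (.e (nat_lit 970) (nat_lit 81) (.e (nat_lit 5954) (nat_lit 322) (.e (nat_lit 57355) (nat_lit 0) (.e (nat_lit 1858) (nat_lit 124) (.e (nat_lit 557100) (nat_lit 13) (.e (nat_lit 172106) (nat_lit 10) (.e (nat_lit 434231) (nat_lit 23) (.e (nat_lit 532535) (nat_lit 9) (.e (nat_lit 335905) (nat_lit 0) .nil))))))))) (.g (nat_lit 8) .nil .nil))))) 
(.nd (nat_lit 3) (.nd (nat_lit 4) 
(.lf (nat_lit 12964) (.g (nat_lit 1428) (.e (nat_lit 970) (nat_lit 81) (.e (nat_lit 1487) (nat_lit 108) (.e (nat_lit 336012) (nat_lit 2) (.e (nat_lit 90176) (nat_lit 15) (.e (nat_lit 188450) (nat_lit 23) .nil))))) .nil)) 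
(.lf (nat_lit 12980) (.g (nat_lit 3756) (.e (nat_lit 970) (nat_lit 81) (.e (nat_lit 5954) (nat_lit 322) (.e (nat_lit 57349) (nat_lit 0) (.e (nat_lit 2031) (nat_lit 140) (.e (nat_lit 688177) (nat_lit 16) (.e (nat_lit 65586) (nat_lit 7) (.e (nat_lit 319531) (nat_lit 16) (.e (nat_lit 286748) (nat_lit 9) (.e (nat_lit 335891) (nat_lit 0) .nil))))))))) (.g (nat_lit 8) .nil .nil)))) (.nd (nat_lit 4) 
(.lf (nat_lit 12972) (.g (nat_lit 4538) (.e (nat_lit 970) (nat_lit 81) (.e (nat_lit 5954) (nat_lit 322) (.e (nat_lit 57347) (nat_lit 0) (.e (nat_lit 2031) (nat_lit 140) (.e (nat_lit 688177) (nat_lit 16) (.e (nat_lit 65583) (nat_lit 7) (.e (nat_lit 319530) (nat_lit 16) (.e (nat_lit 286748) (nat_lit 9) (.e (nat_lit 335891) (nat_lit 0) .nil))))))))) (.g (nat_lit 8) .nil .nil))) 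
(.lf (nat_lit 12988) (.g (nat_lit 2190) (.e (nat_lit 970) (nat_lit 81) (.e (nat_lit 5954) (nat_lit 322) (.e (nat_lit 57424) (nat_lit 14) (.e (nat_lit 352270) (nat_lit 8) (.e (nat_lit 270080) (nat_lit 6) (.e (nat_lit 81928) (nat_lit 20) .nil)))))) (.g (nat_lit 4) .nil .nil)))))) (.nd (nat_lit 2) (.nd (nat_lit 3) (.nd (nat_lit 4) 
(.lf (nat_lit 12962) (.g (nat_lit 3954) (.e (nat_lit 969) (nat_lit 81) (.e (nat_lit 5270) (nat_lit 298) (.e (nat_lit 1239) (nat_lit 91) (.e (nat_lit 90170) (nat_lit 13) (.e (nat_lit 172106) (nat_lit 10) (.e (nat_lit 434244) (nat_lit 28) (.e (nat_lit 573468) (nat_lit 10) (.e (nat_lit 8490) (nat_lit 180) .nil)))))))) (.g (nat_lit 6) .nil .nil))) 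
(.lf (nat_lit 12978) (.g (nat_lit 5535) (.e (nat_lit 970) (nat_lit 81) (.e (nat_lit 5954) (nat_lit 322) (.e (nat_lit 57347) (nat_lit 0) (.e (nat_lit 2031) (nat_lit 140) (.e (nat_lit 688177) (nat_lit 16) (.e (nat_lit 65586) (nat_lit 7) (.e (nat_lit 319531) (nat_lit 16) (.e (nat_lit 286748) (nat_lit 9) (.e (nat_lit 335907) (nat_lit 0) .nil))))))))) (.g (nat_lit 9) .nil .nil)))) (.nd (nat_lit 4) 
(.lf (nat_lit 12970) (.g (nat_lit 4746) (.e (nat_lit 970) (nat_lit 81) (.e (nat_lit 5954) (nat_lit 322) (.e (nat_lit 57345) (nat_lit 0) (.e (nat_lit 2031) (nat_lit 140) (.e (nat_lit 688177) (nat_lit 16) (.e (nat_lit 65586) (nat_lit 7) (.e (nat_lit 319531) (nat_lit 16) (.e (nat_lit 286748) (nat_lit 9) (.e (nat_lit 335905) (nat_lit 0) .nil))))))))) (.g (nat_lit 9) .nil .nil))) 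
(.lf (nat_lit 12986) (.g (nat_lit 2789) (.e (nat_lit 970) (nat_lit 81) (.e (nat_lit 5954) (nat_lit 322) (.e (nat_lit 57357) (nat_lit 0) (.e (nat_lit 1858) (nat_lit 124) (.e (nat_lit 557100) (nat_lit 13) (.e (nat_lit 172106) (nat_lit 10) (.e (nat_lit 434231) (nat_lit 23) (.e (nat_lit 532535) (nat_lit 9) (.e (nat_lit 335908) (nat_lit 0) .nil))))))))) (.g (nat_lit 6) .nil .nil))))) 
(.nd (nat_lit 3) (.nd (nat_lit 4) 
(.lf (nat_lit 12966) (.g (nat_lit 2220) (.e (nat_lit 970) (nat_lit 81) (.e (nat_lit 5954) (nat_lit 322) (.e (nat_lit 57345) (nat_lit 0) (.e (nat_lit 1860) (nat_lit 124) (.e (nat_lit 557100) (nat_lit 13) (.e (nat_lit 172106) (nat_lit 10) (.e (nat_lit 434231) (nat_lit 23) (.e (nat_lit 532535) (nat_lit 9) (.e (nat_lit 335905) (nat_lit 0) .nil))))))))) (.g (nat_lit 5) .nil .nil))) 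
(.lf (nat_lit 12982) (.g (nat_lit 2097) (.e (nat_lit 970) (nat_lit 81) (.e (nat_lit 5954) (nat_lit 322) (.e (nat_lit 57354) (nat_lit 0) (.e (nat_lit 1855) (nat_lit 124) (.e (nat_lit 557100) (nat_lit 13) (.e (nat_lit 172106) (nat_lit 10) (.e (nat_lit 434231) (nat_lit 23) (.e (nat_lit 532535) (nat_lit 9) (.e (nat_lit 335908) (nat_lit 0) .nil))))))))) (.g (nat_lit 4) .nil .nil)))) (.nd (nat_lit 4) 
(.lf (nat_lit 12974) (.g (nat_lit 4429) (.e (nat_lit 970) (nat_lit 81) (.e (nat_lit 5954) (nat_lit 322) (.e (nat_lit 57347) (nat_lit 0) (.e (nat_lit 2031) (nat_lit 140) (.e (nat_lit 688177) (nat_lit 16) (.e (nat_lit 65583) (nat_lit 7) (.e (nat_lit 319530) (nat_lit 16) (.e (nat_lit 286748) (nat_lit 9) (.e (nat_lit 335907) (nat_lit 0) .nil))))))))) (.g (nat_lit 8) .nil .nil))) 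
(.lf (nat_lit 12990) (.g (nat_lit 2185) (.e (nat_lit 970) (nat_lit 81) (.e (nat_lit 5954) (nat_lit 322) (.e (nat_lit 57424) (nat_lit 14) (.e (nat_lit 352318) (nat_lit 24) (.e (nat_lit 123182) (nat_lit 264) .nil))))) .nil)))))) (.nd (nat_lit 1) (.nd (nat_lit 2) (.nd (nat_lit 3) (.nd (nat_lit 4) 
(.lf (nat_lit 12961) (.g (nat_lit 4088) (.e (nat_lit 969) (nat_lit 81) (.e (nat_lit 5270) (nat_lit 298) (.e (nat_lit 1239) (nat_lit 91) (.e (nat_lit 90170) (nat_lit 13) (.e (nat_lit 172106) (nat_lit 10) (.e (nat_lit 434231) (nat_lit 23) (.e (nat_lit 532482) (nat_lit 0) (.e (nat_lit 6152) (nat_lit 332) .nil)))))))) (.g (nat_lit 6) .nil .nil))) 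
(.lf (nat_lit 12977) (.g (nat_lit 5491) (.e (nat_lit 970) (nat_lit 81) (.e (nat_lit 5954) (nat_lit 322) (.e (nat_lit 57347) (nat_lit 0) (.e (nat_lit 2031) (nat_lit 140) (.e (nat_lit 688177) (nat_lit 16) (.e (nat_lit 65586) (nat_lit 7) (.e (nat_lit 319531) (nat_lit 16) (.e (nat_lit 286748) (nat_lit 9) (.e (nat_lit 335905) (nat_lit 0) .nil))))))))) (.g (nat_lit 9) .nil .nil)))) (.nd (nat_lit 4) 
(.lf (nat_lit 12969) (.g (nat_lit 4292) (.e (nat_lit 970) (nat_lit 81) (.e (nat_lit 5954) (nat_lit 322) (.e (nat_lit 57345) (nat_lit 0) (.e (nat_lit 2031) (nat_lit 140) (.e (nat_lit 688177) (nat_lit 16) (.e (nat_lit 65586) (nat_lit 7) (.e (nat_lit 319531) (nat_lit 16) (.e (nat_lit 286748) (nat_lit 9) (.e (nat_lit 335891) (nat_lit 0) .nil))))))))) (.g (nat_lit 9) .nil .nil))) 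
(.lf (nat_lit 12985) (.g (nat_lit 3844) (.e (nat_lit 970) (nat_lit 81) (.e (nat_lit 5954) (nat_lit 322) (.e (nat_lit 57355) (nat_lit 0) (.e (nat_lit 1858) (nat_lit 124) (.e (nat_lit 557100) (nat_lit 13) (.e (nat_lit 172106) (nat_lit 10) (.e (nat_lit 434231) (nat_lit 23) (.e (nat_lit 532535) (nat_lit 9) (.e (nat_lit 335908) (nat_lit 0) .nil))))))))) (.g (nat_lit 9) .nil .nil))))) 
(.nd (nat_lit 3) (.nd (nat_lit 4) 
(.lf (nat_lit 12965) (.g (nat_lit 2015) (.e (nat_lit 970) (nat_lit 81) (.e (nat_lit 5355) (nat_lit 298) (.e (nat_lit 1661) (nat_lit 115) (.e (nat_lit 393260) (nat_lit 21) (.e (nat_lit 409643) (nat_lit 18) (.e (nat_lit 303149) (nat_lit 15) (.e (nat_lit 6112) (nat_lit 332) .nil))))))) (.g (nat_lit 4) .nil .nil))) 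
(.lf (nat_lit 12981) (.g (nat_lit 4213) (.e (nat_lit 970) (nat_lit 81) (.e (nat_lit 5954) (nat_lit 322) (.e (nat_lit 57349) (nat_lit 0) (.e (nat_lit 2031) (nat_lit 140) (.e (nat_lit 688177) (nat_lit 16) (.e (nat_lit 65586) (nat_lit 7) (.e (nat_lit 319531) (nat_lit 16) (.e (nat_lit 286748) (nat_lit 9) (.e (nat_lit 335905) (nat_lit 0) .nil))))))))) (.g (nat_lit 8) .nil .nil)))) (.nd (nat_lit 4) 
(.lf (nat_lit 12973) (.g (nat_lit 4470) (.e (nat_lit 970) (nat_lit 81) (.e (nat_lit 5954) (nat_lit 322) (.e (nat_lit 57347) (nat_lit 0) (.e (nat_lit 2031) (nat_lit 140) (.e (nat_lit 688177) (nat_lit 16) (.e (nat_lit 65583) (nat_lit 7) (.e (nat_lit 319530) (nat_lit 16) (.e (nat_lit 286748) (nat_lit 9) (.e (nat_lit 335905) (nat_lit 0) .nil))))))))) (.g (nat_lit 8) .nil .nil))) 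
(.lf (nat_lit 12989) (.g (nat_lit 2186) (.e (nat_lit 970) (nat_lit 81) (.e (nat_lit 5954) (nat_lit 322) (.e (nat_lit 57424) (nat_lit 14) (.e (nat_lit 352270) (nat_lit 8) (.e (nat_lit 270080) (nat_lit 6) (.e (nat_lit 81933) (nat_lit 20) .nil)))))) (.g (nat_lit 4) .nil .nil)))))) (.nd (nat_lit 2) (.nd (nat_lit 3) (.nd (nat_lit 4) 
(.lf (nat_lit 12963) (.g (nat_lit 1706) (.e (nat_lit 969) (nat_lit 81) (.e (nat_lit 5355) (nat_lit 298) (.e (nat_lit 1661) (nat_lit 115) (.e (nat_lit 393260) (nat_lit 21) (.e (nat_lit 409648) (nat_lit 18) .nil))))) .nil)) 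
(.lf (nat_lit 12979) (.g (nat_lit 1850) (.e (nat_lit 970) (nat_lit 81) (.e (nat_lit 5954) (nat_lit 322) (.e (nat_lit 57349) (nat_lit 0) (.e (nat_lit 1860) (nat_lit 124) (.e (nat_lit 557100) (nat_lit 13) (.e (nat_lit 172106) (nat_lit 10) (.e (nat_lit 434231) (nat_lit 23) (.e (nat_lit 532535) (nat_lit 9) (.e (nat_lit 335886) (nat_lit 0) .nil))))))))) (.g (nat_lit 5) .nil .nil)))) (.nd (nat_lit 4) 
(.lf (nat_lit 12971) (.g (nat_lit 4149) (.e (nat_lit 970) (nat_lit 81) (.e (nat_lit 5954) (nat_lit 322) (.e (nat_lit 57345) (nat_lit 0) (.e (nat_lit 2031) (nat_lit 140) (.e (nat_lit 688177) (nat_lit 16) (.e (nat_lit 65586) (nat_lit 7) (.e (nat_lit 319531) (nat_lit 16) (.e (nat_lit 286748) (nat_lit 9) (.e (nat_lit 335908) (nat_lit 0) .nil))))))))) (.g (nat_lit 8) .nil .nil))) 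
(.lf (nat_lit 12987) (.g (nat_lit 1556) (.e (nat_lit 970) (nat_lit 81) (.e (nat_lit 5954) (nat_lit 322) (.e (nat_lit 57424) (nat_lit 14) (.e (nat_lit 352270) (nat_lit 8) .nil)))) .nil)))) (.nd (nat_lit 3) (.nd (nat_lit 4) 
(.lf (nat_lit 12967) (.g (nat_lit 2017) (.e (nat_lit 970) (nat_lit 81) (.e (nat_lit 5954) (nat_lit 322) (.e (nat_lit 57345) (nat_lit 0) (.e (nat_lit 1860) (nat_lit 124) (.e (nat_lit 557100) (nat_lit 13) (.e (nat_lit 172106) (nat_lit 10) (.e (nat_lit 434231) (nat_lit 23) (.e (nat_lit 532535) (nat_lit 9) (.e (nat_lit 335908) (nat_lit 0) .nil))))))))) (.g (nat_lit 5) .nil .nil))) 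
(.lf (nat_lit 12983) (.g (nat_lit 3071) (.e (nat_lit 970) (nat_lit 81) (.e (nat_lit 5954) (nat_lit 322) (.e (nat_lit 57355) (nat_lit 0) (.e (nat_lit 1858) (nat_lit 124) (.e (nat_lit 557100) (nat_lit 13) (.e (nat_lit 172106) (nat_lit 10) (.e (nat_lit 434231) (nat_lit 23) (.e (nat_lit 532535) (nat_lit 9) (.e (nat_lit 335886) (nat_lit 0) .nil))))))))) (.g (nat_lit 7) .nil .nil)))) (.nd (nat_lit 4) 
(.lf (nat_lit 12975) (.g (nat_lit 5479) (.e (nat_lit 970) (nat_lit 81) (.e (nat_lit 5954) (nat_lit 322) (.e (nat_lit 57347) (nat_lit 0) (.e (nat_lit 2031) (nat_lit 140) (.e (nat_lit 688177) (nat_lit 16) (.e (nat_lit 65586) (nat_lit 7) (.e (nat_lit 319531) (nat_lit 16) (.e (nat_lit 286748) (nat_lit 9) (.e (nat_lit 335889) (nat_lit 0) .nil))))))))) (.g (nat_lit 9) .nil .nil))) 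
(.lf (nat_lit 12991) (.g (nat_lit 2259) (.e (nat_lit 970) (nat_lit 81) (.e (nat_lit 5954) (nat_lit 322) (.e (nat_lit 57424) (nat_lit 14) (.e (nat_lit 352318) (nat_lit 24) (.e (nat_lit 123182) (nat_lit 264) (.e (nat_lit 1222) (nat_lit 90) (.e (nat_lit 81931) (nat_lit 20) .nil))))))) (.g (nat_lit 4) .nil .nil))))))))

noncomputable def tv178 : DT := (.nd (nat_lit 0) (.nd (nat_lit 1) (.nd (nat_lit 2) (.nd (nat_lit 3) (.nd (nat_lit 4) (.nd (nat_lit 5) 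
(.lf (nat_lit 12992) (.g (nat_lit 2299) (.e (nat_lit 970) (nat_lit 81) (.e (nat_lit 5954) (nat_lit 322) (.e (nat_lit 57424) (nat_lit 14) (.e (nat_lit 352318) (nat_lit 24) (.e (nat_lit 123182) (nat_lit 264) (.e (nat_lit 1222) (nat_lit 90) (.e (nat_lit 81934) (nat_lit 20) .nil))))))) (.g (nat_lit 4) .nil .nil))) 
(.lf (nat_lit 13024) (.g (nat_lit 4127) (.e (nat_lit 970) (nat_lit 81) (.e (nat_lit 6202) (nat_lit 332) (.e (nat_lit 2798) (nat_lit 180) (.e (nat_lit 303119) (nat_lit 3) (.e (nat_lit 204863) (nat_lit 27) (.e (nat_lit 344068) (nat_lit 0) (.e (nat_lit 2664) (nat_lit 167) (.e (nat_lit 196628) (nat_lit 9) .nil)))))))) (.g (nat_lit 8) .nil .nil)))) (.nd (nat_lit 5) 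
(.lf (nat_lit 13008) (.g (nat_lit 1237) (.e (nat_lit 970) (nat_lit 81) (.e (nat_lit 5954) (nat_lit 322) (.e (nat_lit 57427) (nat_lit 15) (.e (nat_lit 360455) (nat_lit 0) .nil)))) .nil)) 
(.lf (nat_lit 13040) (.g (nat_lit 3806) (.e (nat_lit 970) (nat_lit 81) (.e (nat_lit 6713) (nat_lit 360) (.e (nat_lit 164237) (nat_lit 187) (.e (nat_lit 1077) (nat_lit 81) (.e (nat_lit 1796) (nat_lit 119) (.e (nat_lit 516163) (nat_lit 11) (.e (nat_lit 442424) (nat_lit 22) (.e (nat_lit 196628) (nat_lit 9) .nil)))))))) (.g (nat_lit 0) .nil .nil))))) (.nd (nat_lit 4) (.nd (nat_lit 5) 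
(.lf (nat_lit 13000) (.g (nat_lit 2600) (.e (nat_lit 970) (nat_lit 81) (.e (nat_lit 5954) (nat_lit 322) (.e (nat_lit 57424) (nat_lit 14) (.e (nat_lit 352318) (nat_lit 24) (.e (nat_lit 123185) (nat_lit 264) (.e (nat_lit 1222) (nat_lit 90) (.e (nat_lit 81928) (nat_lit 20) .nil))))))) (.g (nat_lit 4) .nil .nil))) 
(.lf (nat_lit 13032) (.g (nat_lit 4096) (.e (nat_lit 970) (nat_lit 81) (.e (nat_lit 6711) (nat_lit 360) (.e (nat_lit 164236) (nat_lit 187) (.e (nat_lit 1077) (nat_lit 81) (.e (nat_lit 1796) (nat_lit 119) (.e (nat_lit 516163) (nat_lit 11) (.e (nat_lit 442424) (nat_lit 22) (.e (nat_lit 196628) (nat_lit 9) .nil)))))))) (.g (nat_lit 0) .nil .nil)))) (.nd (nat_lit 5) 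
(.lf (nat_lit 13016) (.g (nat_lit 3336) (.e (nat_lit 970) (nat_lit 81) (.e (nat_lit 6202) (nat_lit 332) (.e (nat_lit 1079) (nat_lit 81) (.e (nat_lit 5270) (nat_lit 298) (.e (nat_lit 1256) (nat_lit 92) (.e (nat_lit 98370) (nat_lit 28) (.e (nat_lit 442424) (nat_lit 22) (.e (nat_lit 196628) (nat_lit 9) .nil)))))))) (.g (nat_lit 8) .nil .nil))) 
(.lf (nat_lit 13048) (.g (nat_lit 4873) (.e (nat_lit 970) (nat_lit 81) (.e (nat_lit 6721) (nat_lit 362) (.e (nat_lit 180244) (nat_lit 5) (.e (nat_lit 532523) (nat_lit 7) (.e (nat_lit 319538) (nat_lit 19) (.e (nat_lit 311312) (nat_lit 2) (.e (nat_lit 196628) (nat_lit 9) .nil))))))) (.g (nat_lit 0) .nil .nil)))))) (.nd (nat_lit 3) (.nd (nat_lit 4) (.nd (nat_lit 5) 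
(.lf (nat_lit 12996) (.g (nat_lit 4457) (.e (nat_lit 970) (nat_lit 81) (.e (nat_lit 5954) (nat_lit 322) (.e (nat_lit 57424) (nat_lit 14) (.e (nat_lit 352318) (nat_lit 24) (.e (nat_lit 123184) (nat_lit 264) (.e (nat_lit 1222) (nat_lit 90) (.e (nat_lit 81935) (nat_lit 20) .nil))))))) (.g (nat_lit 0) .nil .nil))) 
(.lf (nat_lit 13028) (.g (nat_lit 1988) (.e (nat_lit 970) (nat_lit 81) (.e (nat_lit 6219) (nat_lit 333) (.e (nat_lit 57900) (nat_lit 276) (.e (nat_lit 122936) (nat_lit 23) (.e (nat_lit 516176) (nat_lit 14) (.e (nat_lit 466976) (nat_lit 22) (.e (nat_lit 196628) (nat_lit 9) .nil))))))) (.g (nat_lit 6) .nil .nil)))) (.nd (nat_lit 5) 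
(.lf (nat_lit 13012) (.g (nat_lit 1783) (.e (nat_lit 970) (nat_lit 81) (.e (nat_lit 5954) (nat_lit 322) (.e (nat_lit 57427) (nat_lit 15) (.e (nat_lit 360486) (nat_lit 18) (.e (nat_lit 671764) (nat_lit 6) (.e (nat_lit 81935) (nat_lit 20) .nil)))))) (.g (nat_lit 4) .nil .nil))) 
(.lf (nat_lit 13044) (.g (nat_lit 4321) (.e (nat_lit 970) (nat_lit 81) (.e (nat_lit 6717) (nat_lit 361) (.e (nat_lit 172067) (nat_lit 3) (.e (nat_lit 204885) (nat_lit 33) (.e (nat_lit 401448) (nat_lit 10) (.e (nat_lit 434219) (nat_lit 19) (.e (nat_lit 499965) (nat_lit 14) .nil))))))) (.g (nat_lit 6) .nil .nil))))) (.nd (nat_lit 4) (.nd (nat_lit 5) 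
(.lf (nat_lit 13004) (.g (nat_lit 382) (.e (nat_lit 970) (nat_lit 81) (.e (nat_lit 5954) (nat_lit 322) (.e (nat_lit 57427) (nat_lit 15) .nil))) .nil)) 
(.lf (nat_lit 13036) (.g (nat_lit 4078) (.e (nat_lit 970) (nat_lit 81) (.e (nat_lit 6713) (nat_lit 360) (.e (nat_lit 164236) (nat_lit 187) (.e (nat_lit 1074) (nat_lit 81) (.e (nat_lit 1796) (nat_lit 119) (.e (nat_lit 516163) (nat_lit 11) (.e (nat_lit 442424) (nat_lit 22) (.e (nat_lit 196628) (nat_lit 9) .nil)))))))) (.g (nat_lit 0) .nil .nil)))) (.nd (nat_lit 5) 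
(.lf (nat_lit 13020) (.g (nat_lit 1849) (.e (nat_lit 970) (nat_lit 81) (.e (nat_lit 6202) (nat_lit 332) (.e (nat_lit 2798) (nat_lit 180) (.e (nat_lit 303119) (nat_lit 3) (.e (nat_lit 204850) (nat_lit 26) .nil))))) .nil)) 
(.lf (nat_lit 13052) (.g (nat_lit 1831) (.e (nat_lit 971) (nat_lit 81) (.e (nat_lit 5355) (nat_lit 298) (.e (nat_lit 1661) (nat_lit 115) (.e (nat_lit 393260) (nat_lit 21) (.e (nat_lit 409649) (nat_lit 18) .nil))))) .nil)))))) (.nd (nat_lit 2) (.nd (nat_lit 3) (.nd (nat_lit 4) (.nd (nat_lit 5) 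
(.lf (nat_lit 12994) (.g (nat_lit 2175) (.e (nat_lit 970) (nat_lit 81) (.e (nat_lit 5954) (nat_lit 322) (.e (nat_lit 57424) (nat_lit 14) (.e (nat_lit 352318) (nat_lit 24) (.e (nat_lit 123184) (nat_lit 264) .nil))))) .nil)) 
(.lf (nat_lit 13026) (.g (nat_lit 2841) (.e (nat_lit 970) (nat_lit 81) (.e (nat_lit 6219) (nat_lit 333) (.e (nat_lit 57876) (nat_lit 270) (.e (nat_lit 1256) (nat_lit 92) (.e (nat_lit 98370) (nat_lit 28) (.e (nat_lit 442424) (nat_lit 22) (.e (nat_lit 196628) (nat_lit 9) .nil))))))) (.g (nat_lit 0) .nil .nil)))) (.nd (nat_lit 5) 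
(.lf (nat_lit 13010) (.g (nat_lit 2174) (.e (nat_lit 970) (nat_lit 81) (.e (nat_lit 5954) (nat_lit 322) (.e (nat_lit 57427) (nat_lit 15) (.e (nat_lit 360486) (nat_lit 18) (.e (nat_lit 671764) (nat_lit 6) (.e (nat_lit 81931) (nat_lit 20) .nil)))))) (.g (nat_lit 4) .nil .nil))) 
(.lf (nat_lit 13042) (.g (nat_lit 4604) (.e (nat_lit 970) (nat_lit 81) (.e (nat_lit 6717) (nat_lit 361) (.e (nat_lit 172067) (nat_lit 3) (.e (nat_lit 204846) (nat_lit 24) (.e (nat_lit 319538) (nat_lit 19) (.e (nat_lit 311312) (nat_lit 2) (.e (nat_lit 196628) (nat_lit 9) .nil))))))) (.g (nat_lit 6) .nil .nil))))) (.nd (nat_lit 4) (.nd (nat_lit 5) 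
(.lf (nat_lit 13002) (.g (nat_lit 2561) (.e (nat_lit 970) (nat_lit 81) (.e (nat_lit 5954) (nat_lit 322) (.e (nat_lit 57424) (nat_lit 14) (.e (nat_lit 352318) (nat_lit 24) (.e (nat_lit 123198) (nat_lit 266) (.e (nat_lit 57424) (nat_lit 14) (.e (nat_lit 352281) (nat_lit 20) .nil))))))) (.g (nat_lit 4) .nil .nil))) 
(.lf (nat_lit 13034) (.g (nat_lit 3976) (.e (nat_lit 970) (nat_lit 81) (.e (nat_lit 6711) (nat_lit 360) (.e (nat_lit 164237) (nat_lit 187) (.e (nat_lit 1077) (nat_lit 81) (.e (nat_lit 1796) (nat_lit 119) (.e (nat_lit 516163) (nat_lit 11) (.e (nat_lit 442424) (nat_lit 22) (.e (nat_lit 196628) (nat_lit 9) .nil)))))))) (.g (nat_lit 0) .nil .nil)))) (.nd (nat_lit 5) 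
(.lf (nat_lit 13018) (.g (nat_lit 1676) (.e (nat_lit 970) (nat_lit 81) (.e (nat_lit 6202) (nat_lit 332) (.e (nat_lit 2797) (nat_lit 180) (.e (nat_lit 303119) (nat_lit 3) (.e (nat_lit 204855) (nat_lit 26) .nil))))) .nil)) 
(.lf (nat_lit 13050) (.g (nat_lit 2366) (.e (nat_lit 970) (nat_lit 81) (.e (nat_lit 6721) (nat_lit 362) (.e (nat_lit 180244) (nat_lit 5) (.e (nat_lit 532525) (nat_lit 8) (.e (nat_lit 327718) (nat_lit 19) (.e (nat_lit 311312) (nat_lit 2) (.e (nat_lit 196628) (nat_lit 9) .nil))))))) (.g (nat_lit 6) .nil .nil)))))) (.nd (nat_lit 3) (.nd (nat_lit 4) (.nd (nat_lit 5) 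
(.lf (nat_lit 12998) (.g (nat_lit 2370) (.e (nat_lit 970) (nat_lit 81) (.e (nat_lit 5954) (nat_lit 322) (.e (nat_lit 57424) (nat_lit 14) (.e (nat_lit 352318) (nat_lit 24) (.e (nat_lit 123184) (nat_lit 264) (.e (nat_lit 7936) (nat_lit 90) (.e (nat_lit 81935) (nat_lit 20) .nil))))))) (.g (nat_lit 4) .nil .nil))) 
(.lf (nat_lit 13030) (.g (nat_lit 4187) (.e (nat_lit 970) (nat_lit 81) (.e (nat_lit 6711) (nat_lit 360) (.e (nat_lit 164236) (nat_lit 187) (.e (nat_lit 1074) (nat_lit 81) (.e (nat_lit 1796) (nat_lit 119) (.e (nat_lit 516163) (nat_lit 11) (.e (nat_lit 442424) (nat_lit 22) (.e (nat_lit 196628) (nat_lit 9) .nil)))))))) (.g (nat_lit 0) .nil .nil)))) (.nd (nat_lit 5) 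
(.lf (nat_lit 13014) (.g (nat_lit 1500) (.e (nat_lit 970) (nat_lit 81) (.e (nat_lit 5954) (nat_lit 322) (.e (nat_lit 57436) (nat_lit 17) (.e (nat_lit 376835) (nat_lit 0) (.e (nat_lit 3746) (nat_lit 228) .nil))))) .nil)) 
(.lf (nat_lit 13046) (.g (nat_lit 4425) (.e (nat_lit 970) (nat_lit 81) (.e (nat_lit 6721) (nat_lit 362) (.e (nat_lit 180244) (nat_lit 5) (.e (nat_lit 532523) (nat_lit 7) (.e (nat_lit 319505) (nat_lit 10) (.e (nat_lit 5714) (nat_lit 312) (.e (nat_lit 2664) (nat_lit 167) (.e (nat_lit 196628) (nat_lit 9) .nil)))))))) (.g (nat_lit 0) .nil .nil))))) (.nd (nat_lit 4) (.nd (nat_lit 5) 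
(.lf (nat_lit 13006) (.g (nat_lit 1911) (.e (nat_lit 970) (nat_lit 81) (.e (nat_lit 5954) (nat_lit 322) (.e (nat_lit 57427) (nat_lit 15) (.e (nat_lit 360450) (nat_lit 0) (.e (nat_lit 5898) (nat_lit 320) (.e (nat_lit 7936) (nat_lit 90) (.e (nat_lit 81931) (nat_lit 20) .nil))))))) (.g (nat_lit 4) .nil .nil))) 
(.lf (nat_lit 13038) (.g (nat_lit 3976) (.e (nat_lit 970) (nat_lit 81) (.e (nat_lit 6713) (nat_lit 360) (.e (nat_lit 164236) (nat_lit 187) (.e (nat_lit 1077) (nat_lit 81) (.e (nat_lit 1796) (nat_lit 119) (.e (nat_lit 516163) (nat_lit 11) (.e (nat_lit 442424) (nat_lit 22) (.e (nat_lit 196628) (nat_lit 9) .nil)))))))) (.g (nat_lit 0) .nil .nil)))) (.nd (nat_lit 5) 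
(.lf (nat_lit 13022) (.g (nat_lit 1832) (.e (nat_lit 970) (nat_lit 81) (.e (nat_lit 6202) (nat_lit 332) (.e (nat_lit 2798) (nat_lit 180) (.e (nat_lit 303119) (nat_lit 3) (.e (nat_lit 204858) (nat_lit 26) .nil))))) .nil)) 
(.lf (nat_lit 13054) (.g (nat_lit 3764) (.e (nat_lit 972) (nat_lit 81) (.e (nat_lit 4810) (nat_lit 281) (.e (nat_lit 982) (nat_lit 81) (.e (nat_lit 1237) (nat_lit 91) (.e (nat_lit 90170) (nat_lit 13) (.e (nat_lit 172106) (nat_lit 10) (.e (nat_lit 434231) (nat_lit 23) (.e (nat_lit 532535) (nat_lit 9) (.e (nat_lit 335908) (nat_lit 0) .nil))))))))) (.g (nat_lit 0) .nil .nil)))))))) 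
(.nd (nat_lit 1) (.nd (nat_lit 2) (.nd (nat_lit 3) (.nd (nat_lit 4) (.nd (nat_lit 5) 
(.lf (nat_lit 12993) (.g (nat_lit 2357) (.e (nat_lit 970) (nat_lit 81) (.e (nat_lit 5954) (nat_lit 322) (.e (nat_lit 57424) (nat_lit 14) (.e (nat_lit 352318) (nat_lit 24) (.e (nat_lit 123183) (nat_lit 264) (.e (nat_lit 1222) (nat_lit 90) (.e (nat_lit 81933) (nat_lit 20) .nil))))))) (.g (nat_lit 4) .nil .nil))) 
(.lf (nat_lit 13025) (.g (nat_lit 4125) (.e (nat_lit 970) (nat_lit 81) (.e (nat_lit 6202) (nat_lit 332) (.e (nat_lit 2817) (nat_lit 181) (.e (nat_lit 311312) (nat_lit 2) (.e (nat_lit 196663) (nat_lit 13) (.e (nat_lit 65630) (nat_lit 14) (.e (nat_lit 401425) (nat_lit 2) (.e (nat_lit 196628) (nat_lit 9) .nil)))))))) (.g (nat_lit 7) .nil .nil)))) (.nd (nat_lit 5) 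
(.lf (nat_lit 13009) (.g (nat_lit 2113) (.e (nat_lit 970) (nat_lit 81) (.e (nat_lit 5954) (nat_lit 322) (.e (nat_lit 57427) (nat_lit 15) (.e (nat_lit 360486) (nat_lit 18) (.e (nat_lit 671764) (nat_lit 6) (.e (nat_lit 81928) (nat_lit 20) .nil)))))) (.g (nat_lit 4) .nil .nil))) 
(.lf (nat_lit 13041) (.g (nat_lit 4589) (.e (nat_lit 970) (nat_lit 81) (.e (nat_lit 6717) (nat_lit 361) (.e (nat_lit 172067) (nat_lit 3) (.e (nat_lit 204846) (nat_lit 24) (.e (nat_lit 319505) (nat_lit 10) (.e (nat_lit 5714) (nat_lit 312) (.e (nat_lit 2664) (nat_lit 167) (.e (nat_lit 196628) (nat_lit 9) .nil)))))))) (.g (nat_lit 8) .nil .nil))))) (.nd (nat_lit 4) (.nd (nat_lit 5) 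
(.lf (nat_lit 13001) (.g (nat_lit 2666) (.e (nat_lit 970) (nat_lit 81) (.e (nat_lit 5954) (nat_lit 322) (.e (nat_lit 57424) (nat_lit 14) (.e (nat_lit 352318) (nat_lit 24) (.e (nat_lit 123197) (nat_lit 266) (.e (nat_lit 57424) (nat_lit 14) (.e (nat_lit 352285) (nat_lit 20) .nil))))))) (.g (nat_lit 4) .nil .nil))) 
(.lf (nat_lit 13033) (.g (nat_lit 4031) (.e (nat_lit 970) (nat_lit 81) (.e (nat_lit 6711) (nat_lit 360) (.e (nat_lit 164237) (nat_lit 187) (.e (nat_lit 1074) (nat_lit 81) (.e (nat_lit 1796) (nat_lit 119) (.e (nat_lit 516163) (nat_lit 11) (.e (nat_lit 442424) (nat_lit 22) (.e (nat_lit 196628) (nat_lit 9) .nil)))))))) (.g (nat_lit 0) .nil .nil)))) (.nd (nat_lit 5) 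
(.lf (nat_lit 13017) (.g (nat_lit 3671) (.e (nat_lit 970) (nat_lit 81) (.e (nat_lit 6202) (nat_lit 332) (.e (nat_lit 1079) (nat_lit 81) (.e (nat_lit 5394) (nat_lit 301) (.e (nat_lit 57464) (nat_lit 23) (.e (nat_lit 516163) (nat_lit 11) (.e (nat_lit 442424) (nat_lit 22) (.e (nat_lit 196628) (nat_lit 9) .nil)))))))) (.g (nat_lit 0) .nil .nil))) 
(.lf (nat_lit 13049) (.g (nat_lit 4197) (.e (nat_lit 970) (nat_lit 81) (.e (nat_lit 6721) (nat_lit 362) (.e (nat_lit 180244) (nat_lit 5) (.e (nat_lit 532523) (nat_lit 7) (.e (nat_lit 319539) (nat_lit 19) (.e (nat_lit 311312) (nat_lit 2) (.e (nat_lit 196628) (nat_lit 9) .nil))))))) (.g (nat_lit 0) .nil .nil)))))) (.nd (nat_lit 3) (.nd (nat_lit 4) (.nd (nat_lit 5) 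
(.lf (nat_lit 12997) (.g (nat_lit 3082) (.e (nat_lit 970) (nat_lit 81) (.e (nat_lit 5954) (nat_lit 322) (.e (nat_lit 57424) (nat_lit 14) (.e (nat_lit 352318) (nat_lit 24) (.e (nat_lit 123184) (nat_lit 264) (.e (nat_lit 1224) (nat_lit 90) (.e (nat_lit 81928) (nat_lit 20) .nil))))))) (.g (nat_lit 5) .nil .nil))) 
(.lf (nat_lit 13029) (.g (nat_lit 1754) (.e (nat_lit 970) (nat_lit 81) (.e (nat_lit 6616) (nat_lit 357) (.e (nat_lit 3071) (nat_lit 190) (.e (nat_lit 475185) (nat_lit 29) (.e (nat_lit 557107) (nat_lit 15) .nil))))) .nil))) (.nd (nat_lit 5) 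
(.lf (nat_lit 13013) (.g (nat_lit 382) (.e (nat_lit 970) (nat_lit 81) (.e (nat_lit 5954) (nat_lit 322) (.e (nat_lit 57436) (nat_lit 17) .nil))) .nil)) 
(.lf (nat_lit 13045) (.g (nat_lit 4059) (.e (nat_lit 970) (nat_lit 81) (.e (nat_lit 6721) (nat_lit 362) (.e (nat_lit 180244) (nat_lit 5) (.e (nat_lit 532523) (nat_lit 7) (.e (nat_lit 319504) (nat_lit 10) (.e (nat_lit 5714) (nat_lit 312) (.e (nat_lit 2664) (nat_lit 167) (.e (nat_lit 196628) (nat_lit 9) .nil)))))))) (.g (nat_lit 7) .nil .nil))))) (.nd (nat_lit 4) (.nd (nat_lit 5) 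
(.lf (nat_lit 13005) (.g (nat_lit 1831) (.e (nat_lit 970) (nat_lit 81) (.e (nat_lit 5954) (nat_lit 322) (.e (nat_lit 57427) (nat_lit 15) (.e (nat_lit 360450) (nat_lit 0) (.e (nat_lit 5898) (nat_lit 320) .nil))))) .nil)) 
(.lf (nat_lit 13037) (.g (nat_lit 1638) (.e (nat_lit 970) (nat_lit 81) (.e (nat_lit 6713) (nat_lit 360) (.e (nat_lit 164236) (nat_lit 187) (.e (nat_lit 1074) (nat_lit 81) (.e (nat_lit 1796) (nat_lit 119) (.e (nat_lit 516175) (nat_lit 14) (.e (nat_lit 466976) (nat_lit 22) (.e (nat_lit 196628) (nat_lit 9) .nil)))))))) (.g (nat_lit 6) .nil .nil)))) (.nd (nat_lit 5) 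
(.lf (nat_lit 13021) (.g (nat_lit 1557) (.e (nat_lit 970) (nat_lit 81) (.e (nat_lit 6202) (nat_lit 332) (.e (nat_lit 2798) (nat_lit 180) (.e (nat_lit 303119) (nat_lit 3) (.e (nat_lit 204855) (nat_lit 26) .nil))))) .nil)) 
(.lf (nat_lit 13053) (.g (nat_lit 3695) (.e (nat_lit 972) (nat_lit 81) (.e (nat_lit 4751) (nat_lit 281) (.e (nat_lit 1027) (nat_lit 81) (.e (nat_lit 1237) (nat_lit 91) (.e (nat_lit 90170) (nat_lit 13) (.e (nat_lit 172106) (nat_lit 10) (.e (nat_lit 434231) (nat_lit 23) (.e (nat_lit 532535) (nat_lit 9) (.e (nat_lit 335908) (nat_lit 0) .nil))))))))) (.g (nat_lit 8) .nil .nil))))))) 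
(.nd (nat_lit 2) (.nd (nat_lit 3) (.nd (nat_lit 4) (.nd (nat_lit 5) 
(.lf (nat_lit 12995) (.g (nat_lit 2187) (.e (nat_lit 970) (nat_lit 81) (.e (nat_lit 5954) (nat_lit 322) (.e (nat_lit 57424) (nat_lit 14) (.e (nat_lit 352318) (nat_lit 24) (.e (nat_lit 123184) (nat_lit 264) (.e (nat_lit 1222) (nat_lit 90) (.e (nat_lit 81934) (nat_lit 20) .nil))))))) (.g (nat_lit 4) .nil .nil))) 
(.lf (nat_lit 13027) (.g (nat_lit 3273) (.e (nat_lit 970) (nat_lit 81) (.e (nat_lit 6219) (nat_lit 333) (.e (nat_lit 57896) (nat_lit 273) (.e (nat_lit 57464) (nat_lit 23) (.e (nat_lit 516163) (nat_lit 11) (.e (nat_lit 442424) (nat_lit 22) (.e (nat_lit 196628) (nat_lit 9) .nil))))))) (.g (nat_lit 0) .nil .nil)))) (.nd (nat_lit 5) 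
(.lf (nat_lit 13011) (.g (nat_lit 1834) (.e (nat_lit 970) (nat_lit 81) (.e (nat_lit 5954) (nat_lit 322) (.e (nat_lit 57427) (nat_lit 15) (.e (nat_lit 360486) (nat_lit 18) (.e (nat_lit 671764) (nat_lit 6) (.e (nat_lit 81934) (nat_lit 20) .nil)))))) (.g (nat_lit 4) .nil .nil))) 
(.lf (nat_lit 13043) (.g (nat_lit 3979) (.e (nat_lit 970) (nat_lit 81) (.e (nat_lit 6717) (nat_lit 361) (.e (nat_lit 172067) (nat_lit 3) (.e (nat_lit 204885) (nat_lit 33) (.e (nat_lit 401446) (nat_lit 10) (.e (nat_lit 434219) (nat_lit 19) (.e (nat_lit 499965) (nat_lit 14) .nil))))))) (.g (nat_lit 6) .nil .nil))))) (.nd (nat_lit 4) (.nd (nat_lit 5) 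
(.lf (nat_lit 13003) (.g (nat_lit 2585) (.e (nat_lit 970) (nat_lit 81) (.e (nat_lit 5954) (nat_lit 322) (.e (nat_lit 57424) (nat_lit 14) (.e (nat_lit 352318) (nat_lit 24) (.e (nat_lit 123198) (nat_lit 266) (.e (nat_lit 57424) (nat_lit 14) (.e (nat_lit 352283) (nat_lit 20) .nil))))))) (.g (nat_lit 4) .nil .nil))) 
(.lf (nat_lit 13035) (.g (nat_lit 3746) (.e (nat_lit 970) (nat_lit 81) (.e (nat_lit 6713) (nat_lit 360) (.e (nat_lit 164235) (nat_lit 187) (.e (nat_lit 1074) (nat_lit 81) (.e (nat_lit 1796) (nat_lit 119) (.e (nat_lit 516163) (nat_lit 11) (.e (nat_lit 442424) (nat_lit 22) (.e (nat_lit 196628) (nat_lit 9) .nil)))))))) (.g (nat_lit 0) .nil .nil)))) (.nd (nat_lit 5) 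
(.lf (nat_lit 13019) (.g (nat_lit 796) (.e (nat_lit 970) (nat_lit 81) (.e (nat_lit 6202) (nat_lit 332) (.e (nat_lit 2798) (nat_lit 180) (.e (nat_lit 303117) (nat_lit 2) .nil)))) .nil)) 
(.lf (nat_lit 13051) (.g (nat_lit 3631) (.e (nat_lit 970) (nat_lit 81) (.e (nat_lit 6723) (nat_lit 362) (.e (nat_lit 180243) (nat_lit 5) (.e (nat_lit 532569) (nat_lit 16) (.e (nat_lit 401448) (nat_lit 10) (.e (nat_lit 434219) (nat_lit 19) (.e (nat_lit 499965) (nat_lit 14) .nil))))))) (.g (nat_lit 6) .nil .nil)))))) (.nd (nat_lit 3) (.nd (nat_lit 4) (.nd (nat_lit 5) 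
(.lf (nat_lit 12999) (.g (nat_lit 2537) (.e (nat_lit 970) (nat_lit 81) (.e (nat_lit 5954) (nat_lit 322) (.e (nat_lit 57424) (nat_lit 14) (.e (nat_lit 352318) (nat_lit 24) (.e (nat_lit 123185) (nat_lit 264) .nil))))) .nil)) 
(.lf (nat_lit 13031) (.g (nat_lit 1745) (.e (nat_lit 970) (nat_lit 81) (.e (nat_lit 6711) (nat_lit 360) (.e (nat_lit 164236) (nat_lit 187) (.e (nat_lit 1074) (nat_lit 81) (.e (nat_lit 1796) (nat_lit 119) (.e (nat_lit 516175) (nat_lit 14) (.e (nat_lit 466976) (nat_lit 22) (.e (nat_lit 196628) (nat_lit 9) .nil)))))))) (.g (nat_lit 6) .nil .nil)))) (.nd (nat_lit 5) 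
(.lf (nat_lit 13015) (.g (nat_lit 1407) (.e (nat_lit 970) (nat_lit 81) (.e (nat_lit 5954) (nat_lit 322) (.e (nat_lit 57436) (nat_lit 17) (.e (nat_lit 376859) (nat_lit 21) (.e (nat_lit 57872) (nat_lit 264) .nil))))) .nil)) 
(.lf (nat_lit 13047) (.g (nat_lit 3765) (.e (nat_lit 970) (nat_lit 81) (.e (nat_lit 6721) (nat_lit 362) (.e (nat_lit 180244) (nat_lit 5) (.e (nat_lit 532523) (nat_lit 7) (.e (nat_lit 319537) (nat_lit 19) (.e (nat_lit 311312) (nat_lit 2) (.e (nat_lit 196628) (nat_lit 9) .nil))))))) (.g (nat_lit 7) .nil .nil))))) (.nd (nat_lit 4) (.nd (nat_lit 5) 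
(.lf (nat_lit 13007) (.g (nat_lit 2253) (.e (nat_lit 970) (nat_lit 81) (.e (nat_lit 5954) (nat_lit 322) (.e (nat_lit 57427) (nat_lit 15) (.e (nat_lit 360450) (nat_lit 0) (.e (nat_lit 5898) (nat_lit 320) (.e (nat_lit 7936) (nat_lit 90) (.e (nat_lit 81935) (nat_lit 20) .nil))))))) (.g (nat_lit 4) .nil .nil))) 
(.lf (nat_lit 13039) (.g (nat_lit 3868) (.e (nat_lit 970) (nat_lit 81) (.e (nat_lit 6713) (nat_lit 360) (.e (nat_lit 164237) (nat_lit 187) (.e (nat_lit 1074) (nat_lit 81) (.e (nat_lit 1796) (nat_lit 119) (.e (nat_lit 516163) (nat_lit 11) (.e (nat_lit 442424) (nat_lit 22) (.e (nat_lit 196628) (nat_lit 9) .nil)))))))) (.g (nat_lit 0) .nil .nil)))) (.nd (nat_lit 5) 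
(.lf (nat_lit 13023) (.g (nat_lit 4396) (.e (nat_lit 970) (nat_lit 81) (.e (nat_lit 6202) (nat_lit 332) (.e (nat_lit 2798) (nat_lit 180) (.e (nat_lit 303119) (nat_lit 3) (.e (nat_lit 204859) (nat_lit 26) (.e (nat_lit 336206) (nat_lit 12) (.e (nat_lit 385074) (nat_lit 31) (.e (nat_lit 573454) (nat_lit 9) .nil)))))))) (.g (nat_lit 8) .nil .nil))) 
(.lf (nat_lit 13055) (.g (nat_lit 4738) (.e (nat_lit 972) (nat_lit 81) (.e (nat_lit 4810) (nat_lit 281) (.e (nat_lit 1039) (nat_lit 81) (.e (nat_lit 1234) (nat_lit 91) (.e (nat_lit 90170) (nat_lit 13) (.e (nat_lit 172106) (nat_lit 10) (.e (nat_lit 434231) (nat_lit 23) (.e (nat_lit 532535) (nat_lit 9) (.e (nat_lit 335908) (nat_lit 0) .nil))))))))) (.g (nat_lit 8) .nil .nil)))))))))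

noncomputable def tv179 : DT := (.nd (nat_lit 0) (.nd (nat_lit 1) (.nd (nat_lit 2) (.nd (nat_lit 3) (.nd (nat_lit 4) (.nd (nat_lit 5) 
(.lf (nat_lit 13056) (.g (nat_lit 4647) (.e (nat_lit 972) (nat_lit 81) (.e (nat_lit 4840) (nat_lit 283) (.e (nat_lit 57374) (nat_lit 2) (.e (nat_lit 90170) (nat_lit 13) (.e (nat_lit 172106) (nat_lit 10) (.e (nat_lit 434231) (nat_lit 23) (.e (nat_lit 532535) (nat_lit 9) (.e (nat_lit 335908) (nat_lit 0) .nil)))))))) (.g (nat_lit 7) .nil .nil))) 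
(.lf (nat_lit 13088) (.g (nat_lit 1793) (.e (nat_lit 973) (nat_lit 81) (.e (nat_lit 5954) (nat_lit 322) (.e (nat_lit 57427) (nat_lit 15) (.e (nat_lit 360486) (nat_lit 18) (.e (nat_lit 671764) (nat_lit 6) (.e (nat_lit 81931) (nat_lit 20) .nil)))))) (.g (nat_lit 4) .nil .nil)))) (.nd (nat_lit 5) 
(.lf (nat_lit 13072) (.g (nat_lit 1402) (.e (nat_lit 973) (nat_lit 81) (.e (nat_lit 4423) (nat_lit 261) (.e (nat_lit 163870) (nat_lit 2) (.e (nat_lit 196666) (nat_lit 13) (.e (nat_lit 65610) (nat_lit 10) .nil))))) .nil)) 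
(.lf (nat_lit 13104) (.g (nat_lit 4108) (.e (nat_lit 974) (nat_lit 81) (.e (nat_lit 1256) (nat_lit 92) (.e (nat_lit 98342) (nat_lit 20) (.e (nat_lit 221212) (nat_lit 22) (.e (nat_lit 196670) (nat_lit 14) (.e (nat_lit 73746) (nat_lit 3) (.e (nat_lit 516115) (nat_lit 1) (.e (nat_lit 164150) (nat_lit 152) .nil)))))))) (.g (nat_lit 0) .nil .nil))))) (.nd (nat_lit 4) (.nd (nat_lit 5) 
(.lf (nat_lit 13064) (.g (nat_lit 2196) (.e (nat_lit 972) (nat_lit 81) (.e (nat_lit 5954) (nat_lit 322) (.e (nat_lit 57424) (nat_lit 14) (.e (nat_lit 352318) (nat_lit 24) (.e (nat_lit 123182) (nat_lit 264) (.e (nat_lit 1222) (nat_lit 90) (.e (nat_lit 81931) (nat_lit 20) .nil))))))) (.g (nat_lit 4) .nil .nil))) 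
(.lf (nat_lit 13096) (.g (nat_lit 1959) (.e (nat_lit 974) (nat_lit 81) (.e (nat_lit 720) (nat_lit 64) (.e (nat_lit 688177) (nat_lit 16) (.e (nat_lit 65627) (nat_lit 13) (.e (nat_lit 393263) (nat_lit 22) .nil))))) .nil))) (.nd (nat_lit 5) 
(.lf (nat_lit 13080) (.g (nat_lit 2906) (.e (nat_lit 973) (nat_lit 81) (.e (nat_lit 5941) (nat_lit 322) (.e (nat_lit 57437) (nat_lit 17) (.e (nat_lit 376859) (nat_lit 21) (.e (nat_lit 57872) (nat_lit 264) (.e (nat_lit 1221) (nat_lit 90) (.e (nat_lit 81931) (nat_lit 20) .nil))))))) (.g (nat_lit 0) .nil .nil))) 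
(.lf (nat_lit 13112) (.g (nat_lit 2274) (.e (nat_lit 974) (nat_lit 81) (.e (nat_lit 1642) (nat_lit 114) (.e (nat_lit 385068) (nat_lit 26) (.e (nat_lit 532560) (nat_lit 14) (.e (nat_lit 376840) (nat_lit 11) .nil))))) .nil))))) (.nd (nat_lit 3) (.nd (nat_lit 4) (.nd (nat_lit 5) 
(.lf (nat_lit 13060) (.g (nat_lit 2681) (.e (nat_lit 972) (nat_lit 81) (.e (nat_lit 5345) (nat_lit 298) (.e (nat_lit 1238) (nat_lit 91) (.e (nat_lit 90176) (nat_lit 15) (.e (nat_lit 188450) (nat_lit 23) (.e (nat_lit 204821) (nat_lit 17) (.e (nat_lit 6114) (nat_lit 332) .nil))))))) (.g (nat_lit 0) .nil .nil))) 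
(.lf (nat_lit 13092) (.g (nat_lit 1115) (.e (nat_lit 974) (nat_lit 81) (.e (nat_lit 720) (nat_lit 64) (.e (nat_lit 688177) (nat_lit 16) (.e (nat_lit 65610) (nat_lit 10) .nil)))) .nil))) (.nd (nat_lit 5) 
(.lf (nat_lit 13076) (.g (nat_lit 4683) (.e (nat_lit 973) (nat_lit 81) (.e (nat_lit 4805) (nat_lit 281) (.e (nat_lit 1039) (nat_lit 81) (.e (nat_lit 1234) (nat_lit 91) (.e (nat_lit 90170) (nat_lit 13) (.e (nat_lit 172106) (nat_lit 10) (.e (nat_lit 434231) (nat_lit 23) (.e (nat_lit 532535) (nat_lit 9) (.e (nat_lit 335908) (nat_lit 0) .nil))))))))) (.g (nat_lit 8) .nil .nil))) 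
(.lf (nat_lit 13108) (.g (nat_lit 843) (.e (nat_lit 974) (nat_lit 81) (.e (nat_lit 1572) (nat_lit 110) (.e (nat_lit 352324) (nat_lit 26) (.e (nat_lit 147496) (nat_lit 11) .nil)))) .nil)))) (.nd (nat_lit 4) (.nd (nat_lit 5) 
(.lf (nat_lit 13068) (.g (nat_lit 1254) (.e (nat_lit 972) (nat_lit 81) (.e (nat_lit 5954) (nat_lit 322) (.e (nat_lit 57427) (nat_lit 15) (.e (nat_lit 360455) (nat_lit 0) .nil)))) .nil)) 
(.lf (nat_lit 13100) (.g (nat_lit 4436) (.e (nat_lit 974) (nat_lit 81) (.e (nat_lit 1239) (nat_lit 91) (.e (nat_lit 90170) (nat_lit 13) (.e (nat_lit 172106) (nat_lit 10) (.e (nat_lit 434231) (nat_lit 23) (.e (nat_lit 532544) (nat_lit 10) (.e (nat_lit 344096) (nat_lit 18) (.e (nat_lit 4761) (nat_lit 281) .nil)))))))) (.g (nat_lit 8) .nil .nil)))) (.nd (nat_lit 5) 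
(.lf (nat_lit 13084) (.g (nat_lit 3346) (.e (nat_lit 973) (nat_lit 81) (.e (nat_lit 5954) (nat_lit 322) (.e (nat_lit 57424) (nat_lit 14) (.e (nat_lit 352318) (nat_lit 24) (.e (nat_lit 123183) (nat_lit 264) (.e (nat_lit 1222) (nat_lit 90) (.e (nat_lit 81935) (nat_lit 20) .nil))))))) (.g (nat_lit 6) .nil .nil))) 
(.lf (nat_lit 13116) (.g (nat_lit 1826) (.e (nat_lit 974) (nat_lit 81) (.e (nat_lit 2031) (nat_lit 140) (.e (nat_lit 688177) (nat_lit 16) (.e (nat_lit 65586) (nat_lit 7) (.e (nat_lit 319533) (nat_lit 16) .nil))))) .nil)))))) (.nd (nat_lit 2) (.nd (nat_lit 3) (.nd (nat_lit 4) (.nd (nat_lit 5) 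
(.lf (nat_lit 13058) (.g (nat_lit 5053) (.e (nat_lit 972) (nat_lit 81) (.e (nat_lit 5345) (nat_lit 298) (.e (nat_lit 1237) (nat_lit 91) (.e (nat_lit 90170) (nat_lit 13) (.e (nat_lit 172106) (nat_lit 10) (.e (nat_lit 434231) (nat_lit 23) (.e (nat_lit 532490) (nat_lit 0) (.e (nat_lit 6114) (nat_lit 332) .nil)))))))) (.g (nat_lit 0) .nil .nil))) 
(.lf (nat_lit 13090) (.g (nat_lit 460) (.e (nat_lit 974) (nat_lit 81) (.e (nat_lit 720) (nat_lit 64) (.e (nat_lit 688177) (nat_lit 16) .nil))) .nil))) (.nd (nat_lit 5) 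
(.lf (nat_lit 13074) (.g (nat_lit 3991) (.e (nat_lit 973) (nat_lit 81) (.e (nat_lit 4491) (nat_lit 263) (.e (nat_lit 1190) (nat_lit 88) (.e (nat_lit 65568) (nat_lit 2) (.e (nat_lit 90170) (nat_lit 13) (.e (nat_lit 172106) (nat_lit 10) (.e (nat_lit 434231) (nat_lit 23) (.e (nat_lit 532480) (nat_lit 0) .nil)))))))) (.g (nat_lit 8) .nil .nil))) 
(.lf (nat_lit 13106) (.g (nat_lit 887) (.e (nat_lit 974) (nat_lit 81) (.e (nat_lit 1256) (nat_lit 92) (.e (nat_lit 98370) (nat_lit 28) (.e (nat_lit 450304) (nat_lit 18) .nil)))) .nil)))) (.nd (nat_lit 4) (.nd (nat_lit 5) 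
(.lf (nat_lit 13066) (.g (nat_lit 2622) (.e (nat_lit 972) (nat_lit 81) (.e (nat_lit 5954) (nat_lit 322) (.e (nat_lit 57424) (nat_lit 14) (.e (nat_lit 352318) (nat_lit 24) (.e (nat_lit 123185) (nat_lit 264) (.e (nat_lit 1222) (nat_lit 90) (.e (nat_lit 81935) (nat_lit 20) .nil))))))) (.g (nat_lit 4) .nil .nil))) 
(.lf (nat_lit 13098) (.g (nat_lit 689) (.e (nat_lit 974) (nat_lit 81) (.e (nat_lit 1239) (nat_lit 91) (.e (nat_lit 90165) (nat_lit 12) .nil))) .nil))) (.nd (nat_lit 5) 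
(.lf (nat_lit 13082) (.g (nat_lit 1934) (.e (nat_lit 973) (nat_lit 81) (.e (nat_lit 5954) (nat_lit 322) (.e (nat_lit 57424) (nat_lit 14) (.e (nat_lit 352270) (nat_lit 8) (.e (nat_lit 270080) (nat_lit 6) (.e (nat_lit 81935) (nat_lit 20) .nil)))))) (.g (nat_lit 4) .nil .nil))) 
(.lf (nat_lit 13114) (.g (nat_lit 2479) (.e (nat_lit 974) (nat_lit 81) (.e (nat_lit 1860) (nat_lit 124) (.e (nat_lit 557100) (nat_lit 13) (.e (nat_lit 172106) (nat_lit 10) (.e (nat_lit 434231) (nat_lit 23) (.e (nat_lit 532563) (nat_lit 15) (.e (nat_lit 385100) (nat_lit 49) (.e (nat_lit 778240) (nat_lit 0) .nil)))))))) (.g (nat_lit 5) .nil .nil)))))) 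
(.nd (nat_lit 3) (.nd (nat_lit 4) (.nd (nat_lit 5) 
(.lf (nat_lit 13062) (.g (nat_lit 1556) (.e (nat_lit 972) (nat_lit 81) (.e (nat_lit 5943) (nat_lit 322) (.e (nat_lit 57437) (nat_lit 17) (.e (nat_lit 376859) (nat_lit 21) (.e (nat_lit 57872) (nat_lit 264) (.e (nat_lit 1221) (nat_lit 90) (.e (nat_lit 81931) (nat_lit 20) .nil))))))) (.g (nat_lit 4) .nil .nil))) 
(.lf (nat_lit 13094) (.g (nat_lit 1464) (.e (nat_lit 974) (nat_lit 81) (.e (nat_lit 720) (nat_lit 64) (.e (nat_lit 688177) (nat_lit 16) (.e (nat_lit 65627) (nat_lit 13) .nil)))) .nil))) (.nd (nat_lit 5) 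
(.lf (nat_lit 13078) (.g (nat_lit 3671) (.e (nat_lit 973) (nat_lit 81) (.e (nat_lit 5353) (nat_lit 298) (.e (nat_lit 1077) (nat_lit 81) (.e (nat_lit 1796) (nat_lit 119) (.e (nat_lit 516163) (nat_lit 11) (.e (nat_lit 442424) (nat_lit 22) (.e (nat_lit 196661) (nat_lit 12) (.e (nat_lit 57712) (nat_lit 176) .nil)))))))) (.g (nat_lit 0) .nil .nil))) 
(.lf (nat_lit 13110) (.g (nat_lit 1475) (.e (nat_lit 974) (nat_lit 81) (.e (nat_lit 1642) (nat_lit 114) (.e (nat_lit 385066) (nat_lit 26) (.e (nat_lit 532533) (nat_lit 9) (.e (nat_lit 336211) (nat_lit 13) .nil))))) .nil)))) (.nd (nat_lit 4) (.nd (nat_lit 5) 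
(.lf (nat_lit 13070) (.g (nat_lit 1177) (.e (nat_lit 972) (nat_lit 81) (.e (nat_lit 5959) (nat_lit 323) (.e (nat_lit 122919) (nat_lit 15) (.e (nat_lit 360451) (nat_lit 0) .nil)))) .nil)) 
(.lf (nat_lit 13102) (.g (nat_lit 3984) (.e (nat_lit 974) (nat_lit 81) (.e (nat_lit 1256) (nat_lit 92) (.e (nat_lit 98342) (nat_lit 20) (.e (nat_lit 221212) (nat_lit 22) (.e (nat_lit 196668) (nat_lit 14) (.e (nat_lit 73747) (nat_lit 3) (.e (nat_lit 516115) (nat_lit 1) (.e (nat_lit 164150) (nat_lit 152) .nil)))))))) (.g (nat_lit 8) .nil .nil)))) (.nd (nat_lit 5) 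
(.lf (nat_lit 13086) (.g (nat_lit 2673) (.e (nat_lit 973) (nat_lit 81) (.e (nat_lit 5954) (nat_lit 322) (.e (nat_lit 57424) (nat_lit 14) (.e (nat_lit 352318) (nat_lit 24) (.e (nat_lit 123185) (nat_lit 264) (.e (nat_lit 1222) (nat_lit 90) (.e (nat_lit 81935) (nat_lit 20) .nil))))))) (.g (nat_lit 4) .nil .nil))) 
(.lf (nat_lit 13118) (.g (nat_lit 933) (.e (nat_lit 974) (nat_lit 81) (.e (nat_lit 7236) (nat_lit 382) (.e (nat_lit 1219) (nat_lit 90) (.e (nat_lit 81963) (nat_lit 26) .nil)))) .nil))))))) (.nd (nat_lit 1) (.nd (nat_lit 2) (.nd (nat_lit 3) (.nd (nat_lit 4) (.nd (nat_lit 5) 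
(.lf (nat_lit 13057) (.g (nat_lit 1853) (.e (nat_lit 972) (nat_lit 81) (.e (nat_lit 5345) (nat_lit 298) (.e (nat_lit 1228) (nat_lit 91) (.e (nat_lit 90176) (nat_lit 15) (.e (nat_lit 188447) (nat_lit 22) (.e (nat_lit 196661) (nat_lit 12) (.e (nat_lit 57712) (nat_lit 176) .nil))))))) (.g (nat_lit 6) .nil .nil))) 
(.lf (nat_lit 13089) (.g (nat_lit 1228) (.e (nat_lit 973) (nat_lit 81) (.e (nat_lit 5961) (nat_lit 323) (.e (nat_lit 122916) (nat_lit 14) (.e (nat_lit 352270) (nat_lit 8) (.e (nat_lit 270080) (nat_lit 6) (.e (nat_lit 81931) (nat_lit 20) .nil)))))) (.g (nat_lit 4) .nil .nil)))) (.nd (nat_lit 5) 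
(.lf (nat_lit 13073) (.g (nat_lit 3303) (.e (nat_lit 973) (nat_lit 81) (.e (nat_lit 4491) (nat_lit 263) (.e (nat_lit 1190) (nat_lit 88) (.e (nat_lit 65566) (nat_lit 2) (.e (nat_lit 90170) (nat_lit 13) (.e (nat_lit 172106) (nat_lit 10) (.e (nat_lit 434231) (nat_lit 23) (.e (nat_lit 532480) (nat_lit 0) .nil)))))))) (.g (nat_lit 7) .nil .nil))) 
(.lf (nat_lit 13105) (.g (nat_lit 2124) (.e (nat_lit 974) (nat_lit 81) (.e (nat_lit 1256) (nat_lit 92) (.e (nat_lit 98356) (nat_lit 26) (.e (nat_lit 426428) (nat_lit 17) (.e (nat_lit 90170) (nat_lit 13) .nil))))) .nil)))) (.nd (nat_lit 4) (.nd (nat_lit 5) 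
(.lf (nat_lit 13065) (.g (nat_lit 2168) (.e (nat_lit 972) (nat_lit 81) (.e (nat_lit 5954) (nat_lit 322) (.e (nat_lit 57424) (nat_lit 14) (.e (nat_lit 352318) (nat_lit 24) (.e (nat_lit 123184) (nat_lit 264) .nil))))) .nil)) 
(.lf (nat_lit 13097) (.g (nat_lit 447) (.e (nat_lit 974) (nat_lit 81) (.e (nat_lit 1239) (nat_lit 91) (.e (nat_lit 98048) (nat_lit 6) .nil))) .nil))) (.nd (nat_lit 5) 
(.lf (nat_lit 13081) (.g (nat_lit 2039) (.e (nat_lit 973) (nat_lit 81) (.e (nat_lit 5954) (nat_lit 322) (.e (nat_lit 57424) (nat_lit 14) (.e (nat_lit 352270) (nat_lit 8) (.e (nat_lit 270080) (nat_lit 6) (.e (nat_lit 81931) (nat_lit 20) .nil)))))) (.g (nat_lit 4) .nil .nil))) 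
(.lf (nat_lit 13113) (.g (nat_lit 514) (.e (nat_lit 974) (nat_lit 81) (.e (nat_lit 1860) (nat_lit 124) (.e (nat_lit 564992) (nat_lit 6) .nil))) .nil))))) (.nd (nat_lit 3) (.nd (nat_lit 4) (.nd (nat_lit 5) 
(.lf (nat_lit 13061) (.g (nat_lit 1941) (.e (nat_lit 972) (nat_lit 81) (.e (nat_lit 5355) (nat_lit 298) (.e (nat_lit 1661) (nat_lit 115) (.e (nat_lit 393260) (nat_lit 21) (.e (nat_lit 409649) (nat_lit 18) (.e (nat_lit 303149) (nat_lit 15) (.e (nat_lit 6112) (nat_lit 332) .nil))))))) (.g (nat_lit 4) .nil .nil))) 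
(.lf (nat_lit 13093) (.g (nat_lit 1397) (.e (nat_lit 974) (nat_lit 81) (.e (nat_lit 720) (nat_lit 64) (.e (nat_lit 688177) (nat_lit 16) (.e (nat_lit 65625) (nat_lit 13) .nil)))) .nil))) (.nd (nat_lit 5) 
(.lf (nat_lit 13077) (.g (nat_lit 631) (.e (nat_lit 973) (nat_lit 81) (.e (nat_lit 5353) (nat_lit 298) (.e (nat_lit 1077) (nat_lit 81) (.e (nat_lit 1796) (nat_lit 119) .nil)))) .nil)) 
(.lf (nat_lit 13109) (.g (nat_lit 1842) (.e (nat_lit 974) (nat_lit 81) (.e (nat_lit 1586) (nat_lit 111) (.e (nat_lit 360451) (nat_lit 0) (.e (nat_lit 7125) (nat_lit 382) (.e (nat_lit 1201) (nat_lit 88) .nil))))) .nil)))) (.nd (nat_lit 4) (.nd (nat_lit 5) 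
(.lf (nat_lit 13069) (.g (nat_lit 2036) (.e (nat_lit 972) (nat_lit 81) (.e (nat_lit 5954) (nat_lit 322) (.e (nat_lit 57427) (nat_lit 15) (.e (nat_lit 360486) (nat_lit 18) (.e (nat_lit 671764) (nat_lit 6) (.e (nat_lit 81931) (nat_lit 20) .nil)))))) (.g (nat_lit 4) .nil .nil))) 
(.lf (nat_lit 13101) (.g (nat_lit 4470) (.e (nat_lit 974) (nat_lit 81) (.e (nat_lit 1256) (nat_lit 92) (.e (nat_lit 98341) (nat_lit 20) (.e (nat_lit 221210) (nat_lit 22) (.e (nat_lit 196668) (nat_lit 14) (.e (nat_lit 73747) (nat_lit 3) (.e (nat_lit 516119) (nat_lit 1) (.e (nat_lit 164149) (nat_lit 152) .nil)))))))) (.g (nat_lit 8) .nil .nil)))) (.nd (nat_lit 5) 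
(.lf (nat_lit 13085) (.g (nat_lit 3760) (.e (nat_lit 973) (nat_lit 81) (.e (nat_lit 5954) (nat_lit 322) (.e (nat_lit 57424) (nat_lit 14) (.e (nat_lit 352318) (nat_lit 24) (.e (nat_lit 123184) (nat_lit 264) (.e (nat_lit 1222) (nat_lit 90) (.e (nat_lit 81935) (nat_lit 20) .nil))))))) (.g (nat_lit 6) .nil .nil))) 
(.lf (nat_lit 13117) (.g (nat_lit 1889) (.e (nat_lit 974) (nat_lit 81) (.e (nat_lit 5570) (nat_lit 308) (.e (nat_lit 57375) (nat_lit 2) (.e (nat_lit 90169) (nat_lit 13) (.e (nat_lit 172130) (nat_lit 15) .nil))))) .nil)))))) (.nd (nat_lit 2) (.nd (nat_lit 3) (.nd (nat_lit 4) (.nd (nat_lit 5) 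
(.lf (nat_lit 13059) (.g (nat_lit 2371) (.e (nat_lit 972) (nat_lit 81) (.e (nat_lit 5345) (nat_lit 298) (.e (nat_lit 1238) (nat_lit 91) (.e (nat_lit 90176) (nat_lit 15) (.e (nat_lit 188447) (nat_lit 22) (.e (nat_lit 196661) (nat_lit 12) (.e (nat_lit 57712) (nat_lit 176) .nil))))))) (.g (nat_lit 0) .nil .nil))) 
(.lf (nat_lit 13091) (.g (nat_lit 1172) (.e (nat_lit 974) (nat_lit 81) (.e (nat_lit 720) (nat_lit 64) (.e (nat_lit 688177) (nat_lit 16) (.e (nat_lit 65566) (nat_lit 2) .nil)))) .nil))) (.nd (nat_lit 5) 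
(.lf (nat_lit 13075) (.g (nat_lit 3846) (.e (nat_lit 973) (nat_lit 81) (.e (nat_lit 4805) (nat_lit 281) (.e (nat_lit 982) (nat_lit 81) (.e (nat_lit 1237) (nat_lit 91) (.e (nat_lit 90170) (nat_lit 13) (.e (nat_lit 172106) (nat_lit 10) (.e (nat_lit 434231) (nat_lit 23) (.e (nat_lit 532535) (nat_lit 9) (.e (nat_lit 335908) (nat_lit 0) .nil))))))))) (.g (nat_lit 0) .nil .nil))) 
(.lf (nat_lit 13107) (.g (nat_lit 991) (.e (nat_lit 974) (nat_lit 81) (.e (nat_lit 1572) (nat_lit 110) (.e (nat_lit 352324) (nat_lit 26) (.e (nat_lit 147495) (nat_lit 11) .nil)))) .nil)))) (.nd (nat_lit 4) (.nd (nat_lit 5) 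
(.lf (nat_lit 13067) (.g (nat_lit 1848) (.e (nat_lit 972) (nat_lit 81) (.e (nat_lit 5954) (nat_lit 322) (.e (nat_lit 57427) (nat_lit 15) (.e (nat_lit 360450) (nat_lit 0) (.e (nat_lit 5898) (nat_lit 320) .nil))))) .nil)) 
(.lf (nat_lit 13099) (.g (nat_lit 2188) (.e (nat_lit 974) (nat_lit 81) (.e (nat_lit 1239) (nat_lit 91) (.e (nat_lit 90170) (nat_lit 13) (.e (nat_lit 172106) (nat_lit 10) (.e (nat_lit 434231) (nat_lit 23) .nil))))) .nil))) (.nd (nat_lit 5) 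
(.lf (nat_lit 13083) (.g (nat_lit 3839) (.e (nat_lit 973) (nat_lit 81) (.e (nat_lit 5954) (nat_lit 322) (.e (nat_lit 57424) (nat_lit 14) (.e (nat_lit 352318) (nat_lit 24) (.e (nat_lit 123182) (nat_lit 264) (.e (nat_lit 1222) (nat_lit 90) (.e (nat_lit 81935) (nat_lit 20) .nil))))))) (.g (nat_lit 6) .nil .nil))) 
(.lf (nat_lit 13115) (.g (nat_lit 4353) (.e (nat_lit 974) (nat_lit 81) (.e (nat_lit 2031) (nat_lit 140) (.e (nat_lit 688177) (nat_lit 16) (.e (nat_lit 65586) (nat_lit 7) (.e (nat_lit 319531) (nat_lit 16) (.e (nat_lit 286759) (nat_lit 12) (.e (nat_lit 385094) (nat_lit 49) (.e (nat_lit 778254) (nat_lit 0) .nil)))))))) (.g (nat_lit 7) .nil .nil)))))) 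
(.nd (nat_lit 3) (.nd (nat_lit 4) (.nd (nat_lit 5) 
(.lf (nat_lit 13063) (.g (nat_lit 1883) (.e (nat_lit 972) (nat_lit 81) (.e (nat_lit 5954) (nat_lit 322) (.e (nat_lit 57424) (nat_lit 14) (.e (nat_lit 352270) (nat_lit 8) (.e (nat_lit 270080) (nat_lit 6) (.e (nat_lit 81935) (nat_lit 20) .nil)))))) (.g (nat_lit 4) .nil .nil))) 
(.lf (nat_lit 13095) (.g (nat_lit 1808) (.e (nat_lit 974) (nat_lit 81) (.e (nat_lit 720) (nat_lit 64) (.e (nat_lit 688177) (nat_lit 16) (.e (nat_lit 65627) (nat_lit 13) (.e (nat_lit 393260) (nat_lit 21) .nil))))) .nil))) (.nd (nat_lit 5) 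
(.lf (nat_lit 13079) (.g (nat_lit 3336) (.e (nat_lit 973) (nat_lit 81) (.e (nat_lit 5353) (nat_lit 298) (.e (nat_lit 1077) (nat_lit 81) (.e (nat_lit 1796) (nat_lit 119) (.e (nat_lit 516163) (nat_lit 11) (.e (nat_lit 442427) (nat_lit 23) (.e (nat_lit 204821) (nat_lit 17) (.e (nat_lit 6114) (nat_lit 332) .nil)))))))) (.g (nat_lit 8) .nil .nil))) 
(.lf (nat_lit 13111) (.g (nat_lit 2127) (.e (nat_lit 974) (nat_lit 81) (.e (nat_lit 1642) (nat_lit 114) (.e (nat_lit 385066) (nat_lit 26) (.e (nat_lit 532534) (nat_lit 9) (.e (nat_lit 336211) (nat_lit 13) (.e (nat_lit 393253) (nat_lit 18) (.e (nat_lit 164150) (nat_lit 152) .nil))))))) (.g (nat_lit 4) .nil .nil))))) (.nd (nat_lit 4) (.nd (nat_lit 5) 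
(.lf (nat_lit 13071) (.g (nat_lit 1538) (.e (nat_lit 972) (nat_lit 81) (.e (nat_lit 6202) (nat_lit 332) (.e (nat_lit 2798) (nat_lit 180) (.e (nat_lit 303145) (nat_lit 13) (.e (nat_lit 483405) (nat_lit 26) .nil))))) .nil)) 
(.lf (nat_lit 13103) (.g (nat_lit 4145) (.e (nat_lit 974) (nat_lit 81) (.e (nat_lit 1256) (nat_lit 92) (.e (nat_lit 98342) (nat_lit 20) (.e (nat_lit 221212) (nat_lit 22) (.e (nat_lit 196668) (nat_lit 14) (.e (nat_lit 73747) (nat_lit 3) (.e (nat_lit 516119) (nat_lit 1) (.e (nat_lit 164149) (nat_lit 152) .nil)))))))) (.g (nat_lit 0) .nil .nil)))) (.nd (nat_lit 5) 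
(.lf (nat_lit 13087) (.g (nat_lit 1251) (.e (nat_lit 973) (nat_lit 81) (.e (nat_lit 5954) (nat_lit 322) (.e (nat_lit 57427) (nat_lit 15) (.e (nat_lit 360455) (nat_lit 0) .nil)))) .nil)) 
(.lf (nat_lit 13119) (.g (nat_lit 1015) (.e (nat_lit 974) (nat_lit 81) (.e (nat_lit 7236) (nat_lit 382) (.e (nat_lit 1221) (nat_lit 90) (.e (nat_lit 81965) (nat_lit 26) .nil)))) .nil))))))))

noncomputable def tv180 : DT := (.nd (nat_lit 0) (.nd (nat_lit 1) (.nd (nat_lit 2) (.nd (nat_lit 3) (.nd (nat_lit 4) (.nd (nat_lit 5) 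
(.lf (nat_lit 13120) (.g (nat_lit 3041) (.e (nat_lit 974) (nat_lit 81) (.e (nat_lit 7236) (nat_lit 382) (.e (nat_lit 1221) (nat_lit 90) (.e (nat_lit 81965) (nat_lit 26) (.e (nat_lit 147492) (nat_lit 11) (.e (nat_lit 24638) (nat_lit 9) (.e (nat_lit 335892) (nat_lit 0) .nil))))))) (.g (nat_lit 0) .nil .nil))) 
(.lf (nat_lit 13152) (.g (nat_lit 2951) (.e (nat_lit 980) (nat_lit 81) (.e (nat_lit 5394) (nat_lit 301) (.e (nat_lit 57464) (nat_lit 23) (.e (nat_lit 516163) (nat_lit 11) (.e (nat_lit 442424) (nat_lit 22) (.e (nat_lit 196661) (nat_lit 12) (.e (nat_lit 57712) (nat_lit 176) .nil))))))) (.g (nat_lit 0) .nil .nil)))) (.nd (nat_lit 5) 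
(.lf (nat_lit 13136) (.g (nat_lit 3885) (.e (nat_lit 976) (nat_lit 81) (.e (nat_lit 1656) (nat_lit 115) (.e (nat_lit 393225) (nat_lit 9) (.e (nat_lit 336088) (nat_lit 9) (.e (nat_lit 336019) (nat_lit 3) (.e (nat_lit 98333) (nat_lit 18) (.e (nat_lit 164151) (nat_lit 152) .nil))))))) (.g (nat_lit 0) .nil .nil))) 
(.lf (nat_lit 13168) (.g (nat_lit 3182) (.e (nat_lit 982) (nat_lit 81) (.e (nat_lit 1781) (nat_lit 119) (.e (nat_lit 516151) (nat_lit 9) (.e (nat_lit 426211) (nat_lit 9) (.e (nat_lit 426125) (nat_lit 2) .nil))))) .nil)))) (.nd (nat_lit 4) (.nd (nat_lit 5) 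
(.lf (nat_lit 13128) (.g (nat_lit 5045) (.e (nat_lit 974) (nat_lit 81) (.e (nat_lit 7695) (nat_lit 412) (.e (nat_lit 57379) (nat_lit 3) (.e (nat_lit 98366) (nat_lit 27) (.e (nat_lit 434231) (nat_lit 23) (.e (nat_lit 532579) (nat_lit 26) (.e (nat_lit 426139) (nat_lit 3) (.e (nat_lit 204815) (nat_lit 17) .nil)))))))) (.g (nat_lit 8) .nil .nil))) 
(.lf (nat_lit 13160) (.g (nat_lit 2418) (.e (nat_lit 982) (nat_lit 81) (.e (nat_lit 1237) (nat_lit 91) (.e (nat_lit 90170) (nat_lit 13) (.e (nat_lit 172106) (nat_lit 10) (.e (nat_lit 434231) (nat_lit 23) (.e (nat_lit 532535) (nat_lit 9) (.e (nat_lit 335908) (nat_lit 0) (.e (nat_lit 973) (nat_lit 81) (.e (nat_lit 4809) (nat_lit 281) .nil))))))))) (.g (nat_lit 4) .nil .nil)))) (.nd (nat_lit 5) 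
(.lf (nat_lit 13144) (.g (nat_lit 3574) (.e (nat_lit 980) (nat_lit 81) (.e (nat_lit 5270) (nat_lit 298) (.e (nat_lit 1239) (nat_lit 91) (.e (nat_lit 90170) (nat_lit 13) (.e (nat_lit 172106) (nat_lit 10) (.e (nat_lit 434231) (nat_lit 23) (.e (nat_lit 532486) (nat_lit 0) (.e (nat_lit 6113) (nat_lit 332) .nil)))))))) (.g (nat_lit 6) .nil .nil))) 
(.lf (nat_lit 13176) (.g (nat_lit 3488) (.e (nat_lit 982) (nat_lit 81) (.e (nat_lit 1962) (nat_lit 134) (.e (nat_lit 638998) (nat_lit 8) (.e (nat_lit 172123) (nat_lit 13) (.e (nat_lit 483396) (nat_lit 24) (.e (nat_lit 344161) (nat_lit 37) (.e (nat_lit 647195) (nat_lit 9) .nil))))))) (.g (nat_lit 0) .nil .nil)))))) (.nd (nat_lit 3) (.nd (nat_lit 4) (.nd (nat_lit 5) 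
(.lf (nat_lit 13124) (.g (nat_lit 4561) (.e (nat_lit 974) (nat_lit 81) (.e (nat_lit 7695) (nat_lit 412) (.e (nat_lit 57375) (nat_lit 2) (.e (nat_lit 90185) (nat_lit 17) (.e (nat_lit 237590) (nat_lit 2) (.e (nat_lit 196654) (nat_lit 11) (.e (nat_lit 16416) (nat_lit 3) (.e (nat_lit 204815) (nat_lit 17) .nil)))))))) (.g (nat_lit 7) .nil .nil))) 
(.lf (nat_lit 13156) (.g (nat_lit 1355) (.e (nat_lit 982) (nat_lit 81) (.e (nat_lit 1181) (nat_lit 87) (.e (nat_lit 57872) (nat_lit 264) (.e (nat_lit 1190) (nat_lit 88) .nil)))) .nil))) (.nd (nat_lit 5) 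
(.lf (nat_lit 13140) (.g (nat_lit 1808) (.e (nat_lit 977) (nat_lit 81) (.e (nat_lit 5293) (nat_lit 298) (.e (nat_lit 1633) (nat_lit 114) (.e (nat_lit 385106) (nat_lit 50) (.e (nat_lit 786483) (nat_lit 30) (.e (nat_lit 360484) (nat_lit 15) (.e (nat_lit 655104) (nat_lit 14) .nil))))))) (.g (nat_lit 4) .nil .nil))) 
(.lf (nat_lit 13172) (.g (nat_lit 2066) (.e (nat_lit 982) (nat_lit 81) (.e (nat_lit 1858) (nat_lit 124) (.e (nat_lit 557100) (nat_lit 13) (.e (nat_lit 172106) (nat_lit 10) (.e (nat_lit 434231) (nat_lit 23) (.e (nat_lit 532543) (nat_lit 10) (.e (nat_lit 344168) (nat_lit 40) (.e (nat_lit 671751) (nat_lit 0) .nil)))))))) (.g (nat_lit 4) .nil .nil))))) (.nd (nat_lit 4) (.nd (nat_lit 5) 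
(.lf (nat_lit 13132) (.g (nat_lit 1143) (.e (nat_lit 975) (nat_lit 81) (.e (nat_lit 5626) (nat_lit 312) (.e (nat_lit 249) (nat_lit 21) .nil))) .nil)) 
(.lf (nat_lit 13164) (.g (nat_lit 2584) (.e (nat_lit 982) (nat_lit 81) (.e (nat_lit 1239) (nat_lit 91) (.e (nat_lit 90170) (nat_lit 13) (.e (nat_lit 172106) (nat_lit 10) (.e (nat_lit 434231) (nat_lit 23) (.e (nat_lit 532535) (nat_lit 9) (.e (nat_lit 335905) (nat_lit 0) (.e (nat_lit 973) (nat_lit 81) (.e (nat_lit 4805) (nat_lit 281) .nil))))))))) (.g (nat_lit 4) .nil .nil)))) (.nd (nat_lit 5) 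
(.lf (nat_lit 13148) (.g (nat_lit 2389) (.e (nat_lit 980) (nat_lit 81) (.e (nat_lit 5270) (nat_lit 298) (.e (nat_lit 1256) (nat_lit 92) (.e (nat_lit 98370) (nat_lit 28) (.e (nat_lit 442424) (nat_lit 22) (.e (nat_lit 196661) (nat_lit 12) (.e (nat_lit 57712) (nat_lit 176) .nil))))))) (.g (nat_lit 6) .nil .nil))) 
(.lf (nat_lit 13180) (.g (nat_lit 1996) (.e (nat_lit 982) (nat_lit 81) (.e (nat_lit 2031) (nat_lit 140) (.e (nat_lit 688177) (nat_lit 16) (.e (nat_lit 65581) (nat_lit 7) (.e (nat_lit 319533) (nat_lit 16) .nil))))) .nil)))))) (.nd (nat_lit 2) (.nd (nat_lit 3) (.nd (nat_lit 4) (.nd (nat_lit 5) 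
(.lf (nat_lit 13122) (.g (nat_lit 4977) (.e (nat_lit 974) (nat_lit 81) (.e (nat_lit 7695) (nat_lit 412) (.e (nat_lit 57375) (nat_lit 2) (.e (nat_lit 90172) (nat_lit 14) (.e (nat_lit 180244) (nat_lit 5) (.e (nat_lit 532579) (nat_lit 26) (.e (nat_lit 426139) (nat_lit 3) (.e (nat_lit 204815) (nat_lit 17) .nil)))))))) (.g (nat_lit 0) .nil .nil))) 
(.lf (nat_lit 13154) (.g (nat_lit 481) (.e (nat_lit 982) (nat_lit 81) (.e (nat_lit 720) (nat_lit 64) (.e (nat_lit 688177) (nat_lit 16) .nil))) .nil))) (.nd (nat_lit 5) 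
(.lf (nat_lit 13138) (.g (nat_lit 196) (.e (nat_lit 977) (nat_lit 81) (.e (nat_lit 1574) (nat_lit 110) (.e (nat_lit 352271) (nat_lit 9) .nil))) .nil)) 
(.lf (nat_lit 13170) (.g (nat_lit 2039) (.e (nat_lit 982) (nat_lit 81) (.e (nat_lit 1858) (nat_lit 124) (.e (nat_lit 557100) (nat_lit 13) (.e (nat_lit 172106) (nat_lit 10) (.e (nat_lit 434231) (nat_lit 23) .nil))))) .nil)))) (.nd (nat_lit 4) (.nd (nat_lit 5) 
(.lf (nat_lit 13130) (.g (nat_lit 2543) (.e (nat_lit 975) (nat_lit 81) (.e (nat_lit 1633) (nat_lit 114) (.e (nat_lit 385068) (nat_lit 26) (.e (nat_lit 532533) (nat_lit 9) (.e (nat_lit 336211) (nat_lit 13) (.e (nat_lit 393251) (nat_lit 18) (.e (nat_lit 164156) (nat_lit 152) .nil))))))) (.g (nat_lit 6) .nil .nil))) 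
(.lf (nat_lit 13162) (.g (nat_lit 2486) (.e (nat_lit 982) (nat_lit 81) (.e (nat_lit 1237) (nat_lit 91) (.e (nat_lit 90170) (nat_lit 13) (.e (nat_lit 172106) (nat_lit 10) (.e (nat_lit 434231) (nat_lit 23) (.e (nat_lit 532543) (nat_lit 10) (.e (nat_lit 344097) (nat_lit 18) (.e (nat_lit 4833) (nat_lit 281) .nil)))))))) (.g (nat_lit 5) .nil .nil)))) (.nd (nat_lit 5) 
(.lf (nat_lit 13146) (.g (nat_lit 5457) (.e (nat_lit 980) (nat_lit 81) (.e (nat_lit 5270) (nat_lit 298) (.e (nat_lit 1239) (nat_lit 91) (.e (nat_lit 90170) (nat_lit 13) (.e (nat_lit 172106) (nat_lit 10) (.e (nat_lit 434231) (nat_lit 23) (.e (nat_lit 532490) (nat_lit 0) (.e (nat_lit 6114) (nat_lit 332) .nil)))))))) (.g (nat_lit 0) .nil .nil))) 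
(.lf (nat_lit 13178) (.g (nat_lit 1768) (.e (nat_lit 982) (nat_lit 81) (.e (nat_lit 2031) (nat_lit 140) (.e (nat_lit 688177) (nat_lit 16) (.e (nat_lit 65569) (nat_lit 3) .nil)))) .nil))))) (.nd (nat_lit 3) (.nd (nat_lit 4) (.nd (nat_lit 5) 
(.lf (nat_lit 13126) (.g (nat_lit 4979) (.e (nat_lit 974) (nat_lit 81) (.e (nat_lit 7695) (nat_lit 412) (.e (nat_lit 57379) (nat_lit 3) (.e (nat_lit 98365) (nat_lit 26) (.e (nat_lit 426116) (nat_lit 2) (.e (nat_lit 196654) (nat_lit 11) (.e (nat_lit 16416) (nat_lit 3) (.e (nat_lit 204815) (nat_lit 17) .nil)))))))) (.g (nat_lit 8) .nil .nil))) 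
(.lf (nat_lit 13158) (.g (nat_lit 2388) (.e (nat_lit 982) (nat_lit 81) (.e (nat_lit 1237) (nat_lit 91) (.e (nat_lit 90170) (nat_lit 13) (.e (nat_lit 172106) (nat_lit 10) (.e (nat_lit 434231) (nat_lit 23) (.e (nat_lit 532535) (nat_lit 9) (.e (nat_lit 335905) (nat_lit 0) (.e (nat_lit 972) (nat_lit 81) (.e (nat_lit 4805) (nat_lit 281) .nil))))))))) (.g (nat_lit 4) .nil .nil)))) (.nd (nat_lit 5) 
(.lf (nat_lit 13142) (.g (nat_lit 653) (.e (nat_lit 980) (nat_lit 81) (.e (nat_lit 1633) (nat_lit 114) (.e (nat_lit 385068) (nat_lit 26) .nil))) .nil)) 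
(.lf (nat_lit 13174) (.g (nat_lit 2766) (.e (nat_lit 982) (nat_lit 81) (.e (nat_lit 1858) (nat_lit 124) (.e (nat_lit 557105) (nat_lit 14) (.e (nat_lit 180252) (nat_lit 10) (.e (nat_lit 573489) (nat_lit 14) (.e (nat_lit 73754) (nat_lit 8) (.e (nat_lit 557091) (nat_lit 12) (.e (nat_lit 163999) (nat_lit 38) (.e (nat_lit 639007) (nat_lit 13) .nil))))))))) (.g (nat_lit 4) .nil .nil))))) 
(.nd (nat_lit 4) (.nd (nat_lit 5) 
(.lf (nat_lit 13134) (.g (nat_lit 1884) (.e (nat_lit 976) (nat_lit 81) (.e (nat_lit 1633) (nat_lit 114) (.e (nat_lit 385068) (nat_lit 26) (.e (nat_lit 532534) (nat_lit 9) (.e (nat_lit 336211) (nat_lit 13) .nil))))) .nil)) 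
(.lf (nat_lit 13166) (.g (nat_lit 3867) (.e (nat_lit 982) (nat_lit 81) (.e (nat_lit 1401) (nat_lit 106) (.e (nat_lit 319531) (nat_lit 16) (.e (nat_lit 286735) (nat_lit 3) (.e (nat_lit 98373) (nat_lit 29) (.e (nat_lit 450562) (nat_lit 0) (.e (nat_lit 3866) (nat_lit 233) .nil))))))) (.g (nat_lit 0) .nil .nil)))) (.nd (nat_lit 5) 
(.lf (nat_lit 13150) (.g (nat_lit 2472) (.e (nat_lit 980) (nat_lit 81) (.e (nat_lit 5394) (nat_lit 301) (.e (nat_lit 57464) (nat_lit 23) (.e (nat_lit 516151) (nat_lit 9) (.e (nat_lit 426212) (nat_lit 9) (.e (nat_lit 426125) (nat_lit 2) (.e (nat_lit 196661) (nat_lit 12) (.e (nat_lit 57712) (nat_lit 176) .nil)))))))) (.g (nat_lit 4) .nil .nil))) 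
(.lf (nat_lit 13182) (.g (nat_lit 2829) (.e (nat_lit 982) (nat_lit 81) (.e (nat_lit 2031) (nat_lit 140) (.e (nat_lit 688177) (nat_lit 16) (.e (nat_lit 65583) (nat_lit 7) (.e (nat_lit 319530) (nat_lit 16) (.e (nat_lit 286755) (nat_lit 10) (.e (nat_lit 344169) (nat_lit 40) (.e (nat_lit 671751) (nat_lit 0) .nil)))))))) (.g (nat_lit 5) .nil .nil)))))))) 
(.nd (nat_lit 1) (.nd (nat_lit 2) (.nd (nat_lit 3) (.nd (nat_lit 4) (.nd (nat_lit 5) 
(.lf (nat_lit 13121) (.g (nat_lit 2520) (.e (nat_lit 974) (nat_lit 81) (.e (nat_lit 7236) (nat_lit 382) (.e (nat_lit 1221) (nat_lit 90) (.e (nat_lit 81965) (nat_lit 26) (.e (nat_lit 147494) (nat_lit 11) (.e (nat_lit 24638) (nat_lit 9) (.e (nat_lit 335892) (nat_lit 0) .nil))))))) (.g (nat_lit 5) .nil .nil))) 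
(.lf (nat_lit 13153) (.g (nat_lit 3321) (.e (nat_lit 982) (nat_lit 81) (.e (nat_lit 618) (nat_lit 48) (.e (nat_lit 557109) (nat_lit 15) (.e (nat_lit 188452) (nat_lit 23) (.e (nat_lit 204863) (nat_lit 27) .nil))))) .nil))) (.nd (nat_lit 5) 
(.lf (nat_lit 13137) (.g (nat_lit 3854) (.e (nat_lit 976) (nat_lit 81) (.e (nat_lit 5270) (nat_lit 298) (.e (nat_lit 1239) (nat_lit 91) (.e (nat_lit 90170) (nat_lit 13) (.e (nat_lit 172113) (nat_lit 10) (.e (nat_lit 434245) (nat_lit 28) (.e (nat_lit 573468) (nat_lit 10) (.e (nat_lit 8490) (nat_lit 180) .nil)))))))) (.g (nat_lit 6) .nil .nil))) 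
(.lf (nat_lit 13169) (.g (nat_lit 3364) (.e (nat_lit 982) (nat_lit 81) (.e (nat_lit 1794) (nat_lit 119) (.e (nat_lit 516151) (nat_lit 9) (.e (nat_lit 426211) (nat_lit 9) (.e (nat_lit 426125) (nat_lit 2) .nil))))) .nil)))) (.nd (nat_lit 4) (.nd (nat_lit 5) 
(.lf (nat_lit 13129) (.g (nat_lit 1810) (.e (nat_lit 974) (nat_lit 81) (.e (nat_lit 7710) (nat_lit 414) (.e (nat_lit 163874) (nat_lit 3) (.e (nat_lit 204864) (nat_lit 27) .nil)))) .nil)) 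
(.lf (nat_lit 13161) (.g (nat_lit 2393) (.e (nat_lit 982) (nat_lit 81) (.e (nat_lit 1237) (nat_lit 91) (.e (nat_lit 90170) (nat_lit 13) (.e (nat_lit 172106) (nat_lit 10) (.e (nat_lit 434231) (nat_lit 23) (.e (nat_lit 532535) (nat_lit 9) (.e (nat_lit 335985) (nat_lit 1) (.e (nat_lit 57784) (nat_lit 239) .nil)))))))) (.g (nat_lit 4) .nil .nil)))) (.nd (nat_lit 5) 
(.lf (nat_lit 13145) (.g (nat_lit 2648) (.e (nat_lit 980) (nat_lit 81) (.e (nat_lit 5270) (nat_lit 298) (.e (nat_lit 1239) (nat_lit 91) (.e (nat_lit 90170) (nat_lit 13) (.e (nat_lit 172106) (nat_lit 10) (.e (nat_lit 434231) (nat_lit 23) (.e (nat_lit 532490) (nat_lit 0) (.e (nat_lit 6092) (nat_lit 332) .nil)))))))) (.g (nat_lit 4) .nil .nil))) 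
(.lf (nat_lit 13177) (.g (nat_lit 1795) (.e (nat_lit 982) (nat_lit 81) (.e (nat_lit 2030) (nat_lit 140) (.e (nat_lit 688177) (nat_lit 16) (.e (nat_lit 65586) (nat_lit 7) (.e (nat_lit 319533) (nat_lit 16) .nil))))) .nil))))) (.nd (nat_lit 3) (.nd (nat_lit 4) (.nd (nat_lit 5) 
(.lf (nat_lit 13125) (.g (nat_lit 3990) (.e (nat_lit 974) (nat_lit 81) (.e (nat_lit 7695) (nat_lit 412) (.e (nat_lit 57375) (nat_lit 2) (.e (nat_lit 90185) (nat_lit 17) (.e (nat_lit 237594) (nat_lit 3) (.e (nat_lit 204809) (nat_lit 9) (.e (nat_lit 426139) (nat_lit 3) (.e (nat_lit 204815) (nat_lit 17) .nil)))))))) (.g (nat_lit 7) .nil .nil))) 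
(.lf (nat_lit 13157) (.g (nat_lit 2379) (.e (nat_lit 982) (nat_lit 81) (.e (nat_lit 1237) (nat_lit 91) (.e (nat_lit 90170) (nat_lit 13) (.e (nat_lit 172106) (nat_lit 10) (.e (nat_lit 434231) (nat_lit 23) .nil))))) .nil))) (.nd (nat_lit 5) 
(.lf (nat_lit 13141) (.g (nat_lit 3376) (.e (nat_lit 979) (nat_lit 81) (.e (nat_lit 5270) (nat_lit 298) (.e (nat_lit 1239) (nat_lit 91) (.e (nat_lit 90170) (nat_lit 13) (.e (nat_lit 172106) (nat_lit 10) (.e (nat_lit 434231) (nat_lit 23) (.e (nat_lit 532490) (nat_lit 0) (.e (nat_lit 6092) (nat_lit 332) .nil)))))))) (.g (nat_lit 6) .nil .nil))) 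
(.lf (nat_lit 13173) (.g (nat_lit 2619) (.e (nat_lit 982) (nat_lit 81) (.e (nat_lit 1858) (nat_lit 124) (.e (nat_lit 557105) (nat_lit 14) (.e (nat_lit 180252) (nat_lit 10) (.e (nat_lit 573489) (nat_lit 14) .nil))))) .nil)))) (.nd (nat_lit 4) (.nd (nat_lit 5) 
(.lf (nat_lit 13133) (.g (nat_lit 1445) (.e (nat_lit 976) (nat_lit 81) (.e (nat_lit 1633) (nat_lit 114) (.e (nat_lit 385068) (nat_lit 26) (.e (nat_lit 532533) (nat_lit 9) (.e (nat_lit 336211) (nat_lit 13) .nil))))) .nil)) 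
(.lf (nat_lit 13165) (.g (nat_lit 1445) (.e (nat_lit 982) (nat_lit 81) (.e (nat_lit 1400) (nat_lit 106) (.e (nat_lit 319533) (nat_lit 16) (.e (nat_lit 286761) (nat_lit 13) .nil)))) .nil))) (.nd (nat_lit 5) 
(.lf (nat_lit 13149) (.g (nat_lit 2468) (.e (nat_lit 980) (nat_lit 81) (.e (nat_lit 5394) (nat_lit 301) (.e (nat_lit 57464) (nat_lit 23) (.e (nat_lit 516151) (nat_lit 9) (.e (nat_lit 426208) (nat_lit 9) (.e (nat_lit 426125) (nat_lit 2) (.e (nat_lit 196661) (nat_lit 12) (.e (nat_lit 57712) (nat_lit 176) .nil)))))))) (.g (nat_lit 4) .nil .nil))) 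
(.lf (nat_lit 13181) (.g (nat_lit 2811) (.e (nat_lit 982) (nat_lit 81) (.e (nat_lit 2031) (nat_lit 140) (.e (nat_lit 688177) (nat_lit 16) (.e (nat_lit 65583) (nat_lit 7) (.e (nat_lit 319530) (nat_lit 16) (.e (nat_lit 286755) (nat_lit 10) (.e (nat_lit 344168) (nat_lit 40) (.e (nat_lit 671751) (nat_lit 0) .nil)))))))) (.g (nat_lit 5) .nil .nil))))))) 
(.nd (nat_lit 2) (.nd (nat_lit 3) (.nd (nat_lit 4) (.nd (nat_lit 5) 
(.lf (nat_lit 13123) (.g (nat_lit 4801) (.e (nat_lit 974) (nat_lit 81) (.e (nat_lit 7695) (nat_lit 412) (.e (nat_lit 57375) (nat_lit 2) (.e (nat_lit 90185) (nat_lit 17) (.e (nat_lit 237587) (nat_lit 2) (.e (nat_lit 196654) (nat_lit 11) (.e (nat_lit 16416) (nat_lit 3) (.e (nat_lit 204815) (nat_lit 17) .nil)))))))) (.g (nat_lit 7) .nil .nil))) 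
(.lf (nat_lit 13155) (.g (nat_lit 2064) (.e (nat_lit 982) (nat_lit 81) (.e (nat_lit 720) (nat_lit 64) (.e (nat_lit 688177) (nat_lit 16) (.e (nat_lit 65583) (nat_lit 7) (.e (nat_lit 319533) (nat_lit 16) .nil))))) .nil))) (.nd (nat_lit 5) 
(.lf (nat_lit 13139) (.g (nat_lit 3208) (.e (nat_lit 977) (nat_lit 81) (.e (nat_lit 5270) (nat_lit 298) (.e (nat_lit 1239) (nat_lit 91) (.e (nat_lit 90170) (nat_lit 13) (.e (nat_lit 172113) (nat_lit 10) (.e (nat_lit 434245) (nat_lit 28) (.e (nat_lit 573468) (nat_lit 10) (.e (nat_lit 8490) (nat_lit 180) .nil)))))))) (.g (nat_lit 5) .nil .nil))) 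
(.lf (nat_lit 13171) (.g (nat_lit 2060) (.e (nat_lit 982) (nat_lit 81) (.e (nat_lit 1858) (nat_lit 124) (.e (nat_lit 557100) (nat_lit 13) (.e (nat_lit 172106) (nat_lit 10) (.e (nat_lit 434231) (nat_lit 23) (.e (nat_lit 532535) (nat_lit 9) (.e (nat_lit 335928) (nat_lit 0) (.e (nat_lit 2006) (nat_lit 138) (.e (nat_lit 671748) (nat_lit 0) .nil))))))))) (.g (nat_lit 4) .nil .nil))))) 
(.nd (nat_lit 4) (.nd (nat_lit 5) 
(.lf (nat_lit 13131) (.g (nat_lit 3093) (.e (nat_lit 975) (nat_lit 81) (.e (nat_lit 1633) (nat_lit 114) (.e (nat_lit 385068) (nat_lit 26) (.e (nat_lit 532534) (nat_lit 9) (.e (nat_lit 336211) (nat_lit 13) (.e (nat_lit 393251) (nat_lit 18) (.e (nat_lit 164156) (nat_lit 152) .nil))))))) (.g (nat_lit 6) .nil .nil))) 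
(.lf (nat_lit 13163) (.g (nat_lit 1993) (.e (nat_lit 982) (nat_lit 81) (.e (nat_lit 1239) (nat_lit 91) (.e (nat_lit 90170) (nat_lit 13) (.e (nat_lit 172106) (nat_lit 10) .nil)))) .nil))) (.nd (nat_lit 5) 
(.lf (nat_lit 13147) (.g (nat_lit 3294) (.e (nat_lit 980) (nat_lit 81) (.e (nat_lit 5270) (nat_lit 298) (.e (nat_lit 1239) (nat_lit 91) (.e (nat_lit 90170) (nat_lit 13) (.e (nat_lit 172115) (nat_lit 10) (.e (nat_lit 434231) (nat_lit 23) (.e (nat_lit 532490) (nat_lit 0) (.e (nat_lit 6114) (nat_lit 332) .nil)))))))) (.g (nat_lit 4) .nil .nil))) 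
(.lf (nat_lit 13179) (.g (nat_lit 1380) (.e (nat_lit 982) (nat_lit 81) (.e (nat_lit 2031) (nat_lit 140) (.e (nat_lit 688177) (nat_lit 16) (.e (nat_lit 65571) (nat_lit 3) .nil)))) .nil))))) (.nd (nat_lit 3) (.nd (nat_lit 4) (.nd (nat_lit 5) 
(.lf (nat_lit 13127) (.g (nat_lit 4204) (.e (nat_lit 974) (nat_lit 81) (.e (nat_lit 7695) (nat_lit 412) (.e (nat_lit 57379) (nat_lit 3) (.e (nat_lit 98365) (nat_lit 26) (.e (nat_lit 426133) (nat_lit 3) (.e (nat_lit 204809) (nat_lit 9) (.e (nat_lit 426139) (nat_lit 3) (.e (nat_lit 204815) (nat_lit 17) .nil)))))))) (.g (nat_lit 8) .nil .nil))) 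
(.lf (nat_lit 13159) (.g (nat_lit 2411) (.e (nat_lit 982) (nat_lit 81) (.e (nat_lit 1237) (nat_lit 91) (.e (nat_lit 90170) (nat_lit 13) (.e (nat_lit 172106) (nat_lit 10) (.e (nat_lit 434231) (nat_lit 23) (.e (nat_lit 532535) (nat_lit 9) (.e (nat_lit 335908) (nat_lit 0) (.e (nat_lit 970) (nat_lit 81) (.e (nat_lit 4810) (nat_lit 281) .nil))))))))) (.g (nat_lit 4) .nil .nil)))) (.nd (nat_lit 5) 
(.lf (nat_lit 13143) (.g (nat_lit 2771) (.e (nat_lit 980) (nat_lit 81) (.e (nat_lit 5270) (nat_lit 298) (.e (nat_lit 1239) (nat_lit 91) (.e (nat_lit 90170) (nat_lit 13) (.e (nat_lit 172097) (nat_lit 9) .nil))))) .nil)) 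
(.lf (nat_lit 13175) (.g (nat_lit 2698) (.e (nat_lit 982) (nat_lit 81) (.e (nat_lit 1858) (nat_lit 124) (.e (nat_lit 557105) (nat_lit 14) (.e (nat_lit 180252) (nat_lit 10) (.e (nat_lit 573489) (nat_lit 14) (.e (nat_lit 73755) (nat_lit 8) (.e (nat_lit 557089) (nat_lit 12) (.e (nat_lit 163999) (nat_lit 38) (.e (nat_lit 639007) (nat_lit 13) .nil))))))))) (.g (nat_lit 4) .nil .nil))))) 
(.nd (nat_lit 4) (.nd (nat_lit 5) 
(.lf (nat_lit 13135) (.g (nat_lit 3506) (.e (nat_lit 976) (nat_lit 81) (.e (nat_lit 1656) (nat_lit 115) (.e (nat_lit 393225) (nat_lit 9) (.e (nat_lit 336087) (nat_lit 9) (.e (nat_lit 336019) (nat_lit 3) (.e (nat_lit 98333) (nat_lit 18) (.e (nat_lit 164151) (nat_lit 152) .nil))))))) (.g (nat_lit 0) .nil .nil))) 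
(.lf (nat_lit 13167) (.g (nat_lit 4163) (.e (nat_lit 982) (nat_lit 81) (.e (nat_lit 1401) (nat_lit 106) (.e (nat_lit 319531) (nat_lit 16) (.e (nat_lit 286735) (nat_lit 3) (.e (nat_lit 98373) (nat_lit 29) (.e (nat_lit 450563) (nat_lit 0) (.e (nat_lit 3866) (nat_lit 233) .nil))))))) (.g (nat_lit 0) .nil .nil)))) (.nd (nat_lit 5) 
(.lf (nat_lit 13151) (.g (nat_lit 2468) (.e (nat_lit 980) (nat_lit 81) (.e (nat_lit 5394) (nat_lit 301) (.e (nat_lit 57464) (nat_lit 23) (.e (nat_lit 516151) (nat_lit 9) (.e (nat_lit 426215) (nat_lit 9) (.e (nat_lit 426125) (nat_lit 2) (.e (nat_lit 196661) (nat_lit 12) (.e (nat_lit 57712) (nat_lit 176) .nil)))))))) (.g (nat_lit 4) .nil .nil))) 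
(.lf (nat_lit 13183) (.g (nat_lit 1266) (.e (nat_lit 982) (nat_lit 81) (.e (nat_lit 2031) (nat_lit 140) (.e (nat_lit 688177) (nat_lit 16) (.e (nat_lit 65586) (nat_lit 7) .nil)))) .nil))))))))

noncomputable def tv181 : DT := (.nd (nat_lit 0) (.nd (nat_lit 1) (.nd (nat_lit 2) (.nd (nat_lit 3) (.nd (nat_lit 4) (.nd (nat_lit 5) 
(.lf (nat_lit 13184) (.g (nat_lit 4203) (.e (nat_lit 982) (nat_lit 81) (.e (nat_lit 2031) (nat_lit 140) (.e (nat_lit 688177) (nat_lit 16) (.e (nat_lit 65586) (nat_lit 7) (.e (nat_lit 319531) (nat_lit 16) (.e (nat_lit 286759) (nat_lit 12) (.e (nat_lit 385094) (nat_lit 49) (.e (nat_lit 778241) (nat_lit 0) .nil)))))))) (.g (nat_lit 0) .nil .nil))) 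
(.lf (nat_lit 13216) (.g (nat_lit 596) (.e (nat_lit 988) (nat_lit 81) (.e (nat_lit 720) (nat_lit 64) (.e (nat_lit 688177) (nat_lit 16) .nil))) .nil))) (.nd (nat_lit 5) 
(.lf (nat_lit 13200) (.g (nat_lit 2709) (.e (nat_lit 982) (nat_lit 81) (.e (nat_lit 5905) (nat_lit 320) (.e (nat_lit 1221) (nat_lit 90) (.e (nat_lit 81959) (nat_lit 24) (.e (nat_lit 123182) (nat_lit 264) .nil))))) .nil)) 
(.lf (nat_lit 13232) (.g (nat_lit 3481) (.e (nat_lit 988) (nat_lit 81) (.e (nat_lit 4841) (nat_lit 283) (.e (nat_lit 57375) (nat_lit 2) (.e (nat_lit 90176) (nat_lit 15) (.e (nat_lit 188447) (nat_lit 22) (.e (nat_lit 196666) (nat_lit 13) (.e (nat_lit 65553) (nat_lit 0) .nil))))))) (.g (nat_lit 7) .nil .nil))))) (.nd (nat_lit 4) (.nd (nat_lit 5) 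
(.lf (nat_lit 13192) (.g (nat_lit 3488) (.e (nat_lit 982) (nat_lit 81) (.e (nat_lit 2031) (nat_lit 140) (.e (nat_lit 688178) (nat_lit 16) (.e (nat_lit 65626) (nat_lit 13) (.e (nat_lit 393283) (nat_lit 24) (.e (nat_lit 434268) (nat_lit 36) (.e (nat_lit 639007) (nat_lit 13) .nil))))))) (.g (nat_lit 0) .nil .nil))) 
(.lf (nat_lit 13224) (.g (nat_lit 1709) (.e (nat_lit 988) (nat_lit 81) (.e (nat_lit 1615) (nat_lit 113) (.e (nat_lit 376865) (nat_lit 22) (.e (nat_lit 90185) (nat_lit 17) (.e (nat_lit 237585) (nat_lit 1) .nil))))) .nil))) (.nd (nat_lit 5) 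
(.lf (nat_lit 13208) (.g (nat_lit 2594) (.e (nat_lit 983) (nat_lit 81) (.e (nat_lit 2345) (nat_lit 151) (.e (nat_lit 778466) (nat_lit 11) (.e (nat_lit 24617) (nat_lit 7) (.e (nat_lit 319534) (nat_lit 16) .nil))))) .nil)) 
(.lf (nat_lit 13240) (.g (nat_lit 1479) (.e (nat_lit 989) (nat_lit 81) (.e (nat_lit 1615) (nat_lit 113) (.e (nat_lit 376860) (nat_lit 21) (.e (nat_lit 57830) (nat_lit 250) (.e (nat_lit 7936) (nat_lit 166) .nil))))) .nil))))) (.nd (nat_lit 3) (.nd (nat_lit 4) (.nd (nat_lit 5) 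
(.lf (nat_lit 13188) (.g (nat_lit 1727) (.e (nat_lit 982) (nat_lit 81) (.e (nat_lit 2031) (nat_lit 140) (.e (nat_lit 688177) (nat_lit 16) (.e (nat_lit 65626) (nat_lit 13) .nil)))) .nil)) 
(.lf (nat_lit 13220) (.g (nat_lit 3975) (.e (nat_lit 988) (nat_lit 81) (.e (nat_lit 1239) (nat_lit 91) (.e (nat_lit 90187) (nat_lit 18) (.e (nat_lit 2777) (nat_lit 178) (.e (nat_lit 286761) (nat_lit 13) (.e (nat_lit 393225) (nat_lit 9) (.e (nat_lit 335995) (nat_lit 1) (.e (nat_lit 57872) (nat_lit 264) .nil)))))))) (.g (nat_lit 7) .nil .nil)))) (.nd (nat_lit 5) 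
(.lf (nat_lit 13204) (.g (nat_lit 1567) (.e (nat_lit 982) (nat_lit 81) (.e (nat_lit 7270) (nat_lit 385) (.e (nat_lit 122919) (nat_lit 15) (.e (nat_lit 360451) (nat_lit 0) .nil)))) .nil)) 
(.lf (nat_lit 13236) (.g (nat_lit 4423) (.e (nat_lit 988) (nat_lit 81) (.e (nat_lit 5351) (nat_lit 298) (.e (nat_lit 1235) (nat_lit 91) (.e (nat_lit 90170) (nat_lit 13) (.e (nat_lit 172106) (nat_lit 10) (.e (nat_lit 434231) (nat_lit 23) (.e (nat_lit 532490) (nat_lit 0) (.e (nat_lit 6136) (nat_lit 332) .nil)))))))) (.g (nat_lit 8) .nil .nil))))) (.nd (nat_lit 4) (.nd (nat_lit 5) 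
(.lf (nat_lit 13196) (.g (nat_lit 2611) (.e (nat_lit 982) (nat_lit 81) (.e (nat_lit 2283) (nat_lit 150) (.e (nat_lit 770072) (nat_lit 8) (.e (nat_lit 65583) (nat_lit 7) (.e (nat_lit 319530) (nat_lit 16) (.e (nat_lit 286751) (nat_lit 10) (.e (nat_lit 344160) (nat_lit 37) (.e (nat_lit 647195) (nat_lit 9) .nil)))))))) (.g (nat_lit 5) .nil .nil))) 
(.lf (nat_lit 13228) (.g (nat_lit 3371) (.e (nat_lit 988) (nat_lit 81) (.e (nat_lit 2031) (nat_lit 140) (.e (nat_lit 688177) (nat_lit 16) (.e (nat_lit 65586) (nat_lit 7) (.e (nat_lit 319531) (nat_lit 16) (.e (nat_lit 286759) (nat_lit 12) (.e (nat_lit 385092) (nat_lit 49) (.e (nat_lit 778297) (nat_lit 0) .nil)))))))) (.g (nat_lit 6) .nil .nil)))) (.nd (nat_lit 5) 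
(.lf (nat_lit 13212) (.g (nat_lit 782) (.e (nat_lit 988) (nat_lit 81) (.e (nat_lit 584) (nat_lit 43) (.e (nat_lit 516129) (nat_lit 3) (.e (nat_lit 229120) (nat_lit 18) .nil)))) .nil)) 
(.lf (nat_lit 13244) (.g (nat_lit 1506) (.e (nat_lit 989) (nat_lit 81) (.e (nat_lit 1615) (nat_lit 113) (.e (nat_lit 376862) (nat_lit 22) (.e (nat_lit 90185) (nat_lit 17) (.e (nat_lit 237582) (nat_lit 1) .nil))))) .nil)))))) (.nd (nat_lit 2) (.nd (nat_lit 3) (.nd (nat_lit 4) (.nd (nat_lit 5) 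
(.lf (nat_lit 13186) (.g (nat_lit 4141) (.e (nat_lit 982) (nat_lit 81) (.e (nat_lit 2031) (nat_lit 140) (.e (nat_lit 688177) (nat_lit 16) (.e (nat_lit 65586) (nat_lit 7) (.e (nat_lit 319531) (nat_lit 16) (.e (nat_lit 286759) (nat_lit 12) (.e (nat_lit 385094) (nat_lit 49) (.e (nat_lit 778253) (nat_lit 0) .nil)))))))) (.g (nat_lit 8) .nil .nil))) 
(.lf (nat_lit 13218) (.g (nat_lit 2477) (.e (nat_lit 988) (nat_lit 81) (.e (nat_lit 1239) (nat_lit 91) (.e (nat_lit 98048) (nat_lit 6) (.e (nat_lit 81956) (nat_lit 23) (.e (nat_lit 98356) (nat_lit 26) (.e (nat_lit 426422) (nat_lit 16) (.e (nat_lit 57726) (nat_lit 181) .nil))))))) (.g (nat_lit 5) .nil .nil)))) (.nd (nat_lit 5) 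
(.lf (nat_lit 13202) (.g (nat_lit 607) (.e (nat_lit 982) (nat_lit 81) (.e (nat_lit 7270) (nat_lit 385) (.e (nat_lit 122917) (nat_lit 15) .nil))) .nil)) 
(.lf (nat_lit 13234) (.g (nat_lit 3412) (.e (nat_lit 988) (nat_lit 81) (.e (nat_lit 4842) (nat_lit 283) (.e (nat_lit 57375) (nat_lit 2) (.e (nat_lit 90176) (nat_lit 15) (.e (nat_lit 188447) (nat_lit 22) (.e (nat_lit 196666) (nat_lit 13) (.e (nat_lit 65546) (nat_lit 0) .nil))))))) (.g (nat_lit 6) .nil .nil))))) (.nd (nat_lit 4) (.nd (nat_lit 5) 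
(.lf (nat_lit 13194) (.g (nat_lit 1837) (.e (nat_lit 982) (nat_lit 81) (.e (nat_lit 2281) (nat_lit 150) (.e (nat_lit 770072) (nat_lit 8) (.e (nat_lit 65583) (nat_lit 7) (.e (nat_lit 319530) (nat_lit 16) .nil))))) .nil)) 
(.lf (nat_lit 13226) (.g (nat_lit 2088) (.e (nat_lit 988) (nat_lit 81) (.e (nat_lit 2031) (nat_lit 140) (.e (nat_lit 688177) (nat_lit 16) (.e (nat_lit 65583) (nat_lit 7) (.e (nat_lit 319530) (nat_lit 16) .nil))))) .nil))) (.nd (nat_lit 5) 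
(.lf (nat_lit 13210) (.g (nat_lit 2168) (.e (nat_lit 986) (nat_lit 81) (.e (nat_lit 791) (nat_lit 66) (.e (nat_lit 704738) (nat_lit 11) (.e (nat_lit 16425) (nat_lit 7) (.e (nat_lit 409649) (nat_lit 18) .nil))))) .nil)) 
(.lf (nat_lit 13242) (.g (nat_lit 1096) (.e (nat_lit 989) (nat_lit 81) (.e (nat_lit 1615) (nat_lit 113) (.e (nat_lit 376860) (nat_lit 21) (.e (nat_lit 57832) (nat_lit 250) (.e (nat_lit 7936) (nat_lit 166) .nil))))) .nil))))) (.nd (nat_lit 3) (.nd (nat_lit 4) (.nd (nat_lit 5) 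
(.lf (nat_lit 13190) (.g (nat_lit 1244) (.e (nat_lit 982) (nat_lit 81) (.e (nat_lit 2031) (nat_lit 140) (.e (nat_lit 688178) (nat_lit 16) (.e (nat_lit 65625) (nat_lit 13) .nil)))) .nil)) 
(.lf (nat_lit 13222) (.g (nat_lit 1495) (.e (nat_lit 988) (nat_lit 81) (.e (nat_lit 1615) (nat_lit 113) (.e (nat_lit 376862) (nat_lit 22) (.e (nat_lit 90185) (nat_lit 17) (.e (nat_lit 237584) (nat_lit 1) (.e (nat_lit 164325) (nat_lit 230) (.e (nat_lit 163861) (nat_lit 1) (.e (nat_lit 164133) (nat_lit 134) .nil)))))))) (.g (nat_lit 4) .nil .nil)))) (.nd (nat_lit 5) 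
(.lf (nat_lit 13206) (.g (nat_lit 2191) (.e (nat_lit 982) (nat_lit 81) (.e (nat_lit 7270) (nat_lit 385) (.e (nat_lit 122919) (nat_lit 15) (.e (nat_lit 360451) (nat_lit 0) (.e (nat_lit 7261) (nat_lit 384) .nil))))) .nil)) 
(.lf (nat_lit 13238) (.g (nat_lit 2847) (.e (nat_lit 988) (nat_lit 81) (.e (nat_lit 5389) (nat_lit 301) (.e (nat_lit 57464) (nat_lit 23) (.e (nat_lit 516163) (nat_lit 11) (.e (nat_lit 442424) (nat_lit 22) (.e (nat_lit 196661) (nat_lit 12) (.e (nat_lit 57714) (nat_lit 176) .nil))))))) (.g (nat_lit 6) .nil .nil))))) (.nd (nat_lit 4) (.nd (nat_lit 5) 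
(.lf (nat_lit 13198) (.g (nat_lit 3846) (.e (nat_lit 982) (nat_lit 81) (.e (nat_lit 4460) (nat_lit 263) (.e (nat_lit 1079) (nat_lit 81) (.e (nat_lit 1463) (nat_lit 108) (.e (nat_lit 336013) (nat_lit 2) (.e (nat_lit 90170) (nat_lit 13) (.e (nat_lit 172106) (nat_lit 10) (.e (nat_lit 434231) (nat_lit 23) (.e (nat_lit 532483) (nat_lit 0) .nil))))))))) (.g (nat_lit 0) .nil .nil))) 
(.lf (nat_lit 13230) (.g (nat_lit 3282) (.e (nat_lit 988) (nat_lit 81) (.e (nat_lit 4780) (nat_lit 281) (.e (nat_lit 1010) (nat_lit 81) (.e (nat_lit 1239) (nat_lit 91) (.e (nat_lit 90170) (nat_lit 13) (.e (nat_lit 172106) (nat_lit 10) (.e (nat_lit 434231) (nat_lit 23) (.e (nat_lit 532535) (nat_lit 9) (.e (nat_lit 335928) (nat_lit 0) .nil))))))))) (.g (nat_lit 7) .nil .nil)))) (.nd (nat_lit 5) 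
(.lf (nat_lit 13214) (.g (nat_lit 1574) (.e (nat_lit 988) (nat_lit 81) (.e (nat_lit 618) (nat_lit 48) (.e (nat_lit 557109) (nat_lit 15) (.e (nat_lit 196352) (nat_lit 19) .nil)))) .nil)) 
(.lf (nat_lit 13246) (.g (nat_lit 4993) (.e (nat_lit 989) (nat_lit 81) (.e (nat_lit 4842) (nat_lit 283) (.e (nat_lit 57373) (nat_lit 2) (.e (nat_lit 90170) (nat_lit 13) (.e (nat_lit 172106) (nat_lit 10) (.e (nat_lit 434231) (nat_lit 23) (.e (nat_lit 532535) (nat_lit 9) (.e (nat_lit 335925) (nat_lit 0) .nil)))))))) (.g (nat_lit 8) .nil .nil)))))))) 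
(.nd (nat_lit 1) (.nd (nat_lit 2) (.nd (nat_lit 3) (.nd (nat_lit 4) (.nd (nat_lit 5) 
(.lf (nat_lit 13185) (.g (nat_lit 4104) (.e (nat_lit 982) (nat_lit 81) (.e (nat_lit 2031) (nat_lit 140) (.e (nat_lit 688177) (nat_lit 16) (.e (nat_lit 65586) (nat_lit 7) (.e (nat_lit 319531) (nat_lit 16) (.e (nat_lit 286759) (nat_lit 12) (.e (nat_lit 385094) (nat_lit 49) (.e (nat_lit 778246) (nat_lit 0) .nil)))))))) (.g (nat_lit 8) .nil .nil))) 
(.lf (nat_lit 13217) (.g (nat_lit 1413) (.e (nat_lit 988) (nat_lit 81) (.e (nat_lit 720) (nat_lit 64) (.e (nat_lit 688177) (nat_lit 16) (.e (nat_lit 65566) (nat_lit 2) .nil)))) .nil))) (.nd (nat_lit 5) 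
(.lf (nat_lit 13201) (.g (nat_lit 1974) (.e (nat_lit 982) (nat_lit 81) (.e (nat_lit 7265) (nat_lit 384) (.e (nat_lit 57406) (nat_lit 12) (.e (nat_lit 336456) (nat_lit 34) (.e (nat_lit 483376) (nat_lit 22) .nil))))) .nil)) 
(.lf (nat_lit 13233) (.g (nat_lit 4336) (.e (nat_lit 988) (nat_lit 81) (.e (nat_lit 4842) (nat_lit 283) (.e (nat_lit 57374) (nat_lit 2) (.e (nat_lit 90170) (nat_lit 13) (.e (nat_lit 172106) (nat_lit 10) (.e (nat_lit 434231) (nat_lit 23) (.e (nat_lit 532535) (nat_lit 9) (.e (nat_lit 335928) (nat_lit 0) .nil)))))))) (.g (nat_lit 8) .nil .nil))))) (.nd (nat_lit 4) (.nd (nat_lit 5) 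
(.lf (nat_lit 13193) (.g (nat_lit 2509) (.e (nat_lit 982) (nat_lit 81) (.e (nat_lit 2280) (nat_lit 150) (.e (nat_lit 770072) (nat_lit 8) (.e (nat_lit 65583) (nat_lit 7) (.e (nat_lit 319530) (nat_lit 16) (.e (nat_lit 286756) (nat_lit 10) (.e (nat_lit 344160) (nat_lit 37) (.e (nat_lit 647195) (nat_lit 9) .nil)))))))) (.g (nat_lit 5) .nil .nil))) 
(.lf (nat_lit 13225) (.g (nat_lit 2405) (.e (nat_lit 988) (nat_lit 81) (.e (nat_lit 1669) (nat_lit 116) (.e (nat_lit 401454) (nat_lit 12) (.e (nat_lit 475193) (nat_lit 38) .nil)))) .nil))) (.nd (nat_lit 5) 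
(.lf (nat_lit 13209) (.g (nat_lit 3392) (.e (nat_lit 984) (nat_lit 81) (.e (nat_lit 4120) (nat_lit 245) (.e (nat_lit 1220) (nat_lit 90) (.e (nat_lit 81956) (nat_lit 23) (.e (nat_lit 98356) (nat_lit 26) (.e (nat_lit 426448) (nat_lit 20) (.e (nat_lit 122624) (nat_lit 20) .nil))))))) (.g (nat_lit 5) .nil .nil))) 
(.lf (nat_lit 13241) (.g (nat_lit 1556) (.e (nat_lit 989) (nat_lit 81) (.e (nat_lit 1615) (nat_lit 113) (.e (nat_lit 376860) (nat_lit 21) (.e (nat_lit 57830) (nat_lit 250) (.e (nat_lit 7936) (nat_lit 166) (.e (nat_lit 188431) (nat_lit 20) (.e (nat_lit 2403) (nat_lit 157) (.e (nat_lit 5153) (nat_lit 292) .nil)))))))) (.g (nat_lit 4) .nil .nil)))))) 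
(.nd (nat_lit 3) (.nd (nat_lit 4) (.nd (nat_lit 5) 
(.lf (nat_lit 13189) (.g (nat_lit 2056) (.e (nat_lit 982) (nat_lit 81) (.e (nat_lit 2031) (nat_lit 140) (.e (nat_lit 688177) (nat_lit 16) (.e (nat_lit 65627) (nat_lit 13) (.e (nat_lit 393283) (nat_lit 24) .nil))))) .nil)) 
(.lf (nat_lit 13221) (.g (nat_lit 1494) (.e (nat_lit 988) (nat_lit 81) (.e (nat_lit 1615) (nat_lit 113) (.e (nat_lit 376862) (nat_lit 22) (.e (nat_lit 90185) (nat_lit 17) (.e (nat_lit 237582) (nat_lit 1) .nil))))) .nil))) (.nd (nat_lit 5) 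
(.lf (nat_lit 13205) (.g (nat_lit 3246) (.e (nat_lit 982) (nat_lit 81) (.e (nat_lit 7270) (nat_lit 385) (.e (nat_lit 122919) (nat_lit 15) (.e (nat_lit 360451) (nat_lit 0) (.e (nat_lit 7125) (nat_lit 382) .nil))))) .nil)) 
(.lf (nat_lit 13237) (.g (nat_lit 2210) (.e (nat_lit 988) (nat_lit 81) (.e (nat_lit 5389) (nat_lit 301) (.e (nat_lit 57464) (nat_lit 23) (.e (nat_lit 516151) (nat_lit 9) (.e (nat_lit 426185) (nat_lit 9) .nil))))) .nil)))) (.nd (nat_lit 4) (.nd (nat_lit 5) 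
(.lf (nat_lit 13197) (.g (nat_lit 4299) (.e (nat_lit 982) (nat_lit 81) (.e (nat_lit 2283) (nat_lit 150) (.e (nat_lit 770072) (nat_lit 8) (.e (nat_lit 65583) (nat_lit 7) (.e (nat_lit 319534) (nat_lit 16) (.e (nat_lit 286756) (nat_lit 10) (.e (nat_lit 344160) (nat_lit 37) (.e (nat_lit 647195) (nat_lit 9) .nil)))))))) (.g (nat_lit 6) .nil .nil))) 
(.lf (nat_lit 13229) (.g (nat_lit 4344) (.e (nat_lit 988) (nat_lit 81) (.e (nat_lit 2031) (nat_lit 140) (.e (nat_lit 688177) (nat_lit 16) (.e (nat_lit 65586) (nat_lit 7) (.e (nat_lit 319531) (nat_lit 16) (.e (nat_lit 286759) (nat_lit 12) (.e (nat_lit 385094) (nat_lit 49) (.e (nat_lit 778297) (nat_lit 0) .nil)))))))) (.g (nat_lit 7) .nil .nil)))) (.nd (nat_lit 5) 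
(.lf (nat_lit 13213) (.g (nat_lit 1546) (.e (nat_lit 988) (nat_lit 81) (.e (nat_lit 616) (nat_lit 48) (.e (nat_lit 557108) (nat_lit 15) (.e (nat_lit 196352) (nat_lit 19) .nil)))) .nil)) 
(.lf (nat_lit 13245) (.g (nat_lit 1301) (.e (nat_lit 989) (nat_lit 81) (.e (nat_lit 1615) (nat_lit 113) (.e (nat_lit 376865) (nat_lit 22) (.e (nat_lit 90155) (nat_lit 10) (.e (nat_lit 16128) (nat_lit 241) (.e (nat_lit 180226) (nat_lit 0) (.e (nat_lit 6806) (nat_lit 365) .nil))))))) (.g (nat_lit 4) .nil .nil))))))) (.nd (nat_lit 2) (.nd (nat_lit 3) (.nd (nat_lit 4) (.nd (nat_lit 5) 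
(.lf (nat_lit 13187) (.g (nat_lit 1741) (.e (nat_lit 982) (nat_lit 81) (.e (nat_lit 2031) (nat_lit 140) (.e (nat_lit 688177) (nat_lit 16) (.e (nat_lit 65625) (nat_lit 13) .nil)))) .nil)) 
(.lf (nat_lit 13219) (.g (nat_lit 2557) (.e (nat_lit 988) (nat_lit 81) (.e (nat_lit 1239) (nat_lit 91) (.e (nat_lit 90170) (nat_lit 13) (.e (nat_lit 172106) (nat_lit 10) (.e (nat_lit 434231) (nat_lit 23) .nil))))) .nil))) (.nd (nat_lit 5) 
(.lf (nat_lit 13203) (.g (nat_lit 1664) (.e (nat_lit 982) (nat_lit 81) (.e (nat_lit 7270) (nat_lit 385) (.e (nat_lit 122919) (nat_lit 15) (.e (nat_lit 360450) (nat_lit 0) .nil)))) .nil)) 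
(.lf (nat_lit 13235) (.g (nat_lit 3486) (.e (nat_lit 988) (nat_lit 81) (.e (nat_lit 4842) (nat_lit 283) (.e (nat_lit 57375) (nat_lit 2) (.e (nat_lit 90176) (nat_lit 15) (.e (nat_lit 188447) (nat_lit 22) (.e (nat_lit 196666) (nat_lit 13) (.e (nat_lit 65553) (nat_lit 0) .nil))))))) (.g (nat_lit 7) .nil .nil))))) (.nd (nat_lit 4) (.nd (nat_lit 5) 
(.lf (nat_lit 13195) (.g (nat_lit 2968) (.e (nat_lit 982) (nat_lit 81) (.e (nat_lit 2281) (nat_lit 150) (.e (nat_lit 770072) (nat_lit 8) (.e (nat_lit 65583) (nat_lit 7) (.e (nat_lit 319530) (nat_lit 16) (.e (nat_lit 286755) (nat_lit 10) (.e (nat_lit 344160) (nat_lit 37) (.e (nat_lit 647195) (nat_lit 9) .nil)))))))) (.g (nat_lit 5) .nil .nil))) 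
(.lf (nat_lit 13227) (.g (nat_lit 3827) (.e (nat_lit 988) (nat_lit 81) (.e (nat_lit 2031) (nat_lit 140) (.e (nat_lit 688177) (nat_lit 16) (.e (nat_lit 65586) (nat_lit 7) (.e (nat_lit 319531) (nat_lit 16) (.e (nat_lit 286759) (nat_lit 12) (.e (nat_lit 385092) (nat_lit 49) (.e (nat_lit 778295) (nat_lit 0) .nil)))))))) (.g (nat_lit 7) .nil .nil)))) (.nd (nat_lit 5) 
(.lf (nat_lit 13211) (.g (nat_lit 1301) (.e (nat_lit 987) (nat_lit 81) (.e (nat_lit 7291) (nat_lit 386) (.e (nat_lit 163907) (nat_lit 12) (.e (nat_lit 426568) (nat_lit 34) .nil)))) .nil)) 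
(.lf (nat_lit 13243) (.g (nat_lit 1175) (.e (nat_lit 989) (nat_lit 81) (.e (nat_lit 1615) (nat_lit 113) (.e (nat_lit 376860) (nat_lit 21) (.e (nat_lit 57832) (nat_lit 250) (.e (nat_lit 7936) (nat_lit 166) (.e (nat_lit 188427) (nat_lit 20) (.e (nat_lit 2403) (nat_lit 157) (.e (nat_lit 5112) (nat_lit 292) .nil)))))))) (.g (nat_lit 4) .nil .nil)))))) 
(.nd (nat_lit 3) (.nd (nat_lit 4) (.nd (nat_lit 5) 
(.lf (nat_lit 13191) (.g (nat_lit 1267) (.e (nat_lit 982) (nat_lit 81) (.e (nat_lit 2031) (nat_lit 140) (.e (nat_lit 688178) (nat_lit 16) (.e (nat_lit 65626) (nat_lit 13) .nil)))) .nil)) 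
(.lf (nat_lit 13223) (.g (nat_lit 1861) (.e (nat_lit 988) (nat_lit 81) (.e (nat_lit 1615) (nat_lit 113) (.e (nat_lit 376865) (nat_lit 22) (.e (nat_lit 90185) (nat_lit 17) (.e (nat_lit 237582) (nat_lit 1) .nil))))) .nil))) (.nd (nat_lit 5) 
(.lf (nat_lit 13207) (.g (nat_lit 1909) (.e (nat_lit 982) (nat_lit 81) (.e (nat_lit 7270) (nat_lit 385) (.e (nat_lit 122919) (nat_lit 15) (.e (nat_lit 368384) (nat_lit 24) .nil)))) .nil)) 
(.lf (nat_lit 13239) (.g (nat_lit 1798) (.e (nat_lit 989) (nat_lit 81) (.e (nat_lit 503) (nat_lit 40) (.e (nat_lit 491568) (nat_lit 13) (.e (nat_lit 393301) (nat_lit 27) (.e (nat_lit 491558) (nat_lit 10) .nil))))) .nil)))) (.nd (nat_lit 4) (.nd (nat_lit 5) 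
(.lf (nat_lit 13199) (.g (nat_lit 3764) (.e (nat_lit 982) (nat_lit 81) (.e (nat_lit 4464) (nat_lit 263) (.e (nat_lit 1078) (nat_lit 81) (.e (nat_lit 1463) (nat_lit 108) (.e (nat_lit 336013) (nat_lit 2) (.e (nat_lit 90170) (nat_lit 13) (.e (nat_lit 172106) (nat_lit 10) (.e (nat_lit 434231) (nat_lit 23) (.e (nat_lit 532483) (nat_lit 0) .nil))))))))) (.g (nat_lit 0) .nil .nil))) 
(.lf (nat_lit 13231) (.g (nat_lit 3713) (.e (nat_lit 988) (nat_lit 81) (.e (nat_lit 4841) (nat_lit 283) (.e (nat_lit 57372) (nat_lit 2) (.e (nat_lit 90176) (nat_lit 15) (.e (nat_lit 188447) (nat_lit 22) (.e (nat_lit 196666) (nat_lit 13) (.e (nat_lit 65553) (nat_lit 0) .nil))))))) (.g (nat_lit 7) .nil .nil)))) (.nd (nat_lit 5) 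
(.lf (nat_lit 13215) (.g (nat_lit 3961) (.e (nat_lit 988) (nat_lit 81) (.e (nat_lit 706) (nat_lit 62) (.e (nat_lit 671748) (nat_lit 0) (.e (nat_lit 1401) (nat_lit 106) (.e (nat_lit 319531) (nat_lit 16) (.e (nat_lit 286761) (nat_lit 13) (.e (nat_lit 393234) (nat_lit 17) (.e (nat_lit 7065) (nat_lit 377) .nil)))))))) (.g (nat_lit 8) .nil .nil))) 
(.lf (nat_lit 13247) (.g (nat_lit 5186) (.e (nat_lit 989) (nat_lit 81) (.e (nat_lit 4842) (nat_lit 283) (.e (nat_lit 57374) (nat_lit 2) (.e (nat_lit 90170) (nat_lit 13) (.e (nat_lit 172106) (nat_lit 10) (.e (nat_lit 434231) (nat_lit 23) (.e (nat_lit 532535) (nat_lit 9) (.e (nat_lit 335925) (nat_lit 0) .nil)))))))) (.g (nat_lit 8) .nil .nil)))))))))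

noncomputable def tv182 : DT := (.nd (nat_lit 0) (.nd (nat_lit 1) (.nd (nat_lit 2) (.nd (nat_lit 3) (.nd (nat_lit 4) (.nd (nat_lit 5) 
(.lf (nat_lit 13248) (.g (nat_lit 4246) (.e (nat_lit 989) (nat_lit 81) (.e (nat_lit 4842) (nat_lit 283) (.e (nat_lit 57374) (nat_lit 2) (.e (nat_lit 90170) (nat_lit 13) (.e (nat_lit 172106) (nat_lit 10) (.e (nat_lit 434231) (nat_lit 23) (.e (nat_lit 532535) (nat_lit 9) (.e (nat_lit 335928) (nat_lit 0) .nil)))))))) (.g (nat_lit 7) .nil .nil))) 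
(.lf (nat_lit 13280) (.g (nat_lit 1448) (.e (nat_lit 992) (nat_lit 81) (.e (nat_lit 618) (nat_lit 48) (.e (nat_lit 557107) (nat_lit 15) (.e (nat_lit 196352) (nat_lit 19) .nil)))) .nil))) (.nd (nat_lit 5) 
(.lf (nat_lit 13264) (.g (nat_lit 4173) (.e (nat_lit 991) (nat_lit 81) (.e (nat_lit 4500) (nat_lit 263) (.e (nat_lit 1209) (nat_lit 89) (.e (nat_lit 73747) (nat_lit 3) (.e (nat_lit 516176) (nat_lit 14) (.e (nat_lit 466981) (nat_lit 23) (.e (nat_lit 204821) (nat_lit 17) .nil))))))) (.g (nat_lit 0) .nil .nil))) 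
(.lf (nat_lit 13296) (.g (nat_lit 1413) (.e (nat_lit 992) (nat_lit 81) (.e (nat_lit 1595) (nat_lit 111) (.e (nat_lit 360467) (nat_lit 3) (.e (nat_lit 516100) (nat_lit 0) .nil)))) .nil)))) (.nd (nat_lit 4) (.nd (nat_lit 5) 
(.lf (nat_lit 13256) (.g (nat_lit 835) (.e (nat_lit 990) (nat_lit 81) (.e (nat_lit 1648) (nat_lit 115) (.e (nat_lit 393253) (nat_lit 18) (.e (nat_lit 164189) (nat_lit 157) .nil)))) .nil)) 
(.lf (nat_lit 13288) (.g (nat_lit 3164) (.e (nat_lit 992) (nat_lit 81) (.e (nat_lit 618) (nat_lit 48) (.e (nat_lit 557109) (nat_lit 15) (.e (nat_lit 188450) (nat_lit 23) (.e (nat_lit 204863) (nat_lit 27) .nil))))) .nil))) (.nd (nat_lit 5) 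
(.lf (nat_lit 13272) (.g (nat_lit 2902) (.e (nat_lit 991) (nat_lit 81) (.e (nat_lit 5748) (nat_lit 314) (.e (nat_lit 24648) (nat_lit 12) (.e (nat_lit 385094) (nat_lit 49) (.e (nat_lit 778323) (nat_lit 5) (.e (nat_lit 73789) (nat_lit 45) .nil)))))) (.g (nat_lit 6) .nil .nil))) 
(.lf (nat_lit 13304) (.g (nat_lit 3165) (.e (nat_lit 993) (nat_lit 81) (.e (nat_lit 618) (nat_lit 48) (.e (nat_lit 557100) (nat_lit 13) (.e (nat_lit 172113) (nat_lit 10) (.e (nat_lit 434295) (nat_lit 49) .nil))))) .nil))))) (.nd (nat_lit 3) (.nd (nat_lit 4) (.nd (nat_lit 5) 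
(.lf (nat_lit 13252) (.g (nat_lit 2893) (.e (nat_lit 989) (nat_lit 81) (.e (nat_lit 5349) (nat_lit 298) (.e (nat_lit 1234) (nat_lit 91) (.e (nat_lit 90176) (nat_lit 15) (.e (nat_lit 188450) (nat_lit 23) (.e (nat_lit 204821) (nat_lit 17) (.e (nat_lit 6136) (nat_lit 332) .nil))))))) (.g (nat_lit 6) .nil .nil))) 
(.lf (nat_lit 13284) (.g (nat_lit 2968) (.e (nat_lit 992) (nat_lit 81) (.e (nat_lit 618) (nat_lit 48) (.e (nat_lit 557109) (nat_lit 15) (.e (nat_lit 188434) (nat_lit 20) (.e (nat_lit 3578) (nat_lit 223) .nil))))) .nil))) (.nd (nat_lit 5) 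
(.lf (nat_lit 13268) (.g (nat_lit 4452) (.e (nat_lit 991) (nat_lit 81) (.e (nat_lit 4842) (nat_lit 283) (.e (nat_lit 57374) (nat_lit 2) (.e (nat_lit 90170) (nat_lit 13) (.e (nat_lit 172106) (nat_lit 10) (.e (nat_lit 434231) (nat_lit 23) (.e (nat_lit 532535) (nat_lit 9) (.e (nat_lit 335928) (nat_lit 0) .nil)))))))) (.g (nat_lit 8) .nil .nil))) 
(.lf (nat_lit 13300) (.g (nat_lit 1869) (.e (nat_lit 992) (nat_lit 81) (.e (nat_lit 1595) (nat_lit 111) (.e (nat_lit 360473) (nat_lit 8) (.e (nat_lit 557087) (nat_lit 11) (.e (nat_lit 24625) (nat_lit 9) .nil))))) .nil)))) (.nd (nat_lit 4) (.nd (nat_lit 5) 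
(.lf (nat_lit 13260) (.g (nat_lit 2144) (.e (nat_lit 990) (nat_lit 81) (.e (nat_lit 5349) (nat_lit 298) (.e (nat_lit 1238) (nat_lit 91) (.e (nat_lit 90176) (nat_lit 15) (.e (nat_lit 188447) (nat_lit 22) (.e (nat_lit 196661) (nat_lit 12) (.e (nat_lit 57714) (nat_lit 176) .nil))))))) (.g (nat_lit 6) .nil .nil))) 
(.lf (nat_lit 13292) (.g (nat_lit 1750) (.e (nat_lit 992) (nat_lit 81) (.e (nat_lit 1249) (nat_lit 92) (.e (nat_lit 98367) (nat_lit 27) (.e (nat_lit 434248) (nat_lit 28) (.e (nat_lit 573482) (nat_lit 13) .nil))))) .nil))) (.nd (nat_lit 5) 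
(.lf (nat_lit 13276) (.g (nat_lit 2369) (.e (nat_lit 992) (nat_lit 81) (.e (nat_lit 618) (nat_lit 48) (.e (nat_lit 557100) (nat_lit 13) (.e (nat_lit 172113) (nat_lit 10) .nil)))) .nil)) 
(.lf (nat_lit 13308) (.g (nat_lit 2079) (.e (nat_lit 993) (nat_lit 81) (.e (nat_lit 618) (nat_lit 48) (.e (nat_lit 557105) (nat_lit 14) (.e (nat_lit 180252) (nat_lit 10) (.e (nat_lit 573489) (nat_lit 14) .nil))))) .nil)))))) (.nd (nat_lit 2) (.nd (nat_lit 3) (.nd (nat_lit 4) (.nd (nat_lit 5) 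
(.lf (nat_lit 13250) (.g (nat_lit 2004) (.e (nat_lit 989) (nat_lit 81) (.e (nat_lit 5349) (nat_lit 298) (.e (nat_lit 1228) (nat_lit 91) (.e (nat_lit 90176) (nat_lit 15) (.e (nat_lit 188447) (nat_lit 22) (.e (nat_lit 196661) (nat_lit 12) (.e (nat_lit 57714) (nat_lit 176) .nil))))))) (.g (nat_lit 6) .nil .nil))) 
(.lf (nat_lit 13282) (.g (nat_lit 1578) (.e (nat_lit 992) (nat_lit 81) (.e (nat_lit 618) (nat_lit 48) (.e (nat_lit 557109) (nat_lit 15) (.e (nat_lit 196352) (nat_lit 19) .nil)))) .nil))) (.nd (nat_lit 5) 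
(.lf (nat_lit 13266) (.g (nat_lit 4982) (.e (nat_lit 991) (nat_lit 81) (.e (nat_lit 4842) (nat_lit 283) (.e (nat_lit 57373) (nat_lit 2) (.e (nat_lit 90170) (nat_lit 13) (.e (nat_lit 172106) (nat_lit 10) (.e (nat_lit 434231) (nat_lit 23) (.e (nat_lit 532535) (nat_lit 9) (.e (nat_lit 335925) (nat_lit 0) .nil)))))))) (.g (nat_lit 8) .nil .nil))) 
(.lf (nat_lit 13298) (.g (nat_lit 1974) (.e (nat_lit 992) (nat_lit 81) (.e (nat_lit 1595) (nat_lit 111) (.e (nat_lit 360467) (nat_lit 3) (.e (nat_lit 516184) (nat_lit 16) (.e (nat_lit 491566) (nat_lit 12) .nil))))) .nil)))) (.nd (nat_lit 4) (.nd (nat_lit 5) 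
(.lf (nat_lit 13258) (.g (nat_lit 2735) (.e (nat_lit 990) (nat_lit 81) (.e (nat_lit 2311) (nat_lit 151) (.e (nat_lit 778466) (nat_lit 11) (.e (nat_lit 24617) (nat_lit 7) (.e (nat_lit 319534) (nat_lit 16) .nil))))) .nil)) 
(.lf (nat_lit 13290) (.g (nat_lit 3933) (.e (nat_lit 992) (nat_lit 81) (.e (nat_lit 706) (nat_lit 62) (.e (nat_lit 671748) (nat_lit 0) (.e (nat_lit 1401) (nat_lit 106) (.e (nat_lit 319531) (nat_lit 16) (.e (nat_lit 286761) (nat_lit 13) (.e (nat_lit 393234) (nat_lit 17) (.e (nat_lit 7065) (nat_lit 377) .nil)))))))) (.g (nat_lit 8) .nil .nil)))) (.nd (nat_lit 5) 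
(.lf (nat_lit 13274) (.g (nat_lit 2191) (.e (nat_lit 992) (nat_lit 81) (.e (nat_lit 584) (nat_lit 43) (.e (nat_lit 516146) (nat_lit 9) (.e (nat_lit 426428) (nat_lit 17) (.e (nat_lit 90170) (nat_lit 13) .nil))))) .nil)) 
(.lf (nat_lit 13306) (.g (nat_lit 1196) (.e (nat_lit 993) (nat_lit 81) (.e (nat_lit 618) (nat_lit 48) (.e (nat_lit 557105) (nat_lit 14) (.e (nat_lit 180252) (nat_lit 10) .nil)))) .nil))))) (.nd (nat_lit 3) (.nd (nat_lit 4) (.nd (nat_lit 5) 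
(.lf (nat_lit 13254) (.g (nat_lit 2537) (.e (nat_lit 989) (nat_lit 81) (.e (nat_lit 5349) (nat_lit 298) (.e (nat_lit 1238) (nat_lit 91) (.e (nat_lit 90176) (nat_lit 15) (.e (nat_lit 188450) (nat_lit 23) (.e (nat_lit 204821) (nat_lit 17) (.e (nat_lit 6136) (nat_lit 332) .nil))))))) (.g (nat_lit 0) .nil .nil))) 
(.lf (nat_lit 13286) (.g (nat_lit 2259) (.e (nat_lit 992) (nat_lit 81) (.e (nat_lit 618) (nat_lit 48) (.e (nat_lit 557109) (nat_lit 15) (.e (nat_lit 188444) (nat_lit 21) .nil)))) .nil))) (.nd (nat_lit 5) 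
(.lf (nat_lit 13270) (.g (nat_lit 3524) (.e (nat_lit 991) (nat_lit 81) (.e (nat_lit 4842) (nat_lit 283) (.e (nat_lit 57375) (nat_lit 2) (.e (nat_lit 90176) (nat_lit 15) (.e (nat_lit 188447) (nat_lit 22) (.e (nat_lit 196666) (nat_lit 13) (.e (nat_lit 65553) (nat_lit 0) .nil))))))) (.g (nat_lit 7) .nil .nil))) 
(.lf (nat_lit 13302) (.g (nat_lit 2519) (.e (nat_lit 993) (nat_lit 81) (.e (nat_lit 618) (nat_lit 48) (.e (nat_lit 557098) (nat_lit 13) (.e (nat_lit 172115) (nat_lit 10) (.e (nat_lit 434295) (nat_lit 49) .nil))))) .nil)))) (.nd (nat_lit 4) (.nd (nat_lit 5) 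
(.lf (nat_lit 13262) (.g (nat_lit 1805) (.e (nat_lit 991) (nat_lit 81) (.e (nat_lit 1648) (nat_lit 115) (.e (nat_lit 393253) (nat_lit 18) (.e (nat_lit 164189) (nat_lit 157) (.e (nat_lit 229409) (nat_lit 13) (.e (nat_lit 434232) (nat_lit 23) (.e (nat_lit 532501) (nat_lit 1) (.e (nat_lit 57730) (nat_lit 181) .nil)))))))) (.g (nat_lit 4) .nil .nil))) 
(.lf (nat_lit 13294) (.g (nat_lit 2211) (.e (nat_lit 992) (nat_lit 81) (.e (nat_lit 1401) (nat_lit 106) (.e (nat_lit 319531) (nat_lit 16) (.e (nat_lit 286761) (nat_lit 13) (.e (nat_lit 393264) (nat_lit 22) .nil))))) .nil))) (.nd (nat_lit 5) 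
(.lf (nat_lit 13278) (.g (nat_lit 2303) (.e (nat_lit 992) (nat_lit 81) (.e (nat_lit 618) (nat_lit 48) (.e (nat_lit 557105) (nat_lit 14) (.e (nat_lit 180252) (nat_lit 10) (.e (nat_lit 573481) (nat_lit 13) .nil))))) .nil)) 
(.lf (nat_lit 13310) (.g (nat_lit 2328) (.e (nat_lit 993) (nat_lit 81) (.e (nat_lit 618) (nat_lit 48) (.e (nat_lit 557107) (nat_lit 15) (.e (nat_lit 188440) (nat_lit 20) (.e (nat_lit 3578) (nat_lit 223) .nil))))) .nil))))))) (.nd (nat_lit 1) (.nd (nat_lit 2) (.nd (nat_lit 3) (.nd (nat_lit 4) (.nd (nat_lit 5) 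
(.lf (nat_lit 13249) (.g (nat_lit 3318) (.e (nat_lit 989) (nat_lit 81) (.e (nat_lit 4842) (nat_lit 283) (.e (nat_lit 57375) (nat_lit 2) (.e (nat_lit 90176) (nat_lit 15) (.e (nat_lit 188447) (nat_lit 22) (.e (nat_lit 196666) (nat_lit 13) (.e (nat_lit 65553) (nat_lit 0) .nil))))))) (.g (nat_lit 6) .nil .nil))) 
(.lf (nat_lit 13281) (.g (nat_lit 1400) (.e (nat_lit 992) (nat_lit 81) (.e (nat_lit 618) (nat_lit 48) (.e (nat_lit 557107) (nat_lit 15) (.e (nat_lit 188439) (nat_lit 20) .nil)))) .nil))) (.nd (nat_lit 5) 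
(.lf (nat_lit 13265) (.g (nat_lit 3609) (.e (nat_lit 991) (nat_lit 81) (.e (nat_lit 4841) (nat_lit 283) (.e (nat_lit 57373) (nat_lit 2) (.e (nat_lit 90170) (nat_lit 13) (.e (nat_lit 172106) (nat_lit 10) (.e (nat_lit 434231) (nat_lit 23) (.e (nat_lit 532535) (nat_lit 9) (.e (nat_lit 335928) (nat_lit 0) .nil)))))))) (.g (nat_lit 6) .nil .nil))) 
(.lf (nat_lit 13297) (.g (nat_lit 1927) (.e (nat_lit 992) (nat_lit 81) (.e (nat_lit 1595) (nat_lit 111) (.e (nat_lit 360467) (nat_lit 3) (.e (nat_lit 516183) (nat_lit 16) (.e (nat_lit 491566) (nat_lit 12) .nil))))) .nil)))) (.nd (nat_lit 4) (.nd (nat_lit 5) 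
(.lf (nat_lit 13257) (.g (nat_lit 3106) (.e (nat_lit 990) (nat_lit 81) (.e (nat_lit 1648) (nat_lit 115) (.e (nat_lit 393253) (nat_lit 18) (.e (nat_lit 164189) (nat_lit 157) (.e (nat_lit 229409) (nat_lit 13) (.e (nat_lit 434232) (nat_lit 23) (.e (nat_lit 532504) (nat_lit 1) (.e (nat_lit 57730) (nat_lit 181) .nil)))))))) (.g (nat_lit 7) .nil .nil))) 
(.lf (nat_lit 13289) (.g (nat_lit 1759) (.e (nat_lit 992) (nat_lit 81) (.e (nat_lit 618) (nat_lit 48) (.e (nat_lit 557109) (nat_lit 15) (.e (nat_lit 188455) (nat_lit 24) .nil)))) .nil))) (.nd (nat_lit 5) 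
(.lf (nat_lit 13273) (.g (nat_lit 2068) (.e (nat_lit 991) (nat_lit 81) (.e (nat_lit 5748) (nat_lit 314) (.e (nat_lit 24653) (nat_lit 12) (.e (nat_lit 385093) (nat_lit 49) (.e (nat_lit 778324) (nat_lit 5) (.e (nat_lit 73791) (nat_lit 45) .nil)))))) (.g (nat_lit 6) .nil .nil))) 
(.lf (nat_lit 13305) (.g (nat_lit 2090) (.e (nat_lit 993) (nat_lit 81) (.e (nat_lit 618) (nat_lit 48) (.e (nat_lit 557101) (nat_lit 13) (.e (nat_lit 172115) (nat_lit 10) (.e (nat_lit 434295) (nat_lit 49) .nil))))) .nil))))) (.nd (nat_lit 3) (.nd (nat_lit 4) (.nd (nat_lit 5) 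
(.lf (nat_lit 13253) (.g (nat_lit 2324) (.e (nat_lit 989) (nat_lit 81) (.e (nat_lit 5349) (nat_lit 298) (.e (nat_lit 1238) (nat_lit 91) (.e (nat_lit 90176) (nat_lit 15) (.e (nat_lit 188447) (nat_lit 22) (.e (nat_lit 196661) (nat_lit 12) (.e (nat_lit 57714) (nat_lit 176) .nil))))))) (.g (nat_lit 7) .nil .nil))) 
(.lf (nat_lit 13285) (.g (nat_lit 1958) (.e (nat_lit 992) (nat_lit 81) (.e (nat_lit 618) (nat_lit 48) (.e (nat_lit 557109) (nat_lit 15) (.e (nat_lit 188441) (nat_lit 20) .nil)))) .nil))) (.nd (nat_lit 5) 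
(.lf (nat_lit 13269) (.g (nat_lit 3671) (.e (nat_lit 991) (nat_lit 81) (.e (nat_lit 4842) (nat_lit 283) (.e (nat_lit 57375) (nat_lit 2) (.e (nat_lit 90176) (nat_lit 15) (.e (nat_lit 188447) (nat_lit 22) (.e (nat_lit 196666) (nat_lit 13) (.e (nat_lit 65546) (nat_lit 0) .nil))))))) (.g (nat_lit 0) .nil .nil))) 
(.lf (nat_lit 13301) (.g (nat_lit 4702) (.e (nat_lit 992) (nat_lit 81) (.e (nat_lit 4530) (nat_lit 266) (.e (nat_lit 122919) (nat_lit 15) (.e (nat_lit 360484) (nat_lit 15) (.e (nat_lit 647199) (nat_lit 11) (.e (nat_lit 16473) (nat_lit 14) (.e (nat_lit 491526) (nat_lit 0) .nil))))))) (.g (nat_lit 0) .nil .nil))))) (.nd (nat_lit 4) (.nd (nat_lit 5) 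
(.lf (nat_lit 13261) (.g (nat_lit 1033) (.e (nat_lit 991) (nat_lit 81) (.e (nat_lit 5) (nat_lit 0) (.e (nat_lit 4413) (nat_lit 259) (.e (nat_lit 57375) (nat_lit 2) (.e (nat_lit 90176) (nat_lit 15) .nil))))) .nil)) 
(.lf (nat_lit 13293) (.g (nat_lit 1445) (.e (nat_lit 992) (nat_lit 81) (.e (nat_lit 1400) (nat_lit 106) (.e (nat_lit 319533) (nat_lit 16) (.e (nat_lit 286761) (nat_lit 13) .nil)))) .nil))) (.nd (nat_lit 5) 
(.lf (nat_lit 13277) (.g (nat_lit 1848) (.e (nat_lit 992) (nat_lit 81) (.e (nat_lit 618) (nat_lit 48) (.e (nat_lit 557101) (nat_lit 13) (.e (nat_lit 172097) (nat_lit 9) (.e (nat_lit 426140) (nat_lit 3) .nil))))) .nil)) 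
(.lf (nat_lit 13309) (.g (nat_lit 1357) (.e (nat_lit 993) (nat_lit 81) (.e (nat_lit 618) (nat_lit 48) (.e (nat_lit 557107) (nat_lit 15) (.e (nat_lit 188439) (nat_lit 20) .nil)))) .nil)))))) (.nd (nat_lit 2) (.nd (nat_lit 3) (.nd (nat_lit 4) (.nd (nat_lit 5) 
(.lf (nat_lit 13251) (.g (nat_lit 2336) (.e (nat_lit 989) (nat_lit 81) (.e (nat_lit 5349) (nat_lit 298) (.e (nat_lit 1234) (nat_lit 91) (.e (nat_lit 90170) (nat_lit 13) (.e (nat_lit 172115) (nat_lit 10) .nil))))) .nil)) 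
(.lf (nat_lit 13283) (.g (nat_lit 1706) (.e (nat_lit 992) (nat_lit 81) (.e (nat_lit 618) (nat_lit 48) (.e (nat_lit 557109) (nat_lit 15) (.e (nat_lit 188434) (nat_lit 20) .nil)))) .nil))) (.nd (nat_lit 5) 
(.lf (nat_lit 13267) (.g (nat_lit 5203) (.e (nat_lit 991) (nat_lit 81) (.e (nat_lit 4842) (nat_lit 283) (.e (nat_lit 57374) (nat_lit 2) (.e (nat_lit 90170) (nat_lit 13) (.e (nat_lit 172106) (nat_lit 10) (.e (nat_lit 434231) (nat_lit 23) (.e (nat_lit 532535) (nat_lit 9) (.e (nat_lit 335925) (nat_lit 0) .nil)))))))) (.g (nat_lit 8) .nil .nil))) 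
(.lf (nat_lit 13299) (.g (nat_lit 481) (.e (nat_lit 992) (nat_lit 81) (.e (nat_lit 1595) (nat_lit 111) (.e (nat_lit 360470) (nat_lit 6) .nil))) .nil)))) (.nd (nat_lit 4) (.nd (nat_lit 5) 
(.lf (nat_lit 13259) (.g (nat_lit 3228) (.e (nat_lit 990) (nat_lit 81) (.e (nat_lit 4842) (nat_lit 283) (.e (nat_lit 57375) (nat_lit 2) (.e (nat_lit 90176) (nat_lit 15) (.e (nat_lit 188447) (nat_lit 22) (.e (nat_lit 196666) (nat_lit 13) (.e (nat_lit 65553) (nat_lit 0) .nil))))))) (.g (nat_lit 6) .nil .nil))) 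
(.lf (nat_lit 13291) (.g (nat_lit 1611) (.e (nat_lit 992) (nat_lit 81) (.e (nat_lit 720) (nat_lit 64) (.e (nat_lit 688177) (nat_lit 16) (.e (nat_lit 65545) (nat_lit 0) .nil)))) .nil))) (.nd (nat_lit 5) 
(.lf (nat_lit 13275) (.g (nat_lit 2429) (.e (nat_lit 992) (nat_lit 81) (.e (nat_lit 618) (nat_lit 48) (.e (nat_lit 557098) (nat_lit 13) (.e (nat_lit 172097) (nat_lit 9) (.e (nat_lit 426140) (nat_lit 3) .nil))))) .nil)) 
(.lf (nat_lit 13307) (.g (nat_lit 2124) (.e (nat_lit 993) (nat_lit 81) (.e (nat_lit 618) (nat_lit 48) (.e (nat_lit 557105) (nat_lit 14) (.e (nat_lit 180252) (nat_lit 10) (.e (nat_lit 573481) (nat_lit 13) .nil))))) .nil))))) (.nd (nat_lit 3) (.nd (nat_lit 4) (.nd (nat_lit 5) 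
(.lf (nat_lit 13255) (.g (nat_lit 1516) (.e (nat_lit 990) (nat_lit 81) (.e (nat_lit 1615) (nat_lit 113) (.e (nat_lit 376860) (nat_lit 21) (.e (nat_lit 57830) (nat_lit 250) (.e (nat_lit 7936) (nat_lit 166) .nil))))) .nil)) 
(.lf (nat_lit 13287) (.g (nat_lit 2392) (.e (nat_lit 992) (nat_lit 81) (.e (nat_lit 618) (nat_lit 48) (.e (nat_lit 557109) (nat_lit 15) (.e (nat_lit 188446) (nat_lit 21) (.e (nat_lit 164196) (nat_lit 158) .nil))))) .nil))) (.nd (nat_lit 5) 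
(.lf (nat_lit 13271) (.g (nat_lit 1905) (.e (nat_lit 991) (nat_lit 81) (.e (nat_lit 5748) (nat_lit 314) (.e (nat_lit 24648) (nat_lit 12) (.e (nat_lit 385093) (nat_lit 49) (.e (nat_lit 778323) (nat_lit 5) .nil))))) .nil)) 
(.lf (nat_lit 13303) (.g (nat_lit 2292) (.e (nat_lit 993) (nat_lit 81) (.e (nat_lit 618) (nat_lit 48) (.e (nat_lit 557100) (nat_lit 13) (.e (nat_lit 172106) (nat_lit 10) (.e (nat_lit 434295) (nat_lit 49) .nil))))) .nil)))) (.nd (nat_lit 4) (.nd (nat_lit 5) 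
(.lf (nat_lit 13263) (.g (nat_lit 4807) (.e (nat_lit 991) (nat_lit 81) (.e (nat_lit 4500) (nat_lit 263) (.e (nat_lit 1015) (nat_lit 81) (.e (nat_lit 1449) (nat_lit 108) (.e (nat_lit 336013) (nat_lit 2) (.e (nat_lit 90170) (nat_lit 13) (.e (nat_lit 172106) (nat_lit 10) (.e (nat_lit 434231) (nat_lit 23) (.e (nat_lit 532490) (nat_lit 0) .nil))))))))) (.g (nat_lit 0) .nil .nil))) 
(.lf (nat_lit 13295) (.g (nat_lit 454) (.e (nat_lit 992) (nat_lit 81) (.e (nat_lit 1595) (nat_lit 111) (.e (nat_lit 368384) (nat_lit 0) .nil))) .nil))) (.nd (nat_lit 5) 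
(.lf (nat_lit 13279) (.g (nat_lit 2259) (.e (nat_lit 992) (nat_lit 81) (.e (nat_lit 618) (nat_lit 48) (.e (nat_lit 557105) (nat_lit 14) (.e (nat_lit 180252) (nat_lit 10) (.e (nat_lit 573489) (nat_lit 14) .nil))))) .nil)) 
(.lf (nat_lit 13311) (.g (nat_lit 2311) (.e (nat_lit 993) (nat_lit 81) (.e (nat_lit 618) (nat_lit 48) (.e (nat_lit 557107) (nat_lit 15) (.e (nat_lit 188440) (nat_lit 20) (.e (nat_lit 3579) (nat_lit 223) .nil))))) .nil))))))))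

noncomputable def tv183 : DT := (.nd (nat_lit 0) (.nd (nat_lit 1) (.nd (nat_lit 2) (.nd (nat_lit 3) (.nd (nat_lit 4) (.nd (nat_lit 5) 
(.lf (nat_lit 13312) (.g (nat_lit 416) (.e (nat_lit 993) (nat_lit 81) (.e (nat_lit 618) (nat_lit 48) (.e (nat_lit 557109) (nat_lit 15) .nil))) .nil)) 
(.lf (nat_lit 13344) (.g (nat_lit 2908) (.e (nat_lit 994) (nat_lit 81) (.e (nat_lit 1669) (nat_lit 116) (.e (nat_lit 401454) (nat_lit 12) (.e (nat_lit 475193) (nat_lit 38) (.e (nat_lit 688186) (nat_lit 18) .nil))))) .nil))) (.nd (nat_lit 5) 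
(.lf (nat_lit 13328) (.g (nat_lit 2211) (.e (nat_lit 993) (nat_lit 81) (.e (nat_lit 1401) (nat_lit 106) (.e (nat_lit 319531) (nat_lit 16) (.e (nat_lit 286761) (nat_lit 13) (.e (nat_lit 393264) (nat_lit 22) .nil))))) .nil)) 
(.lf (nat_lit 13360) (.g (nat_lit 1763) (.e (nat_lit 997) (nat_lit 81) (.e (nat_lit 1245) (nat_lit 92) (.e (nat_lit 98342) (nat_lit 20) (.e (nat_lit 221212) (nat_lit 22) (.e (nat_lit 196681) (nat_lit 17) .nil))))) .nil)))) (.nd (nat_lit 4) (.nd (nat_lit 5) 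
(.lf (nat_lit 13320) (.g (nat_lit 2351) (.e (nat_lit 993) (nat_lit 81) (.e (nat_lit 618) (nat_lit 48) (.e (nat_lit 557109) (nat_lit 15) (.e (nat_lit 188446) (nat_lit 21) (.e (nat_lit 164196) (nat_lit 158) .nil))))) .nil)) 
(.lf (nat_lit 13352) (.g (nat_lit 2643) (.e (nat_lit 996) (nat_lit 81) (.e (nat_lit 2283) (nat_lit 150) (.e (nat_lit 770072) (nat_lit 8) (.e (nat_lit 65571) (nat_lit 3) (.e (nat_lit 98359) (nat_lit 26) (.e (nat_lit 426286) (nat_lit 10) (.e (nat_lit 434248) (nat_lit 28) (.e (nat_lit 573452) (nat_lit 9) .nil)))))))) (.g (nat_lit 4) .nil .nil)))) (.nd (nat_lit 5) 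
(.lf (nat_lit 13336) (.g (nat_lit 380) (.e (nat_lit 993) (nat_lit 81) (.e (nat_lit 5896) (nat_lit 320) (.e (nat_lit 7936) (nat_lit 89) .nil))) .nil)) 
(.lf (nat_lit 13368) (.g (nat_lit 533) (.e (nat_lit 999) (nat_lit 81) (.e (nat_lit 1239) (nat_lit 91) (.e (nat_lit 98048) (nat_lit 5) .nil))) .nil))))) (.nd (nat_lit 3) (.nd (nat_lit 4) (.nd (nat_lit 5) 
(.lf (nat_lit 13316) (.g (nat_lit 3304) (.e (nat_lit 993) (nat_lit 81) (.e (nat_lit 618) (nat_lit 48) (.e (nat_lit 557109) (nat_lit 15) (.e (nat_lit 188434) (nat_lit 20) (.e (nat_lit 3577) (nat_lit 223) .nil))))) .nil)) 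
(.lf (nat_lit 13348) (.g (nat_lit 500) (.e (nat_lit 996) (nat_lit 81) (.e (nat_lit 1586) (nat_lit 111) (.e (nat_lit 360451) (nat_lit 0) .nil))) .nil))) (.nd (nat_lit 5) 
(.lf (nat_lit 13332) (.g (nat_lit 918) (.e (nat_lit 993) (nat_lit 81) (.e (nat_lit 1598) (nat_lit 111) (.e (nat_lit 360466) (nat_lit 3) (.e (nat_lit 516100) (nat_lit 0) .nil)))) .nil)) 
(.lf (nat_lit 13364) (.g (nat_lit 4340) (.e (nat_lit 998) (nat_lit 81) (.e (nat_lit 2283) (nat_lit 150) (.e (nat_lit 770071) (nat_lit 8) (.e (nat_lit 65568) (nat_lit 2) (.e (nat_lit 90170) (nat_lit 13) (.e (nat_lit 172106) (nat_lit 10) (.e (nat_lit 434244) (nat_lit 28) (.e (nat_lit 573451) (nat_lit 9) .nil)))))))) (.g (nat_lit 0) .nil .nil))))) (.nd (nat_lit 4) (.nd (nat_lit 5) 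
(.lf (nat_lit 13324) (.g (nat_lit 2350) (.e (nat_lit 993) (nat_lit 81) (.e (nat_lit 1400) (nat_lit 106) (.e (nat_lit 319533) (nat_lit 16) (.e (nat_lit 286761) (nat_lit 13) (.e (nat_lit 393264) (nat_lit 22) .nil))))) .nil)) 
(.lf (nat_lit 13356) (.g (nat_lit 2566) (.e (nat_lit 996) (nat_lit 81) (.e (nat_lit 7266) (nat_lit 384) (.e (nat_lit 57424) (nat_lit 14) (.e (nat_lit 352324) (nat_lit 26) (.e (nat_lit 147494) (nat_lit 11) .nil))))) .nil))) (.nd (nat_lit 5) 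
(.lf (nat_lit 13340) (.g (nat_lit 523) (.e (nat_lit 993) (nat_lit 81) (.e (nat_lit 7266) (nat_lit 384) (.e (nat_lit 57426) (nat_lit 15) .nil))) .nil)) 
(.lf (nat_lit 13372) (.g (nat_lit 2644) (.e (nat_lit 999) (nat_lit 81) (.e (nat_lit 1239) (nat_lit 91) (.e (nat_lit 98048) (nat_lit 5) (.e (nat_lit 73746) (nat_lit 3) (.e (nat_lit 516131) (nat_lit 3) (.e (nat_lit 221215) (nat_lit 23) (.e (nat_lit 204839) (nat_lit 21) (.e (nat_lit 123185) (nat_lit 264) .nil)))))))) (.g (nat_lit 7) .nil .nil))))))) 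
(.nd (nat_lit 2) (.nd (nat_lit 3) (.nd (nat_lit 4) (.nd (nat_lit 5) 
(.lf (nat_lit 13314) (.g (nat_lit 1731) (.e (nat_lit 993) (nat_lit 81) (.e (nat_lit 618) (nat_lit 48) (.e (nat_lit 557109) (nat_lit 15) (.e (nat_lit 188427) (nat_lit 20) .nil)))) .nil)) 
(.lf (nat_lit 13346) (.g (nat_lit 1468) (.e (nat_lit 996) (nat_lit 81) (.e (nat_lit 720) (nat_lit 64) (.e (nat_lit 688186) (nat_lit 18) (.e (nat_lit 81965) (nat_lit 26) (.e (nat_lit 147492) (nat_lit 11) .nil))))) .nil))) (.nd (nat_lit 5) 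
(.lf (nat_lit 13330) (.g (nat_lit 445) (.e (nat_lit 993) (nat_lit 81) (.e (nat_lit 1401) (nat_lit 106) (.e (nat_lit 319534) (nat_lit 16) .nil))) .nil)) 
(.lf (nat_lit 13362) (.g (nat_lit 3070) (.e (nat_lit 998) (nat_lit 81) (.e (nat_lit 1449) (nat_lit 108) (.e (nat_lit 336060) (nat_lit 7) (.e (nat_lit 319534) (nat_lit 16) (.e (nat_lit 286756) (nat_lit 10) (.e (nat_lit 344097) (nat_lit 18) (.e (nat_lit 5195) (nat_lit 294) (.e (nat_lit 57363) (nat_lit 1) (.e (nat_lit 57825) (nat_lit 250) .nil))))))))) (.g (nat_lit 7) .nil .nil))))) 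
(.nd (nat_lit 4) (.nd (nat_lit 5) 
(.lf (nat_lit 13322) (.g (nat_lit 2351) (.e (nat_lit 993) (nat_lit 81) (.e (nat_lit 720) (nat_lit 64) (.e (nat_lit 688177) (nat_lit 16) (.e (nat_lit 65571) (nat_lit 3) (.e (nat_lit 98359) (nat_lit 26) .nil))))) .nil)) 
(.lf (nat_lit 13354) (.g (nat_lit 3212) (.e (nat_lit 996) (nat_lit 81) (.e (nat_lit 4842) (nat_lit 283) (.e (nat_lit 57379) (nat_lit 3) (.e (nat_lit 98372) (nat_lit 29) (.e (nat_lit 450579) (nat_lit 5) (.e (nat_lit 532534) (nat_lit 9) (.e (nat_lit 335878) (nat_lit 0) .nil))))))) (.g (nat_lit 7) .nil .nil)))) (.nd (nat_lit 5) 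
(.lf (nat_lit 13338) (.g (nat_lit 1432) (.e (nat_lit 993) (nat_lit 81) (.e (nat_lit 7125) (nat_lit 382) (.e (nat_lit 1222) (nat_lit 90) (.e (nat_lit 81935) (nat_lit 20) .nil)))) .nil)) 
(.lf (nat_lit 13370) (.g (nat_lit 3085) (.e (nat_lit 999) (nat_lit 81) (.e (nat_lit 1239) (nat_lit 91) (.e (nat_lit 98048) (nat_lit 5) (.e (nat_lit 73746) (nat_lit 3) (.e (nat_lit 516129) (nat_lit 3) (.e (nat_lit 221210) (nat_lit 22) (.e (nat_lit 196661) (nat_lit 12) (.e (nat_lit 57360) (nat_lit 0) (.e (nat_lit 5818) (nat_lit 320) .nil))))))))) (.g (nat_lit 7) .nil .nil)))))) 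
(.nd (nat_lit 3) (.nd (nat_lit 4) (.nd (nat_lit 5) 
(.lf (nat_lit 13318) (.g (nat_lit 2228) (.e (nat_lit 993) (nat_lit 81) (.e (nat_lit 618) (nat_lit 48) (.e (nat_lit 557109) (nat_lit 15) (.e (nat_lit 188435) (nat_lit 20) .nil)))) .nil)) 
(.lf (nat_lit 13350) (.g (nat_lit 2607) (.e (nat_lit 996) (nat_lit 81) (.e (nat_lit 1669) (nat_lit 116) (.e (nat_lit 401454) (nat_lit 12) (.e (nat_lit 475208) (nat_lit 41) .nil)))) .nil))) (.nd (nat_lit 5) 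
(.lf (nat_lit 13334) (.g (nat_lit 4807) (.e (nat_lit 993) (nat_lit 81) (.e (nat_lit 4780) (nat_lit 281) (.e (nat_lit 1011) (nat_lit 81) (.e (nat_lit 1239) (nat_lit 91) (.e (nat_lit 90170) (nat_lit 13) (.e (nat_lit 172106) (nat_lit 10) (.e (nat_lit 434231) (nat_lit 23) (.e (nat_lit 532535) (nat_lit 9) (.e (nat_lit 335925) (nat_lit 0) .nil))))))))) (.g (nat_lit 0) .nil .nil))) 
(.lf (nat_lit 13366) (.g (nat_lit 1381) (.e (nat_lit 999) (nat_lit 81) (.e (nat_lit 720) (nat_lit 64) (.e (nat_lit 688177) (nat_lit 16) (.e (nat_lit 65566) (nat_lit 2) (.e (nat_lit 90170) (nat_lit 13) .nil))))) .nil)))) (.nd (nat_lit 4) (.nd (nat_lit 5) 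
(.lf (nat_lit 13326) (.g (nat_lit 2042) (.e (nat_lit 993) (nat_lit 81) (.e (nat_lit 1400) (nat_lit 106) (.e (nat_lit 319534) (nat_lit 16) (.e (nat_lit 286761) (nat_lit 13) .nil)))) .nil)) 
(.lf (nat_lit 13358) (.g (nat_lit 2602) (.e (nat_lit 996) (nat_lit 81) (.e (nat_lit 7695) (nat_lit 412) (.e (nat_lit 57379) (nat_lit 3) (.e (nat_lit 98365) (nat_lit 26) (.e (nat_lit 426133) (nat_lit 3) (.e (nat_lit 204809) (nat_lit 9) (.e (nat_lit 426139) (nat_lit 3) (.e (nat_lit 204815) (nat_lit 17) .nil)))))))) (.g (nat_lit 5) .nil .nil)))) (.nd (nat_lit 5) 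
(.lf (nat_lit 13342) (.g (nat_lit 2584) (.e (nat_lit 994) (nat_lit 81) (.e (nat_lit 1239) (nat_lit 91) (.e (nat_lit 90170) (nat_lit 13) (.e (nat_lit 172106) (nat_lit 10) (.e (nat_lit 434231) (nat_lit 23) .nil))))) .nil)) 
(.lf (nat_lit 13374) (.g (nat_lit 2847) (.e (nat_lit 999) (nat_lit 81) (.e (nat_lit 1239) (nat_lit 91) (.e (nat_lit 98048) (nat_lit 5) (.e (nat_lit 73753) (nat_lit 8) (.e (nat_lit 557105) (nat_lit 14) (.e (nat_lit 180251) (nat_lit 10) (.e (nat_lit 573478) (nat_lit 12) (.e (nat_lit 57360) (nat_lit 0) (.e (nat_lit 5818) (nat_lit 320) .nil))))))))) (.g (nat_lit 6) .nil .nil)))))))) 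
(.nd (nat_lit 1) (.nd (nat_lit 2) (.nd (nat_lit 3) (.nd (nat_lit 4) (.nd (nat_lit 5) 
(.lf (nat_lit 13313) (.g (nat_lit 1554) (.e (nat_lit 993) (nat_lit 81) (.e (nat_lit 618) (nat_lit 48) (.e (nat_lit 557109) (nat_lit 15) (.e (nat_lit 196352) (nat_lit 19) .nil)))) .nil)) 
(.lf (nat_lit 13345) (.g (nat_lit 2691) (.e (nat_lit 994) (nat_lit 81) (.e (nat_lit 2031) (nat_lit 140) (.e (nat_lit 688177) (nat_lit 16) (.e (nat_lit 65586) (nat_lit 7) (.e (nat_lit 319531) (nat_lit 16) (.e (nat_lit 286748) (nat_lit 9) (.e (nat_lit 336295) (nat_lit 15) (.e (nat_lit 3629) (nat_lit 227) (.e (nat_lit 778297) (nat_lit 0) .nil))))))))) (.g (nat_lit 5) .nil .nil)))) (.nd (nat_lit 5) 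
(.lf (nat_lit 13329) (.g (nat_lit 2178) (.e (nat_lit 993) (nat_lit 81) (.e (nat_lit 1401) (nat_lit 106) (.e (nat_lit 319531) (nat_lit 16) (.e (nat_lit 286761) (nat_lit 13) (.e (nat_lit 393289) (nat_lit 25) .nil))))) .nil)) 
(.lf (nat_lit 13361) (.g (nat_lit 1617) (.e (nat_lit 998) (nat_lit 81) (.e (nat_lit 1401) (nat_lit 106) (.e (nat_lit 319531) (nat_lit 16) (.e (nat_lit 286748) (nat_lit 9) (.e (nat_lit 336389) (nat_lit 27) (.e (nat_lit 426300) (nat_lit 11) (.e (nat_lit 458774) (nat_lit 18) (.e (nat_lit 5802) (nat_lit 320) .nil)))))))) (.g (nat_lit 4) .nil .nil))))) (.nd (nat_lit 4) (.nd (nat_lit 5) 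
(.lf (nat_lit 13321) (.g (nat_lit 1688) (.e (nat_lit 993) (nat_lit 81) (.e (nat_lit 618) (nat_lit 48) (.e (nat_lit 557109) (nat_lit 15) (.e (nat_lit 188455) (nat_lit 24) .nil)))) .nil)) 
(.lf (nat_lit 13353) (.g (nat_lit 2915) (.e (nat_lit 996) (nat_lit 81) (.e (nat_lit 4842) (nat_lit 283) (.e (nat_lit 57379) (nat_lit 3) (.e (nat_lit 98372) (nat_lit 29) (.e (nat_lit 450579) (nat_lit 5) (.e (nat_lit 532530) (nat_lit 9) (.e (nat_lit 335878) (nat_lit 0) .nil))))))) (.g (nat_lit 6) .nil .nil)))) (.nd (nat_lit 5) 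
(.lf (nat_lit 13337) (.g (nat_lit 1404) (.e (nat_lit 993) (nat_lit 81) (.e (nat_lit 7122) (nat_lit 382) (.e (nat_lit 1201) (nat_lit 88) (.e (nat_lit 65610) (nat_lit 10) (.e (nat_lit 344097) (nat_lit 18) .nil))))) .nil)) 
(.lf (nat_lit 13369) (.g (nat_lit 1317) (.e (nat_lit 999) (nat_lit 81) (.e (nat_lit 1239) (nat_lit 91) (.e (nat_lit 98048) (nat_lit 5) (.e (nat_lit 73746) (nat_lit 3) (.e (nat_lit 516124) (nat_lit 2) (.e (nat_lit 213013) (nat_lit 9) (.e (nat_lit 2684) (nat_lit 168) (.e (nat_lit 204840) (nat_lit 21) (.e (nat_lit 123185) (nat_lit 264) .nil))))))))) (.g (nat_lit 5) .nil .nil)))))) 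
(.nd (nat_lit 3) (.nd (nat_lit 4) (.nd (nat_lit 5) 
(.lf (nat_lit 13317) (.g (nat_lit 2952) (.e (nat_lit 993) (nat_lit 81) (.e (nat_lit 618) (nat_lit 48) (.e (nat_lit 557109) (nat_lit 15) (.e (nat_lit 188434) (nat_lit 20) (.e (nat_lit 3578) (nat_lit 223) .nil))))) .nil)) 
(.lf (nat_lit 13349) (.g (nat_lit 2226) (.e (nat_lit 996) (nat_lit 81) (.e (nat_lit 1669) (nat_lit 116) (.e (nat_lit 401454) (nat_lit 12) (.e (nat_lit 475207) (nat_lit 41) (.e (nat_lit 712755) (nat_lit 30) .nil))))) .nil))) (.nd (nat_lit 5) 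
(.lf (nat_lit 13333) (.g (nat_lit 3816) (.e (nat_lit 993) (nat_lit 81) (.e (nat_lit 2031) (nat_lit 140) (.e (nat_lit 688177) (nat_lit 16) (.e (nat_lit 65586) (nat_lit 7) (.e (nat_lit 319531) (nat_lit 16) (.e (nat_lit 286748) (nat_lit 9) (.e (nat_lit 336295) (nat_lit 15) (.e (nat_lit 3630) (nat_lit 227) (.e (nat_lit 778297) (nat_lit 0) .nil))))))))) (.g (nat_lit 7) .nil .nil))) 
(.lf (nat_lit 13365) (.g (nat_lit 4590) (.e (nat_lit 998) (nat_lit 81) (.e (nat_lit 2283) (nat_lit 150) (.e (nat_lit 770072) (nat_lit 8) (.e (nat_lit 65568) (nat_lit 2) (.e (nat_lit 90170) (nat_lit 13) (.e (nat_lit 172106) (nat_lit 10) (.e (nat_lit 434244) (nat_lit 28) (.e (nat_lit 573451) (nat_lit 9) .nil)))))))) (.g (nat_lit 8) .nil .nil))))) (.nd (nat_lit 4) (.nd (nat_lit 5) 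
(.lf (nat_lit 13325) (.g (nat_lit 603) (.e (nat_lit 993) (nat_lit 81) (.e (nat_lit 1400) (nat_lit 106) (.e (nat_lit 319534) (nat_lit 16) .nil))) .nil)) 
(.lf (nat_lit 13357) (.g (nat_lit 2410) (.e (nat_lit 996) (nat_lit 81) (.e (nat_lit 7695) (nat_lit 412) (.e (nat_lit 57373) (nat_lit 2) (.e (nat_lit 90185) (nat_lit 17) (.e (nat_lit 237594) (nat_lit 3) (.e (nat_lit 204809) (nat_lit 9) (.e (nat_lit 426139) (nat_lit 3) (.e (nat_lit 204815) (nat_lit 17) .nil)))))))) (.g (nat_lit 4) .nil .nil)))) (.nd (nat_lit 5) 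
(.lf (nat_lit 13341) (.g (nat_lit 534) (.e (nat_lit 993) (nat_lit 81) (.e (nat_lit 7266) (nat_lit 384) (.e (nat_lit 57427) (nat_lit 15) .nil))) .nil)) 
(.lf (nat_lit 13373) (.g (nat_lit 2968) (.e (nat_lit 999) (nat_lit 81) (.e (nat_lit 1239) (nat_lit 91) (.e (nat_lit 98048) (nat_lit 5) (.e (nat_lit 73753) (nat_lit 8) (.e (nat_lit 557105) (nat_lit 14) (.e (nat_lit 180251) (nat_lit 10) (.e (nat_lit 573477) (nat_lit 12) (.e (nat_lit 57360) (nat_lit 0) (.e (nat_lit 5818) (nat_lit 320) .nil))))))))) (.g (nat_lit 6) .nil .nil))))))) 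
(.nd (nat_lit 2) (.nd (nat_lit 3) (.nd (nat_lit 4) (.nd (nat_lit 5) 
(.lf (nat_lit 13315) (.g (nat_lit 1661) (.e (nat_lit 993) (nat_lit 81) (.e (nat_lit 618) (nat_lit 48) (.e (nat_lit 557109) (nat_lit 15) (.e (nat_lit 188434) (nat_lit 20) .nil)))) .nil)) 
(.lf (nat_lit 13347) (.g (nat_lit 3060) (.e (nat_lit 996) (nat_lit 81) (.e (nat_lit 1449) (nat_lit 108) (.e (nat_lit 336060) (nat_lit 7) (.e (nat_lit 319534) (nat_lit 16) (.e (nat_lit 286756) (nat_lit 10) (.e (nat_lit 344097) (nat_lit 18) (.e (nat_lit 5195) (nat_lit 294) (.e (nat_lit 57363) (nat_lit 1) (.e (nat_lit 57825) (nat_lit 250) .nil))))))))) (.g (nat_lit 7) .nil .nil)))) (.nd (nat_lit 5) 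
(.lf (nat_lit 13331) (.g (nat_lit 432) (.e (nat_lit 993) (nat_lit 81) (.e (nat_lit 1598) (nat_lit 111) (.e (nat_lit 360452) (nat_lit 0) .nil))) .nil)) 
(.lf (nat_lit 13363) (.g (nat_lit 4467) (.e (nat_lit 998) (nat_lit 81) (.e (nat_lit 2031) (nat_lit 140) (.e (nat_lit 688177) (nat_lit 16) (.e (nat_lit 65586) (nat_lit 7) (.e (nat_lit 319531) (nat_lit 16) (.e (nat_lit 286759) (nat_lit 12) (.e (nat_lit 385094) (nat_lit 49) (.e (nat_lit 778241) (nat_lit 0) .nil)))))))) (.g (nat_lit 8) .nil .nil))))) (.nd (nat_lit 4) (.nd (nat_lit 5) 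
(.lf (nat_lit 13323) (.g (nat_lit 1439) (.e (nat_lit 993) (nat_lit 81) (.e (nat_lit 1400) (nat_lit 106) (.e (nat_lit 319533) (nat_lit 16) (.e (nat_lit 286761) (nat_lit 13) .nil)))) .nil)) 
(.lf (nat_lit 13355) (.g (nat_lit 2293) (.e (nat_lit 996) (nat_lit 81) (.e (nat_lit 5896) (nat_lit 320) (.e (nat_lit 1199) (nat_lit 88) (.e (nat_lit 65628) (nat_lit 14) (.e (nat_lit 401458) (nat_lit 13) (.e (nat_lit 483383) (nat_lit 23) (.e (nat_lit 335878) (nat_lit 0) .nil))))))) (.g (nat_lit 5) .nil .nil)))) (.nd (nat_lit 5) 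
(.lf (nat_lit 13339) (.g (nat_lit 1866) (.e (nat_lit 993) (nat_lit 81) (.e (nat_lit 7125) (nat_lit 382) (.e (nat_lit 1222) (nat_lit 90) (.e (nat_lit 81948) (nat_lit 21) (.e (nat_lit 57683) (nat_lit 155) .nil))))) .nil)) 
(.lf (nat_lit 13371) (.g (nat_lit 2193) (.e (nat_lit 999) (nat_lit 81) (.e (nat_lit 1239) (nat_lit 91) (.e (nat_lit 98048) (nat_lit 5) (.e (nat_lit 73746) (nat_lit 3) (.e (nat_lit 516131) (nat_lit 3) (.e (nat_lit 221211) (nat_lit 22) (.e (nat_lit 196661) (nat_lit 12) (.e (nat_lit 57361) (nat_lit 0) (.e (nat_lit 5818) (nat_lit 320) .nil))))))))) (.g (nat_lit 7) .nil .nil)))))) 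
(.nd (nat_lit 3) (.nd (nat_lit 4) (.nd (nat_lit 5) 
(.lf (nat_lit 13319) (.g (nat_lit 1953) (.e (nat_lit 993) (nat_lit 81) (.e (nat_lit 618) (nat_lit 48) (.e (nat_lit 557109) (nat_lit 15) (.e (nat_lit 188441) (nat_lit 20) .nil)))) .nil)) 
(.lf (nat_lit 13351) (.g (nat_lit 4594) (.e (nat_lit 996) (nat_lit 81) (.e (nat_lit 2031) (nat_lit 140) (.e (nat_lit 688177) (nat_lit 16) (.e (nat_lit 65586) (nat_lit 7) (.e (nat_lit 319531) (nat_lit 16) (.e (nat_lit 286759) (nat_lit 12) (.e (nat_lit 385094) (nat_lit 49) (.e (nat_lit 778241) (nat_lit 0) .nil)))))))) (.g (nat_lit 0) .nil .nil)))) (.nd (nat_lit 5) 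
(.lf (nat_lit 13335) (.g (nat_lit 2130) (.e (nat_lit 993) (nat_lit 81) (.e (nat_lit 5896) (nat_lit 320) (.e (nat_lit 1181) (nat_lit 87) (.e (nat_lit 57479) (nat_lit 28) (.e (nat_lit 557100) (nat_lit 13) .nil))))) .nil)) 
(.lf (nat_lit 13367) (.g (nat_lit 1412) (.e (nat_lit 999) (nat_lit 81) (.e (nat_lit 720) (nat_lit 64) (.e (nat_lit 688177) (nat_lit 16) (.e (nat_lit 65627) (nat_lit 13) .nil)))) .nil)))) (.nd (nat_lit 4) (.nd (nat_lit 5) 
(.lf (nat_lit 13327) (.g (nat_lit 1244) (.e (nat_lit 993) (nat_lit 81) (.e (nat_lit 1401) (nat_lit 106) (.e (nat_lit 319531) (nat_lit 16) (.e (nat_lit 286748) (nat_lit 9) .nil)))) .nil)) 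
(.lf (nat_lit 13359) (.g (nat_lit 2005) (.e (nat_lit 996) (nat_lit 81) (.e (nat_lit 7697) (nat_lit 412) (.e (nat_lit 57373) (nat_lit 2) (.e (nat_lit 90185) (nat_lit 17) (.e (nat_lit 237594) (nat_lit 3) .nil))))) .nil))) (.nd (nat_lit 5) 
(.lf (nat_lit 13343) (.g (nat_lit 2407) (.e (nat_lit 994) (nat_lit 81) (.e (nat_lit 1669) (nat_lit 116) (.e (nat_lit 401454) (nat_lit 12) (.e (nat_lit 475193) (nat_lit 38) .nil)))) .nil)) 
(.lf (nat_lit 13375) (.g (nat_lit 3564) (.e (nat_lit 999) (nat_lit 81) (.e (nat_lit 1239) (nat_lit 91) (.e (nat_lit 98048) (nat_lit 5) (.e (nat_lit 73754) (nat_lit 8) (.e (nat_lit 557105) (nat_lit 14) (.e (nat_lit 180251) (nat_lit 10) (.e (nat_lit 573477) (nat_lit 12) (.e (nat_lit 57360) (nat_lit 0) (.e (nat_lit 5818) (nat_lit 320) .nil))))))))) (.g (nat_lit 7) .nil .nil)))))))))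

noncomputable def tv184 : DT := (.nd (nat_lit 0) (.nd (nat_lit 1) (.nd (nat_lit 2) (.nd (nat_lit 3) (.nd (nat_lit 4) (.nd (nat_lit 5) 
(.lf (nat_lit 13376) (.g (nat_lit 533) (.e (nat_lit 999) (nat_lit 81) (.e (nat_lit 1239) (nat_lit 91) (.e (nat_lit 98048) (nat_lit 6) .nil))) .nil)) 
(.lf (nat_lit 13408) (.g (nat_lit 1873) (.e (nat_lit 999) (nat_lit 81) (.e (nat_lit 1239) (nat_lit 91) (.e (nat_lit 90170) (nat_lit 13) (.e (nat_lit 172106) (nat_lit 10) (.e (nat_lit 434231) (nat_lit 23) (.e (nat_lit 532543) (nat_lit 10) (.e (nat_lit 344088) (nat_lit 18) (.e (nat_lit 4752) (nat_lit 281) .nil)))))))) (.g (nat_lit 4) .nil .nil)))) (.nd (nat_lit 5) 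
(.lf (nat_lit 13392) (.g (nat_lit 2330) (.e (nat_lit 999) (nat_lit 81) (.e (nat_lit 1239) (nat_lit 91) (.e (nat_lit 90170) (nat_lit 13) (.e (nat_lit 172065) (nat_lit 3) (.e (nat_lit 204838) (nat_lit 20) (.e (nat_lit 114719) (nat_lit 23) (.e (nat_lit 98325) (nat_lit 17) (.e (nat_lit 2515) (nat_lit 157) (.e (nat_lit 5818) (nat_lit 320) .nil))))))))) (.g (nat_lit 4) .nil .nil))) 
(.lf (nat_lit 13424) (.g (nat_lit 2401) (.e (nat_lit 999) (nat_lit 81) (.e (nat_lit 1239) (nat_lit 91) (.e (nat_lit 90173) (nat_lit 14) (.e (nat_lit 180252) (nat_lit 10) (.e (nat_lit 573489) (nat_lit 14) (.e (nat_lit 73755) (nat_lit 8) (.e (nat_lit 557090) (nat_lit 12) (.e (nat_lit 163843) (nat_lit 0) (.e (nat_lit 5809) (nat_lit 320) .nil))))))))) (.g (nat_lit 4) .nil .nil))))) 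
(.nd (nat_lit 4) (.nd (nat_lit 5) 
(.lf (nat_lit 13384) (.g (nat_lit 2268) (.e (nat_lit 999) (nat_lit 81) (.e (nat_lit 1239) (nat_lit 91) (.e (nat_lit 90159) (nat_lit 11) (.e (nat_lit 24627) (nat_lit 9) (.e (nat_lit 336454) (nat_lit 34) (.e (nat_lit 483364) (nat_lit 18) (.e (nat_lit 57830) (nat_lit 250) .nil))))))) (.g (nat_lit 4) .nil .nil))) 
(.lf (nat_lit 13416) (.g (nat_lit 2121) (.e (nat_lit 999) (nat_lit 81) (.e (nat_lit 1239) (nat_lit 91) (.e (nat_lit 90170) (nat_lit 13) (.e (nat_lit 172121) (nat_lit 13) (.e (nat_lit 483337) (nat_lit 9) (.e (nat_lit 426107) (nat_lit 1) (.e (nat_lit 164378) (nat_lit 254) .nil))))))) (.g (nat_lit 4) .nil .nil)))) (.nd (nat_lit 5) 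
(.lf (nat_lit 13400) (.g (nat_lit 2083) (.e (nat_lit 999) (nat_lit 81) (.e (nat_lit 1239) (nat_lit 91) (.e (nat_lit 90170) (nat_lit 13) (.e (nat_lit 172106) (nat_lit 10) (.e (nat_lit 434231) (nat_lit 23) (.e (nat_lit 532535) (nat_lit 9) (.e (nat_lit 335905) (nat_lit 0) (.e (nat_lit 968) (nat_lit 81) (.e (nat_lit 4752) (nat_lit 281) .nil))))))))) (.g (nat_lit 4) .nil .nil))) 
(.lf (nat_lit 13432) (.g (nat_lit 845) (.e (nat_lit 999) (nat_lit 81) (.e (nat_lit 1256) (nat_lit 92) (.e (nat_lit 98359) (nat_lit 26) (.e (nat_lit 426324) (nat_lit 13) .nil)))) .nil))))) (.nd (nat_lit 3) (.nd (nat_lit 4) (.nd (nat_lit 5) 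
(.lf (nat_lit 13380) (.g (nat_lit 1667) (.e (nat_lit 999) (nat_lit 81) (.e (nat_lit 1239) (nat_lit 91) (.e (nat_lit 90134) (nat_lit 9) (.e (nat_lit 249) (nat_lit 21) .nil)))) .nil)) 
(.lf (nat_lit 13412) (.g (nat_lit 2942) (.e (nat_lit 999) (nat_lit 81) (.e (nat_lit 1239) (nat_lit 91) (.e (nat_lit 90170) (nat_lit 13) (.e (nat_lit 172106) (nat_lit 10) (.e (nat_lit 434231) (nat_lit 23) (.e (nat_lit 532563) (nat_lit 15) (.e (nat_lit 385043) (nat_lit 21) (.e (nat_lit 6854) (nat_lit 371) .nil)))))))) (.g (nat_lit 5) .nil .nil)))) (.nd (nat_lit 5) 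
(.lf (nat_lit 13396) (.g (nat_lit 2917) (.e (nat_lit 999) (nat_lit 81) (.e (nat_lit 1239) (nat_lit 91) (.e (nat_lit 90170) (nat_lit 13) (.e (nat_lit 172067) (nat_lit 3) (.e (nat_lit 204838) (nat_lit 20) .nil))))) .nil)) 
(.lf (nat_lit 13428) (.g (nat_lit 3414) (.e (nat_lit 999) (nat_lit 81) (.e (nat_lit 1256) (nat_lit 92) (.e (nat_lit 98342) (nat_lit 20) (.e (nat_lit 221212) (nat_lit 22) (.e (nat_lit 196668) (nat_lit 14) (.e (nat_lit 73747) (nat_lit 3) (.e (nat_lit 516115) (nat_lit 1) (.e (nat_lit 164153) (nat_lit 152) .nil)))))))) (.g (nat_lit 7) .nil .nil))))) (.nd (nat_lit 4) (.nd (nat_lit 5) 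
(.lf (nat_lit 13388) (.g (nat_lit 1772) (.e (nat_lit 999) (nat_lit 81) (.e (nat_lit 1239) (nat_lit 91) (.e (nat_lit 90170) (nat_lit 13) (.e (nat_lit 172065) (nat_lit 3) .nil)))) .nil)) 
(.lf (nat_lit 13420) (.g (nat_lit 2426) (.e (nat_lit 999) (nat_lit 81) (.e (nat_lit 1239) (nat_lit 91) (.e (nat_lit 90170) (nat_lit 13) (.e (nat_lit 172123) (nat_lit 13) (.e (nat_lit 483337) (nat_lit 9) .nil))))) .nil))) (.nd (nat_lit 5) 
(.lf (nat_lit 13404) (.g (nat_lit 3424) (.e (nat_lit 999) (nat_lit 81) (.e (nat_lit 1239) (nat_lit 91) (.e (nat_lit 90170) (nat_lit 13) (.e (nat_lit 172106) (nat_lit 10) (.e (nat_lit 434231) (nat_lit 23) (.e (nat_lit 532535) (nat_lit 9) (.e (nat_lit 335925) (nat_lit 0) (.e (nat_lit 991) (nat_lit 81) (.e (nat_lit 4752) (nat_lit 281) .nil))))))))) (.g (nat_lit 6) .nil .nil))) 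
(.lf (nat_lit 13436) (.g (nat_lit 1375) (.e (nat_lit 999) (nat_lit 81) (.e (nat_lit 1256) (nat_lit 92) (.e (nat_lit 98370) (nat_lit 28) (.e (nat_lit 442390) (nat_lit 11) (.e (nat_lit 336387) (nat_lit 27) .nil))))) .nil)))))) (.nd (nat_lit 2) (.nd (nat_lit 3) (.nd (nat_lit 4) (.nd (nat_lit 5) 
(.lf (nat_lit 13378) (.g (nat_lit 2559) (.e (nat_lit 999) (nat_lit 81) (.e (nat_lit 1239) (nat_lit 91) (.e (nat_lit 98048) (nat_lit 6) (.e (nat_lit 81956) (nat_lit 23) (.e (nat_lit 98356) (nat_lit 26) (.e (nat_lit 426422) (nat_lit 16) (.e (nat_lit 57724) (nat_lit 181) .nil))))))) (.g (nat_lit 5) .nil .nil))) 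
(.lf (nat_lit 13410) (.g (nat_lit 1868) (.e (nat_lit 999) (nat_lit 81) (.e (nat_lit 1239) (nat_lit 91) (.e (nat_lit 90170) (nat_lit 13) (.e (nat_lit 172106) (nat_lit 10) (.e (nat_lit 434231) (nat_lit 23) (.e (nat_lit 532544) (nat_lit 10) (.e (nat_lit 344089) (nat_lit 18) (.e (nat_lit 4752) (nat_lit 281) .nil)))))))) (.g (nat_lit 4) .nil .nil)))) (.nd (nat_lit 5) 
(.lf (nat_lit 13394) (.g (nat_lit 2009) (.e (nat_lit 999) (nat_lit 81) (.e (nat_lit 1239) (nat_lit 91) (.e (nat_lit 90170) (nat_lit 13) (.e (nat_lit 172067) (nat_lit 3) .nil)))) .nil)) 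
(.lf (nat_lit 13426) (.g (nat_lit 2427) (.e (nat_lit 999) (nat_lit 81) (.e (nat_lit 1239) (nat_lit 91) (.e (nat_lit 90174) (nat_lit 14) (.e (nat_lit 180250) (nat_lit 10) (.e (nat_lit 573489) (nat_lit 14) (.e (nat_lit 73755) (nat_lit 8) (.e (nat_lit 557090) (nat_lit 12) (.e (nat_lit 163844) (nat_lit 0) (.e (nat_lit 5809) (nat_lit 320) .nil))))))))) (.g (nat_lit 4) .nil .nil))))) 
(.nd (nat_lit 4) (.nd (nat_lit 5) 
(.lf (nat_lit 13386) (.g (nat_lit 3446) (.e (nat_lit 999) (nat_lit 81) (.e (nat_lit 1239) (nat_lit 91) (.e (nat_lit 90160) (nat_lit 11) (.e (nat_lit 24627) (nat_lit 9) (.e (nat_lit 336454) (nat_lit 34) (.e (nat_lit 483364) (nat_lit 18) (.e (nat_lit 57830) (nat_lit 250) .nil))))))) (.g (nat_lit 5) .nil .nil))) 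
(.lf (nat_lit 13418) (.g (nat_lit 1826) (.e (nat_lit 999) (nat_lit 81) (.e (nat_lit 1239) (nat_lit 91) (.e (nat_lit 90170) (nat_lit 13) (.e (nat_lit 172121) (nat_lit 13) (.e (nat_lit 491264) (nat_lit 10) .nil))))) .nil))) (.nd (nat_lit 5) 
(.lf (nat_lit 13402) (.g (nat_lit 2358) (.e (nat_lit 999) (nat_lit 81) (.e (nat_lit 1239) (nat_lit 91) (.e (nat_lit 90170) (nat_lit 13) (.e (nat_lit 172106) (nat_lit 10) (.e (nat_lit 434231) (nat_lit 23) (.e (nat_lit 532535) (nat_lit 9) (.e (nat_lit 335908) (nat_lit 0) (.e (nat_lit 972) (nat_lit 81) (.e (nat_lit 4751) (nat_lit 281) .nil))))))))) (.g (nat_lit 5) .nil .nil))) 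
(.lf (nat_lit 13434) (.g (nat_lit 1128) (.e (nat_lit 999) (nat_lit 81) (.e (nat_lit 1256) (nat_lit 92) (.e (nat_lit 98359) (nat_lit 26) (.e (nat_lit 426329) (nat_lit 13) .nil)))) .nil))))) (.nd (nat_lit 3) (.nd (nat_lit 4) (.nd (nat_lit 5) 
(.lf (nat_lit 13382) (.g (nat_lit 2485) (.e (nat_lit 999) (nat_lit 81) (.e (nat_lit 1239) (nat_lit 91) (.e (nat_lit 90157) (nat_lit 11) (.e (nat_lit 24657) (nat_lit 13) (.e (nat_lit 393229) (nat_lit 9) (.e (nat_lit 335996) (nat_lit 1) (.e (nat_lit 57830) (nat_lit 250) .nil))))))) (.g (nat_lit 5) .nil .nil))) 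
(.lf (nat_lit 13414) (.g (nat_lit 2653) (.e (nat_lit 999) (nat_lit 81) (.e (nat_lit 1239) (nat_lit 91) (.e (nat_lit 90170) (nat_lit 13) (.e (nat_lit 172113) (nat_lit 10) (.e (nat_lit 434207) (nat_lit 18) .nil))))) .nil))) (.nd (nat_lit 5) 
(.lf (nat_lit 13398) (.g (nat_lit 1849) (.e (nat_lit 999) (nat_lit 81) (.e (nat_lit 1239) (nat_lit 91) (.e (nat_lit 90170) (nat_lit 13) (.e (nat_lit 172106) (nat_lit 10) (.e (nat_lit 434231) (nat_lit 23) .nil))))) .nil)) 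
(.lf (nat_lit 13430) (.g (nat_lit 1036) (.e (nat_lit 999) (nat_lit 81) (.e (nat_lit 1256) (nat_lit 92) (.e (nat_lit 98359) (nat_lit 26) (.e (nat_lit 426132) (nat_lit 3) .nil)))) .nil)))) (.nd (nat_lit 4) (.nd (nat_lit 5) 
(.lf (nat_lit 13390) (.g (nat_lit 2537) (.e (nat_lit 999) (nat_lit 81) (.e (nat_lit 1239) (nat_lit 91) (.e (nat_lit 90170) (nat_lit 13) (.e (nat_lit 172065) (nat_lit 3) (.e (nat_lit 204837) (nat_lit 20) (.e (nat_lit 114718) (nat_lit 23) (.e (nat_lit 98334) (nat_lit 18) (.e (nat_lit 164383) (nat_lit 254) .nil)))))))) (.g (nat_lit 4) .nil .nil))) 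
(.lf (nat_lit 13422) (.g (nat_lit 2608) (.e (nat_lit 999) (nat_lit 81) (.e (nat_lit 1239) (nat_lit 91) (.e (nat_lit 90170) (nat_lit 13) (.e (nat_lit 172123) (nat_lit 13) (.e (nat_lit 483337) (nat_lit 9) (.e (nat_lit 426107) (nat_lit 1) (.e (nat_lit 164385) (nat_lit 254) .nil))))))) (.g (nat_lit 4) .nil .nil)))) (.nd (nat_lit 5) 
(.lf (nat_lit 13406) (.g (nat_lit 2656) (.e (nat_lit 999) (nat_lit 81) (.e (nat_lit 1239) (nat_lit 91) (.e (nat_lit 90170) (nat_lit 13) (.e (nat_lit 172106) (nat_lit 10) (.e (nat_lit 434231) (nat_lit 23) (.e (nat_lit 532535) (nat_lit 9) (.e (nat_lit 335928) (nat_lit 0) (.e (nat_lit 991) (nat_lit 81) (.e (nat_lit 4752) (nat_lit 281) .nil))))))))) (.g (nat_lit 7) .nil .nil))) 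
(.lf (nat_lit 13438) (.g (nat_lit 1557) (.e (nat_lit 999) (nat_lit 81) (.e (nat_lit 1256) (nat_lit 92) (.e (nat_lit 98370) (nat_lit 28) (.e (nat_lit 450304) (nat_lit 18) (.e (nat_lit 393238) (nat_lit 17) (.e (nat_lit 2484) (nat_lit 157) (.e (nat_lit 5818) (nat_lit 320) .nil))))))) (.g (nat_lit 5) .nil .nil)))))))) 
(.nd (nat_lit 1) (.nd (nat_lit 2) (.nd (nat_lit 3) (.nd (nat_lit 4) (.nd (nat_lit 5) 
(.lf (nat_lit 13377) (.g (nat_lit 2481) (.e (nat_lit 999) (nat_lit 81) (.e (nat_lit 1239) (nat_lit 91) (.e (nat_lit 98048) (nat_lit 6) (.e (nat_lit 81954) (nat_lit 23) (.e (nat_lit 98356) (nat_lit 26) (.e (nat_lit 426422) (nat_lit 16) (.e (nat_lit 57724) (nat_lit 181) .nil))))))) (.g (nat_lit 5) .nil .nil))) 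
(.lf (nat_lit 13409) (.g (nat_lit 1889) (.e (nat_lit 999) (nat_lit 81) (.e (nat_lit 1239) (nat_lit 91) (.e (nat_lit 90170) (nat_lit 13) (.e (nat_lit 172106) (nat_lit 10) (.e (nat_lit 434231) (nat_lit 23) (.e (nat_lit 532544) (nat_lit 10) (.e (nat_lit 344087) (nat_lit 18) (.e (nat_lit 4752) (nat_lit 281) .nil)))))))) (.g (nat_lit 4) .nil .nil)))) (.nd (nat_lit 5) 
(.lf (nat_lit 13393) (.g (nat_lit 3028) (.e (nat_lit 999) (nat_lit 81) (.e (nat_lit 1239) (nat_lit 91) (.e (nat_lit 90170) (nat_lit 13) (.e (nat_lit 172065) (nat_lit 3) (.e (nat_lit 204838) (nat_lit 20) (.e (nat_lit 114719) (nat_lit 23) (.e (nat_lit 98334) (nat_lit 18) (.e (nat_lit 164379) (nat_lit 254) .nil)))))))) (.g (nat_lit 5) .nil .nil))) 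
(.lf (nat_lit 13425) (.g (nat_lit 2395) (.e (nat_lit 999) (nat_lit 81) (.e (nat_lit 1239) (nat_lit 91) (.e (nat_lit 90174) (nat_lit 14) (.e (nat_lit 180250) (nat_lit 10) (.e (nat_lit 573489) (nat_lit 14) (.e (nat_lit 73755) (nat_lit 8) (.e (nat_lit 557090) (nat_lit 12) (.e (nat_lit 163844) (nat_lit 0) (.e (nat_lit 5807) (nat_lit 320) .nil))))))))) (.g (nat_lit 4) .nil .nil))))) 
(.nd (nat_lit 4) (.nd (nat_lit 5) 
(.lf (nat_lit 13385) (.g (nat_lit 2110) (.e (nat_lit 999) (nat_lit 81) (.e (nat_lit 1239) (nat_lit 91) (.e (nat_lit 90159) (nat_lit 11) (.e (nat_lit 24657) (nat_lit 13) (.e (nat_lit 393229) (nat_lit 9) (.e (nat_lit 335988) (nat_lit 1) (.e (nat_lit 57830) (nat_lit 250) .nil))))))) (.g (nat_lit 4) .nil .nil))) 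
(.lf (nat_lit 13417) (.g (nat_lit 1889) (.e (nat_lit 999) (nat_lit 81) (.e (nat_lit 1239) (nat_lit 91) (.e (nat_lit 90170) (nat_lit 13) (.e (nat_lit 172121) (nat_lit 13) (.e (nat_lit 483337) (nat_lit 9) (.e (nat_lit 426108) (nat_lit 1) (.e (nat_lit 164385) (nat_lit 254) .nil))))))) (.g (nat_lit 4) .nil .nil)))) (.nd (nat_lit 5) 
(.lf (nat_lit 13401) (.g (nat_lit 1920) (.e (nat_lit 999) (nat_lit 81) (.e (nat_lit 1239) (nat_lit 91) (.e (nat_lit 90170) (nat_lit 13) (.e (nat_lit 172106) (nat_lit 10) (.e (nat_lit 434231) (nat_lit 23) (.e (nat_lit 532535) (nat_lit 9) (.e (nat_lit 335905) (nat_lit 0) (.e (nat_lit 970) (nat_lit 81) (.e (nat_lit 4751) (nat_lit 281) .nil))))))))) (.g (nat_lit 4) .nil .nil))) 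
(.lf (nat_lit 13433) (.g (nat_lit 1326) (.e (nat_lit 999) (nat_lit 81) (.e (nat_lit 1256) (nat_lit 92) (.e (nat_lit 98359) (nat_lit 26) (.e (nat_lit 426324) (nat_lit 13) (.e (nat_lit 483341) (nat_lit 9) .nil))))) .nil))))) (.nd (nat_lit 3) (.nd (nat_lit 4) (.nd (nat_lit 5) 
(.lf (nat_lit 13381) (.g (nat_lit 1762) (.e (nat_lit 999) (nat_lit 81) (.e (nat_lit 1239) (nat_lit 91) (.e (nat_lit 90134) (nat_lit 9) (.e (nat_lit 290) (nat_lit 21) (.e (nat_lit 336214) (nat_lit 13) .nil))))) .nil)) 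
(.lf (nat_lit 13413) (.g (nat_lit 2631) (.e (nat_lit 999) (nat_lit 81) (.e (nat_lit 1239) (nat_lit 91) (.e (nat_lit 90170) (nat_lit 13) (.e (nat_lit 172113) (nat_lit 10) (.e (nat_lit 434203) (nat_lit 18) .nil))))) .nil))) (.nd (nat_lit 5) 
(.lf (nat_lit 13397) (.g (nat_lit 3018) (.e (nat_lit 999) (nat_lit 81) (.e (nat_lit 1239) (nat_lit 91) (.e (nat_lit 90170) (nat_lit 13) (.e (nat_lit 172067) (nat_lit 3) (.e (nat_lit 204838) (nat_lit 20) (.e (nat_lit 114718) (nat_lit 23) (.e (nat_lit 98334) (nat_lit 18) (.e (nat_lit 164383) (nat_lit 254) .nil)))))))) (.g (nat_lit 4) .nil .nil))) 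
(.lf (nat_lit 13429) (.g (nat_lit 3586) (.e (nat_lit 999) (nat_lit 81) (.e (nat_lit 1256) (nat_lit 92) (.e (nat_lit 98342) (nat_lit 20) (.e (nat_lit 221212) (nat_lit 22) (.e (nat_lit 196670) (nat_lit 14) (.e (nat_lit 73746) (nat_lit 3) (.e (nat_lit 516115) (nat_lit 1) (.e (nat_lit 164153) (nat_lit 152) .nil)))))))) (.g (nat_lit 7) .nil .nil))))) (.nd (nat_lit 4) (.nd (nat_lit 5) 
(.lf (nat_lit 13389) (.g (nat_lit 2329) (.e (nat_lit 999) (nat_lit 81) (.e (nat_lit 1239) (nat_lit 91) (.e (nat_lit 90170) (nat_lit 13) (.e (nat_lit 172065) (nat_lit 3) (.e (nat_lit 204837) (nat_lit 20) .nil))))) .nil)) 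
(.lf (nat_lit 13421) (.g (nat_lit 3069) (.e (nat_lit 999) (nat_lit 81) (.e (nat_lit 1239) (nat_lit 91) (.e (nat_lit 90170) (nat_lit 13) (.e (nat_lit 172123) (nat_lit 13) (.e (nat_lit 483337) (nat_lit 9) (.e (nat_lit 426107) (nat_lit 1) (.e (nat_lit 164383) (nat_lit 254) .nil))))))) (.g (nat_lit 5) .nil .nil)))) (.nd (nat_lit 5) 
(.lf (nat_lit 13405) (.g (nat_lit 2606) (.e (nat_lit 999) (nat_lit 81) (.e (nat_lit 1239) (nat_lit 91) (.e (nat_lit 90170) (nat_lit 13) (.e (nat_lit 172106) (nat_lit 10) (.e (nat_lit 434231) (nat_lit 23) (.e (nat_lit 532535) (nat_lit 9) (.e (nat_lit 335928) (nat_lit 0) (.e (nat_lit 990) (nat_lit 81) (.e (nat_lit 4752) (nat_lit 281) .nil))))))))) (.g (nat_lit 7) .nil .nil))) 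
(.lf (nat_lit 13437) (.g (nat_lit 863) (.e (nat_lit 999) (nat_lit 81) (.e (nat_lit 1256) (nat_lit 92) (.e (nat_lit 98370) (nat_lit 28) (.e (nat_lit 450304) (nat_lit 18) .nil)))) .nil)))))) (.nd (nat_lit 2) (.nd (nat_lit 3) (.nd (nat_lit 4) (.nd (nat_lit 5) 
(.lf (nat_lit 13379) (.g (nat_lit 533) (.e (nat_lit 999) (nat_lit 81) (.e (nat_lit 1239) (nat_lit 91) (.e (nat_lit 98048) (nat_lit 8) .nil))) .nil)) 
(.lf (nat_lit 13411) (.g (nat_lit 2020) (.e (nat_lit 999) (nat_lit 81) (.e (nat_lit 1239) (nat_lit 91) (.e (nat_lit 90170) (nat_lit 13) (.e (nat_lit 172106) (nat_lit 10) (.e (nat_lit 434231) (nat_lit 23) (.e (nat_lit 532544) (nat_lit 10) (.e (nat_lit 352000) (nat_lit 18) (.e (nat_lit 4751) (nat_lit 281) .nil)))))))) (.g (nat_lit 4) .nil .nil)))) (.nd (nat_lit 5) 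
(.lf (nat_lit 13395) (.g (nat_lit 3096) (.e (nat_lit 999) (nat_lit 81) (.e (nat_lit 1239) (nat_lit 91) (.e (nat_lit 90170) (nat_lit 13) (.e (nat_lit 172067) (nat_lit 3) (.e (nat_lit 204837) (nat_lit 20) .nil))))) .nil)) 
(.lf (nat_lit 13427) (.g (nat_lit 3166) (.e (nat_lit 999) (nat_lit 81) (.e (nat_lit 1239) (nat_lit 91) (.e (nat_lit 90189) (nat_lit 18) (.e (nat_lit 2788) (nat_lit 179) (.e (nat_lit 294959) (nat_lit 13) (.e (nat_lit 393229) (nat_lit 9) (.e (nat_lit 336033) (nat_lit 4) (.e (nat_lit 123185) (nat_lit 264) .nil)))))))) (.g (nat_lit 8) .nil .nil))))) (.nd (nat_lit 4) (.nd (nat_lit 5) 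
(.lf (nat_lit 13387) (.g (nat_lit 2818) (.e (nat_lit 999) (nat_lit 81) (.e (nat_lit 1239) (nat_lit 91) (.e (nat_lit 90160) (nat_lit 11) (.e (nat_lit 24657) (nat_lit 13) (.e (nat_lit 393229) (nat_lit 9) (.e (nat_lit 335988) (nat_lit 1) (.e (nat_lit 57830) (nat_lit 250) .nil))))))) (.g (nat_lit 4) .nil .nil))) 
(.lf (nat_lit 13419) (.g (nat_lit 1911) (.e (nat_lit 999) (nat_lit 81) (.e (nat_lit 1239) (nat_lit 91) (.e (nat_lit 90170) (nat_lit 13) (.e (nat_lit 172123) (nat_lit 13) .nil)))) .nil))) (.nd (nat_lit 5) 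
(.lf (nat_lit 13403) (.g (nat_lit 2328) (.e (nat_lit 999) (nat_lit 81) (.e (nat_lit 1239) (nat_lit 91) (.e (nat_lit 90170) (nat_lit 13) (.e (nat_lit 172106) (nat_lit 10) (.e (nat_lit 434231) (nat_lit 23) (.e (nat_lit 532535) (nat_lit 9) (.e (nat_lit 335925) (nat_lit 0) (.e (nat_lit 990) (nat_lit 81) (.e (nat_lit 4752) (nat_lit 281) .nil))))))))) (.g (nat_lit 5) .nil .nil))) 
(.lf (nat_lit 13435) (.g (nat_lit 2250) (.e (nat_lit 999) (nat_lit 81) (.e (nat_lit 1256) (nat_lit 92) (.e (nat_lit 98367) (nat_lit 27) (.e (nat_lit 434231) (nat_lit 23) (.e (nat_lit 532514) (nat_lit 3) .nil))))) .nil))))) (.nd (nat_lit 3) (.nd (nat_lit 4) (.nd (nat_lit 5) 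
(.lf (nat_lit 13383) (.g (nat_lit 780) (.e (nat_lit 999) (nat_lit 81) (.e (nat_lit 1239) (nat_lit 91) (.e (nat_lit 90158) (nat_lit 11) .nil))) .nil)) 
(.lf (nat_lit 13415) (.g (nat_lit 1888) (.e (nat_lit 999) (nat_lit 81) (.e (nat_lit 1239) (nat_lit 91) (.e (nat_lit 90170) (nat_lit 13) (.e (nat_lit 172121) (nat_lit 13) (.e (nat_lit 483337) (nat_lit 9) .nil))))) .nil))) (.nd (nat_lit 5) 
(.lf (nat_lit 13399) (.g (nat_lit 1921) (.e (nat_lit 999) (nat_lit 81) (.e (nat_lit 1239) (nat_lit 91) (.e (nat_lit 90170) (nat_lit 13) (.e (nat_lit 172106) (nat_lit 10) (.e (nat_lit 434231) (nat_lit 23) (.e (nat_lit 532535) (nat_lit 9) (.e (nat_lit 335901) (nat_lit 0) (.e (nat_lit 1049) (nat_lit 81) (.e (nat_lit 4751) (nat_lit 281) .nil))))))))) (.g (nat_lit 4) .nil .nil))) 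
(.lf (nat_lit 13431) (.g (nat_lit 1128) (.e (nat_lit 999) (nat_lit 81) (.e (nat_lit 1256) (nat_lit 92) (.e (nat_lit 98359) (nat_lit 26) (.e (nat_lit 426191) (nat_lit 9) .nil)))) .nil)))) (.nd (nat_lit 4) (.nd (nat_lit 5) 
(.lf (nat_lit 13391) (.g (nat_lit 2221) (.e (nat_lit 999) (nat_lit 81) (.e (nat_lit 1239) (nat_lit 91) (.e (nat_lit 90170) (nat_lit 13) (.e (nat_lit 172065) (nat_lit 3) (.e (nat_lit 204838) (nat_lit 20) .nil))))) .nil)) 
(.lf (nat_lit 13423) (.g (nat_lit 2368) (.e (nat_lit 999) (nat_lit 81) (.e (nat_lit 1239) (nat_lit 91) (.e (nat_lit 90173) (nat_lit 14) (.e (nat_lit 180252) (nat_lit 10) (.e (nat_lit 573489) (nat_lit 14) (.e (nat_lit 73755) (nat_lit 8) (.e (nat_lit 557090) (nat_lit 12) (.e (nat_lit 163843) (nat_lit 0) (.e (nat_lit 5807) (nat_lit 320) .nil))))))))) (.g (nat_lit 4) .nil .nil)))) (.nd (nat_lit 5) 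
(.lf (nat_lit 13407) (.g (nat_lit 2046) (.e (nat_lit 999) (nat_lit 81) (.e (nat_lit 1239) (nat_lit 91) (.e (nat_lit 90170) (nat_lit 13) (.e (nat_lit 172106) (nat_lit 10) (.e (nat_lit 434231) (nat_lit 23) (.e (nat_lit 532543) (nat_lit 10) (.e (nat_lit 344087) (nat_lit 18) (.e (nat_lit 4752) (nat_lit 281) .nil)))))))) (.g (nat_lit 4) .nil .nil))) 
(.lf (nat_lit 13439) (.g (nat_lit 1935) (.e (nat_lit 999) (nat_lit 81) (.e (nat_lit 1256) (nat_lit 92) (.e (nat_lit 98370) (nat_lit 28) (.e (nat_lit 450304) (nat_lit 18) (.e (nat_lit 393251) (nat_lit 18) (.e (nat_lit 164381) (nat_lit 254) .nil)))))) (.g (nat_lit 5) .nil .nil)))))))))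

noncomputable def tv185 : DT := (.nd (nat_lit 0) (.nd (nat_lit 1) (.nd (nat_lit 2) (.nd (nat_lit 3) (.nd (nat_lit 4) (.nd (nat_lit 5) 
(.lf (nat_lit 13440) (.g (nat_lit 2987) (.e (nat_lit 999) (nat_lit 81) (.e (nat_lit 1400) (nat_lit 106) (.e (nat_lit 319528) (nat_lit 16) (.e (nat_lit 286761) (nat_lit 13) (.e (nat_lit 393234) (nat_lit 17) (.e (nat_lit 7065) (nat_lit 377) (.e (nat_lit 1115) (nat_lit 82) (.e (nat_lit 8433) (nat_lit 138) .nil)))))))) (.g (nat_lit 6) .nil .nil))) 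
(.lf (nat_lit 13472) (.g (nat_lit 2750) (.e (nat_lit 999) (nat_lit 81) (.e (nat_lit 1422) (nat_lit 108) (.e (nat_lit 336454) (nat_lit 34) (.e (nat_lit 483380) (nat_lit 23) (.e (nat_lit 336324) (nat_lit 18) (.e (nat_lit 204830) (nat_lit 18) (.e (nat_lit 57830) (nat_lit 250) .nil))))))) (.g (nat_lit 6) .nil .nil)))) (.nd (nat_lit 5) 
(.lf (nat_lit 13456) (.g (nat_lit 2004) (.e (nat_lit 999) (nat_lit 81) (.e (nat_lit 1400) (nat_lit 106) (.e (nat_lit 319533) (nat_lit 16) (.e (nat_lit 286761) (nat_lit 13) (.e (nat_lit 393265) (nat_lit 22) .nil))))) .nil)) 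
(.lf (nat_lit 13488) (.g (nat_lit 2952) (.e (nat_lit 999) (nat_lit 81) (.e (nat_lit 2031) (nat_lit 140) (.e (nat_lit 688177) (nat_lit 16) (.e (nat_lit 65586) (nat_lit 7) (.e (nat_lit 319531) (nat_lit 16) (.e (nat_lit 286748) (nat_lit 9) (.e (nat_lit 336295) (nat_lit 15) (.e (nat_lit 3631) (nat_lit 227) (.e (nat_lit 786176) (nat_lit 0) .nil))))))))) (.g (nat_lit 5) .nil .nil))))) 
(.nd (nat_lit 4) (.nd (nat_lit 5) 
(.lf (nat_lit 13448) (.g (nat_lit 1720) (.e (nat_lit 999) (nat_lit 81) (.e (nat_lit 1400) (nat_lit 106) (.e (nat_lit 319532) (nat_lit 16) (.e (nat_lit 286761) (nat_lit 13) (.e (nat_lit 393265) (nat_lit 22) .nil))))) .nil)) 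
(.lf (nat_lit 13480) (.g (nat_lit 1686) (.e (nat_lit 999) (nat_lit 81) (.e (nat_lit 2031) (nat_lit 140) (.e (nat_lit 688177) (nat_lit 16) (.e (nat_lit 65581) (nat_lit 7) (.e (nat_lit 319533) (nat_lit 16) .nil))))) .nil))) (.nd (nat_lit 5) 
(.lf (nat_lit 13464) (.g (nat_lit 1869) (.e (nat_lit 999) (nat_lit 81) (.e (nat_lit 1400) (nat_lit 106) (.e (nat_lit 319534) (nat_lit 16) (.e (nat_lit 286760) (nat_lit 13) .nil)))) .nil)) 
(.lf (nat_lit 13496) (.g (nat_lit 4586) (.e (nat_lit 999) (nat_lit 81) (.e (nat_lit 2031) (nat_lit 140) (.e (nat_lit 688177) (nat_lit 16) (.e (nat_lit 65586) (nat_lit 7) (.e (nat_lit 319531) (nat_lit 16) (.e (nat_lit 286759) (nat_lit 12) (.e (nat_lit 385094) (nat_lit 49) (.e (nat_lit 778241) (nat_lit 0) .nil)))))))) (.g (nat_lit 8) .nil .nil)))))) 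
(.nd (nat_lit 3) (.nd (nat_lit 4) (.nd (nat_lit 5) 
(.lf (nat_lit 13444) (.g (nat_lit 3678) (.e (nat_lit 999) (nat_lit 81) (.e (nat_lit 1400) (nat_lit 106) (.e (nat_lit 319531) (nat_lit 16) (.e (nat_lit 286761) (nat_lit 13) (.e (nat_lit 393234) (nat_lit 17) (.e (nat_lit 7065) (nat_lit 377) (.e (nat_lit 1115) (nat_lit 82) (.e (nat_lit 8433) (nat_lit 138) .nil)))))))) (.g (nat_lit 7) .nil .nil))) 
(.lf (nat_lit 13476) (.g (nat_lit 3458) (.e (nat_lit 999) (nat_lit 81) (.e (nat_lit 1445) (nat_lit 108) (.e (nat_lit 336013) (nat_lit 2) (.e (nat_lit 90170) (nat_lit 13) (.e (nat_lit 172113) (nat_lit 10) .nil))))) .nil))) (.nd (nat_lit 5) 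
(.lf (nat_lit 13460) (.g (nat_lit 2243) (.e (nat_lit 999) (nat_lit 81) (.e (nat_lit 1400) (nat_lit 106) (.e (nat_lit 319534) (nat_lit 16) (.e (nat_lit 286742) (nat_lit 9) .nil)))) .nil)) 
(.lf (nat_lit 13492) (.g (nat_lit 3739) (.e (nat_lit 999) (nat_lit 81) (.e (nat_lit 2031) (nat_lit 140) (.e (nat_lit 688177) (nat_lit 16) (.e (nat_lit 65586) (nat_lit 7) (.e (nat_lit 319531) (nat_lit 16) (.e (nat_lit 286752) (nat_lit 10) (.e (nat_lit 344169) (nat_lit 40) (.e (nat_lit 671744) (nat_lit 0) .nil)))))))) (.g (nat_lit 5) .nil .nil))))) (.nd (nat_lit 4) (.nd (nat_lit 5) 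
(.lf (nat_lit 13452) (.g (nat_lit 2079) (.e (nat_lit 999) (nat_lit 81) (.e (nat_lit 1400) (nat_lit 106) (.e (nat_lit 319533) (nat_lit 16) (.e (nat_lit 286761) (nat_lit 13) (.e (nat_lit 393234) (nat_lit 17) .nil))))) .nil)) 
(.lf (nat_lit 13484) (.g (nat_lit 3411) (.e (nat_lit 999) (nat_lit 81) (.e (nat_lit 2031) (nat_lit 140) (.e (nat_lit 688177) (nat_lit 16) (.e (nat_lit 65583) (nat_lit 7) (.e (nat_lit 319530) (nat_lit 16) (.e (nat_lit 286759) (nat_lit 12) (.e (nat_lit 385098) (nat_lit 49) (.e (nat_lit 786176) (nat_lit 0) .nil)))))))) (.g (nat_lit 7) .nil .nil)))) (.nd (nat_lit 5) 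
(.lf (nat_lit 13468) (.g (nat_lit 2275) (.e (nat_lit 999) (nat_lit 81) (.e (nat_lit 1400) (nat_lit 106) (.e (nat_lit 319534) (nat_lit 16) (.e (nat_lit 286761) (nat_lit 13) (.e (nat_lit 393264) (nat_lit 22) (.e (nat_lit 417792) (nat_lit 0) (.e (nat_lit 67) (nat_lit 0) (.e (nat_lit 5818) (nat_lit 320) .nil)))))))) (.g (nat_lit 4) .nil .nil))) 
(.lf (nat_lit 13500) (.g (nat_lit 4544) (.e (nat_lit 999) (nat_lit 81) (.e (nat_lit 2283) (nat_lit 150) (.e (nat_lit 770071) (nat_lit 8) (.e (nat_lit 65568) (nat_lit 2) (.e (nat_lit 90170) (nat_lit 13) (.e (nat_lit 172106) (nat_lit 10) (.e (nat_lit 434244) (nat_lit 28) (.e (nat_lit 573451) (nat_lit 9) .nil)))))))) (.g (nat_lit 0) .nil .nil))))))) 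
(.nd (nat_lit 2) (.nd (nat_lit 3) (.nd (nat_lit 4) (.nd (nat_lit 5) 
(.lf (nat_lit 13442) (.g (nat_lit 609) (.e (nat_lit 999) (nat_lit 81) (.e (nat_lit 1400) (nat_lit 106) (.e (nat_lit 319529) (nat_lit 16) .nil))) .nil)) 
(.lf (nat_lit 13474) (.g (nat_lit 1148) (.e (nat_lit 999) (nat_lit 81) (.e (nat_lit 1422) (nat_lit 108) (.e (nat_lit 336454) (nat_lit 34) (.e (nat_lit 483405) (nat_lit 26) (.e (nat_lit 385066) (nat_lit 26) .nil))))) .nil))) (.nd (nat_lit 5) 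
(.lf (nat_lit 13458) (.g (nat_lit 1964) (.e (nat_lit 999) (nat_lit 81) (.e (nat_lit 1400) (nat_lit 106) (.e (nat_lit 319533) (nat_lit 16) (.e (nat_lit 286761) (nat_lit 13) (.e (nat_lit 393289) (nat_lit 25) .nil))))) .nil)) 
(.lf (nat_lit 13490) (.g (nat_lit 3249) (.e (nat_lit 999) (nat_lit 81) (.e (nat_lit 2031) (nat_lit 140) (.e (nat_lit 688177) (nat_lit 16) (.e (nat_lit 65586) (nat_lit 7) (.e (nat_lit 319531) (nat_lit 16) (.e (nat_lit 286748) (nat_lit 9) (.e (nat_lit 336295) (nat_lit 15) (.e (nat_lit 3666) (nat_lit 227) (.e (nat_lit 786176) (nat_lit 0) .nil))))))))) (.g (nat_lit 6) .nil .nil))))) 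
(.nd (nat_lit 4) (.nd (nat_lit 5) 
(.lf (nat_lit 13450) (.g (nat_lit 1731) (.e (nat_lit 999) (nat_lit 81) (.e (nat_lit 1400) (nat_lit 106) (.e (nat_lit 319533) (nat_lit 16) (.e (nat_lit 286760) (nat_lit 13) .nil)))) .nil)) 
(.lf (nat_lit 13482) (.g (nat_lit 4223) (.e (nat_lit 999) (nat_lit 81) (.e (nat_lit 2031) (nat_lit 140) (.e (nat_lit 688177) (nat_lit 16) (.e (nat_lit 65583) (nat_lit 7) (.e (nat_lit 319530) (nat_lit 16) (.e (nat_lit 286759) (nat_lit 12) (.e (nat_lit 385094) (nat_lit 49) (.e (nat_lit 778241) (nat_lit 0) .nil)))))))) (.g (nat_lit 7) .nil .nil)))) (.nd (nat_lit 5) 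
(.lf (nat_lit 13466) (.g (nat_lit 1310) (.e (nat_lit 999) (nat_lit 81) (.e (nat_lit 1400) (nat_lit 106) (.e (nat_lit 319534) (nat_lit 16) (.e (nat_lit 286761) (nat_lit 13) .nil)))) .nil)) 
(.lf (nat_lit 13498) (.g (nat_lit 3786) (.e (nat_lit 999) (nat_lit 81) (.e (nat_lit 2031) (nat_lit 140) (.e (nat_lit 688177) (nat_lit 16) (.e (nat_lit 65630) (nat_lit 14) (.e (nat_lit 401454) (nat_lit 12) (.e (nat_lit 475209) (nat_lit 41) (.e (nat_lit 712736) (nat_lit 24) (.e (nat_lit 270080) (nat_lit 0) .nil)))))))) (.g (nat_lit 5) .nil .nil)))))) 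
(.nd (nat_lit 3) (.nd (nat_lit 4) (.nd (nat_lit 5) 
(.lf (nat_lit 13446) (.g (nat_lit 2075) (.e (nat_lit 999) (nat_lit 81) (.e (nat_lit 1400) (nat_lit 106) (.e (nat_lit 319531) (nat_lit 16) (.e (nat_lit 286761) (nat_lit 13) (.e (nat_lit 393265) (nat_lit 22) .nil))))) .nil)) 
(.lf (nat_lit 13478) (.g (nat_lit 4661) (.e (nat_lit 999) (nat_lit 81) (.e (nat_lit 1669) (nat_lit 116) (.e (nat_lit 401457) (nat_lit 13) (.e (nat_lit 483413) (nat_lit 27) (.e (nat_lit 401447) (nat_lit 10) (.e (nat_lit 434203) (nat_lit 18) (.e (nat_lit 5985) (nat_lit 326) .nil))))))) (.g (nat_lit 6) .nil .nil)))) (.nd (nat_lit 5) 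
(.lf (nat_lit 13462) (.g (nat_lit 2466) (.e (nat_lit 999) (nat_lit 81) (.e (nat_lit 1400) (nat_lit 106) (.e (nat_lit 319534) (nat_lit 16) (.e (nat_lit 286743) (nat_lit 9) (.e (nat_lit 336434) (nat_lit 30) .nil))))) .nil)) 
(.lf (nat_lit 13494) (.g (nat_lit 3984) (.e (nat_lit 999) (nat_lit 81) (.e (nat_lit 2031) (nat_lit 140) (.e (nat_lit 688177) (nat_lit 16) (.e (nat_lit 65586) (nat_lit 7) (.e (nat_lit 319531) (nat_lit 16) (.e (nat_lit 286756) (nat_lit 10) (.e (nat_lit 344168) (nat_lit 40) (.e (nat_lit 671744) (nat_lit 0) .nil)))))))) (.g (nat_lit 6) .nil .nil))))) (.nd (nat_lit 4) (.nd (nat_lit 5) 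
(.lf (nat_lit 13454) (.g (nat_lit 2453) (.e (nat_lit 999) (nat_lit 81) (.e (nat_lit 1400) (nat_lit 106) (.e (nat_lit 319533) (nat_lit 16) (.e (nat_lit 286761) (nat_lit 13) (.e (nat_lit 393264) (nat_lit 22) (.e (nat_lit 417795) (nat_lit 0) (.e (nat_lit 67) (nat_lit 0) (.e (nat_lit 5818) (nat_lit 320) .nil)))))))) (.g (nat_lit 4) .nil .nil))) 
(.lf (nat_lit 13486) (.g (nat_lit 3176) (.e (nat_lit 999) (nat_lit 81) (.e (nat_lit 2031) (nat_lit 140) (.e (nat_lit 688177) (nat_lit 16) (.e (nat_lit 65586) (nat_lit 7) (.e (nat_lit 319531) (nat_lit 16) (.e (nat_lit 286748) (nat_lit 9) (.e (nat_lit 336295) (nat_lit 15) (.e (nat_lit 3630) (nat_lit 227) (.e (nat_lit 786176) (nat_lit 0) .nil))))))))) (.g (nat_lit 5) .nil .nil)))) (.nd (nat_lit 5) 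
(.lf (nat_lit 13470) (.g (nat_lit 2628) (.e (nat_lit 999) (nat_lit 81) (.e (nat_lit 1400) (nat_lit 106) (.e (nat_lit 319534) (nat_lit 16) (.e (nat_lit 286761) (nat_lit 13) (.e (nat_lit 393265) (nat_lit 22) (.e (nat_lit 417804) (nat_lit 1) (.e (nat_lit 8433) (nat_lit 138) .nil))))))) (.g (nat_lit 5) .nil .nil))) 
(.lf (nat_lit 13502) (.g (nat_lit 1697) (.e (nat_lit 999) (nat_lit 81) (.e (nat_lit 5896) (nat_lit 320) (.e (nat_lit 1199) (nat_lit 88) (.e (nat_lit 65628) (nat_lit 14) (.e (nat_lit 401458) (nat_lit 13) .nil))))) .nil))))))) (.nd (nat_lit 1) (.nd (nat_lit 2) (.nd (nat_lit 3) (.nd (nat_lit 4) (.nd (nat_lit 5) 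
(.lf (nat_lit 13441) (.g (nat_lit 1664) (.e (nat_lit 999) (nat_lit 81) (.e (nat_lit 1400) (nat_lit 106) (.e (nat_lit 319528) (nat_lit 16) (.e (nat_lit 286761) (nat_lit 13) (.e (nat_lit 393265) (nat_lit 22) .nil))))) .nil)) 
(.lf (nat_lit 13473) (.g (nat_lit 1948) (.e (nat_lit 999) (nat_lit 81) (.e (nat_lit 1422) (nat_lit 108) (.e (nat_lit 336454) (nat_lit 34) (.e (nat_lit 483385) (nat_lit 23) .nil)))) .nil))) (.nd (nat_lit 5) 
(.lf (nat_lit 13457) (.g (nat_lit 3352) (.e (nat_lit 999) (nat_lit 81) (.e (nat_lit 1400) (nat_lit 106) (.e (nat_lit 319533) (nat_lit 16) (.e (nat_lit 286761) (nat_lit 13) (.e (nat_lit 393265) (nat_lit 22) (.e (nat_lit 417804) (nat_lit 1) (.e (nat_lit 8433) (nat_lit 138) .nil))))))) (.g (nat_lit 0) .nil .nil))) 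
(.lf (nat_lit 13489) (.g (nat_lit 5494) (.e (nat_lit 999) (nat_lit 81) (.e (nat_lit 2031) (nat_lit 140) (.e (nat_lit 688177) (nat_lit 16) (.e (nat_lit 65586) (nat_lit 7) (.e (nat_lit 319531) (nat_lit 16) (.e (nat_lit 286748) (nat_lit 9) (.e (nat_lit 336295) (nat_lit 15) (.e (nat_lit 3632) (nat_lit 227) (.e (nat_lit 778246) (nat_lit 0) .nil))))))))) (.g (nat_lit 0) .nil .nil))))) 
(.nd (nat_lit 4) (.nd (nat_lit 5) 
(.lf (nat_lit 13449) (.g (nat_lit 1692) (.e (nat_lit 999) (nat_lit 81) (.e (nat_lit 1400) (nat_lit 106) (.e (nat_lit 319533) (nat_lit 16) (.e (nat_lit 286742) (nat_lit 9) .nil)))) .nil)) 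
(.lf (nat_lit 13481) (.g (nat_lit 4554) (.e (nat_lit 999) (nat_lit 81) (.e (nat_lit 2031) (nat_lit 140) (.e (nat_lit 688177) (nat_lit 16) (.e (nat_lit 65583) (nat_lit 7) (.e (nat_lit 319530) (nat_lit 16) (.e (nat_lit 286748) (nat_lit 9) (.e (nat_lit 336295) (nat_lit 15) (.e (nat_lit 3632) (nat_lit 227) (.e (nat_lit 778246) (nat_lit 0) .nil))))))))) (.g (nat_lit 9) .nil .nil)))) (.nd (nat_lit 5) 
(.lf (nat_lit 13465) (.g (nat_lit 2283) (.e (nat_lit 999) (nat_lit 81) (.e (nat_lit 1400) (nat_lit 106) (.e (nat_lit 319534) (nat_lit 16) (.e (nat_lit 286760) (nat_lit 13) (.e (nat_lit 393265) (nat_lit 22) .nil))))) .nil)) 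
(.lf (nat_lit 13497) (.g (nat_lit 2314) (.e (nat_lit 999) (nat_lit 81) (.e (nat_lit 2031) (nat_lit 140) (.e (nat_lit 688177) (nat_lit 16) (.e (nat_lit 65586) (nat_lit 7) (.e (nat_lit 319534) (nat_lit 16) (.e (nat_lit 286756) (nat_lit 10) (.e (nat_lit 344097) (nat_lit 18) (.e (nat_lit 5907) (nat_lit 320) (.e (nat_lit 993) (nat_lit 81) .nil))))))))) (.g (nat_lit 4) .nil .nil)))))) 
(.nd (nat_lit 3) (.nd (nat_lit 4) (.nd (nat_lit 5) 
(.lf (nat_lit 13445) (.g (nat_lit 2013) (.e (nat_lit 999) (nat_lit 81) (.e (nat_lit 1400) (nat_lit 106) (.e (nat_lit 319531) (nat_lit 16) (.e (nat_lit 286761) (nat_lit 13) (.e (nat_lit 393264) (nat_lit 22) .nil))))) .nil)) 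
(.lf (nat_lit 13477) (.g (nat_lit 3932) (.e (nat_lit 999) (nat_lit 81) (.e (nat_lit 1669) (nat_lit 116) (.e (nat_lit 401457) (nat_lit 13) (.e (nat_lit 483413) (nat_lit 27) (.e (nat_lit 401446) (nat_lit 10) (.e (nat_lit 434203) (nat_lit 18) (.e (nat_lit 5985) (nat_lit 326) .nil))))))) (.g (nat_lit 6) .nil .nil)))) (.nd (nat_lit 5) 
(.lf (nat_lit 13461) (.g (nat_lit 1751) (.e (nat_lit 999) (nat_lit 81) (.e (nat_lit 1400) (nat_lit 106) (.e (nat_lit 319534) (nat_lit 16) (.e (nat_lit 286743) (nat_lit 9) .nil)))) .nil)) 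
(.lf (nat_lit 13493) (.g (nat_lit 3924) (.e (nat_lit 999) (nat_lit 81) (.e (nat_lit 2031) (nat_lit 140) (.e (nat_lit 688177) (nat_lit 16) (.e (nat_lit 65586) (nat_lit 7) (.e (nat_lit 319531) (nat_lit 16) (.e (nat_lit 286753) (nat_lit 10) (.e (nat_lit 344169) (nat_lit 40) (.e (nat_lit 671744) (nat_lit 0) .nil)))))))) (.g (nat_lit 5) .nil .nil))))) (.nd (nat_lit 4) (.nd (nat_lit 5) 
(.lf (nat_lit 13453) (.g (nat_lit 2422) (.e (nat_lit 999) (nat_lit 81) (.e (nat_lit 1400) (nat_lit 106) (.e (nat_lit 319533) (nat_lit 16) (.e (nat_lit 286761) (nat_lit 13) (.e (nat_lit 393264) (nat_lit 22) .nil))))) .nil)) 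
(.lf (nat_lit 13485) (.g (nat_lit 2125) (.e (nat_lit 999) (nat_lit 81) (.e (nat_lit 2031) (nat_lit 140) (.e (nat_lit 688177) (nat_lit 16) (.e (nat_lit 65586) (nat_lit 7) (.e (nat_lit 319531) (nat_lit 16) .nil))))) .nil))) (.nd (nat_lit 5) 
(.lf (nat_lit 13469) (.g (nat_lit 2460) (.e (nat_lit 999) (nat_lit 81) (.e (nat_lit 1400) (nat_lit 106) (.e (nat_lit 319534) (nat_lit 16) (.e (nat_lit 286761) (nat_lit 13) (.e (nat_lit 393264) (nat_lit 22) (.e (nat_lit 417804) (nat_lit 1) (.e (nat_lit 8433) (nat_lit 138) .nil))))))) (.g (nat_lit 5) .nil .nil))) 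
(.lf (nat_lit 13501) (.g (nat_lit 4788) (.e (nat_lit 999) (nat_lit 81) (.e (nat_lit 2283) (nat_lit 150) (.e (nat_lit 770072) (nat_lit 8) (.e (nat_lit 65568) (nat_lit 2) (.e (nat_lit 90170) (nat_lit 13) (.e (nat_lit 172106) (nat_lit 10) (.e (nat_lit 434244) (nat_lit 28) (.e (nat_lit 573451) (nat_lit 9) .nil)))))))) (.g (nat_lit 8) .nil .nil))))))) 
(.nd (nat_lit 2) (.nd (nat_lit 3) (.nd (nat_lit 4) (.nd (nat_lit 5) 
(.lf (nat_lit 13443) (.g (nat_lit 1227) (.e (nat_lit 999) (nat_lit 81) (.e (nat_lit 1400) (nat_lit 106) (.e (nat_lit 319530) (nat_lit 16) (.e (nat_lit 286761) (nat_lit 13) .nil)))) .nil)) 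
(.lf (nat_lit 13475) (.g (nat_lit 3692) (.e (nat_lit 999) (nat_lit 81) (.e (nat_lit 1443) (nat_lit 108) (.e (nat_lit 336013) (nat_lit 2) (.e (nat_lit 90170) (nat_lit 13) (.e (nat_lit 172113) (nat_lit 10) .nil))))) .nil))) (.nd (nat_lit 5) 
(.lf (nat_lit 13459) (.g (nat_lit 2903) (.e (nat_lit 999) (nat_lit 81) (.e (nat_lit 1400) (nat_lit 106) (.e (nat_lit 319533) (nat_lit 16) (.e (nat_lit 286761) (nat_lit 13) (.e (nat_lit 393289) (nat_lit 25) (.e (nat_lit 458776) (nat_lit 18) (.e (nat_lit 5818) (nat_lit 320) .nil))))))) (.g (nat_lit 6) .nil .nil))) 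
(.lf (nat_lit 13491) (.g (nat_lit 3209) (.e (nat_lit 999) (nat_lit 81) (.e (nat_lit 2031) (nat_lit 140) (.e (nat_lit 688177) (nat_lit 16) (.e (nat_lit 65586) (nat_lit 7) (.e (nat_lit 319531) (nat_lit 16) (.e (nat_lit 286748) (nat_lit 9) (.e (nat_lit 336295) (nat_lit 15) (.e (nat_lit 3711) (nat_lit 227) (.e (nat_lit 778240) (nat_lit 0) .nil))))))))) (.g (nat_lit 5) .nil .nil))))) 
(.nd (nat_lit 4) (.nd (nat_lit 5) 
(.lf (nat_lit 13451) (.g (nat_lit 1511) (.e (nat_lit 999) (nat_lit 81) (.e (nat_lit 1400) (nat_lit 106) (.e (nat_lit 319533) (nat_lit 16) (.e (nat_lit 286761) (nat_lit 13) .nil)))) .nil)) 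
(.lf (nat_lit 13483) (.g (nat_lit 3533) (.e (nat_lit 999) (nat_lit 81) (.e (nat_lit 2031) (nat_lit 140) (.e (nat_lit 688177) (nat_lit 16) (.e (nat_lit 65583) (nat_lit 7) (.e (nat_lit 319530) (nat_lit 16) (.e (nat_lit 286759) (nat_lit 12) (.e (nat_lit 385094) (nat_lit 49) (.e (nat_lit 786176) (nat_lit 0) .nil)))))))) (.g (nat_lit 7) .nil .nil)))) (.nd (nat_lit 5) 
(.lf (nat_lit 13467) (.g (nat_lit 2046) (.e (nat_lit 999) (nat_lit 81) (.e (nat_lit 1400) (nat_lit 106) (.e (nat_lit 319534) (nat_lit 16) (.e (nat_lit 286761) (nat_lit 13) (.e (nat_lit 393264) (nat_lit 22) .nil))))) .nil)) 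
(.lf (nat_lit 13499) (.g (nat_lit 2983) (.e (nat_lit 999) (nat_lit 81) (.e (nat_lit 2031) (nat_lit 140) (.e (nat_lit 688178) (nat_lit 16) (.e (nat_lit 65626) (nat_lit 13) (.e (nat_lit 393283) (nat_lit 24) (.e (nat_lit 434268) (nat_lit 36) (.e (nat_lit 639004) (nat_lit 13) .nil))))))) (.g (nat_lit 7) .nil .nil)))))) (.nd (nat_lit 3) (.nd (nat_lit 4) (.nd (nat_lit 5) 
(.lf (nat_lit 13447) (.g (nat_lit 457) (.e (nat_lit 999) (nat_lit 81) (.e (nat_lit 1400) (nat_lit 106) (.e (nat_lit 319532) (nat_lit 16) .nil))) .nil)) 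
(.lf (nat_lit 13479) (.g (nat_lit 3553) (.e (nat_lit 999) (nat_lit 81) (.e (nat_lit 1669) (nat_lit 116) (.e (nat_lit 401457) (nat_lit 13) (.e (nat_lit 483413) (nat_lit 27) (.e (nat_lit 401448) (nat_lit 10) (.e (nat_lit 434200) (nat_lit 18) (.e (nat_lit 5985) (nat_lit 326) .nil))))))) (.g (nat_lit 5) .nil .nil)))) (.nd (nat_lit 5) 
(.lf (nat_lit 13463) (.g (nat_lit 1866) (.e (nat_lit 999) (nat_lit 81) (.e (nat_lit 1400) (nat_lit 106) (.e (nat_lit 319534) (nat_lit 16) (.e (nat_lit 286749) (nat_lit 9) (.e (nat_lit 343808) (nat_lit 30) .nil))))) .nil)) 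
(.lf (nat_lit 13495) (.g (nat_lit 3049) (.e (nat_lit 999) (nat_lit 81) (.e (nat_lit 2031) (nat_lit 140) (.e (nat_lit 688177) (nat_lit 16) (.e (nat_lit 65586) (nat_lit 7) (.e (nat_lit 319531) (nat_lit 16) (.e (nat_lit 286759) (nat_lit 12) (.e (nat_lit 385093) (nat_lit 49) (.e (nat_lit 786176) (nat_lit 0) .nil)))))))) (.g (nat_lit 5) .nil .nil))))) (.nd (nat_lit 4) (.nd (nat_lit 5) 
(.lf (nat_lit 13455) (.g (nat_lit 3117) (.e (nat_lit 999) (nat_lit 81) (.e (nat_lit 1400) (nat_lit 106) (.e (nat_lit 319533) (nat_lit 16) (.e (nat_lit 286761) (nat_lit 13) (.e (nat_lit 393264) (nat_lit 22) (.e (nat_lit 417804) (nat_lit 1) (.e (nat_lit 8433) (nat_lit 138) .nil))))))) (.g (nat_lit 6) .nil .nil))) 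
(.lf (nat_lit 13487) (.g (nat_lit 2262) (.e (nat_lit 999) (nat_lit 81) (.e (nat_lit 2031) (nat_lit 140) (.e (nat_lit 688177) (nat_lit 16) (.e (nat_lit 65586) (nat_lit 7) (.e (nat_lit 319531) (nat_lit 16) (.e (nat_lit 286748) (nat_lit 9) (.e (nat_lit 336295) (nat_lit 15) (.e (nat_lit 3631) (nat_lit 227) (.e (nat_lit 778246) (nat_lit 0) .nil))))))))) (.g (nat_lit 4) .nil .nil)))) (.nd (nat_lit 5) 
(.lf (nat_lit 13471) (.g (nat_lit 2316) (.e (nat_lit 999) (nat_lit 81) (.e (nat_lit 1420) (nat_lit 108) (.e (nat_lit 336454) (nat_lit 34) (.e (nat_lit 483406) (nat_lit 26) (.e (nat_lit 385066) (nat_lit 26) .nil))))) .nil)) 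
(.lf (nat_lit 13503) (.g (nat_lit 1678) (.e (nat_lit 999) (nat_lit 81) (.e (nat_lit 5896) (nat_lit 320) (.e (nat_lit 1200) (nat_lit 88) (.e (nat_lit 65630) (nat_lit 14) (.e (nat_lit 401458) (nat_lit 13) (.e (nat_lit 483383) (nat_lit 23) (.e (nat_lit 335878) (nat_lit 0) .nil))))))) (.g (nat_lit 4) .nil .nil)))))))))

noncomputable def tv186 : DT := (.nd (nat_lit 0) (.nd (nat_lit 1) (.nd (nat_lit 2) (.nd (nat_lit 3) (.nd (nat_lit 4) (.nd (nat_lit 5) 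
(.lf (nat_lit 13504) (.g (nat_lit 2995) (.e (nat_lit 999) (nat_lit 81) (.e (nat_lit 7236) (nat_lit 382) (.e (nat_lit 1221) (nat_lit 90) (.e (nat_lit 81965) (nat_lit 26) (.e (nat_lit 147492) (nat_lit 11) (.e (nat_lit 24628) (nat_lit 9) (.e (nat_lit 335878) (nat_lit 0) .nil))))))) (.g (nat_lit 7) .nil .nil))) 
(.lf (nat_lit 13536) (.g (nat_lit 1871) (.e (nat_lit 1006) (nat_lit 81) (.e (nat_lit 1669) (nat_lit 116) (.e (nat_lit 401454) (nat_lit 12) (.e (nat_lit 475207) (nat_lit 41) .nil)))) .nil))) (.nd (nat_lit 5) 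
(.lf (nat_lit 13520) (.g (nat_lit 2250) (.e (nat_lit 1003) (nat_lit 81) (.e (nat_lit 6113) (nat_lit 332) (.e (nat_lit 1361) (nat_lit 102) (.e (nat_lit 286761) (nat_lit 13) (.e (nat_lit 393284) (nat_lit 24) (.e (nat_lit 434276) (nat_lit 39) (.e (nat_lit 663560) (nat_lit 0) .nil))))))) (.g (nat_lit 0) .nil .nil))) 
(.lf (nat_lit 13552) (.g (nat_lit 1405) (.e (nat_lit 1006) (nat_lit 81) (.e (nat_lit 7125) (nat_lit 382) (.e (nat_lit 1224) (nat_lit 90) (.e (nat_lit 81963) (nat_lit 26) .nil)))) .nil)))) (.nd (nat_lit 4) (.nd (nat_lit 5) 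
(.lf (nat_lit 13512) (.g (nat_lit 2638) (.e (nat_lit 1001) (nat_lit 81) (.e (nat_lit 6113) (nat_lit 332) (.e (nat_lit 2810) (nat_lit 180) (.e (nat_lit 303145) (nat_lit 13) (.e (nat_lit 483405) (nat_lit 26) (.e (nat_lit 385099) (nat_lit 49) (.e (nat_lit 778280) (nat_lit 0) .nil))))))) (.g (nat_lit 6) .nil .nil))) 
(.lf (nat_lit 13544) (.g (nat_lit 4435) (.e (nat_lit 1006) (nat_lit 81) (.e (nat_lit 1669) (nat_lit 116) (.e (nat_lit 401457) (nat_lit 13) (.e (nat_lit 483413) (nat_lit 27) (.e (nat_lit 401448) (nat_lit 10) (.e (nat_lit 434208) (nat_lit 18) (.e (nat_lit 5986) (nat_lit 326) .nil))))))) (.g (nat_lit 6) .nil .nil)))) (.nd (nat_lit 5) 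
(.lf (nat_lit 13528) (.g (nat_lit 2868) (.e (nat_lit 1005) (nat_lit 81) (.e (nat_lit 2345) (nat_lit 151) (.e (nat_lit 778466) (nat_lit 11) (.e (nat_lit 24617) (nat_lit 7) (.e (nat_lit 319533) (nat_lit 16) .nil))))) .nil)) 
(.lf (nat_lit 13560) (.g (nat_lit 753) (.e (nat_lit 1008) (nat_lit 81) (.e (nat_lit 1239) (nat_lit 91) (.e (nat_lit 98048) (nat_lit 6) .nil))) .nil))))) (.nd (nat_lit 3) (.nd (nat_lit 4) (.nd (nat_lit 5) 
(.lf (nat_lit 13508) (.g (nat_lit 4565) (.e (nat_lit 1000) (nat_lit 81) (.e (nat_lit 2031) (nat_lit 140) (.e (nat_lit 688177) (nat_lit 16) (.e (nat_lit 65586) (nat_lit 7) (.e (nat_lit 319531) (nat_lit 16) (.e (nat_lit 286759) (nat_lit 12) (.e (nat_lit 385094) (nat_lit 49) (.e (nat_lit 778241) (nat_lit 0) .nil)))))))) (.g (nat_lit 0) .nil .nil))) 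
(.lf (nat_lit 13540) (.g (nat_lit 4125) (.e (nat_lit 1006) (nat_lit 81) (.e (nat_lit 1669) (nat_lit 116) (.e (nat_lit 401457) (nat_lit 13) (.e (nat_lit 483413) (nat_lit 27) (.e (nat_lit 401446) (nat_lit 10) (.e (nat_lit 434208) (nat_lit 18) (.e (nat_lit 5986) (nat_lit 326) .nil))))))) (.g (nat_lit 0) .nil .nil)))) (.nd (nat_lit 5) 
(.lf (nat_lit 13524) (.g (nat_lit 1771) (.e (nat_lit 1004) (nat_lit 81) (.e (nat_lit 1646) (nat_lit 115) (.e (nat_lit 393225) (nat_lit 9) (.e (nat_lit 336076) (nat_lit 9) (.e (nat_lit 336324) (nat_lit 18) .nil))))) .nil)) 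
(.lf (nat_lit 13556) (.g (nat_lit 2607) (.e (nat_lit 1007) (nat_lit 81) (.e (nat_lit 1669) (nat_lit 116) (.e (nat_lit 401454) (nat_lit 12) (.e (nat_lit 475208) (nat_lit 41) .nil)))) .nil)))) (.nd (nat_lit 4) (.nd (nat_lit 5) 
(.lf (nat_lit 13516) (.g (nat_lit 1872) (.e (nat_lit 1002) (nat_lit 81) (.e (nat_lit 6113) (nat_lit 332) (.e (nat_lit 2810) (nat_lit 180) (.e (nat_lit 303145) (nat_lit 13) (.e (nat_lit 483401) (nat_lit 25) .nil))))) .nil)) 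
(.lf (nat_lit 13548) (.g (nat_lit 1070) (.e (nat_lit 1006) (nat_lit 81) (.e (nat_lit 2032) (nat_lit 140) (.e (nat_lit 688177) (nat_lit 16) (.e (nat_lit 65583) (nat_lit 7) (.e (nat_lit 319530) (nat_lit 16) .nil))))) .nil))) (.nd (nat_lit 5) 
(.lf (nat_lit 13532) (.g (nat_lit 1506) (.e (nat_lit 1006) (nat_lit 81) (.e (nat_lit 720) (nat_lit 64) (.e (nat_lit 688177) (nat_lit 16) (.e (nat_lit 65627) (nat_lit 13) .nil)))) .nil)) 
(.lf (nat_lit 13564) (.g (nat_lit 928) (.e (nat_lit 1008) (nat_lit 81) (.e (nat_lit 1401) (nat_lit 106) (.e (nat_lit 319534) (nat_lit 16) (.e (nat_lit 286761) (nat_lit 13) .nil)))) .nil)))))) (.nd (nat_lit 2) (.nd (nat_lit 3) (.nd (nat_lit 4) (.nd (nat_lit 5) 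
(.lf (nat_lit 13506) (.g (nat_lit 3029) (.e (nat_lit 1000) (nat_lit 81) (.e (nat_lit 1449) (nat_lit 108) (.e (nat_lit 336060) (nat_lit 7) (.e (nat_lit 319534) (nat_lit 16) (.e (nat_lit 286756) (nat_lit 10) (.e (nat_lit 344097) (nat_lit 18) (.e (nat_lit 5195) (nat_lit 294) (.e (nat_lit 57363) (nat_lit 1) (.e (nat_lit 57825) (nat_lit 250) .nil))))))))) (.g (nat_lit 7) .nil .nil))) 
(.lf (nat_lit 13538) (.g (nat_lit 2550) (.e (nat_lit 1006) (nat_lit 81) (.e (nat_lit 1669) (nat_lit 116) (.e (nat_lit 401454) (nat_lit 12) (.e (nat_lit 475208) (nat_lit 41) .nil)))) .nil))) (.nd (nat_lit 5) 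
(.lf (nat_lit 13522) (.g (nat_lit 2727) (.e (nat_lit 1003) (nat_lit 81) (.e (nat_lit 6113) (nat_lit 332) (.e (nat_lit 1374) (nat_lit 104) (.e (nat_lit 303147) (nat_lit 15) (.e (nat_lit 1859) (nat_lit 124) .nil))))) .nil)) 
(.lf (nat_lit 13554) (.g (nat_lit 2150) (.e (nat_lit 1006) (nat_lit 81) (.e (nat_lit 7695) (nat_lit 412) (.e (nat_lit 57375) (nat_lit 2) (.e (nat_lit 90185) (nat_lit 17) (.e (nat_lit 237594) (nat_lit 3) (.e (nat_lit 204809) (nat_lit 9) (.e (nat_lit 426139) (nat_lit 3) (.e (nat_lit 204825) (nat_lit 17) .nil)))))))) (.g (nat_lit 4) .nil .nil))))) (.nd (nat_lit 4) (.nd (nat_lit 5) 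
(.lf (nat_lit 13514) (.g (nat_lit 776) (.e (nat_lit 1001) (nat_lit 81) (.e (nat_lit 6826) (nat_lit 367) (.e (nat_lit 57375) (nat_lit 2) (.e (nat_lit 90176) (nat_lit 15) .nil)))) .nil)) 
(.lf (nat_lit 13546) (.g (nat_lit 1244) (.e (nat_lit 1006) (nat_lit 81) (.e (nat_lit 1860) (nat_lit 124) (.e (nat_lit 557100) (nat_lit 13) (.e (nat_lit 172106) (nat_lit 10) .nil)))) .nil))) (.nd (nat_lit 5) 
(.lf (nat_lit 13530) (.g (nat_lit 1526) (.e (nat_lit 1006) (nat_lit 81) (.e (nat_lit 618) (nat_lit 48) (.e (nat_lit 557105) (nat_lit 14) (.e (nat_lit 188160) (nat_lit 34) .nil)))) .nil)) 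
(.lf (nat_lit 13562) (.g (nat_lit 1807) (.e (nat_lit 1008) (nat_lit 81) (.e (nat_lit 1396) (nat_lit 106) (.e (nat_lit 319530) (nat_lit 16) (.e (nat_lit 286761) (nat_lit 13) (.e (nat_lit 393264) (nat_lit 22) .nil))))) .nil))))) (.nd (nat_lit 3) (.nd (nat_lit 4) (.nd (nat_lit 5) 
(.lf (nat_lit 13510) (.g (nat_lit 4236) (.e (nat_lit 1000) (nat_lit 81) (.e (nat_lit 2283) (nat_lit 150) (.e (nat_lit 770071) (nat_lit 8) (.e (nat_lit 65568) (nat_lit 2) (.e (nat_lit 90170) (nat_lit 13) (.e (nat_lit 172106) (nat_lit 10) (.e (nat_lit 434244) (nat_lit 28) (.e (nat_lit 573451) (nat_lit 9) .nil)))))))) (.g (nat_lit 0) .nil .nil))) 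
(.lf (nat_lit 13542) (.g (nat_lit 3929) (.e (nat_lit 1006) (nat_lit 81) (.e (nat_lit 1669) (nat_lit 116) (.e (nat_lit 401457) (nat_lit 13) (.e (nat_lit 483413) (nat_lit 27) (.e (nat_lit 401448) (nat_lit 10) (.e (nat_lit 434200) (nat_lit 18) (.e (nat_lit 5988) (nat_lit 326) .nil))))))) (.g (nat_lit 6) .nil .nil)))) (.nd (nat_lit 5) 
(.lf (nat_lit 13526) (.g (nat_lit 2301) (.e (nat_lit 1005) (nat_lit 81) (.e (nat_lit 1676) (nat_lit 116) (.e (nat_lit 401454) (nat_lit 12) (.e (nat_lit 475207) (nat_lit 41) (.e (nat_lit 712755) (nat_lit 30) (.e (nat_lit 450563) (nat_lit 0) (.e (nat_lit 5814) (nat_lit 320) .nil))))))) (.g (nat_lit 4) .nil .nil))) 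
(.lf (nat_lit 13558) (.g (nat_lit 3237) (.e (nat_lit 1008) (nat_lit 81) (.e (nat_lit 618) (nat_lit 48) (.e (nat_lit 557109) (nat_lit 15) (.e (nat_lit 188452) (nat_lit 23) (.e (nat_lit 204862) (nat_lit 27) .nil))))) .nil)))) (.nd (nat_lit 4) (.nd (nat_lit 5) 
(.lf (nat_lit 13518) (.g (nat_lit 2594) (.e (nat_lit 1003) (nat_lit 81) (.e (nat_lit 2345) (nat_lit 151) (.e (nat_lit 778466) (nat_lit 11) (.e (nat_lit 24617) (nat_lit 7) (.e (nat_lit 319534) (nat_lit 16) .nil))))) .nil)) 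
(.lf (nat_lit 13550) (.g (nat_lit 2057) (.e (nat_lit 1006) (nat_lit 81) (.e (nat_lit 5351) (nat_lit 298) (.e (nat_lit 1658) (nat_lit 115) (.e (nat_lit 393301) (nat_lit 27) (.e (nat_lit 491563) (nat_lit 12) (.e (nat_lit 392960) (nat_lit 16) .nil)))))) (.g (nat_lit 5) .nil .nil)))) (.nd (nat_lit 5) 
(.lf (nat_lit 13534) (.g (nat_lit 4274) (.e (nat_lit 1006) (nat_lit 81) (.e (nat_lit 1401) (nat_lit 106) (.e (nat_lit 319531) (nat_lit 16) (.e (nat_lit 286735) (nat_lit 3) (.e (nat_lit 98373) (nat_lit 29) (.e (nat_lit 450563) (nat_lit 0) (.e (nat_lit 3866) (nat_lit 233) .nil))))))) (.g (nat_lit 0) .nil .nil))) 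
(.lf (nat_lit 13566) (.g (nat_lit 3282) (.e (nat_lit 1008) (nat_lit 81) (.e (nat_lit 1464) (nat_lit 108) (.e (nat_lit 336013) (nat_lit 2) (.e (nat_lit 90170) (nat_lit 13) (.e (nat_lit 172106) (nat_lit 10) (.e (nat_lit 434231) (nat_lit 23) (.e (nat_lit 532490) (nat_lit 0) (.e (nat_lit 990) (nat_lit 81) (.e (nat_lit 4500) (nat_lit 263) .nil))))))))) (.g (nat_lit 7) .nil .nil)))))))) 
(.nd (nat_lit 1) (.nd (nat_lit 2) (.nd (nat_lit 3) (.nd (nat_lit 4) (.nd (nat_lit 5) 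
(.lf (nat_lit 13505) (.g (nat_lit 1716) (.e (nat_lit 999) (nat_lit 81) (.e (nat_lit 7236) (nat_lit 382) (.e (nat_lit 1221) (nat_lit 90) (.e (nat_lit 81965) (nat_lit 26) (.e (nat_lit 147493) (nat_lit 11) .nil))))) .nil)) 
(.lf (nat_lit 13537) (.g (nat_lit 2223) (.e (nat_lit 1006) (nat_lit 81) (.e (nat_lit 1669) (nat_lit 116) (.e (nat_lit 401454) (nat_lit 12) (.e (nat_lit 475207) (nat_lit 41) (.e (nat_lit 712755) (nat_lit 30) (.e (nat_lit 450563) (nat_lit 0) (.e (nat_lit 5839) (nat_lit 320) .nil))))))) (.g (nat_lit 4) .nil .nil)))) (.nd (nat_lit 5) 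
(.lf (nat_lit 13521) (.g (nat_lit 530) (.e (nat_lit 1003) (nat_lit 81) (.e (nat_lit 6113) (nat_lit 332) (.e (nat_lit 1370) (nat_lit 103) .nil))) .nil)) 
(.lf (nat_lit 13553) (.g (nat_lit 1557) (.e (nat_lit 1006) (nat_lit 81) (.e (nat_lit 7125) (nat_lit 382) (.e (nat_lit 1224) (nat_lit 90) (.e (nat_lit 81965) (nat_lit 26) .nil)))) .nil)))) (.nd (nat_lit 4) (.nd (nat_lit 5) 
(.lf (nat_lit 13513) (.g (nat_lit 2240) (.e (nat_lit 1001) (nat_lit 81) (.e (nat_lit 6218) (nat_lit 333) (.e (nat_lit 57819) (nat_lit 248) (.e (nat_lit 164359) (nat_lit 246) (.e (nat_lit 2435) (nat_lit 157) (.e (nat_lit 7107) (nat_lit 380) (.e (nat_lit 164281) (nat_lit 222) (.e (nat_lit 57884) (nat_lit 270) .nil)))))))) (.g (nat_lit 0) .nil .nil))) 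
(.lf (nat_lit 13545) (.g (nat_lit 1948) (.e (nat_lit 1006) (nat_lit 81) (.e (nat_lit 1691) (nat_lit 117) (.e (nat_lit 499929) (nat_lit 11) (.e (nat_lit 188451) (nat_lit 23) (.e (nat_lit 204846) (nat_lit 24) (.e (nat_lit 319511) (nat_lit 10) (.e (nat_lit 5293) (nat_lit 298) .nil))))))) (.g (nat_lit 0) .nil .nil)))) (.nd (nat_lit 5) 
(.lf (nat_lit 13529) (.g (nat_lit 782) (.e (nat_lit 1006) (nat_lit 81) (.e (nat_lit 584) (nat_lit 43) (.e (nat_lit 516129) (nat_lit 3) (.e (nat_lit 229120) (nat_lit 18) .nil)))) .nil)) 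
(.lf (nat_lit 13561) (.g (nat_lit 2584) (.e (nat_lit 1008) (nat_lit 81) (.e (nat_lit 1239) (nat_lit 91) (.e (nat_lit 90170) (nat_lit 13) (.e (nat_lit 172106) (nat_lit 10) (.e (nat_lit 434231) (nat_lit 23) .nil))))) .nil))))) (.nd (nat_lit 3) (.nd (nat_lit 4) (.nd (nat_lit 5) 
(.lf (nat_lit 13509) (.g (nat_lit 3629) (.e (nat_lit 1000) (nat_lit 81) (.e (nat_lit 2283) (nat_lit 150) (.e (nat_lit 770071) (nat_lit 8) (.e (nat_lit 65566) (nat_lit 2) (.e (nat_lit 90170) (nat_lit 13) (.e (nat_lit 172106) (nat_lit 10) (.e (nat_lit 434244) (nat_lit 28) (.e (nat_lit 573451) (nat_lit 9) .nil)))))))) (.g (nat_lit 8) .nil .nil))) 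
(.lf (nat_lit 13541) (.g (nat_lit 3335) (.e (nat_lit 1006) (nat_lit 81) (.e (nat_lit 1669) (nat_lit 116) (.e (nat_lit 401457) (nat_lit 13) (.e (nat_lit 483413) (nat_lit 27) (.e (nat_lit 401448) (nat_lit 10) (.e (nat_lit 434200) (nat_lit 18) (.e (nat_lit 5979) (nat_lit 326) .nil))))))) (.g (nat_lit 5) .nil .nil)))) (.nd (nat_lit 5) 
(.lf (nat_lit 13525) (.g (nat_lit 2817) (.e (nat_lit 1005) (nat_lit 81) (.e (nat_lit 1676) (nat_lit 116) (.e (nat_lit 401454) (nat_lit 12) (.e (nat_lit 475207) (nat_lit 41) (.e (nat_lit 712755) (nat_lit 30) (.e (nat_lit 450563) (nat_lit 0) (.e (nat_lit 5796) (nat_lit 320) .nil))))))) (.g (nat_lit 5) .nil .nil))) 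
(.lf (nat_lit 13557) (.g (nat_lit 1565) (.e (nat_lit 1008) (nat_lit 81) (.e (nat_lit 618) (nat_lit 48) (.e (nat_lit 557098) (nat_lit 13) (.e (nat_lit 172097) (nat_lit 9) .nil)))) .nil)))) (.nd (nat_lit 4) (.nd (nat_lit 5) 
(.lf (nat_lit 13517) (.g (nat_lit 719) (.e (nat_lit 1003) (nat_lit 81) (.e (nat_lit 458) (nat_lit 34) (.e (nat_lit 442379) (nat_lit 0) (.e (nat_lit 2160) (nat_lit 143) .nil)))) .nil)) 
(.lf (nat_lit 13549) (.g (nat_lit 3774) (.e (nat_lit 1006) (nat_lit 81) (.e (nat_lit 2032) (nat_lit 140) (.e (nat_lit 688177) (nat_lit 16) (.e (nat_lit 65586) (nat_lit 7) (.e (nat_lit 319531) (nat_lit 16) (.e (nat_lit 286759) (nat_lit 12) (.e (nat_lit 385094) (nat_lit 49) (.e (nat_lit 778241) (nat_lit 0) .nil)))))))) (.g (nat_lit 0) .nil .nil)))) (.nd (nat_lit 5) 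
(.lf (nat_lit 13533) (.g (nat_lit 3978) (.e (nat_lit 1006) (nat_lit 81) (.e (nat_lit 1401) (nat_lit 106) (.e (nat_lit 319531) (nat_lit 16) (.e (nat_lit 286735) (nat_lit 3) (.e (nat_lit 98373) (nat_lit 29) (.e (nat_lit 450562) (nat_lit 0) (.e (nat_lit 3866) (nat_lit 233) .nil))))))) (.g (nat_lit 0) .nil .nil))) 
(.lf (nat_lit 13565) (.g (nat_lit 3194) (.e (nat_lit 1008) (nat_lit 81) (.e (nat_lit 1443) (nat_lit 108) (.e (nat_lit 336013) (nat_lit 2) (.e (nat_lit 90170) (nat_lit 13) (.e (nat_lit 172106) (nat_lit 10) (.e (nat_lit 434231) (nat_lit 23) (.e (nat_lit 532516) (nat_lit 4) (.e (nat_lit 123116) (nat_lit 221) .nil)))))))) (.g (nat_lit 4) .nil .nil))))))) 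
(.nd (nat_lit 2) (.nd (nat_lit 3) (.nd (nat_lit 4) (.nd (nat_lit 5) 
(.lf (nat_lit 13507) (.g (nat_lit 1719) (.e (nat_lit 1000) (nat_lit 81) (.e (nat_lit 1589) (nat_lit 111) (.e (nat_lit 360453) (nat_lit 0) (.e (nat_lit 7270) (nat_lit 385) (.e (nat_lit 122919) (nat_lit 15) (.e (nat_lit 360451) (nat_lit 0) (.e (nat_lit 7124) (nat_lit 382) .nil))))))) (.g (nat_lit 4) .nil .nil))) 
(.lf (nat_lit 13539) (.g (nat_lit 1587) (.e (nat_lit 1006) (nat_lit 81) (.e (nat_lit 1669) (nat_lit 116) (.e (nat_lit 401456) (nat_lit 13) (.e (nat_lit 483413) (nat_lit 27) .nil)))) .nil))) (.nd (nat_lit 5) 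
(.lf (nat_lit 13523) (.g (nat_lit 2013) (.e (nat_lit 1004) (nat_lit 81) (.e (nat_lit 1466) (nat_lit 108) (.e (nat_lit 336454) (nat_lit 34) (.e (nat_lit 483383) (nat_lit 23) (.e (nat_lit 336324) (nat_lit 18) .nil))))) .nil)) 
(.lf (nat_lit 13555) (.g (nat_lit 2226) (.e (nat_lit 1007) (nat_lit 81) (.e (nat_lit 1669) (nat_lit 116) (.e (nat_lit 401454) (nat_lit 12) (.e (nat_lit 475207) (nat_lit 41) (.e (nat_lit 712755) (nat_lit 30) .nil))))) .nil)))) (.nd (nat_lit 4) (.nd (nat_lit 5) 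
(.lf (nat_lit 13515) (.g (nat_lit 4153) (.e (nat_lit 1002) (nat_lit 81) (.e (nat_lit 2374) (nat_lit 154) (.e (nat_lit 802822) (nat_lit 11) (.e (nat_lit 336011) (nat_lit 2) (.e (nat_lit 90170) (nat_lit 13) (.e (nat_lit 172106) (nat_lit 10) (.e (nat_lit 434244) (nat_lit 28) (.e (nat_lit 573451) (nat_lit 9) .nil)))))))) (.g (nat_lit 8) .nil .nil))) 
(.lf (nat_lit 13547) (.g (nat_lit 1708) (.e (nat_lit 1006) (nat_lit 81) (.e (nat_lit 1860) (nat_lit 124) (.e (nat_lit 557100) (nat_lit 13) (.e (nat_lit 172106) (nat_lit 10) (.e (nat_lit 434231) (nat_lit 23) (.e (nat_lit 532535) (nat_lit 9) (.e (nat_lit 336290) (nat_lit 15) (.e (nat_lit 3711) (nat_lit 227) (.e (nat_lit 778249) (nat_lit 0) .nil))))))))) (.g (nat_lit 5) .nil .nil)))) 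
(.nd (nat_lit 5) 
(.lf (nat_lit 13531) (.g (nat_lit 478) (.e (nat_lit 1006) (nat_lit 81) (.e (nat_lit 720) (nat_lit 64) (.e (nat_lit 688177) (nat_lit 16) .nil))) .nil)) 
(.lf (nat_lit 13563) (.g (nat_lit 2117) (.e (nat_lit 1008) (nat_lit 81) (.e (nat_lit 1401) (nat_lit 106) (.e (nat_lit 319531) (nat_lit 16) (.e (nat_lit 286761) (nat_lit 13) (.e (nat_lit 393264) (nat_lit 22) .nil))))) .nil))))) (.nd (nat_lit 3) (.nd (nat_lit 4) (.nd (nat_lit 5) 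
(.lf (nat_lit 13511) (.g (nat_lit 4538) (.e (nat_lit 1000) (nat_lit 81) (.e (nat_lit 2283) (nat_lit 150) (.e (nat_lit 770072) (nat_lit 8) (.e (nat_lit 65568) (nat_lit 2) (.e (nat_lit 90170) (nat_lit 13) (.e (nat_lit 172106) (nat_lit 10) (.e (nat_lit 434244) (nat_lit 28) (.e (nat_lit 573451) (nat_lit 9) .nil)))))))) (.g (nat_lit 8) .nil .nil))) 
(.lf (nat_lit 13543) (.g (nat_lit 3448) (.e (nat_lit 1006) (nat_lit 81) (.e (nat_lit 1669) (nat_lit 116) (.e (nat_lit 401457) (nat_lit 13) (.e (nat_lit 483413) (nat_lit 27) (.e (nat_lit 401448) (nat_lit 10) (.e (nat_lit 434200) (nat_lit 18) (.e (nat_lit 6027) (nat_lit 326) .nil))))))) (.g (nat_lit 5) .nil .nil)))) (.nd (nat_lit 5) 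
(.lf (nat_lit 13527) (.g (nat_lit 2394) (.e (nat_lit 1005) (nat_lit 81) (.e (nat_lit 2151) (nat_lit 142) (.e (nat_lit 704738) (nat_lit 11) (.e (nat_lit 16425) (nat_lit 7) (.e (nat_lit 409648) (nat_lit 18) .nil))))) .nil)) 
(.lf (nat_lit 13559) (.g (nat_lit 3318) (.e (nat_lit 1008) (nat_lit 81) (.e (nat_lit 618) (nat_lit 48) (.e (nat_lit 557109) (nat_lit 15) (.e (nat_lit 188452) (nat_lit 23) (.e (nat_lit 204863) (nat_lit 27) .nil))))) .nil)))) (.nd (nat_lit 4) (.nd (nat_lit 5) 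
(.lf (nat_lit 13519) (.g (nat_lit 2055) (.e (nat_lit 1003) (nat_lit 81) (.e (nat_lit 6113) (nat_lit 332) (.e (nat_lit 1361) (nat_lit 102) (.e (nat_lit 286761) (nat_lit 13) (.e (nat_lit 393284) (nat_lit 24) (.e (nat_lit 434276) (nat_lit 39) (.e (nat_lit 663555) (nat_lit 0) .nil))))))) (.g (nat_lit 6) .nil .nil))) 
(.lf (nat_lit 13551) (.g (nat_lit 1471) (.e (nat_lit 1006) (nat_lit 81) (.e (nat_lit 7125) (nat_lit 382) (.e (nat_lit 1222) (nat_lit 90) (.e (nat_lit 81963) (nat_lit 26) .nil)))) .nil))) (.nd (nat_lit 5) 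
(.lf (nat_lit 13535) (.g (nat_lit 2305) (.e (nat_lit 1006) (nat_lit 81) (.e (nat_lit 1401) (nat_lit 106) (.e (nat_lit 319531) (nat_lit 16) (.e (nat_lit 286748) (nat_lit 9) (.e (nat_lit 336389) (nat_lit 27) (.e (nat_lit 426300) (nat_lit 11) (.e (nat_lit 458776) (nat_lit 18) (.e (nat_lit 5827) (nat_lit 320) .nil)))))))) (.g (nat_lit 5) .nil .nil))) 
(.lf (nat_lit 13567) (.g (nat_lit 4196) (.e (nat_lit 1008) (nat_lit 81) (.e (nat_lit 1464) (nat_lit 108) (.e (nat_lit 336013) (nat_lit 2) (.e (nat_lit 90170) (nat_lit 13) (.e (nat_lit 172106) (nat_lit 10) (.e (nat_lit 434231) (nat_lit 23) (.e (nat_lit 532500) (nat_lit 1) (.e (nat_lit 57766) (nat_lit 221) .nil)))))))) (.g (nat_lit 7) .nil .nil)))))))))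

noncomputable def tv187 : DT := (.nd (nat_lit 0) (.nd (nat_lit 1) (.nd (nat_lit 2) (.nd (nat_lit 3) (.nd (nat_lit 4) (.nd (nat_lit 5) 
(.lf (nat_lit 13568) (.g (nat_lit 4336) (.e (nat_lit 1008) (nat_lit 81) (.e (nat_lit 1464) (nat_lit 108) (.e (nat_lit 336013) (nat_lit 2) (.e (nat_lit 90170) (nat_lit 13) (.e (nat_lit 172106) (nat_lit 10) (.e (nat_lit 434231) (nat_lit 23) (.e (nat_lit 532500) (nat_lit 1) (.e (nat_lit 57767) (nat_lit 221) .nil)))))))) (.g (nat_lit 8) .nil .nil))) 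
(.lf (nat_lit 13600) (.g (nat_lit 3629) (.e (nat_lit 1009) (nat_lit 81) (.e (nat_lit 1551) (nat_lit 109) (.e (nat_lit 344117) (nat_lit 21) (.e (nat_lit 516165) (nat_lit 12) (.e (nat_lit 450579) (nat_lit 5) (.e (nat_lit 532504) (nat_lit 1) (.e (nat_lit 57766) (nat_lit 221) .nil))))))) (.g (nat_lit 6) .nil .nil)))) (.nd (nat_lit 5) 
(.lf (nat_lit 13584) (.g (nat_lit 4598) (.e (nat_lit 1009) (nat_lit 81) (.e (nat_lit 618) (nat_lit 48) (.e (nat_lit 557105) (nat_lit 14) (.e (nat_lit 180252) (nat_lit 10) (.e (nat_lit 573489) (nat_lit 14) (.e (nat_lit 73755) (nat_lit 8) (.e (nat_lit 557119) (nat_lit 18) (.e (nat_lit 2449) (nat_lit 157) (.e (nat_lit 4939) (nat_lit 287) .nil))))))))) (.g (nat_lit 7) .nil .nil))) 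
(.lf (nat_lit 13616) (.g (nat_lit 2019) (.e (nat_lit 1009) (nat_lit 81) (.e (nat_lit 7125) (nat_lit 382) (.e (nat_lit 1201) (nat_lit 88) (.e (nat_lit 65610) (nat_lit 10) (.e (nat_lit 344090) (nat_lit 18) (.e (nat_lit 7265) (nat_lit 384) (.e (nat_lit 57436) (nat_lit 17) (.e (nat_lit 376855) (nat_lit 20) .nil)))))))) (.g (nat_lit 4) .nil .nil))))) (.nd (nat_lit 4) (.nd (nat_lit 5) 
(.lf (nat_lit 13576) (.g (nat_lit 1642) (.e (nat_lit 1008) (nat_lit 81) (.e (nat_lit 5412) (nat_lit 303) (.e (nat_lit 73746) (nat_lit 3) (.e (nat_lit 516171) (nat_lit 13) (.e (nat_lit 458774) (nat_lit 18) (.e (nat_lit 5224) (nat_lit 296) (.e (nat_lit 163868) (nat_lit 2) (.e (nat_lit 196690) (nat_lit 18) .nil)))))))) (.g (nat_lit 4) .nil .nil))) 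
(.lf (nat_lit 13608) (.g (nat_lit 2207) (.e (nat_lit 1009) (nat_lit 81) (.e (nat_lit 5271) (nat_lit 298) (.e (nat_lit 1256) (nat_lit 92) (.e (nat_lit 98372) (nat_lit 29) (.e (nat_lit 450579) (nat_lit 5) (.e (nat_lit 532489) (nat_lit 0) (.e (nat_lit 6157) (nat_lit 332) .nil))))))) (.g (nat_lit 7) .nil .nil)))) (.nd (nat_lit 5) 
(.lf (nat_lit 13592) (.g (nat_lit 5072) (.e (nat_lit 1009) (nat_lit 81) (.e (nat_lit 1449) (nat_lit 108) (.e (nat_lit 336013) (nat_lit 2) (.e (nat_lit 90170) (nat_lit 13) (.e (nat_lit 172106) (nat_lit 10) (.e (nat_lit 434231) (nat_lit 23) (.e (nat_lit 532481) (nat_lit 0) (.e (nat_lit 996) (nat_lit 81) (.e (nat_lit 4468) (nat_lit 263) .nil))))))))) (.g (nat_lit 7) .nil .nil))) 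
(.lf (nat_lit 13624) (.g (nat_lit 2786) (.e (nat_lit 1010) (nat_lit 81) (.e (nat_lit 1239) (nat_lit 91) (.e (nat_lit 90170) (nat_lit 13) (.e (nat_lit 172106) (nat_lit 10) (.e (nat_lit 434231) (nat_lit 23) (.e (nat_lit 532535) (nat_lit 9) (.e (nat_lit 335925) (nat_lit 0) (.e (nat_lit 992) (nat_lit 81) (.e (nat_lit 4780) (nat_lit 281) .nil))))))))) (.g (nat_lit 4) .nil .nil)))))) 
(.nd (nat_lit 3) (.nd (nat_lit 4) (.nd (nat_lit 5) 
(.lf (nat_lit 13572) (.g (nat_lit 2374) (.e (nat_lit 1008) (nat_lit 81) (.e (nat_lit 1575) (nat_lit 110) (.e (nat_lit 352271) (nat_lit 9) (.e (nat_lit 409603) (nat_lit 0) (.e (nat_lit 5293) (nat_lit 298) (.e (nat_lit 1633) (nat_lit 114) (.e (nat_lit 385047) (nat_lit 21) (.e (nat_lit 4494) (nat_lit 263) .nil)))))))) (.g (nat_lit 6) .nil .nil))) 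
(.lf (nat_lit 13604) (.g (nat_lit 2893) (.e (nat_lit 1009) (nat_lit 81) (.e (nat_lit 5271) (nat_lit 298) (.e (nat_lit 1256) (nat_lit 92) (.e (nat_lit 98372) (nat_lit 29) (.e (nat_lit 450579) (nat_lit 5) (.e (nat_lit 532481) (nat_lit 0) (.e (nat_lit 6157) (nat_lit 332) .nil))))))) (.g (nat_lit 6) .nil .nil)))) (.nd (nat_lit 5) 
(.lf (nat_lit 13588) (.g (nat_lit 3273) (.e (nat_lit 1009) (nat_lit 81) (.e (nat_lit 1395) (nat_lit 106) (.e (nat_lit 319530) (nat_lit 16) (.e (nat_lit 286735) (nat_lit 3) (.e (nat_lit 98373) (nat_lit 29) (.e (nat_lit 450562) (nat_lit 0) (.e (nat_lit 3847) (nat_lit 233) .nil))))))) (.g (nat_lit 7) .nil .nil))) 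
(.lf (nat_lit 13620) (.g (nat_lit 2163) (.e (nat_lit 1009) (nat_lit 81) (.e (nat_lit 7125) (nat_lit 382) (.e (nat_lit 1201) (nat_lit 88) (.e (nat_lit 65617) (nat_lit 10) (.e (nat_lit 344096) (nat_lit 18) (.e (nat_lit 7261) (nat_lit 384) (.e (nat_lit 57436) (nat_lit 17) (.e (nat_lit 376855) (nat_lit 20) .nil)))))))) (.g (nat_lit 4) .nil .nil))))) (.nd (nat_lit 4) (.nd (nat_lit 5) 
(.lf (nat_lit 13580) (.g (nat_lit 2054) (.e (nat_lit 1008) (nat_lit 81) (.e (nat_lit 7125) (nat_lit 382) (.e (nat_lit 1201) (nat_lit 88) (.e (nat_lit 65617) (nat_lit 10) (.e (nat_lit 344091) (nat_lit 18) .nil))))) .nil)) 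
(.lf (nat_lit 13612) (.g (nat_lit 1877) (.e (nat_lit 1009) (nat_lit 81) (.e (nat_lit 7122) (nat_lit 382) (.e (nat_lit 1201) (nat_lit 88) (.e (nat_lit 65610) (nat_lit 10) (.e (nat_lit 344090) (nat_lit 18) .nil))))) .nil))) (.nd (nat_lit 5) 
(.lf (nat_lit 13596) (.g (nat_lit 3812) (.e (nat_lit 1009) (nat_lit 81) (.e (nat_lit 1464) (nat_lit 108) (.e (nat_lit 336013) (nat_lit 2) (.e (nat_lit 90170) (nat_lit 13) (.e (nat_lit 172106) (nat_lit 10) (.e (nat_lit 434231) (nat_lit 23) (.e (nat_lit 532499) (nat_lit 1) (.e (nat_lit 57766) (nat_lit 221) .nil)))))))) (.g (nat_lit 7) .nil .nil))) 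
(.lf (nat_lit 13628) (.g (nat_lit 4035) (.e (nat_lit 1010) (nat_lit 81) (.e (nat_lit 1401) (nat_lit 106) (.e (nat_lit 319531) (nat_lit 16) (.e (nat_lit 286735) (nat_lit 3) (.e (nat_lit 98373) (nat_lit 29) (.e (nat_lit 450560) (nat_lit 0) (.e (nat_lit 3861) (nat_lit 233) .nil))))))) (.g (nat_lit 7) .nil .nil))))))) (.nd (nat_lit 2) (.nd (nat_lit 3) (.nd (nat_lit 4) (.nd (nat_lit 5) 
(.lf (nat_lit 13570) (.g (nat_lit 3713) (.e (nat_lit 1008) (nat_lit 81) (.e (nat_lit 1551) (nat_lit 109) (.e (nat_lit 344117) (nat_lit 21) (.e (nat_lit 516165) (nat_lit 12) (.e (nat_lit 450579) (nat_lit 5) (.e (nat_lit 532504) (nat_lit 1) (.e (nat_lit 57766) (nat_lit 221) .nil))))))) (.g (nat_lit 7) .nil .nil))) 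
(.lf (nat_lit 13602) (.g (nat_lit 2831) (.e (nat_lit 1009) (nat_lit 81) (.e (nat_lit 1586) (nat_lit 111) (.e (nat_lit 360475) (nat_lit 8) (.e (nat_lit 557119) (nat_lit 18) (.e (nat_lit 2798) (nat_lit 180) .nil))))) .nil))) (.nd (nat_lit 5) 
(.lf (nat_lit 13586) (.g (nat_lit 2955) (.e (nat_lit 1009) (nat_lit 81) (.e (nat_lit 1239) (nat_lit 91) (.e (nat_lit 90170) (nat_lit 13) (.e (nat_lit 172106) (nat_lit 10) (.e (nat_lit 434231) (nat_lit 23) (.e (nat_lit 532535) (nat_lit 9) (.e (nat_lit 335925) (nat_lit 0) (.e (nat_lit 993) (nat_lit 81) (.e (nat_lit 4780) (nat_lit 281) .nil))))))))) (.g (nat_lit 5) .nil .nil))) 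
(.lf (nat_lit 13618) (.g (nat_lit 2165) (.e (nat_lit 1009) (nat_lit 81) (.e (nat_lit 7125) (nat_lit 382) (.e (nat_lit 1201) (nat_lit 88) (.e (nat_lit 65617) (nat_lit 10) (.e (nat_lit 344095) (nat_lit 18) .nil))))) .nil)))) (.nd (nat_lit 4) (.nd (nat_lit 5) 
(.lf (nat_lit 13578) (.g (nat_lit 1608) (.e (nat_lit 1008) (nat_lit 81) (.e (nat_lit 5412) (nat_lit 303) (.e (nat_lit 73775) (nat_lit 26) (.e (nat_lit 778466) (nat_lit 11) (.e (nat_lit 24648) (nat_lit 12) .nil))))) .nil)) 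
(.lf (nat_lit 13610) (.g (nat_lit 2324) (.e (nat_lit 1009) (nat_lit 81) (.e (nat_lit 5395) (nat_lit 301) (.e (nat_lit 57464) (nat_lit 23) (.e (nat_lit 516165) (nat_lit 12) (.e (nat_lit 450579) (nat_lit 5) (.e (nat_lit 532484) (nat_lit 0) (.e (nat_lit 6157) (nat_lit 332) .nil))))))) (.g (nat_lit 7) .nil .nil)))) (.nd (nat_lit 5) 
(.lf (nat_lit 13594) (.g (nat_lit 5106) (.e (nat_lit 1009) (nat_lit 81) (.e (nat_lit 1449) (nat_lit 108) (.e (nat_lit 336013) (nat_lit 2) (.e (nat_lit 90170) (nat_lit 13) (.e (nat_lit 172106) (nat_lit 10) (.e (nat_lit 434231) (nat_lit 23) (.e (nat_lit 532500) (nat_lit 1) (.e (nat_lit 57766) (nat_lit 221) .nil)))))))) (.g (nat_lit 8) .nil .nil))) 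
(.lf (nat_lit 13626) (.g (nat_lit 2731) (.e (nat_lit 1010) (nat_lit 81) (.e (nat_lit 1239) (nat_lit 91) (.e (nat_lit 90170) (nat_lit 13) (.e (nat_lit 172106) (nat_lit 10) (.e (nat_lit 434231) (nat_lit 23) (.e (nat_lit 532553) (nat_lit 13) (.e (nat_lit 368662) (nat_lit 18) (.e (nat_lit 4776) (nat_lit 281) .nil)))))))) (.g (nat_lit 4) .nil .nil)))))) 
(.nd (nat_lit 3) (.nd (nat_lit 4) (.nd (nat_lit 5) 
(.lf (nat_lit 13574) (.g (nat_lit 2161) (.e (nat_lit 1008) (nat_lit 81) (.e (nat_lit 5412) (nat_lit 303) (.e (nat_lit 73746) (nat_lit 3) (.e (nat_lit 516146) (nat_lit 9) (.e (nat_lit 426448) (nat_lit 20) (.e (nat_lit 122624) (nat_lit 2) (.e (nat_lit 196683) (nat_lit 18) .nil))))))) (.g (nat_lit 5) .nil .nil))) 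
(.lf (nat_lit 13606) (.g (nat_lit 1746) (.e (nat_lit 1009) (nat_lit 81) (.e (nat_lit 5271) (nat_lit 298) (.e (nat_lit 1256) (nat_lit 92) (.e (nat_lit 98372) (nat_lit 29) (.e (nat_lit 450579) (nat_lit 5) (.e (nat_lit 532484) (nat_lit 0) (.e (nat_lit 6200) (nat_lit 332) .nil))))))) (.g (nat_lit 5) .nil .nil)))) (.nd (nat_lit 5) 
(.lf (nat_lit 13590) (.g (nat_lit 3012) (.e (nat_lit 1009) (nat_lit 81) (.e (nat_lit 1395) (nat_lit 106) (.e (nat_lit 319530) (nat_lit 16) (.e (nat_lit 286735) (nat_lit 3) (.e (nat_lit 98373) (nat_lit 29) (.e (nat_lit 450563) (nat_lit 0) (.e (nat_lit 3847) (nat_lit 233) .nil))))))) (.g (nat_lit 7) .nil .nil))) 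
(.lf (nat_lit 13622) (.g (nat_lit 3854) (.e (nat_lit 1009) (nat_lit 81) (.e (nat_lit 7454) (nat_lit 396) (.e (nat_lit 1188) (nat_lit 88) (.e (nat_lit 65630) (nat_lit 14) (.e (nat_lit 401459) (nat_lit 13) (.e (nat_lit 483410) (nat_lit 27) (.e (nat_lit 401462) (nat_lit 15) .nil))))))) (.g (nat_lit 7) .nil .nil))))) (.nd (nat_lit 4) (.nd (nat_lit 5) 
(.lf (nat_lit 13582) (.g (nat_lit 2042) (.e (nat_lit 1009) (nat_lit 81) (.e (nat_lit 498) (nat_lit 40) (.e (nat_lit 491563) (nat_lit 12) (.e (nat_lit 385102) (nat_lit 50) .nil)))) .nil)) 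
(.lf (nat_lit 13614) (.g (nat_lit 1872) (.e (nat_lit 1009) (nat_lit 81) (.e (nat_lit 7122) (nat_lit 382) (.e (nat_lit 1201) (nat_lit 88) (.e (nat_lit 65617) (nat_lit 10) (.e (nat_lit 344096) (nat_lit 18) (.e (nat_lit 7265) (nat_lit 384) (.e (nat_lit 57436) (nat_lit 17) (.e (nat_lit 376855) (nat_lit 20) .nil)))))))) (.g (nat_lit 4) .nil .nil)))) (.nd (nat_lit 5) 
(.lf (nat_lit 13598) (.g (nat_lit 3400) (.e (nat_lit 1009) (nat_lit 81) (.e (nat_lit 1551) (nat_lit 109) (.e (nat_lit 344117) (nat_lit 21) (.e (nat_lit 516165) (nat_lit 12) (.e (nat_lit 450579) (nat_lit 5) (.e (nat_lit 532501) (nat_lit 1) (.e (nat_lit 57766) (nat_lit 221) .nil))))))) (.g (nat_lit 6) .nil .nil))) 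
(.lf (nat_lit 13630) (.g (nat_lit 3915) (.e (nat_lit 1010) (nat_lit 81) (.e (nat_lit 1401) (nat_lit 106) (.e (nat_lit 319531) (nat_lit 16) (.e (nat_lit 286735) (nat_lit 3) (.e (nat_lit 98373) (nat_lit 29) (.e (nat_lit 450562) (nat_lit 0) (.e (nat_lit 3858) (nat_lit 233) .nil))))))) (.g (nat_lit 0) .nil .nil)))))))) 
(.nd (nat_lit 1) (.nd (nat_lit 2) (.nd (nat_lit 3) (.nd (nat_lit 4) (.nd (nat_lit 5) 
(.lf (nat_lit 13569) (.g (nat_lit 3481) (.e (nat_lit 1008) (nat_lit 81) (.e (nat_lit 1551) (nat_lit 109) (.e (nat_lit 344117) (nat_lit 21) (.e (nat_lit 516165) (nat_lit 12) (.e (nat_lit 450579) (nat_lit 5) (.e (nat_lit 532501) (nat_lit 1) (.e (nat_lit 57766) (nat_lit 221) .nil))))))) (.g (nat_lit 7) .nil .nil))) 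
(.lf (nat_lit 13601) (.g (nat_lit 1784) (.e (nat_lit 1009) (nat_lit 81) (.e (nat_lit 1586) (nat_lit 111) (.e (nat_lit 360475) (nat_lit 8) (.e (nat_lit 557119) (nat_lit 18) .nil)))) .nil))) (.nd (nat_lit 5) 
(.lf (nat_lit 13585) (.g (nat_lit 2584) (.e (nat_lit 1009) (nat_lit 81) (.e (nat_lit 1239) (nat_lit 91) (.e (nat_lit 90170) (nat_lit 13) (.e (nat_lit 172106) (nat_lit 10) (.e (nat_lit 434231) (nat_lit 23) .nil))))) .nil)) 
(.lf (nat_lit 13617) (.g (nat_lit 2054) (.e (nat_lit 1009) (nat_lit 81) (.e (nat_lit 7125) (nat_lit 382) (.e (nat_lit 1201) (nat_lit 88) (.e (nat_lit 65617) (nat_lit 10) (.e (nat_lit 344091) (nat_lit 18) .nil))))) .nil)))) (.nd (nat_lit 4) (.nd (nat_lit 5) 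
(.lf (nat_lit 13577) (.g (nat_lit 1779) (.e (nat_lit 1008) (nat_lit 81) (.e (nat_lit 5412) (nat_lit 303) (.e (nat_lit 73746) (nat_lit 3) (.e (nat_lit 516172) (nat_lit 13) .nil)))) .nil)) 
(.lf (nat_lit 13609) (.g (nat_lit 3307) (.e (nat_lit 1009) (nat_lit 81) (.e (nat_lit 5395) (nat_lit 301) (.e (nat_lit 57464) (nat_lit 23) (.e (nat_lit 516165) (nat_lit 12) (.e (nat_lit 450579) (nat_lit 5) (.e (nat_lit 532481) (nat_lit 0) (.e (nat_lit 6157) (nat_lit 332) .nil))))))) (.g (nat_lit 7) .nil .nil)))) (.nd (nat_lit 5) 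
(.lf (nat_lit 13593) (.g (nat_lit 4993) (.e (nat_lit 1009) (nat_lit 81) (.e (nat_lit 1449) (nat_lit 108) (.e (nat_lit 336013) (nat_lit 2) (.e (nat_lit 90170) (nat_lit 13) (.e (nat_lit 172106) (nat_lit 10) (.e (nat_lit 434231) (nat_lit 23) (.e (nat_lit 532499) (nat_lit 1) (.e (nat_lit 57767) (nat_lit 221) .nil)))))))) (.g (nat_lit 8) .nil .nil))) 
(.lf (nat_lit 13625) (.g (nat_lit 2636) (.e (nat_lit 1010) (nat_lit 81) (.e (nat_lit 1239) (nat_lit 91) (.e (nat_lit 90170) (nat_lit 13) (.e (nat_lit 172106) (nat_lit 10) (.e (nat_lit 434231) (nat_lit 23) (.e (nat_lit 532544) (nat_lit 10) (.e (nat_lit 344095) (nat_lit 18) (.e (nat_lit 4780) (nat_lit 281) .nil)))))))) (.g (nat_lit 4) .nil .nil)))))) 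
(.nd (nat_lit 3) (.nd (nat_lit 4) (.nd (nat_lit 5) 
(.lf (nat_lit 13573) (.g (nat_lit 2412) (.e (nat_lit 1008) (nat_lit 81) (.e (nat_lit 1669) (nat_lit 116) (.e (nat_lit 401454) (nat_lit 12) (.e (nat_lit 475193) (nat_lit 38) .nil)))) .nil)) 
(.lf (nat_lit 13605) (.g (nat_lit 2537) (.e (nat_lit 1009) (nat_lit 81) (.e (nat_lit 5271) (nat_lit 298) (.e (nat_lit 1256) (nat_lit 92) (.e (nat_lit 98372) (nat_lit 29) (.e (nat_lit 450579) (nat_lit 5) (.e (nat_lit 532484) (nat_lit 0) (.e (nat_lit 6157) (nat_lit 332) .nil))))))) (.g (nat_lit 0) .nil .nil)))) (.nd (nat_lit 5) 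
(.lf (nat_lit 13589) (.g (nat_lit 3304) (.e (nat_lit 1009) (nat_lit 81) (.e (nat_lit 1395) (nat_lit 106) (.e (nat_lit 319530) (nat_lit 16) (.e (nat_lit 286735) (nat_lit 3) (.e (nat_lit 98373) (nat_lit 29) (.e (nat_lit 450562) (nat_lit 0) (.e (nat_lit 3858) (nat_lit 233) .nil))))))) (.g (nat_lit 7) .nil .nil))) 
(.lf (nat_lit 13621) (.g (nat_lit 2022) (.e (nat_lit 1009) (nat_lit 81) (.e (nat_lit 7125) (nat_lit 382) (.e (nat_lit 1201) (nat_lit 88) (.e (nat_lit 65617) (nat_lit 10) (.e (nat_lit 344096) (nat_lit 18) (.e (nat_lit 7261) (nat_lit 384) (.e (nat_lit 57437) (nat_lit 17) (.e (nat_lit 376855) (nat_lit 20) .nil)))))))) (.g (nat_lit 4) .nil .nil))))) (.nd (nat_lit 4) (.nd (nat_lit 5) 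
(.lf (nat_lit 13581) (.g (nat_lit 2016) (.e (nat_lit 1008) (nat_lit 81) (.e (nat_lit 7125) (nat_lit 382) (.e (nat_lit 1201) (nat_lit 88) (.e (nat_lit 65617) (nat_lit 10) (.e (nat_lit 344096) (nat_lit 18) .nil))))) .nil)) 
(.lf (nat_lit 13613) (.g (nat_lit 1829) (.e (nat_lit 1009) (nat_lit 81) (.e (nat_lit 7122) (nat_lit 382) (.e (nat_lit 1201) (nat_lit 88) (.e (nat_lit 65617) (nat_lit 10) (.e (nat_lit 344091) (nat_lit 18) .nil))))) .nil))) (.nd (nat_lit 5) 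
(.lf (nat_lit 13597) (.g (nat_lit 4246) (.e (nat_lit 1009) (nat_lit 81) (.e (nat_lit 1464) (nat_lit 108) (.e (nat_lit 336013) (nat_lit 2) (.e (nat_lit 90170) (nat_lit 13) (.e (nat_lit 172106) (nat_lit 10) (.e (nat_lit 434231) (nat_lit 23) (.e (nat_lit 532500) (nat_lit 1) (.e (nat_lit 57767) (nat_lit 221) .nil)))))))) (.g (nat_lit 7) .nil .nil))) 
(.lf (nat_lit 13629) (.g (nat_lit 3903) (.e (nat_lit 1010) (nat_lit 81) (.e (nat_lit 1401) (nat_lit 106) (.e (nat_lit 319531) (nat_lit 16) (.e (nat_lit 286735) (nat_lit 3) (.e (nat_lit 98373) (nat_lit 29) (.e (nat_lit 450562) (nat_lit 0) (.e (nat_lit 3847) (nat_lit 233) .nil))))))) (.g (nat_lit 0) .nil .nil))))))) (.nd (nat_lit 2) (.nd (nat_lit 3) (.nd (nat_lit 4) (.nd (nat_lit 5) 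
(.lf (nat_lit 13571) (.g (nat_lit 2959) (.e (nat_lit 1008) (nat_lit 81) (.e (nat_lit 1575) (nat_lit 110) (.e (nat_lit 352271) (nat_lit 9) (.e (nat_lit 409602) (nat_lit 0) (.e (nat_lit 5293) (nat_lit 298) (.e (nat_lit 1633) (nat_lit 114) (.e (nat_lit 385047) (nat_lit 21) (.e (nat_lit 4494) (nat_lit 263) .nil)))))))) (.g (nat_lit 6) .nil .nil))) 
(.lf (nat_lit 13603) (.g (nat_lit 5786) (.e (nat_lit 1009) (nat_lit 81) (.e (nat_lit 5271) (nat_lit 298) (.e (nat_lit 1239) (nat_lit 91) (.e (nat_lit 90170) (nat_lit 13) (.e (nat_lit 172106) (nat_lit 10) (.e (nat_lit 434231) (nat_lit 23) (.e (nat_lit 532481) (nat_lit 0) (.e (nat_lit 6157) (nat_lit 332) .nil)))))))) (.g (nat_lit 8) .nil .nil)))) (.nd (nat_lit 5) 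
(.lf (nat_lit 13587) (.g (nat_lit 3516) (.e (nat_lit 1009) (nat_lit 81) (.e (nat_lit 1239) (nat_lit 91) (.e (nat_lit 90170) (nat_lit 13) (.e (nat_lit 172106) (nat_lit 10) (.e (nat_lit 434231) (nat_lit 23) (.e (nat_lit 532554) (nat_lit 13) (.e (nat_lit 368662) (nat_lit 18) (.e (nat_lit 4776) (nat_lit 281) .nil)))))))) (.g (nat_lit 5) .nil .nil))) 
(.lf (nat_lit 13619) (.g (nat_lit 2016) (.e (nat_lit 1009) (nat_lit 81) (.e (nat_lit 7125) (nat_lit 382) (.e (nat_lit 1201) (nat_lit 88) (.e (nat_lit 65617) (nat_lit 10) (.e (nat_lit 344096) (nat_lit 18) .nil))))) .nil)))) (.nd (nat_lit 4) (.nd (nat_lit 5) 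
(.lf (nat_lit 13579) (.g (nat_lit 1889) (.e (nat_lit 1008) (nat_lit 81) (.e (nat_lit 7125) (nat_lit 382) (.e (nat_lit 1201) (nat_lit 88) (.e (nat_lit 65610) (nat_lit 10) (.e (nat_lit 344090) (nat_lit 18) .nil))))) .nil)) 
(.lf (nat_lit 13611) (.g (nat_lit 4107) (.e (nat_lit 1009) (nat_lit 81) (.e (nat_lit 6811) (nat_lit 365) (.e (nat_lit 2601) (nat_lit 163) (.e (nat_lit 164020) (nat_lit 45) (.e (nat_lit 696344) (nat_lit 8) (.e (nat_lit 172082) (nat_lit 7) (.e (nat_lit 409646) (nat_lit 18) (.e (nat_lit 303133) (nat_lit 9) (.e (nat_lit 426412) (nat_lit 15) .nil))))))))) (.g (nat_lit 0) .nil .nil)))) (.nd (nat_lit 5) 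
(.lf (nat_lit 13595) (.g (nat_lit 4132) (.e (nat_lit 1009) (nat_lit 81) (.e (nat_lit 1464) (nat_lit 108) (.e (nat_lit 336013) (nat_lit 2) (.e (nat_lit 90170) (nat_lit 13) (.e (nat_lit 172106) (nat_lit 10) (.e (nat_lit 434231) (nat_lit 23) (.e (nat_lit 532481) (nat_lit 0) (.e (nat_lit 996) (nat_lit 81) (.e (nat_lit 4468) (nat_lit 263) .nil))))))))) (.g (nat_lit 7) .nil .nil))) 
(.lf (nat_lit 13627) (.g (nat_lit 2745) (.e (nat_lit 1010) (nat_lit 81) (.e (nat_lit 1239) (nat_lit 91) (.e (nat_lit 90170) (nat_lit 13) (.e (nat_lit 172106) (nat_lit 10) (.e (nat_lit 434231) (nat_lit 23) (.e (nat_lit 532554) (nat_lit 13) (.e (nat_lit 368662) (nat_lit 18) (.e (nat_lit 4776) (nat_lit 281) .nil)))))))) (.g (nat_lit 4) .nil .nil)))))) 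
(.nd (nat_lit 3) (.nd (nat_lit 4) (.nd (nat_lit 5) 
(.lf (nat_lit 13575) (.g (nat_lit 1966) (.e (nat_lit 1008) (nat_lit 81) (.e (nat_lit 5412) (nat_lit 303) (.e (nat_lit 73746) (nat_lit 3) (.e (nat_lit 516150) (nat_lit 9) (.e (nat_lit 426112) (nat_lit 1) .nil))))) .nil)) 
(.lf (nat_lit 13607) (.g (nat_lit 1733) (.e (nat_lit 1009) (nat_lit 81) (.e (nat_lit 5271) (nat_lit 298) (.e (nat_lit 1256) (nat_lit 92) (.e (nat_lit 98372) (nat_lit 29) (.e (nat_lit 450579) (nat_lit 5) (.e (nat_lit 532488) (nat_lit 0) (.e (nat_lit 6157) (nat_lit 332) .nil))))))) (.g (nat_lit 5) .nil .nil)))) (.nd (nat_lit 5) 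
(.lf (nat_lit 13591) (.g (nat_lit 3303) (.e (nat_lit 1009) (nat_lit 81) (.e (nat_lit 1395) (nat_lit 106) (.e (nat_lit 319530) (nat_lit 16) (.e (nat_lit 286735) (nat_lit 3) (.e (nat_lit 98373) (nat_lit 29) (.e (nat_lit 450563) (nat_lit 0) (.e (nat_lit 3858) (nat_lit 233) .nil))))))) (.g (nat_lit 7) .nil .nil))) 
(.lf (nat_lit 13623) (.g (nat_lit 2584) (.e (nat_lit 1010) (nat_lit 81) (.e (nat_lit 1239) (nat_lit 91) (.e (nat_lit 90170) (nat_lit 13) (.e (nat_lit 172106) (nat_lit 10) (.e (nat_lit 434231) (nat_lit 23) .nil))))) .nil)))) (.nd (nat_lit 4) (.nd (nat_lit 5) 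
(.lf (nat_lit 13583) (.g (nat_lit 2382) (.e (nat_lit 1009) (nat_lit 81) (.e (nat_lit 618) (nat_lit 48) (.e (nat_lit 557105) (nat_lit 14) (.e (nat_lit 180252) (nat_lit 10) (.e (nat_lit 573489) (nat_lit 14) .nil))))) .nil)) 
(.lf (nat_lit 13615) (.g (nat_lit 1889) (.e (nat_lit 1009) (nat_lit 81) (.e (nat_lit 7125) (nat_lit 382) (.e (nat_lit 1201) (nat_lit 88) (.e (nat_lit 65610) (nat_lit 10) (.e (nat_lit 344090) (nat_lit 18) .nil))))) .nil))) (.nd (nat_lit 5) 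
(.lf (nat_lit 13599) (.g (nat_lit 3318) (.e (nat_lit 1009) (nat_lit 81) (.e (nat_lit 1551) (nat_lit 109) (.e (nat_lit 344117) (nat_lit 21) (.e (nat_lit 516165) (nat_lit 12) (.e (nat_lit 450579) (nat_lit 5) (.e (nat_lit 532501) (nat_lit 1) (.e (nat_lit 57767) (nat_lit 221) .nil))))))) (.g (nat_lit 6) .nil .nil))) 
(.lf (nat_lit 13631) (.g (nat_lit 3705) (.e (nat_lit 1010) (nat_lit 81) (.e (nat_lit 1401) (nat_lit 106) (.e (nat_lit 319531) (nat_lit 16) (.e (nat_lit 286735) (nat_lit 3) (.e (nat_lit 98373) (nat_lit 29) (.e (nat_lit 450563) (nat_lit 0) (.e (nat_lit 3847) (nat_lit 233) .nil))))))) (.g (nat_lit 0) .nil .nil)))))))))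

noncomputable def tv188 : DT := (.nd (nat_lit 0) (.nd (nat_lit 1) (.nd (nat_lit 2) (.nd (nat_lit 3) (.nd (nat_lit 4) (.nd (nat_lit 5) 
(.lf (nat_lit 13632) (.g (nat_lit 3989) (.e (nat_lit 1010) (nat_lit 81) (.e (nat_lit 1401) (nat_lit 106) (.e (nat_lit 319531) (nat_lit 16) (.e (nat_lit 286735) (nat_lit 3) (.e (nat_lit 98373) (nat_lit 29) (.e (nat_lit 450563) (nat_lit 0) (.e (nat_lit 3858) (nat_lit 233) .nil))))))) (.g (nat_lit 0) .nil .nil))) 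
(.lf (nat_lit 13664) (.g (nat_lit 1899) (.e (nat_lit 1010) (nat_lit 81) (.e (nat_lit 1669) (nat_lit 116) (.e (nat_lit 401459) (nat_lit 13) (.e (nat_lit 483344) (nat_lit 17) (.e (nat_lit 6722) (nat_lit 362) .nil))))) .nil))) (.nd (nat_lit 5) 
(.lf (nat_lit 13648) (.g (nat_lit 3228) (.e (nat_lit 1010) (nat_lit 81) (.e (nat_lit 1551) (nat_lit 109) (.e (nat_lit 344117) (nat_lit 21) (.e (nat_lit 516165) (nat_lit 12) (.e (nat_lit 450579) (nat_lit 5) (.e (nat_lit 532501) (nat_lit 1) (.e (nat_lit 57767) (nat_lit 221) .nil))))))) (.g (nat_lit 6) .nil .nil))) 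
(.lf (nat_lit 13680) (.g (nat_lit 4173) (.e (nat_lit 1011) (nat_lit 81) (.e (nat_lit 1256) (nat_lit 92) (.e (nat_lit 98381) (nat_lit 31) (.e (nat_lit 466977) (nat_lit 22) (.e (nat_lit 196670) (nat_lit 14) (.e (nat_lit 73729) (nat_lit 0) (.e (nat_lit 4780) (nat_lit 281) .nil))))))) (.g (nat_lit 0) .nil .nil))))) (.nd (nat_lit 4) (.nd (nat_lit 5) 
(.lf (nat_lit 13640) (.g (nat_lit 2606) (.e (nat_lit 1010) (nat_lit 81) (.e (nat_lit 1464) (nat_lit 108) (.e (nat_lit 336013) (nat_lit 2) (.e (nat_lit 90170) (nat_lit 13) (.e (nat_lit 172106) (nat_lit 10) (.e (nat_lit 434231) (nat_lit 23) (.e (nat_lit 532490) (nat_lit 0) (.e (nat_lit 1040) (nat_lit 81) (.e (nat_lit 4511) (nat_lit 263) .nil))))))))) (.g (nat_lit 7) .nil .nil))) 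
(.lf (nat_lit 13672) (.g (nat_lit 2576) (.e (nat_lit 1011) (nat_lit 81) (.e (nat_lit 1239) (nat_lit 91) (.e (nat_lit 90170) (nat_lit 13) (.e (nat_lit 172106) (nat_lit 10) (.e (nat_lit 434231) (nat_lit 23) .nil))))) .nil))) (.nd (nat_lit 5) 
(.lf (nat_lit 13656) (.g (nat_lit 4145) (.e (nat_lit 1010) (nat_lit 81) (.e (nat_lit 1669) (nat_lit 116) (.e (nat_lit 401457) (nat_lit 13) (.e (nat_lit 483413) (nat_lit 27) (.e (nat_lit 401446) (nat_lit 10) (.e (nat_lit 434208) (nat_lit 18) (.e (nat_lit 6000) (nat_lit 326) .nil))))))) (.g (nat_lit 7) .nil .nil))) 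
(.lf (nat_lit 13688) (.g (nat_lit 4020) (.e (nat_lit 1011) (nat_lit 81) (.e (nat_lit 1449) (nat_lit 108) (.e (nat_lit 336013) (nat_lit 2) (.e (nat_lit 90170) (nat_lit 13) (.e (nat_lit 172106) (nat_lit 10) (.e (nat_lit 434231) (nat_lit 23) (.e (nat_lit 532483) (nat_lit 0) (.e (nat_lit 1036) (nat_lit 81) (.e (nat_lit 4511) (nat_lit 263) .nil))))))))) (.g (nat_lit 7) .nil .nil)))))) 
(.nd (nat_lit 3) (.nd (nat_lit 4) (.nd (nat_lit 5) 
(.lf (nat_lit 13636) (.g (nat_lit 1994) (.e (nat_lit 1010) (nat_lit 81) (.e (nat_lit 1401) (nat_lit 106) (.e (nat_lit 319531) (nat_lit 16) (.e (nat_lit 286743) (nat_lit 9) (.e (nat_lit 336433) (nat_lit 30) .nil))))) .nil)) 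
(.lf (nat_lit 13668) (.g (nat_lit 2144) (.e (nat_lit 1010) (nat_lit 81) (.e (nat_lit 5395) (nat_lit 301) (.e (nat_lit 57464) (nat_lit 23) (.e (nat_lit 516165) (nat_lit 12) (.e (nat_lit 450579) (nat_lit 5) (.e (nat_lit 532484) (nat_lit 0) (.e (nat_lit 6157) (nat_lit 332) .nil))))))) (.g (nat_lit 6) .nil .nil)))) (.nd (nat_lit 5) 
(.lf (nat_lit 13652) (.g (nat_lit 573) (.e (nat_lit 1010) (nat_lit 81) (.e (nat_lit 1589) (nat_lit 111) (.e (nat_lit 360453) (nat_lit 0) .nil))) .nil)) 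
(.lf (nat_lit 13684) (.g (nat_lit 4374) (.e (nat_lit 1011) (nat_lit 81) (.e (nat_lit 1401) (nat_lit 106) (.e (nat_lit 319531) (nat_lit 16) (.e (nat_lit 286735) (nat_lit 3) (.e (nat_lit 98373) (nat_lit 29) (.e (nat_lit 450563) (nat_lit 0) (.e (nat_lit 3868) (nat_lit 233) .nil))))))) (.g (nat_lit 0) .nil .nil))))) (.nd (nat_lit 4) (.nd (nat_lit 5) 
(.lf (nat_lit 13644) (.g (nat_lit 3696) (.e (nat_lit 1010) (nat_lit 81) (.e (nat_lit 1535) (nat_lit 109) (.e (nat_lit 344117) (nat_lit 21) (.e (nat_lit 516165) (nat_lit 12) (.e (nat_lit 450579) (nat_lit 5) (.e (nat_lit 532501) (nat_lit 1) (.e (nat_lit 57766) (nat_lit 221) .nil))))))) (.g (nat_lit 7) .nil .nil))) 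
(.lf (nat_lit 13676) (.g (nat_lit 3540) (.e (nat_lit 1011) (nat_lit 81) (.e (nat_lit 1239) (nat_lit 91) (.e (nat_lit 90170) (nat_lit 13) (.e (nat_lit 172106) (nat_lit 10) (.e (nat_lit 434231) (nat_lit 23) (.e (nat_lit 532544) (nat_lit 10) (.e (nat_lit 344094) (nat_lit 18) (.e (nat_lit 4780) (nat_lit 281) .nil)))))))) (.g (nat_lit 6) .nil .nil)))) (.nd (nat_lit 5) 
(.lf (nat_lit 13660) (.g (nat_lit 3474) (.e (nat_lit 1010) (nat_lit 81) (.e (nat_lit 1669) (nat_lit 116) (.e (nat_lit 401457) (nat_lit 13) (.e (nat_lit 483413) (nat_lit 27) (.e (nat_lit 401448) (nat_lit 10) (.e (nat_lit 434206) (nat_lit 18) (.e (nat_lit 6000) (nat_lit 326) .nil))))))) (.g (nat_lit 5) .nil .nil))) 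
(.lf (nat_lit 13692) (.g (nat_lit 4225) (.e (nat_lit 1011) (nat_lit 81) (.e (nat_lit 1464) (nat_lit 108) (.e (nat_lit 336013) (nat_lit 2) (.e (nat_lit 90170) (nat_lit 13) (.e (nat_lit 172106) (nat_lit 10) (.e (nat_lit 434231) (nat_lit 23) (.e (nat_lit 532481) (nat_lit 0) (.e (nat_lit 996) (nat_lit 81) (.e (nat_lit 4468) (nat_lit 263) .nil))))))))) (.g (nat_lit 8) .nil .nil))))))) 
(.nd (nat_lit 2) (.nd (nat_lit 3) (.nd (nat_lit 4) (.nd (nat_lit 5) 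
(.lf (nat_lit 13634) (.g (nat_lit 3494) (.e (nat_lit 1010) (nat_lit 81) (.e (nat_lit 1401) (nat_lit 106) (.e (nat_lit 319531) (nat_lit 16) (.e (nat_lit 286735) (nat_lit 3) (.e (nat_lit 98373) (nat_lit 29) (.e (nat_lit 450563) (nat_lit 0) (.e (nat_lit 3883) (nat_lit 233) .nil))))))) (.g (nat_lit 7) .nil .nil))) 
(.lf (nat_lit 13666) (.g (nat_lit 2078) (.e (nat_lit 1010) (nat_lit 81) (.e (nat_lit 5271) (nat_lit 298) (.e (nat_lit 1256) (nat_lit 92) (.e (nat_lit 98372) (nat_lit 29) (.e (nat_lit 450579) (nat_lit 5) (.e (nat_lit 532484) (nat_lit 0) (.e (nat_lit 6157) (nat_lit 332) .nil))))))) (.g (nat_lit 6) .nil .nil)))) (.nd (nat_lit 5) 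
(.lf (nat_lit 13650) (.g (nat_lit 1776) (.e (nat_lit 1010) (nat_lit 81) (.e (nat_lit 1586) (nat_lit 111) (.e (nat_lit 360475) (nat_lit 8) (.e (nat_lit 557119) (nat_lit 18) .nil)))) .nil)) 
(.lf (nat_lit 13682) (.g (nat_lit 4575) (.e (nat_lit 1011) (nat_lit 81) (.e (nat_lit 1401) (nat_lit 106) (.e (nat_lit 319531) (nat_lit 16) (.e (nat_lit 286735) (nat_lit 3) (.e (nat_lit 98373) (nat_lit 29) (.e (nat_lit 450562) (nat_lit 0) (.e (nat_lit 3868) (nat_lit 233) .nil))))))) (.g (nat_lit 0) .nil .nil))))) (.nd (nat_lit 4) (.nd (nat_lit 5) 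
(.lf (nat_lit 13642) (.g (nat_lit 4402) (.e (nat_lit 1010) (nat_lit 81) (.e (nat_lit 1464) (nat_lit 108) (.e (nat_lit 336013) (nat_lit 2) (.e (nat_lit 90170) (nat_lit 13) (.e (nat_lit 172106) (nat_lit 10) (.e (nat_lit 434231) (nat_lit 23) (.e (nat_lit 532500) (nat_lit 1) (.e (nat_lit 57766) (nat_lit 221) .nil)))))))) (.g (nat_lit 7) .nil .nil))) 
(.lf (nat_lit 13674) (.g (nat_lit 3102) (.e (nat_lit 1011) (nat_lit 81) (.e (nat_lit 1239) (nat_lit 91) (.e (nat_lit 90170) (nat_lit 13) (.e (nat_lit 172106) (nat_lit 10) (.e (nat_lit 434231) (nat_lit 23) (.e (nat_lit 532535) (nat_lit 9) (.e (nat_lit 335925) (nat_lit 0) (.e (nat_lit 988) (nat_lit 81) (.e (nat_lit 4780) (nat_lit 281) .nil))))))))) (.g (nat_lit 5) .nil .nil)))) (.nd (nat_lit 5) 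
(.lf (nat_lit 13658) (.g (nat_lit 3632) (.e (nat_lit 1010) (nat_lit 81) (.e (nat_lit 1669) (nat_lit 116) (.e (nat_lit 401457) (nat_lit 13) (.e (nat_lit 483413) (nat_lit 27) (.e (nat_lit 401448) (nat_lit 10) (.e (nat_lit 434202) (nat_lit 18) (.e (nat_lit 6000) (nat_lit 326) .nil))))))) (.g (nat_lit 5) .nil .nil))) 
(.lf (nat_lit 13690) (.g (nat_lit 5203) (.e (nat_lit 1011) (nat_lit 81) (.e (nat_lit 1449) (nat_lit 108) (.e (nat_lit 336013) (nat_lit 2) (.e (nat_lit 90170) (nat_lit 13) (.e (nat_lit 172106) (nat_lit 10) (.e (nat_lit 434231) (nat_lit 23) (.e (nat_lit 532500) (nat_lit 1) (.e (nat_lit 57767) (nat_lit 221) .nil)))))))) (.g (nat_lit 8) .nil .nil)))))) 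
(.nd (nat_lit 3) (.nd (nat_lit 4) (.nd (nat_lit 5) 
(.lf (nat_lit 13638) (.g (nat_lit 1352) (.e (nat_lit 1010) (nat_lit 81) (.e (nat_lit 1401) (nat_lit 106) (.e (nat_lit 319533) (nat_lit 16) (.e (nat_lit 286739) (nat_lit 7) .nil)))) .nil)) 
(.lf (nat_lit 13670) (.g (nat_lit 408) (.e (nat_lit 1010) (nat_lit 81) (.e (nat_lit 5412) (nat_lit 303) (.e (nat_lit 73777) (nat_lit 31) .nil))) .nil))) (.nd (nat_lit 5) 
(.lf (nat_lit 13654) (.g (nat_lit 1583) (.e (nat_lit 1010) (nat_lit 81) (.e (nat_lit 1669) (nat_lit 116) (.e (nat_lit 401456) (nat_lit 13) (.e (nat_lit 483413) (nat_lit 27) .nil)))) .nil)) 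
(.lf (nat_lit 13686) (.g (nat_lit 3439) (.e (nat_lit 1011) (nat_lit 81) (.e (nat_lit 1401) (nat_lit 106) (.e (nat_lit 319531) (nat_lit 16) (.e (nat_lit 286735) (nat_lit 3) (.e (nat_lit 98373) (nat_lit 29) (.e (nat_lit 450563) (nat_lit 0) (.e (nat_lit 3885) (nat_lit 233) .nil))))))) (.g (nat_lit 7) .nil .nil))))) (.nd (nat_lit 4) (.nd (nat_lit 5) 
(.lf (nat_lit 13646) (.g (nat_lit 3919) (.e (nat_lit 1010) (nat_lit 81) (.e (nat_lit 1535) (nat_lit 109) (.e (nat_lit 344117) (nat_lit 21) (.e (nat_lit 516165) (nat_lit 12) (.e (nat_lit 450579) (nat_lit 5) (.e (nat_lit 532504) (nat_lit 1) (.e (nat_lit 57766) (nat_lit 221) .nil))))))) (.g (nat_lit 6) .nil .nil))) 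
(.lf (nat_lit 13678) (.g (nat_lit 2181) (.e (nat_lit 1011) (nat_lit 81) (.e (nat_lit 1256) (nat_lit 92) (.e (nat_lit 98372) (nat_lit 29) (.e (nat_lit 450579) (nat_lit 5) (.e (nat_lit 532555) (nat_lit 13) (.e (nat_lit 368659) (nat_lit 18) (.e (nat_lit 4780) (nat_lit 281) .nil))))))) (.g (nat_lit 6) .nil .nil)))) (.nd (nat_lit 5) 
(.lf (nat_lit 13662) (.g (nat_lit 5103) (.e (nat_lit 1010) (nat_lit 81) (.e (nat_lit 1669) (nat_lit 116) (.e (nat_lit 401457) (nat_lit 13) (.e (nat_lit 483413) (nat_lit 27) (.e (nat_lit 401448) (nat_lit 10) (.e (nat_lit 434209) (nat_lit 18) (.e (nat_lit 6005) (nat_lit 326) .nil))))))) (.g (nat_lit 6) .nil .nil))) 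
(.lf (nat_lit 13694) (.g (nat_lit 2656) (.e (nat_lit 1011) (nat_lit 81) (.e (nat_lit 1464) (nat_lit 108) (.e (nat_lit 336013) (nat_lit 2) (.e (nat_lit 90170) (nat_lit 13) (.e (nat_lit 172106) (nat_lit 10) (.e (nat_lit 434231) (nat_lit 23) (.e (nat_lit 532490) (nat_lit 0) (.e (nat_lit 1040) (nat_lit 81) (.e (nat_lit 4511) (nat_lit 263) .nil))))))))) (.g (nat_lit 7) .nil .nil)))))))) 
(.nd (nat_lit 1) (.nd (nat_lit 2) (.nd (nat_lit 3) (.nd (nat_lit 4) (.nd (nat_lit 5) 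
(.lf (nat_lit 13633) (.g (nat_lit 4394) (.e (nat_lit 1010) (nat_lit 81) (.e (nat_lit 1401) (nat_lit 106) (.e (nat_lit 319531) (nat_lit 16) (.e (nat_lit 286735) (nat_lit 3) (.e (nat_lit 98373) (nat_lit 29) (.e (nat_lit 450563) (nat_lit 0) (.e (nat_lit 3868) (nat_lit 233) .nil))))))) (.g (nat_lit 0) .nil .nil))) 
(.lf (nat_lit 13665) (.g (nat_lit 2136) (.e (nat_lit 1010) (nat_lit 81) (.e (nat_lit 1669) (nat_lit 116) (.e (nat_lit 401459) (nat_lit 13) (.e (nat_lit 483344) (nat_lit 17) (.e (nat_lit 6724) (nat_lit 362) (.e (nat_lit 180225) (nat_lit 0) (.e (nat_lit 6000) (nat_lit 326) .nil))))))) (.g (nat_lit 4) .nil .nil)))) (.nd (nat_lit 5) 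
(.lf (nat_lit 13649) (.g (nat_lit 3716) (.e (nat_lit 1010) (nat_lit 81) (.e (nat_lit 1551) (nat_lit 109) (.e (nat_lit 344117) (nat_lit 21) (.e (nat_lit 516165) (nat_lit 12) (.e (nat_lit 450579) (nat_lit 5) (.e (nat_lit 532504) (nat_lit 1) (.e (nat_lit 57766) (nat_lit 221) .nil))))))) (.g (nat_lit 6) .nil .nil))) 
(.lf (nat_lit 13681) (.g (nat_lit 3618) (.e (nat_lit 1011) (nat_lit 81) (.e (nat_lit 1401) (nat_lit 106) (.e (nat_lit 319531) (nat_lit 16) (.e (nat_lit 286735) (nat_lit 3) (.e (nat_lit 98373) (nat_lit 29) (.e (nat_lit 450562) (nat_lit 0) (.e (nat_lit 3847) (nat_lit 233) .nil))))))) (.g (nat_lit 0) .nil .nil))))) (.nd (nat_lit 4) (.nd (nat_lit 5) 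
(.lf (nat_lit 13641) (.g (nat_lit 4008) (.e (nat_lit 1010) (nat_lit 81) (.e (nat_lit 1464) (nat_lit 108) (.e (nat_lit 336013) (nat_lit 2) (.e (nat_lit 90170) (nat_lit 13) (.e (nat_lit 172106) (nat_lit 10) (.e (nat_lit 434231) (nat_lit 23) (.e (nat_lit 532499) (nat_lit 1) (.e (nat_lit 57766) (nat_lit 221) .nil)))))))) (.g (nat_lit 7) .nil .nil))) 
(.lf (nat_lit 13673) (.g (nat_lit 2668) (.e (nat_lit 1011) (nat_lit 81) (.e (nat_lit 1239) (nat_lit 91) (.e (nat_lit 90170) (nat_lit 13) (.e (nat_lit 172106) (nat_lit 10) (.e (nat_lit 434231) (nat_lit 23) (.e (nat_lit 532535) (nat_lit 9) (.e (nat_lit 335925) (nat_lit 0) (.e (nat_lit 982) (nat_lit 81) (.e (nat_lit 4780) (nat_lit 281) .nil))))))))) (.g (nat_lit 4) .nil .nil)))) (.nd (nat_lit 5) 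
(.lf (nat_lit 13657) (.g (nat_lit 4547) (.e (nat_lit 1010) (nat_lit 81) (.e (nat_lit 1669) (nat_lit 116) (.e (nat_lit 401457) (nat_lit 13) (.e (nat_lit 483413) (nat_lit 27) (.e (nat_lit 401447) (nat_lit 10) (.e (nat_lit 434203) (nat_lit 18) (.e (nat_lit 6000) (nat_lit 326) .nil))))))) (.g (nat_lit 6) .nil .nil))) 
(.lf (nat_lit 13689) (.g (nat_lit 4982) (.e (nat_lit 1011) (nat_lit 81) (.e (nat_lit 1449) (nat_lit 108) (.e (nat_lit 336013) (nat_lit 2) (.e (nat_lit 90170) (nat_lit 13) (.e (nat_lit 172106) (nat_lit 10) (.e (nat_lit 434231) (nat_lit 23) (.e (nat_lit 532499) (nat_lit 1) (.e (nat_lit 57767) (nat_lit 221) .nil)))))))) (.g (nat_lit 8) .nil .nil)))))) 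
(.nd (nat_lit 3) (.nd (nat_lit 4) (.nd (nat_lit 5) 
(.lf (nat_lit 13637) (.g (nat_lit 2242) (.e (nat_lit 1010) (nat_lit 81) (.e (nat_lit 1401) (nat_lit 106) (.e (nat_lit 319531) (nat_lit 16) (.e (nat_lit 286761) (nat_lit 13) (.e (nat_lit 393293) (nat_lit 26) .nil))))) .nil)) 
(.lf (nat_lit 13669) (.g (nat_lit 1727) (.e (nat_lit 1010) (nat_lit 81) (.e (nat_lit 5395) (nat_lit 301) (.e (nat_lit 57464) (nat_lit 23) (.e (nat_lit 516165) (nat_lit 12) (.e (nat_lit 450579) (nat_lit 5) (.e (nat_lit 532489) (nat_lit 0) (.e (nat_lit 6157) (nat_lit 332) .nil))))))) (.g (nat_lit 5) .nil .nil)))) (.nd (nat_lit 5) 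
(.lf (nat_lit 13653) (.g (nat_lit 2568) (.e (nat_lit 1010) (nat_lit 81) (.e (nat_lit 1669) (nat_lit 116) (.e (nat_lit 401425) (nat_lit 2) (.e (nat_lit 196666) (nat_lit 13) (.e (nat_lit 65610) (nat_lit 10) (.e (nat_lit 344117) (nat_lit 21) (.e (nat_lit 516116) (nat_lit 1) (.e (nat_lit 164415) (nat_lit 260) .nil)))))))) (.g (nat_lit 4) .nil .nil))) 
(.lf (nat_lit 13685) (.g (nat_lit 3409) (.e (nat_lit 1011) (nat_lit 81) (.e (nat_lit 1401) (nat_lit 106) (.e (nat_lit 319531) (nat_lit 16) (.e (nat_lit 286735) (nat_lit 3) (.e (nat_lit 98373) (nat_lit 29) (.e (nat_lit 450563) (nat_lit 0) (.e (nat_lit 3883) (nat_lit 233) .nil))))))) (.g (nat_lit 7) .nil .nil))))) (.nd (nat_lit 4) (.nd (nat_lit 5) 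
(.lf (nat_lit 13645) (.g (nat_lit 3430) (.e (nat_lit 1010) (nat_lit 81) (.e (nat_lit 1535) (nat_lit 109) (.e (nat_lit 344117) (nat_lit 21) (.e (nat_lit 516165) (nat_lit 12) (.e (nat_lit 450579) (nat_lit 5) (.e (nat_lit 532501) (nat_lit 1) (.e (nat_lit 57767) (nat_lit 221) .nil))))))) (.g (nat_lit 6) .nil .nil))) 
(.lf (nat_lit 13677) (.g (nat_lit 1580) (.e (nat_lit 1011) (nat_lit 81) (.e (nat_lit 1256) (nat_lit 92) (.e (nat_lit 98372) (nat_lit 29) (.e (nat_lit 450579) (nat_lit 5) (.e (nat_lit 532555) (nat_lit 13) .nil))))) .nil))) (.nd (nat_lit 5) 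
(.lf (nat_lit 13661) (.g (nat_lit 4485) (.e (nat_lit 1010) (nat_lit 81) (.e (nat_lit 1669) (nat_lit 116) (.e (nat_lit 401457) (nat_lit 13) (.e (nat_lit 483413) (nat_lit 27) (.e (nat_lit 401448) (nat_lit 10) (.e (nat_lit 434208) (nat_lit 18) (.e (nat_lit 6000) (nat_lit 326) .nil))))))) (.g (nat_lit 6) .nil .nil))) 
(.lf (nat_lit 13693) (.g (nat_lit 3252) (.e (nat_lit 1011) (nat_lit 81) (.e (nat_lit 1464) (nat_lit 108) (.e (nat_lit 336013) (nat_lit 2) (.e (nat_lit 90170) (nat_lit 13) (.e (nat_lit 172106) (nat_lit 10) (.e (nat_lit 434231) (nat_lit 23) (.e (nat_lit 532483) (nat_lit 0) (.e (nat_lit 1036) (nat_lit 81) (.e (nat_lit 4511) (nat_lit 263) .nil))))))))) (.g (nat_lit 9) .nil .nil))))))) 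
(.nd (nat_lit 2) (.nd (nat_lit 3) (.nd (nat_lit 4) (.nd (nat_lit 5) 
(.lf (nat_lit 13635) (.g (nat_lit 3546) (.e (nat_lit 1010) (nat_lit 81) (.e (nat_lit 1401) (nat_lit 106) (.e (nat_lit 319531) (nat_lit 16) (.e (nat_lit 286735) (nat_lit 3) (.e (nat_lit 98373) (nat_lit 29) (.e (nat_lit 450563) (nat_lit 0) (.e (nat_lit 3885) (nat_lit 233) .nil))))))) (.g (nat_lit 6) .nil .nil))) 
(.lf (nat_lit 13667) (.g (nat_lit 1651) (.e (nat_lit 1010) (nat_lit 81) (.e (nat_lit 5271) (nat_lit 298) (.e (nat_lit 1256) (nat_lit 92) (.e (nat_lit 98372) (nat_lit 29) (.e (nat_lit 450579) (nat_lit 5) (.e (nat_lit 532489) (nat_lit 0) (.e (nat_lit 6157) (nat_lit 332) .nil))))))) (.g (nat_lit 5) .nil .nil)))) (.nd (nat_lit 5) 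
(.lf (nat_lit 13651) (.g (nat_lit 2823) (.e (nat_lit 1010) (nat_lit 81) (.e (nat_lit 1586) (nat_lit 111) (.e (nat_lit 360475) (nat_lit 8) (.e (nat_lit 557119) (nat_lit 18) (.e (nat_lit 2798) (nat_lit 180) .nil))))) .nil)) 
(.lf (nat_lit 13683) (.g (nat_lit 3495) (.e (nat_lit 1011) (nat_lit 81) (.e (nat_lit 1401) (nat_lit 106) (.e (nat_lit 319531) (nat_lit 16) (.e (nat_lit 286735) (nat_lit 3) (.e (nat_lit 98373) (nat_lit 29) (.e (nat_lit 450563) (nat_lit 0) (.e (nat_lit 3847) (nat_lit 233) .nil))))))) (.g (nat_lit 0) .nil .nil))))) (.nd (nat_lit 4) (.nd (nat_lit 5) 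
(.lf (nat_lit 13643) (.g (nat_lit 4528) (.e (nat_lit 1010) (nat_lit 81) (.e (nat_lit 1464) (nat_lit 108) (.e (nat_lit 336013) (nat_lit 2) (.e (nat_lit 90170) (nat_lit 13) (.e (nat_lit 172106) (nat_lit 10) (.e (nat_lit 434231) (nat_lit 23) (.e (nat_lit 532500) (nat_lit 1) (.e (nat_lit 57767) (nat_lit 221) .nil)))))))) (.g (nat_lit 8) .nil .nil))) 
(.lf (nat_lit 13675) (.g (nat_lit 4408) (.e (nat_lit 1011) (nat_lit 81) (.e (nat_lit 1239) (nat_lit 91) (.e (nat_lit 90170) (nat_lit 13) (.e (nat_lit 172106) (nat_lit 10) (.e (nat_lit 434231) (nat_lit 23) (.e (nat_lit 532544) (nat_lit 10) (.e (nat_lit 344091) (nat_lit 18) (.e (nat_lit 4780) (nat_lit 281) .nil)))))))) (.g (nat_lit 8) .nil .nil)))) (.nd (nat_lit 5) 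
(.lf (nat_lit 13659) (.g (nat_lit 3659) (.e (nat_lit 1010) (nat_lit 81) (.e (nat_lit 1669) (nat_lit 116) (.e (nat_lit 401457) (nat_lit 13) (.e (nat_lit 483413) (nat_lit 27) (.e (nat_lit 401448) (nat_lit 10) (.e (nat_lit 434203) (nat_lit 18) (.e (nat_lit 6000) (nat_lit 326) .nil))))))) (.g (nat_lit 5) .nil .nil))) 
(.lf (nat_lit 13691) (.g (nat_lit 5176) (.e (nat_lit 1011) (nat_lit 81) (.e (nat_lit 1449) (nat_lit 108) (.e (nat_lit 336013) (nat_lit 2) (.e (nat_lit 90170) (nat_lit 13) (.e (nat_lit 172106) (nat_lit 10) (.e (nat_lit 434231) (nat_lit 23) (.e (nat_lit 532500) (nat_lit 1) (.e (nat_lit 65280) (nat_lit 221) .nil)))))))) (.g (nat_lit 7) .nil .nil)))))) 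
(.nd (nat_lit 3) (.nd (nat_lit 4) (.nd (nat_lit 5) 
(.lf (nat_lit 13639) (.g (nat_lit 3203) (.e (nat_lit 1010) (nat_lit 81) (.e (nat_lit 1464) (nat_lit 108) (.e (nat_lit 336013) (nat_lit 2) (.e (nat_lit 90170) (nat_lit 13) (.e (nat_lit 172106) (nat_lit 10) (.e (nat_lit 434231) (nat_lit 23) (.e (nat_lit 532483) (nat_lit 0) (.e (nat_lit 1036) (nat_lit 81) (.e (nat_lit 4511) (nat_lit 263) .nil))))))))) (.g (nat_lit 8) .nil .nil))) 
(.lf (nat_lit 13671) (.g (nat_lit 2399) (.e (nat_lit 1010) (nat_lit 81) (.e (nat_lit 5604) (nat_lit 310) (.e (nat_lit 163869) (nat_lit 2) (.e (nat_lit 196670) (nat_lit 14) (.e (nat_lit 73746) (nat_lit 3) (.e (nat_lit 516131) (nat_lit 3) (.e (nat_lit 221215) (nat_lit 23) (.e (nat_lit 204827) (nat_lit 17) .nil)))))))) (.g (nat_lit 4) .nil .nil)))) (.nd (nat_lit 5) 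
(.lf (nat_lit 13655) (.g (nat_lit 3928) (.e (nat_lit 1010) (nat_lit 81) (.e (nat_lit 1669) (nat_lit 116) (.e (nat_lit 401457) (nat_lit 13) (.e (nat_lit 483413) (nat_lit 27) (.e (nat_lit 401446) (nat_lit 10) (.e (nat_lit 434203) (nat_lit 18) (.e (nat_lit 6000) (nat_lit 326) .nil))))))) (.g (nat_lit 6) .nil .nil))) 
(.lf (nat_lit 13687) (.g (nat_lit 4976) (.e (nat_lit 1011) (nat_lit 81) (.e (nat_lit 1449) (nat_lit 108) (.e (nat_lit 336013) (nat_lit 2) (.e (nat_lit 90170) (nat_lit 13) (.e (nat_lit 172106) (nat_lit 10) (.e (nat_lit 434231) (nat_lit 23) (.e (nat_lit 532481) (nat_lit 0) (.e (nat_lit 996) (nat_lit 81) (.e (nat_lit 4468) (nat_lit 263) .nil))))))))) (.g (nat_lit 7) .nil .nil))))) 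
(.nd (nat_lit 4) (.nd (nat_lit 5) 
(.lf (nat_lit 13647) (.g (nat_lit 3493) (.e (nat_lit 1010) (nat_lit 81) (.e (nat_lit 1551) (nat_lit 109) (.e (nat_lit 344117) (nat_lit 21) (.e (nat_lit 516165) (nat_lit 12) (.e (nat_lit 450579) (nat_lit 5) (.e (nat_lit 532501) (nat_lit 1) (.e (nat_lit 57766) (nat_lit 221) .nil))))))) (.g (nat_lit 6) .nil .nil))) 
(.lf (nat_lit 13679) (.g (nat_lit 1867) (.e (nat_lit 1011) (nat_lit 81) (.e (nat_lit 1256) (nat_lit 92) (.e (nat_lit 98381) (nat_lit 31) (.e (nat_lit 466977) (nat_lit 22) (.e (nat_lit 196669) (nat_lit 14) (.e (nat_lit 73731) (nat_lit 0) (.e (nat_lit 4780) (nat_lit 281) .nil))))))) (.g (nat_lit 4) .nil .nil)))) (.nd (nat_lit 5) 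
(.lf (nat_lit 13663) (.g (nat_lit 1443) (.e (nat_lit 1010) (nat_lit 81) (.e (nat_lit 1669) (nat_lit 116) (.e (nat_lit 401459) (nat_lit 13) (.e (nat_lit 483344) (nat_lit 17) .nil)))) .nil)) 
(.lf (nat_lit 13695) (.g (nat_lit 4094) (.e (nat_lit 1011) (nat_lit 81) (.e (nat_lit 1464) (nat_lit 108) (.e (nat_lit 336013) (nat_lit 2) (.e (nat_lit 90170) (nat_lit 13) (.e (nat_lit 172106) (nat_lit 10) (.e (nat_lit 434231) (nat_lit 23) (.e (nat_lit 532499) (nat_lit 1) (.e (nat_lit 65280) (nat_lit 221) .nil)))))))) (.g (nat_lit 7) .nil .nil)))))))))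

noncomputable def tv189 : DT := (.nd (nat_lit 0) (.nd (nat_lit 1) (.nd (nat_lit 2) (.nd (nat_lit 3) (.nd (nat_lit 4) (.nd (nat_lit 5) 
(.lf (nat_lit 13696) (.g (nat_lit 4452) (.e (nat_lit 1011) (nat_lit 81) (.e (nat_lit 1464) (nat_lit 108) (.e (nat_lit 336013) (nat_lit 2) (.e (nat_lit 90170) (nat_lit 13) (.e (nat_lit 172106) (nat_lit 10) (.e (nat_lit 434231) (nat_lit 23) (.e (nat_lit 532500) (nat_lit 1) (.e (nat_lit 57767) (nat_lit 221) .nil)))))))) (.g (nat_lit 8) .nil .nil))) 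
(.lf (nat_lit 13728) (.g (nat_lit 2100) (.e (nat_lit 1011) (nat_lit 81) (.e (nat_lit 5412) (nat_lit 303) (.e (nat_lit 73775) (nat_lit 26) (.e (nat_lit 778466) (nat_lit 11) (.e (nat_lit 24647) (nat_lit 12) .nil))))) .nil))) (.nd (nat_lit 5) 
(.lf (nat_lit 13712) (.g (nat_lit 2046) (.e (nat_lit 1011) (nat_lit 81) (.e (nat_lit 1586) (nat_lit 111) (.e (nat_lit 360491) (nat_lit 22) (.e (nat_lit 778466) (nat_lit 11) (.e (nat_lit 24640) (nat_lit 10) (.e (nat_lit 344088) (nat_lit 18) (.e (nat_lit 7200) (nat_lit 382) .nil))))))) (.g (nat_lit 5) .nil .nil))) 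
(.lf (nat_lit 13744) (.g (nat_lit 2346) (.e (nat_lit 1014) (nat_lit 81) (.e (nat_lit 1669) (nat_lit 116) (.e (nat_lit 401454) (nat_lit 12) (.e (nat_lit 475209) (nat_lit 41) (.e (nat_lit 712752) (nat_lit 29) .nil))))) .nil)))) (.nd (nat_lit 4) (.nd (nat_lit 5) 
(.lf (nat_lit 13704) (.g (nat_lit 3221) (.e (nat_lit 1011) (nat_lit 81) (.e (nat_lit 1551) (nat_lit 109) (.e (nat_lit 344117) (nat_lit 21) (.e (nat_lit 516165) (nat_lit 12) (.e (nat_lit 450579) (nat_lit 5) (.e (nat_lit 532501) (nat_lit 1) (.e (nat_lit 65280) (nat_lit 221) .nil))))))) (.g (nat_lit 6) .nil .nil))) 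
(.lf (nat_lit 13736) (.g (nat_lit 405) (.e (nat_lit 1014) (nat_lit 81) (.e (nat_lit 618) (nat_lit 48) (.e (nat_lit 557109) (nat_lit 15) .nil))) .nil))) (.nd (nat_lit 5) 
(.lf (nat_lit 13720) (.g (nat_lit 3488) (.e (nat_lit 1011) (nat_lit 81) (.e (nat_lit 1669) (nat_lit 116) (.e (nat_lit 401457) (nat_lit 13) (.e (nat_lit 483413) (nat_lit 27) (.e (nat_lit 401448) (nat_lit 10) (.e (nat_lit 434206) (nat_lit 18) (.e (nat_lit 6000) (nat_lit 326) .nil))))))) (.g (nat_lit 5) .nil .nil))) 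
(.lf (nat_lit 13752) (.g (nat_lit 2311) (.e (nat_lit 1014) (nat_lit 81) (.e (nat_lit 7261) (nat_lit 384) (.e (nat_lit 57436) (nat_lit 17) (.e (nat_lit 376860) (nat_lit 21) (.e (nat_lit 57665) (nat_lit 152) (.e (nat_lit 7936) (nat_lit 90) (.e (nat_lit 81946) (nat_lit 20) .nil))))))) (.g (nat_lit 5) .nil .nil)))))) (.nd (nat_lit 3) (.nd (nat_lit 4) (.nd (nat_lit 5) 
(.lf (nat_lit 13700) (.g (nat_lit 3398) (.e (nat_lit 1011) (nat_lit 81) (.e (nat_lit 1535) (nat_lit 109) (.e (nat_lit 344117) (nat_lit 21) (.e (nat_lit 516165) (nat_lit 12) (.e (nat_lit 450579) (nat_lit 5) (.e (nat_lit 532501) (nat_lit 1) (.e (nat_lit 65280) (nat_lit 221) .nil))))))) (.g (nat_lit 6) .nil .nil))) 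
(.lf (nat_lit 13732) (.g (nat_lit 3839) (.e (nat_lit 1013) (nat_lit 81) (.e (nat_lit 1669) (nat_lit 116) (.e (nat_lit 401457) (nat_lit 13) (.e (nat_lit 483413) (nat_lit 27) (.e (nat_lit 401448) (nat_lit 10) (.e (nat_lit 434201) (nat_lit 18) (.e (nat_lit 5995) (nat_lit 326) .nil))))))) (.g (nat_lit 6) .nil .nil)))) (.nd (nat_lit 5) 
(.lf (nat_lit 13716) (.g (nat_lit 3942) (.e (nat_lit 1011) (nat_lit 81) (.e (nat_lit 1669) (nat_lit 116) (.e (nat_lit 401457) (nat_lit 13) (.e (nat_lit 483413) (nat_lit 27) (.e (nat_lit 401446) (nat_lit 10) (.e (nat_lit 434203) (nat_lit 18) (.e (nat_lit 6000) (nat_lit 326) .nil))))))) (.g (nat_lit 6) .nil .nil))) 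
(.lf (nat_lit 13748) (.g (nat_lit 1646) (.e (nat_lit 1014) (nat_lit 81) (.e (nat_lit 5412) (nat_lit 303) (.e (nat_lit 73746) (nat_lit 3) (.e (nat_lit 516171) (nat_lit 13) (.e (nat_lit 458774) (nat_lit 18) .nil))))) .nil)))) (.nd (nat_lit 4) (.nd (nat_lit 5) 
(.lf (nat_lit 13708) (.g (nat_lit 2091) (.e (nat_lit 1011) (nat_lit 81) (.e (nat_lit 1586) (nat_lit 111) (.e (nat_lit 360451) (nat_lit 0) (.e (nat_lit 7125) (nat_lit 382) (.e (nat_lit 1201) (nat_lit 88) (.e (nat_lit 65617) (nat_lit 10) (.e (nat_lit 344091) (nat_lit 18) (.e (nat_lit 7226) (nat_lit 382) .nil)))))))) (.g (nat_lit 4) .nil .nil))) 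
(.lf (nat_lit 13740) (.g (nat_lit 2032) (.e (nat_lit 1014) (nat_lit 81) (.e (nat_lit 1239) (nat_lit 91) (.e (nat_lit 90170) (nat_lit 13) (.e (nat_lit 172106) (nat_lit 10) .nil)))) .nil))) (.nd (nat_lit 5) 
(.lf (nat_lit 13724) (.g (nat_lit 1909) (.e (nat_lit 1011) (nat_lit 81) (.e (nat_lit 1669) (nat_lit 116) (.e (nat_lit 401459) (nat_lit 13) (.e (nat_lit 483344) (nat_lit 17) (.e (nat_lit 6722) (nat_lit 362) (.e (nat_lit 180225) (nat_lit 0) (.e (nat_lit 6000) (nat_lit 326) .nil))))))) (.g (nat_lit 4) .nil .nil))) 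
(.lf (nat_lit 13756) (.g (nat_lit 1538) (.e (nat_lit 1015) (nat_lit 81) (.e (nat_lit 618) (nat_lit 48) (.e (nat_lit 557109) (nat_lit 15) (.e (nat_lit 196352) (nat_lit 19) .nil)))) .nil)))))) (.nd (nat_lit 2) (.nd (nat_lit 3) (.nd (nat_lit 4) (.nd (nat_lit 5) 
(.lf (nat_lit 13698) (.g (nat_lit 3692) (.e (nat_lit 1011) (nat_lit 81) (.e (nat_lit 1535) (nat_lit 109) (.e (nat_lit 344117) (nat_lit 21) (.e (nat_lit 516165) (nat_lit 12) (.e (nat_lit 450579) (nat_lit 5) (.e (nat_lit 532501) (nat_lit 1) (.e (nat_lit 57766) (nat_lit 221) .nil))))))) (.g (nat_lit 7) .nil .nil))) 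
(.lf (nat_lit 13730) (.g (nat_lit 278) (.e (nat_lit 1011) (nat_lit 81) (.e (nat_lit 5412) (nat_lit 303) (.e (nat_lit 81664) (nat_lit 26) .nil))) .nil))) (.nd (nat_lit 5) 
(.lf (nat_lit 13714) (.g (nat_lit 2728) (.e (nat_lit 1011) (nat_lit 81) (.e (nat_lit 1589) (nat_lit 111) (.e (nat_lit 360475) (nat_lit 8) (.e (nat_lit 557119) (nat_lit 18) (.e (nat_lit 2798) (nat_lit 180) (.e (nat_lit 303143) (nat_lit 12) (.e (nat_lit 475157) (nat_lit 21) (.e (nat_lit 4584) (nat_lit 269) .nil)))))))) (.g (nat_lit 4) .nil .nil))) 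
(.lf (nat_lit 13746) (.g (nat_lit 3683) (.e (nat_lit 1014) (nat_lit 81) (.e (nat_lit 1669) (nat_lit 116) (.e (nat_lit 401457) (nat_lit 13) (.e (nat_lit 483413) (nat_lit 27) (.e (nat_lit 401448) (nat_lit 10) (.e (nat_lit 434199) (nat_lit 18) (.e (nat_lit 6039) (nat_lit 326) .nil))))))) (.g (nat_lit 5) .nil .nil))))) (.nd (nat_lit 4) (.nd (nat_lit 5) 
(.lf (nat_lit 13706) (.g (nat_lit 3167) (.e (nat_lit 1011) (nat_lit 81) (.e (nat_lit 1551) (nat_lit 109) (.e (nat_lit 344117) (nat_lit 21) (.e (nat_lit 516165) (nat_lit 12) (.e (nat_lit 450579) (nat_lit 5) (.e (nat_lit 532504) (nat_lit 1) (.e (nat_lit 65280) (nat_lit 221) .nil))))))) (.g (nat_lit 6) .nil .nil))) 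
(.lf (nat_lit 13738) (.g (nat_lit 1540) (.e (nat_lit 1014) (nat_lit 81) (.e (nat_lit 618) (nat_lit 48) (.e (nat_lit 557109) (nat_lit 15) (.e (nat_lit 188458) (nat_lit 25) .nil)))) .nil))) (.nd (nat_lit 5) 
(.lf (nat_lit 13722) (.g (nat_lit 5207) (.e (nat_lit 1011) (nat_lit 81) (.e (nat_lit 1669) (nat_lit 116) (.e (nat_lit 401457) (nat_lit 13) (.e (nat_lit 483413) (nat_lit 27) (.e (nat_lit 401448) (nat_lit 10) (.e (nat_lit 434209) (nat_lit 18) (.e (nat_lit 6005) (nat_lit 326) .nil))))))) (.g (nat_lit 7) .nil .nil))) 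
(.lf (nat_lit 13754) (.g (nat_lit 2600) (.e (nat_lit 1015) (nat_lit 81) (.e (nat_lit 618) (nat_lit 48) (.e (nat_lit 557105) (nat_lit 14) (.e (nat_lit 180252) (nat_lit 10) (.e (nat_lit 573488) (nat_lit 14) .nil))))) .nil))))) (.nd (nat_lit 3) (.nd (nat_lit 4) (.nd (nat_lit 5) 
(.lf (nat_lit 13702) (.g (nat_lit 3344) (.e (nat_lit 1011) (nat_lit 81) (.e (nat_lit 1535) (nat_lit 109) (.e (nat_lit 344117) (nat_lit 21) (.e (nat_lit 516165) (nat_lit 12) (.e (nat_lit 450579) (nat_lit 5) (.e (nat_lit 532504) (nat_lit 1) (.e (nat_lit 65280) (nat_lit 221) .nil))))))) (.g (nat_lit 6) .nil .nil))) 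
(.lf (nat_lit 13734) (.g (nat_lit 2340) (.e (nat_lit 1013) (nat_lit 81) (.e (nat_lit 5395) (nat_lit 301) (.e (nat_lit 57464) (nat_lit 23) (.e (nat_lit 516151) (nat_lit 9) (.e (nat_lit 426212) (nat_lit 9) .nil))))) .nil))) (.nd (nat_lit 5) 
(.lf (nat_lit 13718) (.g (nat_lit 4561) (.e (nat_lit 1011) (nat_lit 81) (.e (nat_lit 1669) (nat_lit 116) (.e (nat_lit 401457) (nat_lit 13) (.e (nat_lit 483413) (nat_lit 27) (.e (nat_lit 401447) (nat_lit 10) (.e (nat_lit 434203) (nat_lit 18) (.e (nat_lit 6000) (nat_lit 326) .nil))))))) (.g (nat_lit 6) .nil .nil))) 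
(.lf (nat_lit 13750) (.g (nat_lit 2176) (.e (nat_lit 1014) (nat_lit 81) (.e (nat_lit 7261) (nat_lit 384) (.e (nat_lit 57371) (nat_lit 2) (.e (nat_lit 90128) (nat_lit 9) (.e (nat_lit 304) (nat_lit 22) (.e (nat_lit 344130) (nat_lit 26) (.e (nat_lit 557097) (nat_lit 13) (.e (nat_lit 172066) (nat_lit 3) (.e (nat_lit 204824) (nat_lit 17) .nil))))))))) (.g (nat_lit 5) .nil .nil))))) 
(.nd (nat_lit 4) (.nd (nat_lit 5) 
(.lf (nat_lit 13710) (.g (nat_lit 2820) (.e (nat_lit 1011) (nat_lit 81) (.e (nat_lit 1586) (nat_lit 111) (.e (nat_lit 360475) (nat_lit 8) (.e (nat_lit 557119) (nat_lit 18) (.e (nat_lit 2798) (nat_lit 180) .nil))))) .nil)) 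
(.lf (nat_lit 13742) (.g (nat_lit 2448) (.e (nat_lit 1014) (nat_lit 81) (.e (nat_lit 1669) (nat_lit 116) (.e (nat_lit 401454) (nat_lit 12) (.e (nat_lit 475193) (nat_lit 38) .nil)))) .nil))) (.nd (nat_lit 5) 
(.lf (nat_lit 13726) (.g (nat_lit 1927) (.e (nat_lit 1011) (nat_lit 81) (.e (nat_lit 5412) (nat_lit 303) (.e (nat_lit 73775) (nat_lit 26) (.e (nat_lit 778465) (nat_lit 11) (.e (nat_lit 24647) (nat_lit 12) .nil))))) .nil)) 
(.lf (nat_lit 13758) (.g (nat_lit 2385) (.e (nat_lit 1015) (nat_lit 81) (.e (nat_lit 1569) (nat_lit 110) (.e (nat_lit 352269) (nat_lit 7) (.e (nat_lit 245776) (nat_lit 4) (.e (nat_lit 172106) (nat_lit 10) (.e (nat_lit 434209) (nat_lit 18) (.e (nat_lit 6792) (nat_lit 365) .nil))))))) (.g (nat_lit 0) .nil .nil)))))))) 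
(.nd (nat_lit 1) (.nd (nat_lit 2) (.nd (nat_lit 3) (.nd (nat_lit 4) (.nd (nat_lit 5) 
(.lf (nat_lit 13697) (.g (nat_lit 4425) (.e (nat_lit 1011) (nat_lit 81) (.e (nat_lit 1464) (nat_lit 108) (.e (nat_lit 336013) (nat_lit 2) (.e (nat_lit 90170) (nat_lit 13) (.e (nat_lit 172106) (nat_lit 10) (.e (nat_lit 434231) (nat_lit 23) (.e (nat_lit 532500) (nat_lit 1) (.e (nat_lit 65280) (nat_lit 221) .nil)))))))) (.g (nat_lit 7) .nil .nil))) 
(.lf (nat_lit 13729) (.g (nat_lit 2902) (.e (nat_lit 1011) (nat_lit 81) (.e (nat_lit 5412) (nat_lit 303) (.e (nat_lit 73775) (nat_lit 26) (.e (nat_lit 778466) (nat_lit 11) (.e (nat_lit 24651) (nat_lit 12) (.e (nat_lit 385038) (nat_lit 16) .nil)))))) (.g (nat_lit 6) .nil .nil)))) (.nd (nat_lit 5) 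
(.lf (nat_lit 13713) (.g (nat_lit 2723) (.e (nat_lit 1011) (nat_lit 81) (.e (nat_lit 1589) (nat_lit 111) (.e (nat_lit 360475) (nat_lit 8) (.e (nat_lit 557119) (nat_lit 18) (.e (nat_lit 2798) (nat_lit 180) .nil))))) .nil)) 
(.lf (nat_lit 13745) (.g (nat_lit 1615) (.e (nat_lit 1014) (nat_lit 81) (.e (nat_lit 1669) (nat_lit 116) (.e (nat_lit 401456) (nat_lit 13) (.e (nat_lit 483413) (nat_lit 27) .nil)))) .nil)))) (.nd (nat_lit 4) (.nd (nat_lit 5) 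
(.lf (nat_lit 13705) (.g (nat_lit 3751) (.e (nat_lit 1011) (nat_lit 81) (.e (nat_lit 1551) (nat_lit 109) (.e (nat_lit 344117) (nat_lit 21) (.e (nat_lit 516165) (nat_lit 12) (.e (nat_lit 450579) (nat_lit 5) (.e (nat_lit 532504) (nat_lit 1) (.e (nat_lit 57766) (nat_lit 221) .nil))))))) (.g (nat_lit 6) .nil .nil))) 
(.lf (nat_lit 13737) (.g (nat_lit 1472) (.e (nat_lit 1014) (nat_lit 81) (.e (nat_lit 618) (nat_lit 48) (.e (nat_lit 557109) (nat_lit 15) (.e (nat_lit 196352) (nat_lit 19) .nil)))) .nil))) (.nd (nat_lit 5) 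
(.lf (nat_lit 13721) (.g (nat_lit 4499) (.e (nat_lit 1011) (nat_lit 81) (.e (nat_lit 1669) (nat_lit 116) (.e (nat_lit 401457) (nat_lit 13) (.e (nat_lit 483413) (nat_lit 27) (.e (nat_lit 401448) (nat_lit 10) (.e (nat_lit 434208) (nat_lit 18) (.e (nat_lit 6000) (nat_lit 326) .nil))))))) (.g (nat_lit 6) .nil .nil))) 
(.lf (nat_lit 13753) (.g (nat_lit 3525) (.e (nat_lit 1014) (nat_lit 81) (.e (nat_lit 7454) (nat_lit 396) (.e (nat_lit 1188) (nat_lit 88) (.e (nat_lit 65630) (nat_lit 14) (.e (nat_lit 401459) (nat_lit 13) (.e (nat_lit 483411) (nat_lit 27) (.e (nat_lit 401463) (nat_lit 15) .nil))))))) (.g (nat_lit 6) .nil .nil)))))) (.nd (nat_lit 3) (.nd (nat_lit 4) (.nd (nat_lit 5) 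
(.lf (nat_lit 13701) (.g (nat_lit 3914) (.e (nat_lit 1011) (nat_lit 81) (.e (nat_lit 1535) (nat_lit 109) (.e (nat_lit 344117) (nat_lit 21) (.e (nat_lit 516165) (nat_lit 12) (.e (nat_lit 450579) (nat_lit 5) (.e (nat_lit 532504) (nat_lit 1) (.e (nat_lit 57766) (nat_lit 221) .nil))))))) (.g (nat_lit 6) .nil .nil))) 
(.lf (nat_lit 13733) (.g (nat_lit 4053) (.e (nat_lit 1013) (nat_lit 81) (.e (nat_lit 5271) (nat_lit 298) (.e (nat_lit 1239) (nat_lit 91) (.e (nat_lit 90170) (nat_lit 13) (.e (nat_lit 172106) (nat_lit 10) (.e (nat_lit 434231) (nat_lit 23) (.e (nat_lit 532490) (nat_lit 0) (.e (nat_lit 6149) (nat_lit 332) .nil)))))))) (.g (nat_lit 8) .nil .nil)))) (.nd (nat_lit 5) 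
(.lf (nat_lit 13717) (.g (nat_lit 4159) (.e (nat_lit 1011) (nat_lit 81) (.e (nat_lit 1669) (nat_lit 116) (.e (nat_lit 401457) (nat_lit 13) (.e (nat_lit 483413) (nat_lit 27) (.e (nat_lit 401446) (nat_lit 10) (.e (nat_lit 434208) (nat_lit 18) (.e (nat_lit 6000) (nat_lit 326) .nil))))))) (.g (nat_lit 7) .nil .nil))) 
(.lf (nat_lit 13749) (.g (nat_lit 1514) (.e (nat_lit 1014) (nat_lit 81) (.e (nat_lit 7122) (nat_lit 382) (.e (nat_lit 1201) (nat_lit 88) (.e (nat_lit 65617) (nat_lit 10) (.e (nat_lit 344096) (nat_lit 18) .nil))))) .nil)))) (.nd (nat_lit 4) (.nd (nat_lit 5) 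
(.lf (nat_lit 13709) (.g (nat_lit 3241) (.e (nat_lit 1011) (nat_lit 81) (.e (nat_lit 1586) (nat_lit 111) (.e (nat_lit 360475) (nat_lit 8) (.e (nat_lit 557119) (nat_lit 18) (.e (nat_lit 2797) (nat_lit 180) .nil))))) .nil)) 
(.lf (nat_lit 13741) (.g (nat_lit 2382) (.e (nat_lit 1014) (nat_lit 81) (.e (nat_lit 1669) (nat_lit 116) (.e (nat_lit 401454) (nat_lit 12) (.e (nat_lit 475181) (nat_lit 27) .nil)))) .nil))) (.nd (nat_lit 5) 
(.lf (nat_lit 13725) (.g (nat_lit 2068) (.e (nat_lit 1011) (nat_lit 81) (.e (nat_lit 5410) (nat_lit 303) (.e (nat_lit 73776) (nat_lit 26) (.e (nat_lit 778465) (nat_lit 11) (.e (nat_lit 24650) (nat_lit 12) (.e (nat_lit 385038) (nat_lit 16) .nil)))))) (.g (nat_lit 6) .nil .nil))) 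
(.lf (nat_lit 13757) (.g (nat_lit 2271) (.e (nat_lit 1015) (nat_lit 81) (.e (nat_lit 720) (nat_lit 64) (.e (nat_lit 688177) (nat_lit 16) (.e (nat_lit 65571) (nat_lit 3) (.e (nat_lit 98359) (nat_lit 26) .nil))))) .nil)))))) (.nd (nat_lit 2) (.nd (nat_lit 3) (.nd (nat_lit 4) (.nd (nat_lit 5) 
(.lf (nat_lit 13699) (.g (nat_lit 3671) (.e (nat_lit 1011) (nat_lit 81) (.e (nat_lit 1535) (nat_lit 109) (.e (nat_lit 344117) (nat_lit 21) (.e (nat_lit 516165) (nat_lit 12) (.e (nat_lit 450579) (nat_lit 5) (.e (nat_lit 532501) (nat_lit 1) (.e (nat_lit 57767) (nat_lit 221) .nil))))))) (.g (nat_lit 0) .nil .nil))) 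
(.lf (nat_lit 13731) (.g (nat_lit 278) (.e (nat_lit 1011) (nat_lit 81) (.e (nat_lit 5412) (nat_lit 303) (.e (nat_lit 81664) (nat_lit 28) .nil))) .nil))) (.nd (nat_lit 5) 
(.lf (nat_lit 13715) (.g (nat_lit 1590) (.e (nat_lit 1011) (nat_lit 81) (.e (nat_lit 1669) (nat_lit 116) (.e (nat_lit 401456) (nat_lit 13) (.e (nat_lit 483413) (nat_lit 27) .nil)))) .nil)) 
(.lf (nat_lit 13747) (.g (nat_lit 1829) (.e (nat_lit 1014) (nat_lit 81) (.e (nat_lit 5412) (nat_lit 303) (.e (nat_lit 73746) (nat_lit 3) (.e (nat_lit 516169) (nat_lit 13) (.e (nat_lit 458774) (nat_lit 18) (.e (nat_lit 5224) (nat_lit 296) (.e (nat_lit 163871) (nat_lit 2) (.e (nat_lit 196691) (nat_lit 18) .nil)))))))) (.g (nat_lit 4) .nil .nil))))) (.nd (nat_lit 4) (.nd (nat_lit 5) 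
(.lf (nat_lit 13707) (.g (nat_lit 500) (.e (nat_lit 1011) (nat_lit 81) (.e (nat_lit 1586) (nat_lit 111) (.e (nat_lit 360451) (nat_lit 0) .nil))) .nil)) 
(.lf (nat_lit 13739) (.g (nat_lit 753) (.e (nat_lit 1014) (nat_lit 81) (.e (nat_lit 1239) (nat_lit 91) (.e (nat_lit 98048) (nat_lit 6) .nil))) .nil))) (.nd (nat_lit 5) 
(.lf (nat_lit 13723) (.g (nat_lit 1424) (.e (nat_lit 1011) (nat_lit 81) (.e (nat_lit 1669) (nat_lit 116) (.e (nat_lit 401459) (nat_lit 13) (.e (nat_lit 483344) (nat_lit 17) .nil)))) .nil)) 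
(.lf (nat_lit 13755) (.g (nat_lit 424) (.e (nat_lit 1015) (nat_lit 81) (.e (nat_lit 618) (nat_lit 48) (.e (nat_lit 557109) (nat_lit 15) .nil))) .nil))))) (.nd (nat_lit 3) (.nd (nat_lit 4) (.nd (nat_lit 5) 
(.lf (nat_lit 13703) (.g (nat_lit 3529) (.e (nat_lit 1011) (nat_lit 81) (.e (nat_lit 1551) (nat_lit 109) (.e (nat_lit 344117) (nat_lit 21) (.e (nat_lit 516165) (nat_lit 12) (.e (nat_lit 450579) (nat_lit 5) (.e (nat_lit 532501) (nat_lit 1) (.e (nat_lit 57766) (nat_lit 221) .nil))))))) (.g (nat_lit 6) .nil .nil))) 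
(.lf (nat_lit 13735) (.g (nat_lit 3033) (.e (nat_lit 1013) (nat_lit 81) (.e (nat_lit 5395) (nat_lit 301) (.e (nat_lit 57464) (nat_lit 23) (.e (nat_lit 516163) (nat_lit 11) (.e (nat_lit 442424) (nat_lit 22) (.e (nat_lit 196661) (nat_lit 12) (.e (nat_lit 57711) (nat_lit 176) .nil))))))) (.g (nat_lit 7) .nil .nil)))) (.nd (nat_lit 5) 
(.lf (nat_lit 13719) (.g (nat_lit 3646) (.e (nat_lit 1011) (nat_lit 81) (.e (nat_lit 1669) (nat_lit 116) (.e (nat_lit 401457) (nat_lit 13) (.e (nat_lit 483413) (nat_lit 27) (.e (nat_lit 401448) (nat_lit 10) (.e (nat_lit 434202) (nat_lit 18) (.e (nat_lit 6000) (nat_lit 326) .nil))))))) (.g (nat_lit 5) .nil .nil))) 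
(.lf (nat_lit 13751) (.g (nat_lit 1630) (.e (nat_lit 1014) (nat_lit 81) (.e (nat_lit 7261) (nat_lit 384) (.e (nat_lit 57371) (nat_lit 2) (.e (nat_lit 90128) (nat_lit 9) (.e (nat_lit 7936) (nat_lit 22) .nil))))) .nil)))) (.nd (nat_lit 4) (.nd (nat_lit 5) 
(.lf (nat_lit 13711) (.g (nat_lit 1484) (.e (nat_lit 1011) (nat_lit 81) (.e (nat_lit 1586) (nat_lit 111) (.e (nat_lit 360477) (nat_lit 11) (.e (nat_lit 581651) (nat_lit 4) (.e (nat_lit 172113) (nat_lit 10) .nil))))) .nil)) 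
(.lf (nat_lit 13743) (.g (nat_lit 4702) (.e (nat_lit 1014) (nat_lit 81) (.e (nat_lit 1669) (nat_lit 116) (.e (nat_lit 401454) (nat_lit 12) (.e (nat_lit 475193) (nat_lit 38) (.e (nat_lit 688186) (nat_lit 18) (.e (nat_lit 81959) (nat_lit 24) (.e (nat_lit 123127) (nat_lit 239) .nil))))))) (.g (nat_lit 0) .nil .nil)))) (.nd (nat_lit 5) 
(.lf (nat_lit 13727) (.g (nat_lit 2272) (.e (nat_lit 1011) (nat_lit 81) (.e (nat_lit 5412) (nat_lit 303) (.e (nat_lit 73775) (nat_lit 26) (.e (nat_lit 778465) (nat_lit 11) (.e (nat_lit 24650) (nat_lit 12) (.e (nat_lit 385038) (nat_lit 16) .nil)))))) (.g (nat_lit 6) .nil .nil))) 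
(.lf (nat_lit 13759) (.g (nat_lit 3765) (.e (nat_lit 1015) (nat_lit 81) (.e (nat_lit 1667) (nat_lit 116) (.e (nat_lit 401457) (nat_lit 13) (.e (nat_lit 483413) (nat_lit 27) (.e (nat_lit 401446) (nat_lit 10) (.e (nat_lit 434203) (nat_lit 18) (.e (nat_lit 6047) (nat_lit 326) .nil))))))) (.g (nat_lit 0) .nil .nil)))))))))

noncomputable def tv190 : DT := (.nd (nat_lit 0) (.nd (nat_lit 1) (.nd (nat_lit 2) (.nd (nat_lit 3) (.nd (nat_lit 4) (.nd (nat_lit 5) 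
(.lf (nat_lit 13760) (.g (nat_lit 739) (.e (nat_lit 1015) (nat_lit 81) (.e (nat_lit 5393) (nat_lit 301) (.e (nat_lit 57480) (nat_lit 28) (.e (nat_lit 557091) (nat_lit 12) .nil)))) .nil)) 
(.lf (nat_lit 13792) (.g (nat_lit 2901) (.e (nat_lit 1016) (nat_lit 81) (.e (nat_lit 1485) (nat_lit 108) (.e (nat_lit 336011) (nat_lit 2) (.e (nat_lit 90170) (nat_lit 13) (.e (nat_lit 172113) (nat_lit 10) .nil))))) .nil))) (.nd (nat_lit 5) 
(.lf (nat_lit 13776) (.g (nat_lit 1726) (.e (nat_lit 1016) (nat_lit 81) (.e (nat_lit 1256) (nat_lit 92) (.e (nat_lit 98342) (nat_lit 20) (.e (nat_lit 221212) (nat_lit 22) (.e (nat_lit 196666) (nat_lit 13) .nil))))) .nil)) 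
(.lf (nat_lit 13808) (.g (nat_lit 3517) (.e (nat_lit 1016) (nat_lit 81) (.e (nat_lit 1535) (nat_lit 109) (.e (nat_lit 344117) (nat_lit 21) (.e (nat_lit 516165) (nat_lit 12) (.e (nat_lit 450586) (nat_lit 10) (.e (nat_lit 573473) (nat_lit 12) (.e (nat_lit 57353) (nat_lit 0) (.e (nat_lit 7124) (nat_lit 382) .nil)))))))) (.g (nat_lit 8) .nil .nil))))) (.nd (nat_lit 4) (.nd (nat_lit 5) 
(.lf (nat_lit 13768) (.g (nat_lit 1933) (.e (nat_lit 1015) (nat_lit 81) (.e (nat_lit 7266) (nat_lit 384) (.e (nat_lit 57427) (nat_lit 15) (.e (nat_lit 360451) (nat_lit 0) (.e (nat_lit 7265) (nat_lit 384) .nil))))) .nil)) 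
(.lf (nat_lit 13800) (.g (nat_lit 2692) (.e (nat_lit 1016) (nat_lit 81) (.e (nat_lit 1535) (nat_lit 109) (.e (nat_lit 344117) (nat_lit 21) (.e (nat_lit 516151) (nat_lit 9) (.e (nat_lit 426286) (nat_lit 10) (.e (nat_lit 434247) (nat_lit 28) (.e (nat_lit 573478) (nat_lit 12) (.e (nat_lit 57351) (nat_lit 0) (.e (nat_lit 7125) (nat_lit 382) .nil))))))))) (.g (nat_lit 6) .nil .nil)))) (.nd (nat_lit 5) 
(.lf (nat_lit 13784) (.g (nat_lit 2963) (.e (nat_lit 1016) (nat_lit 81) (.e (nat_lit 1446) (nat_lit 108) (.e (nat_lit 336013) (nat_lit 2) (.e (nat_lit 90170) (nat_lit 13) (.e (nat_lit 172113) (nat_lit 10) .nil))))) .nil)) 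
(.lf (nat_lit 13816) (.g (nat_lit 3881) (.e (nat_lit 1016) (nat_lit 81) (.e (nat_lit 1535) (nat_lit 109) (.e (nat_lit 344117) (nat_lit 21) (.e (nat_lit 516166) (nat_lit 12) (.e (nat_lit 450588) (nat_lit 10) (.e (nat_lit 573473) (nat_lit 12) (.e (nat_lit 57353) (nat_lit 0) (.e (nat_lit 7124) (nat_lit 382) .nil)))))))) (.g (nat_lit 8) .nil .nil)))))) 
(.nd (nat_lit 3) (.nd (nat_lit 4) (.nd (nat_lit 5) 
(.lf (nat_lit 13764) (.g (nat_lit 410) (.e (nat_lit 1015) (nat_lit 81) (.e (nat_lit 7266) (nat_lit 384) (.e (nat_lit 57426) (nat_lit 15) .nil))) .nil)) 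
(.lf (nat_lit 13796) (.g (nat_lit 3923) (.e (nat_lit 1016) (nat_lit 81) (.e (nat_lit 1535) (nat_lit 109) (.e (nat_lit 344117) (nat_lit 21) (.e (nat_lit 516151) (nat_lit 9) (.e (nat_lit 426286) (nat_lit 10) (.e (nat_lit 434245) (nat_lit 28) (.e (nat_lit 573473) (nat_lit 12) (.e (nat_lit 57353) (nat_lit 0) (.e (nat_lit 7124) (nat_lit 382) .nil))))))))) (.g (nat_lit 9) .nil .nil)))) (.nd (nat_lit 5) 
(.lf (nat_lit 13780) (.g (nat_lit 3154) (.e (nat_lit 1016) (nat_lit 81) (.e (nat_lit 1443) (nat_lit 108) (.e (nat_lit 336013) (nat_lit 2) (.e (nat_lit 90170) (nat_lit 13) (.e (nat_lit 172106) (nat_lit 10) .nil))))) .nil)) 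
(.lf (nat_lit 13812) (.g (nat_lit 2193) (.e (nat_lit 1016) (nat_lit 81) (.e (nat_lit 1535) (nat_lit 109) (.e (nat_lit 344117) (nat_lit 21) (.e (nat_lit 516165) (nat_lit 12) (.e (nat_lit 450586) (nat_lit 10) (.e (nat_lit 573478) (nat_lit 12) (.e (nat_lit 57353) (nat_lit 0) (.e (nat_lit 7125) (nat_lit 382) .nil)))))))) (.g (nat_lit 5) .nil .nil))))) (.nd (nat_lit 4) (.nd (nat_lit 5) 
(.lf (nat_lit 13772) (.g (nat_lit 1443) (.e (nat_lit 1016) (nat_lit 81) (.e (nat_lit 1239) (nat_lit 91) (.e (nat_lit 90134) (nat_lit 9) (.e (nat_lit 290) (nat_lit 21) .nil)))) .nil)) 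
(.lf (nat_lit 13804) (.g (nat_lit 4043) (.e (nat_lit 1016) (nat_lit 81) (.e (nat_lit 1535) (nat_lit 109) (.e (nat_lit 344117) (nat_lit 21) (.e (nat_lit 516151) (nat_lit 9) (.e (nat_lit 426286) (nat_lit 10) (.e (nat_lit 434248) (nat_lit 28) (.e (nat_lit 573473) (nat_lit 12) (.e (nat_lit 57353) (nat_lit 0) (.e (nat_lit 7124) (nat_lit 382) .nil))))))))) (.g (nat_lit 9) .nil .nil)))) (.nd (nat_lit 5) 
(.lf (nat_lit 13788) (.g (nat_lit 3147) (.e (nat_lit 1016) (nat_lit 81) (.e (nat_lit 1449) (nat_lit 108) (.e (nat_lit 336060) (nat_lit 7) (.e (nat_lit 319533) (nat_lit 16) (.e (nat_lit 286753) (nat_lit 10) (.e (nat_lit 344160) (nat_lit 37) (.e (nat_lit 647201) (nat_lit 12) (.e (nat_lit 57351) (nat_lit 0) (.e (nat_lit 7122) (nat_lit 382) .nil))))))))) (.g (nat_lit 7) .nil .nil))) 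
(.lf (nat_lit 13820) (.g (nat_lit 2962) (.e (nat_lit 1016) (nat_lit 81) (.e (nat_lit 1551) (nat_lit 109) (.e (nat_lit 344117) (nat_lit 21) (.e (nat_lit 516151) (nat_lit 9) (.e (nat_lit 426286) (nat_lit 10) (.e (nat_lit 434247) (nat_lit 28) (.e (nat_lit 573478) (nat_lit 12) (.e (nat_lit 57351) (nat_lit 0) (.e (nat_lit 7122) (nat_lit 382) .nil))))))))) (.g (nat_lit 7) .nil .nil))))))) 
(.nd (nat_lit 2) (.nd (nat_lit 3) (.nd (nat_lit 4) (.nd (nat_lit 5) 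
(.lf (nat_lit 13762) (.g (nat_lit 1282) (.e (nat_lit 1015) (nat_lit 81) (.e (nat_lit 7125) (nat_lit 382) (.e (nat_lit 1222) (nat_lit 90) (.e (nat_lit 81948) (nat_lit 21) .nil)))) .nil)) 
(.lf (nat_lit 13794) (.g (nat_lit 4027) (.e (nat_lit 1016) (nat_lit 81) (.e (nat_lit 1535) (nat_lit 109) (.e (nat_lit 344117) (nat_lit 21) (.e (nat_lit 516151) (nat_lit 9) (.e (nat_lit 426286) (nat_lit 10) (.e (nat_lit 434245) (nat_lit 28) (.e (nat_lit 573473) (nat_lit 12) (.e (nat_lit 57348) (nat_lit 0) (.e (nat_lit 7124) (nat_lit 382) .nil))))))))) (.g (nat_lit 9) .nil .nil)))) (.nd (nat_lit 5) 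
(.lf (nat_lit 13778) (.g (nat_lit 3364) (.e (nat_lit 1016) (nat_lit 81) (.e (nat_lit 1433) (nat_lit 108) (.e (nat_lit 336456) (nat_lit 34) (.e (nat_lit 483383) (nat_lit 23) (.e (nat_lit 336019) (nat_lit 3) (.e (nat_lit 98334) (nat_lit 18) (.e (nat_lit 164159) (nat_lit 152) .nil))))))) (.g (nat_lit 7) .nil .nil))) 
(.lf (nat_lit 13810) (.g (nat_lit 2974) (.e (nat_lit 1016) (nat_lit 81) (.e (nat_lit 1535) (nat_lit 109) (.e (nat_lit 344117) (nat_lit 21) (.e (nat_lit 516165) (nat_lit 12) (.e (nat_lit 450586) (nat_lit 10) (.e (nat_lit 573478) (nat_lit 12) (.e (nat_lit 57351) (nat_lit 0) (.e (nat_lit 7124) (nat_lit 382) .nil)))))))) (.g (nat_lit 8) .nil .nil))))) (.nd (nat_lit 4) (.nd (nat_lit 5) 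
(.lf (nat_lit 13770) (.g (nat_lit 2202) (.e (nat_lit 1016) (nat_lit 81) (.e (nat_lit 618) (nat_lit 48) (.e (nat_lit 557098) (nat_lit 13) (.e (nat_lit 172123) (nat_lit 13) .nil)))) .nil)) 
(.lf (nat_lit 13802) (.g (nat_lit 4164) (.e (nat_lit 1016) (nat_lit 81) (.e (nat_lit 1535) (nat_lit 109) (.e (nat_lit 344117) (nat_lit 21) (.e (nat_lit 516151) (nat_lit 9) (.e (nat_lit 426286) (nat_lit 10) (.e (nat_lit 434248) (nat_lit 28) (.e (nat_lit 573473) (nat_lit 12) (.e (nat_lit 57348) (nat_lit 0) (.e (nat_lit 7124) (nat_lit 382) .nil))))))))) (.g (nat_lit 9) .nil .nil)))) (.nd (nat_lit 5) 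
(.lf (nat_lit 13786) (.g (nat_lit 4069) (.e (nat_lit 1016) (nat_lit 81) (.e (nat_lit 1449) (nat_lit 108) (.e (nat_lit 336013) (nat_lit 2) (.e (nat_lit 90170) (nat_lit 13) (.e (nat_lit 172113) (nat_lit 10) (.e (nat_lit 434247) (nat_lit 28) (.e (nat_lit 573478) (nat_lit 12) (.e (nat_lit 57351) (nat_lit 0) (.e (nat_lit 7122) (nat_lit 382) .nil))))))))) (.g (nat_lit 6) .nil .nil))) 
(.lf (nat_lit 13818) (.g (nat_lit 3760) (.e (nat_lit 1016) (nat_lit 81) (.e (nat_lit 1549) (nat_lit 109) (.e (nat_lit 344117) (nat_lit 21) (.e (nat_lit 516166) (nat_lit 12) (.e (nat_lit 450587) (nat_lit 10) (.e (nat_lit 573477) (nat_lit 12) (.e (nat_lit 57353) (nat_lit 0) (.e (nat_lit 7124) (nat_lit 382) .nil)))))))) (.g (nat_lit 8) .nil .nil)))))) 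
(.nd (nat_lit 3) (.nd (nat_lit 4) (.nd (nat_lit 5) 
(.lf (nat_lit 13766) (.g (nat_lit 425) (.e (nat_lit 1015) (nat_lit 81) (.e (nat_lit 7266) (nat_lit 384) (.e (nat_lit 57427) (nat_lit 15) .nil))) .nil)) 
(.lf (nat_lit 13798) (.g (nat_lit 3836) (.e (nat_lit 1016) (nat_lit 81) (.e (nat_lit 1535) (nat_lit 109) (.e (nat_lit 344117) (nat_lit 21) (.e (nat_lit 516151) (nat_lit 9) (.e (nat_lit 426286) (nat_lit 10) (.e (nat_lit 434247) (nat_lit 28) (.e (nat_lit 573477) (nat_lit 12) (.e (nat_lit 57353) (nat_lit 0) (.e (nat_lit 7124) (nat_lit 382) .nil))))))))) (.g (nat_lit 9) .nil .nil)))) (.nd (nat_lit 5) 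
(.lf (nat_lit 13782) (.g (nat_lit 3692) (.e (nat_lit 1016) (nat_lit 81) (.e (nat_lit 1443) (nat_lit 108) (.e (nat_lit 336013) (nat_lit 2) (.e (nat_lit 90170) (nat_lit 13) (.e (nat_lit 172113) (nat_lit 10) .nil))))) .nil)) 
(.lf (nat_lit 13814) (.g (nat_lit 4011) (.e (nat_lit 1016) (nat_lit 81) (.e (nat_lit 1535) (nat_lit 109) (.e (nat_lit 344117) (nat_lit 21) (.e (nat_lit 516166) (nat_lit 12) (.e (nat_lit 450588) (nat_lit 10) (.e (nat_lit 573473) (nat_lit 12) (.e (nat_lit 57348) (nat_lit 0) (.e (nat_lit 7124) (nat_lit 382) .nil)))))))) (.g (nat_lit 8) .nil .nil))))) (.nd (nat_lit 4) (.nd (nat_lit 5) 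
(.lf (nat_lit 13774) (.g (nat_lit 479) (.e (nat_lit 1016) (nat_lit 81) (.e (nat_lit 1239) (nat_lit 91) (.e (nat_lit 90170) (nat_lit 13) .nil))) .nil)) 
(.lf (nat_lit 13806) (.g (nat_lit 3646) (.e (nat_lit 1016) (nat_lit 81) (.e (nat_lit 1535) (nat_lit 109) (.e (nat_lit 344117) (nat_lit 21) (.e (nat_lit 516165) (nat_lit 12) (.e (nat_lit 450586) (nat_lit 10) (.e (nat_lit 573473) (nat_lit 12) (.e (nat_lit 57348) (nat_lit 0) (.e (nat_lit 7124) (nat_lit 382) .nil)))))))) (.g (nat_lit 8) .nil .nil)))) (.nd (nat_lit 5) 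
(.lf (nat_lit 13790) (.g (nat_lit 3224) (.e (nat_lit 1016) (nat_lit 81) (.e (nat_lit 1462) (nat_lit 108) (.e (nat_lit 336028) (nat_lit 3) (.e (nat_lit 98359) (nat_lit 26) (.e (nat_lit 426286) (nat_lit 10) (.e (nat_lit 434245) (nat_lit 28) (.e (nat_lit 573473) (nat_lit 12) (.e (nat_lit 57352) (nat_lit 0) (.e (nat_lit 7122) (nat_lit 382) .nil))))))))) (.g (nat_lit 7) .nil .nil))) 
(.lf (nat_lit 13822) (.g (nat_lit 2932) (.e (nat_lit 1016) (nat_lit 81) (.e (nat_lit 1551) (nat_lit 109) (.e (nat_lit 344117) (nat_lit 21) (.e (nat_lit 516165) (nat_lit 12) (.e (nat_lit 450586) (nat_lit 10) (.e (nat_lit 573475) (nat_lit 12) (.e (nat_lit 57351) (nat_lit 0) (.e (nat_lit 7122) (nat_lit 382) .nil)))))))) (.g (nat_lit 6) .nil .nil)))))))) 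
(.nd (nat_lit 1) (.nd (nat_lit 2) (.nd (nat_lit 3) (.nd (nat_lit 4) (.nd (nat_lit 5) 
(.lf (nat_lit 13761) (.g (nat_lit 2074) (.e (nat_lit 1015) (nat_lit 81) (.e (nat_lit 7125) (nat_lit 382) (.e (nat_lit 1201) (nat_lit 88) (.e (nat_lit 65617) (nat_lit 10) (.e (nat_lit 344091) (nat_lit 18) .nil))))) .nil)) 
(.lf (nat_lit 13793) (.g (nat_lit 2894) (.e (nat_lit 1016) (nat_lit 81) (.e (nat_lit 1499) (nat_lit 108) (.e (nat_lit 336011) (nat_lit 2) (.e (nat_lit 90170) (nat_lit 13) (.e (nat_lit 172113) (nat_lit 10) .nil))))) .nil))) (.nd (nat_lit 5) 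
(.lf (nat_lit 13777) (.g (nat_lit 2282) (.e (nat_lit 1016) (nat_lit 81) (.e (nat_lit 1424) (nat_lit 108) (.e (nat_lit 336454) (nat_lit 34) (.e (nat_lit 483406) (nat_lit 26) (.e (nat_lit 385066) (nat_lit 26) .nil))))) .nil)) 
(.lf (nat_lit 13809) (.g (nat_lit 3531) (.e (nat_lit 1016) (nat_lit 81) (.e (nat_lit 1535) (nat_lit 109) (.e (nat_lit 344117) (nat_lit 21) (.e (nat_lit 516165) (nat_lit 12) (.e (nat_lit 450586) (nat_lit 10) (.e (nat_lit 573475) (nat_lit 12) (.e (nat_lit 57351) (nat_lit 0) (.e (nat_lit 7124) (nat_lit 382) .nil)))))))) (.g (nat_lit 8) .nil .nil))))) (.nd (nat_lit 4) (.nd (nat_lit 5) 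
(.lf (nat_lit 13769) (.g (nat_lit 1179) (.e (nat_lit 1015) (nat_lit 81) (.e (nat_lit 7266) (nat_lit 384) (.e (nat_lit 57427) (nat_lit 15) (.e (nat_lit 368384) (nat_lit 25) .nil)))) .nil)) 
(.lf (nat_lit 13801) (.g (nat_lit 2748) (.e (nat_lit 1016) (nat_lit 81) (.e (nat_lit 1535) (nat_lit 109) (.e (nat_lit 344117) (nat_lit 21) (.e (nat_lit 516151) (nat_lit 9) (.e (nat_lit 426286) (nat_lit 10) (.e (nat_lit 434247) (nat_lit 28) (.e (nat_lit 573478) (nat_lit 12) (.e (nat_lit 57353) (nat_lit 0) (.e (nat_lit 7125) (nat_lit 382) .nil))))))))) (.g (nat_lit 6) .nil .nil)))) (.nd (nat_lit 5) 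
(.lf (nat_lit 13785) (.g (nat_lit 3872) (.e (nat_lit 1016) (nat_lit 81) (.e (nat_lit 1447) (nat_lit 108) (.e (nat_lit 336013) (nat_lit 2) (.e (nat_lit 90170) (nat_lit 13) (.e (nat_lit 172113) (nat_lit 10) (.e (nat_lit 434242) (nat_lit 28) (.e (nat_lit 573474) (nat_lit 12) (.e (nat_lit 57348) (nat_lit 0) (.e (nat_lit 7122) (nat_lit 382) .nil))))))))) (.g (nat_lit 5) .nil .nil))) 
(.lf (nat_lit 13817) (.g (nat_lit 3818) (.e (nat_lit 1016) (nat_lit 81) (.e (nat_lit 1535) (nat_lit 109) (.e (nat_lit 344117) (nat_lit 21) (.e (nat_lit 516166) (nat_lit 12) (.e (nat_lit 450588) (nat_lit 10) (.e (nat_lit 573475) (nat_lit 12) (.e (nat_lit 57351) (nat_lit 0) (.e (nat_lit 7124) (nat_lit 382) .nil)))))))) (.g (nat_lit 8) .nil .nil)))))) 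
(.nd (nat_lit 3) (.nd (nat_lit 4) (.nd (nat_lit 5) 
(.lf (nat_lit 13765) (.g (nat_lit 929) (.e (nat_lit 1015) (nat_lit 81) (.e (nat_lit 7266) (nat_lit 384) (.e (nat_lit 57426) (nat_lit 15) (.e (nat_lit 360452) (nat_lit 0) .nil)))) .nil)) 
(.lf (nat_lit 13797) (.g (nat_lit 4288) (.e (nat_lit 1016) (nat_lit 81) (.e (nat_lit 1535) (nat_lit 109) (.e (nat_lit 344117) (nat_lit 21) (.e (nat_lit 516151) (nat_lit 9) (.e (nat_lit 426286) (nat_lit 10) (.e (nat_lit 434245) (nat_lit 28) (.e (nat_lit 573474) (nat_lit 12) (.e (nat_lit 57351) (nat_lit 0) (.e (nat_lit 7124) (nat_lit 382) .nil))))))))) (.g (nat_lit 9) .nil .nil)))) (.nd (nat_lit 5) 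
(.lf (nat_lit 13781) (.g (nat_lit 3192) (.e (nat_lit 1016) (nat_lit 81) (.e (nat_lit 1443) (nat_lit 108) (.e (nat_lit 336013) (nat_lit 2) (.e (nat_lit 90170) (nat_lit 13) (.e (nat_lit 172106) (nat_lit 10) (.e (nat_lit 434231) (nat_lit 23) (.e (nat_lit 532499) (nat_lit 1) (.e (nat_lit 65280) (nat_lit 221) .nil)))))))) (.g (nat_lit 4) .nil .nil))) 
(.lf (nat_lit 13813) (.g (nat_lit 2968) (.e (nat_lit 1016) (nat_lit 81) (.e (nat_lit 1535) (nat_lit 109) (.e (nat_lit 344117) (nat_lit 21) (.e (nat_lit 516166) (nat_lit 12) (.e (nat_lit 450587) (nat_lit 10) (.e (nat_lit 573478) (nat_lit 12) (.e (nat_lit 57351) (nat_lit 0) (.e (nat_lit 7124) (nat_lit 382) .nil)))))))) (.g (nat_lit 8) .nil .nil))))) (.nd (nat_lit 4) (.nd (nat_lit 5) 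
(.lf (nat_lit 13773) (.g (nat_lit 787) (.e (nat_lit 1016) (nat_lit 81) (.e (nat_lit 1239) (nat_lit 91) (.e (nat_lit 90157) (nat_lit 11) .nil))) .nil)) 
(.lf (nat_lit 13805) (.g (nat_lit 4285) (.e (nat_lit 1016) (nat_lit 81) (.e (nat_lit 1535) (nat_lit 109) (.e (nat_lit 344117) (nat_lit 21) (.e (nat_lit 516151) (nat_lit 9) (.e (nat_lit 426286) (nat_lit 10) (.e (nat_lit 434248) (nat_lit 28) (.e (nat_lit 573475) (nat_lit 12) (.e (nat_lit 57351) (nat_lit 0) (.e (nat_lit 7124) (nat_lit 382) .nil))))))))) (.g (nat_lit 9) .nil .nil)))) (.nd (nat_lit 5) 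
(.lf (nat_lit 13789) (.g (nat_lit 3800) (.e (nat_lit 1016) (nat_lit 81) (.e (nat_lit 1453) (nat_lit 108) (.e (nat_lit 336013) (nat_lit 2) (.e (nat_lit 90170) (nat_lit 13) (.e (nat_lit 172113) (nat_lit 10) (.e (nat_lit 434242) (nat_lit 28) (.e (nat_lit 573474) (nat_lit 12) (.e (nat_lit 57347) (nat_lit 0) (.e (nat_lit 7124) (nat_lit 382) .nil))))))))) (.g (nat_lit 5) .nil .nil))) 
(.lf (nat_lit 13821) (.g (nat_lit 3766) (.e (nat_lit 1016) (nat_lit 81) (.e (nat_lit 1551) (nat_lit 109) (.e (nat_lit 344117) (nat_lit 21) (.e (nat_lit 516151) (nat_lit 9) (.e (nat_lit 426286) (nat_lit 10) (.e (nat_lit 434248) (nat_lit 28) (.e (nat_lit 573475) (nat_lit 12) (.e (nat_lit 57351) (nat_lit 0) (.e (nat_lit 7122) (nat_lit 382) .nil))))))))) (.g (nat_lit 7) .nil .nil))))))) 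
(.nd (nat_lit 2) (.nd (nat_lit 3) (.nd (nat_lit 4) (.nd (nat_lit 5) 
(.lf (nat_lit 13763) (.g (nat_lit 1775) (.e (nat_lit 1015) (nat_lit 81) (.e (nat_lit 7125) (nat_lit 382) (.e (nat_lit 1222) (nat_lit 90) (.e (nat_lit 81948) (nat_lit 21) (.e (nat_lit 57683) (nat_lit 155) .nil))))) .nil)) 
(.lf (nat_lit 13795) (.g (nat_lit 3291) (.e (nat_lit 1016) (nat_lit 81) (.e (nat_lit 1535) (nat_lit 109) (.e (nat_lit 344117) (nat_lit 21) (.e (nat_lit 516151) (nat_lit 9) (.e (nat_lit 426286) (nat_lit 10) (.e (nat_lit 434245) (nat_lit 28) (.e (nat_lit 573473) (nat_lit 12) (.e (nat_lit 57348) (nat_lit 0) (.e (nat_lit 7125) (nat_lit 382) .nil))))))))) (.g (nat_lit 7) .nil .nil)))) (.nd (nat_lit 5) 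
(.lf (nat_lit 13779) (.g (nat_lit 895) (.e (nat_lit 1016) (nat_lit 81) (.e (nat_lit 1433) (nat_lit 108) (.e (nat_lit 336456) (nat_lit 34) (.e (nat_lit 483395) (nat_lit 24) .nil)))) .nil)) 
(.lf (nat_lit 13811) (.g (nat_lit 2165) (.e (nat_lit 1016) (nat_lit 81) (.e (nat_lit 1535) (nat_lit 109) (.e (nat_lit 344117) (nat_lit 21) (.e (nat_lit 516165) (nat_lit 12) (.e (nat_lit 450586) (nat_lit 10) (.e (nat_lit 573478) (nat_lit 12) (.e (nat_lit 57351) (nat_lit 0) (.e (nat_lit 7125) (nat_lit 382) .nil)))))))) (.g (nat_lit 5) .nil .nil))))) (.nd (nat_lit 4) (.nd (nat_lit 5) 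
(.lf (nat_lit 13771) (.g (nat_lit 787) (.e (nat_lit 1016) (nat_lit 81) (.e (nat_lit 1239) (nat_lit 91) (.e (nat_lit 90133) (nat_lit 9) .nil))) .nil)) 
(.lf (nat_lit 13803) (.g (nat_lit 3438) (.e (nat_lit 1016) (nat_lit 81) (.e (nat_lit 1535) (nat_lit 109) (.e (nat_lit 344117) (nat_lit 21) (.e (nat_lit 516151) (nat_lit 9) (.e (nat_lit 426286) (nat_lit 10) (.e (nat_lit 434248) (nat_lit 28) (.e (nat_lit 573473) (nat_lit 12) (.e (nat_lit 57348) (nat_lit 0) (.e (nat_lit 7125) (nat_lit 382) .nil))))))))) (.g (nat_lit 7) .nil .nil)))) (.nd (nat_lit 5) 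
(.lf (nat_lit 13787) (.g (nat_lit 1527) (.e (nat_lit 1016) (nat_lit 81) (.e (nat_lit 1449) (nat_lit 108) (.e (nat_lit 336060) (nat_lit 7) (.e (nat_lit 319533) (nat_lit 16) (.e (nat_lit 286753) (nat_lit 10) .nil))))) .nil)) 
(.lf (nat_lit 13819) (.g (nat_lit 3778) (.e (nat_lit 1016) (nat_lit 81) (.e (nat_lit 1551) (nat_lit 109) (.e (nat_lit 344117) (nat_lit 21) (.e (nat_lit 516151) (nat_lit 9) (.e (nat_lit 426286) (nat_lit 10) (.e (nat_lit 434245) (nat_lit 28) (.e (nat_lit 573474) (nat_lit 12) (.e (nat_lit 57351) (nat_lit 0) (.e (nat_lit 7122) (nat_lit 382) .nil))))))))) (.g (nat_lit 7) .nil .nil)))))) 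
(.nd (nat_lit 3) (.nd (nat_lit 4) (.nd (nat_lit 5) 
(.lf (nat_lit 13767) (.g (nat_lit 1025) (.e (nat_lit 1015) (nat_lit 81) (.e (nat_lit 7266) (nat_lit 384) (.e (nat_lit 57427) (nat_lit 15) (.e (nat_lit 360450) (nat_lit 0) .nil)))) .nil)) 
(.lf (nat_lit 13799) (.g (nat_lit 3501) (.e (nat_lit 1016) (nat_lit 81) (.e (nat_lit 1535) (nat_lit 109) (.e (nat_lit 344117) (nat_lit 21) (.e (nat_lit 516151) (nat_lit 9) (.e (nat_lit 426286) (nat_lit 10) (.e (nat_lit 434247) (nat_lit 28) (.e (nat_lit 573478) (nat_lit 12) (.e (nat_lit 57351) (nat_lit 0) (.e (nat_lit 7124) (nat_lit 382) .nil))))))))) (.g (nat_lit 9) .nil .nil)))) (.nd (nat_lit 5) 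
(.lf (nat_lit 13783) (.g (nat_lit 2240) (.e (nat_lit 1016) (nat_lit 81) (.e (nat_lit 1443) (nat_lit 108) (.e (nat_lit 336028) (nat_lit 3) (.e (nat_lit 98373) (nat_lit 29) (.e (nat_lit 450587) (nat_lit 10) .nil))))) .nil)) 
(.lf (nat_lit 13815) (.g (nat_lit 3286) (.e (nat_lit 1016) (nat_lit 81) (.e (nat_lit 1535) (nat_lit 109) (.e (nat_lit 344117) (nat_lit 21) (.e (nat_lit 516166) (nat_lit 12) (.e (nat_lit 450588) (nat_lit 10) (.e (nat_lit 573473) (nat_lit 12) (.e (nat_lit 57348) (nat_lit 0) (.e (nat_lit 7125) (nat_lit 382) .nil)))))))) (.g (nat_lit 6) .nil .nil))))) (.nd (nat_lit 4) (.nd (nat_lit 5) 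
(.lf (nat_lit 13775) (.g (nat_lit 4359) (.e (nat_lit 1016) (nat_lit 81) (.e (nat_lit 1256) (nat_lit 92) (.e (nat_lit 98342) (nat_lit 20) (.e (nat_lit 221211) (nat_lit 22) (.e (nat_lit 196666) (nat_lit 13) (.e (nat_lit 65569) (nat_lit 3) (.e (nat_lit 98334) (nat_lit 18) (.e (nat_lit 164159) (nat_lit 152) .nil)))))))) (.g (nat_lit 8) .nil .nil))) 
(.lf (nat_lit 13807) (.g (nat_lit 2922) (.e (nat_lit 1016) (nat_lit 81) (.e (nat_lit 1535) (nat_lit 109) (.e (nat_lit 344117) (nat_lit 21) (.e (nat_lit 516165) (nat_lit 12) (.e (nat_lit 450586) (nat_lit 10) (.e (nat_lit 573473) (nat_lit 12) (.e (nat_lit 57348) (nat_lit 0) (.e (nat_lit 7125) (nat_lit 382) .nil)))))))) (.g (nat_lit 6) .nil .nil)))) (.nd (nat_lit 5) 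
(.lf (nat_lit 13791) (.g (nat_lit 3341) (.e (nat_lit 1016) (nat_lit 81) (.e (nat_lit 1462) (nat_lit 108) (.e (nat_lit 336028) (nat_lit 3) (.e (nat_lit 98359) (nat_lit 26) (.e (nat_lit 426286) (nat_lit 10) (.e (nat_lit 434248) (nat_lit 28) (.e (nat_lit 573473) (nat_lit 12) (.e (nat_lit 57352) (nat_lit 0) (.e (nat_lit 7122) (nat_lit 382) .nil))))))))) (.g (nat_lit 7) .nil .nil))) 
(.lf (nat_lit 13823) (.g (nat_lit 2347) (.e (nat_lit 1016) (nat_lit 81) (.e (nat_lit 1551) (nat_lit 109) (.e (nat_lit 344117) (nat_lit 21) (.e (nat_lit 516165) (nat_lit 12) (.e (nat_lit 450586) (nat_lit 10) (.e (nat_lit 573478) (nat_lit 12) (.e (nat_lit 57351) (nat_lit 0) (.e (nat_lit 7122) (nat_lit 382) .nil)))))))) (.g (nat_lit 6) .nil .nil)))))))))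

noncomputable def tv191 : DT := (.nd (nat_lit 0) (.nd (nat_lit 1) (.nd (nat_lit 2) (.nd (nat_lit 3) (.nd (nat_lit 4) (.nd (nat_lit 5) 
(.lf (nat_lit 13824) (.g (nat_lit 2328) (.e (nat_lit 1016) (nat_lit 81) (.e (nat_lit 1551) (nat_lit 109) (.e (nat_lit 344117) (nat_lit 21) (.e (nat_lit 516166) (nat_lit 12) (.e (nat_lit 450587) (nat_lit 10) (.e (nat_lit 573478) (nat_lit 12) (.e (nat_lit 57351) (nat_lit 0) (.e (nat_lit 7122) (nat_lit 382) .nil)))))))) (.g (nat_lit 6) .nil .nil))) 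
(.lf (nat_lit 13856) (.g (nat_lit 3651) (.e (nat_lit 1016) (nat_lit 81) (.e (nat_lit 1669) (nat_lit 116) (.e (nat_lit 401457) (nat_lit 13) (.e (nat_lit 483413) (nat_lit 27) (.e (nat_lit 401448) (nat_lit 10) (.e (nat_lit 434202) (nat_lit 18) (.e (nat_lit 5982) (nat_lit 326) .nil))))))) (.g (nat_lit 5) .nil .nil)))) (.nd (nat_lit 5) 
(.lf (nat_lit 13840) (.g (nat_lit 2592) (.e (nat_lit 1016) (nat_lit 81) (.e (nat_lit 1669) (nat_lit 116) (.e (nat_lit 401454) (nat_lit 12) (.e (nat_lit 475198) (nat_lit 40) (.e (nat_lit 704598) (nat_lit 6) .nil))))) .nil)) 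
(.lf (nat_lit 13872) (.g (nat_lit 604) (.e (nat_lit 1017) (nat_lit 81) (.e (nat_lit 7270) (nat_lit 385) (.e (nat_lit 122919) (nat_lit 15) .nil))) .nil)))) (.nd (nat_lit 4) (.nd (nat_lit 5) 
(.lf (nat_lit 13832) (.g (nat_lit 500) (.e (nat_lit 1016) (nat_lit 81) (.e (nat_lit 1586) (nat_lit 111) (.e (nat_lit 360451) (nat_lit 0) .nil))) .nil)) 
(.lf (nat_lit 13864) (.g (nat_lit 3176) (.e (nat_lit 1016) (nat_lit 81) (.e (nat_lit 1812) (nat_lit 120) (.e (nat_lit 524322) (nat_lit 12) (.e (nat_lit 450588) (nat_lit 10) (.e (nat_lit 573470) (nat_lit 11) (.e (nat_lit 16388) (nat_lit 0) (.e (nat_lit 7490) (nat_lit 402) .nil))))))) (.g (nat_lit 0) .nil .nil)))) (.nd (nat_lit 5) 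
(.lf (nat_lit 13848) (.g (nat_lit 4087) (.e (nat_lit 1016) (nat_lit 81) (.e (nat_lit 1669) (nat_lit 116) (.e (nat_lit 401457) (nat_lit 13) (.e (nat_lit 483413) (nat_lit 27) (.e (nat_lit 401446) (nat_lit 10) (.e (nat_lit 434203) (nat_lit 18) (.e (nat_lit 5982) (nat_lit 326) .nil))))))) (.g (nat_lit 7) .nil .nil))) 
(.lf (nat_lit 13880) (.g (nat_lit 3538) (.e (nat_lit 1019) (nat_lit 81) (.e (nat_lit 1234) (nat_lit 91) (.e (nat_lit 90170) (nat_lit 13) (.e (nat_lit 172106) (nat_lit 10) (.e (nat_lit 434231) (nat_lit 23) (.e (nat_lit 532554) (nat_lit 13) (.e (nat_lit 368662) (nat_lit 18) (.e (nat_lit 4833) (nat_lit 281) .nil)))))))) (.g (nat_lit 4) .nil .nil)))))) 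
(.nd (nat_lit 3) (.nd (nat_lit 4) (.nd (nat_lit 5) 
(.lf (nat_lit 13828) (.g (nat_lit 833) (.e (nat_lit 1016) (nat_lit 81) (.e (nat_lit 1559) (nat_lit 110) (.e (nat_lit 352277) (nat_lit 11) (.e (nat_lit 426342) (nat_lit 14) (.e (nat_lit 491560) (nat_lit 10) .nil))))) .nil)) 
(.lf (nat_lit 13860) (.g (nat_lit 2558) (.e (nat_lit 1016) (nat_lit 81) (.e (nat_lit 1812) (nat_lit 120) (.e (nat_lit 524322) (nat_lit 12) (.e (nat_lit 450588) (nat_lit 10) (.e (nat_lit 573470) (nat_lit 11) (.e (nat_lit 16385) (nat_lit 0) (.e (nat_lit 7490) (nat_lit 402) .nil))))))) (.g (nat_lit 7) .nil .nil)))) (.nd (nat_lit 5) 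
(.lf (nat_lit 13844) (.g (nat_lit 2168) (.e (nat_lit 1016) (nat_lit 81) (.e (nat_lit 1669) (nat_lit 116) (.e (nat_lit 401454) (nat_lit 12) (.e (nat_lit 475209) (nat_lit 41) (.e (nat_lit 712755) (nat_lit 30) .nil))))) .nil)) 
(.lf (nat_lit 13876) (.g (nat_lit 3466) (.e (nat_lit 1019) (nat_lit 81) (.e (nat_lit 1234) (nat_lit 91) (.e (nat_lit 90170) (nat_lit 13) (.e (nat_lit 172106) (nat_lit 10) (.e (nat_lit 434231) (nat_lit 23) (.e (nat_lit 532535) (nat_lit 9) (.e (nat_lit 335930) (nat_lit 0) (.e (nat_lit 1015) (nat_lit 81) (.e (nat_lit 4780) (nat_lit 281) .nil))))))))) (.g (nat_lit 4) .nil .nil))))) 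
(.nd (nat_lit 4) (.nd (nat_lit 5) 
(.lf (nat_lit 13836) (.g (nat_lit 1046) (.e (nat_lit 1016) (nat_lit 81) (.e (nat_lit 1598) (nat_lit 111) (.e (nat_lit 360452) (nat_lit 0) (.e (nat_lit 7270) (nat_lit 385) .nil)))) .nil)) 
(.lf (nat_lit 13868) (.g (nat_lit 6590) (.e (nat_lit 1016) (nat_lit 81) (.e (nat_lit 7454) (nat_lit 396) (.e (nat_lit 1221) (nat_lit 90) (.e (nat_lit 81956) (nat_lit 23) (.e (nat_lit 98333) (nat_lit 18) (.e (nat_lit 164182) (nat_lit 154) (.e (nat_lit 57411) (nat_lit 12) (.e (nat_lit 335878) (nat_lit 0) .nil)))))))) (.g (nat_lit 7) .nil .nil)))) (.nd (nat_lit 5) 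
(.lf (nat_lit 13852) (.g (nat_lit 4513) (.e (nat_lit 1016) (nat_lit 81) (.e (nat_lit 1669) (nat_lit 116) (.e (nat_lit 401457) (nat_lit 13) (.e (nat_lit 483413) (nat_lit 27) (.e (nat_lit 401447) (nat_lit 10) (.e (nat_lit 434203) (nat_lit 18) (.e (nat_lit 5984) (nat_lit 326) .nil))))))) (.g (nat_lit 6) .nil .nil))) 
(.lf (nat_lit 13884) (.g (nat_lit 2544) (.e (nat_lit 1019) (nat_lit 81) (.e (nat_lit 1788) (nat_lit 119) (.e (nat_lit 516151) (nat_lit 9) (.e (nat_lit 426285) (nat_lit 10) .nil)))) .nil)))))) (.nd (nat_lit 2) (.nd (nat_lit 3) (.nd (nat_lit 4) (.nd (nat_lit 5) 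
(.lf (nat_lit 13826) (.g (nat_lit 946) (.e (nat_lit 1016) (nat_lit 81) (.e (nat_lit 1559) (nat_lit 110) (.e (nat_lit 352277) (nat_lit 11) (.e (nat_lit 426012) (nat_lit 0) (.e (nat_lit 7593) (nat_lit 407) .nil))))) .nil)) 
(.lf (nat_lit 13858) (.g (nat_lit 4597) (.e (nat_lit 1016) (nat_lit 81) (.e (nat_lit 1691) (nat_lit 117) (.e (nat_lit 500068) (nat_lit 19) (.e (nat_lit 73755) (nat_lit 8) (.e (nat_lit 557105) (nat_lit 14) (.e (nat_lit 180252) (nat_lit 10) (.e (nat_lit 573474) (nat_lit 12) (.e (nat_lit 57516) (nat_lit 42) (.e (nat_lit 671748) (nat_lit 0) .nil))))))))) (.g (nat_lit 0) .nil .nil)))) (.nd (nat_lit 5) 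
(.lf (nat_lit 13842) (.g (nat_lit 2758) (.e (nat_lit 1016) (nat_lit 81) (.e (nat_lit 1669) (nat_lit 116) (.e (nat_lit 401454) (nat_lit 12) (.e (nat_lit 475207) (nat_lit 41) (.e (nat_lit 712755) (nat_lit 30) (.e (nat_lit 450563) (nat_lit 0) (.e (nat_lit 5814) (nat_lit 320) .nil))))))) (.g (nat_lit 5) .nil .nil))) 
(.lf (nat_lit 13874) (.g (nat_lit 3371) (.e (nat_lit 1019) (nat_lit 81) (.e (nat_lit 1234) (nat_lit 91) (.e (nat_lit 90170) (nat_lit 13) (.e (nat_lit 172106) (nat_lit 10) (.e (nat_lit 434231) (nat_lit 23) .nil))))) .nil)))) (.nd (nat_lit 4) (.nd (nat_lit 5) 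
(.lf (nat_lit 13834) (.g (nat_lit 2481) (.e (nat_lit 1016) (nat_lit 81) (.e (nat_lit 1586) (nat_lit 111) (.e (nat_lit 360451) (nat_lit 0) (.e (nat_lit 7265) (nat_lit 384) (.e (nat_lit 57427) (nat_lit 15) (.e (nat_lit 360451) (nat_lit 0) (.e (nat_lit 7122) (nat_lit 382) .nil))))))) (.g (nat_lit 5) .nil .nil))) 
(.lf (nat_lit 13866) (.g (nat_lit 1496) (.e (nat_lit 1016) (nat_lit 81) (.e (nat_lit 7263) (nat_lit 384) (.e (nat_lit 57424) (nat_lit 14) (.e (nat_lit 352324) (nat_lit 26) (.e (nat_lit 147494) (nat_lit 11) .nil))))) .nil))) (.nd (nat_lit 5) 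
(.lf (nat_lit 13850) (.g (nat_lit 3915) (.e (nat_lit 1016) (nat_lit 81) (.e (nat_lit 1669) (nat_lit 116) (.e (nat_lit 401457) (nat_lit 13) (.e (nat_lit 483413) (nat_lit 27) (.e (nat_lit 401446) (nat_lit 10) (.e (nat_lit 434208) (nat_lit 18) (.e (nat_lit 5982) (nat_lit 326) .nil))))))) (.g (nat_lit 7) .nil .nil))) 
(.lf (nat_lit 13882) (.g (nat_lit 1250) (.e (nat_lit 1019) (nat_lit 81) (.e (nat_lit 1234) (nat_lit 91) (.e (nat_lit 90185) (nat_lit 17) (.e (nat_lit 237605) (nat_lit 9) .nil)))) .nil))))) (.nd (nat_lit 3) (.nd (nat_lit 4) (.nd (nat_lit 5) 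
(.lf (nat_lit 13830) (.g (nat_lit 1107) (.e (nat_lit 1016) (nat_lit 81) (.e (nat_lit 1559) (nat_lit 110) (.e (nat_lit 352277) (nat_lit 11) (.e (nat_lit 426344) (nat_lit 14) (.e (nat_lit 491558) (nat_lit 10) .nil))))) .nil)) 
(.lf (nat_lit 13862) (.g (nat_lit 2246) (.e (nat_lit 1016) (nat_lit 81) (.e (nat_lit 1812) (nat_lit 120) (.e (nat_lit 524322) (nat_lit 12) (.e (nat_lit 450588) (nat_lit 10) (.e (nat_lit 573470) (nat_lit 11) (.e (nat_lit 16385) (nat_lit 0) (.e (nat_lit 7497) (nat_lit 402) .nil))))))) (.g (nat_lit 5) .nil .nil)))) (.nd (nat_lit 5) 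
(.lf (nat_lit 13846) (.g (nat_lit 1610) (.e (nat_lit 1016) (nat_lit 81) (.e (nat_lit 1669) (nat_lit 116) (.e (nat_lit 401456) (nat_lit 13) (.e (nat_lit 483413) (nat_lit 27) .nil)))) .nil)) 
(.lf (nat_lit 13878) (.g (nat_lit 3543) (.e (nat_lit 1019) (nat_lit 81) (.e (nat_lit 1234) (nat_lit 91) (.e (nat_lit 90170) (nat_lit 13) (.e (nat_lit 172106) (nat_lit 10) (.e (nat_lit 434231) (nat_lit 23) (.e (nat_lit 532535) (nat_lit 9) (.e (nat_lit 335985) (nat_lit 1) (.e (nat_lit 57785) (nat_lit 239) .nil)))))))) (.g (nat_lit 4) .nil .nil))))) (.nd (nat_lit 4) (.nd (nat_lit 5) 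
(.lf (nat_lit 13838) (.g (nat_lit 3016) (.e (nat_lit 1016) (nat_lit 81) (.e (nat_lit 1669) (nat_lit 116) (.e (nat_lit 401454) (nat_lit 12) (.e (nat_lit 475196) (nat_lit 40) .nil)))) .nil)) 
(.lf (nat_lit 13870) (.g (nat_lit 4106) (.e (nat_lit 1017) (nat_lit 81) (.e (nat_lit 2030) (nat_lit 140) (.e (nat_lit 688177) (nat_lit 16) (.e (nat_lit 65586) (nat_lit 7) (.e (nat_lit 319531) (nat_lit 16) (.e (nat_lit 286759) (nat_lit 12) (.e (nat_lit 385094) (nat_lit 49) (.e (nat_lit 778253) (nat_lit 0) .nil)))))))) (.g (nat_lit 0) .nil .nil)))) (.nd (nat_lit 5) 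
(.lf (nat_lit 13854) (.g (nat_lit 3682) (.e (nat_lit 1016) (nat_lit 81) (.e (nat_lit 1669) (nat_lit 116) (.e (nat_lit 401457) (nat_lit 13) (.e (nat_lit 483413) (nat_lit 27) (.e (nat_lit 401448) (nat_lit 10) (.e (nat_lit 434199) (nat_lit 18) (.e (nat_lit 5984) (nat_lit 326) .nil))))))) (.g (nat_lit 5) .nil .nil))) 
(.lf (nat_lit 13886) (.g (nat_lit 2108) (.e (nat_lit 1019) (nat_lit 81) (.e (nat_lit 2030) (nat_lit 140) (.e (nat_lit 688177) (nat_lit 16) (.e (nat_lit 65586) (nat_lit 7) (.e (nat_lit 319531) (nat_lit 16) (.e (nat_lit 286759) (nat_lit 12) (.e (nat_lit 385092) (nat_lit 49) (.e (nat_lit 778268) (nat_lit 0) .nil)))))))) (.g (nat_lit 4) .nil .nil)))))))) 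
(.nd (nat_lit 1) (.nd (nat_lit 2) (.nd (nat_lit 3) (.nd (nat_lit 4) (.nd (nat_lit 5) 
(.lf (nat_lit 13825) (.g (nat_lit 3210) (.e (nat_lit 1016) (nat_lit 81) (.e (nat_lit 1551) (nat_lit 109) (.e (nat_lit 344117) (nat_lit 21) (.e (nat_lit 516166) (nat_lit 12) (.e (nat_lit 450588) (nat_lit 10) (.e (nat_lit 573475) (nat_lit 12) (.e (nat_lit 57351) (nat_lit 0) (.e (nat_lit 7122) (nat_lit 382) .nil)))))))) (.g (nat_lit 6) .nil .nil))) 
(.lf (nat_lit 13857) (.g (nat_lit 3469) (.e (nat_lit 1016) (nat_lit 81) (.e (nat_lit 1669) (nat_lit 116) (.e (nat_lit 401457) (nat_lit 13) (.e (nat_lit 483413) (nat_lit 27) (.e (nat_lit 401448) (nat_lit 10) (.e (nat_lit 434206) (nat_lit 18) (.e (nat_lit 5982) (nat_lit 326) .nil))))))) (.g (nat_lit 6) .nil .nil)))) (.nd (nat_lit 5) 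
(.lf (nat_lit 13841) (.g (nat_lit 2423) (.e (nat_lit 1016) (nat_lit 81) (.e (nat_lit 1669) (nat_lit 116) (.e (nat_lit 401454) (nat_lit 12) (.e (nat_lit 475198) (nat_lit 40) (.e (nat_lit 704599) (nat_lit 6) .nil))))) .nil)) 
(.lf (nat_lit 13873) (.g (nat_lit 1334) (.e (nat_lit 1018) (nat_lit 81) (.e (nat_lit 1524) (nat_lit 108) (.e (nat_lit 336194) (nat_lit 12) (.e (nat_lit 385063) (nat_lit 25) (.e (nat_lit 524322) (nat_lit 12) (.e (nat_lit 450563) (nat_lit 0) (.e (nat_lit 6745) (nat_lit 365) .nil))))))) (.g (nat_lit 4) .nil .nil))))) (.nd (nat_lit 4) (.nd (nat_lit 5) 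
(.lf (nat_lit 13833) (.g (nat_lit 1154) (.e (nat_lit 1016) (nat_lit 81) (.e (nat_lit 1586) (nat_lit 111) (.e (nat_lit 360451) (nat_lit 0) (.e (nat_lit 7265) (nat_lit 384) .nil)))) .nil)) 
(.lf (nat_lit 13865) (.g (nat_lit 3453) (.e (nat_lit 1016) (nat_lit 81) (.e (nat_lit 1832) (nat_lit 122) (.e (nat_lit 540703) (nat_lit 11) (.e (nat_lit 352315) (nat_lit 23) (.e (nat_lit 98367) (nat_lit 27) (.e (nat_lit 434268) (nat_lit 36) (.e (nat_lit 639005) (nat_lit 13) .nil))))))) (.g (nat_lit 6) .nil .nil)))) (.nd (nat_lit 5) 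
(.lf (nat_lit 13849) (.g (nat_lit 3894) (.e (nat_lit 1016) (nat_lit 81) (.e (nat_lit 1669) (nat_lit 116) (.e (nat_lit 401457) (nat_lit 13) (.e (nat_lit 483413) (nat_lit 27) (.e (nat_lit 401446) (nat_lit 10) (.e (nat_lit 434203) (nat_lit 18) (.e (nat_lit 5984) (nat_lit 326) .nil))))))) (.g (nat_lit 6) .nil .nil))) 
(.lf (nat_lit 13881) (.g (nat_lit 3452) (.e (nat_lit 1019) (nat_lit 81) (.e (nat_lit 1234) (nat_lit 91) (.e (nat_lit 90170) (nat_lit 13) (.e (nat_lit 172106) (nat_lit 10) (.e (nat_lit 434231) (nat_lit 23) (.e (nat_lit 532563) (nat_lit 15) (.e (nat_lit 385048) (nat_lit 21) (.e (nat_lit 6871) (nat_lit 371) .nil)))))))) (.g (nat_lit 4) .nil .nil)))))) 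
(.nd (nat_lit 3) (.nd (nat_lit 4) (.nd (nat_lit 5) 
(.lf (nat_lit 13829) (.g (nat_lit 1166) (.e (nat_lit 1016) (nat_lit 81) (.e (nat_lit 1559) (nat_lit 110) (.e (nat_lit 352277) (nat_lit 11) (.e (nat_lit 426343) (nat_lit 14) (.e (nat_lit 491560) (nat_lit 10) .nil))))) .nil)) 
(.lf (nat_lit 13861) (.g (nat_lit 2547) (.e (nat_lit 1016) (nat_lit 81) (.e (nat_lit 1812) (nat_lit 120) (.e (nat_lit 524322) (nat_lit 12) (.e (nat_lit 450588) (nat_lit 10) (.e (nat_lit 573470) (nat_lit 11) (.e (nat_lit 16385) (nat_lit 0) (.e (nat_lit 7496) (nat_lit 402) .nil))))))) (.g (nat_lit 0) .nil .nil)))) (.nd (nat_lit 5) 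
(.lf (nat_lit 13845) (.g (nat_lit 1862) (.e (nat_lit 1016) (nat_lit 81) (.e (nat_lit 1669) (nat_lit 116) (.e (nat_lit 401454) (nat_lit 12) (.e (nat_lit 475210) (nat_lit 41) .nil)))) .nil)) 
(.lf (nat_lit 13877) (.g (nat_lit 3503) (.e (nat_lit 1019) (nat_lit 81) (.e (nat_lit 1234) (nat_lit 91) (.e (nat_lit 90170) (nat_lit 13) (.e (nat_lit 172106) (nat_lit 10) (.e (nat_lit 434231) (nat_lit 23) (.e (nat_lit 532535) (nat_lit 9) (.e (nat_lit 335937) (nat_lit 0) (.e (nat_lit 992) (nat_lit 81) (.e (nat_lit 4780) (nat_lit 281) .nil))))))))) (.g (nat_lit 4) .nil .nil))))) 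
(.nd (nat_lit 4) (.nd (nat_lit 5) 
(.lf (nat_lit 13837) (.g (nat_lit 2662) (.e (nat_lit 1016) (nat_lit 81) (.e (nat_lit 1669) (nat_lit 116) (.e (nat_lit 401454) (nat_lit 12) (.e (nat_lit 475195) (nat_lit 40) .nil)))) .nil)) 
(.lf (nat_lit 13869) (.g (nat_lit 3371) (.e (nat_lit 1017) (nat_lit 81) (.e (nat_lit 1234) (nat_lit 91) (.e (nat_lit 90170) (nat_lit 13) (.e (nat_lit 172106) (nat_lit 10) (.e (nat_lit 434231) (nat_lit 23) .nil))))) .nil))) (.nd (nat_lit 5) 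
(.lf (nat_lit 13853) (.g (nat_lit 3666) (.e (nat_lit 1016) (nat_lit 81) (.e (nat_lit 1669) (nat_lit 116) (.e (nat_lit 401457) (nat_lit 13) (.e (nat_lit 483413) (nat_lit 27) (.e (nat_lit 401448) (nat_lit 10) (.e (nat_lit 434199) (nat_lit 18) (.e (nat_lit 5982) (nat_lit 326) .nil))))))) (.g (nat_lit 5) .nil .nil))) 
(.lf (nat_lit 13885) (.g (nat_lit 2042) (.e (nat_lit 1019) (nat_lit 81) (.e (nat_lit 2030) (nat_lit 140) (.e (nat_lit 688177) (nat_lit 16) (.e (nat_lit 65586) (nat_lit 7) (.e (nat_lit 319531) (nat_lit 16) .nil))))) .nil)))))) (.nd (nat_lit 2) (.nd (nat_lit 3) (.nd (nat_lit 4) (.nd (nat_lit 5) 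
(.lf (nat_lit 13827) (.g (nat_lit 862) (.e (nat_lit 1016) (nat_lit 81) (.e (nat_lit 1559) (nat_lit 110) (.e (nat_lit 352277) (nat_lit 11) (.e (nat_lit 426342) (nat_lit 14) (.e (nat_lit 491558) (nat_lit 10) .nil))))) .nil)) 
(.lf (nat_lit 13859) (.g (nat_lit 2451) (.e (nat_lit 1016) (nat_lit 81) (.e (nat_lit 1812) (nat_lit 120) (.e (nat_lit 524322) (nat_lit 12) (.e (nat_lit 450580) (nat_lit 5) (.e (nat_lit 532523) (nat_lit 7) (.e (nat_lit 319504) (nat_lit 10) (.e (nat_lit 7936) (nat_lit 298) .nil))))))) (.g (nat_lit 6) .nil .nil)))) (.nd (nat_lit 5) 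
(.lf (nat_lit 13843) (.g (nat_lit 2450) (.e (nat_lit 1016) (nat_lit 81) (.e (nat_lit 1669) (nat_lit 116) (.e (nat_lit 401454) (nat_lit 12) (.e (nat_lit 475208) (nat_lit 41) .nil)))) .nil)) 
(.lf (nat_lit 13875) (.g (nat_lit 3407) (.e (nat_lit 1019) (nat_lit 81) (.e (nat_lit 1234) (nat_lit 91) (.e (nat_lit 90170) (nat_lit 13) (.e (nat_lit 172106) (nat_lit 10) (.e (nat_lit 434231) (nat_lit 23) (.e (nat_lit 532535) (nat_lit 9) (.e (nat_lit 335920) (nat_lit 0) (.e (nat_lit 988) (nat_lit 81) (.e (nat_lit 4780) (nat_lit 281) .nil))))))))) (.g (nat_lit 4) .nil .nil))))) 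
(.nd (nat_lit 4) (.nd (nat_lit 5) 
(.lf (nat_lit 13835) (.g (nat_lit 2085) (.e (nat_lit 1016) (nat_lit 81) (.e (nat_lit 1589) (nat_lit 111) (.e (nat_lit 360451) (nat_lit 0) (.e (nat_lit 7265) (nat_lit 384) (.e (nat_lit 57427) (nat_lit 15) .nil))))) .nil)) 
(.lf (nat_lit 13867) (.g (nat_lit 6783) (.e (nat_lit 1016) (nat_lit 81) (.e (nat_lit 7454) (nat_lit 396) (.e (nat_lit 1220) (nat_lit 90) (.e (nat_lit 81956) (nat_lit 23) (.e (nat_lit 98333) (nat_lit 18) (.e (nat_lit 164182) (nat_lit 154) (.e (nat_lit 57411) (nat_lit 12) (.e (nat_lit 335878) (nat_lit 0) .nil)))))))) (.g (nat_lit 0) .nil .nil)))) (.nd (nat_lit 5) 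
(.lf (nat_lit 13851) (.g (nat_lit 4754) (.e (nat_lit 1016) (nat_lit 81) (.e (nat_lit 1669) (nat_lit 116) (.e (nat_lit 401457) (nat_lit 13) (.e (nat_lit 483413) (nat_lit 27) (.e (nat_lit 401447) (nat_lit 10) (.e (nat_lit 434203) (nat_lit 18) (.e (nat_lit 5982) (nat_lit 326) .nil))))))) (.g (nat_lit 7) .nil .nil))) 
(.lf (nat_lit 13883) (.g (nat_lit 1743) (.e (nat_lit 1019) (nat_lit 81) (.e (nat_lit 1663) (nat_lit 115) (.e (nat_lit 393260) (nat_lit 21) (.e (nat_lit 409648) (nat_lit 18) (.e (nat_lit 303151) (nat_lit 27) .nil))))) .nil))))) (.nd (nat_lit 3) (.nd (nat_lit 4) (.nd (nat_lit 5) 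
(.lf (nat_lit 13831) (.g (nat_lit 2290) (.e (nat_lit 1016) (nat_lit 81) (.e (nat_lit 1572) (nat_lit 110) (.e (nat_lit 352309) (nat_lit 21) (.e (nat_lit 57873) (nat_lit 264) (.e (nat_lit 1221) (nat_lit 90) .nil))))) .nil)) 
(.lf (nat_lit 13863) (.g (nat_lit 2635) (.e (nat_lit 1016) (nat_lit 81) (.e (nat_lit 1812) (nat_lit 120) (.e (nat_lit 524322) (nat_lit 12) (.e (nat_lit 450588) (nat_lit 10) (.e (nat_lit 573470) (nat_lit 11) (.e (nat_lit 16387) (nat_lit 0) (.e (nat_lit 7490) (nat_lit 402) .nil))))))) (.g (nat_lit 7) .nil .nil)))) (.nd (nat_lit 5) 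
(.lf (nat_lit 13847) (.g (nat_lit 2088) (.e (nat_lit 1016) (nat_lit 81) (.e (nat_lit 1669) (nat_lit 116) (.e (nat_lit 401456) (nat_lit 13) (.e (nat_lit 483413) (nat_lit 27) (.e (nat_lit 401447) (nat_lit 10) .nil))))) .nil)) 
(.lf (nat_lit 13879) (.g (nat_lit 3532) (.e (nat_lit 1019) (nat_lit 81) (.e (nat_lit 1234) (nat_lit 91) (.e (nat_lit 90170) (nat_lit 13) (.e (nat_lit 172106) (nat_lit 10) (.e (nat_lit 434231) (nat_lit 23) (.e (nat_lit 532535) (nat_lit 9) (.e (nat_lit 335992) (nat_lit 1) (.e (nat_lit 57780) (nat_lit 239) .nil)))))))) (.g (nat_lit 4) .nil .nil))))) (.nd (nat_lit 4) (.nd (nat_lit 5) 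
(.lf (nat_lit 13839) (.g (nat_lit 2066) (.e (nat_lit 1016) (nat_lit 81) (.e (nat_lit 1669) (nat_lit 116) (.e (nat_lit 401454) (nat_lit 12) (.e (nat_lit 475197) (nat_lit 40) .nil)))) .nil)) 
(.lf (nat_lit 13871) (.g (nat_lit 2697) (.e (nat_lit 1017) (nat_lit 81) (.e (nat_lit 6308) (nat_lit 337) (.e (nat_lit 1182) (nat_lit 87) (.e (nat_lit 57479) (nat_lit 28) (.e (nat_lit 557109) (nat_lit 15) (.e (nat_lit 196352) (nat_lit 18) (.e (nat_lit 393217) (nat_lit 0) .nil))))))) (.g (nat_lit 5) .nil .nil)))) (.nd (nat_lit 5) 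
(.lf (nat_lit 13855) (.g (nat_lit 4167) (.e (nat_lit 1016) (nat_lit 81) (.e (nat_lit 1669) (nat_lit 116) (.e (nat_lit 401457) (nat_lit 13) (.e (nat_lit 483413) (nat_lit 27) (.e (nat_lit 401448) (nat_lit 10) (.e (nat_lit 434200) (nat_lit 18) (.e (nat_lit 5982) (nat_lit 326) .nil))))))) (.g (nat_lit 0) .nil .nil))) 
(.lf (nat_lit 13887) (.g (nat_lit 5254) (.e (nat_lit 1019) (nat_lit 81) (.e (nat_lit 2030) (nat_lit 140) (.e (nat_lit 688177) (nat_lit 16) (.e (nat_lit 65586) (nat_lit 7) (.e (nat_lit 319531) (nat_lit 16) (.e (nat_lit 286759) (nat_lit 12) (.e (nat_lit 385094) (nat_lit 49) (.e (nat_lit 778271) (nat_lit 0) .nil)))))))) (.g (nat_lit 7) .nil .nil)))))))))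

noncomputable def tv192 : DT := (.nd (nat_lit 0) (.nd (nat_lit 1) (.nd (nat_lit 2) (.nd (nat_lit 3) (.nd (nat_lit 4) (.nd (nat_lit 5) 
(.lf (nat_lit 13888) (.g (nat_lit 3850) (.e (nat_lit 1019) (nat_lit 81) (.e (nat_lit 2030) (nat_lit 140) (.e (nat_lit 688177) (nat_lit 16) (.e (nat_lit 65586) (nat_lit 7) (.e (nat_lit 319531) (nat_lit 16) (.e (nat_lit 286759) (nat_lit 12) (.e (nat_lit 385098) (nat_lit 49) (.e (nat_lit 778266) (nat_lit 0) .nil)))))))) (.g (nat_lit 6) .nil .nil))) 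
(.lf (nat_lit 13920) (.g (nat_lit 1904) (.e (nat_lit 1023) (nat_lit 81) (.e (nat_lit 5195) (nat_lit 294) (.e (nat_lit 57407) (nat_lit 12) (.e (nat_lit 336454) (nat_lit 34) (.e (nat_lit 483385) (nat_lit 23) (.e (nat_lit 336325) (nat_lit 18) (.e (nat_lit 204821) (nat_lit 17) .nil))))))) (.g (nat_lit 4) .nil .nil)))) (.nd (nat_lit 5) 
(.lf (nat_lit 13904) (.g (nat_lit 489) (.e (nat_lit 1023) (nat_lit 81) (.e (nat_lit 1234) (nat_lit 91) (.e (nat_lit 98048) (nat_lit 6) .nil))) .nil)) 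
(.lf (nat_lit 13936) (.g (nat_lit 4608) (.e (nat_lit 1023) (nat_lit 81) (.e (nat_lit 5905) (nat_lit 320) (.e (nat_lit 1170) (nat_lit 87) (.e (nat_lit 57479) (nat_lit 28) (.e (nat_lit 557101) (nat_lit 13) (.e (nat_lit 172097) (nat_lit 9) (.e (nat_lit 426125) (nat_lit 2) (.e (nat_lit 196666) (nat_lit 13) (.e (nat_lit 65546) (nat_lit 0) .nil))))))))) (.g (nat_lit 9) .nil .nil))))) 
(.nd (nat_lit 4) (.nd (nat_lit 5) 
(.lf (nat_lit 13896) (.g (nat_lit 3182) (.e (nat_lit 1021) (nat_lit 81) (.e (nat_lit 1781) (nat_lit 119) (.e (nat_lit 516151) (nat_lit 9) (.e (nat_lit 426211) (nat_lit 9) (.e (nat_lit 426125) (nat_lit 2) .nil))))) .nil)) 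
(.lf (nat_lit 13928) (.g (nat_lit 3364) (.e (nat_lit 1023) (nat_lit 81) (.e (nat_lit 5589) (nat_lit 310) (.e (nat_lit 163875) (nat_lit 3) (.e (nat_lit 204861) (nat_lit 26) (.e (nat_lit 336213) (nat_lit 13) (.e (nat_lit 393225) (nat_lit 9) (.e (nat_lit 335917) (nat_lit 0) .nil))))))) (.g (nat_lit 7) .nil .nil)))) (.nd (nat_lit 5) 
(.lf (nat_lit 13912) (.g (nat_lit 2685) (.e (nat_lit 1023) (nat_lit 81) (.e (nat_lit 2030) (nat_lit 140) (.e (nat_lit 688177) (nat_lit 16) (.e (nat_lit 65586) (nat_lit 7) (.e (nat_lit 319531) (nat_lit 16) (.e (nat_lit 286748) (nat_lit 9) (.e (nat_lit 336295) (nat_lit 15) (.e (nat_lit 3629) (nat_lit 227) (.e (nat_lit 778297) (nat_lit 0) .nil))))))))) (.g (nat_lit 5) .nil .nil))) 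
(.lf (nat_lit 13944) (.g (nat_lit 4039) (.e (nat_lit 1023) (nat_lit 81) (.e (nat_lit 5905) (nat_lit 320) (.e (nat_lit 1171) (nat_lit 87) (.e (nat_lit 57476) (nat_lit 28) (.e (nat_lit 557097) (nat_lit 13) (.e (nat_lit 172097) (nat_lit 9) (.e (nat_lit 426125) (nat_lit 2) (.e (nat_lit 196666) (nat_lit 13) (.e (nat_lit 65546) (nat_lit 0) .nil))))))))) (.g (nat_lit 9) .nil .nil)))))) 
(.nd (nat_lit 3) (.nd (nat_lit 4) (.nd (nat_lit 5) 
(.lf (nat_lit 13892) (.g (nat_lit 3389) (.e (nat_lit 1020) (nat_lit 81) (.e (nat_lit 2024) (nat_lit 140) (.e (nat_lit 688177) (nat_lit 16) (.e (nat_lit 65586) (nat_lit 7) (.e (nat_lit 319531) (nat_lit 16) (.e (nat_lit 286759) (nat_lit 12) (.e (nat_lit 385094) (nat_lit 49) (.e (nat_lit 778253) (nat_lit 0) .nil)))))))) (.g (nat_lit 7) .nil .nil))) 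
(.lf (nat_lit 13924) (.g (nat_lit 2647) (.e (nat_lit 1023) (nat_lit 81) (.e (nat_lit 5195) (nat_lit 294) (.e (nat_lit 57435) (nat_lit 17) (.e (nat_lit 376842) (nat_lit 11) (.e (nat_lit 426306) (nat_lit 12) (.e (nat_lit 475214) (nat_lit 42) (.e (nat_lit 728832) (nat_lit 20) .nil))))))) (.g (nat_lit 6) .nil .nil)))) (.nd (nat_lit 5) 
(.lf (nat_lit 13908) (.g (nat_lit 3453) (.e (nat_lit 1023) (nat_lit 81) (.e (nat_lit 1960) (nat_lit 134) (.e (nat_lit 638998) (nat_lit 8) (.e (nat_lit 172067) (nat_lit 3) (.e (nat_lit 204866) (nat_lit 28) (.e (nat_lit 352321) (nat_lit 25) (.e (nat_lit 139273) (nat_lit 0) .nil))))))) (.g (nat_lit 6) .nil .nil))) 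
(.lf (nat_lit 13940) (.g (nat_lit 3842) (.e (nat_lit 1023) (nat_lit 81) (.e (nat_lit 5905) (nat_lit 320) (.e (nat_lit 1170) (nat_lit 87) (.e (nat_lit 57480) (nat_lit 28) (.e (nat_lit 557107) (nat_lit 15) (.e (nat_lit 188447) (nat_lit 22) (.e (nat_lit 196666) (nat_lit 13) (.e (nat_lit 65546) (nat_lit 0) .nil)))))))) (.g (nat_lit 8) .nil .nil))))) (.nd (nat_lit 4) (.nd (nat_lit 5) 
(.lf (nat_lit 13900) (.g (nat_lit 2088) (.e (nat_lit 1021) (nat_lit 81) (.e (nat_lit 7270) (nat_lit 385) (.e (nat_lit 122919) (nat_lit 15) (.e (nat_lit 368384) (nat_lit 24) .nil)))) .nil)) 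
(.lf (nat_lit 13932) (.g (nat_lit 3257) (.e (nat_lit 1023) (nat_lit 81) (.e (nat_lit 5905) (nat_lit 320) (.e (nat_lit 1170) (nat_lit 87) (.e (nat_lit 57477) (nat_lit 28) (.e (nat_lit 557107) (nat_lit 15) (.e (nat_lit 188447) (nat_lit 22) (.e (nat_lit 196666) (nat_lit 13) (.e (nat_lit 65546) (nat_lit 0) .nil)))))))) (.g (nat_lit 8) .nil .nil)))) (.nd (nat_lit 5) 
(.lf (nat_lit 13916) (.g (nat_lit 4387) (.e (nat_lit 1023) (nat_lit 81) (.e (nat_lit 2281) (nat_lit 150) (.e (nat_lit 770069) (nat_lit 7) (.e (nat_lit 57479) (nat_lit 28) (.e (nat_lit 557105) (nat_lit 14) (.e (nat_lit 180252) (nat_lit 10) (.e (nat_lit 573489) (nat_lit 14) (.e (nat_lit 73743) (nat_lit 1) (.e (nat_lit 499991) (nat_lit 14) .nil))))))))) (.g (nat_lit 8) .nil .nil))) 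
(.lf (nat_lit 13948) (.g (nat_lit 3392) (.e (nat_lit 1023) (nat_lit 81) (.e (nat_lit 5905) (nat_lit 320) (.e (nat_lit 1171) (nat_lit 87) (.e (nat_lit 57476) (nat_lit 28) (.e (nat_lit 557108) (nat_lit 15) (.e (nat_lit 188449) (nat_lit 22) (.e (nat_lit 196666) (nat_lit 13) (.e (nat_lit 65546) (nat_lit 0) .nil)))))))) (.g (nat_lit 8) .nil .nil))))))) 
(.nd (nat_lit 2) (.nd (nat_lit 3) (.nd (nat_lit 4) (.nd (nat_lit 5) 
(.lf (nat_lit 13890) (.g (nat_lit 1627) (.e (nat_lit 1019) (nat_lit 81) (.e (nat_lit 5195) (nat_lit 294) (.e (nat_lit 57432) (nat_lit 16) (.e (nat_lit 368676) (nat_lit 21) (.e (nat_lit 516174) (nat_lit 14) (.e (nat_lit 474880) (nat_lit 3) (.e (nat_lit 98311) (nat_lit 0) .nil))))))) (.g (nat_lit 5) .nil .nil))) 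
(.lf (nat_lit 13922) (.g (nat_lit 1430) (.e (nat_lit 1023) (nat_lit 81) (.e (nat_lit 5195) (nat_lit 294) (.e (nat_lit 57411) (nat_lit 12) (.e (nat_lit 336211) (nat_lit 13) (.e (nat_lit 393268) (nat_lit 23) .nil))))) .nil))) (.nd (nat_lit 5) 
(.lf (nat_lit 13906) (.g (nat_lit 2099) (.e (nat_lit 1023) (nat_lit 81) (.e (nat_lit 1663) (nat_lit 115) (.e (nat_lit 393260) (nat_lit 21) (.e (nat_lit 409649) (nat_lit 18) (.e (nat_lit 303151) (nat_lit 27) .nil))))) .nil)) 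
(.lf (nat_lit 13938) (.g (nat_lit 4596) (.e (nat_lit 1023) (nat_lit 81) (.e (nat_lit 5905) (nat_lit 320) (.e (nat_lit 1170) (nat_lit 87) (.e (nat_lit 57480) (nat_lit 28) (.e (nat_lit 557098) (nat_lit 13) (.e (nat_lit 172097) (nat_lit 9) (.e (nat_lit 426125) (nat_lit 2) (.e (nat_lit 196666) (nat_lit 13) (.e (nat_lit 65546) (nat_lit 0) .nil))))))))) (.g (nat_lit 9) .nil .nil))))) 
(.nd (nat_lit 4) (.nd (nat_lit 5) 
(.lf (nat_lit 13898) (.g (nat_lit 1865) (.e (nat_lit 1021) (nat_lit 81) (.e (nat_lit 1855) (nat_lit 124) (.e (nat_lit 557100) (nat_lit 13) (.e (nat_lit 172106) (nat_lit 10) (.e (nat_lit 434231) (nat_lit 23) .nil))))) .nil)) 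
(.lf (nat_lit 13930) (.g (nat_lit 3792) (.e (nat_lit 1023) (nat_lit 81) (.e (nat_lit 5905) (nat_lit 320) (.e (nat_lit 1170) (nat_lit 87) (.e (nat_lit 57477) (nat_lit 28) (.e (nat_lit 557097) (nat_lit 13) (.e (nat_lit 172097) (nat_lit 9) (.e (nat_lit 426125) (nat_lit 2) (.e (nat_lit 196666) (nat_lit 13) (.e (nat_lit 65546) (nat_lit 0) .nil))))))))) (.g (nat_lit 9) .nil .nil)))) (.nd (nat_lit 5) 
(.lf (nat_lit 13914) (.g (nat_lit 5202) (.e (nat_lit 1023) (nat_lit 81) (.e (nat_lit 2281) (nat_lit 150) (.e (nat_lit 770069) (nat_lit 7) (.e (nat_lit 57479) (nat_lit 28) (.e (nat_lit 557105) (nat_lit 14) (.e (nat_lit 180252) (nat_lit 10) (.e (nat_lit 573487) (nat_lit 14) (.e (nat_lit 73742) (nat_lit 1) (.e (nat_lit 499991) (nat_lit 14) .nil))))))))) (.g (nat_lit 7) .nil .nil))) 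
(.lf (nat_lit 13946) (.g (nat_lit 3363) (.e (nat_lit 1023) (nat_lit 81) (.e (nat_lit 5905) (nat_lit 320) (.e (nat_lit 1171) (nat_lit 87) (.e (nat_lit 57476) (nat_lit 28) (.e (nat_lit 557107) (nat_lit 15) (.e (nat_lit 188447) (nat_lit 22) (.e (nat_lit 196666) (nat_lit 13) (.e (nat_lit 65546) (nat_lit 0) .nil)))))))) (.g (nat_lit 8) .nil .nil)))))) (.nd (nat_lit 3) (.nd (nat_lit 4) (.nd (nat_lit 5) 
(.lf (nat_lit 13894) (.g (nat_lit 1571) (.e (nat_lit 1021) (nat_lit 81) (.e (nat_lit 1399) (nat_lit 106) (.e (nat_lit 319531) (nat_lit 16) (.e (nat_lit 286761) (nat_lit 13) (.e (nat_lit 393270) (nat_lit 23) .nil))))) .nil)) 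
(.lf (nat_lit 13926) (.g (nat_lit 906) (.e (nat_lit 1023) (nat_lit 81) (.e (nat_lit 5195) (nat_lit 294) (.e (nat_lit 57448) (nat_lit 19) (.e (nat_lit 393229) (nat_lit 9) .nil)))) .nil))) (.nd (nat_lit 5) 
(.lf (nat_lit 13910) (.g (nat_lit 1794) (.e (nat_lit 1023) (nat_lit 81) (.e (nat_lit 2030) (nat_lit 140) (.e (nat_lit 688177) (nat_lit 16) (.e (nat_lit 65586) (nat_lit 7) (.e (nat_lit 319531) (nat_lit 16) .nil))))) .nil)) 
(.lf (nat_lit 13942) (.g (nat_lit 4129) (.e (nat_lit 1023) (nat_lit 81) (.e (nat_lit 5905) (nat_lit 320) (.e (nat_lit 1170) (nat_lit 87) (.e (nat_lit 57480) (nat_lit 28) (.e (nat_lit 557109) (nat_lit 15) (.e (nat_lit 188449) (nat_lit 22) (.e (nat_lit 196666) (nat_lit 13) (.e (nat_lit 65546) (nat_lit 0) .nil)))))))) (.g (nat_lit 8) .nil .nil))))) (.nd (nat_lit 4) (.nd (nat_lit 5) 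
(.lf (nat_lit 13902) (.g (nat_lit 2176) (.e (nat_lit 1022) (nat_lit 81) (.e (nat_lit 2281) (nat_lit 150) (.e (nat_lit 770072) (nat_lit 8) (.e (nat_lit 65586) (nat_lit 7) (.e (nat_lit 319533) (nat_lit 16) (.e (nat_lit 286753) (nat_lit 10) (.e (nat_lit 344160) (nat_lit 37) (.e (nat_lit 647190) (nat_lit 9) .nil)))))))) (.g (nat_lit 4) .nil .nil))) 
(.lf (nat_lit 13934) (.g (nat_lit 3252) (.e (nat_lit 1023) (nat_lit 81) (.e (nat_lit 5905) (nat_lit 320) (.e (nat_lit 1170) (nat_lit 87) (.e (nat_lit 57477) (nat_lit 28) (.e (nat_lit 557108) (nat_lit 15) (.e (nat_lit 188449) (nat_lit 22) (.e (nat_lit 196666) (nat_lit 13) (.e (nat_lit 65546) (nat_lit 0) .nil)))))))) (.g (nat_lit 8) .nil .nil)))) (.nd (nat_lit 5) 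
(.lf (nat_lit 13918) (.g (nat_lit 2925) (.e (nat_lit 1023) (nat_lit 81) (.e (nat_lit 5195) (nat_lit 294) (.e (nat_lit 57379) (nat_lit 3) (.e (nat_lit 98313) (nat_lit 9) (.e (nat_lit 336027) (nat_lit 3) (.e (nat_lit 98338) (nat_lit 19) (.e (nat_lit 213013) (nat_lit 9) (.e (nat_lit 2684) (nat_lit 168) (.e (nat_lit 204821) (nat_lit 17) .nil))))))))) (.g (nat_lit 5) .nil .nil))) 
(.lf (nat_lit 13950) (.g (nat_lit 4187) (.e (nat_lit 1023) (nat_lit 81) (.e (nat_lit 5905) (nat_lit 320) (.e (nat_lit 1171) (nat_lit 87) (.e (nat_lit 57478) (nat_lit 28) (.e (nat_lit 557098) (nat_lit 13) (.e (nat_lit 172097) (nat_lit 9) (.e (nat_lit 426125) (nat_lit 2) (.e (nat_lit 196666) (nat_lit 13) (.e (nat_lit 65546) (nat_lit 0) .nil))))))))) (.g (nat_lit 9) .nil .nil)))))))) 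
(.nd (nat_lit 1) (.nd (nat_lit 2) (.nd (nat_lit 3) (.nd (nat_lit 4) (.nd (nat_lit 5) 
(.lf (nat_lit 13889) (.g (nat_lit 1525) (.e (nat_lit 1019) (nat_lit 81) (.e (nat_lit 5195) (nat_lit 294) (.e (nat_lit 57430) (nat_lit 16) (.e (nat_lit 368676) (nat_lit 21) (.e (nat_lit 516174) (nat_lit 14) (.e (nat_lit 474880) (nat_lit 3) (.e (nat_lit 98311) (nat_lit 0) .nil))))))) (.g (nat_lit 5) .nil .nil))) 
(.lf (nat_lit 13921) (.g (nat_lit 2077) (.e (nat_lit 1023) (nat_lit 81) (.e (nat_lit 5195) (nat_lit 294) (.e (nat_lit 57410) (nat_lit 12) (.e (nat_lit 336211) (nat_lit 13) (.e (nat_lit 393291) (nat_lit 26) (.e (nat_lit 475214) (nat_lit 42) (.e (nat_lit 728832) (nat_lit 20) .nil))))))) (.g (nat_lit 6) .nil .nil)))) (.nd (nat_lit 5) 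
(.lf (nat_lit 13905) (.g (nat_lit 3371) (.e (nat_lit 1023) (nat_lit 81) (.e (nat_lit 1234) (nat_lit 91) (.e (nat_lit 90170) (nat_lit 13) (.e (nat_lit 172106) (nat_lit 10) (.e (nat_lit 434231) (nat_lit 23) .nil))))) .nil)) 
(.lf (nat_lit 13937) (.g (nat_lit 5115) (.e (nat_lit 1023) (nat_lit 81) (.e (nat_lit 5905) (nat_lit 320) (.e (nat_lit 1170) (nat_lit 87) (.e (nat_lit 57479) (nat_lit 28) (.e (nat_lit 557101) (nat_lit 13) (.e (nat_lit 172097) (nat_lit 9) (.e (nat_lit 426125) (nat_lit 2) (.e (nat_lit 196666) (nat_lit 13) (.e (nat_lit 65550) (nat_lit 0) .nil))))))))) (.g (nat_lit 8) .nil .nil))))) 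
(.nd (nat_lit 4) (.nd (nat_lit 5) 
(.lf (nat_lit 13897) (.g (nat_lit 4332) (.e (nat_lit 1021) (nat_lit 81) (.e (nat_lit 1788) (nat_lit 119) (.e (nat_lit 516151) (nat_lit 9) (.e (nat_lit 426211) (nat_lit 9) (.e (nat_lit 426125) (nat_lit 2) .nil))))) .nil)) 
(.lf (nat_lit 13929) (.g (nat_lit 4359) (.e (nat_lit 1023) (nat_lit 81) (.e (nat_lit 5589) (nat_lit 310) (.e (nat_lit 163875) (nat_lit 3) (.e (nat_lit 204862) (nat_lit 27) (.e (nat_lit 344117) (nat_lit 21) (.e (nat_lit 516130) (nat_lit 3) (.e (nat_lit 221215) (nat_lit 23) (.e (nat_lit 204821) (nat_lit 17) .nil)))))))) (.g (nat_lit 8) .nil .nil)))) (.nd (nat_lit 5) 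
(.lf (nat_lit 13913) (.g (nat_lit 1417) (.e (nat_lit 1023) (nat_lit 81) (.e (nat_lit 2270) (nat_lit 149) (.e (nat_lit 761867) (nat_lit 5) (.e (nat_lit 1656) (nat_lit 115) (.e (nat_lit 401152) (nat_lit 11) (.e (nat_lit 352321) (nat_lit 25) (.e (nat_lit 139273) (nat_lit 0) .nil))))))) (.g (nat_lit 4) .nil .nil))) 
(.lf (nat_lit 13945) (.g (nat_lit 4546) (.e (nat_lit 1023) (nat_lit 81) (.e (nat_lit 5905) (nat_lit 320) (.e (nat_lit 1171) (nat_lit 87) (.e (nat_lit 57476) (nat_lit 28) (.e (nat_lit 557097) (nat_lit 13) (.e (nat_lit 172097) (nat_lit 9) (.e (nat_lit 426125) (nat_lit 2) (.e (nat_lit 196666) (nat_lit 13) (.e (nat_lit 65550) (nat_lit 0) .nil))))))))) (.g (nat_lit 8) .nil .nil)))))) 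
(.nd (nat_lit 3) (.nd (nat_lit 4) (.nd (nat_lit 5) 
(.lf (nat_lit 13893) (.g (nat_lit 3956) (.e (nat_lit 1020) (nat_lit 81) (.e (nat_lit 2030) (nat_lit 140) (.e (nat_lit 688177) (nat_lit 16) (.e (nat_lit 65586) (nat_lit 7) (.e (nat_lit 319531) (nat_lit 16) (.e (nat_lit 286759) (nat_lit 12) (.e (nat_lit 385094) (nat_lit 49) (.e (nat_lit 778253) (nat_lit 0) .nil)))))))) (.g (nat_lit 0) .nil .nil))) 
(.lf (nat_lit 13925) (.g (nat_lit 1218) (.e (nat_lit 1023) (nat_lit 81) (.e (nat_lit 5195) (nat_lit 294) (.e (nat_lit 57445) (nat_lit 19) (.e (nat_lit 401152) (nat_lit 11) .nil)))) .nil))) (.nd (nat_lit 5) 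
(.lf (nat_lit 13909) (.g (nat_lit 2679) (.e (nat_lit 1023) (nat_lit 81) (.e (nat_lit 2030) (nat_lit 140) (.e (nat_lit 688177) (nat_lit 16) (.e (nat_lit 65583) (nat_lit 7) (.e (nat_lit 319530) (nat_lit 16) (.e (nat_lit 286759) (nat_lit 12) (.e (nat_lit 385092) (nat_lit 49) (.e (nat_lit 778297) (nat_lit 0) .nil)))))))) (.g (nat_lit 5) .nil .nil))) 
(.lf (nat_lit 13941) (.g (nat_lit 4183) (.e (nat_lit 1023) (nat_lit 81) (.e (nat_lit 5905) (nat_lit 320) (.e (nat_lit 1170) (nat_lit 87) (.e (nat_lit 57480) (nat_lit 28) (.e (nat_lit 557107) (nat_lit 15) (.e (nat_lit 188447) (nat_lit 22) (.e (nat_lit 196666) (nat_lit 13) (.e (nat_lit 65550) (nat_lit 0) .nil)))))))) (.g (nat_lit 8) .nil .nil))))) (.nd (nat_lit 4) (.nd (nat_lit 5) 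
(.lf (nat_lit 13901) (.g (nat_lit 1952) (.e (nat_lit 1022) (nat_lit 81) (.e (nat_lit 2281) (nat_lit 150) (.e (nat_lit 770072) (nat_lit 8) (.e (nat_lit 65583) (nat_lit 7) (.e (nat_lit 319530) (nat_lit 16) (.e (nat_lit 286751) (nat_lit 10) (.e (nat_lit 344161) (nat_lit 37) (.e (nat_lit 647190) (nat_lit 9) .nil)))))))) (.g (nat_lit 4) .nil .nil))) 
(.lf (nat_lit 13933) (.g (nat_lit 3598) (.e (nat_lit 1023) (nat_lit 81) (.e (nat_lit 5905) (nat_lit 320) (.e (nat_lit 1170) (nat_lit 87) (.e (nat_lit 57477) (nat_lit 28) (.e (nat_lit 557107) (nat_lit 15) (.e (nat_lit 188447) (nat_lit 22) (.e (nat_lit 196666) (nat_lit 13) (.e (nat_lit 65550) (nat_lit 0) .nil)))))))) (.g (nat_lit 8) .nil .nil)))) (.nd (nat_lit 5) 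
(.lf (nat_lit 13917) (.g (nat_lit 2798) (.e (nat_lit 1023) (nat_lit 81) (.e (nat_lit 5195) (nat_lit 294) (.e (nat_lit 57377) (nat_lit 3) (.e (nat_lit 98313) (nat_lit 9) (.e (nat_lit 336027) (nat_lit 3) (.e (nat_lit 98338) (nat_lit 19) (.e (nat_lit 213013) (nat_lit 9) (.e (nat_lit 2684) (nat_lit 168) (.e (nat_lit 204821) (nat_lit 17) .nil))))))))) (.g (nat_lit 6) .nil .nil))) 
(.lf (nat_lit 13949) (.g (nat_lit 3889) (.e (nat_lit 1023) (nat_lit 81) (.e (nat_lit 5905) (nat_lit 320) (.e (nat_lit 1171) (nat_lit 87) (.e (nat_lit 57476) (nat_lit 28) (.e (nat_lit 557108) (nat_lit 15) (.e (nat_lit 188449) (nat_lit 22) (.e (nat_lit 196666) (nat_lit 13) (.e (nat_lit 65550) (nat_lit 0) .nil)))))))) (.g (nat_lit 8) .nil .nil))))))) 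
(.nd (nat_lit 2) (.nd (nat_lit 3) (.nd (nat_lit 4) (.nd (nat_lit 5) 
(.lf (nat_lit 13891) (.g (nat_lit 2139) (.e (nat_lit 1020) (nat_lit 81) (.e (nat_lit 2006) (nat_lit 138) (.e (nat_lit 671759) (nat_lit 3) (.e (nat_lit 57480) (nat_lit 28) (.e (nat_lit 557108) (nat_lit 15) (.e (nat_lit 188452) (nat_lit 23) (.e (nat_lit 204816) (nat_lit 17) (.e (nat_lit 6437) (nat_lit 343) .nil)))))))) (.g (nat_lit 5) .nil .nil))) 
(.lf (nat_lit 13923) (.g (nat_lit 2512) (.e (nat_lit 1023) (nat_lit 81) (.e (nat_lit 5195) (nat_lit 294) (.e (nat_lit 57411) (nat_lit 12) (.e (nat_lit 336211) (nat_lit 13) (.e (nat_lit 393291) (nat_lit 26) (.e (nat_lit 475214) (nat_lit 42) (.e (nat_lit 728832) (nat_lit 20) .nil))))))) (.g (nat_lit 6) .nil .nil)))) (.nd (nat_lit 5) 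
(.lf (nat_lit 13907) (.g (nat_lit 2057) (.e (nat_lit 1023) (nat_lit 81) (.e (nat_lit 1799) (nat_lit 119) (.e (nat_lit 516115) (nat_lit 1) (.e (nat_lit 164398) (nat_lit 256) (.e (nat_lit 57373) (nat_lit 2) .nil))))) .nil)) 
(.lf (nat_lit 13939) (.g (nat_lit 5103) (.e (nat_lit 1023) (nat_lit 81) (.e (nat_lit 5905) (nat_lit 320) (.e (nat_lit 1170) (nat_lit 87) (.e (nat_lit 57480) (nat_lit 28) (.e (nat_lit 557098) (nat_lit 13) (.e (nat_lit 172097) (nat_lit 9) (.e (nat_lit 426125) (nat_lit 2) (.e (nat_lit 196666) (nat_lit 13) (.e (nat_lit 65550) (nat_lit 0) .nil))))))))) (.g (nat_lit 8) .nil .nil))))) 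
(.nd (nat_lit 4) (.nd (nat_lit 5) 
(.lf (nat_lit 13899) (.g (nat_lit 1958) (.e (nat_lit 1021) (nat_lit 81) (.e (nat_lit 5906) (nat_lit 320) (.e (nat_lit 1209) (nat_lit 89) (.e (nat_lit 73782) (nat_lit 32) (.e (nat_lit 3090) (nat_lit 191) .nil))))) .nil)) 
(.lf (nat_lit 13931) (.g (nat_lit 4299) (.e (nat_lit 1023) (nat_lit 81) (.e (nat_lit 5905) (nat_lit 320) (.e (nat_lit 1170) (nat_lit 87) (.e (nat_lit 57477) (nat_lit 28) (.e (nat_lit 557097) (nat_lit 13) (.e (nat_lit 172097) (nat_lit 9) (.e (nat_lit 426125) (nat_lit 2) (.e (nat_lit 196666) (nat_lit 13) (.e (nat_lit 65550) (nat_lit 0) .nil))))))))) (.g (nat_lit 8) .nil .nil)))) (.nd (nat_lit 5) 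
(.lf (nat_lit 13915) (.g (nat_lit 4597) (.e (nat_lit 1023) (nat_lit 81) (.e (nat_lit 2281) (nat_lit 150) (.e (nat_lit 770069) (nat_lit 7) (.e (nat_lit 57479) (nat_lit 28) (.e (nat_lit 557105) (nat_lit 14) (.e (nat_lit 180252) (nat_lit 10) (.e (nat_lit 573489) (nat_lit 14) (.e (nat_lit 73742) (nat_lit 1) (.e (nat_lit 499991) (nat_lit 14) .nil))))))))) (.g (nat_lit 0) .nil .nil))) 
(.lf (nat_lit 13947) (.g (nat_lit 3704) (.e (nat_lit 1023) (nat_lit 81) (.e (nat_lit 5905) (nat_lit 320) (.e (nat_lit 1171) (nat_lit 87) (.e (nat_lit 57476) (nat_lit 28) (.e (nat_lit 557107) (nat_lit 15) (.e (nat_lit 188447) (nat_lit 22) (.e (nat_lit 196666) (nat_lit 13) (.e (nat_lit 65550) (nat_lit 0) .nil)))))))) (.g (nat_lit 8) .nil .nil)))))) (.nd (nat_lit 3) (.nd (nat_lit 4) (.nd (nat_lit 5) 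
(.lf (nat_lit 13895) (.g (nat_lit 1333) (.e (nat_lit 1021) (nat_lit 81) (.e (nat_lit 1524) (nat_lit 108) (.e (nat_lit 336194) (nat_lit 12) (.e (nat_lit 385063) (nat_lit 25) (.e (nat_lit 524322) (nat_lit 12) .nil))))) .nil)) 
(.lf (nat_lit 13927) (.g (nat_lit 1237) (.e (nat_lit 1023) (nat_lit 81) (.e (nat_lit 5296) (nat_lit 298) (.e (nat_lit 1250) (nat_lit 92) (.e (nat_lit 98372) (nat_lit 29) (.e (nat_lit 450579) (nat_lit 5) .nil))))) .nil))) (.nd (nat_lit 5) 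
(.lf (nat_lit 13911) (.g (nat_lit 1871) (.e (nat_lit 1023) (nat_lit 81) (.e (nat_lit 2030) (nat_lit 140) (.e (nat_lit 688177) (nat_lit 16) (.e (nat_lit 65586) (nat_lit 7) (.e (nat_lit 319531) (nat_lit 16) (.e (nat_lit 286748) (nat_lit 9) (.e (nat_lit 336295) (nat_lit 15) (.e (nat_lit 3617) (nat_lit 227) (.e (nat_lit 778295) (nat_lit 0) .nil))))))))) (.g (nat_lit 4) .nil .nil))) 
(.lf (nat_lit 13943) (.g (nat_lit 4597) (.e (nat_lit 1023) (nat_lit 81) (.e (nat_lit 5905) (nat_lit 320) (.e (nat_lit 1170) (nat_lit 87) (.e (nat_lit 57480) (nat_lit 28) (.e (nat_lit 557109) (nat_lit 15) (.e (nat_lit 188449) (nat_lit 22) (.e (nat_lit 196666) (nat_lit 13) (.e (nat_lit 65550) (nat_lit 0) .nil)))))))) (.g (nat_lit 8) .nil .nil))))) (.nd (nat_lit 4) (.nd (nat_lit 5) 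
(.lf (nat_lit 13903) (.g (nat_lit 1928) (.e (nat_lit 1022) (nat_lit 81) (.e (nat_lit 2346) (nat_lit 151) (.e (nat_lit 778362) (nat_lit 9) (.e (nat_lit 232) (nat_lit 21) (.e (nat_lit 336060) (nat_lit 7) .nil))))) .nil)) 
(.lf (nat_lit 13935) (.g (nat_lit 3749) (.e (nat_lit 1023) (nat_lit 81) (.e (nat_lit 5905) (nat_lit 320) (.e (nat_lit 1170) (nat_lit 87) (.e (nat_lit 57477) (nat_lit 28) (.e (nat_lit 557108) (nat_lit 15) (.e (nat_lit 188449) (nat_lit 22) (.e (nat_lit 196666) (nat_lit 13) (.e (nat_lit 65550) (nat_lit 0) .nil)))))))) (.g (nat_lit 8) .nil .nil)))) (.nd (nat_lit 5) 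
(.lf (nat_lit 13919) (.g (nat_lit 2111) (.e (nat_lit 1023) (nat_lit 81) (.e (nat_lit 5195) (nat_lit 294) (.e (nat_lit 57407) (nat_lit 12) (.e (nat_lit 336367) (nat_lit 27) (.e (nat_lit 426540) (nat_lit 29) .nil))))) .nil)) 
(.lf (nat_lit 13951) (.g (nat_lit 4694) (.e (nat_lit 1023) (nat_lit 81) (.e (nat_lit 5905) (nat_lit 320) (.e (nat_lit 1171) (nat_lit 87) (.e (nat_lit 57478) (nat_lit 28) (.e (nat_lit 557098) (nat_lit 13) (.e (nat_lit 172097) (nat_lit 9) (.e (nat_lit 426125) (nat_lit 2) (.e (nat_lit 196666) (nat_lit 13) (.e (nat_lit 65550) (nat_lit 0) .nil))))))))) (.g (nat_lit 8) .nil .nil)))))))))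

noncomputable def tv193 : DT := (.nd (nat_lit 0) (.nd (nat_lit 1) (.nd (nat_lit 2) (.nd (nat_lit 3) (.nd (nat_lit 4) (.nd (nat_lit 5) 
(.lf (nat_lit 13952) (.g (nat_lit 4063) (.e (nat_lit 1023) (nat_lit 81) (.e (nat_lit 5905) (nat_lit 320) (.e (nat_lit 1171) (nat_lit 87) (.e (nat_lit 57478) (nat_lit 28) (.e (nat_lit 557101) (nat_lit 13) (.e (nat_lit 172097) (nat_lit 9) (.e (nat_lit 426125) (nat_lit 2) (.e (nat_lit 196666) (nat_lit 13) (.e (nat_lit 65546) (nat_lit 0) .nil))))))))) (.g (nat_lit 9) .nil .nil))) 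
(.lf (nat_lit 13984) (.g (nat_lit 1252) (.e (nat_lit 1023) (nat_lit 81) (.e (nat_lit 5905) (nat_lit 320) (.e (nat_lit 1221) (nat_lit 90) (.e (nat_lit 81950) (nat_lit 21) .nil)))) .nil))) (.nd (nat_lit 5) 
(.lf (nat_lit 13968) (.g (nat_lit 2199) (.e (nat_lit 1023) (nat_lit 81) (.e (nat_lit 5905) (nat_lit 320) (.e (nat_lit 1181) (nat_lit 87) (.e (nat_lit 57480) (nat_lit 28) (.e (nat_lit 557098) (nat_lit 13) (.e (nat_lit 172097) (nat_lit 9) (.e (nat_lit 426140) (nat_lit 3) (.e (nat_lit 204855) (nat_lit 26) (.e (nat_lit 335925) (nat_lit 0) .nil))))))))) (.g (nat_lit 4) .nil .nil))) 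
(.lf (nat_lit 14000) (.g (nat_lit 4878) (.e (nat_lit 1023) (nat_lit 81) (.e (nat_lit 5906) (nat_lit 320) (.e (nat_lit 1170) (nat_lit 87) (.e (nat_lit 57480) (nat_lit 28) (.e (nat_lit 557098) (nat_lit 13) (.e (nat_lit 172097) (nat_lit 9) (.e (nat_lit 426125) (nat_lit 2) (.e (nat_lit 196666) (nat_lit 13) (.e (nat_lit 65550) (nat_lit 0) .nil))))))))) (.g (nat_lit 8) .nil .nil))))) 
(.nd (nat_lit 4) (.nd (nat_lit 5) 
(.lf (nat_lit 13960) (.g (nat_lit 2271) (.e (nat_lit 1023) (nat_lit 81) (.e (nat_lit 5905) (nat_lit 320) (.e (nat_lit 1181) (nat_lit 87) (.e (nat_lit 57478) (nat_lit 28) (.e (nat_lit 557107) (nat_lit 15) (.e (nat_lit 188447) (nat_lit 22) (.e (nat_lit 196666) (nat_lit 13) (.e (nat_lit 65550) (nat_lit 0) .nil)))))))) (.g (nat_lit 4) .nil .nil))) 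
(.lf (nat_lit 13992) (.g (nat_lit 4094) (.e (nat_lit 1023) (nat_lit 81) (.e (nat_lit 5906) (nat_lit 320) (.e (nat_lit 1170) (nat_lit 87) (.e (nat_lit 57477) (nat_lit 28) (.e (nat_lit 557097) (nat_lit 13) (.e (nat_lit 172097) (nat_lit 9) (.e (nat_lit 426125) (nat_lit 2) (.e (nat_lit 196666) (nat_lit 13) (.e (nat_lit 65550) (nat_lit 0) .nil))))))))) (.g (nat_lit 8) .nil .nil)))) (.nd (nat_lit 5) 
(.lf (nat_lit 13976) (.g (nat_lit 480) (.e (nat_lit 1023) (nat_lit 81) (.e (nat_lit 5905) (nat_lit 320) (.e (nat_lit 1200) (nat_lit 88) .nil))) .nil)) 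
(.lf (nat_lit 14008) (.g (nat_lit 3760) (.e (nat_lit 1023) (nat_lit 81) (.e (nat_lit 5906) (nat_lit 320) (.e (nat_lit 1172) (nat_lit 87) (.e (nat_lit 57476) (nat_lit 28) (.e (nat_lit 557108) (nat_lit 15) (.e (nat_lit 188449) (nat_lit 22) (.e (nat_lit 196666) (nat_lit 13) (.e (nat_lit 65550) (nat_lit 0) .nil)))))))) (.g (nat_lit 8) .nil .nil)))))) (.nd (nat_lit 3) (.nd (nat_lit 4) (.nd (nat_lit 5) 
(.lf (nat_lit 13956) (.g (nat_lit 4026) (.e (nat_lit 1023) (nat_lit 81) (.e (nat_lit 5905) (nat_lit 320) (.e (nat_lit 1171) (nat_lit 87) (.e (nat_lit 57478) (nat_lit 28) (.e (nat_lit 557109) (nat_lit 15) (.e (nat_lit 188449) (nat_lit 22) (.e (nat_lit 196666) (nat_lit 13) (.e (nat_lit 65546) (nat_lit 0) .nil)))))))) (.g (nat_lit 8) .nil .nil))) 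
(.lf (nat_lit 13988) (.g (nat_lit 1458) (.e (nat_lit 1023) (nat_lit 81) (.e (nat_lit 5905) (nat_lit 320) (.e (nat_lit 1221) (nat_lit 90) (.e (nat_lit 81959) (nat_lit 24) .nil)))) .nil))) (.nd (nat_lit 5) 
(.lf (nat_lit 13972) (.g (nat_lit 3862) (.e (nat_lit 1023) (nat_lit 81) (.e (nat_lit 5905) (nat_lit 320) (.e (nat_lit 1182) (nat_lit 87) (.e (nat_lit 57480) (nat_lit 28) (.e (nat_lit 557098) (nat_lit 13) (.e (nat_lit 172097) (nat_lit 9) (.e (nat_lit 426125) (nat_lit 2) (.e (nat_lit 196666) (nat_lit 13) (.e (nat_lit 65546) (nat_lit 0) .nil))))))))) (.g (nat_lit 7) .nil .nil))) 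
(.lf (nat_lit 14004) (.g (nat_lit 4372) (.e (nat_lit 1023) (nat_lit 81) (.e (nat_lit 5906) (nat_lit 320) (.e (nat_lit 1170) (nat_lit 87) (.e (nat_lit 57480) (nat_lit 28) (.e (nat_lit 557109) (nat_lit 15) (.e (nat_lit 188449) (nat_lit 22) (.e (nat_lit 196666) (nat_lit 13) (.e (nat_lit 65550) (nat_lit 0) .nil)))))))) (.g (nat_lit 8) .nil .nil))))) (.nd (nat_lit 4) (.nd (nat_lit 5) 
(.lf (nat_lit 13964) (.g (nat_lit 4288) (.e (nat_lit 1023) (nat_lit 81) (.e (nat_lit 5905) (nat_lit 320) (.e (nat_lit 1181) (nat_lit 87) (.e (nat_lit 57479) (nat_lit 28) (.e (nat_lit 557101) (nat_lit 13) (.e (nat_lit 172097) (nat_lit 9) (.e (nat_lit 426125) (nat_lit 2) (.e (nat_lit 196666) (nat_lit 13) (.e (nat_lit 65546) (nat_lit 0) .nil))))))))) (.g (nat_lit 7) .nil .nil))) 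
(.lf (nat_lit 13996) (.g (nat_lit 3551) (.e (nat_lit 1023) (nat_lit 81) (.e (nat_lit 5906) (nat_lit 320) (.e (nat_lit 1170) (nat_lit 87) (.e (nat_lit 57477) (nat_lit 28) (.e (nat_lit 557108) (nat_lit 15) (.e (nat_lit 188449) (nat_lit 22) (.e (nat_lit 196666) (nat_lit 13) (.e (nat_lit 65550) (nat_lit 0) .nil)))))))) (.g (nat_lit 8) .nil .nil)))) (.nd (nat_lit 5) 
(.lf (nat_lit 13980) (.g (nat_lit 1457) (.e (nat_lit 1023) (nat_lit 81) (.e (nat_lit 5905) (nat_lit 320) (.e (nat_lit 1209) (nat_lit 89) (.e (nat_lit 81664) (nat_lit 39) .nil)))) .nil)) 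
(.lf (nat_lit 14012) (.g (nat_lit 4636) (.e (nat_lit 1023) (nat_lit 81) (.e (nat_lit 5906) (nat_lit 320) (.e (nat_lit 1172) (nat_lit 87) (.e (nat_lit 57478) (nat_lit 28) (.e (nat_lit 557098) (nat_lit 13) (.e (nat_lit 172097) (nat_lit 9) (.e (nat_lit 426125) (nat_lit 2) (.e (nat_lit 196666) (nat_lit 13) (.e (nat_lit 65550) (nat_lit 0) .nil))))))))) (.g (nat_lit 8) .nil .nil))))))) 
(.nd (nat_lit 2) (.nd (nat_lit 3) (.nd (nat_lit 4) (.nd (nat_lit 5) 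
(.lf (nat_lit 13954) (.g (nat_lit 3657) (.e (nat_lit 1023) (nat_lit 81) (.e (nat_lit 5905) (nat_lit 320) (.e (nat_lit 1171) (nat_lit 87) (.e (nat_lit 57478) (nat_lit 28) (.e (nat_lit 557107) (nat_lit 15) (.e (nat_lit 188447) (nat_lit 22) (.e (nat_lit 196666) (nat_lit 13) (.e (nat_lit 65546) (nat_lit 0) .nil)))))))) (.g (nat_lit 8) .nil .nil))) 
(.lf (nat_lit 13986) (.g (nat_lit 2481) (.e (nat_lit 1023) (nat_lit 81) (.e (nat_lit 5905) (nat_lit 320) (.e (nat_lit 1221) (nat_lit 90) (.e (nat_lit 81950) (nat_lit 21) (.e (nat_lit 57872) (nat_lit 264) (.e (nat_lit 1221) (nat_lit 90) (.e (nat_lit 81938) (nat_lit 20) .nil))))))) (.g (nat_lit 5) .nil .nil)))) (.nd (nat_lit 5) 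
(.lf (nat_lit 13970) (.g (nat_lit 3998) (.e (nat_lit 1023) (nat_lit 81) (.e (nat_lit 5905) (nat_lit 320) (.e (nat_lit 1181) (nat_lit 87) (.e (nat_lit 57480) (nat_lit 28) (.e (nat_lit 557109) (nat_lit 15) (.e (nat_lit 188449) (nat_lit 22) (.e (nat_lit 196666) (nat_lit 13) (.e (nat_lit 65546) (nat_lit 0) .nil)))))))) (.g (nat_lit 6) .nil .nil))) 
(.lf (nat_lit 14002) (.g (nat_lit 3958) (.e (nat_lit 1023) (nat_lit 81) (.e (nat_lit 5906) (nat_lit 320) (.e (nat_lit 1170) (nat_lit 87) (.e (nat_lit 57480) (nat_lit 28) (.e (nat_lit 557107) (nat_lit 15) (.e (nat_lit 188447) (nat_lit 22) (.e (nat_lit 196666) (nat_lit 13) (.e (nat_lit 65550) (nat_lit 0) .nil)))))))) (.g (nat_lit 8) .nil .nil))))) (.nd (nat_lit 4) (.nd (nat_lit 5) 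
(.lf (nat_lit 13962) (.g (nat_lit 2497) (.e (nat_lit 1023) (nat_lit 81) (.e (nat_lit 5905) (nat_lit 320) (.e (nat_lit 1181) (nat_lit 87) (.e (nat_lit 57479) (nat_lit 28) (.e (nat_lit 557100) (nat_lit 13) (.e (nat_lit 172106) (nat_lit 10) (.e (nat_lit 434231) (nat_lit 23) (.e (nat_lit 532529) (nat_lit 9) (.e (nat_lit 335969) (nat_lit 0) .nil))))))))) (.g (nat_lit 4) .nil .nil))) 
(.lf (nat_lit 13994) (.g (nat_lit 3401) (.e (nat_lit 1023) (nat_lit 81) (.e (nat_lit 5906) (nat_lit 320) (.e (nat_lit 1170) (nat_lit 87) (.e (nat_lit 57477) (nat_lit 28) (.e (nat_lit 557107) (nat_lit 15) (.e (nat_lit 188447) (nat_lit 22) (.e (nat_lit 196666) (nat_lit 13) (.e (nat_lit 65550) (nat_lit 0) .nil)))))))) (.g (nat_lit 8) .nil .nil)))) (.nd (nat_lit 5) 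
(.lf (nat_lit 13978) (.g (nat_lit 1484) (.e (nat_lit 1023) (nat_lit 81) (.e (nat_lit 5905) (nat_lit 320) (.e (nat_lit 1209) (nat_lit 89) (.e (nat_lit 73781) (nat_lit 32) .nil)))) .nil)) 
(.lf (nat_lit 14010) (.g (nat_lit 2867) (.e (nat_lit 1023) (nat_lit 81) (.e (nat_lit 5906) (nat_lit 320) (.e (nat_lit 1172) (nat_lit 87) (.e (nat_lit 57477) (nat_lit 28) (.e (nat_lit 557107) (nat_lit 15) (.e (nat_lit 188447) (nat_lit 22) (.e (nat_lit 196666) (nat_lit 13) (.e (nat_lit 65546) (nat_lit 0) .nil)))))))) (.g (nat_lit 7) .nil .nil)))))) (.nd (nat_lit 3) (.nd (nat_lit 4) (.nd (nat_lit 5) 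
(.lf (nat_lit 13958) (.g (nat_lit 2645) (.e (nat_lit 1023) (nat_lit 81) (.e (nat_lit 5905) (nat_lit 320) (.e (nat_lit 1172) (nat_lit 87) (.e (nat_lit 57476) (nat_lit 28) (.e (nat_lit 557107) (nat_lit 15) (.e (nat_lit 188447) (nat_lit 22) (.e (nat_lit 196666) (nat_lit 13) (.e (nat_lit 65546) (nat_lit 0) .nil)))))))) (.g (nat_lit 6) .nil .nil))) 
(.lf (nat_lit 13990) (.g (nat_lit 2441) (.e (nat_lit 1023) (nat_lit 81) (.e (nat_lit 5905) (nat_lit 320) (.e (nat_lit 1221) (nat_lit 90) (.e (nat_lit 81959) (nat_lit 24) (.e (nat_lit 123195) (nat_lit 266) .nil))))) .nil))) (.nd (nat_lit 5) 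
(.lf (nat_lit 13974) (.g (nat_lit 1265) (.e (nat_lit 1023) (nat_lit 81) (.e (nat_lit 5905) (nat_lit 320) (.e (nat_lit 1190) (nat_lit 88) (.e (nat_lit 65628) (nat_lit 14) .nil)))) .nil)) 
(.lf (nat_lit 14006) (.g (nat_lit 4429) (.e (nat_lit 1023) (nat_lit 81) (.e (nat_lit 5906) (nat_lit 320) (.e (nat_lit 1172) (nat_lit 87) (.e (nat_lit 57476) (nat_lit 28) (.e (nat_lit 557097) (nat_lit 13) (.e (nat_lit 172097) (nat_lit 9) (.e (nat_lit 426125) (nat_lit 2) (.e (nat_lit 196666) (nat_lit 13) (.e (nat_lit 65550) (nat_lit 0) .nil))))))))) (.g (nat_lit 8) .nil .nil))))) 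
(.nd (nat_lit 4) (.nd (nat_lit 5) 
(.lf (nat_lit 13966) (.g (nat_lit 2085) (.e (nat_lit 1023) (nat_lit 81) (.e (nat_lit 5905) (nat_lit 320) (.e (nat_lit 1181) (nat_lit 87) (.e (nat_lit 57480) (nat_lit 28) (.e (nat_lit 557098) (nat_lit 13) .nil))))) .nil)) 
(.lf (nat_lit 13998) (.g (nat_lit 4881) (.e (nat_lit 1023) (nat_lit 81) (.e (nat_lit 5906) (nat_lit 320) (.e (nat_lit 1170) (nat_lit 87) (.e (nat_lit 57479) (nat_lit 28) (.e (nat_lit 557101) (nat_lit 13) (.e (nat_lit 172097) (nat_lit 9) (.e (nat_lit 426125) (nat_lit 2) (.e (nat_lit 196666) (nat_lit 13) (.e (nat_lit 65550) (nat_lit 0) .nil))))))))) (.g (nat_lit 8) .nil .nil)))) (.nd (nat_lit 5) 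
(.lf (nat_lit 13982) (.g (nat_lit 457) (.e (nat_lit 1023) (nat_lit 81) (.e (nat_lit 5905) (nat_lit 320) (.e (nat_lit 1210) (nat_lit 89) .nil))) .nil)) 
(.lf (nat_lit 14014) (.g (nat_lit 4516) (.e (nat_lit 1023) (nat_lit 81) (.e (nat_lit 5906) (nat_lit 320) (.e (nat_lit 1172) (nat_lit 87) (.e (nat_lit 57478) (nat_lit 28) (.e (nat_lit 557101) (nat_lit 13) (.e (nat_lit 172097) (nat_lit 9) (.e (nat_lit 426125) (nat_lit 2) (.e (nat_lit 196666) (nat_lit 13) (.e (nat_lit 65550) (nat_lit 0) .nil))))))))) (.g (nat_lit 8) .nil .nil)))))))) 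
(.nd (nat_lit 1) (.nd (nat_lit 2) (.nd (nat_lit 3) (.nd (nat_lit 4) (.nd (nat_lit 5) 
(.lf (nat_lit 13953) (.g (nat_lit 4570) (.e (nat_lit 1023) (nat_lit 81) (.e (nat_lit 5905) (nat_lit 320) (.e (nat_lit 1171) (nat_lit 87) (.e (nat_lit 57478) (nat_lit 28) (.e (nat_lit 557101) (nat_lit 13) (.e (nat_lit 172097) (nat_lit 9) (.e (nat_lit 426125) (nat_lit 2) (.e (nat_lit 196666) (nat_lit 13) (.e (nat_lit 65550) (nat_lit 0) .nil))))))))) (.g (nat_lit 8) .nil .nil))) 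
(.lf (nat_lit 13985) (.g (nat_lit 1924) (.e (nat_lit 1023) (nat_lit 81) (.e (nat_lit 5905) (nat_lit 320) (.e (nat_lit 1221) (nat_lit 90) (.e (nat_lit 81950) (nat_lit 21) (.e (nat_lit 57870) (nat_lit 264) (.e (nat_lit 1221) (nat_lit 90) (.e (nat_lit 81938) (nat_lit 20) .nil))))))) (.g (nat_lit 4) .nil .nil)))) (.nd (nat_lit 5) 
(.lf (nat_lit 13969) (.g (nat_lit 3285) (.e (nat_lit 1023) (nat_lit 81) (.e (nat_lit 5905) (nat_lit 320) (.e (nat_lit 1181) (nat_lit 87) (.e (nat_lit 57480) (nat_lit 28) (.e (nat_lit 557107) (nat_lit 15) (.e (nat_lit 188447) (nat_lit 22) (.e (nat_lit 196666) (nat_lit 13) (.e (nat_lit 65546) (nat_lit 0) .nil)))))))) (.g (nat_lit 5) .nil .nil))) 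
(.lf (nat_lit 14001) (.g (nat_lit 3531) (.e (nat_lit 1023) (nat_lit 81) (.e (nat_lit 5906) (nat_lit 320) (.e (nat_lit 1170) (nat_lit 87) (.e (nat_lit 57480) (nat_lit 28) (.e (nat_lit 557107) (nat_lit 15) (.e (nat_lit 188447) (nat_lit 22) (.e (nat_lit 196666) (nat_lit 13) (.e (nat_lit 65546) (nat_lit 0) .nil)))))))) (.g (nat_lit 8) .nil .nil))))) (.nd (nat_lit 4) (.nd (nat_lit 5) 
(.lf (nat_lit 13961) (.g (nat_lit 2325) (.e (nat_lit 1023) (nat_lit 81) (.e (nat_lit 5905) (nat_lit 320) (.e (nat_lit 1181) (nat_lit 87) (.e (nat_lit 57478) (nat_lit 28) (.e (nat_lit 557109) (nat_lit 15) (.e (nat_lit 188449) (nat_lit 22) (.e (nat_lit 196666) (nat_lit 13) (.e (nat_lit 65546) (nat_lit 0) .nil)))))))) (.g (nat_lit 4) .nil .nil))) 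
(.lf (nat_lit 13993) (.g (nat_lit 2974) (.e (nat_lit 1023) (nat_lit 81) (.e (nat_lit 5906) (nat_lit 320) (.e (nat_lit 1170) (nat_lit 87) (.e (nat_lit 57477) (nat_lit 28) (.e (nat_lit 557107) (nat_lit 15) (.e (nat_lit 188447) (nat_lit 22) (.e (nat_lit 196666) (nat_lit 13) (.e (nat_lit 65546) (nat_lit 0) .nil)))))))) (.g (nat_lit 8) .nil .nil)))) (.nd (nat_lit 5) 
(.lf (nat_lit 13977) (.g (nat_lit 223) (.e (nat_lit 1023) (nat_lit 81) (.e (nat_lit 5905) (nat_lit 320) (.e (nat_lit 1209) (nat_lit 89) .nil))) .nil)) 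
(.lf (nat_lit 14009) (.g (nat_lit 3423) (.e (nat_lit 1023) (nat_lit 81) (.e (nat_lit 5906) (nat_lit 320) (.e (nat_lit 1172) (nat_lit 87) (.e (nat_lit 57477) (nat_lit 28) (.e (nat_lit 557097) (nat_lit 13) (.e (nat_lit 172097) (nat_lit 9) (.e (nat_lit 426125) (nat_lit 2) (.e (nat_lit 196666) (nat_lit 13) (.e (nat_lit 65546) (nat_lit 0) .nil))))))))) (.g (nat_lit 8) .nil .nil)))))) 
(.nd (nat_lit 3) (.nd (nat_lit 4) (.nd (nat_lit 5) 
(.lf (nat_lit 13957) (.g (nat_lit 4494) (.e (nat_lit 1023) (nat_lit 81) (.e (nat_lit 5905) (nat_lit 320) (.e (nat_lit 1171) (nat_lit 87) (.e (nat_lit 57478) (nat_lit 28) (.e (nat_lit 557109) (nat_lit 15) (.e (nat_lit 188449) (nat_lit 22) (.e (nat_lit 196666) (nat_lit 13) (.e (nat_lit 65550) (nat_lit 0) .nil)))))))) (.g (nat_lit 8) .nil .nil))) 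
(.lf (nat_lit 13989) (.g (nat_lit 2732) (.e (nat_lit 1023) (nat_lit 81) (.e (nat_lit 5905) (nat_lit 320) (.e (nat_lit 1221) (nat_lit 90) (.e (nat_lit 81959) (nat_lit 24) (.e (nat_lit 123182) (nat_lit 264) .nil))))) .nil))) (.nd (nat_lit 5) 
(.lf (nat_lit 13973) (.g (nat_lit 1829) (.e (nat_lit 1023) (nat_lit 81) (.e (nat_lit 5905) (nat_lit 320) (.e (nat_lit 1190) (nat_lit 88) (.e (nat_lit 65619) (nat_lit 10) (.e (nat_lit 344097) (nat_lit 18) .nil))))) .nil)) 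
(.lf (nat_lit 14005) (.g (nat_lit 3836) (.e (nat_lit 1023) (nat_lit 81) (.e (nat_lit 5906) (nat_lit 320) (.e (nat_lit 1172) (nat_lit 87) (.e (nat_lit 57476) (nat_lit 28) (.e (nat_lit 557097) (nat_lit 13) (.e (nat_lit 172097) (nat_lit 9) (.e (nat_lit 426125) (nat_lit 2) (.e (nat_lit 196666) (nat_lit 13) (.e (nat_lit 65546) (nat_lit 0) .nil))))))))) (.g (nat_lit 9) .nil .nil))))) 
(.nd (nat_lit 4) (.nd (nat_lit 5) 
(.lf (nat_lit 13965) (.g (nat_lit 2137) (.e (nat_lit 1023) (nat_lit 81) (.e (nat_lit 5905) (nat_lit 320) (.e (nat_lit 1181) (nat_lit 87) (.e (nat_lit 57479) (nat_lit 28) (.e (nat_lit 557101) (nat_lit 13) (.e (nat_lit 172097) (nat_lit 9) (.e (nat_lit 426140) (nat_lit 3) (.e (nat_lit 204855) (nat_lit 26) (.e (nat_lit 335925) (nat_lit 0) .nil))))))))) (.g (nat_lit 4) .nil .nil))) 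
(.lf (nat_lit 13997) (.g (nat_lit 4288) (.e (nat_lit 1023) (nat_lit 81) (.e (nat_lit 5906) (nat_lit 320) (.e (nat_lit 1170) (nat_lit 87) (.e (nat_lit 57479) (nat_lit 28) (.e (nat_lit 557101) (nat_lit 13) (.e (nat_lit 172097) (nat_lit 9) (.e (nat_lit 426125) (nat_lit 2) (.e (nat_lit 196666) (nat_lit 13) (.e (nat_lit 65546) (nat_lit 0) .nil))))))))) (.g (nat_lit 9) .nil .nil)))) (.nd (nat_lit 5) 
(.lf (nat_lit 13981) (.g (nat_lit 928) (.e (nat_lit 1023) (nat_lit 81) (.e (nat_lit 5905) (nat_lit 320) (.e (nat_lit 1209) (nat_lit 89) (.e (nat_lit 73789) (nat_lit 45) .nil)))) .nil)) 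
(.lf (nat_lit 14013) (.g (nat_lit 3923) (.e (nat_lit 1023) (nat_lit 81) (.e (nat_lit 5906) (nat_lit 320) (.e (nat_lit 1172) (nat_lit 87) (.e (nat_lit 57478) (nat_lit 28) (.e (nat_lit 557101) (nat_lit 13) (.e (nat_lit 172097) (nat_lit 9) (.e (nat_lit 426125) (nat_lit 2) (.e (nat_lit 196666) (nat_lit 13) (.e (nat_lit 65546) (nat_lit 0) .nil))))))))) (.g (nat_lit 9) .nil .nil))))))) 
(.nd (nat_lit 2) (.nd (nat_lit 3) (.nd (nat_lit 4) (.nd (nat_lit 5) 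
(.lf (nat_lit 13955) (.g (nat_lit 3998) (.e (nat_lit 1023) (nat_lit 81) (.e (nat_lit 5905) (nat_lit 320) (.e (nat_lit 1171) (nat_lit 87) (.e (nat_lit 57478) (nat_lit 28) (.e (nat_lit 557107) (nat_lit 15) (.e (nat_lit 188447) (nat_lit 22) (.e (nat_lit 196666) (nat_lit 13) (.e (nat_lit 65550) (nat_lit 0) .nil)))))))) (.g (nat_lit 8) .nil .nil))) 
(.lf (nat_lit 13987) (.g (nat_lit 2195) (.e (nat_lit 1023) (nat_lit 81) (.e (nat_lit 5905) (nat_lit 320) (.e (nat_lit 1221) (nat_lit 90) (.e (nat_lit 81950) (nat_lit 21) (.e (nat_lit 57873) (nat_lit 264) .nil))))) .nil))) (.nd (nat_lit 5) 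
(.lf (nat_lit 13971) (.g (nat_lit 4230) (.e (nat_lit 1023) (nat_lit 81) (.e (nat_lit 5905) (nat_lit 320) (.e (nat_lit 1182) (nat_lit 87) (.e (nat_lit 57479) (nat_lit 28) (.e (nat_lit 557101) (nat_lit 13) (.e (nat_lit 172097) (nat_lit 9) (.e (nat_lit 426125) (nat_lit 2) (.e (nat_lit 196666) (nat_lit 13) (.e (nat_lit 65546) (nat_lit 0) .nil))))))))) (.g (nat_lit 7) .nil .nil))) 
(.lf (nat_lit 14003) (.g (nat_lit 3818) (.e (nat_lit 1023) (nat_lit 81) (.e (nat_lit 5906) (nat_lit 320) (.e (nat_lit 1170) (nat_lit 87) (.e (nat_lit 57480) (nat_lit 28) (.e (nat_lit 557109) (nat_lit 15) (.e (nat_lit 188449) (nat_lit 22) (.e (nat_lit 196666) (nat_lit 13) (.e (nat_lit 65546) (nat_lit 0) .nil)))))))) (.g (nat_lit 8) .nil .nil))))) (.nd (nat_lit 4) (.nd (nat_lit 5) 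
(.lf (nat_lit 13963) (.g (nat_lit 2337) (.e (nat_lit 1023) (nat_lit 81) (.e (nat_lit 5905) (nat_lit 320) (.e (nat_lit 1181) (nat_lit 87) (.e (nat_lit 57479) (nat_lit 28) (.e (nat_lit 557100) (nat_lit 13) (.e (nat_lit 172106) (nat_lit 10) (.e (nat_lit 434231) (nat_lit 23) (.e (nat_lit 532535) (nat_lit 9) (.e (nat_lit 335928) (nat_lit 0) .nil))))))))) (.g (nat_lit 4) .nil .nil))) 
(.lf (nat_lit 13995) (.g (nat_lit 2968) (.e (nat_lit 1023) (nat_lit 81) (.e (nat_lit 5906) (nat_lit 320) (.e (nat_lit 1170) (nat_lit 87) (.e (nat_lit 57477) (nat_lit 28) (.e (nat_lit 557108) (nat_lit 15) (.e (nat_lit 188449) (nat_lit 22) (.e (nat_lit 196666) (nat_lit 13) (.e (nat_lit 65546) (nat_lit 0) .nil)))))))) (.g (nat_lit 8) .nil .nil)))) (.nd (nat_lit 5) 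
(.lf (nat_lit 13979) (.g (nat_lit 1367) (.e (nat_lit 1023) (nat_lit 81) (.e (nat_lit 5905) (nat_lit 320) (.e (nat_lit 1209) (nat_lit 89) (.e (nat_lit 73782) (nat_lit 32) .nil)))) .nil)) 
(.lf (nat_lit 14011) (.g (nat_lit 4043) (.e (nat_lit 1023) (nat_lit 81) (.e (nat_lit 5906) (nat_lit 320) (.e (nat_lit 1172) (nat_lit 87) (.e (nat_lit 57478) (nat_lit 28) (.e (nat_lit 557098) (nat_lit 13) (.e (nat_lit 172097) (nat_lit 9) (.e (nat_lit 426125) (nat_lit 2) (.e (nat_lit 196666) (nat_lit 13) (.e (nat_lit 65546) (nat_lit 0) .nil))))))))) (.g (nat_lit 9) .nil .nil)))))) 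
(.nd (nat_lit 3) (.nd (nat_lit 4) (.nd (nat_lit 5) 
(.lf (nat_lit 13959) (.g (nat_lit 2414) (.e (nat_lit 1023) (nat_lit 81) (.e (nat_lit 5905) (nat_lit 320) (.e (nat_lit 1181) (nat_lit 87) (.e (nat_lit 57478) (nat_lit 28) (.e (nat_lit 557101) (nat_lit 13) (.e (nat_lit 172097) (nat_lit 9) (.e (nat_lit 426125) (nat_lit 2) (.e (nat_lit 196666) (nat_lit 13) (.e (nat_lit 65546) (nat_lit 0) .nil))))))))) (.g (nat_lit 4) .nil .nil))) 
(.lf (nat_lit 13991) (.g (nat_lit 3501) (.e (nat_lit 1023) (nat_lit 81) (.e (nat_lit 5906) (nat_lit 320) (.e (nat_lit 1170) (nat_lit 87) (.e (nat_lit 57477) (nat_lit 28) (.e (nat_lit 557097) (nat_lit 13) (.e (nat_lit 172097) (nat_lit 9) (.e (nat_lit 426125) (nat_lit 2) (.e (nat_lit 196666) (nat_lit 13) (.e (nat_lit 65546) (nat_lit 0) .nil))))))))) (.g (nat_lit 9) .nil .nil)))) (.nd (nat_lit 5) 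
(.lf (nat_lit 13975) (.g (nat_lit 1389) (.e (nat_lit 1023) (nat_lit 81) (.e (nat_lit 5905) (nat_lit 320) (.e (nat_lit 1190) (nat_lit 88) (.e (nat_lit 65630) (nat_lit 14) .nil)))) .nil)) 
(.lf (nat_lit 14007) (.g (nat_lit 3568) (.e (nat_lit 1023) (nat_lit 81) (.e (nat_lit 5906) (nat_lit 320) (.e (nat_lit 1172) (nat_lit 87) (.e (nat_lit 57476) (nat_lit 28) (.e (nat_lit 557107) (nat_lit 15) (.e (nat_lit 188447) (nat_lit 22) (.e (nat_lit 196666) (nat_lit 13) (.e (nat_lit 65550) (nat_lit 0) .nil)))))))) (.g (nat_lit 7) .nil .nil))))) (.nd (nat_lit 4) (.nd (nat_lit 5) 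
(.lf (nat_lit 13967) (.g (nat_lit 4365) (.e (nat_lit 1023) (nat_lit 81) (.e (nat_lit 5905) (nat_lit 320) (.e (nat_lit 1181) (nat_lit 87) (.e (nat_lit 57480) (nat_lit 28) (.e (nat_lit 557098) (nat_lit 13) (.e (nat_lit 172097) (nat_lit 9) (.e (nat_lit 426125) (nat_lit 2) (.e (nat_lit 196666) (nat_lit 13) (.e (nat_lit 65546) (nat_lit 0) .nil))))))))) (.g (nat_lit 7) .nil .nil))) 
(.lf (nat_lit 13999) (.g (nat_lit 4285) (.e (nat_lit 1023) (nat_lit 81) (.e (nat_lit 5906) (nat_lit 320) (.e (nat_lit 1170) (nat_lit 87) (.e (nat_lit 57480) (nat_lit 28) (.e (nat_lit 557098) (nat_lit 13) (.e (nat_lit 172097) (nat_lit 9) (.e (nat_lit 426125) (nat_lit 2) (.e (nat_lit 196666) (nat_lit 13) (.e (nat_lit 65546) (nat_lit 0) .nil))))))))) (.g (nat_lit 9) .nil .nil)))) (.nd (nat_lit 5) 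
(.lf (nat_lit 13983) (.g (nat_lit 476) (.e (nat_lit 1023) (nat_lit 81) (.e (nat_lit 5905) (nat_lit 320) (.e (nat_lit 1211) (nat_lit 89) .nil))) .nil)) 
(.lf (nat_lit 14015) (.g (nat_lit 3517) (.e (nat_lit 1023) (nat_lit 81) (.e (nat_lit 5906) (nat_lit 320) (.e (nat_lit 1172) (nat_lit 87) (.e (nat_lit 57478) (nat_lit 28) (.e (nat_lit 557107) (nat_lit 15) (.e (nat_lit 188447) (nat_lit 22) (.e (nat_lit 196666) (nat_lit 13) (.e (nat_lit 65546) (nat_lit 0) .nil)))))))) (.g (nat_lit 8) .nil .nil)))))))))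

noncomputable def tv194 : DT := (.nd (nat_lit 0) (.nd (nat_lit 1) (.nd (nat_lit 2) (.nd (nat_lit 3) (.nd (nat_lit 4) (.nd (nat_lit 5) 
(.lf (nat_lit 14016) (.g (nat_lit 3944) (.e (nat_lit 1023) (nat_lit 81) (.e (nat_lit 5906) (nat_lit 320) (.e (nat_lit 1172) (nat_lit 87) (.e (nat_lit 57478) (nat_lit 28) (.e (nat_lit 557107) (nat_lit 15) (.e (nat_lit 188447) (nat_lit 22) (.e (nat_lit 196666) (nat_lit 13) (.e (nat_lit 65550) (nat_lit 0) .nil)))))))) (.g (nat_lit 8) .nil .nil))) 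
(.lf (nat_lit 14048) (.g (nat_lit 2247) (.e (nat_lit 1023) (nat_lit 81) (.e (nat_lit 5907) (nat_lit 320) (.e (nat_lit 1181) (nat_lit 87) (.e (nat_lit 57479) (nat_lit 28) (.e (nat_lit 557100) (nat_lit 13) (.e (nat_lit 172106) (nat_lit 10) (.e (nat_lit 434231) (nat_lit 23) (.e (nat_lit 532535) (nat_lit 9) (.e (nat_lit 335923) (nat_lit 0) .nil))))))))) (.g (nat_lit 4) .nil .nil)))) (.nd (nat_lit 5) 
(.lf (nat_lit 14032) (.g (nat_lit 3646) (.e (nat_lit 1023) (nat_lit 81) (.e (nat_lit 5906) (nat_lit 320) (.e (nat_lit 1182) (nat_lit 87) (.e (nat_lit 57478) (nat_lit 28) (.e (nat_lit 557107) (nat_lit 15) (.e (nat_lit 188447) (nat_lit 22) (.e (nat_lit 196666) (nat_lit 13) (.e (nat_lit 65546) (nat_lit 0) .nil)))))))) (.g (nat_lit 8) .nil .nil))) 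
(.lf (nat_lit 14064) (.g (nat_lit 1419) (.e (nat_lit 1023) (nat_lit 81) (.e (nat_lit 7270) (nat_lit 385) (.e (nat_lit 122919) (nat_lit 15) (.e (nat_lit 360450) (nat_lit 0) .nil)))) .nil)))) (.nd (nat_lit 4) (.nd (nat_lit 5) 
(.lf (nat_lit 14024) (.g (nat_lit 5006) (.e (nat_lit 1023) (nat_lit 81) (.e (nat_lit 5906) (nat_lit 320) (.e (nat_lit 1181) (nat_lit 87) (.e (nat_lit 57480) (nat_lit 28) (.e (nat_lit 557098) (nat_lit 13) (.e (nat_lit 172097) (nat_lit 9) (.e (nat_lit 426125) (nat_lit 2) (.e (nat_lit 196666) (nat_lit 13) (.e (nat_lit 65546) (nat_lit 0) .nil))))))))) (.g (nat_lit 9) .nil .nil))) 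
(.lf (nat_lit 14056) (.g (nat_lit 2880) (.e (nat_lit 1023) (nat_lit 81) (.e (nat_lit 6676) (nat_lit 357) (.e (nat_lit 3067) (nat_lit 190) (.e (nat_lit 475184) (nat_lit 29) (.e (nat_lit 557109) (nat_lit 15) (.e (nat_lit 188458) (nat_lit 25) (.e (nat_lit 245784) (nat_lit 9) .nil))))))) (.g (nat_lit 6) .nil .nil)))) (.nd (nat_lit 5) 
(.lf (nat_lit 14040) (.g (nat_lit 837) (.e (nat_lit 1023) (nat_lit 81) (.e (nat_lit 5906) (nat_lit 320) (.e (nat_lit 1209) (nat_lit 89) (.e (nat_lit 73789) (nat_lit 45) .nil)))) .nil)) 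
(.lf (nat_lit 14072) (.g (nat_lit 3037) (.e (nat_lit 1023) (nat_lit 81) (.e (nat_lit 7270) (nat_lit 385) (.e (nat_lit 122919) (nat_lit 15) (.e (nat_lit 360451) (nat_lit 0) (.e (nat_lit 7263) (nat_lit 384) .nil))))) .nil))))) (.nd (nat_lit 3) (.nd (nat_lit 4) (.nd (nat_lit 5) 
(.lf (nat_lit 14020) (.g (nat_lit 2756) (.e (nat_lit 1023) (nat_lit 81) (.e (nat_lit 5906) (nat_lit 320) (.e (nat_lit 1181) (nat_lit 87) (.e (nat_lit 57478) (nat_lit 28) (.e (nat_lit 557098) (nat_lit 13) (.e (nat_lit 172097) (nat_lit 9) (.e (nat_lit 426140) (nat_lit 3) (.e (nat_lit 204855) (nat_lit 26) (.e (nat_lit 335923) (nat_lit 0) .nil))))))))) (.g (nat_lit 5) .nil .nil))) 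
(.lf (nat_lit 14052) (.g (nat_lit 3522) (.e (nat_lit 1023) (nat_lit 81) (.e (nat_lit 5907) (nat_lit 320) (.e (nat_lit 1182) (nat_lit 87) (.e (nat_lit 57479) (nat_lit 28) (.e (nat_lit 557095) (nat_lit 13) (.e (nat_lit 172097) (nat_lit 9) (.e (nat_lit 426125) (nat_lit 2) (.e (nat_lit 196666) (nat_lit 13) (.e (nat_lit 65550) (nat_lit 0) .nil))))))))) (.g (nat_lit 5) .nil .nil)))) (.nd (nat_lit 5) 
(.lf (nat_lit 14036) (.g (nat_lit 3514) (.e (nat_lit 1023) (nat_lit 81) (.e (nat_lit 5906) (nat_lit 320) (.e (nat_lit 1182) (nat_lit 87) (.e (nat_lit 57479) (nat_lit 28) (.e (nat_lit 557095) (nat_lit 13) (.e (nat_lit 172097) (nat_lit 9) (.e (nat_lit 426125) (nat_lit 2) (.e (nat_lit 196666) (nat_lit 13) (.e (nat_lit 65546) (nat_lit 0) .nil))))))))) (.g (nat_lit 5) .nil .nil))) 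
(.lf (nat_lit 14068) (.g (nat_lit 2058) (.e (nat_lit 1023) (nat_lit 81) (.e (nat_lit 7270) (nat_lit 385) (.e (nat_lit 122919) (nat_lit 15) (.e (nat_lit 360451) (nat_lit 0) (.e (nat_lit 7124) (nat_lit 382) (.e (nat_lit 1222) (nat_lit 90) (.e (nat_lit 81943) (nat_lit 20) .nil))))))) (.g (nat_lit 4) .nil .nil))))) (.nd (nat_lit 4) (.nd (nat_lit 5) 
(.lf (nat_lit 14028) (.g (nat_lit 4164) (.e (nat_lit 1023) (nat_lit 81) (.e (nat_lit 5906) (nat_lit 320) (.e (nat_lit 1182) (nat_lit 87) (.e (nat_lit 57478) (nat_lit 28) (.e (nat_lit 557098) (nat_lit 13) (.e (nat_lit 172097) (nat_lit 9) (.e (nat_lit 426125) (nat_lit 2) (.e (nat_lit 196666) (nat_lit 13) (.e (nat_lit 65546) (nat_lit 0) .nil))))))))) (.g (nat_lit 9) .nil .nil))) 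
(.lf (nat_lit 14060) (.g (nat_lit 640) (.e (nat_lit 1023) (nat_lit 81) (.e (nat_lit 7270) (nat_lit 385) (.e (nat_lit 122883) (nat_lit 0) .nil))) .nil))) (.nd (nat_lit 5) 
(.lf (nat_lit 14044) (.g (nat_lit 2588) (.e (nat_lit 1023) (nat_lit 81) (.e (nat_lit 5906) (nat_lit 320) (.e (nat_lit 1221) (nat_lit 90) (.e (nat_lit 81959) (nat_lit 24) (.e (nat_lit 123195) (nat_lit 266) (.e (nat_lit 57425) (nat_lit 14) (.e (nat_lit 352295) (nat_lit 20) .nil))))))) (.g (nat_lit 5) .nil .nil))) 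
(.lf (nat_lit 14076) (.g (nat_lit 2380) (.e (nat_lit 1023) (nat_lit 81) (.e (nat_lit 7270) (nat_lit 385) (.e (nat_lit 122919) (nat_lit 15) (.e (nat_lit 360454) (nat_lit 0) .nil)))) .nil)))))) (.nd (nat_lit 2) (.nd (nat_lit 3) (.nd (nat_lit 4) (.nd (nat_lit 5) 
(.lf (nat_lit 14018) (.g (nat_lit 4435) (.e (nat_lit 1023) (nat_lit 81) (.e (nat_lit 5906) (nat_lit 320) (.e (nat_lit 1172) (nat_lit 87) (.e (nat_lit 57478) (nat_lit 28) (.e (nat_lit 557109) (nat_lit 15) (.e (nat_lit 188449) (nat_lit 22) (.e (nat_lit 196666) (nat_lit 13) (.e (nat_lit 65550) (nat_lit 0) .nil)))))))) (.g (nat_lit 8) .nil .nil))) 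
(.lf (nat_lit 14050) (.g (nat_lit 3156) (.e (nat_lit 1023) (nat_lit 81) (.e (nat_lit 5907) (nat_lit 320) (.e (nat_lit 1181) (nat_lit 87) (.e (nat_lit 57480) (nat_lit 28) (.e (nat_lit 557107) (nat_lit 15) (.e (nat_lit 188450) (nat_lit 23) (.e (nat_lit 204855) (nat_lit 26) (.e (nat_lit 335923) (nat_lit 0) .nil)))))))) (.g (nat_lit 5) .nil .nil)))) (.nd (nat_lit 5) 
(.lf (nat_lit 14034) (.g (nat_lit 4011) (.e (nat_lit 1023) (nat_lit 81) (.e (nat_lit 5906) (nat_lit 320) (.e (nat_lit 1182) (nat_lit 87) (.e (nat_lit 57478) (nat_lit 28) (.e (nat_lit 557109) (nat_lit 15) (.e (nat_lit 188449) (nat_lit 22) (.e (nat_lit 196666) (nat_lit 13) (.e (nat_lit 65546) (nat_lit 0) .nil)))))))) (.g (nat_lit 8) .nil .nil))) 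
(.lf (nat_lit 14066) (.g (nat_lit 3070) (.e (nat_lit 1023) (nat_lit 81) (.e (nat_lit 7270) (nat_lit 385) (.e (nat_lit 122919) (nat_lit 15) (.e (nat_lit 360451) (nat_lit 0) (.e (nat_lit 7119) (nat_lit 382) .nil))))) .nil)))) (.nd (nat_lit 4) (.nd (nat_lit 5) 
(.lf (nat_lit 14026) (.g (nat_lit 4636) (.e (nat_lit 1023) (nat_lit 81) (.e (nat_lit 5906) (nat_lit 320) (.e (nat_lit 1181) (nat_lit 87) (.e (nat_lit 57480) (nat_lit 28) (.e (nat_lit 557109) (nat_lit 15) (.e (nat_lit 188449) (nat_lit 22) (.e (nat_lit 196666) (nat_lit 13) (.e (nat_lit 65546) (nat_lit 0) .nil)))))))) (.g (nat_lit 8) .nil .nil))) 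
(.lf (nat_lit 14058) (.g (nat_lit 2635) (.e (nat_lit 1023) (nat_lit 81) (.e (nat_lit 6680) (nat_lit 357) (.e (nat_lit 3066) (nat_lit 190) (.e (nat_lit 475184) (nat_lit 29) (.e (nat_lit 557109) (nat_lit 15) (.e (nat_lit 188458) (nat_lit 25) (.e (nat_lit 245784) (nat_lit 9) .nil))))))) (.g (nat_lit 7) .nil .nil)))) (.nd (nat_lit 5) 
(.lf (nat_lit 14042) (.g (nat_lit 2578) (.e (nat_lit 1023) (nat_lit 81) (.e (nat_lit 5906) (nat_lit 320) (.e (nat_lit 1221) (nat_lit 90) (.e (nat_lit 81959) (nat_lit 24) (.e (nat_lit 123182) (nat_lit 264) (.e (nat_lit 1224) (nat_lit 90) (.e (nat_lit 81940) (nat_lit 20) .nil))))))) (.g (nat_lit 6) .nil .nil))) 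
(.lf (nat_lit 14074) (.g (nat_lit 2460) (.e (nat_lit 1023) (nat_lit 81) (.e (nat_lit 7270) (nat_lit 385) (.e (nat_lit 122919) (nat_lit 15) (.e (nat_lit 360452) (nat_lit 0) .nil)))) .nil))))) (.nd (nat_lit 3) (.nd (nat_lit 4) (.nd (nat_lit 5) 
(.lf (nat_lit 14022) (.g (nat_lit 4952) (.e (nat_lit 1023) (nat_lit 81) (.e (nat_lit 5906) (nat_lit 320) (.e (nat_lit 1181) (nat_lit 87) (.e (nat_lit 57479) (nat_lit 28) (.e (nat_lit 557101) (nat_lit 13) (.e (nat_lit 172097) (nat_lit 9) (.e (nat_lit 426125) (nat_lit 2) (.e (nat_lit 196666) (nat_lit 13) (.e (nat_lit 65546) (nat_lit 0) .nil))))))))) (.g (nat_lit 9) .nil .nil))) 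
(.lf (nat_lit 14054) (.g (nat_lit 961) (.e (nat_lit 1023) (nat_lit 81) (.e (nat_lit 6114) (nat_lit 332) (.e (nat_lit 1370) (nat_lit 103) .nil))) .nil))) (.nd (nat_lit 5) 
(.lf (nat_lit 14038) (.g (nat_lit 1123) (.e (nat_lit 1023) (nat_lit 81) (.e (nat_lit 5906) (nat_lit 320) (.e (nat_lit 1209) (nat_lit 89) (.e (nat_lit 73782) (nat_lit 32) .nil)))) .nil)) 
(.lf (nat_lit 14070) (.g (nat_lit 3260) (.e (nat_lit 1023) (nat_lit 81) (.e (nat_lit 7270) (nat_lit 385) (.e (nat_lit 122919) (nat_lit 15) (.e (nat_lit 360451) (nat_lit 0) (.e (nat_lit 7125) (nat_lit 382) .nil))))) .nil)))) (.nd (nat_lit 4) (.nd (nat_lit 5) 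
(.lf (nat_lit 14030) (.g (nat_lit 4027) (.e (nat_lit 1023) (nat_lit 81) (.e (nat_lit 5906) (nat_lit 320) (.e (nat_lit 1182) (nat_lit 87) (.e (nat_lit 57478) (nat_lit 28) (.e (nat_lit 557101) (nat_lit 13) (.e (nat_lit 172097) (nat_lit 9) (.e (nat_lit 426125) (nat_lit 2) (.e (nat_lit 196666) (nat_lit 13) (.e (nat_lit 65546) (nat_lit 0) .nil))))))))) (.g (nat_lit 9) .nil .nil))) 
(.lf (nat_lit 14062) (.g (nat_lit 1283) (.e (nat_lit 1023) (nat_lit 81) (.e (nat_lit 7270) (nat_lit 385) (.e (nat_lit 122917) (nat_lit 15) (.e (nat_lit 368384) (nat_lit 24) .nil)))) .nil))) (.nd (nat_lit 5) 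
(.lf (nat_lit 14046) (.g (nat_lit 3266) (.e (nat_lit 1023) (nat_lit 81) (.e (nat_lit 5907) (nat_lit 320) (.e (nat_lit 1181) (nat_lit 87) (.e (nat_lit 57478) (nat_lit 28) (.e (nat_lit 557101) (nat_lit 13) (.e (nat_lit 172097) (nat_lit 9) (.e (nat_lit 426125) (nat_lit 2) (.e (nat_lit 196666) (nat_lit 13) (.e (nat_lit 65546) (nat_lit 0) .nil))))))))) (.g (nat_lit 6) .nil .nil))) 
(.lf (nat_lit 14078) (.g (nat_lit 2532) (.e (nat_lit 1023) (nat_lit 81) (.e (nat_lit 7270) (nat_lit 385) (.e (nat_lit 122919) (nat_lit 15) (.e (nat_lit 360490) (nat_lit 22) .nil)))) .nil))))))) (.nd (nat_lit 1) (.nd (nat_lit 2) (.nd (nat_lit 3) (.nd (nat_lit 4) (.nd (nat_lit 5) 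
(.lf (nat_lit 14017) (.g (nat_lit 3881) (.e (nat_lit 1023) (nat_lit 81) (.e (nat_lit 5906) (nat_lit 320) (.e (nat_lit 1172) (nat_lit 87) (.e (nat_lit 57478) (nat_lit 28) (.e (nat_lit 557109) (nat_lit 15) (.e (nat_lit 188449) (nat_lit 22) (.e (nat_lit 196666) (nat_lit 13) (.e (nat_lit 65546) (nat_lit 0) .nil)))))))) (.g (nat_lit 8) .nil .nil))) 
(.lf (nat_lit 14049) (.g (nat_lit 2126) (.e (nat_lit 1023) (nat_lit 81) (.e (nat_lit 5907) (nat_lit 320) (.e (nat_lit 1181) (nat_lit 87) (.e (nat_lit 57480) (nat_lit 28) (.e (nat_lit 557098) (nat_lit 13) (.e (nat_lit 172097) (nat_lit 9) (.e (nat_lit 426140) (nat_lit 3) (.e (nat_lit 204855) (nat_lit 26) (.e (nat_lit 335921) (nat_lit 0) .nil))))))))) (.g (nat_lit 4) .nil .nil)))) (.nd (nat_lit 5) 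
(.lf (nat_lit 14033) (.g (nat_lit 4073) (.e (nat_lit 1023) (nat_lit 81) (.e (nat_lit 5906) (nat_lit 320) (.e (nat_lit 1182) (nat_lit 87) (.e (nat_lit 57478) (nat_lit 28) (.e (nat_lit 557107) (nat_lit 15) (.e (nat_lit 188447) (nat_lit 22) (.e (nat_lit 196666) (nat_lit 13) (.e (nat_lit 65550) (nat_lit 0) .nil)))))))) (.g (nat_lit 8) .nil .nil))) 
(.lf (nat_lit 14065) (.g (nat_lit 1580) (.e (nat_lit 1023) (nat_lit 81) (.e (nat_lit 7270) (nat_lit 385) (.e (nat_lit 122919) (nat_lit 15) (.e (nat_lit 360451) (nat_lit 0) .nil)))) .nil)))) (.nd (nat_lit 4) (.nd (nat_lit 5) 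
(.lf (nat_lit 14025) (.g (nat_lit 5599) (.e (nat_lit 1023) (nat_lit 81) (.e (nat_lit 5906) (nat_lit 320) (.e (nat_lit 1181) (nat_lit 87) (.e (nat_lit 57480) (nat_lit 28) (.e (nat_lit 557098) (nat_lit 13) (.e (nat_lit 172097) (nat_lit 9) (.e (nat_lit 426125) (nat_lit 2) (.e (nat_lit 196666) (nat_lit 13) (.e (nat_lit 65550) (nat_lit 0) .nil))))))))) (.g (nat_lit 8) .nil .nil))) 
(.lf (nat_lit 14057) (.g (nat_lit 2558) (.e (nat_lit 1023) (nat_lit 81) (.e (nat_lit 6680) (nat_lit 357) (.e (nat_lit 3064) (nat_lit 190) (.e (nat_lit 475184) (nat_lit 29) (.e (nat_lit 557109) (nat_lit 15) (.e (nat_lit 188458) (nat_lit 25) (.e (nat_lit 245784) (nat_lit 9) .nil))))))) (.g (nat_lit 7) .nil .nil)))) (.nd (nat_lit 5) 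
(.lf (nat_lit 14041) (.g (nat_lit 589) (.e (nat_lit 1023) (nat_lit 81) (.e (nat_lit 5906) (nat_lit 320) (.e (nat_lit 1209) (nat_lit 89) (.e (nat_lit 73792) (nat_lit 45) .nil)))) .nil)) 
(.lf (nat_lit 14073) (.g (nat_lit 1843) (.e (nat_lit 1023) (nat_lit 81) (.e (nat_lit 7270) (nat_lit 385) (.e (nat_lit 122919) (nat_lit 15) (.e (nat_lit 360451) (nat_lit 0) (.e (nat_lit 7265) (nat_lit 384) .nil))))) .nil))))) (.nd (nat_lit 3) (.nd (nat_lit 4) (.nd (nat_lit 5) 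
(.lf (nat_lit 14021) (.g (nat_lit 3465) (.e (nat_lit 1023) (nat_lit 81) (.e (nat_lit 5906) (nat_lit 320) (.e (nat_lit 1181) (nat_lit 87) (.e (nat_lit 57478) (nat_lit 28) (.e (nat_lit 557101) (nat_lit 13) (.e (nat_lit 172097) (nat_lit 9) (.e (nat_lit 426125) (nat_lit 2) (.e (nat_lit 196666) (nat_lit 13) (.e (nat_lit 65546) (nat_lit 0) .nil))))))))) (.g (nat_lit 6) .nil .nil))) 
(.lf (nat_lit 14053) (.g (nat_lit 401) (.e (nat_lit 1023) (nat_lit 81) (.e (nat_lit 5907) (nat_lit 320) (.e (nat_lit 1209) (nat_lit 89) .nil))) .nil))) (.nd (nat_lit 5) 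
(.lf (nat_lit 14037) (.g (nat_lit 4657) (.e (nat_lit 1023) (nat_lit 81) (.e (nat_lit 5906) (nat_lit 320) (.e (nat_lit 1182) (nat_lit 87) (.e (nat_lit 57479) (nat_lit 28) (.e (nat_lit 557101) (nat_lit 13) (.e (nat_lit 172097) (nat_lit 9) (.e (nat_lit 426125) (nat_lit 2) (.e (nat_lit 196666) (nat_lit 13) (.e (nat_lit 65546) (nat_lit 0) .nil))))))))) (.g (nat_lit 8) .nil .nil))) 
(.lf (nat_lit 14069) (.g (nat_lit 2037) (.e (nat_lit 1023) (nat_lit 81) (.e (nat_lit 7270) (nat_lit 385) (.e (nat_lit 122919) (nat_lit 15) (.e (nat_lit 360451) (nat_lit 0) (.e (nat_lit 7124) (nat_lit 382) (.e (nat_lit 7936) (nat_lit 90) (.e (nat_lit 81938) (nat_lit 20) .nil))))))) (.g (nat_lit 4) .nil .nil))))) (.nd (nat_lit 4) (.nd (nat_lit 5) 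
(.lf (nat_lit 14029) (.g (nat_lit 4757) (.e (nat_lit 1023) (nat_lit 81) (.e (nat_lit 5906) (nat_lit 320) (.e (nat_lit 1182) (nat_lit 87) (.e (nat_lit 57478) (nat_lit 28) (.e (nat_lit 557098) (nat_lit 13) (.e (nat_lit 172097) (nat_lit 9) (.e (nat_lit 426125) (nat_lit 2) (.e (nat_lit 196666) (nat_lit 13) (.e (nat_lit 65550) (nat_lit 0) .nil))))))))) (.g (nat_lit 8) .nil .nil))) 
(.lf (nat_lit 14061) (.g (nat_lit 973) (.e (nat_lit 1023) (nat_lit 81) (.e (nat_lit 7270) (nat_lit 385) (.e (nat_lit 122883) (nat_lit 0) (.e (nat_lit 1799) (nat_lit 119) .nil)))) .nil))) (.nd (nat_lit 5) 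
(.lf (nat_lit 14045) (.g (nat_lit 3403) (.e (nat_lit 1023) (nat_lit 81) (.e (nat_lit 5907) (nat_lit 320) (.e (nat_lit 1181) (nat_lit 87) (.e (nat_lit 57478) (nat_lit 28) (.e (nat_lit 557098) (nat_lit 13) (.e (nat_lit 172097) (nat_lit 9) (.e (nat_lit 426125) (nat_lit 2) (.e (nat_lit 196666) (nat_lit 13) (.e (nat_lit 65546) (nat_lit 0) .nil))))))))) (.g (nat_lit 6) .nil .nil))) 
(.lf (nat_lit 14077) (.g (nat_lit 2447) (.e (nat_lit 1023) (nat_lit 81) (.e (nat_lit 7270) (nat_lit 385) (.e (nat_lit 122919) (nat_lit 15) (.e (nat_lit 360489) (nat_lit 21) .nil)))) .nil)))))) (.nd (nat_lit 2) (.nd (nat_lit 3) (.nd (nat_lit 4) (.nd (nat_lit 5) 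
(.lf (nat_lit 14019) (.g (nat_lit 2772) (.e (nat_lit 1023) (nat_lit 81) (.e (nat_lit 5906) (nat_lit 320) (.e (nat_lit 1181) (nat_lit 87) (.e (nat_lit 57478) (nat_lit 28) (.e (nat_lit 557098) (nat_lit 13) (.e (nat_lit 172097) (nat_lit 9) (.e (nat_lit 426125) (nat_lit 2) (.e (nat_lit 196666) (nat_lit 13) (.e (nat_lit 65553) (nat_lit 0) .nil))))))))) (.g (nat_lit 5) .nil .nil))) 
(.lf (nat_lit 14051) (.g (nat_lit 2922) (.e (nat_lit 1023) (nat_lit 81) (.e (nat_lit 5907) (nat_lit 320) (.e (nat_lit 1182) (nat_lit 87) (.e (nat_lit 57478) (nat_lit 28) (.e (nat_lit 557107) (nat_lit 15) (.e (nat_lit 188447) (nat_lit 22) (.e (nat_lit 196666) (nat_lit 13) (.e (nat_lit 65546) (nat_lit 0) .nil)))))))) (.g (nat_lit 6) .nil .nil)))) (.nd (nat_lit 5) 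
(.lf (nat_lit 14035) (.g (nat_lit 4565) (.e (nat_lit 1023) (nat_lit 81) (.e (nat_lit 5906) (nat_lit 320) (.e (nat_lit 1182) (nat_lit 87) (.e (nat_lit 57478) (nat_lit 28) (.e (nat_lit 557109) (nat_lit 15) (.e (nat_lit 188449) (nat_lit 22) (.e (nat_lit 196666) (nat_lit 13) (.e (nat_lit 65550) (nat_lit 0) .nil)))))))) (.g (nat_lit 8) .nil .nil))) 
(.lf (nat_lit 14067) (.g (nat_lit 2963) (.e (nat_lit 1023) (nat_lit 81) (.e (nat_lit 7270) (nat_lit 385) (.e (nat_lit 122919) (nat_lit 15) (.e (nat_lit 360451) (nat_lit 0) (.e (nat_lit 7122) (nat_lit 382) .nil))))) .nil)))) (.nd (nat_lit 4) (.nd (nat_lit 5) 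
(.lf (nat_lit 14027) (.g (nat_lit 5190) (.e (nat_lit 1023) (nat_lit 81) (.e (nat_lit 5906) (nat_lit 320) (.e (nat_lit 1181) (nat_lit 87) (.e (nat_lit 57480) (nat_lit 28) (.e (nat_lit 557109) (nat_lit 15) (.e (nat_lit 188449) (nat_lit 22) (.e (nat_lit 196666) (nat_lit 13) (.e (nat_lit 65550) (nat_lit 0) .nil)))))))) (.g (nat_lit 8) .nil .nil))) 
(.lf (nat_lit 14059) (.g (nat_lit 3176) (.e (nat_lit 1023) (nat_lit 81) (.e (nat_lit 6680) (nat_lit 357) (.e (nat_lit 3067) (nat_lit 190) (.e (nat_lit 475184) (nat_lit 29) (.e (nat_lit 557109) (nat_lit 15) (.e (nat_lit 188458) (nat_lit 25) (.e (nat_lit 245784) (nat_lit 9) .nil))))))) (.g (nat_lit 0) .nil .nil)))) (.nd (nat_lit 5) 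
(.lf (nat_lit 14043) (.g (nat_lit 1728) (.e (nat_lit 1023) (nat_lit 81) (.e (nat_lit 5906) (nat_lit 320) (.e (nat_lit 1221) (nat_lit 90) (.e (nat_lit 81959) (nat_lit 24) (.e (nat_lit 123195) (nat_lit 266) .nil))))) .nil)) 
(.lf (nat_lit 14075) (.g (nat_lit 2145) (.e (nat_lit 1023) (nat_lit 81) (.e (nat_lit 7270) (nat_lit 385) (.e (nat_lit 122919) (nat_lit 15) (.e (nat_lit 360453) (nat_lit 0) .nil)))) .nil))))) (.nd (nat_lit 3) (.nd (nat_lit 4) (.nd (nat_lit 5) 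
(.lf (nat_lit 14023) (.g (nat_lit 5545) (.e (nat_lit 1023) (nat_lit 81) (.e (nat_lit 5906) (nat_lit 320) (.e (nat_lit 1181) (nat_lit 87) (.e (nat_lit 57479) (nat_lit 28) (.e (nat_lit 557101) (nat_lit 13) (.e (nat_lit 172097) (nat_lit 9) (.e (nat_lit 426125) (nat_lit 2) (.e (nat_lit 196666) (nat_lit 13) (.e (nat_lit 65550) (nat_lit 0) .nil))))))))) (.g (nat_lit 8) .nil .nil))) 
(.lf (nat_lit 14055) (.g (nat_lit 2547) (.e (nat_lit 1023) (nat_lit 81) (.e (nat_lit 6646) (nat_lit 357) (.e (nat_lit 3064) (nat_lit 190) (.e (nat_lit 475184) (nat_lit 29) (.e (nat_lit 557109) (nat_lit 15) (.e (nat_lit 188458) (nat_lit 25) (.e (nat_lit 245784) (nat_lit 9) .nil))))))) (.g (nat_lit 0) .nil .nil)))) (.nd (nat_lit 5) 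
(.lf (nat_lit 14039) (.g (nat_lit 1207) (.e (nat_lit 1023) (nat_lit 81) (.e (nat_lit 5906) (nat_lit 320) (.e (nat_lit 1209) (nat_lit 89) (.e (nat_lit 81664) (nat_lit 39) .nil)))) .nil)) 
(.lf (nat_lit 14071) (.g (nat_lit 2274) (.e (nat_lit 1023) (nat_lit 81) (.e (nat_lit 7270) (nat_lit 385) (.e (nat_lit 122919) (nat_lit 15) (.e (nat_lit 360451) (nat_lit 0) (.e (nat_lit 7261) (nat_lit 384) (.e (nat_lit 57424) (nat_lit 14) (.e (nat_lit 352302) (nat_lit 20) .nil))))))) (.g (nat_lit 4) .nil .nil))))) (.nd (nat_lit 4) (.nd (nat_lit 5) 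
(.lf (nat_lit 14031) (.g (nat_lit 4620) (.e (nat_lit 1023) (nat_lit 81) (.e (nat_lit 5906) (nat_lit 320) (.e (nat_lit 1182) (nat_lit 87) (.e (nat_lit 57478) (nat_lit 28) (.e (nat_lit 557101) (nat_lit 13) (.e (nat_lit 172097) (nat_lit 9) (.e (nat_lit 426125) (nat_lit 2) (.e (nat_lit 196666) (nat_lit 13) (.e (nat_lit 65550) (nat_lit 0) .nil))))))))) (.g (nat_lit 8) .nil .nil))) 
(.lf (nat_lit 14063) (.g (nat_lit 512) (.e (nat_lit 1023) (nat_lit 81) (.e (nat_lit 7270) (nat_lit 385) (.e (nat_lit 122919) (nat_lit 15) .nil))) .nil))) (.nd (nat_lit 5) 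
(.lf (nat_lit 14047) (.g (nat_lit 2782) (.e (nat_lit 1023) (nat_lit 81) (.e (nat_lit 5907) (nat_lit 320) (.e (nat_lit 1181) (nat_lit 87) (.e (nat_lit 57478) (nat_lit 28) (.e (nat_lit 557107) (nat_lit 15) (.e (nat_lit 188447) (nat_lit 22) (.e (nat_lit 196666) (nat_lit 13) (.e (nat_lit 65546) (nat_lit 0) .nil)))))))) (.g (nat_lit 5) .nil .nil))) 
(.lf (nat_lit 14079) (.g (nat_lit 2417) (.e (nat_lit 1023) (nat_lit 81) (.e (nat_lit 7270) (nat_lit 385) (.e (nat_lit 122919) (nat_lit 15) (.e (nat_lit 360491) (nat_lit 22) .nil)))) .nil))))))))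

noncomputable def tv195 : DT := (.nd (nat_lit 0) (.nd (nat_lit 1) (.nd (nat_lit 2) (.nd (nat_lit 3) (.nd (nat_lit 4) (.nd (nat_lit 5) 
(.lf (nat_lit 14080) (.g (nat_lit 2423) (.e (nat_lit 1023) (nat_lit 81) (.e (nat_lit 7270) (nat_lit 385) (.e (nat_lit 122919) (nat_lit 15) (.e (nat_lit 360492) (nat_lit 22) .nil)))) .nil)) 
(.lf (nat_lit 14112) (.g (nat_lit 2034) (.e (nat_lit 1028) (nat_lit 81) (.e (nat_lit 5905) (nat_lit 320) (.e (nat_lit 1190) (nat_lit 88) (.e (nat_lit 65630) (nat_lit 14) (.e (nat_lit 401458) (nat_lit 13) .nil))))) .nil))) (.nd (nat_lit 5) 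
(.lf (nat_lit 14096) (.g (nat_lit 2723) (.e (nat_lit 1027) (nat_lit 81) (.e (nat_lit 1858) (nat_lit 124) (.e (nat_lit 557105) (nat_lit 14) (.e (nat_lit 180252) (nat_lit 10) (.e (nat_lit 573489) (nat_lit 14) (.e (nat_lit 73755) (nat_lit 8) (.e (nat_lit 557089) (nat_lit 12) (.e (nat_lit 164000) (nat_lit 38) (.e (nat_lit 639007) (nat_lit 13) .nil))))))))) (.g (nat_lit 4) .nil .nil))) 
(.lf (nat_lit 14128) (.g (nat_lit 1990) (.e (nat_lit 1031) (nat_lit 81) (.e (nat_lit 1858) (nat_lit 124) (.e (nat_lit 557100) (nat_lit 13) (.e (nat_lit 172106) (nat_lit 10) (.e (nat_lit 434231) (nat_lit 23) .nil))))) .nil)))) (.nd (nat_lit 4) (.nd (nat_lit 5) 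
(.lf (nat_lit 14088) (.g (nat_lit 2362) (.e (nat_lit 1027) (nat_lit 81) (.e (nat_lit 1237) (nat_lit 91) (.e (nat_lit 90170) (nat_lit 13) (.e (nat_lit 172123) (nat_lit 13) (.e (nat_lit 483337) (nat_lit 9) .nil))))) .nil)) 
(.lf (nat_lit 14120) (.g (nat_lit 1996) (.e (nat_lit 1029) (nat_lit 81) (.e (nat_lit 1858) (nat_lit 124) (.e (nat_lit 557100) (nat_lit 13) (.e (nat_lit 172106) (nat_lit 10) (.e (nat_lit 434231) (nat_lit 23) .nil))))) .nil))) (.nd (nat_lit 5) 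
(.lf (nat_lit 14104) (.g (nat_lit 1834) (.e (nat_lit 1027) (nat_lit 81) (.e (nat_lit 2030) (nat_lit 140) (.e (nat_lit 688177) (nat_lit 16) (.e (nat_lit 65626) (nat_lit 13) .nil)))) .nil)) 
(.lf (nat_lit 14136) (.g (nat_lit 1989) (.e (nat_lit 1032) (nat_lit 81) (.e (nat_lit 1416) (nat_lit 108) (.e (nat_lit 336454) (nat_lit 34) (.e (nat_lit 483383) (nat_lit 23) (.e (nat_lit 336019) (nat_lit 3) .nil))))) .nil))))) (.nd (nat_lit 3) (.nd (nat_lit 4) (.nd (nat_lit 5) 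
(.lf (nat_lit 14084) (.g (nat_lit 2082) (.e (nat_lit 1025) (nat_lit 81) (.e (nat_lit 2281) (nat_lit 150) (.e (nat_lit 770072) (nat_lit 8) (.e (nat_lit 65586) (nat_lit 7) (.e (nat_lit 319533) (nat_lit 16) .nil))))) .nil)) 
(.lf (nat_lit 14116) (.g (nat_lit 475) (.e (nat_lit 1028) (nat_lit 81) (.e (nat_lit 5905) (nat_lit 320) (.e (nat_lit 1210) (nat_lit 89) .nil))) .nil))) (.nd (nat_lit 5) 
(.lf (nat_lit 14100) (.g (nat_lit 3142) (.e (nat_lit 1027) (nat_lit 81) (.e (nat_lit 1858) (nat_lit 124) (.e (nat_lit 557105) (nat_lit 14) (.e (nat_lit 180252) (nat_lit 10) (.e (nat_lit 573489) (nat_lit 14) (.e (nat_lit 73755) (nat_lit 8) (.e (nat_lit 557090) (nat_lit 12) (.e (nat_lit 164000) (nat_lit 38) (.e (nat_lit 639006) (nat_lit 13) .nil))))))))) (.g (nat_lit 5) .nil .nil))) 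
(.lf (nat_lit 14132) (.g (nat_lit 2717) (.e (nat_lit 1031) (nat_lit 81) (.e (nat_lit 6322) (nat_lit 337) (.e (nat_lit 1182) (nat_lit 87) (.e (nat_lit 57479) (nat_lit 28) (.e (nat_lit 557109) (nat_lit 15) (.e (nat_lit 196352) (nat_lit 18) (.e (nat_lit 393217) (nat_lit 0) .nil))))))) (.g (nat_lit 5) .nil .nil))))) (.nd (nat_lit 4) (.nd (nat_lit 5) 
(.lf (nat_lit 14092) (.g (nat_lit 1933) (.e (nat_lit 1027) (nat_lit 81) (.e (nat_lit 1858) (nat_lit 124) (.e (nat_lit 557100) (nat_lit 13) (.e (nat_lit 172106) (nat_lit 10) (.e (nat_lit 434231) (nat_lit 23) (.e (nat_lit 532535) (nat_lit 9) (.e (nat_lit 335928) (nat_lit 0) (.e (nat_lit 2005) (nat_lit 138) (.e (nat_lit 671748) (nat_lit 0) .nil))))))))) (.g (nat_lit 4) .nil .nil))) 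
(.lf (nat_lit 14124) (.g (nat_lit 1996) (.e (nat_lit 1030) (nat_lit 81) (.e (nat_lit 1858) (nat_lit 124) (.e (nat_lit 557100) (nat_lit 13) (.e (nat_lit 172106) (nat_lit 10) (.e (nat_lit 434231) (nat_lit 23) .nil))))) .nil))) (.nd (nat_lit 5) 
(.lf (nat_lit 14108) (.g (nat_lit 3402) (.e (nat_lit 1028) (nat_lit 81) (.e (nat_lit 1237) (nat_lit 91) (.e (nat_lit 90170) (nat_lit 13) (.e (nat_lit 172065) (nat_lit 3) (.e (nat_lit 204837) (nat_lit 20) .nil))))) .nil)) 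
(.lf (nat_lit 14140) (.g (nat_lit 2015) (.e (nat_lit 1032) (nat_lit 81) (.e (nat_lit 1858) (nat_lit 124) (.e (nat_lit 557100) (nat_lit 13) (.e (nat_lit 172106) (nat_lit 10) (.e (nat_lit 434231) (nat_lit 23) .nil))))) .nil)))))) (.nd (nat_lit 2) (.nd (nat_lit 3) (.nd (nat_lit 4) (.nd (nat_lit 5) 
(.lf (nat_lit 14082) (.g (nat_lit 3206) (.e (nat_lit 1025) (nat_lit 81) (.e (nat_lit 1415) (nat_lit 108) (.e (nat_lit 336456) (nat_lit 34) (.e (nat_lit 483383) (nat_lit 23) (.e (nat_lit 336019) (nat_lit 3) (.e (nat_lit 98334) (nat_lit 18) (.e (nat_lit 164159) (nat_lit 152) .nil))))))) (.g (nat_lit 7) .nil .nil))) 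
(.lf (nat_lit 14114) (.g (nat_lit 2010) (.e (nat_lit 1028) (nat_lit 81) (.e (nat_lit 5905) (nat_lit 320) (.e (nat_lit 1209) (nat_lit 89) (.e (nat_lit 73781) (nat_lit 32) .nil)))) .nil))) (.nd (nat_lit 5) 
(.lf (nat_lit 14098) (.g (nat_lit 2808) (.e (nat_lit 1027) (nat_lit 81) (.e (nat_lit 1858) (nat_lit 124) (.e (nat_lit 557105) (nat_lit 14) (.e (nat_lit 180252) (nat_lit 10) (.e (nat_lit 573489) (nat_lit 14) (.e (nat_lit 73755) (nat_lit 8) (.e (nat_lit 557090) (nat_lit 12) (.e (nat_lit 163996) (nat_lit 37) (.e (nat_lit 630809) (nat_lit 13) .nil))))))))) (.g (nat_lit 4) .nil .nil))) 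
(.lf (nat_lit 14130) (.g (nat_lit 2092) (.e (nat_lit 1031) (nat_lit 81) (.e (nat_lit 1858) (nat_lit 124) (.e (nat_lit 557107) (nat_lit 15) (.e (nat_lit 188450) (nat_lit 23) .nil)))) .nil)))) (.nd (nat_lit 4) (.nd (nat_lit 5) 
(.lf (nat_lit 14090) (.g (nat_lit 1924) (.e (nat_lit 1027) (nat_lit 81) (.e (nat_lit 1858) (nat_lit 124) (.e (nat_lit 557100) (nat_lit 13) (.e (nat_lit 172106) (nat_lit 10) (.e (nat_lit 434231) (nat_lit 23) .nil))))) .nil)) 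
(.lf (nat_lit 14122) (.g (nat_lit 2441) (.e (nat_lit 1029) (nat_lit 81) (.e (nat_lit 2030) (nat_lit 140) (.e (nat_lit 688177) (nat_lit 16) (.e (nat_lit 65583) (nat_lit 7) (.e (nat_lit 319533) (nat_lit 16) .nil))))) .nil))) (.nd (nat_lit 5) 
(.lf (nat_lit 14106) (.g (nat_lit 1592) (.e (nat_lit 1027) (nat_lit 81) (.e (nat_lit 5906) (nat_lit 320) (.e (nat_lit 1221) (nat_lit 90) (.e (nat_lit 81959) (nat_lit 24) (.e (nat_lit 123182) (nat_lit 264) .nil))))) .nil)) 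
(.lf (nat_lit 14138) (.g (nat_lit 3521) (.e (nat_lit 1032) (nat_lit 81) (.e (nat_lit 1416) (nat_lit 108) (.e (nat_lit 336456) (nat_lit 34) (.e (nat_lit 483383) (nat_lit 23) (.e (nat_lit 336019) (nat_lit 3) (.e (nat_lit 98334) (nat_lit 18) (.e (nat_lit 164161) (nat_lit 152) .nil))))))) (.g (nat_lit 7) .nil .nil)))))) (.nd (nat_lit 3) (.nd (nat_lit 4) (.nd (nat_lit 5) 
(.lf (nat_lit 14086) (.g (nat_lit 3444) (.e (nat_lit 1027) (nat_lit 81) (.e (nat_lit 1237) (nat_lit 91) (.e (nat_lit 90170) (nat_lit 13) (.e (nat_lit 172065) (nat_lit 3) (.e (nat_lit 204837) (nat_lit 20) .nil))))) .nil)) 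
(.lf (nat_lit 14118) (.g (nat_lit 1477) (.e (nat_lit 1028) (nat_lit 81) (.e (nat_lit 5905) (nat_lit 320) (.e (nat_lit 1211) (nat_lit 89) (.e (nat_lit 73782) (nat_lit 32) (.e (nat_lit 3089) (nat_lit 191) .nil))))) .nil))) (.nd (nat_lit 5) 
(.lf (nat_lit 14102) (.g (nat_lit 5150) (.e (nat_lit 1027) (nat_lit 81) (.e (nat_lit 1858) (nat_lit 124) (.e (nat_lit 557105) (nat_lit 14) (.e (nat_lit 180252) (nat_lit 10) (.e (nat_lit 573489) (nat_lit 14) (.e (nat_lit 73755) (nat_lit 8) (.e (nat_lit 557091) (nat_lit 12) (.e (nat_lit 163999) (nat_lit 38) (.e (nat_lit 639005) (nat_lit 13) .nil))))))))) (.g (nat_lit 7) .nil .nil))) 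
(.lf (nat_lit 14134) (.g (nat_lit 1625) (.e (nat_lit 1032) (nat_lit 81) (.e (nat_lit 1416) (nat_lit 108) (.e (nat_lit 336367) (nat_lit 27) (.e (nat_lit 426546) (nat_lit 30) (.e (nat_lit 360466) (nat_lit 3) (.e (nat_lit 516117) (nat_lit 1) (.e (nat_lit 164158) (nat_lit 152) .nil))))))) (.g (nat_lit 6) .nil .nil))))) (.nd (nat_lit 4) (.nd (nat_lit 5) 
(.lf (nat_lit 14094) (.g (nat_lit 2672) (.e (nat_lit 1027) (nat_lit 81) (.e (nat_lit 1858) (nat_lit 124) (.e (nat_lit 557105) (nat_lit 14) (.e (nat_lit 180252) (nat_lit 10) (.e (nat_lit 573489) (nat_lit 14) .nil))))) .nil)) 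
(.lf (nat_lit 14126) (.g (nat_lit 1469) (.e (nat_lit 1030) (nat_lit 81) (.e (nat_lit 2281) (nat_lit 150) (.e (nat_lit 770072) (nat_lit 8) (.e (nat_lit 65583) (nat_lit 7) .nil)))) .nil))) (.nd (nat_lit 5) 
(.lf (nat_lit 14110) (.g (nat_lit 3203) (.e (nat_lit 1028) (nat_lit 81) (.e (nat_lit 1237) (nat_lit 91) (.e (nat_lit 90170) (nat_lit 13) (.e (nat_lit 172106) (nat_lit 10) (.e (nat_lit 434231) (nat_lit 23) (.e (nat_lit 532535) (nat_lit 9) (.e (nat_lit 335928) (nat_lit 0) (.e (nat_lit 990) (nat_lit 81) (.e (nat_lit 4752) (nat_lit 281) .nil))))))))) (.g (nat_lit 8) .nil .nil))) 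
(.lf (nat_lit 14142) (.g (nat_lit 2093) (.e (nat_lit 1032) (nat_lit 81) (.e (nat_lit 1858) (nat_lit 124) (.e (nat_lit 557100) (nat_lit 13) (.e (nat_lit 172106) (nat_lit 10) (.e (nat_lit 434231) (nat_lit 23) (.e (nat_lit 532544) (nat_lit 10) (.e (nat_lit 344168) (nat_lit 40) (.e (nat_lit 671747) (nat_lit 0) .nil)))))))) (.g (nat_lit 4) .nil .nil)))))))) 
(.nd (nat_lit 1) (.nd (nat_lit 2) (.nd (nat_lit 3) (.nd (nat_lit 4) (.nd (nat_lit 5) 
(.lf (nat_lit 14081) (.g (nat_lit 2078) (.e (nat_lit 1023) (nat_lit 81) (.e (nat_lit 7270) (nat_lit 385) (.e (nat_lit 122919) (nat_lit 15) (.e (nat_lit 368384) (nat_lit 24) .nil)))) .nil)) 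
(.lf (nat_lit 14113) (.g (nat_lit 1933) (.e (nat_lit 1028) (nat_lit 81) (.e (nat_lit 5905) (nat_lit 320) (.e (nat_lit 1200) (nat_lit 88) (.e (nat_lit 65628) (nat_lit 14) (.e (nat_lit 401458) (nat_lit 13) .nil))))) .nil))) (.nd (nat_lit 5) 
(.lf (nat_lit 14097) (.g (nat_lit 3899) (.e (nat_lit 1027) (nat_lit 81) (.e (nat_lit 1858) (nat_lit 124) (.e (nat_lit 557105) (nat_lit 14) (.e (nat_lit 180252) (nat_lit 10) (.e (nat_lit 573489) (nat_lit 14) (.e (nat_lit 73755) (nat_lit 8) (.e (nat_lit 557089) (nat_lit 12) (.e (nat_lit 164000) (nat_lit 38) (.e (nat_lit 639008) (nat_lit 13) .nil))))))))) (.g (nat_lit 6) .nil .nil))) 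
(.lf (nat_lit 14129) (.g (nat_lit 2712) (.e (nat_lit 1031) (nat_lit 81) (.e (nat_lit 1858) (nat_lit 124) (.e (nat_lit 557100) (nat_lit 13) (.e (nat_lit 172106) (nat_lit 10) (.e (nat_lit 434231) (nat_lit 23) (.e (nat_lit 532529) (nat_lit 9) (.e (nat_lit 336242) (nat_lit 15) (.e (nat_lit 3684) (nat_lit 227) (.e (nat_lit 778280) (nat_lit 0) .nil))))))))) (.g (nat_lit 5) .nil .nil))))) 
(.nd (nat_lit 4) (.nd (nat_lit 5) 
(.lf (nat_lit 14089) (.g (nat_lit 892) (.e (nat_lit 1027) (nat_lit 81) (.e (nat_lit 1255) (nat_lit 92) (.e (nat_lit 98370) (nat_lit 28) (.e (nat_lit 450304) (nat_lit 18) .nil)))) .nil)) 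
(.lf (nat_lit 14121) (.g (nat_lit 2678) (.e (nat_lit 1029) (nat_lit 81) (.e (nat_lit 1858) (nat_lit 124) (.e (nat_lit 557105) (nat_lit 14) (.e (nat_lit 180252) (nat_lit 10) (.e (nat_lit 573489) (nat_lit 14) .nil))))) .nil))) (.nd (nat_lit 5) 
(.lf (nat_lit 14105) (.g (nat_lit 2342) (.e (nat_lit 1027) (nat_lit 81) (.e (nat_lit 2030) (nat_lit 140) (.e (nat_lit 688177) (nat_lit 16) (.e (nat_lit 65627) (nat_lit 13) (.e (nat_lit 393283) (nat_lit 24) .nil))))) .nil)) 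
(.lf (nat_lit 14137) (.g (nat_lit 3183) (.e (nat_lit 1032) (nat_lit 81) (.e (nat_lit 1416) (nat_lit 108) (.e (nat_lit 336456) (nat_lit 34) (.e (nat_lit 483383) (nat_lit 23) (.e (nat_lit 336019) (nat_lit 3) (.e (nat_lit 98334) (nat_lit 18) (.e (nat_lit 164159) (nat_lit 152) .nil))))))) (.g (nat_lit 7) .nil .nil)))))) (.nd (nat_lit 3) (.nd (nat_lit 4) (.nd (nat_lit 5) 
(.lf (nat_lit 14085) (.g (nat_lit 1626) (.e (nat_lit 1026) (nat_lit 81) (.e (nat_lit 1858) (nat_lit 124) (.e (nat_lit 557100) (nat_lit 13) (.e (nat_lit 172106) (nat_lit 10) .nil)))) .nil)) 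
(.lf (nat_lit 14117) (.g (nat_lit 1335) (.e (nat_lit 1028) (nat_lit 81) (.e (nat_lit 5905) (nat_lit 320) (.e (nat_lit 1211) (nat_lit 89) (.e (nat_lit 73781) (nat_lit 32) (.e (nat_lit 3089) (nat_lit 191) .nil))))) .nil))) (.nd (nat_lit 5) 
(.lf (nat_lit 14101) (.g (nat_lit 3611) (.e (nat_lit 1027) (nat_lit 81) (.e (nat_lit 1858) (nat_lit 124) (.e (nat_lit 557105) (nat_lit 14) (.e (nat_lit 180252) (nat_lit 10) (.e (nat_lit 573489) (nat_lit 14) (.e (nat_lit 73755) (nat_lit 8) (.e (nat_lit 557090) (nat_lit 12) (.e (nat_lit 164000) (nat_lit 38) (.e (nat_lit 639007) (nat_lit 13) .nil))))))))) (.g (nat_lit 6) .nil .nil))) 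
(.lf (nat_lit 14133) (.g (nat_lit 1479) (.e (nat_lit 1032) (nat_lit 81) (.e (nat_lit 1416) (nat_lit 108) (.e (nat_lit 336326) (nat_lit 18) (.e (nat_lit 204854) (nat_lit 26) (.e (nat_lit 336211) (nat_lit 13) .nil))))) .nil)))) (.nd (nat_lit 4) (.nd (nat_lit 5) 
(.lf (nat_lit 14093) (.g (nat_lit 2362) (.e (nat_lit 1027) (nat_lit 81) (.e (nat_lit 1858) (nat_lit 124) (.e (nat_lit 557100) (nat_lit 13) (.e (nat_lit 172106) (nat_lit 10) (.e (nat_lit 434231) (nat_lit 23) (.e (nat_lit 532544) (nat_lit 10) (.e (nat_lit 344168) (nat_lit 40) (.e (nat_lit 671746) (nat_lit 0) .nil)))))))) (.g (nat_lit 5) .nil .nil))) 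
(.lf (nat_lit 14125) (.g (nat_lit 2203) (.e (nat_lit 1030) (nat_lit 81) (.e (nat_lit 2030) (nat_lit 140) (.e (nat_lit 688177) (nat_lit 16) (.e (nat_lit 65586) (nat_lit 7) (.e (nat_lit 319531) (nat_lit 16) .nil))))) .nil))) (.nd (nat_lit 5) 
(.lf (nat_lit 14109) (.g (nat_lit 3723) (.e (nat_lit 1028) (nat_lit 81) (.e (nat_lit 1237) (nat_lit 91) (.e (nat_lit 90170) (nat_lit 13) (.e (nat_lit 172067) (nat_lit 3) (.e (nat_lit 204837) (nat_lit 20) (.e (nat_lit 114718) (nat_lit 23) (.e (nat_lit 98334) (nat_lit 18) (.e (nat_lit 164379) (nat_lit 254) .nil)))))))) (.g (nat_lit 5) .nil .nil))) 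
(.lf (nat_lit 14141) (.g (nat_lit 2862) (.e (nat_lit 1032) (nat_lit 81) (.e (nat_lit 1858) (nat_lit 124) (.e (nat_lit 557100) (nat_lit 13) (.e (nat_lit 172106) (nat_lit 10) (.e (nat_lit 434231) (nat_lit 23) (.e (nat_lit 532535) (nat_lit 9) (.e (nat_lit 335908) (nat_lit 0) (.e (nat_lit 1998) (nat_lit 137) (.e (nat_lit 663554) (nat_lit 0) .nil))))))))) (.g (nat_lit 7) .nil .nil))))))) 
(.nd (nat_lit 2) (.nd (nat_lit 3) (.nd (nat_lit 4) (.nd (nat_lit 5) 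
(.lf (nat_lit 14083) (.g (nat_lit 2184) (.e (nat_lit 1025) (nat_lit 81) (.e (nat_lit 2030) (nat_lit 140) (.e (nat_lit 688177) (nat_lit 16) (.e (nat_lit 65586) (nat_lit 7) (.e (nat_lit 319534) (nat_lit 16) .nil))))) .nil)) 
(.lf (nat_lit 14115) (.g (nat_lit 1920) (.e (nat_lit 1028) (nat_lit 81) (.e (nat_lit 5905) (nat_lit 320) (.e (nat_lit 1209) (nat_lit 89) (.e (nat_lit 73782) (nat_lit 32) .nil)))) .nil))) (.nd (nat_lit 5) 
(.lf (nat_lit 14099) (.g (nat_lit 5946) (.e (nat_lit 1027) (nat_lit 81) (.e (nat_lit 1858) (nat_lit 124) (.e (nat_lit 557105) (nat_lit 14) (.e (nat_lit 180252) (nat_lit 10) (.e (nat_lit 573489) (nat_lit 14) (.e (nat_lit 73755) (nat_lit 8) (.e (nat_lit 557090) (nat_lit 12) (.e (nat_lit 164000) (nat_lit 38) (.e (nat_lit 639005) (nat_lit 13) .nil))))))))) (.g (nat_lit 9) .nil .nil))) 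
(.lf (nat_lit 14131) (.g (nat_lit 2513) (.e (nat_lit 1031) (nat_lit 81) (.e (nat_lit 2030) (nat_lit 140) (.e (nat_lit 688177) (nat_lit 16) (.e (nat_lit 65586) (nat_lit 7) (.e (nat_lit 319531) (nat_lit 16) (.e (nat_lit 286748) (nat_lit 9) (.e (nat_lit 336295) (nat_lit 15) (.e (nat_lit 3632) (nat_lit 227) (.e (nat_lit 778248) (nat_lit 0) .nil))))))))) (.g (nat_lit 5) .nil .nil))))) 
(.nd (nat_lit 4) (.nd (nat_lit 5) 
(.lf (nat_lit 14091) (.g (nat_lit 1961) (.e (nat_lit 1027) (nat_lit 81) (.e (nat_lit 1858) (nat_lit 124) (.e (nat_lit 557100) (nat_lit 13) (.e (nat_lit 172106) (nat_lit 10) (.e (nat_lit 434231) (nat_lit 23) (.e (nat_lit 532535) (nat_lit 9) (.e (nat_lit 335905) (nat_lit 0) (.e (nat_lit 1996) (nat_lit 137) (.e (nat_lit 663554) (nat_lit 0) .nil))))))))) (.g (nat_lit 4) .nil .nil))) 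
(.lf (nat_lit 14123) (.g (nat_lit 2203) (.e (nat_lit 1029) (nat_lit 81) (.e (nat_lit 2030) (nat_lit 140) (.e (nat_lit 688177) (nat_lit 16) (.e (nat_lit 65586) (nat_lit 7) (.e (nat_lit 319531) (nat_lit 16) .nil))))) .nil))) (.nd (nat_lit 5) 
(.lf (nat_lit 14107) (.g (nat_lit 1898) (.e (nat_lit 1027) (nat_lit 81) (.e (nat_lit 7270) (nat_lit 385) (.e (nat_lit 122919) (nat_lit 15) (.e (nat_lit 360451) (nat_lit 0) .nil)))) .nil)) 
(.lf (nat_lit 14139) (.g (nat_lit 1416) (.e (nat_lit 1032) (nat_lit 81) (.e (nat_lit 1416) (nat_lit 108) (.e (nat_lit 336456) (nat_lit 34) (.e (nat_lit 483391) (nat_lit 23) (.e (nat_lit 336017) (nat_lit 3) (.e (nat_lit 98333) (nat_lit 18) (.e (nat_lit 164161) (nat_lit 152) .nil))))))) (.g (nat_lit 4) .nil .nil)))))) (.nd (nat_lit 3) (.nd (nat_lit 4) (.nd (nat_lit 5) 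
(.lf (nat_lit 14087) (.g (nat_lit 3336) (.e (nat_lit 1027) (nat_lit 81) (.e (nat_lit 1237) (nat_lit 91) (.e (nat_lit 90170) (nat_lit 13) (.e (nat_lit 172065) (nat_lit 3) (.e (nat_lit 204838) (nat_lit 20) .nil))))) .nil)) 
(.lf (nat_lit 14119) (.g (nat_lit 1417) (.e (nat_lit 1028) (nat_lit 81) (.e (nat_lit 5906) (nat_lit 320) (.e (nat_lit 1209) (nat_lit 89) (.e (nat_lit 73782) (nat_lit 32) .nil)))) .nil))) (.nd (nat_lit 5) 
(.lf (nat_lit 14103) (.g (nat_lit 2246) (.e (nat_lit 1027) (nat_lit 81) (.e (nat_lit 1859) (nat_lit 124) (.e (nat_lit 557105) (nat_lit 14) (.e (nat_lit 180252) (nat_lit 10) (.e (nat_lit 573489) (nat_lit 14) .nil))))) .nil)) 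
(.lf (nat_lit 14135) (.g (nat_lit 1680) (.e (nat_lit 1032) (nat_lit 81) (.e (nat_lit 1416) (nat_lit 108) (.e (nat_lit 336367) (nat_lit 27) (.e (nat_lit 426546) (nat_lit 30) (.e (nat_lit 360466) (nat_lit 3) (.e (nat_lit 516120) (nat_lit 1) (.e (nat_lit 164158) (nat_lit 152) .nil))))))) (.g (nat_lit 0) .nil .nil))))) (.nd (nat_lit 4) (.nd (nat_lit 5) 
(.lf (nat_lit 14095) (.g (nat_lit 3972) (.e (nat_lit 1027) (nat_lit 81) (.e (nat_lit 1858) (nat_lit 124) (.e (nat_lit 557105) (nat_lit 14) (.e (nat_lit 180252) (nat_lit 10) (.e (nat_lit 573489) (nat_lit 14) (.e (nat_lit 73755) (nat_lit 8) (.e (nat_lit 557089) (nat_lit 12) (.e (nat_lit 163999) (nat_lit 38) (.e (nat_lit 639005) (nat_lit 13) .nil))))))))) (.g (nat_lit 6) .nil .nil))) 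
(.lf (nat_lit 14127) (.g (nat_lit 2621) (.e (nat_lit 1030) (nat_lit 81) (.e (nat_lit 5589) (nat_lit 310) (.e (nat_lit 163875) (nat_lit 3) (.e (nat_lit 204863) (nat_lit 27) (.e (nat_lit 344117) (nat_lit 21) (.e (nat_lit 516123) (nat_lit 2) (.e (nat_lit 213013) (nat_lit 9) (.e (nat_lit 2684) (nat_lit 168) (.e (nat_lit 204817) (nat_lit 17) .nil))))))))) (.g (nat_lit 5) .nil .nil)))) (.nd (nat_lit 5) 
(.lf (nat_lit 14111) (.g (nat_lit 3888) (.e (nat_lit 1028) (nat_lit 81) (.e (nat_lit 1570) (nat_lit 110) (.e (nat_lit 352309) (nat_lit 21) (.e (nat_lit 57872) (nat_lit 264) (.e (nat_lit 1221) (nat_lit 90) (.e (nat_lit 81959) (nat_lit 24) (.e (nat_lit 123182) (nat_lit 264) .nil))))))) (.g (nat_lit 7) .nil .nil))) 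
(.lf (nat_lit 14143) (.g (nat_lit 4927) (.e (nat_lit 1032) (nat_lit 81) (.e (nat_lit 1858) (nat_lit 124) (.e (nat_lit 557100) (nat_lit 13) (.e (nat_lit 172106) (nat_lit 10) (.e (nat_lit 434231) (nat_lit 23) (.e (nat_lit 532544) (nat_lit 10) (.e (nat_lit 344169) (nat_lit 40) (.e (nat_lit 671748) (nat_lit 0) .nil)))))))) (.g (nat_lit 8) .nil .nil)))))))))

noncomputable def tv196 : DT := (.nd (nat_lit 0) (.nd (nat_lit 1) (.nd (nat_lit 2) (.nd (nat_lit 3) (.nd (nat_lit 4) (.nd (nat_lit 5) 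
(.lf (nat_lit 14144) (.g (nat_lit 2438) (.e (nat_lit 1032) (nat_lit 81) (.e (nat_lit 1858) (nat_lit 124) (.e (nat_lit 557105) (nat_lit 14) (.e (nat_lit 180251) (nat_lit 10) (.e (nat_lit 573489) (nat_lit 14) .nil))))) .nil)) 
(.lf (nat_lit 14176) (.g (nat_lit 2193) (.e (nat_lit 1035) (nat_lit 81) (.e (nat_lit 2030) (nat_lit 140) (.e (nat_lit 688177) (nat_lit 16) (.e (nat_lit 65586) (nat_lit 7) (.e (nat_lit 319531) (nat_lit 16) .nil))))) .nil))) (.nd (nat_lit 5) 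
(.lf (nat_lit 14160) (.g (nat_lit 2023) (.e (nat_lit 1033) (nat_lit 81) (.e (nat_lit 1858) (nat_lit 124) (.e (nat_lit 557100) (nat_lit 13) (.e (nat_lit 172106) (nat_lit 10) (.e (nat_lit 434231) (nat_lit 23) (.e (nat_lit 532535) (nat_lit 9) (.e (nat_lit 336295) (nat_lit 15) (.e (nat_lit 3629) (nat_lit 227) (.e (nat_lit 778295) (nat_lit 0) .nil))))))))) (.g (nat_lit 4) .nil .nil))) 
(.lf (nat_lit 14192) (.g (nat_lit 1372) (.e (nat_lit 1036) (nat_lit 81) (.e (nat_lit 7270) (nat_lit 385) (.e (nat_lit 122916) (nat_lit 14) (.e (nat_lit 352324) (nat_lit 26) .nil)))) .nil)))) (.nd (nat_lit 4) (.nd (nat_lit 5) 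
(.lf (nat_lit 14152) (.g (nat_lit 2674) (.e (nat_lit 1032) (nat_lit 81) (.e (nat_lit 1858) (nat_lit 124) (.e (nat_lit 557105) (nat_lit 14) (.e (nat_lit 180252) (nat_lit 10) (.e (nat_lit 573489) (nat_lit 14) (.e (nat_lit 73755) (nat_lit 8) (.e (nat_lit 557091) (nat_lit 12) (.e (nat_lit 164000) (nat_lit 38) (.e (nat_lit 639007) (nat_lit 13) .nil))))))))) (.g (nat_lit 4) .nil .nil))) 
(.lf (nat_lit 14184) (.g (nat_lit 5172) (.e (nat_lit 1035) (nat_lit 81) (.e (nat_lit 2281) (nat_lit 150) (.e (nat_lit 770072) (nat_lit 8) (.e (nat_lit 65583) (nat_lit 7) (.e (nat_lit 319530) (nat_lit 16) (.e (nat_lit 286756) (nat_lit 10) (.e (nat_lit 344160) (nat_lit 37) (.e (nat_lit 647190) (nat_lit 9) .nil)))))))) (.g (nat_lit 8) .nil .nil)))) (.nd (nat_lit 5) 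
(.lf (nat_lit 14168) (.g (nat_lit 1884) (.e (nat_lit 1035) (nat_lit 81) (.e (nat_lit 1858) (nat_lit 124) (.e (nat_lit 557105) (nat_lit 14) (.e (nat_lit 180252) (nat_lit 10) .nil)))) .nil)) 
(.lf (nat_lit 14200) (.g (nat_lit 2235) (.e (nat_lit 1036) (nat_lit 81) (.e (nat_lit 7270) (nat_lit 385) (.e (nat_lit 122919) (nat_lit 15) (.e (nat_lit 360449) (nat_lit 0) .nil)))) .nil))))) (.nd (nat_lit 3) (.nd (nat_lit 4) (.nd (nat_lit 5) 
(.lf (nat_lit 14148) (.g (nat_lit 2732) (.e (nat_lit 1032) (nat_lit 81) (.e (nat_lit 1858) (nat_lit 124) (.e (nat_lit 557105) (nat_lit 14) (.e (nat_lit 180252) (nat_lit 10) (.e (nat_lit 573489) (nat_lit 14) (.e (nat_lit 73755) (nat_lit 8) (.e (nat_lit 557089) (nat_lit 12) (.e (nat_lit 164000) (nat_lit 38) (.e (nat_lit 639007) (nat_lit 13) .nil))))))))) (.g (nat_lit 5) .nil .nil))) 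
(.lf (nat_lit 14180) (.g (nat_lit 1560) (.e (nat_lit 1035) (nat_lit 81) (.e (nat_lit 2281) (nat_lit 150) (.e (nat_lit 770072) (nat_lit 8) (.e (nat_lit 65569) (nat_lit 3) .nil)))) .nil))) (.nd (nat_lit 5) 
(.lf (nat_lit 14164) (.g (nat_lit 2594) (.e (nat_lit 1035) (nat_lit 81) (.e (nat_lit 1650) (nat_lit 115) (.e (nat_lit 393229) (nat_lit 9) (.e (nat_lit 336186) (nat_lit 11) (.e (nat_lit 368676) (nat_lit 21) (.e (nat_lit 516117) (nat_lit 1) (.e (nat_lit 164159) (nat_lit 152) .nil))))))) (.g (nat_lit 7) .nil .nil))) 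
(.lf (nat_lit 14196) (.g (nat_lit 1657) (.e (nat_lit 1036) (nat_lit 81) (.e (nat_lit 7270) (nat_lit 385) (.e (nat_lit 122917) (nat_lit 15) (.e (nat_lit 360491) (nat_lit 22) .nil)))) .nil)))) (.nd (nat_lit 4) (.nd (nat_lit 5) 
(.lf (nat_lit 14156) (.g (nat_lit 2093) (.e (nat_lit 1032) (nat_lit 81) (.e (nat_lit 2281) (nat_lit 150) (.e (nat_lit 770072) (nat_lit 8) (.e (nat_lit 65586) (nat_lit 7) (.e (nat_lit 319533) (nat_lit 16) .nil))))) .nil)) 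
(.lf (nat_lit 14188) (.g (nat_lit 1128) (.e (nat_lit 1036) (nat_lit 81) (.e (nat_lit 1524) (nat_lit 108) (.e (nat_lit 336213) (nat_lit 13) (.e (nat_lit 393233) (nat_lit 17) (.e (nat_lit 7591) (nat_lit 407) .nil))))) .nil))) (.nd (nat_lit 5) 
(.lf (nat_lit 14172) (.g (nat_lit 4613) (.e (nat_lit 1035) (nat_lit 81) (.e (nat_lit 1858) (nat_lit 124) (.e (nat_lit 557105) (nat_lit 14) (.e (nat_lit 180252) (nat_lit 10) (.e (nat_lit 573489) (nat_lit 14) (.e (nat_lit 73755) (nat_lit 8) (.e (nat_lit 557090) (nat_lit 12) (.e (nat_lit 164000) (nat_lit 38) (.e (nat_lit 639008) (nat_lit 13) .nil))))))))) (.g (nat_lit 7) .nil .nil))) 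
(.lf (nat_lit 14204) (.g (nat_lit 3190) (.e (nat_lit 1036) (nat_lit 81) (.e (nat_lit 7270) (nat_lit 385) (.e (nat_lit 122919) (nat_lit 15) (.e (nat_lit 360451) (nat_lit 0) (.e (nat_lit 7125) (nat_lit 382) .nil))))) .nil)))))) (.nd (nat_lit 2) (.nd (nat_lit 3) (.nd (nat_lit 4) (.nd (nat_lit 5) 
(.lf (nat_lit 14146) (.g (nat_lit 2377) (.e (nat_lit 1032) (nat_lit 81) (.e (nat_lit 1858) (nat_lit 124) (.e (nat_lit 557105) (nat_lit 14) (.e (nat_lit 180252) (nat_lit 10) (.e (nat_lit 573489) (nat_lit 14) .nil))))) .nil)) 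
(.lf (nat_lit 14178) (.g (nat_lit 1666) (.e (nat_lit 1035) (nat_lit 81) (.e (nat_lit 2030) (nat_lit 140) (.e (nat_lit 688177) (nat_lit 16) (.e (nat_lit 65625) (nat_lit 13) .nil)))) .nil))) (.nd (nat_lit 5) 
(.lf (nat_lit 14162) (.g (nat_lit 1742) (.e (nat_lit 1033) (nat_lit 81) (.e (nat_lit 2281) (nat_lit 150) (.e (nat_lit 770072) (nat_lit 8) (.e (nat_lit 65566) (nat_lit 2) .nil)))) .nil)) 
(.lf (nat_lit 14194) (.g (nat_lit 610) (.e (nat_lit 1036) (nat_lit 81) (.e (nat_lit 7270) (nat_lit 385) (.e (nat_lit 122917) (nat_lit 15) .nil))) .nil)))) (.nd (nat_lit 4) (.nd (nat_lit 5) 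
(.lf (nat_lit 14154) (.g (nat_lit 4359) (.e (nat_lit 1032) (nat_lit 81) (.e (nat_lit 2281) (nat_lit 150) (.e (nat_lit 770072) (nat_lit 8) (.e (nat_lit 65566) (nat_lit 2) (.e (nat_lit 90170) (nat_lit 13) (.e (nat_lit 172106) (nat_lit 10) (.e (nat_lit 434244) (nat_lit 28) (.e (nat_lit 573451) (nat_lit 9) .nil)))))))) (.g (nat_lit 8) .nil .nil))) 
(.lf (nat_lit 14186) (.g (nat_lit 5500) (.e (nat_lit 1035) (nat_lit 81) (.e (nat_lit 2281) (nat_lit 150) (.e (nat_lit 770072) (nat_lit 8) (.e (nat_lit 65586) (nat_lit 7) (.e (nat_lit 319531) (nat_lit 16) (.e (nat_lit 286756) (nat_lit 10) (.e (nat_lit 344160) (nat_lit 37) (.e (nat_lit 647190) (nat_lit 9) .nil)))))))) (.g (nat_lit 8) .nil .nil)))) (.nd (nat_lit 5) 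
(.lf (nat_lit 14170) (.g (nat_lit 2986) (.e (nat_lit 1035) (nat_lit 81) (.e (nat_lit 1858) (nat_lit 124) (.e (nat_lit 557105) (nat_lit 14) (.e (nat_lit 180252) (nat_lit 10) (.e (nat_lit 573489) (nat_lit 14) (.e (nat_lit 73755) (nat_lit 8) (.e (nat_lit 557089) (nat_lit 12) (.e (nat_lit 164000) (nat_lit 38) (.e (nat_lit 639007) (nat_lit 13) .nil))))))))) (.g (nat_lit 5) .nil .nil))) 
(.lf (nat_lit 14202) (.g (nat_lit 1511) (.e (nat_lit 1036) (nat_lit 81) (.e (nat_lit 7270) (nat_lit 385) (.e (nat_lit 122919) (nat_lit 15) (.e (nat_lit 360451) (nat_lit 0) .nil)))) .nil))))) (.nd (nat_lit 3) (.nd (nat_lit 4) (.nd (nat_lit 5) 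
(.lf (nat_lit 14150) (.g (nat_lit 2738) (.e (nat_lit 1032) (nat_lit 81) (.e (nat_lit 1858) (nat_lit 124) (.e (nat_lit 557105) (nat_lit 14) (.e (nat_lit 180252) (nat_lit 10) (.e (nat_lit 573489) (nat_lit 14) (.e (nat_lit 73755) (nat_lit 8) (.e (nat_lit 557090) (nat_lit 12) (.e (nat_lit 163998) (nat_lit 38) (.e (nat_lit 639008) (nat_lit 13) .nil))))))))) (.g (nat_lit 5) .nil .nil))) 
(.lf (nat_lit 14182) (.g (nat_lit 5138) (.e (nat_lit 1035) (nat_lit 81) (.e (nat_lit 2281) (nat_lit 150) (.e (nat_lit 770072) (nat_lit 8) (.e (nat_lit 65582) (nat_lit 7) (.e (nat_lit 319531) (nat_lit 16) (.e (nat_lit 286756) (nat_lit 10) (.e (nat_lit 344160) (nat_lit 37) (.e (nat_lit 647190) (nat_lit 9) .nil)))))))) (.g (nat_lit 8) .nil .nil)))) (.nd (nat_lit 5) 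
(.lf (nat_lit 14166) (.g (nat_lit 2062) (.e (nat_lit 1035) (nat_lit 81) (.e (nat_lit 1858) (nat_lit 124) (.e (nat_lit 557100) (nat_lit 13) (.e (nat_lit 172106) (nat_lit 10) (.e (nat_lit 434231) (nat_lit 23) (.e (nat_lit 532535) (nat_lit 9) (.e (nat_lit 335908) (nat_lit 0) (.e (nat_lit 1998) (nat_lit 137) (.e (nat_lit 663554) (nat_lit 0) .nil))))))))) (.g (nat_lit 4) .nil .nil))) 
(.lf (nat_lit 14198) (.g (nat_lit 1293) (.e (nat_lit 1036) (nat_lit 81) (.e (nat_lit 7270) (nat_lit 385) (.e (nat_lit 122917) (nat_lit 15) (.e (nat_lit 368384) (nat_lit 24) .nil)))) .nil)))) (.nd (nat_lit 4) (.nd (nat_lit 5) 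
(.lf (nat_lit 14158) (.g (nat_lit 3183) (.e (nat_lit 1032) (nat_lit 81) (.e (nat_lit 5589) (nat_lit 310) (.e (nat_lit 163875) (nat_lit 3) (.e (nat_lit 204861) (nat_lit 26) (.e (nat_lit 336213) (nat_lit 13) (.e (nat_lit 393225) (nat_lit 9) (.e (nat_lit 335914) (nat_lit 0) .nil))))))) (.g (nat_lit 7) .nil .nil))) 
(.lf (nat_lit 14190) (.g (nat_lit 1996) (.e (nat_lit 1036) (nat_lit 81) (.e (nat_lit 1858) (nat_lit 124) (.e (nat_lit 557100) (nat_lit 13) (.e (nat_lit 172106) (nat_lit 10) (.e (nat_lit 434231) (nat_lit 23) .nil))))) .nil))) (.nd (nat_lit 5) 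
(.lf (nat_lit 14174) (.g (nat_lit 2847) (.e (nat_lit 1035) (nat_lit 81) (.e (nat_lit 2030) (nat_lit 140) (.e (nat_lit 688177) (nat_lit 16) (.e (nat_lit 65583) (nat_lit 7) (.e (nat_lit 319530) (nat_lit 16) (.e (nat_lit 286759) (nat_lit 12) (.e (nat_lit 385094) (nat_lit 49) (.e (nat_lit 778246) (nat_lit 0) .nil)))))))) (.g (nat_lit 5) .nil .nil))) 
(.lf (nat_lit 14206) (.g (nat_lit 1930) (.e (nat_lit 1036) (nat_lit 81) (.e (nat_lit 7270) (nat_lit 385) (.e (nat_lit 122919) (nat_lit 15) (.e (nat_lit 360453) (nat_lit 0) .nil)))) .nil))))))) (.nd (nat_lit 1) (.nd (nat_lit 2) (.nd (nat_lit 3) (.nd (nat_lit 4) (.nd (nat_lit 5) 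
(.lf (nat_lit 14145) (.g (nat_lit 2718) (.e (nat_lit 1032) (nat_lit 81) (.e (nat_lit 1858) (nat_lit 124) (.e (nat_lit 557105) (nat_lit 14) (.e (nat_lit 180252) (nat_lit 10) (.e (nat_lit 573487) (nat_lit 14) .nil))))) .nil)) 
(.lf (nat_lit 14177) (.g (nat_lit 4441) (.e (nat_lit 1035) (nat_lit 81) (.e (nat_lit 2030) (nat_lit 140) (.e (nat_lit 688177) (nat_lit 16) (.e (nat_lit 65586) (nat_lit 7) (.e (nat_lit 319531) (nat_lit 16) (.e (nat_lit 286759) (nat_lit 12) (.e (nat_lit 385094) (nat_lit 49) (.e (nat_lit 778241) (nat_lit 0) .nil)))))))) (.g (nat_lit 8) .nil .nil)))) (.nd (nat_lit 5) 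
(.lf (nat_lit 14161) (.g (nat_lit 1654) (.e (nat_lit 1033) (nat_lit 81) (.e (nat_lit 2281) (nat_lit 150) (.e (nat_lit 770069) (nat_lit 7) (.e (nat_lit 57480) (nat_lit 28) (.e (nat_lit 557105) (nat_lit 14) .nil))))) .nil)) 
(.lf (nat_lit 14193) (.g (nat_lit 2090) (.e (nat_lit 1036) (nat_lit 81) (.e (nat_lit 7270) (nat_lit 385) (.e (nat_lit 122916) (nat_lit 14) (.e (nat_lit 352324) (nat_lit 26) (.e (nat_lit 147494) (nat_lit 11) (.e (nat_lit 24638) (nat_lit 9) (.e (nat_lit 335892) (nat_lit 0) .nil))))))) (.g (nat_lit 4) .nil .nil))))) (.nd (nat_lit 4) (.nd (nat_lit 5) 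
(.lf (nat_lit 14153) (.g (nat_lit 1845) (.e (nat_lit 1032) (nat_lit 81) (.e (nat_lit 2030) (nat_lit 140) (.e (nat_lit 688177) (nat_lit 16) (.e (nat_lit 65581) (nat_lit 7) .nil)))) .nil)) 
(.lf (nat_lit 14185) (.g (nat_lit 1674) (.e (nat_lit 1035) (nat_lit 81) (.e (nat_lit 2281) (nat_lit 150) (.e (nat_lit 770072) (nat_lit 8) (.e (nat_lit 65585) (nat_lit 7) (.e (nat_lit 319533) (nat_lit 16) .nil))))) .nil))) (.nd (nat_lit 5) 
(.lf (nat_lit 14169) (.g (nat_lit 3175) (.e (nat_lit 1035) (nat_lit 81) (.e (nat_lit 1858) (nat_lit 124) (.e (nat_lit 557105) (nat_lit 14) (.e (nat_lit 180252) (nat_lit 10) (.e (nat_lit 573489) (nat_lit 14) (.e (nat_lit 73755) (nat_lit 8) (.e (nat_lit 557089) (nat_lit 12) (.e (nat_lit 163999) (nat_lit 38) (.e (nat_lit 639007) (nat_lit 13) .nil))))))))) (.g (nat_lit 5) .nil .nil))) 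
(.lf (nat_lit 14201) (.g (nat_lit 1634) (.e (nat_lit 1036) (nat_lit 81) (.e (nat_lit 7270) (nat_lit 385) (.e (nat_lit 122919) (nat_lit 15) (.e (nat_lit 360450) (nat_lit 0) .nil)))) .nil))))) (.nd (nat_lit 3) (.nd (nat_lit 4) (.nd (nat_lit 5) 
(.lf (nat_lit 14149) (.g (nat_lit 2513) (.e (nat_lit 1032) (nat_lit 81) (.e (nat_lit 1858) (nat_lit 124) (.e (nat_lit 557105) (nat_lit 14) (.e (nat_lit 180252) (nat_lit 10) (.e (nat_lit 573489) (nat_lit 14) (.e (nat_lit 73755) (nat_lit 8) (.e (nat_lit 557090) (nat_lit 12) (.e (nat_lit 163997) (nat_lit 37) (.e (nat_lit 630809) (nat_lit 13) .nil))))))))) (.g (nat_lit 4) .nil .nil))) 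
(.lf (nat_lit 14181) (.g (nat_lit 2930) (.e (nat_lit 1035) (nat_lit 81) (.e (nat_lit 2281) (nat_lit 150) (.e (nat_lit 770072) (nat_lit 8) (.e (nat_lit 65571) (nat_lit 3) (.e (nat_lit 98372) (nat_lit 29) .nil))))) .nil))) (.nd (nat_lit 5) 
(.lf (nat_lit 14165) (.g (nat_lit 1996) (.e (nat_lit 1035) (nat_lit 81) (.e (nat_lit 1858) (nat_lit 124) (.e (nat_lit 557100) (nat_lit 13) (.e (nat_lit 172106) (nat_lit 10) (.e (nat_lit 434231) (nat_lit 23) .nil))))) .nil)) 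
(.lf (nat_lit 14197) (.g (nat_lit 1696) (.e (nat_lit 1036) (nat_lit 81) (.e (nat_lit 7270) (nat_lit 385) (.e (nat_lit 122917) (nat_lit 15) (.e (nat_lit 360492) (nat_lit 22) .nil)))) .nil)))) (.nd (nat_lit 4) (.nd (nat_lit 5) 
(.lf (nat_lit 14157) (.g (nat_lit 3521) (.e (nat_lit 1032) (nat_lit 81) (.e (nat_lit 5587) (nat_lit 310) (.e (nat_lit 163875) (nat_lit 3) (.e (nat_lit 204861) (nat_lit 26) (.e (nat_lit 336213) (nat_lit 13) (.e (nat_lit 393225) (nat_lit 9) (.e (nat_lit 335914) (nat_lit 0) .nil))))))) (.g (nat_lit 7) .nil .nil))) 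
(.lf (nat_lit 14189) (.g (nat_lit 1300) (.e (nat_lit 1036) (nat_lit 81) (.e (nat_lit 1524) (nat_lit 108) (.e (nat_lit 336213) (nat_lit 13) (.e (nat_lit 393300) (nat_lit 27) (.e (nat_lit 491560) (nat_lit 10) .nil))))) .nil))) (.nd (nat_lit 5) 
(.lf (nat_lit 14173) (.g (nat_lit 2928) (.e (nat_lit 1035) (nat_lit 81) (.e (nat_lit 1858) (nat_lit 124) (.e (nat_lit 557105) (nat_lit 14) (.e (nat_lit 180252) (nat_lit 10) (.e (nat_lit 573489) (nat_lit 14) (.e (nat_lit 73755) (nat_lit 8) (.e (nat_lit 557091) (nat_lit 12) (.e (nat_lit 164000) (nat_lit 38) (.e (nat_lit 639007) (nat_lit 13) .nil))))))))) (.g (nat_lit 4) .nil .nil))) 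
(.lf (nat_lit 14205) (.g (nat_lit 2135) (.e (nat_lit 1036) (nat_lit 81) (.e (nat_lit 7270) (nat_lit 385) (.e (nat_lit 122919) (nat_lit 15) (.e (nat_lit 360451) (nat_lit 0) (.e (nat_lit 7261) (nat_lit 384) .nil))))) .nil)))))) (.nd (nat_lit 2) (.nd (nat_lit 3) (.nd (nat_lit 4) (.nd (nat_lit 5) 
(.lf (nat_lit 14147) (.g (nat_lit 2921) (.e (nat_lit 1032) (nat_lit 81) (.e (nat_lit 1858) (nat_lit 124) (.e (nat_lit 557105) (nat_lit 14) (.e (nat_lit 180252) (nat_lit 10) (.e (nat_lit 573489) (nat_lit 14) (.e (nat_lit 73755) (nat_lit 8) (.e (nat_lit 557089) (nat_lit 12) (.e (nat_lit 163999) (nat_lit 38) (.e (nat_lit 639007) (nat_lit 13) .nil))))))))) (.g (nat_lit 5) .nil .nil))) 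
(.lf (nat_lit 14179) (.g (nat_lit 1708) (.e (nat_lit 1035) (nat_lit 81) (.e (nat_lit 2281) (nat_lit 150) (.e (nat_lit 770072) (nat_lit 8) (.e (nat_lit 65566) (nat_lit 2) .nil)))) .nil))) (.nd (nat_lit 5) 
(.lf (nat_lit 14163) (.g (nat_lit 2438) (.e (nat_lit 1033) (nat_lit 81) (.e (nat_lit 2281) (nat_lit 150) (.e (nat_lit 770072) (nat_lit 8) (.e (nat_lit 65568) (nat_lit 2) (.e (nat_lit 90170) (nat_lit 13) .nil))))) .nil)) 
(.lf (nat_lit 14195) (.g (nat_lit 1848) (.e (nat_lit 1036) (nat_lit 81) (.e (nat_lit 7270) (nat_lit 385) (.e (nat_lit 122917) (nat_lit 15) (.e (nat_lit 360449) (nat_lit 0) (.e (nat_lit 7265) (nat_lit 384) .nil))))) .nil)))) (.nd (nat_lit 4) (.nd (nat_lit 5) 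
(.lf (nat_lit 14155) (.g (nat_lit 4927) (.e (nat_lit 1032) (nat_lit 81) (.e (nat_lit 2281) (nat_lit 150) (.e (nat_lit 770072) (nat_lit 8) (.e (nat_lit 65568) (nat_lit 2) (.e (nat_lit 90170) (nat_lit 13) (.e (nat_lit 172106) (nat_lit 10) (.e (nat_lit 434244) (nat_lit 28) (.e (nat_lit 573451) (nat_lit 9) .nil)))))))) (.g (nat_lit 8) .nil .nil))) 
(.lf (nat_lit 14187) (.g (nat_lit 5483) (.e (nat_lit 1035) (nat_lit 81) (.e (nat_lit 2281) (nat_lit 150) (.e (nat_lit 770072) (nat_lit 8) (.e (nat_lit 65586) (nat_lit 7) (.e (nat_lit 319534) (nat_lit 16) (.e (nat_lit 286756) (nat_lit 10) (.e (nat_lit 344160) (nat_lit 37) (.e (nat_lit 647190) (nat_lit 9) .nil)))))))) (.g (nat_lit 8) .nil .nil)))) (.nd (nat_lit 5) 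
(.lf (nat_lit 14171) (.g (nat_lit 3944) (.e (nat_lit 1035) (nat_lit 81) (.e (nat_lit 1858) (nat_lit 124) (.e (nat_lit 557105) (nat_lit 14) (.e (nat_lit 180252) (nat_lit 10) (.e (nat_lit 573489) (nat_lit 14) (.e (nat_lit 73755) (nat_lit 8) (.e (nat_lit 557089) (nat_lit 12) (.e (nat_lit 164000) (nat_lit 38) (.e (nat_lit 639008) (nat_lit 13) .nil))))))))) (.g (nat_lit 6) .nil .nil))) 
(.lf (nat_lit 14203) (.g (nat_lit 3001) (.e (nat_lit 1036) (nat_lit 81) (.e (nat_lit 7270) (nat_lit 385) (.e (nat_lit 122919) (nat_lit 15) (.e (nat_lit 360451) (nat_lit 0) (.e (nat_lit 7119) (nat_lit 382) .nil))))) .nil))))) (.nd (nat_lit 3) (.nd (nat_lit 4) (.nd (nat_lit 5) 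
(.lf (nat_lit 14151) (.g (nat_lit 5480) (.e (nat_lit 1032) (nat_lit 81) (.e (nat_lit 1858) (nat_lit 124) (.e (nat_lit 557105) (nat_lit 14) (.e (nat_lit 180252) (nat_lit 10) (.e (nat_lit 573489) (nat_lit 14) (.e (nat_lit 73755) (nat_lit 8) (.e (nat_lit 557090) (nat_lit 12) (.e (nat_lit 164000) (nat_lit 38) (.e (nat_lit 639008) (nat_lit 13) .nil))))))))) (.g (nat_lit 9) .nil .nil))) 
(.lf (nat_lit 14183) (.g (nat_lit 5611) (.e (nat_lit 1035) (nat_lit 81) (.e (nat_lit 2281) (nat_lit 150) (.e (nat_lit 770072) (nat_lit 8) (.e (nat_lit 65582) (nat_lit 7) (.e (nat_lit 319534) (nat_lit 16) (.e (nat_lit 286756) (nat_lit 10) (.e (nat_lit 344160) (nat_lit 37) (.e (nat_lit 647190) (nat_lit 9) .nil)))))))) (.g (nat_lit 8) .nil .nil)))) (.nd (nat_lit 5) 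
(.lf (nat_lit 14167) (.g (nat_lit 2068) (.e (nat_lit 1035) (nat_lit 81) (.e (nat_lit 1858) (nat_lit 124) (.e (nat_lit 557100) (nat_lit 13) (.e (nat_lit 172106) (nat_lit 10) (.e (nat_lit 434231) (nat_lit 23) (.e (nat_lit 532535) (nat_lit 9) (.e (nat_lit 335925) (nat_lit 0) (.e (nat_lit 2006) (nat_lit 138) (.e (nat_lit 671748) (nat_lit 0) .nil))))))))) (.g (nat_lit 4) .nil .nil))) 
(.lf (nat_lit 14199) (.g (nat_lit 429) (.e (nat_lit 1036) (nat_lit 81) (.e (nat_lit 7270) (nat_lit 385) (.e (nat_lit 122919) (nat_lit 15) .nil))) .nil)))) (.nd (nat_lit 4) (.nd (nat_lit 5) 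
(.lf (nat_lit 14159) (.g (nat_lit 3371) (.e (nat_lit 1033) (nat_lit 81) (.e (nat_lit 1234) (nat_lit 91) (.e (nat_lit 90170) (nat_lit 13) (.e (nat_lit 172106) (nat_lit 10) (.e (nat_lit 434231) (nat_lit 23) .nil))))) .nil)) 
(.lf (nat_lit 14191) (.g (nat_lit 564) (.e (nat_lit 1036) (nat_lit 81) (.e (nat_lit 7270) (nat_lit 385) (.e (nat_lit 122916) (nat_lit 14) .nil))) .nil))) (.nd (nat_lit 5) 
(.lf (nat_lit 14175) (.g (nat_lit 1984) (.e (nat_lit 1035) (nat_lit 81) (.e (nat_lit 2030) (nat_lit 140) (.e (nat_lit 688177) (nat_lit 16) (.e (nat_lit 65585) (nat_lit 7) (.e (nat_lit 319533) (nat_lit 16) .nil))))) .nil)) 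
(.lf (nat_lit 14207) (.g (nat_lit 2142) (.e (nat_lit 1036) (nat_lit 81) (.e (nat_lit 7270) (nat_lit 385) (.e (nat_lit 122919) (nat_lit 15) (.e (nat_lit 360488) (nat_lit 20) .nil)))) .nil))))))))

noncomputable def tv197 : DT := (.nd (nat_lit 0) (.nd (nat_lit 1) (.nd (nat_lit 2) (.nd (nat_lit 3) (.nd (nat_lit 4) (.nd (nat_lit 5) 
(.lf (nat_lit 14208) (.g (nat_lit 2201) (.e (nat_lit 1036) (nat_lit 81) (.e (nat_lit 7270) (nat_lit 385) (.e (nat_lit 122919) (nat_lit 15) (.e (nat_lit 360491) (nat_lit 22) .nil)))) .nil)) 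
(.lf (nat_lit 14240) (.g (nat_lit 1973) (.e (nat_lit 1037) (nat_lit 81) (.e (nat_lit 5906) (nat_lit 320) (.e (nat_lit 1209) (nat_lit 89) (.e (nat_lit 73781) (nat_lit 32) (.e (nat_lit 3090) (nat_lit 191) .nil))))) .nil))) (.nd (nat_lit 5) 
(.lf (nat_lit 14224) (.g (nat_lit 2162) (.e (nat_lit 1037) (nat_lit 81) (.e (nat_lit 5195) (nat_lit 294) (.e (nat_lit 57372) (nat_lit 2) (.e (nat_lit 90158) (nat_lit 11) (.e (nat_lit 24655) (nat_lit 13) (.e (nat_lit 393227) (nat_lit 9) (.e (nat_lit 335958) (nat_lit 0) .nil))))))) (.g (nat_lit 5) .nil .nil))) 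
(.lf (nat_lit 14256) (.g (nat_lit 3416) (.e (nat_lit 1039) (nat_lit 81) (.e (nat_lit 1234) (nat_lit 91) (.e (nat_lit 90170) (nat_lit 13) (.e (nat_lit 172106) (nat_lit 10) (.e (nat_lit 434231) (nat_lit 23) (.e (nat_lit 532535) (nat_lit 9) (.e (nat_lit 335900) (nat_lit 0) (.e (nat_lit 983) (nat_lit 81) (.e (nat_lit 4797) (nat_lit 281) .nil))))))))) (.g (nat_lit 4) .nil .nil))))) 
(.nd (nat_lit 4) (.nd (nat_lit 5) 
(.lf (nat_lit 14216) (.g (nat_lit 2037) (.e (nat_lit 1037) (nat_lit 81) (.e (nat_lit 1858) (nat_lit 124) (.e (nat_lit 557100) (nat_lit 13) (.e (nat_lit 172106) (nat_lit 10) (.e (nat_lit 434231) (nat_lit 23) .nil))))) .nil)) 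
(.lf (nat_lit 14248) (.g (nat_lit 2027) (.e (nat_lit 1038) (nat_lit 81) (.e (nat_lit 1234) (nat_lit 91) (.e (nat_lit 90158) (nat_lit 11) (.e (nat_lit 24658) (nat_lit 13) (.e (nat_lit 393229) (nat_lit 9) .nil))))) .nil))) (.nd (nat_lit 5) 
(.lf (nat_lit 14232) (.g (nat_lit 2497) (.e (nat_lit 1037) (nat_lit 81) (.e (nat_lit 5195) (nat_lit 294) (.e (nat_lit 57377) (nat_lit 3) (.e (nat_lit 98317) (nat_lit 9) (.e (nat_lit 336213) (nat_lit 13) (.e (nat_lit 393227) (nat_lit 9) (.e (nat_lit 335958) (nat_lit 0) .nil))))))) (.g (nat_lit 6) .nil .nil))) 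
(.lf (nat_lit 14264) (.g (nat_lit 5585) (.e (nat_lit 1039) (nat_lit 81) (.e (nat_lit 1234) (nat_lit 91) (.e (nat_lit 90170) (nat_lit 13) (.e (nat_lit 172106) (nat_lit 10) (.e (nat_lit 434231) (nat_lit 23) (.e (nat_lit 532535) (nat_lit 9) (.e (nat_lit 335905) (nat_lit 0) (.e (nat_lit 973) (nat_lit 81) (.e (nat_lit 4805) (nat_lit 281) .nil))))))))) (.g (nat_lit 7) .nil .nil)))))) 
(.nd (nat_lit 3) (.nd (nat_lit 4) (.nd (nat_lit 5) 
(.lf (nat_lit 14212) (.g (nat_lit 3371) (.e (nat_lit 1037) (nat_lit 81) (.e (nat_lit 1234) (nat_lit 91) (.e (nat_lit 90170) (nat_lit 13) (.e (nat_lit 172106) (nat_lit 10) (.e (nat_lit 434231) (nat_lit 23) .nil))))) .nil)) 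
(.lf (nat_lit 14244) (.g (nat_lit 3472) (.e (nat_lit 1037) (nat_lit 81) (.e (nat_lit 6489) (nat_lit 343) (.e (nat_lit 1659) (nat_lit 115) (.e (nat_lit 393301) (nat_lit 27) (.e (nat_lit 491560) (nat_lit 10) (.e (nat_lit 344173) (nat_lit 42) (.e (nat_lit 761867) (nat_lit 5) .nil))))))) (.g (nat_lit 6) .nil .nil)))) (.nd (nat_lit 5) 
(.lf (nat_lit 14228) (.g (nat_lit 1902) (.e (nat_lit 1037) (nat_lit 81) (.e (nat_lit 5195) (nat_lit 294) (.e (nat_lit 57375) (nat_lit 2) (.e (nat_lit 90157) (nat_lit 11) (.e (nat_lit 24657) (nat_lit 13) (.e (nat_lit 393227) (nat_lit 9) (.e (nat_lit 335958) (nat_lit 0) .nil))))))) (.g (nat_lit 5) .nil .nil))) 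
(.lf (nat_lit 14260) (.g (nat_lit 3495) (.e (nat_lit 1039) (nat_lit 81) (.e (nat_lit 1234) (nat_lit 91) (.e (nat_lit 90170) (nat_lit 13) (.e (nat_lit 172106) (nat_lit 10) (.e (nat_lit 434231) (nat_lit 23) (.e (nat_lit 532535) (nat_lit 9) (.e (nat_lit 335900) (nat_lit 0) (.e (nat_lit 1049) (nat_lit 81) (.e (nat_lit 4804) (nat_lit 281) .nil))))))))) (.g (nat_lit 4) .nil .nil))))) 
(.nd (nat_lit 4) (.nd (nat_lit 5) 
(.lf (nat_lit 14220) (.g (nat_lit 2658) (.e (nat_lit 1037) (nat_lit 81) (.e (nat_lit 1859) (nat_lit 124) (.e (nat_lit 557107) (nat_lit 15) (.e (nat_lit 188450) (nat_lit 23) (.e (nat_lit 204852) (nat_lit 26) (.e (nat_lit 336355) (nat_lit 24) (.e (nat_lit 262145) (nat_lit 0) .nil))))))) (.g (nat_lit 5) .nil .nil))) 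
(.lf (nat_lit 14252) (.g (nat_lit 501) (.e (nat_lit 1039) (nat_lit 81) (.e (nat_lit 1234) (nat_lit 91) (.e (nat_lit 98048) (nat_lit 6) .nil))) .nil))) (.nd (nat_lit 5) 
(.lf (nat_lit 14236) (.g (nat_lit 2219) (.e (nat_lit 1037) (nat_lit 81) (.e (nat_lit 5195) (nat_lit 294) (.e (nat_lit 57379) (nat_lit 3) (.e (nat_lit 98317) (nat_lit 9) (.e (nat_lit 336223) (nat_lit 13) (.e (nat_lit 393227) (nat_lit 9) (.e (nat_lit 335958) (nat_lit 0) .nil))))))) (.g (nat_lit 6) .nil .nil))) 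
(.lf (nat_lit 14268) (.g (nat_lit 3333) (.e (nat_lit 1039) (nat_lit 81) (.e (nat_lit 1234) (nat_lit 91) (.e (nat_lit 90170) (nat_lit 13) (.e (nat_lit 172106) (nat_lit 10) (.e (nat_lit 434231) (nat_lit 23) (.e (nat_lit 532535) (nat_lit 9) (.e (nat_lit 335919) (nat_lit 0) (.e (nat_lit 1003) (nat_lit 81) (.e (nat_lit 4797) (nat_lit 281) .nil))))))))) (.g (nat_lit 4) .nil .nil))))))) 
(.nd (nat_lit 2) (.nd (nat_lit 3) (.nd (nat_lit 4) (.nd (nat_lit 5) 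
(.lf (nat_lit 14210) (.g (nat_lit 2208) (.e (nat_lit 1036) (nat_lit 81) (.e (nat_lit 7270) (nat_lit 385) (.e (nat_lit 122919) (nat_lit 15) (.e (nat_lit 360492) (nat_lit 22) .nil)))) .nil)) 
(.lf (nat_lit 14242) (.g (nat_lit 2751) (.e (nat_lit 1037) (nat_lit 81) (.e (nat_lit 6321) (nat_lit 337) (.e (nat_lit 1182) (nat_lit 87) (.e (nat_lit 57479) (nat_lit 28) (.e (nat_lit 557109) (nat_lit 15) (.e (nat_lit 196352) (nat_lit 18) (.e (nat_lit 393217) (nat_lit 0) .nil))))))) (.g (nat_lit 5) .nil .nil)))) (.nd (nat_lit 5) 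
(.lf (nat_lit 14226) (.g (nat_lit 2059) (.e (nat_lit 1037) (nat_lit 81) (.e (nat_lit 5195) (nat_lit 294) (.e (nat_lit 57372) (nat_lit 2) (.e (nat_lit 90158) (nat_lit 11) (.e (nat_lit 24658) (nat_lit 13) (.e (nat_lit 393227) (nat_lit 9) (.e (nat_lit 335958) (nat_lit 0) .nil))))))) (.g (nat_lit 6) .nil .nil))) 
(.lf (nat_lit 14258) (.g (nat_lit 3525) (.e (nat_lit 1039) (nat_lit 81) (.e (nat_lit 1234) (nat_lit 91) (.e (nat_lit 90170) (nat_lit 13) (.e (nat_lit 172106) (nat_lit 10) (.e (nat_lit 434231) (nat_lit 23) (.e (nat_lit 532535) (nat_lit 9) (.e (nat_lit 335900) (nat_lit 0) (.e (nat_lit 1004) (nat_lit 81) (.e (nat_lit 4797) (nat_lit 281) .nil))))))))) (.g (nat_lit 4) .nil .nil))))) 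
(.nd (nat_lit 4) (.nd (nat_lit 5) 
(.lf (nat_lit 14218) (.g (nat_lit 2063) (.e (nat_lit 1037) (nat_lit 81) (.e (nat_lit 1858) (nat_lit 124) (.e (nat_lit 557100) (nat_lit 13) (.e (nat_lit 172106) (nat_lit 10) (.e (nat_lit 434231) (nat_lit 23) (.e (nat_lit 532529) (nat_lit 9) (.e (nat_lit 336355) (nat_lit 24) (.e (nat_lit 262148) (nat_lit 0) .nil)))))))) (.g (nat_lit 4) .nil .nil))) 
(.lf (nat_lit 14250) (.g (nat_lit 2678) (.e (nat_lit 1038) (nat_lit 81) (.e (nat_lit 1858) (nat_lit 124) (.e (nat_lit 557105) (nat_lit 14) (.e (nat_lit 180252) (nat_lit 10) (.e (nat_lit 573489) (nat_lit 14) .nil))))) .nil))) (.nd (nat_lit 5) 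
(.lf (nat_lit 14234) (.g (nat_lit 2529) (.e (nat_lit 1037) (nat_lit 81) (.e (nat_lit 5195) (nat_lit 294) (.e (nat_lit 57379) (nat_lit 3) (.e (nat_lit 98317) (nat_lit 9) (.e (nat_lit 336213) (nat_lit 13) (.e (nat_lit 393227) (nat_lit 9) (.e (nat_lit 335958) (nat_lit 0) .nil))))))) (.g (nat_lit 6) .nil .nil))) 
(.lf (nat_lit 14266) (.g (nat_lit 3385) (.e (nat_lit 1039) (nat_lit 81) (.e (nat_lit 1234) (nat_lit 91) (.e (nat_lit 90170) (nat_lit 13) (.e (nat_lit 172106) (nat_lit 10) (.e (nat_lit 434231) (nat_lit 23) (.e (nat_lit 532535) (nat_lit 9) (.e (nat_lit 335908) (nat_lit 0) (.e (nat_lit 970) (nat_lit 81) (.e (nat_lit 4810) (nat_lit 281) .nil))))))))) (.g (nat_lit 4) .nil .nil)))))) 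
(.nd (nat_lit 3) (.nd (nat_lit 4) (.nd (nat_lit 5) 
(.lf (nat_lit 14214) (.g (nat_lit 3408) (.e (nat_lit 1037) (nat_lit 81) (.e (nat_lit 1781) (nat_lit 119) (.e (nat_lit 516151) (nat_lit 9) (.e (nat_lit 426211) (nat_lit 9) (.e (nat_lit 426125) (nat_lit 2) (.e (nat_lit 204544) (nat_lit 21) (.e (nat_lit 164281) (nat_lit 222) (.e (nat_lit 57884) (nat_lit 270) .nil)))))))) (.g (nat_lit 5) .nil .nil))) 
(.lf (nat_lit 14246) (.g (nat_lit 2144) (.e (nat_lit 1037) (nat_lit 81) (.e (nat_lit 7270) (nat_lit 385) (.e (nat_lit 122919) (nat_lit 15) (.e (nat_lit 368384) (nat_lit 24) .nil)))) .nil))) (.nd (nat_lit 5) 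
(.lf (nat_lit 14230) (.g (nat_lit 2098) (.e (nat_lit 1037) (nat_lit 81) (.e (nat_lit 5195) (nat_lit 294) (.e (nat_lit 57375) (nat_lit 2) (.e (nat_lit 90158) (nat_lit 11) (.e (nat_lit 24658) (nat_lit 13) (.e (nat_lit 393227) (nat_lit 9) (.e (nat_lit 335958) (nat_lit 0) .nil))))))) (.g (nat_lit 6) .nil .nil))) 
(.lf (nat_lit 14262) (.g (nat_lit 4869) (.e (nat_lit 1039) (nat_lit 81) (.e (nat_lit 1234) (nat_lit 91) (.e (nat_lit 90170) (nat_lit 13) (.e (nat_lit 172106) (nat_lit 10) (.e (nat_lit 434231) (nat_lit 23) (.e (nat_lit 532535) (nat_lit 9) (.e (nat_lit 335905) (nat_lit 0) (.e (nat_lit 972) (nat_lit 81) (.e (nat_lit 4810) (nat_lit 281) .nil))))))))) (.g (nat_lit 6) .nil .nil))))) 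
(.nd (nat_lit 4) (.nd (nat_lit 5) 
(.lf (nat_lit 14222) (.g (nat_lit 150) (.e (nat_lit 1037) (nat_lit 81) (.e (nat_lit 5194) (nat_lit 294) (.e (nat_lit 57375) (nat_lit 2) .nil))) .nil)) 
(.lf (nat_lit 14254) (.g (nat_lit 3523) (.e (nat_lit 1039) (nat_lit 81) (.e (nat_lit 1234) (nat_lit 91) (.e (nat_lit 90170) (nat_lit 13) (.e (nat_lit 172106) (nat_lit 10) (.e (nat_lit 434231) (nat_lit 23) (.e (nat_lit 532535) (nat_lit 9) (.e (nat_lit 335900) (nat_lit 0) (.e (nat_lit 969) (nat_lit 81) (.e (nat_lit 4805) (nat_lit 281) .nil))))))))) (.g (nat_lit 4) .nil .nil)))) (.nd (nat_lit 5) 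
(.lf (nat_lit 14238) (.g (nat_lit 1998) (.e (nat_lit 1037) (nat_lit 81) (.e (nat_lit 5296) (nat_lit 298) (.e (nat_lit 1250) (nat_lit 92) (.e (nat_lit 98372) (nat_lit 29) (.e (nat_lit 450579) (nat_lit 5) (.e (nat_lit 532489) (nat_lit 0) (.e (nat_lit 7936) (nat_lit 332) .nil))))))) (.g (nat_lit 5) .nil .nil))) 
(.lf (nat_lit 14270) (.g (nat_lit 3453) (.e (nat_lit 1039) (nat_lit 81) (.e (nat_lit 1234) (nat_lit 91) (.e (nat_lit 90170) (nat_lit 13) (.e (nat_lit 172106) (nat_lit 10) (.e (nat_lit 434231) (nat_lit 23) (.e (nat_lit 532535) (nat_lit 9) (.e (nat_lit 335920) (nat_lit 0) (.e (nat_lit 989) (nat_lit 81) (.e (nat_lit 4798) (nat_lit 281) .nil))))))))) (.g (nat_lit 4) .nil .nil)))))))) 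
(.nd (nat_lit 1) (.nd (nat_lit 2) (.nd (nat_lit 3) (.nd (nat_lit 4) (.nd (nat_lit 5) 
(.lf (nat_lit 14209) (.g (nat_lit 2322) (.e (nat_lit 1036) (nat_lit 81) (.e (nat_lit 7270) (nat_lit 385) (.e (nat_lit 122919) (nat_lit 15) (.e (nat_lit 360491) (nat_lit 22) (.e (nat_lit 778466) (nat_lit 11) .nil))))) .nil)) 
(.lf (nat_lit 14241) (.g (nat_lit 407) (.e (nat_lit 1037) (nat_lit 81) (.e (nat_lit 5907) (nat_lit 320) (.e (nat_lit 1209) (nat_lit 89) .nil))) .nil))) (.nd (nat_lit 5) 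
(.lf (nat_lit 14225) (.g (nat_lit 1519) (.e (nat_lit 1037) (nat_lit 81) (.e (nat_lit 5195) (nat_lit 294) (.e (nat_lit 57372) (nat_lit 2) (.e (nat_lit 90158) (nat_lit 11) (.e (nat_lit 24656) (nat_lit 13) (.e (nat_lit 393227) (nat_lit 9) (.e (nat_lit 335958) (nat_lit 0) .nil))))))) (.g (nat_lit 4) .nil .nil))) 
(.lf (nat_lit 14257) (.g (nat_lit 3503) (.e (nat_lit 1039) (nat_lit 81) (.e (nat_lit 1234) (nat_lit 91) (.e (nat_lit 90170) (nat_lit 13) (.e (nat_lit 172106) (nat_lit 10) (.e (nat_lit 434231) (nat_lit 23) (.e (nat_lit 532535) (nat_lit 9) (.e (nat_lit 335900) (nat_lit 0) (.e (nat_lit 987) (nat_lit 81) (.e (nat_lit 4797) (nat_lit 281) .nil))))))))) (.g (nat_lit 4) .nil .nil))))) 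
(.nd (nat_lit 4) (.nd (nat_lit 5) 
(.lf (nat_lit 14217) (.g (nat_lit 2793) (.e (nat_lit 1037) (nat_lit 81) (.e (nat_lit 1858) (nat_lit 124) (.e (nat_lit 557100) (nat_lit 13) (.e (nat_lit 172106) (nat_lit 10) (.e (nat_lit 434231) (nat_lit 23) (.e (nat_lit 532529) (nat_lit 9) (.e (nat_lit 336242) (nat_lit 15) (.e (nat_lit 3684) (nat_lit 227) (.e (nat_lit 778280) (nat_lit 0) .nil))))))))) (.g (nat_lit 5) .nil .nil))) 
(.lf (nat_lit 14249) (.g (nat_lit 1626) (.e (nat_lit 1038) (nat_lit 81) (.e (nat_lit 1858) (nat_lit 124) (.e (nat_lit 557100) (nat_lit 13) (.e (nat_lit 172106) (nat_lit 10) .nil)))) .nil))) (.nd (nat_lit 5) 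
(.lf (nat_lit 14233) (.g (nat_lit 1696) (.e (nat_lit 1037) (nat_lit 81) (.e (nat_lit 5195) (nat_lit 294) (.e (nat_lit 57379) (nat_lit 3) (.e (nat_lit 98312) (nat_lit 9) (.e (nat_lit 336215) (nat_lit 13) (.e (nat_lit 393227) (nat_lit 9) (.e (nat_lit 335958) (nat_lit 0) .nil))))))) (.g (nat_lit 5) .nil .nil))) 
(.lf (nat_lit 14265) (.g (nat_lit 3503) (.e (nat_lit 1039) (nat_lit 81) (.e (nat_lit 1234) (nat_lit 91) (.e (nat_lit 90170) (nat_lit 13) (.e (nat_lit 172106) (nat_lit 10) (.e (nat_lit 434231) (nat_lit 23) (.e (nat_lit 532535) (nat_lit 9) (.e (nat_lit 335905) (nat_lit 0) (.e (nat_lit 973) (nat_lit 81) (.e (nat_lit 4809) (nat_lit 281) .nil))))))))) (.g (nat_lit 4) .nil .nil)))))) 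
(.nd (nat_lit 3) (.nd (nat_lit 4) (.nd (nat_lit 5) 
(.lf (nat_lit 14213) (.g (nat_lit 2355) (.e (nat_lit 1037) (nat_lit 81) (.e (nat_lit 1237) (nat_lit 91) (.e (nat_lit 90170) (nat_lit 13) (.e (nat_lit 172106) (nat_lit 10) (.e (nat_lit 434231) (nat_lit 23) .nil))))) .nil)) 
(.lf (nat_lit 14245) (.g (nat_lit 4337) (.e (nat_lit 1037) (nat_lit 81) (.e (nat_lit 6489) (nat_lit 343) (.e (nat_lit 1659) (nat_lit 115) (.e (nat_lit 393301) (nat_lit 27) (.e (nat_lit 491560) (nat_lit 10) (.e (nat_lit 344174) (nat_lit 42) (.e (nat_lit 761867) (nat_lit 5) .nil))))))) (.g (nat_lit 7) .nil .nil)))) (.nd (nat_lit 5) 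
(.lf (nat_lit 14229) (.g (nat_lit 1566) (.e (nat_lit 1037) (nat_lit 81) (.e (nat_lit 5195) (nat_lit 294) (.e (nat_lit 57375) (nat_lit 2) (.e (nat_lit 90158) (nat_lit 11) (.e (nat_lit 24656) (nat_lit 13) (.e (nat_lit 393227) (nat_lit 9) (.e (nat_lit 335958) (nat_lit 0) .nil))))))) (.g (nat_lit 4) .nil .nil))) 
(.lf (nat_lit 14261) (.g (nat_lit 3471) (.e (nat_lit 1039) (nat_lit 81) (.e (nat_lit 1234) (nat_lit 91) (.e (nat_lit 90170) (nat_lit 13) (.e (nat_lit 172106) (nat_lit 10) (.e (nat_lit 434231) (nat_lit 23) (.e (nat_lit 532535) (nat_lit 9) (.e (nat_lit 335900) (nat_lit 0) (.e (nat_lit 1049) (nat_lit 81) (.e (nat_lit 4809) (nat_lit 281) .nil))))))))) (.g (nat_lit 4) .nil .nil))))) 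
(.nd (nat_lit 4) (.nd (nat_lit 5) 
(.lf (nat_lit 14221) (.g (nat_lit 932) (.e (nat_lit 1037) (nat_lit 81) (.e (nat_lit 5194) (nat_lit 294) (.e (nat_lit 57372) (nat_lit 2) (.e (nat_lit 90158) (nat_lit 11) .nil)))) .nil)) 
(.lf (nat_lit 14253) (.g (nat_lit 3332) (.e (nat_lit 1039) (nat_lit 81) (.e (nat_lit 1234) (nat_lit 91) (.e (nat_lit 90170) (nat_lit 13) (.e (nat_lit 172106) (nat_lit 10) (.e (nat_lit 434231) (nat_lit 23) .nil))))) .nil))) (.nd (nat_lit 5) 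
(.lf (nat_lit 14237) (.g (nat_lit 2059) (.e (nat_lit 1037) (nat_lit 81) (.e (nat_lit 5296) (nat_lit 298) (.e (nat_lit 1250) (nat_lit 92) (.e (nat_lit 98372) (nat_lit 29) (.e (nat_lit 450579) (nat_lit 5) (.e (nat_lit 532484) (nat_lit 0) (.e (nat_lit 7936) (nat_lit 332) .nil))))))) (.g (nat_lit 5) .nil .nil))) 
(.lf (nat_lit 14269) (.g (nat_lit 3548) (.e (nat_lit 1039) (nat_lit 81) (.e (nat_lit 1234) (nat_lit 91) (.e (nat_lit 90170) (nat_lit 13) (.e (nat_lit 172106) (nat_lit 10) (.e (nat_lit 434231) (nat_lit 23) (.e (nat_lit 532535) (nat_lit 9) (.e (nat_lit 335920) (nat_lit 0) (.e (nat_lit 988) (nat_lit 81) (.e (nat_lit 4780) (nat_lit 281) .nil))))))))) (.g (nat_lit 4) .nil .nil))))))) 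
(.nd (nat_lit 2) (.nd (nat_lit 3) (.nd (nat_lit 4) (.nd (nat_lit 5) 
(.lf (nat_lit 14211) (.g (nat_lit 1620) (.e (nat_lit 1036) (nat_lit 81) (.e (nat_lit 7270) (nat_lit 385) (.e (nat_lit 122919) (nat_lit 15) (.e (nat_lit 368384) (nat_lit 24) .nil)))) .nil)) 
(.lf (nat_lit 14243) (.g (nat_lit 2811) (.e (nat_lit 1037) (nat_lit 81) (.e (nat_lit 6322) (nat_lit 337) (.e (nat_lit 1182) (nat_lit 87) (.e (nat_lit 57479) (nat_lit 28) (.e (nat_lit 557109) (nat_lit 15) (.e (nat_lit 196352) (nat_lit 18) (.e (nat_lit 393217) (nat_lit 0) .nil))))))) (.g (nat_lit 5) .nil .nil)))) (.nd (nat_lit 5) 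
(.lf (nat_lit 14227) (.g (nat_lit 1442) (.e (nat_lit 1037) (nat_lit 81) (.e (nat_lit 5195) (nat_lit 294) (.e (nat_lit 57375) (nat_lit 2) (.e (nat_lit 90157) (nat_lit 11) (.e (nat_lit 24657) (nat_lit 13) .nil))))) .nil)) 
(.lf (nat_lit 14259) (.g (nat_lit 3425) (.e (nat_lit 1039) (nat_lit 81) (.e (nat_lit 1234) (nat_lit 91) (.e (nat_lit 90170) (nat_lit 13) (.e (nat_lit 172106) (nat_lit 10) (.e (nat_lit 434231) (nat_lit 23) (.e (nat_lit 532535) (nat_lit 9) (.e (nat_lit 335900) (nat_lit 0) (.e (nat_lit 1005) (nat_lit 81) (.e (nat_lit 4797) (nat_lit 281) .nil))))))))) (.g (nat_lit 4) .nil .nil))))) 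
(.nd (nat_lit 4) (.nd (nat_lit 5) 
(.lf (nat_lit 14219) (.g (nat_lit 2073) (.e (nat_lit 1037) (nat_lit 81) (.e (nat_lit 1858) (nat_lit 124) (.e (nat_lit 557100) (nat_lit 13) (.e (nat_lit 172106) (nat_lit 10) (.e (nat_lit 434231) (nat_lit 23) (.e (nat_lit 532563) (nat_lit 15) (.e (nat_lit 385100) (nat_lit 49) (.e (nat_lit 778249) (nat_lit 0) .nil)))))))) (.g (nat_lit 4) .nil .nil))) 
(.lf (nat_lit 14251) (.g (nat_lit 1898) (.e (nat_lit 1038) (nat_lit 81) (.e (nat_lit 7270) (nat_lit 385) (.e (nat_lit 122919) (nat_lit 15) (.e (nat_lit 360451) (nat_lit 0) .nil)))) .nil))) (.nd (nat_lit 5) 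
(.lf (nat_lit 14235) (.g (nat_lit 1324) (.e (nat_lit 1037) (nat_lit 81) (.e (nat_lit 5195) (nat_lit 294) (.e (nat_lit 57379) (nat_lit 3) (.e (nat_lit 98317) (nat_lit 9) (.e (nat_lit 336223) (nat_lit 13) .nil))))) .nil)) 
(.lf (nat_lit 14267) (.g (nat_lit 3546) (.e (nat_lit 1039) (nat_lit 81) (.e (nat_lit 1234) (nat_lit 91) (.e (nat_lit 90170) (nat_lit 13) (.e (nat_lit 172106) (nat_lit 10) (.e (nat_lit 434231) (nat_lit 23) (.e (nat_lit 532535) (nat_lit 9) (.e (nat_lit 335919) (nat_lit 0) (.e (nat_lit 991) (nat_lit 81) (.e (nat_lit 4798) (nat_lit 281) .nil))))))))) (.g (nat_lit 4) .nil .nil)))))) 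
(.nd (nat_lit 3) (.nd (nat_lit 4) (.nd (nat_lit 5) 
(.lf (nat_lit 14215) (.g (nat_lit 2749) (.e (nat_lit 1037) (nat_lit 81) (.e (nat_lit 1802) (nat_lit 119) (.e (nat_lit 516131) (nat_lit 3) (.e (nat_lit 221212) (nat_lit 22) (.e (nat_lit 196668) (nat_lit 14) (.e (nat_lit 73750) (nat_lit 6) (.e (nat_lit 540675) (nat_lit 0) (.e (nat_lit 2270) (nat_lit 149) (.e (nat_lit 761867) (nat_lit 5) .nil))))))))) (.g (nat_lit 8) .nil .nil))) 
(.lf (nat_lit 14247) (.g (nat_lit 1899) (.e (nat_lit 1038) (nat_lit 81) (.e (nat_lit 1234) (nat_lit 91) (.e (nat_lit 90158) (nat_lit 11) (.e (nat_lit 24628) (nat_lit 9) (.e (nat_lit 336454) (nat_lit 34) .nil))))) .nil))) (.nd (nat_lit 5) 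
(.lf (nat_lit 14231) (.g (nat_lit 2551) (.e (nat_lit 1037) (nat_lit 81) (.e (nat_lit 5195) (nat_lit 294) (.e (nat_lit 57375) (nat_lit 2) (.e (nat_lit 90160) (nat_lit 11) (.e (nat_lit 24657) (nat_lit 13) (.e (nat_lit 393227) (nat_lit 9) (.e (nat_lit 335958) (nat_lit 0) .nil))))))) (.g (nat_lit 5) .nil .nil))) 
(.lf (nat_lit 14263) (.g (nat_lit 3484) (.e (nat_lit 1039) (nat_lit 81) (.e (nat_lit 1234) (nat_lit 91) (.e (nat_lit 90170) (nat_lit 13) (.e (nat_lit 172106) (nat_lit 10) (.e (nat_lit 434231) (nat_lit 23) (.e (nat_lit 532535) (nat_lit 9) (.e (nat_lit 335905) (nat_lit 0) (.e (nat_lit 973) (nat_lit 81) (.e (nat_lit 4804) (nat_lit 281) .nil))))))))) (.g (nat_lit 4) .nil .nil))))) 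
(.nd (nat_lit 4) (.nd (nat_lit 5) 
(.lf (nat_lit 14223) (.g (nat_lit 1841) (.e (nat_lit 1037) (nat_lit 81) (.e (nat_lit 5194) (nat_lit 294) (.e (nat_lit 57377) (nat_lit 3) (.e (nat_lit 98317) (nat_lit 9) (.e (nat_lit 336215) (nat_lit 13) (.e (nat_lit 393227) (nat_lit 9) (.e (nat_lit 335958) (nat_lit 0) .nil))))))) (.g (nat_lit 5) .nil .nil))) 
(.lf (nat_lit 14255) (.g (nat_lit 3520) (.e (nat_lit 1039) (nat_lit 81) (.e (nat_lit 1234) (nat_lit 91) (.e (nat_lit 90170) (nat_lit 13) (.e (nat_lit 172106) (nat_lit 10) (.e (nat_lit 434231) (nat_lit 23) (.e (nat_lit 532535) (nat_lit 9) (.e (nat_lit 335900) (nat_lit 0) (.e (nat_lit 969) (nat_lit 81) (.e (nat_lit 4810) (nat_lit 281) .nil))))))))) (.g (nat_lit 4) .nil .nil)))) (.nd (nat_lit 5) 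
(.lf (nat_lit 14239) (.g (nat_lit 2746) (.e (nat_lit 1037) (nat_lit 81) (.e (nat_lit 5296) (nat_lit 298) (.e (nat_lit 1656) (nat_lit 115) (.e (nat_lit 393301) (nat_lit 27) (.e (nat_lit 491563) (nat_lit 12) (.e (nat_lit 392960) (nat_lit 16) .nil)))))) (.g (nat_lit 5) .nil .nil))) 
(.lf (nat_lit 14271) (.g (nat_lit 3542) (.e (nat_lit 1039) (nat_lit 81) (.e (nat_lit 1234) (nat_lit 91) (.e (nat_lit 90170) (nat_lit 13) (.e (nat_lit 172106) (nat_lit 10) (.e (nat_lit 434231) (nat_lit 23) (.e (nat_lit 532535) (nat_lit 9) (.e (nat_lit 335920) (nat_lit 0) (.e (nat_lit 1086) (nat_lit 81) (.e (nat_lit 4803) (nat_lit 281) .nil))))))))) (.g (nat_lit 4) .nil .nil)))))))))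

noncomputable def tv198 : DT := (.nd (nat_lit 0) (.nd (nat_lit 1) (.nd (nat_lit 2) (.nd (nat_lit 3) (.nd (nat_lit 4) (.nd (nat_lit 5) 
(.lf (nat_lit 14272) (.g (nat_lit 3384) (.e (nat_lit 1039) (nat_lit 81) (.e (nat_lit 1234) (nat_lit 91) (.e (nat_lit 90170) (nat_lit 13) (.e (nat_lit 172106) (nat_lit 10) (.e (nat_lit 434231) (nat_lit 23) (.e (nat_lit 532535) (nat_lit 9) (.e (nat_lit 335921) (nat_lit 0) (.e (nat_lit 988) (nat_lit 81) (.e (nat_lit 4798) (nat_lit 281) .nil))))))))) (.g (nat_lit 4) .nil .nil))) 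
(.lf (nat_lit 14304) (.g (nat_lit 3212) (.e (nat_lit 1039) (nat_lit 81) (.e (nat_lit 1524) (nat_lit 108) (.e (nat_lit 336004) (nat_lit 2) (.e (nat_lit 90176) (nat_lit 15) (.e (nat_lit 188450) (nat_lit 23) (.e (nat_lit 204830) (nat_lit 18) (.e (nat_lit 57767) (nat_lit 221) .nil))))))) (.g (nat_lit 7) .nil .nil)))) (.nd (nat_lit 5) 
(.lf (nat_lit 14288) (.g (nat_lit 3499) (.e (nat_lit 1039) (nat_lit 81) (.e (nat_lit 1234) (nat_lit 91) (.e (nat_lit 90170) (nat_lit 13) (.e (nat_lit 172106) (nat_lit 10) (.e (nat_lit 434231) (nat_lit 23) (.e (nat_lit 532535) (nat_lit 9) (.e (nat_lit 335937) (nat_lit 0) (.e (nat_lit 991) (nat_lit 81) (.e (nat_lit 4798) (nat_lit 281) .nil))))))))) (.g (nat_lit 4) .nil .nil))) 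
(.lf (nat_lit 14320) (.g (nat_lit 2329) (.e (nat_lit 1040) (nat_lit 81) (.e (nat_lit 1858) (nat_lit 124) (.e (nat_lit 557100) (nat_lit 13) (.e (nat_lit 172106) (nat_lit 10) (.e (nat_lit 434231) (nat_lit 23) (.e (nat_lit 532535) (nat_lit 9) (.e (nat_lit 335905) (nat_lit 0) (.e (nat_lit 1996) (nat_lit 137) (.e (nat_lit 663559) (nat_lit 0) .nil))))))))) (.g (nat_lit 4) .nil .nil))))) 
(.nd (nat_lit 4) (.nd (nat_lit 5) 
(.lf (nat_lit 14280) (.g (nat_lit 3838) (.e (nat_lit 1039) (nat_lit 81) (.e (nat_lit 1234) (nat_lit 91) (.e (nat_lit 90170) (nat_lit 13) (.e (nat_lit 172106) (nat_lit 10) (.e (nat_lit 434231) (nat_lit 23) (.e (nat_lit 532535) (nat_lit 9) (.e (nat_lit 335925) (nat_lit 0) (.e (nat_lit 1003) (nat_lit 81) (.e (nat_lit 4797) (nat_lit 281) .nil))))))))) (.g (nat_lit 5) .nil .nil))) 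
(.lf (nat_lit 14312) (.g (nat_lit 3446) (.e (nat_lit 1040) (nat_lit 81) (.e (nat_lit 1234) (nat_lit 91) (.e (nat_lit 90170) (nat_lit 13) (.e (nat_lit 172106) (nat_lit 10) (.e (nat_lit 434231) (nat_lit 23) (.e (nat_lit 532535) (nat_lit 9) (.e (nat_lit 335905) (nat_lit 0) (.e (nat_lit 973) (nat_lit 81) (.e (nat_lit 4805) (nat_lit 281) .nil))))))))) (.g (nat_lit 4) .nil .nil)))) (.nd (nat_lit 5) 
(.lf (nat_lit 14296) (.g (nat_lit 2505) (.e (nat_lit 1039) (nat_lit 81) (.e (nat_lit 1234) (nat_lit 91) (.e (nat_lit 90174) (nat_lit 14) (.e (nat_lit 180250) (nat_lit 10) (.e (nat_lit 573487) (nat_lit 14) (.e (nat_lit 73747) (nat_lit 3) (.e (nat_lit 516119) (nat_lit 1) (.e (nat_lit 164195) (nat_lit 158) .nil)))))))) (.g (nat_lit 4) .nil .nil))) 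
(.lf (nat_lit 14328) (.g (nat_lit 2676) (.e (nat_lit 1040) (nat_lit 81) (.e (nat_lit 1858) (nat_lit 124) (.e (nat_lit 557105) (nat_lit 14) (.e (nat_lit 180252) (nat_lit 10) (.e (nat_lit 573489) (nat_lit 14) .nil))))) .nil))))) (.nd (nat_lit 3) (.nd (nat_lit 4) (.nd (nat_lit 5) 
(.lf (nat_lit 14276) (.g (nat_lit 3681) (.e (nat_lit 1039) (nat_lit 81) (.e (nat_lit 1234) (nat_lit 91) (.e (nat_lit 90170) (nat_lit 13) (.e (nat_lit 172106) (nat_lit 10) (.e (nat_lit 434231) (nat_lit 23) (.e (nat_lit 532535) (nat_lit 9) (.e (nat_lit 335925) (nat_lit 0) (.e (nat_lit 989) (nat_lit 81) (.e (nat_lit 4798) (nat_lit 281) .nil))))))))) (.g (nat_lit 5) .nil .nil))) 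
(.lf (nat_lit 14308) (.g (nat_lit 1759) (.e (nat_lit 1039) (nat_lit 81) (.e (nat_lit 7270) (nat_lit 385) (.e (nat_lit 122919) (nat_lit 15) (.e (nat_lit 360451) (nat_lit 0) .nil)))) .nil))) (.nd (nat_lit 5) 
(.lf (nat_lit 14292) (.g (nat_lit 4974) (.e (nat_lit 1039) (nat_lit 81) (.e (nat_lit 1234) (nat_lit 91) (.e (nat_lit 90170) (nat_lit 13) (.e (nat_lit 172106) (nat_lit 10) (.e (nat_lit 434231) (nat_lit 23) (.e (nat_lit 532535) (nat_lit 9) (.e (nat_lit 336030) (nat_lit 4) (.e (nat_lit 123127) (nat_lit 239) .nil)))))))) (.g (nat_lit 8) .nil .nil))) 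
(.lf (nat_lit 14324) (.g (nat_lit 2357) (.e (nat_lit 1040) (nat_lit 81) (.e (nat_lit 1858) (nat_lit 124) (.e (nat_lit 557100) (nat_lit 13) (.e (nat_lit 172106) (nat_lit 10) (.e (nat_lit 434231) (nat_lit 23) (.e (nat_lit 532544) (nat_lit 10) (.e (nat_lit 352000) (nat_lit 39) (.e (nat_lit 663559) (nat_lit 0) .nil)))))))) (.g (nat_lit 4) .nil .nil))))) (.nd (nat_lit 4) (.nd (nat_lit 5) 
(.lf (nat_lit 14284) (.g (nat_lit 3682) (.e (nat_lit 1039) (nat_lit 81) (.e (nat_lit 1234) (nat_lit 91) (.e (nat_lit 90170) (nat_lit 13) (.e (nat_lit 172106) (nat_lit 10) (.e (nat_lit 434231) (nat_lit 23) (.e (nat_lit 532535) (nat_lit 9) (.e (nat_lit 335928) (nat_lit 0) (.e (nat_lit 990) (nat_lit 81) (.e (nat_lit 4798) (nat_lit 281) .nil))))))))) (.g (nat_lit 5) .nil .nil))) 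
(.lf (nat_lit 14316) (.g (nat_lit 1005) (.e (nat_lit 1040) (nat_lit 81) (.e (nat_lit 1524) (nat_lit 108) (.e (nat_lit 336194) (nat_lit 12) (.e (nat_lit 385102) (nat_lit 50) .nil)))) .nil))) (.nd (nat_lit 5) 
(.lf (nat_lit 14300) (.g (nat_lit 1849) (.e (nat_lit 1039) (nat_lit 81) (.e (nat_lit 1252) (nat_lit 92) (.e (nat_lit 98356) (nat_lit 26) (.e (nat_lit 426438) (nat_lit 18) (.e (nat_lit 98376) (nat_lit 30) .nil))))) .nil)) 
(.lf (nat_lit 14332) (.g (nat_lit 3290) (.e (nat_lit 1040) (nat_lit 81) (.e (nat_lit 1858) (nat_lit 124) (.e (nat_lit 557105) (nat_lit 14) (.e (nat_lit 180252) (nat_lit 10) (.e (nat_lit 573489) (nat_lit 14) (.e (nat_lit 73755) (nat_lit 8) (.e (nat_lit 557090) (nat_lit 12) (.e (nat_lit 163997) (nat_lit 37) (.e (nat_lit 630814) (nat_lit 13) .nil))))))))) (.g (nat_lit 5) .nil .nil))))))) 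
(.nd (nat_lit 2) (.nd (nat_lit 3) (.nd (nat_lit 4) (.nd (nat_lit 5) 
(.lf (nat_lit 14274) (.g (nat_lit 3417) (.e (nat_lit 1039) (nat_lit 81) (.e (nat_lit 1234) (nat_lit 91) (.e (nat_lit 90170) (nat_lit 13) (.e (nat_lit 172106) (nat_lit 10) (.e (nat_lit 434231) (nat_lit 23) (.e (nat_lit 532535) (nat_lit 9) (.e (nat_lit 335922) (nat_lit 0) (.e (nat_lit 989) (nat_lit 81) (.e (nat_lit 4798) (nat_lit 281) .nil))))))))) (.g (nat_lit 4) .nil .nil))) 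
(.lf (nat_lit 14306) (.g (nat_lit 2915) (.e (nat_lit 1039) (nat_lit 81) (.e (nat_lit 1524) (nat_lit 108) (.e (nat_lit 336012) (nat_lit 2) (.e (nat_lit 90176) (nat_lit 15) (.e (nat_lit 188450) (nat_lit 23) (.e (nat_lit 204830) (nat_lit 18) (.e (nat_lit 57767) (nat_lit 221) .nil))))))) (.g (nat_lit 6) .nil .nil)))) (.nd (nat_lit 5) 
(.lf (nat_lit 14290) (.g (nat_lit 3386) (.e (nat_lit 1039) (nat_lit 81) (.e (nat_lit 1234) (nat_lit 91) (.e (nat_lit 90170) (nat_lit 13) (.e (nat_lit 172106) (nat_lit 10) (.e (nat_lit 434231) (nat_lit 23) (.e (nat_lit 532535) (nat_lit 9) (.e (nat_lit 335992) (nat_lit 1) (.e (nat_lit 57779) (nat_lit 239) .nil)))))))) (.g (nat_lit 4) .nil .nil))) 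
(.lf (nat_lit 14322) (.g (nat_lit 2291) (.e (nat_lit 1040) (nat_lit 81) (.e (nat_lit 1858) (nat_lit 124) (.e (nat_lit 557100) (nat_lit 13) (.e (nat_lit 172106) (nat_lit 10) (.e (nat_lit 434231) (nat_lit 23) (.e (nat_lit 532535) (nat_lit 9) (.e (nat_lit 335907) (nat_lit 0) (.e (nat_lit 1994) (nat_lit 137) (.e (nat_lit 663559) (nat_lit 0) .nil))))))))) (.g (nat_lit 4) .nil .nil))))) 
(.nd (nat_lit 4) (.nd (nat_lit 5) 
(.lf (nat_lit 14282) (.g (nat_lit 3445) (.e (nat_lit 1039) (nat_lit 81) (.e (nat_lit 1234) (nat_lit 91) (.e (nat_lit 90170) (nat_lit 13) (.e (nat_lit 172106) (nat_lit 10) (.e (nat_lit 434231) (nat_lit 23) (.e (nat_lit 532535) (nat_lit 9) (.e (nat_lit 335928) (nat_lit 0) (.e (nat_lit 988) (nat_lit 81) (.e (nat_lit 4780) (nat_lit 281) .nil))))))))) (.g (nat_lit 4) .nil .nil))) 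
(.lf (nat_lit 14314) (.g (nat_lit 2406) (.e (nat_lit 1040) (nat_lit 81) (.e (nat_lit 1237) (nat_lit 91) (.e (nat_lit 90170) (nat_lit 13) (.e (nat_lit 172106) (nat_lit 10) (.e (nat_lit 434231) (nat_lit 23) (.e (nat_lit 532535) (nat_lit 9) (.e (nat_lit 335908) (nat_lit 0) (.e (nat_lit 973) (nat_lit 81) (.e (nat_lit 4805) (nat_lit 281) .nil))))))))) (.g (nat_lit 4) .nil .nil)))) (.nd (nat_lit 5) 
(.lf (nat_lit 14298) (.g (nat_lit 2431) (.e (nat_lit 1039) (nat_lit 81) (.e (nat_lit 1237) (nat_lit 91) (.e (nat_lit 90170) (nat_lit 13) (.e (nat_lit 172106) (nat_lit 10) (.e (nat_lit 434231) (nat_lit 23) (.e (nat_lit 532544) (nat_lit 10) (.e (nat_lit 344096) (nat_lit 18) (.e (nat_lit 4780) (nat_lit 281) .nil)))))))) (.g (nat_lit 4) .nil .nil))) 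
(.lf (nat_lit 14330) (.g (nat_lit 2679) (.e (nat_lit 1040) (nat_lit 81) (.e (nat_lit 1858) (nat_lit 124) (.e (nat_lit 557105) (nat_lit 14) (.e (nat_lit 180252) (nat_lit 10) (.e (nat_lit 573489) (nat_lit 14) (.e (nat_lit 73755) (nat_lit 8) (.e (nat_lit 557089) (nat_lit 12) (.e (nat_lit 163997) (nat_lit 37) (.e (nat_lit 630814) (nat_lit 13) .nil))))))))) (.g (nat_lit 4) .nil .nil)))))) 
(.nd (nat_lit 3) (.nd (nat_lit 4) (.nd (nat_lit 5) 
(.lf (nat_lit 14278) (.g (nat_lit 3404) (.e (nat_lit 1039) (nat_lit 81) (.e (nat_lit 1234) (nat_lit 91) (.e (nat_lit 90170) (nat_lit 13) (.e (nat_lit 172106) (nat_lit 10) (.e (nat_lit 434231) (nat_lit 23) (.e (nat_lit 532535) (nat_lit 9) (.e (nat_lit 335925) (nat_lit 0) (.e (nat_lit 990) (nat_lit 81) (.e (nat_lit 4798) (nat_lit 281) .nil))))))))) (.g (nat_lit 4) .nil .nil))) 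
(.lf (nat_lit 14310) (.g (nat_lit 2095) (.e (nat_lit 1039) (nat_lit 81) (.e (nat_lit 7270) (nat_lit 385) (.e (nat_lit 122919) (nat_lit 15) (.e (nat_lit 368384) (nat_lit 24) .nil)))) .nil))) (.nd (nat_lit 5) 
(.lf (nat_lit 14294) (.g (nat_lit 2680) (.e (nat_lit 1039) (nat_lit 81) (.e (nat_lit 1234) (nat_lit 91) (.e (nat_lit 90172) (nat_lit 14) (.e (nat_lit 180250) (nat_lit 10) (.e (nat_lit 573487) (nat_lit 14) .nil))))) .nil)) 
(.lf (nat_lit 14326) (.g (nat_lit 4788) (.e (nat_lit 1040) (nat_lit 81) (.e (nat_lit 1858) (nat_lit 124) (.e (nat_lit 557100) (nat_lit 13) (.e (nat_lit 172106) (nat_lit 10) (.e (nat_lit 434231) (nat_lit 23) (.e (nat_lit 532544) (nat_lit 10) (.e (nat_lit 344169) (nat_lit 40) (.e (nat_lit 671751) (nat_lit 0) .nil)))))))) (.g (nat_lit 8) .nil .nil))))) (.nd (nat_lit 4) (.nd (nat_lit 5) 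
(.lf (nat_lit 14286) (.g (nat_lit 4225) (.e (nat_lit 1039) (nat_lit 81) (.e (nat_lit 1234) (nat_lit 91) (.e (nat_lit 90170) (nat_lit 13) (.e (nat_lit 172106) (nat_lit 10) (.e (nat_lit 434231) (nat_lit 23) (.e (nat_lit 532535) (nat_lit 9) (.e (nat_lit 335928) (nat_lit 0) (.e (nat_lit 991) (nat_lit 81) (.e (nat_lit 4801) (nat_lit 281) .nil))))))))) (.g (nat_lit 8) .nil .nil))) 
(.lf (nat_lit 14318) (.g (nat_lit 811) (.e (nat_lit 1040) (nat_lit 81) (.e (nat_lit 1524) (nat_lit 108) (.e (nat_lit 336213) (nat_lit 13) (.e (nat_lit 393233) (nat_lit 17) .nil)))) .nil))) (.nd (nat_lit 5) 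
(.lf (nat_lit 14302) (.g (nat_lit 2580) (.e (nat_lit 1039) (nat_lit 81) (.e (nat_lit 1255) (nat_lit 92) (.e (nat_lit 98384) (nat_lit 32) (.e (nat_lit 475177) (nat_lit 24) (.e (nat_lit 516171) (nat_lit 13) .nil))))) .nil)) 
(.lf (nat_lit 14334) (.g (nat_lit 2710) (.e (nat_lit 1040) (nat_lit 81) (.e (nat_lit 1858) (nat_lit 124) (.e (nat_lit 557105) (nat_lit 14) (.e (nat_lit 180252) (nat_lit 10) (.e (nat_lit 573489) (nat_lit 14) (.e (nat_lit 73755) (nat_lit 8) (.e (nat_lit 557094) (nat_lit 12) (.e (nat_lit 163996) (nat_lit 37) (.e (nat_lit 630814) (nat_lit 13) .nil))))))))) (.g (nat_lit 4) .nil .nil)))))))) 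
(.nd (nat_lit 1) (.nd (nat_lit 2) (.nd (nat_lit 3) (.nd (nat_lit 4) (.nd (nat_lit 5) 
(.lf (nat_lit 14273) (.g (nat_lit 3464) (.e (nat_lit 1039) (nat_lit 81) (.e (nat_lit 1234) (nat_lit 91) (.e (nat_lit 90170) (nat_lit 13) (.e (nat_lit 172106) (nat_lit 10) (.e (nat_lit 434231) (nat_lit 23) (.e (nat_lit 532535) (nat_lit 9) (.e (nat_lit 335922) (nat_lit 0) (.e (nat_lit 988) (nat_lit 81) (.e (nat_lit 4780) (nat_lit 281) .nil))))))))) (.g (nat_lit 4) .nil .nil))) 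
(.lf (nat_lit 14305) (.g (nat_lit 2025) (.e (nat_lit 1039) (nat_lit 81) (.e (nat_lit 1524) (nat_lit 108) (.e (nat_lit 336012) (nat_lit 2) (.e (nat_lit 90172) (nat_lit 14) (.e (nat_lit 188160) (nat_lit 33) .nil))))) .nil))) (.nd (nat_lit 5) 
(.lf (nat_lit 14289) (.g (nat_lit 3517) (.e (nat_lit 1039) (nat_lit 81) (.e (nat_lit 1234) (nat_lit 91) (.e (nat_lit 90170) (nat_lit 13) (.e (nat_lit 172106) (nat_lit 10) (.e (nat_lit 434231) (nat_lit 23) (.e (nat_lit 532535) (nat_lit 9) (.e (nat_lit 335937) (nat_lit 0) (.e (nat_lit 1086) (nat_lit 81) (.e (nat_lit 4803) (nat_lit 281) .nil))))))))) (.g (nat_lit 4) .nil .nil))) 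
(.lf (nat_lit 14321) (.g (nat_lit 2179) (.e (nat_lit 1040) (nat_lit 81) (.e (nat_lit 1858) (nat_lit 124) (.e (nat_lit 557100) (nat_lit 13) (.e (nat_lit 172106) (nat_lit 10) (.e (nat_lit 434231) (nat_lit 23) (.e (nat_lit 532535) (nat_lit 9) (.e (nat_lit 335905) (nat_lit 0) (.e (nat_lit 1998) (nat_lit 137) (.e (nat_lit 663559) (nat_lit 0) .nil))))))))) (.g (nat_lit 4) .nil .nil))))) 
(.nd (nat_lit 4) (.nd (nat_lit 5) 
(.lf (nat_lit 14281) (.g (nat_lit 3351) (.e (nat_lit 1039) (nat_lit 81) (.e (nat_lit 1234) (nat_lit 91) (.e (nat_lit 90170) (nat_lit 13) (.e (nat_lit 172106) (nat_lit 10) (.e (nat_lit 434231) (nat_lit 23) (.e (nat_lit 532535) (nat_lit 9) (.e (nat_lit 335927) (nat_lit 0) (.e (nat_lit 1003) (nat_lit 81) (.e (nat_lit 4797) (nat_lit 281) .nil))))))))) (.g (nat_lit 4) .nil .nil))) 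
(.lf (nat_lit 14313) (.g (nat_lit 2427) (.e (nat_lit 1040) (nat_lit 81) (.e (nat_lit 1237) (nat_lit 91) (.e (nat_lit 90170) (nat_lit 13) (.e (nat_lit 172106) (nat_lit 10) (.e (nat_lit 434231) (nat_lit 23) (.e (nat_lit 532535) (nat_lit 9) (.e (nat_lit 335905) (nat_lit 0) (.e (nat_lit 972) (nat_lit 81) (.e (nat_lit 4810) (nat_lit 281) .nil))))))))) (.g (nat_lit 4) .nil .nil)))) (.nd (nat_lit 5) 
(.lf (nat_lit 14297) (.g (nat_lit 1646) (.e (nat_lit 1039) (nat_lit 81) (.e (nat_lit 1234) (nat_lit 91) (.e (nat_lit 90185) (nat_lit 17) (.e (nat_lit 237605) (nat_lit 9) (.e (nat_lit 426131) (nat_lit 3) .nil))))) .nil)) 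
(.lf (nat_lit 14329) (.g (nat_lit 3277) (.e (nat_lit 1040) (nat_lit 81) (.e (nat_lit 1858) (nat_lit 124) (.e (nat_lit 557105) (nat_lit 14) (.e (nat_lit 180252) (nat_lit 10) (.e (nat_lit 573489) (nat_lit 14) (.e (nat_lit 73755) (nat_lit 8) (.e (nat_lit 557089) (nat_lit 12) (.e (nat_lit 163996) (nat_lit 37) (.e (nat_lit 630814) (nat_lit 13) .nil))))))))) (.g (nat_lit 5) .nil .nil)))))) 
(.nd (nat_lit 3) (.nd (nat_lit 4) (.nd (nat_lit 5) 
(.lf (nat_lit 14277) (.g (nat_lit 5072) (.e (nat_lit 1039) (nat_lit 81) (.e (nat_lit 1234) (nat_lit 91) (.e (nat_lit 90170) (nat_lit 13) (.e (nat_lit 172106) (nat_lit 10) (.e (nat_lit 434231) (nat_lit 23) (.e (nat_lit 532535) (nat_lit 9) (.e (nat_lit 335925) (nat_lit 0) (.e (nat_lit 989) (nat_lit 81) (.e (nat_lit 4801) (nat_lit 281) .nil))))))))) (.g (nat_lit 7) .nil .nil))) 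
(.lf (nat_lit 14309) (.g (nat_lit 2383) (.e (nat_lit 1039) (nat_lit 81) (.e (nat_lit 7270) (nat_lit 385) (.e (nat_lit 122919) (nat_lit 15) (.e (nat_lit 360451) (nat_lit 0) (.e (nat_lit 7261) (nat_lit 384) .nil))))) .nil))) (.nd (nat_lit 5) 
(.lf (nat_lit 14293) (.g (nat_lit 3351) (.e (nat_lit 1039) (nat_lit 81) (.e (nat_lit 1234) (nat_lit 91) (.e (nat_lit 90170) (nat_lit 13) (.e (nat_lit 172106) (nat_lit 10) (.e (nat_lit 434231) (nat_lit 23) (.e (nat_lit 532563) (nat_lit 15) (.e (nat_lit 385048) (nat_lit 21) (.e (nat_lit 6871) (nat_lit 371) .nil)))))))) (.g (nat_lit 4) .nil .nil))) 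
(.lf (nat_lit 14325) (.g (nat_lit 4544) (.e (nat_lit 1040) (nat_lit 81) (.e (nat_lit 1858) (nat_lit 124) (.e (nat_lit 557100) (nat_lit 13) (.e (nat_lit 172106) (nat_lit 10) (.e (nat_lit 434231) (nat_lit 23) (.e (nat_lit 532544) (nat_lit 10) (.e (nat_lit 344168) (nat_lit 40) (.e (nat_lit 671751) (nat_lit 0) .nil)))))))) (.g (nat_lit 0) .nil .nil))))) (.nd (nat_lit 4) (.nd (nat_lit 5) 
(.lf (nat_lit 14285) (.g (nat_lit 3718) (.e (nat_lit 1039) (nat_lit 81) (.e (nat_lit 1234) (nat_lit 91) (.e (nat_lit 90170) (nat_lit 13) (.e (nat_lit 172106) (nat_lit 10) (.e (nat_lit 434231) (nat_lit 23) (.e (nat_lit 532535) (nat_lit 9) (.e (nat_lit 335928) (nat_lit 0) (.e (nat_lit 991) (nat_lit 81) (.e (nat_lit 4798) (nat_lit 281) .nil))))))))) (.g (nat_lit 5) .nil .nil))) 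
(.lf (nat_lit 14317) (.g (nat_lit 2995) (.e (nat_lit 1040) (nat_lit 81) (.e (nat_lit 1524) (nat_lit 108) (.e (nat_lit 336194) (nat_lit 12) (.e (nat_lit 385102) (nat_lit 50) (.e (nat_lit 786483) (nat_lit 30) (.e (nat_lit 360451) (nat_lit 0) (.e (nat_lit 5896) (nat_lit 320) .nil))))))) (.g (nat_lit 7) .nil .nil)))) (.nd (nat_lit 5) 
(.lf (nat_lit 14301) (.g (nat_lit 2613) (.e (nat_lit 1039) (nat_lit 81) (.e (nat_lit 1255) (nat_lit 92) (.e (nat_lit 98384) (nat_lit 32) (.e (nat_lit 475177) (nat_lit 24) (.e (nat_lit 516169) (nat_lit 13) .nil))))) .nil)) 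
(.lf (nat_lit 14333) (.g (nat_lit 2727) (.e (nat_lit 1040) (nat_lit 81) (.e (nat_lit 1858) (nat_lit 124) (.e (nat_lit 557105) (nat_lit 14) (.e (nat_lit 180252) (nat_lit 10) (.e (nat_lit 573489) (nat_lit 14) (.e (nat_lit 73755) (nat_lit 8) (.e (nat_lit 557091) (nat_lit 12) (.e (nat_lit 163997) (nat_lit 37) (.e (nat_lit 630814) (nat_lit 13) .nil))))))))) (.g (nat_lit 4) .nil .nil))))))) 
(.nd (nat_lit 2) (.nd (nat_lit 3) (.nd (nat_lit 4) (.nd (nat_lit 5) 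
(.lf (nat_lit 14275) (.g (nat_lit 3522) (.e (nat_lit 1039) (nat_lit 81) (.e (nat_lit 1234) (nat_lit 91) (.e (nat_lit 90170) (nat_lit 13) (.e (nat_lit 172106) (nat_lit 10) (.e (nat_lit 434231) (nat_lit 23) (.e (nat_lit 532535) (nat_lit 9) (.e (nat_lit 335922) (nat_lit 0) (.e (nat_lit 1086) (nat_lit 81) (.e (nat_lit 4803) (nat_lit 281) .nil))))))))) (.g (nat_lit 4) .nil .nil))) 
(.lf (nat_lit 14307) (.g (nat_lit 3537) (.e (nat_lit 1039) (nat_lit 81) (.e (nat_lit 1859) (nat_lit 124) (.e (nat_lit 557109) (nat_lit 15) (.e (nat_lit 188452) (nat_lit 23) (.e (nat_lit 204862) (nat_lit 27) .nil))))) .nil))) (.nd (nat_lit 5) 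
(.lf (nat_lit 14291) (.g (nat_lit 3790) (.e (nat_lit 1039) (nat_lit 81) (.e (nat_lit 1234) (nat_lit 91) (.e (nat_lit 90170) (nat_lit 13) (.e (nat_lit 172106) (nat_lit 10) (.e (nat_lit 434231) (nat_lit 23) (.e (nat_lit 532535) (nat_lit 9) (.e (nat_lit 335992) (nat_lit 1) (.e (nat_lit 57780) (nat_lit 239) .nil)))))))) (.g (nat_lit 5) .nil .nil))) 
(.lf (nat_lit 14323) (.g (nat_lit 2333) (.e (nat_lit 1040) (nat_lit 81) (.e (nat_lit 1858) (nat_lit 124) (.e (nat_lit 557100) (nat_lit 13) (.e (nat_lit 172106) (nat_lit 10) (.e (nat_lit 434231) (nat_lit 23) (.e (nat_lit 532535) (nat_lit 9) (.e (nat_lit 335908) (nat_lit 0) (.e (nat_lit 1998) (nat_lit 137) (.e (nat_lit 663559) (nat_lit 0) .nil))))))))) (.g (nat_lit 4) .nil .nil))))) 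
(.nd (nat_lit 4) (.nd (nat_lit 5) 
(.lf (nat_lit 14283) (.g (nat_lit 4132) (.e (nat_lit 1039) (nat_lit 81) (.e (nat_lit 1234) (nat_lit 91) (.e (nat_lit 90170) (nat_lit 13) (.e (nat_lit 172106) (nat_lit 10) (.e (nat_lit 434231) (nat_lit 23) (.e (nat_lit 532535) (nat_lit 9) (.e (nat_lit 335928) (nat_lit 0) (.e (nat_lit 989) (nat_lit 81) (.e (nat_lit 4801) (nat_lit 281) .nil))))))))) (.g (nat_lit 7) .nil .nil))) 
(.lf (nat_lit 14315) (.g (nat_lit 992) (.e (nat_lit 1040) (nat_lit 81) (.e (nat_lit 1425) (nat_lit 108) (.e (nat_lit 336208) (nat_lit 12) (.e (nat_lit 385104) (nat_lit 50) .nil)))) .nil))) (.nd (nat_lit 5) 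
(.lf (nat_lit 14299) (.g (nat_lit 1584) (.e (nat_lit 1039) (nat_lit 81) (.e (nat_lit 1238) (nat_lit 91) (.e (nat_lit 90176) (nat_lit 15) (.e (nat_lit 188450) (nat_lit 23) (.e (nat_lit 204863) (nat_lit 27) .nil))))) .nil)) 
(.lf (nat_lit 14331) (.g (nat_lit 2686) (.e (nat_lit 1040) (nat_lit 81) (.e (nat_lit 1858) (nat_lit 124) (.e (nat_lit 557105) (nat_lit 14) (.e (nat_lit 180252) (nat_lit 10) (.e (nat_lit 573489) (nat_lit 14) (.e (nat_lit 73755) (nat_lit 8) (.e (nat_lit 557090) (nat_lit 12) (.e (nat_lit 163996) (nat_lit 37) (.e (nat_lit 630811) (nat_lit 13) .nil))))))))) (.g (nat_lit 4) .nil .nil)))))) 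
(.nd (nat_lit 3) (.nd (nat_lit 4) (.nd (nat_lit 5) 
(.lf (nat_lit 14279) (.g (nat_lit 4976) (.e (nat_lit 1039) (nat_lit 81) (.e (nat_lit 1234) (nat_lit 91) (.e (nat_lit 90170) (nat_lit 13) (.e (nat_lit 172106) (nat_lit 10) (.e (nat_lit 434231) (nat_lit 23) (.e (nat_lit 532535) (nat_lit 9) (.e (nat_lit 335925) (nat_lit 0) (.e (nat_lit 991) (nat_lit 81) (.e (nat_lit 4801) (nat_lit 281) .nil))))))))) (.g (nat_lit 7) .nil .nil))) 
(.lf (nat_lit 14311) (.g (nat_lit 3372) (.e (nat_lit 1040) (nat_lit 81) (.e (nat_lit 1234) (nat_lit 91) (.e (nat_lit 90170) (nat_lit 13) (.e (nat_lit 172106) (nat_lit 10) (.e (nat_lit 434231) (nat_lit 23) .nil))))) .nil))) (.nd (nat_lit 5) 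
(.lf (nat_lit 14295) (.g (nat_lit 3584) (.e (nat_lit 1039) (nat_lit 81) (.e (nat_lit 1234) (nat_lit 91) (.e (nat_lit 90174) (nat_lit 14) (.e (nat_lit 180250) (nat_lit 10) (.e (nat_lit 573487) (nat_lit 14) (.e (nat_lit 73746) (nat_lit 3) (.e (nat_lit 516117) (nat_lit 1) (.e (nat_lit 164195) (nat_lit 158) .nil)))))))) (.g (nat_lit 5) .nil .nil))) 
(.lf (nat_lit 14327) (.g (nat_lit 1881) (.e (nat_lit 1040) (nat_lit 81) (.e (nat_lit 1858) (nat_lit 124) (.e (nat_lit 557105) (nat_lit 14) (.e (nat_lit 180252) (nat_lit 10) .nil)))) .nil)))) (.nd (nat_lit 4) (.nd (nat_lit 5) 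
(.lf (nat_lit 14287) (.g (nat_lit 3354) (.e (nat_lit 1039) (nat_lit 81) (.e (nat_lit 1234) (nat_lit 91) (.e (nat_lit 90170) (nat_lit 13) (.e (nat_lit 172106) (nat_lit 10) (.e (nat_lit 434231) (nat_lit 23) (.e (nat_lit 532535) (nat_lit 9) (.e (nat_lit 335937) (nat_lit 0) (.e (nat_lit 988) (nat_lit 81) (.e (nat_lit 4780) (nat_lit 281) .nil))))))))) (.g (nat_lit 4) .nil .nil))) 
(.lf (nat_lit 14319) (.g (nat_lit 2462) (.e (nat_lit 1040) (nat_lit 81) (.e (nat_lit 1858) (nat_lit 124) (.e (nat_lit 557100) (nat_lit 13) (.e (nat_lit 172106) (nat_lit 10) (.e (nat_lit 434231) (nat_lit 23) (.e (nat_lit 532535) (nat_lit 9) (.e (nat_lit 335905) (nat_lit 0) (.e (nat_lit 1994) (nat_lit 137) (.e (nat_lit 663559) (nat_lit 0) .nil))))))))) (.g (nat_lit 4) .nil .nil)))) (.nd (nat_lit 5) 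
(.lf (nat_lit 14303) (.g (nat_lit 1540) (.e (nat_lit 1039) (nat_lit 81) (.e (nat_lit 1425) (nat_lit 108) (.e (nat_lit 336208) (nat_lit 12) (.e (nat_lit 385106) (nat_lit 50) (.e (nat_lit 786483) (nat_lit 30) .nil))))) .nil)) 
(.lf (nat_lit 14335) (.g (nat_lit 2983) (.e (nat_lit 1040) (nat_lit 81) (.e (nat_lit 1958) (nat_lit 134) (.e (nat_lit 638998) (nat_lit 8) (.e (nat_lit 172123) (nat_lit 13) (.e (nat_lit 483396) (nat_lit 24) (.e (nat_lit 344161) (nat_lit 37) (.e (nat_lit 647195) (nat_lit 9) .nil))))))) (.g (nat_lit 7) .nil .nil)))))))))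

noncomputable def tv199 : DT := (.nd (nat_lit 0) (.nd (nat_lit 1) (.nd (nat_lit 2) (.nd (nat_lit 3) (.nd (nat_lit 4) (.nd (nat_lit 5) 
(.lf (nat_lit 14336) (.g (nat_lit 3191) (.e (nat_lit 1040) (nat_lit 81) (.e (nat_lit 5195) (nat_lit 294) (.e (nat_lit 57372) (nat_lit 2) (.e (nat_lit 90158) (nat_lit 11) (.e (nat_lit 24608) (nat_lit 3) (.e (nat_lit 98321) (nat_lit 17) (.e (nat_lit 3771) (nat_lit 229) (.e (nat_lit 794673) (nat_lit 23) (.e (nat_lit 204821) (nat_lit 17) .nil))))))))) (.g (nat_lit 6) .nil .nil))) 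
(.lf (nat_lit 14368) (.g (nat_lit 3680) (.e (nat_lit 1040) (nat_lit 81) (.e (nat_lit 5907) (nat_lit 320) (.e (nat_lit 1181) (nat_lit 87) (.e (nat_lit 57480) (nat_lit 28) (.e (nat_lit 557098) (nat_lit 13) (.e (nat_lit 172097) (nat_lit 9) (.e (nat_lit 426125) (nat_lit 2) (.e (nat_lit 196666) (nat_lit 13) (.e (nat_lit 65546) (nat_lit 0) .nil))))))))) (.g (nat_lit 6) .nil .nil)))) (.nd (nat_lit 5) 
(.lf (nat_lit 14352) (.g (nat_lit 1855) (.e (nat_lit 1040) (nat_lit 81) (.e (nat_lit 5195) (nat_lit 294) (.e (nat_lit 57407) (nat_lit 12) (.e (nat_lit 336454) (nat_lit 34) (.e (nat_lit 483384) (nat_lit 23) .nil))))) .nil)) 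
(.lf (nat_lit 14384) (.g (nat_lit 2171) (.e (nat_lit 1040) (nat_lit 81) (.e (nat_lit 7290) (nat_lit 386) (.e (nat_lit 163905) (nat_lit 12) (.e (nat_lit 426568) (nat_lit 34) (.e (nat_lit 393282) (nat_lit 24) (.e (nat_lit 434231) (nat_lit 23) (.e (nat_lit 532490) (nat_lit 0) .nil))))))) (.g (nat_lit 4) .nil .nil))))) (.nd (nat_lit 4) (.nd (nat_lit 5) 
(.lf (nat_lit 14344) (.g (nat_lit 3409) (.e (nat_lit 1040) (nat_lit 81) (.e (nat_lit 5195) (nat_lit 294) (.e (nat_lit 57377) (nat_lit 3) (.e (nat_lit 98317) (nat_lit 9) (.e (nat_lit 336087) (nat_lit 9) .nil))))) .nil)) 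
(.lf (nat_lit 14376) (.g (nat_lit 1436) (.e (nat_lit 1040) (nat_lit 81) (.e (nat_lit 7270) (nat_lit 385) (.e (nat_lit 122919) (nat_lit 15) (.e (nat_lit 360451) (nat_lit 0) (.e (nat_lit 7124) (nat_lit 382) .nil))))) .nil))) (.nd (nat_lit 5) 
(.lf (nat_lit 14360) (.g (nat_lit 3610) (.e (nat_lit 1040) (nat_lit 81) (.e (nat_lit 5195) (nat_lit 294) (.e (nat_lit 57445) (nat_lit 19) (.e (nat_lit 393229) (nat_lit 9) (.e (nat_lit 336204) (nat_lit 12) .nil))))) .nil)) 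
(.lf (nat_lit 14392) (.g (nat_lit 3644) (.e (nat_lit 1041) (nat_lit 81) (.e (nat_lit 1234) (nat_lit 91) (.e (nat_lit 90170) (nat_lit 13) (.e (nat_lit 172106) (nat_lit 10) (.e (nat_lit 434231) (nat_lit 23) (.e (nat_lit 532544) (nat_lit 10) (.e (nat_lit 344091) (nat_lit 18) (.e (nat_lit 4780) (nat_lit 281) .nil)))))))) (.g (nat_lit 5) .nil .nil)))))) 
(.nd (nat_lit 3) (.nd (nat_lit 4) (.nd (nat_lit 5) 
(.lf (nat_lit 14340) (.g (nat_lit 4330) (.e (nat_lit 1040) (nat_lit 81) (.e (nat_lit 5195) (nat_lit 294) (.e (nat_lit 57377) (nat_lit 3) (.e (nat_lit 98317) (nat_lit 9) (.e (nat_lit 336020) (nat_lit 3) (.e (nat_lit 98342) (nat_lit 20) (.e (nat_lit 221215) (nat_lit 23) (.e (nat_lit 204821) (nat_lit 17) .nil)))))))) (.g (nat_lit 4) .nil .nil))) 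
(.lf (nat_lit 14372) (.g (nat_lit 2193) (.e (nat_lit 1040) (nat_lit 81) (.e (nat_lit 7147) (nat_lit 382) (.e (nat_lit 1186) (nat_lit 87) (.e (nat_lit 57464) (nat_lit 23) (.e (nat_lit 516130) (nat_lit 3) (.e (nat_lit 221212) (nat_lit 22) (.e (nat_lit 196668) (nat_lit 14) (.e (nat_lit 81664) (nat_lit 5) (.e (nat_lit 532490) (nat_lit 0) .nil))))))))) (.g (nat_lit 7) .nil .nil)))) (.nd (nat_lit 5) 
(.lf (nat_lit 14356) (.g (nat_lit 2250) (.e (nat_lit 1040) (nat_lit 81) (.e (nat_lit 5195) (nat_lit 294) (.e (nat_lit 57445) (nat_lit 19) (.e (nat_lit 393229) (nat_lit 9) (.e (nat_lit 336086) (nat_lit 9) .nil))))) .nil)) 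
(.lf (nat_lit 14388) (.g (nat_lit 3482) (.e (nat_lit 1041) (nat_lit 81) (.e (nat_lit 1234) (nat_lit 91) (.e (nat_lit 90170) (nat_lit 13) (.e (nat_lit 172106) (nat_lit 10) (.e (nat_lit 434231) (nat_lit 23) (.e (nat_lit 532535) (nat_lit 9) (.e (nat_lit 335921) (nat_lit 0) (.e (nat_lit 993) (nat_lit 81) (.e (nat_lit 4780) (nat_lit 281) .nil))))))))) (.g (nat_lit 4) .nil .nil))))) 
(.nd (nat_lit 4) (.nd (nat_lit 5) 
(.lf (nat_lit 14348) (.g (nat_lit 955) (.e (nat_lit 1040) (nat_lit 81) (.e (nat_lit 5195) (nat_lit 294) (.e (nat_lit 57379) (nat_lit 3) (.e (nat_lit 106240) (nat_lit 10) .nil)))) .nil)) 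
(.lf (nat_lit 14380) (.g (nat_lit 2410) (.e (nat_lit 1040) (nat_lit 81) (.e (nat_lit 7270) (nat_lit 385) (.e (nat_lit 122919) (nat_lit 15) (.e (nat_lit 360492) (nat_lit 22) .nil)))) .nil))) (.nd (nat_lit 5) 
(.lf (nat_lit 14364) (.g (nat_lit 1846) (.e (nat_lit 1040) (nat_lit 81) (.e (nat_lit 5906) (nat_lit 320) (.e (nat_lit 1181) (nat_lit 87) (.e (nat_lit 57480) (nat_lit 28) (.e (nat_lit 557098) (nat_lit 13) .nil))))) .nil)) 
(.lf (nat_lit 14396) (.g (nat_lit 1557) (.e (nat_lit 1041) (nat_lit 81) (.e (nat_lit 1238) (nat_lit 91) (.e (nat_lit 90176) (nat_lit 15) (.e (nat_lit 188450) (nat_lit 23) (.e (nat_lit 204852) (nat_lit 26) .nil))))) .nil)))))) (.nd (nat_lit 2) (.nd (nat_lit 3) (.nd (nat_lit 4) (.nd (nat_lit 5) 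
(.lf (nat_lit 14338) (.g (nat_lit 3114) (.e (nat_lit 1040) (nat_lit 81) (.e (nat_lit 5195) (nat_lit 294) (.e (nat_lit 57375) (nat_lit 2) (.e (nat_lit 90158) (nat_lit 11) (.e (nat_lit 24608) (nat_lit 3) (.e (nat_lit 98321) (nat_lit 17) (.e (nat_lit 3771) (nat_lit 229) (.e (nat_lit 794673) (nat_lit 23) (.e (nat_lit 204821) (nat_lit 17) .nil))))))))) (.g (nat_lit 5) .nil .nil))) 
(.lf (nat_lit 14370) (.g (nat_lit 3085) (.e (nat_lit 1040) (nat_lit 81) (.e (nat_lit 7147) (nat_lit 382) (.e (nat_lit 1185) (nat_lit 87) (.e (nat_lit 57464) (nat_lit 23) (.e (nat_lit 516129) (nat_lit 3) (.e (nat_lit 221210) (nat_lit 22) (.e (nat_lit 196668) (nat_lit 14) (.e (nat_lit 81664) (nat_lit 5) (.e (nat_lit 532490) (nat_lit 0) .nil))))))))) (.g (nat_lit 7) .nil .nil)))) (.nd (nat_lit 5) 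
(.lf (nat_lit 14354) (.g (nat_lit 2485) (.e (nat_lit 1040) (nat_lit 81) (.e (nat_lit 5195) (nat_lit 294) (.e (nat_lit 57407) (nat_lit 12) (.e (nat_lit 336454) (nat_lit 34) (.e (nat_lit 483408) (nat_lit 26) (.e (nat_lit 385065) (nat_lit 26) (.e (nat_lit 532490) (nat_lit 0) .nil))))))) (.g (nat_lit 5) .nil .nil))) 
(.lf (nat_lit 14386) (.g (nat_lit 3372) (.e (nat_lit 1041) (nat_lit 81) (.e (nat_lit 1234) (nat_lit 91) (.e (nat_lit 90170) (nat_lit 13) (.e (nat_lit 172106) (nat_lit 10) (.e (nat_lit 434231) (nat_lit 23) .nil))))) .nil)))) (.nd (nat_lit 4) (.nd (nat_lit 5) 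
(.lf (nat_lit 14346) (.g (nat_lit 975) (.e (nat_lit 1040) (nat_lit 81) (.e (nat_lit 5195) (nat_lit 294) (.e (nat_lit 57379) (nat_lit 3) (.e (nat_lit 98315) (nat_lit 9) .nil)))) .nil)) 
(.lf (nat_lit 14378) (.g (nat_lit 2162) (.e (nat_lit 1040) (nat_lit 81) (.e (nat_lit 7270) (nat_lit 385) (.e (nat_lit 122919) (nat_lit 15) (.e (nat_lit 360451) (nat_lit 0) (.e (nat_lit 7265) (nat_lit 384) (.e (nat_lit 57436) (nat_lit 17) (.e (nat_lit 376851) (nat_lit 20) .nil))))))) (.g (nat_lit 5) .nil .nil)))) (.nd (nat_lit 5) 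
(.lf (nat_lit 14362) (.g (nat_lit 1965) (.e (nat_lit 1040) (nat_lit 81) (.e (nat_lit 5195) (nat_lit 294) (.e (nat_lit 57448) (nat_lit 19) (.e (nat_lit 393229) (nat_lit 9) (.e (nat_lit 336086) (nat_lit 9) (.e (nat_lit 336325) (nat_lit 18) (.e (nat_lit 204821) (nat_lit 17) .nil))))))) (.g (nat_lit 5) .nil .nil))) 
(.lf (nat_lit 14394) (.g (nat_lit 1648) (.e (nat_lit 1041) (nat_lit 81) (.e (nat_lit 1234) (nat_lit 91) (.e (nat_lit 90185) (nat_lit 17) (.e (nat_lit 237605) (nat_lit 9) (.e (nat_lit 426131) (nat_lit 3) .nil))))) .nil))))) (.nd (nat_lit 3) (.nd (nat_lit 4) (.nd (nat_lit 5) 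
(.lf (nat_lit 14342) (.g (nat_lit 1908) (.e (nat_lit 1040) (nat_lit 81) (.e (nat_lit 5195) (nat_lit 294) (.e (nat_lit 57377) (nat_lit 3) (.e (nat_lit 98317) (nat_lit 9) (.e (nat_lit 336076) (nat_lit 9) .nil))))) .nil)) 
(.lf (nat_lit 14374) (.g (nat_lit 2041) (.e (nat_lit 1040) (nat_lit 81) (.e (nat_lit 7270) (nat_lit 385) (.e (nat_lit 122892) (nat_lit 3) (.e (nat_lit 98342) (nat_lit 20) (.e (nat_lit 221212) (nat_lit 22) (.e (nat_lit 196668) (nat_lit 14) (.e (nat_lit 81664) (nat_lit 5) (.e (nat_lit 532490) (nat_lit 0) .nil)))))))) (.g (nat_lit 5) .nil .nil)))) (.nd (nat_lit 5) 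
(.lf (nat_lit 14358) (.g (nat_lit 2353) (.e (nat_lit 1040) (nat_lit 81) (.e (nat_lit 5195) (nat_lit 294) (.e (nat_lit 57445) (nat_lit 19) (.e (nat_lit 393229) (nat_lit 9) (.e (nat_lit 336203) (nat_lit 12) .nil))))) .nil)) 
(.lf (nat_lit 14390) (.g (nat_lit 3728) (.e (nat_lit 1041) (nat_lit 81) (.e (nat_lit 1234) (nat_lit 91) (.e (nat_lit 90170) (nat_lit 13) (.e (nat_lit 172106) (nat_lit 10) (.e (nat_lit 434231) (nat_lit 23) (.e (nat_lit 532535) (nat_lit 9) (.e (nat_lit 335985) (nat_lit 1) (.e (nat_lit 57785) (nat_lit 239) .nil)))))))) (.g (nat_lit 5) .nil .nil))))) (.nd (nat_lit 4) (.nd (nat_lit 5) 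
(.lf (nat_lit 14350) (.g (nat_lit 1390) (.e (nat_lit 1040) (nat_lit 81) (.e (nat_lit 5195) (nat_lit 294) (.e (nat_lit 57379) (nat_lit 3) (.e (nat_lit 98342) (nat_lit 20) .nil)))) .nil)) 
(.lf (nat_lit 14382) (.g (nat_lit 1889) (.e (nat_lit 1040) (nat_lit 81) (.e (nat_lit 7282) (nat_lit 386) (.e (nat_lit 163903) (nat_lit 12) (.e (nat_lit 426568) (nat_lit 34) (.e (nat_lit 393282) (nat_lit 24) (.e (nat_lit 434231) (nat_lit 23) (.e (nat_lit 532490) (nat_lit 0) .nil))))))) (.g (nat_lit 4) .nil .nil)))) (.nd (nat_lit 5) 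
(.lf (nat_lit 14366) (.g (nat_lit 3647) (.e (nat_lit 1040) (nat_lit 81) (.e (nat_lit 5907) (nat_lit 320) (.e (nat_lit 1181) (nat_lit 87) (.e (nat_lit 57479) (nat_lit 28) (.e (nat_lit 557101) (nat_lit 13) (.e (nat_lit 172097) (nat_lit 9) (.e (nat_lit 426125) (nat_lit 2) (.e (nat_lit 196666) (nat_lit 13) (.e (nat_lit 65546) (nat_lit 0) .nil))))))))) (.g (nat_lit 6) .nil .nil))) 
(.lf (nat_lit 14398) (.g (nat_lit 1879) (.e (nat_lit 1041) (nat_lit 81) (.e (nat_lit 5906) (nat_lit 320) (.e (nat_lit 1221) (nat_lit 90) (.e (nat_lit 81959) (nat_lit 24) (.e (nat_lit 123195) (nat_lit 266) .nil))))) .nil))))))) (.nd (nat_lit 1) (.nd (nat_lit 2) (.nd (nat_lit 3) (.nd (nat_lit 4) (.nd (nat_lit 5) 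
(.lf (nat_lit 14337) (.g (nat_lit 2615) (.e (nat_lit 1040) (nat_lit 81) (.e (nat_lit 5195) (nat_lit 294) (.e (nat_lit 57372) (nat_lit 2) (.e (nat_lit 90158) (nat_lit 11) (.e (nat_lit 24608) (nat_lit 3) (.e (nat_lit 98338) (nat_lit 19) (.e (nat_lit 213013) (nat_lit 9) (.e (nat_lit 2684) (nat_lit 168) (.e (nat_lit 204821) (nat_lit 17) .nil))))))))) (.g (nat_lit 5) .nil .nil))) 
(.lf (nat_lit 14369) (.g (nat_lit 2857) (.e (nat_lit 1040) (nat_lit 81) (.e (nat_lit 5907) (nat_lit 320) (.e (nat_lit 1181) (nat_lit 87) (.e (nat_lit 57480) (nat_lit 28) (.e (nat_lit 557098) (nat_lit 13) (.e (nat_lit 172097) (nat_lit 9) (.e (nat_lit 426140) (nat_lit 3) (.e (nat_lit 204855) (nat_lit 26) (.e (nat_lit 335923) (nat_lit 0) .nil))))))))) (.g (nat_lit 5) .nil .nil)))) (.nd (nat_lit 5) 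
(.lf (nat_lit 14353) (.g (nat_lit 2859) (.e (nat_lit 1040) (nat_lit 81) (.e (nat_lit 5195) (nat_lit 294) (.e (nat_lit 57407) (nat_lit 12) (.e (nat_lit 336454) (nat_lit 34) (.e (nat_lit 483385) (nat_lit 23) (.e (nat_lit 336325) (nat_lit 18) (.e (nat_lit 204821) (nat_lit 17) .nil))))))) (.g (nat_lit 6) .nil .nil))) 
(.lf (nat_lit 14385) (.g (nat_lit 2202) (.e (nat_lit 1040) (nat_lit 81) (.e (nat_lit 7290) (nat_lit 386) (.e (nat_lit 163907) (nat_lit 12) (.e (nat_lit 426568) (nat_lit 34) (.e (nat_lit 393282) (nat_lit 24) .nil))))) .nil)))) (.nd (nat_lit 4) (.nd (nat_lit 5) 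
(.lf (nat_lit 14345) (.g (nat_lit 4010) (.e (nat_lit 1040) (nat_lit 81) (.e (nat_lit 5195) (nat_lit 294) (.e (nat_lit 57379) (nat_lit 3) (.e (nat_lit 98313) (nat_lit 9) (.e (nat_lit 336027) (nat_lit 3) (.e (nat_lit 98338) (nat_lit 19) (.e (nat_lit 213013) (nat_lit 9) (.e (nat_lit 2684) (nat_lit 168) (.e (nat_lit 204821) (nat_lit 17) .nil))))))))) (.g (nat_lit 9) .nil .nil))) 
(.lf (nat_lit 14377) (.g (nat_lit 1841) (.e (nat_lit 1040) (nat_lit 81) (.e (nat_lit 7270) (nat_lit 385) (.e (nat_lit 122919) (nat_lit 15) (.e (nat_lit 360451) (nat_lit 0) (.e (nat_lit 7261) (nat_lit 384) (.e (nat_lit 57436) (nat_lit 17) (.e (nat_lit 376852) (nat_lit 20) .nil))))))) (.g (nat_lit 4) .nil .nil)))) (.nd (nat_lit 5) 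
(.lf (nat_lit 14361) (.g (nat_lit 947) (.e (nat_lit 1040) (nat_lit 81) (.e (nat_lit 5195) (nat_lit 294) (.e (nat_lit 57448) (nat_lit 19) (.e (nat_lit 393225) (nat_lit 9) .nil)))) .nil)) 
(.lf (nat_lit 14393) (.g (nat_lit 3495) (.e (nat_lit 1041) (nat_lit 81) (.e (nat_lit 1234) (nat_lit 91) (.e (nat_lit 90170) (nat_lit 13) (.e (nat_lit 172106) (nat_lit 10) (.e (nat_lit 434231) (nat_lit 23) (.e (nat_lit 532554) (nat_lit 13) (.e (nat_lit 368662) (nat_lit 18) (.e (nat_lit 4833) (nat_lit 281) .nil)))))))) (.g (nat_lit 4) .nil .nil)))))) 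
(.nd (nat_lit 3) (.nd (nat_lit 4) (.nd (nat_lit 5) 
(.lf (nat_lit 14341) (.g (nat_lit 4066) (.e (nat_lit 1040) (nat_lit 81) (.e (nat_lit 5195) (nat_lit 294) (.e (nat_lit 57377) (nat_lit 3) (.e (nat_lit 98317) (nat_lit 9) (.e (nat_lit 336026) (nat_lit 3) (.e (nat_lit 98342) (nat_lit 20) (.e (nat_lit 221215) (nat_lit 23) (.e (nat_lit 204821) (nat_lit 17) .nil)))))))) (.g (nat_lit 4) .nil .nil))) 
(.lf (nat_lit 14373) (.g (nat_lit 1909) (.e (nat_lit 1040) (nat_lit 81) (.e (nat_lit 7147) (nat_lit 382) (.e (nat_lit 1186) (nat_lit 87) (.e (nat_lit 57464) (nat_lit 23) (.e (nat_lit 516130) (nat_lit 3) (.e (nat_lit 221212) (nat_lit 22) (.e (nat_lit 196669) (nat_lit 14) (.e (nat_lit 81664) (nat_lit 5) (.e (nat_lit 532490) (nat_lit 0) .nil))))))))) (.g (nat_lit 6) .nil .nil)))) (.nd (nat_lit 5) 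
(.lf (nat_lit 14357) (.g (nat_lit 3891) (.e (nat_lit 1040) (nat_lit 81) (.e (nat_lit 5195) (nat_lit 294) (.e (nat_lit 57445) (nat_lit 19) (.e (nat_lit 393229) (nat_lit 9) (.e (nat_lit 336194) (nat_lit 12) .nil))))) .nil)) 
(.lf (nat_lit 14389) (.g (nat_lit 3442) (.e (nat_lit 1041) (nat_lit 81) (.e (nat_lit 1234) (nat_lit 91) (.e (nat_lit 90170) (nat_lit 13) (.e (nat_lit 172106) (nat_lit 10) (.e (nat_lit 434231) (nat_lit 23) (.e (nat_lit 532535) (nat_lit 9) (.e (nat_lit 335922) (nat_lit 0) (.e (nat_lit 992) (nat_lit 81) (.e (nat_lit 4780) (nat_lit 281) .nil))))))))) (.g (nat_lit 4) .nil .nil))))) 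
(.nd (nat_lit 4) (.nd (nat_lit 5) 
(.lf (nat_lit 14349) (.g (nat_lit 1381) (.e (nat_lit 1040) (nat_lit 81) (.e (nat_lit 5195) (nat_lit 294) (.e (nat_lit 57379) (nat_lit 3) (.e (nat_lit 98341) (nat_lit 20) .nil)))) .nil)) 
(.lf (nat_lit 14381) (.g (nat_lit 2144) (.e (nat_lit 1040) (nat_lit 81) (.e (nat_lit 7270) (nat_lit 385) (.e (nat_lit 122919) (nat_lit 15) (.e (nat_lit 368384) (nat_lit 24) .nil)))) .nil))) (.nd (nat_lit 5) 
(.lf (nat_lit 14365) (.g (nat_lit 3786) (.e (nat_lit 1040) (nat_lit 81) (.e (nat_lit 5907) (nat_lit 320) (.e (nat_lit 1181) (nat_lit 87) (.e (nat_lit 57479) (nat_lit 28) (.e (nat_lit 557095) (nat_lit 13) (.e (nat_lit 172097) (nat_lit 9) (.e (nat_lit 426125) (nat_lit 2) (.e (nat_lit 196666) (nat_lit 13) (.e (nat_lit 65550) (nat_lit 0) .nil))))))))) (.g (nat_lit 5) .nil .nil))) 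
(.lf (nat_lit 14397) (.g (nat_lit 2861) (.e (nat_lit 1041) (nat_lit 81) (.e (nat_lit 1524) (nat_lit 108) (.e (nat_lit 336004) (nat_lit 2) (.e (nat_lit 90176) (nat_lit 15) (.e (nat_lit 188450) (nat_lit 23) (.e (nat_lit 204830) (nat_lit 18) (.e (nat_lit 65280) (nat_lit 221) .nil))))))) (.g (nat_lit 6) .nil .nil))))))) (.nd (nat_lit 2) (.nd (nat_lit 3) (.nd (nat_lit 4) (.nd (nat_lit 5) 
(.lf (nat_lit 14339) (.g (nat_lit 994) (.e (nat_lit 1040) (nat_lit 81) (.e (nat_lit 5195) (nat_lit 294) (.e (nat_lit 57377) (nat_lit 3) (.e (nat_lit 98313) (nat_lit 9) .nil)))) .nil)) 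
(.lf (nat_lit 14371) (.g (nat_lit 1863) (.e (nat_lit 1040) (nat_lit 81) (.e (nat_lit 7147) (nat_lit 382) (.e (nat_lit 1185) (nat_lit 87) (.e (nat_lit 57464) (nat_lit 23) (.e (nat_lit 516130) (nat_lit 3) (.e (nat_lit 221212) (nat_lit 22) (.e (nat_lit 196669) (nat_lit 14) (.e (nat_lit 81664) (nat_lit 5) (.e (nat_lit 532490) (nat_lit 0) .nil))))))))) (.g (nat_lit 6) .nil .nil)))) (.nd (nat_lit 5) 
(.lf (nat_lit 14355) (.g (nat_lit 2815) (.e (nat_lit 1040) (nat_lit 81) (.e (nat_lit 5195) (nat_lit 294) (.e (nat_lit 57445) (nat_lit 19) (.e (nat_lit 393229) (nat_lit 9) (.e (nat_lit 336085) (nat_lit 9) .nil))))) .nil)) 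
(.lf (nat_lit 14387) (.g (nat_lit 3523) (.e (nat_lit 1041) (nat_lit 81) (.e (nat_lit 1234) (nat_lit 91) (.e (nat_lit 90170) (nat_lit 13) (.e (nat_lit 172106) (nat_lit 10) (.e (nat_lit 434231) (nat_lit 23) (.e (nat_lit 532535) (nat_lit 9) (.e (nat_lit 335920) (nat_lit 0) (.e (nat_lit 992) (nat_lit 81) (.e (nat_lit 4780) (nat_lit 281) .nil))))))))) (.g (nat_lit 4) .nil .nil))))) 
(.nd (nat_lit 4) (.nd (nat_lit 5) 
(.lf (nat_lit 14347) (.g (nat_lit 2750) (.e (nat_lit 1040) (nat_lit 81) (.e (nat_lit 5195) (nat_lit 294) (.e (nat_lit 57379) (nat_lit 3) (.e (nat_lit 98317) (nat_lit 9) (.e (nat_lit 336223) (nat_lit 13) (.e (nat_lit 393229) (nat_lit 9) (.e (nat_lit 335933) (nat_lit 0) .nil))))))) (.g (nat_lit 6) .nil .nil))) 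
(.lf (nat_lit 14379) (.g (nat_lit 2882) (.e (nat_lit 1040) (nat_lit 81) (.e (nat_lit 7270) (nat_lit 385) (.e (nat_lit 122919) (nat_lit 15) (.e (nat_lit 360451) (nat_lit 0) (.e (nat_lit 7265) (nat_lit 384) (.e (nat_lit 57436) (nat_lit 17) (.e (nat_lit 376852) (nat_lit 20) .nil))))))) (.g (nat_lit 6) .nil .nil)))) (.nd (nat_lit 5) 
(.lf (nat_lit 14363) (.g (nat_lit 2962) (.e (nat_lit 1040) (nat_lit 81) (.e (nat_lit 5367) (nat_lit 298) (.e (nat_lit 1638) (nat_lit 114) (.e (nat_lit 385102) (nat_lit 50) (.e (nat_lit 786483) (nat_lit 30) (.e (nat_lit 360484) (nat_lit 15) (.e (nat_lit 647203) (nat_lit 14) .nil))))))) (.g (nat_lit 0) .nil .nil))) 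
(.lf (nat_lit 14395) (.g (nat_lit 2441) (.e (nat_lit 1041) (nat_lit 81) (.e (nat_lit 1237) (nat_lit 91) (.e (nat_lit 90170) (nat_lit 13) (.e (nat_lit 172106) (nat_lit 10) (.e (nat_lit 434231) (nat_lit 23) (.e (nat_lit 532535) (nat_lit 9) (.e (nat_lit 336295) (nat_lit 15) (.e (nat_lit 2444) (nat_lit 157) (.e (nat_lit 6883) (nat_lit 371) .nil))))))))) (.g (nat_lit 4) .nil .nil)))))) 
(.nd (nat_lit 3) (.nd (nat_lit 4) (.nd (nat_lit 5) 
(.lf (nat_lit 14343) (.g (nat_lit 3967) (.e (nat_lit 1040) (nat_lit 81) (.e (nat_lit 5195) (nat_lit 294) (.e (nat_lit 57377) (nat_lit 3) (.e (nat_lit 98317) (nat_lit 9) (.e (nat_lit 336085) (nat_lit 9) .nil))))) .nil)) 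
(.lf (nat_lit 14375) (.g (nat_lit 1875) (.e (nat_lit 1040) (nat_lit 81) (.e (nat_lit 7270) (nat_lit 385) (.e (nat_lit 122904) (nat_lit 12) (.e (nat_lit 336454) (nat_lit 34) (.e (nat_lit 483376) (nat_lit 22) .nil))))) .nil))) (.nd (nat_lit 5) 
(.lf (nat_lit 14359) (.g (nat_lit 2592) (.e (nat_lit 1040) (nat_lit 81) (.e (nat_lit 5195) (nat_lit 294) (.e (nat_lit 57445) (nat_lit 19) (.e (nat_lit 393229) (nat_lit 9) (.e (nat_lit 336203) (nat_lit 12) (.e (nat_lit 385067) (nat_lit 26) (.e (nat_lit 532490) (nat_lit 0) .nil))))))) (.g (nat_lit 4) .nil .nil))) 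
(.lf (nat_lit 14391) (.g (nat_lit 3815) (.e (nat_lit 1041) (nat_lit 81) (.e (nat_lit 1234) (nat_lit 91) (.e (nat_lit 90170) (nat_lit 13) (.e (nat_lit 172106) (nat_lit 10) (.e (nat_lit 434231) (nat_lit 23) (.e (nat_lit 532535) (nat_lit 9) (.e (nat_lit 335992) (nat_lit 1) (.e (nat_lit 57779) (nat_lit 239) .nil)))))))) (.g (nat_lit 5) .nil .nil))))) (.nd (nat_lit 4) (.nd (nat_lit 5) 
(.lf (nat_lit 14351) (.g (nat_lit 2056) (.e (nat_lit 1040) (nat_lit 81) (.e (nat_lit 5195) (nat_lit 294) (.e (nat_lit 57407) (nat_lit 12) (.e (nat_lit 336367) (nat_lit 27) (.e (nat_lit 426555) (nat_lit 32) .nil))))) .nil)) 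
(.lf (nat_lit 14383) (.g (nat_lit 2224) (.e (nat_lit 1040) (nat_lit 81) (.e (nat_lit 7289) (nat_lit 386) (.e (nat_lit 163875) (nat_lit 3) (.e (nat_lit 204837) (nat_lit 20) (.e (nat_lit 114715) (nat_lit 22) (.e (nat_lit 90170) (nat_lit 13) (.e (nat_lit 172065) (nat_lit 3) (.e (nat_lit 204821) (nat_lit 17) .nil)))))))) (.g (nat_lit 4) .nil .nil)))) (.nd (nat_lit 5) 
(.lf (nat_lit 14367) (.g (nat_lit 2839) (.e (nat_lit 1040) (nat_lit 81) (.e (nat_lit 5907) (nat_lit 320) (.e (nat_lit 1181) (nat_lit 87) (.e (nat_lit 57479) (nat_lit 28) (.e (nat_lit 557101) (nat_lit 13) (.e (nat_lit 172097) (nat_lit 9) (.e (nat_lit 426140) (nat_lit 3) (.e (nat_lit 204855) (nat_lit 26) (.e (nat_lit 335923) (nat_lit 0) .nil))))))))) (.g (nat_lit 5) .nil .nil))) 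
(.lf (nat_lit 14399) (.g (nat_lit 573) (.e (nat_lit 1041) (nat_lit 81) (.e (nat_lit 7270) (nat_lit 385) (.e (nat_lit 122914) (nat_lit 14) .nil))) .nil))))))))

noncomputable def tv200 : DT := (.nd (nat_lit 0) (.nd (nat_lit 1) (.nd (nat_lit 2) (.nd (nat_lit 3) (.nd (nat_lit 4) (.nd (nat_lit 5) 
(.lf (nat_lit 14400) (.g (nat_lit 570) (.e (nat_lit 1041) (nat_lit 81) (.e (nat_lit 7270) (nat_lit 385) (.e (nat_lit 122916) (nat_lit 14) .nil))) .nil)) 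
(.lf (nat_lit 14432) (.g (nat_lit 4188) (.e (nat_lit 1046) (nat_lit 81) (.e (nat_lit 2030) (nat_lit 140) (.e (nat_lit 688177) (nat_lit 16) (.e (nat_lit 65586) (nat_lit 7) (.e (nat_lit 319531) (nat_lit 16) (.e (nat_lit 286759) (nat_lit 12) (.e (nat_lit 385094) (nat_lit 49) (.e (nat_lit 778241) (nat_lit 0) .nil)))))))) (.g (nat_lit 0) .nil .nil)))) (.nd (nat_lit 5) 
(.lf (nat_lit 14416) (.g (nat_lit 2120) (.e (nat_lit 1042) (nat_lit 81) (.e (nat_lit 7270) (nat_lit 385) (.e (nat_lit 122919) (nat_lit 15) (.e (nat_lit 368384) (nat_lit 24) .nil)))) .nil)) 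
(.lf (nat_lit 14448) (.g (nat_lit 4262) (.e (nat_lit 1047) (nat_lit 81) (.e (nat_lit 1858) (nat_lit 124) (.e (nat_lit 557105) (nat_lit 14) (.e (nat_lit 180252) (nat_lit 10) (.e (nat_lit 573489) (nat_lit 14) (.e (nat_lit 73755) (nat_lit 8) (.e (nat_lit 557089) (nat_lit 12) (.e (nat_lit 164000) (nat_lit 38) (.e (nat_lit 639008) (nat_lit 13) .nil))))))))) (.g (nat_lit 8) .nil .nil))))) 
(.nd (nat_lit 4) (.nd (nat_lit 5) 
(.lf (nat_lit 14408) (.g (nat_lit 1142) (.e (nat_lit 1041) (nat_lit 81) (.e (nat_lit 7271) (nat_lit 385) (.e (nat_lit 122916) (nat_lit 14) (.e (nat_lit 360192) (nat_lit 12) .nil)))) .nil)) 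
(.lf (nat_lit 14440) (.g (nat_lit 3436) (.e (nat_lit 1047) (nat_lit 81) (.e (nat_lit 1858) (nat_lit 124) (.e (nat_lit 557101) (nat_lit 13) (.e (nat_lit 172097) (nat_lit 9) (.e (nat_lit 426125) (nat_lit 2) (.e (nat_lit 196666) (nat_lit 13) (.e (nat_lit 65546) (nat_lit 0) (.e (nat_lit 2006) (nat_lit 138) (.e (nat_lit 671748) (nat_lit 0) .nil))))))))) (.g (nat_lit 6) .nil .nil)))) (.nd (nat_lit 5) 
(.lf (nat_lit 14424) (.g (nat_lit 1898) (.e (nat_lit 1044) (nat_lit 81) (.e (nat_lit 7270) (nat_lit 385) (.e (nat_lit 122919) (nat_lit 15) (.e (nat_lit 360451) (nat_lit 0) .nil)))) .nil)) 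
(.lf (nat_lit 14456) (.g (nat_lit 2238) (.e (nat_lit 1047) (nat_lit 81) (.e (nat_lit 2030) (nat_lit 140) (.e (nat_lit 688177) (nat_lit 16) (.e (nat_lit 65586) (nat_lit 7) (.e (nat_lit 319531) (nat_lit 16) (.e (nat_lit 286756) (nat_lit 10) (.e (nat_lit 344168) (nat_lit 40) (.e (nat_lit 671748) (nat_lit 0) .nil)))))))) (.g (nat_lit 4) .nil .nil)))))) 
(.nd (nat_lit 3) (.nd (nat_lit 4) (.nd (nat_lit 5) 
(.lf (nat_lit 14404) (.g (nat_lit 1897) (.e (nat_lit 1041) (nat_lit 81) (.e (nat_lit 7270) (nat_lit 385) (.e (nat_lit 122919) (nat_lit 15) (.e (nat_lit 360451) (nat_lit 0) (.e (nat_lit 7261) (nat_lit 384) .nil))))) .nil)) 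
(.lf (nat_lit 14436) (.g (nat_lit 2974) (.e (nat_lit 1047) (nat_lit 81) (.e (nat_lit 1858) (nat_lit 124) (.e (nat_lit 557100) (nat_lit 13) (.e (nat_lit 172106) (nat_lit 10) (.e (nat_lit 434231) (nat_lit 23) (.e (nat_lit 532535) (nat_lit 9) (.e (nat_lit 335919) (nat_lit 0) (.e (nat_lit 2006) (nat_lit 138) (.e (nat_lit 671748) (nat_lit 0) .nil))))))))) (.g (nat_lit 4) .nil .nil)))) (.nd (nat_lit 5) 
(.lf (nat_lit 14420) (.g (nat_lit 595) (.e (nat_lit 1043) (nat_lit 81) (.e (nat_lit 7270) (nat_lit 385) (.e (nat_lit 122919) (nat_lit 15) .nil))) .nil)) 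
(.lf (nat_lit 14452) (.g (nat_lit 4837) (.e (nat_lit 1047) (nat_lit 81) (.e (nat_lit 1858) (nat_lit 124) (.e (nat_lit 557105) (nat_lit 14) (.e (nat_lit 180252) (nat_lit 10) (.e (nat_lit 573489) (nat_lit 14) (.e (nat_lit 73755) (nat_lit 8) (.e (nat_lit 557091) (nat_lit 12) (.e (nat_lit 163999) (nat_lit 38) (.e (nat_lit 639007) (nat_lit 13) .nil))))))))) (.g (nat_lit 8) .nil .nil))))) 
(.nd (nat_lit 4) (.nd (nat_lit 5) 
(.lf (nat_lit 14412) (.g (nat_lit 4538) (.e (nat_lit 1042) (nat_lit 81) (.e (nat_lit 1858) (nat_lit 124) (.e (nat_lit 557100) (nat_lit 13) (.e (nat_lit 172106) (nat_lit 10) (.e (nat_lit 434231) (nat_lit 23) (.e (nat_lit 532544) (nat_lit 10) (.e (nat_lit 344169) (nat_lit 40) (.e (nat_lit 671751) (nat_lit 0) .nil)))))))) (.g (nat_lit 8) .nil .nil))) 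
(.lf (nat_lit 14444) (.g (nat_lit 3058) (.e (nat_lit 1047) (nat_lit 81) (.e (nat_lit 1858) (nat_lit 124) (.e (nat_lit 557101) (nat_lit 13) (.e (nat_lit 172115) (nat_lit 10) (.e (nat_lit 434231) (nat_lit 23) (.e (nat_lit 532535) (nat_lit 9) (.e (nat_lit 335928) (nat_lit 0) (.e (nat_lit 2005) (nat_lit 138) (.e (nat_lit 671748) (nat_lit 0) .nil))))))))) (.g (nat_lit 5) .nil .nil)))) (.nd (nat_lit 5) 
(.lf (nat_lit 14428) (.g (nat_lit 2471) (.e (nat_lit 1046) (nat_lit 81) (.e (nat_lit 1788) (nat_lit 119) (.e (nat_lit 516151) (nat_lit 9) (.e (nat_lit 426285) (nat_lit 10) .nil)))) .nil)) 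
(.lf (nat_lit 14460) (.g (nat_lit 1996) (.e (nat_lit 1048) (nat_lit 81) (.e (nat_lit 1858) (nat_lit 124) (.e (nat_lit 557100) (nat_lit 13) (.e (nat_lit 172106) (nat_lit 10) (.e (nat_lit 434231) (nat_lit 23) .nil))))) .nil)))))) (.nd (nat_lit 2) (.nd (nat_lit 3) (.nd (nat_lit 4) (.nd (nat_lit 5) 
(.lf (nat_lit 14402) (.g (nat_lit 2380) (.e (nat_lit 1041) (nat_lit 81) (.e (nat_lit 7270) (nat_lit 385) (.e (nat_lit 122919) (nat_lit 15) (.e (nat_lit 360449) (nat_lit 0) .nil)))) .nil)) 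
(.lf (nat_lit 14434) (.g (nat_lit 1354) (.e (nat_lit 1047) (nat_lit 81) (.e (nat_lit 1663) (nat_lit 115) (.e (nat_lit 401152) (nat_lit 12) (.e (nat_lit 360466) (nat_lit 3) (.e (nat_lit 516120) (nat_lit 1) (.e (nat_lit 164158) (nat_lit 152) .nil)))))) (.g (nat_lit 5) .nil .nil)))) (.nd (nat_lit 5) 
(.lf (nat_lit 14418) (.g (nat_lit 4340) (.e (nat_lit 1043) (nat_lit 81) (.e (nat_lit 1858) (nat_lit 124) (.e (nat_lit 557100) (nat_lit 13) (.e (nat_lit 172106) (nat_lit 10) (.e (nat_lit 434231) (nat_lit 23) (.e (nat_lit 532544) (nat_lit 10) (.e (nat_lit 344168) (nat_lit 40) (.e (nat_lit 671751) (nat_lit 0) .nil)))))))) (.g (nat_lit 0) .nil .nil))) 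
(.lf (nat_lit 14450) (.g (nat_lit 4777) (.e (nat_lit 1047) (nat_lit 81) (.e (nat_lit 1858) (nat_lit 124) (.e (nat_lit 557105) (nat_lit 14) (.e (nat_lit 180252) (nat_lit 10) (.e (nat_lit 573489) (nat_lit 14) (.e (nat_lit 73755) (nat_lit 8) (.e (nat_lit 557090) (nat_lit 12) (.e (nat_lit 164000) (nat_lit 38) (.e (nat_lit 639005) (nat_lit 13) .nil))))))))) (.g (nat_lit 8) .nil .nil))))) 
(.nd (nat_lit 4) (.nd (nat_lit 5) 
(.lf (nat_lit 14410) (.g (nat_lit 1102) (.e (nat_lit 1041) (nat_lit 81) (.e (nat_lit 7271) (nat_lit 385) (.e (nat_lit 122919) (nat_lit 15) (.e (nat_lit 368384) (nat_lit 24) .nil)))) .nil)) 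
(.lf (nat_lit 14442) (.g (nat_lit 2184) (.e (nat_lit 1047) (nat_lit 81) (.e (nat_lit 1858) (nat_lit 124) (.e (nat_lit 557101) (nat_lit 13) (.e (nat_lit 172097) (nat_lit 9) (.e (nat_lit 426140) (nat_lit 3) (.e (nat_lit 204855) (nat_lit 26) (.e (nat_lit 335928) (nat_lit 0) (.e (nat_lit 2004) (nat_lit 138) (.e (nat_lit 671748) (nat_lit 0) .nil))))))))) (.g (nat_lit 4) .nil .nil)))) (.nd (nat_lit 5) 
(.lf (nat_lit 14426) (.g (nat_lit 2999) (.e (nat_lit 1045) (nat_lit 81) (.e (nat_lit 2030) (nat_lit 140) (.e (nat_lit 688177) (nat_lit 16) (.e (nat_lit 65586) (nat_lit 7) (.e (nat_lit 319531) (nat_lit 16) (.e (nat_lit 286748) (nat_lit 9) (.e (nat_lit 336295) (nat_lit 15) (.e (nat_lit 3632) (nat_lit 227) (.e (nat_lit 778246) (nat_lit 0) .nil))))))))) (.g (nat_lit 5) .nil .nil))) 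
(.lf (nat_lit 14458) (.g (nat_lit 5138) (.e (nat_lit 1047) (nat_lit 81) (.e (nat_lit 2030) (nat_lit 140) (.e (nat_lit 688177) (nat_lit 16) (.e (nat_lit 65586) (nat_lit 7) (.e (nat_lit 319534) (nat_lit 16) (.e (nat_lit 286752) (nat_lit 10) (.e (nat_lit 344169) (nat_lit 40) (.e (nat_lit 671748) (nat_lit 0) .nil)))))))) (.g (nat_lit 8) .nil .nil)))))) 
(.nd (nat_lit 3) (.nd (nat_lit 4) (.nd (nat_lit 5) 
(.lf (nat_lit 14406) (.g (nat_lit 857) (.e (nat_lit 1041) (nat_lit 81) (.e (nat_lit 7271) (nat_lit 385) (.e (nat_lit 122914) (nat_lit 14) (.e (nat_lit 360192) (nat_lit 12) .nil)))) .nil)) 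
(.lf (nat_lit 14438) (.g (nat_lit 3010) (.e (nat_lit 1047) (nat_lit 81) (.e (nat_lit 1858) (nat_lit 124) (.e (nat_lit 557100) (nat_lit 13) (.e (nat_lit 172106) (nat_lit 10) (.e (nat_lit 434231) (nat_lit 23) (.e (nat_lit 532544) (nat_lit 10) (.e (nat_lit 344167) (nat_lit 40) (.e (nat_lit 671748) (nat_lit 0) .nil)))))))) (.g (nat_lit 4) .nil .nil)))) (.nd (nat_lit 5) 
(.lf (nat_lit 14422) (.g (nat_lit 1996) (.e (nat_lit 1044) (nat_lit 81) (.e (nat_lit 1858) (nat_lit 124) (.e (nat_lit 557100) (nat_lit 13) (.e (nat_lit 172106) (nat_lit 10) (.e (nat_lit 434231) (nat_lit 23) .nil))))) .nil)) 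
(.lf (nat_lit 14454) (.g (nat_lit 2188) (.e (nat_lit 1047) (nat_lit 81) (.e (nat_lit 2030) (nat_lit 140) (.e (nat_lit 688177) (nat_lit 16) (.e (nat_lit 65586) (nat_lit 7) (.e (nat_lit 319531) (nat_lit 16) .nil))))) .nil)))) (.nd (nat_lit 4) (.nd (nat_lit 5) 
(.lf (nat_lit 14414) (.g (nat_lit 1296) (.e (nat_lit 1042) (nat_lit 81) (.e (nat_lit 7270) (nat_lit 385) (.e (nat_lit 122919) (nat_lit 15) (.e (nat_lit 360451) (nat_lit 0) .nil)))) .nil)) 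
(.lf (nat_lit 14446) (.g (nat_lit 1873) (.e (nat_lit 1047) (nat_lit 81) (.e (nat_lit 1858) (nat_lit 124) (.e (nat_lit 557105) (nat_lit 14) (.e (nat_lit 180252) (nat_lit 10) (.e (nat_lit 573487) (nat_lit 14) .nil))))) .nil))) (.nd (nat_lit 5) 
(.lf (nat_lit 14430) (.g (nat_lit 3625) (.e (nat_lit 1046) (nat_lit 81) (.e (nat_lit 1858) (nat_lit 124) (.e (nat_lit 557100) (nat_lit 13) (.e (nat_lit 172106) (nat_lit 10) (.e (nat_lit 434231) (nat_lit 23) (.e (nat_lit 532529) (nat_lit 9) (.e (nat_lit 336355) (nat_lit 24) (.e (nat_lit 262148) (nat_lit 0) .nil)))))))) (.g (nat_lit 6) .nil .nil))) 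
(.lf (nat_lit 14462) (.g (nat_lit 2810) (.e (nat_lit 1048) (nat_lit 81) (.e (nat_lit 1858) (nat_lit 124) (.e (nat_lit 557105) (nat_lit 14) (.e (nat_lit 180252) (nat_lit 10) (.e (nat_lit 573489) (nat_lit 14) (.e (nat_lit 73754) (nat_lit 8) (.e (nat_lit 557091) (nat_lit 12) (.e (nat_lit 163999) (nat_lit 38) (.e (nat_lit 639007) (nat_lit 13) .nil))))))))) (.g (nat_lit 4) .nil .nil)))))))) 
(.nd (nat_lit 1) (.nd (nat_lit 2) (.nd (nat_lit 3) (.nd (nat_lit 4) (.nd (nat_lit 5) 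
(.lf (nat_lit 14401) (.g (nat_lit 1316) (.e (nat_lit 1041) (nat_lit 81) (.e (nat_lit 7270) (nat_lit 385) (.e (nat_lit 122917) (nat_lit 15) (.e (nat_lit 368384) (nat_lit 24) .nil)))) .nil)) 
(.lf (nat_lit 14433) (.g (nat_lit 2753) (.e (nat_lit 1046) (nat_lit 81) (.e (nat_lit 6322) (nat_lit 337) (.e (nat_lit 1182) (nat_lit 87) (.e (nat_lit 57479) (nat_lit 28) (.e (nat_lit 557109) (nat_lit 15) (.e (nat_lit 196352) (nat_lit 18) (.e (nat_lit 393217) (nat_lit 0) .nil))))))) (.g (nat_lit 5) .nil .nil)))) (.nd (nat_lit 5) 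
(.lf (nat_lit 14417) (.g (nat_lit 2421) (.e (nat_lit 1043) (nat_lit 81) (.e (nat_lit 1237) (nat_lit 91) (.e (nat_lit 90170) (nat_lit 13) (.e (nat_lit 172106) (nat_lit 10) (.e (nat_lit 434231) (nat_lit 23) (.e (nat_lit 532535) (nat_lit 9) (.e (nat_lit 336030) (nat_lit 4) (.e (nat_lit 123127) (nat_lit 239) .nil)))))))) (.g (nat_lit 4) .nil .nil))) 
(.lf (nat_lit 14449) (.g (nat_lit 5462) (.e (nat_lit 1047) (nat_lit 81) (.e (nat_lit 1858) (nat_lit 124) (.e (nat_lit 557105) (nat_lit 14) (.e (nat_lit 180252) (nat_lit 10) (.e (nat_lit 573489) (nat_lit 14) (.e (nat_lit 73755) (nat_lit 8) (.e (nat_lit 557090) (nat_lit 12) (.e (nat_lit 163999) (nat_lit 38) (.e (nat_lit 639007) (nat_lit 13) .nil))))))))) (.g (nat_lit 9) .nil .nil))))) 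
(.nd (nat_lit 4) (.nd (nat_lit 5) 
(.lf (nat_lit 14409) (.g (nat_lit 675) (.e (nat_lit 1041) (nat_lit 81) (.e (nat_lit 7271) (nat_lit 385) (.e (nat_lit 122917) (nat_lit 15) (.e (nat_lit 368384) (nat_lit 24) .nil)))) .nil)) 
(.lf (nat_lit 14441) (.g (nat_lit 2086) (.e (nat_lit 1047) (nat_lit 81) (.e (nat_lit 1858) (nat_lit 124) (.e (nat_lit 557101) (nat_lit 13) (.e (nat_lit 172097) (nat_lit 9) (.e (nat_lit 426140) (nat_lit 3) (.e (nat_lit 204855) (nat_lit 26) (.e (nat_lit 335925) (nat_lit 0) (.e (nat_lit 2006) (nat_lit 138) (.e (nat_lit 671748) (nat_lit 0) .nil))))))))) (.g (nat_lit 4) .nil .nil)))) (.nd (nat_lit 5) 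
(.lf (nat_lit 14425) (.g (nat_lit 1626) (.e (nat_lit 1045) (nat_lit 81) (.e (nat_lit 1858) (nat_lit 124) (.e (nat_lit 557100) (nat_lit 13) (.e (nat_lit 172106) (nat_lit 10) .nil)))) .nil)) 
(.lf (nat_lit 14457) (.g (nat_lit 2185) (.e (nat_lit 1047) (nat_lit 81) (.e (nat_lit 2030) (nat_lit 140) (.e (nat_lit 688177) (nat_lit 16) (.e (nat_lit 65586) (nat_lit 7) (.e (nat_lit 319534) (nat_lit 16) .nil))))) .nil))))) (.nd (nat_lit 3) (.nd (nat_lit 4) (.nd (nat_lit 5) 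
(.lf (nat_lit 14405) (.g (nat_lit 2555) (.e (nat_lit 1041) (nat_lit 81) (.e (nat_lit 7270) (nat_lit 385) (.e (nat_lit 122919) (nat_lit 15) (.e (nat_lit 360451) (nat_lit 0) (.e (nat_lit 7266) (nat_lit 384) .nil))))) .nil)) 
(.lf (nat_lit 14437) (.g (nat_lit 5373) (.e (nat_lit 1047) (nat_lit 81) (.e (nat_lit 1858) (nat_lit 124) (.e (nat_lit 557100) (nat_lit 13) (.e (nat_lit 172106) (nat_lit 10) (.e (nat_lit 434231) (nat_lit 23) (.e (nat_lit 532543) (nat_lit 10) (.e (nat_lit 344169) (nat_lit 40) (.e (nat_lit 671748) (nat_lit 0) .nil)))))))) (.g (nat_lit 0) .nil .nil)))) (.nd (nat_lit 5) 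
(.lf (nat_lit 14421) (.g (nat_lit 1831) (.e (nat_lit 1043) (nat_lit 81) (.e (nat_lit 7270) (nat_lit 385) (.e (nat_lit 122919) (nat_lit 15) (.e (nat_lit 360451) (nat_lit 0) .nil)))) .nil)) 
(.lf (nat_lit 14453) (.g (nat_lit 4940) (.e (nat_lit 1047) (nat_lit 81) (.e (nat_lit 2030) (nat_lit 140) (.e (nat_lit 688177) (nat_lit 16) (.e (nat_lit 65583) (nat_lit 7) (.e (nat_lit 319533) (nat_lit 16) (.e (nat_lit 286753) (nat_lit 10) (.e (nat_lit 344169) (nat_lit 40) (.e (nat_lit 671748) (nat_lit 0) .nil)))))))) (.g (nat_lit 7) .nil .nil))))) (.nd (nat_lit 4) (.nd (nat_lit 5) 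
(.lf (nat_lit 14413) (.g (nat_lit 2679) (.e (nat_lit 1042) (nat_lit 81) (.e (nat_lit 1858) (nat_lit 124) (.e (nat_lit 557105) (nat_lit 14) (.e (nat_lit 180252) (nat_lit 10) (.e (nat_lit 573489) (nat_lit 14) .nil))))) .nil)) 
(.lf (nat_lit 14445) (.g (nat_lit 2800) (.e (nat_lit 1047) (nat_lit 81) (.e (nat_lit 1858) (nat_lit 124) (.e (nat_lit 557105) (nat_lit 14) (.e (nat_lit 180251) (nat_lit 10) (.e (nat_lit 573489) (nat_lit 14) (.e (nat_lit 73755) (nat_lit 8) (.e (nat_lit 557091) (nat_lit 12) (.e (nat_lit 163999) (nat_lit 38) (.e (nat_lit 639007) (nat_lit 13) .nil))))))))) (.g (nat_lit 5) .nil .nil)))) 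
(.nd (nat_lit 5) 
(.lf (nat_lit 14429) (.g (nat_lit 1967) (.e (nat_lit 1046) (nat_lit 81) (.e (nat_lit 1858) (nat_lit 124) (.e (nat_lit 557100) (nat_lit 13) (.e (nat_lit 172106) (nat_lit 10) (.e (nat_lit 434231) (nat_lit 23) .nil))))) .nil)) 
(.lf (nat_lit 14461) (.g (nat_lit 2678) (.e (nat_lit 1048) (nat_lit 81) (.e (nat_lit 1858) (nat_lit 124) (.e (nat_lit 557105) (nat_lit 14) (.e (nat_lit 180252) (nat_lit 10) (.e (nat_lit 573489) (nat_lit 14) .nil))))) .nil)))))) (.nd (nat_lit 2) (.nd (nat_lit 3) (.nd (nat_lit 4) (.nd (nat_lit 5) 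
(.lf (nat_lit 14403) (.g (nat_lit 2097) (.e (nat_lit 1041) (nat_lit 81) (.e (nat_lit 7270) (nat_lit 385) (.e (nat_lit 122919) (nat_lit 15) (.e (nat_lit 360450) (nat_lit 0) (.e (nat_lit 7261) (nat_lit 384) .nil))))) .nil)) 
(.lf (nat_lit 14435) (.g (nat_lit 2422) (.e (nat_lit 1047) (nat_lit 81) (.e (nat_lit 1858) (nat_lit 124) (.e (nat_lit 557100) (nat_lit 13) (.e (nat_lit 172106) (nat_lit 10) .nil)))) .nil))) (.nd (nat_lit 5) 
(.lf (nat_lit 14419) (.g (nat_lit 4590) (.e (nat_lit 1043) (nat_lit 81) (.e (nat_lit 1858) (nat_lit 124) (.e (nat_lit 557100) (nat_lit 13) (.e (nat_lit 172106) (nat_lit 10) (.e (nat_lit 434231) (nat_lit 23) (.e (nat_lit 532544) (nat_lit 10) (.e (nat_lit 344169) (nat_lit 40) (.e (nat_lit 671751) (nat_lit 0) .nil)))))))) (.g (nat_lit 8) .nil .nil))) 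
(.lf (nat_lit 14451) (.g (nat_lit 4729) (.e (nat_lit 1047) (nat_lit 81) (.e (nat_lit 1858) (nat_lit 124) (.e (nat_lit 557105) (nat_lit 14) (.e (nat_lit 180252) (nat_lit 10) (.e (nat_lit 573489) (nat_lit 14) (.e (nat_lit 73755) (nat_lit 8) (.e (nat_lit 557090) (nat_lit 12) (.e (nat_lit 164000) (nat_lit 38) (.e (nat_lit 639007) (nat_lit 13) .nil))))))))) (.g (nat_lit 9) .nil .nil))))) 
(.nd (nat_lit 4) (.nd (nat_lit 5) 
(.lf (nat_lit 14411) (.g (nat_lit 4236) (.e (nat_lit 1042) (nat_lit 81) (.e (nat_lit 1858) (nat_lit 124) (.e (nat_lit 557100) (nat_lit 13) (.e (nat_lit 172106) (nat_lit 10) (.e (nat_lit 434231) (nat_lit 23) (.e (nat_lit 532544) (nat_lit 10) (.e (nat_lit 344168) (nat_lit 40) (.e (nat_lit 671751) (nat_lit 0) .nil)))))))) (.g (nat_lit 0) .nil .nil))) 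
(.lf (nat_lit 14443) (.g (nat_lit 2033) (.e (nat_lit 1047) (nat_lit 81) (.e (nat_lit 1858) (nat_lit 124) (.e (nat_lit 557101) (nat_lit 13) (.e (nat_lit 172115) (nat_lit 10) (.e (nat_lit 434231) (nat_lit 23) .nil))))) .nil))) (.nd (nat_lit 5) 
(.lf (nat_lit 14427) (.g (nat_lit 2530) (.e (nat_lit 1045) (nat_lit 81) (.e (nat_lit 2281) (nat_lit 150) (.e (nat_lit 770072) (nat_lit 8) (.e (nat_lit 65568) (nat_lit 2) (.e (nat_lit 90170) (nat_lit 13) (.e (nat_lit 172106) (nat_lit 10) (.e (nat_lit 434244) (nat_lit 28) (.e (nat_lit 573451) (nat_lit 9) .nil)))))))) (.g (nat_lit 4) .nil .nil))) 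
(.lf (nat_lit 14459) (.g (nat_lit 5500) (.e (nat_lit 1047) (nat_lit 81) (.e (nat_lit 2030) (nat_lit 140) (.e (nat_lit 688177) (nat_lit 16) (.e (nat_lit 65586) (nat_lit 7) (.e (nat_lit 319534) (nat_lit 16) (.e (nat_lit 286756) (nat_lit 10) (.e (nat_lit 344169) (nat_lit 40) (.e (nat_lit 671748) (nat_lit 0) .nil)))))))) (.g (nat_lit 8) .nil .nil)))))) 
(.nd (nat_lit 3) (.nd (nat_lit 4) (.nd (nat_lit 5) 
(.lf (nat_lit 14407) (.g (nat_lit 289) (.e (nat_lit 1041) (nat_lit 81) (.e (nat_lit 7271) (nat_lit 385) (.e (nat_lit 122915) (nat_lit 14) .nil))) .nil)) 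
(.lf (nat_lit 14439) (.g (nat_lit 5941) (.e (nat_lit 1047) (nat_lit 81) (.e (nat_lit 1858) (nat_lit 124) (.e (nat_lit 557100) (nat_lit 13) (.e (nat_lit 172106) (nat_lit 10) (.e (nat_lit 434231) (nat_lit 23) (.e (nat_lit 532544) (nat_lit 10) (.e (nat_lit 344169) (nat_lit 40) (.e (nat_lit 671748) (nat_lit 0) .nil)))))))) (.g (nat_lit 0) .nil .nil)))) (.nd (nat_lit 5) 
(.lf (nat_lit 14423) (.g (nat_lit 2678) (.e (nat_lit 1044) (nat_lit 81) (.e (nat_lit 1858) (nat_lit 124) (.e (nat_lit 557105) (nat_lit 14) (.e (nat_lit 180252) (nat_lit 10) (.e (nat_lit 573489) (nat_lit 14) .nil))))) .nil)) 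
(.lf (nat_lit 14455) (.g (nat_lit 5611) (.e (nat_lit 1047) (nat_lit 81) (.e (nat_lit 2030) (nat_lit 140) (.e (nat_lit 688177) (nat_lit 16) (.e (nat_lit 65586) (nat_lit 7) (.e (nat_lit 319531) (nat_lit 16) (.e (nat_lit 286752) (nat_lit 10) (.e (nat_lit 344169) (nat_lit 40) (.e (nat_lit 671748) (nat_lit 0) .nil)))))))) (.g (nat_lit 8) .nil .nil))))) (.nd (nat_lit 4) (.nd (nat_lit 5) 
(.lf (nat_lit 14415) (.g (nat_lit 1744) (.e (nat_lit 1042) (nat_lit 81) (.e (nat_lit 7270) (nat_lit 385) (.e (nat_lit 122919) (nat_lit 15) (.e (nat_lit 360451) (nat_lit 0) (.e (nat_lit 7124) (nat_lit 382) .nil))))) .nil)) 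
(.lf (nat_lit 14447) (.g (nat_lit 2080) (.e (nat_lit 1047) (nat_lit 81) (.e (nat_lit 1858) (nat_lit 124) (.e (nat_lit 557105) (nat_lit 14) (.e (nat_lit 180252) (nat_lit 10) (.e (nat_lit 573487) (nat_lit 14) (.e (nat_lit 73753) (nat_lit 8) (.e (nat_lit 557089) (nat_lit 12) (.e (nat_lit 163999) (nat_lit 38) (.e (nat_lit 639007) (nat_lit 13) .nil))))))))) (.g (nat_lit 4) .nil .nil)))) 
(.nd (nat_lit 5) 
(.lf (nat_lit 14431) (.g (nat_lit 932) (.e (nat_lit 1046) (nat_lit 81) (.e (nat_lit 1859) (nat_lit 124) (.e (nat_lit 557107) (nat_lit 15) (.e (nat_lit 188447) (nat_lit 22) .nil)))) .nil)) 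
(.lf (nat_lit 14463) (.g (nat_lit 2742) (.e (nat_lit 1048) (nat_lit 81) (.e (nat_lit 1858) (nat_lit 124) (.e (nat_lit 557105) (nat_lit 14) (.e (nat_lit 180252) (nat_lit 10) (.e (nat_lit 573489) (nat_lit 14) (.e (nat_lit 73755) (nat_lit 8) (.e (nat_lit 557089) (nat_lit 12) (.e (nat_lit 163999) (nat_lit 38) (.e (nat_lit 639007) (nat_lit 13) .nil))))))))) (.g (nat_lit 4) .nil .nil)))))))))

noncomputable def tv201 : DT := (.nd (nat_lit 0) (.nd (nat_lit 1) (.nd (nat_lit 2) (.nd (nat_lit 3) (.nd (nat_lit 4) (.nd (nat_lit 5) (.nd (nat_lit 6) 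
(.lf (nat_lit 14464) (.g (nat_lit 3036) (.e (nat_lit 1048) (nat_lit 81) (.e (nat_lit 1858) (nat_lit 124) (.e (nat_lit 557105) (nat_lit 14) (.e (nat_lit 180252) (nat_lit 10) (.e (nat_lit 573489) (nat_lit 14) (.e (nat_lit 73755) (nat_lit 8) (.e (nat_lit 557089) (nat_lit 12) (.e (nat_lit 164000) (nat_lit 38) (.e (nat_lit 639008) (nat_lit 13) .nil))))))))) (.g (nat_lit 5) .nil .nil))) 
(.lf (nat_lit 14528) (.g (nat_lit 1472) (.e (nat_lit 1058) (nat_lit 81) (.e (nat_lit 1661) (nat_lit 115) (.e (nat_lit 393252) (nat_lit 18) (.e (nat_lit 164305) (nat_lit 226) .nil)))) .nil))) (.nd (nat_lit 6) 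
(.lf (nat_lit 14496) (.g (nat_lit 3371) (.e (nat_lit 1057) (nat_lit 81) (.e (nat_lit 1234) (nat_lit 91) (.e (nat_lit 90170) (nat_lit 13) (.e (nat_lit 172106) (nat_lit 10) (.e (nat_lit 434231) (nat_lit 23) .nil))))) .nil)) 
(.lf (nat_lit 14560) (.g (nat_lit 1824) (.e (nat_lit 1059) (nat_lit 81) (.e (nat_lit 1661) (nat_lit 115) (.e (nat_lit 393252) (nat_lit 18) (.e (nat_lit 164307) (nat_lit 226) (.e (nat_lit 1057) (nat_lit 81) .nil))))) .nil)))) (.nd (nat_lit 5) (.nd (nat_lit 6) 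
(.lf (nat_lit 14480) (.g (nat_lit 1840) (.e (nat_lit 1050) (nat_lit 81) (.e (nat_lit 5355) (nat_lit 298) (.e (nat_lit 1661) (nat_lit 115) (.e (nat_lit 393260) (nat_lit 21) (.e (nat_lit 409649) (nat_lit 18) .nil))))) .nil)) 
(.lf (nat_lit 14544) (.g (nat_lit 1706) (.e (nat_lit 1059) (nat_lit 81) (.e (nat_lit 1661) (nat_lit 115) (.e (nat_lit 393251) (nat_lit 18) (.e (nat_lit 164300) (nat_lit 226) .nil)))) .nil))) (.nd (nat_lit 6) 
(.lf (nat_lit 14512) (.g (nat_lit 1535) (.e (nat_lit 1057) (nat_lit 81) (.e (nat_lit 1661) (nat_lit 115) (.e (nat_lit 393252) (nat_lit 18) (.e (nat_lit 164306) (nat_lit 226) .nil)))) .nil)) 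
(.lf (nat_lit 14576) (.g (nat_lit 2561) (.e (nat_lit 1060) (nat_lit 81) (.e (nat_lit 1661) (nat_lit 115) (.e (nat_lit 393260) (nat_lit 21) (.e (nat_lit 409644) (nat_lit 18) .nil)))) .nil))))) (.nd (nat_lit 4) (.nd (nat_lit 5) (.nd (nat_lit 6) 
(.lf (nat_lit 14472) (.g (nat_lit 3651) (.e (nat_lit 1048) (nat_lit 81) (.e (nat_lit 2030) (nat_lit 140) (.e (nat_lit 688177) (nat_lit 16) (.e (nat_lit 65586) (nat_lit 7) (.e (nat_lit 319534) (nat_lit 16) (.e (nat_lit 286752) (nat_lit 10) (.e (nat_lit 344169) (nat_lit 40) (.e (nat_lit 671748) (nat_lit 0) .nil)))))))) (.g (nat_lit 5) .nil .nil))) 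
(.lf (nat_lit 14536) (.g (nat_lit 2819) (.e (nat_lit 1058) (nat_lit 81) (.e (nat_lit 1661) (nat_lit 115) (.e (nat_lit 393260) (nat_lit 21) (.e (nat_lit 409648) (nat_lit 18) (.e (nat_lit 303151) (nat_lit 27) .nil))))) .nil))) (.nd (nat_lit 6) 
(.lf (nat_lit 14504) (.g (nat_lit 2484) (.e (nat_lit 1057) (nat_lit 81) (.e (nat_lit 1661) (nat_lit 115) (.e (nat_lit 393251) (nat_lit 18) (.e (nat_lit 164325) (nat_lit 230) (.e (nat_lit 163861) (nat_lit 1) .nil))))) .nil)) 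
(.lf (nat_lit 14568) (.g (nat_lit 2988) (.e (nat_lit 1059) (nat_lit 81) (.e (nat_lit 1661) (nat_lit 115) (.e (nat_lit 393260) (nat_lit 21) (.e (nat_lit 409650) (nat_lit 19) .nil)))) .nil)))) (.nd (nat_lit 5) (.nd (nat_lit 6) 
(.lf (nat_lit 14488) (.g (nat_lit 2213) (.e (nat_lit 1056) (nat_lit 81) (.e (nat_lit 1659) (nat_lit 115) (.e (nat_lit 393229) (nat_lit 9) (.e (nat_lit 336088) (nat_lit 9) (.e (nat_lit 336019) (nat_lit 3) .nil))))) .nil)) 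
(.lf (nat_lit 14552) (.g (nat_lit 1907) (.e (nat_lit 1059) (nat_lit 81) (.e (nat_lit 1661) (nat_lit 115) (.e (nat_lit 393252) (nat_lit 18) (.e (nat_lit 164305) (nat_lit 226) (.e (nat_lit 1058) (nat_lit 81) .nil))))) .nil))) (.nd (nat_lit 6) 
(.lf (nat_lit 14520) (.g (nat_lit 2595) (.e (nat_lit 1057) (nat_lit 81) (.e (nat_lit 1661) (nat_lit 115) (.e (nat_lit 393260) (nat_lit 21) (.e (nat_lit 409648) (nat_lit 18) (.e (nat_lit 303151) (nat_lit 27) .nil))))) .nil)) 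
(.lf (nat_lit 14584) (.g (nat_lit 3260) (.e (nat_lit 1060) (nat_lit 81) (.e (nat_lit 1661) (nat_lit 115) (.e (nat_lit 393260) (nat_lit 21) (.e (nat_lit 409651) (nat_lit 19) .nil)))) .nil)))))) (.nd (nat_lit 3) (.nd (nat_lit 4) (.nd (nat_lit 5) (.nd (nat_lit 6) 
(.lf (nat_lit 14468) (.g (nat_lit 4124) (.e (nat_lit 1048) (nat_lit 81) (.e (nat_lit 2030) (nat_lit 140) (.e (nat_lit 688177) (nat_lit 16) (.e (nat_lit 65586) (nat_lit 7) (.e (nat_lit 319531) (nat_lit 16) (.e (nat_lit 286752) (nat_lit 10) (.e (nat_lit 344169) (nat_lit 40) (.e (nat_lit 671748) (nat_lit 0) .nil)))))))) (.g (nat_lit 6) .nil .nil))) 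
(.lf (nat_lit 14532) (.g (nat_lit 1904) (.e (nat_lit 1058) (nat_lit 81) (.e (nat_lit 1661) (nat_lit 115) (.e (nat_lit 393252) (nat_lit 18) (.e (nat_lit 164305) (nat_lit 226) (.e (nat_lit 1101) (nat_lit 81) .nil))))) .nil))) (.nd (nat_lit 6) 
(.lf (nat_lit 14500) (.g (nat_lit 3292) (.e (nat_lit 1057) (nat_lit 81) (.e (nat_lit 1661) (nat_lit 115) (.e (nat_lit 401152) (nat_lit 12) (.e (nat_lit 360475) (nat_lit 8) (.e (nat_lit 557090) (nat_lit 12) (.e (nat_lit 163844) (nat_lit 0) (.e (nat_lit 5123) (nat_lit 292) .nil))))))) (.g (nat_lit 6) .nil .nil))) 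
(.lf (nat_lit 14564) (.g (nat_lit 2471) (.e (nat_lit 1059) (nat_lit 81) (.e (nat_lit 1661) (nat_lit 115) (.e (nat_lit 393260) (nat_lit 21) (.e (nat_lit 409646) (nat_lit 18) .nil)))) .nil)))) (.nd (nat_lit 5) (.nd (nat_lit 6) 
(.lf (nat_lit 14484) (.g (nat_lit 4021) (.e (nat_lit 1055) (nat_lit 81) (.e (nat_lit 5947) (nat_lit 322) (.e (nat_lit 57347) (nat_lit 0) (.e (nat_lit 2031) (nat_lit 140) (.e (nat_lit 688177) (nat_lit 16) (.e (nat_lit 65583) (nat_lit 7) (.e (nat_lit 319530) (nat_lit 16) (.e (nat_lit 286748) (nat_lit 9) (.e (nat_lit 335891) (nat_lit 0) .nil))))))))) (.g (nat_lit 8) .nil .nil))) 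
(.lf (nat_lit 14548) (.g (nat_lit 1661) (.e (nat_lit 1059) (nat_lit 81) (.e (nat_lit 1661) (nat_lit 115) (.e (nat_lit 393252) (nat_lit 18) (.e (nat_lit 164297) (nat_lit 226) .nil)))) .nil))) (.nd (nat_lit 6) 
(.lf (nat_lit 14516) (.g (nat_lit 2244) (.e (nat_lit 1057) (nat_lit 81) (.e (nat_lit 1661) (nat_lit 115) (.e (nat_lit 393252) (nat_lit 18) (.e (nat_lit 164332) (nat_lit 230) (.e (nat_lit 163862) (nat_lit 1) .nil))))) .nil)) 
(.lf (nat_lit 14580) (.g (nat_lit 2043) (.e (nat_lit 1060) (nat_lit 81) (.e (nat_lit 1661) (nat_lit 115) (.e (nat_lit 393260) (nat_lit 21) (.e (nat_lit 409649) (nat_lit 18) .nil)))) .nil))))) (.nd (nat_lit 4) (.nd (nat_lit 5) (.nd (nat_lit 6) 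
(.lf (nat_lit 14476) (.g (nat_lit 3206) (.e (nat_lit 1048) (nat_lit 81) (.e (nat_lit 5589) (nat_lit 310) (.e (nat_lit 163875) (nat_lit 3) (.e (nat_lit 204861) (nat_lit 26) (.e (nat_lit 336213) (nat_lit 13) (.e (nat_lit 393225) (nat_lit 9) (.e (nat_lit 335913) (nat_lit 0) .nil))))))) (.g (nat_lit 7) .nil .nil))) 
(.lf (nat_lit 14540) (.g (nat_lit 3371) (.e (nat_lit 1059) (nat_lit 81) (.e (nat_lit 1234) (nat_lit 91) (.e (nat_lit 90170) (nat_lit 13) (.e (nat_lit 172106) (nat_lit 10) (.e (nat_lit 434231) (nat_lit 23) .nil))))) .nil))) (.nd (nat_lit 6) 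
(.lf (nat_lit 14508) (.g (nat_lit 1535) (.e (nat_lit 1057) (nat_lit 81) (.e (nat_lit 1661) (nat_lit 115) (.e (nat_lit 393252) (nat_lit 18) (.e (nat_lit 164297) (nat_lit 226) .nil)))) .nil)) 
(.lf (nat_lit 14572) (.g (nat_lit 993) (.e (nat_lit 1060) (nat_lit 81) (.e (nat_lit 1425) (nat_lit 108) (.e (nat_lit 336019) (nat_lit 3) (.e (nat_lit 98380) (nat_lit 31) (.e (nat_lit 474880) (nat_lit 3) .nil))))) .nil)))) (.nd (nat_lit 5) (.nd (nat_lit 6) 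
(.lf (nat_lit 14492) (.g (nat_lit 4322) (.e (nat_lit 1056) (nat_lit 81) (.e (nat_lit 1661) (nat_lit 115) (.e (nat_lit 393225) (nat_lit 9) (.e (nat_lit 336088) (nat_lit 9) (.e (nat_lit 336019) (nat_lit 3) (.e (nat_lit 98333) (nat_lit 18) (.e (nat_lit 164151) (nat_lit 152) .nil))))))) (.g (nat_lit 0) .nil .nil))) 
(.lf (nat_lit 14556) (.g (nat_lit 2708) (.e (nat_lit 1059) (nat_lit 81) (.e (nat_lit 1661) (nat_lit 115) (.e (nat_lit 393252) (nat_lit 18) (.e (nat_lit 164305) (nat_lit 226) (.e (nat_lit 1101) (nat_lit 81) (.e (nat_lit 1661) (nat_lit 115) (.e (nat_lit 393251) (nat_lit 18) (.e (nat_lit 164300) (nat_lit 226) .nil)))))))) (.g (nat_lit 6) .nil .nil)))) (.nd (nat_lit 6) 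
(.lf (nat_lit 14524) (.g (nat_lit 3245) (.e (nat_lit 1057) (nat_lit 81) (.e (nat_lit 1661) (nat_lit 115) (.e (nat_lit 393260) (nat_lit 21) (.e (nat_lit 409651) (nat_lit 19) .nil)))) .nil)) 
(.lf (nat_lit 14588) (.g (nat_lit 640) (.e (nat_lit 1061) (nat_lit 81) (.e (nat_lit 1661) (nat_lit 115) (.e (nat_lit 393252) (nat_lit 18) .nil))) .nil))))))) (.nd (nat_lit 2) (.nd (nat_lit 3) (.nd (nat_lit 4) (.nd (nat_lit 5) (.nd (nat_lit 6) 
(.lf (nat_lit 14466) (.g (nat_lit 2051) (.e (nat_lit 1048) (nat_lit 81) (.e (nat_lit 2030) (nat_lit 140) (.e (nat_lit 688177) (nat_lit 16) (.e (nat_lit 65581) (nat_lit 7) (.e (nat_lit 319533) (nat_lit 16) (.e (nat_lit 286753) (nat_lit 10) (.e (nat_lit 344169) (nat_lit 40) (.e (nat_lit 671748) (nat_lit 0) .nil)))))))) (.g (nat_lit 4) .nil .nil))) 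
(.lf (nat_lit 14530) (.g (nat_lit 1904) (.e (nat_lit 1058) (nat_lit 81) (.e (nat_lit 1661) (nat_lit 115) (.e (nat_lit 393252) (nat_lit 18) (.e (nat_lit 164305) (nat_lit 226) (.e (nat_lit 1072) (nat_lit 81) .nil))))) .nil))) (.nd (nat_lit 6) 
(.lf (nat_lit 14498) (.g (nat_lit 4136) (.e (nat_lit 1057) (nat_lit 81) (.e (nat_lit 1532) (nat_lit 109) (.e (nat_lit 344117) (nat_lit 21) (.e (nat_lit 516165) (nat_lit 12) (.e (nat_lit 450579) (nat_lit 5) (.e (nat_lit 532501) (nat_lit 1) (.e (nat_lit 57765) (nat_lit 221) .nil))))))) (.g (nat_lit 6) .nil .nil))) 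
(.lf (nat_lit 14562) (.g (nat_lit 1863) (.e (nat_lit 1059) (nat_lit 81) (.e (nat_lit 1661) (nat_lit 115) (.e (nat_lit 393252) (nat_lit 18) (.e (nat_lit 164307) (nat_lit 226) (.e (nat_lit 1072) (nat_lit 81) (.e (nat_lit 1661) (nat_lit 115) (.e (nat_lit 393252) (nat_lit 18) (.e (nat_lit 164297) (nat_lit 226) .nil)))))))) (.g (nat_lit 4) .nil .nil))))) (.nd (nat_lit 5) (.nd (nat_lit 6) 
(.lf (nat_lit 14482) (.g (nat_lit 2043) (.e (nat_lit 1055) (nat_lit 81) (.e (nat_lit 1661) (nat_lit 115) (.e (nat_lit 393260) (nat_lit 21) (.e (nat_lit 409648) (nat_lit 18) .nil)))) .nil)) 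
(.lf (nat_lit 14546) (.g (nat_lit 1932) (.e (nat_lit 1059) (nat_lit 81) (.e (nat_lit 1661) (nat_lit 115) (.e (nat_lit 393251) (nat_lit 18) (.e (nat_lit 164321) (nat_lit 229) (.e (nat_lit 122925) (nat_lit 19) .nil))))) .nil))) (.nd (nat_lit 6) 
(.lf (nat_lit 14514) (.g (nat_lit 1777) (.e (nat_lit 1057) (nat_lit 81) (.e (nat_lit 1661) (nat_lit 115) (.e (nat_lit 393252) (nat_lit 18) (.e (nat_lit 164307) (nat_lit 226) (.e (nat_lit 1059) (nat_lit 81) (.e (nat_lit 1661) (nat_lit 115) (.e (nat_lit 393252) (nat_lit 18) (.e (nat_lit 164297) (nat_lit 226) .nil)))))))) (.g (nat_lit 4) .nil .nil))) 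
(.lf (nat_lit 14578) (.g (nat_lit 1831) (.e (nat_lit 1060) (nat_lit 81) (.e (nat_lit 1661) (nat_lit 115) (.e (nat_lit 393260) (nat_lit 21) (.e (nat_lit 409648) (nat_lit 18) .nil)))) .nil))))) (.nd (nat_lit 4) (.nd (nat_lit 5) (.nd (nat_lit 6) 
(.lf (nat_lit 14474) (.g (nat_lit 4510) (.e (nat_lit 1048) (nat_lit 81) (.e (nat_lit 2281) (nat_lit 150) (.e (nat_lit 770072) (nat_lit 8) (.e (nat_lit 65583) (nat_lit 7) (.e (nat_lit 319534) (nat_lit 16) (.e (nat_lit 286756) (nat_lit 10) (.e (nat_lit 344160) (nat_lit 37) (.e (nat_lit 647190) (nat_lit 9) .nil)))))))) (.g (nat_lit 6) .nil .nil))) 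
(.lf (nat_lit 14538) (.g (nat_lit 2124) (.e (nat_lit 1058) (nat_lit 81) (.e (nat_lit 1661) (nat_lit 115) (.e (nat_lit 393260) (nat_lit 21) (.e (nat_lit 409649) (nat_lit 18) .nil)))) .nil))) (.nd (nat_lit 6) 
(.lf (nat_lit 14506) (.g (nat_lit 2493) (.e (nat_lit 1057) (nat_lit 81) (.e (nat_lit 1661) (nat_lit 115) (.e (nat_lit 393251) (nat_lit 18) (.e (nat_lit 164325) (nat_lit 230) (.e (nat_lit 163861) (nat_lit 1) (.e (nat_lit 164332) (nat_lit 230) (.e (nat_lit 163885) (nat_lit 5) (.e (nat_lit 221208) (nat_lit 21) (.e (nat_lit 164227) (nat_lit 181) .nil))))))))) (.g (nat_lit 4) .nil .nil))) 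
(.lf (nat_lit 14570) (.g (nat_lit 3455) (.e (nat_lit 1060) (nat_lit 81) (.e (nat_lit 1234) (nat_lit 91) (.e (nat_lit 90170) (nat_lit 13) (.e (nat_lit 172106) (nat_lit 10) (.e (nat_lit 434231) (nat_lit 23) (.e (nat_lit 532544) (nat_lit 10) (.e (nat_lit 344096) (nat_lit 18) (.e (nat_lit 4761) (nat_lit 281) .nil)))))))) (.g (nat_lit 4) .nil .nil))))) (.nd (nat_lit 5) (.nd (nat_lit 6) 
(.lf (nat_lit 14490) (.g (nat_lit 3184) (.e (nat_lit 1056) (nat_lit 81) (.e (nat_lit 1659) (nat_lit 115) (.e (nat_lit 393229) (nat_lit 9) (.e (nat_lit 336186) (nat_lit 11) (.e (nat_lit 368676) (nat_lit 21) (.e (nat_lit 516115) (nat_lit 1) (.e (nat_lit 164151) (nat_lit 152) .nil))))))) (.g (nat_lit 0) .nil .nil))) 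
(.lf (nat_lit 14554) (.g (nat_lit 1904) (.e (nat_lit 1059) (nat_lit 81) (.e (nat_lit 1661) (nat_lit 115) (.e (nat_lit 393252) (nat_lit 18) (.e (nat_lit 164305) (nat_lit 226) (.e (nat_lit 1101) (nat_lit 81) .nil))))) .nil))) (.nd (nat_lit 6) 
(.lf (nat_lit 14522) (.g (nat_lit 3203) (.e (nat_lit 1057) (nat_lit 81) (.e (nat_lit 1661) (nat_lit 115) (.e (nat_lit 393260) (nat_lit 21) (.e (nat_lit 409649) (nat_lit 18) (.e (nat_lit 303154) (nat_lit 28) .nil))))) .nil)) 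
(.lf (nat_lit 14586) (.g (nat_lit 1672) (.e (nat_lit 1061) (nat_lit 81) (.e (nat_lit 1253) (nat_lit 92) (.e (nat_lit 98372) (nat_lit 29) (.e (nat_lit 450579) (nat_lit 5) (.e (nat_lit 532555) (nat_lit 13) .nil))))) .nil)))))) (.nd (nat_lit 3) (.nd (nat_lit 4) (.nd (nat_lit 5) (.nd (nat_lit 6) 
(.lf (nat_lit 14470) (.g (nat_lit 3974) (.e (nat_lit 1048) (nat_lit 81) (.e (nat_lit 2030) (nat_lit 140) (.e (nat_lit 688177) (nat_lit 16) (.e (nat_lit 65586) (nat_lit 7) (.e (nat_lit 319531) (nat_lit 16) (.e (nat_lit 286756) (nat_lit 10) (.e (nat_lit 344169) (nat_lit 40) (.e (nat_lit 671748) (nat_lit 0) .nil)))))))) (.g (nat_lit 6) .nil .nil))) 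
(.lf (nat_lit 14534) (.g (nat_lit 1679) (.e (nat_lit 1058) (nat_lit 81) (.e (nat_lit 1661) (nat_lit 115) (.e (nat_lit 393252) (nat_lit 18) (.e (nat_lit 164307) (nat_lit 226) .nil)))) .nil))) (.nd (nat_lit 6) 
(.lf (nat_lit 14502) (.g (nat_lit 1559) (.e (nat_lit 1057) (nat_lit 81) (.e (nat_lit 1661) (nat_lit 115) (.e (nat_lit 393251) (nat_lit 18) (.e (nat_lit 164300) (nat_lit 226) .nil)))) .nil)) 
(.lf (nat_lit 14566) (.g (nat_lit 3192) (.e (nat_lit 1059) (nat_lit 81) (.e (nat_lit 1661) (nat_lit 115) (.e (nat_lit 393260) (nat_lit 21) (.e (nat_lit 409649) (nat_lit 18) (.e (nat_lit 303151) (nat_lit 27) .nil))))) .nil)))) (.nd (nat_lit 5) (.nd (nat_lit 6) 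
(.lf (nat_lit 14486) (.g (nat_lit 1518) (.e (nat_lit 1056) (nat_lit 81) (.e (nat_lit 1638) (nat_lit 114) (.e (nat_lit 385066) (nat_lit 26) (.e (nat_lit 532533) (nat_lit 9) (.e (nat_lit 336211) (nat_lit 13) .nil))))) .nil)) 
(.lf (nat_lit 14550) (.g (nat_lit 1472) (.e (nat_lit 1059) (nat_lit 81) (.e (nat_lit 1661) (nat_lit 115) (.e (nat_lit 393252) (nat_lit 18) (.e (nat_lit 164305) (nat_lit 226) .nil)))) .nil))) (.nd (nat_lit 6) 
(.lf (nat_lit 14518) (.g (nat_lit 2412) (.e (nat_lit 1057) (nat_lit 81) (.e (nat_lit 1661) (nat_lit 115) (.e (nat_lit 393260) (nat_lit 21) (.e (nat_lit 409646) (nat_lit 18) .nil)))) .nil)) 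
(.lf (nat_lit 14582) (.g (nat_lit 3213) (.e (nat_lit 1060) (nat_lit 81) (.e (nat_lit 1661) (nat_lit 115) (.e (nat_lit 393260) (nat_lit 21) (.e (nat_lit 409649) (nat_lit 18) (.e (nat_lit 303154) (nat_lit 28) .nil))))) .nil))))) (.nd (nat_lit 4) (.nd (nat_lit 5) (.nd (nat_lit 6) 
(.lf (nat_lit 14478) (.g (nat_lit 2013) (.e (nat_lit 1049) (nat_lit 81) (.e (nat_lit 5805) (nat_lit 320) (.e (nat_lit 1201) (nat_lit 88) (.e (nat_lit 65610) (nat_lit 10) (.e (nat_lit 344097) (nat_lit 18) .nil))))) .nil)) 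
(.lf (nat_lit 14542) (.g (nat_lit 659) (.e (nat_lit 1059) (nat_lit 81) (.e (nat_lit 1661) (nat_lit 115) (.e (nat_lit 393251) (nat_lit 18) .nil))) .nil))) (.nd (nat_lit 6) 
(.lf (nat_lit 14510) (.g (nat_lit 1810) (.e (nat_lit 1057) (nat_lit 81) (.e (nat_lit 1661) (nat_lit 115) (.e (nat_lit 393252) (nat_lit 18) (.e (nat_lit 164305) (nat_lit 226) (.e (nat_lit 1057) (nat_lit 81) .nil))))) .nil)) 
(.lf (nat_lit 14574) (.g (nat_lit 2631) (.e (nat_lit 1060) (nat_lit 81) (.e (nat_lit 1661) (nat_lit 115) (.e (nat_lit 393251) (nat_lit 18) (.e (nat_lit 164325) (nat_lit 230) (.e (nat_lit 163861) (nat_lit 1) .nil))))) .nil)))) (.nd (nat_lit 5) (.nd (nat_lit 6) 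
(.lf (nat_lit 14494) (.g (nat_lit 543) (.e (nat_lit 1056) (nat_lit 81) (.e (nat_lit 1661) (nat_lit 115) (.e (nat_lit 401152) (nat_lit 14) .nil))) .nil)) 
(.lf (nat_lit 14558) (.g (nat_lit 1661) (.e (nat_lit 1059) (nat_lit 81) (.e (nat_lit 1661) (nat_lit 115) (.e (nat_lit 393252) (nat_lit 18) (.e (nat_lit 164306) (nat_lit 226) .nil)))) .nil))) (.nd (nat_lit 6) 
(.lf (nat_lit 14526) (.g (nat_lit 1706) (.e (nat_lit 1058) (nat_lit 81) (.e (nat_lit 1661) (nat_lit 115) (.e (nat_lit 393251) (nat_lit 18) (.e (nat_lit 164300) (nat_lit 226) .nil)))) .nil)) 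
(.lf (nat_lit 14590) (.g (nat_lit 1900) (.e (nat_lit 1061) (nat_lit 81) (.e (nat_lit 1661) (nat_lit 115) (.e (nat_lit 393252) (nat_lit 18) (.e (nat_lit 164305) (nat_lit 226) (.e (nat_lit 1057) (nat_lit 81) .nil))))) .nil)))))))) (.nd (nat_lit 1) (.nd (nat_lit 2) (.nd (nat_lit 3) (.nd (nat_lit 4) (.nd (nat_lit 5) (.nd (nat_lit 6) 
(.lf (nat_lit 14465) (.g (nat_lit 3705) (.e (nat_lit 1048) (nat_lit 81) (.e (nat_lit 1858) (nat_lit 124) (.e (nat_lit 557105) (nat_lit 14) (.e (nat_lit 180252) (nat_lit 10) (.e (nat_lit 573489) (nat_lit 14) (.e (nat_lit 73755) (nat_lit 8) (.e (nat_lit 557090) (nat_lit 12) (.e (nat_lit 164000) (nat_lit 38) (.e (nat_lit 639008) (nat_lit 13) .nil))))))))) (.g (nat_lit 6) .nil .nil))) 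
(.lf (nat_lit 14529) (.g (nat_lit 1907) (.e (nat_lit 1058) (nat_lit 81) (.e (nat_lit 1661) (nat_lit 115) (.e (nat_lit 393252) (nat_lit 18) (.e (nat_lit 164305) (nat_lit 226) (.e (nat_lit 1061) (nat_lit 81) .nil))))) .nil))) (.nd (nat_lit 6) 
(.lf (nat_lit 14497) (.g (nat_lit 2252) (.e (nat_lit 1057) (nat_lit 81) (.e (nat_lit 1235) (nat_lit 91) (.e (nat_lit 90170) (nat_lit 13) (.e (nat_lit 172106) (nat_lit 10) (.e (nat_lit 434231) (nat_lit 23) .nil))))) .nil)) 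
(.lf (nat_lit 14561) (.g (nat_lit 1824) (.e (nat_lit 1059) (nat_lit 81) (.e (nat_lit 1661) (nat_lit 115) (.e (nat_lit 393252) (nat_lit 18) (.e (nat_lit 164307) (nat_lit 226) (.e (nat_lit 1059) (nat_lit 81) .nil))))) .nil)))) (.nd (nat_lit 5) (.nd (nat_lit 6) 
(.lf (nat_lit 14481) (.g (nat_lit 807) (.e (nat_lit 1053) (nat_lit 81) (.e (nat_lit 6207) (nat_lit 333) (.e (nat_lit 57900) (nat_lit 276) .nil))) .nil)) 
(.lf (nat_lit 14545) (.g (nat_lit 1915) (.e (nat_lit 1059) (nat_lit 81) (.e (nat_lit 1661) (nat_lit 115) (.e (nat_lit 393251) (nat_lit 18) (.e (nat_lit 164300) (nat_lit 226) (.e (nat_lit 1059) (nat_lit 81) (.e (nat_lit 1661) (nat_lit 115) (.e (nat_lit 393252) (nat_lit 18) (.e (nat_lit 164297) (nat_lit 226) .nil)))))))) (.g (nat_lit 4) .nil .nil)))) (.nd (nat_lit 6) 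
(.lf (nat_lit 14513) (.g (nat_lit 1560) (.e (nat_lit 1057) (nat_lit 81) (.e (nat_lit 1661) (nat_lit 115) (.e (nat_lit 393252) (nat_lit 18) (.e (nat_lit 164307) (nat_lit 226) .nil)))) .nil)) 
(.lf (nat_lit 14577) (.g (nat_lit 2427) (.e (nat_lit 1060) (nat_lit 81) (.e (nat_lit 1661) (nat_lit 115) (.e (nat_lit 393260) (nat_lit 21) (.e (nat_lit 409646) (nat_lit 18) .nil)))) .nil))))) (.nd (nat_lit 4) (.nd (nat_lit 5) (.nd (nat_lit 6) 
(.lf (nat_lit 14473) (.g (nat_lit 3991) (.e (nat_lit 1048) (nat_lit 81) (.e (nat_lit 2030) (nat_lit 140) (.e (nat_lit 688177) (nat_lit 16) (.e (nat_lit 65586) (nat_lit 7) (.e (nat_lit 319534) (nat_lit 16) (.e (nat_lit 286756) (nat_lit 10) (.e (nat_lit 344169) (nat_lit 40) (.e (nat_lit 671748) (nat_lit 0) .nil)))))))) (.g (nat_lit 6) .nil .nil))) 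
(.lf (nat_lit 14537) (.g (nat_lit 3038) (.e (nat_lit 1058) (nat_lit 81) (.e (nat_lit 1661) (nat_lit 115) (.e (nat_lit 393260) (nat_lit 21) (.e (nat_lit 409648) (nat_lit 18) (.e (nat_lit 303154) (nat_lit 28) .nil))))) .nil))) (.nd (nat_lit 6) 
(.lf (nat_lit 14505) (.g (nat_lit 3120) (.e (nat_lit 1057) (nat_lit 81) (.e (nat_lit 1661) (nat_lit 115) (.e (nat_lit 393251) (nat_lit 18) (.e (nat_lit 164325) (nat_lit 230) (.e (nat_lit 163861) (nat_lit 1) (.e (nat_lit 164332) (nat_lit 230) (.e (nat_lit 163885) (nat_lit 5) (.e (nat_lit 221207) (nat_lit 21) (.e (nat_lit 164224) (nat_lit 181) .nil))))))))) (.g (nat_lit 5) .nil .nil))) 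
(.lf (nat_lit 14569) (.g (nat_lit 3371) (.e (nat_lit 1060) (nat_lit 81) (.e (nat_lit 1234) (nat_lit 91) (.e (nat_lit 90170) (nat_lit 13) (.e (nat_lit 172106) (nat_lit 10) (.e (nat_lit 434231) (nat_lit 23) .nil))))) .nil)))) (.nd (nat_lit 5) (.nd (nat_lit 6) 
(.lf (nat_lit 14489) (.g (nat_lit 3062) (.e (nat_lit 1056) (nat_lit 81) (.e (nat_lit 1659) (nat_lit 115) (.e (nat_lit 393229) (nat_lit 9) (.e (nat_lit 336184) (nat_lit 11) (.e (nat_lit 368676) (nat_lit 21) (.e (nat_lit 516115) (nat_lit 1) (.e (nat_lit 164151) (nat_lit 152) .nil))))))) (.g (nat_lit 0) .nil .nil))) 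
(.lf (nat_lit 14553) (.g (nat_lit 1907) (.e (nat_lit 1059) (nat_lit 81) (.e (nat_lit 1661) (nat_lit 115) (.e (nat_lit 393252) (nat_lit 18) (.e (nat_lit 164305) (nat_lit 226) (.e (nat_lit 1061) (nat_lit 81) .nil))))) .nil))) (.nd (nat_lit 6) 
(.lf (nat_lit 14521) (.g (nat_lit 3133) (.e (nat_lit 1057) (nat_lit 81) (.e (nat_lit 1661) (nat_lit 115) (.e (nat_lit 393260) (nat_lit 21) (.e (nat_lit 409649) (nat_lit 18) (.e (nat_lit 303151) (nat_lit 27) .nil))))) .nil)) 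
(.lf (nat_lit 14585) (.g (nat_lit 3492) (.e (nat_lit 1061) (nat_lit 81) (.e (nat_lit 1234) (nat_lit 91) (.e (nat_lit 90170) (nat_lit 13) (.e (nat_lit 172106) (nat_lit 10) (.e (nat_lit 434231) (nat_lit 23) (.e (nat_lit 532544) (nat_lit 10) (.e (nat_lit 344096) (nat_lit 18) (.e (nat_lit 4761) (nat_lit 281) .nil)))))))) (.g (nat_lit 4) .nil .nil))))))) 
(.nd (nat_lit 3) (.nd (nat_lit 4) (.nd (nat_lit 5) (.nd (nat_lit 6) 
(.lf (nat_lit 14469) (.g (nat_lit 3924) (.e (nat_lit 1048) (nat_lit 81) (.e (nat_lit 2030) (nat_lit 140) (.e (nat_lit 688177) (nat_lit 16) (.e (nat_lit 65586) (nat_lit 7) (.e (nat_lit 319531) (nat_lit 16) (.e (nat_lit 286755) (nat_lit 10) (.e (nat_lit 344169) (nat_lit 40) (.e (nat_lit 671748) (nat_lit 0) .nil)))))))) (.g (nat_lit 6) .nil .nil))) 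
(.lf (nat_lit 14533) (.g (nat_lit 1661) (.e (nat_lit 1058) (nat_lit 81) (.e (nat_lit 1661) (nat_lit 115) (.e (nat_lit 393252) (nat_lit 18) (.e (nat_lit 164306) (nat_lit 226) .nil)))) .nil))) (.nd (nat_lit 6) 
(.lf (nat_lit 14501) (.g (nat_lit 597) (.e (nat_lit 1057) (nat_lit 81) (.e (nat_lit 1661) (nat_lit 115) (.e (nat_lit 393251) (nat_lit 18) .nil))) .nil)) 
(.lf (nat_lit 14565) (.g (nat_lit 1966) (.e (nat_lit 1059) (nat_lit 81) (.e (nat_lit 1661) (nat_lit 115) (.e (nat_lit 393260) (nat_lit 21) (.e (nat_lit 409648) (nat_lit 18) .nil)))) .nil)))) (.nd (nat_lit 5) (.nd (nat_lit 6) 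
(.lf (nat_lit 14485) (.g (nat_lit 2361) (.e (nat_lit 1056) (nat_lit 81) (.e (nat_lit 1253) (nat_lit 92) (.e (nat_lit 98342) (nat_lit 20) (.e (nat_lit 221212) (nat_lit 22) (.e (nat_lit 196670) (nat_lit 14) .nil))))) .nil)) 
(.lf (nat_lit 14549) (.g (nat_lit 1941) (.e (nat_lit 1059) (nat_lit 81) (.e (nat_lit 1661) (nat_lit 115) (.e (nat_lit 393252) (nat_lit 18) (.e (nat_lit 164297) (nat_lit 226) (.e (nat_lit 1059) (nat_lit 81) (.e (nat_lit 1661) (nat_lit 115) (.e (nat_lit 393252) (nat_lit 18) (.e (nat_lit 164307) (nat_lit 226) .nil)))))))) (.g (nat_lit 5) .nil .nil)))) (.nd (nat_lit 6) 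
(.lf (nat_lit 14517) (.g (nat_lit 2583) (.e (nat_lit 1057) (nat_lit 81) (.e (nat_lit 1661) (nat_lit 115) (.e (nat_lit 393260) (nat_lit 21) (.e (nat_lit 409616) (nat_lit 10) .nil)))) .nil)) 
(.lf (nat_lit 14581) (.g (nat_lit 3143) (.e (nat_lit 1060) (nat_lit 81) (.e (nat_lit 1661) (nat_lit 115) (.e (nat_lit 393260) (nat_lit 21) (.e (nat_lit 409649) (nat_lit 18) (.e (nat_lit 303151) (nat_lit 27) .nil))))) .nil))))) (.nd (nat_lit 4) (.nd (nat_lit 5) (.nd (nat_lit 6) 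
(.lf (nat_lit 14477) (.g (nat_lit 1799) (.e (nat_lit 1049) (nat_lit 81) (.e (nat_lit 5355) (nat_lit 298) (.e (nat_lit 1661) (nat_lit 115) (.e (nat_lit 393260) (nat_lit 21) (.e (nat_lit 409643) (nat_lit 18) .nil))))) .nil)) 
(.lf (nat_lit 14541) (.g (nat_lit 2480) (.e (nat_lit 1059) (nat_lit 81) (.e (nat_lit 1532) (nat_lit 109) (.e (nat_lit 344117) (nat_lit 21) (.e (nat_lit 516165) (nat_lit 12) (.e (nat_lit 458496) (nat_lit 3) .nil))))) .nil))) (.nd (nat_lit 6) 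
(.lf (nat_lit 14509) (.g (nat_lit 1375) (.e (nat_lit 1057) (nat_lit 81) (.e (nat_lit 1661) (nat_lit 115) (.e (nat_lit 393252) (nat_lit 18) (.e (nat_lit 164305) (nat_lit 226) .nil)))) .nil)) 
(.lf (nat_lit 14573) (.g (nat_lit 1291) (.e (nat_lit 1060) (nat_lit 81) (.e (nat_lit 1425) (nat_lit 108) (.e (nat_lit 336019) (nat_lit 3) (.e (nat_lit 98381) (nat_lit 31) (.e (nat_lit 474880) (nat_lit 3) .nil))))) .nil)))) (.nd (nat_lit 5) (.nd (nat_lit 6) 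
(.lf (nat_lit 14493) (.g (nat_lit 2415) (.e (nat_lit 1056) (nat_lit 81) (.e (nat_lit 1661) (nat_lit 115) (.e (nat_lit 393228) (nat_lit 9) (.e (nat_lit 336087) (nat_lit 9) (.e (nat_lit 336019) (nat_lit 3) (.e (nat_lit 98333) (nat_lit 18) (.e (nat_lit 164151) (nat_lit 152) .nil))))))) (.g (nat_lit 5) .nil .nil))) 
(.lf (nat_lit 14557) (.g (nat_lit 2651) (.e (nat_lit 1059) (nat_lit 81) (.e (nat_lit 1661) (nat_lit 115) (.e (nat_lit 393252) (nat_lit 18) (.e (nat_lit 164305) (nat_lit 226) (.e (nat_lit 1101) (nat_lit 81) (.e (nat_lit 1661) (nat_lit 115) (.e (nat_lit 393252) (nat_lit 18) (.e (nat_lit 164307) (nat_lit 226) .nil)))))))) (.g (nat_lit 6) .nil .nil)))) (.nd (nat_lit 6) 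
(.lf (nat_lit 14525) (.g (nat_lit 659) (.e (nat_lit 1058) (nat_lit 81) (.e (nat_lit 1661) (nat_lit 115) (.e (nat_lit 393251) (nat_lit 18) .nil))) .nil)) 
(.lf (nat_lit 14589) (.g (nat_lit 1465) (.e (nat_lit 1061) (nat_lit 81) (.e (nat_lit 1661) (nat_lit 115) (.e (nat_lit 393252) (nat_lit 18) (.e (nat_lit 164305) (nat_lit 226) .nil)))) .nil))))))) (.nd (nat_lit 2) (.nd (nat_lit 3) (.nd (nat_lit 4) (.nd (nat_lit 5) (.nd (nat_lit 6) 
(.lf (nat_lit 14467) (.g (nat_lit 2184) (.e (nat_lit 1048) (nat_lit 81) (.e (nat_lit 2030) (nat_lit 140) (.e (nat_lit 688177) (nat_lit 16) (.e (nat_lit 65586) (nat_lit 7) (.e (nat_lit 319531) (nat_lit 16) .nil))))) .nil)) 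
(.lf (nat_lit 14531) (.g (nat_lit 1950) (.e (nat_lit 1058) (nat_lit 81) (.e (nat_lit 1661) (nat_lit 115) (.e (nat_lit 393252) (nat_lit 18) (.e (nat_lit 164305) (nat_lit 226) (.e (nat_lit 1072) (nat_lit 81) (.e (nat_lit 1661) (nat_lit 115) (.e (nat_lit 393251) (nat_lit 18) (.e (nat_lit 164298) (nat_lit 226) .nil)))))))) (.g (nat_lit 4) .nil .nil)))) (.nd (nat_lit 6) 
(.lf (nat_lit 14499) (.g (nat_lit 4258) (.e (nat_lit 1057) (nat_lit 81) (.e (nat_lit 1532) (nat_lit 109) (.e (nat_lit 344117) (nat_lit 21) (.e (nat_lit 516165) (nat_lit 12) (.e (nat_lit 450579) (nat_lit 5) (.e (nat_lit 532504) (nat_lit 1) (.e (nat_lit 57765) (nat_lit 221) .nil))))))) (.g (nat_lit 6) .nil .nil))) 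
(.lf (nat_lit 14563) (.g (nat_lit 1824) (.e (nat_lit 1059) (nat_lit 81) (.e (nat_lit 1661) (nat_lit 115) (.e (nat_lit 393252) (nat_lit 18) (.e (nat_lit 164307) (nat_lit 226) (.e (nat_lit 1101) (nat_lit 81) .nil))))) .nil)))) (.nd (nat_lit 5) (.nd (nat_lit 6) 
(.lf (nat_lit 14483) (.g (nat_lit 3224) (.e (nat_lit 1055) (nat_lit 81) (.e (nat_lit 1661) (nat_lit 115) (.e (nat_lit 393260) (nat_lit 21) (.e (nat_lit 409649) (nat_lit 18) (.e (nat_lit 303151) (nat_lit 27) .nil))))) .nil)) 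
(.lf (nat_lit 14547) (.g (nat_lit 678) (.e (nat_lit 1059) (nat_lit 81) (.e (nat_lit 1661) (nat_lit 115) (.e (nat_lit 393252) (nat_lit 18) .nil))) .nil))) (.nd (nat_lit 6) 
(.lf (nat_lit 14515) (.g (nat_lit 1539) (.e (nat_lit 1057) (nat_lit 81) (.e (nat_lit 1661) (nat_lit 115) (.e (nat_lit 393252) (nat_lit 18) (.e (nat_lit 164332) (nat_lit 230) .nil)))) .nil)) 
(.lf (nat_lit 14579) (.g (nat_lit 2608) (.e (nat_lit 1060) (nat_lit 81) (.e (nat_lit 1661) (nat_lit 115) (.e (nat_lit 393260) (nat_lit 21) (.e (nat_lit 409648) (nat_lit 18) (.e (nat_lit 303151) (nat_lit 27) .nil))))) .nil))))) (.nd (nat_lit 4) (.nd (nat_lit 5) (.nd (nat_lit 6) 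
(.lf (nat_lit 14475) (.g (nat_lit 2136) (.e (nat_lit 1048) (nat_lit 81) (.e (nat_lit 2281) (nat_lit 150) (.e (nat_lit 770072) (nat_lit 8) (.e (nat_lit 65586) (nat_lit 7) (.e (nat_lit 319533) (nat_lit 16) (.e (nat_lit 286753) (nat_lit 10) (.e (nat_lit 344160) (nat_lit 37) (.e (nat_lit 647190) (nat_lit 9) .nil)))))))) (.g (nat_lit 4) .nil .nil))) 
(.lf (nat_lit 14539) (.g (nat_lit 3294) (.e (nat_lit 1058) (nat_lit 81) (.e (nat_lit 1661) (nat_lit 115) (.e (nat_lit 393260) (nat_lit 21) (.e (nat_lit 409649) (nat_lit 18) (.e (nat_lit 303154) (nat_lit 28) .nil))))) .nil))) (.nd (nat_lit 6) 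
(.lf (nat_lit 14507) (.g (nat_lit 2421) (.e (nat_lit 1057) (nat_lit 81) (.e (nat_lit 1661) (nat_lit 115) (.e (nat_lit 393251) (nat_lit 18) (.e (nat_lit 164325) (nat_lit 230) (.e (nat_lit 163864) (nat_lit 1) .nil))))) .nil)) 
(.lf (nat_lit 14571) (.g (nat_lit 2261) (.e (nat_lit 1060) (nat_lit 81) (.e (nat_lit 1235) (nat_lit 91) (.e (nat_lit 90170) (nat_lit 13) (.e (nat_lit 172106) (nat_lit 10) (.e (nat_lit 434231) (nat_lit 23) .nil))))) .nil)))) (.nd (nat_lit 5) (.nd (nat_lit 6) 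
(.lf (nat_lit 14491) (.g (nat_lit 3959) (.e (nat_lit 1056) (nat_lit 81) (.e (nat_lit 1661) (nat_lit 115) (.e (nat_lit 393225) (nat_lit 9) (.e (nat_lit 336087) (nat_lit 9) (.e (nat_lit 336019) (nat_lit 3) (.e (nat_lit 98333) (nat_lit 18) (.e (nat_lit 164151) (nat_lit 152) .nil))))))) (.g (nat_lit 0) .nil .nil))) 
(.lf (nat_lit 14555) (.g (nat_lit 2013) (.e (nat_lit 1059) (nat_lit 81) (.e (nat_lit 1661) (nat_lit 115) (.e (nat_lit 393252) (nat_lit 18) (.e (nat_lit 164305) (nat_lit 226) (.e (nat_lit 1101) (nat_lit 81) (.e (nat_lit 1661) (nat_lit 115) (.e (nat_lit 393251) (nat_lit 18) (.e (nat_lit 164298) (nat_lit 226) .nil)))))))) (.g (nat_lit 4) .nil .nil)))) (.nd (nat_lit 6) 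
(.lf (nat_lit 14523) (.g (nat_lit 2929) (.e (nat_lit 1057) (nat_lit 81) (.e (nat_lit 1661) (nat_lit 115) (.e (nat_lit 393260) (nat_lit 21) (.e (nat_lit 409650) (nat_lit 19) .nil)))) .nil)) 
(.lf (nat_lit 14587) (.g (nat_lit 60) (.e (nat_lit 1061) (nat_lit 81) (.e (nat_lit 1583) (nat_lit 111) (.e (nat_lit 368384) (nat_lit 25) .nil))) .nil)))))) (.nd (nat_lit 3) (.nd (nat_lit 4) (.nd (nat_lit 5) (.nd (nat_lit 6) 
(.lf (nat_lit 14471) (.g (nat_lit 2255) (.e (nat_lit 1048) (nat_lit 81) (.e (nat_lit 2030) (nat_lit 140) (.e (nat_lit 688177) (nat_lit 16) (.e (nat_lit 65586) (nat_lit 7) (.e (nat_lit 319533) (nat_lit 16) .nil))))) .nil)) 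
(.lf (nat_lit 14535) (.g (nat_lit 2503) (.e (nat_lit 1058) (nat_lit 81) (.e (nat_lit 1661) (nat_lit 115) (.e (nat_lit 393260) (nat_lit 21) (.e (nat_lit 409646) (nat_lit 18) .nil)))) .nil))) (.nd (nat_lit 6) 
(.lf (nat_lit 14503) (.g (nat_lit 1811) (.e (nat_lit 1057) (nat_lit 81) (.e (nat_lit 1661) (nat_lit 115) (.e (nat_lit 393251) (nat_lit 18) (.e (nat_lit 164300) (nat_lit 226) (.e (nat_lit 1057) (nat_lit 81) (.e (nat_lit 1661) (nat_lit 115) (.e (nat_lit 393252) (nat_lit 18) (.e (nat_lit 164305) (nat_lit 226) .nil)))))))) (.g (nat_lit 4) .nil .nil))) 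
(.lf (nat_lit 14567) (.g (nat_lit 3262) (.e (nat_lit 1059) (nat_lit 81) (.e (nat_lit 1661) (nat_lit 115) (.e (nat_lit 393260) (nat_lit 21) (.e (nat_lit 409649) (nat_lit 18) (.e (nat_lit 303154) (nat_lit 28) .nil))))) .nil)))) (.nd (nat_lit 5) (.nd (nat_lit 6) 
(.lf (nat_lit 14487) (.g (nat_lit 2268) (.e (nat_lit 1056) (nat_lit 81) (.e (nat_lit 1659) (nat_lit 115) (.e (nat_lit 393227) (nat_lit 9) (.e (nat_lit 336151) (nat_lit 9) (.e (nat_lit 336017) (nat_lit 3) (.e (nat_lit 98333) (nat_lit 18) (.e (nat_lit 164151) (nat_lit 152) .nil))))))) (.g (nat_lit 6) .nil .nil))) 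
(.lf (nat_lit 14551) (.g (nat_lit 1907) (.e (nat_lit 1059) (nat_lit 81) (.e (nat_lit 1661) (nat_lit 115) (.e (nat_lit 393252) (nat_lit 18) (.e (nat_lit 164305) (nat_lit 226) (.e (nat_lit 1057) (nat_lit 81) .nil))))) .nil))) (.nd (nat_lit 6) 
(.lf (nat_lit 14519) (.g (nat_lit 1818) (.e (nat_lit 1057) (nat_lit 81) (.e (nat_lit 1661) (nat_lit 115) (.e (nat_lit 393260) (nat_lit 21) (.e (nat_lit 409648) (nat_lit 18) .nil)))) .nil)) 
(.lf (nat_lit 14583) (.g (nat_lit 2944) (.e (nat_lit 1060) (nat_lit 81) (.e (nat_lit 1661) (nat_lit 115) (.e (nat_lit 393260) (nat_lit 21) (.e (nat_lit 409650) (nat_lit 19) .nil)))) .nil))))) (.nd (nat_lit 4) (.nd (nat_lit 5) (.nd (nat_lit 6) 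
(.lf (nat_lit 14479) (.g (nat_lit 1924) (.e (nat_lit 1050) (nat_lit 81) (.e (nat_lit 5355) (nat_lit 298) (.e (nat_lit 1661) (nat_lit 115) (.e (nat_lit 393260) (nat_lit 21) (.e (nat_lit 409617) (nat_lit 10) .nil))))) .nil)) 
(.lf (nat_lit 14543) (.g (nat_lit 1716) (.e (nat_lit 1059) (nat_lit 81) (.e (nat_lit 1661) (nat_lit 115) (.e (nat_lit 393251) (nat_lit 18) (.e (nat_lit 164298) (nat_lit 226) .nil)))) .nil))) (.nd (nat_lit 6) 
(.lf (nat_lit 14511) (.g (nat_lit 1810) (.e (nat_lit 1057) (nat_lit 81) (.e (nat_lit 1661) (nat_lit 115) (.e (nat_lit 393252) (nat_lit 18) (.e (nat_lit 164305) (nat_lit 226) (.e (nat_lit 1061) (nat_lit 81) .nil))))) .nil)) 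
(.lf (nat_lit 14575) (.g (nat_lit 2567) (.e (nat_lit 1060) (nat_lit 81) (.e (nat_lit 1661) (nat_lit 115) (.e (nat_lit 393251) (nat_lit 18) (.e (nat_lit 164325) (nat_lit 230) (.e (nat_lit 163864) (nat_lit 1) .nil))))) .nil)))) (.nd (nat_lit 5) (.nd (nat_lit 6) 
(.lf (nat_lit 14495) (.g (nat_lit 1015) (.e (nat_lit 1056) (nat_lit 81) (.e (nat_lit 5947) (nat_lit 322) (.e (nat_lit 57347) (nat_lit 0) (.e (nat_lit 1829) (nat_lit 122) .nil)))) .nil)) 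
(.lf (nat_lit 14559) (.g (nat_lit 1685) (.e (nat_lit 1059) (nat_lit 81) (.e (nat_lit 1661) (nat_lit 115) (.e (nat_lit 393252) (nat_lit 18) (.e (nat_lit 164307) (nat_lit 226) .nil)))) .nil))) (.nd (nat_lit 6) 
(.lf (nat_lit 14527) (.g (nat_lit 1661) (.e (nat_lit 1058) (nat_lit 81) (.e (nat_lit 1661) (nat_lit 115) (.e (nat_lit 393252) (nat_lit 18) (.e (nat_lit 164297) (nat_lit 226) .nil)))) .nil)) 
(.lf (nat_lit 14591) (.g (nat_lit 1650) (.e (nat_lit 1061) (nat_lit 81) (.e (nat_lit 1661) (nat_lit 115) (.e (nat_lit 393252) (nat_lit 18) (.e (nat_lit 164307) (nat_lit 226) .nil)))) .nil)))))))))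

noncomputable def tv202 : DT := (.nd (nat_lit 0) (.nd (nat_lit 1) (.nd (nat_lit 2) (.nd (nat_lit 3) (.nd (nat_lit 4) (.nd (nat_lit 5) 
(.lf (nat_lit 14592) (.g (nat_lit 2503) (.e (nat_lit 1061) (nat_lit 81) (.e (nat_lit 1661) (nat_lit 115) (.e (nat_lit 393260) (nat_lit 21) (.e (nat_lit 409646) (nat_lit 18) .nil)))) .nil)) 
(.lf (nat_lit 14624) (.g (nat_lit 799) (.e (nat_lit 1068) (nat_lit 81) (.e (nat_lit 1661) (nat_lit 115) (.e (nat_lit 401152) (nat_lit 11) (.e (nat_lit 352313) (nat_lit 23) (.e (nat_lit 98334) (nat_lit 18) .nil))))) .nil))) (.nd (nat_lit 5) 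
(.lf (nat_lit 14608) (.g (nat_lit 1750) (.e (nat_lit 1063) (nat_lit 81) (.e (nat_lit 5947) (nat_lit 322) (.e (nat_lit 57347) (nat_lit 0) (.e (nat_lit 2031) (nat_lit 140) (.e (nat_lit 688177) (nat_lit 16) (.e (nat_lit 65583) (nat_lit 7) (.e (nat_lit 319530) (nat_lit 16) (.e (nat_lit 286748) (nat_lit 9) (.e (nat_lit 335915) (nat_lit 0) .nil))))))))) (.g (nat_lit 4) .nil .nil))) 
(.lf (nat_lit 14640) (.g (nat_lit 658) (.e (nat_lit 1072) (nat_lit 81) (.e (nat_lit 1661) (nat_lit 115) (.e (nat_lit 393251) (nat_lit 18) .nil))) .nil)))) (.nd (nat_lit 4) (.nd (nat_lit 5) 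
(.lf (nat_lit 14600) (.g (nat_lit 3127) (.e (nat_lit 1062) (nat_lit 81) (.e (nat_lit 1660) (nat_lit 115) (.e (nat_lit 393229) (nat_lit 9) (.e (nat_lit 336087) (nat_lit 9) (.e (nat_lit 336019) (nat_lit 3) (.e (nat_lit 98333) (nat_lit 18) (.e (nat_lit 164151) (nat_lit 152) .nil))))))) (.g (nat_lit 0) .nil .nil))) 
(.lf (nat_lit 14632) (.g (nat_lit 2629) (.e (nat_lit 1070) (nat_lit 81) (.e (nat_lit 1585) (nat_lit 111) (.e (nat_lit 360449) (nat_lit 0) (.e (nat_lit 7265) (nat_lit 384) (.e (nat_lit 57436) (nat_lit 17) (.e (nat_lit 376860) (nat_lit 21) (.e (nat_lit 57665) (nat_lit 152) .nil))))))) (.g (nat_lit 0) .nil .nil)))) (.nd (nat_lit 5) 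
(.lf (nat_lit 14616) (.g (nat_lit 1111) (.e (nat_lit 1068) (nat_lit 81) (.e (nat_lit 1659) (nat_lit 115) (.e (nat_lit 393227) (nat_lit 9) (.e (nat_lit 336152) (nat_lit 9) (.e (nat_lit 336017) (nat_lit 3) .nil))))) .nil)) 
(.lf (nat_lit 14648) (.g (nat_lit 2699) (.e (nat_lit 1072) (nat_lit 81) (.e (nat_lit 1661) (nat_lit 115) (.e (nat_lit 393252) (nat_lit 18) (.e (nat_lit 164305) (nat_lit 226) (.e (nat_lit 1072) (nat_lit 81) (.e (nat_lit 1661) (nat_lit 115) (.e (nat_lit 393252) (nat_lit 18) (.e (nat_lit 164307) (nat_lit 226) .nil)))))))) (.g (nat_lit 6) .nil .nil)))))) 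
(.nd (nat_lit 3) (.nd (nat_lit 4) (.nd (nat_lit 5) 
(.lf (nat_lit 14596) (.g (nat_lit 3224) (.e (nat_lit 1061) (nat_lit 81) (.e (nat_lit 1661) (nat_lit 115) (.e (nat_lit 393260) (nat_lit 21) (.e (nat_lit 409649) (nat_lit 18) (.e (nat_lit 303151) (nat_lit 27) .nil))))) .nil)) 
(.lf (nat_lit 14628) (.g (nat_lit 1435) (.e (nat_lit 1068) (nat_lit 81) (.e (nat_lit 1661) (nat_lit 115) (.e (nat_lit 393268) (nat_lit 23) (.e (nat_lit 426428) (nat_lit 17) .nil)))) .nil))) (.nd (nat_lit 5) 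
(.lf (nat_lit 14612) (.g (nat_lit 1543) (.e (nat_lit 1068) (nat_lit 81) (.e (nat_lit 1638) (nat_lit 114) (.e (nat_lit 385066) (nat_lit 26) (.e (nat_lit 532533) (nat_lit 9) (.e (nat_lit 336211) (nat_lit 13) .nil))))) .nil)) 
(.lf (nat_lit 14644) (.g (nat_lit 1706) (.e (nat_lit 1072) (nat_lit 81) (.e (nat_lit 1661) (nat_lit 115) (.e (nat_lit 393252) (nat_lit 18) (.e (nat_lit 164297) (nat_lit 226) (.e (nat_lit 1068) (nat_lit 81) .nil))))) .nil)))) (.nd (nat_lit 4) (.nd (nat_lit 5) 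
(.lf (nat_lit 14604) (.g (nat_lit 624) (.e (nat_lit 1062) (nat_lit 81) (.e (nat_lit 1661) (nat_lit 115) (.e (nat_lit 401152) (nat_lit 12) .nil))) .nil)) 
(.lf (nat_lit 14636) (.g (nat_lit 1463) (.e (nat_lit 1070) (nat_lit 81) (.e (nat_lit 1656) (nat_lit 115) (.e (nat_lit 393234) (nat_lit 17) (.e (nat_lit 7581) (nat_lit 405) .nil)))) .nil))) (.nd (nat_lit 5) 
(.lf (nat_lit 14620) (.g (nat_lit 1653) (.e (nat_lit 1068) (nat_lit 81) (.e (nat_lit 1661) (nat_lit 115) (.e (nat_lit 393225) (nat_lit 9) (.e (nat_lit 336194) (nat_lit 12) .nil)))) .nil)) 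
(.lf (nat_lit 14652) (.g (nat_lit 2124) (.e (nat_lit 1072) (nat_lit 81) (.e (nat_lit 1661) (nat_lit 115) (.e (nat_lit 393260) (nat_lit 21) (.e (nat_lit 409649) (nat_lit 18) .nil)))) .nil)))))) (.nd (nat_lit 2) (.nd (nat_lit 3) (.nd (nat_lit 4) (.nd (nat_lit 5) 
(.lf (nat_lit 14594) (.g (nat_lit 3038) (.e (nat_lit 1061) (nat_lit 81) (.e (nat_lit 1661) (nat_lit 115) (.e (nat_lit 393260) (nat_lit 21) (.e (nat_lit 409648) (nat_lit 18) (.e (nat_lit 303154) (nat_lit 28) .nil))))) .nil)) 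
(.lf (nat_lit 14626) (.g (nat_lit 547) (.e (nat_lit 1068) (nat_lit 81) (.e (nat_lit 1661) (nat_lit 115) (.e (nat_lit 401152) (nat_lit 14) .nil))) .nil))) (.nd (nat_lit 5) 
(.lf (nat_lit 14610) (.g (nat_lit 1367) (.e (nat_lit 1065) (nat_lit 81) (.e (nat_lit 1784) (nat_lit 119) (.e (nat_lit 516176) (nat_lit 14) (.e (nat_lit 466975) (nat_lit 22) (.e (nat_lit 196677) (nat_lit 16) (.e (nat_lit 123080) (nat_lit 177) (.e (nat_lit 57883) (nat_lit 270) .nil))))))) (.g (nat_lit 4) .nil .nil))) 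
(.lf (nat_lit 14642) (.g (nat_lit 1702) (.e (nat_lit 1072) (nat_lit 81) (.e (nat_lit 1661) (nat_lit 115) (.e (nat_lit 393251) (nat_lit 18) (.e (nat_lit 164300) (nat_lit 226) .nil)))) .nil)))) (.nd (nat_lit 4) (.nd (nat_lit 5) 
(.lf (nat_lit 14602) (.g (nat_lit 1775) (.e (nat_lit 1062) (nat_lit 81) (.e (nat_lit 1661) (nat_lit 115) (.e (nat_lit 393225) (nat_lit 9) (.e (nat_lit 336184) (nat_lit 11) .nil)))) .nil)) 
(.lf (nat_lit 14634) (.g (nat_lit 2245) (.e (nat_lit 1070) (nat_lit 81) (.e (nat_lit 1633) (nat_lit 114) (.e (nat_lit 385068) (nat_lit 26) (.e (nat_lit 532550) (nat_lit 12) .nil)))) .nil))) (.nd (nat_lit 5) 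
(.lf (nat_lit 14618) (.g (nat_lit 2063) (.e (nat_lit 1068) (nat_lit 81) (.e (nat_lit 1661) (nat_lit 115) (.e (nat_lit 393225) (nat_lit 9) (.e (nat_lit 336087) (nat_lit 9) (.e (nat_lit 336019) (nat_lit 3) .nil))))) .nil)) 
(.lf (nat_lit 14650) (.g (nat_lit 1642) (.e (nat_lit 1072) (nat_lit 81) (.e (nat_lit 1661) (nat_lit 115) (.e (nat_lit 393252) (nat_lit 18) (.e (nat_lit 164307) (nat_lit 226) .nil)))) .nil))))) (.nd (nat_lit 3) (.nd (nat_lit 4) (.nd (nat_lit 5) 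
(.lf (nat_lit 14598) (.g (nat_lit 2146) (.e (nat_lit 1062) (nat_lit 81) (.e (nat_lit 1659) (nat_lit 115) (.e (nat_lit 393229) (nat_lit 9) (.e (nat_lit 336184) (nat_lit 11) (.e (nat_lit 368676) (nat_lit 21) (.e (nat_lit 516115) (nat_lit 1) (.e (nat_lit 164151) (nat_lit 152) .nil))))))) (.g (nat_lit 5) .nil .nil))) 
(.lf (nat_lit 14630) (.g (nat_lit 2781) (.e (nat_lit 1070) (nat_lit 81) (.e (nat_lit 1435) (nat_lit 108) (.e (nat_lit 336060) (nat_lit 7) (.e (nat_lit 319534) (nat_lit 16) (.e (nat_lit 286756) (nat_lit 10) (.e (nat_lit 344160) (nat_lit 37) (.e (nat_lit 647195) (nat_lit 9) (.e (nat_lit 1181) (nat_lit 87) (.e (nat_lit 57665) (nat_lit 152) .nil))))))))) (.g (nat_lit 5) .nil .nil)))) (.nd (nat_lit 5) 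
(.lf (nat_lit 14614) (.g (nat_lit 1942) (.e (nat_lit 1068) (nat_lit 81) (.e (nat_lit 1638) (nat_lit 114) (.e (nat_lit 385068) (nat_lit 26) (.e (nat_lit 532560) (nat_lit 14) (.e (nat_lit 376842) (nat_lit 11) .nil))))) .nil)) 
(.lf (nat_lit 14646) (.g (nat_lit 1920) (.e (nat_lit 1072) (nat_lit 81) (.e (nat_lit 1661) (nat_lit 115) (.e (nat_lit 393252) (nat_lit 18) (.e (nat_lit 164305) (nat_lit 226) (.e (nat_lit 1058) (nat_lit 81) (.e (nat_lit 1661) (nat_lit 115) (.e (nat_lit 393252) (nat_lit 18) (.e (nat_lit 164306) (nat_lit 226) .nil)))))))) (.g (nat_lit 4) .nil .nil))))) (.nd (nat_lit 4) (.nd (nat_lit 5) 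
(.lf (nat_lit 14606) (.g (nat_lit 1016) (.e (nat_lit 1062) (nat_lit 81) (.e (nat_lit 5947) (nat_lit 322) (.e (nat_lit 57347) (nat_lit 0) (.e (nat_lit 1829) (nat_lit 122) .nil)))) .nil)) 
(.lf (nat_lit 14638) (.g (nat_lit 2065) (.e (nat_lit 1070) (nat_lit 81) (.e (nat_lit 1656) (nat_lit 115) (.e (nat_lit 393251) (nat_lit 18) (.e (nat_lit 164300) (nat_lit 226) .nil)))) .nil))) (.nd (nat_lit 5) 
(.lf (nat_lit 14622) (.g (nat_lit 1546) (.e (nat_lit 1068) (nat_lit 81) (.e (nat_lit 1661) (nat_lit 115) (.e (nat_lit 393225) (nat_lit 9) (.e (nat_lit 336204) (nat_lit 12) .nil)))) .nil)) 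
(.lf (nat_lit 14654) (.g (nat_lit 1993) (.e (nat_lit 1073) (nat_lit 81) (.e (nat_lit 1660) (nat_lit 115) (.e (nat_lit 393229) (nat_lit 9) (.e (nat_lit 336184) (nat_lit 11) (.e (nat_lit 368676) (nat_lit 21) (.e (nat_lit 516115) (nat_lit 1) (.e (nat_lit 164151) (nat_lit 152) .nil))))))) (.g (nat_lit 6) .nil .nil)))))))) 
(.nd (nat_lit 1) (.nd (nat_lit 2) (.nd (nat_lit 3) (.nd (nat_lit 4) (.nd (nat_lit 5) 
(.lf (nat_lit 14593) (.g (nat_lit 2819) (.e (nat_lit 1061) (nat_lit 81) (.e (nat_lit 1661) (nat_lit 115) (.e (nat_lit 393260) (nat_lit 21) (.e (nat_lit 409648) (nat_lit 18) (.e (nat_lit 303151) (nat_lit 27) .nil))))) .nil)) 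
(.lf (nat_lit 14625) (.g (nat_lit 1755) (.e (nat_lit 1068) (nat_lit 81) (.e (nat_lit 1661) (nat_lit 115) (.e (nat_lit 401152) (nat_lit 12) (.e (nat_lit 360466) (nat_lit 3) (.e (nat_lit 516117) (nat_lit 1) (.e (nat_lit 164158) (nat_lit 152) .nil)))))) (.g (nat_lit 5) .nil .nil)))) (.nd (nat_lit 5) 
(.lf (nat_lit 14609) (.g (nat_lit 1175) (.e (nat_lit 1065) (nat_lit 81) (.e (nat_lit 1784) (nat_lit 119) (.e (nat_lit 516174) (nat_lit 14) (.e (nat_lit 466975) (nat_lit 22) (.e (nat_lit 196677) (nat_lit 16) (.e (nat_lit 123080) (nat_lit 177) (.e (nat_lit 57883) (nat_lit 270) .nil))))))) (.g (nat_lit 4) .nil .nil))) 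
(.lf (nat_lit 14641) (.g (nat_lit 1716) (.e (nat_lit 1072) (nat_lit 81) (.e (nat_lit 1661) (nat_lit 115) (.e (nat_lit 393251) (nat_lit 18) (.e (nat_lit 164298) (nat_lit 226) .nil)))) .nil)))) (.nd (nat_lit 4) (.nd (nat_lit 5) 
(.lf (nat_lit 14601) (.g (nat_lit 2148) (.e (nat_lit 1062) (nat_lit 81) (.e (nat_lit 1661) (nat_lit 115) (.e (nat_lit 393225) (nat_lit 9) (.e (nat_lit 336087) (nat_lit 9) (.e (nat_lit 336019) (nat_lit 3) .nil))))) .nil)) 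
(.lf (nat_lit 14633) (.g (nat_lit 698) (.e (nat_lit 1070) (nat_lit 81) (.e (nat_lit 1633) (nat_lit 114) (.e (nat_lit 385068) (nat_lit 26) .nil))) .nil))) (.nd (nat_lit 5) 
(.lf (nat_lit 14617) (.g (nat_lit 2471) (.e (nat_lit 1068) (nat_lit 81) (.e (nat_lit 1661) (nat_lit 115) (.e (nat_lit 393225) (nat_lit 9) (.e (nat_lit 336076) (nat_lit 9) (.e (nat_lit 336324) (nat_lit 18) .nil))))) .nil)) 
(.lf (nat_lit 14649) (.g (nat_lit 1750) (.e (nat_lit 1072) (nat_lit 81) (.e (nat_lit 1661) (nat_lit 115) (.e (nat_lit 393252) (nat_lit 18) (.e (nat_lit 164306) (nat_lit 226) (.e (nat_lit 1072) (nat_lit 81) (.e (nat_lit 1661) (nat_lit 115) (.e (nat_lit 393252) (nat_lit 18) (.e (nat_lit 164306) (nat_lit 226) .nil)))))))) (.g (nat_lit 4) .nil .nil)))))) 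
(.nd (nat_lit 3) (.nd (nat_lit 4) (.nd (nat_lit 5) 
(.lf (nat_lit 14597) (.g (nat_lit 2861) (.e (nat_lit 1062) (nat_lit 81) (.e (nat_lit 1659) (nat_lit 115) (.e (nat_lit 393229) (nat_lit 9) (.e (nat_lit 336087) (nat_lit 9) (.e (nat_lit 336019) (nat_lit 3) (.e (nat_lit 98333) (nat_lit 18) (.e (nat_lit 164151) (nat_lit 152) .nil))))))) (.g (nat_lit 5) .nil .nil))) 
(.lf (nat_lit 14629) (.g (nat_lit 1081) (.e (nat_lit 1068) (nat_lit 81) (.e (nat_lit 5946) (nat_lit 322) (.e (nat_lit 57424) (nat_lit 14) (.e (nat_lit 352318) (nat_lit 24) .nil)))) .nil))) (.nd (nat_lit 5) 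
(.lf (nat_lit 14613) (.g (nat_lit 1861) (.e (nat_lit 1068) (nat_lit 81) (.e (nat_lit 1638) (nat_lit 114) (.e (nat_lit 385068) (nat_lit 26) (.e (nat_lit 532533) (nat_lit 9) .nil)))) .nil)) 
(.lf (nat_lit 14645) (.g (nat_lit 1459) (.e (nat_lit 1072) (nat_lit 81) (.e (nat_lit 1661) (nat_lit 115) (.e (nat_lit 393252) (nat_lit 18) (.e (nat_lit 164305) (nat_lit 226) .nil)))) .nil)))) (.nd (nat_lit 4) (.nd (nat_lit 5) 
(.lf (nat_lit 14605) (.g (nat_lit 1747) (.e (nat_lit 1062) (nat_lit 81) (.e (nat_lit 5816) (nat_lit 320) (.e (nat_lit 1201) (nat_lit 88) (.e (nat_lit 65630) (nat_lit 14) (.e (nat_lit 401457) (nat_lit 13) .nil))))) .nil)) 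
(.lf (nat_lit 14637) (.g (nat_lit 2067) (.e (nat_lit 1070) (nat_lit 81) (.e (nat_lit 1656) (nat_lit 115) (.e (nat_lit 393251) (nat_lit 18) (.e (nat_lit 164298) (nat_lit 226) .nil)))) .nil))) (.nd (nat_lit 5) 
(.lf (nat_lit 14621) (.g (nat_lit 1520) (.e (nat_lit 1068) (nat_lit 81) (.e (nat_lit 1661) (nat_lit 115) (.e (nat_lit 393225) (nat_lit 9) (.e (nat_lit 336196) (nat_lit 12) .nil)))) .nil)) 
(.lf (nat_lit 14653) (.g (nat_lit 1999) (.e (nat_lit 1073) (nat_lit 81) (.e (nat_lit 1659) (nat_lit 115) (.e (nat_lit 393229) (nat_lit 9) (.e (nat_lit 336184) (nat_lit 11) (.e (nat_lit 368676) (nat_lit 21) (.e (nat_lit 516115) (nat_lit 1) (.e (nat_lit 164151) (nat_lit 152) .nil))))))) (.g (nat_lit 4) .nil .nil))))))) (.nd (nat_lit 2) (.nd (nat_lit 3) (.nd (nat_lit 4) (.nd (nat_lit 5) 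
(.lf (nat_lit 14595) (.g (nat_lit 2124) (.e (nat_lit 1061) (nat_lit 81) (.e (nat_lit 1661) (nat_lit 115) (.e (nat_lit 393260) (nat_lit 21) (.e (nat_lit 409649) (nat_lit 18) .nil)))) .nil)) 
(.lf (nat_lit 14627) (.g (nat_lit 3205) (.e (nat_lit 1068) (nat_lit 81) (.e (nat_lit 1661) (nat_lit 115) (.e (nat_lit 393260) (nat_lit 21) (.e (nat_lit 409616) (nat_lit 10) (.e (nat_lit 632) (nat_lit 50) .nil))))) .nil))) (.nd (nat_lit 5) 
(.lf (nat_lit 14611) (.g (nat_lit 3614) (.e (nat_lit 1068) (nat_lit 81) (.e (nat_lit 1458) (nat_lit 108) (.e (nat_lit 336013) (nat_lit 2) (.e (nat_lit 90170) (nat_lit 13) (.e (nat_lit 172113) (nat_lit 10) (.e (nat_lit 434242) (nat_lit 28) (.e (nat_lit 573474) (nat_lit 12) (.e (nat_lit 57347) (nat_lit 0) (.e (nat_lit 7119) (nat_lit 382) .nil))))))))) (.g (nat_lit 5) .nil .nil))) 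
(.lf (nat_lit 14643) (.g (nat_lit 1650) (.e (nat_lit 1072) (nat_lit 81) (.e (nat_lit 1661) (nat_lit 115) (.e (nat_lit 393252) (nat_lit 18) (.e (nat_lit 164297) (nat_lit 226) .nil)))) .nil)))) (.nd (nat_lit 4) (.nd (nat_lit 5) 
(.lf (nat_lit 14603) (.g (nat_lit 1568) (.e (nat_lit 1062) (nat_lit 81) (.e (nat_lit 1661) (nat_lit 115) (.e (nat_lit 393229) (nat_lit 9) (.e (nat_lit 336087) (nat_lit 9) .nil)))) .nil)) 
(.lf (nat_lit 14635) (.g (nat_lit 2247) (.e (nat_lit 1070) (nat_lit 81) (.e (nat_lit 1633) (nat_lit 114) (.e (nat_lit 385068) (nat_lit 26) (.e (nat_lit 532551) (nat_lit 12) .nil)))) .nil))) (.nd (nat_lit 5) 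
(.lf (nat_lit 14619) (.g (nat_lit 1545) (.e (nat_lit 1068) (nat_lit 81) (.e (nat_lit 1661) (nat_lit 115) (.e (nat_lit 393225) (nat_lit 9) (.e (nat_lit 336088) (nat_lit 9) .nil)))) .nil)) 
(.lf (nat_lit 14651) (.g (nat_lit 1863) (.e (nat_lit 1072) (nat_lit 81) (.e (nat_lit 1661) (nat_lit 115) (.e (nat_lit 393252) (nat_lit 18) (.e (nat_lit 164307) (nat_lit 226) (.e (nat_lit 1101) (nat_lit 81) (.e (nat_lit 1661) (nat_lit 115) (.e (nat_lit 393252) (nat_lit 18) (.e (nat_lit 164306) (nat_lit 226) .nil)))))))) (.g (nat_lit 4) .nil .nil)))))) 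
(.nd (nat_lit 3) (.nd (nat_lit 4) (.nd (nat_lit 5) 
(.lf (nat_lit 14599) (.g (nat_lit 518) (.e (nat_lit 1062) (nat_lit 81) (.e (nat_lit 1659) (nat_lit 115) (.e (nat_lit 401152) (nat_lit 12) .nil))) .nil)) 
(.lf (nat_lit 14631) (.g (nat_lit 2763) (.e (nat_lit 1070) (nat_lit 81) (.e (nat_lit 1435) (nat_lit 108) (.e (nat_lit 336060) (nat_lit 7) (.e (nat_lit 319534) (nat_lit 16) (.e (nat_lit 286756) (nat_lit 10) (.e (nat_lit 344160) (nat_lit 37) (.e (nat_lit 647195) (nat_lit 9) (.e (nat_lit 1182) (nat_lit 87) (.e (nat_lit 57661) (nat_lit 152) .nil))))))))) (.g (nat_lit 5) .nil .nil)))) (.nd (nat_lit 5) 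
(.lf (nat_lit 14615) (.g (nat_lit 1067) (.e (nat_lit 1068) (nat_lit 81) (.e (nat_lit 1659) (nat_lit 115) (.e (nat_lit 393227) (nat_lit 9) (.e (nat_lit 336151) (nat_lit 9) (.e (nat_lit 336017) (nat_lit 3) .nil))))) .nil)) 
(.lf (nat_lit 14647) (.g (nat_lit 1894) (.e (nat_lit 1072) (nat_lit 81) (.e (nat_lit 1661) (nat_lit 115) (.e (nat_lit 393252) (nat_lit 18) (.e (nat_lit 164305) (nat_lit 226) (.e (nat_lit 1061) (nat_lit 81) .nil))))) .nil)))) (.nd (nat_lit 4) (.nd (nat_lit 5) 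
(.lf (nat_lit 14607) (.g (nat_lit 1251) (.e (nat_lit 1063) (nat_lit 81) (.e (nat_lit 1660) (nat_lit 115) (.e (nat_lit 393229) (nat_lit 9) (.e (nat_lit 336088) (nat_lit 9) (.e (nat_lit 336019) (nat_lit 3) .nil))))) .nil)) 
(.lf (nat_lit 14639) (.g (nat_lit 2047) (.e (nat_lit 1070) (nat_lit 81) (.e (nat_lit 5293) (nat_lit 298) (.e (nat_lit 1656) (nat_lit 115) (.e (nat_lit 393301) (nat_lit 27) (.e (nat_lit 491563) (nat_lit 12) .nil))))) .nil))) (.nd (nat_lit 5) 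
(.lf (nat_lit 14623) (.g (nat_lit 2400) (.e (nat_lit 1068) (nat_lit 81) (.e (nat_lit 1661) (nat_lit 115) (.e (nat_lit 393225) (nat_lit 9) (.e (nat_lit 336204) (nat_lit 12) (.e (nat_lit 385066) (nat_lit 26) .nil))))) .nil)) 
(.lf (nat_lit 14655) (.g (nat_lit 2127) (.e (nat_lit 1073) (nat_lit 81) (.e (nat_lit 1660) (nat_lit 115) (.e (nat_lit 393229) (nat_lit 9) (.e (nat_lit 336186) (nat_lit 11) (.e (nat_lit 368676) (nat_lit 21) (.e (nat_lit 516115) (nat_lit 1) (.e (nat_lit 164151) (nat_lit 152) .nil))))))) (.g (nat_lit 6) .nil .nil)))))))))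

noncomputable def tv203 : DT := (.nd (nat_lit 0) (.nd (nat_lit 1) (.nd (nat_lit 2) (.nd (nat_lit 3) (.nd (nat_lit 4) (.nd (nat_lit 5) 
(.lf (nat_lit 14656) (.g (nat_lit 1673) (.e (nat_lit 1073) (nat_lit 81) (.e (nat_lit 1661) (nat_lit 115) (.e (nat_lit 393225) (nat_lit 9) (.e (nat_lit 336087) (nat_lit 9) .nil)))) .nil)) 
(.lf (nat_lit 14688) (.g (nat_lit 2528) (.e (nat_lit 1074) (nat_lit 81) (.e (nat_lit 1633) (nat_lit 114) (.e (nat_lit 385094) (nat_lit 49) (.e (nat_lit 778317) (nat_lit 3) (.e (nat_lit 57477) (nat_lit 28) (.e (nat_lit 557108) (nat_lit 15) (.e (nat_lit 188446) (nat_lit 21) (.e (nat_lit 164137) (nat_lit 140) .nil)))))))) (.g (nat_lit 4) .nil .nil)))) (.nd (nat_lit 5) 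
(.lf (nat_lit 14672) (.g (nat_lit 2163) (.e (nat_lit 1074) (nat_lit 81) (.e (nat_lit 1633) (nat_lit 114) (.e (nat_lit 385068) (nat_lit 26) (.e (nat_lit 532534) (nat_lit 9) (.e (nat_lit 336211) (nat_lit 13) (.e (nat_lit 393251) (nat_lit 18) (.e (nat_lit 164156) (nat_lit 152) .nil))))))) (.g (nat_lit 4) .nil .nil))) 
(.lf (nat_lit 14704) (.g (nat_lit 4638) (.e (nat_lit 1074) (nat_lit 81) (.e (nat_lit 1796) (nat_lit 119) (.e (nat_lit 516098) (nat_lit 0) (.e (nat_lit 7065) (nat_lit 377) (.e (nat_lit 1349) (nat_lit 102) (.e (nat_lit 286735) (nat_lit 3) (.e (nat_lit 98367) (nat_lit 27) (.e (nat_lit 434178) (nat_lit 0) .nil)))))))) (.g (nat_lit 7) .nil .nil))))) (.nd (nat_lit 4) (.nd (nat_lit 5) 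
(.lf (nat_lit 14664) (.g (nat_lit 5578) (.e (nat_lit 1074) (nat_lit 81) (.e (nat_lit 1448) (nat_lit 108) (.e (nat_lit 336013) (nat_lit 2) (.e (nat_lit 90170) (nat_lit 13) (.e (nat_lit 172106) (nat_lit 10) (.e (nat_lit 434231) (nat_lit 23) (.e (nat_lit 532500) (nat_lit 1) (.e (nat_lit 57765) (nat_lit 221) .nil)))))))) (.g (nat_lit 7) .nil .nil))) 
(.lf (nat_lit 14696) (.g (nat_lit 3430) (.e (nat_lit 1074) (nat_lit 81) (.e (nat_lit 1712) (nat_lit 117) (.e (nat_lit 499919) (nat_lit 9) (.e (nat_lit 172124) (nat_lit 14) (.e (nat_lit 491540) (nat_lit 3) (.e (nat_lit 98367) (nat_lit 27) (.e (nat_lit 434177) (nat_lit 0) .nil))))))) (.g (nat_lit 0) .nil .nil)))) (.nd (nat_lit 5) 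
(.lf (nat_lit 14680) (.g (nat_lit 2163) (.e (nat_lit 1074) (nat_lit 81) (.e (nat_lit 1633) (nat_lit 114) (.e (nat_lit 385068) (nat_lit 26) (.e (nat_lit 532558) (nat_lit 14) (.e (nat_lit 376842) (nat_lit 11) .nil))))) .nil)) 
(.lf (nat_lit 14712) (.g (nat_lit 264) (.e (nat_lit 1074) (nat_lit 81) (.e (nat_lit 1796) (nat_lit 119) (.e (nat_lit 516142) (nat_lit 8) .nil))) .nil))))) (.nd (nat_lit 3) (.nd (nat_lit 4) (.nd (nat_lit 5) 
(.lf (nat_lit 14660) (.g (nat_lit 1807) (.e (nat_lit 1074) (nat_lit 81) (.e (nat_lit 1250) (nat_lit 92) (.e (nat_lit 98372) (nat_lit 29) (.e (nat_lit 450579) (nat_lit 5) (.e (nat_lit 532553) (nat_lit 13) .nil))))) .nil)) 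
(.lf (nat_lit 14692) (.g (nat_lit 1387) (.e (nat_lit 1074) (nat_lit 81) (.e (nat_lit 1633) (nat_lit 114) (.e (nat_lit 385094) (nat_lit 49) (.e (nat_lit 778324) (nat_lit 5) .nil)))) .nil))) (.nd (nat_lit 5) 
(.lf (nat_lit 14676) (.g (nat_lit 2845) (.e (nat_lit 1074) (nat_lit 81) (.e (nat_lit 1633) (nat_lit 114) (.e (nat_lit 385068) (nat_lit 26) (.e (nat_lit 532553) (nat_lit 13) (.e (nat_lit 368676) (nat_lit 21) (.e (nat_lit 516131) (nat_lit 3) (.e (nat_lit 221208) (nat_lit 21) (.e (nat_lit 164134) (nat_lit 134) .nil)))))))) (.g (nat_lit 4) .nil .nil))) 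
(.lf (nat_lit 14708) (.g (nat_lit 1959) (.e (nat_lit 1074) (nat_lit 81) (.e (nat_lit 1796) (nat_lit 119) (.e (nat_lit 516115) (nat_lit 1) (.e (nat_lit 164399) (nat_lit 256) (.e (nat_lit 57375) (nat_lit 2) (.e (nat_lit 90174) (nat_lit 14) (.e (nat_lit 180243) (nat_lit 5) (.e (nat_lit 532508) (nat_lit 2) (.e (nat_lit 106517) (nat_lit 9) .nil))))))))) (.g (nat_lit 4) .nil .nil))))) 
(.nd (nat_lit 4) (.nd (nat_lit 5) 
(.lf (nat_lit 14668) (.g (nat_lit 1539) (.e (nat_lit 1074) (nat_lit 81) (.e (nat_lit 1633) (nat_lit 114) (.e (nat_lit 385068) (nat_lit 26) (.e (nat_lit 532533) (nat_lit 9) (.e (nat_lit 336211) (nat_lit 13) .nil))))) .nil)) 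
(.lf (nat_lit 14700) (.g (nat_lit 4163) (.e (nat_lit 1074) (nat_lit 81) (.e (nat_lit 1796) (nat_lit 119) (.e (nat_lit 516098) (nat_lit 0) (.e (nat_lit 7065) (nat_lit 377) (.e (nat_lit 1348) (nat_lit 102) (.e (nat_lit 286733) (nat_lit 2) (.e (nat_lit 90172) (nat_lit 14) (.e (nat_lit 180276) (nat_lit 32) .nil)))))))) (.g (nat_lit 7) .nil .nil)))) (.nd (nat_lit 5) 
(.lf (nat_lit 14684) (.g (nat_lit 3790) (.e (nat_lit 1074) (nat_lit 81) (.e (nat_lit 1633) (nat_lit 114) (.e (nat_lit 385074) (nat_lit 31) (.e (nat_lit 573484) (nat_lit 13) (.e (nat_lit 65610) (nat_lit 10) (.e (nat_lit 344117) (nat_lit 21) (.e (nat_lit 516116) (nat_lit 1) (.e (nat_lit 164413) (nat_lit 260) .nil)))))))) (.g (nat_lit 0) .nil .nil))) 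
(.lf (nat_lit 14716) (.g (nat_lit 3820) (.e (nat_lit 1074) (nat_lit 81) (.e (nat_lit 1796) (nat_lit 119) (.e (nat_lit 516142) (nat_lit 8) (.e (nat_lit 417810) (nat_lit 6) (.e (nat_lit 286733) (nat_lit 2) (.e (nat_lit 90173) (nat_lit 14) (.e (nat_lit 180275) (nat_lit 32) .nil))))))) (.g (nat_lit 6) .nil .nil))))))) (.nd (nat_lit 2) (.nd (nat_lit 3) (.nd (nat_lit 4) (.nd (nat_lit 5) 
(.lf (nat_lit 14658) (.g (nat_lit 2049) (.e (nat_lit 1074) (nat_lit 81) (.e (nat_lit 1250) (nat_lit 92) (.e (nat_lit 98356) (nat_lit 26) (.e (nat_lit 426438) (nat_lit 18) (.e (nat_lit 98358) (nat_lit 26) .nil))))) .nil)) 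
(.lf (nat_lit 14690) (.g (nat_lit 2379) (.e (nat_lit 1074) (nat_lit 81) (.e (nat_lit 1633) (nat_lit 114) (.e (nat_lit 385094) (nat_lit 49) (.e (nat_lit 778323) (nat_lit 5) (.e (nat_lit 81664) (nat_lit 37) .nil))))) .nil))) (.nd (nat_lit 5) 
(.lf (nat_lit 14674) (.g (nat_lit 2701) (.e (nat_lit 1074) (nat_lit 81) (.e (nat_lit 1633) (nat_lit 114) (.e (nat_lit 385068) (nat_lit 26) (.e (nat_lit 532553) (nat_lit 13) (.e (nat_lit 368676) (nat_lit 21) .nil))))) .nil)) 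
(.lf (nat_lit 14706) (.g (nat_lit 2109) (.e (nat_lit 1074) (nat_lit 81) (.e (nat_lit 1796) (nat_lit 119) (.e (nat_lit 516115) (nat_lit 1) (.e (nat_lit 164398) (nat_lit 256) (.e (nat_lit 57375) (nat_lit 2) .nil))))) .nil)))) (.nd (nat_lit 4) (.nd (nat_lit 5) 
(.lf (nat_lit 14666) (.g (nat_lit 3057) (.e (nat_lit 1074) (nat_lit 81) (.e (nat_lit 1633) (nat_lit 114) (.e (nat_lit 385068) (nat_lit 26) (.e (nat_lit 532530) (nat_lit 9) (.e (nat_lit 336019) (nat_lit 3) .nil))))) .nil)) 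
(.lf (nat_lit 14698) (.g (nat_lit 3690) (.e (nat_lit 1074) (nat_lit 81) (.e (nat_lit 1712) (nat_lit 117) (.e (nat_lit 499919) (nat_lit 9) (.e (nat_lit 172126) (nat_lit 14) (.e (nat_lit 491540) (nat_lit 3) (.e (nat_lit 98367) (nat_lit 27) (.e (nat_lit 434177) (nat_lit 0) .nil))))))) (.g (nat_lit 0) .nil .nil)))) (.nd (nat_lit 5) 
(.lf (nat_lit 14682) (.g (nat_lit 4095) (.e (nat_lit 1074) (nat_lit 81) (.e (nat_lit 1633) (nat_lit 114) (.e (nat_lit 385074) (nat_lit 31) (.e (nat_lit 573484) (nat_lit 13) (.e (nat_lit 65610) (nat_lit 10) (.e (nat_lit 344117) (nat_lit 21) (.e (nat_lit 516115) (nat_lit 1) (.e (nat_lit 164413) (nat_lit 260) .nil)))))))) (.g (nat_lit 8) .nil .nil))) 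
(.lf (nat_lit 14714) (.g (nat_lit 3883) (.e (nat_lit 1074) (nat_lit 81) (.e (nat_lit 1796) (nat_lit 119) (.e (nat_lit 516142) (nat_lit 8) (.e (nat_lit 417809) (nat_lit 6) (.e (nat_lit 286733) (nat_lit 2) (.e (nat_lit 90174) (nat_lit 14) (.e (nat_lit 180275) (nat_lit 32) .nil))))))) (.g (nat_lit 7) .nil .nil)))))) (.nd (nat_lit 3) (.nd (nat_lit 4) (.nd (nat_lit 5) 
(.lf (nat_lit 14662) (.g (nat_lit 1956) (.e (nat_lit 1074) (nat_lit 81) (.e (nat_lit 1250) (nat_lit 92) (.e (nat_lit 98372) (nat_lit 29) (.e (nat_lit 450579) (nat_lit 5) (.e (nat_lit 532555) (nat_lit 13) (.e (nat_lit 368662) (nat_lit 18) (.e (nat_lit 4776) (nat_lit 281) .nil))))))) (.g (nat_lit 4) .nil .nil))) 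
(.lf (nat_lit 14694) (.g (nat_lit 1631) (.e (nat_lit 1074) (nat_lit 81) (.e (nat_lit 1656) (nat_lit 115) (.e (nat_lit 401152) (nat_lit 12) (.e (nat_lit 360466) (nat_lit 3) (.e (nat_lit 516117) (nat_lit 1) (.e (nat_lit 164166) (nat_lit 152) .nil)))))) (.g (nat_lit 5) .nil .nil)))) (.nd (nat_lit 5) 
(.lf (nat_lit 14678) (.g (nat_lit 2954) (.e (nat_lit 1074) (nat_lit 81) (.e (nat_lit 1633) (nat_lit 114) (.e (nat_lit 385068) (nat_lit 26) (.e (nat_lit 532555) (nat_lit 13) (.e (nat_lit 368676) (nat_lit 21) (.e (nat_lit 516131) (nat_lit 3) (.e (nat_lit 221207) (nat_lit 21) (.e (nat_lit 164131) (nat_lit 134) .nil)))))))) (.g (nat_lit 5) .nil .nil))) 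
(.lf (nat_lit 14710) (.g (nat_lit 2348) (.e (nat_lit 1074) (nat_lit 81) (.e (nat_lit 1796) (nat_lit 119) (.e (nat_lit 516139) (nat_lit 7) (.e (nat_lit 409603) (nat_lit 0) (.e (nat_lit 5293) (nat_lit 298) (.e (nat_lit 1232) (nat_lit 91) (.e (nat_lit 90172) (nat_lit 14) (.e (nat_lit 180276) (nat_lit 32) .nil)))))))) (.g (nat_lit 5) .nil .nil))))) (.nd (nat_lit 4) (.nd (nat_lit 5) 
(.lf (nat_lit 14670) (.g (nat_lit 1644) (.e (nat_lit 1074) (nat_lit 81) (.e (nat_lit 1633) (nat_lit 114) (.e (nat_lit 385068) (nat_lit 26) (.e (nat_lit 532533) (nat_lit 9) (.e (nat_lit 336211) (nat_lit 13) (.e (nat_lit 393252) (nat_lit 18) (.e (nat_lit 164164) (nat_lit 152) .nil))))))) (.g (nat_lit 4) .nil .nil))) 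
(.lf (nat_lit 14702) (.g (nat_lit 4353) (.e (nat_lit 1074) (nat_lit 81) (.e (nat_lit 1796) (nat_lit 119) (.e (nat_lit 516098) (nat_lit 0) (.e (nat_lit 7065) (nat_lit 377) (.e (nat_lit 1349) (nat_lit 102) (.e (nat_lit 286733) (nat_lit 2) (.e (nat_lit 90172) (nat_lit 14) (.e (nat_lit 180276) (nat_lit 32) .nil)))))))) (.g (nat_lit 7) .nil .nil)))) (.nd (nat_lit 5) 
(.lf (nat_lit 14686) (.g (nat_lit 900) (.e (nat_lit 1074) (nat_lit 81) (.e (nat_lit 1633) (nat_lit 114) (.e (nat_lit 385093) (nat_lit 49) .nil))) .nil)) 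
(.lf (nat_lit 14718) (.g (nat_lit 4702) (.e (nat_lit 1074) (nat_lit 81) (.e (nat_lit 1796) (nat_lit 119) (.e (nat_lit 516142) (nat_lit 8) (.e (nat_lit 417810) (nat_lit 6) (.e (nat_lit 286735) (nat_lit 3) (.e (nat_lit 98367) (nat_lit 27) (.e (nat_lit 434178) (nat_lit 0) .nil))))))) (.g (nat_lit 6) .nil .nil)))))))) 
(.nd (nat_lit 1) (.nd (nat_lit 2) (.nd (nat_lit 3) (.nd (nat_lit 4) (.nd (nat_lit 5) 
(.lf (nat_lit 14657) (.g (nat_lit 280) (.e (nat_lit 1074) (nat_lit 81) (.e (nat_lit 1250) (nat_lit 92) (.e (nat_lit 98313) (nat_lit 9) .nil))) .nil)) 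
(.lf (nat_lit 14689) (.g (nat_lit 2366) (.e (nat_lit 1074) (nat_lit 81) (.e (nat_lit 1633) (nat_lit 114) (.e (nat_lit 385094) (nat_lit 49) (.e (nat_lit 778317) (nat_lit 3) (.e (nat_lit 57480) (nat_lit 28) .nil))))) .nil))) (.nd (nat_lit 5) 
(.lf (nat_lit 14673) (.g (nat_lit 1980) (.e (nat_lit 1074) (nat_lit 81) (.e (nat_lit 1633) (nat_lit 114) (.e (nat_lit 385068) (nat_lit 26) (.e (nat_lit 532534) (nat_lit 9) (.e (nat_lit 336211) (nat_lit 13) (.e (nat_lit 393252) (nat_lit 18) (.e (nat_lit 164167) (nat_lit 152) .nil))))))) (.g (nat_lit 4) .nil .nil))) 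
(.lf (nat_lit 14705) (.g (nat_lit 2210) (.e (nat_lit 1074) (nat_lit 81) (.e (nat_lit 1796) (nat_lit 119) (.e (nat_lit 516115) (nat_lit 1) (.e (nat_lit 164398) (nat_lit 256) (.e (nat_lit 57373) (nat_lit 2) (.e (nat_lit 90174) (nat_lit 14) (.e (nat_lit 180243) (nat_lit 5) (.e (nat_lit 532508) (nat_lit 2) (.e (nat_lit 106517) (nat_lit 9) .nil))))))))) (.g (nat_lit 4) .nil .nil))))) 
(.nd (nat_lit 4) (.nd (nat_lit 5) 
(.lf (nat_lit 14665) (.g (nat_lit 4766) (.e (nat_lit 1074) (nat_lit 81) (.e (nat_lit 1463) (nat_lit 108) (.e (nat_lit 336013) (nat_lit 2) (.e (nat_lit 90170) (nat_lit 13) (.e (nat_lit 172106) (nat_lit 10) (.e (nat_lit 434231) (nat_lit 23) (.e (nat_lit 532500) (nat_lit 1) (.e (nat_lit 57765) (nat_lit 221) .nil)))))))) (.g (nat_lit 7) .nil .nil))) 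
(.lf (nat_lit 14697) (.g (nat_lit 3671) (.e (nat_lit 1074) (nat_lit 81) (.e (nat_lit 1712) (nat_lit 117) (.e (nat_lit 499919) (nat_lit 9) (.e (nat_lit 172126) (nat_lit 14) (.e (nat_lit 491537) (nat_lit 2) (.e (nat_lit 90172) (nat_lit 14) (.e (nat_lit 180276) (nat_lit 32) .nil))))))) (.g (nat_lit 6) .nil .nil)))) (.nd (nat_lit 5) 
(.lf (nat_lit 14681) (.g (nat_lit 1994) (.e (nat_lit 1074) (nat_lit 81) (.e (nat_lit 1633) (nat_lit 114) (.e (nat_lit 385068) (nat_lit 26) (.e (nat_lit 532560) (nat_lit 14) (.e (nat_lit 376842) (nat_lit 11) .nil))))) .nil)) 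
(.lf (nat_lit 14713) (.g (nat_lit 3736) (.e (nat_lit 1074) (nat_lit 81) (.e (nat_lit 1796) (nat_lit 119) (.e (nat_lit 516142) (nat_lit 8) (.e (nat_lit 417809) (nat_lit 6) (.e (nat_lit 286733) (nat_lit 2) (.e (nat_lit 90172) (nat_lit 14) (.e (nat_lit 180276) (nat_lit 32) .nil))))))) (.g (nat_lit 6) .nil .nil)))))) (.nd (nat_lit 3) (.nd (nat_lit 4) (.nd (nat_lit 5) 
(.lf (nat_lit 14661) (.g (nat_lit 1796) (.e (nat_lit 1074) (nat_lit 81) (.e (nat_lit 1250) (nat_lit 92) (.e (nat_lit 98372) (nat_lit 29) (.e (nat_lit 450579) (nat_lit 5) (.e (nat_lit 532555) (nat_lit 13) .nil))))) .nil)) 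
(.lf (nat_lit 14693) (.g (nat_lit 584) (.e (nat_lit 1074) (nat_lit 81) (.e (nat_lit 1656) (nat_lit 115) (.e (nat_lit 401152) (nat_lit 11) .nil))) .nil))) (.nd (nat_lit 5) 
(.lf (nat_lit 14677) (.g (nat_lit 2358) (.e (nat_lit 1074) (nat_lit 81) (.e (nat_lit 1633) (nat_lit 114) (.e (nat_lit 385068) (nat_lit 26) (.e (nat_lit 532555) (nat_lit 13) (.e (nat_lit 368676) (nat_lit 21) .nil))))) .nil)) 
(.lf (nat_lit 14709) (.g (nat_lit 4626) (.e (nat_lit 1074) (nat_lit 81) (.e (nat_lit 1796) (nat_lit 119) (.e (nat_lit 516119) (nat_lit 1) (.e (nat_lit 164403) (nat_lit 256) (.e (nat_lit 57373) (nat_lit 2) (.e (nat_lit 90174) (nat_lit 14) (.e (nat_lit 180243) (nat_lit 5) (.e (nat_lit 532508) (nat_lit 2) (.e (nat_lit 106526) (nat_lit 9) .nil))))))))) (.g (nat_lit 7) .nil .nil))))) 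
(.nd (nat_lit 4) (.nd (nat_lit 5) 
(.lf (nat_lit 14669) (.g (nat_lit 1613) (.e (nat_lit 1074) (nat_lit 81) (.e (nat_lit 1633) (nat_lit 114) (.e (nat_lit 385068) (nat_lit 26) (.e (nat_lit 532533) (nat_lit 9) (.e (nat_lit 336211) (nat_lit 13) (.e (nat_lit 393251) (nat_lit 18) (.e (nat_lit 164156) (nat_lit 152) .nil))))))) (.g (nat_lit 4) .nil .nil))) 
(.lf (nat_lit 14701) (.g (nat_lit 4152) (.e (nat_lit 1074) (nat_lit 81) (.e (nat_lit 1796) (nat_lit 119) (.e (nat_lit 516098) (nat_lit 0) (.e (nat_lit 7065) (nat_lit 377) (.e (nat_lit 1348) (nat_lit 102) (.e (nat_lit 286733) (nat_lit 2) (.e (nat_lit 90174) (nat_lit 14) (.e (nat_lit 180275) (nat_lit 32) .nil)))))))) (.g (nat_lit 7) .nil .nil)))) (.nd (nat_lit 5) 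
(.lf (nat_lit 14685) (.g (nat_lit 2818) (.e (nat_lit 1074) (nat_lit 81) (.e (nat_lit 1633) (nat_lit 114) (.e (nat_lit 385074) (nat_lit 31) (.e (nat_lit 573491) (nat_lit 15) (.e (nat_lit 81954) (nat_lit 23) .nil))))) .nil)) 
(.lf (nat_lit 14717) (.g (nat_lit 5011) (.e (nat_lit 1074) (nat_lit 81) (.e (nat_lit 1796) (nat_lit 119) (.e (nat_lit 516142) (nat_lit 8) (.e (nat_lit 417810) (nat_lit 6) (.e (nat_lit 286733) (nat_lit 2) (.e (nat_lit 90174) (nat_lit 14) (.e (nat_lit 180275) (nat_lit 32) .nil))))))) (.g (nat_lit 0) .nil .nil))))))) (.nd (nat_lit 2) (.nd (nat_lit 3) (.nd (nat_lit 4) (.nd (nat_lit 5) 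
(.lf (nat_lit 14659) (.g (nat_lit 2180) (.e (nat_lit 1074) (nat_lit 81) (.e (nat_lit 1250) (nat_lit 92) (.e (nat_lit 98356) (nat_lit 26) (.e (nat_lit 426438) (nat_lit 18) (.e (nat_lit 98377) (nat_lit 30) (.e (nat_lit 458789) (nat_lit 23) (.e (nat_lit 532501) (nat_lit 1) (.e (nat_lit 57753) (nat_lit 209) .nil)))))))) (.g (nat_lit 4) .nil .nil))) 
(.lf (nat_lit 14691) (.g (nat_lit 2935) (.e (nat_lit 1074) (nat_lit 81) (.e (nat_lit 1633) (nat_lit 114) (.e (nat_lit 385094) (nat_lit 49) (.e (nat_lit 778323) (nat_lit 5) (.e (nat_lit 81664) (nat_lit 37) (.e (nat_lit 180225) (nat_lit 0) (.e (nat_lit 6000) (nat_lit 326) .nil))))))) (.g (nat_lit 6) .nil .nil)))) (.nd (nat_lit 5) 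
(.lf (nat_lit 14675) (.g (nat_lit 3425) (.e (nat_lit 1074) (nat_lit 81) (.e (nat_lit 1633) (nat_lit 114) (.e (nat_lit 385068) (nat_lit 26) (.e (nat_lit 532553) (nat_lit 13) (.e (nat_lit 368676) (nat_lit 21) (.e (nat_lit 516131) (nat_lit 3) (.e (nat_lit 221207) (nat_lit 21) (.e (nat_lit 164131) (nat_lit 134) .nil)))))))) (.g (nat_lit 5) .nil .nil))) 
(.lf (nat_lit 14707) (.g (nat_lit 1871) (.e (nat_lit 1074) (nat_lit 81) (.e (nat_lit 1796) (nat_lit 119) (.e (nat_lit 516115) (nat_lit 1) (.e (nat_lit 164399) (nat_lit 256) (.e (nat_lit 57370) (nat_lit 2) (.e (nat_lit 90172) (nat_lit 14) (.e (nat_lit 180244) (nat_lit 5) (.e (nat_lit 532508) (nat_lit 2) (.e (nat_lit 106526) (nat_lit 9) .nil))))))))) (.g (nat_lit 4) .nil .nil))))) 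
(.nd (nat_lit 4) (.nd (nat_lit 5) 
(.lf (nat_lit 14667) (.g (nat_lit 1243) (.e (nat_lit 1074) (nat_lit 81) (.e (nat_lit 1633) (nat_lit 114) (.e (nat_lit 385068) (nat_lit 26) (.e (nat_lit 532533) (nat_lit 9) .nil)))) .nil)) 
(.lf (nat_lit 14699) (.g (nat_lit 4296) (.e (nat_lit 1074) (nat_lit 81) (.e (nat_lit 1712) (nat_lit 117) (.e (nat_lit 499919) (nat_lit 9) (.e (nat_lit 172126) (nat_lit 14) (.e (nat_lit 491540) (nat_lit 3) (.e (nat_lit 98367) (nat_lit 27) (.e (nat_lit 434178) (nat_lit 0) .nil))))))) (.g (nat_lit 7) .nil .nil)))) (.nd (nat_lit 5) 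
(.lf (nat_lit 14683) (.g (nat_lit 4214) (.e (nat_lit 1074) (nat_lit 81) (.e (nat_lit 1633) (nat_lit 114) (.e (nat_lit 385074) (nat_lit 31) (.e (nat_lit 573484) (nat_lit 13) (.e (nat_lit 65610) (nat_lit 10) (.e (nat_lit 344117) (nat_lit 21) (.e (nat_lit 516116) (nat_lit 1) (.e (nat_lit 164411) (nat_lit 260) .nil)))))))) (.g (nat_lit 0) .nil .nil))) 
(.lf (nat_lit 14715) (.g (nat_lit 4856) (.e (nat_lit 1074) (nat_lit 81) (.e (nat_lit 1796) (nat_lit 119) (.e (nat_lit 516142) (nat_lit 8) (.e (nat_lit 417810) (nat_lit 6) (.e (nat_lit 286733) (nat_lit 2) (.e (nat_lit 90172) (nat_lit 14) (.e (nat_lit 180276) (nat_lit 32) .nil))))))) (.g (nat_lit 6) .nil .nil)))))) (.nd (nat_lit 3) (.nd (nat_lit 4) (.nd (nat_lit 5) 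
(.lf (nat_lit 14663) (.g (nat_lit 2769) (.e (nat_lit 1074) (nat_lit 81) (.e (nat_lit 1250) (nat_lit 92) (.e (nat_lit 98384) (nat_lit 32) (.e (nat_lit 475177) (nat_lit 24) (.e (nat_lit 516169) (nat_lit 13) (.e (nat_lit 458789) (nat_lit 23) (.e (nat_lit 532501) (nat_lit 1) (.e (nat_lit 57756) (nat_lit 209) .nil)))))))) (.g (nat_lit 4) .nil .nil))) 
(.lf (nat_lit 14695) (.g (nat_lit 2512) (.e (nat_lit 1074) (nat_lit 81) (.e (nat_lit 1656) (nat_lit 115) (.e (nat_lit 393251) (nat_lit 18) (.e (nat_lit 164179) (nat_lit 154) (.e (nat_lit 57432) (nat_lit 16) .nil))))) .nil))) (.nd (nat_lit 5) 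
(.lf (nat_lit 14679) (.g (nat_lit 2374) (.e (nat_lit 1074) (nat_lit 81) (.e (nat_lit 1633) (nat_lit 114) (.e (nat_lit 385068) (nat_lit 26) (.e (nat_lit 532555) (nat_lit 13) (.e (nat_lit 368676) (nat_lit 21) (.e (nat_lit 516131) (nat_lit 3) (.e (nat_lit 221208) (nat_lit 21) (.e (nat_lit 164134) (nat_lit 134) .nil)))))))) (.g (nat_lit 4) .nil .nil))) 
(.lf (nat_lit 14711) (.g (nat_lit 3252) (.e (nat_lit 1074) (nat_lit 81) (.e (nat_lit 1796) (nat_lit 119) (.e (nat_lit 516139) (nat_lit 7) (.e (nat_lit 409640) (nat_lit 17) (.e (nat_lit 294931) (nat_lit 3) (.e (nat_lit 98350) (nat_lit 24) (.e (nat_lit 409617) (nat_lit 10) (.e (nat_lit 5353) (nat_lit 298) .nil)))))))) (.g (nat_lit 6) .nil .nil))))) (.nd (nat_lit 4) (.nd (nat_lit 5) 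
(.lf (nat_lit 14671) (.g (nat_lit 1977) (.e (nat_lit 1074) (nat_lit 81) (.e (nat_lit 1633) (nat_lit 114) (.e (nat_lit 385068) (nat_lit 26) (.e (nat_lit 532534) (nat_lit 9) (.e (nat_lit 336211) (nat_lit 13) .nil))))) .nil)) 
(.lf (nat_lit 14703) (.g (nat_lit 3273) (.e (nat_lit 1074) (nat_lit 81) (.e (nat_lit 1796) (nat_lit 119) (.e (nat_lit 516098) (nat_lit 0) (.e (nat_lit 7065) (nat_lit 377) (.e (nat_lit 1349) (nat_lit 102) (.e (nat_lit 286733) (nat_lit 2) (.e (nat_lit 90173) (nat_lit 14) (.e (nat_lit 180275) (nat_lit 32) .nil)))))))) (.g (nat_lit 6) .nil .nil)))) (.nd (nat_lit 5) 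
(.lf (nat_lit 14687) (.g (nat_lit 758) (.e (nat_lit 1074) (nat_lit 81) (.e (nat_lit 1633) (nat_lit 114) (.e (nat_lit 385094) (nat_lit 49) .nil))) .nil)) 
(.lf (nat_lit 14719) (.g (nat_lit 4289) (.e (nat_lit 1074) (nat_lit 81) (.e (nat_lit 1796) (nat_lit 119) (.e (nat_lit 516142) (nat_lit 8) (.e (nat_lit 417811) (nat_lit 6) (.e (nat_lit 286733) (nat_lit 2) (.e (nat_lit 90172) (nat_lit 14) (.e (nat_lit 180276) (nat_lit 32) .nil))))))) (.g (nat_lit 7) .nil .nil)))))))))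

noncomputable def tv204 : DT := (.nd (nat_lit 0) (.nd (nat_lit 1) (.nd (nat_lit 2) (.nd (nat_lit 3) (.nd (nat_lit 4) (.nd (nat_lit 5) 
(.lf (nat_lit 14720) (.g (nat_lit 4329) (.e (nat_lit 1074) (nat_lit 81) (.e (nat_lit 1796) (nat_lit 119) (.e (nat_lit 516142) (nat_lit 8) (.e (nat_lit 417811) (nat_lit 6) (.e (nat_lit 286733) (nat_lit 2) (.e (nat_lit 90174) (nat_lit 14) (.e (nat_lit 180275) (nat_lit 32) .nil))))))) (.g (nat_lit 0) .nil .nil))) 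
(.lf (nat_lit 14752) (.g (nat_lit 1753) (.e (nat_lit 1074) (nat_lit 81) (.e (nat_lit 1796) (nat_lit 119) (.e (nat_lit 516163) (nat_lit 11) (.e (nat_lit 442412) (nat_lit 20) (.e (nat_lit 3271) (nat_lit 199) (.e (nat_lit 548914) (nat_lit 19) (.e (nat_lit 180276) (nat_lit 32) .nil))))))) (.g (nat_lit 5) .nil .nil)))) (.nd (nat_lit 5) 
(.lf (nat_lit 14736) (.g (nat_lit 2963) (.e (nat_lit 1074) (nat_lit 81) (.e (nat_lit 1796) (nat_lit 119) (.e (nat_lit 516158) (nat_lit 9) (.e (nat_lit 426316) (nat_lit 12) (.e (nat_lit 475185) (nat_lit 29) (.e (nat_lit 557105) (nat_lit 14) (.e (nat_lit 180275) (nat_lit 32) .nil))))))) (.g (nat_lit 6) .nil .nil))) 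
(.lf (nat_lit 14768) (.g (nat_lit 2267) (.e (nat_lit 1074) (nat_lit 81) (.e (nat_lit 1796) (nat_lit 119) (.e (nat_lit 516163) (nat_lit 11) (.e (nat_lit 442427) (nat_lit 23) (.e (nat_lit 204815) (nat_lit 17) (.e (nat_lit 6712) (nat_lit 360) (.e (nat_lit 164236) (nat_lit 187) .nil))))))) (.g (nat_lit 4) .nil .nil))))) (.nd (nat_lit 4) (.nd (nat_lit 5) 
(.lf (nat_lit 14728) (.g (nat_lit 2826) (.e (nat_lit 1074) (nat_lit 81) (.e (nat_lit 1796) (nat_lit 119) (.e (nat_lit 516151) (nat_lit 9) (.e (nat_lit 426170) (nat_lit 7) (.e (nat_lit 409631) (nat_lit 12) (.e (nat_lit 32808) (nat_lit 19) (.e (nat_lit 180278) (nat_lit 32) .nil))))))) (.g (nat_lit 5) .nil .nil))) 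
(.lf (nat_lit 14760) (.g (nat_lit 3529) (.e (nat_lit 1074) (nat_lit 81) (.e (nat_lit 1796) (nat_lit 119) (.e (nat_lit 516163) (nat_lit 11) (.e (nat_lit 442424) (nat_lit 22) (.e (nat_lit 196628) (nat_lit 9) (.e (nat_lit 970) (nat_lit 81) (.e (nat_lit 6711) (nat_lit 360) (.e (nat_lit 164234) (nat_lit 187) .nil)))))))) (.g (nat_lit 7) .nil .nil)))) (.nd (nat_lit 5) 
(.lf (nat_lit 14744) (.g (nat_lit 1854) (.e (nat_lit 1074) (nat_lit 81) (.e (nat_lit 1796) (nat_lit 119) (.e (nat_lit 516163) (nat_lit 11) (.e (nat_lit 450304) (nat_lit 0) (.e (nat_lit 1849) (nat_lit 124) (.e (nat_lit 557103) (nat_lit 14) (.e (nat_lit 180276) (nat_lit 32) .nil))))))) (.g (nat_lit 6) .nil .nil))) 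
(.lf (nat_lit 14776) (.g (nat_lit 1937) (.e (nat_lit 1074) (nat_lit 81) (.e (nat_lit 1796) (nat_lit 119) (.e (nat_lit 516163) (nat_lit 11) (.e (nat_lit 442430) (nat_lit 24) (.e (nat_lit 229535) (nat_lit 134) .nil))))) .nil))))) (.nd (nat_lit 3) (.nd (nat_lit 4) (.nd (nat_lit 5) 
(.lf (nat_lit 14724) (.g (nat_lit 3043) (.e (nat_lit 1074) (nat_lit 81) (.e (nat_lit 1796) (nat_lit 119) (.e (nat_lit 516142) (nat_lit 8) (.e (nat_lit 417812) (nat_lit 7) (.e (nat_lit 294928) (nat_lit 2) (.e (nat_lit 90174) (nat_lit 14) (.e (nat_lit 180275) (nat_lit 32) .nil))))))) (.g (nat_lit 7) .nil .nil))) 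
(.lf (nat_lit 14756) (.g (nat_lit 3731) (.e (nat_lit 1074) (nat_lit 81) (.e (nat_lit 1796) (nat_lit 119) (.e (nat_lit 516163) (nat_lit 11) (.e (nat_lit 442424) (nat_lit 22) (.e (nat_lit 196628) (nat_lit 9) (.e (nat_lit 968) (nat_lit 81) (.e (nat_lit 6713) (nat_lit 360) (.e (nat_lit 164234) (nat_lit 187) .nil)))))))) (.g (nat_lit 8) .nil .nil)))) (.nd (nat_lit 5) 
(.lf (nat_lit 14740) (.g (nat_lit 2176) (.e (nat_lit 1074) (nat_lit 81) (.e (nat_lit 1796) (nat_lit 119) (.e (nat_lit 516163) (nat_lit 11) (.e (nat_lit 442377) (nat_lit 0) (.e (nat_lit 1856) (nat_lit 124) (.e (nat_lit 557105) (nat_lit 14) (.e (nat_lit 180275) (nat_lit 32) .nil))))))) (.g (nat_lit 5) .nil .nil))) 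
(.lf (nat_lit 14772) (.g (nat_lit 1709) (.e (nat_lit 1074) (nat_lit 81) (.e (nat_lit 1796) (nat_lit 119) (.e (nat_lit 516163) (nat_lit 11) (.e (nat_lit 442427) (nat_lit 23) (.e (nat_lit 204821) (nat_lit 17) (.e (nat_lit 6114) (nat_lit 332) (.e (nat_lit 972) (nat_lit 81) (.e (nat_lit 5353) (nat_lit 298) .nil)))))))) (.g (nat_lit 4) .nil .nil))))) (.nd (nat_lit 4) (.nd (nat_lit 5) 
(.lf (nat_lit 14732) (.g (nat_lit 2509) (.e (nat_lit 1074) (nat_lit 81) (.e (nat_lit 1796) (nat_lit 119) (.e (nat_lit 516151) (nat_lit 9) (.e (nat_lit 426285) (nat_lit 10) (.e (nat_lit 434227) (nat_lit 20) .nil))))) .nil)) 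
(.lf (nat_lit 14764) (.g (nat_lit 1924) (.e (nat_lit 1074) (nat_lit 81) (.e (nat_lit 1796) (nat_lit 119) (.e (nat_lit 516163) (nat_lit 11) (.e (nat_lit 442424) (nat_lit 22) (.e (nat_lit 196661) (nat_lit 12) .nil))))) .nil))) (.nd (nat_lit 5) 
(.lf (nat_lit 14748) (.g (nat_lit 1951) (.e (nat_lit 1074) (nat_lit 81) (.e (nat_lit 1796) (nat_lit 119) (.e (nat_lit 516163) (nat_lit 11) (.e (nat_lit 450304) (nat_lit 0) (.e (nat_lit 1859) (nat_lit 124) (.e (nat_lit 557103) (nat_lit 14) (.e (nat_lit 180276) (nat_lit 32) .nil))))))) (.g (nat_lit 6) .nil .nil))) 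
(.lf (nat_lit 14780) (.g (nat_lit 2189) (.e (nat_lit 1074) (nat_lit 81) (.e (nat_lit 1796) (nat_lit 119) (.e (nat_lit 516165) (nat_lit 12) (.e (nat_lit 450586) (nat_lit 10) (.e (nat_lit 573452) (nat_lit 9) (.e (nat_lit 7936) (nat_lit 33) (.e (nat_lit 434179) (nat_lit 0) .nil))))))) (.g (nat_lit 5) .nil .nil))))))) (.nd (nat_lit 2) (.nd (nat_lit 3) (.nd (nat_lit 4) (.nd (nat_lit 5) 
(.lf (nat_lit 14722) (.g (nat_lit 2508) (.e (nat_lit 1074) (nat_lit 81) (.e (nat_lit 1796) (nat_lit 119) (.e (nat_lit 516142) (nat_lit 8) (.e (nat_lit 417812) (nat_lit 7) (.e (nat_lit 294927) (nat_lit 2) (.e (nat_lit 90174) (nat_lit 14) (.e (nat_lit 180275) (nat_lit 32) .nil))))))) (.g (nat_lit 6) .nil .nil))) 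
(.lf (nat_lit 14754) (.g (nat_lit 3630) (.e (nat_lit 1074) (nat_lit 81) (.e (nat_lit 1796) (nat_lit 119) (.e (nat_lit 516163) (nat_lit 11) (.e (nat_lit 442424) (nat_lit 22) (.e (nat_lit 196628) (nat_lit 9) (.e (nat_lit 968) (nat_lit 81) (.e (nat_lit 6711) (nat_lit 360) (.e (nat_lit 164234) (nat_lit 187) .nil)))))))) (.g (nat_lit 7) .nil .nil)))) (.nd (nat_lit 5) 
(.lf (nat_lit 14738) (.g (nat_lit 2260) (.e (nat_lit 1074) (nat_lit 81) (.e (nat_lit 1796) (nat_lit 119) (.e (nat_lit 516163) (nat_lit 11) (.e (nat_lit 442374) (nat_lit 0) (.e (nat_lit 1856) (nat_lit 124) (.e (nat_lit 557105) (nat_lit 14) (.e (nat_lit 180275) (nat_lit 32) .nil))))))) (.g (nat_lit 5) .nil .nil))) 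
(.lf (nat_lit 14770) (.g (nat_lit 2075) (.e (nat_lit 1074) (nat_lit 81) (.e (nat_lit 1796) (nat_lit 119) (.e (nat_lit 516163) (nat_lit 11) (.e (nat_lit 442427) (nat_lit 23) (.e (nat_lit 204816) (nat_lit 17) .nil))))) .nil)))) (.nd (nat_lit 4) (.nd (nat_lit 5) 
(.lf (nat_lit 14730) (.g (nat_lit 3104) (.e (nat_lit 1074) (nat_lit 81) (.e (nat_lit 1796) (nat_lit 119) (.e (nat_lit 516151) (nat_lit 9) (.e (nat_lit 426211) (nat_lit 9) (.e (nat_lit 426125) (nat_lit 2) (.e (nat_lit 204544) (nat_lit 22) (.e (nat_lit 229693) (nat_lit 249) (.e (nat_lit 164236) (nat_lit 187) .nil)))))))) (.g (nat_lit 4) .nil .nil))) 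
(.lf (nat_lit 14762) (.g (nat_lit 2194) (.e (nat_lit 1074) (nat_lit 81) (.e (nat_lit 1796) (nat_lit 119) (.e (nat_lit 516163) (nat_lit 11) (.e (nat_lit 442424) (nat_lit 22) (.e (nat_lit 196628) (nat_lit 9) (.e (nat_lit 970) (nat_lit 81) (.e (nat_lit 6713) (nat_lit 360) (.e (nat_lit 164238) (nat_lit 187) .nil)))))))) (.g (nat_lit 4) .nil .nil)))) (.nd (nat_lit 5) 
(.lf (nat_lit 14746) (.g (nat_lit 2453) (.e (nat_lit 1074) (nat_lit 81) (.e (nat_lit 1796) (nat_lit 119) (.e (nat_lit 516163) (nat_lit 11) (.e (nat_lit 450304) (nat_lit 0) (.e (nat_lit 1853) (nat_lit 124) (.e (nat_lit 557103) (nat_lit 14) (.e (nat_lit 180276) (nat_lit 32) .nil))))))) (.g (nat_lit 6) .nil .nil))) 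
(.lf (nat_lit 14778) (.g (nat_lit 162) (.e (nat_lit 1074) (nat_lit 81) (.e (nat_lit 1796) (nat_lit 119) (.e (nat_lit 516165) (nat_lit 12) .nil))) .nil))))) (.nd (nat_lit 3) (.nd (nat_lit 4) (.nd (nat_lit 5) 
(.lf (nat_lit 14726) (.g (nat_lit 2959) (.e (nat_lit 1074) (nat_lit 81) (.e (nat_lit 1796) (nat_lit 119) (.e (nat_lit 516151) (nat_lit 9) (.e (nat_lit 426170) (nat_lit 7) (.e (nat_lit 409631) (nat_lit 12) (.e (nat_lit 32808) (nat_lit 19) (.e (nat_lit 180276) (nat_lit 32) .nil))))))) (.g (nat_lit 6) .nil .nil))) 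
(.lf (nat_lit 14758) (.g (nat_lit 2881) (.e (nat_lit 1074) (nat_lit 81) (.e (nat_lit 1796) (nat_lit 119) (.e (nat_lit 516163) (nat_lit 11) (.e (nat_lit 442424) (nat_lit 22) (.e (nat_lit 196628) (nat_lit 9) (.e (nat_lit 968) (nat_lit 81) (.e (nat_lit 6713) (nat_lit 360) (.e (nat_lit 164239) (nat_lit 187) .nil)))))))) (.g (nat_lit 5) .nil .nil)))) (.nd (nat_lit 5) 
(.lf (nat_lit 14742) (.g (nat_lit 780) (.e (nat_lit 1074) (nat_lit 81) (.e (nat_lit 1796) (nat_lit 119) (.e (nat_lit 516163) (nat_lit 11) (.e (nat_lit 450304) (nat_lit 0) .nil)))) .nil)) 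
(.lf (nat_lit 14774) (.g (nat_lit 2889) (.e (nat_lit 1074) (nat_lit 81) (.e (nat_lit 1796) (nat_lit 119) (.e (nat_lit 516163) (nat_lit 11) (.e (nat_lit 442427) (nat_lit 23) (.e (nat_lit 204821) (nat_lit 17) (.e (nat_lit 6206) (nat_lit 333) (.e (nat_lit 57889) (nat_lit 270) .nil))))))) (.g (nat_lit 0) .nil .nil))))) (.nd (nat_lit 4) (.nd (nat_lit 5) 
(.lf (nat_lit 14734) (.g (nat_lit 2855) (.e (nat_lit 1074) (nat_lit 81) (.e (nat_lit 1796) (nat_lit 119) (.e (nat_lit 516151) (nat_lit 9) (.e (nat_lit 426285) (nat_lit 10) (.e (nat_lit 434238) (nat_lit 25) (.e (nat_lit 548914) (nat_lit 19) (.e (nat_lit 180275) (nat_lit 32) .nil))))))) (.g (nat_lit 4) .nil .nil))) 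
(.lf (nat_lit 14766) (.g (nat_lit 3318) (.e (nat_lit 1074) (nat_lit 81) (.e (nat_lit 1796) (nat_lit 119) (.e (nat_lit 516163) (nat_lit 11) (.e (nat_lit 442424) (nat_lit 22) (.e (nat_lit 196661) (nat_lit 12) (.e (nat_lit 57721) (nat_lit 177) (.e (nat_lit 57889) (nat_lit 270) .nil))))))) (.g (nat_lit 0) .nil .nil)))) (.nd (nat_lit 5) 
(.lf (nat_lit 14750) (.g (nat_lit 1433) (.e (nat_lit 1074) (nat_lit 81) (.e (nat_lit 1796) (nat_lit 119) (.e (nat_lit 516163) (nat_lit 11) (.e (nat_lit 442411) (nat_lit 20) (.e (nat_lit 3272) (nat_lit 199) (.e (nat_lit 548914) (nat_lit 19) (.e (nat_lit 180276) (nat_lit 32) .nil))))))) (.g (nat_lit 4) .nil .nil))) 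
(.lf (nat_lit 14782) (.g (nat_lit 2062) (.e (nat_lit 1074) (nat_lit 81) (.e (nat_lit 1796) (nat_lit 119) (.e (nat_lit 516165) (nat_lit 12) (.e (nat_lit 450586) (nat_lit 10) (.e (nat_lit 573457) (nat_lit 9) (.e (nat_lit 7936) (nat_lit 33) (.e (nat_lit 434179) (nat_lit 0) .nil))))))) (.g (nat_lit 5) .nil .nil)))))))) 
(.nd (nat_lit 1) (.nd (nat_lit 2) (.nd (nat_lit 3) (.nd (nat_lit 4) (.nd (nat_lit 5) 
(.lf (nat_lit 14721) (.g (nat_lit 3060) (.e (nat_lit 1074) (nat_lit 81) (.e (nat_lit 1796) (nat_lit 119) (.e (nat_lit 516142) (nat_lit 8) (.e (nat_lit 417812) (nat_lit 7) (.e (nat_lit 294927) (nat_lit 2) (.e (nat_lit 90172) (nat_lit 14) (.e (nat_lit 180276) (nat_lit 32) .nil))))))) (.g (nat_lit 7) .nil .nil))) 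
(.lf (nat_lit 14753) (.g (nat_lit 2409) (.e (nat_lit 1074) (nat_lit 81) (.e (nat_lit 1796) (nat_lit 119) (.e (nat_lit 516163) (nat_lit 11) (.e (nat_lit 442412) (nat_lit 20) (.e (nat_lit 3272) (nat_lit 199) (.e (nat_lit 548914) (nat_lit 19) (.e (nat_lit 180276) (nat_lit 32) .nil))))))) (.g (nat_lit 6) .nil .nil)))) (.nd (nat_lit 5) 
(.lf (nat_lit 14737) (.g (nat_lit 688) (.e (nat_lit 1074) (nat_lit 81) (.e (nat_lit 1796) (nat_lit 119) (.e (nat_lit 516160) (nat_lit 10) (.e (nat_lit 434193) (nat_lit 13) .nil)))) .nil)) 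
(.lf (nat_lit 14769) (.g (nat_lit 2579) (.e (nat_lit 1074) (nat_lit 81) (.e (nat_lit 1796) (nat_lit 119) (.e (nat_lit 516163) (nat_lit 11) (.e (nat_lit 442427) (nat_lit 23) (.e (nat_lit 204815) (nat_lit 17) (.e (nat_lit 6714) (nat_lit 360) (.e (nat_lit 164237) (nat_lit 187) .nil))))))) (.g (nat_lit 4) .nil .nil))))) (.nd (nat_lit 4) (.nd (nat_lit 5) 
(.lf (nat_lit 14729) (.g (nat_lit 3169) (.e (nat_lit 1074) (nat_lit 81) (.e (nat_lit 1796) (nat_lit 119) (.e (nat_lit 516151) (nat_lit 9) (.e (nat_lit 426211) (nat_lit 9) (.e (nat_lit 426125) (nat_lit 2) (.e (nat_lit 204544) (nat_lit 21) (.e (nat_lit 164371) (nat_lit 249) (.e (nat_lit 164237) (nat_lit 187) .nil)))))))) (.g (nat_lit 4) .nil .nil))) 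
(.lf (nat_lit 14761) (.g (nat_lit 3617) (.e (nat_lit 1074) (nat_lit 81) (.e (nat_lit 1796) (nat_lit 119) (.e (nat_lit 516163) (nat_lit 11) (.e (nat_lit 442424) (nat_lit 22) (.e (nat_lit 196628) (nat_lit 9) (.e (nat_lit 970) (nat_lit 81) (.e (nat_lit 6713) (nat_lit 360) (.e (nat_lit 164234) (nat_lit 187) .nil)))))))) (.g (nat_lit 8) .nil .nil)))) (.nd (nat_lit 5) 
(.lf (nat_lit 14745) (.g (nat_lit 2111) (.e (nat_lit 1074) (nat_lit 81) (.e (nat_lit 1796) (nat_lit 119) (.e (nat_lit 516163) (nat_lit 11) (.e (nat_lit 450304) (nat_lit 0) (.e (nat_lit 1849) (nat_lit 124) (.e (nat_lit 557104) (nat_lit 14) (.e (nat_lit 180276) (nat_lit 32) .nil))))))) (.g (nat_lit 6) .nil .nil))) 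
(.lf (nat_lit 14777) (.g (nat_lit 1920) (.e (nat_lit 1074) (nat_lit 81) (.e (nat_lit 1796) (nat_lit 119) (.e (nat_lit 516163) (nat_lit 11) (.e (nat_lit 442430) (nat_lit 24) (.e (nat_lit 237312) (nat_lit 134) (.e (nat_lit 2641) (nat_lit 165) (.e (nat_lit 180276) (nat_lit 32) .nil))))))) (.g (nat_lit 4) .nil .nil)))))) (.nd (nat_lit 3) (.nd (nat_lit 4) (.nd (nat_lit 5) 
(.lf (nat_lit 14725) (.g (nat_lit 2609) (.e (nat_lit 1074) (nat_lit 81) (.e (nat_lit 1796) (nat_lit 119) (.e (nat_lit 516151) (nat_lit 9) (.e (nat_lit 426170) (nat_lit 7) (.e (nat_lit 409631) (nat_lit 12) (.e (nat_lit 32808) (nat_lit 19) (.e (nat_lit 180275) (nat_lit 32) .nil))))))) (.g (nat_lit 5) .nil .nil))) 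
(.lf (nat_lit 14757) (.g (nat_lit 2308) (.e (nat_lit 1074) (nat_lit 81) (.e (nat_lit 1796) (nat_lit 119) (.e (nat_lit 516163) (nat_lit 11) (.e (nat_lit 442424) (nat_lit 22) (.e (nat_lit 196628) (nat_lit 9) (.e (nat_lit 968) (nat_lit 81) (.e (nat_lit 6713) (nat_lit 360) (.e (nat_lit 164238) (nat_lit 187) .nil)))))))) (.g (nat_lit 4) .nil .nil)))) (.nd (nat_lit 5) 
(.lf (nat_lit 14741) (.g (nat_lit 963) (.e (nat_lit 1074) (nat_lit 81) (.e (nat_lit 1796) (nat_lit 119) (.e (nat_lit 516163) (nat_lit 11) (.e (nat_lit 442378) (nat_lit 0) .nil)))) .nil)) 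
(.lf (nat_lit 14773) (.g (nat_lit 2715) (.e (nat_lit 1074) (nat_lit 81) (.e (nat_lit 1796) (nat_lit 119) (.e (nat_lit 516163) (nat_lit 11) (.e (nat_lit 442427) (nat_lit 23) (.e (nat_lit 204821) (nat_lit 17) (.e (nat_lit 6114) (nat_lit 332) (.e (nat_lit 973) (nat_lit 81) (.e (nat_lit 5353) (nat_lit 298) .nil)))))))) (.g (nat_lit 6) .nil .nil))))) (.nd (nat_lit 4) (.nd (nat_lit 5) 
(.lf (nat_lit 14733) (.g (nat_lit 3026) (.e (nat_lit 1074) (nat_lit 81) (.e (nat_lit 1796) (nat_lit 119) (.e (nat_lit 516151) (nat_lit 9) (.e (nat_lit 426285) (nat_lit 10) (.e (nat_lit 434227) (nat_lit 20) (.e (nat_lit 507930) (nat_lit 10) (.e (nat_lit 5760) (nat_lit 315) (.e (nat_lit 164237) (nat_lit 187) .nil)))))))) (.g (nat_lit 5) .nil .nil))) 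
(.lf (nat_lit 14765) (.g (nat_lit 2041) (.e (nat_lit 1074) (nat_lit 81) (.e (nat_lit 1796) (nat_lit 119) (.e (nat_lit 516163) (nat_lit 11) (.e (nat_lit 442424) (nat_lit 22) (.e (nat_lit 196661) (nat_lit 12) (.e (nat_lit 57714) (nat_lit 176) (.e (nat_lit 988) (nat_lit 81) (.e (nat_lit 5343) (nat_lit 298) .nil)))))))) (.g (nat_lit 4) .nil .nil)))) (.nd (nat_lit 5) 
(.lf (nat_lit 14749) (.g (nat_lit 2345) (.e (nat_lit 1074) (nat_lit 81) (.e (nat_lit 1796) (nat_lit 119) (.e (nat_lit 516163) (nat_lit 11) (.e (nat_lit 450304) (nat_lit 0) (.e (nat_lit 1860) (nat_lit 124) (.e (nat_lit 557103) (nat_lit 14) (.e (nat_lit 180276) (nat_lit 32) .nil))))))) (.g (nat_lit 6) .nil .nil))) 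
(.lf (nat_lit 14781) (.g (nat_lit 2250) (.e (nat_lit 1074) (nat_lit 81) (.e (nat_lit 1796) (nat_lit 119) (.e (nat_lit 516165) (nat_lit 12) (.e (nat_lit 450586) (nat_lit 10) (.e (nat_lit 573456) (nat_lit 9) (.e (nat_lit 7936) (nat_lit 33) (.e (nat_lit 434179) (nat_lit 0) .nil))))))) (.g (nat_lit 5) .nil .nil))))))) (.nd (nat_lit 2) (.nd (nat_lit 3) (.nd (nat_lit 4) (.nd (nat_lit 5) 
(.lf (nat_lit 14723) (.g (nat_lit 3071) (.e (nat_lit 1074) (nat_lit 81) (.e (nat_lit 1796) (nat_lit 119) (.e (nat_lit 516142) (nat_lit 8) (.e (nat_lit 417812) (nat_lit 7) (.e (nat_lit 294928) (nat_lit 2) (.e (nat_lit 90172) (nat_lit 14) (.e (nat_lit 180276) (nat_lit 32) .nil))))))) (.g (nat_lit 7) .nil .nil))) 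
(.lf (nat_lit 14755) (.g (nat_lit 2308) (.e (nat_lit 1074) (nat_lit 81) (.e (nat_lit 1796) (nat_lit 119) (.e (nat_lit 516163) (nat_lit 11) (.e (nat_lit 442424) (nat_lit 22) (.e (nat_lit 196628) (nat_lit 9) (.e (nat_lit 968) (nat_lit 81) (.e (nat_lit 6712) (nat_lit 360) (.e (nat_lit 164237) (nat_lit 187) .nil)))))))) (.g (nat_lit 4) .nil .nil)))) (.nd (nat_lit 5) 
(.lf (nat_lit 14739) (.g (nat_lit 1464) (.e (nat_lit 1074) (nat_lit 81) (.e (nat_lit 1796) (nat_lit 119) (.e (nat_lit 516163) (nat_lit 11) (.e (nat_lit 442377) (nat_lit 0) (.e (nat_lit 1846) (nat_lit 124) (.e (nat_lit 557104) (nat_lit 14) (.e (nat_lit 180276) (nat_lit 32) .nil))))))) (.g (nat_lit 4) .nil .nil))) 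
(.lf (nat_lit 14771) (.g (nat_lit 1693) (.e (nat_lit 1074) (nat_lit 81) (.e (nat_lit 1796) (nat_lit 119) (.e (nat_lit 516163) (nat_lit 11) (.e (nat_lit 442427) (nat_lit 23) (.e (nat_lit 204821) (nat_lit 17) .nil))))) .nil)))) (.nd (nat_lit 4) (.nd (nat_lit 5) 
(.lf (nat_lit 14731) (.g (nat_lit 3141) (.e (nat_lit 1074) (nat_lit 81) (.e (nat_lit 1796) (nat_lit 119) (.e (nat_lit 516151) (nat_lit 9) (.e (nat_lit 426211) (nat_lit 9) (.e (nat_lit 426125) (nat_lit 2) (.e (nat_lit 204544) (nat_lit 22) (.e (nat_lit 229693) (nat_lit 249) (.e (nat_lit 164237) (nat_lit 187) .nil)))))))) (.g (nat_lit 4) .nil .nil))) 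
(.lf (nat_lit 14763) (.g (nat_lit 2767) (.e (nat_lit 1074) (nat_lit 81) (.e (nat_lit 1796) (nat_lit 119) (.e (nat_lit 516163) (nat_lit 11) (.e (nat_lit 442424) (nat_lit 22) (.e (nat_lit 196628) (nat_lit 9) (.e (nat_lit 970) (nat_lit 81) (.e (nat_lit 6713) (nat_lit 360) (.e (nat_lit 164239) (nat_lit 187) .nil)))))))) (.g (nat_lit 5) .nil .nil)))) (.nd (nat_lit 5) 
(.lf (nat_lit 14747) (.g (nat_lit 2691) (.e (nat_lit 1074) (nat_lit 81) (.e (nat_lit 1796) (nat_lit 119) (.e (nat_lit 516163) (nat_lit 11) (.e (nat_lit 450304) (nat_lit 0) (.e (nat_lit 1858) (nat_lit 124) (.e (nat_lit 557103) (nat_lit 14) (.e (nat_lit 180276) (nat_lit 32) .nil))))))) (.g (nat_lit 6) .nil .nil))) 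
(.lf (nat_lit 14779) (.g (nat_lit 3506) (.e (nat_lit 1074) (nat_lit 81) (.e (nat_lit 1796) (nat_lit 119) (.e (nat_lit 516165) (nat_lit 12) (.e (nat_lit 450579) (nat_lit 5) (.e (nat_lit 532481) (nat_lit 0) (.e (nat_lit 6712) (nat_lit 360) (.e (nat_lit 164237) (nat_lit 187) .nil))))))) (.g (nat_lit 6) .nil .nil)))))) (.nd (nat_lit 3) (.nd (nat_lit 4) (.nd (nat_lit 5) 
(.lf (nat_lit 14727) (.g (nat_lit 2249) (.e (nat_lit 1074) (nat_lit 81) (.e (nat_lit 1796) (nat_lit 119) (.e (nat_lit 516151) (nat_lit 9) (.e (nat_lit 426170) (nat_lit 7) (.e (nat_lit 409631) (nat_lit 12) (.e (nat_lit 32808) (nat_lit 19) (.e (nat_lit 180277) (nat_lit 32) .nil))))))) (.g (nat_lit 4) .nil .nil))) 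
(.lf (nat_lit 14759) (.g (nat_lit 2881) (.e (nat_lit 1074) (nat_lit 81) (.e (nat_lit 1796) (nat_lit 119) (.e (nat_lit 516163) (nat_lit 11) (.e (nat_lit 442424) (nat_lit 22) (.e (nat_lit 196628) (nat_lit 9) (.e (nat_lit 968) (nat_lit 81) (.e (nat_lit 6714) (nat_lit 360) (.e (nat_lit 164237) (nat_lit 187) .nil)))))))) (.g (nat_lit 5) .nil .nil)))) (.nd (nat_lit 5) 
(.lf (nat_lit 14743) (.g (nat_lit 2218) (.e (nat_lit 1074) (nat_lit 81) (.e (nat_lit 1796) (nat_lit 119) (.e (nat_lit 516163) (nat_lit 11) (.e (nat_lit 450304) (nat_lit 0) (.e (nat_lit 1848) (nat_lit 124) (.e (nat_lit 557103) (nat_lit 14) (.e (nat_lit 180276) (nat_lit 32) .nil))))))) (.g (nat_lit 6) .nil .nil))) 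
(.lf (nat_lit 14775) (.g (nat_lit 2559) (.e (nat_lit 1074) (nat_lit 81) (.e (nat_lit 1796) (nat_lit 119) (.e (nat_lit 516163) (nat_lit 11) (.e (nat_lit 442427) (nat_lit 23) (.e (nat_lit 204885) (nat_lit 33) (.e (nat_lit 401414) (nat_lit 0) (.e (nat_lit 7556) (nat_lit 402) .nil))))))) (.g (nat_lit 4) .nil .nil))))) (.nd (nat_lit 4) (.nd (nat_lit 5) 
(.lf (nat_lit 14735) (.g (nat_lit 3093) (.e (nat_lit 1074) (nat_lit 81) (.e (nat_lit 1796) (nat_lit 119) (.e (nat_lit 516158) (nat_lit 9) (.e (nat_lit 426316) (nat_lit 12) (.e (nat_lit 475185) (nat_lit 29) (.e (nat_lit 557103) (nat_lit 14) (.e (nat_lit 180276) (nat_lit 32) .nil))))))) (.g (nat_lit 7) .nil .nil))) 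
(.lf (nat_lit 14767) (.g (nat_lit 2262) (.e (nat_lit 1074) (nat_lit 81) (.e (nat_lit 1796) (nat_lit 119) (.e (nat_lit 516163) (nat_lit 11) (.e (nat_lit 442424) (nat_lit 22) (.e (nat_lit 196661) (nat_lit 12) (.e (nat_lit 57721) (nat_lit 177) (.e (nat_lit 57890) (nat_lit 270) .nil))))))) (.g (nat_lit 4) .nil .nil)))) (.nd (nat_lit 5) 
(.lf (nat_lit 14751) (.g (nat_lit 1495) (.e (nat_lit 1074) (nat_lit 81) (.e (nat_lit 1796) (nat_lit 119) (.e (nat_lit 516163) (nat_lit 11) (.e (nat_lit 442412) (nat_lit 20) (.e (nat_lit 3271) (nat_lit 199) (.e (nat_lit 548914) (nat_lit 19) (.e (nat_lit 180275) (nat_lit 32) .nil))))))) (.g (nat_lit 4) .nil .nil))) 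
(.lf (nat_lit 14783) (.g (nat_lit 2539) (.e (nat_lit 1074) (nat_lit 81) (.e (nat_lit 1796) (nat_lit 119) (.e (nat_lit 516166) (nat_lit 12) (.e (nat_lit 450562) (nat_lit 0) (.e (nat_lit 4284) (nat_lit 253) (.e (nat_lit 65280) (nat_lit 74) (.e (nat_lit 434178) (nat_lit 0) .nil))))))) (.g (nat_lit 4) .nil .nil)))))))))

noncomputable def tv205 : DT := (.nd (nat_lit 0) (.nd (nat_lit 1) (.nd (nat_lit 2) (.nd (nat_lit 3) (.nd (nat_lit 4) (.nd (nat_lit 5) 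
(.lf (nat_lit 14784) (.g (nat_lit 1340) (.e (nat_lit 1074) (nat_lit 81) (.e (nat_lit 1796) (nat_lit 119) (.e (nat_lit 516166) (nat_lit 12) (.e (nat_lit 450563) (nat_lit 0) .nil)))) .nil)) 
(.lf (nat_lit 14816) (.g (nat_lit 2739) (.e (nat_lit 1074) (nat_lit 81) (.e (nat_lit 1796) (nat_lit 119) (.e (nat_lit 516175) (nat_lit 14) (.e (nat_lit 466977) (nat_lit 22) (.e (nat_lit 196677) (nat_lit 16) (.e (nat_lit 123080) (nat_lit 177) (.e (nat_lit 57890) (nat_lit 270) .nil))))))) (.g (nat_lit 0) .nil .nil)))) (.nd (nat_lit 5) 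
(.lf (nat_lit 14800) (.g (nat_lit 1398) (.e (nat_lit 1074) (nat_lit 81) (.e (nat_lit 1796) (nat_lit 119) (.e (nat_lit 516175) (nat_lit 14) (.e (nat_lit 466967) (nat_lit 20) (.e (nat_lit 3266) (nat_lit 199) (.e (nat_lit 548914) (nat_lit 19) (.e (nat_lit 180276) (nat_lit 32) .nil))))))) (.g (nat_lit 6) .nil .nil))) 
(.lf (nat_lit 14832) (.g (nat_lit 2458) (.e (nat_lit 1074) (nat_lit 81) (.e (nat_lit 4490) (nat_lit 263) (.e (nat_lit 1294) (nat_lit 96) (.e (nat_lit 131094) (nat_lit 2) (.e (nat_lit 90176) (nat_lit 15) (.e (nat_lit 188450) (nat_lit 23) (.e (nat_lit 204821) (nat_lit 17) .nil))))))) (.g (nat_lit 7) .nil .nil))))) (.nd (nat_lit 4) (.nd (nat_lit 5) 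
(.lf (nat_lit 14792) (.g (nat_lit 1848) (.e (nat_lit 1074) (nat_lit 81) (.e (nat_lit 1796) (nat_lit 119) (.e (nat_lit 516174) (nat_lit 14) (.e (nat_lit 466947) (nat_lit 0) (.e (nat_lit 1856) (nat_lit 124) (.e (nat_lit 557105) (nat_lit 14) (.e (nat_lit 180275) (nat_lit 32) .nil))))))) (.g (nat_lit 4) .nil .nil))) 
(.lf (nat_lit 14824) (.g (nat_lit 2783) (.e (nat_lit 1074) (nat_lit 81) (.e (nat_lit 1796) (nat_lit 119) (.e (nat_lit 516185) (nat_lit 16) (.e (nat_lit 491558) (nat_lit 10) (.e (nat_lit 344119) (nat_lit 21) (.e (nat_lit 516139) (nat_lit 7) (.e (nat_lit 409616) (nat_lit 10) (.e (nat_lit 5355) (nat_lit 298) .nil)))))))) (.g (nat_lit 4) .nil .nil)))) (.nd (nat_lit 5) 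
(.lf (nat_lit 14808) (.g (nat_lit 1367) (.e (nat_lit 1074) (nat_lit 81) (.e (nat_lit 1796) (nat_lit 119) (.e (nat_lit 516175) (nat_lit 14) (.e (nat_lit 466976) (nat_lit 22) (.e (nat_lit 196628) (nat_lit 9) (.e (nat_lit 968) (nat_lit 81) (.e (nat_lit 6713) (nat_lit 360) (.e (nat_lit 164235) (nat_lit 187) .nil)))))))) (.g (nat_lit 5) .nil .nil))) 
(.lf (nat_lit 14840) (.g (nat_lit 1457) (.e (nat_lit 1074) (nat_lit 81) (.e (nat_lit 5270) (nat_lit 298) (.e (nat_lit 1256) (nat_lit 92) (.e (nat_lit 98372) (nat_lit 29) (.e (nat_lit 450579) (nat_lit 5) (.e (nat_lit 532484) (nat_lit 0) (.e (nat_lit 6157) (nat_lit 332) .nil))))))) (.g (nat_lit 4) .nil .nil)))))) (.nd (nat_lit 3) (.nd (nat_lit 4) (.nd (nat_lit 5) 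
(.lf (nat_lit 14788) (.g (nat_lit 1946) (.e (nat_lit 1074) (nat_lit 81) (.e (nat_lit 1796) (nat_lit 119) (.e (nat_lit 516166) (nat_lit 12) (.e (nat_lit 450583) (nat_lit 7) (.e (nat_lit 548914) (nat_lit 19) (.e (nat_lit 180275) (nat_lit 32) .nil)))))) (.g (nat_lit 5) .nil .nil))) 
(.lf (nat_lit 14820) (.g (nat_lit 3057) (.e (nat_lit 1074) (nat_lit 81) (.e (nat_lit 1796) (nat_lit 119) (.e (nat_lit 516185) (nat_lit 16) (.e (nat_lit 491526) (nat_lit 0) (.e (nat_lit 2006) (nat_lit 138) (.e (nat_lit 671759) (nat_lit 3) (.e (nat_lit 57479) (nat_lit 28) (.e (nat_lit 557103) (nat_lit 14) (.e (nat_lit 180276) (nat_lit 32) .nil))))))))) (.g (nat_lit 5) .nil .nil)))) (.nd (nat_lit 5) 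
(.lf (nat_lit 14804) (.g (nat_lit 1123) (.e (nat_lit 1074) (nat_lit 81) (.e (nat_lit 1796) (nat_lit 119) (.e (nat_lit 516175) (nat_lit 14) (.e (nat_lit 466976) (nat_lit 22) (.e (nat_lit 196628) (nat_lit 9) (.e (nat_lit 968) (nat_lit 81) (.e (nat_lit 6711) (nat_lit 360) (.e (nat_lit 164234) (nat_lit 187) .nil)))))))) (.g (nat_lit 4) .nil .nil))) 
(.lf (nat_lit 14836) (.g (nat_lit 5152) (.e (nat_lit 1074) (nat_lit 81) (.e (nat_lit 5270) (nat_lit 298) (.e (nat_lit 1239) (nat_lit 91) (.e (nat_lit 90170) (nat_lit 13) (.e (nat_lit 172106) (nat_lit 10) (.e (nat_lit 434231) (nat_lit 23) (.e (nat_lit 532490) (nat_lit 0) (.e (nat_lit 6114) (nat_lit 332) .nil)))))))) (.g (nat_lit 8) .nil .nil))))) (.nd (nat_lit 4) (.nd (nat_lit 5) 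
(.lf (nat_lit 14796) (.g (nat_lit 2201) (.e (nat_lit 1074) (nat_lit 81) (.e (nat_lit 1796) (nat_lit 119) (.e (nat_lit 516175) (nat_lit 14) (.e (nat_lit 466947) (nat_lit 0) (.e (nat_lit 1856) (nat_lit 124) (.e (nat_lit 557105) (nat_lit 14) (.e (nat_lit 180275) (nat_lit 32) .nil))))))) (.g (nat_lit 6) .nil .nil))) 
(.lf (nat_lit 14828) (.g (nat_lit 4411) (.e (nat_lit 1074) (nat_lit 81) (.e (nat_lit 1796) (nat_lit 119) (.e (nat_lit 516185) (nat_lit 16) (.e (nat_lit 491560) (nat_lit 10) (.e (nat_lit 344118) (nat_lit 21) (.e (nat_lit 516139) (nat_lit 7) (.e (nat_lit 409617) (nat_lit 10) (.e (nat_lit 5353) (nat_lit 298) .nil)))))))) (.g (nat_lit 0) .nil .nil)))) (.nd (nat_lit 5) 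
(.lf (nat_lit 14812) (.g (nat_lit 1177) (.e (nat_lit 1074) (nat_lit 81) (.e (nat_lit 1796) (nat_lit 119) (.e (nat_lit 516175) (nat_lit 14) (.e (nat_lit 466976) (nat_lit 22) (.e (nat_lit 196628) (nat_lit 9) (.e (nat_lit 970) (nat_lit 81) (.e (nat_lit 6713) (nat_lit 360) (.e (nat_lit 164234) (nat_lit 187) .nil)))))))) (.g (nat_lit 5) .nil .nil))) 
(.lf (nat_lit 14844) (.g (nat_lit 2867) (.e (nat_lit 1074) (nat_lit 81) (.e (nat_lit 5293) (nat_lit 298) (.e (nat_lit 1656) (nat_lit 115) (.e (nat_lit 393301) (nat_lit 27) (.e (nat_lit 491563) (nat_lit 12) (.e (nat_lit 392960) (nat_lit 16) .nil)))))) (.g (nat_lit 5) .nil .nil))))))) (.nd (nat_lit 2) (.nd (nat_lit 3) (.nd (nat_lit 4) (.nd (nat_lit 5) 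
(.lf (nat_lit 14786) (.g (nat_lit 3481) (.e (nat_lit 1074) (nat_lit 81) (.e (nat_lit 1796) (nat_lit 119) (.e (nat_lit 516166) (nat_lit 12) (.e (nat_lit 450563) (nat_lit 0) (.e (nat_lit 6420) (nat_lit 341) (.e (nat_lit 163885) (nat_lit 5) (.e (nat_lit 221219) (nat_lit 24) (.e (nat_lit 212992) (nat_lit 0) .nil)))))))) (.g (nat_lit 6) .nil .nil))) 
(.lf (nat_lit 14818) (.g (nat_lit 1712) (.e (nat_lit 1074) (nat_lit 81) (.e (nat_lit 1796) (nat_lit 119) (.e (nat_lit 516176) (nat_lit 14) (.e (nat_lit 466947) (nat_lit 0) (.e (nat_lit 1856) (nat_lit 124) (.e (nat_lit 557105) (nat_lit 14) (.e (nat_lit 180275) (nat_lit 32) .nil))))))) (.g (nat_lit 4) .nil .nil)))) (.nd (nat_lit 5) 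
(.lf (nat_lit 14802) (.g (nat_lit 1162) (.e (nat_lit 1074) (nat_lit 81) (.e (nat_lit 1796) (nat_lit 119) (.e (nat_lit 516175) (nat_lit 14) (.e (nat_lit 466976) (nat_lit 22) (.e (nat_lit 196628) (nat_lit 9) (.e (nat_lit 968) (nat_lit 81) (.e (nat_lit 6710) (nat_lit 360) (.e (nat_lit 164236) (nat_lit 187) .nil)))))))) (.g (nat_lit 4) .nil .nil))) 
(.lf (nat_lit 14834) (.g (nat_lit 5084) (.e (nat_lit 1074) (nat_lit 81) (.e (nat_lit 5270) (nat_lit 298) (.e (nat_lit 1239) (nat_lit 91) (.e (nat_lit 90170) (nat_lit 13) (.e (nat_lit 172106) (nat_lit 10) (.e (nat_lit 434231) (nat_lit 23) (.e (nat_lit 532483) (nat_lit 0) (.e (nat_lit 6198) (nat_lit 332) .nil)))))))) (.g (nat_lit 8) .nil .nil))))) (.nd (nat_lit 4) (.nd (nat_lit 5) 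
(.lf (nat_lit 14794) (.g (nat_lit 227) (.e (nat_lit 1074) (nat_lit 81) (.e (nat_lit 1796) (nat_lit 119) (.e (nat_lit 516175) (nat_lit 14) .nil))) .nil)) 
(.lf (nat_lit 14826) (.g (nat_lit 2859) (.e (nat_lit 1074) (nat_lit 81) (.e (nat_lit 1796) (nat_lit 119) (.e (nat_lit 516185) (nat_lit 16) (.e (nat_lit 491558) (nat_lit 10) (.e (nat_lit 344119) (nat_lit 21) (.e (nat_lit 516139) (nat_lit 7) (.e (nat_lit 409617) (nat_lit 10) (.e (nat_lit 5355) (nat_lit 298) .nil)))))))) (.g (nat_lit 5) .nil .nil)))) (.nd (nat_lit 5) 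
(.lf (nat_lit 14810) (.g (nat_lit 1087) (.e (nat_lit 1074) (nat_lit 81) (.e (nat_lit 1796) (nat_lit 119) (.e (nat_lit 516175) (nat_lit 14) (.e (nat_lit 466976) (nat_lit 22) (.e (nat_lit 196628) (nat_lit 9) (.e (nat_lit 970) (nat_lit 81) (.e (nat_lit 6711) (nat_lit 360) (.e (nat_lit 164234) (nat_lit 187) .nil)))))))) (.g (nat_lit 4) .nil .nil))) 
(.lf (nat_lit 14842) (.g (nat_lit 1456) (.e (nat_lit 1074) (nat_lit 81) (.e (nat_lit 5293) (nat_lit 298) (.e (nat_lit 1250) (nat_lit 92) (.e (nat_lit 98372) (nat_lit 29) .nil)))) .nil))))) (.nd (nat_lit 3) (.nd (nat_lit 4) (.nd (nat_lit 5) 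
(.lf (nat_lit 14790) (.g (nat_lit 3837) (.e (nat_lit 1074) (nat_lit 81) (.e (nat_lit 1796) (nat_lit 119) (.e (nat_lit 516166) (nat_lit 12) (.e (nat_lit 450588) (nat_lit 10) (.e (nat_lit 573471) (nat_lit 11) (.e (nat_lit 16396) (nat_lit 0) (.e (nat_lit 7550) (nat_lit 402) .nil))))))) (.g (nat_lit 6) .nil .nil))) 
(.lf (nat_lit 14822) (.g (nat_lit 4024) (.e (nat_lit 1074) (nat_lit 81) (.e (nat_lit 1796) (nat_lit 119) (.e (nat_lit 516185) (nat_lit 16) (.e (nat_lit 491552) (nat_lit 9) (.e (nat_lit 336024) (nat_lit 3) (.e (nat_lit 98350) (nat_lit 24) (.e (nat_lit 409617) (nat_lit 10) (.e (nat_lit 5353) (nat_lit 298) .nil)))))))) (.g (nat_lit 7) .nil .nil)))) (.nd (nat_lit 5) 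
(.lf (nat_lit 14806) (.g (nat_lit 1645) (.e (nat_lit 1074) (nat_lit 81) (.e (nat_lit 1796) (nat_lit 119) (.e (nat_lit 516175) (nat_lit 14) (.e (nat_lit 466976) (nat_lit 22) (.e (nat_lit 196628) (nat_lit 9) (.e (nat_lit 968) (nat_lit 81) (.e (nat_lit 6711) (nat_lit 360) (.e (nat_lit 164237) (nat_lit 187) .nil)))))))) (.g (nat_lit 6) .nil .nil))) 
(.lf (nat_lit 14838) (.g (nat_lit 2411) (.e (nat_lit 1074) (nat_lit 81) (.e (nat_lit 5270) (nat_lit 298) (.e (nat_lit 1239) (nat_lit 91) (.e (nat_lit 90170) (nat_lit 13) (.e (nat_lit 172113) (nat_lit 10) (.e (nat_lit 434245) (nat_lit 28) (.e (nat_lit 573468) (nat_lit 10) (.e (nat_lit 8493) (nat_lit 180) .nil)))))))) (.g (nat_lit 4) .nil .nil))))) (.nd (nat_lit 4) (.nd (nat_lit 5) 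
(.lf (nat_lit 14798) (.g (nat_lit 2093) (.e (nat_lit 1074) (nat_lit 81) (.e (nat_lit 1796) (nat_lit 119) (.e (nat_lit 516175) (nat_lit 14) (.e (nat_lit 474880) (nat_lit 0) (.e (nat_lit 1853) (nat_lit 124) (.e (nat_lit 557103) (nat_lit 14) (.e (nat_lit 180276) (nat_lit 32) .nil))))))) (.g (nat_lit 6) .nil .nil))) 
(.lf (nat_lit 14830) (.g (nat_lit 2286) (.e (nat_lit 1074) (nat_lit 81) (.e (nat_lit 1853) (nat_lit 124) (.e (nat_lit 557100) (nat_lit 13) (.e (nat_lit 172106) (nat_lit 10) (.e (nat_lit 434231) (nat_lit 23) .nil))))) .nil))) (.nd (nat_lit 5) 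
(.lf (nat_lit 14814) (.g (nat_lit 1442) (.e (nat_lit 1074) (nat_lit 81) (.e (nat_lit 1796) (nat_lit 119) (.e (nat_lit 516175) (nat_lit 14) (.e (nat_lit 466976) (nat_lit 22) (.e (nat_lit 196628) (nat_lit 9) (.e (nat_lit 970) (nat_lit 81) (.e (nat_lit 6713) (nat_lit 360) (.e (nat_lit 164237) (nat_lit 187) .nil)))))))) (.g (nat_lit 5) .nil .nil))) 
(.lf (nat_lit 14846) (.g (nat_lit 2003) (.e (nat_lit 1075) (nat_lit 81) (.e (nat_lit 1633) (nat_lit 114) (.e (nat_lit 385068) (nat_lit 26) (.e (nat_lit 532533) (nat_lit 9) (.e (nat_lit 336211) (nat_lit 13) (.e (nat_lit 393251) (nat_lit 18) (.e (nat_lit 164156) (nat_lit 152) .nil))))))) (.g (nat_lit 5) .nil .nil)))))))) 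
(.nd (nat_lit 1) (.nd (nat_lit 2) (.nd (nat_lit 3) (.nd (nat_lit 4) (.nd (nat_lit 5) 
(.lf (nat_lit 14785) (.g (nat_lit 2189) (.e (nat_lit 1074) (nat_lit 81) (.e (nat_lit 1796) (nat_lit 119) (.e (nat_lit 516166) (nat_lit 12) (.e (nat_lit 450563) (nat_lit 0) (.e (nat_lit 6416) (nat_lit 341) (.e (nat_lit 163885) (nat_lit 5) (.e (nat_lit 221219) (nat_lit 24) (.e (nat_lit 212992) (nat_lit 0) .nil)))))))) (.g (nat_lit 4) .nil .nil))) 
(.lf (nat_lit 14817) (.g (nat_lit 3017) (.e (nat_lit 1074) (nat_lit 81) (.e (nat_lit 1796) (nat_lit 119) (.e (nat_lit 516175) (nat_lit 14) (.e (nat_lit 466977) (nat_lit 22) (.e (nat_lit 196677) (nat_lit 16) (.e (nat_lit 123080) (nat_lit 177) (.e (nat_lit 57891) (nat_lit 270) .nil))))))) (.g (nat_lit 0) .nil .nil)))) (.nd (nat_lit 5) 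
(.lf (nat_lit 14801) (.g (nat_lit 1123) (.e (nat_lit 1074) (nat_lit 81) (.e (nat_lit 1796) (nat_lit 119) (.e (nat_lit 516175) (nat_lit 14) (.e (nat_lit 466976) (nat_lit 22) (.e (nat_lit 196628) (nat_lit 9) (.e (nat_lit 968) (nat_lit 81) (.e (nat_lit 6709) (nat_lit 360) (.e (nat_lit 164236) (nat_lit 187) .nil)))))))) (.g (nat_lit 4) .nil .nil))) 
(.lf (nat_lit 14833) (.g (nat_lit 1903) (.e (nat_lit 1074) (nat_lit 81) (.e (nat_lit 5270) (nat_lit 298) (.e (nat_lit 1239) (nat_lit 91) (.e (nat_lit 90170) (nat_lit 13) (.e (nat_lit 172106) (nat_lit 10) .nil))))) .nil)))) (.nd (nat_lit 4) (.nd (nat_lit 5) 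
(.lf (nat_lit 14793) (.g (nat_lit 1544) (.e (nat_lit 1074) (nat_lit 81) (.e (nat_lit 1796) (nat_lit 119) (.e (nat_lit 516174) (nat_lit 14) (.e (nat_lit 474880) (nat_lit 0) (.e (nat_lit 1849) (nat_lit 124) (.e (nat_lit 557103) (nat_lit 14) (.e (nat_lit 180276) (nat_lit 32) .nil))))))) (.g (nat_lit 5) .nil .nil))) 
(.lf (nat_lit 14825) (.g (nat_lit 4903) (.e (nat_lit 1074) (nat_lit 81) (.e (nat_lit 1796) (nat_lit 119) (.e (nat_lit 516185) (nat_lit 16) (.e (nat_lit 491558) (nat_lit 10) (.e (nat_lit 344119) (nat_lit 21) (.e (nat_lit 516139) (nat_lit 7) (.e (nat_lit 409617) (nat_lit 10) (.e (nat_lit 5353) (nat_lit 298) .nil)))))))) (.g (nat_lit 8) .nil .nil)))) (.nd (nat_lit 5) 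
(.lf (nat_lit 14809) (.g (nat_lit 1450) (.e (nat_lit 1074) (nat_lit 81) (.e (nat_lit 1796) (nat_lit 119) (.e (nat_lit 516175) (nat_lit 14) (.e (nat_lit 466976) (nat_lit 22) (.e (nat_lit 196628) (nat_lit 9) (.e (nat_lit 968) (nat_lit 81) (.e (nat_lit 6713) (nat_lit 360) (.e (nat_lit 164237) (nat_lit 187) .nil)))))))) (.g (nat_lit 5) .nil .nil))) 
(.lf (nat_lit 14841) (.g (nat_lit 2601) (.e (nat_lit 1074) (nat_lit 81) (.e (nat_lit 5270) (nat_lit 298) (.e (nat_lit 1256) (nat_lit 92) (.e (nat_lit 98372) (nat_lit 29) (.e (nat_lit 450579) (nat_lit 5) (.e (nat_lit 532484) (nat_lit 0) (.e (nat_lit 6198) (nat_lit 332) .nil))))))) (.g (nat_lit 7) .nil .nil)))))) (.nd (nat_lit 3) (.nd (nat_lit 4) (.nd (nat_lit 5) 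
(.lf (nat_lit 14789) (.g (nat_lit 3080) (.e (nat_lit 1074) (nat_lit 81) (.e (nat_lit 1796) (nat_lit 119) (.e (nat_lit 516166) (nat_lit 12) (.e (nat_lit 450588) (nat_lit 10) (.e (nat_lit 573450) (nat_lit 9) (.e (nat_lit 442) (nat_lit 33) (.e (nat_lit 434178) (nat_lit 0) .nil))))))) (.g (nat_lit 6) .nil .nil))) 
(.lf (nat_lit 14821) (.g (nat_lit 5084) (.e (nat_lit 1074) (nat_lit 81) (.e (nat_lit 1796) (nat_lit 119) (.e (nat_lit 516185) (nat_lit 16) (.e (nat_lit 491546) (nat_lit 9) (.e (nat_lit 336028) (nat_lit 3) (.e (nat_lit 98350) (nat_lit 24) (.e (nat_lit 409617) (nat_lit 10) (.e (nat_lit 5353) (nat_lit 298) .nil)))))))) (.g (nat_lit 8) .nil .nil)))) (.nd (nat_lit 5) 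
(.lf (nat_lit 14805) (.g (nat_lit 1162) (.e (nat_lit 1074) (nat_lit 81) (.e (nat_lit 1796) (nat_lit 119) (.e (nat_lit 516175) (nat_lit 14) (.e (nat_lit 466976) (nat_lit 22) (.e (nat_lit 196628) (nat_lit 9) (.e (nat_lit 968) (nat_lit 81) (.e (nat_lit 6711) (nat_lit 360) (.e (nat_lit 164235) (nat_lit 187) .nil)))))))) (.g (nat_lit 4) .nil .nil))) 
(.lf (nat_lit 14837) (.g (nat_lit 3875) (.e (nat_lit 1074) (nat_lit 81) (.e (nat_lit 5270) (nat_lit 298) (.e (nat_lit 1239) (nat_lit 91) (.e (nat_lit 90170) (nat_lit 13) (.e (nat_lit 172113) (nat_lit 10) (.e (nat_lit 434245) (nat_lit 28) (.e (nat_lit 573468) (nat_lit 10) (.e (nat_lit 8492) (nat_lit 180) .nil)))))))) (.g (nat_lit 6) .nil .nil))))) (.nd (nat_lit 4) (.nd (nat_lit 5) 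
(.lf (nat_lit 14797) (.g (nat_lit 1779) (.e (nat_lit 1074) (nat_lit 81) (.e (nat_lit 1796) (nat_lit 119) (.e (nat_lit 516175) (nat_lit 14) (.e (nat_lit 474880) (nat_lit 0) (.e (nat_lit 1848) (nat_lit 124) (.e (nat_lit 557103) (nat_lit 14) (.e (nat_lit 180276) (nat_lit 32) .nil))))))) (.g (nat_lit 6) .nil .nil))) 
(.lf (nat_lit 14829) (.g (nat_lit 546) (.e (nat_lit 1074) (nat_lit 81) (.e (nat_lit 1853) (nat_lit 124) (.e (nat_lit 557087) (nat_lit 11) .nil))) .nil))) (.nd (nat_lit 5) 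
(.lf (nat_lit 14813) (.g (nat_lit 1306) (.e (nat_lit 1074) (nat_lit 81) (.e (nat_lit 1796) (nat_lit 119) (.e (nat_lit 516175) (nat_lit 14) (.e (nat_lit 466976) (nat_lit 22) (.e (nat_lit 196628) (nat_lit 9) (.e (nat_lit 970) (nat_lit 81) (.e (nat_lit 6713) (nat_lit 360) (.e (nat_lit 164235) (nat_lit 187) .nil)))))))) (.g (nat_lit 5) .nil .nil))) 
(.lf (nat_lit 14845) (.g (nat_lit 1646) (.e (nat_lit 1074) (nat_lit 81) (.e (nat_lit 5394) (nat_lit 301) (.e (nat_lit 57464) (nat_lit 23) (.e (nat_lit 516165) (nat_lit 12) (.e (nat_lit 450579) (nat_lit 5) (.e (nat_lit 532489) (nat_lit 0) (.e (nat_lit 6198) (nat_lit 332) .nil))))))) (.g (nat_lit 5) .nil .nil))))))) (.nd (nat_lit 2) (.nd (nat_lit 3) (.nd (nat_lit 4) (.nd (nat_lit 5) 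
(.lf (nat_lit 14787) (.g (nat_lit 1031) (.e (nat_lit 1074) (nat_lit 81) (.e (nat_lit 1796) (nat_lit 119) (.e (nat_lit 516166) (nat_lit 12) (.e (nat_lit 450579) (nat_lit 5) .nil)))) .nil)) 
(.lf (nat_lit 14819) (.g (nat_lit 246) (.e (nat_lit 1074) (nat_lit 81) (.e (nat_lit 1796) (nat_lit 119) (.e (nat_lit 516177) (nat_lit 14) .nil))) .nil))) (.nd (nat_lit 5) 
(.lf (nat_lit 14803) (.g (nat_lit 1367) (.e (nat_lit 1074) (nat_lit 81) (.e (nat_lit 1796) (nat_lit 119) (.e (nat_lit 516175) (nat_lit 14) (.e (nat_lit 466976) (nat_lit 22) (.e (nat_lit 196628) (nat_lit 9) (.e (nat_lit 968) (nat_lit 81) (.e (nat_lit 6710) (nat_lit 360) (.e (nat_lit 164237) (nat_lit 187) .nil)))))))) (.g (nat_lit 5) .nil .nil))) 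
(.lf (nat_lit 14835) (.g (nat_lit 2631) (.e (nat_lit 1074) (nat_lit 81) (.e (nat_lit 5270) (nat_lit 298) (.e (nat_lit 1239) (nat_lit 91) (.e (nat_lit 90170) (nat_lit 13) (.e (nat_lit 172106) (nat_lit 10) (.e (nat_lit 434231) (nat_lit 23) (.e (nat_lit 532490) (nat_lit 0) (.e (nat_lit 6092) (nat_lit 332) .nil)))))))) (.g (nat_lit 5) .nil .nil))))) (.nd (nat_lit 4) (.nd (nat_lit 5) 
(.lf (nat_lit 14795) (.g (nat_lit 3023) (.e (nat_lit 1074) (nat_lit 81) (.e (nat_lit 1796) (nat_lit 119) (.e (nat_lit 516175) (nat_lit 14) (.e (nat_lit 466947) (nat_lit 0) (.e (nat_lit 1855) (nat_lit 124) (.e (nat_lit 557103) (nat_lit 14) (.e (nat_lit 180276) (nat_lit 32) .nil))))))) (.g (nat_lit 6) .nil .nil))) 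
(.lf (nat_lit 14827) (.g (nat_lit 4244) (.e (nat_lit 1074) (nat_lit 81) (.e (nat_lit 1796) (nat_lit 119) (.e (nat_lit 516185) (nat_lit 16) (.e (nat_lit 491560) (nat_lit 10) (.e (nat_lit 344118) (nat_lit 21) (.e (nat_lit 516139) (nat_lit 7) (.e (nat_lit 409616) (nat_lit 10) (.e (nat_lit 5353) (nat_lit 298) .nil)))))))) (.g (nat_lit 8) .nil .nil)))) (.nd (nat_lit 5) 
(.lf (nat_lit 14811) (.g (nat_lit 1126) (.e (nat_lit 1074) (nat_lit 81) (.e (nat_lit 1796) (nat_lit 119) (.e (nat_lit 516175) (nat_lit 14) (.e (nat_lit 466976) (nat_lit 22) (.e (nat_lit 196628) (nat_lit 9) (.e (nat_lit 970) (nat_lit 81) (.e (nat_lit 6711) (nat_lit 360) (.e (nat_lit 164235) (nat_lit 187) .nil)))))))) (.g (nat_lit 4) .nil .nil))) 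
(.lf (nat_lit 14843) (.g (nat_lit 2186) (.e (nat_lit 1074) (nat_lit 81) (.e (nat_lit 5293) (nat_lit 298) (.e (nat_lit 1250) (nat_lit 92) (.e (nat_lit 98372) (nat_lit 29) (.e (nat_lit 450579) (nat_lit 5) (.e (nat_lit 532484) (nat_lit 0) (.e (nat_lit 6198) (nat_lit 332) .nil))))))) (.g (nat_lit 4) .nil .nil)))))) (.nd (nat_lit 3) (.nd (nat_lit 4) (.nd (nat_lit 5) 
(.lf (nat_lit 14791) (.g (nat_lit 1692) (.e (nat_lit 1074) (nat_lit 81) (.e (nat_lit 1796) (nat_lit 119) (.e (nat_lit 516170) (nat_lit 13) (.e (nat_lit 466688) (nat_lit 0) (.e (nat_lit 1227) (nat_lit 91) (.e (nat_lit 90172) (nat_lit 14) (.e (nat_lit 180276) (nat_lit 32) .nil))))))) (.g (nat_lit 6) .nil .nil))) 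
(.lf (nat_lit 14823) (.g (nat_lit 4145) (.e (nat_lit 1074) (nat_lit 81) (.e (nat_lit 1796) (nat_lit 119) (.e (nat_lit 516185) (nat_lit 16) (.e (nat_lit 491556) (nat_lit 9) (.e (nat_lit 336017) (nat_lit 3) (.e (nat_lit 98350) (nat_lit 24) (.e (nat_lit 409617) (nat_lit 10) (.e (nat_lit 5353) (nat_lit 298) .nil)))))))) (.g (nat_lit 7) .nil .nil)))) (.nd (nat_lit 5) 
(.lf (nat_lit 14807) (.g (nat_lit 1238) (.e (nat_lit 1074) (nat_lit 81) (.e (nat_lit 1796) (nat_lit 119) (.e (nat_lit 516175) (nat_lit 14) (.e (nat_lit 466976) (nat_lit 22) (.e (nat_lit 196628) (nat_lit 9) (.e (nat_lit 968) (nat_lit 81) (.e (nat_lit 6713) (nat_lit 360) (.e (nat_lit 164234) (nat_lit 187) .nil)))))))) (.g (nat_lit 5) .nil .nil))) 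
(.lf (nat_lit 14839) (.g (nat_lit 3130) (.e (nat_lit 1074) (nat_lit 81) (.e (nat_lit 5270) (nat_lit 298) (.e (nat_lit 1239) (nat_lit 91) (.e (nat_lit 90170) (nat_lit 13) (.e (nat_lit 172115) (nat_lit 10) .nil))))) .nil)))) (.nd (nat_lit 4) (.nd (nat_lit 5) 
(.lf (nat_lit 14799) (.g (nat_lit 1152) (.e (nat_lit 1074) (nat_lit 81) (.e (nat_lit 1796) (nat_lit 119) (.e (nat_lit 516175) (nat_lit 14) (.e (nat_lit 466967) (nat_lit 20) (.e (nat_lit 3266) (nat_lit 199) (.e (nat_lit 548914) (nat_lit 19) (.e (nat_lit 180275) (nat_lit 32) .nil))))))) (.g (nat_lit 5) .nil .nil))) 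
(.lf (nat_lit 14831) (.g (nat_lit 1999) (.e (nat_lit 1074) (nat_lit 81) (.e (nat_lit 1853) (nat_lit 124) (.e (nat_lit 557108) (nat_lit 15) (.e (nat_lit 188452) (nat_lit 23) (.e (nat_lit 204863) (nat_lit 27) .nil))))) .nil))) (.nd (nat_lit 5) 
(.lf (nat_lit 14815) (.g (nat_lit 1972) (.e (nat_lit 1074) (nat_lit 81) (.e (nat_lit 1796) (nat_lit 119) (.e (nat_lit 516175) (nat_lit 14) (.e (nat_lit 466977) (nat_lit 22) (.e (nat_lit 196677) (nat_lit 16) (.e (nat_lit 123080) (nat_lit 177) (.e (nat_lit 57889) (nat_lit 270) .nil))))))) (.g (nat_lit 5) .nil .nil))) 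
(.lf (nat_lit 14847) (.g (nat_lit 2571) (.e (nat_lit 1075) (nat_lit 81) (.e (nat_lit 1633) (nat_lit 114) (.e (nat_lit 385068) (nat_lit 26) (.e (nat_lit 532534) (nat_lit 9) (.e (nat_lit 336211) (nat_lit 13) (.e (nat_lit 393251) (nat_lit 18) (.e (nat_lit 164156) (nat_lit 152) .nil))))))) (.g (nat_lit 5) .nil .nil)))))))))

noncomputable def tv206 : DT := (.nd (nat_lit 0) (.nd (nat_lit 1) (.nd (nat_lit 2) (.nd (nat_lit 3) (.nd (nat_lit 4) (.nd (nat_lit 5) 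
(.lf (nat_lit 14848) (.g (nat_lit 2294) (.e (nat_lit 1075) (nat_lit 81) (.e (nat_lit 1633) (nat_lit 114) (.e (nat_lit 385068) (nat_lit 26) (.e (nat_lit 532558) (nat_lit 14) (.e (nat_lit 376842) (nat_lit 11) (.e (nat_lit 426098) (nat_lit 1) (.e (nat_lit 164156) (nat_lit 152) .nil))))))) (.g (nat_lit 4) .nil .nil))) 
(.lf (nat_lit 14880) (.g (nat_lit 2669) (.e (nat_lit 1077) (nat_lit 81) (.e (nat_lit 1454) (nat_lit 108) (.e (nat_lit 336061) (nat_lit 7) (.e (nat_lit 319531) (nat_lit 16) (.e (nat_lit 286759) (nat_lit 12) (.e (nat_lit 385107) (nat_lit 51) (.e (nat_lit 794659) (nat_lit 21) (.e (nat_lit 164227) (nat_lit 181) .nil)))))))) (.g (nat_lit 4) .nil .nil)))) (.nd (nat_lit 5) 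
(.lf (nat_lit 14864) (.g (nat_lit 2993) (.e (nat_lit 1077) (nat_lit 81) (.e (nat_lit 1176) (nat_lit 87) (.e (nat_lit 57849) (nat_lit 252) (.e (nat_lit 57437) (nat_lit 17) (.e (nat_lit 376842) (nat_lit 11) (.e (nat_lit 426296) (nat_lit 11) (.e (nat_lit 458772) (nat_lit 18) (.e (nat_lit 5537) (nat_lit 306) .nil)))))))) (.g (nat_lit 6) .nil .nil))) 
(.lf (nat_lit 14896) (.g (nat_lit 2877) (.e (nat_lit 1077) (nat_lit 81) (.e (nat_lit 1656) (nat_lit 115) (.e (nat_lit 393251) (nat_lit 18) (.e (nat_lit 164325) (nat_lit 230) (.e (nat_lit 163864) (nat_lit 1) (.e (nat_lit 164332) (nat_lit 230) (.e (nat_lit 163885) (nat_lit 5) (.e (nat_lit 221207) (nat_lit 21) (.e (nat_lit 164222) (nat_lit 181) .nil))))))))) (.g (nat_lit 5) .nil .nil))))) 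
(.nd (nat_lit 4) (.nd (nat_lit 5) 
(.lf (nat_lit 14856) (.g (nat_lit 1625) (.e (nat_lit 1076) (nat_lit 81) (.e (nat_lit 1633) (nat_lit 114) (.e (nat_lit 385068) (nat_lit 26) (.e (nat_lit 532533) (nat_lit 9) (.e (nat_lit 336211) (nat_lit 13) .nil))))) .nil)) 
(.lf (nat_lit 14888) (.g (nat_lit 2370) (.e (nat_lit 1077) (nat_lit 81) (.e (nat_lit 1633) (nat_lit 114) (.e (nat_lit 385068) (nat_lit 26) (.e (nat_lit 532555) (nat_lit 13) (.e (nat_lit 368676) (nat_lit 21) .nil))))) .nil))) (.nd (nat_lit 5) 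
(.lf (nat_lit 14872) (.g (nat_lit 5479) (.e (nat_lit 1077) (nat_lit 81) (.e (nat_lit 1435) (nat_lit 108) (.e (nat_lit 336060) (nat_lit 7) (.e (nat_lit 319534) (nat_lit 16) (.e (nat_lit 286756) (nat_lit 10) (.e (nat_lit 344160) (nat_lit 37) (.e (nat_lit 647195) (nat_lit 9) (.e (nat_lit 1181) (nat_lit 87) (.e (nat_lit 57666) (nat_lit 152) .nil))))))))) (.g (nat_lit 9) .nil .nil))) 
(.lf (nat_lit 14904) (.g (nat_lit 3161) (.e (nat_lit 1077) (nat_lit 81) (.e (nat_lit 1796) (nat_lit 119) (.e (nat_lit 516098) (nat_lit 0) (.e (nat_lit 7065) (nat_lit 377) (.e (nat_lit 1349) (nat_lit 102) (.e (nat_lit 286733) (nat_lit 2) (.e (nat_lit 90173) (nat_lit 14) (.e (nat_lit 180275) (nat_lit 32) .nil)))))))) (.g (nat_lit 6) .nil .nil)))))) (.nd (nat_lit 3) (.nd (nat_lit 4) (.nd (nat_lit 5) 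
(.lf (nat_lit 14852) (.g (nat_lit 1869) (.e (nat_lit 1075) (nat_lit 81) (.e (nat_lit 5293) (nat_lit 298) (.e (nat_lit 1656) (nat_lit 115) (.e (nat_lit 393300) (nat_lit 27) (.e (nat_lit 499456) (nat_lit 9) (.e (nat_lit 336288) (nat_lit 15) (.e (nat_lit 6988) (nat_lit 377) .nil))))))) (.g (nat_lit 4) .nil .nil))) 
(.lf (nat_lit 14884) (.g (nat_lit 4457) (.e (nat_lit 1077) (nat_lit 81) (.e (nat_lit 1597) (nat_lit 111) (.e (nat_lit 360452) (nat_lit 0) (.e (nat_lit 7272) (nat_lit 385) (.e (nat_lit 122916) (nat_lit 14) (.e (nat_lit 352309) (nat_lit 21) (.e (nat_lit 57666) (nat_lit 152) .nil))))))) (.g (nat_lit 0) .nil .nil)))) (.nd (nat_lit 5) 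
(.lf (nat_lit 14868) (.g (nat_lit 937) (.e (nat_lit 1077) (nat_lit 81) (.e (nat_lit 1250) (nat_lit 92) (.e (nat_lit 98313) (nat_lit 9) (.e (nat_lit 336184) (nat_lit 11) .nil)))) .nil)) 
(.lf (nat_lit 14900) (.g (nat_lit 3631) (.e (nat_lit 1077) (nat_lit 81) (.e (nat_lit 1712) (nat_lit 117) (.e (nat_lit 499919) (nat_lit 9) (.e (nat_lit 172126) (nat_lit 14) (.e (nat_lit 491537) (nat_lit 2) (.e (nat_lit 90172) (nat_lit 14) (.e (nat_lit 180276) (nat_lit 32) .nil))))))) (.g (nat_lit 6) .nil .nil))))) (.nd (nat_lit 4) (.nd (nat_lit 5) 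
(.lf (nat_lit 14860) (.g (nat_lit 2008) (.e (nat_lit 1076) (nat_lit 81) (.e (nat_lit 5813) (nat_lit 320) (.e (nat_lit 1201) (nat_lit 88) (.e (nat_lit 65610) (nat_lit 10) (.e (nat_lit 344097) (nat_lit 18) .nil))))) .nil)) 
(.lf (nat_lit 14892) (.g (nat_lit 1499) (.e (nat_lit 1077) (nat_lit 81) (.e (nat_lit 1633) (nat_lit 114) (.e (nat_lit 385106) (nat_lit 50) (.e (nat_lit 786483) (nat_lit 30) .nil)))) .nil))) (.nd (nat_lit 5) 
(.lf (nat_lit 14876) (.g (nat_lit 4429) (.e (nat_lit 1077) (nat_lit 81) (.e (nat_lit 1454) (nat_lit 108) (.e (nat_lit 336060) (nat_lit 7) (.e (nat_lit 319533) (nat_lit 16) (.e (nat_lit 286753) (nat_lit 10) (.e (nat_lit 344160) (nat_lit 37) (.e (nat_lit 647195) (nat_lit 9) (.e (nat_lit 1181) (nat_lit 87) (.e (nat_lit 57666) (nat_lit 152) .nil))))))))) (.g (nat_lit 8) .nil .nil))) 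
(.lf (nat_lit 14908) (.g (nat_lit 3079) (.e (nat_lit 1077) (nat_lit 81) (.e (nat_lit 1796) (nat_lit 119) (.e (nat_lit 516102) (nat_lit 0) (.e (nat_lit 6989) (nat_lit 377) (.e (nat_lit 2777) (nat_lit 178) (.e (nat_lit 286735) (nat_lit 3) (.e (nat_lit 98350) (nat_lit 24) (.e (nat_lit 409616) (nat_lit 10) (.e (nat_lit 5353) (nat_lit 298) .nil))))))))) (.g (nat_lit 5) .nil .nil))))))) 
(.nd (nat_lit 2) (.nd (nat_lit 3) (.nd (nat_lit 4) (.nd (nat_lit 5) 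
(.lf (nat_lit 14850) (.g (nat_lit 4784) (.e (nat_lit 1075) (nat_lit 81) (.e (nat_lit 5293) (nat_lit 298) (.e (nat_lit 1232) (nat_lit 91) (.e (nat_lit 90170) (nat_lit 13) (.e (nat_lit 172106) (nat_lit 10) (.e (nat_lit 434231) (nat_lit 23) (.e (nat_lit 532490) (nat_lit 0) (.e (nat_lit 6114) (nat_lit 332) .nil)))))))) (.g (nat_lit 8) .nil .nil))) 
(.lf (nat_lit 14882) (.g (nat_lit 1855) (.e (nat_lit 1077) (nat_lit 81) (.e (nat_lit 1454) (nat_lit 108) (.e (nat_lit 336205) (nat_lit 12) (.e (nat_lit 385106) (nat_lit 50) (.e (nat_lit 786483) (nat_lit 30) .nil))))) .nil))) (.nd (nat_lit 5) 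
(.lf (nat_lit 14866) (.g (nat_lit 3166) (.e (nat_lit 1077) (nat_lit 81) (.e (nat_lit 1176) (nat_lit 87) (.e (nat_lit 57849) (nat_lit 252) (.e (nat_lit 57437) (nat_lit 17) (.e (nat_lit 376842) (nat_lit 11) (.e (nat_lit 426298) (nat_lit 11) (.e (nat_lit 458772) (nat_lit 18) (.e (nat_lit 5537) (nat_lit 306) .nil)))))))) (.g (nat_lit 6) .nil .nil))) 
(.lf (nat_lit 14898) (.g (nat_lit 2184) (.e (nat_lit 1077) (nat_lit 81) (.e (nat_lit 1656) (nat_lit 115) (.e (nat_lit 393300) (nat_lit 27) (.e (nat_lit 491549) (nat_lit 9) (.e (nat_lit 336425) (nat_lit 28) .nil))))) .nil)))) (.nd (nat_lit 4) (.nd (nat_lit 5) 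
(.lf (nat_lit 14858) (.g (nat_lit 1244) (.e (nat_lit 1076) (nat_lit 81) (.e (nat_lit 5664) (nat_lit 312) (.e (nat_lit 2605) (nat_lit 163) (.e (nat_lit 164327) (nat_lit 230) (.e (nat_lit 163884) (nat_lit 5) .nil))))) .nil)) 
(.lf (nat_lit 14890) (.g (nat_lit 3519) (.e (nat_lit 1077) (nat_lit 81) (.e (nat_lit 1633) (nat_lit 114) (.e (nat_lit 385074) (nat_lit 31) (.e (nat_lit 573484) (nat_lit 13) (.e (nat_lit 65610) (nat_lit 10) (.e (nat_lit 344117) (nat_lit 21) (.e (nat_lit 516116) (nat_lit 1) (.e (nat_lit 164412) (nat_lit 260) .nil)))))))) (.g (nat_lit 7) .nil .nil)))) (.nd (nat_lit 5) 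
(.lf (nat_lit 14874) (.g (nat_lit 4077) (.e (nat_lit 1077) (nat_lit 81) (.e (nat_lit 1448) (nat_lit 108) (.e (nat_lit 336013) (nat_lit 2) (.e (nat_lit 90170) (nat_lit 13) (.e (nat_lit 172106) (nat_lit 10) (.e (nat_lit 434244) (nat_lit 28) (.e (nat_lit 573451) (nat_lit 9) (.e (nat_lit 1177) (nat_lit 87) (.e (nat_lit 57666) (nat_lit 152) .nil))))))))) (.g (nat_lit 8) .nil .nil))) 
(.lf (nat_lit 14906) (.g (nat_lit 4589) (.e (nat_lit 1077) (nat_lit 81) (.e (nat_lit 1796) (nat_lit 119) (.e (nat_lit 516098) (nat_lit 0) (.e (nat_lit 7065) (nat_lit 377) (.e (nat_lit 1349) (nat_lit 102) (.e (nat_lit 286735) (nat_lit 3) (.e (nat_lit 98367) (nat_lit 27) (.e (nat_lit 434178) (nat_lit 0) .nil)))))))) (.g (nat_lit 8) .nil .nil)))))) (.nd (nat_lit 3) (.nd (nat_lit 4) (.nd (nat_lit 5) 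
(.lf (nat_lit 14854) (.g (nat_lit 2692) (.e (nat_lit 1075) (nat_lit 81) (.e (nat_lit 5293) (nat_lit 298) (.e (nat_lit 1656) (nat_lit 115) (.e (nat_lit 393301) (nat_lit 27) (.e (nat_lit 491563) (nat_lit 12) (.e (nat_lit 392960) (nat_lit 16) .nil)))))) (.g (nat_lit 5) .nil .nil))) 
(.lf (nat_lit 14886) (.g (nat_lit 3355) (.e (nat_lit 1077) (nat_lit 81) (.e (nat_lit 1633) (nat_lit 114) (.e (nat_lit 385068) (nat_lit 26) (.e (nat_lit 532530) (nat_lit 9) (.e (nat_lit 336019) (nat_lit 3) (.e (nat_lit 98342) (nat_lit 20) (.e (nat_lit 229120) (nat_lit 1) (.e (nat_lit 57623) (nat_lit 128) .nil)))))))) (.g (nat_lit 4) .nil .nil)))) (.nd (nat_lit 5) 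
(.lf (nat_lit 14870) (.g (nat_lit 3071) (.e (nat_lit 1077) (nat_lit 81) (.e (nat_lit 1413) (nat_lit 108) (.e (nat_lit 336013) (nat_lit 2) (.e (nat_lit 90170) (nat_lit 13) (.e (nat_lit 172106) (nat_lit 10) (.e (nat_lit 434244) (nat_lit 28) (.e (nat_lit 573451) (nat_lit 9) (.e (nat_lit 1177) (nat_lit 87) (.e (nat_lit 57666) (nat_lit 152) .nil))))))))) (.g (nat_lit 7) .nil .nil))) 
(.lf (nat_lit 14902) (.g (nat_lit 4059) (.e (nat_lit 1077) (nat_lit 81) (.e (nat_lit 1796) (nat_lit 119) (.e (nat_lit 516098) (nat_lit 0) (.e (nat_lit 7065) (nat_lit 377) (.e (nat_lit 1348) (nat_lit 102) (.e (nat_lit 286733) (nat_lit 2) (.e (nat_lit 90174) (nat_lit 14) (.e (nat_lit 180275) (nat_lit 32) .nil)))))))) (.g (nat_lit 7) .nil .nil))))) (.nd (nat_lit 4) (.nd (nat_lit 5) 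
(.lf (nat_lit 14862) (.g (nat_lit 3765) (.e (nat_lit 1077) (nat_lit 81) (.e (nat_lit 1176) (nat_lit 87) (.e (nat_lit 57849) (nat_lit 252) (.e (nat_lit 57435) (nat_lit 17) (.e (nat_lit 376842) (nat_lit 11) (.e (nat_lit 426298) (nat_lit 11) (.e (nat_lit 458771) (nat_lit 18) (.e (nat_lit 5537) (nat_lit 306) .nil)))))))) (.g (nat_lit 0) .nil .nil))) 
(.lf (nat_lit 14894) (.g (nat_lit 4178) (.e (nat_lit 1077) (nat_lit 81) (.e (nat_lit 1656) (nat_lit 115) (.e (nat_lit 393251) (nat_lit 18) (.e (nat_lit 164325) (nat_lit 230) (.e (nat_lit 163861) (nat_lit 1) (.e (nat_lit 164332) (nat_lit 230) (.e (nat_lit 163885) (nat_lit 5) (.e (nat_lit 221208) (nat_lit 21) (.e (nat_lit 164227) (nat_lit 181) .nil))))))))) (.g (nat_lit 6) .nil .nil)))) 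
(.nd (nat_lit 5) 
(.lf (nat_lit 14878) (.g (nat_lit 5535) (.e (nat_lit 1077) (nat_lit 81) (.e (nat_lit 1454) (nat_lit 108) (.e (nat_lit 336060) (nat_lit 7) (.e (nat_lit 319534) (nat_lit 16) (.e (nat_lit 286756) (nat_lit 10) (.e (nat_lit 344160) (nat_lit 37) (.e (nat_lit 647195) (nat_lit 9) (.e (nat_lit 1181) (nat_lit 87) (.e (nat_lit 57666) (nat_lit 152) .nil))))))))) (.g (nat_lit 9) .nil .nil))) 
(.lf (nat_lit 14910) (.g (nat_lit 1042) (.e (nat_lit 1077) (nat_lit 81) (.e (nat_lit 1796) (nat_lit 119) (.e (nat_lit 516139) (nat_lit 7) (.e (nat_lit 417536) (nat_lit 16) .nil)))) .nil))))))) (.nd (nat_lit 1) (.nd (nat_lit 2) (.nd (nat_lit 3) (.nd (nat_lit 4) (.nd (nat_lit 5) 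
(.lf (nat_lit 14849) (.g (nat_lit 2001) (.e (nat_lit 1075) (nat_lit 81) (.e (nat_lit 5270) (nat_lit 298) (.e (nat_lit 1239) (nat_lit 91) (.e (nat_lit 90170) (nat_lit 13) (.e (nat_lit 172106) (nat_lit 10) .nil))))) .nil)) 
(.lf (nat_lit 14881) (.g (nat_lit 2398) (.e (nat_lit 1077) (nat_lit 81) (.e (nat_lit 1454) (nat_lit 108) (.e (nat_lit 336193) (nat_lit 12) (.e (nat_lit 385105) (nat_lit 50) (.e (nat_lit 786481) (nat_lit 30) .nil))))) .nil))) (.nd (nat_lit 5) 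
(.lf (nat_lit 14865) (.g (nat_lit 4042) (.e (nat_lit 1077) (nat_lit 81) (.e (nat_lit 1176) (nat_lit 87) (.e (nat_lit 57849) (nat_lit 252) (.e (nat_lit 57437) (nat_lit 17) (.e (nat_lit 376842) (nat_lit 11) (.e (nat_lit 426298) (nat_lit 11) (.e (nat_lit 458771) (nat_lit 18) (.e (nat_lit 5537) (nat_lit 306) .nil)))))))) (.g (nat_lit 0) .nil .nil))) 
(.lf (nat_lit 14897) (.g (nat_lit 4065) (.e (nat_lit 1077) (nat_lit 81) (.e (nat_lit 1656) (nat_lit 115) (.e (nat_lit 393251) (nat_lit 18) (.e (nat_lit 164325) (nat_lit 230) (.e (nat_lit 163864) (nat_lit 1) (.e (nat_lit 164332) (nat_lit 230) (.e (nat_lit 163885) (nat_lit 5) (.e (nat_lit 221208) (nat_lit 21) (.e (nat_lit 164227) (nat_lit 181) .nil))))))))) (.g (nat_lit 7) .nil .nil))))) 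
(.nd (nat_lit 4) (.nd (nat_lit 5) 
(.lf (nat_lit 14857) (.g (nat_lit 2100) (.e (nat_lit 1076) (nat_lit 81) (.e (nat_lit 1633) (nat_lit 114) (.e (nat_lit 385068) (nat_lit 26) (.e (nat_lit 532534) (nat_lit 9) (.e (nat_lit 336211) (nat_lit 13) (.e (nat_lit 393251) (nat_lit 18) (.e (nat_lit 164156) (nat_lit 152) .nil))))))) (.g (nat_lit 4) .nil .nil))) 
(.lf (nat_lit 14889) (.g (nat_lit 2153) (.e (nat_lit 1077) (nat_lit 81) (.e (nat_lit 1633) (nat_lit 114) (.e (nat_lit 385068) (nat_lit 26) (.e (nat_lit 532560) (nat_lit 14) (.e (nat_lit 376860) (nat_lit 21) .nil))))) .nil))) (.nd (nat_lit 5) 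
(.lf (nat_lit 14873) (.g (nat_lit 1920) (.e (nat_lit 1077) (nat_lit 81) (.e (nat_lit 1448) (nat_lit 108) (.e (nat_lit 336013) (nat_lit 2) (.e (nat_lit 90170) (nat_lit 13) (.e (nat_lit 172106) (nat_lit 10) (.e (nat_lit 434231) (nat_lit 23) (.e (nat_lit 532490) (nat_lit 0) (.e (nat_lit 1040) (nat_lit 81) (.e (nat_lit 4506) (nat_lit 263) .nil))))))))) (.g (nat_lit 4) .nil .nil))) 
(.lf (nat_lit 14905) (.g (nat_lit 4425) (.e (nat_lit 1077) (nat_lit 81) (.e (nat_lit 1796) (nat_lit 119) (.e (nat_lit 516098) (nat_lit 0) (.e (nat_lit 7065) (nat_lit 377) (.e (nat_lit 1349) (nat_lit 102) (.e (nat_lit 286733) (nat_lit 2) (.e (nat_lit 90174) (nat_lit 14) (.e (nat_lit 180275) (nat_lit 32) .nil)))))))) (.g (nat_lit 0) .nil .nil)))))) (.nd (nat_lit 3) (.nd (nat_lit 4) (.nd (nat_lit 5) 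
(.lf (nat_lit 14853) (.g (nat_lit 3439) (.e (nat_lit 1075) (nat_lit 81) (.e (nat_lit 5293) (nat_lit 298) (.e (nat_lit 1656) (nat_lit 115) (.e (nat_lit 393301) (nat_lit 27) (.e (nat_lit 491563) (nat_lit 12) (.e (nat_lit 385032) (nat_lit 16) .nil)))))) (.g (nat_lit 5) .nil .nil))) 
(.lf (nat_lit 14885) (.g (nat_lit 1933) (.e (nat_lit 1077) (nat_lit 81) (.e (nat_lit 1633) (nat_lit 114) (.e (nat_lit 385068) (nat_lit 26) (.e (nat_lit 532523) (nat_lit 7) .nil)))) .nil))) (.nd (nat_lit 5) 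
(.lf (nat_lit 14869) (.g (nat_lit 1312) (.e (nat_lit 1077) (nat_lit 81) (.e (nat_lit 1250) (nat_lit 92) (.e (nat_lit 98313) (nat_lit 9) (.e (nat_lit 336184) (nat_lit 11) (.e (nat_lit 368676) (nat_lit 21) (.e (nat_lit 516169) (nat_lit 13) (.e (nat_lit 458772) (nat_lit 18) (.e (nat_lit 5537) (nat_lit 306) .nil)))))))) (.g (nat_lit 4) .nil .nil))) 
(.lf (nat_lit 14901) (.g (nat_lit 3950) (.e (nat_lit 1077) (nat_lit 81) (.e (nat_lit 1796) (nat_lit 119) (.e (nat_lit 516098) (nat_lit 0) (.e (nat_lit 7065) (nat_lit 377) (.e (nat_lit 1348) (nat_lit 102) (.e (nat_lit 286733) (nat_lit 2) (.e (nat_lit 90172) (nat_lit 14) (.e (nat_lit 180276) (nat_lit 32) .nil)))))))) (.g (nat_lit 7) .nil .nil))))) (.nd (nat_lit 4) (.nd (nat_lit 5) 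
(.lf (nat_lit 14861) (.g (nat_lit 2731) (.e (nat_lit 1077) (nat_lit 81) (.e (nat_lit 1176) (nat_lit 87) (.e (nat_lit 57849) (nat_lit 252) (.e (nat_lit 57435) (nat_lit 17) (.e (nat_lit 376842) (nat_lit 11) (.e (nat_lit 426296) (nat_lit 11) (.e (nat_lit 458772) (nat_lit 18) (.e (nat_lit 5537) (nat_lit 306) .nil)))))))) (.g (nat_lit 6) .nil .nil))) 
(.lf (nat_lit 14893) (.g (nat_lit 2592) (.e (nat_lit 1077) (nat_lit 81) (.e (nat_lit 1656) (nat_lit 115) (.e (nat_lit 393251) (nat_lit 18) (.e (nat_lit 164325) (nat_lit 230) (.e (nat_lit 163861) (nat_lit 1) .nil))))) .nil))) (.nd (nat_lit 5) 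
(.lf (nat_lit 14877) (.g (nat_lit 4257) (.e (nat_lit 1077) (nat_lit 81) (.e (nat_lit 1454) (nat_lit 108) (.e (nat_lit 336060) (nat_lit 7) (.e (nat_lit 319534) (nat_lit 16) (.e (nat_lit 286756) (nat_lit 10) (.e (nat_lit 344160) (nat_lit 37) (.e (nat_lit 647195) (nat_lit 9) (.e (nat_lit 1180) (nat_lit 87) (.e (nat_lit 57666) (nat_lit 152) .nil))))))))) (.g (nat_lit 7) .nil .nil))) 
(.lf (nat_lit 14909) (.g (nat_lit 2654) (.e (nat_lit 1077) (nat_lit 81) (.e (nat_lit 1796) (nat_lit 119) (.e (nat_lit 516139) (nat_lit 7) (.e (nat_lit 409617) (nat_lit 10) (.e (nat_lit 5355) (nat_lit 298) (.e (nat_lit 1253) (nat_lit 92) (.e (nat_lit 98350) (nat_lit 24) (.e (nat_lit 409617) (nat_lit 10) (.e (nat_lit 5353) (nat_lit 298) .nil))))))))) (.g (nat_lit 5) .nil .nil))))))) 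
(.nd (nat_lit 2) (.nd (nat_lit 3) (.nd (nat_lit 4) (.nd (nat_lit 5) 
(.lf (nat_lit 14851) (.g (nat_lit 768) (.e (nat_lit 1075) (nat_lit 81) (.e (nat_lit 5293) (nat_lit 298) (.e (nat_lit 1656) (nat_lit 115) (.e (nat_lit 393300) (nat_lit 27) .nil)))) .nil)) 
(.lf (nat_lit 14883) (.g (nat_lit 1666) (.e (nat_lit 1077) (nat_lit 81) (.e (nat_lit 1555) (nat_lit 110) (.e (nat_lit 360192) (nat_lit 16) (.e (nat_lit 466972) (nat_lit 21) (.e (nat_lit 164332) (nat_lit 230) (.e (nat_lit 163860) (nat_lit 1) (.e (nat_lit 164225) (nat_lit 181) .nil))))))) (.g (nat_lit 6) .nil .nil)))) (.nd (nat_lit 5) 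
(.lf (nat_lit 14867) (.g (nat_lit 4315) (.e (nat_lit 1077) (nat_lit 81) (.e (nat_lit 1232) (nat_lit 91) (.e (nat_lit 90160) (nat_lit 11) (.e (nat_lit 24638) (nat_lit 9) (.e (nat_lit 336012) (nat_lit 2) (.e (nat_lit 90172) (nat_lit 14) (.e (nat_lit 180225) (nat_lit 0) (.e (nat_lit 5537) (nat_lit 306) .nil)))))))) (.g (nat_lit 7) .nil .nil))) 
(.lf (nat_lit 14899) (.g (nat_lit 2632) (.e (nat_lit 1077) (nat_lit 81) (.e (nat_lit 1656) (nat_lit 115) (.e (nat_lit 393300) (nat_lit 27) (.e (nat_lit 491549) (nat_lit 9) (.e (nat_lit 336425) (nat_lit 28) (.e (nat_lit 434202) (nat_lit 18) (.e (nat_lit 4335) (nat_lit 257) .nil))))))) (.g (nat_lit 5) .nil .nil))))) (.nd (nat_lit 4) (.nd (nat_lit 5) 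
(.lf (nat_lit 14859) (.g (nat_lit 1450) (.e (nat_lit 1076) (nat_lit 81) (.e (nat_lit 5664) (nat_lit 312) (.e (nat_lit 2605) (nat_lit 163) (.e (nat_lit 164327) (nat_lit 230) (.e (nat_lit 163886) (nat_lit 5) (.e (nat_lit 229120) (nat_lit 13) (.e (nat_lit 352264) (nat_lit 0) (.e (nat_lit 6988) (nat_lit 377) .nil)))))))) (.g (nat_lit 4) .nil .nil))) 
(.lf (nat_lit 14891) (.g (nat_lit 2121) (.e (nat_lit 1077) (nat_lit 81) (.e (nat_lit 1633) (nat_lit 114) (.e (nat_lit 385074) (nat_lit 31) (.e (nat_lit 573491) (nat_lit 15) .nil)))) .nil))) (.nd (nat_lit 5) 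
(.lf (nat_lit 14875) (.g (nat_lit 2220) (.e (nat_lit 1077) (nat_lit 81) (.e (nat_lit 1448) (nat_lit 108) (.e (nat_lit 336013) (nat_lit 2) (.e (nat_lit 90170) (nat_lit 13) (.e (nat_lit 172106) (nat_lit 10) (.e (nat_lit 434244) (nat_lit 28) (.e (nat_lit 573458) (nat_lit 9) (.e (nat_lit 1178) (nat_lit 87) (.e (nat_lit 57666) (nat_lit 152) .nil))))))))) (.g (nat_lit 5) .nil .nil))) 
(.lf (nat_lit 14907) (.g (nat_lit 4127) (.e (nat_lit 1077) (nat_lit 81) (.e (nat_lit 1796) (nat_lit 119) (.e (nat_lit 516098) (nat_lit 0) (.e (nat_lit 7587) (nat_lit 406) (.e (nat_lit 65571) (nat_lit 3) (.e (nat_lit 98350) (nat_lit 24) (.e (nat_lit 409617) (nat_lit 10) (.e (nat_lit 5353) (nat_lit 298) .nil)))))))) (.g (nat_lit 8) .nil .nil)))))) (.nd (nat_lit 3) (.nd (nat_lit 4) (.nd (nat_lit 5) 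
(.lf (nat_lit 14855) (.g (nat_lit 196) (.e (nat_lit 1076) (nat_lit 81) (.e (nat_lit 1574) (nat_lit 110) (.e (nat_lit 352271) (nat_lit 9) .nil))) .nil)) 
(.lf (nat_lit 14887) (.g (nat_lit 2713) (.e (nat_lit 1077) (nat_lit 81) (.e (nat_lit 1633) (nat_lit 114) (.e (nat_lit 385068) (nat_lit 26) (.e (nat_lit 532553) (nat_lit 13) (.e (nat_lit 368676) (nat_lit 21) .nil))))) .nil))) (.nd (nat_lit 5) 
(.lf (nat_lit 14871) (.g (nat_lit 4201) (.e (nat_lit 1077) (nat_lit 81) (.e (nat_lit 1435) (nat_lit 108) (.e (nat_lit 336060) (nat_lit 7) (.e (nat_lit 319534) (nat_lit 16) (.e (nat_lit 286756) (nat_lit 10) (.e (nat_lit 344160) (nat_lit 37) (.e (nat_lit 647195) (nat_lit 9) (.e (nat_lit 1180) (nat_lit 87) (.e (nat_lit 57666) (nat_lit 152) .nil))))))))) (.g (nat_lit 7) .nil .nil))) 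
(.lf (nat_lit 14903) (.g (nat_lit 4140) (.e (nat_lit 1077) (nat_lit 81) (.e (nat_lit 1796) (nat_lit 119) (.e (nat_lit 516098) (nat_lit 0) (.e (nat_lit 7065) (nat_lit 377) (.e (nat_lit 1349) (nat_lit 102) (.e (nat_lit 286733) (nat_lit 2) (.e (nat_lit 90172) (nat_lit 14) (.e (nat_lit 180276) (nat_lit 32) .nil)))))))) (.g (nat_lit 7) .nil .nil))))) (.nd (nat_lit 4) (.nd (nat_lit 5) 
(.lf (nat_lit 14863) (.g (nat_lit 2882) (.e (nat_lit 1077) (nat_lit 81) (.e (nat_lit 1176) (nat_lit 87) (.e (nat_lit 57849) (nat_lit 252) (.e (nat_lit 57435) (nat_lit 17) (.e (nat_lit 376842) (nat_lit 11) (.e (nat_lit 426298) (nat_lit 11) (.e (nat_lit 458772) (nat_lit 18) (.e (nat_lit 5537) (nat_lit 306) .nil)))))))) (.g (nat_lit 6) .nil .nil))) 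
(.lf (nat_lit 14895) (.g (nat_lit 2485) (.e (nat_lit 1077) (nat_lit 81) (.e (nat_lit 1656) (nat_lit 115) (.e (nat_lit 393251) (nat_lit 18) (.e (nat_lit 164325) (nat_lit 230) (.e (nat_lit 163864) (nat_lit 1) .nil))))) .nil))) (.nd (nat_lit 5) 
(.lf (nat_lit 14879) (.g (nat_lit 2580) (.e (nat_lit 1077) (nat_lit 81) (.e (nat_lit 1454) (nat_lit 108) (.e (nat_lit 336061) (nat_lit 7) (.e (nat_lit 319531) (nat_lit 16) (.e (nat_lit 286759) (nat_lit 12) (.e (nat_lit 385107) (nat_lit 51) (.e (nat_lit 794659) (nat_lit 21) (.e (nat_lit 164225) (nat_lit 181) .nil)))))))) (.g (nat_lit 4) .nil .nil))) 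
(.lf (nat_lit 14911) (.g (nat_lit 3925) (.e (nat_lit 1077) (nat_lit 81) (.e (nat_lit 1796) (nat_lit 119) (.e (nat_lit 516139) (nat_lit 7) (.e (nat_lit 409640) (nat_lit 17) (.e (nat_lit 294931) (nat_lit 3) (.e (nat_lit 98350) (nat_lit 24) (.e (nat_lit 409617) (nat_lit 10) (.e (nat_lit 5353) (nat_lit 298) .nil)))))))) (.g (nat_lit 7) .nil .nil)))))))))

noncomputable def tv207 : DT := (.nd (nat_lit 0) (.nd (nat_lit 1) (.nd (nat_lit 2) (.nd (nat_lit 3) (.nd (nat_lit 4) (.nd (nat_lit 5) 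
(.lf (nat_lit 14912) (.g (nat_lit 4413) (.e (nat_lit 1077) (nat_lit 81) (.e (nat_lit 1796) (nat_lit 119) (.e (nat_lit 516139) (nat_lit 7) (.e (nat_lit 409641) (nat_lit 17) (.e (nat_lit 294931) (nat_lit 3) (.e (nat_lit 98350) (nat_lit 24) (.e (nat_lit 409617) (nat_lit 10) (.e (nat_lit 5353) (nat_lit 298) .nil)))))))) (.g (nat_lit 6) .nil .nil))) 
(.lf (nat_lit 14944) (.g (nat_lit 984) (.e (nat_lit 1077) (nat_lit 81) (.e (nat_lit 1796) (nat_lit 119) (.e (nat_lit 516163) (nat_lit 11) (.e (nat_lit 442412) (nat_lit 20) .nil)))) .nil))) (.nd (nat_lit 5) 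
(.lf (nat_lit 14928) (.g (nat_lit 2817) (.e (nat_lit 1077) (nat_lit 81) (.e (nat_lit 1796) (nat_lit 119) (.e (nat_lit 516151) (nat_lit 9) (.e (nat_lit 426285) (nat_lit 10) (.e (nat_lit 434227) (nat_lit 20) (.e (nat_lit 507930) (nat_lit 10) (.e (nat_lit 5760) (nat_lit 315) (.e (nat_lit 164237) (nat_lit 187) .nil)))))))) (.g (nat_lit 4) .nil .nil))) 
(.lf (nat_lit 14960) (.g (nat_lit 2727) (.e (nat_lit 1077) (nat_lit 81) (.e (nat_lit 1796) (nat_lit 119) (.e (nat_lit 516166) (nat_lit 12) (.e (nat_lit 450562) (nat_lit 0) (.e (nat_lit 4284) (nat_lit 253) (.e (nat_lit 65280) (nat_lit 74) (.e (nat_lit 434178) (nat_lit 0) .nil))))))) (.g (nat_lit 4) .nil .nil))))) (.nd (nat_lit 4) (.nd (nat_lit 5) 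
(.lf (nat_lit 14920) (.g (nat_lit 2791) (.e (nat_lit 1077) (nat_lit 81) (.e (nat_lit 1796) (nat_lit 119) (.e (nat_lit 516142) (nat_lit 8) (.e (nat_lit 417812) (nat_lit 7) (.e (nat_lit 294927) (nat_lit 2) (.e (nat_lit 90172) (nat_lit 14) (.e (nat_lit 180276) (nat_lit 32) .nil))))))) (.g (nat_lit 6) .nil .nil))) 
(.lf (nat_lit 14952) (.g (nat_lit 2220) (.e (nat_lit 1077) (nat_lit 81) (.e (nat_lit 1796) (nat_lit 119) (.e (nat_lit 516163) (nat_lit 11) (.e (nat_lit 442427) (nat_lit 23) (.e (nat_lit 204815) (nat_lit 17) .nil))))) .nil))) (.nd (nat_lit 5) 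
(.lf (nat_lit 14936) (.g (nat_lit 751) (.e (nat_lit 1077) (nat_lit 81) (.e (nat_lit 1796) (nat_lit 119) (.e (nat_lit 516163) (nat_lit 11) (.e (nat_lit 450304) (nat_lit 0) .nil)))) .nil)) 
(.lf (nat_lit 14968) (.g (nat_lit 3803) (.e (nat_lit 1077) (nat_lit 81) (.e (nat_lit 1796) (nat_lit 119) (.e (nat_lit 516166) (nat_lit 12) (.e (nat_lit 450588) (nat_lit 10) (.e (nat_lit 573471) (nat_lit 11) (.e (nat_lit 16396) (nat_lit 0) (.e (nat_lit 7550) (nat_lit 402) .nil))))))) (.g (nat_lit 6) .nil .nil)))))) (.nd (nat_lit 3) (.nd (nat_lit 4) (.nd (nat_lit 5) 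
(.lf (nat_lit 14916) (.g (nat_lit 4873) (.e (nat_lit 1077) (nat_lit 81) (.e (nat_lit 1796) (nat_lit 119) (.e (nat_lit 516142) (nat_lit 8) (.e (nat_lit 417810) (nat_lit 6) (.e (nat_lit 286733) (nat_lit 2) (.e (nat_lit 90174) (nat_lit 14) (.e (nat_lit 180275) (nat_lit 32) .nil))))))) (.g (nat_lit 0) .nil .nil))) 
(.lf (nat_lit 14948) (.g (nat_lit 2194) (.e (nat_lit 1077) (nat_lit 81) (.e (nat_lit 1796) (nat_lit 119) (.e (nat_lit 516163) (nat_lit 11) (.e (nat_lit 442424) (nat_lit 22) (.e (nat_lit 196628) (nat_lit 9) (.e (nat_lit 968) (nat_lit 81) (.e (nat_lit 6712) (nat_lit 360) (.e (nat_lit 164237) (nat_lit 187) .nil)))))))) (.g (nat_lit 4) .nil .nil)))) (.nd (nat_lit 5) 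
(.lf (nat_lit 14932) (.g (nat_lit 2907) (.e (nat_lit 1077) (nat_lit 81) (.e (nat_lit 1796) (nat_lit 119) (.e (nat_lit 516158) (nat_lit 9) (.e (nat_lit 426316) (nat_lit 12) (.e (nat_lit 475185) (nat_lit 29) (.e (nat_lit 557103) (nat_lit 14) (.e (nat_lit 180276) (nat_lit 32) .nil))))))) (.g (nat_lit 6) .nil .nil))) 
(.lf (nat_lit 14964) (.g (nat_lit 1233) (.e (nat_lit 1077) (nat_lit 81) (.e (nat_lit 1796) (nat_lit 119) (.e (nat_lit 516166) (nat_lit 12) (.e (nat_lit 450581) (nat_lit 5) .nil)))) .nil)))) (.nd (nat_lit 4) (.nd (nat_lit 5) 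
(.lf (nat_lit 14924) (.g (nat_lit 2717) (.e (nat_lit 1077) (nat_lit 81) (.e (nat_lit 1796) (nat_lit 119) (.e (nat_lit 516151) (nat_lit 9) (.e (nat_lit 426170) (nat_lit 7) (.e (nat_lit 409631) (nat_lit 12) (.e (nat_lit 32808) (nat_lit 19) (.e (nat_lit 180276) (nat_lit 32) .nil))))))) (.g (nat_lit 5) .nil .nil))) 
(.lf (nat_lit 14956) (.g (nat_lit 2841) (.e (nat_lit 1077) (nat_lit 81) (.e (nat_lit 1796) (nat_lit 119) (.e (nat_lit 516163) (nat_lit 11) (.e (nat_lit 442427) (nat_lit 23) (.e (nat_lit 204821) (nat_lit 17) (.e (nat_lit 6206) (nat_lit 333) (.e (nat_lit 57889) (nat_lit 270) .nil))))))) (.g (nat_lit 0) .nil .nil)))) (.nd (nat_lit 5) 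
(.lf (nat_lit 14940) (.g (nat_lit 2279) (.e (nat_lit 1077) (nat_lit 81) (.e (nat_lit 1796) (nat_lit 119) (.e (nat_lit 516163) (nat_lit 11) (.e (nat_lit 450304) (nat_lit 0) (.e (nat_lit 1853) (nat_lit 124) (.e (nat_lit 557103) (nat_lit 14) (.e (nat_lit 180276) (nat_lit 32) .nil))))))) (.g (nat_lit 6) .nil .nil))) 
(.lf (nat_lit 14972) (.g (nat_lit 2293) (.e (nat_lit 1077) (nat_lit 81) (.e (nat_lit 1796) (nat_lit 119) (.e (nat_lit 516175) (nat_lit 14) (.e (nat_lit 466947) (nat_lit 0) (.e (nat_lit 1856) (nat_lit 124) (.e (nat_lit 557103) (nat_lit 14) (.e (nat_lit 180276) (nat_lit 32) .nil))))))) (.g (nat_lit 7) .nil .nil))))))) (.nd (nat_lit 2) (.nd (nat_lit 3) (.nd (nat_lit 4) (.nd (nat_lit 5) 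
(.lf (nat_lit 14914) (.g (nat_lit 3765) (.e (nat_lit 1077) (nat_lit 81) (.e (nat_lit 1796) (nat_lit 119) (.e (nat_lit 516142) (nat_lit 8) (.e (nat_lit 417809) (nat_lit 6) (.e (nat_lit 286733) (nat_lit 2) (.e (nat_lit 90174) (nat_lit 14) (.e (nat_lit 180275) (nat_lit 32) .nil))))))) (.g (nat_lit 7) .nil .nil))) 
(.lf (nat_lit 14946) (.g (nat_lit 1584) (.e (nat_lit 1077) (nat_lit 81) (.e (nat_lit 1796) (nat_lit 119) (.e (nat_lit 516163) (nat_lit 11) (.e (nat_lit 442412) (nat_lit 20) (.e (nat_lit 3271) (nat_lit 199) (.e (nat_lit 548914) (nat_lit 19) (.e (nat_lit 180276) (nat_lit 32) .nil))))))) (.g (nat_lit 5) .nil .nil)))) (.nd (nat_lit 5) 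
(.lf (nat_lit 14930) (.g (nat_lit 2770) (.e (nat_lit 1077) (nat_lit 81) (.e (nat_lit 1796) (nat_lit 119) (.e (nat_lit 516151) (nat_lit 9) (.e (nat_lit 426285) (nat_lit 10) (.e (nat_lit 434238) (nat_lit 25) (.e (nat_lit 548914) (nat_lit 19) (.e (nat_lit 180275) (nat_lit 32) .nil))))))) (.g (nat_lit 4) .nil .nil))) 
(.lf (nat_lit 14962) (.g (nat_lit 1604) (.e (nat_lit 1077) (nat_lit 81) (.e (nat_lit 1796) (nat_lit 119) (.e (nat_lit 516166) (nat_lit 12) (.e (nat_lit 450576) (nat_lit 2) (.e (nat_lit 507930) (nat_lit 10) (.e (nat_lit 5760) (nat_lit 315) (.e (nat_lit 164237) (nat_lit 187) .nil))))))) (.g (nat_lit 4) .nil .nil))))) (.nd (nat_lit 4) (.nd (nat_lit 5) 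
(.lf (nat_lit 14922) (.g (nat_lit 2802) (.e (nat_lit 1077) (nat_lit 81) (.e (nat_lit 1796) (nat_lit 119) (.e (nat_lit 516142) (nat_lit 8) (.e (nat_lit 417812) (nat_lit 7) (.e (nat_lit 294928) (nat_lit 2) (.e (nat_lit 90172) (nat_lit 14) (.e (nat_lit 180276) (nat_lit 32) .nil))))))) (.g (nat_lit 6) .nil .nil))) 
(.lf (nat_lit 14954) (.g (nat_lit 2058) (.e (nat_lit 1077) (nat_lit 81) (.e (nat_lit 1796) (nat_lit 119) (.e (nat_lit 516163) (nat_lit 11) (.e (nat_lit 442427) (nat_lit 23) (.e (nat_lit 204816) (nat_lit 17) .nil))))) .nil))) (.nd (nat_lit 5) 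
(.lf (nat_lit 14938) (.g (nat_lit 1681) (.e (nat_lit 1077) (nat_lit 81) (.e (nat_lit 1796) (nat_lit 119) (.e (nat_lit 516163) (nat_lit 11) (.e (nat_lit 450304) (nat_lit 0) (.e (nat_lit 1849) (nat_lit 124) (.e (nat_lit 557103) (nat_lit 14) (.e (nat_lit 180276) (nat_lit 32) .nil))))))) (.g (nat_lit 6) .nil .nil))) 
(.lf (nat_lit 14970) (.g (nat_lit 209) (.e (nat_lit 1077) (nat_lit 81) (.e (nat_lit 1796) (nat_lit 119) (.e (nat_lit 516175) (nat_lit 14) .nil))) .nil))))) (.nd (nat_lit 3) (.nd (nat_lit 4) (.nd (nat_lit 5) 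
(.lf (nat_lit 14918) (.g (nat_lit 4032) (.e (nat_lit 1077) (nat_lit 81) (.e (nat_lit 1796) (nat_lit 119) (.e (nat_lit 516142) (nat_lit 8) (.e (nat_lit 417811) (nat_lit 6) (.e (nat_lit 286733) (nat_lit 2) (.e (nat_lit 90172) (nat_lit 14) (.e (nat_lit 180276) (nat_lit 32) .nil))))))) (.g (nat_lit 6) .nil .nil))) 
(.lf (nat_lit 14950) (.g (nat_lit 1903) (.e (nat_lit 1077) (nat_lit 81) (.e (nat_lit 1796) (nat_lit 119) (.e (nat_lit 516163) (nat_lit 11) (.e (nat_lit 442424) (nat_lit 22) (.e (nat_lit 196661) (nat_lit 12) .nil))))) .nil))) (.nd (nat_lit 5) 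
(.lf (nat_lit 14934) (.g (nat_lit 1002) (.e (nat_lit 1077) (nat_lit 81) (.e (nat_lit 1796) (nat_lit 119) (.e (nat_lit 516163) (nat_lit 11) (.e (nat_lit 442377) (nat_lit 0) .nil)))) .nil)) 
(.lf (nat_lit 14966) (.g (nat_lit 2070) (.e (nat_lit 1077) (nat_lit 81) (.e (nat_lit 1796) (nat_lit 119) (.e (nat_lit 516166) (nat_lit 12) (.e (nat_lit 450583) (nat_lit 7) (.e (nat_lit 548914) (nat_lit 19) (.e (nat_lit 180275) (nat_lit 32) .nil)))))) (.g (nat_lit 6) .nil .nil))))) (.nd (nat_lit 4) (.nd (nat_lit 5) 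
(.lf (nat_lit 14926) (.g (nat_lit 2960) (.e (nat_lit 1077) (nat_lit 81) (.e (nat_lit 1796) (nat_lit 119) (.e (nat_lit 516151) (nat_lit 9) (.e (nat_lit 426211) (nat_lit 9) (.e (nat_lit 426125) (nat_lit 2) (.e (nat_lit 204544) (nat_lit 21) (.e (nat_lit 164371) (nat_lit 249) (.e (nat_lit 164237) (nat_lit 187) .nil)))))))) (.g (nat_lit 4) .nil .nil))) 
(.lf (nat_lit 14958) (.g (nat_lit 1917) (.e (nat_lit 1077) (nat_lit 81) (.e (nat_lit 1796) (nat_lit 119) (.e (nat_lit 516163) (nat_lit 11) (.e (nat_lit 442430) (nat_lit 24) (.e (nat_lit 229535) (nat_lit 134) .nil))))) .nil))) (.nd (nat_lit 5) 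
(.lf (nat_lit 14942) (.g (nat_lit 1778) (.e (nat_lit 1077) (nat_lit 81) (.e (nat_lit 1796) (nat_lit 119) (.e (nat_lit 516163) (nat_lit 11) (.e (nat_lit 450304) (nat_lit 0) (.e (nat_lit 1859) (nat_lit 124) (.e (nat_lit 557103) (nat_lit 14) (.e (nat_lit 180276) (nat_lit 32) .nil))))))) (.g (nat_lit 6) .nil .nil))) 
(.lf (nat_lit 14974) (.g (nat_lit 1674) (.e (nat_lit 1077) (nat_lit 81) (.e (nat_lit 1796) (nat_lit 119) (.e (nat_lit 516175) (nat_lit 14) (.e (nat_lit 474880) (nat_lit 0) (.e (nat_lit 1848) (nat_lit 124) (.e (nat_lit 557103) (nat_lit 14) (.e (nat_lit 180276) (nat_lit 32) .nil))))))) (.g (nat_lit 6) .nil .nil)))))))) 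
(.nd (nat_lit 1) (.nd (nat_lit 2) (.nd (nat_lit 3) (.nd (nat_lit 4) (.nd (nat_lit 5) 
(.lf (nat_lit 14913) (.g (nat_lit 3493) (.e (nat_lit 1077) (nat_lit 81) (.e (nat_lit 1796) (nat_lit 119) (.e (nat_lit 516142) (nat_lit 8) (.e (nat_lit 417809) (nat_lit 6) (.e (nat_lit 286733) (nat_lit 2) (.e (nat_lit 90172) (nat_lit 14) (.e (nat_lit 180276) (nat_lit 32) .nil))))))) (.g (nat_lit 6) .nil .nil))) 
(.lf (nat_lit 14945) (.g (nat_lit 1489) (.e (nat_lit 1077) (nat_lit 81) (.e (nat_lit 1796) (nat_lit 119) (.e (nat_lit 516163) (nat_lit 11) (.e (nat_lit 442412) (nat_lit 20) (.e (nat_lit 3271) (nat_lit 199) (.e (nat_lit 548914) (nat_lit 19) (.e (nat_lit 180275) (nat_lit 32) .nil))))))) (.g (nat_lit 5) .nil .nil)))) (.nd (nat_lit 5) 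
(.lf (nat_lit 14929) (.g (nat_lit 2680) (.e (nat_lit 1077) (nat_lit 81) (.e (nat_lit 1796) (nat_lit 119) (.e (nat_lit 516151) (nat_lit 9) (.e (nat_lit 426285) (nat_lit 10) (.e (nat_lit 434238) (nat_lit 25) .nil))))) .nil)) 
(.lf (nat_lit 14961) (.g (nat_lit 1362) (.e (nat_lit 1077) (nat_lit 81) (.e (nat_lit 1796) (nat_lit 119) (.e (nat_lit 516166) (nat_lit 12) (.e (nat_lit 450563) (nat_lit 0) .nil)))) .nil)))) (.nd (nat_lit 4) (.nd (nat_lit 5) 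
(.lf (nat_lit 14921) (.g (nat_lit 2366) (.e (nat_lit 1077) (nat_lit 81) (.e (nat_lit 1796) (nat_lit 119) (.e (nat_lit 516142) (nat_lit 8) (.e (nat_lit 417812) (nat_lit 7) (.e (nat_lit 294927) (nat_lit 2) (.e (nat_lit 90174) (nat_lit 14) (.e (nat_lit 180275) (nat_lit 32) .nil))))))) (.g (nat_lit 6) .nil .nil))) 
(.lf (nat_lit 14953) (.g (nat_lit 2462) (.e (nat_lit 1077) (nat_lit 81) (.e (nat_lit 1796) (nat_lit 119) (.e (nat_lit 516163) (nat_lit 11) (.e (nat_lit 442427) (nat_lit 23) (.e (nat_lit 204815) (nat_lit 17) (.e (nat_lit 6714) (nat_lit 360) (.e (nat_lit 164237) (nat_lit 187) .nil))))))) (.g (nat_lit 4) .nil .nil)))) (.nd (nat_lit 5) 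
(.lf (nat_lit 14937) (.g (nat_lit 2045) (.e (nat_lit 1077) (nat_lit 81) (.e (nat_lit 1796) (nat_lit 119) (.e (nat_lit 516163) (nat_lit 11) (.e (nat_lit 450304) (nat_lit 0) (.e (nat_lit 1848) (nat_lit 124) (.e (nat_lit 557103) (nat_lit 14) (.e (nat_lit 180276) (nat_lit 32) .nil))))))) (.g (nat_lit 6) .nil .nil))) 
(.lf (nat_lit 14969) (.g (nat_lit 1714) (.e (nat_lit 1077) (nat_lit 81) (.e (nat_lit 1796) (nat_lit 119) (.e (nat_lit 516174) (nat_lit 14) (.e (nat_lit 466947) (nat_lit 0) (.e (nat_lit 1856) (nat_lit 124) (.e (nat_lit 557105) (nat_lit 14) (.e (nat_lit 180275) (nat_lit 32) .nil))))))) (.g (nat_lit 4) .nil .nil)))))) (.nd (nat_lit 3) (.nd (nat_lit 4) (.nd (nat_lit 5) 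
(.lf (nat_lit 14917) (.g (nat_lit 4604) (.e (nat_lit 1077) (nat_lit 81) (.e (nat_lit 1796) (nat_lit 119) (.e (nat_lit 516142) (nat_lit 8) (.e (nat_lit 417810) (nat_lit 6) (.e (nat_lit 286735) (nat_lit 3) (.e (nat_lit 98367) (nat_lit 27) (.e (nat_lit 434178) (nat_lit 0) .nil))))))) (.g (nat_lit 6) .nil .nil))) 
(.lf (nat_lit 14949) (.g (nat_lit 2767) (.e (nat_lit 1077) (nat_lit 81) (.e (nat_lit 1796) (nat_lit 119) (.e (nat_lit 516163) (nat_lit 11) (.e (nat_lit 442424) (nat_lit 22) (.e (nat_lit 196628) (nat_lit 9) (.e (nat_lit 968) (nat_lit 81) (.e (nat_lit 6714) (nat_lit 360) (.e (nat_lit 164237) (nat_lit 187) .nil)))))))) (.g (nat_lit 5) .nil .nil)))) (.nd (nat_lit 5) 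
(.lf (nat_lit 14933) (.g (nat_lit 2905) (.e (nat_lit 1077) (nat_lit 81) (.e (nat_lit 1796) (nat_lit 119) (.e (nat_lit 516158) (nat_lit 9) (.e (nat_lit 426316) (nat_lit 12) (.e (nat_lit 475185) (nat_lit 29) (.e (nat_lit 557105) (nat_lit 14) (.e (nat_lit 180275) (nat_lit 32) .nil))))))) (.g (nat_lit 7) .nil .nil))) 
(.lf (nat_lit 14965) (.g (nat_lit 1307) (.e (nat_lit 1077) (nat_lit 81) (.e (nat_lit 1796) (nat_lit 119) (.e (nat_lit 516166) (nat_lit 12) (.e (nat_lit 450583) (nat_lit 7) (.e (nat_lit 548913) (nat_lit 18) .nil))))) .nil)))) (.nd (nat_lit 4) (.nd (nat_lit 5) 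
(.lf (nat_lit 14925) (.g (nat_lit 2938) (.e (nat_lit 1077) (nat_lit 81) (.e (nat_lit 1796) (nat_lit 119) (.e (nat_lit 516151) (nat_lit 9) (.e (nat_lit 426211) (nat_lit 9) (.e (nat_lit 426125) (nat_lit 2) .nil))))) .nil)) 
(.lf (nat_lit 14957) (.g (nat_lit 2857) (.e (nat_lit 1077) (nat_lit 81) (.e (nat_lit 1796) (nat_lit 119) (.e (nat_lit 516163) (nat_lit 11) (.e (nat_lit 442427) (nat_lit 23) (.e (nat_lit 204845) (nat_lit 24) (.e (nat_lit 319502) (nat_lit 10) (.e (nat_lit 5315) (nat_lit 298) .nil))))))) (.g (nat_lit 5) .nil .nil)))) (.nd (nat_lit 5) 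
(.lf (nat_lit 14941) (.g (nat_lit 2518) (.e (nat_lit 1077) (nat_lit 81) (.e (nat_lit 1796) (nat_lit 119) (.e (nat_lit 516163) (nat_lit 11) (.e (nat_lit 450304) (nat_lit 0) (.e (nat_lit 1858) (nat_lit 124) (.e (nat_lit 557103) (nat_lit 14) (.e (nat_lit 180276) (nat_lit 32) .nil))))))) (.g (nat_lit 6) .nil .nil))) 
(.lf (nat_lit 14973) (.g (nat_lit 2238) (.e (nat_lit 1077) (nat_lit 81) (.e (nat_lit 1796) (nat_lit 119) (.e (nat_lit 516175) (nat_lit 14) (.e (nat_lit 466947) (nat_lit 0) (.e (nat_lit 1856) (nat_lit 124) (.e (nat_lit 557105) (nat_lit 14) (.e (nat_lit 180275) (nat_lit 32) .nil))))))) (.g (nat_lit 7) .nil .nil))))))) (.nd (nat_lit 2) (.nd (nat_lit 3) (.nd (nat_lit 4) (.nd (nat_lit 5) 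
(.lf (nat_lit 14915) (.g (nat_lit 4593) (.e (nat_lit 1077) (nat_lit 81) (.e (nat_lit 1796) (nat_lit 119) (.e (nat_lit 516142) (nat_lit 8) (.e (nat_lit 417810) (nat_lit 6) (.e (nat_lit 286733) (nat_lit 2) (.e (nat_lit 90172) (nat_lit 14) (.e (nat_lit 180276) (nat_lit 32) .nil))))))) (.g (nat_lit 6) .nil .nil))) 
(.lf (nat_lit 14947) (.g (nat_lit 2240) (.e (nat_lit 1077) (nat_lit 81) (.e (nat_lit 1796) (nat_lit 119) (.e (nat_lit 516163) (nat_lit 11) (.e (nat_lit 442412) (nat_lit 20) (.e (nat_lit 3272) (nat_lit 199) (.e (nat_lit 548914) (nat_lit 19) (.e (nat_lit 180276) (nat_lit 32) .nil))))))) (.g (nat_lit 6) .nil .nil)))) (.nd (nat_lit 5) 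
(.lf (nat_lit 14931) (.g (nat_lit 2873) (.e (nat_lit 1077) (nat_lit 81) (.e (nat_lit 1796) (nat_lit 119) (.e (nat_lit 516151) (nat_lit 9) (.e (nat_lit 426285) (nat_lit 10) (.e (nat_lit 434238) (nat_lit 25) (.e (nat_lit 548914) (nat_lit 19) (.e (nat_lit 180276) (nat_lit 32) .nil))))))) (.g (nat_lit 4) .nil .nil))) 
(.lf (nat_lit 14963) (.g (nat_lit 1053) (.e (nat_lit 1077) (nat_lit 81) (.e (nat_lit 1796) (nat_lit 119) (.e (nat_lit 516166) (nat_lit 12) (.e (nat_lit 450579) (nat_lit 5) .nil)))) .nil)))) (.nd (nat_lit 4) (.nd (nat_lit 5) 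
(.lf (nat_lit 14923) (.g (nat_lit 2913) (.e (nat_lit 1077) (nat_lit 81) (.e (nat_lit 1796) (nat_lit 119) (.e (nat_lit 516142) (nat_lit 8) (.e (nat_lit 417812) (nat_lit 7) (.e (nat_lit 294928) (nat_lit 2) (.e (nat_lit 90174) (nat_lit 14) (.e (nat_lit 180275) (nat_lit 32) .nil))))))) (.g (nat_lit 7) .nil .nil))) 
(.lf (nat_lit 14955) (.g (nat_lit 1688) (.e (nat_lit 1077) (nat_lit 81) (.e (nat_lit 1796) (nat_lit 119) (.e (nat_lit 516163) (nat_lit 11) (.e (nat_lit 442427) (nat_lit 23) (.e (nat_lit 204821) (nat_lit 17) .nil))))) .nil))) (.nd (nat_lit 5) 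
(.lf (nat_lit 14939) (.g (nat_lit 1948) (.e (nat_lit 1077) (nat_lit 81) (.e (nat_lit 1796) (nat_lit 119) (.e (nat_lit 516163) (nat_lit 11) (.e (nat_lit 450304) (nat_lit 0) (.e (nat_lit 1849) (nat_lit 124) (.e (nat_lit 557104) (nat_lit 14) (.e (nat_lit 180276) (nat_lit 32) .nil))))))) (.g (nat_lit 6) .nil .nil))) 
(.lf (nat_lit 14971) (.g (nat_lit 2932) (.e (nat_lit 1077) (nat_lit 81) (.e (nat_lit 1796) (nat_lit 119) (.e (nat_lit 516175) (nat_lit 14) (.e (nat_lit 466947) (nat_lit 0) (.e (nat_lit 1855) (nat_lit 124) (.e (nat_lit 557103) (nat_lit 14) (.e (nat_lit 180276) (nat_lit 32) .nil))))))) (.g (nat_lit 6) .nil .nil)))))) (.nd (nat_lit 3) (.nd (nat_lit 4) (.nd (nat_lit 5) 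
(.lf (nat_lit 14919) (.g (nat_lit 4197) (.e (nat_lit 1077) (nat_lit 81) (.e (nat_lit 1796) (nat_lit 119) (.e (nat_lit 516142) (nat_lit 8) (.e (nat_lit 417811) (nat_lit 6) (.e (nat_lit 286733) (nat_lit 2) (.e (nat_lit 90174) (nat_lit 14) (.e (nat_lit 180275) (nat_lit 32) .nil))))))) (.g (nat_lit 0) .nil .nil))) 
(.lf (nat_lit 14951) (.g (nat_lit 3273) (.e (nat_lit 1077) (nat_lit 81) (.e (nat_lit 1796) (nat_lit 119) (.e (nat_lit 516163) (nat_lit 11) (.e (nat_lit 442424) (nat_lit 22) (.e (nat_lit 196661) (nat_lit 12) (.e (nat_lit 57721) (nat_lit 177) (.e (nat_lit 57889) (nat_lit 270) .nil))))))) (.g (nat_lit 0) .nil .nil)))) (.nd (nat_lit 5) 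
(.lf (nat_lit 14935) (.g (nat_lit 943) (.e (nat_lit 1077) (nat_lit 81) (.e (nat_lit 1796) (nat_lit 119) (.e (nat_lit 516163) (nat_lit 11) (.e (nat_lit 442378) (nat_lit 0) .nil)))) .nil)) 
(.lf (nat_lit 14967) (.g (nat_lit 1954) (.e (nat_lit 1077) (nat_lit 81) (.e (nat_lit 1796) (nat_lit 119) (.e (nat_lit 516166) (nat_lit 12) (.e (nat_lit 450583) (nat_lit 7) (.e (nat_lit 548914) (nat_lit 19) (.e (nat_lit 180276) (nat_lit 32) .nil)))))) (.g (nat_lit 6) .nil .nil))))) (.nd (nat_lit 4) (.nd (nat_lit 5) 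
(.lf (nat_lit 14927) (.g (nat_lit 2496) (.e (nat_lit 1077) (nat_lit 81) (.e (nat_lit 1796) (nat_lit 119) (.e (nat_lit 516151) (nat_lit 9) (.e (nat_lit 426285) (nat_lit 10) (.e (nat_lit 434227) (nat_lit 20) .nil))))) .nil)) 
(.lf (nat_lit 14959) (.g (nat_lit 1747) (.e (nat_lit 1077) (nat_lit 81) (.e (nat_lit 1796) (nat_lit 119) (.e (nat_lit 516163) (nat_lit 11) (.e (nat_lit 442430) (nat_lit 24) (.e (nat_lit 237312) (nat_lit 134) (.e (nat_lit 2641) (nat_lit 165) (.e (nat_lit 180276) (nat_lit 32) .nil))))))) (.g (nat_lit 4) .nil .nil)))) (.nd (nat_lit 5) 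
(.lf (nat_lit 14943) (.g (nat_lit 2172) (.e (nat_lit 1077) (nat_lit 81) (.e (nat_lit 1796) (nat_lit 119) (.e (nat_lit 516163) (nat_lit 11) (.e (nat_lit 450304) (nat_lit 0) (.e (nat_lit 1860) (nat_lit 124) (.e (nat_lit 557103) (nat_lit 14) (.e (nat_lit 180276) (nat_lit 32) .nil))))))) (.g (nat_lit 6) .nil .nil))) 
(.lf (nat_lit 14975) (.g (nat_lit 1987) (.e (nat_lit 1077) (nat_lit 81) (.e (nat_lit 1796) (nat_lit 119) (.e (nat_lit 516175) (nat_lit 14) (.e (nat_lit 474880) (nat_lit 0) (.e (nat_lit 1853) (nat_lit 124) (.e (nat_lit 557103) (nat_lit 14) (.e (nat_lit 180276) (nat_lit 32) .nil))))))) (.g (nat_lit 6) .nil .nil)))))))))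

noncomputable def tv208 : DT := (.nd (nat_lit 0) (.nd (nat_lit 1) (.nd (nat_lit 2) (.nd (nat_lit 3) (.nd (nat_lit 4) (.nd (nat_lit 5) 
(.lf (nat_lit 14976) (.g (nat_lit 1208) (.e (nat_lit 1077) (nat_lit 81) (.e (nat_lit 1796) (nat_lit 119) (.e (nat_lit 516175) (nat_lit 14) (.e (nat_lit 466967) (nat_lit 20) (.e (nat_lit 3266) (nat_lit 199) (.e (nat_lit 548914) (nat_lit 19) (.e (nat_lit 180275) (nat_lit 32) .nil))))))) (.g (nat_lit 6) .nil .nil))) 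
(.lf (nat_lit 15008) (.g (nat_lit 2888) (.e (nat_lit 1077) (nat_lit 81) (.e (nat_lit 1853) (nat_lit 124) (.e (nat_lit 557087) (nat_lit 11) (.e (nat_lit 24623) (nat_lit 9) (.e (nat_lit 336028) (nat_lit 3) (.e (nat_lit 98350) (nat_lit 24) (.e (nat_lit 409617) (nat_lit 10) (.e (nat_lit 5353) (nat_lit 298) .nil)))))))) (.g (nat_lit 4) .nil .nil)))) (.nd (nat_lit 5) 
(.lf (nat_lit 14992) (.g (nat_lit 2014) (.e (nat_lit 1077) (nat_lit 81) (.e (nat_lit 1796) (nat_lit 119) (.e (nat_lit 516185) (nat_lit 16) (.e (nat_lit 491546) (nat_lit 9) (.e (nat_lit 336028) (nat_lit 3) .nil))))) .nil)) 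
(.lf (nat_lit 15024) (.g (nat_lit 2240) (.e (nat_lit 1078) (nat_lit 81) (.e (nat_lit 1531) (nat_lit 109) (.e (nat_lit 344126) (nat_lit 25) (.e (nat_lit 548874) (nat_lit 5) (.e (nat_lit 1598) (nat_lit 111) .nil))))) .nil)))) (.nd (nat_lit 4) (.nd (nat_lit 5) 
(.lf (nat_lit 14984) (.g (nat_lit 1601) (.e (nat_lit 1077) (nat_lit 81) (.e (nat_lit 1796) (nat_lit 119) (.e (nat_lit 516175) (nat_lit 14) (.e (nat_lit 466976) (nat_lit 22) (.e (nat_lit 196628) (nat_lit 9) (.e (nat_lit 970) (nat_lit 81) (.e (nat_lit 6711) (nat_lit 360) (.e (nat_lit 164237) (nat_lit 187) .nil)))))))) (.g (nat_lit 6) .nil .nil))) 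
(.lf (nat_lit 15016) (.g (nat_lit 1568) (.e (nat_lit 1077) (nat_lit 81) (.e (nat_lit 5394) (nat_lit 301) (.e (nat_lit 57464) (nat_lit 23) (.e (nat_lit 516165) (nat_lit 12) (.e (nat_lit 458496) (nat_lit 1) (.e (nat_lit 500056) (nat_lit 17) (.e (nat_lit 65280) (nat_lit 176) .nil))))))) (.g (nat_lit 6) .nil .nil)))) (.nd (nat_lit 5) 
(.lf (nat_lit 15000) (.g (nat_lit 5338) (.e (nat_lit 1077) (nat_lit 81) (.e (nat_lit 1796) (nat_lit 119) (.e (nat_lit 516185) (nat_lit 16) (.e (nat_lit 491558) (nat_lit 10) (.e (nat_lit 344119) (nat_lit 21) (.e (nat_lit 516139) (nat_lit 7) (.e (nat_lit 409617) (nat_lit 10) (.e (nat_lit 5353) (nat_lit 298) .nil)))))))) (.g (nat_lit 0) .nil .nil))) 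
(.lf (nat_lit 15032) (.g (nat_lit 4260) (.e (nat_lit 1078) (nat_lit 81) (.e (nat_lit 5270) (nat_lit 298) (.e (nat_lit 1239) (nat_lit 91) (.e (nat_lit 90170) (nat_lit 13) (.e (nat_lit 172106) (nat_lit 10) (.e (nat_lit 434231) (nat_lit 23) (.e (nat_lit 532490) (nat_lit 0) (.e (nat_lit 7936) (nat_lit 332) .nil)))))))) (.g (nat_lit 7) .nil .nil)))))) (.nd (nat_lit 3) (.nd (nat_lit 4) (.nd (nat_lit 5) 
(.lf (nat_lit 14980) (.g (nat_lit 1745) (.e (nat_lit 1077) (nat_lit 81) (.e (nat_lit 1796) (nat_lit 119) (.e (nat_lit 516175) (nat_lit 14) (.e (nat_lit 466976) (nat_lit 22) (.e (nat_lit 196628) (nat_lit 9) (.e (nat_lit 968) (nat_lit 81) (.e (nat_lit 6711) (nat_lit 360) (.e (nat_lit 164236) (nat_lit 187) .nil)))))))) (.g (nat_lit 6) .nil .nil))) 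
(.lf (nat_lit 15012) (.g (nat_lit 2200) (.e (nat_lit 1077) (nat_lit 81) (.e (nat_lit 5270) (nat_lit 298) (.e (nat_lit 1239) (nat_lit 91) (.e (nat_lit 90170) (nat_lit 13) (.e (nat_lit 172106) (nat_lit 10) (.e (nat_lit 434244) (nat_lit 28) (.e (nat_lit 573468) (nat_lit 10) (.e (nat_lit 16128) (nat_lit 180) .nil)))))))) (.g (nat_lit 4) .nil .nil)))) (.nd (nat_lit 5) 
(.lf (nat_lit 14996) (.g (nat_lit 4481) (.e (nat_lit 1077) (nat_lit 81) (.e (nat_lit 1796) (nat_lit 119) (.e (nat_lit 516185) (nat_lit 16) (.e (nat_lit 491552) (nat_lit 9) (.e (nat_lit 336024) (nat_lit 3) (.e (nat_lit 98350) (nat_lit 24) (.e (nat_lit 409617) (nat_lit 10) (.e (nat_lit 5353) (nat_lit 298) .nil)))))))) (.g (nat_lit 8) .nil .nil))) 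
(.lf (nat_lit 15028) (.g (nat_lit 2224) (.e (nat_lit 1078) (nat_lit 81) (.e (nat_lit 1597) (nat_lit 111) (.e (nat_lit 360466) (nat_lit 3) (.e (nat_lit 516179) (nat_lit 15) (.e (nat_lit 475220) (nat_lit 44) (.e (nat_lit 737315) (nat_lit 12) (.e (nat_lit 8399) (nat_lit 120) .nil))))))) (.g (nat_lit 5) .nil .nil))))) (.nd (nat_lit 4) (.nd (nat_lit 5) 
(.lf (nat_lit 14988) (.g (nat_lit 2422) (.e (nat_lit 1077) (nat_lit 81) (.e (nat_lit 1796) (nat_lit 119) (.e (nat_lit 516175) (nat_lit 14) (.e (nat_lit 466981) (nat_lit 23) (.e (nat_lit 204846) (nat_lit 24) (.e (nat_lit 319502) (nat_lit 10) (.e (nat_lit 5315) (nat_lit 298) .nil))))))) (.g (nat_lit 5) .nil .nil))) 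
(.lf (nat_lit 15020) (.g (nat_lit 1180) (.e (nat_lit 1077) (nat_lit 81) (.e (nat_lit 5394) (nat_lit 301) (.e (nat_lit 57464) (nat_lit 23) (.e (nat_lit 516166) (nat_lit 12) (.e (nat_lit 458496) (nat_lit 1) .nil))))) .nil))) (.nd (nat_lit 5) 
(.lf (nat_lit 15004) (.g (nat_lit 4766) (.e (nat_lit 1077) (nat_lit 81) (.e (nat_lit 1796) (nat_lit 119) (.e (nat_lit 516185) (nat_lit 16) (.e (nat_lit 491560) (nat_lit 10) (.e (nat_lit 344118) (nat_lit 21) (.e (nat_lit 516139) (nat_lit 7) (.e (nat_lit 409616) (nat_lit 10) (.e (nat_lit 5353) (nat_lit 298) .nil)))))))) (.g (nat_lit 0) .nil .nil))) 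
(.lf (nat_lit 15036) (.g (nat_lit 2371) (.e (nat_lit 1078) (nat_lit 81) (.e (nat_lit 5394) (nat_lit 301) (.e (nat_lit 57464) (nat_lit 23) (.e (nat_lit 516165) (nat_lit 12) (.e (nat_lit 450579) (nat_lit 5) (.e (nat_lit 532484) (nat_lit 0) (.e (nat_lit 6198) (nat_lit 332) .nil))))))) (.g (nat_lit 0) .nil .nil))))))) (.nd (nat_lit 2) (.nd (nat_lit 3) (.nd (nat_lit 4) (.nd (nat_lit 5) 
(.lf (nat_lit 14978) (.g (nat_lit 1087) (.e (nat_lit 1077) (nat_lit 81) (.e (nat_lit 1796) (nat_lit 119) (.e (nat_lit 516175) (nat_lit 14) (.e (nat_lit 466976) (nat_lit 22) (.e (nat_lit 196628) (nat_lit 9) (.e (nat_lit 968) (nat_lit 81) (.e (nat_lit 6709) (nat_lit 360) (.e (nat_lit 164236) (nat_lit 187) .nil)))))))) (.g (nat_lit 4) .nil .nil))) 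
(.lf (nat_lit 15010) (.g (nat_lit 1804) (.e (nat_lit 1077) (nat_lit 81) (.e (nat_lit 1853) (nat_lit 124) (.e (nat_lit 557087) (nat_lit 11) (.e (nat_lit 24639) (nat_lit 10) .nil)))) .nil))) (.nd (nat_lit 5) 
(.lf (nat_lit 14994) (.g (nat_lit 5553) (.e (nat_lit 1077) (nat_lit 81) (.e (nat_lit 1796) (nat_lit 119) (.e (nat_lit 516185) (nat_lit 16) (.e (nat_lit 491546) (nat_lit 9) (.e (nat_lit 336028) (nat_lit 3) (.e (nat_lit 98350) (nat_lit 24) (.e (nat_lit 409617) (nat_lit 10) (.e (nat_lit 5353) (nat_lit 298) .nil)))))))) (.g (nat_lit 0) .nil .nil))) 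
(.lf (nat_lit 15026) (.g (nat_lit 2727) (.e (nat_lit 1078) (nat_lit 81) (.e (nat_lit 1582) (nat_lit 111) (.e (nat_lit 360475) (nat_lit 8) (.e (nat_lit 557087) (nat_lit 11) (.e (nat_lit 24645) (nat_lit 11) .nil))))) .nil)))) (.nd (nat_lit 4) (.nd (nat_lit 5) 
(.lf (nat_lit 14986) (.g (nat_lit 1988) (.e (nat_lit 1077) (nat_lit 81) (.e (nat_lit 1796) (nat_lit 119) (.e (nat_lit 516175) (nat_lit 14) (.e (nat_lit 466977) (nat_lit 22) (.e (nat_lit 196677) (nat_lit 16) (.e (nat_lit 123080) (nat_lit 177) (.e (nat_lit 57889) (nat_lit 270) .nil))))))) (.g (nat_lit 6) .nil .nil))) 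
(.lf (nat_lit 15018) (.g (nat_lit 1962) (.e (nat_lit 1077) (nat_lit 81) (.e (nat_lit 5394) (nat_lit 301) (.e (nat_lit 57464) (nat_lit 23) (.e (nat_lit 516165) (nat_lit 12) (.e (nat_lit 450579) (nat_lit 5) (.e (nat_lit 532488) (nat_lit 0) (.e (nat_lit 7936) (nat_lit 332) .nil))))))) (.g (nat_lit 6) .nil .nil)))) (.nd (nat_lit 5) 
(.lf (nat_lit 15002) (.g (nat_lit 2004) (.e (nat_lit 1077) (nat_lit 81) (.e (nat_lit 1796) (nat_lit 119) (.e (nat_lit 516185) (nat_lit 16) (.e (nat_lit 491560) (nat_lit 10) (.e (nat_lit 344118) (nat_lit 21) .nil))))) .nil)) 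
(.lf (nat_lit 15034) (.g (nat_lit 2245) (.e (nat_lit 1078) (nat_lit 81) (.e (nat_lit 5270) (nat_lit 298) (.e (nat_lit 1256) (nat_lit 92) (.e (nat_lit 98372) (nat_lit 29) (.e (nat_lit 450579) (nat_lit 5) (.e (nat_lit 532489) (nat_lit 0) (.e (nat_lit 6198) (nat_lit 332) .nil))))))) (.g (nat_lit 6) .nil .nil)))))) (.nd (nat_lit 3) (.nd (nat_lit 4) (.nd (nat_lit 5) 
(.lf (nat_lit 14982) (.g (nat_lit 1603) (.e (nat_lit 1077) (nat_lit 81) (.e (nat_lit 1796) (nat_lit 119) (.e (nat_lit 516175) (nat_lit 14) (.e (nat_lit 466976) (nat_lit 22) (.e (nat_lit 196628) (nat_lit 9) (.e (nat_lit 968) (nat_lit 81) (.e (nat_lit 6713) (nat_lit 360) (.e (nat_lit 164236) (nat_lit 187) .nil)))))))) (.g (nat_lit 6) .nil .nil))) 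
(.lf (nat_lit 15014) (.g (nat_lit 2653) (.e (nat_lit 1077) (nat_lit 81) (.e (nat_lit 5270) (nat_lit 298) (.e (nat_lit 1239) (nat_lit 91) (.e (nat_lit 90170) (nat_lit 13) (.e (nat_lit 172113) (nat_lit 10) (.e (nat_lit 434245) (nat_lit 28) (.e (nat_lit 573468) (nat_lit 10) (.e (nat_lit 16128) (nat_lit 180) .nil)))))))) (.g (nat_lit 4) .nil .nil)))) (.nd (nat_lit 5) 
(.lf (nat_lit 14998) (.g (nat_lit 2568) (.e (nat_lit 1077) (nat_lit 81) (.e (nat_lit 1796) (nat_lit 119) (.e (nat_lit 516185) (nat_lit 16) (.e (nat_lit 491558) (nat_lit 10) (.e (nat_lit 344119) (nat_lit 21) .nil))))) .nil)) 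
(.lf (nat_lit 15030) (.g (nat_lit 2268) (.e (nat_lit 1078) (nat_lit 81) (.e (nat_lit 1656) (nat_lit 115) (.e (nat_lit 393300) (nat_lit 27) (.e (nat_lit 491549) (nat_lit 9) (.e (nat_lit 336425) (nat_lit 28) (.e (nat_lit 434202) (nat_lit 18) (.e (nat_lit 4335) (nat_lit 257) .nil))))))) (.g (nat_lit 4) .nil .nil))))) (.nd (nat_lit 4) (.nd (nat_lit 5) 
(.lf (nat_lit 14990) (.g (nat_lit 905) (.e (nat_lit 1077) (nat_lit 81) (.e (nat_lit 1796) (nat_lit 119) (.e (nat_lit 516176) (nat_lit 14) (.e (nat_lit 474880) (nat_lit 0) .nil)))) .nil)) 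
(.lf (nat_lit 15022) (.g (nat_lit 4738) (.e (nat_lit 1078) (nat_lit 81) (.e (nat_lit 1463) (nat_lit 108) (.e (nat_lit 336013) (nat_lit 2) (.e (nat_lit 90170) (nat_lit 13) (.e (nat_lit 172106) (nat_lit 10) (.e (nat_lit 434231) (nat_lit 23) (.e (nat_lit 532481) (nat_lit 0) (.e (nat_lit 996) (nat_lit 81) (.e (nat_lit 4464) (nat_lit 263) .nil))))))))) (.g (nat_lit 8) .nil .nil)))) (.nd (nat_lit 5) 
(.lf (nat_lit 15006) (.g (nat_lit 4125) (.e (nat_lit 1077) (nat_lit 81) (.e (nat_lit 1796) (nat_lit 119) (.e (nat_lit 516185) (nat_lit 16) (.e (nat_lit 491560) (nat_lit 10) (.e (nat_lit 344118) (nat_lit 21) (.e (nat_lit 516142) (nat_lit 8) (.e (nat_lit 417815) (nat_lit 10) (.e (nat_lit 5353) (nat_lit 298) .nil)))))))) (.g (nat_lit 7) .nil .nil))) 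
(.lf (nat_lit 15038) (.g (nat_lit 1859) (.e (nat_lit 1079) (nat_lit 81) (.e (nat_lit 1031) (nat_lit 81) (.e (nat_lit 1858) (nat_lit 124) (.e (nat_lit 557105) (nat_lit 14) (.e (nat_lit 180252) (nat_lit 10) .nil))))) .nil))))))) (.nd (nat_lit 1) (.nd (nat_lit 2) (.nd (nat_lit 3) (.nd (nat_lit 4) (.nd (nat_lit 5) 
(.lf (nat_lit 14977) (.g (nat_lit 1301) (.e (nat_lit 1077) (nat_lit 81) (.e (nat_lit 1796) (nat_lit 119) (.e (nat_lit 516175) (nat_lit 14) (.e (nat_lit 466967) (nat_lit 20) (.e (nat_lit 3266) (nat_lit 199) (.e (nat_lit 548914) (nat_lit 19) (.e (nat_lit 180276) (nat_lit 32) .nil))))))) (.g (nat_lit 6) .nil .nil))) 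
(.lf (nat_lit 15009) (.g (nat_lit 4396) (.e (nat_lit 1077) (nat_lit 81) (.e (nat_lit 1853) (nat_lit 124) (.e (nat_lit 557087) (nat_lit 11) (.e (nat_lit 24636) (nat_lit 9) (.e (nat_lit 336017) (nat_lit 3) (.e (nat_lit 98350) (nat_lit 24) (.e (nat_lit 409617) (nat_lit 10) (.e (nat_lit 5353) (nat_lit 298) .nil)))))))) (.g (nat_lit 8) .nil .nil)))) (.nd (nat_lit 5) 
(.lf (nat_lit 14993) (.g (nat_lit 2986) (.e (nat_lit 1077) (nat_lit 81) (.e (nat_lit 1796) (nat_lit 119) (.e (nat_lit 516185) (nat_lit 16) (.e (nat_lit 491546) (nat_lit 9) (.e (nat_lit 336028) (nat_lit 3) (.e (nat_lit 98349) (nat_lit 24) (.e (nat_lit 409617) (nat_lit 10) (.e (nat_lit 5353) (nat_lit 298) .nil)))))))) (.g (nat_lit 5) .nil .nil))) 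
(.lf (nat_lit 15025) (.g (nat_lit 1556) (.e (nat_lit 1078) (nat_lit 81) (.e (nat_lit 1582) (nat_lit 111) (.e (nat_lit 360451) (nat_lit 0) (.e (nat_lit 7265) (nat_lit 384) (.e (nat_lit 57436) (nat_lit 17) (.e (nat_lit 376860) (nat_lit 21) (.e (nat_lit 57670) (nat_lit 152) .nil))))))) (.g (nat_lit 4) .nil .nil))))) (.nd (nat_lit 4) (.nd (nat_lit 5) 
(.lf (nat_lit 14985) (.g (nat_lit 1601) (.e (nat_lit 1077) (nat_lit 81) (.e (nat_lit 1796) (nat_lit 119) (.e (nat_lit 516175) (nat_lit 14) (.e (nat_lit 466976) (nat_lit 22) (.e (nat_lit 196628) (nat_lit 9) (.e (nat_lit 970) (nat_lit 81) (.e (nat_lit 6713) (nat_lit 360) (.e (nat_lit 164236) (nat_lit 187) .nil)))))))) (.g (nat_lit 6) .nil .nil))) 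
(.lf (nat_lit 15017) (.g (nat_lit 2138) (.e (nat_lit 1077) (nat_lit 81) (.e (nat_lit 5394) (nat_lit 301) (.e (nat_lit 57464) (nat_lit 23) (.e (nat_lit 516165) (nat_lit 12) (.e (nat_lit 450579) (nat_lit 5) (.e (nat_lit 532484) (nat_lit 0) (.e (nat_lit 7936) (nat_lit 332) .nil))))))) (.g (nat_lit 6) .nil .nil)))) (.nd (nat_lit 5) 
(.lf (nat_lit 15001) (.g (nat_lit 1845) (.e (nat_lit 1077) (nat_lit 81) (.e (nat_lit 1796) (nat_lit 119) (.e (nat_lit 516185) (nat_lit 16) (.e (nat_lit 491560) (nat_lit 10) (.e (nat_lit 344117) (nat_lit 21) .nil))))) .nil)) 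
(.lf (nat_lit 15033) (.g (nat_lit 2681) (.e (nat_lit 1078) (nat_lit 81) (.e (nat_lit 5270) (nat_lit 298) (.e (nat_lit 1256) (nat_lit 92) (.e (nat_lit 98372) (nat_lit 29) (.e (nat_lit 450579) (nat_lit 5) (.e (nat_lit 532484) (nat_lit 0) (.e (nat_lit 6198) (nat_lit 332) .nil))))))) (.g (nat_lit 0) .nil .nil)))))) (.nd (nat_lit 3) (.nd (nat_lit 4) (.nd (nat_lit 5) 
(.lf (nat_lit 14981) (.g (nat_lit 1638) (.e (nat_lit 1077) (nat_lit 81) (.e (nat_lit 1796) (nat_lit 119) (.e (nat_lit 516175) (nat_lit 14) (.e (nat_lit 466976) (nat_lit 22) (.e (nat_lit 196628) (nat_lit 9) (.e (nat_lit 968) (nat_lit 81) (.e (nat_lit 6711) (nat_lit 360) (.e (nat_lit 164237) (nat_lit 187) .nil)))))))) (.g (nat_lit 6) .nil .nil))) 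
(.lf (nat_lit 15013) (.g (nat_lit 3338) (.e (nat_lit 1077) (nat_lit 81) (.e (nat_lit 5270) (nat_lit 298) (.e (nat_lit 1239) (nat_lit 91) (.e (nat_lit 90170) (nat_lit 13) (.e (nat_lit 172113) (nat_lit 10) (.e (nat_lit 434245) (nat_lit 28) (.e (nat_lit 573468) (nat_lit 10) (.e (nat_lit 8490) (nat_lit 180) .nil)))))))) (.g (nat_lit 5) .nil .nil)))) (.nd (nat_lit 5) 
(.lf (nat_lit 14997) (.g (nat_lit 4602) (.e (nat_lit 1077) (nat_lit 81) (.e (nat_lit 1796) (nat_lit 119) (.e (nat_lit 516185) (nat_lit 16) (.e (nat_lit 491556) (nat_lit 9) (.e (nat_lit 336017) (nat_lit 3) (.e (nat_lit 98350) (nat_lit 24) (.e (nat_lit 409617) (nat_lit 10) (.e (nat_lit 5353) (nat_lit 298) .nil)))))))) (.g (nat_lit 8) .nil .nil))) 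
(.lf (nat_lit 15029) (.g (nat_lit 836) (.e (nat_lit 1078) (nat_lit 81) (.e (nat_lit 1597) (nat_lit 111) (.e (nat_lit 360466) (nat_lit 3) (.e (nat_lit 516182) (nat_lit 15) .nil)))) .nil)))) (.nd (nat_lit 4) (.nd (nat_lit 5) 
(.lf (nat_lit 14989) (.g (nat_lit 1578) (.e (nat_lit 1077) (nat_lit 81) (.e (nat_lit 1796) (nat_lit 119) (.e (nat_lit 516176) (nat_lit 14) (.e (nat_lit 466947) (nat_lit 0) (.e (nat_lit 1856) (nat_lit 124) (.e (nat_lit 557105) (nat_lit 14) (.e (nat_lit 180275) (nat_lit 32) .nil))))))) (.g (nat_lit 4) .nil .nil))) 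
(.lf (nat_lit 15021) (.g (nat_lit 2451) (.e (nat_lit 1078) (nat_lit 81) (.e (nat_lit 1448) (nat_lit 108) (.e (nat_lit 336013) (nat_lit 2) (.e (nat_lit 90170) (nat_lit 13) (.e (nat_lit 172106) (nat_lit 10) (.e (nat_lit 434231) (nat_lit 23) (.e (nat_lit 532490) (nat_lit 0) (.e (nat_lit 1040) (nat_lit 81) (.e (nat_lit 4506) (nat_lit 263) .nil))))))))) (.g (nat_lit 5) .nil .nil)))) (.nd (nat_lit 5) 
(.lf (nat_lit 15005) (.g (nat_lit 4826) (.e (nat_lit 1077) (nat_lit 81) (.e (nat_lit 1796) (nat_lit 119) (.e (nat_lit 516185) (nat_lit 16) (.e (nat_lit 491560) (nat_lit 10) (.e (nat_lit 344118) (nat_lit 21) (.e (nat_lit 516139) (nat_lit 7) (.e (nat_lit 409617) (nat_lit 10) (.e (nat_lit 5353) (nat_lit 298) .nil)))))))) (.g (nat_lit 0) .nil .nil))) 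
(.lf (nat_lit 15037) (.g (nat_lit 1853) (.e (nat_lit 1078) (nat_lit 81) (.e (nat_lit 5394) (nat_lit 301) (.e (nat_lit 57464) (nat_lit 23) (.e (nat_lit 516165) (nat_lit 12) (.e (nat_lit 450579) (nat_lit 5) (.e (nat_lit 532489) (nat_lit 0) (.e (nat_lit 6198) (nat_lit 332) .nil))))))) (.g (nat_lit 6) .nil .nil))))))) (.nd (nat_lit 2) (.nd (nat_lit 3) (.nd (nat_lit 4) (.nd (nat_lit 5) 
(.lf (nat_lit 14979) (.g (nat_lit 1306) (.e (nat_lit 1077) (nat_lit 81) (.e (nat_lit 1796) (nat_lit 119) (.e (nat_lit 516175) (nat_lit 14) (.e (nat_lit 466976) (nat_lit 22) (.e (nat_lit 196628) (nat_lit 9) (.e (nat_lit 968) (nat_lit 81) (.e (nat_lit 6710) (nat_lit 360) (.e (nat_lit 164237) (nat_lit 187) .nil)))))))) (.g (nat_lit 5) .nil .nil))) 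
(.lf (nat_lit 15011) (.g (nat_lit 3539) (.e (nat_lit 1077) (nat_lit 81) (.e (nat_lit 4211) (nat_lit 251) (.e (nat_lit 1221) (nat_lit 90) (.e (nat_lit 81956) (nat_lit 23) (.e (nat_lit 98350) (nat_lit 24) (.e (nat_lit 409649) (nat_lit 18) (.e (nat_lit 303149) (nat_lit 15) .nil))))))) (.g (nat_lit 7) .nil .nil)))) (.nd (nat_lit 5) 
(.lf (nat_lit 14995) (.g (nat_lit 3285) (.e (nat_lit 1077) (nat_lit 81) (.e (nat_lit 1796) (nat_lit 119) (.e (nat_lit 516185) (nat_lit 16) (.e (nat_lit 491552) (nat_lit 9) (.e (nat_lit 336020) (nat_lit 3) (.e (nat_lit 98350) (nat_lit 24) (.e (nat_lit 409617) (nat_lit 10) (.e (nat_lit 5353) (nat_lit 298) .nil)))))))) (.g (nat_lit 6) .nil .nil))) 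
(.lf (nat_lit 15027) (.g (nat_lit 808) (.e (nat_lit 1078) (nat_lit 81) (.e (nat_lit 1597) (nat_lit 111) (.e (nat_lit 360466) (nat_lit 3) (.e (nat_lit 516179) (nat_lit 15) .nil)))) .nil)))) (.nd (nat_lit 4) (.nd (nat_lit 5) 
(.lf (nat_lit 14987) (.g (nat_lit 440) (.e (nat_lit 1077) (nat_lit 81) (.e (nat_lit 1796) (nat_lit 119) (.e (nat_lit 516175) (nat_lit 14) (.e (nat_lit 466981) (nat_lit 23) .nil)))) .nil)) 
(.lf (nat_lit 15019) (.g (nat_lit 1969) (.e (nat_lit 1077) (nat_lit 81) (.e (nat_lit 5394) (nat_lit 301) (.e (nat_lit 57464) (nat_lit 23) (.e (nat_lit 516165) (nat_lit 12) (.e (nat_lit 450579) (nat_lit 5) (.e (nat_lit 532489) (nat_lit 0) (.e (nat_lit 7936) (nat_lit 332) .nil))))))) (.g (nat_lit 6) .nil .nil)))) (.nd (nat_lit 5) 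
(.lf (nat_lit 15003) (.g (nat_lit 2184) (.e (nat_lit 1077) (nat_lit 81) (.e (nat_lit 1796) (nat_lit 119) (.e (nat_lit 516185) (nat_lit 16) (.e (nat_lit 491560) (nat_lit 10) (.e (nat_lit 344118) (nat_lit 21) (.e (nat_lit 516138) (nat_lit 7) (.e (nat_lit 409612) (nat_lit 10) (.e (nat_lit 5353) (nat_lit 298) .nil)))))))) (.g (nat_lit 4) .nil .nil))) 
(.lf (nat_lit 15035) (.g (nat_lit 1383) (.e (nat_lit 1078) (nat_lit 81) (.e (nat_lit 5270) (nat_lit 298) (.e (nat_lit 1256) (nat_lit 92) (.e (nat_lit 98372) (nat_lit 29) (.e (nat_lit 450579) (nat_lit 5) (.e (nat_lit 532489) (nat_lit 0) (.e (nat_lit 7936) (nat_lit 332) .nil))))))) (.g (nat_lit 4) .nil .nil)))))) (.nd (nat_lit 3) (.nd (nat_lit 4) (.nd (nat_lit 5) 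
(.lf (nat_lit 14983) (.g (nat_lit 1719) (.e (nat_lit 1077) (nat_lit 81) (.e (nat_lit 1796) (nat_lit 119) (.e (nat_lit 516175) (nat_lit 14) (.e (nat_lit 466976) (nat_lit 22) (.e (nat_lit 196628) (nat_lit 9) (.e (nat_lit 970) (nat_lit 81) (.e (nat_lit 6711) (nat_lit 360) (.e (nat_lit 164236) (nat_lit 187) .nil)))))))) (.g (nat_lit 6) .nil .nil))) 
(.lf (nat_lit 15015) (.g (nat_lit 3226) (.e (nat_lit 1077) (nat_lit 81) (.e (nat_lit 5293) (nat_lit 298) (.e (nat_lit 1656) (nat_lit 115) (.e (nat_lit 393301) (nat_lit 27) (.e (nat_lit 491563) (nat_lit 12) (.e (nat_lit 392960) (nat_lit 16) .nil)))))) (.g (nat_lit 5) .nil .nil)))) (.nd (nat_lit 5) 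
(.lf (nat_lit 14999) (.g (nat_lit 5015) (.e (nat_lit 1077) (nat_lit 81) (.e (nat_lit 1796) (nat_lit 119) (.e (nat_lit 516185) (nat_lit 16) (.e (nat_lit 491558) (nat_lit 10) (.e (nat_lit 344119) (nat_lit 21) (.e (nat_lit 516139) (nat_lit 7) (.e (nat_lit 409616) (nat_lit 10) (.e (nat_lit 5353) (nat_lit 298) .nil)))))))) (.g (nat_lit 7) .nil .nil))) 
(.lf (nat_lit 15031) (.g (nat_lit 565) (.e (nat_lit 1078) (nat_lit 81) (.e (nat_lit 1853) (nat_lit 124) (.e (nat_lit 557087) (nat_lit 11) .nil))) .nil)))) (.nd (nat_lit 4) (.nd (nat_lit 5) 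
(.lf (nat_lit 14991) (.g (nat_lit 2524) (.e (nat_lit 1077) (nat_lit 81) (.e (nat_lit 1796) (nat_lit 119) (.e (nat_lit 516185) (nat_lit 16) (.e (nat_lit 491526) (nat_lit 0) (.e (nat_lit 2006) (nat_lit 138) .nil))))) .nil)) 
(.lf (nat_lit 15023) (.g (nat_lit 4647) (.e (nat_lit 1078) (nat_lit 81) (.e (nat_lit 1463) (nat_lit 108) (.e (nat_lit 336013) (nat_lit 2) (.e (nat_lit 90170) (nat_lit 13) (.e (nat_lit 172106) (nat_lit 10) (.e (nat_lit 434231) (nat_lit 23) (.e (nat_lit 532500) (nat_lit 1) (.e (nat_lit 57765) (nat_lit 221) .nil)))))))) (.g (nat_lit 7) .nil .nil)))) (.nd (nat_lit 5) 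
(.lf (nat_lit 15007) (.g (nat_lit 2859) (.e (nat_lit 1077) (nat_lit 81) (.e (nat_lit 1796) (nat_lit 119) (.e (nat_lit 516185) (nat_lit 16) (.e (nat_lit 491560) (nat_lit 10) (.e (nat_lit 344120) (nat_lit 21) (.e (nat_lit 516139) (nat_lit 7) (.e (nat_lit 409616) (nat_lit 10) (.e (nat_lit 5353) (nat_lit 298) .nil)))))))) (.g (nat_lit 4) .nil .nil))) 
(.lf (nat_lit 15039) (.g (nat_lit 3991) (.e (nat_lit 1079) (nat_lit 81) (.e (nat_lit 1225) (nat_lit 91) (.e (nat_lit 90170) (nat_lit 13) (.e (nat_lit 172106) (nat_lit 10) (.e (nat_lit 434231) (nat_lit 23) (.e (nat_lit 532544) (nat_lit 10) (.e (nat_lit 344096) (nat_lit 18) (.e (nat_lit 4764) (nat_lit 281) .nil)))))))) (.g (nat_lit 8) .nil .nil)))))))))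

noncomputable def tv209 : DT := (.nd (nat_lit 0) (.nd (nat_lit 1) (.nd (nat_lit 2) (.nd (nat_lit 3) (.nd (nat_lit 4) (.nd (nat_lit 5) 
(.lf (nat_lit 15040) (.g (nat_lit 1609) (.e (nat_lit 1079) (nat_lit 81) (.e (nat_lit 1232) (nat_lit 91) (.e (nat_lit 90170) (nat_lit 13) (.e (nat_lit 172106) (nat_lit 10) (.e (nat_lit 434231) (nat_lit 23) (.e (nat_lit 532535) (nat_lit 9) (.e (nat_lit 335925) (nat_lit 0) (.e (nat_lit 993) (nat_lit 81) (.e (nat_lit 4764) (nat_lit 281) .nil))))))))) (.g (nat_lit 4) .nil .nil))) 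
(.lf (nat_lit 15072) (.g (nat_lit 1940) (.e (nat_lit 1079) (nat_lit 81) (.e (nat_lit 5394) (nat_lit 301) (.e (nat_lit 57464) (nat_lit 23) (.e (nat_lit 516165) (nat_lit 12) (.e (nat_lit 450579) (nat_lit 5) (.e (nat_lit 532484) (nat_lit 0) (.e (nat_lit 7936) (nat_lit 332) .nil))))))) (.g (nat_lit 6) .nil .nil)))) (.nd (nat_lit 5) 
(.lf (nat_lit 15056) (.g (nat_lit 1892) (.e (nat_lit 1079) (nat_lit 81) (.e (nat_lit 1597) (nat_lit 111) (.e (nat_lit 360466) (nat_lit 3) (.e (nat_lit 516179) (nat_lit 15) (.e (nat_lit 475219) (nat_lit 44) (.e (nat_lit 737315) (nat_lit 12) (.e (nat_lit 8399) (nat_lit 120) .nil))))))) (.g (nat_lit 4) .nil .nil))) 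
(.lf (nat_lit 15088) (.g (nat_lit 1333) (.e (nat_lit 1082) (nat_lit 81) (.e (nat_lit 1425) (nat_lit 108) (.e (nat_lit 336019) (nat_lit 3) (.e (nat_lit 98381) (nat_lit 31) (.e (nat_lit 474880) (nat_lit 3) (.e (nat_lit 98333) (nat_lit 18) (.e (nat_lit 164226) (nat_lit 181) .nil))))))) (.g (nat_lit 4) .nil .nil))))) (.nd (nat_lit 4) (.nd (nat_lit 5) 
(.lf (nat_lit 15048) (.g (nat_lit 1397) (.e (nat_lit 1079) (nat_lit 81) (.e (nat_lit 1555) (nat_lit 110) (.e (nat_lit 360192) (nat_lit 16) (.e (nat_lit 466972) (nat_lit 21) (.e (nat_lit 164332) (nat_lit 230) (.e (nat_lit 163862) (nat_lit 1) (.e (nat_lit 164222) (nat_lit 181) .nil))))))) (.g (nat_lit 5) .nil .nil))) 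
(.lf (nat_lit 15080) (.g (nat_lit 2468) (.e (nat_lit 1081) (nat_lit 81) (.e (nat_lit 5394) (nat_lit 301) (.e (nat_lit 57464) (nat_lit 23) (.e (nat_lit 516151) (nat_lit 9) (.e (nat_lit 426208) (nat_lit 9) (.e (nat_lit 426125) (nat_lit 2) (.e (nat_lit 196661) (nat_lit 12) (.e (nat_lit 57712) (nat_lit 176) .nil)))))))) (.g (nat_lit 4) .nil .nil)))) (.nd (nat_lit 5) 
(.lf (nat_lit 15064) (.g (nat_lit 3240) (.e (nat_lit 1079) (nat_lit 81) (.e (nat_lit 5270) (nat_lit 298) (.e (nat_lit 1239) (nat_lit 91) (.e (nat_lit 90170) (nat_lit 13) (.e (nat_lit 172113) (nat_lit 10) (.e (nat_lit 434227) (nat_lit 20) (.e (nat_lit 507928) (nat_lit 10) (.e (nat_lit 4929) (nat_lit 287) .nil)))))))) (.g (nat_lit 5) .nil .nil))) 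
(.lf (nat_lit 15096) (.g (nat_lit 2553) (.e (nat_lit 1082) (nat_lit 81) (.e (nat_lit 1661) (nat_lit 115) (.e (nat_lit 393251) (nat_lit 18) (.e (nat_lit 164325) (nat_lit 230) (.e (nat_lit 163864) (nat_lit 1) .nil))))) .nil))))) (.nd (nat_lit 3) (.nd (nat_lit 4) (.nd (nat_lit 5) 
(.lf (nat_lit 15044) (.g (nat_lit 5585) (.e (nat_lit 1079) (nat_lit 81) (.e (nat_lit 1448) (nat_lit 108) (.e (nat_lit 336013) (nat_lit 2) (.e (nat_lit 90170) (nat_lit 13) (.e (nat_lit 172106) (nat_lit 10) (.e (nat_lit 434231) (nat_lit 23) (.e (nat_lit 532481) (nat_lit 0) (.e (nat_lit 996) (nat_lit 81) (.e (nat_lit 4460) (nat_lit 263) .nil))))))))) (.g (nat_lit 7) .nil .nil))) 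
(.lf (nat_lit 15076) (.g (nat_lit 1650) (.e (nat_lit 1080) (nat_lit 81) (.e (nat_lit 1633) (nat_lit 114) (.e (nat_lit 385068) (nat_lit 26) (.e (nat_lit 532533) (nat_lit 9) (.e (nat_lit 336211) (nat_lit 13) .nil))))) .nil))) (.nd (nat_lit 5) 
(.lf (nat_lit 15060) (.g (nat_lit 4400) (.e (nat_lit 1079) (nat_lit 81) (.e (nat_lit 5270) (nat_lit 298) (.e (nat_lit 1239) (nat_lit 91) (.e (nat_lit 90170) (nat_lit 13) (.e (nat_lit 172106) (nat_lit 10) (.e (nat_lit 434231) (nat_lit 23) (.e (nat_lit 532483) (nat_lit 0) (.e (nat_lit 6198) (nat_lit 332) .nil)))))))) (.g (nat_lit 6) .nil .nil))) 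
(.lf (nat_lit 15092) (.g (nat_lit 1700) (.e (nat_lit 1082) (nat_lit 81) (.e (nat_lit 1661) (nat_lit 115) (.e (nat_lit 393251) (nat_lit 18) (.e (nat_lit 164189) (nat_lit 157) .nil)))) .nil)))) (.nd (nat_lit 4) (.nd (nat_lit 5) 
(.lf (nat_lit 15052) (.g (nat_lit 888) (.e (nat_lit 1079) (nat_lit 81) (.e (nat_lit 1582) (nat_lit 111) (.e (nat_lit 360489) (nat_lit 21) (.e (nat_lit 770071) (nat_lit 8) (.e (nat_lit 65610) (nat_lit 10) .nil))))) .nil)) 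
(.lf (nat_lit 15084) (.g (nat_lit 3371) (.e (nat_lit 1082) (nat_lit 81) (.e (nat_lit 1234) (nat_lit 91) (.e (nat_lit 90170) (nat_lit 13) (.e (nat_lit 172106) (nat_lit 10) (.e (nat_lit 434231) (nat_lit 23) .nil))))) .nil))) (.nd (nat_lit 5) 
(.lf (nat_lit 15068) (.g (nat_lit 2012) (.e (nat_lit 1079) (nat_lit 81) (.e (nat_lit 5270) (nat_lit 298) (.e (nat_lit 1256) (nat_lit 92) (.e (nat_lit 98372) (nat_lit 29) (.e (nat_lit 450579) (nat_lit 5) (.e (nat_lit 532488) (nat_lit 0) (.e (nat_lit 7936) (nat_lit 332) .nil))))))) (.g (nat_lit 6) .nil .nil))) 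
(.lf (nat_lit 15100) (.g (nat_lit 2595) (.e (nat_lit 1082) (nat_lit 81) (.e (nat_lit 1661) (nat_lit 115) (.e (nat_lit 393260) (nat_lit 21) (.e (nat_lit 409616) (nat_lit 10) .nil)))) .nil)))))) (.nd (nat_lit 2) (.nd (nat_lit 3) (.nd (nat_lit 4) (.nd (nat_lit 5) 
(.lf (nat_lit 15042) (.g (nat_lit 2146) (.e (nat_lit 1079) (nat_lit 81) (.e (nat_lit 1250) (nat_lit 92) (.e (nat_lit 98372) (nat_lit 29) (.e (nat_lit 450579) (nat_lit 5) (.e (nat_lit 532543) (nat_lit 10) (.e (nat_lit 344096) (nat_lit 18) (.e (nat_lit 4764) (nat_lit 281) .nil))))))) (.g (nat_lit 4) .nil .nil))) 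
(.lf (nat_lit 15074) (.g (nat_lit 1771) (.e (nat_lit 1079) (nat_lit 81) (.e (nat_lit 5394) (nat_lit 301) (.e (nat_lit 57464) (nat_lit 23) (.e (nat_lit 516165) (nat_lit 12) (.e (nat_lit 450579) (nat_lit 5) (.e (nat_lit 532489) (nat_lit 0) (.e (nat_lit 7936) (nat_lit 332) .nil))))))) (.g (nat_lit 6) .nil .nil)))) (.nd (nat_lit 5) 
(.lf (nat_lit 15058) (.g (nat_lit 1969) (.e (nat_lit 1079) (nat_lit 81) (.e (nat_lit 1597) (nat_lit 111) (.e (nat_lit 360466) (nat_lit 3) (.e (nat_lit 516179) (nat_lit 15) (.e (nat_lit 475220) (nat_lit 44) (.e (nat_lit 737315) (nat_lit 12) (.e (nat_lit 8399) (nat_lit 120) .nil))))))) (.g (nat_lit 4) .nil .nil))) 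
(.lf (nat_lit 15090) (.g (nat_lit 1703) (.e (nat_lit 1082) (nat_lit 81) (.e (nat_lit 1661) (nat_lit 115) (.e (nat_lit 393251) (nat_lit 18) (.e (nat_lit 164151) (nat_lit 152) .nil)))) .nil)))) (.nd (nat_lit 4) (.nd (nat_lit 5) 
(.lf (nat_lit 15050) (.g (nat_lit 2906) (.e (nat_lit 1079) (nat_lit 81) (.e (nat_lit 1582) (nat_lit 111) (.e (nat_lit 360451) (nat_lit 0) (.e (nat_lit 7265) (nat_lit 384) (.e (nat_lit 57436) (nat_lit 17) (.e (nat_lit 376860) (nat_lit 21) (.e (nat_lit 57671) (nat_lit 152) .nil))))))) (.g (nat_lit 0) .nil .nil))) 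
(.lf (nat_lit 15082) (.g (nat_lit 2468) (.e (nat_lit 1081) (nat_lit 81) (.e (nat_lit 5394) (nat_lit 301) (.e (nat_lit 57464) (nat_lit 23) (.e (nat_lit 516151) (nat_lit 9) (.e (nat_lit 426215) (nat_lit 9) (.e (nat_lit 426125) (nat_lit 2) (.e (nat_lit 196661) (nat_lit 12) (.e (nat_lit 57712) (nat_lit 176) .nil)))))))) (.g (nat_lit 4) .nil .nil)))) (.nd (nat_lit 5) 
(.lf (nat_lit 15066) (.g (nat_lit 1930) (.e (nat_lit 1079) (nat_lit 81) (.e (nat_lit 5270) (nat_lit 298) (.e (nat_lit 1256) (nat_lit 92) (.e (nat_lit 98372) (nat_lit 29) (.e (nat_lit 450579) (nat_lit 5) (.e (nat_lit 532484) (nat_lit 0) (.e (nat_lit 6198) (nat_lit 332) .nil))))))) (.g (nat_lit 5) .nil .nil))) 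
(.lf (nat_lit 15098) (.g (nat_lit 2578) (.e (nat_lit 1082) (nat_lit 81) (.e (nat_lit 1661) (nat_lit 115) (.e (nat_lit 393251) (nat_lit 18) (.e (nat_lit 164325) (nat_lit 230) (.e (nat_lit 163864) (nat_lit 1) (.e (nat_lit 164332) (nat_lit 230) (.e (nat_lit 163885) (nat_lit 5) (.e (nat_lit 221208) (nat_lit 21) (.e (nat_lit 164226) (nat_lit 181) .nil))))))))) (.g (nat_lit 4) .nil .nil)))))) 
(.nd (nat_lit 3) (.nd (nat_lit 4) (.nd (nat_lit 5) 
(.lf (nat_lit 15046) (.g (nat_lit 3953) (.e (nat_lit 1079) (nat_lit 81) (.e (nat_lit 1531) (nat_lit 109) (.e (nat_lit 344117) (nat_lit 21) (.e (nat_lit 516165) (nat_lit 12) (.e (nat_lit 450579) (nat_lit 5) (.e (nat_lit 532504) (nat_lit 1) (.e (nat_lit 57765) (nat_lit 221) .nil))))))) (.g (nat_lit 6) .nil .nil))) 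
(.lf (nat_lit 15078) (.g (nat_lit 2009) (.e (nat_lit 1080) (nat_lit 81) (.e (nat_lit 5270) (nat_lit 298) (.e (nat_lit 1239) (nat_lit 91) (.e (nat_lit 90170) (nat_lit 13) (.e (nat_lit 172106) (nat_lit 10) (.e (nat_lit 434231) (nat_lit 23) (.e (nat_lit 532486) (nat_lit 0) (.e (nat_lit 6113) (nat_lit 332) .nil)))))))) (.g (nat_lit 4) .nil .nil)))) (.nd (nat_lit 5) 
(.lf (nat_lit 15062) (.g (nat_lit 3881) (.e (nat_lit 1079) (nat_lit 81) (.e (nat_lit 5270) (nat_lit 298) (.e (nat_lit 1239) (nat_lit 91) (.e (nat_lit 90170) (nat_lit 13) (.e (nat_lit 172106) (nat_lit 10) (.e (nat_lit 434244) (nat_lit 28) (.e (nat_lit 573468) (nat_lit 10) (.e (nat_lit 8490) (nat_lit 180) .nil)))))))) (.g (nat_lit 6) .nil .nil))) 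
(.lf (nat_lit 15094) (.g (nat_lit 2676) (.e (nat_lit 1082) (nat_lit 81) (.e (nat_lit 1661) (nat_lit 115) (.e (nat_lit 393251) (nat_lit 18) (.e (nat_lit 164325) (nat_lit 230) (.e (nat_lit 163861) (nat_lit 1) (.e (nat_lit 164332) (nat_lit 230) (.e (nat_lit 163885) (nat_lit 5) (.e (nat_lit 221207) (nat_lit 21) (.e (nat_lit 164224) (nat_lit 181) .nil))))))))) (.g (nat_lit 4) .nil .nil))))) 
(.nd (nat_lit 4) (.nd (nat_lit 5) 
(.lf (nat_lit 15054) (.g (nat_lit 1315) (.e (nat_lit 1079) (nat_lit 81) (.e (nat_lit 1597) (nat_lit 111) (.e (nat_lit 360452) (nat_lit 0) (.e (nat_lit 7271) (nat_lit 385) (.e (nat_lit 122916) (nat_lit 14) .nil))))) .nil)) 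
(.lf (nat_lit 15086) (.g (nat_lit 993) (.e (nat_lit 1082) (nat_lit 81) (.e (nat_lit 1425) (nat_lit 108) (.e (nat_lit 336019) (nat_lit 3) (.e (nat_lit 98380) (nat_lit 31) (.e (nat_lit 474880) (nat_lit 3) .nil))))) .nil))) (.nd (nat_lit 5) 
(.lf (nat_lit 15070) (.g (nat_lit 2747) (.e (nat_lit 1079) (nat_lit 81) (.e (nat_lit 5394) (nat_lit 301) (.e (nat_lit 57464) (nat_lit 23) (.e (nat_lit 516151) (nat_lit 9) (.e (nat_lit 426286) (nat_lit 10) (.e (nat_lit 434227) (nat_lit 20) (.e (nat_lit 507928) (nat_lit 10) (.e (nat_lit 4929) (nat_lit 287) .nil)))))))) (.g (nat_lit 7) .nil .nil))) 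
(.lf (nat_lit 15102) (.g (nat_lit 2112) (.e (nat_lit 1082) (nat_lit 81) (.e (nat_lit 1661) (nat_lit 115) (.e (nat_lit 393260) (nat_lit 21) (.e (nat_lit 409646) (nat_lit 18) .nil)))) .nil))))))) (.nd (nat_lit 1) (.nd (nat_lit 2) (.nd (nat_lit 3) (.nd (nat_lit 4) (.nd (nat_lit 5) 
(.lf (nat_lit 15041) (.g (nat_lit 3515) (.e (nat_lit 1079) (nat_lit 81) (.e (nat_lit 1232) (nat_lit 91) (.e (nat_lit 90170) (nat_lit 13) (.e (nat_lit 172106) (nat_lit 10) (.e (nat_lit 434231) (nat_lit 23) (.e (nat_lit 532543) (nat_lit 10) (.e (nat_lit 344096) (nat_lit 18) (.e (nat_lit 4764) (nat_lit 281) .nil)))))))) (.g (nat_lit 8) .nil .nil))) 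
(.lf (nat_lit 15073) (.g (nat_lit 1764) (.e (nat_lit 1079) (nat_lit 81) (.e (nat_lit 5394) (nat_lit 301) (.e (nat_lit 57464) (nat_lit 23) (.e (nat_lit 516165) (nat_lit 12) (.e (nat_lit 450579) (nat_lit 5) (.e (nat_lit 532488) (nat_lit 0) (.e (nat_lit 7936) (nat_lit 332) .nil))))))) (.g (nat_lit 6) .nil .nil)))) (.nd (nat_lit 5) 
(.lf (nat_lit 15057) (.g (nat_lit 1938) (.e (nat_lit 1079) (nat_lit 81) (.e (nat_lit 1597) (nat_lit 111) (.e (nat_lit 360466) (nat_lit 3) (.e (nat_lit 516179) (nat_lit 15) (.e (nat_lit 475220) (nat_lit 44) (.e (nat_lit 737315) (nat_lit 12) (.e (nat_lit 8398) (nat_lit 120) .nil))))))) (.g (nat_lit 4) .nil .nil))) 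
(.lf (nat_lit 15089) (.g (nat_lit 3045) (.e (nat_lit 1082) (nat_lit 81) (.e (nat_lit 1660) (nat_lit 115) (.e (nat_lit 401152) (nat_lit 12) (.e (nat_lit 360475) (nat_lit 8) (.e (nat_lit 557090) (nat_lit 12) (.e (nat_lit 163844) (nat_lit 0) (.e (nat_lit 5123) (nat_lit 292) .nil))))))) (.g (nat_lit 6) .nil .nil))))) (.nd (nat_lit 4) (.nd (nat_lit 5) 
(.lf (nat_lit 15049) (.g (nat_lit 1549) (.e (nat_lit 1079) (nat_lit 81) (.e (nat_lit 1582) (nat_lit 111) (.e (nat_lit 360451) (nat_lit 0) (.e (nat_lit 7265) (nat_lit 384) (.e (nat_lit 57436) (nat_lit 17) .nil))))) .nil)) 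
(.lf (nat_lit 15081) (.g (nat_lit 2472) (.e (nat_lit 1081) (nat_lit 81) (.e (nat_lit 5394) (nat_lit 301) (.e (nat_lit 57464) (nat_lit 23) (.e (nat_lit 516151) (nat_lit 9) (.e (nat_lit 426212) (nat_lit 9) (.e (nat_lit 426125) (nat_lit 2) (.e (nat_lit 196661) (nat_lit 12) (.e (nat_lit 57712) (nat_lit 176) .nil)))))))) (.g (nat_lit 4) .nil .nil)))) (.nd (nat_lit 5) 
(.lf (nat_lit 15065) (.g (nat_lit 2715) (.e (nat_lit 1079) (nat_lit 81) (.e (nat_lit 5270) (nat_lit 298) (.e (nat_lit 1256) (nat_lit 92) (.e (nat_lit 98370) (nat_lit 28) (.e (nat_lit 442424) (nat_lit 22) (.e (nat_lit 196628) (nat_lit 9) (.e (nat_lit 968) (nat_lit 81) (.e (nat_lit 6202) (nat_lit 332) .nil)))))))) (.g (nat_lit 6) .nil .nil))) 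
(.lf (nat_lit 15097) (.g (nat_lit 2563) (.e (nat_lit 1082) (nat_lit 81) (.e (nat_lit 1661) (nat_lit 115) (.e (nat_lit 393251) (nat_lit 18) (.e (nat_lit 164325) (nat_lit 230) (.e (nat_lit 163864) (nat_lit 1) (.e (nat_lit 164332) (nat_lit 230) (.e (nat_lit 163885) (nat_lit 5) (.e (nat_lit 221207) (nat_lit 21) (.e (nat_lit 164224) (nat_lit 181) .nil))))))))) (.g (nat_lit 4) .nil .nil)))))) 
(.nd (nat_lit 3) (.nd (nat_lit 4) (.nd (nat_lit 5) 
(.lf (nat_lit 15045) (.g (nat_lit 3818) (.e (nat_lit 1079) (nat_lit 81) (.e (nat_lit 1531) (nat_lit 109) (.e (nat_lit 344117) (nat_lit 21) (.e (nat_lit 516165) (nat_lit 12) (.e (nat_lit 450579) (nat_lit 5) (.e (nat_lit 532501) (nat_lit 1) (.e (nat_lit 57765) (nat_lit 221) .nil))))))) (.g (nat_lit 6) .nil .nil))) 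
(.lf (nat_lit 15077) (.g (nat_lit 2088) (.e (nat_lit 1080) (nat_lit 81) (.e (nat_lit 1633) (nat_lit 114) (.e (nat_lit 385068) (nat_lit 26) (.e (nat_lit 532534) (nat_lit 9) (.e (nat_lit 336211) (nat_lit 13) .nil))))) .nil))) (.nd (nat_lit 5) 
(.lf (nat_lit 15061) (.g (nat_lit 4427) (.e (nat_lit 1079) (nat_lit 81) (.e (nat_lit 5270) (nat_lit 298) (.e (nat_lit 1239) (nat_lit 91) (.e (nat_lit 90170) (nat_lit 13) (.e (nat_lit 172106) (nat_lit 10) (.e (nat_lit 434231) (nat_lit 23) (.e (nat_lit 532490) (nat_lit 0) (.e (nat_lit 7936) (nat_lit 332) .nil)))))))) (.g (nat_lit 7) .nil .nil))) 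
(.lf (nat_lit 15093) (.g (nat_lit 2460) (.e (nat_lit 1082) (nat_lit 81) (.e (nat_lit 1661) (nat_lit 115) (.e (nat_lit 393251) (nat_lit 18) (.e (nat_lit 164190) (nat_lit 157) (.e (nat_lit 229409) (nat_lit 13) (.e (nat_lit 434232) (nat_lit 23) (.e (nat_lit 532501) (nat_lit 1) (.e (nat_lit 57730) (nat_lit 181) .nil)))))))) (.g (nat_lit 5) .nil .nil))))) (.nd (nat_lit 4) (.nd (nat_lit 5) 
(.lf (nat_lit 15053) (.g (nat_lit 1478) (.e (nat_lit 1079) (nat_lit 81) (.e (nat_lit 1597) (nat_lit 111) (.e (nat_lit 360449) (nat_lit 0) (.e (nat_lit 7265) (nat_lit 384) (.e (nat_lit 57436) (nat_lit 17) .nil))))) .nil)) 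
(.lf (nat_lit 15085) (.g (nat_lit 2254) (.e (nat_lit 1082) (nat_lit 81) (.e (nat_lit 1235) (nat_lit 91) (.e (nat_lit 90170) (nat_lit 13) (.e (nat_lit 172106) (nat_lit 10) (.e (nat_lit 434231) (nat_lit 23) .nil))))) .nil))) (.nd (nat_lit 5) 
(.lf (nat_lit 15069) (.g (nat_lit 2152) (.e (nat_lit 1079) (nat_lit 81) (.e (nat_lit 5270) (nat_lit 298) (.e (nat_lit 1256) (nat_lit 92) (.e (nat_lit 98372) (nat_lit 29) (.e (nat_lit 450579) (nat_lit 5) (.e (nat_lit 532489) (nat_lit 0) (.e (nat_lit 7936) (nat_lit 332) .nil))))))) (.g (nat_lit 6) .nil .nil))) 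
(.lf (nat_lit 15101) (.g (nat_lit 2174) (.e (nat_lit 1082) (nat_lit 81) (.e (nat_lit 1661) (nat_lit 115) (.e (nat_lit 393260) (nat_lit 21) (.e (nat_lit 409617) (nat_lit 10) .nil)))) .nil)))))) (.nd (nat_lit 2) (.nd (nat_lit 3) (.nd (nat_lit 4) (.nd (nat_lit 5) 
(.lf (nat_lit 15043) (.g (nat_lit 2263) (.e (nat_lit 1079) (nat_lit 81) (.e (nat_lit 1250) (nat_lit 92) (.e (nat_lit 98372) (nat_lit 29) (.e (nat_lit 450579) (nat_lit 5) (.e (nat_lit 532544) (nat_lit 10) (.e (nat_lit 344096) (nat_lit 18) (.e (nat_lit 4764) (nat_lit 281) .nil))))))) (.g (nat_lit 4) .nil .nil))) 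
(.lf (nat_lit 15075) (.g (nat_lit 675) (.e (nat_lit 1080) (nat_lit 81) (.e (nat_lit 1006) (nat_lit 81) (.e (nat_lit 7266) (nat_lit 384) (.e (nat_lit 57445) (nat_lit 19) .nil)))) .nil))) (.nd (nat_lit 5) 
(.lf (nat_lit 15059) (.g (nat_lit 837) (.e (nat_lit 1079) (nat_lit 81) (.e (nat_lit 1597) (nat_lit 111) (.e (nat_lit 360466) (nat_lit 3) (.e (nat_lit 516182) (nat_lit 15) .nil)))) .nil)) 
(.lf (nat_lit 15091) (.g (nat_lit 2165) (.e (nat_lit 1082) (nat_lit 81) (.e (nat_lit 1661) (nat_lit 115) (.e (nat_lit 393251) (nat_lit 18) (.e (nat_lit 164151) (nat_lit 152) (.e (nat_lit 2636) (nat_lit 165) .nil))))) .nil)))) (.nd (nat_lit 4) (.nd (nat_lit 5) 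
(.lf (nat_lit 15051) (.g (nat_lit 160) (.e (nat_lit 1079) (nat_lit 81) (.e (nat_lit 1582) (nat_lit 111) (.e (nat_lit 360489) (nat_lit 21) .nil))) .nil)) 
(.lf (nat_lit 15083) (.g (nat_lit 2951) (.e (nat_lit 1081) (nat_lit 81) (.e (nat_lit 5394) (nat_lit 301) (.e (nat_lit 57464) (nat_lit 23) (.e (nat_lit 516163) (nat_lit 11) (.e (nat_lit 442424) (nat_lit 22) (.e (nat_lit 196661) (nat_lit 12) (.e (nat_lit 57712) (nat_lit 176) .nil))))))) (.g (nat_lit 0) .nil .nil)))) (.nd (nat_lit 5) 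
(.lf (nat_lit 15067) (.g (nat_lit 2193) (.e (nat_lit 1079) (nat_lit 81) (.e (nat_lit 5270) (nat_lit 298) (.e (nat_lit 1256) (nat_lit 92) (.e (nat_lit 98372) (nat_lit 29) (.e (nat_lit 450579) (nat_lit 5) (.e (nat_lit 532484) (nat_lit 0) (.e (nat_lit 7936) (nat_lit 332) .nil))))))) (.g (nat_lit 6) .nil .nil))) 
(.lf (nat_lit 15099) (.g (nat_lit 2407) (.e (nat_lit 1082) (nat_lit 81) (.e (nat_lit 1661) (nat_lit 115) (.e (nat_lit 393252) (nat_lit 18) (.e (nat_lit 164332) (nat_lit 230) (.e (nat_lit 163862) (nat_lit 1) .nil))))) .nil))))) (.nd (nat_lit 3) (.nd (nat_lit 4) (.nd (nat_lit 5) 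
(.lf (nat_lit 15047) (.g (nat_lit 2243) (.e (nat_lit 1079) (nat_lit 81) (.e (nat_lit 1531) (nat_lit 109) (.e (nat_lit 344126) (nat_lit 25) (.e (nat_lit 548874) (nat_lit 5) (.e (nat_lit 1598) (nat_lit 111) .nil))))) .nil)) 
(.lf (nat_lit 15079) (.g (nat_lit 5457) (.e (nat_lit 1081) (nat_lit 81) (.e (nat_lit 5270) (nat_lit 298) (.e (nat_lit 1239) (nat_lit 91) (.e (nat_lit 90170) (nat_lit 13) (.e (nat_lit 172106) (nat_lit 10) (.e (nat_lit 434231) (nat_lit 23) (.e (nat_lit 532490) (nat_lit 0) (.e (nat_lit 6114) (nat_lit 332) .nil)))))))) (.g (nat_lit 0) .nil .nil)))) (.nd (nat_lit 5) 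
(.lf (nat_lit 15063) (.g (nat_lit 3891) (.e (nat_lit 1079) (nat_lit 81) (.e (nat_lit 5270) (nat_lit 298) (.e (nat_lit 1239) (nat_lit 91) (.e (nat_lit 90170) (nat_lit 13) (.e (nat_lit 172106) (nat_lit 10) (.e (nat_lit 434244) (nat_lit 28) (.e (nat_lit 573468) (nat_lit 10) (.e (nat_lit 8493) (nat_lit 180) .nil)))))))) (.g (nat_lit 6) .nil .nil))) 
(.lf (nat_lit 15095) (.g (nat_lit 2691) (.e (nat_lit 1082) (nat_lit 81) (.e (nat_lit 1661) (nat_lit 115) (.e (nat_lit 393251) (nat_lit 18) (.e (nat_lit 164325) (nat_lit 230) (.e (nat_lit 163861) (nat_lit 1) (.e (nat_lit 164332) (nat_lit 230) (.e (nat_lit 163885) (nat_lit 5) (.e (nat_lit 221208) (nat_lit 21) (.e (nat_lit 164226) (nat_lit 181) .nil))))))))) (.g (nat_lit 4) .nil .nil))))) 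
(.nd (nat_lit 4) (.nd (nat_lit 5) 
(.lf (nat_lit 15055) (.g (nat_lit 1877) (.e (nat_lit 1079) (nat_lit 81) (.e (nat_lit 1597) (nat_lit 111) (.e (nat_lit 360466) (nat_lit 3) (.e (nat_lit 516179) (nat_lit 15) (.e (nat_lit 475219) (nat_lit 44) .nil))))) .nil)) 
(.lf (nat_lit 15087) (.g (nat_lit 1288) (.e (nat_lit 1082) (nat_lit 81) (.e (nat_lit 1425) (nat_lit 108) (.e (nat_lit 336019) (nat_lit 3) (.e (nat_lit 98381) (nat_lit 31) (.e (nat_lit 474880) (nat_lit 3) .nil))))) .nil))) (.nd (nat_lit 5) 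
(.lf (nat_lit 15071) (.g (nat_lit 1313) (.e (nat_lit 1079) (nat_lit 81) (.e (nat_lit 5394) (nat_lit 301) (.e (nat_lit 57464) (nat_lit 23) (.e (nat_lit 516165) (nat_lit 12) (.e (nat_lit 458496) (nat_lit 1) (.e (nat_lit 500056) (nat_lit 17) (.e (nat_lit 65280) (nat_lit 176) .nil))))))) (.g (nat_lit 6) .nil .nil))) 
(.lf (nat_lit 15103) (.g (nat_lit 1896) (.e (nat_lit 1082) (nat_lit 81) (.e (nat_lit 1661) (nat_lit 115) (.e (nat_lit 393260) (nat_lit 21) (.e (nat_lit 409648) (nat_lit 18) .nil)))) .nil))))))))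

noncomputable def tv210 : DT := (.nd (nat_lit 0) (.nd (nat_lit 1) (.nd (nat_lit 2) (.nd (nat_lit 3) (.nd (nat_lit 4) (.nd (nat_lit 5) (.nd (nat_lit 6) 
(.lf (nat_lit 15104) (.g (nat_lit 2672) (.e (nat_lit 1082) (nat_lit 81) (.e (nat_lit 1661) (nat_lit 115) (.e (nat_lit 393260) (nat_lit 21) (.e (nat_lit 409648) (nat_lit 18) (.e (nat_lit 303151) (nat_lit 27) .nil))))) .nil)) 
(.lf (nat_lit 15168) (.g (nat_lit 3038) (.e (nat_lit 1085) (nat_lit 81) (.e (nat_lit 1661) (nat_lit 115) (.e (nat_lit 393260) (nat_lit 21) (.e (nat_lit 409648) (nat_lit 18) (.e (nat_lit 303154) (nat_lit 28) .nil))))) .nil))) (.nd (nat_lit 6) 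
(.lf (nat_lit 15136) (.g (nat_lit 2382) (.e (nat_lit 1084) (nat_lit 81) (.e (nat_lit 1235) (nat_lit 91) (.e (nat_lit 90170) (nat_lit 13) (.e (nat_lit 172106) (nat_lit 10) (.e (nat_lit 434231) (nat_lit 23) (.e (nat_lit 532535) (nat_lit 9) (.e (nat_lit 335925) (nat_lit 0) (.e (nat_lit 993) (nat_lit 81) (.e (nat_lit 4761) (nat_lit 281) .nil))))))))) (.g (nat_lit 4) .nil .nil))) 
(.lf (nat_lit 15200) (.g (nat_lit 1992) (.e (nat_lit 1086) (nat_lit 81) (.e (nat_lit 1427) (nat_lit 108) (.e (nat_lit 336454) (nat_lit 34) (.e (nat_lit 483413) (nat_lit 27) .nil)))) .nil)))) (.nd (nat_lit 5) (.nd (nat_lit 6) 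
(.lf (nat_lit 15120) (.g (nat_lit 2272) (.e (nat_lit 1083) (nat_lit 81) (.e (nat_lit 1661) (nat_lit 115) (.e (nat_lit 393260) (nat_lit 21) (.e (nat_lit 409644) (nat_lit 18) .nil)))) .nil)) 
(.lf (nat_lit 15184) (.g (nat_lit 4801) (.e (nat_lit 1086) (nat_lit 81) (.e (nat_lit 1252) (nat_lit 92) (.e (nat_lit 98384) (nat_lit 32) (.e (nat_lit 475177) (nat_lit 24) (.e (nat_lit 516169) (nat_lit 13) (.e (nat_lit 458789) (nat_lit 23) (.e (nat_lit 532501) (nat_lit 1) (.e (nat_lit 57754) (nat_lit 209) .nil)))))))) (.g (nat_lit 7) .nil .nil)))) (.nd (nat_lit 6) 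
(.lf (nat_lit 15152) (.g (nat_lit 2739) (.e (nat_lit 1084) (nat_lit 81) (.e (nat_lit 1661) (nat_lit 115) (.e (nat_lit 393260) (nat_lit 21) (.e (nat_lit 409648) (nat_lit 18) (.e (nat_lit 303151) (nat_lit 27) (.e (nat_lit 335894) (nat_lit 0) (.e (nat_lit 974) (nat_lit 81) (.e (nat_lit 4824) (nat_lit 281) .nil)))))))) (.g (nat_lit 4) .nil .nil))) 
(.lf (nat_lit 15216) (.g (nat_lit 3149) (.e (nat_lit 1086) (nat_lit 81) (.e (nat_lit 1660) (nat_lit 115) (.e (nat_lit 393229) (nat_lit 9) (.e (nat_lit 336088) (nat_lit 9) (.e (nat_lit 336019) (nat_lit 3) (.e (nat_lit 98334) (nat_lit 18) (.e (nat_lit 164166) (nat_lit 152) .nil))))))) (.g (nat_lit 7) .nil .nil)))))) (.nd (nat_lit 4) (.nd (nat_lit 5) (.nd (nat_lit 6) 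
(.lf (nat_lit 15112) (.g (nat_lit 667) (.e (nat_lit 1083) (nat_lit 81) (.e (nat_lit 1661) (nat_lit 115) (.e (nat_lit 393251) (nat_lit 18) .nil))) .nil)) 
(.lf (nat_lit 15176) (.g (nat_lit 2394) (.e (nat_lit 1086) (nat_lit 81) (.e (nat_lit 1234) (nat_lit 91) (.e (nat_lit 90174) (nat_lit 14) (.e (nat_lit 180250) (nat_lit 10) (.e (nat_lit 573487) (nat_lit 14) .nil))))) .nil))) (.nd (nat_lit 6) 
(.lf (nat_lit 15144) (.g (nat_lit 993) (.e (nat_lit 1084) (nat_lit 81) (.e (nat_lit 1425) (nat_lit 108) (.e (nat_lit 336019) (nat_lit 3) (.e (nat_lit 98380) (nat_lit 31) (.e (nat_lit 474880) (nat_lit 3) .nil))))) .nil)) 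
(.lf (nat_lit 15208) (.g (nat_lit 468) (.e (nat_lit 1086) (nat_lit 81) (.e (nat_lit 1659) (nat_lit 115) (.e (nat_lit 401152) (nat_lit 12) .nil))) .nil)))) (.nd (nat_lit 5) (.nd (nat_lit 6) 
(.lf (nat_lit 15128) (.g (nat_lit 3180) (.e (nat_lit 1083) (nat_lit 81) (.e (nat_lit 1661) (nat_lit 115) (.e (nat_lit 393260) (nat_lit 21) (.e (nat_lit 409649) (nat_lit 18) (.e (nat_lit 303151) (nat_lit 27) .nil))))) .nil)) 
(.lf (nat_lit 15192) (.g (nat_lit 2891) (.e (nat_lit 1086) (nat_lit 81) (.e (nat_lit 1427) (nat_lit 108) (.e (nat_lit 336443) (nat_lit 32) (.e (nat_lit 466977) (nat_lit 22) (.e (nat_lit 196656) (nat_lit 11) .nil))))) .nil))) (.nd (nat_lit 6) 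
(.lf (nat_lit 15160) (.g (nat_lit 3506) (.e (nat_lit 1085) (nat_lit 81) (.e (nat_lit 1234) (nat_lit 91) (.e (nat_lit 90170) (nat_lit 13) (.e (nat_lit 172106) (nat_lit 10) (.e (nat_lit 434231) (nat_lit 23) (.e (nat_lit 532544) (nat_lit 10) (.e (nat_lit 344091) (nat_lit 18) (.e (nat_lit 4761) (nat_lit 281) .nil)))))))) (.g (nat_lit 4) .nil .nil))) 
(.lf (nat_lit 15224) (.g (nat_lit 1716) (.e (nat_lit 1086) (nat_lit 81) (.e (nat_lit 1661) (nat_lit 115) (.e (nat_lit 393251) (nat_lit 18) (.e (nat_lit 164190) (nat_lit 157) .nil)))) .nil)))))) (.nd (nat_lit 3) (.nd (nat_lit 4) (.nd (nat_lit 5) (.nd (nat_lit 6) 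
(.lf (nat_lit 15108) (.g (nat_lit 2941) (.e (nat_lit 1082) (nat_lit 81) (.e (nat_lit 1661) (nat_lit 115) (.e (nat_lit 393260) (nat_lit 21) (.e (nat_lit 409650) (nat_lit 19) .nil)))) .nil)) 
(.lf (nat_lit 15172) (.g (nat_lit 490) (.e (nat_lit 1086) (nat_lit 81) (.e (nat_lit 1234) (nat_lit 91) (.e (nat_lit 98048) (nat_lit 6) .nil))) .nil))) (.nd (nat_lit 6) 
(.lf (nat_lit 15140) (.g (nat_lit 4104) (.e (nat_lit 1084) (nat_lit 81) (.e (nat_lit 1235) (nat_lit 91) (.e (nat_lit 90170) (nat_lit 13) (.e (nat_lit 172106) (nat_lit 10) (.e (nat_lit 434231) (nat_lit 23) (.e (nat_lit 532543) (nat_lit 10) (.e (nat_lit 344096) (nat_lit 18) (.e (nat_lit 4764) (nat_lit 281) .nil)))))))) (.g (nat_lit 8) .nil .nil))) 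
(.lf (nat_lit 15204) (.g (nat_lit 531) (.e (nat_lit 1086) (nat_lit 81) (.e (nat_lit 1659) (nat_lit 115) (.e (nat_lit 393227) (nat_lit 9) .nil))) .nil)))) (.nd (nat_lit 5) (.nd (nat_lit 6) 
(.lf (nat_lit 15124) (.g (nat_lit 1851) (.e (nat_lit 1083) (nat_lit 81) (.e (nat_lit 1661) (nat_lit 115) (.e (nat_lit 393260) (nat_lit 21) (.e (nat_lit 409648) (nat_lit 18) .nil)))) .nil)) 
(.lf (nat_lit 15188) (.g (nat_lit 1313) (.e (nat_lit 1086) (nat_lit 81) (.e (nat_lit 1427) (nat_lit 108) (.e (nat_lit 336325) (nat_lit 18) (.e (nat_lit 204869) (nat_lit 29) .nil)))) .nil))) (.nd (nat_lit 6) 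
(.lf (nat_lit 15156) (.g (nat_lit 3223) (.e (nat_lit 1084) (nat_lit 81) (.e (nat_lit 1661) (nat_lit 115) (.e (nat_lit 393260) (nat_lit 21) (.e (nat_lit 409649) (nat_lit 18) (.e (nat_lit 303154) (nat_lit 28) .nil))))) .nil)) 
(.lf (nat_lit 15220) (.g (nat_lit 1545) (.e (nat_lit 1086) (nat_lit 81) (.e (nat_lit 1661) (nat_lit 115) (.e (nat_lit 393238) (nat_lit 17) (.e (nat_lit 3512) (nat_lit 218) .nil)))) .nil))))) (.nd (nat_lit 4) (.nd (nat_lit 5) (.nd (nat_lit 6) 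
(.lf (nat_lit 15116) (.g (nat_lit 2418) (.e (nat_lit 1083) (nat_lit 81) (.e (nat_lit 1661) (nat_lit 115) (.e (nat_lit 393252) (nat_lit 18) (.e (nat_lit 164332) (nat_lit 230) (.e (nat_lit 163860) (nat_lit 1) .nil))))) .nil)) 
(.lf (nat_lit 15180) (.g (nat_lit 3990) (.e (nat_lit 1086) (nat_lit 81) (.e (nat_lit 1252) (nat_lit 92) (.e (nat_lit 98356) (nat_lit 26) (.e (nat_lit 426438) (nat_lit 18) (.e (nat_lit 98377) (nat_lit 30) (.e (nat_lit 458789) (nat_lit 23) (.e (nat_lit 532501) (nat_lit 1) (.e (nat_lit 57754) (nat_lit 209) .nil)))))))) (.g (nat_lit 7) .nil .nil)))) (.nd (nat_lit 6) 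
(.lf (nat_lit 15148) (.g (nat_lit 1662) (.e (nat_lit 1084) (nat_lit 81) (.e (nat_lit 1661) (nat_lit 115) (.e (nat_lit 393251) (nat_lit 18) (.e (nat_lit 164325) (nat_lit 230) .nil)))) .nil)) 
(.lf (nat_lit 15212) (.g (nat_lit 1447) (.e (nat_lit 1086) (nat_lit 81) (.e (nat_lit 1660) (nat_lit 115) (.e (nat_lit 393228) (nat_lit 9) (.e (nat_lit 336088) (nat_lit 9) (.e (nat_lit 336019) (nat_lit 3) .nil))))) .nil)))) (.nd (nat_lit 5) (.nd (nat_lit 6) 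
(.lf (nat_lit 15132) (.g (nat_lit 3371) (.e (nat_lit 1084) (nat_lit 81) (.e (nat_lit 1234) (nat_lit 91) (.e (nat_lit 90170) (nat_lit 13) (.e (nat_lit 172106) (nat_lit 10) (.e (nat_lit 434231) (nat_lit 23) .nil))))) .nil)) 
(.lf (nat_lit 15196) (.g (nat_lit 3141) (.e (nat_lit 1086) (nat_lit 81) (.e (nat_lit 1427) (nat_lit 108) (.e (nat_lit 336454) (nat_lit 34) (.e (nat_lit 483410) (nat_lit 27) (.e (nat_lit 401428) (nat_lit 3) .nil))))) .nil))) (.nd (nat_lit 6) 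
(.lf (nat_lit 15164) (.g (nat_lit 2042) (.e (nat_lit 1085) (nat_lit 81) (.e (nat_lit 1252) (nat_lit 92) (.e (nat_lit 98372) (nat_lit 29) (.e (nat_lit 450579) (nat_lit 5) (.e (nat_lit 532555) (nat_lit 13) (.e (nat_lit 368659) (nat_lit 18) (.e (nat_lit 4761) (nat_lit 281) .nil))))))) (.g (nat_lit 6) .nil .nil))) 
(.lf (nat_lit 15228) (.g (nat_lit 3184) (.e (nat_lit 1086) (nat_lit 81) (.e (nat_lit 1661) (nat_lit 115) (.e (nat_lit 393260) (nat_lit 21) (.e (nat_lit 409616) (nat_lit 10) (.e (nat_lit 632) (nat_lit 50) .nil))))) .nil))))))) (.nd (nat_lit 2) (.nd (nat_lit 3) (.nd (nat_lit 4) (.nd (nat_lit 5) (.nd (nat_lit 6) 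
(.lf (nat_lit 15106) (.g (nat_lit 3145) (.e (nat_lit 1082) (nat_lit 81) (.e (nat_lit 1661) (nat_lit 115) (.e (nat_lit 393260) (nat_lit 21) (.e (nat_lit 409649) (nat_lit 18) (.e (nat_lit 303151) (nat_lit 27) .nil))))) .nil)) 
(.lf (nat_lit 15170) (.g (nat_lit 3294) (.e (nat_lit 1085) (nat_lit 81) (.e (nat_lit 1661) (nat_lit 115) (.e (nat_lit 393260) (nat_lit 21) (.e (nat_lit 409649) (nat_lit 18) (.e (nat_lit 303154) (nat_lit 28) .nil))))) .nil))) (.nd (nat_lit 6) 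
(.lf (nat_lit 15138) (.g (nat_lit 2417) (.e (nat_lit 1084) (nat_lit 81) (.e (nat_lit 1235) (nat_lit 91) (.e (nat_lit 90170) (nat_lit 13) (.e (nat_lit 172106) (nat_lit 10) (.e (nat_lit 434231) (nat_lit 23) (.e (nat_lit 532543) (nat_lit 10) (.e (nat_lit 344090) (nat_lit 18) (.e (nat_lit 4761) (nat_lit 281) .nil)))))))) (.g (nat_lit 4) .nil .nil))) 
(.lf (nat_lit 15202) (.g (nat_lit 2665) (.e (nat_lit 1086) (nat_lit 81) (.e (nat_lit 1427) (nat_lit 108) (.e (nat_lit 336455) (nat_lit 34) (.e (nat_lit 483413) (nat_lit 27) (.e (nat_lit 401426) (nat_lit 3) .nil))))) .nil)))) (.nd (nat_lit 5) (.nd (nat_lit 6) 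
(.lf (nat_lit 15122) (.g (nat_lit 2139) (.e (nat_lit 1083) (nat_lit 81) (.e (nat_lit 1661) (nat_lit 115) (.e (nat_lit 393260) (nat_lit 21) (.e (nat_lit 409646) (nat_lit 18) .nil)))) .nil)) 
(.lf (nat_lit 15186) (.g (nat_lit 2716) (.e (nat_lit 1086) (nat_lit 81) (.e (nat_lit 1253) (nat_lit 92) (.e (nat_lit 98384) (nat_lit 32) (.e (nat_lit 475177) (nat_lit 24) (.e (nat_lit 516171) (nat_lit 13) (.e (nat_lit 458789) (nat_lit 23) (.e (nat_lit 532499) (nat_lit 1) (.e (nat_lit 57754) (nat_lit 209) .nil)))))))) (.g (nat_lit 4) .nil .nil)))) (.nd (nat_lit 6) 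
(.lf (nat_lit 15154) (.g (nat_lit 2875) (.e (nat_lit 1084) (nat_lit 81) (.e (nat_lit 1661) (nat_lit 115) (.e (nat_lit 393260) (nat_lit 21) (.e (nat_lit 409648) (nat_lit 18) (.e (nat_lit 303154) (nat_lit 28) .nil))))) .nil)) 
(.lf (nat_lit 15218) (.g (nat_lit 2758) (.e (nat_lit 1086) (nat_lit 81) (.e (nat_lit 1660) (nat_lit 115) (.e (nat_lit 393229) (nat_lit 9) (.e (nat_lit 336186) (nat_lit 11) (.e (nat_lit 368676) (nat_lit 21) (.e (nat_lit 516117) (nat_lit 1) (.e (nat_lit 164165) (nat_lit 152) .nil))))))) (.g (nat_lit 6) .nil .nil)))))) (.nd (nat_lit 4) (.nd (nat_lit 5) (.nd (nat_lit 6) 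
(.lf (nat_lit 15114) (.g (nat_lit 1674) (.e (nat_lit 1083) (nat_lit 81) (.e (nat_lit 1661) (nat_lit 115) (.e (nat_lit 393251) (nat_lit 18) (.e (nat_lit 164325) (nat_lit 230) .nil)))) .nil)) 
(.lf (nat_lit 15178) (.g (nat_lit 3467) (.e (nat_lit 1086) (nat_lit 81) (.e (nat_lit 1252) (nat_lit 92) (.e (nat_lit 98356) (nat_lit 26) (.e (nat_lit 426428) (nat_lit 17) (.e (nat_lit 90185) (nat_lit 17) (.e (nat_lit 237594) (nat_lit 3) (.e (nat_lit 204830) (nat_lit 18) (.e (nat_lit 57754) (nat_lit 209) .nil)))))))) (.g (nat_lit 5) .nil .nil)))) (.nd (nat_lit 6) 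
(.lf (nat_lit 15146) (.g (nat_lit 1288) (.e (nat_lit 1084) (nat_lit 81) (.e (nat_lit 1425) (nat_lit 108) (.e (nat_lit 336019) (nat_lit 3) (.e (nat_lit 98381) (nat_lit 31) (.e (nat_lit 474880) (nat_lit 3) .nil))))) .nil)) 
(.lf (nat_lit 15210) (.g (nat_lit 2033) (.e (nat_lit 1086) (nat_lit 81) (.e (nat_lit 1659) (nat_lit 115) (.e (nat_lit 393253) (nat_lit 18) (.e (nat_lit 164189) (nat_lit 157) (.e (nat_lit 229409) (nat_lit 13) (.e (nat_lit 434232) (nat_lit 23) (.e (nat_lit 532501) (nat_lit 1) (.e (nat_lit 57730) (nat_lit 181) .nil)))))))) (.g (nat_lit 4) .nil .nil))))) (.nd (nat_lit 5) (.nd (nat_lit 6) 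
(.lf (nat_lit 15130) (.g (nat_lit 2990) (.e (nat_lit 1083) (nat_lit 81) (.e (nat_lit 1661) (nat_lit 115) (.e (nat_lit 393260) (nat_lit 21) (.e (nat_lit 409650) (nat_lit 19) .nil)))) .nil)) 
(.lf (nat_lit 15194) (.g (nat_lit 1992) (.e (nat_lit 1086) (nat_lit 81) (.e (nat_lit 1427) (nat_lit 108) (.e (nat_lit 336454) (nat_lit 34) (.e (nat_lit 483409) (nat_lit 27) .nil)))) .nil))) (.nd (nat_lit 6) 
(.lf (nat_lit 15162) (.g (nat_lit 2253) (.e (nat_lit 1085) (nat_lit 81) (.e (nat_lit 1235) (nat_lit 91) (.e (nat_lit 90170) (nat_lit 13) (.e (nat_lit 172106) (nat_lit 10) (.e (nat_lit 434231) (nat_lit 23) .nil))))) .nil)) 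
(.lf (nat_lit 15226) (.g (nat_lit 2439) (.e (nat_lit 1086) (nat_lit 81) (.e (nat_lit 1661) (nat_lit 115) (.e (nat_lit 393251) (nat_lit 18) (.e (nat_lit 164190) (nat_lit 157) (.e (nat_lit 229409) (nat_lit 13) (.e (nat_lit 434232) (nat_lit 23) (.e (nat_lit 532504) (nat_lit 1) (.e (nat_lit 57730) (nat_lit 181) .nil)))))))) (.g (nat_lit 5) .nil .nil))))))) 
(.nd (nat_lit 3) (.nd (nat_lit 4) (.nd (nat_lit 5) (.nd (nat_lit 6) 
(.lf (nat_lit 15110) (.g (nat_lit 1688) (.e (nat_lit 1082) (nat_lit 81) (.e (nat_lit 1661) (nat_lit 115) (.e (nat_lit 393268) (nat_lit 23) (.e (nat_lit 426438) (nat_lit 18) (.e (nat_lit 98335) (nat_lit 18) .nil))))) .nil)) 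
(.lf (nat_lit 15174) (.g (nat_lit 3383) (.e (nat_lit 1086) (nat_lit 81) (.e (nat_lit 1234) (nat_lit 91) (.e (nat_lit 90170) (nat_lit 13) (.e (nat_lit 172106) (nat_lit 10) (.e (nat_lit 434231) (nat_lit 23) (.e (nat_lit 532535) (nat_lit 9) (.e (nat_lit 335921) (nat_lit 0) (.e (nat_lit 1003) (nat_lit 81) (.e (nat_lit 4797) (nat_lit 281) .nil))))))))) (.g (nat_lit 4) .nil .nil)))) (.nd (nat_lit 6) 
(.lf (nat_lit 15142) (.g (nat_lit 2487) (.e (nat_lit 1084) (nat_lit 81) (.e (nat_lit 1235) (nat_lit 91) (.e (nat_lit 90170) (nat_lit 13) (.e (nat_lit 172106) (nat_lit 10) (.e (nat_lit 434231) (nat_lit 23) (.e (nat_lit 532554) (nat_lit 13) (.e (nat_lit 368662) (nat_lit 18) (.e (nat_lit 4823) (nat_lit 281) .nil)))))))) (.g (nat_lit 4) .nil .nil))) 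
(.lf (nat_lit 15206) (.g (nat_lit 2064) (.e (nat_lit 1086) (nat_lit 81) (.e (nat_lit 1659) (nat_lit 115) (.e (nat_lit 393229) (nat_lit 9) (.e (nat_lit 336088) (nat_lit 9) (.e (nat_lit 336019) (nat_lit 3) .nil))))) .nil)))) (.nd (nat_lit 5) (.nd (nat_lit 6) 
(.lf (nat_lit 15126) (.g (nat_lit 2846) (.e (nat_lit 1083) (nat_lit 81) (.e (nat_lit 1661) (nat_lit 115) (.e (nat_lit 393260) (nat_lit 21) (.e (nat_lit 409648) (nat_lit 18) (.e (nat_lit 303154) (nat_lit 28) .nil))))) .nil)) 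
(.lf (nat_lit 15190) (.g (nat_lit 1865) (.e (nat_lit 1086) (nat_lit 81) (.e (nat_lit 1427) (nat_lit 108) (.e (nat_lit 336443) (nat_lit 32) (.e (nat_lit 466974) (nat_lit 22) .nil)))) .nil))) (.nd (nat_lit 6) 
(.lf (nat_lit 15158) (.g (nat_lit 3372) (.e (nat_lit 1085) (nat_lit 81) (.e (nat_lit 1234) (nat_lit 91) (.e (nat_lit 90170) (nat_lit 13) (.e (nat_lit 172106) (nat_lit 10) (.e (nat_lit 434231) (nat_lit 23) .nil))))) .nil)) 
(.lf (nat_lit 15222) (.g (nat_lit 2303) (.e (nat_lit 1086) (nat_lit 81) (.e (nat_lit 1661) (nat_lit 115) (.e (nat_lit 393251) (nat_lit 18) (.e (nat_lit 164151) (nat_lit 152) (.e (nat_lit 2636) (nat_lit 165) (.e (nat_lit 180243) (nat_lit 5) (.e (nat_lit 532501) (nat_lit 1) (.e (nat_lit 57730) (nat_lit 181) .nil)))))))) (.g (nat_lit 4) .nil .nil)))))) 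
(.nd (nat_lit 4) (.nd (nat_lit 5) (.nd (nat_lit 6) 
(.lf (nat_lit 15118) (.g (nat_lit 2630) (.e (nat_lit 1083) (nat_lit 81) (.e (nat_lit 1661) (nat_lit 115) (.e (nat_lit 393260) (nat_lit 21) (.e (nat_lit 409616) (nat_lit 10) .nil)))) .nil)) 
(.lf (nat_lit 15182) (.g (nat_lit 2156) (.e (nat_lit 1086) (nat_lit 81) (.e (nat_lit 1252) (nat_lit 92) (.e (nat_lit 98367) (nat_lit 27) (.e (nat_lit 434247) (nat_lit 28) (.e (nat_lit 573485) (nat_lit 13) .nil))))) .nil))) (.nd (nat_lit 6) 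
(.lf (nat_lit 15150) (.g (nat_lit 1879) (.e (nat_lit 1084) (nat_lit 81) (.e (nat_lit 1661) (nat_lit 115) (.e (nat_lit 393260) (nat_lit 21) (.e (nat_lit 409648) (nat_lit 18) .nil)))) .nil)) 
(.lf (nat_lit 15214) (.g (nat_lit 3023) (.e (nat_lit 1086) (nat_lit 81) (.e (nat_lit 1660) (nat_lit 115) (.e (nat_lit 393229) (nat_lit 9) (.e (nat_lit 336087) (nat_lit 9) (.e (nat_lit 336019) (nat_lit 3) (.e (nat_lit 98334) (nat_lit 18) (.e (nat_lit 164166) (nat_lit 152) .nil))))))) (.g (nat_lit 7) .nil .nil))))) (.nd (nat_lit 5) (.nd (nat_lit 6) 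
(.lf (nat_lit 15134) (.g (nat_lit 2374) (.e (nat_lit 1084) (nat_lit 81) (.e (nat_lit 1235) (nat_lit 91) (.e (nat_lit 90170) (nat_lit 13) (.e (nat_lit 172106) (nat_lit 10) (.e (nat_lit 434231) (nat_lit 23) .nil))))) .nil)) 
(.lf (nat_lit 15198) (.g (nat_lit 3330) (.e (nat_lit 1086) (nat_lit 81) (.e (nat_lit 1427) (nat_lit 108) (.e (nat_lit 336454) (nat_lit 34) (.e (nat_lit 483411) (nat_lit 27) (.e (nat_lit 401426) (nat_lit 3) .nil))))) .nil))) (.nd (nat_lit 6) 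
(.lf (nat_lit 15166) (.g (nat_lit 2503) (.e (nat_lit 1085) (nat_lit 81) (.e (nat_lit 1661) (nat_lit 115) (.e (nat_lit 393260) (nat_lit 21) (.e (nat_lit 409646) (nat_lit 18) .nil)))) .nil)) 
(.lf (nat_lit 15230) (.g (nat_lit 1949) (.e (nat_lit 1086) (nat_lit 81) (.e (nat_lit 1661) (nat_lit 115) (.e (nat_lit 393260) (nat_lit 21) (.e (nat_lit 409648) (nat_lit 18) .nil)))) .nil)))))))) (.nd (nat_lit 1) (.nd (nat_lit 2) (.nd (nat_lit 3) (.nd (nat_lit 4) (.nd (nat_lit 5) (.nd (nat_lit 6) 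
(.lf (nat_lit 15105) (.g (nat_lit 2891) (.e (nat_lit 1082) (nat_lit 81) (.e (nat_lit 1661) (nat_lit 115) (.e (nat_lit 393260) (nat_lit 21) (.e (nat_lit 409648) (nat_lit 18) (.e (nat_lit 303154) (nat_lit 28) .nil))))) .nil)) 
(.lf (nat_lit 15169) (.g (nat_lit 3224) (.e (nat_lit 1085) (nat_lit 81) (.e (nat_lit 1661) (nat_lit 115) (.e (nat_lit 393260) (nat_lit 21) (.e (nat_lit 409649) (nat_lit 18) (.e (nat_lit 303151) (nat_lit 27) .nil))))) .nil))) (.nd (nat_lit 6) 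
(.lf (nat_lit 15137) (.g (nat_lit 2491) (.e (nat_lit 1084) (nat_lit 81) (.e (nat_lit 1235) (nat_lit 91) (.e (nat_lit 90170) (nat_lit 13) (.e (nat_lit 172106) (nat_lit 10) (.e (nat_lit 434231) (nat_lit 23) (.e (nat_lit 532535) (nat_lit 9) (.e (nat_lit 335928) (nat_lit 0) (.e (nat_lit 988) (nat_lit 81) (.e (nat_lit 4767) (nat_lit 281) .nil))))))))) (.g (nat_lit 4) .nil .nil))) 
(.lf (nat_lit 15201) (.g (nat_lit 713) (.e (nat_lit 1086) (nat_lit 81) (.e (nat_lit 1427) (nat_lit 108) (.e (nat_lit 336455) (nat_lit 34) .nil))) .nil)))) (.nd (nat_lit 5) (.nd (nat_lit 6) 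
(.lf (nat_lit 15121) (.g (nat_lit 2557) (.e (nat_lit 1083) (nat_lit 81) (.e (nat_lit 1661) (nat_lit 115) (.e (nat_lit 393260) (nat_lit 21) (.e (nat_lit 409645) (nat_lit 18) .nil)))) .nil)) 
(.lf (nat_lit 15185) (.g (nat_lit 4561) (.e (nat_lit 1086) (nat_lit 81) (.e (nat_lit 1252) (nat_lit 92) (.e (nat_lit 98384) (nat_lit 32) (.e (nat_lit 475177) (nat_lit 24) (.e (nat_lit 516171) (nat_lit 13) (.e (nat_lit 458789) (nat_lit 23) (.e (nat_lit 532501) (nat_lit 1) (.e (nat_lit 57754) (nat_lit 209) .nil)))))))) (.g (nat_lit 7) .nil .nil)))) (.nd (nat_lit 6) 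
(.lf (nat_lit 15153) (.g (nat_lit 2718) (.e (nat_lit 1084) (nat_lit 81) (.e (nat_lit 1661) (nat_lit 115) (.e (nat_lit 393260) (nat_lit 21) (.e (nat_lit 409648) (nat_lit 18) (.e (nat_lit 303151) (nat_lit 27) (.e (nat_lit 335894) (nat_lit 0) (.e (nat_lit 974) (nat_lit 81) (.e (nat_lit 4829) (nat_lit 281) .nil)))))))) (.g (nat_lit 4) .nil .nil))) 
(.lf (nat_lit 15217) (.g (nat_lit 2688) (.e (nat_lit 1086) (nat_lit 81) (.e (nat_lit 1660) (nat_lit 115) (.e (nat_lit 393229) (nat_lit 9) (.e (nat_lit 336186) (nat_lit 11) (.e (nat_lit 368676) (nat_lit 21) (.e (nat_lit 516117) (nat_lit 1) (.e (nat_lit 164164) (nat_lit 152) .nil))))))) (.g (nat_lit 6) .nil .nil)))))) (.nd (nat_lit 4) (.nd (nat_lit 5) (.nd (nat_lit 6) 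
(.lf (nat_lit 15113) (.g (nat_lit 1707) (.e (nat_lit 1083) (nat_lit 81) (.e (nat_lit 1661) (nat_lit 115) (.e (nat_lit 393251) (nat_lit 18) (.e (nat_lit 164190) (nat_lit 157) .nil)))) .nil)) 
(.lf (nat_lit 15177) (.g (nat_lit 4977) (.e (nat_lit 1086) (nat_lit 81) (.e (nat_lit 1252) (nat_lit 92) (.e (nat_lit 98356) (nat_lit 26) (.e (nat_lit 426428) (nat_lit 17) (.e (nat_lit 90174) (nat_lit 14) (.e (nat_lit 180243) (nat_lit 5) (.e (nat_lit 532501) (nat_lit 1) (.e (nat_lit 57754) (nat_lit 209) .nil)))))))) (.g (nat_lit 0) .nil .nil)))) (.nd (nat_lit 6) 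
(.lf (nat_lit 15145) (.g (nat_lit 3432) (.e (nat_lit 1084) (nat_lit 81) (.e (nat_lit 1425) (nat_lit 108) (.e (nat_lit 336019) (nat_lit 3) (.e (nat_lit 98381) (nat_lit 31) (.e (nat_lit 466947) (nat_lit 0) (.e (nat_lit 1800) (nat_lit 119) (.e (nat_lit 516117) (nat_lit 1) (.e (nat_lit 164226) (nat_lit 181) .nil)))))))) (.g (nat_lit 7) .nil .nil))) 
(.lf (nat_lit 15209) (.g (nat_lit 1811) (.e (nat_lit 1086) (nat_lit 81) (.e (nat_lit 1659) (nat_lit 115) (.e (nat_lit 401152) (nat_lit 12) (.e (nat_lit 360467) (nat_lit 3) (.e (nat_lit 516117) (nat_lit 1) (.e (nat_lit 164147) (nat_lit 152) .nil)))))) (.g (nat_lit 5) .nil .nil))))) (.nd (nat_lit 5) (.nd (nat_lit 6) 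
(.lf (nat_lit 15129) (.g (nat_lit 3250) (.e (nat_lit 1083) (nat_lit 81) (.e (nat_lit 1661) (nat_lit 115) (.e (nat_lit 393260) (nat_lit 21) (.e (nat_lit 409649) (nat_lit 18) (.e (nat_lit 303154) (nat_lit 28) .nil))))) .nil)) 
(.lf (nat_lit 15193) (.g (nat_lit 716) (.e (nat_lit 1086) (nat_lit 81) (.e (nat_lit 1427) (nat_lit 108) (.e (nat_lit 336454) (nat_lit 34) .nil))) .nil))) (.nd (nat_lit 6) 
(.lf (nat_lit 15161) (.g (nat_lit 5236) (.e (nat_lit 1085) (nat_lit 81) (.e (nat_lit 1234) (nat_lit 91) (.e (nat_lit 90170) (nat_lit 13) (.e (nat_lit 172106) (nat_lit 10) (.e (nat_lit 434231) (nat_lit 23) (.e (nat_lit 532544) (nat_lit 10) (.e (nat_lit 344096) (nat_lit 18) (.e (nat_lit 4761) (nat_lit 281) .nil)))))))) (.g (nat_lit 7) .nil .nil))) 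
(.lf (nat_lit 15225) (.g (nat_lit 2719) (.e (nat_lit 1086) (nat_lit 81) (.e (nat_lit 1661) (nat_lit 115) (.e (nat_lit 393251) (nat_lit 18) (.e (nat_lit 164190) (nat_lit 157) (.e (nat_lit 229409) (nat_lit 13) (.e (nat_lit 434232) (nat_lit 23) (.e (nat_lit 532501) (nat_lit 1) (.e (nat_lit 57730) (nat_lit 181) .nil)))))))) (.g (nat_lit 6) .nil .nil))))))) 
(.nd (nat_lit 3) (.nd (nat_lit 4) (.nd (nat_lit 5) (.nd (nat_lit 6) 
(.lf (nat_lit 15109) (.g (nat_lit 1443) (.e (nat_lit 1082) (nat_lit 81) (.e (nat_lit 1661) (nat_lit 115) (.e (nat_lit 393268) (nat_lit 23) (.e (nat_lit 426428) (nat_lit 17) .nil)))) .nil)) 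
(.lf (nat_lit 15173) (.g (nat_lit 3371) (.e (nat_lit 1086) (nat_lit 81) (.e (nat_lit 1234) (nat_lit 91) (.e (nat_lit 90170) (nat_lit 13) (.e (nat_lit 172106) (nat_lit 10) (.e (nat_lit 434231) (nat_lit 23) .nil))))) .nil))) (.nd (nat_lit 6) 
(.lf (nat_lit 15141) (.g (nat_lit 4790) (.e (nat_lit 1084) (nat_lit 81) (.e (nat_lit 1235) (nat_lit 91) (.e (nat_lit 90170) (nat_lit 13) (.e (nat_lit 172106) (nat_lit 10) (.e (nat_lit 434231) (nat_lit 23) (.e (nat_lit 532544) (nat_lit 10) (.e (nat_lit 344096) (nat_lit 18) (.e (nat_lit 4764) (nat_lit 281) .nil)))))))) (.g (nat_lit 8) .nil .nil))) 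
(.lf (nat_lit 15205) (.g (nat_lit 618) (.e (nat_lit 1086) (nat_lit 81) (.e (nat_lit 1659) (nat_lit 115) (.e (nat_lit 393227) (nat_lit 9) (.e (nat_lit 336152) (nat_lit 9) .nil)))) .nil)))) (.nd (nat_lit 5) (.nd (nat_lit 6) 
(.lf (nat_lit 15125) (.g (nat_lit 2628) (.e (nat_lit 1083) (nat_lit 81) (.e (nat_lit 1661) (nat_lit 115) (.e (nat_lit 393260) (nat_lit 21) (.e (nat_lit 409648) (nat_lit 18) (.e (nat_lit 303151) (nat_lit 27) .nil))))) .nil)) 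
(.lf (nat_lit 15189) (.g (nat_lit 562) (.e (nat_lit 1086) (nat_lit 81) (.e (nat_lit 1427) (nat_lit 108) (.e (nat_lit 336414) (nat_lit 27) .nil))) .nil))) (.nd (nat_lit 6) 
(.lf (nat_lit 15157) (.g (nat_lit 2948) (.e (nat_lit 1084) (nat_lit 81) (.e (nat_lit 1661) (nat_lit 115) (.e (nat_lit 393260) (nat_lit 21) (.e (nat_lit 409650) (nat_lit 19) .nil)))) .nil)) 
(.lf (nat_lit 15221) (.g (nat_lit 672) (.e (nat_lit 1086) (nat_lit 81) (.e (nat_lit 1661) (nat_lit 115) (.e (nat_lit 393251) (nat_lit 18) .nil))) .nil))))) (.nd (nat_lit 4) (.nd (nat_lit 5) (.nd (nat_lit 6) 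
(.lf (nat_lit 15117) (.g (nat_lit 2403) (.e (nat_lit 1083) (nat_lit 81) (.e (nat_lit 1661) (nat_lit 115) (.e (nat_lit 393252) (nat_lit 18) (.e (nat_lit 164332) (nat_lit 230) (.e (nat_lit 163862) (nat_lit 1) .nil))))) .nil)) 
(.lf (nat_lit 15181) (.g (nat_lit 2111) (.e (nat_lit 1086) (nat_lit 81) (.e (nat_lit 1252) (nat_lit 92) (.e (nat_lit 98367) (nat_lit 27) (.e (nat_lit 434247) (nat_lit 28) (.e (nat_lit 573484) (nat_lit 13) .nil))))) .nil))) (.nd (nat_lit 6) 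
(.lf (nat_lit 15149) (.g (nat_lit 2432) (.e (nat_lit 1084) (nat_lit 81) (.e (nat_lit 1661) (nat_lit 115) (.e (nat_lit 393260) (nat_lit 21) (.e (nat_lit 409646) (nat_lit 18) .nil)))) .nil)) 
(.lf (nat_lit 15213) (.g (nat_lit 3204) (.e (nat_lit 1086) (nat_lit 81) (.e (nat_lit 1660) (nat_lit 115) (.e (nat_lit 393229) (nat_lit 9) (.e (nat_lit 336087) (nat_lit 9) (.e (nat_lit 336019) (nat_lit 3) (.e (nat_lit 98334) (nat_lit 18) (.e (nat_lit 164164) (nat_lit 152) .nil))))))) (.g (nat_lit 0) .nil .nil))))) (.nd (nat_lit 5) (.nd (nat_lit 6) 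
(.lf (nat_lit 15133) (.g (nat_lit 4142) (.e (nat_lit 1084) (nat_lit 81) (.e (nat_lit 1234) (nat_lit 91) (.e (nat_lit 90170) (nat_lit 13) (.e (nat_lit 172106) (nat_lit 10) (.e (nat_lit 434231) (nat_lit 23) (.e (nat_lit 532543) (nat_lit 10) (.e (nat_lit 344096) (nat_lit 18) (.e (nat_lit 4764) (nat_lit 281) .nil)))))))) (.g (nat_lit 6) .nil .nil))) 
(.lf (nat_lit 15197) (.g (nat_lit 1992) (.e (nat_lit 1086) (nat_lit 81) (.e (nat_lit 1427) (nat_lit 108) (.e (nat_lit 336454) (nat_lit 34) (.e (nat_lit 483411) (nat_lit 27) .nil)))) .nil))) (.nd (nat_lit 6) 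
(.lf (nat_lit 15165) (.g (nat_lit 2674) (.e (nat_lit 1085) (nat_lit 81) (.e (nat_lit 1661) (nat_lit 115) (.e (nat_lit 393260) (nat_lit 21) (.e (nat_lit 409616) (nat_lit 10) .nil)))) .nil)) 
(.lf (nat_lit 15229) (.g (nat_lit 2879) (.e (nat_lit 1086) (nat_lit 81) (.e (nat_lit 1661) (nat_lit 115) (.e (nat_lit 393260) (nat_lit 21) (.e (nat_lit 409617) (nat_lit 10) (.e (nat_lit 632) (nat_lit 50) .nil))))) .nil))))))) (.nd (nat_lit 2) (.nd (nat_lit 3) (.nd (nat_lit 4) (.nd (nat_lit 5) (.nd (nat_lit 6) 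
(.lf (nat_lit 15107) (.g (nat_lit 3215) (.e (nat_lit 1082) (nat_lit 81) (.e (nat_lit 1661) (nat_lit 115) (.e (nat_lit 393260) (nat_lit 21) (.e (nat_lit 409649) (nat_lit 18) (.e (nat_lit 303154) (nat_lit 28) .nil))))) .nil)) 
(.lf (nat_lit 15171) (.g (nat_lit 3020) (.e (nat_lit 1085) (nat_lit 81) (.e (nat_lit 1661) (nat_lit 115) (.e (nat_lit 393260) (nat_lit 21) (.e (nat_lit 409650) (nat_lit 19) .nil)))) .nil))) (.nd (nat_lit 6) 
(.lf (nat_lit 15139) (.g (nat_lit 2578) (.e (nat_lit 1084) (nat_lit 81) (.e (nat_lit 1235) (nat_lit 91) (.e (nat_lit 90170) (nat_lit 13) (.e (nat_lit 172106) (nat_lit 10) (.e (nat_lit 434231) (nat_lit 23) (.e (nat_lit 532543) (nat_lit 10) (.e (nat_lit 344096) (nat_lit 18) (.e (nat_lit 4761) (nat_lit 281) .nil)))))))) (.g (nat_lit 5) .nil .nil))) 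
(.lf (nat_lit 15203) (.g (nat_lit 2808) (.e (nat_lit 1086) (nat_lit 81) (.e (nat_lit 1427) (nat_lit 108) (.e (nat_lit 336455) (nat_lit 34) (.e (nat_lit 483413) (nat_lit 27) (.e (nat_lit 401427) (nat_lit 3) .nil))))) .nil)))) (.nd (nat_lit 5) (.nd (nat_lit 6) 
(.lf (nat_lit 15123) (.g (nat_lit 2830) (.e (nat_lit 1083) (nat_lit 81) (.e (nat_lit 1661) (nat_lit 115) (.e (nat_lit 393260) (nat_lit 21) (.e (nat_lit 409646) (nat_lit 18) (.e (nat_lit 303154) (nat_lit 28) .nil))))) .nil)) 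
(.lf (nat_lit 15187) (.g (nat_lit 3041) (.e (nat_lit 1086) (nat_lit 81) (.e (nat_lit 1425) (nat_lit 108) (.e (nat_lit 336208) (nat_lit 12) (.e (nat_lit 385102) (nat_lit 50) (.e (nat_lit 786483) (nat_lit 30) (.e (nat_lit 360451) (nat_lit 0) (.e (nat_lit 5896) (nat_lit 320) .nil))))))) (.g (nat_lit 0) .nil .nil)))) (.nd (nat_lit 6) 
(.lf (nat_lit 15155) (.g (nat_lit 3152) (.e (nat_lit 1084) (nat_lit 81) (.e (nat_lit 1661) (nat_lit 115) (.e (nat_lit 393260) (nat_lit 21) (.e (nat_lit 409649) (nat_lit 18) (.e (nat_lit 303151) (nat_lit 27) .nil))))) .nil)) 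
(.lf (nat_lit 15219) (.g (nat_lit 1505) (.e (nat_lit 1086) (nat_lit 81) (.e (nat_lit 1660) (nat_lit 115) (.e (nat_lit 393253) (nat_lit 18) (.e (nat_lit 164151) (nat_lit 152) (.e (nat_lit 2636) (nat_lit 165) .nil))))) .nil))))) (.nd (nat_lit 4) (.nd (nat_lit 5) (.nd (nat_lit 6) 
(.lf (nat_lit 15115) (.g (nat_lit 1550) (.e (nat_lit 1083) (nat_lit 81) (.e (nat_lit 1661) (nat_lit 115) (.e (nat_lit 393252) (nat_lit 18) (.e (nat_lit 164330) (nat_lit 230) .nil)))) .nil)) 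
(.lf (nat_lit 15179) (.g (nat_lit 2046) (.e (nat_lit 1086) (nat_lit 81) (.e (nat_lit 1252) (nat_lit 92) (.e (nat_lit 98356) (nat_lit 26) (.e (nat_lit 426436) (nat_lit 18) (.e (nat_lit 98376) (nat_lit 30) .nil))))) .nil))) (.nd (nat_lit 6) 
(.lf (nat_lit 15147) (.g (nat_lit 3125) (.e (nat_lit 1084) (nat_lit 81) (.e (nat_lit 1659) (nat_lit 115) (.e (nat_lit 401152) (nat_lit 12) (.e (nat_lit 360475) (nat_lit 8) (.e (nat_lit 557090) (nat_lit 12) (.e (nat_lit 163844) (nat_lit 0) (.e (nat_lit 5123) (nat_lit 292) .nil))))))) (.g (nat_lit 6) .nil .nil))) 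
(.lf (nat_lit 15211) (.g (nat_lit 375) (.e (nat_lit 1086) (nat_lit 81) (.e (nat_lit 1660) (nat_lit 115) (.e (nat_lit 393227) (nat_lit 9) .nil))) .nil)))) (.nd (nat_lit 5) (.nd (nat_lit 6) 
(.lf (nat_lit 15131) (.g (nat_lit 2999) (.e (nat_lit 1083) (nat_lit 81) (.e (nat_lit 1661) (nat_lit 115) (.e (nat_lit 393260) (nat_lit 21) (.e (nat_lit 409651) (nat_lit 19) .nil)))) .nil)) 
(.lf (nat_lit 15195) (.g (nat_lit 1980) (.e (nat_lit 1086) (nat_lit 81) (.e (nat_lit 1427) (nat_lit 108) (.e (nat_lit 336454) (nat_lit 34) (.e (nat_lit 483410) (nat_lit 27) .nil)))) .nil))) (.nd (nat_lit 6) 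
(.lf (nat_lit 15163) (.g (nat_lit 4178) (.e (nat_lit 1085) (nat_lit 81) (.e (nat_lit 1235) (nat_lit 91) (.e (nat_lit 90170) (nat_lit 13) (.e (nat_lit 172106) (nat_lit 10) (.e (nat_lit 434231) (nat_lit 23) (.e (nat_lit 532544) (nat_lit 10) (.e (nat_lit 344096) (nat_lit 18) (.e (nat_lit 4761) (nat_lit 281) .nil)))))))) (.g (nat_lit 7) .nil .nil))) 
(.lf (nat_lit 15227) (.g (nat_lit 1607) (.e (nat_lit 1086) (nat_lit 81) (.e (nat_lit 1661) (nat_lit 115) (.e (nat_lit 393252) (nat_lit 18) (.e (nat_lit 164161) (nat_lit 152) .nil)))) .nil)))))) (.nd (nat_lit 3) (.nd (nat_lit 4) (.nd (nat_lit 5) (.nd (nat_lit 6) 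
(.lf (nat_lit 15111) (.g (nat_lit 682) (.e (nat_lit 1083) (nat_lit 81) (.e (nat_lit 1661) (nat_lit 115) (.e (nat_lit 393227) (nat_lit 9) .nil))) .nil)) 
(.lf (nat_lit 15175) (.g (nat_lit 2681) (.e (nat_lit 1086) (nat_lit 81) (.e (nat_lit 1234) (nat_lit 91) (.e (nat_lit 90172) (nat_lit 14) (.e (nat_lit 180250) (nat_lit 10) (.e (nat_lit 573487) (nat_lit 14) .nil))))) .nil))) (.nd (nat_lit 6) 
(.lf (nat_lit 15143) (.g (nat_lit 3269) (.e (nat_lit 1084) (nat_lit 81) (.e (nat_lit 1425) (nat_lit 108) (.e (nat_lit 336019) (nat_lit 3) (.e (nat_lit 98380) (nat_lit 31) (.e (nat_lit 466947) (nat_lit 0) (.e (nat_lit 1800) (nat_lit 119) (.e (nat_lit 516117) (nat_lit 1) (.e (nat_lit 164226) (nat_lit 181) .nil)))))))) (.g (nat_lit 7) .nil .nil))) 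
(.lf (nat_lit 15207) (.g (nat_lit 1459) (.e (nat_lit 1086) (nat_lit 81) (.e (nat_lit 1659) (nat_lit 115) (.e (nat_lit 401152) (nat_lit 11) (.e (nat_lit 352313) (nat_lit 23) (.e (nat_lit 98334) (nat_lit 18) (.e (nat_lit 164166) (nat_lit 152) .nil)))))) (.g (nat_lit 5) .nil .nil))))) (.nd (nat_lit 5) (.nd (nat_lit 6) 
(.lf (nat_lit 15127) (.g (nat_lit 2080) (.e (nat_lit 1083) (nat_lit 81) (.e (nat_lit 1661) (nat_lit 115) (.e (nat_lit 393260) (nat_lit 21) (.e (nat_lit 409649) (nat_lit 18) .nil)))) .nil)) 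
(.lf (nat_lit 15191) (.g (nat_lit 1954) (.e (nat_lit 1086) (nat_lit 81) (.e (nat_lit 1427) (nat_lit 108) (.e (nat_lit 336443) (nat_lit 32) (.e (nat_lit 466977) (nat_lit 22) .nil)))) .nil))) (.nd (nat_lit 6) 
(.lf (nat_lit 15159) (.g (nat_lit 3396) (.e (nat_lit 1085) (nat_lit 81) (.e (nat_lit 1234) (nat_lit 91) (.e (nat_lit 90170) (nat_lit 13) (.e (nat_lit 172106) (nat_lit 10) (.e (nat_lit 434231) (nat_lit 23) (.e (nat_lit 532535) (nat_lit 9) (.e (nat_lit 335900) (nat_lit 0) (.e (nat_lit 996) (nat_lit 81) (.e (nat_lit 4761) (nat_lit 281) .nil))))))))) (.g (nat_lit 4) .nil .nil))) 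
(.lf (nat_lit 15223) (.g (nat_lit 1715) (.e (nat_lit 1086) (nat_lit 81) (.e (nat_lit 1661) (nat_lit 115) (.e (nat_lit 393251) (nat_lit 18) (.e (nat_lit 164161) (nat_lit 152) .nil)))) .nil))))) (.nd (nat_lit 4) (.nd (nat_lit 5) (.nd (nat_lit 6) 
(.lf (nat_lit 15119) (.g (nat_lit 2223) (.e (nat_lit 1083) (nat_lit 81) (.e (nat_lit 1661) (nat_lit 115) (.e (nat_lit 393260) (nat_lit 21) (.e (nat_lit 409617) (nat_lit 10) .nil)))) .nil)) 
(.lf (nat_lit 15183) (.g (nat_lit 2011) (.e (nat_lit 1086) (nat_lit 81) (.e (nat_lit 1252) (nat_lit 92) (.e (nat_lit 98367) (nat_lit 27) (.e (nat_lit 434248) (nat_lit 28) (.e (nat_lit 573482) (nat_lit 13) .nil))))) .nil))) (.nd (nat_lit 6) 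
(.lf (nat_lit 15151) (.g (nat_lit 2656) (.e (nat_lit 1084) (nat_lit 81) (.e (nat_lit 1661) (nat_lit 115) (.e (nat_lit 393260) (nat_lit 21) (.e (nat_lit 409648) (nat_lit 18) (.e (nat_lit 303151) (nat_lit 27) .nil))))) .nil)) 
(.lf (nat_lit 15215) (.g (nat_lit 3209) (.e (nat_lit 1086) (nat_lit 81) (.e (nat_lit 1660) (nat_lit 115) (.e (nat_lit 393229) (nat_lit 9) (.e (nat_lit 336088) (nat_lit 9) (.e (nat_lit 336019) (nat_lit 3) (.e (nat_lit 98334) (nat_lit 18) (.e (nat_lit 164164) (nat_lit 152) .nil))))))) (.g (nat_lit 0) .nil .nil))))) (.nd (nat_lit 5) (.nd (nat_lit 6) 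
(.lf (nat_lit 15135) (.g (nat_lit 2478) (.e (nat_lit 1084) (nat_lit 81) (.e (nat_lit 1235) (nat_lit 91) (.e (nat_lit 90170) (nat_lit 13) (.e (nat_lit 172106) (nat_lit 10) (.e (nat_lit 434231) (nat_lit 23) (.e (nat_lit 532535) (nat_lit 9) (.e (nat_lit 335925) (nat_lit 0) (.e (nat_lit 992) (nat_lit 81) (.e (nat_lit 4767) (nat_lit 281) .nil))))))))) (.g (nat_lit 4) .nil .nil))) 
(.lf (nat_lit 15199) (.g (nat_lit 1781) (.e (nat_lit 1086) (nat_lit 81) (.e (nat_lit 1427) (nat_lit 108) (.e (nat_lit 336454) (nat_lit 34) (.e (nat_lit 483412) (nat_lit 27) .nil)))) .nil))) (.nd (nat_lit 6) 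
(.lf (nat_lit 15167) (.g (nat_lit 2043) (.e (nat_lit 1085) (nat_lit 81) (.e (nat_lit 1661) (nat_lit 115) (.e (nat_lit 393260) (nat_lit 21) (.e (nat_lit 409648) (nat_lit 18) .nil)))) .nil)) 
(.lf (nat_lit 15231) (.g (nat_lit 2726) (.e (nat_lit 1086) (nat_lit 81) (.e (nat_lit 1661) (nat_lit 115) (.e (nat_lit 393260) (nat_lit 21) (.e (nat_lit 409648) (nat_lit 18) (.e (nat_lit 303151) (nat_lit 27) .nil))))) .nil)))))))))

noncomputable def tv211 : DT := (.nd (nat_lit 0) (.nd (nat_lit 1) (.nd (nat_lit 2) (.nd (nat_lit 3) (.nd (nat_lit 4) (.nd (nat_lit 5) (.nd (nat_lit 6) 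
(.lf (nat_lit 15232) (.g (nat_lit 3212) (.e (nat_lit 1086) (nat_lit 81) (.e (nat_lit 1661) (nat_lit 115) (.e (nat_lit 393260) (nat_lit 21) (.e (nat_lit 409649) (nat_lit 18) (.e (nat_lit 303151) (nat_lit 27) .nil))))) .nil)) 
(.lf (nat_lit 15296) (.g (nat_lit 2900) (.e (nat_lit 1093) (nat_lit 81) (.e (nat_lit 1536) (nat_lit 109) (.e (nat_lit 344117) (nat_lit 21) (.e (nat_lit 516165) (nat_lit 12) (.e (nat_lit 458496) (nat_lit 3) (.e (nat_lit 516115) (nat_lit 1) (.e (nat_lit 164298) (nat_lit 226) .nil))))))) (.g (nat_lit 4) .nil .nil)))) (.nd (nat_lit 6) 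
(.lf (nat_lit 15264) (.g (nat_lit 2571) (.e (nat_lit 1088) (nat_lit 81) (.e (nat_lit 1435) (nat_lit 108) (.e (nat_lit 336060) (nat_lit 7) (.e (nat_lit 319533) (nat_lit 16) (.e (nat_lit 286753) (nat_lit 10) (.e (nat_lit 344160) (nat_lit 37) (.e (nat_lit 647195) (nat_lit 9) (.e (nat_lit 1181) (nat_lit 87) (.e (nat_lit 57653) (nat_lit 152) .nil))))))))) (.g (nat_lit 5) .nil .nil))) 
(.lf (nat_lit 15328) (.g (nat_lit 678) (.e (nat_lit 1102) (nat_lit 81) (.e (nat_lit 1661) (nat_lit 115) (.e (nat_lit 393227) (nat_lit 9) .nil))) .nil)))) (.nd (nat_lit 5) (.nd (nat_lit 6) 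
(.lf (nat_lit 15248) (.g (nat_lit 2748) (.e (nat_lit 1086) (nat_lit 81) (.e (nat_lit 5949) (nat_lit 322) (.e (nat_lit 57373) (nat_lit 2) (.e (nat_lit 90172) (nat_lit 14) (.e (nat_lit 180243) (nat_lit 5) (.e (nat_lit 532508) (nat_lit 2) (.e (nat_lit 114432) (nat_lit 3) (.e (nat_lit 163962) (nat_lit 25) (.e (nat_lit 532490) (nat_lit 0) .nil))))))))) (.g (nat_lit 4) .nil .nil))) 
(.lf (nat_lit 15312) (.g (nat_lit 1676) (.e (nat_lit 1095) (nat_lit 81) (.e (nat_lit 7270) (nat_lit 385) (.e (nat_lit 122917) (nat_lit 15) (.e (nat_lit 360492) (nat_lit 22) .nil)))) .nil))) (.nd (nat_lit 6) 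
(.lf (nat_lit 15280) (.g (nat_lit 3083) (.e (nat_lit 1089) (nat_lit 81) (.e (nat_lit 1659) (nat_lit 115) (.e (nat_lit 393229) (nat_lit 9) (.e (nat_lit 336184) (nat_lit 11) (.e (nat_lit 368676) (nat_lit 21) (.e (nat_lit 516115) (nat_lit 1) (.e (nat_lit 164151) (nat_lit 152) .nil))))))) (.g (nat_lit 0) .nil .nil))) 
(.lf (nat_lit 15344) (.g (nat_lit 807) (.e (nat_lit 1105) (nat_lit 81) (.e (nat_lit 6207) (nat_lit 333) (.e (nat_lit 57900) (nat_lit 276) .nil))) .nil))))) (.nd (nat_lit 4) (.nd (nat_lit 5) (.nd (nat_lit 6) 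
(.lf (nat_lit 15240) (.g (nat_lit 2610) (.e (nat_lit 1086) (nat_lit 81) (.e (nat_lit 5321) (nat_lit 298) (.e (nat_lit 1638) (nat_lit 114) (.e (nat_lit 385102) (nat_lit 50) (.e (nat_lit 786483) (nat_lit 30) (.e (nat_lit 360484) (nat_lit 15) (.e (nat_lit 647203) (nat_lit 14) .nil))))))) (.g (nat_lit 7) .nil .nil))) 
(.lf (nat_lit 15304) (.g (nat_lit 1626) (.e (nat_lit 1095) (nat_lit 81) (.e (nat_lit 1858) (nat_lit 124) (.e (nat_lit 557100) (nat_lit 13) (.e (nat_lit 172106) (nat_lit 10) .nil)))) .nil))) (.nd (nat_lit 6) 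
(.lf (nat_lit 15272) (.g (nat_lit 2274) (.e (nat_lit 1088) (nat_lit 81) (.e (nat_lit 1633) (nat_lit 114) (.e (nat_lit 385068) (nat_lit 26) (.e (nat_lit 532560) (nat_lit 14) (.e (nat_lit 376838) (nat_lit 11) .nil))))) .nil)) 
(.lf (nat_lit 15336) (.g (nat_lit 807) (.e (nat_lit 1103) (nat_lit 81) (.e (nat_lit 6207) (nat_lit 333) (.e (nat_lit 57900) (nat_lit 276) .nil))) .nil)))) (.nd (nat_lit 5) (.nd (nat_lit 6) 
(.lf (nat_lit 15256) (.g (nat_lit 2285) (.e (nat_lit 1087) (nat_lit 81) (.e (nat_lit 1661) (nat_lit 115) (.e (nat_lit 393260) (nat_lit 21) (.e (nat_lit 409646) (nat_lit 18) .nil)))) .nil)) 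
(.lf (nat_lit 15320) (.g (nat_lit 2050) (.e (nat_lit 1095) (nat_lit 81) (.e (nat_lit 7270) (nat_lit 385) (.e (nat_lit 122919) (nat_lit 15) (.e (nat_lit 368384) (nat_lit 24) .nil)))) .nil))) (.nd (nat_lit 6) 
(.lf (nat_lit 15288) (.g (nat_lit 2862) (.e (nat_lit 1089) (nat_lit 81) (.e (nat_lit 1661) (nat_lit 115) (.e (nat_lit 393229) (nat_lit 9) (.e (nat_lit 336184) (nat_lit 11) (.e (nat_lit 368676) (nat_lit 21) (.e (nat_lit 516115) (nat_lit 1) (.e (nat_lit 164151) (nat_lit 152) .nil))))))) (.g (nat_lit 6) .nil .nil))) 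
(.lf (nat_lit 15352) (.g (nat_lit 356) (.e (nat_lit 7936) (nat_lit 81) (.e (nat_lit 1256) (nat_lit 92) (.e (nat_lit 98369) (nat_lit 28) (.e (nat_lit 450304) (nat_lit 18) .nil)))) .nil)))))) (.nd (nat_lit 3) (.nd (nat_lit 4) (.nd (nat_lit 5) (.nd (nat_lit 6) 
(.lf (nat_lit 15236) (.g (nat_lit 1900) (.e (nat_lit 1086) (nat_lit 81) (.e (nat_lit 1661) (nat_lit 115) (.e (nat_lit 393268) (nat_lit 23) (.e (nat_lit 426438) (nat_lit 18) (.e (nat_lit 98335) (nat_lit 18) (.e (nat_lit 164332) (nat_lit 230) (.e (nat_lit 163862) (nat_lit 1) (.e (nat_lit 164421) (nat_lit 272) .nil)))))))) (.g (nat_lit 4) .nil .nil))) 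
(.lf (nat_lit 15300) (.g (nat_lit 2355) (.e (nat_lit 1095) (nat_lit 81) (.e (nat_lit 1237) (nat_lit 91) (.e (nat_lit 90170) (nat_lit 13) (.e (nat_lit 172106) (nat_lit 10) (.e (nat_lit 434231) (nat_lit 23) .nil))))) .nil))) (.nd (nat_lit 6) 
(.lf (nat_lit 15268) (.g (nat_lit 2054) (.e (nat_lit 1088) (nat_lit 81) (.e (nat_lit 1633) (nat_lit 114) (.e (nat_lit 385068) (nat_lit 26) (.e (nat_lit 532534) (nat_lit 9) (.e (nat_lit 336211) (nat_lit 13) .nil))))) .nil)) 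
(.lf (nat_lit 15332) (.g (nat_lit 422) (.e (nat_lit 1103) (nat_lit 81) (.e (nat_lit 5224) (nat_lit 296) (.e (nat_lit 163933) (nat_lit 17) .nil))) .nil)))) (.nd (nat_lit 5) (.nd (nat_lit 6) 
(.lf (nat_lit 15252) (.g (nat_lit 2327) (.e (nat_lit 1087) (nat_lit 81) (.e (nat_lit 1235) (nat_lit 91) (.e (nat_lit 90170) (nat_lit 13) (.e (nat_lit 172106) (nat_lit 10) (.e (nat_lit 434231) (nat_lit 23) (.e (nat_lit 532543) (nat_lit 10) (.e (nat_lit 344096) (nat_lit 18) (.e (nat_lit 4761) (nat_lit 281) .nil)))))))) (.g (nat_lit 4) .nil .nil))) 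
(.lf (nat_lit 15316) (.g (nat_lit 2341) (.e (nat_lit 1095) (nat_lit 81) (.e (nat_lit 7270) (nat_lit 385) (.e (nat_lit 122919) (nat_lit 15) (.e (nat_lit 360491) (nat_lit 22) .nil)))) .nil))) (.nd (nat_lit 6) 
(.lf (nat_lit 15284) (.g (nat_lit 3921) (.e (nat_lit 1089) (nat_lit 81) (.e (nat_lit 1661) (nat_lit 115) (.e (nat_lit 393225) (nat_lit 9) (.e (nat_lit 336087) (nat_lit 9) (.e (nat_lit 336019) (nat_lit 3) (.e (nat_lit 98333) (nat_lit 18) (.e (nat_lit 164151) (nat_lit 152) .nil))))))) (.g (nat_lit 0) .nil .nil))) 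
(.lf (nat_lit 15348) (.g (nat_lit 2121) (.e (nat_lit 7936) (nat_lit 81) (.e (nat_lit 618) (nat_lit 48) (.e (nat_lit 557105) (nat_lit 14) (.e (nat_lit 180252) (nat_lit 10) (.e (nat_lit 573481) (nat_lit 13) .nil))))) .nil))))) (.nd (nat_lit 4) (.nd (nat_lit 5) (.nd (nat_lit 6) 
(.lf (nat_lit 15244) (.g (nat_lit 4542) (.e (nat_lit 1086) (nat_lit 81) (.e (nat_lit 5598) (nat_lit 310) (.e (nat_lit 163867) (nat_lit 2) (.e (nat_lit 196670) (nat_lit 14) (.e (nat_lit 73746) (nat_lit 3) (.e (nat_lit 516129) (nat_lit 3) (.e (nat_lit 221214) (nat_lit 23) (.e (nat_lit 204821) (nat_lit 17) .nil)))))))) (.g (nat_lit 7) .nil .nil))) 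
(.lf (nat_lit 15308) (.g (nat_lit 1525) (.e (nat_lit 1095) (nat_lit 81) (.e (nat_lit 7270) (nat_lit 385) (.e (nat_lit 122916) (nat_lit 14) (.e (nat_lit 352322) (nat_lit 26) .nil)))) .nil))) (.nd (nat_lit 6) 
(.lf (nat_lit 15276) (.g (nat_lit 544) (.e (nat_lit 1088) (nat_lit 81) (.e (nat_lit 1656) (nat_lit 115) (.e (nat_lit 401152) (nat_lit 11) .nil))) .nil)) 
(.lf (nat_lit 15340) (.g (nat_lit 1175) (.e (nat_lit 1103) (nat_lit 81) (.e (nat_lit 6209) (nat_lit 333) (.e (nat_lit 57900) (nat_lit 276) (.e (nat_lit 122936) (nat_lit 23) (.e (nat_lit 516177) (nat_lit 14) (.e (nat_lit 466974) (nat_lit 22) (.e (nat_lit 196619) (nat_lit 9) .nil))))))) (.g (nat_lit 4) .nil .nil))))) (.nd (nat_lit 5) (.nd (nat_lit 6) 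
(.lf (nat_lit 15260) (.g (nat_lit 3285) (.e (nat_lit 1087) (nat_lit 81) (.e (nat_lit 1661) (nat_lit 115) (.e (nat_lit 393260) (nat_lit 21) (.e (nat_lit 409649) (nat_lit 18) (.e (nat_lit 303154) (nat_lit 28) .nil))))) .nil)) 
(.lf (nat_lit 15324) (.g (nat_lit 1931) (.e (nat_lit 1101) (nat_lit 81) (.e (nat_lit 1661) (nat_lit 115) (.e (nat_lit 393252) (nat_lit 18) (.e (nat_lit 164305) (nat_lit 226) (.e (nat_lit 1058) (nat_lit 81) (.e (nat_lit 1661) (nat_lit 115) (.e (nat_lit 393252) (nat_lit 18) (.e (nat_lit 164306) (nat_lit 226) .nil)))))))) (.g (nat_lit 4) .nil .nil)))) (.nd (nat_lit 6) 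
(.lf (nat_lit 15292) (.g (nat_lit 2871) (.e (nat_lit 1091) (nat_lit 81) (.e (nat_lit 1536) (nat_lit 109) (.e (nat_lit 344117) (nat_lit 21) (.e (nat_lit 516165) (nat_lit 12) (.e (nat_lit 458496) (nat_lit 3) (.e (nat_lit 516115) (nat_lit 1) (.e (nat_lit 164298) (nat_lit 226) .nil))))))) (.g (nat_lit 4) .nil .nil))) 
(.lf (nat_lit 15356) (.g (nat_lit 479) (.e (nat_lit 7936) (nat_lit 81) (.e (nat_lit 1656) (nat_lit 115) (.e (nat_lit 401152) (nat_lit 12) .nil))) .nil))))))) (.nd (nat_lit 2) (.nd (nat_lit 3) (.nd (nat_lit 4) (.nd (nat_lit 5) (.nd (nat_lit 6) 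
(.lf (nat_lit 15234) (.g (nat_lit 3246) (.e (nat_lit 1086) (nat_lit 81) (.e (nat_lit 1661) (nat_lit 115) (.e (nat_lit 393260) (nat_lit 21) (.e (nat_lit 409649) (nat_lit 18) (.e (nat_lit 303151) (nat_lit 27) (.e (nat_lit 335894) (nat_lit 0) (.e (nat_lit 1050) (nat_lit 81) (.e (nat_lit 4805) (nat_lit 281) .nil)))))))) (.g (nat_lit 4) .nil .nil))) 
(.lf (nat_lit 15298) (.g (nat_lit 2074) (.e (nat_lit 1093) (nat_lit 81) (.e (nat_lit 1587) (nat_lit 111) (.e (nat_lit 360451) (nat_lit 0) (.e (nat_lit 7125) (nat_lit 382) (.e (nat_lit 1201) (nat_lit 88) .nil))))) .nil))) (.nd (nat_lit 6) 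
(.lf (nat_lit 15266) (.g (nat_lit 632) (.e (nat_lit 1088) (nat_lit 81) (.e (nat_lit 1633) (nat_lit 114) (.e (nat_lit 385068) (nat_lit 26) .nil))) .nil)) 
(.lf (nat_lit 15330) (.g (nat_lit 1935) (.e (nat_lit 1102) (nat_lit 81) (.e (nat_lit 1661) (nat_lit 115) (.e (nat_lit 393229) (nat_lit 9) (.e (nat_lit 336184) (nat_lit 11) (.e (nat_lit 368676) (nat_lit 21) .nil))))) .nil)))) (.nd (nat_lit 5) (.nd (nat_lit 6) 
(.lf (nat_lit 15250) (.g (nat_lit 3371) (.e (nat_lit 1087) (nat_lit 81) (.e (nat_lit 1234) (nat_lit 91) (.e (nat_lit 90170) (nat_lit 13) (.e (nat_lit 172106) (nat_lit 10) (.e (nat_lit 434231) (nat_lit 23) .nil))))) .nil)) 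
(.lf (nat_lit 15314) (.g (nat_lit 1849) (.e (nat_lit 1095) (nat_lit 81) (.e (nat_lit 7270) (nat_lit 385) (.e (nat_lit 122919) (nat_lit 15) (.e (nat_lit 360451) (nat_lit 0) .nil)))) .nil))) (.nd (nat_lit 6) 
(.lf (nat_lit 15282) (.g (nat_lit 2459) (.e (nat_lit 1089) (nat_lit 81) (.e (nat_lit 1661) (nat_lit 115) (.e (nat_lit 393224) (nat_lit 9) (.e (nat_lit 336087) (nat_lit 9) (.e (nat_lit 336019) (nat_lit 3) (.e (nat_lit 98333) (nat_lit 18) (.e (nat_lit 164151) (nat_lit 152) .nil))))))) (.g (nat_lit 5) .nil .nil))) 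
(.lf (nat_lit 15346) (.g (nat_lit 1452) (.e (nat_lit 1108) (nat_lit 81) (.e (nat_lit 1659) (nat_lit 115) (.e (nat_lit 393229) (nat_lit 9) (.e (nat_lit 336184) (nat_lit 11) .nil)))) .nil))))) (.nd (nat_lit 4) (.nd (nat_lit 5) (.nd (nat_lit 6) 
(.lf (nat_lit 15242) (.g (nat_lit 4145) (.e (nat_lit 1086) (nat_lit 81) (.e (nat_lit 5597) (nat_lit 310) (.e (nat_lit 163867) (nat_lit 2) (.e (nat_lit 196670) (nat_lit 14) (.e (nat_lit 73746) (nat_lit 3) (.e (nat_lit 516131) (nat_lit 3) (.e (nat_lit 221215) (nat_lit 23) (.e (nat_lit 204821) (nat_lit 17) .nil)))))))) (.g (nat_lit 0) .nil .nil))) 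
(.lf (nat_lit 15306) (.g (nat_lit 557) (.e (nat_lit 1095) (nat_lit 81) (.e (nat_lit 7270) (nat_lit 385) (.e (nat_lit 122914) (nat_lit 14) .nil))) .nil))) (.nd (nat_lit 6) 
(.lf (nat_lit 15274) (.g (nat_lit 2980) (.e (nat_lit 1088) (nat_lit 81) (.e (nat_lit 1656) (nat_lit 115) (.e (nat_lit 393225) (nat_lit 9) (.e (nat_lit 336087) (nat_lit 9) (.e (nat_lit 336019) (nat_lit 3) (.e (nat_lit 98333) (nat_lit 18) (.e (nat_lit 164151) (nat_lit 152) .nil))))))) (.g (nat_lit 6) .nil .nil))) 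
(.lf (nat_lit 15338) (.g (nat_lit 1460) (.e (nat_lit 1103) (nat_lit 81) (.e (nat_lit 6207) (nat_lit 333) (.e (nat_lit 57900) (nat_lit 276) (.e (nat_lit 122936) (nat_lit 23) (.e (nat_lit 516177) (nat_lit 14) (.e (nat_lit 466974) (nat_lit 22) (.e (nat_lit 196619) (nat_lit 9) .nil))))))) (.g (nat_lit 4) .nil .nil))))) (.nd (nat_lit 5) (.nd (nat_lit 6) 
(.lf (nat_lit 15258) (.g (nat_lit 3021) (.e (nat_lit 1087) (nat_lit 81) (.e (nat_lit 1661) (nat_lit 115) (.e (nat_lit 393260) (nat_lit 21) (.e (nat_lit 409648) (nat_lit 18) (.e (nat_lit 303154) (nat_lit 28) .nil))))) .nil)) 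
(.lf (nat_lit 15322) (.g (nat_lit 1647) (.e (nat_lit 1101) (nat_lit 81) (.e (nat_lit 1661) (nat_lit 115) (.e (nat_lit 393252) (nat_lit 18) (.e (nat_lit 164297) (nat_lit 226) .nil)))) .nil))) (.nd (nat_lit 6) 
(.lf (nat_lit 15290) (.g (nat_lit 2107) (.e (nat_lit 1089) (nat_lit 81) (.e (nat_lit 5596) (nat_lit 310) (.e (nat_lit 163905) (nat_lit 12) (.e (nat_lit 426555) (nat_lit 32) (.e (nat_lit 376865) (nat_lit 22) .nil))))) .nil)) 
(.lf (nat_lit 15354) (.g (nat_lit 1236) (.e (nat_lit 7936) (nat_lit 81) (.e (nat_lit 1633) (nat_lit 114) (.e (nat_lit 385068) (nat_lit 26) (.e (nat_lit 532533) (nat_lit 9) (.e (nat_lit 336211) (nat_lit 13) .nil))))) .nil)))))) (.nd (nat_lit 3) (.nd (nat_lit 4) (.nd (nat_lit 5) (.nd (nat_lit 6) 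
(.lf (nat_lit 15238) (.g (nat_lit 3334) (.e (nat_lit 1086) (nat_lit 81) (.e (nat_lit 1856) (nat_lit 124) (.e (nat_lit 557100) (nat_lit 13) (.e (nat_lit 172106) (nat_lit 10) (.e (nat_lit 434231) (nat_lit 23) (.e (nat_lit 532544) (nat_lit 10) (.e (nat_lit 344168) (nat_lit 40) (.e (nat_lit 671751) (nat_lit 0) .nil)))))))) (.g (nat_lit 7) .nil .nil))) 
(.lf (nat_lit 15302) (.g (nat_lit 2074) (.e (nat_lit 1095) (nat_lit 81) (.e (nat_lit 1587) (nat_lit 111) (.e (nat_lit 360451) (nat_lit 0) (.e (nat_lit 7125) (nat_lit 382) (.e (nat_lit 1201) (nat_lit 88) .nil))))) .nil))) (.nd (nat_lit 6) 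
(.lf (nat_lit 15270) (.g (nat_lit 2206) (.e (nat_lit 1088) (nat_lit 81) (.e (nat_lit 1633) (nat_lit 114) (.e (nat_lit 385068) (nat_lit 26) (.e (nat_lit 532534) (nat_lit 9) (.e (nat_lit 336211) (nat_lit 13) (.e (nat_lit 393253) (nat_lit 18) (.e (nat_lit 164151) (nat_lit 152) .nil))))))) (.g (nat_lit 4) .nil .nil))) 
(.lf (nat_lit 15334) (.g (nat_lit 2328) (.e (nat_lit 1103) (nat_lit 81) (.e (nat_lit 5224) (nat_lit 296) (.e (nat_lit 163933) (nat_lit 17) (.e (nat_lit 466972) (nat_lit 21) (.e (nat_lit 164307) (nat_lit 226) (.e (nat_lit 7936) (nat_lit 90) (.e (nat_lit 81930) (nat_lit 20) .nil))))))) (.g (nat_lit 5) .nil .nil))))) (.nd (nat_lit 5) (.nd (nat_lit 6) 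
(.lf (nat_lit 15254) (.g (nat_lit 2569) (.e (nat_lit 1087) (nat_lit 81) (.e (nat_lit 1661) (nat_lit 115) (.e (nat_lit 393251) (nat_lit 18) (.e (nat_lit 164325) (nat_lit 230) (.e (nat_lit 163864) (nat_lit 1) .nil))))) .nil)) 
(.lf (nat_lit 15318) (.g (nat_lit 3252) (.e (nat_lit 1095) (nat_lit 81) (.e (nat_lit 7270) (nat_lit 385) (.e (nat_lit 122919) (nat_lit 15) (.e (nat_lit 360491) (nat_lit 22) (.e (nat_lit 778466) (nat_lit 11) (.e (nat_lit 24638) (nat_lit 9) (.e (nat_lit 335892) (nat_lit 0) .nil))))))) (.g (nat_lit 5) .nil .nil)))) (.nd (nat_lit 6) 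
(.lf (nat_lit 15286) (.g (nat_lit 3717) (.e (nat_lit 1089) (nat_lit 81) (.e (nat_lit 1661) (nat_lit 115) (.e (nat_lit 393229) (nat_lit 9) (.e (nat_lit 336087) (nat_lit 9) (.e (nat_lit 336019) (nat_lit 3) (.e (nat_lit 98333) (nat_lit 18) (.e (nat_lit 164151) (nat_lit 152) .nil))))))) (.g (nat_lit 6) .nil .nil))) 
(.lf (nat_lit 15350) (.g (nat_lit 1661) (.e (nat_lit 7936) (nat_lit 81) (.e (nat_lit 1239) (nat_lit 91) (.e (nat_lit 90170) (nat_lit 13) (.e (nat_lit 172065) (nat_lit 3) .nil)))) .nil))))) (.nd (nat_lit 4) (.nd (nat_lit 5) (.nd (nat_lit 6) 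
(.lf (nat_lit 15246) (.g (nat_lit 3984) (.e (nat_lit 1086) (nat_lit 81) (.e (nat_lit 5598) (nat_lit 310) (.e (nat_lit 163869) (nat_lit 2) (.e (nat_lit 196670) (nat_lit 14) (.e (nat_lit 73746) (nat_lit 3) (.e (nat_lit 516131) (nat_lit 3) (.e (nat_lit 221215) (nat_lit 23) (.e (nat_lit 204821) (nat_lit 17) .nil)))))))) (.g (nat_lit 8) .nil .nil))) 
(.lf (nat_lit 15310) (.g (nat_lit 2392) (.e (nat_lit 1095) (nat_lit 81) (.e (nat_lit 7270) (nat_lit 385) (.e (nat_lit 122916) (nat_lit 14) (.e (nat_lit 352324) (nat_lit 26) (.e (nat_lit 147494) (nat_lit 11) (.e (nat_lit 24638) (nat_lit 9) (.e (nat_lit 335892) (nat_lit 0) .nil))))))) (.g (nat_lit 5) .nil .nil)))) (.nd (nat_lit 6) 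
(.lf (nat_lit 15278) (.g (nat_lit 1544) (.e (nat_lit 1089) (nat_lit 81) (.e (nat_lit 1638) (nat_lit 114) (.e (nat_lit 385066) (nat_lit 26) (.e (nat_lit 532533) (nat_lit 9) (.e (nat_lit 336211) (nat_lit 13) .nil))))) .nil)) 
(.lf (nat_lit 15342) (.g (nat_lit 1934) (.e (nat_lit 1105) (nat_lit 81) (.e (nat_lit 5224) (nat_lit 296) (.e (nat_lit 163933) (nat_lit 17) (.e (nat_lit 466972) (nat_lit 21) (.e (nat_lit 164307) (nat_lit 226) .nil))))) .nil)))) (.nd (nat_lit 5) (.nd (nat_lit 6) 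
(.lf (nat_lit 15262) (.g (nat_lit 3145) (.e (nat_lit 1087) (nat_lit 81) (.e (nat_lit 1661) (nat_lit 115) (.e (nat_lit 393260) (nat_lit 21) (.e (nat_lit 409651) (nat_lit 19) .nil)))) .nil)) 
(.lf (nat_lit 15326) (.g (nat_lit 2264) (.e (nat_lit 1102) (nat_lit 81) (.e (nat_lit 1428) (nat_lit 108) (.e (nat_lit 336456) (nat_lit 34) (.e (nat_lit 483383) (nat_lit 23) (.e (nat_lit 336019) (nat_lit 3) .nil))))) .nil))) (.nd (nat_lit 6) 
(.lf (nat_lit 15294) (.g (nat_lit 2355) (.e (nat_lit 1093) (nat_lit 81) (.e (nat_lit 1237) (nat_lit 91) (.e (nat_lit 90170) (nat_lit 13) (.e (nat_lit 172106) (nat_lit 10) (.e (nat_lit 434231) (nat_lit 23) .nil))))) .nil)) 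
(.lf (nat_lit 15358) (.g (nat_lit 2755) (.e (nat_lit 7936) (nat_lit 81) (.e (nat_lit 1661) (nat_lit 115) (.e (nat_lit 393260) (nat_lit 21) (.e (nat_lit 409648) (nat_lit 18) (.e (nat_lit 303151) (nat_lit 27) .nil))))) .nil)))))))) (.nd (nat_lit 1) (.nd (nat_lit 2) (.nd (nat_lit 3) (.nd (nat_lit 4) (.nd (nat_lit 5) (.nd (nat_lit 6) 
(.lf (nat_lit 15233) (.g (nat_lit 3268) (.e (nat_lit 1086) (nat_lit 81) (.e (nat_lit 1661) (nat_lit 115) (.e (nat_lit 393260) (nat_lit 21) (.e (nat_lit 409649) (nat_lit 18) (.e (nat_lit 303151) (nat_lit 27) (.e (nat_lit 335894) (nat_lit 0) (.e (nat_lit 971) (nat_lit 81) (.e (nat_lit 4805) (nat_lit 281) .nil)))))))) (.g (nat_lit 4) .nil .nil))) 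
(.lf (nat_lit 15297) (.g (nat_lit 1742) (.e (nat_lit 1093) (nat_lit 81) (.e (nat_lit 1587) (nat_lit 111) (.e (nat_lit 360451) (nat_lit 0) (.e (nat_lit 7124) (nat_lit 382) (.e (nat_lit 1201) (nat_lit 88) .nil))))) .nil))) (.nd (nat_lit 6) 
(.lf (nat_lit 15265) (.g (nat_lit 4544) (.e (nat_lit 1088) (nat_lit 81) (.e (nat_lit 1438) (nat_lit 108) (.e (nat_lit 336060) (nat_lit 7) (.e (nat_lit 319534) (nat_lit 16) (.e (nat_lit 286756) (nat_lit 10) (.e (nat_lit 344160) (nat_lit 37) (.e (nat_lit 647195) (nat_lit 9) (.e (nat_lit 1181) (nat_lit 87) (.e (nat_lit 57653) (nat_lit 152) .nil))))))))) (.g (nat_lit 9) .nil .nil))) 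
(.lf (nat_lit 15329) (.g (nat_lit 955) (.e (nat_lit 1102) (nat_lit 81) (.e (nat_lit 1661) (nat_lit 115) (.e (nat_lit 393227) (nat_lit 9) (.e (nat_lit 336152) (nat_lit 9) .nil)))) .nil)))) (.nd (nat_lit 5) (.nd (nat_lit 6) 
(.lf (nat_lit 15249) (.g (nat_lit 3553) (.e (nat_lit 1086) (nat_lit 81) (.e (nat_lit 5949) (nat_lit 322) (.e (nat_lit 57373) (nat_lit 2) (.e (nat_lit 90172) (nat_lit 14) (.e (nat_lit 180244) (nat_lit 5) (.e (nat_lit 532508) (nat_lit 2) (.e (nat_lit 114432) (nat_lit 3) (.e (nat_lit 163962) (nat_lit 25) (.e (nat_lit 532490) (nat_lit 0) .nil))))))))) (.g (nat_lit 6) .nil .nil))) 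
(.lf (nat_lit 15313) (.g (nat_lit 566) (.e (nat_lit 1095) (nat_lit 81) (.e (nat_lit 7270) (nat_lit 385) (.e (nat_lit 122919) (nat_lit 15) .nil))) .nil))) (.nd (nat_lit 6) 
(.lf (nat_lit 15281) (.g (nat_lit 3198) (.e (nat_lit 1089) (nat_lit 81) (.e (nat_lit 1659) (nat_lit 115) (.e (nat_lit 393229) (nat_lit 9) (.e (nat_lit 336186) (nat_lit 11) (.e (nat_lit 368676) (nat_lit 21) (.e (nat_lit 516115) (nat_lit 1) (.e (nat_lit 164151) (nat_lit 152) .nil))))))) (.g (nat_lit 0) .nil .nil))) 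
(.lf (nat_lit 15345) (.g (nat_lit 2299) (.e (nat_lit 1108) (nat_lit 81) (.e (nat_lit 1659) (nat_lit 115) (.e (nat_lit 393229) (nat_lit 9) (.e (nat_lit 336087) (nat_lit 9) (.e (nat_lit 336019) (nat_lit 3) .nil))))) .nil))))) (.nd (nat_lit 4) (.nd (nat_lit 5) (.nd (nat_lit 6) 
(.lf (nat_lit 15241) (.g (nat_lit 4470) (.e (nat_lit 1086) (nat_lit 81) (.e (nat_lit 5597) (nat_lit 310) (.e (nat_lit 163867) (nat_lit 2) (.e (nat_lit 196670) (nat_lit 14) (.e (nat_lit 73746) (nat_lit 3) (.e (nat_lit 516129) (nat_lit 3) (.e (nat_lit 221214) (nat_lit 23) (.e (nat_lit 204821) (nat_lit 17) .nil)))))))) (.g (nat_lit 8) .nil .nil))) 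
(.lf (nat_lit 15305) (.g (nat_lit 1535) (.e (nat_lit 1095) (nat_lit 81) (.e (nat_lit 5194) (nat_lit 294) (.e (nat_lit 57372) (nat_lit 2) (.e (nat_lit 90158) (nat_lit 11) (.e (nat_lit 24658) (nat_lit 13) .nil))))) .nil))) (.nd (nat_lit 6) 
(.lf (nat_lit 15273) (.g (nat_lit 3747) (.e (nat_lit 1088) (nat_lit 81) (.e (nat_lit 1633) (nat_lit 114) (.e (nat_lit 385068) (nat_lit 26) (.e (nat_lit 532560) (nat_lit 14) (.e (nat_lit 376842) (nat_lit 11) (.e (nat_lit 426098) (nat_lit 1) (.e (nat_lit 164151) (nat_lit 152) .nil))))))) (.g (nat_lit 6) .nil .nil))) 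
(.lf (nat_lit 15337) (.g (nat_lit 3291) (.e (nat_lit 1103) (nat_lit 81) (.e (nat_lit 6207) (nat_lit 333) (.e (nat_lit 57900) (nat_lit 276) (.e (nat_lit 122936) (nat_lit 23) (.e (nat_lit 516176) (nat_lit 14) (.e (nat_lit 466977) (nat_lit 22) (.e (nat_lit 196619) (nat_lit 9) .nil))))))) (.g (nat_lit 7) .nil .nil))))) (.nd (nat_lit 5) (.nd (nat_lit 6) 
(.lf (nat_lit 15257) (.g (nat_lit 2026) (.e (nat_lit 1087) (nat_lit 81) (.e (nat_lit 1661) (nat_lit 115) (.e (nat_lit 393260) (nat_lit 21) (.e (nat_lit 409648) (nat_lit 18) .nil)))) .nil)) 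
(.lf (nat_lit 15321) (.g (nat_lit 654) (.e (nat_lit 1101) (nat_lit 81) (.e (nat_lit 1661) (nat_lit 115) (.e (nat_lit 393251) (nat_lit 18) .nil))) .nil))) (.nd (nat_lit 6) 
(.lf (nat_lit 15289) (.g (nat_lit 524) (.e (nat_lit 1089) (nat_lit 81) (.e (nat_lit 1661) (nat_lit 115) (.e (nat_lit 401152) (nat_lit 12) .nil))) .nil)) 
(.lf (nat_lit 15353) (.g (nat_lit 768) (.e (nat_lit 7936) (nat_lit 81) (.e (nat_lit 1256) (nat_lit 92) (.e (nat_lit 98370) (nat_lit 28) (.e (nat_lit 450304) (nat_lit 18) .nil)))) .nil)))))) (.nd (nat_lit 3) (.nd (nat_lit 4) (.nd (nat_lit 5) (.nd (nat_lit 6) 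
(.lf (nat_lit 15237) (.g (nat_lit 3854) (.e (nat_lit 1086) (nat_lit 81) (.e (nat_lit 1855) (nat_lit 124) (.e (nat_lit 557100) (nat_lit 13) (.e (nat_lit 172106) (nat_lit 10) (.e (nat_lit 434231) (nat_lit 23) (.e (nat_lit 532544) (nat_lit 10) (.e (nat_lit 344168) (nat_lit 40) (.e (nat_lit 671751) (nat_lit 0) .nil)))))))) (.g (nat_lit 8) .nil .nil))) 
(.lf (nat_lit 15301) (.g (nat_lit 2419) (.e (nat_lit 1095) (nat_lit 81) (.e (nat_lit 1237) (nat_lit 91) (.e (nat_lit 90170) (nat_lit 13) (.e (nat_lit 172106) (nat_lit 10) (.e (nat_lit 434231) (nat_lit 23) (.e (nat_lit 532535) (nat_lit 9) (.e (nat_lit 335925) (nat_lit 0) (.e (nat_lit 993) (nat_lit 81) (.e (nat_lit 4761) (nat_lit 281) .nil))))))))) (.g (nat_lit 4) .nil .nil)))) (.nd (nat_lit 6) 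
(.lf (nat_lit 15269) (.g (nat_lit 2116) (.e (nat_lit 1088) (nat_lit 81) (.e (nat_lit 1633) (nat_lit 114) (.e (nat_lit 385068) (nat_lit 26) (.e (nat_lit 532534) (nat_lit 9) (.e (nat_lit 336211) (nat_lit 13) (.e (nat_lit 393253) (nat_lit 18) (.e (nat_lit 164149) (nat_lit 152) .nil))))))) (.g (nat_lit 4) .nil .nil))) 
(.lf (nat_lit 15333) (.g (nat_lit 2570) (.e (nat_lit 1103) (nat_lit 81) (.e (nat_lit 5224) (nat_lit 296) (.e (nat_lit 163933) (nat_lit 17) (.e (nat_lit 466972) (nat_lit 21) (.e (nat_lit 164305) (nat_lit 226) (.e (nat_lit 7936) (nat_lit 90) (.e (nat_lit 81930) (nat_lit 20) .nil))))))) (.g (nat_lit 5) .nil .nil))))) (.nd (nat_lit 5) (.nd (nat_lit 6) 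
(.lf (nat_lit 15253) (.g (nat_lit 2632) (.e (nat_lit 1087) (nat_lit 81) (.e (nat_lit 1661) (nat_lit 115) (.e (nat_lit 393251) (nat_lit 18) (.e (nat_lit 164325) (nat_lit 230) (.e (nat_lit 163861) (nat_lit 1) .nil))))) .nil)) 
(.lf (nat_lit 15317) (.g (nat_lit 2670) (.e (nat_lit 1095) (nat_lit 81) (.e (nat_lit 7270) (nat_lit 385) (.e (nat_lit 122919) (nat_lit 15) (.e (nat_lit 360491) (nat_lit 22) (.e (nat_lit 778465) (nat_lit 11) (.e (nat_lit 24638) (nat_lit 9) (.e (nat_lit 335892) (nat_lit 0) .nil))))))) (.g (nat_lit 4) .nil .nil)))) (.nd (nat_lit 6) 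
(.lf (nat_lit 15285) (.g (nat_lit 4291) (.e (nat_lit 1089) (nat_lit 81) (.e (nat_lit 1661) (nat_lit 115) (.e (nat_lit 393225) (nat_lit 9) (.e (nat_lit 336088) (nat_lit 9) (.e (nat_lit 336019) (nat_lit 3) (.e (nat_lit 98333) (nat_lit 18) (.e (nat_lit 164151) (nat_lit 152) .nil))))))) (.g (nat_lit 0) .nil .nil))) 
(.lf (nat_lit 15349) (.g (nat_lit 1579) (.e (nat_lit 7936) (nat_lit 81) (.e (nat_lit 618) (nat_lit 48) (.e (nat_lit 557109) (nat_lit 15) (.e (nat_lit 196352) (nat_lit 17) .nil)))) .nil))))) (.nd (nat_lit 4) (.nd (nat_lit 5) (.nd (nat_lit 6) 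
(.lf (nat_lit 15245) (.g (nat_lit 4329) (.e (nat_lit 1086) (nat_lit 81) (.e (nat_lit 5598) (nat_lit 310) (.e (nat_lit 163869) (nat_lit 2) (.e (nat_lit 196670) (nat_lit 14) (.e (nat_lit 73746) (nat_lit 3) (.e (nat_lit 516129) (nat_lit 3) (.e (nat_lit 221214) (nat_lit 23) (.e (nat_lit 204821) (nat_lit 17) .nil)))))))) (.g (nat_lit 7) .nil .nil))) 
(.lf (nat_lit 15309) (.g (nat_lit 1352) (.e (nat_lit 1095) (nat_lit 81) (.e (nat_lit 7270) (nat_lit 385) (.e (nat_lit 122916) (nat_lit 14) (.e (nat_lit 352324) (nat_lit 26) .nil)))) .nil))) (.nd (nat_lit 6) 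
(.lf (nat_lit 15277) (.g (nat_lit 1557) (.e (nat_lit 1088) (nat_lit 81) (.e (nat_lit 1656) (nat_lit 115) (.e (nat_lit 401152) (nat_lit 11) (.e (nat_lit 352315) (nat_lit 23) (.e (nat_lit 98325) (nat_lit 17) (.e (nat_lit 2478) (nat_lit 157) (.e (nat_lit 6273) (nat_lit 337) .nil))))))) (.g (nat_lit 5) .nil .nil))) 
(.lf (nat_lit 15341) (.g (nat_lit 1937) (.e (nat_lit 1105) (nat_lit 81) (.e (nat_lit 5224) (nat_lit 296) (.e (nat_lit 163933) (nat_lit 17) (.e (nat_lit 466972) (nat_lit 21) (.e (nat_lit 164305) (nat_lit 226) .nil))))) .nil)))) (.nd (nat_lit 5) (.nd (nat_lit 6) 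
(.lf (nat_lit 15261) (.g (nat_lit 3010) (.e (nat_lit 1087) (nat_lit 81) (.e (nat_lit 1661) (nat_lit 115) (.e (nat_lit 393260) (nat_lit 21) (.e (nat_lit 409650) (nat_lit 19) .nil)))) .nil)) 
(.lf (nat_lit 15325) (.g (nat_lit 1706) (.e (nat_lit 1101) (nat_lit 81) (.e (nat_lit 1661) (nat_lit 115) (.e (nat_lit 393252) (nat_lit 18) (.e (nat_lit 164306) (nat_lit 226) (.e (nat_lit 1101) (nat_lit 81) (.e (nat_lit 1661) (nat_lit 115) (.e (nat_lit 393252) (nat_lit 18) (.e (nat_lit 164306) (nat_lit 226) .nil)))))))) (.g (nat_lit 4) .nil .nil)))) (.nd (nat_lit 6) 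
(.lf (nat_lit 15293) (.g (nat_lit 2074) (.e (nat_lit 1091) (nat_lit 81) (.e (nat_lit 1587) (nat_lit 111) (.e (nat_lit 360451) (nat_lit 0) (.e (nat_lit 7125) (nat_lit 382) (.e (nat_lit 1201) (nat_lit 88) .nil))))) .nil)) 
(.lf (nat_lit 15357) (.g (nat_lit 409) (.e (nat_lit 7936) (nat_lit 81) (.e (nat_lit 1661) (nat_lit 115) (.e (nat_lit 401152) (nat_lit 14) .nil))) .nil))))))) (.nd (nat_lit 2) (.nd (nat_lit 3) (.nd (nat_lit 4) (.nd (nat_lit 5) (.nd (nat_lit 6) 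
(.lf (nat_lit 15235) (.g (nat_lit 1447) (.e (nat_lit 1086) (nat_lit 81) (.e (nat_lit 1661) (nat_lit 115) (.e (nat_lit 393268) (nat_lit 23) (.e (nat_lit 426428) (nat_lit 17) .nil)))) .nil)) 
(.lf (nat_lit 15299) (.g (nat_lit 2610) (.e (nat_lit 1093) (nat_lit 81) (.e (nat_lit 1587) (nat_lit 111) (.e (nat_lit 360451) (nat_lit 0) (.e (nat_lit 7125) (nat_lit 382) (.e (nat_lit 1201) (nat_lit 88) (.e (nat_lit 65610) (nat_lit 10) (.e (nat_lit 344097) (nat_lit 18) (.e (nat_lit 7146) (nat_lit 382) .nil)))))))) (.g (nat_lit 5) .nil .nil)))) (.nd (nat_lit 6) 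
(.lf (nat_lit 15267) (.g (nat_lit 1609) (.e (nat_lit 1088) (nat_lit 81) (.e (nat_lit 1633) (nat_lit 114) (.e (nat_lit 385068) (nat_lit 26) (.e (nat_lit 532533) (nat_lit 9) (.e (nat_lit 336211) (nat_lit 13) .nil))))) .nil)) 
(.lf (nat_lit 15331) (.g (nat_lit 1999) (.e (nat_lit 1102) (nat_lit 81) (.e (nat_lit 1661) (nat_lit 115) (.e (nat_lit 393229) (nat_lit 9) (.e (nat_lit 336186) (nat_lit 11) (.e (nat_lit 368676) (nat_lit 21) .nil))))) .nil)))) (.nd (nat_lit 5) (.nd (nat_lit 6) 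
(.lf (nat_lit 15251) (.g (nat_lit 2252) (.e (nat_lit 1087) (nat_lit 81) (.e (nat_lit 1235) (nat_lit 91) (.e (nat_lit 90170) (nat_lit 13) (.e (nat_lit 172106) (nat_lit 10) (.e (nat_lit 434231) (nat_lit 23) .nil))))) .nil)) 
(.lf (nat_lit 15315) (.g (nat_lit 2402) (.e (nat_lit 1095) (nat_lit 81) (.e (nat_lit 7270) (nat_lit 385) (.e (nat_lit 122919) (nat_lit 15) (.e (nat_lit 360489) (nat_lit 21) .nil)))) .nil))) (.nd (nat_lit 6) 
(.lf (nat_lit 15283) (.g (nat_lit 2941) (.e (nat_lit 1089) (nat_lit 81) (.e (nat_lit 1661) (nat_lit 115) (.e (nat_lit 393224) (nat_lit 9) (.e (nat_lit 336088) (nat_lit 9) (.e (nat_lit 336019) (nat_lit 3) (.e (nat_lit 98333) (nat_lit 18) (.e (nat_lit 164151) (nat_lit 152) .nil))))))) (.g (nat_lit 5) .nil .nil))) 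
(.lf (nat_lit 15347) (.g (nat_lit 2196) (.e (nat_lit 7936) (nat_lit 81) (.e (nat_lit 618) (nat_lit 48) (.e (nat_lit 557098) (nat_lit 13) (.e (nat_lit 172123) (nat_lit 13) .nil)))) .nil))))) (.nd (nat_lit 4) (.nd (nat_lit 5) (.nd (nat_lit 6) 
(.lf (nat_lit 15243) (.g (nat_lit 1945) (.e (nat_lit 1086) (nat_lit 81) (.e (nat_lit 5597) (nat_lit 310) (.e (nat_lit 163867) (nat_lit 2) (.e (nat_lit 196670) (nat_lit 14) (.e (nat_lit 73748) (nat_lit 3) (.e (nat_lit 516131) (nat_lit 3) (.e (nat_lit 221215) (nat_lit 23) (.e (nat_lit 204821) (nat_lit 17) .nil)))))))) (.g (nat_lit 4) .nil .nil))) 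
(.lf (nat_lit 15307) (.g (nat_lit 553) (.e (nat_lit 1095) (nat_lit 81) (.e (nat_lit 7270) (nat_lit 385) (.e (nat_lit 122916) (nat_lit 14) .nil))) .nil))) (.nd (nat_lit 6) 
(.lf (nat_lit 15275) (.g (nat_lit 3362) (.e (nat_lit 1088) (nat_lit 81) (.e (nat_lit 1656) (nat_lit 115) (.e (nat_lit 393225) (nat_lit 9) (.e (nat_lit 336088) (nat_lit 9) (.e (nat_lit 336019) (nat_lit 3) (.e (nat_lit 98333) (nat_lit 18) (.e (nat_lit 164151) (nat_lit 152) .nil))))))) (.g (nat_lit 6) .nil .nil))) 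
(.lf (nat_lit 15339) (.g (nat_lit 2998) (.e (nat_lit 1103) (nat_lit 81) (.e (nat_lit 6209) (nat_lit 333) (.e (nat_lit 57900) (nat_lit 276) (.e (nat_lit 122936) (nat_lit 23) (.e (nat_lit 516176) (nat_lit 14) (.e (nat_lit 466977) (nat_lit 22) (.e (nat_lit 196619) (nat_lit 9) .nil))))))) (.g (nat_lit 7) .nil .nil))))) (.nd (nat_lit 5) (.nd (nat_lit 6) 
(.lf (nat_lit 15259) (.g (nat_lit 3215) (.e (nat_lit 1087) (nat_lit 81) (.e (nat_lit 1661) (nat_lit 115) (.e (nat_lit 393260) (nat_lit 21) (.e (nat_lit 409649) (nat_lit 18) (.e (nat_lit 303151) (nat_lit 27) .nil))))) .nil)) 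
(.lf (nat_lit 15323) (.g (nat_lit 1456) (.e (nat_lit 1101) (nat_lit 81) (.e (nat_lit 1661) (nat_lit 115) (.e (nat_lit 393252) (nat_lit 18) (.e (nat_lit 164305) (nat_lit 226) .nil)))) .nil))) (.nd (nat_lit 6) 
(.lf (nat_lit 15291) (.g (nat_lit 2355) (.e (nat_lit 1091) (nat_lit 81) (.e (nat_lit 1237) (nat_lit 91) (.e (nat_lit 90170) (nat_lit 13) (.e (nat_lit 172106) (nat_lit 10) (.e (nat_lit 434231) (nat_lit 23) .nil))))) .nil)) 
(.lf (nat_lit 15355) (.g (nat_lit 1674) (.e (nat_lit 7936) (nat_lit 81) (.e (nat_lit 1633) (nat_lit 114) (.e (nat_lit 385068) (nat_lit 26) (.e (nat_lit 532534) (nat_lit 9) (.e (nat_lit 336211) (nat_lit 13) .nil))))) .nil)))))) (.nd (nat_lit 3) (.nd (nat_lit 4) (.nd (nat_lit 5) (.nd (nat_lit 6) 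
(.lf (nat_lit 15239) (.g (nat_lit 4436) (.e (nat_lit 1086) (nat_lit 81) (.e (nat_lit 4490) (nat_lit 263) (.e (nat_lit 1190) (nat_lit 88) (.e (nat_lit 65568) (nat_lit 2) (.e (nat_lit 90170) (nat_lit 13) (.e (nat_lit 172106) (nat_lit 10) (.e (nat_lit 434231) (nat_lit 23) (.e (nat_lit 532490) (nat_lit 0) .nil)))))))) (.g (nat_lit 8) .nil .nil))) 
(.lf (nat_lit 15303) (.g (nat_lit 828) (.e (nat_lit 1095) (nat_lit 81) (.e (nat_lit 1650) (nat_lit 115) (.e (nat_lit 393229) (nat_lit 9) (.e (nat_lit 336184) (nat_lit 11) .nil)))) .nil))) (.nd (nat_lit 6) 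
(.lf (nat_lit 15271) (.g (nat_lit 2262) (.e (nat_lit 1088) (nat_lit 81) (.e (nat_lit 1633) (nat_lit 114) (.e (nat_lit 385068) (nat_lit 26) (.e (nat_lit 532558) (nat_lit 14) (.e (nat_lit 376842) (nat_lit 11) .nil))))) .nil)) 
(.lf (nat_lit 15335) (.g (nat_lit 3089) (.e (nat_lit 1103) (nat_lit 81) (.e (nat_lit 5936) (nat_lit 322) (.e (nat_lit 57437) (nat_lit 17) (.e (nat_lit 376859) (nat_lit 21) (.e (nat_lit 57872) (nat_lit 264) (.e (nat_lit 1221) (nat_lit 90) (.e (nat_lit 81930) (nat_lit 20) .nil))))))) (.g (nat_lit 7) .nil .nil))))) (.nd (nat_lit 5) (.nd (nat_lit 6) 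
(.lf (nat_lit 15255) (.g (nat_lit 2665) (.e (nat_lit 1087) (nat_lit 81) (.e (nat_lit 1661) (nat_lit 115) (.e (nat_lit 393260) (nat_lit 21) (.e (nat_lit 409616) (nat_lit 10) .nil)))) .nil)) 
(.lf (nat_lit 15319) (.g (nat_lit 2342) (.e (nat_lit 1095) (nat_lit 81) (.e (nat_lit 7270) (nat_lit 385) (.e (nat_lit 122919) (nat_lit 15) (.e (nat_lit 360492) (nat_lit 22) .nil)))) .nil))) (.nd (nat_lit 6) 
(.lf (nat_lit 15287) (.g (nat_lit 3910) (.e (nat_lit 1089) (nat_lit 81) (.e (nat_lit 1661) (nat_lit 115) (.e (nat_lit 393229) (nat_lit 9) (.e (nat_lit 336088) (nat_lit 9) (.e (nat_lit 336019) (nat_lit 3) (.e (nat_lit 98333) (nat_lit 18) (.e (nat_lit 164151) (nat_lit 152) .nil))))))) (.g (nat_lit 6) .nil .nil))) 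
(.lf (nat_lit 15351) (.g (nat_lit 2038) (.e (nat_lit 7936) (nat_lit 81) (.e (nat_lit 1239) (nat_lit 91) (.e (nat_lit 90170) (nat_lit 13) (.e (nat_lit 172106) (nat_lit 10) (.e (nat_lit 434231) (nat_lit 23) .nil))))) .nil))))) (.nd (nat_lit 4) (.nd (nat_lit 5) (.nd (nat_lit 6) 
(.lf (nat_lit 15247) (.g (nat_lit 1522) (.e (nat_lit 1086) (nat_lit 81) (.e (nat_lit 5817) (nat_lit 320) (.e (nat_lit 1201) (nat_lit 88) (.e (nat_lit 65630) (nat_lit 14) (.e (nat_lit 401437) (nat_lit 9) .nil))))) .nil)) 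
(.lf (nat_lit 15311) (.g (nat_lit 1638) (.e (nat_lit 1095) (nat_lit 81) (.e (nat_lit 7270) (nat_lit 385) (.e (nat_lit 122917) (nat_lit 15) (.e (nat_lit 360491) (nat_lit 22) .nil)))) .nil))) (.nd (nat_lit 6) 
(.lf (nat_lit 15279) (.g (nat_lit 2318) (.e (nat_lit 1089) (nat_lit 81) (.e (nat_lit 1659) (nat_lit 115) (.e (nat_lit 393227) (nat_lit 9) (.e (nat_lit 336152) (nat_lit 9) (.e (nat_lit 336017) (nat_lit 3) (.e (nat_lit 98333) (nat_lit 18) (.e (nat_lit 164151) (nat_lit 152) .nil))))))) (.g (nat_lit 6) .nil .nil))) 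
(.lf (nat_lit 15343) (.g (nat_lit 2629) (.e (nat_lit 1105) (nat_lit 81) (.e (nat_lit 5937) (nat_lit 322) (.e (nat_lit 57437) (nat_lit 17) (.e (nat_lit 376859) (nat_lit 21) (.e (nat_lit 57872) (nat_lit 264) (.e (nat_lit 1219) (nat_lit 90) (.e (nat_lit 81933) (nat_lit 20) .nil))))))) (.g (nat_lit 0) .nil .nil))))) (.nd (nat_lit 5) (.nd (nat_lit 6) 
(.lf (nat_lit 15263) (.g (nat_lit 1428) (.e (nat_lit 1087) (nat_lit 81) (.e (nat_lit 1661) (nat_lit 115) (.e (nat_lit 393268) (nat_lit 23) (.e (nat_lit 426428) (nat_lit 17) .nil)))) .nil)) 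
(.lf (nat_lit 15327) (.g (nat_lit 2033) (.e (nat_lit 1102) (nat_lit 81) (.e (nat_lit 1661) (nat_lit 115) (.e (nat_lit 393224) (nat_lit 9) (.e (nat_lit 336088) (nat_lit 9) (.e (nat_lit 336019) (nat_lit 3) .nil))))) .nil))) (.nd (nat_lit 6) 
(.lf (nat_lit 15295) (.g (nat_lit 1750) (.e (nat_lit 1093) (nat_lit 81) (.e (nat_lit 1440) (nat_lit 108) (.e (nat_lit 336060) (nat_lit 7) (.e (nat_lit 319533) (nat_lit 16) (.e (nat_lit 286753) (nat_lit 10) (.e (nat_lit 344160) (nat_lit 37) (.e (nat_lit 647195) (nat_lit 9) (.e (nat_lit 1181) (nat_lit 87) (.e (nat_lit 57653) (nat_lit 152) .nil))))))))) (.g (nat_lit 4) .nil .nil))) 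
(.lf (nat_lit 15359) (.g (nat_lit 3137) (.e (nat_lit 7936) (nat_lit 81) (.e (nat_lit 1661) (nat_lit 115) (.e (nat_lit 393260) (nat_lit 21) (.e (nat_lit 409649) (nat_lit 18) (.e (nat_lit 303151) (nat_lit 27) .nil))))) .nil)))))))))

noncomputable def tv212 : DT := (.nd (nat_lit 0) (.nd (nat_lit 1) (.nd (nat_lit 2) (.nd (nat_lit 3) (.nd (nat_lit 4) (.nd (nat_lit 5) 
(.lf (nat_lit 15360) (.g (nat_lit 1368) (.e (nat_lit 7936) (nat_lit 81) (.e (nat_lit 1860) (nat_lit 124) (.e (nat_lit 557100) (nat_lit 13) (.e (nat_lit 172106) (nat_lit 10) (.e (nat_lit 434231) (nat_lit 23) .nil))))) .nil)) 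
(.lf (nat_lit 15392) (.g (nat_lit 1522) (.e (nat_lit 1121) (nat_lit 83) (.e (nat_lit 16473) (nat_lit 14) (.e (nat_lit 491535) (nat_lit 2) .nil))) .nil))) (.nd (nat_lit 5) 
(.lf (nat_lit 15376) (.g (nat_lit 2933) (.e (nat_lit 1112) (nat_lit 82) (.e (nat_lit 8446) (nat_lit 140) (.e (nat_lit 57399) (nat_lit 10) (.e (nat_lit 319530) (nat_lit 16) (.e (nat_lit 286761) (nat_lit 13) (.e (nat_lit 393234) (nat_lit 17) (.e (nat_lit 7065) (nat_lit 377) .nil))))))) (.g (nat_lit 7) .nil .nil))) 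
(.lf (nat_lit 15408) (.g (nat_lit 1098) (.e (nat_lit 1122) (nat_lit 83) (.e (nat_lit 16425) (nat_lit 7) (.e (nat_lit 409616) (nat_lit 10) (.e (nat_lit 632) (nat_lit 50) .nil)))) .nil)))) (.nd (nat_lit 4) (.nd (nat_lit 5) 
(.lf (nat_lit 15368) (.g (nat_lit 2101) (.e (nat_lit 7936) (nat_lit 81) (.e (nat_lit 7265) (nat_lit 384) (.e (nat_lit 57406) (nat_lit 12) (.e (nat_lit 336456) (nat_lit 34) (.e (nat_lit 483376) (nat_lit 22) .nil))))) .nil)) 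
(.lf (nat_lit 15400) (.g (nat_lit 1457) (.e (nat_lit 1122) (nat_lit 83) (.e (nat_lit 16416) (nat_lit 3) (.e (nat_lit 204861) (nat_lit 26) (.e (nat_lit 336186) (nat_lit 11) .nil)))) .nil))) (.nd (nat_lit 5) 
(.lf (nat_lit 15384) (.g (nat_lit 4382) (.e (nat_lit 1116) (nat_lit 82) (.e (nat_lit 8490) (nat_lit 180) (.e (nat_lit 2777) (nat_lit 178) (.e (nat_lit 286731) (nat_lit 1) (.e (nat_lit 57681) (nat_lit 155) (.e (nat_lit 122919) (nat_lit 15) (.e (nat_lit 360451) (nat_lit 0) (.e (nat_lit 7454) (nat_lit 396) .nil)))))))) (.g (nat_lit 8) .nil .nil))) 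
(.lf (nat_lit 15416) (.g (nat_lit 1665) (.e (nat_lit 1122) (nat_lit 83) (.e (nat_lit 16438) (nat_lit 9) (.e (nat_lit 426482) (nat_lit 27) (.e (nat_lit 336060) (nat_lit 7) (.e (nat_lit 319534) (nat_lit 16) .nil))))) .nil))))) (.nd (nat_lit 3) (.nd (nat_lit 4) (.nd (nat_lit 5) 
(.lf (nat_lit 15364) (.g (nat_lit 2575) (.e (nat_lit 7936) (nat_lit 81) (.e (nat_lit 2329) (nat_lit 151) (.e (nat_lit 778466) (nat_lit 11) (.e (nat_lit 24617) (nat_lit 7) (.e (nat_lit 319534) (nat_lit 16) .nil))))) .nil)) 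
(.lf (nat_lit 15396) (.g (nat_lit 2942) (.e (nat_lit 1122) (nat_lit 83) (.e (nat_lit 16412) (nat_lit 2) (.e (nat_lit 196666) (nat_lit 13) (.e (nat_lit 65610) (nat_lit 10) (.e (nat_lit 344117) (nat_lit 21) (.e (nat_lit 516106) (nat_lit 0) (.e (nat_lit 2478) (nat_lit 157) (.e (nat_lit 4722) (nat_lit 275) .nil)))))))) (.g (nat_lit 5) .nil .nil)))) (.nd (nat_lit 5) 
(.lf (nat_lit 15380) (.g (nat_lit 3415) (.e (nat_lit 1115) (nat_lit 82) (.e (nat_lit 8443) (nat_lit 140) (.e (nat_lit 57400) (nat_lit 10) (.e (nat_lit 319531) (nat_lit 16) (.e (nat_lit 286761) (nat_lit 13) (.e (nat_lit 393234) (nat_lit 17) (.e (nat_lit 7065) (nat_lit 377) .nil))))))) (.g (nat_lit 0) .nil .nil))) 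
(.lf (nat_lit 15412) (.g (nat_lit 2353) (.e (nat_lit 1122) (nat_lit 83) (.e (nat_lit 16425) (nat_lit 7) (.e (nat_lit 409617) (nat_lit 10) (.e (nat_lit 632) (nat_lit 50) (.e (nat_lit 573485) (nat_lit 13) .nil))))) .nil)))) (.nd (nat_lit 4) (.nd (nat_lit 5) 
(.lf (nat_lit 15372) (.g (nat_lit 1252) (.e (nat_lit 7936) (nat_lit 81) (.e (nat_lit 7266) (nat_lit 384) (.e (nat_lit 57445) (nat_lit 19) (.e (nat_lit 401152) (nat_lit 12) .nil)))) .nil)) 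
(.lf (nat_lit 15404) (.g (nat_lit 2374) (.e (nat_lit 1122) (nat_lit 83) (.e (nat_lit 16416) (nat_lit 3) (.e (nat_lit 204869) (nat_lit 29) (.e (nat_lit 368384) (nat_lit 5) .nil)))) .nil))) (.nd (nat_lit 5) 
(.lf (nat_lit 15388) (.g (nat_lit 2152) (.e (nat_lit 1121) (nat_lit 83) (.e (nat_lit 16470) (nat_lit 14) (.e (nat_lit 491540) (nat_lit 3) .nil))) .nil)) 
(.lf (nat_lit 15420) (.g (nat_lit 2157) (.e (nat_lit 1122) (nat_lit 83) (.e (nat_lit 16448) (nat_lit 10) (.e (nat_lit 434268) (nat_lit 36) (.e (nat_lit 639005) (nat_lit 13) (.e (nat_lit 1586) (nat_lit 111) (.e (nat_lit 360451) (nat_lit 0) (.e (nat_lit 5440) (nat_lit 306) .nil))))))) (.g (nat_lit 4) .nil .nil))))))) (.nd (nat_lit 2) (.nd (nat_lit 3) (.nd (nat_lit 4) (.nd (nat_lit 5) 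
(.lf (nat_lit 15362) (.g (nat_lit 3018) (.e (nat_lit 7936) (nat_lit 81) (.e (nat_lit 2315) (nat_lit 151) (.e (nat_lit 778466) (nat_lit 11) (.e (nat_lit 24617) (nat_lit 7) (.e (nat_lit 319533) (nat_lit 16) .nil))))) .nil)) 
(.lf (nat_lit 15394) (.g (nat_lit 2297) (.e (nat_lit 1122) (nat_lit 83) (.e (nat_lit 16411) (nat_lit 2) (.e (nat_lit 196672) (nat_lit 15) (.e (nat_lit 81954) (nat_lit 23) (.e (nat_lit 98334) (nat_lit 18) (.e (nat_lit 164428) (nat_lit 278) .nil)))))) (.g (nat_lit 5) .nil .nil)))) (.nd (nat_lit 5) 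
(.lf (nat_lit 15378) (.g (nat_lit 1012) (.e (nat_lit 1114) (nat_lit 82) (.e (nat_lit 8469) (nat_lit 148) (.e (nat_lit 163920) (nat_lit 14) (.e (nat_lit 450304) (nat_lit 4) .nil)))) .nil)) 
(.lf (nat_lit 15410) (.g (nat_lit 2362) (.e (nat_lit 1122) (nat_lit 83) (.e (nat_lit 16425) (nat_lit 7) (.e (nat_lit 409617) (nat_lit 10) (.e (nat_lit 632) (nat_lit 50) (.e (nat_lit 573482) (nat_lit 13) .nil))))) .nil)))) (.nd (nat_lit 4) (.nd (nat_lit 5) 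
(.lf (nat_lit 15370) (.g (nat_lit 5091) (.e (nat_lit 7936) (nat_lit 81) (.e (nat_lit 7266) (nat_lit 384) (.e (nat_lit 57445) (nat_lit 19) (.e (nat_lit 393229) (nat_lit 9) (.e (nat_lit 336067) (nat_lit 8) .nil))))) .nil)) 
(.lf (nat_lit 15402) (.g (nat_lit 3267) (.e (nat_lit 1122) (nat_lit 83) (.e (nat_lit 16416) (nat_lit 3) (.e (nat_lit 204868) (nat_lit 29) (.e (nat_lit 360466) (nat_lit 3) (.e (nat_lit 516120) (nat_lit 1) (.e (nat_lit 164428) (nat_lit 278) .nil)))))) (.g (nat_lit 0) .nil .nil)))) (.nd (nat_lit 5) 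
(.lf (nat_lit 15386) (.g (nat_lit 3694) (.e (nat_lit 1121) (nat_lit 83) (.e (nat_lit 16470) (nat_lit 14) (.e (nat_lit 491537) (nat_lit 2) (.e (nat_lit 90170) (nat_lit 13) .nil)))) .nil)) 
(.lf (nat_lit 15418) (.g (nat_lit 1765) (.e (nat_lit 1122) (nat_lit 83) (.e (nat_lit 16448) (nat_lit 10) (.e (nat_lit 434268) (nat_lit 36) (.e (nat_lit 639005) (nat_lit 13) .nil)))) .nil))))) (.nd (nat_lit 3) (.nd (nat_lit 4) (.nd (nat_lit 5) 
(.lf (nat_lit 15366) (.g (nat_lit 674) (.e (nat_lit 7936) (nat_lit 81) (.e (nat_lit 5293) (nat_lit 298) (.e (nat_lit 1656) (nat_lit 115) (.e (nat_lit 393301) (nat_lit 27) .nil)))) .nil)) 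
(.lf (nat_lit 15398) (.g (nat_lit 1540) (.e (nat_lit 1122) (nat_lit 83) (.e (nat_lit 16416) (nat_lit 3) (.e (nat_lit 204861) (nat_lit 26) (.e (nat_lit 336075) (nat_lit 9) .nil)))) .nil))) (.nd (nat_lit 5) 
(.lf (nat_lit 15382) (.g (nat_lit 2915) (.e (nat_lit 1115) (nat_lit 82) (.e (nat_lit 8446) (nat_lit 140) (.e (nat_lit 57400) (nat_lit 10) (.e (nat_lit 319530) (nat_lit 16) (.e (nat_lit 286761) (nat_lit 13) (.e (nat_lit 393234) (nat_lit 17) (.e (nat_lit 7065) (nat_lit 377) .nil))))))) (.g (nat_lit 7) .nil .nil))) 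
(.lf (nat_lit 15414) (.g (nat_lit 1727) (.e (nat_lit 1122) (nat_lit 83) (.e (nat_lit 16425) (nat_lit 7) (.e (nat_lit 409648) (nat_lit 18) (.e (nat_lit 303146) (nat_lit 14) .nil)))) .nil)))) (.nd (nat_lit 4) (.nd (nat_lit 5) 
(.lf (nat_lit 15374) (.g (nat_lit 3061) (.e (nat_lit 1112) (nat_lit 82) (.e (nat_lit 8444) (nat_lit 140) (.e (nat_lit 57399) (nat_lit 10) (.e (nat_lit 319530) (nat_lit 16) (.e (nat_lit 286761) (nat_lit 13) (.e (nat_lit 393234) (nat_lit 17) (.e (nat_lit 7065) (nat_lit 377) .nil))))))) (.g (nat_lit 0) .nil .nil))) 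
(.lf (nat_lit 15406) (.g (nat_lit 2586) (.e (nat_lit 1122) (nat_lit 83) (.e (nat_lit 16416) (nat_lit 3) (.e (nat_lit 204869) (nat_lit 29) (.e (nat_lit 360474) (nat_lit 8) (.e (nat_lit 557091) (nat_lit 12) (.e (nat_lit 163841) (nat_lit 0) (.e (nat_lit 6573) (nat_lit 351) .nil))))))) (.g (nat_lit 4) .nil .nil)))) (.nd (nat_lit 5) 
(.lf (nat_lit 15390) (.g (nat_lit 4493) (.e (nat_lit 1121) (nat_lit 83) (.e (nat_lit 16470) (nat_lit 14) (.e (nat_lit 491540) (nat_lit 3) (.e (nat_lit 98373) (nat_lit 29) (.e (nat_lit 450563) (nat_lit 0) .nil))))) .nil)) 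
(.lf (nat_lit 15422) (.g (nat_lit 2077) (.e (nat_lit 1122) (nat_lit 83) (.e (nat_lit 16448) (nat_lit 10) (.e (nat_lit 434268) (nat_lit 36) (.e (nat_lit 639005) (nat_lit 13) (.e (nat_lit 1586) (nat_lit 111) (.e (nat_lit 360451) (nat_lit 0) (.e (nat_lit 5469) (nat_lit 306) .nil))))))) (.g (nat_lit 4) .nil .nil)))))))) 
(.nd (nat_lit 1) (.nd (nat_lit 2) (.nd (nat_lit 3) (.nd (nat_lit 4) (.nd (nat_lit 5) 
(.lf (nat_lit 15361) (.g (nat_lit 1532) (.e (nat_lit 7936) (nat_lit 81) (.e (nat_lit 2031) (nat_lit 140) (.e (nat_lit 688177) (nat_lit 16) (.e (nat_lit 65583) (nat_lit 7) .nil)))) .nil)) 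
(.lf (nat_lit 15393) (.g (nat_lit 1469) (.e (nat_lit 1121) (nat_lit 83) (.e (nat_lit 16473) (nat_lit 14) (.e (nat_lit 491538) (nat_lit 3) .nil))) .nil))) (.nd (nat_lit 5) 
(.lf (nat_lit 15377) (.g (nat_lit 3411) (.e (nat_lit 1112) (nat_lit 82) (.e (nat_lit 8446) (nat_lit 140) (.e (nat_lit 57400) (nat_lit 10) (.e (nat_lit 319531) (nat_lit 16) (.e (nat_lit 286761) (nat_lit 13) (.e (nat_lit 393234) (nat_lit 17) (.e (nat_lit 7065) (nat_lit 377) .nil))))))) (.g (nat_lit 0) .nil .nil))) 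
(.lf (nat_lit 15409) (.g (nat_lit 1810) (.e (nat_lit 1122) (nat_lit 83) (.e (nat_lit 16425) (nat_lit 7) (.e (nat_lit 409617) (nat_lit 10) (.e (nat_lit 632) (nat_lit 50) .nil)))) .nil)))) (.nd (nat_lit 4) (.nd (nat_lit 5) 
(.lf (nat_lit 15369) (.g (nat_lit 1446) (.e (nat_lit 7936) (nat_lit 81) (.e (nat_lit 7266) (nat_lit 384) (.e (nat_lit 57406) (nat_lit 12) (.e (nat_lit 336367) (nat_lit 27) .nil)))) .nil)) 
(.lf (nat_lit 15401) (.g (nat_lit 3301) (.e (nat_lit 1122) (nat_lit 83) (.e (nat_lit 16416) (nat_lit 3) (.e (nat_lit 204868) (nat_lit 29) (.e (nat_lit 360466) (nat_lit 3) (.e (nat_lit 516117) (nat_lit 1) (.e (nat_lit 164428) (nat_lit 278) .nil)))))) (.g (nat_lit 0) .nil .nil)))) (.nd (nat_lit 5) 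
(.lf (nat_lit 15385) (.g (nat_lit 2429) (.e (nat_lit 1118) (nat_lit 82) (.e (nat_lit 8443) (nat_lit 140) (.e (nat_lit 57447) (nat_lit 19) (.e (nat_lit 393260) (nat_lit 21) (.e (nat_lit 409616) (nat_lit 10) .nil))))) .nil)) 
(.lf (nat_lit 15417) (.g (nat_lit 751) (.e (nat_lit 1122) (nat_lit 83) (.e (nat_lit 16448) (nat_lit 10) (.e (nat_lit 434268) (nat_lit 36) .nil))) .nil))))) (.nd (nat_lit 3) (.nd (nat_lit 4) (.nd (nat_lit 5) 
(.lf (nat_lit 15365) (.g (nat_lit 1843) (.e (nat_lit 7936) (nat_lit 81) (.e (nat_lit 4527) (nat_lit 265) (.e (nat_lit 57411) (nat_lit 12) (.e (nat_lit 336019) (nat_lit 3) (.e (nat_lit 98381) (nat_lit 31) .nil))))) .nil)) 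
(.lf (nat_lit 15397) (.g (nat_lit 2493) (.e (nat_lit 1122) (nat_lit 83) (.e (nat_lit 16416) (nat_lit 3) (.e (nat_lit 204861) (nat_lit 26) (.e (nat_lit 335988) (nat_lit 1) (.e (nat_lit 57854) (nat_lit 252) .nil))))) .nil))) (.nd (nat_lit 5) 
(.lf (nat_lit 15381) (.g (nat_lit 3041) (.e (nat_lit 1115) (nat_lit 82) (.e (nat_lit 8445) (nat_lit 140) (.e (nat_lit 57399) (nat_lit 10) (.e (nat_lit 319530) (nat_lit 16) (.e (nat_lit 286761) (nat_lit 13) (.e (nat_lit 393234) (nat_lit 17) (.e (nat_lit 7065) (nat_lit 377) .nil))))))) (.g (nat_lit 0) .nil .nil))) 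
(.lf (nat_lit 15413) (.g (nat_lit 2322) (.e (nat_lit 1122) (nat_lit 83) (.e (nat_lit 16425) (nat_lit 7) (.e (nat_lit 409617) (nat_lit 10) (.e (nat_lit 632) (nat_lit 50) (.e (nat_lit 573493) (nat_lit 15) .nil))))) .nil)))) (.nd (nat_lit 4) (.nd (nat_lit 5) 
(.lf (nat_lit 15373) (.g (nat_lit 997) (.e (nat_lit 7936) (nat_lit 81) (.e (nat_lit 7266) (nat_lit 384) (.e (nat_lit 57446) (nat_lit 19) (.e (nat_lit 401152) (nat_lit 12) .nil)))) .nil)) 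
(.lf (nat_lit 15405) (.g (nat_lit 2574) (.e (nat_lit 1122) (nat_lit 83) (.e (nat_lit 16416) (nat_lit 3) (.e (nat_lit 204869) (nat_lit 29) (.e (nat_lit 360474) (nat_lit 8) (.e (nat_lit 557091) (nat_lit 12) .nil))))) .nil))) (.nd (nat_lit 5) 
(.lf (nat_lit 15389) (.g (nat_lit 4443) (.e (nat_lit 1121) (nat_lit 83) (.e (nat_lit 16470) (nat_lit 14) (.e (nat_lit 491540) (nat_lit 3) (.e (nat_lit 98373) (nat_lit 29) (.e (nat_lit 450562) (nat_lit 0) .nil))))) .nil)) 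
(.lf (nat_lit 15421) (.g (nat_lit 2083) (.e (nat_lit 1122) (nat_lit 83) (.e (nat_lit 16448) (nat_lit 10) (.e (nat_lit 434268) (nat_lit 36) (.e (nat_lit 639005) (nat_lit 13) (.e (nat_lit 1586) (nat_lit 111) (.e (nat_lit 360451) (nat_lit 0) (.e (nat_lit 5441) (nat_lit 306) .nil))))))) (.g (nat_lit 4) .nil .nil))))))) (.nd (nat_lit 2) (.nd (nat_lit 3) (.nd (nat_lit 4) (.nd (nat_lit 5) 
(.lf (nat_lit 15363) (.g (nat_lit 1703) (.e (nat_lit 7936) (nat_lit 81) (.e (nat_lit 2329) (nat_lit 151) (.e (nat_lit 778362) (nat_lit 9) (.e (nat_lit 232) (nat_lit 21) (.e (nat_lit 336060) (nat_lit 7) .nil))))) .nil)) 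
(.lf (nat_lit 15395) (.g (nat_lit 2112) (.e (nat_lit 1122) (nat_lit 83) (.e (nat_lit 16411) (nat_lit 2) (.e (nat_lit 196672) (nat_lit 15) (.e (nat_lit 81954) (nat_lit 23) (.e (nat_lit 98334) (nat_lit 18) (.e (nat_lit 171776) (nat_lit 278) .nil)))))) (.g (nat_lit 5) .nil .nil)))) (.nd (nat_lit 5) 
(.lf (nat_lit 15379) (.g (nat_lit 3007) (.e (nat_lit 1115) (nat_lit 82) (.e (nat_lit 8443) (nat_lit 140) (.e (nat_lit 57399) (nat_lit 10) (.e (nat_lit 319530) (nat_lit 16) (.e (nat_lit 286761) (nat_lit 13) (.e (nat_lit 393234) (nat_lit 17) (.e (nat_lit 7065) (nat_lit 377) .nil))))))) (.g (nat_lit 0) .nil .nil))) 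
(.lf (nat_lit 15411) (.g (nat_lit 2260) (.e (nat_lit 1122) (nat_lit 83) (.e (nat_lit 16425) (nat_lit 7) (.e (nat_lit 409617) (nat_lit 10) (.e (nat_lit 632) (nat_lit 50) (.e (nat_lit 573484) (nat_lit 13) .nil))))) .nil)))) (.nd (nat_lit 4) (.nd (nat_lit 5) 
(.lf (nat_lit 15371) (.g (nat_lit 5000) (.e (nat_lit 7936) (nat_lit 81) (.e (nat_lit 7266) (nat_lit 384) (.e (nat_lit 57445) (nat_lit 19) (.e (nat_lit 393229) (nat_lit 9) (.e (nat_lit 336069) (nat_lit 8) .nil))))) .nil)) 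
(.lf (nat_lit 15403) (.g (nat_lit 870) (.e (nat_lit 1122) (nat_lit 83) (.e (nat_lit 16416) (nat_lit 3) (.e (nat_lit 204869) (nat_lit 29) .nil))) .nil))) (.nd (nat_lit 5) 
(.lf (nat_lit 15387) (.g (nat_lit 5525) (.e (nat_lit 1121) (nat_lit 83) (.e (nat_lit 16470) (nat_lit 14) (.e (nat_lit 491537) (nat_lit 2) (.e (nat_lit 90170) (nat_lit 13) (.e (nat_lit 172113) (nat_lit 10) .nil))))) .nil)) 
(.lf (nat_lit 15419) (.g (nat_lit 2067) (.e (nat_lit 1122) (nat_lit 83) (.e (nat_lit 16448) (nat_lit 10) (.e (nat_lit 434268) (nat_lit 36) (.e (nat_lit 639005) (nat_lit 13) (.e (nat_lit 1586) (nat_lit 111) (.e (nat_lit 360450) (nat_lit 0) (.e (nat_lit 5455) (nat_lit 306) .nil))))))) (.g (nat_lit 4) .nil .nil)))))) (.nd (nat_lit 3) (.nd (nat_lit 4) (.nd (nat_lit 5) 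
(.lf (nat_lit 15367) (.g (nat_lit 1118) (.e (nat_lit 7936) (nat_lit 81) (.e (nat_lit 7265) (nat_lit 384) (.e (nat_lit 57406) (nat_lit 12) (.e (nat_lit 336367) (nat_lit 27) (.e (nat_lit 426546) (nat_lit 30) .nil))))) .nil)) 
(.lf (nat_lit 15399) (.g (nat_lit 1567) (.e (nat_lit 1122) (nat_lit 83) (.e (nat_lit 16416) (nat_lit 3) (.e (nat_lit 204861) (nat_lit 26) (.e (nat_lit 336076) (nat_lit 9) .nil)))) .nil))) (.nd (nat_lit 5) 
(.lf (nat_lit 15383) (.g (nat_lit 3193) (.e (nat_lit 1115) (nat_lit 82) (.e (nat_lit 8446) (nat_lit 140) (.e (nat_lit 57400) (nat_lit 10) (.e (nat_lit 319531) (nat_lit 16) (.e (nat_lit 286761) (nat_lit 13) (.e (nat_lit 393234) (nat_lit 17) (.e (nat_lit 7065) (nat_lit 377) .nil))))))) (.g (nat_lit 7) .nil .nil))) 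
(.lf (nat_lit 15415) (.g (nat_lit 1247) (.e (nat_lit 1122) (nat_lit 83) (.e (nat_lit 16436) (nat_lit 9) (.e (nat_lit 426555) (nat_lit 32) (.e (nat_lit 376860) (nat_lit 21) .nil)))) .nil)))) (.nd (nat_lit 4) (.nd (nat_lit 5) 
(.lf (nat_lit 15375) (.g (nat_lit 3140) (.e (nat_lit 1112) (nat_lit 82) (.e (nat_lit 8445) (nat_lit 140) (.e (nat_lit 57399) (nat_lit 10) (.e (nat_lit 319530) (nat_lit 16) (.e (nat_lit 286761) (nat_lit 13) (.e (nat_lit 393234) (nat_lit 17) (.e (nat_lit 7065) (nat_lit 377) .nil))))))) (.g (nat_lit 0) .nil .nil))) 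
(.lf (nat_lit 15407) (.g (nat_lit 2903) (.e (nat_lit 1122) (nat_lit 83) (.e (nat_lit 16416) (nat_lit 3) (.e (nat_lit 204869) (nat_lit 29) (.e (nat_lit 360474) (nat_lit 8) (.e (nat_lit 557091) (nat_lit 12) (.e (nat_lit 163842) (nat_lit 0) (.e (nat_lit 6570) (nat_lit 351) .nil))))))) (.g (nat_lit 4) .nil .nil)))) (.nd (nat_lit 5) 
(.lf (nat_lit 15391) (.g (nat_lit 2976) (.e (nat_lit 1121) (nat_lit 83) (.e (nat_lit 16473) (nat_lit 14) (.e (nat_lit 491526) (nat_lit 0) (.e (nat_lit 1788) (nat_lit 119) .nil)))) .nil)) 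
(.lf (nat_lit 15423) (.g (nat_lit 1923) (.e (nat_lit 1122) (nat_lit 83) (.e (nat_lit 16448) (nat_lit 10) (.e (nat_lit 434268) (nat_lit 36) (.e (nat_lit 639005) (nat_lit 13) (.e (nat_lit 1595) (nat_lit 111) .nil))))) .nil))))))))

noncomputable def tv213 : DT := (.nd (nat_lit 0) (.nd (nat_lit 1) (.nd (nat_lit 2) (.nd (nat_lit 3) (.nd (nat_lit 4) (.nd (nat_lit 5) 
(.lf (nat_lit 15424) (.g (nat_lit 2206) (.e (nat_lit 1122) (nat_lit 83) (.e (nat_lit 16448) (nat_lit 10) (.e (nat_lit 434268) (nat_lit 36) (.e (nat_lit 639005) (nat_lit 13) (.e (nat_lit 1598) (nat_lit 111) (.e (nat_lit 360452) (nat_lit 0) (.e (nat_lit 5479) (nat_lit 306) .nil))))))) (.g (nat_lit 4) .nil .nil))) 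
(.lf (nat_lit 15456) (.g (nat_lit 4238) (.e (nat_lit 1122) (nat_lit 83) (.e (nat_lit 16448) (nat_lit 10) (.e (nat_lit 434268) (nat_lit 36) (.e (nat_lit 639020) (nat_lit 16) (.e (nat_lit 65617) (nat_lit 10) (.e (nat_lit 344091) (nat_lit 18) (.e (nat_lit 5441) (nat_lit 306) .nil))))))) (.g (nat_lit 7) .nil .nil)))) (.nd (nat_lit 5) 
(.lf (nat_lit 15440) (.g (nat_lit 2244) (.e (nat_lit 1122) (nat_lit 83) (.e (nat_lit 16448) (nat_lit 10) (.e (nat_lit 434268) (nat_lit 36) (.e (nat_lit 639007) (nat_lit 13) (.e (nat_lit 1598) (nat_lit 111) .nil))))) .nil)) 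
(.lf (nat_lit 15472) (.g (nat_lit 2083) (.e (nat_lit 1122) (nat_lit 83) (.e (nat_lit 16448) (nat_lit 10) (.e (nat_lit 434268) (nat_lit 36) (.e (nat_lit 639020) (nat_lit 16) (.e (nat_lit 65619) (nat_lit 10) (.e (nat_lit 344090) (nat_lit 18) (.e (nat_lit 5465) (nat_lit 306) .nil))))))) (.g (nat_lit 4) .nil .nil))))) (.nd (nat_lit 4) (.nd (nat_lit 5) 
(.lf (nat_lit 15432) (.g (nat_lit 2653) (.e (nat_lit 1122) (nat_lit 83) (.e (nat_lit 16448) (nat_lit 10) (.e (nat_lit 434268) (nat_lit 36) (.e (nat_lit 639007) (nat_lit 13) (.e (nat_lit 1586) (nat_lit 111) (.e (nat_lit 360450) (nat_lit 0) (.e (nat_lit 5455) (nat_lit 306) .nil))))))) (.g (nat_lit 5) .nil .nil))) 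
(.lf (nat_lit 15464) (.g (nat_lit 2839) (.e (nat_lit 1122) (nat_lit 83) (.e (nat_lit 16448) (nat_lit 10) (.e (nat_lit 434268) (nat_lit 36) (.e (nat_lit 639020) (nat_lit 16) (.e (nat_lit 65617) (nat_lit 10) (.e (nat_lit 344091) (nat_lit 18) (.e (nat_lit 5472) (nat_lit 306) .nil))))))) (.g (nat_lit 5) .nil .nil)))) (.nd (nat_lit 5) 
(.lf (nat_lit 15448) (.g (nat_lit 1921) (.e (nat_lit 1122) (nat_lit 83) (.e (nat_lit 16448) (nat_lit 10) (.e (nat_lit 434268) (nat_lit 36) (.e (nat_lit 639020) (nat_lit 16) (.e (nat_lit 65610) (nat_lit 10) .nil))))) .nil)) 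
(.lf (nat_lit 15480) (.g (nat_lit 2042) (.e (nat_lit 1122) (nat_lit 83) (.e (nat_lit 16448) (nat_lit 10) (.e (nat_lit 434268) (nat_lit 36) (.e (nat_lit 639020) (nat_lit 16) (.e (nat_lit 65619) (nat_lit 10) (.e (nat_lit 344090) (nat_lit 18) (.e (nat_lit 5487) (nat_lit 306) .nil))))))) (.g (nat_lit 4) .nil .nil)))))) (.nd (nat_lit 3) (.nd (nat_lit 4) (.nd (nat_lit 5) 
(.lf (nat_lit 15428) (.g (nat_lit 1869) (.e (nat_lit 1122) (nat_lit 83) (.e (nat_lit 16448) (nat_lit 10) (.e (nat_lit 434268) (nat_lit 36) (.e (nat_lit 639007) (nat_lit 13) .nil)))) .nil)) 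
(.lf (nat_lit 15460) (.g (nat_lit 2924) (.e (nat_lit 1122) (nat_lit 83) (.e (nat_lit 16448) (nat_lit 10) (.e (nat_lit 434268) (nat_lit 36) (.e (nat_lit 639020) (nat_lit 16) (.e (nat_lit 65617) (nat_lit 10) (.e (nat_lit 344091) (nat_lit 18) (.e (nat_lit 5465) (nat_lit 306) .nil))))))) (.g (nat_lit 5) .nil .nil)))) (.nd (nat_lit 5) 
(.lf (nat_lit 15444) (.g (nat_lit 2621) (.e (nat_lit 1122) (nat_lit 83) (.e (nat_lit 16448) (nat_lit 10) (.e (nat_lit 434268) (nat_lit 36) (.e (nat_lit 639007) (nat_lit 13) (.e (nat_lit 1598) (nat_lit 111) (.e (nat_lit 360452) (nat_lit 0) (.e (nat_lit 5482) (nat_lit 306) .nil))))))) (.g (nat_lit 5) .nil .nil))) 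
(.lf (nat_lit 15476) (.g (nat_lit 2017) (.e (nat_lit 1122) (nat_lit 83) (.e (nat_lit 16448) (nat_lit 10) (.e (nat_lit 434268) (nat_lit 36) (.e (nat_lit 639020) (nat_lit 16) (.e (nat_lit 65619) (nat_lit 10) (.e (nat_lit 344090) (nat_lit 18) (.e (nat_lit 5469) (nat_lit 306) .nil))))))) (.g (nat_lit 4) .nil .nil))))) (.nd (nat_lit 4) (.nd (nat_lit 5) 
(.lf (nat_lit 15436) (.g (nat_lit 2166) (.e (nat_lit 1122) (nat_lit 83) (.e (nat_lit 16448) (nat_lit 10) (.e (nat_lit 434268) (nat_lit 36) (.e (nat_lit 639007) (nat_lit 13) (.e (nat_lit 1589) (nat_lit 111) .nil))))) .nil)) 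
(.lf (nat_lit 15468) (.g (nat_lit 2004) (.e (nat_lit 1122) (nat_lit 83) (.e (nat_lit 16448) (nat_lit 10) (.e (nat_lit 434268) (nat_lit 36) (.e (nat_lit 639020) (nat_lit 16) (.e (nat_lit 65619) (nat_lit 10) .nil))))) .nil))) (.nd (nat_lit 5) 
(.lf (nat_lit 15452) (.g (nat_lit 1972) (.e (nat_lit 1122) (nat_lit 83) (.e (nat_lit 16448) (nat_lit 10) (.e (nat_lit 434268) (nat_lit 36) (.e (nat_lit 639020) (nat_lit 16) (.e (nat_lit 65611) (nat_lit 10) (.e (nat_lit 344091) (nat_lit 18) (.e (nat_lit 5441) (nat_lit 306) .nil))))))) (.g (nat_lit 4) .nil .nil))) 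
(.lf (nat_lit 15484) (.g (nat_lit 1874) (.e (nat_lit 1122) (nat_lit 83) (.e (nat_lit 16448) (nat_lit 10) (.e (nat_lit 434268) (nat_lit 36) (.e (nat_lit 639021) (nat_lit 16) .nil)))) .nil)))))) (.nd (nat_lit 2) (.nd (nat_lit 3) (.nd (nat_lit 4) (.nd (nat_lit 5) 
(.lf (nat_lit 15426) (.g (nat_lit 2467) (.e (nat_lit 1122) (nat_lit 83) (.e (nat_lit 16448) (nat_lit 10) (.e (nat_lit 434268) (nat_lit 36) (.e (nat_lit 639005) (nat_lit 13) (.e (nat_lit 1598) (nat_lit 111) (.e (nat_lit 360452) (nat_lit 0) (.e (nat_lit 5483) (nat_lit 306) .nil))))))) (.g (nat_lit 5) .nil .nil))) 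
(.lf (nat_lit 15458) (.g (nat_lit 3815) (.e (nat_lit 1122) (nat_lit 83) (.e (nat_lit 16448) (nat_lit 10) (.e (nat_lit 434268) (nat_lit 36) (.e (nat_lit 639020) (nat_lit 16) (.e (nat_lit 65617) (nat_lit 10) (.e (nat_lit 344091) (nat_lit 18) (.e (nat_lit 5455) (nat_lit 306) .nil))))))) (.g (nat_lit 6) .nil .nil)))) (.nd (nat_lit 5) 
(.lf (nat_lit 15442) (.g (nat_lit 2665) (.e (nat_lit 1122) (nat_lit 83) (.e (nat_lit 16448) (nat_lit 10) (.e (nat_lit 434268) (nat_lit 36) (.e (nat_lit 639007) (nat_lit 13) (.e (nat_lit 1598) (nat_lit 111) (.e (nat_lit 360452) (nat_lit 0) (.e (nat_lit 5479) (nat_lit 306) .nil))))))) (.g (nat_lit 5) .nil .nil))) 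
(.lf (nat_lit 15474) (.g (nat_lit 2152) (.e (nat_lit 1122) (nat_lit 83) (.e (nat_lit 16448) (nat_lit 10) (.e (nat_lit 434268) (nat_lit 36) (.e (nat_lit 639020) (nat_lit 16) (.e (nat_lit 65619) (nat_lit 10) (.e (nat_lit 344090) (nat_lit 18) (.e (nat_lit 5467) (nat_lit 306) .nil))))))) (.g (nat_lit 4) .nil .nil))))) (.nd (nat_lit 4) (.nd (nat_lit 5) 
(.lf (nat_lit 15434) (.g (nat_lit 2428) (.e (nat_lit 1122) (nat_lit 83) (.e (nat_lit 16448) (nat_lit 10) (.e (nat_lit 434268) (nat_lit 36) (.e (nat_lit 639007) (nat_lit 13) (.e (nat_lit 1586) (nat_lit 111) (.e (nat_lit 360451) (nat_lit 0) (.e (nat_lit 5470) (nat_lit 306) .nil))))))) (.g (nat_lit 4) .nil .nil))) 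
(.lf (nat_lit 15466) (.g (nat_lit 2889) (.e (nat_lit 1122) (nat_lit 83) (.e (nat_lit 16448) (nat_lit 10) (.e (nat_lit 434268) (nat_lit 36) (.e (nat_lit 639020) (nat_lit 16) (.e (nat_lit 65617) (nat_lit 10) (.e (nat_lit 344091) (nat_lit 18) (.e (nat_lit 5476) (nat_lit 306) .nil))))))) (.g (nat_lit 5) .nil .nil)))) (.nd (nat_lit 5) 
(.lf (nat_lit 15450) (.g (nat_lit 2658) (.e (nat_lit 1122) (nat_lit 83) (.e (nat_lit 16448) (nat_lit 10) (.e (nat_lit 434268) (nat_lit 36) (.e (nat_lit 639020) (nat_lit 16) (.e (nat_lit 65610) (nat_lit 10) (.e (nat_lit 344090) (nat_lit 18) (.e (nat_lit 5475) (nat_lit 306) .nil))))))) (.g (nat_lit 5) .nil .nil))) 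
(.lf (nat_lit 15482) (.g (nat_lit 2813) (.e (nat_lit 1122) (nat_lit 83) (.e (nat_lit 16448) (nat_lit 10) (.e (nat_lit 434268) (nat_lit 36) (.e (nat_lit 639020) (nat_lit 16) (.e (nat_lit 65619) (nat_lit 10) (.e (nat_lit 344097) (nat_lit 18) (.e (nat_lit 5479) (nat_lit 306) .nil))))))) (.g (nat_lit 5) .nil .nil)))))) (.nd (nat_lit 3) (.nd (nat_lit 4) (.nd (nat_lit 5) 
(.lf (nat_lit 15430) (.g (nat_lit 2869) (.e (nat_lit 1122) (nat_lit 83) (.e (nat_lit 16448) (nat_lit 10) (.e (nat_lit 434268) (nat_lit 36) (.e (nat_lit 639007) (nat_lit 13) (.e (nat_lit 1586) (nat_lit 111) (.e (nat_lit 360450) (nat_lit 0) (.e (nat_lit 5429) (nat_lit 306) .nil))))))) (.g (nat_lit 5) .nil .nil))) 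
(.lf (nat_lit 15462) (.g (nat_lit 2886) (.e (nat_lit 1122) (nat_lit 83) (.e (nat_lit 16448) (nat_lit 10) (.e (nat_lit 434268) (nat_lit 36) (.e (nat_lit 639020) (nat_lit 16) (.e (nat_lit 65617) (nat_lit 10) (.e (nat_lit 344091) (nat_lit 18) (.e (nat_lit 5467) (nat_lit 306) .nil))))))) (.g (nat_lit 5) .nil .nil)))) (.nd (nat_lit 5) 
(.lf (nat_lit 15446) (.g (nat_lit 2866) (.e (nat_lit 1122) (nat_lit 83) (.e (nat_lit 16448) (nat_lit 10) (.e (nat_lit 434268) (nat_lit 36) (.e (nat_lit 639007) (nat_lit 13) (.e (nat_lit 1598) (nat_lit 111) (.e (nat_lit 360455) (nat_lit 0) (.e (nat_lit 5477) (nat_lit 306) .nil))))))) (.g (nat_lit 5) .nil .nil))) 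
(.lf (nat_lit 15478) (.g (nat_lit 2132) (.e (nat_lit 1122) (nat_lit 83) (.e (nat_lit 16448) (nat_lit 10) (.e (nat_lit 434268) (nat_lit 36) (.e (nat_lit 639020) (nat_lit 16) (.e (nat_lit 65619) (nat_lit 10) (.e (nat_lit 344090) (nat_lit 18) (.e (nat_lit 5476) (nat_lit 306) .nil))))))) (.g (nat_lit 4) .nil .nil))))) (.nd (nat_lit 4) (.nd (nat_lit 5) 
(.lf (nat_lit 15438) (.g (nat_lit 2350) (.e (nat_lit 1122) (nat_lit 83) (.e (nat_lit 16448) (nat_lit 10) (.e (nat_lit 434268) (nat_lit 36) (.e (nat_lit 639007) (nat_lit 13) (.e (nat_lit 1595) (nat_lit 111) (.e (nat_lit 360453) (nat_lit 0) (.e (nat_lit 5482) (nat_lit 306) .nil))))))) (.g (nat_lit 4) .nil .nil))) 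
(.lf (nat_lit 15470) (.g (nat_lit 2121) (.e (nat_lit 1122) (nat_lit 83) (.e (nat_lit 16448) (nat_lit 10) (.e (nat_lit 434268) (nat_lit 36) (.e (nat_lit 639020) (nat_lit 16) (.e (nat_lit 65619) (nat_lit 10) (.e (nat_lit 344090) (nat_lit 18) (.e (nat_lit 5442) (nat_lit 306) .nil))))))) (.g (nat_lit 4) .nil .nil)))) (.nd (nat_lit 5) 
(.lf (nat_lit 15454) (.g (nat_lit 3840) (.e (nat_lit 1122) (nat_lit 83) (.e (nat_lit 16448) (nat_lit 10) (.e (nat_lit 434268) (nat_lit 36) (.e (nat_lit 639020) (nat_lit 16) (.e (nat_lit 65617) (nat_lit 10) (.e (nat_lit 344091) (nat_lit 18) (.e (nat_lit 5429) (nat_lit 306) .nil))))))) (.g (nat_lit 6) .nil .nil))) 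
(.lf (nat_lit 15486) (.g (nat_lit 2158) (.e (nat_lit 1122) (nat_lit 83) (.e (nat_lit 16448) (nat_lit 10) (.e (nat_lit 434268) (nat_lit 36) (.e (nat_lit 639021) (nat_lit 16) (.e (nat_lit 65617) (nat_lit 10) (.e (nat_lit 344091) (nat_lit 18) (.e (nat_lit 5442) (nat_lit 306) .nil))))))) (.g (nat_lit 4) .nil .nil)))))))) 
(.nd (nat_lit 1) (.nd (nat_lit 2) (.nd (nat_lit 3) (.nd (nat_lit 4) (.nd (nat_lit 5) 
(.lf (nat_lit 15425) (.g (nat_lit 2162) (.e (nat_lit 1122) (nat_lit 83) (.e (nat_lit 16448) (nat_lit 10) (.e (nat_lit 434268) (nat_lit 36) (.e (nat_lit 639005) (nat_lit 13) (.e (nat_lit 1598) (nat_lit 111) (.e (nat_lit 360452) (nat_lit 0) (.e (nat_lit 5482) (nat_lit 306) .nil))))))) (.g (nat_lit 4) .nil .nil))) 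
(.lf (nat_lit 15457) (.g (nat_lit 3806) (.e (nat_lit 1122) (nat_lit 83) (.e (nat_lit 16448) (nat_lit 10) (.e (nat_lit 434268) (nat_lit 36) (.e (nat_lit 639020) (nat_lit 16) (.e (nat_lit 65617) (nat_lit 10) (.e (nat_lit 344091) (nat_lit 18) (.e (nat_lit 5442) (nat_lit 306) .nil))))))) (.g (nat_lit 6) .nil .nil)))) (.nd (nat_lit 5) 
(.lf (nat_lit 15441) (.g (nat_lit 2638) (.e (nat_lit 1122) (nat_lit 83) (.e (nat_lit 16448) (nat_lit 10) (.e (nat_lit 434268) (nat_lit 36) (.e (nat_lit 639007) (nat_lit 13) (.e (nat_lit 1598) (nat_lit 111) (.e (nat_lit 360449) (nat_lit 0) (.e (nat_lit 5455) (nat_lit 306) .nil))))))) (.g (nat_lit 5) .nil .nil))) 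
(.lf (nat_lit 15473) (.g (nat_lit 2144) (.e (nat_lit 1122) (nat_lit 83) (.e (nat_lit 16448) (nat_lit 10) (.e (nat_lit 434268) (nat_lit 36) (.e (nat_lit 639020) (nat_lit 16) (.e (nat_lit 65619) (nat_lit 10) (.e (nat_lit 344090) (nat_lit 18) (.e (nat_lit 5466) (nat_lit 306) .nil))))))) (.g (nat_lit 4) .nil .nil))))) (.nd (nat_lit 4) (.nd (nat_lit 5) 
(.lf (nat_lit 15433) (.g (nat_lit 2391) (.e (nat_lit 1122) (nat_lit 83) (.e (nat_lit 16448) (nat_lit 10) (.e (nat_lit 434268) (nat_lit 36) (.e (nat_lit 639007) (nat_lit 13) (.e (nat_lit 1586) (nat_lit 111) (.e (nat_lit 360451) (nat_lit 0) (.e (nat_lit 5442) (nat_lit 306) .nil))))))) (.g (nat_lit 4) .nil .nil))) 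
(.lf (nat_lit 15465) (.g (nat_lit 3027) (.e (nat_lit 1122) (nat_lit 83) (.e (nat_lit 16448) (nat_lit 10) (.e (nat_lit 434268) (nat_lit 36) (.e (nat_lit 639020) (nat_lit 16) (.e (nat_lit 65617) (nat_lit 10) (.e (nat_lit 344091) (nat_lit 18) (.e (nat_lit 5474) (nat_lit 306) .nil))))))) (.g (nat_lit 5) .nil .nil)))) (.nd (nat_lit 5) 
(.lf (nat_lit 15449) (.g (nat_lit 2106) (.e (nat_lit 1122) (nat_lit 83) (.e (nat_lit 16448) (nat_lit 10) (.e (nat_lit 434268) (nat_lit 36) (.e (nat_lit 639020) (nat_lit 16) (.e (nat_lit 65610) (nat_lit 10) (.e (nat_lit 344090) (nat_lit 18) (.e (nat_lit 5429) (nat_lit 306) .nil))))))) (.g (nat_lit 4) .nil .nil))) 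
(.lf (nat_lit 15481) (.g (nat_lit 2786) (.e (nat_lit 1122) (nat_lit 83) (.e (nat_lit 16448) (nat_lit 10) (.e (nat_lit 434268) (nat_lit 36) (.e (nat_lit 639020) (nat_lit 16) (.e (nat_lit 65619) (nat_lit 10) (.e (nat_lit 344097) (nat_lit 18) (.e (nat_lit 5473) (nat_lit 306) .nil))))))) (.g (nat_lit 5) .nil .nil)))))) (.nd (nat_lit 3) (.nd (nat_lit 4) (.nd (nat_lit 5) 
(.lf (nat_lit 15429) (.g (nat_lit 2199) (.e (nat_lit 1122) (nat_lit 83) (.e (nat_lit 16448) (nat_lit 10) (.e (nat_lit 434268) (nat_lit 36) (.e (nat_lit 639007) (nat_lit 13) (.e (nat_lit 1586) (nat_lit 111) .nil))))) .nil)) 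
(.lf (nat_lit 15461) (.g (nat_lit 2926) (.e (nat_lit 1122) (nat_lit 83) (.e (nat_lit 16448) (nat_lit 10) (.e (nat_lit 434268) (nat_lit 36) (.e (nat_lit 639020) (nat_lit 16) (.e (nat_lit 65617) (nat_lit 10) (.e (nat_lit 344091) (nat_lit 18) (.e (nat_lit 5466) (nat_lit 306) .nil))))))) (.g (nat_lit 5) .nil .nil)))) (.nd (nat_lit 5) 
(.lf (nat_lit 15445) (.g (nat_lit 2816) (.e (nat_lit 1122) (nat_lit 83) (.e (nat_lit 16448) (nat_lit 10) (.e (nat_lit 434268) (nat_lit 36) (.e (nat_lit 639007) (nat_lit 13) (.e (nat_lit 1598) (nat_lit 111) (.e (nat_lit 360455) (nat_lit 0) (.e (nat_lit 5461) (nat_lit 306) .nil))))))) (.g (nat_lit 5) .nil .nil))) 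
(.lf (nat_lit 15477) (.g (nat_lit 2125) (.e (nat_lit 1122) (nat_lit 83) (.e (nat_lit 16448) (nat_lit 10) (.e (nat_lit 434268) (nat_lit 36) (.e (nat_lit 639020) (nat_lit 16) (.e (nat_lit 65619) (nat_lit 10) (.e (nat_lit 344090) (nat_lit 18) (.e (nat_lit 5474) (nat_lit 306) .nil))))))) (.g (nat_lit 4) .nil .nil))))) (.nd (nat_lit 4) (.nd (nat_lit 5) 
(.lf (nat_lit 15437) (.g (nat_lit 2229) (.e (nat_lit 1122) (nat_lit 83) (.e (nat_lit 16448) (nat_lit 10) (.e (nat_lit 434268) (nat_lit 36) (.e (nat_lit 639007) (nat_lit 13) (.e (nat_lit 1595) (nat_lit 111) .nil))))) .nil)) 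
(.lf (nat_lit 15469) (.g (nat_lit 2134) (.e (nat_lit 1122) (nat_lit 83) (.e (nat_lit 16448) (nat_lit 10) (.e (nat_lit 434268) (nat_lit 36) (.e (nat_lit 639020) (nat_lit 16) (.e (nat_lit 65619) (nat_lit 10) (.e (nat_lit 344090) (nat_lit 18) (.e (nat_lit 5440) (nat_lit 306) .nil))))))) (.g (nat_lit 4) .nil .nil)))) (.nd (nat_lit 5) 
(.lf (nat_lit 15453) (.g (nat_lit 2063) (.e (nat_lit 1122) (nat_lit 83) (.e (nat_lit 16448) (nat_lit 10) (.e (nat_lit 434268) (nat_lit 36) (.e (nat_lit 639020) (nat_lit 16) (.e (nat_lit 65617) (nat_lit 10) .nil))))) .nil)) 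
(.lf (nat_lit 15485) (.g (nat_lit 2192) (.e (nat_lit 1122) (nat_lit 83) (.e (nat_lit 16448) (nat_lit 10) (.e (nat_lit 434268) (nat_lit 36) (.e (nat_lit 639021) (nat_lit 16) (.e (nat_lit 65617) (nat_lit 10) (.e (nat_lit 344091) (nat_lit 18) (.e (nat_lit 5429) (nat_lit 306) .nil))))))) (.g (nat_lit 4) .nil .nil))))))) (.nd (nat_lit 2) (.nd (nat_lit 3) (.nd (nat_lit 4) (.nd (nat_lit 5) 
(.lf (nat_lit 15427) (.g (nat_lit 2385) (.e (nat_lit 1122) (nat_lit 83) (.e (nat_lit 16448) (nat_lit 10) (.e (nat_lit 434268) (nat_lit 36) (.e (nat_lit 639005) (nat_lit 13) (.e (nat_lit 1598) (nat_lit 111) (.e (nat_lit 360455) (nat_lit 0) (.e (nat_lit 5477) (nat_lit 306) .nil))))))) (.g (nat_lit 5) .nil .nil))) 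
(.lf (nat_lit 15459) (.g (nat_lit 2830) (.e (nat_lit 1122) (nat_lit 83) (.e (nat_lit 16448) (nat_lit 10) (.e (nat_lit 434268) (nat_lit 36) (.e (nat_lit 639020) (nat_lit 16) (.e (nat_lit 65617) (nat_lit 10) (.e (nat_lit 344091) (nat_lit 18) (.e (nat_lit 5464) (nat_lit 306) .nil))))))) (.g (nat_lit 5) .nil .nil)))) (.nd (nat_lit 5) 
(.lf (nat_lit 15443) (.g (nat_lit 2432) (.e (nat_lit 1122) (nat_lit 83) (.e (nat_lit 16448) (nat_lit 10) (.e (nat_lit 434268) (nat_lit 36) (.e (nat_lit 639007) (nat_lit 13) (.e (nat_lit 1598) (nat_lit 111) (.e (nat_lit 360452) (nat_lit 0) (.e (nat_lit 5480) (nat_lit 306) .nil))))))) (.g (nat_lit 4) .nil .nil))) 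
(.lf (nat_lit 15475) (.g (nat_lit 2132) (.e (nat_lit 1122) (nat_lit 83) (.e (nat_lit 16448) (nat_lit 10) (.e (nat_lit 434268) (nat_lit 36) (.e (nat_lit 639020) (nat_lit 16) (.e (nat_lit 65619) (nat_lit 10) (.e (nat_lit 344090) (nat_lit 18) (.e (nat_lit 5468) (nat_lit 306) .nil))))))) (.g (nat_lit 4) .nil .nil))))) (.nd (nat_lit 4) (.nd (nat_lit 5) 
(.lf (nat_lit 15435) (.g (nat_lit 2329) (.e (nat_lit 1122) (nat_lit 83) (.e (nat_lit 16448) (nat_lit 10) (.e (nat_lit 434268) (nat_lit 36) (.e (nat_lit 639007) (nat_lit 13) (.e (nat_lit 1586) (nat_lit 111) (.e (nat_lit 360451) (nat_lit 0) (.e (nat_lit 5478) (nat_lit 306) .nil))))))) (.g (nat_lit 4) .nil .nil))) 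
(.lf (nat_lit 15467) (.g (nat_lit 2833) (.e (nat_lit 1122) (nat_lit 83) (.e (nat_lit 16448) (nat_lit 10) (.e (nat_lit 434268) (nat_lit 36) (.e (nat_lit 639020) (nat_lit 16) (.e (nat_lit 65617) (nat_lit 10) (.e (nat_lit 344091) (nat_lit 18) (.e (nat_lit 5487) (nat_lit 306) .nil))))))) (.g (nat_lit 5) .nil .nil)))) (.nd (nat_lit 5) 
(.lf (nat_lit 15451) (.g (nat_lit 1790) (.e (nat_lit 1122) (nat_lit 83) (.e (nat_lit 16448) (nat_lit 10) (.e (nat_lit 434268) (nat_lit 36) (.e (nat_lit 639020) (nat_lit 16) (.e (nat_lit 65611) (nat_lit 10) .nil))))) .nil)) 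
(.lf (nat_lit 15483) (.g (nat_lit 2874) (.e (nat_lit 1122) (nat_lit 83) (.e (nat_lit 16448) (nat_lit 10) (.e (nat_lit 434268) (nat_lit 36) (.e (nat_lit 639020) (nat_lit 16) (.e (nat_lit 65619) (nat_lit 10) (.e (nat_lit 344097) (nat_lit 18) (.e (nat_lit 5482) (nat_lit 306) .nil))))))) (.g (nat_lit 5) .nil .nil)))))) (.nd (nat_lit 3) (.nd (nat_lit 4) (.nd (nat_lit 5) 
(.lf (nat_lit 15431) (.g (nat_lit 3824) (.e (nat_lit 1122) (nat_lit 83) (.e (nat_lit 16448) (nat_lit 10) (.e (nat_lit 434268) (nat_lit 36) (.e (nat_lit 639007) (nat_lit 13) (.e (nat_lit 1586) (nat_lit 111) (.e (nat_lit 360450) (nat_lit 0) (.e (nat_lit 5441) (nat_lit 306) .nil))))))) (.g (nat_lit 6) .nil .nil))) 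
(.lf (nat_lit 15463) (.g (nat_lit 2124) (.e (nat_lit 1122) (nat_lit 83) (.e (nat_lit 16448) (nat_lit 10) (.e (nat_lit 434268) (nat_lit 36) (.e (nat_lit 639020) (nat_lit 16) (.e (nat_lit 65617) (nat_lit 10) (.e (nat_lit 344091) (nat_lit 18) (.e (nat_lit 5468) (nat_lit 306) .nil))))))) (.g (nat_lit 4) .nil .nil)))) (.nd (nat_lit 5) 
(.lf (nat_lit 15447) (.g (nat_lit 1885) (.e (nat_lit 1122) (nat_lit 83) (.e (nat_lit 16448) (nat_lit 10) (.e (nat_lit 434268) (nat_lit 36) (.e (nat_lit 639008) (nat_lit 13) .nil)))) .nil)) 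
(.lf (nat_lit 15479) (.g (nat_lit 2036) (.e (nat_lit 1122) (nat_lit 83) (.e (nat_lit 16448) (nat_lit 10) (.e (nat_lit 434268) (nat_lit 36) (.e (nat_lit 639020) (nat_lit 16) (.e (nat_lit 65619) (nat_lit 10) (.e (nat_lit 344090) (nat_lit 18) (.e (nat_lit 5485) (nat_lit 306) .nil))))))) (.g (nat_lit 4) .nil .nil))))) (.nd (nat_lit 4) (.nd (nat_lit 5) 
(.lf (nat_lit 15439) (.g (nat_lit 3528) (.e (nat_lit 1122) (nat_lit 83) (.e (nat_lit 16448) (nat_lit 10) (.e (nat_lit 434268) (nat_lit 36) (.e (nat_lit 639007) (nat_lit 13) (.e (nat_lit 1595) (nat_lit 111) (.e (nat_lit 360457) (nat_lit 0) (.e (nat_lit 5481) (nat_lit 306) .nil))))))) (.g (nat_lit 7) .nil .nil))) 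
(.lf (nat_lit 15471) (.g (nat_lit 2131) (.e (nat_lit 1122) (nat_lit 83) (.e (nat_lit 16448) (nat_lit 10) (.e (nat_lit 434268) (nat_lit 36) (.e (nat_lit 639020) (nat_lit 16) (.e (nat_lit 65619) (nat_lit 10) (.e (nat_lit 344090) (nat_lit 18) (.e (nat_lit 5464) (nat_lit 306) .nil))))))) (.g (nat_lit 4) .nil .nil)))) (.nd (nat_lit 5) 
(.lf (nat_lit 15455) (.g (nat_lit 3746) (.e (nat_lit 1122) (nat_lit 83) (.e (nat_lit 16448) (nat_lit 10) (.e (nat_lit 434268) (nat_lit 36) (.e (nat_lit 639020) (nat_lit 16) (.e (nat_lit 65617) (nat_lit 10) (.e (nat_lit 344091) (nat_lit 18) (.e (nat_lit 5440) (nat_lit 306) .nil))))))) (.g (nat_lit 6) .nil .nil))) 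
(.lf (nat_lit 15487) (.g (nat_lit 2167) (.e (nat_lit 1122) (nat_lit 83) (.e (nat_lit 16448) (nat_lit 10) (.e (nat_lit 434268) (nat_lit 36) (.e (nat_lit 639021) (nat_lit 16) (.e (nat_lit 65617) (nat_lit 10) (.e (nat_lit 344091) (nat_lit 18) (.e (nat_lit 5455) (nat_lit 306) .nil))))))) (.g (nat_lit 4) .nil .nil)))))))))

noncomputable def tv214 : DT := (.nd (nat_lit 0) (.nd (nat_lit 1) (.nd (nat_lit 2) (.nd (nat_lit 3) (.nd (nat_lit 4) (.nd (nat_lit 5) (.nd (nat_lit 6) 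
(.lf (nat_lit 15488) (.g (nat_lit 1775) (.e (nat_lit 1122) (nat_lit 83) (.e (nat_lit 16448) (nat_lit 10) (.e (nat_lit 434268) (nat_lit 36) (.e (nat_lit 639023) (nat_lit 18) .nil)))) .nil)) 
(.lf (nat_lit 15552) (.g (nat_lit 2740) (.e (nat_lit 1122) (nat_lit 83) (.e (nat_lit 16473) (nat_lit 14) (.e (nat_lit 491535) (nat_lit 2) (.e (nat_lit 90176) (nat_lit 15) (.e (nat_lit 188439) (nat_lit 20) (.e (nat_lit 2422) (nat_lit 157) (.e (nat_lit 4198) (nat_lit 251) .nil))))))) (.g (nat_lit 4) .nil .nil)))) (.nd (nat_lit 6) 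
(.lf (nat_lit 15520) (.g (nat_lit 3495) (.e (nat_lit 1122) (nat_lit 83) (.e (nat_lit 16473) (nat_lit 14) (.e (nat_lit 491526) (nat_lit 0) (.e (nat_lit 1788) (nat_lit 119) (.e (nat_lit 516151) (nat_lit 9) (.e (nat_lit 426286) (nat_lit 10) (.e (nat_lit 434203) (nat_lit 18) (.e (nat_lit 4176) (nat_lit 251) .nil)))))))) (.g (nat_lit 5) .nil .nil))) 
(.lf (nat_lit 15584) (.g (nat_lit 4073) (.e (nat_lit 1122) (nat_lit 83) (.e (nat_lit 16473) (nat_lit 14) (.e (nat_lit 491544) (nat_lit 7) (.e (nat_lit 319530) (nat_lit 16) (.e (nat_lit 286759) (nat_lit 12) (.e (nat_lit 385045) (nat_lit 21) (.e (nat_lit 7660) (nat_lit 410) .nil))))))) (.g (nat_lit 5) .nil .nil))))) (.nd (nat_lit 5) (.nd (nat_lit 6) 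
(.lf (nat_lit 15504) (.g (nat_lit 4329) (.e (nat_lit 1122) (nat_lit 83) (.e (nat_lit 16470) (nat_lit 14) (.e (nat_lit 491537) (nat_lit 2) (.e (nat_lit 90170) (nat_lit 13) (.e (nat_lit 172106) (nat_lit 10) (.e (nat_lit 434202) (nat_lit 18) (.e (nat_lit 4202) (nat_lit 251) .nil))))))) (.g (nat_lit 4) .nil .nil))) 
(.lf (nat_lit 15568) (.g (nat_lit 3809) (.e (nat_lit 1122) (nat_lit 83) (.e (nat_lit 16473) (nat_lit 14) (.e (nat_lit 491538) (nat_lit 3) (.e (nat_lit 98370) (nat_lit 28) (.e (nat_lit 442430) (nat_lit 24) (.e (nat_lit 229525) (nat_lit 128) .nil)))))) (.g (nat_lit 5) .nil .nil)))) (.nd (nat_lit 6) 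
(.lf (nat_lit 15536) (.g (nat_lit 3844) (.e (nat_lit 1122) (nat_lit 83) (.e (nat_lit 16473) (nat_lit 14) (.e (nat_lit 491526) (nat_lit 0) (.e (nat_lit 1788) (nat_lit 119) (.e (nat_lit 516166) (nat_lit 12) (.e (nat_lit 450562) (nat_lit 0) (.e (nat_lit 4176) (nat_lit 251) .nil))))))) (.g (nat_lit 5) .nil .nil))) 
(.lf (nat_lit 15600) (.g (nat_lit 4418) (.e (nat_lit 1122) (nat_lit 83) (.e (nat_lit 16473) (nat_lit 14) (.e (nat_lit 491544) (nat_lit 7) (.e (nat_lit 319531) (nat_lit 16) (.e (nat_lit 286756) (nat_lit 10) (.e (nat_lit 344090) (nat_lit 18) (.e (nat_lit 5475) (nat_lit 306) .nil))))))) (.g (nat_lit 5) .nil .nil)))))) (.nd (nat_lit 4) (.nd (nat_lit 5) (.nd (nat_lit 6) 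
(.lf (nat_lit 15496) (.g (nat_lit 3224) (.e (nat_lit 1122) (nat_lit 83) (.e (nat_lit 16466) (nat_lit 13) (.e (nat_lit 483413) (nat_lit 27) (.e (nat_lit 401446) (nat_lit 10) (.e (nat_lit 434208) (nat_lit 18) .nil))))) .nil)) 
(.lf (nat_lit 15560) (.g (nat_lit 3070) (.e (nat_lit 1122) (nat_lit 83) (.e (nat_lit 16473) (nat_lit 14) (.e (nat_lit 491535) (nat_lit 2) (.e (nat_lit 90185) (nat_lit 17) (.e (nat_lit 237605) (nat_lit 9) .nil))))) .nil))) (.nd (nat_lit 6) 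
(.lf (nat_lit 15528) (.g (nat_lit 2806) (.e (nat_lit 1122) (nat_lit 83) (.e (nat_lit 16473) (nat_lit 14) (.e (nat_lit 491526) (nat_lit 0) (.e (nat_lit 1788) (nat_lit 119) (.e (nat_lit 516151) (nat_lit 9) (.e (nat_lit 426286) (nat_lit 10) (.e (nat_lit 434203) (nat_lit 18) (.e (nat_lit 4206) (nat_lit 251) .nil)))))))) (.g (nat_lit 4) .nil .nil))) 
(.lf (nat_lit 15592) (.g (nat_lit 3499) (.e (nat_lit 1122) (nat_lit 83) (.e (nat_lit 16473) (nat_lit 14) (.e (nat_lit 491544) (nat_lit 7) (.e (nat_lit 319531) (nat_lit 16) (.e (nat_lit 286749) (nat_lit 9) (.e (nat_lit 335997) (nat_lit 1) (.e (nat_lit 57914) (nat_lit 278) .nil))))))) (.g (nat_lit 4) .nil .nil))))) (.nd (nat_lit 5) (.nd (nat_lit 6) 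
(.lf (nat_lit 15512) (.g (nat_lit 4289) (.e (nat_lit 1122) (nat_lit 83) (.e (nat_lit 16470) (nat_lit 14) (.e (nat_lit 491540) (nat_lit 3) (.e (nat_lit 98373) (nat_lit 29) (.e (nat_lit 450563) (nat_lit 0) (.e (nat_lit 4212) (nat_lit 251) .nil)))))) (.g (nat_lit 4) .nil .nil))) 
(.lf (nat_lit 15576) (.g (nat_lit 1736) (.e (nat_lit 1122) (nat_lit 83) (.e (nat_lit 16473) (nat_lit 14) (.e (nat_lit 491539) (nat_lit 3) (.e (nat_lit 98373) (nat_lit 29) .nil)))) .nil))) (.nd (nat_lit 6) 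
(.lf (nat_lit 15544) (.g (nat_lit 2333) (.e (nat_lit 1122) (nat_lit 83) (.e (nat_lit 16473) (nat_lit 14) (.e (nat_lit 491535) (nat_lit 2) (.e (nat_lit 90170) (nat_lit 13) (.e (nat_lit 172106) (nat_lit 10) (.e (nat_lit 434202) (nat_lit 18) (.e (nat_lit 4197) (nat_lit 251) .nil))))))) (.g (nat_lit 4) .nil .nil))) 
(.lf (nat_lit 15608) (.g (nat_lit 4616) (.e (nat_lit 1122) (nat_lit 83) (.e (nat_lit 16473) (nat_lit 14) (.e (nat_lit 491544) (nat_lit 7) (.e (nat_lit 319531) (nat_lit 16) (.e (nat_lit 286759) (nat_lit 12) (.e (nat_lit 385045) (nat_lit 21) (.e (nat_lit 7660) (nat_lit 410) .nil))))))) (.g (nat_lit 5) .nil .nil))))))) (.nd (nat_lit 3) (.nd (nat_lit 4) (.nd (nat_lit 5) (.nd (nat_lit 6) 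
(.lf (nat_lit 15492) (.g (nat_lit 2010) (.e (nat_lit 1122) (nat_lit 83) (.e (nat_lit 16461) (nat_lit 12) (.e (nat_lit 475207) (nat_lit 41) (.e (nat_lit 712755) (nat_lit 30) (.e (nat_lit 450563) (nat_lit 0) (.e (nat_lit 4754) (nat_lit 281) .nil)))))) (.g (nat_lit 6) .nil .nil))) 
(.lf (nat_lit 15556) (.g (nat_lit 2793) (.e (nat_lit 1122) (nat_lit 83) (.e (nat_lit 16473) (nat_lit 14) (.e (nat_lit 491535) (nat_lit 2) (.e (nat_lit 90176) (nat_lit 15) (.e (nat_lit 188439) (nat_lit 20) (.e (nat_lit 2422) (nat_lit 157) (.e (nat_lit 4209) (nat_lit 251) .nil))))))) (.g (nat_lit 4) .nil .nil)))) (.nd (nat_lit 6) 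
(.lf (nat_lit 15524) (.g (nat_lit 2845) (.e (nat_lit 1122) (nat_lit 83) (.e (nat_lit 16473) (nat_lit 14) (.e (nat_lit 491526) (nat_lit 0) (.e (nat_lit 1788) (nat_lit 119) (.e (nat_lit 516151) (nat_lit 9) (.e (nat_lit 426286) (nat_lit 10) (.e (nat_lit 434203) (nat_lit 18) (.e (nat_lit 4196) (nat_lit 251) .nil)))))))) (.g (nat_lit 4) .nil .nil))) 
(.lf (nat_lit 15588) (.g (nat_lit 4102) (.e (nat_lit 1122) (nat_lit 83) (.e (nat_lit 16473) (nat_lit 14) (.e (nat_lit 491544) (nat_lit 7) (.e (nat_lit 319530) (nat_lit 16) (.e (nat_lit 286759) (nat_lit 12) (.e (nat_lit 385047) (nat_lit 21) (.e (nat_lit 7637) (nat_lit 410) .nil))))))) (.g (nat_lit 5) .nil .nil))))) (.nd (nat_lit 5) (.nd (nat_lit 6) 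
(.lf (nat_lit 15508) (.g (nat_lit 3207) (.e (nat_lit 1122) (nat_lit 83) (.e (nat_lit 16470) (nat_lit 14) (.e (nat_lit 491540) (nat_lit 3) (.e (nat_lit 98373) (nat_lit 29) .nil)))) .nil)) 
(.lf (nat_lit 15572) (.g (nat_lit 1777) (.e (nat_lit 1122) (nat_lit 83) (.e (nat_lit 16473) (nat_lit 14) (.e (nat_lit 491538) (nat_lit 3) (.e (nat_lit 98381) (nat_lit 31) .nil)))) .nil))) (.nd (nat_lit 6) 
(.lf (nat_lit 15540) (.g (nat_lit 1054) (.e (nat_lit 1122) (nat_lit 83) (.e (nat_lit 16473) (nat_lit 14) (.e (nat_lit 491535) (nat_lit 2) .nil))) .nil)) 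
(.lf (nat_lit 15604) (.g (nat_lit 3324) (.e (nat_lit 1122) (nat_lit 83) (.e (nat_lit 16473) (nat_lit 14) (.e (nat_lit 491544) (nat_lit 7) (.e (nat_lit 319531) (nat_lit 16) (.e (nat_lit 286759) (nat_lit 12) .nil))))) .nil))))) (.nd (nat_lit 4) (.nd (nat_lit 5) (.nd (nat_lit 6) 
(.lf (nat_lit 15500) (.g (nat_lit 3665) (.e (nat_lit 1122) (nat_lit 83) (.e (nat_lit 16466) (nat_lit 13) (.e (nat_lit 483413) (nat_lit 27) (.e (nat_lit 401448) (nat_lit 10) (.e (nat_lit 434201) (nat_lit 18) .nil))))) .nil)) 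
(.lf (nat_lit 15564) (.g (nat_lit 1737) (.e (nat_lit 1122) (nat_lit 83) (.e (nat_lit 16473) (nat_lit 14) (.e (nat_lit 491538) (nat_lit 3) (.e (nat_lit 98359) (nat_lit 26) .nil)))) .nil))) (.nd (nat_lit 6) 
(.lf (nat_lit 15532) (.g (nat_lit 2699) (.e (nat_lit 1122) (nat_lit 83) (.e (nat_lit 16473) (nat_lit 14) (.e (nat_lit 491526) (nat_lit 0) (.e (nat_lit 1788) (nat_lit 119) (.e (nat_lit 516165) (nat_lit 12) .nil))))) .nil)) 
(.lf (nat_lit 15596) (.g (nat_lit 2900) (.e (nat_lit 1122) (nat_lit 83) (.e (nat_lit 16473) (nat_lit 14) (.e (nat_lit 491544) (nat_lit 7) (.e (nat_lit 319531) (nat_lit 16) (.e (nat_lit 286756) (nat_lit 10) (.e (nat_lit 344088) (nat_lit 18) (.e (nat_lit 5462) (nat_lit 306) .nil))))))) (.g (nat_lit 4) .nil .nil))))) (.nd (nat_lit 5) (.nd (nat_lit 6) 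
(.lf (nat_lit 15516) (.g (nat_lit 910) (.e (nat_lit 1122) (nat_lit 83) (.e (nat_lit 16473) (nat_lit 14) (.e (nat_lit 491526) (nat_lit 0) .nil))) .nil)) 
(.lf (nat_lit 15580) (.g (nat_lit 3212) (.e (nat_lit 1122) (nat_lit 83) (.e (nat_lit 16473) (nat_lit 14) (.e (nat_lit 491539) (nat_lit 3) (.e (nat_lit 98373) (nat_lit 29) (.e (nat_lit 450567) (nat_lit 0) .nil))))) .nil))) (.nd (nat_lit 6) 
(.lf (nat_lit 15548) (.g (nat_lit 2583) (.e (nat_lit 1122) (nat_lit 83) (.e (nat_lit 16473) (nat_lit 14) (.e (nat_lit 491535) (nat_lit 2) (.e (nat_lit 90176) (nat_lit 15) (.e (nat_lit 188439) (nat_lit 20) .nil))))) .nil)) 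
(.lf (nat_lit 15612) (.g (nat_lit 3240) (.e (nat_lit 1122) (nat_lit 83) (.e (nat_lit 16473) (nat_lit 14) (.e (nat_lit 491544) (nat_lit 7) (.e (nat_lit 319533) (nat_lit 16) (.e (nat_lit 286753) (nat_lit 10) .nil))))) .nil))))))) (.nd (nat_lit 2) (.nd (nat_lit 3) (.nd (nat_lit 4) (.nd (nat_lit 5) (.nd (nat_lit 6) 
(.lf (nat_lit 15490) (.g (nat_lit 2319) (.e (nat_lit 1122) (nat_lit 83) (.e (nat_lit 16461) (nat_lit 12) (.e (nat_lit 475207) (nat_lit 41) (.e (nat_lit 712755) (nat_lit 30) (.e (nat_lit 450562) (nat_lit 0) (.e (nat_lit 4756) (nat_lit 281) .nil)))))) (.g (nat_lit 0) .nil .nil))) 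
(.lf (nat_lit 15554) (.g (nat_lit 2648) (.e (nat_lit 1122) (nat_lit 83) (.e (nat_lit 16473) (nat_lit 14) (.e (nat_lit 491535) (nat_lit 2) (.e (nat_lit 90176) (nat_lit 15) (.e (nat_lit 188439) (nat_lit 20) (.e (nat_lit 2422) (nat_lit 157) (.e (nat_lit 4202) (nat_lit 251) .nil))))))) (.g (nat_lit 4) .nil .nil)))) (.nd (nat_lit 6) 
(.lf (nat_lit 15522) (.g (nat_lit 3699) (.e (nat_lit 1122) (nat_lit 83) (.e (nat_lit 16473) (nat_lit 14) (.e (nat_lit 491526) (nat_lit 0) (.e (nat_lit 1788) (nat_lit 119) (.e (nat_lit 516151) (nat_lit 9) (.e (nat_lit 426286) (nat_lit 10) (.e (nat_lit 434203) (nat_lit 18) (.e (nat_lit 4178) (nat_lit 251) .nil)))))))) (.g (nat_lit 5) .nil .nil))) 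
(.lf (nat_lit 15586) (.g (nat_lit 4238) (.e (nat_lit 1122) (nat_lit 83) (.e (nat_lit 16473) (nat_lit 14) (.e (nat_lit 491544) (nat_lit 7) (.e (nat_lit 319530) (nat_lit 16) (.e (nat_lit 286759) (nat_lit 12) (.e (nat_lit 385047) (nat_lit 21) (.e (nat_lit 7635) (nat_lit 410) .nil))))))) (.g (nat_lit 5) .nil .nil))))) (.nd (nat_lit 5) (.nd (nat_lit 6) 
(.lf (nat_lit 15506) (.g (nat_lit 5129) (.e (nat_lit 1122) (nat_lit 83) (.e (nat_lit 16470) (nat_lit 14) (.e (nat_lit 491537) (nat_lit 2) (.e (nat_lit 90170) (nat_lit 13) (.e (nat_lit 172113) (nat_lit 10) .nil))))) .nil)) 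
(.lf (nat_lit 15570) (.g (nat_lit 2603) (.e (nat_lit 1122) (nat_lit 83) (.e (nat_lit 16473) (nat_lit 14) (.e (nat_lit 491538) (nat_lit 3) (.e (nat_lit 98373) (nat_lit 29) (.e (nat_lit 450563) (nat_lit 0) .nil))))) .nil))) (.nd (nat_lit 6) 
(.lf (nat_lit 15538) (.g (nat_lit 4053) (.e (nat_lit 1122) (nat_lit 83) (.e (nat_lit 16473) (nat_lit 14) (.e (nat_lit 491526) (nat_lit 0) (.e (nat_lit 1788) (nat_lit 119) (.e (nat_lit 516166) (nat_lit 12) (.e (nat_lit 450562) (nat_lit 0) (.e (nat_lit 4185) (nat_lit 251) .nil))))))) (.g (nat_lit 5) .nil .nil))) 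
(.lf (nat_lit 15602) (.g (nat_lit 2893) (.e (nat_lit 1122) (nat_lit 83) (.e (nat_lit 16473) (nat_lit 14) (.e (nat_lit 491544) (nat_lit 7) (.e (nat_lit 319531) (nat_lit 16) (.e (nat_lit 286756) (nat_lit 10) (.e (nat_lit 344097) (nat_lit 18) (.e (nat_lit 5479) (nat_lit 306) .nil))))))) (.g (nat_lit 4) .nil .nil)))))) (.nd (nat_lit 4) (.nd (nat_lit 5) (.nd (nat_lit 6) 
(.lf (nat_lit 15498) (.g (nat_lit 3477) (.e (nat_lit 1122) (nat_lit 83) (.e (nat_lit 16466) (nat_lit 13) (.e (nat_lit 483413) (nat_lit 27) (.e (nat_lit 401447) (nat_lit 10) (.e (nat_lit 434210) (nat_lit 18) .nil))))) .nil)) 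
(.lf (nat_lit 15562) (.g (nat_lit 1795) (.e (nat_lit 1122) (nat_lit 83) (.e (nat_lit 16473) (nat_lit 14) (.e (nat_lit 491536) (nat_lit 2) (.e (nat_lit 90170) (nat_lit 13) .nil)))) .nil))) (.nd (nat_lit 6) 
(.lf (nat_lit 15530) (.g (nat_lit 2868) (.e (nat_lit 1122) (nat_lit 83) (.e (nat_lit 16473) (nat_lit 14) (.e (nat_lit 491526) (nat_lit 0) (.e (nat_lit 1788) (nat_lit 119) (.e (nat_lit 516151) (nat_lit 9) (.e (nat_lit 426286) (nat_lit 10) (.e (nat_lit 434208) (nat_lit 18) (.e (nat_lit 4202) (nat_lit 251) .nil)))))))) (.g (nat_lit 4) .nil .nil))) 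
(.lf (nat_lit 15594) (.g (nat_lit 2872) (.e (nat_lit 1122) (nat_lit 83) (.e (nat_lit 16473) (nat_lit 14) (.e (nat_lit 491544) (nat_lit 7) (.e (nat_lit 319531) (nat_lit 16) (.e (nat_lit 286756) (nat_lit 10) (.e (nat_lit 344088) (nat_lit 18) (.e (nat_lit 5442) (nat_lit 306) .nil))))))) (.g (nat_lit 4) .nil .nil))))) (.nd (nat_lit 5) (.nd (nat_lit 6) 
(.lf (nat_lit 15514) (.g (nat_lit 743) (.e (nat_lit 1122) (nat_lit 83) (.e (nat_lit 16470) (nat_lit 14) (.e (nat_lit 491571) (nat_lit 13) .nil))) .nil)) 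
(.lf (nat_lit 15578) (.g (nat_lit 2818) (.e (nat_lit 1122) (nat_lit 83) (.e (nat_lit 16473) (nat_lit 14) (.e (nat_lit 491539) (nat_lit 3) (.e (nat_lit 98373) (nat_lit 29) (.e (nat_lit 450562) (nat_lit 0) .nil))))) .nil))) (.nd (nat_lit 6) 
(.lf (nat_lit 15546) (.g (nat_lit 2565) (.e (nat_lit 1122) (nat_lit 83) (.e (nat_lit 16473) (nat_lit 14) (.e (nat_lit 491535) (nat_lit 2) (.e (nat_lit 90170) (nat_lit 13) (.e (nat_lit 172113) (nat_lit 10) .nil))))) .nil)) 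
(.lf (nat_lit 15610) (.g (nat_lit 5011) (.e (nat_lit 1122) (nat_lit 83) (.e (nat_lit 16473) (nat_lit 14) (.e (nat_lit 491544) (nat_lit 7) (.e (nat_lit 319531) (nat_lit 16) (.e (nat_lit 286759) (nat_lit 12) (.e (nat_lit 385047) (nat_lit 21) (.e (nat_lit 7636) (nat_lit 410) .nil))))))) (.g (nat_lit 0) .nil .nil))))))) (.nd (nat_lit 3) (.nd (nat_lit 4) (.nd (nat_lit 5) (.nd (nat_lit 6) 
(.lf (nat_lit 15494) (.g (nat_lit 1237) (.e (nat_lit 1122) (nat_lit 83) (.e (nat_lit 16466) (nat_lit 13) (.e (nat_lit 483346) (nat_lit 17) .nil))) .nil)) 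
(.lf (nat_lit 15558) (.g (nat_lit 2837) (.e (nat_lit 1122) (nat_lit 83) (.e (nat_lit 16473) (nat_lit 14) (.e (nat_lit 491535) (nat_lit 2) (.e (nat_lit 90176) (nat_lit 15) (.e (nat_lit 188444) (nat_lit 21) .nil))))) .nil))) (.nd (nat_lit 6) 
(.lf (nat_lit 15526) (.g (nat_lit 2747) (.e (nat_lit 1122) (nat_lit 83) (.e (nat_lit 16473) (nat_lit 14) (.e (nat_lit 491526) (nat_lit 0) (.e (nat_lit 1788) (nat_lit 119) (.e (nat_lit 516151) (nat_lit 9) (.e (nat_lit 426286) (nat_lit 10) (.e (nat_lit 434203) (nat_lit 18) (.e (nat_lit 4198) (nat_lit 251) .nil)))))))) (.g (nat_lit 4) .nil .nil))) 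
(.lf (nat_lit 15590) (.g (nat_lit 2929) (.e (nat_lit 1122) (nat_lit 83) (.e (nat_lit 16473) (nat_lit 14) (.e (nat_lit 491544) (nat_lit 7) (.e (nat_lit 319531) (nat_lit 16) (.e (nat_lit 286748) (nat_lit 9) .nil))))) .nil)))) (.nd (nat_lit 5) (.nd (nat_lit 6) 
(.lf (nat_lit 15510) (.g (nat_lit 4188) (.e (nat_lit 1122) (nat_lit 83) (.e (nat_lit 16470) (nat_lit 14) (.e (nat_lit 491540) (nat_lit 3) (.e (nat_lit 98373) (nat_lit 29) (.e (nat_lit 450563) (nat_lit 0) .nil))))) .nil)) 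
(.lf (nat_lit 15574) (.g (nat_lit 2351) (.e (nat_lit 1122) (nat_lit 83) (.e (nat_lit 16473) (nat_lit 14) (.e (nat_lit 491538) (nat_lit 3) (.e (nat_lit 98381) (nat_lit 31) (.e (nat_lit 466972) (nat_lit 21) .nil))))) .nil))) (.nd (nat_lit 6) 
(.lf (nat_lit 15542) (.g (nat_lit 2407) (.e (nat_lit 1122) (nat_lit 83) (.e (nat_lit 16473) (nat_lit 14) (.e (nat_lit 491535) (nat_lit 2) (.e (nat_lit 90170) (nat_lit 13) (.e (nat_lit 172106) (nat_lit 10) (.e (nat_lit 434202) (nat_lit 18) (.e (nat_lit 4174) (nat_lit 251) .nil))))))) (.g (nat_lit 4) .nil .nil))) 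
(.lf (nat_lit 15606) (.g (nat_lit 3473) (.e (nat_lit 1122) (nat_lit 83) (.e (nat_lit 16473) (nat_lit 14) (.e (nat_lit 491544) (nat_lit 7) (.e (nat_lit 319531) (nat_lit 16) (.e (nat_lit 286759) (nat_lit 12) (.e (nat_lit 385045) (nat_lit 21) (.e (nat_lit 7635) (nat_lit 410) .nil))))))) (.g (nat_lit 4) .nil .nil)))))) (.nd (nat_lit 4) (.nd (nat_lit 5) (.nd (nat_lit 6) 
(.lf (nat_lit 15502) (.g (nat_lit 3733) (.e (nat_lit 1122) (nat_lit 83) (.e (nat_lit 16470) (nat_lit 14) (.e (nat_lit 491537) (nat_lit 2) (.e (nat_lit 90170) (nat_lit 13) (.e (nat_lit 172106) (nat_lit 10) .nil))))) .nil)) 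
(.lf (nat_lit 15566) (.g (nat_lit 2844) (.e (nat_lit 1122) (nat_lit 83) (.e (nat_lit 16473) (nat_lit 14) (.e (nat_lit 491538) (nat_lit 3) (.e (nat_lit 98370) (nat_lit 28) (.e (nat_lit 442429) (nat_lit 24) .nil))))) .nil))) (.nd (nat_lit 6) 
(.lf (nat_lit 15534) (.g (nat_lit 2590) (.e (nat_lit 1122) (nat_lit 83) (.e (nat_lit 16473) (nat_lit 14) (.e (nat_lit 491526) (nat_lit 0) (.e (nat_lit 1788) (nat_lit 119) (.e (nat_lit 516166) (nat_lit 12) .nil))))) .nil)) 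
(.lf (nat_lit 15598) (.g (nat_lit 2854) (.e (nat_lit 1122) (nat_lit 83) (.e (nat_lit 16473) (nat_lit 14) (.e (nat_lit 491544) (nat_lit 7) (.e (nat_lit 319531) (nat_lit 16) (.e (nat_lit 286756) (nat_lit 10) (.e (nat_lit 344088) (nat_lit 18) (.e (nat_lit 5488) (nat_lit 306) .nil))))))) (.g (nat_lit 4) .nil .nil))))) (.nd (nat_lit 5) (.nd (nat_lit 6) 
(.lf (nat_lit 15518) (.g (nat_lit 2217) (.e (nat_lit 1122) (nat_lit 83) (.e (nat_lit 16473) (nat_lit 14) (.e (nat_lit 491526) (nat_lit 0) (.e (nat_lit 1788) (nat_lit 119) .nil)))) .nil)) 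
(.lf (nat_lit 15582) (.g (nat_lit 2932) (.e (nat_lit 1122) (nat_lit 83) (.e (nat_lit 16473) (nat_lit 14) (.e (nat_lit 491544) (nat_lit 7) (.e (nat_lit 319530) (nat_lit 16) (.e (nat_lit 286748) (nat_lit 9) .nil))))) .nil))) (.nd (nat_lit 6) 
(.lf (nat_lit 15550) (.g (nat_lit 2615) (.e (nat_lit 1122) (nat_lit 83) (.e (nat_lit 16473) (nat_lit 14) (.e (nat_lit 491535) (nat_lit 2) (.e (nat_lit 90176) (nat_lit 15) (.e (nat_lit 188439) (nat_lit 20) (.e (nat_lit 2422) (nat_lit 157) (.e (nat_lit 4196) (nat_lit 251) .nil))))))) (.g (nat_lit 4) .nil .nil))) 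
(.lf (nat_lit 15614) (.g (nat_lit 2203) (.e (nat_lit 1122) (nat_lit 83) (.e (nat_lit 16473) (nat_lit 14) (.e (nat_lit 491544) (nat_lit 7) (.e (nat_lit 319534) (nat_lit 16) .nil)))) .nil)))))))) (.nd (nat_lit 1) (.nd (nat_lit 2) (.nd (nat_lit 3) (.nd (nat_lit 4) (.nd (nat_lit 5) (.nd (nat_lit 6) 
(.lf (nat_lit 15489) (.g (nat_lit 1421) (.e (nat_lit 1122) (nat_lit 83) (.e (nat_lit 16461) (nat_lit 12) (.e (nat_lit 475184) (nat_lit 29) (.e (nat_lit 557109) (nat_lit 15) (.e (nat_lit 188455) (nat_lit 24) .nil))))) .nil)) 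
(.lf (nat_lit 15553) (.g (nat_lit 2716) (.e (nat_lit 1122) (nat_lit 83) (.e (nat_lit 16473) (nat_lit 14) (.e (nat_lit 491535) (nat_lit 2) (.e (nat_lit 90176) (nat_lit 15) (.e (nat_lit 188439) (nat_lit 20) (.e (nat_lit 2422) (nat_lit 157) (.e (nat_lit 4199) (nat_lit 251) .nil))))))) (.g (nat_lit 4) .nil .nil)))) (.nd (nat_lit 6) 
(.lf (nat_lit 15521) (.g (nat_lit 2776) (.e (nat_lit 1122) (nat_lit 83) (.e (nat_lit 16473) (nat_lit 14) (.e (nat_lit 491526) (nat_lit 0) (.e (nat_lit 1788) (nat_lit 119) (.e (nat_lit 516151) (nat_lit 9) (.e (nat_lit 426286) (nat_lit 10) (.e (nat_lit 434203) (nat_lit 18) (.e (nat_lit 4177) (nat_lit 251) .nil)))))))) (.g (nat_lit 4) .nil .nil))) 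
(.lf (nat_lit 15585) (.g (nat_lit 4341) (.e (nat_lit 1122) (nat_lit 83) (.e (nat_lit 16473) (nat_lit 14) (.e (nat_lit 491544) (nat_lit 7) (.e (nat_lit 319530) (nat_lit 16) (.e (nat_lit 286759) (nat_lit 12) (.e (nat_lit 385045) (nat_lit 21) (.e (nat_lit 7682) (nat_lit 410) .nil))))))) (.g (nat_lit 6) .nil .nil))))) (.nd (nat_lit 5) (.nd (nat_lit 6) 
(.lf (nat_lit 15505) (.g (nat_lit 4021) (.e (nat_lit 1122) (nat_lit 83) (.e (nat_lit 16470) (nat_lit 14) (.e (nat_lit 491537) (nat_lit 2) (.e (nat_lit 90170) (nat_lit 13) (.e (nat_lit 172106) (nat_lit 10) (.e (nat_lit 434202) (nat_lit 18) (.e (nat_lit 4203) (nat_lit 251) .nil))))))) (.g (nat_lit 4) .nil .nil))) 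
(.lf (nat_lit 15569) (.g (nat_lit 2599) (.e (nat_lit 1122) (nat_lit 83) (.e (nat_lit 16473) (nat_lit 14) (.e (nat_lit 491538) (nat_lit 3) (.e (nat_lit 98373) (nat_lit 29) (.e (nat_lit 450562) (nat_lit 0) .nil))))) .nil))) (.nd (nat_lit 6) 
(.lf (nat_lit 15537) (.g (nat_lit 3997) (.e (nat_lit 1122) (nat_lit 83) (.e (nat_lit 16473) (nat_lit 14) (.e (nat_lit 491526) (nat_lit 0) (.e (nat_lit 1788) (nat_lit 119) (.e (nat_lit 516166) (nat_lit 12) (.e (nat_lit 450562) (nat_lit 0) (.e (nat_lit 4178) (nat_lit 251) .nil))))))) (.g (nat_lit 5) .nil .nil))) 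
(.lf (nat_lit 15601) (.g (nat_lit 2866) (.e (nat_lit 1122) (nat_lit 83) (.e (nat_lit 16473) (nat_lit 14) (.e (nat_lit 491544) (nat_lit 7) (.e (nat_lit 319531) (nat_lit 16) (.e (nat_lit 286756) (nat_lit 10) (.e (nat_lit 344097) (nat_lit 18) (.e (nat_lit 5473) (nat_lit 306) .nil))))))) (.g (nat_lit 4) .nil .nil)))))) (.nd (nat_lit 4) (.nd (nat_lit 5) (.nd (nat_lit 6) 
(.lf (nat_lit 15497) (.g (nat_lit 3343) (.e (nat_lit 1122) (nat_lit 83) (.e (nat_lit 16466) (nat_lit 13) (.e (nat_lit 483413) (nat_lit 27) (.e (nat_lit 401447) (nat_lit 10) (.e (nat_lit 434203) (nat_lit 18) .nil))))) .nil)) 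
(.lf (nat_lit 15561) (.g (nat_lit 930) (.e (nat_lit 1122) (nat_lit 83) (.e (nat_lit 16473) (nat_lit 14) (.e (nat_lit 491536) (nat_lit 2) .nil))) .nil))) (.nd (nat_lit 6) 
(.lf (nat_lit 15529) (.g (nat_lit 2922) (.e (nat_lit 1122) (nat_lit 83) (.e (nat_lit 16473) (nat_lit 14) (.e (nat_lit 491526) (nat_lit 0) (.e (nat_lit 1788) (nat_lit 119) (.e (nat_lit 516151) (nat_lit 9) (.e (nat_lit 426286) (nat_lit 10) (.e (nat_lit 434203) (nat_lit 18) (.e (nat_lit 4210) (nat_lit 251) .nil)))))))) (.g (nat_lit 4) .nil .nil))) 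
(.lf (nat_lit 15593) (.g (nat_lit 2759) (.e (nat_lit 1122) (nat_lit 83) (.e (nat_lit 16473) (nat_lit 14) (.e (nat_lit 491544) (nat_lit 7) (.e (nat_lit 319531) (nat_lit 16) (.e (nat_lit 286756) (nat_lit 10) .nil))))) .nil)))) (.nd (nat_lit 5) (.nd (nat_lit 6) 
(.lf (nat_lit 15513) (.g (nat_lit 4342) (.e (nat_lit 1122) (nat_lit 83) (.e (nat_lit 16470) (nat_lit 14) (.e (nat_lit 491540) (nat_lit 3) (.e (nat_lit 98373) (nat_lit 29) (.e (nat_lit 450567) (nat_lit 0) .nil))))) .nil)) 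
(.lf (nat_lit 15577) (.g (nat_lit 3325) (.e (nat_lit 1122) (nat_lit 83) (.e (nat_lit 16473) (nat_lit 14) (.e (nat_lit 491539) (nat_lit 3) (.e (nat_lit 98373) (nat_lit 29) (.e (nat_lit 450560) (nat_lit 0) .nil))))) .nil))) (.nd (nat_lit 6) 
(.lf (nat_lit 15545) (.g (nat_lit 3575) (.e (nat_lit 1122) (nat_lit 83) (.e (nat_lit 16473) (nat_lit 14) (.e (nat_lit 491535) (nat_lit 2) (.e (nat_lit 90170) (nat_lit 13) (.e (nat_lit 172106) (nat_lit 10) (.e (nat_lit 434202) (nat_lit 18) (.e (nat_lit 4203) (nat_lit 251) .nil))))))) (.g (nat_lit 5) .nil .nil))) 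
(.lf (nat_lit 15609) (.g (nat_lit 4884) (.e (nat_lit 1122) (nat_lit 83) (.e (nat_lit 16473) (nat_lit 14) (.e (nat_lit 491544) (nat_lit 7) (.e (nat_lit 319531) (nat_lit 16) (.e (nat_lit 286759) (nat_lit 12) (.e (nat_lit 385045) (nat_lit 21) (.e (nat_lit 7682) (nat_lit 410) .nil))))))) (.g (nat_lit 6) .nil .nil))))))) (.nd (nat_lit 3) (.nd (nat_lit 4) (.nd (nat_lit 5) (.nd (nat_lit 6) 
(.lf (nat_lit 15493) (.g (nat_lit 1825) (.e (nat_lit 1122) (nat_lit 83) (.e (nat_lit 16461) (nat_lit 12) (.e (nat_lit 475207) (nat_lit 41) (.e (nat_lit 712755) (nat_lit 30) (.e (nat_lit 450563) (nat_lit 0) (.e (nat_lit 4778) (nat_lit 281) .nil)))))) (.g (nat_lit 5) .nil .nil))) 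
(.lf (nat_lit 15557) (.g (nat_lit 2849) (.e (nat_lit 1122) (nat_lit 83) (.e (nat_lit 16473) (nat_lit 14) (.e (nat_lit 491535) (nat_lit 2) (.e (nat_lit 90176) (nat_lit 15) (.e (nat_lit 188439) (nat_lit 20) (.e (nat_lit 2422) (nat_lit 157) (.e (nat_lit 4210) (nat_lit 251) .nil))))))) (.g (nat_lit 4) .nil .nil)))) (.nd (nat_lit 6) 
(.lf (nat_lit 15525) (.g (nat_lit 2864) (.e (nat_lit 1122) (nat_lit 83) (.e (nat_lit 16473) (nat_lit 14) (.e (nat_lit 491526) (nat_lit 0) (.e (nat_lit 1788) (nat_lit 119) (.e (nat_lit 516151) (nat_lit 9) (.e (nat_lit 426286) (nat_lit 10) (.e (nat_lit 434203) (nat_lit 18) (.e (nat_lit 4197) (nat_lit 251) .nil)))))))) (.g (nat_lit 4) .nil .nil))) 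
(.lf (nat_lit 15589) (.g (nat_lit 2225) (.e (nat_lit 1122) (nat_lit 83) (.e (nat_lit 16473) (nat_lit 14) (.e (nat_lit 491544) (nat_lit 7) (.e (nat_lit 319531) (nat_lit 16) .nil)))) .nil)))) (.nd (nat_lit 5) (.nd (nat_lit 6) 
(.lf (nat_lit 15509) (.g (nat_lit 4138) (.e (nat_lit 1122) (nat_lit 83) (.e (nat_lit 16470) (nat_lit 14) (.e (nat_lit 491540) (nat_lit 3) (.e (nat_lit 98373) (nat_lit 29) (.e (nat_lit 450562) (nat_lit 0) .nil))))) .nil)) 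
(.lf (nat_lit 15573) (.g (nat_lit 2549) (.e (nat_lit 1122) (nat_lit 83) (.e (nat_lit 16473) (nat_lit 14) (.e (nat_lit 491538) (nat_lit 3) (.e (nat_lit 98381) (nat_lit 31) (.e (nat_lit 466971) (nat_lit 21) .nil))))) .nil))) (.nd (nat_lit 6) 
(.lf (nat_lit 15541) (.g (nat_lit 2192) (.e (nat_lit 1122) (nat_lit 83) (.e (nat_lit 16473) (nat_lit 14) (.e (nat_lit 491535) (nat_lit 2) (.e (nat_lit 90170) (nat_lit 13) (.e (nat_lit 172106) (nat_lit 10) .nil))))) .nil)) 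
(.lf (nat_lit 15605) (.g (nat_lit 3466) (.e (nat_lit 1122) (nat_lit 83) (.e (nat_lit 16473) (nat_lit 14) (.e (nat_lit 491544) (nat_lit 7) (.e (nat_lit 319531) (nat_lit 16) (.e (nat_lit 286759) (nat_lit 12) (.e (nat_lit 385043) (nat_lit 21) (.e (nat_lit 7660) (nat_lit 410) .nil))))))) (.g (nat_lit 4) .nil .nil)))))) (.nd (nat_lit 4) (.nd (nat_lit 5) (.nd (nat_lit 6) 
(.lf (nat_lit 15501) (.g (nat_lit 2356) (.e (nat_lit 1122) (nat_lit 83) (.e (nat_lit 16466) (nat_lit 13) (.e (nat_lit 483413) (nat_lit 27) (.e (nat_lit 401451) (nat_lit 12) .nil)))) .nil)) 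
(.lf (nat_lit 15565) (.g (nat_lit 2581) (.e (nat_lit 1122) (nat_lit 83) (.e (nat_lit 16473) (nat_lit 14) (.e (nat_lit 491538) (nat_lit 3) (.e (nat_lit 98365) (nat_lit 26) (.e (nat_lit 426298) (nat_lit 11) .nil))))) .nil))) (.nd (nat_lit 6) 
(.lf (nat_lit 15533) (.g (nat_lit 2785) (.e (nat_lit 1122) (nat_lit 83) (.e (nat_lit 16473) (nat_lit 14) (.e (nat_lit 491526) (nat_lit 0) (.e (nat_lit 1788) (nat_lit 119) (.e (nat_lit 516165) (nat_lit 12) (.e (nat_lit 450567) (nat_lit 0) (.e (nat_lit 4211) (nat_lit 251) .nil))))))) (.g (nat_lit 4) .nil .nil))) 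
(.lf (nat_lit 15597) (.g (nat_lit 2941) (.e (nat_lit 1122) (nat_lit 83) (.e (nat_lit 16473) (nat_lit 14) (.e (nat_lit 491544) (nat_lit 7) (.e (nat_lit 319531) (nat_lit 16) (.e (nat_lit 286756) (nat_lit 10) (.e (nat_lit 344088) (nat_lit 18) (.e (nat_lit 5484) (nat_lit 306) .nil))))))) (.g (nat_lit 4) .nil .nil))))) (.nd (nat_lit 5) (.nd (nat_lit 6) 
(.lf (nat_lit 15517) (.g (nat_lit 2259) (.e (nat_lit 1122) (nat_lit 83) (.e (nat_lit 16473) (nat_lit 14) (.e (nat_lit 491526) (nat_lit 0) (.e (nat_lit 1698) (nat_lit 117) .nil)))) .nil)) 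
(.lf (nat_lit 15581) (.g (nat_lit 2289) (.e (nat_lit 1122) (nat_lit 83) (.e (nat_lit 16473) (nat_lit 14) (.e (nat_lit 491544) (nat_lit 7) (.e (nat_lit 319530) (nat_lit 16) .nil)))) .nil))) (.nd (nat_lit 6) 
(.lf (nat_lit 15549) (.g (nat_lit 2605) (.e (nat_lit 1122) (nat_lit 83) (.e (nat_lit 16473) (nat_lit 14) (.e (nat_lit 491535) (nat_lit 2) (.e (nat_lit 90176) (nat_lit 15) (.e (nat_lit 188439) (nat_lit 20) (.e (nat_lit 2422) (nat_lit 157) (.e (nat_lit 4193) (nat_lit 251) .nil))))))) (.g (nat_lit 4) .nil .nil))) 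
(.lf (nat_lit 15613) (.g (nat_lit 3470) (.e (nat_lit 1122) (nat_lit 83) (.e (nat_lit 16473) (nat_lit 14) (.e (nat_lit 491544) (nat_lit 7) (.e (nat_lit 319533) (nat_lit 16) (.e (nat_lit 286753) (nat_lit 10) (.e (nat_lit 344088) (nat_lit 18) (.e (nat_lit 5440) (nat_lit 306) .nil))))))) (.g (nat_lit 4) .nil .nil)))))))) 
(.nd (nat_lit 2) (.nd (nat_lit 3) (.nd (nat_lit 4) (.nd (nat_lit 5) (.nd (nat_lit 6) 
(.lf (nat_lit 15491) (.g (nat_lit 2034) (.e (nat_lit 1122) (nat_lit 83) (.e (nat_lit 16461) (nat_lit 12) (.e (nat_lit 475207) (nat_lit 41) (.e (nat_lit 712755) (nat_lit 30) (.e (nat_lit 450562) (nat_lit 0) (.e (nat_lit 4805) (nat_lit 281) .nil)))))) (.g (nat_lit 5) .nil .nil))) 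
(.lf (nat_lit 15555) (.g (nat_lit 2751) (.e (nat_lit 1122) (nat_lit 83) (.e (nat_lit 16473) (nat_lit 14) (.e (nat_lit 491535) (nat_lit 2) (.e (nat_lit 90176) (nat_lit 15) (.e (nat_lit 188439) (nat_lit 20) (.e (nat_lit 2422) (nat_lit 157) (.e (nat_lit 4203) (nat_lit 251) .nil))))))) (.g (nat_lit 4) .nil .nil)))) (.nd (nat_lit 6) 
(.lf (nat_lit 15523) (.g (nat_lit 2730) (.e (nat_lit 1122) (nat_lit 83) (.e (nat_lit 16473) (nat_lit 14) (.e (nat_lit 491526) (nat_lit 0) (.e (nat_lit 1788) (nat_lit 119) (.e (nat_lit 516151) (nat_lit 9) (.e (nat_lit 426286) (nat_lit 10) (.e (nat_lit 434203) (nat_lit 18) (.e (nat_lit 4195) (nat_lit 251) .nil)))))))) (.g (nat_lit 4) .nil .nil))) 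
(.lf (nat_lit 15587) (.g (nat_lit 4182) (.e (nat_lit 1122) (nat_lit 83) (.e (nat_lit 16473) (nat_lit 14) (.e (nat_lit 491544) (nat_lit 7) (.e (nat_lit 319530) (nat_lit 16) (.e (nat_lit 286759) (nat_lit 12) (.e (nat_lit 385047) (nat_lit 21) (.e (nat_lit 7636) (nat_lit 410) .nil))))))) (.g (nat_lit 5) .nil .nil))))) (.nd (nat_lit 5) (.nd (nat_lit 6) 
(.lf (nat_lit 15507) (.g (nat_lit 2022) (.e (nat_lit 1122) (nat_lit 83) (.e (nat_lit 16470) (nat_lit 14) (.e (nat_lit 491540) (nat_lit 3) .nil))) .nil)) 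
(.lf (nat_lit 15571) (.g (nat_lit 2757) (.e (nat_lit 1122) (nat_lit 83) (.e (nat_lit 16473) (nat_lit 14) (.e (nat_lit 491538) (nat_lit 3) (.e (nat_lit 98373) (nat_lit 29) (.e (nat_lit 450567) (nat_lit 0) .nil))))) .nil))) (.nd (nat_lit 6) 
(.lf (nat_lit 15539) (.g (nat_lit 3731) (.e (nat_lit 1122) (nat_lit 83) (.e (nat_lit 16473) (nat_lit 14) (.e (nat_lit 491526) (nat_lit 0) (.e (nat_lit 1788) (nat_lit 119) (.e (nat_lit 516166) (nat_lit 12) (.e (nat_lit 450569) (nat_lit 0) (.e (nat_lit 4215) (nat_lit 251) .nil))))))) (.g (nat_lit 5) .nil .nil))) 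
(.lf (nat_lit 15603) (.g (nat_lit 2954) (.e (nat_lit 1122) (nat_lit 83) (.e (nat_lit 16473) (nat_lit 14) (.e (nat_lit 491544) (nat_lit 7) (.e (nat_lit 319531) (nat_lit 16) (.e (nat_lit 286756) (nat_lit 10) (.e (nat_lit 344097) (nat_lit 18) (.e (nat_lit 5482) (nat_lit 306) .nil))))))) (.g (nat_lit 4) .nil .nil)))))) (.nd (nat_lit 4) (.nd (nat_lit 5) (.nd (nat_lit 6) 
(.lf (nat_lit 15499) (.g (nat_lit 1805) (.e (nat_lit 1122) (nat_lit 83) (.e (nat_lit 16466) (nat_lit 13) (.e (nat_lit 483413) (nat_lit 27) (.e (nat_lit 401448) (nat_lit 10) .nil)))) .nil)) 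
(.lf (nat_lit 15563) (.g (nat_lit 1008) (.e (nat_lit 1122) (nat_lit 83) (.e (nat_lit 16473) (nat_lit 14) (.e (nat_lit 491538) (nat_lit 3) .nil))) .nil))) (.nd (nat_lit 6) 
(.lf (nat_lit 15531) (.g (nat_lit 2940) (.e (nat_lit 1122) (nat_lit 83) (.e (nat_lit 16473) (nat_lit 14) (.e (nat_lit 491526) (nat_lit 0) (.e (nat_lit 1788) (nat_lit 119) (.e (nat_lit 516163) (nat_lit 11) (.e (nat_lit 442430) (nat_lit 24) (.e (nat_lit 229523) (nat_lit 128) .nil))))))) (.g (nat_lit 4) .nil .nil))) 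
(.lf (nat_lit 15595) (.g (nat_lit 2905) (.e (nat_lit 1122) (nat_lit 83) (.e (nat_lit 16473) (nat_lit 14) (.e (nat_lit 491544) (nat_lit 7) (.e (nat_lit 319531) (nat_lit 16) (.e (nat_lit 286756) (nat_lit 10) (.e (nat_lit 344088) (nat_lit 18) (.e (nat_lit 5455) (nat_lit 306) .nil))))))) (.g (nat_lit 4) .nil .nil))))) (.nd (nat_lit 5) (.nd (nat_lit 6) 
(.lf (nat_lit 15515) (.g (nat_lit 2793) (.e (nat_lit 1122) (nat_lit 83) (.e (nat_lit 16470) (nat_lit 14) (.e (nat_lit 491571) (nat_lit 13) (.e (nat_lit 393291) (nat_lit 26) .nil)))) .nil)) 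
(.lf (nat_lit 15579) (.g (nat_lit 3433) (.e (nat_lit 1122) (nat_lit 83) (.e (nat_lit 16473) (nat_lit 14) (.e (nat_lit 491539) (nat_lit 3) (.e (nat_lit 98373) (nat_lit 29) (.e (nat_lit 450566) (nat_lit 0) .nil))))) .nil))) (.nd (nat_lit 6) 
(.lf (nat_lit 15547) (.g (nat_lit 2091) (.e (nat_lit 1122) (nat_lit 83) (.e (nat_lit 16473) (nat_lit 14) (.e (nat_lit 491535) (nat_lit 2) (.e (nat_lit 90176) (nat_lit 15) .nil)))) .nil)) 
(.lf (nat_lit 15611) (.g (nat_lit 2225) (.e (nat_lit 1122) (nat_lit 83) (.e (nat_lit 16473) (nat_lit 14) (.e (nat_lit 491544) (nat_lit 7) (.e (nat_lit 319533) (nat_lit 16) .nil)))) .nil)))))) (.nd (nat_lit 3) (.nd (nat_lit 4) (.nd (nat_lit 5) (.nd (nat_lit 6) 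
(.lf (nat_lit 15495) (.g (nat_lit 743) (.e (nat_lit 1122) (nat_lit 83) (.e (nat_lit 16466) (nat_lit 13) (.e (nat_lit 483393) (nat_lit 23) .nil))) .nil)) 
(.lf (nat_lit 15559) (.g (nat_lit 2917) (.e (nat_lit 1122) (nat_lit 83) (.e (nat_lit 16473) (nat_lit 14) (.e (nat_lit 491535) (nat_lit 2) (.e (nat_lit 90176) (nat_lit 15) (.e (nat_lit 188444) (nat_lit 21) (.e (nat_lit 164119) (nat_lit 128) .nil)))))) (.g (nat_lit 4) .nil .nil)))) (.nd (nat_lit 6) 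
(.lf (nat_lit 15527) (.g (nat_lit 2729) (.e (nat_lit 1122) (nat_lit 83) (.e (nat_lit 16473) (nat_lit 14) (.e (nat_lit 491526) (nat_lit 0) (.e (nat_lit 1788) (nat_lit 119) (.e (nat_lit 516151) (nat_lit 9) (.e (nat_lit 426286) (nat_lit 10) (.e (nat_lit 434203) (nat_lit 18) (.e (nat_lit 4200) (nat_lit 251) .nil)))))))) (.g (nat_lit 4) .nil .nil))) 
(.lf (nat_lit 15591) (.g (nat_lit 3616) (.e (nat_lit 1122) (nat_lit 83) (.e (nat_lit 16473) (nat_lit 14) (.e (nat_lit 491544) (nat_lit 7) (.e (nat_lit 319531) (nat_lit 16) (.e (nat_lit 286748) (nat_lit 9) (.e (nat_lit 336295) (nat_lit 15) (.e (nat_lit 2442) (nat_lit 157) (.e (nat_lit 7660) (nat_lit 410) .nil)))))))) (.g (nat_lit 5) .nil .nil))))) (.nd (nat_lit 5) (.nd (nat_lit 6) 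
(.lf (nat_lit 15511) (.g (nat_lit 4374) (.e (nat_lit 1122) (nat_lit 83) (.e (nat_lit 16470) (nat_lit 14) (.e (nat_lit 491540) (nat_lit 3) (.e (nat_lit 98373) (nat_lit 29) (.e (nat_lit 450563) (nat_lit 0) (.e (nat_lit 4202) (nat_lit 251) .nil)))))) (.g (nat_lit 4) .nil .nil))) 
(.lf (nat_lit 15575) (.g (nat_lit 938) (.e (nat_lit 1122) (nat_lit 83) (.e (nat_lit 16473) (nat_lit 14) (.e (nat_lit 491539) (nat_lit 3) .nil))) .nil))) (.nd (nat_lit 6) 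
(.lf (nat_lit 15543) (.g (nat_lit 3794) (.e (nat_lit 1122) (nat_lit 83) (.e (nat_lit 16473) (nat_lit 14) (.e (nat_lit 491535) (nat_lit 2) (.e (nat_lit 90170) (nat_lit 13) (.e (nat_lit 172106) (nat_lit 10) (.e (nat_lit 434202) (nat_lit 18) (.e (nat_lit 4185) (nat_lit 251) .nil))))))) (.g (nat_lit 5) .nil .nil))) 
(.lf (nat_lit 15607) (.g (nat_lit 3351) (.e (nat_lit 1122) (nat_lit 83) (.e (nat_lit 16473) (nat_lit 14) (.e (nat_lit 491544) (nat_lit 7) (.e (nat_lit 319531) (nat_lit 16) (.e (nat_lit 286759) (nat_lit 12) (.e (nat_lit 385045) (nat_lit 21) (.e (nat_lit 7637) (nat_lit 410) .nil))))))) (.g (nat_lit 4) .nil .nil)))))) (.nd (nat_lit 4) (.nd (nat_lit 5) (.nd (nat_lit 6) 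
(.lf (nat_lit 15503) (.g (nat_lit 4240) (.e (nat_lit 1122) (nat_lit 83) (.e (nat_lit 16470) (nat_lit 14) (.e (nat_lit 491537) (nat_lit 2) (.e (nat_lit 90170) (nat_lit 13) (.e (nat_lit 172106) (nat_lit 10) (.e (nat_lit 434202) (nat_lit 18) (.e (nat_lit 4185) (nat_lit 251) .nil))))))) (.g (nat_lit 4) .nil .nil))) 
(.lf (nat_lit 15567) (.g (nat_lit 4213) (.e (nat_lit 1122) (nat_lit 83) (.e (nat_lit 16473) (nat_lit 14) (.e (nat_lit 491538) (nat_lit 3) (.e (nat_lit 98370) (nat_lit 28) (.e (nat_lit 442430) (nat_lit 24) (.e (nat_lit 229523) (nat_lit 128) .nil)))))) (.g (nat_lit 0) .nil .nil)))) (.nd (nat_lit 6) 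
(.lf (nat_lit 15535) (.g (nat_lit 3897) (.e (nat_lit 1122) (nat_lit 83) (.e (nat_lit 16473) (nat_lit 14) (.e (nat_lit 491526) (nat_lit 0) (.e (nat_lit 1788) (nat_lit 119) (.e (nat_lit 516166) (nat_lit 12) (.e (nat_lit 450562) (nat_lit 0) (.e (nat_lit 4174) (nat_lit 251) .nil))))))) (.g (nat_lit 5) .nil .nil))) 
(.lf (nat_lit 15599) (.g (nat_lit 4261) (.e (nat_lit 1122) (nat_lit 83) (.e (nat_lit 16473) (nat_lit 14) (.e (nat_lit 491544) (nat_lit 7) (.e (nat_lit 319531) (nat_lit 16) (.e (nat_lit 286756) (nat_lit 10) (.e (nat_lit 344090) (nat_lit 18) (.e (nat_lit 5472) (nat_lit 306) .nil))))))) (.g (nat_lit 5) .nil .nil))))) (.nd (nat_lit 5) (.nd (nat_lit 6) 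
(.lf (nat_lit 15519) (.g (nat_lit 2700) (.e (nat_lit 1122) (nat_lit 83) (.e (nat_lit 16473) (nat_lit 14) (.e (nat_lit 491526) (nat_lit 0) (.e (nat_lit 1788) (nat_lit 119) (.e (nat_lit 516151) (nat_lit 9) (.e (nat_lit 426286) (nat_lit 10) (.e (nat_lit 434203) (nat_lit 18) (.e (nat_lit 4174) (nat_lit 251) .nil)))))))) (.g (nat_lit 4) .nil .nil))) 
(.lf (nat_lit 15583) (.g (nat_lit 2943) (.e (nat_lit 1122) (nat_lit 83) (.e (nat_lit 16473) (nat_lit 14) (.e (nat_lit 491544) (nat_lit 7) (.e (nat_lit 319530) (nat_lit 16) (.e (nat_lit 286759) (nat_lit 12) .nil))))) .nil))) (.nd (nat_lit 6) 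
(.lf (nat_lit 15551) (.g (nat_lit 2839) (.e (nat_lit 1122) (nat_lit 83) (.e (nat_lit 16473) (nat_lit 14) (.e (nat_lit 491535) (nat_lit 2) (.e (nat_lit 90176) (nat_lit 15) (.e (nat_lit 188439) (nat_lit 20) (.e (nat_lit 2422) (nat_lit 157) (.e (nat_lit 4197) (nat_lit 251) .nil))))))) (.g (nat_lit 4) .nil .nil))) 
(.lf (nat_lit 15615) (.g (nat_lit 3584) (.e (nat_lit 1122) (nat_lit 83) (.e (nat_lit 16473) (nat_lit 14) (.e (nat_lit 491544) (nat_lit 7) (.e (nat_lit 319534) (nat_lit 16) (.e (nat_lit 286749) (nat_lit 9) (.e (nat_lit 335997) (nat_lit 1) (.e (nat_lit 57914) (nat_lit 278) .nil))))))) (.g (nat_lit 4) .nil .nil))))))))))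

noncomputable def tv215 : DT := (.nd (nat_lit 0) (.nd (nat_lit 1) (.nd (nat_lit 2) (.nd (nat_lit 3) (.nd (nat_lit 4) (.nd (nat_lit 5) (.nd (nat_lit 6) 
(.lf (nat_lit 15616) (.g (nat_lit 3116) (.e (nat_lit 1122) (nat_lit 83) (.e (nat_lit 16473) (nat_lit 14) (.e (nat_lit 491544) (nat_lit 7) (.e (nat_lit 319534) (nat_lit 16) (.e (nat_lit 286756) (nat_lit 10) .nil))))) .nil)) 
(.lf (nat_lit 15680) (.g (nat_lit 2044) (.e (nat_lit 1123) (nat_lit 83) (.e (nat_lit 16470) (nat_lit 14) (.e (nat_lit 491540) (nat_lit 3) .nil))) .nil))) (.nd (nat_lit 6) 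
(.lf (nat_lit 15648) (.g (nat_lit 2357) (.e (nat_lit 1122) (nat_lit 83) (.e (nat_lit 16473) (nat_lit 14) (.e (nat_lit 491568) (nat_lit 13) (.e (nat_lit 393281) (nat_lit 23) (.e (nat_lit 426100) (nat_lit 1) .nil))))) .nil)) 
(.lf (nat_lit 15712) (.g (nat_lit 1730) (.e (nat_lit 1124) (nat_lit 83) (.e (nat_lit 16416) (nat_lit 3) (.e (nat_lit 204861) (nat_lit 26) (.e (nat_lit 335986) (nat_lit 1) (.e (nat_lit 57849) (nat_lit 252) .nil))))) .nil)))) (.nd (nat_lit 5) (.nd (nat_lit 6) 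
(.lf (nat_lit 15632) (.g (nat_lit 2491) (.e (nat_lit 1122) (nat_lit 83) (.e (nat_lit 16473) (nat_lit 14) (.e (nat_lit 491560) (nat_lit 10) (.e (nat_lit 344156) (nat_lit 36) .nil)))) .nil)) 
(.lf (nat_lit 15696) (.g (nat_lit 3356) (.e (nat_lit 1123) (nat_lit 83) (.e (nat_lit 16473) (nat_lit 14) (.e (nat_lit 491538) (nat_lit 3) (.e (nat_lit 98373) (nat_lit 29) (.e (nat_lit 450562) (nat_lit 0) .nil))))) .nil))) (.nd (nat_lit 6) 
(.lf (nat_lit 15664) (.g (nat_lit 1913) (.e (nat_lit 1123) (nat_lit 83) (.e (nat_lit 16448) (nat_lit 10) (.e (nat_lit 434268) (nat_lit 36) (.e (nat_lit 639007) (nat_lit 13) .nil)))) .nil)) 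
(.lf (nat_lit 15728) (.g (nat_lit 1670) (.e (nat_lit 1124) (nat_lit 83) (.e (nat_lit 16438) (nat_lit 9) (.e (nat_lit 426482) (nat_lit 27) (.e (nat_lit 336060) (nat_lit 7) (.e (nat_lit 319534) (nat_lit 16) .nil))))) .nil))))) (.nd (nat_lit 4) (.nd (nat_lit 5) (.nd (nat_lit 6) 
(.lf (nat_lit 15624) (.g (nat_lit 3278) (.e (nat_lit 1122) (nat_lit 83) (.e (nat_lit 16473) (nat_lit 14) (.e (nat_lit 491546) (nat_lit 9) (.e (nat_lit 336443) (nat_lit 32) (.e (nat_lit 466971) (nat_lit 21) (.e (nat_lit 164256) (nat_lit 215) .nil)))))) (.g (nat_lit 4) .nil .nil))) 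
(.lf (nat_lit 15688) (.g (nat_lit 2973) (.e (nat_lit 1123) (nat_lit 83) (.e (nat_lit 16473) (nat_lit 14) (.e (nat_lit 491526) (nat_lit 0) (.e (nat_lit 1788) (nat_lit 119) .nil)))) .nil))) (.nd (nat_lit 6) 
(.lf (nat_lit 15656) (.g (nat_lit 2473) (.e (nat_lit 1123) (nat_lit 83) (.e (nat_lit 16412) (nat_lit 2) (.e (nat_lit 196672) (nat_lit 15) (.e (nat_lit 81954) (nat_lit 23) (.e (nat_lit 98334) (nat_lit 18) .nil))))) .nil)) 
(.lf (nat_lit 15720) (.g (nat_lit 2957) (.e (nat_lit 1124) (nat_lit 83) (.e (nat_lit 16416) (nat_lit 3) (.e (nat_lit 204868) (nat_lit 29) (.e (nat_lit 360466) (nat_lit 3) (.e (nat_lit 516120) (nat_lit 1) (.e (nat_lit 171776) (nat_lit 278) .nil)))))) (.g (nat_lit 5) .nil .nil))))) (.nd (nat_lit 5) (.nd (nat_lit 6) 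
(.lf (nat_lit 15640) (.g (nat_lit 2371) (.e (nat_lit 1122) (nat_lit 83) (.e (nat_lit 16473) (nat_lit 14) (.e (nat_lit 491567) (nat_lit 13) (.e (nat_lit 393281) (nat_lit 23) (.e (nat_lit 426099) (nat_lit 1) (.e (nat_lit 164257) (nat_lit 215) .nil)))))) (.g (nat_lit 4) .nil .nil))) 
(.lf (nat_lit 15704) (.g (nat_lit 3510) (.e (nat_lit 1123) (nat_lit 83) (.e (nat_lit 16473) (nat_lit 14) (.e (nat_lit 491544) (nat_lit 7) (.e (nat_lit 319534) (nat_lit 16) (.e (nat_lit 286756) (nat_lit 10) .nil))))) .nil))) (.nd (nat_lit 6) 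
(.lf (nat_lit 15672) (.g (nat_lit 1627) (.e (nat_lit 1123) (nat_lit 83) (.e (nat_lit 16468) (nat_lit 13) (.e (nat_lit 483372) (nat_lit 21) (.e (nat_lit 319504) (nat_lit 10) .nil)))) .nil)) 
(.lf (nat_lit 15736) (.g (nat_lit 2440) (.e (nat_lit 1124) (nat_lit 83) (.e (nat_lit 16448) (nat_lit 10) (.e (nat_lit 434268) (nat_lit 36) (.e (nat_lit 639007) (nat_lit 13) (.e (nat_lit 1586) (nat_lit 111) (.e (nat_lit 360450) (nat_lit 0) (.e (nat_lit 5439) (nat_lit 306) .nil))))))) (.g (nat_lit 4) .nil .nil))))))) (.nd (nat_lit 3) (.nd (nat_lit 4) (.nd (nat_lit 5) (.nd (nat_lit 6) 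
(.lf (nat_lit 15620) (.g (nat_lit 3242) (.e (nat_lit 1122) (nat_lit 83) (.e (nat_lit 16473) (nat_lit 14) (.e (nat_lit 491544) (nat_lit 7) (.e (nat_lit 319534) (nat_lit 16) (.e (nat_lit 286756) (nat_lit 10) (.e (nat_lit 344097) (nat_lit 18) (.e (nat_lit 5463) (nat_lit 306) .nil))))))) (.g (nat_lit 4) .nil .nil))) 
(.lf (nat_lit 15684) (.g (nat_lit 4240) (.e (nat_lit 1123) (nat_lit 83) (.e (nat_lit 16470) (nat_lit 14) (.e (nat_lit 491540) (nat_lit 3) (.e (nat_lit 98373) (nat_lit 29) (.e (nat_lit 450563) (nat_lit 0) (.e (nat_lit 4177) (nat_lit 251) .nil)))))) (.g (nat_lit 4) .nil .nil)))) (.nd (nat_lit 6) 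
(.lf (nat_lit 15652) (.g (nat_lit 3023) (.e (nat_lit 1122) (nat_lit 83) (.e (nat_lit 16473) (nat_lit 14) (.e (nat_lit 491568) (nat_lit 13) (.e (nat_lit 393283) (nat_lit 24) (.e (nat_lit 434200) (nat_lit 18) (.e (nat_lit 4810) (nat_lit 281) .nil)))))) (.g (nat_lit 5) .nil .nil))) 
(.lf (nat_lit 15716) (.g (nat_lit 3138) (.e (nat_lit 1124) (nat_lit 83) (.e (nat_lit 16416) (nat_lit 3) (.e (nat_lit 204863) (nat_lit 27) (.e (nat_lit 344097) (nat_lit 18) (.e (nat_lit 5195) (nat_lit 294) .nil))))) .nil)))) (.nd (nat_lit 5) (.nd (nat_lit 6) 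
(.lf (nat_lit 15636) (.g (nat_lit 2307) (.e (nat_lit 1122) (nat_lit 83) (.e (nat_lit 16473) (nat_lit 14) (.e (nat_lit 491560) (nat_lit 10) (.e (nat_lit 344179) (nat_lit 44) (.e (nat_lit 778466) (nat_lit 11) (.e (nat_lit 24599) (nat_lit 1) (.e (nat_lit 57760) (nat_lit 215) .nil))))))) (.g (nat_lit 4) .nil .nil))) 
(.lf (nat_lit 15700) (.g (nat_lit 2565) (.e (nat_lit 1123) (nat_lit 83) (.e (nat_lit 16473) (nat_lit 14) (.e (nat_lit 491544) (nat_lit 7) (.e (nat_lit 319531) (nat_lit 16) .nil)))) .nil))) (.nd (nat_lit 6) 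
(.lf (nat_lit 15668) (.g (nat_lit 1927) (.e (nat_lit 1123) (nat_lit 83) (.e (nat_lit 16448) (nat_lit 10) (.e (nat_lit 434268) (nat_lit 36) (.e (nat_lit 639020) (nat_lit 16) (.e (nat_lit 65619) (nat_lit 10) .nil))))) .nil)) 
(.lf (nat_lit 15732) (.g (nat_lit 1921) (.e (nat_lit 1124) (nat_lit 83) (.e (nat_lit 16448) (nat_lit 10) (.e (nat_lit 434268) (nat_lit 36) (.e (nat_lit 639005) (nat_lit 13) (.e (nat_lit 1586) (nat_lit 111) .nil))))) .nil))))) (.nd (nat_lit 4) (.nd (nat_lit 5) (.nd (nat_lit 6) 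
(.lf (nat_lit 15628) (.g (nat_lit 842) (.e (nat_lit 1122) (nat_lit 83) (.e (nat_lit 16473) (nat_lit 14) (.e (nat_lit 491558) (nat_lit 10) .nil))) .nil)) 
(.lf (nat_lit 15692) (.g (nat_lit 2954) (.e (nat_lit 1123) (nat_lit 83) (.e (nat_lit 16473) (nat_lit 14) (.e (nat_lit 491535) (nat_lit 2) (.e (nat_lit 90170) (nat_lit 13) (.e (nat_lit 172106) (nat_lit 10) .nil))))) .nil))) (.nd (nat_lit 6) 
(.lf (nat_lit 15660) (.g (nat_lit 1338) (.e (nat_lit 1123) (nat_lit 83) (.e (nat_lit 16438) (nat_lit 9) (.e (nat_lit 426482) (nat_lit 27) (.e (nat_lit 336060) (nat_lit 7) .nil)))) .nil)) 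
(.lf (nat_lit 15724) (.g (nat_lit 4036) (.e (nat_lit 1124) (nat_lit 83) (.e (nat_lit 16416) (nat_lit 3) (.e (nat_lit 204869) (nat_lit 29) (.e (nat_lit 360474) (nat_lit 8) (.e (nat_lit 557091) (nat_lit 12) (.e (nat_lit 163842) (nat_lit 0) (.e (nat_lit 6535) (nat_lit 351) .nil))))))) (.g (nat_lit 7) .nil .nil))))) (.nd (nat_lit 5) (.nd (nat_lit 6) 
(.lf (nat_lit 15644) (.g (nat_lit 614) (.e (nat_lit 1122) (nat_lit 83) (.e (nat_lit 16473) (nat_lit 14) (.e (nat_lit 491568) (nat_lit 13) .nil))) .nil)) 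
(.lf (nat_lit 15708) (.g (nat_lit 2483) (.e (nat_lit 1124) (nat_lit 83) (.e (nat_lit 16412) (nat_lit 2) (.e (nat_lit 196672) (nat_lit 15) (.e (nat_lit 81954) (nat_lit 23) (.e (nat_lit 98334) (nat_lit 18) (.e (nat_lit 171776) (nat_lit 278) .nil)))))) (.g (nat_lit 5) .nil .nil)))) (.nd (nat_lit 6) 
(.lf (nat_lit 15676) (.g (nat_lit 4074) (.e (nat_lit 1123) (nat_lit 83) (.e (nat_lit 16470) (nat_lit 14) (.e (nat_lit 491537) (nat_lit 2) (.e (nat_lit 90170) (nat_lit 13) (.e (nat_lit 172106) (nat_lit 10) (.e (nat_lit 434202) (nat_lit 18) (.e (nat_lit 4168) (nat_lit 251) .nil))))))) (.g (nat_lit 4) .nil .nil))) 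
(.lf (nat_lit 15740) (.g (nat_lit 1392) (.e (nat_lit 1124) (nat_lit 83) (.e (nat_lit 16448) (nat_lit 10) (.e (nat_lit 434268) (nat_lit 36) (.e (nat_lit 639020) (nat_lit 16) .nil)))) .nil))))))) (.nd (nat_lit 2) (.nd (nat_lit 3) (.nd (nat_lit 4) (.nd (nat_lit 5) (.nd (nat_lit 6) 
(.lf (nat_lit 15618) (.g (nat_lit 3282) (.e (nat_lit 1122) (nat_lit 83) (.e (nat_lit 16473) (nat_lit 14) (.e (nat_lit 491544) (nat_lit 7) (.e (nat_lit 319534) (nat_lit 16) (.e (nat_lit 286756) (nat_lit 10) (.e (nat_lit 344090) (nat_lit 18) (.e (nat_lit 5441) (nat_lit 306) .nil))))))) (.g (nat_lit 4) .nil .nil))) 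
(.lf (nat_lit 15682) (.g (nat_lit 4183) (.e (nat_lit 1123) (nat_lit 83) (.e (nat_lit 16470) (nat_lit 14) (.e (nat_lit 491540) (nat_lit 3) (.e (nat_lit 98373) (nat_lit 29) (.e (nat_lit 450562) (nat_lit 0) .nil))))) .nil))) (.nd (nat_lit 6) 
(.lf (nat_lit 15650) (.g (nat_lit 2057) (.e (nat_lit 1122) (nat_lit 83) (.e (nat_lit 16473) (nat_lit 14) (.e (nat_lit 491568) (nat_lit 13) (.e (nat_lit 393282) (nat_lit 24) .nil)))) .nil)) 
(.lf (nat_lit 15714) (.g (nat_lit 2679) (.e (nat_lit 1124) (nat_lit 83) (.e (nat_lit 16416) (nat_lit 3) (.e (nat_lit 204861) (nat_lit 26) (.e (nat_lit 335988) (nat_lit 1) (.e (nat_lit 57854) (nat_lit 252) (.e (nat_lit 57378) (nat_lit 3) (.e (nat_lit 98333) (nat_lit 18) (.e (nat_lit 164379) (nat_lit 254) .nil)))))))) (.g (nat_lit 4) .nil .nil))))) (.nd (nat_lit 5) (.nd (nat_lit 6) 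
(.lf (nat_lit 15634) (.g (nat_lit 2628) (.e (nat_lit 1122) (nat_lit 83) (.e (nat_lit 16473) (nat_lit 14) (.e (nat_lit 491560) (nat_lit 10) (.e (nat_lit 344174) (nat_lit 42) .nil)))) .nil)) 
(.lf (nat_lit 15698) (.g (nat_lit 2494) (.e (nat_lit 1123) (nat_lit 83) (.e (nat_lit 16473) (nat_lit 14) (.e (nat_lit 491539) (nat_lit 3) (.e (nat_lit 98373) (nat_lit 29) .nil)))) .nil))) (.nd (nat_lit 6) 
(.lf (nat_lit 15666) (.g (nat_lit 2191) (.e (nat_lit 1123) (nat_lit 83) (.e (nat_lit 16448) (nat_lit 10) (.e (nat_lit 434268) (nat_lit 36) (.e (nat_lit 639007) (nat_lit 13) (.e (nat_lit 1595) (nat_lit 111) .nil))))) .nil)) 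
(.lf (nat_lit 15730) (.g (nat_lit 1772) (.e (nat_lit 1124) (nat_lit 83) (.e (nat_lit 16438) (nat_lit 9) (.e (nat_lit 426482) (nat_lit 27) (.e (nat_lit 336060) (nat_lit 7) (.e (nat_lit 319534) (nat_lit 16) (.e (nat_lit 286728) (nat_lit 0) (.e (nat_lit 992) (nat_lit 81) (.e (nat_lit 7605) (nat_lit 410) .nil)))))))) (.g (nat_lit 4) .nil .nil)))))) (.nd (nat_lit 4) (.nd (nat_lit 5) (.nd (nat_lit 6) 
(.lf (nat_lit 15626) (.g (nat_lit 2218) (.e (nat_lit 1122) (nat_lit 83) (.e (nat_lit 16473) (nat_lit 14) (.e (nat_lit 491547) (nat_lit 9) (.e (nat_lit 336443) (nat_lit 32) .nil)))) .nil)) 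
(.lf (nat_lit 15690) (.g (nat_lit 3346) (.e (nat_lit 1123) (nat_lit 83) (.e (nat_lit 16473) (nat_lit 14) (.e (nat_lit 491526) (nat_lit 0) (.e (nat_lit 1788) (nat_lit 119) (.e (nat_lit 516166) (nat_lit 12) .nil))))) .nil))) (.nd (nat_lit 6) 
(.lf (nat_lit 15658) (.g (nat_lit 3705) (.e (nat_lit 1123) (nat_lit 83) (.e (nat_lit 16416) (nat_lit 3) (.e (nat_lit 204869) (nat_lit 29) (.e (nat_lit 360474) (nat_lit 8) (.e (nat_lit 557091) (nat_lit 12) .nil))))) .nil)) 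
(.lf (nat_lit 15722) (.g (nat_lit 1933) (.e (nat_lit 1124) (nat_lit 83) (.e (nat_lit 16416) (nat_lit 3) (.e (nat_lit 204869) (nat_lit 29) (.e (nat_lit 368384) (nat_lit 5) .nil)))) .nil)))) (.nd (nat_lit 5) (.nd (nat_lit 6) 
(.lf (nat_lit 15642) (.g (nat_lit 3196) (.e (nat_lit 1122) (nat_lit 83) (.e (nat_lit 16473) (nat_lit 14) (.e (nat_lit 491567) (nat_lit 13) (.e (nat_lit 393281) (nat_lit 23) (.e (nat_lit 426100) (nat_lit 1) (.e (nat_lit 164258) (nat_lit 215) .nil)))))) (.g (nat_lit 0) .nil .nil))) 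
(.lf (nat_lit 15706) (.g (nat_lit 3097) (.e (nat_lit 1123) (nat_lit 83) (.e (nat_lit 16473) (nat_lit 14) (.e (nat_lit 491568) (nat_lit 13) (.e (nat_lit 393283) (nat_lit 24) .nil)))) .nil))) (.nd (nat_lit 6) 
(.lf (nat_lit 15674) (.g (nat_lit 1840) (.e (nat_lit 1123) (nat_lit 83) (.e (nat_lit 16468) (nat_lit 13) (.e (nat_lit 483372) (nat_lit 21) (.e (nat_lit 319533) (nat_lit 16) (.e (nat_lit 286720) (nat_lit 0) .nil))))) .nil)) 
(.lf (nat_lit 15738) (.g (nat_lit 2911) (.e (nat_lit 1124) (nat_lit 83) (.e (nat_lit 16448) (nat_lit 10) (.e (nat_lit 434268) (nat_lit 36) (.e (nat_lit 639007) (nat_lit 13) (.e (nat_lit 1586) (nat_lit 111) (.e (nat_lit 360451) (nat_lit 0) (.e (nat_lit 5429) (nat_lit 306) .nil))))))) (.g (nat_lit 5) .nil .nil))))))) (.nd (nat_lit 3) (.nd (nat_lit 4) (.nd (nat_lit 5) (.nd (nat_lit 6) 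
(.lf (nat_lit 15622) (.g (nat_lit 1032) (.e (nat_lit 1122) (nat_lit 83) (.e (nat_lit 16473) (nat_lit 14) (.e (nat_lit 491546) (nat_lit 9) .nil))) .nil)) 
(.lf (nat_lit 15686) (.g (nat_lit 3016) (.e (nat_lit 1123) (nat_lit 83) (.e (nat_lit 16470) (nat_lit 14) (.e (nat_lit 491571) (nat_lit 13) (.e (nat_lit 393283) (nat_lit 24) .nil)))) .nil))) (.nd (nat_lit 6) 
(.lf (nat_lit 15654) (.g (nat_lit 2037) (.e (nat_lit 1122) (nat_lit 83) (.e (nat_lit 16473) (nat_lit 14) (.e (nat_lit 491568) (nat_lit 13) (.e (nat_lit 393287) (nat_lit 25) .nil)))) .nil)) 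
(.lf (nat_lit 15718) (.g (nat_lit 2973) (.e (nat_lit 1124) (nat_lit 83) (.e (nat_lit 16416) (nat_lit 3) (.e (nat_lit 204868) (nat_lit 29) (.e (nat_lit 360466) (nat_lit 3) (.e (nat_lit 516117) (nat_lit 1) (.e (nat_lit 171776) (nat_lit 278) .nil)))))) (.g (nat_lit 5) .nil .nil))))) (.nd (nat_lit 5) (.nd (nat_lit 6) 
(.lf (nat_lit 15638) (.g (nat_lit 1702) (.e (nat_lit 1122) (nat_lit 83) (.e (nat_lit 16473) (nat_lit 14) (.e (nat_lit 491567) (nat_lit 13) (.e (nat_lit 393281) (nat_lit 23) .nil)))) .nil)) 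
(.lf (nat_lit 15702) (.g (nat_lit 2637) (.e (nat_lit 1123) (nat_lit 83) (.e (nat_lit 16473) (nat_lit 14) (.e (nat_lit 491544) (nat_lit 7) (.e (nat_lit 319533) (nat_lit 16) .nil)))) .nil))) (.nd (nat_lit 6) 
(.lf (nat_lit 15670) (.g (nat_lit 2498) (.e (nat_lit 1123) (nat_lit 83) (.e (nat_lit 16466) (nat_lit 13) (.e (nat_lit 483413) (nat_lit 27) (.e (nat_lit 401447) (nat_lit 10) .nil)))) .nil)) 
(.lf (nat_lit 15734) (.g (nat_lit 1881) (.e (nat_lit 1124) (nat_lit 83) (.e (nat_lit 16448) (nat_lit 10) (.e (nat_lit 434268) (nat_lit 36) (.e (nat_lit 639007) (nat_lit 13) .nil)))) .nil))))) (.nd (nat_lit 4) (.nd (nat_lit 5) (.nd (nat_lit 6) 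
(.lf (nat_lit 15630) (.g (nat_lit 3471) (.e (nat_lit 1122) (nat_lit 83) (.e (nat_lit 16473) (nat_lit 14) (.e (nat_lit 491559) (nat_lit 10) (.e (nat_lit 344177) (nat_lit 43) (.e (nat_lit 770072) (nat_lit 8) (.e (nat_lit 65574) (nat_lit 4) (.e (nat_lit 123112) (nat_lit 215) .nil))))))) (.g (nat_lit 4) .nil .nil))) 
(.lf (nat_lit 15694) (.g (nat_lit 1469) (.e (nat_lit 1123) (nat_lit 83) (.e (nat_lit 16473) (nat_lit 14) (.e (nat_lit 491538) (nat_lit 3) .nil))) .nil))) (.nd (nat_lit 6) 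
(.lf (nat_lit 15662) (.g (nat_lit 1696) (.e (nat_lit 1123) (nat_lit 83) (.e (nat_lit 16448) (nat_lit 10) (.e (nat_lit 434268) (nat_lit 36) (.e (nat_lit 639005) (nat_lit 13) .nil)))) .nil)) 
(.lf (nat_lit 15726) (.g (nat_lit 1311) (.e (nat_lit 1124) (nat_lit 83) (.e (nat_lit 16436) (nat_lit 9) (.e (nat_lit 426131) (nat_lit 3) (.e (nat_lit 204885) (nat_lit 33) .nil)))) .nil)))) (.nd (nat_lit 5) (.nd (nat_lit 6) 
(.lf (nat_lit 15646) (.g (nat_lit 1932) (.e (nat_lit 1122) (nat_lit 83) (.e (nat_lit 16473) (nat_lit 14) (.e (nat_lit 491568) (nat_lit 13) (.e (nat_lit 393281) (nat_lit 23) .nil)))) .nil)) 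
(.lf (nat_lit 15710) (.g (nat_lit 1597) (.e (nat_lit 1124) (nat_lit 83) (.e (nat_lit 16412) (nat_lit 2) (.e (nat_lit 196681) (nat_lit 17) (.e (nat_lit 131088) (nat_lit 1) .nil)))) .nil))) (.nd (nat_lit 6) 
(.lf (nat_lit 15678) (.g (nat_lit 4087) (.e (nat_lit 1123) (nat_lit 83) (.e (nat_lit 16470) (nat_lit 14) (.e (nat_lit 491537) (nat_lit 2) (.e (nat_lit 90170) (nat_lit 13) (.e (nat_lit 172106) (nat_lit 10) (.e (nat_lit 434202) (nat_lit 18) (.e (nat_lit 4178) (nat_lit 251) .nil))))))) (.g (nat_lit 4) .nil .nil))) 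
(.lf (nat_lit 15742) (.g (nat_lit 2869) (.e (nat_lit 1124) (nat_lit 83) (.e (nat_lit 16448) (nat_lit 10) (.e (nat_lit 434268) (nat_lit 36) (.e (nat_lit 639020) (nat_lit 16) (.e (nat_lit 65617) (nat_lit 10) (.e (nat_lit 344091) (nat_lit 18) (.e (nat_lit 5439) (nat_lit 306) .nil))))))) (.g (nat_lit 5) .nil .nil))))))))) 
(.nd (nat_lit 1) (.nd (nat_lit 2) (.nd (nat_lit 3) (.nd (nat_lit 4) (.nd (nat_lit 5) 
(.nd (nat_lit 6) 
(.lf (nat_lit 15617) (.g (nat_lit 3156) (.e (nat_lit 1122) (nat_lit 83) (.e (nat_lit 16473) (nat_lit 14) (.e (nat_lit 491544) (nat_lit 7) (.e (nat_lit 319534) (nat_lit 16) (.e (nat_lit 286756) (nat_lit 10) (.e (nat_lit 344088) (nat_lit 18) (.e (nat_lit 5474) (nat_lit 306) .nil))))))) (.g (nat_lit 4) .nil .nil))) 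
(.lf (nat_lit 15681) (.g (nat_lit 3252) (.e (nat_lit 1123) (nat_lit 83) (.e (nat_lit 16470) (nat_lit 14) (.e (nat_lit 491540) (nat_lit 3) (.e (nat_lit 98373) (nat_lit 29) .nil)))) .nil))) (.nd (nat_lit 6) 
(.lf (nat_lit 15649) (.g (nat_lit 3332) (.e (nat_lit 1122) (nat_lit 83) (.e (nat_lit 16473) (nat_lit 14) (.e (nat_lit 491568) (nat_lit 13) (.e (nat_lit 393281) (nat_lit 23) (.e (nat_lit 426100) (nat_lit 1) (.e (nat_lit 164258) (nat_lit 215) .nil)))))) (.g (nat_lit 0) .nil .nil))) 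
(.lf (nat_lit 15713) (.g (nat_lit 1483) (.e (nat_lit 1124) (nat_lit 83) (.e (nat_lit 16416) (nat_lit 3) (.e (nat_lit 204861) (nat_lit 26) (.e (nat_lit 335987) (nat_lit 1) .nil)))) .nil)))) (.nd (nat_lit 5) (.nd (nat_lit 6) 
(.lf (nat_lit 15633) (.g (nat_lit 2511) (.e (nat_lit 1122) (nat_lit 83) (.e (nat_lit 16473) (nat_lit 14) (.e (nat_lit 491560) (nat_lit 10) (.e (nat_lit 344157) (nat_lit 36) .nil)))) .nil)) 
(.lf (nat_lit 15697) (.g (nat_lit 2533) (.e (nat_lit 1123) (nat_lit 83) (.e (nat_lit 16473) (nat_lit 14) (.e (nat_lit 491538) (nat_lit 3) (.e (nat_lit 98381) (nat_lit 31) .nil)))) .nil))) (.nd (nat_lit 6) 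
(.lf (nat_lit 15665) (.g (nat_lit 2220) (.e (nat_lit 1123) (nat_lit 83) (.e (nat_lit 16448) (nat_lit 10) (.e (nat_lit 434268) (nat_lit 36) (.e (nat_lit 639007) (nat_lit 13) (.e (nat_lit 1586) (nat_lit 111) .nil))))) .nil)) 
(.lf (nat_lit 15729) (.g (nat_lit 1765) (.e (nat_lit 1124) (nat_lit 83) (.e (nat_lit 16438) (nat_lit 9) (.e (nat_lit 426482) (nat_lit 27) (.e (nat_lit 336060) (nat_lit 7) (.e (nat_lit 319534) (nat_lit 16) (.e (nat_lit 286728) (nat_lit 0) (.e (nat_lit 990) (nat_lit 81) (.e (nat_lit 7616) (nat_lit 410) .nil)))))))) (.g (nat_lit 4) .nil .nil)))))) (.nd (nat_lit 4) (.nd (nat_lit 5) (.nd (nat_lit 6) 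
(.lf (nat_lit 15625) (.g (nat_lit 1089) (.e (nat_lit 1122) (nat_lit 83) (.e (nat_lit 16473) (nat_lit 14) (.e (nat_lit 491547) (nat_lit 9) .nil))) .nil)) 
(.lf (nat_lit 15689) (.g (nat_lit 3430) (.e (nat_lit 1123) (nat_lit 83) (.e (nat_lit 16473) (nat_lit 14) (.e (nat_lit 491526) (nat_lit 0) (.e (nat_lit 1788) (nat_lit 119) (.e (nat_lit 516151) (nat_lit 9) .nil))))) .nil))) (.nd (nat_lit 6) 
(.lf (nat_lit 15657) (.g (nat_lit 1476) (.e (nat_lit 1123) (nat_lit 83) (.e (nat_lit 16416) (nat_lit 3) (.e (nat_lit 204868) (nat_lit 29) .nil))) .nil)) 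
(.lf (nat_lit 15721) (.g (nat_lit 1789) (.e (nat_lit 1124) (nat_lit 83) (.e (nat_lit 16416) (nat_lit 3) (.e (nat_lit 204868) (nat_lit 29) (.e (nat_lit 368384) (nat_lit 5) .nil)))) .nil)))) (.nd (nat_lit 5) (.nd (nat_lit 6) 
(.lf (nat_lit 15641) (.g (nat_lit 2249) (.e (nat_lit 1122) (nat_lit 83) (.e (nat_lit 16473) (nat_lit 14) (.e (nat_lit 491567) (nat_lit 13) (.e (nat_lit 393281) (nat_lit 23) (.e (nat_lit 426100) (nat_lit 1) (.e (nat_lit 164256) (nat_lit 215) .nil)))))) (.g (nat_lit 4) .nil .nil))) 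
(.lf (nat_lit 15705) (.g (nat_lit 1174) (.e (nat_lit 1123) (nat_lit 83) (.e (nat_lit 16473) (nat_lit 14) (.e (nat_lit 491560) (nat_lit 10) .nil))) .nil))) (.nd (nat_lit 6) 
(.lf (nat_lit 15673) (.g (nat_lit 1166) (.e (nat_lit 1123) (nat_lit 83) (.e (nat_lit 16468) (nat_lit 13) (.e (nat_lit 483372) (nat_lit 21) (.e (nat_lit 319533) (nat_lit 16) .nil)))) .nil)) 
(.lf (nat_lit 15737) (.g (nat_lit 3728) (.e (nat_lit 1124) (nat_lit 83) (.e (nat_lit 16448) (nat_lit 10) (.e (nat_lit 434268) (nat_lit 36) (.e (nat_lit 639007) (nat_lit 13) (.e (nat_lit 1586) (nat_lit 111) (.e (nat_lit 360450) (nat_lit 0) (.e (nat_lit 5456) (nat_lit 306) .nil))))))) (.g (nat_lit 6) .nil .nil))))))) (.nd (nat_lit 3) (.nd (nat_lit 4) (.nd (nat_lit 5) (.nd (nat_lit 6) 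
(.lf (nat_lit 15621) (.g (nat_lit 3165) (.e (nat_lit 1122) (nat_lit 83) (.e (nat_lit 16473) (nat_lit 14) (.e (nat_lit 491544) (nat_lit 7) (.e (nat_lit 319534) (nat_lit 16) (.e (nat_lit 286756) (nat_lit 10) (.e (nat_lit 344097) (nat_lit 18) (.e (nat_lit 5480) (nat_lit 306) .nil))))))) (.g (nat_lit 4) .nil .nil))) 
(.lf (nat_lit 15685) (.g (nat_lit 4387) (.e (nat_lit 1123) (nat_lit 83) (.e (nat_lit 16470) (nat_lit 14) (.e (nat_lit 491540) (nat_lit 3) (.e (nat_lit 98373) (nat_lit 29) (.e (nat_lit 450567) (nat_lit 0) .nil))))) .nil))) (.nd (nat_lit 6) 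
(.lf (nat_lit 15653) (.g (nat_lit 2643) (.e (nat_lit 1122) (nat_lit 83) (.e (nat_lit 16473) (nat_lit 14) (.e (nat_lit 491568) (nat_lit 13) (.e (nat_lit 393283) (nat_lit 24) (.e (nat_lit 434202) (nat_lit 18) .nil))))) .nil)) 
(.lf (nat_lit 15717) (.g (nat_lit 2456) (.e (nat_lit 1124) (nat_lit 83) (.e (nat_lit 16416) (nat_lit 3) (.e (nat_lit 204868) (nat_lit 29) (.e (nat_lit 360466) (nat_lit 3) (.e (nat_lit 516115) (nat_lit 1) (.e (nat_lit 171776) (nat_lit 278) .nil)))))) (.g (nat_lit 5) .nil .nil))))) (.nd (nat_lit 5) (.nd (nat_lit 6) 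
(.lf (nat_lit 15637) (.g (nat_lit 935) (.e (nat_lit 1122) (nat_lit 83) (.e (nat_lit 16473) (nat_lit 14) (.e (nat_lit 491567) (nat_lit 13) .nil))) .nil)) 
(.lf (nat_lit 15701) (.g (nat_lit 3230) (.e (nat_lit 1123) (nat_lit 83) (.e (nat_lit 16473) (nat_lit 14) (.e (nat_lit 491544) (nat_lit 7) (.e (nat_lit 319531) (nat_lit 16) (.e (nat_lit 286756) (nat_lit 10) .nil))))) .nil))) (.nd (nat_lit 6) 
(.lf (nat_lit 15669) (.g (nat_lit 1540) (.e (nat_lit 1123) (nat_lit 83) (.e (nat_lit 16466) (nat_lit 13) (.e (nat_lit 483413) (nat_lit 27) .nil))) .nil)) 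
(.lf (nat_lit 15733) (.g (nat_lit 2466) (.e (nat_lit 1124) (nat_lit 83) (.e (nat_lit 16448) (nat_lit 10) (.e (nat_lit 434268) (nat_lit 36) (.e (nat_lit 639005) (nat_lit 13) (.e (nat_lit 1586) (nat_lit 111) (.e (nat_lit 360451) (nat_lit 0) (.e (nat_lit 5429) (nat_lit 306) .nil))))))) (.g (nat_lit 5) .nil .nil)))))) (.nd (nat_lit 4) (.nd (nat_lit 5) (.nd (nat_lit 6) 
(.lf (nat_lit 15629) (.g (nat_lit 2509) (.e (nat_lit 1122) (nat_lit 83) (.e (nat_lit 16473) (nat_lit 14) (.e (nat_lit 491559) (nat_lit 10) (.e (nat_lit 344177) (nat_lit 43) .nil)))) .nil)) 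
(.lf (nat_lit 15693) (.g (nat_lit 2853) (.e (nat_lit 1123) (nat_lit 83) (.e (nat_lit 16473) (nat_lit 14) (.e (nat_lit 491535) (nat_lit 2) (.e (nat_lit 90176) (nat_lit 15) .nil)))) .nil))) (.nd (nat_lit 6) 
(.lf (nat_lit 15661) (.g (nat_lit 682) (.e (nat_lit 1123) (nat_lit 83) (.e (nat_lit 16448) (nat_lit 10) (.e (nat_lit 434268) (nat_lit 36) .nil))) .nil)) 
(.lf (nat_lit 15725) (.g (nat_lit 979) (.e (nat_lit 1124) (nat_lit 83) (.e (nat_lit 16416) (nat_lit 3) (.e (nat_lit 204872) (nat_lit 30) .nil))) .nil)))) (.nd (nat_lit 5) (.nd (nat_lit 6) 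
(.lf (nat_lit 15645) (.g (nat_lit 2037) (.e (nat_lit 1122) (nat_lit 83) (.e (nat_lit 16473) (nat_lit 14) (.e (nat_lit 491568) (nat_lit 13) (.e (nat_lit 393279) (nat_lit 23) .nil)))) .nil)) 
(.lf (nat_lit 15709) (.g (nat_lit 1708) (.e (nat_lit 1124) (nat_lit 83) (.e (nat_lit 16412) (nat_lit 2) (.e (nat_lit 196681) (nat_lit 17) (.e (nat_lit 131086) (nat_lit 1) .nil)))) .nil))) (.nd (nat_lit 6) 
(.lf (nat_lit 15677) (.g (nat_lit 3917) (.e (nat_lit 1123) (nat_lit 83) (.e (nat_lit 16470) (nat_lit 14) (.e (nat_lit 491537) (nat_lit 2) (.e (nat_lit 90170) (nat_lit 13) (.e (nat_lit 172106) (nat_lit 10) (.e (nat_lit 434202) (nat_lit 18) (.e (nat_lit 4177) (nat_lit 251) .nil))))))) (.g (nat_lit 4) .nil .nil))) 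
(.lf (nat_lit 15741) (.g (nat_lit 1885) (.e (nat_lit 1124) (nat_lit 83) (.e (nat_lit 16448) (nat_lit 10) (.e (nat_lit 434268) (nat_lit 36) (.e (nat_lit 639020) (nat_lit 16) (.e (nat_lit 65610) (nat_lit 10) .nil))))) .nil))))))) (.nd (nat_lit 2) (.nd (nat_lit 3) (.nd (nat_lit 4) (.nd (nat_lit 5) (.nd (nat_lit 6) 
(.lf (nat_lit 15619) (.g (nat_lit 3121) (.e (nat_lit 1122) (nat_lit 83) (.e (nat_lit 16473) (nat_lit 14) (.e (nat_lit 491544) (nat_lit 7) (.e (nat_lit 319534) (nat_lit 16) (.e (nat_lit 286756) (nat_lit 10) (.e (nat_lit 344090) (nat_lit 18) (.e (nat_lit 5467) (nat_lit 306) .nil))))))) (.g (nat_lit 4) .nil .nil))) 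
(.lf (nat_lit 15683) (.g (nat_lit 4233) (.e (nat_lit 1123) (nat_lit 83) (.e (nat_lit 16470) (nat_lit 14) (.e (nat_lit 491540) (nat_lit 3) (.e (nat_lit 98373) (nat_lit 29) (.e (nat_lit 450563) (nat_lit 0) .nil))))) .nil))) (.nd (nat_lit 6) 
(.lf (nat_lit 15651) (.g (nat_lit 1966) (.e (nat_lit 1122) (nat_lit 83) (.e (nat_lit 16473) (nat_lit 14) (.e (nat_lit 491568) (nat_lit 13) (.e (nat_lit 393283) (nat_lit 24) .nil)))) .nil)) 
(.lf (nat_lit 15715) (.g (nat_lit 2643) (.e (nat_lit 1124) (nat_lit 83) (.e (nat_lit 16416) (nat_lit 3) (.e (nat_lit 204861) (nat_lit 26) (.e (nat_lit 335988) (nat_lit 1) (.e (nat_lit 57854) (nat_lit 252) (.e (nat_lit 57378) (nat_lit 3) (.e (nat_lit 98335) (nat_lit 18) (.e (nat_lit 164384) (nat_lit 254) .nil)))))))) (.g (nat_lit 4) .nil .nil))))) (.nd (nat_lit 5) (.nd (nat_lit 6) 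
(.lf (nat_lit 15635) (.g (nat_lit 2580) (.e (nat_lit 1122) (nat_lit 83) (.e (nat_lit 16473) (nat_lit 14) (.e (nat_lit 491560) (nat_lit 10) (.e (nat_lit 344177) (nat_lit 43) .nil)))) .nil)) 
(.lf (nat_lit 15699) (.g (nat_lit 1183) (.e (nat_lit 1123) (nat_lit 83) (.e (nat_lit 16473) (nat_lit 14) (.e (nat_lit 491544) (nat_lit 7) .nil))) .nil))) (.nd (nat_lit 6) 
(.lf (nat_lit 15667) (.g (nat_lit 1351) (.e (nat_lit 1123) (nat_lit 83) (.e (nat_lit 16448) (nat_lit 10) (.e (nat_lit 434268) (nat_lit 36) (.e (nat_lit 639020) (nat_lit 16) .nil)))) .nil)) 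
(.lf (nat_lit 15731) (.g (nat_lit 1737) (.e (nat_lit 1124) (nat_lit 83) (.e (nat_lit 16448) (nat_lit 10) (.e (nat_lit 434268) (nat_lit 36) (.e (nat_lit 639005) (nat_lit 13) .nil)))) .nil))))) (.nd (nat_lit 4) (.nd (nat_lit 5) (.nd (nat_lit 6) 
(.lf (nat_lit 15627) (.g (nat_lit 1244) (.e (nat_lit 1122) (nat_lit 83) (.e (nat_lit 16473) (nat_lit 14) (.e (nat_lit 491556) (nat_lit 9) .nil))) .nil)) 
(.lf (nat_lit 15691) (.g (nat_lit 2755) (.e (nat_lit 1123) (nat_lit 83) (.e (nat_lit 16473) (nat_lit 14) (.e (nat_lit 491535) (nat_lit 2) (.e (nat_lit 90170) (nat_lit 13) .nil)))) .nil))) (.nd (nat_lit 6) 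
(.lf (nat_lit 15659) (.g (nat_lit 3777) (.e (nat_lit 1123) (nat_lit 83) (.e (nat_lit 16416) (nat_lit 3) (.e (nat_lit 204869) (nat_lit 29) (.e (nat_lit 360474) (nat_lit 8) (.e (nat_lit 557091) (nat_lit 12) (.e (nat_lit 163842) (nat_lit 0) (.e (nat_lit 6535) (nat_lit 351) .nil))))))) (.g (nat_lit 4) .nil .nil))) 
(.lf (nat_lit 15723) (.g (nat_lit 3861) (.e (nat_lit 1124) (nat_lit 83) (.e (nat_lit 16416) (nat_lit 3) (.e (nat_lit 204869) (nat_lit 29) (.e (nat_lit 360474) (nat_lit 8) (.e (nat_lit 557091) (nat_lit 12) (.e (nat_lit 163842) (nat_lit 0) (.e (nat_lit 6534) (nat_lit 351) .nil))))))) (.g (nat_lit 7) .nil .nil))))) (.nd (nat_lit 5) (.nd (nat_lit 6) 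
(.lf (nat_lit 15643) (.g (nat_lit 1654) (.e (nat_lit 1122) (nat_lit 83) (.e (nat_lit 16473) (nat_lit 14) (.e (nat_lit 491567) (nat_lit 13) (.e (nat_lit 393296) (nat_lit 26) .nil)))) .nil)) 
(.lf (nat_lit 15707) (.g (nat_lit 2110) (.e (nat_lit 1124) (nat_lit 83) (.e (nat_lit 16412) (nat_lit 2) (.e (nat_lit 196672) (nat_lit 15) (.e (nat_lit 81954) (nat_lit 23) (.e (nat_lit 98333) (nat_lit 18) .nil))))) .nil))) (.nd (nat_lit 6) 
(.lf (nat_lit 15675) (.g (nat_lit 3347) (.e (nat_lit 1123) (nat_lit 83) (.e (nat_lit 16470) (nat_lit 14) (.e (nat_lit 491537) (nat_lit 2) (.e (nat_lit 90170) (nat_lit 13) .nil)))) .nil)) 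
(.lf (nat_lit 15739) (.g (nat_lit 1857) (.e (nat_lit 1124) (nat_lit 83) (.e (nat_lit 16448) (nat_lit 10) (.e (nat_lit 434268) (nat_lit 36) (.e (nat_lit 639008) (nat_lit 13) .nil)))) .nil)))))) (.nd (nat_lit 3) (.nd (nat_lit 4) (.nd (nat_lit 5) (.nd (nat_lit 6) 
(.lf (nat_lit 15623) (.g (nat_lit 2216) (.e (nat_lit 1122) (nat_lit 83) (.e (nat_lit 16473) (nat_lit 14) (.e (nat_lit 491546) (nat_lit 9) (.e (nat_lit 336443) (nat_lit 32) .nil)))) .nil)) 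
(.lf (nat_lit 15687) (.g (nat_lit 1373) (.e (nat_lit 1123) (nat_lit 83) (.e (nat_lit 16473) (nat_lit 14) (.e (nat_lit 491526) (nat_lit 0) .nil))) .nil))) (.nd (nat_lit 6) 
(.lf (nat_lit 15655) (.g (nat_lit 699) (.e (nat_lit 1123) (nat_lit 83) (.e (nat_lit 16412) (nat_lit 2) (.e (nat_lit 196672) (nat_lit 15) .nil))) .nil)) 
(.lf (nat_lit 15719) (.g (nat_lit 2709) (.e (nat_lit 1124) (nat_lit 83) (.e (nat_lit 16416) (nat_lit 3) (.e (nat_lit 204868) (nat_lit 29) (.e (nat_lit 360466) (nat_lit 3) (.e (nat_lit 516119) (nat_lit 1) (.e (nat_lit 171776) (nat_lit 278) .nil)))))) (.g (nat_lit 5) .nil .nil))))) (.nd (nat_lit 5) (.nd (nat_lit 6) 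
(.lf (nat_lit 15639) (.g (nat_lit 2191) (.e (nat_lit 1122) (nat_lit 83) (.e (nat_lit 16473) (nat_lit 14) (.e (nat_lit 491567) (nat_lit 13) (.e (nat_lit 393281) (nat_lit 23) (.e (nat_lit 426099) (nat_lit 1) .nil))))) .nil)) 
(.lf (nat_lit 15703) (.g (nat_lit 3652) (.e (nat_lit 1123) (nat_lit 83) (.e (nat_lit 16473) (nat_lit 14) (.e (nat_lit 491544) (nat_lit 7) (.e (nat_lit 319533) (nat_lit 16) (.e (nat_lit 286753) (nat_lit 10) .nil))))) .nil))) (.nd (nat_lit 6) 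
(.lf (nat_lit 15671) (.g (nat_lit 4546) (.e (nat_lit 1123) (nat_lit 83) (.e (nat_lit 16466) (nat_lit 13) (.e (nat_lit 483413) (nat_lit 27) (.e (nat_lit 401448) (nat_lit 10) (.e (nat_lit 434201) (nat_lit 18) .nil))))) .nil)) 
(.lf (nat_lit 15735) (.g (nat_lit 2481) (.e (nat_lit 1124) (nat_lit 83) (.e (nat_lit 16448) (nat_lit 10) (.e (nat_lit 434268) (nat_lit 36) (.e (nat_lit 639007) (nat_lit 13) (.e (nat_lit 1586) (nat_lit 111) (.e (nat_lit 360450) (nat_lit 0) (.e (nat_lit 5429) (nat_lit 306) .nil))))))) (.g (nat_lit 4) .nil .nil)))))) (.nd (nat_lit 4) (.nd (nat_lit 5) (.nd (nat_lit 6) 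
(.lf (nat_lit 15631) (.g (nat_lit 778) (.e (nat_lit 1122) (nat_lit 83) (.e (nat_lit 16473) (nat_lit 14) (.e (nat_lit 491560) (nat_lit 10) .nil))) .nil)) 
(.lf (nat_lit 15695) (.g (nat_lit 2454) (.e (nat_lit 1123) (nat_lit 83) (.e (nat_lit 16473) (nat_lit 14) (.e (nat_lit 491538) (nat_lit 3) (.e (nat_lit 98373) (nat_lit 29) .nil)))) .nil))) (.nd (nat_lit 6) 
(.lf (nat_lit 15663) (.g (nat_lit 1881) (.e (nat_lit 1123) (nat_lit 83) (.e (nat_lit 16448) (nat_lit 10) (.e (nat_lit 434268) (nat_lit 36) (.e (nat_lit 639005) (nat_lit 13) (.e (nat_lit 1598) (nat_lit 111) .nil))))) .nil)) 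
(.lf (nat_lit 15727) (.g (nat_lit 948) (.e (nat_lit 1124) (nat_lit 83) (.e (nat_lit 16436) (nat_lit 9) (.e (nat_lit 426361) (nat_lit 15) .nil))) .nil)))) (.nd (nat_lit 5) (.nd (nat_lit 6) 
(.lf (nat_lit 15647) (.g (nat_lit 2388) (.e (nat_lit 1122) (nat_lit 83) (.e (nat_lit 16473) (nat_lit 14) (.e (nat_lit 491568) (nat_lit 13) (.e (nat_lit 393281) (nat_lit 23) (.e (nat_lit 426099) (nat_lit 1) .nil))))) .nil)) 
(.lf (nat_lit 15711) (.g (nat_lit 4289) (.e (nat_lit 1124) (nat_lit 83) (.e (nat_lit 16413) (nat_lit 2) (.e (nat_lit 196666) (nat_lit 13) (.e (nat_lit 65610) (nat_lit 10) (.e (nat_lit 344117) (nat_lit 21) (.e (nat_lit 516116) (nat_lit 1) (.e (nat_lit 171776) (nat_lit 278) .nil))))))) (.g (nat_lit 6) .nil .nil)))) (.nd (nat_lit 6) 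
(.lf (nat_lit 15679) (.g (nat_lit 5178) (.e (nat_lit 1123) (nat_lit 83) (.e (nat_lit 16470) (nat_lit 14) (.e (nat_lit 491537) (nat_lit 2) (.e (nat_lit 90170) (nat_lit 13) (.e (nat_lit 172113) (nat_lit 10) .nil))))) .nil)) 
(.lf (nat_lit 15743) (.g (nat_lit 3816) (.e (nat_lit 1124) (nat_lit 83) (.e (nat_lit 16448) (nat_lit 10) (.e (nat_lit 434268) (nat_lit 36) (.e (nat_lit 639020) (nat_lit 16) (.e (nat_lit 65617) (nat_lit 10) (.e (nat_lit 344091) (nat_lit 18) (.e (nat_lit 5441) (nat_lit 306) .nil))))))) (.g (nat_lit 6) .nil .nil))))))))))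

noncomputable def tv216 : DT := (.nd (nat_lit 0) (.nd (nat_lit 1) (.nd (nat_lit 2) (.nd (nat_lit 3) (.nd (nat_lit 4) (.nd (nat_lit 5) (.nd (nat_lit 6) 
(.lf (nat_lit 15744) (.g (nat_lit 1968) (.e (nat_lit 1124) (nat_lit 83) (.e (nat_lit 16448) (nat_lit 10) (.e (nat_lit 434268) (nat_lit 36) (.e (nat_lit 639020) (nat_lit 16) (.e (nat_lit 65619) (nat_lit 10) .nil))))) .nil)) 
(.lf (nat_lit 15808) (.g (nat_lit 3263) (.e (nat_lit 1125) (nat_lit 83) (.e (nat_lit 16470) (nat_lit 14) (.e (nat_lit 491540) (nat_lit 3) (.e (nat_lit 98373) (nat_lit 29) .nil)))) .nil))) (.nd (nat_lit 6) 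
(.lf (nat_lit 15776) (.g (nat_lit 1325) (.e (nat_lit 1124) (nat_lit 83) (.e (nat_lit 16473) (nat_lit 14) (.e (nat_lit 491536) (nat_lit 2) .nil))) .nil)) 
(.lf (nat_lit 15840) (.g (nat_lit 3311) (.e (nat_lit 1125) (nat_lit 83) (.e (nat_lit 16473) (nat_lit 14) (.e (nat_lit 491538) (nat_lit 3) (.e (nat_lit 98370) (nat_lit 28) (.e (nat_lit 442429) (nat_lit 24) .nil))))) .nil)))) (.nd (nat_lit 5) (.nd (nat_lit 6) 
(.lf (nat_lit 15760) (.g (nat_lit 3965) (.e (nat_lit 1124) (nat_lit 83) (.e (nat_lit 16470) (nat_lit 14) (.e (nat_lit 491537) (nat_lit 2) (.e (nat_lit 90170) (nat_lit 13) (.e (nat_lit 172106) (nat_lit 10) .nil))))) .nil)) 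
(.lf (nat_lit 15824) (.g (nat_lit 4330) (.e (nat_lit 1125) (nat_lit 83) (.e (nat_lit 16473) (nat_lit 14) (.e (nat_lit 491526) (nat_lit 0) (.e (nat_lit 1788) (nat_lit 119) (.e (nat_lit 516166) (nat_lit 12) (.e (nat_lit 450563) (nat_lit 0) (.e (nat_lit 4212) (nat_lit 251) .nil))))))) (.g (nat_lit 5) .nil .nil)))) (.nd (nat_lit 6) 
(.lf (nat_lit 15792) (.g (nat_lit 1541) (.e (nat_lit 1125) (nat_lit 83) (.e (nat_lit 16416) (nat_lit 3) (.e (nat_lit 204868) (nat_lit 29) .nil))) .nil)) 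
(.lf (nat_lit 15856) (.g (nat_lit 3391) (.e (nat_lit 1125) (nat_lit 83) (.e (nat_lit 16473) (nat_lit 14) (.e (nat_lit 491544) (nat_lit 7) (.e (nat_lit 319531) (nat_lit 16) (.e (nat_lit 286748) (nat_lit 9) .nil))))) .nil))))) (.nd (nat_lit 4) (.nd (nat_lit 5) (.nd (nat_lit 6) 
(.lf (nat_lit 15752) (.g (nat_lit 3183) (.e (nat_lit 1124) (nat_lit 83) (.e (nat_lit 16466) (nat_lit 13) (.e (nat_lit 483413) (nat_lit 27) (.e (nat_lit 401446) (nat_lit 10) (.e (nat_lit 434201) (nat_lit 18) .nil))))) .nil)) 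
(.lf (nat_lit 15816) (.g (nat_lit 3241) (.e (nat_lit 1125) (nat_lit 83) (.e (nat_lit 16473) (nat_lit 14) (.e (nat_lit 491526) (nat_lit 0) (.e (nat_lit 1788) (nat_lit 119) (.e (nat_lit 516151) (nat_lit 9) (.e (nat_lit 426286) (nat_lit 10) (.e (nat_lit 434203) (nat_lit 18) (.e (nat_lit 4168) (nat_lit 251) .nil)))))))) (.g (nat_lit 4) .nil .nil)))) (.nd (nat_lit 6) 
(.lf (nat_lit 15784) (.g (nat_lit 3510) (.e (nat_lit 1124) (nat_lit 83) (.e (nat_lit 16473) (nat_lit 14) (.e (nat_lit 491544) (nat_lit 7) (.e (nat_lit 319534) (nat_lit 16) (.e (nat_lit 286756) (nat_lit 10) .nil))))) .nil)) 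
(.lf (nat_lit 15848) (.g (nat_lit 3018) (.e (nat_lit 1125) (nat_lit 83) (.e (nat_lit 16473) (nat_lit 14) (.e (nat_lit 491538) (nat_lit 3) (.e (nat_lit 98381) (nat_lit 31) (.e (nat_lit 466971) (nat_lit 21) .nil))))) .nil)))) (.nd (nat_lit 5) (.nd (nat_lit 6) 
(.lf (nat_lit 15768) (.g (nat_lit 3180) (.e (nat_lit 1124) (nat_lit 83) (.e (nat_lit 16473) (nat_lit 14) (.e (nat_lit 491526) (nat_lit 0) (.e (nat_lit 1781) (nat_lit 119) .nil)))) .nil)) 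
(.lf (nat_lit 15832) (.g (nat_lit 2648) (.e (nat_lit 1125) (nat_lit 83) (.e (nat_lit 16473) (nat_lit 14) (.e (nat_lit 491535) (nat_lit 2) (.e (nat_lit 90178) (nat_lit 15) .nil)))) .nil))) (.nd (nat_lit 6) 
(.lf (nat_lit 15800) (.g (nat_lit 2088) (.e (nat_lit 1125) (nat_lit 83) (.e (nat_lit 16461) (nat_lit 12) (.e (nat_lit 475207) (nat_lit 41) (.e (nat_lit 712755) (nat_lit 30) (.e (nat_lit 450562) (nat_lit 0) (.e (nat_lit 4756) (nat_lit 281) .nil)))))) (.g (nat_lit 6) .nil .nil))) 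
(.lf (nat_lit 15864) (.g (nat_lit 1863) (.e (nat_lit 1125) (nat_lit 83) (.e (nat_lit 16473) (nat_lit 14) (.e (nat_lit 491552) (nat_lit 9) (.e (nat_lit 343808) (nat_lit 27) .nil)))) .nil)))))) (.nd (nat_lit 3) (.nd (nat_lit 4) (.nd (nat_lit 5) (.nd (nat_lit 6) 
(.lf (nat_lit 15748) (.g (nat_lit 607) (.e (nat_lit 1124) (nat_lit 83) (.e (nat_lit 16459) (nat_lit 12) (.e (nat_lit 475207) (nat_lit 41) .nil))) .nil)) 
(.lf (nat_lit 15812) (.g (nat_lit 835) (.e (nat_lit 1125) (nat_lit 83) (.e (nat_lit 16470) (nat_lit 14) (.e (nat_lit 491571) (nat_lit 13) .nil))) .nil))) (.nd (nat_lit 6) 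
(.lf (nat_lit 15780) (.g (nat_lit 1183) (.e (nat_lit 1124) (nat_lit 83) (.e (nat_lit 16473) (nat_lit 14) (.e (nat_lit 491544) (nat_lit 7) .nil))) .nil)) 
(.lf (nat_lit 15844) (.g (nat_lit 2167) (.e (nat_lit 1125) (nat_lit 83) (.e (nat_lit 16473) (nat_lit 14) (.e (nat_lit 491538) (nat_lit 3) (.e (nat_lit 98373) (nat_lit 29) .nil)))) .nil)))) (.nd (nat_lit 5) (.nd (nat_lit 6) 
(.lf (nat_lit 15764) (.g (nat_lit 3282) (.e (nat_lit 1124) (nat_lit 83) (.e (nat_lit 16470) (nat_lit 14) (.e (nat_lit 491540) (nat_lit 3) (.e (nat_lit 98373) (nat_lit 29) .nil)))) .nil)) 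
(.lf (nat_lit 15828) (.g (nat_lit 2551) (.e (nat_lit 1125) (nat_lit 83) (.e (nat_lit 16473) (nat_lit 14) (.e (nat_lit 491535) (nat_lit 2) (.e (nat_lit 90176) (nat_lit 15) .nil)))) .nil))) (.nd (nat_lit 6) 
(.lf (nat_lit 15796) (.g (nat_lit 1470) (.e (nat_lit 1125) (nat_lit 83) (.e (nat_lit 16416) (nat_lit 3) (.e (nat_lit 204869) (nat_lit 29) .nil))) .nil)) 
(.lf (nat_lit 15860) (.g (nat_lit 3449) (.e (nat_lit 1125) (nat_lit 83) (.e (nat_lit 16473) (nat_lit 14) (.e (nat_lit 491546) (nat_lit 9) (.e (nat_lit 336443) (nat_lit 32) (.e (nat_lit 466969) (nat_lit 21) .nil))))) .nil))))) (.nd (nat_lit 4) (.nd (nat_lit 5) (.nd (nat_lit 6) 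
(.lf (nat_lit 15756) (.g (nat_lit 3163) (.e (nat_lit 1124) (nat_lit 83) (.e (nat_lit 16466) (nat_lit 13) (.e (nat_lit 483413) (nat_lit 27) (.e (nat_lit 401448) (nat_lit 10) (.e (nat_lit 434201) (nat_lit 18) (.e (nat_lit 6534) (nat_lit 351) .nil)))))) (.g (nat_lit 4) .nil .nil))) 
(.lf (nat_lit 15820) (.g (nat_lit 3170) (.e (nat_lit 1125) (nat_lit 83) (.e (nat_lit 16473) (nat_lit 14) (.e (nat_lit 491526) (nat_lit 0) (.e (nat_lit 1788) (nat_lit 119) (.e (nat_lit 516165) (nat_lit 12) .nil))))) .nil))) (.nd (nat_lit 6) 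
(.lf (nat_lit 15788) (.g (nat_lit 672) (.e (nat_lit 1125) (nat_lit 83) (.e (nat_lit 16412) (nat_lit 2) (.e (nat_lit 196681) (nat_lit 17) .nil))) .nil)) 
(.lf (nat_lit 15852) (.g (nat_lit 2105) (.e (nat_lit 1125) (nat_lit 83) (.e (nat_lit 16473) (nat_lit 14) (.e (nat_lit 491539) (nat_lit 3) (.e (nat_lit 98373) (nat_lit 29) .nil)))) .nil)))) (.nd (nat_lit 5) (.nd (nat_lit 6) 
(.lf (nat_lit 15772) (.g (nat_lit 3180) (.e (nat_lit 1124) (nat_lit 83) (.e (nat_lit 16473) (nat_lit 14) (.e (nat_lit 491526) (nat_lit 0) (.e (nat_lit 1799) (nat_lit 119) .nil)))) .nil)) 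
(.lf (nat_lit 15836) (.g (nat_lit 1299) (.e (nat_lit 1125) (nat_lit 83) (.e (nat_lit 16473) (nat_lit 14) (.e (nat_lit 491538) (nat_lit 3) .nil))) .nil))) (.nd (nat_lit 6) 
(.lf (nat_lit 15804) (.g (nat_lit 3374) (.e (nat_lit 1125) (nat_lit 83) (.e (nat_lit 16470) (nat_lit 14) (.e (nat_lit 491537) (nat_lit 2) (.e (nat_lit 90170) (nat_lit 13) .nil)))) .nil)) 
(.lf (nat_lit 15868) (.g (nat_lit 1080) (.e (nat_lit 1125) (nat_lit 83) (.e (nat_lit 16473) (nat_lit 14) (.e (nat_lit 491560) (nat_lit 10) .nil))) .nil))))))) (.nd (nat_lit 2) (.nd (nat_lit 3) (.nd (nat_lit 4) (.nd (nat_lit 5) (.nd (nat_lit 6) 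
(.lf (nat_lit 15746) (.g (nat_lit 1846) (.e (nat_lit 1124) (nat_lit 83) (.e (nat_lit 16448) (nat_lit 10) (.e (nat_lit 434268) (nat_lit 36) (.e (nat_lit 639021) (nat_lit 16) .nil)))) .nil)) 
(.lf (nat_lit 15810) (.g (nat_lit 4319) (.e (nat_lit 1125) (nat_lit 83) (.e (nat_lit 16470) (nat_lit 14) (.e (nat_lit 491540) (nat_lit 3) (.e (nat_lit 98373) (nat_lit 29) (.e (nat_lit 450563) (nat_lit 0) (.e (nat_lit 4202) (nat_lit 251) .nil)))))) (.g (nat_lit 4) .nil .nil)))) (.nd (nat_lit 6) 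
(.lf (nat_lit 15778) (.g (nat_lit 2454) (.e (nat_lit 1124) (nat_lit 83) (.e (nat_lit 16473) (nat_lit 14) (.e (nat_lit 491538) (nat_lit 3) (.e (nat_lit 98373) (nat_lit 29) .nil)))) .nil)) 
(.lf (nat_lit 15842) (.g (nat_lit 4375) (.e (nat_lit 1125) (nat_lit 83) (.e (nat_lit 16473) (nat_lit 14) (.e (nat_lit 491538) (nat_lit 3) (.e (nat_lit 98370) (nat_lit 28) (.e (nat_lit 442430) (nat_lit 24) (.e (nat_lit 229523) (nat_lit 128) .nil)))))) (.g (nat_lit 6) .nil .nil))))) (.nd (nat_lit 5) (.nd (nat_lit 6) 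
(.lf (nat_lit 15762) (.g (nat_lit 5361) (.e (nat_lit 1124) (nat_lit 83) (.e (nat_lit 16470) (nat_lit 14) (.e (nat_lit 491537) (nat_lit 2) (.e (nat_lit 90170) (nat_lit 13) (.e (nat_lit 172113) (nat_lit 10) .nil))))) .nil)) 
(.lf (nat_lit 15826) (.g (nat_lit 4159) (.e (nat_lit 1125) (nat_lit 83) (.e (nat_lit 16473) (nat_lit 14) (.e (nat_lit 491535) (nat_lit 2) (.e (nat_lit 90170) (nat_lit 13) (.e (nat_lit 172106) (nat_lit 10) (.e (nat_lit 434202) (nat_lit 18) (.e (nat_lit 4203) (nat_lit 251) .nil))))))) (.g (nat_lit 5) .nil .nil)))) (.nd (nat_lit 6) 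
(.lf (nat_lit 15794) (.g (nat_lit 3508) (.e (nat_lit 1125) (nat_lit 83) (.e (nat_lit 16416) (nat_lit 3) (.e (nat_lit 204868) (nat_lit 29) (.e (nat_lit 360466) (nat_lit 3) (.e (nat_lit 516119) (nat_lit 1) .nil))))) .nil)) 
(.lf (nat_lit 15858) (.g (nat_lit 3795) (.e (nat_lit 1125) (nat_lit 83) (.e (nat_lit 16473) (nat_lit 14) (.e (nat_lit 491544) (nat_lit 7) (.e (nat_lit 319531) (nat_lit 16) (.e (nat_lit 286759) (nat_lit 12) .nil))))) .nil))))) (.nd (nat_lit 4) (.nd (nat_lit 5) (.nd (nat_lit 6) 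
(.lf (nat_lit 15754) (.g (nat_lit 3022) (.e (nat_lit 1124) (nat_lit 83) (.e (nat_lit 16466) (nat_lit 13) (.e (nat_lit 483413) (nat_lit 27) (.e (nat_lit 401447) (nat_lit 10) (.e (nat_lit 434201) (nat_lit 18) .nil))))) .nil)) 
(.lf (nat_lit 15818) (.g (nat_lit 3240) (.e (nat_lit 1125) (nat_lit 83) (.e (nat_lit 16473) (nat_lit 14) (.e (nat_lit 491526) (nat_lit 0) (.e (nat_lit 1788) (nat_lit 119) (.e (nat_lit 516163) (nat_lit 11) .nil))))) .nil))) (.nd (nat_lit 6) 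
(.lf (nat_lit 15786) (.g (nat_lit 3081) (.e (nat_lit 1124) (nat_lit 83) (.e (nat_lit 16473) (nat_lit 14) (.e (nat_lit 491568) (nat_lit 13) (.e (nat_lit 393301) (nat_lit 27) .nil)))) .nil)) 
(.lf (nat_lit 15850) (.g (nat_lit 3719) (.e (nat_lit 1125) (nat_lit 83) (.e (nat_lit 16473) (nat_lit 14) (.e (nat_lit 491538) (nat_lit 3) (.e (nat_lit 98381) (nat_lit 31) (.e (nat_lit 466972) (nat_lit 21) (.e (nat_lit 164123) (nat_lit 128) .nil)))))) (.g (nat_lit 5) .nil .nil))))) (.nd (nat_lit 5) (.nd (nat_lit 6) 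
(.lf (nat_lit 15770) (.g (nat_lit 3365) (.e (nat_lit 1124) (nat_lit 83) (.e (nat_lit 16473) (nat_lit 14) (.e (nat_lit 491526) (nat_lit 0) (.e (nat_lit 1788) (nat_lit 119) (.e (nat_lit 516166) (nat_lit 12) .nil))))) .nil)) 
(.lf (nat_lit 15834) (.g (nat_lit 1223) (.e (nat_lit 1125) (nat_lit 83) (.e (nat_lit 16473) (nat_lit 14) (.e (nat_lit 491536) (nat_lit 2) .nil))) .nil))) (.nd (nat_lit 6) 
(.lf (nat_lit 15802) (.g (nat_lit 1547) (.e (nat_lit 1125) (nat_lit 83) (.e (nat_lit 16466) (nat_lit 13) (.e (nat_lit 483346) (nat_lit 17) .nil))) .nil)) 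
(.lf (nat_lit 15866) (.g (nat_lit 2980) (.e (nat_lit 1125) (nat_lit 83) (.e (nat_lit 16473) (nat_lit 14) (.e (nat_lit 491559) (nat_lit 10) (.e (nat_lit 344177) (nat_lit 43) .nil)))) .nil)))))) (.nd (nat_lit 3) (.nd (nat_lit 4) (.nd (nat_lit 5) (.nd (nat_lit 6) 
(.lf (nat_lit 15750) (.g (nat_lit 2059) (.e (nat_lit 1124) (nat_lit 83) (.e (nat_lit 16461) (nat_lit 12) (.e (nat_lit 475207) (nat_lit 41) (.e (nat_lit 712755) (nat_lit 30) (.e (nat_lit 450563) (nat_lit 0) (.e (nat_lit 4751) (nat_lit 281) .nil)))))) (.g (nat_lit 6) .nil .nil))) 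
(.lf (nat_lit 15814) (.g (nat_lit 2688) (.e (nat_lit 1125) (nat_lit 83) (.e (nat_lit 16473) (nat_lit 14) (.e (nat_lit 491526) (nat_lit 0) (.e (nat_lit 1788) (nat_lit 119) .nil)))) .nil))) (.nd (nat_lit 6) 
(.lf (nat_lit 15782) (.g (nat_lit 3230) (.e (nat_lit 1124) (nat_lit 83) (.e (nat_lit 16473) (nat_lit 14) (.e (nat_lit 491544) (nat_lit 7) (.e (nat_lit 319531) (nat_lit 16) (.e (nat_lit 286756) (nat_lit 10) .nil))))) .nil)) 
(.lf (nat_lit 15846) (.g (nat_lit 2240) (.e (nat_lit 1125) (nat_lit 83) (.e (nat_lit 16473) (nat_lit 14) (.e (nat_lit 491538) (nat_lit 3) (.e (nat_lit 98374) (nat_lit 29) .nil)))) .nil)))) (.nd (nat_lit 5) (.nd (nat_lit 6) 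
(.lf (nat_lit 15766) (.g (nat_lit 4417) (.e (nat_lit 1124) (nat_lit 83) (.e (nat_lit 16470) (nat_lit 14) (.e (nat_lit 491540) (nat_lit 3) (.e (nat_lit 98373) (nat_lit 29) (.e (nat_lit 450567) (nat_lit 0) .nil))))) .nil)) 
(.lf (nat_lit 15830) (.g (nat_lit 3297) (.e (nat_lit 1125) (nat_lit 83) (.e (nat_lit 16473) (nat_lit 14) (.e (nat_lit 491535) (nat_lit 2) (.e (nat_lit 90176) (nat_lit 15) (.e (nat_lit 188444) (nat_lit 21) .nil))))) .nil))) (.nd (nat_lit 6) 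
(.lf (nat_lit 15798) (.g (nat_lit 1194) (.e (nat_lit 1125) (nat_lit 83) (.e (nat_lit 16416) (nat_lit 3) (.e (nat_lit 204885) (nat_lit 33) .nil))) .nil)) 
(.lf (nat_lit 15862) (.g (nat_lit 3575) (.e (nat_lit 1125) (nat_lit 83) (.e (nat_lit 16473) (nat_lit 14) (.e (nat_lit 491546) (nat_lit 9) (.e (nat_lit 336443) (nat_lit 32) (.e (nat_lit 466972) (nat_lit 21) .nil))))) .nil))))) (.nd (nat_lit 4) (.nd (nat_lit 5) (.nd (nat_lit 6) 
(.lf (nat_lit 15758) (.g (nat_lit 1705) (.e (nat_lit 1124) (nat_lit 83) (.e (nat_lit 16468) (nat_lit 13) (.e (nat_lit 483372) (nat_lit 21) (.e (nat_lit 319533) (nat_lit 16) (.e (nat_lit 286720) (nat_lit 0) .nil))))) .nil)) 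
(.lf (nat_lit 15822) (.g (nat_lit 3111) (.e (nat_lit 1125) (nat_lit 83) (.e (nat_lit 16473) (nat_lit 14) (.e (nat_lit 491526) (nat_lit 0) (.e (nat_lit 1788) (nat_lit 119) (.e (nat_lit 516166) (nat_lit 12) (.e (nat_lit 450562) (nat_lit 0) (.e (nat_lit 4203) (nat_lit 251) .nil))))))) (.g (nat_lit 4) .nil .nil)))) (.nd (nat_lit 6) 
(.lf (nat_lit 15790) (.g (nat_lit 1949) (.e (nat_lit 1125) (nat_lit 83) (.e (nat_lit 16415) (nat_lit 3) (.e (nat_lit 204816) (nat_lit 17) (.e (nat_lit 6724) (nat_lit 362) (.e (nat_lit 180243) (nat_lit 5) (.e (nat_lit 532501) (nat_lit 1) (.e (nat_lit 57776) (nat_lit 233) .nil))))))) (.g (nat_lit 4) .nil .nil))) 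
(.lf (nat_lit 15854) (.g (nat_lit 2685) (.e (nat_lit 1125) (nat_lit 83) (.e (nat_lit 16473) (nat_lit 14) (.e (nat_lit 491544) (nat_lit 7) (.e (nat_lit 319530) (nat_lit 16) .nil)))) .nil)))) (.nd (nat_lit 5) (.nd (nat_lit 6) 
(.lf (nat_lit 15774) (.g (nat_lit 3177) (.e (nat_lit 1124) (nat_lit 83) (.e (nat_lit 16473) (nat_lit 14) (.e (nat_lit 491535) (nat_lit 2) (.e (nat_lit 90170) (nat_lit 13) (.e (nat_lit 172106) (nat_lit 10) (.e (nat_lit 434200) (nat_lit 18) (.e (nat_lit 4186) (nat_lit 251) .nil))))))) (.g (nat_lit 4) .nil .nil))) 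
(.lf (nat_lit 15838) (.g (nat_lit 3439) (.e (nat_lit 1125) (nat_lit 83) (.e (nat_lit 16473) (nat_lit 14) (.e (nat_lit 491538) (nat_lit 3) (.e (nat_lit 98365) (nat_lit 26) (.e (nat_lit 426298) (nat_lit 11) (.e (nat_lit 458774) (nat_lit 18) (.e (nat_lit 4194) (nat_lit 251) .nil))))))) (.g (nat_lit 5) .nil .nil)))) (.nd (nat_lit 6) 
(.lf (nat_lit 15806) (.g (nat_lit 5205) (.e (nat_lit 1125) (nat_lit 83) (.e (nat_lit 16470) (nat_lit 14) (.e (nat_lit 491537) (nat_lit 2) (.e (nat_lit 90170) (nat_lit 13) (.e (nat_lit 172113) (nat_lit 10) .nil))))) .nil)) 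
(.lf (nat_lit 15870) (.g (nat_lit 2509) (.e (nat_lit 1125) (nat_lit 83) (.e (nat_lit 16473) (nat_lit 14) (.e (nat_lit 491560) (nat_lit 10) (.e (nat_lit 344179) (nat_lit 44) (.e (nat_lit 778466) (nat_lit 11) .nil))))) .nil)))))))) (.nd (nat_lit 1) (.nd (nat_lit 2) (.nd (nat_lit 3) (.nd (nat_lit 4) (.nd (nat_lit 5) (.nd (nat_lit 6) 
(.lf (nat_lit 15745) (.g (nat_lit 2239) (.e (nat_lit 1124) (nat_lit 83) (.e (nat_lit 16448) (nat_lit 10) (.e (nat_lit 434268) (nat_lit 36) (.e (nat_lit 639020) (nat_lit 16) (.e (nat_lit 65619) (nat_lit 10) (.e (nat_lit 344090) (nat_lit 18) (.e (nat_lit 5429) (nat_lit 306) .nil))))))) (.g (nat_lit 4) .nil .nil))) 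
(.lf (nat_lit 15809) (.g (nat_lit 4244) (.e (nat_lit 1125) (nat_lit 83) (.e (nat_lit 16470) (nat_lit 14) (.e (nat_lit 491540) (nat_lit 3) (.e (nat_lit 98373) (nat_lit 29) (.e (nat_lit 450563) (nat_lit 0) .nil))))) .nil))) (.nd (nat_lit 6) 
(.lf (nat_lit 15777) (.g (nat_lit 1469) (.e (nat_lit 1124) (nat_lit 83) (.e (nat_lit 16473) (nat_lit 14) (.e (nat_lit 491538) (nat_lit 3) .nil))) .nil)) 
(.lf (nat_lit 15841) (.g (nat_lit 4462) (.e (nat_lit 1125) (nat_lit 83) (.e (nat_lit 16473) (nat_lit 14) (.e (nat_lit 491538) (nat_lit 3) (.e (nat_lit 98370) (nat_lit 28) (.e (nat_lit 442430) (nat_lit 24) (.e (nat_lit 229522) (nat_lit 128) .nil)))))) (.g (nat_lit 6) .nil .nil))))) (.nd (nat_lit 5) (.nd (nat_lit 6) 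
(.lf (nat_lit 15761) (.g (nat_lit 4203) (.e (nat_lit 1124) (nat_lit 83) (.e (nat_lit 16470) (nat_lit 14) (.e (nat_lit 491537) (nat_lit 2) (.e (nat_lit 90170) (nat_lit 13) (.e (nat_lit 172106) (nat_lit 10) (.e (nat_lit 434202) (nat_lit 18) (.e (nat_lit 4185) (nat_lit 251) .nil))))))) (.g (nat_lit 4) .nil .nil))) 
(.lf (nat_lit 15825) (.g (nat_lit 2453) (.e (nat_lit 1125) (nat_lit 83) (.e (nat_lit 16473) (nat_lit 14) (.e (nat_lit 491535) (nat_lit 2) (.e (nat_lit 90170) (nat_lit 13) .nil)))) .nil))) (.nd (nat_lit 6) 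
(.lf (nat_lit 15793) (.g (nat_lit 3596) (.e (nat_lit 1125) (nat_lit 83) (.e (nat_lit 16416) (nat_lit 3) (.e (nat_lit 204868) (nat_lit 29) (.e (nat_lit 360466) (nat_lit 3) (.e (nat_lit 516117) (nat_lit 1) .nil))))) .nil)) 
(.lf (nat_lit 15857) (.g (nat_lit 3992) (.e (nat_lit 1125) (nat_lit 83) (.e (nat_lit 16473) (nat_lit 14) (.e (nat_lit 491544) (nat_lit 7) (.e (nat_lit 319531) (nat_lit 16) (.e (nat_lit 286748) (nat_lit 9) (.e (nat_lit 336295) (nat_lit 15) (.e (nat_lit 2443) (nat_lit 157) (.e (nat_lit 7660) (nat_lit 410) .nil)))))))) (.g (nat_lit 5) .nil .nil)))))) 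
(.nd (nat_lit 4) (.nd (nat_lit 5) (.nd (nat_lit 6) 
(.lf (nat_lit 15753) (.g (nat_lit 1194) (.e (nat_lit 1124) (nat_lit 83) (.e (nat_lit 16466) (nat_lit 13) (.e (nat_lit 483413) (nat_lit 27) (.e (nat_lit 401447) (nat_lit 10) .nil)))) .nil)) 
(.lf (nat_lit 15817) (.g (nat_lit 3253) (.e (nat_lit 1125) (nat_lit 83) (.e (nat_lit 16473) (nat_lit 14) (.e (nat_lit 491526) (nat_lit 0) (.e (nat_lit 1788) (nat_lit 119) (.e (nat_lit 516151) (nat_lit 9) (.e (nat_lit 426286) (nat_lit 10) (.e (nat_lit 434203) (nat_lit 18) (.e (nat_lit 4199) (nat_lit 251) .nil)))))))) (.g (nat_lit 4) .nil .nil)))) (.nd (nat_lit 6) 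
(.lf (nat_lit 15785) (.g (nat_lit 1174) (.e (nat_lit 1124) (nat_lit 83) (.e (nat_lit 16473) (nat_lit 14) (.e (nat_lit 491560) (nat_lit 10) .nil))) .nil)) 
(.lf (nat_lit 15849) (.g (nat_lit 2820) (.e (nat_lit 1125) (nat_lit 83) (.e (nat_lit 16473) (nat_lit 14) (.e (nat_lit 491538) (nat_lit 3) (.e (nat_lit 98381) (nat_lit 31) (.e (nat_lit 466972) (nat_lit 21) .nil))))) .nil)))) (.nd (nat_lit 5) (.nd (nat_lit 6) 
(.lf (nat_lit 15769) (.g (nat_lit 2993) (.e (nat_lit 1124) (nat_lit 83) (.e (nat_lit 16473) (nat_lit 14) (.e (nat_lit 491526) (nat_lit 0) (.e (nat_lit 1788) (nat_lit 119) .nil)))) .nil)) 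
(.lf (nat_lit 15833) (.g (nat_lit 2600) (.e (nat_lit 1125) (nat_lit 83) (.e (nat_lit 16473) (nat_lit 14) (.e (nat_lit 491535) (nat_lit 2) (.e (nat_lit 90185) (nat_lit 17) .nil)))) .nil))) (.nd (nat_lit 6) 
(.lf (nat_lit 15801) (.g (nat_lit 1979) (.e (nat_lit 1125) (nat_lit 83) (.e (nat_lit 16461) (nat_lit 12) (.e (nat_lit 475207) (nat_lit 41) (.e (nat_lit 712755) (nat_lit 30) (.e (nat_lit 450562) (nat_lit 0) (.e (nat_lit 4805) (nat_lit 281) .nil)))))) (.g (nat_lit 5) .nil .nil))) 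
(.lf (nat_lit 15865) (.g (nat_lit 1406) (.e (nat_lit 1125) (nat_lit 83) (.e (nat_lit 16473) (nat_lit 14) (.e (nat_lit 491556) (nat_lit 9) .nil))) .nil)))))) (.nd (nat_lit 3) (.nd (nat_lit 4) (.nd (nat_lit 5) (.nd (nat_lit 6) 
(.lf (nat_lit 15749) (.g (nat_lit 2091) (.e (nat_lit 1124) (nat_lit 83) (.e (nat_lit 16461) (nat_lit 12) (.e (nat_lit 475207) (nat_lit 41) (.e (nat_lit 712755) (nat_lit 30) (.e (nat_lit 450562) (nat_lit 0) (.e (nat_lit 4751) (nat_lit 281) .nil)))))) (.g (nat_lit 5) .nil .nil))) 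
(.lf (nat_lit 15813) (.g (nat_lit 1203) (.e (nat_lit 1125) (nat_lit 83) (.e (nat_lit 16473) (nat_lit 14) (.e (nat_lit 491526) (nat_lit 0) .nil))) .nil))) (.nd (nat_lit 6) 
(.lf (nat_lit 15781) (.g (nat_lit 2565) (.e (nat_lit 1124) (nat_lit 83) (.e (nat_lit 16473) (nat_lit 14) (.e (nat_lit 491544) (nat_lit 7) (.e (nat_lit 319531) (nat_lit 16) .nil)))) .nil)) 
(.lf (nat_lit 15845) (.g (nat_lit 3072) (.e (nat_lit 1125) (nat_lit 83) (.e (nat_lit 16473) (nat_lit 14) (.e (nat_lit 491538) (nat_lit 3) (.e (nat_lit 98373) (nat_lit 29) (.e (nat_lit 450563) (nat_lit 0) .nil))))) .nil)))) (.nd (nat_lit 5) (.nd (nat_lit 6) 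
(.lf (nat_lit 15765) (.g (nat_lit 4575) (.e (nat_lit 1124) (nat_lit 83) (.e (nat_lit 16470) (nat_lit 14) (.e (nat_lit 491540) (nat_lit 3) (.e (nat_lit 98373) (nat_lit 29) (.e (nat_lit 450560) (nat_lit 0) .nil))))) .nil)) 
(.lf (nat_lit 15829) (.g (nat_lit 3043) (.e (nat_lit 1125) (nat_lit 83) (.e (nat_lit 16473) (nat_lit 14) (.e (nat_lit 491535) (nat_lit 2) (.e (nat_lit 90176) (nat_lit 15) (.e (nat_lit 188439) (nat_lit 20) .nil))))) .nil))) (.nd (nat_lit 6) 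
(.lf (nat_lit 15797) (.g (nat_lit 3795) (.e (nat_lit 1125) (nat_lit 83) (.e (nat_lit 16416) (nat_lit 3) (.e (nat_lit 204869) (nat_lit 29) (.e (nat_lit 360474) (nat_lit 8) (.e (nat_lit 557091) (nat_lit 12) (.e (nat_lit 163842) (nat_lit 0) (.e (nat_lit 6576) (nat_lit 351) .nil))))))) (.g (nat_lit 4) .nil .nil))) 
(.lf (nat_lit 15861) (.g (nat_lit 3538) (.e (nat_lit 1125) (nat_lit 83) (.e (nat_lit 16473) (nat_lit 14) (.e (nat_lit 491546) (nat_lit 9) (.e (nat_lit 336443) (nat_lit 32) (.e (nat_lit 466971) (nat_lit 21) .nil))))) .nil))))) (.nd (nat_lit 4) (.nd (nat_lit 5) (.nd (nat_lit 6) 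
(.lf (nat_lit 15757) (.g (nat_lit 3874) (.e (nat_lit 1124) (nat_lit 83) (.e (nat_lit 16466) (nat_lit 13) (.e (nat_lit 483413) (nat_lit 27) (.e (nat_lit 401448) (nat_lit 10) (.e (nat_lit 434201) (nat_lit 18) (.e (nat_lit 6535) (nat_lit 351) .nil)))))) (.g (nat_lit 6) .nil .nil))) 
(.lf (nat_lit 15821) (.g (nat_lit 3193) (.e (nat_lit 1125) (nat_lit 83) (.e (nat_lit 16473) (nat_lit 14) (.e (nat_lit 491526) (nat_lit 0) (.e (nat_lit 1788) (nat_lit 119) (.e (nat_lit 516166) (nat_lit 12) (.e (nat_lit 450562) (nat_lit 0) (.e (nat_lit 4202) (nat_lit 251) .nil))))))) (.g (nat_lit 4) .nil .nil)))) (.nd (nat_lit 6) 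
(.lf (nat_lit 15789) (.g (nat_lit 2001) (.e (nat_lit 1125) (nat_lit 83) (.e (nat_lit 16413) (nat_lit 2) (.e (nat_lit 196666) (nat_lit 13) (.e (nat_lit 65610) (nat_lit 10) (.e (nat_lit 344129) (nat_lit 26) .nil))))) .nil)) 
(.lf (nat_lit 15853) (.g (nat_lit 3581) (.e (nat_lit 1125) (nat_lit 83) (.e (nat_lit 16473) (nat_lit 14) (.e (nat_lit 491539) (nat_lit 3) (.e (nat_lit 98373) (nat_lit 29) (.e (nat_lit 450567) (nat_lit 0) .nil))))) .nil)))) (.nd (nat_lit 5) (.nd (nat_lit 6) 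
(.lf (nat_lit 15773) (.g (nat_lit 2755) (.e (nat_lit 1124) (nat_lit 83) (.e (nat_lit 16473) (nat_lit 14) (.e (nat_lit 491535) (nat_lit 2) (.e (nat_lit 90170) (nat_lit 13) .nil)))) .nil)) 
(.lf (nat_lit 15837) (.g (nat_lit 2240) (.e (nat_lit 1125) (nat_lit 83) (.e (nat_lit 16473) (nat_lit 14) (.e (nat_lit 491538) (nat_lit 3) (.e (nat_lit 98365) (nat_lit 26) .nil)))) .nil))) (.nd (nat_lit 6) 
(.lf (nat_lit 15805) (.g (nat_lit 4245) (.e (nat_lit 1125) (nat_lit 83) (.e (nat_lit 16470) (nat_lit 14) (.e (nat_lit 491537) (nat_lit 2) (.e (nat_lit 90170) (nat_lit 13) (.e (nat_lit 172106) (nat_lit 10) (.e (nat_lit 434202) (nat_lit 18) (.e (nat_lit 4202) (nat_lit 251) .nil))))))) (.g (nat_lit 4) .nil .nil))) 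
(.lf (nat_lit 15869) (.g (nat_lit 3079) (.e (nat_lit 1125) (nat_lit 83) (.e (nat_lit 16473) (nat_lit 14) (.e (nat_lit 491560) (nat_lit 10) (.e (nat_lit 344177) (nat_lit 43) .nil)))) .nil))))))) (.nd (nat_lit 2) (.nd (nat_lit 3) (.nd (nat_lit 4) (.nd (nat_lit 5) (.nd (nat_lit 6) 
(.lf (nat_lit 15747) (.g (nat_lit 2167) (.e (nat_lit 1124) (nat_lit 83) (.e (nat_lit 16448) (nat_lit 10) (.e (nat_lit 434268) (nat_lit 36) (.e (nat_lit 639021) (nat_lit 16) (.e (nat_lit 65617) (nat_lit 10) (.e (nat_lit 344091) (nat_lit 18) (.e (nat_lit 5441) (nat_lit 306) .nil))))))) (.g (nat_lit 4) .nil .nil))) 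
(.lf (nat_lit 15811) (.g (nat_lit 4398) (.e (nat_lit 1125) (nat_lit 83) (.e (nat_lit 16470) (nat_lit 14) (.e (nat_lit 491540) (nat_lit 3) (.e (nat_lit 98373) (nat_lit 29) (.e (nat_lit 450567) (nat_lit 0) .nil))))) .nil))) (.nd (nat_lit 6) 
(.lf (nat_lit 15779) (.g (nat_lit 2350) (.e (nat_lit 1124) (nat_lit 83) (.e (nat_lit 16473) (nat_lit 14) (.e (nat_lit 491539) (nat_lit 3) (.e (nat_lit 98373) (nat_lit 29) .nil)))) .nil)) 
(.lf (nat_lit 15843) (.g (nat_lit 4149) (.e (nat_lit 1125) (nat_lit 83) (.e (nat_lit 16473) (nat_lit 14) (.e (nat_lit 491538) (nat_lit 3) (.e (nat_lit 98370) (nat_lit 28) (.e (nat_lit 442430) (nat_lit 24) (.e (nat_lit 229525) (nat_lit 128) .nil)))))) (.g (nat_lit 5) .nil .nil))))) (.nd (nat_lit 5) (.nd (nat_lit 6) 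
(.lf (nat_lit 15763) (.g (nat_lit 2051) (.e (nat_lit 1124) (nat_lit 83) (.e (nat_lit 16470) (nat_lit 14) (.e (nat_lit 491540) (nat_lit 3) .nil))) .nil)) 
(.lf (nat_lit 15827) (.g (nat_lit 4346) (.e (nat_lit 1125) (nat_lit 83) (.e (nat_lit 16473) (nat_lit 14) (.e (nat_lit 491535) (nat_lit 2) (.e (nat_lit 90170) (nat_lit 13) (.e (nat_lit 172106) (nat_lit 10) (.e (nat_lit 434209) (nat_lit 18) (.e (nat_lit 4216) (nat_lit 251) .nil))))))) (.g (nat_lit 5) .nil .nil)))) (.nd (nat_lit 6) 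
(.lf (nat_lit 15795) (.g (nat_lit 3660) (.e (nat_lit 1125) (nat_lit 83) (.e (nat_lit 16416) (nat_lit 3) (.e (nat_lit 204868) (nat_lit 29) (.e (nat_lit 360466) (nat_lit 3) (.e (nat_lit 516120) (nat_lit 1) .nil))))) .nil)) 
(.lf (nat_lit 15859) (.g (nat_lit 1325) (.e (nat_lit 1125) (nat_lit 83) (.e (nat_lit 16473) (nat_lit 14) (.e (nat_lit 491546) (nat_lit 9) .nil))) .nil))))) (.nd (nat_lit 4) (.nd (nat_lit 5) (.nd (nat_lit 6) 
(.lf (nat_lit 15755) (.g (nat_lit 3353) (.e (nat_lit 1124) (nat_lit 83) (.e (nat_lit 16466) (nat_lit 13) (.e (nat_lit 483413) (nat_lit 27) (.e (nat_lit 401447) (nat_lit 10) (.e (nat_lit 434201) (nat_lit 18) (.e (nat_lit 6535) (nat_lit 351) .nil)))))) (.g (nat_lit 5) .nil .nil))) 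
(.lf (nat_lit 15819) (.g (nat_lit 3318) (.e (nat_lit 1125) (nat_lit 83) (.e (nat_lit 16473) (nat_lit 14) (.e (nat_lit 491526) (nat_lit 0) (.e (nat_lit 1788) (nat_lit 119) (.e (nat_lit 516163) (nat_lit 11) (.e (nat_lit 442430) (nat_lit 24) (.e (nat_lit 229522) (nat_lit 128) .nil))))))) (.g (nat_lit 4) .nil .nil)))) (.nd (nat_lit 6) 
(.lf (nat_lit 15787) (.g (nat_lit 2794) (.e (nat_lit 1125) (nat_lit 83) (.e (nat_lit 16412) (nat_lit 2) (.e (nat_lit 196672) (nat_lit 15) (.e (nat_lit 81954) (nat_lit 23) (.e (nat_lit 98334) (nat_lit 18) (.e (nat_lit 171776) (nat_lit 278) .nil)))))) (.g (nat_lit 5) .nil .nil))) 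
(.lf (nat_lit 15851) (.g (nat_lit 1191) (.e (nat_lit 1125) (nat_lit 83) (.e (nat_lit 16473) (nat_lit 14) (.e (nat_lit 491539) (nat_lit 3) .nil))) .nil)))) (.nd (nat_lit 5) (.nd (nat_lit 6) 
(.lf (nat_lit 15771) (.g (nat_lit 6193) (.e (nat_lit 1124) (nat_lit 83) (.e (nat_lit 16473) (nat_lit 14) (.e (nat_lit 491526) (nat_lit 0) (.e (nat_lit 1788) (nat_lit 119) (.e (nat_lit 516166) (nat_lit 12) (.e (nat_lit 450562) (nat_lit 0) (.e (nat_lit 4186) (nat_lit 251) .nil))))))) (.g (nat_lit 7) .nil .nil))) 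
(.lf (nat_lit 15835) (.g (nat_lit 2266) (.e (nat_lit 1125) (nat_lit 83) (.e (nat_lit 16473) (nat_lit 14) (.e (nat_lit 491536) (nat_lit 2) (.e (nat_lit 90170) (nat_lit 13) .nil)))) .nil))) (.nd (nat_lit 6) 
(.lf (nat_lit 15803) (.g (nat_lit 1394) (.e (nat_lit 1125) (nat_lit 83) (.e (nat_lit 16466) (nat_lit 13) (.e (nat_lit 483413) (nat_lit 27) .nil))) .nil)) 
(.lf (nat_lit 15867) (.g (nat_lit 3686) (.e (nat_lit 1125) (nat_lit 83) (.e (nat_lit 16473) (nat_lit 14) (.e (nat_lit 491559) (nat_lit 10) (.e (nat_lit 344177) (nat_lit 43) (.e (nat_lit 770072) (nat_lit 8) .nil))))) .nil)))))) (.nd (nat_lit 3) (.nd (nat_lit 4) (.nd (nat_lit 5) (.nd (nat_lit 6) 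
(.lf (nat_lit 15751) (.g (nat_lit 1037) (.e (nat_lit 1124) (nat_lit 83) (.e (nat_lit 16466) (nat_lit 13) (.e (nat_lit 483346) (nat_lit 17) .nil))) .nil)) 
(.lf (nat_lit 15815) (.g (nat_lit 3146) (.e (nat_lit 1125) (nat_lit 83) (.e (nat_lit 16473) (nat_lit 14) (.e (nat_lit 491526) (nat_lit 0) (.e (nat_lit 1788) (nat_lit 119) (.e (nat_lit 516151) (nat_lit 9) .nil))))) .nil))) (.nd (nat_lit 6) 
(.lf (nat_lit 15783) (.g (nat_lit 3652) (.e (nat_lit 1124) (nat_lit 83) (.e (nat_lit 16473) (nat_lit 14) (.e (nat_lit 491544) (nat_lit 7) (.e (nat_lit 319533) (nat_lit 16) (.e (nat_lit 286753) (nat_lit 10) .nil))))) .nil)) 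
(.lf (nat_lit 15847) (.g (nat_lit 2246) (.e (nat_lit 1125) (nat_lit 83) (.e (nat_lit 16473) (nat_lit 14) (.e (nat_lit 491538) (nat_lit 3) (.e (nat_lit 98381) (nat_lit 31) .nil)))) .nil)))) (.nd (nat_lit 5) (.nd (nat_lit 6) 
(.lf (nat_lit 15767) (.g (nat_lit 1085) (.e (nat_lit 1124) (nat_lit 83) (.e (nat_lit 16470) (nat_lit 14) (.e (nat_lit 491571) (nat_lit 13) .nil))) .nil)) 
(.lf (nat_lit 15831) (.g (nat_lit 3564) (.e (nat_lit 1125) (nat_lit 83) (.e (nat_lit 16473) (nat_lit 14) (.e (nat_lit 491535) (nat_lit 2) (.e (nat_lit 90176) (nat_lit 15) (.e (nat_lit 188453) (nat_lit 24) (.e (nat_lit 229524) (nat_lit 128) .nil)))))) (.g (nat_lit 4) .nil .nil)))) (.nd (nat_lit 6) 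
(.lf (nat_lit 15799) (.g (nat_lit 575) (.e (nat_lit 1125) (nat_lit 83) (.e (nat_lit 16438) (nat_lit 9) (.e (nat_lit 426364) (nat_lit 15) .nil))) .nil)) 
(.lf (nat_lit 15863) (.g (nat_lit 1382) (.e (nat_lit 1125) (nat_lit 83) (.e (nat_lit 16473) (nat_lit 14) (.e (nat_lit 491547) (nat_lit 9) .nil))) .nil))))) (.nd (nat_lit 4) (.nd (nat_lit 5) (.nd (nat_lit 6) 
(.lf (nat_lit 15759) (.g (nat_lit 778) (.e (nat_lit 1124) (nat_lit 83) (.e (nat_lit 16469) (nat_lit 14) (.e (nat_lit 491540) (nat_lit 3) .nil))) .nil)) 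
(.lf (nat_lit 15823) (.g (nat_lit 3198) (.e (nat_lit 1125) (nat_lit 83) (.e (nat_lit 16473) (nat_lit 14) (.e (nat_lit 491526) (nat_lit 0) (.e (nat_lit 1788) (nat_lit 119) (.e (nat_lit 516166) (nat_lit 12) (.e (nat_lit 450563) (nat_lit 0) (.e (nat_lit 4210) (nat_lit 251) .nil))))))) (.g (nat_lit 4) .nil .nil)))) (.nd (nat_lit 6) 
(.lf (nat_lit 15791) (.g (nat_lit 1694) (.e (nat_lit 1125) (nat_lit 83) (.e (nat_lit 16416) (nat_lit 3) (.e (nat_lit 204861) (nat_lit 26) (.e (nat_lit 336186) (nat_lit 11) .nil)))) .nil)) 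
(.lf (nat_lit 15855) (.g (nat_lit 3422) (.e (nat_lit 1125) (nat_lit 83) (.e (nat_lit 16473) (nat_lit 14) (.e (nat_lit 491544) (nat_lit 7) (.e (nat_lit 319530) (nat_lit 16) (.e (nat_lit 286759) (nat_lit 12) (.e (nat_lit 385045) (nat_lit 21) (.e (nat_lit 7660) (nat_lit 410) .nil))))))) (.g (nat_lit 4) .nil .nil))))) (.nd (nat_lit 5) (.nd (nat_lit 6) 
(.lf (nat_lit 15775) (.g (nat_lit 2853) (.e (nat_lit 1124) (nat_lit 83) (.e (nat_lit 16473) (nat_lit 14) (.e (nat_lit 491535) (nat_lit 2) (.e (nat_lit 90176) (nat_lit 15) .nil)))) .nil)) 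
(.lf (nat_lit 15839) (.g (nat_lit 3277) (.e (nat_lit 1125) (nat_lit 83) (.e (nat_lit 16473) (nat_lit 14) (.e (nat_lit 491538) (nat_lit 3) (.e (nat_lit 98370) (nat_lit 28) (.e (nat_lit 442421) (nat_lit 21) .nil))))) .nil))) (.nd (nat_lit 6) 
(.lf (nat_lit 15807) (.g (nat_lit 2048) (.e (nat_lit 1125) (nat_lit 83) (.e (nat_lit 16470) (nat_lit 14) (.e (nat_lit 491540) (nat_lit 3) .nil))) .nil)) 
(.lf (nat_lit 15871) (.g (nat_lit 1183) (.e (nat_lit 1125) (nat_lit 83) (.e (nat_lit 16473) (nat_lit 14) (.e (nat_lit 491567) (nat_lit 13) .nil))) .nil)))))))))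

noncomputable def tv217 : DT := (.nd (nat_lit 0) (.nd (nat_lit 1) (.nd (nat_lit 2) (.nd (nat_lit 3) (.nd (nat_lit 4) (.nd (nat_lit 5) (.nd (nat_lit 6) 
(.lf (nat_lit 15872) (.g (nat_lit 2127) (.e (nat_lit 1125) (nat_lit 83) (.e (nat_lit 16473) (nat_lit 14) (.e (nat_lit 491567) (nat_lit 13) (.e (nat_lit 393281) (nat_lit 23) .nil)))) .nil)) 
(.lf (nat_lit 15936) (.g (nat_lit 2551) (.e (nat_lit 1126) (nat_lit 83) (.e (nat_lit 16466) (nat_lit 13) (.e (nat_lit 483413) (nat_lit 27) (.e (nat_lit 401448) (nat_lit 10) .nil)))) .nil))) (.nd (nat_lit 6) 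
(.lf (nat_lit 15904) (.g (nat_lit 2603) (.e (nat_lit 1126) (nat_lit 83) (.e (nat_lit 16425) (nat_lit 7) (.e (nat_lit 409648) (nat_lit 18) (.e (nat_lit 303137) (nat_lit 10) (.e (nat_lit 434271) (nat_lit 38) (.e (nat_lit 655398) (nat_lit 12) (.e (nat_lit 57353) (nat_lit 0) (.e (nat_lit 6575) (nat_lit 351) .nil)))))))) (.g (nat_lit 4) .nil .nil))) 
(.lf (nat_lit 15968) (.g (nat_lit 2855) (.e (nat_lit 1126) (nat_lit 83) (.e (nat_lit 16473) (nat_lit 14) (.e (nat_lit 491535) (nat_lit 2) (.e (nat_lit 90176) (nat_lit 15) (.e (nat_lit 188444) (nat_lit 21) .nil))))) .nil)))) (.nd (nat_lit 5) (.nd (nat_lit 6) 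
(.lf (nat_lit 15888) (.g (nat_lit 1694) (.e (nat_lit 1126) (nat_lit 83) (.e (nat_lit 16416) (nat_lit 3) (.e (nat_lit 204861) (nat_lit 26) (.e (nat_lit 336186) (nat_lit 11) .nil)))) .nil)) 
(.lf (nat_lit 15952) (.g (nat_lit 2209) (.e (nat_lit 1126) (nat_lit 83) (.e (nat_lit 16473) (nat_lit 14) (.e (nat_lit 491526) (nat_lit 0) (.e (nat_lit 1698) (nat_lit 117) (.e (nat_lit 507648) (nat_lit 13) .nil))))) .nil))) (.nd (nat_lit 6) 
(.lf (nat_lit 15920) (.g (nat_lit 2122) (.e (nat_lit 1126) (nat_lit 83) (.e (nat_lit 16448) (nat_lit 10) (.e (nat_lit 434231) (nat_lit 23) (.e (nat_lit 532569) (nat_lit 16) .nil)))) .nil)) 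
(.lf (nat_lit 15984) (.g (nat_lit 3756) (.e (nat_lit 1126) (nat_lit 83) (.e (nat_lit 16473) (nat_lit 14) (.e (nat_lit 491538) (nat_lit 3) (.e (nat_lit 98370) (nat_lit 28) (.e (nat_lit 442430) (nat_lit 24) (.e (nat_lit 229522) (nat_lit 128) .nil)))))) (.g (nat_lit 6) .nil .nil)))))) (.nd (nat_lit 4) (.nd (nat_lit 5) (.nd (nat_lit 6) 
(.lf (nat_lit 15880) (.g (nat_lit 3209) (.e (nat_lit 1125) (nat_lit 83) (.e (nat_lit 16473) (nat_lit 14) (.e (nat_lit 491568) (nat_lit 13) (.e (nat_lit 393283) (nat_lit 24) (.e (nat_lit 434208) (nat_lit 18) .nil))))) .nil)) 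
(.lf (nat_lit 15944) (.g (nat_lit 3652) (.e (nat_lit 1126) (nat_lit 83) (.e (nat_lit 16470) (nat_lit 14) (.e (nat_lit 491540) (nat_lit 3) (.e (nat_lit 98373) (nat_lit 29) (.e (nat_lit 450563) (nat_lit 0) .nil))))) .nil))) (.nd (nat_lit 6) 
(.lf (nat_lit 15912) (.g (nat_lit 1587) (.e (nat_lit 1126) (nat_lit 83) (.e (nat_lit 16425) (nat_lit 7) (.e (nat_lit 409649) (nat_lit 18) (.e (nat_lit 303140) (nat_lit 10) .nil)))) .nil)) 
(.lf (nat_lit 15976) (.g (nat_lit 2148) (.e (nat_lit 1126) (nat_lit 83) (.e (nat_lit 16473) (nat_lit 14) (.e (nat_lit 491535) (nat_lit 2) (.e (nat_lit 90177) (nat_lit 15) .nil)))) .nil)))) (.nd (nat_lit 5) (.nd (nat_lit 6) 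
(.lf (nat_lit 15896) (.g (nat_lit 967) (.e (nat_lit 1126) (nat_lit 83) (.e (nat_lit 16425) (nat_lit 7) (.e (nat_lit 409616) (nat_lit 10) (.e (nat_lit 632) (nat_lit 50) .nil)))) .nil)) 
(.lf (nat_lit 15960) (.g (nat_lit 3738) (.e (nat_lit 1126) (nat_lit 83) (.e (nat_lit 16473) (nat_lit 14) (.e (nat_lit 491526) (nat_lit 0) (.e (nat_lit 1788) (nat_lit 119) (.e (nat_lit 516166) (nat_lit 12) (.e (nat_lit 450563) (nat_lit 0) (.e (nat_lit 4212) (nat_lit 251) .nil))))))) (.g (nat_lit 5) .nil .nil)))) (.nd (nat_lit 6) 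
(.lf (nat_lit 15928) (.g (nat_lit 916) (.e (nat_lit 1126) (nat_lit 83) (.e (nat_lit 16455) (nat_lit 12) (.e (nat_lit 475211) (nat_lit 41) (.e (nat_lit 712755) (nat_lit 30) .nil)))) .nil)) 
(.lf (nat_lit 15992) (.g (nat_lit 2807) (.e (nat_lit 1126) (nat_lit 83) (.e (nat_lit 16473) (nat_lit 14) (.e (nat_lit 491539) (nat_lit 3) (.e (nat_lit 98370) (nat_lit 28) (.e (nat_lit 442430) (nat_lit 24) .nil))))) .nil)))))) (.nd (nat_lit 3) (.nd (nat_lit 4) (.nd (nat_lit 5) (.nd (nat_lit 6) 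
(.lf (nat_lit 15876) (.g (nat_lit 1009) (.e (nat_lit 1125) (nat_lit 83) (.e (nat_lit 16473) (nat_lit 14) (.e (nat_lit 491568) (nat_lit 13) .nil))) .nil)) 
(.lf (nat_lit 15940) (.g (nat_lit 3224) (.e (nat_lit 1126) (nat_lit 83) (.e (nat_lit 16470) (nat_lit 14) (.e (nat_lit 491537) (nat_lit 2) (.e (nat_lit 90170) (nat_lit 13) (.e (nat_lit 172106) (nat_lit 10) (.e (nat_lit 434202) (nat_lit 18) (.e (nat_lit 4203) (nat_lit 251) .nil))))))) (.g (nat_lit 4) .nil .nil)))) (.nd (nat_lit 6) 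
(.lf (nat_lit 15908) (.g (nat_lit 2471) (.e (nat_lit 1126) (nat_lit 83) (.e (nat_lit 16425) (nat_lit 7) (.e (nat_lit 409648) (nat_lit 18) (.e (nat_lit 303137) (nat_lit 10) (.e (nat_lit 434275) (nat_lit 39) (.e (nat_lit 663584) (nat_lit 12) (.e (nat_lit 163848) (nat_lit 0) (.e (nat_lit 6579) (nat_lit 351) .nil)))))))) (.g (nat_lit 4) .nil .nil))) 
(.lf (nat_lit 15972) (.g (nat_lit 2985) (.e (nat_lit 1126) (nat_lit 83) (.e (nat_lit 16473) (nat_lit 14) (.e (nat_lit 491535) (nat_lit 2) (.e (nat_lit 90176) (nat_lit 15) (.e (nat_lit 188453) (nat_lit 24) .nil))))) .nil)))) (.nd (nat_lit 5) (.nd (nat_lit 6) 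
(.lf (nat_lit 15892) (.g (nat_lit 1344) (.e (nat_lit 1126) (nat_lit 83) (.e (nat_lit 16416) (nat_lit 3) (.e (nat_lit 204869) (nat_lit 29) .nil))) .nil)) 
(.lf (nat_lit 15956) (.g (nat_lit 2540) (.e (nat_lit 1126) (nat_lit 83) (.e (nat_lit 16473) (nat_lit 14) (.e (nat_lit 491526) (nat_lit 0) (.e (nat_lit 1788) (nat_lit 119) (.e (nat_lit 516165) (nat_lit 12) .nil))))) .nil))) (.nd (nat_lit 6) 
(.lf (nat_lit 15924) (.g (nat_lit 1612) (.e (nat_lit 1126) (nat_lit 83) (.e (nat_lit 16448) (nat_lit 10) (.e (nat_lit 434268) (nat_lit 36) (.e (nat_lit 639020) (nat_lit 16) .nil)))) .nil)) 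
(.lf (nat_lit 15988) (.g (nat_lit 2331) (.e (nat_lit 1126) (nat_lit 83) (.e (nat_lit 16473) (nat_lit 14) (.e (nat_lit 491538) (nat_lit 3) (.e (nat_lit 98381) (nat_lit 31) (.e (nat_lit 466971) (nat_lit 21) .nil))))) .nil))))) (.nd (nat_lit 4) (.nd (nat_lit 5) (.nd (nat_lit 6) 
(.lf (nat_lit 15884) (.g (nat_lit 1415) (.e (nat_lit 1126) (nat_lit 83) (.e (nat_lit 16396) (nat_lit 0) (.e (nat_lit 3579) (nat_lit 223) (.e (nat_lit 745476) (nat_lit 0) (.e (nat_lit 1598) (nat_lit 111) .nil))))) .nil)) 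
(.lf (nat_lit 15948) (.g (nat_lit 839) (.e (nat_lit 1126) (nat_lit 83) (.e (nat_lit 16470) (nat_lit 14) (.e (nat_lit 491571) (nat_lit 13) .nil))) .nil))) (.nd (nat_lit 6) 
(.lf (nat_lit 15916) (.g (nat_lit 2580) (.e (nat_lit 1126) (nat_lit 83) (.e (nat_lit 16425) (nat_lit 7) (.e (nat_lit 409649) (nat_lit 18) (.e (nat_lit 303140) (nat_lit 10) (.e (nat_lit 434275) (nat_lit 39) (.e (nat_lit 663584) (nat_lit 12) (.e (nat_lit 163849) (nat_lit 0) (.e (nat_lit 6579) (nat_lit 351) .nil)))))))) (.g (nat_lit 4) .nil .nil))) 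
(.lf (nat_lit 15980) (.g (nat_lit 1683) (.e (nat_lit 1126) (nat_lit 83) (.e (nat_lit 16473) (nat_lit 14) (.e (nat_lit 491536) (nat_lit 2) (.e (nat_lit 90176) (nat_lit 15) .nil)))) .nil)))) (.nd (nat_lit 5) (.nd (nat_lit 6) 
(.lf (nat_lit 15900) (.g (nat_lit 876) (.e (nat_lit 1126) (nat_lit 83) (.e (nat_lit 16425) (nat_lit 7) (.e (nat_lit 409640) (nat_lit 17) .nil))) .nil)) 
(.lf (nat_lit 15964) (.g (nat_lit 5546) (.e (nat_lit 1126) (nat_lit 83) (.e (nat_lit 16473) (nat_lit 14) (.e (nat_lit 491535) (nat_lit 2) (.e (nat_lit 90170) (nat_lit 13) (.e (nat_lit 172106) (nat_lit 10) (.e (nat_lit 434209) (nat_lit 18) (.e (nat_lit 4214) (nat_lit 251) .nil))))))) (.g (nat_lit 0) .nil .nil)))) (.nd (nat_lit 6) 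
(.lf (nat_lit 15932) (.g (nat_lit 1733) (.e (nat_lit 1126) (nat_lit 83) (.e (nat_lit 16459) (nat_lit 12) (.e (nat_lit 475207) (nat_lit 41) (.e (nat_lit 712755) (nat_lit 30) (.e (nat_lit 450562) (nat_lit 0) (.e (nat_lit 4805) (nat_lit 281) .nil)))))) (.g (nat_lit 4) .nil .nil))) 
(.lf (nat_lit 15996) (.g (nat_lit 2890) (.e (nat_lit 1126) (nat_lit 83) (.e (nat_lit 16473) (nat_lit 14) (.e (nat_lit 491539) (nat_lit 3) (.e (nat_lit 98373) (nat_lit 29) (.e (nat_lit 450569) (nat_lit 0) (.e (nat_lit 4215) (nat_lit 251) .nil)))))) (.g (nat_lit 4) .nil .nil)))))))) (.nd (nat_lit 2) (.nd (nat_lit 3) (.nd (nat_lit 4) (.nd (nat_lit 5) (.nd (nat_lit 6) 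
(.lf (nat_lit 15874) (.g (nat_lit 2595) (.e (nat_lit 1125) (nat_lit 83) (.e (nat_lit 16473) (nat_lit 14) (.e (nat_lit 491567) (nat_lit 13) (.e (nat_lit 393281) (nat_lit 23) (.e (nat_lit 426100) (nat_lit 1) .nil))))) .nil)) 
(.lf (nat_lit 15938) (.g (nat_lit 1729) (.e (nat_lit 1126) (nat_lit 83) (.e (nat_lit 16470) (nat_lit 14) (.e (nat_lit 491537) (nat_lit 2) .nil))) .nil))) (.nd (nat_lit 6) 
(.lf (nat_lit 15906) (.g (nat_lit 2530) (.e (nat_lit 1126) (nat_lit 83) (.e (nat_lit 16425) (nat_lit 7) (.e (nat_lit 409648) (nat_lit 18) (.e (nat_lit 303137) (nat_lit 10) (.e (nat_lit 434275) (nat_lit 39) (.e (nat_lit 663584) (nat_lit 12) (.e (nat_lit 163843) (nat_lit 0) (.e (nat_lit 6579) (nat_lit 351) .nil)))))))) (.g (nat_lit 4) .nil .nil))) 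
(.lf (nat_lit 15970) (.g (nat_lit 3965) (.e (nat_lit 1126) (nat_lit 83) (.e (nat_lit 16473) (nat_lit 14) (.e (nat_lit 491535) (nat_lit 2) (.e (nat_lit 90176) (nat_lit 15) (.e (nat_lit 188444) (nat_lit 21) (.e (nat_lit 164119) (nat_lit 128) .nil)))))) (.g (nat_lit 0) .nil .nil))))) (.nd (nat_lit 5) (.nd (nat_lit 6) 
(.lf (nat_lit 15890) (.g (nat_lit 2919) (.e (nat_lit 1126) (nat_lit 83) (.e (nat_lit 16416) (nat_lit 3) (.e (nat_lit 204868) (nat_lit 29) (.e (nat_lit 360473) (nat_lit 8) .nil)))) .nil)) 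
(.lf (nat_lit 15954) (.g (nat_lit 2679) (.e (nat_lit 1126) (nat_lit 83) (.e (nat_lit 16473) (nat_lit 14) (.e (nat_lit 491526) (nat_lit 0) (.e (nat_lit 1788) (nat_lit 119) (.e (nat_lit 516151) (nat_lit 9) (.e (nat_lit 426286) (nat_lit 10) (.e (nat_lit 434203) (nat_lit 18) (.e (nat_lit 4205) (nat_lit 251) .nil)))))))) (.g (nat_lit 4) .nil .nil)))) (.nd (nat_lit 6) 
(.lf (nat_lit 15922) (.g (nat_lit 1834) (.e (nat_lit 1126) (nat_lit 83) (.e (nat_lit 16448) (nat_lit 10) (.e (nat_lit 434268) (nat_lit 36) (.e (nat_lit 639005) (nat_lit 13) .nil)))) .nil)) 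
(.lf (nat_lit 15986) (.g (nat_lit 3853) (.e (nat_lit 1126) (nat_lit 83) (.e (nat_lit 16473) (nat_lit 14) (.e (nat_lit 491538) (nat_lit 3) (.e (nat_lit 98370) (nat_lit 28) (.e (nat_lit 442430) (nat_lit 24) (.e (nat_lit 229525) (nat_lit 128) .nil)))))) (.g (nat_lit 0) .nil .nil)))))) (.nd (nat_lit 4) (.nd (nat_lit 5) (.nd (nat_lit 6) 
(.lf (nat_lit 15882) (.g (nat_lit 509) (.e (nat_lit 1126) (nat_lit 83) (.e (nat_lit 16388) (nat_lit 0) (.e (nat_lit 7583) (nat_lit 405) .nil))) .nil)) 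
(.lf (nat_lit 15946) (.g (nat_lit 3932) (.e (nat_lit 1126) (nat_lit 83) (.e (nat_lit 16470) (nat_lit 14) (.e (nat_lit 491540) (nat_lit 3) (.e (nat_lit 98373) (nat_lit 29) (.e (nat_lit 450568) (nat_lit 0) .nil))))) .nil))) (.nd (nat_lit 6) 
(.lf (nat_lit 15914) (.g (nat_lit 3350) (.e (nat_lit 1126) (nat_lit 83) (.e (nat_lit 16425) (nat_lit 7) (.e (nat_lit 409649) (nat_lit 18) (.e (nat_lit 303140) (nat_lit 10) (.e (nat_lit 434275) (nat_lit 39) (.e (nat_lit 663584) (nat_lit 12) (.e (nat_lit 163844) (nat_lit 0) (.e (nat_lit 6579) (nat_lit 351) .nil)))))))) (.g (nat_lit 6) .nil .nil))) 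
(.lf (nat_lit 15978) (.g (nat_lit 2099) (.e (nat_lit 1126) (nat_lit 83) (.e (nat_lit 16473) (nat_lit 14) (.e (nat_lit 491535) (nat_lit 2) (.e (nat_lit 90185) (nat_lit 17) .nil)))) .nil)))) (.nd (nat_lit 5) (.nd (nat_lit 6) 
(.lf (nat_lit 15898) (.g (nat_lit 1824) (.e (nat_lit 1126) (nat_lit 83) (.e (nat_lit 16425) (nat_lit 7) (.e (nat_lit 409617) (nat_lit 10) (.e (nat_lit 632) (nat_lit 50) .nil)))) .nil)) 
(.lf (nat_lit 15962) (.g (nat_lit 1926) (.e (nat_lit 1126) (nat_lit 83) (.e (nat_lit 16473) (nat_lit 14) (.e (nat_lit 491530) (nat_lit 0) (.e (nat_lit 1796) (nat_lit 119) (.e (nat_lit 516166) (nat_lit 12) .nil))))) .nil))) (.nd (nat_lit 6) 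
(.lf (nat_lit 15930) (.g (nat_lit 2612) (.e (nat_lit 1126) (nat_lit 83) (.e (nat_lit 16456) (nat_lit 12) (.e (nat_lit 475211) (nat_lit 41) (.e (nat_lit 712755) (nat_lit 30) (.e (nat_lit 450562) (nat_lit 0) .nil))))) .nil)) 
(.lf (nat_lit 15994) (.g (nat_lit 3214) (.e (nat_lit 1126) (nat_lit 83) (.e (nat_lit 16473) (nat_lit 14) (.e (nat_lit 491539) (nat_lit 3) (.e (nat_lit 98373) (nat_lit 29) (.e (nat_lit 450566) (nat_lit 0) .nil))))) .nil)))))) (.nd (nat_lit 3) (.nd (nat_lit 4) (.nd (nat_lit 5) (.nd (nat_lit 6) 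
(.lf (nat_lit 15878) (.g (nat_lit 2727) (.e (nat_lit 1125) (nat_lit 83) (.e (nat_lit 16473) (nat_lit 14) (.e (nat_lit 491568) (nat_lit 13) (.e (nat_lit 393282) (nat_lit 24) .nil)))) .nil)) 
(.lf (nat_lit 15942) (.g (nat_lit 1691) (.e (nat_lit 1126) (nat_lit 83) (.e (nat_lit 16470) (nat_lit 14) (.e (nat_lit 491540) (nat_lit 3) .nil))) .nil))) (.nd (nat_lit 6) 
(.lf (nat_lit 15910) (.g (nat_lit 4073) (.e (nat_lit 1126) (nat_lit 83) (.e (nat_lit 16425) (nat_lit 7) (.e (nat_lit 409648) (nat_lit 18) (.e (nat_lit 303146) (nat_lit 14) (.e (nat_lit 491566) (nat_lit 12) (.e (nat_lit 385043) (nat_lit 21) (.e (nat_lit 7660) (nat_lit 410) .nil))))))) (.g (nat_lit 5) .nil .nil))) 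
(.lf (nat_lit 15974) (.g (nat_lit 3137) (.e (nat_lit 1126) (nat_lit 83) (.e (nat_lit 16473) (nat_lit 14) (.e (nat_lit 491535) (nat_lit 2) (.e (nat_lit 90176) (nat_lit 15) (.e (nat_lit 188454) (nat_lit 24) .nil))))) .nil)))) (.nd (nat_lit 5) (.nd (nat_lit 6) 
(.lf (nat_lit 15894) (.g (nat_lit 3587) (.e (nat_lit 1126) (nat_lit 83) (.e (nat_lit 16416) (nat_lit 3) (.e (nat_lit 204869) (nat_lit 29) (.e (nat_lit 360474) (nat_lit 8) (.e (nat_lit 557091) (nat_lit 12) (.e (nat_lit 163842) (nat_lit 0) (.e (nat_lit 6573) (nat_lit 351) .nil))))))) (.g (nat_lit 4) .nil .nil))) 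
(.lf (nat_lit 15958) (.g (nat_lit 2431) (.e (nat_lit 1126) (nat_lit 83) (.e (nat_lit 16473) (nat_lit 14) (.e (nat_lit 491526) (nat_lit 0) (.e (nat_lit 1788) (nat_lit 119) (.e (nat_lit 516166) (nat_lit 12) .nil))))) .nil))) (.nd (nat_lit 6) 
(.lf (nat_lit 15926) (.g (nat_lit 3819) (.e (nat_lit 1126) (nat_lit 83) (.e (nat_lit 16448) (nat_lit 10) (.e (nat_lit 434268) (nat_lit 36) (.e (nat_lit 639020) (nat_lit 16) (.e (nat_lit 65624) (nat_lit 12) (.e (nat_lit 385045) (nat_lit 21) (.e (nat_lit 7660) (nat_lit 410) .nil))))))) (.g (nat_lit 7) .nil .nil))) 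
(.lf (nat_lit 15990) (.g (nat_lit 748) (.e (nat_lit 1126) (nat_lit 83) (.e (nat_lit 16473) (nat_lit 14) (.e (nat_lit 491539) (nat_lit 3) .nil))) .nil))))) (.nd (nat_lit 4) (.nd (nat_lit 5) (.nd (nat_lit 6) 
(.lf (nat_lit 15886) (.g (nat_lit 2073) (.e (nat_lit 1126) (nat_lit 83) (.e (nat_lit 16411) (nat_lit 2) (.e (nat_lit 196672) (nat_lit 15) (.e (nat_lit 81954) (nat_lit 23) (.e (nat_lit 98334) (nat_lit 18) (.e (nat_lit 171776) (nat_lit 278) .nil)))))) (.g (nat_lit 5) .nil .nil))) 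
(.lf (nat_lit 15950) (.g (nat_lit 3070) (.e (nat_lit 1126) (nat_lit 83) (.e (nat_lit 16470) (nat_lit 14) (.e (nat_lit 491571) (nat_lit 13) (.e (nat_lit 393283) (nat_lit 24) (.e (nat_lit 434208) (nat_lit 18) (.e (nat_lit 4751) (nat_lit 281) .nil)))))) (.g (nat_lit 4) .nil .nil)))) (.nd (nat_lit 6) 
(.lf (nat_lit 15918) (.g (nat_lit 4884) (.e (nat_lit 1126) (nat_lit 83) (.e (nat_lit 16425) (nat_lit 7) (.e (nat_lit 409649) (nat_lit 18) (.e (nat_lit 303146) (nat_lit 14) (.e (nat_lit 491566) (nat_lit 12) (.e (nat_lit 385043) (nat_lit 21) (.e (nat_lit 7665) (nat_lit 410) .nil))))))) (.g (nat_lit 6) .nil .nil))) 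
(.lf (nat_lit 15982) (.g (nat_lit 2363) (.e (nat_lit 1126) (nat_lit 83) (.e (nat_lit 16473) (nat_lit 14) (.e (nat_lit 491538) (nat_lit 3) (.e (nat_lit 98365) (nat_lit 26) (.e (nat_lit 426298) (nat_lit 11) .nil))))) .nil)))) (.nd (nat_lit 5) (.nd (nat_lit 6) 
(.lf (nat_lit 15902) (.g (nat_lit 907) (.e (nat_lit 1126) (nat_lit 83) (.e (nat_lit 16425) (nat_lit 7) (.e (nat_lit 409642) (nat_lit 17) .nil))) .nil)) 
(.lf (nat_lit 15966) (.g (nat_lit 2070) (.e (nat_lit 1126) (nat_lit 83) (.e (nat_lit 16473) (nat_lit 14) (.e (nat_lit 491535) (nat_lit 2) (.e (nat_lit 90176) (nat_lit 15) .nil)))) .nil))) (.nd (nat_lit 6) 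
(.lf (nat_lit 15934) (.g (nat_lit 1441) (.e (nat_lit 1126) (nat_lit 83) (.e (nat_lit 16466) (nat_lit 13) (.e (nat_lit 483413) (nat_lit 27) .nil))) .nil)) 
(.lf (nat_lit 15998) (.g (nat_lit 1877) (.e (nat_lit 1126) (nat_lit 83) (.e (nat_lit 16473) (nat_lit 14) (.e (nat_lit 491539) (nat_lit 3) (.e (nat_lit 98374) (nat_lit 29) .nil)))) .nil)))))))) (.nd (nat_lit 1) (.nd (nat_lit 2) (.nd (nat_lit 3) (.nd (nat_lit 4) (.nd (nat_lit 5) (.nd (nat_lit 6) 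
(.lf (nat_lit 15873) (.g (nat_lit 2615) (.e (nat_lit 1125) (nat_lit 83) (.e (nat_lit 16473) (nat_lit 14) (.e (nat_lit 491567) (nat_lit 13) (.e (nat_lit 393281) (nat_lit 23) (.e (nat_lit 426099) (nat_lit 1) .nil))))) .nil)) 
(.lf (nat_lit 15937) (.g (nat_lit 1596) (.e (nat_lit 1126) (nat_lit 83) (.e (nat_lit 16469) (nat_lit 14) (.e (nat_lit 491540) (nat_lit 3) (.e (nat_lit 98373) (nat_lit 29) .nil)))) .nil))) (.nd (nat_lit 6) 
(.lf (nat_lit 15905) (.g (nat_lit 2504) (.e (nat_lit 1126) (nat_lit 83) (.e (nat_lit 16425) (nat_lit 7) (.e (nat_lit 409648) (nat_lit 18) (.e (nat_lit 303137) (nat_lit 10) (.e (nat_lit 434272) (nat_lit 38) .nil))))) .nil)) 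
(.lf (nat_lit 15969) (.g (nat_lit 2886) (.e (nat_lit 1126) (nat_lit 83) (.e (nat_lit 16473) (nat_lit 14) (.e (nat_lit 491535) (nat_lit 2) (.e (nat_lit 90176) (nat_lit 15) (.e (nat_lit 188444) (nat_lit 21) (.e (nat_lit 164117) (nat_lit 128) .nil)))))) (.g (nat_lit 4) .nil .nil))))) (.nd (nat_lit 5) (.nd (nat_lit 6) 
(.lf (nat_lit 15889) (.g (nat_lit 1542) (.e (nat_lit 1126) (nat_lit 83) (.e (nat_lit 16416) (nat_lit 3) (.e (nat_lit 204868) (nat_lit 29) .nil))) .nil)) 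
(.lf (nat_lit 15953) (.g (nat_lit 2058) (.e (nat_lit 1126) (nat_lit 83) (.e (nat_lit 16473) (nat_lit 14) (.e (nat_lit 491526) (nat_lit 0) (.e (nat_lit 1788) (nat_lit 119) .nil)))) .nil))) (.nd (nat_lit 6) 
(.lf (nat_lit 15921) (.g (nat_lit 842) (.e (nat_lit 1126) (nat_lit 83) (.e (nat_lit 16448) (nat_lit 10) (.e (nat_lit 434268) (nat_lit 36) .nil))) .nil)) 
(.lf (nat_lit 15985) (.g (nat_lit 3890) (.e (nat_lit 1126) (nat_lit 83) (.e (nat_lit 16473) (nat_lit 14) (.e (nat_lit 491538) (nat_lit 3) (.e (nat_lit 98370) (nat_lit 28) (.e (nat_lit 442430) (nat_lit 24) (.e (nat_lit 229523) (nat_lit 128) .nil)))))) (.g (nat_lit 0) .nil .nil)))))) (.nd (nat_lit 4) (.nd (nat_lit 5) (.nd (nat_lit 6) 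
(.lf (nat_lit 15881) (.g (nat_lit 1351) (.e (nat_lit 1126) (nat_lit 83) (.e (nat_lit 16388) (nat_lit 0) (.e (nat_lit 7581) (nat_lit 405) (.e (nat_lit 57464) (nat_lit 23) .nil)))) .nil)) 
(.lf (nat_lit 15945) (.g (nat_lit 4143) (.e (nat_lit 1126) (nat_lit 83) (.e (nat_lit 16470) (nat_lit 14) (.e (nat_lit 491540) (nat_lit 3) (.e (nat_lit 98373) (nat_lit 29) (.e (nat_lit 450566) (nat_lit 0) .nil))))) .nil))) (.nd (nat_lit 6) 
(.lf (nat_lit 15913) (.g (nat_lit 2398) (.e (nat_lit 1126) (nat_lit 83) (.e (nat_lit 16425) (nat_lit 7) (.e (nat_lit 409649) (nat_lit 18) (.e (nat_lit 303140) (nat_lit 10) (.e (nat_lit 434275) (nat_lit 39) .nil))))) .nil)) 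
(.lf (nat_lit 15977) (.g (nat_lit 2147) (.e (nat_lit 1126) (nat_lit 83) (.e (nat_lit 16473) (nat_lit 14) (.e (nat_lit 491535) (nat_lit 2) (.e (nat_lit 90178) (nat_lit 15) .nil)))) .nil)))) (.nd (nat_lit 5) (.nd (nat_lit 6) 
(.lf (nat_lit 15897) (.g (nat_lit 1409) (.e (nat_lit 1126) (nat_lit 83) (.e (nat_lit 16425) (nat_lit 7) (.e (nat_lit 409617) (nat_lit 10) (.e (nat_lit 7936) (nat_lit 43) .nil)))) .nil)) 
(.lf (nat_lit 15961) (.g (nat_lit 1077) (.e (nat_lit 1126) (nat_lit 83) (.e (nat_lit 16473) (nat_lit 14) (.e (nat_lit 491530) (nat_lit 0) .nil))) .nil))) (.nd (nat_lit 6) 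
(.lf (nat_lit 15929) (.g (nat_lit 1303) (.e (nat_lit 1126) (nat_lit 83) (.e (nat_lit 16456) (nat_lit 12) (.e (nat_lit 475210) (nat_lit 41) (.e (nat_lit 712755) (nat_lit 30) .nil)))) .nil)) 
(.lf (nat_lit 15993) (.g (nat_lit 1517) (.e (nat_lit 1126) (nat_lit 83) (.e (nat_lit 16473) (nat_lit 14) (.e (nat_lit 491539) (nat_lit 3) (.e (nat_lit 98373) (nat_lit 29) .nil)))) .nil)))))) (.nd (nat_lit 3) (.nd (nat_lit 4) (.nd (nat_lit 5) (.nd (nat_lit 6) 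
(.lf (nat_lit 15877) (.g (nat_lit 2612) (.e (nat_lit 1125) (nat_lit 83) (.e (nat_lit 16473) (nat_lit 14) (.e (nat_lit 491568) (nat_lit 13) (.e (nat_lit 393281) (nat_lit 23) .nil)))) .nil)) 
(.lf (nat_lit 15941) (.g (nat_lit 4517) (.e (nat_lit 1126) (nat_lit 83) (.e (nat_lit 16470) (nat_lit 14) (.e (nat_lit 491537) (nat_lit 2) (.e (nat_lit 90170) (nat_lit 13) (.e (nat_lit 172113) (nat_lit 10) .nil))))) .nil))) (.nd (nat_lit 6) 
(.lf (nat_lit 15909) (.g (nat_lit 4376) (.e (nat_lit 1126) (nat_lit 83) (.e (nat_lit 16425) (nat_lit 7) (.e (nat_lit 409648) (nat_lit 18) (.e (nat_lit 303137) (nat_lit 10) (.e (nat_lit 434275) (nat_lit 39) (.e (nat_lit 663585) (nat_lit 12) (.e (nat_lit 163847) (nat_lit 0) (.e (nat_lit 6579) (nat_lit 351) .nil)))))))) (.g (nat_lit 0) .nil .nil))) 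
(.lf (nat_lit 15973) (.g (nat_lit 4011) (.e (nat_lit 1126) (nat_lit 83) (.e (nat_lit 16473) (nat_lit 14) (.e (nat_lit 491535) (nat_lit 2) (.e (nat_lit 90176) (nat_lit 15) (.e (nat_lit 188453) (nat_lit 24) (.e (nat_lit 229524) (nat_lit 128) .nil)))))) (.g (nat_lit 6) .nil .nil))))) (.nd (nat_lit 5) (.nd (nat_lit 6) 
(.lf (nat_lit 15893) (.g (nat_lit 3412) (.e (nat_lit 1126) (nat_lit 83) (.e (nat_lit 16416) (nat_lit 3) (.e (nat_lit 204869) (nat_lit 29) (.e (nat_lit 360474) (nat_lit 8) (.e (nat_lit 557091) (nat_lit 12) .nil))))) .nil)) 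
(.lf (nat_lit 15957) (.g (nat_lit 3392) (.e (nat_lit 1126) (nat_lit 83) (.e (nat_lit 16473) (nat_lit 14) (.e (nat_lit 491526) (nat_lit 0) (.e (nat_lit 1788) (nat_lit 119) (.e (nat_lit 516165) (nat_lit 12) (.e (nat_lit 450569) (nat_lit 0) (.e (nat_lit 4215) (nat_lit 251) .nil))))))) (.g (nat_lit 5) .nil .nil)))) (.nd (nat_lit 6) 
(.lf (nat_lit 15925) (.g (nat_lit 2078) (.e (nat_lit 1126) (nat_lit 83) (.e (nat_lit 16448) (nat_lit 10) (.e (nat_lit 434268) (nat_lit 36) (.e (nat_lit 639020) (nat_lit 16) (.e (nat_lit 65611) (nat_lit 10) (.e (nat_lit 344089) (nat_lit 18) (.e (nat_lit 5533) (nat_lit 306) .nil))))))) (.g (nat_lit 4) .nil .nil))) 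
(.lf (nat_lit 15989) (.g (nat_lit 2253) (.e (nat_lit 1126) (nat_lit 83) (.e (nat_lit 16473) (nat_lit 14) (.e (nat_lit 491538) (nat_lit 3) (.e (nat_lit 98381) (nat_lit 31) (.e (nat_lit 466972) (nat_lit 21) (.e (nat_lit 164117) (nat_lit 128) .nil)))))) (.g (nat_lit 4) .nil .nil)))))) (.nd (nat_lit 4) (.nd (nat_lit 5) (.nd (nat_lit 6) 
(.lf (nat_lit 15885) (.g (nat_lit 1650) (.e (nat_lit 1126) (nat_lit 83) (.e (nat_lit 16396) (nat_lit 0) (.e (nat_lit 3579) (nat_lit 223) (.e (nat_lit 745476) (nat_lit 0) (.e (nat_lit 1598) (nat_lit 111) (.e (nat_lit 360466) (nat_lit 3) (.e (nat_lit 516117) (nat_lit 1) (.e (nat_lit 164195) (nat_lit 158) .nil)))))))) (.g (nat_lit 4) .nil .nil))) 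
(.lf (nat_lit 15949) (.g (nat_lit 2949) (.e (nat_lit 1126) (nat_lit 83) (.e (nat_lit 16470) (nat_lit 14) (.e (nat_lit 491571) (nat_lit 13) (.e (nat_lit 393283) (nat_lit 24) (.e (nat_lit 434208) (nat_lit 18) .nil))))) .nil))) (.nd (nat_lit 6) 
(.lf (nat_lit 15917) (.g (nat_lit 4616) (.e (nat_lit 1126) (nat_lit 83) (.e (nat_lit 16425) (nat_lit 7) (.e (nat_lit 409649) (nat_lit 18) (.e (nat_lit 303146) (nat_lit 14) (.e (nat_lit 491566) (nat_lit 12) (.e (nat_lit 385043) (nat_lit 21) (.e (nat_lit 7660) (nat_lit 410) .nil))))))) (.g (nat_lit 5) .nil .nil))) 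
(.lf (nat_lit 15981) (.g (nat_lit 738) (.e (nat_lit 1126) (nat_lit 83) (.e (nat_lit 16473) (nat_lit 14) (.e (nat_lit 491538) (nat_lit 3) .nil))) .nil)))) (.nd (nat_lit 5) (.nd (nat_lit 6) 
(.lf (nat_lit 15901) (.g (nat_lit 907) (.e (nat_lit 1126) (nat_lit 83) (.e (nat_lit 16425) (nat_lit 7) (.e (nat_lit 409641) (nat_lit 17) .nil))) .nil)) 
(.lf (nat_lit 15965) (.g (nat_lit 2545) (.e (nat_lit 1126) (nat_lit 83) (.e (nat_lit 16473) (nat_lit 14) (.e (nat_lit 491535) (nat_lit 2) (.e (nat_lit 90170) (nat_lit 13) (.e (nat_lit 172113) (nat_lit 10) .nil))))) .nil))) (.nd (nat_lit 6) 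
(.lf (nat_lit 15933) (.g (nat_lit 1547) (.e (nat_lit 1126) (nat_lit 83) (.e (nat_lit 16466) (nat_lit 13) (.e (nat_lit 483346) (nat_lit 17) .nil))) .nil)) 
(.lf (nat_lit 15997) (.g (nat_lit 2869) (.e (nat_lit 1126) (nat_lit 83) (.e (nat_lit 16473) (nat_lit 14) (.e (nat_lit 491539) (nat_lit 3) (.e (nat_lit 98373) (nat_lit 29) (.e (nat_lit 458496) (nat_lit 0) .nil))))) .nil))))))) (.nd (nat_lit 2) (.nd (nat_lit 3) (.nd (nat_lit 4) (.nd (nat_lit 5) (.nd (nat_lit 6) 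
(.lf (nat_lit 15875) (.g (nat_lit 3488) (.e (nat_lit 1125) (nat_lit 83) (.e (nat_lit 16473) (nat_lit 14) (.e (nat_lit 491567) (nat_lit 13) (.e (nat_lit 393281) (nat_lit 23) (.e (nat_lit 426100) (nat_lit 1) (.e (nat_lit 164258) (nat_lit 215) .nil)))))) (.g (nat_lit 6) .nil .nil))) 
(.lf (nat_lit 15939) (.g (nat_lit 2686) (.e (nat_lit 1126) (nat_lit 83) (.e (nat_lit 16470) (nat_lit 14) (.e (nat_lit 491537) (nat_lit 2) (.e (nat_lit 90170) (nat_lit 13) .nil)))) .nil))) (.nd (nat_lit 6) 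
(.lf (nat_lit 15907) (.g (nat_lit 3409) (.e (nat_lit 1126) (nat_lit 83) (.e (nat_lit 16425) (nat_lit 7) (.e (nat_lit 409648) (nat_lit 18) (.e (nat_lit 303137) (nat_lit 10) (.e (nat_lit 434275) (nat_lit 39) (.e (nat_lit 663584) (nat_lit 12) (.e (nat_lit 163844) (nat_lit 0) (.e (nat_lit 6579) (nat_lit 351) .nil)))))))) (.g (nat_lit 6) .nil .nil))) 
(.lf (nat_lit 15971) (.g (nat_lit 3653) (.e (nat_lit 1126) (nat_lit 83) (.e (nat_lit 16473) (nat_lit 14) (.e (nat_lit 491535) (nat_lit 2) (.e (nat_lit 90176) (nat_lit 15) (.e (nat_lit 188444) (nat_lit 21) (.e (nat_lit 164121) (nat_lit 128) .nil)))))) (.g (nat_lit 6) .nil .nil))))) (.nd (nat_lit 5) (.nd (nat_lit 6) 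
(.lf (nat_lit 15891) (.g (nat_lit 3126) (.e (nat_lit 1126) (nat_lit 83) (.e (nat_lit 16416) (nat_lit 3) (.e (nat_lit 204868) (nat_lit 29) (.e (nat_lit 360475) (nat_lit 8) .nil)))) .nil)) 
(.lf (nat_lit 15955) (.g (nat_lit 2771) (.e (nat_lit 1126) (nat_lit 83) (.e (nat_lit 16473) (nat_lit 14) (.e (nat_lit 491526) (nat_lit 0) (.e (nat_lit 1788) (nat_lit 119) (.e (nat_lit 516163) (nat_lit 11) (.e (nat_lit 442430) (nat_lit 24) (.e (nat_lit 229525) (nat_lit 128) .nil))))))) (.g (nat_lit 4) .nil .nil)))) (.nd (nat_lit 6) 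
(.lf (nat_lit 15923) (.g (nat_lit 2009) (.e (nat_lit 1126) (nat_lit 83) (.e (nat_lit 16448) (nat_lit 10) (.e (nat_lit 434268) (nat_lit 36) (.e (nat_lit 639007) (nat_lit 13) .nil)))) .nil)) 
(.lf (nat_lit 15987) (.g (nat_lit 1480) (.e (nat_lit 1126) (nat_lit 83) (.e (nat_lit 16473) (nat_lit 14) (.e (nat_lit 491538) (nat_lit 3) (.e (nat_lit 98373) (nat_lit 29) .nil)))) .nil))))) (.nd (nat_lit 4) (.nd (nat_lit 5) (.nd (nat_lit 6) 
(.lf (nat_lit 15883) (.g (nat_lit 804) (.e (nat_lit 1126) (nat_lit 83) (.e (nat_lit 16392) (nat_lit 0) (.e (nat_lit 3571) (nat_lit 222) .nil))) .nil)) 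
(.lf (nat_lit 15947) (.g (nat_lit 3900) (.e (nat_lit 1126) (nat_lit 83) (.e (nat_lit 16470) (nat_lit 14) (.e (nat_lit 491540) (nat_lit 3) (.e (nat_lit 98373) (nat_lit 29) (.e (nat_lit 450569) (nat_lit 0) .nil))))) .nil))) (.nd (nat_lit 6) 
(.lf (nat_lit 15915) (.g (nat_lit 2461) (.e (nat_lit 1126) (nat_lit 83) (.e (nat_lit 16425) (nat_lit 7) (.e (nat_lit 409649) (nat_lit 18) (.e (nat_lit 303140) (nat_lit 10) (.e (nat_lit 434275) (nat_lit 39) (.e (nat_lit 663584) (nat_lit 12) (.e (nat_lit 163848) (nat_lit 0) (.e (nat_lit 6579) (nat_lit 351) .nil)))))))) (.g (nat_lit 4) .nil .nil))) 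
(.lf (nat_lit 15979) (.g (nat_lit 737) (.e (nat_lit 1126) (nat_lit 83) (.e (nat_lit 16473) (nat_lit 14) (.e (nat_lit 491536) (nat_lit 2) .nil))) .nil)))) (.nd (nat_lit 5) (.nd (nat_lit 6) 
(.lf (nat_lit 15899) (.g (nat_lit 1958) (.e (nat_lit 1126) (nat_lit 83) (.e (nat_lit 16425) (nat_lit 7) (.e (nat_lit 409617) (nat_lit 10) (.e (nat_lit 848) (nat_lit 73) .nil)))) .nil)) 
(.lf (nat_lit 15963) (.g (nat_lit 1965) (.e (nat_lit 1126) (nat_lit 83) (.e (nat_lit 16473) (nat_lit 14) (.e (nat_lit 491535) (nat_lit 2) (.e (nat_lit 90170) (nat_lit 13) .nil)))) .nil))) (.nd (nat_lit 6) 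
(.lf (nat_lit 15931) (.g (nat_lit 709) (.e (nat_lit 1126) (nat_lit 83) (.e (nat_lit 16459) (nat_lit 12) (.e (nat_lit 475185) (nat_lit 29) .nil))) .nil)) 
(.lf (nat_lit 15995) (.g (nat_lit 3083) (.e (nat_lit 1126) (nat_lit 83) (.e (nat_lit 16473) (nat_lit 14) (.e (nat_lit 491539) (nat_lit 3) (.e (nat_lit 98373) (nat_lit 29) (.e (nat_lit 450568) (nat_lit 0) .nil))))) .nil)))))) (.nd (nat_lit 3) (.nd (nat_lit 4) (.nd (nat_lit 5) (.nd (nat_lit 6) 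
(.lf (nat_lit 15879) (.g (nat_lit 2636) (.e (nat_lit 1125) (nat_lit 83) (.e (nat_lit 16473) (nat_lit 14) (.e (nat_lit 491568) (nat_lit 13) (.e (nat_lit 393283) (nat_lit 24) .nil)))) .nil)) 
(.lf (nat_lit 15943) (.g (nat_lit 2671) (.e (nat_lit 1126) (nat_lit 83) (.e (nat_lit 16470) (nat_lit 14) (.e (nat_lit 491540) (nat_lit 3) (.e (nat_lit 98373) (nat_lit 29) .nil)))) .nil))) (.nd (nat_lit 6) 
(.lf (nat_lit 15911) (.g (nat_lit 4341) (.e (nat_lit 1126) (nat_lit 83) (.e (nat_lit 16425) (nat_lit 7) (.e (nat_lit 409648) (nat_lit 18) (.e (nat_lit 303146) (nat_lit 14) (.e (nat_lit 491566) (nat_lit 12) (.e (nat_lit 385043) (nat_lit 21) (.e (nat_lit 7665) (nat_lit 410) .nil))))))) (.g (nat_lit 6) .nil .nil))) 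
(.lf (nat_lit 15975) (.g (nat_lit 3137) (.e (nat_lit 1126) (nat_lit 83) (.e (nat_lit 16473) (nat_lit 14) (.e (nat_lit 491535) (nat_lit 2) (.e (nat_lit 90176) (nat_lit 15) (.e (nat_lit 188455) (nat_lit 24) .nil))))) .nil)))) (.nd (nat_lit 5) (.nd (nat_lit 6) 
(.lf (nat_lit 15895) (.g (nat_lit 1395) (.e (nat_lit 1126) (nat_lit 83) (.e (nat_lit 16425) (nat_lit 7) (.e (nat_lit 409616) (nat_lit 10) (.e (nat_lit 7936) (nat_lit 43) .nil)))) .nil)) 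
(.lf (nat_lit 15959) (.g (nat_lit 2554) (.e (nat_lit 1126) (nat_lit 83) (.e (nat_lit 16473) (nat_lit 14) (.e (nat_lit 491526) (nat_lit 0) (.e (nat_lit 1788) (nat_lit 119) (.e (nat_lit 516166) (nat_lit 12) (.e (nat_lit 450563) (nat_lit 0) (.e (nat_lit 4196) (nat_lit 251) .nil))))))) (.g (nat_lit 4) .nil .nil)))) (.nd (nat_lit 6) 
(.lf (nat_lit 15927) (.g (nat_lit 849) (.e (nat_lit 1126) (nat_lit 83) (.e (nat_lit 16448) (nat_lit 10) (.e (nat_lit 434272) (nat_lit 38) .nil))) .nil)) 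
(.lf (nat_lit 15991) (.g (nat_lit 1882) (.e (nat_lit 1126) (nat_lit 83) (.e (nat_lit 16473) (nat_lit 14) (.e (nat_lit 491539) (nat_lit 3) (.e (nat_lit 98365) (nat_lit 26) .nil)))) .nil))))) (.nd (nat_lit 4) (.nd (nat_lit 5) (.nd (nat_lit 6) 
(.lf (nat_lit 15887) (.g (nat_lit 2141) (.e (nat_lit 1126) (nat_lit 83) (.e (nat_lit 16412) (nat_lit 2) (.e (nat_lit 196672) (nat_lit 15) (.e (nat_lit 81954) (nat_lit 23) (.e (nat_lit 98334) (nat_lit 18) .nil))))) .nil)) 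
(.lf (nat_lit 15951) (.g (nat_lit 2084) (.e (nat_lit 1126) (nat_lit 83) (.e (nat_lit 16473) (nat_lit 14) (.e (nat_lit 491526) (nat_lit 0) (.e (nat_lit 1698) (nat_lit 117) .nil)))) .nil))) (.nd (nat_lit 6) 
(.lf (nat_lit 15919) (.g (nat_lit 1560) (.e (nat_lit 1126) (nat_lit 83) (.e (nat_lit 16436) (nat_lit 9) (.e (nat_lit 426550) (nat_lit 31) (.e (nat_lit 376576) (nat_lit 5) .nil)))) .nil)) 
(.lf (nat_lit 15983) (.g (nat_lit 2625) (.e (nat_lit 1126) (nat_lit 83) (.e (nat_lit 16473) (nat_lit 14) (.e (nat_lit 491538) (nat_lit 3) (.e (nat_lit 98370) (nat_lit 28) (.e (nat_lit 442429) (nat_lit 24) .nil))))) .nil)))) (.nd (nat_lit 5) (.nd (nat_lit 6) 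
(.lf (nat_lit 15903) (.g (nat_lit 1816) (.e (nat_lit 1126) (nat_lit 83) (.e (nat_lit 16425) (nat_lit 7) (.e (nat_lit 409648) (nat_lit 18) (.e (nat_lit 303137) (nat_lit 10) .nil)))) .nil)) 
(.lf (nat_lit 15967) (.g (nat_lit 2601) (.e (nat_lit 1126) (nat_lit 83) (.e (nat_lit 16473) (nat_lit 14) (.e (nat_lit 491535) (nat_lit 2) (.e (nat_lit 90176) (nat_lit 15) (.e (nat_lit 188439) (nat_lit 20) .nil))))) .nil))) (.nd (nat_lit 6) 
(.lf (nat_lit 15935) (.g (nat_lit 2947) (.e (nat_lit 1126) (nat_lit 83) (.e (nat_lit 16466) (nat_lit 13) (.e (nat_lit 483413) (nat_lit 27) (.e (nat_lit 401446) (nat_lit 10) .nil)))) .nil)) 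
(.lf (nat_lit 15999) (.g (nat_lit 2965) (.e (nat_lit 1126) (nat_lit 83) (.e (nat_lit 16473) (nat_lit 14) (.e (nat_lit 491544) (nat_lit 7) (.e (nat_lit 319530) (nat_lit 16) (.e (nat_lit 286759) (nat_lit 12) .nil))))) .nil)))))))))

noncomputable def tv218 : DT := (.nd (nat_lit 0) (.nd (nat_lit 1) (.nd (nat_lit 2) (.nd (nat_lit 3) (.nd (nat_lit 4) (.nd (nat_lit 5) (.nd (nat_lit 6) 
(.lf (nat_lit 16000) (.g (nat_lit 2250) (.e (nat_lit 1126) (nat_lit 83) (.e (nat_lit 16473) (nat_lit 14) (.e (nat_lit 491544) (nat_lit 7) (.e (nat_lit 319531) (nat_lit 16) .nil)))) .nil)) 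
(.lf (nat_lit 16064) (.g (nat_lit 3553) (.e (nat_lit 1127) (nat_lit 83) (.e (nat_lit 16470) (nat_lit 14) (.e (nat_lit 491537) (nat_lit 2) (.e (nat_lit 90170) (nat_lit 13) (.e (nat_lit 172106) (nat_lit 10) .nil))))) .nil))) (.nd (nat_lit 6) 
(.lf (nat_lit 16032) (.g (nat_lit 378) (.e (nat_lit 1126) (nat_lit 83) (.e (nat_lit 16473) (nat_lit 14) (.e (nat_lit 491568) (nat_lit 13) .nil))) .nil)) 
(.lf (nat_lit 16096) (.g (nat_lit 1950) (.e (nat_lit 1127) (nat_lit 83) (.e (nat_lit 16473) (nat_lit 14) (.e (nat_lit 491536) (nat_lit 2) (.e (nat_lit 90176) (nat_lit 15) .nil)))) .nil)))) (.nd (nat_lit 5) (.nd (nat_lit 6) 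
(.lf (nat_lit 16016) (.g (nat_lit 2005) (.e (nat_lit 1126) (nat_lit 83) (.e (nat_lit 16473) (nat_lit 14) (.e (nat_lit 491547) (nat_lit 9) (.e (nat_lit 336434) (nat_lit 30) .nil)))) .nil)) 
(.lf (nat_lit 16080) (.g (nat_lit 2875) (.e (nat_lit 1127) (nat_lit 83) (.e (nat_lit 16473) (nat_lit 14) (.e (nat_lit 491526) (nat_lit 0) (.e (nat_lit 1788) (nat_lit 119) (.e (nat_lit 516165) (nat_lit 12) (.e (nat_lit 450564) (nat_lit 0) (.e (nat_lit 4217) (nat_lit 251) .nil))))))) (.g (nat_lit 4) .nil .nil)))) (.nd (nat_lit 6) 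
(.lf (nat_lit 16048) (.g (nat_lit 3455) (.e (nat_lit 1126) (nat_lit 83) (.e (nat_lit 16473) (nat_lit 14) (.e (nat_lit 491568) (nat_lit 13) (.e (nat_lit 393283) (nat_lit 24) (.e (nat_lit 434208) (nat_lit 18) (.e (nat_lit 4803) (nat_lit 281) .nil)))))) (.g (nat_lit 5) .nil .nil))) 
(.lf (nat_lit 16112) (.g (nat_lit 2238) (.e (nat_lit 1127) (nat_lit 83) (.e (nat_lit 16473) (nat_lit 14) (.e (nat_lit 491538) (nat_lit 3) (.e (nat_lit 98381) (nat_lit 31) (.e (nat_lit 466972) (nat_lit 21) (.e (nat_lit 164117) (nat_lit 128) .nil)))))) (.g (nat_lit 4) .nil .nil)))))) (.nd (nat_lit 4) (.nd (nat_lit 5) (.nd (nat_lit 6) 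
(.lf (nat_lit 16008) (.g (nat_lit 2247) (.e (nat_lit 1126) (nat_lit 83) (.e (nat_lit 16473) (nat_lit 14) (.e (nat_lit 491546) (nat_lit 9) (.e (nat_lit 336432) (nat_lit 30) .nil)))) .nil)) 
(.lf (nat_lit 16072) (.g (nat_lit 4523) (.e (nat_lit 1127) (nat_lit 83) (.e (nat_lit 16470) (nat_lit 14) (.e (nat_lit 491540) (nat_lit 3) (.e (nat_lit 98373) (nat_lit 29) (.e (nat_lit 450566) (nat_lit 0) .nil))))) .nil))) (.nd (nat_lit 6) 
(.lf (nat_lit 16040) (.g (nat_lit 2448) (.e (nat_lit 1126) (nat_lit 83) (.e (nat_lit 16473) (nat_lit 14) (.e (nat_lit 491568) (nat_lit 13) (.e (nat_lit 393282) (nat_lit 24) (.e (nat_lit 434203) (nat_lit 18) .nil))))) .nil)) 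
(.lf (nat_lit 16104) (.g (nat_lit 2704) (.e (nat_lit 1127) (nat_lit 83) (.e (nat_lit 16473) (nat_lit 14) (.e (nat_lit 491538) (nat_lit 3) (.e (nat_lit 98370) (nat_lit 28) (.e (nat_lit 442429) (nat_lit 24) .nil))))) .nil)))) (.nd (nat_lit 5) (.nd (nat_lit 6) 
(.lf (nat_lit 16024) (.g (nat_lit 3436) (.e (nat_lit 1126) (nat_lit 83) (.e (nat_lit 16473) (nat_lit 14) (.e (nat_lit 491560) (nat_lit 10) (.e (nat_lit 344177) (nat_lit 43) (.e (nat_lit 770072) (nat_lit 8) .nil))))) .nil)) 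
(.lf (nat_lit 16088) (.g (nat_lit 2984) (.e (nat_lit 1127) (nat_lit 83) (.e (nat_lit 16473) (nat_lit 14) (.e (nat_lit 491526) (nat_lit 0) (.e (nat_lit 1788) (nat_lit 119) (.e (nat_lit 516176) (nat_lit 14) .nil))))) .nil))) (.nd (nat_lit 6) 
(.lf (nat_lit 16056) (.g (nat_lit 3540) (.e (nat_lit 1127) (nat_lit 83) (.e (nat_lit 16416) (nat_lit 3) (.e (nat_lit 204868) (nat_lit 29) (.e (nat_lit 360466) (nat_lit 3) (.e (nat_lit 516120) (nat_lit 1) .nil))))) .nil)) 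
(.lf (nat_lit 16120) (.g (nat_lit 3952) (.e (nat_lit 1127) (nat_lit 83) (.e (nat_lit 16473) (nat_lit 14) (.e (nat_lit 491568) (nat_lit 13) (.e (nat_lit 393283) (nat_lit 24) (.e (nat_lit 434208) (nat_lit 18) (.e (nat_lit 4751) (nat_lit 281) .nil)))))) (.g (nat_lit 5) .nil .nil))))))) (.nd (nat_lit 3) (.nd (nat_lit 4) (.nd (nat_lit 5) (.nd (nat_lit 6) 
(.lf (nat_lit 16004) (.g (nat_lit 3451) (.e (nat_lit 1126) (nat_lit 83) (.e (nat_lit 16473) (nat_lit 14) (.e (nat_lit 491544) (nat_lit 7) (.e (nat_lit 319531) (nat_lit 16) (.e (nat_lit 286759) (nat_lit 12) (.e (nat_lit 385045) (nat_lit 21) (.e (nat_lit 7660) (nat_lit 410) .nil))))))) (.g (nat_lit 4) .nil .nil))) 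
(.lf (nat_lit 16068) (.g (nat_lit 3051) (.e (nat_lit 1127) (nat_lit 83) (.e (nat_lit 16470) (nat_lit 14) (.e (nat_lit 491540) (nat_lit 3) (.e (nat_lit 98373) (nat_lit 29) .nil)))) .nil))) (.nd (nat_lit 6) 
(.lf (nat_lit 16036) (.g (nat_lit 2274) (.e (nat_lit 1126) (nat_lit 83) (.e (nat_lit 16473) (nat_lit 14) (.e (nat_lit 491568) (nat_lit 13) (.e (nat_lit 393281) (nat_lit 23) (.e (nat_lit 426100) (nat_lit 1) .nil))))) .nil)) 
(.lf (nat_lit 16100) (.g (nat_lit 1629) (.e (nat_lit 1127) (nat_lit 83) (.e (nat_lit 16473) (nat_lit 14) (.e (nat_lit 491538) (nat_lit 3) (.e (nat_lit 98365) (nat_lit 26) .nil)))) .nil)))) (.nd (nat_lit 5) (.nd (nat_lit 6) 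
(.lf (nat_lit 16020) (.g (nat_lit 2533) (.e (nat_lit 1126) (nat_lit 83) (.e (nat_lit 16473) (nat_lit 14) (.e (nat_lit 491559) (nat_lit 10) (.e (nat_lit 344177) (nat_lit 43) .nil)))) .nil)) 
(.lf (nat_lit 16084) (.g (nat_lit 4957) (.e (nat_lit 1127) (nat_lit 83) (.e (nat_lit 16473) (nat_lit 14) (.e (nat_lit 491526) (nat_lit 0) (.e (nat_lit 1788) (nat_lit 119) (.e (nat_lit 516166) (nat_lit 12) (.e (nat_lit 450563) (nat_lit 0) (.e (nat_lit 4200) (nat_lit 251) .nil))))))) (.g (nat_lit 7) .nil .nil)))) (.nd (nat_lit 6) 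
(.lf (nat_lit 16052) (.g (nat_lit 1694) (.e (nat_lit 1127) (nat_lit 83) (.e (nat_lit 16416) (nat_lit 3) (.e (nat_lit 204861) (nat_lit 26) (.e (nat_lit 336186) (nat_lit 11) .nil)))) .nil)) 
(.lf (nat_lit 16116) (.g (nat_lit 1021) (.e (nat_lit 1127) (nat_lit 83) (.e (nat_lit 16473) (nat_lit 14) (.e (nat_lit 491546) (nat_lit 9) .nil))) .nil))))) (.nd (nat_lit 4) (.nd (nat_lit 5) (.nd (nat_lit 6) 
(.lf (nat_lit 16012) (.g (nat_lit 2677) (.e (nat_lit 1126) (nat_lit 83) (.e (nat_lit 16473) (nat_lit 14) (.e (nat_lit 491546) (nat_lit 9) (.e (nat_lit 336434) (nat_lit 30) (.e (nat_lit 450560) (nat_lit 0) (.e (nat_lit 4803) (nat_lit 281) .nil)))))) (.g (nat_lit 4) .nil .nil))) 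
(.lf (nat_lit 16076) (.g (nat_lit 2360) (.e (nat_lit 1127) (nat_lit 83) (.e (nat_lit 16473) (nat_lit 14) (.e (nat_lit 491526) (nat_lit 0) (.e (nat_lit 1788) (nat_lit 119) .nil)))) .nil))) (.nd (nat_lit 6) 
(.lf (nat_lit 16044) (.g (nat_lit 2561) (.e (nat_lit 1126) (nat_lit 83) (.e (nat_lit 16473) (nat_lit 14) (.e (nat_lit 491568) (nat_lit 13) (.e (nat_lit 393283) (nat_lit 24) (.e (nat_lit 434202) (nat_lit 18) .nil))))) .nil)) 
(.lf (nat_lit 16108) (.g (nat_lit 1629) (.e (nat_lit 1127) (nat_lit 83) (.e (nat_lit 16473) (nat_lit 14) (.e (nat_lit 491538) (nat_lit 3) (.e (nat_lit 98374) (nat_lit 29) .nil)))) .nil)))) (.nd (nat_lit 5) (.nd (nat_lit 6) 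
(.lf (nat_lit 16028) (.g (nat_lit 2179) (.e (nat_lit 1126) (nat_lit 83) (.e (nat_lit 16473) (nat_lit 14) (.e (nat_lit 491567) (nat_lit 13) (.e (nat_lit 393281) (nat_lit 23) (.e (nat_lit 426099) (nat_lit 1) .nil))))) .nil)) 
(.lf (nat_lit 16092) (.g (nat_lit 1882) (.e (nat_lit 1127) (nat_lit 83) (.e (nat_lit 16473) (nat_lit 14) (.e (nat_lit 491535) (nat_lit 2) (.e (nat_lit 90176) (nat_lit 15) .nil)))) .nil))) (.nd (nat_lit 6) 
(.lf (nat_lit 16060) (.g (nat_lit 1811) (.e (nat_lit 1127) (nat_lit 83) (.e (nat_lit 16448) (nat_lit 10) (.e (nat_lit 434268) (nat_lit 36) (.e (nat_lit 639007) (nat_lit 13) .nil)))) .nil)) 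
(.lf (nat_lit 16124) (.g (nat_lit 2670) (.e (nat_lit 1128) (nat_lit 83) (.e (nat_lit 16392) (nat_lit 0) (.e (nat_lit 6989) (nat_lit 377) (.e (nat_lit 2777) (nat_lit 178) (.e (nat_lit 286771) (nat_lit 29) (.e (nat_lit 442409) (nat_lit 20) (.e (nat_lit 2422) (nat_lit 157) (.e (nat_lit 4754) (nat_lit 281) .nil)))))))) (.g (nat_lit 4) .nil .nil)))))))) 
(.nd (nat_lit 2) (.nd (nat_lit 3) (.nd (nat_lit 4) (.nd (nat_lit 5) (.nd (nat_lit 6) 
(.lf (nat_lit 16002) (.g (nat_lit 3439) (.e (nat_lit 1126) (nat_lit 83) (.e (nat_lit 16473) (nat_lit 14) (.e (nat_lit 491544) (nat_lit 7) (.e (nat_lit 319531) (nat_lit 16) (.e (nat_lit 286748) (nat_lit 9) (.e (nat_lit 336295) (nat_lit 15) (.e (nat_lit 2443) (nat_lit 157) (.e (nat_lit 7660) (nat_lit 410) .nil)))))))) (.g (nat_lit 5) .nil .nil))) 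
(.lf (nat_lit 16066) (.g (nat_lit 4949) (.e (nat_lit 1127) (nat_lit 83) (.e (nat_lit 16470) (nat_lit 14) (.e (nat_lit 491537) (nat_lit 2) (.e (nat_lit 90170) (nat_lit 13) (.e (nat_lit 172113) (nat_lit 10) .nil))))) .nil))) (.nd (nat_lit 6) 
(.lf (nat_lit 16034) (.g (nat_lit 1850) (.e (nat_lit 1126) (nat_lit 83) (.e (nat_lit 16473) (nat_lit 14) (.e (nat_lit 491568) (nat_lit 13) (.e (nat_lit 393281) (nat_lit 23) .nil)))) .nil)) 
(.lf (nat_lit 16098) (.g (nat_lit 2080) (.e (nat_lit 1127) (nat_lit 83) (.e (nat_lit 16473) (nat_lit 14) (.e (nat_lit 491536) (nat_lit 2) (.e (nat_lit 90178) (nat_lit 15) .nil)))) .nil)))) (.nd (nat_lit 5) (.nd (nat_lit 6) 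
(.lf (nat_lit 16018) (.g (nat_lit 717) (.e (nat_lit 1126) (nat_lit 83) (.e (nat_lit 16473) (nat_lit 14) (.e (nat_lit 491552) (nat_lit 9) .nil))) .nil)) 
(.lf (nat_lit 16082) (.g (nat_lit 2733) (.e (nat_lit 1127) (nat_lit 83) (.e (nat_lit 16473) (nat_lit 14) (.e (nat_lit 491526) (nat_lit 0) (.e (nat_lit 1788) (nat_lit 119) (.e (nat_lit 516166) (nat_lit 12) .nil))))) .nil))) (.nd (nat_lit 6) 
(.lf (nat_lit 16050) (.g (nat_lit 635) (.e (nat_lit 1127) (nat_lit 83) (.e (nat_lit 16412) (nat_lit 2) (.e (nat_lit 196672) (nat_lit 15) .nil))) .nil)) 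
(.lf (nat_lit 16114) (.g (nat_lit 770) (.e (nat_lit 1127) (nat_lit 83) (.e (nat_lit 16473) (nat_lit 14) (.e (nat_lit 491539) (nat_lit 3) .nil))) .nil))))) (.nd (nat_lit 4) (.nd (nat_lit 5) (.nd (nat_lit 6) 
(.lf (nat_lit 16010) (.g (nat_lit 2619) (.e (nat_lit 1126) (nat_lit 83) (.e (nat_lit 16473) (nat_lit 14) (.e (nat_lit 491546) (nat_lit 9) (.e (nat_lit 336433) (nat_lit 30) (.e (nat_lit 450563) (nat_lit 0) (.e (nat_lit 4803) (nat_lit 281) .nil)))))) (.g (nat_lit 4) .nil .nil))) 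
(.lf (nat_lit 16074) (.g (nat_lit 3052) (.e (nat_lit 1127) (nat_lit 83) (.e (nat_lit 16470) (nat_lit 14) (.e (nat_lit 491571) (nat_lit 13) (.e (nat_lit 393283) (nat_lit 24) (.e (nat_lit 434208) (nat_lit 18) (.e (nat_lit 4751) (nat_lit 281) .nil)))))) (.g (nat_lit 4) .nil .nil)))) (.nd (nat_lit 6) 
(.lf (nat_lit 16042) (.g (nat_lit 2404) (.e (nat_lit 1126) (nat_lit 83) (.e (nat_lit 16473) (nat_lit 14) (.e (nat_lit 491568) (nat_lit 13) (.e (nat_lit 393283) (nat_lit 24) (.e (nat_lit 434200) (nat_lit 18) .nil))))) .nil)) 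
(.lf (nat_lit 16106) (.g (nat_lit 3822) (.e (nat_lit 1127) (nat_lit 83) (.e (nat_lit 16473) (nat_lit 14) (.e (nat_lit 491538) (nat_lit 3) (.e (nat_lit 98370) (nat_lit 28) (.e (nat_lit 442430) (nat_lit 24) (.e (nat_lit 229523) (nat_lit 128) .nil)))))) (.g (nat_lit 0) .nil .nil))))) (.nd (nat_lit 5) (.nd (nat_lit 6) 
(.lf (nat_lit 16026) (.g (nat_lit 866) (.e (nat_lit 1126) (nat_lit 83) (.e (nat_lit 16473) (nat_lit 14) (.e (nat_lit 491567) (nat_lit 13) .nil))) .nil)) 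
(.lf (nat_lit 16090) (.g (nat_lit 1984) (.e (nat_lit 1127) (nat_lit 83) (.e (nat_lit 16473) (nat_lit 14) (.e (nat_lit 491535) (nat_lit 2) (.e (nat_lit 90170) (nat_lit 13) (.e (nat_lit 172106) (nat_lit 10) .nil))))) .nil))) (.nd (nat_lit 6) 
(.lf (nat_lit 16058) (.g (nat_lit 2655) (.e (nat_lit 1127) (nat_lit 83) (.e (nat_lit 16448) (nat_lit 10) (.e (nat_lit 434231) (nat_lit 23) (.e (nat_lit 532569) (nat_lit 16) (.e (nat_lit 401448) (nat_lit 10) .nil))))) .nil)) 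
(.lf (nat_lit 16122) (.g (nat_lit 2449) (.e (nat_lit 1127) (nat_lit 83) (.e (nat_lit 16473) (nat_lit 14) (.e (nat_lit 491568) (nat_lit 13) (.e (nat_lit 393284) (nat_lit 24) .nil)))) .nil)))))) (.nd (nat_lit 3) (.nd (nat_lit 4) (.nd (nat_lit 5) (.nd (nat_lit 6) 
(.lf (nat_lit 16006) (.g (nat_lit 2225) (.e (nat_lit 1126) (nat_lit 83) (.e (nat_lit 16473) (nat_lit 14) (.e (nat_lit 491544) (nat_lit 7) (.e (nat_lit 319534) (nat_lit 16) .nil)))) .nil)) 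
(.lf (nat_lit 16070) (.g (nat_lit 4065) (.e (nat_lit 1127) (nat_lit 83) (.e (nat_lit 16470) (nat_lit 14) (.e (nat_lit 491540) (nat_lit 3) (.e (nat_lit 98373) (nat_lit 29) (.e (nat_lit 450563) (nat_lit 0) (.e (nat_lit 4168) (nat_lit 251) .nil)))))) (.g (nat_lit 4) .nil .nil)))) (.nd (nat_lit 6) 
(.lf (nat_lit 16038) (.g (nat_lit 3000) (.e (nat_lit 1126) (nat_lit 83) (.e (nat_lit 16473) (nat_lit 14) (.e (nat_lit 491568) (nat_lit 13) (.e (nat_lit 393281) (nat_lit 23) (.e (nat_lit 426100) (nat_lit 1) (.e (nat_lit 164258) (nat_lit 215) .nil)))))) (.g (nat_lit 6) .nil .nil))) 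
(.lf (nat_lit 16102) (.g (nat_lit 2539) (.e (nat_lit 1127) (nat_lit 83) (.e (nat_lit 16473) (nat_lit 14) (.e (nat_lit 491538) (nat_lit 3) (.e (nat_lit 98365) (nat_lit 26) (.e (nat_lit 426298) (nat_lit 11) (.e (nat_lit 458774) (nat_lit 18) (.e (nat_lit 4204) (nat_lit 251) .nil))))))) (.g (nat_lit 4) .nil .nil))))) (.nd (nat_lit 5) (.nd (nat_lit 6) 
(.lf (nat_lit 16022) (.g (nat_lit 737) (.e (nat_lit 1126) (nat_lit 83) (.e (nat_lit 16473) (nat_lit 14) (.e (nat_lit 491560) (nat_lit 10) .nil))) .nil)) 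
(.lf (nat_lit 16086) (.g (nat_lit 4193) (.e (nat_lit 1127) (nat_lit 83) (.e (nat_lit 16473) (nat_lit 14) (.e (nat_lit 491526) (nat_lit 0) (.e (nat_lit 1788) (nat_lit 119) (.e (nat_lit 516166) (nat_lit 12) (.e (nat_lit 450567) (nat_lit 0) (.e (nat_lit 4211) (nat_lit 251) .nil))))))) (.g (nat_lit 7) .nil .nil)))) (.nd (nat_lit 6) 
(.lf (nat_lit 16054) (.g (nat_lit 3475) (.e (nat_lit 1127) (nat_lit 83) (.e (nat_lit 16416) (nat_lit 3) (.e (nat_lit 204868) (nat_lit 29) (.e (nat_lit 360466) (nat_lit 3) (.e (nat_lit 516117) (nat_lit 1) .nil))))) .nil)) 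
(.lf (nat_lit 16118) (.g (nat_lit 2509) (.e (nat_lit 1127) (nat_lit 83) (.e (nat_lit 16473) (nat_lit 14) (.e (nat_lit 491568) (nat_lit 13) (.e (nat_lit 393282) (nat_lit 24) .nil)))) .nil))))) (.nd (nat_lit 4) (.nd (nat_lit 5) (.nd (nat_lit 6) 
(.lf (nat_lit 16014) (.g (nat_lit 3237) (.e (nat_lit 1126) (nat_lit 83) (.e (nat_lit 16473) (nat_lit 14) (.e (nat_lit 491546) (nat_lit 9) (.e (nat_lit 336443) (nat_lit 32) (.e (nat_lit 466960) (nat_lit 20) .nil))))) .nil)) 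
(.lf (nat_lit 16078) (.g (nat_lit 2912) (.e (nat_lit 1127) (nat_lit 83) (.e (nat_lit 16473) (nat_lit 14) (.e (nat_lit 491526) (nat_lit 0) (.e (nat_lit 1788) (nat_lit 119) (.e (nat_lit 516163) (nat_lit 11) .nil))))) .nil))) (.nd (nat_lit 6) 
(.lf (nat_lit 16046) (.g (nat_lit 3955) (.e (nat_lit 1126) (nat_lit 83) (.e (nat_lit 16473) (nat_lit 14) (.e (nat_lit 491568) (nat_lit 13) (.e (nat_lit 393283) (nat_lit 24) (.e (nat_lit 434208) (nat_lit 18) (.e (nat_lit 4751) (nat_lit 281) .nil)))))) (.g (nat_lit 0) .nil .nil))) 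
(.lf (nat_lit 16110) (.g (nat_lit 2412) (.e (nat_lit 1127) (nat_lit 83) (.e (nat_lit 16473) (nat_lit 14) (.e (nat_lit 491538) (nat_lit 3) (.e (nat_lit 98381) (nat_lit 31) (.e (nat_lit 466971) (nat_lit 21) .nil))))) .nil)))) (.nd (nat_lit 5) (.nd (nat_lit 6) 
(.lf (nat_lit 16030) (.g (nat_lit 2267) (.e (nat_lit 1126) (nat_lit 83) (.e (nat_lit 16473) (nat_lit 14) (.e (nat_lit 491567) (nat_lit 13) (.e (nat_lit 393281) (nat_lit 23) (.e (nat_lit 426100) (nat_lit 1) (.e (nat_lit 164256) (nat_lit 215) .nil)))))) (.g (nat_lit 4) .nil .nil))) 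
(.lf (nat_lit 16094) (.g (nat_lit 920) (.e (nat_lit 1127) (nat_lit 83) (.e (nat_lit 16473) (nat_lit 14) (.e (nat_lit 491536) (nat_lit 2) .nil))) .nil))) (.nd (nat_lit 6) 
(.lf (nat_lit 16062) (.g (nat_lit 1606) (.e (nat_lit 1127) (nat_lit 83) (.e (nat_lit 16469) (nat_lit 14) (.e (nat_lit 491540) (nat_lit 3) (.e (nat_lit 98373) (nat_lit 29) .nil)))) .nil)) 
(.lf (nat_lit 16126) (.g (nat_lit 2045) (.e (nat_lit 1128) (nat_lit 83) (.e (nat_lit 16392) (nat_lit 0) (.e (nat_lit 6989) (nat_lit 377) (.e (nat_lit 2779) (nat_lit 178) (.e (nat_lit 286771) (nat_lit 29) .nil))))) .nil)))))))) (.nd (nat_lit 1) (.nd (nat_lit 2) (.nd (nat_lit 3) (.nd (nat_lit 4) (.nd (nat_lit 5) (.nd (nat_lit 6) 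
(.lf (nat_lit 16001) (.g (nat_lit 2951) (.e (nat_lit 1126) (nat_lit 83) (.e (nat_lit 16473) (nat_lit 14) (.e (nat_lit 491544) (nat_lit 7) (.e (nat_lit 319531) (nat_lit 16) (.e (nat_lit 286748) (nat_lit 9) .nil))))) .nil)) 
(.lf (nat_lit 16065) (.g (nat_lit 5353) (.e (nat_lit 1127) (nat_lit 83) (.e (nat_lit 16470) (nat_lit 14) (.e (nat_lit 491537) (nat_lit 2) (.e (nat_lit 90170) (nat_lit 13) (.e (nat_lit 172106) (nat_lit 10) (.e (nat_lit 434209) (nat_lit 18) (.e (nat_lit 4214) (nat_lit 251) .nil))))))) (.g (nat_lit 5) .nil .nil)))) (.nd (nat_lit 6) 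
(.lf (nat_lit 16033) (.g (nat_lit 1944) (.e (nat_lit 1126) (nat_lit 83) (.e (nat_lit 16473) (nat_lit 14) (.e (nat_lit 491568) (nat_lit 13) (.e (nat_lit 393279) (nat_lit 23) .nil)))) .nil)) 
(.lf (nat_lit 16097) (.g (nat_lit 2692) (.e (nat_lit 1127) (nat_lit 83) (.e (nat_lit 16473) (nat_lit 14) (.e (nat_lit 491536) (nat_lit 2) (.e (nat_lit 90176) (nat_lit 15) (.e (nat_lit 188453) (nat_lit 24) .nil))))) .nil)))) (.nd (nat_lit 5) (.nd (nat_lit 6) 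
(.lf (nat_lit 16017) (.g (nat_lit 2078) (.e (nat_lit 1126) (nat_lit 83) (.e (nat_lit 16473) (nat_lit 14) (.e (nat_lit 491547) (nat_lit 9) (.e (nat_lit 336443) (nat_lit 32) .nil)))) .nil)) 
(.lf (nat_lit 16081) (.g (nat_lit 3692) (.e (nat_lit 1127) (nat_lit 83) (.e (nat_lit 16473) (nat_lit 14) (.e (nat_lit 491526) (nat_lit 0) (.e (nat_lit 1788) (nat_lit 119) (.e (nat_lit 516165) (nat_lit 12) (.e (nat_lit 450567) (nat_lit 0) (.e (nat_lit 4211) (nat_lit 251) .nil))))))) (.g (nat_lit 5) .nil .nil)))) (.nd (nat_lit 6) 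
(.lf (nat_lit 16049) (.g (nat_lit 1904) (.e (nat_lit 1126) (nat_lit 83) (.e (nat_lit 16473) (nat_lit 14) (.e (nat_lit 491568) (nat_lit 13) (.e (nat_lit 393284) (nat_lit 24) .nil)))) .nil)) 
(.lf (nat_lit 16113) (.g (nat_lit 3297) (.e (nat_lit 1127) (nat_lit 83) (.e (nat_lit 16473) (nat_lit 14) (.e (nat_lit 491538) (nat_lit 3) (.e (nat_lit 98381) (nat_lit 31) (.e (nat_lit 466972) (nat_lit 21) (.e (nat_lit 164123) (nat_lit 128) .nil)))))) (.g (nat_lit 6) .nil .nil)))))) (.nd (nat_lit 4) (.nd (nat_lit 5) (.nd (nat_lit 6) 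
(.lf (nat_lit 16009) (.g (nat_lit 2247) (.e (nat_lit 1126) (nat_lit 83) (.e (nat_lit 16473) (nat_lit 14) (.e (nat_lit 491546) (nat_lit 9) (.e (nat_lit 336433) (nat_lit 30) .nil)))) .nil)) 
(.lf (nat_lit 16073) (.g (nat_lit 925) (.e (nat_lit 1127) (nat_lit 83) (.e (nat_lit 16470) (nat_lit 14) (.e (nat_lit 491571) (nat_lit 13) .nil))) .nil))) (.nd (nat_lit 6) 
(.lf (nat_lit 16041) (.g (nat_lit 1879) (.e (nat_lit 1126) (nat_lit 83) (.e (nat_lit 16473) (nat_lit 14) (.e (nat_lit 491568) (nat_lit 13) (.e (nat_lit 393283) (nat_lit 24) .nil)))) .nil)) 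
(.lf (nat_lit 16105) (.g (nat_lit 3811) (.e (nat_lit 1127) (nat_lit 83) (.e (nat_lit 16473) (nat_lit 14) (.e (nat_lit 491538) (nat_lit 3) (.e (nat_lit 98370) (nat_lit 28) (.e (nat_lit 442430) (nat_lit 24) (.e (nat_lit 229522) (nat_lit 128) .nil)))))) (.g (nat_lit 0) .nil .nil))))) (.nd (nat_lit 5) (.nd (nat_lit 6) 
(.lf (nat_lit 16025) (.g (nat_lit 1740) (.e (nat_lit 1126) (nat_lit 83) (.e (nat_lit 16473) (nat_lit 14) (.e (nat_lit 491560) (nat_lit 10) (.e (nat_lit 344179) (nat_lit 44) .nil)))) .nil)) 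
(.lf (nat_lit 16089) (.g (nat_lit 1077) (.e (nat_lit 1127) (nat_lit 83) (.e (nat_lit 16473) (nat_lit 14) (.e (nat_lit 491530) (nat_lit 0) .nil))) .nil))) (.nd (nat_lit 6) 
(.lf (nat_lit 16057) (.g (nat_lit 3652) (.e (nat_lit 1127) (nat_lit 83) (.e (nat_lit 16416) (nat_lit 3) (.e (nat_lit 204869) (nat_lit 29) (.e (nat_lit 360474) (nat_lit 8) (.e (nat_lit 557091) (nat_lit 12) .nil))))) .nil)) 
(.lf (nat_lit 16121) (.g (nat_lit 4155) (.e (nat_lit 1127) (nat_lit 83) (.e (nat_lit 16473) (nat_lit 14) (.e (nat_lit 491568) (nat_lit 13) (.e (nat_lit 393283) (nat_lit 24) (.e (nat_lit 434208) (nat_lit 18) (.e (nat_lit 4754) (nat_lit 281) .nil)))))) (.g (nat_lit 0) .nil .nil))))))) (.nd (nat_lit 3) (.nd (nat_lit 4) (.nd (nat_lit 5) (.nd (nat_lit 6) 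
(.lf (nat_lit 16005) (.g (nat_lit 2247) (.e (nat_lit 1126) (nat_lit 83) (.e (nat_lit 16473) (nat_lit 14) (.e (nat_lit 491544) (nat_lit 7) (.e (nat_lit 319533) (nat_lit 16) .nil)))) .nil)) 
(.lf (nat_lit 16069) (.g (nat_lit 4032) (.e (nat_lit 1127) (nat_lit 83) (.e (nat_lit 16470) (nat_lit 14) (.e (nat_lit 491540) (nat_lit 3) (.e (nat_lit 98373) (nat_lit 29) (.e (nat_lit 450563) (nat_lit 0) .nil))))) .nil))) (.nd (nat_lit 6) 
(.lf (nat_lit 16037) (.g (nat_lit 2379) (.e (nat_lit 1126) (nat_lit 83) (.e (nat_lit 16473) (nat_lit 14) (.e (nat_lit 491568) (nat_lit 13) (.e (nat_lit 393281) (nat_lit 23) (.e (nat_lit 426100) (nat_lit 1) (.e (nat_lit 164257) (nat_lit 215) .nil)))))) (.g (nat_lit 4) .nil .nil))) 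
(.lf (nat_lit 16101) (.g (nat_lit 2778) (.e (nat_lit 1127) (nat_lit 83) (.e (nat_lit 16473) (nat_lit 14) (.e (nat_lit 491538) (nat_lit 3) (.e (nat_lit 98365) (nat_lit 26) (.e (nat_lit 426298) (nat_lit 11) (.e (nat_lit 458774) (nat_lit 18) (.e (nat_lit 4194) (nat_lit 251) .nil))))))) (.g (nat_lit 5) .nil .nil))))) (.nd (nat_lit 5) (.nd (nat_lit 6) 
(.lf (nat_lit 16021) (.g (nat_lit 3300) (.e (nat_lit 1126) (nat_lit 83) (.e (nat_lit 16473) (nat_lit 14) (.e (nat_lit 491559) (nat_lit 10) (.e (nat_lit 344177) (nat_lit 43) (.e (nat_lit 770072) (nat_lit 8) (.e (nat_lit 65565) (nat_lit 1) (.e (nat_lit 57760) (nat_lit 215) .nil))))))) (.g (nat_lit 4) .nil .nil))) 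
(.lf (nat_lit 16085) (.g (nat_lit 4777) (.e (nat_lit 1127) (nat_lit 83) (.e (nat_lit 16473) (nat_lit 14) (.e (nat_lit 491526) (nat_lit 0) (.e (nat_lit 1788) (nat_lit 119) (.e (nat_lit 516166) (nat_lit 12) (.e (nat_lit 450563) (nat_lit 0) (.e (nat_lit 4202) (nat_lit 251) .nil))))))) (.g (nat_lit 6) .nil .nil)))) (.nd (nat_lit 6) 
(.lf (nat_lit 16053) (.g (nat_lit 1489) (.e (nat_lit 1127) (nat_lit 83) (.e (nat_lit 16416) (nat_lit 3) (.e (nat_lit 204868) (nat_lit 29) .nil))) .nil)) 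
(.lf (nat_lit 16117) (.g (nat_lit 916) (.e (nat_lit 1127) (nat_lit 83) (.e (nat_lit 16473) (nat_lit 14) (.e (nat_lit 491567) (nat_lit 13) .nil))) .nil))))) (.nd (nat_lit 4) (.nd (nat_lit 5) (.nd (nat_lit 6) 
(.lf (nat_lit 16013) (.g (nat_lit 2240) (.e (nat_lit 1126) (nat_lit 83) (.e (nat_lit 16473) (nat_lit 14) (.e (nat_lit 491546) (nat_lit 9) (.e (nat_lit 336443) (nat_lit 32) .nil)))) .nil)) 
(.lf (nat_lit 16077) (.g (nat_lit 2817) (.e (nat_lit 1127) (nat_lit 83) (.e (nat_lit 16473) (nat_lit 14) (.e (nat_lit 491526) (nat_lit 0) (.e (nat_lit 1788) (nat_lit 119) (.e (nat_lit 516151) (nat_lit 9) .nil))))) .nil))) (.nd (nat_lit 6) 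
(.lf (nat_lit 16045) (.g (nat_lit 2488) (.e (nat_lit 1126) (nat_lit 83) (.e (nat_lit 16473) (nat_lit 14) (.e (nat_lit 491568) (nat_lit 13) (.e (nat_lit 393283) (nat_lit 24) (.e (nat_lit 434203) (nat_lit 18) .nil))))) .nil)) 
(.lf (nat_lit 16109) (.g (nat_lit 1640) (.e (nat_lit 1127) (nat_lit 83) (.e (nat_lit 16473) (nat_lit 14) (.e (nat_lit 491538) (nat_lit 3) (.e (nat_lit 98381) (nat_lit 31) .nil)))) .nil)))) (.nd (nat_lit 5) (.nd (nat_lit 6) 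
(.lf (nat_lit 16029) (.g (nat_lit 2206) (.e (nat_lit 1126) (nat_lit 83) (.e (nat_lit 16473) (nat_lit 14) (.e (nat_lit 491567) (nat_lit 13) (.e (nat_lit 393281) (nat_lit 23) (.e (nat_lit 426099) (nat_lit 1) (.e (nat_lit 164257) (nat_lit 215) .nil)))))) (.g (nat_lit 4) .nil .nil))) 
(.lf (nat_lit 16093) (.g (nat_lit 2761) (.e (nat_lit 1127) (nat_lit 83) (.e (nat_lit 16473) (nat_lit 14) (.e (nat_lit 491535) (nat_lit 2) (.e (nat_lit 90176) (nat_lit 15) (.e (nat_lit 188453) (nat_lit 24) .nil))))) .nil))) (.nd (nat_lit 6) 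
(.lf (nat_lit 16061) (.g (nat_lit 2458) (.e (nat_lit 1127) (nat_lit 83) (.e (nat_lit 16455) (nat_lit 12) (.e (nat_lit 475210) (nat_lit 41) (.e (nat_lit 712755) (nat_lit 30) (.e (nat_lit 450562) (nat_lit 0) (.e (nat_lit 4756) (nat_lit 281) .nil)))))) (.g (nat_lit 5) .nil .nil))) 
(.lf (nat_lit 16125) (.g (nat_lit 2959) (.e (nat_lit 1128) (nat_lit 83) (.e (nat_lit 16392) (nat_lit 0) (.e (nat_lit 6989) (nat_lit 377) (.e (nat_lit 2777) (nat_lit 178) (.e (nat_lit 286771) (nat_lit 29) (.e (nat_lit 442409) (nat_lit 20) (.e (nat_lit 2422) (nat_lit 157) (.e (nat_lit 4760) (nat_lit 281) .nil)))))))) (.g (nat_lit 6) .nil .nil)))))))) 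
(.nd (nat_lit 2) (.nd (nat_lit 3) (.nd (nat_lit 4) (.nd (nat_lit 5) (.nd (nat_lit 6) 
(.lf (nat_lit 16003) (.g (nat_lit 3356) (.e (nat_lit 1126) (nat_lit 83) (.e (nat_lit 16473) (nat_lit 14) (.e (nat_lit 491544) (nat_lit 7) (.e (nat_lit 319531) (nat_lit 16) (.e (nat_lit 286759) (nat_lit 12) .nil))))) .nil)) 
(.lf (nat_lit 16067) (.g (nat_lit 1902) (.e (nat_lit 1127) (nat_lit 83) (.e (nat_lit 16470) (nat_lit 14) (.e (nat_lit 491540) (nat_lit 3) .nil))) .nil))) (.nd (nat_lit 6) 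
(.lf (nat_lit 16035) (.g (nat_lit 2306) (.e (nat_lit 1126) (nat_lit 83) (.e (nat_lit 16473) (nat_lit 14) (.e (nat_lit 491568) (nat_lit 13) (.e (nat_lit 393281) (nat_lit 23) (.e (nat_lit 426099) (nat_lit 1) .nil))))) .nil)) 
(.lf (nat_lit 16099) (.g (nat_lit 731) (.e (nat_lit 1127) (nat_lit 83) (.e (nat_lit 16473) (nat_lit 14) (.e (nat_lit 491538) (nat_lit 3) .nil))) .nil)))) (.nd (nat_lit 5) (.nd (nat_lit 6) 
(.lf (nat_lit 16019) (.g (nat_lit 1216) (.e (nat_lit 1126) (nat_lit 83) (.e (nat_lit 16473) (nat_lit 14) (.e (nat_lit 491556) (nat_lit 9) .nil))) .nil)) 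
(.lf (nat_lit 16083) (.g (nat_lit 3972) (.e (nat_lit 1127) (nat_lit 83) (.e (nat_lit 16473) (nat_lit 14) (.e (nat_lit 491526) (nat_lit 0) (.e (nat_lit 1788) (nat_lit 119) (.e (nat_lit 516166) (nat_lit 12) (.e (nat_lit 450563) (nat_lit 0) (.e (nat_lit 4193) (nat_lit 251) .nil))))))) (.g (nat_lit 5) .nil .nil)))) (.nd (nat_lit 6) 
(.lf (nat_lit 16051) (.g (nat_lit 2717) (.e (nat_lit 1127) (nat_lit 83) (.e (nat_lit 16412) (nat_lit 2) (.e (nat_lit 196672) (nat_lit 15) (.e (nat_lit 81954) (nat_lit 23) (.e (nat_lit 98334) (nat_lit 18) (.e (nat_lit 171776) (nat_lit 278) .nil)))))) (.g (nat_lit 5) .nil .nil))) 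
(.lf (nat_lit 16115) (.g (nat_lit 1623) (.e (nat_lit 1127) (nat_lit 83) (.e (nat_lit 16473) (nat_lit 14) (.e (nat_lit 491539) (nat_lit 3) (.e (nat_lit 98373) (nat_lit 29) .nil)))) .nil))))) (.nd (nat_lit 4) (.nd (nat_lit 5) (.nd (nat_lit 6) 
(.lf (nat_lit 16011) (.g (nat_lit 2247) (.e (nat_lit 1126) (nat_lit 83) (.e (nat_lit 16473) (nat_lit 14) (.e (nat_lit 491546) (nat_lit 9) (.e (nat_lit 336434) (nat_lit 30) .nil)))) .nil)) 
(.lf (nat_lit 16075) (.g (nat_lit 897) (.e (nat_lit 1127) (nat_lit 83) (.e (nat_lit 16473) (nat_lit 14) (.e (nat_lit 491526) (nat_lit 0) .nil))) .nil))) (.nd (nat_lit 6) 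
(.lf (nat_lit 16043) (.g (nat_lit 2585) (.e (nat_lit 1126) (nat_lit 83) (.e (nat_lit 16473) (nat_lit 14) (.e (nat_lit 491568) (nat_lit 13) (.e (nat_lit 393283) (nat_lit 24) (.e (nat_lit 434200) (nat_lit 18) (.e (nat_lit 4805) (nat_lit 281) .nil)))))) (.g (nat_lit 4) .nil .nil))) 
(.lf (nat_lit 16107) (.g (nat_lit 1557) (.e (nat_lit 1127) (nat_lit 83) (.e (nat_lit 16473) (nat_lit 14) (.e (nat_lit 491538) (nat_lit 3) (.e (nat_lit 98373) (nat_lit 29) .nil)))) .nil)))) (.nd (nat_lit 5) (.nd (nat_lit 6) 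
(.lf (nat_lit 16027) (.g (nat_lit 1684) (.e (nat_lit 1126) (nat_lit 83) (.e (nat_lit 16473) (nat_lit 14) (.e (nat_lit 491567) (nat_lit 13) (.e (nat_lit 393281) (nat_lit 23) .nil)))) .nil)) 
(.lf (nat_lit 16091) (.g (nat_lit 2071) (.e (nat_lit 1127) (nat_lit 83) (.e (nat_lit 16473) (nat_lit 14) (.e (nat_lit 491535) (nat_lit 2) (.e (nat_lit 90170) (nat_lit 13) (.e (nat_lit 172106) (nat_lit 10) (.e (nat_lit 434202) (nat_lit 18) (.e (nat_lit 4203) (nat_lit 251) .nil))))))) (.g (nat_lit 4) .nil .nil)))) (.nd (nat_lit 6) 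
(.lf (nat_lit 16059) (.g (nat_lit 603) (.e (nat_lit 1127) (nat_lit 83) (.e (nat_lit 16448) (nat_lit 10) (.e (nat_lit 434268) (nat_lit 36) .nil))) .nil)) 
(.lf (nat_lit 16123) (.g (nat_lit 2548) (.e (nat_lit 1128) (nat_lit 83) (.e (nat_lit 16392) (nat_lit 0) (.e (nat_lit 6989) (nat_lit 377) (.e (nat_lit 2777) (nat_lit 178) (.e (nat_lit 286771) (nat_lit 29) .nil))))) .nil)))))) (.nd (nat_lit 3) (.nd (nat_lit 4) (.nd (nat_lit 5) (.nd (nat_lit 6) 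
(.lf (nat_lit 16007) (.g (nat_lit 1004) (.e (nat_lit 1126) (nat_lit 83) (.e (nat_lit 16473) (nat_lit 14) (.e (nat_lit 491546) (nat_lit 9) .nil))) .nil)) 
(.lf (nat_lit 16071) (.g (nat_lit 4101) (.e (nat_lit 1127) (nat_lit 83) (.e (nat_lit 16470) (nat_lit 14) (.e (nat_lit 491540) (nat_lit 3) (.e (nat_lit 98373) (nat_lit 29) (.e (nat_lit 450563) (nat_lit 0) (.e (nat_lit 4203) (nat_lit 251) .nil)))))) (.g (nat_lit 4) .nil .nil)))) (.nd (nat_lit 6) 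
(.lf (nat_lit 16039) (.g (nat_lit 1964) (.e (nat_lit 1126) (nat_lit 83) (.e (nat_lit 16473) (nat_lit 14) (.e (nat_lit 491568) (nat_lit 13) (.e (nat_lit 393282) (nat_lit 24) .nil)))) .nil)) 
(.lf (nat_lit 16103) (.g (nat_lit 2670) (.e (nat_lit 1127) (nat_lit 83) (.e (nat_lit 16473) (nat_lit 14) (.e (nat_lit 491538) (nat_lit 3) (.e (nat_lit 98370) (nat_lit 28) (.e (nat_lit 442421) (nat_lit 21) .nil))))) .nil)))) (.nd (nat_lit 5) (.nd (nat_lit 6) 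
(.lf (nat_lit 16023) (.g (nat_lit 2504) (.e (nat_lit 1126) (nat_lit 83) (.e (nat_lit 16473) (nat_lit 14) (.e (nat_lit 491560) (nat_lit 10) (.e (nat_lit 344177) (nat_lit 43) .nil)))) .nil)) 
(.lf (nat_lit 16087) (.g (nat_lit 4262) (.e (nat_lit 1127) (nat_lit 83) (.e (nat_lit 16473) (nat_lit 14) (.e (nat_lit 491526) (nat_lit 0) (.e (nat_lit 1788) (nat_lit 119) (.e (nat_lit 516166) (nat_lit 12) (.e (nat_lit 450569) (nat_lit 0) (.e (nat_lit 4215) (nat_lit 251) .nil))))))) (.g (nat_lit 7) .nil .nil)))) (.nd (nat_lit 6) 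
(.lf (nat_lit 16055) (.g (nat_lit 3388) (.e (nat_lit 1127) (nat_lit 83) (.e (nat_lit 16416) (nat_lit 3) (.e (nat_lit 204868) (nat_lit 29) (.e (nat_lit 360466) (nat_lit 3) (.e (nat_lit 516119) (nat_lit 1) .nil))))) .nil)) 
(.lf (nat_lit 16119) (.g (nat_lit 2416) (.e (nat_lit 1127) (nat_lit 83) (.e (nat_lit 16473) (nat_lit 14) (.e (nat_lit 491568) (nat_lit 13) (.e (nat_lit 393283) (nat_lit 24) .nil)))) .nil))))) (.nd (nat_lit 4) (.nd (nat_lit 5) (.nd (nat_lit 6) 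
(.lf (nat_lit 16015) (.g (nat_lit 2008) (.e (nat_lit 1126) (nat_lit 83) (.e (nat_lit 16473) (nat_lit 14) (.e (nat_lit 491547) (nat_lit 9) (.e (nat_lit 336432) (nat_lit 30) .nil)))) .nil)) 
(.lf (nat_lit 16079) (.g (nat_lit 2977) (.e (nat_lit 1127) (nat_lit 83) (.e (nat_lit 16473) (nat_lit 14) (.e (nat_lit 491526) (nat_lit 0) (.e (nat_lit 1788) (nat_lit 119) (.e (nat_lit 516163) (nat_lit 11) (.e (nat_lit 442430) (nat_lit 24) (.e (nat_lit 229525) (nat_lit 128) .nil))))))) (.g (nat_lit 4) .nil .nil)))) (.nd (nat_lit 6) 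
(.lf (nat_lit 16047) (.g (nat_lit 3725) (.e (nat_lit 1126) (nat_lit 83) (.e (nat_lit 16473) (nat_lit 14) (.e (nat_lit 491568) (nat_lit 13) (.e (nat_lit 393283) (nat_lit 24) (.e (nat_lit 434208) (nat_lit 18) (.e (nat_lit 4754) (nat_lit 281) .nil)))))) (.g (nat_lit 0) .nil .nil))) 
(.lf (nat_lit 16111) (.g (nat_lit 2214) (.e (nat_lit 1127) (nat_lit 83) (.e (nat_lit 16473) (nat_lit 14) (.e (nat_lit 491538) (nat_lit 3) (.e (nat_lit 98381) (nat_lit 31) (.e (nat_lit 466972) (nat_lit 21) .nil))))) .nil)))) (.nd (nat_lit 5) (.nd (nat_lit 6) 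
(.lf (nat_lit 16031) (.g (nat_lit 3085) (.e (nat_lit 1126) (nat_lit 83) (.e (nat_lit 16473) (nat_lit 14) (.e (nat_lit 491567) (nat_lit 13) (.e (nat_lit 393281) (nat_lit 23) (.e (nat_lit 426100) (nat_lit 1) (.e (nat_lit 164258) (nat_lit 215) .nil)))))) (.g (nat_lit 6) .nil .nil))) 
(.lf (nat_lit 16095) (.g (nat_lit 2199) (.e (nat_lit 1127) (nat_lit 83) (.e (nat_lit 16473) (nat_lit 14) (.e (nat_lit 491536) (nat_lit 2) (.e (nat_lit 90170) (nat_lit 13) (.e (nat_lit 172106) (nat_lit 10) .nil))))) .nil))) (.nd (nat_lit 6) 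
(.lf (nat_lit 16063) (.g (nat_lit 1984) (.e (nat_lit 1127) (nat_lit 83) (.e (nat_lit 16470) (nat_lit 14) (.e (nat_lit 491537) (nat_lit 2) .nil))) .nil)) 
(.lf (nat_lit 16127) (.g (nat_lit 2085) (.e (nat_lit 1128) (nat_lit 83) (.e (nat_lit 16392) (nat_lit 0) (.e (nat_lit 6989) (nat_lit 377) (.e (nat_lit 2779) (nat_lit 178) (.e (nat_lit 286771) (nat_lit 29) (.e (nat_lit 442409) (nat_lit 20) (.e (nat_lit 2422) (nat_lit 157) (.e (nat_lit 4754) (nat_lit 281) .nil)))))))) (.g (nat_lit 4) .nil .nil))))))))))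

noncomputable def tv219 : DT := (.nd (nat_lit 0) (.nd (nat_lit 1) (.nd (nat_lit 2) (.nd (nat_lit 3) (.nd (nat_lit 4) (.nd (nat_lit 5) (.nd (nat_lit 6) 
(.lf (nat_lit 16128) (.g (nat_lit 1788) (.e (nat_lit 1128) (nat_lit 83) (.e (nat_lit 16392) (nat_lit 0) (.e (nat_lit 6989) (nat_lit 377) (.e (nat_lit 2779) (nat_lit 178) (.e (nat_lit 294656) (nat_lit 30) .nil))))) .nil)) 
(.lf (nat_lit 16192) (.g (nat_lit 3004) (.e (nat_lit 1128) (nat_lit 83) (.e (nat_lit 16470) (nat_lit 14) (.e (nat_lit 491540) (nat_lit 3) (.e (nat_lit 98373) (nat_lit 29) .nil)))) .nil))) (.nd (nat_lit 6) 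
(.lf (nat_lit 16160) (.g (nat_lit 639) (.e (nat_lit 1128) (nat_lit 83) (.e (nat_lit 16456) (nat_lit 12) (.e (nat_lit 475211) (nat_lit 41) .nil))) .nil)) 
(.lf (nat_lit 16224) (.g (nat_lit 5210) (.e (nat_lit 1129) (nat_lit 83) (.e (nat_lit 16470) (nat_lit 14) (.e (nat_lit 491537) (nat_lit 2) (.e (nat_lit 90170) (nat_lit 13) (.e (nat_lit 172113) (nat_lit 10) .nil))))) .nil)))) (.nd (nat_lit 5) (.nd (nat_lit 6) 
(.lf (nat_lit 16144) (.g (nat_lit 2334) (.e (nat_lit 1128) (nat_lit 83) (.e (nat_lit 16425) (nat_lit 7) (.e (nat_lit 409648) (nat_lit 18) (.e (nat_lit 303137) (nat_lit 10) (.e (nat_lit 434272) (nat_lit 38) .nil))))) .nil)) 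
(.lf (nat_lit 16208) (.g (nat_lit 2784) (.e (nat_lit 1129) (nat_lit 83) (.e (nat_lit 16448) (nat_lit 10) (.e (nat_lit 434268) (nat_lit 36) (.e (nat_lit 639007) (nat_lit 13) (.e (nat_lit 1586) (nat_lit 111) (.e (nat_lit 360450) (nat_lit 0) (.e (nat_lit 5429) (nat_lit 306) .nil))))))) (.g (nat_lit 5) .nil .nil)))) (.nd (nat_lit 6) 
(.lf (nat_lit 16176) (.g (nat_lit 1750) (.e (nat_lit 1128) (nat_lit 83) (.e (nat_lit 16469) (nat_lit 14) (.e (nat_lit 491540) (nat_lit 3) (.e (nat_lit 98370) (nat_lit 28) .nil)))) .nil)) 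
(.lf (nat_lit 16240) (.g (nat_lit 1438) (.e (nat_lit 1129) (nat_lit 83) (.e (nat_lit 16473) (nat_lit 14) (.e (nat_lit 491535) (nat_lit 2) .nil))) .nil))))) (.nd (nat_lit 4) (.nd (nat_lit 5) (.nd (nat_lit 6) 
(.lf (nat_lit 16136) (.g (nat_lit 3357) (.e (nat_lit 1128) (nat_lit 83) (.e (nat_lit 16416) (nat_lit 3) (.e (nat_lit 204868) (nat_lit 29) (.e (nat_lit 360466) (nat_lit 3) (.e (nat_lit 516115) (nat_lit 1) .nil))))) .nil)) 
(.lf (nat_lit 16200) (.g (nat_lit 691) (.e (nat_lit 1129) (nat_lit 83) (.e (nat_lit 16448) (nat_lit 10) (.e (nat_lit 434268) (nat_lit 36) .nil))) .nil))) (.nd (nat_lit 6) 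
(.lf (nat_lit 16168) (.g (nat_lit 4606) (.e (nat_lit 1128) (nat_lit 83) (.e (nat_lit 16466) (nat_lit 13) (.e (nat_lit 483413) (nat_lit 27) (.e (nat_lit 401448) (nat_lit 10) (.e (nat_lit 434200) (nat_lit 18) .nil))))) .nil)) 
(.lf (nat_lit 16232) (.g (nat_lit 4401) (.e (nat_lit 1129) (nat_lit 83) (.e (nat_lit 16470) (nat_lit 14) (.e (nat_lit 491540) (nat_lit 3) (.e (nat_lit 98373) (nat_lit 29) (.e (nat_lit 450563) (nat_lit 0) (.e (nat_lit 4177) (nat_lit 251) .nil)))))) (.g (nat_lit 4) .nil .nil))))) (.nd (nat_lit 5) (.nd (nat_lit 6) 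
(.lf (nat_lit 16152) (.g (nat_lit 2852) (.e (nat_lit 1128) (nat_lit 83) (.e (nat_lit 16448) (nat_lit 10) (.e (nat_lit 434231) (nat_lit 23) (.e (nat_lit 532569) (nat_lit 16) (.e (nat_lit 401448) (nat_lit 10) .nil))))) .nil)) 
(.lf (nat_lit 16216) (.g (nat_lit 3564) (.e (nat_lit 1129) (nat_lit 83) (.e (nat_lit 16448) (nat_lit 10) (.e (nat_lit 434268) (nat_lit 36) (.e (nat_lit 639020) (nat_lit 16) (.e (nat_lit 65617) (nat_lit 10) (.e (nat_lit 344091) (nat_lit 18) (.e (nat_lit 5429) (nat_lit 306) .nil))))))) (.g (nat_lit 6) .nil .nil)))) (.nd (nat_lit 6) 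
(.lf (nat_lit 16184) (.g (nat_lit 2795) (.e (nat_lit 1128) (nat_lit 83) (.e (nat_lit 16469) (nat_lit 14) (.e (nat_lit 491540) (nat_lit 3) (.e (nat_lit 98373) (nat_lit 29) (.e (nat_lit 450569) (nat_lit 0) .nil))))) .nil)) 
(.lf (nat_lit 16248) (.g (nat_lit 3139) (.e (nat_lit 1129) (nat_lit 83) (.e (nat_lit 16473) (nat_lit 14) (.e (nat_lit 491538) (nat_lit 3) (.e (nat_lit 98373) (nat_lit 29) (.e (nat_lit 450562) (nat_lit 0) .nil))))) .nil)))))) (.nd (nat_lit 3) (.nd (nat_lit 4) (.nd (nat_lit 5) (.nd (nat_lit 6) 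
(.lf (nat_lit 16132) (.g (nat_lit 1534) (.e (nat_lit 1128) (nat_lit 83) (.e (nat_lit 16415) (nat_lit 3) (.e (nat_lit 204861) (nat_lit 26) (.e (nat_lit 336186) (nat_lit 11) (.e (nat_lit 368676) (nat_lit 21) (.e (nat_lit 516117) (nat_lit 1) (.e (nat_lit 171776) (nat_lit 278) .nil))))))) (.g (nat_lit 4) .nil .nil))) 
(.lf (nat_lit 16196) (.g (nat_lit 3005) (.e (nat_lit 1128) (nat_lit 83) (.e (nat_lit 16470) (nat_lit 14) (.e (nat_lit 491571) (nat_lit 13) (.e (nat_lit 393283) (nat_lit 24) (.e (nat_lit 434208) (nat_lit 18) .nil))))) .nil))) (.nd (nat_lit 6) 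
(.lf (nat_lit 16164) (.g (nat_lit 1424) (.e (nat_lit 1128) (nat_lit 83) (.e (nat_lit 16466) (nat_lit 13) (.e (nat_lit 483413) (nat_lit 27) .nil))) .nil)) 
(.lf (nat_lit 16228) (.g (nat_lit 4283) (.e (nat_lit 1129) (nat_lit 83) (.e (nat_lit 16470) (nat_lit 14) (.e (nat_lit 491540) (nat_lit 3) (.e (nat_lit 98373) (nat_lit 29) (.e (nat_lit 450562) (nat_lit 0) (.e (nat_lit 4177) (nat_lit 251) .nil)))))) (.g (nat_lit 4) .nil .nil))))) (.nd (nat_lit 5) (.nd (nat_lit 6) 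
(.lf (nat_lit 16148) (.g (nat_lit 5067) (.e (nat_lit 1128) (nat_lit 83) (.e (nat_lit 16425) (nat_lit 7) (.e (nat_lit 409649) (nat_lit 18) (.e (nat_lit 303146) (nat_lit 14) (.e (nat_lit 491566) (nat_lit 12) (.e (nat_lit 385043) (nat_lit 21) (.e (nat_lit 7616) (nat_lit 410) .nil))))))) (.g (nat_lit 7) .nil .nil))) 
(.lf (nat_lit 16212) (.g (nat_lit 2218) (.e (nat_lit 1129) (nat_lit 83) (.e (nat_lit 16448) (nat_lit 10) (.e (nat_lit 434268) (nat_lit 36) (.e (nat_lit 639007) (nat_lit 13) (.e (nat_lit 1595) (nat_lit 111) .nil))))) .nil))) (.nd (nat_lit 6) 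
(.lf (nat_lit 16180) (.g (nat_lit 2910) (.e (nat_lit 1128) (nat_lit 83) (.e (nat_lit 16469) (nat_lit 14) (.e (nat_lit 491540) (nat_lit 3) (.e (nat_lit 98373) (nat_lit 29) (.e (nat_lit 450566) (nat_lit 0) .nil))))) .nil)) 
(.lf (nat_lit 16244) (.g (nat_lit 1313) (.e (nat_lit 1129) (nat_lit 83) (.e (nat_lit 16473) (nat_lit 14) (.e (nat_lit 491536) (nat_lit 2) .nil))) .nil))))) (.nd (nat_lit 4) (.nd (nat_lit 5) (.nd (nat_lit 6) 
(.lf (nat_lit 16140) (.g (nat_lit 1390) (.e (nat_lit 1128) (nat_lit 83) (.e (nat_lit 16425) (nat_lit 7) (.e (nat_lit 409617) (nat_lit 10) (.e (nat_lit 7936) (nat_lit 43) .nil)))) .nil)) 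
(.lf (nat_lit 16204) (.g (nat_lit 2583) (.e (nat_lit 1129) (nat_lit 83) (.e (nat_lit 16448) (nat_lit 10) (.e (nat_lit 434268) (nat_lit 36) (.e (nat_lit 639005) (nat_lit 13) (.e (nat_lit 1586) (nat_lit 111) (.e (nat_lit 360451) (nat_lit 0) (.e (nat_lit 5429) (nat_lit 306) .nil))))))) (.g (nat_lit 5) .nil .nil)))) (.nd (nat_lit 6) 
(.lf (nat_lit 16172) (.g (nat_lit 800) (.e (nat_lit 1128) (nat_lit 83) (.e (nat_lit 16469) (nat_lit 14) (.e (nat_lit 491539) (nat_lit 3) .nil))) .nil)) 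
(.lf (nat_lit 16236) (.g (nat_lit 1293) (.e (nat_lit 1129) (nat_lit 83) (.e (nat_lit 16473) (nat_lit 14) (.e (nat_lit 491526) (nat_lit 0) .nil))) .nil)))) (.nd (nat_lit 5) (.nd (nat_lit 6) 
(.lf (nat_lit 16156) (.g (nat_lit 2795) (.e (nat_lit 1128) (nat_lit 83) (.e (nat_lit 16455) (nat_lit 12) (.e (nat_lit 475210) (nat_lit 41) (.e (nat_lit 712755) (nat_lit 30) (.e (nat_lit 450562) (nat_lit 0) (.e (nat_lit 4756) (nat_lit 281) .nil)))))) (.g (nat_lit 6) .nil .nil))) 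
(.lf (nat_lit 16220) (.g (nat_lit 1880) (.e (nat_lit 1129) (nat_lit 83) (.e (nat_lit 16468) (nat_lit 13) (.e (nat_lit 483372) (nat_lit 21) (.e (nat_lit 319533) (nat_lit 16) (.e (nat_lit 286720) (nat_lit 0) .nil))))) .nil))) (.nd (nat_lit 6) 
(.lf (nat_lit 16188) (.g (nat_lit 3588) (.e (nat_lit 1128) (nat_lit 83) (.e (nat_lit 16470) (nat_lit 14) (.e (nat_lit 491537) (nat_lit 2) (.e (nat_lit 90170) (nat_lit 13) (.e (nat_lit 172106) (nat_lit 10) .nil))))) .nil)) 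
(.lf (nat_lit 16252) (.g (nat_lit 2317) (.e (nat_lit 1129) (nat_lit 83) (.e (nat_lit 16473) (nat_lit 14) (.e (nat_lit 491539) (nat_lit 3) (.e (nat_lit 98373) (nat_lit 29) .nil)))) .nil))))))) (.nd (nat_lit 2) (.nd (nat_lit 3) (.nd (nat_lit 4) (.nd (nat_lit 5) (.nd (nat_lit 6) 
(.lf (nat_lit 16130) (.g (nat_lit 2054) (.e (nat_lit 1128) (nat_lit 83) (.e (nat_lit 16409) (nat_lit 2) (.e (nat_lit 196672) (nat_lit 15) (.e (nat_lit 81954) (nat_lit 23) (.e (nat_lit 98334) (nat_lit 18) (.e (nat_lit 171776) (nat_lit 278) .nil)))))) (.g (nat_lit 5) .nil .nil))) 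
(.lf (nat_lit 16194) (.g (nat_lit 1363) (.e (nat_lit 1128) (nat_lit 83) (.e (nat_lit 16470) (nat_lit 14) (.e (nat_lit 491569) (nat_lit 13) .nil))) .nil))) (.nd (nat_lit 6) 
(.lf (nat_lit 16162) (.g (nat_lit 1915) (.e (nat_lit 1128) (nat_lit 83) (.e (nat_lit 16459) (nat_lit 12) (.e (nat_lit 475185) (nat_lit 29) (.e (nat_lit 557109) (nat_lit 15) .nil)))) .nil)) 
(.lf (nat_lit 16226) (.g (nat_lit 3350) (.e (nat_lit 1129) (nat_lit 83) (.e (nat_lit 16470) (nat_lit 14) (.e (nat_lit 491540) (nat_lit 3) (.e (nat_lit 98373) (nat_lit 29) .nil)))) .nil)))) (.nd (nat_lit 5) (.nd (nat_lit 6) 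
(.lf (nat_lit 16146) (.g (nat_lit 4182) (.e (nat_lit 1128) (nat_lit 83) (.e (nat_lit 16425) (nat_lit 7) (.e (nat_lit 409648) (nat_lit 18) (.e (nat_lit 303146) (nat_lit 14) (.e (nat_lit 491566) (nat_lit 12) (.e (nat_lit 385043) (nat_lit 21) (.e (nat_lit 7618) (nat_lit 410) .nil))))))) (.g (nat_lit 5) .nil .nil))) 
(.lf (nat_lit 16210) (.g (nat_lit 2349) (.e (nat_lit 1129) (nat_lit 83) (.e (nat_lit 16448) (nat_lit 10) (.e (nat_lit 434268) (nat_lit 36) (.e (nat_lit 639007) (nat_lit 13) (.e (nat_lit 1586) (nat_lit 111) (.e (nat_lit 360450) (nat_lit 0) (.e (nat_lit 5455) (nat_lit 306) .nil))))))) (.g (nat_lit 4) .nil .nil)))) (.nd (nat_lit 6) 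
(.lf (nat_lit 16178) (.g (nat_lit 2702) (.e (nat_lit 1128) (nat_lit 83) (.e (nat_lit 16469) (nat_lit 14) (.e (nat_lit 491540) (nat_lit 3) (.e (nat_lit 98373) (nat_lit 29) (.e (nat_lit 450560) (nat_lit 0) .nil))))) .nil)) 
(.lf (nat_lit 16242) (.g (nat_lit 2863) (.e (nat_lit 1129) (nat_lit 83) (.e (nat_lit 16473) (nat_lit 14) (.e (nat_lit 491535) (nat_lit 2) (.e (nat_lit 90170) (nat_lit 13) (.e (nat_lit 172106) (nat_lit 10) (.e (nat_lit 434202) (nat_lit 18) (.e (nat_lit 4176) (nat_lit 251) .nil))))))) (.g (nat_lit 4) .nil .nil)))))) (.nd (nat_lit 4) (.nd (nat_lit 5) (.nd (nat_lit 6) 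
(.lf (nat_lit 16138) (.g (nat_lit 3419) (.e (nat_lit 1128) (nat_lit 83) (.e (nat_lit 16416) (nat_lit 3) (.e (nat_lit 204869) (nat_lit 29) (.e (nat_lit 360474) (nat_lit 8) (.e (nat_lit 557091) (nat_lit 12) .nil))))) .nil)) 
(.lf (nat_lit 16202) (.g (nat_lit 2006) (.e (nat_lit 1129) (nat_lit 83) (.e (nat_lit 16448) (nat_lit 10) (.e (nat_lit 434268) (nat_lit 36) (.e (nat_lit 639005) (nat_lit 13) (.e (nat_lit 1586) (nat_lit 111) (.e (nat_lit 360450) (nat_lit 0) (.e (nat_lit 5429) (nat_lit 306) .nil))))))) (.g (nat_lit 4) .nil .nil)))) (.nd (nat_lit 6) 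
(.lf (nat_lit 16170) (.g (nat_lit 785) (.e (nat_lit 1128) (nat_lit 83) (.e (nat_lit 16469) (nat_lit 14) (.e (nat_lit 491536) (nat_lit 2) .nil))) .nil)) 
(.lf (nat_lit 16234) (.g (nat_lit 1076) (.e (nat_lit 1129) (nat_lit 83) (.e (nat_lit 16470) (nat_lit 14) (.e (nat_lit 491571) (nat_lit 13) .nil))) .nil)))) (.nd (nat_lit 5) (.nd (nat_lit 6) 
(.lf (nat_lit 16154) (.g (nat_lit 2029) (.e (nat_lit 1128) (nat_lit 83) (.e (nat_lit 16448) (nat_lit 10) (.e (nat_lit 434268) (nat_lit 36) (.e (nat_lit 639007) (nat_lit 13) .nil)))) .nil)) 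
(.lf (nat_lit 16218) (.g (nat_lit 1649) (.e (nat_lit 1129) (nat_lit 83) (.e (nat_lit 16468) (nat_lit 13) (.e (nat_lit 483372) (nat_lit 21) (.e (nat_lit 319504) (nat_lit 10) .nil)))) .nil))) (.nd (nat_lit 6) 
(.lf (nat_lit 16186) (.g (nat_lit 2611) (.e (nat_lit 1128) (nat_lit 83) (.e (nat_lit 16469) (nat_lit 14) (.e (nat_lit 491569) (nat_lit 13) (.e (nat_lit 393283) (nat_lit 24) (.e (nat_lit 434208) (nat_lit 18) .nil))))) .nil)) 
(.lf (nat_lit 16250) (.g (nat_lit 2890) (.e (nat_lit 1129) (nat_lit 83) (.e (nat_lit 16473) (nat_lit 14) (.e (nat_lit 491538) (nat_lit 3) (.e (nat_lit 98381) (nat_lit 31) (.e (nat_lit 466972) (nat_lit 21) .nil))))) .nil)))))) (.nd (nat_lit 3) (.nd (nat_lit 4) (.nd (nat_lit 5) (.nd (nat_lit 6) 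
(.lf (nat_lit 16134) (.g (nat_lit 2415) (.e (nat_lit 1128) (nat_lit 83) (.e (nat_lit 16416) (nat_lit 3) (.e (nat_lit 204861) (nat_lit 26) (.e (nat_lit 336186) (nat_lit 11) (.e (nat_lit 368676) (nat_lit 21) (.e (nat_lit 516117) (nat_lit 1) (.e (nat_lit 171776) (nat_lit 278) .nil))))))) (.g (nat_lit 6) .nil .nil))) 
(.lf (nat_lit 16198) (.g (nat_lit 1543) (.e (nat_lit 1129) (nat_lit 83) (.e (nat_lit 16416) (nat_lit 3) (.e (nat_lit 204868) (nat_lit 29) .nil))) .nil))) (.nd (nat_lit 6) 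
(.lf (nat_lit 16166) (.g (nat_lit 4210) (.e (nat_lit 1128) (nat_lit 83) (.e (nat_lit 16466) (nat_lit 13) (.e (nat_lit 483413) (nat_lit 27) (.e (nat_lit 401447) (nat_lit 10) (.e (nat_lit 434201) (nat_lit 18) .nil))))) .nil)) 
(.lf (nat_lit 16230) (.g (nat_lit 4493) (.e (nat_lit 1129) (nat_lit 83) (.e (nat_lit 16470) (nat_lit 14) (.e (nat_lit 491540) (nat_lit 3) (.e (nat_lit 98373) (nat_lit 29) (.e (nat_lit 450563) (nat_lit 0) (.e (nat_lit 4174) (nat_lit 251) .nil)))))) (.g (nat_lit 4) .nil .nil))))) (.nd (nat_lit 5) (.nd (nat_lit 6) 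
(.lf (nat_lit 16150) (.g (nat_lit 4931) (.e (nat_lit 1128) (nat_lit 83) (.e (nat_lit 16425) (nat_lit 7) (.e (nat_lit 409649) (nat_lit 18) (.e (nat_lit 303146) (nat_lit 14) (.e (nat_lit 491566) (nat_lit 12) (.e (nat_lit 385043) (nat_lit 21) (.e (nat_lit 7620) (nat_lit 410) .nil))))))) (.g (nat_lit 7) .nil .nil))) 
(.lf (nat_lit 16214) (.g (nat_lit 1824) (.e (nat_lit 1129) (nat_lit 83) (.e (nat_lit 16448) (nat_lit 10) (.e (nat_lit 434268) (nat_lit 36) (.e (nat_lit 639008) (nat_lit 13) .nil)))) .nil))) (.nd (nat_lit 6) 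
(.lf (nat_lit 16182) (.g (nat_lit 4297) (.e (nat_lit 1128) (nat_lit 83) (.e (nat_lit 16469) (nat_lit 14) (.e (nat_lit 491540) (nat_lit 3) (.e (nat_lit 98373) (nat_lit 29) (.e (nat_lit 450567) (nat_lit 0) (.e (nat_lit 4189) (nat_lit 251) .nil)))))) (.g (nat_lit 5) .nil .nil))) 
(.lf (nat_lit 16246) (.g (nat_lit 2337) (.e (nat_lit 1129) (nat_lit 83) (.e (nat_lit 16473) (nat_lit 14) (.e (nat_lit 491538) (nat_lit 3) (.e (nat_lit 98370) (nat_lit 28) .nil)))) .nil))))) (.nd (nat_lit 4) (.nd (nat_lit 5) (.nd (nat_lit 6) 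
(.lf (nat_lit 16142) (.g (nat_lit 735) (.e (nat_lit 1128) (nat_lit 83) (.e (nat_lit 16425) (nat_lit 7) (.e (nat_lit 409640) (nat_lit 17) .nil))) .nil)) 
(.lf (nat_lit 16206) (.g (nat_lit 1938) (.e (nat_lit 1129) (nat_lit 83) (.e (nat_lit 16448) (nat_lit 10) (.e (nat_lit 434268) (nat_lit 36) (.e (nat_lit 639007) (nat_lit 13) .nil)))) .nil))) (.nd (nat_lit 6) 
(.lf (nat_lit 16174) (.g (nat_lit 2754) (.e (nat_lit 1128) (nat_lit 83) (.e (nat_lit 16469) (nat_lit 14) (.e (nat_lit 491539) (nat_lit 3) (.e (nat_lit 98373) (nat_lit 29) (.e (nat_lit 450567) (nat_lit 0) .nil))))) .nil)) 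
(.lf (nat_lit 16238) (.g (nat_lit 3276) (.e (nat_lit 1129) (nat_lit 83) (.e (nat_lit 16473) (nat_lit 14) (.e (nat_lit 491526) (nat_lit 0) (.e (nat_lit 1788) (nat_lit 119) (.e (nat_lit 516151) (nat_lit 9) .nil))))) .nil)))) (.nd (nat_lit 5) (.nd (nat_lit 6) 
(.lf (nat_lit 16158) (.g (nat_lit 1652) (.e (nat_lit 1128) (nat_lit 83) (.e (nat_lit 16456) (nat_lit 12) (.e (nat_lit 475207) (nat_lit 41) (.e (nat_lit 712755) (nat_lit 30) (.e (nat_lit 450563) (nat_lit 0) (.e (nat_lit 4754) (nat_lit 281) .nil)))))) (.g (nat_lit 4) .nil .nil))) 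
(.lf (nat_lit 16222) (.g (nat_lit 4222) (.e (nat_lit 1129) (nat_lit 83) (.e (nat_lit 16470) (nat_lit 14) (.e (nat_lit 491537) (nat_lit 2) (.e (nat_lit 90170) (nat_lit 13) (.e (nat_lit 172106) (nat_lit 10) (.e (nat_lit 434202) (nat_lit 18) (.e (nat_lit 4168) (nat_lit 251) .nil))))))) (.g (nat_lit 4) .nil .nil)))) (.nd (nat_lit 6) 
(.lf (nat_lit 16190) (.g (nat_lit 4984) (.e (nat_lit 1128) (nat_lit 83) (.e (nat_lit 16470) (nat_lit 14) (.e (nat_lit 491537) (nat_lit 2) (.e (nat_lit 90170) (nat_lit 13) (.e (nat_lit 172113) (nat_lit 10) .nil))))) .nil)) 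
(.lf (nat_lit 16254) (.g (nat_lit 2558) (.e (nat_lit 1129) (nat_lit 83) (.e (nat_lit 16473) (nat_lit 14) (.e (nat_lit 491544) (nat_lit 7) (.e (nat_lit 319531) (nat_lit 16) .nil)))) .nil)))))))) (.nd (nat_lit 1) (.nd (nat_lit 2) (.nd (nat_lit 3) (.nd (nat_lit 4) (.nd (nat_lit 5) (.nd (nat_lit 6) 
(.lf (nat_lit 16129) (.g (nat_lit 1788) (.e (nat_lit 1128) (nat_lit 83) (.e (nat_lit 16392) (nat_lit 0) (.e (nat_lit 6989) (nat_lit 377) (.e (nat_lit 2779) (nat_lit 178) (.e (nat_lit 294656) (nat_lit 32) .nil))))) .nil)) 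
(.lf (nat_lit 16193) (.g (nat_lit 4139) (.e (nat_lit 1128) (nat_lit 83) (.e (nat_lit 16470) (nat_lit 14) (.e (nat_lit 491540) (nat_lit 3) (.e (nat_lit 98373) (nat_lit 29) (.e (nat_lit 450567) (nat_lit 0) .nil))))) .nil))) (.nd (nat_lit 6) 
(.lf (nat_lit 16161) (.g (nat_lit 2652) (.e (nat_lit 1128) (nat_lit 83) (.e (nat_lit 16456) (nat_lit 12) (.e (nat_lit 475211) (nat_lit 41) (.e (nat_lit 712755) (nat_lit 30) (.e (nat_lit 450562) (nat_lit 0) (.e (nat_lit 4756) (nat_lit 281) .nil)))))) (.g (nat_lit 4) .nil .nil))) 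
(.lf (nat_lit 16225) (.g (nat_lit 2084) (.e (nat_lit 1129) (nat_lit 83) (.e (nat_lit 16470) (nat_lit 14) (.e (nat_lit 491540) (nat_lit 3) .nil))) .nil)))) (.nd (nat_lit 5) (.nd (nat_lit 6) 
(.lf (nat_lit 16145) (.g (nat_lit 4238) (.e (nat_lit 1128) (nat_lit 83) (.e (nat_lit 16425) (nat_lit 7) (.e (nat_lit 409648) (nat_lit 18) (.e (nat_lit 303146) (nat_lit 14) (.e (nat_lit 491566) (nat_lit 12) (.e (nat_lit 385043) (nat_lit 21) (.e (nat_lit 7616) (nat_lit 410) .nil))))))) (.g (nat_lit 5) .nil .nil))) 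
(.lf (nat_lit 16209) (.g (nat_lit 2770) (.e (nat_lit 1129) (nat_lit 83) (.e (nat_lit 16448) (nat_lit 10) (.e (nat_lit 434268) (nat_lit 36) (.e (nat_lit 639007) (nat_lit 13) (.e (nat_lit 1586) (nat_lit 111) (.e (nat_lit 360450) (nat_lit 0) (.e (nat_lit 5439) (nat_lit 306) .nil))))))) (.g (nat_lit 5) .nil .nil)))) (.nd (nat_lit 6) 
(.lf (nat_lit 16177) (.g (nat_lit 1392) (.e (nat_lit 1128) (nat_lit 83) (.e (nat_lit 16469) (nat_lit 14) (.e (nat_lit 491540) (nat_lit 3) (.e (nat_lit 98373) (nat_lit 29) .nil)))) .nil)) 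
(.lf (nat_lit 16241) (.g (nat_lit 2595) (.e (nat_lit 1129) (nat_lit 83) (.e (nat_lit 16473) (nat_lit 14) (.e (nat_lit 491535) (nat_lit 2) (.e (nat_lit 90170) (nat_lit 13) .nil)))) .nil))))) (.nd (nat_lit 4) (.nd (nat_lit 5) (.nd (nat_lit 6) 
(.lf (nat_lit 16137) (.g (nat_lit 1410) (.e (nat_lit 1128) (nat_lit 83) (.e (nat_lit 16416) (nat_lit 3) (.e (nat_lit 204869) (nat_lit 29) .nil))) .nil)) 
(.lf (nat_lit 16201) (.g (nat_lit 1703) (.e (nat_lit 1129) (nat_lit 83) (.e (nat_lit 16448) (nat_lit 10) (.e (nat_lit 434268) (nat_lit 36) (.e (nat_lit 639005) (nat_lit 13) .nil)))) .nil))) (.nd (nat_lit 6) 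
(.lf (nat_lit 16169) (.g (nat_lit 4431) (.e (nat_lit 1128) (nat_lit 83) (.e (nat_lit 16466) (nat_lit 13) (.e (nat_lit 483413) (nat_lit 27) (.e (nat_lit 401448) (nat_lit 10) (.e (nat_lit 434201) (nat_lit 18) .nil))))) .nil)) 
(.lf (nat_lit 16233) (.g (nat_lit 4412) (.e (nat_lit 1129) (nat_lit 83) (.e (nat_lit 16470) (nat_lit 14) (.e (nat_lit 491540) (nat_lit 3) (.e (nat_lit 98373) (nat_lit 29) (.e (nat_lit 450563) (nat_lit 0) (.e (nat_lit 4178) (nat_lit 251) .nil)))))) (.g (nat_lit 4) .nil .nil))))) (.nd (nat_lit 5) (.nd (nat_lit 6) 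
(.lf (nat_lit 16153) (.g (nat_lit 1796) (.e (nat_lit 1128) (nat_lit 83) (.e (nat_lit 16448) (nat_lit 10) (.e (nat_lit 434268) (nat_lit 36) (.e (nat_lit 639005) (nat_lit 13) .nil)))) .nil)) 
(.lf (nat_lit 16217) (.g (nat_lit 1935) (.e (nat_lit 1129) (nat_lit 83) (.e (nat_lit 16448) (nat_lit 10) (.e (nat_lit 434268) (nat_lit 36) (.e (nat_lit 639020) (nat_lit 16) (.e (nat_lit 65619) (nat_lit 10) .nil))))) .nil))) (.nd (nat_lit 6) 
(.lf (nat_lit 16185) (.g (nat_lit 2124) (.e (nat_lit 1128) (nat_lit 83) (.e (nat_lit 16469) (nat_lit 14) (.e (nat_lit 491568) (nat_lit 13) (.e (nat_lit 393283) (nat_lit 24) .nil)))) .nil)) 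
(.lf (nat_lit 16249) (.g (nat_lit 3143) (.e (nat_lit 1129) (nat_lit 83) (.e (nat_lit 16473) (nat_lit 14) (.e (nat_lit 491538) (nat_lit 3) (.e (nat_lit 98373) (nat_lit 29) (.e (nat_lit 450563) (nat_lit 0) .nil))))) .nil)))))) (.nd (nat_lit 3) (.nd (nat_lit 4) (.nd (nat_lit 5) (.nd (nat_lit 6) 
(.lf (nat_lit 16133) (.g (nat_lit 606) (.e (nat_lit 1128) (nat_lit 83) (.e (nat_lit 16415) (nat_lit 3) (.e (nat_lit 204868) (nat_lit 29) .nil))) .nil)) 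
(.lf (nat_lit 16197) (.g (nat_lit 3685) (.e (nat_lit 1128) (nat_lit 83) (.e (nat_lit 16470) (nat_lit 14) (.e (nat_lit 491571) (nat_lit 13) (.e (nat_lit 393283) (nat_lit 24) (.e (nat_lit 434208) (nat_lit 18) (.e (nat_lit 4754) (nat_lit 281) .nil)))))) (.g (nat_lit 5) .nil .nil)))) (.nd (nat_lit 6) 
(.lf (nat_lit 16165) (.g (nat_lit 2930) (.e (nat_lit 1128) (nat_lit 83) (.e (nat_lit 16466) (nat_lit 13) (.e (nat_lit 483413) (nat_lit 27) (.e (nat_lit 401446) (nat_lit 10) .nil)))) .nil)) 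
(.lf (nat_lit 16229) (.g (nat_lit 4331) (.e (nat_lit 1129) (nat_lit 83) (.e (nat_lit 16470) (nat_lit 14) (.e (nat_lit 491540) (nat_lit 3) (.e (nat_lit 98373) (nat_lit 29) (.e (nat_lit 450563) (nat_lit 0) .nil))))) .nil)))) (.nd (nat_lit 5) (.nd (nat_lit 6) 
(.lf (nat_lit 16149) (.g (nat_lit 5011) (.e (nat_lit 1128) (nat_lit 83) (.e (nat_lit 16425) (nat_lit 7) (.e (nat_lit 409649) (nat_lit 18) (.e (nat_lit 303146) (nat_lit 14) (.e (nat_lit 491566) (nat_lit 12) (.e (nat_lit 385043) (nat_lit 21) (.e (nat_lit 7618) (nat_lit 410) .nil))))))) (.g (nat_lit 0) .nil .nil))) 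
(.lf (nat_lit 16213) (.g (nat_lit 2334) (.e (nat_lit 1129) (nat_lit 83) (.e (nat_lit 16448) (nat_lit 10) (.e (nat_lit 434268) (nat_lit 36) (.e (nat_lit 639007) (nat_lit 13) (.e (nat_lit 1598) (nat_lit 111) (.e (nat_lit 360449) (nat_lit 0) (.e (nat_lit 5455) (nat_lit 306) .nil))))))) (.g (nat_lit 4) .nil .nil)))) (.nd (nat_lit 6) 
(.lf (nat_lit 16181) (.g (nat_lit 2744) (.e (nat_lit 1128) (nat_lit 83) (.e (nat_lit 16469) (nat_lit 14) (.e (nat_lit 491540) (nat_lit 3) (.e (nat_lit 98373) (nat_lit 29) (.e (nat_lit 450567) (nat_lit 0) .nil))))) .nil)) 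
(.lf (nat_lit 16245) (.g (nat_lit 1328) (.e (nat_lit 1129) (nat_lit 83) (.e (nat_lit 16473) (nat_lit 14) (.e (nat_lit 491538) (nat_lit 3) .nil))) .nil))))) (.nd (nat_lit 4) (.nd (nat_lit 5) (.nd (nat_lit 6) 
(.lf (nat_lit 16141) (.g (nat_lit 501) (.e (nat_lit 1128) (nat_lit 83) (.e (nat_lit 16425) (nat_lit 7) (.e (nat_lit 409623) (nat_lit 10) .nil))) .nil)) 
(.lf (nat_lit 16205) (.g (nat_lit 1888) (.e (nat_lit 1129) (nat_lit 83) (.e (nat_lit 16448) (nat_lit 10) (.e (nat_lit 434268) (nat_lit 36) (.e (nat_lit 639005) (nat_lit 13) (.e (nat_lit 1598) (nat_lit 111) .nil))))) .nil))) (.nd (nat_lit 6) 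
(.lf (nat_lit 16173) (.g (nat_lit 1323) (.e (nat_lit 1128) (nat_lit 83) (.e (nat_lit 16469) (nat_lit 14) (.e (nat_lit 491539) (nat_lit 3) (.e (nat_lit 98373) (nat_lit 29) .nil)))) .nil)) 
(.lf (nat_lit 16237) (.g (nat_lit 2819) (.e (nat_lit 1129) (nat_lit 83) (.e (nat_lit 16473) (nat_lit 14) (.e (nat_lit 491526) (nat_lit 0) (.e (nat_lit 1788) (nat_lit 119) .nil)))) .nil)))) (.nd (nat_lit 5) (.nd (nat_lit 6) 
(.lf (nat_lit 16157) (.g (nat_lit 1543) (.e (nat_lit 1128) (nat_lit 83) (.e (nat_lit 16456) (nat_lit 12) (.e (nat_lit 475207) (nat_lit 41) (.e (nat_lit 712755) (nat_lit 30) (.e (nat_lit 450562) (nat_lit 0) .nil))))) .nil)) 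
(.lf (nat_lit 16221) (.g (nat_lit 3814) (.e (nat_lit 1129) (nat_lit 83) (.e (nat_lit 16470) (nat_lit 14) (.e (nat_lit 491537) (nat_lit 2) (.e (nat_lit 90170) (nat_lit 13) (.e (nat_lit 172106) (nat_lit 10) .nil))))) .nil))) (.nd (nat_lit 6) 
(.lf (nat_lit 16189) (.g (nat_lit 3595) (.e (nat_lit 1128) (nat_lit 83) (.e (nat_lit 16470) (nat_lit 14) (.e (nat_lit 491537) (nat_lit 2) (.e (nat_lit 90170) (nat_lit 13) (.e (nat_lit 172106) (nat_lit 10) (.e (nat_lit 434202) (nat_lit 18) (.e (nat_lit 4203) (nat_lit 251) .nil))))))) (.g (nat_lit 4) .nil .nil))) 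
(.lf (nat_lit 16253) (.g (nat_lit 2676) (.e (nat_lit 1129) (nat_lit 83) (.e (nat_lit 16473) (nat_lit 14) (.e (nat_lit 491544) (nat_lit 7) (.e (nat_lit 319530) (nat_lit 16) .nil)))) .nil))))))) (.nd (nat_lit 2) (.nd (nat_lit 3) (.nd (nat_lit 4) (.nd (nat_lit 5) (.nd (nat_lit 6) 
(.lf (nat_lit 16131) (.g (nat_lit 4316) (.e (nat_lit 1128) (nat_lit 83) (.e (nat_lit 16412) (nat_lit 2) (.e (nat_lit 196666) (nat_lit 13) (.e (nat_lit 65610) (nat_lit 10) (.e (nat_lit 344117) (nat_lit 21) (.e (nat_lit 516116) (nat_lit 1) (.e (nat_lit 171776) (nat_lit 278) .nil))))))) (.g (nat_lit 5) .nil .nil))) 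
(.lf (nat_lit 16195) (.g (nat_lit 934) (.e (nat_lit 1128) (nat_lit 83) (.e (nat_lit 16470) (nat_lit 14) (.e (nat_lit 491571) (nat_lit 13) .nil))) .nil))) (.nd (nat_lit 6) 
(.lf (nat_lit 16163) (.g (nat_lit 1491) (.e (nat_lit 1128) (nat_lit 83) (.e (nat_lit 16459) (nat_lit 12) (.e (nat_lit 475207) (nat_lit 41) (.e (nat_lit 712755) (nat_lit 30) (.e (nat_lit 450563) (nat_lit 0) (.e (nat_lit 4754) (nat_lit 281) .nil)))))) (.g (nat_lit 4) .nil .nil))) 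
(.lf (nat_lit 16227) (.g (nat_lit 4280) (.e (nat_lit 1129) (nat_lit 83) (.e (nat_lit 16470) (nat_lit 14) (.e (nat_lit 491540) (nat_lit 3) (.e (nat_lit 98373) (nat_lit 29) (.e (nat_lit 450562) (nat_lit 0) .nil))))) .nil)))) (.nd (nat_lit 5) (.nd (nat_lit 6) 
(.lf (nat_lit 16147) (.g (nat_lit 4102) (.e (nat_lit 1128) (nat_lit 83) (.e (nat_lit 16425) (nat_lit 7) (.e (nat_lit 409648) (nat_lit 18) (.e (nat_lit 303146) (nat_lit 14) (.e (nat_lit 491566) (nat_lit 12) (.e (nat_lit 385043) (nat_lit 21) (.e (nat_lit 7620) (nat_lit 410) .nil))))))) (.g (nat_lit 5) .nil .nil))) 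
(.lf (nat_lit 16211) (.g (nat_lit 3889) (.e (nat_lit 1129) (nat_lit 83) (.e (nat_lit 16448) (nat_lit 10) (.e (nat_lit 434268) (nat_lit 36) (.e (nat_lit 639007) (nat_lit 13) (.e (nat_lit 1586) (nat_lit 111) (.e (nat_lit 360450) (nat_lit 0) (.e (nat_lit 5456) (nat_lit 306) .nil))))))) (.g (nat_lit 6) .nil .nil)))) (.nd (nat_lit 6) 
(.lf (nat_lit 16179) (.g (nat_lit 2566) (.e (nat_lit 1128) (nat_lit 83) (.e (nat_lit 16469) (nat_lit 14) (.e (nat_lit 491540) (nat_lit 3) (.e (nat_lit 98373) (nat_lit 29) (.e (nat_lit 450562) (nat_lit 0) .nil))))) .nil)) 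
(.lf (nat_lit 16243) (.g (nat_lit 2693) (.e (nat_lit 1129) (nat_lit 83) (.e (nat_lit 16473) (nat_lit 14) (.e (nat_lit 491535) (nat_lit 2) (.e (nat_lit 90176) (nat_lit 15) .nil)))) .nil))))) (.nd (nat_lit 4) (.nd (nat_lit 5) (.nd (nat_lit 6) 
(.lf (nat_lit 16139) (.g (nat_lit 1411) (.e (nat_lit 1128) (nat_lit 83) (.e (nat_lit 16425) (nat_lit 7) (.e (nat_lit 409616) (nat_lit 10) (.e (nat_lit 7936) (nat_lit 43) .nil)))) .nil)) 
(.lf (nat_lit 16203) (.g (nat_lit 1992) (.e (nat_lit 1129) (nat_lit 83) (.e (nat_lit 16448) (nat_lit 10) (.e (nat_lit 434268) (nat_lit 36) (.e (nat_lit 639005) (nat_lit 13) (.e (nat_lit 1586) (nat_lit 111) (.e (nat_lit 360450) (nat_lit 0) (.e (nat_lit 5439) (nat_lit 306) .nil))))))) (.g (nat_lit 4) .nil .nil)))) (.nd (nat_lit 6) 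
(.lf (nat_lit 16171) (.g (nat_lit 825) (.e (nat_lit 1128) (nat_lit 83) (.e (nat_lit 16469) (nat_lit 14) (.e (nat_lit 491538) (nat_lit 3) .nil))) .nil)) 
(.lf (nat_lit 16235) (.g (nat_lit 2983) (.e (nat_lit 1129) (nat_lit 83) (.e (nat_lit 16470) (nat_lit 14) (.e (nat_lit 491571) (nat_lit 13) (.e (nat_lit 393283) (nat_lit 24) .nil)))) .nil)))) (.nd (nat_lit 5) (.nd (nat_lit 6) 
(.lf (nat_lit 16155) (.g (nat_lit 769) (.e (nat_lit 1128) (nat_lit 83) (.e (nat_lit 16455) (nat_lit 12) (.e (nat_lit 475210) (nat_lit 41) (.e (nat_lit 712753) (nat_lit 30) .nil)))) .nil)) 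
(.lf (nat_lit 16219) (.g (nat_lit 1206) (.e (nat_lit 1129) (nat_lit 83) (.e (nat_lit 16468) (nat_lit 13) (.e (nat_lit 483372) (nat_lit 21) (.e (nat_lit 319533) (nat_lit 16) .nil)))) .nil))) (.nd (nat_lit 6) 
(.lf (nat_lit 16187) (.g (nat_lit 1994) (.e (nat_lit 1128) (nat_lit 83) (.e (nat_lit 16470) (nat_lit 14) (.e (nat_lit 491537) (nat_lit 2) .nil))) .nil)) 
(.lf (nat_lit 16251) (.g (nat_lit 2670) (.e (nat_lit 1129) (nat_lit 83) (.e (nat_lit 16473) (nat_lit 14) (.e (nat_lit 491539) (nat_lit 3) (.e (nat_lit 98370) (nat_lit 28) .nil)))) .nil)))))) (.nd (nat_lit 3) (.nd (nat_lit 4) (.nd (nat_lit 5) (.nd (nat_lit 6) 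
(.lf (nat_lit 16135) (.g (nat_lit 1361) (.e (nat_lit 1128) (nat_lit 83) (.e (nat_lit 16416) (nat_lit 3) (.e (nat_lit 204868) (nat_lit 29) .nil))) .nil)) 
(.lf (nat_lit 16199) (.g (nat_lit 1665) (.e (nat_lit 1129) (nat_lit 83) (.e (nat_lit 16438) (nat_lit 9) (.e (nat_lit 426482) (nat_lit 27) (.e (nat_lit 336060) (nat_lit 7) (.e (nat_lit 319534) (nat_lit 16) .nil))))) .nil))) (.nd (nat_lit 6) 
(.lf (nat_lit 16167) (.g (nat_lit 2570) (.e (nat_lit 1128) (nat_lit 83) (.e (nat_lit 16466) (nat_lit 13) (.e (nat_lit 483413) (nat_lit 27) (.e (nat_lit 401448) (nat_lit 10) .nil)))) .nil)) 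
(.lf (nat_lit 16231) (.g (nat_lit 4374) (.e (nat_lit 1129) (nat_lit 83) (.e (nat_lit 16470) (nat_lit 14) (.e (nat_lit 491540) (nat_lit 3) (.e (nat_lit 98373) (nat_lit 29) (.e (nat_lit 450563) (nat_lit 0) (.e (nat_lit 4176) (nat_lit 251) .nil)))))) (.g (nat_lit 4) .nil .nil))))) (.nd (nat_lit 5) (.nd (nat_lit 6) 
(.lf (nat_lit 16151) (.g (nat_lit 2121) (.e (nat_lit 1128) (nat_lit 83) (.e (nat_lit 16448) (nat_lit 10) (.e (nat_lit 434231) (nat_lit 23) (.e (nat_lit 532569) (nat_lit 16) .nil)))) .nil)) 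
(.lf (nat_lit 16215) (.g (nat_lit 1359) (.e (nat_lit 1129) (nat_lit 83) (.e (nat_lit 16448) (nat_lit 10) (.e (nat_lit 434268) (nat_lit 36) (.e (nat_lit 639020) (nat_lit 16) .nil)))) .nil))) (.nd (nat_lit 6) 
(.lf (nat_lit 16183) (.g (nat_lit 3411) (.e (nat_lit 1128) (nat_lit 83) (.e (nat_lit 16469) (nat_lit 14) (.e (nat_lit 491540) (nat_lit 3) (.e (nat_lit 98373) (nat_lit 29) (.e (nat_lit 450567) (nat_lit 0) (.e (nat_lit 4211) (nat_lit 251) .nil)))))) (.g (nat_lit 4) .nil .nil))) 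
(.lf (nat_lit 16247) (.g (nat_lit 4634) (.e (nat_lit 1129) (nat_lit 83) (.e (nat_lit 16473) (nat_lit 14) (.e (nat_lit 491538) (nat_lit 3) (.e (nat_lit 98370) (nat_lit 28) (.e (nat_lit 442430) (nat_lit 24) (.e (nat_lit 229522) (nat_lit 128) .nil)))))) (.g (nat_lit 0) .nil .nil)))))) (.nd (nat_lit 4) (.nd (nat_lit 5) (.nd (nat_lit 6) 
(.lf (nat_lit 16143) (.g (nat_lit 883) (.e (nat_lit 1128) (nat_lit 83) (.e (nat_lit 16425) (nat_lit 7) (.e (nat_lit 409641) (nat_lit 17) .nil))) .nil)) 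
(.lf (nat_lit 16207) (.g (nat_lit 2246) (.e (nat_lit 1129) (nat_lit 83) (.e (nat_lit 16448) (nat_lit 10) (.e (nat_lit 434268) (nat_lit 36) (.e (nat_lit 639007) (nat_lit 13) (.e (nat_lit 1586) (nat_lit 111) .nil))))) .nil))) (.nd (nat_lit 6) 
(.lf (nat_lit 16175) (.g (nat_lit 762) (.e (nat_lit 1128) (nat_lit 83) (.e (nat_lit 16469) (nat_lit 14) (.e (nat_lit 491540) (nat_lit 3) .nil))) .nil)) 
(.lf (nat_lit 16239) (.g (nat_lit 3393) (.e (nat_lit 1129) (nat_lit 83) (.e (nat_lit 16473) (nat_lit 14) (.e (nat_lit 491526) (nat_lit 0) (.e (nat_lit 1788) (nat_lit 119) (.e (nat_lit 516151) (nat_lit 9) (.e (nat_lit 426286) (nat_lit 10) (.e (nat_lit 434203) (nat_lit 18) (.e (nat_lit 4176) (nat_lit 251) .nil)))))))) (.g (nat_lit 4) .nil .nil))))) (.nd (nat_lit 5) (.nd (nat_lit 6) 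
(.lf (nat_lit 16159) (.g (nat_lit 2166) (.e (nat_lit 1128) (nat_lit 83) (.e (nat_lit 16456) (nat_lit 12) (.e (nat_lit 475210) (nat_lit 41) (.e (nat_lit 712755) (nat_lit 30) (.e (nat_lit 450562) (nat_lit 0) .nil))))) .nil)) 
(.lf (nat_lit 16223) (.g (nat_lit 4082) (.e (nat_lit 1129) (nat_lit 83) (.e (nat_lit 16470) (nat_lit 14) (.e (nat_lit 491537) (nat_lit 2) (.e (nat_lit 90170) (nat_lit 13) (.e (nat_lit 172106) (nat_lit 10) (.e (nat_lit 434202) (nat_lit 18) (.e (nat_lit 4178) (nat_lit 251) .nil))))))) (.g (nat_lit 4) .nil .nil)))) (.nd (nat_lit 6) 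
(.lf (nat_lit 16191) (.g (nat_lit 1941) (.e (nat_lit 1128) (nat_lit 83) (.e (nat_lit 16470) (nat_lit 14) (.e (nat_lit 491540) (nat_lit 3) .nil))) .nil)) 
(.lf (nat_lit 16255) (.g (nat_lit 3223) (.e (nat_lit 1129) (nat_lit 83) (.e (nat_lit 16473) (nat_lit 14) (.e (nat_lit 491544) (nat_lit 7) (.e (nat_lit 319531) (nat_lit 16) (.e (nat_lit 286756) (nat_lit 10) .nil))))) .nil)))))))))

noncomputable def tv220 : DT := (.nd (nat_lit 0) (.nd (nat_lit 1) (.nd (nat_lit 2) (.nd (nat_lit 3) (.nd (nat_lit 4) (.nd (nat_lit 5) (.nd (nat_lit 6) 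
(.lf (nat_lit 16256) (.g (nat_lit 3568) (.e (nat_lit 1129) (nat_lit 83) (.e (nat_lit 16473) (nat_lit 14) (.e (nat_lit 491544) (nat_lit 7) (.e (nat_lit 319531) (nat_lit 16) (.e (nat_lit 286756) (nat_lit 10) (.e (nat_lit 344088) (nat_lit 18) (.e (nat_lit 5440) (nat_lit 306) .nil))))))) (.g (nat_lit 4) .nil .nil))) 
(.lf (nat_lit 16320) (.g (nat_lit 3016) (.e (nat_lit 1130) (nat_lit 83) (.e (nat_lit 16470) (nat_lit 14) (.e (nat_lit 491571) (nat_lit 13) (.e (nat_lit 393283) (nat_lit 24) .nil)))) .nil))) (.nd (nat_lit 6) 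
(.lf (nat_lit 16288) (.g (nat_lit 2511) (.e (nat_lit 1130) (nat_lit 83) (.e (nat_lit 16448) (nat_lit 10) (.e (nat_lit 434268) (nat_lit 36) (.e (nat_lit 639005) (nat_lit 13) (.e (nat_lit 1586) (nat_lit 111) (.e (nat_lit 360450) (nat_lit 0) (.e (nat_lit 5439) (nat_lit 306) .nil))))))) (.g (nat_lit 5) .nil .nil))) 
(.lf (nat_lit 16352) (.g (nat_lit 3512) (.e (nat_lit 1130) (nat_lit 83) (.e (nat_lit 16473) (nat_lit 14) (.e (nat_lit 491544) (nat_lit 7) (.e (nat_lit 319533) (nat_lit 16) (.e (nat_lit 286753) (nat_lit 10) .nil))))) .nil)))) (.nd (nat_lit 5) (.nd (nat_lit 6) 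
(.lf (nat_lit 16272) (.g (nat_lit 3027) (.e (nat_lit 1130) (nat_lit 83) (.e (nat_lit 16416) (nat_lit 3) (.e (nat_lit 204861) (nat_lit 26) (.e (nat_lit 335986) (nat_lit 1) (.e (nat_lit 57847) (nat_lit 252) .nil))))) .nil)) 
(.lf (nat_lit 16336) (.g (nat_lit 2044) (.e (nat_lit 1130) (nat_lit 83) (.e (nat_lit 16473) (nat_lit 14) (.e (nat_lit 491538) (nat_lit 3) (.e (nat_lit 98359) (nat_lit 26) .nil)))) .nil))) (.nd (nat_lit 6) 
(.lf (nat_lit 16304) (.g (nat_lit 2029) (.e (nat_lit 1130) (nat_lit 83) (.e (nat_lit 16448) (nat_lit 10) (.e (nat_lit 434268) (nat_lit 36) (.e (nat_lit 639020) (nat_lit 16) (.e (nat_lit 65619) (nat_lit 10) (.e (nat_lit 344090) (nat_lit 18) (.e (nat_lit 5440) (nat_lit 306) .nil))))))) (.g (nat_lit 4) .nil .nil))) 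
(.lf (nat_lit 16368) (.g (nat_lit 674) (.e (nat_lit 1131) (nat_lit 83) (.e (nat_lit 16412) (nat_lit 2) (.e (nat_lit 196681) (nat_lit 17) .nil))) .nil))))) (.nd (nat_lit 4) (.nd (nat_lit 5) (.nd (nat_lit 6) 
(.lf (nat_lit 16264) (.g (nat_lit 2547) (.e (nat_lit 1129) (nat_lit 83) (.e (nat_lit 16473) (nat_lit 14) (.e (nat_lit 491544) (nat_lit 7) (.e (nat_lit 319534) (nat_lit 16) .nil)))) .nil)) 
(.lf (nat_lit 16328) (.g (nat_lit 2401) (.e (nat_lit 1130) (nat_lit 83) (.e (nat_lit 16473) (nat_lit 14) (.e (nat_lit 491535) (nat_lit 2) (.e (nat_lit 90176) (nat_lit 15) .nil)))) .nil))) (.nd (nat_lit 6) 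
(.lf (nat_lit 16296) (.g (nat_lit 1416) (.e (nat_lit 1130) (nat_lit 83) (.e (nat_lit 16448) (nat_lit 10) (.e (nat_lit 434268) (nat_lit 36) (.e (nat_lit 639020) (nat_lit 16) .nil)))) .nil)) 
(.lf (nat_lit 16360) (.g (nat_lit 2872) (.e (nat_lit 1130) (nat_lit 83) (.e (nat_lit 16473) (nat_lit 14) (.e (nat_lit 491560) (nat_lit 10) (.e (nat_lit 344159) (nat_lit 37) .nil)))) .nil)))) (.nd (nat_lit 5) (.nd (nat_lit 6) 
(.lf (nat_lit 16280) (.g (nat_lit 1468) (.e (nat_lit 1130) (nat_lit 83) (.e (nat_lit 16416) (nat_lit 3) (.e (nat_lit 204869) (nat_lit 29) .nil))) .nil)) 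
(.lf (nat_lit 16344) (.g (nat_lit 1948) (.e (nat_lit 1130) (nat_lit 83) (.e (nat_lit 16473) (nat_lit 14) (.e (nat_lit 491539) (nat_lit 3) (.e (nat_lit 98373) (nat_lit 29) .nil)))) .nil))) (.nd (nat_lit 6) 
(.lf (nat_lit 16312) (.g (nat_lit 1888) (.e (nat_lit 1130) (nat_lit 83) (.e (nat_lit 16468) (nat_lit 13) (.e (nat_lit 483372) (nat_lit 21) (.e (nat_lit 319533) (nat_lit 16) (.e (nat_lit 286720) (nat_lit 0) .nil))))) .nil)) 
(.lf (nat_lit 16376) (.g (nat_lit 4258) (.e (nat_lit 1131) (nat_lit 83) (.e (nat_lit 16466) (nat_lit 13) (.e (nat_lit 483413) (nat_lit 27) (.e (nat_lit 401447) (nat_lit 10) (.e (nat_lit 434201) (nat_lit 18) .nil))))) .nil)))))) (.nd (nat_lit 3) (.nd (nat_lit 4) (.nd (nat_lit 5) (.nd (nat_lit 6) 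
(.lf (nat_lit 16260) (.g (nat_lit 2629) (.e (nat_lit 1129) (nat_lit 83) (.e (nat_lit 16473) (nat_lit 14) (.e (nat_lit 491544) (nat_lit 7) (.e (nat_lit 319533) (nat_lit 16) .nil)))) .nil)) 
(.lf (nat_lit 16324) (.g (nat_lit 2967) (.e (nat_lit 1130) (nat_lit 83) (.e (nat_lit 16473) (nat_lit 14) (.e (nat_lit 491526) (nat_lit 0) (.e (nat_lit 1788) (nat_lit 119) (.e (nat_lit 516165) (nat_lit 12) .nil))))) .nil))) (.nd (nat_lit 6) 
(.lf (nat_lit 16292) (.g (nat_lit 3797) (.e (nat_lit 1130) (nat_lit 83) (.e (nat_lit 16448) (nat_lit 10) (.e (nat_lit 434268) (nat_lit 36) (.e (nat_lit 639007) (nat_lit 13) (.e (nat_lit 1586) (nat_lit 111) (.e (nat_lit 360450) (nat_lit 0) (.e (nat_lit 5456) (nat_lit 306) .nil))))))) (.g (nat_lit 6) .nil .nil))) 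
(.lf (nat_lit 16356) (.g (nat_lit 3408) (.e (nat_lit 1130) (nat_lit 83) (.e (nat_lit 16473) (nat_lit 14) (.e (nat_lit 491544) (nat_lit 7) (.e (nat_lit 319534) (nat_lit 16) (.e (nat_lit 286756) (nat_lit 10) (.e (nat_lit 344090) (nat_lit 18) (.e (nat_lit 5442) (nat_lit 306) .nil))))))) (.g (nat_lit 4) .nil .nil))))) (.nd (nat_lit 5) (.nd (nat_lit 6) 
(.lf (nat_lit 16276) (.g (nat_lit 1551) (.e (nat_lit 1130) (nat_lit 83) (.e (nat_lit 16416) (nat_lit 3) (.e (nat_lit 204861) (nat_lit 26) (.e (nat_lit 336186) (nat_lit 11) .nil)))) .nil)) 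
(.lf (nat_lit 16340) (.g (nat_lit 2004) (.e (nat_lit 1130) (nat_lit 83) (.e (nat_lit 16473) (nat_lit 14) (.e (nat_lit 491538) (nat_lit 3) (.e (nat_lit 98373) (nat_lit 29) .nil)))) .nil))) (.nd (nat_lit 6) 
(.lf (nat_lit 16308) (.g (nat_lit 2686) (.e (nat_lit 1130) (nat_lit 83) (.e (nat_lit 16466) (nat_lit 13) (.e (nat_lit 483413) (nat_lit 27) (.e (nat_lit 401448) (nat_lit 10) .nil)))) .nil)) 
(.lf (nat_lit 16372) (.g (nat_lit 3307) (.e (nat_lit 1131) (nat_lit 83) (.e (nat_lit 16417) (nat_lit 3) (.e (nat_lit 204869) (nat_lit 29) (.e (nat_lit 360474) (nat_lit 8) (.e (nat_lit 557091) (nat_lit 12) (.e (nat_lit 163842) (nat_lit 0) (.e (nat_lit 6539) (nat_lit 351) .nil))))))) (.g (nat_lit 7) .nil .nil)))))) (.nd (nat_lit 4) (.nd (nat_lit 5) (.nd (nat_lit 6) 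
(.lf (nat_lit 16268) (.g (nat_lit 3141) (.e (nat_lit 1129) (nat_lit 83) (.e (nat_lit 16473) (nat_lit 14) (.e (nat_lit 491560) (nat_lit 10) (.e (nat_lit 344157) (nat_lit 36) .nil)))) .nil)) 
(.lf (nat_lit 16332) (.g (nat_lit 2450) (.e (nat_lit 1130) (nat_lit 83) (.e (nat_lit 16473) (nat_lit 14) (.e (nat_lit 491535) (nat_lit 2) (.e (nat_lit 90185) (nat_lit 17) .nil)))) .nil))) (.nd (nat_lit 6) 
(.lf (nat_lit 16300) (.g (nat_lit 3663) (.e (nat_lit 1130) (nat_lit 83) (.e (nat_lit 16448) (nat_lit 10) (.e (nat_lit 434268) (nat_lit 36) (.e (nat_lit 639020) (nat_lit 16) (.e (nat_lit 65617) (nat_lit 10) (.e (nat_lit 344091) (nat_lit 18) (.e (nat_lit 5442) (nat_lit 306) .nil))))))) (.g (nat_lit 6) .nil .nil))) 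
(.lf (nat_lit 16364) (.g (nat_lit 2738) (.e (nat_lit 1130) (nat_lit 83) (.e (nat_lit 16473) (nat_lit 14) (.e (nat_lit 491568) (nat_lit 13) (.e (nat_lit 393282) (nat_lit 24) .nil)))) .nil)))) (.nd (nat_lit 5) (.nd (nat_lit 6) 
(.lf (nat_lit 16284) (.g (nat_lit 1338) (.e (nat_lit 1130) (nat_lit 83) (.e (nat_lit 16438) (nat_lit 9) (.e (nat_lit 426482) (nat_lit 27) (.e (nat_lit 336060) (nat_lit 7) .nil)))) .nil)) 
(.lf (nat_lit 16348) (.g (nat_lit 2500) (.e (nat_lit 1130) (nat_lit 83) (.e (nat_lit 16473) (nat_lit 14) (.e (nat_lit 491544) (nat_lit 7) (.e (nat_lit 319531) (nat_lit 16) .nil)))) .nil))) (.nd (nat_lit 6) 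
(.lf (nat_lit 16316) (.g (nat_lit 5323) (.e (nat_lit 1130) (nat_lit 83) (.e (nat_lit 16470) (nat_lit 14) (.e (nat_lit 491537) (nat_lit 2) (.e (nat_lit 90170) (nat_lit 13) (.e (nat_lit 172113) (nat_lit 10) .nil))))) .nil)) 
(.lf (nat_lit 16380) (.g (nat_lit 3771) (.e (nat_lit 1131) (nat_lit 83) (.e (nat_lit 16470) (nat_lit 14) (.e (nat_lit 491537) (nat_lit 2) (.e (nat_lit 90170) (nat_lit 13) (.e (nat_lit 172106) (nat_lit 10) (.e (nat_lit 434202) (nat_lit 18) (.e (nat_lit 4180) (nat_lit 251) .nil))))))) (.g (nat_lit 4) .nil .nil)))))))) 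
(.nd (nat_lit 2) (.nd (nat_lit 3) (.nd (nat_lit 4) (.nd (nat_lit 5) (.nd (nat_lit 6) 
(.lf (nat_lit 16258) (.g (nat_lit 3583) (.e (nat_lit 1129) (nat_lit 83) (.e (nat_lit 16473) (nat_lit 14) (.e (nat_lit 491544) (nat_lit 7) (.e (nat_lit 319531) (nat_lit 16) (.e (nat_lit 286756) (nat_lit 10) (.e (nat_lit 344090) (nat_lit 18) (.e (nat_lit 5442) (nat_lit 306) .nil))))))) (.g (nat_lit 4) .nil .nil))) 
(.lf (nat_lit 16322) (.g (nat_lit 2485) (.e (nat_lit 1130) (nat_lit 83) (.e (nat_lit 16473) (nat_lit 14) (.e (nat_lit 491526) (nat_lit 0) (.e (nat_lit 1788) (nat_lit 119) .nil)))) .nil))) (.nd (nat_lit 6) 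
(.lf (nat_lit 16290) (.g (nat_lit 1957) (.e (nat_lit 1130) (nat_lit 83) (.e (nat_lit 16448) (nat_lit 10) (.e (nat_lit 434268) (nat_lit 36) (.e (nat_lit 639007) (nat_lit 13) .nil)))) .nil)) 
(.lf (nat_lit 16354) (.g (nat_lit 3395) (.e (nat_lit 1130) (nat_lit 83) (.e (nat_lit 16473) (nat_lit 14) (.e (nat_lit 491544) (nat_lit 7) (.e (nat_lit 319534) (nat_lit 16) (.e (nat_lit 286756) (nat_lit 10) (.e (nat_lit 344088) (nat_lit 18) (.e (nat_lit 5456) (nat_lit 306) .nil))))))) (.g (nat_lit 4) .nil .nil))))) (.nd (nat_lit 5) (.nd (nat_lit 6) 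
(.lf (nat_lit 16274) (.g (nat_lit 2549) (.e (nat_lit 1130) (nat_lit 83) (.e (nat_lit 16416) (nat_lit 3) (.e (nat_lit 204861) (nat_lit 26) (.e (nat_lit 335988) (nat_lit 1) (.e (nat_lit 57854) (nat_lit 252) .nil))))) .nil)) 
(.lf (nat_lit 16338) (.g (nat_lit 3114) (.e (nat_lit 1130) (nat_lit 83) (.e (nat_lit 16473) (nat_lit 14) (.e (nat_lit 491538) (nat_lit 3) (.e (nat_lit 98370) (nat_lit 28) (.e (nat_lit 442421) (nat_lit 21) .nil))))) .nil))) (.nd (nat_lit 6) 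
(.lf (nat_lit 16306) (.g (nat_lit 3045) (.e (nat_lit 1130) (nat_lit 83) (.e (nat_lit 16466) (nat_lit 13) (.e (nat_lit 483413) (nat_lit 27) (.e (nat_lit 401446) (nat_lit 10) .nil)))) .nil)) 
(.lf (nat_lit 16370) (.g (nat_lit 3544) (.e (nat_lit 1131) (nat_lit 83) (.e (nat_lit 16416) (nat_lit 3) (.e (nat_lit 204868) (nat_lit 29) (.e (nat_lit 360466) (nat_lit 3) (.e (nat_lit 516117) (nat_lit 1) .nil))))) .nil))))) (.nd (nat_lit 4) (.nd (nat_lit 5) (.nd (nat_lit 6) 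
(.lf (nat_lit 16266) (.g (nat_lit 3584) (.e (nat_lit 1129) (nat_lit 83) (.e (nat_lit 16473) (nat_lit 14) (.e (nat_lit 491544) (nat_lit 7) (.e (nat_lit 319534) (nat_lit 16) (.e (nat_lit 286756) (nat_lit 10) (.e (nat_lit 344088) (nat_lit 18) (.e (nat_lit 5456) (nat_lit 306) .nil))))))) (.g (nat_lit 4) .nil .nil))) 
(.lf (nat_lit 16330) (.g (nat_lit 3148) (.e (nat_lit 1130) (nat_lit 83) (.e (nat_lit 16473) (nat_lit 14) (.e (nat_lit 491535) (nat_lit 2) (.e (nat_lit 90176) (nat_lit 15) (.e (nat_lit 188444) (nat_lit 21) .nil))))) .nil))) (.nd (nat_lit 6) 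
(.lf (nat_lit 16298) (.g (nat_lit 3667) (.e (nat_lit 1130) (nat_lit 83) (.e (nat_lit 16448) (nat_lit 10) (.e (nat_lit 434268) (nat_lit 36) (.e (nat_lit 639020) (nat_lit 16) (.e (nat_lit 65617) (nat_lit 10) (.e (nat_lit 344091) (nat_lit 18) (.e (nat_lit 5429) (nat_lit 306) .nil))))))) (.g (nat_lit 6) .nil .nil))) 
(.lf (nat_lit 16362) (.g (nat_lit 2936) (.e (nat_lit 1130) (nat_lit 83) (.e (nat_lit 16473) (nat_lit 14) (.e (nat_lit 491560) (nat_lit 10) (.e (nat_lit 344174) (nat_lit 42) .nil)))) .nil)))) (.nd (nat_lit 5) (.nd (nat_lit 6) 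
(.lf (nat_lit 16282) (.g (nat_lit 1889) (.e (nat_lit 1130) (nat_lit 83) (.e (nat_lit 16425) (nat_lit 7) (.e (nat_lit 409617) (nat_lit 10) (.e (nat_lit 632) (nat_lit 50) .nil)))) .nil)) 
(.lf (nat_lit 16346) (.g (nat_lit 1149) (.e (nat_lit 1130) (nat_lit 83) (.e (nat_lit 16473) (nat_lit 14) (.e (nat_lit 491544) (nat_lit 7) .nil))) .nil))) (.nd (nat_lit 6) 
(.lf (nat_lit 16314) (.g (nat_lit 4121) (.e (nat_lit 1130) (nat_lit 83) (.e (nat_lit 16470) (nat_lit 14) (.e (nat_lit 491537) (nat_lit 2) (.e (nat_lit 90170) (nat_lit 13) (.e (nat_lit 172106) (nat_lit 10) (.e (nat_lit 434202) (nat_lit 18) (.e (nat_lit 4168) (nat_lit 251) .nil))))))) (.g (nat_lit 4) .nil .nil))) 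
(.lf (nat_lit 16378) (.g (nat_lit 1596) (.e (nat_lit 1131) (nat_lit 83) (.e (nat_lit 16469) (nat_lit 14) (.e (nat_lit 491540) (nat_lit 3) (.e (nat_lit 98373) (nat_lit 29) .nil)))) .nil)))))) (.nd (nat_lit 3) (.nd (nat_lit 4) (.nd (nat_lit 5) (.nd (nat_lit 6) 
(.lf (nat_lit 16262) (.g (nat_lit 3660) (.e (nat_lit 1129) (nat_lit 83) (.e (nat_lit 16473) (nat_lit 14) (.e (nat_lit 491544) (nat_lit 7) (.e (nat_lit 319533) (nat_lit 16) (.e (nat_lit 286753) (nat_lit 10) (.e (nat_lit 344088) (nat_lit 18) (.e (nat_lit 5440) (nat_lit 306) .nil))))))) (.g (nat_lit 4) .nil .nil))) 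
(.lf (nat_lit 16326) (.g (nat_lit 2304) (.e (nat_lit 1130) (nat_lit 83) (.e (nat_lit 16473) (nat_lit 14) (.e (nat_lit 491535) (nat_lit 2) (.e (nat_lit 90170) (nat_lit 13) .nil)))) .nil))) (.nd (nat_lit 6) 
(.lf (nat_lit 16294) (.g (nat_lit 2315) (.e (nat_lit 1130) (nat_lit 83) (.e (nat_lit 16448) (nat_lit 10) (.e (nat_lit 434268) (nat_lit 36) (.e (nat_lit 639007) (nat_lit 13) (.e (nat_lit 1598) (nat_lit 111) .nil))))) .nil)) 
(.lf (nat_lit 16358) (.g (nat_lit 932) (.e (nat_lit 1130) (nat_lit 83) (.e (nat_lit 16473) (nat_lit 14) (.e (nat_lit 491560) (nat_lit 10) .nil))) .nil)))) (.nd (nat_lit 5) (.nd (nat_lit 6) 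
(.lf (nat_lit 16278) (.g (nat_lit 3532) (.e (nat_lit 1130) (nat_lit 83) (.e (nat_lit 16416) (nat_lit 3) (.e (nat_lit 204868) (nat_lit 29) (.e (nat_lit 360466) (nat_lit 3) (.e (nat_lit 516117) (nat_lit 1) .nil))))) .nil)) 
(.lf (nat_lit 16342) (.g (nat_lit 2958) (.e (nat_lit 1130) (nat_lit 83) (.e (nat_lit 16473) (nat_lit 14) (.e (nat_lit 491538) (nat_lit 3) (.e (nat_lit 98373) (nat_lit 29) (.e (nat_lit 450562) (nat_lit 0) (.e (nat_lit 4178) (nat_lit 251) .nil)))))) (.g (nat_lit 4) .nil .nil)))) (.nd (nat_lit 6) 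
(.lf (nat_lit 16310) (.g (nat_lit 4546) (.e (nat_lit 1130) (nat_lit 83) (.e (nat_lit 16466) (nat_lit 13) (.e (nat_lit 483413) (nat_lit 27) (.e (nat_lit 401448) (nat_lit 10) (.e (nat_lit 434201) (nat_lit 18) .nil))))) .nil)) 
(.lf (nat_lit 16374) (.g (nat_lit 1668) (.e (nat_lit 1131) (nat_lit 83) (.e (nat_lit 16461) (nat_lit 12) (.e (nat_lit 475207) (nat_lit 41) (.e (nat_lit 712755) (nat_lit 30) (.e (nat_lit 450563) (nat_lit 0) (.e (nat_lit 4751) (nat_lit 281) .nil)))))) (.g (nat_lit 5) .nil .nil)))))) (.nd (nat_lit 4) (.nd (nat_lit 5) (.nd (nat_lit 6) 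
(.lf (nat_lit 16270) (.g (nat_lit 2940) (.e (nat_lit 1129) (nat_lit 83) (.e (nat_lit 16473) (nat_lit 14) (.e (nat_lit 491568) (nat_lit 13) (.e (nat_lit 393283) (nat_lit 24) .nil)))) .nil)) 
(.lf (nat_lit 16334) (.g (nat_lit 2104) (.e (nat_lit 1130) (nat_lit 83) (.e (nat_lit 16473) (nat_lit 14) (.e (nat_lit 491536) (nat_lit 2) (.e (nat_lit 90170) (nat_lit 13) .nil)))) .nil))) (.nd (nat_lit 6) 
(.lf (nat_lit 16302) (.g (nat_lit 1992) (.e (nat_lit 1130) (nat_lit 83) (.e (nat_lit 16448) (nat_lit 10) (.e (nat_lit 434268) (nat_lit 36) (.e (nat_lit 639020) (nat_lit 16) (.e (nat_lit 65619) (nat_lit 10) .nil))))) .nil)) 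
(.lf (nat_lit 16366) (.g (nat_lit 2631) (.e (nat_lit 1130) (nat_lit 83) (.e (nat_lit 16473) (nat_lit 14) (.e (nat_lit 491568) (nat_lit 13) (.e (nat_lit 393301) (nat_lit 27) .nil)))) .nil)))) (.nd (nat_lit 5) (.nd (nat_lit 6) 
(.lf (nat_lit 16286) (.g (nat_lit 1755) (.e (nat_lit 1130) (nat_lit 83) (.e (nat_lit 16448) (nat_lit 10) (.e (nat_lit 434268) (nat_lit 36) (.e (nat_lit 639005) (nat_lit 13) .nil)))) .nil)) 
(.lf (nat_lit 16350) (.g (nat_lit 3606) (.e (nat_lit 1130) (nat_lit 83) (.e (nat_lit 16473) (nat_lit 14) (.e (nat_lit 491544) (nat_lit 7) (.e (nat_lit 319531) (nat_lit 16) (.e (nat_lit 286759) (nat_lit 12) .nil))))) .nil))) (.nd (nat_lit 6) 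
(.lf (nat_lit 16318) (.g (nat_lit 4342) (.e (nat_lit 1130) (nat_lit 83) (.e (nat_lit 16470) (nat_lit 14) (.e (nat_lit 491540) (nat_lit 3) (.e (nat_lit 98373) (nat_lit 29) (.e (nat_lit 450562) (nat_lit 0) .nil))))) .nil)) 
(.lf (nat_lit 16382) (.g (nat_lit 4910) (.e (nat_lit 1131) (nat_lit 83) (.e (nat_lit 16470) (nat_lit 14) (.e (nat_lit 491537) (nat_lit 2) (.e (nat_lit 90170) (nat_lit 13) (.e (nat_lit 172113) (nat_lit 10) .nil))))) .nil)))))))) (.nd (nat_lit 1) (.nd (nat_lit 2) (.nd (nat_lit 3) (.nd (nat_lit 4) (.nd (nat_lit 5) (.nd (nat_lit 6) 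
(.lf (nat_lit 16257) (.g (nat_lit 3506) (.e (nat_lit 1129) (nat_lit 83) (.e (nat_lit 16473) (nat_lit 14) (.e (nat_lit 491544) (nat_lit 7) (.e (nat_lit 319531) (nat_lit 16) (.e (nat_lit 286756) (nat_lit 10) (.e (nat_lit 344090) (nat_lit 18) (.e (nat_lit 5439) (nat_lit 306) .nil))))))) (.g (nat_lit 4) .nil .nil))) 
(.lf (nat_lit 16321) (.g (nat_lit 1039) (.e (nat_lit 1130) (nat_lit 83) (.e (nat_lit 16473) (nat_lit 14) (.e (nat_lit 491526) (nat_lit 0) .nil))) .nil))) (.nd (nat_lit 6) 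
(.lf (nat_lit 16289) (.g (nat_lit 1940) (.e (nat_lit 1130) (nat_lit 83) (.e (nat_lit 16448) (nat_lit 10) (.e (nat_lit 434268) (nat_lit 36) (.e (nat_lit 639005) (nat_lit 13) (.e (nat_lit 1598) (nat_lit 111) .nil))))) .nil)) 
(.lf (nat_lit 16353) (.g (nat_lit 3388) (.e (nat_lit 1130) (nat_lit 83) (.e (nat_lit 16473) (nat_lit 14) (.e (nat_lit 491544) (nat_lit 7) (.e (nat_lit 319534) (nat_lit 16) (.e (nat_lit 286756) (nat_lit 10) .nil))))) .nil)))) (.nd (nat_lit 5) (.nd (nat_lit 6) 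
(.lf (nat_lit 16273) (.g (nat_lit 1616) (.e (nat_lit 1130) (nat_lit 83) (.e (nat_lit 16416) (nat_lit 3) (.e (nat_lit 204861) (nat_lit 26) (.e (nat_lit 335987) (nat_lit 1) .nil)))) .nil)) 
(.lf (nat_lit 16337) (.g (nat_lit 2077) (.e (nat_lit 1130) (nat_lit 83) (.e (nat_lit 16473) (nat_lit 14) (.e (nat_lit 491538) (nat_lit 3) (.e (nat_lit 98365) (nat_lit 26) .nil)))) .nil))) (.nd (nat_lit 6) 
(.lf (nat_lit 16305) (.g (nat_lit 2765) (.e (nat_lit 1130) (nat_lit 83) (.e (nat_lit 16448) (nat_lit 10) (.e (nat_lit 434268) (nat_lit 36) (.e (nat_lit 639023) (nat_lit 18) (.e (nat_lit 81959) (nat_lit 24) (.e (nat_lit 123217) (nat_lit 278) .nil)))))) (.g (nat_lit 5) .nil .nil))) 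
(.lf (nat_lit 16369) (.g (nat_lit 1520) (.e (nat_lit 1131) (nat_lit 83) (.e (nat_lit 16416) (nat_lit 3) (.e (nat_lit 204868) (nat_lit 29) .nil))) .nil))))) (.nd (nat_lit 4) (.nd (nat_lit 5) (.nd (nat_lit 6) 
(.lf (nat_lit 16265) (.g (nat_lit 3503) (.e (nat_lit 1129) (nat_lit 83) (.e (nat_lit 16473) (nat_lit 14) (.e (nat_lit 491544) (nat_lit 7) (.e (nat_lit 319534) (nat_lit 16) (.e (nat_lit 286756) (nat_lit 10) .nil))))) .nil)) 
(.lf (nat_lit 16329) (.g (nat_lit 2894) (.e (nat_lit 1130) (nat_lit 83) (.e (nat_lit 16473) (nat_lit 14) (.e (nat_lit 491535) (nat_lit 2) (.e (nat_lit 90176) (nat_lit 15) (.e (nat_lit 188439) (nat_lit 20) .nil))))) .nil))) (.nd (nat_lit 6) 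
(.lf (nat_lit 16297) (.g (nat_lit 1933) (.e (nat_lit 1130) (nat_lit 83) (.e (nat_lit 16448) (nat_lit 10) (.e (nat_lit 434268) (nat_lit 36) (.e (nat_lit 639020) (nat_lit 16) (.e (nat_lit 65610) (nat_lit 10) (.e (nat_lit 344090) (nat_lit 18) (.e (nat_lit 5429) (nat_lit 306) .nil))))))) (.g (nat_lit 4) .nil .nil))) 
(.lf (nat_lit 16361) (.g (nat_lit 2170) (.e (nat_lit 1130) (nat_lit 83) (.e (nat_lit 16473) (nat_lit 14) (.e (nat_lit 491560) (nat_lit 10) (.e (nat_lit 344173) (nat_lit 42) .nil)))) .nil)))) (.nd (nat_lit 5) (.nd (nat_lit 6) 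
(.lf (nat_lit 16281) (.g (nat_lit 3603) (.e (nat_lit 1130) (nat_lit 83) (.e (nat_lit 16416) (nat_lit 3) (.e (nat_lit 204869) (nat_lit 29) (.e (nat_lit 360474) (nat_lit 8) (.e (nat_lit 557091) (nat_lit 12) .nil))))) .nil)) 
(.lf (nat_lit 16345) (.g (nat_lit 3537) (.e (nat_lit 1130) (nat_lit 83) (.e (nat_lit 16473) (nat_lit 14) (.e (nat_lit 491539) (nat_lit 3) (.e (nat_lit 98373) (nat_lit 29) (.e (nat_lit 450560) (nat_lit 0) .nil))))) .nil))) (.nd (nat_lit 6) 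
(.lf (nat_lit 16313) (.g (nat_lit 3492) (.e (nat_lit 1130) (nat_lit 83) (.e (nat_lit 16470) (nat_lit 14) (.e (nat_lit 491537) (nat_lit 2) (.e (nat_lit 90170) (nat_lit 13) .nil)))) .nil)) 
(.lf (nat_lit 16377) (.g (nat_lit 4417) (.e (nat_lit 1131) (nat_lit 83) (.e (nat_lit 16466) (nat_lit 13) (.e (nat_lit 483413) (nat_lit 27) (.e (nat_lit 401448) (nat_lit 10) (.e (nat_lit 434201) (nat_lit 18) .nil))))) .nil)))))) (.nd (nat_lit 3) (.nd (nat_lit 4) (.nd (nat_lit 5) (.nd (nat_lit 6) 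
(.lf (nat_lit 16261) (.g (nat_lit 3644) (.e (nat_lit 1129) (nat_lit 83) (.e (nat_lit 16473) (nat_lit 14) (.e (nat_lit 491544) (nat_lit 7) (.e (nat_lit 319533) (nat_lit 16) (.e (nat_lit 286753) (nat_lit 10) .nil))))) .nil)) 
(.lf (nat_lit 16325) (.g (nat_lit 1077) (.e (nat_lit 1130) (nat_lit 83) (.e (nat_lit 16473) (nat_lit 14) (.e (nat_lit 491530) (nat_lit 0) .nil))) .nil))) (.nd (nat_lit 6) 
(.lf (nat_lit 16293) (.g (nat_lit 2303) (.e (nat_lit 1130) (nat_lit 83) (.e (nat_lit 16448) (nat_lit 10) (.e (nat_lit 434268) (nat_lit 36) (.e (nat_lit 639007) (nat_lit 13) (.e (nat_lit 1595) (nat_lit 111) .nil))))) .nil)) 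
(.lf (nat_lit 16357) (.g (nat_lit 2333) (.e (nat_lit 1130) (nat_lit 83) (.e (nat_lit 16473) (nat_lit 14) (.e (nat_lit 491558) (nat_lit 10) (.e (nat_lit 344174) (nat_lit 42) .nil)))) .nil)))) (.nd (nat_lit 5) (.nd (nat_lit 6) 
(.lf (nat_lit 16277) (.g (nat_lit 1496) (.e (nat_lit 1130) (nat_lit 83) (.e (nat_lit 16416) (nat_lit 3) (.e (nat_lit 204868) (nat_lit 29) .nil))) .nil)) 
(.lf (nat_lit 16341) (.g (nat_lit 2905) (.e (nat_lit 1130) (nat_lit 83) (.e (nat_lit 16473) (nat_lit 14) (.e (nat_lit 491538) (nat_lit 3) (.e (nat_lit 98373) (nat_lit 29) (.e (nat_lit 450562) (nat_lit 0) .nil))))) .nil))) (.nd (nat_lit 6) 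
(.lf (nat_lit 16309) (.g (nat_lit 4722) (.e (nat_lit 1130) (nat_lit 83) (.e (nat_lit 16466) (nat_lit 13) (.e (nat_lit 483413) (nat_lit 27) (.e (nat_lit 401448) (nat_lit 10) (.e (nat_lit 434200) (nat_lit 18) .nil))))) .nil)) 
(.lf (nat_lit 16373) (.g (nat_lit 752) (.e (nat_lit 1131) (nat_lit 83) (.e (nat_lit 16459) (nat_lit 12) (.e (nat_lit 475185) (nat_lit 29) .nil))) .nil))))) (.nd (nat_lit 4) (.nd (nat_lit 5) (.nd (nat_lit 6) 
(.lf (nat_lit 16269) (.g (nat_lit 1181) (.e (nat_lit 1129) (nat_lit 83) (.e (nat_lit 16473) (nat_lit 14) (.e (nat_lit 491568) (nat_lit 13) .nil))) .nil)) 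
(.lf (nat_lit 16333) (.g (nat_lit 1076) (.e (nat_lit 1130) (nat_lit 83) (.e (nat_lit 16473) (nat_lit 14) (.e (nat_lit 491536) (nat_lit 2) .nil))) .nil))) (.nd (nat_lit 6) 
(.lf (nat_lit 16301) (.g (nat_lit 3631) (.e (nat_lit 1130) (nat_lit 83) (.e (nat_lit 16448) (nat_lit 10) (.e (nat_lit 434268) (nat_lit 36) (.e (nat_lit 639020) (nat_lit 16) (.e (nat_lit 65617) (nat_lit 10) (.e (nat_lit 344091) (nat_lit 18) (.e (nat_lit 5455) (nat_lit 306) .nil))))))) (.g (nat_lit 6) .nil .nil))) 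
(.lf (nat_lit 16365) (.g (nat_lit 2647) (.e (nat_lit 1130) (nat_lit 83) (.e (nat_lit 16473) (nat_lit 14) (.e (nat_lit 491568) (nat_lit 13) (.e (nat_lit 393283) (nat_lit 24) .nil)))) .nil)))) (.nd (nat_lit 5) (.nd (nat_lit 6) 
(.lf (nat_lit 16285) (.g (nat_lit 745) (.e (nat_lit 1130) (nat_lit 83) (.e (nat_lit 16448) (nat_lit 10) (.e (nat_lit 434268) (nat_lit 36) .nil))) .nil)) 
(.lf (nat_lit 16349) (.g (nat_lit 3050) (.e (nat_lit 1130) (nat_lit 83) (.e (nat_lit 16473) (nat_lit 14) (.e (nat_lit 491544) (nat_lit 7) (.e (nat_lit 319531) (nat_lit 16) (.e (nat_lit 286756) (nat_lit 10) (.e (nat_lit 344088) (nat_lit 18) (.e (nat_lit 5439) (nat_lit 306) .nil))))))) (.g (nat_lit 4) .nil .nil)))) (.nd (nat_lit 6) 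
(.lf (nat_lit 16317) (.g (nat_lit 3412) (.e (nat_lit 1130) (nat_lit 83) (.e (nat_lit 16470) (nat_lit 14) (.e (nat_lit 491540) (nat_lit 3) (.e (nat_lit 98373) (nat_lit 29) .nil)))) .nil)) 
(.lf (nat_lit 16381) (.g (nat_lit 3849) (.e (nat_lit 1131) (nat_lit 83) (.e (nat_lit 16470) (nat_lit 14) (.e (nat_lit 491537) (nat_lit 2) (.e (nat_lit 90170) (nat_lit 13) (.e (nat_lit 172106) (nat_lit 10) (.e (nat_lit 434209) (nat_lit 18) (.e (nat_lit 4182) (nat_lit 251) .nil))))))) (.g (nat_lit 4) .nil .nil)))))))) 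
(.nd (nat_lit 2) (.nd (nat_lit 3) (.nd (nat_lit 4) (.nd (nat_lit 5) (.nd (nat_lit 6) 
(.lf (nat_lit 16259) (.g (nat_lit 3441) (.e (nat_lit 1129) (nat_lit 83) (.e (nat_lit 16473) (nat_lit 14) (.e (nat_lit 491544) (nat_lit 7) (.e (nat_lit 319531) (nat_lit 16) (.e (nat_lit 286756) (nat_lit 10) (.e (nat_lit 344090) (nat_lit 18) (.e (nat_lit 5455) (nat_lit 306) .nil))))))) (.g (nat_lit 4) .nil .nil))) 
(.lf (nat_lit 16323) (.g (nat_lit 3036) (.e (nat_lit 1130) (nat_lit 83) (.e (nat_lit 16473) (nat_lit 14) (.e (nat_lit 491526) (nat_lit 0) (.e (nat_lit 1788) (nat_lit 119) (.e (nat_lit 516163) (nat_lit 11) .nil))))) .nil))) (.nd (nat_lit 6) 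
(.lf (nat_lit 16291) (.g (nat_lit 2287) (.e (nat_lit 1130) (nat_lit 83) (.e (nat_lit 16448) (nat_lit 10) (.e (nat_lit 434268) (nat_lit 36) (.e (nat_lit 639007) (nat_lit 13) (.e (nat_lit 1586) (nat_lit 111) .nil))))) .nil)) 
(.lf (nat_lit 16355) (.g (nat_lit 3457) (.e (nat_lit 1130) (nat_lit 83) (.e (nat_lit 16473) (nat_lit 14) (.e (nat_lit 491544) (nat_lit 7) (.e (nat_lit 319534) (nat_lit 16) (.e (nat_lit 286756) (nat_lit 10) (.e (nat_lit 344090) (nat_lit 18) (.e (nat_lit 5439) (nat_lit 306) .nil))))))) (.g (nat_lit 4) .nil .nil))))) (.nd (nat_lit 5) (.nd (nat_lit 6) 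
(.lf (nat_lit 16275) (.g (nat_lit 2689) (.e (nat_lit 1130) (nat_lit 83) (.e (nat_lit 16416) (nat_lit 3) (.e (nat_lit 204861) (nat_lit 26) (.e (nat_lit 335988) (nat_lit 1) (.e (nat_lit 57854) (nat_lit 252) (.e (nat_lit 57378) (nat_lit 3) (.e (nat_lit 98334) (nat_lit 18) (.e (nat_lit 164385) (nat_lit 254) .nil)))))))) (.g (nat_lit 4) .nil .nil))) 
(.lf (nat_lit 16339) (.g (nat_lit 4268) (.e (nat_lit 1130) (nat_lit 83) (.e (nat_lit 16473) (nat_lit 14) (.e (nat_lit 491538) (nat_lit 3) (.e (nat_lit 98370) (nat_lit 28) (.e (nat_lit 442430) (nat_lit 24) (.e (nat_lit 229522) (nat_lit 128) .nil)))))) (.g (nat_lit 0) .nil .nil)))) (.nd (nat_lit 6) 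
(.lf (nat_lit 16307) (.g (nat_lit 2498) (.e (nat_lit 1130) (nat_lit 83) (.e (nat_lit 16466) (nat_lit 13) (.e (nat_lit 483413) (nat_lit 27) (.e (nat_lit 401447) (nat_lit 10) .nil)))) .nil)) 
(.lf (nat_lit 16371) (.g (nat_lit 3608) (.e (nat_lit 1131) (nat_lit 83) (.e (nat_lit 16416) (nat_lit 3) (.e (nat_lit 204868) (nat_lit 29) (.e (nat_lit 360466) (nat_lit 3) (.e (nat_lit 516120) (nat_lit 1) .nil))))) .nil))))) (.nd (nat_lit 4) (.nd (nat_lit 5) (.nd (nat_lit 6) 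
(.lf (nat_lit 16267) (.g (nat_lit 1169) (.e (nat_lit 1129) (nat_lit 83) (.e (nat_lit 16473) (nat_lit 14) (.e (nat_lit 491560) (nat_lit 10) .nil))) .nil)) 
(.lf (nat_lit 16331) (.g (nat_lit 2498) (.e (nat_lit 1130) (nat_lit 83) (.e (nat_lit 16473) (nat_lit 14) (.e (nat_lit 491535) (nat_lit 2) (.e (nat_lit 90178) (nat_lit 15) .nil)))) .nil))) (.nd (nat_lit 6) 
(.lf (nat_lit 16299) (.g (nat_lit 3641) (.e (nat_lit 1130) (nat_lit 83) (.e (nat_lit 16448) (nat_lit 10) (.e (nat_lit 434268) (nat_lit 36) (.e (nat_lit 639020) (nat_lit 16) (.e (nat_lit 65617) (nat_lit 10) (.e (nat_lit 344091) (nat_lit 18) (.e (nat_lit 5440) (nat_lit 306) .nil))))))) (.g (nat_lit 6) .nil .nil))) 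
(.lf (nat_lit 16363) (.g (nat_lit 1133) (.e (nat_lit 1130) (nat_lit 83) (.e (nat_lit 16473) (nat_lit 14) (.e (nat_lit 491568) (nat_lit 13) .nil))) .nil)))) (.nd (nat_lit 5) (.nd (nat_lit 6) 
(.lf (nat_lit 16283) (.g (nat_lit 2432) (.e (nat_lit 1130) (nat_lit 83) (.e (nat_lit 16425) (nat_lit 7) (.e (nat_lit 409617) (nat_lit 10) (.e (nat_lit 632) (nat_lit 50) (.e (nat_lit 573485) (nat_lit 13) .nil))))) .nil)) 
(.lf (nat_lit 16347) (.g (nat_lit 2561) (.e (nat_lit 1130) (nat_lit 83) (.e (nat_lit 16473) (nat_lit 14) (.e (nat_lit 491544) (nat_lit 7) (.e (nat_lit 319530) (nat_lit 16) .nil)))) .nil))) (.nd (nat_lit 6) 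
(.lf (nat_lit 16315) (.g (nat_lit 3984) (.e (nat_lit 1130) (nat_lit 83) (.e (nat_lit 16470) (nat_lit 14) (.e (nat_lit 491537) (nat_lit 2) (.e (nat_lit 90170) (nat_lit 13) (.e (nat_lit 172106) (nat_lit 10) (.e (nat_lit 434202) (nat_lit 18) (.e (nat_lit 4178) (nat_lit 251) .nil))))))) (.g (nat_lit 4) .nil .nil))) 
(.lf (nat_lit 16379) (.g (nat_lit 3079) (.e (nat_lit 1131) (nat_lit 83) (.e (nat_lit 16470) (nat_lit 14) (.e (nat_lit 491537) (nat_lit 2) (.e (nat_lit 90170) (nat_lit 13) .nil)))) .nil)))))) (.nd (nat_lit 3) (.nd (nat_lit 4) (.nd (nat_lit 5) (.nd (nat_lit 6) 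
(.lf (nat_lit 16263) (.g (nat_lit 3984) (.e (nat_lit 1129) (nat_lit 83) (.e (nat_lit 16473) (nat_lit 14) (.e (nat_lit 491544) (nat_lit 7) (.e (nat_lit 319533) (nat_lit 16) (.e (nat_lit 286753) (nat_lit 10) (.e (nat_lit 344088) (nat_lit 18) (.e (nat_lit 5456) (nat_lit 306) .nil))))))) (.g (nat_lit 4) .nil .nil))) 
(.lf (nat_lit 16327) (.g (nat_lit 2876) (.e (nat_lit 1130) (nat_lit 83) (.e (nat_lit 16473) (nat_lit 14) (.e (nat_lit 491535) (nat_lit 2) (.e (nat_lit 90170) (nat_lit 13) (.e (nat_lit 172113) (nat_lit 10) .nil))))) .nil))) (.nd (nat_lit 6) 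
(.lf (nat_lit 16295) (.g (nat_lit 1875) (.e (nat_lit 1130) (nat_lit 83) (.e (nat_lit 16448) (nat_lit 10) (.e (nat_lit 434268) (nat_lit 36) (.e (nat_lit 639008) (nat_lit 13) .nil)))) .nil)) 
(.lf (nat_lit 16359) (.g (nat_lit 2847) (.e (nat_lit 1130) (nat_lit 83) (.e (nat_lit 16473) (nat_lit 14) (.e (nat_lit 491560) (nat_lit 10) (.e (nat_lit 344157) (nat_lit 36) .nil)))) .nil)))) (.nd (nat_lit 5) (.nd (nat_lit 6) 
(.lf (nat_lit 16279) (.g (nat_lit 3597) (.e (nat_lit 1130) (nat_lit 83) (.e (nat_lit 16416) (nat_lit 3) (.e (nat_lit 204868) (nat_lit 29) (.e (nat_lit 360466) (nat_lit 3) (.e (nat_lit 516120) (nat_lit 1) .nil))))) .nil)) 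
(.lf (nat_lit 16343) (.g (nat_lit 2083) (.e (nat_lit 1130) (nat_lit 83) (.e (nat_lit 16473) (nat_lit 14) (.e (nat_lit 491538) (nat_lit 3) (.e (nat_lit 98381) (nat_lit 31) .nil)))) .nil))) (.nd (nat_lit 6) 
(.lf (nat_lit 16311) (.g (nat_lit 1214) (.e (nat_lit 1130) (nat_lit 83) (.e (nat_lit 16468) (nat_lit 13) (.e (nat_lit 483372) (nat_lit 21) (.e (nat_lit 319533) (nat_lit 16) .nil)))) .nil)) 
(.lf (nat_lit 16375) (.g (nat_lit 2978) (.e (nat_lit 1131) (nat_lit 83) (.e (nat_lit 16466) (nat_lit 13) (.e (nat_lit 483413) (nat_lit 27) (.e (nat_lit 401446) (nat_lit 10) .nil)))) .nil))))) (.nd (nat_lit 4) (.nd (nat_lit 5) (.nd (nat_lit 6) 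
(.lf (nat_lit 16271) (.g (nat_lit 3513) (.e (nat_lit 1129) (nat_lit 83) (.e (nat_lit 16473) (nat_lit 14) (.e (nat_lit 491568) (nat_lit 13) (.e (nat_lit 393283) (nat_lit 24) (.e (nat_lit 434208) (nat_lit 18) .nil))))) .nil)) 
(.lf (nat_lit 16335) (.g (nat_lit 1151) (.e (nat_lit 1130) (nat_lit 83) (.e (nat_lit 16473) (nat_lit 14) (.e (nat_lit 491538) (nat_lit 3) .nil))) .nil))) (.nd (nat_lit 6) 
(.lf (nat_lit 16303) (.g (nat_lit 2010) (.e (nat_lit 1130) (nat_lit 83) (.e (nat_lit 16448) (nat_lit 10) (.e (nat_lit 434268) (nat_lit 36) (.e (nat_lit 639020) (nat_lit 16) (.e (nat_lit 65619) (nat_lit 10) (.e (nat_lit 344090) (nat_lit 18) (.e (nat_lit 5439) (nat_lit 306) .nil))))))) (.g (nat_lit 4) .nil .nil))) 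
(.lf (nat_lit 16367) (.g (nat_lit 2677) (.e (nat_lit 1131) (nat_lit 83) (.e (nat_lit 16412) (nat_lit 2) (.e (nat_lit 196672) (nat_lit 15) (.e (nat_lit 81954) (nat_lit 23) (.e (nat_lit 98334) (nat_lit 18) (.e (nat_lit 171776) (nat_lit 278) .nil)))))) (.g (nat_lit 5) .nil .nil))))) (.nd (nat_lit 5) (.nd (nat_lit 6) 
(.lf (nat_lit 16287) (.g (nat_lit 1940) (.e (nat_lit 1130) (nat_lit 83) (.e (nat_lit 16448) (nat_lit 10) (.e (nat_lit 434268) (nat_lit 36) (.e (nat_lit 639005) (nat_lit 13) (.e (nat_lit 1586) (nat_lit 111) .nil))))) .nil)) 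
(.lf (nat_lit 16351) (.g (nat_lit 2497) (.e (nat_lit 1130) (nat_lit 83) (.e (nat_lit 16473) (nat_lit 14) (.e (nat_lit 491544) (nat_lit 7) (.e (nat_lit 319533) (nat_lit 16) .nil)))) .nil))) (.nd (nat_lit 6) 
(.lf (nat_lit 16319) (.g (nat_lit 4393) (.e (nat_lit 1130) (nat_lit 83) (.e (nat_lit 16470) (nat_lit 14) (.e (nat_lit 491540) (nat_lit 3) (.e (nat_lit 98373) (nat_lit 29) (.e (nat_lit 450563) (nat_lit 0) .nil))))) .nil)) 
(.lf (nat_lit 16383) (.g (nat_lit 1862) (.e (nat_lit 1131) (nat_lit 83) (.e (nat_lit 16470) (nat_lit 14) (.e (nat_lit 491540) (nat_lit 3) .nil))) .nil)))))))))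

noncomputable def tv221 : DT := (.nd (nat_lit 0) (.nd (nat_lit 1) (.nd (nat_lit 2) (.nd (nat_lit 3) (.nd (nat_lit 4) (.nd (nat_lit 5) 
(.lf (nat_lit 16384) (.g (nat_lit 2982) (.e (nat_lit 1131) (nat_lit 83) (.e (nat_lit 16470) (nat_lit 14) (.e (nat_lit 491540) (nat_lit 3) (.e (nat_lit 98373) (nat_lit 29) .nil)))) .nil)) 
(.lf (nat_lit 16416) (.g (nat_lit 1164) (.e (nat_lit 7936) (nat_lit 83) (.e (nat_lit 16415) (nat_lit 3) (.e (nat_lit 204870) (nat_lit 29) (.e (nat_lit 368384) (nat_lit 5) .nil)))) .nil))) (.nd (nat_lit 5) 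
(.lf (nat_lit 16400) (.g (nat_lit 2434) (.e (nat_lit 1131) (nat_lit 83) (.e (nat_lit 16473) (nat_lit 14) (.e (nat_lit 491539) (nat_lit 3) (.e (nat_lit 98373) (nat_lit 29) .nil)))) .nil)) 
(.lf (nat_lit 16432) (.g (nat_lit 1038) (.e (nat_lit 1139) (nat_lit 84) (.e (nat_lit 32787) (nat_lit 9) (.e (nat_lit 65586) (nat_lit 7) (.e (nat_lit 319498) (nat_lit 10) (.e (nat_lit 549) (nat_lit 41) .nil))))) .nil)))) (.nd (nat_lit 4) (.nd (nat_lit 5) 
(.lf (nat_lit 16392) (.g (nat_lit 2732) (.e (nat_lit 1131) (nat_lit 83) (.e (nat_lit 16473) (nat_lit 14) (.e (nat_lit 491535) (nat_lit 2) (.e (nat_lit 90170) (nat_lit 13) .nil)))) .nil)) 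
(.lf (nat_lit 16424) (.g (nat_lit 2440) (.e (nat_lit 1139) (nat_lit 84) (.e (nat_lit 32787) (nat_lit 9) (.e (nat_lit 65569) (nat_lit 3) (.e (nat_lit 98342) (nat_lit 20) (.e (nat_lit 221212) (nat_lit 22) (.e (nat_lit 196659) (nat_lit 12) (.e (nat_lit 57507) (nat_lit 39) (.e (nat_lit 647203) (nat_lit 14) .nil)))))))) (.g (nat_lit 5) .nil .nil)))) (.nd (nat_lit 5) 
(.lf (nat_lit 16408) (.g (nat_lit 2754) (.e (nat_lit 1132) (nat_lit 83) (.e (nat_lit 16473) (nat_lit 14) (.e (nat_lit 491535) (nat_lit 2) (.e (nat_lit 90170) (nat_lit 13) (.e (nat_lit 172106) (nat_lit 10) .nil))))) .nil)) 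
(.lf (nat_lit 16440) (.g (nat_lit 2367) (.e (nat_lit 1139) (nat_lit 84) (.e (nat_lit 32787) (nat_lit 9) (.e (nat_lit 65598) (nat_lit 9) (.e (nat_lit 336028) (nat_lit 3) (.e (nat_lit 98325) (nat_lit 17) (.e (nat_lit 6986) (nat_lit 377) (.e (nat_lit 2403) (nat_lit 157) (.e (nat_lit 4921) (nat_lit 287) .nil)))))))) (.g (nat_lit 5) .nil .nil)))))) (.nd (nat_lit 3) (.nd (nat_lit 4) (.nd (nat_lit 5) 
(.lf (nat_lit 16388) (.g (nat_lit 3400) (.e (nat_lit 1131) (nat_lit 83) (.e (nat_lit 16473) (nat_lit 14) (.e (nat_lit 491526) (nat_lit 0) (.e (nat_lit 1788) (nat_lit 119) (.e (nat_lit 516151) (nat_lit 9) .nil))))) .nil)) 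
(.lf (nat_lit 16420) (.g (nat_lit 1592) (.e (nat_lit 7936) (nat_lit 83) (.e (nat_lit 16416) (nat_lit 3) (.e (nat_lit 204870) (nat_lit 29) (.e (nat_lit 368384) (nat_lit 5) .nil)))) .nil))) (.nd (nat_lit 5) 
(.lf (nat_lit 16404) (.g (nat_lit 1271) (.e (nat_lit 1132) (nat_lit 83) (.e (nat_lit 16473) (nat_lit 14) (.e (nat_lit 491526) (nat_lit 0) .nil))) .nil)) 
(.lf (nat_lit 16436) (.g (nat_lit 1717) (.e (nat_lit 1139) (nat_lit 84) (.e (nat_lit 32787) (nat_lit 9) (.e (nat_lit 65586) (nat_lit 7) (.e (nat_lit 319519) (nat_lit 12) (.e (nat_lit 32788) (nat_lit 10) (.e (nat_lit 73789) (nat_lit 45) .nil)))))) (.g (nat_lit 0) .nil .nil))))) (.nd (nat_lit 4) (.nd (nat_lit 5) 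
(.lf (nat_lit 16396) (.g (nat_lit 1463) (.e (nat_lit 1131) (nat_lit 83) (.e (nat_lit 16473) (nat_lit 14) (.e (nat_lit 491538) (nat_lit 3) .nil))) .nil)) 
(.lf (nat_lit 16428) (.g (nat_lit 3580) (.e (nat_lit 1139) (nat_lit 84) (.e (nat_lit 32787) (nat_lit 9) (.e (nat_lit 65571) (nat_lit 3) (.e (nat_lit 98342) (nat_lit 20) (.e (nat_lit 221212) (nat_lit 22) (.e (nat_lit 196658) (nat_lit 12) (.e (nat_lit 57508) (nat_lit 39) (.e (nat_lit 647203) (nat_lit 14) .nil)))))))) (.g (nat_lit 8) .nil .nil)))) (.nd (nat_lit 5) 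
(.lf (nat_lit 16412) (.g (nat_lit 2745) (.e (nat_lit 1132) (nat_lit 83) (.e (nat_lit 16473) (nat_lit 14) (.e (nat_lit 491538) (nat_lit 3) (.e (nat_lit 98359) (nat_lit 26) (.e (nat_lit 426286) (nat_lit 10) .nil))))) .nil)) 
(.lf (nat_lit 16444) (.g (nat_lit 1629) (.e (nat_lit 1139) (nat_lit 84) (.e (nat_lit 32787) (nat_lit 9) (.e (nat_lit 65604) (nat_lit 9) (.e (nat_lit 336028) (nat_lit 3) (.e (nat_lit 98325) (nat_lit 17) (.e (nat_lit 7936) (nat_lit 405) (.e (nat_lit 57713) (nat_lit 176) .nil))))))) (.g (nat_lit 4) .nil .nil))))))) (.nd (nat_lit 2) (.nd (nat_lit 3) (.nd (nat_lit 4) (.nd (nat_lit 5) 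
(.lf (nat_lit 16386) (.g (nat_lit 1349) (.e (nat_lit 1131) (nat_lit 83) (.e (nat_lit 16473) (nat_lit 14) (.e (nat_lit 491526) (nat_lit 0) .nil))) .nil)) 
(.lf (nat_lit 16418) (.g (nat_lit 2265) (.e (nat_lit 7936) (nat_lit 83) (.e (nat_lit 16416) (nat_lit 3) (.e (nat_lit 204868) (nat_lit 29) (.e (nat_lit 368384) (nat_lit 5) .nil)))) .nil))) (.nd (nat_lit 5) 
(.lf (nat_lit 16402) (.g (nat_lit 3312) (.e (nat_lit 1132) (nat_lit 83) (.e (nat_lit 16470) (nat_lit 14) (.e (nat_lit 491537) (nat_lit 2) (.e (nat_lit 90170) (nat_lit 13) .nil)))) .nil)) 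
(.lf (nat_lit 16434) (.g (nat_lit 1667) (.e (nat_lit 1139) (nat_lit 84) (.e (nat_lit 32787) (nat_lit 9) (.e (nat_lit 65586) (nat_lit 7) (.e (nat_lit 319518) (nat_lit 12) (.e (nat_lit 32788) (nat_lit 10) (.e (nat_lit 73789) (nat_lit 45) .nil)))))) (.g (nat_lit 0) .nil .nil))))) (.nd (nat_lit 4) (.nd (nat_lit 5) 
(.lf (nat_lit 16394) (.g (nat_lit 1325) (.e (nat_lit 1131) (nat_lit 83) (.e (nat_lit 16473) (nat_lit 14) (.e (nat_lit 491536) (nat_lit 2) .nil))) .nil)) 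
(.lf (nat_lit 16426) (.g (nat_lit 2309) (.e (nat_lit 1139) (nat_lit 84) (.e (nat_lit 32787) (nat_lit 9) (.e (nat_lit 65571) (nat_lit 3) (.e (nat_lit 98341) (nat_lit 20) (.e (nat_lit 221212) (nat_lit 22) .nil))))) .nil))) (.nd (nat_lit 5) 
(.lf (nat_lit 16410) (.g (nat_lit 1296) (.e (nat_lit 1132) (nat_lit 83) (.e (nat_lit 16473) (nat_lit 14) (.e (nat_lit 491536) (nat_lit 2) .nil))) .nil)) 
(.lf (nat_lit 16442) (.g (nat_lit 1629) (.e (nat_lit 1139) (nat_lit 84) (.e (nat_lit 32787) (nat_lit 9) (.e (nat_lit 65598) (nat_lit 9) (.e (nat_lit 336028) (nat_lit 3) (.e (nat_lit 98325) (nat_lit 17) (.e (nat_lit 7936) (nat_lit 405) (.e (nat_lit 57713) (nat_lit 176) .nil))))))) (.g (nat_lit 4) .nil .nil)))))) (.nd (nat_lit 3) (.nd (nat_lit 4) (.nd (nat_lit 5) 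
(.lf (nat_lit 16390) (.g (nat_lit 1849) (.e (nat_lit 1131) (nat_lit 83) (.e (nat_lit 16473) (nat_lit 14) (.e (nat_lit 491530) (nat_lit 0) (.e (nat_lit 1796) (nat_lit 119) .nil)))) .nil)) 
(.lf (nat_lit 16422) (.g (nat_lit 2741) (.e (nat_lit 1135) (nat_lit 84) (.e (nat_lit 32787) (nat_lit 9) (.e (nat_lit 65610) (nat_lit 10) (.e (nat_lit 344117) (nat_lit 21) (.e (nat_lit 516102) (nat_lit 0) .nil))))) .nil))) (.nd (nat_lit 5) 
(.lf (nat_lit 16406) (.g (nat_lit 3184) (.e (nat_lit 1132) (nat_lit 83) (.e (nat_lit 16473) (nat_lit 14) (.e (nat_lit 491526) (nat_lit 0) (.e (nat_lit 1788) (nat_lit 119) (.e (nat_lit 516151) (nat_lit 9) .nil))))) .nil)) 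
(.lf (nat_lit 16438) (.g (nat_lit 3552) (.e (nat_lit 1139) (nat_lit 84) (.e (nat_lit 32787) (nat_lit 9) (.e (nat_lit 65598) (nat_lit 9) (.e (nat_lit 336013) (nat_lit 2) (.e (nat_lit 90165) (nat_lit 12) (.e (nat_lit 164208) (nat_lit 176) (.e (nat_lit 2403) (nat_lit 157) (.e (nat_lit 4962) (nat_lit 287) .nil)))))))) (.g (nat_lit 8) .nil .nil))))) (.nd (nat_lit 4) (.nd (nat_lit 5) 
(.lf (nat_lit 16398) (.g (nat_lit 3322) (.e (nat_lit 1131) (nat_lit 83) (.e (nat_lit 16473) (nat_lit 14) (.e (nat_lit 491538) (nat_lit 3) (.e (nat_lit 98365) (nat_lit 26) (.e (nat_lit 426298) (nat_lit 11) .nil))))) .nil)) 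
(.lf (nat_lit 16430) (.g (nat_lit 1624) (.e (nat_lit 1139) (nat_lit 84) (.e (nat_lit 32787) (nat_lit 9) (.e (nat_lit 65583) (nat_lit 7) (.e (nat_lit 319519) (nat_lit 12) (.e (nat_lit 32788) (nat_lit 10) (.e (nat_lit 73789) (nat_lit 45) .nil)))))) (.g (nat_lit 0) .nil .nil)))) (.nd (nat_lit 5) 
(.lf (nat_lit 16414) (.g (nat_lit 1289) (.e (nat_lit 1132) (nat_lit 83) (.e (nat_lit 16473) (nat_lit 14) (.e (nat_lit 491539) (nat_lit 3) .nil))) .nil)) 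
(.lf (nat_lit 16446) (.g (nat_lit 2680) (.e (nat_lit 1139) (nat_lit 84) (.e (nat_lit 32787) (nat_lit 9) (.e (nat_lit 65610) (nat_lit 10) (.e (nat_lit 344117) (nat_lit 21) (.e (nat_lit 516098) (nat_lit 0) (.e (nat_lit 7581) (nat_lit 405) (.e (nat_lit 57713) (nat_lit 176) .nil))))))) (.g (nat_lit 4) .nil .nil)))))))) 
(.nd (nat_lit 1) (.nd (nat_lit 2) (.nd (nat_lit 3) (.nd (nat_lit 4) (.nd (nat_lit 5) 
(.lf (nat_lit 16385) (.g (nat_lit 3016) (.e (nat_lit 1131) (nat_lit 83) (.e (nat_lit 16470) (nat_lit 14) (.e (nat_lit 491571) (nat_lit 13) (.e (nat_lit 393283) (nat_lit 24) .nil)))) .nil)) 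
(.lf (nat_lit 16417) (.g (nat_lit 2412) (.e (nat_lit 7936) (nat_lit 83) (.e (nat_lit 16416) (nat_lit 3) (.e (nat_lit 204854) (nat_lit 26) (.e (nat_lit 336182) (nat_lit 11) .nil)))) .nil))) (.nd (nat_lit 5) 
(.lf (nat_lit 16401) (.g (nat_lit 3081) (.e (nat_lit 1131) (nat_lit 83) (.e (nat_lit 16473) (nat_lit 14) (.e (nat_lit 491568) (nat_lit 13) (.e (nat_lit 393283) (nat_lit 24) .nil)))) .nil)) 
(.lf (nat_lit 16433) (.g (nat_lit 1768) (.e (nat_lit 1139) (nat_lit 84) (.e (nat_lit 32787) (nat_lit 9) (.e (nat_lit 65586) (nat_lit 7) (.e (nat_lit 319517) (nat_lit 12) (.e (nat_lit 32788) (nat_lit 10) (.e (nat_lit 73789) (nat_lit 45) .nil)))))) (.g (nat_lit 0) .nil .nil))))) (.nd (nat_lit 4) (.nd (nat_lit 5) 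
(.lf (nat_lit 16393) (.g (nat_lit 3304) (.e (nat_lit 1131) (nat_lit 83) (.e (nat_lit 16473) (nat_lit 14) (.e (nat_lit 491535) (nat_lit 2) (.e (nat_lit 90170) (nat_lit 13) (.e (nat_lit 172113) (nat_lit 10) .nil))))) .nil)) 
(.lf (nat_lit 16425) (.g (nat_lit 3444) (.e (nat_lit 1139) (nat_lit 84) (.e (nat_lit 32787) (nat_lit 9) (.e (nat_lit 65571) (nat_lit 3) (.e (nat_lit 98341) (nat_lit 20) (.e (nat_lit 221210) (nat_lit 22) (.e (nat_lit 196658) (nat_lit 12) (.e (nat_lit 57508) (nat_lit 39) (.e (nat_lit 647203) (nat_lit 14) .nil)))))))) (.g (nat_lit 6) .nil .nil)))) (.nd (nat_lit 5) 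
(.lf (nat_lit 16409) (.g (nat_lit 3127) (.e (nat_lit 1132) (nat_lit 83) (.e (nat_lit 16473) (nat_lit 14) (.e (nat_lit 491535) (nat_lit 2) (.e (nat_lit 90170) (nat_lit 13) (.e (nat_lit 172113) (nat_lit 10) .nil))))) .nil)) 
(.lf (nat_lit 16441) (.g (nat_lit 2865) (.e (nat_lit 1139) (nat_lit 84) (.e (nat_lit 32787) (nat_lit 9) (.e (nat_lit 65598) (nat_lit 9) (.e (nat_lit 336028) (nat_lit 3) (.e (nat_lit 98325) (nat_lit 17) (.e (nat_lit 6986) (nat_lit 377) (.e (nat_lit 2403) (nat_lit 157) (.e (nat_lit 4962) (nat_lit 287) .nil)))))))) (.g (nat_lit 6) .nil .nil)))))) (.nd (nat_lit 3) (.nd (nat_lit 4) (.nd (nat_lit 5) 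
(.lf (nat_lit 16389) (.g (nat_lit 3315) (.e (nat_lit 1131) (nat_lit 83) (.e (nat_lit 16473) (nat_lit 14) (.e (nat_lit 491526) (nat_lit 0) (.e (nat_lit 1788) (nat_lit 119) (.e (nat_lit 516166) (nat_lit 12) .nil))))) .nil)) 
(.lf (nat_lit 16421) (.g (nat_lit 1231) (.e (nat_lit 7936) (nat_lit 83) (.e (nat_lit 16417) (nat_lit 3) (.e (nat_lit 204868) (nat_lit 29) (.e (nat_lit 368384) (nat_lit 5) .nil)))) .nil))) (.nd (nat_lit 5) 
(.lf (nat_lit 16405) (.g (nat_lit 2727) (.e (nat_lit 1132) (nat_lit 83) (.e (nat_lit 16473) (nat_lit 14) (.e (nat_lit 491526) (nat_lit 0) (.e (nat_lit 1788) (nat_lit 119) .nil)))) .nil)) 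
(.lf (nat_lit 16437) (.g (nat_lit 2941) (.e (nat_lit 1139) (nat_lit 84) (.e (nat_lit 32787) (nat_lit 9) (.e (nat_lit 65598) (nat_lit 9) (.e (nat_lit 336013) (nat_lit 2) (.e (nat_lit 90165) (nat_lit 12) (.e (nat_lit 164208) (nat_lit 176) (.e (nat_lit 2403) (nat_lit 157) (.e (nat_lit 4921) (nat_lit 287) .nil)))))))) (.g (nat_lit 5) .nil .nil))))) (.nd (nat_lit 4) (.nd (nat_lit 5) 
(.lf (nat_lit 16397) (.g (nat_lit 2478) (.e (nat_lit 1131) (nat_lit 83) (.e (nat_lit 16473) (nat_lit 14) (.e (nat_lit 491538) (nat_lit 3) (.e (nat_lit 98359) (nat_lit 26) .nil)))) .nil)) 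
(.lf (nat_lit 16429) (.g (nat_lit 831) (.e (nat_lit 1139) (nat_lit 84) (.e (nat_lit 32787) (nat_lit 9) (.e (nat_lit 65583) (nat_lit 7) (.e (nat_lit 319499) (nat_lit 10) (.e (nat_lit 511) (nat_lit 41) .nil))))) .nil))) (.nd (nat_lit 5) 
(.lf (nat_lit 16413) (.g (nat_lit 2349) (.e (nat_lit 1132) (nat_lit 83) (.e (nat_lit 16473) (nat_lit 14) (.e (nat_lit 491538) (nat_lit 3) (.e (nat_lit 98370) (nat_lit 28) .nil)))) .nil)) 
(.lf (nat_lit 16445) (.g (nat_lit 2500) (.e (nat_lit 1139) (nat_lit 84) (.e (nat_lit 32787) (nat_lit 9) (.e (nat_lit 65610) (nat_lit 10) (.e (nat_lit 344117) (nat_lit 21) (.e (nat_lit 516098) (nat_lit 0) .nil))))) .nil)))))) (.nd (nat_lit 2) (.nd (nat_lit 3) (.nd (nat_lit 4) (.nd (nat_lit 5) 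
(.lf (nat_lit 16387) (.g (nat_lit 2943) (.e (nat_lit 1131) (nat_lit 83) (.e (nat_lit 16473) (nat_lit 14) (.e (nat_lit 491526) (nat_lit 0) (.e (nat_lit 1788) (nat_lit 119) .nil)))) .nil)) 
(.lf (nat_lit 16419) (.g (nat_lit 2462) (.e (nat_lit 7936) (nat_lit 83) (.e (nat_lit 16416) (nat_lit 3) (.e (nat_lit 204869) (nat_lit 29) (.e (nat_lit 368384) (nat_lit 5) .nil)))) .nil))) (.nd (nat_lit 5) 
(.lf (nat_lit 16403) (.g (nat_lit 1845) (.e (nat_lit 1132) (nat_lit 83) (.e (nat_lit 16470) (nat_lit 14) (.e (nat_lit 491540) (nat_lit 3) .nil))) .nil)) 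
(.lf (nat_lit 16435) (.g (nat_lit 621) (.e (nat_lit 1139) (nat_lit 84) (.e (nat_lit 32787) (nat_lit 9) (.e (nat_lit 65586) (nat_lit 7) (.e (nat_lit 319519) (nat_lit 12) .nil)))) .nil)))) (.nd (nat_lit 4) (.nd (nat_lit 5) 
(.lf (nat_lit 16395) (.g (nat_lit 2538) (.e (nat_lit 1131) (nat_lit 83) (.e (nat_lit 16473) (nat_lit 14) (.e (nat_lit 491536) (nat_lit 2) (.e (nat_lit 90170) (nat_lit 13) .nil)))) .nil)) 
(.lf (nat_lit 16427) (.g (nat_lit 2842) (.e (nat_lit 1139) (nat_lit 84) (.e (nat_lit 32787) (nat_lit 9) (.e (nat_lit 65571) (nat_lit 3) (.e (nat_lit 98342) (nat_lit 20) (.e (nat_lit 221210) (nat_lit 22) (.e (nat_lit 196660) (nat_lit 12) (.e (nat_lit 57507) (nat_lit 39) (.e (nat_lit 647203) (nat_lit 14) .nil)))))))) (.g (nat_lit 5) .nil .nil)))) (.nd (nat_lit 5) 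
(.lf (nat_lit 16411) (.g (nat_lit 1372) (.e (nat_lit 1132) (nat_lit 83) (.e (nat_lit 16473) (nat_lit 14) (.e (nat_lit 491538) (nat_lit 3) .nil))) .nil)) 
(.lf (nat_lit 16443) (.g (nat_lit 2830) (.e (nat_lit 1139) (nat_lit 84) (.e (nat_lit 32787) (nat_lit 9) (.e (nat_lit 65604) (nat_lit 9) (.e (nat_lit 336028) (nat_lit 3) (.e (nat_lit 98325) (nat_lit 17) (.e (nat_lit 6986) (nat_lit 377) (.e (nat_lit 2403) (nat_lit 157) (.e (nat_lit 4962) (nat_lit 287) .nil)))))))) (.g (nat_lit 6) .nil .nil)))))) (.nd (nat_lit 3) (.nd (nat_lit 4) (.nd (nat_lit 5) 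
(.lf (nat_lit 16391) (.g (nat_lit 1508) (.e (nat_lit 1131) (nat_lit 83) (.e (nat_lit 16473) (nat_lit 14) (.e (nat_lit 491535) (nat_lit 2) .nil))) .nil)) 
(.lf (nat_lit 16423) (.g (nat_lit 2905) (.e (nat_lit 1139) (nat_lit 84) (.e (nat_lit 32774) (nat_lit 5) (.e (nat_lit 1668) (nat_lit 116) (.e (nat_lit 401454) (nat_lit 12) (.e (nat_lit 475185) (nat_lit 29) (.e (nat_lit 557105) (nat_lit 14) (.e (nat_lit 188160) (nat_lit 45) .nil))))))) (.g (nat_lit 6) .nil .nil)))) (.nd (nat_lit 5) 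
(.lf (nat_lit 16407) (.g (nat_lit 1425) (.e (nat_lit 1132) (nat_lit 83) (.e (nat_lit 16473) (nat_lit 14) (.e (nat_lit 491535) (nat_lit 2) .nil))) .nil)) 
(.lf (nat_lit 16439) (.g (nat_lit 2784) (.e (nat_lit 1139) (nat_lit 84) (.e (nat_lit 32787) (nat_lit 9) (.e (nat_lit 65598) (nat_lit 9) (.e (nat_lit 336013) (nat_lit 2) (.e (nat_lit 90165) (nat_lit 12) (.e (nat_lit 164208) (nat_lit 176) (.e (nat_lit 2403) (nat_lit 157) (.e (nat_lit 4963) (nat_lit 287) .nil)))))))) (.g (nat_lit 5) .nil .nil))))) (.nd (nat_lit 4) (.nd (nat_lit 5) 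
(.lf (nat_lit 16399) (.g (nat_lit 3340) (.e (nat_lit 1131) (nat_lit 83) (.e (nat_lit 16473) (nat_lit 14) (.e (nat_lit 491538) (nat_lit 3) (.e (nat_lit 98373) (nat_lit 29) (.e (nat_lit 450562) (nat_lit 0) .nil))))) .nil)) 
(.lf (nat_lit 16431) (.g (nat_lit 1411) (.e (nat_lit 1139) (nat_lit 84) (.e (nat_lit 32787) (nat_lit 9) (.e (nat_lit 65585) (nat_lit 7) (.e (nat_lit 319519) (nat_lit 12) (.e (nat_lit 32788) (nat_lit 10) (.e (nat_lit 73789) (nat_lit 45) .nil)))))) (.g (nat_lit 6) .nil .nil)))) (.nd (nat_lit 5) 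
(.lf (nat_lit 16415) (.g (nat_lit 2076) (.e (nat_lit 7936) (nat_lit 83) (.e (nat_lit 16412) (nat_lit 2) (.e (nat_lit 196672) (nat_lit 15) (.e (nat_lit 81954) (nat_lit 23) (.e (nat_lit 98334) (nat_lit 18) .nil))))) .nil)) 
(.lf (nat_lit 16447) (.g (nat_lit 3573) (.e (nat_lit 1139) (nat_lit 84) (.e (nat_lit 32787) (nat_lit 9) (.e (nat_lit 65610) (nat_lit 10) (.e (nat_lit 344117) (nat_lit 21) (.e (nat_lit 516099) (nat_lit 0) .nil))))) .nil))))))))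

noncomputable def tv222 : DT := (.nd (nat_lit 0) (.nd (nat_lit 1) (.nd (nat_lit 2) (.nd (nat_lit 3) (.nd (nat_lit 4) (.nd (nat_lit 5) 
(.lf (nat_lit 16448) (.g (nat_lit 4437) (.e (nat_lit 1139) (nat_lit 84) (.e (nat_lit 32787) (nat_lit 9) (.e (nat_lit 65610) (nat_lit 10) (.e (nat_lit 344117) (nat_lit 21) (.e (nat_lit 516185) (nat_lit 16) (.e (nat_lit 491526) (nat_lit 0) (.e (nat_lit 6126) (nat_lit 332) .nil))))))) (.g (nat_lit 6) .nil .nil))) 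
(.lf (nat_lit 16480) (.g (nat_lit 1802) (.e (nat_lit 1139) (nat_lit 84) (.e (nat_lit 32787) (nat_lit 9) (.e (nat_lit 65628) (nat_lit 14) (.e (nat_lit 401414) (nat_lit 0) (.e (nat_lit 3124) (nat_lit 193) (.e (nat_lit 500071) (nat_lit 19) (.e (nat_lit 73789) (nat_lit 45) .nil))))))) (.g (nat_lit 4) .nil .nil)))) (.nd (nat_lit 5) 
(.lf (nat_lit 16464) (.g (nat_lit 3068) (.e (nat_lit 1139) (nat_lit 84) (.e (nat_lit 32787) (nat_lit 9) (.e (nat_lit 65619) (nat_lit 10) (.e (nat_lit 344129) (nat_lit 26) (.e (nat_lit 557066) (nat_lit 9) (.e (nat_lit 297) (nat_lit 22) (.e (nat_lit 344077) (nat_lit 13) .nil))))))) (.g (nat_lit 0) .nil .nil))) 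
(.lf (nat_lit 16496) (.g (nat_lit 3104) (.e (nat_lit 1139) (nat_lit 84) (.e (nat_lit 32788) (nat_lit 10) (.e (nat_lit 73781) (nat_lit 32) (.e (nat_lit 2663) (nat_lit 167) (.e (nat_lit 196668) (nat_lit 14) (.e (nat_lit 73789) (nat_lit 45) .nil)))))) (.g (nat_lit 6) .nil .nil))))) (.nd (nat_lit 4) (.nd (nat_lit 5) 
(.lf (nat_lit 16456) (.g (nat_lit 1626) (.e (nat_lit 1139) (nat_lit 84) (.e (nat_lit 32787) (nat_lit 9) (.e (nat_lit 65616) (nat_lit 10) (.e (nat_lit 344126) (nat_lit 25) (.e (nat_lit 548890) (nat_lit 10) (.e (nat_lit 73789) (nat_lit 45) .nil)))))) (.g (nat_lit 6) .nil .nil))) 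
(.lf (nat_lit 16488) (.g (nat_lit 2213) (.e (nat_lit 1139) (nat_lit 84) (.e (nat_lit 32787) (nat_lit 9) (.e (nat_lit 65630) (nat_lit 14) (.e (nat_lit 401412) (nat_lit 0) (.e (nat_lit 3148) (nat_lit 193) (.e (nat_lit 500071) (nat_lit 19) (.e (nat_lit 73789) (nat_lit 45) .nil))))))) (.g (nat_lit 4) .nil .nil)))) (.nd (nat_lit 5) 
(.lf (nat_lit 16472) (.g (nat_lit 2856) (.e (nat_lit 1139) (nat_lit 84) (.e (nat_lit 32787) (nat_lit 9) (.e (nat_lit 65623) (nat_lit 12) (.e (nat_lit 385073) (nat_lit 31) (.e (nat_lit 573487) (nat_lit 14) (.e (nat_lit 73789) (nat_lit 45) .nil)))))) (.g (nat_lit 6) .nil .nil))) 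
(.lf (nat_lit 16504) (.g (nat_lit 2870) (.e (nat_lit 1139) (nat_lit 84) (.e (nat_lit 32789) (nat_lit 11) (.e (nat_lit 81956) (nat_lit 23) (.e (nat_lit 98389) (nat_lit 33) (.e (nat_lit 491526) (nat_lit 0) .nil))))) .nil))))) (.nd (nat_lit 3) (.nd (nat_lit 4) (.nd (nat_lit 5) 
(.lf (nat_lit 16452) (.g (nat_lit 2995) (.e (nat_lit 1139) (nat_lit 84) (.e (nat_lit 32787) (nat_lit 9) (.e (nat_lit 65610) (nat_lit 10) (.e (nat_lit 344129) (nat_lit 26) (.e (nat_lit 557087) (nat_lit 11) (.e (nat_lit 24584) (nat_lit 0) (.e (nat_lit 6092) (nat_lit 332) .nil))))))) (.g (nat_lit 6) .nil .nil))) 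
(.lf (nat_lit 16484) (.g (nat_lit 1777) (.e (nat_lit 1139) (nat_lit 84) (.e (nat_lit 32787) (nat_lit 9) (.e (nat_lit 65628) (nat_lit 14) (.e (nat_lit 401428) (nat_lit 3) (.e (nat_lit 204862) (nat_lit 27) (.e (nat_lit 344076) (nat_lit 13) .nil)))))) (.g (nat_lit 4) .nil .nil)))) (.nd (nat_lit 5) 
(.lf (nat_lit 16468) (.g (nat_lit 3013) (.e (nat_lit 1139) (nat_lit 84) (.e (nat_lit 32787) (nat_lit 9) (.e (nat_lit 65622) (nat_lit 12) (.e (nat_lit 385074) (nat_lit 31) (.e (nat_lit 573487) (nat_lit 14) (.e (nat_lit 73789) (nat_lit 45) .nil)))))) (.g (nat_lit 0) .nil .nil))) 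
(.lf (nat_lit 16500) (.g (nat_lit 2692) (.e (nat_lit 1139) (nat_lit 84) (.e (nat_lit 32789) (nat_lit 11) (.e (nat_lit 81922) (nat_lit 0) (.e (nat_lit 3305) (nat_lit 202) (.e (nat_lit 573487) (nat_lit 14) (.e (nat_lit 73789) (nat_lit 45) .nil)))))) (.g (nat_lit 6) .nil .nil))))) (.nd (nat_lit 4) (.nd (nat_lit 5) 
(.lf (nat_lit 16460) (.g (nat_lit 3215) (.e (nat_lit 1139) (nat_lit 84) (.e (nat_lit 32787) (nat_lit 9) (.e (nat_lit 65617) (nat_lit 10) (.e (nat_lit 344130) (nat_lit 26) (.e (nat_lit 557087) (nat_lit 11) (.e (nat_lit 24584) (nat_lit 0) (.e (nat_lit 6092) (nat_lit 332) .nil))))))) (.g (nat_lit 6) .nil .nil))) 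
(.lf (nat_lit 16492) (.g (nat_lit 3200) (.e (nat_lit 1139) (nat_lit 84) (.e (nat_lit 32787) (nat_lit 9) (.e (nat_lit 65630) (nat_lit 14) (.e (nat_lit 401425) (nat_lit 2) (.e (nat_lit 196668) (nat_lit 14) (.e (nat_lit 73789) (nat_lit 45) .nil)))))) (.g (nat_lit 6) .nil .nil)))) (.nd (nat_lit 5) 
(.lf (nat_lit 16476) (.g (nat_lit 3251) (.e (nat_lit 1139) (nat_lit 84) (.e (nat_lit 32787) (nat_lit 9) (.e (nat_lit 65624) (nat_lit 12) (.e (nat_lit 385074) (nat_lit 31) (.e (nat_lit 573487) (nat_lit 14) (.e (nat_lit 73789) (nat_lit 45) .nil)))))) (.g (nat_lit 0) .nil .nil))) 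
(.lf (nat_lit 16508) (.g (nat_lit 690) (.e (nat_lit 1140) (nat_lit 84) (.e (nat_lit 32787) (nat_lit 9) (.e (nat_lit 65583) (nat_lit 7) (.e (nat_lit 319519) (nat_lit 12) (.e (nat_lit 32774) (nat_lit 5) .nil))))) .nil)))))) (.nd (nat_lit 2) (.nd (nat_lit 3) (.nd (nat_lit 4) (.nd (nat_lit 5) 
(.lf (nat_lit 16450) (.g (nat_lit 1765) (.e (nat_lit 1139) (nat_lit 84) (.e (nat_lit 32787) (nat_lit 9) (.e (nat_lit 65610) (nat_lit 10) (.e (nat_lit 344129) (nat_lit 26) (.e (nat_lit 557066) (nat_lit 9) (.e (nat_lit 232) (nat_lit 21) (.e (nat_lit 335907) (nat_lit 0) (.e (nat_lit 6133) (nat_lit 332) .nil)))))))) (.g (nat_lit 4) .nil .nil))) 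
(.lf (nat_lit 16482) (.g (nat_lit 2855) (.e (nat_lit 1139) (nat_lit 84) (.e (nat_lit 32787) (nat_lit 9) (.e (nat_lit 65628) (nat_lit 14) (.e (nat_lit 401424) (nat_lit 2) (.e (nat_lit 196668) (nat_lit 14) (.e (nat_lit 73789) (nat_lit 45) .nil)))))) (.g (nat_lit 6) .nil .nil)))) (.nd (nat_lit 5) 
(.lf (nat_lit 16466) (.g (nat_lit 3122) (.e (nat_lit 1139) (nat_lit 84) (.e (nat_lit 32787) (nat_lit 9) (.e (nat_lit 65622) (nat_lit 12) (.e (nat_lit 385072) (nat_lit 31) (.e (nat_lit 573487) (nat_lit 14) (.e (nat_lit 73789) (nat_lit 45) .nil)))))) (.g (nat_lit 6) .nil .nil))) 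
(.lf (nat_lit 16498) (.g (nat_lit 3249) (.e (nat_lit 1139) (nat_lit 84) (.e (nat_lit 32788) (nat_lit 10) (.e (nat_lit 73782) (nat_lit 32) (.e (nat_lit 2663) (nat_lit 167) (.e (nat_lit 196668) (nat_lit 14) (.e (nat_lit 73789) (nat_lit 45) .nil)))))) (.g (nat_lit 6) .nil .nil))))) (.nd (nat_lit 4) (.nd (nat_lit 5) 
(.lf (nat_lit 16458) (.g (nat_lit 1413) (.e (nat_lit 1139) (nat_lit 84) (.e (nat_lit 32787) (nat_lit 9) (.e (nat_lit 65617) (nat_lit 10) (.e (nat_lit 344130) (nat_lit 26) (.e (nat_lit 557064) (nat_lit 9) (.e (nat_lit 297) (nat_lit 22) (.e (nat_lit 344077) (nat_lit 13) .nil))))))) (.g (nat_lit 4) .nil .nil))) 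
(.lf (nat_lit 16490) (.g (nat_lit 3127) (.e (nat_lit 1139) (nat_lit 84) (.e (nat_lit 32787) (nat_lit 9) (.e (nat_lit 65630) (nat_lit 14) (.e (nat_lit 401424) (nat_lit 2) (.e (nat_lit 196668) (nat_lit 14) (.e (nat_lit 73789) (nat_lit 45) .nil)))))) (.g (nat_lit 6) .nil .nil)))) (.nd (nat_lit 5) 
(.lf (nat_lit 16474) (.g (nat_lit 3456) (.e (nat_lit 1139) (nat_lit 84) (.e (nat_lit 32787) (nat_lit 9) (.e (nat_lit 65624) (nat_lit 12) (.e (nat_lit 385072) (nat_lit 31) (.e (nat_lit 573487) (nat_lit 14) (.e (nat_lit 73789) (nat_lit 45) .nil)))))) (.g (nat_lit 6) .nil .nil))) 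
(.lf (nat_lit 16506) (.g (nat_lit 2632) (.e (nat_lit 1140) (nat_lit 84) (.e (nat_lit 32786) (nat_lit 9) (.e (nat_lit 65630) (nat_lit 14) (.e (nat_lit 401425) (nat_lit 2) (.e (nat_lit 196670) (nat_lit 14) (.e (nat_lit 73791) (nat_lit 45) .nil)))))) (.g (nat_lit 5) .nil .nil)))))) (.nd (nat_lit 3) (.nd (nat_lit 4) (.nd (nat_lit 5) 
(.lf (nat_lit 16454) (.g (nat_lit 2949) (.e (nat_lit 1139) (nat_lit 84) (.e (nat_lit 32787) (nat_lit 9) (.e (nat_lit 65610) (nat_lit 10) (.e (nat_lit 344129) (nat_lit 26) (.e (nat_lit 557087) (nat_lit 11) (.e (nat_lit 24588) (nat_lit 0) (.e (nat_lit 6148) (nat_lit 332) .nil))))))) (.g (nat_lit 6) .nil .nil))) 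
(.lf (nat_lit 16486) (.g (nat_lit 1491) (.e (nat_lit 1139) (nat_lit 84) (.e (nat_lit 32787) (nat_lit 9) (.e (nat_lit 65630) (nat_lit 14) (.e (nat_lit 401412) (nat_lit 0) .nil)))) .nil))) (.nd (nat_lit 5) 
(.lf (nat_lit 16470) (.g (nat_lit 2122) (.e (nat_lit 1139) (nat_lit 84) (.e (nat_lit 32787) (nat_lit 9) (.e (nat_lit 65622) (nat_lit 12) (.e (nat_lit 385074) (nat_lit 31) (.e (nat_lit 573489) (nat_lit 14) (.e (nat_lit 81664) (nat_lit 45) .nil)))))) (.g (nat_lit 5) .nil .nil))) 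
(.lf (nat_lit 16502) (.g (nat_lit 2583) (.e (nat_lit 1139) (nat_lit 84) (.e (nat_lit 32789) (nat_lit 11) (.e (nat_lit 81924) (nat_lit 0) (.e (nat_lit 3305) (nat_lit 202) (.e (nat_lit 573487) (nat_lit 14) (.e (nat_lit 73789) (nat_lit 45) .nil)))))) (.g (nat_lit 6) .nil .nil))))) (.nd (nat_lit 4) (.nd (nat_lit 5) 
(.lf (nat_lit 16462) (.g (nat_lit 2642) (.e (nat_lit 1139) (nat_lit 84) (.e (nat_lit 32787) (nat_lit 9) (.e (nat_lit 65617) (nat_lit 10) (.e (nat_lit 344130) (nat_lit 26) (.e (nat_lit 557087) (nat_lit 11) (.e (nat_lit 24588) (nat_lit 0) (.e (nat_lit 6148) (nat_lit 332) .nil))))))) (.g (nat_lit 6) .nil .nil))) 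
(.lf (nat_lit 16494) (.g (nat_lit 665) (.e (nat_lit 1139) (nat_lit 84) (.e (nat_lit 32788) (nat_lit 10) (.e (nat_lit 73748) (nat_lit 3) (.e (nat_lit 516131) (nat_lit 3) .nil)))) .nil))) (.nd (nat_lit 5) 
(.lf (nat_lit 16478) (.g (nat_lit 1550) (.e (nat_lit 1139) (nat_lit 84) (.e (nat_lit 32787) (nat_lit 9) (.e (nat_lit 65628) (nat_lit 14) (.e (nat_lit 401412) (nat_lit 0) (.e (nat_lit 3128) (nat_lit 193) (.e (nat_lit 500071) (nat_lit 19) (.e (nat_lit 73789) (nat_lit 45) .nil))))))) (.g (nat_lit 4) .nil .nil))) 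
(.lf (nat_lit 16510) (.g (nat_lit 1453) (.e (nat_lit 1140) (nat_lit 84) (.e (nat_lit 32787) (nat_lit 9) (.e (nat_lit 65583) (nat_lit 7) (.e (nat_lit 319519) (nat_lit 12) (.e (nat_lit 32788) (nat_lit 10) (.e (nat_lit 73788) (nat_lit 45) .nil)))))) (.g (nat_lit 0) .nil .nil)))))))) (.nd (nat_lit 1) (.nd (nat_lit 2) (.nd (nat_lit 3) (.nd (nat_lit 4) (.nd (nat_lit 5) 
(.lf (nat_lit 16449) (.g (nat_lit 1640) (.e (nat_lit 1139) (nat_lit 84) (.e (nat_lit 32787) (nat_lit 9) (.e (nat_lit 65610) (nat_lit 10) (.e (nat_lit 344129) (nat_lit 26) (.e (nat_lit 557066) (nat_lit 9) .nil))))) .nil)) 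
(.lf (nat_lit 16481) (.g (nat_lit 2714) (.e (nat_lit 1139) (nat_lit 84) (.e (nat_lit 32787) (nat_lit 9) (.e (nat_lit 65628) (nat_lit 14) (.e (nat_lit 401423) (nat_lit 2) (.e (nat_lit 196668) (nat_lit 14) (.e (nat_lit 73789) (nat_lit 45) .nil)))))) (.g (nat_lit 6) .nil .nil)))) (.nd (nat_lit 5) 
(.lf (nat_lit 16465) (.g (nat_lit 1592) (.e (nat_lit 1139) (nat_lit 84) (.e (nat_lit 32787) (nat_lit 9) (.e (nat_lit 65620) (nat_lit 10) (.e (nat_lit 344126) (nat_lit 25) (.e (nat_lit 548890) (nat_lit 10) (.e (nat_lit 73789) (nat_lit 45) .nil)))))) (.g (nat_lit 5) .nil .nil))) 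
(.lf (nat_lit 16497) (.g (nat_lit 2311) (.e (nat_lit 1139) (nat_lit 84) (.e (nat_lit 32788) (nat_lit 10) (.e (nat_lit 73781) (nat_lit 32) (.e (nat_lit 2664) (nat_lit 167) (.e (nat_lit 196668) (nat_lit 14) (.e (nat_lit 73789) (nat_lit 45) .nil)))))) (.g (nat_lit 6) .nil .nil))))) (.nd (nat_lit 4) (.nd (nat_lit 5) 
(.lf (nat_lit 16457) (.g (nat_lit 2072) (.e (nat_lit 1139) (nat_lit 84) (.e (nat_lit 32787) (nat_lit 9) (.e (nat_lit 65617) (nat_lit 10) (.e (nat_lit 344126) (nat_lit 25) (.e (nat_lit 548890) (nat_lit 10) (.e (nat_lit 73789) (nat_lit 45) .nil)))))) (.g (nat_lit 0) .nil .nil))) 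
(.lf (nat_lit 16489) (.g (nat_lit 3008) (.e (nat_lit 1139) (nat_lit 84) (.e (nat_lit 32787) (nat_lit 9) (.e (nat_lit 65630) (nat_lit 14) (.e (nat_lit 401423) (nat_lit 2) (.e (nat_lit 196668) (nat_lit 14) (.e (nat_lit 73789) (nat_lit 45) .nil)))))) (.g (nat_lit 6) .nil .nil)))) (.nd (nat_lit 5) 
(.lf (nat_lit 16473) (.g (nat_lit 2373) (.e (nat_lit 1139) (nat_lit 84) (.e (nat_lit 32787) (nat_lit 9) (.e (nat_lit 65623) (nat_lit 12) (.e (nat_lit 385074) (nat_lit 31) (.e (nat_lit 573489) (nat_lit 14) (.e (nat_lit 81664) (nat_lit 45) .nil)))))) (.g (nat_lit 4) .nil .nil))) 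
(.lf (nat_lit 16505) (.g (nat_lit 2020) (.e (nat_lit 1140) (nat_lit 84) (.e (nat_lit 32786) (nat_lit 9) (.e (nat_lit 65630) (nat_lit 14) (.e (nat_lit 401424) (nat_lit 2) (.e (nat_lit 196668) (nat_lit 14) .nil))))) .nil))))) (.nd (nat_lit 3) (.nd (nat_lit 4) (.nd (nat_lit 5) 
(.lf (nat_lit 16453) (.g (nat_lit 3141) (.e (nat_lit 1139) (nat_lit 84) (.e (nat_lit 32787) (nat_lit 9) (.e (nat_lit 65610) (nat_lit 10) (.e (nat_lit 344129) (nat_lit 26) (.e (nat_lit 557087) (nat_lit 11) (.e (nat_lit 24588) (nat_lit 0) (.e (nat_lit 6136) (nat_lit 332) .nil))))))) (.g (nat_lit 0) .nil .nil))) 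
(.lf (nat_lit 16485) (.g (nat_lit 3841) (.e (nat_lit 1139) (nat_lit 84) (.e (nat_lit 32787) (nat_lit 9) (.e (nat_lit 65628) (nat_lit 14) (.e (nat_lit 401428) (nat_lit 3) (.e (nat_lit 204863) (nat_lit 27) (.e (nat_lit 344074) (nat_lit 13) .nil)))))) (.g (nat_lit 6) .nil .nil)))) (.nd (nat_lit 5) 
(.lf (nat_lit 16469) (.g (nat_lit 2530) (.e (nat_lit 1139) (nat_lit 84) (.e (nat_lit 32787) (nat_lit 9) (.e (nat_lit 65622) (nat_lit 12) (.e (nat_lit 385074) (nat_lit 31) (.e (nat_lit 573489) (nat_lit 14) (.e (nat_lit 73789) (nat_lit 45) .nil)))))) (.g (nat_lit 6) .nil .nil))) 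
(.lf (nat_lit 16501) (.g (nat_lit 1969) (.e (nat_lit 1139) (nat_lit 84) (.e (nat_lit 32789) (nat_lit 11) (.e (nat_lit 81922) (nat_lit 0) (.e (nat_lit 3305) (nat_lit 202) (.e (nat_lit 573487) (nat_lit 14) (.e (nat_lit 81664) (nat_lit 45) .nil)))))) (.g (nat_lit 5) .nil .nil))))) (.nd (nat_lit 4) (.nd (nat_lit 5) 
(.lf (nat_lit 16461) (.g (nat_lit 2966) (.e (nat_lit 1139) (nat_lit 84) (.e (nat_lit 32787) (nat_lit 9) (.e (nat_lit 65617) (nat_lit 10) (.e (nat_lit 344130) (nat_lit 26) (.e (nat_lit 557087) (nat_lit 11) (.e (nat_lit 24588) (nat_lit 0) (.e (nat_lit 6136) (nat_lit 332) .nil))))))) (.g (nat_lit 0) .nil .nil))) 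
(.lf (nat_lit 16493) (.g (nat_lit 3142) (.e (nat_lit 1139) (nat_lit 84) (.e (nat_lit 32787) (nat_lit 9) (.e (nat_lit 65630) (nat_lit 14) (.e (nat_lit 401428) (nat_lit 3) (.e (nat_lit 204863) (nat_lit 27) (.e (nat_lit 344079) (nat_lit 13) .nil)))))) (.g (nat_lit 5) .nil .nil)))) (.nd (nat_lit 5) 
(.lf (nat_lit 16477) (.g (nat_lit 2365) (.e (nat_lit 1139) (nat_lit 84) (.e (nat_lit 32787) (nat_lit 9) (.e (nat_lit 65624) (nat_lit 12) (.e (nat_lit 385074) (nat_lit 31) (.e (nat_lit 573489) (nat_lit 14) (.e (nat_lit 81664) (nat_lit 45) .nil)))))) (.g (nat_lit 5) .nil .nil))) 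
(.lf (nat_lit 16509) (.g (nat_lit 1435) (.e (nat_lit 1140) (nat_lit 84) (.e (nat_lit 32787) (nat_lit 9) (.e (nat_lit 65583) (nat_lit 7) (.e (nat_lit 319519) (nat_lit 12) (.e (nat_lit 32774) (nat_lit 5) (.e (nat_lit 1529) (nat_lit 109) (.e (nat_lit 344076) (nat_lit 13) .nil))))))) (.g (nat_lit 0) .nil .nil))))))) (.nd (nat_lit 2) (.nd (nat_lit 3) (.nd (nat_lit 4) (.nd (nat_lit 5) 
(.lf (nat_lit 16451) (.g (nat_lit 3438) (.e (nat_lit 1139) (nat_lit 84) (.e (nat_lit 32787) (nat_lit 9) (.e (nat_lit 65610) (nat_lit 10) (.e (nat_lit 344129) (nat_lit 26) (.e (nat_lit 557066) (nat_lit 9) (.e (nat_lit 297) (nat_lit 22) (.e (nat_lit 344077) (nat_lit 13) .nil))))))) (.g (nat_lit 0) .nil .nil))) 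
(.lf (nat_lit 16483) (.g (nat_lit 3164) (.e (nat_lit 1139) (nat_lit 84) (.e (nat_lit 32787) (nat_lit 9) (.e (nat_lit 65628) (nat_lit 14) (.e (nat_lit 401425) (nat_lit 2) (.e (nat_lit 196668) (nat_lit 14) (.e (nat_lit 73789) (nat_lit 45) .nil)))))) (.g (nat_lit 6) .nil .nil)))) (.nd (nat_lit 5) 
(.lf (nat_lit 16467) (.g (nat_lit 2622) (.e (nat_lit 1139) (nat_lit 84) (.e (nat_lit 32787) (nat_lit 9) (.e (nat_lit 65622) (nat_lit 12) (.e (nat_lit 385073) (nat_lit 31) (.e (nat_lit 573487) (nat_lit 14) (.e (nat_lit 73789) (nat_lit 45) .nil)))))) (.g (nat_lit 6) .nil .nil))) 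
(.lf (nat_lit 16499) (.g (nat_lit 2389) (.e (nat_lit 1139) (nat_lit 84) (.e (nat_lit 32788) (nat_lit 10) (.e (nat_lit 73782) (nat_lit 32) (.e (nat_lit 2664) (nat_lit 167) (.e (nat_lit 196668) (nat_lit 14) (.e (nat_lit 73789) (nat_lit 45) .nil)))))) (.g (nat_lit 6) .nil .nil))))) (.nd (nat_lit 4) (.nd (nat_lit 5) 
(.lf (nat_lit 16459) (.g (nat_lit 2929) (.e (nat_lit 1139) (nat_lit 84) (.e (nat_lit 32787) (nat_lit 9) (.e (nat_lit 65617) (nat_lit 10) (.e (nat_lit 344130) (nat_lit 26) (.e (nat_lit 557066) (nat_lit 9) (.e (nat_lit 297) (nat_lit 22) (.e (nat_lit 344077) (nat_lit 13) .nil))))))) (.g (nat_lit 0) .nil .nil))) 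
(.lf (nat_lit 16491) (.g (nat_lit 2528) (.e (nat_lit 1139) (nat_lit 84) (.e (nat_lit 32787) (nat_lit 9) (.e (nat_lit 65630) (nat_lit 14) (.e (nat_lit 401425) (nat_lit 2) (.e (nat_lit 196667) (nat_lit 14) .nil))))) .nil))) (.nd (nat_lit 5) 
(.lf (nat_lit 16475) (.g (nat_lit 3287) (.e (nat_lit 1139) (nat_lit 84) (.e (nat_lit 32787) (nat_lit 9) (.e (nat_lit 65624) (nat_lit 12) (.e (nat_lit 385073) (nat_lit 31) (.e (nat_lit 573487) (nat_lit 14) (.e (nat_lit 73789) (nat_lit 45) .nil)))))) (.g (nat_lit 6) .nil .nil))) 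
(.lf (nat_lit 16507) (.g (nat_lit 798) (.e (nat_lit 1140) (nat_lit 84) (.e (nat_lit 32787) (nat_lit 9) (.e (nat_lit 65583) (nat_lit 7) (.e (nat_lit 319499) (nat_lit 10) (.e (nat_lit 511) (nat_lit 41) .nil))))) .nil))))) (.nd (nat_lit 3) (.nd (nat_lit 4) (.nd (nat_lit 5) 
(.lf (nat_lit 16455) (.g (nat_lit 2003) (.e (nat_lit 1139) (nat_lit 84) (.e (nat_lit 32787) (nat_lit 9) (.e (nat_lit 65611) (nat_lit 10) (.e (nat_lit 344126) (nat_lit 25) (.e (nat_lit 548890) (nat_lit 10) (.e (nat_lit 73789) (nat_lit 45) .nil)))))) (.g (nat_lit 0) .nil .nil))) 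
(.lf (nat_lit 16487) (.g (nat_lit 2212) (.e (nat_lit 1139) (nat_lit 84) (.e (nat_lit 32787) (nat_lit 9) (.e (nat_lit 65630) (nat_lit 14) (.e (nat_lit 401412) (nat_lit 0) (.e (nat_lit 3128) (nat_lit 193) (.e (nat_lit 500071) (nat_lit 19) (.e (nat_lit 73789) (nat_lit 45) .nil))))))) (.g (nat_lit 4) .nil .nil)))) (.nd (nat_lit 5) 
(.lf (nat_lit 16471) (.g (nat_lit 3237) (.e (nat_lit 1139) (nat_lit 84) (.e (nat_lit 32787) (nat_lit 9) (.e (nat_lit 65623) (nat_lit 12) (.e (nat_lit 385072) (nat_lit 31) (.e (nat_lit 573487) (nat_lit 14) (.e (nat_lit 73789) (nat_lit 45) .nil)))))) (.g (nat_lit 6) .nil .nil))) 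
(.lf (nat_lit 16503) (.g (nat_lit 2093) (.e (nat_lit 1139) (nat_lit 84) (.e (nat_lit 32789) (nat_lit 11) (.e (nat_lit 81956) (nat_lit 23) (.e (nat_lit 98320) (nat_lit 17) .nil)))) .nil)))) (.nd (nat_lit 4) (.nd (nat_lit 5) 
(.lf (nat_lit 16463) (.g (nat_lit 2980) (.e (nat_lit 1139) (nat_lit 84) (.e (nat_lit 32787) (nat_lit 9) (.e (nat_lit 65617) (nat_lit 10) (.e (nat_lit 344130) (nat_lit 26) (.e (nat_lit 557087) (nat_lit 11) (.e (nat_lit 24589) (nat_lit 0) (.e (nat_lit 6148) (nat_lit 332) .nil))))))) (.g (nat_lit 0) .nil .nil))) 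
(.lf (nat_lit 16495) (.g (nat_lit 4704) (.e (nat_lit 1139) (nat_lit 84) (.e (nat_lit 32788) (nat_lit 10) (.e (nat_lit 73754) (nat_lit 8) (.e (nat_lit 557105) (nat_lit 14) (.e (nat_lit 180252) (nat_lit 10) (.e (nat_lit 573474) (nat_lit 12) (.e (nat_lit 57507) (nat_lit 39) (.e (nat_lit 647203) (nat_lit 14) .nil)))))))) (.g (nat_lit 6) .nil .nil)))) (.nd (nat_lit 5) 
(.lf (nat_lit 16479) (.g (nat_lit 1551) (.e (nat_lit 1139) (nat_lit 84) (.e (nat_lit 32787) (nat_lit 9) (.e (nat_lit 65628) (nat_lit 14) (.e (nat_lit 401412) (nat_lit 0) (.e (nat_lit 3148) (nat_lit 193) (.e (nat_lit 500071) (nat_lit 19) (.e (nat_lit 73789) (nat_lit 45) .nil))))))) (.g (nat_lit 4) .nil .nil))) 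
(.lf (nat_lit 16511) (.g (nat_lit 1408) (.e (nat_lit 1140) (nat_lit 84) (.e (nat_lit 32787) (nat_lit 9) (.e (nat_lit 65584) (nat_lit 7) (.e (nat_lit 319519) (nat_lit 12) (.e (nat_lit 32788) (nat_lit 10) (.e (nat_lit 73788) (nat_lit 45) .nil)))))) (.g (nat_lit 0) .nil .nil)))))))))

noncomputable def tv223 : DT := (.nd (nat_lit 0) (.nd (nat_lit 1) (.nd (nat_lit 2) (.nd (nat_lit 3) (.nd (nat_lit 4) (.nd (nat_lit 5) 
(.lf (nat_lit 16512) (.g (nat_lit 1545) (.e (nat_lit 1140) (nat_lit 84) (.e (nat_lit 32787) (nat_lit 9) (.e (nat_lit 65584) (nat_lit 7) (.e (nat_lit 319519) (nat_lit 12) (.e (nat_lit 32788) (nat_lit 10) (.e (nat_lit 73789) (nat_lit 45) .nil)))))) (.g (nat_lit 0) .nil .nil))) 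
(.lf (nat_lit 16544) (.g (nat_lit 3697) (.e (nat_lit 1140) (nat_lit 84) (.e (nat_lit 32787) (nat_lit 9) (.e (nat_lit 65610) (nat_lit 10) (.e (nat_lit 344117) (nat_lit 21) (.e (nat_lit 516098) (nat_lit 0) (.e (nat_lit 7583) (nat_lit 405) (.e (nat_lit 57713) (nat_lit 176) .nil))))))) (.g (nat_lit 0) .nil .nil)))) (.nd (nat_lit 5) 
(.lf (nat_lit 16528) (.g (nat_lit 1465) (.e (nat_lit 1140) (nat_lit 84) (.e (nat_lit 32787) (nat_lit 9) (.e (nat_lit 65586) (nat_lit 7) (.e (nat_lit 319519) (nat_lit 12) (.e (nat_lit 32788) (nat_lit 10) (.e (nat_lit 73788) (nat_lit 45) .nil)))))) (.g (nat_lit 0) .nil .nil))) 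
(.lf (nat_lit 16560) (.g (nat_lit 1503) (.e (nat_lit 1140) (nat_lit 84) (.e (nat_lit 32787) (nat_lit 9) (.e (nat_lit 65616) (nat_lit 10) (.e (nat_lit 344126) (nat_lit 25) (.e (nat_lit 548890) (nat_lit 10) (.e (nat_lit 73791) (nat_lit 45) .nil)))))) (.g (nat_lit 0) .nil .nil))))) (.nd (nat_lit 4) (.nd (nat_lit 5) 
(.lf (nat_lit 16520) (.g (nat_lit 1662) (.e (nat_lit 1140) (nat_lit 84) (.e (nat_lit 32787) (nat_lit 9) (.e (nat_lit 65586) (nat_lit 7) (.e (nat_lit 319517) (nat_lit 12) (.e (nat_lit 32788) (nat_lit 10) (.e (nat_lit 73789) (nat_lit 45) .nil)))))) (.g (nat_lit 0) .nil .nil))) 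
(.lf (nat_lit 16552) (.g (nat_lit 2521) (.e (nat_lit 1140) (nat_lit 84) (.e (nat_lit 32787) (nat_lit 9) (.e (nat_lit 65610) (nat_lit 10) (.e (nat_lit 344129) (nat_lit 26) (.e (nat_lit 557087) (nat_lit 11) (.e (nat_lit 24584) (nat_lit 0) (.e (nat_lit 6135) (nat_lit 332) .nil))))))) (.g (nat_lit 6) .nil .nil)))) (.nd (nat_lit 5) 
(.lf (nat_lit 16536) (.g (nat_lit 2698) (.e (nat_lit 1140) (nat_lit 84) (.e (nat_lit 32787) (nat_lit 9) (.e (nat_lit 65604) (nat_lit 9) (.e (nat_lit 336028) (nat_lit 3) (.e (nat_lit 98325) (nat_lit 17) (.e (nat_lit 6986) (nat_lit 377) (.e (nat_lit 2403) (nat_lit 157) (.e (nat_lit 4921) (nat_lit 287) .nil)))))))) (.g (nat_lit 6) .nil .nil))) 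
(.lf (nat_lit 16568) (.g (nat_lit 1975) (.e (nat_lit 1140) (nat_lit 84) (.e (nat_lit 32787) (nat_lit 9) (.e (nat_lit 65617) (nat_lit 10) (.e (nat_lit 344130) (nat_lit 26) (.e (nat_lit 557067) (nat_lit 9) (.e (nat_lit 7936) (nat_lit 22) (.e (nat_lit 344076) (nat_lit 13) .nil))))))) (.g (nat_lit 5) .nil .nil)))))) (.nd (nat_lit 3) (.nd (nat_lit 4) (.nd (nat_lit 5) 
(.lf (nat_lit 16516) (.g (nat_lit 1271) (.e (nat_lit 1140) (nat_lit 84) (.e (nat_lit 32787) (nat_lit 9) (.e (nat_lit 65585) (nat_lit 7) (.e (nat_lit 319519) (nat_lit 12) (.e (nat_lit 32788) (nat_lit 10) (.e (nat_lit 73791) (nat_lit 45) .nil)))))) (.g (nat_lit 0) .nil .nil))) 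
(.lf (nat_lit 16548) (.g (nat_lit 1719) (.e (nat_lit 1140) (nat_lit 84) (.e (nat_lit 32787) (nat_lit 9) (.e (nat_lit 65610) (nat_lit 10) (.e (nat_lit 344126) (nat_lit 25) (.e (nat_lit 548890) (nat_lit 10) (.e (nat_lit 73788) (nat_lit 45) .nil)))))) (.g (nat_lit 0) .nil .nil)))) (.nd (nat_lit 5) 
(.lf (nat_lit 16532) (.g (nat_lit 930) (.e (nat_lit 1140) (nat_lit 84) (.e (nat_lit 32787) (nat_lit 9) (.e (nat_lit 65598) (nat_lit 9) (.e (nat_lit 336013) (nat_lit 2) (.e (nat_lit 98048) (nat_lit 20) .nil))))) .nil)) 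
(.lf (nat_lit 16564) (.g (nat_lit 1384) (.e (nat_lit 1140) (nat_lit 84) (.e (nat_lit 32787) (nat_lit 9) (.e (nat_lit 65617) (nat_lit 10) (.e (nat_lit 344130) (nat_lit 26) (.e (nat_lit 557064) (nat_lit 9) (.e (nat_lit 297) (nat_lit 22) (.e (nat_lit 344077) (nat_lit 13) .nil))))))) (.g (nat_lit 4) .nil .nil))))) (.nd (nat_lit 4) (.nd (nat_lit 5) 
(.lf (nat_lit 16524) (.g (nat_lit 1561) (.e (nat_lit 1140) (nat_lit 84) (.e (nat_lit 32787) (nat_lit 9) (.e (nat_lit 65586) (nat_lit 7) (.e (nat_lit 319518) (nat_lit 12) (.e (nat_lit 32788) (nat_lit 10) (.e (nat_lit 73789) (nat_lit 45) .nil)))))) (.g (nat_lit 0) .nil .nil))) 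
(.lf (nat_lit 16556) (.g (nat_lit 1941) (.e (nat_lit 1140) (nat_lit 84) (.e (nat_lit 32787) (nat_lit 9) (.e (nat_lit 65611) (nat_lit 10) (.e (nat_lit 344126) (nat_lit 25) (.e (nat_lit 548890) (nat_lit 10) (.e (nat_lit 73792) (nat_lit 45) .nil)))))) (.g (nat_lit 0) .nil .nil)))) (.nd (nat_lit 5) 
(.lf (nat_lit 16540) (.g (nat_lit 4675) (.e (nat_lit 1140) (nat_lit 84) (.e (nat_lit 32787) (nat_lit 9) (.e (nat_lit 65610) (nat_lit 10) (.e (nat_lit 344117) (nat_lit 21) (.e (nat_lit 516097) (nat_lit 0) (.e (nat_lit 7581) (nat_lit 405) (.e (nat_lit 57718) (nat_lit 176) .nil))))))) (.g (nat_lit 6) .nil .nil))) 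
(.lf (nat_lit 16572) (.g (nat_lit 2476) (.e (nat_lit 1140) (nat_lit 84) (.e (nat_lit 32787) (nat_lit 9) (.e (nat_lit 65617) (nat_lit 10) (.e (nat_lit 344130) (nat_lit 26) (.e (nat_lit 557087) (nat_lit 11) (.e (nat_lit 24588) (nat_lit 0) (.e (nat_lit 6149) (nat_lit 332) .nil))))))) (.g (nat_lit 6) .nil .nil))))))) (.nd (nat_lit 2) (.nd (nat_lit 3) (.nd (nat_lit 4) (.nd (nat_lit 5) 
(.lf (nat_lit 16514) (.g (nat_lit 1239) (.e (nat_lit 1140) (nat_lit 84) (.e (nat_lit 32787) (nat_lit 9) (.e (nat_lit 65585) (nat_lit 7) (.e (nat_lit 319519) (nat_lit 12) (.e (nat_lit 32788) (nat_lit 10) (.e (nat_lit 73788) (nat_lit 45) .nil)))))) (.g (nat_lit 0) .nil .nil))) 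
(.lf (nat_lit 16546) (.g (nat_lit 3444) (.e (nat_lit 1140) (nat_lit 84) (.e (nat_lit 32787) (nat_lit 9) (.e (nat_lit 65610) (nat_lit 10) (.e (nat_lit 344117) (nat_lit 21) (.e (nat_lit 516099) (nat_lit 0) (.e (nat_lit 7936) (nat_lit 405) (.e (nat_lit 57718) (nat_lit 176) .nil))))))) (.g (nat_lit 4) .nil .nil)))) (.nd (nat_lit 5) 
(.lf (nat_lit 16530) (.g (nat_lit 1502) (.e (nat_lit 1140) (nat_lit 84) (.e (nat_lit 32787) (nat_lit 9) (.e (nat_lit 65586) (nat_lit 7) (.e (nat_lit 319519) (nat_lit 12) (.e (nat_lit 32788) (nat_lit 10) (.e (nat_lit 73791) (nat_lit 45) .nil)))))) (.g (nat_lit 0) .nil .nil))) 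
(.lf (nat_lit 16562) (.g (nat_lit 1959) (.e (nat_lit 1140) (nat_lit 84) (.e (nat_lit 32787) (nat_lit 9) (.e (nat_lit 65617) (nat_lit 10) (.e (nat_lit 344126) (nat_lit 25) (.e (nat_lit 548890) (nat_lit 10) (.e (nat_lit 73789) (nat_lit 45) .nil)))))) (.g (nat_lit 0) .nil .nil))))) (.nd (nat_lit 4) (.nd (nat_lit 5) 
(.lf (nat_lit 16522) (.g (nat_lit 1499) (.e (nat_lit 1140) (nat_lit 84) (.e (nat_lit 32787) (nat_lit 9) (.e (nat_lit 65586) (nat_lit 7) (.e (nat_lit 319517) (nat_lit 12) (.e (nat_lit 32788) (nat_lit 10) (.e (nat_lit 73792) (nat_lit 45) .nil)))))) (.g (nat_lit 5) .nil .nil))) 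
(.lf (nat_lit 16554) (.g (nat_lit 2879) (.e (nat_lit 1140) (nat_lit 84) (.e (nat_lit 32787) (nat_lit 9) (.e (nat_lit 65610) (nat_lit 10) (.e (nat_lit 344129) (nat_lit 26) (.e (nat_lit 557087) (nat_lit 11) (.e (nat_lit 24588) (nat_lit 0) (.e (nat_lit 6149) (nat_lit 332) .nil))))))) (.g (nat_lit 6) .nil .nil)))) (.nd (nat_lit 5) 
(.lf (nat_lit 16538) (.g (nat_lit 2102) (.e (nat_lit 1140) (nat_lit 84) (.e (nat_lit 32787) (nat_lit 9) (.e (nat_lit 65604) (nat_lit 9) (.e (nat_lit 336028) (nat_lit 3) (.e (nat_lit 98325) (nat_lit 17) (.e (nat_lit 7936) (nat_lit 405) (.e (nat_lit 57718) (nat_lit 176) .nil))))))) (.g (nat_lit 5) .nil .nil))) 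
(.lf (nat_lit 16570) (.g (nat_lit 2598) (.e (nat_lit 1140) (nat_lit 84) (.e (nat_lit 32787) (nat_lit 9) (.e (nat_lit 65617) (nat_lit 10) (.e (nat_lit 344130) (nat_lit 26) (.e (nat_lit 557087) (nat_lit 11) (.e (nat_lit 24584) (nat_lit 0) (.e (nat_lit 6135) (nat_lit 332) .nil))))))) (.g (nat_lit 6) .nil .nil)))))) (.nd (nat_lit 3) (.nd (nat_lit 4) (.nd (nat_lit 5) 
(.lf (nat_lit 16518) (.g (nat_lit 1180) (.e (nat_lit 1140) (nat_lit 84) (.e (nat_lit 32787) (nat_lit 9) (.e (nat_lit 65586) (nat_lit 7) (.e (nat_lit 319500) (nat_lit 10) (.e (nat_lit 511) (nat_lit 41) .nil))))) .nil)) 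
(.lf (nat_lit 16550) (.g (nat_lit 3468) (.e (nat_lit 1140) (nat_lit 84) (.e (nat_lit 32787) (nat_lit 9) (.e (nat_lit 65610) (nat_lit 10) (.e (nat_lit 344129) (nat_lit 26) (.e (nat_lit 557066) (nat_lit 9) (.e (nat_lit 297) (nat_lit 22) (.e (nat_lit 344076) (nat_lit 13) .nil))))))) (.g (nat_lit 6) .nil .nil)))) (.nd (nat_lit 5) 
(.lf (nat_lit 16534) (.g (nat_lit 2104) (.e (nat_lit 1140) (nat_lit 84) (.e (nat_lit 32787) (nat_lit 9) (.e (nat_lit 65598) (nat_lit 9) (.e (nat_lit 336028) (nat_lit 3) (.e (nat_lit 98325) (nat_lit 17) (.e (nat_lit 7936) (nat_lit 405) (.e (nat_lit 57714) (nat_lit 176) .nil))))))) (.g (nat_lit 5) .nil .nil))) 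
(.lf (nat_lit 16566) (.g (nat_lit 2806) (.e (nat_lit 1140) (nat_lit 84) (.e (nat_lit 32787) (nat_lit 9) (.e (nat_lit 65617) (nat_lit 10) (.e (nat_lit 344130) (nat_lit 26) (.e (nat_lit 557066) (nat_lit 9) (.e (nat_lit 297) (nat_lit 22) (.e (nat_lit 344076) (nat_lit 13) .nil))))))) (.g (nat_lit 6) .nil .nil))))) (.nd (nat_lit 4) (.nd (nat_lit 5) 
(.lf (nat_lit 16526) (.g (nat_lit 1379) (.e (nat_lit 1140) (nat_lit 84) (.e (nat_lit 32787) (nat_lit 9) (.e (nat_lit 65586) (nat_lit 7) (.e (nat_lit 319518) (nat_lit 12) (.e (nat_lit 32788) (nat_lit 10) (.e (nat_lit 73792) (nat_lit 45) .nil)))))) (.g (nat_lit 5) .nil .nil))) 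
(.lf (nat_lit 16558) (.g (nat_lit 1500) (.e (nat_lit 1140) (nat_lit 84) (.e (nat_lit 32787) (nat_lit 9) (.e (nat_lit 65616) (nat_lit 10) (.e (nat_lit 344126) (nat_lit 25) (.e (nat_lit 548890) (nat_lit 10) (.e (nat_lit 73788) (nat_lit 45) .nil)))))) (.g (nat_lit 0) .nil .nil)))) (.nd (nat_lit 5) 
(.lf (nat_lit 16542) (.g (nat_lit 3210) (.e (nat_lit 1140) (nat_lit 84) (.e (nat_lit 32787) (nat_lit 9) (.e (nat_lit 65610) (nat_lit 10) (.e (nat_lit 344117) (nat_lit 21) (.e (nat_lit 516098) (nat_lit 0) (.e (nat_lit 7581) (nat_lit 405) (.e (nat_lit 57714) (nat_lit 176) .nil))))))) (.g (nat_lit 5) .nil .nil))) 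
(.lf (nat_lit 16574) (.g (nat_lit 2070) (.e (nat_lit 1140) (nat_lit 84) (.e (nat_lit 32787) (nat_lit 9) (.e (nat_lit 65617) (nat_lit 10) (.e (nat_lit 344132) (nat_lit 26) (.e (nat_lit 557072) (nat_lit 9) (.e (nat_lit 7936) (nat_lit 22) (.e (nat_lit 344080) (nat_lit 13) .nil))))))) (.g (nat_lit 5) .nil .nil)))))))) 
(.nd (nat_lit 1) (.nd (nat_lit 2) (.nd (nat_lit 3) (.nd (nat_lit 4) (.nd (nat_lit 5) 
(.lf (nat_lit 16513) (.g (nat_lit 1444) (.e (nat_lit 1140) (nat_lit 84) (.e (nat_lit 32787) (nat_lit 9) (.e (nat_lit 65584) (nat_lit 7) (.e (nat_lit 319519) (nat_lit 12) (.e (nat_lit 32788) (nat_lit 10) (.e (nat_lit 73791) (nat_lit 45) .nil)))))) (.g (nat_lit 0) .nil .nil))) 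
(.lf (nat_lit 16545) (.g (nat_lit 3439) (.e (nat_lit 1140) (nat_lit 84) (.e (nat_lit 32787) (nat_lit 9) (.e (nat_lit 65610) (nat_lit 10) (.e (nat_lit 344117) (nat_lit 21) (.e (nat_lit 516099) (nat_lit 0) .nil))))) .nil))) (.nd (nat_lit 5) 
(.lf (nat_lit 16529) (.g (nat_lit 1591) (.e (nat_lit 1140) (nat_lit 84) (.e (nat_lit 32787) (nat_lit 9) (.e (nat_lit 65586) (nat_lit 7) (.e (nat_lit 319519) (nat_lit 12) (.e (nat_lit 32788) (nat_lit 10) (.e (nat_lit 73789) (nat_lit 45) .nil)))))) (.g (nat_lit 0) .nil .nil))) 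
(.lf (nat_lit 16561) (.g (nat_lit 1778) (.e (nat_lit 1140) (nat_lit 84) (.e (nat_lit 32787) (nat_lit 9) (.e (nat_lit 65617) (nat_lit 10) (.e (nat_lit 344126) (nat_lit 25) (.e (nat_lit 548890) (nat_lit 10) (.e (nat_lit 73788) (nat_lit 45) .nil)))))) (.g (nat_lit 0) .nil .nil))))) (.nd (nat_lit 4) (.nd (nat_lit 5) 
(.lf (nat_lit 16521) (.g (nat_lit 1499) (.e (nat_lit 1140) (nat_lit 84) (.e (nat_lit 32787) (nat_lit 9) (.e (nat_lit 65586) (nat_lit 7) (.e (nat_lit 319517) (nat_lit 12) (.e (nat_lit 32788) (nat_lit 10) (.e (nat_lit 73791) (nat_lit 45) .nil)))))) (.g (nat_lit 6) .nil .nil))) 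
(.lf (nat_lit 16553) (.g (nat_lit 2830) (.e (nat_lit 1140) (nat_lit 84) (.e (nat_lit 32787) (nat_lit 9) (.e (nat_lit 65610) (nat_lit 10) (.e (nat_lit 344129) (nat_lit 26) (.e (nat_lit 557087) (nat_lit 11) (.e (nat_lit 24588) (nat_lit 0) (.e (nat_lit 6092) (nat_lit 332) .nil))))))) (.g (nat_lit 6) .nil .nil)))) (.nd (nat_lit 5) 
(.lf (nat_lit 16537) (.g (nat_lit 1971) (.e (nat_lit 1140) (nat_lit 84) (.e (nat_lit 32787) (nat_lit 9) (.e (nat_lit 65604) (nat_lit 9) (.e (nat_lit 336028) (nat_lit 3) (.e (nat_lit 98325) (nat_lit 17) (.e (nat_lit 7936) (nat_lit 405) (.e (nat_lit 57714) (nat_lit 176) .nil))))))) (.g (nat_lit 5) .nil .nil))) 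
(.lf (nat_lit 16569) (.g (nat_lit 3326) (.e (nat_lit 1140) (nat_lit 84) (.e (nat_lit 32787) (nat_lit 9) (.e (nat_lit 65617) (nat_lit 10) (.e (nat_lit 344130) (nat_lit 26) (.e (nat_lit 557087) (nat_lit 11) (.e (nat_lit 24584) (nat_lit 0) (.e (nat_lit 6092) (nat_lit 332) .nil))))))) (.g (nat_lit 7) .nil .nil)))))) (.nd (nat_lit 3) (.nd (nat_lit 4) (.nd (nat_lit 5) 
(.lf (nat_lit 16517) (.g (nat_lit 998) (.e (nat_lit 1140) (nat_lit 84) (.e (nat_lit 32787) (nat_lit 9) (.e (nat_lit 65586) (nat_lit 7) (.e (nat_lit 319498) (nat_lit 10) (.e (nat_lit 549) (nat_lit 41) .nil))))) .nil)) 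
(.lf (nat_lit 16549) (.g (nat_lit 1649) (.e (nat_lit 1140) (nat_lit 84) (.e (nat_lit 32787) (nat_lit 9) (.e (nat_lit 65610) (nat_lit 10) (.e (nat_lit 344129) (nat_lit 26) (.e (nat_lit 557066) (nat_lit 9) .nil))))) .nil))) (.nd (nat_lit 5) 
(.lf (nat_lit 16533) (.g (nat_lit 2866) (.e (nat_lit 1140) (nat_lit 84) (.e (nat_lit 32787) (nat_lit 9) (.e (nat_lit 65598) (nat_lit 9) (.e (nat_lit 336028) (nat_lit 3) (.e (nat_lit 98325) (nat_lit 17) (.e (nat_lit 6986) (nat_lit 377) (.e (nat_lit 2403) (nat_lit 157) (.e (nat_lit 4921) (nat_lit 287) .nil)))))))) (.g (nat_lit 6) .nil .nil))) 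
(.lf (nat_lit 16565) (.g (nat_lit 2129) (.e (nat_lit 1140) (nat_lit 84) (.e (nat_lit 32787) (nat_lit 9) (.e (nat_lit 65617) (nat_lit 10) (.e (nat_lit 344130) (nat_lit 26) (.e (nat_lit 557065) (nat_lit 9) (.e (nat_lit 305) (nat_lit 22) (.e (nat_lit 344081) (nat_lit 13) .nil))))))) (.g (nat_lit 5) .nil .nil))))) (.nd (nat_lit 4) (.nd (nat_lit 5) 
(.lf (nat_lit 16525) (.g (nat_lit 1379) (.e (nat_lit 1140) (nat_lit 84) (.e (nat_lit 32787) (nat_lit 9) (.e (nat_lit 65586) (nat_lit 7) (.e (nat_lit 319518) (nat_lit 12) (.e (nat_lit 32788) (nat_lit 10) (.e (nat_lit 73791) (nat_lit 45) .nil)))))) (.g (nat_lit 6) .nil .nil))) 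
(.lf (nat_lit 16557) (.g (nat_lit 175) (.e (nat_lit 1140) (nat_lit 84) (.e (nat_lit 32787) (nat_lit 9) (.e (nat_lit 65616) (nat_lit 10) .nil))) .nil))) (.nd (nat_lit 5) 
(.lf (nat_lit 16541) (.g (nat_lit 4458) (.e (nat_lit 1140) (nat_lit 84) (.e (nat_lit 32787) (nat_lit 9) (.e (nat_lit 65610) (nat_lit 10) (.e (nat_lit 344117) (nat_lit 21) (.e (nat_lit 516097) (nat_lit 0) (.e (nat_lit 7583) (nat_lit 405) (.e (nat_lit 57713) (nat_lit 176) .nil))))))) (.g (nat_lit 7) .nil .nil))) 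
(.lf (nat_lit 16573) (.g (nat_lit 2573) (.e (nat_lit 1140) (nat_lit 84) (.e (nat_lit 32787) (nat_lit 9) (.e (nat_lit 65617) (nat_lit 10) (.e (nat_lit 344130) (nat_lit 26) (.e (nat_lit 557087) (nat_lit 11) (.e (nat_lit 24589) (nat_lit 0) (.e (nat_lit 6150) (nat_lit 332) .nil))))))) (.g (nat_lit 6) .nil .nil))))))) (.nd (nat_lit 2) (.nd (nat_lit 3) (.nd (nat_lit 4) (.nd (nat_lit 5) 
(.lf (nat_lit 16515) (.g (nat_lit 1367) (.e (nat_lit 1140) (nat_lit 84) (.e (nat_lit 32787) (nat_lit 9) (.e (nat_lit 65585) (nat_lit 7) (.e (nat_lit 319519) (nat_lit 12) (.e (nat_lit 32788) (nat_lit 10) (.e (nat_lit 73789) (nat_lit 45) .nil)))))) (.g (nat_lit 0) .nil .nil))) 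
(.lf (nat_lit 16547) (.g (nat_lit 3226) (.e (nat_lit 1140) (nat_lit 84) (.e (nat_lit 32787) (nat_lit 9) (.e (nat_lit 65610) (nat_lit 10) (.e (nat_lit 344117) (nat_lit 21) (.e (nat_lit 516106) (nat_lit 0) (.e (nat_lit 7936) (nat_lit 405) (.e (nat_lit 57714) (nat_lit 176) .nil))))))) (.g (nat_lit 5) .nil .nil)))) (.nd (nat_lit 5) 
(.lf (nat_lit 16531) (.g (nat_lit 3452) (.e (nat_lit 1140) (nat_lit 84) (.e (nat_lit 32787) (nat_lit 9) (.e (nat_lit 65598) (nat_lit 9) (.e (nat_lit 336013) (nat_lit 2) (.e (nat_lit 90165) (nat_lit 12) (.e (nat_lit 164208) (nat_lit 176) (.e (nat_lit 2403) (nat_lit 157) (.e (nat_lit 4921) (nat_lit 287) .nil)))))))) (.g (nat_lit 8) .nil .nil))) 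
(.lf (nat_lit 16563) (.g (nat_lit 1785) (.e (nat_lit 1140) (nat_lit 84) (.e (nat_lit 32787) (nat_lit 9) (.e (nat_lit 65617) (nat_lit 10) (.e (nat_lit 344126) (nat_lit 25) (.e (nat_lit 548890) (nat_lit 10) (.e (nat_lit 73791) (nat_lit 45) .nil)))))) (.g (nat_lit 0) .nil .nil))))) (.nd (nat_lit 4) (.nd (nat_lit 5) 
(.lf (nat_lit 16523) (.g (nat_lit 1246) (.e (nat_lit 1140) (nat_lit 84) (.e (nat_lit 32787) (nat_lit 9) (.e (nat_lit 65586) (nat_lit 7) (.e (nat_lit 319518) (nat_lit 12) (.e (nat_lit 32788) (nat_lit 10) (.e (nat_lit 73788) (nat_lit 45) .nil)))))) (.g (nat_lit 5) .nil .nil))) 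
(.lf (nat_lit 16555) (.g (nat_lit 1786) (.e (nat_lit 1140) (nat_lit 84) (.e (nat_lit 32787) (nat_lit 9) (.e (nat_lit 65611) (nat_lit 10) (.e (nat_lit 344126) (nat_lit 25) (.e (nat_lit 548890) (nat_lit 10) (.e (nat_lit 73791) (nat_lit 45) .nil)))))) (.g (nat_lit 0) .nil .nil)))) (.nd (nat_lit 5) 
(.lf (nat_lit 16539) (.g (nat_lit 719) (.e (nat_lit 1140) (nat_lit 84) (.e (nat_lit 32787) (nat_lit 9) (.e (nat_lit 65610) (nat_lit 10) (.e (nat_lit 344115) (nat_lit 20) .nil)))) .nil)) 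
(.lf (nat_lit 16571) (.g (nat_lit 2643) (.e (nat_lit 1140) (nat_lit 84) (.e (nat_lit 32787) (nat_lit 9) (.e (nat_lit 65617) (nat_lit 10) (.e (nat_lit 344130) (nat_lit 26) (.e (nat_lit 557087) (nat_lit 11) (.e (nat_lit 24588) (nat_lit 0) (.e (nat_lit 6092) (nat_lit 332) .nil))))))) (.g (nat_lit 6) .nil .nil)))))) (.nd (nat_lit 3) (.nd (nat_lit 4) (.nd (nat_lit 5) 
(.lf (nat_lit 16519) (.g (nat_lit 1366) (.e (nat_lit 1140) (nat_lit 84) (.e (nat_lit 32787) (nat_lit 9) (.e (nat_lit 65586) (nat_lit 7) (.e (nat_lit 319517) (nat_lit 12) (.e (nat_lit 32788) (nat_lit 10) (.e (nat_lit 73788) (nat_lit 45) .nil)))))) (.g (nat_lit 5) .nil .nil))) 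
(.lf (nat_lit 16551) (.g (nat_lit 2228) (.e (nat_lit 1140) (nat_lit 84) (.e (nat_lit 32787) (nat_lit 9) (.e (nat_lit 65610) (nat_lit 10) (.e (nat_lit 344129) (nat_lit 26) (.e (nat_lit 557067) (nat_lit 9) (.e (nat_lit 7936) (nat_lit 22) (.e (nat_lit 344076) (nat_lit 13) .nil))))))) (.g (nat_lit 5) .nil .nil)))) (.nd (nat_lit 5) 
(.lf (nat_lit 16535) (.g (nat_lit 2235) (.e (nat_lit 1140) (nat_lit 84) (.e (nat_lit 32787) (nat_lit 9) (.e (nat_lit 65598) (nat_lit 9) (.e (nat_lit 336028) (nat_lit 3) (.e (nat_lit 98325) (nat_lit 17) (.e (nat_lit 7936) (nat_lit 405) (.e (nat_lit 57718) (nat_lit 176) .nil))))))) (.g (nat_lit 5) .nil .nil))) 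
(.lf (nat_lit 16567) (.g (nat_lit 2611) (.e (nat_lit 1140) (nat_lit 84) (.e (nat_lit 32787) (nat_lit 9) (.e (nat_lit 65617) (nat_lit 10) (.e (nat_lit 344130) (nat_lit 26) (.e (nat_lit 557066) (nat_lit 9) (.e (nat_lit 307) (nat_lit 22) (.e (nat_lit 344076) (nat_lit 13) .nil))))))) (.g (nat_lit 6) .nil .nil))))) (.nd (nat_lit 4) (.nd (nat_lit 5) 
(.lf (nat_lit 16527) (.g (nat_lit 1559) (.e (nat_lit 1140) (nat_lit 84) (.e (nat_lit 32787) (nat_lit 9) (.e (nat_lit 65586) (nat_lit 7) (.e (nat_lit 319519) (nat_lit 12) (.e (nat_lit 32774) (nat_lit 5) (.e (nat_lit 1543) (nat_lit 109) (.e (nat_lit 344076) (nat_lit 13) .nil))))))) (.g (nat_lit 0) .nil .nil))) 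
(.lf (nat_lit 16559) (.g (nat_lit 1587) (.e (nat_lit 1140) (nat_lit 84) (.e (nat_lit 32787) (nat_lit 9) (.e (nat_lit 65616) (nat_lit 10) (.e (nat_lit 344126) (nat_lit 25) (.e (nat_lit 548890) (nat_lit 10) (.e (nat_lit 73789) (nat_lit 45) .nil)))))) (.g (nat_lit 0) .nil .nil)))) (.nd (nat_lit 5) 
(.lf (nat_lit 16543) (.g (nat_lit 3894) (.e (nat_lit 1140) (nat_lit 84) (.e (nat_lit 32787) (nat_lit 9) (.e (nat_lit 65610) (nat_lit 10) (.e (nat_lit 344117) (nat_lit 21) (.e (nat_lit 516098) (nat_lit 0) (.e (nat_lit 7581) (nat_lit 405) (.e (nat_lit 57718) (nat_lit 176) .nil))))))) (.g (nat_lit 6) .nil .nil))) 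
(.lf (nat_lit 16575) (.g (nat_lit 1511) (.e (nat_lit 1140) (nat_lit 84) (.e (nat_lit 32787) (nat_lit 9) (.e (nat_lit 65617) (nat_lit 10) (.e (nat_lit 344132) (nat_lit 26) (.e (nat_lit 557073) (nat_lit 9) (.e (nat_lit 290) (nat_lit 21) (.e (nat_lit 335933) (nat_lit 0) (.e (nat_lit 6149) (nat_lit 332) .nil)))))))) (.g (nat_lit 4) .nil .nil)))))))))

noncomputable def tv224 : DT := (.nd (nat_lit 0) (.nd (nat_lit 1) (.nd (nat_lit 2) (.nd (nat_lit 3) (.nd (nat_lit 4) (.nd (nat_lit 5) 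
(.lf (nat_lit 16576) (.g (nat_lit 1531) (.e (nat_lit 1140) (nat_lit 84) (.e (nat_lit 32787) (nat_lit 9) (.e (nat_lit 65617) (nat_lit 10) (.e (nat_lit 344132) (nat_lit 26) (.e (nat_lit 557073) (nat_lit 9) (.e (nat_lit 290) (nat_lit 21) (.e (nat_lit 335934) (nat_lit 0) (.e (nat_lit 6149) (nat_lit 332) .nil)))))))) (.g (nat_lit 4) .nil .nil))) 
(.lf (nat_lit 16608) (.g (nat_lit 3381) (.e (nat_lit 1140) (nat_lit 84) (.e (nat_lit 32787) (nat_lit 9) (.e (nat_lit 65624) (nat_lit 12) (.e (nat_lit 385074) (nat_lit 31) (.e (nat_lit 573488) (nat_lit 14) (.e (nat_lit 73788) (nat_lit 45) .nil)))))) (.g (nat_lit 5) .nil .nil)))) (.nd (nat_lit 5) 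
(.lf (nat_lit 16592) (.g (nat_lit 1614) (.e (nat_lit 1140) (nat_lit 84) (.e (nat_lit 32787) (nat_lit 9) (.e (nat_lit 65620) (nat_lit 10) (.e (nat_lit 344126) (nat_lit 25) (.e (nat_lit 548890) (nat_lit 10) (.e (nat_lit 73789) (nat_lit 45) .nil)))))) (.g (nat_lit 0) .nil .nil))) 
(.lf (nat_lit 16624) (.g (nat_lit 2302) (.e (nat_lit 1140) (nat_lit 84) (.e (nat_lit 32787) (nat_lit 9) (.e (nat_lit 65628) (nat_lit 14) (.e (nat_lit 401425) (nat_lit 2) (.e (nat_lit 196628) (nat_lit 9) (.e (nat_lit 7936) (nat_lit 109) (.e (nat_lit 344081) (nat_lit 13) .nil))))))) (.g (nat_lit 4) .nil .nil))))) (.nd (nat_lit 4) (.nd (nat_lit 5) 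
(.lf (nat_lit 16584) (.g (nat_lit 2611) (.e (nat_lit 1140) (nat_lit 84) (.e (nat_lit 32787) (nat_lit 9) (.e (nat_lit 65619) (nat_lit 10) (.e (nat_lit 344117) (nat_lit 21) (.e (nat_lit 516098) (nat_lit 0) (.e (nat_lit 7581) (nat_lit 405) (.e (nat_lit 57713) (nat_lit 176) .nil))))))) (.g (nat_lit 5) .nil .nil))) 
(.lf (nat_lit 16616) (.g (nat_lit 2205) (.e (nat_lit 1140) (nat_lit 84) (.e (nat_lit 32787) (nat_lit 9) (.e (nat_lit 65628) (nat_lit 14) (.e (nat_lit 401412) (nat_lit 0) (.e (nat_lit 3132) (nat_lit 193) (.e (nat_lit 500071) (nat_lit 19) (.e (nat_lit 73789) (nat_lit 45) .nil))))))) (.g (nat_lit 0) .nil .nil)))) (.nd (nat_lit 5) 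
(.lf (nat_lit 16600) (.g (nat_lit 2248) (.e (nat_lit 1140) (nat_lit 84) (.e (nat_lit 32787) (nat_lit 9) (.e (nat_lit 65622) (nat_lit 12) (.e (nat_lit 385074) (nat_lit 31) (.e (nat_lit 573489) (nat_lit 14) (.e (nat_lit 73788) (nat_lit 45) .nil)))))) (.g (nat_lit 6) .nil .nil))) 
(.lf (nat_lit 16632) (.g (nat_lit 3054) (.e (nat_lit 1140) (nat_lit 84) (.e (nat_lit 32787) (nat_lit 9) (.e (nat_lit 65628) (nat_lit 14) (.e (nat_lit 401428) (nat_lit 3) (.e (nat_lit 204863) (nat_lit 27) (.e (nat_lit 344080) (nat_lit 13) .nil)))))) (.g (nat_lit 0) .nil .nil)))))) (.nd (nat_lit 3) (.nd (nat_lit 4) (.nd (nat_lit 5) 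
(.lf (nat_lit 16580) (.g (nat_lit 2930) (.e (nat_lit 1140) (nat_lit 84) (.e (nat_lit 32787) (nat_lit 9) (.e (nat_lit 65619) (nat_lit 10) (.e (nat_lit 344117) (nat_lit 21) (.e (nat_lit 516097) (nat_lit 0) (.e (nat_lit 7581) (nat_lit 405) (.e (nat_lit 57714) (nat_lit 176) .nil))))))) (.g (nat_lit 5) .nil .nil))) 
(.lf (nat_lit 16612) (.g (nat_lit 1468) (.e (nat_lit 1140) (nat_lit 84) (.e (nat_lit 32787) (nat_lit 9) (.e (nat_lit 65628) (nat_lit 14) (.e (nat_lit 401412) (nat_lit 0) (.e (nat_lit 3122) (nat_lit 193) .nil))))) .nil))) (.nd (nat_lit 5) 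
(.lf (nat_lit 16596) (.g (nat_lit 2880) (.e (nat_lit 1140) (nat_lit 84) (.e (nat_lit 32787) (nat_lit 9) (.e (nat_lit 65622) (nat_lit 12) (.e (nat_lit 385074) (nat_lit 31) (.e (nat_lit 573487) (nat_lit 14) (.e (nat_lit 73789) (nat_lit 45) .nil)))))) (.g (nat_lit 0) .nil .nil))) 
(.lf (nat_lit 16628) (.g (nat_lit 3214) (.e (nat_lit 1140) (nat_lit 84) (.e (nat_lit 32787) (nat_lit 9) (.e (nat_lit 65628) (nat_lit 14) (.e (nat_lit 401425) (nat_lit 2) (.e (nat_lit 196670) (nat_lit 14) (.e (nat_lit 73792) (nat_lit 45) .nil)))))) (.g (nat_lit 0) .nil .nil))))) (.nd (nat_lit 4) (.nd (nat_lit 5) 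
(.lf (nat_lit 16588) (.g (nat_lit 1608) (.e (nat_lit 1140) (nat_lit 84) (.e (nat_lit 32787) (nat_lit 9) (.e (nat_lit 65619) (nat_lit 10) (.e (nat_lit 344126) (nat_lit 25) (.e (nat_lit 548890) (nat_lit 10) (.e (nat_lit 73791) (nat_lit 45) .nil)))))) (.g (nat_lit 4) .nil .nil))) 
(.lf (nat_lit 16620) (.g (nat_lit 2021) (.e (nat_lit 1140) (nat_lit 84) (.e (nat_lit 32787) (nat_lit 9) (.e (nat_lit 65628) (nat_lit 14) (.e (nat_lit 401412) (nat_lit 0) (.e (nat_lit 3262) (nat_lit 198) (.e (nat_lit 540700) (nat_lit 10) (.e (nat_lit 344081) (nat_lit 13) .nil))))))) (.g (nat_lit 6) .nil .nil)))) (.nd (nat_lit 5) 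
(.lf (nat_lit 16604) (.g (nat_lit 3543) (.e (nat_lit 1140) (nat_lit 84) (.e (nat_lit 32787) (nat_lit 9) (.e (nat_lit 65623) (nat_lit 12) (.e (nat_lit 385074) (nat_lit 31) (.e (nat_lit 573487) (nat_lit 14) (.e (nat_lit 73792) (nat_lit 45) .nil)))))) (.g (nat_lit 5) .nil .nil))) 
(.lf (nat_lit 16636) (.g (nat_lit 1496) (.e (nat_lit 1140) (nat_lit 84) (.e (nat_lit 32787) (nat_lit 9) (.e (nat_lit 65630) (nat_lit 14) (.e (nat_lit 401412) (nat_lit 0) .nil)))) .nil)))))) (.nd (nat_lit 2) (.nd (nat_lit 3) (.nd (nat_lit 4) (.nd (nat_lit 5) 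
(.lf (nat_lit 16578) (.g (nat_lit 2096) (.e (nat_lit 1140) (nat_lit 84) (.e (nat_lit 32787) (nat_lit 9) (.e (nat_lit 65617) (nat_lit 10) (.e (nat_lit 344133) (nat_lit 26) (.e (nat_lit 557068) (nat_lit 9) (.e (nat_lit 7936) (nat_lit 22) (.e (nat_lit 344076) (nat_lit 13) .nil))))))) (.g (nat_lit 5) .nil .nil))) 
(.lf (nat_lit 16610) (.g (nat_lit 1008) (.e (nat_lit 1140) (nat_lit 84) (.e (nat_lit 32787) (nat_lit 9) (.e (nat_lit 65628) (nat_lit 14) (.e (nat_lit 401412) (nat_lit 0) .nil)))) .nil))) (.nd (nat_lit 5) 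
(.lf (nat_lit 16594) (.g (nat_lit 2972) (.e (nat_lit 1140) (nat_lit 84) (.e (nat_lit 32787) (nat_lit 9) (.e (nat_lit 65622) (nat_lit 12) (.e (nat_lit 385072) (nat_lit 31) (.e (nat_lit 573487) (nat_lit 14) (.e (nat_lit 73789) (nat_lit 45) .nil)))))) (.g (nat_lit 6) .nil .nil))) 
(.lf (nat_lit 16626) (.g (nat_lit 3095) (.e (nat_lit 1140) (nat_lit 84) (.e (nat_lit 32787) (nat_lit 9) (.e (nat_lit 65628) (nat_lit 14) (.e (nat_lit 401425) (nat_lit 2) (.e (nat_lit 196669) (nat_lit 14) (.e (nat_lit 73788) (nat_lit 45) .nil)))))) (.g (nat_lit 0) .nil .nil))))) (.nd (nat_lit 4) (.nd (nat_lit 5) 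
(.lf (nat_lit 16586) (.g (nat_lit 1889) (.e (nat_lit 1140) (nat_lit 84) (.e (nat_lit 32787) (nat_lit 9) (.e (nat_lit 65619) (nat_lit 10) (.e (nat_lit 344117) (nat_lit 21) (.e (nat_lit 516106) (nat_lit 0) (.e (nat_lit 7936) (nat_lit 405) (.e (nat_lit 57714) (nat_lit 176) .nil))))))) (.g (nat_lit 4) .nil .nil))) 
(.lf (nat_lit 16618) (.g (nat_lit 2267) (.e (nat_lit 1140) (nat_lit 84) (.e (nat_lit 32787) (nat_lit 9) (.e (nat_lit 65628) (nat_lit 14) (.e (nat_lit 401412) (nat_lit 0) (.e (nat_lit 3133) (nat_lit 193) (.e (nat_lit 500071) (nat_lit 19) (.e (nat_lit 73789) (nat_lit 45) .nil))))))) (.g (nat_lit 0) .nil .nil)))) (.nd (nat_lit 5) 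
(.lf (nat_lit 16602) (.g (nat_lit 3136) (.e (nat_lit 1140) (nat_lit 84) (.e (nat_lit 32787) (nat_lit 9) (.e (nat_lit 65623) (nat_lit 12) (.e (nat_lit 385072) (nat_lit 31) (.e (nat_lit 573487) (nat_lit 14) (.e (nat_lit 73789) (nat_lit 45) .nil)))))) (.g (nat_lit 6) .nil .nil))) 
(.lf (nat_lit 16634) (.g (nat_lit 1859) (.e (nat_lit 1140) (nat_lit 84) (.e (nat_lit 32787) (nat_lit 9) (.e (nat_lit 65630) (nat_lit 14) (.e (nat_lit 401410) (nat_lit 0) (.e (nat_lit 3114) (nat_lit 193) (.e (nat_lit 500069) (nat_lit 19) (.e (nat_lit 73791) (nat_lit 45) .nil))))))) (.g (nat_lit 4) .nil .nil)))))) (.nd (nat_lit 3) (.nd (nat_lit 4) (.nd (nat_lit 5) 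
(.lf (nat_lit 16582) (.g (nat_lit 3370) (.e (nat_lit 1140) (nat_lit 84) (.e (nat_lit 32787) (nat_lit 9) (.e (nat_lit 65619) (nat_lit 10) (.e (nat_lit 344117) (nat_lit 21) (.e (nat_lit 516097) (nat_lit 0) (.e (nat_lit 7583) (nat_lit 405) (.e (nat_lit 57713) (nat_lit 176) .nil))))))) (.g (nat_lit 7) .nil .nil))) 
(.lf (nat_lit 16614) (.g (nat_lit 2198) (.e (nat_lit 1140) (nat_lit 84) (.e (nat_lit 32787) (nat_lit 9) (.e (nat_lit 65628) (nat_lit 14) (.e (nat_lit 401412) (nat_lit 0) (.e (nat_lit 3123) (nat_lit 193) (.e (nat_lit 500071) (nat_lit 19) (.e (nat_lit 73789) (nat_lit 45) .nil))))))) (.g (nat_lit 0) .nil .nil)))) (.nd (nat_lit 5) 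
(.lf (nat_lit 16598) (.g (nat_lit 2804) (.e (nat_lit 1140) (nat_lit 84) (.e (nat_lit 32787) (nat_lit 9) (.e (nat_lit 65622) (nat_lit 12) (.e (nat_lit 385074) (nat_lit 31) (.e (nat_lit 573487) (nat_lit 14) (.e (nat_lit 73792) (nat_lit 45) .nil)))))) (.g (nat_lit 0) .nil .nil))) 
(.lf (nat_lit 16630) (.g (nat_lit 2702) (.e (nat_lit 1140) (nat_lit 84) (.e (nat_lit 32787) (nat_lit 9) (.e (nat_lit 65628) (nat_lit 14) (.e (nat_lit 401428) (nat_lit 3) (.e (nat_lit 204862) (nat_lit 27) (.e (nat_lit 344076) (nat_lit 13) .nil)))))) (.g (nat_lit 0) .nil .nil))))) (.nd (nat_lit 4) (.nd (nat_lit 5) 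
(.lf (nat_lit 16590) (.g (nat_lit 3058) (.e (nat_lit 1140) (nat_lit 84) (.e (nat_lit 32787) (nat_lit 9) (.e (nat_lit 65619) (nat_lit 10) (.e (nat_lit 344129) (nat_lit 26) (.e (nat_lit 557066) (nat_lit 9) (.e (nat_lit 297) (nat_lit 22) (.e (nat_lit 344076) (nat_lit 13) .nil))))))) (.g (nat_lit 6) .nil .nil))) 
(.lf (nat_lit 16622) (.g (nat_lit 2747) (.e (nat_lit 1140) (nat_lit 84) (.e (nat_lit 32787) (nat_lit 9) (.e (nat_lit 65628) (nat_lit 14) (.e (nat_lit 401424) (nat_lit 2) (.e (nat_lit 196668) (nat_lit 14) (.e (nat_lit 73789) (nat_lit 45) .nil)))))) (.g (nat_lit 6) .nil .nil)))) (.nd (nat_lit 5) 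
(.lf (nat_lit 16606) (.g (nat_lit 3250) (.e (nat_lit 1140) (nat_lit 84) (.e (nat_lit 32787) (nat_lit 9) (.e (nat_lit 65624) (nat_lit 12) (.e (nat_lit 385073) (nat_lit 31) (.e (nat_lit 573487) (nat_lit 14) (.e (nat_lit 73789) (nat_lit 45) .nil)))))) (.g (nat_lit 6) .nil .nil))) 
(.lf (nat_lit 16638) (.g (nat_lit 2690) (.e (nat_lit 1140) (nat_lit 84) (.e (nat_lit 32787) (nat_lit 9) (.e (nat_lit 65630) (nat_lit 14) (.e (nat_lit 401412) (nat_lit 0) (.e (nat_lit 3114) (nat_lit 193) (.e (nat_lit 500069) (nat_lit 19) (.e (nat_lit 73791) (nat_lit 45) .nil))))))) (.g (nat_lit 7) .nil .nil)))))))) 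
(.nd (nat_lit 1) (.nd (nat_lit 2) (.nd (nat_lit 3) (.nd (nat_lit 4) (.nd (nat_lit 5) 
(.lf (nat_lit 16577) (.g (nat_lit 1784) (.e (nat_lit 1140) (nat_lit 84) (.e (nat_lit 32787) (nat_lit 9) (.e (nat_lit 65617) (nat_lit 10) (.e (nat_lit 344132) (nat_lit 26) (.e (nat_lit 557073) (nat_lit 9) (.e (nat_lit 7936) (nat_lit 22) (.e (nat_lit 344076) (nat_lit 13) .nil))))))) (.g (nat_lit 5) .nil .nil))) 
(.lf (nat_lit 16609) (.g (nat_lit 1175) (.e (nat_lit 1140) (nat_lit 84) (.e (nat_lit 32787) (nat_lit 9) (.e (nat_lit 65628) (nat_lit 14) (.e (nat_lit 401411) (nat_lit 0) (.e (nat_lit 3114) (nat_lit 193) (.e (nat_lit 500069) (nat_lit 19) (.e (nat_lit 73791) (nat_lit 45) .nil))))))) (.g (nat_lit 4) .nil .nil)))) (.nd (nat_lit 5) 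
(.lf (nat_lit 16593) (.g (nat_lit 1513) (.e (nat_lit 1140) (nat_lit 84) (.e (nat_lit 32787) (nat_lit 9) (.e (nat_lit 65620) (nat_lit 10) (.e (nat_lit 344126) (nat_lit 25) (.e (nat_lit 548890) (nat_lit 10) (.e (nat_lit 73791) (nat_lit 45) .nil)))))) (.g (nat_lit 0) .nil .nil))) 
(.lf (nat_lit 16625) (.g (nat_lit 3091) (.e (nat_lit 1140) (nat_lit 84) (.e (nat_lit 32787) (nat_lit 9) (.e (nat_lit 65628) (nat_lit 14) (.e (nat_lit 401425) (nat_lit 2) (.e (nat_lit 196668) (nat_lit 14) (.e (nat_lit 73789) (nat_lit 45) .nil)))))) (.g (nat_lit 0) .nil .nil))))) (.nd (nat_lit 4) (.nd (nat_lit 5) 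
(.lf (nat_lit 16585) (.g (nat_lit 2610) (.e (nat_lit 1140) (nat_lit 84) (.e (nat_lit 32787) (nat_lit 9) (.e (nat_lit 65619) (nat_lit 10) (.e (nat_lit 344117) (nat_lit 21) (.e (nat_lit 516098) (nat_lit 0) (.e (nat_lit 7583) (nat_lit 405) (.e (nat_lit 57713) (nat_lit 176) .nil))))))) (.g (nat_lit 5) .nil .nil))) 
(.lf (nat_lit 16617) (.g (nat_lit 1446) (.e (nat_lit 1140) (nat_lit 84) (.e (nat_lit 32787) (nat_lit 9) (.e (nat_lit 65628) (nat_lit 14) (.e (nat_lit 401412) (nat_lit 0) (.e (nat_lit 3133) (nat_lit 193) .nil))))) .nil))) (.nd (nat_lit 5) 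
(.lf (nat_lit 16601) (.g (nat_lit 2373) (.e (nat_lit 1140) (nat_lit 84) (.e (nat_lit 32787) (nat_lit 9) (.e (nat_lit 65622) (nat_lit 12) (.e (nat_lit 385074) (nat_lit 31) (.e (nat_lit 573489) (nat_lit 14) (.e (nat_lit 73792) (nat_lit 45) .nil)))))) (.g (nat_lit 6) .nil .nil))) 
(.lf (nat_lit 16633) (.g (nat_lit 3054) (.e (nat_lit 1140) (nat_lit 84) (.e (nat_lit 32787) (nat_lit 9) (.e (nat_lit 65628) (nat_lit 14) (.e (nat_lit 401428) (nat_lit 3) (.e (nat_lit 204863) (nat_lit 27) (.e (nat_lit 344081) (nat_lit 13) .nil)))))) (.g (nat_lit 0) .nil .nil)))))) (.nd (nat_lit 3) (.nd (nat_lit 4) (.nd (nat_lit 5) 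
(.lf (nat_lit 16581) (.g (nat_lit 3614) (.e (nat_lit 1140) (nat_lit 84) (.e (nat_lit 32787) (nat_lit 9) (.e (nat_lit 65619) (nat_lit 10) (.e (nat_lit 344117) (nat_lit 21) (.e (nat_lit 516097) (nat_lit 0) (.e (nat_lit 7581) (nat_lit 405) (.e (nat_lit 57718) (nat_lit 176) .nil))))))) (.g (nat_lit 6) .nil .nil))) 
(.lf (nat_lit 16613) (.g (nat_lit 2230) (.e (nat_lit 1140) (nat_lit 84) (.e (nat_lit 32787) (nat_lit 9) (.e (nat_lit 65628) (nat_lit 14) (.e (nat_lit 401412) (nat_lit 0) (.e (nat_lit 3122) (nat_lit 193) (.e (nat_lit 500071) (nat_lit 19) (.e (nat_lit 73789) (nat_lit 45) .nil))))))) (.g (nat_lit 0) .nil .nil)))) (.nd (nat_lit 5) 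
(.lf (nat_lit 16597) (.g (nat_lit 2338) (.e (nat_lit 1140) (nat_lit 84) (.e (nat_lit 32787) (nat_lit 9) (.e (nat_lit 65622) (nat_lit 12) (.e (nat_lit 385074) (nat_lit 31) (.e (nat_lit 573487) (nat_lit 14) (.e (nat_lit 73791) (nat_lit 45) .nil)))))) (.g (nat_lit 0) .nil .nil))) 
(.lf (nat_lit 16629) (.g (nat_lit 2430) (.e (nat_lit 1140) (nat_lit 84) (.e (nat_lit 32787) (nat_lit 9) (.e (nat_lit 65628) (nat_lit 14) (.e (nat_lit 401425) (nat_lit 2) (.e (nat_lit 204544) (nat_lit 14) .nil))))) .nil)))) (.nd (nat_lit 4) (.nd (nat_lit 5) 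
(.lf (nat_lit 16589) (.g (nat_lit 1969) (.e (nat_lit 1140) (nat_lit 84) (.e (nat_lit 32787) (nat_lit 9) (.e (nat_lit 65619) (nat_lit 10) (.e (nat_lit 344126) (nat_lit 25) (.e (nat_lit 548890) (nat_lit 10) (.e (nat_lit 73792) (nat_lit 45) .nil)))))) (.g (nat_lit 5) .nil .nil))) 
(.lf (nat_lit 16621) (.g (nat_lit 2621) (.e (nat_lit 1140) (nat_lit 84) (.e (nat_lit 32787) (nat_lit 9) (.e (nat_lit 65628) (nat_lit 14) (.e (nat_lit 401423) (nat_lit 2) (.e (nat_lit 196668) (nat_lit 14) (.e (nat_lit 73789) (nat_lit 45) .nil)))))) (.g (nat_lit 6) .nil .nil)))) (.nd (nat_lit 5) 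
(.lf (nat_lit 16605) (.g (nat_lit 3375) (.e (nat_lit 1140) (nat_lit 84) (.e (nat_lit 32787) (nat_lit 9) (.e (nat_lit 65624) (nat_lit 12) (.e (nat_lit 385072) (nat_lit 31) (.e (nat_lit 573487) (nat_lit 14) (.e (nat_lit 73789) (nat_lit 45) .nil)))))) (.g (nat_lit 6) .nil .nil))) 
(.lf (nat_lit 16637) (.g (nat_lit 2229) (.e (nat_lit 1140) (nat_lit 84) (.e (nat_lit 32787) (nat_lit 9) (.e (nat_lit 65630) (nat_lit 14) (.e (nat_lit 401412) (nat_lit 0) (.e (nat_lit 3107) (nat_lit 193) .nil))))) .nil)))))) (.nd (nat_lit 2) (.nd (nat_lit 3) (.nd (nat_lit 4) (.nd (nat_lit 5) 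
(.lf (nat_lit 16579) (.g (nat_lit 3363) (.e (nat_lit 1140) (nat_lit 84) (.e (nat_lit 32787) (nat_lit 9) (.e (nat_lit 65619) (nat_lit 10) (.e (nat_lit 344117) (nat_lit 21) (.e (nat_lit 516097) (nat_lit 0) (.e (nat_lit 7581) (nat_lit 405) (.e (nat_lit 57713) (nat_lit 176) .nil))))))) (.g (nat_lit 6) .nil .nil))) 
(.lf (nat_lit 16611) (.g (nat_lit 1984) (.e (nat_lit 1140) (nat_lit 84) (.e (nat_lit 32787) (nat_lit 9) (.e (nat_lit 65628) (nat_lit 14) (.e (nat_lit 401412) (nat_lit 0) (.e (nat_lit 3114) (nat_lit 193) (.e (nat_lit 500069) (nat_lit 19) (.e (nat_lit 73791) (nat_lit 45) .nil))))))) (.g (nat_lit 7) .nil .nil)))) (.nd (nat_lit 5) 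
(.lf (nat_lit 16595) (.g (nat_lit 2477) (.e (nat_lit 1140) (nat_lit 84) (.e (nat_lit 32787) (nat_lit 9) (.e (nat_lit 65622) (nat_lit 12) (.e (nat_lit 385073) (nat_lit 31) (.e (nat_lit 573487) (nat_lit 14) (.e (nat_lit 73789) (nat_lit 45) .nil)))))) (.g (nat_lit 6) .nil .nil))) 
(.lf (nat_lit 16627) (.g (nat_lit 2787) (.e (nat_lit 1140) (nat_lit 84) (.e (nat_lit 32787) (nat_lit 9) (.e (nat_lit 65628) (nat_lit 14) (.e (nat_lit 401425) (nat_lit 2) (.e (nat_lit 196670) (nat_lit 14) (.e (nat_lit 73791) (nat_lit 45) .nil)))))) (.g (nat_lit 0) .nil .nil))))) (.nd (nat_lit 4) (.nd (nat_lit 5) 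
(.lf (nat_lit 16587) (.g (nat_lit 2012) (.e (nat_lit 1140) (nat_lit 84) (.e (nat_lit 32787) (nat_lit 9) (.e (nat_lit 65619) (nat_lit 10) (.e (nat_lit 344117) (nat_lit 21) (.e (nat_lit 516106) (nat_lit 0) (.e (nat_lit 7936) (nat_lit 405) (.e (nat_lit 57718) (nat_lit 176) .nil))))))) (.g (nat_lit 4) .nil .nil))) 
(.lf (nat_lit 16619) (.g (nat_lit 1559) (.e (nat_lit 1140) (nat_lit 84) (.e (nat_lit 32787) (nat_lit 9) (.e (nat_lit 65628) (nat_lit 14) (.e (nat_lit 401412) (nat_lit 0) (.e (nat_lit 3148) (nat_lit 193) (.e (nat_lit 500071) (nat_lit 19) (.e (nat_lit 73789) (nat_lit 45) .nil))))))) (.g (nat_lit 5) .nil .nil)))) (.nd (nat_lit 5) 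
(.lf (nat_lit 16603) (.g (nat_lit 2746) (.e (nat_lit 1140) (nat_lit 84) (.e (nat_lit 32787) (nat_lit 9) (.e (nat_lit 65623) (nat_lit 12) (.e (nat_lit 385073) (nat_lit 31) (.e (nat_lit 573487) (nat_lit 14) (.e (nat_lit 73789) (nat_lit 45) .nil)))))) (.g (nat_lit 6) .nil .nil))) 
(.lf (nat_lit 16635) (.g (nat_lit 1980) (.e (nat_lit 1140) (nat_lit 84) (.e (nat_lit 32787) (nat_lit 9) (.e (nat_lit 65630) (nat_lit 14) (.e (nat_lit 401410) (nat_lit 0) (.e (nat_lit 3262) (nat_lit 198) (.e (nat_lit 540700) (nat_lit 10) (.e (nat_lit 344081) (nat_lit 13) .nil))))))) (.g (nat_lit 4) .nil .nil)))))) (.nd (nat_lit 3) (.nd (nat_lit 4) (.nd (nat_lit 5) 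
(.lf (nat_lit 16583) (.g (nat_lit 2690) (.e (nat_lit 1140) (nat_lit 84) (.e (nat_lit 32787) (nat_lit 9) (.e (nat_lit 65619) (nat_lit 10) (.e (nat_lit 344117) (nat_lit 21) (.e (nat_lit 516097) (nat_lit 0) (.e (nat_lit 7583) (nat_lit 405) (.e (nat_lit 57714) (nat_lit 176) .nil))))))) (.g (nat_lit 5) .nil .nil))) 
(.lf (nat_lit 16615) (.g (nat_lit 1558) (.e (nat_lit 1140) (nat_lit 84) (.e (nat_lit 32787) (nat_lit 9) (.e (nat_lit 65628) (nat_lit 14) (.e (nat_lit 401412) (nat_lit 0) (.e (nat_lit 3128) (nat_lit 193) (.e (nat_lit 500071) (nat_lit 19) (.e (nat_lit 73789) (nat_lit 45) .nil))))))) (.g (nat_lit 5) .nil .nil)))) (.nd (nat_lit 5) 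
(.lf (nat_lit 16599) (.g (nat_lit 2807) (.e (nat_lit 1140) (nat_lit 84) (.e (nat_lit 32787) (nat_lit 9) (.e (nat_lit 65622) (nat_lit 12) (.e (nat_lit 385074) (nat_lit 31) (.e (nat_lit 573489) (nat_lit 14) (.e (nat_lit 73786) (nat_lit 45) .nil)))))) (.g (nat_lit 6) .nil .nil))) 
(.lf (nat_lit 16631) (.g (nat_lit 2323) (.e (nat_lit 1140) (nat_lit 84) (.e (nat_lit 32787) (nat_lit 9) (.e (nat_lit 65628) (nat_lit 14) (.e (nat_lit 401428) (nat_lit 3) (.e (nat_lit 204862) (nat_lit 27) (.e (nat_lit 344080) (nat_lit 13) .nil)))))) (.g (nat_lit 5) .nil .nil))))) (.nd (nat_lit 4) (.nd (nat_lit 5) 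
(.lf (nat_lit 16591) (.g (nat_lit 1504) (.e (nat_lit 1140) (nat_lit 84) (.e (nat_lit 32787) (nat_lit 9) (.e (nat_lit 65620) (nat_lit 10) (.e (nat_lit 344126) (nat_lit 25) (.e (nat_lit 548890) (nat_lit 10) (.e (nat_lit 73788) (nat_lit 45) .nil)))))) (.g (nat_lit 0) .nil .nil))) 
(.lf (nat_lit 16623) (.g (nat_lit 3048) (.e (nat_lit 1140) (nat_lit 84) (.e (nat_lit 32787) (nat_lit 9) (.e (nat_lit 65628) (nat_lit 14) (.e (nat_lit 401424) (nat_lit 2) (.e (nat_lit 196670) (nat_lit 14) (.e (nat_lit 73792) (nat_lit 45) .nil)))))) (.g (nat_lit 0) .nil .nil)))) (.nd (nat_lit 5) 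
(.lf (nat_lit 16607) (.g (nat_lit 3176) (.e (nat_lit 1140) (nat_lit 84) (.e (nat_lit 32787) (nat_lit 9) (.e (nat_lit 65624) (nat_lit 12) (.e (nat_lit 385074) (nat_lit 31) (.e (nat_lit 573487) (nat_lit 14) (.e (nat_lit 73792) (nat_lit 45) .nil)))))) (.g (nat_lit 0) .nil .nil))) 
(.lf (nat_lit 16639) (.g (nat_lit 2237) (.e (nat_lit 1140) (nat_lit 84) (.e (nat_lit 32787) (nat_lit 9) (.e (nat_lit 65630) (nat_lit 14) (.e (nat_lit 401412) (nat_lit 0) (.e (nat_lit 3122) (nat_lit 193) .nil))))) .nil))))))))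

noncomputable def tv225 : DT := (.nd (nat_lit 0) (.nd (nat_lit 1) (.nd (nat_lit 2) (.nd (nat_lit 3) (.nd (nat_lit 4) (.nd (nat_lit 5) 
(.lf (nat_lit 16640) (.g (nat_lit 2214) (.e (nat_lit 1140) (nat_lit 84) (.e (nat_lit 32787) (nat_lit 9) (.e (nat_lit 65630) (nat_lit 14) (.e (nat_lit 401412) (nat_lit 0) (.e (nat_lit 3133) (nat_lit 193) .nil))))) .nil)) 
(.lf (nat_lit 16672) (.g (nat_lit 945) (.e (nat_lit 1140) (nat_lit 84) (.e (nat_lit 32788) (nat_lit 10) (.e (nat_lit 73791) (nat_lit 45) (.e (nat_lit 1141) (nat_lit 84) (.e (nat_lit 32788) (nat_lit 10) (.e (nat_lit 73788) (nat_lit 45) .nil)))))) (.g (nat_lit 0) .nil .nil)))) (.nd (nat_lit 5) 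
(.lf (nat_lit 16656) (.g (nat_lit 4045) (.e (nat_lit 1140) (nat_lit 84) (.e (nat_lit 32787) (nat_lit 9) (.e (nat_lit 65630) (nat_lit 14) (.e (nat_lit 401428) (nat_lit 3) (.e (nat_lit 204863) (nat_lit 27) (.e (nat_lit 344074) (nat_lit 13) .nil)))))) (.g (nat_lit 0) .nil .nil))) 
(.lf (nat_lit 16688) (.g (nat_lit 1428) (.e (nat_lit 1140) (nat_lit 84) (.e (nat_lit 32789) (nat_lit 11) (.e (nat_lit 81947) (nat_lit 20) (.e (nat_lit 1841) (nat_lit 123) (.e (nat_lit 548890) (nat_lit 10) (.e (nat_lit 73789) (nat_lit 45) .nil)))))) (.g (nat_lit 0) .nil .nil))))) (.nd (nat_lit 4) (.nd (nat_lit 5) 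
(.lf (nat_lit 16648) (.g (nat_lit 3358) (.e (nat_lit 1140) (nat_lit 84) (.e (nat_lit 32787) (nat_lit 9) (.e (nat_lit 65630) (nat_lit 14) (.e (nat_lit 401425) (nat_lit 2) (.e (nat_lit 196670) (nat_lit 14) (.e (nat_lit 73792) (nat_lit 45) .nil)))))) (.g (nat_lit 0) .nil .nil))) 
(.lf (nat_lit 16680) (.g (nat_lit 1481) (.e (nat_lit 1140) (nat_lit 84) (.e (nat_lit 32789) (nat_lit 11) (.e (nat_lit 81939) (nat_lit 20) (.e (nat_lit 1842) (nat_lit 123) (.e (nat_lit 548890) (nat_lit 10) (.e (nat_lit 73789) (nat_lit 45) .nil)))))) (.g (nat_lit 0) .nil .nil)))) (.nd (nat_lit 5) 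
(.lf (nat_lit 16664) (.g (nat_lit 1974) (.e (nat_lit 1140) (nat_lit 84) (.e (nat_lit 32788) (nat_lit 10) (.e (nat_lit 73782) (nat_lit 32) (.e (nat_lit 2682) (nat_lit 168) (.e (nat_lit 204863) (nat_lit 27) (.e (nat_lit 344081) (nat_lit 13) .nil)))))) (.g (nat_lit 0) .nil .nil))) 
(.lf (nat_lit 16696) (.g (nat_lit 1680) (.e (nat_lit 1141) (nat_lit 84) (.e (nat_lit 32783) (nat_lit 7) (.e (nat_lit 16436) (nat_lit 9) (.e (nat_lit 426131) (nat_lit 3) (.e (nat_lit 204880) (nat_lit 32) (.e (nat_lit 385093) (nat_lit 49) (.e (nat_lit 778510) (nat_lit 14) .nil))))))) (.g (nat_lit 4) .nil .nil)))))) (.nd (nat_lit 3) (.nd (nat_lit 4) (.nd (nat_lit 5) 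
(.lf (nat_lit 16644) (.g (nat_lit 3375) (.e (nat_lit 1140) (nat_lit 84) (.e (nat_lit 32787) (nat_lit 9) (.e (nat_lit 65630) (nat_lit 14) (.e (nat_lit 401424) (nat_lit 2) (.e (nat_lit 196670) (nat_lit 14) (.e (nat_lit 73792) (nat_lit 45) .nil)))))) (.g (nat_lit 6) .nil .nil))) 
(.lf (nat_lit 16676) (.g (nat_lit 432) (.e (nat_lit 1140) (nat_lit 84) (.e (nat_lit 32789) (nat_lit 11) (.e (nat_lit 81939) (nat_lit 20) (.e (nat_lit 1840) (nat_lit 123) (.e (nat_lit 548890) (nat_lit 10) .nil))))) .nil))) (.nd (nat_lit 5) 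
(.lf (nat_lit 16660) (.g (nat_lit 2974) (.e (nat_lit 1140) (nat_lit 84) (.e (nat_lit 32788) (nat_lit 10) (.e (nat_lit 73781) (nat_lit 32) (.e (nat_lit 2663) (nat_lit 167) (.e (nat_lit 196670) (nat_lit 14) (.e (nat_lit 73792) (nat_lit 45) .nil)))))) (.g (nat_lit 6) .nil .nil))) 
(.lf (nat_lit 16692) (.g (nat_lit 3060) (.e (nat_lit 1140) (nat_lit 84) (.e (nat_lit 32789) (nat_lit 11) (.e (nat_lit 81956) (nat_lit 23) (.e (nat_lit 98320) (nat_lit 17) (.e (nat_lit 7581) (nat_lit 405) .nil))))) .nil)))) (.nd (nat_lit 4) (.nd (nat_lit 5) 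
(.lf (nat_lit 16652) (.g (nat_lit 3009) (.e (nat_lit 1140) (nat_lit 84) (.e (nat_lit 32787) (nat_lit 9) (.e (nat_lit 65630) (nat_lit 14) (.e (nat_lit 401427) (nat_lit 3) (.e (nat_lit 204863) (nat_lit 27) (.e (nat_lit 344080) (nat_lit 13) .nil)))))) (.g (nat_lit 5) .nil .nil))) 
(.lf (nat_lit 16684) (.g (nat_lit 1368) (.e (nat_lit 1140) (nat_lit 84) (.e (nat_lit 32789) (nat_lit 11) (.e (nat_lit 81943) (nat_lit 20) (.e (nat_lit 1842) (nat_lit 123) (.e (nat_lit 548890) (nat_lit 10) (.e (nat_lit 73788) (nat_lit 45) .nil)))))) (.g (nat_lit 0) .nil .nil)))) (.nd (nat_lit 5) 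
(.lf (nat_lit 16668) (.g (nat_lit 933) (.e (nat_lit 1140) (nat_lit 84) (.e (nat_lit 32788) (nat_lit 10) (.e (nat_lit 73788) (nat_lit 45) (.e (nat_lit 1141) (nat_lit 84) (.e (nat_lit 32788) (nat_lit 10) (.e (nat_lit 73788) (nat_lit 45) .nil)))))) (.g (nat_lit 0) .nil .nil))) 
(.lf (nat_lit 16700) (.g (nat_lit 1483) (.e (nat_lit 1141) (nat_lit 84) (.e (nat_lit 32787) (nat_lit 9) (.e (nat_lit 65583) (nat_lit 7) (.e (nat_lit 319519) (nat_lit 12) (.e (nat_lit 32774) (nat_lit 5) (.e (nat_lit 1543) (nat_lit 109) (.e (nat_lit 344076) (nat_lit 13) .nil))))))) (.g (nat_lit 0) .nil .nil))))))) (.nd (nat_lit 2) (.nd (nat_lit 3) (.nd (nat_lit 4) (.nd (nat_lit 5) 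
(.lf (nat_lit 16642) (.g (nat_lit 2955) (.e (nat_lit 1140) (nat_lit 84) (.e (nat_lit 32787) (nat_lit 9) (.e (nat_lit 65630) (nat_lit 14) (.e (nat_lit 401423) (nat_lit 2) (.e (nat_lit 196668) (nat_lit 14) (.e (nat_lit 73789) (nat_lit 45) .nil)))))) (.g (nat_lit 6) .nil .nil))) 
(.lf (nat_lit 16674) (.g (nat_lit 1275) (.e (nat_lit 1140) (nat_lit 84) (.e (nat_lit 32788) (nat_lit 10) (.e (nat_lit 73792) (nat_lit 45) (.e (nat_lit 1141) (nat_lit 84) (.e (nat_lit 32788) (nat_lit 10) (.e (nat_lit 73789) (nat_lit 45) .nil)))))) (.g (nat_lit 0) .nil .nil)))) (.nd (nat_lit 5) 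
(.lf (nat_lit 16658) (.g (nat_lit 3069) (.e (nat_lit 1140) (nat_lit 84) (.e (nat_lit 32787) (nat_lit 9) (.e (nat_lit 65630) (nat_lit 14) (.e (nat_lit 401428) (nat_lit 3) (.e (nat_lit 204863) (nat_lit 27) (.e (nat_lit 344081) (nat_lit 13) .nil)))))) (.g (nat_lit 0) .nil .nil))) 
(.lf (nat_lit 16690) (.g (nat_lit 2024) (.e (nat_lit 1140) (nat_lit 84) (.e (nat_lit 32789) (nat_lit 11) (.e (nat_lit 81947) (nat_lit 20) (.e (nat_lit 1842) (nat_lit 123) (.e (nat_lit 548890) (nat_lit 10) (.e (nat_lit 73789) (nat_lit 45) .nil)))))) (.g (nat_lit 0) .nil .nil))))) (.nd (nat_lit 4) (.nd (nat_lit 5) 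
(.lf (nat_lit 16650) (.g (nat_lit 2359) (.e (nat_lit 1140) (nat_lit 84) (.e (nat_lit 32787) (nat_lit 9) (.e (nat_lit 65630) (nat_lit 14) (.e (nat_lit 401427) (nat_lit 3) (.e (nat_lit 204862) (nat_lit 27) .nil))))) .nil)) 
(.lf (nat_lit 16682) (.g (nat_lit 1160) (.e (nat_lit 1140) (nat_lit 84) (.e (nat_lit 32789) (nat_lit 11) (.e (nat_lit 81943) (nat_lit 20) (.e (nat_lit 1840) (nat_lit 123) (.e (nat_lit 548890) (nat_lit 10) (.e (nat_lit 73792) (nat_lit 45) .nil)))))) (.g (nat_lit 0) .nil .nil)))) (.nd (nat_lit 5) 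
(.lf (nat_lit 16666) (.g (nat_lit 842) (.e (nat_lit 1140) (nat_lit 84) (.e (nat_lit 32788) (nat_lit 10) (.e (nat_lit 73788) (nat_lit 45) (.e (nat_lit 1140) (nat_lit 84) (.e (nat_lit 32788) (nat_lit 10) (.e (nat_lit 73788) (nat_lit 45) .nil)))))) (.g (nat_lit 0) .nil .nil))) 
(.lf (nat_lit 16698) (.g (nat_lit 796) (.e (nat_lit 1141) (nat_lit 84) (.e (nat_lit 32787) (nat_lit 9) (.e (nat_lit 65583) (nat_lit 7) (.e (nat_lit 319499) (nat_lit 10) (.e (nat_lit 511) (nat_lit 41) .nil))))) .nil))))) (.nd (nat_lit 3) (.nd (nat_lit 4) (.nd (nat_lit 5) 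
(.lf (nat_lit 16646) (.g (nat_lit 2504) (.e (nat_lit 1140) (nat_lit 84) (.e (nat_lit 32787) (nat_lit 9) (.e (nat_lit 65630) (nat_lit 14) (.e (nat_lit 401425) (nat_lit 2) (.e (nat_lit 196667) (nat_lit 14) .nil))))) .nil)) 
(.lf (nat_lit 16678) (.g (nat_lit 1074) (.e (nat_lit 1140) (nat_lit 84) (.e (nat_lit 32789) (nat_lit 11) (.e (nat_lit 81939) (nat_lit 20) (.e (nat_lit 1841) (nat_lit 123) (.e (nat_lit 548890) (nat_lit 10) (.e (nat_lit 73789) (nat_lit 45) .nil)))))) (.g (nat_lit 0) .nil .nil)))) (.nd (nat_lit 5) 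
(.lf (nat_lit 16662) (.g (nat_lit 1916) (.e (nat_lit 1140) (nat_lit 84) (.e (nat_lit 32788) (nat_lit 10) (.e (nat_lit 73781) (nat_lit 32) (.e (nat_lit 2682) (nat_lit 168) (.e (nat_lit 204863) (nat_lit 27) (.e (nat_lit 344081) (nat_lit 13) .nil)))))) (.g (nat_lit 6) .nil .nil))) 
(.lf (nat_lit 16694) (.g (nat_lit 3116) (.e (nat_lit 1140) (nat_lit 84) (.e (nat_lit 32789) (nat_lit 11) (.e (nat_lit 81956) (nat_lit 23) (.e (nat_lit 98320) (nat_lit 17) (.e (nat_lit 7583) (nat_lit 405) (.e (nat_lit 57713) (nat_lit 176) .nil)))))) (.g (nat_lit 4) .nil .nil))))) (.nd (nat_lit 4) (.nd (nat_lit 5) 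
(.lf (nat_lit 16654) (.g (nat_lit 2681) (.e (nat_lit 1140) (nat_lit 84) (.e (nat_lit 32787) (nat_lit 9) (.e (nat_lit 65630) (nat_lit 14) (.e (nat_lit 401428) (nat_lit 3) (.e (nat_lit 204862) (nat_lit 27) (.e (nat_lit 344076) (nat_lit 13) .nil)))))) (.g (nat_lit 0) .nil .nil))) 
(.lf (nat_lit 16686) (.g (nat_lit 1610) (.e (nat_lit 1140) (nat_lit 84) (.e (nat_lit 32789) (nat_lit 11) (.e (nat_lit 81946) (nat_lit 20) (.e (nat_lit 1842) (nat_lit 123) (.e (nat_lit 548890) (nat_lit 10) (.e (nat_lit 73788) (nat_lit 45) .nil)))))) (.g (nat_lit 0) .nil .nil)))) (.nd (nat_lit 5) 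
(.lf (nat_lit 16670) (.g (nat_lit 1089) (.e (nat_lit 1140) (nat_lit 84) (.e (nat_lit 32788) (nat_lit 10) (.e (nat_lit 73789) (nat_lit 45) (.e (nat_lit 1141) (nat_lit 84) (.e (nat_lit 32788) (nat_lit 10) (.e (nat_lit 73788) (nat_lit 45) .nil)))))) (.g (nat_lit 0) .nil .nil))) 
(.lf (nat_lit 16702) (.g (nat_lit 1478) (.e (nat_lit 1141) (nat_lit 84) (.e (nat_lit 32787) (nat_lit 9) (.e (nat_lit 65583) (nat_lit 7) (.e (nat_lit 319519) (nat_lit 12) (.e (nat_lit 32788) (nat_lit 10) (.e (nat_lit 73791) (nat_lit 45) .nil)))))) (.g (nat_lit 0) .nil .nil)))))))) (.nd (nat_lit 1) (.nd (nat_lit 2) (.nd (nat_lit 3) (.nd (nat_lit 4) (.nd (nat_lit 5) 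
(.lf (nat_lit 16641) (.g (nat_lit 2872) (.e (nat_lit 1140) (nat_lit 84) (.e (nat_lit 32787) (nat_lit 9) (.e (nat_lit 65630) (nat_lit 14) (.e (nat_lit 401412) (nat_lit 0) (.e (nat_lit 3262) (nat_lit 198) (.e (nat_lit 540700) (nat_lit 10) (.e (nat_lit 344080) (nat_lit 13) .nil))))))) (.g (nat_lit 0) .nil .nil))) 
(.lf (nat_lit 16673) (.g (nat_lit 1084) (.e (nat_lit 1140) (nat_lit 84) (.e (nat_lit 32788) (nat_lit 10) (.e (nat_lit 73792) (nat_lit 45) (.e (nat_lit 1141) (nat_lit 84) (.e (nat_lit 32788) (nat_lit 10) (.e (nat_lit 73788) (nat_lit 45) .nil)))))) (.g (nat_lit 0) .nil .nil)))) (.nd (nat_lit 5) 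
(.lf (nat_lit 16657) (.g (nat_lit 3017) (.e (nat_lit 1140) (nat_lit 84) (.e (nat_lit 32787) (nat_lit 9) (.e (nat_lit 65630) (nat_lit 14) (.e (nat_lit 401428) (nat_lit 3) (.e (nat_lit 204863) (nat_lit 27) (.e (nat_lit 344080) (nat_lit 13) .nil)))))) (.g (nat_lit 0) .nil .nil))) 
(.lf (nat_lit 16689) (.g (nat_lit 1864) (.e (nat_lit 1140) (nat_lit 84) (.e (nat_lit 32789) (nat_lit 11) (.e (nat_lit 81947) (nat_lit 20) (.e (nat_lit 1842) (nat_lit 123) (.e (nat_lit 548890) (nat_lit 10) (.e (nat_lit 73788) (nat_lit 45) .nil)))))) (.g (nat_lit 0) .nil .nil))))) (.nd (nat_lit 4) (.nd (nat_lit 5) 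
(.lf (nat_lit 16649) (.g (nat_lit 2500) (.e (nat_lit 1140) (nat_lit 84) (.e (nat_lit 32787) (nat_lit 9) (.e (nat_lit 65630) (nat_lit 14) (.e (nat_lit 401425) (nat_lit 2) (.e (nat_lit 204544) (nat_lit 14) .nil))))) .nil)) 
(.lf (nat_lit 16681) (.g (nat_lit 1015) (.e (nat_lit 1140) (nat_lit 84) (.e (nat_lit 32789) (nat_lit 11) (.e (nat_lit 81943) (nat_lit 20) (.e (nat_lit 1840) (nat_lit 123) (.e (nat_lit 548890) (nat_lit 10) (.e (nat_lit 73788) (nat_lit 45) .nil)))))) (.g (nat_lit 0) .nil .nil)))) (.nd (nat_lit 5) 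
(.lf (nat_lit 16665) (.g (nat_lit 342) (.e (nat_lit 1140) (nat_lit 84) (.e (nat_lit 32788) (nat_lit 10) (.e (nat_lit 81664) (nat_lit 35) (.e (nat_lit 163950) (nat_lit 21) (.e (nat_lit 507648) (nat_lit 19) .nil))))) .nil)) 
(.lf (nat_lit 16697) (.g (nat_lit 174) (.e (nat_lit 1141) (nat_lit 84) (.e (nat_lit 32787) (nat_lit 9) (.e (nat_lit 65583) (nat_lit 7) .nil))) .nil))))) (.nd (nat_lit 3) (.nd (nat_lit 4) (.nd (nat_lit 5) 
(.lf (nat_lit 16645) (.g (nat_lit 2037) (.e (nat_lit 1140) (nat_lit 84) (.e (nat_lit 32787) (nat_lit 9) (.e (nat_lit 65630) (nat_lit 14) (.e (nat_lit 401425) (nat_lit 2) (.e (nat_lit 196628) (nat_lit 9) .nil))))) .nil)) 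
(.lf (nat_lit 16677) (.g (nat_lit 919) (.e (nat_lit 1140) (nat_lit 84) (.e (nat_lit 32789) (nat_lit 11) (.e (nat_lit 81939) (nat_lit 20) (.e (nat_lit 1841) (nat_lit 123) (.e (nat_lit 548890) (nat_lit 10) (.e (nat_lit 73788) (nat_lit 45) .nil)))))) (.g (nat_lit 0) .nil .nil)))) (.nd (nat_lit 5) 
(.lf (nat_lit 16661) (.g (nat_lit 2336) (.e (nat_lit 1140) (nat_lit 84) (.e (nat_lit 32788) (nat_lit 10) (.e (nat_lit 73781) (nat_lit 32) (.e (nat_lit 2664) (nat_lit 167) (.e (nat_lit 196670) (nat_lit 14) (.e (nat_lit 73792) (nat_lit 45) .nil)))))) (.g (nat_lit 0) .nil .nil))) 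
(.lf (nat_lit 16693) (.g (nat_lit 3088) (.e (nat_lit 1140) (nat_lit 84) (.e (nat_lit 32789) (nat_lit 11) (.e (nat_lit 81956) (nat_lit 23) (.e (nat_lit 98320) (nat_lit 17) (.e (nat_lit 7583) (nat_lit 405) .nil))))) .nil)))) (.nd (nat_lit 4) (.nd (nat_lit 5) 
(.lf (nat_lit 16653) (.g (nat_lit 3434) (.e (nat_lit 1140) (nat_lit 84) (.e (nat_lit 32787) (nat_lit 9) (.e (nat_lit 65630) (nat_lit 14) (.e (nat_lit 401427) (nat_lit 3) (.e (nat_lit 204863) (nat_lit 27) (.e (nat_lit 344081) (nat_lit 13) .nil)))))) (.g (nat_lit 0) .nil .nil))) 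
(.lf (nat_lit 16685) (.g (nat_lit 1311) (.e (nat_lit 1140) (nat_lit 84) (.e (nat_lit 32789) (nat_lit 11) (.e (nat_lit 81946) (nat_lit 20) (.e (nat_lit 1841) (nat_lit 123) (.e (nat_lit 548890) (nat_lit 10) (.e (nat_lit 73788) (nat_lit 45) .nil)))))) (.g (nat_lit 0) .nil .nil)))) (.nd (nat_lit 5) 
(.lf (nat_lit 16669) (.g (nat_lit 1123) (.e (nat_lit 1140) (nat_lit 84) (.e (nat_lit 32788) (nat_lit 10) (.e (nat_lit 73788) (nat_lit 45) (.e (nat_lit 1141) (nat_lit 84) (.e (nat_lit 32788) (nat_lit 10) (.e (nat_lit 73789) (nat_lit 45) .nil)))))) (.g (nat_lit 0) .nil .nil))) 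
(.lf (nat_lit 16701) (.g (nat_lit 1454) (.e (nat_lit 1141) (nat_lit 84) (.e (nat_lit 32787) (nat_lit 9) (.e (nat_lit 65583) (nat_lit 7) (.e (nat_lit 319519) (nat_lit 12) (.e (nat_lit 32788) (nat_lit 10) (.e (nat_lit 73788) (nat_lit 45) .nil)))))) (.g (nat_lit 0) .nil .nil))))))) (.nd (nat_lit 2) (.nd (nat_lit 3) (.nd (nat_lit 4) (.nd (nat_lit 5) 
(.lf (nat_lit 16643) (.g (nat_lit 3122) (.e (nat_lit 1140) (nat_lit 84) (.e (nat_lit 32787) (nat_lit 9) (.e (nat_lit 65630) (nat_lit 14) (.e (nat_lit 401424) (nat_lit 2) (.e (nat_lit 196668) (nat_lit 14) (.e (nat_lit 73789) (nat_lit 45) .nil)))))) (.g (nat_lit 6) .nil .nil))) 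
(.lf (nat_lit 16675) (.g (nat_lit 2154) (.e (nat_lit 1140) (nat_lit 84) (.e (nat_lit 32789) (nat_lit 11) (.e (nat_lit 81924) (nat_lit 0) (.e (nat_lit 3305) (nat_lit 202) (.e (nat_lit 573488) (nat_lit 14) (.e (nat_lit 73788) (nat_lit 45) .nil)))))) (.g (nat_lit 6) .nil .nil)))) (.nd (nat_lit 5) 
(.lf (nat_lit 16659) (.g (nat_lit 3000) (.e (nat_lit 1140) (nat_lit 84) (.e (nat_lit 32788) (nat_lit 10) (.e (nat_lit 73781) (nat_lit 32) (.e (nat_lit 2663) (nat_lit 167) (.e (nat_lit 196668) (nat_lit 14) (.e (nat_lit 73789) (nat_lit 45) .nil)))))) (.g (nat_lit 0) .nil .nil))) 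
(.lf (nat_lit 16691) (.g (nat_lit 1124) (.e (nat_lit 1140) (nat_lit 84) (.e (nat_lit 32789) (nat_lit 11) (.e (nat_lit 81953) (nat_lit 22) (.e (nat_lit 90133) (nat_lit 9) .nil)))) .nil)))) (.nd (nat_lit 4) (.nd (nat_lit 5) 
(.lf (nat_lit 16651) (.g (nat_lit 2547) (.e (nat_lit 1140) (nat_lit 84) (.e (nat_lit 32787) (nat_lit 9) (.e (nat_lit 65630) (nat_lit 14) (.e (nat_lit 401427) (nat_lit 3) (.e (nat_lit 204862) (nat_lit 27) (.e (nat_lit 344076) (nat_lit 13) .nil)))))) (.g (nat_lit 4) .nil .nil))) 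
(.lf (nat_lit 16683) (.g (nat_lit 1068) (.e (nat_lit 1140) (nat_lit 84) (.e (nat_lit 32789) (nat_lit 11) (.e (nat_lit 81943) (nat_lit 20) (.e (nat_lit 1841) (nat_lit 123) (.e (nat_lit 548890) (nat_lit 10) (.e (nat_lit 73788) (nat_lit 45) .nil)))))) (.g (nat_lit 0) .nil .nil)))) (.nd (nat_lit 5) 
(.lf (nat_lit 16667) (.g (nat_lit 1024) (.e (nat_lit 1140) (nat_lit 84) (.e (nat_lit 32788) (nat_lit 10) (.e (nat_lit 73788) (nat_lit 45) (.e (nat_lit 1140) (nat_lit 84) (.e (nat_lit 32788) (nat_lit 10) (.e (nat_lit 73789) (nat_lit 45) .nil)))))) (.g (nat_lit 0) .nil .nil))) 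
(.lf (nat_lit 16699) (.g (nat_lit 1526) (.e (nat_lit 1141) (nat_lit 84) (.e (nat_lit 32787) (nat_lit 9) (.e (nat_lit 65583) (nat_lit 7) (.e (nat_lit 319519) (nat_lit 12) (.e (nat_lit 32774) (nat_lit 5) (.e (nat_lit 1529) (nat_lit 109) (.e (nat_lit 344076) (nat_lit 13) .nil))))))) (.g (nat_lit 0) .nil .nil)))))) (.nd (nat_lit 3) (.nd (nat_lit 4) (.nd (nat_lit 5) 
(.lf (nat_lit 16647) (.g (nat_lit 3155) (.e (nat_lit 1140) (nat_lit 84) (.e (nat_lit 32787) (nat_lit 9) (.e (nat_lit 65630) (nat_lit 14) (.e (nat_lit 401425) (nat_lit 2) (.e (nat_lit 196669) (nat_lit 14) (.e (nat_lit 73788) (nat_lit 45) .nil)))))) (.g (nat_lit 0) .nil .nil))) 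
(.lf (nat_lit 16679) (.g (nat_lit 1314) (.e (nat_lit 1140) (nat_lit 84) (.e (nat_lit 32789) (nat_lit 11) (.e (nat_lit 81939) (nat_lit 20) (.e (nat_lit 1842) (nat_lit 123) (.e (nat_lit 548890) (nat_lit 10) (.e (nat_lit 73788) (nat_lit 45) .nil)))))) (.g (nat_lit 0) .nil .nil)))) (.nd (nat_lit 5) 
(.lf (nat_lit 16663) (.g (nat_lit 3194) (.e (nat_lit 1140) (nat_lit 84) (.e (nat_lit 32788) (nat_lit 10) (.e (nat_lit 73782) (nat_lit 32) (.e (nat_lit 2663) (nat_lit 167) (.e (nat_lit 196668) (nat_lit 14) (.e (nat_lit 73789) (nat_lit 45) .nil)))))) (.g (nat_lit 0) .nil .nil))) 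
(.lf (nat_lit 16695) (.g (nat_lit 2798) (.e (nat_lit 1140) (nat_lit 84) (.e (nat_lit 32789) (nat_lit 11) (.e (nat_lit 81956) (nat_lit 23) (.e (nat_lit 98389) (nat_lit 33) (.e (nat_lit 491526) (nat_lit 0) .nil))))) .nil)))) (.nd (nat_lit 4) (.nd (nat_lit 5) 
(.lf (nat_lit 16655) (.g (nat_lit 2300) (.e (nat_lit 1140) (nat_lit 84) (.e (nat_lit 32787) (nat_lit 9) (.e (nat_lit 65630) (nat_lit 14) (.e (nat_lit 401428) (nat_lit 3) (.e (nat_lit 204862) (nat_lit 27) (.e (nat_lit 344080) (nat_lit 13) .nil)))))) (.g (nat_lit 5) .nil .nil))) 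
(.lf (nat_lit 16687) (.g (nat_lit 1287) (.e (nat_lit 1140) (nat_lit 84) (.e (nat_lit 32789) (nat_lit 11) (.e (nat_lit 81947) (nat_lit 20) (.e (nat_lit 1841) (nat_lit 123) (.e (nat_lit 548890) (nat_lit 10) (.e (nat_lit 73788) (nat_lit 45) .nil)))))) (.g (nat_lit 0) .nil .nil)))) (.nd (nat_lit 5) 
(.lf (nat_lit 16671) (.g (nat_lit 872) (.e (nat_lit 1140) (nat_lit 84) (.e (nat_lit 32788) (nat_lit 10) (.e (nat_lit 73791) (nat_lit 45) (.e (nat_lit 1140) (nat_lit 84) (.e (nat_lit 32788) (nat_lit 10) (.e (nat_lit 73788) (nat_lit 45) .nil)))))) (.g (nat_lit 0) .nil .nil))) 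
(.lf (nat_lit 16703) (.g (nat_lit 1413) (.e (nat_lit 1141) (nat_lit 84) (.e (nat_lit 32787) (nat_lit 9) (.e (nat_lit 65584) (nat_lit 7) (.e (nat_lit 319519) (nat_lit 12) (.e (nat_lit 32788) (nat_lit 10) (.e (nat_lit 73788) (nat_lit 45) .nil)))))) (.g (nat_lit 0) .nil .nil)))))))))

noncomputable def tv226 : DT := (.nd (nat_lit 0) (.nd (nat_lit 1) (.nd (nat_lit 2) (.nd (nat_lit 3) (.nd (nat_lit 4) (.nd (nat_lit 5) 
(.lf (nat_lit 16704) (.g (nat_lit 1575) (.e (nat_lit 1141) (nat_lit 84) (.e (nat_lit 32787) (nat_lit 9) (.e (nat_lit 65584) (nat_lit 7) (.e (nat_lit 319519) (nat_lit 12) (.e (nat_lit 32788) (nat_lit 10) (.e (nat_lit 73789) (nat_lit 45) .nil)))))) (.g (nat_lit 0) .nil .nil))) 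
(.lf (nat_lit 16736) (.g (nat_lit 1188) (.e (nat_lit 1141) (nat_lit 84) (.e (nat_lit 32787) (nat_lit 9) (.e (nat_lit 65610) (nat_lit 10) (.e (nat_lit 344115) (nat_lit 20) (.e (nat_lit 507908) (nat_lit 0) .nil))))) .nil))) (.nd (nat_lit 5) 
(.lf (nat_lit 16720) (.g (nat_lit 1625) (.e (nat_lit 1141) (nat_lit 84) (.e (nat_lit 32787) (nat_lit 9) (.e (nat_lit 65586) (nat_lit 7) (.e (nat_lit 319519) (nat_lit 12) (.e (nat_lit 32774) (nat_lit 5) (.e (nat_lit 1543) (nat_lit 109) (.e (nat_lit 344076) (nat_lit 13) .nil))))))) (.g (nat_lit 0) .nil .nil))) 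
(.lf (nat_lit 16752) (.g (nat_lit 1724) (.e (nat_lit 1141) (nat_lit 84) (.e (nat_lit 32787) (nat_lit 9) (.e (nat_lit 65610) (nat_lit 10) (.e (nat_lit 344126) (nat_lit 25) (.e (nat_lit 548890) (nat_lit 10) (.e (nat_lit 73791) (nat_lit 45) .nil)))))) (.g (nat_lit 0) .nil .nil))))) (.nd (nat_lit 4) (.nd (nat_lit 5) 
(.lf (nat_lit 16712) (.g (nat_lit 1503) (.e (nat_lit 1141) (nat_lit 84) (.e (nat_lit 32787) (nat_lit 9) (.e (nat_lit 65586) (nat_lit 7) (.e (nat_lit 319517) (nat_lit 12) (.e (nat_lit 32788) (nat_lit 10) (.e (nat_lit 73791) (nat_lit 45) .nil)))))) (.g (nat_lit 6) .nil .nil))) 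
(.lf (nat_lit 16744) (.g (nat_lit 2505) (.e (nat_lit 1141) (nat_lit 84) (.e (nat_lit 32787) (nat_lit 9) (.e (nat_lit 65610) (nat_lit 10) (.e (nat_lit 344117) (nat_lit 21) (.e (nat_lit 516098) (nat_lit 0) (.e (nat_lit 7581) (nat_lit 405) (.e (nat_lit 57716) (nat_lit 176) .nil))))))) (.g (nat_lit 4) .nil .nil)))) (.nd (nat_lit 5) 
(.lf (nat_lit 16728) (.g (nat_lit 2315) (.e (nat_lit 1141) (nat_lit 84) (.e (nat_lit 32787) (nat_lit 9) (.e (nat_lit 65598) (nat_lit 9) (.e (nat_lit 336028) (nat_lit 3) (.e (nat_lit 98325) (nat_lit 17) (.e (nat_lit 7936) (nat_lit 405) (.e (nat_lit 57714) (nat_lit 176) .nil))))))) (.g (nat_lit 5) .nil .nil))) 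
(.lf (nat_lit 16760) (.g (nat_lit 3045) (.e (nat_lit 1141) (nat_lit 84) (.e (nat_lit 32787) (nat_lit 9) (.e (nat_lit 65610) (nat_lit 10) (.e (nat_lit 344129) (nat_lit 26) (.e (nat_lit 557087) (nat_lit 11) (.e (nat_lit 24588) (nat_lit 0) (.e (nat_lit 6092) (nat_lit 332) .nil))))))) (.g (nat_lit 7) .nil .nil)))))) (.nd (nat_lit 3) (.nd (nat_lit 4) (.nd (nat_lit 5) 
(.lf (nat_lit 16708) (.g (nat_lit 1007) (.e (nat_lit 1141) (nat_lit 84) (.e (nat_lit 32787) (nat_lit 9) (.e (nat_lit 65586) (nat_lit 7) (.e (nat_lit 319498) (nat_lit 10) (.e (nat_lit 549) (nat_lit 41) .nil))))) .nil)) 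
(.lf (nat_lit 16740) (.g (nat_lit 4040) (.e (nat_lit 1141) (nat_lit 84) (.e (nat_lit 32787) (nat_lit 9) (.e (nat_lit 65610) (nat_lit 10) (.e (nat_lit 344117) (nat_lit 21) (.e (nat_lit 516097) (nat_lit 0) (.e (nat_lit 7583) (nat_lit 405) (.e (nat_lit 57714) (nat_lit 176) .nil))))))) (.g (nat_lit 5) .nil .nil)))) (.nd (nat_lit 5) 
(.lf (nat_lit 16724) (.g (nat_lit 3026) (.e (nat_lit 1141) (nat_lit 84) (.e (nat_lit 32787) (nat_lit 9) (.e (nat_lit 65598) (nat_lit 9) (.e (nat_lit 336013) (nat_lit 2) (.e (nat_lit 90133) (nat_lit 9) (.e (nat_lit 2397) (nat_lit 157) (.e (nat_lit 7582) (nat_lit 405) (.e (nat_lit 57717) (nat_lit 176) .nil)))))))) (.g (nat_lit 5) .nil .nil))) 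
(.lf (nat_lit 16756) (.g (nat_lit 2302) (.e (nat_lit 1141) (nat_lit 84) (.e (nat_lit 32787) (nat_lit 9) (.e (nat_lit 65610) (nat_lit 10) (.e (nat_lit 344129) (nat_lit 26) (.e (nat_lit 557067) (nat_lit 9) (.e (nat_lit 7936) (nat_lit 22) (.e (nat_lit 344076) (nat_lit 13) .nil))))))) (.g (nat_lit 5) .nil .nil))))) (.nd (nat_lit 4) (.nd (nat_lit 5) 
(.lf (nat_lit 16716) (.g (nat_lit 1383) (.e (nat_lit 1141) (nat_lit 84) (.e (nat_lit 32787) (nat_lit 9) (.e (nat_lit 65586) (nat_lit 7) (.e (nat_lit 319518) (nat_lit 12) (.e (nat_lit 32788) (nat_lit 10) (.e (nat_lit 73791) (nat_lit 45) .nil)))))) (.g (nat_lit 6) .nil .nil))) 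
(.lf (nat_lit 16748) (.g (nat_lit 3596) (.e (nat_lit 1141) (nat_lit 84) (.e (nat_lit 32787) (nat_lit 9) (.e (nat_lit 65610) (nat_lit 10) (.e (nat_lit 344117) (nat_lit 21) (.e (nat_lit 516098) (nat_lit 0) (.e (nat_lit 7583) (nat_lit 405) (.e (nat_lit 57717) (nat_lit 176) .nil))))))) (.g (nat_lit 7) .nil .nil)))) (.nd (nat_lit 5) 
(.lf (nat_lit 16732) (.g (nat_lit 2797) (.e (nat_lit 1141) (nat_lit 84) (.e (nat_lit 32787) (nat_lit 9) (.e (nat_lit 65604) (nat_lit 9) (.e (nat_lit 336028) (nat_lit 3) (.e (nat_lit 98325) (nat_lit 17) (.e (nat_lit 6986) (nat_lit 377) (.e (nat_lit 2403) (nat_lit 157) (.e (nat_lit 4921) (nat_lit 287) .nil)))))))) (.g (nat_lit 6) .nil .nil))) 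
(.lf (nat_lit 16764) (.g (nat_lit 1771) (.e (nat_lit 1141) (nat_lit 84) (.e (nat_lit 32787) (nat_lit 9) (.e (nat_lit 65611) (nat_lit 10) (.e (nat_lit 344126) (nat_lit 25) (.e (nat_lit 548890) (nat_lit 10) (.e (nat_lit 73791) (nat_lit 45) .nil)))))) (.g (nat_lit 0) .nil .nil))))))) (.nd (nat_lit 2) (.nd (nat_lit 3) (.nd (nat_lit 4) (.nd (nat_lit 5) 
(.lf (nat_lit 16706) (.g (nat_lit 1387) (.e (nat_lit 1141) (nat_lit 84) (.e (nat_lit 32787) (nat_lit 9) (.e (nat_lit 65585) (nat_lit 7) (.e (nat_lit 319519) (nat_lit 12) (.e (nat_lit 32788) (nat_lit 10) (.e (nat_lit 73789) (nat_lit 45) .nil)))))) (.g (nat_lit 0) .nil .nil))) 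
(.lf (nat_lit 16738) (.g (nat_lit 4728) (.e (nat_lit 1141) (nat_lit 84) (.e (nat_lit 32787) (nat_lit 9) (.e (nat_lit 65610) (nat_lit 10) (.e (nat_lit 344117) (nat_lit 21) (.e (nat_lit 516097) (nat_lit 0) (.e (nat_lit 7581) (nat_lit 405) (.e (nat_lit 57718) (nat_lit 176) .nil))))))) (.g (nat_lit 6) .nil .nil)))) (.nd (nat_lit 5) 
(.lf (nat_lit 16722) (.g (nat_lit 1633) (.e (nat_lit 1141) (nat_lit 84) (.e (nat_lit 32787) (nat_lit 9) (.e (nat_lit 65586) (nat_lit 7) (.e (nat_lit 319519) (nat_lit 12) (.e (nat_lit 32788) (nat_lit 10) (.e (nat_lit 73789) (nat_lit 45) .nil)))))) (.g (nat_lit 0) .nil .nil))) 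
(.lf (nat_lit 16754) (.g (nat_lit 1771) (.e (nat_lit 1141) (nat_lit 84) (.e (nat_lit 32787) (nat_lit 9) (.e (nat_lit 65610) (nat_lit 10) (.e (nat_lit 344129) (nat_lit 26) (.e (nat_lit 557066) (nat_lit 9) (.e (nat_lit 232) (nat_lit 21) (.e (nat_lit 335907) (nat_lit 0) (.e (nat_lit 6135) (nat_lit 332) .nil)))))))) (.g (nat_lit 4) .nil .nil))))) (.nd (nat_lit 4) (.nd (nat_lit 5) 
(.lf (nat_lit 16714) (.g (nat_lit 1273) (.e (nat_lit 1141) (nat_lit 84) (.e (nat_lit 32787) (nat_lit 9) (.e (nat_lit 65586) (nat_lit 7) (.e (nat_lit 319518) (nat_lit 12) (.e (nat_lit 32788) (nat_lit 10) (.e (nat_lit 73788) (nat_lit 45) .nil)))))) (.g (nat_lit 5) .nil .nil))) 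
(.lf (nat_lit 16746) (.g (nat_lit 3947) (.e (nat_lit 1141) (nat_lit 84) (.e (nat_lit 32787) (nat_lit 9) (.e (nat_lit 65610) (nat_lit 10) (.e (nat_lit 344117) (nat_lit 21) (.e (nat_lit 516098) (nat_lit 0) (.e (nat_lit 7581) (nat_lit 405) (.e (nat_lit 57718) (nat_lit 176) .nil))))))) (.g (nat_lit 6) .nil .nil)))) (.nd (nat_lit 5) 
(.lf (nat_lit 16730) (.g (nat_lit 2289) (.e (nat_lit 1141) (nat_lit 84) (.e (nat_lit 32787) (nat_lit 9) (.e (nat_lit 65598) (nat_lit 9) (.e (nat_lit 336028) (nat_lit 3) (.e (nat_lit 98325) (nat_lit 17) (.e (nat_lit 7936) (nat_lit 405) (.e (nat_lit 57718) (nat_lit 176) .nil))))))) (.g (nat_lit 5) .nil .nil))) 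
(.lf (nat_lit 16762) (.g (nat_lit 2808) (.e (nat_lit 1141) (nat_lit 84) (.e (nat_lit 32787) (nat_lit 9) (.e (nat_lit 65610) (nat_lit 10) (.e (nat_lit 344129) (nat_lit 26) (.e (nat_lit 557087) (nat_lit 11) (.e (nat_lit 24588) (nat_lit 0) (.e (nat_lit 6149) (nat_lit 332) .nil))))))) (.g (nat_lit 6) .nil .nil)))))) (.nd (nat_lit 3) (.nd (nat_lit 4) (.nd (nat_lit 5) 
(.lf (nat_lit 16710) (.g (nat_lit 1393) (.e (nat_lit 1141) (nat_lit 84) (.e (nat_lit 32787) (nat_lit 9) (.e (nat_lit 65586) (nat_lit 7) (.e (nat_lit 319517) (nat_lit 12) (.e (nat_lit 32788) (nat_lit 10) (.e (nat_lit 73788) (nat_lit 45) .nil)))))) (.g (nat_lit 5) .nil .nil))) 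
(.lf (nat_lit 16742) (.g (nat_lit 2408) (.e (nat_lit 1141) (nat_lit 84) (.e (nat_lit 32787) (nat_lit 9) (.e (nat_lit 65610) (nat_lit 10) (.e (nat_lit 344117) (nat_lit 21) (.e (nat_lit 516098) (nat_lit 0) .nil))))) .nil))) (.nd (nat_lit 5) 
(.lf (nat_lit 16726) (.g (nat_lit 900) (.e (nat_lit 1141) (nat_lit 84) (.e (nat_lit 32787) (nat_lit 9) (.e (nat_lit 65598) (nat_lit 9) (.e (nat_lit 336013) (nat_lit 2) (.e (nat_lit 98048) (nat_lit 20) .nil))))) .nil)) 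
(.lf (nat_lit 16758) (.g (nat_lit 3202) (.e (nat_lit 1141) (nat_lit 84) (.e (nat_lit 32787) (nat_lit 9) (.e (nat_lit 65610) (nat_lit 10) (.e (nat_lit 344129) (nat_lit 26) (.e (nat_lit 557087) (nat_lit 11) (.e (nat_lit 24584) (nat_lit 0) (.e (nat_lit 6125) (nat_lit 332) .nil))))))) (.g (nat_lit 7) .nil .nil))))) (.nd (nat_lit 4) (.nd (nat_lit 5) 
(.lf (nat_lit 16718) (.g (nat_lit 1669) (.e (nat_lit 1141) (nat_lit 84) (.e (nat_lit 32787) (nat_lit 9) (.e (nat_lit 65586) (nat_lit 7) (.e (nat_lit 319519) (nat_lit 12) (.e (nat_lit 32774) (nat_lit 5) (.e (nat_lit 1529) (nat_lit 109) (.e (nat_lit 344076) (nat_lit 13) .nil))))))) (.g (nat_lit 0) .nil .nil))) 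
(.lf (nat_lit 16750) (.g (nat_lit 3521) (.e (nat_lit 1141) (nat_lit 84) (.e (nat_lit 32787) (nat_lit 9) (.e (nat_lit 65610) (nat_lit 10) (.e (nat_lit 344117) (nat_lit 21) (.e (nat_lit 516099) (nat_lit 0) (.e (nat_lit 7936) (nat_lit 405) (.e (nat_lit 57718) (nat_lit 176) .nil))))))) (.g (nat_lit 4) .nil .nil)))) (.nd (nat_lit 5) 
(.lf (nat_lit 16734) (.g (nat_lit 2188) (.e (nat_lit 1141) (nat_lit 84) (.e (nat_lit 32787) (nat_lit 9) (.e (nat_lit 65604) (nat_lit 9) (.e (nat_lit 336028) (nat_lit 3) (.e (nat_lit 98325) (nat_lit 17) (.e (nat_lit 7936) (nat_lit 405) (.e (nat_lit 57718) (nat_lit 176) .nil))))))) (.g (nat_lit 5) .nil .nil))) 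
(.lf (nat_lit 16766) (.g (nat_lit 166) (.e (nat_lit 1141) (nat_lit 84) (.e (nat_lit 32787) (nat_lit 9) (.e (nat_lit 65616) (nat_lit 10) .nil))) .nil))))))) (.nd (nat_lit 1) (.nd (nat_lit 2) (.nd (nat_lit 3) (.nd (nat_lit 4) (.nd (nat_lit 5) 
(.lf (nat_lit 16705) (.g (nat_lit 1249) (.e (nat_lit 1141) (nat_lit 84) (.e (nat_lit 32787) (nat_lit 9) (.e (nat_lit 65585) (nat_lit 7) (.e (nat_lit 319519) (nat_lit 12) (.e (nat_lit 32788) (nat_lit 10) (.e (nat_lit 73788) (nat_lit 45) .nil)))))) (.g (nat_lit 0) .nil .nil))) 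
(.lf (nat_lit 16737) (.g (nat_lit 4914) (.e (nat_lit 1141) (nat_lit 84) (.e (nat_lit 32787) (nat_lit 9) (.e (nat_lit 65610) (nat_lit 10) (.e (nat_lit 344117) (nat_lit 21) (.e (nat_lit 516097) (nat_lit 0) (.e (nat_lit 7581) (nat_lit 405) (.e (nat_lit 57717) (nat_lit 176) .nil))))))) (.g (nat_lit 6) .nil .nil)))) (.nd (nat_lit 5) 
(.lf (nat_lit 16721) (.g (nat_lit 1476) (.e (nat_lit 1141) (nat_lit 84) (.e (nat_lit 32787) (nat_lit 9) (.e (nat_lit 65586) (nat_lit 7) (.e (nat_lit 319519) (nat_lit 12) (.e (nat_lit 32788) (nat_lit 10) (.e (nat_lit 73788) (nat_lit 45) .nil)))))) (.g (nat_lit 0) .nil .nil))) 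
(.lf (nat_lit 16753) (.g (nat_lit 3335) (.e (nat_lit 1141) (nat_lit 84) (.e (nat_lit 32787) (nat_lit 9) (.e (nat_lit 65610) (nat_lit 10) (.e (nat_lit 344129) (nat_lit 26) (.e (nat_lit 557066) (nat_lit 9) (.e (nat_lit 232) (nat_lit 21) (.e (nat_lit 335907) (nat_lit 0) (.e (nat_lit 6123) (nat_lit 332) .nil)))))))) (.g (nat_lit 7) .nil .nil))))) (.nd (nat_lit 4) (.nd (nat_lit 5) 
(.lf (nat_lit 16713) (.g (nat_lit 1479) (.e (nat_lit 1141) (nat_lit 84) (.e (nat_lit 32787) (nat_lit 9) (.e (nat_lit 65586) (nat_lit 7) (.e (nat_lit 319517) (nat_lit 12) (.e (nat_lit 32788) (nat_lit 10) (.e (nat_lit 73792) (nat_lit 45) .nil)))))) (.g (nat_lit 5) .nil .nil))) 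
(.lf (nat_lit 16745) (.g (nat_lit 4133) (.e (nat_lit 1141) (nat_lit 84) (.e (nat_lit 32787) (nat_lit 9) (.e (nat_lit 65610) (nat_lit 10) (.e (nat_lit 344117) (nat_lit 21) (.e (nat_lit 516098) (nat_lit 0) (.e (nat_lit 7581) (nat_lit 405) (.e (nat_lit 57717) (nat_lit 176) .nil))))))) (.g (nat_lit 7) .nil .nil)))) (.nd (nat_lit 5) 
(.lf (nat_lit 16729) (.g (nat_lit 1828) (.e (nat_lit 1141) (nat_lit 84) (.e (nat_lit 32787) (nat_lit 9) (.e (nat_lit 65598) (nat_lit 9) (.e (nat_lit 336028) (nat_lit 3) (.e (nat_lit 98325) (nat_lit 17) (.e (nat_lit 7936) (nat_lit 405) (.e (nat_lit 57717) (nat_lit 176) .nil))))))) (.g (nat_lit 4) .nil .nil))) 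
(.lf (nat_lit 16761) (.g (nat_lit 2817) (.e (nat_lit 1141) (nat_lit 84) (.e (nat_lit 32787) (nat_lit 9) (.e (nat_lit 65610) (nat_lit 10) (.e (nat_lit 344129) (nat_lit 26) (.e (nat_lit 557087) (nat_lit 11) (.e (nat_lit 24588) (nat_lit 0) (.e (nat_lit 6148) (nat_lit 332) .nil))))))) (.g (nat_lit 6) .nil .nil)))))) (.nd (nat_lit 3) (.nd (nat_lit 4) (.nd (nat_lit 5) 
(.lf (nat_lit 16709) (.g (nat_lit 1191) (.e (nat_lit 1141) (nat_lit 84) (.e (nat_lit 32787) (nat_lit 9) (.e (nat_lit 65586) (nat_lit 7) (.e (nat_lit 319500) (nat_lit 10) (.e (nat_lit 511) (nat_lit 41) .nil))))) .nil)) 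
(.lf (nat_lit 16741) (.g (nat_lit 4130) (.e (nat_lit 1141) (nat_lit 84) (.e (nat_lit 32787) (nat_lit 9) (.e (nat_lit 65610) (nat_lit 10) (.e (nat_lit 344117) (nat_lit 21) (.e (nat_lit 516097) (nat_lit 0) (.e (nat_lit 7583) (nat_lit 405) (.e (nat_lit 57717) (nat_lit 176) .nil))))))) (.g (nat_lit 5) .nil .nil)))) (.nd (nat_lit 5) 
(.lf (nat_lit 16725) (.g (nat_lit 2817) (.e (nat_lit 1141) (nat_lit 84) (.e (nat_lit 32787) (nat_lit 9) (.e (nat_lit 65598) (nat_lit 9) (.e (nat_lit 336013) (nat_lit 2) (.e (nat_lit 90133) (nat_lit 9) (.e (nat_lit 2400) (nat_lit 157) (.e (nat_lit 7582) (nat_lit 405) (.e (nat_lit 57717) (nat_lit 176) .nil)))))))) (.g (nat_lit 4) .nil .nil))) 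
(.lf (nat_lit 16757) (.g (nat_lit 3412) (.e (nat_lit 1141) (nat_lit 84) (.e (nat_lit 32787) (nat_lit 9) (.e (nat_lit 65610) (nat_lit 10) (.e (nat_lit 344129) (nat_lit 26) (.e (nat_lit 557087) (nat_lit 11) (.e (nat_lit 24584) (nat_lit 0) (.e (nat_lit 6092) (nat_lit 332) .nil))))))) (.g (nat_lit 7) .nil .nil))))) (.nd (nat_lit 4) (.nd (nat_lit 5) 
(.lf (nat_lit 16717) (.g (nat_lit 1359) (.e (nat_lit 1141) (nat_lit 84) (.e (nat_lit 32787) (nat_lit 9) (.e (nat_lit 65586) (nat_lit 7) (.e (nat_lit 319518) (nat_lit 12) (.e (nat_lit 32788) (nat_lit 10) (.e (nat_lit 73792) (nat_lit 45) .nil)))))) (.g (nat_lit 5) .nil .nil))) 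
(.lf (nat_lit 16749) (.g (nat_lit 3547) (.e (nat_lit 1141) (nat_lit 84) (.e (nat_lit 32787) (nat_lit 9) (.e (nat_lit 65610) (nat_lit 10) (.e (nat_lit 344117) (nat_lit 21) (.e (nat_lit 516099) (nat_lit 0) (.e (nat_lit 7936) (nat_lit 405) (.e (nat_lit 57714) (nat_lit 176) .nil))))))) (.g (nat_lit 4) .nil .nil)))) (.nd (nat_lit 5) 
(.lf (nat_lit 16733) (.g (nat_lit 1740) (.e (nat_lit 1141) (nat_lit 84) (.e (nat_lit 32787) (nat_lit 9) (.e (nat_lit 65604) (nat_lit 9) (.e (nat_lit 336028) (nat_lit 3) (.e (nat_lit 98325) (nat_lit 17) (.e (nat_lit 7936) (nat_lit 405) (.e (nat_lit 57717) (nat_lit 176) .nil))))))) (.g (nat_lit 4) .nil .nil))) 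
(.lf (nat_lit 16765) (.g (nat_lit 1899) (.e (nat_lit 1141) (nat_lit 84) (.e (nat_lit 32787) (nat_lit 9) (.e (nat_lit 65611) (nat_lit 10) (.e (nat_lit 344126) (nat_lit 25) (.e (nat_lit 548890) (nat_lit 10) (.e (nat_lit 73792) (nat_lit 45) .nil)))))) (.g (nat_lit 0) .nil .nil))))))) (.nd (nat_lit 2) (.nd (nat_lit 3) (.nd (nat_lit 4) (.nd (nat_lit 5) 
(.lf (nat_lit 16707) (.g (nat_lit 1271) (.e (nat_lit 1141) (nat_lit 84) (.e (nat_lit 32787) (nat_lit 9) (.e (nat_lit 65585) (nat_lit 7) (.e (nat_lit 319519) (nat_lit 12) (.e (nat_lit 32788) (nat_lit 10) (.e (nat_lit 73791) (nat_lit 45) .nil)))))) (.g (nat_lit 0) .nil .nil))) 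
(.lf (nat_lit 16739) (.g (nat_lit 4439) (.e (nat_lit 1141) (nat_lit 84) (.e (nat_lit 32787) (nat_lit 9) (.e (nat_lit 65610) (nat_lit 10) (.e (nat_lit 344117) (nat_lit 21) (.e (nat_lit 516097) (nat_lit 0) (.e (nat_lit 7583) (nat_lit 405) (.e (nat_lit 57713) (nat_lit 176) .nil))))))) (.g (nat_lit 6) .nil .nil)))) (.nd (nat_lit 5) 
(.lf (nat_lit 16723) (.g (nat_lit 1492) (.e (nat_lit 1141) (nat_lit 84) (.e (nat_lit 32787) (nat_lit 9) (.e (nat_lit 65586) (nat_lit 7) (.e (nat_lit 319519) (nat_lit 12) (.e (nat_lit 32788) (nat_lit 10) (.e (nat_lit 73791) (nat_lit 45) .nil)))))) (.g (nat_lit 0) .nil .nil))) 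
(.lf (nat_lit 16755) (.g (nat_lit 3542) (.e (nat_lit 1141) (nat_lit 84) (.e (nat_lit 32787) (nat_lit 9) (.e (nat_lit 65610) (nat_lit 10) (.e (nat_lit 344129) (nat_lit 26) (.e (nat_lit 557066) (nat_lit 9) (.e (nat_lit 297) (nat_lit 22) (.e (nat_lit 344076) (nat_lit 13) .nil))))))) (.g (nat_lit 6) .nil .nil))))) (.nd (nat_lit 4) (.nd (nat_lit 5) 
(.lf (nat_lit 16715) (.g (nat_lit 1621) (.e (nat_lit 1141) (nat_lit 84) (.e (nat_lit 32787) (nat_lit 9) (.e (nat_lit 65586) (nat_lit 7) (.e (nat_lit 319518) (nat_lit 12) (.e (nat_lit 32788) (nat_lit 10) (.e (nat_lit 73789) (nat_lit 45) .nil)))))) (.g (nat_lit 0) .nil .nil))) 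
(.lf (nat_lit 16747) (.g (nat_lit 3491) (.e (nat_lit 1141) (nat_lit 84) (.e (nat_lit 32787) (nat_lit 9) (.e (nat_lit 65610) (nat_lit 10) (.e (nat_lit 344117) (nat_lit 21) (.e (nat_lit 516098) (nat_lit 0) (.e (nat_lit 7583) (nat_lit 405) (.e (nat_lit 57714) (nat_lit 176) .nil))))))) (.g (nat_lit 6) .nil .nil)))) (.nd (nat_lit 5) 
(.lf (nat_lit 16731) (.g (nat_lit 2619) (.e (nat_lit 1141) (nat_lit 84) (.e (nat_lit 32787) (nat_lit 9) (.e (nat_lit 65604) (nat_lit 9) (.e (nat_lit 336013) (nat_lit 2) (.e (nat_lit 90165) (nat_lit 12) (.e (nat_lit 164208) (nat_lit 176) (.e (nat_lit 2403) (nat_lit 157) (.e (nat_lit 4921) (nat_lit 287) .nil)))))))) (.g (nat_lit 6) .nil .nil))) 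
(.lf (nat_lit 16763) (.g (nat_lit 2306) (.e (nat_lit 1141) (nat_lit 84) (.e (nat_lit 32787) (nat_lit 9) (.e (nat_lit 65610) (nat_lit 10) (.e (nat_lit 344129) (nat_lit 26) (.e (nat_lit 557087) (nat_lit 11) (.e (nat_lit 24589) (nat_lit 0) (.e (nat_lit 6148) (nat_lit 332) .nil))))))) (.g (nat_lit 5) .nil .nil)))))) (.nd (nat_lit 3) (.nd (nat_lit 4) (.nd (nat_lit 5) 
(.lf (nat_lit 16711) (.g (nat_lit 1721) (.e (nat_lit 1141) (nat_lit 84) (.e (nat_lit 32787) (nat_lit 9) (.e (nat_lit 65586) (nat_lit 7) (.e (nat_lit 319517) (nat_lit 12) (.e (nat_lit 32788) (nat_lit 10) (.e (nat_lit 73789) (nat_lit 45) .nil)))))) (.g (nat_lit 0) .nil .nil))) 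
(.lf (nat_lit 16743) (.g (nat_lit 3215) (.e (nat_lit 1141) (nat_lit 84) (.e (nat_lit 32787) (nat_lit 9) (.e (nat_lit 65610) (nat_lit 10) (.e (nat_lit 344117) (nat_lit 21) (.e (nat_lit 516098) (nat_lit 0) (.e (nat_lit 7581) (nat_lit 405) (.e (nat_lit 57711) (nat_lit 176) .nil))))))) (.g (nat_lit 5) .nil .nil)))) (.nd (nat_lit 5) 
(.lf (nat_lit 16727) (.g (nat_lit 2901) (.e (nat_lit 1141) (nat_lit 84) (.e (nat_lit 32787) (nat_lit 9) (.e (nat_lit 65598) (nat_lit 9) (.e (nat_lit 336028) (nat_lit 3) (.e (nat_lit 98325) (nat_lit 17) (.e (nat_lit 6986) (nat_lit 377) (.e (nat_lit 2403) (nat_lit 157) (.e (nat_lit 4921) (nat_lit 287) .nil)))))))) (.g (nat_lit 6) .nil .nil))) 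
(.lf (nat_lit 16759) (.g (nat_lit 2842) (.e (nat_lit 1141) (nat_lit 84) (.e (nat_lit 32787) (nat_lit 9) (.e (nat_lit 65610) (nat_lit 10) (.e (nat_lit 344129) (nat_lit 26) (.e (nat_lit 557087) (nat_lit 11) (.e (nat_lit 24584) (nat_lit 0) (.e (nat_lit 6135) (nat_lit 332) .nil))))))) (.g (nat_lit 7) .nil .nil))))) (.nd (nat_lit 4) (.nd (nat_lit 5) 
(.lf (nat_lit 16719) (.g (nat_lit 966) (.e (nat_lit 1141) (nat_lit 84) (.e (nat_lit 32787) (nat_lit 9) (.e (nat_lit 65586) (nat_lit 7) (.e (nat_lit 319519) (nat_lit 12) (.e (nat_lit 32774) (nat_lit 5) (.e (nat_lit 1542) (nat_lit 109) (.e (nat_lit 344080) (nat_lit 13) .nil))))))) (.g (nat_lit 4) .nil .nil))) 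
(.lf (nat_lit 16751) (.g (nat_lit 1854) (.e (nat_lit 1141) (nat_lit 84) (.e (nat_lit 32787) (nat_lit 9) (.e (nat_lit 65610) (nat_lit 10) (.e (nat_lit 344126) (nat_lit 25) (.e (nat_lit 548890) (nat_lit 10) (.e (nat_lit 73789) (nat_lit 45) .nil)))))) (.g (nat_lit 0) .nil .nil)))) (.nd (nat_lit 5) 
(.lf (nat_lit 16735) (.g (nat_lit 733) (.e (nat_lit 1141) (nat_lit 84) (.e (nat_lit 32787) (nat_lit 9) (.e (nat_lit 65610) (nat_lit 10) (.e (nat_lit 344115) (nat_lit 20) .nil)))) .nil)) 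
(.lf (nat_lit 16767) (.g (nat_lit 1609) (.e (nat_lit 1141) (nat_lit 84) (.e (nat_lit 32787) (nat_lit 9) (.e (nat_lit 65616) (nat_lit 10) (.e (nat_lit 344126) (nat_lit 25) (.e (nat_lit 548890) (nat_lit 10) (.e (nat_lit 73789) (nat_lit 45) .nil)))))) (.g (nat_lit 0) .nil .nil)))))))))

noncomputable def tv227 : DT := (.nd (nat_lit 0) (.nd (nat_lit 1) (.nd (nat_lit 2) (.nd (nat_lit 3) (.nd (nat_lit 4) (.nd (nat_lit 5) 
(.lf (nat_lit 16768) (.g (nat_lit 1485) (.e (nat_lit 1141) (nat_lit 84) (.e (nat_lit 32787) (nat_lit 9) (.e (nat_lit 65616) (nat_lit 10) (.e (nat_lit 344126) (nat_lit 25) (.e (nat_lit 548890) (nat_lit 10) (.e (nat_lit 73791) (nat_lit 45) .nil)))))) (.g (nat_lit 0) .nil .nil))) 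
(.lf (nat_lit 16800) (.g (nat_lit 2595) (.e (nat_lit 1141) (nat_lit 84) (.e (nat_lit 32787) (nat_lit 9) (.e (nat_lit 65619) (nat_lit 10) (.e (nat_lit 344117) (nat_lit 21) (.e (nat_lit 516098) (nat_lit 0) (.e (nat_lit 7581) (nat_lit 405) (.e (nat_lit 57713) (nat_lit 176) .nil))))))) (.g (nat_lit 5) .nil .nil)))) (.nd (nat_lit 5) 
(.lf (nat_lit 16784) (.g (nat_lit 2402) (.e (nat_lit 1141) (nat_lit 84) (.e (nat_lit 32787) (nat_lit 9) (.e (nat_lit 65617) (nat_lit 10) (.e (nat_lit 344130) (nat_lit 26) (.e (nat_lit 557087) (nat_lit 11) (.e (nat_lit 24588) (nat_lit 0) (.e (nat_lit 6149) (nat_lit 332) .nil))))))) (.g (nat_lit 6) .nil .nil))) 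
(.lf (nat_lit 16816) (.g (nat_lit 1481) (.e (nat_lit 1141) (nat_lit 84) (.e (nat_lit 32787) (nat_lit 9) (.e (nat_lit 65620) (nat_lit 10) (.e (nat_lit 344126) (nat_lit 25) (.e (nat_lit 548890) (nat_lit 10) (.e (nat_lit 73791) (nat_lit 45) .nil)))))) (.g (nat_lit 0) .nil .nil))))) (.nd (nat_lit 4) (.nd (nat_lit 5) 
(.lf (nat_lit 16776) (.g (nat_lit 2046) (.e (nat_lit 1141) (nat_lit 84) (.e (nat_lit 32787) (nat_lit 9) (.e (nat_lit 65617) (nat_lit 10) (.e (nat_lit 344130) (nat_lit 26) (.e (nat_lit 557067) (nat_lit 9) (.e (nat_lit 7936) (nat_lit 22) (.e (nat_lit 344076) (nat_lit 13) .nil))))))) (.g (nat_lit 5) .nil .nil))) 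
(.lf (nat_lit 16808) (.g (nat_lit 1751) (.e (nat_lit 1141) (nat_lit 84) (.e (nat_lit 32787) (nat_lit 9) (.e (nat_lit 65619) (nat_lit 10) (.e (nat_lit 344126) (nat_lit 25) (.e (nat_lit 548890) (nat_lit 10) (.e (nat_lit 73788) (nat_lit 45) .nil)))))) (.g (nat_lit 4) .nil .nil)))) (.nd (nat_lit 5) 
(.lf (nat_lit 16792) (.g (nat_lit 2173) (.e (nat_lit 1141) (nat_lit 84) (.e (nat_lit 32787) (nat_lit 9) (.e (nat_lit 65617) (nat_lit 10) (.e (nat_lit 344133) (nat_lit 26) (.e (nat_lit 557068) (nat_lit 9) (.e (nat_lit 7936) (nat_lit 22) (.e (nat_lit 344076) (nat_lit 13) .nil))))))) (.g (nat_lit 5) .nil .nil))) 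
(.lf (nat_lit 16824) (.g (nat_lit 2269) (.e (nat_lit 1141) (nat_lit 84) (.e (nat_lit 32787) (nat_lit 9) (.e (nat_lit 65622) (nat_lit 12) (.e (nat_lit 385074) (nat_lit 31) (.e (nat_lit 573489) (nat_lit 14) (.e (nat_lit 73788) (nat_lit 45) .nil)))))) (.g (nat_lit 6) .nil .nil)))))) (.nd (nat_lit 3) (.nd (nat_lit 4) (.nd (nat_lit 5) 
(.lf (nat_lit 16772) (.g (nat_lit 1435) (.e (nat_lit 1141) (nat_lit 84) (.e (nat_lit 32787) (nat_lit 9) (.e (nat_lit 65617) (nat_lit 10) (.e (nat_lit 344130) (nat_lit 26) (.e (nat_lit 557064) (nat_lit 9) (.e (nat_lit 297) (nat_lit 22) (.e (nat_lit 344077) (nat_lit 13) .nil))))))) (.g (nat_lit 4) .nil .nil))) 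
(.lf (nat_lit 16804) (.g (nat_lit 2453) (.e (nat_lit 1141) (nat_lit 84) (.e (nat_lit 32787) (nat_lit 9) (.e (nat_lit 65619) (nat_lit 10) (.e (nat_lit 344117) (nat_lit 21) (.e (nat_lit 516098) (nat_lit 0) (.e (nat_lit 7583) (nat_lit 405) (.e (nat_lit 57717) (nat_lit 176) .nil))))))) (.g (nat_lit 5) .nil .nil)))) (.nd (nat_lit 5) 
(.lf (nat_lit 16788) (.g (nat_lit 2244) (.e (nat_lit 1141) (nat_lit 84) (.e (nat_lit 32787) (nat_lit 9) (.e (nat_lit 65617) (nat_lit 10) (.e (nat_lit 344132) (nat_lit 26) (.e (nat_lit 557072) (nat_lit 9) (.e (nat_lit 7936) (nat_lit 22) (.e (nat_lit 344080) (nat_lit 13) .nil))))))) (.g (nat_lit 5) .nil .nil))) 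
(.lf (nat_lit 16820) (.g (nat_lit 2893) (.e (nat_lit 1141) (nat_lit 84) (.e (nat_lit 32787) (nat_lit 9) (.e (nat_lit 65622) (nat_lit 12) (.e (nat_lit 385074) (nat_lit 31) (.e (nat_lit 573487) (nat_lit 14) (.e (nat_lit 73789) (nat_lit 45) .nil)))))) (.g (nat_lit 0) .nil .nil))))) (.nd (nat_lit 4) (.nd (nat_lit 5) 
(.lf (nat_lit 16780) (.g (nat_lit 3319) (.e (nat_lit 1141) (nat_lit 84) (.e (nat_lit 32787) (nat_lit 9) (.e (nat_lit 65617) (nat_lit 10) (.e (nat_lit 344130) (nat_lit 26) (.e (nat_lit 557087) (nat_lit 11) (.e (nat_lit 24584) (nat_lit 0) (.e (nat_lit 6125) (nat_lit 332) .nil))))))) (.g (nat_lit 7) .nil .nil))) 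
(.lf (nat_lit 16812) (.g (nat_lit 1627) (.e (nat_lit 1141) (nat_lit 84) (.e (nat_lit 32787) (nat_lit 9) (.e (nat_lit 65619) (nat_lit 10) (.e (nat_lit 344129) (nat_lit 26) (.e (nat_lit 557066) (nat_lit 9) (.e (nat_lit 232) (nat_lit 21) (.e (nat_lit 335907) (nat_lit 0) (.e (nat_lit 6123) (nat_lit 332) .nil)))))))) (.g (nat_lit 4) .nil .nil)))) (.nd (nat_lit 5) 
(.lf (nat_lit 16796) (.g (nat_lit 3623) (.e (nat_lit 1141) (nat_lit 84) (.e (nat_lit 32787) (nat_lit 9) (.e (nat_lit 65619) (nat_lit 10) (.e (nat_lit 344117) (nat_lit 21) (.e (nat_lit 516097) (nat_lit 0) (.e (nat_lit 7581) (nat_lit 405) (.e (nat_lit 57718) (nat_lit 176) .nil))))))) (.g (nat_lit 6) .nil .nil))) 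
(.lf (nat_lit 16828) (.g (nat_lit 1759) (.e (nat_lit 1141) (nat_lit 84) (.e (nat_lit 32787) (nat_lit 9) (.e (nat_lit 65623) (nat_lit 12) (.e (nat_lit 385073) (nat_lit 31) (.e (nat_lit 573487) (nat_lit 14) (.e (nat_lit 73792) (nat_lit 45) .nil)))))) (.g (nat_lit 4) .nil .nil))))))) (.nd (nat_lit 2) (.nd (nat_lit 3) (.nd (nat_lit 4) (.nd (nat_lit 5) 
(.lf (nat_lit 16770) (.g (nat_lit 1762) (.e (nat_lit 1141) (nat_lit 84) (.e (nat_lit 32787) (nat_lit 9) (.e (nat_lit 65617) (nat_lit 10) (.e (nat_lit 344126) (nat_lit 25) (.e (nat_lit 548890) (nat_lit 10) (.e (nat_lit 73791) (nat_lit 45) .nil)))))) (.g (nat_lit 0) .nil .nil))) 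
(.lf (nat_lit 16802) (.g (nat_lit 2538) (.e (nat_lit 1141) (nat_lit 84) (.e (nat_lit 32787) (nat_lit 9) (.e (nat_lit 65619) (nat_lit 10) (.e (nat_lit 344117) (nat_lit 21) (.e (nat_lit 516098) (nat_lit 0) (.e (nat_lit 7583) (nat_lit 405) (.e (nat_lit 57713) (nat_lit 176) .nil))))))) (.g (nat_lit 5) .nil .nil)))) (.nd (nat_lit 5) 
(.lf (nat_lit 16786) (.g (nat_lit 2962) (.e (nat_lit 1141) (nat_lit 84) (.e (nat_lit 32787) (nat_lit 9) (.e (nat_lit 65617) (nat_lit 10) (.e (nat_lit 344130) (nat_lit 26) (.e (nat_lit 557087) (nat_lit 11) (.e (nat_lit 24589) (nat_lit 0) (.e (nat_lit 6150) (nat_lit 332) .nil))))))) (.g (nat_lit 7) .nil .nil))) 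
(.lf (nat_lit 16818) (.g (nat_lit 2496) (.e (nat_lit 1141) (nat_lit 84) (.e (nat_lit 32787) (nat_lit 9) (.e (nat_lit 65622) (nat_lit 12) (.e (nat_lit 385073) (nat_lit 31) (.e (nat_lit 573487) (nat_lit 14) (.e (nat_lit 73789) (nat_lit 45) .nil)))))) (.g (nat_lit 6) .nil .nil))))) (.nd (nat_lit 4) (.nd (nat_lit 5) 
(.lf (nat_lit 16778) (.g (nat_lit 3538) (.e (nat_lit 1141) (nat_lit 84) (.e (nat_lit 32787) (nat_lit 9) (.e (nat_lit 65617) (nat_lit 10) (.e (nat_lit 344130) (nat_lit 26) (.e (nat_lit 557087) (nat_lit 11) (.e (nat_lit 24584) (nat_lit 0) (.e (nat_lit 6092) (nat_lit 332) .nil))))))) (.g (nat_lit 7) .nil .nil))) 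
(.lf (nat_lit 16810) (.g (nat_lit 1896) (.e (nat_lit 1141) (nat_lit 84) (.e (nat_lit 32787) (nat_lit 9) (.e (nat_lit 65619) (nat_lit 10) (.e (nat_lit 344126) (nat_lit 25) (.e (nat_lit 548890) (nat_lit 10) (.e (nat_lit 73792) (nat_lit 45) .nil)))))) (.g (nat_lit 5) .nil .nil)))) (.nd (nat_lit 5) 
(.lf (nat_lit 16794) (.g (nat_lit 3347) (.e (nat_lit 1141) (nat_lit 84) (.e (nat_lit 32787) (nat_lit 9) (.e (nat_lit 65619) (nat_lit 10) (.e (nat_lit 344117) (nat_lit 21) (.e (nat_lit 516097) (nat_lit 0) (.e (nat_lit 7581) (nat_lit 405) (.e (nat_lit 57713) (nat_lit 176) .nil))))))) (.g (nat_lit 6) .nil .nil))) 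
(.lf (nat_lit 16826) (.g (nat_lit 3165) (.e (nat_lit 1141) (nat_lit 84) (.e (nat_lit 32787) (nat_lit 9) (.e (nat_lit 65623) (nat_lit 12) (.e (nat_lit 385072) (nat_lit 31) (.e (nat_lit 573487) (nat_lit 14) (.e (nat_lit 73789) (nat_lit 45) .nil)))))) (.g (nat_lit 6) .nil .nil)))))) (.nd (nat_lit 3) (.nd (nat_lit 4) (.nd (nat_lit 5) 
(.lf (nat_lit 16774) (.g (nat_lit 2877) (.e (nat_lit 1141) (nat_lit 84) (.e (nat_lit 32787) (nat_lit 9) (.e (nat_lit 65617) (nat_lit 10) (.e (nat_lit 344130) (nat_lit 26) (.e (nat_lit 557066) (nat_lit 9) (.e (nat_lit 297) (nat_lit 22) (.e (nat_lit 344076) (nat_lit 13) .nil))))))) (.g (nat_lit 6) .nil .nil))) 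
(.lf (nat_lit 16806) (.g (nat_lit 2079) (.e (nat_lit 1141) (nat_lit 84) (.e (nat_lit 32787) (nat_lit 9) (.e (nat_lit 65619) (nat_lit 10) (.e (nat_lit 344117) (nat_lit 21) (.e (nat_lit 516106) (nat_lit 0) (.e (nat_lit 7936) (nat_lit 405) (.e (nat_lit 57714) (nat_lit 176) .nil))))))) (.g (nat_lit 4) .nil .nil)))) (.nd (nat_lit 5) 
(.lf (nat_lit 16790) (.g (nat_lit 1464) (.e (nat_lit 1141) (nat_lit 84) (.e (nat_lit 32787) (nat_lit 9) (.e (nat_lit 65617) (nat_lit 10) (.e (nat_lit 344132) (nat_lit 26) (.e (nat_lit 557073) (nat_lit 9) (.e (nat_lit 290) (nat_lit 21) (.e (nat_lit 335934) (nat_lit 0) (.e (nat_lit 6149) (nat_lit 332) .nil)))))))) (.g (nat_lit 4) .nil .nil))) 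
(.lf (nat_lit 16822) (.g (nat_lit 2771) (.e (nat_lit 1141) (nat_lit 84) (.e (nat_lit 32787) (nat_lit 9) (.e (nat_lit 65622) (nat_lit 12) (.e (nat_lit 385074) (nat_lit 31) (.e (nat_lit 573487) (nat_lit 14) (.e (nat_lit 73792) (nat_lit 45) .nil)))))) (.g (nat_lit 0) .nil .nil))))) (.nd (nat_lit 4) (.nd (nat_lit 5) 
(.lf (nat_lit 16782) (.g (nat_lit 2855) (.e (nat_lit 1141) (nat_lit 84) (.e (nat_lit 32787) (nat_lit 9) (.e (nat_lit 65617) (nat_lit 10) (.e (nat_lit 344130) (nat_lit 26) (.e (nat_lit 557087) (nat_lit 11) (.e (nat_lit 24588) (nat_lit 0) (.e (nat_lit 6092) (nat_lit 332) .nil))))))) (.g (nat_lit 7) .nil .nil))) 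
(.lf (nat_lit 16814) (.g (nat_lit 3093) (.e (nat_lit 1141) (nat_lit 84) (.e (nat_lit 32787) (nat_lit 9) (.e (nat_lit 65619) (nat_lit 10) (.e (nat_lit 344129) (nat_lit 26) (.e (nat_lit 557066) (nat_lit 9) (.e (nat_lit 297) (nat_lit 22) (.e (nat_lit 344076) (nat_lit 13) .nil))))))) (.g (nat_lit 6) .nil .nil)))) (.nd (nat_lit 5) 
(.lf (nat_lit 16798) (.g (nat_lit 2896) (.e (nat_lit 1141) (nat_lit 84) (.e (nat_lit 32787) (nat_lit 9) (.e (nat_lit 65619) (nat_lit 10) (.e (nat_lit 344117) (nat_lit 21) (.e (nat_lit 516097) (nat_lit 0) (.e (nat_lit 7583) (nat_lit 405) (.e (nat_lit 57714) (nat_lit 176) .nil))))))) (.g (nat_lit 5) .nil .nil))) 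
(.lf (nat_lit 16830) (.g (nat_lit 3408) (.e (nat_lit 1141) (nat_lit 84) (.e (nat_lit 32787) (nat_lit 9) (.e (nat_lit 65624) (nat_lit 12) (.e (nat_lit 385072) (nat_lit 31) (.e (nat_lit 573487) (nat_lit 14) (.e (nat_lit 73789) (nat_lit 45) .nil)))))) (.g (nat_lit 6) .nil .nil)))))))) (.nd (nat_lit 1) (.nd (nat_lit 2) (.nd (nat_lit 3) (.nd (nat_lit 4) (.nd (nat_lit 5) 
(.lf (nat_lit 16769) (.g (nat_lit 1982) (.e (nat_lit 1141) (nat_lit 84) (.e (nat_lit 32787) (nat_lit 9) (.e (nat_lit 65617) (nat_lit 10) (.e (nat_lit 344126) (nat_lit 25) (.e (nat_lit 548890) (nat_lit 10) (.e (nat_lit 73789) (nat_lit 45) .nil)))))) (.g (nat_lit 0) .nil .nil))) 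
(.lf (nat_lit 16801) (.g (nat_lit 3057) (.e (nat_lit 1141) (nat_lit 84) (.e (nat_lit 32787) (nat_lit 9) (.e (nat_lit 65619) (nat_lit 10) (.e (nat_lit 344117) (nat_lit 21) (.e (nat_lit 516098) (nat_lit 0) (.e (nat_lit 7581) (nat_lit 405) (.e (nat_lit 57717) (nat_lit 176) .nil))))))) (.g (nat_lit 6) .nil .nil)))) (.nd (nat_lit 5) 
(.lf (nat_lit 16785) (.g (nat_lit 2754) (.e (nat_lit 1141) (nat_lit 84) (.e (nat_lit 32787) (nat_lit 9) (.e (nat_lit 65617) (nat_lit 10) (.e (nat_lit 344130) (nat_lit 26) (.e (nat_lit 557087) (nat_lit 11) (.e (nat_lit 24589) (nat_lit 0) (.e (nat_lit 6148) (nat_lit 332) .nil))))))) (.g (nat_lit 6) .nil .nil))) 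
(.lf (nat_lit 16817) (.g (nat_lit 3004) (.e (nat_lit 1141) (nat_lit 84) (.e (nat_lit 32787) (nat_lit 9) (.e (nat_lit 65622) (nat_lit 12) (.e (nat_lit 385072) (nat_lit 31) (.e (nat_lit 573487) (nat_lit 14) (.e (nat_lit 73789) (nat_lit 45) .nil)))))) (.g (nat_lit 6) .nil .nil))))) (.nd (nat_lit 4) (.nd (nat_lit 5) 
(.lf (nat_lit 16777) (.g (nat_lit 2004) (.e (nat_lit 1141) (nat_lit 84) (.e (nat_lit 32787) (nat_lit 9) (.e (nat_lit 65617) (nat_lit 10) (.e (nat_lit 344130) (nat_lit 26) (.e (nat_lit 557074) (nat_lit 9) (.e (nat_lit 7936) (nat_lit 22) (.e (nat_lit 344080) (nat_lit 13) .nil))))))) (.g (nat_lit 5) .nil .nil))) 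
(.lf (nat_lit 16809) (.g (nat_lit 1543) (.e (nat_lit 1141) (nat_lit 84) (.e (nat_lit 32787) (nat_lit 9) (.e (nat_lit 65619) (nat_lit 10) (.e (nat_lit 344126) (nat_lit 25) (.e (nat_lit 548890) (nat_lit 10) (.e (nat_lit 73791) (nat_lit 45) .nil)))))) (.g (nat_lit 4) .nil .nil)))) (.nd (nat_lit 5) 
(.lf (nat_lit 16793) (.g (nat_lit 2891) (.e (nat_lit 1141) (nat_lit 84) (.e (nat_lit 32787) (nat_lit 9) (.e (nat_lit 65619) (nat_lit 10) (.e (nat_lit 344117) (nat_lit 21) (.e (nat_lit 516097) (nat_lit 0) (.e (nat_lit 7581) (nat_lit 405) (.e (nat_lit 57711) (nat_lit 176) .nil))))))) (.g (nat_lit 5) .nil .nil))) 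
(.lf (nat_lit 16825) (.g (nat_lit 2316) (.e (nat_lit 1141) (nat_lit 84) (.e (nat_lit 32787) (nat_lit 9) (.e (nat_lit 65622) (nat_lit 12) (.e (nat_lit 385074) (nat_lit 31) (.e (nat_lit 573489) (nat_lit 14) (.e (nat_lit 73792) (nat_lit 45) .nil)))))) (.g (nat_lit 6) .nil .nil)))))) (.nd (nat_lit 3) (.nd (nat_lit 4) (.nd (nat_lit 5) 
(.lf (nat_lit 16773) (.g (nat_lit 2135) (.e (nat_lit 1141) (nat_lit 84) (.e (nat_lit 32787) (nat_lit 9) (.e (nat_lit 65617) (nat_lit 10) (.e (nat_lit 344130) (nat_lit 26) (.e (nat_lit 557065) (nat_lit 9) (.e (nat_lit 305) (nat_lit 22) (.e (nat_lit 344081) (nat_lit 13) .nil))))))) (.g (nat_lit 5) .nil .nil))) 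
(.lf (nat_lit 16805) (.g (nat_lit 2252) (.e (nat_lit 1141) (nat_lit 84) (.e (nat_lit 32787) (nat_lit 9) (.e (nat_lit 65619) (nat_lit 10) (.e (nat_lit 344117) (nat_lit 21) (.e (nat_lit 516106) (nat_lit 0) (.e (nat_lit 7936) (nat_lit 405) (.e (nat_lit 57711) (nat_lit 176) .nil))))))) (.g (nat_lit 5) .nil .nil)))) (.nd (nat_lit 5) 
(.lf (nat_lit 16789) (.g (nat_lit 1444) (.e (nat_lit 1141) (nat_lit 84) (.e (nat_lit 32787) (nat_lit 9) (.e (nat_lit 65617) (nat_lit 10) (.e (nat_lit 344132) (nat_lit 26) (.e (nat_lit 557073) (nat_lit 9) (.e (nat_lit 290) (nat_lit 21) (.e (nat_lit 335933) (nat_lit 0) (.e (nat_lit 6149) (nat_lit 332) .nil)))))))) (.g (nat_lit 4) .nil .nil))) 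
(.lf (nat_lit 16821) (.g (nat_lit 2312) (.e (nat_lit 1141) (nat_lit 84) (.e (nat_lit 32787) (nat_lit 9) (.e (nat_lit 65622) (nat_lit 12) (.e (nat_lit 385074) (nat_lit 31) (.e (nat_lit 573487) (nat_lit 14) (.e (nat_lit 73791) (nat_lit 45) .nil)))))) (.g (nat_lit 0) .nil .nil))))) (.nd (nat_lit 4) (.nd (nat_lit 5) 
(.lf (nat_lit 16781) (.g (nat_lit 2916) (.e (nat_lit 1141) (nat_lit 84) (.e (nat_lit 32787) (nat_lit 9) (.e (nat_lit 65617) (nat_lit 10) (.e (nat_lit 344130) (nat_lit 26) (.e (nat_lit 557087) (nat_lit 11) (.e (nat_lit 24584) (nat_lit 0) (.e (nat_lit 6135) (nat_lit 332) .nil))))))) (.g (nat_lit 7) .nil .nil))) 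
(.lf (nat_lit 16813) (.g (nat_lit 1726) (.e (nat_lit 1141) (nat_lit 84) (.e (nat_lit 32787) (nat_lit 9) (.e (nat_lit 65619) (nat_lit 10) (.e (nat_lit 344129) (nat_lit 26) (.e (nat_lit 557066) (nat_lit 9) (.e (nat_lit 232) (nat_lit 21) (.e (nat_lit 335907) (nat_lit 0) (.e (nat_lit 6146) (nat_lit 332) .nil)))))))) (.g (nat_lit 4) .nil .nil)))) (.nd (nat_lit 5) 
(.lf (nat_lit 16797) (.g (nat_lit 3295) (.e (nat_lit 1141) (nat_lit 84) (.e (nat_lit 32787) (nat_lit 9) (.e (nat_lit 65619) (nat_lit 10) (.e (nat_lit 344117) (nat_lit 21) (.e (nat_lit 516097) (nat_lit 0) (.e (nat_lit 7583) (nat_lit 405) (.e (nat_lit 57713) (nat_lit 176) .nil))))))) (.g (nat_lit 7) .nil .nil))) 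
(.lf (nat_lit 16829) (.g (nat_lit 3462) (.e (nat_lit 1141) (nat_lit 84) (.e (nat_lit 32787) (nat_lit 9) (.e (nat_lit 65623) (nat_lit 12) (.e (nat_lit 385074) (nat_lit 31) (.e (nat_lit 573487) (nat_lit 14) (.e (nat_lit 73792) (nat_lit 45) .nil)))))) (.g (nat_lit 5) .nil .nil))))))) (.nd (nat_lit 2) (.nd (nat_lit 3) (.nd (nat_lit 4) (.nd (nat_lit 5) 
(.lf (nat_lit 16771) (.g (nat_lit 1926) (.e (nat_lit 1141) (nat_lit 84) (.e (nat_lit 32787) (nat_lit 9) (.e (nat_lit 65617) (nat_lit 10) (.e (nat_lit 344130) (nat_lit 26) (.e (nat_lit 557064) (nat_lit 9) (.e (nat_lit 296) (nat_lit 22) (.e (nat_lit 344076) (nat_lit 13) .nil))))))) (.g (nat_lit 6) .nil .nil))) 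
(.lf (nat_lit 16803) (.g (nat_lit 2348) (.e (nat_lit 1141) (nat_lit 84) (.e (nat_lit 32787) (nat_lit 9) (.e (nat_lit 65619) (nat_lit 10) (.e (nat_lit 344117) (nat_lit 21) (.e (nat_lit 516098) (nat_lit 0) (.e (nat_lit 7583) (nat_lit 405) (.e (nat_lit 57714) (nat_lit 176) .nil))))))) (.g (nat_lit 5) .nil .nil)))) (.nd (nat_lit 5) 
(.lf (nat_lit 16787) (.g (nat_lit 1947) (.e (nat_lit 1141) (nat_lit 84) (.e (nat_lit 32787) (nat_lit 9) (.e (nat_lit 65617) (nat_lit 10) (.e (nat_lit 344132) (nat_lit 26) (.e (nat_lit 557072) (nat_lit 9) (.e (nat_lit 7936) (nat_lit 22) (.e (nat_lit 344076) (nat_lit 13) .nil))))))) (.g (nat_lit 5) .nil .nil))) 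
(.lf (nat_lit 16819) (.g (nat_lit 2645) (.e (nat_lit 1141) (nat_lit 84) (.e (nat_lit 32787) (nat_lit 9) (.e (nat_lit 65622) (nat_lit 12) (.e (nat_lit 385074) (nat_lit 31) (.e (nat_lit 573484) (nat_lit 13) (.e (nat_lit 65543) (nat_lit 0) (.e (nat_lit 6146) (nat_lit 332) .nil))))))) (.g (nat_lit 5) .nil .nil))))) (.nd (nat_lit 4) (.nd (nat_lit 5) 
(.lf (nat_lit 16779) (.g (nat_lit 3015) (.e (nat_lit 1141) (nat_lit 84) (.e (nat_lit 32787) (nat_lit 9) (.e (nat_lit 65617) (nat_lit 10) (.e (nat_lit 344130) (nat_lit 26) (.e (nat_lit 557087) (nat_lit 11) (.e (nat_lit 24584) (nat_lit 0) (.e (nat_lit 6123) (nat_lit 332) .nil))))))) (.g (nat_lit 6) .nil .nil))) 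
(.lf (nat_lit 16811) (.g (nat_lit 1454) (.e (nat_lit 1141) (nat_lit 84) (.e (nat_lit 32787) (nat_lit 9) (.e (nat_lit 65619) (nat_lit 10) (.e (nat_lit 344129) (nat_lit 26) (.e (nat_lit 557066) (nat_lit 9) .nil))))) .nil))) (.nd (nat_lit 5) 
(.lf (nat_lit 16795) (.g (nat_lit 3809) (.e (nat_lit 1141) (nat_lit 84) (.e (nat_lit 32787) (nat_lit 9) (.e (nat_lit 65619) (nat_lit 10) (.e (nat_lit 344117) (nat_lit 21) (.e (nat_lit 516097) (nat_lit 0) (.e (nat_lit 7581) (nat_lit 405) (.e (nat_lit 57717) (nat_lit 176) .nil))))))) (.g (nat_lit 7) .nil .nil))) 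
(.lf (nat_lit 16827) (.g (nat_lit 2745) (.e (nat_lit 1141) (nat_lit 84) (.e (nat_lit 32787) (nat_lit 9) (.e (nat_lit 65623) (nat_lit 12) (.e (nat_lit 385073) (nat_lit 31) (.e (nat_lit 573487) (nat_lit 14) (.e (nat_lit 73789) (nat_lit 45) .nil)))))) (.g (nat_lit 6) .nil .nil)))))) (.nd (nat_lit 3) (.nd (nat_lit 4) (.nd (nat_lit 5) 
(.lf (nat_lit 16775) (.g (nat_lit 2682) (.e (nat_lit 1141) (nat_lit 84) (.e (nat_lit 32787) (nat_lit 9) (.e (nat_lit 65617) (nat_lit 10) (.e (nat_lit 344130) (nat_lit 26) (.e (nat_lit 557066) (nat_lit 9) (.e (nat_lit 307) (nat_lit 22) (.e (nat_lit 344076) (nat_lit 13) .nil))))))) (.g (nat_lit 6) .nil .nil))) 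
(.lf (nat_lit 16807) (.g (nat_lit 2045) (.e (nat_lit 1141) (nat_lit 84) (.e (nat_lit 32787) (nat_lit 9) (.e (nat_lit 65619) (nat_lit 10) (.e (nat_lit 344117) (nat_lit 21) (.e (nat_lit 516106) (nat_lit 0) (.e (nat_lit 7936) (nat_lit 405) (.e (nat_lit 57718) (nat_lit 176) .nil))))))) (.g (nat_lit 4) .nil .nil)))) (.nd (nat_lit 5) 
(.lf (nat_lit 16791) (.g (nat_lit 1430) (.e (nat_lit 1141) (nat_lit 84) (.e (nat_lit 32787) (nat_lit 9) (.e (nat_lit 65617) (nat_lit 10) (.e (nat_lit 344133) (nat_lit 26) (.e (nat_lit 557068) (nat_lit 9) .nil))))) .nil)) 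
(.lf (nat_lit 16823) (.g (nat_lit 2952) (.e (nat_lit 1141) (nat_lit 84) (.e (nat_lit 32787) (nat_lit 9) (.e (nat_lit 65622) (nat_lit 12) (.e (nat_lit 385074) (nat_lit 31) (.e (nat_lit 573488) (nat_lit 14) (.e (nat_lit 73788) (nat_lit 45) .nil)))))) (.g (nat_lit 5) .nil .nil))))) (.nd (nat_lit 4) (.nd (nat_lit 5) 
(.lf (nat_lit 16783) (.g (nat_lit 2416) (.e (nat_lit 1141) (nat_lit 84) (.e (nat_lit 32787) (nat_lit 9) (.e (nat_lit 65617) (nat_lit 10) (.e (nat_lit 344130) (nat_lit 26) (.e (nat_lit 557087) (nat_lit 11) (.e (nat_lit 24588) (nat_lit 0) (.e (nat_lit 6148) (nat_lit 332) .nil))))))) (.g (nat_lit 6) .nil .nil))) 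
(.lf (nat_lit 16815) (.g (nat_lit 1640) (.e (nat_lit 1141) (nat_lit 84) (.e (nat_lit 32787) (nat_lit 9) (.e (nat_lit 65620) (nat_lit 10) (.e (nat_lit 344126) (nat_lit 25) (.e (nat_lit 548890) (nat_lit 10) (.e (nat_lit 73789) (nat_lit 45) .nil)))))) (.g (nat_lit 0) .nil .nil)))) (.nd (nat_lit 5) 
(.lf (nat_lit 16799) (.g (nat_lit 2986) (.e (nat_lit 1141) (nat_lit 84) (.e (nat_lit 32787) (nat_lit 9) (.e (nat_lit 65619) (nat_lit 10) (.e (nat_lit 344117) (nat_lit 21) (.e (nat_lit 516097) (nat_lit 0) (.e (nat_lit 7583) (nat_lit 405) (.e (nat_lit 57717) (nat_lit 176) .nil))))))) (.g (nat_lit 5) .nil .nil))) 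
(.lf (nat_lit 16831) (.g (nat_lit 3259) (.e (nat_lit 1141) (nat_lit 84) (.e (nat_lit 32787) (nat_lit 9) (.e (nat_lit 65624) (nat_lit 12) (.e (nat_lit 385073) (nat_lit 31) (.e (nat_lit 573487) (nat_lit 14) (.e (nat_lit 73789) (nat_lit 45) .nil)))))) (.g (nat_lit 6) .nil .nil)))))))))

noncomputable def tv228 : DT := (.nd (nat_lit 0) (.nd (nat_lit 1) (.nd (nat_lit 2) (.nd (nat_lit 3) (.nd (nat_lit 4) (.nd (nat_lit 5) 
(.lf (nat_lit 16832) (.g (nat_lit 2978) (.e (nat_lit 1141) (nat_lit 84) (.e (nat_lit 32787) (nat_lit 9) (.e (nat_lit 65624) (nat_lit 12) (.e (nat_lit 385074) (nat_lit 31) (.e (nat_lit 573484) (nat_lit 13) (.e (nat_lit 65543) (nat_lit 0) (.e (nat_lit 6146) (nat_lit 332) .nil))))))) (.g (nat_lit 5) .nil .nil))) 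
(.lf (nat_lit 16864) (.g (nat_lit 2007) (.e (nat_lit 1141) (nat_lit 84) (.e (nat_lit 32787) (nat_lit 9) (.e (nat_lit 65630) (nat_lit 14) (.e (nat_lit 401410) (nat_lit 0) (.e (nat_lit 3262) (nat_lit 198) (.e (nat_lit 540700) (nat_lit 10) (.e (nat_lit 344081) (nat_lit 13) .nil))))))) (.g (nat_lit 4) .nil .nil)))) (.nd (nat_lit 5) 
(.lf (nat_lit 16848) (.g (nat_lit 2764) (.e (nat_lit 1141) (nat_lit 84) (.e (nat_lit 32787) (nat_lit 9) (.e (nat_lit 65628) (nat_lit 14) (.e (nat_lit 401424) (nat_lit 2) (.e (nat_lit 196668) (nat_lit 14) (.e (nat_lit 73789) (nat_lit 45) .nil)))))) (.g (nat_lit 6) .nil .nil))) 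
(.lf (nat_lit 16880) (.g (nat_lit 2517) (.e (nat_lit 1141) (nat_lit 84) (.e (nat_lit 32787) (nat_lit 9) (.e (nat_lit 65630) (nat_lit 14) (.e (nat_lit 401425) (nat_lit 2) (.e (nat_lit 204544) (nat_lit 14) .nil))))) .nil)))) (.nd (nat_lit 4) (.nd (nat_lit 5) 
(.lf (nat_lit 16840) (.g (nat_lit 1965) (.e (nat_lit 1141) (nat_lit 84) (.e (nat_lit 32787) (nat_lit 9) (.e (nat_lit 65628) (nat_lit 14) (.e (nat_lit 401412) (nat_lit 0) (.e (nat_lit 3114) (nat_lit 193) (.e (nat_lit 500069) (nat_lit 19) (.e (nat_lit 73791) (nat_lit 45) .nil))))))) (.g (nat_lit 7) .nil .nil))) 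
(.lf (nat_lit 16872) (.g (nat_lit 3049) (.e (nat_lit 1141) (nat_lit 84) (.e (nat_lit 32787) (nat_lit 9) (.e (nat_lit 65630) (nat_lit 14) (.e (nat_lit 401412) (nat_lit 0) (.e (nat_lit 3262) (nat_lit 198) (.e (nat_lit 540700) (nat_lit 10) (.e (nat_lit 344080) (nat_lit 13) .nil))))))) (.g (nat_lit 0) .nil .nil)))) (.nd (nat_lit 5) 
(.lf (nat_lit 16856) (.g (nat_lit 2742) (.e (nat_lit 1141) (nat_lit 84) (.e (nat_lit 32787) (nat_lit 9) (.e (nat_lit 65628) (nat_lit 14) (.e (nat_lit 401428) (nat_lit 3) (.e (nat_lit 204862) (nat_lit 27) (.e (nat_lit 344076) (nat_lit 13) .nil)))))) (.g (nat_lit 0) .nil .nil))) 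
(.lf (nat_lit 16888) (.g (nat_lit 3989) (.e (nat_lit 1141) (nat_lit 84) (.e (nat_lit 32787) (nat_lit 9) (.e (nat_lit 65630) (nat_lit 14) (.e (nat_lit 401428) (nat_lit 3) (.e (nat_lit 204863) (nat_lit 27) (.e (nat_lit 344074) (nat_lit 13) .nil)))))) (.g (nat_lit 0) .nil .nil)))))) (.nd (nat_lit 3) (.nd (nat_lit 4) (.nd (nat_lit 5) 
(.lf (nat_lit 16836) (.g (nat_lit 2631) (.e (nat_lit 1141) (nat_lit 84) (.e (nat_lit 32787) (nat_lit 9) (.e (nat_lit 65624) (nat_lit 12) (.e (nat_lit 385074) (nat_lit 31) (.e (nat_lit 573489) (nat_lit 14) (.e (nat_lit 73788) (nat_lit 45) .nil)))))) (.g (nat_lit 0) .nil .nil))) 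
(.lf (nat_lit 16868) (.g (nat_lit 2237) (.e (nat_lit 1141) (nat_lit 84) (.e (nat_lit 32787) (nat_lit 9) (.e (nat_lit 65630) (nat_lit 14) (.e (nat_lit 401412) (nat_lit 0) (.e (nat_lit 3122) (nat_lit 193) .nil))))) .nil))) (.nd (nat_lit 5) 
(.lf (nat_lit 16852) (.g (nat_lit 3114) (.e (nat_lit 1141) (nat_lit 84) (.e (nat_lit 32787) (nat_lit 9) (.e (nat_lit 65628) (nat_lit 14) (.e (nat_lit 401425) (nat_lit 2) (.e (nat_lit 196669) (nat_lit 14) (.e (nat_lit 73788) (nat_lit 45) .nil)))))) (.g (nat_lit 0) .nil .nil))) 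
(.lf (nat_lit 16884) (.g (nat_lit 3097) (.e (nat_lit 1141) (nat_lit 84) (.e (nat_lit 32787) (nat_lit 9) (.e (nat_lit 65630) (nat_lit 14) (.e (nat_lit 401427) (nat_lit 3) (.e (nat_lit 204863) (nat_lit 27) (.e (nat_lit 344080) (nat_lit 13) .nil)))))) (.g (nat_lit 5) .nil .nil))))) (.nd (nat_lit 4) (.nd (nat_lit 5) 
(.lf (nat_lit 16844) (.g (nat_lit 2289) (.e (nat_lit 1141) (nat_lit 84) (.e (nat_lit 32787) (nat_lit 9) (.e (nat_lit 65628) (nat_lit 14) (.e (nat_lit 401412) (nat_lit 0) (.e (nat_lit 3133) (nat_lit 193) (.e (nat_lit 500071) (nat_lit 19) (.e (nat_lit 73789) (nat_lit 45) .nil))))))) (.g (nat_lit 0) .nil .nil))) 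
(.lf (nat_lit 16876) (.g (nat_lit 2054) (.e (nat_lit 1141) (nat_lit 84) (.e (nat_lit 32787) (nat_lit 9) (.e (nat_lit 65630) (nat_lit 14) (.e (nat_lit 401425) (nat_lit 2) (.e (nat_lit 196628) (nat_lit 9) .nil))))) .nil))) (.nd (nat_lit 5) 
(.lf (nat_lit 16860) (.g (nat_lit 3118) (.e (nat_lit 1141) (nat_lit 84) (.e (nat_lit 32787) (nat_lit 9) (.e (nat_lit 65628) (nat_lit 14) (.e (nat_lit 401428) (nat_lit 3) (.e (nat_lit 204863) (nat_lit 27) (.e (nat_lit 344080) (nat_lit 13) .nil)))))) (.g (nat_lit 0) .nil .nil))) 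
(.lf (nat_lit 16892) (.g (nat_lit 3034) (.e (nat_lit 1141) (nat_lit 84) (.e (nat_lit 32788) (nat_lit 10) (.e (nat_lit 73781) (nat_lit 32) (.e (nat_lit 2663) (nat_lit 167) (.e (nat_lit 196670) (nat_lit 14) (.e (nat_lit 73792) (nat_lit 45) .nil)))))) (.g (nat_lit 6) .nil .nil))))))) (.nd (nat_lit 2) (.nd (nat_lit 3) (.nd (nat_lit 4) (.nd (nat_lit 5) 
(.lf (nat_lit 16834) (.g (nat_lit 3378) (.e (nat_lit 1141) (nat_lit 84) (.e (nat_lit 32787) (nat_lit 9) (.e (nat_lit 65624) (nat_lit 12) (.e (nat_lit 385074) (nat_lit 31) (.e (nat_lit 573488) (nat_lit 14) (.e (nat_lit 73788) (nat_lit 45) .nil)))))) (.g (nat_lit 5) .nil .nil))) 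
(.lf (nat_lit 16866) (.g (nat_lit 2229) (.e (nat_lit 1141) (nat_lit 84) (.e (nat_lit 32787) (nat_lit 9) (.e (nat_lit 65630) (nat_lit 14) (.e (nat_lit 401412) (nat_lit 0) (.e (nat_lit 3107) (nat_lit 193) .nil))))) .nil))) (.nd (nat_lit 5) 
(.lf (nat_lit 16850) (.g (nat_lit 2306) (.e (nat_lit 1141) (nat_lit 84) (.e (nat_lit 32787) (nat_lit 9) (.e (nat_lit 65628) (nat_lit 14) (.e (nat_lit 401425) (nat_lit 2) (.e (nat_lit 196628) (nat_lit 9) (.e (nat_lit 7936) (nat_lit 109) (.e (nat_lit 344081) (nat_lit 13) .nil))))))) (.g (nat_lit 4) .nil .nil))) 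
(.lf (nat_lit 16882) (.g (nat_lit 2360) (.e (nat_lit 1141) (nat_lit 84) (.e (nat_lit 32787) (nat_lit 9) (.e (nat_lit 65630) (nat_lit 14) (.e (nat_lit 401427) (nat_lit 3) (.e (nat_lit 204862) (nat_lit 27) .nil))))) .nil)))) (.nd (nat_lit 4) (.nd (nat_lit 5) 
(.lf (nat_lit 16842) (.g (nat_lit 1580) (.e (nat_lit 1141) (nat_lit 84) (.e (nat_lit 32787) (nat_lit 9) (.e (nat_lit 65628) (nat_lit 14) (.e (nat_lit 401412) (nat_lit 0) (.e (nat_lit 3128) (nat_lit 193) (.e (nat_lit 500071) (nat_lit 19) (.e (nat_lit 73789) (nat_lit 45) .nil))))))) (.g (nat_lit 5) .nil .nil))) 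
(.lf (nat_lit 16874) (.g (nat_lit 3123) (.e (nat_lit 1141) (nat_lit 84) (.e (nat_lit 32787) (nat_lit 9) (.e (nat_lit 65630) (nat_lit 14) (.e (nat_lit 401424) (nat_lit 2) (.e (nat_lit 196668) (nat_lit 14) (.e (nat_lit 73789) (nat_lit 45) .nil)))))) (.g (nat_lit 6) .nil .nil)))) (.nd (nat_lit 5) 
(.lf (nat_lit 16858) (.g (nat_lit 4042) (.e (nat_lit 1141) (nat_lit 84) (.e (nat_lit 32787) (nat_lit 9) (.e (nat_lit 65628) (nat_lit 14) (.e (nat_lit 401428) (nat_lit 3) (.e (nat_lit 204863) (nat_lit 27) (.e (nat_lit 344074) (nat_lit 13) .nil)))))) (.g (nat_lit 0) .nil .nil))) 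
(.lf (nat_lit 16890) (.g (nat_lit 3117) (.e (nat_lit 1141) (nat_lit 84) (.e (nat_lit 32787) (nat_lit 9) (.e (nat_lit 65630) (nat_lit 14) (.e (nat_lit 401428) (nat_lit 3) (.e (nat_lit 204863) (nat_lit 27) (.e (nat_lit 344081) (nat_lit 13) .nil)))))) (.g (nat_lit 0) .nil .nil)))))) (.nd (nat_lit 3) (.nd (nat_lit 4) (.nd (nat_lit 5) 
(.lf (nat_lit 16838) (.g (nat_lit 2684) (.e (nat_lit 1141) (nat_lit 84) (.e (nat_lit 32787) (nat_lit 9) (.e (nat_lit 65624) (nat_lit 12) (.e (nat_lit 385074) (nat_lit 31) (.e (nat_lit 573489) (nat_lit 14) (.e (nat_lit 73792) (nat_lit 45) .nil)))))) (.g (nat_lit 6) .nil .nil))) 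
(.lf (nat_lit 16870) (.g (nat_lit 2214) (.e (nat_lit 1141) (nat_lit 84) (.e (nat_lit 32787) (nat_lit 9) (.e (nat_lit 65630) (nat_lit 14) (.e (nat_lit 401412) (nat_lit 0) (.e (nat_lit 3133) (nat_lit 193) .nil))))) .nil))) (.nd (nat_lit 5) 
(.lf (nat_lit 16854) (.g (nat_lit 3183) (.e (nat_lit 1141) (nat_lit 84) (.e (nat_lit 32787) (nat_lit 9) (.e (nat_lit 65628) (nat_lit 14) (.e (nat_lit 401425) (nat_lit 2) (.e (nat_lit 196670) (nat_lit 14) (.e (nat_lit 73792) (nat_lit 45) .nil)))))) (.g (nat_lit 0) .nil .nil))) 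
(.lf (nat_lit 16886) (.g (nat_lit 2736) (.e (nat_lit 1141) (nat_lit 84) (.e (nat_lit 32787) (nat_lit 9) (.e (nat_lit 65630) (nat_lit 14) (.e (nat_lit 401428) (nat_lit 3) (.e (nat_lit 204862) (nat_lit 27) (.e (nat_lit 344076) (nat_lit 13) .nil)))))) (.g (nat_lit 0) .nil .nil))))) (.nd (nat_lit 4) (.nd (nat_lit 5) 
(.lf (nat_lit 16846) (.g (nat_lit 2022) (.e (nat_lit 1141) (nat_lit 84) (.e (nat_lit 32787) (nat_lit 9) (.e (nat_lit 65628) (nat_lit 14) (.e (nat_lit 401412) (nat_lit 0) (.e (nat_lit 3262) (nat_lit 198) (.e (nat_lit 540700) (nat_lit 10) (.e (nat_lit 344081) (nat_lit 13) .nil))))))) (.g (nat_lit 6) .nil .nil))) 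
(.lf (nat_lit 16878) (.g (nat_lit 3171) (.e (nat_lit 1141) (nat_lit 84) (.e (nat_lit 32787) (nat_lit 9) (.e (nat_lit 65630) (nat_lit 14) (.e (nat_lit 401425) (nat_lit 2) (.e (nat_lit 196669) (nat_lit 14) (.e (nat_lit 73788) (nat_lit 45) .nil)))))) (.g (nat_lit 0) .nil .nil)))) (.nd (nat_lit 5) 
(.lf (nat_lit 16862) (.g (nat_lit 1831) (.e (nat_lit 1141) (nat_lit 84) (.e (nat_lit 32787) (nat_lit 9) (.e (nat_lit 65630) (nat_lit 14) (.e (nat_lit 401410) (nat_lit 0) (.e (nat_lit 3114) (nat_lit 193) (.e (nat_lit 500069) (nat_lit 19) (.e (nat_lit 73791) (nat_lit 45) .nil))))))) (.g (nat_lit 4) .nil .nil))) 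
(.lf (nat_lit 16894) (.g (nat_lit 2084) (.e (nat_lit 1141) (nat_lit 84) (.e (nat_lit 32788) (nat_lit 10) (.e (nat_lit 73782) (nat_lit 32) (.e (nat_lit 2682) (nat_lit 168) (.e (nat_lit 204863) (nat_lit 27) (.e (nat_lit 344081) (nat_lit 13) .nil)))))) (.g (nat_lit 0) .nil .nil)))))))) (.nd (nat_lit 1) (.nd (nat_lit 2) (.nd (nat_lit 3) (.nd (nat_lit 4) (.nd (nat_lit 5) 
(.lf (nat_lit 16833) (.g (nat_lit 3143) (.e (nat_lit 1141) (nat_lit 84) (.e (nat_lit 32787) (nat_lit 9) (.e (nat_lit 65624) (nat_lit 12) (.e (nat_lit 385074) (nat_lit 31) (.e (nat_lit 573487) (nat_lit 14) (.e (nat_lit 73792) (nat_lit 45) .nil)))))) (.g (nat_lit 0) .nil .nil))) 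
(.lf (nat_lit 16865) (.g (nat_lit 1497) (.e (nat_lit 1141) (nat_lit 84) (.e (nat_lit 32787) (nat_lit 9) (.e (nat_lit 65630) (nat_lit 14) (.e (nat_lit 401412) (nat_lit 0) .nil)))) .nil))) (.nd (nat_lit 5) 
(.lf (nat_lit 16849) (.g (nat_lit 3000) (.e (nat_lit 1141) (nat_lit 84) (.e (nat_lit 32787) (nat_lit 9) (.e (nat_lit 65628) (nat_lit 14) (.e (nat_lit 401424) (nat_lit 2) (.e (nat_lit 196670) (nat_lit 14) (.e (nat_lit 73792) (nat_lit 45) .nil)))))) (.g (nat_lit 6) .nil .nil))) 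
(.lf (nat_lit 16881) (.g (nat_lit 2633) (.e (nat_lit 1141) (nat_lit 84) (.e (nat_lit 32787) (nat_lit 9) (.e (nat_lit 65630) (nat_lit 14) (.e (nat_lit 401425) (nat_lit 2) (.e (nat_lit 204544) (nat_lit 14) (.e (nat_lit 73791) (nat_lit 45) .nil)))))) (.g (nat_lit 4) .nil .nil))))) (.nd (nat_lit 4) (.nd (nat_lit 5) 
(.lf (nat_lit 16841) (.g (nat_lit 2255) (.e (nat_lit 1141) (nat_lit 84) (.e (nat_lit 32787) (nat_lit 9) (.e (nat_lit 65628) (nat_lit 14) (.e (nat_lit 401412) (nat_lit 0) (.e (nat_lit 3122) (nat_lit 193) (.e (nat_lit 500071) (nat_lit 19) (.e (nat_lit 73789) (nat_lit 45) .nil))))))) (.g (nat_lit 0) .nil .nil))) 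
(.lf (nat_lit 16873) (.g (nat_lit 2959) (.e (nat_lit 1141) (nat_lit 84) (.e (nat_lit 32787) (nat_lit 9) (.e (nat_lit 65630) (nat_lit 14) (.e (nat_lit 401423) (nat_lit 2) (.e (nat_lit 196668) (nat_lit 14) (.e (nat_lit 73789) (nat_lit 45) .nil)))))) (.g (nat_lit 6) .nil .nil)))) (.nd (nat_lit 5) 
(.lf (nat_lit 16857) (.g (nat_lit 2500) (.e (nat_lit 1141) (nat_lit 84) (.e (nat_lit 32787) (nat_lit 9) (.e (nat_lit 65628) (nat_lit 14) (.e (nat_lit 401428) (nat_lit 3) (.e (nat_lit 204862) (nat_lit 27) (.e (nat_lit 344080) (nat_lit 13) .nil)))))) (.g (nat_lit 5) .nil .nil))) 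
(.lf (nat_lit 16889) (.g (nat_lit 3103) (.e (nat_lit 1141) (nat_lit 84) (.e (nat_lit 32787) (nat_lit 9) (.e (nat_lit 65630) (nat_lit 14) (.e (nat_lit 401428) (nat_lit 3) (.e (nat_lit 204863) (nat_lit 27) (.e (nat_lit 344080) (nat_lit 13) .nil)))))) (.g (nat_lit 0) .nil .nil)))))) (.nd (nat_lit 3) (.nd (nat_lit 4) (.nd (nat_lit 5) 
(.lf (nat_lit 16837) (.g (nat_lit 2682) (.e (nat_lit 1141) (nat_lit 84) (.e (nat_lit 32787) (nat_lit 9) (.e (nat_lit 65624) (nat_lit 12) (.e (nat_lit 385074) (nat_lit 31) (.e (nat_lit 573489) (nat_lit 14) (.e (nat_lit 73789) (nat_lit 45) .nil)))))) (.g (nat_lit 6) .nil .nil))) 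
(.lf (nat_lit 16869) (.g (nat_lit 2281) (.e (nat_lit 1141) (nat_lit 84) (.e (nat_lit 32787) (nat_lit 9) (.e (nat_lit 65630) (nat_lit 14) (.e (nat_lit 401412) (nat_lit 0) (.e (nat_lit 3128) (nat_lit 193) (.e (nat_lit 500071) (nat_lit 19) (.e (nat_lit 73789) (nat_lit 45) .nil))))))) (.g (nat_lit 4) .nil .nil)))) (.nd (nat_lit 5) 
(.lf (nat_lit 16853) (.g (nat_lit 2776) (.e (nat_lit 1141) (nat_lit 84) (.e (nat_lit 32787) (nat_lit 9) (.e (nat_lit 65628) (nat_lit 14) (.e (nat_lit 401425) (nat_lit 2) (.e (nat_lit 196670) (nat_lit 14) (.e (nat_lit 73791) (nat_lit 45) .nil)))))) (.g (nat_lit 0) .nil .nil))) 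
(.lf (nat_lit 16885) (.g (nat_lit 3454) (.e (nat_lit 1141) (nat_lit 84) (.e (nat_lit 32787) (nat_lit 9) (.e (nat_lit 65630) (nat_lit 14) (.e (nat_lit 401427) (nat_lit 3) (.e (nat_lit 204863) (nat_lit 27) (.e (nat_lit 344081) (nat_lit 13) .nil)))))) (.g (nat_lit 0) .nil .nil))))) (.nd (nat_lit 4) (.nd (nat_lit 5) 
(.lf (nat_lit 16845) (.g (nat_lit 1581) (.e (nat_lit 1141) (nat_lit 84) (.e (nat_lit 32787) (nat_lit 9) (.e (nat_lit 65628) (nat_lit 14) (.e (nat_lit 401412) (nat_lit 0) (.e (nat_lit 3148) (nat_lit 193) (.e (nat_lit 500071) (nat_lit 19) (.e (nat_lit 73789) (nat_lit 45) .nil))))))) (.g (nat_lit 5) .nil .nil))) 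
(.lf (nat_lit 16877) (.g (nat_lit 2521) (.e (nat_lit 1141) (nat_lit 84) (.e (nat_lit 32787) (nat_lit 9) (.e (nat_lit 65630) (nat_lit 14) (.e (nat_lit 401425) (nat_lit 2) (.e (nat_lit 196667) (nat_lit 14) .nil))))) .nil))) (.nd (nat_lit 5) 
(.lf (nat_lit 16861) (.g (nat_lit 3056) (.e (nat_lit 1141) (nat_lit 84) (.e (nat_lit 32787) (nat_lit 9) (.e (nat_lit 65628) (nat_lit 14) (.e (nat_lit 401428) (nat_lit 3) (.e (nat_lit 204863) (nat_lit 27) (.e (nat_lit 344081) (nat_lit 13) .nil)))))) (.g (nat_lit 0) .nil .nil))) 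
(.lf (nat_lit 16893) (.g (nat_lit 1961) (.e (nat_lit 1141) (nat_lit 84) (.e (nat_lit 32788) (nat_lit 10) (.e (nat_lit 73781) (nat_lit 32) (.e (nat_lit 2682) (nat_lit 168) (.e (nat_lit 204863) (nat_lit 27) (.e (nat_lit 344080) (nat_lit 13) .nil)))))) (.g (nat_lit 6) .nil .nil))))))) (.nd (nat_lit 2) (.nd (nat_lit 3) (.nd (nat_lit 4) (.nd (nat_lit 5) 
(.lf (nat_lit 16835) (.g (nat_lit 2735) (.e (nat_lit 1141) (nat_lit 84) (.e (nat_lit 32787) (nat_lit 9) (.e (nat_lit 65624) (nat_lit 12) (.e (nat_lit 385074) (nat_lit 31) (.e (nat_lit 573489) (nat_lit 14) (.e (nat_lit 73786) (nat_lit 45) .nil)))))) (.g (nat_lit 5) .nil .nil))) 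
(.lf (nat_lit 16867) (.g (nat_lit 2663) (.e (nat_lit 1141) (nat_lit 84) (.e (nat_lit 32787) (nat_lit 9) (.e (nat_lit 65630) (nat_lit 14) (.e (nat_lit 401412) (nat_lit 0) (.e (nat_lit 3114) (nat_lit 193) (.e (nat_lit 500069) (nat_lit 19) (.e (nat_lit 73791) (nat_lit 45) .nil))))))) (.g (nat_lit 7) .nil .nil)))) (.nd (nat_lit 5) 
(.lf (nat_lit 16851) (.g (nat_lit 3119) (.e (nat_lit 1141) (nat_lit 84) (.e (nat_lit 32787) (nat_lit 9) (.e (nat_lit 65628) (nat_lit 14) (.e (nat_lit 401425) (nat_lit 2) (.e (nat_lit 196668) (nat_lit 14) (.e (nat_lit 73789) (nat_lit 45) .nil)))))) (.g (nat_lit 0) .nil .nil))) 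
(.lf (nat_lit 16883) (.g (nat_lit 2583) (.e (nat_lit 1141) (nat_lit 84) (.e (nat_lit 32787) (nat_lit 9) (.e (nat_lit 65630) (nat_lit 14) (.e (nat_lit 401427) (nat_lit 3) (.e (nat_lit 204862) (nat_lit 27) (.e (nat_lit 344076) (nat_lit 13) .nil)))))) (.g (nat_lit 4) .nil .nil))))) (.nd (nat_lit 4) (.nd (nat_lit 5) 
(.lf (nat_lit 16843) (.g (nat_lit 1446) (.e (nat_lit 1141) (nat_lit 84) (.e (nat_lit 32787) (nat_lit 9) (.e (nat_lit 65628) (nat_lit 14) (.e (nat_lit 401412) (nat_lit 0) (.e (nat_lit 3133) (nat_lit 193) .nil))))) .nil)) 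
(.lf (nat_lit 16875) (.g (nat_lit 3330) (.e (nat_lit 1141) (nat_lit 84) (.e (nat_lit 32787) (nat_lit 9) (.e (nat_lit 65630) (nat_lit 14) (.e (nat_lit 401424) (nat_lit 2) (.e (nat_lit 196670) (nat_lit 14) (.e (nat_lit 73792) (nat_lit 45) .nil)))))) (.g (nat_lit 6) .nil .nil)))) (.nd (nat_lit 5) 
(.lf (nat_lit 16859) (.g (nat_lit 3221) (.e (nat_lit 1141) (nat_lit 84) (.e (nat_lit 32787) (nat_lit 9) (.e (nat_lit 65628) (nat_lit 14) (.e (nat_lit 401428) (nat_lit 3) (.e (nat_lit 204863) (nat_lit 27) (.e (nat_lit 344079) (nat_lit 13) .nil)))))) (.g (nat_lit 0) .nil .nil))) 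
(.lf (nat_lit 16891) (.g (nat_lit 3061) (.e (nat_lit 1141) (nat_lit 84) (.e (nat_lit 32788) (nat_lit 10) (.e (nat_lit 73781) (nat_lit 32) (.e (nat_lit 2663) (nat_lit 167) (.e (nat_lit 196668) (nat_lit 14) (.e (nat_lit 73789) (nat_lit 45) .nil)))))) (.g (nat_lit 0) .nil .nil)))))) (.nd (nat_lit 3) (.nd (nat_lit 4) (.nd (nat_lit 5) 
(.lf (nat_lit 16839) (.g (nat_lit 1009) (.e (nat_lit 1141) (nat_lit 84) (.e (nat_lit 32787) (nat_lit 9) (.e (nat_lit 65628) (nat_lit 14) (.e (nat_lit 401412) (nat_lit 0) .nil)))) .nil)) 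
(.lf (nat_lit 16871) (.g (nat_lit 2282) (.e (nat_lit 1141) (nat_lit 84) (.e (nat_lit 32787) (nat_lit 9) (.e (nat_lit 65630) (nat_lit 14) (.e (nat_lit 401412) (nat_lit 0) (.e (nat_lit 3148) (nat_lit 193) (.e (nat_lit 500071) (nat_lit 19) (.e (nat_lit 73789) (nat_lit 45) .nil))))))) (.g (nat_lit 4) .nil .nil)))) (.nd (nat_lit 5) 
(.lf (nat_lit 16855) (.g (nat_lit 2438) (.e (nat_lit 1141) (nat_lit 84) (.e (nat_lit 32787) (nat_lit 9) (.e (nat_lit 65628) (nat_lit 14) (.e (nat_lit 401425) (nat_lit 2) (.e (nat_lit 204544) (nat_lit 14) .nil))))) .nil)) 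
(.lf (nat_lit 16887) (.g (nat_lit 2499) (.e (nat_lit 1141) (nat_lit 84) (.e (nat_lit 32787) (nat_lit 9) (.e (nat_lit 65630) (nat_lit 14) (.e (nat_lit 401428) (nat_lit 3) (.e (nat_lit 204862) (nat_lit 27) (.e (nat_lit 344080) (nat_lit 13) .nil)))))) (.g (nat_lit 5) .nil .nil))))) (.nd (nat_lit 4) (.nd (nat_lit 5) 
(.lf (nat_lit 16847) (.g (nat_lit 2632) (.e (nat_lit 1141) (nat_lit 84) (.e (nat_lit 32787) (nat_lit 9) (.e (nat_lit 65628) (nat_lit 14) (.e (nat_lit 401423) (nat_lit 2) (.e (nat_lit 196668) (nat_lit 14) (.e (nat_lit 73789) (nat_lit 45) .nil)))))) (.g (nat_lit 6) .nil .nil))) 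
(.lf (nat_lit 16879) (.g (nat_lit 3331) (.e (nat_lit 1141) (nat_lit 84) (.e (nat_lit 32787) (nat_lit 9) (.e (nat_lit 65630) (nat_lit 14) (.e (nat_lit 401425) (nat_lit 2) (.e (nat_lit 196670) (nat_lit 14) (.e (nat_lit 73792) (nat_lit 45) .nil)))))) (.g (nat_lit 0) .nil .nil)))) (.nd (nat_lit 5) 
(.lf (nat_lit 16863) (.g (nat_lit 2348) (.e (nat_lit 1141) (nat_lit 84) (.e (nat_lit 32787) (nat_lit 9) (.e (nat_lit 65630) (nat_lit 14) (.e (nat_lit 401410) (nat_lit 0) (.e (nat_lit 3262) (nat_lit 198) (.e (nat_lit 540700) (nat_lit 10) (.e (nat_lit 344080) (nat_lit 13) .nil))))))) (.g (nat_lit 5) .nil .nil))) 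
(.lf (nat_lit 16895) (.g (nat_lit 344) (.e (nat_lit 1141) (nat_lit 84) (.e (nat_lit 32788) (nat_lit 10) (.e (nat_lit 81664) (nat_lit 35) (.e (nat_lit 163950) (nat_lit 21) (.e (nat_lit 507648) (nat_lit 19) .nil))))) .nil))))))))

noncomputable def tv229 : DT := (.nd (nat_lit 0) (.nd (nat_lit 1) (.nd (nat_lit 2) (.nd (nat_lit 3) (.nd (nat_lit 4) (.nd (nat_lit 5) 
(.lf (nat_lit 16896) (.g (nat_lit 2002) (.e (nat_lit 1141) (nat_lit 84) (.e (nat_lit 32789) (nat_lit 11) (.e (nat_lit 81922) (nat_lit 0) (.e (nat_lit 3305) (nat_lit 202) (.e (nat_lit 573488) (nat_lit 14) (.e (nat_lit 73788) (nat_lit 45) .nil)))))) (.g (nat_lit 5) .nil .nil))) 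
(.lf (nat_lit 16928) (.g (nat_lit 3021) (.e (nat_lit 1146) (nat_lit 85) (.e (nat_lit 40997) (nat_lit 11) (.e (nat_lit 24617) (nat_lit 7) (.e (nat_lit 319531) (nat_lit 16) (.e (nat_lit 286759) (nat_lit 12) (.e (nat_lit 385094) (nat_lit 49) (.e (nat_lit 778548) (nat_lit 14) .nil))))))) (.g (nat_lit 6) .nil .nil)))) (.nd (nat_lit 5) 
(.lf (nat_lit 16912) (.g (nat_lit 2615) (.e (nat_lit 1143) (nat_lit 84) (.e (nat_lit 32787) (nat_lit 9) (.e (nat_lit 65610) (nat_lit 10) (.e (nat_lit 344117) (nat_lit 21) (.e (nat_lit 516102) (nat_lit 0) .nil))))) .nil)) 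
(.lf (nat_lit 16944) (.g (nat_lit 2487) (.e (nat_lit 1150) (nat_lit 85) (.e (nat_lit 40995) (nat_lit 11) (.e (nat_lit 24657) (nat_lit 13) (.e (nat_lit 393283) (nat_lit 24) (.e (nat_lit 434268) (nat_lit 36) (.e (nat_lit 638978) (nat_lit 0) .nil)))))) (.g (nat_lit 5) .nil .nil))))) (.nd (nat_lit 4) (.nd (nat_lit 5) 
(.lf (nat_lit 16904) (.g (nat_lit 1441) (.e (nat_lit 1141) (nat_lit 84) (.e (nat_lit 32789) (nat_lit 11) (.e (nat_lit 81953) (nat_lit 22) (.e (nat_lit 90165) (nat_lit 12) (.e (nat_lit 164208) (nat_lit 176) .nil))))) .nil)) 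
(.lf (nat_lit 16936) (.g (nat_lit 2047) (.e (nat_lit 1146) (nat_lit 85) (.e (nat_lit 40997) (nat_lit 11) (.e (nat_lit 24617) (nat_lit 7) (.e (nat_lit 319533) (nat_lit 16) (.e (nat_lit 286758) (nat_lit 12) (.e (nat_lit 385094) (nat_lit 49) (.e (nat_lit 778538) (nat_lit 14) .nil))))))) (.g (nat_lit 4) .nil .nil)))) (.nd (nat_lit 5) 
(.lf (nat_lit 16920) (.g (nat_lit 2099) (.e (nat_lit 1146) (nat_lit 85) (.e (nat_lit 40996) (nat_lit 11) (.e (nat_lit 24604) (nat_lit 2) (.e (nat_lit 90176) (nat_lit 15) (.e (nat_lit 188431) (nat_lit 20) (.e (nat_lit 3282) (nat_lit 200) (.e (nat_lit 557117) (nat_lit 18) .nil))))))) (.g (nat_lit 5) .nil .nil))) 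
(.lf (nat_lit 16952) (.g (nat_lit 3787) (.e (nat_lit 1150) (nat_lit 85) (.e (nat_lit 40997) (nat_lit 11) (.e (nat_lit 24617) (nat_lit 7) (.e (nat_lit 319531) (nat_lit 16) (.e (nat_lit 286759) (nat_lit 12) (.e (nat_lit 385093) (nat_lit 49) (.e (nat_lit 778510) (nat_lit 14) .nil))))))) (.g (nat_lit 7) .nil .nil)))))) (.nd (nat_lit 3) (.nd (nat_lit 4) (.nd (nat_lit 5) 
(.lf (nat_lit 16900) (.g (nat_lit 1216) (.e (nat_lit 1141) (nat_lit 84) (.e (nat_lit 32789) (nat_lit 11) (.e (nat_lit 81943) (nat_lit 20) (.e (nat_lit 1840) (nat_lit 123) (.e (nat_lit 548890) (nat_lit 10) (.e (nat_lit 73792) (nat_lit 45) .nil)))))) (.g (nat_lit 0) .nil .nil))) 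
(.lf (nat_lit 16932) (.g (nat_lit 3108) (.e (nat_lit 1146) (nat_lit 85) (.e (nat_lit 40997) (nat_lit 11) (.e (nat_lit 24617) (nat_lit 7) (.e (nat_lit 319533) (nat_lit 16) (.e (nat_lit 286753) (nat_lit 10) (.e (nat_lit 344169) (nat_lit 40) (.e (nat_lit 671786) (nat_lit 14) .nil))))))) (.g (nat_lit 6) .nil .nil)))) (.nd (nat_lit 5) 
(.lf (nat_lit 16916) (.g (nat_lit 3315) (.e (nat_lit 1146) (nat_lit 85) (.e (nat_lit 40972) (nat_lit 9) (.e (nat_lit 232) (nat_lit 21) (.e (nat_lit 336060) (nat_lit 7) (.e (nat_lit 319534) (nat_lit 16) (.e (nat_lit 286756) (nat_lit 10) (.e (nat_lit 344168) (nat_lit 40) (.e (nat_lit 671786) (nat_lit 14) .nil)))))))) (.g (nat_lit 7) .nil .nil))) 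
(.lf (nat_lit 16948) (.g (nat_lit 2615) (.e (nat_lit 1150) (nat_lit 85) (.e (nat_lit 40997) (nat_lit 11) (.e (nat_lit 24617) (nat_lit 7) (.e (nat_lit 319528) (nat_lit 16) (.e (nat_lit 286759) (nat_lit 12) (.e (nat_lit 385092) (nat_lit 49) (.e (nat_lit 778510) (nat_lit 14) .nil))))))) (.g (nat_lit 5) .nil .nil))))) (.nd (nat_lit 4) (.nd (nat_lit 5) 
(.lf (nat_lit 16908) (.g (nat_lit 3086) (.e (nat_lit 1141) (nat_lit 84) (.e (nat_lit 32789) (nat_lit 11) (.e (nat_lit 81956) (nat_lit 23) (.e (nat_lit 98320) (nat_lit 17) (.e (nat_lit 7583) (nat_lit 405) .nil))))) .nil)) 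
(.lf (nat_lit 16940) (.g (nat_lit 3090) (.e (nat_lit 1146) (nat_lit 85) (.e (nat_lit 40997) (nat_lit 11) (.e (nat_lit 24617) (nat_lit 7) (.e (nat_lit 319534) (nat_lit 16) (.e (nat_lit 286759) (nat_lit 12) (.e (nat_lit 385094) (nat_lit 49) (.e (nat_lit 778510) (nat_lit 14) .nil))))))) (.g (nat_lit 6) .nil .nil)))) (.nd (nat_lit 5) 
(.lf (nat_lit 16924) (.g (nat_lit 3580) (.e (nat_lit 1146) (nat_lit 85) (.e (nat_lit 40997) (nat_lit 11) (.e (nat_lit 24617) (nat_lit 7) (.e (nat_lit 319528) (nat_lit 16) (.e (nat_lit 286759) (nat_lit 12) (.e (nat_lit 385093) (nat_lit 49) (.e (nat_lit 778510) (nat_lit 14) .nil))))))) (.g (nat_lit 7) .nil .nil))) 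
(.lf (nat_lit 16956) (.g (nat_lit 2243) (.e (nat_lit 1150) (nat_lit 85) (.e (nat_lit 40997) (nat_lit 11) (.e (nat_lit 24617) (nat_lit 7) (.e (nat_lit 319533) (nat_lit 16) (.e (nat_lit 286752) (nat_lit 10) .nil))))) .nil)))))) (.nd (nat_lit 2) (.nd (nat_lit 3) (.nd (nat_lit 4) (.nd (nat_lit 5) 
(.lf (nat_lit 16898) (.g (nat_lit 437) (.e (nat_lit 1141) (nat_lit 84) (.e (nat_lit 32789) (nat_lit 11) (.e (nat_lit 81939) (nat_lit 20) (.e (nat_lit 1840) (nat_lit 123) (.e (nat_lit 548890) (nat_lit 10) .nil))))) .nil)) 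
(.lf (nat_lit 16930) (.g (nat_lit 3628) (.e (nat_lit 1146) (nat_lit 85) (.e (nat_lit 40997) (nat_lit 11) (.e (nat_lit 24617) (nat_lit 7) (.e (nat_lit 319532) (nat_lit 16) (.e (nat_lit 286759) (nat_lit 12) (.e (nat_lit 385093) (nat_lit 49) (.e (nat_lit 778510) (nat_lit 14) .nil))))))) (.g (nat_lit 7) .nil .nil)))) (.nd (nat_lit 5) 
(.lf (nat_lit 16914) (.g (nat_lit 3499) (.e (nat_lit 7936) (nat_lit 84) (.e (nat_lit 32789) (nat_lit 11) (.e (nat_lit 81953) (nat_lit 22) (.e (nat_lit 90181) (nat_lit 16) .nil)))) .nil)) 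
(.lf (nat_lit 16946) (.g (nat_lit 3691) (.e (nat_lit 1150) (nat_lit 85) (.e (nat_lit 40997) (nat_lit 11) (.e (nat_lit 24617) (nat_lit 7) (.e (nat_lit 319511) (nat_lit 10) (.e (nat_lit 5293) (nat_lit 298) (.e (nat_lit 1633) (nat_lit 114) (.e (nat_lit 385093) (nat_lit 49) (.e (nat_lit 778510) (nat_lit 14) .nil)))))))) (.g (nat_lit 8) .nil .nil))))) (.nd (nat_lit 4) (.nd (nat_lit 5) 
(.lf (nat_lit 16906) (.g (nat_lit 3310) (.e (nat_lit 1141) (nat_lit 84) (.e (nat_lit 32789) (nat_lit 11) (.e (nat_lit 81956) (nat_lit 23) (.e (nat_lit 98320) (nat_lit 17) (.e (nat_lit 7581) (nat_lit 405) (.e (nat_lit 57717) (nat_lit 176) .nil)))))) (.g (nat_lit 4) .nil .nil))) 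
(.lf (nat_lit 16938) (.g (nat_lit 1956) (.e (nat_lit 1146) (nat_lit 85) (.e (nat_lit 40997) (nat_lit 11) (.e (nat_lit 24617) (nat_lit 7) (.e (nat_lit 319534) (nat_lit 16) (.e (nat_lit 286749) (nat_lit 9) .nil))))) .nil))) (.nd (nat_lit 5) 
(.lf (nat_lit 16922) (.g (nat_lit 3306) (.e (nat_lit 1146) (nat_lit 85) (.e (nat_lit 40997) (nat_lit 11) (.e (nat_lit 24616) (nat_lit 7) (.e (nat_lit 319530) (nat_lit 16) (.e (nat_lit 286759) (nat_lit 12) (.e (nat_lit 385093) (nat_lit 49) (.e (nat_lit 778510) (nat_lit 14) .nil))))))) (.g (nat_lit 7) .nil .nil))) 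
(.lf (nat_lit 16954) (.g (nat_lit 1852) (.e (nat_lit 1150) (nat_lit 85) (.e (nat_lit 40997) (nat_lit 11) (.e (nat_lit 24617) (nat_lit 7) (.e (nat_lit 319532) (nat_lit 16) (.e (nat_lit 286759) (nat_lit 12) (.e (nat_lit 385092) (nat_lit 49) (.e (nat_lit 778508) (nat_lit 14) .nil))))))) (.g (nat_lit 4) .nil .nil)))))) (.nd (nat_lit 3) (.nd (nat_lit 4) (.nd (nat_lit 5) 
(.lf (nat_lit 16902) (.g (nat_lit 1123) (.e (nat_lit 1141) (nat_lit 84) (.e (nat_lit 32789) (nat_lit 11) (.e (nat_lit 81953) (nat_lit 22) (.e (nat_lit 90133) (nat_lit 9) .nil)))) .nil)) 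
(.lf (nat_lit 16934) (.g (nat_lit 3470) (.e (nat_lit 1146) (nat_lit 85) (.e (nat_lit 40997) (nat_lit 11) (.e (nat_lit 24617) (nat_lit 7) (.e (nat_lit 319533) (nat_lit 16) (.e (nat_lit 286758) (nat_lit 12) (.e (nat_lit 385093) (nat_lit 49) (.e (nat_lit 778510) (nat_lit 14) .nil))))))) (.g (nat_lit 7) .nil .nil)))) (.nd (nat_lit 5) 
(.lf (nat_lit 16918) (.g (nat_lit 1679) (.e (nat_lit 1146) (nat_lit 85) (.e (nat_lit 40995) (nat_lit 11) (.e (nat_lit 24617) (nat_lit 7) (.e (nat_lit 319533) (nat_lit 16) (.e (nat_lit 286758) (nat_lit 12) .nil))))) .nil)) 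
(.lf (nat_lit 16950) (.g (nat_lit 3278) (.e (nat_lit 1150) (nat_lit 85) (.e (nat_lit 40997) (nat_lit 11) (.e (nat_lit 24617) (nat_lit 7) (.e (nat_lit 319528) (nat_lit 16) (.e (nat_lit 286759) (nat_lit 12) (.e (nat_lit 385094) (nat_lit 49) (.e (nat_lit 778548) (nat_lit 14) .nil))))))) (.g (nat_lit 6) .nil .nil))))) (.nd (nat_lit 4) (.nd (nat_lit 5) 
(.lf (nat_lit 16910) (.g (nat_lit 3902) (.e (nat_lit 1141) (nat_lit 84) (.e (nat_lit 32789) (nat_lit 11) (.e (nat_lit 81956) (nat_lit 23) (.e (nat_lit 98350) (nat_lit 24) (.e (nat_lit 409616) (nat_lit 10) .nil))))) .nil)) 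
(.lf (nat_lit 16942) (.g (nat_lit 1807) (.e (nat_lit 1149) (nat_lit 85) (.e (nat_lit 40997) (nat_lit 11) (.e (nat_lit 24617) (nat_lit 7) (.e (nat_lit 319533) (nat_lit 16) (.e (nat_lit 286753) (nat_lit 10) .nil))))) .nil))) (.nd (nat_lit 5) 
(.lf (nat_lit 16926) (.g (nat_lit 4114) (.e (nat_lit 1146) (nat_lit 85) (.e (nat_lit 40997) (nat_lit 11) (.e (nat_lit 24617) (nat_lit 7) (.e (nat_lit 319530) (nat_lit 16) (.e (nat_lit 286759) (nat_lit 12) (.e (nat_lit 385093) (nat_lit 49) (.e (nat_lit 778510) (nat_lit 14) .nil))))))) (.g (nat_lit 7) .nil .nil))) 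
(.lf (nat_lit 16958) (.g (nat_lit 3663) (.e (nat_lit 1150) (nat_lit 85) (.e (nat_lit 40997) (nat_lit 11) (.e (nat_lit 24617) (nat_lit 7) (.e (nat_lit 319533) (nat_lit 16) (.e (nat_lit 286753) (nat_lit 10) (.e (nat_lit 344169) (nat_lit 40) (.e (nat_lit 671786) (nat_lit 14) .nil))))))) (.g (nat_lit 7) .nil .nil)))))))) 
(.nd (nat_lit 1) (.nd (nat_lit 2) (.nd (nat_lit 3) (.nd (nat_lit 4) (.nd (nat_lit 5) 
(.lf (nat_lit 16897) (.g (nat_lit 2222) (.e (nat_lit 1141) (nat_lit 84) (.e (nat_lit 32789) (nat_lit 11) (.e (nat_lit 81924) (nat_lit 0) (.e (nat_lit 3305) (nat_lit 202) (.e (nat_lit 573488) (nat_lit 14) (.e (nat_lit 73788) (nat_lit 45) .nil)))))) (.g (nat_lit 6) .nil .nil))) 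
(.lf (nat_lit 16929) (.g (nat_lit 1580) (.e (nat_lit 1146) (nat_lit 85) (.e (nat_lit 40997) (nat_lit 11) (.e (nat_lit 24617) (nat_lit 7) (.e (nat_lit 319532) (nat_lit 16) (.e (nat_lit 286759) (nat_lit 12) .nil))))) .nil))) (.nd (nat_lit 5) 
(.lf (nat_lit 16913) (.g (nat_lit 1477) (.e (nat_lit 1143) (nat_lit 84) (.e (nat_lit 32789) (nat_lit 11) (.e (nat_lit 81953) (nat_lit 22) (.e (nat_lit 90165) (nat_lit 12) (.e (nat_lit 164219) (nat_lit 180) .nil))))) .nil)) 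
(.lf (nat_lit 16945) (.g (nat_lit 3150) (.e (nat_lit 1150) (nat_lit 85) (.e (nat_lit 40997) (nat_lit 11) (.e (nat_lit 24616) (nat_lit 7) (.e (nat_lit 319530) (nat_lit 16) (.e (nat_lit 286759) (nat_lit 12) (.e (nat_lit 385093) (nat_lit 49) (.e (nat_lit 778510) (nat_lit 14) .nil))))))) (.g (nat_lit 6) .nil .nil))))) (.nd (nat_lit 4) (.nd (nat_lit 5) 
(.lf (nat_lit 16905) (.g (nat_lit 3059) (.e (nat_lit 1141) (nat_lit 84) (.e (nat_lit 32789) (nat_lit 11) (.e (nat_lit 81956) (nat_lit 23) (.e (nat_lit 98320) (nat_lit 17) (.e (nat_lit 7581) (nat_lit 405) .nil))))) .nil)) 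
(.lf (nat_lit 16937) (.g (nat_lit 2005) (.e (nat_lit 1146) (nat_lit 85) (.e (nat_lit 40997) (nat_lit 11) (.e (nat_lit 24617) (nat_lit 7) (.e (nat_lit 319533) (nat_lit 16) (.e (nat_lit 286758) (nat_lit 12) (.e (nat_lit 385094) (nat_lit 49) (.e (nat_lit 778548) (nat_lit 14) .nil))))))) (.g (nat_lit 4) .nil .nil)))) (.nd (nat_lit 5) 
(.lf (nat_lit 16921) (.g (nat_lit 1650) (.e (nat_lit 1146) (nat_lit 85) (.e (nat_lit 40996) (nat_lit 11) (.e (nat_lit 24658) (nat_lit 13) (.e (nat_lit 393283) (nat_lit 24) (.e (nat_lit 434268) (nat_lit 36) .nil))))) .nil)) 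
(.lf (nat_lit 16953) (.g (nat_lit 3361) (.e (nat_lit 1150) (nat_lit 85) (.e (nat_lit 40997) (nat_lit 11) (.e (nat_lit 24617) (nat_lit 7) (.e (nat_lit 319531) (nat_lit 16) (.e (nat_lit 286759) (nat_lit 12) (.e (nat_lit 385094) (nat_lit 49) (.e (nat_lit 778548) (nat_lit 14) .nil))))))) (.g (nat_lit 0) .nil .nil)))))) (.nd (nat_lit 3) (.nd (nat_lit 4) (.nd (nat_lit 5) 
(.lf (nat_lit 16901) (.g (nat_lit 777) (.e (nat_lit 1141) (nat_lit 84) (.e (nat_lit 32789) (nat_lit 11) (.e (nat_lit 81951) (nat_lit 22) (.e (nat_lit 90165) (nat_lit 12) .nil)))) .nil)) 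
(.lf (nat_lit 16933) (.g (nat_lit 2374) (.e (nat_lit 1146) (nat_lit 85) (.e (nat_lit 40997) (nat_lit 11) (.e (nat_lit 24617) (nat_lit 7) (.e (nat_lit 319533) (nat_lit 16) (.e (nat_lit 286758) (nat_lit 12) (.e (nat_lit 385092) (nat_lit 49) (.e (nat_lit 778510) (nat_lit 14) .nil))))))) (.g (nat_lit 5) .nil .nil)))) (.nd (nat_lit 5) 
(.lf (nat_lit 16917) (.g (nat_lit 2179) (.e (nat_lit 1146) (nat_lit 85) (.e (nat_lit 40993) (nat_lit 11) (.e (nat_lit 24657) (nat_lit 13) (.e (nat_lit 393283) (nat_lit 24) (.e (nat_lit 434268) (nat_lit 36) (.e (nat_lit 638978) (nat_lit 0) .nil)))))) (.g (nat_lit 5) .nil .nil))) 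
(.lf (nat_lit 16949) (.g (nat_lit 3617) (.e (nat_lit 1150) (nat_lit 85) (.e (nat_lit 40997) (nat_lit 11) (.e (nat_lit 24617) (nat_lit 7) (.e (nat_lit 319528) (nat_lit 16) (.e (nat_lit 286759) (nat_lit 12) (.e (nat_lit 385093) (nat_lit 49) (.e (nat_lit 778510) (nat_lit 14) .nil))))))) (.g (nat_lit 7) .nil .nil))))) (.nd (nat_lit 4) (.nd (nat_lit 5) 
(.lf (nat_lit 16909) (.g (nat_lit 3260) (.e (nat_lit 1141) (nat_lit 84) (.e (nat_lit 32789) (nat_lit 11) (.e (nat_lit 81956) (nat_lit 23) (.e (nat_lit 98320) (nat_lit 17) (.e (nat_lit 7583) (nat_lit 405) (.e (nat_lit 57713) (nat_lit 176) .nil)))))) (.g (nat_lit 4) .nil .nil))) 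
(.lf (nat_lit 16941) (.g (nat_lit 2811) (.e (nat_lit 1146) (nat_lit 85) (.e (nat_lit 40997) (nat_lit 11) (.e (nat_lit 24617) (nat_lit 7) (.e (nat_lit 319534) (nat_lit 16) (.e (nat_lit 286759) (nat_lit 12) (.e (nat_lit 385094) (nat_lit 49) (.e (nat_lit 778548) (nat_lit 14) .nil))))))) (.g (nat_lit 6) .nil .nil)))) (.nd (nat_lit 5) 
(.lf (nat_lit 16925) (.g (nat_lit 1769) (.e (nat_lit 1146) (nat_lit 85) (.e (nat_lit 40997) (nat_lit 11) (.e (nat_lit 24617) (nat_lit 7) (.e (nat_lit 319530) (nat_lit 16) (.e (nat_lit 286759) (nat_lit 12) .nil))))) .nil)) 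
(.lf (nat_lit 16957) (.g (nat_lit 3255) (.e (nat_lit 1150) (nat_lit 85) (.e (nat_lit 40997) (nat_lit 11) (.e (nat_lit 24617) (nat_lit 7) (.e (nat_lit 319533) (nat_lit 16) (.e (nat_lit 286753) (nat_lit 10) (.e (nat_lit 344168) (nat_lit 40) (.e (nat_lit 671786) (nat_lit 14) .nil))))))) (.g (nat_lit 0) .nil .nil))))))) (.nd (nat_lit 2) (.nd (nat_lit 3) (.nd (nat_lit 4) (.nd (nat_lit 5) 
(.lf (nat_lit 16899) (.g (nat_lit 1106) (.e (nat_lit 1141) (nat_lit 84) (.e (nat_lit 32789) (nat_lit 11) (.e (nat_lit 81943) (nat_lit 20) (.e (nat_lit 1840) (nat_lit 123) (.e (nat_lit 548890) (nat_lit 10) (.e (nat_lit 73788) (nat_lit 45) .nil)))))) (.g (nat_lit 0) .nil .nil))) 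
(.lf (nat_lit 16931) (.g (nat_lit 3685) (.e (nat_lit 1146) (nat_lit 85) (.e (nat_lit 40997) (nat_lit 11) (.e (nat_lit 24617) (nat_lit 7) (.e (nat_lit 319533) (nat_lit 16) (.e (nat_lit 286753) (nat_lit 10) (.e (nat_lit 344169) (nat_lit 40) (.e (nat_lit 671784) (nat_lit 14) .nil))))))) (.g (nat_lit 7) .nil .nil)))) (.nd (nat_lit 5) 
(.lf (nat_lit 16915) (.g (nat_lit 1723) (.e (nat_lit 1145) (nat_lit 85) (.e (nat_lit 40997) (nat_lit 11) (.e (nat_lit 24617) (nat_lit 7) (.e (nat_lit 319534) (nat_lit 16) (.e (nat_lit 286756) (nat_lit 10) .nil))))) .nil)) 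
(.lf (nat_lit 16947) (.g (nat_lit 2506) (.e (nat_lit 1150) (nat_lit 85) (.e (nat_lit 40997) (nat_lit 11) (.e (nat_lit 24617) (nat_lit 7) (.e (nat_lit 319528) (nat_lit 16) (.e (nat_lit 286759) (nat_lit 12) (.e (nat_lit 385092) (nat_lit 49) (.e (nat_lit 778506) (nat_lit 14) .nil))))))) (.g (nat_lit 5) .nil .nil))))) (.nd (nat_lit 4) (.nd (nat_lit 5) 
(.lf (nat_lit 16907) (.g (nat_lit 3075) (.e (nat_lit 1141) (nat_lit 84) (.e (nat_lit 32789) (nat_lit 11) (.e (nat_lit 81956) (nat_lit 23) (.e (nat_lit 98320) (nat_lit 17) (.e (nat_lit 7581) (nat_lit 405) (.e (nat_lit 57718) (nat_lit 176) .nil)))))) (.g (nat_lit 4) .nil .nil))) 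
(.lf (nat_lit 16939) (.g (nat_lit 3648) (.e (nat_lit 1146) (nat_lit 85) (.e (nat_lit 40997) (nat_lit 11) (.e (nat_lit 24617) (nat_lit 7) (.e (nat_lit 319534) (nat_lit 16) (.e (nat_lit 286759) (nat_lit 12) (.e (nat_lit 385093) (nat_lit 49) (.e (nat_lit 778510) (nat_lit 14) .nil))))))) (.g (nat_lit 0) .nil .nil)))) (.nd (nat_lit 5) 
(.lf (nat_lit 16923) (.g (nat_lit 3749) (.e (nat_lit 1146) (nat_lit 85) (.e (nat_lit 40997) (nat_lit 11) (.e (nat_lit 24617) (nat_lit 7) (.e (nat_lit 319511) (nat_lit 10) (.e (nat_lit 5293) (nat_lit 298) (.e (nat_lit 1633) (nat_lit 114) (.e (nat_lit 385093) (nat_lit 49) (.e (nat_lit 778510) (nat_lit 14) .nil)))))))) (.g (nat_lit 8) .nil .nil))) 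
(.lf (nat_lit 16955) (.g (nat_lit 3584) (.e (nat_lit 1150) (nat_lit 85) (.e (nat_lit 40997) (nat_lit 11) (.e (nat_lit 24617) (nat_lit 7) (.e (nat_lit 319532) (nat_lit 16) (.e (nat_lit 286759) (nat_lit 12) (.e (nat_lit 385093) (nat_lit 49) (.e (nat_lit 778510) (nat_lit 14) .nil))))))) (.g (nat_lit 7) .nil .nil)))))) (.nd (nat_lit 3) (.nd (nat_lit 4) (.nd (nat_lit 5) 
(.lf (nat_lit 16903) (.g (nat_lit 1604) (.e (nat_lit 1141) (nat_lit 84) (.e (nat_lit 32789) (nat_lit 11) (.e (nat_lit 81953) (nat_lit 22) (.e (nat_lit 90133) (nat_lit 9) (.e (nat_lit 2400) (nat_lit 157) (.e (nat_lit 7582) (nat_lit 405) (.e (nat_lit 57717) (nat_lit 176) .nil))))))) (.g (nat_lit 4) .nil .nil))) 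
(.lf (nat_lit 16935) (.g (nat_lit 3122) (.e (nat_lit 1146) (nat_lit 85) (.e (nat_lit 40997) (nat_lit 11) (.e (nat_lit 24617) (nat_lit 7) (.e (nat_lit 319533) (nat_lit 16) (.e (nat_lit 286758) (nat_lit 12) (.e (nat_lit 385094) (nat_lit 49) (.e (nat_lit 778510) (nat_lit 14) .nil))))))) (.g (nat_lit 6) .nil .nil)))) (.nd (nat_lit 5) 
(.lf (nat_lit 16919) (.g (nat_lit 919) (.e (nat_lit 1146) (nat_lit 85) (.e (nat_lit 40996) (nat_lit 11) (.e (nat_lit 24604) (nat_lit 2) (.e (nat_lit 90176) (nat_lit 15) .nil)))) .nil)) 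
(.lf (nat_lit 16951) (.g (nat_lit 4111) (.e (nat_lit 1150) (nat_lit 85) (.e (nat_lit 40997) (nat_lit 11) (.e (nat_lit 24617) (nat_lit 7) (.e (nat_lit 319530) (nat_lit 16) (.e (nat_lit 286759) (nat_lit 12) (.e (nat_lit 385093) (nat_lit 49) (.e (nat_lit 778510) (nat_lit 14) .nil))))))) (.g (nat_lit 7) .nil .nil))))) (.nd (nat_lit 4) (.nd (nat_lit 5) 
(.lf (nat_lit 16911) (.g (nat_lit 2812) (.e (nat_lit 1141) (nat_lit 84) (.e (nat_lit 32789) (nat_lit 11) (.e (nat_lit 81956) (nat_lit 23) (.e (nat_lit 98389) (nat_lit 33) (.e (nat_lit 491526) (nat_lit 0) .nil))))) .nil)) 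
(.lf (nat_lit 16943) (.g (nat_lit 2073) (.e (nat_lit 1149) (nat_lit 85) (.e (nat_lit 40997) (nat_lit 11) (.e (nat_lit 24617) (nat_lit 7) (.e (nat_lit 319533) (nat_lit 16) (.e (nat_lit 286758) (nat_lit 12) .nil))))) .nil))) (.nd (nat_lit 5) 
(.lf (nat_lit 16927) (.g (nat_lit 3915) (.e (nat_lit 1146) (nat_lit 85) (.e (nat_lit 40997) (nat_lit 11) (.e (nat_lit 24617) (nat_lit 7) (.e (nat_lit 319531) (nat_lit 16) (.e (nat_lit 286759) (nat_lit 12) (.e (nat_lit 385093) (nat_lit 49) (.e (nat_lit 778510) (nat_lit 14) .nil))))))) (.g (nat_lit 7) .nil .nil))) 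
(.lf (nat_lit 16959) (.g (nat_lit 3488) (.e (nat_lit 1150) (nat_lit 85) (.e (nat_lit 40997) (nat_lit 11) (.e (nat_lit 24617) (nat_lit 7) (.e (nat_lit 319533) (nat_lit 16) (.e (nat_lit 286753) (nat_lit 10) (.e (nat_lit 344169) (nat_lit 40) (.e (nat_lit 679680) (nat_lit 14) .nil))))))) (.g (nat_lit 6) .nil .nil)))))))))

noncomputable def tv230 : DT := (.nd (nat_lit 0) (.nd (nat_lit 1) (.nd (nat_lit 2) (.nd (nat_lit 3) (.nd (nat_lit 4) (.nd (nat_lit 5) 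
(.lf (nat_lit 16960) (.g (nat_lit 2270) (.e (nat_lit 1150) (nat_lit 85) (.e (nat_lit 40997) (nat_lit 11) (.e (nat_lit 24617) (nat_lit 7) (.e (nat_lit 319533) (nat_lit 16) (.e (nat_lit 286758) (nat_lit 12) (.e (nat_lit 385092) (nat_lit 49) (.e (nat_lit 778506) (nat_lit 14) .nil))))))) (.g (nat_lit 5) .nil .nil))) 
(.lf (nat_lit 16992) (.g (nat_lit 2419) (.e (nat_lit 1151) (nat_lit 85) (.e (nat_lit 40997) (nat_lit 11) (.e (nat_lit 24617) (nat_lit 7) (.e (nat_lit 319534) (nat_lit 16) (.e (nat_lit 286756) (nat_lit 10) (.e (nat_lit 344169) (nat_lit 40) (.e (nat_lit 679680) (nat_lit 14) .nil))))))) (.g (nat_lit 5) .nil .nil)))) (.nd (nat_lit 5) 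
(.lf (nat_lit 16976) (.g (nat_lit 3810) (.e (nat_lit 1151) (nat_lit 85) (.e (nat_lit 40997) (nat_lit 11) (.e (nat_lit 24617) (nat_lit 7) (.e (nat_lit 319511) (nat_lit 10) (.e (nat_lit 5293) (nat_lit 298) (.e (nat_lit 1633) (nat_lit 114) (.e (nat_lit 385093) (nat_lit 49) (.e (nat_lit 778510) (nat_lit 14) .nil)))))))) (.g (nat_lit 8) .nil .nil))) 
(.lf (nat_lit 17008) (.g (nat_lit 1645) (.e (nat_lit 1159) (nat_lit 86) (.e (nat_lit 49188) (nat_lit 11) (.e (nat_lit 16435) (nat_lit 9) (.e (nat_lit 426550) (nat_lit 31) (.e (nat_lit 368656) (nat_lit 14) (.e (nat_lit 57794) (nat_lit 245) .nil)))))) (.g (nat_lit 0) .nil .nil))))) (.nd (nat_lit 4) (.nd (nat_lit 5) 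
(.lf (nat_lit 16968) (.g (nat_lit 2663) (.e (nat_lit 1150) (nat_lit 85) (.e (nat_lit 40997) (nat_lit 11) (.e (nat_lit 24617) (nat_lit 7) (.e (nat_lit 319534) (nat_lit 16) (.e (nat_lit 286759) (nat_lit 12) (.e (nat_lit 385092) (nat_lit 49) (.e (nat_lit 778510) (nat_lit 14) .nil))))))) (.g (nat_lit 5) .nil .nil))) 
(.lf (nat_lit 17000) (.g (nat_lit 1694) (.e (nat_lit 1152) (nat_lit 85) (.e (nat_lit 40995) (nat_lit 11) (.e (nat_lit 24617) (nat_lit 7) (.e (nat_lit 319533) (nat_lit 16) (.e (nat_lit 286758) (nat_lit 12) (.e (nat_lit 385093) (nat_lit 49) (.e (nat_lit 778510) (nat_lit 14) .nil))))))) (.g (nat_lit 4) .nil .nil)))) (.nd (nat_lit 5) 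
(.lf (nat_lit 16984) (.g (nat_lit 3197) (.e (nat_lit 1151) (nat_lit 85) (.e (nat_lit 40997) (nat_lit 11) (.e (nat_lit 24617) (nat_lit 7) (.e (nat_lit 319533) (nat_lit 16) (.e (nat_lit 286753) (nat_lit 10) (.e (nat_lit 344168) (nat_lit 40) (.e (nat_lit 679680) (nat_lit 14) .nil))))))) (.g (nat_lit 6) .nil .nil))) 
(.lf (nat_lit 17016) (.g (nat_lit 805) (.e (nat_lit 1160) (nat_lit 86) (.e (nat_lit 49157) (nat_lit 0) (.e (nat_lit 3026) (nat_lit 187) (.e (nat_lit 458496) (nat_lit 8) .nil)))) .nil))))) (.nd (nat_lit 3) (.nd (nat_lit 4) (.nd (nat_lit 5) 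
(.lf (nat_lit 16964) (.g (nat_lit 1990) (.e (nat_lit 1150) (nat_lit 85) (.e (nat_lit 40997) (nat_lit 11) (.e (nat_lit 24617) (nat_lit 7) (.e (nat_lit 319533) (nat_lit 16) (.e (nat_lit 286758) (nat_lit 12) (.e (nat_lit 385094) (nat_lit 49) (.e (nat_lit 778506) (nat_lit 14) .nil))))))) (.g (nat_lit 4) .nil .nil))) 
(.lf (nat_lit 16996) (.g (nat_lit 3134) (.e (nat_lit 1151) (nat_lit 85) (.e (nat_lit 40997) (nat_lit 11) (.e (nat_lit 24617) (nat_lit 7) (.e (nat_lit 319534) (nat_lit 16) (.e (nat_lit 286759) (nat_lit 12) (.e (nat_lit 385094) (nat_lit 49) (.e (nat_lit 778510) (nat_lit 14) .nil))))))) (.g (nat_lit 6) .nil .nil)))) (.nd (nat_lit 5) 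
(.lf (nat_lit 16980) (.g (nat_lit 4232) (.e (nat_lit 1151) (nat_lit 85) (.e (nat_lit 40997) (nat_lit 11) (.e (nat_lit 24617) (nat_lit 7) (.e (nat_lit 319530) (nat_lit 16) (.e (nat_lit 286759) (nat_lit 12) (.e (nat_lit 385093) (nat_lit 49) (.e (nat_lit 778510) (nat_lit 14) .nil))))))) (.g (nat_lit 7) .nil .nil))) 
(.lf (nat_lit 17012) (.g (nat_lit 1190) (.e (nat_lit 1159) (nat_lit 86) (.e (nat_lit 49188) (nat_lit 11) (.e (nat_lit 16466) (nat_lit 13) (.e (nat_lit 491264) (nat_lit 17) .nil)))) .nil)))) (.nd (nat_lit 4) (.nd (nat_lit 5) 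
(.lf (nat_lit 16972) (.g (nat_lit 1827) (.e (nat_lit 1150) (nat_lit 85) (.e (nat_lit 40999) (nat_lit 12) (.e (nat_lit 163962) (nat_lit 25) (.e (nat_lit 532569) (nat_lit 16) (.e (nat_lit 409344) (nat_lit 18) (.e (nat_lit 98354) (nat_lit 26) (.e (nat_lit 426125) (nat_lit 2) (.e (nat_lit 196686) (nat_lit 18) .nil)))))))) (.g (nat_lit 4) .nil .nil))) 
(.lf (nat_lit 17004) (.g (nat_lit 1925) (.e (nat_lit 1157) (nat_lit 86) (.e (nat_lit 49188) (nat_lit 11) (.e (nat_lit 16466) (nat_lit 13) (.e (nat_lit 483372) (nat_lit 21) (.e (nat_lit 327424) (nat_lit 10) .nil))))) .nil))) (.nd (nat_lit 5) 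
(.lf (nat_lit 16988) (.g (nat_lit 2318) (.e (nat_lit 1151) (nat_lit 85) (.e (nat_lit 40997) (nat_lit 11) (.e (nat_lit 24617) (nat_lit 7) (.e (nat_lit 319533) (nat_lit 16) (.e (nat_lit 286758) (nat_lit 12) (.e (nat_lit 385092) (nat_lit 49) (.e (nat_lit 778510) (nat_lit 14) .nil))))))) (.g (nat_lit 5) .nil .nil))) 
(.lf (nat_lit 17020) (.g (nat_lit 370) (.e (nat_lit 1162) (nat_lit 86) (.e (nat_lit 49156) (nat_lit 0) (.e (nat_lit 3011) (nat_lit 187) (.e (nat_lit 458496) (nat_lit 8) .nil)))) .nil)))))) (.nd (nat_lit 2) (.nd (nat_lit 3) (.nd (nat_lit 4) (.nd (nat_lit 5) 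
(.lf (nat_lit 16962) (.g (nat_lit 2352) (.e (nat_lit 1150) (nat_lit 85) (.e (nat_lit 40997) (nat_lit 11) (.e (nat_lit 24617) (nat_lit 7) (.e (nat_lit 319533) (nat_lit 16) (.e (nat_lit 286758) (nat_lit 12) (.e (nat_lit 385092) (nat_lit 49) (.e (nat_lit 778510) (nat_lit 14) .nil))))))) (.g (nat_lit 5) .nil .nil))) 
(.lf (nat_lit 16994) (.g (nat_lit 2789) (.e (nat_lit 1151) (nat_lit 85) (.e (nat_lit 40997) (nat_lit 11) (.e (nat_lit 24617) (nat_lit 7) (.e (nat_lit 319534) (nat_lit 16) (.e (nat_lit 286759) (nat_lit 12) (.e (nat_lit 385092) (nat_lit 49) (.e (nat_lit 778510) (nat_lit 14) .nil))))))) (.g (nat_lit 5) .nil .nil)))) (.nd (nat_lit 5) 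
(.lf (nat_lit 16978) (.g (nat_lit 3722) (.e (nat_lit 1151) (nat_lit 85) (.e (nat_lit 40997) (nat_lit 11) (.e (nat_lit 24617) (nat_lit 7) (.e (nat_lit 319528) (nat_lit 16) (.e (nat_lit 286759) (nat_lit 12) (.e (nat_lit 385093) (nat_lit 49) (.e (nat_lit 778510) (nat_lit 14) .nil))))))) (.g (nat_lit 7) .nil .nil))) 
(.lf (nat_lit 17010) (.g (nat_lit 1932) (.e (nat_lit 1159) (nat_lit 86) (.e (nat_lit 49188) (nat_lit 11) (.e (nat_lit 16466) (nat_lit 13) (.e (nat_lit 483346) (nat_lit 17) .nil)))) .nil)))) (.nd (nat_lit 4) (.nd (nat_lit 5) 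
(.lf (nat_lit 16970) (.g (nat_lit 3023) (.e (nat_lit 1150) (nat_lit 85) (.e (nat_lit 40997) (nat_lit 11) (.e (nat_lit 24617) (nat_lit 7) (.e (nat_lit 319534) (nat_lit 16) (.e (nat_lit 286759) (nat_lit 12) (.e (nat_lit 385094) (nat_lit 49) (.e (nat_lit 778510) (nat_lit 14) .nil))))))) (.g (nat_lit 6) .nil .nil))) 
(.lf (nat_lit 17002) (.g (nat_lit 3269) (.e (nat_lit 1156) (nat_lit 85) (.e (nat_lit 40997) (nat_lit 11) (.e (nat_lit 24617) (nat_lit 7) (.e (nat_lit 319533) (nat_lit 16) (.e (nat_lit 286753) (nat_lit 10) (.e (nat_lit 344169) (nat_lit 40) (.e (nat_lit 679680) (nat_lit 14) .nil))))))) (.g (nat_lit 6) .nil .nil)))) (.nd (nat_lit 5) 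
(.lf (nat_lit 16986) (.g (nat_lit 1956) (.e (nat_lit 1151) (nat_lit 85) (.e (nat_lit 40997) (nat_lit 11) (.e (nat_lit 24617) (nat_lit 7) (.e (nat_lit 319533) (nat_lit 16) (.e (nat_lit 286758) (nat_lit 12) .nil))))) .nil)) 
(.lf (nat_lit 17018) (.g (nat_lit 3426) (.e (nat_lit 1160) (nat_lit 86) (.e (nat_lit 49188) (nat_lit 11) (.e (nat_lit 16466) (nat_lit 13) (.e (nat_lit 483372) (nat_lit 21) (.e (nat_lit 319505) (nat_lit 10) (.e (nat_lit 4925) (nat_lit 287) .nil)))))) (.g (nat_lit 6) .nil .nil)))))) (.nd (nat_lit 3) (.nd (nat_lit 4) (.nd (nat_lit 5) 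
(.lf (nat_lit 16966) (.g (nat_lit 3509) (.e (nat_lit 1150) (nat_lit 85) (.e (nat_lit 40997) (nat_lit 11) (.e (nat_lit 24617) (nat_lit 7) (.e (nat_lit 319534) (nat_lit 16) (.e (nat_lit 286749) (nat_lit 9) (.e (nat_lit 335907) (nat_lit 0) (.e (nat_lit 1996) (nat_lit 137) (.e (nat_lit 663587) (nat_lit 14) .nil)))))))) (.g (nat_lit 5) .nil .nil))) 
(.lf (nat_lit 16998) (.g (nat_lit 1749) (.e (nat_lit 1151) (nat_lit 85) (.e (nat_lit 41000) (nat_lit 12) (.e (nat_lit 163962) (nat_lit 25) (.e (nat_lit 532569) (nat_lit 16) (.e (nat_lit 409344) (nat_lit 18) (.e (nat_lit 98354) (nat_lit 26) (.e (nat_lit 426125) (nat_lit 2) (.e (nat_lit 196686) (nat_lit 18) .nil)))))))) (.g (nat_lit 4) .nil .nil)))) (.nd (nat_lit 5) 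
(.lf (nat_lit 16982) (.g (nat_lit 3704) (.e (nat_lit 1151) (nat_lit 85) (.e (nat_lit 40997) (nat_lit 11) (.e (nat_lit 24617) (nat_lit 7) (.e (nat_lit 319532) (nat_lit 16) (.e (nat_lit 286759) (nat_lit 12) (.e (nat_lit 385093) (nat_lit 49) (.e (nat_lit 778510) (nat_lit 14) .nil))))))) (.g (nat_lit 7) .nil .nil))) 
(.lf (nat_lit 17014) (.g (nat_lit 1442) (.e (nat_lit 1159) (nat_lit 86) (.e (nat_lit 49189) (nat_lit 11) (.e (nat_lit 16433) (nat_lit 9) (.e (nat_lit 426550) (nat_lit 31) (.e (nat_lit 368656) (nat_lit 14) .nil))))) .nil)))) (.nd (nat_lit 4) (.nd (nat_lit 5) 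
(.lf (nat_lit 16974) (.g (nat_lit 2838) (.e (nat_lit 1151) (nat_lit 85) (.e (nat_lit 40972) (nat_lit 9) (.e (nat_lit 232) (nat_lit 21) (.e (nat_lit 336060) (nat_lit 7) (.e (nat_lit 319534) (nat_lit 16) (.e (nat_lit 286756) (nat_lit 10) (.e (nat_lit 344169) (nat_lit 40) (.e (nat_lit 679680) (nat_lit 14) .nil)))))))) (.g (nat_lit 6) .nil .nil))) 
(.lf (nat_lit 17006) (.g (nat_lit 1498) (.e (nat_lit 1159) (nat_lit 86) (.e (nat_lit 49185) (nat_lit 11) (.e (nat_lit 16436) (nat_lit 9) (.e (nat_lit 426550) (nat_lit 31) (.e (nat_lit 368656) (nat_lit 14) (.e (nat_lit 57794) (nat_lit 245) .nil)))))) (.g (nat_lit 6) .nil .nil)))) (.nd (nat_lit 5) 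
(.lf (nat_lit 16990) (.g (nat_lit 3121) (.e (nat_lit 1151) (nat_lit 85) (.e (nat_lit 40997) (nat_lit 11) (.e (nat_lit 24617) (nat_lit 7) (.e (nat_lit 319533) (nat_lit 16) (.e (nat_lit 286758) (nat_lit 12) (.e (nat_lit 385094) (nat_lit 49) (.e (nat_lit 778510) (nat_lit 14) .nil))))))) (.g (nat_lit 6) .nil .nil))) 
(.lf (nat_lit 17022) (.g (nat_lit 542) (.e (nat_lit 1162) (nat_lit 86) (.e (nat_lit 49156) (nat_lit 0) (.e (nat_lit 3011) (nat_lit 187) (.e (nat_lit 458496) (nat_lit 9) (.e (nat_lit 565268) (nat_lit 5) (.e (nat_lit 73791) (nat_lit 45) .nil)))))) (.g (nat_lit 5) .nil .nil)))))))) (.nd (nat_lit 1) (.nd (nat_lit 2) (.nd (nat_lit 3) (.nd (nat_lit 4) (.nd (nat_lit 5) 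
(.lf (nat_lit 16961) (.g (nat_lit 2007) (.e (nat_lit 1150) (nat_lit 85) (.e (nat_lit 40997) (nat_lit 11) (.e (nat_lit 24617) (nat_lit 7) (.e (nat_lit 319533) (nat_lit 16) (.e (nat_lit 286758) (nat_lit 12) (.e (nat_lit 385092) (nat_lit 49) (.e (nat_lit 778508) (nat_lit 14) .nil))))))) (.g (nat_lit 4) .nil .nil))) 
(.lf (nat_lit 16993) (.g (nat_lit 2495) (.e (nat_lit 1151) (nat_lit 85) (.e (nat_lit 40997) (nat_lit 11) (.e (nat_lit 24617) (nat_lit 7) (.e (nat_lit 319534) (nat_lit 16) (.e (nat_lit 286759) (nat_lit 12) (.e (nat_lit 385092) (nat_lit 49) (.e (nat_lit 778506) (nat_lit 14) .nil))))))) (.g (nat_lit 5) .nil .nil)))) (.nd (nat_lit 5) 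
(.lf (nat_lit 16977) (.g (nat_lit 2745) (.e (nat_lit 1151) (nat_lit 85) (.e (nat_lit 40997) (nat_lit 11) (.e (nat_lit 24617) (nat_lit 7) (.e (nat_lit 319528) (nat_lit 16) (.e (nat_lit 286759) (nat_lit 12) (.e (nat_lit 385092) (nat_lit 49) (.e (nat_lit 778510) (nat_lit 14) .nil))))))) (.g (nat_lit 5) .nil .nil))) 
(.lf (nat_lit 17009) (.g (nat_lit 908) (.e (nat_lit 1159) (nat_lit 86) (.e (nat_lit 49188) (nat_lit 11) (.e (nat_lit 16437) (nat_lit 9) (.e (nat_lit 426550) (nat_lit 31) (.e (nat_lit 368656) (nat_lit 14) (.e (nat_lit 57794) (nat_lit 245) .nil)))))) (.g (nat_lit 4) .nil .nil))))) (.nd (nat_lit 4) (.nd (nat_lit 5) 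
(.lf (nat_lit 16969) (.g (nat_lit 3605) (.e (nat_lit 1150) (nat_lit 85) (.e (nat_lit 40997) (nat_lit 11) (.e (nat_lit 24617) (nat_lit 7) (.e (nat_lit 319534) (nat_lit 16) (.e (nat_lit 286759) (nat_lit 12) (.e (nat_lit 385093) (nat_lit 49) (.e (nat_lit 778510) (nat_lit 14) .nil))))))) (.g (nat_lit 7) .nil .nil))) 
(.lf (nat_lit 17001) (.g (nat_lit 2028) (.e (nat_lit 1154) (nat_lit 85) (.e (nat_lit 40997) (nat_lit 11) (.e (nat_lit 24617) (nat_lit 7) (.e (nat_lit 319533) (nat_lit 16) (.e (nat_lit 286758) (nat_lit 12) .nil))))) .nil))) (.nd (nat_lit 5) 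
(.lf (nat_lit 16985) (.g (nat_lit 3564) (.e (nat_lit 1151) (nat_lit 85) (.e (nat_lit 40997) (nat_lit 11) (.e (nat_lit 24617) (nat_lit 7) (.e (nat_lit 319533) (nat_lit 16) (.e (nat_lit 286753) (nat_lit 10) (.e (nat_lit 344169) (nat_lit 40) (.e (nat_lit 679680) (nat_lit 14) .nil))))))) (.g (nat_lit 6) .nil .nil))) 
(.lf (nat_lit 17017) (.g (nat_lit 3704) (.e (nat_lit 1160) (nat_lit 86) (.e (nat_lit 49188) (nat_lit 11) (.e (nat_lit 16466) (nat_lit 13) (.e (nat_lit 483372) (nat_lit 21) (.e (nat_lit 319504) (nat_lit 10) (.e (nat_lit 4916) (nat_lit 287) .nil)))))) (.g (nat_lit 5) .nil .nil)))))) (.nd (nat_lit 3) (.nd (nat_lit 4) (.nd (nat_lit 5) 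
(.lf (nat_lit 16965) (.g (nat_lit 3156) (.e (nat_lit 1150) (nat_lit 85) (.e (nat_lit 40997) (nat_lit 11) (.e (nat_lit 24617) (nat_lit 7) (.e (nat_lit 319533) (nat_lit 16) (.e (nat_lit 286758) (nat_lit 12) (.e (nat_lit 385094) (nat_lit 49) (.e (nat_lit 778510) (nat_lit 14) .nil))))))) (.g (nat_lit 6) .nil .nil))) 
(.lf (nat_lit 16997) (.g (nat_lit 1999) (.e (nat_lit 1151) (nat_lit 85) (.e (nat_lit 40999) (nat_lit 12) (.e (nat_lit 163962) (nat_lit 25) (.e (nat_lit 532569) (nat_lit 16) (.e (nat_lit 409344) (nat_lit 18) (.e (nat_lit 98354) (nat_lit 26) (.e (nat_lit 426125) (nat_lit 2) (.e (nat_lit 196686) (nat_lit 18) .nil)))))))) (.g (nat_lit 4) .nil .nil)))) (.nd (nat_lit 5) 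
(.lf (nat_lit 16981) (.g (nat_lit 4039) (.e (nat_lit 1151) (nat_lit 85) (.e (nat_lit 40997) (nat_lit 11) (.e (nat_lit 24617) (nat_lit 7) (.e (nat_lit 319531) (nat_lit 16) (.e (nat_lit 286759) (nat_lit 12) (.e (nat_lit 385093) (nat_lit 49) (.e (nat_lit 778510) (nat_lit 14) .nil))))))) (.g (nat_lit 7) .nil .nil))) 
(.lf (nat_lit 17013) (.g (nat_lit 965) (.e (nat_lit 1159) (nat_lit 86) (.e (nat_lit 49189) (nat_lit 11) (.e (nat_lit 16432) (nat_lit 9) (.e (nat_lit 426550) (nat_lit 31) (.e (nat_lit 368656) (nat_lit 14) .nil))))) .nil)))) (.nd (nat_lit 4) (.nd (nat_lit 5) 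
(.lf (nat_lit 16973) (.g (nat_lit 2856) (.e (nat_lit 1151) (nat_lit 85) (.e (nat_lit 40972) (nat_lit 9) (.e (nat_lit 232) (nat_lit 21) (.e (nat_lit 336060) (nat_lit 7) (.e (nat_lit 319534) (nat_lit 16) (.e (nat_lit 286756) (nat_lit 10) (.e (nat_lit 344168) (nat_lit 40) (.e (nat_lit 679680) (nat_lit 14) .nil)))))))) (.g (nat_lit 6) .nil .nil))) 
(.lf (nat_lit 17005) (.g (nat_lit 1250) (.e (nat_lit 1159) (nat_lit 86) (.e (nat_lit 49185) (nat_lit 11) (.e (nat_lit 16435) (nat_lit 9) (.e (nat_lit 426550) (nat_lit 31) (.e (nat_lit 368656) (nat_lit 14) (.e (nat_lit 57794) (nat_lit 245) .nil)))))) (.g (nat_lit 4) .nil .nil)))) (.nd (nat_lit 5) 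
(.lf (nat_lit 16989) (.g (nat_lit 3513) (.e (nat_lit 1151) (nat_lit 85) (.e (nat_lit 40997) (nat_lit 11) (.e (nat_lit 24617) (nat_lit 7) (.e (nat_lit 319533) (nat_lit 16) (.e (nat_lit 286758) (nat_lit 12) (.e (nat_lit 385093) (nat_lit 49) (.e (nat_lit 778510) (nat_lit 14) .nil))))))) (.g (nat_lit 7) .nil .nil))) 
(.lf (nat_lit 17021) (.g (nat_lit 569) (.e (nat_lit 1162) (nat_lit 86) (.e (nat_lit 49156) (nat_lit 0) (.e (nat_lit 3011) (nat_lit 187) (.e (nat_lit 458496) (nat_lit 9) (.e (nat_lit 565268) (nat_lit 5) (.e (nat_lit 73788) (nat_lit 45) .nil)))))) (.g (nat_lit 5) .nil .nil))))))) (.nd (nat_lit 2) (.nd (nat_lit 3) (.nd (nat_lit 4) (.nd (nat_lit 5) 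
(.lf (nat_lit 16963) (.g (nat_lit 3554) (.e (nat_lit 1150) (nat_lit 85) (.e (nat_lit 40997) (nat_lit 11) (.e (nat_lit 24617) (nat_lit 7) (.e (nat_lit 319533) (nat_lit 16) (.e (nat_lit 286758) (nat_lit 12) (.e (nat_lit 385093) (nat_lit 49) (.e (nat_lit 778510) (nat_lit 14) .nil))))))) (.g (nat_lit 7) .nil .nil))) 
(.lf (nat_lit 16995) (.g (nat_lit 3706) (.e (nat_lit 1151) (nat_lit 85) (.e (nat_lit 40997) (nat_lit 11) (.e (nat_lit 24617) (nat_lit 7) (.e (nat_lit 319534) (nat_lit 16) (.e (nat_lit 286759) (nat_lit 12) (.e (nat_lit 385093) (nat_lit 49) (.e (nat_lit 778510) (nat_lit 14) .nil))))))) (.g (nat_lit 7) .nil .nil)))) (.nd (nat_lit 5) 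
(.lf (nat_lit 16979) (.g (nat_lit 1918) (.e (nat_lit 1151) (nat_lit 85) (.e (nat_lit 40997) (nat_lit 11) (.e (nat_lit 24617) (nat_lit 7) (.e (nat_lit 319529) (nat_lit 16) (.e (nat_lit 286759) (nat_lit 12) .nil))))) .nil)) 
(.lf (nat_lit 17011) (.g (nat_lit 3175) (.e (nat_lit 1159) (nat_lit 86) (.e (nat_lit 49188) (nat_lit 11) (.e (nat_lit 16466) (nat_lit 13) (.e (nat_lit 483346) (nat_lit 17) (.e (nat_lit 6221) (nat_lit 333) .nil))))) .nil)))) (.nd (nat_lit 4) (.nd (nat_lit 5) 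
(.lf (nat_lit 16971) (.g (nat_lit 3236) (.e (nat_lit 1150) (nat_lit 85) (.e (nat_lit 40997) (nat_lit 11) (.e (nat_lit 24617) (nat_lit 7) (.e (nat_lit 319534) (nat_lit 16) (.e (nat_lit 286759) (nat_lit 12) (.e (nat_lit 385094) (nat_lit 49) (.e (nat_lit 778548) (nat_lit 14) .nil))))))) (.g (nat_lit 0) .nil .nil))) 
(.lf (nat_lit 17003) (.g (nat_lit 1506) (.e (nat_lit 7936) (nat_lit 85) (.e (nat_lit 40997) (nat_lit 11) (.e (nat_lit 24617) (nat_lit 7) (.e (nat_lit 319532) (nat_lit 16) (.e (nat_lit 286759) (nat_lit 12) .nil))))) .nil))) (.nd (nat_lit 5) 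
(.lf (nat_lit 16987) (.g (nat_lit 2051) (.e (nat_lit 1151) (nat_lit 85) (.e (nat_lit 40997) (nat_lit 11) (.e (nat_lit 24617) (nat_lit 7) (.e (nat_lit 319533) (nat_lit 16) (.e (nat_lit 286758) (nat_lit 12) (.e (nat_lit 385092) (nat_lit 49) (.e (nat_lit 778506) (nat_lit 14) .nil))))))) (.g (nat_lit 4) .nil .nil))) 
(.lf (nat_lit 17019) (.g (nat_lit 2011) (.e (nat_lit 1161) (nat_lit 86) (.e (nat_lit 49185) (nat_lit 11) (.e (nat_lit 16465) (nat_lit 13) (.e (nat_lit 483372) (nat_lit 21) (.e (nat_lit 319504) (nat_lit 10) .nil))))) .nil))))) (.nd (nat_lit 3) (.nd (nat_lit 4) (.nd (nat_lit 5) 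
(.lf (nat_lit 16967) (.g (nat_lit 2554) (.e (nat_lit 1150) (nat_lit 85) (.e (nat_lit 40997) (nat_lit 11) (.e (nat_lit 24617) (nat_lit 7) (.e (nat_lit 319534) (nat_lit 16) (.e (nat_lit 286759) (nat_lit 12) (.e (nat_lit 385092) (nat_lit 49) (.e (nat_lit 778506) (nat_lit 14) .nil))))))) (.g (nat_lit 5) .nil .nil))) 
(.lf (nat_lit 16999) (.g (nat_lit 1463) (.e (nat_lit 1152) (nat_lit 85) (.e (nat_lit 40993) (nat_lit 11) (.e (nat_lit 24617) (nat_lit 7) (.e (nat_lit 319528) (nat_lit 16) (.e (nat_lit 286759) (nat_lit 12) .nil))))) .nil))) (.nd (nat_lit 5) 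
(.lf (nat_lit 16983) (.g (nat_lit 2235) (.e (nat_lit 1151) (nat_lit 85) (.e (nat_lit 40997) (nat_lit 11) (.e (nat_lit 24617) (nat_lit 7) (.e (nat_lit 319533) (nat_lit 16) (.e (nat_lit 286752) (nat_lit 10) .nil))))) .nil)) 
(.lf (nat_lit 17015) (.g (nat_lit 154) (.e (nat_lit 1160) (nat_lit 86) (.e (nat_lit 49157) (nat_lit 0) (.e (nat_lit 2997) (nat_lit 186) .nil))) .nil)))) (.nd (nat_lit 4) (.nd (nat_lit 5) 
(.lf (nat_lit 16975) (.g (nat_lit 3262) (.e (nat_lit 1151) (nat_lit 85) (.e (nat_lit 40997) (nat_lit 11) (.e (nat_lit 24616) (nat_lit 7) (.e (nat_lit 319530) (nat_lit 16) (.e (nat_lit 286759) (nat_lit 12) (.e (nat_lit 385093) (nat_lit 49) (.e (nat_lit 778510) (nat_lit 14) .nil))))))) (.g (nat_lit 6) .nil .nil))) 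
(.lf (nat_lit 17007) (.g (nat_lit 2030) (.e (nat_lit 1159) (nat_lit 86) (.e (nat_lit 49188) (nat_lit 11) (.e (nat_lit 16433) (nat_lit 9) (.e (nat_lit 426550) (nat_lit 31) (.e (nat_lit 368656) (nat_lit 14) (.e (nat_lit 57794) (nat_lit 245) .nil)))))) (.g (nat_lit 4) .nil .nil)))) (.nd (nat_lit 5) 
(.lf (nat_lit 16991) (.g (nat_lit 2550) (.e (nat_lit 1151) (nat_lit 85) (.e (nat_lit 40997) (nat_lit 11) (.e (nat_lit 24617) (nat_lit 7) (.e (nat_lit 319534) (nat_lit 16) (.e (nat_lit 286756) (nat_lit 10) (.e (nat_lit 344168) (nat_lit 40) (.e (nat_lit 679680) (nat_lit 14) .nil))))))) (.g (nat_lit 5) .nil .nil))) 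
(.lf (nat_lit 17023) (.g (nat_lit 1284) (.e (nat_lit 1162) (nat_lit 86) (.e (nat_lit 49157) (nat_lit 0) (.e (nat_lit 3011) (nat_lit 187) (.e (nat_lit 450584) (nat_lit 9) (.e (nat_lit 565268) (nat_lit 5) (.e (nat_lit 73788) (nat_lit 45) .nil)))))) (.g (nat_lit 0) .nil .nil)))))))))

noncomputable def tv231 : DT := (.nd (nat_lit 0) (.nd (nat_lit 1) (.nd (nat_lit 2) (.nd (nat_lit 3) (.nd (nat_lit 4) (.nd (nat_lit 5) 
(.lf (nat_lit 17024) (.g (nat_lit 1479) (.e (nat_lit 1162) (nat_lit 86) (.e (nat_lit 49157) (nat_lit 0) (.e (nat_lit 3011) (nat_lit 187) (.e (nat_lit 450584) (nat_lit 9) (.e (nat_lit 565268) (nat_lit 5) (.e (nat_lit 73789) (nat_lit 45) .nil)))))) (.g (nat_lit 0) .nil .nil))) 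
(.lf (nat_lit 17056) (.g (nat_lit 2581) (.e (nat_lit 1169) (nat_lit 87) (.e (nat_lit 57479) (nat_lit 28) (.e (nat_lit 557105) (nat_lit 14) (.e (nat_lit 180251) (nat_lit 10) (.e (nat_lit 573484) (nat_lit 13) .nil))))) .nil))) (.nd (nat_lit 5) 
(.lf (nat_lit 17040) (.g (nat_lit 2697) (.e (nat_lit 1169) (nat_lit 87) (.e (nat_lit 57479) (nat_lit 28) (.e (nat_lit 557100) (nat_lit 13) (.e (nat_lit 172106) (nat_lit 10) (.e (nat_lit 434231) (nat_lit 23) (.e (nat_lit 532527) (nat_lit 9) (.e (nat_lit 335997) (nat_lit 1) (.e (nat_lit 57870) (nat_lit 264) .nil)))))))) (.g (nat_lit 5) .nil .nil))) 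
(.lf (nat_lit 17072) (.g (nat_lit 3213) (.e (nat_lit 1169) (nat_lit 87) (.e (nat_lit 57479) (nat_lit 28) (.e (nat_lit 557105) (nat_lit 14) (.e (nat_lit 180252) (nat_lit 10) (.e (nat_lit 573488) (nat_lit 14) .nil))))) .nil)))) (.nd (nat_lit 4) (.nd (nat_lit 5) 
(.lf (nat_lit 17032) (.g (nat_lit 1441) (.e (nat_lit 1163) (nat_lit 86) (.e (nat_lit 49157) (nat_lit 0) (.e (nat_lit 3011) (nat_lit 187) (.e (nat_lit 450584) (nat_lit 9) (.e (nat_lit 565268) (nat_lit 5) (.e (nat_lit 73789) (nat_lit 45) .nil)))))) (.g (nat_lit 0) .nil .nil))) 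
(.lf (nat_lit 17064) (.g (nat_lit 2745) (.e (nat_lit 1169) (nat_lit 87) (.e (nat_lit 57479) (nat_lit 28) (.e (nat_lit 557105) (nat_lit 14) (.e (nat_lit 180252) (nat_lit 10) (.e (nat_lit 573482) (nat_lit 13) (.e (nat_lit 65571) (nat_lit 3) (.e (nat_lit 98334) (nat_lit 18) (.e (nat_lit 164166) (nat_lit 152) .nil)))))))) (.g (nat_lit 4) .nil .nil)))) (.nd (nat_lit 5) 
(.lf (nat_lit 17048) (.g (nat_lit 3014) (.e (nat_lit 1169) (nat_lit 87) (.e (nat_lit 57479) (nat_lit 28) (.e (nat_lit 557103) (nat_lit 14) (.e (nat_lit 180250) (nat_lit 10) (.e (nat_lit 573482) (nat_lit 13) (.e (nat_lit 65569) (nat_lit 3) (.e (nat_lit 98334) (nat_lit 18) (.e (nat_lit 164159) (nat_lit 152) .nil)))))))) (.g (nat_lit 5) .nil .nil))) 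
(.lf (nat_lit 17080) (.g (nat_lit 3282) (.e (nat_lit 1169) (nat_lit 87) (.e (nat_lit 57479) (nat_lit 28) (.e (nat_lit 557105) (nat_lit 14) (.e (nat_lit 180252) (nat_lit 10) (.e (nat_lit 573488) (nat_lit 14) (.e (nat_lit 73747) (nat_lit 3) (.e (nat_lit 516119) (nat_lit 1) (.e (nat_lit 164168) (nat_lit 152) .nil)))))))) (.g (nat_lit 4) .nil .nil)))))) 
(.nd (nat_lit 3) (.nd (nat_lit 4) (.nd (nat_lit 5) 
(.lf (nat_lit 17028) (.g (nat_lit 356) (.e (nat_lit 1163) (nat_lit 86) (.e (nat_lit 49156) (nat_lit 0) (.e (nat_lit 3011) (nat_lit 187) (.e (nat_lit 458496) (nat_lit 8) .nil)))) .nil)) 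
(.lf (nat_lit 17060) (.g (nat_lit 2665) (.e (nat_lit 1169) (nat_lit 87) (.e (nat_lit 57479) (nat_lit 28) (.e (nat_lit 557105) (nat_lit 14) (.e (nat_lit 180252) (nat_lit 10) (.e (nat_lit 573480) (nat_lit 13) .nil))))) .nil))) (.nd (nat_lit 5) 
(.lf (nat_lit 17044) (.g (nat_lit 1964) (.e (nat_lit 1169) (nat_lit 87) (.e (nat_lit 57479) (nat_lit 28) (.e (nat_lit 557101) (nat_lit 13) (.e (nat_lit 172097) (nat_lit 9) (.e (nat_lit 426125) (nat_lit 2) .nil))))) .nil)) 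
(.lf (nat_lit 17076) (.g (nat_lit 4089) (.e (nat_lit 1169) (nat_lit 87) (.e (nat_lit 57479) (nat_lit 28) (.e (nat_lit 557105) (nat_lit 14) (.e (nat_lit 180252) (nat_lit 10) (.e (nat_lit 573488) (nat_lit 14) (.e (nat_lit 73747) (nat_lit 3) (.e (nat_lit 516119) (nat_lit 1) (.e (nat_lit 164148) (nat_lit 152) .nil)))))))) (.g (nat_lit 5) .nil .nil))))) (.nd (nat_lit 4) (.nd (nat_lit 5) 
(.lf (nat_lit 17036) (.g (nat_lit 1242) (.e (nat_lit 7936) (nat_lit 86) (.e (nat_lit 49185) (nat_lit 11) (.e (nat_lit 16435) (nat_lit 9) (.e (nat_lit 426550) (nat_lit 31) (.e (nat_lit 368656) (nat_lit 14) .nil))))) .nil)) 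
(.lf (nat_lit 17068) (.g (nat_lit 3496) (.e (nat_lit 1169) (nat_lit 87) (.e (nat_lit 57479) (nat_lit 28) (.e (nat_lit 557105) (nat_lit 14) (.e (nat_lit 180252) (nat_lit 10) (.e (nat_lit 573487) (nat_lit 14) (.e (nat_lit 73747) (nat_lit 3) (.e (nat_lit 516119) (nat_lit 1) (.e (nat_lit 164147) (nat_lit 152) .nil)))))))) (.g (nat_lit 5) .nil .nil)))) (.nd (nat_lit 5) 
(.lf (nat_lit 17052) (.g (nat_lit 2706) (.e (nat_lit 1169) (nat_lit 87) (.e (nat_lit 57479) (nat_lit 28) (.e (nat_lit 557103) (nat_lit 14) (.e (nat_lit 180250) (nat_lit 10) (.e (nat_lit 573485) (nat_lit 13) (.e (nat_lit 65569) (nat_lit 3) (.e (nat_lit 98334) (nat_lit 18) (.e (nat_lit 164159) (nat_lit 152) .nil)))))))) (.g (nat_lit 4) .nil .nil))) 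
(.lf (nat_lit 17084) (.g (nat_lit 1895) (.e (nat_lit 1169) (nat_lit 87) (.e (nat_lit 57479) (nat_lit 28) (.e (nat_lit 557105) (nat_lit 14) (.e (nat_lit 180252) (nat_lit 10) (.e (nat_lit 573489) (nat_lit 14) (.e (nat_lit 73748) (nat_lit 3) (.e (nat_lit 516119) (nat_lit 1) (.e (nat_lit 164168) (nat_lit 152) .nil)))))))) (.g (nat_lit 4) .nil .nil))))))) 
(.nd (nat_lit 2) (.nd (nat_lit 3) (.nd (nat_lit 4) (.nd (nat_lit 5) 
(.lf (nat_lit 17026) (.g (nat_lit 3380) (.e (nat_lit 1162) (nat_lit 86) (.e (nat_lit 49185) (nat_lit 11) (.e (nat_lit 16465) (nat_lit 13) (.e (nat_lit 483372) (nat_lit 21) (.e (nat_lit 319504) (nat_lit 10) (.e (nat_lit 4921) (nat_lit 287) .nil)))))) (.g (nat_lit 6) .nil .nil))) 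
(.lf (nat_lit 17058) (.g (nat_lit 2439) (.e (nat_lit 1169) (nat_lit 87) (.e (nat_lit 57479) (nat_lit 28) (.e (nat_lit 557105) (nat_lit 14) (.e (nat_lit 180251) (nat_lit 10) (.e (nat_lit 573485) (nat_lit 13) (.e (nat_lit 65570) (nat_lit 3) (.e (nat_lit 98335) (nat_lit 18) (.e (nat_lit 164161) (nat_lit 152) .nil)))))))) (.g (nat_lit 4) .nil .nil)))) (.nd (nat_lit 5) 
(.lf (nat_lit 17042) (.g (nat_lit 3514) (.e (nat_lit 1169) (nat_lit 87) (.e (nat_lit 57479) (nat_lit 28) (.e (nat_lit 557100) (nat_lit 13) (.e (nat_lit 172113) (nat_lit 10) (.e (nat_lit 434245) (nat_lit 28) (.e (nat_lit 573471) (nat_lit 11) (.e (nat_lit 16406) (nat_lit 1) (.e (nat_lit 164421) (nat_lit 272) .nil)))))))) (.g (nat_lit 4) .nil .nil))) 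
(.lf (nat_lit 17074) (.g (nat_lit 3256) (.e (nat_lit 1169) (nat_lit 87) (.e (nat_lit 57479) (nat_lit 28) (.e (nat_lit 557105) (nat_lit 14) (.e (nat_lit 180252) (nat_lit 10) (.e (nat_lit 573488) (nat_lit 14) (.e (nat_lit 73747) (nat_lit 3) (.e (nat_lit 516115) (nat_lit 1) (.e (nat_lit 164163) (nat_lit 152) .nil)))))))) (.g (nat_lit 4) .nil .nil))))) (.nd (nat_lit 4) (.nd (nat_lit 5) 
(.lf (nat_lit 17034) (.g (nat_lit 149) (.e (nat_lit 1163) (nat_lit 86) (.e (nat_lit 49157) (nat_lit 0) (.e (nat_lit 3020) (nat_lit 187) .nil))) .nil)) 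
(.lf (nat_lit 17066) (.g (nat_lit 3489) (.e (nat_lit 1169) (nat_lit 87) (.e (nat_lit 57479) (nat_lit 28) (.e (nat_lit 557105) (nat_lit 14) (.e (nat_lit 180252) (nat_lit 10) (.e (nat_lit 573487) (nat_lit 14) (.e (nat_lit 73747) (nat_lit 3) (.e (nat_lit 516115) (nat_lit 1) (.e (nat_lit 164154) (nat_lit 152) .nil)))))))) (.g (nat_lit 5) .nil .nil)))) (.nd (nat_lit 5) 
(.lf (nat_lit 17050) (.g (nat_lit 2590) (.e (nat_lit 1169) (nat_lit 87) (.e (nat_lit 57479) (nat_lit 28) (.e (nat_lit 557103) (nat_lit 14) (.e (nat_lit 180250) (nat_lit 10) (.e (nat_lit 573484) (nat_lit 13) (.e (nat_lit 65569) (nat_lit 3) (.e (nat_lit 98334) (nat_lit 18) (.e (nat_lit 164161) (nat_lit 152) .nil)))))))) (.g (nat_lit 4) .nil .nil))) 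
(.lf (nat_lit 17082) (.g (nat_lit 1981) (.e (nat_lit 1169) (nat_lit 87) (.e (nat_lit 57479) (nat_lit 28) (.e (nat_lit 557105) (nat_lit 14) (.e (nat_lit 180252) (nat_lit 10) (.e (nat_lit 573489) (nat_lit 14) (.e (nat_lit 73748) (nat_lit 3) (.e (nat_lit 516119) (nat_lit 1) (.e (nat_lit 164152) (nat_lit 152) .nil)))))))) (.g (nat_lit 4) .nil .nil)))))) 
(.nd (nat_lit 3) (.nd (nat_lit 4) (.nd (nat_lit 5) 
(.lf (nat_lit 17030) (.g (nat_lit 1129) (.e (nat_lit 1163) (nat_lit 86) (.e (nat_lit 49156) (nat_lit 0) (.e (nat_lit 3011) (nat_lit 187) (.e (nat_lit 450584) (nat_lit 9) (.e (nat_lit 565268) (nat_lit 5) (.e (nat_lit 73791) (nat_lit 45) .nil)))))) (.g (nat_lit 6) .nil .nil))) 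
(.lf (nat_lit 17062) (.g (nat_lit 3278) (.e (nat_lit 1169) (nat_lit 87) (.e (nat_lit 57479) (nat_lit 28) (.e (nat_lit 557105) (nat_lit 14) (.e (nat_lit 180252) (nat_lit 10) (.e (nat_lit 573481) (nat_lit 13) (.e (nat_lit 65571) (nat_lit 3) (.e (nat_lit 98333) (nat_lit 18) (.e (nat_lit 164161) (nat_lit 152) .nil)))))))) (.g (nat_lit 4) .nil .nil)))) (.nd (nat_lit 5) 
(.lf (nat_lit 17046) (.g (nat_lit 2007) (.e (nat_lit 1169) (nat_lit 87) (.e (nat_lit 57479) (nat_lit 28) (.e (nat_lit 557101) (nat_lit 13) (.e (nat_lit 172115) (nat_lit 10) (.e (nat_lit 434231) (nat_lit 23) .nil))))) .nil)) 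
(.lf (nat_lit 17078) (.g (nat_lit 4068) (.e (nat_lit 1169) (nat_lit 87) (.e (nat_lit 57479) (nat_lit 28) (.e (nat_lit 557105) (nat_lit 14) (.e (nat_lit 180252) (nat_lit 10) (.e (nat_lit 573488) (nat_lit 14) (.e (nat_lit 73747) (nat_lit 3) (.e (nat_lit 516119) (nat_lit 1) (.e (nat_lit 164157) (nat_lit 152) .nil)))))))) (.g (nat_lit 5) .nil .nil))))) (.nd (nat_lit 4) (.nd (nat_lit 5) 
(.lf (nat_lit 17038) (.g (nat_lit 1622) (.e (nat_lit 1169) (nat_lit 87) (.e (nat_lit 57477) (nat_lit 28) (.e (nat_lit 557108) (nat_lit 15) (.e (nat_lit 188452) (nat_lit 23) (.e (nat_lit 204863) (nat_lit 27) .nil))))) .nil)) 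
(.lf (nat_lit 17070) (.g (nat_lit 3468) (.e (nat_lit 1169) (nat_lit 87) (.e (nat_lit 57479) (nat_lit 28) (.e (nat_lit 557105) (nat_lit 14) (.e (nat_lit 180252) (nat_lit 10) (.e (nat_lit 573487) (nat_lit 14) (.e (nat_lit 73747) (nat_lit 3) (.e (nat_lit 516119) (nat_lit 1) (.e (nat_lit 164163) (nat_lit 152) .nil)))))))) (.g (nat_lit 5) .nil .nil)))) (.nd (nat_lit 5) 
(.lf (nat_lit 17054) (.g (nat_lit 2462) (.e (nat_lit 1169) (nat_lit 87) (.e (nat_lit 57479) (nat_lit 28) (.e (nat_lit 557103) (nat_lit 14) (.e (nat_lit 180250) (nat_lit 10) (.e (nat_lit 573487) (nat_lit 14) (.e (nat_lit 73747) (nat_lit 3) (.e (nat_lit 516120) (nat_lit 1) (.e (nat_lit 164159) (nat_lit 152) .nil)))))))) (.g (nat_lit 4) .nil .nil))) 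
(.lf (nat_lit 17086) (.g (nat_lit 2733) (.e (nat_lit 1169) (nat_lit 87) (.e (nat_lit 57479) (nat_lit 28) (.e (nat_lit 557105) (nat_lit 14) (.e (nat_lit 180252) (nat_lit 10) (.e (nat_lit 573489) (nat_lit 14) (.e (nat_lit 73755) (nat_lit 8) (.e (nat_lit 557090) (nat_lit 12) (.e (nat_lit 163840) (nat_lit 0) (.e (nat_lit 5062) (nat_lit 292) .nil))))))))) (.g (nat_lit 6) .nil .nil)))))))) 
(.nd (nat_lit 1) (.nd (nat_lit 2) (.nd (nat_lit 3) (.nd (nat_lit 4) (.nd (nat_lit 5) 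
(.lf (nat_lit 17025) (.g (nat_lit 149) (.e (nat_lit 1162) (nat_lit 86) (.e (nat_lit 49157) (nat_lit 0) (.e (nat_lit 3020) (nat_lit 187) .nil))) .nil)) 
(.lf (nat_lit 17057) (.g (nat_lit 2347) (.e (nat_lit 1169) (nat_lit 87) (.e (nat_lit 57479) (nat_lit 28) (.e (nat_lit 557105) (nat_lit 14) (.e (nat_lit 180251) (nat_lit 10) (.e (nat_lit 573485) (nat_lit 13) .nil))))) .nil))) (.nd (nat_lit 5) 
(.lf (nat_lit 17041) (.g (nat_lit 2604) (.e (nat_lit 1169) (nat_lit 87) (.e (nat_lit 57479) (nat_lit 28) (.e (nat_lit 557100) (nat_lit 13) (.e (nat_lit 172113) (nat_lit 10) .nil)))) .nil)) 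
(.lf (nat_lit 17073) (.g (nat_lit 3228) (.e (nat_lit 1169) (nat_lit 87) (.e (nat_lit 57479) (nat_lit 28) (.e (nat_lit 557105) (nat_lit 14) (.e (nat_lit 180252) (nat_lit 10) (.e (nat_lit 573488) (nat_lit 14) (.e (nat_lit 73747) (nat_lit 3) (.e (nat_lit 516115) (nat_lit 1) (.e (nat_lit 164157) (nat_lit 152) .nil)))))))) (.g (nat_lit 4) .nil .nil))))) (.nd (nat_lit 4) (.nd (nat_lit 5) 
(.lf (nat_lit 17033) (.g (nat_lit 1251) (.e (nat_lit 1163) (nat_lit 86) (.e (nat_lit 49157) (nat_lit 0) (.e (nat_lit 3011) (nat_lit 187) (.e (nat_lit 450584) (nat_lit 9) (.e (nat_lit 565268) (nat_lit 5) (.e (nat_lit 73791) (nat_lit 45) .nil)))))) (.g (nat_lit 0) .nil .nil))) 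
(.lf (nat_lit 17065) (.g (nat_lit 2885) (.e (nat_lit 1169) (nat_lit 87) (.e (nat_lit 57479) (nat_lit 28) (.e (nat_lit 557105) (nat_lit 14) (.e (nat_lit 180252) (nat_lit 10) (.e (nat_lit 573487) (nat_lit 14) .nil))))) .nil))) (.nd (nat_lit 5) 
(.lf (nat_lit 17049) (.g (nat_lit 2438) (.e (nat_lit 1169) (nat_lit 87) (.e (nat_lit 57479) (nat_lit 28) (.e (nat_lit 557103) (nat_lit 14) (.e (nat_lit 180250) (nat_lit 10) (.e (nat_lit 573482) (nat_lit 13) (.e (nat_lit 65570) (nat_lit 3) (.e (nat_lit 98333) (nat_lit 18) (.e (nat_lit 164161) (nat_lit 152) .nil)))))))) (.g (nat_lit 4) .nil .nil))) 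
(.lf (nat_lit 17081) (.g (nat_lit 1814) (.e (nat_lit 1169) (nat_lit 87) (.e (nat_lit 57479) (nat_lit 28) (.e (nat_lit 557105) (nat_lit 14) (.e (nat_lit 180252) (nat_lit 10) (.e (nat_lit 573489) (nat_lit 14) .nil))))) .nil))))) (.nd (nat_lit 3) (.nd (nat_lit 4) (.nd (nat_lit 5) 
(.lf (nat_lit 17029) (.g (nat_lit 1115) (.e (nat_lit 1163) (nat_lit 86) (.e (nat_lit 49156) (nat_lit 0) (.e (nat_lit 3011) (nat_lit 187) (.e (nat_lit 450584) (nat_lit 9) (.e (nat_lit 565268) (nat_lit 5) (.e (nat_lit 73788) (nat_lit 45) .nil)))))) (.g (nat_lit 6) .nil .nil))) 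
(.lf (nat_lit 17061) (.g (nat_lit 3151) (.e (nat_lit 1169) (nat_lit 87) (.e (nat_lit 57479) (nat_lit 28) (.e (nat_lit 557105) (nat_lit 14) (.e (nat_lit 180252) (nat_lit 10) (.e (nat_lit 573481) (nat_lit 13) .nil))))) .nil))) (.nd (nat_lit 5) 
(.lf (nat_lit 17045) (.g (nat_lit 1963) (.e (nat_lit 1169) (nat_lit 87) (.e (nat_lit 57479) (nat_lit 28) (.e (nat_lit 557101) (nat_lit 13) (.e (nat_lit 172097) (nat_lit 9) (.e (nat_lit 426140) (nat_lit 3) .nil))))) .nil)) 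
(.lf (nat_lit 17077) (.g (nat_lit 3368) (.e (nat_lit 1169) (nat_lit 87) (.e (nat_lit 57479) (nat_lit 28) (.e (nat_lit 557105) (nat_lit 14) (.e (nat_lit 180252) (nat_lit 10) (.e (nat_lit 573488) (nat_lit 14) (.e (nat_lit 73747) (nat_lit 3) (.e (nat_lit 516119) (nat_lit 1) (.e (nat_lit 164152) (nat_lit 152) .nil)))))))) (.g (nat_lit 4) .nil .nil))))) (.nd (nat_lit 4) (.nd (nat_lit 5) 
(.lf (nat_lit 17037) (.g (nat_lit 1394) (.e (nat_lit 1169) (nat_lit 87) (.e (nat_lit 57477) (nat_lit 28) (.e (nat_lit 557108) (nat_lit 15) (.e (nat_lit 188434) (nat_lit 20) (.e (nat_lit 3272) (nat_lit 199) .nil))))) .nil)) 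
(.lf (nat_lit 17069) (.g (nat_lit 3443) (.e (nat_lit 1169) (nat_lit 87) (.e (nat_lit 57479) (nat_lit 28) (.e (nat_lit 557105) (nat_lit 14) (.e (nat_lit 180252) (nat_lit 10) (.e (nat_lit 573487) (nat_lit 14) (.e (nat_lit 73747) (nat_lit 3) (.e (nat_lit 516119) (nat_lit 1) (.e (nat_lit 164162) (nat_lit 152) .nil)))))))) (.g (nat_lit 5) .nil .nil)))) (.nd (nat_lit 5) 
(.lf (nat_lit 17053) (.g (nat_lit 2419) (.e (nat_lit 1169) (nat_lit 87) (.e (nat_lit 57479) (nat_lit 28) (.e (nat_lit 557103) (nat_lit 14) (.e (nat_lit 180250) (nat_lit 10) (.e (nat_lit 573487) (nat_lit 14) (.e (nat_lit 73747) (nat_lit 3) (.e (nat_lit 516119) (nat_lit 1) (.e (nat_lit 164154) (nat_lit 152) .nil)))))))) (.g (nat_lit 4) .nil .nil))) 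
(.lf (nat_lit 17085) (.g (nat_lit 3178) (.e (nat_lit 1169) (nat_lit 87) (.e (nat_lit 57479) (nat_lit 28) (.e (nat_lit 557105) (nat_lit 14) (.e (nat_lit 180252) (nat_lit 10) (.e (nat_lit 573489) (nat_lit 14) (.e (nat_lit 73755) (nat_lit 8) (.e (nat_lit 557067) (nat_lit 9) (.e (nat_lit 2606) (nat_lit 163) (.e (nat_lit 164309) (nat_lit 226) .nil))))))))) (.g (nat_lit 6) .nil .nil))))))) 
(.nd (nat_lit 2) (.nd (nat_lit 3) (.nd (nat_lit 4) (.nd (nat_lit 5) 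
(.lf (nat_lit 17027) (.g (nat_lit 2800) (.e (nat_lit 1162) (nat_lit 86) (.e (nat_lit 49185) (nat_lit 11) (.e (nat_lit 16465) (nat_lit 13) (.e (nat_lit 483372) (nat_lit 21) (.e (nat_lit 319505) (nat_lit 10) (.e (nat_lit 4925) (nat_lit 287) .nil)))))) (.g (nat_lit 6) .nil .nil))) 
(.lf (nat_lit 17059) (.g (nat_lit 3016) (.e (nat_lit 1169) (nat_lit 87) (.e (nat_lit 57479) (nat_lit 28) (.e (nat_lit 557105) (nat_lit 14) (.e (nat_lit 180251) (nat_lit 10) (.e (nat_lit 573487) (nat_lit 14) .nil))))) .nil))) (.nd (nat_lit 5) 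
(.lf (nat_lit 17043) (.g (nat_lit 2149) (.e (nat_lit 1169) (nat_lit 87) (.e (nat_lit 57479) (nat_lit 28) (.e (nat_lit 557100) (nat_lit 13) (.e (nat_lit 172123) (nat_lit 13) .nil)))) .nil)) 
(.lf (nat_lit 17075) (.g (nat_lit 3273) (.e (nat_lit 1169) (nat_lit 87) (.e (nat_lit 57479) (nat_lit 28) (.e (nat_lit 557105) (nat_lit 14) (.e (nat_lit 180252) (nat_lit 10) (.e (nat_lit 573488) (nat_lit 14) (.e (nat_lit 73747) (nat_lit 3) (.e (nat_lit 516117) (nat_lit 1) (.e (nat_lit 164165) (nat_lit 152) .nil)))))))) (.g (nat_lit 4) .nil .nil))))) (.nd (nat_lit 4) (.nd (nat_lit 5) 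
(.lf (nat_lit 17035) (.g (nat_lit 731) (.e (nat_lit 1165) (nat_lit 86) (.e (nat_lit 49185) (nat_lit 11) (.e (nat_lit 16465) (nat_lit 13) (.e (nat_lit 491264) (nat_lit 17) .nil)))) .nil)) 
(.lf (nat_lit 17067) (.g (nat_lit 3371) (.e (nat_lit 1169) (nat_lit 87) (.e (nat_lit 57479) (nat_lit 28) (.e (nat_lit 557105) (nat_lit 14) (.e (nat_lit 180252) (nat_lit 10) (.e (nat_lit 573487) (nat_lit 14) (.e (nat_lit 73747) (nat_lit 3) (.e (nat_lit 516115) (nat_lit 1) (.e (nat_lit 164162) (nat_lit 152) .nil)))))))) (.g (nat_lit 5) .nil .nil)))) (.nd (nat_lit 5) 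
(.lf (nat_lit 17051) (.g (nat_lit 2437) (.e (nat_lit 1169) (nat_lit 87) (.e (nat_lit 57479) (nat_lit 28) (.e (nat_lit 557103) (nat_lit 14) (.e (nat_lit 180250) (nat_lit 10) (.e (nat_lit 573485) (nat_lit 13) .nil))))) .nil)) 
(.lf (nat_lit 17083) (.g (nat_lit 3379) (.e (nat_lit 1169) (nat_lit 87) (.e (nat_lit 57479) (nat_lit 28) (.e (nat_lit 557105) (nat_lit 14) (.e (nat_lit 180252) (nat_lit 10) (.e (nat_lit 573489) (nat_lit 14) (.e (nat_lit 73748) (nat_lit 3) (.e (nat_lit 516119) (nat_lit 1) (.e (nat_lit 164154) (nat_lit 152) .nil)))))))) (.g (nat_lit 6) .nil .nil)))))) 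
(.nd (nat_lit 3) (.nd (nat_lit 4) (.nd (nat_lit 5) 
(.lf (nat_lit 17031) (.g (nat_lit 1238) (.e (nat_lit 1163) (nat_lit 86) (.e (nat_lit 49157) (nat_lit 0) (.e (nat_lit 3011) (nat_lit 187) (.e (nat_lit 450584) (nat_lit 9) (.e (nat_lit 565268) (nat_lit 5) (.e (nat_lit 73788) (nat_lit 45) .nil)))))) (.g (nat_lit 0) .nil .nil))) 
(.lf (nat_lit 17063) (.g (nat_lit 2759) (.e (nat_lit 1169) (nat_lit 87) (.e (nat_lit 57479) (nat_lit 28) (.e (nat_lit 557105) (nat_lit 14) (.e (nat_lit 180252) (nat_lit 10) (.e (nat_lit 573482) (nat_lit 13) (.e (nat_lit 65570) (nat_lit 3) (.e (nat_lit 98333) (nat_lit 18) (.e (nat_lit 164148) (nat_lit 152) .nil)))))))) (.g (nat_lit 4) .nil .nil)))) (.nd (nat_lit 5) 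
(.lf (nat_lit 17047) (.g (nat_lit 2214) (.e (nat_lit 1169) (nat_lit 87) (.e (nat_lit 57479) (nat_lit 28) (.e (nat_lit 557103) (nat_lit 14) (.e (nat_lit 180250) (nat_lit 10) (.e (nat_lit 573482) (nat_lit 13) .nil))))) .nil)) 
(.lf (nat_lit 17079) (.g (nat_lit 4119) (.e (nat_lit 1169) (nat_lit 87) (.e (nat_lit 57479) (nat_lit 28) (.e (nat_lit 557105) (nat_lit 14) (.e (nat_lit 180252) (nat_lit 10) (.e (nat_lit 573488) (nat_lit 14) (.e (nat_lit 73747) (nat_lit 3) (.e (nat_lit 516119) (nat_lit 1) (.e (nat_lit 164161) (nat_lit 152) .nil)))))))) (.g (nat_lit 5) .nil .nil))))) (.nd (nat_lit 4) (.nd (nat_lit 5) 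
(.lf (nat_lit 17039) (.g (nat_lit 1887) (.e (nat_lit 1169) (nat_lit 87) (.e (nat_lit 57479) (nat_lit 28) (.e (nat_lit 557095) (nat_lit 13) (.e (nat_lit 172115) (nat_lit 10) .nil)))) .nil)) 
(.lf (nat_lit 17071) (.g (nat_lit 2947) (.e (nat_lit 1169) (nat_lit 87) (.e (nat_lit 57479) (nat_lit 28) (.e (nat_lit 557105) (nat_lit 14) (.e (nat_lit 180252) (nat_lit 10) (.e (nat_lit 573487) (nat_lit 14) (.e (nat_lit 73747) (nat_lit 3) (.e (nat_lit 516119) (nat_lit 1) (.e (nat_lit 164164) (nat_lit 152) .nil)))))))) (.g (nat_lit 4) .nil .nil)))) (.nd (nat_lit 5) 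
(.lf (nat_lit 17055) (.g (nat_lit 1507) (.e (nat_lit 1169) (nat_lit 87) (.e (nat_lit 57479) (nat_lit 28) (.e (nat_lit 557105) (nat_lit 14) (.e (nat_lit 180251) (nat_lit 10) .nil)))) .nil)) 
(.lf (nat_lit 17087) (.g (nat_lit 2291) (.e (nat_lit 1169) (nat_lit 87) (.e (nat_lit 57479) (nat_lit 28) (.e (nat_lit 557105) (nat_lit 14) (.e (nat_lit 180252) (nat_lit 10) (.e (nat_lit 573489) (nat_lit 14) (.e (nat_lit 73755) (nat_lit 8) (.e (nat_lit 557090) (nat_lit 12) (.e (nat_lit 163840) (nat_lit 0) (.e (nat_lit 5063) (nat_lit 292) .nil))))))))) (.g (nat_lit 5) .nil .nil)))))))))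

noncomputable def tv232 : DT := (.nd (nat_lit 0) (.nd (nat_lit 1) (.nd (nat_lit 2) (.nd (nat_lit 3) (.nd (nat_lit 4) (.nd (nat_lit 5) 
(.lf (nat_lit 17088) (.g (nat_lit 2745) (.e (nat_lit 1169) (nat_lit 87) (.e (nat_lit 57479) (nat_lit 28) (.e (nat_lit 557105) (nat_lit 14) (.e (nat_lit 180252) (nat_lit 10) (.e (nat_lit 573489) (nat_lit 14) (.e (nat_lit 73755) (nat_lit 8) (.e (nat_lit 557090) (nat_lit 12) (.e (nat_lit 163840) (nat_lit 0) (.e (nat_lit 5078) (nat_lit 292) .nil))))))))) (.g (nat_lit 6) .nil .nil))) 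
(.lf (nat_lit 17120) (.g (nat_lit 2197) (.e (nat_lit 1169) (nat_lit 87) (.e (nat_lit 57480) (nat_lit 28) (.e (nat_lit 557105) (nat_lit 14) (.e (nat_lit 180251) (nat_lit 10) (.e (nat_lit 573485) (nat_lit 13) .nil))))) .nil))) (.nd (nat_lit 5) 
(.lf (nat_lit 17104) (.g (nat_lit 2691) (.e (nat_lit 1169) (nat_lit 87) (.e (nat_lit 57479) (nat_lit 28) (.e (nat_lit 557105) (nat_lit 14) (.e (nat_lit 180252) (nat_lit 10) (.e (nat_lit 573489) (nat_lit 14) (.e (nat_lit 73755) (nat_lit 8) (.e (nat_lit 557090) (nat_lit 12) (.e (nat_lit 163840) (nat_lit 0) (.e (nat_lit 5106) (nat_lit 292) .nil))))))))) (.g (nat_lit 6) .nil .nil))) 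
(.lf (nat_lit 17136) (.g (nat_lit 2023) (.e (nat_lit 1169) (nat_lit 87) (.e (nat_lit 57480) (nat_lit 28) (.e (nat_lit 557107) (nat_lit 15) (.e (nat_lit 188450) (nat_lit 23) (.e (nat_lit 204850) (nat_lit 26) .nil))))) .nil)))) (.nd (nat_lit 4) (.nd (nat_lit 5) 
(.lf (nat_lit 17096) (.g (nat_lit 2671) (.e (nat_lit 1169) (nat_lit 87) (.e (nat_lit 57479) (nat_lit 28) (.e (nat_lit 557105) (nat_lit 14) (.e (nat_lit 180252) (nat_lit 10) (.e (nat_lit 573489) (nat_lit 14) (.e (nat_lit 73755) (nat_lit 8) (.e (nat_lit 557090) (nat_lit 12) (.e (nat_lit 163840) (nat_lit 0) (.e (nat_lit 5088) (nat_lit 292) .nil))))))))) (.g (nat_lit 6) .nil .nil))) 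
(.lf (nat_lit 17128) (.g (nat_lit 1942) (.e (nat_lit 1169) (nat_lit 87) (.e (nat_lit 57480) (nat_lit 28) (.e (nat_lit 557105) (nat_lit 14) (.e (nat_lit 180252) (nat_lit 10) (.e (nat_lit 573488) (nat_lit 14) (.e (nat_lit 73747) (nat_lit 3) (.e (nat_lit 516119) (nat_lit 1) (.e (nat_lit 164167) (nat_lit 152) .nil)))))))) (.g (nat_lit 4) .nil .nil)))) (.nd (nat_lit 5) 
(.lf (nat_lit 17112) (.g (nat_lit 3820) (.e (nat_lit 1169) (nat_lit 87) (.e (nat_lit 57479) (nat_lit 28) (.e (nat_lit 557109) (nat_lit 15) (.e (nat_lit 188452) (nat_lit 23) (.e (nat_lit 204849) (nat_lit 25) .nil))))) .nil)) 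
(.lf (nat_lit 17144) (.g (nat_lit 3992) (.e (nat_lit 1169) (nat_lit 87) (.e (nat_lit 57480) (nat_lit 28) (.e (nat_lit 557108) (nat_lit 15) (.e (nat_lit 188452) (nat_lit 23) (.e (nat_lit 204817) (nat_lit 17) .nil))))) .nil))))) (.nd (nat_lit 3) (.nd (nat_lit 4) (.nd (nat_lit 5) 
(.lf (nat_lit 17092) (.g (nat_lit 2685) (.e (nat_lit 1169) (nat_lit 87) (.e (nat_lit 57479) (nat_lit 28) (.e (nat_lit 557105) (nat_lit 14) (.e (nat_lit 180252) (nat_lit 10) (.e (nat_lit 573489) (nat_lit 14) (.e (nat_lit 73755) (nat_lit 8) (.e (nat_lit 557090) (nat_lit 12) (.e (nat_lit 163840) (nat_lit 0) (.e (nat_lit 5084) (nat_lit 292) .nil))))))))) (.g (nat_lit 6) .nil .nil))) 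
(.lf (nat_lit 17124) (.g (nat_lit 3359) (.e (nat_lit 1169) (nat_lit 87) (.e (nat_lit 57480) (nat_lit 28) (.e (nat_lit 557105) (nat_lit 14) (.e (nat_lit 180252) (nat_lit 10) (.e (nat_lit 573481) (nat_lit 13) (.e (nat_lit 65571) (nat_lit 3) (.e (nat_lit 98334) (nat_lit 18) (.e (nat_lit 164159) (nat_lit 152) .nil)))))))) (.g (nat_lit 6) .nil .nil)))) (.nd (nat_lit 5) 
(.lf (nat_lit 17108) (.g (nat_lit 1712) (.e (nat_lit 1169) (nat_lit 87) (.e (nat_lit 57479) (nat_lit 28) (.e (nat_lit 557107) (nat_lit 15) (.e (nat_lit 196352) (nat_lit 18) .nil)))) .nil)) 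
(.lf (nat_lit 17140) (.g (nat_lit 2102) (.e (nat_lit 1169) (nat_lit 87) (.e (nat_lit 57480) (nat_lit 28) (.e (nat_lit 557108) (nat_lit 15) (.e (nat_lit 196352) (nat_lit 18) .nil)))) .nil)))) (.nd (nat_lit 4) (.nd (nat_lit 5) 
(.lf (nat_lit 17100) (.g (nat_lit 2770) (.e (nat_lit 1169) (nat_lit 87) (.e (nat_lit 57479) (nat_lit 28) (.e (nat_lit 557105) (nat_lit 14) (.e (nat_lit 180252) (nat_lit 10) (.e (nat_lit 573489) (nat_lit 14) (.e (nat_lit 73755) (nat_lit 8) (.e (nat_lit 557090) (nat_lit 12) (.e (nat_lit 163840) (nat_lit 0) (.e (nat_lit 5094) (nat_lit 292) .nil))))))))) (.g (nat_lit 6) .nil .nil))) 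
(.lf (nat_lit 17132) (.g (nat_lit 1637) (.e (nat_lit 1169) (nat_lit 87) (.e (nat_lit 57480) (nat_lit 28) (.e (nat_lit 557107) (nat_lit 15) (.e (nat_lit 196352) (nat_lit 18) .nil)))) .nil))) (.nd (nat_lit 5) 
(.lf (nat_lit 17116) (.g (nat_lit 2136) (.e (nat_lit 1169) (nat_lit 87) (.e (nat_lit 57480) (nat_lit 28) (.e (nat_lit 557098) (nat_lit 13) (.e (nat_lit 172115) (nat_lit 10) (.e (nat_lit 434231) (nat_lit 23) .nil))))) .nil)) 
(.lf (nat_lit 17148) (.g (nat_lit 3399) (.e (nat_lit 1169) (nat_lit 87) (.e (nat_lit 57480) (nat_lit 28) (.e (nat_lit 557108) (nat_lit 15) (.e (nat_lit 188452) (nat_lit 23) (.e (nat_lit 204852) (nat_lit 26) .nil))))) .nil)))))) (.nd (nat_lit 2) (.nd (nat_lit 3) (.nd (nat_lit 4) (.nd (nat_lit 5) 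
(.lf (nat_lit 17090) (.g (nat_lit 2685) (.e (nat_lit 1169) (nat_lit 87) (.e (nat_lit 57479) (nat_lit 28) (.e (nat_lit 557105) (nat_lit 14) (.e (nat_lit 180252) (nat_lit 10) (.e (nat_lit 573489) (nat_lit 14) (.e (nat_lit 73755) (nat_lit 8) (.e (nat_lit 557090) (nat_lit 12) (.e (nat_lit 163840) (nat_lit 0) (.e (nat_lit 5082) (nat_lit 292) .nil))))))))) (.g (nat_lit 6) .nil .nil))) 
(.lf (nat_lit 17122) (.g (nat_lit 3158) (.e (nat_lit 1169) (nat_lit 87) (.e (nat_lit 57480) (nat_lit 28) (.e (nat_lit 557105) (nat_lit 14) (.e (nat_lit 180252) (nat_lit 10) (.e (nat_lit 573481) (nat_lit 13) (.e (nat_lit 65570) (nat_lit 3) (.e (nat_lit 98334) (nat_lit 18) (.e (nat_lit 164159) (nat_lit 152) .nil)))))))) (.g (nat_lit 6) .nil .nil)))) (.nd (nat_lit 5) 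
(.lf (nat_lit 17106) (.g (nat_lit 4537) (.e (nat_lit 1169) (nat_lit 87) (.e (nat_lit 57479) (nat_lit 28) (.e (nat_lit 557105) (nat_lit 14) (.e (nat_lit 180252) (nat_lit 10) (.e (nat_lit 573489) (nat_lit 14) (.e (nat_lit 73755) (nat_lit 8) (.e (nat_lit 557090) (nat_lit 12) (.e (nat_lit 163850) (nat_lit 0) (.e (nat_lit 5089) (nat_lit 292) .nil))))))))) (.g (nat_lit 8) .nil .nil))) 
(.lf (nat_lit 17138) (.g (nat_lit 2011) (.e (nat_lit 1169) (nat_lit 87) (.e (nat_lit 57480) (nat_lit 28) (.e (nat_lit 557107) (nat_lit 15) (.e (nat_lit 188450) (nat_lit 23) (.e (nat_lit 204862) (nat_lit 27) .nil))))) .nil)))) (.nd (nat_lit 4) (.nd (nat_lit 5) 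
(.lf (nat_lit 17098) (.g (nat_lit 2770) (.e (nat_lit 1169) (nat_lit 87) (.e (nat_lit 57479) (nat_lit 28) (.e (nat_lit 557105) (nat_lit 14) (.e (nat_lit 180252) (nat_lit 10) (.e (nat_lit 573489) (nat_lit 14) (.e (nat_lit 73755) (nat_lit 8) (.e (nat_lit 557090) (nat_lit 12) (.e (nat_lit 163840) (nat_lit 0) (.e (nat_lit 5092) (nat_lit 292) .nil))))))))) (.g (nat_lit 6) .nil .nil))) 
(.lf (nat_lit 17130) (.g (nat_lit 1600) (.e (nat_lit 1169) (nat_lit 87) (.e (nat_lit 57480) (nat_lit 28) (.e (nat_lit 557107) (nat_lit 15) (.e (nat_lit 188421) (nat_lit 11) .nil)))) .nil))) (.nd (nat_lit 5) 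
(.lf (nat_lit 17114) (.g (nat_lit 2070) (.e (nat_lit 1169) (nat_lit 87) (.e (nat_lit 57480) (nat_lit 28) (.e (nat_lit 557098) (nat_lit 13) (.e (nat_lit 172097) (nat_lit 9) (.e (nat_lit 426125) (nat_lit 2) .nil))))) .nil)) 
(.lf (nat_lit 17146) (.g (nat_lit 3573) (.e (nat_lit 1169) (nat_lit 87) (.e (nat_lit 57480) (nat_lit 28) (.e (nat_lit 557108) (nat_lit 15) (.e (nat_lit 188452) (nat_lit 23) (.e (nat_lit 204850) (nat_lit 26) .nil))))) .nil))))) (.nd (nat_lit 3) (.nd (nat_lit 4) (.nd (nat_lit 5) 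
(.lf (nat_lit 17094) (.g (nat_lit 2775) (.e (nat_lit 1169) (nat_lit 87) (.e (nat_lit 57479) (nat_lit 28) (.e (nat_lit 557105) (nat_lit 14) (.e (nat_lit 180252) (nat_lit 10) (.e (nat_lit 573489) (nat_lit 14) (.e (nat_lit 73755) (nat_lit 8) (.e (nat_lit 557090) (nat_lit 12) (.e (nat_lit 163840) (nat_lit 0) (.e (nat_lit 5086) (nat_lit 292) .nil))))))))) (.g (nat_lit 6) .nil .nil))) 
(.lf (nat_lit 17126) (.g (nat_lit 2898) (.e (nat_lit 1169) (nat_lit 87) (.e (nat_lit 57480) (nat_lit 28) (.e (nat_lit 557105) (nat_lit 14) (.e (nat_lit 180252) (nat_lit 10) (.e (nat_lit 573488) (nat_lit 14) (.e (nat_lit 73747) (nat_lit 3) (.e (nat_lit 516119) (nat_lit 1) (.e (nat_lit 164152) (nat_lit 152) .nil)))))))) (.g (nat_lit 6) .nil .nil)))) (.nd (nat_lit 5) 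
(.lf (nat_lit 17110) (.g (nat_lit 2051) (.e (nat_lit 1169) (nat_lit 87) (.e (nat_lit 57479) (nat_lit 28) (.e (nat_lit 557109) (nat_lit 15) (.e (nat_lit 196352) (nat_lit 18) .nil)))) .nil)) 
(.lf (nat_lit 17142) (.g (nat_lit 2636) (.e (nat_lit 1169) (nat_lit 87) (.e (nat_lit 57480) (nat_lit 28) (.e (nat_lit 557108) (nat_lit 15) (.e (nat_lit 188452) (nat_lit 23) (.e (nat_lit 204816) (nat_lit 17) .nil))))) .nil)))) (.nd (nat_lit 4) (.nd (nat_lit 5) 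
(.lf (nat_lit 17102) (.g (nat_lit 2758) (.e (nat_lit 1169) (nat_lit 87) (.e (nat_lit 57479) (nat_lit 28) (.e (nat_lit 557105) (nat_lit 14) (.e (nat_lit 180252) (nat_lit 10) (.e (nat_lit 573489) (nat_lit 14) (.e (nat_lit 73755) (nat_lit 8) (.e (nat_lit 557090) (nat_lit 12) (.e (nat_lit 163840) (nat_lit 0) (.e (nat_lit 5100) (nat_lit 292) .nil))))))))) (.g (nat_lit 6) .nil .nil))) 
(.lf (nat_lit 17134) (.g (nat_lit 2622) (.e (nat_lit 1169) (nat_lit 87) (.e (nat_lit 57480) (nat_lit 28) (.e (nat_lit 557107) (nat_lit 15) (.e (nat_lit 188447) (nat_lit 22) (.e (nat_lit 196668) (nat_lit 14) .nil))))) .nil))) (.nd (nat_lit 5) 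
(.lf (nat_lit 17118) (.g (nat_lit 4103) (.e (nat_lit 1169) (nat_lit 87) (.e (nat_lit 57480) (nat_lit 28) (.e (nat_lit 557098) (nat_lit 13) (.e (nat_lit 172115) (nat_lit 10) (.e (nat_lit 434244) (nat_lit 28) (.e (nat_lit 573450) (nat_lit 9) (.e (nat_lit 452) (nat_lit 33) (.e (nat_lit 434209) (nat_lit 18) (.e (nat_lit 4607) (nat_lit 269) .nil))))))))) (.g (nat_lit 7) .nil .nil))) 
(.lf (nat_lit 17150) (.g (nat_lit 3074) (.e (nat_lit 1169) (nat_lit 87) (.e (nat_lit 57480) (nat_lit 28) (.e (nat_lit 557108) (nat_lit 15) (.e (nat_lit 188452) (nat_lit 23) (.e (nat_lit 204872) (nat_lit 30) .nil))))) .nil))))))) (.nd (nat_lit 1) (.nd (nat_lit 2) (.nd (nat_lit 3) (.nd (nat_lit 4) (.nd (nat_lit 5) 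
(.lf (nat_lit 17089) (.g (nat_lit 2691) (.e (nat_lit 1169) (nat_lit 87) (.e (nat_lit 57479) (nat_lit 28) (.e (nat_lit 557105) (nat_lit 14) (.e (nat_lit 180252) (nat_lit 10) (.e (nat_lit 573489) (nat_lit 14) (.e (nat_lit 73755) (nat_lit 8) (.e (nat_lit 557090) (nat_lit 12) (.e (nat_lit 163840) (nat_lit 0) (.e (nat_lit 5080) (nat_lit 292) .nil))))))))) (.g (nat_lit 6) .nil .nil))) 
(.lf (nat_lit 17121) (.g (nat_lit 1908) (.e (nat_lit 1169) (nat_lit 87) (.e (nat_lit 57480) (nat_lit 28) (.e (nat_lit 557105) (nat_lit 14) (.e (nat_lit 180252) (nat_lit 10) (.e (nat_lit 573481) (nat_lit 13) .nil))))) .nil))) (.nd (nat_lit 5) 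
(.lf (nat_lit 17105) (.g (nat_lit 2140) (.e (nat_lit 1169) (nat_lit 87) (.e (nat_lit 57479) (nat_lit 28) (.e (nat_lit 557105) (nat_lit 14) (.e (nat_lit 180252) (nat_lit 10) (.e (nat_lit 573489) (nat_lit 14) (.e (nat_lit 73755) (nat_lit 8) (.e (nat_lit 557090) (nat_lit 12) (.e (nat_lit 163842) (nat_lit 0) (.e (nat_lit 5142) (nat_lit 292) .nil))))))))) (.g (nat_lit 5) .nil .nil))) 
(.lf (nat_lit 17137) (.g (nat_lit 1925) (.e (nat_lit 1169) (nat_lit 87) (.e (nat_lit 57480) (nat_lit 28) (.e (nat_lit 557107) (nat_lit 15) (.e (nat_lit 188450) (nat_lit 23) (.e (nat_lit 204855) (nat_lit 26) .nil))))) .nil)))) (.nd (nat_lit 4) (.nd (nat_lit 5) 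
(.lf (nat_lit 17097) (.g (nat_lit 2774) (.e (nat_lit 1169) (nat_lit 87) (.e (nat_lit 57479) (nat_lit 28) (.e (nat_lit 557105) (nat_lit 14) (.e (nat_lit 180252) (nat_lit 10) (.e (nat_lit 573489) (nat_lit 14) (.e (nat_lit 73755) (nat_lit 8) (.e (nat_lit 557090) (nat_lit 12) (.e (nat_lit 163840) (nat_lit 0) (.e (nat_lit 5090) (nat_lit 292) .nil))))))))) (.g (nat_lit 6) .nil .nil))) 
(.lf (nat_lit 17129) (.g (nat_lit 505) (.e (nat_lit 1169) (nat_lit 87) (.e (nat_lit 57480) (nat_lit 28) (.e (nat_lit 557107) (nat_lit 15) .nil))) .nil))) (.nd (nat_lit 5) 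
(.lf (nat_lit 17113) (.g (nat_lit 2289) (.e (nat_lit 1169) (nat_lit 87) (.e (nat_lit 57479) (nat_lit 28) (.e (nat_lit 557109) (nat_lit 15) (.e (nat_lit 188461) (nat_lit 26) .nil)))) .nil)) 
(.lf (nat_lit 17145) (.g (nat_lit 3575) (.e (nat_lit 1169) (nat_lit 87) (.e (nat_lit 57480) (nat_lit 28) (.e (nat_lit 557108) (nat_lit 15) (.e (nat_lit 188452) (nat_lit 23) (.e (nat_lit 204848) (nat_lit 25) .nil))))) .nil))))) (.nd (nat_lit 3) (.nd (nat_lit 4) (.nd (nat_lit 5) 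
(.lf (nat_lit 17093) (.g (nat_lit 2758) (.e (nat_lit 1169) (nat_lit 87) (.e (nat_lit 57479) (nat_lit 28) (.e (nat_lit 557105) (nat_lit 14) (.e (nat_lit 180252) (nat_lit 10) (.e (nat_lit 573489) (nat_lit 14) (.e (nat_lit 73755) (nat_lit 8) (.e (nat_lit 557090) (nat_lit 12) (.e (nat_lit 163840) (nat_lit 0) (.e (nat_lit 5085) (nat_lit 292) .nil))))))))) (.g (nat_lit 6) .nil .nil))) 
(.lf (nat_lit 17125) (.g (nat_lit 1881) (.e (nat_lit 1169) (nat_lit 87) (.e (nat_lit 57480) (nat_lit 28) (.e (nat_lit 557105) (nat_lit 14) (.e (nat_lit 180252) (nat_lit 10) (.e (nat_lit 573488) (nat_lit 14) .nil))))) .nil))) (.nd (nat_lit 5) 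
(.lf (nat_lit 17109) (.g (nat_lit 2588) (.e (nat_lit 1169) (nat_lit 87) (.e (nat_lit 57479) (nat_lit 28) (.e (nat_lit 557109) (nat_lit 15) (.e (nat_lit 188422) (nat_lit 11) .nil)))) .nil)) 
(.lf (nat_lit 17141) (.g (nat_lit 1919) (.e (nat_lit 1169) (nat_lit 87) (.e (nat_lit 57480) (nat_lit 28) (.e (nat_lit 557108) (nat_lit 15) (.e (nat_lit 188452) (nat_lit 23) .nil)))) .nil)))) (.nd (nat_lit 4) (.nd (nat_lit 5) 
(.lf (nat_lit 17101) (.g (nat_lit 2685) (.e (nat_lit 1169) (nat_lit 87) (.e (nat_lit 57479) (nat_lit 28) (.e (nat_lit 557105) (nat_lit 14) (.e (nat_lit 180252) (nat_lit 10) (.e (nat_lit 573489) (nat_lit 14) (.e (nat_lit 73755) (nat_lit 8) (.e (nat_lit 557090) (nat_lit 12) (.e (nat_lit 163840) (nat_lit 0) (.e (nat_lit 5099) (nat_lit 292) .nil))))))))) (.g (nat_lit 6) .nil .nil))) 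
(.lf (nat_lit 17133) (.g (nat_lit 2061) (.e (nat_lit 1169) (nat_lit 87) (.e (nat_lit 57480) (nat_lit 28) (.e (nat_lit 557107) (nat_lit 15) (.e (nat_lit 188447) (nat_lit 22) (.e (nat_lit 196666) (nat_lit 13) .nil))))) .nil))) (.nd (nat_lit 5) 
(.lf (nat_lit 17117) (.g (nat_lit 2151) (.e (nat_lit 1169) (nat_lit 87) (.e (nat_lit 57480) (nat_lit 28) (.e (nat_lit 557098) (nat_lit 13) (.e (nat_lit 172115) (nat_lit 10) (.e (nat_lit 434231) (nat_lit 23) (.e (nat_lit 532527) (nat_lit 9) (.e (nat_lit 335997) (nat_lit 1) (.e (nat_lit 57872) (nat_lit 264) .nil)))))))) (.g (nat_lit 4) .nil .nil))) 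
(.lf (nat_lit 17149) (.g (nat_lit 5446) (.e (nat_lit 1169) (nat_lit 87) (.e (nat_lit 57480) (nat_lit 28) (.e (nat_lit 557108) (nat_lit 15) (.e (nat_lit 188452) (nat_lit 23) (.e (nat_lit 204859) (nat_lit 26) .nil))))) .nil)))))) (.nd (nat_lit 2) (.nd (nat_lit 3) (.nd (nat_lit 4) (.nd (nat_lit 5) 
(.lf (nat_lit 17091) (.g (nat_lit 2671) (.e (nat_lit 1169) (nat_lit 87) (.e (nat_lit 57479) (nat_lit 28) (.e (nat_lit 557105) (nat_lit 14) (.e (nat_lit 180252) (nat_lit 10) (.e (nat_lit 573489) (nat_lit 14) (.e (nat_lit 73755) (nat_lit 8) (.e (nat_lit 557090) (nat_lit 12) (.e (nat_lit 163840) (nat_lit 0) (.e (nat_lit 5083) (nat_lit 292) .nil))))))))) (.g (nat_lit 6) .nil .nil))) 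
(.lf (nat_lit 17123) (.g (nat_lit 1960) (.e (nat_lit 1169) (nat_lit 87) (.e (nat_lit 57480) (nat_lit 28) (.e (nat_lit 557105) (nat_lit 14) (.e (nat_lit 180252) (nat_lit 10) (.e (nat_lit 573481) (nat_lit 13) (.e (nat_lit 65570) (nat_lit 3) (.e (nat_lit 98334) (nat_lit 18) (.e (nat_lit 164166) (nat_lit 152) .nil)))))))) (.g (nat_lit 4) .nil .nil)))) (.nd (nat_lit 5) 
(.lf (nat_lit 17107) (.g (nat_lit 2293) (.e (nat_lit 1169) (nat_lit 87) (.e (nat_lit 57479) (nat_lit 28) (.e (nat_lit 557105) (nat_lit 14) (.e (nat_lit 180252) (nat_lit 10) (.e (nat_lit 573489) (nat_lit 14) (.e (nat_lit 73755) (nat_lit 8) (.e (nat_lit 557090) (nat_lit 12) (.e (nat_lit 171776) (nat_lit 0) (.e (nat_lit 5057) (nat_lit 292) .nil))))))))) (.g (nat_lit 5) .nil .nil))) 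
(.lf (nat_lit 17139) (.g (nat_lit 1939) (.e (nat_lit 1169) (nat_lit 87) (.e (nat_lit 57480) (nat_lit 28) (.e (nat_lit 557107) (nat_lit 15) (.e (nat_lit 188450) (nat_lit 23) (.e (nat_lit 204863) (nat_lit 27) .nil))))) .nil)))) (.nd (nat_lit 4) (.nd (nat_lit 5) 
(.lf (nat_lit 17099) (.g (nat_lit 2775) (.e (nat_lit 1169) (nat_lit 87) (.e (nat_lit 57479) (nat_lit 28) (.e (nat_lit 557105) (nat_lit 14) (.e (nat_lit 180252) (nat_lit 10) (.e (nat_lit 573489) (nat_lit 14) (.e (nat_lit 73755) (nat_lit 8) (.e (nat_lit 557090) (nat_lit 12) (.e (nat_lit 163840) (nat_lit 0) (.e (nat_lit 5093) (nat_lit 292) .nil))))))))) (.g (nat_lit 6) .nil .nil))) 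
(.lf (nat_lit 17131) (.g (nat_lit 1563) (.e (nat_lit 1169) (nat_lit 87) (.e (nat_lit 57480) (nat_lit 28) (.e (nat_lit 557107) (nat_lit 15) (.e (nat_lit 188423) (nat_lit 11) .nil)))) .nil))) (.nd (nat_lit 5) 
(.lf (nat_lit 17115) (.g (nat_lit 2068) (.e (nat_lit 1169) (nat_lit 87) (.e (nat_lit 57480) (nat_lit 28) (.e (nat_lit 557098) (nat_lit 13) (.e (nat_lit 172097) (nat_lit 9) (.e (nat_lit 426140) (nat_lit 3) .nil))))) .nil)) 
(.lf (nat_lit 17147) (.g (nat_lit 2957) (.e (nat_lit 1169) (nat_lit 87) (.e (nat_lit 57480) (nat_lit 28) (.e (nat_lit 557108) (nat_lit 15) (.e (nat_lit 188452) (nat_lit 23) (.e (nat_lit 204851) (nat_lit 26) .nil))))) .nil))))) (.nd (nat_lit 3) (.nd (nat_lit 4) (.nd (nat_lit 5) 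
(.lf (nat_lit 17095) (.g (nat_lit 2685) (.e (nat_lit 1169) (nat_lit 87) (.e (nat_lit 57479) (nat_lit 28) (.e (nat_lit 557105) (nat_lit 14) (.e (nat_lit 180252) (nat_lit 10) (.e (nat_lit 573489) (nat_lit 14) (.e (nat_lit 73755) (nat_lit 8) (.e (nat_lit 557090) (nat_lit 12) (.e (nat_lit 163840) (nat_lit 0) (.e (nat_lit 5087) (nat_lit 292) .nil))))))))) (.g (nat_lit 6) .nil .nil))) 
(.lf (nat_lit 17127) (.g (nat_lit 2599) (.e (nat_lit 1169) (nat_lit 87) (.e (nat_lit 57480) (nat_lit 28) (.e (nat_lit 557105) (nat_lit 14) (.e (nat_lit 180252) (nat_lit 10) (.e (nat_lit 573488) (nat_lit 14) (.e (nat_lit 73747) (nat_lit 3) (.e (nat_lit 516119) (nat_lit 1) (.e (nat_lit 164164) (nat_lit 152) .nil)))))))) (.g (nat_lit 5) .nil .nil)))) (.nd (nat_lit 5) 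
(.lf (nat_lit 17111) (.g (nat_lit 2610) (.e (nat_lit 1169) (nat_lit 87) (.e (nat_lit 57479) (nat_lit 28) (.e (nat_lit 557109) (nat_lit 15) (.e (nat_lit 196352) (nat_lit 18) (.e (nat_lit 393253) (nat_lit 18) (.e (nat_lit 164308) (nat_lit 226) .nil)))))) (.g (nat_lit 5) .nil .nil))) 
(.lf (nat_lit 17143) (.g (nat_lit 2678) (.e (nat_lit 1169) (nat_lit 87) (.e (nat_lit 57480) (nat_lit 28) (.e (nat_lit 557108) (nat_lit 15) (.e (nat_lit 188452) (nat_lit 23) (.e (nat_lit 204816) (nat_lit 17) (.e (nat_lit 6155) (nat_lit 332) (.e (nat_lit 2545) (nat_lit 158) (.e (nat_lit 8435) (nat_lit 138) .nil)))))))) (.g (nat_lit 4) .nil .nil))))) (.nd (nat_lit 4) (.nd (nat_lit 5) 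
(.lf (nat_lit 17103) (.g (nat_lit 2774) (.e (nat_lit 1169) (nat_lit 87) (.e (nat_lit 57479) (nat_lit 28) (.e (nat_lit 557105) (nat_lit 14) (.e (nat_lit 180252) (nat_lit 10) (.e (nat_lit 573489) (nat_lit 14) (.e (nat_lit 73755) (nat_lit 8) (.e (nat_lit 557090) (nat_lit 12) (.e (nat_lit 163840) (nat_lit 0) (.e (nat_lit 5101) (nat_lit 292) .nil))))))))) (.g (nat_lit 6) .nil .nil))) 
(.lf (nat_lit 17135) (.g (nat_lit 1355) (.e (nat_lit 1169) (nat_lit 87) (.e (nat_lit 57480) (nat_lit 28) (.e (nat_lit 557107) (nat_lit 15) (.e (nat_lit 188450) (nat_lit 23) .nil)))) .nil))) (.nd (nat_lit 5) 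
(.lf (nat_lit 17119) (.g (nat_lit 2163) (.e (nat_lit 1169) (nat_lit 87) (.e (nat_lit 57480) (nat_lit 28) (.e (nat_lit 557098) (nat_lit 13) (.e (nat_lit 172123) (nat_lit 13) (.e (nat_lit 483337) (nat_lit 9) .nil))))) .nil)) 
(.lf (nat_lit 17151) (.g (nat_lit 3447) (.e (nat_lit 1169) (nat_lit 87) (.e (nat_lit 57480) (nat_lit 28) (.e (nat_lit 557108) (nat_lit 15) (.e (nat_lit 188452) (nat_lit 23) (.e (nat_lit 204873) (nat_lit 30) .nil))))) .nil))))))))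

noncomputable def tv233 : DT := (.nd (nat_lit 0) (.nd (nat_lit 1) (.nd (nat_lit 2) (.nd (nat_lit 3) (.nd (nat_lit 4) (.nd (nat_lit 5) 
(.lf (nat_lit 17152) (.g (nat_lit 3715) (.e (nat_lit 1169) (nat_lit 87) (.e (nat_lit 57480) (nat_lit 28) (.e (nat_lit 557108) (nat_lit 15) (.e (nat_lit 188452) (nat_lit 23) (.e (nat_lit 204873) (nat_lit 30) (.e (nat_lit 368662) (nat_lit 18) (.e (nat_lit 5905) (nat_lit 320) .nil))))))) (.g (nat_lit 5) .nil .nil))) 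
(.lf (nat_lit 17184) (.g (nat_lit 3075) (.e (nat_lit 1169) (nat_lit 87) (.e (nat_lit 57480) (nat_lit 28) (.e (nat_lit 557109) (nat_lit 15) (.e (nat_lit 188452) (nat_lit 23) (.e (nat_lit 204873) (nat_lit 30) .nil))))) .nil))) (.nd (nat_lit 5) 
(.lf (nat_lit 17168) (.g (nat_lit 3447) (.e (nat_lit 1169) (nat_lit 87) (.e (nat_lit 57480) (nat_lit 28) (.e (nat_lit 557109) (nat_lit 15) (.e (nat_lit 188449) (nat_lit 22) (.e (nat_lit 196668) (nat_lit 14) .nil))))) .nil)) 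
(.lf (nat_lit 17200) (.g (nat_lit 2514) (.e (nat_lit 1170) (nat_lit 87) (.e (nat_lit 57476) (nat_lit 28) (.e (nat_lit 557097) (nat_lit 13) (.e (nat_lit 172097) (nat_lit 9) (.e (nat_lit 426140) (nat_lit 3) (.e (nat_lit 204850) (nat_lit 26) (.e (nat_lit 335997) (nat_lit 1) (.e (nat_lit 57872) (nat_lit 264) .nil)))))))) (.g (nat_lit 5) .nil .nil))))) (.nd (nat_lit 4) (.nd (nat_lit 5) 
(.lf (nat_lit 17160) (.g (nat_lit 2879) (.e (nat_lit 1169) (nat_lit 87) (.e (nat_lit 57480) (nat_lit 28) (.e (nat_lit 557109) (nat_lit 15) (.e (nat_lit 188434) (nat_lit 20) (.e (nat_lit 3271) (nat_lit 199) .nil))))) .nil)) 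
(.lf (nat_lit 17192) (.g (nat_lit 1796) (.e (nat_lit 1169) (nat_lit 87) (.e (nat_lit 57926) (nat_lit 282) (.e (nat_lit 163869) (nat_lit 2) (.e (nat_lit 196670) (nat_lit 14) (.e (nat_lit 73746) (nat_lit 3) (.e (nat_lit 516131) (nat_lit 3) (.e (nat_lit 221212) (nat_lit 22) (.e (nat_lit 196632) (nat_lit 9) .nil)))))))) (.g (nat_lit 4) .nil .nil)))) (.nd (nat_lit 5) 
(.lf (nat_lit 17176) (.g (nat_lit 3937) (.e (nat_lit 1169) (nat_lit 87) (.e (nat_lit 57480) (nat_lit 28) (.e (nat_lit 557109) (nat_lit 15) (.e (nat_lit 188452) (nat_lit 23) (.e (nat_lit 204817) (nat_lit 17) .nil))))) .nil)) 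
(.lf (nat_lit 17208) (.g (nat_lit 1606) (.e (nat_lit 1170) (nat_lit 87) (.e (nat_lit 57476) (nat_lit 28) (.e (nat_lit 557107) (nat_lit 15) (.e (nat_lit 188450) (nat_lit 23) (.e (nat_lit 204850) (nat_lit 26) .nil))))) .nil))))) (.nd (nat_lit 3) (.nd (nat_lit 4) (.nd (nat_lit 5) 
(.lf (nat_lit 17156) (.g (nat_lit 2998) (.e (nat_lit 1169) (nat_lit 87) (.e (nat_lit 57480) (nat_lit 28) (.e (nat_lit 557109) (nat_lit 15) (.e (nat_lit 188421) (nat_lit 11) (.e (nat_lit 336387) (nat_lit 27) .nil))))) .nil)) 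
(.lf (nat_lit 17188) (.g (nat_lit 2184) (.e (nat_lit 1169) (nat_lit 87) (.e (nat_lit 57480) (nat_lit 28) (.e (nat_lit 557109) (nat_lit 15) (.e (nat_lit 188461) (nat_lit 26) .nil)))) .nil))) (.nd (nat_lit 5) 
(.lf (nat_lit 17172) (.g (nat_lit 3410) (.e (nat_lit 1169) (nat_lit 87) (.e (nat_lit 57480) (nat_lit 28) (.e (nat_lit 557109) (nat_lit 15) (.e (nat_lit 188450) (nat_lit 23) (.e (nat_lit 204855) (nat_lit 26) .nil))))) .nil)) 
(.lf (nat_lit 17204) (.g (nat_lit 3380) (.e (nat_lit 1170) (nat_lit 87) (.e (nat_lit 57476) (nat_lit 28) (.e (nat_lit 557097) (nat_lit 13) (.e (nat_lit 172115) (nat_lit 10) (.e (nat_lit 434231) (nat_lit 23) (.e (nat_lit 532543) (nat_lit 10) (.e (nat_lit 344097) (nat_lit 18) (.e (nat_lit 5905) (nat_lit 320) .nil)))))))) (.g (nat_lit 6) .nil .nil))))) (.nd (nat_lit 4) (.nd (nat_lit 5) 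
(.lf (nat_lit 17164) (.g (nat_lit 3336) (.e (nat_lit 1169) (nat_lit 87) (.e (nat_lit 57480) (nat_lit 28) (.e (nat_lit 557109) (nat_lit 15) (.e (nat_lit 188447) (nat_lit 22) (.e (nat_lit 196668) (nat_lit 14) .nil))))) .nil)) 
(.lf (nat_lit 17196) (.g (nat_lit 2800) (.e (nat_lit 1170) (nat_lit 87) (.e (nat_lit 57464) (nat_lit 23) (.e (nat_lit 516151) (nat_lit 9) (.e (nat_lit 426042) (nat_lit 0) (.e (nat_lit 3307) (nat_lit 202) .nil))))) .nil))) (.nd (nat_lit 5) 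
(.lf (nat_lit 17180) (.g (nat_lit 3194) (.e (nat_lit 1169) (nat_lit 87) (.e (nat_lit 57480) (nat_lit 28) (.e (nat_lit 557109) (nat_lit 15) (.e (nat_lit 188452) (nat_lit 23) (.e (nat_lit 204856) (nat_lit 26) .nil))))) .nil)) 
(.lf (nat_lit 17212) (.g (nat_lit 2017) (.e (nat_lit 1170) (nat_lit 87) (.e (nat_lit 57476) (nat_lit 28) (.e (nat_lit 557107) (nat_lit 15) (.e (nat_lit 188450) (nat_lit 23) (.e (nat_lit 204873) (nat_lit 30) (.e (nat_lit 368662) (nat_lit 18) (.e (nat_lit 5906) (nat_lit 320) .nil))))))) (.g (nat_lit 5) .nil .nil))))))) (.nd (nat_lit 2) (.nd (nat_lit 3) (.nd (nat_lit 4) (.nd (nat_lit 5) 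
(.lf (nat_lit 17154) (.g (nat_lit 3614) (.e (nat_lit 1169) (nat_lit 87) (.e (nat_lit 57480) (nat_lit 28) (.e (nat_lit 557108) (nat_lit 15) (.e (nat_lit 188452) (nat_lit 23) (.e (nat_lit 204874) (nat_lit 30) (.e (nat_lit 368662) (nat_lit 18) (.e (nat_lit 5906) (nat_lit 320) .nil))))))) (.g (nat_lit 5) .nil .nil))) 
(.lf (nat_lit 17186) (.g (nat_lit 3281) (.e (nat_lit 1169) (nat_lit 87) (.e (nat_lit 57480) (nat_lit 28) (.e (nat_lit 557109) (nat_lit 15) (.e (nat_lit 188458) (nat_lit 25) (.e (nat_lit 245784) (nat_lit 9) .nil))))) .nil))) (.nd (nat_lit 5) 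
(.lf (nat_lit 17170) (.g (nat_lit 1933) (.e (nat_lit 1169) (nat_lit 87) (.e (nat_lit 57480) (nat_lit 28) (.e (nat_lit 557109) (nat_lit 15) (.e (nat_lit 188450) (nat_lit 23) .nil)))) .nil)) 
(.lf (nat_lit 17202) (.g (nat_lit 3173) (.e (nat_lit 1170) (nat_lit 87) (.e (nat_lit 57476) (nat_lit 28) (.e (nat_lit 557097) (nat_lit 13) (.e (nat_lit 172097) (nat_lit 9) (.e (nat_lit 426140) (nat_lit 3) (.e (nat_lit 204862) (nat_lit 27) (.e (nat_lit 344097) (nat_lit 18) (.e (nat_lit 5905) (nat_lit 320) .nil)))))))) (.g (nat_lit 6) .nil .nil))))) (.nd (nat_lit 4) (.nd (nat_lit 5) 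
(.lf (nat_lit 17162) (.g (nat_lit 2435) (.e (nat_lit 1169) (nat_lit 87) (.e (nat_lit 57480) (nat_lit 28) (.e (nat_lit 557109) (nat_lit 15) (.e (nat_lit 188441) (nat_lit 20) .nil)))) .nil)) 
(.lf (nat_lit 17194) (.g (nat_lit 2613) (.e (nat_lit 1169) (nat_lit 87) (.e (nat_lit 57931) (nat_lit 282) (.e (nat_lit 163869) (nat_lit 2) (.e (nat_lit 196670) (nat_lit 14) (.e (nat_lit 73746) (nat_lit 3) .nil))))) .nil))) (.nd (nat_lit 5) 
(.lf (nat_lit 17178) (.g (nat_lit 2488) (.e (nat_lit 1169) (nat_lit 87) (.e (nat_lit 57480) (nat_lit 28) (.e (nat_lit 557109) (nat_lit 15) (.e (nat_lit 188452) (nat_lit 23) (.e (nat_lit 204855) (nat_lit 26) .nil))))) .nil)) 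
(.lf (nat_lit 17210) (.g (nat_lit 1581) (.e (nat_lit 1170) (nat_lit 87) (.e (nat_lit 57476) (nat_lit 28) (.e (nat_lit 557107) (nat_lit 15) (.e (nat_lit 188450) (nat_lit 23) (.e (nat_lit 204872) (nat_lit 30) .nil))))) .nil))))) (.nd (nat_lit 3) (.nd (nat_lit 4) (.nd (nat_lit 5) 
(.lf (nat_lit 17158) (.g (nat_lit 2237) (.e (nat_lit 1169) (nat_lit 87) (.e (nat_lit 57480) (nat_lit 28) (.e (nat_lit 557109) (nat_lit 15) (.e (nat_lit 196352) (nat_lit 18) .nil)))) .nil)) 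
(.lf (nat_lit 17190) (.g (nat_lit 2879) (.e (nat_lit 1169) (nat_lit 87) (.e (nat_lit 57849) (nat_lit 252) (.e (nat_lit 57372) (nat_lit 2) (.e (nat_lit 90128) (nat_lit 9) (.e (nat_lit 304) (nat_lit 22) .nil))))) .nil))) (.nd (nat_lit 5) 
(.lf (nat_lit 17174) (.g (nat_lit 3376) (.e (nat_lit 1169) (nat_lit 87) (.e (nat_lit 57480) (nat_lit 28) (.e (nat_lit 557109) (nat_lit 15) (.e (nat_lit 188450) (nat_lit 23) (.e (nat_lit 204863) (nat_lit 27) .nil))))) .nil)) 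
(.lf (nat_lit 17206) (.g (nat_lit 3770) (.e (nat_lit 1170) (nat_lit 87) (.e (nat_lit 57476) (nat_lit 28) (.e (nat_lit 557097) (nat_lit 13) (.e (nat_lit 172115) (nat_lit 10) (.e (nat_lit 434231) (nat_lit 23) (.e (nat_lit 532544) (nat_lit 10) (.e (nat_lit 344097) (nat_lit 18) (.e (nat_lit 5907) (nat_lit 320) .nil)))))))) (.g (nat_lit 6) .nil .nil))))) (.nd (nat_lit 4) (.nd (nat_lit 5) 
(.lf (nat_lit 17166) (.g (nat_lit 2389) (.e (nat_lit 1169) (nat_lit 87) (.e (nat_lit 57480) (nat_lit 28) (.e (nat_lit 557109) (nat_lit 15) (.e (nat_lit 188449) (nat_lit 22) (.e (nat_lit 196666) (nat_lit 13) .nil))))) .nil)) 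
(.lf (nat_lit 17198) (.g (nat_lit 2438) (.e (nat_lit 1170) (nat_lit 87) (.e (nat_lit 57464) (nat_lit 23) (.e (nat_lit 516179) (nat_lit 15) (.e (nat_lit 475177) (nat_lit 24) (.e (nat_lit 516169) (nat_lit 13) (.e (nat_lit 458789) (nat_lit 23) (.e (nat_lit 532501) (nat_lit 1) (.e (nat_lit 57754) (nat_lit 209) .nil)))))))) (.g (nat_lit 4) .nil .nil)))) (.nd (nat_lit 5) 
(.lf (nat_lit 17182) (.g (nat_lit 2421) (.e (nat_lit 1169) (nat_lit 87) (.e (nat_lit 57480) (nat_lit 28) (.e (nat_lit 557109) (nat_lit 15) (.e (nat_lit 188452) (nat_lit 23) (.e (nat_lit 204863) (nat_lit 27) .nil))))) .nil)) 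
(.lf (nat_lit 17214) (.g (nat_lit 2633) (.e (nat_lit 1170) (nat_lit 87) (.e (nat_lit 57476) (nat_lit 28) (.e (nat_lit 557108) (nat_lit 15) (.e (nat_lit 188449) (nat_lit 22) (.e (nat_lit 196666) (nat_lit 13) (.e (nat_lit 65565) (nat_lit 1) (.e (nat_lit 57873) (nat_lit 264) .nil))))))) (.g (nat_lit 5) .nil .nil)))))))) 
(.nd (nat_lit 1) (.nd (nat_lit 2) (.nd (nat_lit 3) (.nd (nat_lit 4) (.nd (nat_lit 5) 
(.lf (nat_lit 17153) (.g (nat_lit 3414) (.e (nat_lit 1169) (nat_lit 87) (.e (nat_lit 57480) (nat_lit 28) (.e (nat_lit 557108) (nat_lit 15) (.e (nat_lit 188452) (nat_lit 23) (.e (nat_lit 204874) (nat_lit 30) .nil))))) .nil)) 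
(.lf (nat_lit 17185) (.g (nat_lit 3572) (.e (nat_lit 1169) (nat_lit 87) (.e (nat_lit 57480) (nat_lit 28) (.e (nat_lit 557109) (nat_lit 15) (.e (nat_lit 188452) (nat_lit 23) (.e (nat_lit 204874) (nat_lit 30) .nil))))) .nil))) (.nd (nat_lit 5) 
(.lf (nat_lit 17169) (.g (nat_lit 4669) (.e (nat_lit 1169) (nat_lit 87) (.e (nat_lit 57480) (nat_lit 28) (.e (nat_lit 557109) (nat_lit 15) (.e (nat_lit 188449) (nat_lit 22) (.e (nat_lit 196669) (nat_lit 14) .nil))))) .nil)) 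
(.lf (nat_lit 17201) (.g (nat_lit 2477) (.e (nat_lit 1170) (nat_lit 87) (.e (nat_lit 57476) (nat_lit 28) (.e (nat_lit 557097) (nat_lit 13) (.e (nat_lit 172097) (nat_lit 9) (.e (nat_lit 426140) (nat_lit 3) (.e (nat_lit 204855) (nat_lit 26) (.e (nat_lit 335985) (nat_lit 1) (.e (nat_lit 57872) (nat_lit 264) .nil)))))))) (.g (nat_lit 5) .nil .nil))))) (.nd (nat_lit 4) (.nd (nat_lit 5) 
(.lf (nat_lit 17161) (.g (nat_lit 3138) (.e (nat_lit 1169) (nat_lit 87) (.e (nat_lit 57480) (nat_lit 28) (.e (nat_lit 557109) (nat_lit 15) (.e (nat_lit 188434) (nat_lit 20) (.e (nat_lit 3272) (nat_lit 199) (.e (nat_lit 548913) (nat_lit 18) (.e (nat_lit 172061) (nat_lit 1) (.e (nat_lit 164423) (nat_lit 272) .nil)))))))) (.g (nat_lit 5) .nil .nil))) 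
(.lf (nat_lit 17193) (.g (nat_lit 2158) (.e (nat_lit 1169) (nat_lit 87) (.e (nat_lit 57927) (nat_lit 282) (.e (nat_lit 163869) (nat_lit 2) (.e (nat_lit 196670) (nat_lit 14) (.e (nat_lit 73746) (nat_lit 3) .nil))))) .nil))) (.nd (nat_lit 5) 
(.lf (nat_lit 17177) (.g (nat_lit 2618) (.e (nat_lit 1169) (nat_lit 87) (.e (nat_lit 57480) (nat_lit 28) (.e (nat_lit 557109) (nat_lit 15) (.e (nat_lit 188452) (nat_lit 23) (.e (nat_lit 204850) (nat_lit 26) .nil))))) .nil)) 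
(.lf (nat_lit 17209) (.g (nat_lit 1692) (.e (nat_lit 1170) (nat_lit 87) (.e (nat_lit 57476) (nat_lit 28) (.e (nat_lit 557107) (nat_lit 15) (.e (nat_lit 188450) (nat_lit 23) (.e (nat_lit 204850) (nat_lit 26) (.e (nat_lit 335997) (nat_lit 1) (.e (nat_lit 57872) (nat_lit 264) .nil))))))) (.g (nat_lit 4) .nil .nil)))))) (.nd (nat_lit 3) (.nd (nat_lit 4) (.nd (nat_lit 5) 
(.lf (nat_lit 17157) (.g (nat_lit 2462) (.e (nat_lit 1169) (nat_lit 87) (.e (nat_lit 57480) (nat_lit 28) (.e (nat_lit 557109) (nat_lit 15) (.e (nat_lit 188422) (nat_lit 11) .nil)))) .nil)) 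
(.lf (nat_lit 17189) (.g (nat_lit 2419) (.e (nat_lit 1169) (nat_lit 87) (.e (nat_lit 57849) (nat_lit 252) (.e (nat_lit 57372) (nat_lit 2) (.e (nat_lit 90128) (nat_lit 9) (.e (nat_lit 297) (nat_lit 22) .nil))))) .nil))) (.nd (nat_lit 5) 
(.lf (nat_lit 17173) (.g (nat_lit 3448) (.e (nat_lit 1169) (nat_lit 87) (.e (nat_lit 57480) (nat_lit 28) (.e (nat_lit 557109) (nat_lit 15) (.e (nat_lit 188450) (nat_lit 23) (.e (nat_lit 204855) (nat_lit 26) (.e (nat_lit 336030) (nat_lit 4) (.e (nat_lit 123182) (nat_lit 264) .nil))))))) (.g (nat_lit 4) .nil .nil))) 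
(.lf (nat_lit 17205) (.g (nat_lit 3495) (.e (nat_lit 1170) (nat_lit 87) (.e (nat_lit 57476) (nat_lit 28) (.e (nat_lit 557097) (nat_lit 13) (.e (nat_lit 172115) (nat_lit 10) (.e (nat_lit 434231) (nat_lit 23) (.e (nat_lit 532543) (nat_lit 10) (.e (nat_lit 344097) (nat_lit 18) (.e (nat_lit 5907) (nat_lit 320) .nil)))))))) (.g (nat_lit 6) .nil .nil))))) (.nd (nat_lit 4) (.nd (nat_lit 5) 
(.lf (nat_lit 17165) (.g (nat_lit 1030) (.e (nat_lit 1169) (nat_lit 87) (.e (nat_lit 57480) (nat_lit 28) (.e (nat_lit 557109) (nat_lit 15) (.e (nat_lit 188449) (nat_lit 22) .nil)))) .nil)) 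
(.lf (nat_lit 17197) (.g (nat_lit 2372) (.e (nat_lit 1170) (nat_lit 87) (.e (nat_lit 57464) (nat_lit 23) (.e (nat_lit 516179) (nat_lit 15) (.e (nat_lit 475177) (nat_lit 24) (.e (nat_lit 516169) (nat_lit 13) (.e (nat_lit 458789) (nat_lit 23) (.e (nat_lit 532499) (nat_lit 1) (.e (nat_lit 57754) (nat_lit 209) .nil)))))))) (.g (nat_lit 4) .nil .nil)))) (.nd (nat_lit 5) 
(.lf (nat_lit 17181) (.g (nat_lit 3162) (.e (nat_lit 1169) (nat_lit 87) (.e (nat_lit 57480) (nat_lit 28) (.e (nat_lit 557109) (nat_lit 15) (.e (nat_lit 188452) (nat_lit 23) (.e (nat_lit 204859) (nat_lit 26) (.e (nat_lit 335998) (nat_lit 1) (.e (nat_lit 57873) (nat_lit 264) .nil))))))) (.g (nat_lit 4) .nil .nil))) 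
(.lf (nat_lit 17213) (.g (nat_lit 2556) (.e (nat_lit 1170) (nat_lit 87) (.e (nat_lit 57476) (nat_lit 28) (.e (nat_lit 557108) (nat_lit 15) (.e (nat_lit 188449) (nat_lit 22) (.e (nat_lit 196666) (nat_lit 13) (.e (nat_lit 65546) (nat_lit 0) (.e (nat_lit 1023) (nat_lit 81) (.e (nat_lit 5905) (nat_lit 320) .nil)))))))) (.g (nat_lit 5) .nil .nil))))))) 
(.nd (nat_lit 2) (.nd (nat_lit 3) (.nd (nat_lit 4) (.nd (nat_lit 5) 
(.lf (nat_lit 17155) (.g (nat_lit 2161) (.e (nat_lit 1169) (nat_lit 87) (.e (nat_lit 57480) (nat_lit 28) (.e (nat_lit 557108) (nat_lit 15) (.e (nat_lit 188452) (nat_lit 23) (.e (nat_lit 204885) (nat_lit 33) .nil))))) .nil)) 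
(.lf (nat_lit 17187) (.g (nat_lit 3663) (.e (nat_lit 1169) (nat_lit 87) (.e (nat_lit 57480) (nat_lit 28) (.e (nat_lit 557109) (nat_lit 15) (.e (nat_lit 188458) (nat_lit 25) (.e (nat_lit 245791) (nat_lit 14) .nil))))) .nil))) (.nd (nat_lit 5) 
(.lf (nat_lit 17171) (.g (nat_lit 3510) (.e (nat_lit 1169) (nat_lit 87) (.e (nat_lit 57480) (nat_lit 28) (.e (nat_lit 557109) (nat_lit 15) (.e (nat_lit 188450) (nat_lit 23) (.e (nat_lit 204850) (nat_lit 26) .nil))))) .nil)) 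
(.lf (nat_lit 17203) (.g (nat_lit 3041) (.e (nat_lit 1170) (nat_lit 87) (.e (nat_lit 57476) (nat_lit 28) (.e (nat_lit 557097) (nat_lit 13) (.e (nat_lit 172115) (nat_lit 10) (.e (nat_lit 434231) (nat_lit 23) (.e (nat_lit 532527) (nat_lit 9) (.e (nat_lit 335997) (nat_lit 1) (.e (nat_lit 57872) (nat_lit 264) .nil)))))))) (.g (nat_lit 5) .nil .nil))))) (.nd (nat_lit 4) (.nd (nat_lit 5) 
(.lf (nat_lit 17163) (.g (nat_lit 3442) (.e (nat_lit 1169) (nat_lit 87) (.e (nat_lit 57480) (nat_lit 28) (.e (nat_lit 557109) (nat_lit 15) (.e (nat_lit 188447) (nat_lit 22) (.e (nat_lit 196666) (nat_lit 13) .nil))))) .nil)) 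
(.lf (nat_lit 17195) (.g (nat_lit 3108) (.e (nat_lit 1169) (nat_lit 87) (.e (nat_lit 57931) (nat_lit 282) (.e (nat_lit 163869) (nat_lit 2) (.e (nat_lit 196670) (nat_lit 14) (.e (nat_lit 73754) (nat_lit 8) .nil))))) .nil))) (.nd (nat_lit 5) 
(.lf (nat_lit 17179) (.g (nat_lit 2519) (.e (nat_lit 1169) (nat_lit 87) (.e (nat_lit 57480) (nat_lit 28) (.e (nat_lit 557109) (nat_lit 15) (.e (nat_lit 188452) (nat_lit 23) (.e (nat_lit 204855) (nat_lit 26) (.e (nat_lit 336030) (nat_lit 4) (.e (nat_lit 123185) (nat_lit 264) .nil))))))) (.g (nat_lit 4) .nil .nil))) 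
(.lf (nat_lit 17211) (.g (nat_lit 1594) (.e (nat_lit 1170) (nat_lit 87) (.e (nat_lit 57476) (nat_lit 28) (.e (nat_lit 557107) (nat_lit 15) (.e (nat_lit 188450) (nat_lit 23) (.e (nat_lit 204872) (nat_lit 30) (.e (nat_lit 368662) (nat_lit 18) (.e (nat_lit 5906) (nat_lit 320) .nil))))))) (.g (nat_lit 4) .nil .nil)))))) (.nd (nat_lit 3) (.nd (nat_lit 4) (.nd (nat_lit 5) 
(.lf (nat_lit 17159) (.g (nat_lit 1973) (.e (nat_lit 1169) (nat_lit 87) (.e (nat_lit 57480) (nat_lit 28) (.e (nat_lit 557109) (nat_lit 15) (.e (nat_lit 188434) (nat_lit 20) .nil)))) .nil)) 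
(.lf (nat_lit 17191) (.g (nat_lit 1924) (.e (nat_lit 1169) (nat_lit 87) (.e (nat_lit 57849) (nat_lit 252) (.e (nat_lit 57377) (nat_lit 3) (.e (nat_lit 106240) (nat_lit 10) .nil)))) .nil))) (.nd (nat_lit 5) 
(.lf (nat_lit 17175) (.g (nat_lit 3395) (.e (nat_lit 1169) (nat_lit 87) (.e (nat_lit 57480) (nat_lit 28) (.e (nat_lit 557109) (nat_lit 15) (.e (nat_lit 188450) (nat_lit 23) (.e (nat_lit 204863) (nat_lit 27) (.e (nat_lit 344097) (nat_lit 18) (.e (nat_lit 5905) (nat_lit 320) .nil))))))) (.g (nat_lit 4) .nil .nil))) 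
(.lf (nat_lit 17207) (.g (nat_lit 2198) (.e (nat_lit 1170) (nat_lit 87) (.e (nat_lit 57476) (nat_lit 28) (.e (nat_lit 557107) (nat_lit 15) (.e (nat_lit 188447) (nat_lit 22) (.e (nat_lit 196681) (nat_lit 17) .nil))))) .nil)))) (.nd (nat_lit 4) (.nd (nat_lit 5) 
(.lf (nat_lit 17167) (.g (nat_lit 3989) (.e (nat_lit 1169) (nat_lit 87) (.e (nat_lit 57480) (nat_lit 28) (.e (nat_lit 557109) (nat_lit 15) (.e (nat_lit 188449) (nat_lit 22) (.e (nat_lit 196667) (nat_lit 14) .nil))))) .nil)) 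
(.lf (nat_lit 17199) (.g (nat_lit 2267) (.e (nat_lit 1170) (nat_lit 87) (.e (nat_lit 57464) (nat_lit 23) (.e (nat_lit 516179) (nat_lit 15) (.e (nat_lit 475177) (nat_lit 24) (.e (nat_lit 516171) (nat_lit 13) .nil))))) .nil))) (.nd (nat_lit 5) 
(.lf (nat_lit 17183) (.g (nat_lit 2683) (.e (nat_lit 1169) (nat_lit 87) (.e (nat_lit 57480) (nat_lit 28) (.e (nat_lit 557109) (nat_lit 15) (.e (nat_lit 188452) (nat_lit 23) (.e (nat_lit 204864) (nat_lit 27) .nil))))) .nil)) 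
(.lf (nat_lit 17215) (.g (nat_lit 4190) (.e (nat_lit 1170) (nat_lit 87) (.e (nat_lit 57476) (nat_lit 28) (.e (nat_lit 557108) (nat_lit 15) (.e (nat_lit 188449) (nat_lit 22) (.e (nat_lit 196681) (nat_lit 17) .nil))))) .nil))))))))

noncomputable def tv234 : DT := (.nd (nat_lit 0) (.nd (nat_lit 1) (.nd (nat_lit 2) (.nd (nat_lit 3) (.nd (nat_lit 4) (.nd (nat_lit 5) 
(.lf (nat_lit 17216) (.g (nat_lit 3835) (.e (nat_lit 1170) (nat_lit 87) (.e (nat_lit 57476) (nat_lit 28) (.e (nat_lit 557108) (nat_lit 15) (.e (nat_lit 188452) (nat_lit 23) (.e (nat_lit 204817) (nat_lit 17) (.e (nat_lit 7936) (nat_lit 343) (.e (nat_lit 1183) (nat_lit 87) (.e (nat_lit 57871) (nat_lit 264) .nil)))))))) (.g (nat_lit 4) .nil .nil))) 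
(.lf (nat_lit 17248) (.g (nat_lit 4686) (.e (nat_lit 1170) (nat_lit 87) (.e (nat_lit 57477) (nat_lit 28) (.e (nat_lit 557097) (nat_lit 13) (.e (nat_lit 172115) (nat_lit 10) (.e (nat_lit 434231) (nat_lit 23) (.e (nat_lit 532535) (nat_lit 9) (.e (nat_lit 335992) (nat_lit 1) (.e (nat_lit 57870) (nat_lit 264) .nil)))))))) (.g (nat_lit 8) .nil .nil)))) (.nd (nat_lit 5) 
(.lf (nat_lit 17232) (.g (nat_lit 3221) (.e (nat_lit 1170) (nat_lit 87) (.e (nat_lit 57476) (nat_lit 28) (.e (nat_lit 557108) (nat_lit 15) (.e (nat_lit 188452) (nat_lit 23) (.e (nat_lit 204874) (nat_lit 30) (.e (nat_lit 368662) (nat_lit 18) (.e (nat_lit 5906) (nat_lit 320) .nil))))))) (.g (nat_lit 4) .nil .nil))) 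
(.lf (nat_lit 17264) (.g (nat_lit 2774) (.e (nat_lit 1170) (nat_lit 87) (.e (nat_lit 57477) (nat_lit 28) (.e (nat_lit 557107) (nat_lit 15) (.e (nat_lit 188450) (nat_lit 23) (.e (nat_lit 204855) (nat_lit 26) (.e (nat_lit 335992) (nat_lit 1) (.e (nat_lit 57870) (nat_lit 264) .nil))))))) (.g (nat_lit 7) .nil .nil))))) (.nd (nat_lit 4) (.nd (nat_lit 5) 
(.lf (nat_lit 17224) (.g (nat_lit 3148) (.e (nat_lit 1170) (nat_lit 87) (.e (nat_lit 57476) (nat_lit 28) (.e (nat_lit 557108) (nat_lit 15) (.e (nat_lit 188452) (nat_lit 23) (.e (nat_lit 204862) (nat_lit 27) (.e (nat_lit 344097) (nat_lit 18) (.e (nat_lit 5905) (nat_lit 320) .nil))))))) (.g (nat_lit 5) .nil .nil))) 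
(.lf (nat_lit 17256) (.g (nat_lit 2907) (.e (nat_lit 1170) (nat_lit 87) (.e (nat_lit 57477) (nat_lit 28) (.e (nat_lit 557107) (nat_lit 15) (.e (nat_lit 188447) (nat_lit 22) (.e (nat_lit 196666) (nat_lit 13) (.e (nat_lit 65563) (nat_lit 1) (.e (nat_lit 57871) (nat_lit 264) .nil))))))) (.g (nat_lit 0) .nil .nil)))) (.nd (nat_lit 5) 
(.lf (nat_lit 17240) (.g (nat_lit 3877) (.e (nat_lit 1170) (nat_lit 87) (.e (nat_lit 57477) (nat_lit 28) (.e (nat_lit 557097) (nat_lit 13) (.e (nat_lit 172097) (nat_lit 9) (.e (nat_lit 426140) (nat_lit 3) (.e (nat_lit 204862) (nat_lit 27) (.e (nat_lit 344097) (nat_lit 18) (.e (nat_lit 5905) (nat_lit 320) .nil)))))))) (.g (nat_lit 8) .nil .nil))) 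
(.lf (nat_lit 17272) (.g (nat_lit 2151) (.e (nat_lit 1170) (nat_lit 87) (.e (nat_lit 57477) (nat_lit 28) (.e (nat_lit 557108) (nat_lit 15) (.e (nat_lit 188449) (nat_lit 22) (.e (nat_lit 196666) (nat_lit 13) (.e (nat_lit 65546) (nat_lit 0) (.e (nat_lit 1023) (nat_lit 81) (.e (nat_lit 5907) (nat_lit 320) .nil)))))))) (.g (nat_lit 5) .nil .nil)))))) (.nd (nat_lit 3) (.nd (nat_lit 4) (.nd (nat_lit 5) 
(.lf (nat_lit 17220) (.g (nat_lit 2310) (.e (nat_lit 1170) (nat_lit 87) (.e (nat_lit 57476) (nat_lit 28) (.e (nat_lit 557108) (nat_lit 15) (.e (nat_lit 188452) (nat_lit 23) (.e (nat_lit 204850) (nat_lit 26) (.e (nat_lit 335997) (nat_lit 1) (.e (nat_lit 57871) (nat_lit 264) .nil))))))) (.g (nat_lit 4) .nil .nil))) 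
(.lf (nat_lit 17252) (.g (nat_lit 4406) (.e (nat_lit 1170) (nat_lit 87) (.e (nat_lit 57477) (nat_lit 28) (.e (nat_lit 557097) (nat_lit 13) (.e (nat_lit 172115) (nat_lit 10) (.e (nat_lit 434231) (nat_lit 23) (.e (nat_lit 532544) (nat_lit 10) (.e (nat_lit 344097) (nat_lit 18) (.e (nat_lit 5907) (nat_lit 320) .nil)))))))) (.g (nat_lit 0) .nil .nil)))) (.nd (nat_lit 5) 
(.lf (nat_lit 17236) (.g (nat_lit 3699) (.e (nat_lit 1170) (nat_lit 87) (.e (nat_lit 57477) (nat_lit 28) (.e (nat_lit 557097) (nat_lit 13) (.e (nat_lit 172097) (nat_lit 9) (.e (nat_lit 426125) (nat_lit 2) (.e (nat_lit 196666) (nat_lit 13) (.e (nat_lit 65565) (nat_lit 1) (.e (nat_lit 57873) (nat_lit 264) .nil)))))))) (.g (nat_lit 0) .nil .nil))) 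
(.lf (nat_lit 17268) (.g (nat_lit 3540) (.e (nat_lit 1170) (nat_lit 87) (.e (nat_lit 57477) (nat_lit 28) (.e (nat_lit 557107) (nat_lit 15) (.e (nat_lit 188450) (nat_lit 23) (.e (nat_lit 204863) (nat_lit 27) (.e (nat_lit 344097) (nat_lit 18) (.e (nat_lit 5906) (nat_lit 320) .nil))))))) (.g (nat_lit 7) .nil .nil))))) (.nd (nat_lit 4) (.nd (nat_lit 5) 
(.lf (nat_lit 17228) (.g (nat_lit 2701) (.e (nat_lit 1170) (nat_lit 87) (.e (nat_lit 57476) (nat_lit 28) (.e (nat_lit 557108) (nat_lit 15) (.e (nat_lit 188452) (nat_lit 23) (.e (nat_lit 204872) (nat_lit 30) (.e (nat_lit 368662) (nat_lit 18) (.e (nat_lit 5907) (nat_lit 320) .nil))))))) (.g (nat_lit 4) .nil .nil))) 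
(.lf (nat_lit 17260) (.g (nat_lit 2391) (.e (nat_lit 1170) (nat_lit 87) (.e (nat_lit 57477) (nat_lit 28) (.e (nat_lit 557107) (nat_lit 15) (.e (nat_lit 188450) (nat_lit 23) (.e (nat_lit 204850) (nat_lit 26) (.e (nat_lit 335997) (nat_lit 1) (.e (nat_lit 57871) (nat_lit 264) .nil))))))) (.g (nat_lit 0) .nil .nil)))) (.nd (nat_lit 5) 
(.lf (nat_lit 17244) (.g (nat_lit 3573) (.e (nat_lit 1170) (nat_lit 87) (.e (nat_lit 57477) (nat_lit 28) (.e (nat_lit 557097) (nat_lit 13) (.e (nat_lit 172115) (nat_lit 10) (.e (nat_lit 434231) (nat_lit 23) (.e (nat_lit 532527) (nat_lit 9) (.e (nat_lit 335997) (nat_lit 1) (.e (nat_lit 57871) (nat_lit 264) .nil)))))))) (.g (nat_lit 0) .nil .nil))) 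
(.lf (nat_lit 17276) (.g (nat_lit 3214) (.e (nat_lit 1170) (nat_lit 87) (.e (nat_lit 57477) (nat_lit 28) (.e (nat_lit 557108) (nat_lit 15) (.e (nat_lit 188449) (nat_lit 22) (.e (nat_lit 196666) (nat_lit 13) (.e (nat_lit 65565) (nat_lit 1) (.e (nat_lit 57873) (nat_lit 264) .nil))))))) (.g (nat_lit 0) .nil .nil))))))) (.nd (nat_lit 2) (.nd (nat_lit 3) (.nd (nat_lit 4) (.nd (nat_lit 5) 
(.lf (nat_lit 17218) (.g (nat_lit 2496) (.e (nat_lit 1170) (nat_lit 87) (.e (nat_lit 57476) (nat_lit 28) (.e (nat_lit 557108) (nat_lit 15) (.e (nat_lit 188452) (nat_lit 23) (.e (nat_lit 204821) (nat_lit 17) .nil))))) .nil)) 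
(.lf (nat_lit 17250) (.g (nat_lit 4131) (.e (nat_lit 1170) (nat_lit 87) (.e (nat_lit 57477) (nat_lit 28) (.e (nat_lit 557097) (nat_lit 13) (.e (nat_lit 172115) (nat_lit 10) (.e (nat_lit 434231) (nat_lit 23) (.e (nat_lit 532543) (nat_lit 10) (.e (nat_lit 344097) (nat_lit 18) (.e (nat_lit 5907) (nat_lit 320) .nil)))))))) (.g (nat_lit 0) .nil .nil)))) (.nd (nat_lit 5) 
(.lf (nat_lit 17234) (.g (nat_lit 3498) (.e (nat_lit 1170) (nat_lit 87) (.e (nat_lit 57477) (nat_lit 28) (.e (nat_lit 557097) (nat_lit 13) (.e (nat_lit 172097) (nat_lit 9) (.e (nat_lit 426125) (nat_lit 2) (.e (nat_lit 196666) (nat_lit 13) (.e (nat_lit 65563) (nat_lit 1) (.e (nat_lit 57871) (nat_lit 264) .nil)))))))) (.g (nat_lit 0) .nil .nil))) 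
(.lf (nat_lit 17266) (.g (nat_lit 3260) (.e (nat_lit 1170) (nat_lit 87) (.e (nat_lit 57477) (nat_lit 28) (.e (nat_lit 557107) (nat_lit 15) (.e (nat_lit 188450) (nat_lit 23) (.e (nat_lit 204862) (nat_lit 27) (.e (nat_lit 344097) (nat_lit 18) (.e (nat_lit 5907) (nat_lit 320) .nil))))))) (.g (nat_lit 0) .nil .nil))))) (.nd (nat_lit 4) (.nd (nat_lit 5) 
(.lf (nat_lit 17226) (.g (nat_lit 3264) (.e (nat_lit 1170) (nat_lit 87) (.e (nat_lit 57476) (nat_lit 28) (.e (nat_lit 557108) (nat_lit 15) (.e (nat_lit 188452) (nat_lit 23) (.e (nat_lit 204863) (nat_lit 27) (.e (nat_lit 344097) (nat_lit 18) (.e (nat_lit 5906) (nat_lit 320) .nil))))))) (.g (nat_lit 5) .nil .nil))) 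
(.lf (nat_lit 17258) (.g (nat_lit 3230) (.e (nat_lit 1170) (nat_lit 87) (.e (nat_lit 57477) (nat_lit 28) (.e (nat_lit 557107) (nat_lit 15) (.e (nat_lit 188447) (nat_lit 22) (.e (nat_lit 196666) (nat_lit 13) (.e (nat_lit 65565) (nat_lit 1) (.e (nat_lit 57873) (nat_lit 264) .nil))))))) (.g (nat_lit 0) .nil .nil)))) (.nd (nat_lit 5) 
(.lf (nat_lit 17242) (.g (nat_lit 4077) (.e (nat_lit 1170) (nat_lit 87) (.e (nat_lit 57477) (nat_lit 28) (.e (nat_lit 557097) (nat_lit 13) (.e (nat_lit 172097) (nat_lit 9) (.e (nat_lit 426140) (nat_lit 3) (.e (nat_lit 204863) (nat_lit 27) (.e (nat_lit 344097) (nat_lit 18) (.e (nat_lit 5905) (nat_lit 320) .nil)))))))) (.g (nat_lit 8) .nil .nil))) 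
(.lf (nat_lit 17274) (.g (nat_lit 2910) (.e (nat_lit 1170) (nat_lit 87) (.e (nat_lit 57477) (nat_lit 28) (.e (nat_lit 557108) (nat_lit 15) (.e (nat_lit 188449) (nat_lit 22) (.e (nat_lit 196666) (nat_lit 13) (.e (nat_lit 65563) (nat_lit 1) (.e (nat_lit 57871) (nat_lit 264) .nil))))))) (.g (nat_lit 0) .nil .nil)))))) (.nd (nat_lit 3) (.nd (nat_lit 4) (.nd (nat_lit 5) 
(.lf (nat_lit 17222) (.g (nat_lit 3996) (.e (nat_lit 1170) (nat_lit 87) (.e (nat_lit 57476) (nat_lit 28) (.e (nat_lit 557108) (nat_lit 15) (.e (nat_lit 188452) (nat_lit 23) (.e (nat_lit 204860) (nat_lit 26) (.e (nat_lit 335995) (nat_lit 1) (.e (nat_lit 57872) (nat_lit 264) .nil))))))) (.g (nat_lit 4) .nil .nil))) 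
(.lf (nat_lit 17254) (.g (nat_lit 2165) (.e (nat_lit 1170) (nat_lit 87) (.e (nat_lit 57477) (nat_lit 28) (.e (nat_lit 557107) (nat_lit 15) (.e (nat_lit 188447) (nat_lit 22) (.e (nat_lit 196666) (nat_lit 13) (.e (nat_lit 65546) (nat_lit 0) (.e (nat_lit 1023) (nat_lit 81) (.e (nat_lit 5907) (nat_lit 320) .nil)))))))) (.g (nat_lit 5) .nil .nil)))) (.nd (nat_lit 5) 
(.lf (nat_lit 17238) (.g (nat_lit 3038) (.e (nat_lit 1170) (nat_lit 87) (.e (nat_lit 57477) (nat_lit 28) (.e (nat_lit 557097) (nat_lit 13) (.e (nat_lit 172097) (nat_lit 9) (.e (nat_lit 426140) (nat_lit 3) (.e (nat_lit 204855) (nat_lit 26) (.e (nat_lit 335985) (nat_lit 1) (.e (nat_lit 57871) (nat_lit 264) .nil)))))))) (.g (nat_lit 0) .nil .nil))) 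
(.lf (nat_lit 17270) (.g (nat_lit 2913) (.e (nat_lit 1170) (nat_lit 87) (.e (nat_lit 57477) (nat_lit 28) (.e (nat_lit 557107) (nat_lit 15) (.e (nat_lit 188450) (nat_lit 23) (.e (nat_lit 204873) (nat_lit 30) (.e (nat_lit 368662) (nat_lit 18) (.e (nat_lit 5906) (nat_lit 320) .nil))))))) (.g (nat_lit 7) .nil .nil))))) (.nd (nat_lit 4) (.nd (nat_lit 5) 
(.lf (nat_lit 17230) (.g (nat_lit 3398) (.e (nat_lit 1170) (nat_lit 87) (.e (nat_lit 57476) (nat_lit 28) (.e (nat_lit 557108) (nat_lit 15) (.e (nat_lit 188452) (nat_lit 23) (.e (nat_lit 204873) (nat_lit 30) (.e (nat_lit 368662) (nat_lit 18) (.e (nat_lit 5906) (nat_lit 320) .nil))))))) (.g (nat_lit 5) .nil .nil))) 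
(.lf (nat_lit 17262) (.g (nat_lit 2419) (.e (nat_lit 1170) (nat_lit 87) (.e (nat_lit 57477) (nat_lit 28) (.e (nat_lit 557107) (nat_lit 15) (.e (nat_lit 188450) (nat_lit 23) (.e (nat_lit 204855) (nat_lit 26) (.e (nat_lit 335985) (nat_lit 1) (.e (nat_lit 57871) (nat_lit 264) .nil))))))) (.g (nat_lit 0) .nil .nil)))) (.nd (nat_lit 5) 
(.lf (nat_lit 17246) (.g (nat_lit 3643) (.e (nat_lit 1170) (nat_lit 87) (.e (nat_lit 57477) (nat_lit 28) (.e (nat_lit 557097) (nat_lit 13) (.e (nat_lit 172115) (nat_lit 10) (.e (nat_lit 434231) (nat_lit 23) (.e (nat_lit 532535) (nat_lit 9) (.e (nat_lit 335985) (nat_lit 1) (.e (nat_lit 57871) (nat_lit 264) .nil)))))))) (.g (nat_lit 0) .nil .nil))) 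
(.lf (nat_lit 17278) (.g (nat_lit 4056) (.e (nat_lit 1170) (nat_lit 87) (.e (nat_lit 57477) (nat_lit 28) (.e (nat_lit 557108) (nat_lit 15) (.e (nat_lit 188449) (nat_lit 22) (.e (nat_lit 196680) (nat_lit 17) (.e (nat_lit 131087) (nat_lit 1) (.e (nat_lit 57872) (nat_lit 264) .nil))))))) (.g (nat_lit 4) .nil .nil)))))))) 
(.nd (nat_lit 1) (.nd (nat_lit 2) (.nd (nat_lit 3) (.nd (nat_lit 4) (.nd (nat_lit 5) 
(.lf (nat_lit 17217) (.g (nat_lit 4076) (.e (nat_lit 1170) (nat_lit 87) (.e (nat_lit 57476) (nat_lit 28) (.e (nat_lit 557108) (nat_lit 15) (.e (nat_lit 188452) (nat_lit 23) (.e (nat_lit 204817) (nat_lit 17) (.e (nat_lit 7936) (nat_lit 343) (.e (nat_lit 1183) (nat_lit 87) (.e (nat_lit 57872) (nat_lit 264) .nil)))))))) (.g (nat_lit 5) .nil .nil))) 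
(.lf (nat_lit 17249) (.g (nat_lit 4066) (.e (nat_lit 1170) (nat_lit 87) (.e (nat_lit 57477) (nat_lit 28) (.e (nat_lit 557097) (nat_lit 13) (.e (nat_lit 172115) (nat_lit 10) (.e (nat_lit 434231) (nat_lit 23) (.e (nat_lit 532543) (nat_lit 10) (.e (nat_lit 344097) (nat_lit 18) (.e (nat_lit 5905) (nat_lit 320) .nil)))))))) (.g (nat_lit 8) .nil .nil)))) (.nd (nat_lit 5) 
(.lf (nat_lit 17233) (.g (nat_lit 1380) (.e (nat_lit 1170) (nat_lit 87) (.e (nat_lit 57476) (nat_lit 28) (.e (nat_lit 557108) (nat_lit 15) (.e (nat_lit 188458) (nat_lit 25) .nil)))) .nil)) 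
(.lf (nat_lit 17265) (.g (nat_lit 3181) (.e (nat_lit 1170) (nat_lit 87) (.e (nat_lit 57477) (nat_lit 28) (.e (nat_lit 557107) (nat_lit 15) (.e (nat_lit 188450) (nat_lit 23) (.e (nat_lit 204862) (nat_lit 27) (.e (nat_lit 344097) (nat_lit 18) (.e (nat_lit 5905) (nat_lit 320) .nil))))))) (.g (nat_lit 7) .nil .nil))))) (.nd (nat_lit 4) (.nd (nat_lit 5) 
(.lf (nat_lit 17225) (.g (nat_lit 2948) (.e (nat_lit 1170) (nat_lit 87) (.e (nat_lit 57476) (nat_lit 28) (.e (nat_lit 557108) (nat_lit 15) (.e (nat_lit 188452) (nat_lit 23) (.e (nat_lit 204862) (nat_lit 27) (.e (nat_lit 344097) (nat_lit 18) (.e (nat_lit 5906) (nat_lit 320) .nil))))))) (.g (nat_lit 5) .nil .nil))) 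
(.lf (nat_lit 17257) (.g (nat_lit 2900) (.e (nat_lit 1170) (nat_lit 87) (.e (nat_lit 57477) (nat_lit 28) (.e (nat_lit 557107) (nat_lit 15) (.e (nat_lit 188447) (nat_lit 22) (.e (nat_lit 196666) (nat_lit 13) (.e (nat_lit 65565) (nat_lit 1) (.e (nat_lit 57871) (nat_lit 264) .nil))))))) (.g (nat_lit 0) .nil .nil)))) (.nd (nat_lit 5) 
(.lf (nat_lit 17241) (.g (nat_lit 3948) (.e (nat_lit 1170) (nat_lit 87) (.e (nat_lit 57477) (nat_lit 28) (.e (nat_lit 557097) (nat_lit 13) (.e (nat_lit 172097) (nat_lit 9) (.e (nat_lit 426140) (nat_lit 3) (.e (nat_lit 204862) (nat_lit 27) (.e (nat_lit 344097) (nat_lit 18) (.e (nat_lit 5907) (nat_lit 320) .nil)))))))) (.g (nat_lit 0) .nil .nil))) 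
(.lf (nat_lit 17273) (.g (nat_lit 2734) (.e (nat_lit 1170) (nat_lit 87) (.e (nat_lit 57477) (nat_lit 28) (.e (nat_lit 557108) (nat_lit 15) (.e (nat_lit 188449) (nat_lit 22) (.e (nat_lit 196666) (nat_lit 13) (.e (nat_lit 65550) (nat_lit 0) (.e (nat_lit 1023) (nat_lit 81) (.e (nat_lit 5907) (nat_lit 320) .nil)))))))) (.g (nat_lit 5) .nil .nil)))))) (.nd (nat_lit 3) (.nd (nat_lit 4) (.nd (nat_lit 5) 
(.lf (nat_lit 17221) (.g (nat_lit 2721) (.e (nat_lit 1170) (nat_lit 87) (.e (nat_lit 57476) (nat_lit 28) (.e (nat_lit 557108) (nat_lit 15) (.e (nat_lit 188452) (nat_lit 23) (.e (nat_lit 204856) (nat_lit 26) .nil))))) .nil)) 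
(.lf (nat_lit 17253) (.g (nat_lit 4117) (.e (nat_lit 1170) (nat_lit 87) (.e (nat_lit 57477) (nat_lit 28) (.e (nat_lit 557097) (nat_lit 13) (.e (nat_lit 172115) (nat_lit 10) (.e (nat_lit 434231) (nat_lit 23) (.e (nat_lit 532554) (nat_lit 13) (.e (nat_lit 368662) (nat_lit 18) (.e (nat_lit 5907) (nat_lit 320) .nil)))))))) (.g (nat_lit 8) .nil .nil)))) (.nd (nat_lit 5) 
(.lf (nat_lit 17237) (.g (nat_lit 3053) (.e (nat_lit 1170) (nat_lit 87) (.e (nat_lit 57477) (nat_lit 28) (.e (nat_lit 557097) (nat_lit 13) (.e (nat_lit 172097) (nat_lit 9) (.e (nat_lit 426140) (nat_lit 3) (.e (nat_lit 204850) (nat_lit 26) (.e (nat_lit 335997) (nat_lit 1) (.e (nat_lit 57871) (nat_lit 264) .nil)))))))) (.g (nat_lit 0) .nil .nil))) 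
(.lf (nat_lit 17269) (.g (nat_lit 3762) (.e (nat_lit 1170) (nat_lit 87) (.e (nat_lit 57477) (nat_lit 28) (.e (nat_lit 557107) (nat_lit 15) (.e (nat_lit 188450) (nat_lit 23) (.e (nat_lit 204863) (nat_lit 27) (.e (nat_lit 344097) (nat_lit 18) (.e (nat_lit 5907) (nat_lit 320) .nil))))))) (.g (nat_lit 7) .nil .nil))))) (.nd (nat_lit 4) (.nd (nat_lit 5) 
(.lf (nat_lit 17229) (.g (nat_lit 2902) (.e (nat_lit 1170) (nat_lit 87) (.e (nat_lit 57476) (nat_lit 28) (.e (nat_lit 557108) (nat_lit 15) (.e (nat_lit 188452) (nat_lit 23) (.e (nat_lit 204873) (nat_lit 30) .nil))))) .nil)) 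
(.lf (nat_lit 17261) (.g (nat_lit 2467) (.e (nat_lit 1170) (nat_lit 87) (.e (nat_lit 57477) (nat_lit 28) (.e (nat_lit 557107) (nat_lit 15) (.e (nat_lit 188450) (nat_lit 23) (.e (nat_lit 204855) (nat_lit 26) (.e (nat_lit 335923) (nat_lit 0) (.e (nat_lit 1023) (nat_lit 81) (.e (nat_lit 5906) (nat_lit 320) .nil)))))))) (.g (nat_lit 5) .nil .nil)))) (.nd (nat_lit 5) 
(.lf (nat_lit 17245) (.g (nat_lit 4069) (.e (nat_lit 1170) (nat_lit 87) (.e (nat_lit 57477) (nat_lit 28) (.e (nat_lit 557097) (nat_lit 13) (.e (nat_lit 172115) (nat_lit 10) (.e (nat_lit 434231) (nat_lit 23) (.e (nat_lit 532535) (nat_lit 9) (.e (nat_lit 335925) (nat_lit 0) (.e (nat_lit 1023) (nat_lit 81) (.e (nat_lit 5905) (nat_lit 320) .nil))))))))) (.g (nat_lit 6) .nil .nil))) 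
(.lf (nat_lit 17277) (.g (nat_lit 3995) (.e (nat_lit 1170) (nat_lit 87) (.e (nat_lit 57477) (nat_lit 28) (.e (nat_lit 557108) (nat_lit 15) (.e (nat_lit 188449) (nat_lit 22) (.e (nat_lit 196667) (nat_lit 14) .nil))))) .nil)))))) (.nd (nat_lit 2) (.nd (nat_lit 3) (.nd (nat_lit 4) (.nd (nat_lit 5) 
(.lf (nat_lit 17219) (.g (nat_lit 2318) (.e (nat_lit 1170) (nat_lit 87) (.e (nat_lit 57476) (nat_lit 28) (.e (nat_lit 557108) (nat_lit 15) (.e (nat_lit 188452) (nat_lit 23) (.e (nat_lit 204850) (nat_lit 26) (.e (nat_lit 335997) (nat_lit 1) (.e (nat_lit 57870) (nat_lit 264) .nil))))))) (.g (nat_lit 4) .nil .nil))) 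
(.lf (nat_lit 17251) (.g (nat_lit 4306) (.e (nat_lit 1170) (nat_lit 87) (.e (nat_lit 57477) (nat_lit 28) (.e (nat_lit 557097) (nat_lit 13) (.e (nat_lit 172115) (nat_lit 10) (.e (nat_lit 434231) (nat_lit 23) (.e (nat_lit 532544) (nat_lit 10) (.e (nat_lit 344097) (nat_lit 18) (.e (nat_lit 5905) (nat_lit 320) .nil)))))))) (.g (nat_lit 8) .nil .nil)))) (.nd (nat_lit 5) 
(.lf (nat_lit 17235) (.g (nat_lit 3379) (.e (nat_lit 1170) (nat_lit 87) (.e (nat_lit 57477) (nat_lit 28) (.e (nat_lit 557097) (nat_lit 13) (.e (nat_lit 172097) (nat_lit 9) (.e (nat_lit 426125) (nat_lit 2) (.e (nat_lit 196666) (nat_lit 13) (.e (nat_lit 65565) (nat_lit 1) (.e (nat_lit 57871) (nat_lit 264) .nil)))))))) (.g (nat_lit 0) .nil .nil))) 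
(.lf (nat_lit 17267) (.g (nat_lit 3712) (.e (nat_lit 1170) (nat_lit 87) (.e (nat_lit 57477) (nat_lit 28) (.e (nat_lit 557107) (nat_lit 15) (.e (nat_lit 188450) (nat_lit 23) (.e (nat_lit 204863) (nat_lit 27) (.e (nat_lit 344097) (nat_lit 18) (.e (nat_lit 5905) (nat_lit 320) .nil))))))) (.g (nat_lit 7) .nil .nil))))) (.nd (nat_lit 4) (.nd (nat_lit 5) 
(.lf (nat_lit 17227) (.g (nat_lit 2717) (.e (nat_lit 1170) (nat_lit 87) (.e (nat_lit 57476) (nat_lit 28) (.e (nat_lit 557108) (nat_lit 15) (.e (nat_lit 188452) (nat_lit 23) (.e (nat_lit 204872) (nat_lit 30) (.e (nat_lit 368662) (nat_lit 18) (.e (nat_lit 5906) (nat_lit 320) .nil))))))) (.g (nat_lit 4) .nil .nil))) 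
(.lf (nat_lit 17259) (.g (nat_lit 2915) (.e (nat_lit 1170) (nat_lit 87) (.e (nat_lit 57477) (nat_lit 28) (.e (nat_lit 557107) (nat_lit 15) (.e (nat_lit 188447) (nat_lit 22) (.e (nat_lit 196681) (nat_lit 17) (.e (nat_lit 131086) (nat_lit 1) (.e (nat_lit 57872) (nat_lit 264) .nil))))))) (.g (nat_lit 5) .nil .nil)))) (.nd (nat_lit 5) 
(.lf (nat_lit 17243) (.g (nat_lit 4116) (.e (nat_lit 1170) (nat_lit 87) (.e (nat_lit 57477) (nat_lit 28) (.e (nat_lit 557097) (nat_lit 13) (.e (nat_lit 172097) (nat_lit 9) (.e (nat_lit 426140) (nat_lit 3) (.e (nat_lit 204863) (nat_lit 27) (.e (nat_lit 344097) (nat_lit 18) (.e (nat_lit 5907) (nat_lit 320) .nil)))))))) (.g (nat_lit 0) .nil .nil))) 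
(.lf (nat_lit 17275) (.g (nat_lit 2887) (.e (nat_lit 1170) (nat_lit 87) (.e (nat_lit 57477) (nat_lit 28) (.e (nat_lit 557108) (nat_lit 15) (.e (nat_lit 188449) (nat_lit 22) (.e (nat_lit 196666) (nat_lit 13) (.e (nat_lit 65565) (nat_lit 1) (.e (nat_lit 57871) (nat_lit 264) .nil))))))) (.g (nat_lit 0) .nil .nil)))))) (.nd (nat_lit 3) (.nd (nat_lit 4) (.nd (nat_lit 5) 
(.lf (nat_lit 17223) (.g (nat_lit 3947) (.e (nat_lit 1170) (nat_lit 87) (.e (nat_lit 57476) (nat_lit 28) (.e (nat_lit 557108) (nat_lit 15) (.e (nat_lit 188452) (nat_lit 23) (.e (nat_lit 204861) (nat_lit 26) .nil))))) .nil)) 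
(.lf (nat_lit 17255) (.g (nat_lit 2592) (.e (nat_lit 1170) (nat_lit 87) (.e (nat_lit 57477) (nat_lit 28) (.e (nat_lit 557107) (nat_lit 15) (.e (nat_lit 188447) (nat_lit 22) (.e (nat_lit 196666) (nat_lit 13) (.e (nat_lit 65550) (nat_lit 0) (.e (nat_lit 1023) (nat_lit 81) (.e (nat_lit 5907) (nat_lit 320) .nil)))))))) (.g (nat_lit 5) .nil .nil)))) (.nd (nat_lit 5) 
(.lf (nat_lit 17239) (.g (nat_lit 3357) (.e (nat_lit 1170) (nat_lit 87) (.e (nat_lit 57477) (nat_lit 28) (.e (nat_lit 557097) (nat_lit 13) (.e (nat_lit 172097) (nat_lit 9) (.e (nat_lit 426140) (nat_lit 3) (.e (nat_lit 204855) (nat_lit 26) (.e (nat_lit 335985) (nat_lit 1) (.e (nat_lit 57873) (nat_lit 264) .nil)))))))) (.g (nat_lit 0) .nil .nil))) 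
(.lf (nat_lit 17271) (.g (nat_lit 2725) (.e (nat_lit 1170) (nat_lit 87) (.e (nat_lit 57477) (nat_lit 28) (.e (nat_lit 557107) (nat_lit 15) (.e (nat_lit 188450) (nat_lit 23) (.e (nat_lit 204873) (nat_lit 30) (.e (nat_lit 368662) (nat_lit 18) (.e (nat_lit 5907) (nat_lit 320) .nil))))))) (.g (nat_lit 0) .nil .nil))))) (.nd (nat_lit 4) (.nd (nat_lit 5) 
(.lf (nat_lit 17231) (.g (nat_lit 3159) (.e (nat_lit 1170) (nat_lit 87) (.e (nat_lit 57476) (nat_lit 28) (.e (nat_lit 557108) (nat_lit 15) (.e (nat_lit 188452) (nat_lit 23) (.e (nat_lit 204874) (nat_lit 30) .nil))))) .nil)) 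
(.lf (nat_lit 17263) (.g (nat_lit 2747) (.e (nat_lit 1170) (nat_lit 87) (.e (nat_lit 57477) (nat_lit 28) (.e (nat_lit 557107) (nat_lit 15) (.e (nat_lit 188450) (nat_lit 23) (.e (nat_lit 204855) (nat_lit 26) (.e (nat_lit 335985) (nat_lit 1) (.e (nat_lit 57873) (nat_lit 264) .nil))))))) (.g (nat_lit 0) .nil .nil)))) (.nd (nat_lit 5) 
(.lf (nat_lit 17247) (.g (nat_lit 3938) (.e (nat_lit 1170) (nat_lit 87) (.e (nat_lit 57477) (nat_lit 28) (.e (nat_lit 557097) (nat_lit 13) (.e (nat_lit 172115) (nat_lit 10) (.e (nat_lit 434231) (nat_lit 23) (.e (nat_lit 532535) (nat_lit 9) (.e (nat_lit 335985) (nat_lit 1) (.e (nat_lit 57873) (nat_lit 264) .nil)))))))) (.g (nat_lit 0) .nil .nil))) 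
(.lf (nat_lit 17279) (.g (nat_lit 4851) (.e (nat_lit 1170) (nat_lit 87) (.e (nat_lit 57477) (nat_lit 28) (.e (nat_lit 557108) (nat_lit 15) (.e (nat_lit 188449) (nat_lit 22) (.e (nat_lit 196681) (nat_lit 17) (.e (nat_lit 131088) (nat_lit 1) (.e (nat_lit 57873) (nat_lit 264) .nil))))))) (.g (nat_lit 5) .nil .nil)))))))))

noncomputable def tv235 : DT := (.nd (nat_lit 0) (.nd (nat_lit 1) (.nd (nat_lit 2) (.nd (nat_lit 3) (.nd (nat_lit 4) (.nd (nat_lit 5) 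
(.lf (nat_lit 17280) (.g (nat_lit 5100) (.e (nat_lit 1170) (nat_lit 87) (.e (nat_lit 57477) (nat_lit 28) (.e (nat_lit 557108) (nat_lit 15) (.e (nat_lit 188449) (nat_lit 22) (.e (nat_lit 196681) (nat_lit 17) (.e (nat_lit 131089) (nat_lit 1) (.e (nat_lit 57870) (nat_lit 264) .nil))))))) (.g (nat_lit 6) .nil .nil))) 
(.lf (nat_lit 17312) (.g (nat_lit 2575) (.e (nat_lit 1170) (nat_lit 87) (.e (nat_lit 57479) (nat_lit 28) (.e (nat_lit 557095) (nat_lit 13) (.e (nat_lit 172115) (nat_lit 10) (.e (nat_lit 434231) (nat_lit 23) (.e (nat_lit 532527) (nat_lit 9) (.e (nat_lit 335997) (nat_lit 1) (.e (nat_lit 57870) (nat_lit 264) .nil)))))))) (.g (nat_lit 4) .nil .nil)))) (.nd (nat_lit 5) 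
(.lf (nat_lit 17296) (.g (nat_lit 3234) (.e (nat_lit 1170) (nat_lit 87) (.e (nat_lit 57477) (nat_lit 28) (.e (nat_lit 557108) (nat_lit 15) (.e (nat_lit 188452) (nat_lit 23) (.e (nat_lit 204872) (nat_lit 30) (.e (nat_lit 368662) (nat_lit 18) (.e (nat_lit 5907) (nat_lit 320) .nil))))))) (.g (nat_lit 0) .nil .nil))) 
(.lf (nat_lit 17328) (.g (nat_lit 2003) (.e (nat_lit 1170) (nat_lit 87) (.e (nat_lit 57479) (nat_lit 28) (.e (nat_lit 557100) (nat_lit 13) (.e (nat_lit 172106) (nat_lit 10) (.e (nat_lit 434231) (nat_lit 23) (.e (nat_lit 532543) (nat_lit 10) (.e (nat_lit 344100) (nat_lit 18) (.e (nat_lit 5907) (nat_lit 320) .nil)))))))) (.g (nat_lit 4) .nil .nil))))) (.nd (nat_lit 4) (.nd (nat_lit 5) 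
(.lf (nat_lit 17288) (.g (nat_lit 3433) (.e (nat_lit 1170) (nat_lit 87) (.e (nat_lit 57477) (nat_lit 28) (.e (nat_lit 557108) (nat_lit 15) (.e (nat_lit 188452) (nat_lit 23) (.e (nat_lit 204861) (nat_lit 26) .nil))))) .nil)) 
(.lf (nat_lit 17320) (.g (nat_lit 3195) (.e (nat_lit 1170) (nat_lit 87) (.e (nat_lit 57479) (nat_lit 28) (.e (nat_lit 557095) (nat_lit 13) (.e (nat_lit 172115) (nat_lit 10) (.e (nat_lit 434231) (nat_lit 23) (.e (nat_lit 532554) (nat_lit 13) (.e (nat_lit 368662) (nat_lit 18) (.e (nat_lit 5906) (nat_lit 320) .nil)))))))) (.g (nat_lit 5) .nil .nil)))) (.nd (nat_lit 5) 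
(.lf (nat_lit 17304) (.g (nat_lit 2221) (.e (nat_lit 1170) (nat_lit 87) (.e (nat_lit 57478) (nat_lit 28) (.e (nat_lit 557109) (nat_lit 15) (.e (nat_lit 188450) (nat_lit 23) .nil)))) .nil)) 
(.lf (nat_lit 17336) (.g (nat_lit 2040) (.e (nat_lit 1170) (nat_lit 87) (.e (nat_lit 57479) (nat_lit 28) (.e (nat_lit 557101) (nat_lit 13) (.e (nat_lit 172097) (nat_lit 9) (.e (nat_lit 426140) (nat_lit 3) (.e (nat_lit 204855) (nat_lit 26) (.e (nat_lit 335901) (nat_lit 0) (.e (nat_lit 1095) (nat_lit 81) (.e (nat_lit 5902) (nat_lit 320) .nil))))))))) (.g (nat_lit 4) .nil .nil)))))) 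
(.nd (nat_lit 3) (.nd (nat_lit 4) (.nd (nat_lit 5) 
(.lf (nat_lit 17284) (.g (nat_lit 3114) (.e (nat_lit 1170) (nat_lit 87) (.e (nat_lit 57477) (nat_lit 28) (.e (nat_lit 557108) (nat_lit 15) (.e (nat_lit 188452) (nat_lit 23) (.e (nat_lit 204850) (nat_lit 26) (.e (nat_lit 335997) (nat_lit 1) (.e (nat_lit 57872) (nat_lit 264) .nil))))))) (.g (nat_lit 0) .nil .nil))) 
(.lf (nat_lit 17316) (.g (nat_lit 2638) (.e (nat_lit 1170) (nat_lit 87) (.e (nat_lit 57479) (nat_lit 28) (.e (nat_lit 557095) (nat_lit 13) (.e (nat_lit 172115) (nat_lit 10) (.e (nat_lit 434231) (nat_lit 23) (.e (nat_lit 532535) (nat_lit 9) (.e (nat_lit 335985) (nat_lit 1) (.e (nat_lit 57872) (nat_lit 264) .nil)))))))) (.g (nat_lit 4) .nil .nil)))) (.nd (nat_lit 5) 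
(.lf (nat_lit 17300) (.g (nat_lit 3344) (.e (nat_lit 1170) (nat_lit 87) (.e (nat_lit 57478) (nat_lit 28) (.e (nat_lit 557108) (nat_lit 15) (.e (nat_lit 188452) (nat_lit 23) (.e (nat_lit 204872) (nat_lit 30) .nil))))) .nil)) 
(.lf (nat_lit 17332) (.g (nat_lit 4314) (.e (nat_lit 1170) (nat_lit 87) (.e (nat_lit 57479) (nat_lit 28) (.e (nat_lit 557101) (nat_lit 13) (.e (nat_lit 172097) (nat_lit 9) (.e (nat_lit 426125) (nat_lit 2) (.e (nat_lit 196666) (nat_lit 13) (.e (nat_lit 65563) (nat_lit 1) (.e (nat_lit 57871) (nat_lit 264) .nil)))))))) (.g (nat_lit 0) .nil .nil))))) (.nd (nat_lit 4) (.nd (nat_lit 5) 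
(.lf (nat_lit 17292) (.g (nat_lit 3859) (.e (nat_lit 1170) (nat_lit 87) (.e (nat_lit 57477) (nat_lit 28) (.e (nat_lit 557108) (nat_lit 15) (.e (nat_lit 188452) (nat_lit 23) (.e (nat_lit 204862) (nat_lit 27) (.e (nat_lit 344097) (nat_lit 18) (.e (nat_lit 5907) (nat_lit 320) .nil))))))) (.g (nat_lit 0) .nil .nil))) 
(.lf (nat_lit 17324) (.g (nat_lit 3275) (.e (nat_lit 1170) (nat_lit 87) (.e (nat_lit 57479) (nat_lit 28) (.e (nat_lit 557100) (nat_lit 13) (.e (nat_lit 172106) (nat_lit 10) (.e (nat_lit 434231) (nat_lit 23) (.e (nat_lit 532535) (nat_lit 9) (.e (nat_lit 335992) (nat_lit 1) (.e (nat_lit 57872) (nat_lit 264) .nil)))))))) (.g (nat_lit 5) .nil .nil)))) (.nd (nat_lit 5) 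
(.lf (nat_lit 17308) (.g (nat_lit 2056) (.e (nat_lit 1170) (nat_lit 87) (.e (nat_lit 57479) (nat_lit 28) (.e (nat_lit 557095) (nat_lit 13) (.e (nat_lit 172097) (nat_lit 9) .nil)))) .nil)) 
(.lf (nat_lit 17340) (.g (nat_lit 4170) (.e (nat_lit 1170) (nat_lit 87) (.e (nat_lit 57479) (nat_lit 28) (.e (nat_lit 557101) (nat_lit 13) (.e (nat_lit 172097) (nat_lit 9) (.e (nat_lit 426140) (nat_lit 3) (.e (nat_lit 204855) (nat_lit 26) (.e (nat_lit 335985) (nat_lit 1) (.e (nat_lit 57873) (nat_lit 264) .nil)))))))) (.g (nat_lit 0) .nil .nil))))))) 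
(.nd (nat_lit 2) (.nd (nat_lit 3) (.nd (nat_lit 4) (.nd (nat_lit 5) 
(.lf (nat_lit 17282) (.g (nat_lit 2040) (.e (nat_lit 1170) (nat_lit 87) (.e (nat_lit 57477) (nat_lit 28) (.e (nat_lit 557108) (nat_lit 15) (.e (nat_lit 188452) (nat_lit 23) (.e (nat_lit 204821) (nat_lit 17) .nil))))) .nil)) 
(.lf (nat_lit 17314) (.g (nat_lit 2567) (.e (nat_lit 1170) (nat_lit 87) (.e (nat_lit 57479) (nat_lit 28) (.e (nat_lit 557095) (nat_lit 13) (.e (nat_lit 172115) (nat_lit 10) (.e (nat_lit 434231) (nat_lit 23) (.e (nat_lit 532535) (nat_lit 9) (.e (nat_lit 335985) (nat_lit 1) (.e (nat_lit 57870) (nat_lit 264) .nil)))))))) (.g (nat_lit 4) .nil .nil)))) (.nd (nat_lit 5) 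
(.lf (nat_lit 17298) (.g (nat_lit 1376) (.e (nat_lit 1170) (nat_lit 87) (.e (nat_lit 57478) (nat_lit 28) (.e (nat_lit 557107) (nat_lit 15) (.e (nat_lit 188447) (nat_lit 22) .nil)))) .nil)) 
(.lf (nat_lit 17330) (.g (nat_lit 2873) (.e (nat_lit 1170) (nat_lit 87) (.e (nat_lit 57479) (nat_lit 28) (.e (nat_lit 557100) (nat_lit 13) (.e (nat_lit 172113) (nat_lit 10) .nil)))) .nil)))) (.nd (nat_lit 4) (.nd (nat_lit 5) 
(.lf (nat_lit 17290) (.g (nat_lit 3787) (.e (nat_lit 1170) (nat_lit 87) (.e (nat_lit 57477) (nat_lit 28) (.e (nat_lit 557108) (nat_lit 15) (.e (nat_lit 188452) (nat_lit 23) (.e (nat_lit 204862) (nat_lit 27) (.e (nat_lit 344097) (nat_lit 18) (.e (nat_lit 5905) (nat_lit 320) .nil))))))) (.g (nat_lit 7) .nil .nil))) 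
(.lf (nat_lit 17322) (.g (nat_lit 3293) (.e (nat_lit 1170) (nat_lit 87) (.e (nat_lit 57479) (nat_lit 28) (.e (nat_lit 557100) (nat_lit 13) (.e (nat_lit 172106) (nat_lit 10) (.e (nat_lit 434231) (nat_lit 23) (.e (nat_lit 532535) (nat_lit 9) (.e (nat_lit 335925) (nat_lit 0) (.e (nat_lit 1023) (nat_lit 81) (.e (nat_lit 5906) (nat_lit 320) .nil))))))))) (.g (nat_lit 5) .nil .nil)))) (.nd (nat_lit 5) 
(.lf (nat_lit 17306) (.g (nat_lit 2545) (.e (nat_lit 1170) (nat_lit 87) (.e (nat_lit 57478) (nat_lit 28) (.e (nat_lit 557109) (nat_lit 15) (.e (nat_lit 188452) (nat_lit 23) (.e (nat_lit 204863) (nat_lit 27) .nil))))) .nil)) 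
(.lf (nat_lit 17338) (.g (nat_lit 2009) (.e (nat_lit 1170) (nat_lit 87) (.e (nat_lit 57479) (nat_lit 28) (.e (nat_lit 557101) (nat_lit 13) (.e (nat_lit 172097) (nat_lit 9) (.e (nat_lit 426140) (nat_lit 3) (.e (nat_lit 204855) (nat_lit 26) (.e (nat_lit 335928) (nat_lit 0) (.e (nat_lit 1023) (nat_lit 81) (.e (nat_lit 5906) (nat_lit 320) .nil))))))))) (.g (nat_lit 4) .nil .nil)))))) 
(.nd (nat_lit 3) (.nd (nat_lit 4) (.nd (nat_lit 5) 
(.lf (nat_lit 17286) (.g (nat_lit 3295) (.e (nat_lit 1170) (nat_lit 87) (.e (nat_lit 57477) (nat_lit 28) (.e (nat_lit 557108) (nat_lit 15) (.e (nat_lit 188452) (nat_lit 23) (.e (nat_lit 204855) (nat_lit 26) (.e (nat_lit 335985) (nat_lit 1) (.e (nat_lit 57873) (nat_lit 264) .nil))))))) (.g (nat_lit 0) .nil .nil))) 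
(.lf (nat_lit 17318) (.g (nat_lit 3029) (.e (nat_lit 1170) (nat_lit 87) (.e (nat_lit 57479) (nat_lit 28) (.e (nat_lit 557095) (nat_lit 13) (.e (nat_lit 172115) (nat_lit 10) (.e (nat_lit 434231) (nat_lit 23) (.e (nat_lit 532544) (nat_lit 10) (.e (nat_lit 344097) (nat_lit 18) (.e (nat_lit 5906) (nat_lit 320) .nil)))))))) (.g (nat_lit 5) .nil .nil)))) (.nd (nat_lit 5) 
(.lf (nat_lit 17302) (.g (nat_lit 3266) (.e (nat_lit 1170) (nat_lit 87) (.e (nat_lit 57478) (nat_lit 28) (.e (nat_lit 557108) (nat_lit 15) (.e (nat_lit 188452) (nat_lit 23) (.e (nat_lit 204874) (nat_lit 30) .nil))))) .nil)) 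
(.lf (nat_lit 17334) (.g (nat_lit 1936) (.e (nat_lit 1170) (nat_lit 87) (.e (nat_lit 57479) (nat_lit 28) (.e (nat_lit 557101) (nat_lit 13) (.e (nat_lit 172097) (nat_lit 9) (.e (nat_lit 426140) (nat_lit 3) .nil))))) .nil)))) (.nd (nat_lit 4) (.nd (nat_lit 5) 
(.lf (nat_lit 17294) (.g (nat_lit 3920) (.e (nat_lit 1170) (nat_lit 87) (.e (nat_lit 57477) (nat_lit 28) (.e (nat_lit 557108) (nat_lit 15) (.e (nat_lit 188452) (nat_lit 23) (.e (nat_lit 204863) (nat_lit 27) (.e (nat_lit 344097) (nat_lit 18) (.e (nat_lit 5906) (nat_lit 320) .nil))))))) (.g (nat_lit 0) .nil .nil))) 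
(.lf (nat_lit 17326) (.g (nat_lit 1930) (.e (nat_lit 1170) (nat_lit 87) (.e (nat_lit 57479) (nat_lit 28) (.e (nat_lit 557100) (nat_lit 13) (.e (nat_lit 172106) (nat_lit 10) (.e (nat_lit 434231) (nat_lit 23) (.e (nat_lit 532535) (nat_lit 9) (.e (nat_lit 343808) (nat_lit 1) (.e (nat_lit 57872) (nat_lit 264) .nil)))))))) (.g (nat_lit 4) .nil .nil)))) (.nd (nat_lit 5) 
(.lf (nat_lit 17310) (.g (nat_lit 1895) (.e (nat_lit 1170) (nat_lit 87) (.e (nat_lit 57479) (nat_lit 28) (.e (nat_lit 557095) (nat_lit 13) (.e (nat_lit 172115) (nat_lit 10) .nil)))) .nil)) 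
(.lf (nat_lit 17342) (.g (nat_lit 2850) (.e (nat_lit 1170) (nat_lit 87) (.e (nat_lit 57479) (nat_lit 28) (.e (nat_lit 557101) (nat_lit 13) (.e (nat_lit 172097) (nat_lit 9) (.e (nat_lit 426140) (nat_lit 3) (.e (nat_lit 204855) (nat_lit 26) (.e (nat_lit 335992) (nat_lit 1) (.e (nat_lit 57873) (nat_lit 264) .nil)))))))) (.g (nat_lit 5) .nil .nil)))))))) 
(.nd (nat_lit 1) (.nd (nat_lit 2) (.nd (nat_lit 3) (.nd (nat_lit 4) (.nd (nat_lit 5) 
(.lf (nat_lit 17281) (.g (nat_lit 3252) (.e (nat_lit 1170) (nat_lit 87) (.e (nat_lit 57477) (nat_lit 28) (.e (nat_lit 557108) (nat_lit 15) (.e (nat_lit 188452) (nat_lit 23) (.e (nat_lit 204817) (nat_lit 17) .nil))))) .nil)) 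
(.lf (nat_lit 17313) (.g (nat_lit 2593) (.e (nat_lit 1170) (nat_lit 87) (.e (nat_lit 57479) (nat_lit 28) (.e (nat_lit 557095) (nat_lit 13) (.e (nat_lit 172115) (nat_lit 10) (.e (nat_lit 434231) (nat_lit 23) (.e (nat_lit 532527) (nat_lit 9) (.e (nat_lit 335997) (nat_lit 1) (.e (nat_lit 57871) (nat_lit 264) .nil)))))))) (.g (nat_lit 4) .nil .nil)))) (.nd (nat_lit 5) 
(.lf (nat_lit 17297) (.g (nat_lit 1406) (.e (nat_lit 1170) (nat_lit 87) (.e (nat_lit 57477) (nat_lit 28) (.e (nat_lit 557108) (nat_lit 15) (.e (nat_lit 188458) (nat_lit 25) (.e (nat_lit 245784) (nat_lit 9) .nil))))) .nil)) 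
(.lf (nat_lit 17329) (.g (nat_lit 1928) (.e (nat_lit 1170) (nat_lit 87) (.e (nat_lit 57479) (nat_lit 28) (.e (nat_lit 557100) (nat_lit 13) (.e (nat_lit 172106) (nat_lit 10) (.e (nat_lit 434231) (nat_lit 23) (.e (nat_lit 532554) (nat_lit 13) (.e (nat_lit 368662) (nat_lit 18) (.e (nat_lit 5902) (nat_lit 320) .nil)))))))) (.g (nat_lit 4) .nil .nil))))) (.nd (nat_lit 4) (.nd (nat_lit 5) 
(.lf (nat_lit 17289) (.g (nat_lit 1918) (.e (nat_lit 1170) (nat_lit 87) (.e (nat_lit 57477) (nat_lit 28) (.e (nat_lit 557108) (nat_lit 15) (.e (nat_lit 188452) (nat_lit 23) (.e (nat_lit 212736) (nat_lit 26) (.e (nat_lit 335995) (nat_lit 1) (.e (nat_lit 57872) (nat_lit 264) .nil))))))) (.g (nat_lit 4) .nil .nil))) 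
(.lf (nat_lit 17321) (.g (nat_lit 3617) (.e (nat_lit 1170) (nat_lit 87) (.e (nat_lit 57479) (nat_lit 28) (.e (nat_lit 557100) (nat_lit 13) (.e (nat_lit 172106) (nat_lit 10) (.e (nat_lit 434231) (nat_lit 23) (.e (nat_lit 532529) (nat_lit 9) (.e (nat_lit 343808) (nat_lit 1) (.e (nat_lit 57873) (nat_lit 264) .nil)))))))) (.g (nat_lit 6) .nil .nil)))) (.nd (nat_lit 5) 
(.lf (nat_lit 17305) (.g (nat_lit 3439) (.e (nat_lit 1170) (nat_lit 87) (.e (nat_lit 57478) (nat_lit 28) (.e (nat_lit 557109) (nat_lit 15) (.e (nat_lit 188452) (nat_lit 23) (.e (nat_lit 204859) (nat_lit 26) .nil))))) .nil)) 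
(.lf (nat_lit 17337) (.g (nat_lit 2080) (.e (nat_lit 1170) (nat_lit 87) (.e (nat_lit 57479) (nat_lit 28) (.e (nat_lit 557101) (nat_lit 13) (.e (nat_lit 172097) (nat_lit 9) (.e (nat_lit 426140) (nat_lit 3) (.e (nat_lit 204855) (nat_lit 26) (.e (nat_lit 335921) (nat_lit 0) (.e (nat_lit 1023) (nat_lit 81) (.e (nat_lit 5905) (nat_lit 320) .nil))))))))) (.g (nat_lit 4) .nil .nil)))))) 
(.nd (nat_lit 3) (.nd (nat_lit 4) (.nd (nat_lit 5) 
(.lf (nat_lit 17285) (.g (nat_lit 2967) (.e (nat_lit 1170) (nat_lit 87) (.e (nat_lit 57477) (nat_lit 28) (.e (nat_lit 557108) (nat_lit 15) (.e (nat_lit 188452) (nat_lit 23) (.e (nat_lit 204855) (nat_lit 26) (.e (nat_lit 335985) (nat_lit 1) (.e (nat_lit 57871) (nat_lit 264) .nil))))))) (.g (nat_lit 0) .nil .nil))) 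
(.lf (nat_lit 17317) (.g (nat_lit 3202) (.e (nat_lit 1170) (nat_lit 87) (.e (nat_lit 57479) (nat_lit 28) (.e (nat_lit 557095) (nat_lit 13) (.e (nat_lit 172115) (nat_lit 10) (.e (nat_lit 434231) (nat_lit 23) (.e (nat_lit 532544) (nat_lit 10) (.e (nat_lit 344097) (nat_lit 18) (.e (nat_lit 5905) (nat_lit 320) .nil)))))))) (.g (nat_lit 5) .nil .nil)))) (.nd (nat_lit 5) 
(.lf (nat_lit 17301) (.g (nat_lit 3358) (.e (nat_lit 1170) (nat_lit 87) (.e (nat_lit 57478) (nat_lit 28) (.e (nat_lit 557108) (nat_lit 15) (.e (nat_lit 188452) (nat_lit 23) (.e (nat_lit 204873) (nat_lit 30) .nil))))) .nil)) 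
(.lf (nat_lit 17333) (.g (nat_lit 4188) (.e (nat_lit 1170) (nat_lit 87) (.e (nat_lit 57479) (nat_lit 28) (.e (nat_lit 557101) (nat_lit 13) (.e (nat_lit 172097) (nat_lit 9) (.e (nat_lit 426125) (nat_lit 2) (.e (nat_lit 196666) (nat_lit 13) (.e (nat_lit 65565) (nat_lit 1) (.e (nat_lit 57871) (nat_lit 264) .nil)))))))) (.g (nat_lit 0) .nil .nil))))) (.nd (nat_lit 4) (.nd (nat_lit 5) 
(.lf (nat_lit 17293) (.g (nat_lit 4120) (.e (nat_lit 1170) (nat_lit 87) (.e (nat_lit 57477) (nat_lit 28) (.e (nat_lit 557108) (nat_lit 15) (.e (nat_lit 188452) (nat_lit 23) (.e (nat_lit 204863) (nat_lit 27) (.e (nat_lit 344097) (nat_lit 18) (.e (nat_lit 5905) (nat_lit 320) .nil))))))) (.g (nat_lit 7) .nil .nil))) 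
(.lf (nat_lit 17325) (.g (nat_lit 3203) (.e (nat_lit 1170) (nat_lit 87) (.e (nat_lit 57479) (nat_lit 28) (.e (nat_lit 557100) (nat_lit 13) (.e (nat_lit 172106) (nat_lit 10) (.e (nat_lit 434231) (nat_lit 23) (.e (nat_lit 532535) (nat_lit 9) (.e (nat_lit 335992) (nat_lit 1) (.e (nat_lit 57873) (nat_lit 264) .nil)))))))) (.g (nat_lit 5) .nil .nil)))) (.nd (nat_lit 5) 
(.lf (nat_lit 17309) (.g (nat_lit 2511) (.e (nat_lit 1170) (nat_lit 87) (.e (nat_lit 57479) (nat_lit 28) (.e (nat_lit 557095) (nat_lit 13) (.e (nat_lit 172097) (nat_lit 9) (.e (nat_lit 426140) (nat_lit 3) .nil))))) .nil)) 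
(.lf (nat_lit 17341) (.g (nat_lit 1958) (.e (nat_lit 1170) (nat_lit 87) (.e (nat_lit 57479) (nat_lit 28) (.e (nat_lit 557101) (nat_lit 13) (.e (nat_lit 172097) (nat_lit 9) (.e (nat_lit 426140) (nat_lit 3) (.e (nat_lit 204855) (nat_lit 26) (.e (nat_lit 335992) (nat_lit 1) (.e (nat_lit 57871) (nat_lit 264) .nil)))))))) (.g (nat_lit 4) .nil .nil))))))) 
(.nd (nat_lit 2) (.nd (nat_lit 3) (.nd (nat_lit 4) (.nd (nat_lit 5) 
(.lf (nat_lit 17283) (.g (nat_lit 2954) (.e (nat_lit 1170) (nat_lit 87) (.e (nat_lit 57477) (nat_lit 28) (.e (nat_lit 557108) (nat_lit 15) (.e (nat_lit 188452) (nat_lit 23) (.e (nat_lit 204850) (nat_lit 26) (.e (nat_lit 335997) (nat_lit 1) (.e (nat_lit 57871) (nat_lit 264) .nil))))))) (.g (nat_lit 0) .nil .nil))) 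
(.lf (nat_lit 17315) (.g (nat_lit 2538) (.e (nat_lit 1170) (nat_lit 87) (.e (nat_lit 57479) (nat_lit 28) (.e (nat_lit 557095) (nat_lit 13) (.e (nat_lit 172115) (nat_lit 10) (.e (nat_lit 434231) (nat_lit 23) (.e (nat_lit 532535) (nat_lit 9) (.e (nat_lit 335985) (nat_lit 1) (.e (nat_lit 57871) (nat_lit 264) .nil)))))))) (.g (nat_lit 4) .nil .nil)))) (.nd (nat_lit 5) 
(.lf (nat_lit 17299) (.g (nat_lit 1336) (.e (nat_lit 1170) (nat_lit 87) (.e (nat_lit 57478) (nat_lit 28) (.e (nat_lit 557107) (nat_lit 15) (.e (nat_lit 188450) (nat_lit 23) .nil)))) .nil)) 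
(.lf (nat_lit 17331) (.g (nat_lit 3732) (.e (nat_lit 1170) (nat_lit 87) (.e (nat_lit 57479) (nat_lit 28) (.e (nat_lit 557100) (nat_lit 13) (.e (nat_lit 172113) (nat_lit 10) (.e (nat_lit 434245) (nat_lit 28) .nil))))) .nil)))) (.nd (nat_lit 4) (.nd (nat_lit 5) 
(.lf (nat_lit 17291) (.g (nat_lit 3603) (.e (nat_lit 1170) (nat_lit 87) (.e (nat_lit 57477) (nat_lit 28) (.e (nat_lit 557108) (nat_lit 15) (.e (nat_lit 188452) (nat_lit 23) (.e (nat_lit 204862) (nat_lit 27) (.e (nat_lit 344097) (nat_lit 18) (.e (nat_lit 5906) (nat_lit 320) .nil))))))) (.g (nat_lit 0) .nil .nil))) 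
(.lf (nat_lit 17323) (.g (nat_lit 4284) (.e (nat_lit 1170) (nat_lit 87) (.e (nat_lit 57479) (nat_lit 28) (.e (nat_lit 557100) (nat_lit 13) (.e (nat_lit 172106) (nat_lit 10) (.e (nat_lit 434231) (nat_lit 23) (.e (nat_lit 532535) (nat_lit 9) (.e (nat_lit 335992) (nat_lit 1) (.e (nat_lit 57870) (nat_lit 264) .nil)))))))) (.g (nat_lit 6) .nil .nil)))) (.nd (nat_lit 5) 
(.lf (nat_lit 17307) (.g (nat_lit 3375) (.e (nat_lit 1170) (nat_lit 87) (.e (nat_lit 57478) (nat_lit 28) (.e (nat_lit 557109) (nat_lit 15) (.e (nat_lit 188458) (nat_lit 25) (.e (nat_lit 245784) (nat_lit 9) .nil))))) .nil)) 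
(.lf (nat_lit 17339) (.g (nat_lit 3860) (.e (nat_lit 1170) (nat_lit 87) (.e (nat_lit 57479) (nat_lit 28) (.e (nat_lit 557101) (nat_lit 13) (.e (nat_lit 172097) (nat_lit 9) (.e (nat_lit 426140) (nat_lit 3) (.e (nat_lit 204855) (nat_lit 26) (.e (nat_lit 335985) (nat_lit 1) (.e (nat_lit 57871) (nat_lit 264) .nil)))))))) (.g (nat_lit 0) .nil .nil)))))) 
(.nd (nat_lit 3) (.nd (nat_lit 4) (.nd (nat_lit 5) 
(.lf (nat_lit 17287) (.g (nat_lit 3218) (.e (nat_lit 1170) (nat_lit 87) (.e (nat_lit 57477) (nat_lit 28) (.e (nat_lit 557108) (nat_lit 15) (.e (nat_lit 188452) (nat_lit 23) (.e (nat_lit 204855) (nat_lit 26) (.e (nat_lit 335992) (nat_lit 1) (.e (nat_lit 57870) (nat_lit 264) .nil))))))) (.g (nat_lit 7) .nil .nil))) 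
(.lf (nat_lit 17319) (.g (nat_lit 3282) (.e (nat_lit 1170) (nat_lit 87) (.e (nat_lit 57479) (nat_lit 28) (.e (nat_lit 557095) (nat_lit 13) (.e (nat_lit 172115) (nat_lit 10) (.e (nat_lit 434231) (nat_lit 23) (.e (nat_lit 532544) (nat_lit 10) (.e (nat_lit 344097) (nat_lit 18) (.e (nat_lit 5907) (nat_lit 320) .nil)))))))) (.g (nat_lit 5) .nil .nil)))) (.nd (nat_lit 5) 
(.lf (nat_lit 17303) (.g (nat_lit 2404) (.e (nat_lit 1170) (nat_lit 87) (.e (nat_lit 57478) (nat_lit 28) (.e (nat_lit 557109) (nat_lit 15) (.e (nat_lit 188449) (nat_lit 22) (.e (nat_lit 196666) (nat_lit 13) .nil))))) .nil)) 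
(.lf (nat_lit 17335) (.g (nat_lit 3876) (.e (nat_lit 1170) (nat_lit 87) (.e (nat_lit 57479) (nat_lit 28) (.e (nat_lit 557101) (nat_lit 13) (.e (nat_lit 172097) (nat_lit 9) (.e (nat_lit 426140) (nat_lit 3) (.e (nat_lit 204850) (nat_lit 26) (.e (nat_lit 335997) (nat_lit 1) (.e (nat_lit 57871) (nat_lit 264) .nil)))))))) (.g (nat_lit 0) .nil .nil))))) (.nd (nat_lit 4) (.nd (nat_lit 5) 
(.lf (nat_lit 17295) (.g (nat_lit 4164) (.e (nat_lit 1170) (nat_lit 87) (.e (nat_lit 57477) (nat_lit 28) (.e (nat_lit 557108) (nat_lit 15) (.e (nat_lit 188452) (nat_lit 23) (.e (nat_lit 204863) (nat_lit 27) (.e (nat_lit 344097) (nat_lit 18) (.e (nat_lit 5907) (nat_lit 320) .nil))))))) (.g (nat_lit 0) .nil .nil))) 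
(.lf (nat_lit 17327) (.g (nat_lit 1958) (.e (nat_lit 1170) (nat_lit 87) (.e (nat_lit 57479) (nat_lit 28) (.e (nat_lit 557100) (nat_lit 13) (.e (nat_lit 172106) (nat_lit 10) (.e (nat_lit 434231) (nat_lit 23) (.e (nat_lit 532543) (nat_lit 10) (.e (nat_lit 344099) (nat_lit 18) (.e (nat_lit 5905) (nat_lit 320) .nil)))))))) (.g (nat_lit 4) .nil .nil)))) (.nd (nat_lit 5) 
(.lf (nat_lit 17311) (.g (nat_lit 2584) (.e (nat_lit 1170) (nat_lit 87) (.e (nat_lit 57479) (nat_lit 28) (.e (nat_lit 557095) (nat_lit 13) (.e (nat_lit 172115) (nat_lit 10) (.e (nat_lit 434231) (nat_lit 23) (.e (nat_lit 532481) (nat_lit 0) (.e (nat_lit 6481) (nat_lit 343) (.e (nat_lit 1181) (nat_lit 87) (.e (nat_lit 57872) (nat_lit 264) .nil))))))))) (.g (nat_lit 4) .nil .nil))) 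
(.lf (nat_lit 17343) (.g (nat_lit 4702) (.e (nat_lit 1170) (nat_lit 87) (.e (nat_lit 57479) (nat_lit 28) (.e (nat_lit 557101) (nat_lit 13) (.e (nat_lit 172097) (nat_lit 9) (.e (nat_lit 426140) (nat_lit 3) (.e (nat_lit 204862) (nat_lit 27) (.e (nat_lit 344097) (nat_lit 18) (.e (nat_lit 5905) (nat_lit 320) .nil)))))))) (.g (nat_lit 0) .nil .nil)))))))))

noncomputable def tv236 : DT := (.nd (nat_lit 0) (.nd (nat_lit 1) (.nd (nat_lit 2) (.nd (nat_lit 3) (.nd (nat_lit 4) (.nd (nat_lit 5) 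
(.lf (nat_lit 17344) (.g (nat_lit 4754) (.e (nat_lit 1170) (nat_lit 87) (.e (nat_lit 57479) (nat_lit 28) (.e (nat_lit 557101) (nat_lit 13) (.e (nat_lit 172097) (nat_lit 9) (.e (nat_lit 426140) (nat_lit 3) (.e (nat_lit 204862) (nat_lit 27) (.e (nat_lit 344097) (nat_lit 18) (.e (nat_lit 5907) (nat_lit 320) .nil)))))))) (.g (nat_lit 0) .nil .nil))) 
(.lf (nat_lit 17376) (.g (nat_lit 2057) (.e (nat_lit 1170) (nat_lit 87) (.e (nat_lit 57479) (nat_lit 28) (.e (nat_lit 557109) (nat_lit 15) (.e (nat_lit 196352) (nat_lit 18) .nil)))) .nil))) (.nd (nat_lit 5) 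
(.lf (nat_lit 17360) (.g (nat_lit 3559) (.e (nat_lit 1170) (nat_lit 87) (.e (nat_lit 57479) (nat_lit 28) (.e (nat_lit 557101) (nat_lit 13) (.e (nat_lit 172115) (nat_lit 10) (.e (nat_lit 434244) (nat_lit 28) (.e (nat_lit 573450) (nat_lit 9) (.e (nat_lit 452) (nat_lit 33) (.e (nat_lit 434209) (nat_lit 18) (.e (nat_lit 4605) (nat_lit 269) .nil))))))))) (.g (nat_lit 6) .nil .nil))) 
(.lf (nat_lit 17392) (.g (nat_lit 3982) (.e (nat_lit 1170) (nat_lit 87) (.e (nat_lit 57480) (nat_lit 28) (.e (nat_lit 557098) (nat_lit 13) (.e (nat_lit 172097) (nat_lit 9) (.e (nat_lit 426140) (nat_lit 3) (.e (nat_lit 204850) (nat_lit 26) (.e (nat_lit 335997) (nat_lit 1) (.e (nat_lit 57872) (nat_lit 264) .nil)))))))) (.g (nat_lit 0) .nil .nil))))) (.nd (nat_lit 4) (.nd (nat_lit 5) 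
(.lf (nat_lit 17352) (.g (nat_lit 4481) (.e (nat_lit 1170) (nat_lit 87) (.e (nat_lit 57479) (nat_lit 28) (.e (nat_lit 557101) (nat_lit 13) (.e (nat_lit 172115) (nat_lit 10) (.e (nat_lit 434231) (nat_lit 23) (.e (nat_lit 532535) (nat_lit 9) (.e (nat_lit 335985) (nat_lit 1) (.e (nat_lit 57873) (nat_lit 264) .nil)))))))) (.g (nat_lit 0) .nil .nil))) 
(.lf (nat_lit 17384) (.g (nat_lit 5348) (.e (nat_lit 1170) (nat_lit 87) (.e (nat_lit 57479) (nat_lit 28) (.e (nat_lit 557109) (nat_lit 15) (.e (nat_lit 188452) (nat_lit 23) (.e (nat_lit 204874) (nat_lit 30) .nil))))) .nil))) (.nd (nat_lit 5) 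
(.lf (nat_lit 17368) (.g (nat_lit 4345) (.e (nat_lit 1170) (nat_lit 87) (.e (nat_lit 57479) (nat_lit 28) (.e (nat_lit 557105) (nat_lit 14) (.e (nat_lit 180252) (nat_lit 10) (.e (nat_lit 573488) (nat_lit 14) (.e (nat_lit 73747) (nat_lit 3) (.e (nat_lit 516119) (nat_lit 1) (.e (nat_lit 164163) (nat_lit 152) .nil)))))))) (.g (nat_lit 5) .nil .nil))) 
(.lf (nat_lit 17400) (.g (nat_lit 4463) (.e (nat_lit 1170) (nat_lit 87) (.e (nat_lit 57480) (nat_lit 28) (.e (nat_lit 557098) (nat_lit 13) (.e (nat_lit 172097) (nat_lit 9) (.e (nat_lit 426140) (nat_lit 3) (.e (nat_lit 204862) (nat_lit 27) (.e (nat_lit 344097) (nat_lit 18) (.e (nat_lit 5906) (nat_lit 320) .nil)))))))) (.g (nat_lit 0) .nil .nil)))))) 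
(.nd (nat_lit 3) (.nd (nat_lit 4) (.nd (nat_lit 5) 
(.lf (nat_lit 17348) (.g (nat_lit 1926) (.e (nat_lit 1170) (nat_lit 87) (.e (nat_lit 57479) (nat_lit 28) (.e (nat_lit 557101) (nat_lit 13) (.e (nat_lit 172115) (nat_lit 10) (.e (nat_lit 434231) (nat_lit 23) .nil))))) .nil)) 
(.lf (nat_lit 17380) (.g (nat_lit 3997) (.e (nat_lit 1170) (nat_lit 87) (.e (nat_lit 57479) (nat_lit 28) (.e (nat_lit 557109) (nat_lit 15) (.e (nat_lit 188452) (nat_lit 23) (.e (nat_lit 204816) (nat_lit 17) (.e (nat_lit 6479) (nat_lit 343) (.e (nat_lit 1181) (nat_lit 87) (.e (nat_lit 57872) (nat_lit 264) .nil)))))))) (.g (nat_lit 4) .nil .nil)))) (.nd (nat_lit 5) 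
(.lf (nat_lit 17364) (.g (nat_lit 3685) (.e (nat_lit 1170) (nat_lit 87) (.e (nat_lit 57479) (nat_lit 28) (.e (nat_lit 557105) (nat_lit 14) (.e (nat_lit 180252) (nat_lit 10) (.e (nat_lit 573487) (nat_lit 14) (.e (nat_lit 73747) (nat_lit 3) (.e (nat_lit 516117) (nat_lit 1) (.e (nat_lit 164147) (nat_lit 152) .nil)))))))) (.g (nat_lit 5) .nil .nil))) 
(.lf (nat_lit 17396) (.g (nat_lit 3835) (.e (nat_lit 1170) (nat_lit 87) (.e (nat_lit 57480) (nat_lit 28) (.e (nat_lit 557098) (nat_lit 13) (.e (nat_lit 172097) (nat_lit 9) (.e (nat_lit 426140) (nat_lit 3) (.e (nat_lit 204855) (nat_lit 26) (.e (nat_lit 335985) (nat_lit 1) (.e (nat_lit 57871) (nat_lit 264) .nil)))))))) (.g (nat_lit 0) .nil .nil))))) (.nd (nat_lit 4) (.nd (nat_lit 5) 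
(.lf (nat_lit 17356) (.g (nat_lit 4875) (.e (nat_lit 1170) (nat_lit 87) (.e (nat_lit 57479) (nat_lit 28) (.e (nat_lit 557101) (nat_lit 13) (.e (nat_lit 172115) (nat_lit 10) (.e (nat_lit 434231) (nat_lit 23) (.e (nat_lit 532544) (nat_lit 10) (.e (nat_lit 344097) (nat_lit 18) (.e (nat_lit 5905) (nat_lit 320) .nil)))))))) (.g (nat_lit 0) .nil .nil))) 
(.lf (nat_lit 17388) (.g (nat_lit 4183) (.e (nat_lit 1170) (nat_lit 87) (.e (nat_lit 57480) (nat_lit 28) (.e (nat_lit 557098) (nat_lit 13) (.e (nat_lit 172097) (nat_lit 9) (.e (nat_lit 426125) (nat_lit 2) (.e (nat_lit 196666) (nat_lit 13) (.e (nat_lit 65565) (nat_lit 1) (.e (nat_lit 57871) (nat_lit 264) .nil)))))))) (.g (nat_lit 0) .nil .nil)))) (.nd (nat_lit 5) 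
(.lf (nat_lit 17372) (.g (nat_lit 2249) (.e (nat_lit 1170) (nat_lit 87) (.e (nat_lit 57479) (nat_lit 28) (.e (nat_lit 557105) (nat_lit 14) (.e (nat_lit 180252) (nat_lit 10) (.e (nat_lit 573489) (nat_lit 14) (.e (nat_lit 73755) (nat_lit 8) (.e (nat_lit 557090) (nat_lit 12) (.e (nat_lit 171776) (nat_lit 0) (.e (nat_lit 5112) (nat_lit 292) .nil))))))))) (.g (nat_lit 4) .nil .nil))) 
(.lf (nat_lit 17404) (.g (nat_lit 4198) (.e (nat_lit 1170) (nat_lit 87) (.e (nat_lit 57480) (nat_lit 28) (.e (nat_lit 557098) (nat_lit 13) (.e (nat_lit 172115) (nat_lit 10) (.e (nat_lit 434231) (nat_lit 23) (.e (nat_lit 532527) (nat_lit 9) (.e (nat_lit 335997) (nat_lit 1) (.e (nat_lit 57871) (nat_lit 264) .nil)))))))) (.g (nat_lit 0) .nil .nil))))))) 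
(.nd (nat_lit 2) (.nd (nat_lit 3) (.nd (nat_lit 4) (.nd (nat_lit 5) 
(.lf (nat_lit 17346) (.g (nat_lit 4922) (.e (nat_lit 1170) (nat_lit 87) (.e (nat_lit 57479) (nat_lit 28) (.e (nat_lit 557101) (nat_lit 13) (.e (nat_lit 172097) (nat_lit 9) (.e (nat_lit 426140) (nat_lit 3) (.e (nat_lit 204863) (nat_lit 27) (.e (nat_lit 344097) (nat_lit 18) (.e (nat_lit 5907) (nat_lit 320) .nil)))))))) (.g (nat_lit 0) .nil .nil))) 
(.lf (nat_lit 17378) (.g (nat_lit 3608) (.e (nat_lit 1170) (nat_lit 87) (.e (nat_lit 57479) (nat_lit 28) (.e (nat_lit 557109) (nat_lit 15) (.e (nat_lit 188452) (nat_lit 23) (.e (nat_lit 204816) (nat_lit 17) .nil))))) .nil))) (.nd (nat_lit 5) 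
(.lf (nat_lit 17362) (.g (nat_lit 3124) (.e (nat_lit 1170) (nat_lit 87) (.e (nat_lit 57479) (nat_lit 28) (.e (nat_lit 557105) (nat_lit 14) (.e (nat_lit 180252) (nat_lit 10) (.e (nat_lit 573487) (nat_lit 14) .nil))))) .nil)) 
(.lf (nat_lit 17394) (.g (nat_lit 2053) (.e (nat_lit 1170) (nat_lit 87) (.e (nat_lit 57480) (nat_lit 28) (.e (nat_lit 557098) (nat_lit 13) (.e (nat_lit 172097) (nat_lit 9) (.e (nat_lit 426140) (nat_lit 3) (.e (nat_lit 204855) (nat_lit 26) (.e (nat_lit 335921) (nat_lit 0) (.e (nat_lit 1023) (nat_lit 81) (.e (nat_lit 5905) (nat_lit 320) .nil))))))))) (.g (nat_lit 4) .nil .nil))))) 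
(.nd (nat_lit 4) (.nd (nat_lit 5) 
(.lf (nat_lit 17354) (.g (nat_lit 4631) (.e (nat_lit 1170) (nat_lit 87) (.e (nat_lit 57479) (nat_lit 28) (.e (nat_lit 557101) (nat_lit 13) (.e (nat_lit 172115) (nat_lit 10) (.e (nat_lit 434231) (nat_lit 23) (.e (nat_lit 532543) (nat_lit 10) (.e (nat_lit 344097) (nat_lit 18) (.e (nat_lit 5905) (nat_lit 320) .nil)))))))) (.g (nat_lit 0) .nil .nil))) 
(.lf (nat_lit 17386) (.g (nat_lit 2002) (.e (nat_lit 1170) (nat_lit 87) (.e (nat_lit 57480) (nat_lit 28) (.e (nat_lit 557097) (nat_lit 13) (.e (nat_lit 172097) (nat_lit 9) .nil)))) .nil))) (.nd (nat_lit 5) 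
(.lf (nat_lit 17370) (.g (nat_lit 2493) (.e (nat_lit 1170) (nat_lit 87) (.e (nat_lit 57479) (nat_lit 28) (.e (nat_lit 557105) (nat_lit 14) (.e (nat_lit 180252) (nat_lit 10) (.e (nat_lit 573489) (nat_lit 14) (.e (nat_lit 73755) (nat_lit 8) (.e (nat_lit 557090) (nat_lit 12) (.e (nat_lit 163855) (nat_lit 0) (.e (nat_lit 5152) (nat_lit 292) .nil))))))))) (.g (nat_lit 5) .nil .nil))) 
(.lf (nat_lit 17402) (.g (nat_lit 4871) (.e (nat_lit 1170) (nat_lit 87) (.e (nat_lit 57480) (nat_lit 28) (.e (nat_lit 557098) (nat_lit 13) (.e (nat_lit 172097) (nat_lit 9) (.e (nat_lit 426140) (nat_lit 3) (.e (nat_lit 204863) (nat_lit 27) (.e (nat_lit 344097) (nat_lit 18) (.e (nat_lit 5905) (nat_lit 320) .nil)))))))) (.g (nat_lit 0) .nil .nil)))))) 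
(.nd (nat_lit 3) (.nd (nat_lit 4) (.nd (nat_lit 5) 
(.lf (nat_lit 17350) (.g (nat_lit 4624) (.e (nat_lit 1170) (nat_lit 87) (.e (nat_lit 57479) (nat_lit 28) (.e (nat_lit 557101) (nat_lit 13) (.e (nat_lit 172115) (nat_lit 10) (.e (nat_lit 434231) (nat_lit 23) (.e (nat_lit 532535) (nat_lit 9) (.e (nat_lit 335925) (nat_lit 0) (.e (nat_lit 1023) (nat_lit 81) (.e (nat_lit 5905) (nat_lit 320) .nil))))))))) (.g (nat_lit 6) .nil .nil))) 
(.lf (nat_lit 17382) (.g (nat_lit 3910) (.e (nat_lit 1170) (nat_lit 87) (.e (nat_lit 57479) (nat_lit 28) (.e (nat_lit 557109) (nat_lit 15) (.e (nat_lit 188452) (nat_lit 23) (.e (nat_lit 204849) (nat_lit 25) .nil))))) .nil))) (.nd (nat_lit 5) 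
(.lf (nat_lit 17366) (.g (nat_lit 3452) (.e (nat_lit 1170) (nat_lit 87) (.e (nat_lit 57479) (nat_lit 28) (.e (nat_lit 557105) (nat_lit 14) (.e (nat_lit 180252) (nat_lit 10) (.e (nat_lit 573488) (nat_lit 14) .nil))))) .nil)) 
(.lf (nat_lit 17398) (.g (nat_lit 2823) (.e (nat_lit 1170) (nat_lit 87) (.e (nat_lit 57480) (nat_lit 28) (.e (nat_lit 557098) (nat_lit 13) (.e (nat_lit 172097) (nat_lit 9) (.e (nat_lit 426140) (nat_lit 3) (.e (nat_lit 204855) (nat_lit 26) (.e (nat_lit 335992) (nat_lit 1) (.e (nat_lit 57873) (nat_lit 264) .nil)))))))) (.g (nat_lit 5) .nil .nil))))) (.nd (nat_lit 4) (.nd (nat_lit 5) 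
(.lf (nat_lit 17358) (.g (nat_lit 3913) (.e (nat_lit 1170) (nat_lit 87) (.e (nat_lit 57479) (nat_lit 28) (.e (nat_lit 557101) (nat_lit 13) (.e (nat_lit 172115) (nat_lit 10) (.e (nat_lit 434231) (nat_lit 23) (.e (nat_lit 532554) (nat_lit 13) (.e (nat_lit 368662) (nat_lit 18) (.e (nat_lit 5905) (nat_lit 320) .nil)))))))) (.g (nat_lit 6) .nil .nil))) 
(.lf (nat_lit 17390) (.g (nat_lit 1950) (.e (nat_lit 1170) (nat_lit 87) (.e (nat_lit 57480) (nat_lit 28) (.e (nat_lit 557098) (nat_lit 13) (.e (nat_lit 172097) (nat_lit 9) (.e (nat_lit 426140) (nat_lit 3) .nil))))) .nil))) (.nd (nat_lit 5) 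
(.lf (nat_lit 17374) (.g (nat_lit 924) (.e (nat_lit 1170) (nat_lit 87) (.e (nat_lit 57479) (nat_lit 28) (.e (nat_lit 557107) (nat_lit 15) .nil))) .nil)) 
(.lf (nat_lit 17406) (.g (nat_lit 4698) (.e (nat_lit 1170) (nat_lit 87) (.e (nat_lit 57480) (nat_lit 28) (.e (nat_lit 557098) (nat_lit 13) (.e (nat_lit 172115) (nat_lit 10) (.e (nat_lit 434231) (nat_lit 23) (.e (nat_lit 532535) (nat_lit 9) (.e (nat_lit 335925) (nat_lit 0) (.e (nat_lit 1023) (nat_lit 81) (.e (nat_lit 5905) (nat_lit 320) .nil))))))))) (.g (nat_lit 6) .nil .nil)))))))) 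
(.nd (nat_lit 1) (.nd (nat_lit 2) (.nd (nat_lit 3) (.nd (nat_lit 4) (.nd (nat_lit 5) 
(.lf (nat_lit 17345) (.g (nat_lit 4902) (.e (nat_lit 1170) (nat_lit 87) (.e (nat_lit 57479) (nat_lit 28) (.e (nat_lit 557101) (nat_lit 13) (.e (nat_lit 172097) (nat_lit 9) (.e (nat_lit 426140) (nat_lit 3) (.e (nat_lit 204863) (nat_lit 27) (.e (nat_lit 344097) (nat_lit 18) (.e (nat_lit 5905) (nat_lit 320) .nil)))))))) (.g (nat_lit 0) .nil .nil))) 
(.lf (nat_lit 17377) (.g (nat_lit 2733) (.e (nat_lit 1170) (nat_lit 87) (.e (nat_lit 57479) (nat_lit 28) (.e (nat_lit 557109) (nat_lit 15) (.e (nat_lit 188452) (nat_lit 23) .nil)))) .nil))) (.nd (nat_lit 5) 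
(.lf (nat_lit 17361) (.g (nat_lit 2326) (.e (nat_lit 1170) (nat_lit 87) (.e (nat_lit 57479) (nat_lit 28) (.e (nat_lit 557103) (nat_lit 14) (.e (nat_lit 180250) (nat_lit 10) (.e (nat_lit 573487) (nat_lit 14) (.e (nat_lit 73747) (nat_lit 3) (.e (nat_lit 516119) (nat_lit 1) (.e (nat_lit 164147) (nat_lit 152) .nil)))))))) (.g (nat_lit 4) .nil .nil))) 
(.lf (nat_lit 17393) (.g (nat_lit 1972) (.e (nat_lit 1170) (nat_lit 87) (.e (nat_lit 57480) (nat_lit 28) (.e (nat_lit 557098) (nat_lit 13) (.e (nat_lit 172097) (nat_lit 9) (.e (nat_lit 426140) (nat_lit 3) (.e (nat_lit 204855) (nat_lit 26) (.e (nat_lit 335901) (nat_lit 0) (.e (nat_lit 1095) (nat_lit 81) (.e (nat_lit 5902) (nat_lit 320) .nil))))))))) (.g (nat_lit 4) .nil .nil))))) 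
(.nd (nat_lit 4) (.nd (nat_lit 5) 
(.lf (nat_lit 17353) (.g (nat_lit 5232) (.e (nat_lit 1170) (nat_lit 87) (.e (nat_lit 57479) (nat_lit 28) (.e (nat_lit 557101) (nat_lit 13) (.e (nat_lit 172115) (nat_lit 10) (.e (nat_lit 434231) (nat_lit 23) (.e (nat_lit 532535) (nat_lit 9) (.e (nat_lit 335992) (nat_lit 1) (.e (nat_lit 57870) (nat_lit 264) .nil)))))))) (.g (nat_lit 8) .nil .nil))) 
(.lf (nat_lit 17385) (.g (nat_lit 2450) (.e (nat_lit 1170) (nat_lit 87) (.e (nat_lit 57479) (nat_lit 28) (.e (nat_lit 557109) (nat_lit 15) (.e (nat_lit 188458) (nat_lit 25) .nil)))) .nil))) (.nd (nat_lit 5) 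
(.lf (nat_lit 17369) (.g (nat_lit 2131) (.e (nat_lit 1170) (nat_lit 87) (.e (nat_lit 57479) (nat_lit 28) (.e (nat_lit 557105) (nat_lit 14) (.e (nat_lit 180252) (nat_lit 10) (.e (nat_lit 573489) (nat_lit 14) (.e (nat_lit 73755) (nat_lit 8) (.e (nat_lit 557090) (nat_lit 12) (.e (nat_lit 163842) (nat_lit 0) (.e (nat_lit 5148) (nat_lit 292) .nil))))))))) (.g (nat_lit 4) .nil .nil))) 
(.lf (nat_lit 17401) (.g (nat_lit 4731) (.e (nat_lit 1170) (nat_lit 87) (.e (nat_lit 57480) (nat_lit 28) (.e (nat_lit 557098) (nat_lit 13) (.e (nat_lit 172097) (nat_lit 9) (.e (nat_lit 426140) (nat_lit 3) (.e (nat_lit 204862) (nat_lit 27) (.e (nat_lit 344097) (nat_lit 18) (.e (nat_lit 5907) (nat_lit 320) .nil)))))))) (.g (nat_lit 0) .nil .nil)))))) 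
(.nd (nat_lit 3) (.nd (nat_lit 4) (.nd (nat_lit 5) 
(.lf (nat_lit 17349) (.g (nat_lit 4149) (.e (nat_lit 1170) (nat_lit 87) (.e (nat_lit 57479) (nat_lit 28) (.e (nat_lit 557101) (nat_lit 13) (.e (nat_lit 172115) (nat_lit 10) (.e (nat_lit 434231) (nat_lit 23) (.e (nat_lit 532527) (nat_lit 9) (.e (nat_lit 335997) (nat_lit 1) (.e (nat_lit 57871) (nat_lit 264) .nil)))))))) (.g (nat_lit 0) .nil .nil))) 
(.lf (nat_lit 17381) (.g (nat_lit 3889) (.e (nat_lit 1170) (nat_lit 87) (.e (nat_lit 57479) (nat_lit 28) (.e (nat_lit 557109) (nat_lit 15) (.e (nat_lit 188452) (nat_lit 23) (.e (nat_lit 204816) (nat_lit 17) (.e (nat_lit 6486) (nat_lit 343) (.e (nat_lit 1181) (nat_lit 87) (.e (nat_lit 57872) (nat_lit 264) .nil)))))))) (.g (nat_lit 4) .nil .nil)))) (.nd (nat_lit 5) 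
(.lf (nat_lit 17365) (.g (nat_lit 3654) (.e (nat_lit 1170) (nat_lit 87) (.e (nat_lit 57479) (nat_lit 28) (.e (nat_lit 557105) (nat_lit 14) (.e (nat_lit 180252) (nat_lit 10) (.e (nat_lit 573487) (nat_lit 14) (.e (nat_lit 73747) (nat_lit 3) (.e (nat_lit 516120) (nat_lit 1) (.e (nat_lit 164147) (nat_lit 152) .nil)))))))) (.g (nat_lit 5) .nil .nil))) 
(.lf (nat_lit 17397) (.g (nat_lit 4145) (.e (nat_lit 1170) (nat_lit 87) (.e (nat_lit 57480) (nat_lit 28) (.e (nat_lit 557098) (nat_lit 13) (.e (nat_lit 172097) (nat_lit 9) (.e (nat_lit 426140) (nat_lit 3) (.e (nat_lit 204855) (nat_lit 26) (.e (nat_lit 335985) (nat_lit 1) (.e (nat_lit 57873) (nat_lit 264) .nil)))))))) (.g (nat_lit 0) .nil .nil))))) (.nd (nat_lit 4) (.nd (nat_lit 5) 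
(.lf (nat_lit 17357) (.g (nat_lit 4956) (.e (nat_lit 1170) (nat_lit 87) (.e (nat_lit 57479) (nat_lit 28) (.e (nat_lit 557101) (nat_lit 13) (.e (nat_lit 172115) (nat_lit 10) (.e (nat_lit 434231) (nat_lit 23) (.e (nat_lit 532544) (nat_lit 10) (.e (nat_lit 344097) (nat_lit 18) (.e (nat_lit 5907) (nat_lit 320) .nil)))))))) (.g (nat_lit 0) .nil .nil))) 
(.lf (nat_lit 17389) (.g (nat_lit 4494) (.e (nat_lit 1170) (nat_lit 87) (.e (nat_lit 57480) (nat_lit 28) (.e (nat_lit 557098) (nat_lit 13) (.e (nat_lit 172097) (nat_lit 9) (.e (nat_lit 426125) (nat_lit 2) (.e (nat_lit 196666) (nat_lit 13) (.e (nat_lit 65565) (nat_lit 1) (.e (nat_lit 57873) (nat_lit 264) .nil)))))))) (.g (nat_lit 0) .nil .nil)))) (.nd (nat_lit 5) 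
(.lf (nat_lit 17373) (.g (nat_lit 1683) (.e (nat_lit 1170) (nat_lit 87) (.e (nat_lit 57479) (nat_lit 28) (.e (nat_lit 557106) (nat_lit 15) (.e (nat_lit 188452) (nat_lit 23) .nil)))) .nil)) 
(.lf (nat_lit 17405) (.g (nat_lit 4319) (.e (nat_lit 1170) (nat_lit 87) (.e (nat_lit 57480) (nat_lit 28) (.e (nat_lit 557098) (nat_lit 13) (.e (nat_lit 172115) (nat_lit 10) (.e (nat_lit 434231) (nat_lit 23) (.e (nat_lit 532527) (nat_lit 9) (.e (nat_lit 335997) (nat_lit 1) (.e (nat_lit 57872) (nat_lit 264) .nil)))))))) (.g (nat_lit 0) .nil .nil))))))) 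
(.nd (nat_lit 2) (.nd (nat_lit 3) (.nd (nat_lit 4) (.nd (nat_lit 5) 
(.lf (nat_lit 17347) (.g (nat_lit 2010) (.e (nat_lit 1170) (nat_lit 87) (.e (nat_lit 57479) (nat_lit 28) (.e (nat_lit 557101) (nat_lit 13) (.e (nat_lit 172097) (nat_lit 9) (.e (nat_lit 426140) (nat_lit 3) (.e (nat_lit 204863) (nat_lit 27) (.e (nat_lit 344099) (nat_lit 18) (.e (nat_lit 5905) (nat_lit 320) .nil)))))))) (.g (nat_lit 4) .nil .nil))) 
(.lf (nat_lit 17379) (.g (nat_lit 3650) (.e (nat_lit 1170) (nat_lit 87) (.e (nat_lit 57479) (nat_lit 28) (.e (nat_lit 557109) (nat_lit 15) (.e (nat_lit 188452) (nat_lit 23) (.e (nat_lit 204816) (nat_lit 17) (.e (nat_lit 6436) (nat_lit 343) (.e (nat_lit 1183) (nat_lit 87) (.e (nat_lit 57872) (nat_lit 264) .nil)))))))) (.g (nat_lit 4) .nil .nil)))) (.nd (nat_lit 5) 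
(.lf (nat_lit 17363) (.g (nat_lit 3209) (.e (nat_lit 1170) (nat_lit 87) (.e (nat_lit 57479) (nat_lit 28) (.e (nat_lit 557105) (nat_lit 14) (.e (nat_lit 180252) (nat_lit 10) (.e (nat_lit 573487) (nat_lit 14) (.e (nat_lit 73747) (nat_lit 3) (.e (nat_lit 516115) (nat_lit 1) (.e (nat_lit 164147) (nat_lit 152) .nil)))))))) (.g (nat_lit 4) .nil .nil))) 
(.lf (nat_lit 17395) (.g (nat_lit 1991) (.e (nat_lit 1170) (nat_lit 87) (.e (nat_lit 57480) (nat_lit 28) (.e (nat_lit 557098) (nat_lit 13) (.e (nat_lit 172097) (nat_lit 9) (.e (nat_lit 426140) (nat_lit 3) (.e (nat_lit 204855) (nat_lit 26) (.e (nat_lit 335928) (nat_lit 0) (.e (nat_lit 1023) (nat_lit 81) (.e (nat_lit 5906) (nat_lit 320) .nil))))))))) (.g (nat_lit 4) .nil .nil))))) 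
(.nd (nat_lit 4) (.nd (nat_lit 5) 
(.lf (nat_lit 17355) (.g (nat_lit 4677) (.e (nat_lit 1170) (nat_lit 87) (.e (nat_lit 57479) (nat_lit 28) (.e (nat_lit 557101) (nat_lit 13) (.e (nat_lit 172115) (nat_lit 10) (.e (nat_lit 434231) (nat_lit 23) (.e (nat_lit 532543) (nat_lit 10) (.e (nat_lit 344097) (nat_lit 18) (.e (nat_lit 5907) (nat_lit 320) .nil)))))))) (.g (nat_lit 0) .nil .nil))) 
(.lf (nat_lit 17387) (.g (nat_lit 4303) (.e (nat_lit 1170) (nat_lit 87) (.e (nat_lit 57480) (nat_lit 28) (.e (nat_lit 557098) (nat_lit 13) (.e (nat_lit 172097) (nat_lit 9) (.e (nat_lit 426125) (nat_lit 2) (.e (nat_lit 196666) (nat_lit 13) (.e (nat_lit 65563) (nat_lit 1) (.e (nat_lit 57871) (nat_lit 264) .nil)))))))) (.g (nat_lit 0) .nil .nil)))) (.nd (nat_lit 5) 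
(.lf (nat_lit 17371) (.g (nat_lit 2608) (.e (nat_lit 1170) (nat_lit 87) (.e (nat_lit 57479) (nat_lit 28) (.e (nat_lit 557105) (nat_lit 14) (.e (nat_lit 180252) (nat_lit 10) (.e (nat_lit 573489) (nat_lit 14) (.e (nat_lit 73755) (nat_lit 8) (.e (nat_lit 557090) (nat_lit 12) (.e (nat_lit 163856) (nat_lit 0) (.e (nat_lit 5152) (nat_lit 292) .nil))))))))) (.g (nat_lit 5) .nil .nil))) 
(.lf (nat_lit 17403) (.g (nat_lit 4898) (.e (nat_lit 1170) (nat_lit 87) (.e (nat_lit 57480) (nat_lit 28) (.e (nat_lit 557098) (nat_lit 13) (.e (nat_lit 172097) (nat_lit 9) (.e (nat_lit 426140) (nat_lit 3) (.e (nat_lit 204863) (nat_lit 27) (.e (nat_lit 344097) (nat_lit 18) (.e (nat_lit 5907) (nat_lit 320) .nil)))))))) (.g (nat_lit 0) .nil .nil)))))) 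
(.nd (nat_lit 3) (.nd (nat_lit 4) (.nd (nat_lit 5) 
(.lf (nat_lit 17351) (.g (nat_lit 4195) (.e (nat_lit 1170) (nat_lit 87) (.e (nat_lit 57479) (nat_lit 28) (.e (nat_lit 557101) (nat_lit 13) (.e (nat_lit 172115) (nat_lit 10) (.e (nat_lit 434231) (nat_lit 23) (.e (nat_lit 532535) (nat_lit 9) (.e (nat_lit 335985) (nat_lit 1) (.e (nat_lit 57871) (nat_lit 264) .nil)))))))) (.g (nat_lit 0) .nil .nil))) 
(.lf (nat_lit 17383) (.g (nat_lit 4474) (.e (nat_lit 1170) (nat_lit 87) (.e (nat_lit 57479) (nat_lit 28) (.e (nat_lit 557109) (nat_lit 15) (.e (nat_lit 188452) (nat_lit 23) (.e (nat_lit 204872) (nat_lit 30) .nil))))) .nil))) (.nd (nat_lit 5) 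
(.lf (nat_lit 17367) (.g (nat_lit 3490) (.e (nat_lit 1170) (nat_lit 87) (.e (nat_lit 57479) (nat_lit 28) (.e (nat_lit 557105) (nat_lit 14) (.e (nat_lit 180252) (nat_lit 10) (.e (nat_lit 573488) (nat_lit 14) (.e (nat_lit 73747) (nat_lit 3) (.e (nat_lit 516115) (nat_lit 1) (.e (nat_lit 164162) (nat_lit 152) .nil)))))))) (.g (nat_lit 4) .nil .nil))) 
(.lf (nat_lit 17399) (.g (nat_lit 4672) (.e (nat_lit 1170) (nat_lit 87) (.e (nat_lit 57480) (nat_lit 28) (.e (nat_lit 557098) (nat_lit 13) (.e (nat_lit 172097) (nat_lit 9) (.e (nat_lit 426140) (nat_lit 3) (.e (nat_lit 204862) (nat_lit 27) (.e (nat_lit 344097) (nat_lit 18) (.e (nat_lit 5905) (nat_lit 320) .nil)))))))) (.g (nat_lit 0) .nil .nil))))) (.nd (nat_lit 4) (.nd (nat_lit 5) 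
(.lf (nat_lit 17359) (.g (nat_lit 4654) (.e (nat_lit 1170) (nat_lit 87) (.e (nat_lit 57479) (nat_lit 28) (.e (nat_lit 557101) (nat_lit 13) (.e (nat_lit 172115) (nat_lit 10) (.e (nat_lit 434231) (nat_lit 23) (.e (nat_lit 532554) (nat_lit 13) (.e (nat_lit 368662) (nat_lit 18) (.e (nat_lit 5907) (nat_lit 320) .nil)))))))) (.g (nat_lit 8) .nil .nil))) 
(.lf (nat_lit 17391) (.g (nat_lit 3850) (.e (nat_lit 1170) (nat_lit 87) (.e (nat_lit 57480) (nat_lit 28) (.e (nat_lit 557098) (nat_lit 13) (.e (nat_lit 172097) (nat_lit 9) (.e (nat_lit 426140) (nat_lit 3) (.e (nat_lit 204850) (nat_lit 26) (.e (nat_lit 335997) (nat_lit 1) (.e (nat_lit 57871) (nat_lit 264) .nil)))))))) (.g (nat_lit 0) .nil .nil)))) (.nd (nat_lit 5) 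
(.lf (nat_lit 17375) (.g (nat_lit 930) (.e (nat_lit 1170) (nat_lit 87) (.e (nat_lit 57479) (nat_lit 28) (.e (nat_lit 557109) (nat_lit 15) .nil))) .nil)) 
(.lf (nat_lit 17407) (.g (nat_lit 4271) (.e (nat_lit 1170) (nat_lit 87) (.e (nat_lit 57480) (nat_lit 28) (.e (nat_lit 557098) (nat_lit 13) (.e (nat_lit 172115) (nat_lit 10) (.e (nat_lit 434231) (nat_lit 23) (.e (nat_lit 532535) (nat_lit 9) (.e (nat_lit 335985) (nat_lit 1) (.e (nat_lit 57871) (nat_lit 264) .nil)))))))) (.g (nat_lit 0) .nil .nil)))))))))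

noncomputable def tv237 : DT := (.nd (nat_lit 0) (.nd (nat_lit 1) (.nd (nat_lit 2) (.nd (nat_lit 3) (.nd (nat_lit 4) (.nd (nat_lit 5) 
(.lf (nat_lit 17408) (.g (nat_lit 4557) (.e (nat_lit 1170) (nat_lit 87) (.e (nat_lit 57480) (nat_lit 28) (.e (nat_lit 557098) (nat_lit 13) (.e (nat_lit 172115) (nat_lit 10) (.e (nat_lit 434231) (nat_lit 23) (.e (nat_lit 532535) (nat_lit 9) (.e (nat_lit 335985) (nat_lit 1) (.e (nat_lit 57873) (nat_lit 264) .nil)))))))) (.g (nat_lit 0) .nil .nil))) 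
(.lf (nat_lit 17440) (.g (nat_lit 2084) (.e (nat_lit 1170) (nat_lit 87) (.e (nat_lit 57480) (nat_lit 28) (.e (nat_lit 557107) (nat_lit 15) (.e (nat_lit 188450) (nat_lit 23) (.e (nat_lit 204856) (nat_lit 26) (.e (nat_lit 335997) (nat_lit 1) (.e (nat_lit 57872) (nat_lit 264) .nil))))))) (.g (nat_lit 4) .nil .nil)))) (.nd (nat_lit 5) 
(.lf (nat_lit 17424) (.g (nat_lit 3798) (.e (nat_lit 1170) (nat_lit 87) (.e (nat_lit 57480) (nat_lit 28) (.e (nat_lit 557107) (nat_lit 15) (.e (nat_lit 188447) (nat_lit 22) (.e (nat_lit 196666) (nat_lit 13) (.e (nat_lit 65565) (nat_lit 1) (.e (nat_lit 57873) (nat_lit 264) .nil))))))) (.g (nat_lit 0) .nil .nil))) 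
(.lf (nat_lit 17456) (.g (nat_lit 2257) (.e (nat_lit 1170) (nat_lit 87) (.e (nat_lit 57480) (nat_lit 28) (.e (nat_lit 557107) (nat_lit 15) (.e (nat_lit 188450) (nat_lit 23) (.e (nat_lit 204874) (nat_lit 30) (.e (nat_lit 368662) (nat_lit 18) (.e (nat_lit 5905) (nat_lit 320) .nil))))))) (.g (nat_lit 5) .nil .nil))))) (.nd (nat_lit 4) (.nd (nat_lit 5) 
(.lf (nat_lit 17416) (.g (nat_lit 4735) (.e (nat_lit 1170) (nat_lit 87) (.e (nat_lit 57480) (nat_lit 28) (.e (nat_lit 557098) (nat_lit 13) (.e (nat_lit 172115) (nat_lit 10) (.e (nat_lit 434231) (nat_lit 23) (.e (nat_lit 532554) (nat_lit 13) (.e (nat_lit 368662) (nat_lit 18) (.e (nat_lit 5907) (nat_lit 320) .nil)))))))) (.g (nat_lit 8) .nil .nil))) 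
(.lf (nat_lit 17448) (.g (nat_lit 4297) (.e (nat_lit 1170) (nat_lit 87) (.e (nat_lit 57480) (nat_lit 28) (.e (nat_lit 557107) (nat_lit 15) (.e (nat_lit 188450) (nat_lit 23) (.e (nat_lit 204863) (nat_lit 27) (.e (nat_lit 344097) (nat_lit 18) (.e (nat_lit 5905) (nat_lit 320) .nil))))))) (.g (nat_lit 7) .nil .nil)))) (.nd (nat_lit 5) 
(.lf (nat_lit 17432) (.g (nat_lit 2976) (.e (nat_lit 1170) (nat_lit 87) (.e (nat_lit 57480) (nat_lit 28) (.e (nat_lit 557107) (nat_lit 15) (.e (nat_lit 188450) (nat_lit 23) (.e (nat_lit 204850) (nat_lit 26) (.e (nat_lit 335997) (nat_lit 1) (.e (nat_lit 57871) (nat_lit 264) .nil))))))) (.g (nat_lit 0) .nil .nil))) 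
(.lf (nat_lit 17464) (.g (nat_lit 2996) (.e (nat_lit 1170) (nat_lit 87) (.e (nat_lit 57480) (nat_lit 28) (.e (nat_lit 557108) (nat_lit 15) (.e (nat_lit 188452) (nat_lit 23) (.e (nat_lit 204852) (nat_lit 26) .nil))))) .nil))))) (.nd (nat_lit 3) (.nd (nat_lit 4) (.nd (nat_lit 5) 
(.lf (nat_lit 17412) (.g (nat_lit 4740) (.e (nat_lit 1170) (nat_lit 87) (.e (nat_lit 57480) (nat_lit 28) (.e (nat_lit 557098) (nat_lit 13) (.e (nat_lit 172115) (nat_lit 10) (.e (nat_lit 434231) (nat_lit 23) (.e (nat_lit 532543) (nat_lit 10) (.e (nat_lit 344097) (nat_lit 18) (.e (nat_lit 5907) (nat_lit 320) .nil)))))))) (.g (nat_lit 0) .nil .nil))) 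
(.lf (nat_lit 17444) (.g (nat_lit 1905) (.e (nat_lit 1170) (nat_lit 87) (.e (nat_lit 57480) (nat_lit 28) (.e (nat_lit 557107) (nat_lit 15) (.e (nat_lit 188450) (nat_lit 23) (.e (nat_lit 212736) (nat_lit 26) .nil))))) .nil))) (.nd (nat_lit 5) 
(.lf (nat_lit 17428) (.g (nat_lit 3281) (.e (nat_lit 1170) (nat_lit 87) (.e (nat_lit 57480) (nat_lit 28) (.e (nat_lit 557107) (nat_lit 15) (.e (nat_lit 188447) (nat_lit 22) (.e (nat_lit 196681) (nat_lit 17) (.e (nat_lit 131088) (nat_lit 1) (.e (nat_lit 57870) (nat_lit 264) .nil))))))) (.g (nat_lit 5) .nil .nil))) 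
(.lf (nat_lit 17460) (.g (nat_lit 2233) (.e (nat_lit 1170) (nat_lit 87) (.e (nat_lit 57480) (nat_lit 28) (.e (nat_lit 557108) (nat_lit 15) (.e (nat_lit 188452) (nat_lit 23) (.e (nat_lit 204816) (nat_lit 17) .nil))))) .nil)))) (.nd (nat_lit 4) (.nd (nat_lit 5) 
(.lf (nat_lit 17420) (.g (nat_lit 2726) (.e (nat_lit 1170) (nat_lit 87) (.e (nat_lit 57480) (nat_lit 28) (.e (nat_lit 557107) (nat_lit 15) (.e (nat_lit 188447) (nat_lit 22) (.e (nat_lit 196666) (nat_lit 13) (.e (nat_lit 65546) (nat_lit 0) (.e (nat_lit 1023) (nat_lit 81) (.e (nat_lit 5907) (nat_lit 320) .nil)))))))) (.g (nat_lit 5) .nil .nil))) 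
(.lf (nat_lit 17452) (.g (nat_lit 2939) (.e (nat_lit 1170) (nat_lit 87) (.e (nat_lit 57480) (nat_lit 28) (.e (nat_lit 557107) (nat_lit 15) (.e (nat_lit 188450) (nat_lit 23) (.e (nat_lit 204872) (nat_lit 30) (.e (nat_lit 368662) (nat_lit 18) (.e (nat_lit 5907) (nat_lit 320) .nil))))))) (.g (nat_lit 0) .nil .nil)))) (.nd (nat_lit 5) 
(.lf (nat_lit 17436) (.g (nat_lit 3003) (.e (nat_lit 1170) (nat_lit 87) (.e (nat_lit 57480) (nat_lit 28) (.e (nat_lit 557107) (nat_lit 15) (.e (nat_lit 188450) (nat_lit 23) (.e (nat_lit 204855) (nat_lit 26) (.e (nat_lit 335985) (nat_lit 1) (.e (nat_lit 57871) (nat_lit 264) .nil))))))) (.g (nat_lit 0) .nil .nil))) 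
(.lf (nat_lit 17468) (.g (nat_lit 5043) (.e (nat_lit 1170) (nat_lit 87) (.e (nat_lit 57480) (nat_lit 28) (.e (nat_lit 557108) (nat_lit 15) (.e (nat_lit 188452) (nat_lit 23) (.e (nat_lit 204859) (nat_lit 26) .nil))))) .nil)))))) (.nd (nat_lit 2) (.nd (nat_lit 3) (.nd (nat_lit 4) (.nd (nat_lit 5) 
(.lf (nat_lit 17410) (.g (nat_lit 4687) (.e (nat_lit 1170) (nat_lit 87) (.e (nat_lit 57480) (nat_lit 28) (.e (nat_lit 557098) (nat_lit 13) (.e (nat_lit 172115) (nat_lit 10) (.e (nat_lit 434231) (nat_lit 23) (.e (nat_lit 532543) (nat_lit 10) (.e (nat_lit 344097) (nat_lit 18) (.e (nat_lit 5905) (nat_lit 320) .nil)))))))) (.g (nat_lit 0) .nil .nil))) 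
(.lf (nat_lit 17442) (.g (nat_lit 2143) (.e (nat_lit 1170) (nat_lit 87) (.e (nat_lit 57480) (nat_lit 28) (.e (nat_lit 557107) (nat_lit 15) (.e (nat_lit 188450) (nat_lit 23) (.e (nat_lit 204858) (nat_lit 26) .nil))))) .nil))) (.nd (nat_lit 5) 
(.lf (nat_lit 17426) (.g (nat_lit 3493) (.e (nat_lit 1170) (nat_lit 87) (.e (nat_lit 57480) (nat_lit 28) (.e (nat_lit 557107) (nat_lit 15) (.e (nat_lit 188447) (nat_lit 22) (.e (nat_lit 196681) (nat_lit 17) (.e (nat_lit 131086) (nat_lit 1) (.e (nat_lit 57872) (nat_lit 264) .nil))))))) (.g (nat_lit 5) .nil .nil))) 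
(.lf (nat_lit 17458) (.g (nat_lit 1567) (.e (nat_lit 1170) (nat_lit 87) (.e (nat_lit 57480) (nat_lit 28) (.e (nat_lit 557107) (nat_lit 15) (.e (nat_lit 188451) (nat_lit 23) .nil)))) .nil)))) (.nd (nat_lit 4) (.nd (nat_lit 5) 
(.lf (nat_lit 17418) (.g (nat_lit 4279) (.e (nat_lit 1170) (nat_lit 87) (.e (nat_lit 57480) (nat_lit 28) (.e (nat_lit 557105) (nat_lit 14) (.e (nat_lit 180252) (nat_lit 10) (.e (nat_lit 573488) (nat_lit 14) (.e (nat_lit 73747) (nat_lit 3) (.e (nat_lit 516119) (nat_lit 1) (.e (nat_lit 164147) (nat_lit 152) .nil)))))))) (.g (nat_lit 8) .nil .nil))) 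
(.lf (nat_lit 17450) (.g (nat_lit 4323) (.e (nat_lit 1170) (nat_lit 87) (.e (nat_lit 57480) (nat_lit 28) (.e (nat_lit 557107) (nat_lit 15) (.e (nat_lit 188450) (nat_lit 23) (.e (nat_lit 204863) (nat_lit 27) (.e (nat_lit 344097) (nat_lit 18) (.e (nat_lit 5907) (nat_lit 320) .nil))))))) (.g (nat_lit 7) .nil .nil)))) (.nd (nat_lit 5) 
(.lf (nat_lit 17434) (.g (nat_lit 1736) (.e (nat_lit 1170) (nat_lit 87) (.e (nat_lit 57480) (nat_lit 28) (.e (nat_lit 557107) (nat_lit 15) (.e (nat_lit 188450) (nat_lit 23) (.e (nat_lit 204855) (nat_lit 26) .nil))))) .nil)) 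
(.lf (nat_lit 17466) (.g (nat_lit 3614) (.e (nat_lit 1170) (nat_lit 87) (.e (nat_lit 57480) (nat_lit 28) (.e (nat_lit 557108) (nat_lit 15) (.e (nat_lit 188452) (nat_lit 23) (.e (nat_lit 204852) (nat_lit 26) (.e (nat_lit 343808) (nat_lit 1) (.e (nat_lit 57872) (nat_lit 264) .nil))))))) (.g (nat_lit 5) .nil .nil)))))) (.nd (nat_lit 3) (.nd (nat_lit 4) (.nd (nat_lit 5) 
(.lf (nat_lit 17414) (.g (nat_lit 5018) (.e (nat_lit 1170) (nat_lit 87) (.e (nat_lit 57480) (nat_lit 28) (.e (nat_lit 557098) (nat_lit 13) (.e (nat_lit 172115) (nat_lit 10) (.e (nat_lit 434231) (nat_lit 23) (.e (nat_lit 532544) (nat_lit 10) (.e (nat_lit 344097) (nat_lit 18) (.e (nat_lit 5907) (nat_lit 320) .nil)))))))) (.g (nat_lit 0) .nil .nil))) 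
(.lf (nat_lit 17446) (.g (nat_lit 3558) (.e (nat_lit 1170) (nat_lit 87) (.e (nat_lit 57480) (nat_lit 28) (.e (nat_lit 557107) (nat_lit 15) (.e (nat_lit 188450) (nat_lit 23) (.e (nat_lit 204862) (nat_lit 27) (.e (nat_lit 344097) (nat_lit 18) (.e (nat_lit 5906) (nat_lit 320) .nil))))))) (.g (nat_lit 0) .nil .nil)))) (.nd (nat_lit 5) 
(.lf (nat_lit 17430) (.g (nat_lit 1808) (.e (nat_lit 1170) (nat_lit 87) (.e (nat_lit 57480) (nat_lit 28) (.e (nat_lit 557107) (nat_lit 15) (.e (nat_lit 188450) (nat_lit 23) (.e (nat_lit 204817) (nat_lit 17) .nil))))) .nil)) 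
(.lf (nat_lit 17462) (.g (nat_lit 3589) (.e (nat_lit 1170) (nat_lit 87) (.e (nat_lit 57480) (nat_lit 28) (.e (nat_lit 557108) (nat_lit 15) (.e (nat_lit 188452) (nat_lit 23) (.e (nat_lit 204817) (nat_lit 17) .nil))))) .nil)))) (.nd (nat_lit 4) (.nd (nat_lit 5) 
(.lf (nat_lit 17422) (.g (nat_lit 3491) (.e (nat_lit 1170) (nat_lit 87) (.e (nat_lit 57480) (nat_lit 28) (.e (nat_lit 557107) (nat_lit 15) (.e (nat_lit 188447) (nat_lit 22) (.e (nat_lit 196666) (nat_lit 13) (.e (nat_lit 65563) (nat_lit 1) (.e (nat_lit 57871) (nat_lit 264) .nil))))))) (.g (nat_lit 0) .nil .nil))) 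
(.lf (nat_lit 17454) (.g (nat_lit 3476) (.e (nat_lit 1170) (nat_lit 87) (.e (nat_lit 57480) (nat_lit 28) (.e (nat_lit 557107) (nat_lit 15) (.e (nat_lit 188450) (nat_lit 23) (.e (nat_lit 204873) (nat_lit 30) (.e (nat_lit 368662) (nat_lit 18) (.e (nat_lit 5906) (nat_lit 320) .nil))))))) (.g (nat_lit 7) .nil .nil)))) (.nd (nat_lit 5) 
(.lf (nat_lit 17438) (.g (nat_lit 3348) (.e (nat_lit 1170) (nat_lit 87) (.e (nat_lit 57480) (nat_lit 28) (.e (nat_lit 557107) (nat_lit 15) (.e (nat_lit 188450) (nat_lit 23) (.e (nat_lit 204855) (nat_lit 26) (.e (nat_lit 335992) (nat_lit 1) (.e (nat_lit 57870) (nat_lit 264) .nil))))))) (.g (nat_lit 7) .nil .nil))) 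
(.lf (nat_lit 17470) (.g (nat_lit 2671) (.e (nat_lit 1170) (nat_lit 87) (.e (nat_lit 57480) (nat_lit 28) (.e (nat_lit 557108) (nat_lit 15) (.e (nat_lit 188452) (nat_lit 23) (.e (nat_lit 204872) (nat_lit 30) .nil))))) .nil))))))) (.nd (nat_lit 1) (.nd (nat_lit 2) (.nd (nat_lit 3) (.nd (nat_lit 4) (.nd (nat_lit 5) 
(.lf (nat_lit 17409) (.g (nat_lit 5313) (.e (nat_lit 1170) (nat_lit 87) (.e (nat_lit 57480) (nat_lit 28) (.e (nat_lit 557098) (nat_lit 13) (.e (nat_lit 172115) (nat_lit 10) (.e (nat_lit 434231) (nat_lit 23) (.e (nat_lit 532535) (nat_lit 9) (.e (nat_lit 335992) (nat_lit 1) (.e (nat_lit 57870) (nat_lit 264) .nil)))))))) (.g (nat_lit 8) .nil .nil))) 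
(.lf (nat_lit 17441) (.g (nat_lit 2297) (.e (nat_lit 1170) (nat_lit 87) (.e (nat_lit 57480) (nat_lit 28) (.e (nat_lit 557107) (nat_lit 15) (.e (nat_lit 188450) (nat_lit 23) (.e (nat_lit 204857) (nat_lit 26) .nil))))) .nil))) (.nd (nat_lit 5) 
(.lf (nat_lit 17425) (.g (nat_lit 2443) (.e (nat_lit 1170) (nat_lit 87) (.e (nat_lit 57480) (nat_lit 28) (.e (nat_lit 557107) (nat_lit 15) (.e (nat_lit 188447) (nat_lit 22) (.e (nat_lit 196668) (nat_lit 14) .nil))))) .nil)) 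
(.lf (nat_lit 17457) (.g (nat_lit 2766) (.e (nat_lit 1170) (nat_lit 87) (.e (nat_lit 57480) (nat_lit 28) (.e (nat_lit 557107) (nat_lit 15) (.e (nat_lit 188450) (nat_lit 23) (.e (nat_lit 204874) (nat_lit 30) (.e (nat_lit 368662) (nat_lit 18) (.e (nat_lit 5906) (nat_lit 320) .nil))))))) (.g (nat_lit 6) .nil .nil))))) (.nd (nat_lit 4) (.nd (nat_lit 5) 
(.lf (nat_lit 17417) (.g (nat_lit 3537) (.e (nat_lit 1170) (nat_lit 87) (.e (nat_lit 57480) (nat_lit 28) (.e (nat_lit 557098) (nat_lit 13) (.e (nat_lit 172115) (nat_lit 10) (.e (nat_lit 434244) (nat_lit 28) (.e (nat_lit 573450) (nat_lit 9) (.e (nat_lit 452) (nat_lit 33) (.e (nat_lit 434209) (nat_lit 18) (.e (nat_lit 4605) (nat_lit 269) .nil))))))))) (.g (nat_lit 6) .nil .nil))) 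
(.lf (nat_lit 17449) (.g (nat_lit 4099) (.e (nat_lit 1170) (nat_lit 87) (.e (nat_lit 57480) (nat_lit 28) (.e (nat_lit 557107) (nat_lit 15) (.e (nat_lit 188450) (nat_lit 23) (.e (nat_lit 204863) (nat_lit 27) (.e (nat_lit 344097) (nat_lit 18) (.e (nat_lit 5906) (nat_lit 320) .nil))))))) (.g (nat_lit 7) .nil .nil)))) (.nd (nat_lit 5) 
(.lf (nat_lit 17433) (.g (nat_lit 3110) (.e (nat_lit 1170) (nat_lit 87) (.e (nat_lit 57480) (nat_lit 28) (.e (nat_lit 557107) (nat_lit 15) (.e (nat_lit 188450) (nat_lit 23) (.e (nat_lit 204850) (nat_lit 26) (.e (nat_lit 335997) (nat_lit 1) (.e (nat_lit 57872) (nat_lit 264) .nil))))))) (.g (nat_lit 0) .nil .nil))) 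
(.lf (nat_lit 17465) (.g (nat_lit 3064) (.e (nat_lit 1170) (nat_lit 87) (.e (nat_lit 57480) (nat_lit 28) (.e (nat_lit 557108) (nat_lit 15) (.e (nat_lit 188452) (nat_lit 23) (.e (nat_lit 204852) (nat_lit 26) (.e (nat_lit 343808) (nat_lit 1) (.e (nat_lit 57871) (nat_lit 264) .nil))))))) (.g (nat_lit 4) .nil .nil)))))) (.nd (nat_lit 3) (.nd (nat_lit 4) (.nd (nat_lit 5) 
(.lf (nat_lit 17413) (.g (nat_lit 4930) (.e (nat_lit 1170) (nat_lit 87) (.e (nat_lit 57480) (nat_lit 28) (.e (nat_lit 557098) (nat_lit 13) (.e (nat_lit 172115) (nat_lit 10) (.e (nat_lit 434231) (nat_lit 23) (.e (nat_lit 532544) (nat_lit 10) (.e (nat_lit 344097) (nat_lit 18) (.e (nat_lit 5905) (nat_lit 320) .nil)))))))) (.g (nat_lit 0) .nil .nil))) 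
(.lf (nat_lit 17445) (.g (nat_lit 3767) (.e (nat_lit 1170) (nat_lit 87) (.e (nat_lit 57480) (nat_lit 28) (.e (nat_lit 557107) (nat_lit 15) (.e (nat_lit 188450) (nat_lit 23) (.e (nat_lit 204862) (nat_lit 27) (.e (nat_lit 344097) (nat_lit 18) (.e (nat_lit 5905) (nat_lit 320) .nil))))))) (.g (nat_lit 0) .nil .nil)))) (.nd (nat_lit 5) 
(.lf (nat_lit 17429) (.g (nat_lit 1165) (.e (nat_lit 1170) (nat_lit 87) (.e (nat_lit 57480) (nat_lit 28) (.e (nat_lit 557107) (nat_lit 15) (.e (nat_lit 188450) (nat_lit 23) .nil)))) .nil)) 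
(.lf (nat_lit 17461) (.g (nat_lit 2921) (.e (nat_lit 1170) (nat_lit 87) (.e (nat_lit 57480) (nat_lit 28) (.e (nat_lit 557108) (nat_lit 15) (.e (nat_lit 188452) (nat_lit 23) (.e (nat_lit 204816) (nat_lit 17) (.e (nat_lit 6436) (nat_lit 343) (.e (nat_lit 1183) (nat_lit 87) (.e (nat_lit 57872) (nat_lit 264) .nil)))))))) (.g (nat_lit 5) .nil .nil))))) (.nd (nat_lit 4) (.nd (nat_lit 5) 
(.lf (nat_lit 17421) (.g (nat_lit 3153) (.e (nat_lit 1170) (nat_lit 87) (.e (nat_lit 57480) (nat_lit 28) (.e (nat_lit 557107) (nat_lit 15) (.e (nat_lit 188447) (nat_lit 22) (.e (nat_lit 196666) (nat_lit 13) (.e (nat_lit 65550) (nat_lit 0) (.e (nat_lit 1023) (nat_lit 81) (.e (nat_lit 5907) (nat_lit 320) .nil)))))))) (.g (nat_lit 5) .nil .nil))) 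
(.lf (nat_lit 17453) (.g (nat_lit 1845) (.e (nat_lit 1170) (nat_lit 87) (.e (nat_lit 57480) (nat_lit 28) (.e (nat_lit 557107) (nat_lit 15) (.e (nat_lit 188450) (nat_lit 23) (.e (nat_lit 204873) (nat_lit 30) .nil))))) .nil))) (.nd (nat_lit 5) 
(.lf (nat_lit 17437) (.g (nat_lit 3316) (.e (nat_lit 1170) (nat_lit 87) (.e (nat_lit 57480) (nat_lit 28) (.e (nat_lit 557107) (nat_lit 15) (.e (nat_lit 188450) (nat_lit 23) (.e (nat_lit 204855) (nat_lit 26) (.e (nat_lit 335985) (nat_lit 1) (.e (nat_lit 57873) (nat_lit 264) .nil))))))) (.g (nat_lit 0) .nil .nil))) 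
(.lf (nat_lit 17469) (.g (nat_lit 3708) (.e (nat_lit 1170) (nat_lit 87) (.e (nat_lit 57480) (nat_lit 28) (.e (nat_lit 557108) (nat_lit 15) (.e (nat_lit 188452) (nat_lit 23) (.e (nat_lit 212736) (nat_lit 26) .nil))))) .nil)))))) (.nd (nat_lit 2) (.nd (nat_lit 3) (.nd (nat_lit 4) (.nd (nat_lit 5) 
(.lf (nat_lit 17411) (.g (nat_lit 4462) (.e (nat_lit 1170) (nat_lit 87) (.e (nat_lit 57480) (nat_lit 28) (.e (nat_lit 557098) (nat_lit 13) (.e (nat_lit 172115) (nat_lit 10) (.e (nat_lit 434231) (nat_lit 23) (.e (nat_lit 532543) (nat_lit 10) (.e (nat_lit 344097) (nat_lit 18) (.e (nat_lit 5906) (nat_lit 320) .nil)))))))) (.g (nat_lit 0) .nil .nil))) 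
(.lf (nat_lit 17443) (.g (nat_lit 1959) (.e (nat_lit 1170) (nat_lit 87) (.e (nat_lit 57480) (nat_lit 28) (.e (nat_lit 557107) (nat_lit 15) (.e (nat_lit 188450) (nat_lit 23) (.e (nat_lit 204861) (nat_lit 26) .nil))))) .nil))) (.nd (nat_lit 5) 
(.lf (nat_lit 17427) (.g (nat_lit 3822) (.e (nat_lit 1170) (nat_lit 87) (.e (nat_lit 57480) (nat_lit 28) (.e (nat_lit 557107) (nat_lit 15) (.e (nat_lit 188447) (nat_lit 22) (.e (nat_lit 196681) (nat_lit 17) (.e (nat_lit 131086) (nat_lit 1) (.e (nat_lit 57873) (nat_lit 264) .nil))))))) (.g (nat_lit 6) .nil .nil))) 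
(.lf (nat_lit 17459) (.g (nat_lit 1515) (.e (nat_lit 1170) (nat_lit 87) (.e (nat_lit 57480) (nat_lit 28) (.e (nat_lit 557108) (nat_lit 15) (.e (nat_lit 188452) (nat_lit 23) .nil)))) .nil)))) (.nd (nat_lit 4) (.nd (nat_lit 5) 
(.lf (nat_lit 17419) (.g (nat_lit 2019) (.e (nat_lit 1170) (nat_lit 87) (.e (nat_lit 57480) (nat_lit 28) (.e (nat_lit 557105) (nat_lit 14) (.e (nat_lit 180252) (nat_lit 10) (.e (nat_lit 573488) (nat_lit 14) (.e (nat_lit 73748) (nat_lit 3) (.e (nat_lit 516119) (nat_lit 1) (.e (nat_lit 164147) (nat_lit 152) .nil)))))))) (.g (nat_lit 4) .nil .nil))) 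
(.lf (nat_lit 17451) (.g (nat_lit 2282) (.e (nat_lit 1170) (nat_lit 87) (.e (nat_lit 57480) (nat_lit 28) (.e (nat_lit 557107) (nat_lit 15) (.e (nat_lit 188450) (nat_lit 23) (.e (nat_lit 204864) (nat_lit 27) (.e (nat_lit 344097) (nat_lit 18) (.e (nat_lit 5907) (nat_lit 320) .nil))))))) (.g (nat_lit 4) .nil .nil)))) (.nd (nat_lit 5) 
(.lf (nat_lit 17435) (.g (nat_lit 3026) (.e (nat_lit 1170) (nat_lit 87) (.e (nat_lit 57480) (nat_lit 28) (.e (nat_lit 557107) (nat_lit 15) (.e (nat_lit 188450) (nat_lit 23) (.e (nat_lit 204855) (nat_lit 26) (.e (nat_lit 335923) (nat_lit 0) (.e (nat_lit 1023) (nat_lit 81) (.e (nat_lit 5906) (nat_lit 320) .nil)))))))) (.g (nat_lit 5) .nil .nil))) 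
(.lf (nat_lit 17467) (.g (nat_lit 3764) (.e (nat_lit 1170) (nat_lit 87) (.e (nat_lit 57480) (nat_lit 28) (.e (nat_lit 557108) (nat_lit 15) (.e (nat_lit 188452) (nat_lit 23) (.e (nat_lit 204852) (nat_lit 26) (.e (nat_lit 343808) (nat_lit 1) (.e (nat_lit 57873) (nat_lit 264) .nil))))))) (.g (nat_lit 5) .nil .nil)))))) (.nd (nat_lit 3) (.nd (nat_lit 4) (.nd (nat_lit 5) 
(.lf (nat_lit 17415) (.g (nat_lit 3990) (.e (nat_lit 1170) (nat_lit 87) (.e (nat_lit 57480) (nat_lit 28) (.e (nat_lit 557098) (nat_lit 13) (.e (nat_lit 172115) (nat_lit 10) (.e (nat_lit 434231) (nat_lit 23) (.e (nat_lit 532554) (nat_lit 13) (.e (nat_lit 368662) (nat_lit 18) (.e (nat_lit 5905) (nat_lit 320) .nil)))))))) (.g (nat_lit 6) .nil .nil))) 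
(.lf (nat_lit 17447) (.g (nat_lit 3822) (.e (nat_lit 1170) (nat_lit 87) (.e (nat_lit 57480) (nat_lit 28) (.e (nat_lit 557107) (nat_lit 15) (.e (nat_lit 188450) (nat_lit 23) (.e (nat_lit 204862) (nat_lit 27) (.e (nat_lit 344097) (nat_lit 18) (.e (nat_lit 5907) (nat_lit 320) .nil))))))) (.g (nat_lit 0) .nil .nil)))) (.nd (nat_lit 5) 
(.lf (nat_lit 17431) (.g (nat_lit 1861) (.e (nat_lit 1170) (nat_lit 87) (.e (nat_lit 57480) (nat_lit 28) (.e (nat_lit 557107) (nat_lit 15) (.e (nat_lit 188450) (nat_lit 23) (.e (nat_lit 204821) (nat_lit 17) .nil))))) .nil)) 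
(.lf (nat_lit 17463) (.g (nat_lit 3170) (.e (nat_lit 1170) (nat_lit 87) (.e (nat_lit 57480) (nat_lit 28) (.e (nat_lit 557108) (nat_lit 15) (.e (nat_lit 188452) (nat_lit 23) (.e (nat_lit 204850) (nat_lit 26) .nil))))) .nil)))) (.nd (nat_lit 4) (.nd (nat_lit 5) 
(.lf (nat_lit 17423) (.g (nat_lit 3483) (.e (nat_lit 1170) (nat_lit 87) (.e (nat_lit 57480) (nat_lit 28) (.e (nat_lit 557107) (nat_lit 15) (.e (nat_lit 188447) (nat_lit 22) (.e (nat_lit 196666) (nat_lit 13) (.e (nat_lit 65565) (nat_lit 1) (.e (nat_lit 57871) (nat_lit 264) .nil))))))) (.g (nat_lit 0) .nil .nil))) 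
(.lf (nat_lit 17455) (.g (nat_lit 3292) (.e (nat_lit 1170) (nat_lit 87) (.e (nat_lit 57480) (nat_lit 28) (.e (nat_lit 557107) (nat_lit 15) (.e (nat_lit 188450) (nat_lit 23) (.e (nat_lit 204873) (nat_lit 30) (.e (nat_lit 368662) (nat_lit 18) (.e (nat_lit 5907) (nat_lit 320) .nil))))))) (.g (nat_lit 0) .nil .nil)))) (.nd (nat_lit 5) 
(.lf (nat_lit 17439) (.g (nat_lit 2017) (.e (nat_lit 1170) (nat_lit 87) (.e (nat_lit 57480) (nat_lit 28) (.e (nat_lit 557107) (nat_lit 15) (.e (nat_lit 188450) (nat_lit 23) (.e (nat_lit 204856) (nat_lit 26) .nil))))) .nil)) 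
(.lf (nat_lit 17471) (.g (nat_lit 3790) (.e (nat_lit 1170) (nat_lit 87) (.e (nat_lit 57480) (nat_lit 28) (.e (nat_lit 557108) (nat_lit 15) (.e (nat_lit 188452) (nat_lit 23) (.e (nat_lit 204872) (nat_lit 30) (.e (nat_lit 368662) (nat_lit 18) (.e (nat_lit 5907) (nat_lit 320) .nil))))))) (.g (nat_lit 7) .nil .nil)))))))))

noncomputable def tv238 : DT := (.nd (nat_lit 0) (.nd (nat_lit 1) (.nd (nat_lit 2) (.nd (nat_lit 3) (.nd (nat_lit 4) (.nd (nat_lit 5) 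
(.lf (nat_lit 17472) (.g (nat_lit 3044) (.e (nat_lit 1170) (nat_lit 87) (.e (nat_lit 57480) (nat_lit 28) (.e (nat_lit 557108) (nat_lit 15) (.e (nat_lit 188452) (nat_lit 23) (.e (nat_lit 204873) (nat_lit 30) .nil))))) .nil)) 
(.lf (nat_lit 17504) (.g (nat_lit 3392) (.e (nat_lit 1170) (nat_lit 87) (.e (nat_lit 57480) (nat_lit 28) (.e (nat_lit 557109) (nat_lit 15) (.e (nat_lit 188450) (nat_lit 23) (.e (nat_lit 204872) (nat_lit 30) .nil))))) .nil))) (.nd (nat_lit 5) 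
(.lf (nat_lit 17488) (.g (nat_lit 3766) (.e (nat_lit 1170) (nat_lit 87) (.e (nat_lit 57480) (nat_lit 28) (.e (nat_lit 557109) (nat_lit 15) (.e (nat_lit 188449) (nat_lit 22) (.e (nat_lit 196666) (nat_lit 13) (.e (nat_lit 65565) (nat_lit 1) (.e (nat_lit 57871) (nat_lit 264) .nil))))))) (.g (nat_lit 0) .nil .nil))) 
(.lf (nat_lit 17520) (.g (nat_lit 4476) (.e (nat_lit 1170) (nat_lit 87) (.e (nat_lit 57480) (nat_lit 28) (.e (nat_lit 557109) (nat_lit 15) (.e (nat_lit 188452) (nat_lit 23) (.e (nat_lit 204856) (nat_lit 26) (.e (nat_lit 335997) (nat_lit 1) (.e (nat_lit 57871) (nat_lit 264) .nil))))))) (.g (nat_lit 7) .nil .nil))))) (.nd (nat_lit 4) (.nd (nat_lit 5) 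
(.lf (nat_lit 17480) (.g (nat_lit 3550) (.e (nat_lit 1170) (nat_lit 87) (.e (nat_lit 57480) (nat_lit 28) (.e (nat_lit 557109) (nat_lit 15) (.e (nat_lit 188447) (nat_lit 22) (.e (nat_lit 196681) (nat_lit 17) .nil))))) .nil)) 
(.lf (nat_lit 17512) (.g (nat_lit 3828) (.e (nat_lit 1170) (nat_lit 87) (.e (nat_lit 57480) (nat_lit 28) (.e (nat_lit 557109) (nat_lit 15) (.e (nat_lit 188452) (nat_lit 23) (.e (nat_lit 204850) (nat_lit 26) (.e (nat_lit 335997) (nat_lit 1) (.e (nat_lit 57872) (nat_lit 264) .nil))))))) (.g (nat_lit 0) .nil .nil)))) (.nd (nat_lit 5) 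
(.lf (nat_lit 17496) (.g (nat_lit 1689) (.e (nat_lit 1170) (nat_lit 87) (.e (nat_lit 57480) (nat_lit 28) (.e (nat_lit 557109) (nat_lit 15) (.e (nat_lit 188450) (nat_lit 23) .nil)))) .nil)) 
(.lf (nat_lit 17528) (.g (nat_lit 3090) (.e (nat_lit 1170) (nat_lit 87) (.e (nat_lit 57480) (nat_lit 28) (.e (nat_lit 557109) (nat_lit 15) (.e (nat_lit 188452) (nat_lit 23) (.e (nat_lit 212736) (nat_lit 26) (.e (nat_lit 335995) (nat_lit 1) (.e (nat_lit 57872) (nat_lit 264) .nil))))))) (.g (nat_lit 4) .nil .nil)))))) (.nd (nat_lit 3) (.nd (nat_lit 4) (.nd (nat_lit 5) 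
(.lf (nat_lit 17476) (.g (nat_lit 3187) (.e (nat_lit 1170) (nat_lit 87) (.e (nat_lit 57480) (nat_lit 28) (.e (nat_lit 557109) (nat_lit 15) (.e (nat_lit 188447) (nat_lit 22) (.e (nat_lit 196666) (nat_lit 13) .nil))))) .nil)) 
(.lf (nat_lit 17508) (.g (nat_lit 3722) (.e (nat_lit 1170) (nat_lit 87) (.e (nat_lit 57480) (nat_lit 28) (.e (nat_lit 557109) (nat_lit 15) (.e (nat_lit 188452) (nat_lit 23) (.e (nat_lit 204817) (nat_lit 17) .nil))))) .nil))) (.nd (nat_lit 5) 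
(.lf (nat_lit 17492) (.g (nat_lit 5559) (.e (nat_lit 1170) (nat_lit 87) (.e (nat_lit 57480) (nat_lit 28) (.e (nat_lit 557109) (nat_lit 15) (.e (nat_lit 188449) (nat_lit 22) (.e (nat_lit 196681) (nat_lit 17) (.e (nat_lit 131086) (nat_lit 1) (.e (nat_lit 57870) (nat_lit 264) .nil))))))) (.g (nat_lit 6) .nil .nil))) 
(.lf (nat_lit 17524) (.g (nat_lit 4347) (.e (nat_lit 1170) (nat_lit 87) (.e (nat_lit 57480) (nat_lit 28) (.e (nat_lit 557109) (nat_lit 15) (.e (nat_lit 188452) (nat_lit 23) (.e (nat_lit 204858) (nat_lit 26) (.e (nat_lit 335997) (nat_lit 1) (.e (nat_lit 57870) (nat_lit 264) .nil))))))) (.g (nat_lit 4) .nil .nil))))) (.nd (nat_lit 4) (.nd (nat_lit 5) 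
(.lf (nat_lit 17484) (.g (nat_lit 3566) (.e (nat_lit 1170) (nat_lit 87) (.e (nat_lit 57480) (nat_lit 28) (.e (nat_lit 557109) (nat_lit 15) (.e (nat_lit 188449) (nat_lit 22) (.e (nat_lit 196666) (nat_lit 13) (.e (nat_lit 65550) (nat_lit 0) (.e (nat_lit 1023) (nat_lit 81) (.e (nat_lit 5907) (nat_lit 320) .nil)))))))) (.g (nat_lit 5) .nil .nil))) 
(.lf (nat_lit 17516) (.g (nat_lit 3737) (.e (nat_lit 1170) (nat_lit 87) (.e (nat_lit 57480) (nat_lit 28) (.e (nat_lit 557109) (nat_lit 15) (.e (nat_lit 188452) (nat_lit 23) (.e (nat_lit 204855) (nat_lit 26) (.e (nat_lit 335985) (nat_lit 1) (.e (nat_lit 57871) (nat_lit 264) .nil))))))) (.g (nat_lit 0) .nil .nil)))) (.nd (nat_lit 5) 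
(.lf (nat_lit 17500) (.g (nat_lit 3428) (.e (nat_lit 1170) (nat_lit 87) (.e (nat_lit 57480) (nat_lit 28) (.e (nat_lit 557109) (nat_lit 15) (.e (nat_lit 188450) (nat_lit 23) (.e (nat_lit 204861) (nat_lit 26) .nil))))) .nil)) 
(.lf (nat_lit 17532) (.g (nat_lit 3074) (.e (nat_lit 1170) (nat_lit 87) (.e (nat_lit 57480) (nat_lit 28) (.e (nat_lit 557109) (nat_lit 15) (.e (nat_lit 188452) (nat_lit 23) (.e (nat_lit 204863) (nat_lit 27) (.e (nat_lit 344096) (nat_lit 18) (.e (nat_lit 5896) (nat_lit 320) .nil))))))) (.g (nat_lit 5) .nil .nil))))))) (.nd (nat_lit 2) (.nd (nat_lit 3) (.nd (nat_lit 4) (.nd (nat_lit 5) 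
(.lf (nat_lit 17474) (.g (nat_lit 2635) (.e (nat_lit 1170) (nat_lit 87) (.e (nat_lit 57480) (nat_lit 28) (.e (nat_lit 557109) (nat_lit 15) (.e (nat_lit 188434) (nat_lit 20) (.e (nat_lit 3271) (nat_lit 199) .nil))))) .nil)) 
(.lf (nat_lit 17506) (.g (nat_lit 3352) (.e (nat_lit 1170) (nat_lit 87) (.e (nat_lit 57480) (nat_lit 28) (.e (nat_lit 557109) (nat_lit 15) (.e (nat_lit 188450) (nat_lit 23) (.e (nat_lit 204873) (nat_lit 30) .nil))))) .nil))) (.nd (nat_lit 5) 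
(.lf (nat_lit 17490) (.g (nat_lit 3605) (.e (nat_lit 1170) (nat_lit 87) (.e (nat_lit 57480) (nat_lit 28) (.e (nat_lit 557109) (nat_lit 15) (.e (nat_lit 188449) (nat_lit 22) (.e (nat_lit 196667) (nat_lit 14) .nil))))) .nil)) 
(.lf (nat_lit 17522) (.g (nat_lit 4018) (.e (nat_lit 1170) (nat_lit 87) (.e (nat_lit 57480) (nat_lit 28) (.e (nat_lit 557109) (nat_lit 15) (.e (nat_lit 188452) (nat_lit 23) (.e (nat_lit 204857) (nat_lit 26) (.e (nat_lit 335997) (nat_lit 1) (.e (nat_lit 57871) (nat_lit 264) .nil))))))) (.g (nat_lit 4) .nil .nil))))) (.nd (nat_lit 4) (.nd (nat_lit 5) 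
(.lf (nat_lit 17482) (.g (nat_lit 2988) (.e (nat_lit 1170) (nat_lit 87) (.e (nat_lit 57480) (nat_lit 28) (.e (nat_lit 557109) (nat_lit 15) (.e (nat_lit 188449) (nat_lit 22) (.e (nat_lit 196630) (nat_lit 9) (.e (nat_lit 1499) (nat_lit 108) (.e (nat_lit 335995) (nat_lit 1) (.e (nat_lit 57872) (nat_lit 264) .nil)))))))) (.g (nat_lit 5) .nil .nil))) 
(.lf (nat_lit 17514) (.g (nat_lit 2306) (.e (nat_lit 1170) (nat_lit 87) (.e (nat_lit 57480) (nat_lit 28) (.e (nat_lit 557109) (nat_lit 15) (.e (nat_lit 188452) (nat_lit 23) (.e (nat_lit 204855) (nat_lit 26) .nil))))) .nil))) (.nd (nat_lit 5) 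
(.lf (nat_lit 17498) (.g (nat_lit 3398) (.e (nat_lit 1170) (nat_lit 87) (.e (nat_lit 57480) (nat_lit 28) (.e (nat_lit 557109) (nat_lit 15) (.e (nat_lit 188450) (nat_lit 23) (.e (nat_lit 204859) (nat_lit 26) .nil))))) .nil)) 
(.lf (nat_lit 17530) (.g (nat_lit 4342) (.e (nat_lit 1170) (nat_lit 87) (.e (nat_lit 57480) (nat_lit 28) (.e (nat_lit 557109) (nat_lit 15) (.e (nat_lit 188452) (nat_lit 23) (.e (nat_lit 204862) (nat_lit 27) (.e (nat_lit 344097) (nat_lit 18) (.e (nat_lit 5906) (nat_lit 320) .nil))))))) (.g (nat_lit 0) .nil .nil)))))) (.nd (nat_lit 3) (.nd (nat_lit 4) (.nd (nat_lit 5) 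
(.lf (nat_lit 17478) (.g (nat_lit 3081) (.e (nat_lit 1170) (nat_lit 87) (.e (nat_lit 57480) (nat_lit 28) (.e (nat_lit 557109) (nat_lit 15) (.e (nat_lit 188447) (nat_lit 22) (.e (nat_lit 196668) (nat_lit 14) .nil))))) .nil)) 
(.lf (nat_lit 17510) (.g (nat_lit 3658) (.e (nat_lit 1170) (nat_lit 87) (.e (nat_lit 57480) (nat_lit 28) (.e (nat_lit 557109) (nat_lit 15) (.e (nat_lit 188452) (nat_lit 23) (.e (nat_lit 204821) (nat_lit 17) (.e (nat_lit 7936) (nat_lit 343) (.e (nat_lit 1181) (nat_lit 87) (.e (nat_lit 57870) (nat_lit 264) .nil)))))))) (.g (nat_lit 4) .nil .nil)))) (.nd (nat_lit 5) 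
(.lf (nat_lit 17494) (.g (nat_lit 5836) (.e (nat_lit 1170) (nat_lit 87) (.e (nat_lit 57480) (nat_lit 28) (.e (nat_lit 557109) (nat_lit 15) (.e (nat_lit 188449) (nat_lit 22) (.e (nat_lit 196681) (nat_lit 17) (.e (nat_lit 131088) (nat_lit 1) (.e (nat_lit 57872) (nat_lit 264) .nil))))))) (.g (nat_lit 0) .nil .nil))) 
(.lf (nat_lit 17526) (.g (nat_lit 4449) (.e (nat_lit 1170) (nat_lit 87) (.e (nat_lit 57480) (nat_lit 28) (.e (nat_lit 557109) (nat_lit 15) (.e (nat_lit 188452) (nat_lit 23) (.e (nat_lit 204860) (nat_lit 26) .nil))))) .nil)))) (.nd (nat_lit 4) (.nd (nat_lit 5) 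
(.lf (nat_lit 17486) (.g (nat_lit 3788) (.e (nat_lit 1170) (nat_lit 87) (.e (nat_lit 57480) (nat_lit 28) (.e (nat_lit 557109) (nat_lit 15) (.e (nat_lit 188449) (nat_lit 22) (.e (nat_lit 196666) (nat_lit 13) (.e (nat_lit 65563) (nat_lit 1) (.e (nat_lit 57871) (nat_lit 264) .nil))))))) (.g (nat_lit 0) .nil .nil))) 
(.lf (nat_lit 17518) (.g (nat_lit 4013) (.e (nat_lit 1170) (nat_lit 87) (.e (nat_lit 57480) (nat_lit 28) (.e (nat_lit 557109) (nat_lit 15) (.e (nat_lit 188452) (nat_lit 23) (.e (nat_lit 204855) (nat_lit 26) (.e (nat_lit 335992) (nat_lit 1) (.e (nat_lit 57870) (nat_lit 264) .nil))))))) (.g (nat_lit 7) .nil .nil)))) (.nd (nat_lit 5) 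
(.lf (nat_lit 17502) (.g (nat_lit 3132) (.e (nat_lit 1170) (nat_lit 87) (.e (nat_lit 57480) (nat_lit 28) (.e (nat_lit 557109) (nat_lit 15) (.e (nat_lit 188450) (nat_lit 23) (.e (nat_lit 204863) (nat_lit 27) .nil))))) .nil)) 
(.lf (nat_lit 17534) (.g (nat_lit 4497) (.e (nat_lit 1170) (nat_lit 87) (.e (nat_lit 57480) (nat_lit 28) (.e (nat_lit 557109) (nat_lit 15) (.e (nat_lit 188452) (nat_lit 23) (.e (nat_lit 204863) (nat_lit 27) (.e (nat_lit 344097) (nat_lit 18) (.e (nat_lit 5906) (nat_lit 320) .nil))))))) (.g (nat_lit 0) .nil .nil)))))))) 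
(.nd (nat_lit 1) (.nd (nat_lit 2) (.nd (nat_lit 3) (.nd (nat_lit 4) (.nd (nat_lit 5) 
(.lf (nat_lit 17473) (.g (nat_lit 3010) (.e (nat_lit 1170) (nat_lit 87) (.e (nat_lit 57480) (nat_lit 28) (.e (nat_lit 557108) (nat_lit 15) (.e (nat_lit 188452) (nat_lit 23) (.e (nat_lit 204874) (nat_lit 30) .nil))))) .nil)) 
(.lf (nat_lit 17505) (.g (nat_lit 3505) (.e (nat_lit 1170) (nat_lit 87) (.e (nat_lit 57480) (nat_lit 28) (.e (nat_lit 557109) (nat_lit 15) (.e (nat_lit 188450) (nat_lit 23) (.e (nat_lit 204872) (nat_lit 30) (.e (nat_lit 368662) (nat_lit 18) (.e (nat_lit 5906) (nat_lit 320) .nil))))))) (.g (nat_lit 4) .nil .nil)))) (.nd (nat_lit 5) 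
(.lf (nat_lit 17489) (.g (nat_lit 4082) (.e (nat_lit 1170) (nat_lit 87) (.e (nat_lit 57480) (nat_lit 28) (.e (nat_lit 557109) (nat_lit 15) (.e (nat_lit 188449) (nat_lit 22) (.e (nat_lit 196666) (nat_lit 13) (.e (nat_lit 65565) (nat_lit 1) (.e (nat_lit 57873) (nat_lit 264) .nil))))))) (.g (nat_lit 0) .nil .nil))) 
(.lf (nat_lit 17521) (.g (nat_lit 4651) (.e (nat_lit 1170) (nat_lit 87) (.e (nat_lit 57480) (nat_lit 28) (.e (nat_lit 557109) (nat_lit 15) (.e (nat_lit 188452) (nat_lit 23) (.e (nat_lit 204856) (nat_lit 26) (.e (nat_lit 335997) (nat_lit 1) (.e (nat_lit 57872) (nat_lit 264) .nil))))))) (.g (nat_lit 7) .nil .nil))))) (.nd (nat_lit 4) (.nd (nat_lit 5) 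
(.lf (nat_lit 17481) (.g (nat_lit 4368) (.e (nat_lit 1170) (nat_lit 87) (.e (nat_lit 57480) (nat_lit 28) (.e (nat_lit 557109) (nat_lit 15) (.e (nat_lit 188449) (nat_lit 22) (.e (nat_lit 196622) (nat_lit 9) .nil))))) .nil)) 
(.lf (nat_lit 17513) (.g (nat_lit 2616) (.e (nat_lit 1170) (nat_lit 87) (.e (nat_lit 57480) (nat_lit 28) (.e (nat_lit 557109) (nat_lit 15) (.e (nat_lit 188452) (nat_lit 23) (.e (nat_lit 204852) (nat_lit 26) .nil))))) .nil))) (.nd (nat_lit 5) 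
(.lf (nat_lit 17497) (.g (nat_lit 3166) (.e (nat_lit 1170) (nat_lit 87) (.e (nat_lit 57480) (nat_lit 28) (.e (nat_lit 557109) (nat_lit 15) (.e (nat_lit 188450) (nat_lit 23) (.e (nat_lit 204855) (nat_lit 26) .nil))))) .nil)) 
(.lf (nat_lit 17529) (.g (nat_lit 4551) (.e (nat_lit 1170) (nat_lit 87) (.e (nat_lit 57480) (nat_lit 28) (.e (nat_lit 557109) (nat_lit 15) (.e (nat_lit 188452) (nat_lit 23) (.e (nat_lit 204862) (nat_lit 27) (.e (nat_lit 344097) (nat_lit 18) (.e (nat_lit 5905) (nat_lit 320) .nil))))))) (.g (nat_lit 0) .nil .nil)))))) (.nd (nat_lit 3) (.nd (nat_lit 4) (.nd (nat_lit 5) 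
(.lf (nat_lit 17477) (.g (nat_lit 3317) (.e (nat_lit 1170) (nat_lit 87) (.e (nat_lit 57480) (nat_lit 28) (.e (nat_lit 557109) (nat_lit 15) (.e (nat_lit 188447) (nat_lit 22) (.e (nat_lit 196666) (nat_lit 13) (.e (nat_lit 65546) (nat_lit 0) (.e (nat_lit 1023) (nat_lit 81) (.e (nat_lit 5906) (nat_lit 320) .nil)))))))) (.g (nat_lit 4) .nil .nil))) 
(.lf (nat_lit 17509) (.g (nat_lit 4211) (.e (nat_lit 1170) (nat_lit 87) (.e (nat_lit 57480) (nat_lit 28) (.e (nat_lit 557109) (nat_lit 15) (.e (nat_lit 188452) (nat_lit 23) (.e (nat_lit 204817) (nat_lit 17) (.e (nat_lit 7936) (nat_lit 343) (.e (nat_lit 1181) (nat_lit 87) (.e (nat_lit 57872) (nat_lit 264) .nil)))))))) (.g (nat_lit 5) .nil .nil)))) (.nd (nat_lit 5) 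
(.lf (nat_lit 17493) (.g (nat_lit 5472) (.e (nat_lit 1170) (nat_lit 87) (.e (nat_lit 57480) (nat_lit 28) (.e (nat_lit 557109) (nat_lit 15) (.e (nat_lit 188449) (nat_lit 22) (.e (nat_lit 196681) (nat_lit 17) (.e (nat_lit 131088) (nat_lit 1) (.e (nat_lit 57870) (nat_lit 264) .nil))))))) (.g (nat_lit 6) .nil .nil))) 
(.lf (nat_lit 17525) (.g (nat_lit 4408) (.e (nat_lit 1170) (nat_lit 87) (.e (nat_lit 57480) (nat_lit 28) (.e (nat_lit 557109) (nat_lit 15) (.e (nat_lit 188452) (nat_lit 23) (.e (nat_lit 204858) (nat_lit 26) (.e (nat_lit 335997) (nat_lit 1) (.e (nat_lit 57872) (nat_lit 264) .nil))))))) (.g (nat_lit 4) .nil .nil))))) (.nd (nat_lit 4) (.nd (nat_lit 5) 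
(.lf (nat_lit 17485) (.g (nat_lit 3774) (.e (nat_lit 1170) (nat_lit 87) (.e (nat_lit 57480) (nat_lit 28) (.e (nat_lit 557109) (nat_lit 15) (.e (nat_lit 188449) (nat_lit 22) (.e (nat_lit 196666) (nat_lit 13) (.e (nat_lit 65563) (nat_lit 1) (.e (nat_lit 57870) (nat_lit 264) .nil))))))) (.g (nat_lit 0) .nil .nil))) 
(.lf (nat_lit 17517) (.g (nat_lit 4054) (.e (nat_lit 1170) (nat_lit 87) (.e (nat_lit 57480) (nat_lit 28) (.e (nat_lit 557109) (nat_lit 15) (.e (nat_lit 188452) (nat_lit 23) (.e (nat_lit 204855) (nat_lit 26) (.e (nat_lit 335985) (nat_lit 1) (.e (nat_lit 57873) (nat_lit 264) .nil))))))) (.g (nat_lit 0) .nil .nil)))) (.nd (nat_lit 5) 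
(.lf (nat_lit 17501) (.g (nat_lit 3448) (.e (nat_lit 1170) (nat_lit 87) (.e (nat_lit 57480) (nat_lit 28) (.e (nat_lit 557109) (nat_lit 15) (.e (nat_lit 188450) (nat_lit 23) (.e (nat_lit 204861) (nat_lit 26) (.e (nat_lit 335995) (nat_lit 1) (.e (nat_lit 57870) (nat_lit 264) .nil))))))) (.g (nat_lit 4) .nil .nil))) 
(.lf (nat_lit 17533) (.g (nat_lit 4722) (.e (nat_lit 1170) (nat_lit 87) (.e (nat_lit 57480) (nat_lit 28) (.e (nat_lit 557109) (nat_lit 15) (.e (nat_lit 188452) (nat_lit 23) (.e (nat_lit 204863) (nat_lit 27) (.e (nat_lit 344097) (nat_lit 18) (.e (nat_lit 5905) (nat_lit 320) .nil))))))) (.g (nat_lit 0) .nil .nil))))))) (.nd (nat_lit 2) (.nd (nat_lit 3) (.nd (nat_lit 4) (.nd (nat_lit 5) 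
(.lf (nat_lit 17475) (.g (nat_lit 2740) (.e (nat_lit 1170) (nat_lit 87) (.e (nat_lit 57480) (nat_lit 28) (.e (nat_lit 557109) (nat_lit 15) (.e (nat_lit 188434) (nat_lit 20) (.e (nat_lit 3272) (nat_lit 199) (.e (nat_lit 548913) (nat_lit 18) (.e (nat_lit 172061) (nat_lit 1) (.e (nat_lit 164422) (nat_lit 272) .nil)))))))) (.g (nat_lit 4) .nil .nil))) 
(.lf (nat_lit 17507) (.g (nat_lit 3482) (.e (nat_lit 1170) (nat_lit 87) (.e (nat_lit 57480) (nat_lit 28) (.e (nat_lit 557109) (nat_lit 15) (.e (nat_lit 188450) (nat_lit 23) (.e (nat_lit 204873) (nat_lit 30) (.e (nat_lit 368662) (nat_lit 18) (.e (nat_lit 5906) (nat_lit 320) .nil))))))) (.g (nat_lit 4) .nil .nil)))) (.nd (nat_lit 5) 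
(.lf (nat_lit 17491) (.g (nat_lit 4419) (.e (nat_lit 1170) (nat_lit 87) (.e (nat_lit 57480) (nat_lit 28) (.e (nat_lit 557109) (nat_lit 15) (.e (nat_lit 188449) (nat_lit 22) (.e (nat_lit 196670) (nat_lit 14) (.e (nat_lit 73732) (nat_lit 0) (.e (nat_lit 5906) (nat_lit 320) .nil))))))) (.g (nat_lit 6) .nil .nil))) 
(.lf (nat_lit 17523) (.g (nat_lit 4288) (.e (nat_lit 1170) (nat_lit 87) (.e (nat_lit 57480) (nat_lit 28) (.e (nat_lit 557109) (nat_lit 15) (.e (nat_lit 188452) (nat_lit 23) (.e (nat_lit 204858) (nat_lit 26) .nil))))) .nil)))) (.nd (nat_lit 4) (.nd (nat_lit 5) 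
(.lf (nat_lit 17483) (.g (nat_lit 3012) (.e (nat_lit 1170) (nat_lit 87) (.e (nat_lit 57480) (nat_lit 28) (.e (nat_lit 557109) (nat_lit 15) (.e (nat_lit 188449) (nat_lit 22) (.e (nat_lit 196666) (nat_lit 13) (.e (nat_lit 65546) (nat_lit 0) (.e (nat_lit 1023) (nat_lit 81) (.e (nat_lit 5907) (nat_lit 320) .nil)))))))) (.g (nat_lit 5) .nil .nil))) 
(.lf (nat_lit 17515) (.g (nat_lit 3768) (.e (nat_lit 1170) (nat_lit 87) (.e (nat_lit 57480) (nat_lit 28) (.e (nat_lit 557109) (nat_lit 15) (.e (nat_lit 188452) (nat_lit 23) (.e (nat_lit 204855) (nat_lit 26) (.e (nat_lit 335985) (nat_lit 1) (.e (nat_lit 57870) (nat_lit 264) .nil))))))) (.g (nat_lit 0) .nil .nil)))) (.nd (nat_lit 5) 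
(.lf (nat_lit 17499) (.g (nat_lit 3386) (.e (nat_lit 1170) (nat_lit 87) (.e (nat_lit 57480) (nat_lit 28) (.e (nat_lit 557109) (nat_lit 15) (.e (nat_lit 188450) (nat_lit 23) (.e (nat_lit 204860) (nat_lit 26) .nil))))) .nil)) 
(.lf (nat_lit 17531) (.g (nat_lit 4607) (.e (nat_lit 1170) (nat_lit 87) (.e (nat_lit 57480) (nat_lit 28) (.e (nat_lit 557109) (nat_lit 15) (.e (nat_lit 188452) (nat_lit 23) (.e (nat_lit 204862) (nat_lit 27) (.e (nat_lit 344097) (nat_lit 18) (.e (nat_lit 5907) (nat_lit 320) .nil))))))) (.g (nat_lit 0) .nil .nil)))))) (.nd (nat_lit 3) (.nd (nat_lit 4) (.nd (nat_lit 5) 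
(.lf (nat_lit 17479) (.g (nat_lit 3639) (.e (nat_lit 1170) (nat_lit 87) (.e (nat_lit 57480) (nat_lit 28) (.e (nat_lit 557109) (nat_lit 15) (.e (nat_lit 188447) (nat_lit 22) (.e (nat_lit 196670) (nat_lit 14) .nil))))) .nil)) 
(.lf (nat_lit 17511) (.g (nat_lit 3695) (.e (nat_lit 1170) (nat_lit 87) (.e (nat_lit 57480) (nat_lit 28) (.e (nat_lit 557109) (nat_lit 15) (.e (nat_lit 188452) (nat_lit 23) (.e (nat_lit 204850) (nat_lit 26) (.e (nat_lit 335997) (nat_lit 1) (.e (nat_lit 57871) (nat_lit 264) .nil))))))) (.g (nat_lit 0) .nil .nil)))) (.nd (nat_lit 5) 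
(.lf (nat_lit 17495) (.g (nat_lit 5917) (.e (nat_lit 1170) (nat_lit 87) (.e (nat_lit 57480) (nat_lit 28) (.e (nat_lit 557109) (nat_lit 15) (.e (nat_lit 188449) (nat_lit 22) (.e (nat_lit 196681) (nat_lit 17) (.e (nat_lit 131089) (nat_lit 1) (.e (nat_lit 57870) (nat_lit 264) .nil))))))) (.g (nat_lit 7) .nil .nil))) 
(.lf (nat_lit 17527) (.g (nat_lit 3060) (.e (nat_lit 1170) (nat_lit 87) (.e (nat_lit 57480) (nat_lit 28) (.e (nat_lit 557109) (nat_lit 15) (.e (nat_lit 188452) (nat_lit 23) (.e (nat_lit 212736) (nat_lit 26) .nil))))) .nil)))) (.nd (nat_lit 4) (.nd (nat_lit 5) 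
(.lf (nat_lit 17487) (.g (nat_lit 3790) (.e (nat_lit 1170) (nat_lit 87) (.e (nat_lit 57480) (nat_lit 28) (.e (nat_lit 557109) (nat_lit 15) (.e (nat_lit 188449) (nat_lit 22) (.e (nat_lit 196666) (nat_lit 13) (.e (nat_lit 65565) (nat_lit 1) (.e (nat_lit 57870) (nat_lit 264) .nil))))))) (.g (nat_lit 0) .nil .nil))) 
(.lf (nat_lit 17519) (.g (nat_lit 4543) (.e (nat_lit 1170) (nat_lit 87) (.e (nat_lit 57480) (nat_lit 28) (.e (nat_lit 557109) (nat_lit 15) (.e (nat_lit 188452) (nat_lit 23) (.e (nat_lit 204856) (nat_lit 26) (.e (nat_lit 335997) (nat_lit 1) (.e (nat_lit 57870) (nat_lit 264) .nil))))))) (.g (nat_lit 7) .nil .nil)))) (.nd (nat_lit 5) 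
(.lf (nat_lit 17503) (.g (nat_lit 5079) (.e (nat_lit 1170) (nat_lit 87) (.e (nat_lit 57480) (nat_lit 28) (.e (nat_lit 557109) (nat_lit 15) (.e (nat_lit 188450) (nat_lit 23) (.e (nat_lit 204863) (nat_lit 27) (.e (nat_lit 344097) (nat_lit 18) (.e (nat_lit 5907) (nat_lit 320) .nil))))))) (.g (nat_lit 6) .nil .nil))) 
(.lf (nat_lit 17535) (.g (nat_lit 4750) (.e (nat_lit 1170) (nat_lit 87) (.e (nat_lit 57480) (nat_lit 28) (.e (nat_lit 557109) (nat_lit 15) (.e (nat_lit 188452) (nat_lit 23) (.e (nat_lit 204863) (nat_lit 27) (.e (nat_lit 344097) (nat_lit 18) (.e (nat_lit 5907) (nat_lit 320) .nil))))))) (.g (nat_lit 0) .nil .nil)))))))))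

noncomputable def tv239 : DT := (.nd (nat_lit 0) (.nd (nat_lit 1) (.nd (nat_lit 2) (.nd (nat_lit 3) (.nd (nat_lit 4) (.nd (nat_lit 5) 
(.lf (nat_lit 17536) (.g (nat_lit 5043) (.e (nat_lit 1170) (nat_lit 87) (.e (nat_lit 57480) (nat_lit 28) (.e (nat_lit 557109) (nat_lit 15) (.e (nat_lit 188452) (nat_lit 23) (.e (nat_lit 204864) (nat_lit 27) (.e (nat_lit 344097) (nat_lit 18) (.e (nat_lit 5906) (nat_lit 320) .nil))))))) (.g (nat_lit 7) .nil .nil))) 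
(.lf (nat_lit 17568) (.g (nat_lit 3796) (.e (nat_lit 1170) (nat_lit 87) (.e (nat_lit 57521) (nat_lit 44) (.e (nat_lit 688177) (nat_lit 16) (.e (nat_lit 65583) (nat_lit 7) (.e (nat_lit 319534) (nat_lit 16) (.e (nat_lit 286749) (nat_lit 9) (.e (nat_lit 335997) (nat_lit 1) (.e (nat_lit 57872) (nat_lit 264) .nil)))))))) (.g (nat_lit 6) .nil .nil)))) (.nd (nat_lit 5) 
(.lf (nat_lit 17552) (.g (nat_lit 2028) (.e (nat_lit 1170) (nat_lit 87) (.e (nat_lit 57521) (nat_lit 44) (.e (nat_lit 688177) (nat_lit 16) (.e (nat_lit 65581) (nat_lit 7) (.e (nat_lit 319533) (nat_lit 16) (.e (nat_lit 286753) (nat_lit 10) (.e (nat_lit 344097) (nat_lit 18) (.e (nat_lit 5905) (nat_lit 320) .nil)))))))) (.g (nat_lit 5) .nil .nil))) 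
(.lf (nat_lit 17584) (.g (nat_lit 1795) (.e (nat_lit 1170) (nat_lit 87) (.e (nat_lit 57847) (nat_lit 252) (.e (nat_lit 57407) (nat_lit 12) (.e (nat_lit 336454) (nat_lit 34) .nil)))) .nil)))) (.nd (nat_lit 4) (.nd (nat_lit 5) 
(.lf (nat_lit 17544) (.g (nat_lit 4636) (.e (nat_lit 1170) (nat_lit 87) (.e (nat_lit 57480) (nat_lit 28) (.e (nat_lit 557109) (nat_lit 15) (.e (nat_lit 188452) (nat_lit 23) (.e (nat_lit 204874) (nat_lit 30) (.e (nat_lit 368662) (nat_lit 18) (.e (nat_lit 5905) (nat_lit 320) .nil))))))) (.g (nat_lit 6) .nil .nil))) 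
(.lf (nat_lit 17576) (.g (nat_lit 3767) (.e (nat_lit 1170) (nat_lit 87) (.e (nat_lit 57521) (nat_lit 44) (.e (nat_lit 688177) (nat_lit 16) (.e (nat_lit 65586) (nat_lit 7) (.e (nat_lit 319534) (nat_lit 16) (.e (nat_lit 286749) (nat_lit 9) (.e (nat_lit 335997) (nat_lit 1) (.e (nat_lit 57871) (nat_lit 264) .nil)))))))) (.g (nat_lit 8) .nil .nil)))) (.nd (nat_lit 5) 
(.lf (nat_lit 17560) (.g (nat_lit 4411) (.e (nat_lit 1170) (nat_lit 87) (.e (nat_lit 57521) (nat_lit 44) (.e (nat_lit 688177) (nat_lit 16) (.e (nat_lit 65583) (nat_lit 7) (.e (nat_lit 319530) (nat_lit 16) (.e (nat_lit 286749) (nat_lit 9) (.e (nat_lit 335997) (nat_lit 1) (.e (nat_lit 57870) (nat_lit 264) .nil)))))))) (.g (nat_lit 8) .nil .nil))) 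
(.lf (nat_lit 17592) (.g (nat_lit 1540) (.e (nat_lit 1170) (nat_lit 87) (.e (nat_lit 57847) (nat_lit 252) (.e (nat_lit 57410) (nat_lit 12) (.e (nat_lit 336211) (nat_lit 13) (.e (nat_lit 393291) (nat_lit 26) (.e (nat_lit 475201) (nat_lit 40) (.e (nat_lit 704657) (nat_lit 9) .nil))))))) (.g (nat_lit 5) .nil .nil)))))) (.nd (nat_lit 3) (.nd (nat_lit 4) (.nd (nat_lit 5) 
(.lf (nat_lit 17540) (.g (nat_lit 2861) (.e (nat_lit 1170) (nat_lit 87) (.e (nat_lit 57480) (nat_lit 28) (.e (nat_lit 557109) (nat_lit 15) (.e (nat_lit 188452) (nat_lit 23) (.e (nat_lit 204873) (nat_lit 30) .nil))))) .nil)) 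
(.lf (nat_lit 17572) (.g (nat_lit 3358) (.e (nat_lit 1170) (nat_lit 87) (.e (nat_lit 57521) (nat_lit 44) (.e (nat_lit 688177) (nat_lit 16) (.e (nat_lit 65586) (nat_lit 7) (.e (nat_lit 319531) (nat_lit 16) (.e (nat_lit 286748) (nat_lit 9) (.e (nat_lit 335997) (nat_lit 1) (.e (nat_lit 57872) (nat_lit 264) .nil)))))))) (.g (nat_lit 8) .nil .nil)))) (.nd (nat_lit 5) 
(.lf (nat_lit 17556) (.g (nat_lit 3346) (.e (nat_lit 1170) (nat_lit 87) (.e (nat_lit 57521) (nat_lit 44) (.e (nat_lit 688177) (nat_lit 16) (.e (nat_lit 65583) (nat_lit 7) (.e (nat_lit 319530) (nat_lit 16) (.e (nat_lit 286747) (nat_lit 9) (.e (nat_lit 335997) (nat_lit 1) (.e (nat_lit 57870) (nat_lit 264) .nil)))))))) (.g (nat_lit 7) .nil .nil))) 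
(.lf (nat_lit 17588) (.g (nat_lit 1563) (.e (nat_lit 1170) (nat_lit 87) (.e (nat_lit 57847) (nat_lit 252) (.e (nat_lit 57410) (nat_lit 12) (.e (nat_lit 336211) (nat_lit 13) (.e (nat_lit 393291) (nat_lit 26) (.e (nat_lit 475201) (nat_lit 40) (.e (nat_lit 704652) (nat_lit 9) .nil))))))) (.g (nat_lit 5) .nil .nil))))) (.nd (nat_lit 4) (.nd (nat_lit 5) 
(.lf (nat_lit 17548) (.g (nat_lit 3420) (.e (nat_lit 1170) (nat_lit 87) (.e (nat_lit 57480) (nat_lit 28) (.e (nat_lit 557109) (nat_lit 15) (.e (nat_lit 188458) (nat_lit 25) (.e (nat_lit 245791) (nat_lit 14) .nil))))) .nil)) 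
(.lf (nat_lit 17580) (.g (nat_lit 1842) (.e (nat_lit 1170) (nat_lit 87) (.e (nat_lit 57847) (nat_lit 252) (.e (nat_lit 57372) (nat_lit 2) (.e (nat_lit 90128) (nat_lit 9) (.e (nat_lit 297) (nat_lit 22) .nil))))) .nil))) (.nd (nat_lit 5) 
(.lf (nat_lit 17564) (.g (nat_lit 2454) (.e (nat_lit 1170) (nat_lit 87) (.e (nat_lit 57521) (nat_lit 44) (.e (nat_lit 688177) (nat_lit 16) (.e (nat_lit 65583) (nat_lit 7) (.e (nat_lit 319530) (nat_lit 16) (.e (nat_lit 286755) (nat_lit 10) (.e (nat_lit 344097) (nat_lit 18) (.e (nat_lit 5906) (nat_lit 320) .nil)))))))) (.g (nat_lit 5) .nil .nil))) 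
(.lf (nat_lit 17596) (.g (nat_lit 2037) (.e (nat_lit 1170) (nat_lit 87) (.e (nat_lit 57847) (nat_lit 252) (.e (nat_lit 57410) (nat_lit 12) (.e (nat_lit 336211) (nat_lit 13) (.e (nat_lit 393291) (nat_lit 26) (.e (nat_lit 475201) (nat_lit 40) (.e (nat_lit 704662) (nat_lit 9) .nil))))))) (.g (nat_lit 6) .nil .nil))))))) (.nd (nat_lit 2) (.nd (nat_lit 3) (.nd (nat_lit 4) (.nd (nat_lit 5) 
(.lf (nat_lit 17538) (.g (nat_lit 4050) (.e (nat_lit 1170) (nat_lit 87) (.e (nat_lit 57480) (nat_lit 28) (.e (nat_lit 557109) (nat_lit 15) (.e (nat_lit 188452) (nat_lit 23) (.e (nat_lit 204872) (nat_lit 30) (.e (nat_lit 368662) (nat_lit 18) (.e (nat_lit 5906) (nat_lit 320) .nil))))))) (.g (nat_lit 7) .nil .nil))) 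
(.lf (nat_lit 17570) (.g (nat_lit 3172) (.e (nat_lit 1170) (nat_lit 87) (.e (nat_lit 57521) (nat_lit 44) (.e (nat_lit 688177) (nat_lit 16) (.e (nat_lit 65586) (nat_lit 7) (.e (nat_lit 319531) (nat_lit 16) (.e (nat_lit 286748) (nat_lit 9) (.e (nat_lit 335997) (nat_lit 1) (.e (nat_lit 57870) (nat_lit 264) .nil)))))))) (.g (nat_lit 8) .nil .nil)))) (.nd (nat_lit 5) 
(.lf (nat_lit 17554) (.g (nat_lit 3322) (.e (nat_lit 1170) (nat_lit 87) (.e (nat_lit 57521) (nat_lit 44) (.e (nat_lit 688177) (nat_lit 16) (.e (nat_lit 65581) (nat_lit 7) (.e (nat_lit 319534) (nat_lit 16) (.e (nat_lit 286756) (nat_lit 10) (.e (nat_lit 344097) (nat_lit 18) (.e (nat_lit 5905) (nat_lit 320) .nil)))))))) (.g (nat_lit 6) .nil .nil))) 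
(.lf (nat_lit 17586) (.g (nat_lit 2222) (.e (nat_lit 1170) (nat_lit 87) (.e (nat_lit 57847) (nat_lit 252) (.e (nat_lit 57410) (nat_lit 12) (.e (nat_lit 336211) (nat_lit 13) (.e (nat_lit 393268) (nat_lit 23) (.e (nat_lit 426440) (nat_lit 19) (.e (nat_lit 106514) (nat_lit 9) .nil))))))) (.g (nat_lit 5) .nil .nil))))) (.nd (nat_lit 4) (.nd (nat_lit 5) 
(.lf (nat_lit 17546) (.g (nat_lit 3513) (.e (nat_lit 1170) (nat_lit 87) (.e (nat_lit 57480) (nat_lit 28) (.e (nat_lit 557109) (nat_lit 15) (.e (nat_lit 188458) (nat_lit 25) (.e (nat_lit 245782) (nat_lit 9) .nil))))) .nil)) 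
(.lf (nat_lit 17578) (.g (nat_lit 1997) (.e (nat_lit 1170) (nat_lit 87) (.e (nat_lit 57521) (nat_lit 44) (.e (nat_lit 688178) (nat_lit 16) (.e (nat_lit 65581) (nat_lit 7) (.e (nat_lit 319533) (nat_lit 16) (.e (nat_lit 286753) (nat_lit 10) (.e (nat_lit 344097) (nat_lit 18) (.e (nat_lit 5907) (nat_lit 320) .nil)))))))) (.g (nat_lit 6) .nil .nil)))) (.nd (nat_lit 5) 
(.lf (nat_lit 17562) (.g (nat_lit 4428) (.e (nat_lit 1170) (nat_lit 87) (.e (nat_lit 57521) (nat_lit 44) (.e (nat_lit 688177) (nat_lit 16) (.e (nat_lit 65583) (nat_lit 7) (.e (nat_lit 319530) (nat_lit 16) (.e (nat_lit 286749) (nat_lit 9) (.e (nat_lit 335997) (nat_lit 1) (.e (nat_lit 57872) (nat_lit 264) .nil)))))))) (.g (nat_lit 8) .nil .nil))) 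
(.lf (nat_lit 17594) (.g (nat_lit 1557) (.e (nat_lit 1170) (nat_lit 87) (.e (nat_lit 57847) (nat_lit 252) (.e (nat_lit 57410) (nat_lit 12) (.e (nat_lit 336211) (nat_lit 13) (.e (nat_lit 393291) (nat_lit 26) (.e (nat_lit 475201) (nat_lit 40) (.e (nat_lit 704659) (nat_lit 9) .nil))))))) (.g (nat_lit 5) .nil .nil)))))) (.nd (nat_lit 3) (.nd (nat_lit 4) (.nd (nat_lit 5) 
(.lf (nat_lit 17542) (.g (nat_lit 4424) (.e (nat_lit 1170) (nat_lit 87) (.e (nat_lit 57480) (nat_lit 28) (.e (nat_lit 557109) (nat_lit 15) (.e (nat_lit 188452) (nat_lit 23) (.e (nat_lit 204873) (nat_lit 30) (.e (nat_lit 368662) (nat_lit 18) (.e (nat_lit 5907) (nat_lit 320) .nil))))))) (.g (nat_lit 7) .nil .nil))) 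
(.lf (nat_lit 17574) (.g (nat_lit 4093) (.e (nat_lit 1170) (nat_lit 87) (.e (nat_lit 57521) (nat_lit 44) (.e (nat_lit 688177) (nat_lit 16) (.e (nat_lit 65586) (nat_lit 7) (.e (nat_lit 319531) (nat_lit 16) (.e (nat_lit 286749) (nat_lit 9) (.e (nat_lit 335997) (nat_lit 1) (.e (nat_lit 57872) (nat_lit 264) .nil)))))))) (.g (nat_lit 8) .nil .nil)))) (.nd (nat_lit 5) 
(.lf (nat_lit 17558) (.g (nat_lit 3519) (.e (nat_lit 1170) (nat_lit 87) (.e (nat_lit 57521) (nat_lit 44) (.e (nat_lit 688177) (nat_lit 16) (.e (nat_lit 65583) (nat_lit 7) (.e (nat_lit 319530) (nat_lit 16) (.e (nat_lit 286748) (nat_lit 9) (.e (nat_lit 335997) (nat_lit 1) (.e (nat_lit 57871) (nat_lit 264) .nil)))))))) (.g (nat_lit 8) .nil .nil))) 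
(.lf (nat_lit 17590) (.g (nat_lit 1509) (.e (nat_lit 1170) (nat_lit 87) (.e (nat_lit 57847) (nat_lit 252) (.e (nat_lit 57410) (nat_lit 12) (.e (nat_lit 336211) (nat_lit 13) (.e (nat_lit 393291) (nat_lit 26) (.e (nat_lit 475201) (nat_lit 40) (.e (nat_lit 704655) (nat_lit 9) .nil))))))) (.g (nat_lit 5) .nil .nil))))) (.nd (nat_lit 4) (.nd (nat_lit 5) 
(.lf (nat_lit 17550) (.g (nat_lit 3480) (.e (nat_lit 1170) (nat_lit 87) (.e (nat_lit 57480) (nat_lit 28) (.e (nat_lit 557109) (nat_lit 15) (.e (nat_lit 188458) (nat_lit 25) (.e (nat_lit 245794) (nat_lit 17) .nil))))) .nil)) 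
(.lf (nat_lit 17582) (.g (nat_lit 3027) (.e (nat_lit 1170) (nat_lit 87) (.e (nat_lit 57847) (nat_lit 252) (.e (nat_lit 57377) (nat_lit 3) (.e (nat_lit 98317) (nat_lit 9) (.e (nat_lit 336027) (nat_lit 3) .nil))))) .nil))) (.nd (nat_lit 5) 
(.lf (nat_lit 17566) (.g (nat_lit 3695) (.e (nat_lit 1170) (nat_lit 87) (.e (nat_lit 57521) (nat_lit 44) (.e (nat_lit 688177) (nat_lit 16) (.e (nat_lit 65583) (nat_lit 7) (.e (nat_lit 319533) (nat_lit 16) (.e (nat_lit 286753) (nat_lit 10) (.e (nat_lit 344097) (nat_lit 18) (.e (nat_lit 5905) (nat_lit 320) .nil)))))))) (.g (nat_lit 7) .nil .nil))) 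
(.lf (nat_lit 17598) (.g (nat_lit 1451) (.e (nat_lit 1170) (nat_lit 87) (.e (nat_lit 57847) (nat_lit 252) (.e (nat_lit 57410) (nat_lit 12) (.e (nat_lit 336211) (nat_lit 13) (.e (nat_lit 393291) (nat_lit 26) (.e (nat_lit 475201) (nat_lit 40) (.e (nat_lit 704671) (nat_lit 9) .nil))))))) (.g (nat_lit 5) .nil .nil)))))))) 
(.nd (nat_lit 1) (.nd (nat_lit 2) (.nd (nat_lit 3) (.nd (nat_lit 4) (.nd (nat_lit 5) 
(.lf (nat_lit 17537) (.g (nat_lit 5257) (.e (nat_lit 1170) (nat_lit 87) (.e (nat_lit 57480) (nat_lit 28) (.e (nat_lit 557109) (nat_lit 15) (.e (nat_lit 188452) (nat_lit 23) (.e (nat_lit 204864) (nat_lit 27) (.e (nat_lit 344097) (nat_lit 18) (.e (nat_lit 5907) (nat_lit 320) .nil))))))) (.g (nat_lit 7) .nil .nil))) 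
(.lf (nat_lit 17569) (.g (nat_lit 1587) (.e (nat_lit 1170) (nat_lit 87) (.e (nat_lit 57521) (nat_lit 44) (.e (nat_lit 688177) (nat_lit 16) (.e (nat_lit 65585) (nat_lit 7) (.e (nat_lit 319533) (nat_lit 16) (.e (nat_lit 286753) (nat_lit 10) (.e (nat_lit 344097) (nat_lit 18) (.e (nat_lit 5905) (nat_lit 320) .nil)))))))) (.g (nat_lit 4) .nil .nil)))) (.nd (nat_lit 5) 
(.lf (nat_lit 17553) (.g (nat_lit 2080) (.e (nat_lit 1170) (nat_lit 87) (.e (nat_lit 57521) (nat_lit 44) (.e (nat_lit 688177) (nat_lit 16) (.e (nat_lit 65581) (nat_lit 7) (.e (nat_lit 319533) (nat_lit 16) (.e (nat_lit 286753) (nat_lit 10) (.e (nat_lit 344097) (nat_lit 18) (.e (nat_lit 5906) (nat_lit 320) .nil)))))))) (.g (nat_lit 5) .nil .nil))) 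
(.lf (nat_lit 17585) (.g (nat_lit 755) (.e (nat_lit 1170) (nat_lit 87) (.e (nat_lit 57847) (nat_lit 252) (.e (nat_lit 57410) (nat_lit 12) (.e (nat_lit 336211) (nat_lit 13) .nil)))) .nil)))) (.nd (nat_lit 4) (.nd (nat_lit 5) 
(.lf (nat_lit 17545) (.g (nat_lit 4885) (.e (nat_lit 1170) (nat_lit 87) (.e (nat_lit 57480) (nat_lit 28) (.e (nat_lit 557109) (nat_lit 15) (.e (nat_lit 188452) (nat_lit 23) (.e (nat_lit 204874) (nat_lit 30) (.e (nat_lit 368662) (nat_lit 18) (.e (nat_lit 5907) (nat_lit 320) .nil))))))) (.g (nat_lit 7) .nil .nil))) 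
(.lf (nat_lit 17577) (.g (nat_lit 4377) (.e (nat_lit 1170) (nat_lit 87) (.e (nat_lit 57521) (nat_lit 44) (.e (nat_lit 688177) (nat_lit 16) (.e (nat_lit 65586) (nat_lit 7) (.e (nat_lit 319534) (nat_lit 16) (.e (nat_lit 286756) (nat_lit 10) (.e (nat_lit 344097) (nat_lit 18) (.e (nat_lit 5907) (nat_lit 320) .nil)))))))) (.g (nat_lit 0) .nil .nil)))) (.nd (nat_lit 5) 
(.lf (nat_lit 17561) (.g (nat_lit 4193) (.e (nat_lit 1170) (nat_lit 87) (.e (nat_lit 57521) (nat_lit 44) (.e (nat_lit 688177) (nat_lit 16) (.e (nat_lit 65583) (nat_lit 7) (.e (nat_lit 319530) (nat_lit 16) (.e (nat_lit 286749) (nat_lit 9) (.e (nat_lit 335997) (nat_lit 1) (.e (nat_lit 57871) (nat_lit 264) .nil)))))))) (.g (nat_lit 8) .nil .nil))) 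
(.lf (nat_lit 17593) (.g (nat_lit 1512) (.e (nat_lit 1170) (nat_lit 87) (.e (nat_lit 57847) (nat_lit 252) (.e (nat_lit 57410) (nat_lit 12) (.e (nat_lit 336211) (nat_lit 13) (.e (nat_lit 393291) (nat_lit 26) (.e (nat_lit 475201) (nat_lit 40) (.e (nat_lit 704658) (nat_lit 9) .nil))))))) (.g (nat_lit 5) .nil .nil)))))) (.nd (nat_lit 3) (.nd (nat_lit 4) (.nd (nat_lit 5) 
(.lf (nat_lit 17541) (.g (nat_lit 4613) (.e (nat_lit 1170) (nat_lit 87) (.e (nat_lit 57480) (nat_lit 28) (.e (nat_lit 557109) (nat_lit 15) (.e (nat_lit 188452) (nat_lit 23) (.e (nat_lit 204873) (nat_lit 30) (.e (nat_lit 368662) (nat_lit 18) (.e (nat_lit 5906) (nat_lit 320) .nil))))))) (.g (nat_lit 7) .nil .nil))) 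
(.lf (nat_lit 17573) (.g (nat_lit 4067) (.e (nat_lit 1170) (nat_lit 87) (.e (nat_lit 57521) (nat_lit 44) (.e (nat_lit 688177) (nat_lit 16) (.e (nat_lit 65586) (nat_lit 7) (.e (nat_lit 319531) (nat_lit 16) (.e (nat_lit 286749) (nat_lit 9) (.e (nat_lit 335997) (nat_lit 1) (.e (nat_lit 57870) (nat_lit 264) .nil)))))))) (.g (nat_lit 8) .nil .nil)))) (.nd (nat_lit 5) 
(.lf (nat_lit 17557) (.g (nat_lit 3454) (.e (nat_lit 1170) (nat_lit 87) (.e (nat_lit 57521) (nat_lit 44) (.e (nat_lit 688177) (nat_lit 16) (.e (nat_lit 65583) (nat_lit 7) (.e (nat_lit 319530) (nat_lit 16) (.e (nat_lit 286748) (nat_lit 9) (.e (nat_lit 335997) (nat_lit 1) (.e (nat_lit 57870) (nat_lit 264) .nil)))))))) (.g (nat_lit 8) .nil .nil))) 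
(.lf (nat_lit 17589) (.g (nat_lit 1581) (.e (nat_lit 1170) (nat_lit 87) (.e (nat_lit 57847) (nat_lit 252) (.e (nat_lit 57410) (nat_lit 12) (.e (nat_lit 336211) (nat_lit 13) (.e (nat_lit 393291) (nat_lit 26) (.e (nat_lit 475201) (nat_lit 40) (.e (nat_lit 704654) (nat_lit 9) .nil))))))) (.g (nat_lit 5) .nil .nil))))) (.nd (nat_lit 4) (.nd (nat_lit 5) 
(.lf (nat_lit 17549) (.g (nat_lit 3825) (.e (nat_lit 1170) (nat_lit 87) (.e (nat_lit 57480) (nat_lit 28) (.e (nat_lit 557109) (nat_lit 15) (.e (nat_lit 188458) (nat_lit 25) (.e (nat_lit 245791) (nat_lit 14) (.e (nat_lit 73733) (nat_lit 0) (.e (nat_lit 5907) (nat_lit 320) .nil))))))) (.g (nat_lit 5) .nil .nil))) 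
(.lf (nat_lit 17581) (.g (nat_lit 4718) (.e (nat_lit 1170) (nat_lit 87) (.e (nat_lit 57847) (nat_lit 252) (.e (nat_lit 57377) (nat_lit 3) (.e (nat_lit 98317) (nat_lit 9) (.e (nat_lit 336020) (nat_lit 3) .nil))))) .nil))) (.nd (nat_lit 5) 
(.lf (nat_lit 17565) (.g (nat_lit 4376) (.e (nat_lit 1170) (nat_lit 87) (.e (nat_lit 57521) (nat_lit 44) (.e (nat_lit 688177) (nat_lit 16) (.e (nat_lit 65583) (nat_lit 7) (.e (nat_lit 319530) (nat_lit 16) (.e (nat_lit 286759) (nat_lit 12) (.e (nat_lit 385045) (nat_lit 21) (.e (nat_lit 7450) (nat_lit 396) .nil)))))))) (.g (nat_lit 0) .nil .nil))) 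
(.lf (nat_lit 17597) (.g (nat_lit 1608) (.e (nat_lit 1170) (nat_lit 87) (.e (nat_lit 57847) (nat_lit 252) (.e (nat_lit 57410) (nat_lit 12) (.e (nat_lit 336211) (nat_lit 13) (.e (nat_lit 393291) (nat_lit 26) (.e (nat_lit 475201) (nat_lit 40) (.e (nat_lit 704670) (nat_lit 9) .nil))))))) (.g (nat_lit 5) .nil .nil))))))) (.nd (nat_lit 2) (.nd (nat_lit 3) (.nd (nat_lit 4) (.nd (nat_lit 5) 
(.lf (nat_lit 17539) (.g (nat_lit 3922) (.e (nat_lit 1170) (nat_lit 87) (.e (nat_lit 57480) (nat_lit 28) (.e (nat_lit 557109) (nat_lit 15) (.e (nat_lit 188452) (nat_lit 23) (.e (nat_lit 204872) (nat_lit 30) (.e (nat_lit 368662) (nat_lit 18) (.e (nat_lit 5907) (nat_lit 320) .nil))))))) (.g (nat_lit 0) .nil .nil))) 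
(.lf (nat_lit 17571) (.g (nat_lit 3247) (.e (nat_lit 1170) (nat_lit 87) (.e (nat_lit 57521) (nat_lit 44) (.e (nat_lit 688177) (nat_lit 16) (.e (nat_lit 65586) (nat_lit 7) (.e (nat_lit 319531) (nat_lit 16) (.e (nat_lit 286748) (nat_lit 9) (.e (nat_lit 335997) (nat_lit 1) (.e (nat_lit 57871) (nat_lit 264) .nil)))))))) (.g (nat_lit 8) .nil .nil)))) (.nd (nat_lit 5) 
(.lf (nat_lit 17555) (.g (nat_lit 1245) (.e (nat_lit 1170) (nat_lit 87) (.e (nat_lit 57521) (nat_lit 44) (.e (nat_lit 688177) (nat_lit 16) (.e (nat_lit 65583) (nat_lit 7) (.e (nat_lit 319530) (nat_lit 16) .nil))))) .nil)) 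
(.lf (nat_lit 17587) (.g (nat_lit 2441) (.e (nat_lit 1170) (nat_lit 87) (.e (nat_lit 57847) (nat_lit 252) (.e (nat_lit 57410) (nat_lit 12) (.e (nat_lit 336211) (nat_lit 13) (.e (nat_lit 393291) (nat_lit 26) (.e (nat_lit 475201) (nat_lit 40) (.e (nat_lit 704620) (nat_lit 9) .nil))))))) (.g (nat_lit 0) .nil .nil))))) (.nd (nat_lit 4) (.nd (nat_lit 5) 
(.lf (nat_lit 17547) (.g (nat_lit 3105) (.e (nat_lit 1170) (nat_lit 87) (.e (nat_lit 57480) (nat_lit 28) (.e (nat_lit 557109) (nat_lit 15) (.e (nat_lit 188458) (nat_lit 25) (.e (nat_lit 245784) (nat_lit 9) .nil))))) .nil)) 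
(.lf (nat_lit 17579) (.g (nat_lit 1928) (.e (nat_lit 1170) (nat_lit 87) (.e (nat_lit 57521) (nat_lit 44) (.e (nat_lit 688178) (nat_lit 16) (.e (nat_lit 65585) (nat_lit 7) (.e (nat_lit 319533) (nat_lit 16) (.e (nat_lit 286753) (nat_lit 10) (.e (nat_lit 344097) (nat_lit 18) (.e (nat_lit 5905) (nat_lit 320) .nil)))))))) (.g (nat_lit 5) .nil .nil)))) (.nd (nat_lit 5) 
(.lf (nat_lit 17563) (.g (nat_lit 2402) (.e (nat_lit 1170) (nat_lit 87) (.e (nat_lit 57521) (nat_lit 44) (.e (nat_lit 688177) (nat_lit 16) (.e (nat_lit 65583) (nat_lit 7) (.e (nat_lit 319530) (nat_lit 16) (.e (nat_lit 286755) (nat_lit 10) (.e (nat_lit 344097) (nat_lit 18) (.e (nat_lit 5905) (nat_lit 320) .nil)))))))) (.g (nat_lit 5) .nil .nil))) 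
(.lf (nat_lit 17595) (.g (nat_lit 1534) (.e (nat_lit 1170) (nat_lit 87) (.e (nat_lit 57847) (nat_lit 252) (.e (nat_lit 57410) (nat_lit 12) (.e (nat_lit 336211) (nat_lit 13) (.e (nat_lit 393291) (nat_lit 26) (.e (nat_lit 475201) (nat_lit 40) (.e (nat_lit 704661) (nat_lit 9) .nil))))))) (.g (nat_lit 5) .nil .nil)))))) (.nd (nat_lit 3) (.nd (nat_lit 4) (.nd (nat_lit 5) 
(.lf (nat_lit 17543) (.g (nat_lit 3487) (.e (nat_lit 1170) (nat_lit 87) (.e (nat_lit 57480) (nat_lit 28) (.e (nat_lit 557109) (nat_lit 15) (.e (nat_lit 188452) (nat_lit 23) (.e (nat_lit 204874) (nat_lit 30) (.e (nat_lit 368662) (nat_lit 18) (.e (nat_lit 5902) (nat_lit 320) .nil))))))) (.g (nat_lit 4) .nil .nil))) 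
(.lf (nat_lit 17575) (.g (nat_lit 3136) (.e (nat_lit 1170) (nat_lit 87) (.e (nat_lit 57521) (nat_lit 44) (.e (nat_lit 688177) (nat_lit 16) (.e (nat_lit 65586) (nat_lit 7) (.e (nat_lit 319533) (nat_lit 16) (.e (nat_lit 286753) (nat_lit 10) (.e (nat_lit 344097) (nat_lit 18) (.e (nat_lit 5907) (nat_lit 320) .nil)))))))) (.g (nat_lit 8) .nil .nil)))) (.nd (nat_lit 5) 
(.lf (nat_lit 17559) (.g (nat_lit 3640) (.e (nat_lit 1170) (nat_lit 87) (.e (nat_lit 57521) (nat_lit 44) (.e (nat_lit 688177) (nat_lit 16) (.e (nat_lit 65583) (nat_lit 7) (.e (nat_lit 319530) (nat_lit 16) (.e (nat_lit 286748) (nat_lit 9) (.e (nat_lit 335997) (nat_lit 1) (.e (nat_lit 57872) (nat_lit 264) .nil)))))))) (.g (nat_lit 0) .nil .nil))) 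
(.lf (nat_lit 17591) (.g (nat_lit 1652) (.e (nat_lit 1170) (nat_lit 87) (.e (nat_lit 57847) (nat_lit 252) (.e (nat_lit 57410) (nat_lit 12) (.e (nat_lit 336211) (nat_lit 13) (.e (nat_lit 393291) (nat_lit 26) (.e (nat_lit 475201) (nat_lit 40) (.e (nat_lit 704656) (nat_lit 9) .nil))))))) (.g (nat_lit 5) .nil .nil))))) (.nd (nat_lit 4) (.nd (nat_lit 5) 
(.lf (nat_lit 17551) (.g (nat_lit 3519) (.e (nat_lit 1170) (nat_lit 87) (.e (nat_lit 57521) (nat_lit 44) (.e (nat_lit 688170) (nat_lit 15) (.e (nat_lit 57478) (nat_lit 28) (.e (nat_lit 557109) (nat_lit 15) (.e (nat_lit 188461) (nat_lit 26) (.e (nat_lit 253959) (nat_lit 9) (.e (nat_lit 1181) (nat_lit 87) (.e (nat_lit 57872) (nat_lit 264) .nil))))))))) (.g (nat_lit 6) .nil .nil))) 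
(.lf (nat_lit 17583) (.g (nat_lit 585) (.e (nat_lit 1170) (nat_lit 87) (.e (nat_lit 57847) (nat_lit 252) (.e (nat_lit 57407) (nat_lit 12) .nil))) .nil))) (.nd (nat_lit 5) 
(.lf (nat_lit 17567) (.g (nat_lit 3780) (.e (nat_lit 1170) (nat_lit 87) (.e (nat_lit 57521) (nat_lit 44) (.e (nat_lit 688177) (nat_lit 16) (.e (nat_lit 65583) (nat_lit 7) (.e (nat_lit 319534) (nat_lit 16) (.e (nat_lit 286749) (nat_lit 9) (.e (nat_lit 335997) (nat_lit 1) (.e (nat_lit 57870) (nat_lit 264) .nil)))))))) (.g (nat_lit 6) .nil .nil))) 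
(.lf (nat_lit 17599) (.g (nat_lit 1429) (.e (nat_lit 1170) (nat_lit 87) (.e (nat_lit 57847) (nat_lit 252) (.e (nat_lit 57411) (nat_lit 12) (.e (nat_lit 336211) (nat_lit 13) (.e (nat_lit 393268) (nat_lit 23) .nil))))) .nil))))))))

noncomputable def tv240 : DT := (.nd (nat_lit 0) (.nd (nat_lit 1) (.nd (nat_lit 2) (.nd (nat_lit 3) (.nd (nat_lit 4) (.nd (nat_lit 5) 
(.lf (nat_lit 17600) (.g (nat_lit 2496) (.e (nat_lit 1170) (nat_lit 87) (.e (nat_lit 57847) (nat_lit 252) (.e (nat_lit 57411) (nat_lit 12) (.e (nat_lit 336211) (nat_lit 13) (.e (nat_lit 393268) (nat_lit 23) (.e (nat_lit 426440) (nat_lit 19) (.e (nat_lit 106514) (nat_lit 9) .nil))))))) (.g (nat_lit 5) .nil .nil))) 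
(.lf (nat_lit 17632) (.g (nat_lit 3402) (.e (nat_lit 1170) (nat_lit 87) (.e (nat_lit 57927) (nat_lit 282) (.e (nat_lit 163869) (nat_lit 2) (.e (nat_lit 196670) (nat_lit 14) (.e (nat_lit 73746) (nat_lit 3) (.e (nat_lit 516131) (nat_lit 3) (.e (nat_lit 221212) (nat_lit 22) (.e (nat_lit 196632) (nat_lit 9) .nil)))))))) (.g (nat_lit 6) .nil .nil)))) (.nd (nat_lit 5) 
(.lf (nat_lit 17616) (.g (nat_lit 1400) (.e (nat_lit 1170) (nat_lit 87) (.e (nat_lit 57847) (nat_lit 252) (.e (nat_lit 57435) (nat_lit 17) (.e (nat_lit 376842) (nat_lit 11) (.e (nat_lit 426298) (nat_lit 11) .nil))))) .nil)) 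
(.lf (nat_lit 17648) (.g (nat_lit 4607) (.e (nat_lit 1171) (nat_lit 87) (.e (nat_lit 57476) (nat_lit 28) (.e (nat_lit 557097) (nat_lit 13) (.e (nat_lit 172115) (nat_lit 10) (.e (nat_lit 434231) (nat_lit 23) (.e (nat_lit 532544) (nat_lit 10) (.e (nat_lit 344097) (nat_lit 18) (.e (nat_lit 5905) (nat_lit 320) .nil)))))))) (.g (nat_lit 0) .nil .nil))))) (.nd (nat_lit 4) (.nd (nat_lit 5) 
(.lf (nat_lit 17608) (.g (nat_lit 1957) (.e (nat_lit 1170) (nat_lit 87) (.e (nat_lit 57847) (nat_lit 252) (.e (nat_lit 57411) (nat_lit 12) (.e (nat_lit 336211) (nat_lit 13) (.e (nat_lit 393291) (nat_lit 26) (.e (nat_lit 475201) (nat_lit 40) (.e (nat_lit 704656) (nat_lit 9) .nil))))))) (.g (nat_lit 5) .nil .nil))) 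
(.lf (nat_lit 17640) (.g (nat_lit 3195) (.e (nat_lit 1171) (nat_lit 87) (.e (nat_lit 57476) (nat_lit 28) (.e (nat_lit 557097) (nat_lit 13) (.e (nat_lit 172097) (nat_lit 9) (.e (nat_lit 426140) (nat_lit 3) (.e (nat_lit 204855) (nat_lit 26) (.e (nat_lit 335923) (nat_lit 0) (.e (nat_lit 1023) (nat_lit 81) (.e (nat_lit 5905) (nat_lit 320) .nil))))))))) (.g (nat_lit 6) .nil .nil)))) (.nd (nat_lit 5) 
(.lf (nat_lit 17624) (.g (nat_lit 1962) (.e (nat_lit 1170) (nat_lit 87) (.e (nat_lit 57849) (nat_lit 252) (.e (nat_lit 57372) (nat_lit 2) (.e (nat_lit 90128) (nat_lit 9) .nil)))) .nil)) 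
(.lf (nat_lit 17656) (.g (nat_lit 3317) (.e (nat_lit 1171) (nat_lit 87) (.e (nat_lit 57476) (nat_lit 28) (.e (nat_lit 557107) (nat_lit 15) (.e (nat_lit 188450) (nat_lit 23) (.e (nat_lit 204862) (nat_lit 27) (.e (nat_lit 344097) (nat_lit 18) (.e (nat_lit 5905) (nat_lit 320) .nil))))))) (.g (nat_lit 0) .nil .nil)))))) (.nd (nat_lit 3) (.nd (nat_lit 4) (.nd (nat_lit 5) 
(.lf (nat_lit 17604) (.g (nat_lit 1868) (.e (nat_lit 1170) (nat_lit 87) (.e (nat_lit 57847) (nat_lit 252) (.e (nat_lit 57411) (nat_lit 12) (.e (nat_lit 336211) (nat_lit 13) (.e (nat_lit 393291) (nat_lit 26) (.e (nat_lit 475201) (nat_lit 40) (.e (nat_lit 704652) (nat_lit 9) .nil))))))) (.g (nat_lit 5) .nil .nil))) 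
(.lf (nat_lit 17636) (.g (nat_lit 1585) (.e (nat_lit 1171) (nat_lit 87) (.e (nat_lit 57476) (nat_lit 28) (.e (nat_lit 557067) (nat_lit 9) (.e (nat_lit 2998) (nat_lit 186) .nil)))) .nil))) (.nd (nat_lit 5) 
(.lf (nat_lit 17620) (.g (nat_lit 1585) (.e (nat_lit 1170) (nat_lit 87) (.e (nat_lit 57847) (nat_lit 252) (.e (nat_lit 57437) (nat_lit 17) (.e (nat_lit 376842) (nat_lit 11) (.e (nat_lit 426296) (nat_lit 11) .nil))))) .nil)) 
(.lf (nat_lit 17652) (.g (nat_lit 2538) (.e (nat_lit 1171) (nat_lit 87) (.e (nat_lit 57476) (nat_lit 28) (.e (nat_lit 557107) (nat_lit 15) (.e (nat_lit 188450) (nat_lit 23) (.e (nat_lit 204850) (nat_lit 26) (.e (nat_lit 335997) (nat_lit 1) (.e (nat_lit 57871) (nat_lit 264) .nil))))))) (.g (nat_lit 0) .nil .nil))))) (.nd (nat_lit 4) (.nd (nat_lit 5) 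
(.lf (nat_lit 17612) (.g (nat_lit 1839) (.e (nat_lit 1170) (nat_lit 87) (.e (nat_lit 57847) (nat_lit 252) (.e (nat_lit 57411) (nat_lit 12) (.e (nat_lit 336211) (nat_lit 13) (.e (nat_lit 393291) (nat_lit 26) (.e (nat_lit 475201) (nat_lit 40) (.e (nat_lit 704661) (nat_lit 9) .nil))))))) (.g (nat_lit 5) .nil .nil))) 
(.lf (nat_lit 17644) (.g (nat_lit 3900) (.e (nat_lit 1171) (nat_lit 87) (.e (nat_lit 57476) (nat_lit 28) (.e (nat_lit 557097) (nat_lit 13) (.e (nat_lit 172115) (nat_lit 10) (.e (nat_lit 434231) (nat_lit 23) (.e (nat_lit 532527) (nat_lit 9) (.e (nat_lit 335997) (nat_lit 1) (.e (nat_lit 57871) (nat_lit 264) .nil)))))))) (.g (nat_lit 0) .nil .nil)))) (.nd (nat_lit 5) 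
(.lf (nat_lit 17628) (.g (nat_lit 3904) (.e (nat_lit 1170) (nat_lit 87) (.e (nat_lit 57926) (nat_lit 282) (.e (nat_lit 163869) (nat_lit 2) (.e (nat_lit 196670) (nat_lit 14) (.e (nat_lit 73746) (nat_lit 3) (.e (nat_lit 516131) (nat_lit 3) (.e (nat_lit 221212) (nat_lit 22) (.e (nat_lit 196632) (nat_lit 9) .nil)))))))) (.g (nat_lit 8) .nil .nil))) 
(.lf (nat_lit 17660) (.g (nat_lit 1381) (.e (nat_lit 1171) (nat_lit 87) (.e (nat_lit 57476) (nat_lit 28) (.e (nat_lit 557108) (nat_lit 15) (.e (nat_lit 188449) (nat_lit 22) (.e (nat_lit 196666) (nat_lit 13) .nil))))) .nil)))))) (.nd (nat_lit 2) (.nd (nat_lit 3) (.nd (nat_lit 4) (.nd (nat_lit 5) 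
(.lf (nat_lit 17602) (.g (nat_lit 1807) (.e (nat_lit 1170) (nat_lit 87) (.e (nat_lit 57847) (nat_lit 252) (.e (nat_lit 57411) (nat_lit 12) (.e (nat_lit 336211) (nat_lit 13) (.e (nat_lit 393268) (nat_lit 23) (.e (nat_lit 426444) (nat_lit 19) (.e (nat_lit 106504) (nat_lit 9) .nil))))))) (.g (nat_lit 5) .nil .nil))) 
(.lf (nat_lit 17634) (.g (nat_lit 3823) (.e (nat_lit 1170) (nat_lit 87) (.e (nat_lit 57931) (nat_lit 282) (.e (nat_lit 163869) (nat_lit 2) (.e (nat_lit 196670) (nat_lit 14) (.e (nat_lit 73746) (nat_lit 3) (.e (nat_lit 516131) (nat_lit 3) (.e (nat_lit 221212) (nat_lit 22) (.e (nat_lit 196632) (nat_lit 9) .nil)))))))) (.g (nat_lit 6) .nil .nil)))) (.nd (nat_lit 5) 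
(.lf (nat_lit 17618) (.g (nat_lit 2304) (.e (nat_lit 1170) (nat_lit 87) (.e (nat_lit 57847) (nat_lit 252) (.e (nat_lit 57435) (nat_lit 17) (.e (nat_lit 376842) (nat_lit 11) (.e (nat_lit 426306) (nat_lit 12) (.e (nat_lit 475201) (nat_lit 40) (.e (nat_lit 704655) (nat_lit 9) .nil))))))) (.g (nat_lit 5) .nil .nil))) 
(.lf (nat_lit 17650) (.g (nat_lit 3064) (.e (nat_lit 1171) (nat_lit 87) (.e (nat_lit 57476) (nat_lit 28) (.e (nat_lit 557107) (nat_lit 15) (.e (nat_lit 188447) (nat_lit 22) (.e (nat_lit 196666) (nat_lit 13) (.e (nat_lit 65565) (nat_lit 1) (.e (nat_lit 57871) (nat_lit 264) .nil))))))) (.g (nat_lit 0) .nil .nil))))) (.nd (nat_lit 4) (.nd (nat_lit 5) 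
(.lf (nat_lit 17610) (.g (nat_lit 1817) (.e (nat_lit 1170) (nat_lit 87) (.e (nat_lit 57847) (nat_lit 252) (.e (nat_lit 57411) (nat_lit 12) (.e (nat_lit 336211) (nat_lit 13) (.e (nat_lit 393291) (nat_lit 26) (.e (nat_lit 475201) (nat_lit 40) (.e (nat_lit 704658) (nat_lit 9) .nil))))))) (.g (nat_lit 5) .nil .nil))) 
(.lf (nat_lit 17642) (.g (nat_lit 4176) (.e (nat_lit 1171) (nat_lit 87) (.e (nat_lit 57476) (nat_lit 28) (.e (nat_lit 557097) (nat_lit 13) (.e (nat_lit 172097) (nat_lit 9) (.e (nat_lit 426140) (nat_lit 3) (.e (nat_lit 204862) (nat_lit 27) (.e (nat_lit 344097) (nat_lit 18) (.e (nat_lit 5905) (nat_lit 320) .nil)))))))) (.g (nat_lit 0) .nil .nil)))) (.nd (nat_lit 5) 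
(.lf (nat_lit 17626) (.g (nat_lit 805) (.e (nat_lit 1170) (nat_lit 87) (.e (nat_lit 57849) (nat_lit 252) (.e (nat_lit 57379) (nat_lit 3) .nil))) .nil)) 
(.lf (nat_lit 17658) (.g (nat_lit 2727) (.e (nat_lit 1171) (nat_lit 87) (.e (nat_lit 57476) (nat_lit 28) (.e (nat_lit 557108) (nat_lit 15) (.e (nat_lit 188447) (nat_lit 22) (.e (nat_lit 196668) (nat_lit 14) (.e (nat_lit 73733) (nat_lit 0) (.e (nat_lit 5905) (nat_lit 320) .nil))))))) (.g (nat_lit 5) .nil .nil)))))) (.nd (nat_lit 3) (.nd (nat_lit 4) (.nd (nat_lit 5) 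
(.lf (nat_lit 17606) (.g (nat_lit 1886) (.e (nat_lit 1170) (nat_lit 87) (.e (nat_lit 57847) (nat_lit 252) (.e (nat_lit 57411) (nat_lit 12) (.e (nat_lit 336211) (nat_lit 13) (.e (nat_lit 393291) (nat_lit 26) (.e (nat_lit 475201) (nat_lit 40) (.e (nat_lit 704654) (nat_lit 9) .nil))))))) (.g (nat_lit 5) .nil .nil))) 
(.lf (nat_lit 17638) (.g (nat_lit 3681) (.e (nat_lit 1171) (nat_lit 87) (.e (nat_lit 57476) (nat_lit 28) (.e (nat_lit 557097) (nat_lit 13) (.e (nat_lit 172097) (nat_lit 9) (.e (nat_lit 426125) (nat_lit 2) (.e (nat_lit 196666) (nat_lit 13) (.e (nat_lit 65565) (nat_lit 1) (.e (nat_lit 57871) (nat_lit 264) .nil)))))))) (.g (nat_lit 0) .nil .nil)))) (.nd (nat_lit 5) 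
(.lf (nat_lit 17622) (.g (nat_lit 976) (.e (nat_lit 1170) (nat_lit 87) (.e (nat_lit 57847) (nat_lit 252) (.e (nat_lit 57437) (nat_lit 17) (.e (nat_lit 384768) (nat_lit 13) .nil)))) .nil)) 
(.lf (nat_lit 17654) (.g (nat_lit 2934) (.e (nat_lit 1171) (nat_lit 87) (.e (nat_lit 57476) (nat_lit 28) (.e (nat_lit 557107) (nat_lit 15) (.e (nat_lit 188450) (nat_lit 23) (.e (nat_lit 204855) (nat_lit 26) (.e (nat_lit 335992) (nat_lit 1) (.e (nat_lit 57870) (nat_lit 264) .nil))))))) (.g (nat_lit 7) .nil .nil))))) (.nd (nat_lit 4) (.nd (nat_lit 5) 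
(.lf (nat_lit 17614) (.g (nat_lit 1913) (.e (nat_lit 1170) (nat_lit 87) (.e (nat_lit 57847) (nat_lit 252) (.e (nat_lit 57411) (nat_lit 12) (.e (nat_lit 336211) (nat_lit 13) (.e (nat_lit 393291) (nat_lit 26) (.e (nat_lit 475201) (nat_lit 40) (.e (nat_lit 704670) (nat_lit 9) .nil))))))) (.g (nat_lit 5) .nil .nil))) 
(.lf (nat_lit 17646) (.g (nat_lit 5029) (.e (nat_lit 1171) (nat_lit 87) (.e (nat_lit 57476) (nat_lit 28) (.e (nat_lit 557097) (nat_lit 13) (.e (nat_lit 172115) (nat_lit 10) (.e (nat_lit 434231) (nat_lit 23) (.e (nat_lit 532535) (nat_lit 9) (.e (nat_lit 335992) (nat_lit 1) (.e (nat_lit 57870) (nat_lit 264) .nil)))))))) (.g (nat_lit 8) .nil .nil)))) (.nd (nat_lit 5) 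
(.lf (nat_lit 17630) (.g (nat_lit 1296) (.e (nat_lit 1170) (nat_lit 87) (.e (nat_lit 57927) (nat_lit 282) (.e (nat_lit 163868) (nat_lit 2) (.e (nat_lit 196670) (nat_lit 14) .nil)))) .nil)) 
(.lf (nat_lit 17662) (.g (nat_lit 3091) (.e (nat_lit 1171) (nat_lit 87) (.e (nat_lit 57476) (nat_lit 28) (.e (nat_lit 557108) (nat_lit 15) (.e (nat_lit 188449) (nat_lit 22) (.e (nat_lit 196666) (nat_lit 13) (.e (nat_lit 65565) (nat_lit 1) (.e (nat_lit 57871) (nat_lit 264) .nil))))))) (.g (nat_lit 0) .nil .nil)))))))) 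
(.nd (nat_lit 1) (.nd (nat_lit 2) (.nd (nat_lit 3) (.nd (nat_lit 4) (.nd (nat_lit 5) 
(.lf (nat_lit 17601) (.g (nat_lit 2700) (.e (nat_lit 1170) (nat_lit 87) (.e (nat_lit 57847) (nat_lit 252) (.e (nat_lit 57411) (nat_lit 12) (.e (nat_lit 336211) (nat_lit 13) (.e (nat_lit 393268) (nat_lit 23) (.e (nat_lit 426440) (nat_lit 19) (.e (nat_lit 106526) (nat_lit 9) .nil))))))) (.g (nat_lit 5) .nil .nil))) 
(.lf (nat_lit 17633) (.g (nat_lit 2704) (.e (nat_lit 1170) (nat_lit 87) (.e (nat_lit 57931) (nat_lit 282) (.e (nat_lit 163869) (nat_lit 2) (.e (nat_lit 196670) (nat_lit 14) (.e (nat_lit 73746) (nat_lit 3) .nil))))) .nil))) (.nd (nat_lit 5) 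
(.lf (nat_lit 17617) (.g (nat_lit 2489) (.e (nat_lit 1170) (nat_lit 87) (.e (nat_lit 57847) (nat_lit 252) (.e (nat_lit 57435) (nat_lit 17) (.e (nat_lit 376842) (nat_lit 11) (.e (nat_lit 426298) (nat_lit 11) (.e (nat_lit 458804) (nat_lit 38) (.e (nat_lit 655383) (nat_lit 9) .nil))))))) (.g (nat_lit 6) .nil .nil))) 
(.lf (nat_lit 17649) (.g (nat_lit 3067) (.e (nat_lit 1171) (nat_lit 87) (.e (nat_lit 57476) (nat_lit 28) (.e (nat_lit 557107) (nat_lit 15) (.e (nat_lit 188447) (nat_lit 22) (.e (nat_lit 196666) (nat_lit 13) (.e (nat_lit 65563) (nat_lit 1) (.e (nat_lit 57871) (nat_lit 264) .nil))))))) (.g (nat_lit 0) .nil .nil))))) (.nd (nat_lit 4) (.nd (nat_lit 5) 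
(.lf (nat_lit 17609) (.g (nat_lit 1845) (.e (nat_lit 1170) (nat_lit 87) (.e (nat_lit 57847) (nat_lit 252) (.e (nat_lit 57411) (nat_lit 12) (.e (nat_lit 336211) (nat_lit 13) (.e (nat_lit 393291) (nat_lit 26) (.e (nat_lit 475201) (nat_lit 40) (.e (nat_lit 704657) (nat_lit 9) .nil))))))) (.g (nat_lit 5) .nil .nil))) 
(.lf (nat_lit 17641) (.g (nat_lit 3343) (.e (nat_lit 1171) (nat_lit 87) (.e (nat_lit 57476) (nat_lit 28) (.e (nat_lit 557097) (nat_lit 13) (.e (nat_lit 172097) (nat_lit 9) (.e (nat_lit 426140) (nat_lit 3) (.e (nat_lit 204855) (nat_lit 26) (.e (nat_lit 335985) (nat_lit 1) (.e (nat_lit 57871) (nat_lit 264) .nil)))))))) (.g (nat_lit 0) .nil .nil)))) (.nd (nat_lit 5) 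
(.lf (nat_lit 17625) (.g (nat_lit 795) (.e (nat_lit 1170) (nat_lit 87) (.e (nat_lit 57849) (nat_lit 252) (.e (nat_lit 57377) (nat_lit 3) .nil))) .nil)) 
(.lf (nat_lit 17657) (.g (nat_lit 3837) (.e (nat_lit 1171) (nat_lit 87) (.e (nat_lit 57476) (nat_lit 28) (.e (nat_lit 557107) (nat_lit 15) (.e (nat_lit 188450) (nat_lit 23) (.e (nat_lit 204863) (nat_lit 27) (.e (nat_lit 344097) (nat_lit 18) (.e (nat_lit 5905) (nat_lit 320) .nil))))))) (.g (nat_lit 7) .nil .nil)))))) (.nd (nat_lit 3) (.nd (nat_lit 4) (.nd (nat_lit 5) 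
(.lf (nat_lit 17605) (.g (nat_lit 1850) (.e (nat_lit 1170) (nat_lit 87) (.e (nat_lit 57847) (nat_lit 252) (.e (nat_lit 57411) (nat_lit 12) (.e (nat_lit 336211) (nat_lit 13) (.e (nat_lit 393291) (nat_lit 26) (.e (nat_lit 475201) (nat_lit 40) (.e (nat_lit 704653) (nat_lit 9) .nil))))))) (.g (nat_lit 5) .nil .nil))) 
(.lf (nat_lit 17637) (.g (nat_lit 3796) (.e (nat_lit 1171) (nat_lit 87) (.e (nat_lit 57476) (nat_lit 28) (.e (nat_lit 557097) (nat_lit 13) (.e (nat_lit 172097) (nat_lit 9) (.e (nat_lit 426125) (nat_lit 2) (.e (nat_lit 196666) (nat_lit 13) (.e (nat_lit 65563) (nat_lit 1) (.e (nat_lit 57871) (nat_lit 264) .nil)))))))) (.g (nat_lit 0) .nil .nil)))) (.nd (nat_lit 5) 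
(.lf (nat_lit 17621) (.g (nat_lit 3068) (.e (nat_lit 1170) (nat_lit 87) (.e (nat_lit 57847) (nat_lit 252) (.e (nat_lit 57437) (nat_lit 17) (.e (nat_lit 376842) (nat_lit 11) (.e (nat_lit 426306) (nat_lit 12) (.e (nat_lit 475201) (nat_lit 40) (.e (nat_lit 704620) (nat_lit 9) .nil))))))) (.g (nat_lit 7) .nil .nil))) 
(.lf (nat_lit 17653) (.g (nat_lit 2563) (.e (nat_lit 1171) (nat_lit 87) (.e (nat_lit 57476) (nat_lit 28) (.e (nat_lit 557107) (nat_lit 15) (.e (nat_lit 188450) (nat_lit 23) (.e (nat_lit 204855) (nat_lit 26) (.e (nat_lit 335985) (nat_lit 1) (.e (nat_lit 57871) (nat_lit 264) .nil))))))) (.g (nat_lit 0) .nil .nil))))) (.nd (nat_lit 4) (.nd (nat_lit 5) 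
(.lf (nat_lit 17613) (.g (nat_lit 2342) (.e (nat_lit 1170) (nat_lit 87) (.e (nat_lit 57847) (nat_lit 252) (.e (nat_lit 57411) (nat_lit 12) (.e (nat_lit 336211) (nat_lit 13) (.e (nat_lit 393291) (nat_lit 26) (.e (nat_lit 475201) (nat_lit 40) (.e (nat_lit 704662) (nat_lit 9) .nil))))))) (.g (nat_lit 6) .nil .nil))) 
(.lf (nat_lit 17645) (.g (nat_lit 3972) (.e (nat_lit 1171) (nat_lit 87) (.e (nat_lit 57476) (nat_lit 28) (.e (nat_lit 557097) (nat_lit 13) (.e (nat_lit 172115) (nat_lit 10) (.e (nat_lit 434231) (nat_lit 23) (.e (nat_lit 532535) (nat_lit 9) (.e (nat_lit 335985) (nat_lit 1) (.e (nat_lit 57871) (nat_lit 264) .nil)))))))) (.g (nat_lit 0) .nil .nil)))) (.nd (nat_lit 5) 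
(.lf (nat_lit 17629) (.g (nat_lit 1895) (.e (nat_lit 1170) (nat_lit 87) (.e (nat_lit 57926) (nat_lit 282) (.e (nat_lit 163874) (nat_lit 3) (.e (nat_lit 204872) (nat_lit 30) (.e (nat_lit 368676) (nat_lit 21) (.e (nat_lit 516131) (nat_lit 3) (.e (nat_lit 221212) (nat_lit 22) (.e (nat_lit 196632) (nat_lit 9) .nil)))))))) (.g (nat_lit 4) .nil .nil))) 
(.lf (nat_lit 17661) (.g (nat_lit 3110) (.e (nat_lit 1171) (nat_lit 87) (.e (nat_lit 57476) (nat_lit 28) (.e (nat_lit 557108) (nat_lit 15) (.e (nat_lit 188449) (nat_lit 22) (.e (nat_lit 196666) (nat_lit 13) (.e (nat_lit 65563) (nat_lit 1) (.e (nat_lit 57871) (nat_lit 264) .nil))))))) (.g (nat_lit 0) .nil .nil))))))) (.nd (nat_lit 2) (.nd (nat_lit 3) (.nd (nat_lit 4) (.nd (nat_lit 5) 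
(.lf (nat_lit 17603) (.g (nat_lit 2746) (.e (nat_lit 1170) (nat_lit 87) (.e (nat_lit 57847) (nat_lit 252) (.e (nat_lit 57411) (nat_lit 12) (.e (nat_lit 336211) (nat_lit 13) (.e (nat_lit 393291) (nat_lit 26) (.e (nat_lit 475201) (nat_lit 40) (.e (nat_lit 704620) (nat_lit 9) .nil))))))) (.g (nat_lit 7) .nil .nil))) 
(.lf (nat_lit 17635) (.g (nat_lit 2443) (.e (nat_lit 1171) (nat_lit 87) (.e (nat_lit 57464) (nat_lit 23) (.e (nat_lit 516151) (nat_lit 9) (.e (nat_lit 426042) (nat_lit 0) .nil)))) .nil))) (.nd (nat_lit 5) 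
(.lf (nat_lit 17619) (.g (nat_lit 683) (.e (nat_lit 1170) (nat_lit 87) (.e (nat_lit 57847) (nat_lit 252) (.e (nat_lit 57435) (nat_lit 17) (.e (nat_lit 384768) (nat_lit 13) .nil)))) .nil)) 
(.lf (nat_lit 17651) (.g (nat_lit 1379) (.e (nat_lit 1171) (nat_lit 87) (.e (nat_lit 57476) (nat_lit 28) (.e (nat_lit 557107) (nat_lit 15) (.e (nat_lit 188450) (nat_lit 23) (.e (nat_lit 204817) (nat_lit 17) .nil))))) .nil)))) (.nd (nat_lit 4) (.nd (nat_lit 5) 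
(.lf (nat_lit 17611) (.g (nat_lit 1862) (.e (nat_lit 1170) (nat_lit 87) (.e (nat_lit 57847) (nat_lit 252) (.e (nat_lit 57411) (nat_lit 12) (.e (nat_lit 336211) (nat_lit 13) (.e (nat_lit 393291) (nat_lit 26) (.e (nat_lit 475201) (nat_lit 40) (.e (nat_lit 704659) (nat_lit 9) .nil))))))) (.g (nat_lit 5) .nil .nil))) 
(.lf (nat_lit 17643) (.g (nat_lit 4368) (.e (nat_lit 1171) (nat_lit 87) (.e (nat_lit 57476) (nat_lit 28) (.e (nat_lit 557097) (nat_lit 13) (.e (nat_lit 172097) (nat_lit 9) (.e (nat_lit 426140) (nat_lit 3) (.e (nat_lit 204863) (nat_lit 27) (.e (nat_lit 344097) (nat_lit 18) (.e (nat_lit 5905) (nat_lit 320) .nil)))))))) (.g (nat_lit 0) .nil .nil)))) (.nd (nat_lit 5) 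
(.lf (nat_lit 17627) (.g (nat_lit 2411) (.e (nat_lit 1170) (nat_lit 87) (.e (nat_lit 57926) (nat_lit 282) (.e (nat_lit 163869) (nat_lit 2) (.e (nat_lit 196670) (nat_lit 14) (.e (nat_lit 73746) (nat_lit 3) (.e (nat_lit 516129) (nat_lit 3) (.e (nat_lit 221210) (nat_lit 22) (.e (nat_lit 196632) (nat_lit 9) .nil)))))))) (.g (nat_lit 5) .nil .nil))) 
(.lf (nat_lit 17659) (.g (nat_lit 2196) (.e (nat_lit 1171) (nat_lit 87) (.e (nat_lit 57476) (nat_lit 28) (.e (nat_lit 557108) (nat_lit 15) (.e (nat_lit 188447) (nat_lit 22) (.e (nat_lit 196681) (nat_lit 17) .nil))))) .nil))))) (.nd (nat_lit 3) (.nd (nat_lit 4) (.nd (nat_lit 5) 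
(.lf (nat_lit 17607) (.g (nat_lit 1814) (.e (nat_lit 1170) (nat_lit 87) (.e (nat_lit 57847) (nat_lit 252) (.e (nat_lit 57411) (nat_lit 12) (.e (nat_lit 336211) (nat_lit 13) (.e (nat_lit 393291) (nat_lit 26) (.e (nat_lit 475201) (nat_lit 40) (.e (nat_lit 704655) (nat_lit 9) .nil))))))) (.g (nat_lit 5) .nil .nil))) 
(.lf (nat_lit 17639) (.g (nat_lit 3362) (.e (nat_lit 1171) (nat_lit 87) (.e (nat_lit 57476) (nat_lit 28) (.e (nat_lit 557097) (nat_lit 13) (.e (nat_lit 172097) (nat_lit 9) (.e (nat_lit 426140) (nat_lit 3) (.e (nat_lit 204850) (nat_lit 26) (.e (nat_lit 335997) (nat_lit 1) (.e (nat_lit 57871) (nat_lit 264) .nil)))))))) (.g (nat_lit 0) .nil .nil)))) (.nd (nat_lit 5) 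
(.lf (nat_lit 17623) (.g (nat_lit 411) (.e (nat_lit 1170) (nat_lit 87) (.e (nat_lit 57847) (nat_lit 252) (.e (nat_lit 57446) (nat_lit 19) .nil))) .nil)) 
(.lf (nat_lit 17655) (.g (nat_lit 1589) (.e (nat_lit 1171) (nat_lit 87) (.e (nat_lit 57476) (nat_lit 28) (.e (nat_lit 557107) (nat_lit 15) (.e (nat_lit 188450) (nat_lit 23) (.e (nat_lit 204856) (nat_lit 26) .nil))))) .nil)))) (.nd (nat_lit 4) (.nd (nat_lit 5) 
(.lf (nat_lit 17615) (.g (nat_lit 1443) (.e (nat_lit 1170) (nat_lit 87) (.e (nat_lit 57847) (nat_lit 252) (.e (nat_lit 57435) (nat_lit 17) (.e (nat_lit 376842) (nat_lit 11) (.e (nat_lit 426296) (nat_lit 11) (.e (nat_lit 458804) (nat_lit 38) (.e (nat_lit 655383) (nat_lit 9) .nil))))))) (.g (nat_lit 4) .nil .nil))) 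
(.lf (nat_lit 17647) (.g (nat_lit 4367) (.e (nat_lit 1171) (nat_lit 87) (.e (nat_lit 57476) (nat_lit 28) (.e (nat_lit 557097) (nat_lit 13) (.e (nat_lit 172115) (nat_lit 10) (.e (nat_lit 434231) (nat_lit 23) (.e (nat_lit 532543) (nat_lit 10) (.e (nat_lit 344097) (nat_lit 18) (.e (nat_lit 5905) (nat_lit 320) .nil)))))))) (.g (nat_lit 0) .nil .nil)))) (.nd (nat_lit 5) 
(.lf (nat_lit 17631) (.g (nat_lit 2135) (.e (nat_lit 1170) (nat_lit 87) (.e (nat_lit 57927) (nat_lit 282) (.e (nat_lit 163869) (nat_lit 2) (.e (nat_lit 196670) (nat_lit 14) (.e (nat_lit 73746) (nat_lit 3) .nil))))) .nil)) 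
(.lf (nat_lit 17663) (.g (nat_lit 4126) (.e (nat_lit 1171) (nat_lit 87) (.e (nat_lit 57476) (nat_lit 28) (.e (nat_lit 557108) (nat_lit 15) (.e (nat_lit 188449) (nat_lit 22) (.e (nat_lit 196667) (nat_lit 14) .nil))))) .nil))))))))

noncomputable def tv241 : DT := (.nd (nat_lit 0) (.nd (nat_lit 1) (.nd (nat_lit 2) (.nd (nat_lit 3) (.nd (nat_lit 4) 
(.lf (nat_lit 17664) (.g (nat_lit 5052) (.e (nat_lit 1171) (nat_lit 87) (.e (nat_lit 57476) (nat_lit 28) (.e (nat_lit 557108) (nat_lit 15) (.e (nat_lit 188449) (nat_lit 22) (.e (nat_lit 196670) (nat_lit 14) (.e (nat_lit 73732) (nat_lit 0) (.e (nat_lit 5905) (nat_lit 320) .nil))))))) (.g (nat_lit 0) .nil .nil))) 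
(.lf (nat_lit 17680) (.g (nat_lit 2892) (.e (nat_lit 1171) (nat_lit 87) (.e (nat_lit 57477) (nat_lit 28) (.e (nat_lit 557097) (nat_lit 13) (.e (nat_lit 172097) (nat_lit 9) (.e (nat_lit 426140) (nat_lit 3) (.e (nat_lit 204855) (nat_lit 26) (.e (nat_lit 335985) (nat_lit 1) (.e (nat_lit 57870) (nat_lit 264) .nil)))))))) (.g (nat_lit 6) .nil .nil)))) (.nd (nat_lit 4) 
(.lf (nat_lit 17672) (.g (nat_lit 2925) (.e (nat_lit 1171) (nat_lit 87) (.e (nat_lit 57476) (nat_lit 28) (.e (nat_lit 557108) (nat_lit 15) (.e (nat_lit 188452) (nat_lit 23) (.e (nat_lit 204857) (nat_lit 26) (.e (nat_lit 335997) (nat_lit 1) (.e (nat_lit 57871) (nat_lit 264) .nil))))))) (.g (nat_lit 4) .nil .nil))) 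
(.lf (nat_lit 17688) (.g (nat_lit 4003) (.e (nat_lit 1171) (nat_lit 87) (.e (nat_lit 57477) (nat_lit 28) (.e (nat_lit 557097) (nat_lit 13) (.e (nat_lit 172115) (nat_lit 10) (.e (nat_lit 434231) (nat_lit 23) (.e (nat_lit 532544) (nat_lit 10) (.e (nat_lit 344097) (nat_lit 18) (.e (nat_lit 5905) (nat_lit 320) .nil)))))))) (.g (nat_lit 7) .nil .nil))))) (.nd (nat_lit 3) (.nd (nat_lit 4) 
(.lf (nat_lit 17668) (.g (nat_lit 3103) (.e (nat_lit 1171) (nat_lit 87) (.e (nat_lit 57476) (nat_lit 28) (.e (nat_lit 557108) (nat_lit 15) (.e (nat_lit 188452) (nat_lit 23) (.e (nat_lit 204855) (nat_lit 26) (.e (nat_lit 335985) (nat_lit 1) (.e (nat_lit 57871) (nat_lit 264) .nil))))))) (.g (nat_lit 0) .nil .nil))) 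
(.lf (nat_lit 17684) (.g (nat_lit 3537) (.e (nat_lit 1171) (nat_lit 87) (.e (nat_lit 57477) (nat_lit 28) (.e (nat_lit 557097) (nat_lit 13) (.e (nat_lit 172115) (nat_lit 10) (.e (nat_lit 434231) (nat_lit 23) (.e (nat_lit 532535) (nat_lit 9) (.e (nat_lit 335985) (nat_lit 1) (.e (nat_lit 57870) (nat_lit 264) .nil)))))))) (.g (nat_lit 6) .nil .nil)))) (.nd (nat_lit 4) 
(.lf (nat_lit 17676) (.g (nat_lit 1675) (.e (nat_lit 1171) (nat_lit 87) (.e (nat_lit 57476) (nat_lit 28) (.e (nat_lit 557108) (nat_lit 15) (.e (nat_lit 188452) (nat_lit 23) (.e (nat_lit 204863) (nat_lit 27) .nil))))) .nil)) 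
(.lf (nat_lit 17692) (.g (nat_lit 2279) (.e (nat_lit 1171) (nat_lit 87) (.e (nat_lit 57477) (nat_lit 28) (.e (nat_lit 557107) (nat_lit 15) (.e (nat_lit 188450) (nat_lit 23) (.e (nat_lit 204855) (nat_lit 26) (.e (nat_lit 335985) (nat_lit 1) (.e (nat_lit 57870) (nat_lit 264) .nil))))))) (.g (nat_lit 5) .nil .nil)))))) (.nd (nat_lit 2) (.nd (nat_lit 3) (.nd (nat_lit 4) 
(.lf (nat_lit 17666) (.g (nat_lit 3095) (.e (nat_lit 1171) (nat_lit 87) (.e (nat_lit 57476) (nat_lit 28) (.e (nat_lit 557108) (nat_lit 15) (.e (nat_lit 188452) (nat_lit 23) (.e (nat_lit 204850) (nat_lit 26) (.e (nat_lit 335997) (nat_lit 1) (.e (nat_lit 57871) (nat_lit 264) .nil))))))) (.g (nat_lit 0) .nil .nil))) 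
(.lf (nat_lit 17682) (.g (nat_lit 3555) (.e (nat_lit 1171) (nat_lit 87) (.e (nat_lit 57477) (nat_lit 28) (.e (nat_lit 557097) (nat_lit 13) (.e (nat_lit 172097) (nat_lit 9) (.e (nat_lit 426140) (nat_lit 3) (.e (nat_lit 204862) (nat_lit 27) (.e (nat_lit 344097) (nat_lit 18) (.e (nat_lit 5905) (nat_lit 320) .nil)))))))) (.g (nat_lit 7) .nil .nil)))) (.nd (nat_lit 4) 
(.lf (nat_lit 17674) (.g (nat_lit 3611) (.e (nat_lit 1171) (nat_lit 87) (.e (nat_lit 57476) (nat_lit 28) (.e (nat_lit 557108) (nat_lit 15) (.e (nat_lit 188452) (nat_lit 23) (.e (nat_lit 204861) (nat_lit 26) .nil))))) .nil)) 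
(.lf (nat_lit 17690) (.g (nat_lit 2632) (.e (nat_lit 1171) (nat_lit 87) (.e (nat_lit 57477) (nat_lit 28) (.e (nat_lit 557107) (nat_lit 15) (.e (nat_lit 188447) (nat_lit 22) (.e (nat_lit 196666) (nat_lit 13) (.e (nat_lit 65563) (nat_lit 1) (.e (nat_lit 57871) (nat_lit 264) .nil))))))) (.g (nat_lit 5) .nil .nil))))) (.nd (nat_lit 3) (.nd (nat_lit 4) 
(.lf (nat_lit 17670) (.g (nat_lit 3105) (.e (nat_lit 1171) (nat_lit 87) (.e (nat_lit 57476) (nat_lit 28) (.e (nat_lit 557108) (nat_lit 15) (.e (nat_lit 188452) (nat_lit 23) (.e (nat_lit 204856) (nat_lit 26) (.e (nat_lit 335997) (nat_lit 1) (.e (nat_lit 57870) (nat_lit 264) .nil))))))) (.g (nat_lit 6) .nil .nil))) 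
(.lf (nat_lit 17686) (.g (nat_lit 4543) (.e (nat_lit 1171) (nat_lit 87) (.e (nat_lit 57477) (nat_lit 28) (.e (nat_lit 557097) (nat_lit 13) (.e (nat_lit 172115) (nat_lit 10) (.e (nat_lit 434231) (nat_lit 23) (.e (nat_lit 532535) (nat_lit 9) (.e (nat_lit 335992) (nat_lit 1) (.e (nat_lit 57870) (nat_lit 264) .nil)))))))) (.g (nat_lit 6) .nil .nil)))) (.nd (nat_lit 4) 
(.lf (nat_lit 17678) (.g (nat_lit 1523) (.e (nat_lit 1171) (nat_lit 87) (.e (nat_lit 57476) (nat_lit 28) (.e (nat_lit 557108) (nat_lit 15) (.e (nat_lit 188458) (nat_lit 25) (.e (nat_lit 245784) (nat_lit 9) .nil))))) .nil)) 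
(.lf (nat_lit 17694) (.g (nat_lit 2585) (.e (nat_lit 1171) (nat_lit 87) (.e (nat_lit 57477) (nat_lit 28) (.e (nat_lit 557107) (nat_lit 15) (.e (nat_lit 188450) (nat_lit 23) (.e (nat_lit 204855) (nat_lit 26) (.e (nat_lit 335992) (nat_lit 1) (.e (nat_lit 57870) (nat_lit 264) .nil))))))) (.g (nat_lit 6) .nil .nil))))))) (.nd (nat_lit 1) (.nd (nat_lit 2) (.nd (nat_lit 3) (.nd (nat_lit 4) 
(.lf (nat_lit 17665) (.g (nat_lit 1005) (.e (nat_lit 1171) (nat_lit 87) (.e (nat_lit 57476) (nat_lit 28) (.e (nat_lit 557108) (nat_lit 15) (.e (nat_lit 188450) (nat_lit 23) .nil)))) .nil)) 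
(.lf (nat_lit 17681) (.g (nat_lit 2909) (.e (nat_lit 1171) (nat_lit 87) (.e (nat_lit 57477) (nat_lit 28) (.e (nat_lit 557097) (nat_lit 13) (.e (nat_lit 172097) (nat_lit 9) (.e (nat_lit 426140) (nat_lit 3) (.e (nat_lit 204855) (nat_lit 26) (.e (nat_lit 335992) (nat_lit 1) (.e (nat_lit 57870) (nat_lit 264) .nil)))))))) (.g (nat_lit 6) .nil .nil)))) (.nd (nat_lit 4) 
(.lf (nat_lit 17673) (.g (nat_lit 2688) (.e (nat_lit 1171) (nat_lit 87) (.e (nat_lit 57476) (nat_lit 28) (.e (nat_lit 557108) (nat_lit 15) (.e (nat_lit 188452) (nat_lit 23) (.e (nat_lit 204859) (nat_lit 26) (.e (nat_lit 335998) (nat_lit 1) (.e (nat_lit 57873) (nat_lit 264) .nil))))))) (.g (nat_lit 4) .nil .nil))) 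
(.lf (nat_lit 17689) (.g (nat_lit 2755) (.e (nat_lit 1171) (nat_lit 87) (.e (nat_lit 57477) (nat_lit 28) (.e (nat_lit 557107) (nat_lit 15) (.e (nat_lit 188447) (nat_lit 22) (.e (nat_lit 196666) (nat_lit 13) (.e (nat_lit 65563) (nat_lit 1) (.e (nat_lit 57870) (nat_lit 264) .nil))))))) (.g (nat_lit 6) .nil .nil))))) (.nd (nat_lit 3) (.nd (nat_lit 4) 
(.lf (nat_lit 17669) (.g (nat_lit 3365) (.e (nat_lit 1171) (nat_lit 87) (.e (nat_lit 57476) (nat_lit 28) (.e (nat_lit 557108) (nat_lit 15) (.e (nat_lit 188452) (nat_lit 23) (.e (nat_lit 204855) (nat_lit 26) (.e (nat_lit 335992) (nat_lit 1) (.e (nat_lit 57870) (nat_lit 264) .nil))))))) (.g (nat_lit 7) .nil .nil))) 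
(.lf (nat_lit 17685) (.g (nat_lit 3376) (.e (nat_lit 1171) (nat_lit 87) (.e (nat_lit 57477) (nat_lit 28) (.e (nat_lit 557097) (nat_lit 13) (.e (nat_lit 172115) (nat_lit 10) (.e (nat_lit 434231) (nat_lit 23) (.e (nat_lit 532535) (nat_lit 9) (.e (nat_lit 335985) (nat_lit 1) (.e (nat_lit 57871) (nat_lit 264) .nil)))))))) (.g (nat_lit 6) .nil .nil)))) (.nd (nat_lit 4) 
(.lf (nat_lit 17677) (.g (nat_lit 4238) (.e (nat_lit 1171) (nat_lit 87) (.e (nat_lit 57476) (nat_lit 28) (.e (nat_lit 557108) (nat_lit 15) (.e (nat_lit 188452) (nat_lit 23) (.e (nat_lit 204863) (nat_lit 27) (.e (nat_lit 344097) (nat_lit 18) (.e (nat_lit 5905) (nat_lit 320) .nil))))))) (.g (nat_lit 0) .nil .nil))) 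
(.lf (nat_lit 17693) (.g (nat_lit 2108) (.e (nat_lit 1171) (nat_lit 87) (.e (nat_lit 57477) (nat_lit 28) (.e (nat_lit 557107) (nat_lit 15) (.e (nat_lit 188450) (nat_lit 23) (.e (nat_lit 204855) (nat_lit 26) (.e (nat_lit 335985) (nat_lit 1) (.e (nat_lit 57871) (nat_lit 264) .nil))))))) (.g (nat_lit 5) .nil .nil)))))) (.nd (nat_lit 2) (.nd (nat_lit 3) (.nd (nat_lit 4) 
(.lf (nat_lit 17667) (.g (nat_lit 1629) (.e (nat_lit 1171) (nat_lit 87) (.e (nat_lit 57476) (nat_lit 28) (.e (nat_lit 557108) (nat_lit 15) (.e (nat_lit 188452) (nat_lit 23) (.e (nat_lit 204855) (nat_lit 26) .nil))))) .nil)) 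
(.lf (nat_lit 17683) (.g (nat_lit 3747) (.e (nat_lit 1171) (nat_lit 87) (.e (nat_lit 57477) (nat_lit 28) (.e (nat_lit 557097) (nat_lit 13) (.e (nat_lit 172097) (nat_lit 9) (.e (nat_lit 426140) (nat_lit 3) (.e (nat_lit 204863) (nat_lit 27) (.e (nat_lit 344097) (nat_lit 18) (.e (nat_lit 5905) (nat_lit 320) .nil)))))))) (.g (nat_lit 7) .nil .nil)))) (.nd (nat_lit 4) 
(.lf (nat_lit 17675) (.g (nat_lit 3914) (.e (nat_lit 1171) (nat_lit 87) (.e (nat_lit 57476) (nat_lit 28) (.e (nat_lit 557108) (nat_lit 15) (.e (nat_lit 188452) (nat_lit 23) (.e (nat_lit 204862) (nat_lit 27) (.e (nat_lit 344097) (nat_lit 18) (.e (nat_lit 5905) (nat_lit 320) .nil))))))) (.g (nat_lit 0) .nil .nil))) 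
(.lf (nat_lit 17691) (.g (nat_lit 2788) (.e (nat_lit 1171) (nat_lit 87) (.e (nat_lit 57477) (nat_lit 28) (.e (nat_lit 557107) (nat_lit 15) (.e (nat_lit 188447) (nat_lit 22) (.e (nat_lit 196666) (nat_lit 13) (.e (nat_lit 65565) (nat_lit 1) (.e (nat_lit 57870) (nat_lit 264) .nil))))))) (.g (nat_lit 6) .nil .nil))))) (.nd (nat_lit 3) (.nd (nat_lit 4) 
(.lf (nat_lit 17671) (.g (nat_lit 3095) (.e (nat_lit 1171) (nat_lit 87) (.e (nat_lit 57476) (nat_lit 28) (.e (nat_lit 557108) (nat_lit 15) (.e (nat_lit 188452) (nat_lit 23) (.e (nat_lit 204856) (nat_lit 26) (.e (nat_lit 335997) (nat_lit 1) (.e (nat_lit 57871) (nat_lit 264) .nil))))))) (.g (nat_lit 6) .nil .nil))) 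
(.lf (nat_lit 17687) (.g (nat_lit 3763) (.e (nat_lit 1171) (nat_lit 87) (.e (nat_lit 57477) (nat_lit 28) (.e (nat_lit 557097) (nat_lit 13) (.e (nat_lit 172115) (nat_lit 10) (.e (nat_lit 434231) (nat_lit 23) (.e (nat_lit 532543) (nat_lit 10) (.e (nat_lit 344097) (nat_lit 18) (.e (nat_lit 5905) (nat_lit 320) .nil)))))))) (.g (nat_lit 7) .nil .nil)))) (.nd (nat_lit 4) 
(.lf (nat_lit 17679) (.g (nat_lit 3183) (.e (nat_lit 1171) (nat_lit 87) (.e (nat_lit 57477) (nat_lit 28) (.e (nat_lit 557097) (nat_lit 13) (.e (nat_lit 172097) (nat_lit 9) (.e (nat_lit 426125) (nat_lit 2) (.e (nat_lit 196666) (nat_lit 13) (.e (nat_lit 65563) (nat_lit 1) (.e (nat_lit 57871) (nat_lit 264) .nil)))))))) (.g (nat_lit 6) .nil .nil))) 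
(.lf (nat_lit 17695) (.g (nat_lit 2856) (.e (nat_lit 1171) (nat_lit 87) (.e (nat_lit 57477) (nat_lit 28) (.e (nat_lit 557107) (nat_lit 15) (.e (nat_lit 188450) (nat_lit 23) (.e (nat_lit 204862) (nat_lit 27) (.e (nat_lit 344097) (nat_lit 18) (.e (nat_lit 5905) (nat_lit 320) .nil))))))) (.g (nat_lit 6) .nil .nil))))))))

noncomputable def tv242 : DT := (.nd (nat_lit 0) (.nd (nat_lit 1) (.nd (nat_lit 2) (.nd (nat_lit 3) (.nd (nat_lit 4) 
(.lf (nat_lit 17696) (.g (nat_lit 3379) (.e (nat_lit 1171) (nat_lit 87) (.e (nat_lit 57477) (nat_lit 28) (.e (nat_lit 557107) (nat_lit 15) (.e (nat_lit 188450) (nat_lit 23) (.e (nat_lit 204863) (nat_lit 27) (.e (nat_lit 344097) (nat_lit 18) (.e (nat_lit 5905) (nat_lit 320) .nil))))))) (.g (nat_lit 6) .nil .nil))) 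
(.lf (nat_lit 17712) (.g (nat_lit 3489) (.e (nat_lit 1171) (nat_lit 87) (.e (nat_lit 57478) (nat_lit 28) (.e (nat_lit 557098) (nat_lit 13) (.e (nat_lit 172097) (nat_lit 9) (.e (nat_lit 426140) (nat_lit 3) (.e (nat_lit 204850) (nat_lit 26) (.e (nat_lit 335997) (nat_lit 1) (.e (nat_lit 57871) (nat_lit 264) .nil)))))))) (.g (nat_lit 0) .nil .nil)))) (.nd (nat_lit 4) 
(.lf (nat_lit 17704) (.g (nat_lit 3466) (.e (nat_lit 1171) (nat_lit 87) (.e (nat_lit 57477) (nat_lit 28) (.e (nat_lit 557108) (nat_lit 15) (.e (nat_lit 188452) (nat_lit 23) (.e (nat_lit 204862) (nat_lit 27) (.e (nat_lit 344097) (nat_lit 18) (.e (nat_lit 5905) (nat_lit 320) .nil))))))) (.g (nat_lit 6) .nil .nil))) 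
(.lf (nat_lit 17720) (.g (nat_lit 3816) (.e (nat_lit 1171) (nat_lit 87) (.e (nat_lit 57478) (nat_lit 28) (.e (nat_lit 557101) (nat_lit 13) (.e (nat_lit 172097) (nat_lit 9) (.e (nat_lit 426125) (nat_lit 2) (.e (nat_lit 196666) (nat_lit 13) (.e (nat_lit 65563) (nat_lit 1) (.e (nat_lit 57871) (nat_lit 264) .nil)))))))) (.g (nat_lit 0) .nil .nil))))) (.nd (nat_lit 3) (.nd (nat_lit 4) 
(.lf (nat_lit 17700) (.g (nat_lit 2822) (.e (nat_lit 1171) (nat_lit 87) (.e (nat_lit 57477) (nat_lit 28) (.e (nat_lit 557108) (nat_lit 15) (.e (nat_lit 188452) (nat_lit 23) (.e (nat_lit 204855) (nat_lit 26) (.e (nat_lit 335985) (nat_lit 1) (.e (nat_lit 57870) (nat_lit 264) .nil))))))) (.g (nat_lit 5) .nil .nil))) 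
(.lf (nat_lit 17716) (.g (nat_lit 4956) (.e (nat_lit 1171) (nat_lit 87) (.e (nat_lit 57478) (nat_lit 28) (.e (nat_lit 557098) (nat_lit 13) (.e (nat_lit 172115) (nat_lit 10) (.e (nat_lit 434231) (nat_lit 23) (.e (nat_lit 532535) (nat_lit 9) (.e (nat_lit 335992) (nat_lit 1) (.e (nat_lit 57870) (nat_lit 264) .nil)))))))) (.g (nat_lit 8) .nil .nil)))) (.nd (nat_lit 4) 
(.lf (nat_lit 17708) (.g (nat_lit 2941) (.e (nat_lit 1171) (nat_lit 87) (.e (nat_lit 57477) (nat_lit 28) (.e (nat_lit 557108) (nat_lit 15) (.e (nat_lit 188452) (nat_lit 23) (.e (nat_lit 204874) (nat_lit 30) (.e (nat_lit 368662) (nat_lit 18) (.e (nat_lit 5905) (nat_lit 320) .nil))))))) (.g (nat_lit 4) .nil .nil))) 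
(.lf (nat_lit 17724) (.g (nat_lit 3735) (.e (nat_lit 1171) (nat_lit 87) (.e (nat_lit 57478) (nat_lit 28) (.e (nat_lit 557101) (nat_lit 13) (.e (nat_lit 172115) (nat_lit 10) (.e (nat_lit 434231) (nat_lit 23) (.e (nat_lit 532535) (nat_lit 9) (.e (nat_lit 335985) (nat_lit 1) (.e (nat_lit 57871) (nat_lit 264) .nil)))))))) (.g (nat_lit 0) .nil .nil)))))) 
(.nd (nat_lit 2) (.nd (nat_lit 3) (.nd (nat_lit 4) 
(.lf (nat_lit 17698) (.g (nat_lit 2506) (.e (nat_lit 1171) (nat_lit 87) (.e (nat_lit 57477) (nat_lit 28) (.e (nat_lit 557108) (nat_lit 15) (.e (nat_lit 188449) (nat_lit 22) (.e (nat_lit 196666) (nat_lit 13) (.e (nat_lit 65565) (nat_lit 1) (.e (nat_lit 57871) (nat_lit 264) .nil))))))) (.g (nat_lit 5) .nil .nil))) 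
(.lf (nat_lit 17714) (.g (nat_lit 3797) (.e (nat_lit 1171) (nat_lit 87) (.e (nat_lit 57478) (nat_lit 28) (.e (nat_lit 557098) (nat_lit 13) (.e (nat_lit 172115) (nat_lit 10) (.e (nat_lit 434231) (nat_lit 23) (.e (nat_lit 532527) (nat_lit 9) (.e (nat_lit 335997) (nat_lit 1) (.e (nat_lit 57871) (nat_lit 264) .nil)))))))) (.g (nat_lit 0) .nil .nil)))) (.nd (nat_lit 4) 
(.lf (nat_lit 17706) (.g (nat_lit 2316) (.e (nat_lit 1171) (nat_lit 87) (.e (nat_lit 57477) (nat_lit 28) (.e (nat_lit 557108) (nat_lit 15) (.e (nat_lit 188452) (nat_lit 23) (.e (nat_lit 204872) (nat_lit 30) .nil))))) .nil)) 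
(.lf (nat_lit 17722) (.g (nat_lit 3366) (.e (nat_lit 1171) (nat_lit 87) (.e (nat_lit 57478) (nat_lit 28) (.e (nat_lit 557101) (nat_lit 13) (.e (nat_lit 172097) (nat_lit 9) (.e (nat_lit 426140) (nat_lit 3) (.e (nat_lit 204855) (nat_lit 26) (.e (nat_lit 335985) (nat_lit 1) (.e (nat_lit 57871) (nat_lit 264) .nil)))))))) (.g (nat_lit 0) .nil .nil))))) (.nd (nat_lit 3) (.nd (nat_lit 4) 
(.lf (nat_lit 17702) (.g (nat_lit 2314) (.e (nat_lit 1171) (nat_lit 87) (.e (nat_lit 57477) (nat_lit 28) (.e (nat_lit 557108) (nat_lit 15) (.e (nat_lit 188452) (nat_lit 23) (.e (nat_lit 204856) (nat_lit 26) .nil))))) .nil)) 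
(.lf (nat_lit 17718) (.g (nat_lit 4234) (.e (nat_lit 1171) (nat_lit 87) (.e (nat_lit 57478) (nat_lit 28) (.e (nat_lit 557100) (nat_lit 13) (.e (nat_lit 172106) (nat_lit 10) (.e (nat_lit 434231) (nat_lit 23) (.e (nat_lit 532527) (nat_lit 9) (.e (nat_lit 335997) (nat_lit 1) (.e (nat_lit 57871) (nat_lit 264) .nil)))))))) (.g (nat_lit 0) .nil .nil)))) (.nd (nat_lit 4) 
(.lf (nat_lit 17710) (.g (nat_lit 3930) (.e (nat_lit 1171) (nat_lit 87) (.e (nat_lit 57478) (nat_lit 28) (.e (nat_lit 557098) (nat_lit 13) (.e (nat_lit 172097) (nat_lit 9) (.e (nat_lit 426125) (nat_lit 2) (.e (nat_lit 196666) (nat_lit 13) (.e (nat_lit 65563) (nat_lit 1) (.e (nat_lit 57871) (nat_lit 264) .nil)))))))) (.g (nat_lit 0) .nil .nil))) 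
(.lf (nat_lit 17726) (.g (nat_lit 2322) (.e (nat_lit 1171) (nat_lit 87) (.e (nat_lit 57478) (nat_lit 28) (.e (nat_lit 557105) (nat_lit 14) (.e (nat_lit 180252) (nat_lit 10) (.e (nat_lit 573488) (nat_lit 14) .nil))))) .nil)))))) (.nd (nat_lit 1) (.nd (nat_lit 2) (.nd (nat_lit 3) (.nd (nat_lit 4) 
(.lf (nat_lit 17697) (.g (nat_lit 2524) (.e (nat_lit 1171) (nat_lit 87) (.e (nat_lit 57477) (nat_lit 28) (.e (nat_lit 557108) (nat_lit 15) (.e (nat_lit 188449) (nat_lit 22) (.e (nat_lit 196666) (nat_lit 13) (.e (nat_lit 65563) (nat_lit 1) (.e (nat_lit 57871) (nat_lit 264) .nil))))))) (.g (nat_lit 5) .nil .nil))) 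
(.lf (nat_lit 17713) (.g (nat_lit 3473) (.e (nat_lit 1171) (nat_lit 87) (.e (nat_lit 57478) (nat_lit 28) (.e (nat_lit 557098) (nat_lit 13) (.e (nat_lit 172097) (nat_lit 9) (.e (nat_lit 426140) (nat_lit 3) (.e (nat_lit 204855) (nat_lit 26) (.e (nat_lit 335985) (nat_lit 1) (.e (nat_lit 57871) (nat_lit 264) .nil)))))))) (.g (nat_lit 0) .nil .nil)))) (.nd (nat_lit 4) 
(.lf (nat_lit 17705) (.g (nat_lit 3791) (.e (nat_lit 1171) (nat_lit 87) (.e (nat_lit 57477) (nat_lit 28) (.e (nat_lit 557108) (nat_lit 15) (.e (nat_lit 188452) (nat_lit 23) (.e (nat_lit 204863) (nat_lit 27) (.e (nat_lit 344097) (nat_lit 18) (.e (nat_lit 5905) (nat_lit 320) .nil))))))) (.g (nat_lit 6) .nil .nil))) 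
(.lf (nat_lit 17721) (.g (nat_lit 3388) (.e (nat_lit 1171) (nat_lit 87) (.e (nat_lit 57478) (nat_lit 28) (.e (nat_lit 557101) (nat_lit 13) (.e (nat_lit 172097) (nat_lit 9) (.e (nat_lit 426140) (nat_lit 3) (.e (nat_lit 204850) (nat_lit 26) (.e (nat_lit 335997) (nat_lit 1) (.e (nat_lit 57871) (nat_lit 264) .nil)))))))) (.g (nat_lit 0) .nil .nil))))) (.nd (nat_lit 3) (.nd (nat_lit 4) 
(.lf (nat_lit 17701) (.g (nat_lit 3033) (.e (nat_lit 1171) (nat_lit 87) (.e (nat_lit 57477) (nat_lit 28) (.e (nat_lit 557108) (nat_lit 15) (.e (nat_lit 188452) (nat_lit 23) (.e (nat_lit 204855) (nat_lit 26) (.e (nat_lit 335992) (nat_lit 1) (.e (nat_lit 57870) (nat_lit 264) .nil))))))) (.g (nat_lit 6) .nil .nil))) 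
(.lf (nat_lit 17717) (.g (nat_lit 3545) (.e (nat_lit 1171) (nat_lit 87) (.e (nat_lit 57478) (nat_lit 28) (.e (nat_lit 557098) (nat_lit 13) (.e (nat_lit 172115) (nat_lit 10) (.e (nat_lit 434231) (nat_lit 23) (.e (nat_lit 532554) (nat_lit 13) (.e (nat_lit 368662) (nat_lit 18) (.e (nat_lit 5905) (nat_lit 320) .nil)))))))) (.g (nat_lit 6) .nil .nil)))) (.nd (nat_lit 4) 
(.lf (nat_lit 17709) (.g (nat_lit 1228) (.e (nat_lit 1171) (nat_lit 87) (.e (nat_lit 57477) (nat_lit 28) (.e (nat_lit 557108) (nat_lit 15) (.e (nat_lit 188458) (nat_lit 25) .nil)))) .nil)) 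
(.lf (nat_lit 17725) (.g (nat_lit 4815) (.e (nat_lit 1171) (nat_lit 87) (.e (nat_lit 57478) (nat_lit 28) (.e (nat_lit 557101) (nat_lit 13) (.e (nat_lit 172115) (nat_lit 10) (.e (nat_lit 434231) (nat_lit 23) (.e (nat_lit 532535) (nat_lit 9) (.e (nat_lit 335992) (nat_lit 1) (.e (nat_lit 57870) (nat_lit 264) .nil)))))))) (.g (nat_lit 8) .nil .nil)))))) 
(.nd (nat_lit 2) (.nd (nat_lit 3) (.nd (nat_lit 4) 
(.lf (nat_lit 17699) (.g (nat_lit 3203) (.e (nat_lit 1171) (nat_lit 87) (.e (nat_lit 57477) (nat_lit 28) (.e (nat_lit 557108) (nat_lit 15) (.e (nat_lit 188452) (nat_lit 23) (.e (nat_lit 204855) (nat_lit 26) (.e (nat_lit 335923) (nat_lit 0) (.e (nat_lit 1023) (nat_lit 81) (.e (nat_lit 5905) (nat_lit 320) .nil)))))))) (.g (nat_lit 5) .nil .nil))) 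
(.lf (nat_lit 17715) (.g (nat_lit 3875) (.e (nat_lit 1171) (nat_lit 87) (.e (nat_lit 57478) (nat_lit 28) (.e (nat_lit 557098) (nat_lit 13) (.e (nat_lit 172115) (nat_lit 10) (.e (nat_lit 434231) (nat_lit 23) (.e (nat_lit 532535) (nat_lit 9) (.e (nat_lit 335985) (nat_lit 1) (.e (nat_lit 57871) (nat_lit 264) .nil)))))))) (.g (nat_lit 0) .nil .nil)))) (.nd (nat_lit 4) 
(.lf (nat_lit 17707) (.g (nat_lit 2765) (.e (nat_lit 1171) (nat_lit 87) (.e (nat_lit 57477) (nat_lit 28) (.e (nat_lit 557108) (nat_lit 15) (.e (nat_lit 188452) (nat_lit 23) (.e (nat_lit 204873) (nat_lit 30) (.e (nat_lit 368662) (nat_lit 18) (.e (nat_lit 5905) (nat_lit 320) .nil))))))) (.g (nat_lit 4) .nil .nil))) 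
(.lf (nat_lit 17723) (.g (nat_lit 3689) (.e (nat_lit 1171) (nat_lit 87) (.e (nat_lit 57478) (nat_lit 28) (.e (nat_lit 557101) (nat_lit 13) (.e (nat_lit 172115) (nat_lit 10) (.e (nat_lit 434231) (nat_lit 23) (.e (nat_lit 532527) (nat_lit 9) (.e (nat_lit 335997) (nat_lit 1) (.e (nat_lit 57871) (nat_lit 264) .nil)))))))) (.g (nat_lit 0) .nil .nil))))) (.nd (nat_lit 3) (.nd (nat_lit 4) 
(.lf (nat_lit 17703) (.g (nat_lit 2404) (.e (nat_lit 1171) (nat_lit 87) (.e (nat_lit 57477) (nat_lit 28) (.e (nat_lit 557108) (nat_lit 15) (.e (nat_lit 188452) (nat_lit 23) (.e (nat_lit 204856) (nat_lit 26) (.e (nat_lit 335997) (nat_lit 1) (.e (nat_lit 57870) (nat_lit 264) .nil))))))) (.g (nat_lit 4) .nil .nil))) 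
(.lf (nat_lit 17719) (.g (nat_lit 4256) (.e (nat_lit 1171) (nat_lit 87) (.e (nat_lit 57478) (nat_lit 28) (.e (nat_lit 557100) (nat_lit 13) (.e (nat_lit 172106) (nat_lit 10) (.e (nat_lit 434231) (nat_lit 23) (.e (nat_lit 532535) (nat_lit 9) (.e (nat_lit 335992) (nat_lit 1) (.e (nat_lit 57870) (nat_lit 264) .nil)))))))) (.g (nat_lit 6) .nil .nil)))) (.nd (nat_lit 4) 
(.lf (nat_lit 17711) (.g (nat_lit 3820) (.e (nat_lit 1171) (nat_lit 87) (.e (nat_lit 57478) (nat_lit 28) (.e (nat_lit 557098) (nat_lit 13) (.e (nat_lit 172097) (nat_lit 9) (.e (nat_lit 426125) (nat_lit 2) (.e (nat_lit 196666) (nat_lit 13) (.e (nat_lit 65565) (nat_lit 1) (.e (nat_lit 57871) (nat_lit 264) .nil)))))))) (.g (nat_lit 0) .nil .nil))) 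
(.lf (nat_lit 17727) (.g (nat_lit 1775) (.e (nat_lit 1171) (nat_lit 87) (.e (nat_lit 57478) (nat_lit 28) (.e (nat_lit 557107) (nat_lit 15) (.e (nat_lit 188447) (nat_lit 22) (.e (nat_lit 196666) (nat_lit 13) .nil))))) .nil)))))))

noncomputable def tv243 : DT := (.nd (nat_lit 0) (.nd (nat_lit 1) (.nd (nat_lit 2) (.nd (nat_lit 3) (.nd (nat_lit 4) (.nd (nat_lit 5) 
(.lf (nat_lit 17728) (.g (nat_lit 2375) (.e (nat_lit 1171) (nat_lit 87) (.e (nat_lit 57478) (nat_lit 28) (.e (nat_lit 557107) (nat_lit 15) (.e (nat_lit 188447) (nat_lit 22) (.e (nat_lit 196681) (nat_lit 17) .nil))))) .nil)) 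
(.lf (nat_lit 17760) (.g (nat_lit 2291) (.e (nat_lit 1171) (nat_lit 87) (.e (nat_lit 57478) (nat_lit 28) (.e (nat_lit 557108) (nat_lit 15) (.e (nat_lit 188452) (nat_lit 23) (.e (nat_lit 204885) (nat_lit 33) .nil))))) .nil))) (.nd (nat_lit 5) 
(.lf (nat_lit 17744) (.g (nat_lit 3330) (.e (nat_lit 1171) (nat_lit 87) (.e (nat_lit 57478) (nat_lit 28) (.e (nat_lit 557108) (nat_lit 15) (.e (nat_lit 188452) (nat_lit 23) (.e (nat_lit 204816) (nat_lit 17) (.e (nat_lit 6436) (nat_lit 343) (.e (nat_lit 1183) (nat_lit 87) (.e (nat_lit 57871) (nat_lit 264) .nil)))))))) (.g (nat_lit 6) .nil .nil))) 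
(.lf (nat_lit 17776) (.g (nat_lit 3495) (.e (nat_lit 1171) (nat_lit 87) (.e (nat_lit 57478) (nat_lit 28) (.e (nat_lit 557109) (nat_lit 15) (.e (nat_lit 188450) (nat_lit 23) (.e (nat_lit 204855) (nat_lit 26) (.e (nat_lit 335985) (nat_lit 1) (.e (nat_lit 57870) (nat_lit 264) .nil))))))) (.g (nat_lit 4) .nil .nil))))) (.nd (nat_lit 4) (.nd (nat_lit 5) 
(.lf (nat_lit 17736) (.g (nat_lit 2028) (.e (nat_lit 1171) (nat_lit 87) (.e (nat_lit 57478) (nat_lit 28) (.e (nat_lit 557107) (nat_lit 15) (.e (nat_lit 188450) (nat_lit 23) (.e (nat_lit 204858) (nat_lit 26) .nil))))) .nil)) 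
(.lf (nat_lit 17768) (.g (nat_lit 4078) (.e (nat_lit 1171) (nat_lit 87) (.e (nat_lit 57478) (nat_lit 28) (.e (nat_lit 557109) (nat_lit 15) (.e (nat_lit 188449) (nat_lit 22) (.e (nat_lit 196630) (nat_lit 9) (.e (nat_lit 1462) (nat_lit 108) (.e (nat_lit 335997) (nat_lit 1) (.e (nat_lit 57870) (nat_lit 264) .nil)))))))) (.g (nat_lit 5) .nil .nil)))) (.nd (nat_lit 5) 
(.lf (nat_lit 17752) (.g (nat_lit 3736) (.e (nat_lit 1171) (nat_lit 87) (.e (nat_lit 57478) (nat_lit 28) (.e (nat_lit 557108) (nat_lit 15) (.e (nat_lit 188452) (nat_lit 23) (.e (nat_lit 204856) (nat_lit 26) .nil))))) .nil)) 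
(.lf (nat_lit 17784) (.g (nat_lit 3615) (.e (nat_lit 1171) (nat_lit 87) (.e (nat_lit 57478) (nat_lit 28) (.e (nat_lit 557109) (nat_lit 15) (.e (nat_lit 188452) (nat_lit 23) (.e (nat_lit 204821) (nat_lit 17) .nil))))) .nil))))) (.nd (nat_lit 3) (.nd (nat_lit 4) (.nd (nat_lit 5) 
(.lf (nat_lit 17732) (.g (nat_lit 1608) (.e (nat_lit 1171) (nat_lit 87) (.e (nat_lit 57478) (nat_lit 28) (.e (nat_lit 557107) (nat_lit 15) (.e (nat_lit 188450) (nat_lit 23) (.e (nat_lit 204855) (nat_lit 26) .nil))))) .nil)) 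
(.lf (nat_lit 17764) (.g (nat_lit 3772) (.e (nat_lit 1171) (nat_lit 87) (.e (nat_lit 57478) (nat_lit 28) (.e (nat_lit 557109) (nat_lit 15) (.e (nat_lit 188447) (nat_lit 22) (.e (nat_lit 196670) (nat_lit 14) .nil))))) .nil))) (.nd (nat_lit 5) 
(.lf (nat_lit 17748) (.g (nat_lit 2718) (.e (nat_lit 1171) (nat_lit 87) (.e (nat_lit 57478) (nat_lit 28) (.e (nat_lit 557108) (nat_lit 15) (.e (nat_lit 188452) (nat_lit 23) (.e (nat_lit 204849) (nat_lit 25) .nil))))) .nil)) 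
(.lf (nat_lit 17780) (.g (nat_lit 3365) (.e (nat_lit 1171) (nat_lit 87) (.e (nat_lit 57478) (nat_lit 28) (.e (nat_lit 557109) (nat_lit 15) (.e (nat_lit 188450) (nat_lit 23) (.e (nat_lit 204863) (nat_lit 27) .nil))))) .nil)))) (.nd (nat_lit 4) (.nd (nat_lit 5) 
(.lf (nat_lit 17740) (.g (nat_lit 502) (.e (nat_lit 1171) (nat_lit 87) (.e (nat_lit 57478) (nat_lit 28) (.e (nat_lit 557108) (nat_lit 15) .nil))) .nil)) 
(.lf (nat_lit 17772) (.g (nat_lit 4263) (.e (nat_lit 1171) (nat_lit 87) (.e (nat_lit 57478) (nat_lit 28) (.e (nat_lit 557109) (nat_lit 15) (.e (nat_lit 188449) (nat_lit 22) (.e (nat_lit 196667) (nat_lit 14) .nil))))) .nil))) (.nd (nat_lit 5) 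
(.lf (nat_lit 17756) (.g (nat_lit 3154) (.e (nat_lit 1171) (nat_lit 87) (.e (nat_lit 57478) (nat_lit 28) (.e (nat_lit 557108) (nat_lit 15) (.e (nat_lit 188452) (nat_lit 23) (.e (nat_lit 204872) (nat_lit 30) .nil))))) .nil)) 
(.lf (nat_lit 17788) (.g (nat_lit 2311) (.e (nat_lit 1171) (nat_lit 87) (.e (nat_lit 57478) (nat_lit 28) (.e (nat_lit 557109) (nat_lit 15) (.e (nat_lit 188452) (nat_lit 23) (.e (nat_lit 204855) (nat_lit 26) .nil))))) .nil)))))) (.nd (nat_lit 2) (.nd (nat_lit 3) (.nd (nat_lit 4) (.nd (nat_lit 5) 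
(.lf (nat_lit 17730) (.g (nat_lit 1684) (.e (nat_lit 1171) (nat_lit 87) (.e (nat_lit 57478) (nat_lit 28) (.e (nat_lit 557107) (nat_lit 15) (.e (nat_lit 188450) (nat_lit 23) (.e (nat_lit 204817) (nat_lit 17) .nil))))) .nil)) 
(.lf (nat_lit 17762) (.g (nat_lit 3419) (.e (nat_lit 1171) (nat_lit 87) (.e (nat_lit 57478) (nat_lit 28) (.e (nat_lit 557109) (nat_lit 15) (.e (nat_lit 188447) (nat_lit 22) (.e (nat_lit 196666) (nat_lit 13) .nil))))) .nil))) (.nd (nat_lit 5) 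
(.lf (nat_lit 17746) (.g (nat_lit 2604) (.e (nat_lit 1171) (nat_lit 87) (.e (nat_lit 57478) (nat_lit 28) (.e (nat_lit 557108) (nat_lit 15) (.e (nat_lit 188452) (nat_lit 23) (.e (nat_lit 204817) (nat_lit 17) (.e (nat_lit 7936) (nat_lit 343) (.e (nat_lit 1183) (nat_lit 87) (.e (nat_lit 57870) (nat_lit 264) .nil)))))))) (.g (nat_lit 4) .nil .nil))) 
(.lf (nat_lit 17778) (.g (nat_lit 3662) (.e (nat_lit 1171) (nat_lit 87) (.e (nat_lit 57478) (nat_lit 28) (.e (nat_lit 557109) (nat_lit 15) (.e (nat_lit 188450) (nat_lit 23) (.e (nat_lit 204861) (nat_lit 26) .nil))))) .nil)))) (.nd (nat_lit 4) (.nd (nat_lit 5) 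
(.lf (nat_lit 17738) (.g (nat_lit 1683) (.e (nat_lit 1171) (nat_lit 87) (.e (nat_lit 57478) (nat_lit 28) (.e (nat_lit 557107) (nat_lit 15) (.e (nat_lit 188450) (nat_lit 23) (.e (nat_lit 204872) (nat_lit 30) .nil))))) .nil)) 
(.lf (nat_lit 17770) (.g (nat_lit 3724) (.e (nat_lit 1171) (nat_lit 87) (.e (nat_lit 57478) (nat_lit 28) (.e (nat_lit 557109) (nat_lit 15) (.e (nat_lit 188449) (nat_lit 22) (.e (nat_lit 196666) (nat_lit 13) (.e (nat_lit 65563) (nat_lit 1) (.e (nat_lit 57871) (nat_lit 264) .nil))))))) (.g (nat_lit 0) .nil .nil)))) (.nd (nat_lit 5) 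
(.lf (nat_lit 17754) (.g (nat_lit 4809) (.e (nat_lit 1171) (nat_lit 87) (.e (nat_lit 57478) (nat_lit 28) (.e (nat_lit 557108) (nat_lit 15) (.e (nat_lit 188452) (nat_lit 23) (.e (nat_lit 204861) (nat_lit 26) .nil))))) .nil)) 
(.lf (nat_lit 17786) (.g (nat_lit 3664) (.e (nat_lit 1171) (nat_lit 87) (.e (nat_lit 57478) (nat_lit 28) (.e (nat_lit 557109) (nat_lit 15) (.e (nat_lit 188452) (nat_lit 23) (.e (nat_lit 204850) (nat_lit 26) (.e (nat_lit 335997) (nat_lit 1) (.e (nat_lit 57871) (nat_lit 264) .nil))))))) (.g (nat_lit 0) .nil .nil)))))) (.nd (nat_lit 3) (.nd (nat_lit 4) (.nd (nat_lit 5) 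
(.lf (nat_lit 17734) (.g (nat_lit 1894) (.e (nat_lit 1171) (nat_lit 87) (.e (nat_lit 57478) (nat_lit 28) (.e (nat_lit 557107) (nat_lit 15) (.e (nat_lit 188450) (nat_lit 23) (.e (nat_lit 204856) (nat_lit 26) .nil))))) .nil)) 
(.lf (nat_lit 17766) (.g (nat_lit 3844) (.e (nat_lit 1171) (nat_lit 87) (.e (nat_lit 57478) (nat_lit 28) (.e (nat_lit 557109) (nat_lit 15) (.e (nat_lit 188447) (nat_lit 22) (.e (nat_lit 196681) (nat_lit 17) (.e (nat_lit 131088) (nat_lit 1) (.e (nat_lit 57870) (nat_lit 264) .nil))))))) (.g (nat_lit 4) .nil .nil)))) (.nd (nat_lit 5) 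
(.lf (nat_lit 17750) (.g (nat_lit 3323) (.e (nat_lit 1171) (nat_lit 87) (.e (nat_lit 57478) (nat_lit 28) (.e (nat_lit 557108) (nat_lit 15) (.e (nat_lit 188452) (nat_lit 23) (.e (nat_lit 204850) (nat_lit 26) (.e (nat_lit 335997) (nat_lit 1) (.e (nat_lit 57871) (nat_lit 264) .nil))))))) (.g (nat_lit 4) .nil .nil))) 
(.lf (nat_lit 17782) (.g (nat_lit 3585) (.e (nat_lit 1171) (nat_lit 87) (.e (nat_lit 57478) (nat_lit 28) (.e (nat_lit 557109) (nat_lit 15) (.e (nat_lit 188450) (nat_lit 23) (.e (nat_lit 204873) (nat_lit 30) .nil))))) .nil)))) (.nd (nat_lit 4) (.nd (nat_lit 5) 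
(.lf (nat_lit 17742) (.g (nat_lit 6187) (.e (nat_lit 1171) (nat_lit 87) (.e (nat_lit 57478) (nat_lit 28) (.e (nat_lit 557108) (nat_lit 15) (.e (nat_lit 188449) (nat_lit 22) (.e (nat_lit 196670) (nat_lit 14) .nil))))) .nil)) 
(.lf (nat_lit 17774) (.g (nat_lit 5342) (.e (nat_lit 1171) (nat_lit 87) (.e (nat_lit 57478) (nat_lit 28) (.e (nat_lit 557109) (nat_lit 15) (.e (nat_lit 188449) (nat_lit 22) (.e (nat_lit 196681) (nat_lit 17) (.e (nat_lit 131088) (nat_lit 1) (.e (nat_lit 57870) (nat_lit 264) .nil))))))) (.g (nat_lit 5) .nil .nil)))) (.nd (nat_lit 5) 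
(.lf (nat_lit 17758) (.g (nat_lit 3343) (.e (nat_lit 1171) (nat_lit 87) (.e (nat_lit 57478) (nat_lit 28) (.e (nat_lit 557108) (nat_lit 15) (.e (nat_lit 188452) (nat_lit 23) (.e (nat_lit 204873) (nat_lit 30) (.e (nat_lit 368662) (nat_lit 18) (.e (nat_lit 5902) (nat_lit 320) .nil))))))) (.g (nat_lit 4) .nil .nil))) 
(.lf (nat_lit 17790) (.g (nat_lit 4025) (.e (nat_lit 1171) (nat_lit 87) (.e (nat_lit 57478) (nat_lit 28) (.e (nat_lit 557109) (nat_lit 15) (.e (nat_lit 188452) (nat_lit 23) (.e (nat_lit 204855) (nat_lit 26) (.e (nat_lit 335992) (nat_lit 1) (.e (nat_lit 57870) (nat_lit 264) .nil))))))) (.g (nat_lit 7) .nil .nil)))))))) 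
(.nd (nat_lit 1) (.nd (nat_lit 2) (.nd (nat_lit 3) (.nd (nat_lit 4) (.nd (nat_lit 5) 
(.lf (nat_lit 17729) (.g (nat_lit 1047) (.e (nat_lit 1171) (nat_lit 87) (.e (nat_lit 57478) (nat_lit 28) (.e (nat_lit 557107) (nat_lit 15) (.e (nat_lit 188450) (nat_lit 23) .nil)))) .nil)) 
(.lf (nat_lit 17761) (.g (nat_lit 3386) (.e (nat_lit 1171) (nat_lit 87) (.e (nat_lit 57478) (nat_lit 28) (.e (nat_lit 557109) (nat_lit 15) (.e (nat_lit 188434) (nat_lit 20) (.e (nat_lit 3272) (nat_lit 199) .nil))))) .nil))) (.nd (nat_lit 5) 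
(.lf (nat_lit 17745) (.g (nat_lit 2520) (.e (nat_lit 1171) (nat_lit 87) (.e (nat_lit 57478) (nat_lit 28) (.e (nat_lit 557108) (nat_lit 15) (.e (nat_lit 188452) (nat_lit 23) (.e (nat_lit 204817) (nat_lit 17) .nil))))) .nil)) 
(.lf (nat_lit 17777) (.g (nat_lit 3423) (.e (nat_lit 1171) (nat_lit 87) (.e (nat_lit 57478) (nat_lit 28) (.e (nat_lit 557109) (nat_lit 15) (.e (nat_lit 188450) (nat_lit 23) (.e (nat_lit 204855) (nat_lit 26) (.e (nat_lit 335985) (nat_lit 1) (.e (nat_lit 57871) (nat_lit 264) .nil))))))) (.g (nat_lit 4) .nil .nil))))) (.nd (nat_lit 4) (.nd (nat_lit 5) 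
(.lf (nat_lit 17737) (.g (nat_lit 4128) (.e (nat_lit 1171) (nat_lit 87) (.e (nat_lit 57478) (nat_lit 28) (.e (nat_lit 557107) (nat_lit 15) (.e (nat_lit 188450) (nat_lit 23) (.e (nat_lit 204863) (nat_lit 27) (.e (nat_lit 344097) (nat_lit 18) (.e (nat_lit 5905) (nat_lit 320) .nil))))))) (.g (nat_lit 7) .nil .nil))) 
(.lf (nat_lit 17769) (.g (nat_lit 2055) (.e (nat_lit 1171) (nat_lit 87) (.e (nat_lit 57478) (nat_lit 28) (.e (nat_lit 557109) (nat_lit 15) (.e (nat_lit 188449) (nat_lit 22) (.e (nat_lit 196666) (nat_lit 13) .nil))))) .nil))) (.nd (nat_lit 5) 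
(.lf (nat_lit 17753) (.g (nat_lit 4610) (.e (nat_lit 1171) (nat_lit 87) (.e (nat_lit 57478) (nat_lit 28) (.e (nat_lit 557108) (nat_lit 15) (.e (nat_lit 188452) (nat_lit 23) (.e (nat_lit 204859) (nat_lit 26) .nil))))) .nil)) 
(.lf (nat_lit 17785) (.g (nat_lit 2443) (.e (nat_lit 1171) (nat_lit 87) (.e (nat_lit 57478) (nat_lit 28) (.e (nat_lit 557109) (nat_lit 15) (.e (nat_lit 188452) (nat_lit 23) (.e (nat_lit 204850) (nat_lit 26) .nil))))) .nil))))) (.nd (nat_lit 3) (.nd (nat_lit 4) (.nd (nat_lit 5) 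
(.lf (nat_lit 17733) (.g (nat_lit 3233) (.e (nat_lit 1171) (nat_lit 87) (.e (nat_lit 57478) (nat_lit 28) (.e (nat_lit 557107) (nat_lit 15) (.e (nat_lit 188450) (nat_lit 23) (.e (nat_lit 204855) (nat_lit 26) (.e (nat_lit 335992) (nat_lit 1) (.e (nat_lit 57870) (nat_lit 264) .nil))))))) (.g (nat_lit 7) .nil .nil))) 
(.lf (nat_lit 17765) (.g (nat_lit 3777) (.e (nat_lit 1171) (nat_lit 87) (.e (nat_lit 57478) (nat_lit 28) (.e (nat_lit 557109) (nat_lit 15) (.e (nat_lit 188447) (nat_lit 22) (.e (nat_lit 196681) (nat_lit 17) .nil))))) .nil))) (.nd (nat_lit 5) 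
(.lf (nat_lit 17749) (.g (nat_lit 3346) (.e (nat_lit 1171) (nat_lit 87) (.e (nat_lit 57478) (nat_lit 28) (.e (nat_lit 557108) (nat_lit 15) (.e (nat_lit 188452) (nat_lit 23) (.e (nat_lit 204850) (nat_lit 26) (.e (nat_lit 335997) (nat_lit 1) (.e (nat_lit 57870) (nat_lit 264) .nil))))))) (.g (nat_lit 4) .nil .nil))) 
(.lf (nat_lit 17781) (.g (nat_lit 3626) (.e (nat_lit 1171) (nat_lit 87) (.e (nat_lit 57478) (nat_lit 28) (.e (nat_lit 557109) (nat_lit 15) (.e (nat_lit 188450) (nat_lit 23) (.e (nat_lit 204872) (nat_lit 30) .nil))))) .nil)))) (.nd (nat_lit 4) (.nd (nat_lit 5) 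
(.lf (nat_lit 17741) (.g (nat_lit 4852) (.e (nat_lit 1171) (nat_lit 87) (.e (nat_lit 57478) (nat_lit 28) (.e (nat_lit 557108) (nat_lit 15) (.e (nat_lit 188449) (nat_lit 22) (.e (nat_lit 196666) (nat_lit 13) .nil))))) .nil)) 
(.lf (nat_lit 17773) (.g (nat_lit 4473) (.e (nat_lit 1171) (nat_lit 87) (.e (nat_lit 57478) (nat_lit 28) (.e (nat_lit 557109) (nat_lit 15) (.e (nat_lit 188449) (nat_lit 22) (.e (nat_lit 196667) (nat_lit 14) (.e (nat_lit 73732) (nat_lit 0) (.e (nat_lit 5905) (nat_lit 320) .nil))))))) (.g (nat_lit 5) .nil .nil)))) (.nd (nat_lit 5) 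
(.lf (nat_lit 17757) (.g (nat_lit 3168) (.e (nat_lit 1171) (nat_lit 87) (.e (nat_lit 57478) (nat_lit 28) (.e (nat_lit 557108) (nat_lit 15) (.e (nat_lit 188452) (nat_lit 23) (.e (nat_lit 204873) (nat_lit 30) .nil))))) .nil)) 
(.lf (nat_lit 17789) (.g (nat_lit 3704) (.e (nat_lit 1171) (nat_lit 87) (.e (nat_lit 57478) (nat_lit 28) (.e (nat_lit 557109) (nat_lit 15) (.e (nat_lit 188452) (nat_lit 23) (.e (nat_lit 204855) (nat_lit 26) (.e (nat_lit 335985) (nat_lit 1) (.e (nat_lit 57871) (nat_lit 264) .nil))))))) (.g (nat_lit 0) .nil .nil))))))) (.nd (nat_lit 2) (.nd (nat_lit 3) (.nd (nat_lit 4) (.nd (nat_lit 5) 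
(.lf (nat_lit 17731) (.g (nat_lit 2822) (.e (nat_lit 1171) (nat_lit 87) (.e (nat_lit 57478) (nat_lit 28) (.e (nat_lit 557107) (nat_lit 15) (.e (nat_lit 188450) (nat_lit 23) (.e (nat_lit 204850) (nat_lit 26) (.e (nat_lit 335997) (nat_lit 1) (.e (nat_lit 57871) (nat_lit 264) .nil))))))) (.g (nat_lit 0) .nil .nil))) 
(.lf (nat_lit 17763) (.g (nat_lit 3208) (.e (nat_lit 1171) (nat_lit 87) (.e (nat_lit 57478) (nat_lit 28) (.e (nat_lit 557109) (nat_lit 15) (.e (nat_lit 188447) (nat_lit 22) (.e (nat_lit 196668) (nat_lit 14) .nil))))) .nil))) (.nd (nat_lit 5) 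
(.lf (nat_lit 17747) (.g (nat_lit 2607) (.e (nat_lit 1171) (nat_lit 87) (.e (nat_lit 57478) (nat_lit 28) (.e (nat_lit 557108) (nat_lit 15) (.e (nat_lit 188452) (nat_lit 23) (.e (nat_lit 204817) (nat_lit 17) (.e (nat_lit 7936) (nat_lit 346) (.e (nat_lit 57354) (nat_lit 0) (.e (nat_lit 5905) (nat_lit 320) .nil)))))))) (.g (nat_lit 4) .nil .nil))) 
(.lf (nat_lit 17779) (.g (nat_lit 3363) (.e (nat_lit 1171) (nat_lit 87) (.e (nat_lit 57478) (nat_lit 28) (.e (nat_lit 557109) (nat_lit 15) (.e (nat_lit 188450) (nat_lit 23) (.e (nat_lit 204862) (nat_lit 27) .nil))))) .nil)))) (.nd (nat_lit 4) (.nd (nat_lit 5) 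
(.lf (nat_lit 17739) (.g (nat_lit 1844) (.e (nat_lit 1171) (nat_lit 87) (.e (nat_lit 57478) (nat_lit 28) (.e (nat_lit 557107) (nat_lit 15) (.e (nat_lit 188450) (nat_lit 23) (.e (nat_lit 204873) (nat_lit 30) (.e (nat_lit 368662) (nat_lit 18) (.e (nat_lit 5907) (nat_lit 320) .nil))))))) (.g (nat_lit 4) .nil .nil))) 
(.lf (nat_lit 17771) (.g (nat_lit 3712) (.e (nat_lit 1171) (nat_lit 87) (.e (nat_lit 57478) (nat_lit 28) (.e (nat_lit 557109) (nat_lit 15) (.e (nat_lit 188449) (nat_lit 22) (.e (nat_lit 196666) (nat_lit 13) (.e (nat_lit 65565) (nat_lit 1) (.e (nat_lit 57871) (nat_lit 264) .nil))))))) (.g (nat_lit 0) .nil .nil)))) (.nd (nat_lit 5) 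
(.lf (nat_lit 17755) (.g (nat_lit 2899) (.e (nat_lit 1171) (nat_lit 87) (.e (nat_lit 57478) (nat_lit 28) (.e (nat_lit 557108) (nat_lit 15) (.e (nat_lit 188452) (nat_lit 23) (.e (nat_lit 212736) (nat_lit 26) (.e (nat_lit 335995) (nat_lit 1) (.e (nat_lit 57870) (nat_lit 264) .nil))))))) (.g (nat_lit 4) .nil .nil))) 
(.lf (nat_lit 17787) (.g (nat_lit 2593) (.e (nat_lit 1171) (nat_lit 87) (.e (nat_lit 57478) (nat_lit 28) (.e (nat_lit 557109) (nat_lit 15) (.e (nat_lit 188452) (nat_lit 23) (.e (nat_lit 204852) (nat_lit 26) .nil))))) .nil))))) (.nd (nat_lit 3) (.nd (nat_lit 4) (.nd (nat_lit 5) 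
(.lf (nat_lit 17735) (.g (nat_lit 2174) (.e (nat_lit 1171) (nat_lit 87) (.e (nat_lit 57478) (nat_lit 28) (.e (nat_lit 557107) (nat_lit 15) (.e (nat_lit 188450) (nat_lit 23) (.e (nat_lit 204857) (nat_lit 26) .nil))))) .nil)) 
(.lf (nat_lit 17767) (.g (nat_lit 3106) (.e (nat_lit 1171) (nat_lit 87) (.e (nat_lit 57478) (nat_lit 28) (.e (nat_lit 557109) (nat_lit 15) (.e (nat_lit 188449) (nat_lit 22) (.e (nat_lit 196630) (nat_lit 9) .nil))))) .nil))) (.nd (nat_lit 5) 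
(.lf (nat_lit 17751) (.g (nat_lit 3375) (.e (nat_lit 1171) (nat_lit 87) (.e (nat_lit 57478) (nat_lit 28) (.e (nat_lit 557108) (nat_lit 15) (.e (nat_lit 188452) (nat_lit 23) (.e (nat_lit 204852) (nat_lit 26) .nil))))) .nil)) 
(.lf (nat_lit 17783) (.g (nat_lit 3611) (.e (nat_lit 1171) (nat_lit 87) (.e (nat_lit 57478) (nat_lit 28) (.e (nat_lit 557109) (nat_lit 15) (.e (nat_lit 188452) (nat_lit 23) (.e (nat_lit 204817) (nat_lit 17) .nil))))) .nil)))) (.nd (nat_lit 4) (.nd (nat_lit 5) 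
(.lf (nat_lit 17743) (.g (nat_lit 2307) (.e (nat_lit 1171) (nat_lit 87) (.e (nat_lit 57478) (nat_lit 28) (.e (nat_lit 557108) (nat_lit 15) (.e (nat_lit 188452) (nat_lit 23) (.e (nat_lit 204816) (nat_lit 17) .nil))))) .nil)) 
(.lf (nat_lit 17775) (.g (nat_lit 1906) (.e (nat_lit 1171) (nat_lit 87) (.e (nat_lit 57478) (nat_lit 28) (.e (nat_lit 557109) (nat_lit 15) (.e (nat_lit 188450) (nat_lit 23) .nil)))) .nil))) (.nd (nat_lit 5) 
(.lf (nat_lit 17759) (.g (nat_lit 3077) (.e (nat_lit 1171) (nat_lit 87) (.e (nat_lit 57478) (nat_lit 28) (.e (nat_lit 557108) (nat_lit 15) (.e (nat_lit 188452) (nat_lit 23) (.e (nat_lit 204874) (nat_lit 30) .nil))))) .nil)) 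
(.lf (nat_lit 17791) (.g (nat_lit 4463) (.e (nat_lit 1171) (nat_lit 87) (.e (nat_lit 57478) (nat_lit 28) (.e (nat_lit 557109) (nat_lit 15) (.e (nat_lit 188452) (nat_lit 23) (.e (nat_lit 204856) (nat_lit 26) (.e (nat_lit 335997) (nat_lit 1) (.e (nat_lit 57870) (nat_lit 264) .nil))))))) (.g (nat_lit 7) .nil .nil)))))))))

noncomputable def tv244 : DT := (.nd (nat_lit 0) (.nd (nat_lit 1) (.nd (nat_lit 2) (.nd (nat_lit 3) (.nd (nat_lit 4) (.nd (nat_lit 5) 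
(.lf (nat_lit 17792) (.g (nat_lit 4426) (.e (nat_lit 1171) (nat_lit 87) (.e (nat_lit 57478) (nat_lit 28) (.e (nat_lit 557109) (nat_lit 15) (.e (nat_lit 188452) (nat_lit 23) (.e (nat_lit 204856) (nat_lit 26) (.e (nat_lit 335997) (nat_lit 1) (.e (nat_lit 57871) (nat_lit 264) .nil))))))) (.g (nat_lit 7) .nil .nil))) 
(.lf (nat_lit 17824) (.g (nat_lit 2798) (.e (nat_lit 1171) (nat_lit 87) (.e (nat_lit 57479) (nat_lit 28) (.e (nat_lit 557109) (nat_lit 15) (.e (nat_lit 188452) (nat_lit 23) .nil)))) .nil))) (.nd (nat_lit 5) 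
(.lf (nat_lit 17808) (.g (nat_lit 3099) (.e (nat_lit 1171) (nat_lit 87) (.e (nat_lit 57478) (nat_lit 28) (.e (nat_lit 557109) (nat_lit 15) (.e (nat_lit 188458) (nat_lit 25) (.e (nat_lit 245791) (nat_lit 14) (.e (nat_lit 73733) (nat_lit 0) (.e (nat_lit 5905) (nat_lit 320) .nil))))))) (.g (nat_lit 4) .nil .nil))) 
(.lf (nat_lit 17840) (.g (nat_lit 3253) (.e (nat_lit 1171) (nat_lit 87) (.e (nat_lit 57931) (nat_lit 282) (.e (nat_lit 163869) (nat_lit 2) (.e (nat_lit 196670) (nat_lit 14) (.e (nat_lit 73746) (nat_lit 3) (.e (nat_lit 516131) (nat_lit 3) (.e (nat_lit 221212) (nat_lit 22) (.e (nat_lit 196632) (nat_lit 9) .nil)))))))) (.g (nat_lit 5) .nil .nil))))) (.nd (nat_lit 4) (.nd (nat_lit 5) 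
(.lf (nat_lit 17800) (.g (nat_lit 2670) (.e (nat_lit 1171) (nat_lit 87) (.e (nat_lit 57478) (nat_lit 28) (.e (nat_lit 557109) (nat_lit 15) (.e (nat_lit 188452) (nat_lit 23) (.e (nat_lit 204872) (nat_lit 30) .nil))))) .nil)) 
(.lf (nat_lit 17832) (.g (nat_lit 3694) (.e (nat_lit 1171) (nat_lit 87) (.e (nat_lit 57480) (nat_lit 28) (.e (nat_lit 557108) (nat_lit 15) (.e (nat_lit 188452) (nat_lit 23) (.e (nat_lit 204872) (nat_lit 30) (.e (nat_lit 368662) (nat_lit 18) (.e (nat_lit 5905) (nat_lit 320) .nil))))))) (.g (nat_lit 5) .nil .nil)))) (.nd (nat_lit 5) 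
(.lf (nat_lit 17816) (.g (nat_lit 2609) (.e (nat_lit 1171) (nat_lit 87) (.e (nat_lit 57479) (nat_lit 28) (.e (nat_lit 557101) (nat_lit 13) (.e (nat_lit 172097) (nat_lit 9) (.e (nat_lit 426125) (nat_lit 2) .nil))))) .nil)) 
(.lf (nat_lit 17848) (.g (nat_lit 5663) (.e (nat_lit 1172) (nat_lit 87) (.e (nat_lit 57464) (nat_lit 23) (.e (nat_lit 516160) (nat_lit 10) (.e (nat_lit 434248) (nat_lit 28) (.e (nat_lit 573482) (nat_lit 13) (.e (nat_lit 65637) (nat_lit 15) (.e (nat_lit 3253) (nat_lit 197) (.e (nat_lit 532503) (nat_lit 1) (.e (nat_lit 57870) (nat_lit 264) .nil))))))))) (.g (nat_lit 0) .nil .nil)))))) 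
(.nd (nat_lit 3) (.nd (nat_lit 4) (.nd (nat_lit 5) 
(.lf (nat_lit 17796) (.g (nat_lit 3713) (.e (nat_lit 1171) (nat_lit 87) (.e (nat_lit 57478) (nat_lit 28) (.e (nat_lit 557109) (nat_lit 15) (.e (nat_lit 188452) (nat_lit 23) (.e (nat_lit 204859) (nat_lit 26) (.e (nat_lit 335998) (nat_lit 1) (.e (nat_lit 57873) (nat_lit 264) .nil))))))) (.g (nat_lit 5) .nil .nil))) 
(.lf (nat_lit 17828) (.g (nat_lit 4015) (.e (nat_lit 1171) (nat_lit 87) (.e (nat_lit 57480) (nat_lit 28) (.e (nat_lit 557108) (nat_lit 15) (.e (nat_lit 188452) (nat_lit 23) (.e (nat_lit 204850) (nat_lit 26) .nil))))) .nil))) (.nd (nat_lit 5) 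
(.lf (nat_lit 17812) (.g (nat_lit 2365) (.e (nat_lit 1171) (nat_lit 87) (.e (nat_lit 57479) (nat_lit 28) (.e (nat_lit 557100) (nat_lit 13) (.e (nat_lit 172106) (nat_lit 10) (.e (nat_lit 434231) (nat_lit 23) (.e (nat_lit 532535) (nat_lit 9) (.e (nat_lit 335985) (nat_lit 1) (.e (nat_lit 57873) (nat_lit 264) .nil)))))))) (.g (nat_lit 4) .nil .nil))) 
(.lf (nat_lit 17844) (.g (nat_lit 2295) (.e (nat_lit 1172) (nat_lit 87) (.e (nat_lit 57464) (nat_lit 23) (.e (nat_lit 516151) (nat_lit 9) (.e (nat_lit 426132) (nat_lit 3) .nil)))) .nil)))) (.nd (nat_lit 4) (.nd (nat_lit 5) 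
(.lf (nat_lit 17804) (.g (nat_lit 3125) (.e (nat_lit 1171) (nat_lit 87) (.e (nat_lit 57478) (nat_lit 28) (.e (nat_lit 557109) (nat_lit 15) (.e (nat_lit 188458) (nat_lit 25) (.e (nat_lit 245782) (nat_lit 9) .nil))))) .nil)) 
(.lf (nat_lit 17836) (.g (nat_lit 1478) (.e (nat_lit 1171) (nat_lit 87) (.e (nat_lit 57520) (nat_lit 44) (.e (nat_lit 688177) (nat_lit 16) (.e (nat_lit 65583) (nat_lit 7) (.e (nat_lit 319530) (nat_lit 16) (.e (nat_lit 286751) (nat_lit 10) (.e (nat_lit 344097) (nat_lit 18) (.e (nat_lit 5905) (nat_lit 320) .nil)))))))) (.g (nat_lit 4) .nil .nil)))) (.nd (nat_lit 5) 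
(.lf (nat_lit 17820) (.g (nat_lit 3468) (.e (nat_lit 1171) (nat_lit 87) (.e (nat_lit 57479) (nat_lit 28) (.e (nat_lit 557101) (nat_lit 13) (.e (nat_lit 172115) (nat_lit 10) (.e (nat_lit 434231) (nat_lit 23) (.e (nat_lit 532535) (nat_lit 9) (.e (nat_lit 335985) (nat_lit 1) (.e (nat_lit 57870) (nat_lit 264) .nil)))))))) (.g (nat_lit 5) .nil .nil))) 
(.lf (nat_lit 17852) (.g (nat_lit 1700) (.e (nat_lit 1172) (nat_lit 87) (.e (nat_lit 57464) (nat_lit 23) (.e (nat_lit 516177) (nat_lit 14) (.e (nat_lit 466974) (nat_lit 22) (.e (nat_lit 196668) (nat_lit 14) (.e (nat_lit 73737) (nat_lit 0) (.e (nat_lit 4803) (nat_lit 281) .nil))))))) (.g (nat_lit 5) .nil .nil))))))) (.nd (nat_lit 2) (.nd (nat_lit 3) (.nd (nat_lit 4) (.nd (nat_lit 5) 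
(.lf (nat_lit 17794) (.g (nat_lit 4299) (.e (nat_lit 1171) (nat_lit 87) (.e (nat_lit 57478) (nat_lit 28) (.e (nat_lit 557109) (nat_lit 15) (.e (nat_lit 188452) (nat_lit 23) (.e (nat_lit 204858) (nat_lit 26) .nil))))) .nil)) 
(.lf (nat_lit 17826) (.g (nat_lit 3077) (.e (nat_lit 1171) (nat_lit 87) (.e (nat_lit 57480) (nat_lit 28) (.e (nat_lit 557108) (nat_lit 15) (.e (nat_lit 188452) (nat_lit 23) (.e (nat_lit 204816) (nat_lit 17) .nil))))) .nil))) (.nd (nat_lit 5) 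
(.lf (nat_lit 17810) (.g (nat_lit 2320) (.e (nat_lit 1171) (nat_lit 87) (.e (nat_lit 57479) (nat_lit 28) (.e (nat_lit 557100) (nat_lit 13) (.e (nat_lit 172106) (nat_lit 10) (.e (nat_lit 434231) (nat_lit 23) .nil))))) .nil)) 
(.lf (nat_lit 17842) (.g (nat_lit 3021) (.e (nat_lit 1172) (nat_lit 87) (.e (nat_lit 57464) (nat_lit 23) (.e (nat_lit 516130) (nat_lit 3) (.e (nat_lit 221212) (nat_lit 22) (.e (nat_lit 196670) (nat_lit 14) (.e (nat_lit 73746) (nat_lit 3) (.e (nat_lit 516120) (nat_lit 1) (.e (nat_lit 164147) (nat_lit 152) .nil)))))))) (.g (nat_lit 7) .nil .nil))))) (.nd (nat_lit 4) (.nd (nat_lit 5) 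
(.lf (nat_lit 17802) (.g (nat_lit 3321) (.e (nat_lit 1171) (nat_lit 87) (.e (nat_lit 57478) (nat_lit 28) (.e (nat_lit 557109) (nat_lit 15) (.e (nat_lit 188452) (nat_lit 23) (.e (nat_lit 204874) (nat_lit 30) .nil))))) .nil)) 
(.lf (nat_lit 17834) (.g (nat_lit 3855) (.e (nat_lit 1171) (nat_lit 87) (.e (nat_lit 57480) (nat_lit 28) (.e (nat_lit 557108) (nat_lit 15) (.e (nat_lit 188452) (nat_lit 23) (.e (nat_lit 204874) (nat_lit 30) .nil))))) .nil))) (.nd (nat_lit 5) 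
(.lf (nat_lit 17818) (.g (nat_lit 2608) (.e (nat_lit 1171) (nat_lit 87) (.e (nat_lit 57479) (nat_lit 28) (.e (nat_lit 557101) (nat_lit 13) (.e (nat_lit 172097) (nat_lit 9) (.e (nat_lit 426140) (nat_lit 3) .nil))))) .nil)) 
(.lf (nat_lit 17850) (.g (nat_lit 1820) (.e (nat_lit 1172) (nat_lit 87) (.e (nat_lit 57464) (nat_lit 23) (.e (nat_lit 516165) (nat_lit 12) (.e (nat_lit 450579) (nat_lit 5) (.e (nat_lit 532555) (nat_lit 13) .nil))))) .nil))))) (.nd (nat_lit 3) (.nd (nat_lit 4) (.nd (nat_lit 5) 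
(.lf (nat_lit 17798) (.g (nat_lit 3566) (.e (nat_lit 1171) (nat_lit 87) (.e (nat_lit 57478) (nat_lit 28) (.e (nat_lit 557109) (nat_lit 15) (.e (nat_lit 188452) (nat_lit 23) (.e (nat_lit 212736) (nat_lit 26) .nil))))) .nil)) 
(.lf (nat_lit 17830) (.g (nat_lit 4553) (.e (nat_lit 1171) (nat_lit 87) (.e (nat_lit 57480) (nat_lit 28) (.e (nat_lit 557108) (nat_lit 15) (.e (nat_lit 188452) (nat_lit 23) (.e (nat_lit 212736) (nat_lit 26) .nil))))) .nil))) (.nd (nat_lit 5) 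
(.lf (nat_lit 17814) (.g (nat_lit 2370) (.e (nat_lit 1171) (nat_lit 87) (.e (nat_lit 57479) (nat_lit 28) (.e (nat_lit 557100) (nat_lit 13) (.e (nat_lit 172106) (nat_lit 10) (.e (nat_lit 434231) (nat_lit 23) (.e (nat_lit 532554) (nat_lit 13) (.e (nat_lit 368662) (nat_lit 18) (.e (nat_lit 5905) (nat_lit 320) .nil)))))))) (.g (nat_lit 4) .nil .nil))) 
(.lf (nat_lit 17846) (.g (nat_lit 4442) (.e (nat_lit 1172) (nat_lit 87) (.e (nat_lit 57464) (nat_lit 23) (.e (nat_lit 516160) (nat_lit 10) (.e (nat_lit 434245) (nat_lit 28) (.e (nat_lit 573481) (nat_lit 13) (.e (nat_lit 65637) (nat_lit 15) (.e (nat_lit 3253) (nat_lit 197) (.e (nat_lit 532503) (nat_lit 1) (.e (nat_lit 57870) (nat_lit 264) .nil))))))))) (.g (nat_lit 8) .nil .nil))))) 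
(.nd (nat_lit 4) (.nd (nat_lit 5) 
(.lf (nat_lit 17806) (.g (nat_lit 4077) (.e (nat_lit 1171) (nat_lit 87) (.e (nat_lit 57478) (nat_lit 28) (.e (nat_lit 557109) (nat_lit 15) (.e (nat_lit 188458) (nat_lit 25) (.e (nat_lit 245784) (nat_lit 9) (.e (nat_lit 1413) (nat_lit 108) (.e (nat_lit 335997) (nat_lit 1) (.e (nat_lit 57871) (nat_lit 264) .nil)))))))) (.g (nat_lit 8) .nil .nil))) 
(.lf (nat_lit 17838) (.g (nat_lit 3174) (.e (nat_lit 1171) (nat_lit 87) (.e (nat_lit 57926) (nat_lit 282) (.e (nat_lit 163869) (nat_lit 2) (.e (nat_lit 196670) (nat_lit 14) (.e (nat_lit 73746) (nat_lit 3) (.e (nat_lit 516131) (nat_lit 3) (.e (nat_lit 221212) (nat_lit 22) (.e (nat_lit 196632) (nat_lit 9) .nil)))))))) (.g (nat_lit 6) .nil .nil)))) (.nd (nat_lit 5) 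
(.lf (nat_lit 17822) (.g (nat_lit 3330) (.e (nat_lit 1171) (nat_lit 87) (.e (nat_lit 57479) (nat_lit 28) (.e (nat_lit 557105) (nat_lit 14) (.e (nat_lit 180252) (nat_lit 10) (.e (nat_lit 573487) (nat_lit 14) .nil))))) .nil)) 
(.lf (nat_lit 17854) (.g (nat_lit 1695) (.e (nat_lit 1172) (nat_lit 87) (.e (nat_lit 57464) (nat_lit 23) (.e (nat_lit 516177) (nat_lit 14) (.e (nat_lit 466977) (nat_lit 22) (.e (nat_lit 196668) (nat_lit 14) (.e (nat_lit 73737) (nat_lit 0) (.e (nat_lit 4803) (nat_lit 281) .nil))))))) (.g (nat_lit 5) .nil .nil)))))))) 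
(.nd (nat_lit 1) (.nd (nat_lit 2) (.nd (nat_lit 3) (.nd (nat_lit 4) (.nd (nat_lit 5) 
(.lf (nat_lit 17793) (.g (nat_lit 4240) (.e (nat_lit 1171) (nat_lit 87) (.e (nat_lit 57478) (nat_lit 28) (.e (nat_lit 557109) (nat_lit 15) (.e (nat_lit 188452) (nat_lit 23) (.e (nat_lit 204857) (nat_lit 26) (.e (nat_lit 335997) (nat_lit 1) (.e (nat_lit 57871) (nat_lit 264) .nil))))))) (.g (nat_lit 5) .nil .nil))) 
(.lf (nat_lit 17825) (.g (nat_lit 2360) (.e (nat_lit 1171) (nat_lit 87) (.e (nat_lit 57480) (nat_lit 28) (.e (nat_lit 557108) (nat_lit 15) (.e (nat_lit 188452) (nat_lit 23) .nil)))) .nil))) (.nd (nat_lit 5) 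
(.lf (nat_lit 17809) (.g (nat_lit 2902) (.e (nat_lit 1171) (nat_lit 87) (.e (nat_lit 57478) (nat_lit 28) (.e (nat_lit 557109) (nat_lit 15) (.e (nat_lit 188458) (nat_lit 25) (.e (nat_lit 245794) (nat_lit 17) .nil))))) .nil)) 
(.lf (nat_lit 17841) (.g (nat_lit 3221) (.e (nat_lit 1172) (nat_lit 87) (.e (nat_lit 57464) (nat_lit 23) (.e (nat_lit 516130) (nat_lit 3) (.e (nat_lit 221212) (nat_lit 22) (.e (nat_lit 196670) (nat_lit 14) (.e (nat_lit 73746) (nat_lit 3) (.e (nat_lit 516117) (nat_lit 1) (.e (nat_lit 164147) (nat_lit 152) .nil)))))))) (.g (nat_lit 8) .nil .nil))))) (.nd (nat_lit 4) (.nd (nat_lit 5) 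
(.lf (nat_lit 17801) (.g (nat_lit 2856) (.e (nat_lit 1171) (nat_lit 87) (.e (nat_lit 57478) (nat_lit 28) (.e (nat_lit 557109) (nat_lit 15) (.e (nat_lit 188452) (nat_lit 23) (.e (nat_lit 204873) (nat_lit 30) .nil))))) .nil)) 
(.lf (nat_lit 17833) (.g (nat_lit 3888) (.e (nat_lit 1171) (nat_lit 87) (.e (nat_lit 57480) (nat_lit 28) (.e (nat_lit 557108) (nat_lit 15) (.e (nat_lit 188452) (nat_lit 23) (.e (nat_lit 204873) (nat_lit 30) .nil))))) .nil))) (.nd (nat_lit 5) 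
(.lf (nat_lit 17817) (.g (nat_lit 3206) (.e (nat_lit 1171) (nat_lit 87) (.e (nat_lit 57479) (nat_lit 28) (.e (nat_lit 557101) (nat_lit 13) (.e (nat_lit 172097) (nat_lit 9) (.e (nat_lit 426125) (nat_lit 2) (.e (nat_lit 196666) (nat_lit 13) (.e (nat_lit 65565) (nat_lit 1) (.e (nat_lit 57871) (nat_lit 264) .nil)))))))) (.g (nat_lit 5) .nil .nil))) 
(.lf (nat_lit 17849) (.g (nat_lit 2011) (.e (nat_lit 1172) (nat_lit 87) (.e (nat_lit 57464) (nat_lit 23) (.e (nat_lit 516163) (nat_lit 11) (.e (nat_lit 442424) (nat_lit 22) (.e (nat_lit 196666) (nat_lit 13) .nil))))) .nil))))) (.nd (nat_lit 3) (.nd (nat_lit 4) (.nd (nat_lit 5) 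
(.lf (nat_lit 17797) (.g (nat_lit 4361) (.e (nat_lit 1171) (nat_lit 87) (.e (nat_lit 57478) (nat_lit 28) (.e (nat_lit 557109) (nat_lit 15) (.e (nat_lit 188452) (nat_lit 23) (.e (nat_lit 204860) (nat_lit 26) .nil))))) .nil)) 
(.lf (nat_lit 17829) (.g (nat_lit 3841) (.e (nat_lit 1171) (nat_lit 87) (.e (nat_lit 57480) (nat_lit 28) (.e (nat_lit 557108) (nat_lit 15) (.e (nat_lit 188452) (nat_lit 23) (.e (nat_lit 204852) (nat_lit 26) .nil))))) .nil))) (.nd (nat_lit 5) 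
(.lf (nat_lit 17813) (.g (nat_lit 4102) (.e (nat_lit 1171) (nat_lit 87) (.e (nat_lit 57479) (nat_lit 28) (.e (nat_lit 557100) (nat_lit 13) (.e (nat_lit 172106) (nat_lit 10) (.e (nat_lit 434231) (nat_lit 23) (.e (nat_lit 532543) (nat_lit 10) (.e (nat_lit 344097) (nat_lit 18) (.e (nat_lit 5905) (nat_lit 320) .nil)))))))) (.g (nat_lit 6) .nil .nil))) 
(.lf (nat_lit 17845) (.g (nat_lit 4866) (.e (nat_lit 1172) (nat_lit 87) (.e (nat_lit 57464) (nat_lit 23) (.e (nat_lit 516159) (nat_lit 10) (.e (nat_lit 434244) (nat_lit 28) (.e (nat_lit 573481) (nat_lit 13) (.e (nat_lit 65637) (nat_lit 15) (.e (nat_lit 3253) (nat_lit 197) (.e (nat_lit 532503) (nat_lit 1) (.e (nat_lit 57870) (nat_lit 264) .nil))))))))) (.g (nat_lit 8) .nil .nil))))) 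
(.nd (nat_lit 4) (.nd (nat_lit 5) 
(.lf (nat_lit 17805) (.g (nat_lit 2890) (.e (nat_lit 1171) (nat_lit 87) (.e (nat_lit 57478) (nat_lit 28) (.e (nat_lit 557109) (nat_lit 15) (.e (nat_lit 188458) (nat_lit 25) (.e (nat_lit 245784) (nat_lit 9) .nil))))) .nil)) 
(.lf (nat_lit 17837) (.g (nat_lit 3149) (.e (nat_lit 1171) (nat_lit 87) (.e (nat_lit 57852) (nat_lit 252) (.e (nat_lit 57406) (nat_lit 12) (.e (nat_lit 336456) (nat_lit 34) (.e (nat_lit 483379) (nat_lit 23) .nil))))) .nil))) (.nd (nat_lit 5) 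
(.lf (nat_lit 17821) (.g (nat_lit 2466) (.e (nat_lit 1171) (nat_lit 87) (.e (nat_lit 57479) (nat_lit 28) (.e (nat_lit 557101) (nat_lit 13) (.e (nat_lit 172115) (nat_lit 10) (.e (nat_lit 434244) (nat_lit 28) .nil))))) .nil)) 
(.lf (nat_lit 17853) (.g (nat_lit 1087) (.e (nat_lit 1172) (nat_lit 87) (.e (nat_lit 57464) (nat_lit 23) (.e (nat_lit 516177) (nat_lit 14) (.e (nat_lit 466974) (nat_lit 22) (.e (nat_lit 196668) (nat_lit 14) (.e (nat_lit 81664) (nat_lit 0) (.e (nat_lit 4808) (nat_lit 281) .nil))))))) (.g (nat_lit 4) .nil .nil))))))) (.nd (nat_lit 2) (.nd (nat_lit 3) (.nd (nat_lit 4) (.nd (nat_lit 5) 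
(.lf (nat_lit 17795) (.g (nat_lit 4383) (.e (nat_lit 1171) (nat_lit 87) (.e (nat_lit 57478) (nat_lit 28) (.e (nat_lit 557109) (nat_lit 15) (.e (nat_lit 188452) (nat_lit 23) (.e (nat_lit 204858) (nat_lit 26) (.e (nat_lit 335997) (nat_lit 1) (.e (nat_lit 57870) (nat_lit 264) .nil))))))) (.g (nat_lit 4) .nil .nil))) 
(.lf (nat_lit 17827) (.g (nat_lit 4434) (.e (nat_lit 1171) (nat_lit 87) (.e (nat_lit 57480) (nat_lit 28) (.e (nat_lit 557108) (nat_lit 15) (.e (nat_lit 188452) (nat_lit 23) (.e (nat_lit 204817) (nat_lit 17) .nil))))) .nil))) (.nd (nat_lit 5) 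
(.lf (nat_lit 17811) (.g (nat_lit 3478) (.e (nat_lit 1171) (nat_lit 87) (.e (nat_lit 57479) (nat_lit 28) (.e (nat_lit 557100) (nat_lit 13) (.e (nat_lit 172106) (nat_lit 10) (.e (nat_lit 434231) (nat_lit 23) (.e (nat_lit 532527) (nat_lit 9) (.e (nat_lit 335997) (nat_lit 1) (.e (nat_lit 57871) (nat_lit 264) .nil)))))))) (.g (nat_lit 5) .nil .nil))) 
(.lf (nat_lit 17843) (.g (nat_lit 2846) (.e (nat_lit 1172) (nat_lit 87) (.e (nat_lit 57464) (nat_lit 23) (.e (nat_lit 516151) (nat_lit 9) (.e (nat_lit 426042) (nat_lit 0) (.e (nat_lit 3307) (nat_lit 202) .nil))))) .nil)))) (.nd (nat_lit 4) (.nd (nat_lit 5) 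
(.lf (nat_lit 17803) (.g (nat_lit 4570) (.e (nat_lit 1171) (nat_lit 87) (.e (nat_lit 57478) (nat_lit 28) (.e (nat_lit 557109) (nat_lit 15) (.e (nat_lit 188452) (nat_lit 23) (.e (nat_lit 204874) (nat_lit 30) (.e (nat_lit 368662) (nat_lit 18) (.e (nat_lit 5905) (nat_lit 320) .nil))))))) (.g (nat_lit 6) .nil .nil))) 
(.lf (nat_lit 17835) (.g (nat_lit 2621) (.e (nat_lit 1171) (nat_lit 87) (.e (nat_lit 57480) (nat_lit 28) (.e (nat_lit 557109) (nat_lit 15) (.e (nat_lit 188452) (nat_lit 23) (.e (nat_lit 204863) (nat_lit 27) .nil))))) .nil))) (.nd (nat_lit 5) 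
(.lf (nat_lit 17819) (.g (nat_lit 2653) (.e (nat_lit 1171) (nat_lit 87) (.e (nat_lit 57479) (nat_lit 28) (.e (nat_lit 557101) (nat_lit 13) (.e (nat_lit 172115) (nat_lit 10) (.e (nat_lit 434231) (nat_lit 23) .nil))))) .nil)) 
(.lf (nat_lit 17851) (.g (nat_lit 1888) (.e (nat_lit 1172) (nat_lit 87) (.e (nat_lit 57464) (nat_lit 23) (.e (nat_lit 516175) (nat_lit 14) (.e (nat_lit 466977) (nat_lit 22) (.e (nat_lit 196668) (nat_lit 14) (.e (nat_lit 81664) (nat_lit 0) (.e (nat_lit 4808) (nat_lit 281) .nil))))))) (.g (nat_lit 5) .nil .nil)))))) (.nd (nat_lit 3) (.nd (nat_lit 4) (.nd (nat_lit 5) 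
(.lf (nat_lit 17799) (.g (nat_lit 3213) (.e (nat_lit 1171) (nat_lit 87) (.e (nat_lit 57478) (nat_lit 28) (.e (nat_lit 557109) (nat_lit 15) (.e (nat_lit 188452) (nat_lit 23) (.e (nat_lit 204862) (nat_lit 27) (.e (nat_lit 344097) (nat_lit 18) (.e (nat_lit 5907) (nat_lit 320) .nil))))))) (.g (nat_lit 5) .nil .nil))) 
(.lf (nat_lit 17831) (.g (nat_lit 3516) (.e (nat_lit 1171) (nat_lit 87) (.e (nat_lit 57480) (nat_lit 28) (.e (nat_lit 557108) (nat_lit 15) (.e (nat_lit 188452) (nat_lit 23) (.e (nat_lit 204872) (nat_lit 30) .nil))))) .nil))) (.nd (nat_lit 5) 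
(.lf (nat_lit 17815) (.g (nat_lit 3504) (.e (nat_lit 1171) (nat_lit 87) (.e (nat_lit 57479) (nat_lit 28) (.e (nat_lit 557100) (nat_lit 13) (.e (nat_lit 172113) (nat_lit 10) .nil)))) .nil)) 
(.lf (nat_lit 17847) (.g (nat_lit 2249) (.e (nat_lit 1172) (nat_lit 87) (.e (nat_lit 57464) (nat_lit 23) (.e (nat_lit 516160) (nat_lit 10) (.e (nat_lit 434246) (nat_lit 28) (.e (nat_lit 573482) (nat_lit 13) (.e (nat_lit 73472) (nat_lit 18) (.e (nat_lit 204831) (nat_lit 18) (.e (nat_lit 57870) (nat_lit 264) .nil)))))))) (.g (nat_lit 5) .nil .nil))))) (.nd (nat_lit 4) (.nd (nat_lit 5) 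
(.lf (nat_lit 17807) (.g (nat_lit 3040) (.e (nat_lit 1171) (nat_lit 87) (.e (nat_lit 57478) (nat_lit 28) (.e (nat_lit 557109) (nat_lit 15) (.e (nat_lit 188458) (nat_lit 25) (.e (nat_lit 245791) (nat_lit 14) .nil))))) .nil)) 
(.lf (nat_lit 17839) (.g (nat_lit 2174) (.e (nat_lit 1171) (nat_lit 87) (.e (nat_lit 57931) (nat_lit 282) (.e (nat_lit 163867) (nat_lit 2) (.e (nat_lit 196670) (nat_lit 14) (.e (nat_lit 73746) (nat_lit 3) .nil))))) .nil))) (.nd (nat_lit 5) 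
(.lf (nat_lit 17823) (.g (nat_lit 2459) (.e (nat_lit 1171) (nat_lit 87) (.e (nat_lit 57479) (nat_lit 28) (.e (nat_lit 557105) (nat_lit 14) (.e (nat_lit 180252) (nat_lit 10) (.e (nat_lit 573489) (nat_lit 14) (.e (nat_lit 73755) (nat_lit 8) (.e (nat_lit 557090) (nat_lit 12) (.e (nat_lit 163842) (nat_lit 0) (.e (nat_lit 5150) (nat_lit 292) .nil))))))))) (.g (nat_lit 4) .nil .nil))) 
(.lf (nat_lit 17855) (.g (nat_lit 2206) (.e (nat_lit 1172) (nat_lit 87) (.e (nat_lit 57464) (nat_lit 23) (.e (nat_lit 516179) (nat_lit 15) (.e (nat_lit 475177) (nat_lit 24) (.e (nat_lit 516171) (nat_lit 13) (.e (nat_lit 458789) (nat_lit 23) (.e (nat_lit 532499) (nat_lit 1) (.e (nat_lit 57755) (nat_lit 209) .nil)))))))) (.g (nat_lit 4) .nil .nil)))))))))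


end

end Pool.Agent.Lib.MP_5854e1_co.Cz
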