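import Pool.Agent.Lib.MP_5854e1_co.DtD

/-!
# Windows and cells of the rings
-/

set_option autoImplicit false
set_option maxRecDepth 100000
set_option deprecated.oldSectionVars true

namespace Pool.Agent.Lib.MP_5854e1_co.Cz

open Pool.Agent.Lib.MP_5854e1_co

noncomputable section

noncomputable def tv245 : DT := (.nd (nat_lit 0) (.nd (nat_lit 1) (.nd (nat_lit 2) (.nd (nat_lit 3) (.nd (nat_lit 4) (.nd (nat_lit 5) 
(.lf (nat_lit 17856) (.g (nat_lit 3690) (.e (nat_lit 1172) (nat_lit 87) (.e (nat_lit 57465) (nat_lit 23) (.e (nat_lit 516129) (nat_lit 3) (.e (nat_lit 221210) (nat_lit 22) (.e (nat_lit 196668) (nat_lit 14) (.e (nat_lit 73747) (nat_lit 3) (.e (nat_lit 516117) (nat_lit 1) (.e (nat_lit 164147) (nat_lit 152) .nil)))))))) (.g (nat_lit 7) .nil .nil))) 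
(.lf (nat_lit 17888) (.g (nat_lit 3152) (.e (nat_lit 1172) (nat_lit 87) (.e (nat_lit 57476) (nat_lit 28) (.e (nat_lit 557107) (nat_lit 15) (.e (nat_lit 188447) (nat_lit 22) (.e (nat_lit 196666) (nat_lit 13) (.e (nat_lit 65563) (nat_lit 1) (.e (nat_lit 57872) (nat_lit 264) .nil))))))) (.g (nat_lit 0) .nil .nil)))) (.nd (nat_lit 5) 
(.lf (nat_lit 17872) (.g (nat_lit 1756) (.e (nat_lit 1172) (nat_lit 87) (.e (nat_lit 57476) (nat_lit 28) (.e (nat_lit 557097) (nat_lit 13) (.e (nat_lit 172115) (nat_lit 10) (.e (nat_lit 434231) (nat_lit 23) .nil))))) .nil)) 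
(.lf (nat_lit 17904) (.g (nat_lit 1637) (.e (nat_lit 1172) (nat_lit 87) (.e (nat_lit 57476) (nat_lit 28) (.e (nat_lit 557107) (nat_lit 15) (.e (nat_lit 188450) (nat_lit 23) (.e (nat_lit 204856) (nat_lit 26) (.e (nat_lit 335997) (nat_lit 1) (.e (nat_lit 57872) (nat_lit 264) .nil))))))) (.g (nat_lit 4) .nil .nil))))) (.nd (nat_lit 4) (.nd (nat_lit 5) 
(.lf (nat_lit 17864) (.g (nat_lit 3810) (.e (nat_lit 1172) (nat_lit 87) (.e (nat_lit 57476) (nat_lit 28) (.e (nat_lit 557097) (nat_lit 13) (.e (nat_lit 172097) (nat_lit 9) (.e (nat_lit 426125) (nat_lit 2) (.e (nat_lit 196666) (nat_lit 13) (.e (nat_lit 65565) (nat_lit 1) (.e (nat_lit 57870) (nat_lit 264) .nil)))))))) (.g (nat_lit 0) .nil .nil))) 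
(.lf (nat_lit 17896) (.g (nat_lit 2619) (.e (nat_lit 1172) (nat_lit 87) (.e (nat_lit 57476) (nat_lit 28) (.e (nat_lit 557107) (nat_lit 15) (.e (nat_lit 188450) (nat_lit 23) (.e (nat_lit 204850) (nat_lit 26) (.e (nat_lit 335997) (nat_lit 1) (.e (nat_lit 57870) (nat_lit 264) .nil))))))) (.g (nat_lit 0) .nil .nil)))) (.nd (nat_lit 5) 
(.lf (nat_lit 17880) (.g (nat_lit 3704) (.e (nat_lit 1172) (nat_lit 87) (.e (nat_lit 57476) (nat_lit 28) (.e (nat_lit 557097) (nat_lit 13) (.e (nat_lit 172115) (nat_lit 10) (.e (nat_lit 434231) (nat_lit 23) (.e (nat_lit 532544) (nat_lit 10) (.e (nat_lit 344097) (nat_lit 18) (.e (nat_lit 5905) (nat_lit 320) .nil)))))))) (.g (nat_lit 6) .nil .nil))) 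
(.lf (nat_lit 17912) (.g (nat_lit 2988) (.e (nat_lit 1172) (nat_lit 87) (.e (nat_lit 57476) (nat_lit 28) (.e (nat_lit 557107) (nat_lit 15) (.e (nat_lit 188450) (nat_lit 23) (.e (nat_lit 204873) (nat_lit 30) (.e (nat_lit 368662) (nat_lit 18) (.e (nat_lit 5907) (nat_lit 320) .nil))))))) (.g (nat_lit 0) .nil .nil)))))) (.nd (nat_lit 3) (.nd (nat_lit 4) (.nd (nat_lit 5) 
(.lf (nat_lit 17860) (.g (nat_lit 3848) (.e (nat_lit 1172) (nat_lit 87) (.e (nat_lit 57476) (nat_lit 28) (.e (nat_lit 557097) (nat_lit 13) (.e (nat_lit 172097) (nat_lit 9) (.e (nat_lit 426125) (nat_lit 2) (.e (nat_lit 196666) (nat_lit 13) (.e (nat_lit 65550) (nat_lit 0) (.e (nat_lit 1023) (nat_lit 81) (.e (nat_lit 5905) (nat_lit 320) .nil))))))))) (.g (nat_lit 6) .nil .nil))) 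
(.lf (nat_lit 17892) (.g (nat_lit 2949) (.e (nat_lit 1172) (nat_lit 87) (.e (nat_lit 57476) (nat_lit 28) (.e (nat_lit 557107) (nat_lit 15) (.e (nat_lit 188447) (nat_lit 22) (.e (nat_lit 196681) (nat_lit 17) (.e (nat_lit 131086) (nat_lit 1) (.e (nat_lit 57872) (nat_lit 264) .nil))))))) (.g (nat_lit 5) .nil .nil)))) (.nd (nat_lit 5) 
(.lf (nat_lit 17876) (.g (nat_lit 4097) (.e (nat_lit 1172) (nat_lit 87) (.e (nat_lit 57476) (nat_lit 28) (.e (nat_lit 557097) (nat_lit 13) (.e (nat_lit 172115) (nat_lit 10) (.e (nat_lit 434231) (nat_lit 23) (.e (nat_lit 532535) (nat_lit 9) (.e (nat_lit 335985) (nat_lit 1) (.e (nat_lit 57870) (nat_lit 264) .nil)))))))) (.g (nat_lit 0) .nil .nil))) 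
(.lf (nat_lit 17908) (.g (nat_lit 3742) (.e (nat_lit 1172) (nat_lit 87) (.e (nat_lit 57476) (nat_lit 28) (.e (nat_lit 557107) (nat_lit 15) (.e (nat_lit 188450) (nat_lit 23) (.e (nat_lit 204863) (nat_lit 27) (.e (nat_lit 344097) (nat_lit 18) (.e (nat_lit 5906) (nat_lit 320) .nil))))))) (.g (nat_lit 7) .nil .nil))))) (.nd (nat_lit 4) (.nd (nat_lit 5) 
(.lf (nat_lit 17868) (.g (nat_lit 3467) (.e (nat_lit 1172) (nat_lit 87) (.e (nat_lit 57476) (nat_lit 28) (.e (nat_lit 557097) (nat_lit 13) (.e (nat_lit 172097) (nat_lit 9) (.e (nat_lit 426140) (nat_lit 3) (.e (nat_lit 204855) (nat_lit 26) (.e (nat_lit 335985) (nat_lit 1) (.e (nat_lit 57870) (nat_lit 264) .nil)))))))) (.g (nat_lit 0) .nil .nil))) 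
(.lf (nat_lit 17900) (.g (nat_lit 2688) (.e (nat_lit 1172) (nat_lit 87) (.e (nat_lit 57476) (nat_lit 28) (.e (nat_lit 557107) (nat_lit 15) (.e (nat_lit 188450) (nat_lit 23) (.e (nat_lit 204855) (nat_lit 26) (.e (nat_lit 335985) (nat_lit 1) (.e (nat_lit 57870) (nat_lit 264) .nil))))))) (.g (nat_lit 0) .nil .nil)))) (.nd (nat_lit 5) 
(.lf (nat_lit 17884) (.g (nat_lit 2396) (.e (nat_lit 1172) (nat_lit 87) (.e (nat_lit 57476) (nat_lit 28) (.e (nat_lit 557107) (nat_lit 15) (.e (nat_lit 188447) (nat_lit 22) (.e (nat_lit 196666) (nat_lit 13) (.e (nat_lit 65546) (nat_lit 0) (.e (nat_lit 1023) (nat_lit 81) (.e (nat_lit 5907) (nat_lit 320) .nil)))))))) (.g (nat_lit 5) .nil .nil))) 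
(.lf (nat_lit 17916) (.g (nat_lit 3020) (.e (nat_lit 1172) (nat_lit 87) (.e (nat_lit 57476) (nat_lit 28) (.e (nat_lit 557108) (nat_lit 15) (.e (nat_lit 188449) (nat_lit 22) (.e (nat_lit 196666) (nat_lit 13) (.e (nat_lit 65550) (nat_lit 0) (.e (nat_lit 1023) (nat_lit 81) (.e (nat_lit 5907) (nat_lit 320) .nil)))))))) (.g (nat_lit 5) .nil .nil))))))) 
(.nd (nat_lit 2) (.nd (nat_lit 3) (.nd (nat_lit 4) (.nd (nat_lit 5) 
(.lf (nat_lit 17858) (.g (nat_lit 2748) (.e (nat_lit 1172) (nat_lit 87) (.e (nat_lit 57475) (nat_lit 28) (.e (nat_lit 557100) (nat_lit 13) (.e (nat_lit 172106) (nat_lit 10) (.e (nat_lit 434231) (nat_lit 23) .nil))))) .nil)) 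
(.lf (nat_lit 17890) (.g (nat_lit 3192) (.e (nat_lit 1172) (nat_lit 87) (.e (nat_lit 57476) (nat_lit 28) (.e (nat_lit 557107) (nat_lit 15) (.e (nat_lit 188447) (nat_lit 22) (.e (nat_lit 196666) (nat_lit 13) (.e (nat_lit 65565) (nat_lit 1) (.e (nat_lit 57872) (nat_lit 264) .nil))))))) (.g (nat_lit 0) .nil .nil)))) (.nd (nat_lit 5) 
(.lf (nat_lit 17874) (.g (nat_lit 2794) (.e (nat_lit 1172) (nat_lit 87) (.e (nat_lit 57476) (nat_lit 28) (.e (nat_lit 557097) (nat_lit 13) (.e (nat_lit 172115) (nat_lit 10) (.e (nat_lit 434231) (nat_lit 23) (.e (nat_lit 532527) (nat_lit 9) (.e (nat_lit 335997) (nat_lit 1) (.e (nat_lit 57871) (nat_lit 264) .nil)))))))) (.g (nat_lit 5) .nil .nil))) 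
(.lf (nat_lit 17906) (.g (nat_lit 1707) (.e (nat_lit 1172) (nat_lit 87) (.e (nat_lit 57476) (nat_lit 28) (.e (nat_lit 557107) (nat_lit 15) (.e (nat_lit 188450) (nat_lit 23) (.e (nat_lit 204858) (nat_lit 26) .nil))))) .nil)))) (.nd (nat_lit 4) (.nd (nat_lit 5) 
(.lf (nat_lit 17866) (.g (nat_lit 3450) (.e (nat_lit 1172) (nat_lit 87) (.e (nat_lit 57476) (nat_lit 28) (.e (nat_lit 557097) (nat_lit 13) (.e (nat_lit 172097) (nat_lit 9) (.e (nat_lit 426140) (nat_lit 3) (.e (nat_lit 204850) (nat_lit 26) (.e (nat_lit 335997) (nat_lit 1) (.e (nat_lit 57870) (nat_lit 264) .nil)))))))) (.g (nat_lit 0) .nil .nil))) 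
(.lf (nat_lit 17898) (.g (nat_lit 2685) (.e (nat_lit 1172) (nat_lit 87) (.e (nat_lit 57476) (nat_lit 28) (.e (nat_lit 557107) (nat_lit 15) (.e (nat_lit 188450) (nat_lit 23) (.e (nat_lit 204850) (nat_lit 26) (.e (nat_lit 335997) (nat_lit 1) (.e (nat_lit 57872) (nat_lit 264) .nil))))))) (.g (nat_lit 0) .nil .nil)))) (.nd (nat_lit 5) 
(.lf (nat_lit 17882) (.g (nat_lit 3617) (.e (nat_lit 1172) (nat_lit 87) (.e (nat_lit 57476) (nat_lit 28) (.e (nat_lit 557097) (nat_lit 13) (.e (nat_lit 172115) (nat_lit 10) (.e (nat_lit 434231) (nat_lit 23) (.e (nat_lit 532553) (nat_lit 13) (.e (nat_lit 368662) (nat_lit 18) (.e (nat_lit 5907) (nat_lit 320) .nil)))))))) (.g (nat_lit 6) .nil .nil))) 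
(.lf (nat_lit 17914) (.g (nat_lit 2437) (.e (nat_lit 1172) (nat_lit 87) (.e (nat_lit 57476) (nat_lit 28) (.e (nat_lit 557108) (nat_lit 15) (.e (nat_lit 188449) (nat_lit 22) (.e (nat_lit 196666) (nat_lit 13) (.e (nat_lit 65546) (nat_lit 0) (.e (nat_lit 1023) (nat_lit 81) (.e (nat_lit 5907) (nat_lit 320) .nil)))))))) (.g (nat_lit 5) .nil .nil)))))) (.nd (nat_lit 3) (.nd (nat_lit 4) (.nd (nat_lit 5) 
(.lf (nat_lit 17862) (.g (nat_lit 3886) (.e (nat_lit 1172) (nat_lit 87) (.e (nat_lit 57476) (nat_lit 28) (.e (nat_lit 557097) (nat_lit 13) (.e (nat_lit 172097) (nat_lit 9) (.e (nat_lit 426125) (nat_lit 2) (.e (nat_lit 196666) (nat_lit 13) (.e (nat_lit 65563) (nat_lit 1) (.e (nat_lit 57870) (nat_lit 264) .nil)))))))) (.g (nat_lit 0) .nil .nil))) 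
(.lf (nat_lit 17894) (.g (nat_lit 2910) (.e (nat_lit 1172) (nat_lit 87) (.e (nat_lit 57476) (nat_lit 28) (.e (nat_lit 557107) (nat_lit 15) (.e (nat_lit 188447) (nat_lit 22) (.e (nat_lit 196681) (nat_lit 17) (.e (nat_lit 131088) (nat_lit 1) (.e (nat_lit 57873) (nat_lit 264) .nil))))))) (.g (nat_lit 5) .nil .nil)))) (.nd (nat_lit 5) 
(.lf (nat_lit 17878) (.g (nat_lit 5105) (.e (nat_lit 1172) (nat_lit 87) (.e (nat_lit 57476) (nat_lit 28) (.e (nat_lit 557097) (nat_lit 13) (.e (nat_lit 172115) (nat_lit 10) (.e (nat_lit 434231) (nat_lit 23) (.e (nat_lit 532535) (nat_lit 9) (.e (nat_lit 335992) (nat_lit 1) (.e (nat_lit 57870) (nat_lit 264) .nil)))))))) (.g (nat_lit 8) .nil .nil))) 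
(.lf (nat_lit 17910) (.g (nat_lit 1563) (.e (nat_lit 1172) (nat_lit 87) (.e (nat_lit 57476) (nat_lit 28) (.e (nat_lit 557107) (nat_lit 15) (.e (nat_lit 188450) (nat_lit 23) (.e (nat_lit 204873) (nat_lit 30) (.e (nat_lit 368662) (nat_lit 18) (.e (nat_lit 5905) (nat_lit 320) .nil))))))) (.g (nat_lit 4) .nil .nil))))) (.nd (nat_lit 4) (.nd (nat_lit 5) 
(.lf (nat_lit 17870) (.g (nat_lit 4060) (.e (nat_lit 1172) (nat_lit 87) (.e (nat_lit 57476) (nat_lit 28) (.e (nat_lit 557097) (nat_lit 13) (.e (nat_lit 172097) (nat_lit 9) (.e (nat_lit 426140) (nat_lit 3) (.e (nat_lit 204862) (nat_lit 27) (.e (nat_lit 344097) (nat_lit 18) (.e (nat_lit 5906) (nat_lit 320) .nil)))))))) (.g (nat_lit 0) .nil .nil))) 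
(.lf (nat_lit 17902) (.g (nat_lit 2996) (.e (nat_lit 1172) (nat_lit 87) (.e (nat_lit 57476) (nat_lit 28) (.e (nat_lit 557107) (nat_lit 15) (.e (nat_lit 188450) (nat_lit 23) (.e (nat_lit 204855) (nat_lit 26) (.e (nat_lit 335992) (nat_lit 1) (.e (nat_lit 57870) (nat_lit 264) .nil))))))) (.g (nat_lit 7) .nil .nil)))) (.nd (nat_lit 5) 
(.lf (nat_lit 17886) (.g (nat_lit 2823) (.e (nat_lit 1172) (nat_lit 87) (.e (nat_lit 57476) (nat_lit 28) (.e (nat_lit 557107) (nat_lit 15) (.e (nat_lit 188447) (nat_lit 22) (.e (nat_lit 196666) (nat_lit 13) (.e (nat_lit 65550) (nat_lit 0) (.e (nat_lit 1023) (nat_lit 81) (.e (nat_lit 5907) (nat_lit 320) .nil)))))))) (.g (nat_lit 5) .nil .nil))) 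
(.lf (nat_lit 17918) (.g (nat_lit 3205) (.e (nat_lit 1172) (nat_lit 87) (.e (nat_lit 57476) (nat_lit 28) (.e (nat_lit 557108) (nat_lit 15) (.e (nat_lit 188449) (nat_lit 22) (.e (nat_lit 196666) (nat_lit 13) (.e (nat_lit 65563) (nat_lit 1) (.e (nat_lit 57872) (nat_lit 264) .nil))))))) (.g (nat_lit 0) .nil .nil)))))))) 
(.nd (nat_lit 1) (.nd (nat_lit 2) (.nd (nat_lit 3) (.nd (nat_lit 4) (.nd (nat_lit 5) 
(.lf (nat_lit 17857) (.g (nat_lit 778) (.e (nat_lit 1172) (nat_lit 87) (.e (nat_lit 57473) (nat_lit 27) (.e (nat_lit 548889) (nat_lit 9) (.e (nat_lit 65610) (nat_lit 10) .nil)))) .nil)) 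
(.lf (nat_lit 17889) (.g (nat_lit 3171) (.e (nat_lit 1172) (nat_lit 87) (.e (nat_lit 57476) (nat_lit 28) (.e (nat_lit 557107) (nat_lit 15) (.e (nat_lit 188447) (nat_lit 22) (.e (nat_lit 196666) (nat_lit 13) (.e (nat_lit 65565) (nat_lit 1) (.e (nat_lit 57870) (nat_lit 264) .nil))))))) (.g (nat_lit 0) .nil .nil)))) (.nd (nat_lit 5) 
(.lf (nat_lit 17873) (.g (nat_lit 3979) (.e (nat_lit 1172) (nat_lit 87) (.e (nat_lit 57476) (nat_lit 28) (.e (nat_lit 557097) (nat_lit 13) (.e (nat_lit 172115) (nat_lit 10) (.e (nat_lit 434231) (nat_lit 23) (.e (nat_lit 532527) (nat_lit 9) (.e (nat_lit 335997) (nat_lit 1) (.e (nat_lit 57870) (nat_lit 264) .nil)))))))) (.g (nat_lit 0) .nil .nil))) 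
(.lf (nat_lit 17905) (.g (nat_lit 1853) (.e (nat_lit 1172) (nat_lit 87) (.e (nat_lit 57476) (nat_lit 28) (.e (nat_lit 557107) (nat_lit 15) (.e (nat_lit 188450) (nat_lit 23) (.e (nat_lit 204857) (nat_lit 26) .nil))))) .nil)))) (.nd (nat_lit 4) (.nd (nat_lit 5) 
(.lf (nat_lit 17865) (.g (nat_lit 3833) (.e (nat_lit 1172) (nat_lit 87) (.e (nat_lit 57476) (nat_lit 28) (.e (nat_lit 557097) (nat_lit 13) (.e (nat_lit 172097) (nat_lit 9) (.e (nat_lit 426125) (nat_lit 2) (.e (nat_lit 196666) (nat_lit 13) (.e (nat_lit 65565) (nat_lit 1) (.e (nat_lit 57872) (nat_lit 264) .nil)))))))) (.g (nat_lit 0) .nil .nil))) 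
(.lf (nat_lit 17897) (.g (nat_lit 1426) (.e (nat_lit 1172) (nat_lit 87) (.e (nat_lit 57476) (nat_lit 28) (.e (nat_lit 557107) (nat_lit 15) (.e (nat_lit 188450) (nat_lit 23) (.e (nat_lit 204850) (nat_lit 26) (.e (nat_lit 335997) (nat_lit 1) (.e (nat_lit 57871) (nat_lit 264) .nil))))))) (.g (nat_lit 4) .nil .nil)))) (.nd (nat_lit 5) 
(.lf (nat_lit 17881) (.g (nat_lit 4564) (.e (nat_lit 1172) (nat_lit 87) (.e (nat_lit 57476) (nat_lit 28) (.e (nat_lit 557097) (nat_lit 13) (.e (nat_lit 172115) (nat_lit 10) (.e (nat_lit 434231) (nat_lit 23) (.e (nat_lit 532544) (nat_lit 10) (.e (nat_lit 344097) (nat_lit 18) (.e (nat_lit 5906) (nat_lit 320) .nil)))))))) (.g (nat_lit 0) .nil .nil))) 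
(.lf (nat_lit 17913) (.g (nat_lit 2167) (.e (nat_lit 1172) (nat_lit 87) (.e (nat_lit 57476) (nat_lit 28) (.e (nat_lit 557108) (nat_lit 15) (.e (nat_lit 188447) (nat_lit 22) (.e (nat_lit 196681) (nat_lit 17) .nil))))) .nil))))) (.nd (nat_lit 3) (.nd (nat_lit 4) (.nd (nat_lit 5) 
(.lf (nat_lit 17861) (.g (nat_lit 3682) (.e (nat_lit 1172) (nat_lit 87) (.e (nat_lit 57476) (nat_lit 28) (.e (nat_lit 557097) (nat_lit 13) (.e (nat_lit 172097) (nat_lit 9) (.e (nat_lit 426125) (nat_lit 2) (.e (nat_lit 196666) (nat_lit 13) (.e (nat_lit 65550) (nat_lit 0) (.e (nat_lit 1023) (nat_lit 81) (.e (nat_lit 5907) (nat_lit 320) .nil))))))))) (.g (nat_lit 6) .nil .nil))) 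
(.lf (nat_lit 17893) (.g (nat_lit 2896) (.e (nat_lit 1172) (nat_lit 87) (.e (nat_lit 57476) (nat_lit 28) (.e (nat_lit 557107) (nat_lit 15) (.e (nat_lit 188447) (nat_lit 22) (.e (nat_lit 196681) (nat_lit 17) (.e (nat_lit 131088) (nat_lit 1) (.e (nat_lit 57870) (nat_lit 264) .nil))))))) (.g (nat_lit 5) .nil .nil)))) (.nd (nat_lit 5) 
(.lf (nat_lit 17877) (.g (nat_lit 4102) (.e (nat_lit 1172) (nat_lit 87) (.e (nat_lit 57476) (nat_lit 28) (.e (nat_lit 557097) (nat_lit 13) (.e (nat_lit 172115) (nat_lit 10) (.e (nat_lit 434231) (nat_lit 23) (.e (nat_lit 532535) (nat_lit 9) (.e (nat_lit 335985) (nat_lit 1) (.e (nat_lit 57872) (nat_lit 264) .nil)))))))) (.g (nat_lit 0) .nil .nil))) 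
(.lf (nat_lit 17909) (.g (nat_lit 4037) (.e (nat_lit 1172) (nat_lit 87) (.e (nat_lit 57476) (nat_lit 28) (.e (nat_lit 557107) (nat_lit 15) (.e (nat_lit 188450) (nat_lit 23) (.e (nat_lit 204863) (nat_lit 27) (.e (nat_lit 344097) (nat_lit 18) (.e (nat_lit 5907) (nat_lit 320) .nil))))))) (.g (nat_lit 0) .nil .nil))))) (.nd (nat_lit 4) (.nd (nat_lit 5) 
(.lf (nat_lit 17869) (.g (nat_lit 3484) (.e (nat_lit 1172) (nat_lit 87) (.e (nat_lit 57476) (nat_lit 28) (.e (nat_lit 557097) (nat_lit 13) (.e (nat_lit 172097) (nat_lit 9) (.e (nat_lit 426140) (nat_lit 3) (.e (nat_lit 204855) (nat_lit 26) (.e (nat_lit 335985) (nat_lit 1) (.e (nat_lit 57872) (nat_lit 264) .nil)))))))) (.g (nat_lit 0) .nil .nil))) 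
(.lf (nat_lit 17901) (.g (nat_lit 2694) (.e (nat_lit 1172) (nat_lit 87) (.e (nat_lit 57476) (nat_lit 28) (.e (nat_lit 557107) (nat_lit 15) (.e (nat_lit 188450) (nat_lit 23) (.e (nat_lit 204855) (nat_lit 26) (.e (nat_lit 335985) (nat_lit 1) (.e (nat_lit 57872) (nat_lit 264) .nil))))))) (.g (nat_lit 0) .nil .nil)))) (.nd (nat_lit 5) 
(.lf (nat_lit 17885) (.g (nat_lit 2986) (.e (nat_lit 1172) (nat_lit 87) (.e (nat_lit 57476) (nat_lit 28) (.e (nat_lit 557107) (nat_lit 15) (.e (nat_lit 188447) (nat_lit 22) (.e (nat_lit 196666) (nat_lit 13) (.e (nat_lit 65550) (nat_lit 0) (.e (nat_lit 1023) (nat_lit 81) (.e (nat_lit 5905) (nat_lit 320) .nil)))))))) (.g (nat_lit 5) .nil .nil))) 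
(.lf (nat_lit 17917) (.g (nat_lit 3187) (.e (nat_lit 1172) (nat_lit 87) (.e (nat_lit 57476) (nat_lit 28) (.e (nat_lit 557108) (nat_lit 15) (.e (nat_lit 188449) (nat_lit 22) (.e (nat_lit 196666) (nat_lit 13) (.e (nat_lit 65563) (nat_lit 1) (.e (nat_lit 57870) (nat_lit 264) .nil))))))) (.g (nat_lit 0) .nil .nil))))))) (.nd (nat_lit 2) (.nd (nat_lit 3) (.nd (nat_lit 4) (.nd (nat_lit 5) 
(.lf (nat_lit 17859) (.g (nat_lit 2915) (.e (nat_lit 1172) (nat_lit 87) (.e (nat_lit 57475) (nat_lit 28) (.e (nat_lit 557100) (nat_lit 13) (.e (nat_lit 172106) (nat_lit 10) (.e (nat_lit 434231) (nat_lit 23) (.e (nat_lit 532544) (nat_lit 10) (.e (nat_lit 344097) (nat_lit 18) (.e (nat_lit 5907) (nat_lit 320) .nil)))))))) (.g (nat_lit 4) .nil .nil))) 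
(.lf (nat_lit 17891) (.g (nat_lit 4209) (.e (nat_lit 1172) (nat_lit 87) (.e (nat_lit 57476) (nat_lit 28) (.e (nat_lit 557107) (nat_lit 15) (.e (nat_lit 188447) (nat_lit 22) (.e (nat_lit 196668) (nat_lit 14) (.e (nat_lit 73733) (nat_lit 0) (.e (nat_lit 5907) (nat_lit 320) .nil))))))) (.g (nat_lit 7) .nil .nil)))) (.nd (nat_lit 5) 
(.lf (nat_lit 17875) (.g (nat_lit 4045) (.e (nat_lit 1172) (nat_lit 87) (.e (nat_lit 57476) (nat_lit 28) (.e (nat_lit 557097) (nat_lit 13) (.e (nat_lit 172115) (nat_lit 10) (.e (nat_lit 434231) (nat_lit 23) (.e (nat_lit 532527) (nat_lit 9) (.e (nat_lit 335997) (nat_lit 1) (.e (nat_lit 57872) (nat_lit 264) .nil)))))))) (.g (nat_lit 0) .nil .nil))) 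
(.lf (nat_lit 17907) (.g (nat_lit 3196) (.e (nat_lit 1172) (nat_lit 87) (.e (nat_lit 57476) (nat_lit 28) (.e (nat_lit 557107) (nat_lit 15) (.e (nat_lit 188450) (nat_lit 23) (.e (nat_lit 204862) (nat_lit 27) (.e (nat_lit 344097) (nat_lit 18) (.e (nat_lit 5906) (nat_lit 320) .nil))))))) (.g (nat_lit 0) .nil .nil))))) (.nd (nat_lit 4) (.nd (nat_lit 5) 
(.lf (nat_lit 17867) (.g (nat_lit 3519) (.e (nat_lit 1172) (nat_lit 87) (.e (nat_lit 57476) (nat_lit 28) (.e (nat_lit 557097) (nat_lit 13) (.e (nat_lit 172097) (nat_lit 9) (.e (nat_lit 426140) (nat_lit 3) (.e (nat_lit 204850) (nat_lit 26) (.e (nat_lit 335997) (nat_lit 1) (.e (nat_lit 57872) (nat_lit 264) .nil)))))))) (.g (nat_lit 0) .nil .nil))) 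
(.lf (nat_lit 17899) (.g (nat_lit 2624) (.e (nat_lit 1172) (nat_lit 87) (.e (nat_lit 57476) (nat_lit 28) (.e (nat_lit 557107) (nat_lit 15) (.e (nat_lit 188450) (nat_lit 23) (.e (nat_lit 204855) (nat_lit 26) (.e (nat_lit 335923) (nat_lit 0) (.e (nat_lit 1023) (nat_lit 81) (.e (nat_lit 5906) (nat_lit 320) .nil)))))))) (.g (nat_lit 5) .nil .nil)))) (.nd (nat_lit 5) 
(.lf (nat_lit 17883) (.g (nat_lit 4572) (.e (nat_lit 1172) (nat_lit 87) (.e (nat_lit 57476) (nat_lit 28) (.e (nat_lit 557097) (nat_lit 13) (.e (nat_lit 172115) (nat_lit 10) (.e (nat_lit 434231) (nat_lit 23) (.e (nat_lit 532554) (nat_lit 13) (.e (nat_lit 368662) (nat_lit 18) (.e (nat_lit 5907) (nat_lit 320) .nil)))))))) (.g (nat_lit 8) .nil .nil))) 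
(.lf (nat_lit 17915) (.g (nat_lit 3185) (.e (nat_lit 1172) (nat_lit 87) (.e (nat_lit 57476) (nat_lit 28) (.e (nat_lit 557108) (nat_lit 15) (.e (nat_lit 188449) (nat_lit 22) (.e (nat_lit 196666) (nat_lit 13) (.e (nat_lit 65550) (nat_lit 0) (.e (nat_lit 1023) (nat_lit 81) (.e (nat_lit 5905) (nat_lit 320) .nil)))))))) (.g (nat_lit 5) .nil .nil)))))) (.nd (nat_lit 3) (.nd (nat_lit 4) (.nd (nat_lit 5) 
(.lf (nat_lit 17863) (.g (nat_lit 3893) (.e (nat_lit 1172) (nat_lit 87) (.e (nat_lit 57476) (nat_lit 28) (.e (nat_lit 557097) (nat_lit 13) (.e (nat_lit 172097) (nat_lit 9) (.e (nat_lit 426125) (nat_lit 2) (.e (nat_lit 196666) (nat_lit 13) (.e (nat_lit 65563) (nat_lit 1) (.e (nat_lit 57872) (nat_lit 264) .nil)))))))) (.g (nat_lit 0) .nil .nil))) 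
(.lf (nat_lit 17895) (.g (nat_lit 1367) (.e (nat_lit 1172) (nat_lit 87) (.e (nat_lit 57476) (nat_lit 28) (.e (nat_lit 557107) (nat_lit 15) (.e (nat_lit 188450) (nat_lit 23) (.e (nat_lit 204817) (nat_lit 17) (.e (nat_lit 7936) (nat_lit 343) (.e (nat_lit 1183) (nat_lit 87) (.e (nat_lit 57872) (nat_lit 264) .nil)))))))) (.g (nat_lit 4) .nil .nil)))) (.nd (nat_lit 5) 
(.lf (nat_lit 17879) (.g (nat_lit 4256) (.e (nat_lit 1172) (nat_lit 87) (.e (nat_lit 57476) (nat_lit 28) (.e (nat_lit 557097) (nat_lit 13) (.e (nat_lit 172115) (nat_lit 10) (.e (nat_lit 434231) (nat_lit 23) (.e (nat_lit 532543) (nat_lit 10) (.e (nat_lit 344097) (nat_lit 18) (.e (nat_lit 5906) (nat_lit 320) .nil)))))))) (.g (nat_lit 0) .nil .nil))) 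
(.lf (nat_lit 17911) (.g (nat_lit 3058) (.e (nat_lit 1172) (nat_lit 87) (.e (nat_lit 57476) (nat_lit 28) (.e (nat_lit 557107) (nat_lit 15) (.e (nat_lit 188450) (nat_lit 23) (.e (nat_lit 204873) (nat_lit 30) (.e (nat_lit 368662) (nat_lit 18) (.e (nat_lit 5906) (nat_lit 320) .nil))))))) (.g (nat_lit 7) .nil .nil))))) (.nd (nat_lit 4) (.nd (nat_lit 5) 
(.lf (nat_lit 17871) (.g (nat_lit 4240) (.e (nat_lit 1172) (nat_lit 87) (.e (nat_lit 57476) (nat_lit 28) (.e (nat_lit 557097) (nat_lit 13) (.e (nat_lit 172097) (nat_lit 9) (.e (nat_lit 426140) (nat_lit 3) (.e (nat_lit 204863) (nat_lit 27) (.e (nat_lit 344097) (nat_lit 18) (.e (nat_lit 5906) (nat_lit 320) .nil)))))))) (.g (nat_lit 0) .nil .nil))) 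
(.lf (nat_lit 17903) (.g (nat_lit 1591) (.e (nat_lit 1172) (nat_lit 87) (.e (nat_lit 57476) (nat_lit 28) (.e (nat_lit 557107) (nat_lit 15) (.e (nat_lit 188450) (nat_lit 23) (.e (nat_lit 204856) (nat_lit 26) (.e (nat_lit 335997) (nat_lit 1) (.e (nat_lit 57870) (nat_lit 264) .nil))))))) (.g (nat_lit 4) .nil .nil)))) (.nd (nat_lit 5) 
(.lf (nat_lit 17887) (.g (nat_lit 3140) (.e (nat_lit 1172) (nat_lit 87) (.e (nat_lit 57476) (nat_lit 28) (.e (nat_lit 557107) (nat_lit 15) (.e (nat_lit 188447) (nat_lit 22) (.e (nat_lit 196666) (nat_lit 13) (.e (nat_lit 65563) (nat_lit 1) (.e (nat_lit 57870) (nat_lit 264) .nil))))))) (.g (nat_lit 0) .nil .nil))) 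
(.lf (nat_lit 17919) (.g (nat_lit 3203) (.e (nat_lit 1172) (nat_lit 87) (.e (nat_lit 57476) (nat_lit 28) (.e (nat_lit 557108) (nat_lit 15) (.e (nat_lit 188449) (nat_lit 22) (.e (nat_lit 196666) (nat_lit 13) (.e (nat_lit 65565) (nat_lit 1) (.e (nat_lit 57870) (nat_lit 264) .nil))))))) (.g (nat_lit 0) .nil .nil)))))))))

noncomputable def tv246 : DT := (.nd (nat_lit 0) (.nd (nat_lit 1) (.nd (nat_lit 2) (.nd (nat_lit 3) (.nd (nat_lit 4) (.nd (nat_lit 5) 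
(.lf (nat_lit 17920) (.g (nat_lit 3231) (.e (nat_lit 1172) (nat_lit 87) (.e (nat_lit 57476) (nat_lit 28) (.e (nat_lit 557108) (nat_lit 15) (.e (nat_lit 188449) (nat_lit 22) (.e (nat_lit 196666) (nat_lit 13) (.e (nat_lit 65565) (nat_lit 1) (.e (nat_lit 57872) (nat_lit 264) .nil))))))) (.g (nat_lit 0) .nil .nil))) 
(.lf (nat_lit 17952) (.g (nat_lit 4129) (.e (nat_lit 1172) (nat_lit 87) (.e (nat_lit 57476) (nat_lit 28) (.e (nat_lit 557108) (nat_lit 15) (.e (nat_lit 188452) (nat_lit 23) (.e (nat_lit 204873) (nat_lit 30) (.e (nat_lit 368662) (nat_lit 18) (.e (nat_lit 5907) (nat_lit 320) .nil))))))) (.g (nat_lit 7) .nil .nil)))) (.nd (nat_lit 5) 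
(.lf (nat_lit 17936) (.g (nat_lit 3236) (.e (nat_lit 1172) (nat_lit 87) (.e (nat_lit 57476) (nat_lit 28) (.e (nat_lit 557108) (nat_lit 15) (.e (nat_lit 188452) (nat_lit 23) (.e (nat_lit 204850) (nat_lit 26) (.e (nat_lit 335997) (nat_lit 1) (.e (nat_lit 57872) (nat_lit 264) .nil))))))) (.g (nat_lit 0) .nil .nil))) 
(.lf (nat_lit 17968) (.g (nat_lit 2870) (.e (nat_lit 1172) (nat_lit 87) (.e (nat_lit 57477) (nat_lit 28) (.e (nat_lit 557107) (nat_lit 15) (.e (nat_lit 188447) (nat_lit 22) (.e (nat_lit 196666) (nat_lit 13) (.e (nat_lit 65563) (nat_lit 1) (.e (nat_lit 57870) (nat_lit 264) .nil))))))) (.g (nat_lit 7) .nil .nil))))) (.nd (nat_lit 4) (.nd (nat_lit 5) 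
(.lf (nat_lit 17928) (.g (nat_lit 5024) (.e (nat_lit 1172) (nat_lit 87) (.e (nat_lit 57476) (nat_lit 28) (.e (nat_lit 557108) (nat_lit 15) (.e (nat_lit 188449) (nat_lit 22) (.e (nat_lit 196681) (nat_lit 17) (.e (nat_lit 131089) (nat_lit 1) (.e (nat_lit 57870) (nat_lit 264) .nil))))))) (.g (nat_lit 6) .nil .nil))) 
(.lf (nat_lit 17960) (.g (nat_lit 3817) (.e (nat_lit 1172) (nat_lit 87) (.e (nat_lit 57477) (nat_lit 28) (.e (nat_lit 557097) (nat_lit 13) (.e (nat_lit 172097) (nat_lit 9) (.e (nat_lit 426125) (nat_lit 2) (.e (nat_lit 196666) (nat_lit 13) (.e (nat_lit 65565) (nat_lit 1) (.e (nat_lit 57873) (nat_lit 264) .nil)))))))) (.g (nat_lit 8) .nil .nil)))) (.nd (nat_lit 5) 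
(.lf (nat_lit 17944) (.g (nat_lit 3587) (.e (nat_lit 1172) (nat_lit 87) (.e (nat_lit 57476) (nat_lit 28) (.e (nat_lit 557108) (nat_lit 15) (.e (nat_lit 188452) (nat_lit 23) (.e (nat_lit 204861) (nat_lit 26) .nil))))) .nil)) 
(.lf (nat_lit 17976) (.g (nat_lit 2229) (.e (nat_lit 1172) (nat_lit 87) (.e (nat_lit 57477) (nat_lit 28) (.e (nat_lit 557107) (nat_lit 15) (.e (nat_lit 188450) (nat_lit 23) (.e (nat_lit 204852) (nat_lit 26) (.e (nat_lit 343808) (nat_lit 1) (.e (nat_lit 57872) (nat_lit 264) .nil))))))) (.g (nat_lit 5) .nil .nil)))))) (.nd (nat_lit 3) (.nd (nat_lit 4) (.nd (nat_lit 5) 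
(.lf (nat_lit 17924) (.g (nat_lit 4920) (.e (nat_lit 1172) (nat_lit 87) (.e (nat_lit 57476) (nat_lit 28) (.e (nat_lit 557108) (nat_lit 15) (.e (nat_lit 188449) (nat_lit 22) (.e (nat_lit 196670) (nat_lit 14) (.e (nat_lit 73732) (nat_lit 0) (.e (nat_lit 5907) (nat_lit 320) .nil))))))) (.g (nat_lit 7) .nil .nil))) 
(.lf (nat_lit 17956) (.g (nat_lit 1591) (.e (nat_lit 1172) (nat_lit 87) (.e (nat_lit 57476) (nat_lit 28) (.e (nat_lit 557108) (nat_lit 15) (.e (nat_lit 188458) (nat_lit 25) (.e (nat_lit 245784) (nat_lit 9) (.e (nat_lit 1520) (nat_lit 108) (.e (nat_lit 335995) (nat_lit 1) (.e (nat_lit 57872) (nat_lit 264) .nil)))))))) (.g (nat_lit 4) .nil .nil)))) (.nd (nat_lit 5) 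
(.lf (nat_lit 17940) (.g (nat_lit 3421) (.e (nat_lit 1172) (nat_lit 87) (.e (nat_lit 57476) (nat_lit 28) (.e (nat_lit 557108) (nat_lit 15) (.e (nat_lit 188452) (nat_lit 23) (.e (nat_lit 204855) (nat_lit 26) (.e (nat_lit 335992) (nat_lit 1) (.e (nat_lit 57870) (nat_lit 264) .nil))))))) (.g (nat_lit 7) .nil .nil))) 
(.lf (nat_lit 17972) (.g (nat_lit 3313) (.e (nat_lit 1172) (nat_lit 87) (.e (nat_lit 57477) (nat_lit 28) (.e (nat_lit 557107) (nat_lit 15) (.e (nat_lit 188447) (nat_lit 22) (.e (nat_lit 196666) (nat_lit 13) (.e (nat_lit 65565) (nat_lit 1) (.e (nat_lit 57873) (nat_lit 264) .nil))))))) (.g (nat_lit 7) .nil .nil))))) (.nd (nat_lit 4) (.nd (nat_lit 5) 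
(.lf (nat_lit 17932) (.g (nat_lit 3466) (.e (nat_lit 1172) (nat_lit 87) (.e (nat_lit 57476) (nat_lit 28) (.e (nat_lit 557108) (nat_lit 15) (.e (nat_lit 188452) (nat_lit 23) (.e (nat_lit 204817) (nat_lit 17) (.e (nat_lit 7936) (nat_lit 343) (.e (nat_lit 1183) (nat_lit 87) (.e (nat_lit 57871) (nat_lit 264) .nil)))))))) (.g (nat_lit 4) .nil .nil))) 
(.lf (nat_lit 17964) (.g (nat_lit 4179) (.e (nat_lit 1172) (nat_lit 87) (.e (nat_lit 57477) (nat_lit 28) (.e (nat_lit 557097) (nat_lit 13) (.e (nat_lit 172115) (nat_lit 10) (.e (nat_lit 434231) (nat_lit 23) (.e (nat_lit 532543) (nat_lit 10) (.e (nat_lit 344097) (nat_lit 18) (.e (nat_lit 5907) (nat_lit 320) .nil)))))))) (.g (nat_lit 8) .nil .nil)))) (.nd (nat_lit 5) 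
(.lf (nat_lit 17948) (.g (nat_lit 1496) (.e (nat_lit 1172) (nat_lit 87) (.e (nat_lit 57476) (nat_lit 28) (.e (nat_lit 557108) (nat_lit 15) (.e (nat_lit 188452) (nat_lit 23) (.e (nat_lit 204864) (nat_lit 27) .nil))))) .nil)) 
(.lf (nat_lit 17980) (.g (nat_lit 2787) (.e (nat_lit 1172) (nat_lit 87) (.e (nat_lit 57477) (nat_lit 28) (.e (nat_lit 557107) (nat_lit 15) (.e (nat_lit 188450) (nat_lit 23) (.e (nat_lit 204873) (nat_lit 30) (.e (nat_lit 368662) (nat_lit 18) (.e (nat_lit 5907) (nat_lit 320) .nil))))))) (.g (nat_lit 7) .nil .nil))))))) (.nd (nat_lit 2) (.nd (nat_lit 3) (.nd (nat_lit 4) (.nd (nat_lit 5) 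
(.lf (nat_lit 17922) (.g (nat_lit 5536) (.e (nat_lit 1172) (nat_lit 87) (.e (nat_lit 57476) (nat_lit 28) (.e (nat_lit 557108) (nat_lit 15) (.e (nat_lit 188449) (nat_lit 22) (.e (nat_lit 196668) (nat_lit 14) (.e (nat_lit 73733) (nat_lit 0) (.e (nat_lit 5907) (nat_lit 320) .nil))))))) (.g (nat_lit 0) .nil .nil))) 
(.lf (nat_lit 17954) (.g (nat_lit 1497) (.e (nat_lit 1172) (nat_lit 87) (.e (nat_lit 57476) (nat_lit 28) (.e (nat_lit 557108) (nat_lit 15) (.e (nat_lit 188458) (nat_lit 25) (.e (nat_lit 245784) (nat_lit 9) .nil))))) .nil))) (.nd (nat_lit 5) 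
(.lf (nat_lit 17938) (.g (nat_lit 3208) (.e (nat_lit 1172) (nat_lit 87) (.e (nat_lit 57476) (nat_lit 28) (.e (nat_lit 557108) (nat_lit 15) (.e (nat_lit 188452) (nat_lit 23) (.e (nat_lit 204855) (nat_lit 26) (.e (nat_lit 335985) (nat_lit 1) (.e (nat_lit 57870) (nat_lit 264) .nil))))))) (.g (nat_lit 0) .nil .nil))) 
(.lf (nat_lit 17970) (.g (nat_lit 2899) (.e (nat_lit 1172) (nat_lit 87) (.e (nat_lit 57477) (nat_lit 28) (.e (nat_lit 557107) (nat_lit 15) (.e (nat_lit 188447) (nat_lit 22) (.e (nat_lit 196666) (nat_lit 13) (.e (nat_lit 65565) (nat_lit 1) (.e (nat_lit 57870) (nat_lit 264) .nil))))))) (.g (nat_lit 7) .nil .nil))))) (.nd (nat_lit 4) (.nd (nat_lit 5) 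
(.lf (nat_lit 17930) (.g (nat_lit 1795) (.e (nat_lit 1172) (nat_lit 87) (.e (nat_lit 57476) (nat_lit 28) (.e (nat_lit 557108) (nat_lit 15) (.e (nat_lit 188450) (nat_lit 23) (.e (nat_lit 204861) (nat_lit 26) .nil))))) .nil)) 
(.lf (nat_lit 17962) (.g (nat_lit 4016) (.e (nat_lit 1172) (nat_lit 87) (.e (nat_lit 57477) (nat_lit 28) (.e (nat_lit 557097) (nat_lit 13) (.e (nat_lit 172097) (nat_lit 9) (.e (nat_lit 426140) (nat_lit 3) (.e (nat_lit 204862) (nat_lit 27) (.e (nat_lit 344097) (nat_lit 18) (.e (nat_lit 5907) (nat_lit 320) .nil)))))))) (.g (nat_lit 8) .nil .nil)))) (.nd (nat_lit 5) 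
(.lf (nat_lit 17946) (.g (nat_lit 3784) (.e (nat_lit 1172) (nat_lit 87) (.e (nat_lit 57476) (nat_lit 28) (.e (nat_lit 557108) (nat_lit 15) (.e (nat_lit 188452) (nat_lit 23) (.e (nat_lit 204862) (nat_lit 27) (.e (nat_lit 344097) (nat_lit 18) (.e (nat_lit 5906) (nat_lit 320) .nil))))))) (.g (nat_lit 0) .nil .nil))) 
(.lf (nat_lit 17978) (.g (nat_lit 3813) (.e (nat_lit 1172) (nat_lit 87) (.e (nat_lit 57477) (nat_lit 28) (.e (nat_lit 557107) (nat_lit 15) (.e (nat_lit 188450) (nat_lit 23) (.e (nat_lit 204863) (nat_lit 27) (.e (nat_lit 344097) (nat_lit 18) (.e (nat_lit 5907) (nat_lit 320) .nil))))))) (.g (nat_lit 7) .nil .nil)))))) (.nd (nat_lit 3) (.nd (nat_lit 4) (.nd (nat_lit 5) 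
(.lf (nat_lit 17926) (.g (nat_lit 5062) (.e (nat_lit 1172) (nat_lit 87) (.e (nat_lit 57476) (nat_lit 28) (.e (nat_lit 557108) (nat_lit 15) (.e (nat_lit 188449) (nat_lit 22) (.e (nat_lit 196681) (nat_lit 17) (.e (nat_lit 131086) (nat_lit 1) (.e (nat_lit 57873) (nat_lit 264) .nil))))))) (.g (nat_lit 5) .nil .nil))) 
(.lf (nat_lit 17958) (.g (nat_lit 2748) (.e (nat_lit 1172) (nat_lit 87) (.e (nat_lit 57477) (nat_lit 28) (.e (nat_lit 557097) (nat_lit 13) (.e (nat_lit 172097) (nat_lit 9) (.e (nat_lit 426125) (nat_lit 2) (.e (nat_lit 196666) (nat_lit 13) (.e (nat_lit 65546) (nat_lit 0) (.e (nat_lit 1023) (nat_lit 81) (.e (nat_lit 5907) (nat_lit 320) .nil))))))))) (.g (nat_lit 6) .nil .nil)))) (.nd (nat_lit 5) 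
(.lf (nat_lit 17942) (.g (nat_lit 3442) (.e (nat_lit 1172) (nat_lit 87) (.e (nat_lit 57476) (nat_lit 28) (.e (nat_lit 557108) (nat_lit 15) (.e (nat_lit 188452) (nat_lit 23) (.e (nat_lit 204858) (nat_lit 26) .nil))))) .nil)) 
(.lf (nat_lit 17974) (.g (nat_lit 2908) (.e (nat_lit 1172) (nat_lit 87) (.e (nat_lit 57477) (nat_lit 28) (.e (nat_lit 557107) (nat_lit 15) (.e (nat_lit 188447) (nat_lit 22) (.e (nat_lit 196681) (nat_lit 17) (.e (nat_lit 131089) (nat_lit 1) (.e (nat_lit 57870) (nat_lit 264) .nil))))))) (.g (nat_lit 5) .nil .nil))))) (.nd (nat_lit 4) (.nd (nat_lit 5) 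
(.lf (nat_lit 17934) (.g (nat_lit 3164) (.e (nat_lit 1172) (nat_lit 87) (.e (nat_lit 57476) (nat_lit 28) (.e (nat_lit 557108) (nat_lit 15) (.e (nat_lit 188452) (nat_lit 23) (.e (nat_lit 204850) (nat_lit 26) (.e (nat_lit 335997) (nat_lit 1) (.e (nat_lit 57870) (nat_lit 264) .nil))))))) (.g (nat_lit 0) .nil .nil))) 
(.lf (nat_lit 17966) (.g (nat_lit 4199) (.e (nat_lit 1172) (nat_lit 87) (.e (nat_lit 57477) (nat_lit 28) (.e (nat_lit 557097) (nat_lit 13) (.e (nat_lit 172115) (nat_lit 10) (.e (nat_lit 434231) (nat_lit 23) (.e (nat_lit 532554) (nat_lit 13) (.e (nat_lit 368662) (nat_lit 18) (.e (nat_lit 5907) (nat_lit 320) .nil)))))))) (.g (nat_lit 8) .nil .nil)))) (.nd (nat_lit 5) 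
(.lf (nat_lit 17950) (.g (nat_lit 2721) (.e (nat_lit 1172) (nat_lit 87) (.e (nat_lit 57476) (nat_lit 28) (.e (nat_lit 557108) (nat_lit 15) (.e (nat_lit 188452) (nat_lit 23) (.e (nat_lit 204873) (nat_lit 30) (.e (nat_lit 368662) (nat_lit 18) (.e (nat_lit 5905) (nat_lit 320) .nil))))))) (.g (nat_lit 4) .nil .nil))) 
(.lf (nat_lit 17982) (.g (nat_lit 3170) (.e (nat_lit 1172) (nat_lit 87) (.e (nat_lit 57477) (nat_lit 28) (.e (nat_lit 557108) (nat_lit 15) (.e (nat_lit 188449) (nat_lit 22) (.e (nat_lit 196666) (nat_lit 13) (.e (nat_lit 65563) (nat_lit 1) (.e (nat_lit 57873) (nat_lit 264) .nil))))))) (.g (nat_lit 7) .nil .nil)))))))) 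
(.nd (nat_lit 1) (.nd (nat_lit 2) (.nd (nat_lit 3) (.nd (nat_lit 4) (.nd (nat_lit 5) 
(.lf (nat_lit 17921) (.g (nat_lit 4105) (.e (nat_lit 1172) (nat_lit 87) (.e (nat_lit 57476) (nat_lit 28) (.e (nat_lit 557108) (nat_lit 15) (.e (nat_lit 188449) (nat_lit 22) (.e (nat_lit 196667) (nat_lit 14) .nil))))) .nil)) 
(.lf (nat_lit 17953) (.g (nat_lit 2799) (.e (nat_lit 1172) (nat_lit 87) (.e (nat_lit 57476) (nat_lit 28) (.e (nat_lit 557108) (nat_lit 15) (.e (nat_lit 188452) (nat_lit 23) (.e (nat_lit 204874) (nat_lit 30) .nil))))) .nil))) (.nd (nat_lit 5) 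
(.lf (nat_lit 17937) (.g (nat_lit 2940) (.e (nat_lit 1172) (nat_lit 87) (.e (nat_lit 57476) (nat_lit 28) (.e (nat_lit 557108) (nat_lit 15) (.e (nat_lit 188452) (nat_lit 23) (.e (nat_lit 204855) (nat_lit 26) (.e (nat_lit 335923) (nat_lit 0) (.e (nat_lit 1023) (nat_lit 81) (.e (nat_lit 5905) (nat_lit 320) .nil)))))))) (.g (nat_lit 5) .nil .nil))) 
(.lf (nat_lit 17969) (.g (nat_lit 2950) (.e (nat_lit 1172) (nat_lit 87) (.e (nat_lit 57477) (nat_lit 28) (.e (nat_lit 557107) (nat_lit 15) (.e (nat_lit 188447) (nat_lit 22) (.e (nat_lit 196666) (nat_lit 13) (.e (nat_lit 65563) (nat_lit 1) (.e (nat_lit 57872) (nat_lit 264) .nil))))))) (.g (nat_lit 7) .nil .nil))))) (.nd (nat_lit 4) (.nd (nat_lit 5) 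
(.lf (nat_lit 17929) (.g (nat_lit 979) (.e (nat_lit 1172) (nat_lit 87) (.e (nat_lit 57476) (nat_lit 28) (.e (nat_lit 557108) (nat_lit 15) (.e (nat_lit 188450) (nat_lit 23) .nil)))) .nil)) 
(.lf (nat_lit 17961) (.g (nat_lit 3074) (.e (nat_lit 1172) (nat_lit 87) (.e (nat_lit 57477) (nat_lit 28) (.e (nat_lit 557097) (nat_lit 13) (.e (nat_lit 172097) (nat_lit 9) (.e (nat_lit 426140) (nat_lit 3) (.e (nat_lit 204855) (nat_lit 26) (.e (nat_lit 335992) (nat_lit 1) (.e (nat_lit 57870) (nat_lit 264) .nil)))))))) (.g (nat_lit 7) .nil .nil)))) (.nd (nat_lit 5) 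
(.lf (nat_lit 17945) (.g (nat_lit 2122) (.e (nat_lit 1172) (nat_lit 87) (.e (nat_lit 57476) (nat_lit 28) (.e (nat_lit 557108) (nat_lit 15) (.e (nat_lit 188452) (nat_lit 23) (.e (nat_lit 212736) (nat_lit 26) (.e (nat_lit 335995) (nat_lit 1) (.e (nat_lit 57872) (nat_lit 264) .nil))))))) (.g (nat_lit 4) .nil .nil))) 
(.lf (nat_lit 17977) (.g (nat_lit 3297) (.e (nat_lit 1172) (nat_lit 87) (.e (nat_lit 57477) (nat_lit 28) (.e (nat_lit 557107) (nat_lit 15) (.e (nat_lit 188450) (nat_lit 23) (.e (nat_lit 204862) (nat_lit 27) (.e (nat_lit 344097) (nat_lit 18) (.e (nat_lit 5907) (nat_lit 320) .nil))))))) (.g (nat_lit 7) .nil .nil)))))) (.nd (nat_lit 3) (.nd (nat_lit 4) (.nd (nat_lit 5) 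
(.lf (nat_lit 17925) (.g (nat_lit 4173) (.e (nat_lit 1172) (nat_lit 87) (.e (nat_lit 57476) (nat_lit 28) (.e (nat_lit 557108) (nat_lit 15) (.e (nat_lit 188449) (nat_lit 22) (.e (nat_lit 196680) (nat_lit 17) .nil))))) .nil)) 
(.lf (nat_lit 17957) (.g (nat_lit 1879) (.e (nat_lit 1172) (nat_lit 87) (.e (nat_lit 57476) (nat_lit 28) (.e (nat_lit 557108) (nat_lit 15) (.e (nat_lit 188458) (nat_lit 25) (.e (nat_lit 245784) (nat_lit 9) (.e (nat_lit 1524) (nat_lit 108) (.e (nat_lit 335995) (nat_lit 1) (.e (nat_lit 57872) (nat_lit 264) .nil)))))))) (.g (nat_lit 5) .nil .nil)))) (.nd (nat_lit 5) 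
(.lf (nat_lit 17941) (.g (nat_lit 3198) (.e (nat_lit 1172) (nat_lit 87) (.e (nat_lit 57476) (nat_lit 28) (.e (nat_lit 557108) (nat_lit 15) (.e (nat_lit 188452) (nat_lit 23) (.e (nat_lit 204856) (nat_lit 26) (.e (nat_lit 335997) (nat_lit 1) (.e (nat_lit 57870) (nat_lit 264) .nil))))))) (.g (nat_lit 6) .nil .nil))) 
(.lf (nat_lit 17973) (.g (nat_lit 2995) (.e (nat_lit 1172) (nat_lit 87) (.e (nat_lit 57477) (nat_lit 28) (.e (nat_lit 557107) (nat_lit 15) (.e (nat_lit 188447) (nat_lit 22) (.e (nat_lit 196681) (nat_lit 17) (.e (nat_lit 131086) (nat_lit 1) (.e (nat_lit 57873) (nat_lit 264) .nil))))))) (.g (nat_lit 5) .nil .nil))))) (.nd (nat_lit 4) (.nd (nat_lit 5) 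
(.lf (nat_lit 17933) (.g (nat_lit 2139) (.e (nat_lit 1172) (nat_lit 87) (.e (nat_lit 57476) (nat_lit 28) (.e (nat_lit 557108) (nat_lit 15) (.e (nat_lit 188452) (nat_lit 23) (.e (nat_lit 204821) (nat_lit 17) .nil))))) .nil)) 
(.lf (nat_lit 17965) (.g (nat_lit 4471) (.e (nat_lit 1172) (nat_lit 87) (.e (nat_lit 57477) (nat_lit 28) (.e (nat_lit 557097) (nat_lit 13) (.e (nat_lit 172115) (nat_lit 10) (.e (nat_lit 434231) (nat_lit 23) (.e (nat_lit 532544) (nat_lit 10) (.e (nat_lit 344097) (nat_lit 18) (.e (nat_lit 5907) (nat_lit 320) .nil)))))))) (.g (nat_lit 8) .nil .nil)))) (.nd (nat_lit 5) 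
(.lf (nat_lit 17949) (.g (nat_lit 2242) (.e (nat_lit 1172) (nat_lit 87) (.e (nat_lit 57476) (nat_lit 28) (.e (nat_lit 557108) (nat_lit 15) (.e (nat_lit 188452) (nat_lit 23) (.e (nat_lit 204864) (nat_lit 27) (.e (nat_lit 344100) (nat_lit 18) (.e (nat_lit 5907) (nat_lit 320) .nil))))))) (.g (nat_lit 5) .nil .nil))) 
(.lf (nat_lit 17981) (.g (nat_lit 2253) (.e (nat_lit 1172) (nat_lit 87) (.e (nat_lit 57477) (nat_lit 28) (.e (nat_lit 557108) (nat_lit 15) (.e (nat_lit 188449) (nat_lit 22) (.e (nat_lit 196666) (nat_lit 13) (.e (nat_lit 65546) (nat_lit 0) (.e (nat_lit 1023) (nat_lit 81) (.e (nat_lit 5905) (nat_lit 320) .nil)))))))) (.g (nat_lit 5) .nil .nil))))))) 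
(.nd (nat_lit 2) (.nd (nat_lit 3) (.nd (nat_lit 4) (.nd (nat_lit 5) 
(.lf (nat_lit 17923) (.g (nat_lit 4348) (.e (nat_lit 1172) (nat_lit 87) (.e (nat_lit 57476) (nat_lit 28) (.e (nat_lit 557108) (nat_lit 15) (.e (nat_lit 188449) (nat_lit 22) (.e (nat_lit 196670) (nat_lit 14) (.e (nat_lit 73732) (nat_lit 0) (.e (nat_lit 5905) (nat_lit 320) .nil))))))) (.g (nat_lit 6) .nil .nil))) 
(.lf (nat_lit 17955) (.g (nat_lit 1498) (.e (nat_lit 1172) (nat_lit 87) (.e (nat_lit 57476) (nat_lit 28) (.e (nat_lit 557108) (nat_lit 15) (.e (nat_lit 188458) (nat_lit 25) (.e (nat_lit 245784) (nat_lit 9) (.e (nat_lit 1413) (nat_lit 108) (.e (nat_lit 335997) (nat_lit 1) (.e (nat_lit 57870) (nat_lit 264) .nil)))))))) (.g (nat_lit 4) .nil .nil)))) (.nd (nat_lit 5) 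
(.lf (nat_lit 17939) (.g (nat_lit 3232) (.e (nat_lit 1172) (nat_lit 87) (.e (nat_lit 57476) (nat_lit 28) (.e (nat_lit 557108) (nat_lit 15) (.e (nat_lit 188452) (nat_lit 23) (.e (nat_lit 204855) (nat_lit 26) (.e (nat_lit 335985) (nat_lit 1) (.e (nat_lit 57872) (nat_lit 264) .nil))))))) (.g (nat_lit 0) .nil .nil))) 
(.lf (nat_lit 17971) (.g (nat_lit 2976) (.e (nat_lit 1172) (nat_lit 87) (.e (nat_lit 57477) (nat_lit 28) (.e (nat_lit 557107) (nat_lit 15) (.e (nat_lit 188447) (nat_lit 22) (.e (nat_lit 196666) (nat_lit 13) (.e (nat_lit 65565) (nat_lit 1) (.e (nat_lit 57872) (nat_lit 264) .nil))))))) (.g (nat_lit 7) .nil .nil))))) (.nd (nat_lit 4) (.nd (nat_lit 5) 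
(.lf (nat_lit 17931) (.g (nat_lit 3275) (.e (nat_lit 1172) (nat_lit 87) (.e (nat_lit 57476) (nat_lit 28) (.e (nat_lit 557108) (nat_lit 15) (.e (nat_lit 188452) (nat_lit 23) (.e (nat_lit 204817) (nat_lit 17) .nil))))) .nil)) 
(.lf (nat_lit 17963) (.g (nat_lit 4198) (.e (nat_lit 1172) (nat_lit 87) (.e (nat_lit 57477) (nat_lit 28) (.e (nat_lit 557097) (nat_lit 13) (.e (nat_lit 172097) (nat_lit 9) (.e (nat_lit 426140) (nat_lit 3) (.e (nat_lit 204863) (nat_lit 27) (.e (nat_lit 344097) (nat_lit 18) (.e (nat_lit 5907) (nat_lit 320) .nil)))))))) (.g (nat_lit 8) .nil .nil)))) (.nd (nat_lit 5) 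
(.lf (nat_lit 17947) (.g (nat_lit 4107) (.e (nat_lit 1172) (nat_lit 87) (.e (nat_lit 57476) (nat_lit 28) (.e (nat_lit 557108) (nat_lit 15) (.e (nat_lit 188452) (nat_lit 23) (.e (nat_lit 204863) (nat_lit 27) (.e (nat_lit 344097) (nat_lit 18) (.e (nat_lit 5906) (nat_lit 320) .nil))))))) (.g (nat_lit 0) .nil .nil))) 
(.lf (nat_lit 17979) (.g (nat_lit 2435) (.e (nat_lit 1172) (nat_lit 87) (.e (nat_lit 57477) (nat_lit 28) (.e (nat_lit 557107) (nat_lit 15) (.e (nat_lit 188450) (nat_lit 23) (.e (nat_lit 204872) (nat_lit 30) (.e (nat_lit 368662) (nat_lit 18) (.e (nat_lit 5907) (nat_lit 320) .nil))))))) (.g (nat_lit 7) .nil .nil)))))) (.nd (nat_lit 3) (.nd (nat_lit 4) (.nd (nat_lit 5) 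
(.lf (nat_lit 17927) (.g (nat_lit 4912) (.e (nat_lit 1172) (nat_lit 87) (.e (nat_lit 57476) (nat_lit 28) (.e (nat_lit 557108) (nat_lit 15) (.e (nat_lit 188449) (nat_lit 22) (.e (nat_lit 196681) (nat_lit 17) (.e (nat_lit 131088) (nat_lit 1) (.e (nat_lit 57872) (nat_lit 264) .nil))))))) (.g (nat_lit 5) .nil .nil))) 
(.lf (nat_lit 17959) (.g (nat_lit 3868) (.e (nat_lit 1172) (nat_lit 87) (.e (nat_lit 57477) (nat_lit 28) (.e (nat_lit 557097) (nat_lit 13) (.e (nat_lit 172097) (nat_lit 9) (.e (nat_lit 426125) (nat_lit 2) (.e (nat_lit 196666) (nat_lit 13) (.e (nat_lit 65563) (nat_lit 1) (.e (nat_lit 57873) (nat_lit 264) .nil)))))))) (.g (nat_lit 8) .nil .nil)))) (.nd (nat_lit 5) 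
(.lf (nat_lit 17943) (.g (nat_lit 4815) (.e (nat_lit 1172) (nat_lit 87) (.e (nat_lit 57476) (nat_lit 28) (.e (nat_lit 557108) (nat_lit 15) (.e (nat_lit 188452) (nat_lit 23) (.e (nat_lit 204860) (nat_lit 26) (.e (nat_lit 335995) (nat_lit 1) (.e (nat_lit 57872) (nat_lit 264) .nil))))))) (.g (nat_lit 6) .nil .nil))) 
(.lf (nat_lit 17975) (.g (nat_lit 1400) (.e (nat_lit 1172) (nat_lit 87) (.e (nat_lit 57477) (nat_lit 28) (.e (nat_lit 557107) (nat_lit 15) (.e (nat_lit 188450) (nat_lit 23) (.e (nat_lit 204850) (nat_lit 26) .nil))))) .nil)))) (.nd (nat_lit 4) (.nd (nat_lit 5) 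
(.lf (nat_lit 17935) (.g (nat_lit 1975) (.e (nat_lit 1172) (nat_lit 87) (.e (nat_lit 57476) (nat_lit 28) (.e (nat_lit 557108) (nat_lit 15) (.e (nat_lit 188452) (nat_lit 23) (.e (nat_lit 204850) (nat_lit 26) (.e (nat_lit 335997) (nat_lit 1) (.e (nat_lit 57871) (nat_lit 264) .nil))))))) (.g (nat_lit 4) .nil .nil))) 
(.lf (nat_lit 17967) (.g (nat_lit 2710) (.e (nat_lit 1172) (nat_lit 87) (.e (nat_lit 57477) (nat_lit 28) (.e (nat_lit 557107) (nat_lit 15) (.e (nat_lit 188447) (nat_lit 22) (.e (nat_lit 196666) (nat_lit 13) (.e (nat_lit 65550) (nat_lit 0) (.e (nat_lit 1023) (nat_lit 81) (.e (nat_lit 5905) (nat_lit 320) .nil)))))))) (.g (nat_lit 5) .nil .nil)))) (.nd (nat_lit 5) 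
(.lf (nat_lit 17951) (.g (nat_lit 4198) (.e (nat_lit 1172) (nat_lit 87) (.e (nat_lit 57476) (nat_lit 28) (.e (nat_lit 557108) (nat_lit 15) (.e (nat_lit 188452) (nat_lit 23) (.e (nat_lit 204873) (nat_lit 30) (.e (nat_lit 368662) (nat_lit 18) (.e (nat_lit 5906) (nat_lit 320) .nil))))))) (.g (nat_lit 7) .nil .nil))) 
(.lf (nat_lit 17983) (.g (nat_lit 3193) (.e (nat_lit 1172) (nat_lit 87) (.e (nat_lit 57477) (nat_lit 28) (.e (nat_lit 557108) (nat_lit 15) (.e (nat_lit 188449) (nat_lit 22) (.e (nat_lit 196666) (nat_lit 13) (.e (nat_lit 65565) (nat_lit 1) (.e (nat_lit 57873) (nat_lit 264) .nil))))))) (.g (nat_lit 7) .nil .nil)))))))))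

noncomputable def tv247 : DT := (.nd (nat_lit 0) (.nd (nat_lit 1) (.nd (nat_lit 2) (.nd (nat_lit 3) (.nd (nat_lit 4) (.nd (nat_lit 5) 
(.lf (nat_lit 17984) (.g (nat_lit 5025) (.e (nat_lit 1172) (nat_lit 87) (.e (nat_lit 57477) (nat_lit 28) (.e (nat_lit 557108) (nat_lit 15) (.e (nat_lit 188449) (nat_lit 22) (.e (nat_lit 196681) (nat_lit 17) (.e (nat_lit 131086) (nat_lit 1) (.e (nat_lit 57873) (nat_lit 264) .nil))))))) (.g (nat_lit 5) .nil .nil))) 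
(.lf (nat_lit 18016) (.g (nat_lit 3345) (.e (nat_lit 1172) (nat_lit 87) (.e (nat_lit 57478) (nat_lit 28) (.e (nat_lit 557100) (nat_lit 13) (.e (nat_lit 172106) (nat_lit 10) (.e (nat_lit 434231) (nat_lit 23) (.e (nat_lit 532535) (nat_lit 9) (.e (nat_lit 335992) (nat_lit 1) (.e (nat_lit 57872) (nat_lit 264) .nil)))))))) (.g (nat_lit 5) .nil .nil)))) (.nd (nat_lit 5) 
(.lf (nat_lit 18000) (.g (nat_lit 2810) (.e (nat_lit 1172) (nat_lit 87) (.e (nat_lit 57477) (nat_lit 28) (.e (nat_lit 557108) (nat_lit 15) (.e (nat_lit 188452) (nat_lit 23) (.e (nat_lit 204874) (nat_lit 30) .nil))))) .nil)) 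
(.lf (nat_lit 18032) (.g (nat_lit 4474) (.e (nat_lit 1172) (nat_lit 87) (.e (nat_lit 57478) (nat_lit 28) (.e (nat_lit 557107) (nat_lit 15) (.e (nat_lit 188447) (nat_lit 22) (.e (nat_lit 196668) (nat_lit 14) (.e (nat_lit 73733) (nat_lit 0) (.e (nat_lit 5907) (nat_lit 320) .nil))))))) (.g (nat_lit 7) .nil .nil))))) (.nd (nat_lit 4) (.nd (nat_lit 5) 
(.lf (nat_lit 17992) (.g (nat_lit 2906) (.e (nat_lit 1172) (nat_lit 87) (.e (nat_lit 57477) (nat_lit 28) (.e (nat_lit 557108) (nat_lit 15) (.e (nat_lit 188452) (nat_lit 23) (.e (nat_lit 204855) (nat_lit 26) (.e (nat_lit 335985) (nat_lit 1) (.e (nat_lit 57870) (nat_lit 264) .nil))))))) (.g (nat_lit 6) .nil .nil))) 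
(.lf (nat_lit 18024) (.g (nat_lit 4338) (.e (nat_lit 1172) (nat_lit 87) (.e (nat_lit 57478) (nat_lit 28) (.e (nat_lit 557101) (nat_lit 13) (.e (nat_lit 172115) (nat_lit 10) (.e (nat_lit 434231) (nat_lit 23) (.e (nat_lit 532554) (nat_lit 13) (.e (nat_lit 368662) (nat_lit 18) (.e (nat_lit 5907) (nat_lit 320) .nil)))))))) (.g (nat_lit 8) .nil .nil)))) (.nd (nat_lit 5) 
(.lf (nat_lit 18008) (.g (nat_lit 3661) (.e (nat_lit 1172) (nat_lit 87) (.e (nat_lit 57478) (nat_lit 28) (.e (nat_lit 557098) (nat_lit 13) (.e (nat_lit 172097) (nat_lit 9) (.e (nat_lit 426140) (nat_lit 3) (.e (nat_lit 204855) (nat_lit 26) (.e (nat_lit 335992) (nat_lit 1) (.e (nat_lit 57870) (nat_lit 264) .nil)))))))) (.g (nat_lit 8) .nil .nil))) 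
(.lf (nat_lit 18040) (.g (nat_lit 1883) (.e (nat_lit 1172) (nat_lit 87) (.e (nat_lit 57478) (nat_lit 28) (.e (nat_lit 557107) (nat_lit 15) (.e (nat_lit 188450) (nat_lit 23) (.e (nat_lit 204850) (nat_lit 26) (.e (nat_lit 335997) (nat_lit 1) (.e (nat_lit 57871) (nat_lit 264) .nil))))))) (.g (nat_lit 4) .nil .nil)))))) (.nd (nat_lit 3) (.nd (nat_lit 4) (.nd (nat_lit 5) 
(.lf (nat_lit 17988) (.g (nat_lit 2754) (.e (nat_lit 1172) (nat_lit 87) (.e (nat_lit 57477) (nat_lit 28) (.e (nat_lit 557108) (nat_lit 15) (.e (nat_lit 188452) (nat_lit 23) (.e (nat_lit 204821) (nat_lit 17) (.e (nat_lit 7936) (nat_lit 343) (.e (nat_lit 1181) (nat_lit 87) (.e (nat_lit 57872) (nat_lit 264) .nil)))))))) (.g (nat_lit 5) .nil .nil))) 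
(.lf (nat_lit 18020) (.g (nat_lit 2438) (.e (nat_lit 1172) (nat_lit 87) (.e (nat_lit 57478) (nat_lit 28) (.e (nat_lit 557101) (nat_lit 13) (.e (nat_lit 172097) (nat_lit 9) (.e (nat_lit 426140) (nat_lit 3) (.e (nat_lit 204855) (nat_lit 26) (.e (nat_lit 335985) (nat_lit 1) (.e (nat_lit 57871) (nat_lit 264) .nil)))))))) (.g (nat_lit 5) .nil .nil)))) (.nd (nat_lit 5) 
(.lf (nat_lit 18004) (.g (nat_lit 3856) (.e (nat_lit 1172) (nat_lit 87) (.e (nat_lit 57478) (nat_lit 28) (.e (nat_lit 557098) (nat_lit 13) (.e (nat_lit 172097) (nat_lit 9) (.e (nat_lit 426125) (nat_lit 2) (.e (nat_lit 196666) (nat_lit 13) (.e (nat_lit 65550) (nat_lit 0) (.e (nat_lit 1023) (nat_lit 81) (.e (nat_lit 5907) (nat_lit 320) .nil))))))))) (.g (nat_lit 6) .nil .nil))) 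
(.lf (nat_lit 18036) (.g (nat_lit 3277) (.e (nat_lit 1172) (nat_lit 87) (.e (nat_lit 57478) (nat_lit 28) (.e (nat_lit 557107) (nat_lit 15) (.e (nat_lit 188447) (nat_lit 22) (.e (nat_lit 196681) (nat_lit 17) (.e (nat_lit 131088) (nat_lit 1) (.e (nat_lit 57873) (nat_lit 264) .nil))))))) (.g (nat_lit 5) .nil .nil))))) (.nd (nat_lit 4) (.nd (nat_lit 5) 
(.lf (nat_lit 17996) (.g (nat_lit 1997) (.e (nat_lit 1172) (nat_lit 87) (.e (nat_lit 57477) (nat_lit 28) (.e (nat_lit 557108) (nat_lit 15) (.e (nat_lit 188452) (nat_lit 23) (.e (nat_lit 212736) (nat_lit 26) .nil))))) .nil)) 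
(.lf (nat_lit 18028) (.g (nat_lit 3177) (.e (nat_lit 1172) (nat_lit 87) (.e (nat_lit 57478) (nat_lit 28) (.e (nat_lit 557107) (nat_lit 15) (.e (nat_lit 188447) (nat_lit 22) (.e (nat_lit 196666) (nat_lit 13) (.e (nat_lit 65550) (nat_lit 0) (.e (nat_lit 1023) (nat_lit 81) (.e (nat_lit 5907) (nat_lit 320) .nil)))))))) (.g (nat_lit 5) .nil .nil)))) (.nd (nat_lit 5) 
(.lf (nat_lit 18012) (.g (nat_lit 4483) (.e (nat_lit 1172) (nat_lit 87) (.e (nat_lit 57478) (nat_lit 28) (.e (nat_lit 557098) (nat_lit 13) (.e (nat_lit 172115) (nat_lit 10) (.e (nat_lit 434231) (nat_lit 23) (.e (nat_lit 532554) (nat_lit 13) (.e (nat_lit 368662) (nat_lit 18) (.e (nat_lit 5907) (nat_lit 320) .nil)))))))) (.g (nat_lit 8) .nil .nil))) 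
(.lf (nat_lit 18044) (.g (nat_lit 1938) (.e (nat_lit 1172) (nat_lit 87) (.e (nat_lit 57478) (nat_lit 28) (.e (nat_lit 557107) (nat_lit 15) (.e (nat_lit 188450) (nat_lit 23) (.e (nat_lit 204856) (nat_lit 26) (.e (nat_lit 335997) (nat_lit 1) (.e (nat_lit 57870) (nat_lit 264) .nil))))))) (.g (nat_lit 4) .nil .nil))))))) (.nd (nat_lit 2) (.nd (nat_lit 3) (.nd (nat_lit 4) (.nd (nat_lit 5) 
(.lf (nat_lit 17986) (.g (nat_lit 3398) (.e (nat_lit 1172) (nat_lit 87) (.e (nat_lit 57477) (nat_lit 28) (.e (nat_lit 557108) (nat_lit 15) (.e (nat_lit 188452) (nat_lit 23) (.e (nat_lit 204817) (nat_lit 17) .nil))))) .nil)) 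
(.lf (nat_lit 18018) (.g (nat_lit 3093) (.e (nat_lit 1172) (nat_lit 87) (.e (nat_lit 57478) (nat_lit 28) (.e (nat_lit 557101) (nat_lit 13) (.e (nat_lit 172097) (nat_lit 9) (.e (nat_lit 426125) (nat_lit 2) (.e (nat_lit 196666) (nat_lit 13) (.e (nat_lit 65553) (nat_lit 0) (.e (nat_lit 1023) (nat_lit 81) (.e (nat_lit 5906) (nat_lit 320) .nil))))))))) (.g (nat_lit 6) .nil .nil)))) (.nd (nat_lit 5) 
(.lf (nat_lit 18002) (.g (nat_lit 1524) (.e (nat_lit 1172) (nat_lit 87) (.e (nat_lit 57477) (nat_lit 28) (.e (nat_lit 557108) (nat_lit 15) (.e (nat_lit 188458) (nat_lit 25) (.e (nat_lit 245784) (nat_lit 9) .nil))))) .nil)) 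
(.lf (nat_lit 18034) (.g (nat_lit 3579) (.e (nat_lit 1172) (nat_lit 87) (.e (nat_lit 57478) (nat_lit 28) (.e (nat_lit 557107) (nat_lit 15) (.e (nat_lit 188447) (nat_lit 22) (.e (nat_lit 196681) (nat_lit 17) (.e (nat_lit 131086) (nat_lit 1) (.e (nat_lit 57873) (nat_lit 264) .nil))))))) (.g (nat_lit 5) .nil .nil))))) (.nd (nat_lit 4) (.nd (nat_lit 5) 
(.lf (nat_lit 17994) (.g (nat_lit 2745) (.e (nat_lit 1172) (nat_lit 87) (.e (nat_lit 57477) (nat_lit 28) (.e (nat_lit 557108) (nat_lit 15) (.e (nat_lit 188452) (nat_lit 23) (.e (nat_lit 204857) (nat_lit 26) .nil))))) .nil)) 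
(.lf (nat_lit 18026) (.g (nat_lit 2011) (.e (nat_lit 1172) (nat_lit 87) (.e (nat_lit 57478) (nat_lit 28) (.e (nat_lit 557107) (nat_lit 15) (.e (nat_lit 188447) (nat_lit 22) (.e (nat_lit 196630) (nat_lit 9) (.e (nat_lit 1499) (nat_lit 108) (.e (nat_lit 335995) (nat_lit 1) (.e (nat_lit 57872) (nat_lit 264) .nil)))))))) (.g (nat_lit 4) .nil .nil)))) (.nd (nat_lit 5) 
(.lf (nat_lit 18010) (.g (nat_lit 5052) (.e (nat_lit 1172) (nat_lit 87) (.e (nat_lit 57478) (nat_lit 28) (.e (nat_lit 557098) (nat_lit 13) (.e (nat_lit 172115) (nat_lit 10) (.e (nat_lit 434231) (nat_lit 23) (.e (nat_lit 532535) (nat_lit 9) (.e (nat_lit 335992) (nat_lit 1) (.e (nat_lit 57870) (nat_lit 264) .nil)))))))) (.g (nat_lit 8) .nil .nil))) 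
(.lf (nat_lit 18042) (.g (nat_lit 2991) (.e (nat_lit 1172) (nat_lit 87) (.e (nat_lit 57478) (nat_lit 28) (.e (nat_lit 557107) (nat_lit 15) (.e (nat_lit 188450) (nat_lit 23) (.e (nat_lit 204855) (nat_lit 26) (.e (nat_lit 335923) (nat_lit 0) (.e (nat_lit 1023) (nat_lit 81) (.e (nat_lit 5906) (nat_lit 320) .nil)))))))) (.g (nat_lit 5) .nil .nil)))))) 
(.nd (nat_lit 3) (.nd (nat_lit 4) (.nd (nat_lit 5) 
(.lf (nat_lit 17990) (.g (nat_lit 2890) (.e (nat_lit 1172) (nat_lit 87) (.e (nat_lit 57477) (nat_lit 28) (.e (nat_lit 557108) (nat_lit 15) (.e (nat_lit 188452) (nat_lit 23) (.e (nat_lit 204852) (nat_lit 26) (.e (nat_lit 343808) (nat_lit 1) (.e (nat_lit 57872) (nat_lit 264) .nil))))))) (.g (nat_lit 5) .nil .nil))) 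
(.lf (nat_lit 18022) (.g (nat_lit 4908) (.e (nat_lit 1172) (nat_lit 87) (.e (nat_lit 57478) (nat_lit 28) (.e (nat_lit 557101) (nat_lit 13) (.e (nat_lit 172115) (nat_lit 10) (.e (nat_lit 434231) (nat_lit 23) (.e (nat_lit 532535) (nat_lit 9) (.e (nat_lit 335992) (nat_lit 1) (.e (nat_lit 57870) (nat_lit 264) .nil)))))))) (.g (nat_lit 8) .nil .nil)))) (.nd (nat_lit 5) 
(.lf (nat_lit 18006) (.g (nat_lit 2546) (.e (nat_lit 1172) (nat_lit 87) (.e (nat_lit 57478) (nat_lit 28) (.e (nat_lit 557098) (nat_lit 13) (.e (nat_lit 172097) (nat_lit 9) (.e (nat_lit 426140) (nat_lit 3) (.e (nat_lit 204850) (nat_lit 26) (.e (nat_lit 335997) (nat_lit 1) (.e (nat_lit 57871) (nat_lit 264) .nil)))))))) (.g (nat_lit 5) .nil .nil))) 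
(.lf (nat_lit 18038) (.g (nat_lit 1809) (.e (nat_lit 1172) (nat_lit 87) (.e (nat_lit 57478) (nat_lit 28) (.e (nat_lit 557107) (nat_lit 15) (.e (nat_lit 188450) (nat_lit 23) (.e (nat_lit 204817) (nat_lit 17) (.e (nat_lit 7936) (nat_lit 343) (.e (nat_lit 1183) (nat_lit 87) (.e (nat_lit 57872) (nat_lit 264) .nil)))))))) (.g (nat_lit 4) .nil .nil))))) (.nd (nat_lit 4) (.nd (nat_lit 5) 
(.lf (nat_lit 17998) (.g (nat_lit 4160) (.e (nat_lit 1172) (nat_lit 87) (.e (nat_lit 57477) (nat_lit 28) (.e (nat_lit 557108) (nat_lit 15) (.e (nat_lit 188452) (nat_lit 23) (.e (nat_lit 204863) (nat_lit 27) (.e (nat_lit 344097) (nat_lit 18) (.e (nat_lit 5907) (nat_lit 320) .nil))))))) (.g (nat_lit 7) .nil .nil))) 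
(.lf (nat_lit 18030) (.g (nat_lit 2471) (.e (nat_lit 1172) (nat_lit 87) (.e (nat_lit 57478) (nat_lit 28) (.e (nat_lit 557107) (nat_lit 15) (.e (nat_lit 188447) (nat_lit 22) (.e (nat_lit 196668) (nat_lit 14) (.e (nat_lit 73733) (nat_lit 0) (.e (nat_lit 5902) (nat_lit 320) .nil))))))) (.g (nat_lit 4) .nil .nil)))) (.nd (nat_lit 5) 
(.lf (nat_lit 18014) (.g (nat_lit 3326) (.e (nat_lit 1172) (nat_lit 87) (.e (nat_lit 57478) (nat_lit 28) (.e (nat_lit 557100) (nat_lit 13) (.e (nat_lit 172106) (nat_lit 10) (.e (nat_lit 434231) (nat_lit 23) (.e (nat_lit 532535) (nat_lit 9) (.e (nat_lit 335925) (nat_lit 0) (.e (nat_lit 1023) (nat_lit 81) (.e (nat_lit 5906) (nat_lit 320) .nil))))))))) (.g (nat_lit 5) .nil .nil))) 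
(.lf (nat_lit 18046) (.g (nat_lit 2167) (.e (nat_lit 1172) (nat_lit 87) (.e (nat_lit 57478) (nat_lit 28) (.e (nat_lit 557107) (nat_lit 15) (.e (nat_lit 188450) (nat_lit 23) (.e (nat_lit 204857) (nat_lit 26) .nil))))) .nil))))))) (.nd (nat_lit 1) (.nd (nat_lit 2) (.nd (nat_lit 3) (.nd (nat_lit 4) (.nd (nat_lit 5) 
(.lf (nat_lit 17985) (.g (nat_lit 4865) (.e (nat_lit 1172) (nat_lit 87) (.e (nat_lit 57477) (nat_lit 28) (.e (nat_lit 557108) (nat_lit 15) (.e (nat_lit 188449) (nat_lit 22) (.e (nat_lit 196681) (nat_lit 17) (.e (nat_lit 131088) (nat_lit 1) (.e (nat_lit 57872) (nat_lit 264) .nil))))))) (.g (nat_lit 5) .nil .nil))) 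
(.lf (nat_lit 18017) (.g (nat_lit 3739) (.e (nat_lit 1172) (nat_lit 87) (.e (nat_lit 57478) (nat_lit 28) (.e (nat_lit 557101) (nat_lit 13) (.e (nat_lit 172097) (nat_lit 9) (.e (nat_lit 426125) (nat_lit 2) (.e (nat_lit 196666) (nat_lit 13) (.e (nat_lit 65550) (nat_lit 0) (.e (nat_lit 1023) (nat_lit 81) (.e (nat_lit 5907) (nat_lit 320) .nil))))))))) (.g (nat_lit 6) .nil .nil)))) (.nd (nat_lit 5) 
(.lf (nat_lit 18001) (.g (nat_lit 3686) (.e (nat_lit 1172) (nat_lit 87) (.e (nat_lit 57477) (nat_lit 28) (.e (nat_lit 557108) (nat_lit 15) (.e (nat_lit 188452) (nat_lit 23) (.e (nat_lit 204874) (nat_lit 30) (.e (nat_lit 368662) (nat_lit 18) (.e (nat_lit 5906) (nat_lit 320) .nil))))))) (.g (nat_lit 6) .nil .nil))) 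
(.lf (nat_lit 18033) (.g (nat_lit 3430) (.e (nat_lit 1172) (nat_lit 87) (.e (nat_lit 57478) (nat_lit 28) (.e (nat_lit 557107) (nat_lit 15) (.e (nat_lit 188447) (nat_lit 22) (.e (nat_lit 196681) (nat_lit 17) (.e (nat_lit 131086) (nat_lit 1) (.e (nat_lit 57872) (nat_lit 264) .nil))))))) (.g (nat_lit 5) .nil .nil))))) (.nd (nat_lit 4) (.nd (nat_lit 5) 
(.lf (nat_lit 17993) (.g (nat_lit 3371) (.e (nat_lit 1172) (nat_lit 87) (.e (nat_lit 57477) (nat_lit 28) (.e (nat_lit 557108) (nat_lit 15) (.e (nat_lit 188452) (nat_lit 23) (.e (nat_lit 204855) (nat_lit 26) (.e (nat_lit 335985) (nat_lit 1) (.e (nat_lit 57873) (nat_lit 264) .nil))))))) (.g (nat_lit 7) .nil .nil))) 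
(.lf (nat_lit 18025) (.g (nat_lit 2999) (.e (nat_lit 1172) (nat_lit 87) (.e (nat_lit 57478) (nat_lit 28) (.e (nat_lit 557105) (nat_lit 14) (.e (nat_lit 180252) (nat_lit 10) (.e (nat_lit 573488) (nat_lit 14) (.e (nat_lit 73747) (nat_lit 3) (.e (nat_lit 516117) (nat_lit 1) (.e (nat_lit 164147) (nat_lit 152) .nil)))))))) (.g (nat_lit 5) .nil .nil)))) (.nd (nat_lit 5) 
(.lf (nat_lit 18009) (.g (nat_lit 2850) (.e (nat_lit 1172) (nat_lit 87) (.e (nat_lit 57478) (nat_lit 28) (.e (nat_lit 557098) (nat_lit 13) (.e (nat_lit 172115) (nat_lit 10) (.e (nat_lit 434231) (nat_lit 23) (.e (nat_lit 532527) (nat_lit 9) (.e (nat_lit 335997) (nat_lit 1) (.e (nat_lit 57871) (nat_lit 264) .nil)))))))) (.g (nat_lit 5) .nil .nil))) 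
(.lf (nat_lit 18041) (.g (nat_lit 1705) (.e (nat_lit 1172) (nat_lit 87) (.e (nat_lit 57478) (nat_lit 28) (.e (nat_lit 557107) (nat_lit 15) (.e (nat_lit 188450) (nat_lit 23) (.e (nat_lit 204852) (nat_lit 26) .nil))))) .nil))))) (.nd (nat_lit 3) (.nd (nat_lit 4) (.nd (nat_lit 5) 
(.lf (nat_lit 17989) (.g (nat_lit 2854) (.e (nat_lit 1172) (nat_lit 87) (.e (nat_lit 57477) (nat_lit 28) (.e (nat_lit 557108) (nat_lit 15) (.e (nat_lit 188452) (nat_lit 23) (.e (nat_lit 204850) (nat_lit 26) (.e (nat_lit 335997) (nat_lit 1) (.e (nat_lit 57870) (nat_lit 264) .nil))))))) (.g (nat_lit 6) .nil .nil))) 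
(.lf (nat_lit 18021) (.g (nat_lit 2739) (.e (nat_lit 1172) (nat_lit 87) (.e (nat_lit 57478) (nat_lit 28) (.e (nat_lit 557101) (nat_lit 13) (.e (nat_lit 172115) (nat_lit 10) (.e (nat_lit 434231) (nat_lit 23) (.e (nat_lit 532527) (nat_lit 9) (.e (nat_lit 335997) (nat_lit 1) (.e (nat_lit 57871) (nat_lit 264) .nil)))))))) (.g (nat_lit 5) .nil .nil)))) (.nd (nat_lit 5) 
(.lf (nat_lit 18005) (.g (nat_lit 3213) (.e (nat_lit 1172) (nat_lit 87) (.e (nat_lit 57478) (nat_lit 28) (.e (nat_lit 557098) (nat_lit 13) (.e (nat_lit 172097) (nat_lit 9) (.e (nat_lit 426125) (nat_lit 2) (.e (nat_lit 196666) (nat_lit 13) (.e (nat_lit 65553) (nat_lit 0) (.e (nat_lit 1023) (nat_lit 81) (.e (nat_lit 5906) (nat_lit 320) .nil))))))))) (.g (nat_lit 6) .nil .nil))) 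
(.lf (nat_lit 18037) (.g (nat_lit 1040) (.e (nat_lit 1172) (nat_lit 87) (.e (nat_lit 57478) (nat_lit 28) (.e (nat_lit 557107) (nat_lit 15) (.e (nat_lit 188450) (nat_lit 23) .nil)))) .nil)))) (.nd (nat_lit 4) (.nd (nat_lit 5) 
(.lf (nat_lit 17997) (.g (nat_lit 3841) (.e (nat_lit 1172) (nat_lit 87) (.e (nat_lit 57477) (nat_lit 28) (.e (nat_lit 557108) (nat_lit 15) (.e (nat_lit 188452) (nat_lit 23) (.e (nat_lit 204862) (nat_lit 27) (.e (nat_lit 344097) (nat_lit 18) (.e (nat_lit 5907) (nat_lit 320) .nil))))))) (.g (nat_lit 7) .nil .nil))) 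
(.lf (nat_lit 18029) (.g (nat_lit 2607) (.e (nat_lit 1172) (nat_lit 87) (.e (nat_lit 57478) (nat_lit 28) (.e (nat_lit 557107) (nat_lit 15) (.e (nat_lit 188447) (nat_lit 22) (.e (nat_lit 196666) (nat_lit 13) (.e (nat_lit 65553) (nat_lit 0) (.e (nat_lit 1023) (nat_lit 81) (.e (nat_lit 5906) (nat_lit 320) .nil)))))))) (.g (nat_lit 5) .nil .nil)))) (.nd (nat_lit 5) 
(.lf (nat_lit 18013) (.g (nat_lit 3727) (.e (nat_lit 1172) (nat_lit 87) (.e (nat_lit 57478) (nat_lit 28) (.e (nat_lit 557100) (nat_lit 13) (.e (nat_lit 172106) (nat_lit 10) (.e (nat_lit 434231) (nat_lit 23) (.e (nat_lit 532529) (nat_lit 9) (.e (nat_lit 343808) (nat_lit 1) (.e (nat_lit 57873) (nat_lit 264) .nil)))))))) (.g (nat_lit 6) .nil .nil))) 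
(.lf (nat_lit 18045) (.g (nat_lit 2067) (.e (nat_lit 1172) (nat_lit 87) (.e (nat_lit 57478) (nat_lit 28) (.e (nat_lit 557107) (nat_lit 15) (.e (nat_lit 188450) (nat_lit 23) (.e (nat_lit 204856) (nat_lit 26) (.e (nat_lit 335997) (nat_lit 1) (.e (nat_lit 57872) (nat_lit 264) .nil))))))) (.g (nat_lit 4) .nil .nil))))))) (.nd (nat_lit 2) (.nd (nat_lit 3) (.nd (nat_lit 4) (.nd (nat_lit 5) 
(.lf (nat_lit 17987) (.g (nat_lit 3749) (.e (nat_lit 1172) (nat_lit 87) (.e (nat_lit 57477) (nat_lit 28) (.e (nat_lit 557108) (nat_lit 15) (.e (nat_lit 188452) (nat_lit 23) (.e (nat_lit 204817) (nat_lit 17) (.e (nat_lit 7936) (nat_lit 343) (.e (nat_lit 1181) (nat_lit 87) (.e (nat_lit 57872) (nat_lit 264) .nil)))))))) (.g (nat_lit 5) .nil .nil))) 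
(.lf (nat_lit 18019) (.g (nat_lit 2441) (.e (nat_lit 1172) (nat_lit 87) (.e (nat_lit 57478) (nat_lit 28) (.e (nat_lit 557101) (nat_lit 13) (.e (nat_lit 172097) (nat_lit 9) (.e (nat_lit 426140) (nat_lit 3) (.e (nat_lit 204850) (nat_lit 26) (.e (nat_lit 335997) (nat_lit 1) (.e (nat_lit 57871) (nat_lit 264) .nil)))))))) (.g (nat_lit 5) .nil .nil)))) (.nd (nat_lit 5) 
(.lf (nat_lit 18003) (.g (nat_lit 1598) (.e (nat_lit 1172) (nat_lit 87) (.e (nat_lit 57478) (nat_lit 28) (.e (nat_lit 557095) (nat_lit 13) (.e (nat_lit 172115) (nat_lit 10) (.e (nat_lit 434231) (nat_lit 23) (.e (nat_lit 532543) (nat_lit 10) (.e (nat_lit 344097) (nat_lit 18) (.e (nat_lit 5906) (nat_lit 320) .nil)))))))) (.g (nat_lit 4) .nil .nil))) 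
(.lf (nat_lit 18035) (.g (nat_lit 3270) (.e (nat_lit 1172) (nat_lit 87) (.e (nat_lit 57478) (nat_lit 28) (.e (nat_lit 557107) (nat_lit 15) (.e (nat_lit 188447) (nat_lit 22) (.e (nat_lit 196681) (nat_lit 17) (.e (nat_lit 131088) (nat_lit 1) (.e (nat_lit 57870) (nat_lit 264) .nil))))))) (.g (nat_lit 5) .nil .nil))))) (.nd (nat_lit 4) (.nd (nat_lit 5) 
(.lf (nat_lit 17995) (.g (nat_lit 3585) (.e (nat_lit 1172) (nat_lit 87) (.e (nat_lit 57477) (nat_lit 28) (.e (nat_lit 557108) (nat_lit 15) (.e (nat_lit 188452) (nat_lit 23) (.e (nat_lit 204861) (nat_lit 26) .nil))))) .nil)) 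
(.lf (nat_lit 18027) (.g (nat_lit 2750) (.e (nat_lit 1172) (nat_lit 87) (.e (nat_lit 57478) (nat_lit 28) (.e (nat_lit 557107) (nat_lit 15) (.e (nat_lit 188447) (nat_lit 22) (.e (nat_lit 196666) (nat_lit 13) (.e (nat_lit 65546) (nat_lit 0) (.e (nat_lit 1023) (nat_lit 81) (.e (nat_lit 5907) (nat_lit 320) .nil)))))))) (.g (nat_lit 5) .nil .nil)))) (.nd (nat_lit 5) 
(.lf (nat_lit 18011) (.g (nat_lit 3521) (.e (nat_lit 1172) (nat_lit 87) (.e (nat_lit 57478) (nat_lit 28) (.e (nat_lit 557098) (nat_lit 13) (.e (nat_lit 172115) (nat_lit 10) (.e (nat_lit 434231) (nat_lit 23) (.e (nat_lit 532553) (nat_lit 13) (.e (nat_lit 368662) (nat_lit 18) (.e (nat_lit 5907) (nat_lit 320) .nil)))))))) (.g (nat_lit 6) .nil .nil))) 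
(.lf (nat_lit 18043) (.g (nat_lit 3338) (.e (nat_lit 1172) (nat_lit 87) (.e (nat_lit 57478) (nat_lit 28) (.e (nat_lit 557107) (nat_lit 15) (.e (nat_lit 188450) (nat_lit 23) (.e (nat_lit 204855) (nat_lit 26) (.e (nat_lit 335992) (nat_lit 1) (.e (nat_lit 57870) (nat_lit 264) .nil))))))) (.g (nat_lit 7) .nil .nil)))))) (.nd (nat_lit 3) (.nd (nat_lit 4) (.nd (nat_lit 5) 
(.lf (nat_lit 17991) (.g (nat_lit 3121) (.e (nat_lit 1172) (nat_lit 87) (.e (nat_lit 57477) (nat_lit 28) (.e (nat_lit 557108) (nat_lit 15) (.e (nat_lit 188452) (nat_lit 23) (.e (nat_lit 204855) (nat_lit 26) (.e (nat_lit 335923) (nat_lit 0) (.e (nat_lit 1023) (nat_lit 81) (.e (nat_lit 5906) (nat_lit 320) .nil)))))))) (.g (nat_lit 5) .nil .nil))) 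
(.lf (nat_lit 18023) (.g (nat_lit 3374) (.e (nat_lit 1172) (nat_lit 87) (.e (nat_lit 57478) (nat_lit 28) (.e (nat_lit 557101) (nat_lit 13) (.e (nat_lit 172115) (nat_lit 10) (.e (nat_lit 434231) (nat_lit 23) (.e (nat_lit 532553) (nat_lit 13) (.e (nat_lit 368662) (nat_lit 18) (.e (nat_lit 5907) (nat_lit 320) .nil)))))))) (.g (nat_lit 6) .nil .nil)))) (.nd (nat_lit 5) 
(.lf (nat_lit 18007) (.g (nat_lit 2549) (.e (nat_lit 1172) (nat_lit 87) (.e (nat_lit 57478) (nat_lit 28) (.e (nat_lit 557098) (nat_lit 13) (.e (nat_lit 172097) (nat_lit 9) (.e (nat_lit 426140) (nat_lit 3) (.e (nat_lit 204855) (nat_lit 26) (.e (nat_lit 335985) (nat_lit 1) (.e (nat_lit 57871) (nat_lit 264) .nil)))))))) (.g (nat_lit 5) .nil .nil))) 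
(.lf (nat_lit 18039) (.g (nat_lit 1730) (.e (nat_lit 1172) (nat_lit 87) (.e (nat_lit 57478) (nat_lit 28) (.e (nat_lit 557107) (nat_lit 15) (.e (nat_lit 188450) (nat_lit 23) (.e (nat_lit 204821) (nat_lit 17) .nil))))) .nil)))) (.nd (nat_lit 4) (.nd (nat_lit 5) 
(.lf (nat_lit 17999) (.g (nat_lit 3239) (.e (nat_lit 1172) (nat_lit 87) (.e (nat_lit 57477) (nat_lit 28) (.e (nat_lit 557108) (nat_lit 15) (.e (nat_lit 188452) (nat_lit 23) (.e (nat_lit 204872) (nat_lit 30) (.e (nat_lit 368662) (nat_lit 18) (.e (nat_lit 5907) (nat_lit 320) .nil))))))) (.g (nat_lit 7) .nil .nil))) 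
(.lf (nat_lit 18031) (.g (nat_lit 3286) (.e (nat_lit 1172) (nat_lit 87) (.e (nat_lit 57478) (nat_lit 28) (.e (nat_lit 557107) (nat_lit 15) (.e (nat_lit 188447) (nat_lit 22) (.e (nat_lit 196668) (nat_lit 14) (.e (nat_lit 73733) (nat_lit 0) (.e (nat_lit 5906) (nat_lit 320) .nil))))))) (.g (nat_lit 5) .nil .nil)))) (.nd (nat_lit 5) 
(.lf (nat_lit 18015) (.g (nat_lit 4334) (.e (nat_lit 1172) (nat_lit 87) (.e (nat_lit 57478) (nat_lit 28) (.e (nat_lit 557100) (nat_lit 13) (.e (nat_lit 172106) (nat_lit 10) (.e (nat_lit 434231) (nat_lit 23) (.e (nat_lit 532535) (nat_lit 9) (.e (nat_lit 335992) (nat_lit 1) (.e (nat_lit 57870) (nat_lit 264) .nil)))))))) (.g (nat_lit 6) .nil .nil))) 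
(.lf (nat_lit 18047) (.g (nat_lit 2021) (.e (nat_lit 1172) (nat_lit 87) (.e (nat_lit 57478) (nat_lit 28) (.e (nat_lit 557107) (nat_lit 15) (.e (nat_lit 188450) (nat_lit 23) (.e (nat_lit 204858) (nat_lit 26) .nil))))) .nil))))))))

noncomputable def tv248 : DT := (.nd (nat_lit 0) (.nd (nat_lit 1) (.nd (nat_lit 2) (.nd (nat_lit 3) (.nd (nat_lit 4) (.nd (nat_lit 5) 
(.lf (nat_lit 18048) (.g (nat_lit 2668) (.e (nat_lit 1172) (nat_lit 87) (.e (nat_lit 57478) (nat_lit 28) (.e (nat_lit 557107) (nat_lit 15) (.e (nat_lit 188450) (nat_lit 23) (.e (nat_lit 204859) (nat_lit 26) (.e (nat_lit 335998) (nat_lit 1) (.e (nat_lit 57873) (nat_lit 264) .nil))))))) (.g (nat_lit 5) .nil .nil))) 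
(.lf (nat_lit 18080) (.g (nat_lit 4745) (.e (nat_lit 1172) (nat_lit 87) (.e (nat_lit 57478) (nat_lit 28) (.e (nat_lit 557109) (nat_lit 15) (.e (nat_lit 188449) (nat_lit 22) (.e (nat_lit 196622) (nat_lit 9) .nil))))) .nil))) (.nd (nat_lit 5) 
(.lf (nat_lit 18064) (.g (nat_lit 2966) (.e (nat_lit 1172) (nat_lit 87) (.e (nat_lit 57478) (nat_lit 28) (.e (nat_lit 557108) (nat_lit 15) (.e (nat_lit 188452) (nat_lit 23) (.e (nat_lit 204873) (nat_lit 30) .nil))))) .nil)) 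
(.lf (nat_lit 18096) (.g (nat_lit 5429) (.e (nat_lit 1172) (nat_lit 87) (.e (nat_lit 57478) (nat_lit 28) (.e (nat_lit 557109) (nat_lit 15) (.e (nat_lit 188449) (nat_lit 22) (.e (nat_lit 196670) (nat_lit 14) (.e (nat_lit 73732) (nat_lit 0) (.e (nat_lit 5907) (nat_lit 320) .nil))))))) (.g (nat_lit 7) .nil .nil))))) (.nd (nat_lit 4) (.nd (nat_lit 5) 
(.lf (nat_lit 18056) (.g (nat_lit 2941) (.e (nat_lit 1172) (nat_lit 87) (.e (nat_lit 57478) (nat_lit 28) (.e (nat_lit 557108) (nat_lit 15) (.e (nat_lit 188452) (nat_lit 23) (.e (nat_lit 204816) (nat_lit 17) (.e (nat_lit 6486) (nat_lit 343) (.e (nat_lit 1181) (nat_lit 87) (.e (nat_lit 57872) (nat_lit 264) .nil)))))))) (.g (nat_lit 5) .nil .nil))) 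
(.lf (nat_lit 18088) (.g (nat_lit 3094) (.e (nat_lit 1172) (nat_lit 87) (.e (nat_lit 57478) (nat_lit 28) (.e (nat_lit 557109) (nat_lit 15) (.e (nat_lit 188449) (nat_lit 22) (.e (nat_lit 196666) (nat_lit 13) (.e (nat_lit 65546) (nat_lit 0) (.e (nat_lit 1023) (nat_lit 81) (.e (nat_lit 5907) (nat_lit 320) .nil)))))))) (.g (nat_lit 5) .nil .nil)))) (.nd (nat_lit 5) 
(.lf (nat_lit 18072) (.g (nat_lit 3412) (.e (nat_lit 1172) (nat_lit 87) (.e (nat_lit 57478) (nat_lit 28) (.e (nat_lit 557109) (nat_lit 15) (.e (nat_lit 188447) (nat_lit 22) (.e (nat_lit 196666) (nat_lit 13) .nil))))) .nil)) 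
(.lf (nat_lit 18104) (.g (nat_lit 3970) (.e (nat_lit 1172) (nat_lit 87) (.e (nat_lit 57478) (nat_lit 28) (.e (nat_lit 557109) (nat_lit 15) (.e (nat_lit 188450) (nat_lit 23) (.e (nat_lit 204850) (nat_lit 26) (.e (nat_lit 335997) (nat_lit 1) (.e (nat_lit 57870) (nat_lit 264) .nil))))))) (.g (nat_lit 5) .nil .nil)))))) (.nd (nat_lit 3) (.nd (nat_lit 4) (.nd (nat_lit 5) 
(.lf (nat_lit 18052) (.g (nat_lit 1719) (.e (nat_lit 1172) (nat_lit 87) (.e (nat_lit 57478) (nat_lit 28) (.e (nat_lit 557107) (nat_lit 15) (.e (nat_lit 188450) (nat_lit 23) (.e (nat_lit 204873) (nat_lit 30) .nil))))) .nil)) 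
(.lf (nat_lit 18084) (.g (nat_lit 4089) (.e (nat_lit 1172) (nat_lit 87) (.e (nat_lit 57478) (nat_lit 28) (.e (nat_lit 557109) (nat_lit 15) (.e (nat_lit 188449) (nat_lit 22) (.e (nat_lit 196630) (nat_lit 9) (.e (nat_lit 1462) (nat_lit 108) (.e (nat_lit 335997) (nat_lit 1) (.e (nat_lit 57872) (nat_lit 264) .nil)))))))) (.g (nat_lit 5) .nil .nil)))) (.nd (nat_lit 5) 
(.lf (nat_lit 18068) (.g (nat_lit 3313) (.e (nat_lit 1172) (nat_lit 87) (.e (nat_lit 57478) (nat_lit 28) (.e (nat_lit 557108) (nat_lit 15) (.e (nat_lit 188452) (nat_lit 23) (.e (nat_lit 204874) (nat_lit 30) (.e (nat_lit 368662) (nat_lit 18) (.e (nat_lit 5905) (nat_lit 320) .nil))))))) (.g (nat_lit 5) .nil .nil))) 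
(.lf (nat_lit 18100) (.g (nat_lit 5526) (.e (nat_lit 1172) (nat_lit 87) (.e (nat_lit 57478) (nat_lit 28) (.e (nat_lit 557109) (nat_lit 15) (.e (nat_lit 188449) (nat_lit 22) (.e (nat_lit 196681) (nat_lit 17) (.e (nat_lit 131088) (nat_lit 1) (.e (nat_lit 57873) (nat_lit 264) .nil))))))) (.g (nat_lit 6) .nil .nil))))) (.nd (nat_lit 4) (.nd (nat_lit 5) 
(.lf (nat_lit 18060) (.g (nat_lit 4102) (.e (nat_lit 1172) (nat_lit 87) (.e (nat_lit 57478) (nat_lit 28) (.e (nat_lit 557108) (nat_lit 15) (.e (nat_lit 188452) (nat_lit 23) (.e (nat_lit 204852) (nat_lit 26) (.e (nat_lit 343808) (nat_lit 1) (.e (nat_lit 57872) (nat_lit 264) .nil))))))) (.g (nat_lit 5) .nil .nil))) 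
(.lf (nat_lit 18092) (.g (nat_lit 4247) (.e (nat_lit 1172) (nat_lit 87) (.e (nat_lit 57478) (nat_lit 28) (.e (nat_lit 557109) (nat_lit 15) (.e (nat_lit 188449) (nat_lit 22) (.e (nat_lit 196667) (nat_lit 14) .nil))))) .nil))) (.nd (nat_lit 5) 
(.lf (nat_lit 18076) (.g (nat_lit 4096) (.e (nat_lit 1172) (nat_lit 87) (.e (nat_lit 57478) (nat_lit 28) (.e (nat_lit 557109) (nat_lit 15) (.e (nat_lit 188447) (nat_lit 22) (.e (nat_lit 196668) (nat_lit 14) (.e (nat_lit 73733) (nat_lit 0) (.e (nat_lit 5906) (nat_lit 320) .nil))))))) (.g (nat_lit 5) .nil .nil))) 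
(.lf (nat_lit 18108) (.g (nat_lit 3615) (.e (nat_lit 1172) (nat_lit 87) (.e (nat_lit 57478) (nat_lit 28) (.e (nat_lit 557109) (nat_lit 15) (.e (nat_lit 188450) (nat_lit 23) (.e (nat_lit 204860) (nat_lit 26) .nil))))) .nil)))))) (.nd (nat_lit 2) (.nd (nat_lit 3) (.nd (nat_lit 4) (.nd (nat_lit 5) 
(.lf (nat_lit 18050) (.g (nat_lit 2310) (.e (nat_lit 1172) (nat_lit 87) (.e (nat_lit 57478) (nat_lit 28) (.e (nat_lit 557107) (nat_lit 15) (.e (nat_lit 188450) (nat_lit 23) (.e (nat_lit 204864) (nat_lit 27) (.e (nat_lit 344097) (nat_lit 18) (.e (nat_lit 5907) (nat_lit 320) .nil))))))) (.g (nat_lit 4) .nil .nil))) 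
(.lf (nat_lit 18082) (.g (nat_lit 3090) (.e (nat_lit 1172) (nat_lit 87) (.e (nat_lit 57478) (nat_lit 28) (.e (nat_lit 557109) (nat_lit 15) (.e (nat_lit 188449) (nat_lit 22) (.e (nat_lit 196630) (nat_lit 9) .nil))))) .nil))) (.nd (nat_lit 5) 
(.lf (nat_lit 18066) (.g (nat_lit 4294) (.e (nat_lit 1172) (nat_lit 87) (.e (nat_lit 57478) (nat_lit 28) (.e (nat_lit 557108) (nat_lit 15) (.e (nat_lit 188452) (nat_lit 23) (.e (nat_lit 204873) (nat_lit 30) (.e (nat_lit 368662) (nat_lit 18) (.e (nat_lit 5907) (nat_lit 320) .nil))))))) (.g (nat_lit 7) .nil .nil))) 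
(.lf (nat_lit 18098) (.g (nat_lit 5528) (.e (nat_lit 1172) (nat_lit 87) (.e (nat_lit 57478) (nat_lit 28) (.e (nat_lit 557109) (nat_lit 15) (.e (nat_lit 188449) (nat_lit 22) (.e (nat_lit 196681) (nat_lit 17) (.e (nat_lit 131088) (nat_lit 1) (.e (nat_lit 57870) (nat_lit 264) .nil))))))) (.g (nat_lit 6) .nil .nil))))) (.nd (nat_lit 4) (.nd (nat_lit 5) 
(.lf (nat_lit 18058) (.g (nat_lit 2677) (.e (nat_lit 1172) (nat_lit 87) (.e (nat_lit 57478) (nat_lit 28) (.e (nat_lit 557108) (nat_lit 15) (.e (nat_lit 188452) (nat_lit 23) (.e (nat_lit 204817) (nat_lit 17) (.e (nat_lit 7936) (nat_lit 343) (.e (nat_lit 1181) (nat_lit 87) (.e (nat_lit 57872) (nat_lit 264) .nil)))))))) (.g (nat_lit 5) .nil .nil))) 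
(.lf (nat_lit 18090) (.g (nat_lit 2962) (.e (nat_lit 1172) (nat_lit 87) (.e (nat_lit 57478) (nat_lit 28) (.e (nat_lit 557109) (nat_lit 15) (.e (nat_lit 188449) (nat_lit 22) (.e (nat_lit 196666) (nat_lit 13) (.e (nat_lit 65553) (nat_lit 0) (.e (nat_lit 1023) (nat_lit 81) (.e (nat_lit 5906) (nat_lit 320) .nil)))))))) (.g (nat_lit 5) .nil .nil)))) (.nd (nat_lit 5) 
(.lf (nat_lit 18074) (.g (nat_lit 3658) (.e (nat_lit 1172) (nat_lit 87) (.e (nat_lit 57478) (nat_lit 28) (.e (nat_lit 557109) (nat_lit 15) (.e (nat_lit 188447) (nat_lit 22) (.e (nat_lit 196666) (nat_lit 13) (.e (nat_lit 65550) (nat_lit 0) (.e (nat_lit 1023) (nat_lit 81) (.e (nat_lit 5905) (nat_lit 320) .nil)))))))) (.g (nat_lit 4) .nil .nil))) 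
(.lf (nat_lit 18106) (.g (nat_lit 3616) (.e (nat_lit 1172) (nat_lit 87) (.e (nat_lit 57478) (nat_lit 28) (.e (nat_lit 557109) (nat_lit 15) (.e (nat_lit 188450) (nat_lit 23) (.e (nat_lit 204855) (nat_lit 26) (.e (nat_lit 335985) (nat_lit 1) (.e (nat_lit 57870) (nat_lit 264) .nil))))))) (.g (nat_lit 4) .nil .nil)))))) (.nd (nat_lit 3) (.nd (nat_lit 4) (.nd (nat_lit 5) 
(.lf (nat_lit 18054) (.g (nat_lit 2719) (.e (nat_lit 1172) (nat_lit 87) (.e (nat_lit 57478) (nat_lit 28) (.e (nat_lit 557107) (nat_lit 15) (.e (nat_lit 188450) (nat_lit 23) (.e (nat_lit 204874) (nat_lit 30) (.e (nat_lit 368662) (nat_lit 18) (.e (nat_lit 5906) (nat_lit 320) .nil))))))) (.g (nat_lit 6) .nil .nil))) 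
(.lf (nat_lit 18086) (.g (nat_lit 3806) (.e (nat_lit 1172) (nat_lit 87) (.e (nat_lit 57478) (nat_lit 28) (.e (nat_lit 557109) (nat_lit 15) (.e (nat_lit 188449) (nat_lit 22) (.e (nat_lit 196661) (nat_lit 12) .nil))))) .nil))) (.nd (nat_lit 5) 
(.lf (nat_lit 18070) (.g (nat_lit 4206) (.e (nat_lit 1172) (nat_lit 87) (.e (nat_lit 57478) (nat_lit 28) (.e (nat_lit 557108) (nat_lit 15) (.e (nat_lit 188452) (nat_lit 23) (.e (nat_lit 204874) (nat_lit 30) (.e (nat_lit 368662) (nat_lit 18) (.e (nat_lit 5907) (nat_lit 320) .nil))))))) (.g (nat_lit 7) .nil .nil))) 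
(.lf (nat_lit 18102) (.g (nat_lit 1937) (.e (nat_lit 1172) (nat_lit 87) (.e (nat_lit 57478) (nat_lit 28) (.e (nat_lit 557109) (nat_lit 15) (.e (nat_lit 188450) (nat_lit 23) .nil)))) .nil)))) (.nd (nat_lit 4) (.nd (nat_lit 5) 
(.lf (nat_lit 18062) (.g (nat_lit 2687) (.e (nat_lit 1172) (nat_lit 87) (.e (nat_lit 57478) (nat_lit 28) (.e (nat_lit 557108) (nat_lit 15) (.e (nat_lit 188452) (nat_lit 23) (.e (nat_lit 212736) (nat_lit 26) .nil))))) .nil)) 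
(.lf (nat_lit 18094) (.g (nat_lit 4416) (.e (nat_lit 1172) (nat_lit 87) (.e (nat_lit 57478) (nat_lit 28) (.e (nat_lit 557109) (nat_lit 15) (.e (nat_lit 188449) (nat_lit 22) (.e (nat_lit 196667) (nat_lit 14) (.e (nat_lit 73733) (nat_lit 0) (.e (nat_lit 5907) (nat_lit 320) .nil))))))) (.g (nat_lit 4) .nil .nil)))) (.nd (nat_lit 5) 
(.lf (nat_lit 18078) (.g (nat_lit 3806) (.e (nat_lit 1172) (nat_lit 87) (.e (nat_lit 57478) (nat_lit 28) (.e (nat_lit 557109) (nat_lit 15) (.e (nat_lit 188447) (nat_lit 22) (.e (nat_lit 196681) (nat_lit 17) (.e (nat_lit 131086) (nat_lit 1) (.e (nat_lit 57870) (nat_lit 264) .nil))))))) (.g (nat_lit 4) .nil .nil))) 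
(.lf (nat_lit 18110) (.g (nat_lit 3358) (.e (nat_lit 1172) (nat_lit 87) (.e (nat_lit 57478) (nat_lit 28) (.e (nat_lit 557109) (nat_lit 15) (.e (nat_lit 188450) (nat_lit 23) (.e (nat_lit 204862) (nat_lit 27) .nil))))) .nil))))))) (.nd (nat_lit 1) (.nd (nat_lit 2) (.nd (nat_lit 3) (.nd (nat_lit 4) (.nd (nat_lit 5) 
(.lf (nat_lit 18049) (.g (nat_lit 1861) (.e (nat_lit 1172) (nat_lit 87) (.e (nat_lit 57478) (nat_lit 28) (.e (nat_lit 557107) (nat_lit 15) (.e (nat_lit 188450) (nat_lit 23) (.e (nat_lit 212736) (nat_lit 26) .nil))))) .nil)) 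
(.lf (nat_lit 18081) (.g (nat_lit 2938) (.e (nat_lit 1172) (nat_lit 87) (.e (nat_lit 57478) (nat_lit 28) (.e (nat_lit 557109) (nat_lit 15) (.e (nat_lit 188449) (nat_lit 22) (.e (nat_lit 196628) (nat_lit 9) .nil))))) .nil))) (.nd (nat_lit 5) 
(.lf (nat_lit 18065) (.g (nat_lit 3147) (.e (nat_lit 1172) (nat_lit 87) (.e (nat_lit 57478) (nat_lit 28) (.e (nat_lit 557108) (nat_lit 15) (.e (nat_lit 188452) (nat_lit 23) (.e (nat_lit 204873) (nat_lit 30) (.e (nat_lit 368662) (nat_lit 18) (.e (nat_lit 5905) (nat_lit 320) .nil))))))) (.g (nat_lit 4) .nil .nil))) 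
(.lf (nat_lit 18097) (.g (nat_lit 5610) (.e (nat_lit 1172) (nat_lit 87) (.e (nat_lit 57478) (nat_lit 28) (.e (nat_lit 557109) (nat_lit 15) (.e (nat_lit 188449) (nat_lit 22) (.e (nat_lit 196681) (nat_lit 17) (.e (nat_lit 131086) (nat_lit 1) (.e (nat_lit 57870) (nat_lit 264) .nil))))))) (.g (nat_lit 6) .nil .nil))))) (.nd (nat_lit 4) (.nd (nat_lit 5) 
(.lf (nat_lit 18057) (.g (nat_lit 2318) (.e (nat_lit 1172) (nat_lit 87) (.e (nat_lit 57478) (nat_lit 28) (.e (nat_lit 557108) (nat_lit 15) (.e (nat_lit 188452) (nat_lit 23) (.e (nat_lit 204817) (nat_lit 17) .nil))))) .nil)) 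
(.lf (nat_lit 18089) (.g (nat_lit 3648) (.e (nat_lit 1172) (nat_lit 87) (.e (nat_lit 57478) (nat_lit 28) (.e (nat_lit 557109) (nat_lit 15) (.e (nat_lit 188449) (nat_lit 22) (.e (nat_lit 196666) (nat_lit 13) (.e (nat_lit 65550) (nat_lit 0) (.e (nat_lit 1023) (nat_lit 81) (.e (nat_lit 5907) (nat_lit 320) .nil)))))))) (.g (nat_lit 5) .nil .nil)))) (.nd (nat_lit 5) 
(.lf (nat_lit 18073) (.g (nat_lit 3634) (.e (nat_lit 1172) (nat_lit 87) (.e (nat_lit 57478) (nat_lit 28) (.e (nat_lit 557109) (nat_lit 15) (.e (nat_lit 188447) (nat_lit 22) (.e (nat_lit 196666) (nat_lit 13) (.e (nat_lit 65546) (nat_lit 0) (.e (nat_lit 1023) (nat_lit 81) (.e (nat_lit 5906) (nat_lit 320) .nil)))))))) (.g (nat_lit 4) .nil .nil))) 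
(.lf (nat_lit 18105) (.g (nat_lit 4123) (.e (nat_lit 1172) (nat_lit 87) (.e (nat_lit 57478) (nat_lit 28) (.e (nat_lit 557109) (nat_lit 15) (.e (nat_lit 188450) (nat_lit 23) (.e (nat_lit 204850) (nat_lit 26) (.e (nat_lit 335997) (nat_lit 1) (.e (nat_lit 57872) (nat_lit 264) .nil))))))) (.g (nat_lit 5) .nil .nil)))))) (.nd (nat_lit 3) (.nd (nat_lit 4) (.nd (nat_lit 5) 
(.lf (nat_lit 18053) (.g (nat_lit 3306) (.e (nat_lit 1172) (nat_lit 87) (.e (nat_lit 57478) (nat_lit 28) (.e (nat_lit 557107) (nat_lit 15) (.e (nat_lit 188450) (nat_lit 23) (.e (nat_lit 204873) (nat_lit 30) (.e (nat_lit 368662) (nat_lit 18) (.e (nat_lit 5907) (nat_lit 320) .nil))))))) (.g (nat_lit 0) .nil .nil))) 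
(.lf (nat_lit 18085) (.g (nat_lit 4025) (.e (nat_lit 1172) (nat_lit 87) (.e (nat_lit 57478) (nat_lit 28) (.e (nat_lit 557109) (nat_lit 15) (.e (nat_lit 188449) (nat_lit 22) (.e (nat_lit 196630) (nat_lit 9) (.e (nat_lit 1549) (nat_lit 109) (.e (nat_lit 344097) (nat_lit 18) (.e (nat_lit 5906) (nat_lit 320) .nil)))))))) (.g (nat_lit 5) .nil .nil)))) (.nd (nat_lit 5) 
(.lf (nat_lit 18069) (.g (nat_lit 4520) (.e (nat_lit 1172) (nat_lit 87) (.e (nat_lit 57478) (nat_lit 28) (.e (nat_lit 557108) (nat_lit 15) (.e (nat_lit 188452) (nat_lit 23) (.e (nat_lit 204874) (nat_lit 30) (.e (nat_lit 368662) (nat_lit 18) (.e (nat_lit 5906) (nat_lit 320) .nil))))))) (.g (nat_lit 0) .nil .nil))) 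
(.lf (nat_lit 18101) (.g (nat_lit 5974) (.e (nat_lit 1172) (nat_lit 87) (.e (nat_lit 57478) (nat_lit 28) (.e (nat_lit 557109) (nat_lit 15) (.e (nat_lit 188449) (nat_lit 22) (.e (nat_lit 196681) (nat_lit 17) (.e (nat_lit 131089) (nat_lit 1) (.e (nat_lit 57870) (nat_lit 264) .nil))))))) (.g (nat_lit 7) .nil .nil))))) (.nd (nat_lit 4) (.nd (nat_lit 5) 
(.lf (nat_lit 18061) (.g (nat_lit 4611) (.e (nat_lit 1172) (nat_lit 87) (.e (nat_lit 57478) (nat_lit 28) (.e (nat_lit 557108) (nat_lit 15) (.e (nat_lit 188452) (nat_lit 23) (.e (nat_lit 204859) (nat_lit 26) (.e (nat_lit 335998) (nat_lit 1) (.e (nat_lit 57873) (nat_lit 264) .nil))))))) (.g (nat_lit 4) .nil .nil))) 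
(.lf (nat_lit 18093) (.g (nat_lit 4487) (.e (nat_lit 1172) (nat_lit 87) (.e (nat_lit 57478) (nat_lit 28) (.e (nat_lit 557109) (nat_lit 15) (.e (nat_lit 188449) (nat_lit 22) (.e (nat_lit 196667) (nat_lit 14) (.e (nat_lit 73732) (nat_lit 0) (.e (nat_lit 5907) (nat_lit 320) .nil))))))) (.g (nat_lit 4) .nil .nil)))) (.nd (nat_lit 5) 
(.lf (nat_lit 18077) (.g (nat_lit 3765) (.e (nat_lit 1172) (nat_lit 87) (.e (nat_lit 57478) (nat_lit 28) (.e (nat_lit 557109) (nat_lit 15) (.e (nat_lit 188447) (nat_lit 22) (.e (nat_lit 196670) (nat_lit 14) .nil))))) .nil)) 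
(.lf (nat_lit 18109) (.g (nat_lit 3657) (.e (nat_lit 1172) (nat_lit 87) (.e (nat_lit 57478) (nat_lit 28) (.e (nat_lit 557109) (nat_lit 15) (.e (nat_lit 188450) (nat_lit 23) (.e (nat_lit 204861) (nat_lit 26) .nil))))) .nil)))))) (.nd (nat_lit 2) (.nd (nat_lit 3) (.nd (nat_lit 4) (.nd (nat_lit 5) 
(.lf (nat_lit 18051) (.g (nat_lit 1676) (.e (nat_lit 1172) (nat_lit 87) (.e (nat_lit 57478) (nat_lit 28) (.e (nat_lit 557107) (nat_lit 15) (.e (nat_lit 188450) (nat_lit 23) (.e (nat_lit 204872) (nat_lit 30) .nil))))) .nil)) 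
(.lf (nat_lit 18083) (.g (nat_lit 4181) (.e (nat_lit 1172) (nat_lit 87) (.e (nat_lit 57478) (nat_lit 28) (.e (nat_lit 557109) (nat_lit 15) (.e (nat_lit 188449) (nat_lit 22) (.e (nat_lit 196630) (nat_lit 9) (.e (nat_lit 1462) (nat_lit 108) (.e (nat_lit 335997) (nat_lit 1) (.e (nat_lit 57870) (nat_lit 264) .nil)))))))) (.g (nat_lit 5) .nil .nil)))) (.nd (nat_lit 5) 
(.lf (nat_lit 18067) (.g (nat_lit 2875) (.e (nat_lit 1172) (nat_lit 87) (.e (nat_lit 57478) (nat_lit 28) (.e (nat_lit 557108) (nat_lit 15) (.e (nat_lit 188452) (nat_lit 23) (.e (nat_lit 204874) (nat_lit 30) .nil))))) .nil)) 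
(.lf (nat_lit 18099) (.g (nat_lit 5957) (.e (nat_lit 1172) (nat_lit 87) (.e (nat_lit 57478) (nat_lit 28) (.e (nat_lit 557109) (nat_lit 15) (.e (nat_lit 188449) (nat_lit 22) (.e (nat_lit 196681) (nat_lit 17) (.e (nat_lit 131088) (nat_lit 1) (.e (nat_lit 57872) (nat_lit 264) .nil))))))) (.g (nat_lit 7) .nil .nil))))) (.nd (nat_lit 4) (.nd (nat_lit 5) 
(.lf (nat_lit 18059) (.g (nat_lit 2961) (.e (nat_lit 1172) (nat_lit 87) (.e (nat_lit 57478) (nat_lit 28) (.e (nat_lit 557108) (nat_lit 15) (.e (nat_lit 188452) (nat_lit 23) (.e (nat_lit 204850) (nat_lit 26) .nil))))) .nil)) 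
(.lf (nat_lit 18091) (.g (nat_lit 2175) (.e (nat_lit 1172) (nat_lit 87) (.e (nat_lit 57478) (nat_lit 28) (.e (nat_lit 557109) (nat_lit 15) (.e (nat_lit 188449) (nat_lit 22) (.e (nat_lit 196666) (nat_lit 13) (.e (nat_lit 65553) (nat_lit 0) (.e (nat_lit 1023) (nat_lit 81) (.e (nat_lit 5907) (nat_lit 320) .nil)))))))) (.g (nat_lit 4) .nil .nil)))) (.nd (nat_lit 5) 
(.lf (nat_lit 18075) (.g (nat_lit 3279) (.e (nat_lit 1172) (nat_lit 87) (.e (nat_lit 57478) (nat_lit 28) (.e (nat_lit 557109) (nat_lit 15) (.e (nat_lit 188447) (nat_lit 22) (.e (nat_lit 196668) (nat_lit 14) (.e (nat_lit 73733) (nat_lit 0) (.e (nat_lit 5902) (nat_lit 320) .nil))))))) (.g (nat_lit 4) .nil .nil))) 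
(.lf (nat_lit 18107) (.g (nat_lit 3626) (.e (nat_lit 1172) (nat_lit 87) (.e (nat_lit 57478) (nat_lit 28) (.e (nat_lit 557109) (nat_lit 15) (.e (nat_lit 188450) (nat_lit 23) (.e (nat_lit 204859) (nat_lit 26) .nil))))) .nil))))) (.nd (nat_lit 3) (.nd (nat_lit 4) (.nd (nat_lit 5) 
(.lf (nat_lit 18055) (.g (nat_lit 2552) (.e (nat_lit 1172) (nat_lit 87) (.e (nat_lit 57478) (nat_lit 28) (.e (nat_lit 557107) (nat_lit 15) (.e (nat_lit 188450) (nat_lit 23) (.e (nat_lit 204874) (nat_lit 30) (.e (nat_lit 368662) (nat_lit 18) (.e (nat_lit 5907) (nat_lit 320) .nil))))))) (.g (nat_lit 6) .nil .nil))) 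
(.lf (nat_lit 18087) (.g (nat_lit 2039) (.e (nat_lit 1172) (nat_lit 87) (.e (nat_lit 57478) (nat_lit 28) (.e (nat_lit 557109) (nat_lit 15) (.e (nat_lit 188449) (nat_lit 22) (.e (nat_lit 196666) (nat_lit 13) .nil))))) .nil))) (.nd (nat_lit 5) 
(.lf (nat_lit 18071) (.g (nat_lit 3381) (.e (nat_lit 1172) (nat_lit 87) (.e (nat_lit 57478) (nat_lit 28) (.e (nat_lit 557109) (nat_lit 15) (.e (nat_lit 188434) (nat_lit 20) (.e (nat_lit 3272) (nat_lit 199) .nil))))) .nil)) 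
(.lf (nat_lit 18103) (.g (nat_lit 3495) (.e (nat_lit 1172) (nat_lit 87) (.e (nat_lit 57478) (nat_lit 28) (.e (nat_lit 557109) (nat_lit 15) (.e (nat_lit 188450) (nat_lit 23) (.e (nat_lit 204850) (nat_lit 26) .nil))))) .nil)))) (.nd (nat_lit 4) (.nd (nat_lit 5) 
(.lf (nat_lit 18063) (.g (nat_lit 2952) (.e (nat_lit 1172) (nat_lit 87) (.e (nat_lit 57478) (nat_lit 28) (.e (nat_lit 557108) (nat_lit 15) (.e (nat_lit 188452) (nat_lit 23) (.e (nat_lit 204872) (nat_lit 30) .nil))))) .nil)) 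
(.lf (nat_lit 18095) (.g (nat_lit 4065) (.e (nat_lit 1172) (nat_lit 87) (.e (nat_lit 57478) (nat_lit 28) (.e (nat_lit 557109) (nat_lit 15) (.e (nat_lit 188449) (nat_lit 22) (.e (nat_lit 196670) (nat_lit 14) (.e (nat_lit 73732) (nat_lit 0) (.e (nat_lit 5902) (nat_lit 320) .nil))))))) (.g (nat_lit 5) .nil .nil)))) (.nd (nat_lit 5) 
(.lf (nat_lit 18079) (.g (nat_lit 5551) (.e (nat_lit 1172) (nat_lit 87) (.e (nat_lit 57478) (nat_lit 28) (.e (nat_lit 557109) (nat_lit 15) (.e (nat_lit 188449) (nat_lit 22) (.e (nat_lit 196621) (nat_lit 9) .nil))))) .nil)) 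
(.lf (nat_lit 18111) (.g (nat_lit 3361) (.e (nat_lit 1172) (nat_lit 87) (.e (nat_lit 57478) (nat_lit 28) (.e (nat_lit 557109) (nat_lit 15) (.e (nat_lit 188450) (nat_lit 23) (.e (nat_lit 204863) (nat_lit 27) .nil))))) .nil))))))))

noncomputable def tv249 : DT := (.nd (nat_lit 0) (.nd (nat_lit 1) (.nd (nat_lit 2) (.nd (nat_lit 3) (.nd (nat_lit 4) (.nd (nat_lit 5) 
(.lf (nat_lit 18112) (.g (nat_lit 3621) (.e (nat_lit 1172) (nat_lit 87) (.e (nat_lit 57478) (nat_lit 28) (.e (nat_lit 557109) (nat_lit 15) (.e (nat_lit 188450) (nat_lit 23) (.e (nat_lit 204872) (nat_lit 30) .nil))))) .nil)) 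
(.lf (nat_lit 18144) (.g (nat_lit 3515) (.e (nat_lit 1172) (nat_lit 87) (.e (nat_lit 57478) (nat_lit 28) (.e (nat_lit 557109) (nat_lit 15) (.e (nat_lit 188452) (nat_lit 23) (.e (nat_lit 204874) (nat_lit 30) (.e (nat_lit 368662) (nat_lit 18) (.e (nat_lit 5902) (nat_lit 320) .nil))))))) (.g (nat_lit 4) .nil .nil)))) (.nd (nat_lit 5) 
(.lf (nat_lit 18128) (.g (nat_lit 4591) (.e (nat_lit 1172) (nat_lit 87) (.e (nat_lit 57478) (nat_lit 28) (.e (nat_lit 557109) (nat_lit 15) (.e (nat_lit 188452) (nat_lit 23) (.e (nat_lit 204856) (nat_lit 26) (.e (nat_lit 335997) (nat_lit 1) (.e (nat_lit 57870) (nat_lit 264) .nil))))))) (.g (nat_lit 7) .nil .nil))) 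
(.lf (nat_lit 18160) (.g (nat_lit 3293) (.e (nat_lit 1172) (nat_lit 87) (.e (nat_lit 57479) (nat_lit 28) (.e (nat_lit 557100) (nat_lit 13) (.e (nat_lit 172106) (nat_lit 10) (.e (nat_lit 434231) (nat_lit 23) (.e (nat_lit 532543) (nat_lit 10) (.e (nat_lit 344097) (nat_lit 18) (.e (nat_lit 5905) (nat_lit 320) .nil)))))))) (.g (nat_lit 5) .nil .nil))))) (.nd (nat_lit 4) (.nd (nat_lit 5) 
(.lf (nat_lit 18120) (.g (nat_lit 4126) (.e (nat_lit 1172) (nat_lit 87) (.e (nat_lit 57478) (nat_lit 28) (.e (nat_lit 557109) (nat_lit 15) (.e (nat_lit 188452) (nat_lit 23) (.e (nat_lit 204821) (nat_lit 17) (.e (nat_lit 7936) (nat_lit 343) (.e (nat_lit 1183) (nat_lit 87) (.e (nat_lit 57872) (nat_lit 264) .nil)))))))) (.g (nat_lit 5) .nil .nil))) 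
(.lf (nat_lit 18152) (.g (nat_lit 3073) (.e (nat_lit 1172) (nat_lit 87) (.e (nat_lit 57478) (nat_lit 28) (.e (nat_lit 557109) (nat_lit 15) (.e (nat_lit 188458) (nat_lit 25) (.e (nat_lit 245794) (nat_lit 17) .nil))))) .nil))) (.nd (nat_lit 5) 
(.lf (nat_lit 18136) (.g (nat_lit 3577) (.e (nat_lit 1172) (nat_lit 87) (.e (nat_lit 57478) (nat_lit 28) (.e (nat_lit 557109) (nat_lit 15) (.e (nat_lit 188452) (nat_lit 23) (.e (nat_lit 212736) (nat_lit 26) (.e (nat_lit 335995) (nat_lit 1) (.e (nat_lit 57870) (nat_lit 264) .nil))))))) (.g (nat_lit 4) .nil .nil))) 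
(.lf (nat_lit 18168) (.g (nat_lit 2398) (.e (nat_lit 1172) (nat_lit 87) (.e (nat_lit 57479) (nat_lit 28) (.e (nat_lit 557101) (nat_lit 13) (.e (nat_lit 172115) (nat_lit 10) (.e (nat_lit 434231) (nat_lit 23) .nil))))) .nil))))) (.nd (nat_lit 3) (.nd (nat_lit 4) (.nd (nat_lit 5) 
(.lf (nat_lit 18116) (.g (nat_lit 3594) (.e (nat_lit 1172) (nat_lit 87) (.e (nat_lit 57478) (nat_lit 28) (.e (nat_lit 557109) (nat_lit 15) (.e (nat_lit 188452) (nat_lit 23) (.e (nat_lit 204817) (nat_lit 17) .nil))))) .nil)) 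
(.lf (nat_lit 18148) (.g (nat_lit 3320) (.e (nat_lit 1172) (nat_lit 87) (.e (nat_lit 57478) (nat_lit 28) (.e (nat_lit 557109) (nat_lit 15) (.e (nat_lit 188458) (nat_lit 25) (.e (nat_lit 245782) (nat_lit 9) .nil))))) .nil))) (.nd (nat_lit 5) 
(.lf (nat_lit 18132) (.g (nat_lit 4277) (.e (nat_lit 1172) (nat_lit 87) (.e (nat_lit 57478) (nat_lit 28) (.e (nat_lit 557109) (nat_lit 15) (.e (nat_lit 188452) (nat_lit 23) (.e (nat_lit 204858) (nat_lit 26) .nil))))) .nil)) 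
(.lf (nat_lit 18164) (.g (nat_lit 2326) (.e (nat_lit 1172) (nat_lit 87) (.e (nat_lit 57479) (nat_lit 28) (.e (nat_lit 557101) (nat_lit 13) (.e (nat_lit 172097) (nat_lit 9) (.e (nat_lit 426125) (nat_lit 2) .nil))))) .nil)))) (.nd (nat_lit 4) (.nd (nat_lit 5) 
(.lf (nat_lit 18124) (.g (nat_lit 2663) (.e (nat_lit 1172) (nat_lit 87) (.e (nat_lit 57478) (nat_lit 28) (.e (nat_lit 557109) (nat_lit 15) (.e (nat_lit 188452) (nat_lit 23) (.e (nat_lit 204852) (nat_lit 26) (.e (nat_lit 343808) (nat_lit 1) (.e (nat_lit 57870) (nat_lit 264) .nil))))))) (.g (nat_lit 4) .nil .nil))) 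
(.lf (nat_lit 18156) (.g (nat_lit 2461) (.e (nat_lit 1172) (nat_lit 87) (.e (nat_lit 57479) (nat_lit 28) (.e (nat_lit 557095) (nat_lit 13) (.e (nat_lit 172115) (nat_lit 10) (.e (nat_lit 434231) (nat_lit 23) (.e (nat_lit 532544) (nat_lit 10) (.e (nat_lit 344097) (nat_lit 18) (.e (nat_lit 5906) (nat_lit 320) .nil)))))))) (.g (nat_lit 4) .nil .nil)))) (.nd (nat_lit 5) 
(.lf (nat_lit 18140) (.g (nat_lit 4631) (.e (nat_lit 1172) (nat_lit 87) (.e (nat_lit 57478) (nat_lit 28) (.e (nat_lit 557109) (nat_lit 15) (.e (nat_lit 188452) (nat_lit 23) (.e (nat_lit 204871) (nat_lit 30) .nil))))) .nil)) 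
(.lf (nat_lit 18172) (.g (nat_lit 2215) (.e (nat_lit 1172) (nat_lit 87) (.e (nat_lit 57479) (nat_lit 28) (.e (nat_lit 557101) (nat_lit 13) (.e (nat_lit 172115) (nat_lit 10) (.e (nat_lit 434244) (nat_lit 28) .nil))))) .nil)))))) (.nd (nat_lit 2) (.nd (nat_lit 3) (.nd (nat_lit 4) (.nd (nat_lit 5) 
(.lf (nat_lit 18114) (.g (nat_lit 5887) (.e (nat_lit 1172) (nat_lit 87) (.e (nat_lit 57478) (nat_lit 28) (.e (nat_lit 557109) (nat_lit 15) (.e (nat_lit 188452) (nat_lit 23) (.e (nat_lit 204816) (nat_lit 17) (.e (nat_lit 6479) (nat_lit 343) (.e (nat_lit 1181) (nat_lit 87) (.e (nat_lit 57872) (nat_lit 264) .nil)))))))) (.g (nat_lit 4) .nil .nil))) 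
(.lf (nat_lit 18146) (.g (nat_lit 5232) (.e (nat_lit 1172) (nat_lit 87) (.e (nat_lit 57478) (nat_lit 28) (.e (nat_lit 557109) (nat_lit 15) (.e (nat_lit 188452) (nat_lit 23) (.e (nat_lit 204874) (nat_lit 30) (.e (nat_lit 368662) (nat_lit 18) (.e (nat_lit 5906) (nat_lit 320) .nil))))))) (.g (nat_lit 0) .nil .nil)))) (.nd (nat_lit 5) 
(.lf (nat_lit 18130) (.g (nat_lit 3982) (.e (nat_lit 1172) (nat_lit 87) (.e (nat_lit 57478) (nat_lit 28) (.e (nat_lit 557109) (nat_lit 15) (.e (nat_lit 188452) (nat_lit 23) (.e (nat_lit 204857) (nat_lit 26) .nil))))) .nil)) 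
(.lf (nat_lit 18162) (.g (nat_lit 3419) (.e (nat_lit 1172) (nat_lit 87) (.e (nat_lit 57479) (nat_lit 28) (.e (nat_lit 557100) (nat_lit 13) (.e (nat_lit 172106) (nat_lit 10) (.e (nat_lit 434231) (nat_lit 23) (.e (nat_lit 532554) (nat_lit 13) (.e (nat_lit 368662) (nat_lit 18) (.e (nat_lit 5907) (nat_lit 320) .nil)))))))) (.g (nat_lit 6) .nil .nil))))) (.nd (nat_lit 4) (.nd (nat_lit 5) 
(.lf (nat_lit 18122) (.g (nat_lit 5315) (.e (nat_lit 1172) (nat_lit 87) (.e (nat_lit 57478) (nat_lit 28) (.e (nat_lit 557109) (nat_lit 15) (.e (nat_lit 188452) (nat_lit 23) (.e (nat_lit 204849) (nat_lit 25) (.e (nat_lit 327692) (nat_lit 1) (.e (nat_lit 8439) (nat_lit 138) .nil))))))) (.g (nat_lit 6) .nil .nil))) 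
(.lf (nat_lit 18154) (.g (nat_lit 2257) (.e (nat_lit 1172) (nat_lit 87) (.e (nat_lit 57479) (nat_lit 28) (.e (nat_lit 557095) (nat_lit 13) (.e (nat_lit 172115) (nat_lit 10) (.e (nat_lit 434231) (nat_lit 23) .nil))))) .nil))) (.nd (nat_lit 5) 
(.lf (nat_lit 18138) (.g (nat_lit 5165) (.e (nat_lit 1172) (nat_lit 87) (.e (nat_lit 57478) (nat_lit 28) (.e (nat_lit 557109) (nat_lit 15) (.e (nat_lit 188452) (nat_lit 23) (.e (nat_lit 204864) (nat_lit 27) (.e (nat_lit 344097) (nat_lit 18) (.e (nat_lit 5906) (nat_lit 320) .nil))))))) (.g (nat_lit 0) .nil .nil))) 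
(.lf (nat_lit 18170) (.g (nat_lit 4286) (.e (nat_lit 1172) (nat_lit 87) (.e (nat_lit 57479) (nat_lit 28) (.e (nat_lit 557101) (nat_lit 13) (.e (nat_lit 172115) (nat_lit 10) (.e (nat_lit 434231) (nat_lit 23) (.e (nat_lit 532544) (nat_lit 10) (.e (nat_lit 344097) (nat_lit 18) (.e (nat_lit 5907) (nat_lit 320) .nil)))))))) (.g (nat_lit 6) .nil .nil)))))) 
(.nd (nat_lit 3) (.nd (nat_lit 4) (.nd (nat_lit 5) 
(.lf (nat_lit 18118) (.g (nat_lit 3781) (.e (nat_lit 1172) (nat_lit 87) (.e (nat_lit 57478) (nat_lit 28) (.e (nat_lit 557109) (nat_lit 15) (.e (nat_lit 188452) (nat_lit 23) (.e (nat_lit 204817) (nat_lit 17) (.e (nat_lit 7936) (nat_lit 343) (.e (nat_lit 1183) (nat_lit 87) (.e (nat_lit 57871) (nat_lit 264) .nil)))))))) (.g (nat_lit 4) .nil .nil))) 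
(.lf (nat_lit 18150) (.g (nat_lit 3109) (.e (nat_lit 1172) (nat_lit 87) (.e (nat_lit 57478) (nat_lit 28) (.e (nat_lit 557109) (nat_lit 15) (.e (nat_lit 188458) (nat_lit 25) (.e (nat_lit 245784) (nat_lit 9) (.e (nat_lit 1413) (nat_lit 108) (.e (nat_lit 335997) (nat_lit 1) (.e (nat_lit 57871) (nat_lit 264) .nil)))))))) (.g (nat_lit 4) .nil .nil)))) (.nd (nat_lit 5) 
(.lf (nat_lit 18134) (.g (nat_lit 4488) (.e (nat_lit 1172) (nat_lit 87) (.e (nat_lit 57478) (nat_lit 28) (.e (nat_lit 557109) (nat_lit 15) (.e (nat_lit 188452) (nat_lit 23) (.e (nat_lit 204858) (nat_lit 26) (.e (nat_lit 335997) (nat_lit 1) (.e (nat_lit 57870) (nat_lit 264) .nil))))))) (.g (nat_lit 4) .nil .nil))) 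
(.lf (nat_lit 18166) (.g (nat_lit 2325) (.e (nat_lit 1172) (nat_lit 87) (.e (nat_lit 57479) (nat_lit 28) (.e (nat_lit 557101) (nat_lit 13) (.e (nat_lit 172097) (nat_lit 9) (.e (nat_lit 426140) (nat_lit 3) .nil))))) .nil)))) (.nd (nat_lit 4) (.nd (nat_lit 5) 
(.lf (nat_lit 18126) (.g (nat_lit 3704) (.e (nat_lit 1172) (nat_lit 87) (.e (nat_lit 57478) (nat_lit 28) (.e (nat_lit 557109) (nat_lit 15) (.e (nat_lit 188452) (nat_lit 23) (.e (nat_lit 204855) (nat_lit 26) (.e (nat_lit 335923) (nat_lit 0) (.e (nat_lit 1023) (nat_lit 81) (.e (nat_lit 5905) (nat_lit 320) .nil)))))))) (.g (nat_lit 5) .nil .nil))) 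
(.lf (nat_lit 18158) (.g (nat_lit 3565) (.e (nat_lit 1172) (nat_lit 87) (.e (nat_lit 57479) (nat_lit 28) (.e (nat_lit 557100) (nat_lit 13) (.e (nat_lit 172106) (nat_lit 10) (.e (nat_lit 434231) (nat_lit 23) (.e (nat_lit 532527) (nat_lit 9) (.e (nat_lit 335997) (nat_lit 1) (.e (nat_lit 57870) (nat_lit 264) .nil)))))))) (.g (nat_lit 6) .nil .nil)))) (.nd (nat_lit 5) 
(.lf (nat_lit 18142) (.g (nat_lit 2839) (.e (nat_lit 1172) (nat_lit 87) (.e (nat_lit 57478) (nat_lit 28) (.e (nat_lit 557109) (nat_lit 15) (.e (nat_lit 188452) (nat_lit 23) (.e (nat_lit 204873) (nat_lit 30) (.e (nat_lit 368662) (nat_lit 18) (.e (nat_lit 5902) (nat_lit 320) .nil))))))) (.g (nat_lit 4) .nil .nil))) 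
(.lf (nat_lit 18174) (.g (nat_lit 3460) (.e (nat_lit 1172) (nat_lit 87) (.e (nat_lit 57479) (nat_lit 28) (.e (nat_lit 557105) (nat_lit 14) (.e (nat_lit 180252) (nat_lit 10) (.e (nat_lit 573487) (nat_lit 14) (.e (nat_lit 73747) (nat_lit 3) (.e (nat_lit 516115) (nat_lit 1) (.e (nat_lit 164163) (nat_lit 152) .nil)))))))) (.g (nat_lit 4) .nil .nil)))))))) 
(.nd (nat_lit 1) (.nd (nat_lit 2) (.nd (nat_lit 3) (.nd (nat_lit 4) (.nd (nat_lit 5) 
(.lf (nat_lit 18113) (.g (nat_lit 3580) (.e (nat_lit 1172) (nat_lit 87) (.e (nat_lit 57478) (nat_lit 28) (.e (nat_lit 557109) (nat_lit 15) (.e (nat_lit 188450) (nat_lit 23) (.e (nat_lit 204873) (nat_lit 30) .nil))))) .nil)) 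
(.lf (nat_lit 18145) (.g (nat_lit 4010) (.e (nat_lit 1172) (nat_lit 87) (.e (nat_lit 57478) (nat_lit 28) (.e (nat_lit 557109) (nat_lit 15) (.e (nat_lit 188452) (nat_lit 23) (.e (nat_lit 204874) (nat_lit 30) (.e (nat_lit 368662) (nat_lit 18) (.e (nat_lit 5905) (nat_lit 320) .nil))))))) (.g (nat_lit 5) .nil .nil)))) (.nd (nat_lit 5) 
(.lf (nat_lit 18129) (.g (nat_lit 4738) (.e (nat_lit 1172) (nat_lit 87) (.e (nat_lit 57478) (nat_lit 28) (.e (nat_lit 557109) (nat_lit 15) (.e (nat_lit 188452) (nat_lit 23) (.e (nat_lit 204856) (nat_lit 26) (.e (nat_lit 335997) (nat_lit 1) (.e (nat_lit 57872) (nat_lit 264) .nil))))))) (.g (nat_lit 0) .nil .nil))) 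
(.lf (nat_lit 18161) (.g (nat_lit 3656) (.e (nat_lit 1172) (nat_lit 87) (.e (nat_lit 57479) (nat_lit 28) (.e (nat_lit 557100) (nat_lit 13) (.e (nat_lit 172106) (nat_lit 10) (.e (nat_lit 434231) (nat_lit 23) (.e (nat_lit 532544) (nat_lit 10) (.e (nat_lit 344097) (nat_lit 18) (.e (nat_lit 5905) (nat_lit 320) .nil)))))))) (.g (nat_lit 5) .nil .nil))))) (.nd (nat_lit 4) (.nd (nat_lit 5) 
(.lf (nat_lit 18121) (.g (nat_lit 4640) (.e (nat_lit 1172) (nat_lit 87) (.e (nat_lit 57478) (nat_lit 28) (.e (nat_lit 557109) (nat_lit 15) (.e (nat_lit 188452) (nat_lit 23) (.e (nat_lit 204848) (nat_lit 25) .nil))))) .nil)) 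
(.lf (nat_lit 18153) (.g (nat_lit 2219) (.e (nat_lit 1172) (nat_lit 87) (.e (nat_lit 57479) (nat_lit 28) (.e (nat_lit 557095) (nat_lit 13) (.e (nat_lit 172097) (nat_lit 9) .nil)))) .nil))) (.nd (nat_lit 5) 
(.lf (nat_lit 18137) (.g (nat_lit 2233) (.e (nat_lit 1172) (nat_lit 87) (.e (nat_lit 57478) (nat_lit 28) (.e (nat_lit 557109) (nat_lit 15) (.e (nat_lit 188452) (nat_lit 23) (.e (nat_lit 204863) (nat_lit 27) .nil))))) .nil)) 
(.lf (nat_lit 18169) (.g (nat_lit 3451) (.e (nat_lit 1172) (nat_lit 87) (.e (nat_lit 57479) (nat_lit 28) (.e (nat_lit 557101) (nat_lit 13) (.e (nat_lit 172115) (nat_lit 10) (.e (nat_lit 434231) (nat_lit 23) (.e (nat_lit 532527) (nat_lit 9) (.e (nat_lit 335997) (nat_lit 1) (.e (nat_lit 57872) (nat_lit 264) .nil)))))))) (.g (nat_lit 5) .nil .nil)))))) 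
(.nd (nat_lit 3) (.nd (nat_lit 4) (.nd (nat_lit 5) 
(.lf (nat_lit 18117) (.g (nat_lit 3702) (.e (nat_lit 1172) (nat_lit 87) (.e (nat_lit 57478) (nat_lit 28) (.e (nat_lit 557109) (nat_lit 15) (.e (nat_lit 188452) (nat_lit 23) (.e (nat_lit 204817) (nat_lit 17) (.e (nat_lit 6481) (nat_lit 343) (.e (nat_lit 1181) (nat_lit 87) (.e (nat_lit 57872) (nat_lit 264) .nil)))))))) (.g (nat_lit 4) .nil .nil))) 
(.lf (nat_lit 18149) (.g (nat_lit 3037) (.e (nat_lit 1172) (nat_lit 87) (.e (nat_lit 57478) (nat_lit 28) (.e (nat_lit 557109) (nat_lit 15) (.e (nat_lit 188458) (nat_lit 25) (.e (nat_lit 245784) (nat_lit 9) .nil))))) .nil))) (.nd (nat_lit 5) 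
(.lf (nat_lit 18133) (.g (nat_lit 4728) (.e (nat_lit 1172) (nat_lit 87) (.e (nat_lit 57478) (nat_lit 28) (.e (nat_lit 557109) (nat_lit 15) (.e (nat_lit 188452) (nat_lit 23) (.e (nat_lit 204858) (nat_lit 26) (.e (nat_lit 335991) (nat_lit 1) (.e (nat_lit 57873) (nat_lit 264) .nil))))))) (.g (nat_lit 5) .nil .nil))) 
(.lf (nat_lit 18165) (.g (nat_lit 2442) (.e (nat_lit 1172) (nat_lit 87) (.e (nat_lit 57479) (nat_lit 28) (.e (nat_lit 557101) (nat_lit 13) (.e (nat_lit 172097) (nat_lit 9) (.e (nat_lit 426125) (nat_lit 2) (.e (nat_lit 196666) (nat_lit 13) (.e (nat_lit 65553) (nat_lit 0) (.e (nat_lit 1023) (nat_lit 81) (.e (nat_lit 5906) (nat_lit 320) .nil))))))))) (.g (nat_lit 4) .nil .nil))))) 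
(.nd (nat_lit 4) (.nd (nat_lit 5) 
(.lf (nat_lit 18125) (.g (nat_lit 2294) (.e (nat_lit 1172) (nat_lit 87) (.e (nat_lit 57478) (nat_lit 28) (.e (nat_lit 557109) (nat_lit 15) (.e (nat_lit 188452) (nat_lit 23) (.e (nat_lit 204855) (nat_lit 26) .nil))))) .nil)) 
(.lf (nat_lit 18157) (.g (nat_lit 1920) (.e (nat_lit 1172) (nat_lit 87) (.e (nat_lit 57479) (nat_lit 28) (.e (nat_lit 557100) (nat_lit 13) (.e (nat_lit 172106) (nat_lit 10) (.e (nat_lit 434231) (nat_lit 23) .nil))))) .nil))) (.nd (nat_lit 5) 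
(.lf (nat_lit 18141) (.g (nat_lit 2653) (.e (nat_lit 1172) (nat_lit 87) (.e (nat_lit 57478) (nat_lit 28) (.e (nat_lit 557109) (nat_lit 15) (.e (nat_lit 188452) (nat_lit 23) (.e (nat_lit 204872) (nat_lit 30) .nil))))) .nil)) 
(.lf (nat_lit 18173) (.g (nat_lit 3197) (.e (nat_lit 1172) (nat_lit 87) (.e (nat_lit 57479) (nat_lit 28) (.e (nat_lit 557105) (nat_lit 14) (.e (nat_lit 180252) (nat_lit 10) (.e (nat_lit 573487) (nat_lit 14) .nil))))) .nil)))))) (.nd (nat_lit 2) (.nd (nat_lit 3) (.nd (nat_lit 4) (.nd (nat_lit 5) 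
(.lf (nat_lit 18115) (.g (nat_lit 5779) (.e (nat_lit 1172) (nat_lit 87) (.e (nat_lit 57478) (nat_lit 28) (.e (nat_lit 557109) (nat_lit 15) (.e (nat_lit 188452) (nat_lit 23) (.e (nat_lit 204816) (nat_lit 17) (.e (nat_lit 6486) (nat_lit 343) (.e (nat_lit 1181) (nat_lit 87) (.e (nat_lit 57872) (nat_lit 264) .nil)))))))) (.g (nat_lit 4) .nil .nil))) 
(.lf (nat_lit 18147) (.g (nat_lit 5007) (.e (nat_lit 1172) (nat_lit 87) (.e (nat_lit 57478) (nat_lit 28) (.e (nat_lit 557109) (nat_lit 15) (.e (nat_lit 188452) (nat_lit 23) (.e (nat_lit 204874) (nat_lit 30) (.e (nat_lit 368662) (nat_lit 18) (.e (nat_lit 5907) (nat_lit 320) .nil))))))) (.g (nat_lit 0) .nil .nil)))) (.nd (nat_lit 5) 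
(.lf (nat_lit 18131) (.g (nat_lit 4693) (.e (nat_lit 1172) (nat_lit 87) (.e (nat_lit 57478) (nat_lit 28) (.e (nat_lit 557109) (nat_lit 15) (.e (nat_lit 188452) (nat_lit 23) (.e (nat_lit 204857) (nat_lit 26) (.e (nat_lit 335997) (nat_lit 1) (.e (nat_lit 57870) (nat_lit 264) .nil))))))) (.g (nat_lit 6) .nil .nil))) 
(.lf (nat_lit 18163) (.g (nat_lit 3286) (.e (nat_lit 1172) (nat_lit 87) (.e (nat_lit 57479) (nat_lit 28) (.e (nat_lit 557100) (nat_lit 13) (.e (nat_lit 172113) (nat_lit 10) .nil)))) .nil)))) (.nd (nat_lit 4) (.nd (nat_lit 5) 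
(.lf (nat_lit 18123) (.g (nat_lit 2571) (.e (nat_lit 1172) (nat_lit 87) (.e (nat_lit 57478) (nat_lit 28) (.e (nat_lit 557109) (nat_lit 15) (.e (nat_lit 188452) (nat_lit 23) (.e (nat_lit 204852) (nat_lit 26) .nil))))) .nil)) 
(.lf (nat_lit 18155) (.g (nat_lit 2474) (.e (nat_lit 1172) (nat_lit 87) (.e (nat_lit 57479) (nat_lit 28) (.e (nat_lit 557095) (nat_lit 13) (.e (nat_lit 172115) (nat_lit 10) (.e (nat_lit 434231) (nat_lit 23) (.e (nat_lit 532535) (nat_lit 9) (.e (nat_lit 335985) (nat_lit 1) (.e (nat_lit 57873) (nat_lit 264) .nil)))))))) (.g (nat_lit 4) .nil .nil)))) (.nd (nat_lit 5) 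
(.lf (nat_lit 18139) (.g (nat_lit 5394) (.e (nat_lit 1172) (nat_lit 87) (.e (nat_lit 57478) (nat_lit 28) (.e (nat_lit 557109) (nat_lit 15) (.e (nat_lit 188452) (nat_lit 23) (.e (nat_lit 204864) (nat_lit 27) (.e (nat_lit 344097) (nat_lit 18) (.e (nat_lit 5907) (nat_lit 320) .nil))))))) (.g (nat_lit 0) .nil .nil))) 
(.lf (nat_lit 18171) (.g (nat_lit 2487) (.e (nat_lit 1172) (nat_lit 87) (.e (nat_lit 57479) (nat_lit 28) (.e (nat_lit 557101) (nat_lit 13) (.e (nat_lit 172115) (nat_lit 10) (.e (nat_lit 434231) (nat_lit 23) (.e (nat_lit 532555) (nat_lit 13) (.e (nat_lit 368662) (nat_lit 18) (.e (nat_lit 5906) (nat_lit 320) .nil)))))))) (.g (nat_lit 4) .nil .nil)))))) 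
(.nd (nat_lit 3) (.nd (nat_lit 4) (.nd (nat_lit 5) 
(.lf (nat_lit 18119) (.g (nat_lit 3641) (.e (nat_lit 1172) (nat_lit 87) (.e (nat_lit 57478) (nat_lit 28) (.e (nat_lit 557109) (nat_lit 15) (.e (nat_lit 188452) (nat_lit 23) (.e (nat_lit 204821) (nat_lit 17) (.e (nat_lit 7936) (nat_lit 343) (.e (nat_lit 1181) (nat_lit 87) (.e (nat_lit 57870) (nat_lit 264) .nil)))))))) (.g (nat_lit 4) .nil .nil))) 
(.lf (nat_lit 18151) (.g (nat_lit 3210) (.e (nat_lit 1172) (nat_lit 87) (.e (nat_lit 57478) (nat_lit 28) (.e (nat_lit 557109) (nat_lit 15) (.e (nat_lit 188458) (nat_lit 25) (.e (nat_lit 245791) (nat_lit 14) .nil))))) .nil))) (.nd (nat_lit 5) 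
(.lf (nat_lit 18135) (.g (nat_lit 4382) (.e (nat_lit 1172) (nat_lit 87) (.e (nat_lit 57478) (nat_lit 28) (.e (nat_lit 557109) (nat_lit 15) (.e (nat_lit 188452) (nat_lit 23) (.e (nat_lit 204860) (nat_lit 26) (.e (nat_lit 335995) (nat_lit 1) (.e (nat_lit 57870) (nat_lit 264) .nil))))))) (.g (nat_lit 4) .nil .nil))) 
(.lf (nat_lit 18167) (.g (nat_lit 2438) (.e (nat_lit 1172) (nat_lit 87) (.e (nat_lit 57479) (nat_lit 28) (.e (nat_lit 557101) (nat_lit 13) (.e (nat_lit 172097) (nat_lit 9) (.e (nat_lit 426140) (nat_lit 3) (.e (nat_lit 204855) (nat_lit 26) (.e (nat_lit 335923) (nat_lit 0) (.e (nat_lit 1023) (nat_lit 81) (.e (nat_lit 5906) (nat_lit 320) .nil))))))))) (.g (nat_lit 4) .nil .nil))))) 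
(.nd (nat_lit 4) (.nd (nat_lit 5) 
(.lf (nat_lit 18127) (.g (nat_lit 4118) (.e (nat_lit 1172) (nat_lit 87) (.e (nat_lit 57478) (nat_lit 28) (.e (nat_lit 557109) (nat_lit 15) (.e (nat_lit 188452) (nat_lit 23) (.e (nat_lit 204855) (nat_lit 26) (.e (nat_lit 335992) (nat_lit 1) (.e (nat_lit 57870) (nat_lit 264) .nil))))))) (.g (nat_lit 7) .nil .nil))) 
(.lf (nat_lit 18159) (.g (nat_lit 2027) (.e (nat_lit 1172) (nat_lit 87) (.e (nat_lit 57479) (nat_lit 28) (.e (nat_lit 557100) (nat_lit 13) (.e (nat_lit 172106) (nat_lit 10) (.e (nat_lit 434231) (nat_lit 23) (.e (nat_lit 532535) (nat_lit 9) (.e (nat_lit 343808) (nat_lit 1) (.e (nat_lit 57873) (nat_lit 264) .nil)))))))) (.g (nat_lit 4) .nil .nil)))) (.nd (nat_lit 5) 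
(.lf (nat_lit 18143) (.g (nat_lit 4533) (.e (nat_lit 1172) (nat_lit 87) (.e (nat_lit 57478) (nat_lit 28) (.e (nat_lit 557109) (nat_lit 15) (.e (nat_lit 188452) (nat_lit 23) (.e (nat_lit 204873) (nat_lit 30) (.e (nat_lit 368662) (nat_lit 18) (.e (nat_lit 5907) (nat_lit 320) .nil))))))) (.g (nat_lit 0) .nil .nil))) 
(.lf (nat_lit 18175) (.g (nat_lit 4699) (.e (nat_lit 1172) (nat_lit 87) (.e (nat_lit 57479) (nat_lit 28) (.e (nat_lit 557105) (nat_lit 14) (.e (nat_lit 180252) (nat_lit 10) (.e (nat_lit 573487) (nat_lit 14) (.e (nat_lit 73747) (nat_lit 3) (.e (nat_lit 516119) (nat_lit 1) (.e (nat_lit 164147) (nat_lit 152) .nil)))))))) (.g (nat_lit 6) .nil .nil)))))))))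

noncomputable def tv250 : DT := (.nd (nat_lit 0) (.nd (nat_lit 1) (.nd (nat_lit 2) (.nd (nat_lit 3) (.nd (nat_lit 4) (.nd (nat_lit 5) 
(.lf (nat_lit 18176) (.g (nat_lit 3525) (.e (nat_lit 1172) (nat_lit 87) (.e (nat_lit 57479) (nat_lit 28) (.e (nat_lit 557105) (nat_lit 14) (.e (nat_lit 180252) (nat_lit 10) (.e (nat_lit 573488) (nat_lit 14) .nil))))) .nil)) 
(.lf (nat_lit 18208) (.g (nat_lit 4701) (.e (nat_lit 1172) (nat_lit 87) (.e (nat_lit 57480) (nat_lit 28) (.e (nat_lit 557098) (nat_lit 13) (.e (nat_lit 172115) (nat_lit 10) (.e (nat_lit 434231) (nat_lit 23) (.e (nat_lit 532544) (nat_lit 10) (.e (nat_lit 344097) (nat_lit 18) (.e (nat_lit 5907) (nat_lit 320) .nil)))))))) (.g (nat_lit 8) .nil .nil)))) (.nd (nat_lit 5) 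
(.lf (nat_lit 18192) (.g (nat_lit 1959) (.e (nat_lit 1172) (nat_lit 87) (.e (nat_lit 57480) (nat_lit 28) (.e (nat_lit 557098) (nat_lit 13) (.e (nat_lit 172097) (nat_lit 9) (.e (nat_lit 426140) (nat_lit 3) .nil))))) .nil)) 
(.lf (nat_lit 18224) (.g (nat_lit 2245) (.e (nat_lit 1172) (nat_lit 87) (.e (nat_lit 57480) (nat_lit 28) (.e (nat_lit 557107) (nat_lit 15) (.e (nat_lit 188450) (nat_lit 23) (.e (nat_lit 204852) (nat_lit 26) .nil))))) .nil)))) (.nd (nat_lit 4) (.nd (nat_lit 5) 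
(.lf (nat_lit 18184) (.g (nat_lit 3475) (.e (nat_lit 1172) (nat_lit 87) (.e (nat_lit 57479) (nat_lit 28) (.e (nat_lit 557109) (nat_lit 15) (.e (nat_lit 188452) (nat_lit 23) (.e (nat_lit 204816) (nat_lit 17) .nil))))) .nil)) 
(.lf (nat_lit 18216) (.g (nat_lit 3248) (.e (nat_lit 1172) (nat_lit 87) (.e (nat_lit 57480) (nat_lit 28) (.e (nat_lit 557107) (nat_lit 15) (.e (nat_lit 188447) (nat_lit 22) (.e (nat_lit 196666) (nat_lit 13) (.e (nat_lit 65565) (nat_lit 1) (.e (nat_lit 57873) (nat_lit 264) .nil))))))) (.g (nat_lit 5) .nil .nil)))) (.nd (nat_lit 5) 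
(.lf (nat_lit 18200) (.g (nat_lit 3297) (.e (nat_lit 1172) (nat_lit 87) (.e (nat_lit 57480) (nat_lit 28) (.e (nat_lit 557098) (nat_lit 13) (.e (nat_lit 172097) (nat_lit 9) (.e (nat_lit 426140) (nat_lit 3) (.e (nat_lit 204862) (nat_lit 27) (.e (nat_lit 344097) (nat_lit 18) (.e (nat_lit 5905) (nat_lit 320) .nil)))))))) (.g (nat_lit 6) .nil .nil))) 
(.lf (nat_lit 18232) (.g (nat_lit 2746) (.e (nat_lit 1172) (nat_lit 87) (.e (nat_lit 57480) (nat_lit 28) (.e (nat_lit 557107) (nat_lit 15) (.e (nat_lit 188450) (nat_lit 23) (.e (nat_lit 204873) (nat_lit 30) (.e (nat_lit 368662) (nat_lit 18) (.e (nat_lit 5906) (nat_lit 320) .nil))))))) (.g (nat_lit 5) .nil .nil)))))) (.nd (nat_lit 3) (.nd (nat_lit 4) (.nd (nat_lit 5) 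
(.lf (nat_lit 18180) (.g (nat_lit 2275) (.e (nat_lit 1172) (nat_lit 87) (.e (nat_lit 57479) (nat_lit 28) (.e (nat_lit 557105) (nat_lit 14) (.e (nat_lit 180252) (nat_lit 10) (.e (nat_lit 573489) (nat_lit 14) (.e (nat_lit 73748) (nat_lit 3) (.e (nat_lit 516117) (nat_lit 1) (.e (nat_lit 164147) (nat_lit 152) .nil)))))))) (.g (nat_lit 4) .nil .nil))) 
(.lf (nat_lit 18212) (.g (nat_lit 635) (.e (nat_lit 1172) (nat_lit 87) (.e (nat_lit 57480) (nat_lit 28) (.e (nat_lit 557107) (nat_lit 15) .nil))) .nil))) (.nd (nat_lit 5) 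
(.lf (nat_lit 18196) (.g (nat_lit 3419) (.e (nat_lit 1172) (nat_lit 87) (.e (nat_lit 57480) (nat_lit 28) (.e (nat_lit 557098) (nat_lit 13) (.e (nat_lit 172097) (nat_lit 9) (.e (nat_lit 426140) (nat_lit 3) (.e (nat_lit 204855) (nat_lit 26) (.e (nat_lit 335985) (nat_lit 1) (.e (nat_lit 57870) (nat_lit 264) .nil)))))))) (.g (nat_lit 6) .nil .nil))) 
(.lf (nat_lit 18228) (.g (nat_lit 2226) (.e (nat_lit 1172) (nat_lit 87) (.e (nat_lit 57480) (nat_lit 28) (.e (nat_lit 557107) (nat_lit 15) (.e (nat_lit 188450) (nat_lit 23) (.e (nat_lit 204862) (nat_lit 27) .nil))))) .nil)))) (.nd (nat_lit 4) (.nd (nat_lit 5) 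
(.lf (nat_lit 18188) (.g (nat_lit 4376) (.e (nat_lit 1172) (nat_lit 87) (.e (nat_lit 57480) (nat_lit 28) (.e (nat_lit 557098) (nat_lit 13) (.e (nat_lit 172097) (nat_lit 9) (.e (nat_lit 426125) (nat_lit 2) (.e (nat_lit 196666) (nat_lit 13) (.e (nat_lit 65550) (nat_lit 0) (.e (nat_lit 1023) (nat_lit 81) (.e (nat_lit 5906) (nat_lit 320) .nil))))))))) (.g (nat_lit 6) .nil .nil))) 
(.lf (nat_lit 18220) (.g (nat_lit 2945) (.e (nat_lit 1172) (nat_lit 87) (.e (nat_lit 57480) (nat_lit 28) (.e (nat_lit 557107) (nat_lit 15) (.e (nat_lit 188447) (nat_lit 22) (.e (nat_lit 196681) (nat_lit 17) (.e (nat_lit 131088) (nat_lit 1) (.e (nat_lit 57872) (nat_lit 264) .nil))))))) (.g (nat_lit 4) .nil .nil)))) (.nd (nat_lit 5) 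
(.lf (nat_lit 18204) (.g (nat_lit 3735) (.e (nat_lit 1172) (nat_lit 87) (.e (nat_lit 57480) (nat_lit 28) (.e (nat_lit 557098) (nat_lit 13) (.e (nat_lit 172115) (nat_lit 10) (.e (nat_lit 434231) (nat_lit 23) (.e (nat_lit 532527) (nat_lit 9) (.e (nat_lit 335997) (nat_lit 1) (.e (nat_lit 57870) (nat_lit 264) .nil)))))))) (.g (nat_lit 7) .nil .nil))) 
(.lf (nat_lit 18236) (.g (nat_lit 2424) (.e (nat_lit 1172) (nat_lit 87) (.e (nat_lit 57480) (nat_lit 28) (.e (nat_lit 557108) (nat_lit 15) (.e (nat_lit 188452) (nat_lit 23) (.e (nat_lit 204816) (nat_lit 17) .nil))))) .nil)))))) (.nd (nat_lit 2) (.nd (nat_lit 3) (.nd (nat_lit 4) (.nd (nat_lit 5) 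
(.lf (nat_lit 18178) (.g (nat_lit 2126) (.e (nat_lit 1172) (nat_lit 87) (.e (nat_lit 57479) (nat_lit 28) (.e (nat_lit 557105) (nat_lit 14) (.e (nat_lit 180252) (nat_lit 10) (.e (nat_lit 573489) (nat_lit 14) .nil))))) .nil)) 
(.lf (nat_lit 18210) (.g (nat_lit 2871) (.e (nat_lit 1172) (nat_lit 87) (.e (nat_lit 57480) (nat_lit 28) (.e (nat_lit 557105) (nat_lit 14) (.e (nat_lit 180252) (nat_lit 10) (.e (nat_lit 573488) (nat_lit 14) (.e (nat_lit 73747) (nat_lit 3) (.e (nat_lit 516119) (nat_lit 1) (.e (nat_lit 164147) (nat_lit 152) .nil)))))))) (.g (nat_lit 5) .nil .nil)))) (.nd (nat_lit 5) 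
(.lf (nat_lit 18194) (.g (nat_lit 3537) (.e (nat_lit 1172) (nat_lit 87) (.e (nat_lit 57480) (nat_lit 28) (.e (nat_lit 557098) (nat_lit 13) (.e (nat_lit 172097) (nat_lit 9) (.e (nat_lit 426140) (nat_lit 3) (.e (nat_lit 204850) (nat_lit 26) (.e (nat_lit 335997) (nat_lit 1) (.e (nat_lit 57872) (nat_lit 264) .nil)))))))) (.g (nat_lit 7) .nil .nil))) 
(.lf (nat_lit 18226) (.g (nat_lit 2692) (.e (nat_lit 1172) (nat_lit 87) (.e (nat_lit 57480) (nat_lit 28) (.e (nat_lit 557107) (nat_lit 15) (.e (nat_lit 188450) (nat_lit 23) (.e (nat_lit 204860) (nat_lit 26) .nil))))) .nil)))) (.nd (nat_lit 4) (.nd (nat_lit 5) 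
(.lf (nat_lit 18186) (.g (nat_lit 3776) (.e (nat_lit 1172) (nat_lit 87) (.e (nat_lit 57479) (nat_lit 28) (.e (nat_lit 557109) (nat_lit 15) (.e (nat_lit 188452) (nat_lit 23) (.e (nat_lit 204849) (nat_lit 25) .nil))))) .nil)) 
(.lf (nat_lit 18218) (.g (nat_lit 2872) (.e (nat_lit 1172) (nat_lit 87) (.e (nat_lit 57480) (nat_lit 28) (.e (nat_lit 557107) (nat_lit 15) (.e (nat_lit 188447) (nat_lit 22) (.e (nat_lit 196681) (nat_lit 17) .nil))))) .nil))) (.nd (nat_lit 5) 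
(.lf (nat_lit 18202) (.g (nat_lit 3474) (.e (nat_lit 1172) (nat_lit 87) (.e (nat_lit 57480) (nat_lit 28) (.e (nat_lit 557098) (nat_lit 13) (.e (nat_lit 172097) (nat_lit 9) (.e (nat_lit 426140) (nat_lit 3) (.e (nat_lit 204863) (nat_lit 27) (.e (nat_lit 344097) (nat_lit 18) (.e (nat_lit 5905) (nat_lit 320) .nil)))))))) (.g (nat_lit 6) .nil .nil))) 
(.lf (nat_lit 18234) (.g (nat_lit 2425) (.e (nat_lit 1172) (nat_lit 87) (.e (nat_lit 57480) (nat_lit 28) (.e (nat_lit 557107) (nat_lit 15) (.e (nat_lit 188450) (nat_lit 23) (.e (nat_lit 204874) (nat_lit 30) .nil))))) .nil))))) (.nd (nat_lit 3) (.nd (nat_lit 4) (.nd (nat_lit 5) 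
(.lf (nat_lit 18182) (.g (nat_lit 889) (.e (nat_lit 1172) (nat_lit 87) (.e (nat_lit 57479) (nat_lit 28) (.e (nat_lit 557109) (nat_lit 15) .nil))) .nil)) 
(.lf (nat_lit 18214) (.g (nat_lit 2470) (.e (nat_lit 1172) (nat_lit 87) (.e (nat_lit 57480) (nat_lit 28) (.e (nat_lit 557107) (nat_lit 15) (.e (nat_lit 188447) (nat_lit 22) (.e (nat_lit 196666) (nat_lit 13) (.e (nat_lit 65550) (nat_lit 0) (.e (nat_lit 1023) (nat_lit 81) (.e (nat_lit 5907) (nat_lit 320) .nil)))))))) (.g (nat_lit 4) .nil .nil)))) (.nd (nat_lit 5) 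
(.lf (nat_lit 18198) (.g (nat_lit 3500) (.e (nat_lit 1172) (nat_lit 87) (.e (nat_lit 57480) (nat_lit 28) (.e (nat_lit 557098) (nat_lit 13) (.e (nat_lit 172097) (nat_lit 9) (.e (nat_lit 426140) (nat_lit 3) (.e (nat_lit 204855) (nat_lit 26) (.e (nat_lit 335985) (nat_lit 1) (.e (nat_lit 57872) (nat_lit 264) .nil)))))))) (.g (nat_lit 6) .nil .nil))) 
(.lf (nat_lit 18230) (.g (nat_lit 2332) (.e (nat_lit 1172) (nat_lit 87) (.e (nat_lit 57480) (nat_lit 28) (.e (nat_lit 557107) (nat_lit 15) (.e (nat_lit 188450) (nat_lit 23) (.e (nat_lit 204872) (nat_lit 30) (.e (nat_lit 368662) (nat_lit 18) (.e (nat_lit 5906) (nat_lit 320) .nil))))))) (.g (nat_lit 4) .nil .nil))))) (.nd (nat_lit 4) (.nd (nat_lit 5) 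
(.lf (nat_lit 18190) (.g (nat_lit 3920) (.e (nat_lit 1172) (nat_lit 87) (.e (nat_lit 57480) (nat_lit 28) (.e (nat_lit 557098) (nat_lit 13) (.e (nat_lit 172097) (nat_lit 9) (.e (nat_lit 426125) (nat_lit 2) (.e (nat_lit 196666) (nat_lit 13) (.e (nat_lit 65563) (nat_lit 1) (.e (nat_lit 57872) (nat_lit 264) .nil)))))))) (.g (nat_lit 7) .nil .nil))) 
(.lf (nat_lit 18222) (.g (nat_lit 2305) (.e (nat_lit 1172) (nat_lit 87) (.e (nat_lit 57480) (nat_lit 28) (.e (nat_lit 557107) (nat_lit 15) (.e (nat_lit 188450) (nat_lit 23) (.e (nat_lit 204850) (nat_lit 26) (.e (nat_lit 335997) (nat_lit 1) (.e (nat_lit 57870) (nat_lit 264) .nil))))))) (.g (nat_lit 4) .nil .nil)))) (.nd (nat_lit 5) 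
(.lf (nat_lit 18206) (.g (nat_lit 3296) (.e (nat_lit 1172) (nat_lit 87) (.e (nat_lit 57480) (nat_lit 28) (.e (nat_lit 557098) (nat_lit 13) (.e (nat_lit 172115) (nat_lit 10) (.e (nat_lit 434231) (nat_lit 23) (.e (nat_lit 532543) (nat_lit 10) (.e (nat_lit 344097) (nat_lit 18) (.e (nat_lit 5905) (nat_lit 320) .nil)))))))) (.g (nat_lit 6) .nil .nil))) 
(.lf (nat_lit 18238) (.g (nat_lit 3780) (.e (nat_lit 1172) (nat_lit 87) (.e (nat_lit 57480) (nat_lit 28) (.e (nat_lit 557108) (nat_lit 15) (.e (nat_lit 188452) (nat_lit 23) (.e (nat_lit 204817) (nat_lit 17) .nil))))) .nil))))))) (.nd (nat_lit 1) (.nd (nat_lit 2) (.nd (nat_lit 3) (.nd (nat_lit 4) (.nd (nat_lit 5) 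
(.lf (nat_lit 18177) (.g (nat_lit 4877) (.e (nat_lit 1172) (nat_lit 87) (.e (nat_lit 57479) (nat_lit 28) (.e (nat_lit 557105) (nat_lit 14) (.e (nat_lit 180252) (nat_lit 10) (.e (nat_lit 573488) (nat_lit 14) (.e (nat_lit 73747) (nat_lit 3) (.e (nat_lit 516119) (nat_lit 1) (.e (nat_lit 164147) (nat_lit 152) .nil)))))))) (.g (nat_lit 6) .nil .nil))) 
(.lf (nat_lit 18209) (.g (nat_lit 4326) (.e (nat_lit 1172) (nat_lit 87) (.e (nat_lit 57480) (nat_lit 28) (.e (nat_lit 557098) (nat_lit 13) (.e (nat_lit 172115) (nat_lit 10) (.e (nat_lit 434231) (nat_lit 23) (.e (nat_lit 532554) (nat_lit 13) (.e (nat_lit 368662) (nat_lit 18) (.e (nat_lit 5906) (nat_lit 320) .nil)))))))) (.g (nat_lit 7) .nil .nil)))) (.nd (nat_lit 5) 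
(.lf (nat_lit 18193) (.g (nat_lit 2198) (.e (nat_lit 1172) (nat_lit 87) (.e (nat_lit 57480) (nat_lit 28) (.e (nat_lit 557098) (nat_lit 13) (.e (nat_lit 172097) (nat_lit 9) (.e (nat_lit 426140) (nat_lit 3) (.e (nat_lit 204850) (nat_lit 26) (.e (nat_lit 335997) (nat_lit 1) (.e (nat_lit 57871) (nat_lit 264) .nil)))))))) (.g (nat_lit 4) .nil .nil))) 
(.lf (nat_lit 18225) (.g (nat_lit 2880) (.e (nat_lit 1172) (nat_lit 87) (.e (nat_lit 57480) (nat_lit 28) (.e (nat_lit 557107) (nat_lit 15) (.e (nat_lit 188450) (nat_lit 23) (.e (nat_lit 204855) (nat_lit 26) (.e (nat_lit 335985) (nat_lit 1) (.e (nat_lit 57873) (nat_lit 264) .nil))))))) (.g (nat_lit 5) .nil .nil))))) (.nd (nat_lit 4) (.nd (nat_lit 5) 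
(.lf (nat_lit 18185) (.g (nat_lit 3484) (.e (nat_lit 1172) (nat_lit 87) (.e (nat_lit 57479) (nat_lit 28) (.e (nat_lit 557109) (nat_lit 15) (.e (nat_lit 188452) (nat_lit 23) (.e (nat_lit 204816) (nat_lit 17) (.e (nat_lit 6479) (nat_lit 343) (.e (nat_lit 1181) (nat_lit 87) (.e (nat_lit 57872) (nat_lit 264) .nil)))))))) (.g (nat_lit 4) .nil .nil))) 
(.lf (nat_lit 18217) (.g (nat_lit 2829) (.e (nat_lit 1172) (nat_lit 87) (.e (nat_lit 57480) (nat_lit 28) (.e (nat_lit 557107) (nat_lit 15) (.e (nat_lit 188447) (nat_lit 22) (.e (nat_lit 196668) (nat_lit 14) .nil))))) .nil))) (.nd (nat_lit 5) 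
(.lf (nat_lit 18201) (.g (nat_lit 4018) (.e (nat_lit 1172) (nat_lit 87) (.e (nat_lit 57480) (nat_lit 28) (.e (nat_lit 557098) (nat_lit 13) (.e (nat_lit 172097) (nat_lit 9) (.e (nat_lit 426140) (nat_lit 3) (.e (nat_lit 204862) (nat_lit 27) (.e (nat_lit 344097) (nat_lit 18) (.e (nat_lit 5906) (nat_lit 320) .nil)))))))) (.g (nat_lit 7) .nil .nil))) 
(.lf (nat_lit 18233) (.g (nat_lit 2661) (.e (nat_lit 1172) (nat_lit 87) (.e (nat_lit 57480) (nat_lit 28) (.e (nat_lit 557107) (nat_lit 15) (.e (nat_lit 188450) (nat_lit 23) (.e (nat_lit 204873) (nat_lit 30) (.e (nat_lit 368662) (nat_lit 18) (.e (nat_lit 5907) (nat_lit 320) .nil))))))) (.g (nat_lit 5) .nil .nil)))))) (.nd (nat_lit 3) (.nd (nat_lit 4) (.nd (nat_lit 5) 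
(.lf (nat_lit 18181) (.g (nat_lit 3856) (.e (nat_lit 1172) (nat_lit 87) (.e (nat_lit 57479) (nat_lit 28) (.e (nat_lit 557105) (nat_lit 14) (.e (nat_lit 180252) (nat_lit 10) (.e (nat_lit 573489) (nat_lit 14) (.e (nat_lit 73748) (nat_lit 3) (.e (nat_lit 516119) (nat_lit 1) (.e (nat_lit 164147) (nat_lit 152) .nil)))))))) (.g (nat_lit 6) .nil .nil))) 
(.lf (nat_lit 18213) (.g (nat_lit 2269) (.e (nat_lit 1172) (nat_lit 87) (.e (nat_lit 57480) (nat_lit 28) (.e (nat_lit 557107) (nat_lit 15) (.e (nat_lit 188447) (nat_lit 22) (.e (nat_lit 196666) (nat_lit 13) .nil))))) .nil))) (.nd (nat_lit 5) 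
(.lf (nat_lit 18197) (.g (nat_lit 2201) (.e (nat_lit 1172) (nat_lit 87) (.e (nat_lit 57480) (nat_lit 28) (.e (nat_lit 557098) (nat_lit 13) (.e (nat_lit 172097) (nat_lit 9) (.e (nat_lit 426140) (nat_lit 3) (.e (nat_lit 204855) (nat_lit 26) (.e (nat_lit 335985) (nat_lit 1) (.e (nat_lit 57871) (nat_lit 264) .nil)))))))) (.g (nat_lit 4) .nil .nil))) 
(.lf (nat_lit 18229) (.g (nat_lit 2893) (.e (nat_lit 1172) (nat_lit 87) (.e (nat_lit 57480) (nat_lit 28) (.e (nat_lit 557107) (nat_lit 15) (.e (nat_lit 188450) (nat_lit 23) (.e (nat_lit 204862) (nat_lit 27) (.e (nat_lit 344097) (nat_lit 18) (.e (nat_lit 5906) (nat_lit 320) .nil))))))) (.g (nat_lit 5) .nil .nil))))) (.nd (nat_lit 4) (.nd (nat_lit 5) 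
(.lf (nat_lit 18189) (.g (nat_lit 3836) (.e (nat_lit 1172) (nat_lit 87) (.e (nat_lit 57480) (nat_lit 28) (.e (nat_lit 557098) (nat_lit 13) (.e (nat_lit 172097) (nat_lit 9) (.e (nat_lit 426125) (nat_lit 2) (.e (nat_lit 196666) (nat_lit 13) (.e (nat_lit 65563) (nat_lit 1) (.e (nat_lit 57870) (nat_lit 264) .nil)))))))) (.g (nat_lit 6) .nil .nil))) 
(.lf (nat_lit 18221) (.g (nat_lit 1570) (.e (nat_lit 1172) (nat_lit 87) (.e (nat_lit 57480) (nat_lit 28) (.e (nat_lit 557107) (nat_lit 15) (.e (nat_lit 188450) (nat_lit 23) .nil)))) .nil))) (.nd (nat_lit 5) 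
(.lf (nat_lit 18205) (.g (nat_lit 3862) (.e (nat_lit 1172) (nat_lit 87) (.e (nat_lit 57480) (nat_lit 28) (.e (nat_lit 557098) (nat_lit 13) (.e (nat_lit 172115) (nat_lit 10) (.e (nat_lit 434231) (nat_lit 23) (.e (nat_lit 532535) (nat_lit 9) (.e (nat_lit 335985) (nat_lit 1) (.e (nat_lit 57870) (nat_lit 264) .nil)))))))) (.g (nat_lit 7) .nil .nil))) 
(.lf (nat_lit 18237) (.g (nat_lit 3179) (.e (nat_lit 1172) (nat_lit 87) (.e (nat_lit 57480) (nat_lit 28) (.e (nat_lit 557108) (nat_lit 15) (.e (nat_lit 188452) (nat_lit 23) (.e (nat_lit 204816) (nat_lit 17) (.e (nat_lit 6436) (nat_lit 343) (.e (nat_lit 1183) (nat_lit 87) (.e (nat_lit 57872) (nat_lit 264) .nil)))))))) (.g (nat_lit 5) .nil .nil))))))) 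
(.nd (nat_lit 2) (.nd (nat_lit 3) (.nd (nat_lit 4) (.nd (nat_lit 5) 
(.lf (nat_lit 18179) (.g (nat_lit 2398) (.e (nat_lit 1172) (nat_lit 87) (.e (nat_lit 57479) (nat_lit 28) (.e (nat_lit 557105) (nat_lit 14) (.e (nat_lit 180252) (nat_lit 10) (.e (nat_lit 573489) (nat_lit 14) (.e (nat_lit 73748) (nat_lit 3) (.e (nat_lit 516115) (nat_lit 1) (.e (nat_lit 164163) (nat_lit 152) .nil)))))))) (.g (nat_lit 4) .nil .nil))) 
(.lf (nat_lit 18211) (.g (nat_lit 2282) (.e (nat_lit 1172) (nat_lit 87) (.e (nat_lit 57480) (nat_lit 28) (.e (nat_lit 557105) (nat_lit 14) (.e (nat_lit 180252) (nat_lit 10) (.e (nat_lit 573488) (nat_lit 14) (.e (nat_lit 73747) (nat_lit 3) (.e (nat_lit 516119) (nat_lit 1) (.e (nat_lit 164163) (nat_lit 152) .nil)))))))) (.g (nat_lit 4) .nil .nil)))) (.nd (nat_lit 5) 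
(.lf (nat_lit 18195) (.g (nat_lit 2934) (.e (nat_lit 1172) (nat_lit 87) (.e (nat_lit 57480) (nat_lit 28) (.e (nat_lit 557098) (nat_lit 13) (.e (nat_lit 172097) (nat_lit 9) (.e (nat_lit 426140) (nat_lit 3) (.e (nat_lit 204855) (nat_lit 26) (.e (nat_lit 335923) (nat_lit 0) (.e (nat_lit 1023) (nat_lit 81) (.e (nat_lit 5906) (nat_lit 320) .nil))))))))) (.g (nat_lit 5) .nil .nil))) 
(.lf (nat_lit 18227) (.g (nat_lit 3368) (.e (nat_lit 1172) (nat_lit 87) (.e (nat_lit 57480) (nat_lit 28) (.e (nat_lit 557107) (nat_lit 15) (.e (nat_lit 188450) (nat_lit 23) (.e (nat_lit 204861) (nat_lit 26) (.e (nat_lit 335995) (nat_lit 1) (.e (nat_lit 57872) (nat_lit 264) .nil))))))) (.g (nat_lit 5) .nil .nil))))) (.nd (nat_lit 4) (.nd (nat_lit 5) 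
(.lf (nat_lit 18187) (.g (nat_lit 2317) (.e (nat_lit 1172) (nat_lit 87) (.e (nat_lit 57479) (nat_lit 28) (.e (nat_lit 557109) (nat_lit 15) (.e (nat_lit 188458) (nat_lit 25) .nil)))) .nil)) 
(.lf (nat_lit 18219) (.g (nat_lit 2959) (.e (nat_lit 1172) (nat_lit 87) (.e (nat_lit 57480) (nat_lit 28) (.e (nat_lit 557107) (nat_lit 15) (.e (nat_lit 188447) (nat_lit 22) (.e (nat_lit 196681) (nat_lit 17) (.e (nat_lit 131086) (nat_lit 1) (.e (nat_lit 57873) (nat_lit 264) .nil))))))) (.g (nat_lit 4) .nil .nil)))) (.nd (nat_lit 5) 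
(.lf (nat_lit 18203) (.g (nat_lit 4197) (.e (nat_lit 1172) (nat_lit 87) (.e (nat_lit 57480) (nat_lit 28) (.e (nat_lit 557098) (nat_lit 13) (.e (nat_lit 172097) (nat_lit 9) (.e (nat_lit 426140) (nat_lit 3) (.e (nat_lit 204863) (nat_lit 27) (.e (nat_lit 344097) (nat_lit 18) (.e (nat_lit 5906) (nat_lit 320) .nil)))))))) (.g (nat_lit 7) .nil .nil))) 
(.lf (nat_lit 18235) (.g (nat_lit 1707) (.e (nat_lit 1172) (nat_lit 87) (.e (nat_lit 57480) (nat_lit 28) (.e (nat_lit 557108) (nat_lit 15) (.e (nat_lit 188452) (nat_lit 23) .nil)))) .nil))))) (.nd (nat_lit 3) (.nd (nat_lit 4) (.nd (nat_lit 5) 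
(.lf (nat_lit 18183) (.g (nat_lit 2694) (.e (nat_lit 1172) (nat_lit 87) (.e (nat_lit 57479) (nat_lit 28) (.e (nat_lit 557109) (nat_lit 15) (.e (nat_lit 188452) (nat_lit 23) .nil)))) .nil)) 
(.lf (nat_lit 18215) (.g (nat_lit 3253) (.e (nat_lit 1172) (nat_lit 87) (.e (nat_lit 57480) (nat_lit 28) (.e (nat_lit 557107) (nat_lit 15) (.e (nat_lit 188447) (nat_lit 22) (.e (nat_lit 196666) (nat_lit 13) (.e (nat_lit 65563) (nat_lit 1) (.e (nat_lit 57873) (nat_lit 264) .nil))))))) (.g (nat_lit 5) .nil .nil)))) (.nd (nat_lit 5) 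
(.lf (nat_lit 18199) (.g (nat_lit 2018) (.e (nat_lit 1172) (nat_lit 87) (.e (nat_lit 57480) (nat_lit 28) (.e (nat_lit 557098) (nat_lit 13) (.e (nat_lit 172097) (nat_lit 9) (.e (nat_lit 426140) (nat_lit 3) (.e (nat_lit 204855) (nat_lit 26) (.e (nat_lit 335991) (nat_lit 1) (.e (nat_lit 57873) (nat_lit 264) .nil)))))))) (.g (nat_lit 4) .nil .nil))) 
(.lf (nat_lit 18231) (.g (nat_lit 2306) (.e (nat_lit 1172) (nat_lit 87) (.e (nat_lit 57480) (nat_lit 28) (.e (nat_lit 557107) (nat_lit 15) (.e (nat_lit 188450) (nat_lit 23) (.e (nat_lit 204872) (nat_lit 30) (.e (nat_lit 368662) (nat_lit 18) (.e (nat_lit 5907) (nat_lit 320) .nil))))))) (.g (nat_lit 4) .nil .nil))))) (.nd (nat_lit 4) (.nd (nat_lit 5) 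
(.lf (nat_lit 18191) (.g (nat_lit 3855) (.e (nat_lit 1172) (nat_lit 87) (.e (nat_lit 57480) (nat_lit 28) (.e (nat_lit 557098) (nat_lit 13) (.e (nat_lit 172097) (nat_lit 9) (.e (nat_lit 426125) (nat_lit 2) (.e (nat_lit 196666) (nat_lit 13) (.e (nat_lit 65565) (nat_lit 1) (.e (nat_lit 57872) (nat_lit 264) .nil)))))))) (.g (nat_lit 7) .nil .nil))) 
(.lf (nat_lit 18223) (.g (nat_lit 2445) (.e (nat_lit 1172) (nat_lit 87) (.e (nat_lit 57480) (nat_lit 28) (.e (nat_lit 557107) (nat_lit 15) (.e (nat_lit 188450) (nat_lit 23) (.e (nat_lit 204850) (nat_lit 26) (.e (nat_lit 335997) (nat_lit 1) (.e (nat_lit 57872) (nat_lit 264) .nil))))))) (.g (nat_lit 4) .nil .nil)))) (.nd (nat_lit 5) 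
(.lf (nat_lit 18207) (.g (nat_lit 4406) (.e (nat_lit 1172) (nat_lit 87) (.e (nat_lit 57480) (nat_lit 28) (.e (nat_lit 557098) (nat_lit 13) (.e (nat_lit 172115) (nat_lit 10) (.e (nat_lit 434231) (nat_lit 23) (.e (nat_lit 532543) (nat_lit 10) (.e (nat_lit 344097) (nat_lit 18) (.e (nat_lit 5907) (nat_lit 320) .nil)))))))) (.g (nat_lit 8) .nil .nil))) 
(.lf (nat_lit 18239) (.g (nat_lit 3274) (.e (nat_lit 1172) (nat_lit 87) (.e (nat_lit 57480) (nat_lit 28) (.e (nat_lit 557108) (nat_lit 15) (.e (nat_lit 188452) (nat_lit 23) (.e (nat_lit 204849) (nat_lit 25) (.e (nat_lit 327692) (nat_lit 1) (.e (nat_lit 8439) (nat_lit 138) .nil))))))) (.g (nat_lit 4) .nil .nil)))))))))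

noncomputable def tv251 : DT := (.nd (nat_lit 0) (.nd (nat_lit 1) (.nd (nat_lit 2) (.nd (nat_lit 3) (.nd (nat_lit 4) (.nd (nat_lit 5) 
(.lf (nat_lit 18240) (.g (nat_lit 3361) (.e (nat_lit 1172) (nat_lit 87) (.e (nat_lit 57480) (nat_lit 28) (.e (nat_lit 557108) (nat_lit 15) (.e (nat_lit 188452) (nat_lit 23) (.e (nat_lit 204850) (nat_lit 26) .nil))))) .nil)) 
(.lf (nat_lit 18272) (.g (nat_lit 4038) (.e (nat_lit 1172) (nat_lit 87) (.e (nat_lit 57480) (nat_lit 28) (.e (nat_lit 557109) (nat_lit 15) (.e (nat_lit 188452) (nat_lit 23) (.e (nat_lit 204817) (nat_lit 17) .nil))))) .nil))) (.nd (nat_lit 5) 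
(.lf (nat_lit 18256) (.g (nat_lit 3729) (.e (nat_lit 1172) (nat_lit 87) (.e (nat_lit 57480) (nat_lit 28) (.e (nat_lit 557109) (nat_lit 15) (.e (nat_lit 188449) (nat_lit 22) (.e (nat_lit 196666) (nat_lit 13) (.e (nat_lit 65563) (nat_lit 1) (.e (nat_lit 57873) (nat_lit 264) .nil))))))) (.g (nat_lit 5) .nil .nil))) 
(.lf (nat_lit 18288) (.g (nat_lit 4310) (.e (nat_lit 1172) (nat_lit 87) (.e (nat_lit 57480) (nat_lit 28) (.e (nat_lit 557109) (nat_lit 15) (.e (nat_lit 188452) (nat_lit 23) (.e (nat_lit 204863) (nat_lit 27) (.e (nat_lit 344097) (nat_lit 18) (.e (nat_lit 5907) (nat_lit 320) .nil))))))) (.g (nat_lit 6) .nil .nil))))) (.nd (nat_lit 4) (.nd (nat_lit 5) 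
(.lf (nat_lit 18248) (.g (nat_lit 3702) (.e (nat_lit 1172) (nat_lit 87) (.e (nat_lit 57480) (nat_lit 28) (.e (nat_lit 557109) (nat_lit 15) (.e (nat_lit 188447) (nat_lit 22) (.e (nat_lit 196666) (nat_lit 13) .nil))))) .nil)) 
(.lf (nat_lit 18280) (.g (nat_lit 4063) (.e (nat_lit 1172) (nat_lit 87) (.e (nat_lit 57480) (nat_lit 28) (.e (nat_lit 557109) (nat_lit 15) (.e (nat_lit 188452) (nat_lit 23) (.e (nat_lit 204856) (nat_lit 26) (.e (nat_lit 335997) (nat_lit 1) (.e (nat_lit 57872) (nat_lit 264) .nil))))))) (.g (nat_lit 5) .nil .nil)))) (.nd (nat_lit 5) 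
(.lf (nat_lit 18264) (.g (nat_lit 3771) (.e (nat_lit 1172) (nat_lit 87) (.e (nat_lit 57480) (nat_lit 28) (.e (nat_lit 557109) (nat_lit 15) (.e (nat_lit 188450) (nat_lit 23) (.e (nat_lit 204855) (nat_lit 26) .nil))))) .nil)) 
(.lf (nat_lit 18296) (.g (nat_lit 2262) (.e (nat_lit 1172) (nat_lit 87) (.e (nat_lit 57480) (nat_lit 28) (.e (nat_lit 557109) (nat_lit 15) (.e (nat_lit 188458) (nat_lit 25) .nil)))) .nil))))) (.nd (nat_lit 3) (.nd (nat_lit 4) (.nd (nat_lit 5) 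
(.lf (nat_lit 18244) (.g (nat_lit 3899) (.e (nat_lit 1172) (nat_lit 87) (.e (nat_lit 57480) (nat_lit 28) (.e (nat_lit 557108) (nat_lit 15) (.e (nat_lit 188452) (nat_lit 23) (.e (nat_lit 212736) (nat_lit 26) .nil))))) .nil)) 
(.lf (nat_lit 18276) (.g (nat_lit 3257) (.e (nat_lit 1172) (nat_lit 87) (.e (nat_lit 57480) (nat_lit 28) (.e (nat_lit 557109) (nat_lit 15) (.e (nat_lit 188452) (nat_lit 23) (.e (nat_lit 204850) (nat_lit 26) (.e (nat_lit 335997) (nat_lit 1) (.e (nat_lit 57872) (nat_lit 264) .nil))))))) (.g (nat_lit 5) .nil .nil)))) (.nd (nat_lit 5) 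
(.lf (nat_lit 18260) (.g (nat_lit 4912) (.e (nat_lit 1172) (nat_lit 87) (.e (nat_lit 57480) (nat_lit 28) (.e (nat_lit 557109) (nat_lit 15) (.e (nat_lit 188449) (nat_lit 22) (.e (nat_lit 196681) (nat_lit 17) (.e (nat_lit 131088) (nat_lit 1) (.e (nat_lit 57870) (nat_lit 264) .nil))))))) (.g (nat_lit 4) .nil .nil))) 
(.lf (nat_lit 18292) (.g (nat_lit 3384) (.e (nat_lit 1172) (nat_lit 87) (.e (nat_lit 57480) (nat_lit 28) (.e (nat_lit 557109) (nat_lit 15) (.e (nat_lit 188452) (nat_lit 23) (.e (nat_lit 204872) (nat_lit 30) (.e (nat_lit 368662) (nat_lit 18) (.e (nat_lit 5907) (nat_lit 320) .nil))))))) (.g (nat_lit 5) .nil .nil))))) (.nd (nat_lit 4) (.nd (nat_lit 5) 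
(.lf (nat_lit 18252) (.g (nat_lit 2497) (.e (nat_lit 1172) (nat_lit 87) (.e (nat_lit 57480) (nat_lit 28) (.e (nat_lit 557109) (nat_lit 15) (.e (nat_lit 188449) (nat_lit 22) (.e (nat_lit 196630) (nat_lit 9) (.e (nat_lit 1499) (nat_lit 108) (.e (nat_lit 335995) (nat_lit 1) (.e (nat_lit 57872) (nat_lit 264) .nil)))))))) (.g (nat_lit 4) .nil .nil))) 
(.lf (nat_lit 18284) (.g (nat_lit 5990) (.e (nat_lit 1172) (nat_lit 87) (.e (nat_lit 57480) (nat_lit 28) (.e (nat_lit 557109) (nat_lit 15) (.e (nat_lit 188452) (nat_lit 23) (.e (nat_lit 204861) (nat_lit 26) (.e (nat_lit 335995) (nat_lit 1) (.e (nat_lit 57872) (nat_lit 264) .nil))))))) (.g (nat_lit 5) .nil .nil)))) (.nd (nat_lit 5) 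
(.lf (nat_lit 18268) (.g (nat_lit 3735) (.e (nat_lit 1172) (nat_lit 87) (.e (nat_lit 57480) (nat_lit 28) (.e (nat_lit 557109) (nat_lit 15) (.e (nat_lit 188450) (nat_lit 23) (.e (nat_lit 204862) (nat_lit 27) .nil))))) .nil)) 
(.lf (nat_lit 18300) (.g (nat_lit 3483) (.e (nat_lit 1172) (nat_lit 87) (.e (nat_lit 57480) (nat_lit 28) (.e (nat_lit 557109) (nat_lit 15) (.e (nat_lit 188458) (nat_lit 25) (.e (nat_lit 245784) (nat_lit 9) (.e (nat_lit 1520) (nat_lit 108) (.e (nat_lit 335995) (nat_lit 1) (.e (nat_lit 57872) (nat_lit 264) .nil)))))))) (.g (nat_lit 4) .nil .nil))))))) 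
(.nd (nat_lit 2) (.nd (nat_lit 3) (.nd (nat_lit 4) (.nd (nat_lit 5) 
(.lf (nat_lit 18242) (.g (nat_lit 3873) (.e (nat_lit 1172) (nat_lit 87) (.e (nat_lit 57480) (nat_lit 28) (.e (nat_lit 557108) (nat_lit 15) (.e (nat_lit 188452) (nat_lit 23) (.e (nat_lit 204852) (nat_lit 26) (.e (nat_lit 343808) (nat_lit 1) (.e (nat_lit 57872) (nat_lit 264) .nil))))))) (.g (nat_lit 5) .nil .nil))) 
(.lf (nat_lit 18274) (.g (nat_lit 4077) (.e (nat_lit 1172) (nat_lit 87) (.e (nat_lit 57480) (nat_lit 28) (.e (nat_lit 557109) (nat_lit 15) (.e (nat_lit 188452) (nat_lit 23) (.e (nat_lit 204821) (nat_lit 17) .nil))))) .nil))) (.nd (nat_lit 5) 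
(.lf (nat_lit 18258) (.g (nat_lit 4424) (.e (nat_lit 1172) (nat_lit 87) (.e (nat_lit 57480) (nat_lit 28) (.e (nat_lit 557109) (nat_lit 15) (.e (nat_lit 188449) (nat_lit 22) (.e (nat_lit 196670) (nat_lit 14) (.e (nat_lit 73732) (nat_lit 0) (.e (nat_lit 5907) (nat_lit 320) .nil))))))) (.g (nat_lit 5) .nil .nil))) 
(.lf (nat_lit 18290) (.g (nat_lit 4817) (.e (nat_lit 1172) (nat_lit 87) (.e (nat_lit 57480) (nat_lit 28) (.e (nat_lit 557109) (nat_lit 15) (.e (nat_lit 188452) (nat_lit 23) (.e (nat_lit 204864) (nat_lit 27) (.e (nat_lit 344097) (nat_lit 18) (.e (nat_lit 5907) (nat_lit 320) .nil))))))) (.g (nat_lit 6) .nil .nil))))) (.nd (nat_lit 4) (.nd (nat_lit 5) 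
(.lf (nat_lit 18250) (.g (nat_lit 4065) (.e (nat_lit 1172) (nat_lit 87) (.e (nat_lit 57480) (nat_lit 28) (.e (nat_lit 557109) (nat_lit 15) (.e (nat_lit 188447) (nat_lit 22) (.e (nat_lit 196681) (nat_lit 17) .nil))))) .nil)) 
(.lf (nat_lit 18282) (.g (nat_lit 4606) (.e (nat_lit 1172) (nat_lit 87) (.e (nat_lit 57480) (nat_lit 28) (.e (nat_lit 557109) (nat_lit 15) (.e (nat_lit 188452) (nat_lit 23) (.e (nat_lit 204858) (nat_lit 26) .nil))))) .nil))) (.nd (nat_lit 5) 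
(.lf (nat_lit 18266) (.g (nat_lit 4033) (.e (nat_lit 1172) (nat_lit 87) (.e (nat_lit 57480) (nat_lit 28) (.e (nat_lit 557109) (nat_lit 15) (.e (nat_lit 188450) (nat_lit 23) (.e (nat_lit 204861) (nat_lit 26) .nil))))) .nil)) 
(.lf (nat_lit 18298) (.g (nat_lit 3434) (.e (nat_lit 1172) (nat_lit 87) (.e (nat_lit 57480) (nat_lit 28) (.e (nat_lit 557109) (nat_lit 15) (.e (nat_lit 188458) (nat_lit 25) (.e (nat_lit 245784) (nat_lit 9) (.e (nat_lit 1413) (nat_lit 108) (.e (nat_lit 335997) (nat_lit 1) (.e (nat_lit 57870) (nat_lit 264) .nil)))))))) (.g (nat_lit 4) .nil .nil)))))) 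
(.nd (nat_lit 3) (.nd (nat_lit 4) (.nd (nat_lit 5) 
(.lf (nat_lit 18246) (.g (nat_lit 3235) (.e (nat_lit 1172) (nat_lit 87) (.e (nat_lit 57480) (nat_lit 28) (.e (nat_lit 557108) (nat_lit 15) (.e (nat_lit 188452) (nat_lit 23) (.e (nat_lit 204873) (nat_lit 30) .nil))))) .nil)) 
(.lf (nat_lit 18278) (.g (nat_lit 2589) (.e (nat_lit 1172) (nat_lit 87) (.e (nat_lit 57480) (nat_lit 28) (.e (nat_lit 557109) (nat_lit 15) (.e (nat_lit 188452) (nat_lit 23) (.e (nat_lit 204855) (nat_lit 26) .nil))))) .nil))) (.nd (nat_lit 5) 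
(.lf (nat_lit 18262) (.g (nat_lit 2268) (.e (nat_lit 1172) (nat_lit 87) (.e (nat_lit 57480) (nat_lit 28) (.e (nat_lit 557109) (nat_lit 15) (.e (nat_lit 188450) (nat_lit 23) .nil)))) .nil)) 
(.lf (nat_lit 18294) (.g (nat_lit 3673) (.e (nat_lit 1172) (nat_lit 87) (.e (nat_lit 57480) (nat_lit 28) (.e (nat_lit 557109) (nat_lit 15) (.e (nat_lit 188452) (nat_lit 23) (.e (nat_lit 204874) (nat_lit 30) .nil))))) .nil)))) (.nd (nat_lit 4) (.nd (nat_lit 5) 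
(.lf (nat_lit 18254) (.g (nat_lit 2751) (.e (nat_lit 1172) (nat_lit 87) (.e (nat_lit 57480) (nat_lit 28) (.e (nat_lit 557109) (nat_lit 15) (.e (nat_lit 188449) (nat_lit 22) (.e (nat_lit 196666) (nat_lit 13) (.e (nat_lit 65546) (nat_lit 0) (.e (nat_lit 1023) (nat_lit 81) (.e (nat_lit 5905) (nat_lit 320) .nil)))))))) (.g (nat_lit 4) .nil .nil))) 
(.lf (nat_lit 18286) (.g (nat_lit 4153) (.e (nat_lit 1172) (nat_lit 87) (.e (nat_lit 57480) (nat_lit 28) (.e (nat_lit 557109) (nat_lit 15) (.e (nat_lit 188452) (nat_lit 23) (.e (nat_lit 204862) (nat_lit 27) (.e (nat_lit 344097) (nat_lit 18) (.e (nat_lit 5907) (nat_lit 320) .nil))))))) (.g (nat_lit 6) .nil .nil)))) (.nd (nat_lit 5) 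
(.lf (nat_lit 18270) (.g (nat_lit 3998) (.e (nat_lit 1172) (nat_lit 87) (.e (nat_lit 57480) (nat_lit 28) (.e (nat_lit 557109) (nat_lit 15) (.e (nat_lit 188450) (nat_lit 23) (.e (nat_lit 204872) (nat_lit 30) .nil))))) .nil)) 
(.lf (nat_lit 18302) (.g (nat_lit 1456) (.e (nat_lit 1172) (nat_lit 87) (.e (nat_lit 57520) (nat_lit 44) (.e (nat_lit 688177) (nat_lit 16) (.e (nat_lit 65581) (nat_lit 7) .nil)))) .nil))))))) (.nd (nat_lit 1) (.nd (nat_lit 2) (.nd (nat_lit 3) (.nd (nat_lit 4) (.nd (nat_lit 5) 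
(.lf (nat_lit 18241) (.g (nat_lit 3187) (.e (nat_lit 1172) (nat_lit 87) (.e (nat_lit 57480) (nat_lit 28) (.e (nat_lit 557108) (nat_lit 15) (.e (nat_lit 188452) (nat_lit 23) (.e (nat_lit 204852) (nat_lit 26) .nil))))) .nil)) 
(.lf (nat_lit 18273) (.g (nat_lit 4482) (.e (nat_lit 1172) (nat_lit 87) (.e (nat_lit 57480) (nat_lit 28) (.e (nat_lit 557109) (nat_lit 15) (.e (nat_lit 188452) (nat_lit 23) (.e (nat_lit 204817) (nat_lit 17) (.e (nat_lit 7936) (nat_lit 343) (.e (nat_lit 1183) (nat_lit 87) (.e (nat_lit 57872) (nat_lit 264) .nil)))))))) (.g (nat_lit 5) .nil .nil)))) (.nd (nat_lit 5) 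
(.lf (nat_lit 18257) (.g (nat_lit 3845) (.e (nat_lit 1172) (nat_lit 87) (.e (nat_lit 57480) (nat_lit 28) (.e (nat_lit 557109) (nat_lit 15) (.e (nat_lit 188449) (nat_lit 22) (.e (nat_lit 196670) (nat_lit 14) (.e (nat_lit 73732) (nat_lit 0) (.e (nat_lit 5905) (nat_lit 320) .nil))))))) (.g (nat_lit 4) .nil .nil))) 
(.lf (nat_lit 18289) (.g (nat_lit 2784) (.e (nat_lit 1172) (nat_lit 87) (.e (nat_lit 57480) (nat_lit 28) (.e (nat_lit 557109) (nat_lit 15) (.e (nat_lit 188452) (nat_lit 23) (.e (nat_lit 204864) (nat_lit 27) .nil))))) .nil)))) (.nd (nat_lit 4) (.nd (nat_lit 5) 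
(.lf (nat_lit 18249) (.g (nat_lit 3444) (.e (nat_lit 1172) (nat_lit 87) (.e (nat_lit 57480) (nat_lit 28) (.e (nat_lit 557109) (nat_lit 15) (.e (nat_lit 188447) (nat_lit 22) (.e (nat_lit 196668) (nat_lit 14) .nil))))) .nil)) 
(.lf (nat_lit 18281) (.g (nat_lit 4235) (.e (nat_lit 1172) (nat_lit 87) (.e (nat_lit 57480) (nat_lit 28) (.e (nat_lit 557109) (nat_lit 15) (.e (nat_lit 188452) (nat_lit 23) (.e (nat_lit 204857) (nat_lit 26) .nil))))) .nil))) (.nd (nat_lit 5) 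
(.lf (nat_lit 18265) (.g (nat_lit 4003) (.e (nat_lit 1172) (nat_lit 87) (.e (nat_lit 57480) (nat_lit 28) (.e (nat_lit 557109) (nat_lit 15) (.e (nat_lit 188450) (nat_lit 23) (.e (nat_lit 204859) (nat_lit 26) .nil))))) .nil)) 
(.lf (nat_lit 18297) (.g (nat_lit 3740) (.e (nat_lit 1172) (nat_lit 87) (.e (nat_lit 57480) (nat_lit 28) (.e (nat_lit 557109) (nat_lit 15) (.e (nat_lit 188458) (nat_lit 25) (.e (nat_lit 245782) (nat_lit 9) .nil))))) .nil))))) (.nd (nat_lit 3) (.nd (nat_lit 4) (.nd (nat_lit 5) 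
(.lf (nat_lit 18245) (.g (nat_lit 2862) (.e (nat_lit 1172) (nat_lit 87) (.e (nat_lit 57480) (nat_lit 28) (.e (nat_lit 557108) (nat_lit 15) (.e (nat_lit 188452) (nat_lit 23) (.e (nat_lit 204872) (nat_lit 30) .nil))))) .nil)) 
(.lf (nat_lit 18277) (.g (nat_lit 3101) (.e (nat_lit 1172) (nat_lit 87) (.e (nat_lit 57480) (nat_lit 28) (.e (nat_lit 557109) (nat_lit 15) (.e (nat_lit 188452) (nat_lit 23) (.e (nat_lit 204852) (nat_lit 26) (.e (nat_lit 343808) (nat_lit 1) (.e (nat_lit 57872) (nat_lit 264) .nil))))))) (.g (nat_lit 4) .nil .nil)))) (.nd (nat_lit 5) 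
(.lf (nat_lit 18261) (.g (nat_lit 5021) (.e (nat_lit 1172) (nat_lit 87) (.e (nat_lit 57480) (nat_lit 28) (.e (nat_lit 557109) (nat_lit 15) (.e (nat_lit 188449) (nat_lit 22) (.e (nat_lit 196681) (nat_lit 17) (.e (nat_lit 131088) (nat_lit 1) (.e (nat_lit 57873) (nat_lit 264) .nil))))))) (.g (nat_lit 4) .nil .nil))) 
(.lf (nat_lit 18293) (.g (nat_lit 3888) (.e (nat_lit 1172) (nat_lit 87) (.e (nat_lit 57480) (nat_lit 28) (.e (nat_lit 557109) (nat_lit 15) (.e (nat_lit 188452) (nat_lit 23) (.e (nat_lit 204873) (nat_lit 30) (.e (nat_lit 368662) (nat_lit 18) (.e (nat_lit 5907) (nat_lit 320) .nil))))))) (.g (nat_lit 5) .nil .nil))))) (.nd (nat_lit 4) (.nd (nat_lit 5) 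
(.lf (nat_lit 18253) (.g (nat_lit 2494) (.e (nat_lit 1172) (nat_lit 87) (.e (nat_lit 57480) (nat_lit 28) (.e (nat_lit 557109) (nat_lit 15) (.e (nat_lit 188449) (nat_lit 22) (.e (nat_lit 196666) (nat_lit 13) .nil))))) .nil)) 
(.lf (nat_lit 18285) (.g (nat_lit 3344) (.e (nat_lit 1172) (nat_lit 87) (.e (nat_lit 57480) (nat_lit 28) (.e (nat_lit 557109) (nat_lit 15) (.e (nat_lit 188452) (nat_lit 23) (.e (nat_lit 212736) (nat_lit 26) .nil))))) .nil))) (.nd (nat_lit 5) 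
(.lf (nat_lit 18269) (.g (nat_lit 3737) (.e (nat_lit 1172) (nat_lit 87) (.e (nat_lit 57480) (nat_lit 28) (.e (nat_lit 557109) (nat_lit 15) (.e (nat_lit 188450) (nat_lit 23) (.e (nat_lit 204863) (nat_lit 27) .nil))))) .nil)) 
(.lf (nat_lit 18301) (.g (nat_lit 3648) (.e (nat_lit 1172) (nat_lit 87) (.e (nat_lit 57480) (nat_lit 28) (.e (nat_lit 557109) (nat_lit 15) (.e (nat_lit 188458) (nat_lit 25) (.e (nat_lit 245791) (nat_lit 14) .nil))))) .nil)))))) (.nd (nat_lit 2) (.nd (nat_lit 3) (.nd (nat_lit 4) (.nd (nat_lit 5) 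
(.lf (nat_lit 18243) (.g (nat_lit 5234) (.e (nat_lit 1172) (nat_lit 87) (.e (nat_lit 57480) (nat_lit 28) (.e (nat_lit 557108) (nat_lit 15) (.e (nat_lit 188452) (nat_lit 23) (.e (nat_lit 204859) (nat_lit 26) .nil))))) .nil)) 
(.lf (nat_lit 18275) (.g (nat_lit 4625) (.e (nat_lit 1172) (nat_lit 87) (.e (nat_lit 57480) (nat_lit 28) (.e (nat_lit 557109) (nat_lit 15) (.e (nat_lit 188452) (nat_lit 23) (.e (nat_lit 204821) (nat_lit 17) (.e (nat_lit 7936) (nat_lit 343) (.e (nat_lit 1181) (nat_lit 87) (.e (nat_lit 57872) (nat_lit 264) .nil)))))))) (.g (nat_lit 5) .nil .nil)))) (.nd (nat_lit 5) 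
(.lf (nat_lit 18259) (.g (nat_lit 4996) (.e (nat_lit 1172) (nat_lit 87) (.e (nat_lit 57480) (nat_lit 28) (.e (nat_lit 557109) (nat_lit 15) (.e (nat_lit 188449) (nat_lit 22) (.e (nat_lit 196681) (nat_lit 17) (.e (nat_lit 131086) (nat_lit 1) (.e (nat_lit 57870) (nat_lit 264) .nil))))))) (.g (nat_lit 4) .nil .nil))) 
(.lf (nat_lit 18291) (.g (nat_lit 3413) (.e (nat_lit 1172) (nat_lit 87) (.e (nat_lit 57480) (nat_lit 28) (.e (nat_lit 557109) (nat_lit 15) (.e (nat_lit 188452) (nat_lit 23) (.e (nat_lit 204872) (nat_lit 30) (.e (nat_lit 368662) (nat_lit 18) (.e (nat_lit 5906) (nat_lit 320) .nil))))))) (.g (nat_lit 5) .nil .nil))))) (.nd (nat_lit 4) (.nd (nat_lit 5) 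
(.lf (nat_lit 18251) (.g (nat_lit 2478) (.e (nat_lit 1172) (nat_lit 87) (.e (nat_lit 57480) (nat_lit 28) (.e (nat_lit 557109) (nat_lit 15) (.e (nat_lit 188449) (nat_lit 22) (.e (nat_lit 196630) (nat_lit 9) .nil))))) .nil)) 
(.lf (nat_lit 18283) (.g (nat_lit 4762) (.e (nat_lit 1172) (nat_lit 87) (.e (nat_lit 57480) (nat_lit 28) (.e (nat_lit 557109) (nat_lit 15) (.e (nat_lit 188452) (nat_lit 23) (.e (nat_lit 204860) (nat_lit 26) .nil))))) .nil))) (.nd (nat_lit 5) 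
(.lf (nat_lit 18267) (.g (nat_lit 4245) (.e (nat_lit 1172) (nat_lit 87) (.e (nat_lit 57480) (nat_lit 28) (.e (nat_lit 557109) (nat_lit 15) (.e (nat_lit 188450) (nat_lit 23) (.e (nat_lit 204861) (nat_lit 26) (.e (nat_lit 335995) (nat_lit 1) (.e (nat_lit 57872) (nat_lit 264) .nil))))))) (.g (nat_lit 4) .nil .nil))) 
(.lf (nat_lit 18299) (.g (nat_lit 3476) (.e (nat_lit 1172) (nat_lit 87) (.e (nat_lit 57480) (nat_lit 28) (.e (nat_lit 557109) (nat_lit 15) (.e (nat_lit 188458) (nat_lit 25) (.e (nat_lit 245784) (nat_lit 9) (.e (nat_lit 1413) (nat_lit 108) (.e (nat_lit 335997) (nat_lit 1) (.e (nat_lit 57872) (nat_lit 264) .nil)))))))) (.g (nat_lit 4) .nil .nil)))))) 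
(.nd (nat_lit 3) (.nd (nat_lit 4) (.nd (nat_lit 5) 
(.lf (nat_lit 18247) (.g (nat_lit 3201) (.e (nat_lit 1172) (nat_lit 87) (.e (nat_lit 57480) (nat_lit 28) (.e (nat_lit 557108) (nat_lit 15) (.e (nat_lit 188452) (nat_lit 23) (.e (nat_lit 204874) (nat_lit 30) .nil))))) .nil)) 
(.lf (nat_lit 18279) (.g (nat_lit 3711) (.e (nat_lit 1172) (nat_lit 87) (.e (nat_lit 57480) (nat_lit 28) (.e (nat_lit 557109) (nat_lit 15) (.e (nat_lit 188452) (nat_lit 23) (.e (nat_lit 204855) (nat_lit 26) (.e (nat_lit 335985) (nat_lit 1) (.e (nat_lit 57873) (nat_lit 264) .nil))))))) (.g (nat_lit 6) .nil .nil)))) (.nd (nat_lit 5) 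
(.lf (nat_lit 18263) (.g (nat_lit 3871) (.e (nat_lit 1172) (nat_lit 87) (.e (nat_lit 57480) (nat_lit 28) (.e (nat_lit 557109) (nat_lit 15) (.e (nat_lit 188450) (nat_lit 23) (.e (nat_lit 204850) (nat_lit 26) .nil))))) .nil)) 
(.lf (nat_lit 18295) (.g (nat_lit 4354) (.e (nat_lit 1172) (nat_lit 87) (.e (nat_lit 57480) (nat_lit 28) (.e (nat_lit 557109) (nat_lit 15) (.e (nat_lit 188452) (nat_lit 23) (.e (nat_lit 204874) (nat_lit 30) (.e (nat_lit 368662) (nat_lit 18) (.e (nat_lit 5907) (nat_lit 320) .nil))))))) (.g (nat_lit 5) .nil .nil))))) (.nd (nat_lit 4) (.nd (nat_lit 5) 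
(.lf (nat_lit 18255) (.g (nat_lit 2507) (.e (nat_lit 1172) (nat_lit 87) (.e (nat_lit 57480) (nat_lit 28) (.e (nat_lit 557109) (nat_lit 15) (.e (nat_lit 188449) (nat_lit 22) (.e (nat_lit 196666) (nat_lit 13) (.e (nat_lit 65546) (nat_lit 0) (.e (nat_lit 1023) (nat_lit 81) (.e (nat_lit 5907) (nat_lit 320) .nil)))))))) (.g (nat_lit 4) .nil .nil))) 
(.lf (nat_lit 18287) (.g (nat_lit 2522) (.e (nat_lit 1172) (nat_lit 87) (.e (nat_lit 57480) (nat_lit 28) (.e (nat_lit 557109) (nat_lit 15) (.e (nat_lit 188452) (nat_lit 23) (.e (nat_lit 204863) (nat_lit 27) .nil))))) .nil))) (.nd (nat_lit 5) 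
(.lf (nat_lit 18271) (.g (nat_lit 3957) (.e (nat_lit 1172) (nat_lit 87) (.e (nat_lit 57480) (nat_lit 28) (.e (nat_lit 557109) (nat_lit 15) (.e (nat_lit 188450) (nat_lit 23) (.e (nat_lit 204873) (nat_lit 30) .nil))))) .nil)) 
(.lf (nat_lit 18303) (.g (nat_lit 1578) (.e (nat_lit 1172) (nat_lit 87) (.e (nat_lit 57520) (nat_lit 44) (.e (nat_lit 688177) (nat_lit 16) (.e (nat_lit 65583) (nat_lit 7) (.e (nat_lit 319530) (nat_lit 16) (.e (nat_lit 286751) (nat_lit 10) (.e (nat_lit 344097) (nat_lit 18) (.e (nat_lit 5906) (nat_lit 320) .nil)))))))) (.g (nat_lit 4) .nil .nil)))))))))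

noncomputable def tv252 : DT := (.nd (nat_lit 0) (.nd (nat_lit 1) (.nd (nat_lit 2) (.nd (nat_lit 3) (.nd (nat_lit 4) (.nd (nat_lit 5) 
(.lf (nat_lit 18304) (.g (nat_lit 2271) (.e (nat_lit 1172) (nat_lit 87) (.e (nat_lit 57520) (nat_lit 44) (.e (nat_lit 688177) (nat_lit 16) (.e (nat_lit 65586) (nat_lit 7) (.e (nat_lit 319531) (nat_lit 16) (.e (nat_lit 286748) (nat_lit 9) (.e (nat_lit 335997) (nat_lit 1) (.e (nat_lit 57872) (nat_lit 264) .nil)))))))) (.g (nat_lit 5) .nil .nil))) 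
(.lf (nat_lit 18336) (.g (nat_lit 4024) (.e (nat_lit 1173) (nat_lit 87) (.e (nat_lit 57477) (nat_lit 28) (.e (nat_lit 557108) (nat_lit 15) (.e (nat_lit 188449) (nat_lit 22) (.e (nat_lit 196667) (nat_lit 14) .nil))))) .nil))) (.nd (nat_lit 5) 
(.lf (nat_lit 18320) (.g (nat_lit 2255) (.e (nat_lit 1172) (nat_lit 87) (.e (nat_lit 57854) (nat_lit 252) (.e (nat_lit 57409) (nat_lit 12) (.e (nat_lit 336211) (nat_lit 13) (.e (nat_lit 393291) (nat_lit 26) (.e (nat_lit 475201) (nat_lit 40) (.e (nat_lit 704620) (nat_lit 9) .nil))))))) (.g (nat_lit 4) .nil .nil))) 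
(.lf (nat_lit 18352) (.g (nat_lit 4591) (.e (nat_lit 1173) (nat_lit 87) (.e (nat_lit 57479) (nat_lit 28) (.e (nat_lit 557101) (nat_lit 13) (.e (nat_lit 172097) (nat_lit 9) (.e (nat_lit 426125) (nat_lit 2) (.e (nat_lit 196666) (nat_lit 13) (.e (nat_lit 65574) (nat_lit 4) (.e (nat_lit 123184) (nat_lit 264) .nil)))))))) (.g (nat_lit 0) .nil .nil))))) (.nd (nat_lit 4) (.nd (nat_lit 5) 
(.lf (nat_lit 18312) (.g (nat_lit 1814) (.e (nat_lit 1172) (nat_lit 87) (.e (nat_lit 57852) (nat_lit 252) (.e (nat_lit 57409) (nat_lit 12) (.e (nat_lit 336211) (nat_lit 13) (.e (nat_lit 393291) (nat_lit 26) (.e (nat_lit 475201) (nat_lit 40) (.e (nat_lit 704620) (nat_lit 9) .nil))))))) (.g (nat_lit 4) .nil .nil))) 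
(.lf (nat_lit 18344) (.g (nat_lit 2996) (.e (nat_lit 1173) (nat_lit 87) (.e (nat_lit 57479) (nat_lit 28) (.e (nat_lit 557100) (nat_lit 13) (.e (nat_lit 172106) (nat_lit 10) (.e (nat_lit 434231) (nat_lit 23) (.e (nat_lit 532527) (nat_lit 9) (.e (nat_lit 336032) (nat_lit 4) (.e (nat_lit 123183) (nat_lit 264) .nil)))))))) (.g (nat_lit 6) .nil .nil)))) (.nd (nat_lit 5) 
(.lf (nat_lit 18328) (.g (nat_lit 2774) (.e (nat_lit 1173) (nat_lit 87) (.e (nat_lit 57477) (nat_lit 28) (.e (nat_lit 557107) (nat_lit 15) (.e (nat_lit 188447) (nat_lit 22) (.e (nat_lit 196666) (nat_lit 13) (.e (nat_lit 65572) (nat_lit 4) (.e (nat_lit 123183) (nat_lit 264) .nil))))))) (.g (nat_lit 0) .nil .nil))) 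
(.lf (nat_lit 18360) (.g (nat_lit 2473) (.e (nat_lit 1173) (nat_lit 87) (.e (nat_lit 57479) (nat_lit 28) (.e (nat_lit 557103) (nat_lit 14) (.e (nat_lit 180250) (nat_lit 10) (.e (nat_lit 573482) (nat_lit 13) (.e (nat_lit 73472) (nat_lit 18) (.e (nat_lit 204830) (nat_lit 18) (.e (nat_lit 57830) (nat_lit 250) .nil)))))))) (.g (nat_lit 4) .nil .nil)))))) 
(.nd (nat_lit 3) (.nd (nat_lit 4) (.nd (nat_lit 5) 
(.lf (nat_lit 18308) (.g (nat_lit 1932) (.e (nat_lit 1172) (nat_lit 87) (.e (nat_lit 57521) (nat_lit 44) (.e (nat_lit 688177) (nat_lit 16) (.e (nat_lit 65586) (nat_lit 7) (.e (nat_lit 319533) (nat_lit 16) .nil))))) .nil)) 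
(.lf (nat_lit 18340) (.g (nat_lit 2424) (.e (nat_lit 1173) (nat_lit 87) (.e (nat_lit 57477) (nat_lit 28) (.e (nat_lit 557108) (nat_lit 15) (.e (nat_lit 188452) (nat_lit 23) (.e (nat_lit 204859) (nat_lit 26) .nil))))) .nil))) (.nd (nat_lit 5) 
(.lf (nat_lit 18324) (.g (nat_lit 3105) (.e (nat_lit 1173) (nat_lit 87) (.e (nat_lit 57477) (nat_lit 28) (.e (nat_lit 557097) (nat_lit 13) (.e (nat_lit 172097) (nat_lit 9) (.e (nat_lit 426125) (nat_lit 2) (.e (nat_lit 196666) (nat_lit 13) (.e (nat_lit 65573) (nat_lit 4) (.e (nat_lit 123182) (nat_lit 264) .nil)))))))) (.g (nat_lit 6) .nil .nil))) 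
(.lf (nat_lit 18356) (.g (nat_lit 825) (.e (nat_lit 1173) (nat_lit 87) (.e (nat_lit 57479) (nat_lit 28) (.e (nat_lit 557103) (nat_lit 14) .nil))) .nil)))) (.nd (nat_lit 4) (.nd (nat_lit 5) 
(.lf (nat_lit 18316) (.g (nat_lit 1697) (.e (nat_lit 1172) (nat_lit 87) (.e (nat_lit 57852) (nat_lit 252) (.e (nat_lit 57436) (nat_lit 17) (.e (nat_lit 376842) (nat_lit 11) (.e (nat_lit 426306) (nat_lit 12) .nil))))) .nil)) 
(.lf (nat_lit 18348) (.g (nat_lit 3946) (.e (nat_lit 1173) (nat_lit 87) (.e (nat_lit 57479) (nat_lit 28) (.e (nat_lit 557101) (nat_lit 13) (.e (nat_lit 172097) (nat_lit 9) (.e (nat_lit 426125) (nat_lit 2) (.e (nat_lit 196666) (nat_lit 13) (.e (nat_lit 65573) (nat_lit 4) (.e (nat_lit 123182) (nat_lit 264) .nil)))))))) (.g (nat_lit 7) .nil .nil)))) (.nd (nat_lit 5) 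
(.lf (nat_lit 18332) (.g (nat_lit 4224) (.e (nat_lit 1173) (nat_lit 87) (.e (nat_lit 57477) (nat_lit 28) (.e (nat_lit 557108) (nat_lit 15) (.e (nat_lit 188449) (nat_lit 22) (.e (nat_lit 196663) (nat_lit 13) .nil))))) .nil)) 
(.lf (nat_lit 18364) (.g (nat_lit 2377) (.e (nat_lit 1173) (nat_lit 87) (.e (nat_lit 57479) (nat_lit 28) (.e (nat_lit 557105) (nat_lit 14) (.e (nat_lit 180251) (nat_lit 10) (.e (nat_lit 573485) (nat_lit 13) (.e (nat_lit 65570) (nat_lit 3) (.e (nat_lit 98333) (nat_lit 18) (.e (nat_lit 164153) (nat_lit 152) .nil)))))))) (.g (nat_lit 4) .nil .nil))))))) 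
(.nd (nat_lit 2) (.nd (nat_lit 3) (.nd (nat_lit 4) (.nd (nat_lit 5) 
(.lf (nat_lit 18306) (.g (nat_lit 2934) (.e (nat_lit 1172) (nat_lit 87) (.e (nat_lit 57520) (nat_lit 44) (.e (nat_lit 688177) (nat_lit 16) (.e (nat_lit 65586) (nat_lit 7) (.e (nat_lit 319534) (nat_lit 16) (.e (nat_lit 286749) (nat_lit 9) (.e (nat_lit 335997) (nat_lit 1) (.e (nat_lit 57872) (nat_lit 264) .nil)))))))) (.g (nat_lit 5) .nil .nil))) 
(.lf (nat_lit 18338) (.g (nat_lit 4241) (.e (nat_lit 1173) (nat_lit 87) (.e (nat_lit 57477) (nat_lit 28) (.e (nat_lit 557108) (nat_lit 15) (.e (nat_lit 188449) (nat_lit 22) (.e (nat_lit 196669) (nat_lit 14) .nil))))) .nil))) (.nd (nat_lit 5) 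
(.lf (nat_lit 18322) (.g (nat_lit 1836) (.e (nat_lit 1172) (nat_lit 87) (.e (nat_lit 57926) (nat_lit 282) (.e (nat_lit 163869) (nat_lit 2) (.e (nat_lit 196670) (nat_lit 14) (.e (nat_lit 73746) (nat_lit 3) (.e (nat_lit 516131) (nat_lit 3) (.e (nat_lit 221212) (nat_lit 22) (.e (nat_lit 196617) (nat_lit 9) .nil)))))))) (.g (nat_lit 4) .nil .nil))) 
(.lf (nat_lit 18354) (.g (nat_lit 3872) (.e (nat_lit 1173) (nat_lit 87) (.e (nat_lit 57479) (nat_lit 28) (.e (nat_lit 557101) (nat_lit 13) (.e (nat_lit 172097) (nat_lit 9) (.e (nat_lit 426140) (nat_lit 3) (.e (nat_lit 204855) (nat_lit 26) (.e (nat_lit 336030) (nat_lit 4) (.e (nat_lit 123183) (nat_lit 264) .nil)))))))) (.g (nat_lit 0) .nil .nil))))) (.nd (nat_lit 4) (.nd (nat_lit 5) 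
(.lf (nat_lit 18314) (.g (nat_lit 1711) (.e (nat_lit 1172) (nat_lit 87) (.e (nat_lit 57852) (nat_lit 252) (.e (nat_lit 57435) (nat_lit 17) (.e (nat_lit 376842) (nat_lit 11) (.e (nat_lit 426306) (nat_lit 12) .nil))))) .nil)) 
(.lf (nat_lit 18346) (.g (nat_lit 3095) (.e (nat_lit 1173) (nat_lit 87) (.e (nat_lit 57479) (nat_lit 28) (.e (nat_lit 557100) (nat_lit 13) (.e (nat_lit 172106) (nat_lit 10) (.e (nat_lit 434231) (nat_lit 23) (.e (nat_lit 532529) (nat_lit 9) (.e (nat_lit 343808) (nat_lit 4) (.e (nat_lit 123184) (nat_lit 264) .nil)))))))) (.g (nat_lit 6) .nil .nil)))) (.nd (nat_lit 5) 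
(.lf (nat_lit 18330) (.g (nat_lit 1929) (.e (nat_lit 1173) (nat_lit 87) (.e (nat_lit 57477) (nat_lit 28) (.e (nat_lit 557107) (nat_lit 15) (.e (nat_lit 188447) (nat_lit 22) (.e (nat_lit 196668) (nat_lit 14) .nil))))) .nil)) 
(.lf (nat_lit 18362) (.g (nat_lit 1533) (.e (nat_lit 1173) (nat_lit 87) (.e (nat_lit 57479) (nat_lit 28) (.e (nat_lit 557105) (nat_lit 14) (.e (nat_lit 180251) (nat_lit 10) .nil)))) .nil))))) (.nd (nat_lit 3) (.nd (nat_lit 4) (.nd (nat_lit 5) 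
(.lf (nat_lit 18310) (.g (nat_lit 765) (.e (nat_lit 1172) (nat_lit 87) (.e (nat_lit 57852) (nat_lit 252) (.e (nat_lit 57409) (nat_lit 12) .nil))) .nil)) 
(.lf (nat_lit 18342) (.g (nat_lit 1859) (.e (nat_lit 1173) (nat_lit 87) (.e (nat_lit 57479) (nat_lit 28) (.e (nat_lit 557095) (nat_lit 13) (.e (nat_lit 172115) (nat_lit 10) .nil)))) .nil))) (.nd (nat_lit 5) 
(.lf (nat_lit 18326) (.g (nat_lit 3010) (.e (nat_lit 1173) (nat_lit 87) (.e (nat_lit 57477) (nat_lit 28) (.e (nat_lit 557097) (nat_lit 13) (.e (nat_lit 172097) (nat_lit 9) (.e (nat_lit 426140) (nat_lit 3) (.e (nat_lit 204855) (nat_lit 26) (.e (nat_lit 336030) (nat_lit 4) (.e (nat_lit 123183) (nat_lit 264) .nil)))))))) (.g (nat_lit 0) .nil .nil))) 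
(.lf (nat_lit 18358) (.g (nat_lit 2216) (.e (nat_lit 1173) (nat_lit 87) (.e (nat_lit 57479) (nat_lit 28) (.e (nat_lit 557103) (nat_lit 14) (.e (nat_lit 180250) (nat_lit 10) (.e (nat_lit 573482) (nat_lit 13) .nil))))) .nil)))) (.nd (nat_lit 4) (.nd (nat_lit 5) 
(.lf (nat_lit 18318) (.g (nat_lit 2056) (.e (nat_lit 1172) (nat_lit 87) (.e (nat_lit 57854) (nat_lit 252) (.e (nat_lit 57409) (nat_lit 12) (.e (nat_lit 336211) (nat_lit 13) (.e (nat_lit 393268) (nat_lit 23) .nil))))) .nil)) 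
(.lf (nat_lit 18350) (.g (nat_lit 4502) (.e (nat_lit 1173) (nat_lit 87) (.e (nat_lit 57479) (nat_lit 28) (.e (nat_lit 557101) (nat_lit 13) (.e (nat_lit 172097) (nat_lit 9) (.e (nat_lit 426125) (nat_lit 2) (.e (nat_lit 196666) (nat_lit 13) (.e (nat_lit 65574) (nat_lit 4) (.e (nat_lit 123182) (nat_lit 264) .nil)))))))) (.g (nat_lit 0) .nil .nil)))) (.nd (nat_lit 5) 
(.lf (nat_lit 18334) (.g (nat_lit 3284) (.e (nat_lit 1173) (nat_lit 87) (.e (nat_lit 57477) (nat_lit 28) (.e (nat_lit 557108) (nat_lit 15) (.e (nat_lit 188449) (nat_lit 22) (.e (nat_lit 196666) (nat_lit 13) (.e (nat_lit 65574) (nat_lit 4) (.e (nat_lit 123184) (nat_lit 264) .nil))))))) (.g (nat_lit 0) .nil .nil))) 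
(.lf (nat_lit 18366) (.g (nat_lit 2707) (.e (nat_lit 1173) (nat_lit 87) (.e (nat_lit 57479) (nat_lit 28) (.e (nat_lit 557105) (nat_lit 14) (.e (nat_lit 180252) (nat_lit 10) (.e (nat_lit 573480) (nat_lit 13) .nil))))) .nil))))))) (.nd (nat_lit 1) (.nd (nat_lit 2) (.nd (nat_lit 3) (.nd (nat_lit 4) (.nd (nat_lit 5) 
(.lf (nat_lit 18305) (.g (nat_lit 2893) (.e (nat_lit 1172) (nat_lit 87) (.e (nat_lit 57520) (nat_lit 44) (.e (nat_lit 688177) (nat_lit 16) (.e (nat_lit 65586) (nat_lit 7) (.e (nat_lit 319531) (nat_lit 16) (.e (nat_lit 286751) (nat_lit 10) (.e (nat_lit 344097) (nat_lit 18) (.e (nat_lit 5907) (nat_lit 320) .nil)))))))) (.g (nat_lit 5) .nil .nil))) 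
(.lf (nat_lit 18337) (.g (nat_lit 2562) (.e (nat_lit 1173) (nat_lit 87) (.e (nat_lit 57477) (nat_lit 28) (.e (nat_lit 557108) (nat_lit 15) (.e (nat_lit 188449) (nat_lit 22) (.e (nat_lit 196668) (nat_lit 14) .nil))))) .nil))) (.nd (nat_lit 5) 
(.lf (nat_lit 18321) (.g (nat_lit 689) (.e (nat_lit 1172) (nat_lit 87) (.e (nat_lit 57854) (nat_lit 252) (.e (nat_lit 57436) (nat_lit 17) .nil))) .nil)) 
(.lf (nat_lit 18353) (.g (nat_lit 3995) (.e (nat_lit 1173) (nat_lit 87) (.e (nat_lit 57479) (nat_lit 28) (.e (nat_lit 557101) (nat_lit 13) (.e (nat_lit 172097) (nat_lit 9) (.e (nat_lit 426125) (nat_lit 2) (.e (nat_lit 196666) (nat_lit 13) (.e (nat_lit 65574) (nat_lit 4) (.e (nat_lit 123185) (nat_lit 264) .nil)))))))) (.g (nat_lit 0) .nil .nil))))) (.nd (nat_lit 4) (.nd (nat_lit 5) 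
(.lf (nat_lit 18313) (.g (nat_lit 2856) (.e (nat_lit 1172) (nat_lit 87) (.e (nat_lit 57852) (nat_lit 252) (.e (nat_lit 57435) (nat_lit 17) (.e (nat_lit 376842) (nat_lit 11) (.e (nat_lit 426188) (nat_lit 9) (.e (nat_lit 426444) (nat_lit 19) (.e (nat_lit 106520) (nat_lit 9) .nil))))))) (.g (nat_lit 5) .nil .nil))) 
(.lf (nat_lit 18345) (.g (nat_lit 3848) (.e (nat_lit 1173) (nat_lit 87) (.e (nat_lit 57479) (nat_lit 28) (.e (nat_lit 557100) (nat_lit 13) (.e (nat_lit 172106) (nat_lit 10) (.e (nat_lit 434231) (nat_lit 23) (.e (nat_lit 532527) (nat_lit 9) (.e (nat_lit 336032) (nat_lit 4) (.e (nat_lit 123184) (nat_lit 264) .nil)))))))) (.g (nat_lit 0) .nil .nil)))) (.nd (nat_lit 5) 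
(.lf (nat_lit 18329) (.g (nat_lit 3302) (.e (nat_lit 1173) (nat_lit 87) (.e (nat_lit 57477) (nat_lit 28) (.e (nat_lit 557107) (nat_lit 15) (.e (nat_lit 188447) (nat_lit 22) (.e (nat_lit 196666) (nat_lit 13) (.e (nat_lit 65574) (nat_lit 4) (.e (nat_lit 123184) (nat_lit 264) .nil))))))) (.g (nat_lit 0) .nil .nil))) 
(.lf (nat_lit 18361) (.g (nat_lit 3148) (.e (nat_lit 1173) (nat_lit 87) (.e (nat_lit 57479) (nat_lit 28) (.e (nat_lit 557103) (nat_lit 14) (.e (nat_lit 180250) (nat_lit 10) (.e (nat_lit 573487) (nat_lit 14) (.e (nat_lit 73747) (nat_lit 3) (.e (nat_lit 516115) (nat_lit 1) (.e (nat_lit 164153) (nat_lit 152) .nil)))))))) (.g (nat_lit 5) .nil .nil)))))) 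
(.nd (nat_lit 3) (.nd (nat_lit 4) (.nd (nat_lit 5) 
(.lf (nat_lit 18309) (.g (nat_lit 2909) (.e (nat_lit 1172) (nat_lit 87) (.e (nat_lit 57521) (nat_lit 44) (.e (nat_lit 688177) (nat_lit 16) (.e (nat_lit 65586) (nat_lit 7) (.e (nat_lit 319534) (nat_lit 16) (.e (nat_lit 286756) (nat_lit 10) (.e (nat_lit 344097) (nat_lit 18) (.e (nat_lit 5907) (nat_lit 320) .nil)))))))) (.g (nat_lit 5) .nil .nil))) 
(.lf (nat_lit 18341) (.g (nat_lit 2020) (.e (nat_lit 1173) (nat_lit 87) (.e (nat_lit 57479) (nat_lit 28) (.e (nat_lit 557095) (nat_lit 13) (.e (nat_lit 172097) (nat_lit 9) .nil)))) .nil))) (.nd (nat_lit 5) 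
(.lf (nat_lit 18325) (.g (nat_lit 3716) (.e (nat_lit 1173) (nat_lit 87) (.e (nat_lit 57477) (nat_lit 28) (.e (nat_lit 557097) (nat_lit 13) (.e (nat_lit 172097) (nat_lit 9) (.e (nat_lit 426125) (nat_lit 2) (.e (nat_lit 196666) (nat_lit 13) (.e (nat_lit 65574) (nat_lit 4) (.e (nat_lit 123184) (nat_lit 264) .nil)))))))) (.g (nat_lit 0) .nil .nil))) 
(.lf (nat_lit 18357) (.g (nat_lit 2407) (.e (nat_lit 1173) (nat_lit 87) (.e (nat_lit 57479) (nat_lit 28) (.e (nat_lit 557103) (nat_lit 14) (.e (nat_lit 180250) (nat_lit 10) (.e (nat_lit 573480) (nat_lit 13) .nil))))) .nil)))) (.nd (nat_lit 4) (.nd (nat_lit 5) 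
(.lf (nat_lit 18317) (.g (nat_lit 1661) (.e (nat_lit 1172) (nat_lit 87) (.e (nat_lit 57854) (nat_lit 252) (.e (nat_lit 57409) (nat_lit 12) (.e (nat_lit 336211) (nat_lit 13) .nil)))) .nil)) 
(.lf (nat_lit 18349) (.g (nat_lit 4514) (.e (nat_lit 1173) (nat_lit 87) (.e (nat_lit 57479) (nat_lit 28) (.e (nat_lit 557101) (nat_lit 13) (.e (nat_lit 172097) (nat_lit 9) (.e (nat_lit 426125) (nat_lit 2) (.e (nat_lit 196666) (nat_lit 13) (.e (nat_lit 65573) (nat_lit 4) (.e (nat_lit 123183) (nat_lit 264) .nil)))))))) (.g (nat_lit 0) .nil .nil)))) (.nd (nat_lit 5) 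
(.lf (nat_lit 18333) (.g (nat_lit 2816) (.e (nat_lit 1173) (nat_lit 87) (.e (nat_lit 57477) (nat_lit 28) (.e (nat_lit 557108) (nat_lit 15) (.e (nat_lit 188449) (nat_lit 22) (.e (nat_lit 196666) (nat_lit 13) (.e (nat_lit 65572) (nat_lit 4) (.e (nat_lit 123183) (nat_lit 264) .nil))))))) (.g (nat_lit 0) .nil .nil))) 
(.lf (nat_lit 18365) (.g (nat_lit 2455) (.e (nat_lit 1173) (nat_lit 87) (.e (nat_lit 57479) (nat_lit 28) (.e (nat_lit 557105) (nat_lit 14) (.e (nat_lit 180251) (nat_lit 10) (.e (nat_lit 573485) (nat_lit 13) (.e (nat_lit 65570) (nat_lit 3) (.e (nat_lit 98333) (nat_lit 18) (.e (nat_lit 164155) (nat_lit 152) .nil)))))))) (.g (nat_lit 4) .nil .nil))))))) 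
(.nd (nat_lit 2) (.nd (nat_lit 3) (.nd (nat_lit 4) (.nd (nat_lit 5) 
(.lf (nat_lit 18307) (.g (nat_lit 1784) (.e (nat_lit 1172) (nat_lit 87) (.e (nat_lit 57521) (nat_lit 44) (.e (nat_lit 688177) (nat_lit 16) (.e (nat_lit 65586) (nat_lit 7) (.e (nat_lit 319531) (nat_lit 16) .nil))))) .nil)) 
(.lf (nat_lit 18339) (.g (nat_lit 2943) (.e (nat_lit 1173) (nat_lit 87) (.e (nat_lit 57477) (nat_lit 28) (.e (nat_lit 557108) (nat_lit 15) (.e (nat_lit 188452) (nat_lit 23) (.e (nat_lit 204855) (nat_lit 26) (.e (nat_lit 336030) (nat_lit 4) (.e (nat_lit 123183) (nat_lit 264) .nil))))))) (.g (nat_lit 0) .nil .nil)))) (.nd (nat_lit 5) 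
(.lf (nat_lit 18323) (.g (nat_lit 3383) (.e (nat_lit 1173) (nat_lit 87) (.e (nat_lit 57477) (nat_lit 28) (.e (nat_lit 557097) (nat_lit 13) (.e (nat_lit 172097) (nat_lit 9) (.e (nat_lit 426125) (nat_lit 2) (.e (nat_lit 196666) (nat_lit 13) (.e (nat_lit 65572) (nat_lit 4) (.e (nat_lit 123183) (nat_lit 264) .nil)))))))) (.g (nat_lit 0) .nil .nil))) 
(.lf (nat_lit 18355) (.g (nat_lit 4154) (.e (nat_lit 1173) (nat_lit 87) (.e (nat_lit 57479) (nat_lit 28) (.e (nat_lit 557101) (nat_lit 13) (.e (nat_lit 172115) (nat_lit 10) (.e (nat_lit 434231) (nat_lit 23) (.e (nat_lit 532535) (nat_lit 9) (.e (nat_lit 336030) (nat_lit 4) (.e (nat_lit 123183) (nat_lit 264) .nil)))))))) (.g (nat_lit 0) .nil .nil))))) (.nd (nat_lit 4) (.nd (nat_lit 5) 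
(.lf (nat_lit 18315) (.g (nat_lit 2803) (.e (nat_lit 1172) (nat_lit 87) (.e (nat_lit 57852) (nat_lit 252) (.e (nat_lit 57436) (nat_lit 17) (.e (nat_lit 376842) (nat_lit 11) (.e (nat_lit 426188) (nat_lit 9) (.e (nat_lit 426444) (nat_lit 19) (.e (nat_lit 106520) (nat_lit 9) .nil))))))) (.g (nat_lit 5) .nil .nil))) 
(.lf (nat_lit 18347) (.g (nat_lit 4243) (.e (nat_lit 1173) (nat_lit 87) (.e (nat_lit 57479) (nat_lit 28) (.e (nat_lit 557101) (nat_lit 13) (.e (nat_lit 172097) (nat_lit 9) (.e (nat_lit 426125) (nat_lit 2) (.e (nat_lit 196666) (nat_lit 13) (.e (nat_lit 65572) (nat_lit 4) (.e (nat_lit 123183) (nat_lit 264) .nil)))))))) (.g (nat_lit 0) .nil .nil)))) (.nd (nat_lit 5) 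
(.lf (nat_lit 18331) (.g (nat_lit 2399) (.e (nat_lit 1173) (nat_lit 87) (.e (nat_lit 57477) (nat_lit 28) (.e (nat_lit 557107) (nat_lit 15) (.e (nat_lit 188450) (nat_lit 23) (.e (nat_lit 204855) (nat_lit 26) (.e (nat_lit 336030) (nat_lit 4) (.e (nat_lit 123183) (nat_lit 264) .nil))))))) (.g (nat_lit 0) .nil .nil))) 
(.lf (nat_lit 18363) (.g (nat_lit 2436) (.e (nat_lit 1173) (nat_lit 87) (.e (nat_lit 57479) (nat_lit 28) (.e (nat_lit 557105) (nat_lit 14) (.e (nat_lit 180251) (nat_lit 10) (.e (nat_lit 573479) (nat_lit 13) .nil))))) .nil))))) (.nd (nat_lit 3) (.nd (nat_lit 4) (.nd (nat_lit 5) 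
(.lf (nat_lit 18311) (.g (nat_lit 1935) (.e (nat_lit 1172) (nat_lit 87) (.e (nat_lit 57852) (nat_lit 252) (.e (nat_lit 57409) (nat_lit 12) (.e (nat_lit 336211) (nat_lit 13) (.e (nat_lit 393268) (nat_lit 23) (.e (nat_lit 426444) (nat_lit 19) (.e (nat_lit 106520) (nat_lit 9) .nil))))))) (.g (nat_lit 4) .nil .nil))) 
(.lf (nat_lit 18343) (.g (nat_lit 2573) (.e (nat_lit 1173) (nat_lit 87) (.e (nat_lit 57479) (nat_lit 28) (.e (nat_lit 557095) (nat_lit 13) (.e (nat_lit 172115) (nat_lit 10) (.e (nat_lit 434231) (nat_lit 23) (.e (nat_lit 532535) (nat_lit 9) (.e (nat_lit 336030) (nat_lit 4) (.e (nat_lit 123183) (nat_lit 264) .nil)))))))) (.g (nat_lit 4) .nil .nil)))) (.nd (nat_lit 5) 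
(.lf (nat_lit 18327) (.g (nat_lit 3564) (.e (nat_lit 1173) (nat_lit 87) (.e (nat_lit 57477) (nat_lit 28) (.e (nat_lit 557097) (nat_lit 13) (.e (nat_lit 172115) (nat_lit 10) (.e (nat_lit 434231) (nat_lit 23) (.e (nat_lit 532535) (nat_lit 9) (.e (nat_lit 336030) (nat_lit 4) (.e (nat_lit 123183) (nat_lit 264) .nil)))))))) (.g (nat_lit 0) .nil .nil))) 
(.lf (nat_lit 18359) (.g (nat_lit 2262) (.e (nat_lit 1173) (nat_lit 87) (.e (nat_lit 57479) (nat_lit 28) (.e (nat_lit 557103) (nat_lit 14) (.e (nat_lit 180250) (nat_lit 10) (.e (nat_lit 573482) (nat_lit 13) (.e (nat_lit 65637) (nat_lit 15) (.e (nat_lit 3253) (nat_lit 197) (.e (nat_lit 532501) (nat_lit 1) (.e (nat_lit 57830) (nat_lit 250) .nil))))))))) (.g (nat_lit 4) .nil .nil))))) 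
(.nd (nat_lit 4) (.nd (nat_lit 5) 
(.lf (nat_lit 18319) (.g (nat_lit 2350) (.e (nat_lit 1172) (nat_lit 87) (.e (nat_lit 57854) (nat_lit 252) (.e (nat_lit 57409) (nat_lit 12) (.e (nat_lit 336211) (nat_lit 13) (.e (nat_lit 393268) (nat_lit 23) (.e (nat_lit 426444) (nat_lit 19) (.e (nat_lit 106520) (nat_lit 9) .nil))))))) (.g (nat_lit 5) .nil .nil))) 
(.lf (nat_lit 18351) (.g (nat_lit 4405) (.e (nat_lit 1173) (nat_lit 87) (.e (nat_lit 57479) (nat_lit 28) (.e (nat_lit 557101) (nat_lit 13) (.e (nat_lit 172097) (nat_lit 9) (.e (nat_lit 426125) (nat_lit 2) (.e (nat_lit 196666) (nat_lit 13) (.e (nat_lit 65574) (nat_lit 4) (.e (nat_lit 123183) (nat_lit 264) .nil)))))))) (.g (nat_lit 0) .nil .nil)))) (.nd (nat_lit 5) 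
(.lf (nat_lit 18335) (.g (nat_lit 2703) (.e (nat_lit 1173) (nat_lit 87) (.e (nat_lit 57477) (nat_lit 28) (.e (nat_lit 557108) (nat_lit 15) (.e (nat_lit 188449) (nat_lit 22) (.e (nat_lit 196666) (nat_lit 13) (.e (nat_lit 65574) (nat_lit 4) (.e (nat_lit 123185) (nat_lit 264) .nil))))))) (.g (nat_lit 0) .nil .nil))) 
(.lf (nat_lit 18367) (.g (nat_lit 2911) (.e (nat_lit 1173) (nat_lit 87) (.e (nat_lit 57479) (nat_lit 28) (.e (nat_lit 557105) (nat_lit 14) (.e (nat_lit 180252) (nat_lit 10) (.e (nat_lit 573480) (nat_lit 13) (.e (nat_lit 65637) (nat_lit 15) (.e (nat_lit 3253) (nat_lit 197) (.e (nat_lit 532504) (nat_lit 1) (.e (nat_lit 57829) (nat_lit 250) .nil))))))))) (.g (nat_lit 4) .nil .nil)))))))))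

noncomputable def tv253 : DT := (.nd (nat_lit 0) (.nd (nat_lit 1) (.nd (nat_lit 2) (.nd (nat_lit 3) (.nd (nat_lit 4) (.nd (nat_lit 5) 
(.lf (nat_lit 18368) (.g (nat_lit 3193) (.e (nat_lit 1173) (nat_lit 87) (.e (nat_lit 57479) (nat_lit 28) (.e (nat_lit 557105) (nat_lit 14) (.e (nat_lit 180252) (nat_lit 10) (.e (nat_lit 573481) (nat_lit 13) .nil))))) .nil)) 
(.lf (nat_lit 18400) (.g (nat_lit 3786) (.e (nat_lit 1173) (nat_lit 87) (.e (nat_lit 57480) (nat_lit 28) (.e (nat_lit 557098) (nat_lit 13) (.e (nat_lit 172097) (nat_lit 9) (.e (nat_lit 426140) (nat_lit 3) (.e (nat_lit 204855) (nat_lit 26) (.e (nat_lit 336030) (nat_lit 4) (.e (nat_lit 123183) (nat_lit 264) .nil)))))))) (.g (nat_lit 0) .nil .nil)))) (.nd (nat_lit 5) 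
(.lf (nat_lit 18384) (.g (nat_lit 3001) (.e (nat_lit 1173) (nat_lit 87) (.e (nat_lit 57479) (nat_lit 28) (.e (nat_lit 557105) (nat_lit 14) (.e (nat_lit 180252) (nat_lit 10) (.e (nat_lit 573489) (nat_lit 14) (.e (nat_lit 73755) (nat_lit 8) (.e (nat_lit 557089) (nat_lit 12) (.e (nat_lit 163846) (nat_lit 0) (.e (nat_lit 5077) (nat_lit 292) .nil))))))))) (.g (nat_lit 6) .nil .nil))) 
(.lf (nat_lit 18416) (.g (nat_lit 3865) (.e (nat_lit 1173) (nat_lit 87) (.e (nat_lit 57480) (nat_lit 28) (.e (nat_lit 557107) (nat_lit 15) (.e (nat_lit 188447) (nat_lit 22) (.e (nat_lit 196666) (nat_lit 13) (.e (nat_lit 65574) (nat_lit 4) (.e (nat_lit 123184) (nat_lit 264) .nil))))))) (.g (nat_lit 0) .nil .nil))))) (.nd (nat_lit 4) (.nd (nat_lit 5) 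
(.lf (nat_lit 18376) (.g (nat_lit 3255) (.e (nat_lit 1173) (nat_lit 87) (.e (nat_lit 57479) (nat_lit 28) (.e (nat_lit 557105) (nat_lit 14) (.e (nat_lit 180252) (nat_lit 10) (.e (nat_lit 573488) (nat_lit 14) .nil))))) .nil)) 
(.lf (nat_lit 18408) (.g (nat_lit 1915) (.e (nat_lit 1173) (nat_lit 87) (.e (nat_lit 57480) (nat_lit 28) (.e (nat_lit 557105) (nat_lit 14) (.e (nat_lit 180252) (nat_lit 10) (.e (nat_lit 573488) (nat_lit 14) .nil))))) .nil))) (.nd (nat_lit 5) 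
(.lf (nat_lit 18392) (.g (nat_lit 3905) (.e (nat_lit 1173) (nat_lit 87) (.e (nat_lit 57479) (nat_lit 28) (.e (nat_lit 557109) (nat_lit 15) (.e (nat_lit 188452) (nat_lit 23) (.e (nat_lit 204849) (nat_lit 25) .nil))))) .nil)) 
(.lf (nat_lit 18424) (.g (nat_lit 2562) (.e (nat_lit 1173) (nat_lit 87) (.e (nat_lit 57480) (nat_lit 28) (.e (nat_lit 557108) (nat_lit 15) (.e (nat_lit 188452) (nat_lit 23) (.e (nat_lit 204816) (nat_lit 17) (.e (nat_lit 6434) (nat_lit 343) (.e (nat_lit 1288) (nat_lit 95) (.e (nat_lit 123182) (nat_lit 264) .nil)))))))) (.g (nat_lit 4) .nil .nil)))))) 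
(.nd (nat_lit 3) (.nd (nat_lit 4) (.nd (nat_lit 5) 
(.lf (nat_lit 18372) (.g (nat_lit 2927) (.e (nat_lit 1173) (nat_lit 87) (.e (nat_lit 57479) (nat_lit 28) (.e (nat_lit 557105) (nat_lit 14) (.e (nat_lit 180252) (nat_lit 10) (.e (nat_lit 573487) (nat_lit 14) .nil))))) .nil)) 
(.lf (nat_lit 18404) (.g (nat_lit 2358) (.e (nat_lit 1173) (nat_lit 87) (.e (nat_lit 57480) (nat_lit 28) (.e (nat_lit 557105) (nat_lit 14) (.e (nat_lit 180252) (nat_lit 10) (.e (nat_lit 573480) (nat_lit 13) .nil))))) .nil))) (.nd (nat_lit 5) 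
(.lf (nat_lit 18388) (.g (nat_lit 1714) (.e (nat_lit 1173) (nat_lit 87) (.e (nat_lit 57479) (nat_lit 28) (.e (nat_lit 557107) (nat_lit 15) (.e (nat_lit 196352) (nat_lit 18) .nil)))) .nil)) 
(.lf (nat_lit 18420) (.g (nat_lit 2958) (.e (nat_lit 1173) (nat_lit 87) (.e (nat_lit 57480) (nat_lit 28) (.e (nat_lit 557107) (nat_lit 15) (.e (nat_lit 188450) (nat_lit 23) (.e (nat_lit 204855) (nat_lit 26) (.e (nat_lit 336030) (nat_lit 4) (.e (nat_lit 123183) (nat_lit 264) .nil))))))) (.g (nat_lit 0) .nil .nil))))) (.nd (nat_lit 4) (.nd (nat_lit 5) 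
(.lf (nat_lit 18380) (.g (nat_lit 3101) (.e (nat_lit 1173) (nat_lit 87) (.e (nat_lit 57479) (nat_lit 28) (.e (nat_lit 557105) (nat_lit 14) (.e (nat_lit 180252) (nat_lit 10) (.e (nat_lit 573489) (nat_lit 14) (.e (nat_lit 73748) (nat_lit 3) (.e (nat_lit 516119) (nat_lit 1) (.e (nat_lit 164155) (nat_lit 152) .nil)))))))) (.g (nat_lit 5) .nil .nil))) 
(.lf (nat_lit 18412) (.g (nat_lit 2554) (.e (nat_lit 1173) (nat_lit 87) (.e (nat_lit 57480) (nat_lit 28) (.e (nat_lit 557107) (nat_lit 15) (.e (nat_lit 188447) (nat_lit 22) (.e (nat_lit 196663) (nat_lit 13) .nil))))) .nil))) (.nd (nat_lit 5) 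
(.lf (nat_lit 18396) (.g (nat_lit 4161) (.e (nat_lit 1173) (nat_lit 87) (.e (nat_lit 57480) (nat_lit 28) (.e (nat_lit 557098) (nat_lit 13) (.e (nat_lit 172097) (nat_lit 9) (.e (nat_lit 426125) (nat_lit 2) (.e (nat_lit 196666) (nat_lit 13) (.e (nat_lit 65572) (nat_lit 4) (.e (nat_lit 123183) (nat_lit 264) .nil)))))))) (.g (nat_lit 0) .nil .nil))) 
(.lf (nat_lit 18428) (.g (nat_lit 4333) (.e (nat_lit 1173) (nat_lit 87) (.e (nat_lit 57480) (nat_lit 28) (.e (nat_lit 557108) (nat_lit 15) (.e (nat_lit 188452) (nat_lit 23) (.e (nat_lit 204849) (nat_lit 25) (.e (nat_lit 327692) (nat_lit 1) (.e (nat_lit 8431) (nat_lit 138) .nil))))))) (.g (nat_lit 0) .nil .nil))))))) (.nd (nat_lit 2) (.nd (nat_lit 3) (.nd (nat_lit 4) (.nd (nat_lit 5) 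
(.lf (nat_lit 18370) (.g (nat_lit 2676) (.e (nat_lit 1173) (nat_lit 87) (.e (nat_lit 57479) (nat_lit 28) (.e (nat_lit 557105) (nat_lit 14) (.e (nat_lit 180252) (nat_lit 10) (.e (nat_lit 573482) (nat_lit 13) .nil))))) .nil)) 
(.lf (nat_lit 18402) (.g (nat_lit 4163) (.e (nat_lit 1173) (nat_lit 87) (.e (nat_lit 57480) (nat_lit 28) (.e (nat_lit 557098) (nat_lit 13) (.e (nat_lit 172115) (nat_lit 10) (.e (nat_lit 434231) (nat_lit 23) (.e (nat_lit 532535) (nat_lit 9) (.e (nat_lit 336030) (nat_lit 4) (.e (nat_lit 123183) (nat_lit 264) .nil)))))))) (.g (nat_lit 0) .nil .nil)))) (.nd (nat_lit 5) 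
(.lf (nat_lit 18386) (.g (nat_lit 4282) (.e (nat_lit 1173) (nat_lit 87) (.e (nat_lit 57479) (nat_lit 28) (.e (nat_lit 557105) (nat_lit 14) (.e (nat_lit 180252) (nat_lit 10) (.e (nat_lit 573489) (nat_lit 14) (.e (nat_lit 73755) (nat_lit 8) (.e (nat_lit 557090) (nat_lit 12) (.e (nat_lit 163846) (nat_lit 0) (.e (nat_lit 5071) (nat_lit 292) .nil))))))))) (.g (nat_lit 9) .nil .nil))) 
(.lf (nat_lit 18418) (.g (nat_lit 1193) (.e (nat_lit 1173) (nat_lit 87) (.e (nat_lit 57480) (nat_lit 28) (.e (nat_lit 557107) (nat_lit 15) (.e (nat_lit 188450) (nat_lit 23) .nil)))) .nil)))) (.nd (nat_lit 4) (.nd (nat_lit 5) 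
(.lf (nat_lit 18378) (.g (nat_lit 4488) (.e (nat_lit 1173) (nat_lit 87) (.e (nat_lit 57479) (nat_lit 28) (.e (nat_lit 557105) (nat_lit 14) (.e (nat_lit 180252) (nat_lit 10) (.e (nat_lit 573488) (nat_lit 14) (.e (nat_lit 73747) (nat_lit 3) (.e (nat_lit 516119) (nat_lit 1) (.e (nat_lit 164155) (nat_lit 152) .nil)))))))) (.g (nat_lit 6) .nil .nil))) 
(.lf (nat_lit 18410) (.g (nat_lit 3944) (.e (nat_lit 1173) (nat_lit 87) (.e (nat_lit 57480) (nat_lit 28) (.e (nat_lit 557105) (nat_lit 14) (.e (nat_lit 180252) (nat_lit 10) (.e (nat_lit 573488) (nat_lit 14) (.e (nat_lit 73747) (nat_lit 3) (.e (nat_lit 516119) (nat_lit 1) (.e (nat_lit 164153) (nat_lit 152) .nil)))))))) (.g (nat_lit 7) .nil .nil)))) (.nd (nat_lit 5) 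
(.lf (nat_lit 18394) (.g (nat_lit 2375) (.e (nat_lit 1173) (nat_lit 87) (.e (nat_lit 57479) (nat_lit 28) (.e (nat_lit 557109) (nat_lit 15) (.e (nat_lit 188461) (nat_lit 26) .nil)))) .nil)) 
(.lf (nat_lit 18426) (.g (nat_lit 3470) (.e (nat_lit 1173) (nat_lit 87) (.e (nat_lit 57480) (nat_lit 28) (.e (nat_lit 557108) (nat_lit 15) (.e (nat_lit 188452) (nat_lit 23) (.e (nat_lit 204848) (nat_lit 25) .nil))))) .nil))))) (.nd (nat_lit 3) (.nd (nat_lit 4) (.nd (nat_lit 5) 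
(.lf (nat_lit 18374) (.g (nat_lit 2989) (.e (nat_lit 1173) (nat_lit 87) (.e (nat_lit 57479) (nat_lit 28) (.e (nat_lit 557105) (nat_lit 14) (.e (nat_lit 180252) (nat_lit 10) (.e (nat_lit 573487) (nat_lit 14) (.e (nat_lit 73747) (nat_lit 3) (.e (nat_lit 516119) (nat_lit 1) (.e (nat_lit 164148) (nat_lit 152) .nil)))))))) (.g (nat_lit 4) .nil .nil))) 
(.lf (nat_lit 18406) (.g (nat_lit 3367) (.e (nat_lit 1173) (nat_lit 87) (.e (nat_lit 57480) (nat_lit 28) (.e (nat_lit 557105) (nat_lit 14) (.e (nat_lit 180252) (nat_lit 10) (.e (nat_lit 573481) (nat_lit 13) (.e (nat_lit 65637) (nat_lit 15) (.e (nat_lit 3253) (nat_lit 197) (.e (nat_lit 532501) (nat_lit 1) (.e (nat_lit 57830) (nat_lit 250) .nil))))))))) (.g (nat_lit 7) .nil .nil)))) 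
(.nd (nat_lit 5) 
(.lf (nat_lit 18390) (.g (nat_lit 2141) (.e (nat_lit 1173) (nat_lit 87) (.e (nat_lit 57479) (nat_lit 28) (.e (nat_lit 557109) (nat_lit 15) (.e (nat_lit 196352) (nat_lit 18) .nil)))) .nil)) 
(.lf (nat_lit 18422) (.g (nat_lit 2045) (.e (nat_lit 1173) (nat_lit 87) (.e (nat_lit 57480) (nat_lit 28) (.e (nat_lit 557107) (nat_lit 15) (.e (nat_lit 188450) (nat_lit 23) (.e (nat_lit 204856) (nat_lit 26) .nil))))) .nil)))) (.nd (nat_lit 4) (.nd (nat_lit 5) 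
(.lf (nat_lit 18382) (.g (nat_lit 3116) (.e (nat_lit 1173) (nat_lit 87) (.e (nat_lit 57479) (nat_lit 28) (.e (nat_lit 557105) (nat_lit 14) (.e (nat_lit 180252) (nat_lit 10) (.e (nat_lit 573489) (nat_lit 14) (.e (nat_lit 73755) (nat_lit 8) (.e (nat_lit 557089) (nat_lit 12) (.e (nat_lit 163846) (nat_lit 0) (.e (nat_lit 5063) (nat_lit 292) .nil))))))))) (.g (nat_lit 6) .nil .nil))) 
(.lf (nat_lit 18414) (.g (nat_lit 3382) (.e (nat_lit 1173) (nat_lit 87) (.e (nat_lit 57480) (nat_lit 28) (.e (nat_lit 557107) (nat_lit 15) (.e (nat_lit 188447) (nat_lit 22) (.e (nat_lit 196666) (nat_lit 13) (.e (nat_lit 65572) (nat_lit 4) (.e (nat_lit 123184) (nat_lit 264) .nil))))))) (.g (nat_lit 0) .nil .nil)))) (.nd (nat_lit 5) 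
(.lf (nat_lit 18398) (.g (nat_lit 3876) (.e (nat_lit 1173) (nat_lit 87) (.e (nat_lit 57480) (nat_lit 28) (.e (nat_lit 557098) (nat_lit 13) (.e (nat_lit 172097) (nat_lit 9) (.e (nat_lit 426125) (nat_lit 2) (.e (nat_lit 196666) (nat_lit 13) (.e (nat_lit 65573) (nat_lit 4) (.e (nat_lit 123182) (nat_lit 264) .nil)))))))) (.g (nat_lit 6) .nil .nil))) 
(.lf (nat_lit 18430) (.g (nat_lit 4467) (.e (nat_lit 1173) (nat_lit 87) (.e (nat_lit 57480) (nat_lit 28) (.e (nat_lit 557108) (nat_lit 15) (.e (nat_lit 188452) (nat_lit 23) (.e (nat_lit 204849) (nat_lit 25) (.e (nat_lit 327692) (nat_lit 1) (.e (nat_lit 8433) (nat_lit 138) .nil))))))) (.g (nat_lit 0) .nil .nil)))))))) 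
(.nd (nat_lit 1) (.nd (nat_lit 2) (.nd (nat_lit 3) (.nd (nat_lit 4) (.nd (nat_lit 5) 
(.lf (nat_lit 18369) (.g (nat_lit 3611) (.e (nat_lit 1173) (nat_lit 87) (.e (nat_lit 57479) (nat_lit 28) (.e (nat_lit 557105) (nat_lit 14) (.e (nat_lit 180252) (nat_lit 10) (.e (nat_lit 573481) (nat_lit 13) (.e (nat_lit 73472) (nat_lit 18) (.e (nat_lit 204830) (nat_lit 18) (.e (nat_lit 57830) (nat_lit 250) .nil)))))))) (.g (nat_lit 5) .nil .nil))) 
(.lf (nat_lit 18401) (.g (nat_lit 3889) (.e (nat_lit 1173) (nat_lit 87) (.e (nat_lit 57480) (nat_lit 28) (.e (nat_lit 557098) (nat_lit 13) (.e (nat_lit 172097) (nat_lit 9) (.e (nat_lit 426140) (nat_lit 3) (.e (nat_lit 204855) (nat_lit 26) (.e (nat_lit 336030) (nat_lit 4) (.e (nat_lit 123184) (nat_lit 264) .nil)))))))) (.g (nat_lit 0) .nil .nil)))) (.nd (nat_lit 5) 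
(.lf (nat_lit 18385) (.g (nat_lit 4041) (.e (nat_lit 1173) (nat_lit 87) (.e (nat_lit 57479) (nat_lit 28) (.e (nat_lit 557105) (nat_lit 14) (.e (nat_lit 180252) (nat_lit 10) (.e (nat_lit 573489) (nat_lit 14) (.e (nat_lit 73755) (nat_lit 8) (.e (nat_lit 557090) (nat_lit 12) (.e (nat_lit 163846) (nat_lit 0) (.e (nat_lit 5060) (nat_lit 292) .nil))))))))) (.g (nat_lit 7) .nil .nil))) 
(.lf (nat_lit 18417) (.g (nat_lit 2515) (.e (nat_lit 1173) (nat_lit 87) (.e (nat_lit 57480) (nat_lit 28) (.e (nat_lit 557107) (nat_lit 15) (.e (nat_lit 188447) (nat_lit 22) (.e (nat_lit 196670) (nat_lit 14) .nil))))) .nil)))) (.nd (nat_lit 4) (.nd (nat_lit 5) 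
(.lf (nat_lit 18377) (.g (nat_lit 4422) (.e (nat_lit 1173) (nat_lit 87) (.e (nat_lit 57479) (nat_lit 28) (.e (nat_lit 557105) (nat_lit 14) (.e (nat_lit 180252) (nat_lit 10) (.e (nat_lit 573488) (nat_lit 14) (.e (nat_lit 73747) (nat_lit 3) (.e (nat_lit 516119) (nat_lit 1) (.e (nat_lit 164153) (nat_lit 152) .nil)))))))) (.g (nat_lit 6) .nil .nil))) 
(.lf (nat_lit 18409) (.g (nat_lit 1968) (.e (nat_lit 1173) (nat_lit 87) (.e (nat_lit 57480) (nat_lit 28) (.e (nat_lit 557105) (nat_lit 14) (.e (nat_lit 180252) (nat_lit 10) (.e (nat_lit 573488) (nat_lit 14) (.e (nat_lit 73747) (nat_lit 3) (.e (nat_lit 516119) (nat_lit 1) (.e (nat_lit 164152) (nat_lit 152) .nil)))))))) (.g (nat_lit 4) .nil .nil)))) (.nd (nat_lit 5) 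
(.lf (nat_lit 18393) (.g (nat_lit 2446) (.e (nat_lit 1173) (nat_lit 87) (.e (nat_lit 57479) (nat_lit 28) (.e (nat_lit 557109) (nat_lit 15) (.e (nat_lit 188458) (nat_lit 25) .nil)))) .nil)) 
(.lf (nat_lit 18425) (.g (nat_lit 2605) (.e (nat_lit 1173) (nat_lit 87) (.e (nat_lit 57480) (nat_lit 28) (.e (nat_lit 557108) (nat_lit 15) (.e (nat_lit 188452) (nat_lit 23) (.e (nat_lit 204816) (nat_lit 17) (.e (nat_lit 6434) (nat_lit 343) (.e (nat_lit 1288) (nat_lit 95) (.e (nat_lit 123184) (nat_lit 264) .nil)))))))) (.g (nat_lit 4) .nil .nil)))))) 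
(.nd (nat_lit 3) (.nd (nat_lit 4) (.nd (nat_lit 5) 
(.lf (nat_lit 18373) (.g (nat_lit 3083) (.e (nat_lit 1173) (nat_lit 87) (.e (nat_lit 57479) (nat_lit 28) (.e (nat_lit 557105) (nat_lit 14) (.e (nat_lit 180252) (nat_lit 10) (.e (nat_lit 573487) (nat_lit 14) (.e (nat_lit 73747) (nat_lit 3) (.e (nat_lit 516115) (nat_lit 1) (.e (nat_lit 164152) (nat_lit 152) .nil)))))))) (.g (nat_lit 4) .nil .nil))) 
(.lf (nat_lit 18405) (.g (nat_lit 1976) (.e (nat_lit 1173) (nat_lit 87) (.e (nat_lit 57480) (nat_lit 28) (.e (nat_lit 557105) (nat_lit 14) (.e (nat_lit 180252) (nat_lit 10) (.e (nat_lit 573481) (nat_lit 13) .nil))))) .nil))) (.nd (nat_lit 5) 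
(.lf (nat_lit 18389) (.g (nat_lit 2673) (.e (nat_lit 1173) (nat_lit 87) (.e (nat_lit 57479) (nat_lit 28) (.e (nat_lit 557109) (nat_lit 15) (.e (nat_lit 188422) (nat_lit 11) .nil)))) .nil)) 
(.lf (nat_lit 18421) (.g (nat_lit 3053) (.e (nat_lit 1173) (nat_lit 87) (.e (nat_lit 57480) (nat_lit 28) (.e (nat_lit 557107) (nat_lit 15) (.e (nat_lit 188450) (nat_lit 23) (.e (nat_lit 204855) (nat_lit 26) (.e (nat_lit 336030) (nat_lit 4) (.e (nat_lit 123184) (nat_lit 264) .nil))))))) (.g (nat_lit 0) .nil .nil))))) (.nd (nat_lit 4) (.nd (nat_lit 5) 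
(.lf (nat_lit 18381) (.g (nat_lit 2011) (.e (nat_lit 1173) (nat_lit 87) (.e (nat_lit 57479) (nat_lit 28) (.e (nat_lit 557105) (nat_lit 14) (.e (nat_lit 180252) (nat_lit 10) (.e (nat_lit 573489) (nat_lit 14) (.e (nat_lit 73755) (nat_lit 8) (.e (nat_lit 557065) (nat_lit 9) (.e (nat_lit 2612) (nat_lit 163) (.e (nat_lit 164297) (nat_lit 226) .nil))))))))) (.g (nat_lit 4) .nil .nil))) 
(.lf (nat_lit 18413) (.g (nat_lit 3326) (.e (nat_lit 1173) (nat_lit 87) (.e (nat_lit 57480) (nat_lit 28) (.e (nat_lit 557107) (nat_lit 15) (.e (nat_lit 188447) (nat_lit 22) (.e (nat_lit 196666) (nat_lit 13) (.e (nat_lit 65572) (nat_lit 4) (.e (nat_lit 123183) (nat_lit 264) .nil))))))) (.g (nat_lit 0) .nil .nil)))) (.nd (nat_lit 5) 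
(.lf (nat_lit 18397) (.g (nat_lit 4217) (.e (nat_lit 1173) (nat_lit 87) (.e (nat_lit 57480) (nat_lit 28) (.e (nat_lit 557098) (nat_lit 13) (.e (nat_lit 172097) (nat_lit 9) (.e (nat_lit 426125) (nat_lit 2) (.e (nat_lit 196666) (nat_lit 13) (.e (nat_lit 65572) (nat_lit 4) (.e (nat_lit 123184) (nat_lit 264) .nil)))))))) (.g (nat_lit 0) .nil .nil))) 
(.lf (nat_lit 18429) (.g (nat_lit 4302) (.e (nat_lit 1173) (nat_lit 87) (.e (nat_lit 57480) (nat_lit 28) (.e (nat_lit 557108) (nat_lit 15) (.e (nat_lit 188452) (nat_lit 23) (.e (nat_lit 204849) (nat_lit 25) (.e (nat_lit 327692) (nat_lit 1) (.e (nat_lit 8432) (nat_lit 138) .nil))))))) (.g (nat_lit 0) .nil .nil))))))) (.nd (nat_lit 2) (.nd (nat_lit 3) (.nd (nat_lit 4) (.nd (nat_lit 5) 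
(.lf (nat_lit 18371) (.g (nat_lit 3715) (.e (nat_lit 1173) (nat_lit 87) (.e (nat_lit 57479) (nat_lit 28) (.e (nat_lit 557105) (nat_lit 14) (.e (nat_lit 180252) (nat_lit 10) (.e (nat_lit 573482) (nat_lit 13) (.e (nat_lit 65637) (nat_lit 15) (.e (nat_lit 3253) (nat_lit 197) (.e (nat_lit 532501) (nat_lit 1) (.e (nat_lit 57830) (nat_lit 250) .nil))))))))) (.g (nat_lit 5) .nil .nil))) 
(.lf (nat_lit 18403) (.g (nat_lit 2183) (.e (nat_lit 1173) (nat_lit 87) (.e (nat_lit 57480) (nat_lit 28) (.e (nat_lit 557105) (nat_lit 14) (.e (nat_lit 180251) (nat_lit 10) (.e (nat_lit 573479) (nat_lit 13) .nil))))) .nil))) (.nd (nat_lit 5) 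
(.lf (nat_lit 18387) (.g (nat_lit 1942) (.e (nat_lit 1173) (nat_lit 87) (.e (nat_lit 57479) (nat_lit 28) (.e (nat_lit 557105) (nat_lit 14) (.e (nat_lit 180252) (nat_lit 10) (.e (nat_lit 573489) (nat_lit 14) (.e (nat_lit 73755) (nat_lit 8) (.e (nat_lit 557090) (nat_lit 12) (.e (nat_lit 171776) (nat_lit 0) (.e (nat_lit 5055) (nat_lit 292) .nil))))))))) (.g (nat_lit 4) .nil .nil))) 
(.lf (nat_lit 18419) (.g (nat_lit 1868) (.e (nat_lit 1173) (nat_lit 87) (.e (nat_lit 57480) (nat_lit 28) (.e (nat_lit 557107) (nat_lit 15) (.e (nat_lit 188450) (nat_lit 23) (.e (nat_lit 204852) (nat_lit 26) .nil))))) .nil)))) (.nd (nat_lit 4) (.nd (nat_lit 5) 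
(.lf (nat_lit 18379) (.g (nat_lit 3035) (.e (nat_lit 1173) (nat_lit 87) (.e (nat_lit 57479) (nat_lit 28) (.e (nat_lit 557105) (nat_lit 14) (.e (nat_lit 180252) (nat_lit 10) (.e (nat_lit 573489) (nat_lit 14) (.e (nat_lit 73748) (nat_lit 3) (.e (nat_lit 516119) (nat_lit 1) (.e (nat_lit 164153) (nat_lit 152) .nil)))))))) (.g (nat_lit 5) .nil .nil))) 
(.lf (nat_lit 18411) (.g (nat_lit 2164) (.e (nat_lit 1173) (nat_lit 87) (.e (nat_lit 57480) (nat_lit 28) (.e (nat_lit 557105) (nat_lit 14) (.e (nat_lit 180252) (nat_lit 10) (.e (nat_lit 573489) (nat_lit 14) .nil))))) .nil))) (.nd (nat_lit 5) 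
(.lf (nat_lit 18395) (.g (nat_lit 3515) (.e (nat_lit 1173) (nat_lit 87) (.e (nat_lit 57479) (nat_lit 28) (.e (nat_lit 557109) (nat_lit 15) (.e (nat_lit 188461) (nat_lit 26) (.e (nat_lit 261888) (nat_lit 4) .nil))))) .nil)) 
(.lf (nat_lit 18427) (.g (nat_lit 3148) (.e (nat_lit 1173) (nat_lit 87) (.e (nat_lit 57480) (nat_lit 28) (.e (nat_lit 557108) (nat_lit 15) (.e (nat_lit 188452) (nat_lit 23) (.e (nat_lit 204849) (nat_lit 25) .nil))))) .nil))))) (.nd (nat_lit 3) (.nd (nat_lit 4) (.nd (nat_lit 5) 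
(.lf (nat_lit 18375) (.g (nat_lit 4356) (.e (nat_lit 1173) (nat_lit 87) (.e (nat_lit 57479) (nat_lit 28) (.e (nat_lit 557105) (nat_lit 14) (.e (nat_lit 180252) (nat_lit 10) (.e (nat_lit 573487) (nat_lit 14) (.e (nat_lit 73747) (nat_lit 3) (.e (nat_lit 516119) (nat_lit 1) (.e (nat_lit 164155) (nat_lit 152) .nil)))))))) (.g (nat_lit 6) .nil .nil))) 
(.lf (nat_lit 18407) (.g (nat_lit 2457) (.e (nat_lit 1173) (nat_lit 87) (.e (nat_lit 57480) (nat_lit 28) (.e (nat_lit 557105) (nat_lit 14) (.e (nat_lit 180252) (nat_lit 10) (.e (nat_lit 573482) (nat_lit 13) .nil))))) .nil))) (.nd (nat_lit 5) 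
(.lf (nat_lit 18391) (.g (nat_lit 2688) (.e (nat_lit 1173) (nat_lit 87) (.e (nat_lit 57479) (nat_lit 28) (.e (nat_lit 557109) (nat_lit 15) (.e (nat_lit 188452) (nat_lit 23) .nil)))) .nil)) 
(.lf (nat_lit 18423) (.g (nat_lit 1813) (.e (nat_lit 1173) (nat_lit 87) (.e (nat_lit 57480) (nat_lit 28) (.e (nat_lit 557108) (nat_lit 15) (.e (nat_lit 188452) (nat_lit 23) .nil)))) .nil)))) (.nd (nat_lit 4) (.nd (nat_lit 5) 
(.lf (nat_lit 18383) (.g (nat_lit 3020) (.e (nat_lit 1173) (nat_lit 87) (.e (nat_lit 57479) (nat_lit 28) (.e (nat_lit 557105) (nat_lit 14) (.e (nat_lit 180252) (nat_lit 10) (.e (nat_lit 573489) (nat_lit 14) (.e (nat_lit 73755) (nat_lit 8) (.e (nat_lit 557089) (nat_lit 12) (.e (nat_lit 163846) (nat_lit 0) (.e (nat_lit 5071) (nat_lit 292) .nil))))))))) (.g (nat_lit 6) .nil .nil))) 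
(.lf (nat_lit 18415) (.g (nat_lit 3760) (.e (nat_lit 1173) (nat_lit 87) (.e (nat_lit 57480) (nat_lit 28) (.e (nat_lit 557107) (nat_lit 15) (.e (nat_lit 188447) (nat_lit 22) (.e (nat_lit 196666) (nat_lit 13) (.e (nat_lit 65574) (nat_lit 4) (.e (nat_lit 123182) (nat_lit 264) .nil))))))) (.g (nat_lit 7) .nil .nil)))) (.nd (nat_lit 5) 
(.lf (nat_lit 18399) (.g (nat_lit 4393) (.e (nat_lit 1173) (nat_lit 87) (.e (nat_lit 57480) (nat_lit 28) (.e (nat_lit 557098) (nat_lit 13) (.e (nat_lit 172097) (nat_lit 9) (.e (nat_lit 426125) (nat_lit 2) (.e (nat_lit 196666) (nat_lit 13) (.e (nat_lit 65574) (nat_lit 4) (.e (nat_lit 123182) (nat_lit 264) .nil)))))))) (.g (nat_lit 8) .nil .nil))) 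
(.lf (nat_lit 18431) (.g (nat_lit 2851) (.e (nat_lit 1173) (nat_lit 87) (.e (nat_lit 57480) (nat_lit 28) (.e (nat_lit 557108) (nat_lit 15) (.e (nat_lit 188452) (nat_lit 23) (.e (nat_lit 204851) (nat_lit 26) .nil))))) .nil))))))))

noncomputable def tv254 : DT := (.nd (nat_lit 0) (.nd (nat_lit 1) (.nd (nat_lit 2) (.nd (nat_lit 3) (.nd (nat_lit 4) (.nd (nat_lit 5) 
(.lf (nat_lit 18432) (.g (nat_lit 2892) (.e (nat_lit 1173) (nat_lit 87) (.e (nat_lit 57480) (nat_lit 28) (.e (nat_lit 557108) (nat_lit 15) (.e (nat_lit 188452) (nat_lit 23) (.e (nat_lit 204851) (nat_lit 26) (.e (nat_lit 336029) (nat_lit 4) (.e (nat_lit 123184) (nat_lit 264) .nil))))))) (.g (nat_lit 4) .nil .nil))) 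
(.lf (nat_lit 18464) (.g (nat_lit 2611) (.e (nat_lit 1173) (nat_lit 87) (.e (nat_lit 57480) (nat_lit 28) (.e (nat_lit 557109) (nat_lit 15) (.e (nat_lit 188461) (nat_lit 26) (.e (nat_lit 261888) (nat_lit 4) .nil))))) .nil))) (.nd (nat_lit 5) 
(.lf (nat_lit 18448) (.g (nat_lit 3063) (.e (nat_lit 1173) (nat_lit 87) (.e (nat_lit 57480) (nat_lit 28) (.e (nat_lit 557109) (nat_lit 15) (.e (nat_lit 188449) (nat_lit 22) (.e (nat_lit 196668) (nat_lit 14) .nil))))) .nil)) 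
(.lf (nat_lit 18480) (.g (nat_lit 2673) (.e (nat_lit 1174) (nat_lit 87) (.e (nat_lit 57479) (nat_lit 28) (.e (nat_lit 557105) (nat_lit 14) (.e (nat_lit 180251) (nat_lit 10) (.e (nat_lit 573479) (nat_lit 13) .nil))))) .nil)))) (.nd (nat_lit 4) (.nd (nat_lit 5) 
(.lf (nat_lit 18440) (.g (nat_lit 4309) (.e (nat_lit 1173) (nat_lit 87) (.e (nat_lit 57480) (nat_lit 28) (.e (nat_lit 557109) (nat_lit 15) (.e (nat_lit 188449) (nat_lit 22) (.e (nat_lit 196663) (nat_lit 13) .nil))))) .nil)) 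
(.lf (nat_lit 18472) (.g (nat_lit 2174) (.e (nat_lit 1173) (nat_lit 87) (.e (nat_lit 57931) (nat_lit 282) (.e (nat_lit 163867) (nat_lit 2) (.e (nat_lit 196670) (nat_lit 14) (.e (nat_lit 73746) (nat_lit 3) .nil))))) .nil))) (.nd (nat_lit 5) 
(.lf (nat_lit 18456) (.g (nat_lit 3953) (.e (nat_lit 1173) (nat_lit 87) (.e (nat_lit 57480) (nat_lit 28) (.e (nat_lit 557109) (nat_lit 15) (.e (nat_lit 188452) (nat_lit 23) (.e (nat_lit 204857) (nat_lit 26) .nil))))) .nil)) 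
(.lf (nat_lit 18488) (.g (nat_lit 3780) (.e (nat_lit 1174) (nat_lit 87) (.e (nat_lit 57479) (nat_lit 28) (.e (nat_lit 557105) (nat_lit 14) (.e (nat_lit 180252) (nat_lit 10) (.e (nat_lit 573487) (nat_lit 14) (.e (nat_lit 73747) (nat_lit 3) (.e (nat_lit 516119) (nat_lit 1) (.e (nat_lit 164155) (nat_lit 152) .nil)))))))) (.g (nat_lit 5) .nil .nil)))))) 
(.nd (nat_lit 3) (.nd (nat_lit 4) (.nd (nat_lit 5) 
(.lf (nat_lit 18436) (.g (nat_lit 3342) (.e (nat_lit 1173) (nat_lit 87) (.e (nat_lit 57480) (nat_lit 28) (.e (nat_lit 557108) (nat_lit 15) (.e (nat_lit 188452) (nat_lit 23) (.e (nat_lit 204873) (nat_lit 30) .nil))))) .nil)) 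
(.lf (nat_lit 18468) (.g (nat_lit 2162) (.e (nat_lit 1173) (nat_lit 87) (.e (nat_lit 57847) (nat_lit 252) (.e (nat_lit 57435) (nat_lit 17) (.e (nat_lit 376842) (nat_lit 11) (.e (nat_lit 426315) (nat_lit 12) (.e (nat_lit 475195) (nat_lit 40) (.e (nat_lit 704612) (nat_lit 9) .nil))))))) (.g (nat_lit 4) .nil .nil)))) (.nd (nat_lit 5) 
(.lf (nat_lit 18452) (.g (nat_lit 3673) (.e (nat_lit 1173) (nat_lit 87) (.e (nat_lit 57480) (nat_lit 28) (.e (nat_lit 557109) (nat_lit 15) (.e (nat_lit 188452) (nat_lit 23) (.e (nat_lit 204855) (nat_lit 26) (.e (nat_lit 336030) (nat_lit 4) (.e (nat_lit 123183) (nat_lit 264) .nil))))))) (.g (nat_lit 0) .nil .nil))) 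
(.lf (nat_lit 18484) (.g (nat_lit 3006) (.e (nat_lit 1174) (nat_lit 87) (.e (nat_lit 57479) (nat_lit 28) (.e (nat_lit 557105) (nat_lit 14) (.e (nat_lit 180252) (nat_lit 10) (.e (nat_lit 573482) (nat_lit 13) .nil))))) .nil)))) (.nd (nat_lit 4) (.nd (nat_lit 5) 
(.lf (nat_lit 18444) (.g (nat_lit 3705) (.e (nat_lit 1173) (nat_lit 87) (.e (nat_lit 57480) (nat_lit 28) (.e (nat_lit 557109) (nat_lit 15) (.e (nat_lit 188449) (nat_lit 22) (.e (nat_lit 196666) (nat_lit 13) (.e (nat_lit 65572) (nat_lit 4) (.e (nat_lit 123184) (nat_lit 264) .nil))))))) (.g (nat_lit 0) .nil .nil))) 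
(.lf (nat_lit 18476) (.g (nat_lit 2108) (.e (nat_lit 1174) (nat_lit 87) (.e (nat_lit 57476) (nat_lit 28) (.e (nat_lit 557107) (nat_lit 15) (.e (nat_lit 188447) (nat_lit 22) (.e (nat_lit 196668) (nat_lit 14) .nil))))) .nil))) (.nd (nat_lit 5) 
(.lf (nat_lit 18460) (.g (nat_lit 3719) (.e (nat_lit 1173) (nat_lit 87) (.e (nat_lit 57480) (nat_lit 28) (.e (nat_lit 557109) (nat_lit 15) (.e (nat_lit 188452) (nat_lit 23) (.e (nat_lit 204864) (nat_lit 27) (.e (nat_lit 344103) (nat_lit 18) (.e (nat_lit 5818) (nat_lit 320) .nil))))))) (.g (nat_lit 6) .nil .nil))) 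
(.lf (nat_lit 18492) (.g (nat_lit 2185) (.e (nat_lit 1174) (nat_lit 87) (.e (nat_lit 57479) (nat_lit 28) (.e (nat_lit 557105) (nat_lit 14) (.e (nat_lit 180252) (nat_lit 10) (.e (nat_lit 573489) (nat_lit 14) .nil))))) .nil)))))) (.nd (nat_lit 2) (.nd (nat_lit 3) (.nd (nat_lit 4) (.nd (nat_lit 5) 
(.lf (nat_lit 18434) (.g (nat_lit 4365) (.e (nat_lit 1173) (nat_lit 87) (.e (nat_lit 57480) (nat_lit 28) (.e (nat_lit 557108) (nat_lit 15) (.e (nat_lit 188452) (nat_lit 23) (.e (nat_lit 204856) (nat_lit 26) .nil))))) .nil)) 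
(.lf (nat_lit 18466) (.g (nat_lit 2133) (.e (nat_lit 1173) (nat_lit 87) (.e (nat_lit 57847) (nat_lit 252) (.e (nat_lit 57435) (nat_lit 17) (.e (nat_lit 376842) (nat_lit 11) (.e (nat_lit 426306) (nat_lit 12) .nil))))) .nil))) (.nd (nat_lit 5) 
(.lf (nat_lit 18450) (.g (nat_lit 3152) (.e (nat_lit 1173) (nat_lit 87) (.e (nat_lit 57480) (nat_lit 28) (.e (nat_lit 557109) (nat_lit 15) (.e (nat_lit 188450) (nat_lit 23) (.e (nat_lit 204863) (nat_lit 27) .nil))))) .nil)) 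
(.lf (nat_lit 18482) (.g (nat_lit 3037) (.e (nat_lit 1174) (nat_lit 87) (.e (nat_lit 57479) (nat_lit 28) (.e (nat_lit 557105) (nat_lit 14) (.e (nat_lit 180252) (nat_lit 10) (.e (nat_lit 573480) (nat_lit 13) .nil))))) .nil)))) (.nd (nat_lit 4) (.nd (nat_lit 5) 
(.lf (nat_lit 18442) (.g (nat_lit 3755) (.e (nat_lit 1173) (nat_lit 87) (.e (nat_lit 57480) (nat_lit 28) (.e (nat_lit 557109) (nat_lit 15) (.e (nat_lit 188449) (nat_lit 22) (.e (nat_lit 196666) (nat_lit 13) (.e (nat_lit 65572) (nat_lit 4) (.e (nat_lit 123182) (nat_lit 264) .nil))))))) (.g (nat_lit 0) .nil .nil))) 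
(.lf (nat_lit 18474) (.g (nat_lit 3075) (.e (nat_lit 1173) (nat_lit 87) (.e (nat_lit 57931) (nat_lit 282) (.e (nat_lit 163869) (nat_lit 2) (.e (nat_lit 196670) (nat_lit 14) (.e (nat_lit 73754) (nat_lit 8) .nil))))) .nil))) (.nd (nat_lit 5) 
(.lf (nat_lit 18458) (.g (nat_lit 2932) (.e (nat_lit 1173) (nat_lit 87) (.e (nat_lit 57480) (nat_lit 28) (.e (nat_lit 557109) (nat_lit 15) (.e (nat_lit 188452) (nat_lit 23) (.e (nat_lit 204859) (nat_lit 26) .nil))))) .nil)) 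
(.lf (nat_lit 18490) (.g (nat_lit 5324) (.e (nat_lit 1174) (nat_lit 87) (.e (nat_lit 57479) (nat_lit 28) (.e (nat_lit 557105) (nat_lit 14) (.e (nat_lit 180252) (nat_lit 10) (.e (nat_lit 573488) (nat_lit 14) (.e (nat_lit 73747) (nat_lit 3) (.e (nat_lit 516115) (nat_lit 1) (.e (nat_lit 164153) (nat_lit 152) .nil)))))))) (.g (nat_lit 6) .nil .nil)))))) 
(.nd (nat_lit 3) (.nd (nat_lit 4) (.nd (nat_lit 5) 
(.lf (nat_lit 18438) (.g (nat_lit 2403) (.e (nat_lit 1173) (nat_lit 87) (.e (nat_lit 57480) (nat_lit 28) (.e (nat_lit 557109) (nat_lit 15) (.e (nat_lit 188421) (nat_lit 11) .nil)))) .nil)) 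
(.lf (nat_lit 18470) (.g (nat_lit 2170) (.e (nat_lit 1173) (nat_lit 87) (.e (nat_lit 57847) (nat_lit 252) (.e (nat_lit 57437) (nat_lit 17) (.e (nat_lit 376842) (nat_lit 11) (.e (nat_lit 426306) (nat_lit 12) (.e (nat_lit 475201) (nat_lit 40) (.e (nat_lit 704620) (nat_lit 9) .nil))))))) (.g (nat_lit 4) .nil .nil)))) (.nd (nat_lit 5) 
(.lf (nat_lit 18454) (.g (nat_lit 3446) (.e (nat_lit 1173) (nat_lit 87) (.e (nat_lit 57480) (nat_lit 28) (.e (nat_lit 557109) (nat_lit 15) (.e (nat_lit 188452) (nat_lit 23) (.e (nat_lit 204855) (nat_lit 26) (.e (nat_lit 336030) (nat_lit 4) (.e (nat_lit 123185) (nat_lit 264) .nil))))))) (.g (nat_lit 0) .nil .nil))) 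
(.lf (nat_lit 18486) (.g (nat_lit 3256) (.e (nat_lit 1174) (nat_lit 87) (.e (nat_lit 57479) (nat_lit 28) (.e (nat_lit 557105) (nat_lit 14) (.e (nat_lit 180252) (nat_lit 10) (.e (nat_lit 573487) (nat_lit 14) .nil))))) .nil)))) (.nd (nat_lit 4) (.nd (nat_lit 5) 
(.lf (nat_lit 18446) (.g (nat_lit 4105) (.e (nat_lit 1173) (nat_lit 87) (.e (nat_lit 57480) (nat_lit 28) (.e (nat_lit 557109) (nat_lit 15) (.e (nat_lit 188449) (nat_lit 22) (.e (nat_lit 196666) (nat_lit 13) (.e (nat_lit 65574) (nat_lit 4) (.e (nat_lit 123184) (nat_lit 264) .nil))))))) (.g (nat_lit 0) .nil .nil))) 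
(.lf (nat_lit 18478) (.g (nat_lit 2337) (.e (nat_lit 1174) (nat_lit 87) (.e (nat_lit 57479) (nat_lit 28) (.e (nat_lit 557100) (nat_lit 13) (.e (nat_lit 172106) (nat_lit 10) (.e (nat_lit 434231) (nat_lit 23) .nil))))) .nil))) (.nd (nat_lit 5) 
(.lf (nat_lit 18462) (.g (nat_lit 3256) (.e (nat_lit 1173) (nat_lit 87) (.e (nat_lit 57480) (nat_lit 28) (.e (nat_lit 557109) (nat_lit 15) (.e (nat_lit 188458) (nat_lit 25) (.e (nat_lit 245791) (nat_lit 14) .nil))))) .nil)) 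
(.lf (nat_lit 18494) (.g (nat_lit 909) (.e (nat_lit 1174) (nat_lit 87) (.e (nat_lit 57479) (nat_lit 28) (.e (nat_lit 557107) (nat_lit 15) .nil))) .nil))))))) (.nd (nat_lit 1) (.nd (nat_lit 2) (.nd (nat_lit 3) (.nd (nat_lit 4) (.nd (nat_lit 5) 
(.lf (nat_lit 18433) (.g (nat_lit 3294) (.e (nat_lit 1173) (nat_lit 87) (.e (nat_lit 57480) (nat_lit 28) (.e (nat_lit 557108) (nat_lit 15) (.e (nat_lit 188452) (nat_lit 23) (.e (nat_lit 204852) (nat_lit 26) .nil))))) .nil)) 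
(.lf (nat_lit 18465) (.g (nat_lit 768) (.e (nat_lit 1173) (nat_lit 87) (.e (nat_lit 57847) (nat_lit 252) (.e (nat_lit 57411) (nat_lit 12) .nil))) .nil))) (.nd (nat_lit 5) 
(.lf (nat_lit 18449) (.g (nat_lit 1117) (.e (nat_lit 1173) (nat_lit 87) (.e (nat_lit 57480) (nat_lit 28) (.e (nat_lit 557109) (nat_lit 15) (.e (nat_lit 188449) (nat_lit 22) (.e (nat_lit 204544) (nat_lit 14) (.e (nat_lit 73736) (nat_lit 0) (.e (nat_lit 5818) (nat_lit 320) .nil))))))) (.g (nat_lit 4) .nil .nil))) 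
(.lf (nat_lit 18481) (.g (nat_lit 2610) (.e (nat_lit 1174) (nat_lit 87) (.e (nat_lit 57479) (nat_lit 28) (.e (nat_lit 557105) (nat_lit 14) (.e (nat_lit 180251) (nat_lit 10) (.e (nat_lit 573485) (nat_lit 13) .nil))))) .nil)))) (.nd (nat_lit 4) (.nd (nat_lit 5) 
(.lf (nat_lit 18441) (.g (nat_lit 2096) (.e (nat_lit 1173) (nat_lit 87) (.e (nat_lit 57480) (nat_lit 28) (.e (nat_lit 557109) (nat_lit 15) (.e (nat_lit 188449) (nat_lit 22) (.e (nat_lit 196666) (nat_lit 13) .nil))))) .nil)) 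
(.lf (nat_lit 18473) (.g (nat_lit 3166) (.e (nat_lit 1173) (nat_lit 87) (.e (nat_lit 57931) (nat_lit 282) (.e (nat_lit 163869) (nat_lit 2) (.e (nat_lit 196670) (nat_lit 14) (.e (nat_lit 73746) (nat_lit 3) (.e (nat_lit 516131) (nat_lit 3) (.e (nat_lit 221212) (nat_lit 22) (.e (nat_lit 196625) (nat_lit 9) .nil)))))))) (.g (nat_lit 5) .nil .nil)))) (.nd (nat_lit 5) 
(.lf (nat_lit 18457) (.g (nat_lit 4311) (.e (nat_lit 1173) (nat_lit 87) (.e (nat_lit 57480) (nat_lit 28) (.e (nat_lit 557109) (nat_lit 15) (.e (nat_lit 188452) (nat_lit 23) (.e (nat_lit 204858) (nat_lit 26) .nil))))) .nil)) 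
(.lf (nat_lit 18489) (.g (nat_lit 3584) (.e (nat_lit 1174) (nat_lit 87) (.e (nat_lit 57479) (nat_lit 28) (.e (nat_lit 557105) (nat_lit 14) (.e (nat_lit 180252) (nat_lit 10) (.e (nat_lit 573488) (nat_lit 14) .nil))))) .nil))))) (.nd (nat_lit 3) (.nd (nat_lit 4) (.nd (nat_lit 5) 
(.lf (nat_lit 18437) (.g (nat_lit 3308) (.e (nat_lit 1173) (nat_lit 87) (.e (nat_lit 57480) (nat_lit 28) (.e (nat_lit 557108) (nat_lit 15) (.e (nat_lit 188452) (nat_lit 23) (.e (nat_lit 204874) (nat_lit 30) .nil))))) .nil)) 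
(.lf (nat_lit 18469) (.g (nat_lit 2119) (.e (nat_lit 1173) (nat_lit 87) (.e (nat_lit 57847) (nat_lit 252) (.e (nat_lit 57435) (nat_lit 17) (.e (nat_lit 376842) (nat_lit 11) (.e (nat_lit 426315) (nat_lit 12) (.e (nat_lit 475197) (nat_lit 40) (.e (nat_lit 704612) (nat_lit 9) .nil))))))) (.g (nat_lit 4) .nil .nil)))) (.nd (nat_lit 5) 
(.lf (nat_lit 18453) (.g (nat_lit 3774) (.e (nat_lit 1173) (nat_lit 87) (.e (nat_lit 57480) (nat_lit 28) (.e (nat_lit 557109) (nat_lit 15) (.e (nat_lit 188452) (nat_lit 23) (.e (nat_lit 204855) (nat_lit 26) (.e (nat_lit 336030) (nat_lit 4) (.e (nat_lit 123184) (nat_lit 264) .nil))))))) (.g (nat_lit 0) .nil .nil))) 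
(.lf (nat_lit 18485) (.g (nat_lit 3030) (.e (nat_lit 1174) (nat_lit 87) (.e (nat_lit 57479) (nat_lit 28) (.e (nat_lit 557105) (nat_lit 14) (.e (nat_lit 180252) (nat_lit 10) (.e (nat_lit 573482) (nat_lit 13) (.e (nat_lit 65637) (nat_lit 15) (.e (nat_lit 3253) (nat_lit 197) (.e (nat_lit 532501) (nat_lit 1) (.e (nat_lit 57830) (nat_lit 250) .nil))))))))) (.g (nat_lit 4) .nil .nil))))) 
(.nd (nat_lit 4) (.nd (nat_lit 5) 
(.lf (nat_lit 18445) (.g (nat_lit 3386) (.e (nat_lit 1173) (nat_lit 87) (.e (nat_lit 57480) (nat_lit 28) (.e (nat_lit 557109) (nat_lit 15) (.e (nat_lit 188449) (nat_lit 22) (.e (nat_lit 196666) (nat_lit 13) (.e (nat_lit 65572) (nat_lit 4) (.e (nat_lit 123185) (nat_lit 264) .nil))))))) (.g (nat_lit 0) .nil .nil))) 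
(.lf (nat_lit 18477) (.g (nat_lit 1891) (.e (nat_lit 1174) (nat_lit 87) (.e (nat_lit 57477) (nat_lit 28) (.e (nat_lit 557108) (nat_lit 15) (.e (nat_lit 188452) (nat_lit 23) (.e (nat_lit 204863) (nat_lit 27) .nil))))) .nil))) (.nd (nat_lit 5) 
(.lf (nat_lit 18461) (.g (nat_lit 2922) (.e (nat_lit 1173) (nat_lit 87) (.e (nat_lit 57480) (nat_lit 28) (.e (nat_lit 557109) (nat_lit 15) (.e (nat_lit 188458) (nat_lit 25) (.e (nat_lit 245784) (nat_lit 9) .nil))))) .nil)) 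
(.lf (nat_lit 18493) (.g (nat_lit 3008) (.e (nat_lit 1174) (nat_lit 87) (.e (nat_lit 57479) (nat_lit 28) (.e (nat_lit 557105) (nat_lit 14) (.e (nat_lit 180252) (nat_lit 10) (.e (nat_lit 573489) (nat_lit 14) (.e (nat_lit 73755) (nat_lit 8) (.e (nat_lit 557090) (nat_lit 12) (.e (nat_lit 171776) (nat_lit 0) (.e (nat_lit 5057) (nat_lit 292) .nil))))))))) (.g (nat_lit 6) .nil .nil))))))) 
(.nd (nat_lit 2) (.nd (nat_lit 3) (.nd (nat_lit 4) (.nd (nat_lit 5) 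
(.lf (nat_lit 18435) (.g (nat_lit 4006) (.e (nat_lit 1173) (nat_lit 87) (.e (nat_lit 57480) (nat_lit 28) (.e (nat_lit 557108) (nat_lit 15) (.e (nat_lit 188452) (nat_lit 23) (.e (nat_lit 212736) (nat_lit 26) .nil))))) .nil)) 
(.lf (nat_lit 18467) (.g (nat_lit 2109) (.e (nat_lit 1173) (nat_lit 87) (.e (nat_lit 57847) (nat_lit 252) (.e (nat_lit 57435) (nat_lit 17) (.e (nat_lit 376842) (nat_lit 11) (.e (nat_lit 426315) (nat_lit 12) .nil))))) .nil))) (.nd (nat_lit 5) 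
(.lf (nat_lit 18451) (.g (nat_lit 3909) (.e (nat_lit 1173) (nat_lit 87) (.e (nat_lit 57480) (nat_lit 28) (.e (nat_lit 557109) (nat_lit 15) (.e (nat_lit 188452) (nat_lit 23) (.e (nat_lit 204855) (nat_lit 26) (.e (nat_lit 336030) (nat_lit 4) (.e (nat_lit 123182) (nat_lit 264) .nil))))))) (.g (nat_lit 0) .nil .nil))) 
(.lf (nat_lit 18483) (.g (nat_lit 3523) (.e (nat_lit 1174) (nat_lit 87) (.e (nat_lit 57479) (nat_lit 28) (.e (nat_lit 557105) (nat_lit 14) (.e (nat_lit 180252) (nat_lit 10) (.e (nat_lit 573481) (nat_lit 13) .nil))))) .nil)))) (.nd (nat_lit 4) (.nd (nat_lit 5) 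
(.lf (nat_lit 18443) (.g (nat_lit 3648) (.e (nat_lit 1173) (nat_lit 87) (.e (nat_lit 57480) (nat_lit 28) (.e (nat_lit 557109) (nat_lit 15) (.e (nat_lit 188449) (nat_lit 22) (.e (nat_lit 196666) (nat_lit 13) (.e (nat_lit 65572) (nat_lit 4) (.e (nat_lit 123183) (nat_lit 264) .nil))))))) (.g (nat_lit 0) .nil .nil))) 
(.lf (nat_lit 18475) (.g (nat_lit 3247) (.e (nat_lit 1173) (nat_lit 87) (.e (nat_lit 57931) (nat_lit 282) (.e (nat_lit 163869) (nat_lit 2) (.e (nat_lit 196670) (nat_lit 14) (.e (nat_lit 73755) (nat_lit 8) .nil))))) .nil))) (.nd (nat_lit 5) 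
(.lf (nat_lit 18459) (.g (nat_lit 2434) (.e (nat_lit 1173) (nat_lit 87) (.e (nat_lit 57480) (nat_lit 28) (.e (nat_lit 557109) (nat_lit 15) (.e (nat_lit 188452) (nat_lit 23) (.e (nat_lit 204864) (nat_lit 27) .nil))))) .nil)) 
(.lf (nat_lit 18491) (.g (nat_lit 3609) (.e (nat_lit 1174) (nat_lit 87) (.e (nat_lit 57479) (nat_lit 28) (.e (nat_lit 557105) (nat_lit 14) (.e (nat_lit 180252) (nat_lit 10) (.e (nat_lit 573488) (nat_lit 14) (.e (nat_lit 73747) (nat_lit 3) (.e (nat_lit 516115) (nat_lit 1) (.e (nat_lit 164154) (nat_lit 152) .nil)))))))) (.g (nat_lit 4) .nil .nil)))))) 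
(.nd (nat_lit 3) (.nd (nat_lit 4) (.nd (nat_lit 5) 
(.lf (nat_lit 18439) (.g (nat_lit 3088) (.e (nat_lit 1173) (nat_lit 87) (.e (nat_lit 57480) (nat_lit 28) (.e (nat_lit 557109) (nat_lit 15) (.e (nat_lit 188447) (nat_lit 22) (.e (nat_lit 196668) (nat_lit 14) .nil))))) .nil)) 
(.lf (nat_lit 18471) (.g (nat_lit 1841) (.e (nat_lit 1173) (nat_lit 87) (.e (nat_lit 57927) (nat_lit 282) (.e (nat_lit 163868) (nat_lit 2) (.e (nat_lit 196670) (nat_lit 14) (.e (nat_lit 73746) (nat_lit 3) .nil))))) .nil))) (.nd (nat_lit 5) 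
(.lf (nat_lit 18455) (.g (nat_lit 3020) (.e (nat_lit 1173) (nat_lit 87) (.e (nat_lit 57480) (nat_lit 28) (.e (nat_lit 557109) (nat_lit 15) (.e (nat_lit 188452) (nat_lit 23) (.e (nat_lit 204856) (nat_lit 26) .nil))))) .nil)) 
(.lf (nat_lit 18487) (.g (nat_lit 3789) (.e (nat_lit 1174) (nat_lit 87) (.e (nat_lit 57479) (nat_lit 28) (.e (nat_lit 557105) (nat_lit 14) (.e (nat_lit 180252) (nat_lit 10) (.e (nat_lit 573487) (nat_lit 14) (.e (nat_lit 73747) (nat_lit 3) (.e (nat_lit 516115) (nat_lit 1) (.e (nat_lit 164152) (nat_lit 152) .nil)))))))) (.g (nat_lit 5) .nil .nil))))) (.nd (nat_lit 4) (.nd (nat_lit 5) 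
(.lf (nat_lit 18447) (.g (nat_lit 3628) (.e (nat_lit 1173) (nat_lit 87) (.e (nat_lit 57480) (nat_lit 28) (.e (nat_lit 557109) (nat_lit 15) (.e (nat_lit 188449) (nat_lit 22) (.e (nat_lit 196667) (nat_lit 14) .nil))))) .nil)) 
(.lf (nat_lit 18479) (.g (nat_lit 2609) (.e (nat_lit 1174) (nat_lit 87) (.e (nat_lit 57479) (nat_lit 28) (.e (nat_lit 557101) (nat_lit 13) (.e (nat_lit 172097) (nat_lit 9) (.e (nat_lit 426140) (nat_lit 3) .nil))))) .nil))) (.nd (nat_lit 5) 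
(.lf (nat_lit 18463) (.g (nat_lit 1948) (.e (nat_lit 1173) (nat_lit 87) (.e (nat_lit 57480) (nat_lit 28) (.e (nat_lit 557109) (nat_lit 15) (.e (nat_lit 188461) (nat_lit 26) .nil)))) .nil)) 
(.lf (nat_lit 18495) (.g (nat_lit 2116) (.e (nat_lit 1174) (nat_lit 87) (.e (nat_lit 57479) (nat_lit 28) (.e (nat_lit 557109) (nat_lit 15) (.e (nat_lit 196352) (nat_lit 18) .nil)))) .nil))))))))

noncomputable def tv255 : DT := (.nd (nat_lit 0) (.nd (nat_lit 1) (.nd (nat_lit 2) (.nd (nat_lit 3) (.nd (nat_lit 4) (.nd (nat_lit 5) 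
(.lf (nat_lit 18496) (.g (nat_lit 3692) (.e (nat_lit 1174) (nat_lit 87) (.e (nat_lit 57480) (nat_lit 28) (.e (nat_lit 557108) (nat_lit 15) (.e (nat_lit 188452) (nat_lit 23) (.e (nat_lit 204849) (nat_lit 25) .nil))))) .nil)) 
(.lf (nat_lit 18528) (.g (nat_lit 4334) (.e (nat_lit 1175) (nat_lit 87) (.e (nat_lit 57476) (nat_lit 28) (.e (nat_lit 557108) (nat_lit 15) (.e (nat_lit 188449) (nat_lit 22) (.e (nat_lit 196667) (nat_lit 14) .nil))))) .nil))) (.nd (nat_lit 5) 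
(.lf (nat_lit 18512) (.g (nat_lit 3752) (.e (nat_lit 1175) (nat_lit 87) (.e (nat_lit 57476) (nat_lit 28) (.e (nat_lit 557097) (nat_lit 13) (.e (nat_lit 172097) (nat_lit 9) (.e (nat_lit 426125) (nat_lit 2) (.e (nat_lit 196666) (nat_lit 13) (.e (nat_lit 65572) (nat_lit 4) (.e (nat_lit 123185) (nat_lit 264) .nil)))))))) (.g (nat_lit 0) .nil .nil))) 
(.lf (nat_lit 18544) (.g (nat_lit 2085) (.e (nat_lit 1175) (nat_lit 87) (.e (nat_lit 57521) (nat_lit 44) (.e (nat_lit 688177) (nat_lit 16) (.e (nat_lit 65583) (nat_lit 7) (.e (nat_lit 319530) (nat_lit 16) (.e (nat_lit 286748) (nat_lit 9) (.e (nat_lit 336032) (nat_lit 4) (.e (nat_lit 123183) (nat_lit 264) .nil)))))))) (.g (nat_lit 5) .nil .nil))))) (.nd (nat_lit 4) (.nd (nat_lit 5) 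
(.lf (nat_lit 18504) (.g (nat_lit 3103) (.e (nat_lit 1175) (nat_lit 87) (.e (nat_lit 57464) (nat_lit 23) (.e (nat_lit 516130) (nat_lit 3) (.e (nat_lit 221212) (nat_lit 22) (.e (nat_lit 196668) (nat_lit 14) (.e (nat_lit 73747) (nat_lit 3) (.e (nat_lit 516115) (nat_lit 1) (.e (nat_lit 164153) (nat_lit 152) .nil)))))))) (.g (nat_lit 0) .nil .nil))) 
(.lf (nat_lit 18536) (.g (nat_lit 3647) (.e (nat_lit 1175) (nat_lit 87) (.e (nat_lit 57478) (nat_lit 28) (.e (nat_lit 557109) (nat_lit 15) (.e (nat_lit 188449) (nat_lit 22) (.e (nat_lit 196670) (nat_lit 14) .nil))))) .nil))) (.nd (nat_lit 5) 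
(.lf (nat_lit 18520) (.g (nat_lit 3231) (.e (nat_lit 1175) (nat_lit 87) (.e (nat_lit 57476) (nat_lit 28) (.e (nat_lit 557107) (nat_lit 15) (.e (nat_lit 188447) (nat_lit 22) (.e (nat_lit 196666) (nat_lit 13) (.e (nat_lit 65574) (nat_lit 4) (.e (nat_lit 123185) (nat_lit 264) .nil))))))) (.g (nat_lit 0) .nil .nil))) 
(.lf (nat_lit 18552) (.g (nat_lit 3144) (.e (nat_lit 1175) (nat_lit 87) (.e (nat_lit 57926) (nat_lit 282) (.e (nat_lit 163869) (nat_lit 2) (.e (nat_lit 196670) (nat_lit 14) (.e (nat_lit 73746) (nat_lit 3) (.e (nat_lit 516131) (nat_lit 3) (.e (nat_lit 221212) (nat_lit 22) (.e (nat_lit 196625) (nat_lit 9) .nil)))))))) (.g (nat_lit 6) .nil .nil)))))) 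
(.nd (nat_lit 3) (.nd (nat_lit 4) (.nd (nat_lit 5) 
(.lf (nat_lit 18500) (.g (nat_lit 1907) (.e (nat_lit 1174) (nat_lit 87) (.e (nat_lit 57926) (nat_lit 282) (.e (nat_lit 163869) (nat_lit 2) (.e (nat_lit 196670) (nat_lit 14) (.e (nat_lit 73746) (nat_lit 3) (.e (nat_lit 516129) (nat_lit 3) (.e (nat_lit 221210) (nat_lit 22) (.e (nat_lit 196625) (nat_lit 9) .nil)))))))) (.g (nat_lit 4) .nil .nil))) 
(.lf (nat_lit 18532) (.g (nat_lit 2680) (.e (nat_lit 1175) (nat_lit 87) (.e (nat_lit 57478) (nat_lit 28) (.e (nat_lit 557098) (nat_lit 13) (.e (nat_lit 172097) (nat_lit 9) (.e (nat_lit 426140) (nat_lit 3) (.e (nat_lit 204855) (nat_lit 26) (.e (nat_lit 336030) (nat_lit 4) (.e (nat_lit 123185) (nat_lit 264) .nil)))))))) (.g (nat_lit 5) .nil .nil)))) (.nd (nat_lit 5) 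
(.lf (nat_lit 18516) (.g (nat_lit 4633) (.e (nat_lit 1175) (nat_lit 87) (.e (nat_lit 57476) (nat_lit 28) (.e (nat_lit 557097) (nat_lit 13) (.e (nat_lit 172115) (nat_lit 10) (.e (nat_lit 434231) (nat_lit 23) (.e (nat_lit 532535) (nat_lit 9) (.e (nat_lit 336030) (nat_lit 4) (.e (nat_lit 123182) (nat_lit 264) .nil)))))))) (.g (nat_lit 0) .nil .nil))) 
(.lf (nat_lit 18548) (.g (nat_lit 2583) (.e (nat_lit 1175) (nat_lit 87) (.e (nat_lit 57849) (nat_lit 252) (.e (nat_lit 57375) (nat_lit 2) (.e (nat_lit 90128) (nat_lit 9) (.e (nat_lit 297) (nat_lit 22) .nil))))) .nil)))) (.nd (nat_lit 4) (.nd (nat_lit 5) 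
(.lf (nat_lit 18508) (.g (nat_lit 2126) (.e (nat_lit 1175) (nat_lit 87) (.e (nat_lit 57464) (nat_lit 23) (.e (nat_lit 516151) (nat_lit 9) (.e (nat_lit 426191) (nat_lit 9) .nil)))) .nil)) 
(.lf (nat_lit 18540) (.g (nat_lit 2055) (.e (nat_lit 1175) (nat_lit 87) (.e (nat_lit 57520) (nat_lit 44) (.e (nat_lit 688177) (nat_lit 16) (.e (nat_lit 65586) (nat_lit 7) (.e (nat_lit 319531) (nat_lit 16) (.e (nat_lit 286748) (nat_lit 9) (.e (nat_lit 336032) (nat_lit 4) (.e (nat_lit 123182) (nat_lit 264) .nil)))))))) (.g (nat_lit 4) .nil .nil)))) (.nd (nat_lit 5) 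
(.lf (nat_lit 18524) (.g (nat_lit 3619) (.e (nat_lit 1175) (nat_lit 87) (.e (nat_lit 57476) (nat_lit 28) (.e (nat_lit 557108) (nat_lit 15) (.e (nat_lit 188449) (nat_lit 22) (.e (nat_lit 196666) (nat_lit 13) (.e (nat_lit 65572) (nat_lit 4) (.e (nat_lit 123182) (nat_lit 264) .nil))))))) (.g (nat_lit 0) .nil .nil))) 
(.lf (nat_lit 18556) (.g (nat_lit 3542) (.e (nat_lit 1176) (nat_lit 87) (.e (nat_lit 57478) (nat_lit 28) (.e (nat_lit 557105) (nat_lit 14) (.e (nat_lit 180252) (nat_lit 10) (.e (nat_lit 573488) (nat_lit 14) (.e (nat_lit 73747) (nat_lit 3) (.e (nat_lit 516119) (nat_lit 1) (.e (nat_lit 164168) (nat_lit 152) .nil)))))))) (.g (nat_lit 6) .nil .nil))))))) 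
(.nd (nat_lit 2) (.nd (nat_lit 3) (.nd (nat_lit 4) (.nd (nat_lit 5) 
(.lf (nat_lit 18498) (.g (nat_lit 1661) (.e (nat_lit 1174) (nat_lit 87) (.e (nat_lit 57854) (nat_lit 252) (.e (nat_lit 57409) (nat_lit 12) (.e (nat_lit 336211) (nat_lit 13) .nil)))) .nil)) 
(.lf (nat_lit 18530) (.g (nat_lit 3720) (.e (nat_lit 1175) (nat_lit 87) (.e (nat_lit 57476) (nat_lit 28) (.e (nat_lit 557108) (nat_lit 15) (.e (nat_lit 188452) (nat_lit 23) (.e (nat_lit 204849) (nat_lit 25) (.e (nat_lit 327692) (nat_lit 1) (.e (nat_lit 8433) (nat_lit 138) .nil))))))) (.g (nat_lit 4) .nil .nil)))) (.nd (nat_lit 5) 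
(.lf (nat_lit 18514) (.g (nat_lit 4331) (.e (nat_lit 1175) (nat_lit 87) (.e (nat_lit 57476) (nat_lit 28) (.e (nat_lit 557097) (nat_lit 13) (.e (nat_lit 172097) (nat_lit 9) (.e (nat_lit 426125) (nat_lit 2) (.e (nat_lit 196666) (nat_lit 13) (.e (nat_lit 65574) (nat_lit 4) (.e (nat_lit 123182) (nat_lit 264) .nil)))))))) (.g (nat_lit 8) .nil .nil))) 
(.lf (nat_lit 18546) (.g (nat_lit 2427) (.e (nat_lit 1175) (nat_lit 87) (.e (nat_lit 57849) (nat_lit 252) (.e (nat_lit 57372) (nat_lit 2) (.e (nat_lit 90128) (nat_lit 9) (.e (nat_lit 297) (nat_lit 22) .nil))))) .nil)))) (.nd (nat_lit 4) (.nd (nat_lit 5) 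
(.lf (nat_lit 18506) (.g (nat_lit 2102) (.e (nat_lit 1175) (nat_lit 87) (.e (nat_lit 57464) (nat_lit 23) (.e (nat_lit 516151) (nat_lit 9) (.e (nat_lit 426132) (nat_lit 3) .nil)))) .nil)) 
(.lf (nat_lit 18538) (.g (nat_lit 2592) (.e (nat_lit 1175) (nat_lit 87) (.e (nat_lit 57478) (nat_lit 28) (.e (nat_lit 557109) (nat_lit 15) (.e (nat_lit 188452) (nat_lit 23) (.e (nat_lit 204864) (nat_lit 27) .nil))))) .nil))) (.nd (nat_lit 5) 
(.lf (nat_lit 18522) (.g (nat_lit 1161) (.e (nat_lit 1175) (nat_lit 87) (.e (nat_lit 57476) (nat_lit 28) (.e (nat_lit 557107) (nat_lit 15) (.e (nat_lit 188452) (nat_lit 23) .nil)))) .nil)) 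
(.lf (nat_lit 18554) (.g (nat_lit 1495) (.e (nat_lit 1176) (nat_lit 87) (.e (nat_lit 57478) (nat_lit 28) (.e (nat_lit 557098) (nat_lit 13) (.e (nat_lit 172086) (nat_lit 9) .nil)))) .nil))))) (.nd (nat_lit 3) (.nd (nat_lit 4) (.nd (nat_lit 5) 
(.lf (nat_lit 18502) (.g (nat_lit 2441) (.e (nat_lit 1174) (nat_lit 87) (.e (nat_lit 57931) (nat_lit 282) (.e (nat_lit 163869) (nat_lit 2) (.e (nat_lit 196670) (nat_lit 14) (.e (nat_lit 73746) (nat_lit 3) .nil))))) .nil)) 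
(.lf (nat_lit 18534) (.g (nat_lit 2908) (.e (nat_lit 1175) (nat_lit 87) (.e (nat_lit 57478) (nat_lit 28) (.e (nat_lit 557108) (nat_lit 15) (.e (nat_lit 188452) (nat_lit 23) (.e (nat_lit 204849) (nat_lit 25) .nil))))) .nil))) (.nd (nat_lit 5) 
(.lf (nat_lit 18518) (.g (nat_lit 3022) (.e (nat_lit 1175) (nat_lit 87) (.e (nat_lit 57476) (nat_lit 28) (.e (nat_lit 557107) (nat_lit 15) (.e (nat_lit 188447) (nat_lit 22) (.e (nat_lit 196666) (nat_lit 13) (.e (nat_lit 65572) (nat_lit 4) (.e (nat_lit 123185) (nat_lit 264) .nil))))))) (.g (nat_lit 0) .nil .nil))) 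
(.lf (nat_lit 18550) (.g (nat_lit 1843) (.e (nat_lit 1175) (nat_lit 87) (.e (nat_lit 57849) (nat_lit 252) (.e (nat_lit 57411) (nat_lit 12) (.e (nat_lit 336211) (nat_lit 13) .nil)))) .nil)))) (.nd (nat_lit 4) (.nd (nat_lit 5) 
(.lf (nat_lit 18510) (.g (nat_lit 1987) (.e (nat_lit 1175) (nat_lit 87) (.e (nat_lit 57464) (nat_lit 23) (.e (nat_lit 516151) (nat_lit 9) (.e (nat_lit 426331) (nat_lit 13) .nil)))) .nil)) 
(.lf (nat_lit 18542) (.g (nat_lit 1982) (.e (nat_lit 1175) (nat_lit 87) (.e (nat_lit 57521) (nat_lit 44) (.e (nat_lit 688177) (nat_lit 16) (.e (nat_lit 65583) (nat_lit 7) (.e (nat_lit 319530) (nat_lit 16) (.e (nat_lit 286742) (nat_lit 9) (.e (nat_lit 336032) (nat_lit 4) (.e (nat_lit 123185) (nat_lit 264) .nil)))))))) (.g (nat_lit 5) .nil .nil)))) (.nd (nat_lit 5) 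
(.lf (nat_lit 18526) (.g (nat_lit 3816) (.e (nat_lit 1175) (nat_lit 87) (.e (nat_lit 57476) (nat_lit 28) (.e (nat_lit 557108) (nat_lit 15) (.e (nat_lit 188449) (nat_lit 22) (.e (nat_lit 196666) (nat_lit 13) (.e (nat_lit 65574) (nat_lit 4) (.e (nat_lit 123182) (nat_lit 264) .nil))))))) (.g (nat_lit 7) .nil .nil))) 
(.lf (nat_lit 18558) (.g (nat_lit 3001) (.e (nat_lit 1176) (nat_lit 87) (.e (nat_lit 57478) (nat_lit 28) (.e (nat_lit 557105) (nat_lit 14) (.e (nat_lit 180252) (nat_lit 10) (.e (nat_lit 573489) (nat_lit 14) (.e (nat_lit 73755) (nat_lit 8) (.e (nat_lit 557090) (nat_lit 12) (.e (nat_lit 163852) (nat_lit 0) (.e (nat_lit 5079) (nat_lit 292) .nil))))))))) (.g (nat_lit 6) .nil .nil)))))))) 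
(.nd (nat_lit 1) (.nd (nat_lit 2) (.nd (nat_lit 3) (.nd (nat_lit 4) (.nd (nat_lit 5) 
(.lf (nat_lit 18497) (.g (nat_lit 2696) (.e (nat_lit 1174) (nat_lit 87) (.e (nat_lit 57854) (nat_lit 252) (.e (nat_lit 57373) (nat_lit 2) (.e (nat_lit 90128) (nat_lit 9) (.e (nat_lit 297) (nat_lit 22) .nil))))) .nil)) 
(.lf (nat_lit 18529) (.g (nat_lit 3341) (.e (nat_lit 1175) (nat_lit 87) (.e (nat_lit 57476) (nat_lit 28) (.e (nat_lit 557108) (nat_lit 15) (.e (nat_lit 188449) (nat_lit 22) (.e (nat_lit 196668) (nat_lit 14) .nil))))) .nil))) (.nd (nat_lit 5) 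
(.lf (nat_lit 18513) (.g (nat_lit 3641) (.e (nat_lit 1175) (nat_lit 87) (.e (nat_lit 57476) (nat_lit 28) (.e (nat_lit 557097) (nat_lit 13) (.e (nat_lit 172097) (nat_lit 9) (.e (nat_lit 426125) (nat_lit 2) (.e (nat_lit 196666) (nat_lit 13) (.e (nat_lit 65573) (nat_lit 4) (.e (nat_lit 123182) (nat_lit 264) .nil)))))))) (.g (nat_lit 6) .nil .nil))) 
(.lf (nat_lit 18545) (.g (nat_lit 2355) (.e (nat_lit 1175) (nat_lit 87) (.e (nat_lit 57848) (nat_lit 252) (.e (nat_lit 57372) (nat_lit 2) (.e (nat_lit 90128) (nat_lit 9) (.e (nat_lit 297) (nat_lit 22) .nil))))) .nil)))) (.nd (nat_lit 4) (.nd (nat_lit 5) 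
(.lf (nat_lit 18505) (.g (nat_lit 3318) (.e (nat_lit 1175) (nat_lit 87) (.e (nat_lit 57464) (nat_lit 23) (.e (nat_lit 516130) (nat_lit 3) (.e (nat_lit 221212) (nat_lit 22) (.e (nat_lit 196670) (nat_lit 14) (.e (nat_lit 73746) (nat_lit 3) (.e (nat_lit 516115) (nat_lit 1) (.e (nat_lit 164153) (nat_lit 152) .nil)))))))) (.g (nat_lit 0) .nil .nil))) 
(.lf (nat_lit 18537) (.g (nat_lit 2468) (.e (nat_lit 1175) (nat_lit 87) (.e (nat_lit 57478) (nat_lit 28) (.e (nat_lit 557109) (nat_lit 15) (.e (nat_lit 188452) (nat_lit 23) (.e (nat_lit 204863) (nat_lit 27) .nil))))) .nil))) (.nd (nat_lit 5) 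
(.lf (nat_lit 18521) (.g (nat_lit 2648) (.e (nat_lit 1175) (nat_lit 87) (.e (nat_lit 57476) (nat_lit 28) (.e (nat_lit 557107) (nat_lit 15) (.e (nat_lit 188450) (nat_lit 23) (.e (nat_lit 204855) (nat_lit 26) (.e (nat_lit 336030) (nat_lit 4) (.e (nat_lit 123185) (nat_lit 264) .nil))))))) (.g (nat_lit 0) .nil .nil))) 
(.lf (nat_lit 18553) (.g (nat_lit 2339) (.e (nat_lit 1175) (nat_lit 87) (.e (nat_lit 57926) (nat_lit 282) (.e (nat_lit 163874) (nat_lit 3) (.e (nat_lit 204864) (nat_lit 27) (.e (nat_lit 344130) (nat_lit 26) (.e (nat_lit 557104) (nat_lit 14) (.e (nat_lit 180252) (nat_lit 10) (.e (nat_lit 573452) (nat_lit 9) .nil)))))))) (.g (nat_lit 4) .nil .nil)))))) 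
(.nd (nat_lit 3) (.nd (nat_lit 4) (.nd (nat_lit 5) 
(.lf (nat_lit 18501) (.g (nat_lit 1821) (.e (nat_lit 1174) (nat_lit 87) (.e (nat_lit 57926) (nat_lit 282) (.e (nat_lit 163869) (nat_lit 2) (.e (nat_lit 196670) (nat_lit 14) (.e (nat_lit 73746) (nat_lit 3) (.e (nat_lit 516131) (nat_lit 3) (.e (nat_lit 221212) (nat_lit 22) (.e (nat_lit 196623) (nat_lit 9) .nil)))))))) (.g (nat_lit 4) .nil .nil))) 
(.lf (nat_lit 18533) (.g (nat_lit 2608) (.e (nat_lit 1175) (nat_lit 87) (.e (nat_lit 57478) (nat_lit 28) (.e (nat_lit 557107) (nat_lit 15) (.e (nat_lit 188447) (nat_lit 22) (.e (nat_lit 196668) (nat_lit 14) .nil))))) .nil))) (.nd (nat_lit 5) 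
(.lf (nat_lit 18517) (.g (nat_lit 3950) (.e (nat_lit 1175) (nat_lit 87) (.e (nat_lit 57476) (nat_lit 28) (.e (nat_lit 557097) (nat_lit 13) (.e (nat_lit 172115) (nat_lit 10) (.e (nat_lit 434231) (nat_lit 23) (.e (nat_lit 532535) (nat_lit 9) (.e (nat_lit 336030) (nat_lit 4) (.e (nat_lit 123185) (nat_lit 264) .nil)))))))) (.g (nat_lit 0) .nil .nil))) 
(.lf (nat_lit 18549) (.g (nat_lit 1924) (.e (nat_lit 1175) (nat_lit 87) (.e (nat_lit 57849) (nat_lit 252) (.e (nat_lit 57377) (nat_lit 3) (.e (nat_lit 106240) (nat_lit 10) .nil)))) .nil)))) (.nd (nat_lit 4) (.nd (nat_lit 5) 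
(.lf (nat_lit 18509) (.g (nat_lit 2147) (.e (nat_lit 1175) (nat_lit 87) (.e (nat_lit 57464) (nat_lit 23) (.e (nat_lit 516151) (nat_lit 9) (.e (nat_lit 426195) (nat_lit 9) .nil)))) .nil)) 
(.lf (nat_lit 18541) (.g (nat_lit 2174) (.e (nat_lit 1175) (nat_lit 87) (.e (nat_lit 57521) (nat_lit 44) (.e (nat_lit 688177) (nat_lit 16) (.e (nat_lit 65583) (nat_lit 7) (.e (nat_lit 319530) (nat_lit 16) (.e (nat_lit 286742) (nat_lit 9) (.e (nat_lit 336032) (nat_lit 4) (.e (nat_lit 123184) (nat_lit 264) .nil)))))))) (.g (nat_lit 6) .nil .nil)))) (.nd (nat_lit 5) 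
(.lf (nat_lit 18525) (.g (nat_lit 3099) (.e (nat_lit 1175) (nat_lit 87) (.e (nat_lit 57476) (nat_lit 28) (.e (nat_lit 557108) (nat_lit 15) (.e (nat_lit 188449) (nat_lit 22) (.e (nat_lit 196666) (nat_lit 13) (.e (nat_lit 65572) (nat_lit 4) (.e (nat_lit 123185) (nat_lit 264) .nil))))))) (.g (nat_lit 0) .nil .nil))) 
(.lf (nat_lit 18557) (.g (nat_lit 2121) (.e (nat_lit 1176) (nat_lit 87) (.e (nat_lit 57478) (nat_lit 28) (.e (nat_lit 557105) (nat_lit 14) (.e (nat_lit 180252) (nat_lit 10) (.e (nat_lit 573489) (nat_lit 14) .nil))))) .nil)))))) (.nd (nat_lit 2) (.nd (nat_lit 3) (.nd (nat_lit 4) (.nd (nat_lit 5) 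
(.lf (nat_lit 18499) (.g (nat_lit 2170) (.e (nat_lit 1174) (nat_lit 87) (.e (nat_lit 57926) (nat_lit 282) (.e (nat_lit 163868) (nat_lit 2) (.e (nat_lit 196670) (nat_lit 14) (.e (nat_lit 73746) (nat_lit 3) (.e (nat_lit 516131) (nat_lit 3) (.e (nat_lit 221212) (nat_lit 22) (.e (nat_lit 196625) (nat_lit 9) .nil)))))))) (.g (nat_lit 4) .nil .nil))) 
(.lf (nat_lit 18531) (.g (nat_lit 1399) (.e (nat_lit 1175) (nat_lit 87) (.e (nat_lit 57476) (nat_lit 28) (.e (nat_lit 557108) (nat_lit 15) (.e (nat_lit 188458) (nat_lit 25) .nil)))) .nil))) (.nd (nat_lit 5) 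
(.lf (nat_lit 18515) (.g (nat_lit 3772) (.e (nat_lit 1175) (nat_lit 87) (.e (nat_lit 57476) (nat_lit 28) (.e (nat_lit 557097) (nat_lit 13) (.e (nat_lit 172097) (nat_lit 9) (.e (nat_lit 426125) (nat_lit 2) (.e (nat_lit 196666) (nat_lit 13) (.e (nat_lit 65574) (nat_lit 4) (.e (nat_lit 123185) (nat_lit 264) .nil)))))))) (.g (nat_lit 0) .nil .nil))) 
(.lf (nat_lit 18547) (.g (nat_lit 2887) (.e (nat_lit 1175) (nat_lit 87) (.e (nat_lit 57849) (nat_lit 252) (.e (nat_lit 57372) (nat_lit 2) (.e (nat_lit 90128) (nat_lit 9) (.e (nat_lit 304) (nat_lit 22) .nil))))) .nil)))) (.nd (nat_lit 4) (.nd (nat_lit 5) 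
(.lf (nat_lit 18507) (.g (nat_lit 1963) (.e (nat_lit 1175) (nat_lit 87) (.e (nat_lit 57464) (nat_lit 23) (.e (nat_lit 516151) (nat_lit 9) (.e (nat_lit 426185) (nat_lit 9) .nil)))) .nil)) 
(.lf (nat_lit 18539) (.g (nat_lit 3298) (.e (nat_lit 1175) (nat_lit 87) (.e (nat_lit 57478) (nat_lit 28) (.e (nat_lit 557109) (nat_lit 15) (.e (nat_lit 188458) (nat_lit 25) (.e (nat_lit 245784) (nat_lit 9) .nil))))) .nil))) (.nd (nat_lit 5) 
(.lf (nat_lit 18523) (.g (nat_lit 4587) (.e (nat_lit 1175) (nat_lit 87) (.e (nat_lit 57476) (nat_lit 28) (.e (nat_lit 557108) (nat_lit 15) (.e (nat_lit 188449) (nat_lit 22) (.e (nat_lit 196663) (nat_lit 13) .nil))))) .nil)) 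
(.lf (nat_lit 18555) (.g (nat_lit 2266) (.e (nat_lit 1176) (nat_lit 87) (.e (nat_lit 57478) (nat_lit 28) (.e (nat_lit 557098) (nat_lit 13) (.e (nat_lit 172123) (nat_lit 13) (.e (nat_lit 483337) (nat_lit 9) .nil))))) .nil))))) (.nd (nat_lit 3) (.nd (nat_lit 4) (.nd (nat_lit 5) 
(.lf (nat_lit 18503) (.g (nat_lit 1857) (.e (nat_lit 1174) (nat_lit 87) (.e (nat_lit 57931) (nat_lit 282) (.e (nat_lit 163874) (nat_lit 3) (.e (nat_lit 204872) (nat_lit 30) (.e (nat_lit 368676) (nat_lit 21) .nil))))) .nil)) 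
(.lf (nat_lit 18535) (.g (nat_lit 3414) (.e (nat_lit 1175) (nat_lit 87) (.e (nat_lit 57478) (nat_lit 28) (.e (nat_lit 557109) (nat_lit 15) (.e (nat_lit 188447) (nat_lit 22) (.e (nat_lit 196668) (nat_lit 14) .nil))))) .nil))) (.nd (nat_lit 5) 
(.lf (nat_lit 18519) (.g (nat_lit 3802) (.e (nat_lit 1175) (nat_lit 87) (.e (nat_lit 57476) (nat_lit 28) (.e (nat_lit 557107) (nat_lit 15) (.e (nat_lit 188447) (nat_lit 22) (.e (nat_lit 196666) (nat_lit 13) (.e (nat_lit 65574) (nat_lit 4) (.e (nat_lit 123182) (nat_lit 264) .nil))))))) (.g (nat_lit 7) .nil .nil))) 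
(.lf (nat_lit 18551) (.g (nat_lit 2518) (.e (nat_lit 1175) (nat_lit 87) (.e (nat_lit 57849) (nat_lit 252) (.e (nat_lit 57437) (nat_lit 17) (.e (nat_lit 376842) (nat_lit 11) (.e (nat_lit 426306) (nat_lit 12) .nil))))) .nil)))) (.nd (nat_lit 4) (.nd (nat_lit 5) 
(.lf (nat_lit 18511) (.g (nat_lit 997) (.e (nat_lit 1175) (nat_lit 87) (.e (nat_lit 57464) (nat_lit 23) (.e (nat_lit 516163) (nat_lit 11) (.e (nat_lit 450304) (nat_lit 18) .nil)))) .nil)) 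
(.lf (nat_lit 18543) (.g (nat_lit 3706) (.e (nat_lit 1175) (nat_lit 87) (.e (nat_lit 57521) (nat_lit 44) (.e (nat_lit 688177) (nat_lit 16) (.e (nat_lit 65583) (nat_lit 7) (.e (nat_lit 319530) (nat_lit 16) (.e (nat_lit 286748) (nat_lit 9) (.e (nat_lit 336032) (nat_lit 4) (.e (nat_lit 123182) (nat_lit 264) .nil)))))))) (.g (nat_lit 0) .nil .nil)))) (.nd (nat_lit 5) 
(.lf (nat_lit 18527) (.g (nat_lit 3251) (.e (nat_lit 1175) (nat_lit 87) (.e (nat_lit 57476) (nat_lit 28) (.e (nat_lit 557108) (nat_lit 15) (.e (nat_lit 188449) (nat_lit 22) (.e (nat_lit 196666) (nat_lit 13) (.e (nat_lit 65574) (nat_lit 4) (.e (nat_lit 123185) (nat_lit 264) .nil))))))) (.g (nat_lit 0) .nil .nil))) 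
(.lf (nat_lit 18559) (.g (nat_lit 3020) (.e (nat_lit 1176) (nat_lit 87) (.e (nat_lit 57478) (nat_lit 28) (.e (nat_lit 557105) (nat_lit 14) (.e (nat_lit 180252) (nat_lit 10) (.e (nat_lit 573489) (nat_lit 14) (.e (nat_lit 73755) (nat_lit 8) (.e (nat_lit 557090) (nat_lit 12) (.e (nat_lit 163852) (nat_lit 0) (.e (nat_lit 5089) (nat_lit 292) .nil))))))))) (.g (nat_lit 6) .nil .nil)))))))))

noncomputable def tv256 : DT := (.nd (nat_lit 0) (.nd (nat_lit 1) (.nd (nat_lit 2) (.nd (nat_lit 3) (.nd (nat_lit 4) (.nd (nat_lit 5) 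
(.lf (nat_lit 18560) (.g (nat_lit 1610) (.e (nat_lit 1176) (nat_lit 87) (.e (nat_lit 57478) (nat_lit 28) (.e (nat_lit 557107) (nat_lit 15) (.e (nat_lit 188421) (nat_lit 11) .nil)))) .nil)) 
(.lf (nat_lit 18592) (.g (nat_lit 2451) (.e (nat_lit 1176) (nat_lit 87) (.e (nat_lit 57479) (nat_lit 28) (.e (nat_lit 557105) (nat_lit 14) (.e (nat_lit 180252) (nat_lit 10) (.e (nat_lit 573489) (nat_lit 14) (.e (nat_lit 73755) (nat_lit 8) (.e (nat_lit 557090) (nat_lit 12) (.e (nat_lit 163846) (nat_lit 0) (.e (nat_lit 5086) (nat_lit 292) .nil))))))))) (.g (nat_lit 5) .nil .nil)))) (.nd (nat_lit 5) 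
(.lf (nat_lit 18576) (.g (nat_lit 2591) (.e (nat_lit 1176) (nat_lit 87) (.e (nat_lit 57478) (nat_lit 28) (.e (nat_lit 557109) (nat_lit 15) (.e (nat_lit 188422) (nat_lit 11) (.e (nat_lit 336387) (nat_lit 27) .nil))))) .nil)) 
(.lf (nat_lit 18608) (.g (nat_lit 2062) (.e (nat_lit 1176) (nat_lit 87) (.e (nat_lit 57479) (nat_lit 28) (.e (nat_lit 557109) (nat_lit 15) (.e (nat_lit 196352) (nat_lit 18) .nil)))) .nil)))) (.nd (nat_lit 4) (.nd (nat_lit 5) 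
(.lf (nat_lit 18568) (.g (nat_lit 2571) (.e (nat_lit 1176) (nat_lit 87) (.e (nat_lit 57478) (nat_lit 28) (.e (nat_lit 557108) (nat_lit 15) (.e (nat_lit 188452) (nat_lit 23) (.e (nat_lit 204816) (nat_lit 17) .nil))))) .nil)) 
(.lf (nat_lit 18600) (.g (nat_lit 4342) (.e (nat_lit 1176) (nat_lit 87) (.e (nat_lit 57479) (nat_lit 28) (.e (nat_lit 557105) (nat_lit 14) (.e (nat_lit 180252) (nat_lit 10) (.e (nat_lit 573489) (nat_lit 14) (.e (nat_lit 73755) (nat_lit 8) (.e (nat_lit 557090) (nat_lit 12) (.e (nat_lit 163851) (nat_lit 0) (.e (nat_lit 5096) (nat_lit 292) .nil))))))))) (.g (nat_lit 7) .nil .nil)))) (.nd (nat_lit 5) 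
(.lf (nat_lit 18584) (.g (nat_lit 2616) (.e (nat_lit 1176) (nat_lit 87) (.e (nat_lit 57479) (nat_lit 28) (.e (nat_lit 557101) (nat_lit 13) (.e (nat_lit 172115) (nat_lit 10) (.e (nat_lit 434231) (nat_lit 23) .nil))))) .nil)) 
(.lf (nat_lit 18616) (.g (nat_lit 3683) (.e (nat_lit 1176) (nat_lit 87) (.e (nat_lit 57480) (nat_lit 28) (.e (nat_lit 557108) (nat_lit 15) (.e (nat_lit 188452) (nat_lit 23) (.e (nat_lit 204848) (nat_lit 25) .nil))))) .nil))))) (.nd (nat_lit 3) (.nd (nat_lit 4) (.nd (nat_lit 5) 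
(.lf (nat_lit 18564) (.g (nat_lit 1775) (.e (nat_lit 1176) (nat_lit 87) (.e (nat_lit 57478) (nat_lit 28) (.e (nat_lit 557107) (nat_lit 15) (.e (nat_lit 196352) (nat_lit 18) .nil)))) .nil)) 
(.lf (nat_lit 18596) (.g (nat_lit 2451) (.e (nat_lit 1176) (nat_lit 87) (.e (nat_lit 57479) (nat_lit 28) (.e (nat_lit 557105) (nat_lit 14) (.e (nat_lit 180252) (nat_lit 10) (.e (nat_lit 573489) (nat_lit 14) (.e (nat_lit 73755) (nat_lit 8) (.e (nat_lit 557090) (nat_lit 12) (.e (nat_lit 163846) (nat_lit 0) (.e (nat_lit 5093) (nat_lit 292) .nil))))))))) (.g (nat_lit 5) .nil .nil)))) (.nd (nat_lit 5) 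
(.lf (nat_lit 18580) (.g (nat_lit 4838) (.e (nat_lit 1176) (nat_lit 87) (.e (nat_lit 57478) (nat_lit 28) (.e (nat_lit 557109) (nat_lit 15) (.e (nat_lit 188452) (nat_lit 23) (.e (nat_lit 204848) (nat_lit 25) .nil))))) .nil)) 
(.lf (nat_lit 18612) (.g (nat_lit 2182) (.e (nat_lit 1176) (nat_lit 87) (.e (nat_lit 57480) (nat_lit 28) (.e (nat_lit 557108) (nat_lit 15) (.e (nat_lit 196352) (nat_lit 18) .nil)))) .nil)))) (.nd (nat_lit 4) (.nd (nat_lit 5) 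
(.lf (nat_lit 18572) (.g (nat_lit 4196) (.e (nat_lit 1176) (nat_lit 87) (.e (nat_lit 57478) (nat_lit 28) (.e (nat_lit 557108) (nat_lit 15) (.e (nat_lit 188452) (nat_lit 23) (.e (nat_lit 204849) (nat_lit 25) (.e (nat_lit 327692) (nat_lit 1) (.e (nat_lit 8435) (nat_lit 138) .nil))))))) (.g (nat_lit 0) .nil .nil))) 
(.lf (nat_lit 18604) (.g (nat_lit 4371) (.e (nat_lit 1176) (nat_lit 87) (.e (nat_lit 57479) (nat_lit 28) (.e (nat_lit 557105) (nat_lit 14) (.e (nat_lit 180252) (nat_lit 10) (.e (nat_lit 573489) (nat_lit 14) (.e (nat_lit 73755) (nat_lit 8) (.e (nat_lit 557090) (nat_lit 12) (.e (nat_lit 163852) (nat_lit 0) (.e (nat_lit 5097) (nat_lit 292) .nil))))))))) (.g (nat_lit 9) .nil .nil)))) (.nd (nat_lit 5) 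
(.lf (nat_lit 18588) (.g (nat_lit 2451) (.e (nat_lit 1176) (nat_lit 87) (.e (nat_lit 57479) (nat_lit 28) (.e (nat_lit 557105) (nat_lit 14) (.e (nat_lit 180252) (nat_lit 10) (.e (nat_lit 573489) (nat_lit 14) (.e (nat_lit 73755) (nat_lit 8) (.e (nat_lit 557090) (nat_lit 12) (.e (nat_lit 163846) (nat_lit 0) (.e (nat_lit 5078) (nat_lit 292) .nil))))))))) (.g (nat_lit 5) .nil .nil))) 
(.lf (nat_lit 18620) (.g (nat_lit 3522) (.e (nat_lit 1176) (nat_lit 87) (.e (nat_lit 57480) (nat_lit 28) (.e (nat_lit 557108) (nat_lit 15) (.e (nat_lit 188452) (nat_lit 23) (.e (nat_lit 204874) (nat_lit 30) .nil))))) .nil)))))) (.nd (nat_lit 2) (.nd (nat_lit 3) (.nd (nat_lit 4) (.nd (nat_lit 5) 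
(.lf (nat_lit 18562) (.g (nat_lit 1510) (.e (nat_lit 1176) (nat_lit 87) (.e (nat_lit 57478) (nat_lit 28) (.e (nat_lit 557107) (nat_lit 15) (.e (nat_lit 188423) (nat_lit 11) .nil)))) .nil)) 
(.lf (nat_lit 18594) (.g (nat_lit 2451) (.e (nat_lit 1176) (nat_lit 87) (.e (nat_lit 57479) (nat_lit 28) (.e (nat_lit 557105) (nat_lit 14) (.e (nat_lit 180252) (nat_lit 10) (.e (nat_lit 573489) (nat_lit 14) (.e (nat_lit 73755) (nat_lit 8) (.e (nat_lit 557090) (nat_lit 12) (.e (nat_lit 163846) (nat_lit 0) (.e (nat_lit 5088) (nat_lit 292) .nil))))))))) (.g (nat_lit 5) .nil .nil)))) (.nd (nat_lit 5) 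
(.lf (nat_lit 18578) (.g (nat_lit 4156) (.e (nat_lit 1176) (nat_lit 87) (.e (nat_lit 57478) (nat_lit 28) (.e (nat_lit 557109) (nat_lit 15) (.e (nat_lit 188449) (nat_lit 22) (.e (nat_lit 196661) (nat_lit 12) .nil))))) .nil)) 
(.lf (nat_lit 18610) (.g (nat_lit 1815) (.e (nat_lit 1176) (nat_lit 87) (.e (nat_lit 57480) (nat_lit 28) (.e (nat_lit 557107) (nat_lit 15) (.e (nat_lit 188421) (nat_lit 11) .nil)))) .nil)))) (.nd (nat_lit 4) (.nd (nat_lit 5) 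
(.lf (nat_lit 18570) (.g (nat_lit 3174) (.e (nat_lit 1176) (nat_lit 87) (.e (nat_lit 57478) (nat_lit 28) (.e (nat_lit 557108) (nat_lit 15) (.e (nat_lit 188452) (nat_lit 23) (.e (nat_lit 204848) (nat_lit 25) (.e (nat_lit 327692) (nat_lit 1) (.e (nat_lit 8435) (nat_lit 138) .nil))))))) (.g (nat_lit 4) .nil .nil))) 
(.lf (nat_lit 18602) (.g (nat_lit 4282) (.e (nat_lit 1176) (nat_lit 87) (.e (nat_lit 57479) (nat_lit 28) (.e (nat_lit 557105) (nat_lit 14) (.e (nat_lit 180252) (nat_lit 10) (.e (nat_lit 573489) (nat_lit 14) (.e (nat_lit 73755) (nat_lit 8) (.e (nat_lit 557090) (nat_lit 12) (.e (nat_lit 163852) (nat_lit 0) (.e (nat_lit 5089) (nat_lit 292) .nil))))))))) (.g (nat_lit 9) .nil .nil)))) (.nd (nat_lit 5) 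
(.lf (nat_lit 18586) (.g (nat_lit 2034) (.e (nat_lit 1176) (nat_lit 87) (.e (nat_lit 57479) (nat_lit 28) (.e (nat_lit 557105) (nat_lit 14) (.e (nat_lit 180252) (nat_lit 10) (.e (nat_lit 573489) (nat_lit 14) .nil))))) .nil)) 
(.lf (nat_lit 18618) (.g (nat_lit 4574) (.e (nat_lit 1176) (nat_lit 87) (.e (nat_lit 57480) (nat_lit 28) (.e (nat_lit 557108) (nat_lit 15) (.e (nat_lit 188452) (nat_lit 23) (.e (nat_lit 204849) (nat_lit 25) (.e (nat_lit 327692) (nat_lit 1) (.e (nat_lit 8435) (nat_lit 138) .nil))))))) (.g (nat_lit 7) .nil .nil)))))) (.nd (nat_lit 3) (.nd (nat_lit 4) (.nd (nat_lit 5) 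
(.lf (nat_lit 18566) (.g (nat_lit 1805) (.e (nat_lit 1176) (nat_lit 87) (.e (nat_lit 57478) (nat_lit 28) (.e (nat_lit 557107) (nat_lit 15) (.e (nat_lit 188450) (nat_lit 23) (.e (nat_lit 204855) (nat_lit 26) (.e (nat_lit 336030) (nat_lit 4) (.e (nat_lit 123187) (nat_lit 264) .nil))))))) (.g (nat_lit 4) .nil .nil))) 
(.lf (nat_lit 18598) (.g (nat_lit 2451) (.e (nat_lit 1176) (nat_lit 87) (.e (nat_lit 57479) (nat_lit 28) (.e (nat_lit 557105) (nat_lit 14) (.e (nat_lit 180252) (nat_lit 10) (.e (nat_lit 573489) (nat_lit 14) (.e (nat_lit 73755) (nat_lit 8) (.e (nat_lit 557090) (nat_lit 12) (.e (nat_lit 163846) (nat_lit 0) (.e (nat_lit 5099) (nat_lit 292) .nil))))))))) (.g (nat_lit 5) .nil .nil)))) (.nd (nat_lit 5) 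
(.lf (nat_lit 18582) (.g (nat_lit 2436) (.e (nat_lit 1176) (nat_lit 87) (.e (nat_lit 57478) (nat_lit 28) (.e (nat_lit 557109) (nat_lit 15) (.e (nat_lit 188452) (nat_lit 23) (.e (nat_lit 204855) (nat_lit 26) .nil))))) .nil)) 
(.lf (nat_lit 18614) (.g (nat_lit 2744) (.e (nat_lit 1176) (nat_lit 87) (.e (nat_lit 57480) (nat_lit 28) (.e (nat_lit 557108) (nat_lit 15) (.e (nat_lit 188452) (nat_lit 23) (.e (nat_lit 204816) (nat_lit 17) .nil))))) .nil)))) (.nd (nat_lit 4) (.nd (nat_lit 5) 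
(.lf (nat_lit 18574) (.g (nat_lit 2857) (.e (nat_lit 1176) (nat_lit 87) (.e (nat_lit 57478) (nat_lit 28) (.e (nat_lit 557109) (nat_lit 15) (.e (nat_lit 188421) (nat_lit 11) (.e (nat_lit 336387) (nat_lit 27) .nil))))) .nil)) 
(.lf (nat_lit 18606) (.g (nat_lit 1662) (.e (nat_lit 1176) (nat_lit 87) (.e (nat_lit 57479) (nat_lit 28) (.e (nat_lit 557107) (nat_lit 15) (.e (nat_lit 196352) (nat_lit 18) .nil)))) .nil))) (.nd (nat_lit 5) 
(.lf (nat_lit 18590) (.g (nat_lit 2451) (.e (nat_lit 1176) (nat_lit 87) (.e (nat_lit 57479) (nat_lit 28) (.e (nat_lit 557105) (nat_lit 14) (.e (nat_lit 180252) (nat_lit 10) (.e (nat_lit 573489) (nat_lit 14) (.e (nat_lit 73755) (nat_lit 8) (.e (nat_lit 557090) (nat_lit 12) (.e (nat_lit 163846) (nat_lit 0) (.e (nat_lit 5083) (nat_lit 292) .nil))))))))) (.g (nat_lit 5) .nil .nil))) 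
(.lf (nat_lit 18622) (.g (nat_lit 2482) (.e (nat_lit 1176) (nat_lit 87) (.e (nat_lit 57480) (nat_lit 28) (.e (nat_lit 557109) (nat_lit 15) (.e (nat_lit 188422) (nat_lit 11) .nil)))) .nil))))))) (.nd (nat_lit 1) (.nd (nat_lit 2) (.nd (nat_lit 3) (.nd (nat_lit 4) (.nd (nat_lit 5) 
(.lf (nat_lit 18561) (.g (nat_lit 2018) (.e (nat_lit 1176) (nat_lit 87) (.e (nat_lit 57478) (nat_lit 28) (.e (nat_lit 557107) (nat_lit 15) (.e (nat_lit 188421) (nat_lit 11) (.e (nat_lit 336387) (nat_lit 27) (.e (nat_lit 426107) (nat_lit 1) (.e (nat_lit 164309) (nat_lit 226) .nil))))))) (.g (nat_lit 4) .nil .nil))) 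
(.lf (nat_lit 18593) (.g (nat_lit 2451) (.e (nat_lit 1176) (nat_lit 87) (.e (nat_lit 57479) (nat_lit 28) (.e (nat_lit 557105) (nat_lit 14) (.e (nat_lit 180252) (nat_lit 10) (.e (nat_lit 573489) (nat_lit 14) (.e (nat_lit 73755) (nat_lit 8) (.e (nat_lit 557090) (nat_lit 12) (.e (nat_lit 163846) (nat_lit 0) (.e (nat_lit 5087) (nat_lit 292) .nil))))))))) (.g (nat_lit 5) .nil .nil)))) (.nd (nat_lit 5) 
(.lf (nat_lit 18577) (.g (nat_lit 1975) (.e (nat_lit 1176) (nat_lit 87) (.e (nat_lit 57478) (nat_lit 28) (.e (nat_lit 557109) (nat_lit 15) (.e (nat_lit 196352) (nat_lit 18) .nil)))) .nil)) 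
(.lf (nat_lit 18609) (.g (nat_lit 2772) (.e (nat_lit 1176) (nat_lit 87) (.e (nat_lit 57479) (nat_lit 28) (.e (nat_lit 557109) (nat_lit 15) (.e (nat_lit 188452) (nat_lit 23) .nil)))) .nil)))) (.nd (nat_lit 4) (.nd (nat_lit 5) 
(.lf (nat_lit 18569) (.g (nat_lit 3127) (.e (nat_lit 1176) (nat_lit 87) (.e (nat_lit 57478) (nat_lit 28) (.e (nat_lit 557108) (nat_lit 15) (.e (nat_lit 188452) (nat_lit 23) (.e (nat_lit 204848) (nat_lit 25) .nil))))) .nil)) 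
(.lf (nat_lit 18601) (.g (nat_lit 4261) (.e (nat_lit 1176) (nat_lit 87) (.e (nat_lit 57479) (nat_lit 28) (.e (nat_lit 557105) (nat_lit 14) (.e (nat_lit 180252) (nat_lit 10) (.e (nat_lit 573489) (nat_lit 14) (.e (nat_lit 73755) (nat_lit 8) (.e (nat_lit 557090) (nat_lit 12) (.e (nat_lit 163852) (nat_lit 0) (.e (nat_lit 5079) (nat_lit 292) .nil))))))))) (.g (nat_lit 9) .nil .nil)))) (.nd (nat_lit 5) 
(.lf (nat_lit 18585) (.g (nat_lit 3105) (.e (nat_lit 1176) (nat_lit 87) (.e (nat_lit 57479) (nat_lit 28) (.e (nat_lit 557105) (nat_lit 14) (.e (nat_lit 180252) (nat_lit 10) (.e (nat_lit 573487) (nat_lit 14) .nil))))) .nil)) 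
(.lf (nat_lit 18617) (.g (nat_lit 3362) (.e (nat_lit 1176) (nat_lit 87) (.e (nat_lit 57480) (nat_lit 28) (.e (nat_lit 557108) (nat_lit 15) (.e (nat_lit 188452) (nat_lit 23) (.e (nat_lit 204849) (nat_lit 25) .nil))))) .nil))))) (.nd (nat_lit 3) (.nd (nat_lit 4) (.nd (nat_lit 5) 
(.lf (nat_lit 18565) (.g (nat_lit 1283) (.e (nat_lit 1176) (nat_lit 87) (.e (nat_lit 57478) (nat_lit 28) (.e (nat_lit 557107) (nat_lit 15) (.e (nat_lit 188447) (nat_lit 22) .nil)))) .nil)) 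
(.lf (nat_lit 18597) (.g (nat_lit 2452) (.e (nat_lit 1176) (nat_lit 87) (.e (nat_lit 57479) (nat_lit 28) (.e (nat_lit 557105) (nat_lit 14) (.e (nat_lit 180252) (nat_lit 10) (.e (nat_lit 573489) (nat_lit 14) (.e (nat_lit 73755) (nat_lit 8) (.e (nat_lit 557090) (nat_lit 12) (.e (nat_lit 163846) (nat_lit 0) (.e (nat_lit 5094) (nat_lit 292) .nil))))))))) (.g (nat_lit 5) .nil .nil)))) (.nd (nat_lit 5) 
(.lf (nat_lit 18581) (.g (nat_lit 5404) (.e (nat_lit 1176) (nat_lit 87) (.e (nat_lit 57478) (nat_lit 28) (.e (nat_lit 557109) (nat_lit 15) (.e (nat_lit 188452) (nat_lit 23) (.e (nat_lit 204849) (nat_lit 25) (.e (nat_lit 327692) (nat_lit 1) (.e (nat_lit 8435) (nat_lit 138) .nil))))))) (.g (nat_lit 6) .nil .nil))) 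
(.lf (nat_lit 18613) (.g (nat_lit 2027) (.e (nat_lit 1176) (nat_lit 87) (.e (nat_lit 57480) (nat_lit 28) (.e (nat_lit 557108) (nat_lit 15) (.e (nat_lit 188452) (nat_lit 23) .nil)))) .nil)))) (.nd (nat_lit 4) (.nd (nat_lit 5) 
(.lf (nat_lit 18573) (.g (nat_lit 3340) (.e (nat_lit 1176) (nat_lit 87) (.e (nat_lit 57478) (nat_lit 28) (.e (nat_lit 557108) (nat_lit 15) (.e (nat_lit 188452) (nat_lit 23) (.e (nat_lit 204874) (nat_lit 30) .nil))))) .nil)) 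
(.lf (nat_lit 18605) (.g (nat_lit 4414) (.e (nat_lit 1176) (nat_lit 87) (.e (nat_lit 57479) (nat_lit 28) (.e (nat_lit 557105) (nat_lit 14) (.e (nat_lit 180252) (nat_lit 10) (.e (nat_lit 573489) (nat_lit 14) (.e (nat_lit 73755) (nat_lit 8) (.e (nat_lit 557090) (nat_lit 12) (.e (nat_lit 163852) (nat_lit 0) (.e (nat_lit 5098) (nat_lit 292) .nil))))))))) (.g (nat_lit 9) .nil .nil)))) (.nd (nat_lit 5) 
(.lf (nat_lit 18589) (.g (nat_lit 2451) (.e (nat_lit 1176) (nat_lit 87) (.e (nat_lit 57479) (nat_lit 28) (.e (nat_lit 557105) (nat_lit 14) (.e (nat_lit 180252) (nat_lit 10) (.e (nat_lit 573489) (nat_lit 14) (.e (nat_lit 73755) (nat_lit 8) (.e (nat_lit 557090) (nat_lit 12) (.e (nat_lit 163846) (nat_lit 0) (.e (nat_lit 5082) (nat_lit 292) .nil))))))))) (.g (nat_lit 5) .nil .nil))) 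
(.lf (nat_lit 18621) (.g (nat_lit 2781) (.e (nat_lit 1176) (nat_lit 87) (.e (nat_lit 57480) (nat_lit 28) (.e (nat_lit 557109) (nat_lit 15) (.e (nat_lit 188421) (nat_lit 11) .nil)))) .nil)))))) (.nd (nat_lit 2) (.nd (nat_lit 3) (.nd (nat_lit 4) (.nd (nat_lit 5) 
(.lf (nat_lit 18563) (.g (nat_lit 2032) (.e (nat_lit 1176) (nat_lit 87) (.e (nat_lit 57478) (nat_lit 28) (.e (nat_lit 557107) (nat_lit 15) (.e (nat_lit 188423) (nat_lit 11) (.e (nat_lit 336387) (nat_lit 27) (.e (nat_lit 426108) (nat_lit 1) (.e (nat_lit 164297) (nat_lit 226) .nil))))))) (.g (nat_lit 5) .nil .nil))) 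
(.lf (nat_lit 18595) (.g (nat_lit 2452) (.e (nat_lit 1176) (nat_lit 87) (.e (nat_lit 57479) (nat_lit 28) (.e (nat_lit 557105) (nat_lit 14) (.e (nat_lit 180252) (nat_lit 10) (.e (nat_lit 573489) (nat_lit 14) (.e (nat_lit 73755) (nat_lit 8) (.e (nat_lit 557090) (nat_lit 12) (.e (nat_lit 163846) (nat_lit 0) (.e (nat_lit 5092) (nat_lit 292) .nil))))))))) (.g (nat_lit 5) .nil .nil)))) (.nd (nat_lit 5) 
(.lf (nat_lit 18579) (.g (nat_lit 4573) (.e (nat_lit 1176) (nat_lit 87) (.e (nat_lit 57478) (nat_lit 28) (.e (nat_lit 557109) (nat_lit 15) (.e (nat_lit 188449) (nat_lit 22) (.e (nat_lit 196667) (nat_lit 14) .nil))))) .nil)) 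
(.lf (nat_lit 18611) (.g (nat_lit 1904) (.e (nat_lit 1176) (nat_lit 87) (.e (nat_lit 57480) (nat_lit 28) (.e (nat_lit 557107) (nat_lit 15) (.e (nat_lit 196352) (nat_lit 18) .nil)))) .nil)))) (.nd (nat_lit 4) (.nd (nat_lit 5) 
(.lf (nat_lit 18571) (.g (nat_lit 2981) (.e (nat_lit 1176) (nat_lit 87) (.e (nat_lit 57478) (nat_lit 28) (.e (nat_lit 557108) (nat_lit 15) (.e (nat_lit 188452) (nat_lit 23) (.e (nat_lit 204849) (nat_lit 25) .nil))))) .nil)) 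
(.lf (nat_lit 18603) (.g (nat_lit 4041) (.e (nat_lit 1176) (nat_lit 87) (.e (nat_lit 57479) (nat_lit 28) (.e (nat_lit 557105) (nat_lit 14) (.e (nat_lit 180252) (nat_lit 10) (.e (nat_lit 573489) (nat_lit 14) (.e (nat_lit 73755) (nat_lit 8) (.e (nat_lit 557090) (nat_lit 12) (.e (nat_lit 163852) (nat_lit 0) (.e (nat_lit 5095) (nat_lit 292) .nil))))))))) (.g (nat_lit 7) .nil .nil)))) (.nd (nat_lit 5) 
(.lf (nat_lit 18587) (.g (nat_lit 2339) (.e (nat_lit 1176) (nat_lit 87) (.e (nat_lit 57479) (nat_lit 28) (.e (nat_lit 557105) (nat_lit 14) (.e (nat_lit 180252) (nat_lit 10) (.e (nat_lit 573489) (nat_lit 14) (.e (nat_lit 73755) (nat_lit 8) (.e (nat_lit 557090) (nat_lit 12) (.e (nat_lit 163840) (nat_lit 0) (.e (nat_lit 5079) (nat_lit 292) .nil))))))))) (.g (nat_lit 5) .nil .nil))) 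
(.lf (nat_lit 18619) (.g (nat_lit 3555) (.e (nat_lit 1176) (nat_lit 87) (.e (nat_lit 57480) (nat_lit 28) (.e (nat_lit 557108) (nat_lit 15) (.e (nat_lit 188452) (nat_lit 23) (.e (nat_lit 204873) (nat_lit 30) .nil))))) .nil))))) (.nd (nat_lit 3) (.nd (nat_lit 4) (.nd (nat_lit 5) 
(.lf (nat_lit 18567) (.g (nat_lit 2140) (.e (nat_lit 1176) (nat_lit 87) (.e (nat_lit 57478) (nat_lit 28) (.e (nat_lit 557108) (nat_lit 15) (.e (nat_lit 196352) (nat_lit 18) .nil)))) .nil)) 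
(.lf (nat_lit 18599) (.g (nat_lit 4722) (.e (nat_lit 1176) (nat_lit 87) (.e (nat_lit 57479) (nat_lit 28) (.e (nat_lit 557105) (nat_lit 14) (.e (nat_lit 180252) (nat_lit 10) (.e (nat_lit 573489) (nat_lit 14) (.e (nat_lit 73755) (nat_lit 8) (.e (nat_lit 557090) (nat_lit 12) (.e (nat_lit 163850) (nat_lit 0) (.e (nat_lit 5089) (nat_lit 292) .nil))))))))) (.g (nat_lit 8) .nil .nil)))) (.nd (nat_lit 5) 
(.lf (nat_lit 18583) (.g (nat_lit 2860) (.e (nat_lit 1176) (nat_lit 87) (.e (nat_lit 57479) (nat_lit 28) (.e (nat_lit 557100) (nat_lit 13) (.e (nat_lit 172123) (nat_lit 13) .nil)))) .nil)) 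
(.lf (nat_lit 18615) (.g (nat_lit 2776) (.e (nat_lit 1176) (nat_lit 87) (.e (nat_lit 57480) (nat_lit 28) (.e (nat_lit 557108) (nat_lit 15) (.e (nat_lit 188452) (nat_lit 23) (.e (nat_lit 204816) (nat_lit 17) (.e (nat_lit 6155) (nat_lit 332) (.e (nat_lit 2545) (nat_lit 158) (.e (nat_lit 8435) (nat_lit 138) .nil)))))))) (.g (nat_lit 4) .nil .nil))))) (.nd (nat_lit 4) (.nd (nat_lit 5) 
(.lf (nat_lit 18575) (.g (nat_lit 3111) (.e (nat_lit 1176) (nat_lit 87) (.e (nat_lit 57478) (nat_lit 28) (.e (nat_lit 557109) (nat_lit 15) (.e (nat_lit 188421) (nat_lit 11) (.e (nat_lit 336387) (nat_lit 27) (.e (nat_lit 426107) (nat_lit 1) (.e (nat_lit 164309) (nat_lit 226) .nil))))))) (.g (nat_lit 5) .nil .nil))) 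
(.lf (nat_lit 18607) (.g (nat_lit 2622) (.e (nat_lit 1176) (nat_lit 87) (.e (nat_lit 57479) (nat_lit 28) (.e (nat_lit 557109) (nat_lit 15) (.e (nat_lit 188422) (nat_lit 11) .nil)))) .nil))) (.nd (nat_lit 5) 
(.lf (nat_lit 18591) (.g (nat_lit 2451) (.e (nat_lit 1176) (nat_lit 87) (.e (nat_lit 57479) (nat_lit 28) (.e (nat_lit 557105) (nat_lit 14) (.e (nat_lit 180252) (nat_lit 10) (.e (nat_lit 573489) (nat_lit 14) (.e (nat_lit 73755) (nat_lit 8) (.e (nat_lit 557090) (nat_lit 12) (.e (nat_lit 163846) (nat_lit 0) (.e (nat_lit 5084) (nat_lit 292) .nil))))))))) (.g (nat_lit 5) .nil .nil))) 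
(.lf (nat_lit 18623) (.g (nat_lit 2450) (.e (nat_lit 1176) (nat_lit 87) (.e (nat_lit 57480) (nat_lit 28) (.e (nat_lit 557109) (nat_lit 15) (.e (nat_lit 196352) (nat_lit 18) .nil)))) .nil))))))))

noncomputable def tv257 : DT := (.nd (nat_lit 0) (.nd (nat_lit 1) (.nd (nat_lit 2) (.nd (nat_lit 3) (.nd (nat_lit 4) (.nd (nat_lit 5) 
(.lf (nat_lit 18624) (.g (nat_lit 2142) (.e (nat_lit 1176) (nat_lit 87) (.e (nat_lit 57655) (nat_lit 152) (.e (nat_lit 1216) (nat_lit 90) (.e (nat_lit 81927) (nat_lit 11) (.e (nat_lit 426172) (nat_lit 7) (.e (nat_lit 409623) (nat_lit 10) (.e (nat_lit 5293) (nat_lit 298) .nil))))))) (.g (nat_lit 7) .nil .nil))) 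
(.lf (nat_lit 18656) (.g (nat_lit 682) (.e (nat_lit 1176) (nat_lit 87) (.e (nat_lit 57849) (nat_lit 252) (.e (nat_lit 57435) (nat_lit 17) .nil))) .nil))) (.nd (nat_lit 5) 
(.lf (nat_lit 18640) (.g (nat_lit 2001) (.e (nat_lit 1176) (nat_lit 87) (.e (nat_lit 57847) (nat_lit 252) (.e (nat_lit 57437) (nat_lit 17) (.e (nat_lit 376842) (nat_lit 11) (.e (nat_lit 426296) (nat_lit 11) .nil))))) .nil)) 
(.lf (nat_lit 18672) (.g (nat_lit 2231) (.e (nat_lit 1177) (nat_lit 87) (.e (nat_lit 57479) (nat_lit 28) (.e (nat_lit 557103) (nat_lit 14) (.e (nat_lit 180250) (nat_lit 10) (.e (nat_lit 573487) (nat_lit 14) (.e (nat_lit 73747) (nat_lit 3) (.e (nat_lit 516115) (nat_lit 1) (.e (nat_lit 164153) (nat_lit 152) .nil)))))))) (.g (nat_lit 4) .nil .nil))))) (.nd (nat_lit 4) (.nd (nat_lit 5) 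
(.lf (nat_lit 18632) (.g (nat_lit 1737) (.e (nat_lit 1176) (nat_lit 87) (.e (nat_lit 57681) (nat_lit 155) (.e (nat_lit 122919) (nat_lit 15) (.e (nat_lit 368384) (nat_lit 25) .nil)))) .nil)) 
(.lf (nat_lit 18664) (.g (nat_lit 2285) (.e (nat_lit 1176) (nat_lit 87) (.e (nat_lit 57849) (nat_lit 252) (.e (nat_lit 57437) (nat_lit 17) (.e (nat_lit 376842) (nat_lit 11) (.e (nat_lit 426296) (nat_lit 11) .nil))))) .nil))) (.nd (nat_lit 5) 
(.lf (nat_lit 18648) (.g (nat_lit 2733) (.e (nat_lit 1176) (nat_lit 87) (.e (nat_lit 57849) (nat_lit 252) (.e (nat_lit 57407) (nat_lit 12) (.e (nat_lit 336316) (nat_lit 17) .nil)))) .nil)) 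
(.lf (nat_lit 18680) (.g (nat_lit 3289) (.e (nat_lit 1177) (nat_lit 87) (.e (nat_lit 57479) (nat_lit 28) (.e (nat_lit 557105) (nat_lit 14) (.e (nat_lit 180252) (nat_lit 10) (.e (nat_lit 573487) (nat_lit 14) .nil))))) .nil))))) (.nd (nat_lit 3) (.nd (nat_lit 4) (.nd (nat_lit 5) 
(.lf (nat_lit 18628) (.g (nat_lit 2072) (.e (nat_lit 1176) (nat_lit 87) (.e (nat_lit 57679) (nat_lit 153) (.e (nat_lit 8210) (nat_lit 8) (.e (nat_lit 294960) (nat_lit 13) (.e (nat_lit 393260) (nat_lit 21) (.e (nat_lit 409623) (nat_lit 10) (.e (nat_lit 5293) (nat_lit 298) .nil))))))) (.g (nat_lit 7) .nil .nil))) 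
(.lf (nat_lit 18660) (.g (nat_lit 2156) (.e (nat_lit 1176) (nat_lit 87) (.e (nat_lit 57849) (nat_lit 252) (.e (nat_lit 57435) (nat_lit 17) (.e (nat_lit 376842) (nat_lit 11) (.e (nat_lit 426306) (nat_lit 12) .nil))))) .nil))) (.nd (nat_lit 5) 
(.lf (nat_lit 18644) (.g (nat_lit 2245) (.e (nat_lit 1176) (nat_lit 87) (.e (nat_lit 57849) (nat_lit 252) (.e (nat_lit 57377) (nat_lit 3) (.e (nat_lit 98317) (nat_lit 9) (.e (nat_lit 336213) (nat_lit 13) .nil))))) .nil)) 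
(.lf (nat_lit 18676) (.g (nat_lit 3555) (.e (nat_lit 1177) (nat_lit 87) (.e (nat_lit 57479) (nat_lit 28) (.e (nat_lit 557105) (nat_lit 14) (.e (nat_lit 180252) (nat_lit 10) (.e (nat_lit 573481) (nat_lit 13) .nil))))) .nil)))) (.nd (nat_lit 4) (.nd (nat_lit 5) 
(.lf (nat_lit 18636) (.g (nat_lit 606) (.e (nat_lit 1176) (nat_lit 87) (.e (nat_lit 57846) (nat_lit 252) (.e (nat_lit 57437) (nat_lit 17) .nil))) .nil)) 
(.lf (nat_lit 18668) (.g (nat_lit 1285) (.e (nat_lit 1176) (nat_lit 87) (.e (nat_lit 57852) (nat_lit 252) (.e (nat_lit 57435) (nat_lit 17) (.e (nat_lit 376842) (nat_lit 11) .nil)))) .nil))) (.nd (nat_lit 5) 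
(.lf (nat_lit 18652) (.g (nat_lit 2714) (.e (nat_lit 1176) (nat_lit 87) (.e (nat_lit 57849) (nat_lit 252) (.e (nat_lit 57410) (nat_lit 12) (.e (nat_lit 336211) (nat_lit 13) (.e (nat_lit 393291) (nat_lit 26) (.e (nat_lit 475205) (nat_lit 40) (.e (nat_lit 704606) (nat_lit 9) .nil))))))) (.g (nat_lit 7) .nil .nil))) 
(.lf (nat_lit 18684) (.g (nat_lit 3907) (.e (nat_lit 1177) (nat_lit 87) (.e (nat_lit 57479) (nat_lit 28) (.e (nat_lit 557105) (nat_lit 14) (.e (nat_lit 180252) (nat_lit 10) (.e (nat_lit 573487) (nat_lit 14) (.e (nat_lit 73747) (nat_lit 3) (.e (nat_lit 516119) (nat_lit 1) (.e (nat_lit 164147) (nat_lit 152) .nil)))))))) (.g (nat_lit 5) .nil .nil))))))) 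
(.nd (nat_lit 2) (.nd (nat_lit 3) (.nd (nat_lit 4) (.nd (nat_lit 5) 
(.lf (nat_lit 18626) (.g (nat_lit 2038) (.e (nat_lit 1176) (nat_lit 87) (.e (nat_lit 57676) (nat_lit 153) (.e (nat_lit 8210) (nat_lit 8) (.e (nat_lit 294960) (nat_lit 13) (.e (nat_lit 393260) (nat_lit 21) (.e (nat_lit 409623) (nat_lit 10) (.e (nat_lit 5293) (nat_lit 298) .nil))))))) (.g (nat_lit 7) .nil .nil))) 
(.lf (nat_lit 18658) (.g (nat_lit 2041) (.e (nat_lit 1176) (nat_lit 87) (.e (nat_lit 57849) (nat_lit 252) (.e (nat_lit 57435) (nat_lit 17) (.e (nat_lit 376842) (nat_lit 11) (.e (nat_lit 426296) (nat_lit 11) .nil))))) .nil))) (.nd (nat_lit 5) 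
(.lf (nat_lit 18642) (.g (nat_lit 2060) (.e (nat_lit 1176) (nat_lit 87) (.e (nat_lit 57849) (nat_lit 252) (.e (nat_lit 57372) (nat_lit 2) (.e (nat_lit 90160) (nat_lit 11) .nil)))) .nil)) 
(.lf (nat_lit 18674) (.g (nat_lit 2792) (.e (nat_lit 1177) (nat_lit 87) (.e (nat_lit 57479) (nat_lit 28) (.e (nat_lit 557105) (nat_lit 14) (.e (nat_lit 180251) (nat_lit 10) (.e (nat_lit 573485) (nat_lit 13) (.e (nat_lit 65570) (nat_lit 3) (.e (nat_lit 98334) (nat_lit 18) (.e (nat_lit 164159) (nat_lit 152) .nil)))))))) (.g (nat_lit 4) .nil .nil))))) (.nd (nat_lit 4) (.nd (nat_lit 5) 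
(.lf (nat_lit 18634) (.g (nat_lit 2403) (.e (nat_lit 1176) (nat_lit 87) (.e (nat_lit 57684) (nat_lit 155) (.e (nat_lit 122916) (nat_lit 14) (.e (nat_lit 352273) (nat_lit 11) (.e (nat_lit 426172) (nat_lit 7) (.e (nat_lit 409623) (nat_lit 10) (.e (nat_lit 5293) (nat_lit 298) .nil))))))) (.g (nat_lit 7) .nil .nil))) 
(.lf (nat_lit 18666) (.g (nat_lit 2246) (.e (nat_lit 1176) (nat_lit 87) (.e (nat_lit 57849) (nat_lit 252) (.e (nat_lit 57437) (nat_lit 17) (.e (nat_lit 376842) (nat_lit 11) (.e (nat_lit 426306) (nat_lit 12) .nil))))) .nil))) (.nd (nat_lit 5) 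
(.lf (nat_lit 18650) (.g (nat_lit 2711) (.e (nat_lit 1176) (nat_lit 87) (.e (nat_lit 57849) (nat_lit 252) (.e (nat_lit 57407) (nat_lit 12) (.e (nat_lit 336360) (nat_lit 25) (.e (nat_lit 409649) (nat_lit 18) (.e (nat_lit 303140) (nat_lit 10) (.e (nat_lit 434286) (nat_lit 42) (.e (nat_lit 688159) (nat_lit 13) .nil)))))))) (.g (nat_lit 4) .nil .nil))) 
(.lf (nat_lit 18682) (.g (nat_lit 3859) (.e (nat_lit 1177) (nat_lit 87) (.e (nat_lit 57479) (nat_lit 28) (.e (nat_lit 557105) (nat_lit 14) (.e (nat_lit 180252) (nat_lit 10) (.e (nat_lit 573487) (nat_lit 14) (.e (nat_lit 73747) (nat_lit 3) (.e (nat_lit 516115) (nat_lit 1) (.e (nat_lit 164157) (nat_lit 152) .nil)))))))) (.g (nat_lit 5) .nil .nil)))))) 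
(.nd (nat_lit 3) (.nd (nat_lit 4) (.nd (nat_lit 5) 
(.lf (nat_lit 18630) (.g (nat_lit 2644) (.e (nat_lit 1176) (nat_lit 87) (.e (nat_lit 57681) (nat_lit 155) (.e (nat_lit 122916) (nat_lit 14) (.e (nat_lit 352273) (nat_lit 11) (.e (nat_lit 426172) (nat_lit 7) (.e (nat_lit 409623) (nat_lit 10) (.e (nat_lit 5293) (nat_lit 298) .nil))))))) (.g (nat_lit 6) .nil .nil))) 
(.lf (nat_lit 18662) (.g (nat_lit 1469) (.e (nat_lit 1176) (nat_lit 87) (.e (nat_lit 57849) (nat_lit 252) (.e (nat_lit 57437) (nat_lit 17) (.e (nat_lit 376842) (nat_lit 11) .nil)))) .nil))) (.nd (nat_lit 5) 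
(.lf (nat_lit 18646) (.g (nat_lit 1162) (.e (nat_lit 1176) (nat_lit 87) (.e (nat_lit 57849) (nat_lit 252) (.e (nat_lit 57390) (nat_lit 5) (.e (nat_lit 122624) (nat_lit 13) .nil)))) .nil)) 
(.lf (nat_lit 18678) (.g (nat_lit 3120) (.e (nat_lit 1177) (nat_lit 87) (.e (nat_lit 57479) (nat_lit 28) (.e (nat_lit 557105) (nat_lit 14) (.e (nat_lit 180252) (nat_lit 10) (.e (nat_lit 573482) (nat_lit 13) (.e (nat_lit 65570) (nat_lit 3) (.e (nat_lit 98333) (nat_lit 18) (.e (nat_lit 164160) (nat_lit 152) .nil)))))))) (.g (nat_lit 4) .nil .nil))))) (.nd (nat_lit 4) (.nd (nat_lit 5) 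
(.lf (nat_lit 18638) (.g (nat_lit 1813) (.e (nat_lit 1176) (nat_lit 87) (.e (nat_lit 57847) (nat_lit 252) (.e (nat_lit 57435) (nat_lit 17) (.e (nat_lit 376842) (nat_lit 11) (.e (nat_lit 426298) (nat_lit 11) .nil))))) .nil)) 
(.lf (nat_lit 18670) (.g (nat_lit 2279) (.e (nat_lit 1177) (nat_lit 87) (.e (nat_lit 57479) (nat_lit 28) (.e (nat_lit 557103) (nat_lit 14) (.e (nat_lit 180250) (nat_lit 10) (.e (nat_lit 573482) (nat_lit 13) (.e (nat_lit 65569) (nat_lit 3) (.e (nat_lit 98334) (nat_lit 18) (.e (nat_lit 164159) (nat_lit 152) .nil)))))))) (.g (nat_lit 4) .nil .nil)))) (.nd (nat_lit 5) 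
(.lf (nat_lit 18654) (.g (nat_lit 1713) (.e (nat_lit 1176) (nat_lit 87) (.e (nat_lit 57849) (nat_lit 252) (.e (nat_lit 57411) (nat_lit 12) (.e (nat_lit 336211) (nat_lit 13) (.e (nat_lit 393291) (nat_lit 26) .nil))))) .nil)) 
(.lf (nat_lit 18686) (.g (nat_lit 4755) (.e (nat_lit 1177) (nat_lit 87) (.e (nat_lit 57479) (nat_lit 28) (.e (nat_lit 557105) (nat_lit 14) (.e (nat_lit 180252) (nat_lit 10) (.e (nat_lit 573487) (nat_lit 14) (.e (nat_lit 73747) (nat_lit 3) (.e (nat_lit 516119) (nat_lit 1) (.e (nat_lit 164157) (nat_lit 152) .nil)))))))) (.g (nat_lit 6) .nil .nil)))))))) 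
(.nd (nat_lit 1) (.nd (nat_lit 2) (.nd (nat_lit 3) (.nd (nat_lit 4) (.nd (nat_lit 5) 
(.lf (nat_lit 18625) (.g (nat_lit 1269) (.e (nat_lit 1176) (nat_lit 87) (.e (nat_lit 57655) (nat_lit 152) (.e (nat_lit 1217) (nat_lit 90) (.e (nat_lit 81926) (nat_lit 11) (.e (nat_lit 426172) (nat_lit 7) (.e (nat_lit 409623) (nat_lit 10) (.e (nat_lit 5293) (nat_lit 298) .nil))))))) (.g (nat_lit 5) .nil .nil))) 
(.lf (nat_lit 18657) (.g (nat_lit 2068) (.e (nat_lit 1176) (nat_lit 87) (.e (nat_lit 57849) (nat_lit 252) (.e (nat_lit 57435) (nat_lit 17) (.e (nat_lit 376842) (nat_lit 11) (.e (nat_lit 426200) (nat_lit 9) .nil))))) .nil))) (.nd (nat_lit 5) 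
(.lf (nat_lit 18641) (.g (nat_lit 1993) (.e (nat_lit 1176) (nat_lit 87) (.e (nat_lit 57847) (nat_lit 252) (.e (nat_lit 57437) (nat_lit 17) (.e (nat_lit 376842) (nat_lit 11) (.e (nat_lit 426298) (nat_lit 11) .nil))))) .nil)) 
(.lf (nat_lit 18673) (.g (nat_lit 2870) (.e (nat_lit 1177) (nat_lit 87) (.e (nat_lit 57479) (nat_lit 28) (.e (nat_lit 557105) (nat_lit 14) (.e (nat_lit 180251) (nat_lit 10) (.e (nat_lit 573484) (nat_lit 13) .nil))))) .nil)))) (.nd (nat_lit 4) (.nd (nat_lit 5) 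
(.lf (nat_lit 18633) (.g (nat_lit 1115) (.e (nat_lit 1176) (nat_lit 87) (.e (nat_lit 57683) (nat_lit 155) (.e (nat_lit 122916) (nat_lit 14) (.e (nat_lit 352273) (nat_lit 11) .nil)))) .nil)) 
(.lf (nat_lit 18665) (.g (nat_lit 2279) (.e (nat_lit 1176) (nat_lit 87) (.e (nat_lit 57849) (nat_lit 252) (.e (nat_lit 57437) (nat_lit 17) (.e (nat_lit 376842) (nat_lit 11) (.e (nat_lit 426298) (nat_lit 11) .nil))))) .nil))) (.nd (nat_lit 5) 
(.lf (nat_lit 18649) (.g (nat_lit 2385) (.e (nat_lit 1176) (nat_lit 87) (.e (nat_lit 57849) (nat_lit 252) (.e (nat_lit 57407) (nat_lit 12) (.e (nat_lit 336326) (nat_lit 18) .nil)))) .nil)) 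
(.lf (nat_lit 18681) (.g (nat_lit 3452) (.e (nat_lit 1177) (nat_lit 87) (.e (nat_lit 57479) (nat_lit 28) (.e (nat_lit 557105) (nat_lit 14) (.e (nat_lit 180252) (nat_lit 10) (.e (nat_lit 573487) (nat_lit 14) (.e (nat_lit 73747) (nat_lit 3) (.e (nat_lit 516115) (nat_lit 1) (.e (nat_lit 164155) (nat_lit 152) .nil)))))))) (.g (nat_lit 4) .nil .nil)))))) 
(.nd (nat_lit 3) (.nd (nat_lit 4) (.nd (nat_lit 5) 
(.lf (nat_lit 18629) (.g (nat_lit 1216) (.e (nat_lit 1176) (nat_lit 87) (.e (nat_lit 57681) (nat_lit 155) (.e (nat_lit 122914) (nat_lit 14) (.e (nat_lit 352277) (nat_lit 11) .nil)))) .nil)) 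
(.lf (nat_lit 18661) (.g (nat_lit 667) (.e (nat_lit 1176) (nat_lit 87) (.e (nat_lit 57849) (nat_lit 252) (.e (nat_lit 57437) (nat_lit 17) .nil))) .nil))) (.nd (nat_lit 5) 
(.lf (nat_lit 18645) (.g (nat_lit 1073) (.e (nat_lit 1176) (nat_lit 87) (.e (nat_lit 57849) (nat_lit 252) (.e (nat_lit 57388) (nat_lit 5) (.e (nat_lit 122624) (nat_lit 13) .nil)))) .nil)) 
(.lf (nat_lit 18677) (.g (nat_lit 3663) (.e (nat_lit 1177) (nat_lit 87) (.e (nat_lit 57479) (nat_lit 28) (.e (nat_lit 557105) (nat_lit 14) (.e (nat_lit 180252) (nat_lit 10) (.e (nat_lit 573481) (nat_lit 13) (.e (nat_lit 65571) (nat_lit 3) (.e (nat_lit 98334) (nat_lit 18) (.e (nat_lit 164159) (nat_lit 152) .nil)))))))) (.g (nat_lit 4) .nil .nil))))) (.nd (nat_lit 4) (.nd (nat_lit 5) 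
(.lf (nat_lit 18637) (.g (nat_lit 1817) (.e (nat_lit 1176) (nat_lit 87) (.e (nat_lit 57847) (nat_lit 252) (.e (nat_lit 57435) (nat_lit 17) (.e (nat_lit 376842) (nat_lit 11) (.e (nat_lit 426296) (nat_lit 11) .nil))))) .nil)) 
(.lf (nat_lit 18669) (.g (nat_lit 1466) (.e (nat_lit 1176) (nat_lit 87) (.e (nat_lit 57852) (nat_lit 252) (.e (nat_lit 57436) (nat_lit 17) (.e (nat_lit 376842) (nat_lit 11) .nil)))) .nil))) (.nd (nat_lit 5) 
(.lf (nat_lit 18653) (.g (nat_lit 1177) (.e (nat_lit 1176) (nat_lit 87) (.e (nat_lit 57849) (nat_lit 252) (.e (nat_lit 57411) (nat_lit 12) (.e (nat_lit 336211) (nat_lit 13) .nil)))) .nil)) 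
(.lf (nat_lit 18685) (.g (nat_lit 3931) (.e (nat_lit 1177) (nat_lit 87) (.e (nat_lit 57479) (nat_lit 28) (.e (nat_lit 557105) (nat_lit 14) (.e (nat_lit 180252) (nat_lit 10) (.e (nat_lit 573487) (nat_lit 14) (.e (nat_lit 73747) (nat_lit 3) (.e (nat_lit 516119) (nat_lit 1) (.e (nat_lit 164154) (nat_lit 152) .nil)))))))) (.g (nat_lit 5) .nil .nil))))))) 
(.nd (nat_lit 2) (.nd (nat_lit 3) (.nd (nat_lit 4) (.nd (nat_lit 5) 
(.lf (nat_lit 18627) (.g (nat_lit 2090) (.e (nat_lit 1176) (nat_lit 87) (.e (nat_lit 57678) (nat_lit 153) (.e (nat_lit 8210) (nat_lit 8) (.e (nat_lit 294960) (nat_lit 13) (.e (nat_lit 393260) (nat_lit 21) (.e (nat_lit 409623) (nat_lit 10) (.e (nat_lit 5293) (nat_lit 298) .nil))))))) (.g (nat_lit 0) .nil .nil))) 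
(.lf (nat_lit 18659) (.g (nat_lit 2032) (.e (nat_lit 1176) (nat_lit 87) (.e (nat_lit 57849) (nat_lit 252) (.e (nat_lit 57435) (nat_lit 17) (.e (nat_lit 376842) (nat_lit 11) (.e (nat_lit 426298) (nat_lit 11) .nil))))) .nil))) (.nd (nat_lit 5) 
(.lf (nat_lit 18643) (.g (nat_lit 796) (.e (nat_lit 1176) (nat_lit 87) (.e (nat_lit 57849) (nat_lit 252) (.e (nat_lit 57377) (nat_lit 3) .nil))) .nil)) 
(.lf (nat_lit 18675) (.g (nat_lit 3233) (.e (nat_lit 1177) (nat_lit 87) (.e (nat_lit 57479) (nat_lit 28) (.e (nat_lit 557105) (nat_lit 14) (.e (nat_lit 180252) (nat_lit 10) (.e (nat_lit 573480) (nat_lit 13) (.e (nat_lit 65571) (nat_lit 3) (.e (nat_lit 98334) (nat_lit 18) (.e (nat_lit 164159) (nat_lit 152) .nil)))))))) (.g (nat_lit 4) .nil .nil))))) (.nd (nat_lit 4) (.nd (nat_lit 5) 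
(.lf (nat_lit 18635) (.g (nat_lit 1252) (.e (nat_lit 1176) (nat_lit 87) (.e (nat_lit 57846) (nat_lit 252) (.e (nat_lit 57435) (nat_lit 17) (.e (nat_lit 376842) (nat_lit 11) .nil)))) .nil)) 
(.lf (nat_lit 18667) (.g (nat_lit 1408) (.e (nat_lit 1176) (nat_lit 87) (.e (nat_lit 57849) (nat_lit 252) (.e (nat_lit 57437) (nat_lit 17) (.e (nat_lit 384768) (nat_lit 13) .nil)))) .nil))) (.nd (nat_lit 5) 
(.lf (nat_lit 18651) (.g (nat_lit 858) (.e (nat_lit 1176) (nat_lit 87) (.e (nat_lit 57849) (nat_lit 252) (.e (nat_lit 57410) (nat_lit 12) (.e (nat_lit 336211) (nat_lit 13) .nil)))) .nil)) 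
(.lf (nat_lit 18683) (.g (nat_lit 3780) (.e (nat_lit 1177) (nat_lit 87) (.e (nat_lit 57479) (nat_lit 28) (.e (nat_lit 557105) (nat_lit 14) (.e (nat_lit 180252) (nat_lit 10) (.e (nat_lit 573487) (nat_lit 14) (.e (nat_lit 73747) (nat_lit 3) (.e (nat_lit 516115) (nat_lit 1) (.e (nat_lit 164161) (nat_lit 152) .nil)))))))) (.g (nat_lit 5) .nil .nil)))))) 
(.nd (nat_lit 3) (.nd (nat_lit 4) (.nd (nat_lit 5) 
(.lf (nat_lit 18631) (.g (nat_lit 2438) (.e (nat_lit 1176) (nat_lit 87) (.e (nat_lit 57681) (nat_lit 155) (.e (nat_lit 122919) (nat_lit 15) (.e (nat_lit 360491) (nat_lit 22) (.e (nat_lit 778362) (nat_lit 9) (.e (nat_lit 297) (nat_lit 22) (.e (nat_lit 352000) (nat_lit 8) .nil))))))) (.g (nat_lit 4) .nil .nil))) 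
(.lf (nat_lit 18663) (.g (nat_lit 2305) (.e (nat_lit 1176) (nat_lit 87) (.e (nat_lit 57849) (nat_lit 252) (.e (nat_lit 57437) (nat_lit 17) (.e (nat_lit 376842) (nat_lit 11) (.e (nat_lit 426200) (nat_lit 9) .nil))))) .nil))) (.nd (nat_lit 5) 
(.lf (nat_lit 18647) (.g (nat_lit 1494) (.e (nat_lit 1176) (nat_lit 87) (.e (nat_lit 57849) (nat_lit 252) (.e (nat_lit 57407) (nat_lit 12) (.e (nat_lit 336211) (nat_lit 13) .nil)))) .nil)) 
(.lf (nat_lit 18679) (.g (nat_lit 3044) (.e (nat_lit 1177) (nat_lit 87) (.e (nat_lit 57479) (nat_lit 28) (.e (nat_lit 557105) (nat_lit 14) (.e (nat_lit 180252) (nat_lit 10) (.e (nat_lit 573482) (nat_lit 13) (.e (nat_lit 65570) (nat_lit 3) (.e (nat_lit 98333) (nat_lit 18) (.e (nat_lit 164161) (nat_lit 152) .nil)))))))) (.g (nat_lit 4) .nil .nil))))) (.nd (nat_lit 4) (.nd (nat_lit 5) 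
(.lf (nat_lit 18639) (.g (nat_lit 1231) (.e (nat_lit 1176) (nat_lit 87) (.e (nat_lit 57847) (nat_lit 252) (.e (nat_lit 57437) (nat_lit 17) (.e (nat_lit 376842) (nat_lit 11) .nil)))) .nil)) 
(.lf (nat_lit 18671) (.g (nat_lit 2438) (.e (nat_lit 1177) (nat_lit 87) (.e (nat_lit 57479) (nat_lit 28) (.e (nat_lit 557103) (nat_lit 14) (.e (nat_lit 180250) (nat_lit 10) (.e (nat_lit 573485) (nat_lit 13) .nil))))) .nil))) (.nd (nat_lit 5) 
(.lf (nat_lit 18655) (.g (nat_lit 3151) (.e (nat_lit 1176) (nat_lit 87) (.e (nat_lit 57849) (nat_lit 252) (.e (nat_lit 57411) (nat_lit 12) (.e (nat_lit 336211) (nat_lit 13) (.e (nat_lit 393291) (nat_lit 26) (.e (nat_lit 475205) (nat_lit 40) (.e (nat_lit 704606) (nat_lit 9) .nil))))))) (.g (nat_lit 7) .nil .nil))) 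
(.lf (nat_lit 18687) (.g (nat_lit 4425) (.e (nat_lit 1177) (nat_lit 87) (.e (nat_lit 57479) (nat_lit 28) (.e (nat_lit 557105) (nat_lit 14) (.e (nat_lit 180252) (nat_lit 10) (.e (nat_lit 573488) (nat_lit 14) (.e (nat_lit 73747) (nat_lit 3) (.e (nat_lit 516115) (nat_lit 1) (.e (nat_lit 164148) (nat_lit 152) .nil)))))))) (.g (nat_lit 5) .nil .nil)))))))))

noncomputable def tv258 : DT := (.nd (nat_lit 0) (.nd (nat_lit 1) (.nd (nat_lit 2) (.nd (nat_lit 3) (.nd (nat_lit 4) (.nd (nat_lit 5) 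
(.lf (nat_lit 18688) (.g (nat_lit 5377) (.e (nat_lit 1177) (nat_lit 87) (.e (nat_lit 57479) (nat_lit 28) (.e (nat_lit 557105) (nat_lit 14) (.e (nat_lit 180252) (nat_lit 10) (.e (nat_lit 573488) (nat_lit 14) (.e (nat_lit 73747) (nat_lit 3) (.e (nat_lit 516115) (nat_lit 1) (.e (nat_lit 164153) (nat_lit 152) .nil)))))))) (.g (nat_lit 6) .nil .nil))) 
(.lf (nat_lit 18720) (.g (nat_lit 2696) (.e (nat_lit 1177) (nat_lit 87) (.e (nat_lit 57854) (nat_lit 252) (.e (nat_lit 57373) (nat_lit 2) (.e (nat_lit 90128) (nat_lit 9) (.e (nat_lit 297) (nat_lit 22) .nil))))) .nil))) (.nd (nat_lit 5) 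
(.lf (nat_lit 18704) (.g (nat_lit 2626) (.e (nat_lit 1177) (nat_lit 87) (.e (nat_lit 57479) (nat_lit 28) (.e (nat_lit 557105) (nat_lit 14) (.e (nat_lit 180252) (nat_lit 10) (.e (nat_lit 573489) (nat_lit 14) (.e (nat_lit 73755) (nat_lit 8) (.e (nat_lit 557090) (nat_lit 12) (.e (nat_lit 163852) (nat_lit 0) (.e (nat_lit 5045) (nat_lit 292) .nil))))))))) (.g (nat_lit 5) .nil .nil))) 
(.lf (nat_lit 18736) (.g (nat_lit 2305) (.e (nat_lit 1178) (nat_lit 87) (.e (nat_lit 57478) (nat_lit 28) (.e (nat_lit 557105) (nat_lit 14) (.e (nat_lit 180252) (nat_lit 10) (.e (nat_lit 573488) (nat_lit 14) (.e (nat_lit 73747) (nat_lit 3) (.e (nat_lit 516119) (nat_lit 1) (.e (nat_lit 164164) (nat_lit 152) .nil)))))))) (.g (nat_lit 4) .nil .nil))))) (.nd (nat_lit 4) (.nd (nat_lit 5) 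
(.lf (nat_lit 18696) (.g (nat_lit 2328) (.e (nat_lit 1177) (nat_lit 87) (.e (nat_lit 57479) (nat_lit 28) (.e (nat_lit 557105) (nat_lit 14) (.e (nat_lit 180252) (nat_lit 10) (.e (nat_lit 573489) (nat_lit 14) (.e (nat_lit 73748) (nat_lit 3) (.e (nat_lit 516119) (nat_lit 1) (.e (nat_lit 164148) (nat_lit 152) .nil)))))))) (.g (nat_lit 4) .nil .nil))) 
(.lf (nat_lit 18728) (.g (nat_lit 2416) (.e (nat_lit 1177) (nat_lit 87) (.e (nat_lit 57931) (nat_lit 282) (.e (nat_lit 163869) (nat_lit 2) (.e (nat_lit 196670) (nat_lit 14) (.e (nat_lit 73746) (nat_lit 3) .nil))))) .nil))) (.nd (nat_lit 5) 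
(.lf (nat_lit 18712) (.g (nat_lit 2229) (.e (nat_lit 1177) (nat_lit 87) (.e (nat_lit 57480) (nat_lit 28) (.e (nat_lit 557108) (nat_lit 15) (.e (nat_lit 188452) (nat_lit 23) .nil)))) .nil)) 
(.lf (nat_lit 18744) (.g (nat_lit 4107) (.e (nat_lit 1178) (nat_lit 87) (.e (nat_lit 57479) (nat_lit 28) (.e (nat_lit 557100) (nat_lit 13) (.e (nat_lit 172113) (nat_lit 10) (.e (nat_lit 434245) (nat_lit 28) (.e (nat_lit 573471) (nat_lit 11) (.e (nat_lit 16406) (nat_lit 1) (.e (nat_lit 164421) (nat_lit 272) .nil)))))))) (.g (nat_lit 5) .nil .nil)))))) 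
(.nd (nat_lit 3) (.nd (nat_lit 4) (.nd (nat_lit 5) 
(.lf (nat_lit 18692) (.g (nat_lit 4887) (.e (nat_lit 1177) (nat_lit 87) (.e (nat_lit 57479) (nat_lit 28) (.e (nat_lit 557105) (nat_lit 14) (.e (nat_lit 180252) (nat_lit 10) (.e (nat_lit 573488) (nat_lit 14) (.e (nat_lit 73747) (nat_lit 3) (.e (nat_lit 516119) (nat_lit 1) (.e (nat_lit 164157) (nat_lit 152) .nil)))))))) (.g (nat_lit 6) .nil .nil))) 
(.lf (nat_lit 18724) (.g (nat_lit 5038) (.e (nat_lit 1177) (nat_lit 87) (.e (nat_lit 57924) (nat_lit 282) (.e (nat_lit 163867) (nat_lit 2) (.e (nat_lit 196670) (nat_lit 14) (.e (nat_lit 73754) (nat_lit 8) (.e (nat_lit 557105) (nat_lit 14) (.e (nat_lit 180252) (nat_lit 10) (.e (nat_lit 573451) (nat_lit 9) .nil)))))))) (.g (nat_lit 0) .nil .nil)))) (.nd (nat_lit 5) 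
(.lf (nat_lit 18708) (.g (nat_lit 3918) (.e (nat_lit 1177) (nat_lit 87) (.e (nat_lit 57480) (nat_lit 28) (.e (nat_lit 557105) (nat_lit 14) (.e (nat_lit 180252) (nat_lit 10) (.e (nat_lit 573488) (nat_lit 14) (.e (nat_lit 73747) (nat_lit 3) (.e (nat_lit 516115) (nat_lit 1) (.e (nat_lit 164153) (nat_lit 152) .nil)))))))) (.g (nat_lit 6) .nil .nil))) 
(.lf (nat_lit 18740) (.g (nat_lit 3092) (.e (nat_lit 1178) (nat_lit 87) (.e (nat_lit 57478) (nat_lit 28) (.e (nat_lit 557109) (nat_lit 15) (.e (nat_lit 188452) (nat_lit 23) (.e (nat_lit 204863) (nat_lit 27) (.e (nat_lit 344096) (nat_lit 18) (.e (nat_lit 5898) (nat_lit 320) .nil))))))) (.g (nat_lit 5) .nil .nil))))) (.nd (nat_lit 4) (.nd (nat_lit 5) 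
(.lf (nat_lit 18700) (.g (nat_lit 3486) (.e (nat_lit 1177) (nat_lit 87) (.e (nat_lit 57479) (nat_lit 28) (.e (nat_lit 557105) (nat_lit 14) (.e (nat_lit 180252) (nat_lit 10) (.e (nat_lit 573489) (nat_lit 14) (.e (nat_lit 73755) (nat_lit 8) (.e (nat_lit 557067) (nat_lit 9) (.e (nat_lit 128) (nat_lit 6) (.e (nat_lit 123084) (nat_lit 181) .nil))))))))) (.g (nat_lit 6) .nil .nil))) 
(.lf (nat_lit 18732) (.g (nat_lit 1888) (.e (nat_lit 1177) (nat_lit 87) (.e (nat_lit 57931) (nat_lit 282) (.e (nat_lit 163874) (nat_lit 3) (.e (nat_lit 204872) (nat_lit 30) (.e (nat_lit 368676) (nat_lit 21) (.e (nat_lit 516131) (nat_lit 3) (.e (nat_lit 221212) (nat_lit 22) (.e (nat_lit 196625) (nat_lit 9) .nil)))))))) (.g (nat_lit 4) .nil .nil)))) (.nd (nat_lit 5) 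
(.lf (nat_lit 18716) (.g (nat_lit 2872) (.e (nat_lit 1177) (nat_lit 87) (.e (nat_lit 57849) (nat_lit 252) (.e (nat_lit 57372) (nat_lit 2) (.e (nat_lit 90128) (nat_lit 9) (.e (nat_lit 304) (nat_lit 22) .nil))))) .nil)) 
(.lf (nat_lit 18748) (.g (nat_lit 2105) (.e (nat_lit 1178) (nat_lit 87) (.e (nat_lit 57479) (nat_lit 28) (.e (nat_lit 557103) (nat_lit 14) (.e (nat_lit 180250) (nat_lit 10) (.e (nat_lit 573482) (nat_lit 13) .nil))))) .nil)))))) (.nd (nat_lit 2) (.nd (nat_lit 3) (.nd (nat_lit 4) (.nd (nat_lit 5) 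
(.lf (nat_lit 18690) (.g (nat_lit 3715) (.e (nat_lit 1177) (nat_lit 87) (.e (nat_lit 57479) (nat_lit 28) (.e (nat_lit 557105) (nat_lit 14) (.e (nat_lit 180252) (nat_lit 10) (.e (nat_lit 573488) (nat_lit 14) (.e (nat_lit 73747) (nat_lit 3) (.e (nat_lit 516119) (nat_lit 1) (.e (nat_lit 164148) (nat_lit 152) .nil)))))))) (.g (nat_lit 4) .nil .nil))) 
(.lf (nat_lit 18722) (.g (nat_lit 2364) (.e (nat_lit 1177) (nat_lit 87) (.e (nat_lit 57854) (nat_lit 252) (.e (nat_lit 57373) (nat_lit 2) (.e (nat_lit 90160) (nat_lit 11) .nil)))) .nil))) (.nd (nat_lit 5) 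
(.lf (nat_lit 18706) (.g (nat_lit 2291) (.e (nat_lit 1177) (nat_lit 87) (.e (nat_lit 57480) (nat_lit 28) (.e (nat_lit 557105) (nat_lit 14) (.e (nat_lit 180252) (nat_lit 10) (.e (nat_lit 573481) (nat_lit 13) (.e (nat_lit 65571) (nat_lit 3) (.e (nat_lit 98334) (nat_lit 18) (.e (nat_lit 164159) (nat_lit 152) .nil)))))))) (.g (nat_lit 4) .nil .nil))) 
(.lf (nat_lit 18738) (.g (nat_lit 3554) (.e (nat_lit 1178) (nat_lit 87) (.e (nat_lit 57478) (nat_lit 28) (.e (nat_lit 557109) (nat_lit 15) (.e (nat_lit 188434) (nat_lit 20) (.e (nat_lit 3271) (nat_lit 199) .nil))))) .nil)))) (.nd (nat_lit 4) (.nd (nat_lit 5) 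
(.lf (nat_lit 18698) (.g (nat_lit 3500) (.e (nat_lit 1177) (nat_lit 87) (.e (nat_lit 57479) (nat_lit 28) (.e (nat_lit 557105) (nat_lit 14) (.e (nat_lit 180252) (nat_lit 10) (.e (nat_lit 573489) (nat_lit 14) (.e (nat_lit 73748) (nat_lit 3) (.e (nat_lit 516119) (nat_lit 1) (.e (nat_lit 164157) (nat_lit 152) .nil)))))))) (.g (nat_lit 5) .nil .nil))) 
(.lf (nat_lit 18730) (.g (nat_lit 5171) (.e (nat_lit 1177) (nat_lit 87) (.e (nat_lit 57931) (nat_lit 282) (.e (nat_lit 163874) (nat_lit 3) (.e (nat_lit 204864) (nat_lit 27) (.e (nat_lit 344132) (nat_lit 26) (.e (nat_lit 557105) (nat_lit 14) (.e (nat_lit 180252) (nat_lit 10) (.e (nat_lit 573451) (nat_lit 9) .nil)))))))) (.g (nat_lit 7) .nil .nil)))) (.nd (nat_lit 5) 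
(.lf (nat_lit 18714) (.g (nat_lit 1933) (.e (nat_lit 1177) (nat_lit 87) (.e (nat_lit 57849) (nat_lit 252) (.e (nat_lit 57372) (nat_lit 2) (.e (nat_lit 90128) (nat_lit 9) .nil)))) .nil)) 
(.lf (nat_lit 18746) (.g (nat_lit 2635) (.e (nat_lit 1178) (nat_lit 87) (.e (nat_lit 57479) (nat_lit 28) (.e (nat_lit 557101) (nat_lit 13) (.e (nat_lit 172097) (nat_lit 9) (.e (nat_lit 426140) (nat_lit 3) (.e (nat_lit 204862) (nat_lit 27) (.e (nat_lit 344090) (nat_lit 18) (.e (nat_lit 5896) (nat_lit 320) .nil)))))))) (.g (nat_lit 5) .nil .nil)))))) 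
(.nd (nat_lit 3) (.nd (nat_lit 4) (.nd (nat_lit 5) 
(.lf (nat_lit 18694) (.g (nat_lit 2421) (.e (nat_lit 1177) (nat_lit 87) (.e (nat_lit 57479) (nat_lit 28) (.e (nat_lit 557105) (nat_lit 14) (.e (nat_lit 180252) (nat_lit 10) (.e (nat_lit 573489) (nat_lit 14) (.e (nat_lit 73748) (nat_lit 3) (.e (nat_lit 516115) (nat_lit 1) (.e (nat_lit 164157) (nat_lit 152) .nil)))))))) (.g (nat_lit 4) .nil .nil))) 
(.lf (nat_lit 18726) (.g (nat_lit 1947) (.e (nat_lit 1177) (nat_lit 87) (.e (nat_lit 57930) (nat_lit 282) (.e (nat_lit 163867) (nat_lit 2) (.e (nat_lit 196670) (nat_lit 14) (.e (nat_lit 73746) (nat_lit 3) (.e (nat_lit 516129) (nat_lit 3) (.e (nat_lit 221210) (nat_lit 22) (.e (nat_lit 196625) (nat_lit 9) .nil)))))))) (.g (nat_lit 4) .nil .nil)))) (.nd (nat_lit 5) 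
(.lf (nat_lit 18710) (.g (nat_lit 2839) (.e (nat_lit 1177) (nat_lit 87) (.e (nat_lit 57480) (nat_lit 28) (.e (nat_lit 557105) (nat_lit 14) (.e (nat_lit 180252) (nat_lit 10) (.e (nat_lit 573488) (nat_lit 14) (.e (nat_lit 73747) (nat_lit 3) (.e (nat_lit 516119) (nat_lit 1) (.e (nat_lit 164153) (nat_lit 152) .nil)))))))) (.g (nat_lit 5) .nil .nil))) 
(.lf (nat_lit 18742) (.g (nat_lit 3227) (.e (nat_lit 1178) (nat_lit 87) (.e (nat_lit 57479) (nat_lit 28) (.e (nat_lit 557100) (nat_lit 13) (.e (nat_lit 172106) (nat_lit 10) (.e (nat_lit 434231) (nat_lit 23) (.e (nat_lit 532544) (nat_lit 10) (.e (nat_lit 344097) (nat_lit 18) (.e (nat_lit 5905) (nat_lit 320) .nil)))))))) (.g (nat_lit 5) .nil .nil))))) (.nd (nat_lit 4) (.nd (nat_lit 5) 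
(.lf (nat_lit 18702) (.g (nat_lit 2270) (.e (nat_lit 1177) (nat_lit 87) (.e (nat_lit 57479) (nat_lit 28) (.e (nat_lit 557105) (nat_lit 14) (.e (nat_lit 180252) (nat_lit 10) (.e (nat_lit 573489) (nat_lit 14) (.e (nat_lit 73755) (nat_lit 8) (.e (nat_lit 557090) (nat_lit 12) (.e (nat_lit 163841) (nat_lit 0) (.e (nat_lit 5109) (nat_lit 292) .nil))))))))) (.g (nat_lit 4) .nil .nil))) 
(.lf (nat_lit 18734) (.g (nat_lit 2281) (.e (nat_lit 1178) (nat_lit 87) (.e (nat_lit 57478) (nat_lit 28) (.e (nat_lit 557105) (nat_lit 14) (.e (nat_lit 180252) (nat_lit 10) (.e (nat_lit 573488) (nat_lit 14) .nil))))) .nil))) (.nd (nat_lit 5) 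
(.lf (nat_lit 18718) (.g (nat_lit 602) (.e (nat_lit 1177) (nat_lit 87) (.e (nat_lit 57854) (nat_lit 252) (.e (nat_lit 57373) (nat_lit 2) .nil))) .nil)) 
(.lf (nat_lit 18750) (.g (nat_lit 2328) (.e (nat_lit 1178) (nat_lit 87) (.e (nat_lit 57479) (nat_lit 28) (.e (nat_lit 557103) (nat_lit 14) (.e (nat_lit 180250) (nat_lit 10) (.e (nat_lit 573485) (nat_lit 13) .nil))))) .nil))))))) (.nd (nat_lit 1) (.nd (nat_lit 2) (.nd (nat_lit 3) (.nd (nat_lit 4) (.nd (nat_lit 5) 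
(.lf (nat_lit 18689) (.g (nat_lit 4516) (.e (nat_lit 1177) (nat_lit 87) (.e (nat_lit 57479) (nat_lit 28) (.e (nat_lit 557105) (nat_lit 14) (.e (nat_lit 180252) (nat_lit 10) (.e (nat_lit 573488) (nat_lit 14) (.e (nat_lit 73747) (nat_lit 3) (.e (nat_lit 516117) (nat_lit 1) (.e (nat_lit 164159) (nat_lit 152) .nil)))))))) (.g (nat_lit 5) .nil .nil))) 
(.lf (nat_lit 18721) (.g (nat_lit 3107) (.e (nat_lit 1177) (nat_lit 87) (.e (nat_lit 57854) (nat_lit 252) (.e (nat_lit 57373) (nat_lit 2) (.e (nat_lit 90128) (nat_lit 9) (.e (nat_lit 304) (nat_lit 22) .nil))))) .nil))) (.nd (nat_lit 5) 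
(.lf (nat_lit 18705) (.g (nat_lit 2184) (.e (nat_lit 1177) (nat_lit 87) (.e (nat_lit 57479) (nat_lit 28) (.e (nat_lit 557109) (nat_lit 15) (.e (nat_lit 196352) (nat_lit 18) .nil)))) .nil)) 
(.lf (nat_lit 18737) (.g (nat_lit 436) (.e (nat_lit 1178) (nat_lit 87) (.e (nat_lit 57478) (nat_lit 28) (.e (nat_lit 557107) (nat_lit 15) .nil))) .nil)))) (.nd (nat_lit 4) (.nd (nat_lit 5) 
(.lf (nat_lit 18697) (.g (nat_lit 2327) (.e (nat_lit 1177) (nat_lit 87) (.e (nat_lit 57479) (nat_lit 28) (.e (nat_lit 557105) (nat_lit 14) (.e (nat_lit 180252) (nat_lit 10) (.e (nat_lit 573489) (nat_lit 14) (.e (nat_lit 73748) (nat_lit 3) (.e (nat_lit 516119) (nat_lit 1) (.e (nat_lit 164155) (nat_lit 152) .nil)))))))) (.g (nat_lit 4) .nil .nil))) 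
(.lf (nat_lit 18729) (.g (nat_lit 3488) (.e (nat_lit 1177) (nat_lit 87) (.e (nat_lit 57931) (nat_lit 282) (.e (nat_lit 163869) (nat_lit 2) (.e (nat_lit 196670) (nat_lit 14) (.e (nat_lit 73746) (nat_lit 3) (.e (nat_lit 516131) (nat_lit 3) (.e (nat_lit 221212) (nat_lit 22) (.e (nat_lit 196625) (nat_lit 9) .nil)))))))) (.g (nat_lit 6) .nil .nil)))) (.nd (nat_lit 5) 
(.lf (nat_lit 18713) (.g (nat_lit 509) (.e (nat_lit 1177) (nat_lit 87) (.e (nat_lit 57847) (nat_lit 252) (.e (nat_lit 57437) (nat_lit 17) .nil))) .nil)) 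
(.lf (nat_lit 18745) (.g (nat_lit 1993) (.e (nat_lit 1178) (nat_lit 87) (.e (nat_lit 57479) (nat_lit 28) (.e (nat_lit 557101) (nat_lit 13) (.e (nat_lit 172097) (nat_lit 9) (.e (nat_lit 426125) (nat_lit 2) (.e (nat_lit 196666) (nat_lit 13) (.e (nat_lit 65546) (nat_lit 0) (.e (nat_lit 1023) (nat_lit 81) (.e (nat_lit 5905) (nat_lit 320) .nil))))))))) (.g (nat_lit 4) .nil .nil)))))) 
(.nd (nat_lit 3) (.nd (nat_lit 4) (.nd (nat_lit 5) 
(.lf (nat_lit 18693) (.g (nat_lit 4539) (.e (nat_lit 1177) (nat_lit 87) (.e (nat_lit 57479) (nat_lit 28) (.e (nat_lit 557105) (nat_lit 14) (.e (nat_lit 180252) (nat_lit 10) (.e (nat_lit 573488) (nat_lit 14) (.e (nat_lit 73747) (nat_lit 3) (.e (nat_lit 516120) (nat_lit 1) (.e (nat_lit 164159) (nat_lit 152) .nil)))))))) (.g (nat_lit 5) .nil .nil))) 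
(.lf (nat_lit 18725) (.g (nat_lit 2856) (.e (nat_lit 1177) (nat_lit 87) (.e (nat_lit 57929) (nat_lit 282) (.e (nat_lit 163874) (nat_lit 3) (.e (nat_lit 204864) (nat_lit 27) (.e (nat_lit 344130) (nat_lit 26) (.e (nat_lit 557104) (nat_lit 14) (.e (nat_lit 180252) (nat_lit 10) (.e (nat_lit 573451) (nat_lit 9) .nil)))))))) (.g (nat_lit 5) .nil .nil)))) (.nd (nat_lit 5) 
(.lf (nat_lit 18709) (.g (nat_lit 2256) (.e (nat_lit 1177) (nat_lit 87) (.e (nat_lit 57480) (nat_lit 28) (.e (nat_lit 557105) (nat_lit 14) (.e (nat_lit 180252) (nat_lit 10) (.e (nat_lit 573488) (nat_lit 14) (.e (nat_lit 73747) (nat_lit 3) (.e (nat_lit 516119) (nat_lit 1) (.e (nat_lit 164148) (nat_lit 152) .nil)))))))) (.g (nat_lit 4) .nil .nil))) 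
(.lf (nat_lit 18741) (.g (nat_lit 1754) (.e (nat_lit 1178) (nat_lit 87) (.e (nat_lit 57479) (nat_lit 28) (.e (nat_lit 557100) (nat_lit 13) (.e (nat_lit 172106) (nat_lit 10) (.e (nat_lit 434231) (nat_lit 23) (.e (nat_lit 532535) (nat_lit 9) (.e (nat_lit 335985) (nat_lit 1) (.e (nat_lit 57871) (nat_lit 264) .nil)))))))) (.g (nat_lit 4) .nil .nil))))) (.nd (nat_lit 4) (.nd (nat_lit 5) 
(.lf (nat_lit 18701) (.g (nat_lit 2361) (.e (nat_lit 1177) (nat_lit 87) (.e (nat_lit 57479) (nat_lit 28) (.e (nat_lit 557105) (nat_lit 14) (.e (nat_lit 180252) (nat_lit 10) (.e (nat_lit 573489) (nat_lit 14) (.e (nat_lit 73755) (nat_lit 8) (.e (nat_lit 557068) (nat_lit 9) (.e (nat_lit 128) (nat_lit 6) (.e (nat_lit 123084) (nat_lit 181) .nil))))))))) (.g (nat_lit 4) .nil .nil))) 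
(.lf (nat_lit 18733) (.g (nat_lit 1801) (.e (nat_lit 1178) (nat_lit 87) (.e (nat_lit 57466) (nat_lit 23) (.e (nat_lit 516179) (nat_lit 15) (.e (nat_lit 475177) (nat_lit 24) (.e (nat_lit 516169) (nat_lit 13) .nil))))) .nil))) (.nd (nat_lit 5) 
(.lf (nat_lit 18717) (.g (nat_lit 1924) (.e (nat_lit 1177) (nat_lit 87) (.e (nat_lit 57849) (nat_lit 252) (.e (nat_lit 57377) (nat_lit 3) (.e (nat_lit 106240) (nat_lit 10) .nil)))) .nil)) 
(.lf (nat_lit 18749) (.g (nat_lit 2303) (.e (nat_lit 1178) (nat_lit 87) (.e (nat_lit 57479) (nat_lit 28) (.e (nat_lit 557103) (nat_lit 14) (.e (nat_lit 180250) (nat_lit 10) (.e (nat_lit 573482) (nat_lit 13) (.e (nat_lit 65569) (nat_lit 3) (.e (nat_lit 98334) (nat_lit 18) (.e (nat_lit 164166) (nat_lit 152) .nil)))))))) (.g (nat_lit 4) .nil .nil))))))) 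
(.nd (nat_lit 2) (.nd (nat_lit 3) (.nd (nat_lit 4) (.nd (nat_lit 5) 
(.lf (nat_lit 18691) (.g (nat_lit 3714) (.e (nat_lit 1177) (nat_lit 87) (.e (nat_lit 57479) (nat_lit 28) (.e (nat_lit 557105) (nat_lit 14) (.e (nat_lit 180252) (nat_lit 10) (.e (nat_lit 573488) (nat_lit 14) (.e (nat_lit 73747) (nat_lit 3) (.e (nat_lit 516119) (nat_lit 1) (.e (nat_lit 164155) (nat_lit 152) .nil)))))))) (.g (nat_lit 4) .nil .nil))) 
(.lf (nat_lit 18723) (.g (nat_lit 3516) (.e (nat_lit 1177) (nat_lit 87) (.e (nat_lit 57924) (nat_lit 282) (.e (nat_lit 163867) (nat_lit 2) (.e (nat_lit 196670) (nat_lit 14) (.e (nat_lit 73746) (nat_lit 3) (.e (nat_lit 516131) (nat_lit 3) (.e (nat_lit 221212) (nat_lit 22) (.e (nat_lit 196625) (nat_lit 9) .nil)))))))) (.g (nat_lit 8) .nil .nil)))) (.nd (nat_lit 5) 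
(.lf (nat_lit 18707) (.g (nat_lit 2561) (.e (nat_lit 1177) (nat_lit 87) (.e (nat_lit 57480) (nat_lit 28) (.e (nat_lit 557105) (nat_lit 14) (.e (nat_lit 180252) (nat_lit 10) (.e (nat_lit 573487) (nat_lit 14) (.e (nat_lit 73747) (nat_lit 3) (.e (nat_lit 516119) (nat_lit 1) (.e (nat_lit 164157) (nat_lit 152) .nil)))))))) (.g (nat_lit 4) .nil .nil))) 
(.lf (nat_lit 18739) (.g (nat_lit 3551) (.e (nat_lit 1178) (nat_lit 87) (.e (nat_lit 57478) (nat_lit 28) (.e (nat_lit 557109) (nat_lit 15) (.e (nat_lit 188434) (nat_lit 20) (.e (nat_lit 3272) (nat_lit 199) .nil))))) .nil)))) (.nd (nat_lit 4) (.nd (nat_lit 5) 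
(.lf (nat_lit 18699) (.g (nat_lit 2411) (.e (nat_lit 1177) (nat_lit 87) (.e (nat_lit 57479) (nat_lit 28) (.e (nat_lit 557105) (nat_lit 14) (.e (nat_lit 180252) (nat_lit 10) (.e (nat_lit 573489) (nat_lit 14) (.e (nat_lit 73748) (nat_lit 3) (.e (nat_lit 516120) (nat_lit 1) (.e (nat_lit 164158) (nat_lit 152) .nil)))))))) (.g (nat_lit 4) .nil .nil))) 
(.lf (nat_lit 18731) (.g (nat_lit 2703) (.e (nat_lit 1177) (nat_lit 87) (.e (nat_lit 57931) (nat_lit 282) (.e (nat_lit 163874) (nat_lit 3) (.e (nat_lit 204864) (nat_lit 27) (.e (nat_lit 344133) (nat_lit 26) .nil))))) .nil))) (.nd (nat_lit 5) 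
(.lf (nat_lit 18715) (.g (nat_lit 2412) (.e (nat_lit 1177) (nat_lit 87) (.e (nat_lit 57849) (nat_lit 252) (.e (nat_lit 57372) (nat_lit 2) (.e (nat_lit 90128) (nat_lit 9) (.e (nat_lit 297) (nat_lit 22) .nil))))) .nil)) 
(.lf (nat_lit 18747) (.g (nat_lit 3394) (.e (nat_lit 1178) (nat_lit 87) (.e (nat_lit 57479) (nat_lit 28) (.e (nat_lit 557101) (nat_lit 13) (.e (nat_lit 172115) (nat_lit 10) (.e (nat_lit 434244) (nat_lit 28) (.e (nat_lit 573450) (nat_lit 9) (.e (nat_lit 452) (nat_lit 33) (.e (nat_lit 434209) (nat_lit 18) (.e (nat_lit 4607) (nat_lit 269) .nil))))))))) (.g (nat_lit 6) .nil .nil)))))) 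
(.nd (nat_lit 3) (.nd (nat_lit 4) (.nd (nat_lit 5) 
(.lf (nat_lit 18695) (.g (nat_lit 2331) (.e (nat_lit 1177) (nat_lit 87) (.e (nat_lit 57479) (nat_lit 28) (.e (nat_lit 557105) (nat_lit 14) (.e (nat_lit 180252) (nat_lit 10) (.e (nat_lit 573489) (nat_lit 14) (.e (nat_lit 73748) (nat_lit 3) (.e (nat_lit 516117) (nat_lit 1) (.e (nat_lit 164158) (nat_lit 152) .nil)))))))) (.g (nat_lit 4) .nil .nil))) 
(.lf (nat_lit 18727) (.g (nat_lit 4769) (.e (nat_lit 1177) (nat_lit 87) (.e (nat_lit 57931) (nat_lit 282) (.e (nat_lit 163867) (nat_lit 2) (.e (nat_lit 196670) (nat_lit 14) (.e (nat_lit 73754) (nat_lit 8) (.e (nat_lit 557105) (nat_lit 14) (.e (nat_lit 180252) (nat_lit 10) (.e (nat_lit 573451) (nat_lit 9) .nil)))))))) (.g (nat_lit 7) .nil .nil)))) (.nd (nat_lit 5) 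
(.lf (nat_lit 18711) (.g (nat_lit 2255) (.e (nat_lit 1177) (nat_lit 87) (.e (nat_lit 57480) (nat_lit 28) (.e (nat_lit 557105) (nat_lit 14) (.e (nat_lit 180252) (nat_lit 10) (.e (nat_lit 573488) (nat_lit 14) (.e (nat_lit 73747) (nat_lit 3) (.e (nat_lit 516119) (nat_lit 1) (.e (nat_lit 164155) (nat_lit 152) .nil)))))))) (.g (nat_lit 4) .nil .nil))) 
(.lf (nat_lit 18743) (.g (nat_lit 2701) (.e (nat_lit 1178) (nat_lit 87) (.e (nat_lit 57479) (nat_lit 28) (.e (nat_lit 557100) (nat_lit 13) (.e (nat_lit 172113) (nat_lit 10) .nil)))) .nil)))) (.nd (nat_lit 4) (.nd (nat_lit 5) 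
(.lf (nat_lit 18703) (.g (nat_lit 4342) (.e (nat_lit 1177) (nat_lit 87) (.e (nat_lit 57479) (nat_lit 28) (.e (nat_lit 557105) (nat_lit 14) (.e (nat_lit 180252) (nat_lit 10) (.e (nat_lit 573489) (nat_lit 14) (.e (nat_lit 73755) (nat_lit 8) (.e (nat_lit 557090) (nat_lit 12) (.e (nat_lit 163846) (nat_lit 0) (.e (nat_lit 5062) (nat_lit 292) .nil))))))))) (.g (nat_lit 7) .nil .nil))) 
(.lf (nat_lit 18735) (.g (nat_lit 2293) (.e (nat_lit 1178) (nat_lit 87) (.e (nat_lit 57478) (nat_lit 28) (.e (nat_lit 557105) (nat_lit 14) (.e (nat_lit 180252) (nat_lit 10) (.e (nat_lit 573488) (nat_lit 14) (.e (nat_lit 73747) (nat_lit 3) (.e (nat_lit 516119) (nat_lit 1) (.e (nat_lit 164163) (nat_lit 152) .nil)))))))) (.g (nat_lit 4) .nil .nil)))) (.nd (nat_lit 5) 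
(.lf (nat_lit 18719) (.g (nat_lit 2082) (.e (nat_lit 1177) (nat_lit 87) (.e (nat_lit 57854) (nat_lit 252) (.e (nat_lit 57373) (nat_lit 2) (.e (nat_lit 90128) (nat_lit 9) .nil)))) .nil)) 
(.lf (nat_lit 18751) (.g (nat_lit 3446) (.e (nat_lit 1178) (nat_lit 87) (.e (nat_lit 57479) (nat_lit 28) (.e (nat_lit 557103) (nat_lit 14) (.e (nat_lit 180250) (nat_lit 10) (.e (nat_lit 573487) (nat_lit 14) (.e (nat_lit 73746) (nat_lit 3) (.e (nat_lit 516117) (nat_lit 1) (.e (nat_lit 164170) (nat_lit 152) .nil)))))))) (.g (nat_lit 5) .nil .nil)))))))))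

noncomputable def tv259 : DT := (.nd (nat_lit 0) (.nd (nat_lit 1) (.nd (nat_lit 2) (.nd (nat_lit 3) (.nd (nat_lit 4) (.nd (nat_lit 5) 
(.lf (nat_lit 18752) (.g (nat_lit 1404) (.e (nat_lit 1178) (nat_lit 87) (.e (nat_lit 57479) (nat_lit 28) (.e (nat_lit 557105) (nat_lit 14) (.e (nat_lit 180251) (nat_lit 10) .nil)))) .nil)) 
(.lf (nat_lit 18784) (.g (nat_lit 3075) (.e (nat_lit 1178) (nat_lit 87) (.e (nat_lit 57479) (nat_lit 28) (.e (nat_lit 557105) (nat_lit 14) (.e (nat_lit 180252) (nat_lit 10) (.e (nat_lit 573489) (nat_lit 14) (.e (nat_lit 73748) (nat_lit 3) (.e (nat_lit 516115) (nat_lit 1) (.e (nat_lit 164167) (nat_lit 152) .nil)))))))) (.g (nat_lit 5) .nil .nil)))) (.nd (nat_lit 5) 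
(.lf (nat_lit 18768) (.g (nat_lit 2930) (.e (nat_lit 1178) (nat_lit 87) (.e (nat_lit 57479) (nat_lit 28) (.e (nat_lit 557105) (nat_lit 14) (.e (nat_lit 180252) (nat_lit 10) (.e (nat_lit 573487) (nat_lit 14) (.e (nat_lit 73747) (nat_lit 3) (.e (nat_lit 516119) (nat_lit 1) (.e (nat_lit 164169) (nat_lit 152) .nil)))))))) (.g (nat_lit 4) .nil .nil))) 
(.lf (nat_lit 18800) (.g (nat_lit 2613) (.e (nat_lit 1178) (nat_lit 87) (.e (nat_lit 57479) (nat_lit 28) (.e (nat_lit 557105) (nat_lit 14) (.e (nat_lit 180252) (nat_lit 10) (.e (nat_lit 573489) (nat_lit 14) (.e (nat_lit 73755) (nat_lit 8) (.e (nat_lit 557090) (nat_lit 12) (.e (nat_lit 163844) (nat_lit 0) (.e (nat_lit 5173) (nat_lit 292) .nil))))))))) (.g (nat_lit 6) .nil .nil))))) 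
(.nd (nat_lit 4) (.nd (nat_lit 5) 
(.lf (nat_lit 18760) (.g (nat_lit 2758) (.e (nat_lit 1178) (nat_lit 87) (.e (nat_lit 57479) (nat_lit 28) (.e (nat_lit 557105) (nat_lit 14) (.e (nat_lit 180252) (nat_lit 10) (.e (nat_lit 573482) (nat_lit 13) (.e (nat_lit 65570) (nat_lit 3) (.e (nat_lit 98333) (nat_lit 18) (.e (nat_lit 164167) (nat_lit 152) .nil)))))))) (.g (nat_lit 4) .nil .nil))) 
(.lf (nat_lit 18792) (.g (nat_lit 2596) (.e (nat_lit 1178) (nat_lit 87) (.e (nat_lit 57479) (nat_lit 28) (.e (nat_lit 557105) (nat_lit 14) (.e (nat_lit 180252) (nat_lit 10) (.e (nat_lit 573489) (nat_lit 14) (.e (nat_lit 73755) (nat_lit 8) (.e (nat_lit 557090) (nat_lit 12) (.e (nat_lit 163841) (nat_lit 0) (.e (nat_lit 5115) (nat_lit 292) .nil))))))))) (.g (nat_lit 6) .nil .nil)))) (.nd (nat_lit 5) 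
(.lf (nat_lit 18776) (.g (nat_lit 3341) (.e (nat_lit 1178) (nat_lit 87) (.e (nat_lit 57479) (nat_lit 28) (.e (nat_lit 557105) (nat_lit 14) (.e (nat_lit 180252) (nat_lit 10) (.e (nat_lit 573488) (nat_lit 14) (.e (nat_lit 73747) (nat_lit 3) (.e (nat_lit 516117) (nat_lit 1) (.e (nat_lit 164167) (nat_lit 152) .nil)))))))) (.g (nat_lit 4) .nil .nil))) 
(.lf (nat_lit 18808) (.g (nat_lit 2727) (.e (nat_lit 1178) (nat_lit 87) (.e (nat_lit 57479) (nat_lit 28) (.e (nat_lit 557109) (nat_lit 15) (.e (nat_lit 188452) (nat_lit 23) .nil)))) .nil))))) (.nd (nat_lit 3) (.nd (nat_lit 4) (.nd (nat_lit 5) 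
(.lf (nat_lit 18756) (.g (nat_lit 2674) (.e (nat_lit 1178) (nat_lit 87) (.e (nat_lit 57479) (nat_lit 28) (.e (nat_lit 557105) (nat_lit 14) (.e (nat_lit 180252) (nat_lit 10) (.e (nat_lit 573480) (nat_lit 13) (.e (nat_lit 65571) (nat_lit 3) (.e (nat_lit 98334) (nat_lit 18) (.e (nat_lit 164164) (nat_lit 152) .nil)))))))) (.g (nat_lit 4) .nil .nil))) 
(.lf (nat_lit 18788) (.g (nat_lit 3342) (.e (nat_lit 1178) (nat_lit 87) (.e (nat_lit 57479) (nat_lit 28) (.e (nat_lit 557105) (nat_lit 14) (.e (nat_lit 180252) (nat_lit 10) (.e (nat_lit 573489) (nat_lit 14) (.e (nat_lit 73748) (nat_lit 3) (.e (nat_lit 516119) (nat_lit 1) (.e (nat_lit 164164) (nat_lit 152) .nil)))))))) (.g (nat_lit 6) .nil .nil)))) (.nd (nat_lit 5) 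
(.lf (nat_lit 18772) (.g (nat_lit 3976) (.e (nat_lit 1178) (nat_lit 87) (.e (nat_lit 57479) (nat_lit 28) (.e (nat_lit 557105) (nat_lit 14) (.e (nat_lit 180252) (nat_lit 10) (.e (nat_lit 573488) (nat_lit 14) (.e (nat_lit 73747) (nat_lit 3) (.e (nat_lit 516115) (nat_lit 1) (.e (nat_lit 164163) (nat_lit 152) .nil)))))))) (.g (nat_lit 5) .nil .nil))) 
(.lf (nat_lit 18804) (.g (nat_lit 896) (.e (nat_lit 1178) (nat_lit 87) (.e (nat_lit 57479) (nat_lit 28) (.e (nat_lit 557109) (nat_lit 15) .nil))) .nil)))) (.nd (nat_lit 4) (.nd (nat_lit 5) 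
(.lf (nat_lit 18764) (.g (nat_lit 3327) (.e (nat_lit 1178) (nat_lit 87) (.e (nat_lit 57479) (nat_lit 28) (.e (nat_lit 557105) (nat_lit 14) (.e (nat_lit 180252) (nat_lit 10) (.e (nat_lit 573487) (nat_lit 14) (.e (nat_lit 73747) (nat_lit 3) (.e (nat_lit 516116) (nat_lit 1) (.e (nat_lit 164164) (nat_lit 152) .nil)))))))) (.g (nat_lit 5) .nil .nil))) 
(.lf (nat_lit 18796) (.g (nat_lit 4396) (.e (nat_lit 1178) (nat_lit 87) (.e (nat_lit 57479) (nat_lit 28) (.e (nat_lit 557105) (nat_lit 14) (.e (nat_lit 180252) (nat_lit 10) (.e (nat_lit 573489) (nat_lit 14) (.e (nat_lit 73755) (nat_lit 8) (.e (nat_lit 557090) (nat_lit 12) (.e (nat_lit 163842) (nat_lit 0) (.e (nat_lit 5108) (nat_lit 292) .nil))))))))) (.g (nat_lit 9) .nil .nil)))) (.nd (nat_lit 5) 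
(.lf (nat_lit 18780) (.g (nat_lit 4073) (.e (nat_lit 1178) (nat_lit 87) (.e (nat_lit 57479) (nat_lit 28) (.e (nat_lit 557105) (nat_lit 14) (.e (nat_lit 180252) (nat_lit 10) (.e (nat_lit 573488) (nat_lit 14) (.e (nat_lit 73747) (nat_lit 3) (.e (nat_lit 516119) (nat_lit 1) (.e (nat_lit 164167) (nat_lit 152) .nil)))))))) (.g (nat_lit 5) .nil .nil))) 
(.lf (nat_lit 18812) (.g (nat_lit 2196) (.e (nat_lit 1178) (nat_lit 87) (.e (nat_lit 57480) (nat_lit 28) (.e (nat_lit 557098) (nat_lit 13) (.e (nat_lit 172097) (nat_lit 9) (.e (nat_lit 426140) (nat_lit 3) .nil))))) .nil)))))) (.nd (nat_lit 2) (.nd (nat_lit 3) (.nd (nat_lit 4) (.nd (nat_lit 5) 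
(.lf (nat_lit 18754) (.g (nat_lit 2913) (.e (nat_lit 1178) (nat_lit 87) (.e (nat_lit 57479) (nat_lit 28) (.e (nat_lit 557105) (nat_lit 14) (.e (nat_lit 180251) (nat_lit 10) (.e (nat_lit 573487) (nat_lit 14) .nil))))) .nil)) 
(.lf (nat_lit 18786) (.g (nat_lit 3310) (.e (nat_lit 1178) (nat_lit 87) (.e (nat_lit 57479) (nat_lit 28) (.e (nat_lit 557105) (nat_lit 14) (.e (nat_lit 180252) (nat_lit 10) (.e (nat_lit 573489) (nat_lit 14) (.e (nat_lit 73748) (nat_lit 3) (.e (nat_lit 516119) (nat_lit 1) (.e (nat_lit 164147) (nat_lit 152) .nil)))))))) (.g (nat_lit 6) .nil .nil)))) (.nd (nat_lit 5) 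
(.lf (nat_lit 18770) (.g (nat_lit 3167) (.e (nat_lit 1178) (nat_lit 87) (.e (nat_lit 57479) (nat_lit 28) (.e (nat_lit 557105) (nat_lit 14) (.e (nat_lit 180252) (nat_lit 10) (.e (nat_lit 573488) (nat_lit 14) .nil))))) .nil)) 
(.lf (nat_lit 18802) (.g (nat_lit 1603) (.e (nat_lit 1178) (nat_lit 87) (.e (nat_lit 57479) (nat_lit 28) (.e (nat_lit 557107) (nat_lit 15) (.e (nat_lit 196352) (nat_lit 18) .nil)))) .nil)))) (.nd (nat_lit 4) (.nd (nat_lit 5) 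
(.lf (nat_lit 18762) (.g (nat_lit 3524) (.e (nat_lit 1178) (nat_lit 87) (.e (nat_lit 57479) (nat_lit 28) (.e (nat_lit 557105) (nat_lit 14) (.e (nat_lit 180252) (nat_lit 10) (.e (nat_lit 573487) (nat_lit 14) (.e (nat_lit 73747) (nat_lit 3) (.e (nat_lit 516115) (nat_lit 1) (.e (nat_lit 164163) (nat_lit 152) .nil)))))))) (.g (nat_lit 5) .nil .nil))) 
(.lf (nat_lit 18794) (.g (nat_lit 2596) (.e (nat_lit 1178) (nat_lit 87) (.e (nat_lit 57479) (nat_lit 28) (.e (nat_lit 557105) (nat_lit 14) (.e (nat_lit 180252) (nat_lit 10) (.e (nat_lit 573489) (nat_lit 14) (.e (nat_lit 73755) (nat_lit 8) (.e (nat_lit 557090) (nat_lit 12) (.e (nat_lit 163841) (nat_lit 0) (.e (nat_lit 5175) (nat_lit 292) .nil))))))))) (.g (nat_lit 6) .nil .nil)))) (.nd (nat_lit 5) 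
(.lf (nat_lit 18778) (.g (nat_lit 4606) (.e (nat_lit 1178) (nat_lit 87) (.e (nat_lit 57479) (nat_lit 28) (.e (nat_lit 557105) (nat_lit 14) (.e (nat_lit 180252) (nat_lit 10) (.e (nat_lit 573488) (nat_lit 14) (.e (nat_lit 73747) (nat_lit 3) (.e (nat_lit 516119) (nat_lit 1) (.e (nat_lit 164162) (nat_lit 152) .nil)))))))) (.g (nat_lit 6) .nil .nil))) 
(.lf (nat_lit 18810) (.g (nat_lit 2197) (.e (nat_lit 1178) (nat_lit 87) (.e (nat_lit 57480) (nat_lit 28) (.e (nat_lit 557098) (nat_lit 13) (.e (nat_lit 172097) (nat_lit 9) (.e (nat_lit 426125) (nat_lit 2) .nil))))) .nil))))) (.nd (nat_lit 3) (.nd (nat_lit 4) (.nd (nat_lit 5) 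
(.lf (nat_lit 18758) (.g (nat_lit 3365) (.e (nat_lit 1178) (nat_lit 87) (.e (nat_lit 57479) (nat_lit 28) (.e (nat_lit 557105) (nat_lit 14) (.e (nat_lit 180252) (nat_lit 10) (.e (nat_lit 573481) (nat_lit 13) (.e (nat_lit 65569) (nat_lit 3) (.e (nat_lit 98334) (nat_lit 18) (.e (nat_lit 164164) (nat_lit 152) .nil)))))))) (.g (nat_lit 4) .nil .nil))) 
(.lf (nat_lit 18790) (.g (nat_lit 1900) (.e (nat_lit 1178) (nat_lit 87) (.e (nat_lit 57479) (nat_lit 28) (.e (nat_lit 557105) (nat_lit 14) (.e (nat_lit 180252) (nat_lit 10) (.e (nat_lit 573489) (nat_lit 14) (.e (nat_lit 73755) (nat_lit 8) (.e (nat_lit 557090) (nat_lit 12) (.e (nat_lit 163841) (nat_lit 0) (.e (nat_lit 5111) (nat_lit 292) .nil))))))))) (.g (nat_lit 4) .nil .nil)))) (.nd (nat_lit 5) 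
(.lf (nat_lit 18774) (.g (nat_lit 3441) (.e (nat_lit 1178) (nat_lit 87) (.e (nat_lit 57479) (nat_lit 28) (.e (nat_lit 557105) (nat_lit 14) (.e (nat_lit 180252) (nat_lit 10) (.e (nat_lit 573488) (nat_lit 14) (.e (nat_lit 73747) (nat_lit 3) (.e (nat_lit 516116) (nat_lit 1) (.e (nat_lit 164164) (nat_lit 152) .nil)))))))) (.g (nat_lit 4) .nil .nil))) 
(.lf (nat_lit 18806) (.g (nat_lit 2020) (.e (nat_lit 1178) (nat_lit 87) (.e (nat_lit 57479) (nat_lit 28) (.e (nat_lit 557109) (nat_lit 15) (.e (nat_lit 196352) (nat_lit 3) .nil)))) .nil)))) (.nd (nat_lit 4) (.nd (nat_lit 5) 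
(.lf (nat_lit 18766) (.g (nat_lit 3026) (.e (nat_lit 1178) (nat_lit 87) (.e (nat_lit 57479) (nat_lit 28) (.e (nat_lit 557105) (nat_lit 14) (.e (nat_lit 180252) (nat_lit 10) (.e (nat_lit 573487) (nat_lit 14) (.e (nat_lit 73747) (nat_lit 3) (.e (nat_lit 516117) (nat_lit 1) (.e (nat_lit 164167) (nat_lit 152) .nil)))))))) (.g (nat_lit 4) .nil .nil))) 
(.lf (nat_lit 18798) (.g (nat_lit 2172) (.e (nat_lit 1178) (nat_lit 87) (.e (nat_lit 57479) (nat_lit 28) (.e (nat_lit 557105) (nat_lit 14) (.e (nat_lit 180252) (nat_lit 10) (.e (nat_lit 573489) (nat_lit 14) (.e (nat_lit 73755) (nat_lit 8) (.e (nat_lit 557090) (nat_lit 12) (.e (nat_lit 163842) (nat_lit 0) (.e (nat_lit 5139) (nat_lit 292) .nil))))))))) (.g (nat_lit 5) .nil .nil)))) (.nd (nat_lit 5) 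
(.lf (nat_lit 18782) (.g (nat_lit 1768) (.e (nat_lit 1178) (nat_lit 87) (.e (nat_lit 57479) (nat_lit 28) (.e (nat_lit 557105) (nat_lit 14) (.e (nat_lit 180252) (nat_lit 10) (.e (nat_lit 573489) (nat_lit 14) .nil))))) .nil)) 
(.lf (nat_lit 18814) (.g (nat_lit 2276) (.e (nat_lit 1178) (nat_lit 87) (.e (nat_lit 57480) (nat_lit 28) (.e (nat_lit 557098) (nat_lit 13) (.e (nat_lit 172097) (nat_lit 9) (.e (nat_lit 426140) (nat_lit 3) (.e (nat_lit 204862) (nat_lit 27) (.e (nat_lit 344097) (nat_lit 18) (.e (nat_lit 5906) (nat_lit 320) .nil)))))))) (.g (nat_lit 4) .nil .nil)))))))) 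
(.nd (nat_lit 1) (.nd (nat_lit 2) (.nd (nat_lit 3) (.nd (nat_lit 4) (.nd (nat_lit 5) 
(.lf (nat_lit 18753) (.g (nat_lit 2243) (.e (nat_lit 1178) (nat_lit 87) (.e (nat_lit 57479) (nat_lit 28) (.e (nat_lit 557105) (nat_lit 14) (.e (nat_lit 180251) (nat_lit 10) (.e (nat_lit 573485) (nat_lit 13) .nil))))) .nil)) 
(.lf (nat_lit 18785) (.g (nat_lit 3283) (.e (nat_lit 1178) (nat_lit 87) (.e (nat_lit 57479) (nat_lit 28) (.e (nat_lit 557105) (nat_lit 14) (.e (nat_lit 180252) (nat_lit 10) (.e (nat_lit 573489) (nat_lit 14) (.e (nat_lit 73748) (nat_lit 3) (.e (nat_lit 516117) (nat_lit 1) (.e (nat_lit 164170) (nat_lit 152) .nil)))))))) (.g (nat_lit 6) .nil .nil)))) (.nd (nat_lit 5) 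
(.lf (nat_lit 18769) (.g (nat_lit 3054) (.e (nat_lit 1178) (nat_lit 87) (.e (nat_lit 57479) (nat_lit 28) (.e (nat_lit 557105) (nat_lit 14) (.e (nat_lit 180252) (nat_lit 10) (.e (nat_lit 573487) (nat_lit 14) (.e (nat_lit 73747) (nat_lit 3) (.e (nat_lit 516120) (nat_lit 1) (.e (nat_lit 164147) (nat_lit 152) .nil)))))))) (.g (nat_lit 4) .nil .nil))) 
(.lf (nat_lit 18801) (.g (nat_lit 2707) (.e (nat_lit 1178) (nat_lit 87) (.e (nat_lit 57479) (nat_lit 28) (.e (nat_lit 557105) (nat_lit 14) (.e (nat_lit 180252) (nat_lit 10) (.e (nat_lit 573489) (nat_lit 14) (.e (nat_lit 73755) (nat_lit 8) (.e (nat_lit 557090) (nat_lit 12) (.e (nat_lit 163844) (nat_lit 0) (.e (nat_lit 5175) (nat_lit 292) .nil))))))))) (.g (nat_lit 6) .nil .nil))))) 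
(.nd (nat_lit 4) (.nd (nat_lit 5) 
(.lf (nat_lit 18761) (.g (nat_lit 2839) (.e (nat_lit 1178) (nat_lit 87) (.e (nat_lit 57479) (nat_lit 28) (.e (nat_lit 557105) (nat_lit 14) (.e (nat_lit 180252) (nat_lit 10) (.e (nat_lit 573487) (nat_lit 14) .nil))))) .nil)) 
(.lf (nat_lit 18793) (.g (nat_lit 1900) (.e (nat_lit 1178) (nat_lit 87) (.e (nat_lit 57479) (nat_lit 28) (.e (nat_lit 557105) (nat_lit 14) (.e (nat_lit 180252) (nat_lit 10) (.e (nat_lit 573489) (nat_lit 14) (.e (nat_lit 73755) (nat_lit 8) (.e (nat_lit 557090) (nat_lit 12) (.e (nat_lit 163841) (nat_lit 0) (.e (nat_lit 5174) (nat_lit 292) .nil))))))))) (.g (nat_lit 4) .nil .nil)))) (.nd (nat_lit 5) 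
(.lf (nat_lit 18777) (.g (nat_lit 4335) (.e (nat_lit 1178) (nat_lit 87) (.e (nat_lit 57479) (nat_lit 28) (.e (nat_lit 557105) (nat_lit 14) (.e (nat_lit 180252) (nat_lit 10) (.e (nat_lit 573488) (nat_lit 14) (.e (nat_lit 73747) (nat_lit 3) (.e (nat_lit 516119) (nat_lit 1) (.e (nat_lit 164147) (nat_lit 152) .nil)))))))) (.g (nat_lit 6) .nil .nil))) 
(.lf (nat_lit 18809) (.g (nat_lit 2278) (.e (nat_lit 1178) (nat_lit 87) (.e (nat_lit 57479) (nat_lit 28) (.e (nat_lit 557109) (nat_lit 15) (.e (nat_lit 188461) (nat_lit 26) .nil)))) .nil))))) (.nd (nat_lit 3) (.nd (nat_lit 4) (.nd (nat_lit 5) 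
(.lf (nat_lit 18757) (.g (nat_lit 3106) (.e (nat_lit 1178) (nat_lit 87) (.e (nat_lit 57479) (nat_lit 28) (.e (nat_lit 557105) (nat_lit 14) (.e (nat_lit 180252) (nat_lit 10) (.e (nat_lit 573481) (nat_lit 13) .nil))))) .nil)) 
(.lf (nat_lit 18789) (.g (nat_lit 2363) (.e (nat_lit 1178) (nat_lit 87) (.e (nat_lit 57479) (nat_lit 28) (.e (nat_lit 557105) (nat_lit 14) (.e (nat_lit 180252) (nat_lit 10) (.e (nat_lit 573489) (nat_lit 14) (.e (nat_lit 73755) (nat_lit 8) (.e (nat_lit 557083) (nat_lit 10) (.e (nat_lit 8293) (nat_lit 51) (.e (nat_lit 6322) (nat_lit 337) .nil))))))))) (.g (nat_lit 5) .nil .nil)))) (.nd (nat_lit 5) 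
(.lf (nat_lit 18773) (.g (nat_lit 4006) (.e (nat_lit 1178) (nat_lit 87) (.e (nat_lit 57479) (nat_lit 28) (.e (nat_lit 557105) (nat_lit 14) (.e (nat_lit 180252) (nat_lit 10) (.e (nat_lit 573488) (nat_lit 14) (.e (nat_lit 73747) (nat_lit 3) (.e (nat_lit 516115) (nat_lit 1) (.e (nat_lit 164164) (nat_lit 152) .nil)))))))) (.g (nat_lit 5) .nil .nil))) 
(.lf (nat_lit 18805) (.g (nat_lit 2020) (.e (nat_lit 1178) (nat_lit 87) (.e (nat_lit 57479) (nat_lit 28) (.e (nat_lit 557109) (nat_lit 15) (.e (nat_lit 196352) (nat_lit 0) .nil)))) .nil)))) (.nd (nat_lit 4) (.nd (nat_lit 5) 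
(.lf (nat_lit 18765) (.g (nat_lit 3087) (.e (nat_lit 1178) (nat_lit 87) (.e (nat_lit 57479) (nat_lit 28) (.e (nat_lit 557105) (nat_lit 14) (.e (nat_lit 180252) (nat_lit 10) (.e (nat_lit 573487) (nat_lit 14) (.e (nat_lit 73747) (nat_lit 3) (.e (nat_lit 516117) (nat_lit 1) (.e (nat_lit 164147) (nat_lit 152) .nil)))))))) (.g (nat_lit 4) .nil .nil))) 
(.lf (nat_lit 18797) (.g (nat_lit 4422) (.e (nat_lit 1178) (nat_lit 87) (.e (nat_lit 57479) (nat_lit 28) (.e (nat_lit 557105) (nat_lit 14) (.e (nat_lit 180252) (nat_lit 10) (.e (nat_lit 573489) (nat_lit 14) (.e (nat_lit 73755) (nat_lit 8) (.e (nat_lit 557090) (nat_lit 12) (.e (nat_lit 163842) (nat_lit 0) (.e (nat_lit 5113) (nat_lit 292) .nil))))))))) (.g (nat_lit 9) .nil .nil)))) (.nd (nat_lit 5) 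
(.lf (nat_lit 18781) (.g (nat_lit 3361) (.e (nat_lit 1178) (nat_lit 87) (.e (nat_lit 57479) (nat_lit 28) (.e (nat_lit 557105) (nat_lit 14) (.e (nat_lit 180252) (nat_lit 10) (.e (nat_lit 573488) (nat_lit 14) (.e (nat_lit 73747) (nat_lit 3) (.e (nat_lit 516120) (nat_lit 1) (.e (nat_lit 164147) (nat_lit 152) .nil)))))))) (.g (nat_lit 4) .nil .nil))) 
(.lf (nat_lit 18813) (.g (nat_lit 2215) (.e (nat_lit 1178) (nat_lit 87) (.e (nat_lit 57480) (nat_lit 28) (.e (nat_lit 557098) (nat_lit 13) (.e (nat_lit 172097) (nat_lit 9) (.e (nat_lit 426140) (nat_lit 3) (.e (nat_lit 204855) (nat_lit 26) (.e (nat_lit 335985) (nat_lit 1) (.e (nat_lit 57873) (nat_lit 264) .nil)))))))) (.g (nat_lit 4) .nil .nil))))))) 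
(.nd (nat_lit 2) (.nd (nat_lit 3) (.nd (nat_lit 4) (.nd (nat_lit 5) 
(.lf (nat_lit 18755) (.g (nat_lit 3824) (.e (nat_lit 1178) (nat_lit 87) (.e (nat_lit 57479) (nat_lit 28) (.e (nat_lit 557105) (nat_lit 14) (.e (nat_lit 180251) (nat_lit 10) (.e (nat_lit 573487) (nat_lit 14) (.e (nat_lit 73746) (nat_lit 3) (.e (nat_lit 516117) (nat_lit 1) (.e (nat_lit 164166) (nat_lit 152) .nil)))))))) (.g (nat_lit 5) .nil .nil))) 
(.lf (nat_lit 18787) (.g (nat_lit 2976) (.e (nat_lit 1178) (nat_lit 87) (.e (nat_lit 57479) (nat_lit 28) (.e (nat_lit 557105) (nat_lit 14) (.e (nat_lit 180252) (nat_lit 10) (.e (nat_lit 573489) (nat_lit 14) (.e (nat_lit 73748) (nat_lit 3) (.e (nat_lit 516119) (nat_lit 1) (.e (nat_lit 164163) (nat_lit 152) .nil)))))))) (.g (nat_lit 5) .nil .nil)))) (.nd (nat_lit 5) 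
(.lf (nat_lit 18771) (.g (nat_lit 3308) (.e (nat_lit 1178) (nat_lit 87) (.e (nat_lit 57479) (nat_lit 28) (.e (nat_lit 557105) (nat_lit 14) (.e (nat_lit 180252) (nat_lit 10) (.e (nat_lit 573488) (nat_lit 14) (.e (nat_lit 73746) (nat_lit 3) (.e (nat_lit 516120) (nat_lit 1) (.e (nat_lit 164166) (nat_lit 152) .nil)))))))) (.g (nat_lit 4) .nil .nil))) 
(.lf (nat_lit 18803) (.g (nat_lit 3691) (.e (nat_lit 1178) (nat_lit 87) (.e (nat_lit 57479) (nat_lit 28) (.e (nat_lit 557107) (nat_lit 15) (.e (nat_lit 188439) (nat_lit 20) .nil)))) .nil)))) (.nd (nat_lit 4) (.nd (nat_lit 5) 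
(.lf (nat_lit 18763) (.g (nat_lit 3531) (.e (nat_lit 1178) (nat_lit 87) (.e (nat_lit 57479) (nat_lit 28) (.e (nat_lit 557105) (nat_lit 14) (.e (nat_lit 180252) (nat_lit 10) (.e (nat_lit 573487) (nat_lit 14) (.e (nat_lit 73747) (nat_lit 3) (.e (nat_lit 516115) (nat_lit 1) (.e (nat_lit 164164) (nat_lit 152) .nil)))))))) (.g (nat_lit 5) .nil .nil))) 
(.lf (nat_lit 18795) (.g (nat_lit 2286) (.e (nat_lit 1178) (nat_lit 87) (.e (nat_lit 57479) (nat_lit 28) (.e (nat_lit 557105) (nat_lit 14) (.e (nat_lit 180252) (nat_lit 10) (.e (nat_lit 573489) (nat_lit 14) (.e (nat_lit 73755) (nat_lit 8) (.e (nat_lit 557090) (nat_lit 12) (.e (nat_lit 163841) (nat_lit 0) (.e (nat_lit 5177) (nat_lit 292) .nil))))))))) (.g (nat_lit 5) .nil .nil)))) (.nd (nat_lit 5) 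
(.lf (nat_lit 18779) (.g (nat_lit 4375) (.e (nat_lit 1178) (nat_lit 87) (.e (nat_lit 57479) (nat_lit 28) (.e (nat_lit 557105) (nat_lit 14) (.e (nat_lit 180252) (nat_lit 10) (.e (nat_lit 573488) (nat_lit 14) (.e (nat_lit 73747) (nat_lit 3) (.e (nat_lit 516119) (nat_lit 1) (.e (nat_lit 164164) (nat_lit 152) .nil)))))))) (.g (nat_lit 6) .nil .nil))) 
(.lf (nat_lit 18811) (.g (nat_lit 2354) (.e (nat_lit 1178) (nat_lit 87) (.e (nat_lit 57480) (nat_lit 28) (.e (nat_lit 557098) (nat_lit 13) (.e (nat_lit 172097) (nat_lit 9) (.e (nat_lit 426125) (nat_lit 2) (.e (nat_lit 196666) (nat_lit 13) (.e (nat_lit 65565) (nat_lit 1) (.e (nat_lit 57871) (nat_lit 264) .nil)))))))) (.g (nat_lit 4) .nil .nil)))))) 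
(.nd (nat_lit 3) (.nd (nat_lit 4) (.nd (nat_lit 5) 
(.lf (nat_lit 18759) (.g (nat_lit 3171) (.e (nat_lit 1178) (nat_lit 87) (.e (nat_lit 57479) (nat_lit 28) (.e (nat_lit 557105) (nat_lit 14) (.e (nat_lit 180252) (nat_lit 10) (.e (nat_lit 573481) (nat_lit 13) (.e (nat_lit 65570) (nat_lit 3) (.e (nat_lit 98334) (nat_lit 18) (.e (nat_lit 164166) (nat_lit 152) .nil)))))))) (.g (nat_lit 4) .nil .nil))) 
(.lf (nat_lit 18791) (.g (nat_lit 2286) (.e (nat_lit 1178) (nat_lit 87) (.e (nat_lit 57479) (nat_lit 28) (.e (nat_lit 557105) (nat_lit 14) (.e (nat_lit 180252) (nat_lit 10) (.e (nat_lit 573489) (nat_lit 14) (.e (nat_lit 73755) (nat_lit 8) (.e (nat_lit 557090) (nat_lit 12) (.e (nat_lit 163841) (nat_lit 0) (.e (nat_lit 5113) (nat_lit 292) .nil))))))))) (.g (nat_lit 5) .nil .nil)))) (.nd (nat_lit 5) 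
(.lf (nat_lit 18775) (.g (nat_lit 4075) (.e (nat_lit 1178) (nat_lit 87) (.e (nat_lit 57479) (nat_lit 28) (.e (nat_lit 557105) (nat_lit 14) (.e (nat_lit 180252) (nat_lit 10) (.e (nat_lit 573488) (nat_lit 14) (.e (nat_lit 73747) (nat_lit 3) (.e (nat_lit 516117) (nat_lit 1) (.e (nat_lit 164165) (nat_lit 152) .nil)))))))) (.g (nat_lit 5) .nil .nil))) 
(.lf (nat_lit 18807) (.g (nat_lit 2020) (.e (nat_lit 1178) (nat_lit 87) (.e (nat_lit 57479) (nat_lit 28) (.e (nat_lit 557109) (nat_lit 15) (.e (nat_lit 196352) (nat_lit 18) .nil)))) .nil)))) (.nd (nat_lit 4) (.nd (nat_lit 5) 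
(.lf (nat_lit 18767) (.g (nat_lit 4474) (.e (nat_lit 1178) (nat_lit 87) (.e (nat_lit 57479) (nat_lit 28) (.e (nat_lit 557105) (nat_lit 14) (.e (nat_lit 180252) (nat_lit 10) (.e (nat_lit 573487) (nat_lit 14) (.e (nat_lit 73747) (nat_lit 3) (.e (nat_lit 516119) (nat_lit 1) (.e (nat_lit 164162) (nat_lit 152) .nil)))))))) (.g (nat_lit 6) .nil .nil))) 
(.lf (nat_lit 18799) (.g (nat_lit 3374) (.e (nat_lit 1178) (nat_lit 87) (.e (nat_lit 57479) (nat_lit 28) (.e (nat_lit 557105) (nat_lit 14) (.e (nat_lit 180252) (nat_lit 10) (.e (nat_lit 573489) (nat_lit 14) (.e (nat_lit 73755) (nat_lit 8) (.e (nat_lit 557090) (nat_lit 12) (.e (nat_lit 163842) (nat_lit 0) (.e (nat_lit 5148) (nat_lit 292) .nil))))))))) (.g (nat_lit 7) .nil .nil)))) (.nd (nat_lit 5) 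
(.lf (nat_lit 18783) (.g (nat_lit 3168) (.e (nat_lit 1178) (nat_lit 87) (.e (nat_lit 57479) (nat_lit 28) (.e (nat_lit 557105) (nat_lit 14) (.e (nat_lit 180252) (nat_lit 10) (.e (nat_lit 573489) (nat_lit 14) (.e (nat_lit 73748) (nat_lit 3) (.e (nat_lit 516115) (nat_lit 1) (.e (nat_lit 164165) (nat_lit 152) .nil)))))))) (.g (nat_lit 5) .nil .nil))) 
(.lf (nat_lit 18815) (.g (nat_lit 2988) (.e (nat_lit 1178) (nat_lit 87) (.e (nat_lit 57480) (nat_lit 28) (.e (nat_lit 557098) (nat_lit 13) (.e (nat_lit 172097) (nat_lit 9) (.e (nat_lit 426140) (nat_lit 3) (.e (nat_lit 204863) (nat_lit 27) (.e (nat_lit 344097) (nat_lit 18) (.e (nat_lit 5907) (nat_lit 320) .nil)))))))) (.g (nat_lit 5) .nil .nil)))))))))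

noncomputable def tv260 : DT := (.nd (nat_lit 0) (.nd (nat_lit 1) (.nd (nat_lit 2) (.nd (nat_lit 3) (.nd (nat_lit 4) (.nd (nat_lit 5) 
(.lf (nat_lit 18816) (.g (nat_lit 2225) (.e (nat_lit 1178) (nat_lit 87) (.e (nat_lit 57480) (nat_lit 28) (.e (nat_lit 557098) (nat_lit 13) (.e (nat_lit 172115) (nat_lit 10) (.e (nat_lit 434231) (nat_lit 23) (.e (nat_lit 532535) (nat_lit 9) (.e (nat_lit 335985) (nat_lit 1) (.e (nat_lit 57871) (nat_lit 264) .nil)))))))) (.g (nat_lit 4) .nil .nil))) 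
(.lf (nat_lit 18848) (.g (nat_lit 4061) (.e (nat_lit 1178) (nat_lit 87) (.e (nat_lit 57480) (nat_lit 28) (.e (nat_lit 557108) (nat_lit 15) (.e (nat_lit 188434) (nat_lit 20) (.e (nat_lit 3272) (nat_lit 199) .nil))))) .nil))) (.nd (nat_lit 5) 
(.lf (nat_lit 18832) (.g (nat_lit 4038) (.e (nat_lit 1178) (nat_lit 87) (.e (nat_lit 57480) (nat_lit 28) (.e (nat_lit 557105) (nat_lit 14) (.e (nat_lit 180252) (nat_lit 10) (.e (nat_lit 573488) (nat_lit 14) (.e (nat_lit 73747) (nat_lit 3) (.e (nat_lit 516119) (nat_lit 1) (.e (nat_lit 164164) (nat_lit 152) .nil)))))))) (.g (nat_lit 0) .nil .nil))) 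
(.lf (nat_lit 18864) (.g (nat_lit 4248) (.e (nat_lit 1178) (nat_lit 87) (.e (nat_lit 57480) (nat_lit 28) (.e (nat_lit 557108) (nat_lit 15) (.e (nat_lit 188452) (nat_lit 23) (.e (nat_lit 204845) (nat_lit 24) .nil))))) .nil)))) (.nd (nat_lit 4) (.nd (nat_lit 5) 
(.lf (nat_lit 18824) (.g (nat_lit 2202) (.e (nat_lit 1178) (nat_lit 87) (.e (nat_lit 57480) (nat_lit 28) (.e (nat_lit 557105) (nat_lit 14) (.e (nat_lit 180251) (nat_lit 10) (.e (nat_lit 573485) (nat_lit 13) .nil))))) .nil)) 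
(.lf (nat_lit 18856) (.g (nat_lit 2385) (.e (nat_lit 1178) (nat_lit 87) (.e (nat_lit 57480) (nat_lit 28) (.e (nat_lit 557108) (nat_lit 15) (.e (nat_lit 188452) (nat_lit 23) (.e (nat_lit 204816) (nat_lit 17) (.e (nat_lit 6619) (nat_lit 357) (.e (nat_lit 2612) (nat_lit 163) (.e (nat_lit 164422) (nat_lit 272) .nil)))))))) (.g (nat_lit 4) .nil .nil)))) (.nd (nat_lit 5) 
(.lf (nat_lit 18840) (.g (nat_lit 2289) (.e (nat_lit 1178) (nat_lit 87) (.e (nat_lit 57480) (nat_lit 28) (.e (nat_lit 557107) (nat_lit 15) (.e (nat_lit 188447) (nat_lit 22) (.e (nat_lit 196666) (nat_lit 13) .nil))))) .nil)) 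
(.lf (nat_lit 18872) (.g (nat_lit 3028) (.e (nat_lit 1178) (nat_lit 87) (.e (nat_lit 57480) (nat_lit 28) (.e (nat_lit 557108) (nat_lit 15) (.e (nat_lit 188452) (nat_lit 23) (.e (nat_lit 204852) (nat_lit 26) (.e (nat_lit 336257) (nat_lit 15) (.e (nat_lit 2430) (nat_lit 157) (.e (nat_lit 7450) (nat_lit 396) .nil)))))))) (.g (nat_lit 4) .nil .nil)))))) 
(.nd (nat_lit 3) (.nd (nat_lit 4) (.nd (nat_lit 5) 
(.lf (nat_lit 18820) (.g (nat_lit 2458) (.e (nat_lit 1178) (nat_lit 87) (.e (nat_lit 57480) (nat_lit 28) (.e (nat_lit 557103) (nat_lit 14) (.e (nat_lit 180250) (nat_lit 10) (.e (nat_lit 573485) (nat_lit 13) .nil))))) .nil)) 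
(.lf (nat_lit 18852) (.g (nat_lit 2948) (.e (nat_lit 1178) (nat_lit 87) (.e (nat_lit 57480) (nat_lit 28) (.e (nat_lit 557108) (nat_lit 15) (.e (nat_lit 188452) (nat_lit 23) (.e (nat_lit 204816) (nat_lit 17) (.e (nat_lit 6152) (nat_lit 332) (.e (nat_lit 2544) (nat_lit 158) (.e (nat_lit 8439) (nat_lit 138) .nil)))))))) (.g (nat_lit 5) .nil .nil)))) (.nd (nat_lit 5) 
(.lf (nat_lit 18836) (.g (nat_lit 1468) (.e (nat_lit 1178) (nat_lit 87) (.e (nat_lit 57480) (nat_lit 28) (.e (nat_lit 557107) (nat_lit 15) (.e (nat_lit 188439) (nat_lit 20) .nil)))) .nil)) 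
(.lf (nat_lit 18868) (.g (nat_lit 3189) (.e (nat_lit 1178) (nat_lit 87) (.e (nat_lit 57480) (nat_lit 28) (.e (nat_lit 557108) (nat_lit 15) (.e (nat_lit 188452) (nat_lit 23) (.e (nat_lit 204850) (nat_lit 26) .nil))))) .nil)))) (.nd (nat_lit 4) (.nd (nat_lit 5) 
(.lf (nat_lit 18828) (.g (nat_lit 4366) (.e (nat_lit 1178) (nat_lit 87) (.e (nat_lit 57480) (nat_lit 28) (.e (nat_lit 557105) (nat_lit 14) (.e (nat_lit 180252) (nat_lit 10) (.e (nat_lit 573488) (nat_lit 14) (.e (nat_lit 73747) (nat_lit 3) (.e (nat_lit 516117) (nat_lit 1) (.e (nat_lit 164166) (nat_lit 152) .nil)))))))) (.g (nat_lit 7) .nil .nil))) 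
(.lf (nat_lit 18860) (.g (nat_lit 4432) (.e (nat_lit 1178) (nat_lit 87) (.e (nat_lit 57480) (nat_lit 28) (.e (nat_lit 557108) (nat_lit 15) (.e (nat_lit 188452) (nat_lit 23) (.e (nat_lit 204816) (nat_lit 17) (.e (nat_lit 6714) (nat_lit 360) (.e (nat_lit 163850) (nat_lit 0) (.e (nat_lit 4607) (nat_lit 269) .nil)))))))) (.g (nat_lit 8) .nil .nil)))) (.nd (nat_lit 5) 
(.lf (nat_lit 18844) (.g (nat_lit 2166) (.e (nat_lit 1178) (nat_lit 87) (.e (nat_lit 57480) (nat_lit 28) (.e (nat_lit 557107) (nat_lit 15) (.e (nat_lit 188450) (nat_lit 23) (.e (nat_lit 204863) (nat_lit 27) .nil))))) .nil)) 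
(.lf (nat_lit 18876) (.g (nat_lit 2690) (.e (nat_lit 1178) (nat_lit 87) (.e (nat_lit 57480) (nat_lit 28) (.e (nat_lit 557108) (nat_lit 15) (.e (nat_lit 188452) (nat_lit 23) (.e (nat_lit 204872) (nat_lit 30) .nil))))) .nil)))))) (.nd (nat_lit 2) (.nd (nat_lit 3) (.nd (nat_lit 4) (.nd (nat_lit 5) 
(.lf (nat_lit 18818) (.g (nat_lit 4311) (.e (nat_lit 1178) (nat_lit 87) (.e (nat_lit 57480) (nat_lit 28) (.e (nat_lit 557098) (nat_lit 13) (.e (nat_lit 172115) (nat_lit 10) (.e (nat_lit 434244) (nat_lit 28) (.e (nat_lit 573471) (nat_lit 11) (.e (nat_lit 16405) (nat_lit 1) (.e (nat_lit 164424) (nat_lit 272) .nil)))))))) (.g (nat_lit 7) .nil .nil))) 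
(.lf (nat_lit 18850) (.g (nat_lit 1534) (.e (nat_lit 1178) (nat_lit 87) (.e (nat_lit 57480) (nat_lit 28) (.e (nat_lit 557108) (nat_lit 15) (.e (nat_lit 188452) (nat_lit 23) .nil)))) .nil))) (.nd (nat_lit 5) 
(.lf (nat_lit 18834) (.g (nat_lit 2298) (.e (nat_lit 1178) (nat_lit 87) (.e (nat_lit 57480) (nat_lit 28) (.e (nat_lit 557105) (nat_lit 14) (.e (nat_lit 180252) (nat_lit 10) (.e (nat_lit 573489) (nat_lit 14) .nil))))) .nil)) 
(.lf (nat_lit 18866) (.g (nat_lit 3222) (.e (nat_lit 1178) (nat_lit 87) (.e (nat_lit 57480) (nat_lit 28) (.e (nat_lit 557108) (nat_lit 15) (.e (nat_lit 188452) (nat_lit 23) (.e (nat_lit 204848) (nat_lit 25) (.e (nat_lit 327692) (nat_lit 1) (.e (nat_lit 8439) (nat_lit 138) .nil))))))) (.g (nat_lit 4) .nil .nil))))) (.nd (nat_lit 4) (.nd (nat_lit 5) 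
(.lf (nat_lit 18826) (.g (nat_lit 3136) (.e (nat_lit 1178) (nat_lit 87) (.e (nat_lit 57480) (nat_lit 28) (.e (nat_lit 557105) (nat_lit 14) (.e (nat_lit 180251) (nat_lit 10) (.e (nat_lit 573487) (nat_lit 14) (.e (nat_lit 73746) (nat_lit 3) (.e (nat_lit 516117) (nat_lit 1) (.e (nat_lit 164170) (nat_lit 152) .nil)))))))) (.g (nat_lit 4) .nil .nil))) 
(.lf (nat_lit 18858) (.g (nat_lit 4412) (.e (nat_lit 1178) (nat_lit 87) (.e (nat_lit 57480) (nat_lit 28) (.e (nat_lit 557108) (nat_lit 15) (.e (nat_lit 188452) (nat_lit 23) (.e (nat_lit 204816) (nat_lit 17) (.e (nat_lit 6714) (nat_lit 360) (.e (nat_lit 163850) (nat_lit 0) (.e (nat_lit 4605) (nat_lit 269) .nil)))))))) (.g (nat_lit 8) .nil .nil)))) (.nd (nat_lit 5) 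
(.lf (nat_lit 18842) (.g (nat_lit 2237) (.e (nat_lit 1178) (nat_lit 87) (.e (nat_lit 57480) (nat_lit 28) (.e (nat_lit 557107) (nat_lit 15) (.e (nat_lit 188450) (nat_lit 23) (.e (nat_lit 204862) (nat_lit 27) .nil))))) .nil)) 
(.lf (nat_lit 18874) (.g (nat_lit 3141) (.e (nat_lit 1178) (nat_lit 87) (.e (nat_lit 57480) (nat_lit 28) (.e (nat_lit 557108) (nat_lit 15) (.e (nat_lit 188452) (nat_lit 23) (.e (nat_lit 204852) (nat_lit 26) (.e (nat_lit 336258) (nat_lit 15) (.e (nat_lit 2450) (nat_lit 157) (.e (nat_lit 7413) (nat_lit 396) .nil)))))))) (.g (nat_lit 4) .nil .nil)))))) 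
(.nd (nat_lit 3) (.nd (nat_lit 4) (.nd (nat_lit 5) 
(.lf (nat_lit 18822) (.g (nat_lit 2263) (.e (nat_lit 1178) (nat_lit 87) (.e (nat_lit 57480) (nat_lit 28) (.e (nat_lit 557103) (nat_lit 14) (.e (nat_lit 180250) (nat_lit 10) (.e (nat_lit 573487) (nat_lit 14) .nil))))) .nil)) 
(.lf (nat_lit 18854) (.g (nat_lit 2340) (.e (nat_lit 1178) (nat_lit 87) (.e (nat_lit 57480) (nat_lit 28) (.e (nat_lit 557108) (nat_lit 15) (.e (nat_lit 188452) (nat_lit 23) (.e (nat_lit 204816) (nat_lit 17) (.e (nat_lit 6436) (nat_lit 343) (.e (nat_lit 1183) (nat_lit 87) (.e (nat_lit 57872) (nat_lit 264) .nil)))))))) (.g (nat_lit 4) .nil .nil)))) (.nd (nat_lit 5) 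
(.lf (nat_lit 18838) (.g (nat_lit 1806) (.e (nat_lit 1178) (nat_lit 87) (.e (nat_lit 57480) (nat_lit 28) (.e (nat_lit 557107) (nat_lit 15) (.e (nat_lit 188439) (nat_lit 20) (.e (nat_lit 3271) (nat_lit 199) (.e (nat_lit 548913) (nat_lit 18) (.e (nat_lit 172061) (nat_lit 1) (.e (nat_lit 164424) (nat_lit 272) .nil)))))))) (.g (nat_lit 5) .nil .nil))) 
(.lf (nat_lit 18870) (.g (nat_lit 3015) (.e (nat_lit 1178) (nat_lit 87) (.e (nat_lit 57480) (nat_lit 28) (.e (nat_lit 557108) (nat_lit 15) (.e (nat_lit 188452) (nat_lit 23) (.e (nat_lit 204852) (nat_lit 26) .nil))))) .nil)))) (.nd (nat_lit 4) (.nd (nat_lit 5) 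
(.lf (nat_lit 18830) (.g (nat_lit 3998) (.e (nat_lit 1178) (nat_lit 87) (.e (nat_lit 57480) (nat_lit 28) (.e (nat_lit 557105) (nat_lit 14) (.e (nat_lit 180252) (nat_lit 10) (.e (nat_lit 573488) (nat_lit 14) (.e (nat_lit 73747) (nat_lit 3) (.e (nat_lit 516119) (nat_lit 1) (.e (nat_lit 164147) (nat_lit 152) .nil)))))))) (.g (nat_lit 0) .nil .nil))) 
(.lf (nat_lit 18862) (.g (nat_lit 3619) (.e (nat_lit 1178) (nat_lit 87) (.e (nat_lit 57480) (nat_lit 28) (.e (nat_lit 557108) (nat_lit 15) (.e (nat_lit 188452) (nat_lit 23) (.e (nat_lit 204817) (nat_lit 17) (.e (nat_lit 7936) (nat_lit 343) (.e (nat_lit 1183) (nat_lit 87) (.e (nat_lit 57871) (nat_lit 264) .nil)))))))) (.g (nat_lit 4) .nil .nil)))) (.nd (nat_lit 5) 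
(.lf (nat_lit 18846) (.g (nat_lit 1579) (.e (nat_lit 1178) (nat_lit 87) (.e (nat_lit 57480) (nat_lit 28) (.e (nat_lit 557108) (nat_lit 15) (.e (nat_lit 196352) (nat_lit 18) .nil)))) .nil)) 
(.lf (nat_lit 18878) (.g (nat_lit 3063) (.e (nat_lit 1178) (nat_lit 87) (.e (nat_lit 57480) (nat_lit 28) (.e (nat_lit 557108) (nat_lit 15) (.e (nat_lit 188452) (nat_lit 23) (.e (nat_lit 204873) (nat_lit 30) .nil))))) .nil))))))) (.nd (nat_lit 1) (.nd (nat_lit 2) (.nd (nat_lit 3) (.nd (nat_lit 4) (.nd (nat_lit 5) 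
(.lf (nat_lit 18817) (.g (nat_lit 2302) (.e (nat_lit 1178) (nat_lit 87) (.e (nat_lit 57480) (nat_lit 28) (.e (nat_lit 557098) (nat_lit 13) (.e (nat_lit 172115) (nat_lit 10) (.e (nat_lit 434231) (nat_lit 23) (.e (nat_lit 532554) (nat_lit 13) (.e (nat_lit 368662) (nat_lit 18) (.e (nat_lit 5907) (nat_lit 320) .nil)))))))) (.g (nat_lit 4) .nil .nil))) 
(.lf (nat_lit 18849) (.g (nat_lit 2088) (.e (nat_lit 1178) (nat_lit 87) (.e (nat_lit 57480) (nat_lit 28) (.e (nat_lit 557108) (nat_lit 15) (.e (nat_lit 188435) (nat_lit 20) .nil)))) .nil))) (.nd (nat_lit 5) 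
(.lf (nat_lit 18833) (.g (nat_lit 3736) (.e (nat_lit 1178) (nat_lit 87) (.e (nat_lit 57480) (nat_lit 28) (.e (nat_lit 557105) (nat_lit 14) (.e (nat_lit 180252) (nat_lit 10) (.e (nat_lit 573488) (nat_lit 14) (.e (nat_lit 73747) (nat_lit 3) (.e (nat_lit 516119) (nat_lit 1) (.e (nat_lit 164167) (nat_lit 152) .nil)))))))) (.g (nat_lit 8) .nil .nil))) 
(.lf (nat_lit 18865) (.g (nat_lit 3191) (.e (nat_lit 1178) (nat_lit 87) (.e (nat_lit 57480) (nat_lit 28) (.e (nat_lit 557108) (nat_lit 15) (.e (nat_lit 188452) (nat_lit 23) (.e (nat_lit 204848) (nat_lit 25) .nil))))) .nil)))) (.nd (nat_lit 4) (.nd (nat_lit 5) 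
(.lf (nat_lit 18825) (.g (nat_lit 2380) (.e (nat_lit 1178) (nat_lit 87) (.e (nat_lit 57480) (nat_lit 28) (.e (nat_lit 557105) (nat_lit 14) (.e (nat_lit 180251) (nat_lit 10) (.e (nat_lit 573485) (nat_lit 13) (.e (nat_lit 65569) (nat_lit 3) (.e (nat_lit 98334) (nat_lit 18) (.e (nat_lit 164166) (nat_lit 152) .nil)))))))) (.g (nat_lit 4) .nil .nil))) 
(.lf (nat_lit 18857) (.g (nat_lit 2270) (.e (nat_lit 1178) (nat_lit 87) (.e (nat_lit 57480) (nat_lit 28) (.e (nat_lit 557108) (nat_lit 15) (.e (nat_lit 188452) (nat_lit 23) (.e (nat_lit 204816) (nat_lit 17) (.e (nat_lit 6712) (nat_lit 360) (.e (nat_lit 163842) (nat_lit 0) (.e (nat_lit 4616) (nat_lit 269) .nil)))))))) (.g (nat_lit 4) .nil .nil)))) (.nd (nat_lit 5) 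
(.lf (nat_lit 18841) (.g (nat_lit 1582) (.e (nat_lit 1178) (nat_lit 87) (.e (nat_lit 57480) (nat_lit 28) (.e (nat_lit 557107) (nat_lit 15) (.e (nat_lit 188450) (nat_lit 23) .nil)))) .nil)) 
(.lf (nat_lit 18873) (.g (nat_lit 3126) (.e (nat_lit 1178) (nat_lit 87) (.e (nat_lit 57480) (nat_lit 28) (.e (nat_lit 557108) (nat_lit 15) (.e (nat_lit 188452) (nat_lit 23) (.e (nat_lit 204852) (nat_lit 26) (.e (nat_lit 336257) (nat_lit 15) (.e (nat_lit 2450) (nat_lit 157) (.e (nat_lit 7450) (nat_lit 396) .nil)))))))) (.g (nat_lit 4) .nil .nil)))))) 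
(.nd (nat_lit 3) (.nd (nat_lit 4) (.nd (nat_lit 5) 
(.lf (nat_lit 18821) (.g (nat_lit 2551) (.e (nat_lit 1178) (nat_lit 87) (.e (nat_lit 57480) (nat_lit 28) (.e (nat_lit 557103) (nat_lit 14) (.e (nat_lit 180250) (nat_lit 10) (.e (nat_lit 573485) (nat_lit 13) (.e (nat_lit 65569) (nat_lit 3) (.e (nat_lit 98334) (nat_lit 18) (.e (nat_lit 164166) (nat_lit 152) .nil)))))))) (.g (nat_lit 4) .nil .nil))) 
(.lf (nat_lit 18853) (.g (nat_lit 2925) (.e (nat_lit 1178) (nat_lit 87) (.e (nat_lit 57480) (nat_lit 28) (.e (nat_lit 557108) (nat_lit 15) (.e (nat_lit 188452) (nat_lit 23) (.e (nat_lit 204816) (nat_lit 17) (.e (nat_lit 6154) (nat_lit 332) (.e (nat_lit 2544) (nat_lit 158) (.e (nat_lit 8439) (nat_lit 138) .nil)))))))) (.g (nat_lit 5) .nil .nil)))) (.nd (nat_lit 5) 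
(.lf (nat_lit 18837) (.g (nat_lit 1741) (.e (nat_lit 1178) (nat_lit 87) (.e (nat_lit 57480) (nat_lit 28) (.e (nat_lit 557107) (nat_lit 15) (.e (nat_lit 188439) (nat_lit 20) (.e (nat_lit 3270) (nat_lit 199) (.e (nat_lit 548913) (nat_lit 18) (.e (nat_lit 172061) (nat_lit 1) (.e (nat_lit 164424) (nat_lit 272) .nil)))))))) (.g (nat_lit 4) .nil .nil))) 
(.lf (nat_lit 18869) (.g (nat_lit 2572) (.e (nat_lit 1178) (nat_lit 87) (.e (nat_lit 57480) (nat_lit 28) (.e (nat_lit 557108) (nat_lit 15) (.e (nat_lit 188452) (nat_lit 23) (.e (nat_lit 204851) (nat_lit 26) .nil))))) .nil)))) (.nd (nat_lit 4) (.nd (nat_lit 5) 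
(.lf (nat_lit 18829) (.g (nat_lit 4491) (.e (nat_lit 1178) (nat_lit 87) (.e (nat_lit 57480) (nat_lit 28) (.e (nat_lit 557105) (nat_lit 14) (.e (nat_lit 180252) (nat_lit 10) (.e (nat_lit 573488) (nat_lit 14) (.e (nat_lit 73747) (nat_lit 3) (.e (nat_lit 516117) (nat_lit 1) (.e (nat_lit 164170) (nat_lit 152) .nil)))))))) (.g (nat_lit 0) .nil .nil))) 
(.lf (nat_lit 18861) (.g (nat_lit 3608) (.e (nat_lit 1178) (nat_lit 87) (.e (nat_lit 57480) (nat_lit 28) (.e (nat_lit 557108) (nat_lit 15) (.e (nat_lit 188452) (nat_lit 23) (.e (nat_lit 204817) (nat_lit 17) .nil))))) .nil))) (.nd (nat_lit 5) 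
(.lf (nat_lit 18845) (.g (nat_lit 2706) (.e (nat_lit 1178) (nat_lit 87) (.e (nat_lit 57480) (nat_lit 28) (.e (nat_lit 557107) (nat_lit 15) (.e (nat_lit 188450) (nat_lit 23) (.e (nat_lit 204863) (nat_lit 27) (.e (nat_lit 344096) (nat_lit 18) (.e (nat_lit 5896) (nat_lit 320) .nil))))))) (.g (nat_lit 5) .nil .nil))) 
(.lf (nat_lit 18877) (.g (nat_lit 2963) (.e (nat_lit 1178) (nat_lit 87) (.e (nat_lit 57480) (nat_lit 28) (.e (nat_lit 557108) (nat_lit 15) (.e (nat_lit 188452) (nat_lit 23) (.e (nat_lit 204872) (nat_lit 30) (.e (nat_lit 368662) (nat_lit 18) (.e (nat_lit 5902) (nat_lit 320) .nil))))))) (.g (nat_lit 5) .nil .nil))))))) (.nd (nat_lit 2) (.nd (nat_lit 3) (.nd (nat_lit 4) (.nd (nat_lit 5) 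
(.lf (nat_lit 18819) (.g (nat_lit 1556) (.e (nat_lit 1178) (nat_lit 87) (.e (nat_lit 57480) (nat_lit 28) (.e (nat_lit 557103) (nat_lit 14) (.e (nat_lit 180250) (nat_lit 10) .nil)))) .nil)) 
(.lf (nat_lit 18851) (.g (nat_lit 2252) (.e (nat_lit 1178) (nat_lit 87) (.e (nat_lit 57480) (nat_lit 28) (.e (nat_lit 557108) (nat_lit 15) (.e (nat_lit 188452) (nat_lit 23) (.e (nat_lit 204816) (nat_lit 17) .nil))))) .nil))) (.nd (nat_lit 5) 
(.lf (nat_lit 18835) (.g (nat_lit 1797) (.e (nat_lit 1178) (nat_lit 87) (.e (nat_lit 57480) (nat_lit 28) (.e (nat_lit 557107) (nat_lit 15) (.e (nat_lit 196352) (nat_lit 18) .nil)))) .nil)) 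
(.lf (nat_lit 18867) (.g (nat_lit 4257) (.e (nat_lit 1178) (nat_lit 87) (.e (nat_lit 57480) (nat_lit 28) (.e (nat_lit 557108) (nat_lit 15) (.e (nat_lit 188452) (nat_lit 23) (.e (nat_lit 204849) (nat_lit 25) (.e (nat_lit 327692) (nat_lit 1) (.e (nat_lit 8439) (nat_lit 138) .nil))))))) (.g (nat_lit 0) .nil .nil))))) (.nd (nat_lit 4) (.nd (nat_lit 5) 
(.lf (nat_lit 18827) (.g (nat_lit 2492) (.e (nat_lit 1178) (nat_lit 87) (.e (nat_lit 57480) (nat_lit 28) (.e (nat_lit 557105) (nat_lit 14) (.e (nat_lit 180252) (nat_lit 10) (.e (nat_lit 573480) (nat_lit 13) .nil))))) .nil)) 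
(.lf (nat_lit 18859) (.g (nat_lit 4506) (.e (nat_lit 1178) (nat_lit 87) (.e (nat_lit 57480) (nat_lit 28) (.e (nat_lit 557108) (nat_lit 15) (.e (nat_lit 188452) (nat_lit 23) (.e (nat_lit 204816) (nat_lit 17) (.e (nat_lit 6714) (nat_lit 360) (.e (nat_lit 163850) (nat_lit 0) (.e (nat_lit 4606) (nat_lit 269) .nil)))))))) (.g (nat_lit 8) .nil .nil)))) (.nd (nat_lit 5) 
(.lf (nat_lit 18843) (.g (nat_lit 2269) (.e (nat_lit 1178) (nat_lit 87) (.e (nat_lit 57480) (nat_lit 28) (.e (nat_lit 557107) (nat_lit 15) (.e (nat_lit 188450) (nat_lit 23) (.e (nat_lit 204862) (nat_lit 27) (.e (nat_lit 344097) (nat_lit 18) (.e (nat_lit 5905) (nat_lit 320) .nil))))))) (.g (nat_lit 4) .nil .nil))) 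
(.lf (nat_lit 18875) (.g (nat_lit 5062) (.e (nat_lit 1178) (nat_lit 87) (.e (nat_lit 57480) (nat_lit 28) (.e (nat_lit 557108) (nat_lit 15) (.e (nat_lit 188452) (nat_lit 23) (.e (nat_lit 204859) (nat_lit 26) .nil))))) .nil))))) (.nd (nat_lit 3) (.nd (nat_lit 4) (.nd (nat_lit 5) 
(.lf (nat_lit 18823) (.g (nat_lit 2457) (.e (nat_lit 1178) (nat_lit 87) (.e (nat_lit 57480) (nat_lit 28) (.e (nat_lit 557103) (nat_lit 14) (.e (nat_lit 180250) (nat_lit 10) (.e (nat_lit 573487) (nat_lit 14) (.e (nat_lit 73747) (nat_lit 3) (.e (nat_lit 516117) (nat_lit 1) (.e (nat_lit 164166) (nat_lit 152) .nil)))))))) (.g (nat_lit 4) .nil .nil))) 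
(.lf (nat_lit 18855) (.g (nat_lit 2941) (.e (nat_lit 1178) (nat_lit 87) (.e (nat_lit 57480) (nat_lit 28) (.e (nat_lit 557108) (nat_lit 15) (.e (nat_lit 188452) (nat_lit 23) (.e (nat_lit 204816) (nat_lit 17) (.e (nat_lit 6514) (nat_lit 346) (.e (nat_lit 57354) (nat_lit 0) (.e (nat_lit 5905) (nat_lit 320) .nil)))))))) (.g (nat_lit 5) .nil .nil)))) (.nd (nat_lit 5) 
(.lf (nat_lit 18839) (.g (nat_lit 1935) (.e (nat_lit 1178) (nat_lit 87) (.e (nat_lit 57480) (nat_lit 28) (.e (nat_lit 557107) (nat_lit 15) (.e (nat_lit 188440) (nat_lit 20) .nil)))) .nil)) 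
(.lf (nat_lit 18871) (.g (nat_lit 3018) (.e (nat_lit 1178) (nat_lit 87) (.e (nat_lit 57480) (nat_lit 28) (.e (nat_lit 557108) (nat_lit 15) (.e (nat_lit 188452) (nat_lit 23) (.e (nat_lit 204852) (nat_lit 26) (.e (nat_lit 343808) (nat_lit 1) (.e (nat_lit 57872) (nat_lit 264) .nil))))))) (.g (nat_lit 4) .nil .nil))))) (.nd (nat_lit 4) (.nd (nat_lit 5) 
(.lf (nat_lit 18831) (.g (nat_lit 4026) (.e (nat_lit 1178) (nat_lit 87) (.e (nat_lit 57480) (nat_lit 28) (.e (nat_lit 557105) (nat_lit 14) (.e (nat_lit 180252) (nat_lit 10) (.e (nat_lit 573488) (nat_lit 14) (.e (nat_lit 73747) (nat_lit 3) (.e (nat_lit 516119) (nat_lit 1) (.e (nat_lit 164163) (nat_lit 152) .nil)))))))) (.g (nat_lit 0) .nil .nil))) 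
(.lf (nat_lit 18863) (.g (nat_lit 2619) (.e (nat_lit 1178) (nat_lit 87) (.e (nat_lit 57480) (nat_lit 28) (.e (nat_lit 557108) (nat_lit 15) (.e (nat_lit 188452) (nat_lit 23) (.e (nat_lit 204830) (nat_lit 18) .nil))))) .nil))) (.nd (nat_lit 5) 
(.lf (nat_lit 18847) (.g (nat_lit 4093) (.e (nat_lit 1178) (nat_lit 87) (.e (nat_lit 57480) (nat_lit 28) (.e (nat_lit 557108) (nat_lit 15) (.e (nat_lit 188434) (nat_lit 20) (.e (nat_lit 3271) (nat_lit 199) .nil))))) .nil)) 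
(.lf (nat_lit 18879) (.g (nat_lit 3067) (.e (nat_lit 1178) (nat_lit 87) (.e (nat_lit 57480) (nat_lit 28) (.e (nat_lit 557108) (nat_lit 15) (.e (nat_lit 188452) (nat_lit 23) (.e (nat_lit 204873) (nat_lit 30) (.e (nat_lit 368659) (nat_lit 18) (.e (nat_lit 5908) (nat_lit 320) .nil))))))) (.g (nat_lit 4) .nil .nil)))))))))

noncomputable def tv261 : DT := (.nd (nat_lit 0) (.nd (nat_lit 1) (.nd (nat_lit 2) (.nd (nat_lit 3) (.nd (nat_lit 4) (.nd (nat_lit 5) 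
(.lf (nat_lit 18880) (.g (nat_lit 3298) (.e (nat_lit 1178) (nat_lit 87) (.e (nat_lit 57480) (nat_lit 28) (.e (nat_lit 557108) (nat_lit 15) (.e (nat_lit 188452) (nat_lit 23) (.e (nat_lit 204873) (nat_lit 30) (.e (nat_lit 368662) (nat_lit 18) (.e (nat_lit 5902) (nat_lit 320) .nil))))))) (.g (nat_lit 5) .nil .nil))) 
(.lf (nat_lit 18912) (.g (nat_lit 2040) (.e (nat_lit 1178) (nat_lit 87) (.e (nat_lit 57480) (nat_lit 28) (.e (nat_lit 557109) (nat_lit 15) (.e (nat_lit 196352) (nat_lit 18) .nil)))) .nil))) (.nd (nat_lit 5) 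
(.lf (nat_lit 18896) (.g (nat_lit 1946) (.e (nat_lit 1178) (nat_lit 87) (.e (nat_lit 57480) (nat_lit 28) (.e (nat_lit 557108) (nat_lit 15) (.e (nat_lit 188452) (nat_lit 23) (.e (nat_lit 204885) (nat_lit 33) (.e (nat_lit 401414) (nat_lit 0) (.e (nat_lit 2477) (nat_lit 157) (.e (nat_lit 4606) (nat_lit 269) .nil)))))))) (.g (nat_lit 4) .nil .nil))) 
(.lf (nat_lit 18928) (.g (nat_lit 5197) (.e (nat_lit 1178) (nat_lit 87) (.e (nat_lit 57480) (nat_lit 28) (.e (nat_lit 557109) (nat_lit 15) (.e (nat_lit 188452) (nat_lit 23) (.e (nat_lit 204846) (nat_lit 24) (.e (nat_lit 319516) (nat_lit 11) (.e (nat_lit 8484) (nat_lit 168) .nil))))))) (.g (nat_lit 7) .nil .nil))))) (.nd (nat_lit 4) (.nd (nat_lit 5) 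
(.lf (nat_lit 18888) (.g (nat_lit 2240) (.e (nat_lit 1178) (nat_lit 87) (.e (nat_lit 57480) (nat_lit 28) (.e (nat_lit 557108) (nat_lit 15) (.e (nat_lit 188452) (nat_lit 23) (.e (nat_lit 204884) (nat_lit 33) .nil))))) .nil)) 
(.lf (nat_lit 18920) (.g (nat_lit 3531) (.e (nat_lit 1178) (nat_lit 87) (.e (nat_lit 57480) (nat_lit 28) (.e (nat_lit 557109) (nat_lit 15) (.e (nat_lit 188447) (nat_lit 22) (.e (nat_lit 196668) (nat_lit 14) .nil))))) .nil))) (.nd (nat_lit 5) 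
(.lf (nat_lit 18904) (.g (nat_lit 3205) (.e (nat_lit 1178) (nat_lit 87) (.e (nat_lit 57480) (nat_lit 28) (.e (nat_lit 557108) (nat_lit 15) (.e (nat_lit 188452) (nat_lit 23) (.e (nat_lit 204885) (nat_lit 33) (.e (nat_lit 401420) (nat_lit 1) (.e (nat_lit 164423) (nat_lit 272) .nil))))))) (.g (nat_lit 7) .nil .nil))) 
(.lf (nat_lit 18936) (.g (nat_lit 4199) (.e (nat_lit 1178) (nat_lit 87) (.e (nat_lit 57480) (nat_lit 28) (.e (nat_lit 557109) (nat_lit 15) (.e (nat_lit 188452) (nat_lit 23) (.e (nat_lit 204864) (nat_lit 27) (.e (nat_lit 344093) (nat_lit 18) (.e (nat_lit 5859) (nat_lit 320) .nil))))))) (.g (nat_lit 6) .nil .nil)))))) (.nd (nat_lit 3) (.nd (nat_lit 4) (.nd (nat_lit 5) 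
(.lf (nat_lit 18884) (.g (nat_lit 2508) (.e (nat_lit 1178) (nat_lit 87) (.e (nat_lit 57480) (nat_lit 28) (.e (nat_lit 557108) (nat_lit 15) (.e (nat_lit 188452) (nat_lit 23) (.e (nat_lit 204880) (nat_lit 32) .nil))))) .nil)) 
(.lf (nat_lit 18916) (.g (nat_lit 2552) (.e (nat_lit 1178) (nat_lit 87) (.e (nat_lit 57480) (nat_lit 28) (.e (nat_lit 557109) (nat_lit 15) (.e (nat_lit 188435) (nat_lit 20) .nil)))) .nil))) (.nd (nat_lit 5) 
(.lf (nat_lit 18900) (.g (nat_lit 2911) (.e (nat_lit 1178) (nat_lit 87) (.e (nat_lit 57480) (nat_lit 28) (.e (nat_lit 557108) (nat_lit 15) (.e (nat_lit 188452) (nat_lit 23) (.e (nat_lit 204885) (nat_lit 33) (.e (nat_lit 401418) (nat_lit 0) (.e (nat_lit 2471) (nat_lit 157) (.e (nat_lit 4605) (nat_lit 269) .nil)))))))) (.g (nat_lit 6) .nil .nil))) 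
(.lf (nat_lit 18932) (.g (nat_lit 2446) (.e (nat_lit 1178) (nat_lit 87) (.e (nat_lit 57480) (nat_lit 28) (.e (nat_lit 557109) (nat_lit 15) (.e (nat_lit 188452) (nat_lit 23) (.e (nat_lit 204863) (nat_lit 27) .nil))))) .nil)))) (.nd (nat_lit 4) (.nd (nat_lit 5) 
(.lf (nat_lit 18892) (.g (nat_lit 3841) (.e (nat_lit 1178) (nat_lit 87) (.e (nat_lit 57480) (nat_lit 28) (.e (nat_lit 557108) (nat_lit 15) (.e (nat_lit 188452) (nat_lit 23) (.e (nat_lit 204885) (nat_lit 33) (.e (nat_lit 401414) (nat_lit 0) (.e (nat_lit 2425) (nat_lit 157) (.e (nat_lit 4560) (nat_lit 269) .nil)))))))) (.g (nat_lit 7) .nil .nil))) 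
(.lf (nat_lit 18924) (.g (nat_lit 2162) (.e (nat_lit 1178) (nat_lit 87) (.e (nat_lit 57480) (nat_lit 28) (.e (nat_lit 557109) (nat_lit 15) (.e (nat_lit 188450) (nat_lit 23) .nil)))) .nil))) (.nd (nat_lit 5) 
(.lf (nat_lit 18908) (.g (nat_lit 2780) (.e (nat_lit 1178) (nat_lit 87) (.e (nat_lit 57480) (nat_lit 28) (.e (nat_lit 557108) (nat_lit 15) (.e (nat_lit 188452) (nat_lit 23) (.e (nat_lit 204885) (nat_lit 33) (.e (nat_lit 401422) (nat_lit 1) (.e (nat_lit 164421) (nat_lit 272) .nil))))))) (.g (nat_lit 5) .nil .nil))) 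
(.lf (nat_lit 18940) (.g (nat_lit 1997) (.e (nat_lit 1178) (nat_lit 87) (.e (nat_lit 57480) (nat_lit 28) (.e (nat_lit 557109) (nat_lit 15) (.e (nat_lit 188461) (nat_lit 26) .nil)))) .nil)))))) (.nd (nat_lit 2) (.nd (nat_lit 3) (.nd (nat_lit 4) (.nd (nat_lit 5) 
(.lf (nat_lit 18882) (.g (nat_lit 3029) (.e (nat_lit 1178) (nat_lit 87) (.e (nat_lit 57480) (nat_lit 28) (.e (nat_lit 557108) (nat_lit 15) (.e (nat_lit 188452) (nat_lit 23) (.e (nat_lit 204874) (nat_lit 30) .nil))))) .nil)) 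
(.lf (nat_lit 18914) (.g (nat_lit 3240) (.e (nat_lit 1178) (nat_lit 87) (.e (nat_lit 57480) (nat_lit 28) (.e (nat_lit 557109) (nat_lit 15) (.e (nat_lit 188434) (nat_lit 20) (.e (nat_lit 3271) (nat_lit 199) .nil))))) .nil))) (.nd (nat_lit 5) 
(.lf (nat_lit 18898) (.g (nat_lit 2744) (.e (nat_lit 1178) (nat_lit 87) (.e (nat_lit 57480) (nat_lit 28) (.e (nat_lit 557108) (nat_lit 15) (.e (nat_lit 188452) (nat_lit 23) (.e (nat_lit 204885) (nat_lit 33) (.e (nat_lit 401418) (nat_lit 0) (.e (nat_lit 2452) (nat_lit 157) (.e (nat_lit 4605) (nat_lit 269) .nil)))))))) (.g (nat_lit 5) .nil .nil))) 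
(.lf (nat_lit 18930) (.g (nat_lit 3713) (.e (nat_lit 1178) (nat_lit 87) (.e (nat_lit 57480) (nat_lit 28) (.e (nat_lit 557109) (nat_lit 15) (.e (nat_lit 188452) (nat_lit 23) (.e (nat_lit 204862) (nat_lit 27) (.e (nat_lit 344090) (nat_lit 18) (.e (nat_lit 5896) (nat_lit 320) .nil))))))) (.g (nat_lit 5) .nil .nil))))) (.nd (nat_lit 4) (.nd (nat_lit 5) 
(.lf (nat_lit 18890) (.g (nat_lit 2544) (.e (nat_lit 1178) (nat_lit 87) (.e (nat_lit 57480) (nat_lit 28) (.e (nat_lit 557108) (nat_lit 15) (.e (nat_lit 188452) (nat_lit 23) (.e (nat_lit 204885) (nat_lit 33) (.e (nat_lit 401414) (nat_lit 0) (.e (nat_lit 2423) (nat_lit 157) (.e (nat_lit 4616) (nat_lit 269) .nil)))))))) (.g (nat_lit 5) .nil .nil))) 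
(.lf (nat_lit 18922) (.g (nat_lit 3581) (.e (nat_lit 1178) (nat_lit 87) (.e (nat_lit 57480) (nat_lit 28) (.e (nat_lit 557109) (nat_lit 15) (.e (nat_lit 188449) (nat_lit 22) (.e (nat_lit 196670) (nat_lit 14) .nil))))) .nil))) (.nd (nat_lit 5) 
(.lf (nat_lit 18906) (.g (nat_lit 3297) (.e (nat_lit 1178) (nat_lit 87) (.e (nat_lit 57480) (nat_lit 28) (.e (nat_lit 557108) (nat_lit 15) (.e (nat_lit 188452) (nat_lit 23) (.e (nat_lit 204885) (nat_lit 33) (.e (nat_lit 401421) (nat_lit 1) (.e (nat_lit 164422) (nat_lit 272) .nil))))))) (.g (nat_lit 7) .nil .nil))) 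
(.lf (nat_lit 18938) (.g (nat_lit 4086) (.e (nat_lit 1178) (nat_lit 87) (.e (nat_lit 57480) (nat_lit 28) (.e (nat_lit 557109) (nat_lit 15) (.e (nat_lit 188452) (nat_lit 23) (.e (nat_lit 204864) (nat_lit 27) (.e (nat_lit 344093) (nat_lit 18) (.e (nat_lit 5904) (nat_lit 320) .nil))))))) (.g (nat_lit 5) .nil .nil)))))) (.nd (nat_lit 3) (.nd (nat_lit 4) (.nd (nat_lit 5) 
(.lf (nat_lit 18886) (.g (nat_lit 2557) (.e (nat_lit 1178) (nat_lit 87) (.e (nat_lit 57480) (nat_lit 28) (.e (nat_lit 557108) (nat_lit 15) (.e (nat_lit 188452) (nat_lit 23) (.e (nat_lit 204880) (nat_lit 32) (.e (nat_lit 385049) (nat_lit 21) (.e (nat_lit 7442) (nat_lit 396) .nil))))))) (.g (nat_lit 4) .nil .nil))) 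
(.lf (nat_lit 18918) (.g (nat_lit 3340) (.e (nat_lit 1178) (nat_lit 87) (.e (nat_lit 57480) (nat_lit 28) (.e (nat_lit 557109) (nat_lit 15) (.e (nat_lit 188441) (nat_lit 20) (.e (nat_lit 3272) (nat_lit 199) .nil))))) .nil))) (.nd (nat_lit 5) 
(.lf (nat_lit 18902) (.g (nat_lit 2623) (.e (nat_lit 1178) (nat_lit 87) (.e (nat_lit 57480) (nat_lit 28) (.e (nat_lit 557108) (nat_lit 15) (.e (nat_lit 188452) (nat_lit 23) (.e (nat_lit 204885) (nat_lit 33) (.e (nat_lit 401418) (nat_lit 0) (.e (nat_lit 2475) (nat_lit 157) (.e (nat_lit 4606) (nat_lit 269) .nil)))))))) (.g (nat_lit 5) .nil .nil))) 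
(.lf (nat_lit 18934) (.g (nat_lit 4553) (.e (nat_lit 1178) (nat_lit 87) (.e (nat_lit 57480) (nat_lit 28) (.e (nat_lit 557109) (nat_lit 15) (.e (nat_lit 188452) (nat_lit 23) (.e (nat_lit 204863) (nat_lit 27) (.e (nat_lit 344096) (nat_lit 18) (.e (nat_lit 5898) (nat_lit 320) .nil))))))) (.g (nat_lit 7) .nil .nil))))) (.nd (nat_lit 4) (.nd (nat_lit 5) 
(.lf (nat_lit 18894) (.g (nat_lit 1919) (.e (nat_lit 1178) (nat_lit 87) (.e (nat_lit 57480) (nat_lit 28) (.e (nat_lit 557108) (nat_lit 15) (.e (nat_lit 188452) (nat_lit 23) (.e (nat_lit 204885) (nat_lit 33) (.e (nat_lit 401414) (nat_lit 0) (.e (nat_lit 2426) (nat_lit 157) (.e (nat_lit 4598) (nat_lit 269) .nil)))))))) (.g (nat_lit 4) .nil .nil))) 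
(.lf (nat_lit 18926) (.g (nat_lit 3737) (.e (nat_lit 1178) (nat_lit 87) (.e (nat_lit 57480) (nat_lit 28) (.e (nat_lit 557109) (nat_lit 15) (.e (nat_lit 188450) (nat_lit 23) (.e (nat_lit 204863) (nat_lit 27) .nil))))) .nil))) (.nd (nat_lit 5) 
(.lf (nat_lit 18910) (.g (nat_lit 3237) (.e (nat_lit 1178) (nat_lit 87) (.e (nat_lit 57480) (nat_lit 28) (.e (nat_lit 557108) (nat_lit 15) (.e (nat_lit 188452) (nat_lit 23) (.e (nat_lit 204885) (nat_lit 33) (.e (nat_lit 401422) (nat_lit 1) (.e (nat_lit 164423) (nat_lit 272) .nil))))))) (.g (nat_lit 0) .nil .nil))) 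
(.lf (nat_lit 18942) (.g (nat_lit 3826) (.e (nat_lit 1178) (nat_lit 87) (.e (nat_lit 57683) (nat_lit 155) (.e (nat_lit 122906) (nat_lit 12) (.e (nat_lit 336060) (nat_lit 7) (.e (nat_lit 319534) (nat_lit 16) (.e (nat_lit 286756) (nat_lit 10) (.e (nat_lit 344160) (nat_lit 37) (.e (nat_lit 647195) (nat_lit 9) .nil)))))))) (.g (nat_lit 8) .nil .nil)))))))) 
(.nd (nat_lit 1) (.nd (nat_lit 2) (.nd (nat_lit 3) (.nd (nat_lit 4) (.nd (nat_lit 5) 
(.lf (nat_lit 18881) (.g (nat_lit 3401) (.e (nat_lit 1178) (nat_lit 87) (.e (nat_lit 57480) (nat_lit 28) (.e (nat_lit 557108) (nat_lit 15) (.e (nat_lit 188452) (nat_lit 23) (.e (nat_lit 204873) (nat_lit 30) (.e (nat_lit 368662) (nat_lit 18) (.e (nat_lit 5914) (nat_lit 320) .nil))))))) (.g (nat_lit 5) .nil .nil))) 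
(.lf (nat_lit 18913) (.g (nat_lit 2334) (.e (nat_lit 1178) (nat_lit 87) (.e (nat_lit 57480) (nat_lit 28) (.e (nat_lit 557109) (nat_lit 15) (.e (nat_lit 188434) (nat_lit 20) .nil)))) .nil))) (.nd (nat_lit 5) 
(.lf (nat_lit 18897) (.g (nat_lit 3581) (.e (nat_lit 1178) (nat_lit 87) (.e (nat_lit 57480) (nat_lit 28) (.e (nat_lit 557108) (nat_lit 15) (.e (nat_lit 188452) (nat_lit 23) (.e (nat_lit 204885) (nat_lit 33) (.e (nat_lit 401414) (nat_lit 0) (.e (nat_lit 2478) (nat_lit 157) (.e (nat_lit 4602) (nat_lit 269) .nil)))))))) (.g (nat_lit 6) .nil .nil))) 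
(.lf (nat_lit 18929) (.g (nat_lit 2535) (.e (nat_lit 1178) (nat_lit 87) (.e (nat_lit 57480) (nat_lit 28) (.e (nat_lit 557109) (nat_lit 15) (.e (nat_lit 188452) (nat_lit 23) (.e (nat_lit 204855) (nat_lit 26) .nil))))) .nil)))) (.nd (nat_lit 4) (.nd (nat_lit 5) 
(.lf (nat_lit 18889) (.g (nat_lit 1777) (.e (nat_lit 1178) (nat_lit 87) (.e (nat_lit 57480) (nat_lit 28) (.e (nat_lit 557108) (nat_lit 15) (.e (nat_lit 188452) (nat_lit 23) (.e (nat_lit 204885) (nat_lit 33) .nil))))) .nil)) 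
(.lf (nat_lit 18921) (.g (nat_lit 2363) (.e (nat_lit 1178) (nat_lit 87) (.e (nat_lit 57480) (nat_lit 28) (.e (nat_lit 557109) (nat_lit 15) (.e (nat_lit 188449) (nat_lit 22) (.e (nat_lit 196666) (nat_lit 13) .nil))))) .nil))) (.nd (nat_lit 5) 
(.lf (nat_lit 18905) (.g (nat_lit 2989) (.e (nat_lit 1178) (nat_lit 87) (.e (nat_lit 57480) (nat_lit 28) (.e (nat_lit 557108) (nat_lit 15) (.e (nat_lit 188452) (nat_lit 23) (.e (nat_lit 204885) (nat_lit 33) (.e (nat_lit 401420) (nat_lit 1) (.e (nat_lit 164424) (nat_lit 272) .nil))))))) (.g (nat_lit 6) .nil .nil))) 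
(.lf (nat_lit 18937) (.g (nat_lit 4418) (.e (nat_lit 1178) (nat_lit 87) (.e (nat_lit 57480) (nat_lit 28) (.e (nat_lit 557109) (nat_lit 15) (.e (nat_lit 188452) (nat_lit 23) (.e (nat_lit 204864) (nat_lit 27) (.e (nat_lit 344093) (nat_lit 18) (.e (nat_lit 5861) (nat_lit 320) .nil))))))) (.g (nat_lit 0) .nil .nil)))))) (.nd (nat_lit 3) (.nd (nat_lit 4) (.nd (nat_lit 5) 
(.lf (nat_lit 18885) (.g (nat_lit 2586) (.e (nat_lit 1178) (nat_lit 87) (.e (nat_lit 57480) (nat_lit 28) (.e (nat_lit 557108) (nat_lit 15) (.e (nat_lit 188452) (nat_lit 23) (.e (nat_lit 204880) (nat_lit 32) (.e (nat_lit 385043) (nat_lit 21) (.e (nat_lit 7413) (nat_lit 396) .nil))))))) (.g (nat_lit 4) .nil .nil))) 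
(.lf (nat_lit 18917) (.g (nat_lit 2418) (.e (nat_lit 1178) (nat_lit 87) (.e (nat_lit 57480) (nat_lit 28) (.e (nat_lit 557109) (nat_lit 15) (.e (nat_lit 188441) (nat_lit 20) .nil)))) .nil))) (.nd (nat_lit 5) 
(.lf (nat_lit 18901) (.g (nat_lit 2696) (.e (nat_lit 1178) (nat_lit 87) (.e (nat_lit 57480) (nat_lit 28) (.e (nat_lit 557108) (nat_lit 15) (.e (nat_lit 188452) (nat_lit 23) (.e (nat_lit 204885) (nat_lit 33) (.e (nat_lit 401418) (nat_lit 0) (.e (nat_lit 2471) (nat_lit 157) (.e (nat_lit 4606) (nat_lit 269) .nil)))))))) (.g (nat_lit 5) .nil .nil))) 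
(.lf (nat_lit 18933) (.g (nat_lit 4350) (.e (nat_lit 1178) (nat_lit 87) (.e (nat_lit 57480) (nat_lit 28) (.e (nat_lit 557109) (nat_lit 15) (.e (nat_lit 188452) (nat_lit 23) (.e (nat_lit 204863) (nat_lit 27) (.e (nat_lit 344096) (nat_lit 18) (.e (nat_lit 5896) (nat_lit 320) .nil))))))) (.g (nat_lit 7) .nil .nil))))) (.nd (nat_lit 4) (.nd (nat_lit 5) 
(.lf (nat_lit 18893) (.g (nat_lit 3785) (.e (nat_lit 1178) (nat_lit 87) (.e (nat_lit 57480) (nat_lit 28) (.e (nat_lit 557108) (nat_lit 15) (.e (nat_lit 188452) (nat_lit 23) (.e (nat_lit 204885) (nat_lit 33) (.e (nat_lit 401414) (nat_lit 0) (.e (nat_lit 2425) (nat_lit 157) (.e (nat_lit 4563) (nat_lit 269) .nil)))))))) (.g (nat_lit 7) .nil .nil))) 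
(.lf (nat_lit 18925) (.g (nat_lit 3734) (.e (nat_lit 1178) (nat_lit 87) (.e (nat_lit 57480) (nat_lit 28) (.e (nat_lit 557109) (nat_lit 15) (.e (nat_lit 188450) (nat_lit 23) (.e (nat_lit 204862) (nat_lit 27) .nil))))) .nil))) (.nd (nat_lit 5) 
(.lf (nat_lit 18909) (.g (nat_lit 3154) (.e (nat_lit 1178) (nat_lit 87) (.e (nat_lit 57480) (nat_lit 28) (.e (nat_lit 557108) (nat_lit 15) (.e (nat_lit 188452) (nat_lit 23) (.e (nat_lit 204885) (nat_lit 33) (.e (nat_lit 401422) (nat_lit 1) (.e (nat_lit 164422) (nat_lit 272) .nil))))))) (.g (nat_lit 7) .nil .nil))) 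
(.lf (nat_lit 18941) (.g (nat_lit 3361) (.e (nat_lit 1178) (nat_lit 87) (.e (nat_lit 57681) (nat_lit 155) (.e (nat_lit 122907) (nat_lit 12) (.e (nat_lit 336060) (nat_lit 7) (.e (nat_lit 319533) (nat_lit 16) (.e (nat_lit 286753) (nat_lit 10) (.e (nat_lit 344160) (nat_lit 37) (.e (nat_lit 647195) (nat_lit 9) .nil)))))))) (.g (nat_lit 7) .nil .nil))))))) 
(.nd (nat_lit 2) (.nd (nat_lit 3) (.nd (nat_lit 4) (.nd (nat_lit 5) 
(.lf (nat_lit 18883) (.g (nat_lit 3142) (.e (nat_lit 1178) (nat_lit 87) (.e (nat_lit 57480) (nat_lit 28) (.e (nat_lit 557108) (nat_lit 15) (.e (nat_lit 188452) (nat_lit 23) (.e (nat_lit 204874) (nat_lit 30) (.e (nat_lit 368662) (nat_lit 18) (.e (nat_lit 5874) (nat_lit 320) .nil))))))) (.g (nat_lit 4) .nil .nil))) 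
(.lf (nat_lit 18915) (.g (nat_lit 3237) (.e (nat_lit 1178) (nat_lit 87) (.e (nat_lit 57480) (nat_lit 28) (.e (nat_lit 557109) (nat_lit 15) (.e (nat_lit 188434) (nat_lit 20) (.e (nat_lit 3272) (nat_lit 199) .nil))))) .nil))) (.nd (nat_lit 5) 
(.lf (nat_lit 18899) (.g (nat_lit 2689) (.e (nat_lit 1178) (nat_lit 87) (.e (nat_lit 57480) (nat_lit 28) (.e (nat_lit 557108) (nat_lit 15) (.e (nat_lit 188452) (nat_lit 23) (.e (nat_lit 204885) (nat_lit 33) (.e (nat_lit 401418) (nat_lit 0) (.e (nat_lit 2452) (nat_lit 157) (.e (nat_lit 4607) (nat_lit 269) .nil)))))))) (.g (nat_lit 5) .nil .nil))) 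
(.lf (nat_lit 18931) (.g (nat_lit 2608) (.e (nat_lit 1178) (nat_lit 87) (.e (nat_lit 57480) (nat_lit 28) (.e (nat_lit 557109) (nat_lit 15) (.e (nat_lit 188452) (nat_lit 23) (.e (nat_lit 204862) (nat_lit 27) (.e (nat_lit 344097) (nat_lit 18) (.e (nat_lit 5907) (nat_lit 320) .nil))))))) (.g (nat_lit 4) .nil .nil))))) (.nd (nat_lit 4) (.nd (nat_lit 5) 
(.lf (nat_lit 18891) (.g (nat_lit 3474) (.e (nat_lit 1178) (nat_lit 87) (.e (nat_lit 57480) (nat_lit 28) (.e (nat_lit 557108) (nat_lit 15) (.e (nat_lit 188452) (nat_lit 23) (.e (nat_lit 204885) (nat_lit 33) (.e (nat_lit 401414) (nat_lit 0) (.e (nat_lit 2425) (nat_lit 157) (.e (nat_lit 4554) (nat_lit 269) .nil)))))))) (.g (nat_lit 6) .nil .nil))) 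
(.lf (nat_lit 18923) (.g (nat_lit 3666) (.e (nat_lit 1178) (nat_lit 87) (.e (nat_lit 57480) (nat_lit 28) (.e (nat_lit 557109) (nat_lit 15) (.e (nat_lit 188449) (nat_lit 22) (.e (nat_lit 196670) (nat_lit 14) (.e (nat_lit 73732) (nat_lit 0) (.e (nat_lit 5905) (nat_lit 320) .nil))))))) (.g (nat_lit 4) .nil .nil)))) (.nd (nat_lit 5) 
(.lf (nat_lit 18907) (.g (nat_lit 3230) (.e (nat_lit 1178) (nat_lit 87) (.e (nat_lit 57480) (nat_lit 28) (.e (nat_lit 557108) (nat_lit 15) (.e (nat_lit 188452) (nat_lit 23) (.e (nat_lit 204885) (nat_lit 33) (.e (nat_lit 401421) (nat_lit 1) (.e (nat_lit 164424) (nat_lit 272) .nil))))))) (.g (nat_lit 7) .nil .nil))) 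
(.lf (nat_lit 18939) (.g (nat_lit 3057) (.e (nat_lit 1178) (nat_lit 87) (.e (nat_lit 57480) (nat_lit 28) (.e (nat_lit 557109) (nat_lit 15) (.e (nat_lit 188458) (nat_lit 25) (.e (nat_lit 245784) (nat_lit 9) .nil))))) .nil))))) (.nd (nat_lit 3) (.nd (nat_lit 4) (.nd (nat_lit 5) 
(.lf (nat_lit 18887) (.g (nat_lit 2523) (.e (nat_lit 1178) (nat_lit 87) (.e (nat_lit 57480) (nat_lit 28) (.e (nat_lit 557108) (nat_lit 15) (.e (nat_lit 188452) (nat_lit 23) (.e (nat_lit 204881) (nat_lit 32) .nil))))) .nil)) 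
(.lf (nat_lit 18919) (.g (nat_lit 3789) (.e (nat_lit 1178) (nat_lit 87) (.e (nat_lit 57480) (nat_lit 28) (.e (nat_lit 557109) (nat_lit 15) (.e (nat_lit 188447) (nat_lit 22) (.e (nat_lit 196666) (nat_lit 13) .nil))))) .nil))) (.nd (nat_lit 5) 
(.lf (nat_lit 18903) (.g (nat_lit 3174) (.e (nat_lit 1178) (nat_lit 87) (.e (nat_lit 57480) (nat_lit 28) (.e (nat_lit 557108) (nat_lit 15) (.e (nat_lit 188452) (nat_lit 23) (.e (nat_lit 204885) (nat_lit 33) (.e (nat_lit 401420) (nat_lit 1) (.e (nat_lit 164422) (nat_lit 272) .nil))))))) (.g (nat_lit 0) .nil .nil))) 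
(.lf (nat_lit 18935) (.g (nat_lit 2852) (.e (nat_lit 1178) (nat_lit 87) (.e (nat_lit 57480) (nat_lit 28) (.e (nat_lit 557109) (nat_lit 15) (.e (nat_lit 188452) (nat_lit 23) (.e (nat_lit 204864) (nat_lit 27) .nil))))) .nil)))) (.nd (nat_lit 4) (.nd (nat_lit 5) 
(.lf (nat_lit 18895) (.g (nat_lit 2561) (.e (nat_lit 1178) (nat_lit 87) (.e (nat_lit 57480) (nat_lit 28) (.e (nat_lit 557108) (nat_lit 15) (.e (nat_lit 188452) (nat_lit 23) (.e (nat_lit 204885) (nat_lit 33) (.e (nat_lit 401414) (nat_lit 0) (.e (nat_lit 2438) (nat_lit 157) (.e (nat_lit 4562) (nat_lit 269) .nil)))))))) (.g (nat_lit 5) .nil .nil))) 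
(.lf (nat_lit 18927) (.g (nat_lit 1440) (.e (nat_lit 1178) (nat_lit 87) (.e (nat_lit 57480) (nat_lit 28) (.e (nat_lit 557109) (nat_lit 15) (.e (nat_lit 188452) (nat_lit 23) .nil)))) .nil))) (.nd (nat_lit 5) 
(.lf (nat_lit 18911) (.g (nat_lit 2716) (.e (nat_lit 1178) (nat_lit 87) (.e (nat_lit 57480) (nat_lit 28) (.e (nat_lit 557108) (nat_lit 15) (.e (nat_lit 188452) (nat_lit 23) (.e (nat_lit 204885) (nat_lit 33) (.e (nat_lit 401422) (nat_lit 1) (.e (nat_lit 164424) (nat_lit 272) .nil))))))) (.g (nat_lit 5) .nil .nil))) 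
(.lf (nat_lit 18943) (.g (nat_lit 1918) (.e (nat_lit 1178) (nat_lit 87) (.e (nat_lit 57692) (nat_lit 156) (.e (nat_lit 163907) (nat_lit 12) (.e (nat_lit 426131) (nat_lit 3) (.e (nat_lit 204877) (nat_lit 31) .nil))))) .nil))))))))

noncomputable def tv262 : DT := (.nd (nat_lit 0) (.nd (nat_lit 1) (.nd (nat_lit 2) (.nd (nat_lit 3) (.nd (nat_lit 4) (.nd (nat_lit 5) (.nd (nat_lit 6) 
(.lf (nat_lit 18944) (.g (nat_lit 1095) (.e (nat_lit 1178) (nat_lit 87) (.e (nat_lit 57847) (nat_lit 252) (.e (nat_lit 57410) (nat_lit 12) (.e (nat_lit 336211) (nat_lit 13) .nil)))) .nil)) 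
(.lf (nat_lit 19008) (.g (nat_lit 2813) (.e (nat_lit 1179) (nat_lit 87) (.e (nat_lit 57479) (nat_lit 28) (.e (nat_lit 557100) (nat_lit 13) (.e (nat_lit 172106) (nat_lit 10) (.e (nat_lit 434231) (nat_lit 23) (.e (nat_lit 532535) (nat_lit 9) (.e (nat_lit 336250) (nat_lit 15) (.e (nat_lit 2521) (nat_lit 157) (.e (nat_lit 7431) (nat_lit 396) .nil))))))))) (.g (nat_lit 4) .nil .nil)))) 
(.nd (nat_lit 6) 
(.lf (nat_lit 18976) (.g (nat_lit 1466) (.e (nat_lit 1178) (nat_lit 87) (.e (nat_lit 57854) (nat_lit 252) (.e (nat_lit 57409) (nat_lit 12) (.e (nat_lit 336360) (nat_lit 25) .nil)))) .nil)) 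
(.lf (nat_lit 19040) (.g (nat_lit 2397) (.e (nat_lit 1179) (nat_lit 87) (.e (nat_lit 57479) (nat_lit 28) (.e (nat_lit 557105) (nat_lit 14) (.e (nat_lit 180252) (nat_lit 10) (.e (nat_lit 573489) (nat_lit 14) (.e (nat_lit 73755) (nat_lit 8) (.e (nat_lit 557090) (nat_lit 12) (.e (nat_lit 163840) (nat_lit 0) (.e (nat_lit 5174) (nat_lit 292) .nil))))))))) (.g (nat_lit 5) .nil .nil))))) 
(.nd (nat_lit 5) (.nd (nat_lit 6) 
(.lf (nat_lit 18960) (.g (nat_lit 2532) (.e (nat_lit 1178) (nat_lit 87) (.e (nat_lit 57849) (nat_lit 252) (.e (nat_lit 57437) (nat_lit 17) (.e (nat_lit 376842) (nat_lit 11) (.e (nat_lit 426298) (nat_lit 11) .nil))))) .nil)) 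
(.lf (nat_lit 19024) (.g (nat_lit 2643) (.e (nat_lit 1179) (nat_lit 87) (.e (nat_lit 57479) (nat_lit 28) (.e (nat_lit 557101) (nat_lit 13) (.e (nat_lit 172097) (nat_lit 9) (.e (nat_lit 426140) (nat_lit 3) (.e (nat_lit 204863) (nat_lit 27) (.e (nat_lit 344096) (nat_lit 18) (.e (nat_lit 5920) (nat_lit 320) .nil)))))))) (.g (nat_lit 4) .nil .nil)))) (.nd (nat_lit 6) 
(.lf (nat_lit 18992) (.g (nat_lit 656) (.e (nat_lit 1178) (nat_lit 87) (.e (nat_lit 57854) (nat_lit 252) (.e (nat_lit 57446) (nat_lit 19) .nil))) .nil)) 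
(.lf (nat_lit 19056) (.g (nat_lit 867) (.e (nat_lit 1179) (nat_lit 87) (.e (nat_lit 57479) (nat_lit 28) (.e (nat_lit 557109) (nat_lit 15) .nil))) .nil))))) (.nd (nat_lit 4) (.nd (nat_lit 5) (.nd (nat_lit 6) 
(.lf (nat_lit 18952) (.g (nat_lit 796) (.e (nat_lit 1178) (nat_lit 87) (.e (nat_lit 57849) (nat_lit 252) (.e (nat_lit 57379) (nat_lit 3) .nil))) .nil)) 
(.lf (nat_lit 19016) (.g (nat_lit 2348) (.e (nat_lit 1179) (nat_lit 87) (.e (nat_lit 57479) (nat_lit 28) (.e (nat_lit 557100) (nat_lit 13) (.e (nat_lit 172106) (nat_lit 10) (.e (nat_lit 434231) (nat_lit 23) (.e (nat_lit 532543) (nat_lit 10) (.e (nat_lit 344091) (nat_lit 18) (.e (nat_lit 5875) (nat_lit 320) .nil)))))))) (.g (nat_lit 4) .nil .nil)))) (.nd (nat_lit 6) 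
(.lf (nat_lit 18984) (.g (nat_lit 1315) (.e (nat_lit 1178) (nat_lit 87) (.e (nat_lit 57854) (nat_lit 252) (.e (nat_lit 57436) (nat_lit 17) (.e (nat_lit 376842) (nat_lit 11) .nil)))) .nil)) 
(.lf (nat_lit 19048) (.g (nat_lit 4465) (.e (nat_lit 1179) (nat_lit 87) (.e (nat_lit 57479) (nat_lit 28) (.e (nat_lit 557105) (nat_lit 14) (.e (nat_lit 180252) (nat_lit 10) (.e (nat_lit 573489) (nat_lit 14) (.e (nat_lit 73755) (nat_lit 8) (.e (nat_lit 557090) (nat_lit 12) (.e (nat_lit 163843) (nat_lit 0) (.e (nat_lit 5137) (nat_lit 292) .nil))))))))) (.g (nat_lit 8) .nil .nil))))) 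
(.nd (nat_lit 5) (.nd (nat_lit 6) 
(.lf (nat_lit 18968) (.g (nat_lit 2370) (.e (nat_lit 1178) (nat_lit 87) (.e (nat_lit 57854) (nat_lit 252) (.e (nat_lit 57373) (nat_lit 2) (.e (nat_lit 90160) (nat_lit 11) .nil)))) .nil)) 
(.lf (nat_lit 19032) (.g (nat_lit 2621) (.e (nat_lit 1179) (nat_lit 87) (.e (nat_lit 57479) (nat_lit 28) (.e (nat_lit 557105) (nat_lit 14) (.e (nat_lit 180252) (nat_lit 10) (.e (nat_lit 573487) (nat_lit 14) .nil))))) .nil))) (.nd (nat_lit 6) 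
(.lf (nat_lit 19000) (.g (nat_lit 3052) (.e (nat_lit 1178) (nat_lit 87) (.e (nat_lit 57931) (nat_lit 282) (.e (nat_lit 163869) (nat_lit 2) (.e (nat_lit 196669) (nat_lit 14) (.e (nat_lit 73755) (nat_lit 8) (.e (nat_lit 557105) (nat_lit 14) (.e (nat_lit 180252) (nat_lit 10) (.e (nat_lit 573458) (nat_lit 9) .nil)))))))) (.g (nat_lit 5) .nil .nil))) 
(.lf (nat_lit 19064) (.g (nat_lit 3811) (.e (nat_lit 1179) (nat_lit 87) (.e (nat_lit 57480) (nat_lit 28) (.e (nat_lit 557105) (nat_lit 14) (.e (nat_lit 180252) (nat_lit 10) (.e (nat_lit 573488) (nat_lit 14) (.e (nat_lit 73747) (nat_lit 3) (.e (nat_lit 516117) (nat_lit 1) (.e (nat_lit 164170) (nat_lit 152) .nil)))))))) (.g (nat_lit 6) .nil .nil))))))) 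
(.nd (nat_lit 3) (.nd (nat_lit 4) (.nd (nat_lit 5) (.nd (nat_lit 6) 
(.lf (nat_lit 18948) (.g (nat_lit 790) (.e (nat_lit 1178) (nat_lit 87) (.e (nat_lit 57847) (nat_lit 252) (.e (nat_lit 57446) (nat_lit 19) .nil))) .nil)) 
(.lf (nat_lit 19012) (.g (nat_lit 2854) (.e (nat_lit 1179) (nat_lit 87) (.e (nat_lit 57479) (nat_lit 28) (.e (nat_lit 557100) (nat_lit 13) (.e (nat_lit 172106) (nat_lit 10) (.e (nat_lit 434231) (nat_lit 23) (.e (nat_lit 532535) (nat_lit 9) (.e (nat_lit 336295) (nat_lit 15) (.e (nat_lit 2444) (nat_lit 157) (.e (nat_lit 7420) (nat_lit 396) .nil))))))))) (.g (nat_lit 4) .nil .nil)))) 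
(.nd (nat_lit 6) 
(.lf (nat_lit 18980) (.g (nat_lit 2246) (.e (nat_lit 1178) (nat_lit 87) (.e (nat_lit 57854) (nat_lit 252) (.e (nat_lit 57435) (nat_lit 17) (.e (nat_lit 376842) (nat_lit 11) (.e (nat_lit 426298) (nat_lit 11) (.e (nat_lit 458804) (nat_lit 38) (.e (nat_lit 655390) (nat_lit 9) .nil))))))) (.g (nat_lit 5) .nil .nil))) 
(.lf (nat_lit 19044) (.g (nat_lit 4079) (.e (nat_lit 1179) (nat_lit 87) (.e (nat_lit 57479) (nat_lit 28) (.e (nat_lit 557105) (nat_lit 14) (.e (nat_lit 180252) (nat_lit 10) (.e (nat_lit 573489) (nat_lit 14) (.e (nat_lit 73755) (nat_lit 8) (.e (nat_lit 557090) (nat_lit 12) (.e (nat_lit 163842) (nat_lit 0) (.e (nat_lit 5139) (nat_lit 292) .nil))))))))) (.g (nat_lit 8) .nil .nil))))) 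
(.nd (nat_lit 5) (.nd (nat_lit 6) 
(.lf (nat_lit 18964) (.g (nat_lit 1626) (.e (nat_lit 1178) (nat_lit 87) (.e (nat_lit 57854) (nat_lit 252) (.e (nat_lit 57371) (nat_lit 2) (.e (nat_lit 90128) (nat_lit 9) (.e (nat_lit 297) (nat_lit 22) .nil))))) .nil)) 
(.lf (nat_lit 19028) (.g (nat_lit 2662) (.e (nat_lit 1179) (nat_lit 87) (.e (nat_lit 57479) (nat_lit 28) (.e (nat_lit 557103) (nat_lit 14) (.e (nat_lit 180250) (nat_lit 10) (.e (nat_lit 573487) (nat_lit 14) (.e (nat_lit 73747) (nat_lit 3) (.e (nat_lit 516115) (nat_lit 1) (.e (nat_lit 164170) (nat_lit 152) .nil)))))))) (.g (nat_lit 4) .nil .nil)))) (.nd (nat_lit 6) 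
(.lf (nat_lit 18996) (.g (nat_lit 3541) (.e (nat_lit 1178) (nat_lit 87) (.e (nat_lit 57924) (nat_lit 282) (.e (nat_lit 163867) (nat_lit 2) (.e (nat_lit 196670) (nat_lit 14) (.e (nat_lit 73746) (nat_lit 3) (.e (nat_lit 516131) (nat_lit 3) (.e (nat_lit 221212) (nat_lit 22) (.e (nat_lit 196632) (nat_lit 9) .nil)))))))) (.g (nat_lit 8) .nil .nil))) 
(.lf (nat_lit 19060) (.g (nat_lit 2279) (.e (nat_lit 1179) (nat_lit 87) (.e (nat_lit 57480) (nat_lit 28) (.e (nat_lit 557098) (nat_lit 13) (.e (nat_lit 172097) (nat_lit 9) (.e (nat_lit 426125) (nat_lit 2) .nil))))) .nil))))) (.nd (nat_lit 4) (.nd (nat_lit 5) (.nd (nat_lit 6) 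
(.lf (nat_lit 18956) (.g (nat_lit 842) (.e (nat_lit 1178) (nat_lit 87) (.e (nat_lit 57849) (nat_lit 252) (.e (nat_lit 57435) (nat_lit 17) .nil))) .nil)) 
(.lf (nat_lit 19020) (.g (nat_lit 2396) (.e (nat_lit 1179) (nat_lit 87) (.e (nat_lit 57479) (nat_lit 28) (.e (nat_lit 557100) (nat_lit 13) (.e (nat_lit 172106) (nat_lit 10) (.e (nat_lit 434231) (nat_lit 23) (.e (nat_lit 532544) (nat_lit 10) (.e (nat_lit 344097) (nat_lit 18) (.e (nat_lit 5874) (nat_lit 320) .nil)))))))) (.g (nat_lit 4) .nil .nil)))) (.nd (nat_lit 6) 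
(.lf (nat_lit 18988) (.g (nat_lit 1324) (.e (nat_lit 1178) (nat_lit 87) (.e (nat_lit 57854) (nat_lit 252) (.e (nat_lit 57436) (nat_lit 17) (.e (nat_lit 384768) (nat_lit 14) .nil)))) .nil)) 
(.lf (nat_lit 19052) (.g (nat_lit 2131) (.e (nat_lit 1179) (nat_lit 87) (.e (nat_lit 57479) (nat_lit 28) (.e (nat_lit 557105) (nat_lit 14) (.e (nat_lit 180252) (nat_lit 10) (.e (nat_lit 573489) (nat_lit 14) (.e (nat_lit 73755) (nat_lit 8) (.e (nat_lit 557090) (nat_lit 12) (.e (nat_lit 163847) (nat_lit 0) (.e (nat_lit 5137) (nat_lit 292) .nil))))))))) (.g (nat_lit 4) .nil .nil))))) 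
(.nd (nat_lit 5) (.nd (nat_lit 6) 
(.lf (nat_lit 18972) (.g (nat_lit 627) (.e (nat_lit 1178) (nat_lit 87) (.e (nat_lit 57854) (nat_lit 252) (.e (nat_lit 57409) (nat_lit 12) .nil))) .nil)) 
(.lf (nat_lit 19036) (.g (nat_lit 3426) (.e (nat_lit 1179) (nat_lit 87) (.e (nat_lit 57479) (nat_lit 28) (.e (nat_lit 557105) (nat_lit 14) (.e (nat_lit 180252) (nat_lit 10) (.e (nat_lit 573488) (nat_lit 14) (.e (nat_lit 73747) (nat_lit 3) (.e (nat_lit 516120) (nat_lit 1) (.e (nat_lit 164169) (nat_lit 152) .nil)))))))) (.g (nat_lit 4) .nil .nil)))) (.nd (nat_lit 6) 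
(.lf (nat_lit 19004) (.g (nat_lit 2545) (.e (nat_lit 1179) (nat_lit 87) (.e (nat_lit 57478) (nat_lit 28) (.e (nat_lit 557109) (nat_lit 15) (.e (nat_lit 188452) (nat_lit 23) (.e (nat_lit 204863) (nat_lit 27) .nil))))) .nil)) 
(.lf (nat_lit 19068) (.g (nat_lit 2189) (.e (nat_lit 1179) (nat_lit 87) (.e (nat_lit 57480) (nat_lit 28) (.e (nat_lit 557107) (nat_lit 15) (.e (nat_lit 188450) (nat_lit 23) (.e (nat_lit 204863) (nat_lit 27) .nil))))) .nil))))))) (.nd (nat_lit 2) (.nd (nat_lit 3) (.nd (nat_lit 4) (.nd (nat_lit 5) (.nd (nat_lit 6) 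
(.lf (nat_lit 18946) (.g (nat_lit 2203) (.e (nat_lit 1178) (nat_lit 87) (.e (nat_lit 57847) (nat_lit 252) (.e (nat_lit 57411) (nat_lit 12) (.e (nat_lit 336211) (nat_lit 13) (.e (nat_lit 393291) (nat_lit 26) (.e (nat_lit 475201) (nat_lit 40) (.e (nat_lit 704620) (nat_lit 9) .nil))))))) (.g (nat_lit 5) .nil .nil))) 
(.lf (nat_lit 19010) (.g (nat_lit 2538) (.e (nat_lit 1179) (nat_lit 87) (.e (nat_lit 57479) (nat_lit 28) (.e (nat_lit 557100) (nat_lit 13) (.e (nat_lit 172106) (nat_lit 10) (.e (nat_lit 434231) (nat_lit 23) (.e (nat_lit 532535) (nat_lit 9) (.e (nat_lit 336295) (nat_lit 15) (.e (nat_lit 2443) (nat_lit 157) (.e (nat_lit 7422) (nat_lit 396) .nil))))))))) (.g (nat_lit 4) .nil .nil)))) 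
(.nd (nat_lit 6) 
(.lf (nat_lit 18978) (.g (nat_lit 1220) (.e (nat_lit 1178) (nat_lit 87) (.e (nat_lit 57854) (nat_lit 252) (.e (nat_lit 57435) (nat_lit 17) (.e (nat_lit 376842) (nat_lit 11) .nil)))) .nil)) 
(.lf (nat_lit 19042) (.g (nat_lit 2172) (.e (nat_lit 1179) (nat_lit 87) (.e (nat_lit 57479) (nat_lit 28) (.e (nat_lit 557105) (nat_lit 14) (.e (nat_lit 180252) (nat_lit 10) (.e (nat_lit 573489) (nat_lit 14) (.e (nat_lit 73755) (nat_lit 8) (.e (nat_lit 557090) (nat_lit 12) (.e (nat_lit 163841) (nat_lit 0) (.e (nat_lit 5139) (nat_lit 292) .nil))))))))) (.g (nat_lit 5) .nil .nil))))) 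
(.nd (nat_lit 5) (.nd (nat_lit 6) 
(.lf (nat_lit 18962) (.g (nat_lit 1606) (.e (nat_lit 1178) (nat_lit 87) (.e (nat_lit 57849) (nat_lit 252) (.e (nat_lit 57437) (nat_lit 17) (.e (nat_lit 384768) (nat_lit 14) .nil)))) .nil)) 
(.lf (nat_lit 19026) (.g (nat_lit 2229) (.e (nat_lit 1179) (nat_lit 87) (.e (nat_lit 57479) (nat_lit 28) (.e (nat_lit 557101) (nat_lit 13) (.e (nat_lit 172115) (nat_lit 10) (.e (nat_lit 434244) (nat_lit 28) (.e (nat_lit 573450) (nat_lit 9) (.e (nat_lit 452) (nat_lit 33) (.e (nat_lit 434202) (nat_lit 18) (.e (nat_lit 4588) (nat_lit 269) .nil))))))))) (.g (nat_lit 4) .nil .nil)))) (.nd (nat_lit 6) 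
(.lf (nat_lit 18994) (.g (nat_lit 1464) (.e (nat_lit 1178) (nat_lit 87) (.e (nat_lit 57854) (nat_lit 252) (.e (nat_lit 57447) (nat_lit 19) (.e (nat_lit 401152) (nat_lit 11) .nil)))) .nil)) 
(.lf (nat_lit 19058) (.g (nat_lit 2645) (.e (nat_lit 1179) (nat_lit 87) (.e (nat_lit 57479) (nat_lit 28) (.e (nat_lit 557109) (nat_lit 15) (.e (nat_lit 188452) (nat_lit 23) .nil)))) .nil))))) (.nd (nat_lit 4) (.nd (nat_lit 5) (.nd (nat_lit 6) 
(.lf (nat_lit 18954) (.g (nat_lit 816) (.e (nat_lit 1178) (nat_lit 87) (.e (nat_lit 57849) (nat_lit 252) (.e (nat_lit 57410) (nat_lit 12) .nil))) .nil)) 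
(.lf (nat_lit 19018) (.g (nat_lit 2669) (.e (nat_lit 1179) (nat_lit 87) (.e (nat_lit 57479) (nat_lit 28) (.e (nat_lit 557100) (nat_lit 13) (.e (nat_lit 172106) (nat_lit 10) (.e (nat_lit 434231) (nat_lit 23) (.e (nat_lit 532544) (nat_lit 10) (.e (nat_lit 344091) (nat_lit 18) (.e (nat_lit 5920) (nat_lit 320) .nil)))))))) (.g (nat_lit 4) .nil .nil)))) (.nd (nat_lit 6) 
(.lf (nat_lit 18986) (.g (nat_lit 1753) (.e (nat_lit 1178) (nat_lit 87) (.e (nat_lit 57854) (nat_lit 252) (.e (nat_lit 57436) (nat_lit 17) (.e (nat_lit 376842) (nat_lit 11) (.e (nat_lit 426306) (nat_lit 12) .nil))))) .nil)) 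
(.lf (nat_lit 19050) (.g (nat_lit 3963) (.e (nat_lit 1179) (nat_lit 87) (.e (nat_lit 57479) (nat_lit 28) (.e (nat_lit 557105) (nat_lit 14) (.e (nat_lit 180252) (nat_lit 10) (.e (nat_lit 573489) (nat_lit 14) (.e (nat_lit 73755) (nat_lit 8) (.e (nat_lit 557090) (nat_lit 12) (.e (nat_lit 163845) (nat_lit 0) (.e (nat_lit 5174) (nat_lit 292) .nil))))))))) (.g (nat_lit 7) .nil .nil))))) 
(.nd (nat_lit 5) (.nd (nat_lit 6) 
(.lf (nat_lit 18970) (.g (nat_lit 3138) (.e (nat_lit 1178) (nat_lit 87) (.e (nat_lit 57854) (nat_lit 252) (.e (nat_lit 57373) (nat_lit 2) (.e (nat_lit 90160) (nat_lit 11) (.e (nat_lit 24608) (nat_lit 3) .nil))))) .nil)) 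
(.lf (nat_lit 19034) (.g (nat_lit 3119) (.e (nat_lit 1179) (nat_lit 87) (.e (nat_lit 57479) (nat_lit 28) (.e (nat_lit 557105) (nat_lit 14) (.e (nat_lit 180252) (nat_lit 10) (.e (nat_lit 573487) (nat_lit 14) (.e (nat_lit 73747) (nat_lit 3) (.e (nat_lit 516120) (nat_lit 1) (.e (nat_lit 164169) (nat_lit 152) .nil)))))))) (.g (nat_lit 4) .nil .nil)))) (.nd (nat_lit 6) 
(.lf (nat_lit 19002) (.g (nat_lit 3682) (.e (nat_lit 1178) (nat_lit 87) (.e (nat_lit 57931) (nat_lit 282) (.e (nat_lit 163869) (nat_lit 2) (.e (nat_lit 196670) (nat_lit 14) (.e (nat_lit 73746) (nat_lit 3) (.e (nat_lit 516131) (nat_lit 3) (.e (nat_lit 221212) (nat_lit 22) (.e (nat_lit 196632) (nat_lit 9) .nil)))))))) (.g (nat_lit 7) .nil .nil))) 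
(.lf (nat_lit 19066) (.g (nat_lit 2801) (.e (nat_lit 1179) (nat_lit 87) (.e (nat_lit 57480) (nat_lit 28) (.e (nat_lit 557105) (nat_lit 14) (.e (nat_lit 180252) (nat_lit 10) (.e (nat_lit 573489) (nat_lit 14) .nil))))) .nil)))))) (.nd (nat_lit 3) (.nd (nat_lit 4) (.nd (nat_lit 5) (.nd (nat_lit 6) 
(.lf (nat_lit 18950) (.g (nat_lit 2583) (.e (nat_lit 1178) (nat_lit 87) (.e (nat_lit 57849) (nat_lit 252) (.e (nat_lit 57375) (nat_lit 2) (.e (nat_lit 90128) (nat_lit 9) (.e (nat_lit 297) (nat_lit 22) .nil))))) .nil)) 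
(.lf (nat_lit 19014) (.g (nat_lit 2539) (.e (nat_lit 1179) (nat_lit 87) (.e (nat_lit 57479) (nat_lit 28) (.e (nat_lit 557100) (nat_lit 13) (.e (nat_lit 172106) (nat_lit 10) (.e (nat_lit 434231) (nat_lit 23) (.e (nat_lit 532535) (nat_lit 9) (.e (nat_lit 336295) (nat_lit 15) (.e (nat_lit 2445) (nat_lit 157) (.e (nat_lit 7422) (nat_lit 396) .nil))))))))) (.g (nat_lit 4) .nil .nil)))) 
(.nd (nat_lit 6) 
(.lf (nat_lit 18982) (.g (nat_lit 2504) (.e (nat_lit 1178) (nat_lit 87) (.e (nat_lit 57854) (nat_lit 252) (.e (nat_lit 57435) (nat_lit 17) (.e (nat_lit 376842) (nat_lit 11) (.e (nat_lit 426306) (nat_lit 12) (.e (nat_lit 475201) (nat_lit 40) (.e (nat_lit 704620) (nat_lit 9) .nil))))))) (.g (nat_lit 5) .nil .nil))) 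
(.lf (nat_lit 19046) (.g (nat_lit 2769) (.e (nat_lit 1179) (nat_lit 87) (.e (nat_lit 57479) (nat_lit 28) (.e (nat_lit 557105) (nat_lit 14) (.e (nat_lit 180252) (nat_lit 10) (.e (nat_lit 573489) (nat_lit 14) (.e (nat_lit 73755) (nat_lit 8) (.e (nat_lit 557090) (nat_lit 12) (.e (nat_lit 163842) (nat_lit 0) (.e (nat_lit 5163) (nat_lit 292) .nil))))))))) (.g (nat_lit 6) .nil .nil))))) 
(.nd (nat_lit 5) (.nd (nat_lit 6) 
(.lf (nat_lit 18966) (.g (nat_lit 3164) (.e (nat_lit 1178) (nat_lit 87) (.e (nat_lit 57854) (nat_lit 252) (.e (nat_lit 57373) (nat_lit 2) (.e (nat_lit 90128) (nat_lit 9) (.e (nat_lit 297) (nat_lit 22) (.e (nat_lit 344119) (nat_lit 21) (.e (nat_lit 516131) (nat_lit 3) (.e (nat_lit 221212) (nat_lit 22) (.e (nat_lit 196632) (nat_lit 9) .nil))))))))) (.g (nat_lit 5) .nil .nil))) 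
(.lf (nat_lit 19030) (.g (nat_lit 2835) (.e (nat_lit 1179) (nat_lit 87) (.e (nat_lit 57479) (nat_lit 28) (.e (nat_lit 557105) (nat_lit 14) (.e (nat_lit 180251) (nat_lit 10) (.e (nat_lit 573487) (nat_lit 14) (.e (nat_lit 73746) (nat_lit 3) (.e (nat_lit 516117) (nat_lit 1) (.e (nat_lit 164169) (nat_lit 152) .nil)))))))) (.g (nat_lit 4) .nil .nil)))) (.nd (nat_lit 6) 
(.lf (nat_lit 18998) (.g (nat_lit 3702) (.e (nat_lit 1178) (nat_lit 87) (.e (nat_lit 57930) (nat_lit 282) (.e (nat_lit 163869) (nat_lit 2) (.e (nat_lit 196670) (nat_lit 14) (.e (nat_lit 73746) (nat_lit 3) (.e (nat_lit 516131) (nat_lit 3) (.e (nat_lit 221212) (nat_lit 22) (.e (nat_lit 196632) (nat_lit 9) .nil)))))))) (.g (nat_lit 0) .nil .nil))) 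
(.lf (nat_lit 19062) (.g (nat_lit 2066) (.e (nat_lit 1179) (nat_lit 87) (.e (nat_lit 57480) (nat_lit 28) (.e (nat_lit 557098) (nat_lit 13) (.e (nat_lit 172115) (nat_lit 10) (.e (nat_lit 434244) (nat_lit 28) .nil))))) .nil))))) (.nd (nat_lit 4) (.nd (nat_lit 5) (.nd (nat_lit 6) 
(.lf (nat_lit 18958) (.g (nat_lit 2347) (.e (nat_lit 1178) (nat_lit 87) (.e (nat_lit 57849) (nat_lit 252) (.e (nat_lit 57435) (nat_lit 17) (.e (nat_lit 376842) (nat_lit 11) (.e (nat_lit 426306) (nat_lit 12) .nil))))) .nil)) 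
(.lf (nat_lit 19022) (.g (nat_lit 2440) (.e (nat_lit 1179) (nat_lit 87) (.e (nat_lit 57479) (nat_lit 28) (.e (nat_lit 557101) (nat_lit 13) (.e (nat_lit 172097) (nat_lit 9) (.e (nat_lit 426125) (nat_lit 2) .nil))))) .nil))) (.nd (nat_lit 6) 
(.lf (nat_lit 18990) (.g (nat_lit 1296) (.e (nat_lit 1178) (nat_lit 87) (.e (nat_lit 57854) (nat_lit 252) (.e (nat_lit 57445) (nat_lit 19) (.e (nat_lit 401152) (nat_lit 11) .nil)))) .nil)) 
(.lf (nat_lit 19054) (.g (nat_lit 4685) (.e (nat_lit 1179) (nat_lit 87) (.e (nat_lit 57479) (nat_lit 28) (.e (nat_lit 557105) (nat_lit 14) (.e (nat_lit 180252) (nat_lit 10) (.e (nat_lit 573489) (nat_lit 14) (.e (nat_lit 73755) (nat_lit 8) (.e (nat_lit 557090) (nat_lit 12) (.e (nat_lit 163851) (nat_lit 0) (.e (nat_lit 5176) (nat_lit 292) .nil))))))))) (.g (nat_lit 9) .nil .nil))))) 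
(.nd (nat_lit 5) (.nd (nat_lit 6) 
(.lf (nat_lit 18974) (.g (nat_lit 1667) (.e (nat_lit 1178) (nat_lit 87) (.e (nat_lit 57854) (nat_lit 252) (.e (nat_lit 57409) (nat_lit 12) (.e (nat_lit 336211) (nat_lit 13) .nil)))) .nil)) 
(.lf (nat_lit 19038) (.g (nat_lit 3673) (.e (nat_lit 1179) (nat_lit 87) (.e (nat_lit 57479) (nat_lit 28) (.e (nat_lit 557105) (nat_lit 14) (.e (nat_lit 180252) (nat_lit 10) (.e (nat_lit 573489) (nat_lit 14) (.e (nat_lit 73755) (nat_lit 8) (.e (nat_lit 557083) (nat_lit 10) (.e (nat_lit 8287) (nat_lit 51) (.e (nat_lit 6329) (nat_lit 337) .nil))))))))) (.g (nat_lit 7) .nil .nil)))) (.nd (nat_lit 6) 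
(.lf (nat_lit 19006) (.g (nat_lit 2277) (.e (nat_lit 1179) (nat_lit 87) (.e (nat_lit 57479) (nat_lit 28) (.e (nat_lit 557100) (nat_lit 13) (.e (nat_lit 172106) (nat_lit 10) (.e (nat_lit 434231) (nat_lit 23) .nil))))) .nil)) 
(.lf (nat_lit 19070) (.g (nat_lit 1445) (.e (nat_lit 1179) (nat_lit 87) (.e (nat_lit 57480) (nat_lit 28) (.e (nat_lit 557108) (nat_lit 15) (.e (nat_lit 196352) (nat_lit 19) .nil)))) .nil)))))))) (.nd (nat_lit 1) (.nd (nat_lit 2) (.nd (nat_lit 3) (.nd (nat_lit 4) (.nd (nat_lit 5) (.nd (nat_lit 6) 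
(.lf (nat_lit 18945) (.g (nat_lit 1390) (.e (nat_lit 1178) (nat_lit 87) (.e (nat_lit 57847) (nat_lit 252) (.e (nat_lit 57411) (nat_lit 12) (.e (nat_lit 336211) (nat_lit 13) .nil)))) .nil)) 
(.lf (nat_lit 19009) (.g (nat_lit 2523) (.e (nat_lit 1179) (nat_lit 87) (.e (nat_lit 57479) (nat_lit 28) (.e (nat_lit 557100) (nat_lit 13) (.e (nat_lit 172106) (nat_lit 10) (.e (nat_lit 434231) (nat_lit 23) (.e (nat_lit 532535) (nat_lit 9) (.e (nat_lit 336295) (nat_lit 15) (.e (nat_lit 2443) (nat_lit 157) (.e (nat_lit 7421) (nat_lit 396) .nil))))))))) (.g (nat_lit 4) .nil .nil)))) 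
(.nd (nat_lit 6) 
(.lf (nat_lit 18977) (.g (nat_lit 3009) (.e (nat_lit 1178) (nat_lit 87) (.e (nat_lit 57854) (nat_lit 252) (.e (nat_lit 57409) (nat_lit 12) (.e (nat_lit 336360) (nat_lit 25) (.e (nat_lit 409649) (nat_lit 18) (.e (nat_lit 303140) (nat_lit 10) (.e (nat_lit 434286) (nat_lit 42) (.e (nat_lit 688157) (nat_lit 13) .nil)))))))) (.g (nat_lit 5) .nil .nil))) 
(.lf (nat_lit 19041) (.g (nat_lit 3374) (.e (nat_lit 1179) (nat_lit 87) (.e (nat_lit 57479) (nat_lit 28) (.e (nat_lit 557105) (nat_lit 14) (.e (nat_lit 180252) (nat_lit 10) (.e (nat_lit 573489) (nat_lit 14) (.e (nat_lit 73755) (nat_lit 8) (.e (nat_lit 557090) (nat_lit 12) (.e (nat_lit 163841) (nat_lit 0) (.e (nat_lit 5137) (nat_lit 292) .nil))))))))) (.g (nat_lit 7) .nil .nil))))) 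
(.nd (nat_lit 5) (.nd (nat_lit 6) 
(.lf (nat_lit 18961) (.g (nat_lit 2495) (.e (nat_lit 1178) (nat_lit 87) (.e (nat_lit 57849) (nat_lit 252) (.e (nat_lit 57437) (nat_lit 17) (.e (nat_lit 376842) (nat_lit 11) (.e (nat_lit 426306) (nat_lit 12) .nil))))) .nil)) 
(.lf (nat_lit 19025) (.g (nat_lit 2332) (.e (nat_lit 1179) (nat_lit 87) (.e (nat_lit 57479) (nat_lit 28) (.e (nat_lit 557101) (nat_lit 13) (.e (nat_lit 172115) (nat_lit 10) (.e (nat_lit 434231) (nat_lit 23) .nil))))) .nil))) (.nd (nat_lit 6) 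
(.lf (nat_lit 18993) (.g (nat_lit 951) (.e (nat_lit 1178) (nat_lit 87) (.e (nat_lit 57854) (nat_lit 252) (.e (nat_lit 57446) (nat_lit 19) (.e (nat_lit 401152) (nat_lit 11) .nil)))) .nil)) 
(.lf (nat_lit 19057) (.g (nat_lit 1963) (.e (nat_lit 1179) (nat_lit 87) (.e (nat_lit 57479) (nat_lit 28) (.e (nat_lit 557109) (nat_lit 15) (.e (nat_lit 196352) (nat_lit 18) .nil)))) .nil))))) (.nd (nat_lit 4) (.nd (nat_lit 5) (.nd (nat_lit 6) 
(.lf (nat_lit 18953) (.g (nat_lit 814) (.e (nat_lit 1178) (nat_lit 87) (.e (nat_lit 57849) (nat_lit 252) (.e (nat_lit 57407) (nat_lit 12) .nil))) .nil)) 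
(.lf (nat_lit 19017) (.g (nat_lit 2333) (.e (nat_lit 1179) (nat_lit 87) (.e (nat_lit 57479) (nat_lit 28) (.e (nat_lit 557100) (nat_lit 13) (.e (nat_lit 172106) (nat_lit 10) (.e (nat_lit 434231) (nat_lit 23) (.e (nat_lit 532543) (nat_lit 10) (.e (nat_lit 344097) (nat_lit 18) (.e (nat_lit 5874) (nat_lit 320) .nil)))))))) (.g (nat_lit 4) .nil .nil)))) (.nd (nat_lit 6) 
(.lf (nat_lit 18985) (.g (nat_lit 2172) (.e (nat_lit 1178) (nat_lit 87) (.e (nat_lit 57854) (nat_lit 252) (.e (nat_lit 57436) (nat_lit 17) (.e (nat_lit 376842) (nat_lit 11) (.e (nat_lit 426298) (nat_lit 11) (.e (nat_lit 458804) (nat_lit 38) (.e (nat_lit 655390) (nat_lit 9) .nil))))))) (.g (nat_lit 5) .nil .nil))) 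
(.lf (nat_lit 19049) (.g (nat_lit 4086) (.e (nat_lit 1179) (nat_lit 87) (.e (nat_lit 57479) (nat_lit 28) (.e (nat_lit 557105) (nat_lit 14) (.e (nat_lit 180252) (nat_lit 10) (.e (nat_lit 573489) (nat_lit 14) (.e (nat_lit 73755) (nat_lit 8) (.e (nat_lit 557090) (nat_lit 12) (.e (nat_lit 163844) (nat_lit 0) (.e (nat_lit 5137) (nat_lit 292) .nil))))))))) (.g (nat_lit 9) .nil .nil))))) 
(.nd (nat_lit 5) (.nd (nat_lit 6) 
(.lf (nat_lit 18969) (.g (nat_lit 3640) (.e (nat_lit 1178) (nat_lit 87) (.e (nat_lit 57854) (nat_lit 252) (.e (nat_lit 57373) (nat_lit 2) (.e (nat_lit 90160) (nat_lit 11) (.e (nat_lit 24607) (nat_lit 3) .nil))))) .nil)) 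
(.lf (nat_lit 19033) (.g (nat_lit 3448) (.e (nat_lit 1179) (nat_lit 87) (.e (nat_lit 57479) (nat_lit 28) (.e (nat_lit 557105) (nat_lit 14) (.e (nat_lit 180252) (nat_lit 10) (.e (nat_lit 573487) (nat_lit 14) (.e (nat_lit 73747) (nat_lit 3) (.e (nat_lit 516119) (nat_lit 1) (.e (nat_lit 171776) (nat_lit 152) .nil)))))))) (.g (nat_lit 5) .nil .nil)))) (.nd (nat_lit 6) 
(.lf (nat_lit 19001) (.g (nat_lit 2358) (.e (nat_lit 1178) (nat_lit 87) (.e (nat_lit 57931) (nat_lit 282) (.e (nat_lit 163869) (nat_lit 2) (.e (nat_lit 196670) (nat_lit 14) (.e (nat_lit 73746) (nat_lit 3) .nil))))) .nil)) 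
(.lf (nat_lit 19065) (.g (nat_lit 2482) (.e (nat_lit 1179) (nat_lit 87) (.e (nat_lit 57480) (nat_lit 28) (.e (nat_lit 557105) (nat_lit 14) (.e (nat_lit 180252) (nat_lit 10) (.e (nat_lit 573488) (nat_lit 14) (.e (nat_lit 73747) (nat_lit 3) (.e (nat_lit 516119) (nat_lit 1) (.e (nat_lit 171776) (nat_lit 152) .nil)))))))) (.g (nat_lit 4) .nil .nil))))))) 
(.nd (nat_lit 3) (.nd (nat_lit 4) (.nd (nat_lit 5) (.nd (nat_lit 6) 
(.lf (nat_lit 18949) (.g (nat_lit 1923) (.e (nat_lit 1178) (nat_lit 87) (.e (nat_lit 57849) (nat_lit 252) (.e (nat_lit 57372) (nat_lit 2) (.e (nat_lit 90128) (nat_lit 9) .nil)))) .nil)) 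
(.lf (nat_lit 19013) (.g (nat_lit 2524) (.e (nat_lit 1179) (nat_lit 87) (.e (nat_lit 57479) (nat_lit 28) (.e (nat_lit 557100) (nat_lit 13) (.e (nat_lit 172106) (nat_lit 10) (.e (nat_lit 434231) (nat_lit 23) (.e (nat_lit 532535) (nat_lit 9) (.e (nat_lit 336295) (nat_lit 15) (.e (nat_lit 2445) (nat_lit 157) (.e (nat_lit 7421) (nat_lit 396) .nil))))))))) (.g (nat_lit 4) .nil .nil)))) 
(.nd (nat_lit 6) 
(.lf (nat_lit 18981) (.g (nat_lit 1827) (.e (nat_lit 1178) (nat_lit 87) (.e (nat_lit 57854) (nat_lit 252) (.e (nat_lit 57435) (nat_lit 17) (.e (nat_lit 376842) (nat_lit 11) (.e (nat_lit 426306) (nat_lit 12) .nil))))) .nil)) 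
(.lf (nat_lit 19045) (.g (nat_lit 2769) (.e (nat_lit 1179) (nat_lit 87) (.e (nat_lit 57479) (nat_lit 28) (.e (nat_lit 557105) (nat_lit 14) (.e (nat_lit 180252) (nat_lit 10) (.e (nat_lit 573489) (nat_lit 14) (.e (nat_lit 73755) (nat_lit 8) (.e (nat_lit 557090) (nat_lit 12) (.e (nat_lit 163842) (nat_lit 0) (.e (nat_lit 5143) (nat_lit 292) .nil))))))))) (.g (nat_lit 6) .nil .nil))))) 
(.nd (nat_lit 5) (.nd (nat_lit 6) 
(.lf (nat_lit 18965) (.g (nat_lit 2088) (.e (nat_lit 1178) (nat_lit 87) (.e (nat_lit 57854) (nat_lit 252) (.e (nat_lit 57373) (nat_lit 2) (.e (nat_lit 90128) (nat_lit 9) .nil)))) .nil)) 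
(.lf (nat_lit 19029) (.g (nat_lit 2088) (.e (nat_lit 1179) (nat_lit 87) (.e (nat_lit 57479) (nat_lit 28) (.e (nat_lit 557105) (nat_lit 14) (.e (nat_lit 180251) (nat_lit 10) (.e (nat_lit 573485) (nat_lit 13) .nil))))) .nil))) (.nd (nat_lit 6) 
(.lf (nat_lit 18997) (.g (nat_lit 4001) (.e (nat_lit 1178) (nat_lit 87) (.e (nat_lit 57930) (nat_lit 282) (.e (nat_lit 163867) (nat_lit 2) (.e (nat_lit 196670) (nat_lit 14) (.e (nat_lit 73746) (nat_lit 3) (.e (nat_lit 516131) (nat_lit 3) (.e (nat_lit 221212) (nat_lit 22) (.e (nat_lit 196632) (nat_lit 9) .nil)))))))) (.g (nat_lit 8) .nil .nil))) 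
(.lf (nat_lit 19061) (.g (nat_lit 2607) (.e (nat_lit 1179) (nat_lit 87) (.e (nat_lit 57480) (nat_lit 28) (.e (nat_lit 557098) (nat_lit 13) (.e (nat_lit 172097) (nat_lit 9) (.e (nat_lit 426140) (nat_lit 3) (.e (nat_lit 204863) (nat_lit 27) (.e (nat_lit 344091) (nat_lit 18) (.e (nat_lit 5875) (nat_lit 320) .nil)))))))) (.g (nat_lit 4) .nil .nil)))))) 
(.nd (nat_lit 4) (.nd (nat_lit 5) (.nd (nat_lit 6) 
(.lf (nat_lit 18957) (.g (nat_lit 1519) (.e (nat_lit 1178) (nat_lit 87) (.e (nat_lit 57849) (nat_lit 252) (.e (nat_lit 57435) (nat_lit 17) (.e (nat_lit 376842) (nat_lit 11) .nil)))) .nil)) 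
(.lf (nat_lit 19021) (.g (nat_lit 4276) (.e (nat_lit 1179) (nat_lit 87) (.e (nat_lit 57479) (nat_lit 28) (.e (nat_lit 557100) (nat_lit 13) (.e (nat_lit 172113) (nat_lit 10) (.e (nat_lit 434245) (nat_lit 28) .nil))))) .nil))) (.nd (nat_lit 6) 
(.lf (nat_lit 18989) (.g (nat_lit 653) (.e (nat_lit 1178) (nat_lit 87) (.e (nat_lit 57854) (nat_lit 252) (.e (nat_lit 57445) (nat_lit 19) .nil))) .nil)) 
(.lf (nat_lit 19053) (.g (nat_lit 4871) (.e (nat_lit 1179) (nat_lit 87) (.e (nat_lit 57479) (nat_lit 28) (.e (nat_lit 557105) (nat_lit 14) (.e (nat_lit 180252) (nat_lit 10) (.e (nat_lit 573489) (nat_lit 14) (.e (nat_lit 73755) (nat_lit 8) (.e (nat_lit 557090) (nat_lit 12) (.e (nat_lit 163850) (nat_lit 0) (.e (nat_lit 5176) (nat_lit 292) .nil))))))))) (.g (nat_lit 9) .nil .nil))))) 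
(.nd (nat_lit 5) (.nd (nat_lit 6) 
(.lf (nat_lit 18973) (.g (nat_lit 1922) (.e (nat_lit 1178) (nat_lit 87) (.e (nat_lit 57854) (nat_lit 252) (.e (nat_lit 57409) (nat_lit 12) (.e (nat_lit 336115) (nat_lit 9) .nil)))) .nil)) 
(.lf (nat_lit 19037) (.g (nat_lit 3006) (.e (nat_lit 1179) (nat_lit 87) (.e (nat_lit 57479) (nat_lit 28) (.e (nat_lit 557105) (nat_lit 14) (.e (nat_lit 180252) (nat_lit 10) (.e (nat_lit 573489) (nat_lit 14) (.e (nat_lit 73748) (nat_lit 3) (.e (nat_lit 516115) (nat_lit 1) (.e (nat_lit 171776) (nat_lit 152) .nil)))))))) (.g (nat_lit 5) .nil .nil)))) (.nd (nat_lit 6) 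
(.lf (nat_lit 19005) (.g (nat_lit 2551) (.e (nat_lit 1179) (nat_lit 87) (.e (nat_lit 57478) (nat_lit 28) (.e (nat_lit 557109) (nat_lit 15) (.e (nat_lit 188452) (nat_lit 23) (.e (nat_lit 204863) (nat_lit 27) (.e (nat_lit 344096) (nat_lit 18) (.e (nat_lit 5872) (nat_lit 320) .nil))))))) (.g (nat_lit 4) .nil .nil))) 
(.lf (nat_lit 19069) (.g (nat_lit 2475) (.e (nat_lit 1179) (nat_lit 87) (.e (nat_lit 57480) (nat_lit 28) (.e (nat_lit 557107) (nat_lit 15) (.e (nat_lit 188450) (nat_lit 23) (.e (nat_lit 204863) (nat_lit 27) (.e (nat_lit 344096) (nat_lit 18) (.e (nat_lit 5872) (nat_lit 320) .nil))))))) (.g (nat_lit 4) .nil .nil)))))))) 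
(.nd (nat_lit 2) (.nd (nat_lit 3) (.nd (nat_lit 4) (.nd (nat_lit 5) (.nd (nat_lit 6) 
(.lf (nat_lit 18947) (.g (nat_lit 1077) (.e (nat_lit 1178) (nat_lit 87) (.e (nat_lit 57847) (nat_lit 252) (.e (nat_lit 57435) (nat_lit 17) (.e (nat_lit 376842) (nat_lit 11) .nil)))) .nil)) 
(.lf (nat_lit 19011) (.g (nat_lit 2852) (.e (nat_lit 1179) (nat_lit 87) (.e (nat_lit 57479) (nat_lit 28) (.e (nat_lit 557100) (nat_lit 13) (.e (nat_lit 172106) (nat_lit 10) (.e (nat_lit 434231) (nat_lit 23) (.e (nat_lit 532535) (nat_lit 9) (.e (nat_lit 336295) (nat_lit 15) (.e (nat_lit 2443) (nat_lit 157) (.e (nat_lit 7462) (nat_lit 396) .nil))))))))) (.g (nat_lit 4) .nil .nil)))) 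
(.nd (nat_lit 6) 
(.lf (nat_lit 18979) (.g (nat_lit 1784) (.e (nat_lit 1178) (nat_lit 87) (.e (nat_lit 57854) (nat_lit 252) (.e (nat_lit 57435) (nat_lit 17) (.e (nat_lit 376842) (nat_lit 11) (.e (nat_lit 426298) (nat_lit 11) .nil))))) .nil)) 
(.lf (nat_lit 19043) (.g (nat_lit 4233) (.e (nat_lit 1179) (nat_lit 87) (.e (nat_lit 57479) (nat_lit 28) (.e (nat_lit 557105) (nat_lit 14) (.e (nat_lit 180252) (nat_lit 10) (.e (nat_lit 573489) (nat_lit 14) (.e (nat_lit 73755) (nat_lit 8) (.e (nat_lit 557090) (nat_lit 12) (.e (nat_lit 163842) (nat_lit 0) (.e (nat_lit 5129) (nat_lit 292) .nil))))))))) (.g (nat_lit 8) .nil .nil))))) 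
(.nd (nat_lit 5) (.nd (nat_lit 6) 
(.lf (nat_lit 18963) (.g (nat_lit 738) (.e (nat_lit 1178) (nat_lit 87) (.e (nat_lit 57852) (nat_lit 252) (.e (nat_lit 57445) (nat_lit 19) .nil))) .nil)) 
(.lf (nat_lit 19027) (.g (nat_lit 3548) (.e (nat_lit 1179) (nat_lit 87) (.e (nat_lit 57479) (nat_lit 28) (.e (nat_lit 557103) (nat_lit 14) (.e (nat_lit 180250) (nat_lit 10) (.e (nat_lit 573487) (nat_lit 14) (.e (nat_lit 73746) (nat_lit 3) (.e (nat_lit 516117) (nat_lit 1) (.e (nat_lit 164170) (nat_lit 152) .nil)))))))) (.g (nat_lit 5) .nil .nil)))) (.nd (nat_lit 6) 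
(.lf (nat_lit 18995) (.g (nat_lit 1464) (.e (nat_lit 1178) (nat_lit 87) (.e (nat_lit 57854) (nat_lit 252) (.e (nat_lit 57447) (nat_lit 19) (.e (nat_lit 401152) (nat_lit 12) .nil)))) .nil)) 
(.lf (nat_lit 19059) (.g (nat_lit 2196) (.e (nat_lit 1179) (nat_lit 87) (.e (nat_lit 57479) (nat_lit 28) (.e (nat_lit 557109) (nat_lit 15) (.e (nat_lit 188461) (nat_lit 26) .nil)))) .nil))))) (.nd (nat_lit 4) (.nd (nat_lit 5) (.nd (nat_lit 6) 
(.lf (nat_lit 18955) (.g (nat_lit 1855) (.e (nat_lit 1178) (nat_lit 87) (.e (nat_lit 57849) (nat_lit 252) (.e (nat_lit 57411) (nat_lit 12) (.e (nat_lit 336211) (nat_lit 13) .nil)))) .nil)) 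
(.lf (nat_lit 19019) (.g (nat_lit 2356) (.e (nat_lit 1179) (nat_lit 87) (.e (nat_lit 57479) (nat_lit 28) (.e (nat_lit 557100) (nat_lit 13) (.e (nat_lit 172106) (nat_lit 10) (.e (nat_lit 434231) (nat_lit 23) (.e (nat_lit 532544) (nat_lit 10) (.e (nat_lit 344092) (nat_lit 18) (.e (nat_lit 5875) (nat_lit 320) .nil)))))))) (.g (nat_lit 4) .nil .nil)))) (.nd (nat_lit 6) 
(.lf (nat_lit 18987) (.g (nat_lit 2431) (.e (nat_lit 1178) (nat_lit 87) (.e (nat_lit 57854) (nat_lit 252) (.e (nat_lit 57436) (nat_lit 17) (.e (nat_lit 376842) (nat_lit 11) (.e (nat_lit 426306) (nat_lit 12) (.e (nat_lit 475201) (nat_lit 40) (.e (nat_lit 704620) (nat_lit 9) .nil))))))) (.g (nat_lit 5) .nil .nil))) 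
(.lf (nat_lit 19051) (.g (nat_lit 3614) (.e (nat_lit 1179) (nat_lit 87) (.e (nat_lit 57479) (nat_lit 28) (.e (nat_lit 557105) (nat_lit 14) (.e (nat_lit 180252) (nat_lit 10) (.e (nat_lit 573489) (nat_lit 14) (.e (nat_lit 73755) (nat_lit 8) (.e (nat_lit 557090) (nat_lit 12) (.e (nat_lit 163845) (nat_lit 0) (.e (nat_lit 5177) (nat_lit 292) .nil))))))))) (.g (nat_lit 7) .nil .nil))))) 
(.nd (nat_lit 5) (.nd (nat_lit 6) 
(.lf (nat_lit 18971) (.g (nat_lit 1769) (.e (nat_lit 1178) (nat_lit 87) (.e (nat_lit 57854) (nat_lit 252) (.e (nat_lit 57378) (nat_lit 3) (.e (nat_lit 106240) (nat_lit 10) .nil)))) .nil)) 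
(.lf (nat_lit 19035) (.g (nat_lit 4090) (.e (nat_lit 1179) (nat_lit 87) (.e (nat_lit 57479) (nat_lit 28) (.e (nat_lit 557105) (nat_lit 14) (.e (nat_lit 180252) (nat_lit 10) (.e (nat_lit 573488) (nat_lit 14) (.e (nat_lit 73747) (nat_lit 3) (.e (nat_lit 516117) (nat_lit 1) (.e (nat_lit 164169) (nat_lit 152) .nil)))))))) (.g (nat_lit 5) .nil .nil)))) (.nd (nat_lit 6) 
(.lf (nat_lit 19003) (.g (nat_lit 3751) (.e (nat_lit 1179) (nat_lit 87) (.e (nat_lit 57478) (nat_lit 28) (.e (nat_lit 557109) (nat_lit 15) (.e (nat_lit 188449) (nat_lit 22) (.e (nat_lit 196670) (nat_lit 14) .nil))))) .nil)) 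
(.lf (nat_lit 19067) (.g (nat_lit 1605) (.e (nat_lit 1179) (nat_lit 87) (.e (nat_lit 57480) (nat_lit 28) (.e (nat_lit 557107) (nat_lit 15) (.e (nat_lit 188450) (nat_lit 23) .nil)))) .nil)))))) (.nd (nat_lit 3) (.nd (nat_lit 4) (.nd (nat_lit 5) (.nd (nat_lit 6) 
(.lf (nat_lit 18951) (.g (nat_lit 1908) (.e (nat_lit 1178) (nat_lit 87) (.e (nat_lit 57849) (nat_lit 252) (.e (nat_lit 57377) (nat_lit 3) (.e (nat_lit 106240) (nat_lit 10) .nil)))) .nil)) 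
(.lf (nat_lit 19015) (.g (nat_lit 2316) (.e (nat_lit 1179) (nat_lit 87) (.e (nat_lit 57479) (nat_lit 28) (.e (nat_lit 557100) (nat_lit 13) (.e (nat_lit 172106) (nat_lit 10) (.e (nat_lit 434231) (nat_lit 23) (.e (nat_lit 532543) (nat_lit 10) (.e (nat_lit 344090) (nat_lit 18) (.e (nat_lit 5920) (nat_lit 320) .nil)))))))) (.g (nat_lit 4) .nil .nil)))) (.nd (nat_lit 6) 
(.lf (nat_lit 18983) (.g (nat_lit 1260) (.e (nat_lit 1178) (nat_lit 87) (.e (nat_lit 57854) (nat_lit 252) (.e (nat_lit 57435) (nat_lit 17) (.e (nat_lit 384768) (nat_lit 14) .nil)))) .nil)) 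
(.lf (nat_lit 19047) (.g (nat_lit 4233) (.e (nat_lit 1179) (nat_lit 87) (.e (nat_lit 57479) (nat_lit 28) (.e (nat_lit 557105) (nat_lit 14) (.e (nat_lit 180252) (nat_lit 10) (.e (nat_lit 573489) (nat_lit 14) (.e (nat_lit 73755) (nat_lit 8) (.e (nat_lit 557090) (nat_lit 12) (.e (nat_lit 163842) (nat_lit 0) (.e (nat_lit 5167) (nat_lit 292) .nil))))))))) (.g (nat_lit 8) .nil .nil))))) 
(.nd (nat_lit 5) (.nd (nat_lit 6) 
(.lf (nat_lit 18967) (.g (nat_lit 2642) (.e (nat_lit 1178) (nat_lit 87) (.e (nat_lit 57854) (nat_lit 252) (.e (nat_lit 57373) (nat_lit 2) (.e (nat_lit 90133) (nat_lit 9) .nil)))) .nil)) 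
(.lf (nat_lit 19031) (.g (nat_lit 1227) (.e (nat_lit 1179) (nat_lit 87) (.e (nat_lit 57479) (nat_lit 28) (.e (nat_lit 557105) (nat_lit 14) (.e (nat_lit 180252) (nat_lit 10) .nil)))) .nil))) (.nd (nat_lit 6) 
(.lf (nat_lit 18999) (.g (nat_lit 2174) (.e (nat_lit 1178) (nat_lit 87) (.e (nat_lit 57931) (nat_lit 282) (.e (nat_lit 163867) (nat_lit 2) (.e (nat_lit 196670) (nat_lit 14) (.e (nat_lit 73746) (nat_lit 3) .nil))))) .nil)) 
(.lf (nat_lit 19063) (.g (nat_lit 2614) (.e (nat_lit 1179) (nat_lit 87) (.e (nat_lit 57480) (nat_lit 28) (.e (nat_lit 557105) (nat_lit 14) (.e (nat_lit 180252) (nat_lit 10) (.e (nat_lit 573487) (nat_lit 14) (.e (nat_lit 73747) (nat_lit 3) (.e (nat_lit 516117) (nat_lit 1) (.e (nat_lit 164170) (nat_lit 152) .nil)))))))) (.g (nat_lit 4) .nil .nil)))))) 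
(.nd (nat_lit 4) (.nd (nat_lit 5) (.nd (nat_lit 6) 
(.lf (nat_lit 18959) (.g (nat_lit 836) (.e (nat_lit 1178) (nat_lit 87) (.e (nat_lit 57849) (nat_lit 252) (.e (nat_lit 57437) (nat_lit 17) .nil))) .nil)) 
(.lf (nat_lit 19023) (.g (nat_lit 2439) (.e (nat_lit 1179) (nat_lit 87) (.e (nat_lit 57479) (nat_lit 28) (.e (nat_lit 557101) (nat_lit 13) (.e (nat_lit 172097) (nat_lit 9) (.e (nat_lit 426140) (nat_lit 3) .nil))))) .nil))) (.nd (nat_lit 6) 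
(.lf (nat_lit 18991) (.g (nat_lit 1296) (.e (nat_lit 1178) (nat_lit 87) (.e (nat_lit 57854) (nat_lit 252) (.e (nat_lit 57445) (nat_lit 19) (.e (nat_lit 401152) (nat_lit 12) .nil)))) .nil)) 
(.lf (nat_lit 19055) (.g (nat_lit 828) (.e (nat_lit 1179) (nat_lit 87) (.e (nat_lit 57479) (nat_lit 28) (.e (nat_lit 557107) (nat_lit 15) .nil))) .nil)))) (.nd (nat_lit 5) (.nd (nat_lit 6) 
(.lf (nat_lit 18975) (.g (nat_lit 2469) (.e (nat_lit 1178) (nat_lit 87) (.e (nat_lit 57854) (nat_lit 252) (.e (nat_lit 57409) (nat_lit 12) (.e (nat_lit 336211) (nat_lit 13) (.e (nat_lit 393291) (nat_lit 26) (.e (nat_lit 475201) (nat_lit 40) (.e (nat_lit 704620) (nat_lit 9) .nil))))))) (.g (nat_lit 5) .nil .nil))) 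
(.lf (nat_lit 19039) (.g (nat_lit 2140) (.e (nat_lit 1179) (nat_lit 87) (.e (nat_lit 57479) (nat_lit 28) (.e (nat_lit 557105) (nat_lit 14) (.e (nat_lit 180252) (nat_lit 10) (.e (nat_lit 573489) (nat_lit 14) (.e (nat_lit 73755) (nat_lit 8) (.e (nat_lit 557090) (nat_lit 12) (.e (nat_lit 163840) (nat_lit 0) (.e (nat_lit 5162) (nat_lit 292) .nil))))))))) (.g (nat_lit 5) .nil .nil)))) (.nd (nat_lit 6) 
(.lf (nat_lit 19007) (.g (nat_lit 2419) (.e (nat_lit 1179) (nat_lit 87) (.e (nat_lit 57479) (nat_lit 28) (.e (nat_lit 557100) (nat_lit 13) (.e (nat_lit 172106) (nat_lit 10) (.e (nat_lit 434231) (nat_lit 23) (.e (nat_lit 532529) (nat_lit 9) (.e (nat_lit 336242) (nat_lit 15) (.e (nat_lit 2521) (nat_lit 157) (.e (nat_lit 7431) (nat_lit 396) .nil))))))))) (.g (nat_lit 4) .nil .nil))) 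
(.lf (nat_lit 19071) (.g (nat_lit 2914) (.e (nat_lit 1179) (nat_lit 87) (.e (nat_lit 57480) (nat_lit 28) (.e (nat_lit 557108) (nat_lit 15) (.e (nat_lit 188446) (nat_lit 21) (.e (nat_lit 164178) (nat_lit 154) .nil))))) .nil)))))))))

noncomputable def tv263 : DT := (.nd (nat_lit 0) (.nd (nat_lit 1) (.nd (nat_lit 2) (.nd (nat_lit 3) (.nd (nat_lit 4) (.nd (nat_lit 5) 
(.lf (nat_lit 19072) (.g (nat_lit 6272) (.e (nat_lit 1179) (nat_lit 87) (.e (nat_lit 57480) (nat_lit 28) (.e (nat_lit 557108) (nat_lit 15) (.e (nat_lit 188449) (nat_lit 22) (.e (nat_lit 196670) (nat_lit 14) .nil))))) .nil)) 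
(.lf (nat_lit 19104) (.g (nat_lit 3725) (.e (nat_lit 1179) (nat_lit 87) (.e (nat_lit 57480) (nat_lit 28) (.e (nat_lit 557108) (nat_lit 15) (.e (nat_lit 188452) (nat_lit 23) (.e (nat_lit 204852) (nat_lit 26) (.e (nat_lit 336258) (nat_lit 15) (.e (nat_lit 2467) (nat_lit 157) (.e (nat_lit 7423) (nat_lit 396) .nil)))))))) (.g (nat_lit 5) .nil .nil)))) (.nd (nat_lit 5) 
(.lf (nat_lit 19088) (.g (nat_lit 3243) (.e (nat_lit 1179) (nat_lit 87) (.e (nat_lit 57480) (nat_lit 28) (.e (nat_lit 557108) (nat_lit 15) (.e (nat_lit 188452) (nat_lit 23) (.e (nat_lit 204852) (nat_lit 26) (.e (nat_lit 336257) (nat_lit 15) (.e (nat_lit 2432) (nat_lit 157) (.e (nat_lit 7413) (nat_lit 396) .nil)))))))) (.g (nat_lit 4) .nil .nil))) 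
(.lf (nat_lit 19120) (.g (nat_lit 3863) (.e (nat_lit 1179) (nat_lit 87) (.e (nat_lit 57480) (nat_lit 28) (.e (nat_lit 557108) (nat_lit 15) (.e (nat_lit 188452) (nat_lit 23) (.e (nat_lit 204873) (nat_lit 30) (.e (nat_lit 368662) (nat_lit 18) (.e (nat_lit 5874) (nat_lit 320) .nil))))))) (.g (nat_lit 6) .nil .nil))))) (.nd (nat_lit 4) (.nd (nat_lit 5) 
(.lf (nat_lit 19080) (.g (nat_lit 2471) (.e (nat_lit 1179) (nat_lit 87) (.e (nat_lit 57480) (nat_lit 28) (.e (nat_lit 557108) (nat_lit 15) (.e (nat_lit 188452) (nat_lit 23) (.e (nat_lit 204816) (nat_lit 17) (.e (nat_lit 6714) (nat_lit 360) (.e (nat_lit 163851) (nat_lit 0) (.e (nat_lit 4574) (nat_lit 269) .nil)))))))) (.g (nat_lit 4) .nil .nil))) 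
(.lf (nat_lit 19112) (.g (nat_lit 3527) (.e (nat_lit 1179) (nat_lit 87) (.e (nat_lit 57480) (nat_lit 28) (.e (nat_lit 557108) (nat_lit 15) (.e (nat_lit 188452) (nat_lit 23) (.e (nat_lit 204872) (nat_lit 30) (.e (nat_lit 368662) (nat_lit 18) (.e (nat_lit 5874) (nat_lit 320) .nil))))))) (.g (nat_lit 6) .nil .nil)))) (.nd (nat_lit 5) 
(.lf (nat_lit 19096) (.g (nat_lit 2990) (.e (nat_lit 1179) (nat_lit 87) (.e (nat_lit 57480) (nat_lit 28) (.e (nat_lit 557108) (nat_lit 15) (.e (nat_lit 188452) (nat_lit 23) (.e (nat_lit 204852) (nat_lit 26) (.e (nat_lit 336258) (nat_lit 15) (.e (nat_lit 2450) (nat_lit 157) (.e (nat_lit 7420) (nat_lit 396) .nil)))))))) (.g (nat_lit 4) .nil .nil))) 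
(.lf (nat_lit 19128) (.g (nat_lit 4136) (.e (nat_lit 1179) (nat_lit 87) (.e (nat_lit 57480) (nat_lit 28) (.e (nat_lit 557108) (nat_lit 15) (.e (nat_lit 188452) (nat_lit 23) (.e (nat_lit 204874) (nat_lit 30) (.e (nat_lit 368662) (nat_lit 18) (.e (nat_lit 5874) (nat_lit 320) .nil))))))) (.g (nat_lit 7) .nil .nil)))))) (.nd (nat_lit 3) (.nd (nat_lit 4) (.nd (nat_lit 5) 
(.lf (nat_lit 19076) (.g (nat_lit 2453) (.e (nat_lit 1179) (nat_lit 87) (.e (nat_lit 57480) (nat_lit 28) (.e (nat_lit 557108) (nat_lit 15) (.e (nat_lit 188452) (nat_lit 23) (.e (nat_lit 204816) (nat_lit 17) (.e (nat_lit 6712) (nat_lit 360) (.e (nat_lit 163843) (nat_lit 0) (.e (nat_lit 4622) (nat_lit 269) .nil)))))))) (.g (nat_lit 4) .nil .nil))) 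
(.lf (nat_lit 19108) (.g (nat_lit 4162) (.e (nat_lit 1179) (nat_lit 87) (.e (nat_lit 57480) (nat_lit 28) (.e (nat_lit 557108) (nat_lit 15) (.e (nat_lit 188452) (nat_lit 23) (.e (nat_lit 204852) (nat_lit 26) (.e (nat_lit 336310) (nat_lit 16) (.e (nat_lit 164250) (nat_lit 209) .nil))))))) (.g (nat_lit 7) .nil .nil)))) (.nd (nat_lit 5) 
(.lf (nat_lit 19092) (.g (nat_lit 3010) (.e (nat_lit 1179) (nat_lit 87) (.e (nat_lit 57480) (nat_lit 28) (.e (nat_lit 557108) (nat_lit 15) (.e (nat_lit 188452) (nat_lit 23) (.e (nat_lit 204852) (nat_lit 26) (.e (nat_lit 336257) (nat_lit 15) (.e (nat_lit 2446) (nat_lit 157) (.e (nat_lit 7413) (nat_lit 396) .nil)))))))) (.g (nat_lit 4) .nil .nil))) 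
(.lf (nat_lit 19124) (.g (nat_lit 3031) (.e (nat_lit 1179) (nat_lit 87) (.e (nat_lit 57480) (nat_lit 28) (.e (nat_lit 557108) (nat_lit 15) (.e (nat_lit 188452) (nat_lit 23) (.e (nat_lit 204874) (nat_lit 30) (.e (nat_lit 368660) (nat_lit 18) (.e (nat_lit 5873) (nat_lit 320) .nil))))))) (.g (nat_lit 4) .nil .nil))))) (.nd (nat_lit 4) (.nd (nat_lit 5) 
(.lf (nat_lit 19084) (.g (nat_lit 3265) (.e (nat_lit 1179) (nat_lit 87) (.e (nat_lit 57480) (nat_lit 28) (.e (nat_lit 557108) (nat_lit 15) (.e (nat_lit 188452) (nat_lit 23) (.e (nat_lit 204852) (nat_lit 26) (.e (nat_lit 336242) (nat_lit 15) (.e (nat_lit 2521) (nat_lit 157) (.e (nat_lit 7431) (nat_lit 396) .nil)))))))) (.g (nat_lit 4) .nil .nil))) 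
(.lf (nat_lit 19116) (.g (nat_lit 3325) (.e (nat_lit 1179) (nat_lit 87) (.e (nat_lit 57480) (nat_lit 28) (.e (nat_lit 557108) (nat_lit 15) (.e (nat_lit 188452) (nat_lit 23) (.e (nat_lit 204873) (nat_lit 30) (.e (nat_lit 368659) (nat_lit 18) (.e (nat_lit 5920) (nat_lit 320) .nil))))))) (.g (nat_lit 5) .nil .nil)))) (.nd (nat_lit 5) 
(.lf (nat_lit 19100) (.g (nat_lit 2904) (.e (nat_lit 1179) (nat_lit 87) (.e (nat_lit 57480) (nat_lit 28) (.e (nat_lit 557108) (nat_lit 15) (.e (nat_lit 188452) (nat_lit 23) (.e (nat_lit 204852) (nat_lit 26) (.e (nat_lit 336258) (nat_lit 15) (.e (nat_lit 2456) (nat_lit 157) (.e (nat_lit 7420) (nat_lit 396) .nil)))))))) (.g (nat_lit 4) .nil .nil))) 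
(.lf (nat_lit 19132) (.g (nat_lit 2410) (.e (nat_lit 1179) (nat_lit 87) (.e (nat_lit 57480) (nat_lit 28) (.e (nat_lit 557108) (nat_lit 15) (.e (nat_lit 188452) (nat_lit 23) (.e (nat_lit 204881) (nat_lit 32) (.e (nat_lit 385046) (nat_lit 21) (.e (nat_lit 7421) (nat_lit 396) .nil))))))) (.g (nat_lit 4) .nil .nil))))))) (.nd (nat_lit 2) (.nd (nat_lit 3) (.nd (nat_lit 4) (.nd (nat_lit 5) 
(.lf (nat_lit 19074) (.g (nat_lit 2115) (.e (nat_lit 1179) (nat_lit 87) (.e (nat_lit 57480) (nat_lit 28) (.e (nat_lit 557108) (nat_lit 15) (.e (nat_lit 188452) (nat_lit 23) (.e (nat_lit 204816) (nat_lit 17) .nil))))) .nil)) 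
(.lf (nat_lit 19106) (.g (nat_lit 3773) (.e (nat_lit 1179) (nat_lit 87) (.e (nat_lit 57480) (nat_lit 28) (.e (nat_lit 557108) (nat_lit 15) (.e (nat_lit 188452) (nat_lit 23) (.e (nat_lit 204852) (nat_lit 26) (.e (nat_lit 336258) (nat_lit 15) (.e (nat_lit 2472) (nat_lit 157) (.e (nat_lit 7423) (nat_lit 396) .nil)))))))) (.g (nat_lit 5) .nil .nil)))) (.nd (nat_lit 5) 
(.lf (nat_lit 19090) (.g (nat_lit 3118) (.e (nat_lit 1179) (nat_lit 87) (.e (nat_lit 57480) (nat_lit 28) (.e (nat_lit 557108) (nat_lit 15) (.e (nat_lit 188452) (nat_lit 23) (.e (nat_lit 204852) (nat_lit 26) (.e (nat_lit 336257) (nat_lit 15) (.e (nat_lit 2442) (nat_lit 157) (.e (nat_lit 7413) (nat_lit 396) .nil)))))))) (.g (nat_lit 4) .nil .nil))) 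
(.lf (nat_lit 19122) (.g (nat_lit 2892) (.e (nat_lit 1179) (nat_lit 87) (.e (nat_lit 57480) (nat_lit 28) (.e (nat_lit 557108) (nat_lit 15) (.e (nat_lit 188452) (nat_lit 23) (.e (nat_lit 204874) (nat_lit 30) .nil))))) .nil)))) (.nd (nat_lit 4) (.nd (nat_lit 5) 
(.lf (nat_lit 19082) (.g (nat_lit 2736) (.e (nat_lit 1179) (nat_lit 87) (.e (nat_lit 57480) (nat_lit 28) (.e (nat_lit 557108) (nat_lit 15) (.e (nat_lit 188452) (nat_lit 23) (.e (nat_lit 204851) (nat_lit 26) (.e (nat_lit 336036) (nat_lit 4) (.e (nat_lit 123190) (nat_lit 264) .nil))))))) (.g (nat_lit 4) .nil .nil))) 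
(.lf (nat_lit 19114) (.g (nat_lit 3098) (.e (nat_lit 1179) (nat_lit 87) (.e (nat_lit 57480) (nat_lit 28) (.e (nat_lit 557108) (nat_lit 15) (.e (nat_lit 188452) (nat_lit 23) (.e (nat_lit 204873) (nat_lit 30) (.e (nat_lit 368659) (nat_lit 18) (.e (nat_lit 5873) (nat_lit 320) .nil))))))) (.g (nat_lit 4) .nil .nil)))) (.nd (nat_lit 5) 
(.lf (nat_lit 19098) (.g (nat_lit 3170) (.e (nat_lit 1179) (nat_lit 87) (.e (nat_lit 57480) (nat_lit 28) (.e (nat_lit 557108) (nat_lit 15) (.e (nat_lit 188452) (nat_lit 23) (.e (nat_lit 204852) (nat_lit 26) (.e (nat_lit 336258) (nat_lit 15) (.e (nat_lit 2450) (nat_lit 157) (.e (nat_lit 7422) (nat_lit 396) .nil)))))))) (.g (nat_lit 4) .nil .nil))) 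
(.lf (nat_lit 19130) (.g (nat_lit 2676) (.e (nat_lit 1179) (nat_lit 87) (.e (nat_lit 57480) (nat_lit 28) (.e (nat_lit 557108) (nat_lit 15) (.e (nat_lit 188452) (nat_lit 23) (.e (nat_lit 204881) (nat_lit 32) (.e (nat_lit 385044) (nat_lit 21) (.e (nat_lit 7413) (nat_lit 396) .nil))))))) (.g (nat_lit 4) .nil .nil)))))) (.nd (nat_lit 3) (.nd (nat_lit 4) (.nd (nat_lit 5) 
(.lf (nat_lit 19078) (.g (nat_lit 3035) (.e (nat_lit 1179) (nat_lit 87) (.e (nat_lit 57480) (nat_lit 28) (.e (nat_lit 557108) (nat_lit 15) (.e (nat_lit 188452) (nat_lit 23) (.e (nat_lit 204816) (nat_lit 17) (.e (nat_lit 6714) (nat_lit 360) (.e (nat_lit 163843) (nat_lit 0) (.e (nat_lit 4588) (nat_lit 269) .nil)))))))) (.g (nat_lit 5) .nil .nil))) 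
(.lf (nat_lit 19110) (.g (nat_lit 2553) (.e (nat_lit 1179) (nat_lit 87) (.e (nat_lit 57480) (nat_lit 28) (.e (nat_lit 557108) (nat_lit 15) (.e (nat_lit 188452) (nat_lit 23) (.e (nat_lit 204872) (nat_lit 30) .nil))))) .nil))) (.nd (nat_lit 5) 
(.lf (nat_lit 19094) (.g (nat_lit 3707) (.e (nat_lit 1179) (nat_lit 87) (.e (nat_lit 57480) (nat_lit 28) (.e (nat_lit 557108) (nat_lit 15) (.e (nat_lit 188452) (nat_lit 23) (.e (nat_lit 204852) (nat_lit 26) (.e (nat_lit 336258) (nat_lit 15) (.e (nat_lit 2441) (nat_lit 157) (.e (nat_lit 7413) (nat_lit 396) .nil)))))))) (.g (nat_lit 5) .nil .nil))) 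
(.lf (nat_lit 19126) (.g (nat_lit 2946) (.e (nat_lit 1179) (nat_lit 87) (.e (nat_lit 57480) (nat_lit 28) (.e (nat_lit 557108) (nat_lit 15) (.e (nat_lit 188452) (nat_lit 23) (.e (nat_lit 204874) (nat_lit 30) (.e (nat_lit 368661) (nat_lit 18) (.e (nat_lit 5872) (nat_lit 320) .nil))))))) (.g (nat_lit 4) .nil .nil))))) (.nd (nat_lit 4) (.nd (nat_lit 5) 
(.lf (nat_lit 19086) (.g (nat_lit 3007) (.e (nat_lit 1179) (nat_lit 87) (.e (nat_lit 57480) (nat_lit 28) (.e (nat_lit 557108) (nat_lit 15) (.e (nat_lit 188452) (nat_lit 23) (.e (nat_lit 204852) (nat_lit 26) (.e (nat_lit 336257) (nat_lit 15) (.e (nat_lit 2426) (nat_lit 157) (.e (nat_lit 7462) (nat_lit 396) .nil)))))))) (.g (nat_lit 4) .nil .nil))) 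
(.lf (nat_lit 19118) (.g (nat_lit 3151) (.e (nat_lit 1179) (nat_lit 87) (.e (nat_lit 57480) (nat_lit 28) (.e (nat_lit 557108) (nat_lit 15) (.e (nat_lit 188452) (nat_lit 23) (.e (nat_lit 204873) (nat_lit 30) (.e (nat_lit 368660) (nat_lit 18) (.e (nat_lit 5876) (nat_lit 320) .nil))))))) (.g (nat_lit 4) .nil .nil)))) (.nd (nat_lit 5) 
(.lf (nat_lit 19102) (.g (nat_lit 3751) (.e (nat_lit 1179) (nat_lit 87) (.e (nat_lit 57480) (nat_lit 28) (.e (nat_lit 557108) (nat_lit 15) (.e (nat_lit 188452) (nat_lit 23) (.e (nat_lit 204852) (nat_lit 26) (.e (nat_lit 336258) (nat_lit 15) (.e (nat_lit 2461) (nat_lit 157) (.e (nat_lit 7423) (nat_lit 396) .nil)))))))) (.g (nat_lit 5) .nil .nil))) 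
(.lf (nat_lit 19134) (.g (nat_lit 2387) (.e (nat_lit 1179) (nat_lit 87) (.e (nat_lit 57480) (nat_lit 28) (.e (nat_lit 557108) (nat_lit 15) (.e (nat_lit 188452) (nat_lit 23) (.e (nat_lit 204881) (nat_lit 32) (.e (nat_lit 385049) (nat_lit 21) (.e (nat_lit 7423) (nat_lit 396) .nil))))))) (.g (nat_lit 4) .nil .nil)))))))) 
(.nd (nat_lit 1) (.nd (nat_lit 2) (.nd (nat_lit 3) (.nd (nat_lit 4) (.nd (nat_lit 5) 
(.lf (nat_lit 19073) (.g (nat_lit 1397) (.e (nat_lit 1179) (nat_lit 87) (.e (nat_lit 57480) (nat_lit 28) (.e (nat_lit 557108) (nat_lit 15) (.e (nat_lit 188452) (nat_lit 23) .nil)))) .nil)) 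
(.lf (nat_lit 19105) (.g (nat_lit 3132) (.e (nat_lit 1179) (nat_lit 87) (.e (nat_lit 57480) (nat_lit 28) (.e (nat_lit 557108) (nat_lit 15) (.e (nat_lit 188452) (nat_lit 23) (.e (nat_lit 204852) (nat_lit 26) (.e (nat_lit 336258) (nat_lit 15) (.e (nat_lit 2472) (nat_lit 157) (.e (nat_lit 7420) (nat_lit 396) .nil)))))))) (.g (nat_lit 4) .nil .nil)))) (.nd (nat_lit 5) 
(.lf (nat_lit 19089) (.g (nat_lit 3022) (.e (nat_lit 1179) (nat_lit 87) (.e (nat_lit 57480) (nat_lit 28) (.e (nat_lit 557108) (nat_lit 15) (.e (nat_lit 188452) (nat_lit 23) (.e (nat_lit 204852) (nat_lit 26) (.e (nat_lit 336257) (nat_lit 15) (.e (nat_lit 2432) (nat_lit 157) (.e (nat_lit 7462) (nat_lit 396) .nil)))))))) (.g (nat_lit 4) .nil .nil))) 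
(.lf (nat_lit 19121) (.g (nat_lit 3476) (.e (nat_lit 1179) (nat_lit 87) (.e (nat_lit 57480) (nat_lit 28) (.e (nat_lit 557108) (nat_lit 15) (.e (nat_lit 188452) (nat_lit 23) (.e (nat_lit 204873) (nat_lit 30) (.e (nat_lit 368663) (nat_lit 18) (.e (nat_lit 5872) (nat_lit 320) .nil))))))) (.g (nat_lit 5) .nil .nil))))) (.nd (nat_lit 4) (.nd (nat_lit 5) 
(.lf (nat_lit 19081) (.g (nat_lit 2436) (.e (nat_lit 1179) (nat_lit 87) (.e (nat_lit 57480) (nat_lit 28) (.e (nat_lit 557108) (nat_lit 15) (.e (nat_lit 188452) (nat_lit 23) (.e (nat_lit 204851) (nat_lit 26) .nil))))) .nil)) 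
(.lf (nat_lit 19113) (.g (nat_lit 2926) (.e (nat_lit 1179) (nat_lit 87) (.e (nat_lit 57480) (nat_lit 28) (.e (nat_lit 557108) (nat_lit 15) (.e (nat_lit 188452) (nat_lit 23) (.e (nat_lit 204873) (nat_lit 30) .nil))))) .nil))) (.nd (nat_lit 5) 
(.lf (nat_lit 19097) (.g (nat_lit 3156) (.e (nat_lit 1179) (nat_lit 87) (.e (nat_lit 57480) (nat_lit 28) (.e (nat_lit 557108) (nat_lit 15) (.e (nat_lit 188452) (nat_lit 23) (.e (nat_lit 204852) (nat_lit 26) (.e (nat_lit 336258) (nat_lit 15) (.e (nat_lit 2450) (nat_lit 157) (.e (nat_lit 7421) (nat_lit 396) .nil)))))))) (.g (nat_lit 4) .nil .nil))) 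
(.lf (nat_lit 19129) (.g (nat_lit 2386) (.e (nat_lit 1179) (nat_lit 87) (.e (nat_lit 57480) (nat_lit 28) (.e (nat_lit 557108) (nat_lit 15) (.e (nat_lit 188452) (nat_lit 23) (.e (nat_lit 204881) (nat_lit 32) .nil))))) .nil))))) (.nd (nat_lit 3) (.nd (nat_lit 4) (.nd (nat_lit 5) 
(.lf (nat_lit 19077) (.g (nat_lit 2363) (.e (nat_lit 1179) (nat_lit 87) (.e (nat_lit 57480) (nat_lit 28) (.e (nat_lit 557108) (nat_lit 15) (.e (nat_lit 188452) (nat_lit 23) (.e (nat_lit 204816) (nat_lit 17) (.e (nat_lit 6712) (nat_lit 360) (.e (nat_lit 163844) (nat_lit 0) (.e (nat_lit 4622) (nat_lit 269) .nil)))))))) (.g (nat_lit 4) .nil .nil))) 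
(.lf (nat_lit 19109) (.g (nat_lit 3056) (.e (nat_lit 1179) (nat_lit 87) (.e (nat_lit 57480) (nat_lit 28) (.e (nat_lit 557108) (nat_lit 15) (.e (nat_lit 188452) (nat_lit 23) (.e (nat_lit 204864) (nat_lit 27) .nil))))) .nil))) (.nd (nat_lit 5) 
(.lf (nat_lit 19093) (.g (nat_lit 3017) (.e (nat_lit 1179) (nat_lit 87) (.e (nat_lit 57480) (nat_lit 28) (.e (nat_lit 557108) (nat_lit 15) (.e (nat_lit 188452) (nat_lit 23) (.e (nat_lit 204852) (nat_lit 26) (.e (nat_lit 336257) (nat_lit 15) (.e (nat_lit 2450) (nat_lit 157) (.e (nat_lit 7413) (nat_lit 396) .nil)))))))) (.g (nat_lit 4) .nil .nil))) 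
(.lf (nat_lit 19125) (.g (nat_lit 3045) (.e (nat_lit 1179) (nat_lit 87) (.e (nat_lit 57480) (nat_lit 28) (.e (nat_lit 557108) (nat_lit 15) (.e (nat_lit 188452) (nat_lit 23) (.e (nat_lit 204874) (nat_lit 30) (.e (nat_lit 368660) (nat_lit 18) (.e (nat_lit 5920) (nat_lit 320) .nil))))))) (.g (nat_lit 4) .nil .nil))))) (.nd (nat_lit 4) (.nd (nat_lit 5) 
(.lf (nat_lit 19085) (.g (nat_lit 3228) (.e (nat_lit 1179) (nat_lit 87) (.e (nat_lit 57480) (nat_lit 28) (.e (nat_lit 557108) (nat_lit 15) (.e (nat_lit 188452) (nat_lit 23) (.e (nat_lit 204852) (nat_lit 26) (.e (nat_lit 336257) (nat_lit 15) (.e (nat_lit 2426) (nat_lit 157) (.e (nat_lit 7413) (nat_lit 396) .nil)))))))) (.g (nat_lit 4) .nil .nil))) 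
(.lf (nat_lit 19117) (.g (nat_lit 3166) (.e (nat_lit 1179) (nat_lit 87) (.e (nat_lit 57480) (nat_lit 28) (.e (nat_lit 557108) (nat_lit 15) (.e (nat_lit 188452) (nat_lit 23) (.e (nat_lit 204873) (nat_lit 30) (.e (nat_lit 368660) (nat_lit 18) (.e (nat_lit 5872) (nat_lit 320) .nil))))))) (.g (nat_lit 4) .nil .nil)))) (.nd (nat_lit 5) 
(.lf (nat_lit 19101) (.g (nat_lit 3250) (.e (nat_lit 1179) (nat_lit 87) (.e (nat_lit 57480) (nat_lit 28) (.e (nat_lit 557108) (nat_lit 15) (.e (nat_lit 188452) (nat_lit 23) (.e (nat_lit 204852) (nat_lit 26) (.e (nat_lit 336258) (nat_lit 15) (.e (nat_lit 2461) (nat_lit 157) (.e (nat_lit 7420) (nat_lit 396) .nil)))))))) (.g (nat_lit 4) .nil .nil))) 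
(.lf (nat_lit 19133) (.g (nat_lit 2420) (.e (nat_lit 1179) (nat_lit 87) (.e (nat_lit 57480) (nat_lit 28) (.e (nat_lit 557108) (nat_lit 15) (.e (nat_lit 188452) (nat_lit 23) (.e (nat_lit 204881) (nat_lit 32) (.e (nat_lit 385046) (nat_lit 21) (.e (nat_lit 7422) (nat_lit 396) .nil))))))) (.g (nat_lit 4) .nil .nil))))))) (.nd (nat_lit 2) (.nd (nat_lit 3) (.nd (nat_lit 4) (.nd (nat_lit 5) 
(.lf (nat_lit 19075) (.g (nat_lit 2859) (.e (nat_lit 1179) (nat_lit 87) (.e (nat_lit 57480) (nat_lit 28) (.e (nat_lit 557108) (nat_lit 15) (.e (nat_lit 188452) (nat_lit 23) (.e (nat_lit 204816) (nat_lit 17) (.e (nat_lit 6712) (nat_lit 360) (.e (nat_lit 163843) (nat_lit 0) (.e (nat_lit 4588) (nat_lit 269) .nil)))))))) (.g (nat_lit 5) .nil .nil))) 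
(.lf (nat_lit 19107) (.g (nat_lit 2943) (.e (nat_lit 1179) (nat_lit 87) (.e (nat_lit 57480) (nat_lit 28) (.e (nat_lit 557108) (nat_lit 15) (.e (nat_lit 188452) (nat_lit 23) (.e (nat_lit 204852) (nat_lit 26) (.e (nat_lit 336309) (nat_lit 16) (.e (nat_lit 164250) (nat_lit 209) .nil))))))) (.g (nat_lit 4) .nil .nil)))) (.nd (nat_lit 5) 
(.lf (nat_lit 19091) (.g (nat_lit 2911) (.e (nat_lit 1179) (nat_lit 87) (.e (nat_lit 57480) (nat_lit 28) (.e (nat_lit 557108) (nat_lit 15) (.e (nat_lit 188452) (nat_lit 23) (.e (nat_lit 204852) (nat_lit 26) (.e (nat_lit 336257) (nat_lit 15) (.e (nat_lit 2442) (nat_lit 157) (.e (nat_lit 7462) (nat_lit 396) .nil)))))))) (.g (nat_lit 4) .nil .nil))) 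
(.lf (nat_lit 19123) (.g (nat_lit 2969) (.e (nat_lit 1179) (nat_lit 87) (.e (nat_lit 57480) (nat_lit 28) (.e (nat_lit 557108) (nat_lit 15) (.e (nat_lit 188452) (nat_lit 23) (.e (nat_lit 204874) (nat_lit 30) (.e (nat_lit 368659) (nat_lit 18) (.e (nat_lit 5920) (nat_lit 320) .nil))))))) (.g (nat_lit 4) .nil .nil))))) (.nd (nat_lit 4) (.nd (nat_lit 5) 
(.lf (nat_lit 19083) (.g (nat_lit 2878) (.e (nat_lit 1179) (nat_lit 87) (.e (nat_lit 57480) (nat_lit 28) (.e (nat_lit 557108) (nat_lit 15) (.e (nat_lit 188452) (nat_lit 23) (.e (nat_lit 204852) (nat_lit 26) .nil))))) .nil)) 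
(.lf (nat_lit 19115) (.g (nat_lit 3083) (.e (nat_lit 1179) (nat_lit 87) (.e (nat_lit 57480) (nat_lit 28) (.e (nat_lit 557108) (nat_lit 15) (.e (nat_lit 188452) (nat_lit 23) (.e (nat_lit 204873) (nat_lit 30) (.e (nat_lit 368659) (nat_lit 18) (.e (nat_lit 5875) (nat_lit 320) .nil))))))) (.g (nat_lit 4) .nil .nil)))) (.nd (nat_lit 5) 
(.lf (nat_lit 19099) (.g (nat_lit 3751) (.e (nat_lit 1179) (nat_lit 87) (.e (nat_lit 57480) (nat_lit 28) (.e (nat_lit 557108) (nat_lit 15) (.e (nat_lit 188452) (nat_lit 23) (.e (nat_lit 204852) (nat_lit 26) (.e (nat_lit 336258) (nat_lit 15) (.e (nat_lit 2450) (nat_lit 157) (.e (nat_lit 7462) (nat_lit 396) .nil)))))))) (.g (nat_lit 5) .nil .nil))) 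
(.lf (nat_lit 19131) (.g (nat_lit 2500) (.e (nat_lit 1179) (nat_lit 87) (.e (nat_lit 57480) (nat_lit 28) (.e (nat_lit 557108) (nat_lit 15) (.e (nat_lit 188452) (nat_lit 23) (.e (nat_lit 204881) (nat_lit 32) (.e (nat_lit 385044) (nat_lit 21) (.e (nat_lit 7462) (nat_lit 396) .nil))))))) (.g (nat_lit 4) .nil .nil)))))) (.nd (nat_lit 3) (.nd (nat_lit 4) (.nd (nat_lit 5) 
(.lf (nat_lit 19079) (.g (nat_lit 2906) (.e (nat_lit 1179) (nat_lit 87) (.e (nat_lit 57480) (nat_lit 28) (.e (nat_lit 557108) (nat_lit 15) (.e (nat_lit 188452) (nat_lit 23) (.e (nat_lit 204816) (nat_lit 17) (.e (nat_lit 6714) (nat_lit 360) (.e (nat_lit 163850) (nat_lit 0) (.e (nat_lit 4574) (nat_lit 269) .nil)))))))) (.g (nat_lit 5) .nil .nil))) 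
(.lf (nat_lit 19111) (.g (nat_lit 3697) (.e (nat_lit 1179) (nat_lit 87) (.e (nat_lit 57480) (nat_lit 28) (.e (nat_lit 557108) (nat_lit 15) (.e (nat_lit 188452) (nat_lit 23) (.e (nat_lit 204872) (nat_lit 30) (.e (nat_lit 368662) (nat_lit 18) (.e (nat_lit 5872) (nat_lit 320) .nil))))))) (.g (nat_lit 6) .nil .nil)))) (.nd (nat_lit 5) 
(.lf (nat_lit 19095) (.g (nat_lit 4046) (.e (nat_lit 1179) (nat_lit 87) (.e (nat_lit 57480) (nat_lit 28) (.e (nat_lit 557108) (nat_lit 15) (.e (nat_lit 188452) (nat_lit 23) (.e (nat_lit 204852) (nat_lit 26) (.e (nat_lit 336258) (nat_lit 15) (.e (nat_lit 2450) (nat_lit 157) (.e (nat_lit 7413) (nat_lit 396) .nil)))))))) (.g (nat_lit 6) .nil .nil))) 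
(.lf (nat_lit 19127) (.g (nat_lit 4227) (.e (nat_lit 1179) (nat_lit 87) (.e (nat_lit 57480) (nat_lit 28) (.e (nat_lit 557108) (nat_lit 15) (.e (nat_lit 188452) (nat_lit 23) (.e (nat_lit 204874) (nat_lit 30) (.e (nat_lit 368662) (nat_lit 18) (.e (nat_lit 5872) (nat_lit 320) .nil))))))) (.g (nat_lit 0) .nil .nil))))) (.nd (nat_lit 4) (.nd (nat_lit 5) 
(.lf (nat_lit 19087) (.g (nat_lit 3063) (.e (nat_lit 1179) (nat_lit 87) (.e (nat_lit 57480) (nat_lit 28) (.e (nat_lit 557108) (nat_lit 15) (.e (nat_lit 188452) (nat_lit 23) (.e (nat_lit 204852) (nat_lit 26) (.e (nat_lit 336257) (nat_lit 15) (.e (nat_lit 2427) (nat_lit 157) (.e (nat_lit 7462) (nat_lit 396) .nil)))))))) (.g (nat_lit 4) .nil .nil))) 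
(.lf (nat_lit 19119) (.g (nat_lit 3999) (.e (nat_lit 1179) (nat_lit 87) (.e (nat_lit 57480) (nat_lit 28) (.e (nat_lit 557108) (nat_lit 15) (.e (nat_lit 188452) (nat_lit 23) (.e (nat_lit 204873) (nat_lit 30) (.e (nat_lit 368662) (nat_lit 18) (.e (nat_lit 5872) (nat_lit 320) .nil))))))) (.g (nat_lit 6) .nil .nil)))) (.nd (nat_lit 5) 
(.lf (nat_lit 19103) (.g (nat_lit 3106) (.e (nat_lit 1179) (nat_lit 87) (.e (nat_lit 57480) (nat_lit 28) (.e (nat_lit 557108) (nat_lit 15) (.e (nat_lit 188452) (nat_lit 23) (.e (nat_lit 204852) (nat_lit 26) (.e (nat_lit 336258) (nat_lit 15) (.e (nat_lit 2467) (nat_lit 157) (.e (nat_lit 7420) (nat_lit 396) .nil)))))))) (.g (nat_lit 4) .nil .nil))) 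
(.lf (nat_lit 19135) (.g (nat_lit 1640) (.e (nat_lit 1179) (nat_lit 87) (.e (nat_lit 57480) (nat_lit 28) (.e (nat_lit 557108) (nat_lit 15) (.e (nat_lit 188452) (nat_lit 23) (.e (nat_lit 204885) (nat_lit 33) .nil))))) .nil))))))))

noncomputable def tv264 : DT := (.nd (nat_lit 0) (.nd (nat_lit 1) (.nd (nat_lit 2) (.nd (nat_lit 3) (.nd (nat_lit 4) (.nd (nat_lit 5) 
(.lf (nat_lit 19136) (.g (nat_lit 1953) (.e (nat_lit 1179) (nat_lit 87) (.e (nat_lit 57480) (nat_lit 28) (.e (nat_lit 557108) (nat_lit 15) (.e (nat_lit 188452) (nat_lit 23) (.e (nat_lit 204885) (nat_lit 33) (.e (nat_lit 401414) (nat_lit 0) (.e (nat_lit 2422) (nat_lit 157) (.e (nat_lit 4622) (nat_lit 269) .nil)))))))) (.g (nat_lit 4) .nil .nil))) 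
(.lf (nat_lit 19168) (.g (nat_lit 627) (.e (nat_lit 1179) (nat_lit 87) (.e (nat_lit 57854) (nat_lit 252) (.e (nat_lit 57364) (nat_lit 1) .nil))) .nil))) (.nd (nat_lit 5) 
(.lf (nat_lit 19152) (.g (nat_lit 3077) (.e (nat_lit 1179) (nat_lit 87) (.e (nat_lit 57480) (nat_lit 28) (.e (nat_lit 557109) (nat_lit 15) (.e (nat_lit 188452) (nat_lit 23) (.e (nat_lit 204864) (nat_lit 27) (.e (nat_lit 344096) (nat_lit 18) (.e (nat_lit 5872) (nat_lit 320) .nil))))))) (.g (nat_lit 4) .nil .nil))) 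
(.lf (nat_lit 19184) (.g (nat_lit 2143) (.e (nat_lit 1179) (nat_lit 87) (.e (nat_lit 57870) (nat_lit 264) (.e (nat_lit 1210) (nat_lit 89) (.e (nat_lit 73781) (nat_lit 32) (.e (nat_lit 3090) (nat_lit 191) (.e (nat_lit 483350) (nat_lit 17) (.e (nat_lit 6490) (nat_lit 343) .nil))))))) (.g (nat_lit 6) .nil .nil))))) (.nd (nat_lit 4) (.nd (nat_lit 5) 
(.lf (nat_lit 19144) (.g (nat_lit 3775) (.e (nat_lit 1179) (nat_lit 87) (.e (nat_lit 57480) (nat_lit 28) (.e (nat_lit 557109) (nat_lit 15) (.e (nat_lit 188450) (nat_lit 23) (.e (nat_lit 204863) (nat_lit 27) .nil))))) .nil)) 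
(.lf (nat_lit 19176) (.g (nat_lit 3911) (.e (nat_lit 1179) (nat_lit 87) (.e (nat_lit 57870) (nat_lit 264) (.e (nat_lit 1188) (nat_lit 88) (.e (nat_lit 65630) (nat_lit 14) (.e (nat_lit 401459) (nat_lit 13) (.e (nat_lit 483350) (nat_lit 17) (.e (nat_lit 6490) (nat_lit 343) .nil))))))) (.g (nat_lit 6) .nil .nil)))) (.nd (nat_lit 5) 
(.lf (nat_lit 19160) (.g (nat_lit 1999) (.e (nat_lit 1179) (nat_lit 87) (.e (nat_lit 57681) (nat_lit 155) (.e (nat_lit 122919) (nat_lit 15) (.e (nat_lit 360491) (nat_lit 22) .nil)))) .nil)) 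
(.lf (nat_lit 19192) (.g (nat_lit 2233) (.e (nat_lit 1179) (nat_lit 87) (.e (nat_lit 57872) (nat_lit 264) (.e (nat_lit 1211) (nat_lit 89) (.e (nat_lit 73781) (nat_lit 32) (.e (nat_lit 3090) (nat_lit 191) (.e (nat_lit 483350) (nat_lit 17) (.e (nat_lit 6490) (nat_lit 343) .nil))))))) (.g (nat_lit 6) .nil .nil)))))) (.nd (nat_lit 3) (.nd (nat_lit 4) (.nd (nat_lit 5) 
(.lf (nat_lit 19140) (.g (nat_lit 2621) (.e (nat_lit 1179) (nat_lit 87) (.e (nat_lit 57480) (nat_lit 28) (.e (nat_lit 557108) (nat_lit 15) (.e (nat_lit 188452) (nat_lit 23) (.e (nat_lit 204885) (nat_lit 33) (.e (nat_lit 401461) (nat_lit 15) (.e (nat_lit 1018) (nat_lit 81) (.e (nat_lit 7431) (nat_lit 396) .nil)))))))) (.g (nat_lit 5) .nil .nil))) 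
(.lf (nat_lit 19172) (.g (nat_lit 1583) (.e (nat_lit 1179) (nat_lit 87) (.e (nat_lit 57854) (nat_lit 252) (.e (nat_lit 57388) (nat_lit 5) (.e (nat_lit 114697) (nat_lit 11) (.e (nat_lit 426334) (nat_lit 13) (.e (nat_lit 483350) (nat_lit 17) (.e (nat_lit 6490) (nat_lit 343) .nil))))))) (.g (nat_lit 4) .nil .nil)))) (.nd (nat_lit 5) 
(.lf (nat_lit 19156) (.g (nat_lit 1671) (.e (nat_lit 1179) (nat_lit 87) (.e (nat_lit 57681) (nat_lit 155) (.e (nat_lit 122916) (nat_lit 14) (.e (nat_lit 352274) (nat_lit 11) .nil)))) .nil)) 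
(.lf (nat_lit 19188) (.g (nat_lit 4211) (.e (nat_lit 1179) (nat_lit 87) (.e (nat_lit 57872) (nat_lit 264) (.e (nat_lit 1199) (nat_lit 88) (.e (nat_lit 65630) (nat_lit 14) (.e (nat_lit 401459) (nat_lit 13) (.e (nat_lit 483350) (nat_lit 17) (.e (nat_lit 6490) (nat_lit 343) .nil))))))) (.g (nat_lit 6) .nil .nil))))) (.nd (nat_lit 4) (.nd (nat_lit 5) 
(.lf (nat_lit 19148) (.g (nat_lit 2883) (.e (nat_lit 1179) (nat_lit 87) (.e (nat_lit 57480) (nat_lit 28) (.e (nat_lit 557109) (nat_lit 15) (.e (nat_lit 188452) (nat_lit 23) (.e (nat_lit 204864) (nat_lit 27) .nil))))) .nil)) 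
(.lf (nat_lit 19180) (.g (nat_lit 3840) (.e (nat_lit 1179) (nat_lit 87) (.e (nat_lit 57870) (nat_lit 264) (.e (nat_lit 1199) (nat_lit 88) (.e (nat_lit 65628) (nat_lit 14) (.e (nat_lit 401459) (nat_lit 13) (.e (nat_lit 483350) (nat_lit 17) (.e (nat_lit 6490) (nat_lit 343) .nil))))))) (.g (nat_lit 7) .nil .nil)))) (.nd (nat_lit 5) 
(.lf (nat_lit 19164) (.g (nat_lit 1365) (.e (nat_lit 1179) (nat_lit 87) (.e (nat_lit 57847) (nat_lit 252) (.e (nat_lit 57411) (nat_lit 12) (.e (nat_lit 336211) (nat_lit 13) .nil)))) .nil)) 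
(.lf (nat_lit 19196) (.g (nat_lit 2529) (.e (nat_lit 1180) (nat_lit 87) (.e (nat_lit 57479) (nat_lit 28) (.e (nat_lit 557105) (nat_lit 14) (.e (nat_lit 180251) (nat_lit 10) (.e (nat_lit 573485) (nat_lit 13) .nil))))) .nil)))))) (.nd (nat_lit 2) (.nd (nat_lit 3) (.nd (nat_lit 4) (.nd (nat_lit 5) 
(.lf (nat_lit 19138) (.g (nat_lit 3617) (.e (nat_lit 1179) (nat_lit 87) (.e (nat_lit 57480) (nat_lit 28) (.e (nat_lit 557108) (nat_lit 15) (.e (nat_lit 188452) (nat_lit 23) (.e (nat_lit 204885) (nat_lit 33) (.e (nat_lit 401414) (nat_lit 0) (.e (nat_lit 2426) (nat_lit 157) (.e (nat_lit 4622) (nat_lit 269) .nil)))))))) (.g (nat_lit 6) .nil .nil))) 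
(.lf (nat_lit 19170) (.g (nat_lit 2240) (.e (nat_lit 1179) (nat_lit 87) (.e (nat_lit 57854) (nat_lit 252) (.e (nat_lit 57384) (nat_lit 4) (.e (nat_lit 106534) (nat_lit 11) .nil)))) .nil))) (.nd (nat_lit 5) 
(.lf (nat_lit 19154) (.g (nat_lit 4120) (.e (nat_lit 1179) (nat_lit 87) (.e (nat_lit 57681) (nat_lit 155) (.e (nat_lit 122906) (nat_lit 12) (.e (nat_lit 336073) (nat_lit 9) (.e (nat_lit 336369) (nat_lit 27) (.e (nat_lit 426173) (nat_lit 7) (.e (nat_lit 409617) (nat_lit 10) (.e (nat_lit 5355) (nat_lit 298) .nil)))))))) (.g (nat_lit 8) .nil .nil))) 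
(.lf (nat_lit 19186) (.g (nat_lit 4063) (.e (nat_lit 1179) (nat_lit 87) (.e (nat_lit 57872) (nat_lit 264) (.e (nat_lit 1188) (nat_lit 88) (.e (nat_lit 65630) (nat_lit 14) (.e (nat_lit 401459) (nat_lit 13) (.e (nat_lit 483350) (nat_lit 17) (.e (nat_lit 6490) (nat_lit 343) .nil))))))) (.g (nat_lit 7) .nil .nil))))) (.nd (nat_lit 4) (.nd (nat_lit 5) 
(.lf (nat_lit 19146) (.g (nat_lit 2621) (.e (nat_lit 1179) (nat_lit 87) (.e (nat_lit 57480) (nat_lit 28) (.e (nat_lit 557109) (nat_lit 15) (.e (nat_lit 188452) (nat_lit 23) (.e (nat_lit 204863) (nat_lit 27) .nil))))) .nil)) 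
(.lf (nat_lit 19178) (.g (nat_lit 5100) (.e (nat_lit 1179) (nat_lit 87) (.e (nat_lit 57870) (nat_lit 264) (.e (nat_lit 1189) (nat_lit 88) (.e (nat_lit 65629) (nat_lit 14) (.e (nat_lit 401459) (nat_lit 13) (.e (nat_lit 483350) (nat_lit 17) (.e (nat_lit 6490) (nat_lit 343) .nil))))))) (.g (nat_lit 6) .nil .nil)))) (.nd (nat_lit 5) 
(.lf (nat_lit 19162) (.g (nat_lit 3179) (.e (nat_lit 1179) (nat_lit 87) (.e (nat_lit 57681) (nat_lit 155) (.e (nat_lit 122919) (nat_lit 15) (.e (nat_lit 360492) (nat_lit 22) (.e (nat_lit 778466) (nat_lit 11) (.e (nat_lit 24584) (nat_lit 0) (.e (nat_lit 6490) (nat_lit 343) .nil))))))) (.g (nat_lit 5) .nil .nil))) 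
(.lf (nat_lit 19194) (.g (nat_lit 1789) (.e (nat_lit 1180) (nat_lit 87) (.e (nat_lit 57479) (nat_lit 28) (.e (nat_lit 557100) (nat_lit 13) (.e (nat_lit 172106) (nat_lit 10) .nil)))) .nil))))) (.nd (nat_lit 3) (.nd (nat_lit 4) (.nd (nat_lit 5) 
(.lf (nat_lit 19142) (.g (nat_lit 1979) (.e (nat_lit 1179) (nat_lit 87) (.e (nat_lit 57480) (nat_lit 28) (.e (nat_lit 557108) (nat_lit 15) (.e (nat_lit 188452) (nat_lit 23) (.e (nat_lit 204885) (nat_lit 33) (.e (nat_lit 401463) (nat_lit 15) (.e (nat_lit 1023) (nat_lit 81) (.e (nat_lit 7431) (nat_lit 396) .nil)))))))) (.g (nat_lit 4) .nil .nil))) 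
(.lf (nat_lit 19174) (.g (nat_lit 1925) (.e (nat_lit 1179) (nat_lit 87) (.e (nat_lit 57854) (nat_lit 252) (.e (nat_lit 57389) (nat_lit 5) (.e (nat_lit 114697) (nat_lit 11) (.e (nat_lit 426334) (nat_lit 13) (.e (nat_lit 483350) (nat_lit 17) (.e (nat_lit 6490) (nat_lit 343) .nil))))))) (.g (nat_lit 4) .nil .nil)))) (.nd (nat_lit 5) 
(.lf (nat_lit 19158) (.g (nat_lit 2756) (.e (nat_lit 1179) (nat_lit 87) (.e (nat_lit 57681) (nat_lit 155) (.e (nat_lit 122919) (nat_lit 15) (.e (nat_lit 360451) (nat_lit 0) (.e (nat_lit 6938) (nat_lit 375) (.e (nat_lit 163896) (nat_lit 10) (.e (nat_lit 409617) (nat_lit 10) (.e (nat_lit 5355) (nat_lit 298) .nil)))))))) (.g (nat_lit 4) .nil .nil))) 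
(.lf (nat_lit 19190) (.g (nat_lit 5512) (.e (nat_lit 1179) (nat_lit 87) (.e (nat_lit 57872) (nat_lit 264) (.e (nat_lit 1200) (nat_lit 88) (.e (nat_lit 65629) (nat_lit 14) (.e (nat_lit 401459) (nat_lit 13) (.e (nat_lit 483350) (nat_lit 17) (.e (nat_lit 6490) (nat_lit 343) .nil))))))) (.g (nat_lit 6) .nil .nil))))) (.nd (nat_lit 4) (.nd (nat_lit 5) 
(.lf (nat_lit 19150) (.g (nat_lit 4018) (.e (nat_lit 1179) (nat_lit 87) (.e (nat_lit 57480) (nat_lit 28) (.e (nat_lit 557109) (nat_lit 15) (.e (nat_lit 188452) (nat_lit 23) (.e (nat_lit 204864) (nat_lit 27) (.e (nat_lit 344091) (nat_lit 18) (.e (nat_lit 5920) (nat_lit 320) .nil))))))) (.g (nat_lit 5) .nil .nil))) 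
(.lf (nat_lit 19182) (.g (nat_lit 3987) (.e (nat_lit 1179) (nat_lit 87) (.e (nat_lit 57870) (nat_lit 264) (.e (nat_lit 1200) (nat_lit 88) (.e (nat_lit 65628) (nat_lit 14) (.e (nat_lit 401459) (nat_lit 13) (.e (nat_lit 483350) (nat_lit 17) (.e (nat_lit 6490) (nat_lit 343) .nil))))))) (.g (nat_lit 7) .nil .nil)))) (.nd (nat_lit 5) 
(.lf (nat_lit 19166) (.g (nat_lit 2180) (.e (nat_lit 1179) (nat_lit 87) (.e (nat_lit 57847) (nat_lit 252) (.e (nat_lit 57437) (nat_lit 17) (.e (nat_lit 376842) (nat_lit 11) (.e (nat_lit 426298) (nat_lit 11) (.e (nat_lit 458804) (nat_lit 38) (.e (nat_lit 655391) (nat_lit 9) .nil))))))) (.g (nat_lit 4) .nil .nil))) 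
(.lf (nat_lit 19198) (.g (nat_lit 3199) (.e (nat_lit 1180) (nat_lit 87) (.e (nat_lit 57479) (nat_lit 28) (.e (nat_lit 557105) (nat_lit 14) (.e (nat_lit 180251) (nat_lit 10) (.e (nat_lit 573487) (nat_lit 14) .nil))))) .nil))))))) (.nd (nat_lit 1) (.nd (nat_lit 2) (.nd (nat_lit 3) (.nd (nat_lit 4) (.nd (nat_lit 5) 
(.lf (nat_lit 19137) (.g (nat_lit 3585) (.e (nat_lit 1179) (nat_lit 87) (.e (nat_lit 57480) (nat_lit 28) (.e (nat_lit 557108) (nat_lit 15) (.e (nat_lit 188452) (nat_lit 23) (.e (nat_lit 204885) (nat_lit 33) (.e (nat_lit 401414) (nat_lit 0) (.e (nat_lit 2426) (nat_lit 157) (.e (nat_lit 4588) (nat_lit 269) .nil)))))))) (.g (nat_lit 6) .nil .nil))) 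
(.lf (nat_lit 19169) (.g (nat_lit 601) (.e (nat_lit 1179) (nat_lit 87) (.e (nat_lit 57854) (nat_lit 252) (.e (nat_lit 57366) (nat_lit 1) .nil))) .nil))) (.nd (nat_lit 5) 
(.lf (nat_lit 19153) (.g (nat_lit 382) (.e (nat_lit 1179) (nat_lit 87) (.e (nat_lit 57666) (nat_lit 152) (.e (nat_lit 1077) (nat_lit 81) .nil))) .nil)) 
(.lf (nat_lit 19185) (.g (nat_lit 2172) (.e (nat_lit 1179) (nat_lit 87) (.e (nat_lit 57870) (nat_lit 264) (.e (nat_lit 1211) (nat_lit 89) (.e (nat_lit 73781) (nat_lit 32) (.e (nat_lit 3090) (nat_lit 191) (.e (nat_lit 483350) (nat_lit 17) (.e (nat_lit 6490) (nat_lit 343) .nil))))))) (.g (nat_lit 6) .nil .nil))))) (.nd (nat_lit 4) (.nd (nat_lit 5) 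
(.lf (nat_lit 19145) (.g (nat_lit 2681) (.e (nat_lit 1179) (nat_lit 87) (.e (nat_lit 57480) (nat_lit 28) (.e (nat_lit 557109) (nat_lit 15) (.e (nat_lit 188452) (nat_lit 23) (.e (nat_lit 204862) (nat_lit 27) .nil))))) .nil)) 
(.lf (nat_lit 19177) (.g (nat_lit 3775) (.e (nat_lit 1179) (nat_lit 87) (.e (nat_lit 57870) (nat_lit 264) (.e (nat_lit 1189) (nat_lit 88) (.e (nat_lit 65628) (nat_lit 14) (.e (nat_lit 401459) (nat_lit 13) (.e (nat_lit 483350) (nat_lit 17) (.e (nat_lit 6490) (nat_lit 343) .nil))))))) (.g (nat_lit 7) .nil .nil)))) (.nd (nat_lit 5) 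
(.lf (nat_lit 19161) (.g (nat_lit 1995) (.e (nat_lit 1179) (nat_lit 87) (.e (nat_lit 57681) (nat_lit 155) (.e (nat_lit 122919) (nat_lit 15) (.e (nat_lit 360492) (nat_lit 22) .nil)))) .nil)) 
(.lf (nat_lit 19193) (.g (nat_lit 2418) (.e (nat_lit 1180) (nat_lit 87) (.e (nat_lit 57478) (nat_lit 28) (.e (nat_lit 557105) (nat_lit 14) (.e (nat_lit 180252) (nat_lit 10) (.e (nat_lit 573488) (nat_lit 14) .nil))))) .nil))))) (.nd (nat_lit 3) (.nd (nat_lit 4) (.nd (nat_lit 5) 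
(.lf (nat_lit 19141) (.g (nat_lit 2550) (.e (nat_lit 1179) (nat_lit 87) (.e (nat_lit 57480) (nat_lit 28) (.e (nat_lit 557108) (nat_lit 15) (.e (nat_lit 188452) (nat_lit 23) (.e (nat_lit 204885) (nat_lit 33) (.e (nat_lit 401461) (nat_lit 15) (.e (nat_lit 1046) (nat_lit 81) (.e (nat_lit 7431) (nat_lit 396) .nil)))))))) (.g (nat_lit 5) .nil .nil))) 
(.lf (nat_lit 19173) (.g (nat_lit 2440) (.e (nat_lit 1179) (nat_lit 87) (.e (nat_lit 57854) (nat_lit 252) (.e (nat_lit 57388) (nat_lit 5) (.e (nat_lit 114698) (nat_lit 11) (.e (nat_lit 426334) (nat_lit 13) (.e (nat_lit 483350) (nat_lit 17) (.e (nat_lit 6490) (nat_lit 343) .nil))))))) (.g (nat_lit 5) .nil .nil)))) (.nd (nat_lit 5) 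
(.lf (nat_lit 19157) (.g (nat_lit 1051) (.e (nat_lit 1179) (nat_lit 87) (.e (nat_lit 57681) (nat_lit 155) (.e (nat_lit 122919) (nat_lit 15) (.e (nat_lit 360451) (nat_lit 0) .nil)))) .nil)) 
(.lf (nat_lit 19189) (.g (nat_lit 4059) (.e (nat_lit 1179) (nat_lit 87) (.e (nat_lit 57872) (nat_lit 264) (.e (nat_lit 1200) (nat_lit 88) (.e (nat_lit 65628) (nat_lit 14) (.e (nat_lit 401459) (nat_lit 13) (.e (nat_lit 483350) (nat_lit 17) (.e (nat_lit 6490) (nat_lit 343) .nil))))))) (.g (nat_lit 0) .nil .nil))))) (.nd (nat_lit 4) (.nd (nat_lit 5) 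
(.lf (nat_lit 19149) (.g (nat_lit 4771) (.e (nat_lit 1179) (nat_lit 87) (.e (nat_lit 57480) (nat_lit 28) (.e (nat_lit 557109) (nat_lit 15) (.e (nat_lit 188452) (nat_lit 23) (.e (nat_lit 204864) (nat_lit 27) (.e (nat_lit 344091) (nat_lit 18) (.e (nat_lit 5875) (nat_lit 320) .nil))))))) (.g (nat_lit 6) .nil .nil))) 
(.lf (nat_lit 19181) (.g (nat_lit 4214) (.e (nat_lit 1179) (nat_lit 87) (.e (nat_lit 57870) (nat_lit 264) (.e (nat_lit 1199) (nat_lit 88) (.e (nat_lit 65630) (nat_lit 14) (.e (nat_lit 401459) (nat_lit 13) (.e (nat_lit 483350) (nat_lit 17) (.e (nat_lit 6490) (nat_lit 343) .nil))))))) (.g (nat_lit 6) .nil .nil)))) (.nd (nat_lit 5) 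
(.lf (nat_lit 19165) (.g (nat_lit 2017) (.e (nat_lit 1179) (nat_lit 87) (.e (nat_lit 57847) (nat_lit 252) (.e (nat_lit 57435) (nat_lit 17) (.e (nat_lit 376842) (nat_lit 11) (.e (nat_lit 426298) (nat_lit 11) (.e (nat_lit 458804) (nat_lit 38) (.e (nat_lit 655391) (nat_lit 9) .nil))))))) (.g (nat_lit 4) .nil .nil))) 
(.lf (nat_lit 19197) (.g (nat_lit 2561) (.e (nat_lit 1180) (nat_lit 87) (.e (nat_lit 57479) (nat_lit 28) (.e (nat_lit 557105) (nat_lit 14) (.e (nat_lit 180251) (nat_lit 10) (.e (nat_lit 573485) (nat_lit 13) (.e (nat_lit 65569) (nat_lit 3) (.e (nat_lit 98334) (nat_lit 18) (.e (nat_lit 164164) (nat_lit 152) .nil)))))))) (.g (nat_lit 4) .nil .nil))))))) 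
(.nd (nat_lit 2) (.nd (nat_lit 3) (.nd (nat_lit 4) (.nd (nat_lit 5) 
(.lf (nat_lit 19139) (.g (nat_lit 2034) (.e (nat_lit 1179) (nat_lit 87) (.e (nat_lit 57480) (nat_lit 28) (.e (nat_lit 557108) (nat_lit 15) (.e (nat_lit 188452) (nat_lit 23) (.e (nat_lit 204885) (nat_lit 33) (.e (nat_lit 401414) (nat_lit 0) (.e (nat_lit 2458) (nat_lit 157) (.e (nat_lit 4574) (nat_lit 269) .nil)))))))) (.g (nat_lit 4) .nil .nil))) 
(.lf (nat_lit 19171) (.g (nat_lit 2208) (.e (nat_lit 1179) (nat_lit 87) (.e (nat_lit 57854) (nat_lit 252) (.e (nat_lit 57384) (nat_lit 4) (.e (nat_lit 106536) (nat_lit 11) .nil)))) .nil))) (.nd (nat_lit 5) 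
(.lf (nat_lit 19155) (.g (nat_lit 1420) (.e (nat_lit 1179) (nat_lit 87) (.e (nat_lit 57681) (nat_lit 155) (.e (nat_lit 122916) (nat_lit 14) (.e (nat_lit 352273) (nat_lit 11) .nil)))) .nil)) 
(.lf (nat_lit 19187) (.g (nat_lit 4140) (.e (nat_lit 1179) (nat_lit 87) (.e (nat_lit 57872) (nat_lit 264) (.e (nat_lit 1190) (nat_lit 88) (.e (nat_lit 65628) (nat_lit 14) (.e (nat_lit 401459) (nat_lit 13) (.e (nat_lit 483350) (nat_lit 17) (.e (nat_lit 6490) (nat_lit 343) .nil))))))) (.g (nat_lit 0) .nil .nil))))) (.nd (nat_lit 4) (.nd (nat_lit 5) 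
(.lf (nat_lit 19147) (.g (nat_lit 4251) (.e (nat_lit 1179) (nat_lit 87) (.e (nat_lit 57480) (nat_lit 28) (.e (nat_lit 557109) (nat_lit 15) (.e (nat_lit 188452) (nat_lit 23) (.e (nat_lit 204863) (nat_lit 27) (.e (nat_lit 344096) (nat_lit 18) (.e (nat_lit 5872) (nat_lit 320) .nil))))))) (.g (nat_lit 6) .nil .nil))) 
(.lf (nat_lit 19179) (.g (nat_lit 4063) (.e (nat_lit 1179) (nat_lit 87) (.e (nat_lit 57870) (nat_lit 264) (.e (nat_lit 1190) (nat_lit 88) (.e (nat_lit 65628) (nat_lit 14) (.e (nat_lit 401459) (nat_lit 13) (.e (nat_lit 483350) (nat_lit 17) (.e (nat_lit 6490) (nat_lit 343) .nil))))))) (.g (nat_lit 7) .nil .nil)))) (.nd (nat_lit 5) 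
(.lf (nat_lit 19163) (.g (nat_lit 1255) (.e (nat_lit 1179) (nat_lit 87) (.e (nat_lit 57847) (nat_lit 252) (.e (nat_lit 57410) (nat_lit 12) (.e (nat_lit 336211) (nat_lit 13) .nil)))) .nil)) 
(.lf (nat_lit 19195) (.g (nat_lit 2763) (.e (nat_lit 1180) (nat_lit 87) (.e (nat_lit 57479) (nat_lit 28) (.e (nat_lit 557105) (nat_lit 14) (.e (nat_lit 180251) (nat_lit 10) (.e (nat_lit 573484) (nat_lit 13) .nil))))) .nil))))) (.nd (nat_lit 3) (.nd (nat_lit 4) (.nd (nat_lit 5) 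
(.lf (nat_lit 19143) (.g (nat_lit 1893) (.e (nat_lit 1179) (nat_lit 87) (.e (nat_lit 57480) (nat_lit 28) (.e (nat_lit 557108) (nat_lit 15) (.e (nat_lit 188452) (nat_lit 23) (.e (nat_lit 204885) (nat_lit 33) (.e (nat_lit 409344) (nat_lit 16) (.e (nat_lit 57696) (nat_lit 158) .nil))))))) (.g (nat_lit 4) .nil .nil))) 
(.lf (nat_lit 19175) (.g (nat_lit 2754) (.e (nat_lit 1179) (nat_lit 87) (.e (nat_lit 57854) (nat_lit 252) (.e (nat_lit 57389) (nat_lit 5) (.e (nat_lit 114698) (nat_lit 11) (.e (nat_lit 426334) (nat_lit 13) (.e (nat_lit 483350) (nat_lit 17) (.e (nat_lit 6490) (nat_lit 343) .nil))))))) (.g (nat_lit 5) .nil .nil)))) (.nd (nat_lit 5) 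
(.lf (nat_lit 19159) (.g (nat_lit 2483) (.e (nat_lit 1179) (nat_lit 87) (.e (nat_lit 57681) (nat_lit 155) (.e (nat_lit 122919) (nat_lit 15) (.e (nat_lit 360451) (nat_lit 0) (.e (nat_lit 6940) (nat_lit 375) .nil))))) .nil)) 
(.lf (nat_lit 19191) (.g (nat_lit 1017) (.e (nat_lit 1179) (nat_lit 87) (.e (nat_lit 57872) (nat_lit 264) (.e (nat_lit 1209) (nat_lit 89) (.e (nat_lit 73782) (nat_lit 32) .nil)))) .nil)))) (.nd (nat_lit 4) (.nd (nat_lit 5) 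
(.lf (nat_lit 19151) (.g (nat_lit 2929) (.e (nat_lit 1179) (nat_lit 87) (.e (nat_lit 57480) (nat_lit 28) (.e (nat_lit 557109) (nat_lit 15) (.e (nat_lit 188452) (nat_lit 23) (.e (nat_lit 204864) (nat_lit 27) (.e (nat_lit 344092) (nat_lit 18) (.e (nat_lit 5875) (nat_lit 320) .nil))))))) (.g (nat_lit 4) .nil .nil))) 
(.lf (nat_lit 19183) (.g (nat_lit 5436) (.e (nat_lit 1179) (nat_lit 87) (.e (nat_lit 57870) (nat_lit 264) (.e (nat_lit 1200) (nat_lit 88) (.e (nat_lit 65629) (nat_lit 14) (.e (nat_lit 401459) (nat_lit 13) (.e (nat_lit 483350) (nat_lit 17) (.e (nat_lit 6490) (nat_lit 343) .nil))))))) (.g (nat_lit 7) .nil .nil)))) (.nd (nat_lit 5) 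
(.lf (nat_lit 19167) (.g (nat_lit 873) (.e (nat_lit 1179) (nat_lit 87) (.e (nat_lit 57849) (nat_lit 252) (.e (nat_lit 57437) (nat_lit 17) .nil))) .nil)) 
(.lf (nat_lit 19199) (.g (nat_lit 2910) (.e (nat_lit 1180) (nat_lit 87) (.e (nat_lit 57479) (nat_lit 28) (.e (nat_lit 557105) (nat_lit 14) (.e (nat_lit 180252) (nat_lit 10) (.e (nat_lit 573480) (nat_lit 13) .nil))))) .nil))))))))

noncomputable def tv265 : DT := (.nd (nat_lit 0) (.nd (nat_lit 1) (.nd (nat_lit 2) (.nd (nat_lit 3) (.nd (nat_lit 4) (.nd (nat_lit 5) 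
(.lf (nat_lit 19200) (.g (nat_lit 3396) (.e (nat_lit 1180) (nat_lit 87) (.e (nat_lit 57479) (nat_lit 28) (.e (nat_lit 557105) (nat_lit 14) (.e (nat_lit 180252) (nat_lit 10) (.e (nat_lit 573481) (nat_lit 13) .nil))))) .nil)) 
(.lf (nat_lit 19232) (.g (nat_lit 2611) (.e (nat_lit 1180) (nat_lit 87) (.e (nat_lit 57480) (nat_lit 28) (.e (nat_lit 557108) (nat_lit 15) (.e (nat_lit 188452) (nat_lit 23) (.e (nat_lit 204885) (nat_lit 33) (.e (nat_lit 401414) (nat_lit 0) (.e (nat_lit 2424) (nat_lit 157) (.e (nat_lit 4565) (nat_lit 269) .nil)))))))) (.g (nat_lit 5) .nil .nil)))) (.nd (nat_lit 5) 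
(.lf (nat_lit 19216) (.g (nat_lit 943) (.e (nat_lit 1180) (nat_lit 87) (.e (nat_lit 57479) (nat_lit 28) (.e (nat_lit 557109) (nat_lit 15) .nil))) .nil)) 
(.lf (nat_lit 19248) (.g (nat_lit 2166) (.e (nat_lit 1180) (nat_lit 87) (.e (nat_lit 57931) (nat_lit 282) (.e (nat_lit 163867) (nat_lit 2) (.e (nat_lit 196670) (nat_lit 14) (.e (nat_lit 73746) (nat_lit 3) .nil))))) .nil)))) (.nd (nat_lit 4) (.nd (nat_lit 5) 
(.lf (nat_lit 19208) (.g (nat_lit 3489) (.e (nat_lit 1180) (nat_lit 87) (.e (nat_lit 57479) (nat_lit 28) (.e (nat_lit 557105) (nat_lit 14) (.e (nat_lit 180252) (nat_lit 10) (.e (nat_lit 573488) (nat_lit 14) (.e (nat_lit 73747) (nat_lit 3) (.e (nat_lit 516120) (nat_lit 1) (.e (nat_lit 164147) (nat_lit 152) .nil)))))))) (.g (nat_lit 4) .nil .nil))) 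
(.lf (nat_lit 19240) (.g (nat_lit 1897) (.e (nat_lit 1180) (nat_lit 87) (.e (nat_lit 57849) (nat_lit 252) (.e (nat_lit 57379) (nat_lit 3) (.e (nat_lit 106240) (nat_lit 10) .nil)))) .nil))) (.nd (nat_lit 5) 
(.lf (nat_lit 19224) (.g (nat_lit 694) (.e (nat_lit 1180) (nat_lit 87) (.e (nat_lit 57480) (nat_lit 28) (.e (nat_lit 557108) (nat_lit 15) .nil))) .nil)) 
(.lf (nat_lit 19256) (.g (nat_lit 2164) (.e (nat_lit 1181) (nat_lit 87) (.e (nat_lit 57466) (nat_lit 23) (.e (nat_lit 516146) (nat_lit 9) (.e (nat_lit 426438) (nat_lit 18) (.e (nat_lit 98377) (nat_lit 30) (.e (nat_lit 458789) (nat_lit 23) (.e (nat_lit 532499) (nat_lit 1) (.e (nat_lit 57755) (nat_lit 209) .nil)))))))) (.g (nat_lit 4) .nil .nil)))))) 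
(.nd (nat_lit 3) (.nd (nat_lit 4) (.nd (nat_lit 5) 
(.lf (nat_lit 19204) (.g (nat_lit 3600) (.e (nat_lit 1180) (nat_lit 87) (.e (nat_lit 57479) (nat_lit 28) (.e (nat_lit 557105) (nat_lit 14) (.e (nat_lit 180252) (nat_lit 10) (.e (nat_lit 573487) (nat_lit 14) (.e (nat_lit 73747) (nat_lit 3) (.e (nat_lit 516117) (nat_lit 1) (.e (nat_lit 164165) (nat_lit 152) .nil)))))))) (.g (nat_lit 5) .nil .nil))) 
(.lf (nat_lit 19236) (.g (nat_lit 1948) (.e (nat_lit 1180) (nat_lit 87) (.e (nat_lit 57849) (nat_lit 252) (.e (nat_lit 57372) (nat_lit 2) (.e (nat_lit 90128) (nat_lit 9) .nil)))) .nil))) (.nd (nat_lit 5) 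
(.lf (nat_lit 19220) (.g (nat_lit 2206) (.e (nat_lit 1180) (nat_lit 87) (.e (nat_lit 57480) (nat_lit 28) (.e (nat_lit 557105) (nat_lit 14) (.e (nat_lit 180252) (nat_lit 10) (.e (nat_lit 573481) (nat_lit 13) .nil))))) .nil)) 
(.lf (nat_lit 19252) (.g (nat_lit 2301) (.e (nat_lit 1181) (nat_lit 87) (.e (nat_lit 57465) (nat_lit 23) (.e (nat_lit 516146) (nat_lit 9) (.e (nat_lit 426428) (nat_lit 17) (.e (nat_lit 90174) (nat_lit 14) (.e (nat_lit 180243) (nat_lit 5) (.e (nat_lit 532501) (nat_lit 1) (.e (nat_lit 57754) (nat_lit 209) .nil)))))))) (.g (nat_lit 4) .nil .nil))))) (.nd (nat_lit 4) (.nd (nat_lit 5) 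
(.lf (nat_lit 19212) (.g (nat_lit 2076) (.e (nat_lit 1180) (nat_lit 87) (.e (nat_lit 57479) (nat_lit 28) (.e (nat_lit 557105) (nat_lit 14) (.e (nat_lit 180252) (nat_lit 10) (.e (nat_lit 573489) (nat_lit 14) (.e (nat_lit 73755) (nat_lit 8) (.e (nat_lit 557083) (nat_lit 10) (.e (nat_lit 8291) (nat_lit 51) (.e (nat_lit 6320) (nat_lit 337) .nil))))))))) (.g (nat_lit 4) .nil .nil))) 
(.lf (nat_lit 19244) (.g (nat_lit 3132) (.e (nat_lit 1180) (nat_lit 87) (.e (nat_lit 57854) (nat_lit 252) (.e (nat_lit 57373) (nat_lit 2) (.e (nat_lit 90160) (nat_lit 11) (.e (nat_lit 24608) (nat_lit 3) .nil))))) .nil))) (.nd (nat_lit 5) 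
(.lf (nat_lit 19228) (.g (nat_lit 3135) (.e (nat_lit 1180) (nat_lit 87) (.e (nat_lit 57480) (nat_lit 28) (.e (nat_lit 557108) (nat_lit 15) (.e (nat_lit 188452) (nat_lit 23) (.e (nat_lit 204874) (nat_lit 30) .nil))))) .nil)) 
(.lf (nat_lit 19260) (.g (nat_lit 2502) (.e (nat_lit 1181) (nat_lit 87) (.e (nat_lit 57466) (nat_lit 23) (.e (nat_lit 516179) (nat_lit 15) (.e (nat_lit 475177) (nat_lit 24) (.e (nat_lit 516169) (nat_lit 13) (.e (nat_lit 458789) (nat_lit 23) (.e (nat_lit 532499) (nat_lit 1) (.e (nat_lit 57755) (nat_lit 209) .nil)))))))) (.g (nat_lit 4) .nil .nil))))))) 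
(.nd (nat_lit 2) (.nd (nat_lit 3) (.nd (nat_lit 4) (.nd (nat_lit 5) 
(.lf (nat_lit 19202) (.g (nat_lit 3129) (.e (nat_lit 1180) (nat_lit 87) (.e (nat_lit 57479) (nat_lit 28) (.e (nat_lit 557105) (nat_lit 14) (.e (nat_lit 180252) (nat_lit 10) (.e (nat_lit 573487) (nat_lit 14) .nil))))) .nil)) 
(.lf (nat_lit 19234) (.g (nat_lit 3314) (.e (nat_lit 1180) (nat_lit 87) (.e (nat_lit 57683) (nat_lit 155) (.e (nat_lit 122903) (nat_lit 12) (.e (nat_lit 336013) (nat_lit 2) (.e (nat_lit 90170) (nat_lit 13) (.e (nat_lit 172106) (nat_lit 10) (.e (nat_lit 434244) (nat_lit 28) (.e (nat_lit 573458) (nat_lit 9) .nil)))))))) (.g (nat_lit 8) .nil .nil)))) (.nd (nat_lit 5) 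
(.lf (nat_lit 19218) (.g (nat_lit 2350) (.e (nat_lit 1180) (nat_lit 87) (.e (nat_lit 57479) (nat_lit 28) (.e (nat_lit 557109) (nat_lit 15) (.e (nat_lit 188461) (nat_lit 26) .nil)))) .nil)) 
(.lf (nat_lit 19250) (.g (nat_lit 2405) (.e (nat_lit 1180) (nat_lit 87) (.e (nat_lit 57931) (nat_lit 282) (.e (nat_lit 163869) (nat_lit 2) (.e (nat_lit 196670) (nat_lit 14) (.e (nat_lit 73746) (nat_lit 3) (.e (nat_lit 516129) (nat_lit 3) (.e (nat_lit 221210) (nat_lit 22) (.e (nat_lit 196632) (nat_lit 9) .nil)))))))) (.g (nat_lit 4) .nil .nil))))) (.nd (nat_lit 4) (.nd (nat_lit 5) 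
(.lf (nat_lit 19210) (.g (nat_lit 3211) (.e (nat_lit 1180) (nat_lit 87) (.e (nat_lit 57479) (nat_lit 28) (.e (nat_lit 557105) (nat_lit 14) (.e (nat_lit 180252) (nat_lit 10) (.e (nat_lit 573489) (nat_lit 14) (.e (nat_lit 73748) (nat_lit 3) (.e (nat_lit 516119) (nat_lit 1) (.e (nat_lit 164164) (nat_lit 152) .nil)))))))) (.g (nat_lit 5) .nil .nil))) 
(.lf (nat_lit 19242) (.g (nat_lit 2696) (.e (nat_lit 1180) (nat_lit 87) (.e (nat_lit 57854) (nat_lit 252) (.e (nat_lit 57373) (nat_lit 2) (.e (nat_lit 90128) (nat_lit 9) (.e (nat_lit 297) (nat_lit 22) .nil))))) .nil))) (.nd (nat_lit 5) 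
(.lf (nat_lit 19226) (.g (nat_lit 3299) (.e (nat_lit 1180) (nat_lit 87) (.e (nat_lit 57480) (nat_lit 28) (.e (nat_lit 557108) (nat_lit 15) (.e (nat_lit 188452) (nat_lit 23) (.e (nat_lit 204864) (nat_lit 27) .nil))))) .nil)) 
(.lf (nat_lit 19258) (.g (nat_lit 2850) (.e (nat_lit 1181) (nat_lit 87) (.e (nat_lit 57466) (nat_lit 23) (.e (nat_lit 516179) (nat_lit 15) (.e (nat_lit 475177) (nat_lit 24) (.e (nat_lit 516150) (nat_lit 9) (.e (nat_lit 426131) (nat_lit 3) (.e (nat_lit 204830) (nat_lit 18) (.e (nat_lit 57754) (nat_lit 209) .nil)))))))) (.g (nat_lit 5) .nil .nil)))))) 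
(.nd (nat_lit 3) (.nd (nat_lit 4) (.nd (nat_lit 5) 
(.lf (nat_lit 19206) (.g (nat_lit 3458) (.e (nat_lit 1180) (nat_lit 87) (.e (nat_lit 57479) (nat_lit 28) (.e (nat_lit 557105) (nat_lit 14) (.e (nat_lit 180252) (nat_lit 10) (.e (nat_lit 573488) (nat_lit 14) .nil))))) .nil)) 
(.lf (nat_lit 19238) (.g (nat_lit 1924) (.e (nat_lit 1180) (nat_lit 87) (.e (nat_lit 57849) (nat_lit 252) (.e (nat_lit 57377) (nat_lit 3) (.e (nat_lit 106240) (nat_lit 10) .nil)))) .nil))) (.nd (nat_lit 5) 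
(.lf (nat_lit 19222) (.g (nat_lit 3206) (.e (nat_lit 1180) (nat_lit 87) (.e (nat_lit 57480) (nat_lit 28) (.e (nat_lit 557105) (nat_lit 14) (.e (nat_lit 180252) (nat_lit 10) (.e (nat_lit 573488) (nat_lit 14) (.e (nat_lit 73747) (nat_lit 3) (.e (nat_lit 516119) (nat_lit 1) (.e (nat_lit 164163) (nat_lit 152) .nil)))))))) (.g (nat_lit 6) .nil .nil))) 
(.lf (nat_lit 19254) (.g (nat_lit 3111) (.e (nat_lit 1181) (nat_lit 87) (.e (nat_lit 57466) (nat_lit 23) (.e (nat_lit 516146) (nat_lit 9) (.e (nat_lit 426428) (nat_lit 17) (.e (nat_lit 90174) (nat_lit 14) (.e (nat_lit 180243) (nat_lit 5) (.e (nat_lit 532501) (nat_lit 1) (.e (nat_lit 57754) (nat_lit 209) .nil)))))))) (.g (nat_lit 5) .nil .nil))))) (.nd (nat_lit 4) (.nd (nat_lit 5) 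
(.lf (nat_lit 19214) (.g (nat_lit 2933) (.e (nat_lit 1180) (nat_lit 87) (.e (nat_lit 57479) (nat_lit 28) (.e (nat_lit 557105) (nat_lit 14) (.e (nat_lit 180252) (nat_lit 10) (.e (nat_lit 573489) (nat_lit 14) (.e (nat_lit 73755) (nat_lit 8) (.e (nat_lit 557090) (nat_lit 12) (.e (nat_lit 171776) (nat_lit 0) (.e (nat_lit 5112) (nat_lit 292) .nil))))))))) (.g (nat_lit 6) .nil .nil))) 
(.lf (nat_lit 19246) (.g (nat_lit 3822) (.e (nat_lit 1180) (nat_lit 87) (.e (nat_lit 57930) (nat_lit 282) (.e (nat_lit 163867) (nat_lit 2) (.e (nat_lit 196670) (nat_lit 14) (.e (nat_lit 73746) (nat_lit 3) (.e (nat_lit 516131) (nat_lit 3) (.e (nat_lit 221212) (nat_lit 22) (.e (nat_lit 196632) (nat_lit 9) .nil)))))))) (.g (nat_lit 8) .nil .nil)))) (.nd (nat_lit 5) 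
(.lf (nat_lit 19230) (.g (nat_lit 2605) (.e (nat_lit 1180) (nat_lit 87) (.e (nat_lit 57480) (nat_lit 28) (.e (nat_lit 557108) (nat_lit 15) (.e (nat_lit 188452) (nat_lit 23) (.e (nat_lit 204885) (nat_lit 33) (.e (nat_lit 401414) (nat_lit 0) (.e (nat_lit 2424) (nat_lit 157) (.e (nat_lit 4560) (nat_lit 269) .nil)))))))) (.g (nat_lit 5) .nil .nil))) 
(.lf (nat_lit 19262) (.g (nat_lit 2324) (.e (nat_lit 1181) (nat_lit 87) (.e (nat_lit 57466) (nat_lit 23) (.e (nat_lit 516179) (nat_lit 15) (.e (nat_lit 475177) (nat_lit 24) (.e (nat_lit 516171) (nat_lit 13) (.e (nat_lit 458789) (nat_lit 23) (.e (nat_lit 532499) (nat_lit 1) (.e (nat_lit 57754) (nat_lit 209) .nil)))))))) (.g (nat_lit 4) .nil .nil)))))))) 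
(.nd (nat_lit 1) (.nd (nat_lit 2) (.nd (nat_lit 3) (.nd (nat_lit 4) (.nd (nat_lit 5) 
(.lf (nat_lit 19201) (.g (nat_lit 2879) (.e (nat_lit 1180) (nat_lit 87) (.e (nat_lit 57479) (nat_lit 28) (.e (nat_lit 557105) (nat_lit 14) (.e (nat_lit 180252) (nat_lit 10) (.e (nat_lit 573482) (nat_lit 13) .nil))))) .nil)) 
(.lf (nat_lit 19233) (.g (nat_lit 825) (.e (nat_lit 1180) (nat_lit 87) (.e (nat_lit 57666) (nat_lit 152) (.e (nat_lit 1077) (nat_lit 81) (.e (nat_lit 1656) (nat_lit 115) .nil)))) .nil))) (.nd (nat_lit 5) 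
(.lf (nat_lit 19217) (.g (nat_lit 2099) (.e (nat_lit 1180) (nat_lit 87) (.e (nat_lit 57479) (nat_lit 28) (.e (nat_lit 557109) (nat_lit 15) (.e (nat_lit 196352) (nat_lit 18) .nil)))) .nil)) 
(.lf (nat_lit 19249) (.g (nat_lit 3547) (.e (nat_lit 1180) (nat_lit 87) (.e (nat_lit 57931) (nat_lit 282) (.e (nat_lit 163867) (nat_lit 2) (.e (nat_lit 196670) (nat_lit 14) (.e (nat_lit 73746) (nat_lit 3) (.e (nat_lit 516131) (nat_lit 3) (.e (nat_lit 221212) (nat_lit 22) (.e (nat_lit 196632) (nat_lit 9) .nil)))))))) (.g (nat_lit 6) .nil .nil))))) (.nd (nat_lit 4) (.nd (nat_lit 5) 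
(.lf (nat_lit 19209) (.g (nat_lit 2058) (.e (nat_lit 1180) (nat_lit 87) (.e (nat_lit 57479) (nat_lit 28) (.e (nat_lit 557105) (nat_lit 14) (.e (nat_lit 180252) (nat_lit 10) (.e (nat_lit 573489) (nat_lit 14) .nil))))) .nil)) 
(.lf (nat_lit 19241) (.g (nat_lit 1855) (.e (nat_lit 1180) (nat_lit 87) (.e (nat_lit 57849) (nat_lit 252) (.e (nat_lit 57411) (nat_lit 12) (.e (nat_lit 336211) (nat_lit 13) .nil)))) .nil))) (.nd (nat_lit 5) 
(.lf (nat_lit 19225) (.g (nat_lit 1640) (.e (nat_lit 1180) (nat_lit 87) (.e (nat_lit 57480) (nat_lit 28) (.e (nat_lit 557108) (nat_lit 15) (.e (nat_lit 188452) (nat_lit 23) .nil)))) .nil)) 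
(.lf (nat_lit 19257) (.g (nat_lit 2250) (.e (nat_lit 1181) (nat_lit 87) (.e (nat_lit 57466) (nat_lit 23) (.e (nat_lit 516146) (nat_lit 9) (.e (nat_lit 426438) (nat_lit 18) (.e (nat_lit 98377) (nat_lit 30) (.e (nat_lit 458789) (nat_lit 23) (.e (nat_lit 532501) (nat_lit 1) (.e (nat_lit 57754) (nat_lit 209) .nil)))))))) (.g (nat_lit 4) .nil .nil)))))) 
(.nd (nat_lit 3) (.nd (nat_lit 4) (.nd (nat_lit 5) 
(.lf (nat_lit 19205) (.g (nat_lit 3205) (.e (nat_lit 1180) (nat_lit 87) (.e (nat_lit 57479) (nat_lit 28) (.e (nat_lit 557105) (nat_lit 14) (.e (nat_lit 180252) (nat_lit 10) (.e (nat_lit 573487) (nat_lit 14) (.e (nat_lit 73747) (nat_lit 3) (.e (nat_lit 516120) (nat_lit 1) (.e (nat_lit 164166) (nat_lit 152) .nil)))))))) (.g (nat_lit 4) .nil .nil))) 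
(.lf (nat_lit 19237) (.g (nat_lit 3029) (.e (nat_lit 1180) (nat_lit 87) (.e (nat_lit 57849) (nat_lit 252) (.e (nat_lit 57372) (nat_lit 2) (.e (nat_lit 90160) (nat_lit 11) (.e (nat_lit 24608) (nat_lit 3) .nil))))) .nil))) (.nd (nat_lit 5) 
(.lf (nat_lit 19221) (.g (nat_lit 2563) (.e (nat_lit 1180) (nat_lit 87) (.e (nat_lit 57480) (nat_lit 28) (.e (nat_lit 557105) (nat_lit 14) (.e (nat_lit 180252) (nat_lit 10) (.e (nat_lit 573487) (nat_lit 14) .nil))))) .nil)) 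
(.lf (nat_lit 19253) (.g (nat_lit 3115) (.e (nat_lit 1181) (nat_lit 87) (.e (nat_lit 57466) (nat_lit 23) (.e (nat_lit 516146) (nat_lit 9) (.e (nat_lit 426428) (nat_lit 17) (.e (nat_lit 90170) (nat_lit 13) (.e (nat_lit 172065) (nat_lit 3) (.e (nat_lit 204830) (nat_lit 18) (.e (nat_lit 57754) (nat_lit 209) .nil)))))))) (.g (nat_lit 5) .nil .nil))))) (.nd (nat_lit 4) (.nd (nat_lit 5) 
(.lf (nat_lit 19213) (.g (nat_lit 3614) (.e (nat_lit 1180) (nat_lit 87) (.e (nat_lit 57479) (nat_lit 28) (.e (nat_lit 557105) (nat_lit 14) (.e (nat_lit 180252) (nat_lit 10) (.e (nat_lit 573489) (nat_lit 14) (.e (nat_lit 73755) (nat_lit 8) (.e (nat_lit 557090) (nat_lit 12) (.e (nat_lit 163842) (nat_lit 0) (.e (nat_lit 5113) (nat_lit 292) .nil))))))))) (.g (nat_lit 7) .nil .nil))) 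
(.lf (nat_lit 19245) (.g (nat_lit 1661) (.e (nat_lit 1180) (nat_lit 87) (.e (nat_lit 57854) (nat_lit 252) (.e (nat_lit 57409) (nat_lit 12) (.e (nat_lit 336211) (nat_lit 13) .nil)))) .nil))) (.nd (nat_lit 5) 
(.lf (nat_lit 19229) (.g (nat_lit 1882) (.e (nat_lit 1180) (nat_lit 87) (.e (nat_lit 57480) (nat_lit 28) (.e (nat_lit 557108) (nat_lit 15) (.e (nat_lit 188452) (nat_lit 23) (.e (nat_lit 204885) (nat_lit 33) .nil))))) .nil)) 
(.lf (nat_lit 19261) (.g (nat_lit 2654) (.e (nat_lit 1181) (nat_lit 87) (.e (nat_lit 57466) (nat_lit 23) (.e (nat_lit 516179) (nat_lit 15) (.e (nat_lit 475177) (nat_lit 24) (.e (nat_lit 516169) (nat_lit 13) (.e (nat_lit 458789) (nat_lit 23) (.e (nat_lit 532501) (nat_lit 1) (.e (nat_lit 57754) (nat_lit 209) .nil)))))))) (.g (nat_lit 4) .nil .nil))))))) 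
(.nd (nat_lit 2) (.nd (nat_lit 3) (.nd (nat_lit 4) (.nd (nat_lit 5) 
(.lf (nat_lit 19203) (.g (nat_lit 3196) (.e (nat_lit 1180) (nat_lit 87) (.e (nat_lit 57479) (nat_lit 28) (.e (nat_lit 557105) (nat_lit 14) (.e (nat_lit 180252) (nat_lit 10) (.e (nat_lit 573487) (nat_lit 14) (.e (nat_lit 73747) (nat_lit 3) (.e (nat_lit 516116) (nat_lit 1) (.e (nat_lit 164164) (nat_lit 152) .nil)))))))) (.g (nat_lit 4) .nil .nil))) 
(.lf (nat_lit 19235) (.g (nat_lit 1509) (.e (nat_lit 1180) (nat_lit 87) (.e (nat_lit 57847) (nat_lit 252) (.e (nat_lit 57411) (nat_lit 12) (.e (nat_lit 336211) (nat_lit 13) .nil)))) .nil))) (.nd (nat_lit 5) 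
(.lf (nat_lit 19219) (.g (nat_lit 2428) (.e (nat_lit 1180) (nat_lit 87) (.e (nat_lit 57480) (nat_lit 28) (.e (nat_lit 557103) (nat_lit 14) (.e (nat_lit 180250) (nat_lit 10) (.e (nat_lit 573487) (nat_lit 14) (.e (nat_lit 73746) (nat_lit 3) (.e (nat_lit 516117) (nat_lit 1) (.e (nat_lit 164166) (nat_lit 152) .nil)))))))) (.g (nat_lit 4) .nil .nil))) 
(.lf (nat_lit 19251) (.g (nat_lit 2310) (.e (nat_lit 1181) (nat_lit 87) (.e (nat_lit 57465) (nat_lit 23) (.e (nat_lit 516146) (nat_lit 9) (.e (nat_lit 426428) (nat_lit 17) (.e (nat_lit 90170) (nat_lit 13) (.e (nat_lit 172065) (nat_lit 3) (.e (nat_lit 204830) (nat_lit 18) (.e (nat_lit 57754) (nat_lit 209) .nil)))))))) (.g (nat_lit 4) .nil .nil))))) (.nd (nat_lit 4) (.nd (nat_lit 5) 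
(.lf (nat_lit 19211) (.g (nat_lit 2061) (.e (nat_lit 1180) (nat_lit 87) (.e (nat_lit 57479) (nat_lit 28) (.e (nat_lit 557105) (nat_lit 14) (.e (nat_lit 180252) (nat_lit 10) (.e (nat_lit 573489) (nat_lit 14) (.e (nat_lit 73748) (nat_lit 3) (.e (nat_lit 516119) (nat_lit 1) (.e (nat_lit 164167) (nat_lit 152) .nil)))))))) (.g (nat_lit 4) .nil .nil))) 
(.lf (nat_lit 19243) (.g (nat_lit 2636) (.e (nat_lit 1180) (nat_lit 87) (.e (nat_lit 57854) (nat_lit 252) (.e (nat_lit 57373) (nat_lit 2) (.e (nat_lit 90133) (nat_lit 9) .nil)))) .nil))) (.nd (nat_lit 5) 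
(.lf (nat_lit 19227) (.g (nat_lit 3168) (.e (nat_lit 1180) (nat_lit 87) (.e (nat_lit 57480) (nat_lit 28) (.e (nat_lit 557108) (nat_lit 15) (.e (nat_lit 188452) (nat_lit 23) (.e (nat_lit 204873) (nat_lit 30) .nil))))) .nil)) 
(.lf (nat_lit 19259) (.g (nat_lit 2588) (.e (nat_lit 1181) (nat_lit 87) (.e (nat_lit 57466) (nat_lit 23) (.e (nat_lit 516179) (nat_lit 15) (.e (nat_lit 475177) (nat_lit 24) (.e (nat_lit 516169) (nat_lit 13) (.e (nat_lit 458789) (nat_lit 23) (.e (nat_lit 532499) (nat_lit 1) (.e (nat_lit 57754) (nat_lit 209) .nil)))))))) (.g (nat_lit 4) .nil .nil)))))) 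
(.nd (nat_lit 3) (.nd (nat_lit 4) (.nd (nat_lit 5) 
(.lf (nat_lit 19207) (.g (nat_lit 4300) (.e (nat_lit 1180) (nat_lit 87) (.e (nat_lit 57479) (nat_lit 28) (.e (nat_lit 557105) (nat_lit 14) (.e (nat_lit 180252) (nat_lit 10) (.e (nat_lit 573488) (nat_lit 14) (.e (nat_lit 73747) (nat_lit 3) (.e (nat_lit 516117) (nat_lit 1) (.e (nat_lit 164164) (nat_lit 152) .nil)))))))) (.g (nat_lit 5) .nil .nil))) 
(.lf (nat_lit 19239) (.g (nat_lit 1922) (.e (nat_lit 1180) (nat_lit 87) (.e (nat_lit 57849) (nat_lit 252) (.e (nat_lit 57379) (nat_lit 3) (.e (nat_lit 98313) (nat_lit 9) .nil)))) .nil))) (.nd (nat_lit 5) 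
(.lf (nat_lit 19223) (.g (nat_lit 1587) (.e (nat_lit 1180) (nat_lit 87) (.e (nat_lit 57480) (nat_lit 28) (.e (nat_lit 557107) (nat_lit 15) (.e (nat_lit 188450) (nat_lit 23) .nil)))) .nil)) 
(.lf (nat_lit 19255) (.g (nat_lit 2250) (.e (nat_lit 1181) (nat_lit 87) (.e (nat_lit 57466) (nat_lit 23) (.e (nat_lit 516146) (nat_lit 9) (.e (nat_lit 426438) (nat_lit 18) (.e (nat_lit 98377) (nat_lit 30) (.e (nat_lit 458789) (nat_lit 23) (.e (nat_lit 532499) (nat_lit 1) (.e (nat_lit 57754) (nat_lit 209) .nil)))))))) (.g (nat_lit 4) .nil .nil))))) (.nd (nat_lit 4) (.nd (nat_lit 5) 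
(.lf (nat_lit 19215) (.g (nat_lit 912) (.e (nat_lit 1180) (nat_lit 87) (.e (nat_lit 57479) (nat_lit 28) (.e (nat_lit 557107) (nat_lit 15) .nil))) .nil)) 
(.lf (nat_lit 19247) (.g (nat_lit 3523) (.e (nat_lit 1180) (nat_lit 87) (.e (nat_lit 57930) (nat_lit 282) (.e (nat_lit 163869) (nat_lit 2) (.e (nat_lit 196670) (nat_lit 14) (.e (nat_lit 73746) (nat_lit 3) (.e (nat_lit 516131) (nat_lit 3) (.e (nat_lit 221212) (nat_lit 22) (.e (nat_lit 196632) (nat_lit 9) .nil)))))))) (.g (nat_lit 8) .nil .nil)))) (.nd (nat_lit 5) 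
(.lf (nat_lit 19231) (.g (nat_lit 2635) (.e (nat_lit 1180) (nat_lit 87) (.e (nat_lit 57480) (nat_lit 28) (.e (nat_lit 557108) (nat_lit 15) (.e (nat_lit 188452) (nat_lit 23) (.e (nat_lit 204885) (nat_lit 33) (.e (nat_lit 401414) (nat_lit 0) (.e (nat_lit 2424) (nat_lit 157) (.e (nat_lit 4563) (nat_lit 269) .nil)))))))) (.g (nat_lit 5) .nil .nil))) 
(.lf (nat_lit 19263) (.g (nat_lit 2238) (.e (nat_lit 1181) (nat_lit 87) (.e (nat_lit 57466) (nat_lit 23) (.e (nat_lit 516179) (nat_lit 15) (.e (nat_lit 475177) (nat_lit 24) (.e (nat_lit 516171) (nat_lit 13) (.e (nat_lit 458789) (nat_lit 23) (.e (nat_lit 532499) (nat_lit 1) (.e (nat_lit 57755) (nat_lit 209) .nil)))))))) (.g (nat_lit 4) .nil .nil)))))))))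

noncomputable def tv266 : DT := (.nd (nat_lit 0) (.nd (nat_lit 1) (.nd (nat_lit 2) (.nd (nat_lit 3) (.nd (nat_lit 4) (.nd (nat_lit 5) 
(.lf (nat_lit 19264) (.g (nat_lit 2423) (.e (nat_lit 1181) (nat_lit 87) (.e (nat_lit 57466) (nat_lit 23) (.e (nat_lit 516179) (nat_lit 15) (.e (nat_lit 475177) (nat_lit 24) (.e (nat_lit 516171) (nat_lit 13) (.e (nat_lit 458789) (nat_lit 23) (.e (nat_lit 532501) (nat_lit 1) (.e (nat_lit 57754) (nat_lit 209) .nil)))))))) (.g (nat_lit 4) .nil .nil))) 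
(.lf (nat_lit 19296) (.g (nat_lit 3488) (.e (nat_lit 1181) (nat_lit 87) (.e (nat_lit 57478) (nat_lit 28) (.e (nat_lit 557098) (nat_lit 13) (.e (nat_lit 172115) (nat_lit 10) (.e (nat_lit 434231) (nat_lit 23) (.e (nat_lit 532527) (nat_lit 9) (.e (nat_lit 335997) (nat_lit 1) (.e (nat_lit 57872) (nat_lit 264) .nil)))))))) (.g (nat_lit 5) .nil .nil)))) (.nd (nat_lit 5) 
(.lf (nat_lit 19280) (.g (nat_lit 3187) (.e (nat_lit 1181) (nat_lit 87) (.e (nat_lit 57478) (nat_lit 28) (.e (nat_lit 557098) (nat_lit 13) (.e (nat_lit 172097) (nat_lit 9) (.e (nat_lit 426140) (nat_lit 3) (.e (nat_lit 204850) (nat_lit 26) (.e (nat_lit 335997) (nat_lit 1) (.e (nat_lit 57872) (nat_lit 264) .nil)))))))) (.g (nat_lit 5) .nil .nil))) 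
(.lf (nat_lit 19312) (.g (nat_lit 3074) (.e (nat_lit 1181) (nat_lit 87) (.e (nat_lit 57478) (nat_lit 28) (.e (nat_lit 557098) (nat_lit 13) (.e (nat_lit 172115) (nat_lit 10) (.e (nat_lit 434231) (nat_lit 23) (.e (nat_lit 532555) (nat_lit 13) (.e (nat_lit 368662) (nat_lit 18) (.e (nat_lit 5907) (nat_lit 320) .nil)))))))) (.g (nat_lit 5) .nil .nil))))) (.nd (nat_lit 4) (.nd (nat_lit 5) 
(.lf (nat_lit 19272) (.g (nat_lit 3565) (.e (nat_lit 1181) (nat_lit 87) (.e (nat_lit 57478) (nat_lit 28) (.e (nat_lit 557098) (nat_lit 13) (.e (nat_lit 172097) (nat_lit 9) (.e (nat_lit 426125) (nat_lit 2) (.e (nat_lit 196666) (nat_lit 13) (.e (nat_lit 65563) (nat_lit 1) (.e (nat_lit 57870) (nat_lit 264) .nil)))))))) (.g (nat_lit 6) .nil .nil))) 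
(.lf (nat_lit 19304) (.g (nat_lit 4366) (.e (nat_lit 1181) (nat_lit 87) (.e (nat_lit 57478) (nat_lit 28) (.e (nat_lit 557098) (nat_lit 13) (.e (nat_lit 172115) (nat_lit 10) (.e (nat_lit 434231) (nat_lit 23) (.e (nat_lit 532543) (nat_lit 10) (.e (nat_lit 344097) (nat_lit 18) (.e (nat_lit 5907) (nat_lit 320) .nil)))))))) (.g (nat_lit 7) .nil .nil)))) (.nd (nat_lit 5) 
(.lf (nat_lit 19288) (.g (nat_lit 2631) (.e (nat_lit 1181) (nat_lit 87) (.e (nat_lit 57478) (nat_lit 28) (.e (nat_lit 557098) (nat_lit 13) (.e (nat_lit 172097) (nat_lit 9) (.e (nat_lit 426140) (nat_lit 3) (.e (nat_lit 204862) (nat_lit 27) (.e (nat_lit 344097) (nat_lit 18) (.e (nat_lit 5905) (nat_lit 320) .nil)))))))) (.g (nat_lit 4) .nil .nil))) 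
(.lf (nat_lit 19320) (.g (nat_lit 3422) (.e (nat_lit 1181) (nat_lit 87) (.e (nat_lit 57478) (nat_lit 28) (.e (nat_lit 557100) (nat_lit 13) (.e (nat_lit 172106) (nat_lit 10) (.e (nat_lit 434231) (nat_lit 23) (.e (nat_lit 532535) (nat_lit 9) (.e (nat_lit 335992) (nat_lit 1) (.e (nat_lit 57870) (nat_lit 264) .nil)))))))) (.g (nat_lit 5) .nil .nil)))))) 
(.nd (nat_lit 3) (.nd (nat_lit 4) (.nd (nat_lit 5) 
(.lf (nat_lit 19268) (.g (nat_lit 1262) (.e (nat_lit 1181) (nat_lit 87) (.e (nat_lit 57474) (nat_lit 28) (.e (nat_lit 557109) (nat_lit 15) (.e (nat_lit 188452) (nat_lit 23) .nil)))) .nil)) 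
(.lf (nat_lit 19300) (.g (nat_lit 4569) (.e (nat_lit 1181) (nat_lit 87) (.e (nat_lit 57478) (nat_lit 28) (.e (nat_lit 557098) (nat_lit 13) (.e (nat_lit 172115) (nat_lit 10) (.e (nat_lit 434231) (nat_lit 23) (.e (nat_lit 532535) (nat_lit 9) (.e (nat_lit 335992) (nat_lit 1) (.e (nat_lit 57870) (nat_lit 264) .nil)))))))) (.g (nat_lit 6) .nil .nil)))) (.nd (nat_lit 5) 
(.lf (nat_lit 19284) (.g (nat_lit 2862) (.e (nat_lit 1181) (nat_lit 87) (.e (nat_lit 57478) (nat_lit 28) (.e (nat_lit 557098) (nat_lit 13) (.e (nat_lit 172097) (nat_lit 9) (.e (nat_lit 426140) (nat_lit 3) (.e (nat_lit 204855) (nat_lit 26) (.e (nat_lit 335991) (nat_lit 1) (.e (nat_lit 57873) (nat_lit 264) .nil)))))))) (.g (nat_lit 5) .nil .nil))) 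
(.lf (nat_lit 19316) (.g (nat_lit 3386) (.e (nat_lit 1181) (nat_lit 87) (.e (nat_lit 57478) (nat_lit 28) (.e (nat_lit 557100) (nat_lit 13) (.e (nat_lit 172106) (nat_lit 10) (.e (nat_lit 434231) (nat_lit 23) (.e (nat_lit 532529) (nat_lit 9) (.e (nat_lit 343808) (nat_lit 1) (.e (nat_lit 57873) (nat_lit 264) .nil)))))))) (.g (nat_lit 5) .nil .nil))))) (.nd (nat_lit 4) (.nd (nat_lit 5) 
(.lf (nat_lit 19276) (.g (nat_lit 2748) (.e (nat_lit 1181) (nat_lit 87) (.e (nat_lit 57478) (nat_lit 28) (.e (nat_lit 557098) (nat_lit 13) (.e (nat_lit 172097) (nat_lit 9) (.e (nat_lit 426125) (nat_lit 2) (.e (nat_lit 196666) (nat_lit 13) (.e (nat_lit 65565) (nat_lit 1) (.e (nat_lit 57871) (nat_lit 264) .nil)))))))) (.g (nat_lit 4) .nil .nil))) 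
(.lf (nat_lit 19308) (.g (nat_lit 3372) (.e (nat_lit 1181) (nat_lit 87) (.e (nat_lit 57478) (nat_lit 28) (.e (nat_lit 557098) (nat_lit 13) (.e (nat_lit 172115) (nat_lit 10) (.e (nat_lit 434231) (nat_lit 23) (.e (nat_lit 532553) (nat_lit 13) (.e (nat_lit 368662) (nat_lit 18) (.e (nat_lit 5907) (nat_lit 320) .nil)))))))) (.g (nat_lit 5) .nil .nil)))) (.nd (nat_lit 5) 
(.lf (nat_lit 19292) (.g (nat_lit 3943) (.e (nat_lit 1181) (nat_lit 87) (.e (nat_lit 57478) (nat_lit 28) (.e (nat_lit 557098) (nat_lit 13) (.e (nat_lit 172097) (nat_lit 9) (.e (nat_lit 426140) (nat_lit 3) (.e (nat_lit 204863) (nat_lit 27) (.e (nat_lit 344097) (nat_lit 18) (.e (nat_lit 5906) (nat_lit 320) .nil)))))))) (.g (nat_lit 6) .nil .nil))) 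
(.lf (nat_lit 19324) (.g (nat_lit 4520) (.e (nat_lit 1181) (nat_lit 87) (.e (nat_lit 57478) (nat_lit 28) (.e (nat_lit 557100) (nat_lit 13) (.e (nat_lit 172106) (nat_lit 10) (.e (nat_lit 434231) (nat_lit 23) (.e (nat_lit 532543) (nat_lit 10) (.e (nat_lit 344097) (nat_lit 18) (.e (nat_lit 5907) (nat_lit 320) .nil)))))))) (.g (nat_lit 7) .nil .nil))))))) 
(.nd (nat_lit 2) (.nd (nat_lit 3) (.nd (nat_lit 4) (.nd (nat_lit 5) 
(.lf (nat_lit 19266) (.g (nat_lit 5104) (.e (nat_lit 1181) (nat_lit 87) (.e (nat_lit 57474) (nat_lit 28) (.e (nat_lit 557108) (nat_lit 15) (.e (nat_lit 188452) (nat_lit 23) (.e (nat_lit 204859) (nat_lit 26) (.e (nat_lit 335998) (nat_lit 1) (.e (nat_lit 57873) (nat_lit 264) .nil))))))) (.g (nat_lit 5) .nil .nil))) 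
(.lf (nat_lit 19298) (.g (nat_lit 2775) (.e (nat_lit 1181) (nat_lit 87) (.e (nat_lit 57478) (nat_lit 28) (.e (nat_lit 557098) (nat_lit 13) (.e (nat_lit 172115) (nat_lit 10) (.e (nat_lit 434231) (nat_lit 23) (.e (nat_lit 532535) (nat_lit 9) (.e (nat_lit 335985) (nat_lit 1) (.e (nat_lit 57871) (nat_lit 264) .nil)))))))) (.g (nat_lit 4) .nil .nil)))) (.nd (nat_lit 5) 
(.lf (nat_lit 19282) (.g (nat_lit 2372) (.e (nat_lit 1181) (nat_lit 87) (.e (nat_lit 57478) (nat_lit 28) (.e (nat_lit 557098) (nat_lit 13) (.e (nat_lit 172097) (nat_lit 9) (.e (nat_lit 426140) (nat_lit 3) (.e (nat_lit 204855) (nat_lit 26) (.e (nat_lit 335985) (nat_lit 1) (.e (nat_lit 57871) (nat_lit 264) .nil)))))))) (.g (nat_lit 4) .nil .nil))) 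
(.lf (nat_lit 19314) (.g (nat_lit 3421) (.e (nat_lit 1181) (nat_lit 87) (.e (nat_lit 57478) (nat_lit 28) (.e (nat_lit 557100) (nat_lit 13) (.e (nat_lit 172106) (nat_lit 10) (.e (nat_lit 434231) (nat_lit 23) (.e (nat_lit 532527) (nat_lit 9) (.e (nat_lit 335997) (nat_lit 1) (.e (nat_lit 57870) (nat_lit 264) .nil)))))))) (.g (nat_lit 5) .nil .nil))))) (.nd (nat_lit 4) (.nd (nat_lit 5) 
(.lf (nat_lit 19274) (.g (nat_lit 3560) (.e (nat_lit 1181) (nat_lit 87) (.e (nat_lit 57478) (nat_lit 28) (.e (nat_lit 557098) (nat_lit 13) (.e (nat_lit 172097) (nat_lit 9) (.e (nat_lit 426125) (nat_lit 2) (.e (nat_lit 196666) (nat_lit 13) (.e (nat_lit 65563) (nat_lit 1) (.e (nat_lit 57872) (nat_lit 264) .nil)))))))) (.g (nat_lit 6) .nil .nil))) 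
(.lf (nat_lit 19306) (.g (nat_lit 4040) (.e (nat_lit 1181) (nat_lit 87) (.e (nat_lit 57478) (nat_lit 28) (.e (nat_lit 557098) (nat_lit 13) (.e (nat_lit 172115) (nat_lit 10) (.e (nat_lit 434231) (nat_lit 23) (.e (nat_lit 532544) (nat_lit 10) (.e (nat_lit 344097) (nat_lit 18) (.e (nat_lit 5906) (nat_lit 320) .nil)))))))) (.g (nat_lit 6) .nil .nil)))) (.nd (nat_lit 5) 
(.lf (nat_lit 19290) (.g (nat_lit 4393) (.e (nat_lit 1181) (nat_lit 87) (.e (nat_lit 57478) (nat_lit 28) (.e (nat_lit 557098) (nat_lit 13) (.e (nat_lit 172097) (nat_lit 9) (.e (nat_lit 426140) (nat_lit 3) (.e (nat_lit 204862) (nat_lit 27) (.e (nat_lit 344097) (nat_lit 18) (.e (nat_lit 5907) (nat_lit 320) .nil)))))))) (.g (nat_lit 7) .nil .nil))) 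
(.lf (nat_lit 19322) (.g (nat_lit 3321) (.e (nat_lit 1181) (nat_lit 87) (.e (nat_lit 57478) (nat_lit 28) (.e (nat_lit 557100) (nat_lit 13) (.e (nat_lit 172106) (nat_lit 10) (.e (nat_lit 434231) (nat_lit 23) (.e (nat_lit 532535) (nat_lit 9) (.e (nat_lit 335992) (nat_lit 1) (.e (nat_lit 57873) (nat_lit 264) .nil)))))))) (.g (nat_lit 5) .nil .nil)))))) 
(.nd (nat_lit 3) (.nd (nat_lit 4) (.nd (nat_lit 5) 
(.lf (nat_lit 19270) (.g (nat_lit 2042) (.e (nat_lit 1181) (nat_lit 87) (.e (nat_lit 57478) (nat_lit 28) (.e (nat_lit 557095) (nat_lit 13) (.e (nat_lit 172115) (nat_lit 10) (.e (nat_lit 434231) (nat_lit 23) (.e (nat_lit 532544) (nat_lit 10) (.e (nat_lit 344097) (nat_lit 18) (.e (nat_lit 5907) (nat_lit 320) .nil)))))))) (.g (nat_lit 4) .nil .nil))) 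
(.lf (nat_lit 19302) (.g (nat_lit 2594) (.e (nat_lit 1181) (nat_lit 87) (.e (nat_lit 57478) (nat_lit 28) (.e (nat_lit 557098) (nat_lit 13) (.e (nat_lit 172115) (nat_lit 10) (.e (nat_lit 434231) (nat_lit 23) (.e (nat_lit 532543) (nat_lit 10) (.e (nat_lit 344097) (nat_lit 18) (.e (nat_lit 5905) (nat_lit 320) .nil)))))))) (.g (nat_lit 4) .nil .nil)))) (.nd (nat_lit 5) 
(.lf (nat_lit 19286) (.g (nat_lit 2050) (.e (nat_lit 1181) (nat_lit 87) (.e (nat_lit 57478) (nat_lit 28) (.e (nat_lit 557098) (nat_lit 13) (.e (nat_lit 172097) (nat_lit 9) (.e (nat_lit 426140) (nat_lit 3) (.e (nat_lit 204855) (nat_lit 26) (.e (nat_lit 335992) (nat_lit 1) (.e (nat_lit 57872) (nat_lit 264) .nil)))))))) (.g (nat_lit 4) .nil .nil))) 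
(.lf (nat_lit 19318) (.g (nat_lit 2594) (.e (nat_lit 1181) (nat_lit 87) (.e (nat_lit 57478) (nat_lit 28) (.e (nat_lit 557100) (nat_lit 13) (.e (nat_lit 172106) (nat_lit 10) (.e (nat_lit 434231) (nat_lit 23) (.e (nat_lit 532535) (nat_lit 9) (.e (nat_lit 335985) (nat_lit 1) (.e (nat_lit 57871) (nat_lit 264) .nil)))))))) (.g (nat_lit 4) .nil .nil))))) (.nd (nat_lit 4) (.nd (nat_lit 5) 
(.lf (nat_lit 19278) (.g (nat_lit 3125) (.e (nat_lit 1181) (nat_lit 87) (.e (nat_lit 57478) (nat_lit 28) (.e (nat_lit 557098) (nat_lit 13) (.e (nat_lit 172097) (nat_lit 9) (.e (nat_lit 426140) (nat_lit 3) (.e (nat_lit 204850) (nat_lit 26) (.e (nat_lit 335997) (nat_lit 1) (.e (nat_lit 57870) (nat_lit 264) .nil)))))))) (.g (nat_lit 5) .nil .nil))) 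
(.lf (nat_lit 19310) (.g (nat_lit 4325) (.e (nat_lit 1181) (nat_lit 87) (.e (nat_lit 57478) (nat_lit 28) (.e (nat_lit 557098) (nat_lit 13) (.e (nat_lit 172115) (nat_lit 10) (.e (nat_lit 434231) (nat_lit 23) (.e (nat_lit 532554) (nat_lit 13) (.e (nat_lit 368662) (nat_lit 18) (.e (nat_lit 5907) (nat_lit 320) .nil)))))))) (.g (nat_lit 7) .nil .nil)))) (.nd (nat_lit 5) 
(.lf (nat_lit 19294) (.g (nat_lit 3431) (.e (nat_lit 1181) (nat_lit 87) (.e (nat_lit 57478) (nat_lit 28) (.e (nat_lit 557098) (nat_lit 13) (.e (nat_lit 172115) (nat_lit 10) (.e (nat_lit 434231) (nat_lit 23) (.e (nat_lit 532527) (nat_lit 9) (.e (nat_lit 335997) (nat_lit 1) (.e (nat_lit 57870) (nat_lit 264) .nil)))))))) (.g (nat_lit 5) .nil .nil))) 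
(.lf (nat_lit 19326) (.g (nat_lit 4938) (.e (nat_lit 1181) (nat_lit 87) (.e (nat_lit 57478) (nat_lit 28) (.e (nat_lit 557100) (nat_lit 13) (.e (nat_lit 172106) (nat_lit 10) (.e (nat_lit 434231) (nat_lit 23) (.e (nat_lit 532544) (nat_lit 10) (.e (nat_lit 344097) (nat_lit 18) (.e (nat_lit 5907) (nat_lit 320) .nil)))))))) (.g (nat_lit 7) .nil .nil)))))))) 
(.nd (nat_lit 1) (.nd (nat_lit 2) (.nd (nat_lit 3) (.nd (nat_lit 4) (.nd (nat_lit 5) 
(.lf (nat_lit 19265) (.g (nat_lit 2765) (.e (nat_lit 1181) (nat_lit 87) (.e (nat_lit 57467) (nat_lit 23) (.e (nat_lit 516131) (nat_lit 3) (.e (nat_lit 221212) (nat_lit 22) (.e (nat_lit 196670) (nat_lit 14) (.e (nat_lit 73746) (nat_lit 3) (.e (nat_lit 516117) (nat_lit 1) (.e (nat_lit 164166) (nat_lit 152) .nil)))))))) (.g (nat_lit 6) .nil .nil))) 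
(.lf (nat_lit 19297) (.g (nat_lit 3558) (.e (nat_lit 1181) (nat_lit 87) (.e (nat_lit 57478) (nat_lit 28) (.e (nat_lit 557098) (nat_lit 13) (.e (nat_lit 172115) (nat_lit 10) (.e (nat_lit 434231) (nat_lit 23) (.e (nat_lit 532535) (nat_lit 9) (.e (nat_lit 335985) (nat_lit 1) (.e (nat_lit 57870) (nat_lit 264) .nil)))))))) (.g (nat_lit 6) .nil .nil)))) (.nd (nat_lit 5) 
(.lf (nat_lit 19281) (.g (nat_lit 3147) (.e (nat_lit 1181) (nat_lit 87) (.e (nat_lit 57478) (nat_lit 28) (.e (nat_lit 557098) (nat_lit 13) (.e (nat_lit 172097) (nat_lit 9) (.e (nat_lit 426140) (nat_lit 3) (.e (nat_lit 204855) (nat_lit 26) (.e (nat_lit 335985) (nat_lit 1) (.e (nat_lit 57870) (nat_lit 264) .nil)))))))) (.g (nat_lit 5) .nil .nil))) 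
(.lf (nat_lit 19313) (.g (nat_lit 2491) (.e (nat_lit 1181) (nat_lit 87) (.e (nat_lit 57478) (nat_lit 28) (.e (nat_lit 557098) (nat_lit 13) (.e (nat_lit 172115) (nat_lit 10) (.e (nat_lit 434244) (nat_lit 28) (.e (nat_lit 573471) (nat_lit 11) (.e (nat_lit 16405) (nat_lit 1) (.e (nat_lit 164424) (nat_lit 272) .nil)))))))) (.g (nat_lit 4) .nil .nil))))) (.nd (nat_lit 4) (.nd (nat_lit 5) 
(.lf (nat_lit 19273) (.g (nat_lit 2846) (.e (nat_lit 1181) (nat_lit 87) (.e (nat_lit 57478) (nat_lit 28) (.e (nat_lit 557098) (nat_lit 13) (.e (nat_lit 172097) (nat_lit 9) (.e (nat_lit 426125) (nat_lit 2) (.e (nat_lit 196666) (nat_lit 13) (.e (nat_lit 65563) (nat_lit 1) (.e (nat_lit 57871) (nat_lit 264) .nil)))))))) (.g (nat_lit 5) .nil .nil))) 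
(.lf (nat_lit 19305) (.g (nat_lit 2827) (.e (nat_lit 1181) (nat_lit 87) (.e (nat_lit 57478) (nat_lit 28) (.e (nat_lit 557098) (nat_lit 13) (.e (nat_lit 172115) (nat_lit 10) (.e (nat_lit 434231) (nat_lit 23) (.e (nat_lit 532544) (nat_lit 10) (.e (nat_lit 344097) (nat_lit 18) (.e (nat_lit 5905) (nat_lit 320) .nil)))))))) (.g (nat_lit 4) .nil .nil)))) (.nd (nat_lit 5) 
(.lf (nat_lit 19289) (.g (nat_lit 3758) (.e (nat_lit 1181) (nat_lit 87) (.e (nat_lit 57478) (nat_lit 28) (.e (nat_lit 557098) (nat_lit 13) (.e (nat_lit 172097) (nat_lit 9) (.e (nat_lit 426140) (nat_lit 3) (.e (nat_lit 204862) (nat_lit 27) (.e (nat_lit 344097) (nat_lit 18) (.e (nat_lit 5906) (nat_lit 320) .nil)))))))) (.g (nat_lit 6) .nil .nil))) 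
(.lf (nat_lit 19321) (.g (nat_lit 2316) (.e (nat_lit 1181) (nat_lit 87) (.e (nat_lit 57478) (nat_lit 28) (.e (nat_lit 557100) (nat_lit 13) (.e (nat_lit 172106) (nat_lit 10) (.e (nat_lit 434231) (nat_lit 23) (.e (nat_lit 532535) (nat_lit 9) (.e (nat_lit 335992) (nat_lit 1) (.e (nat_lit 57872) (nat_lit 264) .nil)))))))) (.g (nat_lit 4) .nil .nil)))))) 
(.nd (nat_lit 3) (.nd (nat_lit 4) (.nd (nat_lit 5) 
(.lf (nat_lit 19269) (.g (nat_lit 2101) (.e (nat_lit 1181) (nat_lit 87) (.e (nat_lit 57478) (nat_lit 28) (.e (nat_lit 557095) (nat_lit 13) (.e (nat_lit 172115) (nat_lit 10) (.e (nat_lit 434231) (nat_lit 23) (.e (nat_lit 532535) (nat_lit 9) (.e (nat_lit 335985) (nat_lit 1) (.e (nat_lit 57873) (nat_lit 264) .nil)))))))) (.g (nat_lit 4) .nil .nil))) 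
(.lf (nat_lit 19301) (.g (nat_lit 2346) (.e (nat_lit 1181) (nat_lit 87) (.e (nat_lit 57478) (nat_lit 28) (.e (nat_lit 557098) (nat_lit 13) (.e (nat_lit 172115) (nat_lit 10) (.e (nat_lit 434231) (nat_lit 23) (.e (nat_lit 532536) (nat_lit 9) (.e (nat_lit 335997) (nat_lit 1) (.e (nat_lit 57870) (nat_lit 264) .nil)))))))) (.g (nat_lit 4) .nil .nil)))) (.nd (nat_lit 5) 
(.lf (nat_lit 19285) (.g (nat_lit 3168) (.e (nat_lit 1181) (nat_lit 87) (.e (nat_lit 57478) (nat_lit 28) (.e (nat_lit 557098) (nat_lit 13) (.e (nat_lit 172097) (nat_lit 9) (.e (nat_lit 426140) (nat_lit 3) (.e (nat_lit 204855) (nat_lit 26) (.e (nat_lit 335992) (nat_lit 1) (.e (nat_lit 57870) (nat_lit 264) .nil)))))))) (.g (nat_lit 5) .nil .nil))) 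
(.lf (nat_lit 19317) (.g (nat_lit 3377) (.e (nat_lit 1181) (nat_lit 87) (.e (nat_lit 57478) (nat_lit 28) (.e (nat_lit 557100) (nat_lit 13) (.e (nat_lit 172106) (nat_lit 10) (.e (nat_lit 434231) (nat_lit 23) (.e (nat_lit 532535) (nat_lit 9) (.e (nat_lit 335985) (nat_lit 1) (.e (nat_lit 57870) (nat_lit 264) .nil)))))))) (.g (nat_lit 5) .nil .nil))))) (.nd (nat_lit 4) (.nd (nat_lit 5) 
(.lf (nat_lit 19277) (.g (nat_lit 3494) (.e (nat_lit 1181) (nat_lit 87) (.e (nat_lit 57478) (nat_lit 28) (.e (nat_lit 557098) (nat_lit 13) (.e (nat_lit 172097) (nat_lit 9) (.e (nat_lit 426125) (nat_lit 2) (.e (nat_lit 196666) (nat_lit 13) (.e (nat_lit 65565) (nat_lit 1) (.e (nat_lit 57872) (nat_lit 264) .nil)))))))) (.g (nat_lit 6) .nil .nil))) 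
(.lf (nat_lit 19309) (.g (nat_lit 4041) (.e (nat_lit 1181) (nat_lit 87) (.e (nat_lit 57478) (nat_lit 28) (.e (nat_lit 557098) (nat_lit 13) (.e (nat_lit 172115) (nat_lit 10) (.e (nat_lit 434231) (nat_lit 23) (.e (nat_lit 532554) (nat_lit 13) (.e (nat_lit 368662) (nat_lit 18) (.e (nat_lit 5906) (nat_lit 320) .nil)))))))) (.g (nat_lit 6) .nil .nil)))) (.nd (nat_lit 5) 
(.lf (nat_lit 19293) (.g (nat_lit 4567) (.e (nat_lit 1181) (nat_lit 87) (.e (nat_lit 57478) (nat_lit 28) (.e (nat_lit 557098) (nat_lit 13) (.e (nat_lit 172097) (nat_lit 9) (.e (nat_lit 426140) (nat_lit 3) (.e (nat_lit 204863) (nat_lit 27) (.e (nat_lit 344097) (nat_lit 18) (.e (nat_lit 5907) (nat_lit 320) .nil)))))))) (.g (nat_lit 7) .nil .nil))) 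
(.lf (nat_lit 19325) (.g (nat_lit 4324) (.e (nat_lit 1181) (nat_lit 87) (.e (nat_lit 57478) (nat_lit 28) (.e (nat_lit 557100) (nat_lit 13) (.e (nat_lit 172106) (nat_lit 10) (.e (nat_lit 434231) (nat_lit 23) (.e (nat_lit 532544) (nat_lit 10) (.e (nat_lit 344097) (nat_lit 18) (.e (nat_lit 5906) (nat_lit 320) .nil)))))))) (.g (nat_lit 6) .nil .nil))))))) 
(.nd (nat_lit 2) (.nd (nat_lit 3) (.nd (nat_lit 4) (.nd (nat_lit 5) 
(.lf (nat_lit 19267) (.g (nat_lit 4284) (.e (nat_lit 1181) (nat_lit 87) (.e (nat_lit 57474) (nat_lit 28) (.e (nat_lit 557108) (nat_lit 15) (.e (nat_lit 188452) (nat_lit 23) (.e (nat_lit 204872) (nat_lit 30) .nil))))) .nil)) 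
(.lf (nat_lit 19299) (.g (nat_lit 3546) (.e (nat_lit 1181) (nat_lit 87) (.e (nat_lit 57478) (nat_lit 28) (.e (nat_lit 557098) (nat_lit 13) (.e (nat_lit 172115) (nat_lit 10) (.e (nat_lit 434231) (nat_lit 23) (.e (nat_lit 532535) (nat_lit 9) (.e (nat_lit 335985) (nat_lit 1) (.e (nat_lit 57872) (nat_lit 264) .nil)))))))) (.g (nat_lit 5) .nil .nil)))) (.nd (nat_lit 5) 
(.lf (nat_lit 19283) (.g (nat_lit 3143) (.e (nat_lit 1181) (nat_lit 87) (.e (nat_lit 57478) (nat_lit 28) (.e (nat_lit 557098) (nat_lit 13) (.e (nat_lit 172097) (nat_lit 9) (.e (nat_lit 426140) (nat_lit 3) (.e (nat_lit 204855) (nat_lit 26) (.e (nat_lit 335985) (nat_lit 1) (.e (nat_lit 57872) (nat_lit 264) .nil)))))))) (.g (nat_lit 5) .nil .nil))) 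
(.lf (nat_lit 19315) (.g (nat_lit 3478) (.e (nat_lit 1181) (nat_lit 87) (.e (nat_lit 57478) (nat_lit 28) (.e (nat_lit 557100) (nat_lit 13) (.e (nat_lit 172106) (nat_lit 10) (.e (nat_lit 434231) (nat_lit 23) (.e (nat_lit 532527) (nat_lit 9) (.e (nat_lit 335997) (nat_lit 1) (.e (nat_lit 57872) (nat_lit 264) .nil)))))))) (.g (nat_lit 5) .nil .nil))))) (.nd (nat_lit 4) (.nd (nat_lit 5) 
(.lf (nat_lit 19275) (.g (nat_lit 3480) (.e (nat_lit 1181) (nat_lit 87) (.e (nat_lit 57478) (nat_lit 28) (.e (nat_lit 557098) (nat_lit 13) (.e (nat_lit 172097) (nat_lit 9) (.e (nat_lit 426125) (nat_lit 2) (.e (nat_lit 196666) (nat_lit 13) (.e (nat_lit 65565) (nat_lit 1) (.e (nat_lit 57870) (nat_lit 264) .nil)))))))) (.g (nat_lit 6) .nil .nil))) 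
(.lf (nat_lit 19307) (.g (nat_lit 4655) (.e (nat_lit 1181) (nat_lit 87) (.e (nat_lit 57478) (nat_lit 28) (.e (nat_lit 557098) (nat_lit 13) (.e (nat_lit 172115) (nat_lit 10) (.e (nat_lit 434231) (nat_lit 23) (.e (nat_lit 532544) (nat_lit 10) (.e (nat_lit 344097) (nat_lit 18) (.e (nat_lit 5907) (nat_lit 320) .nil)))))))) (.g (nat_lit 7) .nil .nil)))) (.nd (nat_lit 5) 
(.lf (nat_lit 19291) (.g (nat_lit 2803) (.e (nat_lit 1181) (nat_lit 87) (.e (nat_lit 57478) (nat_lit 28) (.e (nat_lit 557098) (nat_lit 13) (.e (nat_lit 172097) (nat_lit 9) (.e (nat_lit 426140) (nat_lit 3) (.e (nat_lit 204863) (nat_lit 27) (.e (nat_lit 344097) (nat_lit 18) (.e (nat_lit 5905) (nat_lit 320) .nil)))))))) (.g (nat_lit 4) .nil .nil))) 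
(.lf (nat_lit 19323) (.g (nat_lit 3890) (.e (nat_lit 1181) (nat_lit 87) (.e (nat_lit 57478) (nat_lit 28) (.e (nat_lit 557100) (nat_lit 13) (.e (nat_lit 172106) (nat_lit 10) (.e (nat_lit 434231) (nat_lit 23) (.e (nat_lit 532543) (nat_lit 10) (.e (nat_lit 344097) (nat_lit 18) (.e (nat_lit 5906) (nat_lit 320) .nil)))))))) (.g (nat_lit 6) .nil .nil)))))) 
(.nd (nat_lit 3) (.nd (nat_lit 4) (.nd (nat_lit 5) 
(.lf (nat_lit 19271) (.g (nat_lit 4195) (.e (nat_lit 1181) (nat_lit 87) (.e (nat_lit 57478) (nat_lit 28) (.e (nat_lit 557098) (nat_lit 13) (.e (nat_lit 172097) (nat_lit 9) (.e (nat_lit 426125) (nat_lit 2) (.e (nat_lit 196666) (nat_lit 13) (.e (nat_lit 65550) (nat_lit 0) (.e (nat_lit 1023) (nat_lit 81) (.e (nat_lit 5906) (nat_lit 320) .nil))))))))) (.g (nat_lit 6) .nil .nil))) 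
(.lf (nat_lit 19303) (.g (nat_lit 3735) (.e (nat_lit 1181) (nat_lit 87) (.e (nat_lit 57478) (nat_lit 28) (.e (nat_lit 557098) (nat_lit 13) (.e (nat_lit 172115) (nat_lit 10) (.e (nat_lit 434231) (nat_lit 23) (.e (nat_lit 532543) (nat_lit 10) (.e (nat_lit 344097) (nat_lit 18) (.e (nat_lit 5906) (nat_lit 320) .nil)))))))) (.g (nat_lit 5) .nil .nil)))) (.nd (nat_lit 5) 
(.lf (nat_lit 19287) (.g (nat_lit 3050) (.e (nat_lit 1181) (nat_lit 87) (.e (nat_lit 57478) (nat_lit 28) (.e (nat_lit 557098) (nat_lit 13) (.e (nat_lit 172097) (nat_lit 9) (.e (nat_lit 426140) (nat_lit 3) (.e (nat_lit 204855) (nat_lit 26) (.e (nat_lit 335992) (nat_lit 1) (.e (nat_lit 57873) (nat_lit 264) .nil)))))))) (.g (nat_lit 5) .nil .nil))) 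
(.lf (nat_lit 19319) (.g (nat_lit 3365) (.e (nat_lit 1181) (nat_lit 87) (.e (nat_lit 57478) (nat_lit 28) (.e (nat_lit 557100) (nat_lit 13) (.e (nat_lit 172106) (nat_lit 10) (.e (nat_lit 434231) (nat_lit 23) (.e (nat_lit 532535) (nat_lit 9) (.e (nat_lit 335985) (nat_lit 1) (.e (nat_lit 57872) (nat_lit 264) .nil)))))))) (.g (nat_lit 5) .nil .nil))))) (.nd (nat_lit 4) (.nd (nat_lit 5) 
(.lf (nat_lit 19279) (.g (nat_lit 2369) (.e (nat_lit 1181) (nat_lit 87) (.e (nat_lit 57478) (nat_lit 28) (.e (nat_lit 557098) (nat_lit 13) (.e (nat_lit 172097) (nat_lit 9) (.e (nat_lit 426140) (nat_lit 3) (.e (nat_lit 204850) (nat_lit 26) (.e (nat_lit 335997) (nat_lit 1) (.e (nat_lit 57871) (nat_lit 264) .nil)))))))) (.g (nat_lit 4) .nil .nil))) 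
(.lf (nat_lit 19311) (.g (nat_lit 2632) (.e (nat_lit 1181) (nat_lit 87) (.e (nat_lit 57478) (nat_lit 28) (.e (nat_lit 557098) (nat_lit 13) (.e (nat_lit 172115) (nat_lit 10) (.e (nat_lit 434231) (nat_lit 23) (.e (nat_lit 532555) (nat_lit 13) (.e (nat_lit 368662) (nat_lit 18) (.e (nat_lit 5906) (nat_lit 320) .nil)))))))) (.g (nat_lit 4) .nil .nil)))) (.nd (nat_lit 5) 
(.lf (nat_lit 19295) (.g (nat_lit 2683) (.e (nat_lit 1181) (nat_lit 87) (.e (nat_lit 57478) (nat_lit 28) (.e (nat_lit 557098) (nat_lit 13) (.e (nat_lit 172115) (nat_lit 10) (.e (nat_lit 434231) (nat_lit 23) (.e (nat_lit 532527) (nat_lit 9) (.e (nat_lit 335997) (nat_lit 1) (.e (nat_lit 57871) (nat_lit 264) .nil)))))))) (.g (nat_lit 4) .nil .nil))) 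
(.lf (nat_lit 19327) (.g (nat_lit 2290) (.e (nat_lit 1181) (nat_lit 87) (.e (nat_lit 57478) (nat_lit 28) (.e (nat_lit 557100) (nat_lit 13) (.e (nat_lit 172106) (nat_lit 10) (.e (nat_lit 434231) (nat_lit 23) (.e (nat_lit 532553) (nat_lit 13) (.e (nat_lit 368662) (nat_lit 18) (.e (nat_lit 5906) (nat_lit 320) .nil)))))))) (.g (nat_lit 4) .nil .nil)))))))))

noncomputable def tv267 : DT := (.nd (nat_lit 0) (.nd (nat_lit 1) (.nd (nat_lit 2) (.nd (nat_lit 3) (.nd (nat_lit 4) (.nd (nat_lit 5) 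
(.lf (nat_lit 19328) (.g (nat_lit 2737) (.e (nat_lit 1181) (nat_lit 87) (.e (nat_lit 57478) (nat_lit 28) (.e (nat_lit 557100) (nat_lit 13) (.e (nat_lit 172106) (nat_lit 10) (.e (nat_lit 434231) (nat_lit 23) (.e (nat_lit 532553) (nat_lit 13) (.e (nat_lit 368662) (nat_lit 18) (.e (nat_lit 5907) (nat_lit 320) .nil)))))))) (.g (nat_lit 5) .nil .nil))) 
(.lf (nat_lit 19360) (.g (nat_lit 3458) (.e (nat_lit 1181) (nat_lit 87) (.e (nat_lit 57478) (nat_lit 28) (.e (nat_lit 557101) (nat_lit 13) (.e (nat_lit 172115) (nat_lit 10) (.e (nat_lit 434231) (nat_lit 23) (.e (nat_lit 532535) (nat_lit 9) (.e (nat_lit 335985) (nat_lit 1) (.e (nat_lit 57872) (nat_lit 264) .nil)))))))) (.g (nat_lit 5) .nil .nil)))) (.nd (nat_lit 5) 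
(.lf (nat_lit 19344) (.g (nat_lit 2242) (.e (nat_lit 1181) (nat_lit 87) (.e (nat_lit 57478) (nat_lit 28) (.e (nat_lit 557101) (nat_lit 13) (.e (nat_lit 172097) (nat_lit 9) (.e (nat_lit 426140) (nat_lit 3) (.e (nat_lit 204855) (nat_lit 26) (.e (nat_lit 335985) (nat_lit 1) (.e (nat_lit 57871) (nat_lit 264) .nil)))))))) (.g (nat_lit 4) .nil .nil))) 
(.lf (nat_lit 19376) (.g (nat_lit 377) (.e (nat_lit 1181) (nat_lit 87) (.e (nat_lit 57478) (nat_lit 28) (.e (nat_lit 557107) (nat_lit 15) .nil))) .nil)))) (.nd (nat_lit 4) (.nd (nat_lit 5) 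
(.lf (nat_lit 19336) (.g (nat_lit 3343) (.e (nat_lit 1181) (nat_lit 87) (.e (nat_lit 57478) (nat_lit 28) (.e (nat_lit 557101) (nat_lit 13) (.e (nat_lit 172097) (nat_lit 9) (.e (nat_lit 426125) (nat_lit 2) (.e (nat_lit 196666) (nat_lit 13) (.e (nat_lit 65565) (nat_lit 1) (.e (nat_lit 57870) (nat_lit 264) .nil)))))))) (.g (nat_lit 6) .nil .nil))) 
(.lf (nat_lit 19368) (.g (nat_lit 4590) (.e (nat_lit 1181) (nat_lit 87) (.e (nat_lit 57478) (nat_lit 28) (.e (nat_lit 557101) (nat_lit 13) (.e (nat_lit 172115) (nat_lit 10) (.e (nat_lit 434231) (nat_lit 23) (.e (nat_lit 532544) (nat_lit 10) (.e (nat_lit 344097) (nat_lit 18) (.e (nat_lit 5907) (nat_lit 320) .nil)))))))) (.g (nat_lit 7) .nil .nil)))) (.nd (nat_lit 5) 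
(.lf (nat_lit 19352) (.g (nat_lit 4270) (.e (nat_lit 1181) (nat_lit 87) (.e (nat_lit 57478) (nat_lit 28) (.e (nat_lit 557101) (nat_lit 13) (.e (nat_lit 172097) (nat_lit 9) (.e (nat_lit 426140) (nat_lit 3) (.e (nat_lit 204862) (nat_lit 27) (.e (nat_lit 344097) (nat_lit 18) (.e (nat_lit 5907) (nat_lit 320) .nil)))))))) (.g (nat_lit 7) .nil .nil))) 
(.lf (nat_lit 19384) (.g (nat_lit 2594) (.e (nat_lit 1181) (nat_lit 87) (.e (nat_lit 57478) (nat_lit 28) (.e (nat_lit 557107) (nat_lit 15) (.e (nat_lit 188447) (nat_lit 22) (.e (nat_lit 196670) (nat_lit 14) (.e (nat_lit 73732) (nat_lit 0) (.e (nat_lit 5907) (nat_lit 320) .nil))))))) (.g (nat_lit 4) .nil .nil)))))) (.nd (nat_lit 3) (.nd (nat_lit 4) (.nd (nat_lit 5) 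
(.lf (nat_lit 19332) (.g (nat_lit 2635) (.e (nat_lit 1181) (nat_lit 87) (.e (nat_lit 57478) (nat_lit 28) (.e (nat_lit 557101) (nat_lit 13) (.e (nat_lit 172097) (nat_lit 9) (.e (nat_lit 426125) (nat_lit 2) (.e (nat_lit 196666) (nat_lit 13) (.e (nat_lit 65553) (nat_lit 0) (.e (nat_lit 1023) (nat_lit 81) (.e (nat_lit 5906) (nat_lit 320) .nil))))))))) (.g (nat_lit 4) .nil .nil))) 
(.lf (nat_lit 19364) (.g (nat_lit 3669) (.e (nat_lit 1181) (nat_lit 87) (.e (nat_lit 57478) (nat_lit 28) (.e (nat_lit 557101) (nat_lit 13) (.e (nat_lit 172115) (nat_lit 10) (.e (nat_lit 434231) (nat_lit 23) (.e (nat_lit 532543) (nat_lit 10) (.e (nat_lit 344097) (nat_lit 18) (.e (nat_lit 5906) (nat_lit 320) .nil)))))))) (.g (nat_lit 5) .nil .nil)))) (.nd (nat_lit 5) 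
(.lf (nat_lit 19348) (.g (nat_lit 1920) (.e (nat_lit 1181) (nat_lit 87) (.e (nat_lit 57478) (nat_lit 28) (.e (nat_lit 557101) (nat_lit 13) (.e (nat_lit 172097) (nat_lit 9) (.e (nat_lit 426140) (nat_lit 3) (.e (nat_lit 204855) (nat_lit 26) (.e (nat_lit 335992) (nat_lit 1) (.e (nat_lit 57872) (nat_lit 264) .nil)))))))) (.g (nat_lit 4) .nil .nil))) 
(.lf (nat_lit 19380) (.g (nat_lit 2915) (.e (nat_lit 1181) (nat_lit 87) (.e (nat_lit 57478) (nat_lit 28) (.e (nat_lit 557107) (nat_lit 15) (.e (nat_lit 188447) (nat_lit 22) (.e (nat_lit 196666) (nat_lit 13) (.e (nat_lit 65565) (nat_lit 1) (.e (nat_lit 57870) (nat_lit 264) .nil))))))) (.g (nat_lit 5) .nil .nil))))) (.nd (nat_lit 4) (.nd (nat_lit 5) 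
(.lf (nat_lit 19340) (.g (nat_lit 2245) (.e (nat_lit 1181) (nat_lit 87) (.e (nat_lit 57478) (nat_lit 28) (.e (nat_lit 557101) (nat_lit 13) (.e (nat_lit 172097) (nat_lit 9) (.e (nat_lit 426140) (nat_lit 3) (.e (nat_lit 204850) (nat_lit 26) (.e (nat_lit 335997) (nat_lit 1) (.e (nat_lit 57871) (nat_lit 264) .nil)))))))) (.g (nat_lit 4) .nil .nil))) 
(.lf (nat_lit 19372) (.g (nat_lit 2568) (.e (nat_lit 1181) (nat_lit 87) (.e (nat_lit 57478) (nat_lit 28) (.e (nat_lit 557101) (nat_lit 13) (.e (nat_lit 172115) (nat_lit 10) (.e (nat_lit 434231) (nat_lit 23) (.e (nat_lit 532555) (nat_lit 13) (.e (nat_lit 368662) (nat_lit 18) (.e (nat_lit 5906) (nat_lit 320) .nil)))))))) (.g (nat_lit 4) .nil .nil)))) (.nd (nat_lit 5) 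
(.lf (nat_lit 19356) (.g (nat_lit 3375) (.e (nat_lit 1181) (nat_lit 87) (.e (nat_lit 57478) (nat_lit 28) (.e (nat_lit 557101) (nat_lit 13) (.e (nat_lit 172115) (nat_lit 10) (.e (nat_lit 434231) (nat_lit 23) (.e (nat_lit 532527) (nat_lit 9) (.e (nat_lit 335997) (nat_lit 1) (.e (nat_lit 57870) (nat_lit 264) .nil)))))))) (.g (nat_lit 5) .nil .nil))) 
(.lf (nat_lit 19388) (.g (nat_lit 2787) (.e (nat_lit 1181) (nat_lit 87) (.e (nat_lit 57478) (nat_lit 28) (.e (nat_lit 557107) (nat_lit 15) (.e (nat_lit 188447) (nat_lit 22) (.e (nat_lit 196681) (nat_lit 17) (.e (nat_lit 131088) (nat_lit 1) (.e (nat_lit 57870) (nat_lit 264) .nil))))))) (.g (nat_lit 4) .nil .nil))))))) (.nd (nat_lit 2) (.nd (nat_lit 3) (.nd (nat_lit 4) (.nd (nat_lit 5) 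
(.lf (nat_lit 19330) (.g (nat_lit 3482) (.e (nat_lit 1181) (nat_lit 87) (.e (nat_lit 57478) (nat_lit 28) (.e (nat_lit 557100) (nat_lit 13) (.e (nat_lit 172106) (nat_lit 10) (.e (nat_lit 434231) (nat_lit 23) (.e (nat_lit 532554) (nat_lit 13) (.e (nat_lit 368662) (nat_lit 18) (.e (nat_lit 5907) (nat_lit 320) .nil)))))))) (.g (nat_lit 6) .nil .nil))) 
(.lf (nat_lit 19362) (.g (nat_lit 2233) (.e (nat_lit 1181) (nat_lit 87) (.e (nat_lit 57478) (nat_lit 28) (.e (nat_lit 557101) (nat_lit 13) (.e (nat_lit 172115) (nat_lit 10) (.e (nat_lit 434231) (nat_lit 23) (.e (nat_lit 532536) (nat_lit 9) (.e (nat_lit 335997) (nat_lit 1) (.e (nat_lit 57870) (nat_lit 264) .nil)))))))) (.g (nat_lit 4) .nil .nil)))) (.nd (nat_lit 5) 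
(.lf (nat_lit 19346) (.g (nat_lit 2733) (.e (nat_lit 1181) (nat_lit 87) (.e (nat_lit 57478) (nat_lit 28) (.e (nat_lit 557101) (nat_lit 13) (.e (nat_lit 172097) (nat_lit 9) (.e (nat_lit 426140) (nat_lit 3) (.e (nat_lit 204855) (nat_lit 26) (.e (nat_lit 335991) (nat_lit 1) (.e (nat_lit 57873) (nat_lit 264) .nil)))))))) (.g (nat_lit 5) .nil .nil))) 
(.lf (nat_lit 19378) (.g (nat_lit 2893) (.e (nat_lit 1181) (nat_lit 87) (.e (nat_lit 57478) (nat_lit 28) (.e (nat_lit 557107) (nat_lit 15) (.e (nat_lit 188447) (nat_lit 22) (.e (nat_lit 196666) (nat_lit 13) (.e (nat_lit 65563) (nat_lit 1) (.e (nat_lit 57870) (nat_lit 264) .nil))))))) (.g (nat_lit 5) .nil .nil))))) (.nd (nat_lit 4) (.nd (nat_lit 5) 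
(.lf (nat_lit 19338) (.g (nat_lit 3357) (.e (nat_lit 1181) (nat_lit 87) (.e (nat_lit 57478) (nat_lit 28) (.e (nat_lit 557101) (nat_lit 13) (.e (nat_lit 172097) (nat_lit 9) (.e (nat_lit 426125) (nat_lit 2) (.e (nat_lit 196666) (nat_lit 13) (.e (nat_lit 65565) (nat_lit 1) (.e (nat_lit 57872) (nat_lit 264) .nil)))))))) (.g (nat_lit 6) .nil .nil))) 
(.lf (nat_lit 19370) (.g (nat_lit 3950) (.e (nat_lit 1181) (nat_lit 87) (.e (nat_lit 57478) (nat_lit 28) (.e (nat_lit 557101) (nat_lit 13) (.e (nat_lit 172115) (nat_lit 10) (.e (nat_lit 434231) (nat_lit 23) (.e (nat_lit 532554) (nat_lit 13) (.e (nat_lit 368662) (nat_lit 18) (.e (nat_lit 5906) (nat_lit 320) .nil)))))))) (.g (nat_lit 6) .nil .nil)))) (.nd (nat_lit 5) 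
(.lf (nat_lit 19354) (.g (nat_lit 3821) (.e (nat_lit 1181) (nat_lit 87) (.e (nat_lit 57478) (nat_lit 28) (.e (nat_lit 557101) (nat_lit 13) (.e (nat_lit 172097) (nat_lit 9) (.e (nat_lit 426140) (nat_lit 3) (.e (nat_lit 204863) (nat_lit 27) (.e (nat_lit 344097) (nat_lit 18) (.e (nat_lit 5906) (nat_lit 320) .nil)))))))) (.g (nat_lit 6) .nil .nil))) 
(.lf (nat_lit 19386) (.g (nat_lit 2866) (.e (nat_lit 1181) (nat_lit 87) (.e (nat_lit 57478) (nat_lit 28) (.e (nat_lit 557107) (nat_lit 15) (.e (nat_lit 188447) (nat_lit 22) (.e (nat_lit 196681) (nat_lit 17) (.e (nat_lit 131086) (nat_lit 1) (.e (nat_lit 57872) (nat_lit 264) .nil))))))) (.g (nat_lit 4) .nil .nil)))))) (.nd (nat_lit 3) (.nd (nat_lit 4) (.nd (nat_lit 5) 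
(.lf (nat_lit 19334) (.g (nat_lit 2709) (.e (nat_lit 1181) (nat_lit 87) (.e (nat_lit 57478) (nat_lit 28) (.e (nat_lit 557101) (nat_lit 13) (.e (nat_lit 172097) (nat_lit 9) (.e (nat_lit 426125) (nat_lit 2) (.e (nat_lit 196666) (nat_lit 13) (.e (nat_lit 65563) (nat_lit 1) (.e (nat_lit 57871) (nat_lit 264) .nil)))))))) (.g (nat_lit 4) .nil .nil))) 
(.lf (nat_lit 19366) (.g (nat_lit 2762) (.e (nat_lit 1181) (nat_lit 87) (.e (nat_lit 57478) (nat_lit 28) (.e (nat_lit 557101) (nat_lit 13) (.e (nat_lit 172115) (nat_lit 10) (.e (nat_lit 434231) (nat_lit 23) (.e (nat_lit 532544) (nat_lit 10) (.e (nat_lit 344097) (nat_lit 18) (.e (nat_lit 5905) (nat_lit 320) .nil)))))))) (.g (nat_lit 4) .nil .nil)))) (.nd (nat_lit 5) 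
(.lf (nat_lit 19350) (.g (nat_lit 2508) (.e (nat_lit 1181) (nat_lit 87) (.e (nat_lit 57478) (nat_lit 28) (.e (nat_lit 557101) (nat_lit 13) (.e (nat_lit 172097) (nat_lit 9) (.e (nat_lit 426140) (nat_lit 3) (.e (nat_lit 204862) (nat_lit 27) (.e (nat_lit 344097) (nat_lit 18) (.e (nat_lit 5905) (nat_lit 320) .nil)))))))) (.g (nat_lit 4) .nil .nil))) 
(.lf (nat_lit 19382) (.g (nat_lit 2750) (.e (nat_lit 1181) (nat_lit 87) (.e (nat_lit 57478) (nat_lit 28) (.e (nat_lit 557107) (nat_lit 15) (.e (nat_lit 188447) (nat_lit 22) (.e (nat_lit 196668) (nat_lit 14) (.e (nat_lit 73733) (nat_lit 0) (.e (nat_lit 5906) (nat_lit 320) .nil))))))) (.g (nat_lit 4) .nil .nil))))) (.nd (nat_lit 4) (.nd (nat_lit 5) 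
(.lf (nat_lit 19342) (.g (nat_lit 2626) (.e (nat_lit 1181) (nat_lit 87) (.e (nat_lit 57478) (nat_lit 28) (.e (nat_lit 557101) (nat_lit 13) (.e (nat_lit 172097) (nat_lit 9) (.e (nat_lit 426140) (nat_lit 3) (.e (nat_lit 204855) (nat_lit 26) (.e (nat_lit 335923) (nat_lit 0) (.e (nat_lit 1023) (nat_lit 81) (.e (nat_lit 5906) (nat_lit 320) .nil))))))))) (.g (nat_lit 4) .nil .nil))) 
(.lf (nat_lit 19374) (.g (nat_lit 2487) (.e (nat_lit 1181) (nat_lit 87) (.e (nat_lit 57478) (nat_lit 28) (.e (nat_lit 557101) (nat_lit 13) (.e (nat_lit 172115) (nat_lit 10) (.e (nat_lit 434244) (nat_lit 28) (.e (nat_lit 573471) (nat_lit 11) (.e (nat_lit 16405) (nat_lit 1) (.e (nat_lit 164424) (nat_lit 272) .nil)))))))) (.g (nat_lit 4) .nil .nil)))) (.nd (nat_lit 5) 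
(.lf (nat_lit 19358) (.g (nat_lit 3432) (.e (nat_lit 1181) (nat_lit 87) (.e (nat_lit 57478) (nat_lit 28) (.e (nat_lit 557101) (nat_lit 13) (.e (nat_lit 172115) (nat_lit 10) (.e (nat_lit 434231) (nat_lit 23) (.e (nat_lit 532527) (nat_lit 9) (.e (nat_lit 335997) (nat_lit 1) (.e (nat_lit 57872) (nat_lit 264) .nil)))))))) (.g (nat_lit 5) .nil .nil))) 
(.lf (nat_lit 19390) (.g (nat_lit 3012) (.e (nat_lit 1181) (nat_lit 87) (.e (nat_lit 57478) (nat_lit 28) (.e (nat_lit 557107) (nat_lit 15) (.e (nat_lit 188447) (nat_lit 22) (.e (nat_lit 196681) (nat_lit 17) (.e (nat_lit 131089) (nat_lit 1) (.e (nat_lit 57870) (nat_lit 264) .nil))))))) (.g (nat_lit 4) .nil .nil)))))))) 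
(.nd (nat_lit 1) (.nd (nat_lit 2) (.nd (nat_lit 3) (.nd (nat_lit 4) (.nd (nat_lit 5) 
(.lf (nat_lit 19329) (.g (nat_lit 3199) (.e (nat_lit 1181) (nat_lit 87) (.e (nat_lit 57478) (nat_lit 28) (.e (nat_lit 557100) (nat_lit 13) (.e (nat_lit 172106) (nat_lit 10) (.e (nat_lit 434231) (nat_lit 23) (.e (nat_lit 532554) (nat_lit 13) (.e (nat_lit 368662) (nat_lit 18) (.e (nat_lit 5906) (nat_lit 320) .nil)))))))) (.g (nat_lit 5) .nil .nil))) 
(.lf (nat_lit 19361) (.g (nat_lit 4481) (.e (nat_lit 1181) (nat_lit 87) (.e (nat_lit 57478) (nat_lit 28) (.e (nat_lit 557101) (nat_lit 13) (.e (nat_lit 172115) (nat_lit 10) (.e (nat_lit 434231) (nat_lit 23) (.e (nat_lit 532535) (nat_lit 9) (.e (nat_lit 335992) (nat_lit 1) (.e (nat_lit 57870) (nat_lit 264) .nil)))))))) (.g (nat_lit 6) .nil .nil)))) (.nd (nat_lit 5) 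
(.lf (nat_lit 19345) (.g (nat_lit 3013) (.e (nat_lit 1181) (nat_lit 87) (.e (nat_lit 57478) (nat_lit 28) (.e (nat_lit 557101) (nat_lit 13) (.e (nat_lit 172097) (nat_lit 9) (.e (nat_lit 426140) (nat_lit 3) (.e (nat_lit 204855) (nat_lit 26) (.e (nat_lit 335985) (nat_lit 1) (.e (nat_lit 57872) (nat_lit 264) .nil)))))))) (.g (nat_lit 5) .nil .nil))) 
(.lf (nat_lit 19377) (.g (nat_lit 1885) (.e (nat_lit 1181) (nat_lit 87) (.e (nat_lit 57478) (nat_lit 28) (.e (nat_lit 557107) (nat_lit 15) (.e (nat_lit 188447) (nat_lit 22) (.e (nat_lit 196666) (nat_lit 13) .nil))))) .nil)))) (.nd (nat_lit 4) (.nd (nat_lit 5) 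
(.lf (nat_lit 19337) (.g (nat_lit 2611) (.e (nat_lit 1181) (nat_lit 87) (.e (nat_lit 57478) (nat_lit 28) (.e (nat_lit 557101) (nat_lit 13) (.e (nat_lit 172097) (nat_lit 9) (.e (nat_lit 426125) (nat_lit 2) (.e (nat_lit 196666) (nat_lit 13) (.e (nat_lit 65565) (nat_lit 1) (.e (nat_lit 57871) (nat_lit 264) .nil)))))))) (.g (nat_lit 4) .nil .nil))) 
(.lf (nat_lit 19369) (.g (nat_lit 3279) (.e (nat_lit 1181) (nat_lit 87) (.e (nat_lit 57478) (nat_lit 28) (.e (nat_lit 557101) (nat_lit 13) (.e (nat_lit 172115) (nat_lit 10) (.e (nat_lit 434231) (nat_lit 23) (.e (nat_lit 532553) (nat_lit 13) (.e (nat_lit 368662) (nat_lit 18) (.e (nat_lit 5907) (nat_lit 320) .nil)))))))) (.g (nat_lit 5) .nil .nil)))) (.nd (nat_lit 5) 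
(.lf (nat_lit 19353) (.g (nat_lit 2681) (.e (nat_lit 1181) (nat_lit 87) (.e (nat_lit 57478) (nat_lit 28) (.e (nat_lit 557101) (nat_lit 13) (.e (nat_lit 172097) (nat_lit 9) (.e (nat_lit 426140) (nat_lit 3) (.e (nat_lit 204863) (nat_lit 27) (.e (nat_lit 344097) (nat_lit 18) (.e (nat_lit 5905) (nat_lit 320) .nil)))))))) (.g (nat_lit 4) .nil .nil))) 
(.lf (nat_lit 19385) (.g (nat_lit 2696) (.e (nat_lit 1181) (nat_lit 87) (.e (nat_lit 57478) (nat_lit 28) (.e (nat_lit 557107) (nat_lit 15) (.e (nat_lit 188447) (nat_lit 22) (.e (nat_lit 196681) (nat_lit 17) (.e (nat_lit 131086) (nat_lit 1) (.e (nat_lit 57870) (nat_lit 264) .nil))))))) (.g (nat_lit 4) .nil .nil)))))) (.nd (nat_lit 3) (.nd (nat_lit 4) (.nd (nat_lit 5) 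
(.lf (nat_lit 19333) (.g (nat_lit 3428) (.e (nat_lit 1181) (nat_lit 87) (.e (nat_lit 57478) (nat_lit 28) (.e (nat_lit 557101) (nat_lit 13) (.e (nat_lit 172097) (nat_lit 9) (.e (nat_lit 426125) (nat_lit 2) (.e (nat_lit 196666) (nat_lit 13) (.e (nat_lit 65563) (nat_lit 1) (.e (nat_lit 57870) (nat_lit 264) .nil)))))))) (.g (nat_lit 6) .nil .nil))) 
(.lf (nat_lit 19365) (.g (nat_lit 4300) (.e (nat_lit 1181) (nat_lit 87) (.e (nat_lit 57478) (nat_lit 28) (.e (nat_lit 557101) (nat_lit 13) (.e (nat_lit 172115) (nat_lit 10) (.e (nat_lit 434231) (nat_lit 23) (.e (nat_lit 532543) (nat_lit 10) (.e (nat_lit 344097) (nat_lit 18) (.e (nat_lit 5907) (nat_lit 320) .nil)))))))) (.g (nat_lit 7) .nil .nil)))) (.nd (nat_lit 5) 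
(.lf (nat_lit 19349) (.g (nat_lit 2921) (.e (nat_lit 1181) (nat_lit 87) (.e (nat_lit 57478) (nat_lit 28) (.e (nat_lit 557101) (nat_lit 13) (.e (nat_lit 172097) (nat_lit 9) (.e (nat_lit 426140) (nat_lit 3) (.e (nat_lit 204855) (nat_lit 26) (.e (nat_lit 335992) (nat_lit 1) (.e (nat_lit 57873) (nat_lit 264) .nil)))))))) (.g (nat_lit 5) .nil .nil))) 
(.lf (nat_lit 19381) (.g (nat_lit 2929) (.e (nat_lit 1181) (nat_lit 87) (.e (nat_lit 57478) (nat_lit 28) (.e (nat_lit 557107) (nat_lit 15) (.e (nat_lit 188447) (nat_lit 22) (.e (nat_lit 196666) (nat_lit 13) (.e (nat_lit 65565) (nat_lit 1) (.e (nat_lit 57872) (nat_lit 264) .nil))))))) (.g (nat_lit 5) .nil .nil))))) (.nd (nat_lit 4) (.nd (nat_lit 5) 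
(.lf (nat_lit 19341) (.g (nat_lit 3063) (.e (nat_lit 1181) (nat_lit 87) (.e (nat_lit 57478) (nat_lit 28) (.e (nat_lit 557101) (nat_lit 13) (.e (nat_lit 172097) (nat_lit 9) (.e (nat_lit 426140) (nat_lit 3) (.e (nat_lit 204850) (nat_lit 26) (.e (nat_lit 335997) (nat_lit 1) (.e (nat_lit 57872) (nat_lit 264) .nil)))))))) (.g (nat_lit 5) .nil .nil))) 
(.lf (nat_lit 19373) (.g (nat_lit 3010) (.e (nat_lit 1181) (nat_lit 87) (.e (nat_lit 57478) (nat_lit 28) (.e (nat_lit 557101) (nat_lit 13) (.e (nat_lit 172115) (nat_lit 10) (.e (nat_lit 434231) (nat_lit 23) (.e (nat_lit 532555) (nat_lit 13) (.e (nat_lit 368662) (nat_lit 18) (.e (nat_lit 5907) (nat_lit 320) .nil)))))))) (.g (nat_lit 5) .nil .nil)))) (.nd (nat_lit 5) 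
(.lf (nat_lit 19357) (.g (nat_lit 2627) (.e (nat_lit 1181) (nat_lit 87) (.e (nat_lit 57478) (nat_lit 28) (.e (nat_lit 557101) (nat_lit 13) (.e (nat_lit 172115) (nat_lit 10) (.e (nat_lit 434231) (nat_lit 23) (.e (nat_lit 532527) (nat_lit 9) (.e (nat_lit 335997) (nat_lit 1) (.e (nat_lit 57871) (nat_lit 264) .nil)))))))) (.g (nat_lit 4) .nil .nil))) 
(.lf (nat_lit 19389) (.g (nat_lit 3011) (.e (nat_lit 1181) (nat_lit 87) (.e (nat_lit 57478) (nat_lit 28) (.e (nat_lit 557107) (nat_lit 15) (.e (nat_lit 188447) (nat_lit 22) (.e (nat_lit 196681) (nat_lit 17) (.e (nat_lit 131088) (nat_lit 1) (.e (nat_lit 57872) (nat_lit 264) .nil))))))) (.g (nat_lit 4) .nil .nil))))))) (.nd (nat_lit 2) (.nd (nat_lit 3) (.nd (nat_lit 4) (.nd (nat_lit 5) 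
(.lf (nat_lit 19331) (.g (nat_lit 4058) (.e (nat_lit 1181) (nat_lit 87) (.e (nat_lit 57478) (nat_lit 28) (.e (nat_lit 557101) (nat_lit 13) (.e (nat_lit 172097) (nat_lit 9) (.e (nat_lit 426125) (nat_lit 2) (.e (nat_lit 196666) (nat_lit 13) (.e (nat_lit 65550) (nat_lit 0) (.e (nat_lit 1023) (nat_lit 81) (.e (nat_lit 5906) (nat_lit 320) .nil))))))))) (.g (nat_lit 6) .nil .nil))) 
(.lf (nat_lit 19363) (.g (nat_lit 2528) (.e (nat_lit 1181) (nat_lit 87) (.e (nat_lit 57478) (nat_lit 28) (.e (nat_lit 557101) (nat_lit 13) (.e (nat_lit 172115) (nat_lit 10) (.e (nat_lit 434231) (nat_lit 23) (.e (nat_lit 532543) (nat_lit 10) (.e (nat_lit 344097) (nat_lit 18) (.e (nat_lit 5905) (nat_lit 320) .nil)))))))) (.g (nat_lit 4) .nil .nil)))) (.nd (nat_lit 5) 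
(.lf (nat_lit 19347) (.g (nat_lit 3038) (.e (nat_lit 1181) (nat_lit 87) (.e (nat_lit 57478) (nat_lit 28) (.e (nat_lit 557101) (nat_lit 13) (.e (nat_lit 172097) (nat_lit 9) (.e (nat_lit 426140) (nat_lit 3) (.e (nat_lit 204855) (nat_lit 26) (.e (nat_lit 335992) (nat_lit 1) (.e (nat_lit 57870) (nat_lit 264) .nil)))))))) (.g (nat_lit 5) .nil .nil))) 
(.lf (nat_lit 19379) (.g (nat_lit 2895) (.e (nat_lit 1181) (nat_lit 87) (.e (nat_lit 57478) (nat_lit 28) (.e (nat_lit 557107) (nat_lit 15) (.e (nat_lit 188447) (nat_lit 22) (.e (nat_lit 196666) (nat_lit 13) (.e (nat_lit 65563) (nat_lit 1) (.e (nat_lit 57872) (nat_lit 264) .nil))))))) (.g (nat_lit 5) .nil .nil))))) (.nd (nat_lit 4) (.nd (nat_lit 5) 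
(.lf (nat_lit 19339) (.g (nat_lit 3001) (.e (nat_lit 1181) (nat_lit 87) (.e (nat_lit 57478) (nat_lit 28) (.e (nat_lit 557101) (nat_lit 13) (.e (nat_lit 172097) (nat_lit 9) (.e (nat_lit 426140) (nat_lit 3) (.e (nat_lit 204850) (nat_lit 26) (.e (nat_lit 335997) (nat_lit 1) (.e (nat_lit 57870) (nat_lit 264) .nil)))))))) (.g (nat_lit 5) .nil .nil))) 
(.lf (nat_lit 19371) (.g (nat_lit 4234) (.e (nat_lit 1181) (nat_lit 87) (.e (nat_lit 57478) (nat_lit 28) (.e (nat_lit 557101) (nat_lit 13) (.e (nat_lit 172115) (nat_lit 10) (.e (nat_lit 434231) (nat_lit 23) (.e (nat_lit 532554) (nat_lit 13) (.e (nat_lit 368662) (nat_lit 18) (.e (nat_lit 5907) (nat_lit 320) .nil)))))))) (.g (nat_lit 6) .nil .nil)))) (.nd (nat_lit 5) 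
(.lf (nat_lit 19355) (.g (nat_lit 4445) (.e (nat_lit 1181) (nat_lit 87) (.e (nat_lit 57478) (nat_lit 28) (.e (nat_lit 557101) (nat_lit 13) (.e (nat_lit 172097) (nat_lit 9) (.e (nat_lit 426140) (nat_lit 3) (.e (nat_lit 204863) (nat_lit 27) (.e (nat_lit 344097) (nat_lit 18) (.e (nat_lit 5907) (nat_lit 320) .nil)))))))) (.g (nat_lit 7) .nil .nil))) 
(.lf (nat_lit 19387) (.g (nat_lit 4223) (.e (nat_lit 1181) (nat_lit 87) (.e (nat_lit 57478) (nat_lit 28) (.e (nat_lit 557107) (nat_lit 15) (.e (nat_lit 188447) (nat_lit 22) (.e (nat_lit 196681) (nat_lit 17) (.e (nat_lit 131086) (nat_lit 1) (.e (nat_lit 57873) (nat_lit 264) .nil))))))) (.g (nat_lit 6) .nil .nil)))))) (.nd (nat_lit 3) (.nd (nat_lit 4) (.nd (nat_lit 5) 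
(.lf (nat_lit 19335) (.g (nat_lit 3423) (.e (nat_lit 1181) (nat_lit 87) (.e (nat_lit 57478) (nat_lit 28) (.e (nat_lit 557101) (nat_lit 13) (.e (nat_lit 172097) (nat_lit 9) (.e (nat_lit 426125) (nat_lit 2) (.e (nat_lit 196666) (nat_lit 13) (.e (nat_lit 65563) (nat_lit 1) (.e (nat_lit 57872) (nat_lit 264) .nil)))))))) (.g (nat_lit 6) .nil .nil))) 
(.lf (nat_lit 19367) (.g (nat_lit 3975) (.e (nat_lit 1181) (nat_lit 87) (.e (nat_lit 57478) (nat_lit 28) (.e (nat_lit 557101) (nat_lit 13) (.e (nat_lit 172115) (nat_lit 10) (.e (nat_lit 434231) (nat_lit 23) (.e (nat_lit 532544) (nat_lit 10) (.e (nat_lit 344097) (nat_lit 18) (.e (nat_lit 5906) (nat_lit 320) .nil)))))))) (.g (nat_lit 6) .nil .nil)))) (.nd (nat_lit 5) 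
(.lf (nat_lit 19351) (.g (nat_lit 3635) (.e (nat_lit 1181) (nat_lit 87) (.e (nat_lit 57478) (nat_lit 28) (.e (nat_lit 557101) (nat_lit 13) (.e (nat_lit 172097) (nat_lit 9) (.e (nat_lit 426140) (nat_lit 3) (.e (nat_lit 204862) (nat_lit 27) (.e (nat_lit 344097) (nat_lit 18) (.e (nat_lit 5906) (nat_lit 320) .nil)))))))) (.g (nat_lit 6) .nil .nil))) 
(.lf (nat_lit 19383) (.g (nat_lit 4399) (.e (nat_lit 1181) (nat_lit 87) (.e (nat_lit 57478) (nat_lit 28) (.e (nat_lit 557107) (nat_lit 15) (.e (nat_lit 188447) (nat_lit 22) (.e (nat_lit 196668) (nat_lit 14) (.e (nat_lit 73733) (nat_lit 0) (.e (nat_lit 5907) (nat_lit 320) .nil))))))) (.g (nat_lit 6) .nil .nil))))) (.nd (nat_lit 4) (.nd (nat_lit 5) 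
(.lf (nat_lit 19343) (.g (nat_lit 3017) (.e (nat_lit 1181) (nat_lit 87) (.e (nat_lit 57478) (nat_lit 28) (.e (nat_lit 557101) (nat_lit 13) (.e (nat_lit 172097) (nat_lit 9) (.e (nat_lit 426140) (nat_lit 3) (.e (nat_lit 204855) (nat_lit 26) (.e (nat_lit 335985) (nat_lit 1) (.e (nat_lit 57870) (nat_lit 264) .nil)))))))) (.g (nat_lit 5) .nil .nil))) 
(.lf (nat_lit 19375) (.g (nat_lit 2297) (.e (nat_lit 1181) (nat_lit 87) (.e (nat_lit 57478) (nat_lit 28) (.e (nat_lit 557105) (nat_lit 14) (.e (nat_lit 180252) (nat_lit 10) (.e (nat_lit 573488) (nat_lit 14) .nil))))) .nil))) (.nd (nat_lit 5) 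
(.lf (nat_lit 19359) (.g (nat_lit 2687) (.e (nat_lit 1181) (nat_lit 87) (.e (nat_lit 57478) (nat_lit 28) (.e (nat_lit 557101) (nat_lit 13) (.e (nat_lit 172115) (nat_lit 10) (.e (nat_lit 434231) (nat_lit 23) (.e (nat_lit 532535) (nat_lit 9) (.e (nat_lit 335985) (nat_lit 1) (.e (nat_lit 57871) (nat_lit 264) .nil)))))))) (.g (nat_lit 4) .nil .nil))) 
(.lf (nat_lit 19391) (.g (nat_lit 1158) (.e (nat_lit 1181) (nat_lit 87) (.e (nat_lit 57478) (nat_lit 28) (.e (nat_lit 557107) (nat_lit 15) (.e (nat_lit 188450) (nat_lit 23) .nil)))) .nil))))))))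

noncomputable def tv268 : DT := (.nd (nat_lit 0) (.nd (nat_lit 1) (.nd (nat_lit 2) (.nd (nat_lit 3) (.nd (nat_lit 4) (.nd (nat_lit 5) 
(.lf (nat_lit 19392) (.g (nat_lit 1820) (.e (nat_lit 1181) (nat_lit 87) (.e (nat_lit 57478) (nat_lit 28) (.e (nat_lit 557107) (nat_lit 15) (.e (nat_lit 188450) (nat_lit 23) (.e (nat_lit 204850) (nat_lit 26) .nil))))) .nil)) 
(.lf (nat_lit 19424) (.g (nat_lit 2182) (.e (nat_lit 1181) (nat_lit 87) (.e (nat_lit 57478) (nat_lit 28) (.e (nat_lit 557108) (nat_lit 15) (.e (nat_lit 188452) (nat_lit 23) (.e (nat_lit 204817) (nat_lit 17) .nil))))) .nil))) (.nd (nat_lit 5) 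
(.lf (nat_lit 19408) (.g (nat_lit 2348) (.e (nat_lit 1181) (nat_lit 87) (.e (nat_lit 57478) (nat_lit 28) (.e (nat_lit 557107) (nat_lit 15) (.e (nat_lit 188450) (nat_lit 23) (.e (nat_lit 204863) (nat_lit 27) (.e (nat_lit 344097) (nat_lit 18) (.e (nat_lit 5905) (nat_lit 320) .nil))))))) (.g (nat_lit 4) .nil .nil))) 
(.lf (nat_lit 19440) (.g (nat_lit 3105) (.e (nat_lit 1181) (nat_lit 87) (.e (nat_lit 57478) (nat_lit 28) (.e (nat_lit 557108) (nat_lit 15) (.e (nat_lit 188452) (nat_lit 23) (.e (nat_lit 212736) (nat_lit 26) (.e (nat_lit 335995) (nat_lit 1) (.e (nat_lit 57872) (nat_lit 264) .nil))))))) (.g (nat_lit 4) .nil .nil))))) (.nd (nat_lit 4) (.nd (nat_lit 5) 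
(.lf (nat_lit 19400) (.g (nat_lit 2755) (.e (nat_lit 1181) (nat_lit 87) (.e (nat_lit 57478) (nat_lit 28) (.e (nat_lit 557107) (nat_lit 15) (.e (nat_lit 188450) (nat_lit 23) (.e (nat_lit 204855) (nat_lit 26) (.e (nat_lit 335992) (nat_lit 1) (.e (nat_lit 57870) (nat_lit 264) .nil))))))) (.g (nat_lit 5) .nil .nil))) 
(.lf (nat_lit 19432) (.g (nat_lit 2492) (.e (nat_lit 1181) (nat_lit 87) (.e (nat_lit 57478) (nat_lit 28) (.e (nat_lit 557108) (nat_lit 15) (.e (nat_lit 188452) (nat_lit 23) (.e (nat_lit 204851) (nat_lit 26) .nil))))) .nil))) (.nd (nat_lit 5) 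
(.lf (nat_lit 19416) (.g (nat_lit 2500) (.e (nat_lit 1181) (nat_lit 87) (.e (nat_lit 57478) (nat_lit 28) (.e (nat_lit 557107) (nat_lit 15) (.e (nat_lit 188452) (nat_lit 23) (.e (nat_lit 204859) (nat_lit 26) .nil))))) .nil)) 
(.lf (nat_lit 19448) (.g (nat_lit 2312) (.e (nat_lit 1181) (nat_lit 87) (.e (nat_lit 57478) (nat_lit 28) (.e (nat_lit 557109) (nat_lit 15) (.e (nat_lit 188441) (nat_lit 20) .nil)))) .nil))))) (.nd (nat_lit 3) (.nd (nat_lit 4) (.nd (nat_lit 5) 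
(.lf (nat_lit 19396) (.g (nat_lit 3005) (.e (nat_lit 1181) (nat_lit 87) (.e (nat_lit 57478) (nat_lit 28) (.e (nat_lit 557107) (nat_lit 15) (.e (nat_lit 188450) (nat_lit 23) (.e (nat_lit 204852) (nat_lit 26) (.e (nat_lit 343808) (nat_lit 1) (.e (nat_lit 57873) (nat_lit 264) .nil))))))) (.g (nat_lit 5) .nil .nil))) 
(.lf (nat_lit 19428) (.g (nat_lit 2211) (.e (nat_lit 1181) (nat_lit 87) (.e (nat_lit 57478) (nat_lit 28) (.e (nat_lit 557108) (nat_lit 15) (.e (nat_lit 188452) (nat_lit 23) (.e (nat_lit 204817) (nat_lit 17) (.e (nat_lit 7936) (nat_lit 346) (.e (nat_lit 57354) (nat_lit 0) (.e (nat_lit 5907) (nat_lit 320) .nil)))))))) (.g (nat_lit 4) .nil .nil)))) (.nd (nat_lit 5) 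
(.lf (nat_lit 19412) (.g (nat_lit 2419) (.e (nat_lit 1181) (nat_lit 87) (.e (nat_lit 57478) (nat_lit 28) (.e (nat_lit 557107) (nat_lit 15) (.e (nat_lit 188450) (nat_lit 23) (.e (nat_lit 204872) (nat_lit 30) (.e (nat_lit 368662) (nat_lit 18) (.e (nat_lit 5906) (nat_lit 320) .nil))))))) (.g (nat_lit 4) .nil .nil))) 
(.lf (nat_lit 19444) (.g (nat_lit 4763) (.e (nat_lit 1181) (nat_lit 87) (.e (nat_lit 57478) (nat_lit 28) (.e (nat_lit 557108) (nat_lit 15) (.e (nat_lit 188452) (nat_lit 23) (.e (nat_lit 204874) (nat_lit 30) (.e (nat_lit 368662) (nat_lit 18) (.e (nat_lit 5907) (nat_lit 320) .nil))))))) (.g (nat_lit 0) .nil .nil))))) (.nd (nat_lit 4) (.nd (nat_lit 5) 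
(.lf (nat_lit 19404) (.g (nat_lit 2281) (.e (nat_lit 1181) (nat_lit 87) (.e (nat_lit 57478) (nat_lit 28) (.e (nat_lit 557107) (nat_lit 15) (.e (nat_lit 188450) (nat_lit 23) (.e (nat_lit 204860) (nat_lit 26) (.e (nat_lit 335995) (nat_lit 1) (.e (nat_lit 57872) (nat_lit 264) .nil))))))) (.g (nat_lit 4) .nil .nil))) 
(.lf (nat_lit 19436) (.g (nat_lit 3472) (.e (nat_lit 1181) (nat_lit 87) (.e (nat_lit 57478) (nat_lit 28) (.e (nat_lit 557108) (nat_lit 15) (.e (nat_lit 188452) (nat_lit 23) (.e (nat_lit 204854) (nat_lit 26) .nil))))) .nil))) (.nd (nat_lit 5) 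
(.lf (nat_lit 19420) (.g (nat_lit 2814) (.e (nat_lit 1181) (nat_lit 87) (.e (nat_lit 57478) (nat_lit 28) (.e (nat_lit 557108) (nat_lit 15) (.e (nat_lit 188452) (nat_lit 23) (.e (nat_lit 204816) (nat_lit 17) (.e (nat_lit 6436) (nat_lit 343) (.e (nat_lit 1183) (nat_lit 87) (.e (nat_lit 57872) (nat_lit 264) .nil)))))))) (.g (nat_lit 4) .nil .nil))) 
(.lf (nat_lit 19452) (.g (nat_lit 3583) (.e (nat_lit 1181) (nat_lit 87) (.e (nat_lit 57478) (nat_lit 28) (.e (nat_lit 557109) (nat_lit 15) (.e (nat_lit 188447) (nat_lit 22) (.e (nat_lit 196666) (nat_lit 13) (.e (nat_lit 65565) (nat_lit 1) (.e (nat_lit 57872) (nat_lit 264) .nil))))))) (.g (nat_lit 4) .nil .nil))))))) (.nd (nat_lit 2) (.nd (nat_lit 3) (.nd (nat_lit 4) (.nd (nat_lit 5) 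
(.lf (nat_lit 19394) (.g (nat_lit 2437) (.e (nat_lit 1181) (nat_lit 87) (.e (nat_lit 57478) (nat_lit 28) (.e (nat_lit 557107) (nat_lit 15) (.e (nat_lit 188450) (nat_lit 23) (.e (nat_lit 204850) (nat_lit 26) (.e (nat_lit 335997) (nat_lit 1) (.e (nat_lit 57872) (nat_lit 264) .nil))))))) (.g (nat_lit 4) .nil .nil))) 
(.lf (nat_lit 19426) (.g (nat_lit 2774) (.e (nat_lit 1181) (nat_lit 87) (.e (nat_lit 57478) (nat_lit 28) (.e (nat_lit 557108) (nat_lit 15) (.e (nat_lit 188452) (nat_lit 23) (.e (nat_lit 204817) (nat_lit 17) (.e (nat_lit 7936) (nat_lit 343) (.e (nat_lit 1181) (nat_lit 87) (.e (nat_lit 57872) (nat_lit 264) .nil)))))))) (.g (nat_lit 4) .nil .nil)))) (.nd (nat_lit 5) 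
(.lf (nat_lit 19410) (.g (nat_lit 4115) (.e (nat_lit 1181) (nat_lit 87) (.e (nat_lit 57478) (nat_lit 28) (.e (nat_lit 557107) (nat_lit 15) (.e (nat_lit 188450) (nat_lit 23) (.e (nat_lit 204863) (nat_lit 27) (.e (nat_lit 344097) (nat_lit 18) (.e (nat_lit 5907) (nat_lit 320) .nil))))))) (.g (nat_lit 6) .nil .nil))) 
(.lf (nat_lit 19442) (.g (nat_lit 2757) (.e (nat_lit 1181) (nat_lit 87) (.e (nat_lit 57478) (nat_lit 28) (.e (nat_lit 557108) (nat_lit 15) (.e (nat_lit 188452) (nat_lit 23) (.e (nat_lit 204874) (nat_lit 30) (.e (nat_lit 368662) (nat_lit 18) (.e (nat_lit 5902) (nat_lit 320) .nil))))))) (.g (nat_lit 4) .nil .nil))))) (.nd (nat_lit 4) (.nd (nat_lit 5) 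
(.lf (nat_lit 19402) (.g (nat_lit 2466) (.e (nat_lit 1181) (nat_lit 87) (.e (nat_lit 57478) (nat_lit 28) (.e (nat_lit 557107) (nat_lit 15) (.e (nat_lit 188450) (nat_lit 23) (.e (nat_lit 204858) (nat_lit 26) (.e (nat_lit 335991) (nat_lit 1) (.e (nat_lit 57873) (nat_lit 264) .nil))))))) (.g (nat_lit 4) .nil .nil))) 
(.lf (nat_lit 19434) (.g (nat_lit 3185) (.e (nat_lit 1181) (nat_lit 87) (.e (nat_lit 57478) (nat_lit 28) (.e (nat_lit 557108) (nat_lit 15) (.e (nat_lit 188452) (nat_lit 23) (.e (nat_lit 204852) (nat_lit 26) (.e (nat_lit 343808) (nat_lit 1) (.e (nat_lit 57870) (nat_lit 264) .nil))))))) (.g (nat_lit 4) .nil .nil)))) (.nd (nat_lit 5) 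
(.lf (nat_lit 19418) (.g (nat_lit 6003) (.e (nat_lit 1181) (nat_lit 87) (.e (nat_lit 57478) (nat_lit 28) (.e (nat_lit 557108) (nat_lit 15) (.e (nat_lit 188449) (nat_lit 22) (.e (nat_lit 196668) (nat_lit 14) .nil))))) .nil)) 
(.lf (nat_lit 19450) (.g (nat_lit 3634) (.e (nat_lit 1181) (nat_lit 87) (.e (nat_lit 57478) (nat_lit 28) (.e (nat_lit 557109) (nat_lit 15) (.e (nat_lit 188447) (nat_lit 22) (.e (nat_lit 196666) (nat_lit 13) (.e (nat_lit 65550) (nat_lit 0) (.e (nat_lit 1023) (nat_lit 81) (.e (nat_lit 5906) (nat_lit 320) .nil)))))))) (.g (nat_lit 4) .nil .nil)))))) (.nd (nat_lit 3) (.nd (nat_lit 4) (.nd (nat_lit 5) 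
(.lf (nat_lit 19398) (.g (nat_lit 2445) (.e (nat_lit 1181) (nat_lit 87) (.e (nat_lit 57478) (nat_lit 28) (.e (nat_lit 557107) (nat_lit 15) (.e (nat_lit 188450) (nat_lit 23) (.e (nat_lit 204855) (nat_lit 26) (.e (nat_lit 335985) (nat_lit 1) (.e (nat_lit 57870) (nat_lit 264) .nil))))))) (.g (nat_lit 4) .nil .nil))) 
(.lf (nat_lit 19430) (.g (nat_lit 2826) (.e (nat_lit 1181) (nat_lit 87) (.e (nat_lit 57478) (nat_lit 28) (.e (nat_lit 557108) (nat_lit 15) (.e (nat_lit 188452) (nat_lit 23) (.e (nat_lit 204850) (nat_lit 26) .nil))))) .nil))) (.nd (nat_lit 5) 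
(.lf (nat_lit 19414) (.g (nat_lit 2136) (.e (nat_lit 1181) (nat_lit 87) (.e (nat_lit 57478) (nat_lit 28) (.e (nat_lit 557107) (nat_lit 15) (.e (nat_lit 188450) (nat_lit 23) (.e (nat_lit 204874) (nat_lit 30) (.e (nat_lit 368662) (nat_lit 18) (.e (nat_lit 5906) (nat_lit 320) .nil))))))) (.g (nat_lit 4) .nil .nil))) 
(.lf (nat_lit 19446) (.g (nat_lit 3536) (.e (nat_lit 1181) (nat_lit 87) (.e (nat_lit 57478) (nat_lit 28) (.e (nat_lit 557109) (nat_lit 15) (.e (nat_lit 188434) (nat_lit 20) (.e (nat_lit 3271) (nat_lit 199) .nil))))) .nil)))) (.nd (nat_lit 4) (.nd (nat_lit 5) 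
(.lf (nat_lit 19406) (.g (nat_lit 2972) (.e (nat_lit 1181) (nat_lit 87) (.e (nat_lit 57478) (nat_lit 28) (.e (nat_lit 557107) (nat_lit 15) (.e (nat_lit 188450) (nat_lit 23) (.e (nat_lit 204862) (nat_lit 27) (.e (nat_lit 344097) (nat_lit 18) (.e (nat_lit 5906) (nat_lit 320) .nil))))))) (.g (nat_lit 5) .nil .nil))) 
(.lf (nat_lit 19438) (.g (nat_lit 4757) (.e (nat_lit 1181) (nat_lit 87) (.e (nat_lit 57478) (nat_lit 28) (.e (nat_lit 557108) (nat_lit 15) (.e (nat_lit 188452) (nat_lit 23) (.e (nat_lit 204861) (nat_lit 26) (.e (nat_lit 335995) (nat_lit 1) (.e (nat_lit 57872) (nat_lit 264) .nil))))))) (.g (nat_lit 4) .nil .nil)))) (.nd (nat_lit 5) 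
(.lf (nat_lit 19422) (.g (nat_lit 3038) (.e (nat_lit 1181) (nat_lit 87) (.e (nat_lit 57478) (nat_lit 28) (.e (nat_lit 557108) (nat_lit 15) (.e (nat_lit 188452) (nat_lit 23) (.e (nat_lit 204816) (nat_lit 17) (.e (nat_lit 6486) (nat_lit 343) (.e (nat_lit 1181) (nat_lit 87) (.e (nat_lit 57872) (nat_lit 264) .nil)))))))) (.g (nat_lit 5) .nil .nil))) 
(.lf (nat_lit 19454) (.g (nat_lit 5221) (.e (nat_lit 1181) (nat_lit 87) (.e (nat_lit 57478) (nat_lit 28) (.e (nat_lit 557109) (nat_lit 15) (.e (nat_lit 188447) (nat_lit 22) (.e (nat_lit 196668) (nat_lit 14) (.e (nat_lit 73733) (nat_lit 0) (.e (nat_lit 5907) (nat_lit 320) .nil))))))) (.g (nat_lit 6) .nil .nil)))))))) 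
(.nd (nat_lit 1) (.nd (nat_lit 2) (.nd (nat_lit 3) (.nd (nat_lit 4) (.nd (nat_lit 5) 
(.lf (nat_lit 19393) (.g (nat_lit 2376) (.e (nat_lit 1181) (nat_lit 87) (.e (nat_lit 57478) (nat_lit 28) (.e (nat_lit 557107) (nat_lit 15) (.e (nat_lit 188450) (nat_lit 23) (.e (nat_lit 204850) (nat_lit 26) (.e (nat_lit 335997) (nat_lit 1) (.e (nat_lit 57870) (nat_lit 264) .nil))))))) (.g (nat_lit 4) .nil .nil))) 
(.lf (nat_lit 19425) (.g (nat_lit 2384) (.e (nat_lit 1181) (nat_lit 87) (.e (nat_lit 57478) (nat_lit 28) (.e (nat_lit 557108) (nat_lit 15) (.e (nat_lit 188452) (nat_lit 23) (.e (nat_lit 204817) (nat_lit 17) (.e (nat_lit 6198) (nat_lit 332) (.e (nat_lit 2544) (nat_lit 158) (.e (nat_lit 8439) (nat_lit 138) .nil)))))))) (.g (nat_lit 4) .nil .nil)))) (.nd (nat_lit 5) 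
(.lf (nat_lit 19409) (.g (nat_lit 3526) (.e (nat_lit 1181) (nat_lit 87) (.e (nat_lit 57478) (nat_lit 28) (.e (nat_lit 557107) (nat_lit 15) (.e (nat_lit 188450) (nat_lit 23) (.e (nat_lit 204863) (nat_lit 27) (.e (nat_lit 344097) (nat_lit 18) (.e (nat_lit 5906) (nat_lit 320) .nil))))))) (.g (nat_lit 5) .nil .nil))) 
(.lf (nat_lit 19441) (.g (nat_lit 2816) (.e (nat_lit 1181) (nat_lit 87) (.e (nat_lit 57478) (nat_lit 28) (.e (nat_lit 557108) (nat_lit 15) (.e (nat_lit 188452) (nat_lit 23) (.e (nat_lit 204872) (nat_lit 30) .nil))))) .nil)))) (.nd (nat_lit 4) (.nd (nat_lit 5) 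
(.lf (nat_lit 19401) (.g (nat_lit 2006) (.e (nat_lit 1181) (nat_lit 87) (.e (nat_lit 57478) (nat_lit 28) (.e (nat_lit 557107) (nat_lit 15) (.e (nat_lit 188450) (nat_lit 23) (.e (nat_lit 204856) (nat_lit 26) .nil))))) .nil)) 
(.lf (nat_lit 19433) (.g (nat_lit 3037) (.e (nat_lit 1181) (nat_lit 87) (.e (nat_lit 57478) (nat_lit 28) (.e (nat_lit 557108) (nat_lit 15) (.e (nat_lit 188452) (nat_lit 23) (.e (nat_lit 204852) (nat_lit 26) .nil))))) .nil))) (.nd (nat_lit 5) 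
(.lf (nat_lit 19417) (.g (nat_lit 4788) (.e (nat_lit 1181) (nat_lit 87) (.e (nat_lit 57478) (nat_lit 28) (.e (nat_lit 557108) (nat_lit 15) (.e (nat_lit 188449) (nat_lit 22) (.e (nat_lit 196666) (nat_lit 13) .nil))))) .nil)) 
(.lf (nat_lit 19449) (.g (nat_lit 3533) (.e (nat_lit 1181) (nat_lit 87) (.e (nat_lit 57478) (nat_lit 28) (.e (nat_lit 557109) (nat_lit 15) (.e (nat_lit 188447) (nat_lit 22) (.e (nat_lit 196666) (nat_lit 13) .nil))))) .nil))))) (.nd (nat_lit 3) (.nd (nat_lit 4) (.nd (nat_lit 5) 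
(.lf (nat_lit 19397) (.g (nat_lit 1719) (.e (nat_lit 1181) (nat_lit 87) (.e (nat_lit 57478) (nat_lit 28) (.e (nat_lit 557107) (nat_lit 15) (.e (nat_lit 188450) (nat_lit 23) (.e (nat_lit 204855) (nat_lit 26) .nil))))) .nil)) 
(.lf (nat_lit 19429) (.g (nat_lit 2970) (.e (nat_lit 1181) (nat_lit 87) (.e (nat_lit 57478) (nat_lit 28) (.e (nat_lit 557108) (nat_lit 15) (.e (nat_lit 188452) (nat_lit 23) (.e (nat_lit 204849) (nat_lit 25) (.e (nat_lit 327692) (nat_lit 1) (.e (nat_lit 8439) (nat_lit 138) .nil))))))) (.g (nat_lit 4) .nil .nil)))) (.nd (nat_lit 5) 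
(.lf (nat_lit 19413) (.g (nat_lit 2856) (.e (nat_lit 1181) (nat_lit 87) (.e (nat_lit 57478) (nat_lit 28) (.e (nat_lit 557107) (nat_lit 15) (.e (nat_lit 188450) (nat_lit 23) (.e (nat_lit 204873) (nat_lit 30) (.e (nat_lit 368662) (nat_lit 18) (.e (nat_lit 5906) (nat_lit 320) .nil))))))) (.g (nat_lit 5) .nil .nil))) 
(.lf (nat_lit 19445) (.g (nat_lit 344) (.e (nat_lit 1181) (nat_lit 87) (.e (nat_lit 57478) (nat_lit 28) (.e (nat_lit 557109) (nat_lit 15) .nil))) .nil)))) (.nd (nat_lit 4) (.nd (nat_lit 5) 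
(.lf (nat_lit 19405) (.g (nat_lit 3439) (.e (nat_lit 1181) (nat_lit 87) (.e (nat_lit 57478) (nat_lit 28) (.e (nat_lit 557107) (nat_lit 15) (.e (nat_lit 188450) (nat_lit 23) (.e (nat_lit 204861) (nat_lit 26) (.e (nat_lit 335995) (nat_lit 1) (.e (nat_lit 57872) (nat_lit 264) .nil))))))) (.g (nat_lit 5) .nil .nil))) 
(.lf (nat_lit 19437) (.g (nat_lit 4471) (.e (nat_lit 1181) (nat_lit 87) (.e (nat_lit 57478) (nat_lit 28) (.e (nat_lit 557108) (nat_lit 15) (.e (nat_lit 188452) (nat_lit 23) (.e (nat_lit 204861) (nat_lit 26) .nil))))) .nil))) (.nd (nat_lit 5) 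
(.lf (nat_lit 19421) (.g (nat_lit 3146) (.e (nat_lit 1181) (nat_lit 87) (.e (nat_lit 57478) (nat_lit 28) (.e (nat_lit 557108) (nat_lit 15) (.e (nat_lit 188452) (nat_lit 23) (.e (nat_lit 204816) (nat_lit 17) (.e (nat_lit 6479) (nat_lit 343) (.e (nat_lit 1181) (nat_lit 87) (.e (nat_lit 57872) (nat_lit 264) .nil)))))))) (.g (nat_lit 5) .nil .nil))) 
(.lf (nat_lit 19453) (.g (nat_lit 3572) (.e (nat_lit 1181) (nat_lit 87) (.e (nat_lit 57478) (nat_lit 28) (.e (nat_lit 557109) (nat_lit 15) (.e (nat_lit 188447) (nat_lit 22) (.e (nat_lit 196668) (nat_lit 14) (.e (nat_lit 73733) (nat_lit 0) (.e (nat_lit 5906) (nat_lit 320) .nil))))))) (.g (nat_lit 4) .nil .nil))))))) (.nd (nat_lit 2) (.nd (nat_lit 3) (.nd (nat_lit 4) (.nd (nat_lit 5) 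
(.lf (nat_lit 19395) (.g (nat_lit 2177) (.e (nat_lit 1181) (nat_lit 87) (.e (nat_lit 57478) (nat_lit 28) (.e (nat_lit 557107) (nat_lit 15) (.e (nat_lit 188450) (nat_lit 23) (.e (nat_lit 204852) (nat_lit 26) (.e (nat_lit 343808) (nat_lit 1) (.e (nat_lit 57872) (nat_lit 264) .nil))))))) (.g (nat_lit 4) .nil .nil))) 
(.lf (nat_lit 19427) (.g (nat_lit 2702) (.e (nat_lit 1181) (nat_lit 87) (.e (nat_lit 57478) (nat_lit 28) (.e (nat_lit 557108) (nat_lit 15) (.e (nat_lit 188452) (nat_lit 23) (.e (nat_lit 204817) (nat_lit 17) (.e (nat_lit 7936) (nat_lit 343) (.e (nat_lit 1183) (nat_lit 87) (.e (nat_lit 57871) (nat_lit 264) .nil)))))))) (.g (nat_lit 4) .nil .nil)))) (.nd (nat_lit 5) 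
(.lf (nat_lit 19411) (.g (nat_lit 2157) (.e (nat_lit 1181) (nat_lit 87) (.e (nat_lit 57478) (nat_lit 28) (.e (nat_lit 557107) (nat_lit 15) (.e (nat_lit 188450) (nat_lit 23) (.e (nat_lit 204864) (nat_lit 27) .nil))))) .nil)) 
(.lf (nat_lit 19443) (.g (nat_lit 2956) (.e (nat_lit 1181) (nat_lit 87) (.e (nat_lit 57478) (nat_lit 28) (.e (nat_lit 557108) (nat_lit 15) (.e (nat_lit 188452) (nat_lit 23) (.e (nat_lit 204874) (nat_lit 30) (.e (nat_lit 368662) (nat_lit 18) (.e (nat_lit 5905) (nat_lit 320) .nil))))))) (.g (nat_lit 4) .nil .nil))))) (.nd (nat_lit 4) (.nd (nat_lit 5) 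
(.lf (nat_lit 19403) (.g (nat_lit 3197) (.e (nat_lit 1181) (nat_lit 87) (.e (nat_lit 57478) (nat_lit 28) (.e (nat_lit 557107) (nat_lit 15) (.e (nat_lit 188450) (nat_lit 23) (.e (nat_lit 204859) (nat_lit 26) (.e (nat_lit 335998) (nat_lit 1) (.e (nat_lit 57873) (nat_lit 264) .nil))))))) (.g (nat_lit 5) .nil .nil))) 
(.lf (nat_lit 19435) (.g (nat_lit 4220) (.e (nat_lit 1181) (nat_lit 87) (.e (nat_lit 57478) (nat_lit 28) (.e (nat_lit 557108) (nat_lit 15) (.e (nat_lit 188452) (nat_lit 23) (.e (nat_lit 204852) (nat_lit 26) (.e (nat_lit 343808) (nat_lit 1) (.e (nat_lit 57872) (nat_lit 264) .nil))))))) (.g (nat_lit 5) .nil .nil)))) (.nd (nat_lit 5) 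
(.lf (nat_lit 19419) (.g (nat_lit 1970) (.e (nat_lit 1181) (nat_lit 87) (.e (nat_lit 57478) (nat_lit 28) (.e (nat_lit 557108) (nat_lit 15) (.e (nat_lit 188452) (nat_lit 23) (.e (nat_lit 204816) (nat_lit 17) .nil))))) .nil)) 
(.lf (nat_lit 19451) (.g (nat_lit 3569) (.e (nat_lit 1181) (nat_lit 87) (.e (nat_lit 57478) (nat_lit 28) (.e (nat_lit 557109) (nat_lit 15) (.e (nat_lit 188447) (nat_lit 22) (.e (nat_lit 196666) (nat_lit 13) (.e (nat_lit 65565) (nat_lit 1) (.e (nat_lit 57870) (nat_lit 264) .nil))))))) (.g (nat_lit 4) .nil .nil)))))) (.nd (nat_lit 3) (.nd (nat_lit 4) (.nd (nat_lit 5) 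
(.lf (nat_lit 19399) (.g (nat_lit 2432) (.e (nat_lit 1181) (nat_lit 87) (.e (nat_lit 57478) (nat_lit 28) (.e (nat_lit 557107) (nat_lit 15) (.e (nat_lit 188450) (nat_lit 23) (.e (nat_lit 204855) (nat_lit 26) (.e (nat_lit 335985) (nat_lit 1) (.e (nat_lit 57872) (nat_lit 264) .nil))))))) (.g (nat_lit 4) .nil .nil))) 
(.lf (nat_lit 19431) (.g (nat_lit 2852) (.e (nat_lit 1181) (nat_lit 87) (.e (nat_lit 57478) (nat_lit 28) (.e (nat_lit 557108) (nat_lit 15) (.e (nat_lit 188452) (nat_lit 23) (.e (nat_lit 204850) (nat_lit 26) (.e (nat_lit 335997) (nat_lit 1) (.e (nat_lit 57872) (nat_lit 264) .nil))))))) (.g (nat_lit 4) .nil .nil)))) (.nd (nat_lit 5) 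
(.lf (nat_lit 19415) (.g (nat_lit 2287) (.e (nat_lit 1181) (nat_lit 87) (.e (nat_lit 57478) (nat_lit 28) (.e (nat_lit 557107) (nat_lit 15) (.e (nat_lit 188450) (nat_lit 23) (.e (nat_lit 204874) (nat_lit 30) (.e (nat_lit 368662) (nat_lit 18) (.e (nat_lit 5907) (nat_lit 320) .nil))))))) (.g (nat_lit 4) .nil .nil))) 
(.lf (nat_lit 19447) (.g (nat_lit 3533) (.e (nat_lit 1181) (nat_lit 87) (.e (nat_lit 57478) (nat_lit 28) (.e (nat_lit 557109) (nat_lit 15) (.e (nat_lit 188434) (nat_lit 20) (.e (nat_lit 3272) (nat_lit 199) .nil))))) .nil)))) (.nd (nat_lit 4) (.nd (nat_lit 5) 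
(.lf (nat_lit 19407) (.g (nat_lit 3607) (.e (nat_lit 1181) (nat_lit 87) (.e (nat_lit 57478) (nat_lit 28) (.e (nat_lit 557107) (nat_lit 15) (.e (nat_lit 188450) (nat_lit 23) (.e (nat_lit 204862) (nat_lit 27) (.e (nat_lit 344097) (nat_lit 18) (.e (nat_lit 5907) (nat_lit 320) .nil))))))) (.g (nat_lit 6) .nil .nil))) 
(.lf (nat_lit 19439) (.g (nat_lit 2551) (.e (nat_lit 1181) (nat_lit 87) (.e (nat_lit 57478) (nat_lit 28) (.e (nat_lit 557108) (nat_lit 15) (.e (nat_lit 188452) (nat_lit 23) (.e (nat_lit 212736) (nat_lit 26) .nil))))) .nil))) (.nd (nat_lit 5) 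
(.lf (nat_lit 19423) (.g (nat_lit 2281) (.e (nat_lit 1181) (nat_lit 87) (.e (nat_lit 57478) (nat_lit 28) (.e (nat_lit 557108) (nat_lit 15) (.e (nat_lit 188452) (nat_lit 23) (.e (nat_lit 204816) (nat_lit 17) (.e (nat_lit 6514) (nat_lit 346) (.e (nat_lit 57354) (nat_lit 0) (.e (nat_lit 5907) (nat_lit 320) .nil)))))))) (.g (nat_lit 4) .nil .nil))) 
(.lf (nat_lit 19455) (.g (nat_lit 4881) (.e (nat_lit 1181) (nat_lit 87) (.e (nat_lit 57478) (nat_lit 28) (.e (nat_lit 557109) (nat_lit 15) (.e (nat_lit 188447) (nat_lit 22) (.e (nat_lit 196681) (nat_lit 17) (.e (nat_lit 131086) (nat_lit 1) (.e (nat_lit 57873) (nat_lit 264) .nil))))))) (.g (nat_lit 5) .nil .nil)))))))))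

noncomputable def tv269 : DT := (.nd (nat_lit 0) (.nd (nat_lit 1) (.nd (nat_lit 2) (.nd (nat_lit 3) (.nd (nat_lit 4) (.nd (nat_lit 5) 
(.lf (nat_lit 19456) (.g (nat_lit 3194) (.e (nat_lit 1181) (nat_lit 87) (.e (nat_lit 57478) (nat_lit 28) (.e (nat_lit 557109) (nat_lit 15) (.e (nat_lit 188449) (nat_lit 22) (.e (nat_lit 196630) (nat_lit 9) .nil))))) .nil)) 
(.lf (nat_lit 19488) (.g (nat_lit 3767) (.e (nat_lit 1181) (nat_lit 87) (.e (nat_lit 57478) (nat_lit 28) (.e (nat_lit 557109) (nat_lit 15) (.e (nat_lit 188450) (nat_lit 23) (.e (nat_lit 204858) (nat_lit 26) .nil))))) .nil))) (.nd (nat_lit 5) 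
(.lf (nat_lit 19472) (.g (nat_lit 2574) (.e (nat_lit 1181) (nat_lit 87) (.e (nat_lit 57478) (nat_lit 28) (.e (nat_lit 557109) (nat_lit 15) (.e (nat_lit 188449) (nat_lit 22) (.e (nat_lit 196666) (nat_lit 13) (.e (nat_lit 65565) (nat_lit 1) (.e (nat_lit 57871) (nat_lit 264) .nil))))))) (.g (nat_lit 4) .nil .nil))) 
(.lf (nat_lit 19504) (.g (nat_lit 3662) (.e (nat_lit 1181) (nat_lit 87) (.e (nat_lit 57478) (nat_lit 28) (.e (nat_lit 557109) (nat_lit 15) (.e (nat_lit 188452) (nat_lit 23) (.e (nat_lit 204821) (nat_lit 17) .nil))))) .nil)))) (.nd (nat_lit 4) (.nd (nat_lit 5) 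
(.lf (nat_lit 19464) (.g (nat_lit 3930) (.e (nat_lit 1181) (nat_lit 87) (.e (nat_lit 57478) (nat_lit 28) (.e (nat_lit 557109) (nat_lit 15) (.e (nat_lit 188449) (nat_lit 22) (.e (nat_lit 196666) (nat_lit 13) (.e (nat_lit 65550) (nat_lit 0) (.e (nat_lit 1023) (nat_lit 81) (.e (nat_lit 5906) (nat_lit 320) .nil)))))))) (.g (nat_lit 5) .nil .nil))) 
(.lf (nat_lit 19496) (.g (nat_lit 3512) (.e (nat_lit 1181) (nat_lit 87) (.e (nat_lit 57478) (nat_lit 28) (.e (nat_lit 557109) (nat_lit 15) (.e (nat_lit 188450) (nat_lit 23) (.e (nat_lit 204863) (nat_lit 27) .nil))))) .nil))) (.nd (nat_lit 5) 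
(.lf (nat_lit 19480) (.g (nat_lit 5156) (.e (nat_lit 1181) (nat_lit 87) (.e (nat_lit 57478) (nat_lit 28) (.e (nat_lit 557109) (nat_lit 15) (.e (nat_lit 188449) (nat_lit 22) (.e (nat_lit 196681) (nat_lit 17) (.e (nat_lit 131086) (nat_lit 1) (.e (nat_lit 57870) (nat_lit 264) .nil))))))) (.g (nat_lit 4) .nil .nil))) 
(.lf (nat_lit 19512) (.g (nat_lit 3970) (.e (nat_lit 1181) (nat_lit 87) (.e (nat_lit 57478) (nat_lit 28) (.e (nat_lit 557109) (nat_lit 15) (.e (nat_lit 188452) (nat_lit 23) (.e (nat_lit 204852) (nat_lit 26) (.e (nat_lit 343808) (nat_lit 1) (.e (nat_lit 57873) (nat_lit 264) .nil))))))) (.g (nat_lit 5) .nil .nil)))))) (.nd (nat_lit 3) (.nd (nat_lit 4) (.nd (nat_lit 5) 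
(.lf (nat_lit 19460) (.g (nat_lit 4795) (.e (nat_lit 1181) (nat_lit 87) (.e (nat_lit 57478) (nat_lit 28) (.e (nat_lit 557109) (nat_lit 15) (.e (nat_lit 188449) (nat_lit 22) (.e (nat_lit 196630) (nat_lit 9) (.e (nat_lit 1499) (nat_lit 108) (.e (nat_lit 335995) (nat_lit 1) (.e (nat_lit 57872) (nat_lit 264) .nil)))))))) (.g (nat_lit 5) .nil .nil))) 
(.lf (nat_lit 19492) (.g (nat_lit 4392) (.e (nat_lit 1181) (nat_lit 87) (.e (nat_lit 57478) (nat_lit 28) (.e (nat_lit 557109) (nat_lit 15) (.e (nat_lit 188450) (nat_lit 23) (.e (nat_lit 204861) (nat_lit 26) (.e (nat_lit 335995) (nat_lit 1) (.e (nat_lit 57872) (nat_lit 264) .nil))))))) (.g (nat_lit 4) .nil .nil)))) (.nd (nat_lit 5) 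
(.lf (nat_lit 19476) (.g (nat_lit 3360) (.e (nat_lit 1181) (nat_lit 87) (.e (nat_lit 57478) (nat_lit 28) (.e (nat_lit 557109) (nat_lit 15) (.e (nat_lit 188449) (nat_lit 22) (.e (nat_lit 196668) (nat_lit 14) (.e (nat_lit 73733) (nat_lit 0) (.e (nat_lit 5906) (nat_lit 320) .nil))))))) (.g (nat_lit 4) .nil .nil))) 
(.lf (nat_lit 19508) (.g (nat_lit 3168) (.e (nat_lit 1181) (nat_lit 87) (.e (nat_lit 57478) (nat_lit 28) (.e (nat_lit 557109) (nat_lit 15) (.e (nat_lit 188452) (nat_lit 23) (.e (nat_lit 204850) (nat_lit 26) (.e (nat_lit 335997) (nat_lit 1) (.e (nat_lit 57870) (nat_lit 264) .nil))))))) (.g (nat_lit 4) .nil .nil))))) (.nd (nat_lit 4) (.nd (nat_lit 5) 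
(.lf (nat_lit 19468) (.g (nat_lit 3297) (.e (nat_lit 1181) (nat_lit 87) (.e (nat_lit 57478) (nat_lit 28) (.e (nat_lit 557109) (nat_lit 15) (.e (nat_lit 188449) (nat_lit 22) (.e (nat_lit 196666) (nat_lit 13) (.e (nat_lit 65563) (nat_lit 1) (.e (nat_lit 57870) (nat_lit 264) .nil))))))) (.g (nat_lit 5) .nil .nil))) 
(.lf (nat_lit 19500) (.g (nat_lit 3732) (.e (nat_lit 1181) (nat_lit 87) (.e (nat_lit 57478) (nat_lit 28) (.e (nat_lit 557109) (nat_lit 15) (.e (nat_lit 188450) (nat_lit 23) (.e (nat_lit 204873) (nat_lit 30) .nil))))) .nil))) (.nd (nat_lit 5) 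
(.lf (nat_lit 19484) (.g (nat_lit 5444) (.e (nat_lit 1181) (nat_lit 87) (.e (nat_lit 57478) (nat_lit 28) (.e (nat_lit 557109) (nat_lit 15) (.e (nat_lit 188449) (nat_lit 22) (.e (nat_lit 196681) (nat_lit 17) (.e (nat_lit 131089) (nat_lit 1) (.e (nat_lit 57870) (nat_lit 264) .nil))))))) (.g (nat_lit 5) .nil .nil))) 
(.lf (nat_lit 19516) (.g (nat_lit 3245) (.e (nat_lit 1181) (nat_lit 87) (.e (nat_lit 57478) (nat_lit 28) (.e (nat_lit 557109) (nat_lit 15) (.e (nat_lit 188452) (nat_lit 23) (.e (nat_lit 204855) (nat_lit 26) (.e (nat_lit 335985) (nat_lit 1) (.e (nat_lit 57872) (nat_lit 264) .nil))))))) (.g (nat_lit 5) .nil .nil))))))) (.nd (nat_lit 2) (.nd (nat_lit 3) (.nd (nat_lit 4) (.nd (nat_lit 5) 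
(.lf (nat_lit 19458) (.g (nat_lit 3430) (.e (nat_lit 1181) (nat_lit 87) (.e (nat_lit 57478) (nat_lit 28) (.e (nat_lit 557109) (nat_lit 15) (.e (nat_lit 188449) (nat_lit 22) (.e (nat_lit 196630) (nat_lit 9) (.e (nat_lit 1462) (nat_lit 108) (.e (nat_lit 335997) (nat_lit 1) (.e (nat_lit 57872) (nat_lit 264) .nil)))))))) (.g (nat_lit 4) .nil .nil))) 
(.lf (nat_lit 19490) (.g (nat_lit 3809) (.e (nat_lit 1181) (nat_lit 87) (.e (nat_lit 57478) (nat_lit 28) (.e (nat_lit 557109) (nat_lit 15) (.e (nat_lit 188450) (nat_lit 23) (.e (nat_lit 204861) (nat_lit 26) .nil))))) .nil))) (.nd (nat_lit 5) 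
(.lf (nat_lit 19474) (.g (nat_lit 4437) (.e (nat_lit 1181) (nat_lit 87) (.e (nat_lit 57478) (nat_lit 28) (.e (nat_lit 557109) (nat_lit 15) (.e (nat_lit 188449) (nat_lit 22) (.e (nat_lit 196667) (nat_lit 14) (.e (nat_lit 73732) (nat_lit 0) (.e (nat_lit 5907) (nat_lit 320) .nil))))))) (.g (nat_lit 4) .nil .nil))) 
(.lf (nat_lit 19506) (.g (nat_lit 4585) (.e (nat_lit 1181) (nat_lit 87) (.e (nat_lit 57478) (nat_lit 28) (.e (nat_lit 557109) (nat_lit 15) (.e (nat_lit 188452) (nat_lit 23) (.e (nat_lit 204849) (nat_lit 25) (.e (nat_lit 327692) (nat_lit 1) (.e (nat_lit 8439) (nat_lit 138) .nil))))))) (.g (nat_lit 4) .nil .nil))))) (.nd (nat_lit 4) (.nd (nat_lit 5) 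
(.lf (nat_lit 19466) (.g (nat_lit 2457) (.e (nat_lit 1181) (nat_lit 87) (.e (nat_lit 57478) (nat_lit 28) (.e (nat_lit 557109) (nat_lit 15) (.e (nat_lit 188449) (nat_lit 22) (.e (nat_lit 196666) (nat_lit 13) (.e (nat_lit 65553) (nat_lit 0) (.e (nat_lit 1023) (nat_lit 81) (.e (nat_lit 5906) (nat_lit 320) .nil)))))))) (.g (nat_lit 4) .nil .nil))) 
(.lf (nat_lit 19498) (.g (nat_lit 4940) (.e (nat_lit 1181) (nat_lit 87) (.e (nat_lit 57478) (nat_lit 28) (.e (nat_lit 557109) (nat_lit 15) (.e (nat_lit 188450) (nat_lit 23) (.e (nat_lit 204863) (nat_lit 27) (.e (nat_lit 344097) (nat_lit 18) (.e (nat_lit 5907) (nat_lit 320) .nil))))))) (.g (nat_lit 5) .nil .nil)))) (.nd (nat_lit 5) 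
(.lf (nat_lit 19482) (.g (nat_lit 5081) (.e (nat_lit 1181) (nat_lit 87) (.e (nat_lit 57478) (nat_lit 28) (.e (nat_lit 557109) (nat_lit 15) (.e (nat_lit 188449) (nat_lit 22) (.e (nat_lit 196681) (nat_lit 17) (.e (nat_lit 131088) (nat_lit 1) (.e (nat_lit 57870) (nat_lit 264) .nil))))))) (.g (nat_lit 4) .nil .nil))) 
(.lf (nat_lit 19514) (.g (nat_lit 3246) (.e (nat_lit 1181) (nat_lit 87) (.e (nat_lit 57478) (nat_lit 28) (.e (nat_lit 557109) (nat_lit 15) (.e (nat_lit 188452) (nat_lit 23) (.e (nat_lit 204855) (nat_lit 26) (.e (nat_lit 335985) (nat_lit 1) (.e (nat_lit 57870) (nat_lit 264) .nil))))))) (.g (nat_lit 5) .nil .nil)))))) (.nd (nat_lit 3) (.nd (nat_lit 4) (.nd (nat_lit 5) 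
(.lf (nat_lit 19462) (.g (nat_lit 4228) (.e (nat_lit 1181) (nat_lit 87) (.e (nat_lit 57478) (nat_lit 28) (.e (nat_lit 557109) (nat_lit 15) (.e (nat_lit 188449) (nat_lit 22) (.e (nat_lit 196630) (nat_lit 9) (.e (nat_lit 1549) (nat_lit 109) (.e (nat_lit 344097) (nat_lit 18) (.e (nat_lit 5907) (nat_lit 320) .nil)))))))) (.g (nat_lit 5) .nil .nil))) 
(.lf (nat_lit 19494) (.g (nat_lit 3510) (.e (nat_lit 1181) (nat_lit 87) (.e (nat_lit 57478) (nat_lit 28) (.e (nat_lit 557109) (nat_lit 15) (.e (nat_lit 188450) (nat_lit 23) (.e (nat_lit 204862) (nat_lit 27) .nil))))) .nil))) (.nd (nat_lit 5) 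
(.lf (nat_lit 19478) (.g (nat_lit 3840) (.e (nat_lit 1181) (nat_lit 87) (.e (nat_lit 57478) (nat_lit 28) (.e (nat_lit 557109) (nat_lit 15) (.e (nat_lit 188449) (nat_lit 22) (.e (nat_lit 196670) (nat_lit 14) (.e (nat_lit 73732) (nat_lit 0) (.e (nat_lit 5905) (nat_lit 320) .nil))))))) (.g (nat_lit 4) .nil .nil))) 
(.lf (nat_lit 19510) (.g (nat_lit 2597) (.e (nat_lit 1181) (nat_lit 87) (.e (nat_lit 57478) (nat_lit 28) (.e (nat_lit 557109) (nat_lit 15) (.e (nat_lit 188452) (nat_lit 23) (.e (nat_lit 204852) (nat_lit 26) .nil))))) .nil)))) (.nd (nat_lit 4) (.nd (nat_lit 5) 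
(.lf (nat_lit 19470) (.g (nat_lit 3299) (.e (nat_lit 1181) (nat_lit 87) (.e (nat_lit 57478) (nat_lit 28) (.e (nat_lit 557109) (nat_lit 15) (.e (nat_lit 188449) (nat_lit 22) (.e (nat_lit 196666) (nat_lit 13) (.e (nat_lit 65563) (nat_lit 1) (.e (nat_lit 57872) (nat_lit 264) .nil))))))) (.g (nat_lit 5) .nil .nil))) 
(.lf (nat_lit 19502) (.g (nat_lit 3659) (.e (nat_lit 1181) (nat_lit 87) (.e (nat_lit 57478) (nat_lit 28) (.e (nat_lit 557109) (nat_lit 15) (.e (nat_lit 188452) (nat_lit 23) (.e (nat_lit 204817) (nat_lit 17) .nil))))) .nil))) (.nd (nat_lit 5) 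
(.lf (nat_lit 19486) (.g (nat_lit 3647) (.e (nat_lit 1181) (nat_lit 87) (.e (nat_lit 57478) (nat_lit 28) (.e (nat_lit 557109) (nat_lit 15) (.e (nat_lit 188450) (nat_lit 23) (.e (nat_lit 204850) (nat_lit 26) .nil))))) .nil)) 
(.lf (nat_lit 19518) (.g (nat_lit 3496) (.e (nat_lit 1181) (nat_lit 87) (.e (nat_lit 57478) (nat_lit 28) (.e (nat_lit 557109) (nat_lit 15) (.e (nat_lit 188452) (nat_lit 23) (.e (nat_lit 204855) (nat_lit 26) (.e (nat_lit 335992) (nat_lit 1) (.e (nat_lit 57870) (nat_lit 264) .nil))))))) (.g (nat_lit 5) .nil .nil)))))))) 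
(.nd (nat_lit 1) (.nd (nat_lit 2) (.nd (nat_lit 3) (.nd (nat_lit 4) (.nd (nat_lit 5) 
(.lf (nat_lit 19457) (.g (nat_lit 3628) (.e (nat_lit 1181) (nat_lit 87) (.e (nat_lit 57478) (nat_lit 28) (.e (nat_lit 557109) (nat_lit 15) (.e (nat_lit 188449) (nat_lit 22) (.e (nat_lit 196630) (nat_lit 9) (.e (nat_lit 1462) (nat_lit 108) (.e (nat_lit 335997) (nat_lit 1) (.e (nat_lit 57870) (nat_lit 264) .nil)))))))) (.g (nat_lit 4) .nil .nil))) 
(.lf (nat_lit 19489) (.g (nat_lit 3778) (.e (nat_lit 1181) (nat_lit 87) (.e (nat_lit 57478) (nat_lit 28) (.e (nat_lit 557109) (nat_lit 15) (.e (nat_lit 188450) (nat_lit 23) (.e (nat_lit 204859) (nat_lit 26) .nil))))) .nil))) (.nd (nat_lit 5) 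
(.lf (nat_lit 19473) (.g (nat_lit 3321) (.e (nat_lit 1181) (nat_lit 87) (.e (nat_lit 57478) (nat_lit 28) (.e (nat_lit 557109) (nat_lit 15) (.e (nat_lit 188449) (nat_lit 22) (.e (nat_lit 196666) (nat_lit 13) (.e (nat_lit 65565) (nat_lit 1) (.e (nat_lit 57872) (nat_lit 264) .nil))))))) (.g (nat_lit 5) .nil .nil))) 
(.lf (nat_lit 19505) (.g (nat_lit 4511) (.e (nat_lit 1181) (nat_lit 87) (.e (nat_lit 57478) (nat_lit 28) (.e (nat_lit 557109) (nat_lit 15) (.e (nat_lit 188452) (nat_lit 23) (.e (nat_lit 204821) (nat_lit 17) (.e (nat_lit 7936) (nat_lit 343) (.e (nat_lit 1181) (nat_lit 87) (.e (nat_lit 57872) (nat_lit 264) .nil)))))))) (.g (nat_lit 4) .nil .nil))))) (.nd (nat_lit 4) (.nd (nat_lit 5) 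
(.lf (nat_lit 19465) (.g (nat_lit 3696) (.e (nat_lit 1181) (nat_lit 87) (.e (nat_lit 57478) (nat_lit 28) (.e (nat_lit 557109) (nat_lit 15) (.e (nat_lit 188449) (nat_lit 22) (.e (nat_lit 196666) (nat_lit 13) (.e (nat_lit 65550) (nat_lit 0) (.e (nat_lit 1023) (nat_lit 81) (.e (nat_lit 5907) (nat_lit 320) .nil)))))))) (.g (nat_lit 5) .nil .nil))) 
(.lf (nat_lit 19497) (.g (nat_lit 4351) (.e (nat_lit 1181) (nat_lit 87) (.e (nat_lit 57478) (nat_lit 28) (.e (nat_lit 557109) (nat_lit 15) (.e (nat_lit 188450) (nat_lit 23) (.e (nat_lit 204863) (nat_lit 27) (.e (nat_lit 344097) (nat_lit 18) (.e (nat_lit 5906) (nat_lit 320) .nil))))))) (.g (nat_lit 4) .nil .nil)))) (.nd (nat_lit 5) 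
(.lf (nat_lit 19481) (.g (nat_lit 5326) (.e (nat_lit 1181) (nat_lit 87) (.e (nat_lit 57478) (nat_lit 28) (.e (nat_lit 557109) (nat_lit 15) (.e (nat_lit 188449) (nat_lit 22) (.e (nat_lit 196681) (nat_lit 17) (.e (nat_lit 131086) (nat_lit 1) (.e (nat_lit 57872) (nat_lit 264) .nil))))))) (.g (nat_lit 4) .nil .nil))) 
(.lf (nat_lit 19513) (.g (nat_lit 2320) (.e (nat_lit 1181) (nat_lit 87) (.e (nat_lit 57478) (nat_lit 28) (.e (nat_lit 557109) (nat_lit 15) (.e (nat_lit 188452) (nat_lit 23) (.e (nat_lit 204855) (nat_lit 26) .nil))))) .nil))))) (.nd (nat_lit 3) (.nd (nat_lit 4) (.nd (nat_lit 5) 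
(.lf (nat_lit 19461) (.g (nat_lit 3471) (.e (nat_lit 1181) (nat_lit 87) (.e (nat_lit 57478) (nat_lit 28) (.e (nat_lit 557109) (nat_lit 15) (.e (nat_lit 188449) (nat_lit 22) (.e (nat_lit 196630) (nat_lit 9) (.e (nat_lit 1549) (nat_lit 109) (.e (nat_lit 344097) (nat_lit 18) (.e (nat_lit 5906) (nat_lit 320) .nil)))))))) (.g (nat_lit 4) .nil .nil))) 
(.lf (nat_lit 19493) (.g (nat_lit 3867) (.e (nat_lit 1181) (nat_lit 87) (.e (nat_lit 57478) (nat_lit 28) (.e (nat_lit 557109) (nat_lit 15) (.e (nat_lit 188450) (nat_lit 23) (.e (nat_lit 204861) (nat_lit 26) (.e (nat_lit 335996) (nat_lit 1) (.e (nat_lit 57870) (nat_lit 264) .nil))))))) (.g (nat_lit 4) .nil .nil)))) (.nd (nat_lit 5) 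
(.lf (nat_lit 19477) (.g (nat_lit 4999) (.e (nat_lit 1181) (nat_lit 87) (.e (nat_lit 57478) (nat_lit 28) (.e (nat_lit 557109) (nat_lit 15) (.e (nat_lit 188449) (nat_lit 22) (.e (nat_lit 196668) (nat_lit 14) (.e (nat_lit 73733) (nat_lit 0) (.e (nat_lit 5907) (nat_lit 320) .nil))))))) (.g (nat_lit 6) .nil .nil))) 
(.lf (nat_lit 19509) (.g (nat_lit 3229) (.e (nat_lit 1181) (nat_lit 87) (.e (nat_lit 57478) (nat_lit 28) (.e (nat_lit 557109) (nat_lit 15) (.e (nat_lit 188452) (nat_lit 23) (.e (nat_lit 204850) (nat_lit 26) (.e (nat_lit 335997) (nat_lit 1) (.e (nat_lit 57872) (nat_lit 264) .nil))))))) (.g (nat_lit 4) .nil .nil))))) (.nd (nat_lit 4) (.nd (nat_lit 5) 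
(.lf (nat_lit 19469) (.g (nat_lit 2574) (.e (nat_lit 1181) (nat_lit 87) (.e (nat_lit 57478) (nat_lit 28) (.e (nat_lit 557109) (nat_lit 15) (.e (nat_lit 188449) (nat_lit 22) (.e (nat_lit 196666) (nat_lit 13) (.e (nat_lit 65563) (nat_lit 1) (.e (nat_lit 57871) (nat_lit 264) .nil))))))) (.g (nat_lit 4) .nil .nil))) 
(.lf (nat_lit 19501) (.g (nat_lit 5725) (.e (nat_lit 1181) (nat_lit 87) (.e (nat_lit 57478) (nat_lit 28) (.e (nat_lit 557109) (nat_lit 15) (.e (nat_lit 188452) (nat_lit 23) (.e (nat_lit 204816) (nat_lit 17) .nil))))) .nil))) (.nd (nat_lit 5) 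
(.lf (nat_lit 19485) (.g (nat_lit 2054) (.e (nat_lit 1181) (nat_lit 87) (.e (nat_lit 57478) (nat_lit 28) (.e (nat_lit 557109) (nat_lit 15) (.e (nat_lit 188450) (nat_lit 23) .nil)))) .nil)) 
(.lf (nat_lit 19517) (.g (nat_lit 3605) (.e (nat_lit 1181) (nat_lit 87) (.e (nat_lit 57478) (nat_lit 28) (.e (nat_lit 557109) (nat_lit 15) (.e (nat_lit 188452) (nat_lit 23) (.e (nat_lit 204855) (nat_lit 26) (.e (nat_lit 335991) (nat_lit 1) (.e (nat_lit 57873) (nat_lit 264) .nil))))))) (.g (nat_lit 5) .nil .nil))))))) (.nd (nat_lit 2) (.nd (nat_lit 3) (.nd (nat_lit 4) (.nd (nat_lit 5) 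
(.lf (nat_lit 19459) (.g (nat_lit 4160) (.e (nat_lit 1181) (nat_lit 87) (.e (nat_lit 57478) (nat_lit 28) (.e (nat_lit 557109) (nat_lit 15) (.e (nat_lit 188449) (nat_lit 22) (.e (nat_lit 196630) (nat_lit 9) (.e (nat_lit 1485) (nat_lit 108) (.e (nat_lit 335995) (nat_lit 1) (.e (nat_lit 57872) (nat_lit 264) .nil)))))))) (.g (nat_lit 5) .nil .nil))) 
(.lf (nat_lit 19491) (.g (nat_lit 3829) (.e (nat_lit 1181) (nat_lit 87) (.e (nat_lit 57478) (nat_lit 28) (.e (nat_lit 557109) (nat_lit 15) (.e (nat_lit 188450) (nat_lit 23) (.e (nat_lit 204861) (nat_lit 26) (.e (nat_lit 335986) (nat_lit 1) (.e (nat_lit 57873) (nat_lit 264) .nil))))))) (.g (nat_lit 4) .nil .nil)))) (.nd (nat_lit 5) 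
(.lf (nat_lit 19475) (.g (nat_lit 4398) (.e (nat_lit 1181) (nat_lit 87) (.e (nat_lit 57478) (nat_lit 28) (.e (nat_lit 557109) (nat_lit 15) (.e (nat_lit 188449) (nat_lit 22) (.e (nat_lit 196667) (nat_lit 14) (.e (nat_lit 73733) (nat_lit 0) (.e (nat_lit 5907) (nat_lit 320) .nil))))))) (.g (nat_lit 4) .nil .nil))) 
(.lf (nat_lit 19507) (.g (nat_lit 2452) (.e (nat_lit 1181) (nat_lit 87) (.e (nat_lit 57478) (nat_lit 28) (.e (nat_lit 557109) (nat_lit 15) (.e (nat_lit 188452) (nat_lit 23) (.e (nat_lit 204850) (nat_lit 26) .nil))))) .nil)))) (.nd (nat_lit 4) (.nd (nat_lit 5) 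
(.lf (nat_lit 19467) (.g (nat_lit 2258) (.e (nat_lit 1181) (nat_lit 87) (.e (nat_lit 57478) (nat_lit 28) (.e (nat_lit 557109) (nat_lit 15) (.e (nat_lit 188449) (nat_lit 22) (.e (nat_lit 196666) (nat_lit 13) (.e (nat_lit 65553) (nat_lit 0) (.e (nat_lit 1023) (nat_lit 81) (.e (nat_lit 5907) (nat_lit 320) .nil)))))))) (.g (nat_lit 4) .nil .nil))) 
(.lf (nat_lit 19499) (.g (nat_lit 3773) (.e (nat_lit 1181) (nat_lit 87) (.e (nat_lit 57478) (nat_lit 28) (.e (nat_lit 557109) (nat_lit 15) (.e (nat_lit 188450) (nat_lit 23) (.e (nat_lit 204872) (nat_lit 30) .nil))))) .nil))) (.nd (nat_lit 5) 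
(.lf (nat_lit 19483) (.g (nat_lit 5289) (.e (nat_lit 1181) (nat_lit 87) (.e (nat_lit 57478) (nat_lit 28) (.e (nat_lit 557109) (nat_lit 15) (.e (nat_lit 188449) (nat_lit 22) (.e (nat_lit 196681) (nat_lit 17) (.e (nat_lit 131088) (nat_lit 1) (.e (nat_lit 57872) (nat_lit 264) .nil))))))) (.g (nat_lit 4) .nil .nil))) 
(.lf (nat_lit 19515) (.g (nat_lit 2471) (.e (nat_lit 1181) (nat_lit 87) (.e (nat_lit 57478) (nat_lit 28) (.e (nat_lit 557109) (nat_lit 15) (.e (nat_lit 188452) (nat_lit 23) (.e (nat_lit 204855) (nat_lit 26) (.e (nat_lit 335985) (nat_lit 1) (.e (nat_lit 57871) (nat_lit 264) .nil))))))) (.g (nat_lit 4) .nil .nil)))))) (.nd (nat_lit 3) (.nd (nat_lit 4) (.nd (nat_lit 5) 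
(.lf (nat_lit 19463) (.g (nat_lit 2793) (.e (nat_lit 1181) (nat_lit 87) (.e (nat_lit 57478) (nat_lit 28) (.e (nat_lit 557109) (nat_lit 15) (.e (nat_lit 188449) (nat_lit 22) (.e (nat_lit 196666) (nat_lit 13) (.e (nat_lit 65550) (nat_lit 0) (.e (nat_lit 1023) (nat_lit 81) (.e (nat_lit 5905) (nat_lit 320) .nil)))))))) (.g (nat_lit 4) .nil .nil))) 
(.lf (nat_lit 19495) (.g (nat_lit 3860) (.e (nat_lit 1181) (nat_lit 87) (.e (nat_lit 57478) (nat_lit 28) (.e (nat_lit 557109) (nat_lit 15) (.e (nat_lit 188450) (nat_lit 23) (.e (nat_lit 204862) (nat_lit 27) (.e (nat_lit 344097) (nat_lit 18) (.e (nat_lit 5907) (nat_lit 320) .nil))))))) (.g (nat_lit 4) .nil .nil)))) (.nd (nat_lit 5) 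
(.lf (nat_lit 19479) (.g (nat_lit 4398) (.e (nat_lit 1181) (nat_lit 87) (.e (nat_lit 57478) (nat_lit 28) (.e (nat_lit 557109) (nat_lit 15) (.e (nat_lit 188449) (nat_lit 22) (.e (nat_lit 196670) (nat_lit 14) (.e (nat_lit 73732) (nat_lit 0) (.e (nat_lit 5906) (nat_lit 320) .nil))))))) (.g (nat_lit 5) .nil .nil))) 
(.lf (nat_lit 19511) (.g (nat_lit 3121) (.e (nat_lit 1181) (nat_lit 87) (.e (nat_lit 57478) (nat_lit 28) (.e (nat_lit 557109) (nat_lit 15) (.e (nat_lit 188452) (nat_lit 23) (.e (nat_lit 204852) (nat_lit 26) (.e (nat_lit 343808) (nat_lit 1) (.e (nat_lit 57872) (nat_lit 264) .nil))))))) (.g (nat_lit 4) .nil .nil))))) (.nd (nat_lit 4) (.nd (nat_lit 5) 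
(.lf (nat_lit 19471) (.g (nat_lit 3306) (.e (nat_lit 1181) (nat_lit 87) (.e (nat_lit 57478) (nat_lit 28) (.e (nat_lit 557109) (nat_lit 15) (.e (nat_lit 188449) (nat_lit 22) (.e (nat_lit 196666) (nat_lit 13) (.e (nat_lit 65565) (nat_lit 1) (.e (nat_lit 57870) (nat_lit 264) .nil))))))) (.g (nat_lit 5) .nil .nil))) 
(.lf (nat_lit 19503) (.g (nat_lit 4438) (.e (nat_lit 1181) (nat_lit 87) (.e (nat_lit 57478) (nat_lit 28) (.e (nat_lit 557109) (nat_lit 15) (.e (nat_lit 188452) (nat_lit 23) (.e (nat_lit 204817) (nat_lit 17) (.e (nat_lit 7936) (nat_lit 343) (.e (nat_lit 1183) (nat_lit 87) (.e (nat_lit 57872) (nat_lit 264) .nil)))))))) (.g (nat_lit 4) .nil .nil)))) (.nd (nat_lit 5) 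
(.lf (nat_lit 19487) (.g (nat_lit 3545) (.e (nat_lit 1181) (nat_lit 87) (.e (nat_lit 57478) (nat_lit 28) (.e (nat_lit 557109) (nat_lit 15) (.e (nat_lit 188450) (nat_lit 23) (.e (nat_lit 204855) (nat_lit 26) .nil))))) .nil)) 
(.lf (nat_lit 19519) (.g (nat_lit 3399) (.e (nat_lit 1181) (nat_lit 87) (.e (nat_lit 57478) (nat_lit 28) (.e (nat_lit 557109) (nat_lit 15) (.e (nat_lit 188452) (nat_lit 23) (.e (nat_lit 204855) (nat_lit 26) (.e (nat_lit 335992) (nat_lit 1) (.e (nat_lit 57873) (nat_lit 264) .nil))))))) (.g (nat_lit 5) .nil .nil)))))))))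

noncomputable def tv270 : DT := (.nd (nat_lit 0) (.nd (nat_lit 1) (.nd (nat_lit 2) (.nd (nat_lit 3) (.nd (nat_lit 4) (.nd (nat_lit 5) 
(.lf (nat_lit 19520) (.g (nat_lit 4014) (.e (nat_lit 1181) (nat_lit 87) (.e (nat_lit 57478) (nat_lit 28) (.e (nat_lit 557109) (nat_lit 15) (.e (nat_lit 188452) (nat_lit 23) (.e (nat_lit 204856) (nat_lit 26) (.e (nat_lit 335997) (nat_lit 1) (.e (nat_lit 57870) (nat_lit 264) .nil))))))) (.g (nat_lit 5) .nil .nil))) 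
(.lf (nat_lit 19552) (.g (nat_lit 4605) (.e (nat_lit 1181) (nat_lit 87) (.e (nat_lit 57478) (nat_lit 28) (.e (nat_lit 557109) (nat_lit 15) (.e (nat_lit 188452) (nat_lit 23) (.e (nat_lit 204874) (nat_lit 30) (.e (nat_lit 368662) (nat_lit 18) (.e (nat_lit 5906) (nat_lit 320) .nil))))))) (.g (nat_lit 5) .nil .nil)))) (.nd (nat_lit 5) 
(.lf (nat_lit 19536) (.g (nat_lit 2855) (.e (nat_lit 1181) (nat_lit 87) (.e (nat_lit 57478) (nat_lit 28) (.e (nat_lit 557109) (nat_lit 15) (.e (nat_lit 188452) (nat_lit 23) (.e (nat_lit 204863) (nat_lit 27) (.e (nat_lit 344097) (nat_lit 18) (.e (nat_lit 5905) (nat_lit 320) .nil))))))) (.g (nat_lit 4) .nil .nil))) 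
(.lf (nat_lit 19568) (.g (nat_lit 3554) (.e (nat_lit 1181) (nat_lit 87) (.e (nat_lit 57479) (nat_lit 28) (.e (nat_lit 557095) (nat_lit 13) (.e (nat_lit 172097) (nat_lit 9) (.e (nat_lit 426125) (nat_lit 2) (.e (nat_lit 196666) (nat_lit 13) (.e (nat_lit 65565) (nat_lit 1) (.e (nat_lit 57870) (nat_lit 264) .nil)))))))) (.g (nat_lit 5) .nil .nil))))) (.nd (nat_lit 4) (.nd (nat_lit 5) 
(.lf (nat_lit 19528) (.g (nat_lit 5818) (.e (nat_lit 1181) (nat_lit 87) (.e (nat_lit 57478) (nat_lit 28) (.e (nat_lit 557109) (nat_lit 15) (.e (nat_lit 188452) (nat_lit 23) (.e (nat_lit 204861) (nat_lit 26) (.e (nat_lit 335986) (nat_lit 1) (.e (nat_lit 57873) (nat_lit 264) .nil))))))) (.g (nat_lit 5) .nil .nil))) 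
(.lf (nat_lit 19560) (.g (nat_lit 3270) (.e (nat_lit 1181) (nat_lit 87) (.e (nat_lit 57478) (nat_lit 28) (.e (nat_lit 557109) (nat_lit 15) (.e (nat_lit 188458) (nat_lit 25) (.e (nat_lit 245791) (nat_lit 14) .nil))))) .nil))) (.nd (nat_lit 5) 
(.lf (nat_lit 19544) (.g (nat_lit 5138) (.e (nat_lit 1181) (nat_lit 87) (.e (nat_lit 57478) (nat_lit 28) (.e (nat_lit 557109) (nat_lit 15) (.e (nat_lit 188452) (nat_lit 23) (.e (nat_lit 204864) (nat_lit 27) (.e (nat_lit 344097) (nat_lit 18) (.e (nat_lit 5907) (nat_lit 320) .nil))))))) (.g (nat_lit 7) .nil .nil))) 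
(.lf (nat_lit 19576) (.g (nat_lit 3031) (.e (nat_lit 1181) (nat_lit 87) (.e (nat_lit 57479) (nat_lit 28) (.e (nat_lit 557095) (nat_lit 13) (.e (nat_lit 172097) (nat_lit 9) (.e (nat_lit 426140) (nat_lit 3) (.e (nat_lit 204855) (nat_lit 26) (.e (nat_lit 335985) (nat_lit 1) (.e (nat_lit 57872) (nat_lit 264) .nil)))))))) (.g (nat_lit 4) .nil .nil)))))) 
(.nd (nat_lit 3) (.nd (nat_lit 4) (.nd (nat_lit 5) 
(.lf (nat_lit 19524) (.g (nat_lit 4075) (.e (nat_lit 1181) (nat_lit 87) (.e (nat_lit 57478) (nat_lit 28) (.e (nat_lit 557109) (nat_lit 15) (.e (nat_lit 188452) (nat_lit 23) (.e (nat_lit 204857) (nat_lit 26) (.e (nat_lit 335997) (nat_lit 1) (.e (nat_lit 57870) (nat_lit 264) .nil))))))) (.g (nat_lit 4) .nil .nil))) 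
(.lf (nat_lit 19556) (.g (nat_lit 3981) (.e (nat_lit 1181) (nat_lit 87) (.e (nat_lit 57478) (nat_lit 28) (.e (nat_lit 557109) (nat_lit 15) (.e (nat_lit 188458) (nat_lit 25) (.e (nat_lit 245784) (nat_lit 9) (.e (nat_lit 1413) (nat_lit 108) (.e (nat_lit 335997) (nat_lit 1) (.e (nat_lit 57870) (nat_lit 264) .nil)))))))) (.g (nat_lit 5) .nil .nil)))) (.nd (nat_lit 5) 
(.lf (nat_lit 19540) (.g (nat_lit 2753) (.e (nat_lit 1181) (nat_lit 87) (.e (nat_lit 57478) (nat_lit 28) (.e (nat_lit 557109) (nat_lit 15) (.e (nat_lit 188452) (nat_lit 23) (.e (nat_lit 204863) (nat_lit 27) (.e (nat_lit 344101) (nat_lit 18) (.e (nat_lit 5907) (nat_lit 320) .nil))))))) (.g (nat_lit 4) .nil .nil))) 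
(.lf (nat_lit 19572) (.g (nat_lit 2282) (.e (nat_lit 1181) (nat_lit 87) (.e (nat_lit 57479) (nat_lit 28) (.e (nat_lit 557095) (nat_lit 13) (.e (nat_lit 172097) (nat_lit 9) (.e (nat_lit 426140) (nat_lit 3) .nil))))) .nil)))) (.nd (nat_lit 4) (.nd (nat_lit 5) 
(.lf (nat_lit 19532) (.g (nat_lit 2707) (.e (nat_lit 1181) (nat_lit 87) (.e (nat_lit 57478) (nat_lit 28) (.e (nat_lit 557109) (nat_lit 15) (.e (nat_lit 188452) (nat_lit 23) (.e (nat_lit 204862) (nat_lit 27) (.e (nat_lit 344097) (nat_lit 18) (.e (nat_lit 5905) (nat_lit 320) .nil))))))) (.g (nat_lit 4) .nil .nil))) 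
(.lf (nat_lit 19564) (.g (nat_lit 3638) (.e (nat_lit 1181) (nat_lit 87) (.e (nat_lit 57479) (nat_lit 28) (.e (nat_lit 557095) (nat_lit 13) (.e (nat_lit 172097) (nat_lit 9) (.e (nat_lit 426125) (nat_lit 2) (.e (nat_lit 196666) (nat_lit 13) (.e (nat_lit 65563) (nat_lit 1) (.e (nat_lit 57870) (nat_lit 264) .nil)))))))) (.g (nat_lit 5) .nil .nil)))) (.nd (nat_lit 5) 
(.lf (nat_lit 19548) (.g (nat_lit 3497) (.e (nat_lit 1181) (nat_lit 87) (.e (nat_lit 57478) (nat_lit 28) (.e (nat_lit 557109) (nat_lit 15) (.e (nat_lit 188452) (nat_lit 23) (.e (nat_lit 204872) (nat_lit 30) (.e (nat_lit 368662) (nat_lit 18) (.e (nat_lit 5906) (nat_lit 320) .nil))))))) (.g (nat_lit 4) .nil .nil))) 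
(.lf (nat_lit 19580) (.g (nat_lit 4167) (.e (nat_lit 1181) (nat_lit 87) (.e (nat_lit 57479) (nat_lit 28) (.e (nat_lit 557095) (nat_lit 13) (.e (nat_lit 172097) (nat_lit 9) (.e (nat_lit 426140) (nat_lit 3) (.e (nat_lit 204862) (nat_lit 27) (.e (nat_lit 344097) (nat_lit 18) (.e (nat_lit 5907) (nat_lit 320) .nil)))))))) (.g (nat_lit 6) .nil .nil))))))) 
(.nd (nat_lit 2) (.nd (nat_lit 3) (.nd (nat_lit 4) (.nd (nat_lit 5) 
(.lf (nat_lit 19522) (.g (nat_lit 4027) (.e (nat_lit 1181) (nat_lit 87) (.e (nat_lit 57478) (nat_lit 28) (.e (nat_lit 557109) (nat_lit 15) (.e (nat_lit 188452) (nat_lit 23) (.e (nat_lit 204856) (nat_lit 26) (.e (nat_lit 335997) (nat_lit 1) (.e (nat_lit 57872) (nat_lit 264) .nil))))))) (.g (nat_lit 5) .nil .nil))) 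
(.lf (nat_lit 19554) (.g (nat_lit 3355) (.e (nat_lit 1181) (nat_lit 87) (.e (nat_lit 57478) (nat_lit 28) (.e (nat_lit 557109) (nat_lit 15) (.e (nat_lit 188458) (nat_lit 25) (.e (nat_lit 245782) (nat_lit 9) .nil))))) .nil))) (.nd (nat_lit 5) 
(.lf (nat_lit 19538) (.g (nat_lit 4625) (.e (nat_lit 1181) (nat_lit 87) (.e (nat_lit 57478) (nat_lit 28) (.e (nat_lit 557109) (nat_lit 15) (.e (nat_lit 188452) (nat_lit 23) (.e (nat_lit 204863) (nat_lit 27) (.e (nat_lit 344097) (nat_lit 18) (.e (nat_lit 5907) (nat_lit 320) .nil))))))) (.g (nat_lit 6) .nil .nil))) 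
(.lf (nat_lit 19570) (.g (nat_lit 3644) (.e (nat_lit 1181) (nat_lit 87) (.e (nat_lit 57479) (nat_lit 28) (.e (nat_lit 557095) (nat_lit 13) (.e (nat_lit 172097) (nat_lit 9) (.e (nat_lit 426125) (nat_lit 2) (.e (nat_lit 196666) (nat_lit 13) (.e (nat_lit 65565) (nat_lit 1) (.e (nat_lit 57872) (nat_lit 264) .nil)))))))) (.g (nat_lit 5) .nil .nil))))) (.nd (nat_lit 4) (.nd (nat_lit 5) 
(.lf (nat_lit 19530) (.g (nat_lit 3604) (.e (nat_lit 1181) (nat_lit 87) (.e (nat_lit 57478) (nat_lit 28) (.e (nat_lit 557109) (nat_lit 15) (.e (nat_lit 188452) (nat_lit 23) (.e (nat_lit 212736) (nat_lit 26) .nil))))) .nil)) 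
(.lf (nat_lit 19562) (.g (nat_lit 3132) (.e (nat_lit 1181) (nat_lit 87) (.e (nat_lit 57478) (nat_lit 28) (.e (nat_lit 557109) (nat_lit 15) (.e (nat_lit 188458) (nat_lit 25) (.e (nat_lit 245794) (nat_lit 17) .nil))))) .nil))) (.nd (nat_lit 5) 
(.lf (nat_lit 19546) (.g (nat_lit 4082) (.e (nat_lit 1181) (nat_lit 87) (.e (nat_lit 57478) (nat_lit 28) (.e (nat_lit 557109) (nat_lit 15) (.e (nat_lit 188452) (nat_lit 23) (.e (nat_lit 204864) (nat_lit 27) (.e (nat_lit 344100) (nat_lit 18) (.e (nat_lit 5907) (nat_lit 320) .nil))))))) (.g (nat_lit 5) .nil .nil))) 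
(.lf (nat_lit 19578) (.g (nat_lit 2984) (.e (nat_lit 1181) (nat_lit 87) (.e (nat_lit 57479) (nat_lit 28) (.e (nat_lit 557095) (nat_lit 13) (.e (nat_lit 172097) (nat_lit 9) (.e (nat_lit 426140) (nat_lit 3) (.e (nat_lit 204855) (nat_lit 26) (.e (nat_lit 335992) (nat_lit 1) (.e (nat_lit 57870) (nat_lit 264) .nil)))))))) (.g (nat_lit 4) .nil .nil)))))) 
(.nd (nat_lit 3) (.nd (nat_lit 4) (.nd (nat_lit 5) 
(.lf (nat_lit 19526) (.g (nat_lit 4365) (.e (nat_lit 1181) (nat_lit 87) (.e (nat_lit 57478) (nat_lit 28) (.e (nat_lit 557109) (nat_lit 15) (.e (nat_lit 188452) (nat_lit 23) (.e (nat_lit 204860) (nat_lit 26) .nil))))) .nil)) 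
(.lf (nat_lit 19558) (.g (nat_lit 4002) (.e (nat_lit 1181) (nat_lit 87) (.e (nat_lit 57478) (nat_lit 28) (.e (nat_lit 557109) (nat_lit 15) (.e (nat_lit 188458) (nat_lit 25) (.e (nat_lit 245784) (nat_lit 9) (.e (nat_lit 1520) (nat_lit 108) (.e (nat_lit 335995) (nat_lit 1) (.e (nat_lit 57872) (nat_lit 264) .nil)))))))) (.g (nat_lit 4) .nil .nil)))) (.nd (nat_lit 5) 
(.lf (nat_lit 19542) (.g (nat_lit 3060) (.e (nat_lit 1181) (nat_lit 87) (.e (nat_lit 57478) (nat_lit 28) (.e (nat_lit 557109) (nat_lit 15) (.e (nat_lit 188452) (nat_lit 23) (.e (nat_lit 204864) (nat_lit 27) (.e (nat_lit 344097) (nat_lit 18) (.e (nat_lit 5905) (nat_lit 320) .nil))))))) (.g (nat_lit 4) .nil .nil))) 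
(.lf (nat_lit 19574) (.g (nat_lit 3111) (.e (nat_lit 1181) (nat_lit 87) (.e (nat_lit 57479) (nat_lit 28) (.e (nat_lit 557095) (nat_lit 13) (.e (nat_lit 172097) (nat_lit 9) (.e (nat_lit 426140) (nat_lit 3) (.e (nat_lit 204850) (nat_lit 26) (.e (nat_lit 335997) (nat_lit 1) (.e (nat_lit 57872) (nat_lit 264) .nil)))))))) (.g (nat_lit 4) .nil .nil))))) (.nd (nat_lit 4) (.nd (nat_lit 5) 
(.lf (nat_lit 19534) (.g (nat_lit 3178) (.e (nat_lit 1181) (nat_lit 87) (.e (nat_lit 57478) (nat_lit 28) (.e (nat_lit 557109) (nat_lit 15) (.e (nat_lit 188452) (nat_lit 23) (.e (nat_lit 204863) (nat_lit 27) (.e (nat_lit 344090) (nat_lit 18) (.e (nat_lit 5896) (nat_lit 320) .nil))))))) (.g (nat_lit 4) .nil .nil))) 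
(.lf (nat_lit 19566) (.g (nat_lit 3699) (.e (nat_lit 1181) (nat_lit 87) (.e (nat_lit 57479) (nat_lit 28) (.e (nat_lit 557095) (nat_lit 13) (.e (nat_lit 172097) (nat_lit 9) (.e (nat_lit 426125) (nat_lit 2) (.e (nat_lit 196666) (nat_lit 13) (.e (nat_lit 65563) (nat_lit 1) (.e (nat_lit 57872) (nat_lit 264) .nil)))))))) (.g (nat_lit 5) .nil .nil)))) (.nd (nat_lit 5) 
(.lf (nat_lit 19550) (.g (nat_lit 4284) (.e (nat_lit 1181) (nat_lit 87) (.e (nat_lit 57478) (nat_lit 28) (.e (nat_lit 557109) (nat_lit 15) (.e (nat_lit 188452) (nat_lit 23) (.e (nat_lit 204873) (nat_lit 30) (.e (nat_lit 368662) (nat_lit 18) (.e (nat_lit 5907) (nat_lit 320) .nil))))))) (.g (nat_lit 6) .nil .nil))) 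
(.lf (nat_lit 19582) (.g (nat_lit 3758) (.e (nat_lit 1181) (nat_lit 87) (.e (nat_lit 57479) (nat_lit 28) (.e (nat_lit 557095) (nat_lit 13) (.e (nat_lit 172097) (nat_lit 9) (.e (nat_lit 426140) (nat_lit 3) (.e (nat_lit 204863) (nat_lit 27) (.e (nat_lit 344097) (nat_lit 18) (.e (nat_lit 5906) (nat_lit 320) .nil)))))))) (.g (nat_lit 5) .nil .nil)))))))) 
(.nd (nat_lit 1) (.nd (nat_lit 2) (.nd (nat_lit 3) (.nd (nat_lit 4) (.nd (nat_lit 5) 
(.lf (nat_lit 19521) (.g (nat_lit 3164) (.e (nat_lit 1181) (nat_lit 87) (.e (nat_lit 57478) (nat_lit 28) (.e (nat_lit 557109) (nat_lit 15) (.e (nat_lit 188452) (nat_lit 23) (.e (nat_lit 204856) (nat_lit 26) (.e (nat_lit 335997) (nat_lit 1) (.e (nat_lit 57871) (nat_lit 264) .nil))))))) (.g (nat_lit 4) .nil .nil))) 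
(.lf (nat_lit 19553) (.g (nat_lit 4718) (.e (nat_lit 1181) (nat_lit 87) (.e (nat_lit 57478) (nat_lit 28) (.e (nat_lit 557109) (nat_lit 15) (.e (nat_lit 188452) (nat_lit 23) (.e (nat_lit 204874) (nat_lit 30) (.e (nat_lit 368662) (nat_lit 18) (.e (nat_lit 5907) (nat_lit 320) .nil))))))) (.g (nat_lit 6) .nil .nil)))) (.nd (nat_lit 5) 
(.lf (nat_lit 19537) (.g (nat_lit 4006) (.e (nat_lit 1181) (nat_lit 87) (.e (nat_lit 57478) (nat_lit 28) (.e (nat_lit 557109) (nat_lit 15) (.e (nat_lit 188452) (nat_lit 23) (.e (nat_lit 204863) (nat_lit 27) (.e (nat_lit 344097) (nat_lit 18) (.e (nat_lit 5906) (nat_lit 320) .nil))))))) (.g (nat_lit 5) .nil .nil))) 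
(.lf (nat_lit 19569) (.g (nat_lit 3073) (.e (nat_lit 1181) (nat_lit 87) (.e (nat_lit 57479) (nat_lit 28) (.e (nat_lit 557095) (nat_lit 13) (.e (nat_lit 172097) (nat_lit 9) (.e (nat_lit 426125) (nat_lit 2) (.e (nat_lit 196666) (nat_lit 13) (.e (nat_lit 65565) (nat_lit 1) (.e (nat_lit 57871) (nat_lit 264) .nil)))))))) (.g (nat_lit 4) .nil .nil))))) (.nd (nat_lit 4) (.nd (nat_lit 5) 
(.lf (nat_lit 19529) (.g (nat_lit 6137) (.e (nat_lit 1181) (nat_lit 87) (.e (nat_lit 57478) (nat_lit 28) (.e (nat_lit 557109) (nat_lit 15) (.e (nat_lit 188452) (nat_lit 23) (.e (nat_lit 204861) (nat_lit 26) (.e (nat_lit 335995) (nat_lit 1) (.e (nat_lit 57872) (nat_lit 264) .nil))))))) (.g (nat_lit 5) .nil .nil))) 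
(.lf (nat_lit 19561) (.g (nat_lit 4065) (.e (nat_lit 1181) (nat_lit 87) (.e (nat_lit 57478) (nat_lit 28) (.e (nat_lit 557109) (nat_lit 15) (.e (nat_lit 188458) (nat_lit 25) (.e (nat_lit 245791) (nat_lit 14) (.e (nat_lit 73733) (nat_lit 0) (.e (nat_lit 5907) (nat_lit 320) .nil))))))) (.g (nat_lit 5) .nil .nil)))) (.nd (nat_lit 5) 
(.lf (nat_lit 19545) (.g (nat_lit 2842) (.e (nat_lit 1181) (nat_lit 87) (.e (nat_lit 57478) (nat_lit 28) (.e (nat_lit 557109) (nat_lit 15) (.e (nat_lit 188452) (nat_lit 23) (.e (nat_lit 204864) (nat_lit 27) (.e (nat_lit 344100) (nat_lit 18) (.e (nat_lit 5906) (nat_lit 320) .nil))))))) (.g (nat_lit 4) .nil .nil))) 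
(.lf (nat_lit 19577) (.g (nat_lit 3539) (.e (nat_lit 1181) (nat_lit 87) (.e (nat_lit 57479) (nat_lit 28) (.e (nat_lit 557095) (nat_lit 13) (.e (nat_lit 172097) (nat_lit 9) (.e (nat_lit 426140) (nat_lit 3) (.e (nat_lit 204855) (nat_lit 26) (.e (nat_lit 335985) (nat_lit 1) (.e (nat_lit 57873) (nat_lit 264) .nil)))))))) (.g (nat_lit 5) .nil .nil)))))) 
(.nd (nat_lit 3) (.nd (nat_lit 4) (.nd (nat_lit 5) 
(.lf (nat_lit 19525) (.g (nat_lit 5342) (.e (nat_lit 1181) (nat_lit 87) (.e (nat_lit 57478) (nat_lit 28) (.e (nat_lit 557109) (nat_lit 15) (.e (nat_lit 188452) (nat_lit 23) (.e (nat_lit 204858) (nat_lit 26) (.e (nat_lit 335991) (nat_lit 1) (.e (nat_lit 57873) (nat_lit 264) .nil))))))) (.g (nat_lit 5) .nil .nil))) 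
(.lf (nat_lit 19557) (.g (nat_lit 3904) (.e (nat_lit 1181) (nat_lit 87) (.e (nat_lit 57478) (nat_lit 28) (.e (nat_lit 557109) (nat_lit 15) (.e (nat_lit 188458) (nat_lit 25) (.e (nat_lit 245784) (nat_lit 9) (.e (nat_lit 1413) (nat_lit 108) (.e (nat_lit 335997) (nat_lit 1) (.e (nat_lit 57872) (nat_lit 264) .nil)))))))) (.g (nat_lit 4) .nil .nil)))) (.nd (nat_lit 5) 
(.lf (nat_lit 19541) (.g (nat_lit 3065) (.e (nat_lit 1181) (nat_lit 87) (.e (nat_lit 57478) (nat_lit 28) (.e (nat_lit 557109) (nat_lit 15) (.e (nat_lit 188452) (nat_lit 23) (.e (nat_lit 204864) (nat_lit 27) (.e (nat_lit 344090) (nat_lit 18) (.e (nat_lit 5896) (nat_lit 320) .nil))))))) (.g (nat_lit 4) .nil .nil))) 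
(.lf (nat_lit 19573) (.g (nat_lit 2968) (.e (nat_lit 1181) (nat_lit 87) (.e (nat_lit 57479) (nat_lit 28) (.e (nat_lit 557095) (nat_lit 13) (.e (nat_lit 172097) (nat_lit 9) (.e (nat_lit 426140) (nat_lit 3) (.e (nat_lit 204850) (nat_lit 26) (.e (nat_lit 335997) (nat_lit 1) (.e (nat_lit 57870) (nat_lit 264) .nil)))))))) (.g (nat_lit 4) .nil .nil))))) (.nd (nat_lit 4) (.nd (nat_lit 5) 
(.lf (nat_lit 19533) (.g (nat_lit 3834) (.e (nat_lit 1181) (nat_lit 87) (.e (nat_lit 57478) (nat_lit 28) (.e (nat_lit 557109) (nat_lit 15) (.e (nat_lit 188452) (nat_lit 23) (.e (nat_lit 204862) (nat_lit 27) (.e (nat_lit 344097) (nat_lit 18) (.e (nat_lit 5906) (nat_lit 320) .nil))))))) (.g (nat_lit 5) .nil .nil))) 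
(.lf (nat_lit 19565) (.g (nat_lit 3171) (.e (nat_lit 1181) (nat_lit 87) (.e (nat_lit 57479) (nat_lit 28) (.e (nat_lit 557095) (nat_lit 13) (.e (nat_lit 172097) (nat_lit 9) (.e (nat_lit 426125) (nat_lit 2) (.e (nat_lit 196666) (nat_lit 13) (.e (nat_lit 65563) (nat_lit 1) (.e (nat_lit 57871) (nat_lit 264) .nil)))))))) (.g (nat_lit 4) .nil .nil)))) (.nd (nat_lit 5) 
(.lf (nat_lit 19549) (.g (nat_lit 4063) (.e (nat_lit 1181) (nat_lit 87) (.e (nat_lit 57478) (nat_lit 28) (.e (nat_lit 557109) (nat_lit 15) (.e (nat_lit 188452) (nat_lit 23) (.e (nat_lit 204873) (nat_lit 30) (.e (nat_lit 368662) (nat_lit 18) (.e (nat_lit 5906) (nat_lit 320) .nil))))))) (.g (nat_lit 5) .nil .nil))) 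
(.lf (nat_lit 19581) (.g (nat_lit 2920) (.e (nat_lit 1181) (nat_lit 87) (.e (nat_lit 57479) (nat_lit 28) (.e (nat_lit 557095) (nat_lit 13) (.e (nat_lit 172097) (nat_lit 9) (.e (nat_lit 426140) (nat_lit 3) (.e (nat_lit 204863) (nat_lit 27) (.e (nat_lit 344097) (nat_lit 18) (.e (nat_lit 5905) (nat_lit 320) .nil)))))))) (.g (nat_lit 4) .nil .nil))))))) 
(.nd (nat_lit 2) (.nd (nat_lit 3) (.nd (nat_lit 4) (.nd (nat_lit 5) 
(.lf (nat_lit 19523) (.g (nat_lit 4008) (.e (nat_lit 1181) (nat_lit 87) (.e (nat_lit 57478) (nat_lit 28) (.e (nat_lit 557109) (nat_lit 15) (.e (nat_lit 188452) (nat_lit 23) (.e (nat_lit 204857) (nat_lit 26) .nil))))) .nil)) 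
(.lf (nat_lit 19555) (.g (nat_lit 3120) (.e (nat_lit 1181) (nat_lit 87) (.e (nat_lit 57478) (nat_lit 28) (.e (nat_lit 557109) (nat_lit 15) (.e (nat_lit 188458) (nat_lit 25) (.e (nat_lit 245784) (nat_lit 9) .nil))))) .nil))) (.nd (nat_lit 5) 
(.lf (nat_lit 19539) (.g (nat_lit 2783) (.e (nat_lit 1181) (nat_lit 87) (.e (nat_lit 57478) (nat_lit 28) (.e (nat_lit 557109) (nat_lit 15) (.e (nat_lit 188452) (nat_lit 23) (.e (nat_lit 204863) (nat_lit 27) (.e (nat_lit 344099) (nat_lit 18) (.e (nat_lit 5907) (nat_lit 320) .nil))))))) (.g (nat_lit 4) .nil .nil))) 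
(.lf (nat_lit 19571) (.g (nat_lit 4148) (.e (nat_lit 1181) (nat_lit 87) (.e (nat_lit 57479) (nat_lit 28) (.e (nat_lit 557095) (nat_lit 13) (.e (nat_lit 172097) (nat_lit 9) (.e (nat_lit 426125) (nat_lit 2) (.e (nat_lit 196666) (nat_lit 13) (.e (nat_lit 65565) (nat_lit 1) (.e (nat_lit 57873) (nat_lit 264) .nil)))))))) (.g (nat_lit 6) .nil .nil))))) (.nd (nat_lit 4) (.nd (nat_lit 5) 
(.lf (nat_lit 19531) (.g (nat_lit 3704) (.e (nat_lit 1181) (nat_lit 87) (.e (nat_lit 57478) (nat_lit 28) (.e (nat_lit 557109) (nat_lit 15) (.e (nat_lit 188452) (nat_lit 23) (.e (nat_lit 212736) (nat_lit 26) (.e (nat_lit 335995) (nat_lit 1) (.e (nat_lit 57872) (nat_lit 264) .nil))))))) (.g (nat_lit 4) .nil .nil))) 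
(.lf (nat_lit 19563) (.g (nat_lit 2374) (.e (nat_lit 1181) (nat_lit 87) (.e (nat_lit 57479) (nat_lit 28) (.e (nat_lit 557095) (nat_lit 13) (.e (nat_lit 172097) (nat_lit 9) (.e (nat_lit 426125) (nat_lit 2) .nil))))) .nil))) (.nd (nat_lit 5) 
(.lf (nat_lit 19547) (.g (nat_lit 4657) (.e (nat_lit 1181) (nat_lit 87) (.e (nat_lit 57478) (nat_lit 28) (.e (nat_lit 557109) (nat_lit 15) (.e (nat_lit 188452) (nat_lit 23) (.e (nat_lit 204871) (nat_lit 30) .nil))))) .nil)) 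
(.lf (nat_lit 19579) (.g (nat_lit 3621) (.e (nat_lit 1181) (nat_lit 87) (.e (nat_lit 57479) (nat_lit 28) (.e (nat_lit 557095) (nat_lit 13) (.e (nat_lit 172097) (nat_lit 9) (.e (nat_lit 426140) (nat_lit 3) (.e (nat_lit 204862) (nat_lit 27) (.e (nat_lit 344097) (nat_lit 18) (.e (nat_lit 5906) (nat_lit 320) .nil)))))))) (.g (nat_lit 5) .nil .nil)))))) 
(.nd (nat_lit 3) (.nd (nat_lit 4) (.nd (nat_lit 5) 
(.lf (nat_lit 19527) (.g (nat_lit 5216) (.e (nat_lit 1181) (nat_lit 87) (.e (nat_lit 57478) (nat_lit 28) (.e (nat_lit 557109) (nat_lit 15) (.e (nat_lit 188452) (nat_lit 23) (.e (nat_lit 204860) (nat_lit 26) (.e (nat_lit 335995) (nat_lit 1) (.e (nat_lit 57872) (nat_lit 264) .nil))))))) (.g (nat_lit 4) .nil .nil))) 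
(.lf (nat_lit 19559) (.g (nat_lit 4290) (.e (nat_lit 1181) (nat_lit 87) (.e (nat_lit 57478) (nat_lit 28) (.e (nat_lit 557109) (nat_lit 15) (.e (nat_lit 188458) (nat_lit 25) (.e (nat_lit 245784) (nat_lit 9) (.e (nat_lit 1524) (nat_lit 108) (.e (nat_lit 335995) (nat_lit 1) (.e (nat_lit 57872) (nat_lit 264) .nil)))))))) (.g (nat_lit 5) .nil .nil)))) (.nd (nat_lit 5) 
(.lf (nat_lit 19543) (.g (nat_lit 4546) (.e (nat_lit 1181) (nat_lit 87) (.e (nat_lit 57478) (nat_lit 28) (.e (nat_lit 557109) (nat_lit 15) (.e (nat_lit 188452) (nat_lit 23) (.e (nat_lit 204864) (nat_lit 27) (.e (nat_lit 344097) (nat_lit 18) (.e (nat_lit 5906) (nat_lit 320) .nil))))))) (.g (nat_lit 6) .nil .nil))) 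
(.lf (nat_lit 19575) (.g (nat_lit 2961) (.e (nat_lit 1181) (nat_lit 87) (.e (nat_lit 57479) (nat_lit 28) (.e (nat_lit 557095) (nat_lit 13) (.e (nat_lit 172097) (nat_lit 9) (.e (nat_lit 426140) (nat_lit 3) (.e (nat_lit 204855) (nat_lit 26) (.e (nat_lit 335985) (nat_lit 1) (.e (nat_lit 57870) (nat_lit 264) .nil)))))))) (.g (nat_lit 4) .nil .nil))))) (.nd (nat_lit 4) (.nd (nat_lit 5) 
(.lf (nat_lit 19535) (.g (nat_lit 3035) (.e (nat_lit 1181) (nat_lit 87) (.e (nat_lit 57478) (nat_lit 28) (.e (nat_lit 557109) (nat_lit 15) (.e (nat_lit 188452) (nat_lit 23) (.e (nat_lit 204863) (nat_lit 27) (.e (nat_lit 344096) (nat_lit 18) (.e (nat_lit 5896) (nat_lit 320) .nil))))))) (.g (nat_lit 4) .nil .nil))) 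
(.lf (nat_lit 19567) (.g (nat_lit 4200) (.e (nat_lit 1181) (nat_lit 87) (.e (nat_lit 57479) (nat_lit 28) (.e (nat_lit 557095) (nat_lit 13) (.e (nat_lit 172097) (nat_lit 9) (.e (nat_lit 426125) (nat_lit 2) (.e (nat_lit 196666) (nat_lit 13) (.e (nat_lit 65563) (nat_lit 1) (.e (nat_lit 57873) (nat_lit 264) .nil)))))))) (.g (nat_lit 6) .nil .nil)))) (.nd (nat_lit 5) 
(.lf (nat_lit 19551) (.g (nat_lit 3325) (.e (nat_lit 1181) (nat_lit 87) (.e (nat_lit 57478) (nat_lit 28) (.e (nat_lit 557109) (nat_lit 15) (.e (nat_lit 188452) (nat_lit 23) (.e (nat_lit 204874) (nat_lit 30) .nil))))) .nil)) 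
(.lf (nat_lit 19583) (.g (nat_lit 4293) (.e (nat_lit 1181) (nat_lit 87) (.e (nat_lit 57479) (nat_lit 28) (.e (nat_lit 557095) (nat_lit 13) (.e (nat_lit 172097) (nat_lit 9) (.e (nat_lit 426140) (nat_lit 3) (.e (nat_lit 204863) (nat_lit 27) (.e (nat_lit 344097) (nat_lit 18) (.e (nat_lit 5907) (nat_lit 320) .nil)))))))) (.g (nat_lit 6) .nil .nil)))))))))

noncomputable def tv271 : DT := (.nd (nat_lit 0) (.nd (nat_lit 1) (.nd (nat_lit 2) (.nd (nat_lit 3) (.nd (nat_lit 4) (.nd (nat_lit 5) 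
(.lf (nat_lit 19584) (.g (nat_lit 1885) (.e (nat_lit 1181) (nat_lit 87) (.e (nat_lit 57479) (nat_lit 28) (.e (nat_lit 557095) (nat_lit 13) (.e (nat_lit 172106) (nat_lit 10) .nil)))) .nil)) 
(.lf (nat_lit 19616) (.g (nat_lit 4072) (.e (nat_lit 1181) (nat_lit 87) (.e (nat_lit 57479) (nat_lit 28) (.e (nat_lit 557095) (nat_lit 13) (.e (nat_lit 172115) (nat_lit 10) (.e (nat_lit 434231) (nat_lit 23) (.e (nat_lit 532555) (nat_lit 13) (.e (nat_lit 368662) (nat_lit 18) (.e (nat_lit 5907) (nat_lit 320) .nil)))))))) (.g (nat_lit 6) .nil .nil)))) (.nd (nat_lit 5) 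
(.lf (nat_lit 19600) (.g (nat_lit 2739) (.e (nat_lit 1181) (nat_lit 87) (.e (nat_lit 57479) (nat_lit 28) (.e (nat_lit 557095) (nat_lit 13) (.e (nat_lit 172115) (nat_lit 10) (.e (nat_lit 434231) (nat_lit 23) (.e (nat_lit 532537) (nat_lit 9) (.e (nat_lit 335997) (nat_lit 1) (.e (nat_lit 57870) (nat_lit 264) .nil)))))))) (.g (nat_lit 4) .nil .nil))) 
(.lf (nat_lit 19632) (.g (nat_lit 4983) (.e (nat_lit 1181) (nat_lit 87) (.e (nat_lit 57479) (nat_lit 28) (.e (nat_lit 557100) (nat_lit 13) (.e (nat_lit 172106) (nat_lit 10) (.e (nat_lit 434231) (nat_lit 23) (.e (nat_lit 532535) (nat_lit 9) (.e (nat_lit 335992) (nat_lit 1) (.e (nat_lit 57870) (nat_lit 264) .nil)))))))) (.g (nat_lit 6) .nil .nil))))) (.nd (nat_lit 4) (.nd (nat_lit 5) 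
(.lf (nat_lit 19592) (.g (nat_lit 4624) (.e (nat_lit 1181) (nat_lit 87) (.e (nat_lit 57479) (nat_lit 28) (.e (nat_lit 557095) (nat_lit 13) (.e (nat_lit 172115) (nat_lit 10) (.e (nat_lit 434231) (nat_lit 23) (.e (nat_lit 532535) (nat_lit 9) (.e (nat_lit 335925) (nat_lit 0) (.e (nat_lit 1023) (nat_lit 81) (.e (nat_lit 5906) (nat_lit 320) .nil))))))))) (.g (nat_lit 6) .nil .nil))) 
(.lf (nat_lit 19624) (.g (nat_lit 3681) (.e (nat_lit 1181) (nat_lit 87) (.e (nat_lit 57479) (nat_lit 28) (.e (nat_lit 557100) (nat_lit 13) (.e (nat_lit 172106) (nat_lit 10) (.e (nat_lit 434231) (nat_lit 23) (.e (nat_lit 532529) (nat_lit 9) (.e (nat_lit 343808) (nat_lit 1) (.e (nat_lit 57872) (nat_lit 264) .nil)))))))) (.g (nat_lit 5) .nil .nil)))) (.nd (nat_lit 5) 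
(.lf (nat_lit 19608) (.g (nat_lit 5467) (.e (nat_lit 1181) (nat_lit 87) (.e (nat_lit 57479) (nat_lit 28) (.e (nat_lit 557095) (nat_lit 13) (.e (nat_lit 172115) (nat_lit 10) (.e (nat_lit 434231) (nat_lit 23) (.e (nat_lit 532544) (nat_lit 10) (.e (nat_lit 344097) (nat_lit 18) (.e (nat_lit 5907) (nat_lit 320) .nil)))))))) (.g (nat_lit 8) .nil .nil))) 
(.lf (nat_lit 19640) (.g (nat_lit 3603) (.e (nat_lit 1181) (nat_lit 87) (.e (nat_lit 57479) (nat_lit 28) (.e (nat_lit 557100) (nat_lit 13) (.e (nat_lit 172106) (nat_lit 10) (.e (nat_lit 434231) (nat_lit 23) (.e (nat_lit 532543) (nat_lit 10) (.e (nat_lit 344090) (nat_lit 18) (.e (nat_lit 5896) (nat_lit 320) .nil)))))))) (.g (nat_lit 5) .nil .nil)))))) 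
(.nd (nat_lit 3) (.nd (nat_lit 4) (.nd (nat_lit 5) 
(.lf (nat_lit 19588) (.g (nat_lit 4039) (.e (nat_lit 1181) (nat_lit 87) (.e (nat_lit 57479) (nat_lit 28) (.e (nat_lit 557095) (nat_lit 13) (.e (nat_lit 172115) (nat_lit 10) (.e (nat_lit 434231) (nat_lit 23) (.e (nat_lit 532527) (nat_lit 9) (.e (nat_lit 335997) (nat_lit 1) (.e (nat_lit 57871) (nat_lit 264) .nil)))))))) (.g (nat_lit 6) .nil .nil))) 
(.lf (nat_lit 19620) (.g (nat_lit 4531) (.e (nat_lit 1181) (nat_lit 87) (.e (nat_lit 57479) (nat_lit 28) (.e (nat_lit 557100) (nat_lit 13) (.e (nat_lit 172106) (nat_lit 10) (.e (nat_lit 434231) (nat_lit 23) (.e (nat_lit 532527) (nat_lit 9) (.e (nat_lit 335997) (nat_lit 1) (.e (nat_lit 57871) (nat_lit 264) .nil)))))))) (.g (nat_lit 7) .nil .nil)))) (.nd (nat_lit 5) 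
(.lf (nat_lit 19604) (.g (nat_lit 5174) (.e (nat_lit 1181) (nat_lit 87) (.e (nat_lit 57479) (nat_lit 28) (.e (nat_lit 557095) (nat_lit 13) (.e (nat_lit 172115) (nat_lit 10) (.e (nat_lit 434231) (nat_lit 23) (.e (nat_lit 532543) (nat_lit 10) (.e (nat_lit 344097) (nat_lit 18) (.e (nat_lit 5907) (nat_lit 320) .nil)))))))) (.g (nat_lit 8) .nil .nil))) 
(.lf (nat_lit 19636) (.g (nat_lit 2610) (.e (nat_lit 1181) (nat_lit 87) (.e (nat_lit 57479) (nat_lit 28) (.e (nat_lit 557100) (nat_lit 13) (.e (nat_lit 172106) (nat_lit 10) (.e (nat_lit 434231) (nat_lit 23) (.e (nat_lit 532535) (nat_lit 9) (.e (nat_lit 343808) (nat_lit 1) (.e (nat_lit 57872) (nat_lit 264) .nil)))))))) (.g (nat_lit 4) .nil .nil))))) (.nd (nat_lit 4) (.nd (nat_lit 5) 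
(.lf (nat_lit 19596) (.g (nat_lit 5542) (.e (nat_lit 1181) (nat_lit 87) (.e (nat_lit 57479) (nat_lit 28) (.e (nat_lit 557095) (nat_lit 13) (.e (nat_lit 172115) (nat_lit 10) (.e (nat_lit 434231) (nat_lit 23) (.e (nat_lit 532535) (nat_lit 9) (.e (nat_lit 335992) (nat_lit 1) (.e (nat_lit 57870) (nat_lit 264) .nil)))))))) (.g (nat_lit 7) .nil .nil))) 
(.lf (nat_lit 19628) (.g (nat_lit 3689) (.e (nat_lit 1181) (nat_lit 87) (.e (nat_lit 57479) (nat_lit 28) (.e (nat_lit 557100) (nat_lit 13) (.e (nat_lit 172106) (nat_lit 10) (.e (nat_lit 434231) (nat_lit 23) (.e (nat_lit 532535) (nat_lit 9) (.e (nat_lit 335925) (nat_lit 0) (.e (nat_lit 1023) (nat_lit 81) (.e (nat_lit 5907) (nat_lit 320) .nil))))))))) (.g (nat_lit 5) .nil .nil)))) (.nd (nat_lit 5) 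
(.lf (nat_lit 19612) (.g (nat_lit 4465) (.e (nat_lit 1181) (nat_lit 87) (.e (nat_lit 57479) (nat_lit 28) (.e (nat_lit 557095) (nat_lit 13) (.e (nat_lit 172115) (nat_lit 10) (.e (nat_lit 434231) (nat_lit 23) (.e (nat_lit 532553) (nat_lit 13) (.e (nat_lit 368662) (nat_lit 18) (.e (nat_lit 5907) (nat_lit 320) .nil)))))))) (.g (nat_lit 6) .nil .nil))) 
(.lf (nat_lit 19644) (.g (nat_lit 3139) (.e (nat_lit 1181) (nat_lit 87) (.e (nat_lit 57479) (nat_lit 28) (.e (nat_lit 557100) (nat_lit 13) (.e (nat_lit 172106) (nat_lit 10) (.e (nat_lit 434231) (nat_lit 23) (.e (nat_lit 532543) (nat_lit 10) (.e (nat_lit 344100) (nat_lit 18) (.e (nat_lit 5907) (nat_lit 320) .nil)))))))) (.g (nat_lit 5) .nil .nil))))))) 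
(.nd (nat_lit 2) (.nd (nat_lit 3) (.nd (nat_lit 4) (.nd (nat_lit 5) 
(.lf (nat_lit 19586) (.g (nat_lit 4531) (.e (nat_lit 1181) (nat_lit 87) (.e (nat_lit 57479) (nat_lit 28) (.e (nat_lit 557095) (nat_lit 13) (.e (nat_lit 172115) (nat_lit 10) (.e (nat_lit 434231) (nat_lit 23) (.e (nat_lit 532481) (nat_lit 0) (.e (nat_lit 6481) (nat_lit 343) (.e (nat_lit 1181) (nat_lit 87) (.e (nat_lit 57872) (nat_lit 264) .nil))))))))) (.g (nat_lit 6) .nil .nil))) 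
(.lf (nat_lit 19618) (.g (nat_lit 3863) (.e (nat_lit 1181) (nat_lit 87) (.e (nat_lit 57479) (nat_lit 28) (.e (nat_lit 557095) (nat_lit 13) (.e (nat_lit 172115) (nat_lit 10) (.e (nat_lit 434244) (nat_lit 28) (.e (nat_lit 573450) (nat_lit 9) (.e (nat_lit 452) (nat_lit 33) (.e (nat_lit 434202) (nat_lit 18) (.e (nat_lit 4598) (nat_lit 269) .nil))))))))) (.g (nat_lit 5) .nil .nil)))) (.nd (nat_lit 5) 
(.lf (nat_lit 19602) (.g (nat_lit 3793) (.e (nat_lit 1181) (nat_lit 87) (.e (nat_lit 57479) (nat_lit 28) (.e (nat_lit 557095) (nat_lit 13) (.e (nat_lit 172115) (nat_lit 10) (.e (nat_lit 434231) (nat_lit 23) (.e (nat_lit 532543) (nat_lit 10) (.e (nat_lit 344097) (nat_lit 18) (.e (nat_lit 5905) (nat_lit 320) .nil)))))))) (.g (nat_lit 5) .nil .nil))) 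
(.lf (nat_lit 19634) (.g (nat_lit 3956) (.e (nat_lit 1181) (nat_lit 87) (.e (nat_lit 57479) (nat_lit 28) (.e (nat_lit 557100) (nat_lit 13) (.e (nat_lit 172106) (nat_lit 10) (.e (nat_lit 434231) (nat_lit 23) (.e (nat_lit 532535) (nat_lit 9) (.e (nat_lit 335992) (nat_lit 1) (.e (nat_lit 57872) (nat_lit 264) .nil)))))))) (.g (nat_lit 5) .nil .nil))))) (.nd (nat_lit 4) (.nd (nat_lit 5) 
(.lf (nat_lit 19594) (.g (nat_lit 3998) (.e (nat_lit 1181) (nat_lit 87) (.e (nat_lit 57479) (nat_lit 28) (.e (nat_lit 557095) (nat_lit 13) (.e (nat_lit 172115) (nat_lit 10) (.e (nat_lit 434231) (nat_lit 23) (.e (nat_lit 532535) (nat_lit 9) (.e (nat_lit 335985) (nat_lit 1) (.e (nat_lit 57871) (nat_lit 264) .nil)))))))) (.g (nat_lit 6) .nil .nil))) 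
(.lf (nat_lit 19626) (.g (nat_lit 2658) (.e (nat_lit 1181) (nat_lit 87) (.e (nat_lit 57479) (nat_lit 28) (.e (nat_lit 557100) (nat_lit 13) (.e (nat_lit 172106) (nat_lit 10) (.e (nat_lit 434231) (nat_lit 23) (.e (nat_lit 532535) (nat_lit 9) (.e (nat_lit 335924) (nat_lit 0) (.e (nat_lit 1023) (nat_lit 81) (.e (nat_lit 5906) (nat_lit 320) .nil))))))))) (.g (nat_lit 4) .nil .nil)))) (.nd (nat_lit 5) 
(.lf (nat_lit 19610) (.g (nat_lit 2752) (.e (nat_lit 1181) (nat_lit 87) (.e (nat_lit 57479) (nat_lit 28) (.e (nat_lit 557095) (nat_lit 13) (.e (nat_lit 172115) (nat_lit 10) (.e (nat_lit 434231) (nat_lit 23) (.e (nat_lit 532545) (nat_lit 10) (.e (nat_lit 344097) (nat_lit 18) (.e (nat_lit 5906) (nat_lit 320) .nil)))))))) (.g (nat_lit 4) .nil .nil))) 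
(.lf (nat_lit 19642) (.g (nat_lit 4591) (.e (nat_lit 1181) (nat_lit 87) (.e (nat_lit 57479) (nat_lit 28) (.e (nat_lit 557100) (nat_lit 13) (.e (nat_lit 172106) (nat_lit 10) (.e (nat_lit 434231) (nat_lit 23) (.e (nat_lit 532543) (nat_lit 10) (.e (nat_lit 344097) (nat_lit 18) (.e (nat_lit 5905) (nat_lit 320) .nil)))))))) (.g (nat_lit 7) .nil .nil)))))) 
(.nd (nat_lit 3) (.nd (nat_lit 4) (.nd (nat_lit 5) 
(.lf (nat_lit 19590) (.g (nat_lit 3092) (.e (nat_lit 1181) (nat_lit 87) (.e (nat_lit 57479) (nat_lit 28) (.e (nat_lit 557095) (nat_lit 13) (.e (nat_lit 172115) (nat_lit 10) (.e (nat_lit 434231) (nat_lit 23) (.e (nat_lit 532529) (nat_lit 9) (.e (nat_lit 343808) (nat_lit 1) (.e (nat_lit 57872) (nat_lit 264) .nil)))))))) (.g (nat_lit 5) .nil .nil))) 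
(.lf (nat_lit 19622) (.g (nat_lit 3422) (.e (nat_lit 1181) (nat_lit 87) (.e (nat_lit 57479) (nat_lit 28) (.e (nat_lit 557100) (nat_lit 13) (.e (nat_lit 172106) (nat_lit 10) (.e (nat_lit 434231) (nat_lit 23) (.e (nat_lit 532529) (nat_lit 9) (.e (nat_lit 335971) (nat_lit 0) (.e (nat_lit 1023) (nat_lit 81) (.e (nat_lit 5906) (nat_lit 320) .nil))))))))) (.g (nat_lit 5) .nil .nil)))) (.nd (nat_lit 5) 
(.lf (nat_lit 19606) (.g (nat_lit 4030) (.e (nat_lit 1181) (nat_lit 87) (.e (nat_lit 57479) (nat_lit 28) (.e (nat_lit 557095) (nat_lit 13) (.e (nat_lit 172115) (nat_lit 10) (.e (nat_lit 434231) (nat_lit 23) (.e (nat_lit 532544) (nat_lit 10) (.e (nat_lit 344097) (nat_lit 18) (.e (nat_lit 5905) (nat_lit 320) .nil)))))))) (.g (nat_lit 6) .nil .nil))) 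
(.lf (nat_lit 19638) (.g (nat_lit 2464) (.e (nat_lit 1181) (nat_lit 87) (.e (nat_lit 57479) (nat_lit 28) (.e (nat_lit 557100) (nat_lit 13) (.e (nat_lit 172106) (nat_lit 10) (.e (nat_lit 434231) (nat_lit 23) (.e (nat_lit 532536) (nat_lit 9) (.e (nat_lit 335997) (nat_lit 1) (.e (nat_lit 57870) (nat_lit 264) .nil)))))))) (.g (nat_lit 4) .nil .nil))))) (.nd (nat_lit 4) (.nd (nat_lit 5) 
(.lf (nat_lit 19598) (.g (nat_lit 3303) (.e (nat_lit 1181) (nat_lit 87) (.e (nat_lit 57479) (nat_lit 28) (.e (nat_lit 557095) (nat_lit 13) (.e (nat_lit 172115) (nat_lit 10) (.e (nat_lit 434231) (nat_lit 23) (.e (nat_lit 532536) (nat_lit 9) (.e (nat_lit 335997) (nat_lit 1) (.e (nat_lit 57870) (nat_lit 264) .nil)))))))) (.g (nat_lit 5) .nil .nil))) 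
(.lf (nat_lit 19630) (.g (nat_lit 2292) (.e (nat_lit 1181) (nat_lit 87) (.e (nat_lit 57479) (nat_lit 28) (.e (nat_lit 557100) (nat_lit 13) (.e (nat_lit 172106) (nat_lit 10) (.e (nat_lit 434231) (nat_lit 23) (.e (nat_lit 532535) (nat_lit 9) (.e (nat_lit 335989) (nat_lit 1) (.e (nat_lit 57872) (nat_lit 264) .nil)))))))) (.g (nat_lit 4) .nil .nil)))) (.nd (nat_lit 5) 
(.lf (nat_lit 19614) (.g (nat_lit 5379) (.e (nat_lit 1181) (nat_lit 87) (.e (nat_lit 57479) (nat_lit 28) (.e (nat_lit 557095) (nat_lit 13) (.e (nat_lit 172115) (nat_lit 10) (.e (nat_lit 434231) (nat_lit 23) (.e (nat_lit 532554) (nat_lit 13) (.e (nat_lit 368662) (nat_lit 18) (.e (nat_lit 5907) (nat_lit 320) .nil)))))))) (.g (nat_lit 8) .nil .nil))) 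
(.lf (nat_lit 19646) (.g (nat_lit 2347) (.e (nat_lit 1181) (nat_lit 87) (.e (nat_lit 57479) (nat_lit 28) (.e (nat_lit 557100) (nat_lit 13) (.e (nat_lit 172106) (nat_lit 10) (.e (nat_lit 434231) (nat_lit 23) (.e (nat_lit 532544) (nat_lit 10) (.e (nat_lit 344097) (nat_lit 18) (.e (nat_lit 5902) (nat_lit 320) .nil)))))))) (.g (nat_lit 4) .nil .nil)))))))) 
(.nd (nat_lit 1) (.nd (nat_lit 2) (.nd (nat_lit 3) (.nd (nat_lit 4) (.nd (nat_lit 5) 
(.lf (nat_lit 19585) (.g (nat_lit 1666) (.e (nat_lit 1181) (nat_lit 87) (.e (nat_lit 57479) (nat_lit 28) (.e (nat_lit 557095) (nat_lit 13) (.e (nat_lit 172115) (nat_lit 10) .nil)))) .nil)) 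
(.lf (nat_lit 19617) (.g (nat_lit 3225) (.e (nat_lit 1181) (nat_lit 87) (.e (nat_lit 57479) (nat_lit 28) (.e (nat_lit 557095) (nat_lit 13) (.e (nat_lit 172115) (nat_lit 10) (.e (nat_lit 434244) (nat_lit 28) (.e (nat_lit 573450) (nat_lit 9) (.e (nat_lit 375) (nat_lit 32) (.e (nat_lit 426109) (nat_lit 1) (.e (nat_lit 164423) (nat_lit 272) .nil))))))))) (.g (nat_lit 4) .nil .nil)))) (.nd (nat_lit 5) 
(.lf (nat_lit 19601) (.g (nat_lit 3617) (.e (nat_lit 1181) (nat_lit 87) (.e (nat_lit 57479) (nat_lit 28) (.e (nat_lit 557095) (nat_lit 13) (.e (nat_lit 172115) (nat_lit 10) (.e (nat_lit 434231) (nat_lit 23) (.e (nat_lit 532543) (nat_lit 10) (.e (nat_lit 344090) (nat_lit 18) (.e (nat_lit 5896) (nat_lit 320) .nil)))))))) (.g (nat_lit 5) .nil .nil))) 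
(.lf (nat_lit 19633) (.g (nat_lit 2538) (.e (nat_lit 1181) (nat_lit 87) (.e (nat_lit 57479) (nat_lit 28) (.e (nat_lit 557100) (nat_lit 13) (.e (nat_lit 172106) (nat_lit 10) (.e (nat_lit 434231) (nat_lit 23) (.e (nat_lit 532535) (nat_lit 9) (.e (nat_lit 335992) (nat_lit 1) (.e (nat_lit 57871) (nat_lit 264) .nil)))))))) (.g (nat_lit 4) .nil .nil))))) (.nd (nat_lit 4) (.nd (nat_lit 5) 
(.lf (nat_lit 19593) (.g (nat_lit 4529) (.e (nat_lit 1181) (nat_lit 87) (.e (nat_lit 57479) (nat_lit 28) (.e (nat_lit 557095) (nat_lit 13) (.e (nat_lit 172115) (nat_lit 10) (.e (nat_lit 434231) (nat_lit 23) (.e (nat_lit 532535) (nat_lit 9) (.e (nat_lit 335985) (nat_lit 1) (.e (nat_lit 57870) (nat_lit 264) .nil)))))))) (.g (nat_lit 7) .nil .nil))) 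
(.lf (nat_lit 19625) (.g (nat_lit 4398) (.e (nat_lit 1181) (nat_lit 87) (.e (nat_lit 57479) (nat_lit 28) (.e (nat_lit 557100) (nat_lit 13) (.e (nat_lit 172106) (nat_lit 10) (.e (nat_lit 434231) (nat_lit 23) (.e (nat_lit 532529) (nat_lit 9) (.e (nat_lit 343808) (nat_lit 1) (.e (nat_lit 57873) (nat_lit 264) .nil)))))))) (.g (nat_lit 6) .nil .nil)))) (.nd (nat_lit 5) 
(.lf (nat_lit 19609) (.g (nat_lit 2729) (.e (nat_lit 1181) (nat_lit 87) (.e (nat_lit 57479) (nat_lit 28) (.e (nat_lit 557095) (nat_lit 13) (.e (nat_lit 172115) (nat_lit 10) (.e (nat_lit 434231) (nat_lit 23) (.e (nat_lit 532544) (nat_lit 10) (.e (nat_lit 344099) (nat_lit 18) (.e (nat_lit 5907) (nat_lit 320) .nil)))))))) (.g (nat_lit 4) .nil .nil))) 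
(.lf (nat_lit 19641) (.g (nat_lit 2284) (.e (nat_lit 1181) (nat_lit 87) (.e (nat_lit 57479) (nat_lit 28) (.e (nat_lit 557100) (nat_lit 13) (.e (nat_lit 172106) (nat_lit 10) (.e (nat_lit 434231) (nat_lit 23) (.e (nat_lit 532543) (nat_lit 10) (.e (nat_lit 344097) (nat_lit 18) (.e (nat_lit 5902) (nat_lit 320) .nil)))))))) (.g (nat_lit 4) .nil .nil)))))) 
(.nd (nat_lit 3) (.nd (nat_lit 4) (.nd (nat_lit 5) 
(.lf (nat_lit 19589) (.g (nat_lit 4665) (.e (nat_lit 1181) (nat_lit 87) (.e (nat_lit 57479) (nat_lit 28) (.e (nat_lit 557095) (nat_lit 13) (.e (nat_lit 172115) (nat_lit 10) (.e (nat_lit 434231) (nat_lit 23) (.e (nat_lit 532527) (nat_lit 9) (.e (nat_lit 335997) (nat_lit 1) (.e (nat_lit 57872) (nat_lit 264) .nil)))))))) (.g (nat_lit 8) .nil .nil))) 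
(.lf (nat_lit 19621) (.g (nat_lit 2701) (.e (nat_lit 1181) (nat_lit 87) (.e (nat_lit 57479) (nat_lit 28) (.e (nat_lit 557100) (nat_lit 13) (.e (nat_lit 172106) (nat_lit 10) (.e (nat_lit 434231) (nat_lit 23) (.e (nat_lit 532527) (nat_lit 9) (.e (nat_lit 335997) (nat_lit 1) (.e (nat_lit 57873) (nat_lit 264) .nil)))))))) (.g (nat_lit 4) .nil .nil)))) (.nd (nat_lit 5) 
(.lf (nat_lit 19605) (.g (nat_lit 3665) (.e (nat_lit 1181) (nat_lit 87) (.e (nat_lit 57479) (nat_lit 28) (.e (nat_lit 557095) (nat_lit 13) (.e (nat_lit 172115) (nat_lit 10) (.e (nat_lit 434231) (nat_lit 23) (.e (nat_lit 532544) (nat_lit 10) (.e (nat_lit 344090) (nat_lit 18) (.e (nat_lit 5896) (nat_lit 320) .nil)))))))) (.g (nat_lit 5) .nil .nil))) 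
(.lf (nat_lit 19637) (.g (nat_lit 3362) (.e (nat_lit 1181) (nat_lit 87) (.e (nat_lit 57479) (nat_lit 28) (.e (nat_lit 557100) (nat_lit 13) (.e (nat_lit 172106) (nat_lit 10) (.e (nat_lit 434231) (nat_lit 23) (.e (nat_lit 532535) (nat_lit 9) (.e (nat_lit 343808) (nat_lit 1) (.e (nat_lit 57873) (nat_lit 264) .nil)))))))) (.g (nat_lit 5) .nil .nil))))) (.nd (nat_lit 4) (.nd (nat_lit 5) 
(.lf (nat_lit 19597) (.g (nat_lit 4947) (.e (nat_lit 1181) (nat_lit 87) (.e (nat_lit 57479) (nat_lit 28) (.e (nat_lit 557095) (nat_lit 13) (.e (nat_lit 172115) (nat_lit 10) (.e (nat_lit 434231) (nat_lit 23) (.e (nat_lit 532535) (nat_lit 9) (.e (nat_lit 335992) (nat_lit 1) (.e (nat_lit 57873) (nat_lit 264) .nil)))))))) (.g (nat_lit 6) .nil .nil))) 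
(.lf (nat_lit 19629) (.g (nat_lit 4452) (.e (nat_lit 1181) (nat_lit 87) (.e (nat_lit 57479) (nat_lit 28) (.e (nat_lit 557100) (nat_lit 13) (.e (nat_lit 172106) (nat_lit 10) (.e (nat_lit 434231) (nat_lit 23) (.e (nat_lit 532535) (nat_lit 9) (.e (nat_lit 335985) (nat_lit 1) (.e (nat_lit 57871) (nat_lit 264) .nil)))))))) (.g (nat_lit 6) .nil .nil)))) (.nd (nat_lit 5) 
(.lf (nat_lit 19613) (.g (nat_lit 5102) (.e (nat_lit 1181) (nat_lit 87) (.e (nat_lit 57479) (nat_lit 28) (.e (nat_lit 557095) (nat_lit 13) (.e (nat_lit 172115) (nat_lit 10) (.e (nat_lit 434231) (nat_lit 23) (.e (nat_lit 532554) (nat_lit 13) (.e (nat_lit 368662) (nat_lit 18) (.e (nat_lit 5906) (nat_lit 320) .nil)))))))) (.g (nat_lit 7) .nil .nil))) 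
(.lf (nat_lit 19645) (.g (nat_lit 3337) (.e (nat_lit 1181) (nat_lit 87) (.e (nat_lit 57479) (nat_lit 28) (.e (nat_lit 557100) (nat_lit 13) (.e (nat_lit 172106) (nat_lit 10) (.e (nat_lit 434231) (nat_lit 23) (.e (nat_lit 532544) (nat_lit 10) (.e (nat_lit 344090) (nat_lit 18) (.e (nat_lit 5896) (nat_lit 320) .nil)))))))) (.g (nat_lit 5) .nil .nil))))))) 
(.nd (nat_lit 2) (.nd (nat_lit 3) (.nd (nat_lit 4) (.nd (nat_lit 5) 
(.lf (nat_lit 19587) (.g (nat_lit 4527) (.e (nat_lit 1181) (nat_lit 87) (.e (nat_lit 57479) (nat_lit 28) (.e (nat_lit 557095) (nat_lit 13) (.e (nat_lit 172115) (nat_lit 10) (.e (nat_lit 434231) (nat_lit 23) (.e (nat_lit 532527) (nat_lit 9) (.e (nat_lit 335997) (nat_lit 1) (.e (nat_lit 57870) (nat_lit 264) .nil)))))))) (.g (nat_lit 7) .nil .nil))) 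
(.lf (nat_lit 19619) (.g (nat_lit 1767) (.e (nat_lit 1181) (nat_lit 87) (.e (nat_lit 57479) (nat_lit 28) (.e (nat_lit 557100) (nat_lit 13) (.e (nat_lit 172106) (nat_lit 10) (.e (nat_lit 434231) (nat_lit 23) .nil))))) .nil))) (.nd (nat_lit 5) 
(.lf (nat_lit 19603) (.g (nat_lit 4632) (.e (nat_lit 1181) (nat_lit 87) (.e (nat_lit 57479) (nat_lit 28) (.e (nat_lit 557095) (nat_lit 13) (.e (nat_lit 172115) (nat_lit 10) (.e (nat_lit 434231) (nat_lit 23) (.e (nat_lit 532543) (nat_lit 10) (.e (nat_lit 344097) (nat_lit 18) (.e (nat_lit 5906) (nat_lit 320) .nil)))))))) (.g (nat_lit 7) .nil .nil))) 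
(.lf (nat_lit 19635) (.g (nat_lit 4283) (.e (nat_lit 1181) (nat_lit 87) (.e (nat_lit 57479) (nat_lit 28) (.e (nat_lit 557100) (nat_lit 13) (.e (nat_lit 172106) (nat_lit 10) (.e (nat_lit 434231) (nat_lit 23) (.e (nat_lit 532535) (nat_lit 9) (.e (nat_lit 335992) (nat_lit 1) (.e (nat_lit 57873) (nat_lit 264) .nil)))))))) (.g (nat_lit 6) .nil .nil))))) (.nd (nat_lit 4) (.nd (nat_lit 5) 
(.lf (nat_lit 19595) (.g (nat_lit 4591) (.e (nat_lit 1181) (nat_lit 87) (.e (nat_lit 57479) (nat_lit 28) (.e (nat_lit 557095) (nat_lit 13) (.e (nat_lit 172115) (nat_lit 10) (.e (nat_lit 434231) (nat_lit 23) (.e (nat_lit 532535) (nat_lit 9) (.e (nat_lit 335985) (nat_lit 1) (.e (nat_lit 57872) (nat_lit 264) .nil)))))))) (.g (nat_lit 7) .nil .nil))) 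
(.lf (nat_lit 19627) (.g (nat_lit 4001) (.e (nat_lit 1181) (nat_lit 87) (.e (nat_lit 57479) (nat_lit 28) (.e (nat_lit 557100) (nat_lit 13) (.e (nat_lit 172106) (nat_lit 10) (.e (nat_lit 434231) (nat_lit 23) (.e (nat_lit 532535) (nat_lit 9) (.e (nat_lit 335925) (nat_lit 0) (.e (nat_lit 1023) (nat_lit 81) (.e (nat_lit 5906) (nat_lit 320) .nil))))))))) (.g (nat_lit 5) .nil .nil)))) (.nd (nat_lit 5) 
(.lf (nat_lit 19611) (.g (nat_lit 4024) (.e (nat_lit 1181) (nat_lit 87) (.e (nat_lit 57479) (nat_lit 28) (.e (nat_lit 557095) (nat_lit 13) (.e (nat_lit 172115) (nat_lit 10) (.e (nat_lit 434231) (nat_lit 23) (.e (nat_lit 532553) (nat_lit 13) (.e (nat_lit 368662) (nat_lit 18) (.e (nat_lit 5906) (nat_lit 320) .nil)))))))) (.g (nat_lit 6) .nil .nil))) 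
(.lf (nat_lit 19643) (.g (nat_lit 2506) (.e (nat_lit 1181) (nat_lit 87) (.e (nat_lit 57479) (nat_lit 28) (.e (nat_lit 557100) (nat_lit 13) (.e (nat_lit 172106) (nat_lit 10) (.e (nat_lit 434231) (nat_lit 23) (.e (nat_lit 532543) (nat_lit 10) (.e (nat_lit 344099) (nat_lit 18) (.e (nat_lit 5907) (nat_lit 320) .nil)))))))) (.g (nat_lit 4) .nil .nil)))))) 
(.nd (nat_lit 3) (.nd (nat_lit 4) (.nd (nat_lit 5) 
(.lf (nat_lit 19591) (.g (nat_lit 3614) (.e (nat_lit 1181) (nat_lit 87) (.e (nat_lit 57479) (nat_lit 28) (.e (nat_lit 557095) (nat_lit 13) (.e (nat_lit 172115) (nat_lit 10) (.e (nat_lit 434231) (nat_lit 23) (.e (nat_lit 532535) (nat_lit 9) (.e (nat_lit 335901) (nat_lit 0) (.e (nat_lit 1095) (nat_lit 81) (.e (nat_lit 5902) (nat_lit 320) .nil))))))))) (.g (nat_lit 5) .nil .nil))) 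
(.lf (nat_lit 19623) (.g (nat_lit 2708) (.e (nat_lit 1181) (nat_lit 87) (.e (nat_lit 57479) (nat_lit 28) (.e (nat_lit 557100) (nat_lit 13) (.e (nat_lit 172106) (nat_lit 10) (.e (nat_lit 434231) (nat_lit 23) (.e (nat_lit 532529) (nat_lit 9) (.e (nat_lit 336000) (nat_lit 1) (.e (nat_lit 57873) (nat_lit 264) .nil)))))))) (.g (nat_lit 4) .nil .nil)))) (.nd (nat_lit 5) 
(.lf (nat_lit 19607) (.g (nat_lit 4941) (.e (nat_lit 1181) (nat_lit 87) (.e (nat_lit 57479) (nat_lit 28) (.e (nat_lit 557095) (nat_lit 13) (.e (nat_lit 172115) (nat_lit 10) (.e (nat_lit 434231) (nat_lit 23) (.e (nat_lit 532544) (nat_lit 10) (.e (nat_lit 344097) (nat_lit 18) (.e (nat_lit 5906) (nat_lit 320) .nil)))))))) (.g (nat_lit 7) .nil .nil))) 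
(.lf (nat_lit 19639) (.g (nat_lit 2467) (.e (nat_lit 1181) (nat_lit 87) (.e (nat_lit 57479) (nat_lit 28) (.e (nat_lit 557100) (nat_lit 13) (.e (nat_lit 172106) (nat_lit 10) (.e (nat_lit 434231) (nat_lit 23) (.e (nat_lit 532536) (nat_lit 9) (.e (nat_lit 335997) (nat_lit 1) (.e (nat_lit 57872) (nat_lit 264) .nil)))))))) (.g (nat_lit 4) .nil .nil))))) (.nd (nat_lit 4) (.nd (nat_lit 5) 
(.lf (nat_lit 19599) (.g (nat_lit 3310) (.e (nat_lit 1181) (nat_lit 87) (.e (nat_lit 57479) (nat_lit 28) (.e (nat_lit 557095) (nat_lit 13) (.e (nat_lit 172115) (nat_lit 10) (.e (nat_lit 434231) (nat_lit 23) (.e (nat_lit 532536) (nat_lit 9) (.e (nat_lit 335997) (nat_lit 1) (.e (nat_lit 57872) (nat_lit 264) .nil)))))))) (.g (nat_lit 5) .nil .nil))) 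
(.lf (nat_lit 19631) (.g (nat_lit 2625) (.e (nat_lit 1181) (nat_lit 87) (.e (nat_lit 57479) (nat_lit 28) (.e (nat_lit 557100) (nat_lit 13) (.e (nat_lit 172106) (nat_lit 10) (.e (nat_lit 434231) (nat_lit 23) (.e (nat_lit 532535) (nat_lit 9) (.e (nat_lit 335991) (nat_lit 1) (.e (nat_lit 57873) (nat_lit 264) .nil)))))))) (.g (nat_lit 4) .nil .nil)))) (.nd (nat_lit 5) 
(.lf (nat_lit 19615) (.g (nat_lit 3637) (.e (nat_lit 1181) (nat_lit 87) (.e (nat_lit 57479) (nat_lit 28) (.e (nat_lit 557095) (nat_lit 13) (.e (nat_lit 172115) (nat_lit 10) (.e (nat_lit 434231) (nat_lit 23) (.e (nat_lit 532555) (nat_lit 13) (.e (nat_lit 368662) (nat_lit 18) (.e (nat_lit 5906) (nat_lit 320) .nil)))))))) (.g (nat_lit 5) .nil .nil))) 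
(.lf (nat_lit 19647) (.g (nat_lit 4953) (.e (nat_lit 1181) (nat_lit 87) (.e (nat_lit 57479) (nat_lit 28) (.e (nat_lit 557100) (nat_lit 13) (.e (nat_lit 172106) (nat_lit 10) (.e (nat_lit 434231) (nat_lit 23) (.e (nat_lit 532544) (nat_lit 10) (.e (nat_lit 344097) (nat_lit 18) (.e (nat_lit 5905) (nat_lit 320) .nil)))))))) (.g (nat_lit 6) .nil .nil)))))))))

noncomputable def tv272 : DT := (.nd (nat_lit 0) (.nd (nat_lit 1) (.nd (nat_lit 2) (.nd (nat_lit 3) (.nd (nat_lit 4) (.nd (nat_lit 5) 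
(.lf (nat_lit 19648) (.g (nat_lit 2348) (.e (nat_lit 1181) (nat_lit 87) (.e (nat_lit 57479) (nat_lit 28) (.e (nat_lit 557100) (nat_lit 13) (.e (nat_lit 172106) (nat_lit 10) (.e (nat_lit 434231) (nat_lit 23) (.e (nat_lit 532544) (nat_lit 10) (.e (nat_lit 344101) (nat_lit 18) (.e (nat_lit 5907) (nat_lit 320) .nil)))))))) (.g (nat_lit 4) .nil .nil))) 
(.lf (nat_lit 19680) (.g (nat_lit 4064) (.e (nat_lit 1181) (nat_lit 87) (.e (nat_lit 57479) (nat_lit 28) (.e (nat_lit 557101) (nat_lit 13) (.e (nat_lit 172097) (nat_lit 9) (.e (nat_lit 426140) (nat_lit 3) (.e (nat_lit 204855) (nat_lit 26) (.e (nat_lit 335985) (nat_lit 1) (.e (nat_lit 57871) (nat_lit 264) .nil)))))))) (.g (nat_lit 6) .nil .nil)))) (.nd (nat_lit 5) 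
(.lf (nat_lit 19664) (.g (nat_lit 2332) (.e (nat_lit 1181) (nat_lit 87) (.e (nat_lit 57479) (nat_lit 28) (.e (nat_lit 557101) (nat_lit 13) (.e (nat_lit 172097) (nat_lit 9) (.e (nat_lit 426125) (nat_lit 2) (.e (nat_lit 196666) (nat_lit 13) (.e (nat_lit 65536) (nat_lit 0) (.e (nat_lit 1023) (nat_lit 81) (.e (nat_lit 5906) (nat_lit 320) .nil))))))))) (.g (nat_lit 4) .nil .nil))) 
(.lf (nat_lit 19696) (.g (nat_lit 4485) (.e (nat_lit 1181) (nat_lit 87) (.e (nat_lit 57479) (nat_lit 28) (.e (nat_lit 557101) (nat_lit 13) (.e (nat_lit 172097) (nat_lit 9) (.e (nat_lit 426140) (nat_lit 3) (.e (nat_lit 204863) (nat_lit 27) (.e (nat_lit 344097) (nat_lit 18) (.e (nat_lit 5905) (nat_lit 320) .nil)))))))) (.g (nat_lit 7) .nil .nil))))) (.nd (nat_lit 4) (.nd (nat_lit 5) 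
(.lf (nat_lit 19656) (.g (nat_lit 3736) (.e (nat_lit 1181) (nat_lit 87) (.e (nat_lit 57479) (nat_lit 28) (.e (nat_lit 557100) (nat_lit 13) (.e (nat_lit 172113) (nat_lit 10) (.e (nat_lit 434245) (nat_lit 28) .nil))))) .nil)) 
(.lf (nat_lit 19688) (.g (nat_lit 2684) (.e (nat_lit 1181) (nat_lit 87) (.e (nat_lit 57479) (nat_lit 28) (.e (nat_lit 557101) (nat_lit 13) (.e (nat_lit 172097) (nat_lit 9) (.e (nat_lit 426140) (nat_lit 3) (.e (nat_lit 204861) (nat_lit 26) (.e (nat_lit 335986) (nat_lit 1) (.e (nat_lit 57873) (nat_lit 264) .nil)))))))) (.g (nat_lit 4) .nil .nil)))) (.nd (nat_lit 5) 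
(.lf (nat_lit 19672) (.g (nat_lit 2895) (.e (nat_lit 1181) (nat_lit 87) (.e (nat_lit 57479) (nat_lit 28) (.e (nat_lit 557101) (nat_lit 13) (.e (nat_lit 172097) (nat_lit 9) (.e (nat_lit 426140) (nat_lit 3) (.e (nat_lit 204821) (nat_lit 17) (.e (nat_lit 7936) (nat_lit 343) (.e (nat_lit 1181) (nat_lit 87) (.e (nat_lit 57872) (nat_lit 264) .nil))))))))) (.g (nat_lit 5) .nil .nil))) 
(.lf (nat_lit 19704) (.g (nat_lit 3127) (.e (nat_lit 1181) (nat_lit 87) (.e (nat_lit 57479) (nat_lit 28) (.e (nat_lit 557101) (nat_lit 13) (.e (nat_lit 172115) (nat_lit 10) (.e (nat_lit 434231) (nat_lit 23) (.e (nat_lit 532490) (nat_lit 0) (.e (nat_lit 7936) (nat_lit 343) (.e (nat_lit 1181) (nat_lit 87) (.e (nat_lit 57872) (nat_lit 264) .nil))))))))) (.g (nat_lit 5) .nil .nil)))))) 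
(.nd (nat_lit 3) (.nd (nat_lit 4) (.nd (nat_lit 5) 
(.lf (nat_lit 19652) (.g (nat_lit 5002) (.e (nat_lit 1181) (nat_lit 87) (.e (nat_lit 57479) (nat_lit 28) (.e (nat_lit 557100) (nat_lit 13) (.e (nat_lit 172106) (nat_lit 10) (.e (nat_lit 434231) (nat_lit 23) (.e (nat_lit 532554) (nat_lit 13) (.e (nat_lit 368662) (nat_lit 18) (.e (nat_lit 5907) (nat_lit 320) .nil)))))))) (.g (nat_lit 8) .nil .nil))) 
(.lf (nat_lit 19684) (.g (nat_lit 2106) (.e (nat_lit 1181) (nat_lit 87) (.e (nat_lit 57479) (nat_lit 28) (.e (nat_lit 557101) (nat_lit 13) (.e (nat_lit 172097) (nat_lit 9) (.e (nat_lit 426140) (nat_lit 3) (.e (nat_lit 204855) (nat_lit 26) (.e (nat_lit 335992) (nat_lit 1) (.e (nat_lit 57871) (nat_lit 264) .nil)))))))) (.g (nat_lit 4) .nil .nil)))) (.nd (nat_lit 5) 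
(.lf (nat_lit 19668) (.g (nat_lit 4942) (.e (nat_lit 1181) (nat_lit 87) (.e (nat_lit 57479) (nat_lit 28) (.e (nat_lit 557101) (nat_lit 13) (.e (nat_lit 172097) (nat_lit 9) (.e (nat_lit 426125) (nat_lit 2) (.e (nat_lit 196666) (nat_lit 13) (.e (nat_lit 65563) (nat_lit 1) (.e (nat_lit 57870) (nat_lit 264) .nil)))))))) (.g (nat_lit 0) .nil .nil))) 
(.lf (nat_lit 19700) (.g (nat_lit 2719) (.e (nat_lit 1181) (nat_lit 87) (.e (nat_lit 57479) (nat_lit 28) (.e (nat_lit 557101) (nat_lit 13) (.e (nat_lit 172097) (nat_lit 9) (.e (nat_lit 426140) (nat_lit 3) (.e (nat_lit 204863) (nat_lit 27) (.e (nat_lit 344101) (nat_lit 18) (.e (nat_lit 5907) (nat_lit 320) .nil)))))))) (.g (nat_lit 5) .nil .nil))))) (.nd (nat_lit 4) (.nd (nat_lit 5) 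
(.lf (nat_lit 19660) (.g (nat_lit 2093) (.e (nat_lit 1181) (nat_lit 87) (.e (nat_lit 57479) (nat_lit 28) (.e (nat_lit 557101) (nat_lit 13) (.e (nat_lit 172097) (nat_lit 9) (.e (nat_lit 426125) (nat_lit 2) (.e (nat_lit 196630) (nat_lit 9) (.e (nat_lit 1462) (nat_lit 108) (.e (nat_lit 335997) (nat_lit 1) (.e (nat_lit 57872) (nat_lit 264) .nil))))))))) (.g (nat_lit 4) .nil .nil))) 
(.lf (nat_lit 19692) (.g (nat_lit 2129) (.e (nat_lit 1181) (nat_lit 87) (.e (nat_lit 57479) (nat_lit 28) (.e (nat_lit 557101) (nat_lit 13) (.e (nat_lit 172097) (nat_lit 9) (.e (nat_lit 426140) (nat_lit 3) (.e (nat_lit 204862) (nat_lit 27) (.e (nat_lit 344097) (nat_lit 18) (.e (nat_lit 5902) (nat_lit 320) .nil)))))))) (.g (nat_lit 4) .nil .nil)))) (.nd (nat_lit 5) 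
(.lf (nat_lit 19676) (.g (nat_lit 2424) (.e (nat_lit 1181) (nat_lit 87) (.e (nat_lit 57479) (nat_lit 28) (.e (nat_lit 557101) (nat_lit 13) (.e (nat_lit 172097) (nat_lit 9) (.e (nat_lit 426140) (nat_lit 3) (.e (nat_lit 204855) (nat_lit 26) (.e (nat_lit 335921) (nat_lit 0) (.e (nat_lit 1023) (nat_lit 81) (.e (nat_lit 5906) (nat_lit 320) .nil))))))))) (.g (nat_lit 4) .nil .nil))) 
(.lf (nat_lit 19708) (.g (nat_lit 4764) (.e (nat_lit 1181) (nat_lit 87) (.e (nat_lit 57479) (nat_lit 28) (.e (nat_lit 557101) (nat_lit 13) (.e (nat_lit 172115) (nat_lit 10) (.e (nat_lit 434231) (nat_lit 23) (.e (nat_lit 532527) (nat_lit 9) (.e (nat_lit 335997) (nat_lit 1) (.e (nat_lit 57870) (nat_lit 264) .nil)))))))) (.g (nat_lit 0) .nil .nil))))))) 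
(.nd (nat_lit 2) (.nd (nat_lit 3) (.nd (nat_lit 4) (.nd (nat_lit 5) 
(.lf (nat_lit 19650) (.g (nat_lit 2620) (.e (nat_lit 1181) (nat_lit 87) (.e (nat_lit 57479) (nat_lit 28) (.e (nat_lit 557100) (nat_lit 13) (.e (nat_lit 172106) (nat_lit 10) (.e (nat_lit 434231) (nat_lit 23) (.e (nat_lit 532554) (nat_lit 13) (.e (nat_lit 368662) (nat_lit 18) (.e (nat_lit 5902) (nat_lit 320) .nil)))))))) (.g (nat_lit 4) .nil .nil))) 
(.lf (nat_lit 19682) (.g (nat_lit 3372) (.e (nat_lit 1181) (nat_lit 87) (.e (nat_lit 57479) (nat_lit 28) (.e (nat_lit 557101) (nat_lit 13) (.e (nat_lit 172097) (nat_lit 9) (.e (nat_lit 426140) (nat_lit 3) (.e (nat_lit 204855) (nat_lit 26) (.e (nat_lit 335991) (nat_lit 1) (.e (nat_lit 57873) (nat_lit 264) .nil)))))))) (.g (nat_lit 5) .nil .nil)))) (.nd (nat_lit 5) 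
(.lf (nat_lit 19666) (.g (nat_lit 4795) (.e (nat_lit 1181) (nat_lit 87) (.e (nat_lit 57479) (nat_lit 28) (.e (nat_lit 557101) (nat_lit 13) (.e (nat_lit 172097) (nat_lit 9) (.e (nat_lit 426125) (nat_lit 2) (.e (nat_lit 196666) (nat_lit 13) (.e (nat_lit 65550) (nat_lit 0) (.e (nat_lit 1023) (nat_lit 81) (.e (nat_lit 5905) (nat_lit 320) .nil))))))))) (.g (nat_lit 6) .nil .nil))) 
(.lf (nat_lit 19698) (.g (nat_lit 2073) (.e (nat_lit 1181) (nat_lit 87) (.e (nat_lit 57479) (nat_lit 28) (.e (nat_lit 557101) (nat_lit 13) (.e (nat_lit 172097) (nat_lit 9) (.e (nat_lit 426140) (nat_lit 3) (.e (nat_lit 204863) (nat_lit 27) (.e (nat_lit 344101) (nat_lit 18) (.e (nat_lit 5902) (nat_lit 320) .nil)))))))) (.g (nat_lit 4) .nil .nil))))) (.nd (nat_lit 4) (.nd (nat_lit 5) 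
(.lf (nat_lit 19658) (.g (nat_lit 1860) (.e (nat_lit 1181) (nat_lit 87) (.e (nat_lit 57479) (nat_lit 28) (.e (nat_lit 557101) (nat_lit 13) (.e (nat_lit 172097) (nat_lit 9) (.e (nat_lit 426125) (nat_lit 2) .nil))))) .nil)) 
(.lf (nat_lit 19690) (.g (nat_lit 2970) (.e (nat_lit 1181) (nat_lit 87) (.e (nat_lit 57479) (nat_lit 28) (.e (nat_lit 557101) (nat_lit 13) (.e (nat_lit 172097) (nat_lit 9) (.e (nat_lit 426140) (nat_lit 3) (.e (nat_lit 212736) (nat_lit 26) (.e (nat_lit 335995) (nat_lit 1) (.e (nat_lit 57872) (nat_lit 264) .nil)))))))) (.g (nat_lit 5) .nil .nil)))) (.nd (nat_lit 5) 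
(.lf (nat_lit 19674) (.g (nat_lit 4067) (.e (nat_lit 1181) (nat_lit 87) (.e (nat_lit 57479) (nat_lit 28) (.e (nat_lit 557101) (nat_lit 13) (.e (nat_lit 172097) (nat_lit 9) (.e (nat_lit 426140) (nat_lit 3) (.e (nat_lit 204850) (nat_lit 26) (.e (nat_lit 335997) (nat_lit 1) (.e (nat_lit 57871) (nat_lit 264) .nil)))))))) (.g (nat_lit 7) .nil .nil))) 
(.lf (nat_lit 19706) (.g (nat_lit 2629) (.e (nat_lit 1181) (nat_lit 87) (.e (nat_lit 57479) (nat_lit 28) (.e (nat_lit 557101) (nat_lit 13) (.e (nat_lit 172115) (nat_lit 10) (.e (nat_lit 434231) (nat_lit 23) (.e (nat_lit 532525) (nat_lit 8) (.e (nat_lit 327692) (nat_lit 1) (.e (nat_lit 8439) (nat_lit 138) .nil)))))))) (.g (nat_lit 4) .nil .nil)))))) 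
(.nd (nat_lit 3) (.nd (nat_lit 4) (.nd (nat_lit 5) 
(.lf (nat_lit 19654) (.g (nat_lit 2886) (.e (nat_lit 1181) (nat_lit 87) (.e (nat_lit 57479) (nat_lit 28) (.e (nat_lit 557100) (nat_lit 13) (.e (nat_lit 172106) (nat_lit 10) (.e (nat_lit 434244) (nat_lit 28) .nil))))) .nil)) 
(.lf (nat_lit 19686) (.g (nat_lit 3877) (.e (nat_lit 1181) (nat_lit 87) (.e (nat_lit 57479) (nat_lit 28) (.e (nat_lit 557101) (nat_lit 13) (.e (nat_lit 172097) (nat_lit 9) (.e (nat_lit 426140) (nat_lit 3) (.e (nat_lit 204855) (nat_lit 26) (.e (nat_lit 335992) (nat_lit 1) (.e (nat_lit 57873) (nat_lit 264) .nil)))))))) (.g (nat_lit 6) .nil .nil)))) (.nd (nat_lit 5) 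
(.lf (nat_lit 19670) (.g (nat_lit 4428) (.e (nat_lit 1181) (nat_lit 87) (.e (nat_lit 57479) (nat_lit 28) (.e (nat_lit 557101) (nat_lit 13) (.e (nat_lit 172097) (nat_lit 9) (.e (nat_lit 426125) (nat_lit 2) (.e (nat_lit 196666) (nat_lit 13) (.e (nat_lit 65565) (nat_lit 1) (.e (nat_lit 57871) (nat_lit 264) .nil)))))))) (.g (nat_lit 7) .nil .nil))) 
(.lf (nat_lit 19702) (.g (nat_lit 1842) (.e (nat_lit 1181) (nat_lit 87) (.e (nat_lit 57479) (nat_lit 28) (.e (nat_lit 557101) (nat_lit 13) (.e (nat_lit 172115) (nat_lit 10) (.e (nat_lit 434231) (nat_lit 23) .nil))))) .nil)))) (.nd (nat_lit 4) (.nd (nat_lit 5) 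
(.lf (nat_lit 19662) (.g (nat_lit 2000) (.e (nat_lit 1181) (nat_lit 87) (.e (nat_lit 57479) (nat_lit 28) (.e (nat_lit 557101) (nat_lit 13) (.e (nat_lit 172097) (nat_lit 9) (.e (nat_lit 426125) (nat_lit 2) (.e (nat_lit 196630) (nat_lit 9) (.e (nat_lit 1549) (nat_lit 109) (.e (nat_lit 344097) (nat_lit 18) (.e (nat_lit 5906) (nat_lit 320) .nil))))))))) (.g (nat_lit 4) .nil .nil))) 
(.lf (nat_lit 19694) (.g (nat_lit 2187) (.e (nat_lit 1181) (nat_lit 87) (.e (nat_lit 57479) (nat_lit 28) (.e (nat_lit 557101) (nat_lit 13) (.e (nat_lit 172097) (nat_lit 9) (.e (nat_lit 426140) (nat_lit 3) (.e (nat_lit 204862) (nat_lit 27) (.e (nat_lit 344100) (nat_lit 18) (.e (nat_lit 5907) (nat_lit 320) .nil)))))))) (.g (nat_lit 4) .nil .nil)))) (.nd (nat_lit 5) 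
(.lf (nat_lit 19678) (.g (nat_lit 2673) (.e (nat_lit 1181) (nat_lit 87) (.e (nat_lit 57479) (nat_lit 28) (.e (nat_lit 557101) (nat_lit 13) (.e (nat_lit 172097) (nat_lit 9) (.e (nat_lit 426140) (nat_lit 3) (.e (nat_lit 204855) (nat_lit 26) (.e (nat_lit 335928) (nat_lit 0) (.e (nat_lit 1023) (nat_lit 81) (.e (nat_lit 5906) (nat_lit 320) .nil))))))))) (.g (nat_lit 4) .nil .nil))) 
(.lf (nat_lit 19710) (.g (nat_lit 2499) (.e (nat_lit 1181) (nat_lit 87) (.e (nat_lit 57479) (nat_lit 28) (.e (nat_lit 557101) (nat_lit 13) (.e (nat_lit 172115) (nat_lit 10) (.e (nat_lit 434231) (nat_lit 23) (.e (nat_lit 532527) (nat_lit 9) (.e (nat_lit 335997) (nat_lit 1) (.e (nat_lit 57873) (nat_lit 264) .nil)))))))) (.g (nat_lit 4) .nil .nil)))))))) 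
(.nd (nat_lit 1) (.nd (nat_lit 2) (.nd (nat_lit 3) (.nd (nat_lit 4) (.nd (nat_lit 5) 
(.lf (nat_lit 19649) (.g (nat_lit 3834) (.e (nat_lit 1181) (nat_lit 87) (.e (nat_lit 57479) (nat_lit 28) (.e (nat_lit 557100) (nat_lit 13) (.e (nat_lit 172106) (nat_lit 10) (.e (nat_lit 434231) (nat_lit 23) (.e (nat_lit 532553) (nat_lit 13) (.e (nat_lit 368662) (nat_lit 18) (.e (nat_lit 5906) (nat_lit 320) .nil)))))))) (.g (nat_lit 6) .nil .nil))) 
(.lf (nat_lit 19681) (.g (nat_lit 2240) (.e (nat_lit 1181) (nat_lit 87) (.e (nat_lit 57479) (nat_lit 28) (.e (nat_lit 557101) (nat_lit 13) (.e (nat_lit 172097) (nat_lit 9) (.e (nat_lit 426140) (nat_lit 3) (.e (nat_lit 204855) (nat_lit 26) (.e (nat_lit 335991) (nat_lit 1) (.e (nat_lit 57872) (nat_lit 264) .nil)))))))) (.g (nat_lit 4) .nil .nil)))) (.nd (nat_lit 5) 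
(.lf (nat_lit 19665) (.g (nat_lit 2205) (.e (nat_lit 1181) (nat_lit 87) (.e (nat_lit 57479) (nat_lit 28) (.e (nat_lit 557101) (nat_lit 13) (.e (nat_lit 172097) (nat_lit 9) (.e (nat_lit 426125) (nat_lit 2) (.e (nat_lit 196666) (nat_lit 13) (.e (nat_lit 65546) (nat_lit 0) (.e (nat_lit 1023) (nat_lit 81) (.e (nat_lit 5902) (nat_lit 320) .nil))))))))) (.g (nat_lit 4) .nil .nil))) 
(.lf (nat_lit 19697) (.g (nat_lit 2508) (.e (nat_lit 1181) (nat_lit 87) (.e (nat_lit 57479) (nat_lit 28) (.e (nat_lit 557101) (nat_lit 13) (.e (nat_lit 172097) (nat_lit 9) (.e (nat_lit 426140) (nat_lit 3) (.e (nat_lit 204863) (nat_lit 27) (.e (nat_lit 344099) (nat_lit 18) (.e (nat_lit 5907) (nat_lit 320) .nil)))))))) (.g (nat_lit 4) .nil .nil))))) (.nd (nat_lit 4) (.nd (nat_lit 5) 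
(.lf (nat_lit 19657) (.g (nat_lit 4108) (.e (nat_lit 1181) (nat_lit 87) (.e (nat_lit 57479) (nat_lit 28) (.e (nat_lit 557100) (nat_lit 13) (.e (nat_lit 172113) (nat_lit 10) (.e (nat_lit 434245) (nat_lit 28) (.e (nat_lit 573471) (nat_lit 11) (.e (nat_lit 16406) (nat_lit 1) (.e (nat_lit 164421) (nat_lit 272) .nil)))))))) (.g (nat_lit 4) .nil .nil))) 
(.lf (nat_lit 19689) (.g (nat_lit 2200) (.e (nat_lit 1181) (nat_lit 87) (.e (nat_lit 57479) (nat_lit 28) (.e (nat_lit 557101) (nat_lit 13) (.e (nat_lit 172097) (nat_lit 9) (.e (nat_lit 426140) (nat_lit 3) (.e (nat_lit 212736) (nat_lit 26) (.e (nat_lit 335995) (nat_lit 1) (.e (nat_lit 57870) (nat_lit 264) .nil)))))))) (.g (nat_lit 4) .nil .nil)))) (.nd (nat_lit 5) 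
(.lf (nat_lit 19673) (.g (nat_lit 4512) (.e (nat_lit 1181) (nat_lit 87) (.e (nat_lit 57479) (nat_lit 28) (.e (nat_lit 557101) (nat_lit 13) (.e (nat_lit 172097) (nat_lit 9) (.e (nat_lit 426140) (nat_lit 3) (.e (nat_lit 204850) (nat_lit 26) (.e (nat_lit 335997) (nat_lit 1) (.e (nat_lit 57870) (nat_lit 264) .nil)))))))) (.g (nat_lit 0) .nil .nil))) 
(.lf (nat_lit 19705) (.g (nat_lit 2018) (.e (nat_lit 1181) (nat_lit 87) (.e (nat_lit 57479) (nat_lit 28) (.e (nat_lit 557101) (nat_lit 13) (.e (nat_lit 172115) (nat_lit 10) (.e (nat_lit 434231) (nat_lit 23) (.e (nat_lit 532490) (nat_lit 0) (.e (nat_lit 7936) (nat_lit 343) (.e (nat_lit 1183) (nat_lit 87) (.e (nat_lit 57872) (nat_lit 264) .nil))))))))) (.g (nat_lit 4) .nil .nil)))))) 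
(.nd (nat_lit 3) (.nd (nat_lit 4) (.nd (nat_lit 5) 
(.lf (nat_lit 19653) (.g (nat_lit 3416) (.e (nat_lit 1181) (nat_lit 87) (.e (nat_lit 57479) (nat_lit 28) (.e (nat_lit 557100) (nat_lit 13) (.e (nat_lit 172106) (nat_lit 10) (.e (nat_lit 434231) (nat_lit 23) (.e (nat_lit 532555) (nat_lit 13) (.e (nat_lit 368662) (nat_lit 18) (.e (nat_lit 5907) (nat_lit 320) .nil)))))))) (.g (nat_lit 5) .nil .nil))) 
(.lf (nat_lit 19685) (.g (nat_lit 3516) (.e (nat_lit 1181) (nat_lit 87) (.e (nat_lit 57479) (nat_lit 28) (.e (nat_lit 557101) (nat_lit 13) (.e (nat_lit 172097) (nat_lit 9) (.e (nat_lit 426140) (nat_lit 3) (.e (nat_lit 204855) (nat_lit 26) (.e (nat_lit 335992) (nat_lit 1) (.e (nat_lit 57872) (nat_lit 264) .nil)))))))) (.g (nat_lit 6) .nil .nil)))) (.nd (nat_lit 5) 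
(.lf (nat_lit 19669) (.g (nat_lit 4526) (.e (nat_lit 1181) (nat_lit 87) (.e (nat_lit 57479) (nat_lit 28) (.e (nat_lit 557101) (nat_lit 13) (.e (nat_lit 172097) (nat_lit 9) (.e (nat_lit 426125) (nat_lit 2) (.e (nat_lit 196666) (nat_lit 13) (.e (nat_lit 65563) (nat_lit 1) (.e (nat_lit 57871) (nat_lit 264) .nil)))))))) (.g (nat_lit 7) .nil .nil))) 
(.lf (nat_lit 19701) (.g (nat_lit 2507) (.e (nat_lit 1181) (nat_lit 87) (.e (nat_lit 57479) (nat_lit 28) (.e (nat_lit 557101) (nat_lit 13) (.e (nat_lit 172097) (nat_lit 9) (.e (nat_lit 426140) (nat_lit 3) (.e (nat_lit 204872) (nat_lit 30) (.e (nat_lit 368662) (nat_lit 18) (.e (nat_lit 5906) (nat_lit 320) .nil)))))))) (.g (nat_lit 4) .nil .nil))))) (.nd (nat_lit 4) (.nd (nat_lit 5) 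
(.lf (nat_lit 19661) (.g (nat_lit 2835) (.e (nat_lit 1181) (nat_lit 87) (.e (nat_lit 57479) (nat_lit 28) (.e (nat_lit 557101) (nat_lit 13) (.e (nat_lit 172097) (nat_lit 9) (.e (nat_lit 426125) (nat_lit 2) (.e (nat_lit 196630) (nat_lit 9) (.e (nat_lit 1485) (nat_lit 108) (.e (nat_lit 335995) (nat_lit 1) (.e (nat_lit 57872) (nat_lit 264) .nil))))))))) (.g (nat_lit 5) .nil .nil))) 
(.lf (nat_lit 19693) (.g (nat_lit 4312) (.e (nat_lit 1181) (nat_lit 87) (.e (nat_lit 57479) (nat_lit 28) (.e (nat_lit 557101) (nat_lit 13) (.e (nat_lit 172097) (nat_lit 9) (.e (nat_lit 426140) (nat_lit 3) (.e (nat_lit 204862) (nat_lit 27) (.e (nat_lit 344097) (nat_lit 18) (.e (nat_lit 5905) (nat_lit 320) .nil)))))))) (.g (nat_lit 7) .nil .nil)))) (.nd (nat_lit 5) 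
(.lf (nat_lit 19677) (.g (nat_lit 4118) (.e (nat_lit 1181) (nat_lit 87) (.e (nat_lit 57479) (nat_lit 28) (.e (nat_lit 557101) (nat_lit 13) (.e (nat_lit 172097) (nat_lit 9) (.e (nat_lit 426140) (nat_lit 3) (.e (nat_lit 204855) (nat_lit 26) (.e (nat_lit 335923) (nat_lit 0) (.e (nat_lit 1023) (nat_lit 81) (.e (nat_lit 5906) (nat_lit 320) .nil))))))))) (.g (nat_lit 6) .nil .nil))) 
(.lf (nat_lit 19709) (.g (nat_lit 4327) (.e (nat_lit 1181) (nat_lit 87) (.e (nat_lit 57479) (nat_lit 28) (.e (nat_lit 557101) (nat_lit 13) (.e (nat_lit 172115) (nat_lit 10) (.e (nat_lit 434231) (nat_lit 23) (.e (nat_lit 532527) (nat_lit 9) (.e (nat_lit 335997) (nat_lit 1) (.e (nat_lit 57871) (nat_lit 264) .nil)))))))) (.g (nat_lit 7) .nil .nil))))))) 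
(.nd (nat_lit 2) (.nd (nat_lit 3) (.nd (nat_lit 4) (.nd (nat_lit 5) 
(.lf (nat_lit 19651) (.g (nat_lit 2994) (.e (nat_lit 1181) (nat_lit 87) (.e (nat_lit 57479) (nat_lit 28) (.e (nat_lit 557100) (nat_lit 13) (.e (nat_lit 172106) (nat_lit 10) (.e (nat_lit 434231) (nat_lit 23) (.e (nat_lit 532554) (nat_lit 13) (.e (nat_lit 368662) (nat_lit 18) (.e (nat_lit 5905) (nat_lit 320) .nil)))))))) (.g (nat_lit 5) .nil .nil))) 
(.lf (nat_lit 19683) (.g (nat_lit 4559) (.e (nat_lit 1181) (nat_lit 87) (.e (nat_lit 57479) (nat_lit 28) (.e (nat_lit 557101) (nat_lit 13) (.e (nat_lit 172097) (nat_lit 9) (.e (nat_lit 426140) (nat_lit 3) (.e (nat_lit 204855) (nat_lit 26) (.e (nat_lit 335992) (nat_lit 1) (.e (nat_lit 57870) (nat_lit 264) .nil)))))))) (.g (nat_lit 8) .nil .nil)))) (.nd (nat_lit 5) 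
(.lf (nat_lit 19667) (.g (nat_lit 4122) (.e (nat_lit 1181) (nat_lit 87) (.e (nat_lit 57479) (nat_lit 28) (.e (nat_lit 557101) (nat_lit 13) (.e (nat_lit 172097) (nat_lit 9) (.e (nat_lit 426125) (nat_lit 2) (.e (nat_lit 196666) (nat_lit 13) (.e (nat_lit 65553) (nat_lit 0) (.e (nat_lit 1023) (nat_lit 81) (.e (nat_lit 5906) (nat_lit 320) .nil))))))))) (.g (nat_lit 6) .nil .nil))) 
(.lf (nat_lit 19699) (.g (nat_lit 2013) (.e (nat_lit 1181) (nat_lit 87) (.e (nat_lit 57479) (nat_lit 28) (.e (nat_lit 557101) (nat_lit 13) (.e (nat_lit 172097) (nat_lit 9) (.e (nat_lit 426140) (nat_lit 3) (.e (nat_lit 204863) (nat_lit 27) (.e (nat_lit 344101) (nat_lit 18) (.e (nat_lit 5906) (nat_lit 320) .nil)))))))) (.g (nat_lit 4) .nil .nil))))) (.nd (nat_lit 4) (.nd (nat_lit 5) 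
(.lf (nat_lit 19659) (.g (nat_lit 2218) (.e (nat_lit 1181) (nat_lit 87) (.e (nat_lit 57479) (nat_lit 28) (.e (nat_lit 557101) (nat_lit 13) (.e (nat_lit 172097) (nat_lit 9) (.e (nat_lit 426125) (nat_lit 2) (.e (nat_lit 196630) (nat_lit 9) (.e (nat_lit 1462) (nat_lit 108) (.e (nat_lit 335997) (nat_lit 1) (.e (nat_lit 57870) (nat_lit 264) .nil))))))))) (.g (nat_lit 4) .nil .nil))) 
(.lf (nat_lit 19691) (.g (nat_lit 3855) (.e (nat_lit 1181) (nat_lit 87) (.e (nat_lit 57479) (nat_lit 28) (.e (nat_lit 557101) (nat_lit 13) (.e (nat_lit 172097) (nat_lit 9) (.e (nat_lit 426140) (nat_lit 3) (.e (nat_lit 204862) (nat_lit 27) (.e (nat_lit 344090) (nat_lit 18) (.e (nat_lit 5896) (nat_lit 320) .nil)))))))) (.g (nat_lit 6) .nil .nil)))) (.nd (nat_lit 5) 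
(.lf (nat_lit 19675) (.g (nat_lit 2700) (.e (nat_lit 1181) (nat_lit 87) (.e (nat_lit 57479) (nat_lit 28) (.e (nat_lit 557101) (nat_lit 13) (.e (nat_lit 172097) (nat_lit 9) (.e (nat_lit 426140) (nat_lit 3) (.e (nat_lit 204855) (nat_lit 26) (.e (nat_lit 335901) (nat_lit 0) (.e (nat_lit 1095) (nat_lit 81) (.e (nat_lit 5902) (nat_lit 320) .nil))))))))) (.g (nat_lit 4) .nil .nil))) 
(.lf (nat_lit 19707) (.g (nat_lit 2486) (.e (nat_lit 1181) (nat_lit 87) (.e (nat_lit 57479) (nat_lit 28) (.e (nat_lit 557101) (nat_lit 13) (.e (nat_lit 172115) (nat_lit 10) (.e (nat_lit 434231) (nat_lit 23) (.e (nat_lit 532527) (nat_lit 9) (.e (nat_lit 335992) (nat_lit 1) (.e (nat_lit 57870) (nat_lit 264) .nil)))))))) (.g (nat_lit 4) .nil .nil)))))) 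
(.nd (nat_lit 3) (.nd (nat_lit 4) (.nd (nat_lit 5) 
(.lf (nat_lit 19655) (.g (nat_lit 2877) (.e (nat_lit 1181) (nat_lit 87) (.e (nat_lit 57479) (nat_lit 28) (.e (nat_lit 557100) (nat_lit 13) (.e (nat_lit 172113) (nat_lit 10) .nil)))) .nil)) 
(.lf (nat_lit 19687) (.g (nat_lit 2427) (.e (nat_lit 1181) (nat_lit 87) (.e (nat_lit 57479) (nat_lit 28) (.e (nat_lit 557101) (nat_lit 13) (.e (nat_lit 172097) (nat_lit 9) (.e (nat_lit 426140) (nat_lit 3) (.e (nat_lit 204855) (nat_lit 26) (.e (nat_lit 343808) (nat_lit 1) (.e (nat_lit 57873) (nat_lit 264) .nil)))))))) (.g (nat_lit 4) .nil .nil)))) (.nd (nat_lit 5) 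
(.lf (nat_lit 19671) (.g (nat_lit 1859) (.e (nat_lit 1181) (nat_lit 87) (.e (nat_lit 57479) (nat_lit 28) (.e (nat_lit 557101) (nat_lit 13) (.e (nat_lit 172097) (nat_lit 9) (.e (nat_lit 426140) (nat_lit 3) .nil))))) .nil)) 
(.lf (nat_lit 19703) (.g (nat_lit 2505) (.e (nat_lit 1181) (nat_lit 87) (.e (nat_lit 57479) (nat_lit 28) (.e (nat_lit 557101) (nat_lit 13) (.e (nat_lit 172115) (nat_lit 10) (.e (nat_lit 434231) (nat_lit 23) (.e (nat_lit 532481) (nat_lit 0) (.e (nat_lit 6481) (nat_lit 343) (.e (nat_lit 1181) (nat_lit 87) (.e (nat_lit 57870) (nat_lit 264) .nil))))))))) (.g (nat_lit 4) .nil .nil))))) 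
(.nd (nat_lit 4) (.nd (nat_lit 5) 
(.lf (nat_lit 19663) (.g (nat_lit 2647) (.e (nat_lit 1181) (nat_lit 87) (.e (nat_lit 57479) (nat_lit 28) (.e (nat_lit 557101) (nat_lit 13) (.e (nat_lit 172097) (nat_lit 9) (.e (nat_lit 426125) (nat_lit 2) (.e (nat_lit 196630) (nat_lit 9) (.e (nat_lit 1549) (nat_lit 109) (.e (nat_lit 344097) (nat_lit 18) (.e (nat_lit 5907) (nat_lit 320) .nil))))))))) (.g (nat_lit 4) .nil .nil))) 
(.lf (nat_lit 19695) (.g (nat_lit 3839) (.e (nat_lit 1181) (nat_lit 87) (.e (nat_lit 57479) (nat_lit 28) (.e (nat_lit 557101) (nat_lit 13) (.e (nat_lit 172097) (nat_lit 9) (.e (nat_lit 426140) (nat_lit 3) (.e (nat_lit 204863) (nat_lit 27) (.e (nat_lit 344090) (nat_lit 18) (.e (nat_lit 5896) (nat_lit 320) .nil)))))))) (.g (nat_lit 6) .nil .nil)))) (.nd (nat_lit 5) 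
(.lf (nat_lit 19679) (.g (nat_lit 4536) (.e (nat_lit 1181) (nat_lit 87) (.e (nat_lit 57479) (nat_lit 28) (.e (nat_lit 557101) (nat_lit 13) (.e (nat_lit 172097) (nat_lit 9) (.e (nat_lit 426140) (nat_lit 3) (.e (nat_lit 204855) (nat_lit 26) (.e (nat_lit 335985) (nat_lit 1) (.e (nat_lit 57870) (nat_lit 264) .nil)))))))) (.g (nat_lit 0) .nil .nil))) 
(.lf (nat_lit 19711) (.g (nat_lit 4960) (.e (nat_lit 1181) (nat_lit 87) (.e (nat_lit 57479) (nat_lit 28) (.e (nat_lit 557101) (nat_lit 13) (.e (nat_lit 172115) (nat_lit 10) (.e (nat_lit 434231) (nat_lit 23) (.e (nat_lit 532535) (nat_lit 9) (.e (nat_lit 335925) (nat_lit 0) (.e (nat_lit 1023) (nat_lit 81) (.e (nat_lit 5906) (nat_lit 320) .nil))))))))) (.g (nat_lit 6) .nil .nil)))))))))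

noncomputable def tv273 : DT := (.nd (nat_lit 0) (.nd (nat_lit 1) (.nd (nat_lit 2) (.nd (nat_lit 3) (.nd (nat_lit 4) (.nd (nat_lit 5) 
(.lf (nat_lit 19712) (.g (nat_lit 4645) (.e (nat_lit 1181) (nat_lit 87) (.e (nat_lit 57479) (nat_lit 28) (.e (nat_lit 557101) (nat_lit 13) (.e (nat_lit 172115) (nat_lit 10) (.e (nat_lit 434231) (nat_lit 23) (.e (nat_lit 532535) (nat_lit 9) (.e (nat_lit 335925) (nat_lit 0) (.e (nat_lit 1023) (nat_lit 81) (.e (nat_lit 5907) (nat_lit 320) .nil))))))))) (.g (nat_lit 6) .nil .nil))) 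
(.lf (nat_lit 19744) (.g (nat_lit 2320) (.e (nat_lit 1181) (nat_lit 87) (.e (nat_lit 57479) (nat_lit 28) (.e (nat_lit 557101) (nat_lit 13) (.e (nat_lit 172115) (nat_lit 10) (.e (nat_lit 434238) (nat_lit 25) (.e (nat_lit 548898) (nat_lit 14) (.e (nat_lit 2964) (nat_lit 185) (.e (nat_lit 434209) (nat_lit 18) (.e (nat_lit 4605) (nat_lit 269) .nil))))))))) (.g (nat_lit 4) .nil .nil)))) 
(.nd (nat_lit 5) 
(.lf (nat_lit 19728) (.g (nat_lit 3342) (.e (nat_lit 1181) (nat_lit 87) (.e (nat_lit 57479) (nat_lit 28) (.e (nat_lit 557101) (nat_lit 13) (.e (nat_lit 172115) (nat_lit 10) (.e (nat_lit 434231) (nat_lit 23) (.e (nat_lit 532543) (nat_lit 10) (.e (nat_lit 344100) (nat_lit 18) (.e (nat_lit 5907) (nat_lit 320) .nil)))))))) (.g (nat_lit 5) .nil .nil))) 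
(.lf (nat_lit 19760) (.g (nat_lit 4092) (.e (nat_lit 1181) (nat_lit 87) (.e (nat_lit 57479) (nat_lit 28) (.e (nat_lit 557103) (nat_lit 14) (.e (nat_lit 180250) (nat_lit 10) (.e (nat_lit 573487) (nat_lit 14) (.e (nat_lit 73746) (nat_lit 3) (.e (nat_lit 516117) (nat_lit 1) (.e (nat_lit 164164) (nat_lit 152) .nil)))))))) (.g (nat_lit 5) .nil .nil))))) (.nd (nat_lit 4) (.nd (nat_lit 5) 
(.lf (nat_lit 19720) (.g (nat_lit 3622) (.e (nat_lit 1181) (nat_lit 87) (.e (nat_lit 57479) (nat_lit 28) (.e (nat_lit 557101) (nat_lit 13) (.e (nat_lit 172115) (nat_lit 10) (.e (nat_lit 434231) (nat_lit 23) (.e (nat_lit 532536) (nat_lit 9) (.e (nat_lit 335997) (nat_lit 1) (.e (nat_lit 57870) (nat_lit 264) .nil)))))))) (.g (nat_lit 5) .nil .nil))) 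
(.lf (nat_lit 19752) (.g (nat_lit 4171) (.e (nat_lit 1181) (nat_lit 87) (.e (nat_lit 57479) (nat_lit 28) (.e (nat_lit 557101) (nat_lit 13) (.e (nat_lit 172115) (nat_lit 10) (.e (nat_lit 434244) (nat_lit 28) (.e (nat_lit 573471) (nat_lit 11) (.e (nat_lit 16405) (nat_lit 1) (.e (nat_lit 164424) (nat_lit 272) .nil)))))))) (.g (nat_lit 6) .nil .nil)))) (.nd (nat_lit 5) 
(.lf (nat_lit 19736) (.g (nat_lit 4627) (.e (nat_lit 1181) (nat_lit 87) (.e (nat_lit 57479) (nat_lit 28) (.e (nat_lit 557101) (nat_lit 13) (.e (nat_lit 172115) (nat_lit 10) (.e (nat_lit 434231) (nat_lit 23) (.e (nat_lit 532553) (nat_lit 13) (.e (nat_lit 368662) (nat_lit 18) (.e (nat_lit 5907) (nat_lit 320) .nil)))))))) (.g (nat_lit 7) .nil .nil))) 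
(.lf (nat_lit 19768) (.g (nat_lit 2662) (.e (nat_lit 1181) (nat_lit 87) (.e (nat_lit 57479) (nat_lit 28) (.e (nat_lit 557103) (nat_lit 14) (.e (nat_lit 180250) (nat_lit 10) (.e (nat_lit 573487) (nat_lit 14) (.e (nat_lit 73747) (nat_lit 3) (.e (nat_lit 516119) (nat_lit 1) (.e (nat_lit 164163) (nat_lit 152) .nil)))))))) (.g (nat_lit 4) .nil .nil)))))) 
(.nd (nat_lit 3) (.nd (nat_lit 4) (.nd (nat_lit 5) 
(.lf (nat_lit 19716) (.g (nat_lit 5880) (.e (nat_lit 1181) (nat_lit 87) (.e (nat_lit 57479) (nat_lit 28) (.e (nat_lit 557101) (nat_lit 13) (.e (nat_lit 172115) (nat_lit 10) (.e (nat_lit 434231) (nat_lit 23) (.e (nat_lit 532535) (nat_lit 9) (.e (nat_lit 335992) (nat_lit 1) (.e (nat_lit 57870) (nat_lit 264) .nil)))))))) (.g (nat_lit 0) .nil .nil))) 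
(.lf (nat_lit 19748) (.g (nat_lit 5558) (.e (nat_lit 1181) (nat_lit 87) (.e (nat_lit 57479) (nat_lit 28) (.e (nat_lit 557101) (nat_lit 13) (.e (nat_lit 172115) (nat_lit 10) (.e (nat_lit 434244) (nat_lit 28) (.e (nat_lit 573450) (nat_lit 9) (.e (nat_lit 452) (nat_lit 33) (.e (nat_lit 434209) (nat_lit 18) (.e (nat_lit 4605) (nat_lit 269) .nil))))))))) (.g (nat_lit 8) .nil .nil)))) (.nd (nat_lit 5) 
(.lf (nat_lit 19732) (.g (nat_lit 3427) (.e (nat_lit 1181) (nat_lit 87) (.e (nat_lit 57479) (nat_lit 28) (.e (nat_lit 557101) (nat_lit 13) (.e (nat_lit 172115) (nat_lit 10) (.e (nat_lit 434231) (nat_lit 23) (.e (nat_lit 532552) (nat_lit 13) (.e (nat_lit 368662) (nat_lit 18) (.e (nat_lit 5907) (nat_lit 320) .nil)))))))) (.g (nat_lit 5) .nil .nil))) 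
(.lf (nat_lit 19764) (.g (nat_lit 2634) (.e (nat_lit 1181) (nat_lit 87) (.e (nat_lit 57479) (nat_lit 28) (.e (nat_lit 557103) (nat_lit 14) (.e (nat_lit 180250) (nat_lit 10) (.e (nat_lit 573487) (nat_lit 14) (.e (nat_lit 73746) (nat_lit 3) (.e (nat_lit 516120) (nat_lit 1) (.e (nat_lit 164147) (nat_lit 152) .nil)))))))) (.g (nat_lit 4) .nil .nil))))) (.nd (nat_lit 4) (.nd (nat_lit 5) 
(.lf (nat_lit 19724) (.g (nat_lit 2011) (.e (nat_lit 1181) (nat_lit 87) (.e (nat_lit 57479) (nat_lit 28) (.e (nat_lit 557101) (nat_lit 13) (.e (nat_lit 172115) (nat_lit 10) (.e (nat_lit 434231) (nat_lit 23) (.e (nat_lit 540416) (nat_lit 9) (.e (nat_lit 335995) (nat_lit 1) (.e (nat_lit 57870) (nat_lit 264) .nil)))))))) (.g (nat_lit 4) .nil .nil))) 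
(.lf (nat_lit 19756) (.g (nat_lit 3854) (.e (nat_lit 1181) (nat_lit 87) (.e (nat_lit 57479) (nat_lit 28) (.e (nat_lit 557103) (nat_lit 14) (.e (nat_lit 180250) (nat_lit 10) (.e (nat_lit 573484) (nat_lit 13) (.e (nat_lit 65569) (nat_lit 3) (.e (nat_lit 98334) (nat_lit 18) (.e (nat_lit 164164) (nat_lit 152) .nil)))))))) (.g (nat_lit 5) .nil .nil)))) (.nd (nat_lit 5) 
(.lf (nat_lit 19740) (.g (nat_lit 2319) (.e (nat_lit 1181) (nat_lit 87) (.e (nat_lit 57479) (nat_lit 28) (.e (nat_lit 557101) (nat_lit 13) (.e (nat_lit 172115) (nat_lit 10) (.e (nat_lit 434231) (nat_lit 23) (.e (nat_lit 532555) (nat_lit 13) (.e (nat_lit 368662) (nat_lit 18) (.e (nat_lit 5905) (nat_lit 320) .nil)))))))) (.g (nat_lit 4) .nil .nil))) 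
(.lf (nat_lit 19772) (.g (nat_lit 2324) (.e (nat_lit 1181) (nat_lit 87) (.e (nat_lit 57479) (nat_lit 28) (.e (nat_lit 557105) (nat_lit 14) (.e (nat_lit 180251) (nat_lit 10) (.e (nat_lit 573479) (nat_lit 13) (.e (nat_lit 65571) (nat_lit 3) (.e (nat_lit 98334) (nat_lit 18) (.e (nat_lit 164164) (nat_lit 152) .nil)))))))) (.g (nat_lit 4) .nil .nil))))))) 
(.nd (nat_lit 2) (.nd (nat_lit 3) (.nd (nat_lit 4) (.nd (nat_lit 5) 
(.lf (nat_lit 19714) (.g (nat_lit 4867) (.e (nat_lit 1181) (nat_lit 87) (.e (nat_lit 57479) (nat_lit 28) (.e (nat_lit 557101) (nat_lit 13) (.e (nat_lit 172115) (nat_lit 10) (.e (nat_lit 434231) (nat_lit 23) (.e (nat_lit 532535) (nat_lit 9) (.e (nat_lit 335985) (nat_lit 1) (.e (nat_lit 57870) (nat_lit 264) .nil)))))))) (.g (nat_lit 0) .nil .nil))) 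
(.lf (nat_lit 19746) (.g (nat_lit 3144) (.e (nat_lit 1181) (nat_lit 87) (.e (nat_lit 57479) (nat_lit 28) (.e (nat_lit 557101) (nat_lit 13) (.e (nat_lit 172115) (nat_lit 10) (.e (nat_lit 434244) (nat_lit 28) (.e (nat_lit 573449) (nat_lit 9) (.e (nat_lit 452) (nat_lit 33) (.e (nat_lit 434209) (nat_lit 18) (.e (nat_lit 4607) (nat_lit 269) .nil))))))))) (.g (nat_lit 5) .nil .nil)))) (.nd (nat_lit 5) 
(.lf (nat_lit 19730) (.g (nat_lit 3144) (.e (nat_lit 1181) (nat_lit 87) (.e (nat_lit 57479) (nat_lit 28) (.e (nat_lit 557101) (nat_lit 13) (.e (nat_lit 172115) (nat_lit 10) (.e (nat_lit 434231) (nat_lit 23) (.e (nat_lit 532545) (nat_lit 10) (.e (nat_lit 344097) (nat_lit 18) (.e (nat_lit 5906) (nat_lit 320) .nil)))))))) (.g (nat_lit 5) .nil .nil))) 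
(.lf (nat_lit 19762) (.g (nat_lit 2729) (.e (nat_lit 1181) (nat_lit 87) (.e (nat_lit 57479) (nat_lit 28) (.e (nat_lit 557103) (nat_lit 14) (.e (nat_lit 180250) (nat_lit 10) (.e (nat_lit 573487) (nat_lit 14) (.e (nat_lit 73746) (nat_lit 3) (.e (nat_lit 516117) (nat_lit 1) (.e (nat_lit 164167) (nat_lit 152) .nil)))))))) (.g (nat_lit 4) .nil .nil))))) (.nd (nat_lit 4) (.nd (nat_lit 5) 
(.lf (nat_lit 19722) (.g (nat_lit 3621) (.e (nat_lit 1181) (nat_lit 87) (.e (nat_lit 57479) (nat_lit 28) (.e (nat_lit 557101) (nat_lit 13) (.e (nat_lit 172115) (nat_lit 10) (.e (nat_lit 434231) (nat_lit 23) (.e (nat_lit 532536) (nat_lit 9) (.e (nat_lit 335997) (nat_lit 1) (.e (nat_lit 57872) (nat_lit 264) .nil)))))))) (.g (nat_lit 5) .nil .nil))) 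
(.lf (nat_lit 19754) (.g (nat_lit 3126) (.e (nat_lit 1181) (nat_lit 87) (.e (nat_lit 57479) (nat_lit 28) (.e (nat_lit 557103) (nat_lit 14) (.e (nat_lit 180250) (nat_lit 10) (.e (nat_lit 573482) (nat_lit 13) (.e (nat_lit 65569) (nat_lit 3) (.e (nat_lit 98334) (nat_lit 18) (.e (nat_lit 164164) (nat_lit 152) .nil)))))))) (.g (nat_lit 5) .nil .nil)))) (.nd (nat_lit 5) 
(.lf (nat_lit 19738) (.g (nat_lit 3585) (.e (nat_lit 1181) (nat_lit 87) (.e (nat_lit 57479) (nat_lit 28) (.e (nat_lit 557101) (nat_lit 13) (.e (nat_lit 172115) (nat_lit 10) (.e (nat_lit 434231) (nat_lit 23) (.e (nat_lit 532554) (nat_lit 13) (.e (nat_lit 368662) (nat_lit 18) (.e (nat_lit 5905) (nat_lit 320) .nil)))))))) (.g (nat_lit 5) .nil .nil))) 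
(.lf (nat_lit 19770) (.g (nat_lit 2405) (.e (nat_lit 1181) (nat_lit 87) (.e (nat_lit 57479) (nat_lit 28) (.e (nat_lit 557103) (nat_lit 14) (.e (nat_lit 180285) (nat_lit 45) .nil)))) .nil))))) (.nd (nat_lit 3) (.nd (nat_lit 4) (.nd (nat_lit 5) 
(.lf (nat_lit 19718) (.g (nat_lit 5186) (.e (nat_lit 1181) (nat_lit 87) (.e (nat_lit 57479) (nat_lit 28) (.e (nat_lit 557101) (nat_lit 13) (.e (nat_lit 172115) (nat_lit 10) (.e (nat_lit 434231) (nat_lit 23) (.e (nat_lit 532535) (nat_lit 9) (.e (nat_lit 335992) (nat_lit 1) (.e (nat_lit 57873) (nat_lit 264) .nil)))))))) (.g (nat_lit 6) .nil .nil))) 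
(.lf (nat_lit 19750) (.g (nat_lit 3976) (.e (nat_lit 1181) (nat_lit 87) (.e (nat_lit 57479) (nat_lit 28) (.e (nat_lit 557101) (nat_lit 13) (.e (nat_lit 172115) (nat_lit 10) (.e (nat_lit 434244) (nat_lit 28) (.e (nat_lit 573471) (nat_lit 11) (.e (nat_lit 16405) (nat_lit 1) (.e (nat_lit 164422) (nat_lit 272) .nil)))))))) (.g (nat_lit 6) .nil .nil)))) (.nd (nat_lit 5) 
(.lf (nat_lit 19734) (.g (nat_lit 2529) (.e (nat_lit 1181) (nat_lit 87) (.e (nat_lit 57479) (nat_lit 28) (.e (nat_lit 557101) (nat_lit 13) (.e (nat_lit 172115) (nat_lit 10) (.e (nat_lit 434231) (nat_lit 23) (.e (nat_lit 532553) (nat_lit 13) (.e (nat_lit 368662) (nat_lit 18) (.e (nat_lit 5905) (nat_lit 320) .nil)))))))) (.g (nat_lit 4) .nil .nil))) 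
(.lf (nat_lit 19766) (.g (nat_lit 2710) (.e (nat_lit 1181) (nat_lit 87) (.e (nat_lit 57479) (nat_lit 28) (.e (nat_lit 557103) (nat_lit 14) (.e (nat_lit 180250) (nat_lit 10) (.e (nat_lit 573487) (nat_lit 14) (.e (nat_lit 73747) (nat_lit 3) (.e (nat_lit 516117) (nat_lit 1) (.e (nat_lit 164164) (nat_lit 152) .nil)))))))) (.g (nat_lit 4) .nil .nil))))) (.nd (nat_lit 4) (.nd (nat_lit 5) 
(.lf (nat_lit 19726) (.g (nat_lit 4034) (.e (nat_lit 1181) (nat_lit 87) (.e (nat_lit 57479) (nat_lit 28) (.e (nat_lit 557101) (nat_lit 13) (.e (nat_lit 172115) (nat_lit 10) (.e (nat_lit 434231) (nat_lit 23) (.e (nat_lit 532543) (nat_lit 10) (.e (nat_lit 344090) (nat_lit 18) (.e (nat_lit 5896) (nat_lit 320) .nil)))))))) (.g (nat_lit 6) .nil .nil))) 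
(.lf (nat_lit 19758) (.g (nat_lit 2818) (.e (nat_lit 1181) (nat_lit 87) (.e (nat_lit 57479) (nat_lit 28) (.e (nat_lit 557103) (nat_lit 14) (.e (nat_lit 180250) (nat_lit 10) (.e (nat_lit 573485) (nat_lit 13) (.e (nat_lit 65569) (nat_lit 3) (.e (nat_lit 98334) (nat_lit 18) (.e (nat_lit 164164) (nat_lit 152) .nil)))))))) (.g (nat_lit 4) .nil .nil)))) (.nd (nat_lit 5) 
(.lf (nat_lit 19742) (.g (nat_lit 4358) (.e (nat_lit 1181) (nat_lit 87) (.e (nat_lit 57479) (nat_lit 28) (.e (nat_lit 557101) (nat_lit 13) (.e (nat_lit 172115) (nat_lit 10) (.e (nat_lit 434231) (nat_lit 23) (.e (nat_lit 532555) (nat_lit 13) (.e (nat_lit 368662) (nat_lit 18) (.e (nat_lit 5907) (nat_lit 320) .nil)))))))) (.g (nat_lit 6) .nil .nil))) 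
(.lf (nat_lit 19774) (.g (nat_lit 2970) (.e (nat_lit 1181) (nat_lit 87) (.e (nat_lit 57479) (nat_lit 28) (.e (nat_lit 557105) (nat_lit 14) (.e (nat_lit 180251) (nat_lit 10) (.e (nat_lit 573484) (nat_lit 13) (.e (nat_lit 65569) (nat_lit 3) (.e (nat_lit 98334) (nat_lit 18) (.e (nat_lit 164165) (nat_lit 152) .nil)))))))) (.g (nat_lit 4) .nil .nil)))))))) 
(.nd (nat_lit 1) (.nd (nat_lit 2) (.nd (nat_lit 3) (.nd (nat_lit 4) (.nd (nat_lit 5) 
(.lf (nat_lit 19713) (.g (nat_lit 2666) (.e (nat_lit 1181) (nat_lit 87) (.e (nat_lit 57479) (nat_lit 28) (.e (nat_lit 557101) (nat_lit 13) (.e (nat_lit 172115) (nat_lit 10) (.e (nat_lit 434231) (nat_lit 23) (.e (nat_lit 532535) (nat_lit 9) (.e (nat_lit 335928) (nat_lit 0) (.e (nat_lit 1023) (nat_lit 81) (.e (nat_lit 5907) (nat_lit 320) .nil))))))))) (.g (nat_lit 4) .nil .nil))) 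
(.lf (nat_lit 19745) (.g (nat_lit 3243) (.e (nat_lit 1181) (nat_lit 87) (.e (nat_lit 57479) (nat_lit 28) (.e (nat_lit 557101) (nat_lit 13) (.e (nat_lit 172115) (nat_lit 10) (.e (nat_lit 434244) (nat_lit 28) (.e (nat_lit 573449) (nat_lit 9) (.e (nat_lit 452) (nat_lit 33) (.e (nat_lit 434202) (nat_lit 18) (.e (nat_lit 4598) (nat_lit 269) .nil))))))))) (.g (nat_lit 5) .nil .nil)))) (.nd (nat_lit 5) 
(.lf (nat_lit 19729) (.g (nat_lit 4444) (.e (nat_lit 1181) (nat_lit 87) (.e (nat_lit 57479) (nat_lit 28) (.e (nat_lit 557101) (nat_lit 13) (.e (nat_lit 172115) (nat_lit 10) (.e (nat_lit 434231) (nat_lit 23) (.e (nat_lit 532544) (nat_lit 10) (.e (nat_lit 344097) (nat_lit 18) (.e (nat_lit 5905) (nat_lit 320) .nil)))))))) (.g (nat_lit 6) .nil .nil))) 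
(.lf (nat_lit 19761) (.g (nat_lit 4132) (.e (nat_lit 1181) (nat_lit 87) (.e (nat_lit 57479) (nat_lit 28) (.e (nat_lit 557103) (nat_lit 14) (.e (nat_lit 180250) (nat_lit 10) (.e (nat_lit 573487) (nat_lit 14) (.e (nat_lit 73746) (nat_lit 3) (.e (nat_lit 516117) (nat_lit 1) (.e (nat_lit 164166) (nat_lit 152) .nil)))))))) (.g (nat_lit 5) .nil .nil))))) (.nd (nat_lit 4) (.nd (nat_lit 5) 
(.lf (nat_lit 19721) (.g (nat_lit 3038) (.e (nat_lit 1181) (nat_lit 87) (.e (nat_lit 57479) (nat_lit 28) (.e (nat_lit 557101) (nat_lit 13) (.e (nat_lit 172115) (nat_lit 10) (.e (nat_lit 434231) (nat_lit 23) (.e (nat_lit 532536) (nat_lit 9) (.e (nat_lit 335997) (nat_lit 1) (.e (nat_lit 57871) (nat_lit 264) .nil)))))))) (.g (nat_lit 5) .nil .nil))) 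
(.lf (nat_lit 19753) (.g (nat_lit 3238) (.e (nat_lit 1181) (nat_lit 87) (.e (nat_lit 57479) (nat_lit 28) (.e (nat_lit 557101) (nat_lit 13) (.e (nat_lit 172115) (nat_lit 10) (.e (nat_lit 434244) (nat_lit 28) (.e (nat_lit 573471) (nat_lit 11) (.e (nat_lit 16406) (nat_lit 1) (.e (nat_lit 164421) (nat_lit 272) .nil)))))))) (.g (nat_lit 5) .nil .nil)))) (.nd (nat_lit 5) 
(.lf (nat_lit 19737) (.g (nat_lit 3211) (.e (nat_lit 1181) (nat_lit 87) (.e (nat_lit 57479) (nat_lit 28) (.e (nat_lit 557101) (nat_lit 13) (.e (nat_lit 172115) (nat_lit 10) (.e (nat_lit 434231) (nat_lit 23) (.e (nat_lit 532554) (nat_lit 13) (.e (nat_lit 368662) (nat_lit 18) (.e (nat_lit 5902) (nat_lit 320) .nil)))))))) (.g (nat_lit 5) .nil .nil))) 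
(.lf (nat_lit 19769) (.g (nat_lit 2832) (.e (nat_lit 1181) (nat_lit 87) (.e (nat_lit 57479) (nat_lit 28) (.e (nat_lit 557103) (nat_lit 14) (.e (nat_lit 180250) (nat_lit 10) (.e (nat_lit 573487) (nat_lit 14) (.e (nat_lit 73747) (nat_lit 3) (.e (nat_lit 516119) (nat_lit 1) (.e (nat_lit 164164) (nat_lit 152) .nil)))))))) (.g (nat_lit 4) .nil .nil)))))) 
(.nd (nat_lit 3) (.nd (nat_lit 4) (.nd (nat_lit 5) 
(.lf (nat_lit 19717) (.g (nat_lit 4849) (.e (nat_lit 1181) (nat_lit 87) (.e (nat_lit 57479) (nat_lit 28) (.e (nat_lit 557101) (nat_lit 13) (.e (nat_lit 172115) (nat_lit 10) (.e (nat_lit 434231) (nat_lit 23) (.e (nat_lit 532535) (nat_lit 9) (.e (nat_lit 335992) (nat_lit 1) (.e (nat_lit 57872) (nat_lit 264) .nil)))))))) (.g (nat_lit 6) .nil .nil))) 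
(.lf (nat_lit 19749) (.g (nat_lit 4147) (.e (nat_lit 1181) (nat_lit 87) (.e (nat_lit 57479) (nat_lit 28) (.e (nat_lit 557101) (nat_lit 13) (.e (nat_lit 172115) (nat_lit 10) (.e (nat_lit 434244) (nat_lit 28) (.e (nat_lit 573450) (nat_lit 9) (.e (nat_lit 452) (nat_lit 33) (.e (nat_lit 434209) (nat_lit 18) (.e (nat_lit 4606) (nat_lit 269) .nil))))))))) (.g (nat_lit 6) .nil .nil)))) (.nd (nat_lit 5) 
(.lf (nat_lit 19733) (.g (nat_lit 2278) (.e (nat_lit 1181) (nat_lit 87) (.e (nat_lit 57479) (nat_lit 28) (.e (nat_lit 557101) (nat_lit 13) (.e (nat_lit 172115) (nat_lit 10) (.e (nat_lit 434231) (nat_lit 23) (.e (nat_lit 532553) (nat_lit 13) (.e (nat_lit 368662) (nat_lit 18) (.e (nat_lit 5902) (nat_lit 320) .nil)))))))) (.g (nat_lit 4) .nil .nil))) 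
(.lf (nat_lit 19765) (.g (nat_lit 4116) (.e (nat_lit 1181) (nat_lit 87) (.e (nat_lit 57479) (nat_lit 28) (.e (nat_lit 557103) (nat_lit 14) (.e (nat_lit 180250) (nat_lit 10) (.e (nat_lit 573487) (nat_lit 14) (.e (nat_lit 73746) (nat_lit 3) (.e (nat_lit 516120) (nat_lit 1) (.e (nat_lit 164166) (nat_lit 152) .nil)))))))) (.g (nat_lit 5) .nil .nil))))) (.nd (nat_lit 4) (.nd (nat_lit 5) 
(.lf (nat_lit 19725) (.g (nat_lit 2781) (.e (nat_lit 1181) (nat_lit 87) (.e (nat_lit 57479) (nat_lit 28) (.e (nat_lit 557101) (nat_lit 13) (.e (nat_lit 172115) (nat_lit 10) (.e (nat_lit 434231) (nat_lit 23) (.e (nat_lit 540416) (nat_lit 9) (.e (nat_lit 335995) (nat_lit 1) (.e (nat_lit 57872) (nat_lit 264) .nil)))))))) (.g (nat_lit 5) .nil .nil))) 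
(.lf (nat_lit 19757) (.g (nat_lit 3400) (.e (nat_lit 1181) (nat_lit 87) (.e (nat_lit 57479) (nat_lit 28) (.e (nat_lit 557103) (nat_lit 14) (.e (nat_lit 180250) (nat_lit 10) (.e (nat_lit 573484) (nat_lit 13) (.e (nat_lit 65569) (nat_lit 3) (.e (nat_lit 98334) (nat_lit 18) (.e (nat_lit 164166) (nat_lit 152) .nil)))))))) (.g (nat_lit 5) .nil .nil)))) (.nd (nat_lit 5) 
(.lf (nat_lit 19741) (.g (nat_lit 3944) (.e (nat_lit 1181) (nat_lit 87) (.e (nat_lit 57479) (nat_lit 28) (.e (nat_lit 557101) (nat_lit 13) (.e (nat_lit 172115) (nat_lit 10) (.e (nat_lit 434231) (nat_lit 23) (.e (nat_lit 532555) (nat_lit 13) (.e (nat_lit 368662) (nat_lit 18) (.e (nat_lit 5906) (nat_lit 320) .nil)))))))) (.g (nat_lit 6) .nil .nil))) 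
(.lf (nat_lit 19773) (.g (nat_lit 4996) (.e (nat_lit 1181) (nat_lit 87) (.e (nat_lit 57479) (nat_lit 28) (.e (nat_lit 557105) (nat_lit 14) (.e (nat_lit 180251) (nat_lit 10) (.e (nat_lit 573484) (nat_lit 13) (.e (nat_lit 65569) (nat_lit 3) (.e (nat_lit 98334) (nat_lit 18) (.e (nat_lit 164164) (nat_lit 152) .nil)))))))) (.g (nat_lit 6) .nil .nil))))))) 
(.nd (nat_lit 2) (.nd (nat_lit 3) (.nd (nat_lit 4) (.nd (nat_lit 5) 
(.lf (nat_lit 19715) (.g (nat_lit 4387) (.e (nat_lit 1181) (nat_lit 87) (.e (nat_lit 57479) (nat_lit 28) (.e (nat_lit 557101) (nat_lit 13) (.e (nat_lit 172115) (nat_lit 10) (.e (nat_lit 434231) (nat_lit 23) (.e (nat_lit 532535) (nat_lit 9) (.e (nat_lit 335985) (nat_lit 1) (.e (nat_lit 57871) (nat_lit 264) .nil)))))))) (.g (nat_lit 6) .nil .nil))) 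
(.lf (nat_lit 19747) (.g (nat_lit 4534) (.e (nat_lit 1181) (nat_lit 87) (.e (nat_lit 57479) (nat_lit 28) (.e (nat_lit 557101) (nat_lit 13) (.e (nat_lit 172115) (nat_lit 10) (.e (nat_lit 434244) (nat_lit 28) (.e (nat_lit 573450) (nat_lit 9) (.e (nat_lit 375) (nat_lit 32) (.e (nat_lit 426109) (nat_lit 1) (.e (nat_lit 164423) (nat_lit 272) .nil))))))))) (.g (nat_lit 7) .nil .nil)))) (.nd (nat_lit 5) 
(.lf (nat_lit 19731) (.g (nat_lit 3791) (.e (nat_lit 1181) (nat_lit 87) (.e (nat_lit 57479) (nat_lit 28) (.e (nat_lit 557101) (nat_lit 13) (.e (nat_lit 172115) (nat_lit 10) (.e (nat_lit 434231) (nat_lit 23) (.e (nat_lit 532545) (nat_lit 10) (.e (nat_lit 344097) (nat_lit 18) (.e (nat_lit 5907) (nat_lit 320) .nil)))))))) (.g (nat_lit 5) .nil .nil))) 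
(.lf (nat_lit 19763) (.g (nat_lit 2694) (.e (nat_lit 1181) (nat_lit 87) (.e (nat_lit 57479) (nat_lit 28) (.e (nat_lit 557103) (nat_lit 14) (.e (nat_lit 180250) (nat_lit 10) (.e (nat_lit 573487) (nat_lit 14) (.e (nat_lit 73746) (nat_lit 3) (.e (nat_lit 516119) (nat_lit 1) (.e (nat_lit 164147) (nat_lit 152) .nil)))))))) (.g (nat_lit 4) .nil .nil))))) (.nd (nat_lit 4) (.nd (nat_lit 5) 
(.lf (nat_lit 19723) (.g (nat_lit 2541) (.e (nat_lit 1181) (nat_lit 87) (.e (nat_lit 57479) (nat_lit 28) (.e (nat_lit 557101) (nat_lit 13) (.e (nat_lit 172115) (nat_lit 10) (.e (nat_lit 434231) (nat_lit 23) (.e (nat_lit 532537) (nat_lit 9) (.e (nat_lit 335997) (nat_lit 1) (.e (nat_lit 57871) (nat_lit 264) .nil)))))))) (.g (nat_lit 4) .nil .nil))) 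
(.lf (nat_lit 19755) (.g (nat_lit 2673) (.e (nat_lit 1181) (nat_lit 87) (.e (nat_lit 57479) (nat_lit 28) (.e (nat_lit 557103) (nat_lit 14) (.e (nat_lit 180250) (nat_lit 10) (.e (nat_lit 573482) (nat_lit 13) (.e (nat_lit 65569) (nat_lit 3) (.e (nat_lit 98334) (nat_lit 18) (.e (nat_lit 164166) (nat_lit 152) .nil)))))))) (.g (nat_lit 4) .nil .nil)))) (.nd (nat_lit 5) 
(.lf (nat_lit 19739) (.g (nat_lit 5326) (.e (nat_lit 1181) (nat_lit 87) (.e (nat_lit 57479) (nat_lit 28) (.e (nat_lit 557101) (nat_lit 13) (.e (nat_lit 172115) (nat_lit 10) (.e (nat_lit 434231) (nat_lit 23) (.e (nat_lit 532554) (nat_lit 13) (.e (nat_lit 368662) (nat_lit 18) (.e (nat_lit 5906) (nat_lit 320) .nil)))))))) (.g (nat_lit 8) .nil .nil))) 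
(.lf (nat_lit 19771) (.g (nat_lit 2515) (.e (nat_lit 1181) (nat_lit 87) (.e (nat_lit 57479) (nat_lit 28) (.e (nat_lit 557105) (nat_lit 14) (.e (nat_lit 180251) (nat_lit 10) (.e (nat_lit 573479) (nat_lit 13) (.e (nat_lit 65569) (nat_lit 3) (.e (nat_lit 98334) (nat_lit 18) (.e (nat_lit 164164) (nat_lit 152) .nil)))))))) (.g (nat_lit 4) .nil .nil)))))) 
(.nd (nat_lit 3) (.nd (nat_lit 4) (.nd (nat_lit 5) 
(.lf (nat_lit 19719) (.g (nat_lit 2379) (.e (nat_lit 1181) (nat_lit 87) (.e (nat_lit 57479) (nat_lit 28) (.e (nat_lit 557101) (nat_lit 13) (.e (nat_lit 172115) (nat_lit 10) (.e (nat_lit 434231) (nat_lit 23) (.e (nat_lit 532535) (nat_lit 9) (.e (nat_lit 343808) (nat_lit 1) (.e (nat_lit 57873) (nat_lit 264) .nil)))))))) (.g (nat_lit 4) .nil .nil))) 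
(.lf (nat_lit 19751) (.g (nat_lit 4046) (.e (nat_lit 1181) (nat_lit 87) (.e (nat_lit 57479) (nat_lit 28) (.e (nat_lit 557101) (nat_lit 13) (.e (nat_lit 172115) (nat_lit 10) (.e (nat_lit 434244) (nat_lit 28) (.e (nat_lit 573471) (nat_lit 11) (.e (nat_lit 16405) (nat_lit 1) (.e (nat_lit 164423) (nat_lit 272) .nil)))))))) (.g (nat_lit 6) .nil .nil)))) (.nd (nat_lit 5) 
(.lf (nat_lit 19735) (.g (nat_lit 4207) (.e (nat_lit 1181) (nat_lit 87) (.e (nat_lit 57479) (nat_lit 28) (.e (nat_lit 557101) (nat_lit 13) (.e (nat_lit 172115) (nat_lit 10) (.e (nat_lit 434231) (nat_lit 23) (.e (nat_lit 532553) (nat_lit 13) (.e (nat_lit 368662) (nat_lit 18) (.e (nat_lit 5906) (nat_lit 320) .nil)))))))) (.g (nat_lit 6) .nil .nil))) 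
(.lf (nat_lit 19767) (.g (nat_lit 2788) (.e (nat_lit 1181) (nat_lit 87) (.e (nat_lit 57479) (nat_lit 28) (.e (nat_lit 557103) (nat_lit 14) (.e (nat_lit 180250) (nat_lit 10) (.e (nat_lit 573487) (nat_lit 14) (.e (nat_lit 73747) (nat_lit 3) (.e (nat_lit 516119) (nat_lit 1) (.e (nat_lit 164147) (nat_lit 152) .nil)))))))) (.g (nat_lit 4) .nil .nil))))) (.nd (nat_lit 4) (.nd (nat_lit 5) 
(.lf (nat_lit 19727) (.g (nat_lit 4210) (.e (nat_lit 1181) (nat_lit 87) (.e (nat_lit 57479) (nat_lit 28) (.e (nat_lit 557101) (nat_lit 13) (.e (nat_lit 172115) (nat_lit 10) (.e (nat_lit 434231) (nat_lit 23) (.e (nat_lit 532543) (nat_lit 10) (.e (nat_lit 344097) (nat_lit 18) (.e (nat_lit 5905) (nat_lit 320) .nil)))))))) (.g (nat_lit 6) .nil .nil))) 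
(.lf (nat_lit 19759) (.g (nat_lit 2765) (.e (nat_lit 1181) (nat_lit 87) (.e (nat_lit 57479) (nat_lit 28) (.e (nat_lit 557103) (nat_lit 14) (.e (nat_lit 180250) (nat_lit 10) (.e (nat_lit 573487) (nat_lit 14) (.e (nat_lit 73746) (nat_lit 3) (.e (nat_lit 516117) (nat_lit 1) (.e (nat_lit 164147) (nat_lit 152) .nil)))))))) (.g (nat_lit 4) .nil .nil)))) (.nd (nat_lit 5) 
(.lf (nat_lit 19743) (.g (nat_lit 3062) (.e (nat_lit 1181) (nat_lit 87) (.e (nat_lit 57479) (nat_lit 28) (.e (nat_lit 557101) (nat_lit 13) (.e (nat_lit 172115) (nat_lit 10) (.e (nat_lit 434238) (nat_lit 25) (.e (nat_lit 548898) (nat_lit 14) (.e (nat_lit 2964) (nat_lit 185) (.e (nat_lit 434202) (nat_lit 18) (.e (nat_lit 4598) (nat_lit 269) .nil))))))))) (.g (nat_lit 5) .nil .nil))) 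
(.lf (nat_lit 19775) (.g (nat_lit 4546) (.e (nat_lit 1181) (nat_lit 87) (.e (nat_lit 57479) (nat_lit 28) (.e (nat_lit 557105) (nat_lit 14) (.e (nat_lit 180251) (nat_lit 10) (.e (nat_lit 573484) (nat_lit 13) (.e (nat_lit 65569) (nat_lit 3) (.e (nat_lit 98334) (nat_lit 18) (.e (nat_lit 164166) (nat_lit 152) .nil)))))))) (.g (nat_lit 5) .nil .nil)))))))))

noncomputable def tv274 : DT := (.nd (nat_lit 0) (.nd (nat_lit 1) (.nd (nat_lit 2) (.nd (nat_lit 3) (.nd (nat_lit 4) (.nd (nat_lit 5) 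
(.lf (nat_lit 19776) (.g (nat_lit 2936) (.e (nat_lit 1181) (nat_lit 87) (.e (nat_lit 57479) (nat_lit 28) (.e (nat_lit 557105) (nat_lit 14) (.e (nat_lit 180251) (nat_lit 10) (.e (nat_lit 573484) (nat_lit 13) (.e (nat_lit 65569) (nat_lit 3) (.e (nat_lit 98334) (nat_lit 18) (.e (nat_lit 164167) (nat_lit 152) .nil)))))))) (.g (nat_lit 4) .nil .nil))) 
(.lf (nat_lit 19808) (.g (nat_lit 3004) (.e (nat_lit 1181) (nat_lit 87) (.e (nat_lit 57479) (nat_lit 28) (.e (nat_lit 557105) (nat_lit 14) (.e (nat_lit 180252) (nat_lit 10) (.e (nat_lit 573481) (nat_lit 13) (.e (nat_lit 65570) (nat_lit 3) (.e (nat_lit 98325) (nat_lit 17) (.e (nat_lit 2478) (nat_lit 157) (.e (nat_lit 6314) (nat_lit 337) .nil))))))))) (.g (nat_lit 4) .nil .nil)))) (.nd (nat_lit 5) 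
(.lf (nat_lit 19792) (.g (nat_lit 3123) (.e (nat_lit 1181) (nat_lit 87) (.e (nat_lit 57479) (nat_lit 28) (.e (nat_lit 557105) (nat_lit 14) (.e (nat_lit 180251) (nat_lit 10) (.e (nat_lit 573487) (nat_lit 14) (.e (nat_lit 73746) (nat_lit 3) (.e (nat_lit 516119) (nat_lit 1) (.e (nat_lit 164147) (nat_lit 152) .nil)))))))) (.g (nat_lit 4) .nil .nil))) 
(.lf (nat_lit 19824) (.g (nat_lit 3171) (.e (nat_lit 1181) (nat_lit 87) (.e (nat_lit 57479) (nat_lit 28) (.e (nat_lit 557105) (nat_lit 14) (.e (nat_lit 180252) (nat_lit 10) (.e (nat_lit 573482) (nat_lit 13) (.e (nat_lit 65566) (nat_lit 2) (.e (nat_lit 90165) (nat_lit 12) (.e (nat_lit 163853) (nat_lit 0) (.e (nat_lit 6315) (nat_lit 337) .nil))))))))) (.g (nat_lit 4) .nil .nil))))) 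
(.nd (nat_lit 4) (.nd (nat_lit 5) 
(.lf (nat_lit 19784) (.g (nat_lit 3538) (.e (nat_lit 1181) (nat_lit 87) (.e (nat_lit 57479) (nat_lit 28) (.e (nat_lit 557105) (nat_lit 14) (.e (nat_lit 180251) (nat_lit 10) (.e (nat_lit 573485) (nat_lit 13) (.e (nat_lit 65570) (nat_lit 3) (.e (nat_lit 98334) (nat_lit 18) (.e (nat_lit 164164) (nat_lit 152) .nil)))))))) (.g (nat_lit 5) .nil .nil))) 
(.lf (nat_lit 19816) (.g (nat_lit 3699) (.e (nat_lit 1181) (nat_lit 87) (.e (nat_lit 57479) (nat_lit 28) (.e (nat_lit 557105) (nat_lit 14) (.e (nat_lit 180252) (nat_lit 10) (.e (nat_lit 573481) (nat_lit 13) (.e (nat_lit 65571) (nat_lit 3) (.e (nat_lit 98325) (nat_lit 17) (.e (nat_lit 2478) (nat_lit 157) (.e (nat_lit 6314) (nat_lit 337) .nil))))))))) (.g (nat_lit 4) .nil .nil)))) (.nd (nat_lit 5) 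
(.lf (nat_lit 19800) (.g (nat_lit 2605) (.e (nat_lit 1181) (nat_lit 87) (.e (nat_lit 57479) (nat_lit 28) (.e (nat_lit 557105) (nat_lit 14) (.e (nat_lit 180252) (nat_lit 10) (.e (nat_lit 573480) (nat_lit 13) (.e (nat_lit 65569) (nat_lit 3) (.e (nat_lit 98334) (nat_lit 18) (.e (nat_lit 164166) (nat_lit 152) .nil)))))))) (.g (nat_lit 4) .nil .nil))) 
(.lf (nat_lit 19832) (.g (nat_lit 3206) (.e (nat_lit 1181) (nat_lit 87) (.e (nat_lit 57479) (nat_lit 28) (.e (nat_lit 557105) (nat_lit 14) (.e (nat_lit 180252) (nat_lit 10) (.e (nat_lit 573482) (nat_lit 13) (.e (nat_lit 65569) (nat_lit 3) (.e (nat_lit 98334) (nat_lit 18) (.e (nat_lit 164165) (nat_lit 152) .nil)))))))) (.g (nat_lit 4) .nil .nil)))))) 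
(.nd (nat_lit 3) (.nd (nat_lit 4) (.nd (nat_lit 5) 
(.lf (nat_lit 19780) (.g (nat_lit 4016) (.e (nat_lit 1181) (nat_lit 87) (.e (nat_lit 57479) (nat_lit 28) (.e (nat_lit 557105) (nat_lit 14) (.e (nat_lit 180251) (nat_lit 10) (.e (nat_lit 573485) (nat_lit 13) (.e (nat_lit 65569) (nat_lit 3) (.e (nat_lit 98334) (nat_lit 18) (.e (nat_lit 164164) (nat_lit 152) .nil)))))))) (.g (nat_lit 6) .nil .nil))) 
(.lf (nat_lit 19812) (.g (nat_lit 4089) (.e (nat_lit 1181) (nat_lit 87) (.e (nat_lit 57479) (nat_lit 28) (.e (nat_lit 557105) (nat_lit 14) (.e (nat_lit 180252) (nat_lit 10) (.e (nat_lit 573481) (nat_lit 13) (.e (nat_lit 65570) (nat_lit 3) (.e (nat_lit 98334) (nat_lit 18) (.e (nat_lit 164166) (nat_lit 152) .nil)))))))) (.g (nat_lit 5) .nil .nil)))) (.nd (nat_lit 5) 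
(.lf (nat_lit 19796) (.g (nat_lit 3052) (.e (nat_lit 1181) (nat_lit 87) (.e (nat_lit 57479) (nat_lit 28) (.e (nat_lit 557105) (nat_lit 14) (.e (nat_lit 180252) (nat_lit 10) (.e (nat_lit 573451) (nat_lit 9) (.e (nat_lit 1449) (nat_lit 108) (.e (nat_lit 336013) (nat_lit 2) (.e (nat_lit 90165) (nat_lit 12) (.e (nat_lit 163853) (nat_lit 0) (.e (nat_lit 6312) (nat_lit 337) .nil)))))))))) (.g (nat_lit 4) .nil .nil))) 
(.lf (nat_lit 19828) (.g (nat_lit 3116) (.e (nat_lit 1181) (nat_lit 87) (.e (nat_lit 57479) (nat_lit 28) (.e (nat_lit 557105) (nat_lit 14) (.e (nat_lit 180252) (nat_lit 10) (.e (nat_lit 573482) (nat_lit 13) (.e (nat_lit 65569) (nat_lit 3) (.e (nat_lit 98325) (nat_lit 17) (.e (nat_lit 2458) (nat_lit 157) (.e (nat_lit 6313) (nat_lit 337) .nil))))))))) (.g (nat_lit 4) .nil .nil))))) 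
(.nd (nat_lit 4) (.nd (nat_lit 5) 
(.lf (nat_lit 19788) (.g (nat_lit 3296) (.e (nat_lit 1181) (nat_lit 87) (.e (nat_lit 57479) (nat_lit 28) (.e (nat_lit 557105) (nat_lit 14) (.e (nat_lit 180251) (nat_lit 10) (.e (nat_lit 573487) (nat_lit 14) (.e (nat_lit 73746) (nat_lit 3) (.e (nat_lit 516117) (nat_lit 1) (.e (nat_lit 164147) (nat_lit 152) .nil)))))))) (.g (nat_lit 4) .nil .nil))) 
(.lf (nat_lit 19820) (.g (nat_lit 4547) (.e (nat_lit 1181) (nat_lit 87) (.e (nat_lit 57479) (nat_lit 28) (.e (nat_lit 557105) (nat_lit 14) (.e (nat_lit 180252) (nat_lit 10) (.e (nat_lit 573481) (nat_lit 13) (.e (nat_lit 65571) (nat_lit 3) (.e (nat_lit 98334) (nat_lit 18) (.e (nat_lit 164164) (nat_lit 152) .nil)))))))) (.g (nat_lit 6) .nil .nil)))) (.nd (nat_lit 5) 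
(.lf (nat_lit 19804) (.g (nat_lit 3351) (.e (nat_lit 1181) (nat_lit 87) (.e (nat_lit 57479) (nat_lit 28) (.e (nat_lit 557105) (nat_lit 14) (.e (nat_lit 180252) (nat_lit 10) (.e (nat_lit 573481) (nat_lit 13) (.e (nat_lit 65568) (nat_lit 2) (.e (nat_lit 90165) (nat_lit 12) (.e (nat_lit 163853) (nat_lit 0) (.e (nat_lit 6314) (nat_lit 337) .nil))))))))) (.g (nat_lit 4) .nil .nil))) 
(.lf (nat_lit 19836) (.g (nat_lit 3085) (.e (nat_lit 1181) (nat_lit 87) (.e (nat_lit 57479) (nat_lit 28) (.e (nat_lit 557105) (nat_lit 14) (.e (nat_lit 180252) (nat_lit 10) (.e (nat_lit 573482) (nat_lit 13) (.e (nat_lit 65570) (nat_lit 3) (.e (nat_lit 98325) (nat_lit 17) (.e (nat_lit 2478) (nat_lit 157) (.e (nat_lit 6314) (nat_lit 337) .nil))))))))) (.g (nat_lit 4) .nil .nil))))))) 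
(.nd (nat_lit 2) (.nd (nat_lit 3) (.nd (nat_lit 4) (.nd (nat_lit 5) 
(.lf (nat_lit 19778) (.g (nat_lit 4041) (.e (nat_lit 1181) (nat_lit 87) (.e (nat_lit 57479) (nat_lit 28) (.e (nat_lit 557105) (nat_lit 14) (.e (nat_lit 180251) (nat_lit 10) (.e (nat_lit 573484) (nat_lit 13) (.e (nat_lit 65571) (nat_lit 3) (.e (nat_lit 98334) (nat_lit 18) (.e (nat_lit 164166) (nat_lit 152) .nil)))))))) (.g (nat_lit 5) .nil .nil))) 
(.lf (nat_lit 19810) (.g (nat_lit 3928) (.e (nat_lit 1181) (nat_lit 87) (.e (nat_lit 57479) (nat_lit 28) (.e (nat_lit 557105) (nat_lit 14) (.e (nat_lit 180252) (nat_lit 10) (.e (nat_lit 573481) (nat_lit 13) (.e (nat_lit 65570) (nat_lit 3) (.e (nat_lit 98333) (nat_lit 18) (.e (nat_lit 164167) (nat_lit 152) .nil)))))))) (.g (nat_lit 5) .nil .nil)))) (.nd (nat_lit 5) 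
(.lf (nat_lit 19794) (.g (nat_lit 3163) (.e (nat_lit 1181) (nat_lit 87) (.e (nat_lit 57479) (nat_lit 28) (.e (nat_lit 557105) (nat_lit 14) (.e (nat_lit 180251) (nat_lit 10) (.e (nat_lit 573487) (nat_lit 14) (.e (nat_lit 73746) (nat_lit 3) (.e (nat_lit 516120) (nat_lit 1) (.e (nat_lit 164147) (nat_lit 152) .nil)))))))) (.g (nat_lit 4) .nil .nil))) 
(.lf (nat_lit 19826) (.g (nat_lit 4152) (.e (nat_lit 1181) (nat_lit 87) (.e (nat_lit 57479) (nat_lit 28) (.e (nat_lit 557105) (nat_lit 14) (.e (nat_lit 180252) (nat_lit 10) (.e (nat_lit 573482) (nat_lit 13) (.e (nat_lit 65568) (nat_lit 2) (.e (nat_lit 90165) (nat_lit 12) (.e (nat_lit 163853) (nat_lit 0) (.e (nat_lit 6314) (nat_lit 337) .nil))))))))) (.g (nat_lit 5) .nil .nil))))) 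
(.nd (nat_lit 4) (.nd (nat_lit 5) 
(.lf (nat_lit 19786) (.g (nat_lit 3218) (.e (nat_lit 1181) (nat_lit 87) (.e (nat_lit 57479) (nat_lit 28) (.e (nat_lit 557105) (nat_lit 14) (.e (nat_lit 180251) (nat_lit 10) (.e (nat_lit 573485) (nat_lit 13) (.e (nat_lit 65571) (nat_lit 3) (.e (nat_lit 98334) (nat_lit 18) (.e (nat_lit 164164) (nat_lit 152) .nil)))))))) (.g (nat_lit 5) .nil .nil))) 
(.lf (nat_lit 19818) (.g (nat_lit 2825) (.e (nat_lit 1181) (nat_lit 87) (.e (nat_lit 57479) (nat_lit 28) (.e (nat_lit 557105) (nat_lit 14) (.e (nat_lit 180252) (nat_lit 10) (.e (nat_lit 573481) (nat_lit 13) (.e (nat_lit 65571) (nat_lit 3) (.e (nat_lit 98333) (nat_lit 18) (.e (nat_lit 164165) (nat_lit 152) .nil)))))))) (.g (nat_lit 4) .nil .nil)))) (.nd (nat_lit 5) 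
(.lf (nat_lit 19802) (.g (nat_lit 2649) (.e (nat_lit 1181) (nat_lit 87) (.e (nat_lit 57479) (nat_lit 28) (.e (nat_lit 557105) (nat_lit 14) (.e (nat_lit 180252) (nat_lit 10) (.e (nat_lit 573480) (nat_lit 13) (.e (nat_lit 65571) (nat_lit 3) (.e (nat_lit 98325) (nat_lit 17) (.e (nat_lit 2478) (nat_lit 157) (.e (nat_lit 6315) (nat_lit 337) .nil))))))))) (.g (nat_lit 4) .nil .nil))) 
(.lf (nat_lit 19834) (.g (nat_lit 3172) (.e (nat_lit 1181) (nat_lit 87) (.e (nat_lit 57479) (nat_lit 28) (.e (nat_lit 557105) (nat_lit 14) (.e (nat_lit 180252) (nat_lit 10) (.e (nat_lit 573482) (nat_lit 13) (.e (nat_lit 65569) (nat_lit 3) (.e (nat_lit 98334) (nat_lit 18) (.e (nat_lit 164167) (nat_lit 152) .nil)))))))) (.g (nat_lit 4) .nil .nil)))))) 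
(.nd (nat_lit 3) (.nd (nat_lit 4) (.nd (nat_lit 5) 
(.lf (nat_lit 19782) (.g (nat_lit 2479) (.e (nat_lit 1181) (nat_lit 87) (.e (nat_lit 57479) (nat_lit 28) (.e (nat_lit 557105) (nat_lit 14) (.e (nat_lit 180251) (nat_lit 10) (.e (nat_lit 573485) (nat_lit 13) (.e (nat_lit 65570) (nat_lit 3) (.e (nat_lit 98333) (nat_lit 18) (.e (nat_lit 164165) (nat_lit 152) .nil)))))))) (.g (nat_lit 4) .nil .nil))) 
(.lf (nat_lit 19814) (.g (nat_lit 3082) (.e (nat_lit 1181) (nat_lit 87) (.e (nat_lit 57479) (nat_lit 28) (.e (nat_lit 557105) (nat_lit 14) (.e (nat_lit 180252) (nat_lit 10) (.e (nat_lit 573481) (nat_lit 13) (.e (nat_lit 65571) (nat_lit 3) (.e (nat_lit 98325) (nat_lit 17) (.e (nat_lit 2458) (nat_lit 157) (.e (nat_lit 6314) (nat_lit 337) .nil))))))))) (.g (nat_lit 4) .nil .nil)))) (.nd (nat_lit 5) 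
(.lf (nat_lit 19798) (.g (nat_lit 2785) (.e (nat_lit 1181) (nat_lit 87) (.e (nat_lit 57479) (nat_lit 28) (.e (nat_lit 557105) (nat_lit 14) (.e (nat_lit 180252) (nat_lit 10) (.e (nat_lit 573480) (nat_lit 13) (.e (nat_lit 65568) (nat_lit 2) (.e (nat_lit 90165) (nat_lit 12) (.e (nat_lit 163853) (nat_lit 0) (.e (nat_lit 6315) (nat_lit 337) .nil))))))))) (.g (nat_lit 4) .nil .nil))) 
(.lf (nat_lit 19830) (.g (nat_lit 3426) (.e (nat_lit 1181) (nat_lit 87) (.e (nat_lit 57479) (nat_lit 28) (.e (nat_lit 557105) (nat_lit 14) (.e (nat_lit 180252) (nat_lit 10) (.e (nat_lit 573482) (nat_lit 13) (.e (nat_lit 65569) (nat_lit 3) (.e (nat_lit 98325) (nat_lit 17) (.e (nat_lit 2478) (nat_lit 157) (.e (nat_lit 6315) (nat_lit 337) .nil))))))))) (.g (nat_lit 4) .nil .nil))))) 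
(.nd (nat_lit 4) (.nd (nat_lit 5) 
(.lf (nat_lit 19790) (.g (nat_lit 4655) (.e (nat_lit 1181) (nat_lit 87) (.e (nat_lit 57479) (nat_lit 28) (.e (nat_lit 557105) (nat_lit 14) (.e (nat_lit 180251) (nat_lit 10) (.e (nat_lit 573487) (nat_lit 14) (.e (nat_lit 73746) (nat_lit 3) (.e (nat_lit 516117) (nat_lit 1) (.e (nat_lit 164166) (nat_lit 152) .nil)))))))) (.g (nat_lit 6) .nil .nil))) 
(.lf (nat_lit 19822) (.g (nat_lit 3218) (.e (nat_lit 1181) (nat_lit 87) (.e (nat_lit 57479) (nat_lit 28) (.e (nat_lit 557105) (nat_lit 14) (.e (nat_lit 180252) (nat_lit 10) (.e (nat_lit 573482) (nat_lit 13) (.e (nat_lit 65561) (nat_lit 0) (.e (nat_lit 1800) (nat_lit 119) (.e (nat_lit 516119) (nat_lit 1) (.e (nat_lit 164147) (nat_lit 152) .nil))))))))) (.g (nat_lit 4) .nil .nil)))) 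
(.nd (nat_lit 5) 
(.lf (nat_lit 19806) (.g (nat_lit 4808) (.e (nat_lit 1181) (nat_lit 87) (.e (nat_lit 57479) (nat_lit 28) (.e (nat_lit 557105) (nat_lit 14) (.e (nat_lit 180252) (nat_lit 10) (.e (nat_lit 573481) (nat_lit 13) (.e (nat_lit 65569) (nat_lit 3) (.e (nat_lit 98334) (nat_lit 18) (.e (nat_lit 164164) (nat_lit 152) .nil)))))))) (.g (nat_lit 6) .nil .nil))) 
(.lf (nat_lit 19838) (.g (nat_lit 2770) (.e (nat_lit 1181) (nat_lit 87) (.e (nat_lit 57479) (nat_lit 28) (.e (nat_lit 557105) (nat_lit 14) (.e (nat_lit 180252) (nat_lit 10) (.e (nat_lit 573482) (nat_lit 13) (.e (nat_lit 65570) (nat_lit 3) (.e (nat_lit 98333) (nat_lit 18) (.e (nat_lit 164164) (nat_lit 152) .nil)))))))) (.g (nat_lit 4) .nil .nil)))))))) 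
(.nd (nat_lit 1) (.nd (nat_lit 2) (.nd (nat_lit 3) (.nd (nat_lit 4) (.nd (nat_lit 5) 
(.lf (nat_lit 19777) (.g (nat_lit 4197) (.e (nat_lit 1181) (nat_lit 87) (.e (nat_lit 57479) (nat_lit 28) (.e (nat_lit 557105) (nat_lit 14) (.e (nat_lit 180251) (nat_lit 10) (.e (nat_lit 573484) (nat_lit 13) (.e (nat_lit 65571) (nat_lit 3) (.e (nat_lit 98334) (nat_lit 18) (.e (nat_lit 164164) (nat_lit 152) .nil)))))))) (.g (nat_lit 5) .nil .nil))) 
(.lf (nat_lit 19809) (.g (nat_lit 3292) (.e (nat_lit 1181) (nat_lit 87) (.e (nat_lit 57479) (nat_lit 28) (.e (nat_lit 557105) (nat_lit 14) (.e (nat_lit 180252) (nat_lit 10) (.e (nat_lit 573481) (nat_lit 13) (.e (nat_lit 65570) (nat_lit 3) (.e (nat_lit 98333) (nat_lit 18) (.e (nat_lit 164165) (nat_lit 152) .nil)))))))) (.g (nat_lit 4) .nil .nil)))) (.nd (nat_lit 5) 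
(.lf (nat_lit 19793) (.g (nat_lit 2857) (.e (nat_lit 1181) (nat_lit 87) (.e (nat_lit 57479) (nat_lit 28) (.e (nat_lit 557105) (nat_lit 14) (.e (nat_lit 180251) (nat_lit 10) (.e (nat_lit 573487) (nat_lit 14) (.e (nat_lit 73746) (nat_lit 3) (.e (nat_lit 516119) (nat_lit 1) (.e (nat_lit 164164) (nat_lit 152) .nil)))))))) (.g (nat_lit 4) .nil .nil))) 
(.lf (nat_lit 19825) (.g (nat_lit 3007) (.e (nat_lit 1181) (nat_lit 87) (.e (nat_lit 57479) (nat_lit 28) (.e (nat_lit 557105) (nat_lit 14) (.e (nat_lit 180252) (nat_lit 10) (.e (nat_lit 573482) (nat_lit 13) (.e (nat_lit 65568) (nat_lit 2) (.e (nat_lit 90165) (nat_lit 12) (.e (nat_lit 163853) (nat_lit 0) (.e (nat_lit 6306) (nat_lit 337) .nil))))))))) (.g (nat_lit 4) .nil .nil))))) 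
(.nd (nat_lit 4) (.nd (nat_lit 5) 
(.lf (nat_lit 19785) (.g (nat_lit 3289) (.e (nat_lit 1181) (nat_lit 87) (.e (nat_lit 57479) (nat_lit 28) (.e (nat_lit 557105) (nat_lit 14) (.e (nat_lit 180251) (nat_lit 10) (.e (nat_lit 573485) (nat_lit 13) (.e (nat_lit 65570) (nat_lit 3) (.e (nat_lit 98334) (nat_lit 18) (.e (nat_lit 164166) (nat_lit 152) .nil)))))))) (.g (nat_lit 5) .nil .nil))) 
(.lf (nat_lit 19817) (.g (nat_lit 3666) (.e (nat_lit 1181) (nat_lit 87) (.e (nat_lit 57479) (nat_lit 28) (.e (nat_lit 557105) (nat_lit 14) (.e (nat_lit 180252) (nat_lit 10) (.e (nat_lit 573481) (nat_lit 13) (.e (nat_lit 65571) (nat_lit 3) (.e (nat_lit 98325) (nat_lit 17) (.e (nat_lit 2478) (nat_lit 157) (.e (nat_lit 6315) (nat_lit 337) .nil))))))))) (.g (nat_lit 4) .nil .nil)))) (.nd (nat_lit 5) 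
(.lf (nat_lit 19801) (.g (nat_lit 2682) (.e (nat_lit 1181) (nat_lit 87) (.e (nat_lit 57479) (nat_lit 28) (.e (nat_lit 557105) (nat_lit 14) (.e (nat_lit 180252) (nat_lit 10) (.e (nat_lit 573480) (nat_lit 13) (.e (nat_lit 65571) (nat_lit 3) (.e (nat_lit 98325) (nat_lit 17) (.e (nat_lit 2478) (nat_lit 157) (.e (nat_lit 6314) (nat_lit 337) .nil))))))))) (.g (nat_lit 4) .nil .nil))) 
(.lf (nat_lit 19833) (.g (nat_lit 4783) (.e (nat_lit 1181) (nat_lit 87) (.e (nat_lit 57479) (nat_lit 28) (.e (nat_lit 557105) (nat_lit 14) (.e (nat_lit 180252) (nat_lit 10) (.e (nat_lit 573482) (nat_lit 13) (.e (nat_lit 65569) (nat_lit 3) (.e (nat_lit 98334) (nat_lit 18) (.e (nat_lit 164166) (nat_lit 152) .nil)))))))) (.g (nat_lit 6) .nil .nil)))))) 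
(.nd (nat_lit 3) (.nd (nat_lit 4) (.nd (nat_lit 5) 
(.lf (nat_lit 19781) (.g (nat_lit 3567) (.e (nat_lit 1181) (nat_lit 87) (.e (nat_lit 57479) (nat_lit 28) (.e (nat_lit 557105) (nat_lit 14) (.e (nat_lit 180251) (nat_lit 10) (.e (nat_lit 573485) (nat_lit 13) (.e (nat_lit 65569) (nat_lit 3) (.e (nat_lit 98334) (nat_lit 18) (.e (nat_lit 164166) (nat_lit 152) .nil)))))))) (.g (nat_lit 5) .nil .nil))) 
(.lf (nat_lit 19813) (.g (nat_lit 3356) (.e (nat_lit 1181) (nat_lit 87) (.e (nat_lit 57479) (nat_lit 28) (.e (nat_lit 557105) (nat_lit 14) (.e (nat_lit 180252) (nat_lit 10) (.e (nat_lit 573481) (nat_lit 13) (.e (nat_lit 65571) (nat_lit 3) (.e (nat_lit 98325) (nat_lit 17) (.e (nat_lit 2458) (nat_lit 157) (.e (nat_lit 6313) (nat_lit 337) .nil))))))))) (.g (nat_lit 4) .nil .nil)))) (.nd (nat_lit 5) 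
(.lf (nat_lit 19797) (.g (nat_lit 2790) (.e (nat_lit 1181) (nat_lit 87) (.e (nat_lit 57479) (nat_lit 28) (.e (nat_lit 557105) (nat_lit 14) (.e (nat_lit 180252) (nat_lit 10) (.e (nat_lit 573480) (nat_lit 13) (.e (nat_lit 65568) (nat_lit 2) (.e (nat_lit 90165) (nat_lit 12) (.e (nat_lit 163853) (nat_lit 0) (.e (nat_lit 6314) (nat_lit 337) .nil))))))))) (.g (nat_lit 4) .nil .nil))) 
(.lf (nat_lit 19829) (.g (nat_lit 3459) (.e (nat_lit 1181) (nat_lit 87) (.e (nat_lit 57479) (nat_lit 28) (.e (nat_lit 557105) (nat_lit 14) (.e (nat_lit 180252) (nat_lit 10) (.e (nat_lit 573482) (nat_lit 13) (.e (nat_lit 65569) (nat_lit 3) (.e (nat_lit 98325) (nat_lit 17) (.e (nat_lit 2478) (nat_lit 157) (.e (nat_lit 6314) (nat_lit 337) .nil))))))))) (.g (nat_lit 4) .nil .nil))))) 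
(.nd (nat_lit 4) (.nd (nat_lit 5) 
(.lf (nat_lit 19789) (.g (nat_lit 3910) (.e (nat_lit 1181) (nat_lit 87) (.e (nat_lit 57479) (nat_lit 28) (.e (nat_lit 557105) (nat_lit 14) (.e (nat_lit 180251) (nat_lit 10) (.e (nat_lit 573487) (nat_lit 14) (.e (nat_lit 73746) (nat_lit 3) (.e (nat_lit 516117) (nat_lit 1) (.e (nat_lit 164165) (nat_lit 152) .nil)))))))) (.g (nat_lit 5) .nil .nil))) 
(.lf (nat_lit 19821) (.g (nat_lit 4391) (.e (nat_lit 1181) (nat_lit 87) (.e (nat_lit 57479) (nat_lit 28) (.e (nat_lit 557105) (nat_lit 14) (.e (nat_lit 180252) (nat_lit 10) (.e (nat_lit 573481) (nat_lit 13) (.e (nat_lit 65571) (nat_lit 3) (.e (nat_lit 98334) (nat_lit 18) (.e (nat_lit 164166) (nat_lit 152) .nil)))))))) (.g (nat_lit 5) .nil .nil)))) (.nd (nat_lit 5) 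
(.lf (nat_lit 19805) (.g (nat_lit 3346) (.e (nat_lit 1181) (nat_lit 87) (.e (nat_lit 57479) (nat_lit 28) (.e (nat_lit 557105) (nat_lit 14) (.e (nat_lit 180252) (nat_lit 10) (.e (nat_lit 573481) (nat_lit 13) (.e (nat_lit 65568) (nat_lit 2) (.e (nat_lit 90165) (nat_lit 12) (.e (nat_lit 163853) (nat_lit 0) (.e (nat_lit 6315) (nat_lit 337) .nil))))))))) (.g (nat_lit 4) .nil .nil))) 
(.lf (nat_lit 19837) (.g (nat_lit 3052) (.e (nat_lit 1181) (nat_lit 87) (.e (nat_lit 57479) (nat_lit 28) (.e (nat_lit 557105) (nat_lit 14) (.e (nat_lit 180252) (nat_lit 10) (.e (nat_lit 573482) (nat_lit 13) (.e (nat_lit 65570) (nat_lit 3) (.e (nat_lit 98325) (nat_lit 17) (.e (nat_lit 2478) (nat_lit 157) (.e (nat_lit 6315) (nat_lit 337) .nil))))))))) (.g (nat_lit 4) .nil .nil))))))) 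
(.nd (nat_lit 2) (.nd (nat_lit 3) (.nd (nat_lit 4) (.nd (nat_lit 5) 
(.lf (nat_lit 19779) (.g (nat_lit 1987) (.e (nat_lit 1181) (nat_lit 87) (.e (nat_lit 57479) (nat_lit 28) (.e (nat_lit 557105) (nat_lit 14) (.e (nat_lit 180251) (nat_lit 10) (.e (nat_lit 573485) (nat_lit 13) .nil))))) .nil)) 
(.lf (nat_lit 19811) (.g (nat_lit 4338) (.e (nat_lit 1181) (nat_lit 87) (.e (nat_lit 57479) (nat_lit 28) (.e (nat_lit 557105) (nat_lit 14) (.e (nat_lit 180252) (nat_lit 10) (.e (nat_lit 573481) (nat_lit 13) (.e (nat_lit 65570) (nat_lit 3) (.e (nat_lit 98334) (nat_lit 18) (.e (nat_lit 164164) (nat_lit 152) .nil)))))))) (.g (nat_lit 5) .nil .nil)))) (.nd (nat_lit 5) 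
(.lf (nat_lit 19795) (.g (nat_lit 3780) (.e (nat_lit 1181) (nat_lit 87) (.e (nat_lit 57479) (nat_lit 28) (.e (nat_lit 557105) (nat_lit 14) (.e (nat_lit 180252) (nat_lit 10) (.e (nat_lit 573451) (nat_lit 9) (.e (nat_lit 1449) (nat_lit 108) (.e (nat_lit 336013) (nat_lit 2) (.e (nat_lit 90165) (nat_lit 12) (.e (nat_lit 163853) (nat_lit 0) (.e (nat_lit 6306) (nat_lit 337) .nil)))))))))) (.g (nat_lit 4) .nil .nil))) 
(.lf (nat_lit 19827) (.g (nat_lit 4147) (.e (nat_lit 1181) (nat_lit 87) (.e (nat_lit 57479) (nat_lit 28) (.e (nat_lit 557105) (nat_lit 14) (.e (nat_lit 180252) (nat_lit 10) (.e (nat_lit 573482) (nat_lit 13) (.e (nat_lit 65568) (nat_lit 2) (.e (nat_lit 90165) (nat_lit 12) (.e (nat_lit 163853) (nat_lit 0) (.e (nat_lit 6315) (nat_lit 337) .nil))))))))) (.g (nat_lit 5) .nil .nil))))) 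
(.nd (nat_lit 4) (.nd (nat_lit 5) 
(.lf (nat_lit 19787) (.g (nat_lit 3062) (.e (nat_lit 1181) (nat_lit 87) (.e (nat_lit 57479) (nat_lit 28) (.e (nat_lit 557105) (nat_lit 14) (.e (nat_lit 180251) (nat_lit 10) (.e (nat_lit 573485) (nat_lit 13) (.e (nat_lit 65571) (nat_lit 3) (.e (nat_lit 98334) (nat_lit 18) (.e (nat_lit 164166) (nat_lit 152) .nil)))))))) (.g (nat_lit 4) .nil .nil))) 
(.lf (nat_lit 19819) (.g (nat_lit 3461) (.e (nat_lit 1181) (nat_lit 87) (.e (nat_lit 57479) (nat_lit 28) (.e (nat_lit 557105) (nat_lit 14) (.e (nat_lit 180252) (nat_lit 10) (.e (nat_lit 573481) (nat_lit 13) (.e (nat_lit 65571) (nat_lit 3) (.e (nat_lit 98333) (nat_lit 18) (.e (nat_lit 164167) (nat_lit 152) .nil)))))))) (.g (nat_lit 4) .nil .nil)))) (.nd (nat_lit 5) 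
(.lf (nat_lit 19803) (.g (nat_lit 4117) (.e (nat_lit 1181) (nat_lit 87) (.e (nat_lit 57479) (nat_lit 28) (.e (nat_lit 557105) (nat_lit 14) (.e (nat_lit 180252) (nat_lit 10) (.e (nat_lit 573480) (nat_lit 13) (.e (nat_lit 65571) (nat_lit 3) (.e (nat_lit 98334) (nat_lit 18) (.e (nat_lit 164164) (nat_lit 152) .nil)))))))) (.g (nat_lit 6) .nil .nil))) 
(.lf (nat_lit 19835) (.g (nat_lit 2742) (.e (nat_lit 1181) (nat_lit 87) (.e (nat_lit 57479) (nat_lit 28) (.e (nat_lit 557105) (nat_lit 14) (.e (nat_lit 180252) (nat_lit 10) (.e (nat_lit 573482) (nat_lit 13) (.e (nat_lit 65570) (nat_lit 3) (.e (nat_lit 98325) (nat_lit 17) (.e (nat_lit 2458) (nat_lit 157) (.e (nat_lit 6313) (nat_lit 337) .nil))))))))) (.g (nat_lit 4) .nil .nil)))))) 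
(.nd (nat_lit 3) (.nd (nat_lit 4) (.nd (nat_lit 5) 
(.lf (nat_lit 19783) (.g (nat_lit 3115) (.e (nat_lit 1181) (nat_lit 87) (.e (nat_lit 57479) (nat_lit 28) (.e (nat_lit 557105) (nat_lit 14) (.e (nat_lit 180251) (nat_lit 10) (.e (nat_lit 573485) (nat_lit 13) (.e (nat_lit 65570) (nat_lit 3) (.e (nat_lit 98333) (nat_lit 18) (.e (nat_lit 164167) (nat_lit 152) .nil)))))))) (.g (nat_lit 5) .nil .nil))) 
(.lf (nat_lit 19815) (.g (nat_lit 2896) (.e (nat_lit 1181) (nat_lit 87) (.e (nat_lit 57479) (nat_lit 28) (.e (nat_lit 557105) (nat_lit 14) (.e (nat_lit 180252) (nat_lit 10) (.e (nat_lit 573481) (nat_lit 13) (.e (nat_lit 65571) (nat_lit 3) (.e (nat_lit 98325) (nat_lit 17) (.e (nat_lit 2478) (nat_lit 157) (.e (nat_lit 6306) (nat_lit 337) .nil))))))))) (.g (nat_lit 4) .nil .nil)))) (.nd (nat_lit 5) 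
(.lf (nat_lit 19799) (.g (nat_lit 3054) (.e (nat_lit 1181) (nat_lit 87) (.e (nat_lit 57479) (nat_lit 28) (.e (nat_lit 557105) (nat_lit 14) (.e (nat_lit 180252) (nat_lit 10) (.e (nat_lit 573480) (nat_lit 13) (.e (nat_lit 65569) (nat_lit 3) (.e (nat_lit 98334) (nat_lit 18) (.e (nat_lit 164164) (nat_lit 152) .nil)))))))) (.g (nat_lit 4) .nil .nil))) 
(.lf (nat_lit 19831) (.g (nat_lit 5232) (.e (nat_lit 1181) (nat_lit 87) (.e (nat_lit 57479) (nat_lit 28) (.e (nat_lit 557105) (nat_lit 14) (.e (nat_lit 180252) (nat_lit 10) (.e (nat_lit 573482) (nat_lit 13) (.e (nat_lit 65569) (nat_lit 3) (.e (nat_lit 98334) (nat_lit 18) (.e (nat_lit 164164) (nat_lit 152) .nil)))))))) (.g (nat_lit 6) .nil .nil))))) (.nd (nat_lit 4) (.nd (nat_lit 5) 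
(.lf (nat_lit 19791) (.g (nat_lit 3260) (.e (nat_lit 1181) (nat_lit 87) (.e (nat_lit 57479) (nat_lit 28) (.e (nat_lit 557105) (nat_lit 14) (.e (nat_lit 180251) (nat_lit 10) (.e (nat_lit 573487) (nat_lit 14) (.e (nat_lit 73746) (nat_lit 3) (.e (nat_lit 516117) (nat_lit 1) (.e (nat_lit 164167) (nat_lit 152) .nil)))))))) (.g (nat_lit 4) .nil .nil))) 
(.lf (nat_lit 19823) (.g (nat_lit 3176) (.e (nat_lit 1181) (nat_lit 87) (.e (nat_lit 57479) (nat_lit 28) (.e (nat_lit 557105) (nat_lit 14) (.e (nat_lit 180252) (nat_lit 10) (.e (nat_lit 573482) (nat_lit 13) (.e (nat_lit 65566) (nat_lit 2) (.e (nat_lit 90165) (nat_lit 12) (.e (nat_lit 163853) (nat_lit 0) (.e (nat_lit 6314) (nat_lit 337) .nil))))))))) (.g (nat_lit 4) .nil .nil)))) (.nd (nat_lit 5) 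
(.lf (nat_lit 19807) (.g (nat_lit 4359) (.e (nat_lit 1181) (nat_lit 87) (.e (nat_lit 57479) (nat_lit 28) (.e (nat_lit 557105) (nat_lit 14) (.e (nat_lit 180252) (nat_lit 10) (.e (nat_lit 573481) (nat_lit 13) (.e (nat_lit 65569) (nat_lit 3) (.e (nat_lit 98334) (nat_lit 18) (.e (nat_lit 164166) (nat_lit 152) .nil)))))))) (.g (nat_lit 5) .nil .nil))) 
(.lf (nat_lit 19839) (.g (nat_lit 3367) (.e (nat_lit 1181) (nat_lit 87) (.e (nat_lit 57479) (nat_lit 28) (.e (nat_lit 557105) (nat_lit 14) (.e (nat_lit 180252) (nat_lit 10) (.e (nat_lit 573482) (nat_lit 13) (.e (nat_lit 65570) (nat_lit 3) (.e (nat_lit 98333) (nat_lit 18) (.e (nat_lit 164165) (nat_lit 152) .nil)))))))) (.g (nat_lit 4) .nil .nil)))))))))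

noncomputable def tv275 : DT := (.nd (nat_lit 0) (.nd (nat_lit 1) (.nd (nat_lit 2) (.nd (nat_lit 3) (.nd (nat_lit 4) (.nd (nat_lit 5) 
(.lf (nat_lit 19840) (.g (nat_lit 4003) (.e (nat_lit 1181) (nat_lit 87) (.e (nat_lit 57479) (nat_lit 28) (.e (nat_lit 557105) (nat_lit 14) (.e (nat_lit 180252) (nat_lit 10) (.e (nat_lit 573482) (nat_lit 13) (.e (nat_lit 65570) (nat_lit 3) (.e (nat_lit 98333) (nat_lit 18) (.e (nat_lit 164167) (nat_lit 152) .nil)))))))) (.g (nat_lit 5) .nil .nil))) 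
(.lf (nat_lit 19872) (.g (nat_lit 5422) (.e (nat_lit 1181) (nat_lit 87) (.e (nat_lit 57479) (nat_lit 28) (.e (nat_lit 557105) (nat_lit 14) (.e (nat_lit 180252) (nat_lit 10) (.e (nat_lit 573487) (nat_lit 14) (.e (nat_lit 73747) (nat_lit 3) (.e (nat_lit 516117) (nat_lit 1) (.e (nat_lit 164164) (nat_lit 152) .nil)))))))) (.g (nat_lit 7) .nil .nil)))) (.nd (nat_lit 5) 
(.lf (nat_lit 19856) (.g (nat_lit 3491) (.e (nat_lit 1181) (nat_lit 87) (.e (nat_lit 57479) (nat_lit 28) (.e (nat_lit 557105) (nat_lit 14) (.e (nat_lit 180252) (nat_lit 10) (.e (nat_lit 573487) (nat_lit 14) (.e (nat_lit 73746) (nat_lit 3) (.e (nat_lit 516115) (nat_lit 1) (.e (nat_lit 164165) (nat_lit 152) .nil)))))))) (.g (nat_lit 4) .nil .nil))) 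
(.lf (nat_lit 19888) (.g (nat_lit 3654) (.e (nat_lit 1181) (nat_lit 87) (.e (nat_lit 57479) (nat_lit 28) (.e (nat_lit 557105) (nat_lit 14) (.e (nat_lit 180252) (nat_lit 10) (.e (nat_lit 573488) (nat_lit 14) (.e (nat_lit 73745) (nat_lit 3) (.e (nat_lit 516119) (nat_lit 1) (.e (nat_lit 164164) (nat_lit 152) .nil)))))))) (.g (nat_lit 4) .nil .nil))))) (.nd (nat_lit 4) (.nd (nat_lit 5) 
(.lf (nat_lit 19848) (.g (nat_lit 4041) (.e (nat_lit 1181) (nat_lit 87) (.e (nat_lit 57479) (nat_lit 28) (.e (nat_lit 557105) (nat_lit 14) (.e (nat_lit 180252) (nat_lit 10) (.e (nat_lit 573482) (nat_lit 13) (.e (nat_lit 65571) (nat_lit 3) (.e (nat_lit 98325) (nat_lit 17) (.e (nat_lit 2478) (nat_lit 157) (.e (nat_lit 6314) (nat_lit 337) .nil))))))))) (.g (nat_lit 5) .nil .nil))) 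
(.lf (nat_lit 19880) (.g (nat_lit 3073) (.e (nat_lit 1181) (nat_lit 87) (.e (nat_lit 57479) (nat_lit 28) (.e (nat_lit 557105) (nat_lit 14) (.e (nat_lit 180252) (nat_lit 10) (.e (nat_lit 573487) (nat_lit 14) (.e (nat_lit 73747) (nat_lit 3) (.e (nat_lit 516120) (nat_lit 1) (.e (nat_lit 164164) (nat_lit 152) .nil)))))))) (.g (nat_lit 4) .nil .nil)))) (.nd (nat_lit 5) 
(.lf (nat_lit 19864) (.g (nat_lit 5305) (.e (nat_lit 1181) (nat_lit 87) (.e (nat_lit 57479) (nat_lit 28) (.e (nat_lit 557105) (nat_lit 14) (.e (nat_lit 180252) (nat_lit 10) (.e (nat_lit 573487) (nat_lit 14) (.e (nat_lit 73747) (nat_lit 3) (.e (nat_lit 516115) (nat_lit 1) (.e (nat_lit 164167) (nat_lit 152) .nil)))))))) (.g (nat_lit 7) .nil .nil))) 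
(.lf (nat_lit 19896) (.g (nat_lit 4127) (.e (nat_lit 1181) (nat_lit 87) (.e (nat_lit 57479) (nat_lit 28) (.e (nat_lit 557105) (nat_lit 14) (.e (nat_lit 180252) (nat_lit 10) (.e (nat_lit 573488) (nat_lit 14) (.e (nat_lit 73747) (nat_lit 3) (.e (nat_lit 516115) (nat_lit 1) (.e (nat_lit 164147) (nat_lit 152) .nil)))))))) (.g (nat_lit 5) .nil .nil)))))) 
(.nd (nat_lit 3) (.nd (nat_lit 4) (.nd (nat_lit 5) 
(.lf (nat_lit 19844) (.g (nat_lit 2720) (.e (nat_lit 1181) (nat_lit 87) (.e (nat_lit 57479) (nat_lit 28) (.e (nat_lit 557105) (nat_lit 14) (.e (nat_lit 180252) (nat_lit 10) (.e (nat_lit 573482) (nat_lit 13) (.e (nat_lit 65570) (nat_lit 3) (.e (nat_lit 98335) (nat_lit 18) (.e (nat_lit 164167) (nat_lit 152) .nil)))))))) (.g (nat_lit 4) .nil .nil))) 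
(.lf (nat_lit 19876) (.g (nat_lit 5505) (.e (nat_lit 1181) (nat_lit 87) (.e (nat_lit 57479) (nat_lit 28) (.e (nat_lit 557105) (nat_lit 14) (.e (nat_lit 180252) (nat_lit 10) (.e (nat_lit 573487) (nat_lit 14) (.e (nat_lit 73747) (nat_lit 3) (.e (nat_lit 516119) (nat_lit 1) (.e (nat_lit 164163) (nat_lit 152) .nil)))))))) (.g (nat_lit 7) .nil .nil)))) (.nd (nat_lit 5) 
(.lf (nat_lit 19860) (.g (nat_lit 2797) (.e (nat_lit 1181) (nat_lit 87) (.e (nat_lit 57479) (nat_lit 28) (.e (nat_lit 557105) (nat_lit 14) (.e (nat_lit 180252) (nat_lit 10) (.e (nat_lit 573487) (nat_lit 14) (.e (nat_lit 73747) (nat_lit 3) (.e (nat_lit 516100) (nat_lit 0) (.e (nat_lit 2464) (nat_lit 157) (.e (nat_lit 6315) (nat_lit 337) .nil))))))))) (.g (nat_lit 4) .nil .nil))) 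
(.lf (nat_lit 19892) (.g (nat_lit 4215) (.e (nat_lit 1181) (nat_lit 87) (.e (nat_lit 57479) (nat_lit 28) (.e (nat_lit 557105) (nat_lit 14) (.e (nat_lit 180252) (nat_lit 10) (.e (nat_lit 573488) (nat_lit 14) (.e (nat_lit 73746) (nat_lit 3) (.e (nat_lit 516120) (nat_lit 1) (.e (nat_lit 164166) (nat_lit 152) .nil)))))))) (.g (nat_lit 5) .nil .nil))))) (.nd (nat_lit 4) (.nd (nat_lit 5) 
(.lf (nat_lit 19852) (.g (nat_lit 4461) (.e (nat_lit 1181) (nat_lit 87) (.e (nat_lit 57479) (nat_lit 28) (.e (nat_lit 557105) (nat_lit 14) (.e (nat_lit 180252) (nat_lit 10) (.e (nat_lit 573484) (nat_lit 13) (.e (nat_lit 65569) (nat_lit 3) (.e (nat_lit 98334) (nat_lit 18) (.e (nat_lit 164164) (nat_lit 152) .nil)))))))) (.g (nat_lit 5) .nil .nil))) 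
(.lf (nat_lit 19884) (.g (nat_lit 2826) (.e (nat_lit 1181) (nat_lit 87) (.e (nat_lit 57479) (nat_lit 28) (.e (nat_lit 557105) (nat_lit 14) (.e (nat_lit 180252) (nat_lit 10) (.e (nat_lit 573488) (nat_lit 14) .nil))))) .nil))) (.nd (nat_lit 5) 
(.lf (nat_lit 19868) (.g (nat_lit 3137) (.e (nat_lit 1181) (nat_lit 87) (.e (nat_lit 57479) (nat_lit 28) (.e (nat_lit 557105) (nat_lit 14) (.e (nat_lit 180252) (nat_lit 10) (.e (nat_lit 573487) (nat_lit 14) (.e (nat_lit 73747) (nat_lit 3) (.e (nat_lit 516116) (nat_lit 1) (.e (nat_lit 164165) (nat_lit 152) .nil)))))))) (.g (nat_lit 4) .nil .nil))) 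
(.lf (nat_lit 19900) (.g (nat_lit 3251) (.e (nat_lit 1181) (nat_lit 87) (.e (nat_lit 57479) (nat_lit 28) (.e (nat_lit 557105) (nat_lit 14) (.e (nat_lit 180252) (nat_lit 10) (.e (nat_lit 573488) (nat_lit 14) (.e (nat_lit 73747) (nat_lit 3) (.e (nat_lit 516116) (nat_lit 1) (.e (nat_lit 164165) (nat_lit 152) .nil)))))))) (.g (nat_lit 4) .nil .nil))))))) 
(.nd (nat_lit 2) (.nd (nat_lit 3) (.nd (nat_lit 4) (.nd (nat_lit 5) 
(.lf (nat_lit 19842) (.g (nat_lit 4170) (.e (nat_lit 1181) (nat_lit 87) (.e (nat_lit 57479) (nat_lit 28) (.e (nat_lit 557105) (nat_lit 14) (.e (nat_lit 180252) (nat_lit 10) (.e (nat_lit 573482) (nat_lit 13) (.e (nat_lit 65570) (nat_lit 3) (.e (nat_lit 98334) (nat_lit 18) (.e (nat_lit 164166) (nat_lit 152) .nil)))))))) (.g (nat_lit 5) .nil .nil))) 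
(.lf (nat_lit 19874) (.g (nat_lit 4993) (.e (nat_lit 1181) (nat_lit 87) (.e (nat_lit 57479) (nat_lit 28) (.e (nat_lit 557105) (nat_lit 14) (.e (nat_lit 180252) (nat_lit 10) (.e (nat_lit 573487) (nat_lit 14) (.e (nat_lit 73747) (nat_lit 3) (.e (nat_lit 516117) (nat_lit 1) (.e (nat_lit 164166) (nat_lit 152) .nil)))))))) (.g (nat_lit 6) .nil .nil)))) (.nd (nat_lit 5) 
(.lf (nat_lit 19858) (.g (nat_lit 3063) (.e (nat_lit 1181) (nat_lit 87) (.e (nat_lit 57479) (nat_lit 28) (.e (nat_lit 557105) (nat_lit 14) (.e (nat_lit 180252) (nat_lit 10) (.e (nat_lit 573487) (nat_lit 14) (.e (nat_lit 73747) (nat_lit 3) (.e (nat_lit 516100) (nat_lit 0) (.e (nat_lit 2464) (nat_lit 157) (.e (nat_lit 6313) (nat_lit 337) .nil))))))))) (.g (nat_lit 4) .nil .nil))) 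
(.lf (nat_lit 19890) (.g (nat_lit 3388) (.e (nat_lit 1181) (nat_lit 87) (.e (nat_lit 57479) (nat_lit 28) (.e (nat_lit 557105) (nat_lit 14) (.e (nat_lit 180252) (nat_lit 10) (.e (nat_lit 573488) (nat_lit 14) (.e (nat_lit 73746) (nat_lit 3) (.e (nat_lit 516117) (nat_lit 1) (.e (nat_lit 164165) (nat_lit 152) .nil)))))))) (.g (nat_lit 4) .nil .nil))))) (.nd (nat_lit 4) (.nd (nat_lit 5) 
(.lf (nat_lit 19850) (.g (nat_lit 3181) (.e (nat_lit 1181) (nat_lit 87) (.e (nat_lit 57479) (nat_lit 28) (.e (nat_lit 557105) (nat_lit 14) (.e (nat_lit 180252) (nat_lit 10) (.e (nat_lit 573482) (nat_lit 13) (.e (nat_lit 65571) (nat_lit 3) (.e (nat_lit 98333) (nat_lit 18) (.e (nat_lit 164165) (nat_lit 152) .nil)))))))) (.g (nat_lit 4) .nil .nil))) 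
(.lf (nat_lit 19882) (.g (nat_lit 5176) (.e (nat_lit 1181) (nat_lit 87) (.e (nat_lit 57479) (nat_lit 28) (.e (nat_lit 557105) (nat_lit 14) (.e (nat_lit 180252) (nat_lit 10) (.e (nat_lit 573487) (nat_lit 14) (.e (nat_lit 73747) (nat_lit 3) (.e (nat_lit 516120) (nat_lit 1) (.e (nat_lit 164167) (nat_lit 152) .nil)))))))) (.g (nat_lit 6) .nil .nil)))) (.nd (nat_lit 5) 
(.lf (nat_lit 19866) (.g (nat_lit 2576) (.e (nat_lit 1181) (nat_lit 87) (.e (nat_lit 57479) (nat_lit 28) (.e (nat_lit 557105) (nat_lit 14) (.e (nat_lit 180252) (nat_lit 10) (.e (nat_lit 573487) (nat_lit 14) (.e (nat_lit 73747) (nat_lit 3) (.e (nat_lit 516116) (nat_lit 1) (.e (nat_lit 164147) (nat_lit 152) .nil)))))))) (.g (nat_lit 4) .nil .nil))) 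
(.lf (nat_lit 19898) (.g (nat_lit 4572) (.e (nat_lit 1181) (nat_lit 87) (.e (nat_lit 57479) (nat_lit 28) (.e (nat_lit 557105) (nat_lit 14) (.e (nat_lit 180252) (nat_lit 10) (.e (nat_lit 573488) (nat_lit 14) (.e (nat_lit 73747) (nat_lit 3) (.e (nat_lit 516115) (nat_lit 1) (.e (nat_lit 164166) (nat_lit 152) .nil)))))))) (.g (nat_lit 5) .nil .nil)))))) 
(.nd (nat_lit 3) (.nd (nat_lit 4) (.nd (nat_lit 5) 
(.lf (nat_lit 19846) (.g (nat_lit 3424) (.e (nat_lit 1181) (nat_lit 87) (.e (nat_lit 57479) (nat_lit 28) (.e (nat_lit 557105) (nat_lit 14) (.e (nat_lit 180252) (nat_lit 10) (.e (nat_lit 573482) (nat_lit 13) (.e (nat_lit 65571) (nat_lit 3) (.e (nat_lit 98325) (nat_lit 17) (.e (nat_lit 2458) (nat_lit 157) (.e (nat_lit 6314) (nat_lit 337) .nil))))))))) (.g (nat_lit 4) .nil .nil))) 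
(.lf (nat_lit 19878) (.g (nat_lit 3302) (.e (nat_lit 1181) (nat_lit 87) (.e (nat_lit 57479) (nat_lit 28) (.e (nat_lit 557105) (nat_lit 14) (.e (nat_lit 180252) (nat_lit 10) (.e (nat_lit 573487) (nat_lit 14) (.e (nat_lit 73747) (nat_lit 3) (.e (nat_lit 516119) (nat_lit 1) (.e (nat_lit 164166) (nat_lit 152) .nil)))))))) (.g (nat_lit 4) .nil .nil)))) (.nd (nat_lit 5) 
(.lf (nat_lit 19862) (.g (nat_lit 2952) (.e (nat_lit 1181) (nat_lit 87) (.e (nat_lit 57479) (nat_lit 28) (.e (nat_lit 557105) (nat_lit 14) (.e (nat_lit 180252) (nat_lit 10) (.e (nat_lit 573487) (nat_lit 14) (.e (nat_lit 73747) (nat_lit 3) (.e (nat_lit 516106) (nat_lit 0) (.e (nat_lit 2478) (nat_lit 157) (.e (nat_lit 6315) (nat_lit 337) .nil))))))))) (.g (nat_lit 4) .nil .nil))) 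
(.lf (nat_lit 19894) (.g (nat_lit 3040) (.e (nat_lit 1181) (nat_lit 87) (.e (nat_lit 57479) (nat_lit 28) (.e (nat_lit 557105) (nat_lit 14) (.e (nat_lit 180252) (nat_lit 10) (.e (nat_lit 573488) (nat_lit 14) (.e (nat_lit 73747) (nat_lit 3) (.e (nat_lit 516106) (nat_lit 0) (.e (nat_lit 2478) (nat_lit 157) (.e (nat_lit 6314) (nat_lit 337) .nil))))))))) (.g (nat_lit 4) .nil .nil))))) 
(.nd (nat_lit 4) (.nd (nat_lit 5) 
(.lf (nat_lit 19854) (.g (nat_lit 2498) (.e (nat_lit 1181) (nat_lit 87) (.e (nat_lit 57479) (nat_lit 28) (.e (nat_lit 557105) (nat_lit 14) (.e (nat_lit 180252) (nat_lit 10) (.e (nat_lit 573487) (nat_lit 14) .nil))))) .nil)) 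
(.lf (nat_lit 19886) (.g (nat_lit 3622) (.e (nat_lit 1181) (nat_lit 87) (.e (nat_lit 57479) (nat_lit 28) (.e (nat_lit 557105) (nat_lit 14) (.e (nat_lit 180252) (nat_lit 10) (.e (nat_lit 573488) (nat_lit 14) (.e (nat_lit 73745) (nat_lit 3) (.e (nat_lit 516116) (nat_lit 1) (.e (nat_lit 164166) (nat_lit 152) .nil)))))))) (.g (nat_lit 4) .nil .nil)))) (.nd (nat_lit 5) 
(.lf (nat_lit 19870) (.g (nat_lit 3991) (.e (nat_lit 1181) (nat_lit 87) (.e (nat_lit 57479) (nat_lit 28) (.e (nat_lit 557105) (nat_lit 14) (.e (nat_lit 180252) (nat_lit 10) (.e (nat_lit 573487) (nat_lit 14) (.e (nat_lit 73747) (nat_lit 3) (.e (nat_lit 516116) (nat_lit 1) (.e (nat_lit 164167) (nat_lit 152) .nil)))))))) (.g (nat_lit 5) .nil .nil))) 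
(.lf (nat_lit 19902) (.g (nat_lit 4105) (.e (nat_lit 1181) (nat_lit 87) (.e (nat_lit 57479) (nat_lit 28) (.e (nat_lit 557105) (nat_lit 14) (.e (nat_lit 180252) (nat_lit 10) (.e (nat_lit 573488) (nat_lit 14) (.e (nat_lit 73747) (nat_lit 3) (.e (nat_lit 516116) (nat_lit 1) (.e (nat_lit 164167) (nat_lit 152) .nil)))))))) (.g (nat_lit 5) .nil .nil)))))))) 
(.nd (nat_lit 1) (.nd (nat_lit 2) (.nd (nat_lit 3) (.nd (nat_lit 4) (.nd (nat_lit 5) 
(.lf (nat_lit 19841) (.g (nat_lit 4419) (.e (nat_lit 1181) (nat_lit 87) (.e (nat_lit 57479) (nat_lit 28) (.e (nat_lit 557105) (nat_lit 14) (.e (nat_lit 180252) (nat_lit 10) (.e (nat_lit 573482) (nat_lit 13) (.e (nat_lit 65570) (nat_lit 3) (.e (nat_lit 98334) (nat_lit 18) (.e (nat_lit 164164) (nat_lit 152) .nil)))))))) (.g (nat_lit 5) .nil .nil))) 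
(.lf (nat_lit 19873) (.g (nat_lit 4919) (.e (nat_lit 1181) (nat_lit 87) (.e (nat_lit 57479) (nat_lit 28) (.e (nat_lit 557105) (nat_lit 14) (.e (nat_lit 180252) (nat_lit 10) (.e (nat_lit 573487) (nat_lit 14) (.e (nat_lit 73747) (nat_lit 3) (.e (nat_lit 516117) (nat_lit 1) (.e (nat_lit 164165) (nat_lit 152) .nil)))))))) (.g (nat_lit 6) .nil .nil)))) (.nd (nat_lit 5) 
(.lf (nat_lit 19857) (.g (nat_lit 3398) (.e (nat_lit 1181) (nat_lit 87) (.e (nat_lit 57479) (nat_lit 28) (.e (nat_lit 557105) (nat_lit 14) (.e (nat_lit 180252) (nat_lit 10) (.e (nat_lit 573487) (nat_lit 14) (.e (nat_lit 73746) (nat_lit 3) (.e (nat_lit 516115) (nat_lit 1) (.e (nat_lit 164167) (nat_lit 152) .nil)))))))) (.g (nat_lit 4) .nil .nil))) 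
(.lf (nat_lit 19889) (.g (nat_lit 4095) (.e (nat_lit 1181) (nat_lit 87) (.e (nat_lit 57479) (nat_lit 28) (.e (nat_lit 557105) (nat_lit 14) (.e (nat_lit 180252) (nat_lit 10) (.e (nat_lit 573488) (nat_lit 14) (.e (nat_lit 73746) (nat_lit 3) (.e (nat_lit 516117) (nat_lit 1) (.e (nat_lit 164164) (nat_lit 152) .nil)))))))) (.g (nat_lit 5) .nil .nil))))) (.nd (nat_lit 4) (.nd (nat_lit 5) 
(.lf (nat_lit 19849) (.g (nat_lit 4008) (.e (nat_lit 1181) (nat_lit 87) (.e (nat_lit 57479) (nat_lit 28) (.e (nat_lit 557105) (nat_lit 14) (.e (nat_lit 180252) (nat_lit 10) (.e (nat_lit 573482) (nat_lit 13) (.e (nat_lit 65571) (nat_lit 3) (.e (nat_lit 98325) (nat_lit 17) (.e (nat_lit 2478) (nat_lit 157) (.e (nat_lit 6315) (nat_lit 337) .nil))))))))) (.g (nat_lit 5) .nil .nil))) 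
(.lf (nat_lit 19881) (.g (nat_lit 4853) (.e (nat_lit 1181) (nat_lit 87) (.e (nat_lit 57479) (nat_lit 28) (.e (nat_lit 557105) (nat_lit 14) (.e (nat_lit 180252) (nat_lit 10) (.e (nat_lit 573487) (nat_lit 14) (.e (nat_lit 73747) (nat_lit 3) (.e (nat_lit 516120) (nat_lit 1) (.e (nat_lit 164166) (nat_lit 152) .nil)))))))) (.g (nat_lit 6) .nil .nil)))) (.nd (nat_lit 5) 
(.lf (nat_lit 19865) (.g (nat_lit 3007) (.e (nat_lit 1181) (nat_lit 87) (.e (nat_lit 57479) (nat_lit 28) (.e (nat_lit 557105) (nat_lit 14) (.e (nat_lit 180252) (nat_lit 10) (.e (nat_lit 573487) (nat_lit 14) (.e (nat_lit 73747) (nat_lit 3) (.e (nat_lit 516115) (nat_lit 1) (.e (nat_lit 171776) (nat_lit 152) .nil)))))))) (.g (nat_lit 5) .nil .nil))) 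
(.lf (nat_lit 19897) (.g (nat_lit 5649) (.e (nat_lit 1181) (nat_lit 87) (.e (nat_lit 57479) (nat_lit 28) (.e (nat_lit 557105) (nat_lit 14) (.e (nat_lit 180252) (nat_lit 10) (.e (nat_lit 573488) (nat_lit 14) (.e (nat_lit 73747) (nat_lit 3) (.e (nat_lit 516115) (nat_lit 1) (.e (nat_lit 164165) (nat_lit 152) .nil)))))))) (.g (nat_lit 6) .nil .nil)))))) 
(.nd (nat_lit 3) (.nd (nat_lit 4) (.nd (nat_lit 5) 
(.lf (nat_lit 19845) (.g (nat_lit 2672) (.e (nat_lit 1181) (nat_lit 87) (.e (nat_lit 57479) (nat_lit 28) (.e (nat_lit 557105) (nat_lit 14) (.e (nat_lit 180252) (nat_lit 10) (.e (nat_lit 573482) (nat_lit 13) (.e (nat_lit 65571) (nat_lit 3) (.e (nat_lit 98321) (nat_lit 17) (.e (nat_lit 2464) (nat_lit 157) (.e (nat_lit 6313) (nat_lit 337) .nil))))))))) (.g (nat_lit 4) .nil .nil))) 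
(.lf (nat_lit 19877) (.g (nat_lit 5663) (.e (nat_lit 1181) (nat_lit 87) (.e (nat_lit 57479) (nat_lit 28) (.e (nat_lit 557105) (nat_lit 14) (.e (nat_lit 180252) (nat_lit 10) (.e (nat_lit 573487) (nat_lit 14) (.e (nat_lit 73747) (nat_lit 3) (.e (nat_lit 516119) (nat_lit 1) (.e (nat_lit 164164) (nat_lit 152) .nil)))))))) (.g (nat_lit 7) .nil .nil)))) (.nd (nat_lit 5) 
(.lf (nat_lit 19861) (.g (nat_lit 2985) (.e (nat_lit 1181) (nat_lit 87) (.e (nat_lit 57479) (nat_lit 28) (.e (nat_lit 557105) (nat_lit 14) (.e (nat_lit 180252) (nat_lit 10) (.e (nat_lit 573487) (nat_lit 14) (.e (nat_lit 73747) (nat_lit 3) (.e (nat_lit 516106) (nat_lit 0) (.e (nat_lit 2478) (nat_lit 157) (.e (nat_lit 6314) (nat_lit 337) .nil))))))))) (.g (nat_lit 4) .nil .nil))) 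
(.lf (nat_lit 19893) (.g (nat_lit 3340) (.e (nat_lit 1181) (nat_lit 87) (.e (nat_lit 57479) (nat_lit 28) (.e (nat_lit 557105) (nat_lit 14) (.e (nat_lit 180252) (nat_lit 10) (.e (nat_lit 573488) (nat_lit 14) (.e (nat_lit 73746) (nat_lit 3) (.e (nat_lit 516120) (nat_lit 1) (.e (nat_lit 164167) (nat_lit 152) .nil)))))))) (.g (nat_lit 4) .nil .nil))))) (.nd (nat_lit 4) (.nd (nat_lit 5) 
(.lf (nat_lit 19853) (.g (nat_lit 4011) (.e (nat_lit 1181) (nat_lit 87) (.e (nat_lit 57479) (nat_lit 28) (.e (nat_lit 557105) (nat_lit 14) (.e (nat_lit 180252) (nat_lit 10) (.e (nat_lit 573484) (nat_lit 13) (.e (nat_lit 65569) (nat_lit 3) (.e (nat_lit 98334) (nat_lit 18) (.e (nat_lit 164166) (nat_lit 152) .nil)))))))) (.g (nat_lit 4) .nil .nil))) 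
(.lf (nat_lit 19885) (.g (nat_lit 4283) (.e (nat_lit 1181) (nat_lit 87) (.e (nat_lit 57479) (nat_lit 28) (.e (nat_lit 557105) (nat_lit 14) (.e (nat_lit 180252) (nat_lit 10) (.e (nat_lit 573488) (nat_lit 14) (.e (nat_lit 73745) (nat_lit 3) (.e (nat_lit 516116) (nat_lit 1) (.e (nat_lit 164164) (nat_lit 152) .nil)))))))) (.g (nat_lit 5) .nil .nil)))) (.nd (nat_lit 5) 
(.lf (nat_lit 19869) (.g (nat_lit 4112) (.e (nat_lit 1181) (nat_lit 87) (.e (nat_lit 57479) (nat_lit 28) (.e (nat_lit 557105) (nat_lit 14) (.e (nat_lit 180252) (nat_lit 10) (.e (nat_lit 573487) (nat_lit 14) (.e (nat_lit 73747) (nat_lit 3) (.e (nat_lit 516116) (nat_lit 1) (.e (nat_lit 164166) (nat_lit 152) .nil)))))))) (.g (nat_lit 6) .nil .nil))) 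
(.lf (nat_lit 19901) (.g (nat_lit 4307) (.e (nat_lit 1181) (nat_lit 87) (.e (nat_lit 57479) (nat_lit 28) (.e (nat_lit 557105) (nat_lit 14) (.e (nat_lit 180252) (nat_lit 10) (.e (nat_lit 573488) (nat_lit 14) (.e (nat_lit 73747) (nat_lit 3) (.e (nat_lit 516116) (nat_lit 1) (.e (nat_lit 164166) (nat_lit 152) .nil)))))))) (.g (nat_lit 5) .nil .nil))))))) 
(.nd (nat_lit 2) (.nd (nat_lit 3) (.nd (nat_lit 4) (.nd (nat_lit 5) 
(.lf (nat_lit 19843) (.g (nat_lit 2811) (.e (nat_lit 1181) (nat_lit 87) (.e (nat_lit 57479) (nat_lit 28) (.e (nat_lit 557105) (nat_lit 14) (.e (nat_lit 180252) (nat_lit 10) (.e (nat_lit 573482) (nat_lit 13) (.e (nat_lit 65570) (nat_lit 3) (.e (nat_lit 98335) (nat_lit 18) (.e (nat_lit 164166) (nat_lit 152) .nil)))))))) (.g (nat_lit 4) .nil .nil))) 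
(.lf (nat_lit 19875) (.g (nat_lit 5631) (.e (nat_lit 1181) (nat_lit 87) (.e (nat_lit 57479) (nat_lit 28) (.e (nat_lit 557105) (nat_lit 14) (.e (nat_lit 180252) (nat_lit 10) (.e (nat_lit 573487) (nat_lit 14) (.e (nat_lit 73747) (nat_lit 3) (.e (nat_lit 516119) (nat_lit 1) (.e (nat_lit 164147) (nat_lit 152) .nil)))))))) (.g (nat_lit 7) .nil .nil)))) (.nd (nat_lit 5) 
(.lf (nat_lit 19859) (.g (nat_lit 2817) (.e (nat_lit 1181) (nat_lit 87) (.e (nat_lit 57479) (nat_lit 28) (.e (nat_lit 557105) (nat_lit 14) (.e (nat_lit 180252) (nat_lit 10) (.e (nat_lit 573487) (nat_lit 14) (.e (nat_lit 73747) (nat_lit 3) (.e (nat_lit 516100) (nat_lit 0) (.e (nat_lit 2464) (nat_lit 157) (.e (nat_lit 6314) (nat_lit 337) .nil))))))))) (.g (nat_lit 4) .nil .nil))) 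
(.lf (nat_lit 19891) (.g (nat_lit 4246) (.e (nat_lit 1181) (nat_lit 87) (.e (nat_lit 57479) (nat_lit 28) (.e (nat_lit 557105) (nat_lit 14) (.e (nat_lit 180252) (nat_lit 10) (.e (nat_lit 573488) (nat_lit 14) (.e (nat_lit 73746) (nat_lit 3) (.e (nat_lit 516117) (nat_lit 1) (.e (nat_lit 164166) (nat_lit 152) .nil)))))))) (.g (nat_lit 5) .nil .nil))))) (.nd (nat_lit 4) (.nd (nat_lit 5) 
(.lf (nat_lit 19851) (.g (nat_lit 4685) (.e (nat_lit 1181) (nat_lit 87) (.e (nat_lit 57479) (nat_lit 28) (.e (nat_lit 557105) (nat_lit 14) (.e (nat_lit 180252) (nat_lit 10) (.e (nat_lit 573482) (nat_lit 13) (.e (nat_lit 65571) (nat_lit 3) (.e (nat_lit 98334) (nat_lit 18) (.e (nat_lit 164164) (nat_lit 152) .nil)))))))) (.g (nat_lit 6) .nil .nil))) 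
(.lf (nat_lit 19883) (.g (nat_lit 2529) (.e (nat_lit 1181) (nat_lit 87) (.e (nat_lit 57479) (nat_lit 28) (.e (nat_lit 557105) (nat_lit 14) (.e (nat_lit 180252) (nat_lit 10) (.e (nat_lit 573487) (nat_lit 14) (.e (nat_lit 73753) (nat_lit 8) (.e (nat_lit 557084) (nat_lit 10) (.e (nat_lit 8285) (nat_lit 51) (.e (nat_lit 6320) (nat_lit 337) .nil))))))))) (.g (nat_lit 4) .nil .nil)))) (.nd (nat_lit 5) 
(.lf (nat_lit 19867) (.g (nat_lit 4769) (.e (nat_lit 1181) (nat_lit 87) (.e (nat_lit 57479) (nat_lit 28) (.e (nat_lit 557105) (nat_lit 14) (.e (nat_lit 180252) (nat_lit 10) (.e (nat_lit 573487) (nat_lit 14) (.e (nat_lit 73747) (nat_lit 3) (.e (nat_lit 516116) (nat_lit 1) (.e (nat_lit 164164) (nat_lit 152) .nil)))))))) (.g (nat_lit 6) .nil .nil))) 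
(.lf (nat_lit 19899) (.g (nat_lit 4883) (.e (nat_lit 1181) (nat_lit 87) (.e (nat_lit 57479) (nat_lit 28) (.e (nat_lit 557105) (nat_lit 14) (.e (nat_lit 180252) (nat_lit 10) (.e (nat_lit 573488) (nat_lit 14) (.e (nat_lit 73747) (nat_lit 3) (.e (nat_lit 516116) (nat_lit 1) (.e (nat_lit 164164) (nat_lit 152) .nil)))))))) (.g (nat_lit 6) .nil .nil)))))) 
(.nd (nat_lit 3) (.nd (nat_lit 4) (.nd (nat_lit 5) 
(.lf (nat_lit 19847) (.g (nat_lit 3238) (.e (nat_lit 1181) (nat_lit 87) (.e (nat_lit 57479) (nat_lit 28) (.e (nat_lit 557105) (nat_lit 14) (.e (nat_lit 180252) (nat_lit 10) (.e (nat_lit 573482) (nat_lit 13) (.e (nat_lit 65571) (nat_lit 3) (.e (nat_lit 98325) (nat_lit 17) (.e (nat_lit 2478) (nat_lit 157) (.e (nat_lit 6306) (nat_lit 337) .nil))))))))) (.g (nat_lit 4) .nil .nil))) 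
(.lf (nat_lit 19879) (.g (nat_lit 5187) (.e (nat_lit 1181) (nat_lit 87) (.e (nat_lit 57479) (nat_lit 28) (.e (nat_lit 557105) (nat_lit 14) (.e (nat_lit 180252) (nat_lit 10) (.e (nat_lit 573487) (nat_lit 14) (.e (nat_lit 73747) (nat_lit 3) (.e (nat_lit 516119) (nat_lit 1) (.e (nat_lit 164167) (nat_lit 152) .nil)))))))) (.g (nat_lit 7) .nil .nil)))) (.nd (nat_lit 5) 
(.lf (nat_lit 19863) (.g (nat_lit 5204) (.e (nat_lit 1181) (nat_lit 87) (.e (nat_lit 57479) (nat_lit 28) (.e (nat_lit 557105) (nat_lit 14) (.e (nat_lit 180252) (nat_lit 10) (.e (nat_lit 573487) (nat_lit 14) (.e (nat_lit 73747) (nat_lit 3) (.e (nat_lit 516115) (nat_lit 1) (.e (nat_lit 164165) (nat_lit 152) .nil)))))))) (.g (nat_lit 7) .nil .nil))) 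
(.lf (nat_lit 19895) (.g (nat_lit 3007) (.e (nat_lit 1181) (nat_lit 87) (.e (nat_lit 57479) (nat_lit 28) (.e (nat_lit 557105) (nat_lit 14) (.e (nat_lit 180252) (nat_lit 10) (.e (nat_lit 573488) (nat_lit 14) (.e (nat_lit 73747) (nat_lit 3) (.e (nat_lit 516106) (nat_lit 0) (.e (nat_lit 2478) (nat_lit 157) (.e (nat_lit 6315) (nat_lit 337) .nil))))))))) (.g (nat_lit 4) .nil .nil))))) 
(.nd (nat_lit 4) (.nd (nat_lit 5) 
(.lf (nat_lit 19855) (.g (nat_lit 3328) (.e (nat_lit 1181) (nat_lit 87) (.e (nat_lit 57479) (nat_lit 28) (.e (nat_lit 557105) (nat_lit 14) (.e (nat_lit 180252) (nat_lit 10) (.e (nat_lit 573487) (nat_lit 14) (.e (nat_lit 73745) (nat_lit 3) (.e (nat_lit 516116) (nat_lit 1) (.e (nat_lit 164164) (nat_lit 152) .nil)))))))) (.g (nat_lit 4) .nil .nil))) 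
(.lf (nat_lit 19887) (.g (nat_lit 3505) (.e (nat_lit 1181) (nat_lit 87) (.e (nat_lit 57479) (nat_lit 28) (.e (nat_lit 557105) (nat_lit 14) (.e (nat_lit 180252) (nat_lit 10) (.e (nat_lit 573488) (nat_lit 14) (.e (nat_lit 73745) (nat_lit 3) (.e (nat_lit 516116) (nat_lit 1) (.e (nat_lit 164167) (nat_lit 152) .nil)))))))) (.g (nat_lit 4) .nil .nil)))) (.nd (nat_lit 5) 
(.lf (nat_lit 19871) (.g (nat_lit 4556) (.e (nat_lit 1181) (nat_lit 87) (.e (nat_lit 57479) (nat_lit 28) (.e (nat_lit 557105) (nat_lit 14) (.e (nat_lit 180252) (nat_lit 10) (.e (nat_lit 573487) (nat_lit 14) (.e (nat_lit 73747) (nat_lit 3) (.e (nat_lit 516117) (nat_lit 1) (.e (nat_lit 164147) (nat_lit 152) .nil)))))))) (.g (nat_lit 6) .nil .nil))) 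
(.lf (nat_lit 19903) (.g (nat_lit 5873) (.e (nat_lit 1181) (nat_lit 87) (.e (nat_lit 57479) (nat_lit 28) (.e (nat_lit 557105) (nat_lit 14) (.e (nat_lit 180252) (nat_lit 10) (.e (nat_lit 573488) (nat_lit 14) (.e (nat_lit 73747) (nat_lit 3) (.e (nat_lit 516117) (nat_lit 1) (.e (nat_lit 164164) (nat_lit 152) .nil)))))))) (.g (nat_lit 7) .nil .nil)))))))))

noncomputable def tv276 : DT := (.nd (nat_lit 0) (.nd (nat_lit 1) (.nd (nat_lit 2) (.nd (nat_lit 3) (.nd (nat_lit 4) (.nd (nat_lit 5) 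
(.lf (nat_lit 19904) (.g (nat_lit 5320) (.e (nat_lit 1181) (nat_lit 87) (.e (nat_lit 57479) (nat_lit 28) (.e (nat_lit 557105) (nat_lit 14) (.e (nat_lit 180252) (nat_lit 10) (.e (nat_lit 573488) (nat_lit 14) (.e (nat_lit 73747) (nat_lit 3) (.e (nat_lit 516117) (nat_lit 1) (.e (nat_lit 164165) (nat_lit 152) .nil)))))))) (.g (nat_lit 6) .nil .nil))) 
(.lf (nat_lit 19936) (.g (nat_lit 3779) (.e (nat_lit 1181) (nat_lit 87) (.e (nat_lit 57479) (nat_lit 28) (.e (nat_lit 557105) (nat_lit 14) (.e (nat_lit 180252) (nat_lit 10) (.e (nat_lit 573489) (nat_lit 14) (.e (nat_lit 73748) (nat_lit 3) (.e (nat_lit 516115) (nat_lit 1) (.e (nat_lit 164163) (nat_lit 152) .nil)))))))) (.g (nat_lit 6) .nil .nil)))) (.nd (nat_lit 5) 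
(.lf (nat_lit 19920) (.g (nat_lit 3056) (.e (nat_lit 1181) (nat_lit 87) (.e (nat_lit 57479) (nat_lit 28) (.e (nat_lit 557105) (nat_lit 14) (.e (nat_lit 180252) (nat_lit 10) (.e (nat_lit 573489) (nat_lit 14) (.e (nat_lit 73745) (nat_lit 3) (.e (nat_lit 516116) (nat_lit 1) (.e (nat_lit 164167) (nat_lit 152) .nil)))))))) (.g (nat_lit 5) .nil .nil))) 
(.lf (nat_lit 19952) (.g (nat_lit 4109) (.e (nat_lit 1181) (nat_lit 87) (.e (nat_lit 57479) (nat_lit 28) (.e (nat_lit 557105) (nat_lit 14) (.e (nat_lit 180252) (nat_lit 10) (.e (nat_lit 573489) (nat_lit 14) (.e (nat_lit 73748) (nat_lit 3) (.e (nat_lit 516120) (nat_lit 1) (.e (nat_lit 164167) (nat_lit 152) .nil)))))))) (.g (nat_lit 7) .nil .nil))))) (.nd (nat_lit 4) (.nd (nat_lit 5) 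
(.lf (nat_lit 19912) (.g (nat_lit 3380) (.e (nat_lit 1181) (nat_lit 87) (.e (nat_lit 57479) (nat_lit 28) (.e (nat_lit 557105) (nat_lit 14) (.e (nat_lit 180252) (nat_lit 10) (.e (nat_lit 573488) (nat_lit 14) (.e (nat_lit 73747) (nat_lit 3) (.e (nat_lit 516120) (nat_lit 1) (.e (nat_lit 164164) (nat_lit 152) .nil)))))))) (.g (nat_lit 4) .nil .nil))) 
(.lf (nat_lit 19944) (.g (nat_lit 3210) (.e (nat_lit 1181) (nat_lit 87) (.e (nat_lit 57479) (nat_lit 28) (.e (nat_lit 557105) (nat_lit 14) (.e (nat_lit 180252) (nat_lit 10) (.e (nat_lit 573489) (nat_lit 14) (.e (nat_lit 73748) (nat_lit 3) (.e (nat_lit 516117) (nat_lit 1) (.e (nat_lit 164147) (nat_lit 152) .nil)))))))) (.g (nat_lit 5) .nil .nil)))) (.nd (nat_lit 5) 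
(.lf (nat_lit 19928) (.g (nat_lit 4529) (.e (nat_lit 1181) (nat_lit 87) (.e (nat_lit 57479) (nat_lit 28) (.e (nat_lit 557105) (nat_lit 14) (.e (nat_lit 180252) (nat_lit 10) (.e (nat_lit 573489) (nat_lit 14) (.e (nat_lit 73747) (nat_lit 3) (.e (nat_lit 516119) (nat_lit 1) (.e (nat_lit 164147) (nat_lit 152) .nil)))))))) (.g (nat_lit 6) .nil .nil))) 
(.lf (nat_lit 19960) (.g (nat_lit 3958) (.e (nat_lit 1181) (nat_lit 87) (.e (nat_lit 57479) (nat_lit 28) (.e (nat_lit 557105) (nat_lit 14) (.e (nat_lit 180252) (nat_lit 10) (.e (nat_lit 573489) (nat_lit 14) (.e (nat_lit 73755) (nat_lit 8) (.e (nat_lit 557068) (nat_lit 9) (.e (nat_lit 128) (nat_lit 6) (.e (nat_lit 123085) (nat_lit 181) .nil))))))))) (.g (nat_lit 6) .nil .nil)))))) 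
(.nd (nat_lit 3) (.nd (nat_lit 4) (.nd (nat_lit 5) 
(.lf (nat_lit 19908) (.g (nat_lit 5680) (.e (nat_lit 1181) (nat_lit 87) (.e (nat_lit 57479) (nat_lit 28) (.e (nat_lit 557105) (nat_lit 14) (.e (nat_lit 180252) (nat_lit 10) (.e (nat_lit 573488) (nat_lit 14) (.e (nat_lit 73747) (nat_lit 3) (.e (nat_lit 516119) (nat_lit 1) (.e (nat_lit 164163) (nat_lit 152) .nil)))))))) (.g (nat_lit 7) .nil .nil))) 
(.lf (nat_lit 19940) (.g (nat_lit 4320) (.e (nat_lit 1181) (nat_lit 87) (.e (nat_lit 57479) (nat_lit 28) (.e (nat_lit 557105) (nat_lit 14) (.e (nat_lit 180252) (nat_lit 10) (.e (nat_lit 573489) (nat_lit 14) (.e (nat_lit 73748) (nat_lit 3) (.e (nat_lit 516115) (nat_lit 1) (.e (nat_lit 164167) (nat_lit 152) .nil)))))))) (.g (nat_lit 7) .nil .nil)))) (.nd (nat_lit 5) 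
(.lf (nat_lit 19924) (.g (nat_lit 4072) (.e (nat_lit 1181) (nat_lit 87) (.e (nat_lit 57479) (nat_lit 28) (.e (nat_lit 557105) (nat_lit 14) (.e (nat_lit 180252) (nat_lit 10) (.e (nat_lit 573489) (nat_lit 14) (.e (nat_lit 73746) (nat_lit 3) (.e (nat_lit 516117) (nat_lit 1) (.e (nat_lit 164166) (nat_lit 152) .nil)))))))) (.g (nat_lit 6) .nil .nil))) 
(.lf (nat_lit 19956) (.g (nat_lit 4291) (.e (nat_lit 1181) (nat_lit 87) (.e (nat_lit 57479) (nat_lit 28) (.e (nat_lit 557105) (nat_lit 14) (.e (nat_lit 180252) (nat_lit 10) (.e (nat_lit 573489) (nat_lit 14) (.e (nat_lit 73755) (nat_lit 8) (.e (nat_lit 557067) (nat_lit 9) (.e (nat_lit 128) (nat_lit 6) (.e (nat_lit 130816) (nat_lit 181) .nil))))))))) (.g (nat_lit 7) .nil .nil))))) 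
(.nd (nat_lit 4) (.nd (nat_lit 5) 
(.lf (nat_lit 19916) (.g (nat_lit 3545) (.e (nat_lit 1181) (nat_lit 87) (.e (nat_lit 57479) (nat_lit 28) (.e (nat_lit 557105) (nat_lit 14) (.e (nat_lit 180252) (nat_lit 10) (.e (nat_lit 573488) (nat_lit 14) (.e (nat_lit 73748) (nat_lit 3) (.e (nat_lit 516119) (nat_lit 1) (.e (nat_lit 164147) (nat_lit 152) .nil)))))))) (.g (nat_lit 4) .nil .nil))) 
(.lf (nat_lit 19948) (.g (nat_lit 4293) (.e (nat_lit 1181) (nat_lit 87) (.e (nat_lit 57479) (nat_lit 28) (.e (nat_lit 557105) (nat_lit 14) (.e (nat_lit 180252) (nat_lit 10) (.e (nat_lit 573489) (nat_lit 14) (.e (nat_lit 73748) (nat_lit 3) (.e (nat_lit 516119) (nat_lit 1) (.e (nat_lit 164163) (nat_lit 152) .nil)))))))) (.g (nat_lit 7) .nil .nil)))) (.nd (nat_lit 5) 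
(.lf (nat_lit 19932) (.g (nat_lit 4214) (.e (nat_lit 1181) (nat_lit 87) (.e (nat_lit 57479) (nat_lit 28) (.e (nat_lit 557105) (nat_lit 14) (.e (nat_lit 180252) (nat_lit 10) (.e (nat_lit 573489) (nat_lit 14) (.e (nat_lit 73747) (nat_lit 3) (.e (nat_lit 516120) (nat_lit 1) (.e (nat_lit 164167) (nat_lit 152) .nil)))))))) (.g (nat_lit 6) .nil .nil))) 
(.lf (nat_lit 19964) (.g (nat_lit 3392) (.e (nat_lit 1181) (nat_lit 87) (.e (nat_lit 57479) (nat_lit 28) (.e (nat_lit 557105) (nat_lit 14) (.e (nat_lit 180252) (nat_lit 10) (.e (nat_lit 573489) (nat_lit 14) (.e (nat_lit 73755) (nat_lit 8) (.e (nat_lit 557083) (nat_lit 10) (.e (nat_lit 8285) (nat_lit 51) (.e (nat_lit 6320) (nat_lit 337) .nil))))))))) (.g (nat_lit 6) .nil .nil))))))) 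
(.nd (nat_lit 2) (.nd (nat_lit 3) (.nd (nat_lit 4) (.nd (nat_lit 5) 
(.lf (nat_lit 19906) (.g (nat_lit 4586) (.e (nat_lit 1181) (nat_lit 87) (.e (nat_lit 57479) (nat_lit 28) (.e (nat_lit 557105) (nat_lit 14) (.e (nat_lit 180252) (nat_lit 10) (.e (nat_lit 573488) (nat_lit 14) (.e (nat_lit 73747) (nat_lit 3) (.e (nat_lit 516117) (nat_lit 1) (.e (nat_lit 164167) (nat_lit 152) .nil)))))))) (.g (nat_lit 5) .nil .nil))) 
(.lf (nat_lit 19938) (.g (nat_lit 4413) (.e (nat_lit 1181) (nat_lit 87) (.e (nat_lit 57479) (nat_lit 28) (.e (nat_lit 557105) (nat_lit 14) (.e (nat_lit 180252) (nat_lit 10) (.e (nat_lit 573489) (nat_lit 14) (.e (nat_lit 73748) (nat_lit 3) (.e (nat_lit 516115) (nat_lit 1) (.e (nat_lit 164165) (nat_lit 152) .nil)))))))) (.g (nat_lit 7) .nil .nil)))) (.nd (nat_lit 5) 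
(.lf (nat_lit 19922) (.g (nat_lit 3279) (.e (nat_lit 1181) (nat_lit 87) (.e (nat_lit 57479) (nat_lit 28) (.e (nat_lit 557105) (nat_lit 14) (.e (nat_lit 180252) (nat_lit 10) (.e (nat_lit 573489) (nat_lit 14) (.e (nat_lit 73745) (nat_lit 3) (.e (nat_lit 516119) (nat_lit 1) (.e (nat_lit 164164) (nat_lit 152) .nil)))))))) (.g (nat_lit 5) .nil .nil))) 
(.lf (nat_lit 19954) (.g (nat_lit 5083) (.e (nat_lit 1181) (nat_lit 87) (.e (nat_lit 57479) (nat_lit 28) (.e (nat_lit 557105) (nat_lit 14) (.e (nat_lit 180252) (nat_lit 10) (.e (nat_lit 573489) (nat_lit 14) (.e (nat_lit 73755) (nat_lit 8) (.e (nat_lit 557067) (nat_lit 9) (.e (nat_lit 128) (nat_lit 6) (.e (nat_lit 123085) (nat_lit 181) .nil))))))))) (.g (nat_lit 7) .nil .nil))))) 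
(.nd (nat_lit 4) (.nd (nat_lit 5) 
(.lf (nat_lit 19914) (.g (nat_lit 5483) (.e (nat_lit 1181) (nat_lit 87) (.e (nat_lit 57479) (nat_lit 28) (.e (nat_lit 557105) (nat_lit 14) (.e (nat_lit 180252) (nat_lit 10) (.e (nat_lit 573488) (nat_lit 14) (.e (nat_lit 73747) (nat_lit 3) (.e (nat_lit 516120) (nat_lit 1) (.e (nat_lit 164167) (nat_lit 152) .nil)))))))) (.g (nat_lit 6) .nil .nil))) 
(.lf (nat_lit 19946) (.g (nat_lit 3490) (.e (nat_lit 1181) (nat_lit 87) (.e (nat_lit 57479) (nat_lit 28) (.e (nat_lit 557105) (nat_lit 14) (.e (nat_lit 180252) (nat_lit 10) (.e (nat_lit 573489) (nat_lit 14) (.e (nat_lit 73748) (nat_lit 3) (.e (nat_lit 516117) (nat_lit 1) (.e (nat_lit 164165) (nat_lit 152) .nil)))))))) (.g (nat_lit 5) .nil .nil)))) (.nd (nat_lit 5) 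
(.lf (nat_lit 19930) (.g (nat_lit 4532) (.e (nat_lit 1181) (nat_lit 87) (.e (nat_lit 57479) (nat_lit 28) (.e (nat_lit 557105) (nat_lit 14) (.e (nat_lit 180252) (nat_lit 10) (.e (nat_lit 573489) (nat_lit 14) (.e (nat_lit 73747) (nat_lit 3) (.e (nat_lit 516119) (nat_lit 1) (.e (nat_lit 164164) (nat_lit 152) .nil)))))))) (.g (nat_lit 6) .nil .nil))) 
(.lf (nat_lit 19962) (.g (nat_lit 2572) (.e (nat_lit 1181) (nat_lit 87) (.e (nat_lit 57479) (nat_lit 28) (.e (nat_lit 557105) (nat_lit 14) (.e (nat_lit 180252) (nat_lit 10) (.e (nat_lit 573489) (nat_lit 14) (.e (nat_lit 73755) (nat_lit 8) (.e (nat_lit 557068) (nat_lit 9) (.e (nat_lit 2715) (nat_lit 171) (.e (nat_lit 229632) (nat_lit 226) .nil))))))))) (.g (nat_lit 4) .nil .nil)))))) 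
(.nd (nat_lit 3) (.nd (nat_lit 4) (.nd (nat_lit 5) 
(.lf (nat_lit 19910) (.g (nat_lit 3434) (.e (nat_lit 1181) (nat_lit 87) (.e (nat_lit 57479) (nat_lit 28) (.e (nat_lit 557105) (nat_lit 14) (.e (nat_lit 180252) (nat_lit 10) (.e (nat_lit 573488) (nat_lit 14) (.e (nat_lit 73747) (nat_lit 3) (.e (nat_lit 516119) (nat_lit 1) (.e (nat_lit 164166) (nat_lit 152) .nil)))))))) (.g (nat_lit 4) .nil .nil))) 
(.lf (nat_lit 19942) (.g (nat_lit 3141) (.e (nat_lit 1181) (nat_lit 87) (.e (nat_lit 57479) (nat_lit 28) (.e (nat_lit 557105) (nat_lit 14) (.e (nat_lit 180252) (nat_lit 10) (.e (nat_lit 573489) (nat_lit 14) (.e (nat_lit 73748) (nat_lit 3) (.e (nat_lit 516116) (nat_lit 1) (.e (nat_lit 164166) (nat_lit 152) .nil)))))))) (.g (nat_lit 5) .nil .nil)))) (.nd (nat_lit 5) 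
(.lf (nat_lit 19926) (.g (nat_lit 4505) (.e (nat_lit 1181) (nat_lit 87) (.e (nat_lit 57479) (nat_lit 28) (.e (nat_lit 557105) (nat_lit 14) (.e (nat_lit 180252) (nat_lit 10) (.e (nat_lit 573489) (nat_lit 14) (.e (nat_lit 73747) (nat_lit 3) (.e (nat_lit 516117) (nat_lit 1) (.e (nat_lit 164164) (nat_lit 152) .nil)))))))) (.g (nat_lit 7) .nil .nil))) 
(.lf (nat_lit 19958) (.g (nat_lit 4647) (.e (nat_lit 1181) (nat_lit 87) (.e (nat_lit 57479) (nat_lit 28) (.e (nat_lit 557105) (nat_lit 14) (.e (nat_lit 180252) (nat_lit 10) (.e (nat_lit 573489) (nat_lit 14) (.e (nat_lit 73755) (nat_lit 8) (.e (nat_lit 557067) (nat_lit 9) (.e (nat_lit 2719) (nat_lit 171) (.e (nat_lit 229632) (nat_lit 226) .nil))))))))) (.g (nat_lit 7) .nil .nil))))) 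
(.nd (nat_lit 4) (.nd (nat_lit 5) 
(.lf (nat_lit 19918) (.g (nat_lit 3834) (.e (nat_lit 1181) (nat_lit 87) (.e (nat_lit 57479) (nat_lit 28) (.e (nat_lit 557105) (nat_lit 14) (.e (nat_lit 180252) (nat_lit 10) (.e (nat_lit 573489) (nat_lit 14) (.e (nat_lit 73745) (nat_lit 3) (.e (nat_lit 516116) (nat_lit 1) (.e (nat_lit 164164) (nat_lit 152) .nil)))))))) (.g (nat_lit 6) .nil .nil))) 
(.lf (nat_lit 19950) (.g (nat_lit 3996) (.e (nat_lit 1181) (nat_lit 87) (.e (nat_lit 57479) (nat_lit 28) (.e (nat_lit 557105) (nat_lit 14) (.e (nat_lit 180252) (nat_lit 10) (.e (nat_lit 573489) (nat_lit 14) (.e (nat_lit 73748) (nat_lit 3) (.e (nat_lit 516119) (nat_lit 1) (.e (nat_lit 164167) (nat_lit 152) .nil)))))))) (.g (nat_lit 6) .nil .nil)))) (.nd (nat_lit 5) 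
(.lf (nat_lit 19934) (.g (nat_lit 2368) (.e (nat_lit 1181) (nat_lit 87) (.e (nat_lit 57479) (nat_lit 28) (.e (nat_lit 557105) (nat_lit 14) (.e (nat_lit 180252) (nat_lit 10) (.e (nat_lit 573489) (nat_lit 14) (.e (nat_lit 73748) (nat_lit 3) (.e (nat_lit 516106) (nat_lit 0) (.e (nat_lit 2478) (nat_lit 157) (.e (nat_lit 6315) (nat_lit 337) .nil))))))))) (.g (nat_lit 4) .nil .nil))) 
(.lf (nat_lit 19966) (.g (nat_lit 3193) (.e (nat_lit 1181) (nat_lit 87) (.e (nat_lit 57479) (nat_lit 28) (.e (nat_lit 557105) (nat_lit 14) (.e (nat_lit 180252) (nat_lit 10) (.e (nat_lit 573489) (nat_lit 14) (.e (nat_lit 73755) (nat_lit 8) (.e (nat_lit 557083) (nat_lit 10) (.e (nat_lit 8285) (nat_lit 51) (.e (nat_lit 6322) (nat_lit 337) .nil))))))))) (.g (nat_lit 6) .nil .nil)))))))) 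
(.nd (nat_lit 1) (.nd (nat_lit 2) (.nd (nat_lit 3) (.nd (nat_lit 4) (.nd (nat_lit 5) 
(.lf (nat_lit 19905) (.g (nat_lit 5513) (.e (nat_lit 1181) (nat_lit 87) (.e (nat_lit 57479) (nat_lit 28) (.e (nat_lit 557105) (nat_lit 14) (.e (nat_lit 180252) (nat_lit 10) (.e (nat_lit 573488) (nat_lit 14) (.e (nat_lit 73747) (nat_lit 3) (.e (nat_lit 516117) (nat_lit 1) (.e (nat_lit 164166) (nat_lit 152) .nil)))))))) (.g (nat_lit 6) .nil .nil))) 
(.lf (nat_lit 19937) (.g (nat_lit 3792) (.e (nat_lit 1181) (nat_lit 87) (.e (nat_lit 57479) (nat_lit 28) (.e (nat_lit 557105) (nat_lit 14) (.e (nat_lit 180252) (nat_lit 10) (.e (nat_lit 573489) (nat_lit 14) (.e (nat_lit 73748) (nat_lit 3) (.e (nat_lit 516115) (nat_lit 1) (.e (nat_lit 164164) (nat_lit 152) .nil)))))))) (.g (nat_lit 6) .nil .nil)))) (.nd (nat_lit 5) 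
(.lf (nat_lit 19921) (.g (nat_lit 3638) (.e (nat_lit 1181) (nat_lit 87) (.e (nat_lit 57479) (nat_lit 28) (.e (nat_lit 557105) (nat_lit 14) (.e (nat_lit 180252) (nat_lit 10) (.e (nat_lit 573489) (nat_lit 14) (.e (nat_lit 73745) (nat_lit 3) (.e (nat_lit 516119) (nat_lit 1) (.e (nat_lit 164147) (nat_lit 152) .nil)))))))) (.g (nat_lit 5) .nil .nil))) 
(.lf (nat_lit 19953) (.g (nat_lit 4794) (.e (nat_lit 1181) (nat_lit 87) (.e (nat_lit 57479) (nat_lit 28) (.e (nat_lit 557105) (nat_lit 14) (.e (nat_lit 180252) (nat_lit 10) (.e (nat_lit 573489) (nat_lit 14) (.e (nat_lit 73755) (nat_lit 8) (.e (nat_lit 557067) (nat_lit 9) (.e (nat_lit 128) (nat_lit 6) (.e (nat_lit 123083) (nat_lit 181) .nil))))))))) (.g (nat_lit 7) .nil .nil))))) 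
(.nd (nat_lit 4) (.nd (nat_lit 5) 
(.lf (nat_lit 19913) (.g (nat_lit 5220) (.e (nat_lit 1181) (nat_lit 87) (.e (nat_lit 57479) (nat_lit 28) (.e (nat_lit 557105) (nat_lit 14) (.e (nat_lit 180252) (nat_lit 10) (.e (nat_lit 573488) (nat_lit 14) (.e (nat_lit 73747) (nat_lit 3) (.e (nat_lit 516120) (nat_lit 1) (.e (nat_lit 164166) (nat_lit 152) .nil)))))))) (.g (nat_lit 6) .nil .nil))) 
(.lf (nat_lit 19945) (.g (nat_lit 4196) (.e (nat_lit 1181) (nat_lit 87) (.e (nat_lit 57479) (nat_lit 28) (.e (nat_lit 557105) (nat_lit 14) (.e (nat_lit 180252) (nat_lit 10) (.e (nat_lit 573489) (nat_lit 14) (.e (nat_lit 73748) (nat_lit 3) (.e (nat_lit 516117) (nat_lit 1) (.e (nat_lit 164164) (nat_lit 152) .nil)))))))) (.g (nat_lit 7) .nil .nil)))) (.nd (nat_lit 5) 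
(.lf (nat_lit 19929) (.g (nat_lit 4397) (.e (nat_lit 1181) (nat_lit 87) (.e (nat_lit 57479) (nat_lit 28) (.e (nat_lit 557105) (nat_lit 14) (.e (nat_lit 180252) (nat_lit 10) (.e (nat_lit 573489) (nat_lit 14) (.e (nat_lit 73747) (nat_lit 3) (.e (nat_lit 516119) (nat_lit 1) (.e (nat_lit 164163) (nat_lit 152) .nil)))))))) (.g (nat_lit 6) .nil .nil))) 
(.lf (nat_lit 19961) (.g (nat_lit 3931) (.e (nat_lit 1181) (nat_lit 87) (.e (nat_lit 57479) (nat_lit 28) (.e (nat_lit 557105) (nat_lit 14) (.e (nat_lit 180252) (nat_lit 10) (.e (nat_lit 573489) (nat_lit 14) (.e (nat_lit 73755) (nat_lit 8) (.e (nat_lit 557068) (nat_lit 9) (.e (nat_lit 128) (nat_lit 6) (.e (nat_lit 123086) (nat_lit 181) .nil))))))))) (.g (nat_lit 6) .nil .nil)))))) 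
(.nd (nat_lit 3) (.nd (nat_lit 4) (.nd (nat_lit 5) 
(.lf (nat_lit 19909) (.g (nat_lit 5815) (.e (nat_lit 1181) (nat_lit 87) (.e (nat_lit 57479) (nat_lit 28) (.e (nat_lit 557105) (nat_lit 14) (.e (nat_lit 180252) (nat_lit 10) (.e (nat_lit 573488) (nat_lit 14) (.e (nat_lit 73747) (nat_lit 3) (.e (nat_lit 516119) (nat_lit 1) (.e (nat_lit 164164) (nat_lit 152) .nil)))))))) (.g (nat_lit 7) .nil .nil))) 
(.lf (nat_lit 19941) (.g (nat_lit 3712) (.e (nat_lit 1181) (nat_lit 87) (.e (nat_lit 57479) (nat_lit 28) (.e (nat_lit 557105) (nat_lit 14) (.e (nat_lit 180252) (nat_lit 10) (.e (nat_lit 573489) (nat_lit 14) (.e (nat_lit 73748) (nat_lit 3) (.e (nat_lit 516116) (nat_lit 1) (.e (nat_lit 164164) (nat_lit 152) .nil)))))))) (.g (nat_lit 6) .nil .nil)))) (.nd (nat_lit 5) 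
(.lf (nat_lit 19925) (.g (nat_lit 3617) (.e (nat_lit 1181) (nat_lit 87) (.e (nat_lit 57479) (nat_lit 28) (.e (nat_lit 557105) (nat_lit 14) (.e (nat_lit 180252) (nat_lit 10) (.e (nat_lit 573489) (nat_lit 14) (.e (nat_lit 73747) (nat_lit 3) (.e (nat_lit 516117) (nat_lit 1) (.e (nat_lit 164147) (nat_lit 152) .nil)))))))) (.g (nat_lit 5) .nil .nil))) 
(.lf (nat_lit 19957) (.g (nat_lit 5103) (.e (nat_lit 1181) (nat_lit 87) (.e (nat_lit 57479) (nat_lit 28) (.e (nat_lit 557105) (nat_lit 14) (.e (nat_lit 180252) (nat_lit 10) (.e (nat_lit 573489) (nat_lit 14) (.e (nat_lit 73755) (nat_lit 8) (.e (nat_lit 557067) (nat_lit 9) (.e (nat_lit 2715) (nat_lit 171) (.e (nat_lit 229632) (nat_lit 226) .nil))))))))) (.g (nat_lit 7) .nil .nil))))) 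
(.nd (nat_lit 4) (.nd (nat_lit 5) 
(.lf (nat_lit 19917) (.g (nat_lit 3558) (.e (nat_lit 1181) (nat_lit 87) (.e (nat_lit 57479) (nat_lit 28) (.e (nat_lit 557105) (nat_lit 14) (.e (nat_lit 180252) (nat_lit 10) (.e (nat_lit 573488) (nat_lit 14) (.e (nat_lit 73748) (nat_lit 3) (.e (nat_lit 516119) (nat_lit 1) (.e (nat_lit 164164) (nat_lit 152) .nil)))))))) (.g (nat_lit 4) .nil .nil))) 
(.lf (nat_lit 19949) (.g (nat_lit 4782) (.e (nat_lit 1181) (nat_lit 87) (.e (nat_lit 57479) (nat_lit 28) (.e (nat_lit 557105) (nat_lit 14) (.e (nat_lit 180252) (nat_lit 10) (.e (nat_lit 573489) (nat_lit 14) (.e (nat_lit 73748) (nat_lit 3) (.e (nat_lit 516119) (nat_lit 1) (.e (nat_lit 164164) (nat_lit 152) .nil)))))))) (.g (nat_lit 7) .nil .nil)))) (.nd (nat_lit 5) 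
(.lf (nat_lit 19933) (.g (nat_lit 2401) (.e (nat_lit 1181) (nat_lit 87) (.e (nat_lit 57479) (nat_lit 28) (.e (nat_lit 557105) (nat_lit 14) (.e (nat_lit 180252) (nat_lit 10) (.e (nat_lit 573489) (nat_lit 14) (.e (nat_lit 73748) (nat_lit 3) (.e (nat_lit 516106) (nat_lit 0) (.e (nat_lit 2478) (nat_lit 157) (.e (nat_lit 6314) (nat_lit 337) .nil))))))))) (.g (nat_lit 4) .nil .nil))) 
(.lf (nat_lit 19965) (.g (nat_lit 3119) (.e (nat_lit 1181) (nat_lit 87) (.e (nat_lit 57479) (nat_lit 28) (.e (nat_lit 557105) (nat_lit 14) (.e (nat_lit 180252) (nat_lit 10) (.e (nat_lit 573489) (nat_lit 14) (.e (nat_lit 73755) (nat_lit 8) (.e (nat_lit 557083) (nat_lit 10) (.e (nat_lit 8285) (nat_lit 51) (.e (nat_lit 6321) (nat_lit 337) .nil))))))))) (.g (nat_lit 6) .nil .nil))))))) 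
(.nd (nat_lit 2) (.nd (nat_lit 3) (.nd (nat_lit 4) (.nd (nat_lit 5) 
(.lf (nat_lit 19907) (.g (nat_lit 5809) (.e (nat_lit 1181) (nat_lit 87) (.e (nat_lit 57479) (nat_lit 28) (.e (nat_lit 557105) (nat_lit 14) (.e (nat_lit 180252) (nat_lit 10) (.e (nat_lit 573488) (nat_lit 14) (.e (nat_lit 73747) (nat_lit 3) (.e (nat_lit 516119) (nat_lit 1) (.e (nat_lit 164147) (nat_lit 152) .nil)))))))) (.g (nat_lit 7) .nil .nil))) 
(.lf (nat_lit 19939) (.g (nat_lit 3402) (.e (nat_lit 1181) (nat_lit 87) (.e (nat_lit 57479) (nat_lit 28) (.e (nat_lit 557105) (nat_lit 14) (.e (nat_lit 180252) (nat_lit 10) (.e (nat_lit 573489) (nat_lit 14) (.e (nat_lit 73748) (nat_lit 3) (.e (nat_lit 516115) (nat_lit 1) (.e (nat_lit 164166) (nat_lit 152) .nil)))))))) (.g (nat_lit 5) .nil .nil)))) (.nd (nat_lit 5) 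
(.lf (nat_lit 19923) (.g (nat_lit 2470) (.e (nat_lit 1181) (nat_lit 87) (.e (nat_lit 57479) (nat_lit 28) (.e (nat_lit 557105) (nat_lit 14) (.e (nat_lit 180252) (nat_lit 10) (.e (nat_lit 573489) (nat_lit 14) (.e (nat_lit 73745) (nat_lit 3) (.e (nat_lit 516119) (nat_lit 1) (.e (nat_lit 164167) (nat_lit 152) .nil)))))))) (.g (nat_lit 4) .nil .nil))) 
(.lf (nat_lit 19955) (.g (nat_lit 5056) (.e (nat_lit 1181) (nat_lit 87) (.e (nat_lit 57479) (nat_lit 28) (.e (nat_lit 557105) (nat_lit 14) (.e (nat_lit 180252) (nat_lit 10) (.e (nat_lit 573489) (nat_lit 14) (.e (nat_lit 73755) (nat_lit 8) (.e (nat_lit 557067) (nat_lit 9) (.e (nat_lit 128) (nat_lit 6) (.e (nat_lit 123086) (nat_lit 181) .nil))))))))) (.g (nat_lit 7) .nil .nil))))) 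
(.nd (nat_lit 4) (.nd (nat_lit 5) 
(.lf (nat_lit 19915) (.g (nat_lit 3210) (.e (nat_lit 1181) (nat_lit 87) (.e (nat_lit 57479) (nat_lit 28) (.e (nat_lit 557105) (nat_lit 14) (.e (nat_lit 180252) (nat_lit 10) (.e (nat_lit 573488) (nat_lit 14) (.e (nat_lit 73748) (nat_lit 3) (.e (nat_lit 516115) (nat_lit 1) (.e (nat_lit 164165) (nat_lit 152) .nil)))))))) (.g (nat_lit 4) .nil .nil))) 
(.lf (nat_lit 19947) (.g (nat_lit 4784) (.e (nat_lit 1181) (nat_lit 87) (.e (nat_lit 57479) (nat_lit 28) (.e (nat_lit 557105) (nat_lit 14) (.e (nat_lit 180252) (nat_lit 10) (.e (nat_lit 573489) (nat_lit 14) (.e (nat_lit 73748) (nat_lit 3) (.e (nat_lit 516119) (nat_lit 1) (.e (nat_lit 164147) (nat_lit 152) .nil)))))))) (.g (nat_lit 7) .nil .nil)))) (.nd (nat_lit 5) 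
(.lf (nat_lit 19931) (.g (nat_lit 3951) (.e (nat_lit 1181) (nat_lit 87) (.e (nat_lit 57479) (nat_lit 28) (.e (nat_lit 557105) (nat_lit 14) (.e (nat_lit 180252) (nat_lit 10) (.e (nat_lit 573489) (nat_lit 14) (.e (nat_lit 73747) (nat_lit 3) (.e (nat_lit 516120) (nat_lit 1) (.e (nat_lit 164166) (nat_lit 152) .nil)))))))) (.g (nat_lit 6) .nil .nil))) 
(.lf (nat_lit 19963) (.g (nat_lit 4438) (.e (nat_lit 1181) (nat_lit 87) (.e (nat_lit 57479) (nat_lit 28) (.e (nat_lit 557105) (nat_lit 14) (.e (nat_lit 180252) (nat_lit 10) (.e (nat_lit 573489) (nat_lit 14) (.e (nat_lit 73755) (nat_lit 8) (.e (nat_lit 557068) (nat_lit 9) (.e (nat_lit 2719) (nat_lit 171) (.e (nat_lit 229632) (nat_lit 226) .nil))))))))) (.g (nat_lit 7) .nil .nil)))))) 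
(.nd (nat_lit 3) (.nd (nat_lit 4) (.nd (nat_lit 5) 
(.lf (nat_lit 19911) (.g (nat_lit 5318) (.e (nat_lit 1181) (nat_lit 87) (.e (nat_lit 57479) (nat_lit 28) (.e (nat_lit 557105) (nat_lit 14) (.e (nat_lit 180252) (nat_lit 10) (.e (nat_lit 573488) (nat_lit 14) (.e (nat_lit 73747) (nat_lit 3) (.e (nat_lit 516119) (nat_lit 1) (.e (nat_lit 164167) (nat_lit 152) .nil)))))))) (.g (nat_lit 7) .nil .nil))) 
(.lf (nat_lit 19943) (.g (nat_lit 2934) (.e (nat_lit 1181) (nat_lit 87) (.e (nat_lit 57479) (nat_lit 28) (.e (nat_lit 557105) (nat_lit 14) (.e (nat_lit 180252) (nat_lit 10) (.e (nat_lit 573489) (nat_lit 14) (.e (nat_lit 73748) (nat_lit 3) (.e (nat_lit 516116) (nat_lit 1) (.e (nat_lit 164167) (nat_lit 152) .nil)))))))) (.g (nat_lit 5) .nil .nil)))) (.nd (nat_lit 5) 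
(.lf (nat_lit 19927) (.g (nat_lit 4198) (.e (nat_lit 1181) (nat_lit 87) (.e (nat_lit 57479) (nat_lit 28) (.e (nat_lit 557105) (nat_lit 14) (.e (nat_lit 180252) (nat_lit 10) (.e (nat_lit 573489) (nat_lit 14) (.e (nat_lit 73747) (nat_lit 3) (.e (nat_lit 516117) (nat_lit 1) (.e (nat_lit 164166) (nat_lit 152) .nil)))))))) (.g (nat_lit 6) .nil .nil))) 
(.lf (nat_lit 19959) (.g (nat_lit 3669) (.e (nat_lit 1181) (nat_lit 87) (.e (nat_lit 57479) (nat_lit 28) (.e (nat_lit 557105) (nat_lit 14) (.e (nat_lit 180252) (nat_lit 10) (.e (nat_lit 573489) (nat_lit 14) (.e (nat_lit 73755) (nat_lit 8) (.e (nat_lit 557068) (nat_lit 9) (.e (nat_lit 128) (nat_lit 6) (.e (nat_lit 123083) (nat_lit 181) .nil))))))))) (.g (nat_lit 6) .nil .nil))))) 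
(.nd (nat_lit 4) (.nd (nat_lit 5) 
(.lf (nat_lit 19919) (.g (nat_lit 3171) (.e (nat_lit 1181) (nat_lit 87) (.e (nat_lit 57479) (nat_lit 28) (.e (nat_lit 557105) (nat_lit 14) (.e (nat_lit 180252) (nat_lit 10) (.e (nat_lit 573489) (nat_lit 14) (.e (nat_lit 73745) (nat_lit 3) (.e (nat_lit 516116) (nat_lit 1) (.e (nat_lit 164166) (nat_lit 152) .nil)))))))) (.g (nat_lit 5) .nil .nil))) 
(.lf (nat_lit 19951) (.g (nat_lit 3393) (.e (nat_lit 1181) (nat_lit 87) (.e (nat_lit 57479) (nat_lit 28) (.e (nat_lit 557105) (nat_lit 14) (.e (nat_lit 180252) (nat_lit 10) (.e (nat_lit 573489) (nat_lit 14) (.e (nat_lit 73748) (nat_lit 3) (.e (nat_lit 516120) (nat_lit 1) (.e (nat_lit 164147) (nat_lit 152) .nil)))))))) (.g (nat_lit 5) .nil .nil)))) (.nd (nat_lit 5) 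
(.lf (nat_lit 19935) (.g (nat_lit 2313) (.e (nat_lit 1181) (nat_lit 87) (.e (nat_lit 57479) (nat_lit 28) (.e (nat_lit 557105) (nat_lit 14) (.e (nat_lit 180252) (nat_lit 10) (.e (nat_lit 573489) (nat_lit 14) (.e (nat_lit 73748) (nat_lit 3) (.e (nat_lit 516115) (nat_lit 1) (.e (nat_lit 164147) (nat_lit 152) .nil)))))))) (.g (nat_lit 4) .nil .nil))) 
(.lf (nat_lit 19967) (.g (nat_lit 2365) (.e (nat_lit 1181) (nat_lit 87) (.e (nat_lit 57479) (nat_lit 28) (.e (nat_lit 557105) (nat_lit 14) (.e (nat_lit 180252) (nat_lit 10) (.e (nat_lit 573489) (nat_lit 14) (.e (nat_lit 73755) (nat_lit 8) (.e (nat_lit 557083) (nat_lit 10) (.e (nat_lit 8290) (nat_lit 51) (.e (nat_lit 6264) (nat_lit 337) .nil))))))))) (.g (nat_lit 4) .nil .nil)))))))))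

noncomputable def tv277 : DT := (.nd (nat_lit 0) (.nd (nat_lit 1) (.nd (nat_lit 2) (.nd (nat_lit 3) (.nd (nat_lit 4) (.nd (nat_lit 5) 
(.lf (nat_lit 19968) (.g (nat_lit 2823) (.e (nat_lit 1181) (nat_lit 87) (.e (nat_lit 57479) (nat_lit 28) (.e (nat_lit 557105) (nat_lit 14) (.e (nat_lit 180252) (nat_lit 10) (.e (nat_lit 573489) (nat_lit 14) (.e (nat_lit 73755) (nat_lit 8) (.e (nat_lit 557083) (nat_lit 10) (.e (nat_lit 8290) (nat_lit 51) (.e (nat_lit 6308) (nat_lit 337) .nil))))))))) (.g (nat_lit 5) .nil .nil))) 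
(.lf (nat_lit 20000) (.g (nat_lit 5069) (.e (nat_lit 1181) (nat_lit 87) (.e (nat_lit 57479) (nat_lit 28) (.e (nat_lit 557105) (nat_lit 14) (.e (nat_lit 180252) (nat_lit 10) (.e (nat_lit 573489) (nat_lit 14) (.e (nat_lit 73755) (nat_lit 8) (.e (nat_lit 557084) (nat_lit 10) (.e (nat_lit 8285) (nat_lit 51) (.e (nat_lit 6320) (nat_lit 337) .nil))))))))) (.g (nat_lit 7) .nil .nil)))) (.nd (nat_lit 5) 
(.lf (nat_lit 19984) (.g (nat_lit 4051) (.e (nat_lit 1181) (nat_lit 87) (.e (nat_lit 57479) (nat_lit 28) (.e (nat_lit 557105) (nat_lit 14) (.e (nat_lit 180252) (nat_lit 10) (.e (nat_lit 573489) (nat_lit 14) (.e (nat_lit 73755) (nat_lit 8) (.e (nat_lit 557083) (nat_lit 10) (.e (nat_lit 8293) (nat_lit 51) (.e (nat_lit 6322) (nat_lit 337) .nil))))))))) (.g (nat_lit 7) .nil .nil))) 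
(.lf (nat_lit 20016) (.g (nat_lit 4579) (.e (nat_lit 1181) (nat_lit 87) (.e (nat_lit 57479) (nat_lit 28) (.e (nat_lit 557105) (nat_lit 14) (.e (nat_lit 180252) (nat_lit 10) (.e (nat_lit 573489) (nat_lit 14) (.e (nat_lit 73755) (nat_lit 8) (.e (nat_lit 557084) (nat_lit 10) (.e (nat_lit 8292) (nat_lit 51) (.e (nat_lit 6322) (nat_lit 337) .nil))))))))) (.g (nat_lit 7) .nil .nil))))) 
(.nd (nat_lit 4) (.nd (nat_lit 5) 
(.lf (nat_lit 19976) (.g (nat_lit 3002) (.e (nat_lit 1181) (nat_lit 87) (.e (nat_lit 57479) (nat_lit 28) (.e (nat_lit 557105) (nat_lit 14) (.e (nat_lit 180252) (nat_lit 10) (.e (nat_lit 573489) (nat_lit 14) (.e (nat_lit 73755) (nat_lit 8) (.e (nat_lit 557083) (nat_lit 10) (.e (nat_lit 8292) (nat_lit 51) (.e (nat_lit 6308) (nat_lit 337) .nil))))))))) (.g (nat_lit 6) .nil .nil))) 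
(.lf (nat_lit 20008) (.g (nat_lit 4541) (.e (nat_lit 1181) (nat_lit 87) (.e (nat_lit 57479) (nat_lit 28) (.e (nat_lit 557105) (nat_lit 14) (.e (nat_lit 180252) (nat_lit 10) (.e (nat_lit 573489) (nat_lit 14) (.e (nat_lit 73755) (nat_lit 8) (.e (nat_lit 557084) (nat_lit 10) (.e (nat_lit 8290) (nat_lit 51) (.e (nat_lit 6321) (nat_lit 337) .nil))))))))) (.g (nat_lit 7) .nil .nil)))) (.nd (nat_lit 5) 
(.lf (nat_lit 19992) (.g (nat_lit 3914) (.e (nat_lit 1181) (nat_lit 87) (.e (nat_lit 57479) (nat_lit 28) (.e (nat_lit 557105) (nat_lit 14) (.e (nat_lit 180252) (nat_lit 10) (.e (nat_lit 573489) (nat_lit 14) (.e (nat_lit 73755) (nat_lit 8) (.e (nat_lit 557084) (nat_lit 10) (.e (nat_lit 8285) (nat_lit 51) (.e (nat_lit 6308) (nat_lit 337) .nil))))))))) (.g (nat_lit 6) .nil .nil))) 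
(.lf (nat_lit 20024) (.g (nat_lit 3586) (.e (nat_lit 1181) (nat_lit 87) (.e (nat_lit 57479) (nat_lit 28) (.e (nat_lit 557105) (nat_lit 14) (.e (nat_lit 180252) (nat_lit 10) (.e (nat_lit 573489) (nat_lit 14) (.e (nat_lit 73755) (nat_lit 8) (.e (nat_lit 557090) (nat_lit 12) (.e (nat_lit 163841) (nat_lit 0) (.e (nat_lit 5148) (nat_lit 292) .nil))))))))) (.g (nat_lit 7) .nil .nil)))))) 
(.nd (nat_lit 3) (.nd (nat_lit 4) (.nd (nat_lit 5) 
(.lf (nat_lit 19972) (.g (nat_lit 3060) (.e (nat_lit 1181) (nat_lit 87) (.e (nat_lit 57479) (nat_lit 28) (.e (nat_lit 557105) (nat_lit 14) (.e (nat_lit 180252) (nat_lit 10) (.e (nat_lit 573489) (nat_lit 14) (.e (nat_lit 73755) (nat_lit 8) (.e (nat_lit 557083) (nat_lit 10) (.e (nat_lit 8291) (nat_lit 51) (.e (nat_lit 6308) (nat_lit 337) .nil))))))))) (.g (nat_lit 6) .nil .nil))) 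
(.lf (nat_lit 20004) (.g (nat_lit 3702) (.e (nat_lit 1181) (nat_lit 87) (.e (nat_lit 57479) (nat_lit 28) (.e (nat_lit 557105) (nat_lit 14) (.e (nat_lit 180252) (nat_lit 10) (.e (nat_lit 573489) (nat_lit 14) (.e (nat_lit 73755) (nat_lit 8) (.e (nat_lit 557084) (nat_lit 10) (.e (nat_lit 8290) (nat_lit 51) (.e (nat_lit 6264) (nat_lit 337) .nil))))))))) (.g (nat_lit 6) .nil .nil)))) (.nd (nat_lit 5) 
(.lf (nat_lit 19988) (.g (nat_lit 3675) (.e (nat_lit 1181) (nat_lit 87) (.e (nat_lit 57479) (nat_lit 28) (.e (nat_lit 557105) (nat_lit 14) (.e (nat_lit 180252) (nat_lit 10) (.e (nat_lit 573489) (nat_lit 14) (.e (nat_lit 73755) (nat_lit 8) (.e (nat_lit 557084) (nat_lit 10) (.e (nat_lit 8285) (nat_lit 51) (.e (nat_lit 6303) (nat_lit 337) .nil))))))))) (.g (nat_lit 6) .nil .nil))) 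
(.lf (nat_lit 20020) (.g (nat_lit 4418) (.e (nat_lit 1181) (nat_lit 87) (.e (nat_lit 57479) (nat_lit 28) (.e (nat_lit 557105) (nat_lit 14) (.e (nat_lit 180252) (nat_lit 10) (.e (nat_lit 573489) (nat_lit 14) (.e (nat_lit 73755) (nat_lit 8) (.e (nat_lit 557084) (nat_lit 10) (.e (nat_lit 8293) (nat_lit 51) (.e (nat_lit 6322) (nat_lit 337) .nil))))))))) (.g (nat_lit 7) .nil .nil))))) 
(.nd (nat_lit 4) (.nd (nat_lit 5) 
(.lf (nat_lit 19980) (.g (nat_lit 3136) (.e (nat_lit 1181) (nat_lit 87) (.e (nat_lit 57479) (nat_lit 28) (.e (nat_lit 557105) (nat_lit 14) (.e (nat_lit 180252) (nat_lit 10) (.e (nat_lit 573489) (nat_lit 14) (.e (nat_lit 73755) (nat_lit 8) (.e (nat_lit 557083) (nat_lit 10) (.e (nat_lit 8293) (nat_lit 51) (.e (nat_lit 6264) (nat_lit 337) .nil))))))))) (.g (nat_lit 6) .nil .nil))) 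
(.lf (nat_lit 20012) (.g (nat_lit 3919) (.e (nat_lit 1181) (nat_lit 87) (.e (nat_lit 57479) (nat_lit 28) (.e (nat_lit 557105) (nat_lit 14) (.e (nat_lit 180252) (nat_lit 10) (.e (nat_lit 573489) (nat_lit 14) (.e (nat_lit 73755) (nat_lit 8) (.e (nat_lit 557084) (nat_lit 10) (.e (nat_lit 8292) (nat_lit 51) (.e (nat_lit 6264) (nat_lit 337) .nil))))))))) (.g (nat_lit 6) .nil .nil)))) (.nd (nat_lit 5) 
(.lf (nat_lit 19996) (.g (nat_lit 3677) (.e (nat_lit 1181) (nat_lit 87) (.e (nat_lit 57479) (nat_lit 28) (.e (nat_lit 557105) (nat_lit 14) (.e (nat_lit 180252) (nat_lit 10) (.e (nat_lit 573489) (nat_lit 14) (.e (nat_lit 73755) (nat_lit 8) (.e (nat_lit 557084) (nat_lit 10) (.e (nat_lit 8285) (nat_lit 51) (.e (nat_lit 6316) (nat_lit 337) .nil))))))))) (.g (nat_lit 6) .nil .nil))) 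
(.lf (nat_lit 20028) (.g (nat_lit 4354) (.e (nat_lit 1181) (nat_lit 87) (.e (nat_lit 57479) (nat_lit 28) (.e (nat_lit 557105) (nat_lit 14) (.e (nat_lit 180252) (nat_lit 10) (.e (nat_lit 573489) (nat_lit 14) (.e (nat_lit 73755) (nat_lit 8) (.e (nat_lit 557090) (nat_lit 12) (.e (nat_lit 163855) (nat_lit 0) (.e (nat_lit 5152) (nat_lit 292) .nil))))))))) (.g (nat_lit 7) .nil .nil))))))) 
(.nd (nat_lit 2) (.nd (nat_lit 3) (.nd (nat_lit 4) (.nd (nat_lit 5) 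
(.lf (nat_lit 19970) (.g (nat_lit 3204) (.e (nat_lit 1181) (nat_lit 87) (.e (nat_lit 57479) (nat_lit 28) (.e (nat_lit 557105) (nat_lit 14) (.e (nat_lit 180252) (nat_lit 10) (.e (nat_lit 573489) (nat_lit 14) (.e (nat_lit 73755) (nat_lit 8) (.e (nat_lit 557083) (nat_lit 10) (.e (nat_lit 8290) (nat_lit 51) (.e (nat_lit 6321) (nat_lit 337) .nil))))))))) (.g (nat_lit 6) .nil .nil))) 
(.lf (nat_lit 20002) (.g (nat_lit 4866) (.e (nat_lit 1181) (nat_lit 87) (.e (nat_lit 57479) (nat_lit 28) (.e (nat_lit 557105) (nat_lit 14) (.e (nat_lit 180252) (nat_lit 10) (.e (nat_lit 573489) (nat_lit 14) (.e (nat_lit 73755) (nat_lit 8) (.e (nat_lit 557084) (nat_lit 10) (.e (nat_lit 8285) (nat_lit 51) (.e (nat_lit 6322) (nat_lit 337) .nil))))))))) (.g (nat_lit 7) .nil .nil)))) (.nd (nat_lit 5) 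
(.lf (nat_lit 19986) (.g (nat_lit 3679) (.e (nat_lit 1181) (nat_lit 87) (.e (nat_lit 57479) (nat_lit 28) (.e (nat_lit 557105) (nat_lit 14) (.e (nat_lit 180252) (nat_lit 10) (.e (nat_lit 573489) (nat_lit 14) (.e (nat_lit 73755) (nat_lit 8) (.e (nat_lit 557084) (nat_lit 10) (.e (nat_lit 8285) (nat_lit 51) (.e (nat_lit 6301) (nat_lit 337) .nil))))))))) (.g (nat_lit 6) .nil .nil))) 
(.lf (nat_lit 20018) (.g (nat_lit 4189) (.e (nat_lit 1181) (nat_lit 87) (.e (nat_lit 57479) (nat_lit 28) (.e (nat_lit 557105) (nat_lit 14) (.e (nat_lit 180252) (nat_lit 10) (.e (nat_lit 573489) (nat_lit 14) (.e (nat_lit 73755) (nat_lit 8) (.e (nat_lit 557084) (nat_lit 10) (.e (nat_lit 8293) (nat_lit 51) (.e (nat_lit 6308) (nat_lit 337) .nil))))))))) (.g (nat_lit 6) .nil .nil))))) 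
(.nd (nat_lit 4) (.nd (nat_lit 5) 
(.lf (nat_lit 19978) (.g (nat_lit 3144) (.e (nat_lit 1181) (nat_lit 87) (.e (nat_lit 57479) (nat_lit 28) (.e (nat_lit 557105) (nat_lit 14) (.e (nat_lit 180252) (nat_lit 10) (.e (nat_lit 573489) (nat_lit 14) (.e (nat_lit 73755) (nat_lit 8) (.e (nat_lit 557083) (nat_lit 10) (.e (nat_lit 8292) (nat_lit 51) (.e (nat_lit 6321) (nat_lit 337) .nil))))))))) (.g (nat_lit 6) .nil .nil))) 
(.lf (nat_lit 20010) (.g (nat_lit 4298) (.e (nat_lit 1181) (nat_lit 87) (.e (nat_lit 57479) (nat_lit 28) (.e (nat_lit 557105) (nat_lit 14) (.e (nat_lit 180252) (nat_lit 10) (.e (nat_lit 573489) (nat_lit 14) (.e (nat_lit 73755) (nat_lit 8) (.e (nat_lit 557084) (nat_lit 10) (.e (nat_lit 8291) (nat_lit 51) (.e (nat_lit 6320) (nat_lit 337) .nil))))))))) (.g (nat_lit 6) .nil .nil)))) (.nd (nat_lit 5) 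
(.lf (nat_lit 19994) (.g (nat_lit 3677) (.e (nat_lit 1181) (nat_lit 87) (.e (nat_lit 57479) (nat_lit 28) (.e (nat_lit 557105) (nat_lit 14) (.e (nat_lit 180252) (nat_lit 10) (.e (nat_lit 573489) (nat_lit 14) (.e (nat_lit 73755) (nat_lit 8) (.e (nat_lit 557084) (nat_lit 10) (.e (nat_lit 8285) (nat_lit 51) (.e (nat_lit 6310) (nat_lit 337) .nil))))))))) (.g (nat_lit 6) .nil .nil))) 
(.lf (nat_lit 20026) (.g (nat_lit 1655) (.e (nat_lit 1181) (nat_lit 87) (.e (nat_lit 57479) (nat_lit 28) (.e (nat_lit 557105) (nat_lit 14) (.e (nat_lit 180252) (nat_lit 10) (.e (nat_lit 573489) (nat_lit 14) (.e (nat_lit 73755) (nat_lit 8) (.e (nat_lit 557090) (nat_lit 12) (.e (nat_lit 163843) (nat_lit 0) (.e (nat_lit 7936) (nat_lit 292) .nil))))))))) (.g (nat_lit 4) .nil .nil)))))) 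
(.nd (nat_lit 3) (.nd (nat_lit 4) (.nd (nat_lit 5) 
(.lf (nat_lit 19974) (.g (nat_lit 3281) (.e (nat_lit 1181) (nat_lit 87) (.e (nat_lit 57479) (nat_lit 28) (.e (nat_lit 557105) (nat_lit 14) (.e (nat_lit 180252) (nat_lit 10) (.e (nat_lit 573489) (nat_lit 14) (.e (nat_lit 73755) (nat_lit 8) (.e (nat_lit 557083) (nat_lit 10) (.e (nat_lit 8291) (nat_lit 51) (.e (nat_lit 6321) (nat_lit 337) .nil))))))))) (.g (nat_lit 6) .nil .nil))) 
(.lf (nat_lit 20006) (.g (nat_lit 3510) (.e (nat_lit 1181) (nat_lit 87) (.e (nat_lit 57479) (nat_lit 28) (.e (nat_lit 557105) (nat_lit 14) (.e (nat_lit 180252) (nat_lit 10) (.e (nat_lit 573489) (nat_lit 14) (.e (nat_lit 73755) (nat_lit 8) (.e (nat_lit 557084) (nat_lit 10) (.e (nat_lit 8290) (nat_lit 51) (.e (nat_lit 6319) (nat_lit 337) .nil))))))))) (.g (nat_lit 6) .nil .nil)))) (.nd (nat_lit 5) 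
(.lf (nat_lit 19990) (.g (nat_lit 3757) (.e (nat_lit 1181) (nat_lit 87) (.e (nat_lit 57479) (nat_lit 28) (.e (nat_lit 557105) (nat_lit 14) (.e (nat_lit 180252) (nat_lit 10) (.e (nat_lit 573489) (nat_lit 14) (.e (nat_lit 73755) (nat_lit 8) (.e (nat_lit 557084) (nat_lit 10) (.e (nat_lit 8285) (nat_lit 51) (.e (nat_lit 6305) (nat_lit 337) .nil))))))))) (.g (nat_lit 6) .nil .nil))) 
(.lf (nat_lit 20022) (.g (nat_lit 3132) (.e (nat_lit 1181) (nat_lit 87) (.e (nat_lit 57479) (nat_lit 28) (.e (nat_lit 557105) (nat_lit 14) (.e (nat_lit 180252) (nat_lit 10) (.e (nat_lit 573489) (nat_lit 14) (.e (nat_lit 73755) (nat_lit 8) (.e (nat_lit 557090) (nat_lit 12) (.e (nat_lit 163841) (nat_lit 0) (.e (nat_lit 5113) (nat_lit 292) .nil))))))))) (.g (nat_lit 6) .nil .nil))))) 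
(.nd (nat_lit 4) (.nd (nat_lit 5) 
(.lf (nat_lit 19982) (.g (nat_lit 2878) (.e (nat_lit 1181) (nat_lit 87) (.e (nat_lit 57479) (nat_lit 28) (.e (nat_lit 557105) (nat_lit 14) (.e (nat_lit 180252) (nat_lit 10) (.e (nat_lit 573489) (nat_lit 14) (.e (nat_lit 73755) (nat_lit 8) (.e (nat_lit 557083) (nat_lit 10) (.e (nat_lit 8293) (nat_lit 51) (.e (nat_lit 6319) (nat_lit 337) .nil))))))))) (.g (nat_lit 5) .nil .nil))) 
(.lf (nat_lit 20014) (.g (nat_lit 3757) (.e (nat_lit 1181) (nat_lit 87) (.e (nat_lit 57479) (nat_lit 28) (.e (nat_lit 557105) (nat_lit 14) (.e (nat_lit 180252) (nat_lit 10) (.e (nat_lit 573489) (nat_lit 14) (.e (nat_lit 73755) (nat_lit 8) (.e (nat_lit 557084) (nat_lit 10) (.e (nat_lit 8292) (nat_lit 51) (.e (nat_lit 6319) (nat_lit 337) .nil))))))))) (.g (nat_lit 6) .nil .nil)))) (.nd (nat_lit 5) 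
(.lf (nat_lit 19998) (.g (nat_lit 3966) (.e (nat_lit 1181) (nat_lit 87) (.e (nat_lit 57479) (nat_lit 28) (.e (nat_lit 557105) (nat_lit 14) (.e (nat_lit 180252) (nat_lit 10) (.e (nat_lit 573489) (nat_lit 14) (.e (nat_lit 73755) (nat_lit 8) (.e (nat_lit 557084) (nat_lit 10) (.e (nat_lit 8285) (nat_lit 51) (.e (nat_lit 6318) (nat_lit 337) .nil))))))))) (.g (nat_lit 6) .nil .nil))) 
(.lf (nat_lit 20030) (.g (nat_lit 2980) (.e (nat_lit 1181) (nat_lit 87) (.e (nat_lit 57479) (nat_lit 28) (.e (nat_lit 557105) (nat_lit 14) (.e (nat_lit 180252) (nat_lit 10) (.e (nat_lit 573489) (nat_lit 14) (.e (nat_lit 73755) (nat_lit 8) (.e (nat_lit 557090) (nat_lit 12) (.e (nat_lit 171776) (nat_lit 0) (.e (nat_lit 5107) (nat_lit 292) .nil))))))))) (.g (nat_lit 6) .nil .nil)))))))) 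
(.nd (nat_lit 1) (.nd (nat_lit 2) (.nd (nat_lit 3) (.nd (nat_lit 4) (.nd (nat_lit 5) 
(.lf (nat_lit 19969) (.g (nat_lit 3505) (.e (nat_lit 1181) (nat_lit 87) (.e (nat_lit 57479) (nat_lit 28) (.e (nat_lit 557105) (nat_lit 14) (.e (nat_lit 180252) (nat_lit 10) (.e (nat_lit 573489) (nat_lit 14) (.e (nat_lit 73755) (nat_lit 8) (.e (nat_lit 557083) (nat_lit 10) (.e (nat_lit 8290) (nat_lit 51) (.e (nat_lit 6320) (nat_lit 337) .nil))))))))) (.g (nat_lit 6) .nil .nil))) 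
(.lf (nat_lit 20001) (.g (nat_lit 4796) (.e (nat_lit 1181) (nat_lit 87) (.e (nat_lit 57479) (nat_lit 28) (.e (nat_lit 557105) (nat_lit 14) (.e (nat_lit 180252) (nat_lit 10) (.e (nat_lit 573489) (nat_lit 14) (.e (nat_lit 73755) (nat_lit 8) (.e (nat_lit 557084) (nat_lit 10) (.e (nat_lit 8285) (nat_lit 51) (.e (nat_lit 6321) (nat_lit 337) .nil))))))))) (.g (nat_lit 7) .nil .nil)))) (.nd (nat_lit 5) 
(.lf (nat_lit 19985) (.g (nat_lit 3676) (.e (nat_lit 1181) (nat_lit 87) (.e (nat_lit 57479) (nat_lit 28) (.e (nat_lit 557105) (nat_lit 14) (.e (nat_lit 180252) (nat_lit 10) (.e (nat_lit 573489) (nat_lit 14) (.e (nat_lit 73755) (nat_lit 8) (.e (nat_lit 557084) (nat_lit 10) (.e (nat_lit 8285) (nat_lit 51) (.e (nat_lit 6300) (nat_lit 337) .nil))))))))) (.g (nat_lit 6) .nil .nil))) 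
(.lf (nat_lit 20017) (.g (nat_lit 3500) (.e (nat_lit 1181) (nat_lit 87) (.e (nat_lit 57479) (nat_lit 28) (.e (nat_lit 557105) (nat_lit 14) (.e (nat_lit 180252) (nat_lit 10) (.e (nat_lit 573489) (nat_lit 14) (.e (nat_lit 73755) (nat_lit 8) (.e (nat_lit 557084) (nat_lit 10) (.e (nat_lit 8293) (nat_lit 51) (.e (nat_lit 6264) (nat_lit 337) .nil))))))))) (.g (nat_lit 6) .nil .nil))))) 
(.nd (nat_lit 4) (.nd (nat_lit 5) 
(.lf (nat_lit 19977) (.g (nat_lit 2382) (.e (nat_lit 1181) (nat_lit 87) (.e (nat_lit 57479) (nat_lit 28) (.e (nat_lit 557105) (nat_lit 14) (.e (nat_lit 180252) (nat_lit 10) (.e (nat_lit 573489) (nat_lit 14) (.e (nat_lit 73755) (nat_lit 8) (.e (nat_lit 557083) (nat_lit 10) (.e (nat_lit 8292) (nat_lit 51) (.e (nat_lit 6319) (nat_lit 337) .nil))))))))) (.g (nat_lit 4) .nil .nil))) 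
(.lf (nat_lit 20009) (.g (nat_lit 3782) (.e (nat_lit 1181) (nat_lit 87) (.e (nat_lit 57479) (nat_lit 28) (.e (nat_lit 557105) (nat_lit 14) (.e (nat_lit 180252) (nat_lit 10) (.e (nat_lit 573489) (nat_lit 14) (.e (nat_lit 73755) (nat_lit 8) (.e (nat_lit 557084) (nat_lit 10) (.e (nat_lit 8291) (nat_lit 51) (.e (nat_lit 6308) (nat_lit 337) .nil))))))))) (.g (nat_lit 6) .nil .nil)))) (.nd (nat_lit 5) 
(.lf (nat_lit 19993) (.g (nat_lit 3684) (.e (nat_lit 1181) (nat_lit 87) (.e (nat_lit 57479) (nat_lit 28) (.e (nat_lit 557105) (nat_lit 14) (.e (nat_lit 180252) (nat_lit 10) (.e (nat_lit 573489) (nat_lit 14) (.e (nat_lit 73755) (nat_lit 8) (.e (nat_lit 557084) (nat_lit 10) (.e (nat_lit 8285) (nat_lit 51) (.e (nat_lit 6309) (nat_lit 337) .nil))))))))) (.g (nat_lit 6) .nil .nil))) 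
(.lf (nat_lit 20025) (.g (nat_lit 4465) (.e (nat_lit 1181) (nat_lit 87) (.e (nat_lit 57479) (nat_lit 28) (.e (nat_lit 557105) (nat_lit 14) (.e (nat_lit 180252) (nat_lit 10) (.e (nat_lit 573489) (nat_lit 14) (.e (nat_lit 73755) (nat_lit 8) (.e (nat_lit 557090) (nat_lit 12) (.e (nat_lit 163842) (nat_lit 0) (.e (nat_lit 5148) (nat_lit 292) .nil))))))))) (.g (nat_lit 8) .nil .nil)))))) 
(.nd (nat_lit 3) (.nd (nat_lit 4) (.nd (nat_lit 5) 
(.lf (nat_lit 19973) (.g (nat_lit 3576) (.e (nat_lit 1181) (nat_lit 87) (.e (nat_lit 57479) (nat_lit 28) (.e (nat_lit 557105) (nat_lit 14) (.e (nat_lit 180252) (nat_lit 10) (.e (nat_lit 573489) (nat_lit 14) (.e (nat_lit 73755) (nat_lit 8) (.e (nat_lit 557083) (nat_lit 10) (.e (nat_lit 8291) (nat_lit 51) (.e (nat_lit 6320) (nat_lit 337) .nil))))))))) (.g (nat_lit 6) .nil .nil))) 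
(.lf (nat_lit 20005) (.g (nat_lit 4160) (.e (nat_lit 1181) (nat_lit 87) (.e (nat_lit 57479) (nat_lit 28) (.e (nat_lit 557105) (nat_lit 14) (.e (nat_lit 180252) (nat_lit 10) (.e (nat_lit 573489) (nat_lit 14) (.e (nat_lit 73755) (nat_lit 8) (.e (nat_lit 557084) (nat_lit 10) (.e (nat_lit 8290) (nat_lit 51) (.e (nat_lit 6308) (nat_lit 337) .nil))))))))) (.g (nat_lit 6) .nil .nil)))) (.nd (nat_lit 5) 
(.lf (nat_lit 19989) (.g (nat_lit 3695) (.e (nat_lit 1181) (nat_lit 87) (.e (nat_lit 57479) (nat_lit 28) (.e (nat_lit 557105) (nat_lit 14) (.e (nat_lit 180252) (nat_lit 10) (.e (nat_lit 573489) (nat_lit 14) (.e (nat_lit 73755) (nat_lit 8) (.e (nat_lit 557084) (nat_lit 10) (.e (nat_lit 8285) (nat_lit 51) (.e (nat_lit 6304) (nat_lit 337) .nil))))))))) (.g (nat_lit 6) .nil .nil))) 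
(.lf (nat_lit 20021) (.g (nat_lit 3335) (.e (nat_lit 1181) (nat_lit 87) (.e (nat_lit 57479) (nat_lit 28) (.e (nat_lit 557105) (nat_lit 14) (.e (nat_lit 180252) (nat_lit 10) (.e (nat_lit 573489) (nat_lit 14) (.e (nat_lit 73755) (nat_lit 8) (.e (nat_lit 557090) (nat_lit 12) (.e (nat_lit 163841) (nat_lit 0) (.e (nat_lit 5108) (nat_lit 292) .nil))))))))) (.g (nat_lit 6) .nil .nil))))) 
(.nd (nat_lit 4) (.nd (nat_lit 5) 
(.lf (nat_lit 19981) (.g (nat_lit 3825) (.e (nat_lit 1181) (nat_lit 87) (.e (nat_lit 57479) (nat_lit 28) (.e (nat_lit 557105) (nat_lit 14) (.e (nat_lit 180252) (nat_lit 10) (.e (nat_lit 573489) (nat_lit 14) (.e (nat_lit 73755) (nat_lit 8) (.e (nat_lit 557083) (nat_lit 10) (.e (nat_lit 8293) (nat_lit 51) (.e (nat_lit 6308) (nat_lit 337) .nil))))))))) (.g (nat_lit 6) .nil .nil))) 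
(.lf (nat_lit 20013) (.g (nat_lit 4351) (.e (nat_lit 1181) (nat_lit 87) (.e (nat_lit 57479) (nat_lit 28) (.e (nat_lit 557105) (nat_lit 14) (.e (nat_lit 180252) (nat_lit 10) (.e (nat_lit 573489) (nat_lit 14) (.e (nat_lit 73755) (nat_lit 8) (.e (nat_lit 557084) (nat_lit 10) (.e (nat_lit 8292) (nat_lit 51) (.e (nat_lit 6308) (nat_lit 337) .nil))))))))) (.g (nat_lit 6) .nil .nil)))) (.nd (nat_lit 5) 
(.lf (nat_lit 19997) (.g (nat_lit 3684) (.e (nat_lit 1181) (nat_lit 87) (.e (nat_lit 57479) (nat_lit 28) (.e (nat_lit 557105) (nat_lit 14) (.e (nat_lit 180252) (nat_lit 10) (.e (nat_lit 573489) (nat_lit 14) (.e (nat_lit 73755) (nat_lit 8) (.e (nat_lit 557084) (nat_lit 10) (.e (nat_lit 8285) (nat_lit 51) (.e (nat_lit 6317) (nat_lit 337) .nil))))))))) (.g (nat_lit 6) .nil .nil))) 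
(.lf (nat_lit 20029) (.g (nat_lit 4469) (.e (nat_lit 1181) (nat_lit 87) (.e (nat_lit 57479) (nat_lit 28) (.e (nat_lit 557105) (nat_lit 14) (.e (nat_lit 180252) (nat_lit 10) (.e (nat_lit 573489) (nat_lit 14) (.e (nat_lit 73755) (nat_lit 8) (.e (nat_lit 557090) (nat_lit 12) (.e (nat_lit 163856) (nat_lit 0) (.e (nat_lit 5152) (nat_lit 292) .nil))))))))) (.g (nat_lit 7) .nil .nil))))))) 
(.nd (nat_lit 2) (.nd (nat_lit 3) (.nd (nat_lit 4) (.nd (nat_lit 5) 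
(.lf (nat_lit 19971) (.g (nat_lit 2347) (.e (nat_lit 1181) (nat_lit 87) (.e (nat_lit 57479) (nat_lit 28) (.e (nat_lit 557105) (nat_lit 14) (.e (nat_lit 180252) (nat_lit 10) (.e (nat_lit 573489) (nat_lit 14) (.e (nat_lit 73755) (nat_lit 8) (.e (nat_lit 557083) (nat_lit 10) (.e (nat_lit 8291) (nat_lit 51) (.e (nat_lit 6264) (nat_lit 337) .nil))))))))) (.g (nat_lit 4) .nil .nil))) 
(.lf (nat_lit 20003) (.g (nat_lit 3677) (.e (nat_lit 1181) (nat_lit 87) (.e (nat_lit 57479) (nat_lit 28) (.e (nat_lit 557105) (nat_lit 14) (.e (nat_lit 180252) (nat_lit 10) (.e (nat_lit 573489) (nat_lit 14) (.e (nat_lit 73755) (nat_lit 8) (.e (nat_lit 557084) (nat_lit 10) (.e (nat_lit 8285) (nat_lit 51) (.e (nat_lit 6323) (nat_lit 337) .nil))))))))) (.g (nat_lit 6) .nil .nil)))) (.nd (nat_lit 5) 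
(.lf (nat_lit 19987) (.g (nat_lit 3675) (.e (nat_lit 1181) (nat_lit 87) (.e (nat_lit 57479) (nat_lit 28) (.e (nat_lit 557105) (nat_lit 14) (.e (nat_lit 180252) (nat_lit 10) (.e (nat_lit 573489) (nat_lit 14) (.e (nat_lit 73755) (nat_lit 8) (.e (nat_lit 557084) (nat_lit 10) (.e (nat_lit 8285) (nat_lit 51) (.e (nat_lit 6302) (nat_lit 337) .nil))))))))) (.g (nat_lit 6) .nil .nil))) 
(.lf (nat_lit 20019) (.g (nat_lit 4373) (.e (nat_lit 1181) (nat_lit 87) (.e (nat_lit 57479) (nat_lit 28) (.e (nat_lit 557105) (nat_lit 14) (.e (nat_lit 180252) (nat_lit 10) (.e (nat_lit 573489) (nat_lit 14) (.e (nat_lit 73755) (nat_lit 8) (.e (nat_lit 557084) (nat_lit 10) (.e (nat_lit 8293) (nat_lit 51) (.e (nat_lit 6321) (nat_lit 337) .nil))))))))) (.g (nat_lit 7) .nil .nil))))) 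
(.nd (nat_lit 4) (.nd (nat_lit 5) 
(.lf (nat_lit 19979) (.g (nat_lit 3218) (.e (nat_lit 1181) (nat_lit 87) (.e (nat_lit 57479) (nat_lit 28) (.e (nat_lit 557105) (nat_lit 14) (.e (nat_lit 180252) (nat_lit 10) (.e (nat_lit 573489) (nat_lit 14) (.e (nat_lit 73755) (nat_lit 8) (.e (nat_lit 557083) (nat_lit 10) (.e (nat_lit 8292) (nat_lit 51) (.e (nat_lit 6322) (nat_lit 337) .nil))))))))) (.g (nat_lit 6) .nil .nil))) 
(.lf (nat_lit 20011) (.g (nat_lit 4003) (.e (nat_lit 1181) (nat_lit 87) (.e (nat_lit 57479) (nat_lit 28) (.e (nat_lit 557105) (nat_lit 14) (.e (nat_lit 180252) (nat_lit 10) (.e (nat_lit 573489) (nat_lit 14) (.e (nat_lit 73755) (nat_lit 8) (.e (nat_lit 557084) (nat_lit 10) (.e (nat_lit 8291) (nat_lit 51) (.e (nat_lit 6321) (nat_lit 337) .nil))))))))) (.g (nat_lit 6) .nil .nil)))) (.nd (nat_lit 5) 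
(.lf (nat_lit 19995) (.g (nat_lit 3680) (.e (nat_lit 1181) (nat_lit 87) (.e (nat_lit 57479) (nat_lit 28) (.e (nat_lit 557105) (nat_lit 14) (.e (nat_lit 180252) (nat_lit 10) (.e (nat_lit 573489) (nat_lit 14) (.e (nat_lit 73755) (nat_lit 8) (.e (nat_lit 557084) (nat_lit 10) (.e (nat_lit 8285) (nat_lit 51) (.e (nat_lit 6311) (nat_lit 337) .nil))))))))) (.g (nat_lit 6) .nil .nil))) 
(.lf (nat_lit 20027) (.g (nat_lit 1932) (.e (nat_lit 1181) (nat_lit 87) (.e (nat_lit 57479) (nat_lit 28) (.e (nat_lit 557105) (nat_lit 14) (.e (nat_lit 180252) (nat_lit 10) (.e (nat_lit 573489) (nat_lit 14) (.e (nat_lit 73755) (nat_lit 8) (.e (nat_lit 557090) (nat_lit 12) (.e (nat_lit 163844) (nat_lit 0) (.e (nat_lit 7936) (nat_lit 292) .nil))))))))) (.g (nat_lit 5) .nil .nil)))))) 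
(.nd (nat_lit 3) (.nd (nat_lit 4) (.nd (nat_lit 5) 
(.lf (nat_lit 19975) (.g (nat_lit 2544) (.e (nat_lit 1181) (nat_lit 87) (.e (nat_lit 57479) (nat_lit 28) (.e (nat_lit 557105) (nat_lit 14) (.e (nat_lit 180252) (nat_lit 10) (.e (nat_lit 573489) (nat_lit 14) (.e (nat_lit 73755) (nat_lit 8) (.e (nat_lit 557083) (nat_lit 10) (.e (nat_lit 8292) (nat_lit 51) (.e (nat_lit 6264) (nat_lit 337) .nil))))))))) (.g (nat_lit 4) .nil .nil))) 
(.lf (nat_lit 20007) (.g (nat_lit 4842) (.e (nat_lit 1181) (nat_lit 87) (.e (nat_lit 57479) (nat_lit 28) (.e (nat_lit 557105) (nat_lit 14) (.e (nat_lit 180252) (nat_lit 10) (.e (nat_lit 573489) (nat_lit 14) (.e (nat_lit 73755) (nat_lit 8) (.e (nat_lit 557084) (nat_lit 10) (.e (nat_lit 8290) (nat_lit 51) (.e (nat_lit 6320) (nat_lit 337) .nil))))))))) (.g (nat_lit 7) .nil .nil)))) (.nd (nat_lit 5) 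
(.lf (nat_lit 19991) (.g (nat_lit 3587) (.e (nat_lit 1181) (nat_lit 87) (.e (nat_lit 57479) (nat_lit 28) (.e (nat_lit 557105) (nat_lit 14) (.e (nat_lit 180252) (nat_lit 10) (.e (nat_lit 573489) (nat_lit 14) (.e (nat_lit 73755) (nat_lit 8) (.e (nat_lit 557084) (nat_lit 10) (.e (nat_lit 8285) (nat_lit 51) (.e (nat_lit 6307) (nat_lit 337) .nil))))))))) (.g (nat_lit 6) .nil .nil))) 
(.lf (nat_lit 20023) (.g (nat_lit 3403) (.e (nat_lit 1181) (nat_lit 87) (.e (nat_lit 57479) (nat_lit 28) (.e (nat_lit 557105) (nat_lit 14) (.e (nat_lit 180252) (nat_lit 10) (.e (nat_lit 573489) (nat_lit 14) (.e (nat_lit 73755) (nat_lit 8) (.e (nat_lit 557090) (nat_lit 12) (.e (nat_lit 163841) (nat_lit 0) (.e (nat_lit 5115) (nat_lit 292) .nil))))))))) (.g (nat_lit 6) .nil .nil))))) 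
(.nd (nat_lit 4) (.nd (nat_lit 5) 
(.lf (nat_lit 19983) (.g (nat_lit 3990) (.e (nat_lit 1181) (nat_lit 87) (.e (nat_lit 57479) (nat_lit 28) (.e (nat_lit 557105) (nat_lit 14) (.e (nat_lit 180252) (nat_lit 10) (.e (nat_lit 573489) (nat_lit 14) (.e (nat_lit 73755) (nat_lit 8) (.e (nat_lit 557083) (nat_lit 10) (.e (nat_lit 8293) (nat_lit 51) (.e (nat_lit 6321) (nat_lit 337) .nil))))))))) (.g (nat_lit 6) .nil .nil))) 
(.lf (nat_lit 20015) (.g (nat_lit 4510) (.e (nat_lit 1181) (nat_lit 87) (.e (nat_lit 57479) (nat_lit 28) (.e (nat_lit 557105) (nat_lit 14) (.e (nat_lit 180252) (nat_lit 10) (.e (nat_lit 573489) (nat_lit 14) (.e (nat_lit 73755) (nat_lit 8) (.e (nat_lit 557084) (nat_lit 10) (.e (nat_lit 8292) (nat_lit 51) (.e (nat_lit 6321) (nat_lit 337) .nil))))))))) (.g (nat_lit 7) .nil .nil)))) (.nd (nat_lit 5) 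
(.lf (nat_lit 19999) (.g (nat_lit 3641) (.e (nat_lit 1181) (nat_lit 87) (.e (nat_lit 57479) (nat_lit 28) (.e (nat_lit 557105) (nat_lit 14) (.e (nat_lit 180252) (nat_lit 10) (.e (nat_lit 573489) (nat_lit 14) (.e (nat_lit 73755) (nat_lit 8) (.e (nat_lit 557084) (nat_lit 10) (.e (nat_lit 8285) (nat_lit 51) (.e (nat_lit 6319) (nat_lit 337) .nil))))))))) (.g (nat_lit 6) .nil .nil))) 
(.lf (nat_lit 20031) (.g (nat_lit 3688) (.e (nat_lit 1181) (nat_lit 87) (.e (nat_lit 57479) (nat_lit 28) (.e (nat_lit 557105) (nat_lit 14) (.e (nat_lit 180252) (nat_lit 10) (.e (nat_lit 573489) (nat_lit 14) (.e (nat_lit 73755) (nat_lit 8) (.e (nat_lit 557090) (nat_lit 12) (.e (nat_lit 171776) (nat_lit 0) (.e (nat_lit 5116) (nat_lit 292) .nil))))))))) (.g (nat_lit 7) .nil .nil)))))))))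

noncomputable def tv278 : DT := (.nd (nat_lit 0) (.nd (nat_lit 1) (.nd (nat_lit 2) (.nd (nat_lit 3) (.nd (nat_lit 4) (.nd (nat_lit 5) 
(.lf (nat_lit 20032) (.g (nat_lit 3763) (.e (nat_lit 1181) (nat_lit 87) (.e (nat_lit 57479) (nat_lit 28) (.e (nat_lit 557105) (nat_lit 14) (.e (nat_lit 180252) (nat_lit 10) (.e (nat_lit 573489) (nat_lit 14) (.e (nat_lit 73755) (nat_lit 8) (.e (nat_lit 557090) (nat_lit 12) (.e (nat_lit 171776) (nat_lit 0) (.e (nat_lit 5153) (nat_lit 292) .nil))))))))) (.g (nat_lit 7) .nil .nil))) 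
(.lf (nat_lit 20064) (.g (nat_lit 3682) (.e (nat_lit 1181) (nat_lit 87) (.e (nat_lit 57479) (nat_lit 28) (.e (nat_lit 557109) (nat_lit 15) (.e (nat_lit 188452) (nat_lit 23) (.e (nat_lit 204816) (nat_lit 17) (.e (nat_lit 6155) (nat_lit 332) (.e (nat_lit 2546) (nat_lit 158) (.e (nat_lit 8439) (nat_lit 138) .nil)))))))) (.g (nat_lit 4) .nil .nil)))) (.nd (nat_lit 5) 
(.lf (nat_lit 20048) (.g (nat_lit 3439) (.e (nat_lit 1181) (nat_lit 87) (.e (nat_lit 57479) (nat_lit 28) (.e (nat_lit 557107) (nat_lit 15) (.e (nat_lit 188441) (nat_lit 20) .nil)))) .nil)) 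
(.lf (nat_lit 20080) (.g (nat_lit 4062) (.e (nat_lit 1181) (nat_lit 87) (.e (nat_lit 57479) (nat_lit 28) (.e (nat_lit 557109) (nat_lit 15) (.e (nat_lit 188452) (nat_lit 23) (.e (nat_lit 204816) (nat_lit 17) (.e (nat_lit 6714) (nat_lit 360) (.e (nat_lit 163850) (nat_lit 0) (.e (nat_lit 4607) (nat_lit 269) .nil)))))))) (.g (nat_lit 4) .nil .nil))))) (.nd (nat_lit 4) (.nd (nat_lit 5) 
(.lf (nat_lit 20040) (.g (nat_lit 3440) (.e (nat_lit 1181) (nat_lit 87) (.e (nat_lit 57479) (nat_lit 28) (.e (nat_lit 557106) (nat_lit 15) (.e (nat_lit 188452) (nat_lit 23) (.e (nat_lit 204872) (nat_lit 30) (.e (nat_lit 368662) (nat_lit 18) (.e (nat_lit 5907) (nat_lit 320) .nil))))))) (.g (nat_lit 4) .nil .nil))) 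
(.lf (nat_lit 20072) (.g (nat_lit 4110) (.e (nat_lit 1181) (nat_lit 87) (.e (nat_lit 57479) (nat_lit 28) (.e (nat_lit 557109) (nat_lit 15) (.e (nat_lit 188452) (nat_lit 23) (.e (nat_lit 204816) (nat_lit 17) (.e (nat_lit 6712) (nat_lit 360) (.e (nat_lit 163844) (nat_lit 0) (.e (nat_lit 4598) (nat_lit 269) .nil)))))))) (.g (nat_lit 4) .nil .nil)))) (.nd (nat_lit 5) 
(.lf (nat_lit 20056) (.g (nat_lit 3419) (.e (nat_lit 1181) (nat_lit 87) (.e (nat_lit 57479) (nat_lit 28) (.e (nat_lit 557109) (nat_lit 15) (.e (nat_lit 188435) (nat_lit 20) .nil)))) .nil)) 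
(.lf (nat_lit 20088) (.g (nat_lit 3836) (.e (nat_lit 1181) (nat_lit 87) (.e (nat_lit 57479) (nat_lit 28) (.e (nat_lit 557109) (nat_lit 15) (.e (nat_lit 188452) (nat_lit 23) (.e (nat_lit 204872) (nat_lit 30) .nil))))) .nil))))) (.nd (nat_lit 3) (.nd (nat_lit 4) (.nd (nat_lit 5) 
(.lf (nat_lit 20036) (.g (nat_lit 1715) (.e (nat_lit 1181) (nat_lit 87) (.e (nat_lit 57479) (nat_lit 28) (.e (nat_lit 557106) (nat_lit 15) (.e (nat_lit 188452) (nat_lit 23) .nil)))) .nil)) 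
(.lf (nat_lit 20068) (.g (nat_lit 3787) (.e (nat_lit 1181) (nat_lit 87) (.e (nat_lit 57479) (nat_lit 28) (.e (nat_lit 557109) (nat_lit 15) (.e (nat_lit 188452) (nat_lit 23) (.e (nat_lit 204816) (nat_lit 17) (.e (nat_lit 6513) (nat_lit 346) (.e (nat_lit 57354) (nat_lit 0) (.e (nat_lit 5907) (nat_lit 320) .nil)))))))) (.g (nat_lit 4) .nil .nil)))) (.nd (nat_lit 5) 
(.lf (nat_lit 20052) (.g (nat_lit 2911) (.e (nat_lit 1181) (nat_lit 87) (.e (nat_lit 57479) (nat_lit 28) (.e (nat_lit 557109) (nat_lit 15) (.e (nat_lit 188419) (nat_lit 0) (.e (nat_lit 1856) (nat_lit 124) .nil))))) .nil)) 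
(.lf (nat_lit 20084) (.g (nat_lit 6232) (.e (nat_lit 1181) (nat_lit 87) (.e (nat_lit 57479) (nat_lit 28) (.e (nat_lit 557109) (nat_lit 15) (.e (nat_lit 188452) (nat_lit 23) (.e (nat_lit 204859) (nat_lit 26) (.e (nat_lit 335998) (nat_lit 1) (.e (nat_lit 57873) (nat_lit 264) .nil))))))) (.g (nat_lit 4) .nil .nil))))) (.nd (nat_lit 4) (.nd (nat_lit 5) 
(.lf (nat_lit 20044) (.g (nat_lit 3672) (.e (nat_lit 1181) (nat_lit 87) (.e (nat_lit 57479) (nat_lit 28) (.e (nat_lit 557107) (nat_lit 15) (.e (nat_lit 188439) (nat_lit 20) .nil)))) .nil)) 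
(.lf (nat_lit 20076) (.g (nat_lit 3904) (.e (nat_lit 1181) (nat_lit 87) (.e (nat_lit 57479) (nat_lit 28) (.e (nat_lit 557109) (nat_lit 15) (.e (nat_lit 188452) (nat_lit 23) (.e (nat_lit 204816) (nat_lit 17) (.e (nat_lit 6712) (nat_lit 360) (.e (nat_lit 163850) (nat_lit 0) (.e (nat_lit 4607) (nat_lit 269) .nil)))))))) (.g (nat_lit 4) .nil .nil)))) (.nd (nat_lit 5) 
(.lf (nat_lit 20060) (.g (nat_lit 3939) (.e (nat_lit 1181) (nat_lit 87) (.e (nat_lit 57479) (nat_lit 28) (.e (nat_lit 557109) (nat_lit 15) (.e (nat_lit 188452) (nat_lit 23) (.e (nat_lit 204816) (nat_lit 17) (.e (nat_lit 6152) (nat_lit 332) (.e (nat_lit 2544) (nat_lit 158) (.e (nat_lit 8439) (nat_lit 138) .nil)))))))) (.g (nat_lit 4) .nil .nil))) 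
(.lf (nat_lit 20092) (.g (nat_lit 4710) (.e (nat_lit 1181) (nat_lit 87) (.e (nat_lit 57479) (nat_lit 28) (.e (nat_lit 557109) (nat_lit 15) (.e (nat_lit 188452) (nat_lit 23) (.e (nat_lit 204874) (nat_lit 30) .nil))))) .nil)))))) (.nd (nat_lit 2) (.nd (nat_lit 3) (.nd (nat_lit 4) (.nd (nat_lit 5) 
(.lf (nat_lit 20034) (.g (nat_lit 692) (.e (nat_lit 1181) (nat_lit 87) (.e (nat_lit 57479) (nat_lit 28) (.e (nat_lit 557106) (nat_lit 15) .nil))) .nil)) 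
(.lf (nat_lit 20066) (.g (nat_lit 4556) (.e (nat_lit 1181) (nat_lit 87) (.e (nat_lit 57479) (nat_lit 28) (.e (nat_lit 557109) (nat_lit 15) (.e (nat_lit 188452) (nat_lit 23) (.e (nat_lit 204816) (nat_lit 17) (.e (nat_lit 6436) (nat_lit 343) (.e (nat_lit 1183) (nat_lit 87) (.e (nat_lit 57871) (nat_lit 264) .nil)))))))) (.g (nat_lit 5) .nil .nil)))) (.nd (nat_lit 5) 
(.lf (nat_lit 20050) (.g (nat_lit 2369) (.e (nat_lit 1181) (nat_lit 87) (.e (nat_lit 57479) (nat_lit 28) (.e (nat_lit 557107) (nat_lit 15) (.e (nat_lit 188456) (nat_lit 25) .nil)))) .nil)) 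
(.lf (nat_lit 20082) (.g (nat_lit 5607) (.e (nat_lit 1181) (nat_lit 87) (.e (nat_lit 57479) (nat_lit 28) (.e (nat_lit 557109) (nat_lit 15) (.e (nat_lit 188452) (nat_lit 23) (.e (nat_lit 204849) (nat_lit 25) (.e (nat_lit 327692) (nat_lit 1) (.e (nat_lit 8439) (nat_lit 138) .nil))))))) (.g (nat_lit 7) .nil .nil))))) (.nd (nat_lit 4) (.nd (nat_lit 5) 
(.lf (nat_lit 20042) (.g (nat_lit 791) (.e (nat_lit 1181) (nat_lit 87) (.e (nat_lit 57479) (nat_lit 28) (.e (nat_lit 557107) (nat_lit 15) .nil))) .nil)) 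
(.lf (nat_lit 20074) (.g (nat_lit 4248) (.e (nat_lit 1181) (nat_lit 87) (.e (nat_lit 57479) (nat_lit 28) (.e (nat_lit 557109) (nat_lit 15) (.e (nat_lit 188452) (nat_lit 23) (.e (nat_lit 204816) (nat_lit 17) (.e (nat_lit 6712) (nat_lit 360) (.e (nat_lit 163850) (nat_lit 0) (.e (nat_lit 4605) (nat_lit 269) .nil)))))))) (.g (nat_lit 4) .nil .nil)))) (.nd (nat_lit 5) 
(.lf (nat_lit 20058) (.g (nat_lit 2313) (.e (nat_lit 1181) (nat_lit 87) (.e (nat_lit 57479) (nat_lit 28) (.e (nat_lit 557109) (nat_lit 15) (.e (nat_lit 188450) (nat_lit 23) .nil)))) .nil)) 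
(.lf (nat_lit 20090) (.g (nat_lit 4571) (.e (nat_lit 1181) (nat_lit 87) (.e (nat_lit 57479) (nat_lit 28) (.e (nat_lit 557109) (nat_lit 15) (.e (nat_lit 188452) (nat_lit 23) (.e (nat_lit 204872) (nat_lit 30) (.e (nat_lit 368662) (nat_lit 18) (.e (nat_lit 5907) (nat_lit 320) .nil))))))) (.g (nat_lit 4) .nil .nil)))))) (.nd (nat_lit 3) (.nd (nat_lit 4) (.nd (nat_lit 5) 
(.lf (nat_lit 20038) (.g (nat_lit 3890) (.e (nat_lit 1181) (nat_lit 87) (.e (nat_lit 57479) (nat_lit 28) (.e (nat_lit 557106) (nat_lit 15) (.e (nat_lit 188452) (nat_lit 23) (.e (nat_lit 204859) (nat_lit 26) .nil))))) .nil)) 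
(.lf (nat_lit 20070) (.g (nat_lit 4513) (.e (nat_lit 1181) (nat_lit 87) (.e (nat_lit 57479) (nat_lit 28) (.e (nat_lit 557109) (nat_lit 15) (.e (nat_lit 188452) (nat_lit 23) (.e (nat_lit 204816) (nat_lit 17) (.e (nat_lit 6514) (nat_lit 346) (.e (nat_lit 57354) (nat_lit 0) (.e (nat_lit 5907) (nat_lit 320) .nil)))))))) (.g (nat_lit 5) .nil .nil)))) (.nd (nat_lit 5) 
(.lf (nat_lit 20054) (.g (nat_lit 4649) (.e (nat_lit 1181) (nat_lit 87) (.e (nat_lit 57479) (nat_lit 28) (.e (nat_lit 557109) (nat_lit 15) (.e (nat_lit 188434) (nat_lit 20) (.e (nat_lit 3271) (nat_lit 199) .nil))))) .nil)) 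
(.lf (nat_lit 20086) (.g (nat_lit 6017) (.e (nat_lit 1181) (nat_lit 87) (.e (nat_lit 57479) (nat_lit 28) (.e (nat_lit 557109) (nat_lit 15) (.e (nat_lit 188452) (nat_lit 23) (.e (nat_lit 204861) (nat_lit 26) .nil))))) .nil)))) (.nd (nat_lit 4) (.nd (nat_lit 5) 
(.lf (nat_lit 20046) (.g (nat_lit 2380) (.e (nat_lit 1181) (nat_lit 87) (.e (nat_lit 57479) (nat_lit 28) (.e (nat_lit 557107) (nat_lit 15) (.e (nat_lit 188440) (nat_lit 20) .nil)))) .nil)) 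
(.lf (nat_lit 20078) (.g (nat_lit 4326) (.e (nat_lit 1181) (nat_lit 87) (.e (nat_lit 57479) (nat_lit 28) (.e (nat_lit 557109) (nat_lit 15) (.e (nat_lit 188452) (nat_lit 23) (.e (nat_lit 204816) (nat_lit 17) (.e (nat_lit 6714) (nat_lit 360) (.e (nat_lit 163850) (nat_lit 0) (.e (nat_lit 4605) (nat_lit 269) .nil)))))))) (.g (nat_lit 4) .nil .nil)))) (.nd (nat_lit 5) 
(.lf (nat_lit 20062) (.g (nat_lit 3968) (.e (nat_lit 1181) (nat_lit 87) (.e (nat_lit 57479) (nat_lit 28) (.e (nat_lit 557109) (nat_lit 15) (.e (nat_lit 188452) (nat_lit 23) (.e (nat_lit 204816) (nat_lit 17) (.e (nat_lit 6154) (nat_lit 332) (.e (nat_lit 2544) (nat_lit 158) (.e (nat_lit 8439) (nat_lit 138) .nil)))))))) (.g (nat_lit 4) .nil .nil))) 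
(.lf (nat_lit 20094) (.g (nat_lit 5159) (.e (nat_lit 1181) (nat_lit 87) (.e (nat_lit 57479) (nat_lit 28) (.e (nat_lit 557109) (nat_lit 15) (.e (nat_lit 188452) (nat_lit 23) (.e (nat_lit 204874) (nat_lit 30) (.e (nat_lit 368662) (nat_lit 18) (.e (nat_lit 5907) (nat_lit 320) .nil))))))) (.g (nat_lit 4) .nil .nil)))))))) 
(.nd (nat_lit 1) (.nd (nat_lit 2) (.nd (nat_lit 3) (.nd (nat_lit 4) (.nd (nat_lit 5) 
(.lf (nat_lit 20033) (.g (nat_lit 2454) (.e (nat_lit 1181) (nat_lit 87) (.e (nat_lit 57479) (nat_lit 28) (.e (nat_lit 557105) (nat_lit 14) (.e (nat_lit 180252) (nat_lit 10) (.e (nat_lit 573489) (nat_lit 14) (.e (nat_lit 73755) (nat_lit 8) (.e (nat_lit 557090) (nat_lit 12) (.e (nat_lit 171776) (nat_lit 0) (.e (nat_lit 5156) (nat_lit 292) .nil))))))))) (.g (nat_lit 4) .nil .nil))) 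
(.lf (nat_lit 20065) (.g (nat_lit 3794) (.e (nat_lit 1181) (nat_lit 87) (.e (nat_lit 57479) (nat_lit 28) (.e (nat_lit 557109) (nat_lit 15) (.e (nat_lit 188452) (nat_lit 23) (.e (nat_lit 204816) (nat_lit 17) (.e (nat_lit 6203) (nat_lit 332) (.e (nat_lit 2544) (nat_lit 158) (.e (nat_lit 8439) (nat_lit 138) .nil)))))))) (.g (nat_lit 4) .nil .nil)))) (.nd (nat_lit 5) 
(.lf (nat_lit 20049) (.g (nat_lit 3523) (.e (nat_lit 1181) (nat_lit 87) (.e (nat_lit 57479) (nat_lit 28) (.e (nat_lit 557107) (nat_lit 15) (.e (nat_lit 188448) (nat_lit 22) .nil)))) .nil)) 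
(.lf (nat_lit 20081) (.g (nat_lit 3272) (.e (nat_lit 1181) (nat_lit 87) (.e (nat_lit 57479) (nat_lit 28) (.e (nat_lit 557109) (nat_lit 15) (.e (nat_lit 188452) (nat_lit 23) (.e (nat_lit 204849) (nat_lit 25) .nil))))) .nil)))) (.nd (nat_lit 4) (.nd (nat_lit 5) 
(.lf (nat_lit 20041) (.g (nat_lit 3371) (.e (nat_lit 1181) (nat_lit 87) (.e (nat_lit 57479) (nat_lit 28) (.e (nat_lit 557106) (nat_lit 15) (.e (nat_lit 188452) (nat_lit 23) (.e (nat_lit 204873) (nat_lit 30) .nil))))) .nil)) 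
(.lf (nat_lit 20073) (.g (nat_lit 3831) (.e (nat_lit 1181) (nat_lit 87) (.e (nat_lit 57479) (nat_lit 28) (.e (nat_lit 557109) (nat_lit 15) (.e (nat_lit 188452) (nat_lit 23) (.e (nat_lit 204816) (nat_lit 17) (.e (nat_lit 6712) (nat_lit 360) (.e (nat_lit 163849) (nat_lit 0) (.e (nat_lit 4598) (nat_lit 269) .nil)))))))) (.g (nat_lit 4) .nil .nil)))) (.nd (nat_lit 5) 
(.lf (nat_lit 20057) (.g (nat_lit 2062) (.e (nat_lit 1181) (nat_lit 87) (.e (nat_lit 57479) (nat_lit 28) (.e (nat_lit 557109) (nat_lit 15) (.e (nat_lit 188449) (nat_lit 22) .nil)))) .nil)) 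
(.lf (nat_lit 20089) (.g (nat_lit 4380) (.e (nat_lit 1181) (nat_lit 87) (.e (nat_lit 57479) (nat_lit 28) (.e (nat_lit 557109) (nat_lit 15) (.e (nat_lit 188452) (nat_lit 23) (.e (nat_lit 204872) (nat_lit 30) (.e (nat_lit 368662) (nat_lit 18) (.e (nat_lit 5906) (nat_lit 320) .nil))))))) (.g (nat_lit 4) .nil .nil)))))) (.nd (nat_lit 3) (.nd (nat_lit 4) (.nd (nat_lit 5) 
(.lf (nat_lit 20037) (.g (nat_lit 3295) (.e (nat_lit 1181) (nat_lit 87) (.e (nat_lit 57479) (nat_lit 28) (.e (nat_lit 557106) (nat_lit 15) (.e (nat_lit 188452) (nat_lit 23) (.e (nat_lit 204852) (nat_lit 26) .nil))))) .nil)) 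
(.lf (nat_lit 20069) (.g (nat_lit 4163) (.e (nat_lit 1181) (nat_lit 87) (.e (nat_lit 57479) (nat_lit 28) (.e (nat_lit 557109) (nat_lit 15) (.e (nat_lit 188452) (nat_lit 23) (.e (nat_lit 204816) (nat_lit 17) (.e (nat_lit 6514) (nat_lit 346) (.e (nat_lit 57354) (nat_lit 0) (.e (nat_lit 5906) (nat_lit 320) .nil)))))))) (.g (nat_lit 4) .nil .nil)))) (.nd (nat_lit 5) 
(.lf (nat_lit 20053) (.g (nat_lit 1538) (.e (nat_lit 1181) (nat_lit 87) (.e (nat_lit 57479) (nat_lit 28) (.e (nat_lit 557109) (nat_lit 15) (.e (nat_lit 196352) (nat_lit 18) .nil)))) .nil)) 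
(.lf (nat_lit 20085) (.g (nat_lit 6595) (.e (nat_lit 1181) (nat_lit 87) (.e (nat_lit 57479) (nat_lit 28) (.e (nat_lit 557109) (nat_lit 15) (.e (nat_lit 188452) (nat_lit 23) (.e (nat_lit 204860) (nat_lit 26) .nil))))) .nil)))) (.nd (nat_lit 4) (.nd (nat_lit 5) 
(.lf (nat_lit 20045) (.g (nat_lit 4777) (.e (nat_lit 1181) (nat_lit 87) (.e (nat_lit 57479) (nat_lit 28) (.e (nat_lit 557107) (nat_lit 15) (.e (nat_lit 188439) (nat_lit 20) (.e (nat_lit 3272) (nat_lit 199) .nil))))) .nil)) 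
(.lf (nat_lit 20077) (.g (nat_lit 4559) (.e (nat_lit 1181) (nat_lit 87) (.e (nat_lit 57479) (nat_lit 28) (.e (nat_lit 557109) (nat_lit 15) (.e (nat_lit 188452) (nat_lit 23) (.e (nat_lit 204816) (nat_lit 17) (.e (nat_lit 6714) (nat_lit 360) (.e (nat_lit 163843) (nat_lit 0) (.e (nat_lit 4598) (nat_lit 269) .nil)))))))) (.g (nat_lit 5) .nil .nil)))) (.nd (nat_lit 5) 
(.lf (nat_lit 20061) (.g (nat_lit 3703) (.e (nat_lit 1181) (nat_lit 87) (.e (nat_lit 57479) (nat_lit 28) (.e (nat_lit 557109) (nat_lit 15) (.e (nat_lit 188452) (nat_lit 23) (.e (nat_lit 204816) (nat_lit 17) (.e (nat_lit 6152) (nat_lit 332) (.e (nat_lit 2546) (nat_lit 158) (.e (nat_lit 8439) (nat_lit 138) .nil)))))))) (.g (nat_lit 4) .nil .nil))) 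
(.lf (nat_lit 20093) (.g (nat_lit 5101) (.e (nat_lit 1181) (nat_lit 87) (.e (nat_lit 57479) (nat_lit 28) (.e (nat_lit 557109) (nat_lit 15) (.e (nat_lit 188452) (nat_lit 23) (.e (nat_lit 204874) (nat_lit 30) (.e (nat_lit 368662) (nat_lit 18) (.e (nat_lit 5906) (nat_lit 320) .nil))))))) (.g (nat_lit 4) .nil .nil))))))) (.nd (nat_lit 2) (.nd (nat_lit 3) (.nd (nat_lit 4) (.nd (nat_lit 5) 
(.lf (nat_lit 20035) (.g (nat_lit 1756) (.e (nat_lit 1181) (nat_lit 87) (.e (nat_lit 57479) (nat_lit 28) (.e (nat_lit 557106) (nat_lit 15) (.e (nat_lit 188448) (nat_lit 22) .nil)))) .nil)) 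
(.lf (nat_lit 20067) (.g (nat_lit 3585) (.e (nat_lit 1181) (nat_lit 87) (.e (nat_lit 57479) (nat_lit 28) (.e (nat_lit 557109) (nat_lit 15) (.e (nat_lit 188452) (nat_lit 23) (.e (nat_lit 204816) (nat_lit 17) (.e (nat_lit 6513) (nat_lit 346) (.e (nat_lit 57354) (nat_lit 0) (.e (nat_lit 5906) (nat_lit 320) .nil)))))))) (.g (nat_lit 4) .nil .nil)))) (.nd (nat_lit 5) 
(.lf (nat_lit 20051) (.g (nat_lit 627) (.e (nat_lit 1181) (nat_lit 87) (.e (nat_lit 57479) (nat_lit 28) (.e (nat_lit 557109) (nat_lit 15) .nil))) .nil)) 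
(.lf (nat_lit 20083) (.g (nat_lit 3309) (.e (nat_lit 1181) (nat_lit 87) (.e (nat_lit 57479) (nat_lit 28) (.e (nat_lit 557109) (nat_lit 15) (.e (nat_lit 188452) (nat_lit 23) (.e (nat_lit 204852) (nat_lit 26) .nil))))) .nil)))) (.nd (nat_lit 4) (.nd (nat_lit 5) 
(.lf (nat_lit 20043) (.g (nat_lit 1309) (.e (nat_lit 1181) (nat_lit 87) (.e (nat_lit 57479) (nat_lit 28) (.e (nat_lit 557107) (nat_lit 15) (.e (nat_lit 196352) (nat_lit 18) .nil)))) .nil)) 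
(.lf (nat_lit 20075) (.g (nat_lit 3681) (.e (nat_lit 1181) (nat_lit 87) (.e (nat_lit 57479) (nat_lit 28) (.e (nat_lit 557109) (nat_lit 15) (.e (nat_lit 188452) (nat_lit 23) (.e (nat_lit 204816) (nat_lit 17) (.e (nat_lit 6712) (nat_lit 360) (.e (nat_lit 163850) (nat_lit 0) (.e (nat_lit 4606) (nat_lit 269) .nil)))))))) (.g (nat_lit 4) .nil .nil)))) (.nd (nat_lit 5) 
(.lf (nat_lit 20059) (.g (nat_lit 2970) (.e (nat_lit 1181) (nat_lit 87) (.e (nat_lit 57479) (nat_lit 28) (.e (nat_lit 557109) (nat_lit 15) (.e (nat_lit 188452) (nat_lit 23) (.e (nat_lit 204816) (nat_lit 17) .nil))))) .nil)) 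
(.lf (nat_lit 20091) (.g (nat_lit 5055) (.e (nat_lit 1181) (nat_lit 87) (.e (nat_lit 57479) (nat_lit 28) (.e (nat_lit 557109) (nat_lit 15) (.e (nat_lit 188452) (nat_lit 23) (.e (nat_lit 204873) (nat_lit 30) .nil))))) .nil))))) (.nd (nat_lit 3) (.nd (nat_lit 4) (.nd (nat_lit 5) 
(.lf (nat_lit 20039) (.g (nat_lit 3371) (.e (nat_lit 1181) (nat_lit 87) (.e (nat_lit 57479) (nat_lit 28) (.e (nat_lit 557106) (nat_lit 15) (.e (nat_lit 188452) (nat_lit 23) (.e (nat_lit 204872) (nat_lit 30) .nil))))) .nil)) 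
(.lf (nat_lit 20071) (.g (nat_lit 4618) (.e (nat_lit 1181) (nat_lit 87) (.e (nat_lit 57479) (nat_lit 28) (.e (nat_lit 557109) (nat_lit 15) (.e (nat_lit 188452) (nat_lit 23) (.e (nat_lit 204816) (nat_lit 17) (.e (nat_lit 6712) (nat_lit 360) (.e (nat_lit 163843) (nat_lit 0) (.e (nat_lit 4598) (nat_lit 269) .nil)))))))) (.g (nat_lit 5) .nil .nil)))) (.nd (nat_lit 5) 
(.lf (nat_lit 20055) (.g (nat_lit 4532) (.e (nat_lit 1181) (nat_lit 87) (.e (nat_lit 57479) (nat_lit 28) (.e (nat_lit 557109) (nat_lit 15) (.e (nat_lit 188434) (nat_lit 20) (.e (nat_lit 3272) (nat_lit 199) .nil))))) .nil)) 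
(.lf (nat_lit 20087) (.g (nat_lit 5000) (.e (nat_lit 1181) (nat_lit 87) (.e (nat_lit 57479) (nat_lit 28) (.e (nat_lit 557109) (nat_lit 15) (.e (nat_lit 188452) (nat_lit 23) (.e (nat_lit 212736) (nat_lit 26) .nil))))) .nil)))) (.nd (nat_lit 4) (.nd (nat_lit 5) 
(.lf (nat_lit 20047) (.g (nat_lit 3526) (.e (nat_lit 1181) (nat_lit 87) (.e (nat_lit 57479) (nat_lit 28) (.e (nat_lit 557107) (nat_lit 15) (.e (nat_lit 188440) (nat_lit 20) (.e (nat_lit 3272) (nat_lit 199) .nil))))) .nil)) 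
(.lf (nat_lit 20079) (.g (nat_lit 3780) (.e (nat_lit 1181) (nat_lit 87) (.e (nat_lit 57479) (nat_lit 28) (.e (nat_lit 557109) (nat_lit 15) (.e (nat_lit 188452) (nat_lit 23) (.e (nat_lit 204816) (nat_lit 17) (.e (nat_lit 6714) (nat_lit 360) (.e (nat_lit 163850) (nat_lit 0) (.e (nat_lit 4606) (nat_lit 269) .nil)))))))) (.g (nat_lit 4) .nil .nil)))) (.nd (nat_lit 5) 
(.lf (nat_lit 20063) (.g (nat_lit 3746) (.e (nat_lit 1181) (nat_lit 87) (.e (nat_lit 57479) (nat_lit 28) (.e (nat_lit 557109) (nat_lit 15) (.e (nat_lit 188452) (nat_lit 23) (.e (nat_lit 204816) (nat_lit 17) (.e (nat_lit 6155) (nat_lit 332) (.e (nat_lit 2544) (nat_lit 158) (.e (nat_lit 8439) (nat_lit 138) .nil)))))))) (.g (nat_lit 4) .nil .nil))) 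
(.lf (nat_lit 20095) (.g (nat_lit 5083) (.e (nat_lit 1181) (nat_lit 87) (.e (nat_lit 57479) (nat_lit 28) (.e (nat_lit 557109) (nat_lit 15) (.e (nat_lit 188452) (nat_lit 23) (.e (nat_lit 204880) (nat_lit 32) .nil))))) .nil))))))))

noncomputable def tv279 : DT := (.nd (nat_lit 0) (.nd (nat_lit 1) (.nd (nat_lit 2) (.nd (nat_lit 3) (.nd (nat_lit 4) (.nd (nat_lit 5) 
(.lf (nat_lit 20096) (.g (nat_lit 2927) (.e (nat_lit 1181) (nat_lit 87) (.e (nat_lit 57479) (nat_lit 28) (.e (nat_lit 557109) (nat_lit 15) (.e (nat_lit 188452) (nat_lit 23) (.e (nat_lit 204885) (nat_lit 33) .nil))))) .nil)) 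
(.lf (nat_lit 20128) (.g (nat_lit 2867) (.e (nat_lit 1181) (nat_lit 87) (.e (nat_lit 57480) (nat_lit 28) (.e (nat_lit 557097) (nat_lit 13) (.e (nat_lit 172115) (nat_lit 10) (.e (nat_lit 434231) (nat_lit 23) (.e (nat_lit 532554) (nat_lit 13) (.e (nat_lit 368662) (nat_lit 18) (.e (nat_lit 5907) (nat_lit 320) .nil)))))))) (.g (nat_lit 4) .nil .nil)))) (.nd (nat_lit 5) 
(.lf (nat_lit 20112) (.g (nat_lit 3099) (.e (nat_lit 1181) (nat_lit 87) (.e (nat_lit 57479) (nat_lit 28) (.e (nat_lit 557109) (nat_lit 15) (.e (nat_lit 188458) (nat_lit 25) (.e (nat_lit 245794) (nat_lit 17) (.e (nat_lit 131088) (nat_lit 1) (.e (nat_lit 57873) (nat_lit 264) .nil))))))) (.g (nat_lit 4) .nil .nil))) 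
(.lf (nat_lit 20144) (.g (nat_lit 2707) (.e (nat_lit 1181) (nat_lit 87) (.e (nat_lit 57480) (nat_lit 28) (.e (nat_lit 557098) (nat_lit 13) (.e (nat_lit 172097) (nat_lit 9) (.e (nat_lit 426140) (nat_lit 3) (.e (nat_lit 204855) (nat_lit 26) (.e (nat_lit 335901) (nat_lit 0) (.e (nat_lit 1095) (nat_lit 81) (.e (nat_lit 5902) (nat_lit 320) .nil))))))))) (.g (nat_lit 4) .nil .nil))))) 
(.nd (nat_lit 4) (.nd (nat_lit 5) 
(.lf (nat_lit 20104) (.g (nat_lit 3292) (.e (nat_lit 1181) (nat_lit 87) (.e (nat_lit 57479) (nat_lit 28) (.e (nat_lit 557109) (nat_lit 15) (.e (nat_lit 188458) (nat_lit 25) (.e (nat_lit 245782) (nat_lit 9) (.e (nat_lit 1413) (nat_lit 108) (.e (nat_lit 335997) (nat_lit 1) (.e (nat_lit 57872) (nat_lit 264) .nil)))))))) (.g (nat_lit 4) .nil .nil))) 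
(.lf (nat_lit 20136) (.g (nat_lit 4972) (.e (nat_lit 1181) (nat_lit 87) (.e (nat_lit 57480) (nat_lit 28) (.e (nat_lit 557098) (nat_lit 13) (.e (nat_lit 172097) (nat_lit 9) (.e (nat_lit 426125) (nat_lit 2) (.e (nat_lit 196666) (nat_lit 13) (.e (nat_lit 65563) (nat_lit 1) (.e (nat_lit 57870) (nat_lit 264) .nil)))))))) (.g (nat_lit 0) .nil .nil)))) (.nd (nat_lit 5) 
(.lf (nat_lit 20120) (.g (nat_lit 2520) (.e (nat_lit 1181) (nat_lit 87) (.e (nat_lit 57480) (nat_lit 28) (.e (nat_lit 557097) (nat_lit 13) (.e (nat_lit 172097) (nat_lit 9) (.e (nat_lit 426140) (nat_lit 3) .nil))))) .nil)) 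
(.lf (nat_lit 20152) (.g (nat_lit 4555) (.e (nat_lit 1181) (nat_lit 87) (.e (nat_lit 57480) (nat_lit 28) (.e (nat_lit 557098) (nat_lit 13) (.e (nat_lit 172097) (nat_lit 9) (.e (nat_lit 426140) (nat_lit 3) (.e (nat_lit 204855) (nat_lit 26) (.e (nat_lit 335992) (nat_lit 1) (.e (nat_lit 57870) (nat_lit 264) .nil)))))))) (.g (nat_lit 8) .nil .nil)))))) 
(.nd (nat_lit 3) (.nd (nat_lit 4) (.nd (nat_lit 5) 
(.lf (nat_lit 20100) (.g (nat_lit 2226) (.e (nat_lit 1181) (nat_lit 87) (.e (nat_lit 57479) (nat_lit 28) (.e (nat_lit 557109) (nat_lit 15) (.e (nat_lit 188457) (nat_lit 25) .nil)))) .nil)) 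
(.lf (nat_lit 20132) (.g (nat_lit 2028) (.e (nat_lit 1181) (nat_lit 87) (.e (nat_lit 57480) (nat_lit 28) (.e (nat_lit 557098) (nat_lit 13) (.e (nat_lit 172097) (nat_lit 9) (.e (nat_lit 426125) (nat_lit 2) (.e (nat_lit 196630) (nat_lit 9) (.e (nat_lit 1549) (nat_lit 109) (.e (nat_lit 344097) (nat_lit 18) (.e (nat_lit 5906) (nat_lit 320) .nil))))))))) (.g (nat_lit 4) .nil .nil)))) (.nd (nat_lit 5) 
(.lf (nat_lit 20116) (.g (nat_lit 2950) (.e (nat_lit 1181) (nat_lit 87) (.e (nat_lit 57479) (nat_lit 28) (.e (nat_lit 557109) (nat_lit 15) (.e (nat_lit 188461) (nat_lit 26) (.e (nat_lit 261888) (nat_lit 4) .nil))))) .nil)) 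
(.lf (nat_lit 20148) (.g (nat_lit 4160) (.e (nat_lit 1181) (nat_lit 87) (.e (nat_lit 57480) (nat_lit 28) (.e (nat_lit 557098) (nat_lit 13) (.e (nat_lit 172097) (nat_lit 9) (.e (nat_lit 426140) (nat_lit 3) (.e (nat_lit 204855) (nat_lit 26) (.e (nat_lit 335985) (nat_lit 1) (.e (nat_lit 57871) (nat_lit 264) .nil)))))))) (.g (nat_lit 6) .nil .nil))))) (.nd (nat_lit 4) (.nd (nat_lit 5) 
(.lf (nat_lit 20108) (.g (nat_lit 3616) (.e (nat_lit 1181) (nat_lit 87) (.e (nat_lit 57479) (nat_lit 28) (.e (nat_lit 557109) (nat_lit 15) (.e (nat_lit 188458) (nat_lit 25) (.e (nat_lit 245784) (nat_lit 9) (.e (nat_lit 1520) (nat_lit 108) (.e (nat_lit 335995) (nat_lit 1) (.e (nat_lit 57872) (nat_lit 264) .nil)))))))) (.g (nat_lit 5) .nil .nil))) 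
(.lf (nat_lit 20140) (.g (nat_lit 1853) (.e (nat_lit 1181) (nat_lit 87) (.e (nat_lit 57480) (nat_lit 28) (.e (nat_lit 557098) (nat_lit 13) (.e (nat_lit 172097) (nat_lit 9) (.e (nat_lit 426140) (nat_lit 3) .nil))))) .nil))) (.nd (nat_lit 5) 
(.lf (nat_lit 20124) (.g (nat_lit 2697) (.e (nat_lit 1181) (nat_lit 87) (.e (nat_lit 57480) (nat_lit 28) (.e (nat_lit 557097) (nat_lit 13) (.e (nat_lit 172115) (nat_lit 10) (.e (nat_lit 434231) (nat_lit 23) (.e (nat_lit 532535) (nat_lit 9) (.e (nat_lit 335985) (nat_lit 1) (.e (nat_lit 57873) (nat_lit 264) .nil)))))))) (.g (nat_lit 4) .nil .nil))) 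
(.lf (nat_lit 20156) (.g (nat_lit 2424) (.e (nat_lit 1181) (nat_lit 87) (.e (nat_lit 57480) (nat_lit 28) (.e (nat_lit 557098) (nat_lit 13) (.e (nat_lit 172097) (nat_lit 9) (.e (nat_lit 426140) (nat_lit 3) (.e (nat_lit 204855) (nat_lit 26) (.e (nat_lit 343808) (nat_lit 1) (.e (nat_lit 57873) (nat_lit 264) .nil)))))))) (.g (nat_lit 4) .nil .nil))))))) 
(.nd (nat_lit 2) (.nd (nat_lit 3) (.nd (nat_lit 4) (.nd (nat_lit 5) 
(.lf (nat_lit 20098) (.g (nat_lit 3838) (.e (nat_lit 1181) (nat_lit 87) (.e (nat_lit 57479) (nat_lit 28) (.e (nat_lit 557109) (nat_lit 15) (.e (nat_lit 188452) (nat_lit 23) (.e (nat_lit 204885) (nat_lit 33) (.e (nat_lit 401414) (nat_lit 0) (.e (nat_lit 2458) (nat_lit 157) (.e (nat_lit 4607) (nat_lit 269) .nil)))))))) (.g (nat_lit 4) .nil .nil))) 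
(.lf (nat_lit 20130) (.g (nat_lit 2238) (.e (nat_lit 1181) (nat_lit 87) (.e (nat_lit 57480) (nat_lit 28) (.e (nat_lit 557098) (nat_lit 13) (.e (nat_lit 172097) (nat_lit 9) (.e (nat_lit 426125) (nat_lit 2) (.e (nat_lit 196630) (nat_lit 9) (.e (nat_lit 1462) (nat_lit 108) (.e (nat_lit 335997) (nat_lit 1) (.e (nat_lit 57870) (nat_lit 264) .nil))))))))) (.g (nat_lit 4) .nil .nil)))) (.nd (nat_lit 5) 
(.lf (nat_lit 20114) (.g (nat_lit 3081) (.e (nat_lit 1181) (nat_lit 87) (.e (nat_lit 57479) (nat_lit 28) (.e (nat_lit 557109) (nat_lit 15) (.e (nat_lit 188461) (nat_lit 26) (.e (nat_lit 253954) (nat_lit 0) .nil))))) .nil)) 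
(.lf (nat_lit 20146) (.g (nat_lit 4157) (.e (nat_lit 1181) (nat_lit 87) (.e (nat_lit 57480) (nat_lit 28) (.e (nat_lit 557098) (nat_lit 13) (.e (nat_lit 172097) (nat_lit 9) (.e (nat_lit 426140) (nat_lit 3) (.e (nat_lit 204855) (nat_lit 26) (.e (nat_lit 335923) (nat_lit 0) (.e (nat_lit 1023) (nat_lit 81) (.e (nat_lit 5906) (nat_lit 320) .nil))))))))) (.g (nat_lit 6) .nil .nil))))) 
(.nd (nat_lit 4) (.nd (nat_lit 5) 
(.lf (nat_lit 20106) (.g (nat_lit 3507) (.e (nat_lit 1181) (nat_lit 87) (.e (nat_lit 57479) (nat_lit 28) (.e (nat_lit 557109) (nat_lit 15) (.e (nat_lit 188458) (nat_lit 25) (.e (nat_lit 245784) (nat_lit 9) (.e (nat_lit 1413) (nat_lit 108) (.e (nat_lit 335997) (nat_lit 1) (.e (nat_lit 57870) (nat_lit 264) .nil)))))))) (.g (nat_lit 5) .nil .nil))) 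
(.lf (nat_lit 20138) (.g (nat_lit 5024) (.e (nat_lit 1181) (nat_lit 87) (.e (nat_lit 57480) (nat_lit 28) (.e (nat_lit 557098) (nat_lit 13) (.e (nat_lit 172097) (nat_lit 9) (.e (nat_lit 426125) (nat_lit 2) (.e (nat_lit 196666) (nat_lit 13) (.e (nat_lit 65563) (nat_lit 1) (.e (nat_lit 57872) (nat_lit 264) .nil)))))))) (.g (nat_lit 0) .nil .nil)))) (.nd (nat_lit 5) 
(.lf (nat_lit 20122) (.g (nat_lit 3034) (.e (nat_lit 1181) (nat_lit 87) (.e (nat_lit 57480) (nat_lit 28) (.e (nat_lit 557097) (nat_lit 13) (.e (nat_lit 172097) (nat_lit 9) (.e (nat_lit 426140) (nat_lit 3) (.e (nat_lit 204863) (nat_lit 27) (.e (nat_lit 344097) (nat_lit 18) (.e (nat_lit 5907) (nat_lit 320) .nil)))))))) (.g (nat_lit 4) .nil .nil))) 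
(.lf (nat_lit 20154) (.g (nat_lit 3540) (.e (nat_lit 1181) (nat_lit 87) (.e (nat_lit 57480) (nat_lit 28) (.e (nat_lit 557098) (nat_lit 13) (.e (nat_lit 172097) (nat_lit 9) (.e (nat_lit 426140) (nat_lit 3) (.e (nat_lit 204855) (nat_lit 26) (.e (nat_lit 335992) (nat_lit 1) (.e (nat_lit 57872) (nat_lit 264) .nil)))))))) (.g (nat_lit 6) .nil .nil)))))) 
(.nd (nat_lit 3) (.nd (nat_lit 4) (.nd (nat_lit 5) 
(.lf (nat_lit 20102) (.g (nat_lit 2959) (.e (nat_lit 1181) (nat_lit 87) (.e (nat_lit 57479) (nat_lit 28) (.e (nat_lit 557109) (nat_lit 15) (.e (nat_lit 188458) (nat_lit 25) (.e (nat_lit 245782) (nat_lit 9) .nil))))) .nil)) 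
(.lf (nat_lit 20134) (.g (nat_lit 4872) (.e (nat_lit 1181) (nat_lit 87) (.e (nat_lit 57480) (nat_lit 28) (.e (nat_lit 557098) (nat_lit 13) (.e (nat_lit 172097) (nat_lit 9) (.e (nat_lit 426125) (nat_lit 2) (.e (nat_lit 196666) (nat_lit 13) (.e (nat_lit 65550) (nat_lit 0) (.e (nat_lit 1023) (nat_lit 81) (.e (nat_lit 5905) (nat_lit 320) .nil))))))))) (.g (nat_lit 6) .nil .nil)))) (.nd (nat_lit 5) 
(.lf (nat_lit 20118) (.g (nat_lit 2407) (.e (nat_lit 1181) (nat_lit 87) (.e (nat_lit 57480) (nat_lit 28) (.e (nat_lit 557097) (nat_lit 13) (.e (nat_lit 172097) (nat_lit 9) (.e (nat_lit 426125) (nat_lit 2) .nil))))) .nil)) 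
(.lf (nat_lit 20150) (.g (nat_lit 2269) (.e (nat_lit 1181) (nat_lit 87) (.e (nat_lit 57480) (nat_lit 28) (.e (nat_lit 557098) (nat_lit 13) (.e (nat_lit 172097) (nat_lit 9) (.e (nat_lit 426140) (nat_lit 3) (.e (nat_lit 204855) (nat_lit 26) (.e (nat_lit 335991) (nat_lit 1) (.e (nat_lit 57872) (nat_lit 264) .nil)))))))) (.g (nat_lit 4) .nil .nil))))) (.nd (nat_lit 4) (.nd (nat_lit 5) 
(.lf (nat_lit 20110) (.g (nat_lit 3024) (.e (nat_lit 1181) (nat_lit 87) (.e (nat_lit 57479) (nat_lit 28) (.e (nat_lit 557109) (nat_lit 15) (.e (nat_lit 188458) (nat_lit 25) (.e (nat_lit 245794) (nat_lit 17) .nil))))) .nil)) 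
(.lf (nat_lit 20142) (.g (nat_lit 4533) (.e (nat_lit 1181) (nat_lit 87) (.e (nat_lit 57480) (nat_lit 28) (.e (nat_lit 557098) (nat_lit 13) (.e (nat_lit 172097) (nat_lit 9) (.e (nat_lit 426140) (nat_lit 3) (.e (nat_lit 204850) (nat_lit 26) (.e (nat_lit 335997) (nat_lit 1) (.e (nat_lit 57870) (nat_lit 264) .nil)))))))) (.g (nat_lit 0) .nil .nil)))) (.nd (nat_lit 5) 
(.lf (nat_lit 20126) (.g (nat_lit 2804) (.e (nat_lit 1181) (nat_lit 87) (.e (nat_lit 57480) (nat_lit 28) (.e (nat_lit 557097) (nat_lit 13) (.e (nat_lit 172115) (nat_lit 10) (.e (nat_lit 434231) (nat_lit 23) (.e (nat_lit 532543) (nat_lit 10) (.e (nat_lit 344097) (nat_lit 18) (.e (nat_lit 5907) (nat_lit 320) .nil)))))))) (.g (nat_lit 4) .nil .nil))) 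
(.lf (nat_lit 20158) (.g (nat_lit 2437) (.e (nat_lit 1181) (nat_lit 87) (.e (nat_lit 57480) (nat_lit 28) (.e (nat_lit 557098) (nat_lit 13) (.e (nat_lit 172097) (nat_lit 9) (.e (nat_lit 426140) (nat_lit 3) (.e (nat_lit 204857) (nat_lit 26) (.e (nat_lit 335997) (nat_lit 1) (.e (nat_lit 57871) (nat_lit 264) .nil)))))))) (.g (nat_lit 4) .nil .nil)))))))) 
(.nd (nat_lit 1) (.nd (nat_lit 2) (.nd (nat_lit 3) (.nd (nat_lit 4) (.nd (nat_lit 5) 
(.lf (nat_lit 20097) (.g (nat_lit 4170) (.e (nat_lit 1181) (nat_lit 87) (.e (nat_lit 57479) (nat_lit 28) (.e (nat_lit 557109) (nat_lit 15) (.e (nat_lit 188452) (nat_lit 23) (.e (nat_lit 204885) (nat_lit 33) (.e (nat_lit 401414) (nat_lit 0) (.e (nat_lit 2458) (nat_lit 157) (.e (nat_lit 4605) (nat_lit 269) .nil)))))))) (.g (nat_lit 4) .nil .nil))) 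
(.lf (nat_lit 20129) (.g (nat_lit 2768) (.e (nat_lit 1181) (nat_lit 87) (.e (nat_lit 57480) (nat_lit 28) (.e (nat_lit 557097) (nat_lit 13) (.e (nat_lit 172115) (nat_lit 10) (.e (nat_lit 434244) (nat_lit 28) .nil))))) .nil))) (.nd (nat_lit 5) 
(.lf (nat_lit 20113) (.g (nat_lit 3180) (.e (nat_lit 1181) (nat_lit 87) (.e (nat_lit 57479) (nat_lit 28) (.e (nat_lit 557109) (nat_lit 15) (.e (nat_lit 188458) (nat_lit 25) (.e (nat_lit 245794) (nat_lit 17) (.e (nat_lit 131089) (nat_lit 1) (.e (nat_lit 57870) (nat_lit 264) .nil))))))) (.g (nat_lit 4) .nil .nil))) 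
(.lf (nat_lit 20145) (.g (nat_lit 2463) (.e (nat_lit 1181) (nat_lit 87) (.e (nat_lit 57480) (nat_lit 28) (.e (nat_lit 557098) (nat_lit 13) (.e (nat_lit 172097) (nat_lit 9) (.e (nat_lit 426140) (nat_lit 3) (.e (nat_lit 204855) (nat_lit 26) (.e (nat_lit 335921) (nat_lit 0) (.e (nat_lit 1023) (nat_lit 81) (.e (nat_lit 5906) (nat_lit 320) .nil))))))))) (.g (nat_lit 4) .nil .nil))))) 
(.nd (nat_lit 4) (.nd (nat_lit 5) 
(.lf (nat_lit 20105) (.g (nat_lit 2276) (.e (nat_lit 1181) (nat_lit 87) (.e (nat_lit 57479) (nat_lit 28) (.e (nat_lit 557109) (nat_lit 15) (.e (nat_lit 188458) (nat_lit 25) (.e (nat_lit 245784) (nat_lit 9) .nil))))) .nil)) 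
(.lf (nat_lit 20137) (.g (nat_lit 4637) (.e (nat_lit 1181) (nat_lit 87) (.e (nat_lit 57480) (nat_lit 28) (.e (nat_lit 557098) (nat_lit 13) (.e (nat_lit 172097) (nat_lit 9) (.e (nat_lit 426125) (nat_lit 2) (.e (nat_lit 196666) (nat_lit 13) (.e (nat_lit 65563) (nat_lit 1) (.e (nat_lit 57871) (nat_lit 264) .nil)))))))) (.g (nat_lit 7) .nil .nil)))) (.nd (nat_lit 5) 
(.lf (nat_lit 20121) (.g (nat_lit 2859) (.e (nat_lit 1181) (nat_lit 87) (.e (nat_lit 57480) (nat_lit 28) (.e (nat_lit 557097) (nat_lit 13) (.e (nat_lit 172097) (nat_lit 9) (.e (nat_lit 426140) (nat_lit 3) (.e (nat_lit 204862) (nat_lit 27) (.e (nat_lit 344097) (nat_lit 18) (.e (nat_lit 5907) (nat_lit 320) .nil)))))))) (.g (nat_lit 4) .nil .nil))) 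
(.lf (nat_lit 20153) (.g (nat_lit 2202) (.e (nat_lit 1181) (nat_lit 87) (.e (nat_lit 57480) (nat_lit 28) (.e (nat_lit 557098) (nat_lit 13) (.e (nat_lit 172097) (nat_lit 9) (.e (nat_lit 426140) (nat_lit 3) (.e (nat_lit 204855) (nat_lit 26) (.e (nat_lit 335992) (nat_lit 1) (.e (nat_lit 57871) (nat_lit 264) .nil)))))))) (.g (nat_lit 4) .nil .nil)))))) 
(.nd (nat_lit 3) (.nd (nat_lit 4) (.nd (nat_lit 5) 
(.lf (nat_lit 20101) (.g (nat_lit 1882) (.e (nat_lit 1181) (nat_lit 87) (.e (nat_lit 57479) (nat_lit 28) (.e (nat_lit 557109) (nat_lit 15) (.e (nat_lit 188458) (nat_lit 25) .nil)))) .nil)) 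
(.lf (nat_lit 20133) (.g (nat_lit 2656) (.e (nat_lit 1181) (nat_lit 87) (.e (nat_lit 57480) (nat_lit 28) (.e (nat_lit 557098) (nat_lit 13) (.e (nat_lit 172097) (nat_lit 9) (.e (nat_lit 426125) (nat_lit 2) (.e (nat_lit 196630) (nat_lit 9) (.e (nat_lit 1549) (nat_lit 109) (.e (nat_lit 344097) (nat_lit 18) (.e (nat_lit 5907) (nat_lit 320) .nil))))))))) (.g (nat_lit 4) .nil .nil)))) (.nd (nat_lit 5) 
(.lf (nat_lit 20117) (.g (nat_lit 861) (.e (nat_lit 1181) (nat_lit 87) (.e (nat_lit 57480) (nat_lit 28) (.e (nat_lit 557096) (nat_lit 13) .nil))) .nil)) 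
(.lf (nat_lit 20149) (.g (nat_lit 4604) (.e (nat_lit 1181) (nat_lit 87) (.e (nat_lit 57480) (nat_lit 28) (.e (nat_lit 557098) (nat_lit 13) (.e (nat_lit 172097) (nat_lit 9) (.e (nat_lit 426140) (nat_lit 3) (.e (nat_lit 204855) (nat_lit 26) (.e (nat_lit 335985) (nat_lit 1) (.e (nat_lit 57872) (nat_lit 264) .nil)))))))) (.g (nat_lit 0) .nil .nil))))) (.nd (nat_lit 4) (.nd (nat_lit 5) 
(.lf (nat_lit 20109) (.g (nat_lit 3389) (.e (nat_lit 1181) (nat_lit 87) (.e (nat_lit 57479) (nat_lit 28) (.e (nat_lit 557109) (nat_lit 15) (.e (nat_lit 188458) (nat_lit 25) (.e (nat_lit 245791) (nat_lit 14) (.e (nat_lit 73733) (nat_lit 0) (.e (nat_lit 5907) (nat_lit 320) .nil))))))) (.g (nat_lit 4) .nil .nil))) 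
(.lf (nat_lit 20141) (.g (nat_lit 2926) (.e (nat_lit 1181) (nat_lit 87) (.e (nat_lit 57480) (nat_lit 28) (.e (nat_lit 557098) (nat_lit 13) (.e (nat_lit 172097) (nat_lit 9) (.e (nat_lit 426140) (nat_lit 3) (.e (nat_lit 204821) (nat_lit 17) (.e (nat_lit 7936) (nat_lit 343) (.e (nat_lit 1181) (nat_lit 87) (.e (nat_lit 57872) (nat_lit 264) .nil))))))))) (.g (nat_lit 5) .nil .nil)))) (.nd (nat_lit 5) 
(.lf (nat_lit 20125) (.g (nat_lit 3153) (.e (nat_lit 1181) (nat_lit 87) (.e (nat_lit 57480) (nat_lit 28) (.e (nat_lit 557097) (nat_lit 13) (.e (nat_lit 172115) (nat_lit 10) (.e (nat_lit 434231) (nat_lit 23) (.e (nat_lit 532535) (nat_lit 9) (.e (nat_lit 335992) (nat_lit 1) (.e (nat_lit 57870) (nat_lit 264) .nil)))))))) (.g (nat_lit 4) .nil .nil))) 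
(.lf (nat_lit 20157) (.g (nat_lit 3154) (.e (nat_lit 1181) (nat_lit 87) (.e (nat_lit 57480) (nat_lit 28) (.e (nat_lit 557098) (nat_lit 13) (.e (nat_lit 172097) (nat_lit 9) (.e (nat_lit 426140) (nat_lit 3) (.e (nat_lit 204857) (nat_lit 26) (.e (nat_lit 335997) (nat_lit 1) (.e (nat_lit 57870) (nat_lit 264) .nil)))))))) (.g (nat_lit 5) .nil .nil))))))) 
(.nd (nat_lit 2) (.nd (nat_lit 3) (.nd (nat_lit 4) (.nd (nat_lit 5) 
(.lf (nat_lit 20099) (.g (nat_lit 3856) (.e (nat_lit 1181) (nat_lit 87) (.e (nat_lit 57479) (nat_lit 28) (.e (nat_lit 557109) (nat_lit 15) (.e (nat_lit 188452) (nat_lit 23) (.e (nat_lit 204885) (nat_lit 33) (.e (nat_lit 401414) (nat_lit 0) (.e (nat_lit 2478) (nat_lit 157) (.e (nat_lit 4607) (nat_lit 269) .nil)))))))) (.g (nat_lit 4) .nil .nil))) 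
(.lf (nat_lit 20131) (.g (nat_lit 2108) (.e (nat_lit 1181) (nat_lit 87) (.e (nat_lit 57480) (nat_lit 28) (.e (nat_lit 557098) (nat_lit 13) (.e (nat_lit 172097) (nat_lit 9) (.e (nat_lit 426125) (nat_lit 2) (.e (nat_lit 196630) (nat_lit 9) (.e (nat_lit 1462) (nat_lit 108) (.e (nat_lit 335997) (nat_lit 1) (.e (nat_lit 57872) (nat_lit 264) .nil))))))))) (.g (nat_lit 4) .nil .nil)))) (.nd (nat_lit 5) 
(.lf (nat_lit 20115) (.g (nat_lit 2950) (.e (nat_lit 1181) (nat_lit 87) (.e (nat_lit 57479) (nat_lit 28) (.e (nat_lit 557109) (nat_lit 15) (.e (nat_lit 188461) (nat_lit 26) (.e (nat_lit 261888) (nat_lit 0) .nil))))) .nil)) 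
(.lf (nat_lit 20147) (.g (nat_lit 4553) (.e (nat_lit 1181) (nat_lit 87) (.e (nat_lit 57480) (nat_lit 28) (.e (nat_lit 557098) (nat_lit 13) (.e (nat_lit 172097) (nat_lit 9) (.e (nat_lit 426140) (nat_lit 3) (.e (nat_lit 204855) (nat_lit 26) (.e (nat_lit 335985) (nat_lit 1) (.e (nat_lit 57870) (nat_lit 264) .nil)))))))) (.g (nat_lit 0) .nil .nil))))) (.nd (nat_lit 4) (.nd (nat_lit 5) 
(.lf (nat_lit 20107) (.g (nat_lit 3506) (.e (nat_lit 1181) (nat_lit 87) (.e (nat_lit 57479) (nat_lit 28) (.e (nat_lit 557109) (nat_lit 15) (.e (nat_lit 188458) (nat_lit 25) (.e (nat_lit 245784) (nat_lit 9) (.e (nat_lit 1413) (nat_lit 108) (.e (nat_lit 335997) (nat_lit 1) (.e (nat_lit 57872) (nat_lit 264) .nil)))))))) (.g (nat_lit 5) .nil .nil))) 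
(.lf (nat_lit 20139) (.g (nat_lit 4539) (.e (nat_lit 1181) (nat_lit 87) (.e (nat_lit 57480) (nat_lit 28) (.e (nat_lit 557098) (nat_lit 13) (.e (nat_lit 172097) (nat_lit 9) (.e (nat_lit 426125) (nat_lit 2) (.e (nat_lit 196666) (nat_lit 13) (.e (nat_lit 65565) (nat_lit 1) (.e (nat_lit 57871) (nat_lit 264) .nil)))))))) (.g (nat_lit 7) .nil .nil)))) (.nd (nat_lit 5) 
(.lf (nat_lit 20123) (.g (nat_lit 2650) (.e (nat_lit 1181) (nat_lit 87) (.e (nat_lit 57480) (nat_lit 28) (.e (nat_lit 557097) (nat_lit 13) (.e (nat_lit 172115) (nat_lit 10) (.e (nat_lit 434231) (nat_lit 23) .nil))))) .nil)) 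
(.lf (nat_lit 20155) (.g (nat_lit 3860) (.e (nat_lit 1181) (nat_lit 87) (.e (nat_lit 57480) (nat_lit 28) (.e (nat_lit 557098) (nat_lit 13) (.e (nat_lit 172097) (nat_lit 9) (.e (nat_lit 426140) (nat_lit 3) (.e (nat_lit 204855) (nat_lit 26) (.e (nat_lit 335992) (nat_lit 1) (.e (nat_lit 57873) (nat_lit 264) .nil)))))))) (.g (nat_lit 6) .nil .nil)))))) 
(.nd (nat_lit 3) (.nd (nat_lit 4) (.nd (nat_lit 5) 
(.lf (nat_lit 20103) (.g (nat_lit 3304) (.e (nat_lit 1181) (nat_lit 87) (.e (nat_lit 57479) (nat_lit 28) (.e (nat_lit 557109) (nat_lit 15) (.e (nat_lit 188458) (nat_lit 25) (.e (nat_lit 245782) (nat_lit 9) (.e (nat_lit 1413) (nat_lit 108) (.e (nat_lit 335997) (nat_lit 1) (.e (nat_lit 57870) (nat_lit 264) .nil)))))))) (.g (nat_lit 4) .nil .nil))) 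
(.lf (nat_lit 20135) (.g (nat_lit 4176) (.e (nat_lit 1181) (nat_lit 87) (.e (nat_lit 57480) (nat_lit 28) (.e (nat_lit 557098) (nat_lit 13) (.e (nat_lit 172097) (nat_lit 9) (.e (nat_lit 426125) (nat_lit 2) (.e (nat_lit 196666) (nat_lit 13) (.e (nat_lit 65553) (nat_lit 0) (.e (nat_lit 1023) (nat_lit 81) (.e (nat_lit 5906) (nat_lit 320) .nil))))))))) (.g (nat_lit 6) .nil .nil)))) (.nd (nat_lit 5) 
(.lf (nat_lit 20119) (.g (nat_lit 2720) (.e (nat_lit 1181) (nat_lit 87) (.e (nat_lit 57480) (nat_lit 28) (.e (nat_lit 557097) (nat_lit 13) (.e (nat_lit 172097) (nat_lit 9) (.e (nat_lit 426125) (nat_lit 2) (.e (nat_lit 196666) (nat_lit 13) (.e (nat_lit 65563) (nat_lit 1) (.e (nat_lit 57873) (nat_lit 264) .nil)))))))) (.g (nat_lit 4) .nil .nil))) 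
(.lf (nat_lit 20151) (.g (nat_lit 3487) (.e (nat_lit 1181) (nat_lit 87) (.e (nat_lit 57480) (nat_lit 28) (.e (nat_lit 557098) (nat_lit 13) (.e (nat_lit 172097) (nat_lit 9) (.e (nat_lit 426140) (nat_lit 3) (.e (nat_lit 204855) (nat_lit 26) (.e (nat_lit 335991) (nat_lit 1) (.e (nat_lit 57873) (nat_lit 264) .nil)))))))) (.g (nat_lit 5) .nil .nil))))) (.nd (nat_lit 4) (.nd (nat_lit 5) 
(.lf (nat_lit 20111) (.g (nat_lit 3119) (.e (nat_lit 1181) (nat_lit 87) (.e (nat_lit 57479) (nat_lit 28) (.e (nat_lit 557109) (nat_lit 15) (.e (nat_lit 188458) (nat_lit 25) (.e (nat_lit 245794) (nat_lit 17) (.e (nat_lit 131086) (nat_lit 1) (.e (nat_lit 57873) (nat_lit 264) .nil))))))) (.g (nat_lit 4) .nil .nil))) 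
(.lf (nat_lit 20143) (.g (nat_lit 4157) (.e (nat_lit 1181) (nat_lit 87) (.e (nat_lit 57480) (nat_lit 28) (.e (nat_lit 557098) (nat_lit 13) (.e (nat_lit 172097) (nat_lit 9) (.e (nat_lit 426140) (nat_lit 3) (.e (nat_lit 204850) (nat_lit 26) (.e (nat_lit 335997) (nat_lit 1) (.e (nat_lit 57871) (nat_lit 264) .nil)))))))) (.g (nat_lit 7) .nil .nil)))) (.nd (nat_lit 5) 
(.lf (nat_lit 20127) (.g (nat_lit 3090) (.e (nat_lit 1181) (nat_lit 87) (.e (nat_lit 57480) (nat_lit 28) (.e (nat_lit 557097) (nat_lit 13) (.e (nat_lit 172115) (nat_lit 10) (.e (nat_lit 434231) (nat_lit 23) (.e (nat_lit 532544) (nat_lit 10) (.e (nat_lit 344097) (nat_lit 18) (.e (nat_lit 5907) (nat_lit 320) .nil)))))))) (.g (nat_lit 4) .nil .nil))) 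
(.lf (nat_lit 20159) (.g (nat_lit 3384) (.e (nat_lit 1181) (nat_lit 87) (.e (nat_lit 57480) (nat_lit 28) (.e (nat_lit 557098) (nat_lit 13) (.e (nat_lit 172097) (nat_lit 9) (.e (nat_lit 426140) (nat_lit 3) (.e (nat_lit 204859) (nat_lit 26) (.e (nat_lit 335998) (nat_lit 1) (.e (nat_lit 57873) (nat_lit 264) .nil)))))))) (.g (nat_lit 5) .nil .nil)))))))))

noncomputable def tv280 : DT := (.nd (nat_lit 0) (.nd (nat_lit 1) (.nd (nat_lit 2) (.nd (nat_lit 3) (.nd (nat_lit 4) (.nd (nat_lit 5) 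
(.lf (nat_lit 20160) (.g (nat_lit 2660) (.e (nat_lit 1181) (nat_lit 87) (.e (nat_lit 57480) (nat_lit 28) (.e (nat_lit 557098) (nat_lit 13) (.e (nat_lit 172097) (nat_lit 9) (.e (nat_lit 426140) (nat_lit 3) (.e (nat_lit 204861) (nat_lit 26) (.e (nat_lit 335986) (nat_lit 1) (.e (nat_lit 57873) (nat_lit 264) .nil)))))))) (.g (nat_lit 4) .nil .nil))) 
(.lf (nat_lit 20192) (.g (nat_lit 2480) (.e (nat_lit 1181) (nat_lit 87) (.e (nat_lit 57480) (nat_lit 28) (.e (nat_lit 557098) (nat_lit 13) (.e (nat_lit 172115) (nat_lit 10) (.e (nat_lit 434231) (nat_lit 23) (.e (nat_lit 532535) (nat_lit 9) (.e (nat_lit 343808) (nat_lit 1) (.e (nat_lit 57873) (nat_lit 264) .nil)))))))) (.g (nat_lit 4) .nil .nil)))) (.nd (nat_lit 5) 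
(.lf (nat_lit 20176) (.g (nat_lit 3249) (.e (nat_lit 1181) (nat_lit 87) (.e (nat_lit 57480) (nat_lit 28) (.e (nat_lit 557098) (nat_lit 13) (.e (nat_lit 172115) (nat_lit 10) (.e (nat_lit 434231) (nat_lit 23) (.e (nat_lit 532490) (nat_lit 0) (.e (nat_lit 7936) (nat_lit 343) (.e (nat_lit 1181) (nat_lit 87) (.e (nat_lit 57872) (nat_lit 264) .nil))))))))) (.g (nat_lit 5) .nil .nil))) 
(.lf (nat_lit 20208) (.g (nat_lit 3483) (.e (nat_lit 1181) (nat_lit 87) (.e (nat_lit 57480) (nat_lit 28) (.e (nat_lit 557098) (nat_lit 13) (.e (nat_lit 172115) (nat_lit 10) (.e (nat_lit 434231) (nat_lit 23) (.e (nat_lit 532552) (nat_lit 13) (.e (nat_lit 368662) (nat_lit 18) (.e (nat_lit 5907) (nat_lit 320) .nil)))))))) (.g (nat_lit 5) .nil .nil))))) (.nd (nat_lit 4) (.nd (nat_lit 5) 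
(.lf (nat_lit 20168) (.g (nat_lit 4606) (.e (nat_lit 1181) (nat_lit 87) (.e (nat_lit 57480) (nat_lit 28) (.e (nat_lit 557098) (nat_lit 13) (.e (nat_lit 172097) (nat_lit 9) (.e (nat_lit 426140) (nat_lit 3) (.e (nat_lit 204863) (nat_lit 27) (.e (nat_lit 344097) (nat_lit 18) (.e (nat_lit 5905) (nat_lit 320) .nil)))))))) (.g (nat_lit 7) .nil .nil))) 
(.lf (nat_lit 20200) (.g (nat_lit 3006) (.e (nat_lit 1181) (nat_lit 87) (.e (nat_lit 57480) (nat_lit 28) (.e (nat_lit 557098) (nat_lit 13) (.e (nat_lit 172115) (nat_lit 10) (.e (nat_lit 434231) (nat_lit 23) (.e (nat_lit 540416) (nat_lit 9) (.e (nat_lit 335995) (nat_lit 1) (.e (nat_lit 57872) (nat_lit 264) .nil)))))))) (.g (nat_lit 5) .nil .nil)))) (.nd (nat_lit 5) 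
(.lf (nat_lit 20184) (.g (nat_lit 5103) (.e (nat_lit 1181) (nat_lit 87) (.e (nat_lit 57480) (nat_lit 28) (.e (nat_lit 557098) (nat_lit 13) (.e (nat_lit 172115) (nat_lit 10) (.e (nat_lit 434231) (nat_lit 23) (.e (nat_lit 532535) (nat_lit 9) (.e (nat_lit 335925) (nat_lit 0) (.e (nat_lit 1023) (nat_lit 81) (.e (nat_lit 5906) (nat_lit 320) .nil))))))))) (.g (nat_lit 6) .nil .nil))) 
(.lf (nat_lit 20216) (.g (nat_lit 5687) (.e (nat_lit 1181) (nat_lit 87) (.e (nat_lit 57480) (nat_lit 28) (.e (nat_lit 557098) (nat_lit 13) (.e (nat_lit 172115) (nat_lit 10) (.e (nat_lit 434231) (nat_lit 23) (.e (nat_lit 532554) (nat_lit 13) (.e (nat_lit 368662) (nat_lit 18) (.e (nat_lit 5907) (nat_lit 320) .nil)))))))) (.g (nat_lit 0) .nil .nil)))))) 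
(.nd (nat_lit 3) (.nd (nat_lit 4) (.nd (nat_lit 5) 
(.lf (nat_lit 20164) (.g (nat_lit 2129) (.e (nat_lit 1181) (nat_lit 87) (.e (nat_lit 57480) (nat_lit 28) (.e (nat_lit 557098) (nat_lit 13) (.e (nat_lit 172097) (nat_lit 9) (.e (nat_lit 426140) (nat_lit 3) (.e (nat_lit 204862) (nat_lit 27) (.e (nat_lit 344097) (nat_lit 18) (.e (nat_lit 5902) (nat_lit 320) .nil)))))))) (.g (nat_lit 4) .nil .nil))) 
(.lf (nat_lit 20196) (.g (nat_lit 3222) (.e (nat_lit 1181) (nat_lit 87) (.e (nat_lit 57480) (nat_lit 28) (.e (nat_lit 557098) (nat_lit 13) (.e (nat_lit 172115) (nat_lit 10) (.e (nat_lit 434231) (nat_lit 23) (.e (nat_lit 532537) (nat_lit 9) (.e (nat_lit 335997) (nat_lit 1) (.e (nat_lit 57870) (nat_lit 264) .nil)))))))) (.g (nat_lit 5) .nil .nil)))) (.nd (nat_lit 5) 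
(.lf (nat_lit 20180) (.g (nat_lit 4863) (.e (nat_lit 1181) (nat_lit 87) (.e (nat_lit 57480) (nat_lit 28) (.e (nat_lit 557098) (nat_lit 13) (.e (nat_lit 172115) (nat_lit 10) (.e (nat_lit 434231) (nat_lit 23) (.e (nat_lit 532527) (nat_lit 9) (.e (nat_lit 335997) (nat_lit 1) (.e (nat_lit 57870) (nat_lit 264) .nil)))))))) (.g (nat_lit 0) .nil .nil))) 
(.lf (nat_lit 20212) (.g (nat_lit 4734) (.e (nat_lit 1181) (nat_lit 87) (.e (nat_lit 57480) (nat_lit 28) (.e (nat_lit 557098) (nat_lit 13) (.e (nat_lit 172115) (nat_lit 10) (.e (nat_lit 434231) (nat_lit 23) (.e (nat_lit 532553) (nat_lit 13) (.e (nat_lit 368662) (nat_lit 18) (.e (nat_lit 5907) (nat_lit 320) .nil)))))))) (.g (nat_lit 7) .nil .nil))))) (.nd (nat_lit 4) (.nd (nat_lit 5) 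
(.lf (nat_lit 20172) (.g (nat_lit 2692) (.e (nat_lit 1181) (nat_lit 87) (.e (nat_lit 57480) (nat_lit 28) (.e (nat_lit 557098) (nat_lit 13) (.e (nat_lit 172097) (nat_lit 9) (.e (nat_lit 426140) (nat_lit 3) (.e (nat_lit 204863) (nat_lit 27) (.e (nat_lit 344101) (nat_lit 18) (.e (nat_lit 5907) (nat_lit 320) .nil)))))))) (.g (nat_lit 4) .nil .nil))) 
(.lf (nat_lit 20204) (.g (nat_lit 3443) (.e (nat_lit 1181) (nat_lit 87) (.e (nat_lit 57480) (nat_lit 28) (.e (nat_lit 557098) (nat_lit 13) (.e (nat_lit 172115) (nat_lit 10) (.e (nat_lit 434231) (nat_lit 23) (.e (nat_lit 532543) (nat_lit 10) (.e (nat_lit 344100) (nat_lit 18) (.e (nat_lit 5907) (nat_lit 320) .nil)))))))) (.g (nat_lit 5) .nil .nil)))) (.nd (nat_lit 5) 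
(.lf (nat_lit 20188) (.g (nat_lit 5031) (.e (nat_lit 1181) (nat_lit 87) (.e (nat_lit 57480) (nat_lit 28) (.e (nat_lit 557098) (nat_lit 13) (.e (nat_lit 172115) (nat_lit 10) (.e (nat_lit 434231) (nat_lit 23) (.e (nat_lit 532535) (nat_lit 9) (.e (nat_lit 335985) (nat_lit 1) (.e (nat_lit 57872) (nat_lit 264) .nil)))))))) (.g (nat_lit 0) .nil .nil))) 
(.lf (nat_lit 20220) (.g (nat_lit 3053) (.e (nat_lit 1181) (nat_lit 87) (.e (nat_lit 57480) (nat_lit 28) (.e (nat_lit 557098) (nat_lit 13) (.e (nat_lit 172115) (nat_lit 10) (.e (nat_lit 434238) (nat_lit 25) (.e (nat_lit 548898) (nat_lit 14) (.e (nat_lit 2964) (nat_lit 185) (.e (nat_lit 434202) (nat_lit 18) (.e (nat_lit 4598) (nat_lit 269) .nil))))))))) (.g (nat_lit 5) .nil .nil))))))) 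
(.nd (nat_lit 2) (.nd (nat_lit 3) (.nd (nat_lit 4) (.nd (nat_lit 5) 
(.lf (nat_lit 20162) (.g (nat_lit 3047) (.e (nat_lit 1181) (nat_lit 87) (.e (nat_lit 57480) (nat_lit 28) (.e (nat_lit 557098) (nat_lit 13) (.e (nat_lit 172097) (nat_lit 9) (.e (nat_lit 426140) (nat_lit 3) (.e (nat_lit 212736) (nat_lit 26) (.e (nat_lit 335995) (nat_lit 1) (.e (nat_lit 57872) (nat_lit 264) .nil)))))))) (.g (nat_lit 5) .nil .nil))) 
(.lf (nat_lit 20194) (.g (nat_lit 3263) (.e (nat_lit 1181) (nat_lit 87) (.e (nat_lit 57480) (nat_lit 28) (.e (nat_lit 557098) (nat_lit 13) (.e (nat_lit 172115) (nat_lit 10) (.e (nat_lit 434231) (nat_lit 23) (.e (nat_lit 532536) (nat_lit 9) (.e (nat_lit 335997) (nat_lit 1) (.e (nat_lit 57871) (nat_lit 264) .nil)))))))) (.g (nat_lit 5) .nil .nil)))) (.nd (nat_lit 5) 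
(.lf (nat_lit 20178) (.g (nat_lit 2808) (.e (nat_lit 1181) (nat_lit 87) (.e (nat_lit 57480) (nat_lit 28) (.e (nat_lit 557098) (nat_lit 13) (.e (nat_lit 172115) (nat_lit 10) (.e (nat_lit 434231) (nat_lit 23) (.e (nat_lit 532525) (nat_lit 8) (.e (nat_lit 327692) (nat_lit 1) (.e (nat_lit 8439) (nat_lit 138) .nil)))))))) (.g (nat_lit 4) .nil .nil))) 
(.lf (nat_lit 20210) (.g (nat_lit 2700) (.e (nat_lit 1181) (nat_lit 87) (.e (nat_lit 57480) (nat_lit 28) (.e (nat_lit 557098) (nat_lit 13) (.e (nat_lit 172115) (nat_lit 10) (.e (nat_lit 434231) (nat_lit 23) (.e (nat_lit 532553) (nat_lit 13) (.e (nat_lit 368662) (nat_lit 18) (.e (nat_lit 5905) (nat_lit 320) .nil)))))))) (.g (nat_lit 4) .nil .nil))))) (.nd (nat_lit 4) (.nd (nat_lit 5) 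
(.lf (nat_lit 20170) (.g (nat_lit 2072) (.e (nat_lit 1181) (nat_lit 87) (.e (nat_lit 57480) (nat_lit 28) (.e (nat_lit 557098) (nat_lit 13) (.e (nat_lit 172097) (nat_lit 9) (.e (nat_lit 426140) (nat_lit 3) (.e (nat_lit 204863) (nat_lit 27) (.e (nat_lit 344101) (nat_lit 18) (.e (nat_lit 5902) (nat_lit 320) .nil)))))))) (.g (nat_lit 4) .nil .nil))) 
(.lf (nat_lit 20202) (.g (nat_lit 4421) (.e (nat_lit 1181) (nat_lit 87) (.e (nat_lit 57480) (nat_lit 28) (.e (nat_lit 557098) (nat_lit 13) (.e (nat_lit 172115) (nat_lit 10) (.e (nat_lit 434231) (nat_lit 23) (.e (nat_lit 532543) (nat_lit 10) (.e (nat_lit 344097) (nat_lit 18) (.e (nat_lit 5905) (nat_lit 320) .nil)))))))) (.g (nat_lit 7) .nil .nil)))) (.nd (nat_lit 5) 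
(.lf (nat_lit 20186) (.g (nat_lit 4988) (.e (nat_lit 1181) (nat_lit 87) (.e (nat_lit 57480) (nat_lit 28) (.e (nat_lit 557098) (nat_lit 13) (.e (nat_lit 172115) (nat_lit 10) (.e (nat_lit 434231) (nat_lit 23) (.e (nat_lit 532535) (nat_lit 9) (.e (nat_lit 335985) (nat_lit 1) (.e (nat_lit 57870) (nat_lit 264) .nil)))))))) (.g (nat_lit 0) .nil .nil))) 
(.lf (nat_lit 20218) (.g (nat_lit 4061) (.e (nat_lit 1181) (nat_lit 87) (.e (nat_lit 57480) (nat_lit 28) (.e (nat_lit 557098) (nat_lit 13) (.e (nat_lit 172115) (nat_lit 10) (.e (nat_lit 434231) (nat_lit 23) (.e (nat_lit 532555) (nat_lit 13) (.e (nat_lit 368662) (nat_lit 18) (.e (nat_lit 5906) (nat_lit 320) .nil)))))))) (.g (nat_lit 6) .nil .nil)))))) 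
(.nd (nat_lit 3) (.nd (nat_lit 4) (.nd (nat_lit 5) 
(.lf (nat_lit 20166) (.g (nat_lit 2199) (.e (nat_lit 1181) (nat_lit 87) (.e (nat_lit 57480) (nat_lit 28) (.e (nat_lit 557098) (nat_lit 13) (.e (nat_lit 172097) (nat_lit 9) (.e (nat_lit 426140) (nat_lit 3) (.e (nat_lit 204862) (nat_lit 27) (.e (nat_lit 344100) (nat_lit 18) (.e (nat_lit 5907) (nat_lit 320) .nil)))))))) (.g (nat_lit 4) .nil .nil))) 
(.lf (nat_lit 20198) (.g (nat_lit 3272) (.e (nat_lit 1181) (nat_lit 87) (.e (nat_lit 57480) (nat_lit 28) (.e (nat_lit 557098) (nat_lit 13) (.e (nat_lit 172115) (nat_lit 10) (.e (nat_lit 434231) (nat_lit 23) (.e (nat_lit 532537) (nat_lit 9) (.e (nat_lit 335997) (nat_lit 1) (.e (nat_lit 57872) (nat_lit 264) .nil)))))))) (.g (nat_lit 5) .nil .nil)))) (.nd (nat_lit 5) 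
(.lf (nat_lit 20182) (.g (nat_lit 2568) (.e (nat_lit 1181) (nat_lit 87) (.e (nat_lit 57480) (nat_lit 28) (.e (nat_lit 557098) (nat_lit 13) (.e (nat_lit 172115) (nat_lit 10) (.e (nat_lit 434231) (nat_lit 23) (.e (nat_lit 532527) (nat_lit 9) (.e (nat_lit 335997) (nat_lit 1) (.e (nat_lit 57873) (nat_lit 264) .nil)))))))) (.g (nat_lit 4) .nil .nil))) 
(.lf (nat_lit 20214) (.g (nat_lit 3754) (.e (nat_lit 1181) (nat_lit 87) (.e (nat_lit 57480) (nat_lit 28) (.e (nat_lit 557098) (nat_lit 13) (.e (nat_lit 172115) (nat_lit 10) (.e (nat_lit 434231) (nat_lit 23) (.e (nat_lit 532554) (nat_lit 13) (.e (nat_lit 368662) (nat_lit 18) (.e (nat_lit 5905) (nat_lit 320) .nil)))))))) (.g (nat_lit 5) .nil .nil))))) (.nd (nat_lit 4) (.nd (nat_lit 5) 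
(.lf (nat_lit 20174) (.g (nat_lit 1903) (.e (nat_lit 1181) (nat_lit 87) (.e (nat_lit 57480) (nat_lit 28) (.e (nat_lit 557098) (nat_lit 13) (.e (nat_lit 172115) (nat_lit 10) (.e (nat_lit 434231) (nat_lit 23) .nil))))) .nil)) 
(.lf (nat_lit 20206) (.g (nat_lit 3249) (.e (nat_lit 1181) (nat_lit 87) (.e (nat_lit 57480) (nat_lit 28) (.e (nat_lit 557098) (nat_lit 13) (.e (nat_lit 172115) (nat_lit 10) (.e (nat_lit 434231) (nat_lit 23) (.e (nat_lit 532545) (nat_lit 10) (.e (nat_lit 344097) (nat_lit 18) (.e (nat_lit 5906) (nat_lit 320) .nil)))))))) (.g (nat_lit 5) .nil .nil)))) (.nd (nat_lit 5) 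
(.lf (nat_lit 20190) (.g (nat_lit 4977) (.e (nat_lit 1181) (nat_lit 87) (.e (nat_lit 57480) (nat_lit 28) (.e (nat_lit 557098) (nat_lit 13) (.e (nat_lit 172115) (nat_lit 10) (.e (nat_lit 434231) (nat_lit 23) (.e (nat_lit 532535) (nat_lit 9) (.e (nat_lit 335992) (nat_lit 1) (.e (nat_lit 57872) (nat_lit 264) .nil)))))))) (.g (nat_lit 6) .nil .nil))) 
(.lf (nat_lit 20222) (.g (nat_lit 3310) (.e (nat_lit 1181) (nat_lit 87) (.e (nat_lit 57480) (nat_lit 28) (.e (nat_lit 557098) (nat_lit 13) (.e (nat_lit 172115) (nat_lit 10) (.e (nat_lit 434244) (nat_lit 28) (.e (nat_lit 573449) (nat_lit 9) (.e (nat_lit 452) (nat_lit 33) (.e (nat_lit 434202) (nat_lit 18) (.e (nat_lit 4598) (nat_lit 269) .nil))))))))) (.g (nat_lit 5) .nil .nil)))))))) 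
(.nd (nat_lit 1) (.nd (nat_lit 2) (.nd (nat_lit 3) (.nd (nat_lit 4) (.nd (nat_lit 5) 
(.lf (nat_lit 20161) (.g (nat_lit 2288) (.e (nat_lit 1181) (nat_lit 87) (.e (nat_lit 57480) (nat_lit 28) (.e (nat_lit 557098) (nat_lit 13) (.e (nat_lit 172097) (nat_lit 9) (.e (nat_lit 426140) (nat_lit 3) (.e (nat_lit 212736) (nat_lit 26) (.e (nat_lit 335995) (nat_lit 1) (.e (nat_lit 57870) (nat_lit 264) .nil)))))))) (.g (nat_lit 4) .nil .nil))) 
(.lf (nat_lit 20193) (.g (nat_lit 3778) (.e (nat_lit 1181) (nat_lit 87) (.e (nat_lit 57480) (nat_lit 28) (.e (nat_lit 557098) (nat_lit 13) (.e (nat_lit 172115) (nat_lit 10) (.e (nat_lit 434231) (nat_lit 23) (.e (nat_lit 532536) (nat_lit 9) (.e (nat_lit 335997) (nat_lit 1) (.e (nat_lit 57870) (nat_lit 264) .nil)))))))) (.g (nat_lit 5) .nil .nil)))) (.nd (nat_lit 5) 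
(.lf (nat_lit 20177) (.g (nat_lit 2140) (.e (nat_lit 1181) (nat_lit 87) (.e (nat_lit 57480) (nat_lit 28) (.e (nat_lit 557098) (nat_lit 13) (.e (nat_lit 172115) (nat_lit 10) (.e (nat_lit 434231) (nat_lit 23) (.e (nat_lit 532490) (nat_lit 0) (.e (nat_lit 7936) (nat_lit 343) (.e (nat_lit 1183) (nat_lit 87) (.e (nat_lit 57872) (nat_lit 264) .nil))))))))) (.g (nat_lit 4) .nil .nil))) 
(.lf (nat_lit 20209) (.g (nat_lit 2394) (.e (nat_lit 1181) (nat_lit 87) (.e (nat_lit 57480) (nat_lit 28) (.e (nat_lit 557098) (nat_lit 13) (.e (nat_lit 172115) (nat_lit 10) (.e (nat_lit 434231) (nat_lit 23) (.e (nat_lit 532553) (nat_lit 13) (.e (nat_lit 368662) (nat_lit 18) (.e (nat_lit 5902) (nat_lit 320) .nil)))))))) (.g (nat_lit 4) .nil .nil))))) (.nd (nat_lit 4) (.nd (nat_lit 5) 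
(.lf (nat_lit 20169) (.g (nat_lit 2522) (.e (nat_lit 1181) (nat_lit 87) (.e (nat_lit 57480) (nat_lit 28) (.e (nat_lit 557098) (nat_lit 13) (.e (nat_lit 172097) (nat_lit 9) (.e (nat_lit 426140) (nat_lit 3) (.e (nat_lit 204863) (nat_lit 27) (.e (nat_lit 344099) (nat_lit 18) (.e (nat_lit 5907) (nat_lit 320) .nil)))))))) (.g (nat_lit 4) .nil .nil))) 
(.lf (nat_lit 20201) (.g (nat_lit 4123) (.e (nat_lit 1181) (nat_lit 87) (.e (nat_lit 57480) (nat_lit 28) (.e (nat_lit 557098) (nat_lit 13) (.e (nat_lit 172115) (nat_lit 10) (.e (nat_lit 434231) (nat_lit 23) (.e (nat_lit 532543) (nat_lit 10) (.e (nat_lit 344090) (nat_lit 18) (.e (nat_lit 5896) (nat_lit 320) .nil)))))))) (.g (nat_lit 6) .nil .nil)))) (.nd (nat_lit 5) 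
(.lf (nat_lit 20185) (.g (nat_lit 4766) (.e (nat_lit 1181) (nat_lit 87) (.e (nat_lit 57480) (nat_lit 28) (.e (nat_lit 557098) (nat_lit 13) (.e (nat_lit 172115) (nat_lit 10) (.e (nat_lit 434231) (nat_lit 23) (.e (nat_lit 532535) (nat_lit 9) (.e (nat_lit 335925) (nat_lit 0) (.e (nat_lit 1023) (nat_lit 81) (.e (nat_lit 5907) (nat_lit 320) .nil))))))))) (.g (nat_lit 6) .nil .nil))) 
(.lf (nat_lit 20217) (.g (nat_lit 2461) (.e (nat_lit 1181) (nat_lit 87) (.e (nat_lit 57480) (nat_lit 28) (.e (nat_lit 557098) (nat_lit 13) (.e (nat_lit 172115) (nat_lit 10) (.e (nat_lit 434231) (nat_lit 23) (.e (nat_lit 532555) (nat_lit 13) (.e (nat_lit 368662) (nat_lit 18) (.e (nat_lit 5905) (nat_lit 320) .nil)))))))) (.g (nat_lit 4) .nil .nil)))))) 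
(.nd (nat_lit 3) (.nd (nat_lit 4) (.nd (nat_lit 5) 
(.lf (nat_lit 20165) (.g (nat_lit 4434) (.e (nat_lit 1181) (nat_lit 87) (.e (nat_lit 57480) (nat_lit 28) (.e (nat_lit 557098) (nat_lit 13) (.e (nat_lit 172097) (nat_lit 9) (.e (nat_lit 426140) (nat_lit 3) (.e (nat_lit 204862) (nat_lit 27) (.e (nat_lit 344097) (nat_lit 18) (.e (nat_lit 5905) (nat_lit 320) .nil)))))))) (.g (nat_lit 7) .nil .nil))) 
(.lf (nat_lit 20197) (.g (nat_lit 2767) (.e (nat_lit 1181) (nat_lit 87) (.e (nat_lit 57480) (nat_lit 28) (.e (nat_lit 557098) (nat_lit 13) (.e (nat_lit 172115) (nat_lit 10) (.e (nat_lit 434231) (nat_lit 23) (.e (nat_lit 532537) (nat_lit 9) (.e (nat_lit 335997) (nat_lit 1) (.e (nat_lit 57871) (nat_lit 264) .nil)))))))) (.g (nat_lit 4) .nil .nil)))) (.nd (nat_lit 5) 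
(.lf (nat_lit 20181) (.g (nat_lit 4495) (.e (nat_lit 1181) (nat_lit 87) (.e (nat_lit 57480) (nat_lit 28) (.e (nat_lit 557098) (nat_lit 13) (.e (nat_lit 172115) (nat_lit 10) (.e (nat_lit 434231) (nat_lit 23) (.e (nat_lit 532527) (nat_lit 9) (.e (nat_lit 335997) (nat_lit 1) (.e (nat_lit 57871) (nat_lit 264) .nil)))))))) (.g (nat_lit 7) .nil .nil))) 
(.lf (nat_lit 20213) (.g (nat_lit 3325) (.e (nat_lit 1181) (nat_lit 87) (.e (nat_lit 57480) (nat_lit 28) (.e (nat_lit 557098) (nat_lit 13) (.e (nat_lit 172115) (nat_lit 10) (.e (nat_lit 434231) (nat_lit 23) (.e (nat_lit 532554) (nat_lit 13) (.e (nat_lit 368662) (nat_lit 18) (.e (nat_lit 5902) (nat_lit 320) .nil)))))))) (.g (nat_lit 5) .nil .nil))))) (.nd (nat_lit 4) (.nd (nat_lit 5) 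
(.lf (nat_lit 20173) (.g (nat_lit 2568) (.e (nat_lit 1181) (nat_lit 87) (.e (nat_lit 57480) (nat_lit 28) (.e (nat_lit 557098) (nat_lit 13) (.e (nat_lit 172097) (nat_lit 9) (.e (nat_lit 426140) (nat_lit 3) (.e (nat_lit 204872) (nat_lit 30) (.e (nat_lit 368662) (nat_lit 18) (.e (nat_lit 5906) (nat_lit 320) .nil)))))))) (.g (nat_lit 4) .nil .nil))) 
(.lf (nat_lit 20205) (.g (nat_lit 4654) (.e (nat_lit 1181) (nat_lit 87) (.e (nat_lit 57480) (nat_lit 28) (.e (nat_lit 557098) (nat_lit 13) (.e (nat_lit 172115) (nat_lit 10) (.e (nat_lit 434231) (nat_lit 23) (.e (nat_lit 532544) (nat_lit 10) (.e (nat_lit 344097) (nat_lit 18) (.e (nat_lit 5905) (nat_lit 320) .nil)))))))) (.g (nat_lit 6) .nil .nil)))) (.nd (nat_lit 5) 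
(.lf (nat_lit 20189) (.g (nat_lit 5980) (.e (nat_lit 1181) (nat_lit 87) (.e (nat_lit 57480) (nat_lit 28) (.e (nat_lit 557098) (nat_lit 13) (.e (nat_lit 172115) (nat_lit 10) (.e (nat_lit 434231) (nat_lit 23) (.e (nat_lit 532535) (nat_lit 9) (.e (nat_lit 335992) (nat_lit 1) (.e (nat_lit 57870) (nat_lit 264) .nil)))))))) (.g (nat_lit 8) .nil .nil))) 
(.lf (nat_lit 20221) (.g (nat_lit 2311) (.e (nat_lit 1181) (nat_lit 87) (.e (nat_lit 57480) (nat_lit 28) (.e (nat_lit 557098) (nat_lit 13) (.e (nat_lit 172115) (nat_lit 10) (.e (nat_lit 434238) (nat_lit 25) (.e (nat_lit 548898) (nat_lit 14) (.e (nat_lit 2964) (nat_lit 185) (.e (nat_lit 434209) (nat_lit 18) (.e (nat_lit 4605) (nat_lit 269) .nil))))))))) (.g (nat_lit 4) .nil .nil))))))) 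
(.nd (nat_lit 2) (.nd (nat_lit 3) (.nd (nat_lit 4) (.nd (nat_lit 5) 
(.lf (nat_lit 20163) (.g (nat_lit 3855) (.e (nat_lit 1181) (nat_lit 87) (.e (nat_lit 57480) (nat_lit 28) (.e (nat_lit 557098) (nat_lit 13) (.e (nat_lit 172097) (nat_lit 9) (.e (nat_lit 426140) (nat_lit 3) (.e (nat_lit 204862) (nat_lit 27) (.e (nat_lit 344090) (nat_lit 18) (.e (nat_lit 5896) (nat_lit 320) .nil)))))))) (.g (nat_lit 6) .nil .nil))) 
(.lf (nat_lit 20195) (.g (nat_lit 3772) (.e (nat_lit 1181) (nat_lit 87) (.e (nat_lit 57480) (nat_lit 28) (.e (nat_lit 557098) (nat_lit 13) (.e (nat_lit 172115) (nat_lit 10) (.e (nat_lit 434231) (nat_lit 23) (.e (nat_lit 532536) (nat_lit 9) (.e (nat_lit 335997) (nat_lit 1) (.e (nat_lit 57872) (nat_lit 264) .nil)))))))) (.g (nat_lit 5) .nil .nil)))) (.nd (nat_lit 5) 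
(.lf (nat_lit 20179) (.g (nat_lit 2554) (.e (nat_lit 1181) (nat_lit 87) (.e (nat_lit 57480) (nat_lit 28) (.e (nat_lit 557098) (nat_lit 13) (.e (nat_lit 172115) (nat_lit 10) (.e (nat_lit 434231) (nat_lit 23) (.e (nat_lit 532527) (nat_lit 9) (.e (nat_lit 335992) (nat_lit 1) (.e (nat_lit 57870) (nat_lit 264) .nil)))))))) (.g (nat_lit 4) .nil .nil))) 
(.lf (nat_lit 20211) (.g (nat_lit 4353) (.e (nat_lit 1181) (nat_lit 87) (.e (nat_lit 57480) (nat_lit 28) (.e (nat_lit 557098) (nat_lit 13) (.e (nat_lit 172115) (nat_lit 10) (.e (nat_lit 434231) (nat_lit 23) (.e (nat_lit 532553) (nat_lit 13) (.e (nat_lit 368662) (nat_lit 18) (.e (nat_lit 5906) (nat_lit 320) .nil)))))))) (.g (nat_lit 6) .nil .nil))))) (.nd (nat_lit 4) (.nd (nat_lit 5) 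
(.lf (nat_lit 20171) (.g (nat_lit 2044) (.e (nat_lit 1181) (nat_lit 87) (.e (nat_lit 57480) (nat_lit 28) (.e (nat_lit 557098) (nat_lit 13) (.e (nat_lit 172097) (nat_lit 9) (.e (nat_lit 426140) (nat_lit 3) (.e (nat_lit 204863) (nat_lit 27) (.e (nat_lit 344101) (nat_lit 18) (.e (nat_lit 5906) (nat_lit 320) .nil)))))))) (.g (nat_lit 4) .nil .nil))) 
(.lf (nat_lit 20203) (.g (nat_lit 2338) (.e (nat_lit 1181) (nat_lit 87) (.e (nat_lit 57480) (nat_lit 28) (.e (nat_lit 557098) (nat_lit 13) (.e (nat_lit 172115) (nat_lit 10) (.e (nat_lit 434231) (nat_lit 23) (.e (nat_lit 532543) (nat_lit 10) (.e (nat_lit 344100) (nat_lit 18) (.e (nat_lit 5906) (nat_lit 320) .nil)))))))) (.g (nat_lit 4) .nil .nil)))) (.nd (nat_lit 5) 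
(.lf (nat_lit 20187) (.g (nat_lit 4587) (.e (nat_lit 1181) (nat_lit 87) (.e (nat_lit 57480) (nat_lit 28) (.e (nat_lit 557098) (nat_lit 13) (.e (nat_lit 172115) (nat_lit 10) (.e (nat_lit 434231) (nat_lit 23) (.e (nat_lit 532535) (nat_lit 9) (.e (nat_lit 335985) (nat_lit 1) (.e (nat_lit 57871) (nat_lit 264) .nil)))))))) (.g (nat_lit 6) .nil .nil))) 
(.lf (nat_lit 20219) (.g (nat_lit 4436) (.e (nat_lit 1181) (nat_lit 87) (.e (nat_lit 57480) (nat_lit 28) (.e (nat_lit 557098) (nat_lit 13) (.e (nat_lit 172115) (nat_lit 10) (.e (nat_lit 434231) (nat_lit 23) (.e (nat_lit 532555) (nat_lit 13) (.e (nat_lit 368662) (nat_lit 18) (.e (nat_lit 5907) (nat_lit 320) .nil)))))))) (.g (nat_lit 6) .nil .nil)))))) 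
(.nd (nat_lit 3) (.nd (nat_lit 4) (.nd (nat_lit 5) 
(.lf (nat_lit 20167) (.g (nat_lit 3838) (.e (nat_lit 1181) (nat_lit 87) (.e (nat_lit 57480) (nat_lit 28) (.e (nat_lit 557098) (nat_lit 13) (.e (nat_lit 172097) (nat_lit 9) (.e (nat_lit 426140) (nat_lit 3) (.e (nat_lit 204863) (nat_lit 27) (.e (nat_lit 344090) (nat_lit 18) (.e (nat_lit 5896) (nat_lit 320) .nil)))))))) (.g (nat_lit 6) .nil .nil))) 
(.lf (nat_lit 20199) (.g (nat_lit 2247) (.e (nat_lit 1181) (nat_lit 87) (.e (nat_lit 57480) (nat_lit 28) (.e (nat_lit 557098) (nat_lit 13) (.e (nat_lit 172115) (nat_lit 10) (.e (nat_lit 434231) (nat_lit 23) (.e (nat_lit 540416) (nat_lit 9) (.e (nat_lit 335995) (nat_lit 1) (.e (nat_lit 57870) (nat_lit 264) .nil)))))))) (.g (nat_lit 4) .nil .nil)))) (.nd (nat_lit 5) 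
(.lf (nat_lit 20183) (.g (nat_lit 2945) (.e (nat_lit 1181) (nat_lit 87) (.e (nat_lit 57480) (nat_lit 28) (.e (nat_lit 557098) (nat_lit 13) (.e (nat_lit 172115) (nat_lit 10) (.e (nat_lit 434231) (nat_lit 23) (.e (nat_lit 532529) (nat_lit 9) (.e (nat_lit 343808) (nat_lit 1) (.e (nat_lit 57871) (nat_lit 264) .nil)))))))) (.g (nat_lit 4) .nil .nil))) 
(.lf (nat_lit 20215) (.g (nat_lit 5470) (.e (nat_lit 1181) (nat_lit 87) (.e (nat_lit 57480) (nat_lit 28) (.e (nat_lit 557098) (nat_lit 13) (.e (nat_lit 172115) (nat_lit 10) (.e (nat_lit 434231) (nat_lit 23) (.e (nat_lit 532554) (nat_lit 13) (.e (nat_lit 368662) (nat_lit 18) (.e (nat_lit 5906) (nat_lit 320) .nil)))))))) (.g (nat_lit 8) .nil .nil))))) (.nd (nat_lit 4) (.nd (nat_lit 5) 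
(.lf (nat_lit 20175) (.g (nat_lit 2686) (.e (nat_lit 1181) (nat_lit 87) (.e (nat_lit 57480) (nat_lit 28) (.e (nat_lit 557098) (nat_lit 13) (.e (nat_lit 172115) (nat_lit 10) (.e (nat_lit 434231) (nat_lit 23) (.e (nat_lit 532481) (nat_lit 0) (.e (nat_lit 6481) (nat_lit 343) (.e (nat_lit 1181) (nat_lit 87) (.e (nat_lit 57870) (nat_lit 264) .nil))))))))) (.g (nat_lit 4) .nil .nil))) 
(.lf (nat_lit 20207) (.g (nat_lit 3877) (.e (nat_lit 1181) (nat_lit 87) (.e (nat_lit 57480) (nat_lit 28) (.e (nat_lit 557098) (nat_lit 13) (.e (nat_lit 172115) (nat_lit 10) (.e (nat_lit 434231) (nat_lit 23) (.e (nat_lit 532545) (nat_lit 10) (.e (nat_lit 344097) (nat_lit 18) (.e (nat_lit 5907) (nat_lit 320) .nil)))))))) (.g (nat_lit 5) .nil .nil)))) (.nd (nat_lit 5) 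
(.lf (nat_lit 20191) (.g (nat_lit 5273) (.e (nat_lit 1181) (nat_lit 87) (.e (nat_lit 57480) (nat_lit 28) (.e (nat_lit 557098) (nat_lit 13) (.e (nat_lit 172115) (nat_lit 10) (.e (nat_lit 434231) (nat_lit 23) (.e (nat_lit 532535) (nat_lit 9) (.e (nat_lit 335992) (nat_lit 1) (.e (nat_lit 57873) (nat_lit 264) .nil)))))))) (.g (nat_lit 6) .nil .nil))) 
(.lf (nat_lit 20223) (.g (nat_lit 4590) (.e (nat_lit 1181) (nat_lit 87) (.e (nat_lit 57480) (nat_lit 28) (.e (nat_lit 557098) (nat_lit 13) (.e (nat_lit 172115) (nat_lit 10) (.e (nat_lit 434244) (nat_lit 28) (.e (nat_lit 573450) (nat_lit 9) (.e (nat_lit 375) (nat_lit 32) (.e (nat_lit 426109) (nat_lit 1) (.e (nat_lit 164423) (nat_lit 272) .nil))))))))) (.g (nat_lit 7) .nil .nil)))))))))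

noncomputable def tv281 : DT := (.nd (nat_lit 0) (.nd (nat_lit 1) (.nd (nat_lit 2) (.nd (nat_lit 3) (.nd (nat_lit 4) (.nd (nat_lit 5) 
(.lf (nat_lit 20224) (.g (nat_lit 4203) (.e (nat_lit 1181) (nat_lit 87) (.e (nat_lit 57480) (nat_lit 28) (.e (nat_lit 557098) (nat_lit 13) (.e (nat_lit 172115) (nat_lit 10) (.e (nat_lit 434244) (nat_lit 28) (.e (nat_lit 573450) (nat_lit 9) (.e (nat_lit 452) (nat_lit 33) (.e (nat_lit 434209) (nat_lit 18) (.e (nat_lit 4606) (nat_lit 269) .nil))))))))) (.g (nat_lit 6) .nil .nil))) 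
(.lf (nat_lit 20256) (.g (nat_lit 3903) (.e (nat_lit 1181) (nat_lit 87) (.e (nat_lit 57480) (nat_lit 28) (.e (nat_lit 557107) (nat_lit 15) (.e (nat_lit 188447) (nat_lit 22) (.e (nat_lit 196666) (nat_lit 13) (.e (nat_lit 65563) (nat_lit 1) (.e (nat_lit 57870) (nat_lit 264) .nil))))))) (.g (nat_lit 5) .nil .nil)))) (.nd (nat_lit 5) 
(.lf (nat_lit 20240) (.g (nat_lit 3703) (.e (nat_lit 1181) (nat_lit 87) (.e (nat_lit 57480) (nat_lit 28) (.e (nat_lit 557105) (nat_lit 14) (.e (nat_lit 180252) (nat_lit 10) (.e (nat_lit 573488) (nat_lit 14) (.e (nat_lit 73747) (nat_lit 3) (.e (nat_lit 516115) (nat_lit 1) (.e (nat_lit 164167) (nat_lit 152) .nil)))))))) (.g (nat_lit 5) .nil .nil))) 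
(.lf (nat_lit 20272) (.g (nat_lit 1833) (.e (nat_lit 1181) (nat_lit 87) (.e (nat_lit 57480) (nat_lit 28) (.e (nat_lit 557107) (nat_lit 15) (.e (nat_lit 188448) (nat_lit 22) .nil)))) .nil)))) (.nd (nat_lit 4) (.nd (nat_lit 5) 
(.lf (nat_lit 20232) (.g (nat_lit 2980) (.e (nat_lit 1181) (nat_lit 87) (.e (nat_lit 57480) (nat_lit 28) (.e (nat_lit 557103) (nat_lit 14) (.e (nat_lit 180250) (nat_lit 10) (.e (nat_lit 573487) (nat_lit 14) (.e (nat_lit 73746) (nat_lit 3) (.e (nat_lit 516120) (nat_lit 1) (.e (nat_lit 164166) (nat_lit 152) .nil)))))))) (.g (nat_lit 4) .nil .nil))) 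
(.lf (nat_lit 20264) (.g (nat_lit 3521) (.e (nat_lit 1181) (nat_lit 87) (.e (nat_lit 57480) (nat_lit 28) (.e (nat_lit 557107) (nat_lit 15) (.e (nat_lit 188447) (nat_lit 22) (.e (nat_lit 196668) (nat_lit 14) (.e (nat_lit 73733) (nat_lit 0) (.e (nat_lit 5906) (nat_lit 320) .nil))))))) (.g (nat_lit 4) .nil .nil)))) (.nd (nat_lit 5) 
(.lf (nat_lit 20248) (.g (nat_lit 3808) (.e (nat_lit 1181) (nat_lit 87) (.e (nat_lit 57480) (nat_lit 28) (.e (nat_lit 557105) (nat_lit 14) (.e (nat_lit 180252) (nat_lit 10) (.e (nat_lit 573488) (nat_lit 14) (.e (nat_lit 73747) (nat_lit 3) (.e (nat_lit 516119) (nat_lit 1) (.e (nat_lit 164164) (nat_lit 152) .nil)))))))) (.g (nat_lit 5) .nil .nil))) 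
(.lf (nat_lit 20280) (.g (nat_lit 3008) (.e (nat_lit 1181) (nat_lit 87) (.e (nat_lit 57480) (nat_lit 28) (.e (nat_lit 557107) (nat_lit 15) (.e (nat_lit 188450) (nat_lit 23) (.e (nat_lit 204855) (nat_lit 26) (.e (nat_lit 335985) (nat_lit 1) (.e (nat_lit 57871) (nat_lit 264) .nil))))))) (.g (nat_lit 4) .nil .nil)))))) (.nd (nat_lit 3) (.nd (nat_lit 4) (.nd (nat_lit 5) 
(.lf (nat_lit 20228) (.g (nat_lit 3291) (.e (nat_lit 1181) (nat_lit 87) (.e (nat_lit 57480) (nat_lit 28) (.e (nat_lit 557098) (nat_lit 13) (.e (nat_lit 172115) (nat_lit 10) (.e (nat_lit 434244) (nat_lit 28) (.e (nat_lit 573471) (nat_lit 11) (.e (nat_lit 16406) (nat_lit 1) (.e (nat_lit 164421) (nat_lit 272) .nil)))))))) (.g (nat_lit 5) .nil .nil))) 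
(.lf (nat_lit 20260) (.g (nat_lit 3515) (.e (nat_lit 1181) (nat_lit 87) (.e (nat_lit 57480) (nat_lit 28) (.e (nat_lit 557107) (nat_lit 15) (.e (nat_lit 188447) (nat_lit 22) (.e (nat_lit 196666) (nat_lit 13) (.e (nat_lit 65565) (nat_lit 1) (.e (nat_lit 57871) (nat_lit 264) .nil))))))) (.g (nat_lit 5) .nil .nil)))) (.nd (nat_lit 5) 
(.lf (nat_lit 20244) (.g (nat_lit 3229) (.e (nat_lit 1181) (nat_lit 87) (.e (nat_lit 57480) (nat_lit 28) (.e (nat_lit 557105) (nat_lit 14) (.e (nat_lit 180252) (nat_lit 10) (.e (nat_lit 573488) (nat_lit 14) (.e (nat_lit 73747) (nat_lit 3) (.e (nat_lit 516117) (nat_lit 1) (.e (nat_lit 164165) (nat_lit 152) .nil)))))))) (.g (nat_lit 4) .nil .nil))) 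
(.lf (nat_lit 20276) (.g (nat_lit 3533) (.e (nat_lit 1181) (nat_lit 87) (.e (nat_lit 57480) (nat_lit 28) (.e (nat_lit 557107) (nat_lit 15) (.e (nat_lit 188450) (nat_lit 23) (.e (nat_lit 204850) (nat_lit 26) (.e (nat_lit 335997) (nat_lit 1) (.e (nat_lit 57872) (nat_lit 264) .nil))))))) (.g (nat_lit 6) .nil .nil))))) (.nd (nat_lit 4) (.nd (nat_lit 5) 
(.lf (nat_lit 20236) (.g (nat_lit 2849) (.e (nat_lit 1181) (nat_lit 87) (.e (nat_lit 57480) (nat_lit 28) (.e (nat_lit 557105) (nat_lit 14) (.e (nat_lit 180252) (nat_lit 10) (.e (nat_lit 573487) (nat_lit 14) (.e (nat_lit 73747) (nat_lit 3) (.e (nat_lit 516119) (nat_lit 1) (.e (nat_lit 164147) (nat_lit 152) .nil)))))))) (.g (nat_lit 4) .nil .nil))) 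
(.lf (nat_lit 20268) (.g (nat_lit 3949) (.e (nat_lit 1181) (nat_lit 87) (.e (nat_lit 57480) (nat_lit 28) (.e (nat_lit 557107) (nat_lit 15) (.e (nat_lit 188447) (nat_lit 22) (.e (nat_lit 196681) (nat_lit 17) (.e (nat_lit 131086) (nat_lit 1) (.e (nat_lit 57872) (nat_lit 264) .nil))))))) (.g (nat_lit 5) .nil .nil)))) (.nd (nat_lit 5) 
(.lf (nat_lit 20252) (.g (nat_lit 1885) (.e (nat_lit 1181) (nat_lit 87) (.e (nat_lit 57480) (nat_lit 28) (.e (nat_lit 557107) (nat_lit 15) (.e (nat_lit 188440) (nat_lit 20) .nil)))) .nil)) 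
(.lf (nat_lit 20284) (.g (nat_lit 2429) (.e (nat_lit 1181) (nat_lit 87) (.e (nat_lit 57480) (nat_lit 28) (.e (nat_lit 557107) (nat_lit 15) (.e (nat_lit 188450) (nat_lit 23) (.e (nat_lit 204856) (nat_lit 26) (.e (nat_lit 335997) (nat_lit 1) (.e (nat_lit 57870) (nat_lit 264) .nil))))))) (.g (nat_lit 4) .nil .nil))))))) (.nd (nat_lit 2) (.nd (nat_lit 3) (.nd (nat_lit 4) (.nd (nat_lit 5) 
(.lf (nat_lit 20226) (.g (nat_lit 4096) (.e (nat_lit 1181) (nat_lit 87) (.e (nat_lit 57480) (nat_lit 28) (.e (nat_lit 557098) (nat_lit 13) (.e (nat_lit 172115) (nat_lit 10) (.e (nat_lit 434244) (nat_lit 28) (.e (nat_lit 573471) (nat_lit 11) (.e (nat_lit 16405) (nat_lit 1) (.e (nat_lit 164423) (nat_lit 272) .nil)))))))) (.g (nat_lit 6) .nil .nil))) 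
(.lf (nat_lit 20258) (.g (nat_lit 3964) (.e (nat_lit 1181) (nat_lit 87) (.e (nat_lit 57480) (nat_lit 28) (.e (nat_lit 557107) (nat_lit 15) (.e (nat_lit 188447) (nat_lit 22) (.e (nat_lit 196666) (nat_lit 13) (.e (nat_lit 65563) (nat_lit 1) (.e (nat_lit 57872) (nat_lit 264) .nil))))))) (.g (nat_lit 5) .nil .nil)))) (.nd (nat_lit 5) 
(.lf (nat_lit 20242) (.g (nat_lit 2943) (.e (nat_lit 1181) (nat_lit 87) (.e (nat_lit 57480) (nat_lit 28) (.e (nat_lit 557105) (nat_lit 14) (.e (nat_lit 180252) (nat_lit 10) (.e (nat_lit 573488) (nat_lit 14) (.e (nat_lit 73747) (nat_lit 3) (.e (nat_lit 516117) (nat_lit 1) (.e (nat_lit 164147) (nat_lit 152) .nil)))))))) (.g (nat_lit 4) .nil .nil))) 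
(.lf (nat_lit 20274) (.g (nat_lit 3402) (.e (nat_lit 1181) (nat_lit 87) (.e (nat_lit 57480) (nat_lit 28) (.e (nat_lit 557107) (nat_lit 15) (.e (nat_lit 188450) (nat_lit 23) (.e (nat_lit 204850) (nat_lit 26) (.e (nat_lit 335997) (nat_lit 1) (.e (nat_lit 57870) (nat_lit 264) .nil))))))) (.g (nat_lit 6) .nil .nil))))) (.nd (nat_lit 4) (.nd (nat_lit 5) 
(.lf (nat_lit 20234) (.g (nat_lit 1651) (.e (nat_lit 1181) (nat_lit 87) (.e (nat_lit 57480) (nat_lit 28) (.e (nat_lit 557105) (nat_lit 14) (.e (nat_lit 180252) (nat_lit 10) .nil)))) .nil)) 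
(.lf (nat_lit 20266) (.g (nat_lit 3408) (.e (nat_lit 1181) (nat_lit 87) (.e (nat_lit 57480) (nat_lit 28) (.e (nat_lit 557107) (nat_lit 15) (.e (nat_lit 188447) (nat_lit 22) (.e (nat_lit 196670) (nat_lit 14) (.e (nat_lit 73732) (nat_lit 0) (.e (nat_lit 5907) (nat_lit 320) .nil))))))) (.g (nat_lit 4) .nil .nil)))) (.nd (nat_lit 5) 
(.lf (nat_lit 20250) (.g (nat_lit 3207) (.e (nat_lit 1181) (nat_lit 87) (.e (nat_lit 57480) (nat_lit 28) (.e (nat_lit 557105) (nat_lit 14) (.e (nat_lit 180252) (nat_lit 10) (.e (nat_lit 573488) (nat_lit 14) (.e (nat_lit 73747) (nat_lit 3) (.e (nat_lit 516120) (nat_lit 1) (.e (nat_lit 164166) (nat_lit 152) .nil)))))))) (.g (nat_lit 4) .nil .nil))) 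
(.lf (nat_lit 20282) (.g (nat_lit 3763) (.e (nat_lit 1181) (nat_lit 87) (.e (nat_lit 57480) (nat_lit 28) (.e (nat_lit 557107) (nat_lit 15) (.e (nat_lit 188450) (nat_lit 23) (.e (nat_lit 204855) (nat_lit 26) (.e (nat_lit 335992) (nat_lit 1) (.e (nat_lit 57870) (nat_lit 264) .nil))))))) (.g (nat_lit 5) .nil .nil)))))) (.nd (nat_lit 3) (.nd (nat_lit 4) (.nd (nat_lit 5) 
(.lf (nat_lit 20230) (.g (nat_lit 2961) (.e (nat_lit 1181) (nat_lit 87) (.e (nat_lit 57480) (nat_lit 28) (.e (nat_lit 557103) (nat_lit 14) (.e (nat_lit 180250) (nat_lit 10) (.e (nat_lit 573487) (nat_lit 14) (.e (nat_lit 73746) (nat_lit 3) (.e (nat_lit 516117) (nat_lit 1) (.e (nat_lit 164164) (nat_lit 152) .nil)))))))) (.g (nat_lit 4) .nil .nil))) 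
(.lf (nat_lit 20262) (.g (nat_lit 2735) (.e (nat_lit 1181) (nat_lit 87) (.e (nat_lit 57480) (nat_lit 28) (.e (nat_lit 557107) (nat_lit 15) (.e (nat_lit 188447) (nat_lit 22) (.e (nat_lit 196668) (nat_lit 14) (.e (nat_lit 73733) (nat_lit 0) (.e (nat_lit 5902) (nat_lit 320) .nil))))))) (.g (nat_lit 4) .nil .nil)))) (.nd (nat_lit 5) 
(.lf (nat_lit 20246) (.g (nat_lit 3762) (.e (nat_lit 1181) (nat_lit 87) (.e (nat_lit 57480) (nat_lit 28) (.e (nat_lit 557105) (nat_lit 14) (.e (nat_lit 180252) (nat_lit 10) (.e (nat_lit 573488) (nat_lit 14) (.e (nat_lit 73747) (nat_lit 3) (.e (nat_lit 516119) (nat_lit 1) (.e (nat_lit 164147) (nat_lit 152) .nil)))))))) (.g (nat_lit 5) .nil .nil))) 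
(.lf (nat_lit 20278) (.g (nat_lit 3481) (.e (nat_lit 1181) (nat_lit 87) (.e (nat_lit 57480) (nat_lit 28) (.e (nat_lit 557107) (nat_lit 15) (.e (nat_lit 188450) (nat_lit 23) (.e (nat_lit 204855) (nat_lit 26) (.e (nat_lit 335923) (nat_lit 0) (.e (nat_lit 1023) (nat_lit 81) (.e (nat_lit 5906) (nat_lit 320) .nil)))))))) (.g (nat_lit 5) .nil .nil))))) (.nd (nat_lit 4) (.nd (nat_lit 5) 
(.lf (nat_lit 20238) (.g (nat_lit 3248) (.e (nat_lit 1181) (nat_lit 87) (.e (nat_lit 57480) (nat_lit 28) (.e (nat_lit 557105) (nat_lit 14) (.e (nat_lit 180252) (nat_lit 10) (.e (nat_lit 573488) (nat_lit 14) (.e (nat_lit 73747) (nat_lit 3) (.e (nat_lit 516115) (nat_lit 1) (.e (nat_lit 164163) (nat_lit 152) .nil)))))))) (.g (nat_lit 4) .nil .nil))) 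
(.lf (nat_lit 20270) (.g (nat_lit 4094) (.e (nat_lit 1181) (nat_lit 87) (.e (nat_lit 57480) (nat_lit 28) (.e (nat_lit 557107) (nat_lit 15) (.e (nat_lit 188447) (nat_lit 22) (.e (nat_lit 196681) (nat_lit 17) (.e (nat_lit 131088) (nat_lit 1) (.e (nat_lit 57872) (nat_lit 264) .nil))))))) (.g (nat_lit 5) .nil .nil)))) (.nd (nat_lit 5) 
(.lf (nat_lit 20254) (.g (nat_lit 3935) (.e (nat_lit 1181) (nat_lit 87) (.e (nat_lit 57480) (nat_lit 28) (.e (nat_lit 557107) (nat_lit 15) (.e (nat_lit 188447) (nat_lit 22) (.e (nat_lit 196666) (nat_lit 13) (.e (nat_lit 65550) (nat_lit 0) (.e (nat_lit 1040) (nat_lit 81) (.e (nat_lit 5907) (nat_lit 320) .nil)))))))) (.g (nat_lit 5) .nil .nil))) 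
(.lf (nat_lit 20286) (.g (nat_lit 2458) (.e (nat_lit 1181) (nat_lit 87) (.e (nat_lit 57480) (nat_lit 28) (.e (nat_lit 557107) (nat_lit 15) (.e (nat_lit 188450) (nat_lit 23) (.e (nat_lit 204857) (nat_lit 26) .nil))))) .nil))))))) (.nd (nat_lit 1) (.nd (nat_lit 2) (.nd (nat_lit 3) (.nd (nat_lit 4) (.nd (nat_lit 5) 
(.lf (nat_lit 20225) (.g (nat_lit 4026) (.e (nat_lit 1181) (nat_lit 87) (.e (nat_lit 57480) (nat_lit 28) (.e (nat_lit 557098) (nat_lit 13) (.e (nat_lit 172115) (nat_lit 10) (.e (nat_lit 434244) (nat_lit 28) (.e (nat_lit 573471) (nat_lit 11) (.e (nat_lit 16405) (nat_lit 1) (.e (nat_lit 164422) (nat_lit 272) .nil)))))))) (.g (nat_lit 6) .nil .nil))) 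
(.lf (nat_lit 20257) (.g (nat_lit 3501) (.e (nat_lit 1181) (nat_lit 87) (.e (nat_lit 57480) (nat_lit 28) (.e (nat_lit 557107) (nat_lit 15) (.e (nat_lit 188447) (nat_lit 22) (.e (nat_lit 196666) (nat_lit 13) (.e (nat_lit 65563) (nat_lit 1) (.e (nat_lit 57871) (nat_lit 264) .nil))))))) (.g (nat_lit 5) .nil .nil)))) (.nd (nat_lit 5) 
(.lf (nat_lit 20241) (.g (nat_lit 2874) (.e (nat_lit 1181) (nat_lit 87) (.e (nat_lit 57480) (nat_lit 28) (.e (nat_lit 557105) (nat_lit 14) (.e (nat_lit 180252) (nat_lit 10) (.e (nat_lit 573488) (nat_lit 14) (.e (nat_lit 73747) (nat_lit 3) (.e (nat_lit 516116) (nat_lit 1) (.e (nat_lit 164164) (nat_lit 152) .nil)))))))) (.g (nat_lit 4) .nil .nil))) 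
(.lf (nat_lit 20273) (.g (nat_lit 1326) (.e (nat_lit 1181) (nat_lit 87) (.e (nat_lit 57480) (nat_lit 28) (.e (nat_lit 557107) (nat_lit 15) (.e (nat_lit 188450) (nat_lit 23) .nil)))) .nil)))) (.nd (nat_lit 4) (.nd (nat_lit 5) 
(.lf (nat_lit 20233) (.g (nat_lit 1311) (.e (nat_lit 1181) (nat_lit 87) (.e (nat_lit 57480) (nat_lit 28) (.e (nat_lit 557103) (nat_lit 14) (.e (nat_lit 180285) (nat_lit 45) .nil)))) .nil)) 
(.lf (nat_lit 20265) (.g (nat_lit 2645) (.e (nat_lit 1181) (nat_lit 87) (.e (nat_lit 57480) (nat_lit 28) (.e (nat_lit 557107) (nat_lit 15) (.e (nat_lit 188447) (nat_lit 22) (.e (nat_lit 196670) (nat_lit 14) .nil))))) .nil))) (.nd (nat_lit 5) 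
(.lf (nat_lit 20249) (.g (nat_lit 3270) (.e (nat_lit 1181) (nat_lit 87) (.e (nat_lit 57480) (nat_lit 28) (.e (nat_lit 557105) (nat_lit 14) (.e (nat_lit 180252) (nat_lit 10) (.e (nat_lit 573488) (nat_lit 14) (.e (nat_lit 73747) (nat_lit 3) (.e (nat_lit 516119) (nat_lit 1) (.e (nat_lit 164167) (nat_lit 152) .nil)))))))) (.g (nat_lit 4) .nil .nil))) 
(.lf (nat_lit 20281) (.g (nat_lit 3516) (.e (nat_lit 1181) (nat_lit 87) (.e (nat_lit 57480) (nat_lit 28) (.e (nat_lit 557107) (nat_lit 15) (.e (nat_lit 188450) (nat_lit 23) (.e (nat_lit 204855) (nat_lit 26) (.e (nat_lit 335985) (nat_lit 1) (.e (nat_lit 57872) (nat_lit 264) .nil))))))) (.g (nat_lit 5) .nil .nil)))))) (.nd (nat_lit 3) (.nd (nat_lit 4) (.nd (nat_lit 5) 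
(.lf (nat_lit 20229) (.g (nat_lit 1588) (.e (nat_lit 1181) (nat_lit 87) (.e (nat_lit 57480) (nat_lit 28) (.e (nat_lit 557101) (nat_lit 13) (.e (nat_lit 172097) (nat_lit 9) .nil)))) .nil)) 
(.lf (nat_lit 20261) (.g (nat_lit 4014) (.e (nat_lit 1181) (nat_lit 87) (.e (nat_lit 57480) (nat_lit 28) (.e (nat_lit 557107) (nat_lit 15) (.e (nat_lit 188447) (nat_lit 22) (.e (nat_lit 196666) (nat_lit 13) (.e (nat_lit 65565) (nat_lit 1) (.e (nat_lit 57872) (nat_lit 264) .nil))))))) (.g (nat_lit 6) .nil .nil)))) (.nd (nat_lit 5) 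
(.lf (nat_lit 20245) (.g (nat_lit 3500) (.e (nat_lit 1181) (nat_lit 87) (.e (nat_lit 57480) (nat_lit 28) (.e (nat_lit 557105) (nat_lit 14) (.e (nat_lit 180252) (nat_lit 10) (.e (nat_lit 573488) (nat_lit 14) (.e (nat_lit 73747) (nat_lit 3) (.e (nat_lit 516117) (nat_lit 1) (.e (nat_lit 164166) (nat_lit 152) .nil)))))))) (.g (nat_lit 5) .nil .nil))) 
(.lf (nat_lit 20277) (.g (nat_lit 3295) (.e (nat_lit 1181) (nat_lit 87) (.e (nat_lit 57480) (nat_lit 28) (.e (nat_lit 557107) (nat_lit 15) (.e (nat_lit 188450) (nat_lit 23) (.e (nat_lit 204852) (nat_lit 26) (.e (nat_lit 343808) (nat_lit 1) (.e (nat_lit 57872) (nat_lit 264) .nil))))))) (.g (nat_lit 5) .nil .nil))))) (.nd (nat_lit 4) (.nd (nat_lit 5) 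
(.lf (nat_lit 20237) (.g (nat_lit 2921) (.e (nat_lit 1181) (nat_lit 87) (.e (nat_lit 57480) (nat_lit 28) (.e (nat_lit 557105) (nat_lit 14) (.e (nat_lit 180252) (nat_lit 10) (.e (nat_lit 573487) (nat_lit 14) (.e (nat_lit 73747) (nat_lit 3) (.e (nat_lit 516119) (nat_lit 1) (.e (nat_lit 164164) (nat_lit 152) .nil)))))))) (.g (nat_lit 4) .nil .nil))) 
(.lf (nat_lit 20269) (.g (nat_lit 3793) (.e (nat_lit 1181) (nat_lit 87) (.e (nat_lit 57480) (nat_lit 28) (.e (nat_lit 557107) (nat_lit 15) (.e (nat_lit 188447) (nat_lit 22) (.e (nat_lit 196681) (nat_lit 17) (.e (nat_lit 131088) (nat_lit 1) (.e (nat_lit 57870) (nat_lit 264) .nil))))))) (.g (nat_lit 5) .nil .nil)))) (.nd (nat_lit 5) 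
(.lf (nat_lit 20253) (.g (nat_lit 4049) (.e (nat_lit 1181) (nat_lit 87) (.e (nat_lit 57480) (nat_lit 28) (.e (nat_lit 557107) (nat_lit 15) (.e (nat_lit 188447) (nat_lit 22) (.e (nat_lit 196666) (nat_lit 13) (.e (nat_lit 65550) (nat_lit 0) (.e (nat_lit 1023) (nat_lit 81) (.e (nat_lit 5907) (nat_lit 320) .nil)))))))) (.g (nat_lit 5) .nil .nil))) 
(.lf (nat_lit 20285) (.g (nat_lit 2498) (.e (nat_lit 1181) (nat_lit 87) (.e (nat_lit 57480) (nat_lit 28) (.e (nat_lit 557107) (nat_lit 15) (.e (nat_lit 188450) (nat_lit 23) (.e (nat_lit 204856) (nat_lit 26) (.e (nat_lit 335997) (nat_lit 1) (.e (nat_lit 57872) (nat_lit 264) .nil))))))) (.g (nat_lit 4) .nil .nil))))))) (.nd (nat_lit 2) (.nd (nat_lit 3) (.nd (nat_lit 4) (.nd (nat_lit 5) 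
(.lf (nat_lit 20227) (.g (nat_lit 4351) (.e (nat_lit 1181) (nat_lit 87) (.e (nat_lit 57480) (nat_lit 28) (.e (nat_lit 557098) (nat_lit 13) (.e (nat_lit 172115) (nat_lit 10) (.e (nat_lit 434244) (nat_lit 28) (.e (nat_lit 573471) (nat_lit 11) (.e (nat_lit 16405) (nat_lit 1) (.e (nat_lit 164424) (nat_lit 272) .nil)))))))) (.g (nat_lit 6) .nil .nil))) 
(.lf (nat_lit 20259) (.g (nat_lit 3927) (.e (nat_lit 1181) (nat_lit 87) (.e (nat_lit 57480) (nat_lit 28) (.e (nat_lit 557107) (nat_lit 15) (.e (nat_lit 188447) (nat_lit 22) (.e (nat_lit 196666) (nat_lit 13) (.e (nat_lit 65565) (nat_lit 1) (.e (nat_lit 57870) (nat_lit 264) .nil))))))) (.g (nat_lit 5) .nil .nil)))) (.nd (nat_lit 5) 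
(.lf (nat_lit 20243) (.g (nat_lit 3869) (.e (nat_lit 1181) (nat_lit 87) (.e (nat_lit 57480) (nat_lit 28) (.e (nat_lit 557105) (nat_lit 14) (.e (nat_lit 180252) (nat_lit 10) (.e (nat_lit 573488) (nat_lit 14) (.e (nat_lit 73747) (nat_lit 3) (.e (nat_lit 516117) (nat_lit 1) (.e (nat_lit 164164) (nat_lit 152) .nil)))))))) (.g (nat_lit 5) .nil .nil))) 
(.lf (nat_lit 20275) (.g (nat_lit 2963) (.e (nat_lit 1181) (nat_lit 87) (.e (nat_lit 57480) (nat_lit 28) (.e (nat_lit 557107) (nat_lit 15) (.e (nat_lit 188450) (nat_lit 23) (.e (nat_lit 204850) (nat_lit 26) (.e (nat_lit 335997) (nat_lit 1) (.e (nat_lit 57871) (nat_lit 264) .nil))))))) (.g (nat_lit 4) .nil .nil))))) (.nd (nat_lit 4) (.nd (nat_lit 5) 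
(.lf (nat_lit 20235) (.g (nat_lit 2857) (.e (nat_lit 1181) (nat_lit 87) (.e (nat_lit 57480) (nat_lit 28) (.e (nat_lit 557105) (nat_lit 14) (.e (nat_lit 180252) (nat_lit 10) (.e (nat_lit 573481) (nat_lit 13) (.e (nat_lit 65569) (nat_lit 3) (.e (nat_lit 98334) (nat_lit 18) (.e (nat_lit 164164) (nat_lit 152) .nil)))))))) (.g (nat_lit 4) .nil .nil))) 
(.lf (nat_lit 20267) (.g (nat_lit 3702) (.e (nat_lit 1181) (nat_lit 87) (.e (nat_lit 57480) (nat_lit 28) (.e (nat_lit 557107) (nat_lit 15) (.e (nat_lit 188447) (nat_lit 22) (.e (nat_lit 196681) (nat_lit 17) (.e (nat_lit 131086) (nat_lit 1) (.e (nat_lit 57870) (nat_lit 264) .nil))))))) (.g (nat_lit 5) .nil .nil)))) (.nd (nat_lit 5) 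
(.lf (nat_lit 20251) (.g (nat_lit 3436) (.e (nat_lit 1181) (nat_lit 87) (.e (nat_lit 57480) (nat_lit 28) (.e (nat_lit 557105) (nat_lit 14) (.e (nat_lit 180252) (nat_lit 10) (.e (nat_lit 573488) (nat_lit 14) (.e (nat_lit 73747) (nat_lit 3) (.e (nat_lit 516120) (nat_lit 1) (.e (nat_lit 164167) (nat_lit 152) .nil)))))))) (.g (nat_lit 4) .nil .nil))) 
(.lf (nat_lit 20283) (.g (nat_lit 2750) (.e (nat_lit 1181) (nat_lit 87) (.e (nat_lit 57480) (nat_lit 28) (.e (nat_lit 557107) (nat_lit 15) (.e (nat_lit 188450) (nat_lit 23) (.e (nat_lit 204855) (nat_lit 26) (.e (nat_lit 335992) (nat_lit 1) (.e (nat_lit 57872) (nat_lit 264) .nil))))))) (.g (nat_lit 4) .nil .nil)))))) (.nd (nat_lit 3) (.nd (nat_lit 4) (.nd (nat_lit 5) 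
(.lf (nat_lit 20231) (.g (nat_lit 2996) (.e (nat_lit 1181) (nat_lit 87) (.e (nat_lit 57480) (nat_lit 28) (.e (nat_lit 557103) (nat_lit 14) (.e (nat_lit 180250) (nat_lit 10) (.e (nat_lit 573487) (nat_lit 14) (.e (nat_lit 73746) (nat_lit 3) (.e (nat_lit 516117) (nat_lit 1) (.e (nat_lit 164166) (nat_lit 152) .nil)))))))) (.g (nat_lit 4) .nil .nil))) 
(.lf (nat_lit 20263) (.g (nat_lit 3097) (.e (nat_lit 1181) (nat_lit 87) (.e (nat_lit 57480) (nat_lit 28) (.e (nat_lit 557107) (nat_lit 15) (.e (nat_lit 188447) (nat_lit 22) (.e (nat_lit 196668) (nat_lit 14) (.e (nat_lit 73733) (nat_lit 0) (.e (nat_lit 5905) (nat_lit 320) .nil))))))) (.g (nat_lit 4) .nil .nil)))) (.nd (nat_lit 5) 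
(.lf (nat_lit 20247) (.g (nat_lit 3635) (.e (nat_lit 1181) (nat_lit 87) (.e (nat_lit 57480) (nat_lit 28) (.e (nat_lit 557105) (nat_lit 14) (.e (nat_lit 180252) (nat_lit 10) (.e (nat_lit 573488) (nat_lit 14) (.e (nat_lit 73747) (nat_lit 3) (.e (nat_lit 516119) (nat_lit 1) (.e (nat_lit 164163) (nat_lit 152) .nil)))))))) (.g (nat_lit 5) .nil .nil))) 
(.lf (nat_lit 20279) (.g (nat_lit 3472) (.e (nat_lit 1181) (nat_lit 87) (.e (nat_lit 57480) (nat_lit 28) (.e (nat_lit 557107) (nat_lit 15) (.e (nat_lit 188450) (nat_lit 23) (.e (nat_lit 204855) (nat_lit 26) (.e (nat_lit 335985) (nat_lit 1) (.e (nat_lit 57870) (nat_lit 264) .nil))))))) (.g (nat_lit 5) .nil .nil))))) (.nd (nat_lit 4) (.nd (nat_lit 5) 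
(.lf (nat_lit 20239) (.g (nat_lit 3329) (.e (nat_lit 1181) (nat_lit 87) (.e (nat_lit 57480) (nat_lit 28) (.e (nat_lit 557105) (nat_lit 14) (.e (nat_lit 180252) (nat_lit 10) (.e (nat_lit 573488) (nat_lit 14) (.e (nat_lit 73747) (nat_lit 3) (.e (nat_lit 516115) (nat_lit 1) (.e (nat_lit 164164) (nat_lit 152) .nil)))))))) (.g (nat_lit 4) .nil .nil))) 
(.lf (nat_lit 20271) (.g (nat_lit 4006) (.e (nat_lit 1181) (nat_lit 87) (.e (nat_lit 57480) (nat_lit 28) (.e (nat_lit 557107) (nat_lit 15) (.e (nat_lit 188447) (nat_lit 22) (.e (nat_lit 196681) (nat_lit 17) (.e (nat_lit 131089) (nat_lit 1) (.e (nat_lit 57870) (nat_lit 264) .nil))))))) (.g (nat_lit 5) .nil .nil)))) (.nd (nat_lit 5) 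
(.lf (nat_lit 20255) (.g (nat_lit 3072) (.e (nat_lit 1181) (nat_lit 87) (.e (nat_lit 57480) (nat_lit 28) (.e (nat_lit 557107) (nat_lit 15) (.e (nat_lit 188447) (nat_lit 22) (.e (nat_lit 196666) (nat_lit 13) (.e (nat_lit 65553) (nat_lit 0) (.e (nat_lit 1023) (nat_lit 81) (.e (nat_lit 5906) (nat_lit 320) .nil)))))))) (.g (nat_lit 4) .nil .nil))) 
(.lf (nat_lit 20287) (.g (nat_lit 2768) (.e (nat_lit 1181) (nat_lit 87) (.e (nat_lit 57480) (nat_lit 28) (.e (nat_lit 557107) (nat_lit 15) (.e (nat_lit 188450) (nat_lit 23) (.e (nat_lit 204858) (nat_lit 26) (.e (nat_lit 335991) (nat_lit 1) (.e (nat_lit 57873) (nat_lit 264) .nil))))))) (.g (nat_lit 4) .nil .nil)))))))))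

noncomputable def tv282 : DT := (.nd (nat_lit 0) (.nd (nat_lit 1) (.nd (nat_lit 2) (.nd (nat_lit 3) (.nd (nat_lit 4) (.nd (nat_lit 5) 
(.lf (nat_lit 20288) (.g (nat_lit 3492) (.e (nat_lit 1181) (nat_lit 87) (.e (nat_lit 57480) (nat_lit 28) (.e (nat_lit 557107) (nat_lit 15) (.e (nat_lit 188450) (nat_lit 23) (.e (nat_lit 204860) (nat_lit 26) (.e (nat_lit 335995) (nat_lit 1) (.e (nat_lit 57872) (nat_lit 264) .nil))))))) (.g (nat_lit 5) .nil .nil))) 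
(.lf (nat_lit 20320) (.g (nat_lit 2715) (.e (nat_lit 1181) (nat_lit 87) (.e (nat_lit 57480) (nat_lit 28) (.e (nat_lit 557108) (nat_lit 15) (.e (nat_lit 188452) (nat_lit 23) (.e (nat_lit 204816) (nat_lit 17) (.e (nat_lit 6514) (nat_lit 346) (.e (nat_lit 57354) (nat_lit 0) (.e (nat_lit 5906) (nat_lit 320) .nil)))))))) (.g (nat_lit 4) .nil .nil)))) (.nd (nat_lit 5) 
(.lf (nat_lit 20304) (.g (nat_lit 2432) (.e (nat_lit 1181) (nat_lit 87) (.e (nat_lit 57480) (nat_lit 28) (.e (nat_lit 557107) (nat_lit 15) (.e (nat_lit 188450) (nat_lit 23) (.e (nat_lit 204863) (nat_lit 27) (.e (nat_lit 344101) (nat_lit 18) (.e (nat_lit 5902) (nat_lit 320) .nil))))))) (.g (nat_lit 4) .nil .nil))) 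
(.lf (nat_lit 20336) (.g (nat_lit 2890) (.e (nat_lit 1181) (nat_lit 87) (.e (nat_lit 57480) (nat_lit 28) (.e (nat_lit 557108) (nat_lit 15) (.e (nat_lit 188452) (nat_lit 23) (.e (nat_lit 204852) (nat_lit 26) .nil))))) .nil)))) (.nd (nat_lit 4) (.nd (nat_lit 5) 
(.lf (nat_lit 20296) (.g (nat_lit 3207) (.e (nat_lit 1181) (nat_lit 87) (.e (nat_lit 57480) (nat_lit 28) (.e (nat_lit 557107) (nat_lit 15) (.e (nat_lit 188450) (nat_lit 23) (.e (nat_lit 204862) (nat_lit 27) (.e (nat_lit 344097) (nat_lit 18) (.e (nat_lit 5905) (nat_lit 320) .nil))))))) (.g (nat_lit 5) .nil .nil))) 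
(.lf (nat_lit 20328) (.g (nat_lit 3483) (.e (nat_lit 1181) (nat_lit 87) (.e (nat_lit 57480) (nat_lit 28) (.e (nat_lit 557108) (nat_lit 15) (.e (nat_lit 188452) (nat_lit 23) (.e (nat_lit 204817) (nat_lit 17) .nil))))) .nil))) (.nd (nat_lit 5) 
(.lf (nat_lit 20312) (.g (nat_lit 1824) (.e (nat_lit 1181) (nat_lit 87) (.e (nat_lit 57480) (nat_lit 28) (.e (nat_lit 557107) (nat_lit 15) (.e (nat_lit 188452) (nat_lit 23) .nil)))) .nil)) 
(.lf (nat_lit 20344) (.g (nat_lit 4153) (.e (nat_lit 1181) (nat_lit 87) (.e (nat_lit 57480) (nat_lit 28) (.e (nat_lit 557108) (nat_lit 15) (.e (nat_lit 188452) (nat_lit 23) (.e (nat_lit 204854) (nat_lit 26) .nil))))) .nil))))) (.nd (nat_lit 3) (.nd (nat_lit 4) (.nd (nat_lit 5) 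
(.lf (nat_lit 20292) (.g (nat_lit 2495) (.e (nat_lit 1181) (nat_lit 87) (.e (nat_lit 57480) (nat_lit 28) (.e (nat_lit 557107) (nat_lit 15) (.e (nat_lit 188450) (nat_lit 23) (.e (nat_lit 204861) (nat_lit 26) (.e (nat_lit 335993) (nat_lit 1) (.e (nat_lit 57870) (nat_lit 264) .nil))))))) (.g (nat_lit 4) .nil .nil))) 
(.lf (nat_lit 20324) (.g (nat_lit 2813) (.e (nat_lit 1181) (nat_lit 87) (.e (nat_lit 57480) (nat_lit 28) (.e (nat_lit 557108) (nat_lit 15) (.e (nat_lit 188452) (nat_lit 23) (.e (nat_lit 204816) (nat_lit 17) (.e (nat_lit 6712) (nat_lit 360) (.e (nat_lit 163850) (nat_lit 0) (.e (nat_lit 4605) (nat_lit 269) .nil)))))))) (.g (nat_lit 4) .nil .nil)))) (.nd (nat_lit 5) 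
(.lf (nat_lit 20308) (.g (nat_lit 3864) (.e (nat_lit 1181) (nat_lit 87) (.e (nat_lit 57480) (nat_lit 28) (.e (nat_lit 557107) (nat_lit 15) (.e (nat_lit 188450) (nat_lit 23) (.e (nat_lit 204873) (nat_lit 30) (.e (nat_lit 368662) (nat_lit 18) (.e (nat_lit 5906) (nat_lit 320) .nil))))))) (.g (nat_lit 6) .nil .nil))) 
(.lf (nat_lit 20340) (.g (nat_lit 3278) (.e (nat_lit 1181) (nat_lit 87) (.e (nat_lit 57480) (nat_lit 28) (.e (nat_lit 557108) (nat_lit 15) (.e (nat_lit 188452) (nat_lit 23) (.e (nat_lit 204852) (nat_lit 26) (.e (nat_lit 336000) (nat_lit 1) (.e (nat_lit 57873) (nat_lit 264) .nil))))))) (.g (nat_lit 4) .nil .nil))))) (.nd (nat_lit 4) (.nd (nat_lit 5) 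
(.lf (nat_lit 20300) (.g (nat_lit 2632) (.e (nat_lit 1181) (nat_lit 87) (.e (nat_lit 57480) (nat_lit 28) (.e (nat_lit 557107) (nat_lit 15) (.e (nat_lit 188450) (nat_lit 23) (.e (nat_lit 204863) (nat_lit 27) (.e (nat_lit 344096) (nat_lit 18) (.e (nat_lit 5896) (nat_lit 320) .nil))))))) (.g (nat_lit 4) .nil .nil))) 
(.lf (nat_lit 20332) (.g (nat_lit 4169) (.e (nat_lit 1181) (nat_lit 87) (.e (nat_lit 57480) (nat_lit 28) (.e (nat_lit 557108) (nat_lit 15) (.e (nat_lit 188452) (nat_lit 23) (.e (nat_lit 204849) (nat_lit 25) (.e (nat_lit 327692) (nat_lit 1) (.e (nat_lit 8439) (nat_lit 138) .nil))))))) (.g (nat_lit 5) .nil .nil)))) (.nd (nat_lit 5) 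
(.lf (nat_lit 20316) (.g (nat_lit 3696) (.e (nat_lit 1181) (nat_lit 87) (.e (nat_lit 57480) (nat_lit 28) (.e (nat_lit 557108) (nat_lit 15) (.e (nat_lit 188452) (nat_lit 23) (.e (nat_lit 204816) (nat_lit 17) (.e (nat_lit 6436) (nat_lit 343) (.e (nat_lit 1183) (nat_lit 87) (.e (nat_lit 57872) (nat_lit 264) .nil)))))))) (.g (nat_lit 5) .nil .nil))) 
(.lf (nat_lit 20348) (.g (nat_lit 3603) (.e (nat_lit 1181) (nat_lit 87) (.e (nat_lit 57480) (nat_lit 28) (.e (nat_lit 557108) (nat_lit 15) (.e (nat_lit 188452) (nat_lit 23) (.e (nat_lit 212736) (nat_lit 26) .nil))))) .nil)))))) (.nd (nat_lit 2) (.nd (nat_lit 3) (.nd (nat_lit 4) (.nd (nat_lit 5) 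
(.lf (nat_lit 20290) (.g (nat_lit 3422) (.e (nat_lit 1181) (nat_lit 87) (.e (nat_lit 57480) (nat_lit 28) (.e (nat_lit 557107) (nat_lit 15) (.e (nat_lit 188450) (nat_lit 23) (.e (nat_lit 204861) (nat_lit 26) (.e (nat_lit 335986) (nat_lit 1) (.e (nat_lit 57873) (nat_lit 264) .nil))))))) (.g (nat_lit 5) .nil .nil))) 
(.lf (nat_lit 20322) (.g (nat_lit 3183) (.e (nat_lit 1181) (nat_lit 87) (.e (nat_lit 57480) (nat_lit 28) (.e (nat_lit 557108) (nat_lit 15) (.e (nat_lit 188452) (nat_lit 23) (.e (nat_lit 204816) (nat_lit 17) (.e (nat_lit 6712) (nat_lit 360) (.e (nat_lit 163843) (nat_lit 0) (.e (nat_lit 4598) (nat_lit 269) .nil)))))))) (.g (nat_lit 4) .nil .nil)))) (.nd (nat_lit 5) 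
(.lf (nat_lit 20306) (.g (nat_lit 2931) (.e (nat_lit 1181) (nat_lit 87) (.e (nat_lit 57480) (nat_lit 28) (.e (nat_lit 557107) (nat_lit 15) (.e (nat_lit 188450) (nat_lit 23) (.e (nat_lit 204864) (nat_lit 27) (.e (nat_lit 344097) (nat_lit 18) (.e (nat_lit 5907) (nat_lit 320) .nil))))))) (.g (nat_lit 4) .nil .nil))) 
(.lf (nat_lit 20338) (.g (nat_lit 3428) (.e (nat_lit 1181) (nat_lit 87) (.e (nat_lit 57480) (nat_lit 28) (.e (nat_lit 557108) (nat_lit 15) (.e (nat_lit 188452) (nat_lit 23) (.e (nat_lit 204852) (nat_lit 26) (.e (nat_lit 335883) (nat_lit 0) (.e (nat_lit 1037) (nat_lit 81) (.e (nat_lit 5906) (nat_lit 320) .nil)))))))) (.g (nat_lit 4) .nil .nil))))) (.nd (nat_lit 4) (.nd (nat_lit 5) 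
(.lf (nat_lit 20298) (.g (nat_lit 4459) (.e (nat_lit 1181) (nat_lit 87) (.e (nat_lit 57480) (nat_lit 28) (.e (nat_lit 557107) (nat_lit 15) (.e (nat_lit 188450) (nat_lit 23) (.e (nat_lit 204862) (nat_lit 27) (.e (nat_lit 344097) (nat_lit 18) (.e (nat_lit 5907) (nat_lit 320) .nil))))))) (.g (nat_lit 7) .nil .nil))) 
(.lf (nat_lit 20330) (.g (nat_lit 2495) (.e (nat_lit 1181) (nat_lit 87) (.e (nat_lit 57480) (nat_lit 28) (.e (nat_lit 557108) (nat_lit 15) (.e (nat_lit 188452) (nat_lit 23) (.e (nat_lit 204830) (nat_lit 18) .nil))))) .nil))) (.nd (nat_lit 5) 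
(.lf (nat_lit 20314) (.g (nat_lit 2127) (.e (nat_lit 1181) (nat_lit 87) (.e (nat_lit 57480) (nat_lit 28) (.e (nat_lit 557108) (nat_lit 15) (.e (nat_lit 188452) (nat_lit 23) (.e (nat_lit 204816) (nat_lit 17) .nil))))) .nil)) 
(.lf (nat_lit 20346) (.g (nat_lit 5383) (.e (nat_lit 1181) (nat_lit 87) (.e (nat_lit 57480) (nat_lit 28) (.e (nat_lit 557108) (nat_lit 15) (.e (nat_lit 188452) (nat_lit 23) (.e (nat_lit 204860) (nat_lit 26) .nil))))) .nil))))) (.nd (nat_lit 3) (.nd (nat_lit 4) (.nd (nat_lit 5) 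
(.lf (nat_lit 20294) (.g (nat_lit 4536) (.e (nat_lit 1181) (nat_lit 87) (.e (nat_lit 57480) (nat_lit 28) (.e (nat_lit 557107) (nat_lit 15) (.e (nat_lit 188450) (nat_lit 23) (.e (nat_lit 204861) (nat_lit 26) (.e (nat_lit 335995) (nat_lit 1) (.e (nat_lit 57872) (nat_lit 264) .nil))))))) (.g (nat_lit 6) .nil .nil))) 
(.lf (nat_lit 20326) (.g (nat_lit 2916) (.e (nat_lit 1181) (nat_lit 87) (.e (nat_lit 57480) (nat_lit 28) (.e (nat_lit 557108) (nat_lit 15) (.e (nat_lit 188452) (nat_lit 23) (.e (nat_lit 204816) (nat_lit 17) (.e (nat_lit 6714) (nat_lit 360) (.e (nat_lit 163850) (nat_lit 0) (.e (nat_lit 4605) (nat_lit 269) .nil)))))))) (.g (nat_lit 4) .nil .nil)))) (.nd (nat_lit 5) 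
(.lf (nat_lit 20310) (.g (nat_lit 1859) (.e (nat_lit 1181) (nat_lit 87) (.e (nat_lit 57480) (nat_lit 28) (.e (nat_lit 557107) (nat_lit 15) (.e (nat_lit 188451) (nat_lit 23) .nil)))) .nil)) 
(.lf (nat_lit 20342) (.g (nat_lit 3393) (.e (nat_lit 1181) (nat_lit 87) (.e (nat_lit 57480) (nat_lit 28) (.e (nat_lit 557108) (nat_lit 15) (.e (nat_lit 188452) (nat_lit 23) (.e (nat_lit 204852) (nat_lit 26) (.e (nat_lit 343808) (nat_lit 1) (.e (nat_lit 57871) (nat_lit 264) .nil))))))) (.g (nat_lit 4) .nil .nil))))) (.nd (nat_lit 4) (.nd (nat_lit 5) 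
(.lf (nat_lit 20302) (.g (nat_lit 4495) (.e (nat_lit 1181) (nat_lit 87) (.e (nat_lit 57480) (nat_lit 28) (.e (nat_lit 557107) (nat_lit 15) (.e (nat_lit 188450) (nat_lit 23) (.e (nat_lit 204863) (nat_lit 27) (.e (nat_lit 344097) (nat_lit 18) (.e (nat_lit 5906) (nat_lit 320) .nil))))))) (.g (nat_lit 6) .nil .nil))) 
(.lf (nat_lit 20334) (.g (nat_lit 3126) (.e (nat_lit 1181) (nat_lit 87) (.e (nat_lit 57480) (nat_lit 28) (.e (nat_lit 557108) (nat_lit 15) (.e (nat_lit 188452) (nat_lit 23) (.e (nat_lit 204850) (nat_lit 26) (.e (nat_lit 335997) (nat_lit 1) (.e (nat_lit 57870) (nat_lit 264) .nil))))))) (.g (nat_lit 4) .nil .nil)))) (.nd (nat_lit 5) 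
(.lf (nat_lit 20318) (.g (nat_lit 3920) (.e (nat_lit 1181) (nat_lit 87) (.e (nat_lit 57480) (nat_lit 28) (.e (nat_lit 557108) (nat_lit 15) (.e (nat_lit 188452) (nat_lit 23) (.e (nat_lit 204816) (nat_lit 17) (.e (nat_lit 6486) (nat_lit 343) (.e (nat_lit 1181) (nat_lit 87) (.e (nat_lit 57872) (nat_lit 264) .nil)))))))) (.g (nat_lit 6) .nil .nil))) 
(.lf (nat_lit 20350) (.g (nat_lit 2852) (.e (nat_lit 1181) (nat_lit 87) (.e (nat_lit 57480) (nat_lit 28) (.e (nat_lit 557108) (nat_lit 15) (.e (nat_lit 188452) (nat_lit 23) (.e (nat_lit 204872) (nat_lit 30) (.e (nat_lit 368662) (nat_lit 18) (.e (nat_lit 5902) (nat_lit 320) .nil))))))) (.g (nat_lit 4) .nil .nil)))))))) 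
(.nd (nat_lit 1) (.nd (nat_lit 2) (.nd (nat_lit 3) (.nd (nat_lit 4) (.nd (nat_lit 5) 
(.lf (nat_lit 20289) (.g (nat_lit 2127) (.e (nat_lit 1181) (nat_lit 87) (.e (nat_lit 57480) (nat_lit 28) (.e (nat_lit 557107) (nat_lit 15) (.e (nat_lit 188450) (nat_lit 23) (.e (nat_lit 204861) (nat_lit 26) .nil))))) .nil)) 
(.lf (nat_lit 20321) (.g (nat_lit 2950) (.e (nat_lit 1181) (nat_lit 87) (.e (nat_lit 57480) (nat_lit 28) (.e (nat_lit 557108) (nat_lit 15) (.e (nat_lit 188452) (nat_lit 23) (.e (nat_lit 204816) (nat_lit 17) (.e (nat_lit 6514) (nat_lit 346) (.e (nat_lit 57354) (nat_lit 0) (.e (nat_lit 5907) (nat_lit 320) .nil)))))))) (.g (nat_lit 4) .nil .nil)))) (.nd (nat_lit 5) 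
(.lf (nat_lit 20305) (.g (nat_lit 2460) (.e (nat_lit 1181) (nat_lit 87) (.e (nat_lit 57480) (nat_lit 28) (.e (nat_lit 557107) (nat_lit 15) (.e (nat_lit 188450) (nat_lit 23) (.e (nat_lit 204863) (nat_lit 27) (.e (nat_lit 344101) (nat_lit 18) (.e (nat_lit 5906) (nat_lit 320) .nil))))))) (.g (nat_lit 4) .nil .nil))) 
(.lf (nat_lit 20337) (.g (nat_lit 3597) (.e (nat_lit 1181) (nat_lit 87) (.e (nat_lit 57480) (nat_lit 28) (.e (nat_lit 557108) (nat_lit 15) (.e (nat_lit 188452) (nat_lit 23) (.e (nat_lit 204852) (nat_lit 26) (.e (nat_lit 335880) (nat_lit 0) (.e (nat_lit 1037) (nat_lit 81) (.e (nat_lit 5906) (nat_lit 320) .nil)))))))) (.g (nat_lit 4) .nil .nil))))) (.nd (nat_lit 4) (.nd (nat_lit 5) 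
(.lf (nat_lit 20297) (.g (nat_lit 3941) (.e (nat_lit 1181) (nat_lit 87) (.e (nat_lit 57480) (nat_lit 28) (.e (nat_lit 557107) (nat_lit 15) (.e (nat_lit 188450) (nat_lit 23) (.e (nat_lit 204862) (nat_lit 27) (.e (nat_lit 344097) (nat_lit 18) (.e (nat_lit 5906) (nat_lit 320) .nil))))))) (.g (nat_lit 6) .nil .nil))) 
(.lf (nat_lit 20329) (.g (nat_lit 4140) (.e (nat_lit 1181) (nat_lit 87) (.e (nat_lit 57480) (nat_lit 28) (.e (nat_lit 557108) (nat_lit 15) (.e (nat_lit 188452) (nat_lit 23) (.e (nat_lit 204817) (nat_lit 17) (.e (nat_lit 7936) (nat_lit 343) (.e (nat_lit 1183) (nat_lit 87) (.e (nat_lit 57872) (nat_lit 264) .nil)))))))) (.g (nat_lit 4) .nil .nil)))) (.nd (nat_lit 5) 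
(.lf (nat_lit 20313) (.g (nat_lit 1410) (.e (nat_lit 1181) (nat_lit 87) (.e (nat_lit 57480) (nat_lit 28) (.e (nat_lit 557108) (nat_lit 15) (.e (nat_lit 188452) (nat_lit 23) .nil)))) .nil)) 
(.lf (nat_lit 20345) (.g (nat_lit 5878) (.e (nat_lit 1181) (nat_lit 87) (.e (nat_lit 57480) (nat_lit 28) (.e (nat_lit 557108) (nat_lit 15) (.e (nat_lit 188452) (nat_lit 23) (.e (nat_lit 204859) (nat_lit 26) (.e (nat_lit 335998) (nat_lit 1) (.e (nat_lit 57873) (nat_lit 264) .nil))))))) (.g (nat_lit 5) .nil .nil)))))) (.nd (nat_lit 3) (.nd (nat_lit 4) (.nd (nat_lit 5) 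
(.lf (nat_lit 20293) (.g (nat_lit 3050) (.e (nat_lit 1181) (nat_lit 87) (.e (nat_lit 57480) (nat_lit 28) (.e (nat_lit 557107) (nat_lit 15) (.e (nat_lit 188450) (nat_lit 23) (.e (nat_lit 204861) (nat_lit 26) (.e (nat_lit 335995) (nat_lit 1) (.e (nat_lit 57870) (nat_lit 264) .nil))))))) (.g (nat_lit 4) .nil .nil))) 
(.lf (nat_lit 20325) (.g (nat_lit 3149) (.e (nat_lit 1181) (nat_lit 87) (.e (nat_lit 57480) (nat_lit 28) (.e (nat_lit 557108) (nat_lit 15) (.e (nat_lit 188452) (nat_lit 23) (.e (nat_lit 204816) (nat_lit 17) (.e (nat_lit 6714) (nat_lit 360) (.e (nat_lit 163843) (nat_lit 0) (.e (nat_lit 4598) (nat_lit 269) .nil)))))))) (.g (nat_lit 4) .nil .nil)))) (.nd (nat_lit 5) 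
(.lf (nat_lit 20309) (.g (nat_lit 3156) (.e (nat_lit 1181) (nat_lit 87) (.e (nat_lit 57480) (nat_lit 28) (.e (nat_lit 557107) (nat_lit 15) (.e (nat_lit 188450) (nat_lit 23) (.e (nat_lit 204874) (nat_lit 30) (.e (nat_lit 368662) (nat_lit 18) (.e (nat_lit 5906) (nat_lit 320) .nil))))))) (.g (nat_lit 4) .nil .nil))) 
(.lf (nat_lit 20341) (.g (nat_lit 3309) (.e (nat_lit 1181) (nat_lit 87) (.e (nat_lit 57480) (nat_lit 28) (.e (nat_lit 557108) (nat_lit 15) (.e (nat_lit 188452) (nat_lit 23) (.e (nat_lit 204852) (nat_lit 26) (.e (nat_lit 343808) (nat_lit 1) (.e (nat_lit 57870) (nat_lit 264) .nil))))))) (.g (nat_lit 4) .nil .nil))))) (.nd (nat_lit 4) (.nd (nat_lit 5) 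
(.lf (nat_lit 20301) (.g (nat_lit 3710) (.e (nat_lit 1181) (nat_lit 87) (.e (nat_lit 57480) (nat_lit 28) (.e (nat_lit 557107) (nat_lit 15) (.e (nat_lit 188450) (nat_lit 23) (.e (nat_lit 204863) (nat_lit 27) (.e (nat_lit 344097) (nat_lit 18) (.e (nat_lit 5905) (nat_lit 320) .nil))))))) (.g (nat_lit 5) .nil .nil))) 
(.lf (nat_lit 20333) (.g (nat_lit 3064) (.e (nat_lit 1181) (nat_lit 87) (.e (nat_lit 57480) (nat_lit 28) (.e (nat_lit 557108) (nat_lit 15) (.e (nat_lit 188452) (nat_lit 23) (.e (nat_lit 204850) (nat_lit 26) .nil))))) .nil))) (.nd (nat_lit 5) 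
(.lf (nat_lit 20317) (.g (nat_lit 4028) (.e (nat_lit 1181) (nat_lit 87) (.e (nat_lit 57480) (nat_lit 28) (.e (nat_lit 557108) (nat_lit 15) (.e (nat_lit 188452) (nat_lit 23) (.e (nat_lit 204816) (nat_lit 17) (.e (nat_lit 6479) (nat_lit 343) (.e (nat_lit 1181) (nat_lit 87) (.e (nat_lit 57872) (nat_lit 264) .nil)))))))) (.g (nat_lit 6) .nil .nil))) 
(.lf (nat_lit 20349) (.g (nat_lit 3712) (.e (nat_lit 1181) (nat_lit 87) (.e (nat_lit 57480) (nat_lit 28) (.e (nat_lit 557108) (nat_lit 15) (.e (nat_lit 188452) (nat_lit 23) (.e (nat_lit 212736) (nat_lit 26) (.e (nat_lit 335995) (nat_lit 1) (.e (nat_lit 57872) (nat_lit 264) .nil))))))) (.g (nat_lit 4) .nil .nil))))))) (.nd (nat_lit 2) (.nd (nat_lit 3) (.nd (nat_lit 4) (.nd (nat_lit 5) 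
(.lf (nat_lit 20291) (.g (nat_lit 2886) (.e (nat_lit 1181) (nat_lit 87) (.e (nat_lit 57480) (nat_lit 28) (.e (nat_lit 557107) (nat_lit 15) (.e (nat_lit 188450) (nat_lit 23) (.e (nat_lit 204861) (nat_lit 26) (.e (nat_lit 335988) (nat_lit 1) (.e (nat_lit 57870) (nat_lit 264) .nil))))))) (.g (nat_lit 4) .nil .nil))) 
(.lf (nat_lit 20323) (.g (nat_lit 2675) (.e (nat_lit 1181) (nat_lit 87) (.e (nat_lit 57480) (nat_lit 28) (.e (nat_lit 557108) (nat_lit 15) (.e (nat_lit 188452) (nat_lit 23) (.e (nat_lit 204816) (nat_lit 17) (.e (nat_lit 6712) (nat_lit 360) (.e (nat_lit 163844) (nat_lit 0) (.e (nat_lit 4598) (nat_lit 269) .nil)))))))) (.g (nat_lit 4) .nil .nil)))) (.nd (nat_lit 5) 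
(.lf (nat_lit 20307) (.g (nat_lit 2494) (.e (nat_lit 1181) (nat_lit 87) (.e (nat_lit 57480) (nat_lit 28) (.e (nat_lit 557107) (nat_lit 15) (.e (nat_lit 188450) (nat_lit 23) (.e (nat_lit 204871) (nat_lit 30) .nil))))) .nil)) 
(.lf (nat_lit 20339) (.g (nat_lit 3694) (.e (nat_lit 1181) (nat_lit 87) (.e (nat_lit 57480) (nat_lit 28) (.e (nat_lit 557108) (nat_lit 15) (.e (nat_lit 188452) (nat_lit 23) (.e (nat_lit 204852) (nat_lit 26) (.e (nat_lit 335883) (nat_lit 0) (.e (nat_lit 1037) (nat_lit 81) (.e (nat_lit 5907) (nat_lit 320) .nil)))))))) (.g (nat_lit 4) .nil .nil))))) (.nd (nat_lit 4) (.nd (nat_lit 5) 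
(.lf (nat_lit 20299) (.g (nat_lit 3564) (.e (nat_lit 1181) (nat_lit 87) (.e (nat_lit 57480) (nat_lit 28) (.e (nat_lit 557107) (nat_lit 15) (.e (nat_lit 188450) (nat_lit 23) (.e (nat_lit 204863) (nat_lit 27) (.e (nat_lit 344090) (nat_lit 18) (.e (nat_lit 5896) (nat_lit 320) .nil))))))) (.g (nat_lit 5) .nil .nil))) 
(.lf (nat_lit 20331) (.g (nat_lit 3126) (.e (nat_lit 1181) (nat_lit 87) (.e (nat_lit 57480) (nat_lit 28) (.e (nat_lit 557108) (nat_lit 15) (.e (nat_lit 188452) (nat_lit 23) (.e (nat_lit 204848) (nat_lit 25) (.e (nat_lit 327692) (nat_lit 1) (.e (nat_lit 8439) (nat_lit 138) .nil))))))) (.g (nat_lit 4) .nil .nil)))) (.nd (nat_lit 5) 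
(.lf (nat_lit 20315) (.g (nat_lit 3164) (.e (nat_lit 1181) (nat_lit 87) (.e (nat_lit 57480) (nat_lit 28) (.e (nat_lit 557108) (nat_lit 15) (.e (nat_lit 188452) (nat_lit 23) (.e (nat_lit 204816) (nat_lit 17) (.e (nat_lit 6436) (nat_lit 343) (.e (nat_lit 1183) (nat_lit 87) (.e (nat_lit 57871) (nat_lit 264) .nil)))))))) (.g (nat_lit 4) .nil .nil))) 
(.lf (nat_lit 20347) (.g (nat_lit 5406) (.e (nat_lit 1181) (nat_lit 87) (.e (nat_lit 57480) (nat_lit 28) (.e (nat_lit 557108) (nat_lit 15) (.e (nat_lit 188452) (nat_lit 23) (.e (nat_lit 204861) (nat_lit 26) (.e (nat_lit 335995) (nat_lit 1) (.e (nat_lit 57872) (nat_lit 264) .nil))))))) (.g (nat_lit 4) .nil .nil)))))) (.nd (nat_lit 3) (.nd (nat_lit 4) (.nd (nat_lit 5) 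
(.lf (nat_lit 20295) (.g (nat_lit 3937) (.e (nat_lit 1181) (nat_lit 87) (.e (nat_lit 57480) (nat_lit 28) (.e (nat_lit 557107) (nat_lit 15) (.e (nat_lit 188450) (nat_lit 23) (.e (nat_lit 204861) (nat_lit 26) (.e (nat_lit 335996) (nat_lit 1) (.e (nat_lit 57870) (nat_lit 264) .nil))))))) (.g (nat_lit 5) .nil .nil))) 
(.lf (nat_lit 20327) (.g (nat_lit 2652) (.e (nat_lit 1181) (nat_lit 87) (.e (nat_lit 57480) (nat_lit 28) (.e (nat_lit 557108) (nat_lit 15) (.e (nat_lit 188452) (nat_lit 23) (.e (nat_lit 204816) (nat_lit 17) (.e (nat_lit 6714) (nat_lit 360) (.e (nat_lit 163850) (nat_lit 0) (.e (nat_lit 4607) (nat_lit 269) .nil)))))))) (.g (nat_lit 4) .nil .nil)))) (.nd (nat_lit 5) 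
(.lf (nat_lit 20311) (.g (nat_lit 2274) (.e (nat_lit 1181) (nat_lit 87) (.e (nat_lit 57480) (nat_lit 28) (.e (nat_lit 557107) (nat_lit 15) (.e (nat_lit 188451) (nat_lit 23) (.e (nat_lit 204861) (nat_lit 26) .nil))))) .nil)) 
(.lf (nat_lit 20343) (.g (nat_lit 4374) (.e (nat_lit 1181) (nat_lit 87) (.e (nat_lit 57480) (nat_lit 28) (.e (nat_lit 557108) (nat_lit 15) (.e (nat_lit 188452) (nat_lit 23) (.e (nat_lit 204852) (nat_lit 26) (.e (nat_lit 343808) (nat_lit 1) (.e (nat_lit 57872) (nat_lit 264) .nil))))))) (.g (nat_lit 5) .nil .nil))))) (.nd (nat_lit 4) (.nd (nat_lit 5) 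
(.lf (nat_lit 20303) (.g (nat_lit 4967) (.e (nat_lit 1181) (nat_lit 87) (.e (nat_lit 57480) (nat_lit 28) (.e (nat_lit 557107) (nat_lit 15) (.e (nat_lit 188450) (nat_lit 23) (.e (nat_lit 204863) (nat_lit 27) (.e (nat_lit 344097) (nat_lit 18) (.e (nat_lit 5907) (nat_lit 320) .nil))))))) (.g (nat_lit 7) .nil .nil))) 
(.lf (nat_lit 20335) (.g (nat_lit 3207) (.e (nat_lit 1181) (nat_lit 87) (.e (nat_lit 57480) (nat_lit 28) (.e (nat_lit 557108) (nat_lit 15) (.e (nat_lit 188452) (nat_lit 23) (.e (nat_lit 204850) (nat_lit 26) (.e (nat_lit 335997) (nat_lit 1) (.e (nat_lit 57872) (nat_lit 264) .nil))))))) (.g (nat_lit 4) .nil .nil)))) (.nd (nat_lit 5) 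
(.lf (nat_lit 20319) (.g (nat_lit 2368) (.e (nat_lit 1181) (nat_lit 87) (.e (nat_lit 57480) (nat_lit 28) (.e (nat_lit 557108) (nat_lit 15) (.e (nat_lit 188452) (nat_lit 23) (.e (nat_lit 204816) (nat_lit 17) (.e (nat_lit 6513) (nat_lit 346) (.e (nat_lit 57354) (nat_lit 0) (.e (nat_lit 5907) (nat_lit 320) .nil)))))))) (.g (nat_lit 4) .nil .nil))) 
(.lf (nat_lit 20351) (.g (nat_lit 2980) (.e (nat_lit 1181) (nat_lit 87) (.e (nat_lit 57480) (nat_lit 28) (.e (nat_lit 557108) (nat_lit 15) (.e (nat_lit 188452) (nat_lit 23) (.e (nat_lit 204872) (nat_lit 30) (.e (nat_lit 368662) (nat_lit 18) (.e (nat_lit 5905) (nat_lit 320) .nil))))))) (.g (nat_lit 4) .nil .nil)))))))))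

noncomputable def tv283 : DT := (.nd (nat_lit 0) (.nd (nat_lit 1) (.nd (nat_lit 2) (.nd (nat_lit 3) (.nd (nat_lit 4) (.nd (nat_lit 5) 
(.lf (nat_lit 20352) (.g (nat_lit 3187) (.e (nat_lit 1181) (nat_lit 87) (.e (nat_lit 57480) (nat_lit 28) (.e (nat_lit 557108) (nat_lit 15) (.e (nat_lit 188452) (nat_lit 23) (.e (nat_lit 204873) (nat_lit 30) (.e (nat_lit 368662) (nat_lit 18) (.e (nat_lit 5902) (nat_lit 320) .nil))))))) (.g (nat_lit 4) .nil .nil))) 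
(.lf (nat_lit 20384) (.g (nat_lit 3653) (.e (nat_lit 1181) (nat_lit 87) (.e (nat_lit 57480) (nat_lit 28) (.e (nat_lit 557109) (nat_lit 15) (.e (nat_lit 188447) (nat_lit 22) (.e (nat_lit 196668) (nat_lit 14) (.e (nat_lit 73733) (nat_lit 0) (.e (nat_lit 5902) (nat_lit 320) .nil))))))) (.g (nat_lit 4) .nil .nil)))) (.nd (nat_lit 5) 
(.lf (nat_lit 20368) (.g (nat_lit 4550) (.e (nat_lit 1181) (nat_lit 87) (.e (nat_lit 57480) (nat_lit 28) (.e (nat_lit 557109) (nat_lit 15) (.e (nat_lit 188434) (nat_lit 20) (.e (nat_lit 3272) (nat_lit 199) (.e (nat_lit 548913) (nat_lit 18) (.e (nat_lit 172061) (nat_lit 1) (.e (nat_lit 164423) (nat_lit 272) .nil)))))))) (.g (nat_lit 6) .nil .nil))) 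
(.lf (nat_lit 20400) (.g (nat_lit 2936) (.e (nat_lit 1181) (nat_lit 87) (.e (nat_lit 57480) (nat_lit 28) (.e (nat_lit 557109) (nat_lit 15) (.e (nat_lit 188449) (nat_lit 22) (.e (nat_lit 196628) (nat_lit 9) .nil))))) .nil)))) (.nd (nat_lit 4) (.nd (nat_lit 5) 
(.lf (nat_lit 20360) (.g (nat_lit 3675) (.e (nat_lit 1181) (nat_lit 87) (.e (nat_lit 57480) (nat_lit 28) (.e (nat_lit 557109) (nat_lit 15) (.e (nat_lit 188434) (nat_lit 20) (.e (nat_lit 3271) (nat_lit 199) (.e (nat_lit 548898) (nat_lit 14) (.e (nat_lit 2964) (nat_lit 185) (.e (nat_lit 434202) (nat_lit 18) (.e (nat_lit 4598) (nat_lit 269) .nil))))))))) (.g (nat_lit 4) .nil .nil))) 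
(.lf (nat_lit 20392) (.g (nat_lit 4522) (.e (nat_lit 1181) (nat_lit 87) (.e (nat_lit 57480) (nat_lit 28) (.e (nat_lit 557109) (nat_lit 15) (.e (nat_lit 188447) (nat_lit 22) (.e (nat_lit 196681) (nat_lit 17) (.e (nat_lit 131088) (nat_lit 1) (.e (nat_lit 57870) (nat_lit 264) .nil))))))) (.g (nat_lit 4) .nil .nil)))) (.nd (nat_lit 5) 
(.lf (nat_lit 20376) (.g (nat_lit 3688) (.e (nat_lit 1181) (nat_lit 87) (.e (nat_lit 57480) (nat_lit 28) (.e (nat_lit 557109) (nat_lit 15) (.e (nat_lit 188447) (nat_lit 22) (.e (nat_lit 196666) (nat_lit 13) (.e (nat_lit 65546) (nat_lit 0) (.e (nat_lit 1023) (nat_lit 81) (.e (nat_lit 5907) (nat_lit 320) .nil)))))))) (.g (nat_lit 4) .nil .nil))) 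
(.lf (nat_lit 20408) (.g (nat_lit 4148) (.e (nat_lit 1181) (nat_lit 87) (.e (nat_lit 57480) (nat_lit 28) (.e (nat_lit 557109) (nat_lit 15) (.e (nat_lit 188449) (nat_lit 22) (.e (nat_lit 196637) (nat_lit 9) .nil))))) .nil))))) (.nd (nat_lit 3) (.nd (nat_lit 4) (.nd (nat_lit 5) 
(.lf (nat_lit 20356) (.g (nat_lit 330) (.e (nat_lit 1181) (nat_lit 87) (.e (nat_lit 57480) (nat_lit 28) (.e (nat_lit 557109) (nat_lit 15) .nil))) .nil)) 
(.lf (nat_lit 20388) (.g (nat_lit 3774) (.e (nat_lit 1181) (nat_lit 87) (.e (nat_lit 57480) (nat_lit 28) (.e (nat_lit 557109) (nat_lit 15) (.e (nat_lit 188447) (nat_lit 22) (.e (nat_lit 196681) (nat_lit 17) .nil))))) .nil))) (.nd (nat_lit 5) 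
(.lf (nat_lit 20372) (.g (nat_lit 2998) (.e (nat_lit 1181) (nat_lit 87) (.e (nat_lit 57480) (nat_lit 28) (.e (nat_lit 557109) (nat_lit 15) (.e (nat_lit 188441) (nat_lit 20) (.e (nat_lit 3272) (nat_lit 199) .nil))))) .nil)) 
(.lf (nat_lit 20404) (.g (nat_lit 2392) (.e (nat_lit 1181) (nat_lit 87) (.e (nat_lit 57480) (nat_lit 28) (.e (nat_lit 557109) (nat_lit 15) (.e (nat_lit 188449) (nat_lit 22) (.e (nat_lit 196630) (nat_lit 9) (.e (nat_lit 1462) (nat_lit 108) (.e (nat_lit 335997) (nat_lit 1) (.e (nat_lit 57872) (nat_lit 264) .nil)))))))) (.g (nat_lit 4) .nil .nil))))) (.nd (nat_lit 4) (.nd (nat_lit 5) 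
(.lf (nat_lit 20364) (.g (nat_lit 3001) (.e (nat_lit 1181) (nat_lit 87) (.e (nat_lit 57480) (nat_lit 28) (.e (nat_lit 557109) (nat_lit 15) (.e (nat_lit 188434) (nat_lit 20) (.e (nat_lit 3272) (nat_lit 199) .nil))))) .nil)) 
(.lf (nat_lit 20396) (.g (nat_lit 5391) (.e (nat_lit 1181) (nat_lit 87) (.e (nat_lit 57480) (nat_lit 28) (.e (nat_lit 557109) (nat_lit 15) (.e (nat_lit 188449) (nat_lit 22) (.e (nat_lit 196618) (nat_lit 9) .nil))))) .nil))) (.nd (nat_lit 5) 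
(.lf (nat_lit 20380) (.g (nat_lit 3974) (.e (nat_lit 1181) (nat_lit 87) (.e (nat_lit 57480) (nat_lit 28) (.e (nat_lit 557109) (nat_lit 15) (.e (nat_lit 188447) (nat_lit 22) (.e (nat_lit 196666) (nat_lit 13) (.e (nat_lit 65563) (nat_lit 1) (.e (nat_lit 57871) (nat_lit 264) .nil))))))) (.g (nat_lit 4) .nil .nil))) 
(.lf (nat_lit 20412) (.g (nat_lit 2808) (.e (nat_lit 1181) (nat_lit 87) (.e (nat_lit 57480) (nat_lit 28) (.e (nat_lit 557109) (nat_lit 15) (.e (nat_lit 188449) (nat_lit 22) (.e (nat_lit 196666) (nat_lit 13) (.e (nat_lit 65550) (nat_lit 0) (.e (nat_lit 1040) (nat_lit 81) (.e (nat_lit 5906) (nat_lit 320) .nil)))))))) (.g (nat_lit 4) .nil .nil))))))) 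
(.nd (nat_lit 2) (.nd (nat_lit 3) (.nd (nat_lit 4) (.nd (nat_lit 5) 
(.lf (nat_lit 20354) (.g (nat_lit 3416) (.e (nat_lit 1181) (nat_lit 87) (.e (nat_lit 57480) (nat_lit 28) (.e (nat_lit 557108) (nat_lit 15) (.e (nat_lit 188452) (nat_lit 23) (.e (nat_lit 204874) (nat_lit 30) (.e (nat_lit 368662) (nat_lit 18) (.e (nat_lit 5902) (nat_lit 320) .nil))))))) (.g (nat_lit 4) .nil .nil))) 
(.lf (nat_lit 20386) (.g (nat_lit 4380) (.e (nat_lit 1181) (nat_lit 87) (.e (nat_lit 57480) (nat_lit 28) (.e (nat_lit 557109) (nat_lit 15) (.e (nat_lit 188447) (nat_lit 22) (.e (nat_lit 196668) (nat_lit 14) (.e (nat_lit 73733) (nat_lit 0) (.e (nat_lit 5906) (nat_lit 320) .nil))))))) (.g (nat_lit 5) .nil .nil)))) (.nd (nat_lit 5) 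
(.lf (nat_lit 20370) (.g (nat_lit 2403) (.e (nat_lit 1181) (nat_lit 87) (.e (nat_lit 57480) (nat_lit 28) (.e (nat_lit 557109) (nat_lit 15) (.e (nat_lit 188435) (nat_lit 20) .nil)))) .nil)) 
(.lf (nat_lit 20402) (.g (nat_lit 2062) (.e (nat_lit 1181) (nat_lit 87) (.e (nat_lit 57480) (nat_lit 28) (.e (nat_lit 557109) (nat_lit 15) (.e (nat_lit 188449) (nat_lit 22) (.e (nat_lit 196630) (nat_lit 9) .nil))))) .nil)))) (.nd (nat_lit 4) (.nd (nat_lit 5) 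
(.lf (nat_lit 20362) (.g (nat_lit 3779) (.e (nat_lit 1181) (nat_lit 87) (.e (nat_lit 57480) (nat_lit 28) (.e (nat_lit 557109) (nat_lit 15) (.e (nat_lit 188434) (nat_lit 20) (.e (nat_lit 3271) (nat_lit 199) (.e (nat_lit 548913) (nat_lit 18) (.e (nat_lit 172061) (nat_lit 1) (.e (nat_lit 164423) (nat_lit 272) .nil)))))))) (.g (nat_lit 4) .nil .nil))) 
(.lf (nat_lit 20394) (.g (nat_lit 4989) (.e (nat_lit 1181) (nat_lit 87) (.e (nat_lit 57480) (nat_lit 28) (.e (nat_lit 557109) (nat_lit 15) (.e (nat_lit 188447) (nat_lit 22) (.e (nat_lit 196681) (nat_lit 17) (.e (nat_lit 131088) (nat_lit 1) (.e (nat_lit 57873) (nat_lit 264) .nil))))))) (.g (nat_lit 5) .nil .nil)))) (.nd (nat_lit 5) 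
(.lf (nat_lit 20378) (.g (nat_lit 4177) (.e (nat_lit 1181) (nat_lit 87) (.e (nat_lit 57480) (nat_lit 28) (.e (nat_lit 557109) (nat_lit 15) (.e (nat_lit 188447) (nat_lit 22) (.e (nat_lit 196666) (nat_lit 13) (.e (nat_lit 65550) (nat_lit 0) (.e (nat_lit 1023) (nat_lit 81) (.e (nat_lit 5907) (nat_lit 320) .nil)))))))) (.g (nat_lit 4) .nil .nil))) 
(.lf (nat_lit 20410) (.g (nat_lit 3835) (.e (nat_lit 1181) (nat_lit 87) (.e (nat_lit 57480) (nat_lit 28) (.e (nat_lit 557109) (nat_lit 15) (.e (nat_lit 188449) (nat_lit 22) (.e (nat_lit 196661) (nat_lit 12) (.e (nat_lit 65280) (nat_lit 187) (.e (nat_lit 1183) (nat_lit 87) (.e (nat_lit 57872) (nat_lit 264) .nil)))))))) (.g (nat_lit 4) .nil .nil)))))) 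
(.nd (nat_lit 3) (.nd (nat_lit 4) (.nd (nat_lit 5) 
(.lf (nat_lit 20358) (.g (nat_lit 2098) (.e (nat_lit 1181) (nat_lit 87) (.e (nat_lit 57480) (nat_lit 28) (.e (nat_lit 557109) (nat_lit 15) (.e (nat_lit 188434) (nat_lit 20) .nil)))) .nil)) 
(.lf (nat_lit 20390) (.g (nat_lit 4524) (.e (nat_lit 1181) (nat_lit 87) (.e (nat_lit 57480) (nat_lit 28) (.e (nat_lit 557109) (nat_lit 15) (.e (nat_lit 188447) (nat_lit 22) (.e (nat_lit 196681) (nat_lit 17) (.e (nat_lit 131086) (nat_lit 1) (.e (nat_lit 57872) (nat_lit 264) .nil))))))) (.g (nat_lit 4) .nil .nil)))) (.nd (nat_lit 5) 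
(.lf (nat_lit 20374) (.g (nat_lit 3411) (.e (nat_lit 1181) (nat_lit 87) (.e (nat_lit 57480) (nat_lit 28) (.e (nat_lit 557109) (nat_lit 15) (.e (nat_lit 188447) (nat_lit 22) (.e (nat_lit 196666) (nat_lit 13) .nil))))) .nil)) 
(.lf (nat_lit 20406) (.g (nat_lit 3765) (.e (nat_lit 1181) (nat_lit 87) (.e (nat_lit 57480) (nat_lit 28) (.e (nat_lit 557109) (nat_lit 15) (.e (nat_lit 188449) (nat_lit 22) (.e (nat_lit 196630) (nat_lit 9) (.e (nat_lit 1499) (nat_lit 108) (.e (nat_lit 335995) (nat_lit 1) (.e (nat_lit 57872) (nat_lit 264) .nil)))))))) (.g (nat_lit 5) .nil .nil))))) (.nd (nat_lit 4) (.nd (nat_lit 5) 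
(.lf (nat_lit 20366) (.g (nat_lit 3479) (.e (nat_lit 1181) (nat_lit 87) (.e (nat_lit 57480) (nat_lit 28) (.e (nat_lit 557109) (nat_lit 15) (.e (nat_lit 188434) (nat_lit 20) (.e (nat_lit 3272) (nat_lit 199) (.e (nat_lit 548898) (nat_lit 14) (.e (nat_lit 2964) (nat_lit 185) (.e (nat_lit 434209) (nat_lit 18) (.e (nat_lit 4605) (nat_lit 269) .nil))))))))) (.g (nat_lit 4) .nil .nil))) 
(.lf (nat_lit 20398) (.g (nat_lit 4436) (.e (nat_lit 1181) (nat_lit 87) (.e (nat_lit 57480) (nat_lit 28) (.e (nat_lit 557109) (nat_lit 15) (.e (nat_lit 188449) (nat_lit 22) (.e (nat_lit 196622) (nat_lit 9) .nil))))) .nil))) (.nd (nat_lit 5) 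
(.lf (nat_lit 20382) (.g (nat_lit 4134) (.e (nat_lit 1181) (nat_lit 87) (.e (nat_lit 57480) (nat_lit 28) (.e (nat_lit 557109) (nat_lit 15) (.e (nat_lit 188447) (nat_lit 22) (.e (nat_lit 196666) (nat_lit 13) (.e (nat_lit 65565) (nat_lit 1) (.e (nat_lit 57871) (nat_lit 264) .nil))))))) (.g (nat_lit 4) .nil .nil))) 
(.lf (nat_lit 20414) (.g (nat_lit 3717) (.e (nat_lit 1181) (nat_lit 87) (.e (nat_lit 57480) (nat_lit 28) (.e (nat_lit 557109) (nat_lit 15) (.e (nat_lit 188449) (nat_lit 22) (.e (nat_lit 196666) (nat_lit 13) (.e (nat_lit 65553) (nat_lit 0) (.e (nat_lit 1023) (nat_lit 81) (.e (nat_lit 5906) (nat_lit 320) .nil)))))))) (.g (nat_lit 5) .nil .nil)))))))) 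
(.nd (nat_lit 1) (.nd (nat_lit 2) (.nd (nat_lit 3) (.nd (nat_lit 4) (.nd (nat_lit 5) 
(.lf (nat_lit 20353) (.g (nat_lit 3316) (.e (nat_lit 1181) (nat_lit 87) (.e (nat_lit 57480) (nat_lit 28) (.e (nat_lit 557108) (nat_lit 15) (.e (nat_lit 188452) (nat_lit 23) (.e (nat_lit 204873) (nat_lit 30) (.e (nat_lit 368662) (nat_lit 18) (.e (nat_lit 5905) (nat_lit 320) .nil))))))) (.g (nat_lit 4) .nil .nil))) 
(.lf (nat_lit 20385) (.g (nat_lit 4015) (.e (nat_lit 1181) (nat_lit 87) (.e (nat_lit 57480) (nat_lit 28) (.e (nat_lit 557109) (nat_lit 15) (.e (nat_lit 188447) (nat_lit 22) (.e (nat_lit 196668) (nat_lit 14) (.e (nat_lit 73733) (nat_lit 0) (.e (nat_lit 5905) (nat_lit 320) .nil))))))) (.g (nat_lit 4) .nil .nil)))) (.nd (nat_lit 5) 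
(.lf (nat_lit 20369) (.g (nat_lit 4738) (.e (nat_lit 1181) (nat_lit 87) (.e (nat_lit 57480) (nat_lit 28) (.e (nat_lit 557109) (nat_lit 15) (.e (nat_lit 188434) (nat_lit 20) (.e (nat_lit 3272) (nat_lit 199) (.e (nat_lit 548913) (nat_lit 18) (.e (nat_lit 172061) (nat_lit 1) (.e (nat_lit 164424) (nat_lit 272) .nil)))))))) (.g (nat_lit 6) .nil .nil))) 
(.lf (nat_lit 20401) (.g (nat_lit 3202) (.e (nat_lit 1181) (nat_lit 87) (.e (nat_lit 57480) (nat_lit 28) (.e (nat_lit 557109) (nat_lit 15) (.e (nat_lit 188449) (nat_lit 22) (.e (nat_lit 196628) (nat_lit 9) (.e (nat_lit 1521) (nat_lit 108) (.e (nat_lit 335995) (nat_lit 1) (.e (nat_lit 57872) (nat_lit 264) .nil)))))))) (.g (nat_lit 4) .nil .nil))))) (.nd (nat_lit 4) (.nd (nat_lit 5) 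
(.lf (nat_lit 20361) (.g (nat_lit 3375) (.e (nat_lit 1181) (nat_lit 87) (.e (nat_lit 57480) (nat_lit 28) (.e (nat_lit 557109) (nat_lit 15) (.e (nat_lit 188434) (nat_lit 20) (.e (nat_lit 3271) (nat_lit 199) (.e (nat_lit 548913) (nat_lit 18) (.e (nat_lit 172061) (nat_lit 1) (.e (nat_lit 164422) (nat_lit 272) .nil)))))))) (.g (nat_lit 4) .nil .nil))) 
(.lf (nat_lit 20393) (.g (nat_lit 4821) (.e (nat_lit 1181) (nat_lit 87) (.e (nat_lit 57480) (nat_lit 28) (.e (nat_lit 557109) (nat_lit 15) (.e (nat_lit 188447) (nat_lit 22) (.e (nat_lit 196681) (nat_lit 17) (.e (nat_lit 131088) (nat_lit 1) (.e (nat_lit 57872) (nat_lit 264) .nil))))))) (.g (nat_lit 5) .nil .nil)))) (.nd (nat_lit 5) 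
(.lf (nat_lit 20377) (.g (nat_lit 3817) (.e (nat_lit 1181) (nat_lit 87) (.e (nat_lit 57480) (nat_lit 28) (.e (nat_lit 557109) (nat_lit 15) (.e (nat_lit 188447) (nat_lit 22) (.e (nat_lit 196666) (nat_lit 13) (.e (nat_lit 65550) (nat_lit 0) (.e (nat_lit 1023) (nat_lit 81) (.e (nat_lit 5905) (nat_lit 320) .nil)))))))) (.g (nat_lit 4) .nil .nil))) 
(.lf (nat_lit 20409) (.g (nat_lit 3611) (.e (nat_lit 1181) (nat_lit 87) (.e (nat_lit 57480) (nat_lit 28) (.e (nat_lit 557109) (nat_lit 15) (.e (nat_lit 188449) (nat_lit 22) (.e (nat_lit 196661) (nat_lit 12) .nil))))) .nil))))) (.nd (nat_lit 3) (.nd (nat_lit 4) (.nd (nat_lit 5) 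
(.lf (nat_lit 20357) (.g (nat_lit 2369) (.e (nat_lit 1181) (nat_lit 87) (.e (nat_lit 57480) (nat_lit 28) (.e (nat_lit 557109) (nat_lit 15) (.e (nat_lit 188419) (nat_lit 0) .nil)))) .nil)) 
(.lf (nat_lit 20389) (.g (nat_lit 4279) (.e (nat_lit 1181) (nat_lit 87) (.e (nat_lit 57480) (nat_lit 28) (.e (nat_lit 557109) (nat_lit 15) (.e (nat_lit 188447) (nat_lit 22) (.e (nat_lit 196681) (nat_lit 17) (.e (nat_lit 131086) (nat_lit 1) (.e (nat_lit 57870) (nat_lit 264) .nil))))))) (.g (nat_lit 4) .nil .nil)))) (.nd (nat_lit 5) 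
(.lf (nat_lit 20373) (.g (nat_lit 2024) (.e (nat_lit 1181) (nat_lit 87) (.e (nat_lit 57480) (nat_lit 28) (.e (nat_lit 557109) (nat_lit 15) (.e (nat_lit 188447) (nat_lit 22) .nil)))) .nil)) 
(.lf (nat_lit 20405) (.g (nat_lit 3130) (.e (nat_lit 1181) (nat_lit 87) (.e (nat_lit 57480) (nat_lit 28) (.e (nat_lit 557109) (nat_lit 15) (.e (nat_lit 188449) (nat_lit 22) (.e (nat_lit 196630) (nat_lit 9) (.e (nat_lit 1485) (nat_lit 108) (.e (nat_lit 335995) (nat_lit 1) (.e (nat_lit 57872) (nat_lit 264) .nil)))))))) (.g (nat_lit 5) .nil .nil))))) (.nd (nat_lit 4) (.nd (nat_lit 5) 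
(.lf (nat_lit 20365) (.g (nat_lit 4221) (.e (nat_lit 1181) (nat_lit 87) (.e (nat_lit 57480) (nat_lit 28) (.e (nat_lit 557109) (nat_lit 15) (.e (nat_lit 188434) (nat_lit 20) (.e (nat_lit 3272) (nat_lit 199) (.e (nat_lit 548898) (nat_lit 14) (.e (nat_lit 2964) (nat_lit 185) (.e (nat_lit 434202) (nat_lit 18) (.e (nat_lit 4598) (nat_lit 269) .nil))))))))) (.g (nat_lit 5) .nil .nil))) 
(.lf (nat_lit 20397) (.g (nat_lit 5691) (.e (nat_lit 1181) (nat_lit 87) (.e (nat_lit 57480) (nat_lit 28) (.e (nat_lit 557109) (nat_lit 15) (.e (nat_lit 188449) (nat_lit 22) (.e (nat_lit 196621) (nat_lit 9) (.e (nat_lit 1525) (nat_lit 108) (.e (nat_lit 335995) (nat_lit 1) (.e (nat_lit 57872) (nat_lit 264) .nil)))))))) (.g (nat_lit 4) .nil .nil)))) (.nd (nat_lit 5) 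
(.lf (nat_lit 20381) (.g (nat_lit 4776) (.e (nat_lit 1181) (nat_lit 87) (.e (nat_lit 57480) (nat_lit 28) (.e (nat_lit 557109) (nat_lit 15) (.e (nat_lit 188447) (nat_lit 22) (.e (nat_lit 196666) (nat_lit 13) (.e (nat_lit 65563) (nat_lit 1) (.e (nat_lit 57873) (nat_lit 264) .nil))))))) (.g (nat_lit 5) .nil .nil))) 
(.lf (nat_lit 20413) (.g (nat_lit 3079) (.e (nat_lit 1181) (nat_lit 87) (.e (nat_lit 57480) (nat_lit 28) (.e (nat_lit 557109) (nat_lit 15) (.e (nat_lit 188449) (nat_lit 22) (.e (nat_lit 196666) (nat_lit 13) (.e (nat_lit 65553) (nat_lit 0) (.e (nat_lit 1023) (nat_lit 81) (.e (nat_lit 5905) (nat_lit 320) .nil)))))))) (.g (nat_lit 4) .nil .nil))))))) 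
(.nd (nat_lit 2) (.nd (nat_lit 3) (.nd (nat_lit 4) (.nd (nat_lit 5) 
(.lf (nat_lit 20355) (.g (nat_lit 3597) (.e (nat_lit 1181) (nat_lit 87) (.e (nat_lit 57480) (nat_lit 28) (.e (nat_lit 557108) (nat_lit 15) (.e (nat_lit 188452) (nat_lit 23) (.e (nat_lit 204874) (nat_lit 30) (.e (nat_lit 368662) (nat_lit 18) (.e (nat_lit 5905) (nat_lit 320) .nil))))))) (.g (nat_lit 4) .nil .nil))) 
(.lf (nat_lit 20387) (.g (nat_lit 4136) (.e (nat_lit 1181) (nat_lit 87) (.e (nat_lit 57480) (nat_lit 28) (.e (nat_lit 557109) (nat_lit 15) (.e (nat_lit 188447) (nat_lit 22) (.e (nat_lit 196670) (nat_lit 14) (.e (nat_lit 73732) (nat_lit 0) (.e (nat_lit 5907) (nat_lit 320) .nil))))))) (.g (nat_lit 4) .nil .nil)))) (.nd (nat_lit 5) 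
(.lf (nat_lit 20371) (.g (nat_lit 2269) (.e (nat_lit 1181) (nat_lit 87) (.e (nat_lit 57480) (nat_lit 28) (.e (nat_lit 557109) (nat_lit 15) (.e (nat_lit 188441) (nat_lit 20) .nil)))) .nil)) 
(.lf (nat_lit 20403) (.g (nat_lit 2522) (.e (nat_lit 1181) (nat_lit 87) (.e (nat_lit 57480) (nat_lit 28) (.e (nat_lit 557109) (nat_lit 15) (.e (nat_lit 188449) (nat_lit 22) (.e (nat_lit 196630) (nat_lit 9) (.e (nat_lit 1462) (nat_lit 108) (.e (nat_lit 335997) (nat_lit 1) (.e (nat_lit 57870) (nat_lit 264) .nil)))))))) (.g (nat_lit 4) .nil .nil))))) (.nd (nat_lit 4) (.nd (nat_lit 5) 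
(.lf (nat_lit 20363) (.g (nat_lit 3967) (.e (nat_lit 1181) (nat_lit 87) (.e (nat_lit 57480) (nat_lit 28) (.e (nat_lit 557109) (nat_lit 15) (.e (nat_lit 188434) (nat_lit 20) (.e (nat_lit 3271) (nat_lit 199) (.e (nat_lit 548913) (nat_lit 18) (.e (nat_lit 172061) (nat_lit 1) (.e (nat_lit 164424) (nat_lit 272) .nil)))))))) (.g (nat_lit 4) .nil .nil))) 
(.lf (nat_lit 20395) (.g (nat_lit 4581) (.e (nat_lit 1181) (nat_lit 87) (.e (nat_lit 57480) (nat_lit 28) (.e (nat_lit 557109) (nat_lit 15) (.e (nat_lit 188447) (nat_lit 22) (.e (nat_lit 196681) (nat_lit 17) (.e (nat_lit 131089) (nat_lit 1) (.e (nat_lit 57870) (nat_lit 264) .nil))))))) (.g (nat_lit 4) .nil .nil)))) (.nd (nat_lit 5) 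
(.lf (nat_lit 20379) (.g (nat_lit 4063) (.e (nat_lit 1181) (nat_lit 87) (.e (nat_lit 57480) (nat_lit 28) (.e (nat_lit 557109) (nat_lit 15) (.e (nat_lit 188447) (nat_lit 22) (.e (nat_lit 196666) (nat_lit 13) (.e (nat_lit 65550) (nat_lit 0) (.e (nat_lit 1040) (nat_lit 81) (.e (nat_lit 5907) (nat_lit 320) .nil)))))))) (.g (nat_lit 4) .nil .nil))) 
(.lf (nat_lit 20411) (.g (nat_lit 4466) (.e (nat_lit 1181) (nat_lit 87) (.e (nat_lit 57480) (nat_lit 28) (.e (nat_lit 557109) (nat_lit 15) (.e (nat_lit 188449) (nat_lit 22) (.e (nat_lit 196666) (nat_lit 13) (.e (nat_lit 65550) (nat_lit 0) (.e (nat_lit 1023) (nat_lit 81) (.e (nat_lit 5905) (nat_lit 320) .nil)))))))) (.g (nat_lit 5) .nil .nil)))))) (.nd (nat_lit 3) (.nd (nat_lit 4) (.nd (nat_lit 5) 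
(.lf (nat_lit 20359) (.g (nat_lit 3004) (.e (nat_lit 1181) (nat_lit 87) (.e (nat_lit 57480) (nat_lit 28) (.e (nat_lit 557109) (nat_lit 15) (.e (nat_lit 188434) (nat_lit 20) (.e (nat_lit 3271) (nat_lit 199) .nil))))) .nil)) 
(.lf (nat_lit 20391) (.g (nat_lit 5202) (.e (nat_lit 1181) (nat_lit 87) (.e (nat_lit 57480) (nat_lit 28) (.e (nat_lit 557109) (nat_lit 15) (.e (nat_lit 188447) (nat_lit 22) (.e (nat_lit 196681) (nat_lit 17) (.e (nat_lit 131086) (nat_lit 1) (.e (nat_lit 57873) (nat_lit 264) .nil))))))) (.g (nat_lit 5) .nil .nil)))) (.nd (nat_lit 5) 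
(.lf (nat_lit 20375) (.g (nat_lit 4017) (.e (nat_lit 1181) (nat_lit 87) (.e (nat_lit 57480) (nat_lit 28) (.e (nat_lit 557109) (nat_lit 15) (.e (nat_lit 188447) (nat_lit 22) (.e (nat_lit 196666) (nat_lit 13) (.e (nat_lit 65546) (nat_lit 0) (.e (nat_lit 1023) (nat_lit 81) (.e (nat_lit 5906) (nat_lit 320) .nil)))))))) (.g (nat_lit 4) .nil .nil))) 
(.lf (nat_lit 20407) (.g (nat_lit 2302) (.e (nat_lit 1181) (nat_lit 87) (.e (nat_lit 57480) (nat_lit 28) (.e (nat_lit 557109) (nat_lit 15) (.e (nat_lit 188449) (nat_lit 22) (.e (nat_lit 196630) (nat_lit 9) (.e (nat_lit 1549) (nat_lit 109) (.e (nat_lit 344097) (nat_lit 18) (.e (nat_lit 5906) (nat_lit 320) .nil)))))))) (.g (nat_lit 4) .nil .nil))))) (.nd (nat_lit 4) (.nd (nat_lit 5) 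
(.lf (nat_lit 20367) (.g (nat_lit 4146) (.e (nat_lit 1181) (nat_lit 87) (.e (nat_lit 57480) (nat_lit 28) (.e (nat_lit 557109) (nat_lit 15) (.e (nat_lit 188434) (nat_lit 20) (.e (nat_lit 3272) (nat_lit 199) (.e (nat_lit 548913) (nat_lit 18) (.e (nat_lit 172061) (nat_lit 1) (.e (nat_lit 164422) (nat_lit 272) .nil)))))))) (.g (nat_lit 5) .nil .nil))) 
(.lf (nat_lit 20399) (.g (nat_lit 4600) (.e (nat_lit 1181) (nat_lit 87) (.e (nat_lit 57480) (nat_lit 28) (.e (nat_lit 557109) (nat_lit 15) (.e (nat_lit 188449) (nat_lit 22) (.e (nat_lit 196622) (nat_lit 9) (.e (nat_lit 1523) (nat_lit 108) (.e (nat_lit 335995) (nat_lit 1) (.e (nat_lit 57872) (nat_lit 264) .nil)))))))) (.g (nat_lit 4) .nil .nil)))) (.nd (nat_lit 5) 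
(.lf (nat_lit 20383) (.g (nat_lit 4961) (.e (nat_lit 1181) (nat_lit 87) (.e (nat_lit 57480) (nat_lit 28) (.e (nat_lit 557109) (nat_lit 15) (.e (nat_lit 188447) (nat_lit 22) (.e (nat_lit 196666) (nat_lit 13) (.e (nat_lit 65565) (nat_lit 1) (.e (nat_lit 57873) (nat_lit 264) .nil))))))) (.g (nat_lit 5) .nil .nil))) 
(.lf (nat_lit 20415) (.g (nat_lit 4569) (.e (nat_lit 1181) (nat_lit 87) (.e (nat_lit 57480) (nat_lit 28) (.e (nat_lit 557109) (nat_lit 15) (.e (nat_lit 188449) (nat_lit 22) (.e (nat_lit 196666) (nat_lit 13) (.e (nat_lit 65563) (nat_lit 1) (.e (nat_lit 57870) (nat_lit 264) .nil))))))) (.g (nat_lit 0) .nil .nil)))))))))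

noncomputable def tv284 : DT := (.nd (nat_lit 0) (.nd (nat_lit 1) (.nd (nat_lit 2) (.nd (nat_lit 3) (.nd (nat_lit 4) (.nd (nat_lit 5) 
(.lf (nat_lit 20416) (.g (nat_lit 4224) (.e (nat_lit 1181) (nat_lit 87) (.e (nat_lit 57480) (nat_lit 28) (.e (nat_lit 557109) (nat_lit 15) (.e (nat_lit 188449) (nat_lit 22) (.e (nat_lit 196666) (nat_lit 13) (.e (nat_lit 65563) (nat_lit 1) (.e (nat_lit 57871) (nat_lit 264) .nil))))))) (.g (nat_lit 6) .nil .nil))) 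
(.lf (nat_lit 20448) (.g (nat_lit 4366) (.e (nat_lit 1181) (nat_lit 87) (.e (nat_lit 57480) (nat_lit 28) (.e (nat_lit 557109) (nat_lit 15) (.e (nat_lit 188450) (nat_lit 23) (.e (nat_lit 204855) (nat_lit 26) (.e (nat_lit 335992) (nat_lit 1) (.e (nat_lit 57870) (nat_lit 264) .nil))))))) (.g (nat_lit 4) .nil .nil)))) (.nd (nat_lit 5) 
(.lf (nat_lit 20432) (.g (nat_lit 6637) (.e (nat_lit 1181) (nat_lit 87) (.e (nat_lit 57480) (nat_lit 28) (.e (nat_lit 557109) (nat_lit 15) (.e (nat_lit 188449) (nat_lit 22) (.e (nat_lit 196681) (nat_lit 17) (.e (nat_lit 131088) (nat_lit 1) (.e (nat_lit 57872) (nat_lit 264) .nil))))))) (.g (nat_lit 0) .nil .nil))) 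
(.lf (nat_lit 20464) (.g (nat_lit 4871) (.e (nat_lit 1181) (nat_lit 87) (.e (nat_lit 57480) (nat_lit 28) (.e (nat_lit 557109) (nat_lit 15) (.e (nat_lit 188450) (nat_lit 23) (.e (nat_lit 204862) (nat_lit 27) (.e (nat_lit 344097) (nat_lit 18) (.e (nat_lit 5907) (nat_lit 320) .nil))))))) (.g (nat_lit 5) .nil .nil))))) (.nd (nat_lit 4) (.nd (nat_lit 5) 
(.lf (nat_lit 20424) (.g (nat_lit 3732) (.e (nat_lit 1181) (nat_lit 87) (.e (nat_lit 57480) (nat_lit 28) (.e (nat_lit 557109) (nat_lit 15) (.e (nat_lit 188449) (nat_lit 22) (.e (nat_lit 196670) (nat_lit 14) (.e (nat_lit 73729) (nat_lit 0) (.e (nat_lit 5896) (nat_lit 320) .nil))))))) (.g (nat_lit 4) .nil .nil))) 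
(.lf (nat_lit 20456) (.g (nat_lit 4411) (.e (nat_lit 1181) (nat_lit 87) (.e (nat_lit 57480) (nat_lit 28) (.e (nat_lit 557109) (nat_lit 15) (.e (nat_lit 188450) (nat_lit 23) (.e (nat_lit 204861) (nat_lit 26) (.e (nat_lit 335986) (nat_lit 1) (.e (nat_lit 57873) (nat_lit 264) .nil))))))) (.g (nat_lit 4) .nil .nil)))) (.nd (nat_lit 5) 
(.lf (nat_lit 20440) (.g (nat_lit 3685) (.e (nat_lit 1181) (nat_lit 87) (.e (nat_lit 57480) (nat_lit 28) (.e (nat_lit 557109) (nat_lit 15) (.e (nat_lit 188450) (nat_lit 23) (.e (nat_lit 204854) (nat_lit 26) (.e (nat_lit 336000) (nat_lit 1) (.e (nat_lit 57873) (nat_lit 264) .nil))))))) (.g (nat_lit 4) .nil .nil))) 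
(.lf (nat_lit 20472) (.g (nat_lit 3724) (.e (nat_lit 1181) (nat_lit 87) (.e (nat_lit 57480) (nat_lit 28) (.e (nat_lit 557109) (nat_lit 15) (.e (nat_lit 188450) (nat_lit 23) (.e (nat_lit 204872) (nat_lit 30) .nil))))) .nil))))) (.nd (nat_lit 3) (.nd (nat_lit 4) (.nd (nat_lit 5) 
(.lf (nat_lit 20420) (.g (nat_lit 4351) (.e (nat_lit 1181) (nat_lit 87) (.e (nat_lit 57480) (nat_lit 28) (.e (nat_lit 557109) (nat_lit 15) (.e (nat_lit 188449) (nat_lit 22) (.e (nat_lit 196667) (nat_lit 14) (.e (nat_lit 73733) (nat_lit 0) (.e (nat_lit 5907) (nat_lit 320) .nil))))))) (.g (nat_lit 4) .nil .nil))) 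
(.lf (nat_lit 20452) (.g (nat_lit 3717) (.e (nat_lit 1181) (nat_lit 87) (.e (nat_lit 57480) (nat_lit 28) (.e (nat_lit 557109) (nat_lit 15) (.e (nat_lit 188450) (nat_lit 23) (.e (nat_lit 204858) (nat_lit 26) .nil))))) .nil))) (.nd (nat_lit 5) 
(.lf (nat_lit 20436) (.g (nat_lit 4261) (.e (nat_lit 1181) (nat_lit 87) (.e (nat_lit 57480) (nat_lit 28) (.e (nat_lit 557109) (nat_lit 15) (.e (nat_lit 188450) (nat_lit 23) (.e (nat_lit 204850) (nat_lit 26) (.e (nat_lit 335997) (nat_lit 1) (.e (nat_lit 57871) (nat_lit 264) .nil))))))) (.g (nat_lit 4) .nil .nil))) 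
(.lf (nat_lit 20468) (.g (nat_lit 5483) (.e (nat_lit 1181) (nat_lit 87) (.e (nat_lit 57480) (nat_lit 28) (.e (nat_lit 557109) (nat_lit 15) (.e (nat_lit 188450) (nat_lit 23) (.e (nat_lit 204863) (nat_lit 27) (.e (nat_lit 344097) (nat_lit 18) (.e (nat_lit 5906) (nat_lit 320) .nil))))))) (.g (nat_lit 5) .nil .nil))))) (.nd (nat_lit 4) (.nd (nat_lit 5) 
(.lf (nat_lit 20428) (.g (nat_lit 4939) (.e (nat_lit 1181) (nat_lit 87) (.e (nat_lit 57480) (nat_lit 28) (.e (nat_lit 557109) (nat_lit 15) (.e (nat_lit 188449) (nat_lit 22) (.e (nat_lit 196680) (nat_lit 17) (.e (nat_lit 131087) (nat_lit 1) (.e (nat_lit 57872) (nat_lit 264) .nil))))))) (.g (nat_lit 4) .nil .nil))) 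
(.lf (nat_lit 20460) (.g (nat_lit 5072) (.e (nat_lit 1181) (nat_lit 87) (.e (nat_lit 57480) (nat_lit 28) (.e (nat_lit 557109) (nat_lit 15) (.e (nat_lit 188450) (nat_lit 23) (.e (nat_lit 204861) (nat_lit 26) (.e (nat_lit 335996) (nat_lit 1) (.e (nat_lit 57870) (nat_lit 264) .nil))))))) (.g (nat_lit 5) .nil .nil)))) (.nd (nat_lit 5) 
(.lf (nat_lit 20444) (.g (nat_lit 4293) (.e (nat_lit 1181) (nat_lit 87) (.e (nat_lit 57480) (nat_lit 28) (.e (nat_lit 557109) (nat_lit 15) (.e (nat_lit 188450) (nat_lit 23) (.e (nat_lit 204855) (nat_lit 26) (.e (nat_lit 335985) (nat_lit 1) (.e (nat_lit 57870) (nat_lit 264) .nil))))))) (.g (nat_lit 4) .nil .nil))) 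
(.lf (nat_lit 20476) (.g (nat_lit 4267) (.e (nat_lit 1181) (nat_lit 87) (.e (nat_lit 57480) (nat_lit 28) (.e (nat_lit 557109) (nat_lit 15) (.e (nat_lit 188450) (nat_lit 23) (.e (nat_lit 204873) (nat_lit 30) (.e (nat_lit 368662) (nat_lit 18) (.e (nat_lit 5907) (nat_lit 320) .nil))))))) (.g (nat_lit 4) .nil .nil))))))) (.nd (nat_lit 2) (.nd (nat_lit 3) (.nd (nat_lit 4) (.nd (nat_lit 5) 
(.lf (nat_lit 20418) (.g (nat_lit 4224) (.e (nat_lit 1181) (nat_lit 87) (.e (nat_lit 57480) (nat_lit 28) (.e (nat_lit 557109) (nat_lit 15) (.e (nat_lit 188449) (nat_lit 22) (.e (nat_lit 196666) (nat_lit 13) (.e (nat_lit 65565) (nat_lit 1) (.e (nat_lit 57871) (nat_lit 264) .nil))))))) (.g (nat_lit 6) .nil .nil))) 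
(.lf (nat_lit 20450) (.g (nat_lit 3693) (.e (nat_lit 1181) (nat_lit 87) (.e (nat_lit 57480) (nat_lit 28) (.e (nat_lit 557109) (nat_lit 15) (.e (nat_lit 188450) (nat_lit 23) (.e (nat_lit 204856) (nat_lit 26) .nil))))) .nil))) (.nd (nat_lit 5) 
(.lf (nat_lit 20434) (.g (nat_lit 1981) (.e (nat_lit 1181) (nat_lit 87) (.e (nat_lit 57480) (nat_lit 28) (.e (nat_lit 557109) (nat_lit 15) (.e (nat_lit 188450) (nat_lit 23) .nil)))) .nil)) 
(.lf (nat_lit 20466) (.g (nat_lit 4037) (.e (nat_lit 1181) (nat_lit 87) (.e (nat_lit 57480) (nat_lit 28) (.e (nat_lit 557109) (nat_lit 15) (.e (nat_lit 188450) (nat_lit 23) (.e (nat_lit 204863) (nat_lit 27) (.e (nat_lit 344090) (nat_lit 18) (.e (nat_lit 5896) (nat_lit 320) .nil))))))) (.g (nat_lit 4) .nil .nil))))) (.nd (nat_lit 4) (.nd (nat_lit 5) 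
(.lf (nat_lit 20426) (.g (nat_lit 5092) (.e (nat_lit 1181) (nat_lit 87) (.e (nat_lit 57480) (nat_lit 28) (.e (nat_lit 557109) (nat_lit 15) (.e (nat_lit 188449) (nat_lit 22) (.e (nat_lit 196670) (nat_lit 14) (.e (nat_lit 73732) (nat_lit 0) (.e (nat_lit 5905) (nat_lit 320) .nil))))))) (.g (nat_lit 6) .nil .nil))) 
(.lf (nat_lit 20458) (.g (nat_lit 4179) (.e (nat_lit 1181) (nat_lit 87) (.e (nat_lit 57480) (nat_lit 28) (.e (nat_lit 557109) (nat_lit 15) (.e (nat_lit 188450) (nat_lit 23) (.e (nat_lit 204861) (nat_lit 26) (.e (nat_lit 335995) (nat_lit 1) (.e (nat_lit 57870) (nat_lit 264) .nil))))))) (.g (nat_lit 4) .nil .nil)))) (.nd (nat_lit 5) 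
(.lf (nat_lit 20442) (.g (nat_lit 3883) (.e (nat_lit 1181) (nat_lit 87) (.e (nat_lit 57480) (nat_lit 28) (.e (nat_lit 557109) (nat_lit 15) (.e (nat_lit 188450) (nat_lit 23) (.e (nat_lit 204855) (nat_lit 26) (.e (nat_lit 335923) (nat_lit 0) (.e (nat_lit 1023) (nat_lit 81) (.e (nat_lit 5906) (nat_lit 320) .nil)))))))) (.g (nat_lit 4) .nil .nil))) 
(.lf (nat_lit 20474) (.g (nat_lit 4302) (.e (nat_lit 1181) (nat_lit 87) (.e (nat_lit 57480) (nat_lit 28) (.e (nat_lit 557109) (nat_lit 15) (.e (nat_lit 188450) (nat_lit 23) (.e (nat_lit 204872) (nat_lit 30) (.e (nat_lit 368662) (nat_lit 18) (.e (nat_lit 5907) (nat_lit 320) .nil))))))) (.g (nat_lit 4) .nil .nil)))))) (.nd (nat_lit 3) (.nd (nat_lit 4) (.nd (nat_lit 5) 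
(.lf (nat_lit 20422) (.g (nat_lit 4038) (.e (nat_lit 1181) (nat_lit 87) (.e (nat_lit 57480) (nat_lit 28) (.e (nat_lit 557109) (nat_lit 15) (.e (nat_lit 188449) (nat_lit 22) (.e (nat_lit 196668) (nat_lit 14) (.e (nat_lit 73733) (nat_lit 0) (.e (nat_lit 5905) (nat_lit 320) .nil))))))) (.g (nat_lit 4) .nil .nil))) 
(.lf (nat_lit 20454) (.g (nat_lit 3717) (.e (nat_lit 1181) (nat_lit 87) (.e (nat_lit 57480) (nat_lit 28) (.e (nat_lit 557109) (nat_lit 15) (.e (nat_lit 188450) (nat_lit 23) (.e (nat_lit 204860) (nat_lit 26) .nil))))) .nil))) (.nd (nat_lit 5) 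
(.lf (nat_lit 20438) (.g (nat_lit 3566) (.e (nat_lit 1181) (nat_lit 87) (.e (nat_lit 57480) (nat_lit 28) (.e (nat_lit 557109) (nat_lit 15) (.e (nat_lit 188450) (nat_lit 23) (.e (nat_lit 204852) (nat_lit 26) .nil))))) .nil)) 
(.lf (nat_lit 20470) (.g (nat_lit 3530) (.e (nat_lit 1181) (nat_lit 87) (.e (nat_lit 57480) (nat_lit 28) (.e (nat_lit 557109) (nat_lit 15) (.e (nat_lit 188450) (nat_lit 23) (.e (nat_lit 204863) (nat_lit 27) (.e (nat_lit 344101) (nat_lit 18) (.e (nat_lit 5907) (nat_lit 320) .nil))))))) (.g (nat_lit 4) .nil .nil))))) (.nd (nat_lit 4) (.nd (nat_lit 5) 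
(.lf (nat_lit 20430) (.g (nat_lit 6674) (.e (nat_lit 1181) (nat_lit 87) (.e (nat_lit 57480) (nat_lit 28) (.e (nat_lit 557109) (nat_lit 15) (.e (nat_lit 188449) (nat_lit 22) (.e (nat_lit 196681) (nat_lit 17) (.e (nat_lit 131086) (nat_lit 1) (.e (nat_lit 57872) (nat_lit 264) .nil))))))) (.g (nat_lit 7) .nil .nil))) 
(.lf (nat_lit 20462) (.g (nat_lit 3682) (.e (nat_lit 1181) (nat_lit 87) (.e (nat_lit 57480) (nat_lit 28) (.e (nat_lit 557109) (nat_lit 15) (.e (nat_lit 188450) (nat_lit 23) (.e (nat_lit 204862) (nat_lit 27) (.e (nat_lit 344097) (nat_lit 18) (.e (nat_lit 5905) (nat_lit 320) .nil))))))) (.g (nat_lit 4) .nil .nil)))) (.nd (nat_lit 5) 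
(.lf (nat_lit 20446) (.g (nat_lit 4335) (.e (nat_lit 1181) (nat_lit 87) (.e (nat_lit 57480) (nat_lit 28) (.e (nat_lit 557109) (nat_lit 15) (.e (nat_lit 188450) (nat_lit 23) (.e (nat_lit 204855) (nat_lit 26) (.e (nat_lit 335985) (nat_lit 1) (.e (nat_lit 57872) (nat_lit 264) .nil))))))) (.g (nat_lit 4) .nil .nil))) 
(.lf (nat_lit 20478) (.g (nat_lit 4738) (.e (nat_lit 1181) (nat_lit 87) (.e (nat_lit 57480) (nat_lit 28) (.e (nat_lit 557109) (nat_lit 15) (.e (nat_lit 188452) (nat_lit 23) (.e (nat_lit 204815) (nat_lit 17) .nil))))) .nil))))))) (.nd (nat_lit 1) (.nd (nat_lit 2) (.nd (nat_lit 3) (.nd (nat_lit 4) (.nd (nat_lit 5) 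
(.lf (nat_lit 20417) (.g (nat_lit 4628) (.e (nat_lit 1181) (nat_lit 87) (.e (nat_lit 57480) (nat_lit 28) (.e (nat_lit 557109) (nat_lit 15) (.e (nat_lit 188449) (nat_lit 22) (.e (nat_lit 196666) (nat_lit 13) (.e (nat_lit 65563) (nat_lit 1) (.e (nat_lit 57872) (nat_lit 264) .nil))))))) (.g (nat_lit 0) .nil .nil))) 
(.lf (nat_lit 20449) (.g (nat_lit 3670) (.e (nat_lit 1181) (nat_lit 87) (.e (nat_lit 57480) (nat_lit 28) (.e (nat_lit 557109) (nat_lit 15) (.e (nat_lit 188450) (nat_lit 23) (.e (nat_lit 204855) (nat_lit 26) (.e (nat_lit 335992) (nat_lit 1) (.e (nat_lit 57873) (nat_lit 264) .nil))))))) (.g (nat_lit 4) .nil .nil)))) (.nd (nat_lit 5) 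
(.lf (nat_lit 20433) (.g (nat_lit 6705) (.e (nat_lit 1181) (nat_lit 87) (.e (nat_lit 57480) (nat_lit 28) (.e (nat_lit 557109) (nat_lit 15) (.e (nat_lit 188449) (nat_lit 22) (.e (nat_lit 196681) (nat_lit 17) (.e (nat_lit 131089) (nat_lit 1) (.e (nat_lit 57870) (nat_lit 264) .nil))))))) (.g (nat_lit 7) .nil .nil))) 
(.lf (nat_lit 20465) (.g (nat_lit 3463) (.e (nat_lit 1181) (nat_lit 87) (.e (nat_lit 57480) (nat_lit 28) (.e (nat_lit 557109) (nat_lit 15) (.e (nat_lit 188450) (nat_lit 23) (.e (nat_lit 204863) (nat_lit 27) .nil))))) .nil)))) (.nd (nat_lit 4) (.nd (nat_lit 5) 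
(.lf (nat_lit 20425) (.g (nat_lit 4489) (.e (nat_lit 1181) (nat_lit 87) (.e (nat_lit 57480) (nat_lit 28) (.e (nat_lit 557109) (nat_lit 15) (.e (nat_lit 188449) (nat_lit 22) (.e (nat_lit 196670) (nat_lit 14) (.e (nat_lit 73732) (nat_lit 0) (.e (nat_lit 5902) (nat_lit 320) .nil))))))) (.g (nat_lit 5) .nil .nil))) 
(.lf (nat_lit 20457) (.g (nat_lit 3797) (.e (nat_lit 1181) (nat_lit 87) (.e (nat_lit 57480) (nat_lit 28) (.e (nat_lit 557109) (nat_lit 15) (.e (nat_lit 188450) (nat_lit 23) (.e (nat_lit 204861) (nat_lit 26) (.e (nat_lit 335988) (nat_lit 1) (.e (nat_lit 57870) (nat_lit 264) .nil))))))) (.g (nat_lit 4) .nil .nil)))) (.nd (nat_lit 5) 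
(.lf (nat_lit 20441) (.g (nat_lit 3497) (.e (nat_lit 1181) (nat_lit 87) (.e (nat_lit 57480) (nat_lit 28) (.e (nat_lit 557109) (nat_lit 15) (.e (nat_lit 188450) (nat_lit 23) (.e (nat_lit 204855) (nat_lit 26) .nil))))) .nil)) 
(.lf (nat_lit 20473) (.g (nat_lit 4112) (.e (nat_lit 1181) (nat_lit 87) (.e (nat_lit 57480) (nat_lit 28) (.e (nat_lit 557109) (nat_lit 15) (.e (nat_lit 188450) (nat_lit 23) (.e (nat_lit 204872) (nat_lit 30) (.e (nat_lit 368662) (nat_lit 18) (.e (nat_lit 5906) (nat_lit 320) .nil))))))) (.g (nat_lit 4) .nil .nil)))))) (.nd (nat_lit 3) (.nd (nat_lit 4) (.nd (nat_lit 5) 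
(.lf (nat_lit 20421) (.g (nat_lit 3676) (.e (nat_lit 1181) (nat_lit 87) (.e (nat_lit 57480) (nat_lit 28) (.e (nat_lit 557109) (nat_lit 15) (.e (nat_lit 188449) (nat_lit 22) (.e (nat_lit 196668) (nat_lit 14) (.e (nat_lit 73733) (nat_lit 0) (.e (nat_lit 5902) (nat_lit 320) .nil))))))) (.g (nat_lit 4) .nil .nil))) 
(.lf (nat_lit 20453) (.g (nat_lit 4169) (.e (nat_lit 1181) (nat_lit 87) (.e (nat_lit 57480) (nat_lit 28) (.e (nat_lit 557109) (nat_lit 15) (.e (nat_lit 188450) (nat_lit 23) (.e (nat_lit 204859) (nat_lit 26) (.e (nat_lit 335998) (nat_lit 1) (.e (nat_lit 57873) (nat_lit 264) .nil))))))) (.g (nat_lit 4) .nil .nil)))) (.nd (nat_lit 5) 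
(.lf (nat_lit 20437) (.g (nat_lit 4773) (.e (nat_lit 1181) (nat_lit 87) (.e (nat_lit 57480) (nat_lit 28) (.e (nat_lit 557109) (nat_lit 15) (.e (nat_lit 188450) (nat_lit 23) (.e (nat_lit 204850) (nat_lit 26) (.e (nat_lit 335997) (nat_lit 1) (.e (nat_lit 57872) (nat_lit 264) .nil))))))) (.g (nat_lit 5) .nil .nil))) 
(.lf (nat_lit 20469) (.g (nat_lit 5951) (.e (nat_lit 1181) (nat_lit 87) (.e (nat_lit 57480) (nat_lit 28) (.e (nat_lit 557109) (nat_lit 15) (.e (nat_lit 188450) (nat_lit 23) (.e (nat_lit 204863) (nat_lit 27) (.e (nat_lit 344097) (nat_lit 18) (.e (nat_lit 5907) (nat_lit 320) .nil))))))) (.g (nat_lit 6) .nil .nil))))) (.nd (nat_lit 4) (.nd (nat_lit 5) 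
(.lf (nat_lit 20429) (.g (nat_lit 6429) (.e (nat_lit 1181) (nat_lit 87) (.e (nat_lit 57480) (nat_lit 28) (.e (nat_lit 557109) (nat_lit 15) (.e (nat_lit 188449) (nat_lit 22) (.e (nat_lit 196681) (nat_lit 17) (.e (nat_lit 131086) (nat_lit 1) (.e (nat_lit 57870) (nat_lit 264) .nil))))))) (.g (nat_lit 6) .nil .nil))) 
(.lf (nat_lit 20461) (.g (nat_lit 3461) (.e (nat_lit 1181) (nat_lit 87) (.e (nat_lit 57480) (nat_lit 28) (.e (nat_lit 557109) (nat_lit 15) (.e (nat_lit 188450) (nat_lit 23) (.e (nat_lit 204862) (nat_lit 27) .nil))))) .nil))) (.nd (nat_lit 5) 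
(.lf (nat_lit 20445) (.g (nat_lit 3885) (.e (nat_lit 1181) (nat_lit 87) (.e (nat_lit 57480) (nat_lit 28) (.e (nat_lit 557109) (nat_lit 15) (.e (nat_lit 188450) (nat_lit 23) (.e (nat_lit 204855) (nat_lit 26) (.e (nat_lit 335985) (nat_lit 1) (.e (nat_lit 57871) (nat_lit 264) .nil))))))) (.g (nat_lit 4) .nil .nil))) 
(.lf (nat_lit 20477) (.g (nat_lit 3781) (.e (nat_lit 1181) (nat_lit 87) (.e (nat_lit 57480) (nat_lit 28) (.e (nat_lit 557109) (nat_lit 15) (.e (nat_lit 188450) (nat_lit 23) (.e (nat_lit 204874) (nat_lit 30) .nil))))) .nil)))))) (.nd (nat_lit 2) (.nd (nat_lit 3) (.nd (nat_lit 4) (.nd (nat_lit 5) 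
(.lf (nat_lit 20419) (.g (nat_lit 4374) (.e (nat_lit 1181) (nat_lit 87) (.e (nat_lit 57480) (nat_lit 28) (.e (nat_lit 557109) (nat_lit 15) (.e (nat_lit 188449) (nat_lit 22) (.e (nat_lit 196667) (nat_lit 14) (.e (nat_lit 73732) (nat_lit 0) (.e (nat_lit 5907) (nat_lit 320) .nil))))))) (.g (nat_lit 4) .nil .nil))) 
(.lf (nat_lit 20451) (.g (nat_lit 3717) (.e (nat_lit 1181) (nat_lit 87) (.e (nat_lit 57480) (nat_lit 28) (.e (nat_lit 557109) (nat_lit 15) (.e (nat_lit 188450) (nat_lit 23) (.e (nat_lit 204857) (nat_lit 26) .nil))))) .nil))) (.nd (nat_lit 5) 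
(.lf (nat_lit 20435) (.g (nat_lit 4644) (.e (nat_lit 1181) (nat_lit 87) (.e (nat_lit 57480) (nat_lit 28) (.e (nat_lit 557109) (nat_lit 15) (.e (nat_lit 188450) (nat_lit 23) (.e (nat_lit 204850) (nat_lit 26) (.e (nat_lit 335997) (nat_lit 1) (.e (nat_lit 57870) (nat_lit 264) .nil))))))) (.g (nat_lit 5) .nil .nil))) 
(.lf (nat_lit 20467) (.g (nat_lit 4757) (.e (nat_lit 1181) (nat_lit 87) (.e (nat_lit 57480) (nat_lit 28) (.e (nat_lit 557109) (nat_lit 15) (.e (nat_lit 188450) (nat_lit 23) (.e (nat_lit 204863) (nat_lit 27) (.e (nat_lit 344097) (nat_lit 18) (.e (nat_lit 5905) (nat_lit 320) .nil))))))) (.g (nat_lit 5) .nil .nil))))) (.nd (nat_lit 4) (.nd (nat_lit 5) 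
(.lf (nat_lit 20427) (.g (nat_lit 5237) (.e (nat_lit 1181) (nat_lit 87) (.e (nat_lit 57480) (nat_lit 28) (.e (nat_lit 557109) (nat_lit 15) (.e (nat_lit 188449) (nat_lit 22) (.e (nat_lit 196670) (nat_lit 14) (.e (nat_lit 73732) (nat_lit 0) (.e (nat_lit 5906) (nat_lit 320) .nil))))))) (.g (nat_lit 6) .nil .nil))) 
(.lf (nat_lit 20459) (.g (nat_lit 5663) (.e (nat_lit 1181) (nat_lit 87) (.e (nat_lit 57480) (nat_lit 28) (.e (nat_lit 557109) (nat_lit 15) (.e (nat_lit 188450) (nat_lit 23) (.e (nat_lit 204861) (nat_lit 26) (.e (nat_lit 335995) (nat_lit 1) (.e (nat_lit 57872) (nat_lit 264) .nil))))))) (.g (nat_lit 6) .nil .nil)))) (.nd (nat_lit 5) 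
(.lf (nat_lit 20443) (.g (nat_lit 3554) (.e (nat_lit 1181) (nat_lit 87) (.e (nat_lit 57480) (nat_lit 28) (.e (nat_lit 557109) (nat_lit 15) (.e (nat_lit 188450) (nat_lit 23) (.e (nat_lit 204855) (nat_lit 26) (.e (nat_lit 335923) (nat_lit 0) (.e (nat_lit 1023) (nat_lit 81) (.e (nat_lit 5907) (nat_lit 320) .nil)))))))) (.g (nat_lit 4) .nil .nil))) 
(.lf (nat_lit 20475) (.g (nat_lit 4101) (.e (nat_lit 1181) (nat_lit 87) (.e (nat_lit 57480) (nat_lit 28) (.e (nat_lit 557109) (nat_lit 15) (.e (nat_lit 188450) (nat_lit 23) (.e (nat_lit 204873) (nat_lit 30) (.e (nat_lit 368662) (nat_lit 18) (.e (nat_lit 5906) (nat_lit 320) .nil))))))) (.g (nat_lit 4) .nil .nil)))))) (.nd (nat_lit 3) (.nd (nat_lit 4) (.nd (nat_lit 5) 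
(.lf (nat_lit 20423) (.g (nat_lit 4403) (.e (nat_lit 1181) (nat_lit 87) (.e (nat_lit 57480) (nat_lit 28) (.e (nat_lit 557109) (nat_lit 15) (.e (nat_lit 188449) (nat_lit 22) (.e (nat_lit 196668) (nat_lit 14) (.e (nat_lit 73733) (nat_lit 0) (.e (nat_lit 5906) (nat_lit 320) .nil))))))) (.g (nat_lit 5) .nil .nil))) 
(.lf (nat_lit 20455) (.g (nat_lit 3759) (.e (nat_lit 1181) (nat_lit 87) (.e (nat_lit 57480) (nat_lit 28) (.e (nat_lit 557109) (nat_lit 15) (.e (nat_lit 188450) (nat_lit 23) (.e (nat_lit 204861) (nat_lit 26) .nil))))) .nil))) (.nd (nat_lit 5) 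
(.lf (nat_lit 20439) (.g (nat_lit 3674) (.e (nat_lit 1181) (nat_lit 87) (.e (nat_lit 57480) (nat_lit 28) (.e (nat_lit 557109) (nat_lit 15) (.e (nat_lit 188450) (nat_lit 23) (.e (nat_lit 204852) (nat_lit 26) (.e (nat_lit 343808) (nat_lit 1) (.e (nat_lit 57873) (nat_lit 264) .nil))))))) (.g (nat_lit 4) .nil .nil))) 
(.lf (nat_lit 20471) (.g (nat_lit 3602) (.e (nat_lit 1181) (nat_lit 87) (.e (nat_lit 57480) (nat_lit 28) (.e (nat_lit 557109) (nat_lit 15) (.e (nat_lit 188450) (nat_lit 23) (.e (nat_lit 204864) (nat_lit 27) .nil))))) .nil)))) (.nd (nat_lit 4) (.nd (nat_lit 5) 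
(.lf (nat_lit 20431) (.g (nat_lit 6354) (.e (nat_lit 1181) (nat_lit 87) (.e (nat_lit 57480) (nat_lit 28) (.e (nat_lit 557109) (nat_lit 15) (.e (nat_lit 188449) (nat_lit 22) (.e (nat_lit 196681) (nat_lit 17) (.e (nat_lit 131088) (nat_lit 1) (.e (nat_lit 57870) (nat_lit 264) .nil))))))) (.g (nat_lit 6) .nil .nil))) 
(.lf (nat_lit 20463) (.g (nat_lit 4357) (.e (nat_lit 1181) (nat_lit 87) (.e (nat_lit 57480) (nat_lit 28) (.e (nat_lit 557109) (nat_lit 15) (.e (nat_lit 188450) (nat_lit 23) (.e (nat_lit 204862) (nat_lit 27) (.e (nat_lit 344097) (nat_lit 18) (.e (nat_lit 5906) (nat_lit 320) .nil))))))) (.g (nat_lit 5) .nil .nil)))) (.nd (nat_lit 5) 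
(.lf (nat_lit 20447) (.g (nat_lit 4735) (.e (nat_lit 1181) (nat_lit 87) (.e (nat_lit 57480) (nat_lit 28) (.e (nat_lit 557109) (nat_lit 15) (.e (nat_lit 188450) (nat_lit 23) (.e (nat_lit 204855) (nat_lit 26) (.e (nat_lit 335985) (nat_lit 1) (.e (nat_lit 57873) (nat_lit 264) .nil))))))) (.g (nat_lit 5) .nil .nil))) 
(.lf (nat_lit 20479) (.g (nat_lit 4992) (.e (nat_lit 1181) (nat_lit 87) (.e (nat_lit 57480) (nat_lit 28) (.e (nat_lit 557109) (nat_lit 15) (.e (nat_lit 188452) (nat_lit 23) (.e (nat_lit 204815) (nat_lit 17) (.e (nat_lit 6481) (nat_lit 343) (.e (nat_lit 1181) (nat_lit 87) (.e (nat_lit 57872) (nat_lit 264) .nil)))))))) (.g (nat_lit 4) .nil .nil)))))))))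

noncomputable def tv285 : DT := (.nd (nat_lit 0) (.nd (nat_lit 1) (.nd (nat_lit 2) (.nd (nat_lit 3) (.nd (nat_lit 4) (.nd (nat_lit 5) 
(.lf (nat_lit 20480) (.g (nat_lit 4766) (.e (nat_lit 1181) (nat_lit 87) (.e (nat_lit 57480) (nat_lit 28) (.e (nat_lit 557109) (nat_lit 15) (.e (nat_lit 188452) (nat_lit 23) (.e (nat_lit 204816) (nat_lit 17) .nil))))) .nil)) 
(.lf (nat_lit 20512) (.g (nat_lit 2964) (.e (nat_lit 1181) (nat_lit 87) (.e (nat_lit 57480) (nat_lit 28) (.e (nat_lit 557109) (nat_lit 15) (.e (nat_lit 188452) (nat_lit 23) (.e (nat_lit 204855) (nat_lit 26) (.e (nat_lit 335920) (nat_lit 0) (.e (nat_lit 1023) (nat_lit 81) (.e (nat_lit 5907) (nat_lit 320) .nil)))))))) (.g (nat_lit 4) .nil .nil)))) (.nd (nat_lit 5) 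
(.lf (nat_lit 20496) (.g (nat_lit 4323) (.e (nat_lit 1181) (nat_lit 87) (.e (nat_lit 57480) (nat_lit 28) (.e (nat_lit 557109) (nat_lit 15) (.e (nat_lit 188452) (nat_lit 23) (.e (nat_lit 204845) (nat_lit 24) (.e (nat_lit 319516) (nat_lit 11) (.e (nat_lit 8484) (nat_lit 168) .nil))))))) (.g (nat_lit 4) .nil .nil))) 
(.lf (nat_lit 20528) (.g (nat_lit 4797) (.e (nat_lit 1181) (nat_lit 87) (.e (nat_lit 57480) (nat_lit 28) (.e (nat_lit 557109) (nat_lit 15) (.e (nat_lit 188452) (nat_lit 23) (.e (nat_lit 204855) (nat_lit 26) (.e (nat_lit 335992) (nat_lit 1) (.e (nat_lit 57870) (nat_lit 264) .nil))))))) (.g (nat_lit 7) .nil .nil))))) (.nd (nat_lit 4) (.nd (nat_lit 5) 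
(.lf (nat_lit 20488) (.g (nat_lit 3693) (.e (nat_lit 1181) (nat_lit 87) (.e (nat_lit 57480) (nat_lit 28) (.e (nat_lit 557109) (nat_lit 15) (.e (nat_lit 188452) (nat_lit 23) (.e (nat_lit 204819) (nat_lit 17) (.e (nat_lit 7936) (nat_lit 343) (.e (nat_lit 1183) (nat_lit 87) (.e (nat_lit 57872) (nat_lit 264) .nil)))))))) (.g (nat_lit 4) .nil .nil))) 
(.lf (nat_lit 20520) (.g (nat_lit 3154) (.e (nat_lit 1181) (nat_lit 87) (.e (nat_lit 57480) (nat_lit 28) (.e (nat_lit 557109) (nat_lit 15) (.e (nat_lit 188452) (nat_lit 23) (.e (nat_lit 204855) (nat_lit 26) (.e (nat_lit 335936) (nat_lit 0) (.e (nat_lit 1023) (nat_lit 81) (.e (nat_lit 5906) (nat_lit 320) .nil)))))))) (.g (nat_lit 4) .nil .nil)))) (.nd (nat_lit 5) 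
(.lf (nat_lit 20504) (.g (nat_lit 3382) (.e (nat_lit 1181) (nat_lit 87) (.e (nat_lit 57480) (nat_lit 28) (.e (nat_lit 557109) (nat_lit 15) (.e (nat_lit 188452) (nat_lit 23) (.e (nat_lit 204852) (nat_lit 26) (.e (nat_lit 343808) (nat_lit 1) (.e (nat_lit 57870) (nat_lit 264) .nil))))))) (.g (nat_lit 4) .nil .nil))) 
(.lf (nat_lit 20536) (.g (nat_lit 5140) (.e (nat_lit 1181) (nat_lit 87) (.e (nat_lit 57480) (nat_lit 28) (.e (nat_lit 557109) (nat_lit 15) (.e (nat_lit 188452) (nat_lit 23) (.e (nat_lit 204857) (nat_lit 26) (.e (nat_lit 335997) (nat_lit 1) (.e (nat_lit 57870) (nat_lit 264) .nil))))))) (.g (nat_lit 6) .nil .nil)))))) (.nd (nat_lit 3) (.nd (nat_lit 4) (.nd (nat_lit 5) 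
(.lf (nat_lit 20484) (.g (nat_lit 4239) (.e (nat_lit 1181) (nat_lit 87) (.e (nat_lit 57480) (nat_lit 28) (.e (nat_lit 557109) (nat_lit 15) (.e (nat_lit 188452) (nat_lit 23) (.e (nat_lit 204817) (nat_lit 17) (.e (nat_lit 7936) (nat_lit 343) (.e (nat_lit 1183) (nat_lit 87) (.e (nat_lit 57870) (nat_lit 264) .nil)))))))) (.g (nat_lit 4) .nil .nil))) 
(.lf (nat_lit 20516) (.g (nat_lit 4216) (.e (nat_lit 1181) (nat_lit 87) (.e (nat_lit 57480) (nat_lit 28) (.e (nat_lit 557109) (nat_lit 15) (.e (nat_lit 188452) (nat_lit 23) (.e (nat_lit 204855) (nat_lit 26) (.e (nat_lit 335923) (nat_lit 0) (.e (nat_lit 1023) (nat_lit 81) (.e (nat_lit 5905) (nat_lit 320) .nil)))))))) (.g (nat_lit 5) .nil .nil)))) (.nd (nat_lit 5) 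
(.lf (nat_lit 20500) (.g (nat_lit 4489) (.e (nat_lit 1181) (nat_lit 87) (.e (nat_lit 57480) (nat_lit 28) (.e (nat_lit 557109) (nat_lit 15) (.e (nat_lit 188452) (nat_lit 23) (.e (nat_lit 204850) (nat_lit 26) (.e (nat_lit 335997) (nat_lit 1) (.e (nat_lit 57870) (nat_lit 264) .nil))))))) (.g (nat_lit 0) .nil .nil))) 
(.lf (nat_lit 20532) (.g (nat_lit 5351) (.e (nat_lit 1181) (nat_lit 87) (.e (nat_lit 57480) (nat_lit 28) (.e (nat_lit 557109) (nat_lit 15) (.e (nat_lit 188452) (nat_lit 23) (.e (nat_lit 204856) (nat_lit 26) (.e (nat_lit 335997) (nat_lit 1) (.e (nat_lit 57870) (nat_lit 264) .nil))))))) (.g (nat_lit 7) .nil .nil))))) (.nd (nat_lit 4) (.nd (nat_lit 5) 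
(.lf (nat_lit 20492) (.g (nat_lit 3905) (.e (nat_lit 1181) (nat_lit 87) (.e (nat_lit 57480) (nat_lit 28) (.e (nat_lit 557109) (nat_lit 15) (.e (nat_lit 188452) (nat_lit 23) (.e (nat_lit 204821) (nat_lit 17) (.e (nat_lit 7936) (nat_lit 346) (.e (nat_lit 57354) (nat_lit 0) (.e (nat_lit 5906) (nat_lit 320) .nil)))))))) (.g (nat_lit 4) .nil .nil))) 
(.lf (nat_lit 20524) (.g (nat_lit 4620) (.e (nat_lit 1181) (nat_lit 87) (.e (nat_lit 57480) (nat_lit 28) (.e (nat_lit 557109) (nat_lit 15) (.e (nat_lit 188452) (nat_lit 23) (.e (nat_lit 204855) (nat_lit 26) (.e (nat_lit 335985) (nat_lit 1) (.e (nat_lit 57872) (nat_lit 264) .nil))))))) (.g (nat_lit 0) .nil .nil)))) (.nd (nat_lit 5) 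
(.lf (nat_lit 20508) (.g (nat_lit 4051) (.e (nat_lit 1181) (nat_lit 87) (.e (nat_lit 57480) (nat_lit 28) (.e (nat_lit 557109) (nat_lit 15) (.e (nat_lit 188452) (nat_lit 23) (.e (nat_lit 204855) (nat_lit 26) (.e (nat_lit 335901) (nat_lit 0) (.e (nat_lit 1095) (nat_lit 81) (.e (nat_lit 5902) (nat_lit 320) .nil)))))))) (.g (nat_lit 5) .nil .nil))) 
(.lf (nat_lit 20540) (.g (nat_lit 4573) (.e (nat_lit 1181) (nat_lit 87) (.e (nat_lit 57480) (nat_lit 28) (.e (nat_lit 557109) (nat_lit 15) (.e (nat_lit 188452) (nat_lit 23) (.e (nat_lit 204858) (nat_lit 26) (.e (nat_lit 335997) (nat_lit 1) (.e (nat_lit 57871) (nat_lit 264) .nil))))))) (.g (nat_lit 4) .nil .nil))))))) (.nd (nat_lit 2) (.nd (nat_lit 3) (.nd (nat_lit 4) (.nd (nat_lit 5) 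
(.lf (nat_lit 20482) (.g (nat_lit 5109) (.e (nat_lit 1181) (nat_lit 87) (.e (nat_lit 57480) (nat_lit 28) (.e (nat_lit 557109) (nat_lit 15) (.e (nat_lit 188452) (nat_lit 23) (.e (nat_lit 204817) (nat_lit 17) (.e (nat_lit 6198) (nat_lit 332) (.e (nat_lit 2544) (nat_lit 158) (.e (nat_lit 8439) (nat_lit 138) .nil)))))))) (.g (nat_lit 5) .nil .nil))) 
(.lf (nat_lit 20514) (.g (nat_lit 3804) (.e (nat_lit 1181) (nat_lit 87) (.e (nat_lit 57480) (nat_lit 28) (.e (nat_lit 557109) (nat_lit 15) (.e (nat_lit 188452) (nat_lit 23) (.e (nat_lit 204855) (nat_lit 26) (.e (nat_lit 335921) (nat_lit 0) (.e (nat_lit 1023) (nat_lit 81) (.e (nat_lit 5906) (nat_lit 320) .nil)))))))) (.g (nat_lit 5) .nil .nil)))) (.nd (nat_lit 5) 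
(.lf (nat_lit 20498) (.g (nat_lit 5202) (.e (nat_lit 1181) (nat_lit 87) (.e (nat_lit 57480) (nat_lit 28) (.e (nat_lit 557109) (nat_lit 15) (.e (nat_lit 188452) (nat_lit 23) (.e (nat_lit 204848) (nat_lit 25) (.e (nat_lit 327692) (nat_lit 1) (.e (nat_lit 8439) (nat_lit 138) .nil))))))) (.g (nat_lit 4) .nil .nil))) 
(.lf (nat_lit 20530) (.g (nat_lit 4101) (.e (nat_lit 1181) (nat_lit 87) (.e (nat_lit 57480) (nat_lit 28) (.e (nat_lit 557109) (nat_lit 15) (.e (nat_lit 188452) (nat_lit 23) (.e (nat_lit 204855) (nat_lit 26) (.e (nat_lit 335992) (nat_lit 1) (.e (nat_lit 57873) (nat_lit 264) .nil))))))) (.g (nat_lit 5) .nil .nil))))) (.nd (nat_lit 4) (.nd (nat_lit 5) 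
(.lf (nat_lit 20490) (.g (nat_lit 4234) (.e (nat_lit 1181) (nat_lit 87) (.e (nat_lit 57480) (nat_lit 28) (.e (nat_lit 557109) (nat_lit 15) (.e (nat_lit 188452) (nat_lit 23) (.e (nat_lit 204821) (nat_lit 17) (.e (nat_lit 7936) (nat_lit 343) (.e (nat_lit 1183) (nat_lit 87) (.e (nat_lit 57871) (nat_lit 264) .nil)))))))) (.g (nat_lit 4) .nil .nil))) 
(.lf (nat_lit 20522) (.g (nat_lit 4566) (.e (nat_lit 1181) (nat_lit 87) (.e (nat_lit 57480) (nat_lit 28) (.e (nat_lit 557109) (nat_lit 15) (.e (nat_lit 188452) (nat_lit 23) (.e (nat_lit 204855) (nat_lit 26) (.e (nat_lit 335985) (nat_lit 1) (.e (nat_lit 57870) (nat_lit 264) .nil))))))) (.g (nat_lit 0) .nil .nil)))) (.nd (nat_lit 5) 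
(.lf (nat_lit 20506) (.g (nat_lit 2852) (.e (nat_lit 1181) (nat_lit 87) (.e (nat_lit 57480) (nat_lit 28) (.e (nat_lit 557109) (nat_lit 15) (.e (nat_lit 188452) (nat_lit 23) (.e (nat_lit 204852) (nat_lit 26) (.e (nat_lit 336258) (nat_lit 15) (.e (nat_lit 2450) (nat_lit 157) (.e (nat_lit 7450) (nat_lit 396) .nil)))))))) (.g (nat_lit 4) .nil .nil))) 
(.lf (nat_lit 20538) (.g (nat_lit 4538) (.e (nat_lit 1181) (nat_lit 87) (.e (nat_lit 57480) (nat_lit 28) (.e (nat_lit 557109) (nat_lit 15) (.e (nat_lit 188452) (nat_lit 23) (.e (nat_lit 204858) (nat_lit 26) (.e (nat_lit 335991) (nat_lit 1) (.e (nat_lit 57872) (nat_lit 264) .nil))))))) (.g (nat_lit 4) .nil .nil)))))) (.nd (nat_lit 3) (.nd (nat_lit 4) (.nd (nat_lit 5) 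
(.lf (nat_lit 20486) (.g (nat_lit 4356) (.e (nat_lit 1181) (nat_lit 87) (.e (nat_lit 57480) (nat_lit 28) (.e (nat_lit 557109) (nat_lit 15) (.e (nat_lit 188452) (nat_lit 23) (.e (nat_lit 204817) (nat_lit 17) (.e (nat_lit 7936) (nat_lit 346) (.e (nat_lit 57354) (nat_lit 0) (.e (nat_lit 5907) (nat_lit 320) .nil)))))))) (.g (nat_lit 4) .nil .nil))) 
(.lf (nat_lit 20518) (.g (nat_lit 2833) (.e (nat_lit 1181) (nat_lit 87) (.e (nat_lit 57480) (nat_lit 28) (.e (nat_lit 557109) (nat_lit 15) (.e (nat_lit 188452) (nat_lit 23) (.e (nat_lit 204855) (nat_lit 26) (.e (nat_lit 335925) (nat_lit 0) (.e (nat_lit 1023) (nat_lit 81) (.e (nat_lit 5907) (nat_lit 320) .nil)))))))) (.g (nat_lit 4) .nil .nil)))) (.nd (nat_lit 5) 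
(.lf (nat_lit 20502) (.g (nat_lit 2659) (.e (nat_lit 1181) (nat_lit 87) (.e (nat_lit 57480) (nat_lit 28) (.e (nat_lit 557109) (nat_lit 15) (.e (nat_lit 188452) (nat_lit 23) (.e (nat_lit 204852) (nat_lit 26) .nil))))) .nil)) 
(.lf (nat_lit 20534) (.g (nat_lit 5432) (.e (nat_lit 1181) (nat_lit 87) (.e (nat_lit 57480) (nat_lit 28) (.e (nat_lit 557109) (nat_lit 15) (.e (nat_lit 188452) (nat_lit 23) (.e (nat_lit 204856) (nat_lit 26) (.e (nat_lit 335997) (nat_lit 1) (.e (nat_lit 57872) (nat_lit 264) .nil))))))) (.g (nat_lit 7) .nil .nil))))) (.nd (nat_lit 4) (.nd (nat_lit 5) 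
(.lf (nat_lit 20494) (.g (nat_lit 4781) (.e (nat_lit 1181) (nat_lit 87) (.e (nat_lit 57480) (nat_lit 28) (.e (nat_lit 557109) (nat_lit 15) (.e (nat_lit 188452) (nat_lit 23) (.e (nat_lit 204830) (nat_lit 18) .nil))))) .nil)) 
(.lf (nat_lit 20526) (.g (nat_lit 2905) (.e (nat_lit 1181) (nat_lit 87) (.e (nat_lit 57480) (nat_lit 28) (.e (nat_lit 557109) (nat_lit 15) (.e (nat_lit 188452) (nat_lit 23) (.e (nat_lit 204855) (nat_lit 26) (.e (nat_lit 335991) (nat_lit 1) (.e (nat_lit 57872) (nat_lit 264) .nil))))))) (.g (nat_lit 4) .nil .nil)))) (.nd (nat_lit 5) 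
(.lf (nat_lit 20510) (.g (nat_lit 3151) (.e (nat_lit 1181) (nat_lit 87) (.e (nat_lit 57480) (nat_lit 28) (.e (nat_lit 557109) (nat_lit 15) (.e (nat_lit 188452) (nat_lit 23) (.e (nat_lit 204855) (nat_lit 26) (.e (nat_lit 335918) (nat_lit 0) (.e (nat_lit 1023) (nat_lit 81) (.e (nat_lit 5906) (nat_lit 320) .nil)))))))) (.g (nat_lit 4) .nil .nil))) 
(.lf (nat_lit 20542) (.g (nat_lit 3136) (.e (nat_lit 1181) (nat_lit 87) (.e (nat_lit 57480) (nat_lit 28) (.e (nat_lit 557109) (nat_lit 15) (.e (nat_lit 188452) (nat_lit 23) (.e (nat_lit 204859) (nat_lit 26) .nil))))) .nil))))))) (.nd (nat_lit 1) (.nd (nat_lit 2) (.nd (nat_lit 3) (.nd (nat_lit 4) (.nd (nat_lit 5) 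
(.lf (nat_lit 20481) (.g (nat_lit 3763) (.e (nat_lit 1181) (nat_lit 87) (.e (nat_lit 57480) (nat_lit 28) (.e (nat_lit 557109) (nat_lit 15) (.e (nat_lit 188452) (nat_lit 23) (.e (nat_lit 204817) (nat_lit 17) .nil))))) .nil)) 
(.lf (nat_lit 20513) (.g (nat_lit 3166) (.e (nat_lit 1181) (nat_lit 87) (.e (nat_lit 57480) (nat_lit 28) (.e (nat_lit 557109) (nat_lit 15) (.e (nat_lit 188452) (nat_lit 23) (.e (nat_lit 204855) (nat_lit 26) (.e (nat_lit 335921) (nat_lit 0) (.e (nat_lit 1023) (nat_lit 81) (.e (nat_lit 5905) (nat_lit 320) .nil)))))))) (.g (nat_lit 4) .nil .nil)))) (.nd (nat_lit 5) 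
(.lf (nat_lit 20497) (.g (nat_lit 5761) (.e (nat_lit 1181) (nat_lit 87) (.e (nat_lit 57480) (nat_lit 28) (.e (nat_lit 557109) (nat_lit 15) (.e (nat_lit 188452) (nat_lit 23) (.e (nat_lit 204846) (nat_lit 24) (.e (nat_lit 319516) (nat_lit 11) (.e (nat_lit 8484) (nat_lit 168) .nil))))))) (.g (nat_lit 7) .nil .nil))) 
(.lf (nat_lit 20529) (.g (nat_lit 3782) (.e (nat_lit 1181) (nat_lit 87) (.e (nat_lit 57480) (nat_lit 28) (.e (nat_lit 557109) (nat_lit 15) (.e (nat_lit 188452) (nat_lit 23) (.e (nat_lit 204855) (nat_lit 26) (.e (nat_lit 335992) (nat_lit 1) (.e (nat_lit 57872) (nat_lit 264) .nil))))))) (.g (nat_lit 5) .nil .nil))))) (.nd (nat_lit 4) (.nd (nat_lit 5) 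
(.lf (nat_lit 20489) (.g (nat_lit 4491) (.e (nat_lit 1181) (nat_lit 87) (.e (nat_lit 57480) (nat_lit 28) (.e (nat_lit 557109) (nat_lit 15) (.e (nat_lit 188452) (nat_lit 23) (.e (nat_lit 204821) (nat_lit 17) (.e (nat_lit 7936) (nat_lit 343) (.e (nat_lit 1181) (nat_lit 87) (.e (nat_lit 57870) (nat_lit 264) .nil)))))))) (.g (nat_lit 4) .nil .nil))) 
(.lf (nat_lit 20521) (.g (nat_lit 3003) (.e (nat_lit 1181) (nat_lit 87) (.e (nat_lit 57480) (nat_lit 28) (.e (nat_lit 557109) (nat_lit 15) (.e (nat_lit 188452) (nat_lit 23) (.e (nat_lit 204855) (nat_lit 26) (.e (nat_lit 335937) (nat_lit 0) (.e (nat_lit 1023) (nat_lit 81) (.e (nat_lit 5907) (nat_lit 320) .nil)))))))) (.g (nat_lit 4) .nil .nil)))) (.nd (nat_lit 5) 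
(.lf (nat_lit 20505) (.g (nat_lit 3522) (.e (nat_lit 1181) (nat_lit 87) (.e (nat_lit 57480) (nat_lit 28) (.e (nat_lit 557109) (nat_lit 15) (.e (nat_lit 188452) (nat_lit 23) (.e (nat_lit 204852) (nat_lit 26) (.e (nat_lit 343808) (nat_lit 1) (.e (nat_lit 57871) (nat_lit 264) .nil))))))) (.g (nat_lit 4) .nil .nil))) 
(.lf (nat_lit 20537) (.g (nat_lit 4417) (.e (nat_lit 1181) (nat_lit 87) (.e (nat_lit 57480) (nat_lit 28) (.e (nat_lit 557109) (nat_lit 15) (.e (nat_lit 188452) (nat_lit 23) (.e (nat_lit 204857) (nat_lit 26) (.e (nat_lit 335997) (nat_lit 1) (.e (nat_lit 57871) (nat_lit 264) .nil))))))) (.g (nat_lit 4) .nil .nil)))))) (.nd (nat_lit 3) (.nd (nat_lit 4) (.nd (nat_lit 5) 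
(.lf (nat_lit 20485) (.g (nat_lit 4140) (.e (nat_lit 1181) (nat_lit 87) (.e (nat_lit 57480) (nat_lit 28) (.e (nat_lit 557109) (nat_lit 15) (.e (nat_lit 188452) (nat_lit 23) (.e (nat_lit 204817) (nat_lit 17) (.e (nat_lit 7936) (nat_lit 346) (.e (nat_lit 57354) (nat_lit 0) (.e (nat_lit 5906) (nat_lit 320) .nil)))))))) (.g (nat_lit 4) .nil .nil))) 
(.lf (nat_lit 20517) (.g (nat_lit 3162) (.e (nat_lit 1181) (nat_lit 87) (.e (nat_lit 57480) (nat_lit 28) (.e (nat_lit 557109) (nat_lit 15) (.e (nat_lit 188452) (nat_lit 23) (.e (nat_lit 204855) (nat_lit 26) (.e (nat_lit 335925) (nat_lit 0) (.e (nat_lit 1023) (nat_lit 81) (.e (nat_lit 5906) (nat_lit 320) .nil)))))))) (.g (nat_lit 4) .nil .nil)))) (.nd (nat_lit 5) 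
(.lf (nat_lit 20501) (.g (nat_lit 4107) (.e (nat_lit 1181) (nat_lit 87) (.e (nat_lit 57480) (nat_lit 28) (.e (nat_lit 557109) (nat_lit 15) (.e (nat_lit 188452) (nat_lit 23) (.e (nat_lit 204850) (nat_lit 26) (.e (nat_lit 335997) (nat_lit 1) (.e (nat_lit 57871) (nat_lit 264) .nil))))))) (.g (nat_lit 6) .nil .nil))) 
(.lf (nat_lit 20533) (.g (nat_lit 4875) (.e (nat_lit 1181) (nat_lit 87) (.e (nat_lit 57480) (nat_lit 28) (.e (nat_lit 557109) (nat_lit 15) (.e (nat_lit 188452) (nat_lit 23) (.e (nat_lit 204856) (nat_lit 26) (.e (nat_lit 335997) (nat_lit 1) (.e (nat_lit 57871) (nat_lit 264) .nil))))))) (.g (nat_lit 6) .nil .nil))))) (.nd (nat_lit 4) (.nd (nat_lit 5) 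
(.lf (nat_lit 20493) (.g (nat_lit 4121) (.e (nat_lit 1181) (nat_lit 87) (.e (nat_lit 57480) (nat_lit 28) (.e (nat_lit 557109) (nat_lit 15) (.e (nat_lit 188452) (nat_lit 23) (.e (nat_lit 204821) (nat_lit 17) (.e (nat_lit 7936) (nat_lit 346) (.e (nat_lit 57354) (nat_lit 0) (.e (nat_lit 5907) (nat_lit 320) .nil)))))))) (.g (nat_lit 4) .nil .nil))) 
(.lf (nat_lit 20525) (.g (nat_lit 2997) (.e (nat_lit 1181) (nat_lit 87) (.e (nat_lit 57480) (nat_lit 28) (.e (nat_lit 557109) (nat_lit 15) (.e (nat_lit 188452) (nat_lit 23) (.e (nat_lit 204855) (nat_lit 26) (.e (nat_lit 335989) (nat_lit 1) (.e (nat_lit 57872) (nat_lit 264) .nil))))))) (.g (nat_lit 4) .nil .nil)))) (.nd (nat_lit 5) 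
(.lf (nat_lit 20509) (.g (nat_lit 3068) (.e (nat_lit 1181) (nat_lit 87) (.e (nat_lit 57480) (nat_lit 28) (.e (nat_lit 557109) (nat_lit 15) (.e (nat_lit 188452) (nat_lit 23) (.e (nat_lit 204855) (nat_lit 26) (.e (nat_lit 335901) (nat_lit 0) (.e (nat_lit 1095) (nat_lit 81) (.e (nat_lit 5907) (nat_lit 320) .nil)))))))) (.g (nat_lit 4) .nil .nil))) 
(.lf (nat_lit 20541) (.g (nat_lit 5189) (.e (nat_lit 1181) (nat_lit 87) (.e (nat_lit 57480) (nat_lit 28) (.e (nat_lit 557109) (nat_lit 15) (.e (nat_lit 188452) (nat_lit 23) (.e (nat_lit 204858) (nat_lit 26) (.e (nat_lit 335997) (nat_lit 1) (.e (nat_lit 57872) (nat_lit 264) .nil))))))) (.g (nat_lit 5) .nil .nil))))))) (.nd (nat_lit 2) (.nd (nat_lit 3) (.nd (nat_lit 4) (.nd (nat_lit 5) 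
(.lf (nat_lit 20483) (.g (nat_lit 4416) (.e (nat_lit 1181) (nat_lit 87) (.e (nat_lit 57480) (nat_lit 28) (.e (nat_lit 557109) (nat_lit 15) (.e (nat_lit 188452) (nat_lit 23) (.e (nat_lit 204817) (nat_lit 17) (.e (nat_lit 6481) (nat_lit 343) (.e (nat_lit 1181) (nat_lit 87) (.e (nat_lit 57872) (nat_lit 264) .nil)))))))) (.g (nat_lit 4) .nil .nil))) 
(.lf (nat_lit 20515) (.g (nat_lit 2927) (.e (nat_lit 1181) (nat_lit 87) (.e (nat_lit 57480) (nat_lit 28) (.e (nat_lit 557109) (nat_lit 15) (.e (nat_lit 188452) (nat_lit 23) (.e (nat_lit 204855) (nat_lit 26) (.e (nat_lit 335922) (nat_lit 0) (.e (nat_lit 1023) (nat_lit 81) (.e (nat_lit 5907) (nat_lit 320) .nil)))))))) (.g (nat_lit 4) .nil .nil)))) (.nd (nat_lit 5) 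
(.lf (nat_lit 20499) (.g (nat_lit 5674) (.e (nat_lit 1181) (nat_lit 87) (.e (nat_lit 57480) (nat_lit 28) (.e (nat_lit 557109) (nat_lit 15) (.e (nat_lit 188452) (nat_lit 23) (.e (nat_lit 204849) (nat_lit 25) (.e (nat_lit 327692) (nat_lit 1) (.e (nat_lit 8439) (nat_lit 138) .nil))))))) (.g (nat_lit 5) .nil .nil))) 
(.lf (nat_lit 20531) (.g (nat_lit 2477) (.e (nat_lit 1181) (nat_lit 87) (.e (nat_lit 57480) (nat_lit 28) (.e (nat_lit 557109) (nat_lit 15) (.e (nat_lit 188452) (nat_lit 23) (.e (nat_lit 204855) (nat_lit 26) (.e (nat_lit 343808) (nat_lit 1) (.e (nat_lit 57873) (nat_lit 264) .nil))))))) (.g (nat_lit 4) .nil .nil))))) (.nd (nat_lit 4) (.nd (nat_lit 5) 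
(.lf (nat_lit 20491) (.g (nat_lit 4910) (.e (nat_lit 1181) (nat_lit 87) (.e (nat_lit 57480) (nat_lit 28) (.e (nat_lit 557109) (nat_lit 15) (.e (nat_lit 188452) (nat_lit 23) (.e (nat_lit 204821) (nat_lit 17) (.e (nat_lit 7936) (nat_lit 343) (.e (nat_lit 1183) (nat_lit 87) (.e (nat_lit 57872) (nat_lit 264) .nil)))))))) (.g (nat_lit 5) .nil .nil))) 
(.lf (nat_lit 20523) (.g (nat_lit 4167) (.e (nat_lit 1181) (nat_lit 87) (.e (nat_lit 57480) (nat_lit 28) (.e (nat_lit 557109) (nat_lit 15) (.e (nat_lit 188452) (nat_lit 23) (.e (nat_lit 204855) (nat_lit 26) (.e (nat_lit 335985) (nat_lit 1) (.e (nat_lit 57871) (nat_lit 264) .nil))))))) (.g (nat_lit 5) .nil .nil)))) (.nd (nat_lit 5) 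
(.lf (nat_lit 20507) (.g (nat_lit 2313) (.e (nat_lit 1181) (nat_lit 87) (.e (nat_lit 57480) (nat_lit 28) (.e (nat_lit 557109) (nat_lit 15) (.e (nat_lit 188452) (nat_lit 23) (.e (nat_lit 204855) (nat_lit 26) .nil))))) .nil)) 
(.lf (nat_lit 20539) (.g (nat_lit 5155) (.e (nat_lit 1181) (nat_lit 87) (.e (nat_lit 57480) (nat_lit 28) (.e (nat_lit 557109) (nat_lit 15) (.e (nat_lit 188452) (nat_lit 23) (.e (nat_lit 204858) (nat_lit 26) (.e (nat_lit 335997) (nat_lit 1) (.e (nat_lit 57870) (nat_lit 264) .nil))))))) (.g (nat_lit 4) .nil .nil)))))) (.nd (nat_lit 3) (.nd (nat_lit 4) (.nd (nat_lit 5) 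
(.lf (nat_lit 20487) (.g (nat_lit 3445) (.e (nat_lit 1181) (nat_lit 87) (.e (nat_lit 57480) (nat_lit 28) (.e (nat_lit 557109) (nat_lit 15) (.e (nat_lit 188452) (nat_lit 23) (.e (nat_lit 204819) (nat_lit 17) (.e (nat_lit 7936) (nat_lit 343) (.e (nat_lit 1181) (nat_lit 87) (.e (nat_lit 57872) (nat_lit 264) .nil)))))))) (.g (nat_lit 4) .nil .nil))) 
(.lf (nat_lit 20519) (.g (nat_lit 2605) (.e (nat_lit 1181) (nat_lit 87) (.e (nat_lit 57480) (nat_lit 28) (.e (nat_lit 557109) (nat_lit 15) (.e (nat_lit 188452) (nat_lit 23) (.e (nat_lit 204855) (nat_lit 26) (.e (nat_lit 335928) (nat_lit 0) (.e (nat_lit 1023) (nat_lit 81) (.e (nat_lit 5906) (nat_lit 320) .nil)))))))) (.g (nat_lit 4) .nil .nil)))) (.nd (nat_lit 5) 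
(.lf (nat_lit 20503) (.g (nat_lit 3486) (.e (nat_lit 1181) (nat_lit 87) (.e (nat_lit 57480) (nat_lit 28) (.e (nat_lit 557109) (nat_lit 15) (.e (nat_lit 188452) (nat_lit 23) (.e (nat_lit 204852) (nat_lit 26) (.e (nat_lit 336000) (nat_lit 1) (.e (nat_lit 57873) (nat_lit 264) .nil))))))) (.g (nat_lit 4) .nil .nil))) 
(.lf (nat_lit 20535) (.g (nat_lit 3959) (.e (nat_lit 1181) (nat_lit 87) (.e (nat_lit 57480) (nat_lit 28) (.e (nat_lit 557109) (nat_lit 15) (.e (nat_lit 188452) (nat_lit 23) (.e (nat_lit 204857) (nat_lit 26) .nil))))) .nil)))) (.nd (nat_lit 4) (.nd (nat_lit 5) 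
(.lf (nat_lit 20495) (.g (nat_lit 5065) (.e (nat_lit 1181) (nat_lit 87) (.e (nat_lit 57480) (nat_lit 28) (.e (nat_lit 557109) (nat_lit 15) (.e (nat_lit 188452) (nat_lit 23) (.e (nat_lit 204830) (nat_lit 18) (.e (nat_lit 65280) (nat_lit 217) (.e (nat_lit 57367) (nat_lit 1) (.e (nat_lit 57870) (nat_lit 264) .nil)))))))) (.g (nat_lit 4) .nil .nil))) 
(.lf (nat_lit 20527) (.g (nat_lit 4122) (.e (nat_lit 1181) (nat_lit 87) (.e (nat_lit 57480) (nat_lit 28) (.e (nat_lit 557109) (nat_lit 15) (.e (nat_lit 188452) (nat_lit 23) (.e (nat_lit 204855) (nat_lit 26) (.e (nat_lit 335991) (nat_lit 1) (.e (nat_lit 57873) (nat_lit 264) .nil))))))) (.g (nat_lit 5) .nil .nil)))) (.nd (nat_lit 5) 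
(.lf (nat_lit 20511) (.g (nat_lit 3070) (.e (nat_lit 1181) (nat_lit 87) (.e (nat_lit 57480) (nat_lit 28) (.e (nat_lit 557109) (nat_lit 15) (.e (nat_lit 188452) (nat_lit 23) (.e (nat_lit 204855) (nat_lit 26) (.e (nat_lit 335919) (nat_lit 0) (.e (nat_lit 1023) (nat_lit 81) (.e (nat_lit 5906) (nat_lit 320) .nil)))))))) (.g (nat_lit 4) .nil .nil))) 
(.lf (nat_lit 20543) (.g (nat_lit 4487) (.e (nat_lit 1181) (nat_lit 87) (.e (nat_lit 57480) (nat_lit 28) (.e (nat_lit 557109) (nat_lit 15) (.e (nat_lit 188452) (nat_lit 23) (.e (nat_lit 204860) (nat_lit 26) .nil))))) .nil))))))))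

noncomputable def tv286 : DT := (.nd (nat_lit 0) (.nd (nat_lit 1) (.nd (nat_lit 2) (.nd (nat_lit 3) (.nd (nat_lit 4) (.nd (nat_lit 5) 
(.lf (nat_lit 20544) (.g (nat_lit 5232) (.e (nat_lit 1181) (nat_lit 87) (.e (nat_lit 57480) (nat_lit 28) (.e (nat_lit 557109) (nat_lit 15) (.e (nat_lit 188452) (nat_lit 23) (.e (nat_lit 204860) (nat_lit 26) (.e (nat_lit 335995) (nat_lit 1) (.e (nat_lit 57870) (nat_lit 264) .nil))))))) (.g (nat_lit 4) .nil .nil))) 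
(.lf (nat_lit 20576) (.g (nat_lit 5798) (.e (nat_lit 1181) (nat_lit 87) (.e (nat_lit 57480) (nat_lit 28) (.e (nat_lit 557109) (nat_lit 15) (.e (nat_lit 188452) (nat_lit 23) (.e (nat_lit 204864) (nat_lit 27) (.e (nat_lit 344097) (nat_lit 18) (.e (nat_lit 5906) (nat_lit 320) .nil))))))) (.g (nat_lit 7) .nil .nil)))) (.nd (nat_lit 5) 
(.lf (nat_lit 20560) (.g (nat_lit 4766) (.e (nat_lit 1181) (nat_lit 87) (.e (nat_lit 57480) (nat_lit 28) (.e (nat_lit 557109) (nat_lit 15) (.e (nat_lit 188452) (nat_lit 23) (.e (nat_lit 204863) (nat_lit 27) (.e (nat_lit 344096) (nat_lit 18) (.e (nat_lit 5896) (nat_lit 320) .nil))))))) (.g (nat_lit 6) .nil .nil))) 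
(.lf (nat_lit 20592) (.g (nat_lit 4979) (.e (nat_lit 1181) (nat_lit 87) (.e (nat_lit 57480) (nat_lit 28) (.e (nat_lit 557109) (nat_lit 15) (.e (nat_lit 188452) (nat_lit 23) (.e (nat_lit 204872) (nat_lit 30) (.e (nat_lit 368662) (nat_lit 18) (.e (nat_lit 5907) (nat_lit 320) .nil))))))) (.g (nat_lit 0) .nil .nil))))) (.nd (nat_lit 4) (.nd (nat_lit 5) 
(.lf (nat_lit 20552) (.g (nat_lit 4973) (.e (nat_lit 1181) (nat_lit 87) (.e (nat_lit 57480) (nat_lit 28) (.e (nat_lit 557109) (nat_lit 15) (.e (nat_lit 188452) (nat_lit 23) (.e (nat_lit 204861) (nat_lit 26) (.e (nat_lit 335995) (nat_lit 1) (.e (nat_lit 57873) (nat_lit 264) .nil))))))) (.g (nat_lit 4) .nil .nil))) 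
(.lf (nat_lit 20584) (.g (nat_lit 2983) (.e (nat_lit 1181) (nat_lit 87) (.e (nat_lit 57480) (nat_lit 28) (.e (nat_lit 557109) (nat_lit 15) (.e (nat_lit 188452) (nat_lit 23) (.e (nat_lit 204864) (nat_lit 27) (.e (nat_lit 344101) (nat_lit 18) (.e (nat_lit 5902) (nat_lit 320) .nil))))))) (.g (nat_lit 4) .nil .nil)))) (.nd (nat_lit 5) 
(.lf (nat_lit 20568) (.g (nat_lit 4795) (.e (nat_lit 1181) (nat_lit 87) (.e (nat_lit 57480) (nat_lit 28) (.e (nat_lit 557109) (nat_lit 15) (.e (nat_lit 188452) (nat_lit 23) (.e (nat_lit 204864) (nat_lit 27) (.e (nat_lit 344090) (nat_lit 18) (.e (nat_lit 5896) (nat_lit 320) .nil))))))) (.g (nat_lit 6) .nil .nil))) 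
(.lf (nat_lit 20600) (.g (nat_lit 2618) (.e (nat_lit 1181) (nat_lit 87) (.e (nat_lit 57480) (nat_lit 28) (.e (nat_lit 557109) (nat_lit 15) (.e (nat_lit 188452) (nat_lit 23) (.e (nat_lit 204880) (nat_lit 32) .nil))))) .nil))))) (.nd (nat_lit 3) (.nd (nat_lit 4) (.nd (nat_lit 5) 
(.lf (nat_lit 20548) (.g (nat_lit 6423) (.e (nat_lit 1181) (nat_lit 87) (.e (nat_lit 57480) (nat_lit 28) (.e (nat_lit 557109) (nat_lit 15) (.e (nat_lit 188452) (nat_lit 23) (.e (nat_lit 204861) (nat_lit 26) (.e (nat_lit 335986) (nat_lit 1) (.e (nat_lit 57873) (nat_lit 264) .nil))))))) (.g (nat_lit 5) .nil .nil))) 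
(.lf (nat_lit 20580) (.g (nat_lit 3005) (.e (nat_lit 1181) (nat_lit 87) (.e (nat_lit 57480) (nat_lit 28) (.e (nat_lit 557109) (nat_lit 15) (.e (nat_lit 188452) (nat_lit 23) (.e (nat_lit 204864) (nat_lit 27) (.e (nat_lit 344099) (nat_lit 18) (.e (nat_lit 5906) (nat_lit 320) .nil))))))) (.g (nat_lit 4) .nil .nil)))) (.nd (nat_lit 5) 
(.lf (nat_lit 20564) (.g (nat_lit 3956) (.e (nat_lit 1181) (nat_lit 87) (.e (nat_lit 57480) (nat_lit 28) (.e (nat_lit 557109) (nat_lit 15) (.e (nat_lit 188452) (nat_lit 23) (.e (nat_lit 204863) (nat_lit 27) (.e (nat_lit 344099) (nat_lit 18) (.e (nat_lit 5907) (nat_lit 320) .nil))))))) (.g (nat_lit 5) .nil .nil))) 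
(.lf (nat_lit 20596) (.g (nat_lit 3398) (.e (nat_lit 1181) (nat_lit 87) (.e (nat_lit 57480) (nat_lit 28) (.e (nat_lit 557109) (nat_lit 15) (.e (nat_lit 188452) (nat_lit 23) (.e (nat_lit 204874) (nat_lit 30) .nil))))) .nil)))) (.nd (nat_lit 4) (.nd (nat_lit 5) 
(.lf (nat_lit 20556) (.g (nat_lit 4129) (.e (nat_lit 1181) (nat_lit 87) (.e (nat_lit 57480) (nat_lit 28) (.e (nat_lit 557109) (nat_lit 15) (.e (nat_lit 188452) (nat_lit 23) (.e (nat_lit 204862) (nat_lit 27) (.e (nat_lit 344090) (nat_lit 18) (.e (nat_lit 5896) (nat_lit 320) .nil))))))) (.g (nat_lit 5) .nil .nil))) 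
(.lf (nat_lit 20588) (.g (nat_lit 4969) (.e (nat_lit 1181) (nat_lit 87) (.e (nat_lit 57480) (nat_lit 28) (.e (nat_lit 557109) (nat_lit 15) (.e (nat_lit 188452) (nat_lit 23) (.e (nat_lit 204871) (nat_lit 30) (.e (nat_lit 368662) (nat_lit 18) (.e (nat_lit 5907) (nat_lit 320) .nil))))))) (.g (nat_lit 4) .nil .nil)))) (.nd (nat_lit 5) 
(.lf (nat_lit 20572) (.g (nat_lit 4106) (.e (nat_lit 1181) (nat_lit 87) (.e (nat_lit 57480) (nat_lit 28) (.e (nat_lit 557109) (nat_lit 15) (.e (nat_lit 188452) (nat_lit 23) (.e (nat_lit 204864) (nat_lit 27) (.e (nat_lit 344093) (nat_lit 18) (.e (nat_lit 5903) (nat_lit 320) .nil))))))) (.g (nat_lit 5) .nil .nil))) 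
(.lf (nat_lit 20604) (.g (nat_lit 3425) (.e (nat_lit 1181) (nat_lit 87) (.e (nat_lit 57480) (nat_lit 28) (.e (nat_lit 557109) (nat_lit 15) (.e (nat_lit 188458) (nat_lit 25) (.e (nat_lit 245782) (nat_lit 9) (.e (nat_lit 1413) (nat_lit 108) (.e (nat_lit 335997) (nat_lit 1) (.e (nat_lit 57872) (nat_lit 264) .nil)))))))) (.g (nat_lit 4) .nil .nil))))))) 
(.nd (nat_lit 2) (.nd (nat_lit 3) (.nd (nat_lit 4) (.nd (nat_lit 5) 
(.lf (nat_lit 20546) (.g (nat_lit 4889) (.e (nat_lit 1181) (nat_lit 87) (.e (nat_lit 57480) (nat_lit 28) (.e (nat_lit 557109) (nat_lit 15) (.e (nat_lit 188452) (nat_lit 23) (.e (nat_lit 204861) (nat_lit 26) (.e (nat_lit 335986) (nat_lit 1) (.e (nat_lit 57871) (nat_lit 264) .nil))))))) (.g (nat_lit 4) .nil .nil))) 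
(.lf (nat_lit 20578) (.g (nat_lit 3167) (.e (nat_lit 1181) (nat_lit 87) (.e (nat_lit 57480) (nat_lit 28) (.e (nat_lit 557109) (nat_lit 15) (.e (nat_lit 188452) (nat_lit 23) (.e (nat_lit 204864) (nat_lit 27) (.e (nat_lit 344099) (nat_lit 18) (.e (nat_lit 5902) (nat_lit 320) .nil))))))) (.g (nat_lit 4) .nil .nil)))) (.nd (nat_lit 5) 
(.lf (nat_lit 20562) (.g (nat_lit 3173) (.e (nat_lit 1181) (nat_lit 87) (.e (nat_lit 57480) (nat_lit 28) (.e (nat_lit 557109) (nat_lit 15) (.e (nat_lit 188452) (nat_lit 23) (.e (nat_lit 204863) (nat_lit 27) (.e (nat_lit 344099) (nat_lit 18) (.e (nat_lit 5905) (nat_lit 320) .nil))))))) (.g (nat_lit 4) .nil .nil))) 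
(.lf (nat_lit 20594) (.g (nat_lit 3659) (.e (nat_lit 1181) (nat_lit 87) (.e (nat_lit 57480) (nat_lit 28) (.e (nat_lit 557109) (nat_lit 15) (.e (nat_lit 188452) (nat_lit 23) (.e (nat_lit 204873) (nat_lit 30) (.e (nat_lit 368662) (nat_lit 18) (.e (nat_lit 5902) (nat_lit 320) .nil))))))) (.g (nat_lit 4) .nil .nil))))) (.nd (nat_lit 4) (.nd (nat_lit 5) 
(.lf (nat_lit 20554) (.g (nat_lit 3111) (.e (nat_lit 1181) (nat_lit 87) (.e (nat_lit 57480) (nat_lit 28) (.e (nat_lit 557109) (nat_lit 15) (.e (nat_lit 188452) (nat_lit 23) (.e (nat_lit 212736) (nat_lit 26) (.e (nat_lit 335995) (nat_lit 1) (.e (nat_lit 57870) (nat_lit 264) .nil))))))) (.g (nat_lit 4) .nil .nil))) 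
(.lf (nat_lit 20586) (.g (nat_lit 3702) (.e (nat_lit 1181) (nat_lit 87) (.e (nat_lit 57480) (nat_lit 28) (.e (nat_lit 557109) (nat_lit 15) (.e (nat_lit 188452) (nat_lit 23) (.e (nat_lit 204864) (nat_lit 27) (.e (nat_lit 344101) (nat_lit 18) (.e (nat_lit 5907) (nat_lit 320) .nil))))))) (.g (nat_lit 5) .nil .nil)))) (.nd (nat_lit 5) 
(.lf (nat_lit 20570) (.g (nat_lit 3023) (.e (nat_lit 1181) (nat_lit 87) (.e (nat_lit 57480) (nat_lit 28) (.e (nat_lit 557109) (nat_lit 15) (.e (nat_lit 188452) (nat_lit 23) (.e (nat_lit 204864) (nat_lit 27) (.e (nat_lit 344093) (nat_lit 18) (.e (nat_lit 5856) (nat_lit 320) .nil))))))) (.g (nat_lit 4) .nil .nil))) 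
(.lf (nat_lit 20602) (.g (nat_lit 3404) (.e (nat_lit 1181) (nat_lit 87) (.e (nat_lit 57480) (nat_lit 28) (.e (nat_lit 557109) (nat_lit 15) (.e (nat_lit 188458) (nat_lit 25) (.e (nat_lit 245782) (nat_lit 9) .nil))))) .nil))))) (.nd (nat_lit 3) (.nd (nat_lit 4) (.nd (nat_lit 5) 
(.lf (nat_lit 20550) (.g (nat_lit 5934) (.e (nat_lit 1181) (nat_lit 87) (.e (nat_lit 57480) (nat_lit 28) (.e (nat_lit 557109) (nat_lit 15) (.e (nat_lit 188452) (nat_lit 23) (.e (nat_lit 204861) (nat_lit 26) (.e (nat_lit 335995) (nat_lit 1) (.e (nat_lit 57870) (nat_lit 264) .nil))))))) (.g (nat_lit 5) .nil .nil))) 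
(.lf (nat_lit 20582) (.g (nat_lit 3268) (.e (nat_lit 1181) (nat_lit 87) (.e (nat_lit 57480) (nat_lit 28) (.e (nat_lit 557109) (nat_lit 15) (.e (nat_lit 188452) (nat_lit 23) (.e (nat_lit 204864) (nat_lit 27) (.e (nat_lit 344100) (nat_lit 18) (.e (nat_lit 5902) (nat_lit 320) .nil))))))) (.g (nat_lit 4) .nil .nil)))) (.nd (nat_lit 5) 
(.lf (nat_lit 20566) (.g (nat_lit 3051) (.e (nat_lit 1181) (nat_lit 87) (.e (nat_lit 57480) (nat_lit 28) (.e (nat_lit 557109) (nat_lit 15) (.e (nat_lit 188452) (nat_lit 23) (.e (nat_lit 204864) (nat_lit 27) (.e (nat_lit 344087) (nat_lit 18) (.e (nat_lit 5902) (nat_lit 320) .nil))))))) (.g (nat_lit 4) .nil .nil))) 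
(.lf (nat_lit 20598) (.g (nat_lit 4508) (.e (nat_lit 1181) (nat_lit 87) (.e (nat_lit 57480) (nat_lit 28) (.e (nat_lit 557109) (nat_lit 15) (.e (nat_lit 188452) (nat_lit 23) (.e (nat_lit 204874) (nat_lit 30) (.e (nat_lit 368662) (nat_lit 18) (.e (nat_lit 5905) (nat_lit 320) .nil))))))) (.g (nat_lit 5) .nil .nil))))) (.nd (nat_lit 4) (.nd (nat_lit 5) 
(.lf (nat_lit 20558) (.g (nat_lit 4909) (.e (nat_lit 1181) (nat_lit 87) (.e (nat_lit 57480) (nat_lit 28) (.e (nat_lit 557109) (nat_lit 15) (.e (nat_lit 188452) (nat_lit 23) (.e (nat_lit 204863) (nat_lit 27) (.e (nat_lit 344090) (nat_lit 18) (.e (nat_lit 5896) (nat_lit 320) .nil))))))) (.g (nat_lit 6) .nil .nil))) 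
(.lf (nat_lit 20590) (.g (nat_lit 3046) (.e (nat_lit 1181) (nat_lit 87) (.e (nat_lit 57480) (nat_lit 28) (.e (nat_lit 557109) (nat_lit 15) (.e (nat_lit 188452) (nat_lit 23) (.e (nat_lit 204872) (nat_lit 30) (.e (nat_lit 368662) (nat_lit 18) (.e (nat_lit 5905) (nat_lit 320) .nil))))))) (.g (nat_lit 4) .nil .nil)))) (.nd (nat_lit 5) 
(.lf (nat_lit 20574) (.g (nat_lit 3865) (.e (nat_lit 1181) (nat_lit 87) (.e (nat_lit 57480) (nat_lit 28) (.e (nat_lit 557109) (nat_lit 15) (.e (nat_lit 188452) (nat_lit 23) (.e (nat_lit 204864) (nat_lit 27) (.e (nat_lit 344096) (nat_lit 18) (.e (nat_lit 5896) (nat_lit 320) .nil))))))) (.g (nat_lit 5) .nil .nil))) 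
(.lf (nat_lit 20606) (.g (nat_lit 3910) (.e (nat_lit 1181) (nat_lit 87) (.e (nat_lit 57480) (nat_lit 28) (.e (nat_lit 557109) (nat_lit 15) (.e (nat_lit 188458) (nat_lit 25) (.e (nat_lit 245784) (nat_lit 9) (.e (nat_lit 1413) (nat_lit 108) (.e (nat_lit 335997) (nat_lit 1) (.e (nat_lit 57871) (nat_lit 264) .nil)))))))) (.g (nat_lit 4) .nil .nil)))))))) 
(.nd (nat_lit 1) (.nd (nat_lit 2) (.nd (nat_lit 3) (.nd (nat_lit 4) (.nd (nat_lit 5) 
(.lf (nat_lit 20545) (.g (nat_lit 6698) (.e (nat_lit 1181) (nat_lit 87) (.e (nat_lit 57480) (nat_lit 28) (.e (nat_lit 557109) (nat_lit 15) (.e (nat_lit 188452) (nat_lit 23) (.e (nat_lit 204860) (nat_lit 26) (.e (nat_lit 335995) (nat_lit 1) (.e (nat_lit 57872) (nat_lit 264) .nil))))))) (.g (nat_lit 7) .nil .nil))) 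
(.lf (nat_lit 20577) (.g (nat_lit 6269) (.e (nat_lit 1181) (nat_lit 87) (.e (nat_lit 57480) (nat_lit 28) (.e (nat_lit 557109) (nat_lit 15) (.e (nat_lit 188452) (nat_lit 23) (.e (nat_lit 204864) (nat_lit 27) (.e (nat_lit 344097) (nat_lit 18) (.e (nat_lit 5907) (nat_lit 320) .nil))))))) (.g (nat_lit 0) .nil .nil)))) (.nd (nat_lit 5) 
(.lf (nat_lit 20561) (.g (nat_lit 4560) (.e (nat_lit 1181) (nat_lit 87) (.e (nat_lit 57480) (nat_lit 28) (.e (nat_lit 557109) (nat_lit 15) (.e (nat_lit 188452) (nat_lit 23) (.e (nat_lit 204863) (nat_lit 27) (.e (nat_lit 344097) (nat_lit 18) (.e (nat_lit 5905) (nat_lit 320) .nil))))))) (.g (nat_lit 6) .nil .nil))) 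
(.lf (nat_lit 20593) (.g (nat_lit 2900) (.e (nat_lit 1181) (nat_lit 87) (.e (nat_lit 57480) (nat_lit 28) (.e (nat_lit 557109) (nat_lit 15) (.e (nat_lit 188452) (nat_lit 23) (.e (nat_lit 204873) (nat_lit 30) .nil))))) .nil)))) (.nd (nat_lit 4) (.nd (nat_lit 5) 
(.lf (nat_lit 20553) (.g (nat_lit 7040) (.e (nat_lit 1181) (nat_lit 87) (.e (nat_lit 57480) (nat_lit 28) (.e (nat_lit 557109) (nat_lit 15) (.e (nat_lit 188452) (nat_lit 23) (.e (nat_lit 204861) (nat_lit 26) (.e (nat_lit 335996) (nat_lit 1) (.e (nat_lit 57870) (nat_lit 264) .nil))))))) (.g (nat_lit 6) .nil .nil))) 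
(.lf (nat_lit 20585) (.g (nat_lit 2952) (.e (nat_lit 1181) (nat_lit 87) (.e (nat_lit 57480) (nat_lit 28) (.e (nat_lit 557109) (nat_lit 15) (.e (nat_lit 188452) (nat_lit 23) (.e (nat_lit 204864) (nat_lit 27) (.e (nat_lit 344101) (nat_lit 18) (.e (nat_lit 5906) (nat_lit 320) .nil))))))) (.g (nat_lit 4) .nil .nil)))) (.nd (nat_lit 5) 
(.lf (nat_lit 20569) (.g (nat_lit 4361) (.e (nat_lit 1181) (nat_lit 87) (.e (nat_lit 57480) (nat_lit 28) (.e (nat_lit 557109) (nat_lit 15) (.e (nat_lit 188452) (nat_lit 23) (.e (nat_lit 204864) (nat_lit 27) (.e (nat_lit 344091) (nat_lit 18) (.e (nat_lit 5896) (nat_lit 320) .nil))))))) (.g (nat_lit 5) .nil .nil))) 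
(.lf (nat_lit 20601) (.g (nat_lit 2417) (.e (nat_lit 1181) (nat_lit 87) (.e (nat_lit 57480) (nat_lit 28) (.e (nat_lit 557109) (nat_lit 15) (.e (nat_lit 188457) (nat_lit 25) .nil)))) .nil))))) (.nd (nat_lit 3) (.nd (nat_lit 4) (.nd (nat_lit 5) 
(.lf (nat_lit 20549) (.g (nat_lit 5172) (.e (nat_lit 1181) (nat_lit 87) (.e (nat_lit 57480) (nat_lit 28) (.e (nat_lit 557109) (nat_lit 15) (.e (nat_lit 188452) (nat_lit 23) (.e (nat_lit 204861) (nat_lit 26) (.e (nat_lit 335994) (nat_lit 1) (.e (nat_lit 57870) (nat_lit 264) .nil))))))) (.g (nat_lit 4) .nil .nil))) 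
(.lf (nat_lit 20581) (.g (nat_lit 3910) (.e (nat_lit 1181) (nat_lit 87) (.e (nat_lit 57480) (nat_lit 28) (.e (nat_lit 557109) (nat_lit 15) (.e (nat_lit 188452) (nat_lit 23) (.e (nat_lit 204864) (nat_lit 27) (.e (nat_lit 344099) (nat_lit 18) (.e (nat_lit 5907) (nat_lit 320) .nil))))))) (.g (nat_lit 5) .nil .nil)))) (.nd (nat_lit 5) 
(.lf (nat_lit 20565) (.g (nat_lit 3926) (.e (nat_lit 1181) (nat_lit 87) (.e (nat_lit 57480) (nat_lit 28) (.e (nat_lit 557109) (nat_lit 15) (.e (nat_lit 188452) (nat_lit 23) (.e (nat_lit 204863) (nat_lit 27) (.e (nat_lit 344101) (nat_lit 18) (.e (nat_lit 5907) (nat_lit 320) .nil))))))) (.g (nat_lit 5) .nil .nil))) 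
(.lf (nat_lit 20597) (.g (nat_lit 4327) (.e (nat_lit 1181) (nat_lit 87) (.e (nat_lit 57480) (nat_lit 28) (.e (nat_lit 557109) (nat_lit 15) (.e (nat_lit 188452) (nat_lit 23) (.e (nat_lit 204874) (nat_lit 30) (.e (nat_lit 368662) (nat_lit 18) (.e (nat_lit 5902) (nat_lit 320) .nil))))))) (.g (nat_lit 4) .nil .nil))))) (.nd (nat_lit 4) (.nd (nat_lit 5) 
(.lf (nat_lit 20557) (.g (nat_lit 4416) (.e (nat_lit 1181) (nat_lit 87) (.e (nat_lit 57480) (nat_lit 28) (.e (nat_lit 557109) (nat_lit 15) (.e (nat_lit 188452) (nat_lit 23) (.e (nat_lit 204862) (nat_lit 27) (.e (nat_lit 344097) (nat_lit 18) (.e (nat_lit 5905) (nat_lit 320) .nil))))))) (.g (nat_lit 6) .nil .nil))) 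
(.lf (nat_lit 20589) (.g (nat_lit 2918) (.e (nat_lit 1181) (nat_lit 87) (.e (nat_lit 57480) (nat_lit 28) (.e (nat_lit 557109) (nat_lit 15) (.e (nat_lit 188452) (nat_lit 23) (.e (nat_lit 204872) (nat_lit 30) (.e (nat_lit 368662) (nat_lit 18) (.e (nat_lit 5902) (nat_lit 320) .nil))))))) (.g (nat_lit 4) .nil .nil)))) (.nd (nat_lit 5) 
(.lf (nat_lit 20573) (.g (nat_lit 4063) (.e (nat_lit 1181) (nat_lit 87) (.e (nat_lit 57480) (nat_lit 28) (.e (nat_lit 557109) (nat_lit 15) (.e (nat_lit 188452) (nat_lit 23) (.e (nat_lit 204864) (nat_lit 27) (.e (nat_lit 344095) (nat_lit 18) (.e (nat_lit 5896) (nat_lit 320) .nil))))))) (.g (nat_lit 5) .nil .nil))) 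
(.lf (nat_lit 20605) (.g (nat_lit 2929) (.e (nat_lit 1181) (nat_lit 87) (.e (nat_lit 57480) (nat_lit 28) (.e (nat_lit 557109) (nat_lit 15) (.e (nat_lit 188458) (nat_lit 25) (.e (nat_lit 245784) (nat_lit 9) .nil))))) .nil)))))) (.nd (nat_lit 2) (.nd (nat_lit 3) (.nd (nat_lit 4) (.nd (nat_lit 5) 
(.lf (nat_lit 20547) (.g (nat_lit 5169) (.e (nat_lit 1181) (nat_lit 87) (.e (nat_lit 57480) (nat_lit 28) (.e (nat_lit 557109) (nat_lit 15) (.e (nat_lit 188452) (nat_lit 23) (.e (nat_lit 204861) (nat_lit 26) (.e (nat_lit 335986) (nat_lit 1) (.e (nat_lit 57872) (nat_lit 264) .nil))))))) (.g (nat_lit 4) .nil .nil))) 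
(.lf (nat_lit 20579) (.g (nat_lit 3125) (.e (nat_lit 1181) (nat_lit 87) (.e (nat_lit 57480) (nat_lit 28) (.e (nat_lit 557109) (nat_lit 15) (.e (nat_lit 188452) (nat_lit 23) (.e (nat_lit 204864) (nat_lit 27) (.e (nat_lit 344099) (nat_lit 18) (.e (nat_lit 5905) (nat_lit 320) .nil))))))) (.g (nat_lit 4) .nil .nil)))) (.nd (nat_lit 5) 
(.lf (nat_lit 20563) (.g (nat_lit 3053) (.e (nat_lit 1181) (nat_lit 87) (.e (nat_lit 57480) (nat_lit 28) (.e (nat_lit 557109) (nat_lit 15) (.e (nat_lit 188452) (nat_lit 23) (.e (nat_lit 204863) (nat_lit 27) (.e (nat_lit 344099) (nat_lit 18) (.e (nat_lit 5906) (nat_lit 320) .nil))))))) (.g (nat_lit 4) .nil .nil))) 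
(.lf (nat_lit 20595) (.g (nat_lit 3788) (.e (nat_lit 1181) (nat_lit 87) (.e (nat_lit 57480) (nat_lit 28) (.e (nat_lit 557109) (nat_lit 15) (.e (nat_lit 188452) (nat_lit 23) (.e (nat_lit 204873) (nat_lit 30) (.e (nat_lit 368662) (nat_lit 18) (.e (nat_lit 5905) (nat_lit 320) .nil))))))) (.g (nat_lit 4) .nil .nil))))) (.nd (nat_lit 4) (.nd (nat_lit 5) 
(.lf (nat_lit 20555) (.g (nat_lit 3870) (.e (nat_lit 1181) (nat_lit 87) (.e (nat_lit 57480) (nat_lit 28) (.e (nat_lit 557109) (nat_lit 15) (.e (nat_lit 188452) (nat_lit 23) (.e (nat_lit 212736) (nat_lit 26) (.e (nat_lit 335995) (nat_lit 1) (.e (nat_lit 57872) (nat_lit 264) .nil))))))) (.g (nat_lit 4) .nil .nil))) 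
(.lf (nat_lit 20587) (.g (nat_lit 4526) (.e (nat_lit 1181) (nat_lit 87) (.e (nat_lit 57480) (nat_lit 28) (.e (nat_lit 557109) (nat_lit 15) (.e (nat_lit 188452) (nat_lit 23) (.e (nat_lit 204871) (nat_lit 30) (.e (nat_lit 368662) (nat_lit 18) (.e (nat_lit 5906) (nat_lit 320) .nil))))))) (.g (nat_lit 4) .nil .nil)))) (.nd (nat_lit 5) 
(.lf (nat_lit 20571) (.g (nat_lit 3678) (.e (nat_lit 1181) (nat_lit 87) (.e (nat_lit 57480) (nat_lit 28) (.e (nat_lit 557109) (nat_lit 15) (.e (nat_lit 188452) (nat_lit 23) (.e (nat_lit 204864) (nat_lit 27) (.e (nat_lit 344093) (nat_lit 18) (.e (nat_lit 5902) (nat_lit 320) .nil))))))) (.g (nat_lit 5) .nil .nil))) 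
(.lf (nat_lit 20603) (.g (nat_lit 3445) (.e (nat_lit 1181) (nat_lit 87) (.e (nat_lit 57480) (nat_lit 28) (.e (nat_lit 557109) (nat_lit 15) (.e (nat_lit 188458) (nat_lit 25) (.e (nat_lit 245782) (nat_lit 9) (.e (nat_lit 1413) (nat_lit 108) (.e (nat_lit 335997) (nat_lit 1) (.e (nat_lit 57870) (nat_lit 264) .nil)))))))) (.g (nat_lit 4) .nil .nil)))))) 
(.nd (nat_lit 3) (.nd (nat_lit 4) (.nd (nat_lit 5) 
(.lf (nat_lit 20551) (.g (nat_lit 7431) (.e (nat_lit 1181) (nat_lit 87) (.e (nat_lit 57480) (nat_lit 28) (.e (nat_lit 557109) (nat_lit 15) (.e (nat_lit 188452) (nat_lit 23) (.e (nat_lit 204861) (nat_lit 26) (.e (nat_lit 335995) (nat_lit 1) (.e (nat_lit 57872) (nat_lit 264) .nil))))))) (.g (nat_lit 7) .nil .nil))) 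
(.lf (nat_lit 20583) (.g (nat_lit 4141) (.e (nat_lit 1181) (nat_lit 87) (.e (nat_lit 57480) (nat_lit 28) (.e (nat_lit 557109) (nat_lit 15) (.e (nat_lit 188452) (nat_lit 23) (.e (nat_lit 204864) (nat_lit 27) (.e (nat_lit 344100) (nat_lit 18) (.e (nat_lit 5906) (nat_lit 320) .nil))))))) (.g (nat_lit 5) .nil .nil)))) (.nd (nat_lit 5) 
(.lf (nat_lit 20567) (.g (nat_lit 3124) (.e (nat_lit 1181) (nat_lit 87) (.e (nat_lit 57480) (nat_lit 28) (.e (nat_lit 557109) (nat_lit 15) (.e (nat_lit 188452) (nat_lit 23) (.e (nat_lit 204864) (nat_lit 27) (.e (nat_lit 344088) (nat_lit 18) (.e (nat_lit 5896) (nat_lit 320) .nil))))))) (.g (nat_lit 4) .nil .nil))) 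
(.lf (nat_lit 20599) (.g (nat_lit 5901) (.e (nat_lit 1181) (nat_lit 87) (.e (nat_lit 57480) (nat_lit 28) (.e (nat_lit 557109) (nat_lit 15) (.e (nat_lit 188452) (nat_lit 23) (.e (nat_lit 204874) (nat_lit 30) (.e (nat_lit 368662) (nat_lit 18) (.e (nat_lit 5906) (nat_lit 320) .nil))))))) (.g (nat_lit 0) .nil .nil))))) (.nd (nat_lit 4) (.nd (nat_lit 5) 
(.lf (nat_lit 20559) (.g (nat_lit 2968) (.e (nat_lit 1181) (nat_lit 87) (.e (nat_lit 57480) (nat_lit 28) (.e (nat_lit 557109) (nat_lit 15) (.e (nat_lit 188452) (nat_lit 23) (.e (nat_lit 204863) (nat_lit 27) (.e (nat_lit 344095) (nat_lit 18) (.e (nat_lit 5896) (nat_lit 320) .nil))))))) (.g (nat_lit 4) .nil .nil))) 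
(.lf (nat_lit 20591) (.g (nat_lit 4792) (.e (nat_lit 1181) (nat_lit 87) (.e (nat_lit 57480) (nat_lit 28) (.e (nat_lit 557109) (nat_lit 15) (.e (nat_lit 188452) (nat_lit 23) (.e (nat_lit 204872) (nat_lit 30) (.e (nat_lit 368662) (nat_lit 18) (.e (nat_lit 5906) (nat_lit 320) .nil))))))) (.g (nat_lit 7) .nil .nil)))) (.nd (nat_lit 5) 
(.lf (nat_lit 20575) (.g (nat_lit 4764) (.e (nat_lit 1181) (nat_lit 87) (.e (nat_lit 57480) (nat_lit 28) (.e (nat_lit 557109) (nat_lit 15) (.e (nat_lit 188452) (nat_lit 23) (.e (nat_lit 204864) (nat_lit 27) (.e (nat_lit 344097) (nat_lit 18) (.e (nat_lit 5905) (nat_lit 320) .nil))))))) (.g (nat_lit 6) .nil .nil))) 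
(.lf (nat_lit 20607) (.g (nat_lit 2991) (.e (nat_lit 1181) (nat_lit 87) (.e (nat_lit 57480) (nat_lit 28) (.e (nat_lit 557109) (nat_lit 15) (.e (nat_lit 188458) (nat_lit 25) (.e (nat_lit 245784) (nat_lit 9) (.e (nat_lit 1456) (nat_lit 108) (.e (nat_lit 335997) (nat_lit 1) (.e (nat_lit 57870) (nat_lit 264) .nil)))))))) (.g (nat_lit 4) .nil .nil)))))))))

noncomputable def tv287 : DT := (.nd (nat_lit 0) (.nd (nat_lit 1) (.nd (nat_lit 2) (.nd (nat_lit 3) (.nd (nat_lit 4) (.nd (nat_lit 5) 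
(.lf (nat_lit 20608) (.g (nat_lit 3006) (.e (nat_lit 1181) (nat_lit 87) (.e (nat_lit 57480) (nat_lit 28) (.e (nat_lit 557109) (nat_lit 15) (.e (nat_lit 188458) (nat_lit 25) (.e (nat_lit 245784) (nat_lit 9) (.e (nat_lit 1456) (nat_lit 108) (.e (nat_lit 335997) (nat_lit 1) (.e (nat_lit 57872) (nat_lit 264) .nil)))))))) (.g (nat_lit 4) .nil .nil))) 
(.lf (nat_lit 20640) (.g (nat_lit 622) (.e (nat_lit 1181) (nat_lit 87) (.e (nat_lit 57847) (nat_lit 252) (.e (nat_lit 57409) (nat_lit 12) .nil))) .nil))) (.nd (nat_lit 5) 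
(.lf (nat_lit 20624) (.g (nat_lit 3454) (.e (nat_lit 1181) (nat_lit 87) (.e (nat_lit 57655) (nat_lit 152) (.e (nat_lit 1203) (nat_lit 88) (.e (nat_lit 65586) (nat_lit 7) (.e (nat_lit 319534) (nat_lit 16) (.e (nat_lit 286756) (nat_lit 10) (.e (nat_lit 344160) (nat_lit 37) (.e (nat_lit 647195) (nat_lit 9) .nil)))))))) (.g (nat_lit 5) .nil .nil))) 
(.lf (nat_lit 20656) (.g (nat_lit 1808) (.e (nat_lit 1181) (nat_lit 87) (.e (nat_lit 57847) (nat_lit 252) (.e (nat_lit 57411) (nat_lit 12) (.e (nat_lit 336211) (nat_lit 13) (.e (nat_lit 393268) (nat_lit 23) (.e (nat_lit 426444) (nat_lit 19) (.e (nat_lit 106517) (nat_lit 9) .nil))))))) (.g (nat_lit 4) .nil .nil))))) (.nd (nat_lit 4) (.nd (nat_lit 5) 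
(.lf (nat_lit 20616) (.g (nat_lit 2530) (.e (nat_lit 1181) (nat_lit 87) (.e (nat_lit 57520) (nat_lit 44) (.e (nat_lit 688177) (nat_lit 16) (.e (nat_lit 65583) (nat_lit 7) (.e (nat_lit 319530) (nat_lit 16) (.e (nat_lit 286759) (nat_lit 12) (.e (nat_lit 385045) (nat_lit 21) (.e (nat_lit 7450) (nat_lit 396) .nil)))))))) (.g (nat_lit 4) .nil .nil))) 
(.lf (nat_lit 20648) (.g (nat_lit 2329) (.e (nat_lit 1181) (nat_lit 87) (.e (nat_lit 57847) (nat_lit 252) (.e (nat_lit 57410) (nat_lit 12) (.e (nat_lit 336211) (nat_lit 13) (.e (nat_lit 393291) (nat_lit 26) (.e (nat_lit 475201) (nat_lit 40) (.e (nat_lit 704655) (nat_lit 9) .nil))))))) (.g (nat_lit 5) .nil .nil)))) (.nd (nat_lit 5) 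
(.lf (nat_lit 20632) (.g (nat_lit 388) (.e (nat_lit 1181) (nat_lit 87) (.e (nat_lit 57683) (nat_lit 155) (.e (nat_lit 122924) (nat_lit 19) .nil))) .nil)) 
(.lf (nat_lit 20664) (.g (nat_lit 1790) (.e (nat_lit 1181) (nat_lit 87) (.e (nat_lit 57847) (nat_lit 252) (.e (nat_lit 57435) (nat_lit 17) (.e (nat_lit 376842) (nat_lit 11) (.e (nat_lit 426198) (nat_lit 9) .nil))))) .nil))))) (.nd (nat_lit 3) (.nd (nat_lit 4) (.nd (nat_lit 5) 
(.lf (nat_lit 20612) (.g (nat_lit 2969) (.e (nat_lit 1181) (nat_lit 87) (.e (nat_lit 57480) (nat_lit 28) (.e (nat_lit 557109) (nat_lit 15) (.e (nat_lit 188458) (nat_lit 25) (.e (nat_lit 245784) (nat_lit 9) (.e (nat_lit 1605) (nat_lit 112) (.e (nat_lit 368662) (nat_lit 18) (.e (nat_lit 5907) (nat_lit 320) .nil)))))))) (.g (nat_lit 4) .nil .nil))) 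
(.lf (nat_lit 20644) (.g (nat_lit 2183) (.e (nat_lit 1181) (nat_lit 87) (.e (nat_lit 57847) (nat_lit 252) (.e (nat_lit 57410) (nat_lit 12) (.e (nat_lit 336211) (nat_lit 13) (.e (nat_lit 393268) (nat_lit 23) (.e (nat_lit 426444) (nat_lit 19) (.e (nat_lit 106504) (nat_lit 9) .nil))))))) (.g (nat_lit 5) .nil .nil)))) (.nd (nat_lit 5) 
(.lf (nat_lit 20628) (.g (nat_lit 407) (.e (nat_lit 1181) (nat_lit 87) (.e (nat_lit 57681) (nat_lit 155) (.e (nat_lit 122919) (nat_lit 15) .nil))) .nil)) 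
(.lf (nat_lit 20660) (.g (nat_lit 2381) (.e (nat_lit 1181) (nat_lit 87) (.e (nat_lit 57847) (nat_lit 252) (.e (nat_lit 57411) (nat_lit 12) (.e (nat_lit 336211) (nat_lit 13) (.e (nat_lit 393291) (nat_lit 26) (.e (nat_lit 475201) (nat_lit 40) (.e (nat_lit 704655) (nat_lit 9) .nil))))))) (.g (nat_lit 5) .nil .nil))))) (.nd (nat_lit 4) (.nd (nat_lit 5) 
(.lf (nat_lit 20620) (.g (nat_lit 2521) (.e (nat_lit 1181) (nat_lit 87) (.e (nat_lit 57520) (nat_lit 44) (.e (nat_lit 688177) (nat_lit 16) (.e (nat_lit 65586) (nat_lit 7) (.e (nat_lit 319533) (nat_lit 16) (.e (nat_lit 286753) (nat_lit 10) (.e (nat_lit 344097) (nat_lit 18) (.e (nat_lit 5907) (nat_lit 320) .nil)))))))) (.g (nat_lit 4) .nil .nil))) 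
(.lf (nat_lit 20652) (.g (nat_lit 1441) (.e (nat_lit 1181) (nat_lit 87) (.e (nat_lit 57847) (nat_lit 252) (.e (nat_lit 57411) (nat_lit 12) (.e (nat_lit 336211) (nat_lit 13) (.e (nat_lit 393268) (nat_lit 23) .nil))))) .nil))) (.nd (nat_lit 5) 
(.lf (nat_lit 20636) (.g (nat_lit 1859) (.e (nat_lit 1181) (nat_lit 87) (.e (nat_lit 57846) (nat_lit 252) (.e (nat_lit 57435) (nat_lit 17) (.e (nat_lit 376842) (nat_lit 11) (.e (nat_lit 426306) (nat_lit 12) .nil))))) .nil)) 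
(.lf (nat_lit 20668) (.g (nat_lit 2745) (.e (nat_lit 1181) (nat_lit 87) (.e (nat_lit 57847) (nat_lit 252) (.e (nat_lit 57435) (nat_lit 17) (.e (nat_lit 376842) (nat_lit 11) (.e (nat_lit 426306) (nat_lit 12) (.e (nat_lit 475201) (nat_lit 40) (.e (nat_lit 704655) (nat_lit 9) .nil))))))) (.g (nat_lit 5) .nil .nil))))))) (.nd (nat_lit 2) (.nd (nat_lit 3) (.nd (nat_lit 4) (.nd (nat_lit 5) 
(.lf (nat_lit 20610) (.g (nat_lit 2993) (.e (nat_lit 1181) (nat_lit 87) (.e (nat_lit 57480) (nat_lit 28) (.e (nat_lit 557109) (nat_lit 15) (.e (nat_lit 188458) (nat_lit 25) (.e (nat_lit 245784) (nat_lit 9) (.e (nat_lit 1524) (nat_lit 108) (.e (nat_lit 335996) (nat_lit 1) (.e (nat_lit 57870) (nat_lit 264) .nil)))))))) (.g (nat_lit 4) .nil .nil))) 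
(.lf (nat_lit 20642) (.g (nat_lit 2284) (.e (nat_lit 1181) (nat_lit 87) (.e (nat_lit 57847) (nat_lit 252) (.e (nat_lit 57410) (nat_lit 12) (.e (nat_lit 336211) (nat_lit 13) (.e (nat_lit 393268) (nat_lit 23) (.e (nat_lit 426440) (nat_lit 19) (.e (nat_lit 106520) (nat_lit 9) .nil))))))) (.g (nat_lit 5) .nil .nil)))) (.nd (nat_lit 5) 
(.lf (nat_lit 20626) (.g (nat_lit 4122) (.e (nat_lit 1181) (nat_lit 87) (.e (nat_lit 57681) (nat_lit 155) (.e (nat_lit 122905) (nat_lit 12) (.e (nat_lit 336060) (nat_lit 7) (.e (nat_lit 319533) (nat_lit 16) (.e (nat_lit 286753) (nat_lit 10) (.e (nat_lit 344160) (nat_lit 37) (.e (nat_lit 647195) (nat_lit 9) .nil)))))))) (.g (nat_lit 7) .nil .nil))) 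
(.lf (nat_lit 20658) (.g (nat_lit 2126) (.e (nat_lit 1181) (nat_lit 87) (.e (nat_lit 57847) (nat_lit 252) (.e (nat_lit 57411) (nat_lit 12) (.e (nat_lit 336211) (nat_lit 13) (.e (nat_lit 393273) (nat_lit 23) (.e (nat_lit 426444) (nat_lit 19) (.e (nat_lit 106520) (nat_lit 9) .nil))))))) (.g (nat_lit 4) .nil .nil))))) (.nd (nat_lit 4) (.nd (nat_lit 5) 
(.lf (nat_lit 20618) (.g (nat_lit 3376) (.e (nat_lit 1181) (nat_lit 87) (.e (nat_lit 57520) (nat_lit 44) (.e (nat_lit 688177) (nat_lit 16) (.e (nat_lit 65586) (nat_lit 7) (.e (nat_lit 319531) (nat_lit 16) (.e (nat_lit 286751) (nat_lit 10) (.e (nat_lit 344097) (nat_lit 18) (.e (nat_lit 5907) (nat_lit 320) .nil)))))))) (.g (nat_lit 5) .nil .nil))) 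
(.lf (nat_lit 20650) (.g (nat_lit 2719) (.e (nat_lit 1181) (nat_lit 87) (.e (nat_lit 57847) (nat_lit 252) (.e (nat_lit 57410) (nat_lit 12) (.e (nat_lit 336211) (nat_lit 13) (.e (nat_lit 393291) (nat_lit 26) (.e (nat_lit 475201) (nat_lit 40) (.e (nat_lit 704659) (nat_lit 9) .nil))))))) (.g (nat_lit 6) .nil .nil)))) (.nd (nat_lit 5) 
(.lf (nat_lit 20634) (.g (nat_lit 3410) (.e (nat_lit 1181) (nat_lit 87) (.e (nat_lit 57684) (nat_lit 155) (.e (nat_lit 122905) (nat_lit 12) (.e (nat_lit 336060) (nat_lit 7) (.e (nat_lit 319534) (nat_lit 16) (.e (nat_lit 286756) (nat_lit 10) (.e (nat_lit 344160) (nat_lit 37) (.e (nat_lit 647195) (nat_lit 9) .nil)))))))) (.g (nat_lit 6) .nil .nil))) 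
(.lf (nat_lit 20666) (.g (nat_lit 3479) (.e (nat_lit 1181) (nat_lit 87) (.e (nat_lit 57847) (nat_lit 252) (.e (nat_lit 57435) (nat_lit 17) (.e (nat_lit 376842) (nat_lit 11) (.e (nat_lit 426306) (nat_lit 12) (.e (nat_lit 475201) (nat_lit 40) (.e (nat_lit 704620) (nat_lit 9) .nil))))))) (.g (nat_lit 6) .nil .nil)))))) (.nd (nat_lit 3) (.nd (nat_lit 4) (.nd (nat_lit 5) 
(.lf (nat_lit 20614) (.g (nat_lit 3726) (.e (nat_lit 1181) (nat_lit 87) (.e (nat_lit 57480) (nat_lit 28) (.e (nat_lit 557109) (nat_lit 15) (.e (nat_lit 188458) (nat_lit 25) (.e (nat_lit 245791) (nat_lit 14) (.e (nat_lit 73732) (nat_lit 0) (.e (nat_lit 5907) (nat_lit 320) .nil))))))) (.g (nat_lit 4) .nil .nil))) 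
(.lf (nat_lit 20646) (.g (nat_lit 2762) (.e (nat_lit 1181) (nat_lit 87) (.e (nat_lit 57847) (nat_lit 252) (.e (nat_lit 57410) (nat_lit 12) (.e (nat_lit 336211) (nat_lit 13) (.e (nat_lit 393268) (nat_lit 23) (.e (nat_lit 426444) (nat_lit 19) (.e (nat_lit 106520) (nat_lit 9) .nil))))))) (.g (nat_lit 6) .nil .nil)))) (.nd (nat_lit 5) 
(.lf (nat_lit 20630) (.g (nat_lit 2111) (.e (nat_lit 1181) (nat_lit 87) (.e (nat_lit 57681) (nat_lit 155) (.e (nat_lit 122919) (nat_lit 15) (.e (nat_lit 360492) (nat_lit 22) .nil)))) .nil)) 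
(.lf (nat_lit 20662) (.g (nat_lit 3352) (.e (nat_lit 1181) (nat_lit 87) (.e (nat_lit 57847) (nat_lit 252) (.e (nat_lit 57435) (nat_lit 17) (.e (nat_lit 376842) (nat_lit 11) (.e (nat_lit 426188) (nat_lit 9) (.e (nat_lit 426444) (nat_lit 19) (.e (nat_lit 106504) (nat_lit 9) .nil))))))) (.g (nat_lit 5) .nil .nil))))) (.nd (nat_lit 4) (.nd (nat_lit 5) 
(.lf (nat_lit 20622) (.g (nat_lit 3938) (.e (nat_lit 1181) (nat_lit 87) (.e (nat_lit 57520) (nat_lit 44) (.e (nat_lit 688177) (nat_lit 16) (.e (nat_lit 65586) (nat_lit 7) (.e (nat_lit 319534) (nat_lit 16) (.e (nat_lit 286756) (nat_lit 10) (.e (nat_lit 344097) (nat_lit 18) (.e (nat_lit 5907) (nat_lit 320) .nil)))))))) (.g (nat_lit 6) .nil .nil))) 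
(.lf (nat_lit 20654) (.g (nat_lit 3064) (.e (nat_lit 1181) (nat_lit 87) (.e (nat_lit 57847) (nat_lit 252) (.e (nat_lit 57411) (nat_lit 12) (.e (nat_lit 336211) (nat_lit 13) (.e (nat_lit 393268) (nat_lit 23) (.e (nat_lit 426440) (nat_lit 19) (.e (nat_lit 106526) (nat_lit 9) .nil))))))) (.g (nat_lit 6) .nil .nil)))) (.nd (nat_lit 5) 
(.lf (nat_lit 20638) (.g (nat_lit 4390) (.e (nat_lit 1181) (nat_lit 87) (.e (nat_lit 57847) (nat_lit 252) (.e (nat_lit 57365) (nat_lit 1) (.e (nat_lit 57851) (nat_lit 252) (.e (nat_lit 57354) (nat_lit 0) (.e (nat_lit 1855) (nat_lit 124) (.e (nat_lit 557109) (nat_lit 15) (.e (nat_lit 188461) (nat_lit 26) (.e (nat_lit 253959) (nat_lit 9) .nil))))))))) (.g (nat_lit 7) .nil .nil))) 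
(.lf (nat_lit 20670) (.g (nat_lit 1975) (.e (nat_lit 1181) (nat_lit 87) (.e (nat_lit 57847) (nat_lit 252) (.e (nat_lit 57435) (nat_lit 17) (.e (nat_lit 376842) (nat_lit 11) (.e (nat_lit 426306) (nat_lit 12) (.e (nat_lit 475201) (nat_lit 40) (.e (nat_lit 704657) (nat_lit 9) .nil))))))) (.g (nat_lit 4) .nil .nil)))))))) 
(.nd (nat_lit 1) (.nd (nat_lit 2) (.nd (nat_lit 3) (.nd (nat_lit 4) (.nd (nat_lit 5) 
(.lf (nat_lit 20609) (.g (nat_lit 3039) (.e (nat_lit 1181) (nat_lit 87) (.e (nat_lit 57480) (nat_lit 28) (.e (nat_lit 557109) (nat_lit 15) (.e (nat_lit 188458) (nat_lit 25) (.e (nat_lit 245784) (nat_lit 9) (.e (nat_lit 1524) (nat_lit 108) (.e (nat_lit 335995) (nat_lit 1) (.e (nat_lit 57870) (nat_lit 264) .nil)))))))) (.g (nat_lit 4) .nil .nil))) 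
(.lf (nat_lit 20641) (.g (nat_lit 426) (.e (nat_lit 1181) (nat_lit 87) (.e (nat_lit 57847) (nat_lit 252) (.e (nat_lit 57410) (nat_lit 12) .nil))) .nil))) (.nd (nat_lit 5) 
(.lf (nat_lit 20625) (.g (nat_lit 1446) (.e (nat_lit 1181) (nat_lit 87) (.e (nat_lit 57666) (nat_lit 152) (.e (nat_lit 1077) (nat_lit 81) (.e (nat_lit 1656) (nat_lit 115) (.e (nat_lit 401152) (nat_lit 11) .nil))))) .nil)) 
(.lf (nat_lit 20657) (.g (nat_lit 2779) (.e (nat_lit 1181) (nat_lit 87) (.e (nat_lit 57847) (nat_lit 252) (.e (nat_lit 57411) (nat_lit 12) (.e (nat_lit 336211) (nat_lit 13) (.e (nat_lit 393268) (nat_lit 23) (.e (nat_lit 426444) (nat_lit 19) (.e (nat_lit 106520) (nat_lit 9) .nil))))))) (.g (nat_lit 6) .nil .nil))))) (.nd (nat_lit 4) (.nd (nat_lit 5) 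
(.lf (nat_lit 20617) (.g (nat_lit 3242) (.e (nat_lit 1181) (nat_lit 87) (.e (nat_lit 57520) (nat_lit 44) (.e (nat_lit 688177) (nat_lit 16) (.e (nat_lit 65583) (nat_lit 7) (.e (nat_lit 319534) (nat_lit 16) (.e (nat_lit 286756) (nat_lit 10) (.e (nat_lit 344097) (nat_lit 18) (.e (nat_lit 5907) (nat_lit 320) .nil)))))))) (.g (nat_lit 5) .nil .nil))) 
(.lf (nat_lit 20649) (.g (nat_lit 1836) (.e (nat_lit 1181) (nat_lit 87) (.e (nat_lit 57847) (nat_lit 252) (.e (nat_lit 57410) (nat_lit 12) (.e (nat_lit 336211) (nat_lit 13) (.e (nat_lit 393291) (nat_lit 26) (.e (nat_lit 475201) (nat_lit 40) (.e (nat_lit 704656) (nat_lit 9) .nil))))))) (.g (nat_lit 4) .nil .nil)))) (.nd (nat_lit 5) 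
(.lf (nat_lit 20633) (.g (nat_lit 2776) (.e (nat_lit 1181) (nat_lit 87) (.e (nat_lit 57684) (nat_lit 155) (.e (nat_lit 122905) (nat_lit 12) (.e (nat_lit 336060) (nat_lit 7) (.e (nat_lit 319533) (nat_lit 16) (.e (nat_lit 286753) (nat_lit 10) (.e (nat_lit 344160) (nat_lit 37) (.e (nat_lit 647195) (nat_lit 9) .nil)))))))) (.g (nat_lit 5) .nil .nil))) 
(.lf (nat_lit 20665) (.g (nat_lit 1653) (.e (nat_lit 1181) (nat_lit 87) (.e (nat_lit 57847) (nat_lit 252) (.e (nat_lit 57435) (nat_lit 17) (.e (nat_lit 376842) (nat_lit 11) (.e (nat_lit 426298) (nat_lit 11) .nil))))) .nil))))) (.nd (nat_lit 3) (.nd (nat_lit 4) (.nd (nat_lit 5) 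
(.lf (nat_lit 20613) (.g (nat_lit 3312) (.e (nat_lit 1181) (nat_lit 87) (.e (nat_lit 57480) (nat_lit 28) (.e (nat_lit 557109) (nat_lit 15) (.e (nat_lit 188458) (nat_lit 25) (.e (nat_lit 245791) (nat_lit 14) .nil))))) .nil)) 
(.lf (nat_lit 20645) (.g (nat_lit 1791) (.e (nat_lit 1181) (nat_lit 87) (.e (nat_lit 57847) (nat_lit 252) (.e (nat_lit 57410) (nat_lit 12) (.e (nat_lit 336211) (nat_lit 13) (.e (nat_lit 393268) (nat_lit 23) (.e (nat_lit 426444) (nat_lit 19) (.e (nat_lit 106517) (nat_lit 9) .nil))))))) (.g (nat_lit 4) .nil .nil)))) (.nd (nat_lit 5) 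
(.lf (nat_lit 20629) (.g (nat_lit 2130) (.e (nat_lit 1181) (nat_lit 87) (.e (nat_lit 57681) (nat_lit 155) (.e (nat_lit 122919) (nat_lit 15) (.e (nat_lit 360491) (nat_lit 22) .nil)))) .nil)) 
(.lf (nat_lit 20661) (.g (nat_lit 2771) (.e (nat_lit 1181) (nat_lit 87) (.e (nat_lit 57847) (nat_lit 252) (.e (nat_lit 57411) (nat_lit 12) (.e (nat_lit 336211) (nat_lit 13) (.e (nat_lit 393291) (nat_lit 26) (.e (nat_lit 475201) (nat_lit 40) (.e (nat_lit 704659) (nat_lit 9) .nil))))))) (.g (nat_lit 6) .nil .nil))))) (.nd (nat_lit 4) (.nd (nat_lit 5) 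
(.lf (nat_lit 20621) (.g (nat_lit 2477) (.e (nat_lit 1181) (nat_lit 87) (.e (nat_lit 57520) (nat_lit 44) (.e (nat_lit 688177) (nat_lit 16) (.e (nat_lit 65586) (nat_lit 7) (.e (nat_lit 319534) (nat_lit 16) (.e (nat_lit 286756) (nat_lit 10) (.e (nat_lit 344097) (nat_lit 18) (.e (nat_lit 5906) (nat_lit 320) .nil)))))))) (.g (nat_lit 4) .nil .nil))) 
(.lf (nat_lit 20653) (.g (nat_lit 2303) (.e (nat_lit 1181) (nat_lit 87) (.e (nat_lit 57847) (nat_lit 252) (.e (nat_lit 57411) (nat_lit 12) (.e (nat_lit 336211) (nat_lit 13) (.e (nat_lit 393268) (nat_lit 23) (.e (nat_lit 426440) (nat_lit 19) (.e (nat_lit 106520) (nat_lit 9) .nil))))))) (.g (nat_lit 4) .nil .nil)))) (.nd (nat_lit 5) 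
(.lf (nat_lit 20637) (.g (nat_lit 2646) (.e (nat_lit 1181) (nat_lit 87) (.e (nat_lit 57846) (nat_lit 252) (.e (nat_lit 57437) (nat_lit 17) (.e (nat_lit 376842) (nat_lit 11) (.e (nat_lit 426188) (nat_lit 9) (.e (nat_lit 426444) (nat_lit 19) (.e (nat_lit 106520) (nat_lit 9) .nil))))))) (.g (nat_lit 4) .nil .nil))) 
(.lf (nat_lit 20669) (.g (nat_lit 2127) (.e (nat_lit 1181) (nat_lit 87) (.e (nat_lit 57847) (nat_lit 252) (.e (nat_lit 57435) (nat_lit 17) (.e (nat_lit 376842) (nat_lit 11) (.e (nat_lit 426306) (nat_lit 12) (.e (nat_lit 475201) (nat_lit 40) (.e (nat_lit 704656) (nat_lit 9) .nil))))))) (.g (nat_lit 4) .nil .nil))))))) (.nd (nat_lit 2) (.nd (nat_lit 3) (.nd (nat_lit 4) (.nd (nat_lit 5) 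
(.lf (nat_lit 20611) (.g (nat_lit 3015) (.e (nat_lit 1181) (nat_lit 87) (.e (nat_lit 57480) (nat_lit 28) (.e (nat_lit 557109) (nat_lit 15) (.e (nat_lit 188458) (nat_lit 25) (.e (nat_lit 245784) (nat_lit 9) (.e (nat_lit 1604) (nat_lit 112) (.e (nat_lit 368662) (nat_lit 18) (.e (nat_lit 5907) (nat_lit 320) .nil)))))))) (.g (nat_lit 4) .nil .nil))) 
(.lf (nat_lit 20643) (.g (nat_lit 3045) (.e (nat_lit 1181) (nat_lit 87) (.e (nat_lit 57847) (nat_lit 252) (.e (nat_lit 57410) (nat_lit 12) (.e (nat_lit 336211) (nat_lit 13) (.e (nat_lit 393268) (nat_lit 23) (.e (nat_lit 426440) (nat_lit 19) (.e (nat_lit 106526) (nat_lit 9) .nil))))))) (.g (nat_lit 6) .nil .nil)))) (.nd (nat_lit 5) 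
(.lf (nat_lit 20627) (.g (nat_lit 4174) (.e (nat_lit 1181) (nat_lit 87) (.e (nat_lit 57681) (nat_lit 155) (.e (nat_lit 122907) (nat_lit 12) (.e (nat_lit 336060) (nat_lit 7) (.e (nat_lit 319533) (nat_lit 16) (.e (nat_lit 286753) (nat_lit 10) (.e (nat_lit 344160) (nat_lit 37) (.e (nat_lit 647195) (nat_lit 9) .nil)))))))) (.g (nat_lit 7) .nil .nil))) 
(.lf (nat_lit 20659) (.g (nat_lit 3290) (.e (nat_lit 1181) (nat_lit 87) (.e (nat_lit 57847) (nat_lit 252) (.e (nat_lit 57411) (nat_lit 12) (.e (nat_lit 336211) (nat_lit 13) (.e (nat_lit 393291) (nat_lit 26) (.e (nat_lit 475201) (nat_lit 40) (.e (nat_lit 704620) (nat_lit 9) .nil))))))) (.g (nat_lit 7) .nil .nil))))) (.nd (nat_lit 4) (.nd (nat_lit 5) 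
(.lf (nat_lit 20619) (.g (nat_lit 2674) (.e (nat_lit 1181) (nat_lit 87) (.e (nat_lit 57520) (nat_lit 44) (.e (nat_lit 688177) (nat_lit 16) (.e (nat_lit 65586) (nat_lit 7) (.e (nat_lit 319531) (nat_lit 16) (.e (nat_lit 286759) (nat_lit 12) (.e (nat_lit 385045) (nat_lit 21) (.e (nat_lit 7450) (nat_lit 396) .nil)))))))) (.g (nat_lit 4) .nil .nil))) 
(.lf (nat_lit 20651) (.g (nat_lit 1834) (.e (nat_lit 1181) (nat_lit 87) (.e (nat_lit 57847) (nat_lit 252) (.e (nat_lit 57410) (nat_lit 12) (.e (nat_lit 336211) (nat_lit 13) (.e (nat_lit 393291) (nat_lit 26) (.e (nat_lit 475201) (nat_lit 40) (.e (nat_lit 704664) (nat_lit 9) .nil))))))) (.g (nat_lit 4) .nil .nil)))) (.nd (nat_lit 5) 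
(.lf (nat_lit 20635) (.g (nat_lit 2523) (.e (nat_lit 1181) (nat_lit 87) (.e (nat_lit 57846) (nat_lit 252) (.e (nat_lit 57435) (nat_lit 17) (.e (nat_lit 376842) (nat_lit 11) (.e (nat_lit 426188) (nat_lit 9) (.e (nat_lit 426444) (nat_lit 19) (.e (nat_lit 106520) (nat_lit 9) .nil))))))) (.g (nat_lit 4) .nil .nil))) 
(.lf (nat_lit 20667) (.g (nat_lit 1985) (.e (nat_lit 1181) (nat_lit 87) (.e (nat_lit 57847) (nat_lit 252) (.e (nat_lit 57435) (nat_lit 17) (.e (nat_lit 376842) (nat_lit 11) (.e (nat_lit 426306) (nat_lit 12) (.e (nat_lit 475201) (nat_lit 40) (.e (nat_lit 704654) (nat_lit 9) .nil))))))) (.g (nat_lit 4) .nil .nil)))))) (.nd (nat_lit 3) (.nd (nat_lit 4) (.nd (nat_lit 5) 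
(.lf (nat_lit 20615) (.g (nat_lit 3372) (.e (nat_lit 1181) (nat_lit 87) (.e (nat_lit 57480) (nat_lit 28) (.e (nat_lit 557109) (nat_lit 15) (.e (nat_lit 188458) (nat_lit 25) (.e (nat_lit 245794) (nat_lit 17) .nil))))) .nil)) 
(.lf (nat_lit 20647) (.g (nat_lit 2079) (.e (nat_lit 1181) (nat_lit 87) (.e (nat_lit 57847) (nat_lit 252) (.e (nat_lit 57410) (nat_lit 12) (.e (nat_lit 336211) (nat_lit 13) (.e (nat_lit 393273) (nat_lit 23) (.e (nat_lit 426444) (nat_lit 19) (.e (nat_lit 106520) (nat_lit 9) .nil))))))) (.g (nat_lit 4) .nil .nil)))) (.nd (nat_lit 5) 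
(.lf (nat_lit 20631) (.g (nat_lit 572) (.e (nat_lit 1181) (nat_lit 87) (.e (nat_lit 57681) (nat_lit 155) (.e (nat_lit 122925) (nat_lit 19) .nil))) .nil)) 
(.lf (nat_lit 20663) (.g (nat_lit 4021) (.e (nat_lit 1181) (nat_lit 87) (.e (nat_lit 57847) (nat_lit 252) (.e (nat_lit 57435) (nat_lit 17) (.e (nat_lit 376842) (nat_lit 11) (.e (nat_lit 426188) (nat_lit 9) (.e (nat_lit 426444) (nat_lit 19) (.e (nat_lit 106520) (nat_lit 9) .nil))))))) (.g (nat_lit 6) .nil .nil))))) (.nd (nat_lit 4) (.nd (nat_lit 5) 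
(.lf (nat_lit 20623) (.g (nat_lit 3037) (.e (nat_lit 1181) (nat_lit 87) (.e (nat_lit 57540) (nat_lit 46) (.e (nat_lit 704738) (nat_lit 11) (.e (nat_lit 16425) (nat_lit 7) (.e (nat_lit 409649) (nat_lit 18) (.e (nat_lit 303140) (nat_lit 10) (.e (nat_lit 434202) (nat_lit 18) (.e (nat_lit 5529) (nat_lit 306) .nil)))))))) (.g (nat_lit 5) .nil .nil))) 
(.lf (nat_lit 20655) (.g (nat_lit 2200) (.e (nat_lit 1181) (nat_lit 87) (.e (nat_lit 57847) (nat_lit 252) (.e (nat_lit 57411) (nat_lit 12) (.e (nat_lit 336211) (nat_lit 13) (.e (nat_lit 393268) (nat_lit 23) (.e (nat_lit 426444) (nat_lit 19) (.e (nat_lit 106504) (nat_lit 9) .nil))))))) (.g (nat_lit 4) .nil .nil)))) (.nd (nat_lit 5) 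
(.lf (nat_lit 20639) (.g (nat_lit 1583) (.e (nat_lit 1181) (nat_lit 87) (.e (nat_lit 57847) (nat_lit 252) (.e (nat_lit 57407) (nat_lit 12) (.e (nat_lit 336454) (nat_lit 34) .nil)))) .nil)) 
(.lf (nat_lit 20671) (.g (nat_lit 2381) (.e (nat_lit 1181) (nat_lit 87) (.e (nat_lit 57847) (nat_lit 252) (.e (nat_lit 57435) (nat_lit 17) (.e (nat_lit 376842) (nat_lit 11) (.e (nat_lit 426306) (nat_lit 12) (.e (nat_lit 475201) (nat_lit 40) (.e (nat_lit 704658) (nat_lit 9) .nil))))))) (.g (nat_lit 4) .nil .nil)))))))))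

noncomputable def tv288 : DT := (.nd (nat_lit 0) (.nd (nat_lit 1) (.nd (nat_lit 2) (.nd (nat_lit 3) (.nd (nat_lit 4) (.nd (nat_lit 5) 
(.lf (nat_lit 20672) (.g (nat_lit 3375) (.e (nat_lit 1181) (nat_lit 87) (.e (nat_lit 57847) (nat_lit 252) (.e (nat_lit 57435) (nat_lit 17) (.e (nat_lit 376842) (nat_lit 11) (.e (nat_lit 426306) (nat_lit 12) (.e (nat_lit 475201) (nat_lit 40) (.e (nat_lit 704659) (nat_lit 9) .nil))))))) (.g (nat_lit 6) .nil .nil))) 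
(.lf (nat_lit 20704) (.g (nat_lit 1154) (.e (nat_lit 1181) (nat_lit 87) (.e (nat_lit 57848) (nat_lit 252) (.e (nat_lit 57407) (nat_lit 12) (.e (nat_lit 336454) (nat_lit 34) .nil)))) .nil))) (.nd (nat_lit 5) 
(.lf (nat_lit 20688) (.g (nat_lit 2202) (.e (nat_lit 1181) (nat_lit 87) (.e (nat_lit 57847) (nat_lit 252) (.e (nat_lit 57437) (nat_lit 17) (.e (nat_lit 376842) (nat_lit 11) (.e (nat_lit 426306) (nat_lit 12) (.e (nat_lit 475201) (nat_lit 40) (.e (nat_lit 704664) (nat_lit 9) .nil))))))) (.g (nat_lit 4) .nil .nil))) 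
(.lf (nat_lit 20720) (.g (nat_lit 805) (.e (nat_lit 1181) (nat_lit 87) (.e (nat_lit 57849) (nat_lit 252) (.e (nat_lit 57379) (nat_lit 3) .nil))) .nil)))) (.nd (nat_lit 4) (.nd (nat_lit 5) 
(.lf (nat_lit 20680) (.g (nat_lit 3494) (.e (nat_lit 1181) (nat_lit 87) (.e (nat_lit 57847) (nat_lit 252) (.e (nat_lit 57437) (nat_lit 17) (.e (nat_lit 376842) (nat_lit 11) (.e (nat_lit 426306) (nat_lit 12) (.e (nat_lit 475201) (nat_lit 40) (.e (nat_lit 704620) (nat_lit 9) .nil))))))) (.g (nat_lit 6) .nil .nil))) 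
(.lf (nat_lit 20712) (.g (nat_lit 971) (.e (nat_lit 1181) (nat_lit 87) (.e (nat_lit 57848) (nat_lit 252) (.e (nat_lit 57437) (nat_lit 17) (.e (nat_lit 376842) (nat_lit 11) .nil)))) .nil))) (.nd (nat_lit 5) 
(.lf (nat_lit 20696) (.g (nat_lit 4427) (.e (nat_lit 1181) (nat_lit 87) (.e (nat_lit 57848) (nat_lit 252) (.e (nat_lit 57368) (nat_lit 1) (.e (nat_lit 57854) (nat_lit 252) (.e (nat_lit 57373) (nat_lit 2) (.e (nat_lit 98048) (nat_lit 6) (.e (nat_lit 81962) (nat_lit 25) (.e (nat_lit 139271) (nat_lit 0) .nil)))))))) (.g (nat_lit 5) .nil .nil))) 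
(.lf (nat_lit 20728) (.g (nat_lit 3404) (.e (nat_lit 1181) (nat_lit 87) (.e (nat_lit 57849) (nat_lit 252) (.e (nat_lit 57435) (nat_lit 17) (.e (nat_lit 376842) (nat_lit 11) (.e (nat_lit 426188) (nat_lit 9) (.e (nat_lit 426444) (nat_lit 19) (.e (nat_lit 106520) (nat_lit 9) .nil))))))) (.g (nat_lit 5) .nil .nil)))))) (.nd (nat_lit 3) (.nd (nat_lit 4) (.nd (nat_lit 5) 
(.lf (nat_lit 20676) (.g (nat_lit 2119) (.e (nat_lit 1181) (nat_lit 87) (.e (nat_lit 57847) (nat_lit 252) (.e (nat_lit 57435) (nat_lit 17) (.e (nat_lit 376842) (nat_lit 11) (.e (nat_lit 426306) (nat_lit 12) (.e (nat_lit 475201) (nat_lit 40) (.e (nat_lit 704671) (nat_lit 9) .nil))))))) (.g (nat_lit 4) .nil .nil))) 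
(.lf (nat_lit 20708) (.g (nat_lit 2942) (.e (nat_lit 1181) (nat_lit 87) (.e (nat_lit 57848) (nat_lit 252) (.e (nat_lit 57435) (nat_lit 17) (.e (nat_lit 376842) (nat_lit 11) (.e (nat_lit 426188) (nat_lit 9) (.e (nat_lit 426444) (nat_lit 19) (.e (nat_lit 106520) (nat_lit 9) .nil))))))) (.g (nat_lit 5) .nil .nil)))) (.nd (nat_lit 5) 
(.lf (nat_lit 20692) (.g (nat_lit 4019) (.e (nat_lit 1181) (nat_lit 87) (.e (nat_lit 57848) (nat_lit 252) (.e (nat_lit 57365) (nat_lit 1) (.e (nat_lit 57854) (nat_lit 252) (.e (nat_lit 57373) (nat_lit 2) (.e (nat_lit 98048) (nat_lit 6) (.e (nat_lit 81960) (nat_lit 25) (.e (nat_lit 139271) (nat_lit 0) .nil)))))))) (.g (nat_lit 5) .nil .nil))) 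
(.lf (nat_lit 20724) (.g (nat_lit 2303) (.e (nat_lit 1181) (nat_lit 87) (.e (nat_lit 57849) (nat_lit 252) (.e (nat_lit 57411) (nat_lit 12) (.e (nat_lit 336211) (nat_lit 13) (.e (nat_lit 393268) (nat_lit 23) (.e (nat_lit 426440) (nat_lit 19) (.e (nat_lit 106526) (nat_lit 9) .nil))))))) (.g (nat_lit 4) .nil .nil))))) (.nd (nat_lit 4) (.nd (nat_lit 5) 
(.lf (nat_lit 20684) (.g (nat_lit 1981) (.e (nat_lit 1181) (nat_lit 87) (.e (nat_lit 57847) (nat_lit 252) (.e (nat_lit 57437) (nat_lit 17) (.e (nat_lit 376842) (nat_lit 11) (.e (nat_lit 426306) (nat_lit 12) (.e (nat_lit 475201) (nat_lit 40) (.e (nat_lit 704657) (nat_lit 9) .nil))))))) (.g (nat_lit 4) .nil .nil))) 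
(.lf (nat_lit 20716) (.g (nat_lit 2500) (.e (nat_lit 1181) (nat_lit 87) (.e (nat_lit 57848) (nat_lit 252) (.e (nat_lit 57437) (nat_lit 17) (.e (nat_lit 376842) (nat_lit 11) (.e (nat_lit 426306) (nat_lit 12) (.e (nat_lit 475201) (nat_lit 40) (.e (nat_lit 704620) (nat_lit 9) .nil))))))) (.g (nat_lit 4) .nil .nil)))) (.nd (nat_lit 5) 
(.lf (nat_lit 20700) (.g (nat_lit 3358) (.e (nat_lit 1181) (nat_lit 87) (.e (nat_lit 57848) (nat_lit 252) (.e (nat_lit 57375) (nat_lit 2) (.e (nat_lit 90160) (nat_lit 11) (.e (nat_lit 24608) (nat_lit 3) .nil))))) .nil)) 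
(.lf (nat_lit 20732) (.g (nat_lit 1645) (.e (nat_lit 1181) (nat_lit 87) (.e (nat_lit 57849) (nat_lit 252) (.e (nat_lit 57437) (nat_lit 17) (.e (nat_lit 376842) (nat_lit 11) .nil)))) .nil)))))) (.nd (nat_lit 2) (.nd (nat_lit 3) (.nd (nat_lit 4) (.nd (nat_lit 5) 
(.lf (nat_lit 20674) (.g (nat_lit 2235) (.e (nat_lit 1181) (nat_lit 87) (.e (nat_lit 57847) (nat_lit 252) (.e (nat_lit 57435) (nat_lit 17) (.e (nat_lit 376842) (nat_lit 11) (.e (nat_lit 426306) (nat_lit 12) (.e (nat_lit 475201) (nat_lit 40) (.e (nat_lit 704664) (nat_lit 9) .nil))))))) (.g (nat_lit 4) .nil .nil))) 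
(.lf (nat_lit 20706) (.g (nat_lit 1395) (.e (nat_lit 1181) (nat_lit 87) (.e (nat_lit 57848) (nat_lit 252) (.e (nat_lit 57411) (nat_lit 12) (.e (nat_lit 336211) (nat_lit 13) .nil)))) .nil))) (.nd (nat_lit 5) 
(.lf (nat_lit 20690) (.g (nat_lit 811) (.e (nat_lit 1181) (nat_lit 87) (.e (nat_lit 57847) (nat_lit 252) (.e (nat_lit 57446) (nat_lit 19) .nil))) .nil)) 
(.lf (nat_lit 20722) (.g (nat_lit 1260) (.e (nat_lit 1181) (nat_lit 87) (.e (nat_lit 57849) (nat_lit 252) (.e (nat_lit 57410) (nat_lit 12) (.e (nat_lit 336211) (nat_lit 13) .nil)))) .nil)))) (.nd (nat_lit 4) (.nd (nat_lit 5) 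
(.lf (nat_lit 20682) (.g (nat_lit 2739) (.e (nat_lit 1181) (nat_lit 87) (.e (nat_lit 57847) (nat_lit 252) (.e (nat_lit 57437) (nat_lit 17) (.e (nat_lit 376842) (nat_lit 11) (.e (nat_lit 426306) (nat_lit 12) (.e (nat_lit 475201) (nat_lit 40) (.e (nat_lit 704655) (nat_lit 9) .nil))))))) (.g (nat_lit 5) .nil .nil))) 
(.lf (nat_lit 20714) (.g (nat_lit 3012) (.e (nat_lit 1181) (nat_lit 87) (.e (nat_lit 57848) (nat_lit 252) (.e (nat_lit 57437) (nat_lit 17) (.e (nat_lit 376842) (nat_lit 11) (.e (nat_lit 426188) (nat_lit 9) (.e (nat_lit 426444) (nat_lit 19) (.e (nat_lit 106520) (nat_lit 9) .nil))))))) (.g (nat_lit 5) .nil .nil)))) (.nd (nat_lit 5) 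
(.lf (nat_lit 20698) (.g (nat_lit 2156) (.e (nat_lit 1181) (nat_lit 87) (.e (nat_lit 57848) (nat_lit 252) (.e (nat_lit 57375) (nat_lit 2) (.e (nat_lit 90128) (nat_lit 9) (.e (nat_lit 297) (nat_lit 22) .nil))))) .nil)) 
(.lf (nat_lit 20730) (.g (nat_lit 2721) (.e (nat_lit 1181) (nat_lit 87) (.e (nat_lit 57849) (nat_lit 252) (.e (nat_lit 57435) (nat_lit 17) (.e (nat_lit 376842) (nat_lit 11) (.e (nat_lit 426306) (nat_lit 12) (.e (nat_lit 475201) (nat_lit 40) (.e (nat_lit 704659) (nat_lit 9) .nil))))))) (.g (nat_lit 4) .nil .nil)))))) (.nd (nat_lit 3) (.nd (nat_lit 4) (.nd (nat_lit 5) 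
(.lf (nat_lit 20678) (.g (nat_lit 4075) (.e (nat_lit 1181) (nat_lit 87) (.e (nat_lit 57847) (nat_lit 252) (.e (nat_lit 57437) (nat_lit 17) (.e (nat_lit 376842) (nat_lit 11) (.e (nat_lit 426188) (nat_lit 9) (.e (nat_lit 426444) (nat_lit 19) (.e (nat_lit 106520) (nat_lit 9) .nil))))))) (.g (nat_lit 6) .nil .nil))) 
(.lf (nat_lit 20710) (.g (nat_lit 1729) (.e (nat_lit 1181) (nat_lit 87) (.e (nat_lit 57848) (nat_lit 252) (.e (nat_lit 57435) (nat_lit 17) (.e (nat_lit 376842) (nat_lit 11) (.e (nat_lit 426306) (nat_lit 12) (.e (nat_lit 475201) (nat_lit 40) (.e (nat_lit 704655) (nat_lit 9) .nil))))))) (.g (nat_lit 4) .nil .nil)))) (.nd (nat_lit 5) 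
(.lf (nat_lit 20694) (.g (nat_lit 2038) (.e (nat_lit 1181) (nat_lit 87) (.e (nat_lit 57848) (nat_lit 252) (.e (nat_lit 57367) (nat_lit 1) (.e (nat_lit 57848) (nat_lit 252) (.e (nat_lit 57355) (nat_lit 0) (.e (nat_lit 1858) (nat_lit 124) (.e (nat_lit 557109) (nat_lit 15) (.e (nat_lit 188461) (nat_lit 26) (.e (nat_lit 253959) (nat_lit 9) .nil))))))))) (.g (nat_lit 4) .nil .nil))) 
(.lf (nat_lit 20726) (.g (nat_lit 2426) (.e (nat_lit 1181) (nat_lit 87) (.e (nat_lit 57849) (nat_lit 252) (.e (nat_lit 57435) (nat_lit 17) (.e (nat_lit 376842) (nat_lit 11) (.e (nat_lit 426188) (nat_lit 9) .nil))))) .nil)))) (.nd (nat_lit 4) (.nd (nat_lit 5) 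
(.lf (nat_lit 20686) (.g (nat_lit 3391) (.e (nat_lit 1181) (nat_lit 87) (.e (nat_lit 57847) (nat_lit 252) (.e (nat_lit 57437) (nat_lit 17) (.e (nat_lit 376842) (nat_lit 11) (.e (nat_lit 426306) (nat_lit 12) (.e (nat_lit 475201) (nat_lit 40) (.e (nat_lit 704659) (nat_lit 9) .nil))))))) (.g (nat_lit 6) .nil .nil))) 
(.lf (nat_lit 20718) (.g (nat_lit 1960) (.e (nat_lit 1181) (nat_lit 87) (.e (nat_lit 57849) (nat_lit 252) (.e (nat_lit 57372) (nat_lit 2) (.e (nat_lit 90128) (nat_lit 9) .nil)))) .nil))) (.nd (nat_lit 5) 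
(.lf (nat_lit 20702) (.g (nat_lit 1038) (.e (nat_lit 1181) (nat_lit 87) (.e (nat_lit 57848) (nat_lit 252) (.e (nat_lit 57407) (nat_lit 12) (.e (nat_lit 336211) (nat_lit 13) .nil)))) .nil)) 
(.lf (nat_lit 20734) (.g (nat_lit 3005) (.e (nat_lit 1181) (nat_lit 87) (.e (nat_lit 57849) (nat_lit 252) (.e (nat_lit 57437) (nat_lit 17) (.e (nat_lit 376842) (nat_lit 11) (.e (nat_lit 426188) (nat_lit 9) (.e (nat_lit 426444) (nat_lit 19) (.e (nat_lit 106504) (nat_lit 9) .nil))))))) (.g (nat_lit 4) .nil .nil)))))))) 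
(.nd (nat_lit 1) (.nd (nat_lit 2) (.nd (nat_lit 3) (.nd (nat_lit 4) (.nd (nat_lit 5) 
(.lf (nat_lit 20673) (.g (nat_lit 2026) (.e (nat_lit 1181) (nat_lit 87) (.e (nat_lit 57847) (nat_lit 252) (.e (nat_lit 57435) (nat_lit 17) (.e (nat_lit 376842) (nat_lit 11) (.e (nat_lit 426306) (nat_lit 12) (.e (nat_lit 475201) (nat_lit 40) (.e (nat_lit 704663) (nat_lit 9) .nil))))))) (.g (nat_lit 4) .nil .nil))) 
(.lf (nat_lit 20705) (.g (nat_lit 2017) (.e (nat_lit 1181) (nat_lit 87) (.e (nat_lit 57848) (nat_lit 252) (.e (nat_lit 57407) (nat_lit 12) (.e (nat_lit 336454) (nat_lit 34) (.e (nat_lit 483403) (nat_lit 26) (.e (nat_lit 385057) (nat_lit 22) (.e (nat_lit 499978) (nat_lit 14) .nil))))))) (.g (nat_lit 4) .nil .nil)))) (.nd (nat_lit 5) 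
(.lf (nat_lit 20689) (.g (nat_lit 2114) (.e (nat_lit 1181) (nat_lit 87) (.e (nat_lit 57847) (nat_lit 252) (.e (nat_lit 57437) (nat_lit 17) (.e (nat_lit 376842) (nat_lit 11) (.e (nat_lit 426306) (nat_lit 12) (.e (nat_lit 475201) (nat_lit 40) (.e (nat_lit 704671) (nat_lit 9) .nil))))))) (.g (nat_lit 4) .nil .nil))) 
(.lf (nat_lit 20721) (.g (nat_lit 1491) (.e (nat_lit 1181) (nat_lit 87) (.e (nat_lit 57849) (nat_lit 252) (.e (nat_lit 57407) (nat_lit 12) (.e (nat_lit 336211) (nat_lit 13) .nil)))) .nil)))) (.nd (nat_lit 4) (.nd (nat_lit 5) 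
(.lf (nat_lit 20681) (.g (nat_lit 1991) (.e (nat_lit 1181) (nat_lit 87) (.e (nat_lit 57847) (nat_lit 252) (.e (nat_lit 57437) (nat_lit 17) (.e (nat_lit 376842) (nat_lit 11) (.e (nat_lit 426306) (nat_lit 12) (.e (nat_lit 475201) (nat_lit 40) (.e (nat_lit 704654) (nat_lit 9) .nil))))))) (.g (nat_lit 4) .nil .nil))) 
(.lf (nat_lit 20713) (.g (nat_lit 2403) (.e (nat_lit 1181) (nat_lit 87) (.e (nat_lit 57848) (nat_lit 252) (.e (nat_lit 57437) (nat_lit 17) (.e (nat_lit 376842) (nat_lit 11) (.e (nat_lit 426188) (nat_lit 9) (.e (nat_lit 426444) (nat_lit 19) (.e (nat_lit 106504) (nat_lit 9) .nil))))))) (.g (nat_lit 4) .nil .nil)))) (.nd (nat_lit 5) 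
(.lf (nat_lit 20697) (.g (nat_lit 2678) (.e (nat_lit 1181) (nat_lit 87) (.e (nat_lit 57848) (nat_lit 252) (.e (nat_lit 57372) (nat_lit 2) (.e (nat_lit 90128) (nat_lit 9) (.e (nat_lit 297) (nat_lit 22) (.e (nat_lit 344119) (nat_lit 21) (.e (nat_lit 516131) (nat_lit 3) (.e (nat_lit 221212) (nat_lit 22) (.e (nat_lit 196635) (nat_lit 9) .nil))))))))) (.g (nat_lit 4) .nil .nil))) 
(.lf (nat_lit 20729) (.g (nat_lit 2807) (.e (nat_lit 1181) (nat_lit 87) (.e (nat_lit 57849) (nat_lit 252) (.e (nat_lit 57435) (nat_lit 17) (.e (nat_lit 376842) (nat_lit 11) (.e (nat_lit 426306) (nat_lit 12) (.e (nat_lit 475201) (nat_lit 40) (.e (nat_lit 704620) (nat_lit 9) .nil))))))) (.g (nat_lit 4) .nil .nil)))))) (.nd (nat_lit 3) (.nd (nat_lit 4) (.nd (nat_lit 5) 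
(.lf (nat_lit 20677) (.g (nat_lit 3428) (.e (nat_lit 1181) (nat_lit 87) (.e (nat_lit 57847) (nat_lit 252) (.e (nat_lit 57437) (nat_lit 17) (.e (nat_lit 376842) (nat_lit 11) (.e (nat_lit 426188) (nat_lit 9) (.e (nat_lit 426444) (nat_lit 19) (.e (nat_lit 106504) (nat_lit 9) .nil))))))) (.g (nat_lit 5) .nil .nil))) 
(.lf (nat_lit 20709) (.g (nat_lit 2548) (.e (nat_lit 1181) (nat_lit 87) (.e (nat_lit 57848) (nat_lit 252) (.e (nat_lit 57435) (nat_lit 17) (.e (nat_lit 376842) (nat_lit 11) (.e (nat_lit 426306) (nat_lit 12) (.e (nat_lit 475201) (nat_lit 40) (.e (nat_lit 704620) (nat_lit 9) .nil))))))) (.g (nat_lit 4) .nil .nil)))) (.nd (nat_lit 5) 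
(.lf (nat_lit 20693) (.g (nat_lit 3625) (.e (nat_lit 1181) (nat_lit 87) (.e (nat_lit 57848) (nat_lit 252) (.e (nat_lit 57365) (nat_lit 1) (.e (nat_lit 57854) (nat_lit 252) (.e (nat_lit 57373) (nat_lit 2) (.e (nat_lit 98048) (nat_lit 6) (.e (nat_lit 81960) (nat_lit 25) (.e (nat_lit 139273) (nat_lit 0) .nil)))))))) (.g (nat_lit 5) .nil .nil))) 
(.lf (nat_lit 20725) (.g (nat_lit 1475) (.e (nat_lit 1181) (nat_lit 87) (.e (nat_lit 57849) (nat_lit 252) (.e (nat_lit 57435) (nat_lit 17) (.e (nat_lit 376842) (nat_lit 11) .nil)))) .nil)))) (.nd (nat_lit 4) (.nd (nat_lit 5) 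
(.lf (nat_lit 20685) (.g (nat_lit 2331) (.e (nat_lit 1181) (nat_lit 87) (.e (nat_lit 57847) (nat_lit 252) (.e (nat_lit 57437) (nat_lit 17) (.e (nat_lit 376842) (nat_lit 11) (.e (nat_lit 426306) (nat_lit 12) (.e (nat_lit 475201) (nat_lit 40) (.e (nat_lit 704658) (nat_lit 9) .nil))))))) (.g (nat_lit 4) .nil .nil))) 
(.lf (nat_lit 20717) (.g (nat_lit 2317) (.e (nat_lit 1181) (nat_lit 87) (.e (nat_lit 57848) (nat_lit 252) (.e (nat_lit 57437) (nat_lit 17) (.e (nat_lit 376842) (nat_lit 11) (.e (nat_lit 426306) (nat_lit 12) (.e (nat_lit 475201) (nat_lit 40) (.e (nat_lit 704659) (nat_lit 9) .nil))))))) (.g (nat_lit 4) .nil .nil)))) (.nd (nat_lit 5) 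
(.lf (nat_lit 20701) (.g (nat_lit 2522) (.e (nat_lit 1181) (nat_lit 87) (.e (nat_lit 57848) (nat_lit 252) (.e (nat_lit 57375) (nat_lit 2) (.e (nat_lit 90165) (nat_lit 12) .nil)))) .nil)) 
(.lf (nat_lit 20733) (.g (nat_lit 2528) (.e (nat_lit 1181) (nat_lit 87) (.e (nat_lit 57849) (nat_lit 252) (.e (nat_lit 57437) (nat_lit 17) (.e (nat_lit 376842) (nat_lit 11) (.e (nat_lit 426188) (nat_lit 9) .nil))))) .nil)))))) (.nd (nat_lit 2) (.nd (nat_lit 3) (.nd (nat_lit 4) (.nd (nat_lit 5) 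
(.lf (nat_lit 20675) (.g (nat_lit 1942) (.e (nat_lit 1181) (nat_lit 87) (.e (nat_lit 57847) (nat_lit 252) (.e (nat_lit 57435) (nat_lit 17) (.e (nat_lit 376842) (nat_lit 11) (.e (nat_lit 426306) (nat_lit 12) (.e (nat_lit 475201) (nat_lit 40) (.e (nat_lit 704670) (nat_lit 9) .nil))))))) (.g (nat_lit 4) .nil .nil))) 
(.lf (nat_lit 20707) (.g (nat_lit 2333) (.e (nat_lit 1181) (nat_lit 87) (.e (nat_lit 57848) (nat_lit 252) (.e (nat_lit 57435) (nat_lit 17) (.e (nat_lit 376842) (nat_lit 11) (.e (nat_lit 426188) (nat_lit 9) (.e (nat_lit 426444) (nat_lit 19) (.e (nat_lit 106504) (nat_lit 9) .nil))))))) (.g (nat_lit 4) .nil .nil)))) (.nd (nat_lit 5) 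
(.lf (nat_lit 20691) (.g (nat_lit 5119) (.e (nat_lit 1181) (nat_lit 87) (.e (nat_lit 57848) (nat_lit 252) (.e (nat_lit 57365) (nat_lit 1) (.e (nat_lit 57851) (nat_lit 252) (.e (nat_lit 57354) (nat_lit 0) (.e (nat_lit 1855) (nat_lit 124) (.e (nat_lit 557109) (nat_lit 15) (.e (nat_lit 188461) (nat_lit 26) (.e (nat_lit 253959) (nat_lit 9) .nil))))))))) (.g (nat_lit 8) .nil .nil))) 
(.lf (nat_lit 20723) (.g (nat_lit 1734) (.e (nat_lit 1181) (nat_lit 87) (.e (nat_lit 57849) (nat_lit 252) (.e (nat_lit 57411) (nat_lit 12) (.e (nat_lit 336211) (nat_lit 13) .nil)))) .nil)))) (.nd (nat_lit 4) (.nd (nat_lit 5) 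
(.lf (nat_lit 20683) (.g (nat_lit 2112) (.e (nat_lit 1181) (nat_lit 87) (.e (nat_lit 57847) (nat_lit 252) (.e (nat_lit 57437) (nat_lit 17) (.e (nat_lit 376842) (nat_lit 11) (.e (nat_lit 426306) (nat_lit 12) (.e (nat_lit 475201) (nat_lit 40) (.e (nat_lit 704656) (nat_lit 9) .nil))))))) (.g (nat_lit 4) .nil .nil))) 
(.lf (nat_lit 20715) (.g (nat_lit 1704) (.e (nat_lit 1181) (nat_lit 87) (.e (nat_lit 57848) (nat_lit 252) (.e (nat_lit 57437) (nat_lit 17) (.e (nat_lit 376842) (nat_lit 11) (.e (nat_lit 426306) (nat_lit 12) .nil))))) .nil))) (.nd (nat_lit 5) 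
(.lf (nat_lit 20699) (.g (nat_lit 3738) (.e (nat_lit 1181) (nat_lit 87) (.e (nat_lit 57848) (nat_lit 252) (.e (nat_lit 57375) (nat_lit 2) (.e (nat_lit 90160) (nat_lit 11) (.e (nat_lit 24607) (nat_lit 3) .nil))))) .nil)) 
(.lf (nat_lit 20731) (.g (nat_lit 837) (.e (nat_lit 1181) (nat_lit 87) (.e (nat_lit 57849) (nat_lit 252) (.e (nat_lit 57437) (nat_lit 17) .nil))) .nil))))) (.nd (nat_lit 3) (.nd (nat_lit 4) (.nd (nat_lit 5) 
(.lf (nat_lit 20679) (.g (nat_lit 1847) (.e (nat_lit 1181) (nat_lit 87) (.e (nat_lit 57847) (nat_lit 252) (.e (nat_lit 57437) (nat_lit 17) (.e (nat_lit 376842) (nat_lit 11) (.e (nat_lit 426298) (nat_lit 11) .nil))))) .nil)) 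
(.lf (nat_lit 20711) (.g (nat_lit 2365) (.e (nat_lit 1181) (nat_lit 87) (.e (nat_lit 57848) (nat_lit 252) (.e (nat_lit 57435) (nat_lit 17) (.e (nat_lit 376842) (nat_lit 11) (.e (nat_lit 426306) (nat_lit 12) (.e (nat_lit 475201) (nat_lit 40) (.e (nat_lit 704659) (nat_lit 9) .nil))))))) (.g (nat_lit 4) .nil .nil)))) (.nd (nat_lit 5) 
(.lf (nat_lit 20695) (.g (nat_lit 5116) (.e (nat_lit 1181) (nat_lit 87) (.e (nat_lit 57848) (nat_lit 252) (.e (nat_lit 57368) (nat_lit 1) (.e (nat_lit 57851) (nat_lit 252) (.e (nat_lit 57354) (nat_lit 0) (.e (nat_lit 1855) (nat_lit 124) (.e (nat_lit 557109) (nat_lit 15) (.e (nat_lit 188461) (nat_lit 26) (.e (nat_lit 253959) (nat_lit 9) .nil))))))))) (.g (nat_lit 8) .nil .nil))) 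
(.lf (nat_lit 20727) (.g (nat_lit 2697) (.e (nat_lit 1181) (nat_lit 87) (.e (nat_lit 57849) (nat_lit 252) (.e (nat_lit 57435) (nat_lit 17) (.e (nat_lit 376842) (nat_lit 11) (.e (nat_lit 426188) (nat_lit 9) (.e (nat_lit 426444) (nat_lit 19) (.e (nat_lit 106504) (nat_lit 9) .nil))))))) (.g (nat_lit 4) .nil .nil))))) (.nd (nat_lit 4) (.nd (nat_lit 5) 
(.lf (nat_lit 20687) (.g (nat_lit 1976) (.e (nat_lit 1181) (nat_lit 87) (.e (nat_lit 57847) (nat_lit 252) (.e (nat_lit 57437) (nat_lit 17) (.e (nat_lit 376842) (nat_lit 11) (.e (nat_lit 426306) (nat_lit 12) (.e (nat_lit 475201) (nat_lit 40) (.e (nat_lit 704663) (nat_lit 9) .nil))))))) (.g (nat_lit 4) .nil .nil))) 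
(.lf (nat_lit 20719) (.g (nat_lit 795) (.e (nat_lit 1181) (nat_lit 87) (.e (nat_lit 57849) (nat_lit 252) (.e (nat_lit 57377) (nat_lit 3) .nil))) .nil))) (.nd (nat_lit 5) 
(.lf (nat_lit 20703) (.g (nat_lit 2952) (.e (nat_lit 1181) (nat_lit 87) (.e (nat_lit 57848) (nat_lit 252) (.e (nat_lit 57407) (nat_lit 12) (.e (nat_lit 336360) (nat_lit 25) (.e (nat_lit 409649) (nat_lit 18) (.e (nat_lit 303140) (nat_lit 10) (.e (nat_lit 434286) (nat_lit 42) (.e (nat_lit 688157) (nat_lit 13) .nil)))))))) (.g (nat_lit 5) .nil .nil))) 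
(.lf (nat_lit 20735) (.g (nat_lit 3717) (.e (nat_lit 1181) (nat_lit 87) (.e (nat_lit 57849) (nat_lit 252) (.e (nat_lit 57437) (nat_lit 17) (.e (nat_lit 376842) (nat_lit 11) (.e (nat_lit 426188) (nat_lit 9) (.e (nat_lit 426444) (nat_lit 19) (.e (nat_lit 106520) (nat_lit 9) .nil))))))) (.g (nat_lit 5) .nil .nil)))))))))

noncomputable def tv289 : DT := (.nd (nat_lit 0) (.nd (nat_lit 1) (.nd (nat_lit 2) (.nd (nat_lit 3) (.nd (nat_lit 4) (.nd (nat_lit 5) 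
(.lf (nat_lit 20736) (.g (nat_lit 2462) (.e (nat_lit 1181) (nat_lit 87) (.e (nat_lit 57849) (nat_lit 252) (.e (nat_lit 57437) (nat_lit 17) (.e (nat_lit 376842) (nat_lit 11) (.e (nat_lit 426306) (nat_lit 12) .nil))))) .nil)) 
(.lf (nat_lit 20768) (.g (nat_lit 1749) (.e (nat_lit 1181) (nat_lit 87) (.e (nat_lit 57872) (nat_lit 264) (.e (nat_lit 1182) (nat_lit 87) (.e (nat_lit 57478) (nat_lit 28) (.e (nat_lit 557107) (nat_lit 15) (.e (nat_lit 188450) (nat_lit 23) (.e (nat_lit 204821) (nat_lit 17) (.e (nat_lit 7936) (nat_lit 343) .nil)))))))) (.g (nat_lit 4) .nil .nil)))) (.nd (nat_lit 5) 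
(.lf (nat_lit 20752) (.g (nat_lit 2996) (.e (nat_lit 1181) (nat_lit 87) (.e (nat_lit 57870) (nat_lit 264) (.e (nat_lit 1220) (nat_lit 90) (.e (nat_lit 81956) (nat_lit 23) (.e (nat_lit 98321) (nat_lit 17) (.e (nat_lit 7936) (nat_lit 220) (.e (nat_lit 720949) (nat_lit 24) (.e (nat_lit 106526) (nat_lit 9) .nil)))))))) (.g (nat_lit 5) .nil .nil))) 
(.lf (nat_lit 20784) (.g (nat_lit 2214) (.e (nat_lit 1181) (nat_lit 87) (.e (nat_lit 57872) (nat_lit 264) (.e (nat_lit 1188) (nat_lit 88) (.e (nat_lit 65630) (nat_lit 14) (.e (nat_lit 401459) (nat_lit 13) (.e (nat_lit 483343) (nat_lit 17) (.e (nat_lit 6444) (nat_lit 343) .nil))))))) (.g (nat_lit 4) .nil .nil))))) (.nd (nat_lit 4) (.nd (nat_lit 5) 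
(.lf (nat_lit 20744) (.g (nat_lit 1968) (.e (nat_lit 1181) (nat_lit 87) (.e (nat_lit 57870) (nat_lit 264) (.e (nat_lit 1190) (nat_lit 88) (.e (nat_lit 65624) (nat_lit 12) (.e (nat_lit 385093) (nat_lit 49) (.e (nat_lit 778323) (nat_lit 5) (.e (nat_lit 81664) (nat_lit 40) .nil))))))) (.g (nat_lit 4) .nil .nil))) 
(.lf (nat_lit 20776) (.g (nat_lit 3574) (.e (nat_lit 1181) (nat_lit 87) (.e (nat_lit 57872) (nat_lit 264) (.e (nat_lit 1182) (nat_lit 87) (.e (nat_lit 57480) (nat_lit 28) (.e (nat_lit 557108) (nat_lit 15) (.e (nat_lit 188452) (nat_lit 23) (.e (nat_lit 204816) (nat_lit 17) (.e (nat_lit 6479) (nat_lit 343) .nil)))))))) (.g (nat_lit 5) .nil .nil)))) (.nd (nat_lit 5) 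
(.lf (nat_lit 20760) (.g (nat_lit 3419) (.e (nat_lit 1181) (nat_lit 87) (.e (nat_lit 57872) (nat_lit 264) (.e (nat_lit 1172) (nat_lit 87) (.e (nat_lit 57480) (nat_lit 28) (.e (nat_lit 557108) (nat_lit 15) (.e (nat_lit 188452) (nat_lit 23) (.e (nat_lit 204816) (nat_lit 17) (.e (nat_lit 6486) (nat_lit 343) .nil)))))))) (.g (nat_lit 5) .nil .nil))) 
(.lf (nat_lit 20792) (.g (nat_lit 3294) (.e (nat_lit 1181) (nat_lit 87) (.e (nat_lit 57872) (nat_lit 264) (.e (nat_lit 1188) (nat_lit 88) (.e (nat_lit 65630) (nat_lit 14) (.e (nat_lit 401459) (nat_lit 13) (.e (nat_lit 483347) (nat_lit 17) (.e (nat_lit 7936) (nat_lit 343) .nil))))))) (.g (nat_lit 5) .nil .nil)))))) (.nd (nat_lit 3) (.nd (nat_lit 4) (.nd (nat_lit 5) 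
(.lf (nat_lit 20740) (.g (nat_lit 2249) (.e (nat_lit 1181) (nat_lit 87) (.e (nat_lit 57852) (nat_lit 252) (.e (nat_lit 57435) (nat_lit 17) (.e (nat_lit 376842) (nat_lit 11) (.e (nat_lit 426188) (nat_lit 9) (.e (nat_lit 426444) (nat_lit 19) (.e (nat_lit 106520) (nat_lit 9) .nil))))))) (.g (nat_lit 4) .nil .nil))) 
(.lf (nat_lit 20772) (.g (nat_lit 5620) (.e (nat_lit 1181) (nat_lit 87) (.e (nat_lit 57872) (nat_lit 264) (.e (nat_lit 1182) (nat_lit 87) (.e (nat_lit 57479) (nat_lit 28) (.e (nat_lit 557109) (nat_lit 15) (.e (nat_lit 188452) (nat_lit 23) (.e (nat_lit 204816) (nat_lit 17) (.e (nat_lit 6479) (nat_lit 343) .nil)))))))) (.g (nat_lit 7) .nil .nil)))) (.nd (nat_lit 5) 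
(.lf (nat_lit 20756) (.g (nat_lit 2949) (.e (nat_lit 1181) (nat_lit 87) (.e (nat_lit 57870) (nat_lit 264) (.e (nat_lit 1221) (nat_lit 90) (.e (nat_lit 81956) (nat_lit 23) (.e (nat_lit 106240) (nat_lit 10) (.e (nat_lit 344160) (nat_lit 37) (.e (nat_lit 647195) (nat_lit 9) .nil))))))) (.g (nat_lit 4) .nil .nil))) 
(.lf (nat_lit 20788) (.g (nat_lit 4735) (.e (nat_lit 1181) (nat_lit 87) (.e (nat_lit 57872) (nat_lit 264) (.e (nat_lit 1188) (nat_lit 88) (.e (nat_lit 65630) (nat_lit 14) (.e (nat_lit 401459) (nat_lit 13) (.e (nat_lit 483344) (nat_lit 17) (.e (nat_lit 6444) (nat_lit 343) .nil))))))) (.g (nat_lit 7) .nil .nil))))) (.nd (nat_lit 4) (.nd (nat_lit 5) 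
(.lf (nat_lit 20748) (.g (nat_lit 1092) (.e (nat_lit 1181) (nat_lit 87) (.e (nat_lit 57870) (nat_lit 264) (.e (nat_lit 1209) (nat_lit 89) (.e (nat_lit 81664) (nat_lit 38) .nil)))) .nil)) 
(.lf (nat_lit 20780) (.g (nat_lit 4719) (.e (nat_lit 1181) (nat_lit 87) (.e (nat_lit 57872) (nat_lit 264) (.e (nat_lit 1187) (nat_lit 88) (.e (nat_lit 65630) (nat_lit 14) (.e (nat_lit 401459) (nat_lit 13) (.e (nat_lit 483344) (nat_lit 17) (.e (nat_lit 6479) (nat_lit 343) .nil))))))) (.g (nat_lit 6) .nil .nil)))) (.nd (nat_lit 5) 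
(.lf (nat_lit 20764) (.g (nat_lit 5026) (.e (nat_lit 1181) (nat_lit 87) (.e (nat_lit 57872) (nat_lit 264) (.e (nat_lit 1181) (nat_lit 87) (.e (nat_lit 57480) (nat_lit 28) (.e (nat_lit 557098) (nat_lit 13) (.e (nat_lit 172115) (nat_lit 10) (.e (nat_lit 434231) (nat_lit 23) (.e (nat_lit 532481) (nat_lit 0) (.e (nat_lit 6481) (nat_lit 343) .nil))))))))) (.g (nat_lit 8) .nil .nil))) 
(.lf (nat_lit 20796) (.g (nat_lit 3184) (.e (nat_lit 1181) (nat_lit 87) (.e (nat_lit 57872) (nat_lit 264) (.e (nat_lit 1190) (nat_lit 88) (.e (nat_lit 65619) (nat_lit 10) (.e (nat_lit 344117) (nat_lit 21) (.e (nat_lit 524032) (nat_lit 27) (.e (nat_lit 344160) (nat_lit 37) (.e (nat_lit 647195) (nat_lit 9) .nil)))))))) (.g (nat_lit 5) .nil .nil))))))) 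
(.nd (nat_lit 2) (.nd (nat_lit 3) (.nd (nat_lit 4) (.nd (nat_lit 5) 
(.lf (nat_lit 20738) (.g (nat_lit 2982) (.e (nat_lit 1181) (nat_lit 87) (.e (nat_lit 57849) (nat_lit 252) (.e (nat_lit 57437) (nat_lit 17) (.e (nat_lit 376842) (nat_lit 11) (.e (nat_lit 426306) (nat_lit 12) (.e (nat_lit 475201) (nat_lit 40) (.e (nat_lit 704659) (nat_lit 9) .nil))))))) (.g (nat_lit 4) .nil .nil))) 
(.lf (nat_lit 20770) (.g (nat_lit 5356) (.e (nat_lit 1181) (nat_lit 87) (.e (nat_lit 57872) (nat_lit 264) (.e (nat_lit 1182) (nat_lit 87) (.e (nat_lit 57478) (nat_lit 28) (.e (nat_lit 557109) (nat_lit 15) (.e (nat_lit 188452) (nat_lit 23) (.e (nat_lit 204821) (nat_lit 17) (.e (nat_lit 7936) (nat_lit 343) .nil)))))))) (.g (nat_lit 7) .nil .nil)))) (.nd (nat_lit 5) 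
(.lf (nat_lit 20754) (.g (nat_lit 1793) (.e (nat_lit 1181) (nat_lit 87) (.e (nat_lit 57870) (nat_lit 264) (.e (nat_lit 1221) (nat_lit 90) (.e (nat_lit 81953) (nat_lit 22) (.e (nat_lit 90165) (nat_lit 12) (.e (nat_lit 171776) (nat_lit 48) (.e (nat_lit 720952) (nat_lit 24) (.e (nat_lit 106526) (nat_lit 9) .nil)))))))) (.g (nat_lit 4) .nil .nil))) 
(.lf (nat_lit 20786) (.g (nat_lit 2863) (.e (nat_lit 1181) (nat_lit 87) (.e (nat_lit 57872) (nat_lit 264) (.e (nat_lit 1188) (nat_lit 88) (.e (nat_lit 65630) (nat_lit 14) (.e (nat_lit 401459) (nat_lit 13) (.e (nat_lit 483343) (nat_lit 17) (.e (nat_lit 6486) (nat_lit 343) .nil))))))) (.g (nat_lit 5) .nil .nil))))) (.nd (nat_lit 4) (.nd (nat_lit 5) 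
(.lf (nat_lit 20746) (.g (nat_lit 1788) (.e (nat_lit 1181) (nat_lit 87) (.e (nat_lit 57870) (nat_lit 264) (.e (nat_lit 1209) (nat_lit 89) (.e (nat_lit 73782) (nat_lit 32) (.e (nat_lit 2856) (nat_lit 184) (.e (nat_lit 426533) (nat_lit 28) (.e (nat_lit 352000) (nat_lit 8) .nil))))))) (.g (nat_lit 4) .nil .nil))) 
(.lf (nat_lit 20778) (.g (nat_lit 5327) (.e (nat_lit 1181) (nat_lit 87) (.e (nat_lit 57872) (nat_lit 264) (.e (nat_lit 1182) (nat_lit 87) (.e (nat_lit 57480) (nat_lit 28) (.e (nat_lit 557109) (nat_lit 15) (.e (nat_lit 188452) (nat_lit 23) (.e (nat_lit 204821) (nat_lit 17) (.e (nat_lit 7936) (nat_lit 343) .nil)))))))) (.g (nat_lit 6) .nil .nil)))) (.nd (nat_lit 5) 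
(.lf (nat_lit 20762) (.g (nat_lit 5434) (.e (nat_lit 1181) (nat_lit 87) (.e (nat_lit 57872) (nat_lit 264) (.e (nat_lit 1181) (nat_lit 87) (.e (nat_lit 57479) (nat_lit 28) (.e (nat_lit 557109) (nat_lit 15) (.e (nat_lit 188452) (nat_lit 23) (.e (nat_lit 204816) (nat_lit 17) (.e (nat_lit 6479) (nat_lit 343) .nil)))))))) (.g (nat_lit 6) .nil .nil))) 
(.lf (nat_lit 20794) (.g (nat_lit 3658) (.e (nat_lit 1181) (nat_lit 87) (.e (nat_lit 57872) (nat_lit 264) (.e (nat_lit 1188) (nat_lit 88) (.e (nat_lit 65630) (nat_lit 14) (.e (nat_lit 401459) (nat_lit 13) (.e (nat_lit 483354) (nat_lit 17) (.e (nat_lit 7936) (nat_lit 343) .nil))))))) (.g (nat_lit 5) .nil .nil)))))) (.nd (nat_lit 3) (.nd (nat_lit 4) (.nd (nat_lit 5) 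
(.lf (nat_lit 20742) (.g (nat_lit 2145) (.e (nat_lit 1181) (nat_lit 87) (.e (nat_lit 57854) (nat_lit 252) (.e (nat_lit 57435) (nat_lit 17) (.e (nat_lit 376842) (nat_lit 11) (.e (nat_lit 426188) (nat_lit 9) (.e (nat_lit 426444) (nat_lit 19) (.e (nat_lit 106520) (nat_lit 9) .nil))))))) (.g (nat_lit 4) .nil .nil))) 
(.lf (nat_lit 20774) (.g (nat_lit 4397) (.e (nat_lit 1181) (nat_lit 87) (.e (nat_lit 57872) (nat_lit 264) (.e (nat_lit 1182) (nat_lit 87) (.e (nat_lit 57480) (nat_lit 28) (.e (nat_lit 557098) (nat_lit 13) (.e (nat_lit 172115) (nat_lit 10) (.e (nat_lit 434231) (nat_lit 23) (.e (nat_lit 532481) (nat_lit 0) (.e (nat_lit 6481) (nat_lit 343) .nil))))))))) (.g (nat_lit 7) .nil .nil)))) (.nd (nat_lit 5) 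
(.lf (nat_lit 20758) (.g (nat_lit 1970) (.e (nat_lit 1181) (nat_lit 87) (.e (nat_lit 57870) (nat_lit 264) (.e (nat_lit 1221) (nat_lit 90) (.e (nat_lit 81959) (nat_lit 24) (.e (nat_lit 123182) (nat_lit 264) (.e (nat_lit 1214) (nat_lit 89) (.e (nat_lit 81664) (nat_lit 40) .nil))))))) (.g (nat_lit 4) .nil .nil))) 
(.lf (nat_lit 20790) (.g (nat_lit 3819) (.e (nat_lit 1181) (nat_lit 87) (.e (nat_lit 57872) (nat_lit 264) (.e (nat_lit 1188) (nat_lit 88) (.e (nat_lit 65630) (nat_lit 14) (.e (nat_lit 401459) (nat_lit 13) (.e (nat_lit 483344) (nat_lit 17) (.e (nat_lit 7936) (nat_lit 343) .nil))))))) (.g (nat_lit 6) .nil .nil))))) (.nd (nat_lit 4) (.nd (nat_lit 5) 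
(.lf (nat_lit 20750) (.g (nat_lit 2594) (.e (nat_lit 1181) (nat_lit 87) (.e (nat_lit 57870) (nat_lit 264) (.e (nat_lit 1220) (nat_lit 90) (.e (nat_lit 81956) (nat_lit 23) (.e (nat_lit 106240) (nat_lit 10) .nil))))) .nil)) 
(.lf (nat_lit 20782) (.g (nat_lit 2803) (.e (nat_lit 1181) (nat_lit 87) (.e (nat_lit 57872) (nat_lit 264) (.e (nat_lit 1188) (nat_lit 88) (.e (nat_lit 65624) (nat_lit 12) (.e (nat_lit 385093) (nat_lit 49) (.e (nat_lit 778323) (nat_lit 5) (.e (nat_lit 81664) (nat_lit 40) .nil))))))) (.g (nat_lit 5) .nil .nil)))) (.nd (nat_lit 5) 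
(.lf (nat_lit 20766) (.g (nat_lit 6019) (.e (nat_lit 1181) (nat_lit 87) (.e (nat_lit 57872) (nat_lit 264) (.e (nat_lit 1181) (nat_lit 87) (.e (nat_lit 57480) (nat_lit 28) (.e (nat_lit 557109) (nat_lit 15) (.e (nat_lit 188452) (nat_lit 23) (.e (nat_lit 204821) (nat_lit 17) (.e (nat_lit 7936) (nat_lit 343) .nil)))))))) (.g (nat_lit 7) .nil .nil))) 
(.lf (nat_lit 20798) (.g (nat_lit 3498) (.e (nat_lit 1181) (nat_lit 87) (.e (nat_lit 57872) (nat_lit 264) (.e (nat_lit 1190) (nat_lit 88) (.e (nat_lit 65624) (nat_lit 12) (.e (nat_lit 385093) (nat_lit 49) (.e (nat_lit 778323) (nat_lit 5) (.e (nat_lit 81664) (nat_lit 40) .nil))))))) (.g (nat_lit 6) .nil .nil)))))))) 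
(.nd (nat_lit 1) (.nd (nat_lit 2) (.nd (nat_lit 3) (.nd (nat_lit 4) (.nd (nat_lit 5) 
(.lf (nat_lit 20737) (.g (nat_lit 3061) (.e (nat_lit 1181) (nat_lit 87) (.e (nat_lit 57849) (nat_lit 252) (.e (nat_lit 57437) (nat_lit 17) (.e (nat_lit 376842) (nat_lit 11) (.e (nat_lit 426306) (nat_lit 12) (.e (nat_lit 475201) (nat_lit 40) (.e (nat_lit 704620) (nat_lit 9) .nil))))))) (.g (nat_lit 4) .nil .nil))) 
(.lf (nat_lit 20769) (.g (nat_lit 4395) (.e (nat_lit 1181) (nat_lit 87) (.e (nat_lit 57872) (nat_lit 264) (.e (nat_lit 1182) (nat_lit 87) (.e (nat_lit 57478) (nat_lit 28) (.e (nat_lit 557109) (nat_lit 15) (.e (nat_lit 188452) (nat_lit 23) (.e (nat_lit 204817) (nat_lit 17) (.e (nat_lit 7936) (nat_lit 343) .nil)))))))) (.g (nat_lit 6) .nil .nil)))) (.nd (nat_lit 5) 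
(.lf (nat_lit 20753) (.g (nat_lit 2276) (.e (nat_lit 1181) (nat_lit 87) (.e (nat_lit 57870) (nat_lit 264) (.e (nat_lit 1220) (nat_lit 90) (.e (nat_lit 81956) (nat_lit 23) (.e (nat_lit 98321) (nat_lit 17) (.e (nat_lit 7936) (nat_lit 220) (.e (nat_lit 720952) (nat_lit 24) (.e (nat_lit 106526) (nat_lit 9) .nil)))))))) (.g (nat_lit 4) .nil .nil))) 
(.lf (nat_lit 20785) (.g (nat_lit 3660) (.e (nat_lit 1181) (nat_lit 87) (.e (nat_lit 57872) (nat_lit 264) (.e (nat_lit 1188) (nat_lit 88) (.e (nat_lit 65630) (nat_lit 14) (.e (nat_lit 401459) (nat_lit 13) (.e (nat_lit 483343) (nat_lit 17) (.e (nat_lit 6479) (nat_lit 343) .nil))))))) (.g (nat_lit 5) .nil .nil))))) (.nd (nat_lit 4) (.nd (nat_lit 5) 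
(.lf (nat_lit 20745) (.g (nat_lit 1449) (.e (nat_lit 1181) (nat_lit 87) (.e (nat_lit 57870) (nat_lit 264) (.e (nat_lit 1199) (nat_lit 88) (.e (nat_lit 65630) (nat_lit 14) (.e (nat_lit 401437) (nat_lit 9) (.e (nat_lit 426533) (nat_lit 28) (.e (nat_lit 352000) (nat_lit 8) .nil))))))) (.g (nat_lit 4) .nil .nil))) 
(.lf (nat_lit 20777) (.g (nat_lit 3466) (.e (nat_lit 1181) (nat_lit 87) (.e (nat_lit 57872) (nat_lit 264) (.e (nat_lit 1182) (nat_lit 87) (.e (nat_lit 57480) (nat_lit 28) (.e (nat_lit 557108) (nat_lit 15) (.e (nat_lit 188452) (nat_lit 23) (.e (nat_lit 204816) (nat_lit 17) (.e (nat_lit 6486) (nat_lit 343) .nil)))))))) (.g (nat_lit 5) .nil .nil)))) (.nd (nat_lit 5) 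
(.lf (nat_lit 20761) (.g (nat_lit 2802) (.e (nat_lit 1181) (nat_lit 87) (.e (nat_lit 57872) (nat_lit 264) (.e (nat_lit 1181) (nat_lit 87) (.e (nat_lit 57479) (nat_lit 28) (.e (nat_lit 557095) (nat_lit 13) (.e (nat_lit 172115) (nat_lit 10) (.e (nat_lit 434231) (nat_lit 23) (.e (nat_lit 532490) (nat_lit 0) (.e (nat_lit 7936) (nat_lit 343) .nil))))))))) (.g (nat_lit 4) .nil .nil))) 
(.lf (nat_lit 20793) (.g (nat_lit 3994) (.e (nat_lit 1181) (nat_lit 87) (.e (nat_lit 57872) (nat_lit 264) (.e (nat_lit 1188) (nat_lit 88) (.e (nat_lit 65630) (nat_lit 14) (.e (nat_lit 401459) (nat_lit 13) (.e (nat_lit 483350) (nat_lit 17) (.e (nat_lit 7936) (nat_lit 343) .nil))))))) (.g (nat_lit 6) .nil .nil)))))) (.nd (nat_lit 3) (.nd (nat_lit 4) (.nd (nat_lit 5) 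
(.lf (nat_lit 20741) (.g (nat_lit 1661) (.e (nat_lit 1181) (nat_lit 87) (.e (nat_lit 57854) (nat_lit 252) (.e (nat_lit 57409) (nat_lit 12) (.e (nat_lit 336211) (nat_lit 13) .nil)))) .nil)) 
(.lf (nat_lit 20773) (.g (nat_lit 5512) (.e (nat_lit 1181) (nat_lit 87) (.e (nat_lit 57872) (nat_lit 264) (.e (nat_lit 1182) (nat_lit 87) (.e (nat_lit 57479) (nat_lit 28) (.e (nat_lit 557109) (nat_lit 15) (.e (nat_lit 188452) (nat_lit 23) (.e (nat_lit 204816) (nat_lit 17) (.e (nat_lit 6486) (nat_lit 343) .nil)))))))) (.g (nat_lit 7) .nil .nil)))) (.nd (nat_lit 5) 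
(.lf (nat_lit 20757) (.g (nat_lit 3084) (.e (nat_lit 1181) (nat_lit 87) (.e (nat_lit 57870) (nat_lit 264) (.e (nat_lit 1221) (nat_lit 90) (.e (nat_lit 81956) (nat_lit 23) (.e (nat_lit 98321) (nat_lit 17) (.e (nat_lit 7936) (nat_lit 220) (.e (nat_lit 720949) (nat_lit 24) (.e (nat_lit 106526) (nat_lit 9) .nil)))))))) (.g (nat_lit 5) .nil .nil))) 
(.lf (nat_lit 20789) (.g (nat_lit 5666) (.e (nat_lit 1181) (nat_lit 87) (.e (nat_lit 57872) (nat_lit 264) (.e (nat_lit 1188) (nat_lit 88) (.e (nat_lit 65630) (nat_lit 14) (.e (nat_lit 401459) (nat_lit 13) (.e (nat_lit 483344) (nat_lit 17) (.e (nat_lit 6479) (nat_lit 343) .nil))))))) (.g (nat_lit 0) .nil .nil))))) (.nd (nat_lit 4) (.nd (nat_lit 5) 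
(.lf (nat_lit 20749) (.g (nat_lit 654) (.e (nat_lit 1181) (nat_lit 87) (.e (nat_lit 57870) (nat_lit 264) (.e (nat_lit 1219) (nat_lit 90) (.e (nat_lit 81924) (nat_lit 0) .nil)))) .nil)) 
(.lf (nat_lit 20781) (.g (nat_lit 4037) (.e (nat_lit 1181) (nat_lit 87) (.e (nat_lit 57872) (nat_lit 264) (.e (nat_lit 1187) (nat_lit 88) (.e (nat_lit 65630) (nat_lit 14) (.e (nat_lit 401459) (nat_lit 13) (.e (nat_lit 483344) (nat_lit 17) (.e (nat_lit 6486) (nat_lit 343) .nil))))))) (.g (nat_lit 6) .nil .nil)))) (.nd (nat_lit 5) 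
(.lf (nat_lit 20765) (.g (nat_lit 5007) (.e (nat_lit 1181) (nat_lit 87) (.e (nat_lit 57872) (nat_lit 264) (.e (nat_lit 1181) (nat_lit 87) (.e (nat_lit 57480) (nat_lit 28) (.e (nat_lit 557109) (nat_lit 15) (.e (nat_lit 188452) (nat_lit 23) (.e (nat_lit 204817) (nat_lit 17) (.e (nat_lit 7936) (nat_lit 343) .nil)))))))) (.g (nat_lit 6) .nil .nil))) 
(.lf (nat_lit 20797) (.g (nat_lit 2176) (.e (nat_lit 1181) (nat_lit 87) (.e (nat_lit 57872) (nat_lit 264) (.e (nat_lit 1190) (nat_lit 88) (.e (nat_lit 65622) (nat_lit 12) (.e (nat_lit 385093) (nat_lit 49) (.e (nat_lit 778323) (nat_lit 5) (.e (nat_lit 81664) (nat_lit 40) .nil))))))) (.g (nat_lit 4) .nil .nil))))))) (.nd (nat_lit 2) (.nd (nat_lit 3) (.nd (nat_lit 4) (.nd (nat_lit 5) 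
(.lf (nat_lit 20739) (.g (nat_lit 1406) (.e (nat_lit 1181) (nat_lit 87) (.e (nat_lit 57852) (nat_lit 252) (.e (nat_lit 57409) (nat_lit 12) (.e (nat_lit 336211) (nat_lit 13) .nil)))) .nil)) 
(.lf (nat_lit 20771) (.g (nat_lit 4620) (.e (nat_lit 1181) (nat_lit 87) (.e (nat_lit 57872) (nat_lit 264) (.e (nat_lit 1182) (nat_lit 87) (.e (nat_lit 57479) (nat_lit 28) (.e (nat_lit 557101) (nat_lit 13) (.e (nat_lit 172115) (nat_lit 10) (.e (nat_lit 434231) (nat_lit 23) (.e (nat_lit 532481) (nat_lit 0) (.e (nat_lit 6481) (nat_lit 343) .nil))))))))) (.g (nat_lit 7) .nil .nil)))) (.nd (nat_lit 5) 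
(.lf (nat_lit 20755) (.g (nat_lit 2816) (.e (nat_lit 1181) (nat_lit 87) (.e (nat_lit 57870) (nat_lit 264) (.e (nat_lit 1221) (nat_lit 90) (.e (nat_lit 81956) (nat_lit 23) (.e (nat_lit 106240) (nat_lit 10) .nil))))) .nil)) 
(.lf (nat_lit 20787) (.g (nat_lit 3344) (.e (nat_lit 1181) (nat_lit 87) (.e (nat_lit 57872) (nat_lit 264) (.e (nat_lit 1188) (nat_lit 88) (.e (nat_lit 65630) (nat_lit 14) (.e (nat_lit 401459) (nat_lit 13) (.e (nat_lit 483344) (nat_lit 17) (.e (nat_lit 6440) (nat_lit 343) .nil))))))) (.g (nat_lit 5) .nil .nil))))) (.nd (nat_lit 4) (.nd (nat_lit 5) 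
(.lf (nat_lit 20747) (.g (nat_lit 1092) (.e (nat_lit 1181) (nat_lit 87) (.e (nat_lit 57870) (nat_lit 264) (.e (nat_lit 1209) (nat_lit 89) (.e (nat_lit 81664) (nat_lit 35) .nil)))) .nil)) 
(.lf (nat_lit 20779) (.g (nat_lit 3767) (.e (nat_lit 1181) (nat_lit 87) (.e (nat_lit 57872) (nat_lit 264) (.e (nat_lit 1187) (nat_lit 88) (.e (nat_lit 65630) (nat_lit 14) (.e (nat_lit 401459) (nat_lit 13) (.e (nat_lit 483344) (nat_lit 17) (.e (nat_lit 6444) (nat_lit 343) .nil))))))) (.g (nat_lit 5) .nil .nil)))) (.nd (nat_lit 5) 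
(.lf (nat_lit 20763) (.g (nat_lit 5326) (.e (nat_lit 1181) (nat_lit 87) (.e (nat_lit 57872) (nat_lit 264) (.e (nat_lit 1181) (nat_lit 87) (.e (nat_lit 57479) (nat_lit 28) (.e (nat_lit 557109) (nat_lit 15) (.e (nat_lit 188452) (nat_lit 23) (.e (nat_lit 204816) (nat_lit 17) (.e (nat_lit 6486) (nat_lit 343) .nil)))))))) (.g (nat_lit 6) .nil .nil))) 
(.lf (nat_lit 20795) (.g (nat_lit 2007) (.e (nat_lit 1181) (nat_lit 87) (.e (nat_lit 57872) (nat_lit 264) (.e (nat_lit 1190) (nat_lit 88) (.e (nat_lit 65604) (nat_lit 9) (.e (nat_lit 336028) (nat_lit 3) (.e (nat_lit 106240) (nat_lit 10) (.e (nat_lit 344164) (nat_lit 37) (.e (nat_lit 647195) (nat_lit 9) .nil)))))))) (.g (nat_lit 4) .nil .nil)))))) (.nd (nat_lit 3) (.nd (nat_lit 4) (.nd (nat_lit 5) 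
(.lf (nat_lit 20743) (.g (nat_lit 1233) (.e (nat_lit 1181) (nat_lit 87) (.e (nat_lit 57870) (nat_lit 264) (.e (nat_lit 1189) (nat_lit 88) (.e (nat_lit 65628) (nat_lit 14) (.e (nat_lit 401437) (nat_lit 9) (.e (nat_lit 426533) (nat_lit 28) (.e (nat_lit 352000) (nat_lit 8) .nil))))))) (.g (nat_lit 4) .nil .nil))) 
(.lf (nat_lit 20775) (.g (nat_lit 2620) (.e (nat_lit 1181) (nat_lit 87) (.e (nat_lit 57872) (nat_lit 264) (.e (nat_lit 1182) (nat_lit 87) (.e (nat_lit 57480) (nat_lit 28) (.e (nat_lit 557098) (nat_lit 13) (.e (nat_lit 172115) (nat_lit 10) (.e (nat_lit 434231) (nat_lit 23) (.e (nat_lit 532490) (nat_lit 0) (.e (nat_lit 7936) (nat_lit 343) .nil))))))))) (.g (nat_lit 5) .nil .nil)))) (.nd (nat_lit 5) 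
(.lf (nat_lit 20759) (.g (nat_lit 2842) (.e (nat_lit 1181) (nat_lit 87) (.e (nat_lit 57870) (nat_lit 264) (.e (nat_lit 1221) (nat_lit 90) (.e (nat_lit 81959) (nat_lit 24) (.e (nat_lit 123195) (nat_lit 266) (.e (nat_lit 57420) (nat_lit 13) (.e (nat_lit 352000) (nat_lit 8) .nil))))))) (.g (nat_lit 5) .nil .nil))) 
(.lf (nat_lit 20791) (.g (nat_lit 2725) (.e (nat_lit 1181) (nat_lit 87) (.e (nat_lit 57872) (nat_lit 264) (.e (nat_lit 1188) (nat_lit 88) (.e (nat_lit 65630) (nat_lit 14) (.e (nat_lit 401459) (nat_lit 13) (.e (nat_lit 483347) (nat_lit 17) (.e (nat_lit 6481) (nat_lit 343) .nil))))))) (.g (nat_lit 5) .nil .nil))))) (.nd (nat_lit 4) (.nd (nat_lit 5) 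
(.lf (nat_lit 20751) (.g (nat_lit 2637) (.e (nat_lit 1181) (nat_lit 87) (.e (nat_lit 57870) (nat_lit 264) (.e (nat_lit 1220) (nat_lit 90) (.e (nat_lit 81956) (nat_lit 23) (.e (nat_lit 106240) (nat_lit 10) (.e (nat_lit 344160) (nat_lit 37) (.e (nat_lit 647195) (nat_lit 9) .nil))))))) (.g (nat_lit 4) .nil .nil))) 
(.lf (nat_lit 20783) (.g (nat_lit 2326) (.e (nat_lit 1181) (nat_lit 87) (.e (nat_lit 57872) (nat_lit 264) (.e (nat_lit 1188) (nat_lit 88) (.e (nat_lit 65630) (nat_lit 14) (.e (nat_lit 401437) (nat_lit 9) (.e (nat_lit 426533) (nat_lit 28) (.e (nat_lit 352000) (nat_lit 8) .nil))))))) (.g (nat_lit 5) .nil .nil)))) (.nd (nat_lit 5) 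
(.lf (nat_lit 20767) (.g (nat_lit 2435) (.e (nat_lit 1181) (nat_lit 87) (.e (nat_lit 57872) (nat_lit 264) (.e (nat_lit 1182) (nat_lit 87) (.e (nat_lit 57478) (nat_lit 28) (.e (nat_lit 557098) (nat_lit 13) (.e (nat_lit 172115) (nat_lit 10) (.e (nat_lit 434231) (nat_lit 23) (.e (nat_lit 532490) (nat_lit 0) (.e (nat_lit 7936) (nat_lit 343) .nil))))))))) (.g (nat_lit 5) .nil .nil))) 
(.lf (nat_lit 20799) (.g (nat_lit 3025) (.e (nat_lit 1181) (nat_lit 87) (.e (nat_lit 57872) (nat_lit 264) (.e (nat_lit 1190) (nat_lit 88) (.e (nat_lit 65628) (nat_lit 14) (.e (nat_lit 401437) (nat_lit 9) (.e (nat_lit 426533) (nat_lit 28) (.e (nat_lit 352000) (nat_lit 8) .nil))))))) (.g (nat_lit 6) .nil .nil)))))))))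

noncomputable def tv290 : DT := (.nd (nat_lit 0) (.nd (nat_lit 1) (.nd (nat_lit 2) (.nd (nat_lit 3) (.nd (nat_lit 4) (.nd (nat_lit 5) 
(.lf (nat_lit 20800) (.g (nat_lit 3614) (.e (nat_lit 1181) (nat_lit 87) (.e (nat_lit 57872) (nat_lit 264) (.e (nat_lit 1190) (nat_lit 88) (.e (nat_lit 65628) (nat_lit 14) (.e (nat_lit 401459) (nat_lit 13) (.e (nat_lit 483343) (nat_lit 17) (.e (nat_lit 6479) (nat_lit 343) .nil))))))) (.g (nat_lit 5) .nil .nil))) 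
(.lf (nat_lit 20832) (.g (nat_lit 2659) (.e (nat_lit 1181) (nat_lit 87) (.e (nat_lit 57872) (nat_lit 264) (.e (nat_lit 1199) (nat_lit 88) (.e (nat_lit 65630) (nat_lit 14) (.e (nat_lit 401437) (nat_lit 9) (.e (nat_lit 426533) (nat_lit 28) (.e (nat_lit 352000) (nat_lit 8) .nil))))))) (.g (nat_lit 6) .nil .nil)))) (.nd (nat_lit 5) 
(.lf (nat_lit 20816) (.g (nat_lit 5222) (.e (nat_lit 1181) (nat_lit 87) (.e (nat_lit 57872) (nat_lit 264) (.e (nat_lit 1190) (nat_lit 88) (.e (nat_lit 65630) (nat_lit 14) (.e (nat_lit 401459) (nat_lit 13) (.e (nat_lit 483344) (nat_lit 17) (.e (nat_lit 6486) (nat_lit 343) .nil))))))) (.g (nat_lit 6) .nil .nil))) 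
(.lf (nat_lit 20848) (.g (nat_lit 2684) (.e (nat_lit 1181) (nat_lit 87) (.e (nat_lit 57872) (nat_lit 264) (.e (nat_lit 1200) (nat_lit 88) (.e (nat_lit 65628) (nat_lit 14) (.e (nat_lit 401459) (nat_lit 13) (.e (nat_lit 483343) (nat_lit 17) (.e (nat_lit 6486) (nat_lit 343) .nil))))))) (.g (nat_lit 5) .nil .nil))))) (.nd (nat_lit 4) (.nd (nat_lit 5) 
(.lf (nat_lit 20808) (.g (nat_lit 4024) (.e (nat_lit 1181) (nat_lit 87) (.e (nat_lit 57872) (nat_lit 264) (.e (nat_lit 1190) (nat_lit 88) (.e (nat_lit 65628) (nat_lit 14) (.e (nat_lit 401459) (nat_lit 13) (.e (nat_lit 483350) (nat_lit 17) (.e (nat_lit 7936) (nat_lit 343) .nil))))))) (.g (nat_lit 6) .nil .nil))) 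
(.lf (nat_lit 20840) (.g (nat_lit 3256) (.e (nat_lit 1181) (nat_lit 87) (.e (nat_lit 57872) (nat_lit 264) (.e (nat_lit 1199) (nat_lit 88) (.e (nat_lit 65630) (nat_lit 14) (.e (nat_lit 401459) (nat_lit 13) (.e (nat_lit 483347) (nat_lit 17) (.e (nat_lit 6481) (nat_lit 343) .nil))))))) (.g (nat_lit 5) .nil .nil)))) (.nd (nat_lit 5) 
(.lf (nat_lit 20824) (.g (nat_lit 2129) (.e (nat_lit 1181) (nat_lit 87) (.e (nat_lit 57872) (nat_lit 264) (.e (nat_lit 1199) (nat_lit 88) (.e (nat_lit 65628) (nat_lit 14) (.e (nat_lit 401437) (nat_lit 9) (.e (nat_lit 426533) (nat_lit 28) (.e (nat_lit 352000) (nat_lit 8) .nil))))))) (.g (nat_lit 4) .nil .nil))) 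
(.lf (nat_lit 20856) (.g (nat_lit 3939) (.e (nat_lit 1181) (nat_lit 87) (.e (nat_lit 57872) (nat_lit 264) (.e (nat_lit 1200) (nat_lit 88) (.e (nat_lit 65628) (nat_lit 14) (.e (nat_lit 401459) (nat_lit 13) (.e (nat_lit 483350) (nat_lit 17) (.e (nat_lit 7936) (nat_lit 343) .nil))))))) (.g (nat_lit 6) .nil .nil)))))) (.nd (nat_lit 3) (.nd (nat_lit 4) (.nd (nat_lit 5) 
(.lf (nat_lit 20804) (.g (nat_lit 4139) (.e (nat_lit 1181) (nat_lit 87) (.e (nat_lit 57872) (nat_lit 264) (.e (nat_lit 1190) (nat_lit 88) (.e (nat_lit 65628) (nat_lit 14) (.e (nat_lit 401459) (nat_lit 13) (.e (nat_lit 483344) (nat_lit 17) (.e (nat_lit 6486) (nat_lit 343) .nil))))))) (.g (nat_lit 6) .nil .nil))) 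
(.lf (nat_lit 20836) (.g (nat_lit 3415) (.e (nat_lit 1181) (nat_lit 87) (.e (nat_lit 57872) (nat_lit 264) (.e (nat_lit 1199) (nat_lit 88) (.e (nat_lit 65630) (nat_lit 14) (.e (nat_lit 401459) (nat_lit 13) (.e (nat_lit 483344) (nat_lit 17) (.e (nat_lit 6440) (nat_lit 343) .nil))))))) (.g (nat_lit 5) .nil .nil)))) (.nd (nat_lit 5) 
(.lf (nat_lit 20820) (.g (nat_lit 2426) (.e (nat_lit 1181) (nat_lit 87) (.e (nat_lit 57872) (nat_lit 264) (.e (nat_lit 1199) (nat_lit 88) (.e (nat_lit 65610) (nat_lit 10) (.e (nat_lit 344117) (nat_lit 21) (.e (nat_lit 516099) (nat_lit 0) (.e (nat_lit 7936) (nat_lit 220) (.e (nat_lit 720949) (nat_lit 24) (.e (nat_lit 106517) (nat_lit 9) .nil))))))))) (.g (nat_lit 5) .nil .nil))) 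
(.lf (nat_lit 20852) (.g (nat_lit 3970) (.e (nat_lit 1181) (nat_lit 87) (.e (nat_lit 57872) (nat_lit 264) (.e (nat_lit 1200) (nat_lit 88) (.e (nat_lit 65628) (nat_lit 14) (.e (nat_lit 401459) (nat_lit 13) (.e (nat_lit 483344) (nat_lit 17) (.e (nat_lit 6486) (nat_lit 343) .nil))))))) (.g (nat_lit 6) .nil .nil))))) (.nd (nat_lit 4) (.nd (nat_lit 5) 
(.lf (nat_lit 20812) (.g (nat_lit 3488) (.e (nat_lit 1181) (nat_lit 87) (.e (nat_lit 57872) (nat_lit 264) (.e (nat_lit 1190) (nat_lit 88) (.e (nat_lit 65630) (nat_lit 14) (.e (nat_lit 401459) (nat_lit 13) (.e (nat_lit 483343) (nat_lit 17) (.e (nat_lit 6479) (nat_lit 343) .nil))))))) (.g (nat_lit 5) .nil .nil))) 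
(.lf (nat_lit 20844) (.g (nat_lit 2948) (.e (nat_lit 1181) (nat_lit 87) (.e (nat_lit 57872) (nat_lit 264) (.e (nat_lit 1200) (nat_lit 88) (.e (nat_lit 65619) (nat_lit 10) (.e (nat_lit 344117) (nat_lit 21) (.e (nat_lit 524032) (nat_lit 27) (.e (nat_lit 344160) (nat_lit 37) (.e (nat_lit 647195) (nat_lit 9) .nil)))))))) (.g (nat_lit 5) .nil .nil)))) (.nd (nat_lit 5) 
(.lf (nat_lit 20828) (.g (nat_lit 3569) (.e (nat_lit 1181) (nat_lit 87) (.e (nat_lit 57872) (nat_lit 264) (.e (nat_lit 1199) (nat_lit 88) (.e (nat_lit 65628) (nat_lit 14) (.e (nat_lit 401459) (nat_lit 13) (.e (nat_lit 483344) (nat_lit 17) (.e (nat_lit 6486) (nat_lit 343) .nil))))))) (.g (nat_lit 6) .nil .nil))) 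
(.lf (nat_lit 20860) (.g (nat_lit 4031) (.e (nat_lit 1181) (nat_lit 87) (.e (nat_lit 57872) (nat_lit 264) (.e (nat_lit 1200) (nat_lit 88) (.e (nat_lit 65629) (nat_lit 14) (.e (nat_lit 401459) (nat_lit 13) (.e (nat_lit 483344) (nat_lit 17) (.e (nat_lit 6444) (nat_lit 343) .nil))))))) (.g (nat_lit 6) .nil .nil))))))) (.nd (nat_lit 2) (.nd (nat_lit 3) (.nd (nat_lit 4) (.nd (nat_lit 5) 
(.lf (nat_lit 20802) (.g (nat_lit 3886) (.e (nat_lit 1181) (nat_lit 87) (.e (nat_lit 57872) (nat_lit 264) (.e (nat_lit 1190) (nat_lit 88) (.e (nat_lit 65628) (nat_lit 14) (.e (nat_lit 401459) (nat_lit 13) (.e (nat_lit 483344) (nat_lit 17) (.e (nat_lit 6444) (nat_lit 343) .nil))))))) (.g (nat_lit 6) .nil .nil))) 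
(.lf (nat_lit 20834) (.g (nat_lit 4218) (.e (nat_lit 1181) (nat_lit 87) (.e (nat_lit 57872) (nat_lit 264) (.e (nat_lit 1199) (nat_lit 88) (.e (nat_lit 65630) (nat_lit 14) (.e (nat_lit 401459) (nat_lit 13) (.e (nat_lit 483343) (nat_lit 17) (.e (nat_lit 6479) (nat_lit 343) .nil))))))) (.g (nat_lit 5) .nil .nil)))) (.nd (nat_lit 5) 
(.lf (nat_lit 20818) (.g (nat_lit 4045) (.e (nat_lit 1181) (nat_lit 87) (.e (nat_lit 57872) (nat_lit 264) (.e (nat_lit 1190) (nat_lit 88) (.e (nat_lit 65630) (nat_lit 14) (.e (nat_lit 401459) (nat_lit 13) (.e (nat_lit 483350) (nat_lit 17) (.e (nat_lit 7936) (nat_lit 343) .nil))))))) (.g (nat_lit 5) .nil .nil))) 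
(.lf (nat_lit 20850) (.g (nat_lit 3717) (.e (nat_lit 1181) (nat_lit 87) (.e (nat_lit 57872) (nat_lit 264) (.e (nat_lit 1200) (nat_lit 88) (.e (nat_lit 65628) (nat_lit 14) (.e (nat_lit 401459) (nat_lit 13) (.e (nat_lit 483344) (nat_lit 17) (.e (nat_lit 6444) (nat_lit 343) .nil))))))) (.g (nat_lit 6) .nil .nil))))) (.nd (nat_lit 4) (.nd (nat_lit 5) 
(.lf (nat_lit 20810) (.g (nat_lit 3582) (.e (nat_lit 1181) (nat_lit 87) (.e (nat_lit 57872) (nat_lit 264) (.e (nat_lit 1190) (nat_lit 88) (.e (nat_lit 65629) (nat_lit 14) (.e (nat_lit 401459) (nat_lit 13) (.e (nat_lit 483344) (nat_lit 17) (.e (nat_lit 6479) (nat_lit 343) .nil))))))) (.g (nat_lit 5) .nil .nil))) 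
(.lf (nat_lit 20842) (.g (nat_lit 3982) (.e (nat_lit 1181) (nat_lit 87) (.e (nat_lit 57872) (nat_lit 264) (.e (nat_lit 1199) (nat_lit 88) (.e (nat_lit 65630) (nat_lit 14) (.e (nat_lit 401459) (nat_lit 13) (.e (nat_lit 483354) (nat_lit 17) (.e (nat_lit 7936) (nat_lit 343) .nil))))))) (.g (nat_lit 5) .nil .nil)))) (.nd (nat_lit 5) 
(.lf (nat_lit 20826) (.g (nat_lit 3316) (.e (nat_lit 1181) (nat_lit 87) (.e (nat_lit 57872) (nat_lit 264) (.e (nat_lit 1199) (nat_lit 88) (.e (nat_lit 65628) (nat_lit 14) (.e (nat_lit 401459) (nat_lit 13) (.e (nat_lit 483344) (nat_lit 17) (.e (nat_lit 6444) (nat_lit 343) .nil))))))) (.g (nat_lit 6) .nil .nil))) 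
(.lf (nat_lit 20858) (.g (nat_lit 3752) (.e (nat_lit 1181) (nat_lit 87) (.e (nat_lit 57872) (nat_lit 264) (.e (nat_lit 1200) (nat_lit 88) (.e (nat_lit 65629) (nat_lit 14) (.e (nat_lit 401459) (nat_lit 13) (.e (nat_lit 483343) (nat_lit 17) (.e (nat_lit 6479) (nat_lit 343) .nil))))))) (.g (nat_lit 5) .nil .nil)))))) (.nd (nat_lit 3) (.nd (nat_lit 4) (.nd (nat_lit 5) 
(.lf (nat_lit 20806) (.g (nat_lit 2929) (.e (nat_lit 1181) (nat_lit 87) (.e (nat_lit 57872) (nat_lit 264) (.e (nat_lit 1190) (nat_lit 88) (.e (nat_lit 65628) (nat_lit 14) (.e (nat_lit 401459) (nat_lit 13) (.e (nat_lit 483347) (nat_lit 17) (.e (nat_lit 6481) (nat_lit 343) .nil))))))) (.g (nat_lit 5) .nil .nil))) 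
(.lf (nat_lit 20838) (.g (nat_lit 5086) (.e (nat_lit 1181) (nat_lit 87) (.e (nat_lit 57872) (nat_lit 264) (.e (nat_lit 1199) (nat_lit 88) (.e (nat_lit 65630) (nat_lit 14) (.e (nat_lit 401459) (nat_lit 13) (.e (nat_lit 483344) (nat_lit 17) (.e (nat_lit 6486) (nat_lit 343) .nil))))))) (.g (nat_lit 7) .nil .nil)))) (.nd (nat_lit 5) 
(.lf (nat_lit 20822) (.g (nat_lit 1880) (.e (nat_lit 1181) (nat_lit 87) (.e (nat_lit 57872) (nat_lit 264) (.e (nat_lit 1199) (nat_lit 88) (.e (nat_lit 65622) (nat_lit 12) (.e (nat_lit 385093) (nat_lit 49) (.e (nat_lit 778323) (nat_lit 5) (.e (nat_lit 81664) (nat_lit 40) .nil))))))) (.g (nat_lit 4) .nil .nil))) 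
(.lf (nat_lit 20854) (.g (nat_lit 2827) (.e (nat_lit 1181) (nat_lit 87) (.e (nat_lit 57872) (nat_lit 264) (.e (nat_lit 1200) (nat_lit 88) (.e (nat_lit 65628) (nat_lit 14) (.e (nat_lit 401459) (nat_lit 13) (.e (nat_lit 483347) (nat_lit 17) (.e (nat_lit 6481) (nat_lit 343) .nil))))))) (.g (nat_lit 5) .nil .nil))))) (.nd (nat_lit 4) (.nd (nat_lit 5) 
(.lf (nat_lit 20814) (.g (nat_lit 4952) (.e (nat_lit 1181) (nat_lit 87) (.e (nat_lit 57872) (nat_lit 264) (.e (nat_lit 1190) (nat_lit 88) (.e (nat_lit 65630) (nat_lit 14) (.e (nat_lit 401459) (nat_lit 13) (.e (nat_lit 483344) (nat_lit 17) (.e (nat_lit 6444) (nat_lit 343) .nil))))))) (.g (nat_lit 6) .nil .nil))) 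
(.lf (nat_lit 20846) (.g (nat_lit 2954) (.e (nat_lit 1181) (nat_lit 87) (.e (nat_lit 57872) (nat_lit 264) (.e (nat_lit 1200) (nat_lit 88) (.e (nat_lit 65628) (nat_lit 14) (.e (nat_lit 401437) (nat_lit 9) (.e (nat_lit 426533) (nat_lit 28) (.e (nat_lit 352000) (nat_lit 8) .nil))))))) (.g (nat_lit 6) .nil .nil)))) (.nd (nat_lit 5) 
(.lf (nat_lit 20830) (.g (nat_lit 4109) (.e (nat_lit 1181) (nat_lit 87) (.e (nat_lit 57872) (nat_lit 264) (.e (nat_lit 1199) (nat_lit 88) (.e (nat_lit 65629) (nat_lit 14) (.e (nat_lit 401459) (nat_lit 13) (.e (nat_lit 483344) (nat_lit 17) (.e (nat_lit 6479) (nat_lit 343) .nil))))))) (.g (nat_lit 5) .nil .nil))) 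
(.lf (nat_lit 20862) (.g (nat_lit 4284) (.e (nat_lit 1181) (nat_lit 87) (.e (nat_lit 57872) (nat_lit 264) (.e (nat_lit 1200) (nat_lit 88) (.e (nat_lit 65629) (nat_lit 14) (.e (nat_lit 401459) (nat_lit 13) (.e (nat_lit 483344) (nat_lit 17) (.e (nat_lit 6486) (nat_lit 343) .nil))))))) (.g (nat_lit 6) .nil .nil)))))))) 
(.nd (nat_lit 1) (.nd (nat_lit 2) (.nd (nat_lit 3) (.nd (nat_lit 4) (.nd (nat_lit 5) 
(.lf (nat_lit 20801) (.g (nat_lit 2786) (.e (nat_lit 1181) (nat_lit 87) (.e (nat_lit 57872) (nat_lit 264) (.e (nat_lit 1190) (nat_lit 88) (.e (nat_lit 65628) (nat_lit 14) (.e (nat_lit 401459) (nat_lit 13) (.e (nat_lit 483343) (nat_lit 17) (.e (nat_lit 6486) (nat_lit 343) .nil))))))) (.g (nat_lit 5) .nil .nil))) 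
(.lf (nat_lit 20833) (.g (nat_lit 3410) (.e (nat_lit 1181) (nat_lit 87) (.e (nat_lit 57872) (nat_lit 264) (.e (nat_lit 1199) (nat_lit 88) (.e (nat_lit 65630) (nat_lit 14) (.e (nat_lit 401457) (nat_lit 13) (.e (nat_lit 483346) (nat_lit 17) (.e (nat_lit 6479) (nat_lit 343) .nil))))))) (.g (nat_lit 5) .nil .nil)))) (.nd (nat_lit 5) 
(.lf (nat_lit 20817) (.g (nat_lit 4019) (.e (nat_lit 1181) (nat_lit 87) (.e (nat_lit 57872) (nat_lit 264) (.e (nat_lit 1190) (nat_lit 88) (.e (nat_lit 65630) (nat_lit 14) (.e (nat_lit 401459) (nat_lit 13) (.e (nat_lit 483344) (nat_lit 17) (.e (nat_lit 7936) (nat_lit 343) .nil))))))) (.g (nat_lit 5) .nil .nil))) 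
(.lf (nat_lit 20849) (.g (nat_lit 2305) (.e (nat_lit 1181) (nat_lit 87) (.e (nat_lit 57872) (nat_lit 264) (.e (nat_lit 1200) (nat_lit 88) (.e (nat_lit 65628) (nat_lit 14) (.e (nat_lit 401459) (nat_lit 13) (.e (nat_lit 483344) (nat_lit 17) (.e (nat_lit 6440) (nat_lit 343) .nil))))))) (.g (nat_lit 4) .nil .nil))))) (.nd (nat_lit 4) (.nd (nat_lit 5) 
(.lf (nat_lit 20809) (.g (nat_lit 3642) (.e (nat_lit 1181) (nat_lit 87) (.e (nat_lit 57872) (nat_lit 264) (.e (nat_lit 1190) (nat_lit 88) (.e (nat_lit 65628) (nat_lit 14) (.e (nat_lit 401459) (nat_lit 13) (.e (nat_lit 483354) (nat_lit 17) (.e (nat_lit 7936) (nat_lit 343) .nil))))))) (.g (nat_lit 5) .nil .nil))) 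
(.lf (nat_lit 20841) (.g (nat_lit 3604) (.e (nat_lit 1181) (nat_lit 87) (.e (nat_lit 57872) (nat_lit 264) (.e (nat_lit 1199) (nat_lit 88) (.e (nat_lit 65630) (nat_lit 14) (.e (nat_lit 401459) (nat_lit 13) (.e (nat_lit 483347) (nat_lit 17) (.e (nat_lit 7936) (nat_lit 343) .nil))))))) (.g (nat_lit 5) .nil .nil)))) (.nd (nat_lit 5) 
(.lf (nat_lit 20825) (.g (nat_lit 3022) (.e (nat_lit 1181) (nat_lit 87) (.e (nat_lit 57872) (nat_lit 264) (.e (nat_lit 1199) (nat_lit 88) (.e (nat_lit 65628) (nat_lit 14) (.e (nat_lit 401459) (nat_lit 13) (.e (nat_lit 483343) (nat_lit 17) (.e (nat_lit 6479) (nat_lit 343) .nil))))))) (.g (nat_lit 5) .nil .nil))) 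
(.lf (nat_lit 20857) (.g (nat_lit 3550) (.e (nat_lit 1181) (nat_lit 87) (.e (nat_lit 57872) (nat_lit 264) (.e (nat_lit 1200) (nat_lit 88) (.e (nat_lit 65628) (nat_lit 14) (.e (nat_lit 401459) (nat_lit 13) (.e (nat_lit 483354) (nat_lit 17) (.e (nat_lit 7936) (nat_lit 343) .nil))))))) (.g (nat_lit 5) .nil .nil)))))) (.nd (nat_lit 3) (.nd (nat_lit 4) (.nd (nat_lit 5) 
(.lf (nat_lit 20805) (.g (nat_lit 3227) (.e (nat_lit 1181) (nat_lit 87) (.e (nat_lit 57872) (nat_lit 264) (.e (nat_lit 1190) (nat_lit 88) (.e (nat_lit 65628) (nat_lit 14) (.e (nat_lit 401459) (nat_lit 13) (.e (nat_lit 483344) (nat_lit 17) (.e (nat_lit 7936) (nat_lit 343) .nil))))))) (.g (nat_lit 6) .nil .nil))) 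
(.lf (nat_lit 20837) (.g (nat_lit 4816) (.e (nat_lit 1181) (nat_lit 87) (.e (nat_lit 57872) (nat_lit 264) (.e (nat_lit 1199) (nat_lit 88) (.e (nat_lit 65630) (nat_lit 14) (.e (nat_lit 401459) (nat_lit 13) (.e (nat_lit 483344) (nat_lit 17) (.e (nat_lit 6444) (nat_lit 343) .nil))))))) (.g (nat_lit 7) .nil .nil)))) (.nd (nat_lit 5) 
(.lf (nat_lit 20821) (.g (nat_lit 3178) (.e (nat_lit 1181) (nat_lit 87) (.e (nat_lit 57872) (nat_lit 264) (.e (nat_lit 1199) (nat_lit 88) (.e (nat_lit 65610) (nat_lit 10) (.e (nat_lit 344117) (nat_lit 21) (.e (nat_lit 516099) (nat_lit 0) (.e (nat_lit 7936) (nat_lit 220) (.e (nat_lit 720949) (nat_lit 24) (.e (nat_lit 106526) (nat_lit 9) .nil))))))))) (.g (nat_lit 5) .nil .nil))) 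
(.lf (nat_lit 20853) (.g (nat_lit 3064) (.e (nat_lit 1181) (nat_lit 87) (.e (nat_lit 57872) (nat_lit 264) (.e (nat_lit 1200) (nat_lit 88) (.e (nat_lit 65628) (nat_lit 14) (.e (nat_lit 401459) (nat_lit 13) (.e (nat_lit 483344) (nat_lit 17) (.e (nat_lit 7936) (nat_lit 343) .nil))))))) (.g (nat_lit 5) .nil .nil))))) (.nd (nat_lit 4) (.nd (nat_lit 5) 
(.lf (nat_lit 20813) (.g (nat_lit 3551) (.e (nat_lit 1181) (nat_lit 87) (.e (nat_lit 57872) (nat_lit 264) (.e (nat_lit 1190) (nat_lit 88) (.e (nat_lit 65630) (nat_lit 14) (.e (nat_lit 401459) (nat_lit 13) (.e (nat_lit 483344) (nat_lit 17) (.e (nat_lit 6440) (nat_lit 343) .nil))))))) (.g (nat_lit 5) .nil .nil))) 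
(.lf (nat_lit 20845) (.g (nat_lit 2927) (.e (nat_lit 1181) (nat_lit 87) (.e (nat_lit 57872) (nat_lit 264) (.e (nat_lit 1200) (nat_lit 88) (.e (nat_lit 65624) (nat_lit 12) (.e (nat_lit 385093) (nat_lit 49) (.e (nat_lit 778323) (nat_lit 5) (.e (nat_lit 81664) (nat_lit 40) .nil))))))) (.g (nat_lit 5) .nil .nil)))) (.nd (nat_lit 5) 
(.lf (nat_lit 20829) (.g (nat_lit 2852) (.e (nat_lit 1181) (nat_lit 87) (.e (nat_lit 57872) (nat_lit 264) (.e (nat_lit 1199) (nat_lit 88) (.e (nat_lit 65628) (nat_lit 14) (.e (nat_lit 401459) (nat_lit 13) (.e (nat_lit 483354) (nat_lit 17) (.e (nat_lit 7936) (nat_lit 343) .nil))))))) (.g (nat_lit 5) .nil .nil))) 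
(.lf (nat_lit 20861) (.g (nat_lit 4980) (.e (nat_lit 1181) (nat_lit 87) (.e (nat_lit 57872) (nat_lit 264) (.e (nat_lit 1200) (nat_lit 88) (.e (nat_lit 65629) (nat_lit 14) (.e (nat_lit 401459) (nat_lit 13) (.e (nat_lit 483344) (nat_lit 17) (.e (nat_lit 6479) (nat_lit 343) .nil))))))) (.g (nat_lit 6) .nil .nil))))))) (.nd (nat_lit 2) (.nd (nat_lit 3) (.nd (nat_lit 4) (.nd (nat_lit 5) 
(.lf (nat_lit 20803) (.g (nat_lit 4835) (.e (nat_lit 1181) (nat_lit 87) (.e (nat_lit 57872) (nat_lit 264) (.e (nat_lit 1190) (nat_lit 88) (.e (nat_lit 65628) (nat_lit 14) (.e (nat_lit 401459) (nat_lit 13) (.e (nat_lit 483344) (nat_lit 17) (.e (nat_lit 6479) (nat_lit 343) .nil))))))) (.g (nat_lit 7) .nil .nil))) 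
(.lf (nat_lit 20835) (.g (nat_lit 3400) (.e (nat_lit 1181) (nat_lit 87) (.e (nat_lit 57872) (nat_lit 264) (.e (nat_lit 1199) (nat_lit 88) (.e (nat_lit 65630) (nat_lit 14) (.e (nat_lit 401459) (nat_lit 13) (.e (nat_lit 483343) (nat_lit 17) (.e (nat_lit 6486) (nat_lit 343) .nil))))))) (.g (nat_lit 5) .nil .nil)))) (.nd (nat_lit 5) 
(.lf (nat_lit 20819) (.g (nat_lit 3550) (.e (nat_lit 1181) (nat_lit 87) (.e (nat_lit 57872) (nat_lit 264) (.e (nat_lit 1190) (nat_lit 88) (.e (nat_lit 65630) (nat_lit 14) (.e (nat_lit 401459) (nat_lit 13) (.e (nat_lit 483354) (nat_lit 17) (.e (nat_lit 7936) (nat_lit 343) .nil))))))) (.g (nat_lit 5) .nil .nil))) 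
(.lf (nat_lit 20851) (.g (nat_lit 4666) (.e (nat_lit 1181) (nat_lit 87) (.e (nat_lit 57872) (nat_lit 264) (.e (nat_lit 1200) (nat_lit 88) (.e (nat_lit 65628) (nat_lit 14) (.e (nat_lit 401459) (nat_lit 13) (.e (nat_lit 483344) (nat_lit 17) (.e (nat_lit 6479) (nat_lit 343) .nil))))))) (.g (nat_lit 6) .nil .nil))))) (.nd (nat_lit 4) (.nd (nat_lit 5) 
(.lf (nat_lit 20811) (.g (nat_lit 2578) (.e (nat_lit 1181) (nat_lit 87) (.e (nat_lit 57872) (nat_lit 264) (.e (nat_lit 1190) (nat_lit 88) (.e (nat_lit 65630) (nat_lit 14) (.e (nat_lit 401437) (nat_lit 9) (.e (nat_lit 426533) (nat_lit 28) (.e (nat_lit 352000) (nat_lit 8) .nil))))))) (.g (nat_lit 5) .nil .nil))) 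
(.lf (nat_lit 20843) (.g (nat_lit 1978) (.e (nat_lit 1181) (nat_lit 87) (.e (nat_lit 57872) (nat_lit 264) (.e (nat_lit 1200) (nat_lit 88) (.e (nat_lit 65604) (nat_lit 9) (.e (nat_lit 336028) (nat_lit 3) (.e (nat_lit 106240) (nat_lit 10) (.e (nat_lit 344164) (nat_lit 37) (.e (nat_lit 647195) (nat_lit 9) .nil)))))))) (.g (nat_lit 4) .nil .nil)))) (.nd (nat_lit 5) 
(.lf (nat_lit 20827) (.g (nat_lit 4255) (.e (nat_lit 1181) (nat_lit 87) (.e (nat_lit 57872) (nat_lit 264) (.e (nat_lit 1199) (nat_lit 88) (.e (nat_lit 65628) (nat_lit 14) (.e (nat_lit 401459) (nat_lit 13) (.e (nat_lit 483344) (nat_lit 17) (.e (nat_lit 6479) (nat_lit 343) .nil))))))) (.g (nat_lit 6) .nil .nil))) 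
(.lf (nat_lit 20859) (.g (nat_lit 2924) (.e (nat_lit 1181) (nat_lit 87) (.e (nat_lit 57872) (nat_lit 264) (.e (nat_lit 1200) (nat_lit 88) (.e (nat_lit 65629) (nat_lit 14) (.e (nat_lit 401459) (nat_lit 13) (.e (nat_lit 483343) (nat_lit 17) (.e (nat_lit 6486) (nat_lit 343) .nil))))))) (.g (nat_lit 5) .nil .nil)))))) (.nd (nat_lit 3) (.nd (nat_lit 4) (.nd (nat_lit 5) 
(.lf (nat_lit 20807) (.g (nat_lit 3492) (.e (nat_lit 1181) (nat_lit 87) (.e (nat_lit 57872) (nat_lit 264) (.e (nat_lit 1190) (nat_lit 88) (.e (nat_lit 65628) (nat_lit 14) (.e (nat_lit 401459) (nat_lit 13) (.e (nat_lit 483347) (nat_lit 17) (.e (nat_lit 7936) (nat_lit 343) .nil))))))) (.g (nat_lit 5) .nil .nil))) 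
(.lf (nat_lit 20839) (.g (nat_lit 3669) (.e (nat_lit 1181) (nat_lit 87) (.e (nat_lit 57872) (nat_lit 264) (.e (nat_lit 1199) (nat_lit 88) (.e (nat_lit 65630) (nat_lit 14) (.e (nat_lit 401459) (nat_lit 13) (.e (nat_lit 483344) (nat_lit 17) (.e (nat_lit 7936) (nat_lit 343) .nil))))))) (.g (nat_lit 6) .nil .nil)))) (.nd (nat_lit 5) 
(.lf (nat_lit 20823) (.g (nat_lit 3199) (.e (nat_lit 1181) (nat_lit 87) (.e (nat_lit 57872) (nat_lit 264) (.e (nat_lit 1199) (nat_lit 88) (.e (nat_lit 65624) (nat_lit 12) (.e (nat_lit 385093) (nat_lit 49) (.e (nat_lit 778323) (nat_lit 5) (.e (nat_lit 81664) (nat_lit 40) .nil))))))) (.g (nat_lit 6) .nil .nil))) 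
(.lf (nat_lit 20855) (.g (nat_lit 3396) (.e (nat_lit 1181) (nat_lit 87) (.e (nat_lit 57872) (nat_lit 264) (.e (nat_lit 1200) (nat_lit 88) (.e (nat_lit 65628) (nat_lit 14) (.e (nat_lit 401459) (nat_lit 13) (.e (nat_lit 483347) (nat_lit 17) (.e (nat_lit 7936) (nat_lit 343) .nil))))))) (.g (nat_lit 5) .nil .nil))))) (.nd (nat_lit 4) (.nd (nat_lit 5) 
(.lf (nat_lit 20815) (.g (nat_lit 5904) (.e (nat_lit 1181) (nat_lit 87) (.e (nat_lit 57872) (nat_lit 264) (.e (nat_lit 1190) (nat_lit 88) (.e (nat_lit 65630) (nat_lit 14) (.e (nat_lit 401459) (nat_lit 13) (.e (nat_lit 483344) (nat_lit 17) (.e (nat_lit 6479) (nat_lit 343) .nil))))))) (.g (nat_lit 7) .nil .nil))) 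
(.lf (nat_lit 20847) (.g (nat_lit 3512) (.e (nat_lit 1181) (nat_lit 87) (.e (nat_lit 57872) (nat_lit 264) (.e (nat_lit 1200) (nat_lit 88) (.e (nat_lit 65628) (nat_lit 14) (.e (nat_lit 401459) (nat_lit 13) (.e (nat_lit 483343) (nat_lit 17) (.e (nat_lit 6479) (nat_lit 343) .nil))))))) (.g (nat_lit 5) .nil .nil)))) (.nd (nat_lit 5) 
(.lf (nat_lit 20831) (.g (nat_lit 3423) (.e (nat_lit 1181) (nat_lit 87) (.e (nat_lit 57872) (nat_lit 264) (.e (nat_lit 1199) (nat_lit 88) (.e (nat_lit 65629) (nat_lit 14) (.e (nat_lit 401459) (nat_lit 13) (.e (nat_lit 483344) (nat_lit 17) (.e (nat_lit 6486) (nat_lit 343) .nil))))))) (.g (nat_lit 5) .nil .nil))) 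
(.lf (nat_lit 20863) (.g (nat_lit 3270) (.e (nat_lit 1181) (nat_lit 87) (.e (nat_lit 57872) (nat_lit 264) (.e (nat_lit 1200) (nat_lit 88) (.e (nat_lit 65629) (nat_lit 14) (.e (nat_lit 401459) (nat_lit 13) (.e (nat_lit 483344) (nat_lit 17) (.e (nat_lit 7936) (nat_lit 343) .nil))))))) (.g (nat_lit 5) .nil .nil)))))))))

noncomputable def tv291 : DT := (.nd (nat_lit 0) (.nd (nat_lit 1) (.nd (nat_lit 2) (.nd (nat_lit 3) (.nd (nat_lit 4) (.nd (nat_lit 5) 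
(.lf (nat_lit 20864) (.g (nat_lit 3504) (.e (nat_lit 1181) (nat_lit 87) (.e (nat_lit 57872) (nat_lit 264) (.e (nat_lit 1200) (nat_lit 88) (.e (nat_lit 65629) (nat_lit 14) (.e (nat_lit 401459) (nat_lit 13) (.e (nat_lit 483347) (nat_lit 17) (.e (nat_lit 6481) (nat_lit 343) .nil))))))) (.g (nat_lit 5) .nil .nil))) 
(.lf (nat_lit 20896) (.g (nat_lit 2667) (.e (nat_lit 1181) (nat_lit 87) (.e (nat_lit 57872) (nat_lit 264) (.e (nat_lit 1211) (nat_lit 89) (.e (nat_lit 81664) (nat_lit 35) (.e (nat_lit 163977) (nat_lit 30) (.e (nat_lit 573487) (nat_lit 14) (.e (nat_lit 73766) (nat_lit 19) (.e (nat_lit 647196) (nat_lit 9) .nil)))))))) (.g (nat_lit 6) .nil .nil)))) (.nd (nat_lit 5) 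
(.lf (nat_lit 20880) (.g (nat_lit 3248) (.e (nat_lit 1181) (nat_lit 87) (.e (nat_lit 57872) (nat_lit 264) (.e (nat_lit 1209) (nat_lit 89) (.e (nat_lit 81664) (nat_lit 35) (.e (nat_lit 163977) (nat_lit 30) (.e (nat_lit 573489) (nat_lit 14) (.e (nat_lit 73767) (nat_lit 19) (.e (nat_lit 647194) (nat_lit 9) .nil)))))))) (.g (nat_lit 6) .nil .nil))) 
(.lf (nat_lit 20912) (.g (nat_lit 3079) (.e (nat_lit 1181) (nat_lit 87) (.e (nat_lit 57872) (nat_lit 264) (.e (nat_lit 1220) (nat_lit 90) (.e (nat_lit 81956) (nat_lit 23) (.e (nat_lit 106240) (nat_lit 10) .nil))))) .nil)))) (.nd (nat_lit 4) (.nd (nat_lit 5) 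
(.lf (nat_lit 20872) (.g (nat_lit 4197) (.e (nat_lit 1181) (nat_lit 87) (.e (nat_lit 57872) (nat_lit 264) (.e (nat_lit 1200) (nat_lit 88) (.e (nat_lit 65630) (nat_lit 14) (.e (nat_lit 401459) (nat_lit 13) (.e (nat_lit 483344) (nat_lit 17) (.e (nat_lit 6486) (nat_lit 343) .nil))))))) (.g (nat_lit 6) .nil .nil))) 
(.lf (nat_lit 20904) (.g (nat_lit 1162) (.e (nat_lit 1181) (nat_lit 87) (.e (nat_lit 57872) (nat_lit 264) (.e (nat_lit 1219) (nat_lit 90) (.e (nat_lit 81954) (nat_lit 23) .nil)))) .nil))) (.nd (nat_lit 5) 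
(.lf (nat_lit 20888) (.g (nat_lit 2918) (.e (nat_lit 1181) (nat_lit 87) (.e (nat_lit 57872) (nat_lit 264) (.e (nat_lit 1209) (nat_lit 89) (.e (nat_lit 81664) (nat_lit 38) (.e (nat_lit 229433) (nat_lit 25) (.e (nat_lit 532515) (nat_lit 3) (.e (nat_lit 114722) (nat_lit 24) (.e (nat_lit 106521) (nat_lit 9) .nil)))))))) (.g (nat_lit 6) .nil .nil))) 
(.lf (nat_lit 20920) (.g (nat_lit 2429) (.e (nat_lit 1181) (nat_lit 87) (.e (nat_lit 57872) (nat_lit 264) (.e (nat_lit 1221) (nat_lit 90) (.e (nat_lit 81953) (nat_lit 22) (.e (nat_lit 90133) (nat_lit 9) .nil))))) .nil))))) (.nd (nat_lit 3) (.nd (nat_lit 4) (.nd (nat_lit 5) 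
(.lf (nat_lit 20868) (.g (nat_lit 2536) (.e (nat_lit 1181) (nat_lit 87) (.e (nat_lit 57872) (nat_lit 264) (.e (nat_lit 1200) (nat_lit 88) (.e (nat_lit 65630) (nat_lit 14) (.e (nat_lit 401437) (nat_lit 9) (.e (nat_lit 426533) (nat_lit 28) (.e (nat_lit 352000) (nat_lit 8) .nil))))))) (.g (nat_lit 5) .nil .nil))) 
(.lf (nat_lit 20900) (.g (nat_lit 3349) (.e (nat_lit 1181) (nat_lit 87) (.e (nat_lit 57872) (nat_lit 264) (.e (nat_lit 1211) (nat_lit 89) (.e (nat_lit 81664) (nat_lit 35) (.e (nat_lit 163978) (nat_lit 30) (.e (nat_lit 573489) (nat_lit 14) (.e (nat_lit 73768) (nat_lit 19) (.e (nat_lit 647196) (nat_lit 9) .nil)))))))) (.g (nat_lit 6) .nil .nil)))) (.nd (nat_lit 5) 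
(.lf (nat_lit 20884) (.g (nat_lit 3643) (.e (nat_lit 1181) (nat_lit 87) (.e (nat_lit 57872) (nat_lit 264) (.e (nat_lit 1209) (nat_lit 89) (.e (nat_lit 81664) (nat_lit 35) (.e (nat_lit 163978) (nat_lit 30) (.e (nat_lit 573489) (nat_lit 14) (.e (nat_lit 73768) (nat_lit 19) (.e (nat_lit 647196) (nat_lit 9) .nil)))))))) (.g (nat_lit 6) .nil .nil))) 
(.lf (nat_lit 20916) (.g (nat_lit 1513) (.e (nat_lit 1181) (nat_lit 87) (.e (nat_lit 57872) (nat_lit 264) (.e (nat_lit 1221) (nat_lit 90) (.e (nat_lit 81953) (nat_lit 22) .nil)))) .nil)))) (.nd (nat_lit 4) (.nd (nat_lit 5) 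
(.lf (nat_lit 20876) (.g (nat_lit 2243) (.e (nat_lit 1181) (nat_lit 87) (.e (nat_lit 57872) (nat_lit 264) (.e (nat_lit 1209) (nat_lit 89) (.e (nat_lit 73782) (nat_lit 32) (.e (nat_lit 2682) (nat_lit 168) (.e (nat_lit 204838) (nat_lit 20) (.e (nat_lit 114723) (nat_lit 24) (.e (nat_lit 106526) (nat_lit 9) .nil)))))))) (.g (nat_lit 4) .nil .nil))) 
(.lf (nat_lit 20908) (.g (nat_lit 2444) (.e (nat_lit 1181) (nat_lit 87) (.e (nat_lit 57872) (nat_lit 264) (.e (nat_lit 1219) (nat_lit 90) (.e (nat_lit 81956) (nat_lit 23) (.e (nat_lit 98321) (nat_lit 17) (.e (nat_lit 7936) (nat_lit 220) (.e (nat_lit 720948) (nat_lit 24) (.e (nat_lit 106517) (nat_lit 9) .nil)))))))) (.g (nat_lit 4) .nil .nil)))) (.nd (nat_lit 5) 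
(.lf (nat_lit 20892) (.g (nat_lit 1978) (.e (nat_lit 1181) (nat_lit 87) (.e (nat_lit 57872) (nat_lit 264) (.e (nat_lit 1211) (nat_lit 89) (.e (nat_lit 73781) (nat_lit 32) (.e (nat_lit 3090) (nat_lit 191) (.e (nat_lit 483350) (nat_lit 17) (.e (nat_lit 7936) (nat_lit 343) .nil))))))) (.g (nat_lit 4) .nil .nil))) 
(.lf (nat_lit 20924) (.g (nat_lit 2805) (.e (nat_lit 1181) (nat_lit 87) (.e (nat_lit 57872) (nat_lit 264) (.e (nat_lit 1221) (nat_lit 90) (.e (nat_lit 81953) (nat_lit 22) (.e (nat_lit 90165) (nat_lit 12) (.e (nat_lit 171776) (nat_lit 48) (.e (nat_lit 720952) (nat_lit 24) (.e (nat_lit 106517) (nat_lit 9) .nil)))))))) (.g (nat_lit 4) .nil .nil))))))) 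
(.nd (nat_lit 2) (.nd (nat_lit 3) (.nd (nat_lit 4) (.nd (nat_lit 5) 
(.lf (nat_lit 20866) (.g (nat_lit 5340) (.e (nat_lit 1181) (nat_lit 87) (.e (nat_lit 57872) (nat_lit 264) (.e (nat_lit 1200) (nat_lit 88) (.e (nat_lit 65629) (nat_lit 14) (.e (nat_lit 401459) (nat_lit 13) (.e (nat_lit 483350) (nat_lit 17) (.e (nat_lit 7936) (nat_lit 343) .nil))))))) (.g (nat_lit 6) .nil .nil))) 
(.lf (nat_lit 20898) (.g (nat_lit 2206) (.e (nat_lit 1181) (nat_lit 87) (.e (nat_lit 57872) (nat_lit 264) (.e (nat_lit 1211) (nat_lit 89) (.e (nat_lit 81664) (nat_lit 35) (.e (nat_lit 163977) (nat_lit 30) (.e (nat_lit 573489) (nat_lit 14) (.e (nat_lit 73768) (nat_lit 19) (.e (nat_lit 647188) (nat_lit 9) .nil)))))))) (.g (nat_lit 5) .nil .nil)))) (.nd (nat_lit 5) 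
(.lf (nat_lit 20882) (.g (nat_lit 3483) (.e (nat_lit 1181) (nat_lit 87) (.e (nat_lit 57872) (nat_lit 264) (.e (nat_lit 1209) (nat_lit 89) (.e (nat_lit 81664) (nat_lit 35) (.e (nat_lit 163978) (nat_lit 30) (.e (nat_lit 573489) (nat_lit 14) (.e (nat_lit 73768) (nat_lit 19) (.e (nat_lit 647194) (nat_lit 9) .nil)))))))) (.g (nat_lit 6) .nil .nil))) 
(.lf (nat_lit 20914) (.g (nat_lit 3082) (.e (nat_lit 1181) (nat_lit 87) (.e (nat_lit 57872) (nat_lit 264) (.e (nat_lit 1220) (nat_lit 90) (.e (nat_lit 81956) (nat_lit 23) (.e (nat_lit 98321) (nat_lit 17) (.e (nat_lit 7936) (nat_lit 220) (.e (nat_lit 720949) (nat_lit 24) (.e (nat_lit 106526) (nat_lit 9) .nil)))))))) (.g (nat_lit 4) .nil .nil))))) (.nd (nat_lit 4) (.nd (nat_lit 5) 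
(.lf (nat_lit 20874) (.g (nat_lit 3486) (.e (nat_lit 1181) (nat_lit 87) (.e (nat_lit 57872) (nat_lit 264) (.e (nat_lit 1209) (nat_lit 89) (.e (nat_lit 73781) (nat_lit 32) (.e (nat_lit 2856) (nat_lit 184) (.e (nat_lit 426533) (nat_lit 28) (.e (nat_lit 352000) (nat_lit 8) .nil))))))) (.g (nat_lit 6) .nil .nil))) 
(.lf (nat_lit 20906) (.g (nat_lit 2996) (.e (nat_lit 1181) (nat_lit 87) (.e (nat_lit 57872) (nat_lit 264) (.e (nat_lit 1219) (nat_lit 90) (.e (nat_lit 81956) (nat_lit 23) (.e (nat_lit 106240) (nat_lit 10) (.e (nat_lit 344160) (nat_lit 37) (.e (nat_lit 647195) (nat_lit 9) .nil))))))) (.g (nat_lit 4) .nil .nil)))) (.nd (nat_lit 5) 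
(.lf (nat_lit 20890) (.g (nat_lit 1928) (.e (nat_lit 1181) (nat_lit 87) (.e (nat_lit 57872) (nat_lit 264) (.e (nat_lit 1210) (nat_lit 89) (.e (nat_lit 81664) (nat_lit 35) (.e (nat_lit 163977) (nat_lit 30) (.e (nat_lit 573489) (nat_lit 14) (.e (nat_lit 73767) (nat_lit 19) (.e (nat_lit 647194) (nat_lit 9) .nil)))))))) (.g (nat_lit 5) .nil .nil))) 
(.lf (nat_lit 20922) (.g (nat_lit 3941) (.e (nat_lit 1181) (nat_lit 87) (.e (nat_lit 57872) (nat_lit 264) (.e (nat_lit 1221) (nat_lit 90) (.e (nat_lit 81953) (nat_lit 22) (.e (nat_lit 90160) (nat_lit 11) .nil))))) .nil))))) (.nd (nat_lit 3) (.nd (nat_lit 4) (.nd (nat_lit 5) 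
(.lf (nat_lit 20870) (.g (nat_lit 3927) (.e (nat_lit 1181) (nat_lit 87) (.e (nat_lit 57872) (nat_lit 264) (.e (nat_lit 1200) (nat_lit 88) (.e (nat_lit 65630) (nat_lit 14) (.e (nat_lit 401459) (nat_lit 13) (.e (nat_lit 483344) (nat_lit 17) (.e (nat_lit 6444) (nat_lit 343) .nil))))))) (.g (nat_lit 6) .nil .nil))) 
(.lf (nat_lit 20902) (.g (nat_lit 2334) (.e (nat_lit 1181) (nat_lit 87) (.e (nat_lit 57872) (nat_lit 264) (.e (nat_lit 1211) (nat_lit 89) (.e (nat_lit 81664) (nat_lit 38) (.e (nat_lit 229433) (nat_lit 25) (.e (nat_lit 532515) (nat_lit 3) (.e (nat_lit 114722) (nat_lit 24) (.e (nat_lit 106521) (nat_lit 9) .nil)))))))) (.g (nat_lit 6) .nil .nil)))) (.nd (nat_lit 5) 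
(.lf (nat_lit 20886) (.g (nat_lit 1340) (.e (nat_lit 1181) (nat_lit 87) (.e (nat_lit 57872) (nat_lit 264) (.e (nat_lit 1209) (nat_lit 89) (.e (nat_lit 81664) (nat_lit 38) .nil)))) .nil)) 
(.lf (nat_lit 20918) (.g (nat_lit 4685) (.e (nat_lit 1181) (nat_lit 87) (.e (nat_lit 57872) (nat_lit 264) (.e (nat_lit 1221) (nat_lit 90) (.e (nat_lit 81953) (nat_lit 22) (.e (nat_lit 90125) (nat_lit 9) (.e (nat_lit 7936) (nat_lit 22) (.e (nat_lit 344160) (nat_lit 37) (.e (nat_lit 647195) (nat_lit 9) .nil)))))))) (.g (nat_lit 4) .nil .nil))))) (.nd (nat_lit 4) (.nd (nat_lit 5) 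
(.lf (nat_lit 20878) (.g (nat_lit 2018) (.e (nat_lit 1181) (nat_lit 87) (.e (nat_lit 57872) (nat_lit 264) (.e (nat_lit 1209) (nat_lit 89) (.e (nat_lit 73782) (nat_lit 32) (.e (nat_lit 3090) (nat_lit 191) (.e (nat_lit 483350) (nat_lit 17) (.e (nat_lit 7936) (nat_lit 343) .nil))))))) (.g (nat_lit 4) .nil .nil))) 
(.lf (nat_lit 20910) (.g (nat_lit 3167) (.e (nat_lit 1181) (nat_lit 87) (.e (nat_lit 57872) (nat_lit 264) (.e (nat_lit 1219) (nat_lit 90) (.e (nat_lit 81956) (nat_lit 23) (.e (nat_lit 98321) (nat_lit 17) (.e (nat_lit 7936) (nat_lit 220) (.e (nat_lit 720949) (nat_lit 24) (.e (nat_lit 106526) (nat_lit 9) .nil)))))))) (.g (nat_lit 5) .nil .nil)))) (.nd (nat_lit 5) 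
(.lf (nat_lit 20894) (.g (nat_lit 655) (.e (nat_lit 1181) (nat_lit 87) (.e (nat_lit 57872) (nat_lit 264) (.e (nat_lit 1211) (nat_lit 89) (.e (nat_lit 81664) (nat_lit 35) .nil)))) .nil)) 
(.lf (nat_lit 20926) (.g (nat_lit 2113) (.e (nat_lit 1181) (nat_lit 87) (.e (nat_lit 57872) (nat_lit 264) (.e (nat_lit 1221) (nat_lit 90) (.e (nat_lit 81954) (nat_lit 23) (.e (nat_lit 106240) (nat_lit 10) .nil))))) .nil))))))) (.nd (nat_lit 1) (.nd (nat_lit 2) (.nd (nat_lit 3) (.nd (nat_lit 4) (.nd (nat_lit 5) 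
(.lf (nat_lit 20865) (.g (nat_lit 4039) (.e (nat_lit 1181) (nat_lit 87) (.e (nat_lit 57872) (nat_lit 264) (.e (nat_lit 1200) (nat_lit 88) (.e (nat_lit 65629) (nat_lit 14) (.e (nat_lit 401459) (nat_lit 13) (.e (nat_lit 483347) (nat_lit 17) (.e (nat_lit 7936) (nat_lit 343) .nil))))))) (.g (nat_lit 5) .nil .nil))) 
(.lf (nat_lit 20897) (.g (nat_lit 3328) (.e (nat_lit 1181) (nat_lit 87) (.e (nat_lit 57872) (nat_lit 264) (.e (nat_lit 1211) (nat_lit 89) (.e (nat_lit 81664) (nat_lit 35) (.e (nat_lit 163977) (nat_lit 30) (.e (nat_lit 573489) (nat_lit 14) (.e (nat_lit 73767) (nat_lit 19) (.e (nat_lit 647194) (nat_lit 9) .nil)))))))) (.g (nat_lit 6) .nil .nil)))) (.nd (nat_lit 5) 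
(.lf (nat_lit 20881) (.g (nat_lit 2826) (.e (nat_lit 1181) (nat_lit 87) (.e (nat_lit 57872) (nat_lit 264) (.e (nat_lit 1209) (nat_lit 89) (.e (nat_lit 81664) (nat_lit 35) (.e (nat_lit 163978) (nat_lit 30) (.e (nat_lit 573489) (nat_lit 14) (.e (nat_lit 73767) (nat_lit 19) (.e (nat_lit 647194) (nat_lit 9) .nil)))))))) (.g (nat_lit 5) .nil .nil))) 
(.lf (nat_lit 20913) (.g (nat_lit 3085) (.e (nat_lit 1181) (nat_lit 87) (.e (nat_lit 57872) (nat_lit 264) (.e (nat_lit 1220) (nat_lit 90) (.e (nat_lit 81956) (nat_lit 23) (.e (nat_lit 106240) (nat_lit 10) (.e (nat_lit 344160) (nat_lit 37) (.e (nat_lit 647195) (nat_lit 9) .nil))))))) (.g (nat_lit 4) .nil .nil))))) (.nd (nat_lit 4) (.nd (nat_lit 5) 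
(.lf (nat_lit 20873) (.g (nat_lit 3584) (.e (nat_lit 1181) (nat_lit 87) (.e (nat_lit 57872) (nat_lit 264) (.e (nat_lit 1200) (nat_lit 88) (.e (nat_lit 65630) (nat_lit 14) (.e (nat_lit 401459) (nat_lit 13) (.e (nat_lit 483350) (nat_lit 17) (.e (nat_lit 7936) (nat_lit 343) .nil))))))) (.g (nat_lit 5) .nil .nil))) 
(.lf (nat_lit 20905) (.g (nat_lit 2684) (.e (nat_lit 1181) (nat_lit 87) (.e (nat_lit 57872) (nat_lit 264) (.e (nat_lit 1219) (nat_lit 90) (.e (nat_lit 81954) (nat_lit 23) (.e (nat_lit 106240) (nat_lit 10) (.e (nat_lit 344164) (nat_lit 37) (.e (nat_lit 647196) (nat_lit 9) .nil))))))) (.g (nat_lit 4) .nil .nil)))) (.nd (nat_lit 5) 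
(.lf (nat_lit 20889) (.g (nat_lit 2835) (.e (nat_lit 1181) (nat_lit 87) (.e (nat_lit 57872) (nat_lit 264) (.e (nat_lit 1209) (nat_lit 89) (.e (nat_lit 81664) (nat_lit 38) (.e (nat_lit 229433) (nat_lit 25) (.e (nat_lit 532515) (nat_lit 3) (.e (nat_lit 114723) (nat_lit 24) (.e (nat_lit 106520) (nat_lit 9) .nil)))))))) (.g (nat_lit 6) .nil .nil))) 
(.lf (nat_lit 20921) (.g (nat_lit 3116) (.e (nat_lit 1181) (nat_lit 87) (.e (nat_lit 57872) (nat_lit 264) (.e (nat_lit 1221) (nat_lit 90) (.e (nat_lit 81953) (nat_lit 22) (.e (nat_lit 90133) (nat_lit 9) (.e (nat_lit 7936) (nat_lit 22) (.e (nat_lit 344160) (nat_lit 37) (.e (nat_lit 647195) (nat_lit 9) .nil)))))))) (.g (nat_lit 4) .nil .nil)))))) (.nd (nat_lit 3) (.nd (nat_lit 4) (.nd (nat_lit 5) 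
(.lf (nat_lit 20869) (.g (nat_lit 1072) (.e (nat_lit 1181) (nat_lit 87) (.e (nat_lit 57872) (nat_lit 264) (.e (nat_lit 1200) (nat_lit 88) (.e (nat_lit 65630) (nat_lit 14) (.e (nat_lit 401459) (nat_lit 13) .nil))))) .nil)) 
(.lf (nat_lit 20901) (.g (nat_lit 2225) (.e (nat_lit 1181) (nat_lit 87) (.e (nat_lit 57872) (nat_lit 264) (.e (nat_lit 1211) (nat_lit 89) (.e (nat_lit 81664) (nat_lit 38) (.e (nat_lit 229433) (nat_lit 25) (.e (nat_lit 532515) (nat_lit 3) (.e (nat_lit 114722) (nat_lit 24) (.e (nat_lit 106520) (nat_lit 9) .nil)))))))) (.g (nat_lit 6) .nil .nil)))) (.nd (nat_lit 5) 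
(.lf (nat_lit 20885) (.g (nat_lit 2691) (.e (nat_lit 1181) (nat_lit 87) (.e (nat_lit 57872) (nat_lit 264) (.e (nat_lit 1209) (nat_lit 89) (.e (nat_lit 81664) (nat_lit 35) (.e (nat_lit 163979) (nat_lit 30) (.e (nat_lit 573489) (nat_lit 14) (.e (nat_lit 73768) (nat_lit 19) (.e (nat_lit 647194) (nat_lit 9) .nil)))))))) (.g (nat_lit 5) .nil .nil))) 
(.lf (nat_lit 20917) (.g (nat_lit 4118) (.e (nat_lit 1181) (nat_lit 87) (.e (nat_lit 57872) (nat_lit 264) (.e (nat_lit 1221) (nat_lit 90) (.e (nat_lit 81953) (nat_lit 22) (.e (nat_lit 90122) (nat_lit 9) .nil))))) .nil)))) (.nd (nat_lit 4) (.nd (nat_lit 5) 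
(.lf (nat_lit 20877) (.g (nat_lit 3220) (.e (nat_lit 1181) (nat_lit 87) (.e (nat_lit 57872) (nat_lit 264) (.e (nat_lit 1209) (nat_lit 89) (.e (nat_lit 73782) (nat_lit 32) (.e (nat_lit 2856) (nat_lit 184) (.e (nat_lit 426533) (nat_lit 28) (.e (nat_lit 352000) (nat_lit 8) .nil))))))) (.g (nat_lit 6) .nil .nil))) 
(.lf (nat_lit 20909) (.g (nat_lit 2463) (.e (nat_lit 1181) (nat_lit 87) (.e (nat_lit 57872) (nat_lit 264) (.e (nat_lit 1219) (nat_lit 90) (.e (nat_lit 81956) (nat_lit 23) (.e (nat_lit 98321) (nat_lit 17) (.e (nat_lit 7936) (nat_lit 220) (.e (nat_lit 720949) (nat_lit 24) (.e (nat_lit 106517) (nat_lit 9) .nil)))))))) (.g (nat_lit 4) .nil .nil)))) (.nd (nat_lit 5) 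
(.lf (nat_lit 20893) (.g (nat_lit 2254) (.e (nat_lit 1181) (nat_lit 87) (.e (nat_lit 57872) (nat_lit 264) (.e (nat_lit 1211) (nat_lit 89) (.e (nat_lit 73782) (nat_lit 32) (.e (nat_lit 2856) (nat_lit 184) (.e (nat_lit 426533) (nat_lit 28) (.e (nat_lit 352000) (nat_lit 8) .nil))))))) (.g (nat_lit 5) .nil .nil))) 
(.lf (nat_lit 20925) (.g (nat_lit 1492) (.e (nat_lit 1181) (nat_lit 87) (.e (nat_lit 57872) (nat_lit 264) (.e (nat_lit 1221) (nat_lit 90) (.e (nat_lit 81954) (nat_lit 23) .nil)))) .nil)))))) (.nd (nat_lit 2) (.nd (nat_lit 3) (.nd (nat_lit 4) (.nd (nat_lit 5) 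
(.lf (nat_lit 20867) (.g (nat_lit 4131) (.e (nat_lit 1181) (nat_lit 87) (.e (nat_lit 57872) (nat_lit 264) (.e (nat_lit 1200) (nat_lit 88) (.e (nat_lit 65629) (nat_lit 14) (.e (nat_lit 401459) (nat_lit 13) (.e (nat_lit 483354) (nat_lit 17) (.e (nat_lit 7936) (nat_lit 343) .nil))))))) (.g (nat_lit 5) .nil .nil))) 
(.lf (nat_lit 20899) (.g (nat_lit 3171) (.e (nat_lit 1181) (nat_lit 87) (.e (nat_lit 57872) (nat_lit 264) (.e (nat_lit 1211) (nat_lit 89) (.e (nat_lit 81664) (nat_lit 35) (.e (nat_lit 163978) (nat_lit 30) (.e (nat_lit 573489) (nat_lit 14) (.e (nat_lit 73768) (nat_lit 19) (.e (nat_lit 647194) (nat_lit 9) .nil)))))))) (.g (nat_lit 6) .nil .nil)))) (.nd (nat_lit 5) 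
(.lf (nat_lit 20883) (.g (nat_lit 4028) (.e (nat_lit 1181) (nat_lit 87) (.e (nat_lit 57872) (nat_lit 264) (.e (nat_lit 1209) (nat_lit 89) (.e (nat_lit 81664) (nat_lit 35) (.e (nat_lit 163978) (nat_lit 30) (.e (nat_lit 573489) (nat_lit 14) (.e (nat_lit 73768) (nat_lit 19) (.e (nat_lit 647195) (nat_lit 9) .nil)))))))) (.g (nat_lit 6) .nil .nil))) 
(.lf (nat_lit 20915) (.g (nat_lit 1542) (.e (nat_lit 1181) (nat_lit 87) (.e (nat_lit 57872) (nat_lit 264) (.e (nat_lit 1221) (nat_lit 90) (.e (nat_lit 81937) (nat_lit 20) .nil)))) .nil)))) (.nd (nat_lit 4) (.nd (nat_lit 5) 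
(.lf (nat_lit 20875) (.g (nat_lit 2417) (.e (nat_lit 1181) (nat_lit 87) (.e (nat_lit 57872) (nat_lit 264) (.e (nat_lit 1209) (nat_lit 89) (.e (nat_lit 73781) (nat_lit 32) (.e (nat_lit 3090) (nat_lit 191) (.e (nat_lit 483350) (nat_lit 17) (.e (nat_lit 7936) (nat_lit 343) .nil))))))) (.g (nat_lit 4) .nil .nil))) 
(.lf (nat_lit 20907) (.g (nat_lit 2610) (.e (nat_lit 1181) (nat_lit 87) (.e (nat_lit 57872) (nat_lit 264) (.e (nat_lit 1219) (nat_lit 90) (.e (nat_lit 81956) (nat_lit 23) (.e (nat_lit 106240) (nat_lit 10) (.e (nat_lit 344164) (nat_lit 37) (.e (nat_lit 647195) (nat_lit 9) .nil))))))) (.g (nat_lit 4) .nil .nil)))) (.nd (nat_lit 5) 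
(.lf (nat_lit 20891) (.g (nat_lit 3029) (.e (nat_lit 1181) (nat_lit 87) (.e (nat_lit 57872) (nat_lit 264) (.e (nat_lit 1211) (nat_lit 89) (.e (nat_lit 73781) (nat_lit 32) (.e (nat_lit 2856) (nat_lit 184) (.e (nat_lit 426533) (nat_lit 28) (.e (nat_lit 352000) (nat_lit 8) .nil))))))) (.g (nat_lit 6) .nil .nil))) 
(.lf (nat_lit 20923) (.g (nat_lit 2232) (.e (nat_lit 1181) (nat_lit 87) (.e (nat_lit 57872) (nat_lit 264) (.e (nat_lit 1221) (nat_lit 90) (.e (nat_lit 81953) (nat_lit 22) (.e (nat_lit 90165) (nat_lit 12) .nil))))) .nil))))) (.nd (nat_lit 3) (.nd (nat_lit 4) (.nd (nat_lit 5) 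
(.lf (nat_lit 20871) (.g (nat_lit 4879) (.e (nat_lit 1181) (nat_lit 87) (.e (nat_lit 57872) (nat_lit 264) (.e (nat_lit 1200) (nat_lit 88) (.e (nat_lit 65630) (nat_lit 14) (.e (nat_lit 401459) (nat_lit 13) (.e (nat_lit 483344) (nat_lit 17) (.e (nat_lit 6479) (nat_lit 343) .nil))))))) (.g (nat_lit 6) .nil .nil))) 
(.lf (nat_lit 20903) (.g (nat_lit 2559) (.e (nat_lit 1181) (nat_lit 87) (.e (nat_lit 57872) (nat_lit 264) (.e (nat_lit 1219) (nat_lit 90) (.e (nat_lit 81924) (nat_lit 0) (.e (nat_lit 3631) (nat_lit 227) (.e (nat_lit 778323) (nat_lit 5) (.e (nat_lit 81664) (nat_lit 40) .nil))))))) (.g (nat_lit 6) .nil .nil)))) (.nd (nat_lit 5) 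
(.lf (nat_lit 20887) (.g (nat_lit 2809) (.e (nat_lit 1181) (nat_lit 87) (.e (nat_lit 57872) (nat_lit 264) (.e (nat_lit 1209) (nat_lit 89) (.e (nat_lit 81664) (nat_lit 38) (.e (nat_lit 229433) (nat_lit 25) (.e (nat_lit 532515) (nat_lit 3) (.e (nat_lit 114722) (nat_lit 24) (.e (nat_lit 106520) (nat_lit 9) .nil)))))))) (.g (nat_lit 6) .nil .nil))) 
(.lf (nat_lit 20919) (.g (nat_lit 3997) (.e (nat_lit 1181) (nat_lit 87) (.e (nat_lit 57872) (nat_lit 264) (.e (nat_lit 1221) (nat_lit 90) (.e (nat_lit 81953) (nat_lit 22) (.e (nat_lit 90128) (nat_lit 9) .nil))))) .nil)))) (.nd (nat_lit 4) (.nd (nat_lit 5) 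
(.lf (nat_lit 20879) (.g (nat_lit 1340) (.e (nat_lit 1181) (nat_lit 87) (.e (nat_lit 57872) (nat_lit 264) (.e (nat_lit 1209) (nat_lit 89) (.e (nat_lit 81664) (nat_lit 35) .nil)))) .nil)) 
(.lf (nat_lit 20911) (.g (nat_lit 2446) (.e (nat_lit 1181) (nat_lit 87) (.e (nat_lit 57872) (nat_lit 264) (.e (nat_lit 1219) (nat_lit 90) (.e (nat_lit 81956) (nat_lit 23) (.e (nat_lit 98321) (nat_lit 17) (.e (nat_lit 7936) (nat_lit 220) (.e (nat_lit 720952) (nat_lit 24) (.e (nat_lit 106526) (nat_lit 9) .nil)))))))) (.g (nat_lit 4) .nil .nil)))) (.nd (nat_lit 5) 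
(.lf (nat_lit 20895) (.g (nat_lit 2552) (.e (nat_lit 1181) (nat_lit 87) (.e (nat_lit 57872) (nat_lit 264) (.e (nat_lit 1211) (nat_lit 89) (.e (nat_lit 81664) (nat_lit 35) (.e (nat_lit 163977) (nat_lit 30) (.e (nat_lit 573487) (nat_lit 14) (.e (nat_lit 73766) (nat_lit 19) (.e (nat_lit 647194) (nat_lit 9) .nil)))))))) (.g (nat_lit 6) .nil .nil))) 
(.lf (nat_lit 20927) (.g (nat_lit 2993) (.e (nat_lit 1181) (nat_lit 87) (.e (nat_lit 57872) (nat_lit 264) (.e (nat_lit 1221) (nat_lit 90) (.e (nat_lit 81954) (nat_lit 23) (.e (nat_lit 106240) (nat_lit 10) (.e (nat_lit 344160) (nat_lit 37) (.e (nat_lit 647195) (nat_lit 9) .nil))))))) (.g (nat_lit 4) .nil .nil)))))))))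

noncomputable def tv292 : DT := (.nd (nat_lit 0) (.nd (nat_lit 1) (.nd (nat_lit 2) (.nd (nat_lit 3) (.nd (nat_lit 4) (.nd (nat_lit 5) 
(.lf (nat_lit 20928) (.g (nat_lit 2816) (.e (nat_lit 1181) (nat_lit 87) (.e (nat_lit 57872) (nat_lit 264) (.e (nat_lit 1221) (nat_lit 90) (.e (nat_lit 81954) (nat_lit 23) (.e (nat_lit 106240) (nat_lit 10) (.e (nat_lit 344164) (nat_lit 37) (.e (nat_lit 647195) (nat_lit 9) .nil))))))) (.g (nat_lit 4) .nil .nil))) 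
(.lf (nat_lit 20960) (.g (nat_lit 4050) (.e (nat_lit 1181) (nat_lit 87) (.e (nat_lit 57930) (nat_lit 282) (.e (nat_lit 163869) (nat_lit 2) (.e (nat_lit 196670) (nat_lit 14) (.e (nat_lit 73746) (nat_lit 3) (.e (nat_lit 516131) (nat_lit 3) (.e (nat_lit 221212) (nat_lit 22) (.e (nat_lit 196635) (nat_lit 9) .nil)))))))) (.g (nat_lit 7) .nil .nil)))) (.nd (nat_lit 5) 
(.lf (nat_lit 20944) (.g (nat_lit 4546) (.e (nat_lit 1181) (nat_lit 87) (.e (nat_lit 57872) (nat_lit 264) (.e (nat_lit 1221) (nat_lit 90) (.e (nat_lit 81959) (nat_lit 24) (.e (nat_lit 123195) (nat_lit 266) (.e (nat_lit 57421) (nat_lit 13) (.e (nat_lit 352000) (nat_lit 8) .nil))))))) (.g (nat_lit 6) .nil .nil))) 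
(.lf (nat_lit 20976) (.g (nat_lit 2960) (.e (nat_lit 1182) (nat_lit 87) (.e (nat_lit 57465) (nat_lit 23) (.e (nat_lit 516131) (nat_lit 3) (.e (nat_lit 221212) (nat_lit 22) (.e (nat_lit 196670) (nat_lit 14) (.e (nat_lit 73746) (nat_lit 3) (.e (nat_lit 516117) (nat_lit 1) (.e (nat_lit 164166) (nat_lit 152) .nil)))))))) (.g (nat_lit 7) .nil .nil))))) (.nd (nat_lit 4) (.nd (nat_lit 5) 
(.lf (nat_lit 20936) (.g (nat_lit 3600) (.e (nat_lit 1181) (nat_lit 87) (.e (nat_lit 57872) (nat_lit 264) (.e (nat_lit 1221) (nat_lit 90) (.e (nat_lit 81956) (nat_lit 23) (.e (nat_lit 106240) (nat_lit 10) (.e (nat_lit 344163) (nat_lit 37) (.e (nat_lit 647195) (nat_lit 9) .nil))))))) (.g (nat_lit 4) .nil .nil))) 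
(.lf (nat_lit 20968) (.g (nat_lit 4654) (.e (nat_lit 1181) (nat_lit 87) (.e (nat_lit 57931) (nat_lit 282) (.e (nat_lit 163869) (nat_lit 2) (.e (nat_lit 196670) (nat_lit 14) (.e (nat_lit 73746) (nat_lit 3) (.e (nat_lit 516131) (nat_lit 3) (.e (nat_lit 221212) (nat_lit 22) (.e (nat_lit 196635) (nat_lit 9) .nil)))))))) (.g (nat_lit 7) .nil .nil)))) (.nd (nat_lit 5) 
(.lf (nat_lit 20952) (.g (nat_lit 2373) (.e (nat_lit 1181) (nat_lit 87) (.e (nat_lit 57929) (nat_lit 282) (.e (nat_lit 163869) (nat_lit 2) (.e (nat_lit 196670) (nat_lit 14) (.e (nat_lit 73746) (nat_lit 3) (.e (nat_lit 516129) (nat_lit 3) (.e (nat_lit 221210) (nat_lit 22) (.e (nat_lit 196635) (nat_lit 9) .nil)))))))) (.g (nat_lit 4) .nil .nil))) 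
(.lf (nat_lit 20984) (.g (nat_lit 2619) (.e (nat_lit 1182) (nat_lit 87) (.e (nat_lit 57478) (nat_lit 28) (.e (nat_lit 557097) (nat_lit 13) (.e (nat_lit 172115) (nat_lit 10) (.e (nat_lit 434244) (nat_lit 28) (.e (nat_lit 573450) (nat_lit 9) (.e (nat_lit 452) (nat_lit 33) (.e (nat_lit 434202) (nat_lit 18) (.e (nat_lit 4598) (nat_lit 269) .nil))))))))) (.g (nat_lit 4) .nil .nil)))))) 
(.nd (nat_lit 3) (.nd (nat_lit 4) (.nd (nat_lit 5) 
(.lf (nat_lit 20932) (.g (nat_lit 1233) (.e (nat_lit 1181) (nat_lit 87) (.e (nat_lit 57872) (nat_lit 264) (.e (nat_lit 1221) (nat_lit 90) (.e (nat_lit 81956) (nat_lit 23) .nil)))) .nil)) 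
(.lf (nat_lit 20964) (.g (nat_lit 2862) (.e (nat_lit 1181) (nat_lit 87) (.e (nat_lit 57931) (nat_lit 282) (.e (nat_lit 163869) (nat_lit 2) (.e (nat_lit 196670) (nat_lit 14) (.e (nat_lit 73746) (nat_lit 3) (.e (nat_lit 516129) (nat_lit 3) (.e (nat_lit 221210) (nat_lit 22) (.e (nat_lit 196617) (nat_lit 9) .nil)))))))) (.g (nat_lit 4) .nil .nil)))) (.nd (nat_lit 5) 
(.lf (nat_lit 20948) (.g (nat_lit 2793) (.e (nat_lit 1181) (nat_lit 87) (.e (nat_lit 57924) (nat_lit 282) (.e (nat_lit 163867) (nat_lit 2) (.e (nat_lit 196670) (nat_lit 14) (.e (nat_lit 73746) (nat_lit 3) (.e (nat_lit 516129) (nat_lit 3) (.e (nat_lit 221210) (nat_lit 22) (.e (nat_lit 196635) (nat_lit 9) .nil)))))))) (.g (nat_lit 5) .nil .nil))) 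
(.lf (nat_lit 20980) (.g (nat_lit 2087) (.e (nat_lit 1182) (nat_lit 87) (.e (nat_lit 57465) (nat_lit 23) (.e (nat_lit 516176) (nat_lit 14) (.e (nat_lit 466977) (nat_lit 22) (.e (nat_lit 196668) (nat_lit 14) (.e (nat_lit 81664) (nat_lit 0) (.e (nat_lit 4808) (nat_lit 281) .nil))))))) (.g (nat_lit 5) .nil .nil))))) (.nd (nat_lit 4) (.nd (nat_lit 5) 
(.lf (nat_lit 20940) (.g (nat_lit 2802) (.e (nat_lit 1181) (nat_lit 87) (.e (nat_lit 57872) (nat_lit 264) (.e (nat_lit 1221) (nat_lit 90) (.e (nat_lit 81956) (nat_lit 23) (.e (nat_lit 98325) (nat_lit 17) .nil))))) .nil)) 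
(.lf (nat_lit 20972) (.g (nat_lit 3532) (.e (nat_lit 1181) (nat_lit 87) (.e (nat_lit 57931) (nat_lit 282) (.e (nat_lit 163874) (nat_lit 3) (.e (nat_lit 204872) (nat_lit 30) (.e (nat_lit 368676) (nat_lit 21) (.e (nat_lit 516131) (nat_lit 3) (.e (nat_lit 221212) (nat_lit 22) (.e (nat_lit 196635) (nat_lit 9) .nil)))))))) (.g (nat_lit 6) .nil .nil)))) (.nd (nat_lit 5) 
(.lf (nat_lit 20956) (.g (nat_lit 3071) (.e (nat_lit 1181) (nat_lit 87) (.e (nat_lit 57930) (nat_lit 282) (.e (nat_lit 163867) (nat_lit 2) (.e (nat_lit 196670) (nat_lit 14) (.e (nat_lit 73746) (nat_lit 3) (.e (nat_lit 516129) (nat_lit 3) (.e (nat_lit 221210) (nat_lit 22) (.e (nat_lit 196635) (nat_lit 9) .nil)))))))) (.g (nat_lit 5) .nil .nil))) 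
(.lf (nat_lit 20988) (.g (nat_lit 4031) (.e (nat_lit 1182) (nat_lit 87) (.e (nat_lit 57478) (nat_lit 28) (.e (nat_lit 557098) (nat_lit 13) (.e (nat_lit 172097) (nat_lit 9) (.e (nat_lit 426125) (nat_lit 2) (.e (nat_lit 196666) (nat_lit 13) (.e (nat_lit 65550) (nat_lit 0) (.e (nat_lit 1023) (nat_lit 81) (.e (nat_lit 5907) (nat_lit 320) .nil))))))))) (.g (nat_lit 6) .nil .nil))))))) 
(.nd (nat_lit 2) (.nd (nat_lit 3) (.nd (nat_lit 4) (.nd (nat_lit 5) 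
(.lf (nat_lit 20930) (.g (nat_lit 3400) (.e (nat_lit 1181) (nat_lit 87) (.e (nat_lit 57872) (nat_lit 264) (.e (nat_lit 1221) (nat_lit 90) (.e (nat_lit 81954) (nat_lit 23) (.e (nat_lit 98321) (nat_lit 17) (.e (nat_lit 7936) (nat_lit 220) (.e (nat_lit 720949) (nat_lit 24) (.e (nat_lit 106517) (nat_lit 9) .nil)))))))) (.g (nat_lit 5) .nil .nil))) 
(.lf (nat_lit 20962) (.g (nat_lit 3040) (.e (nat_lit 1181) (nat_lit 87) (.e (nat_lit 57931) (nat_lit 282) (.e (nat_lit 163867) (nat_lit 2) (.e (nat_lit 196670) (nat_lit 14) (.e (nat_lit 73746) (nat_lit 3) (.e (nat_lit 516129) (nat_lit 3) (.e (nat_lit 221210) (nat_lit 22) (.e (nat_lit 196635) (nat_lit 9) .nil)))))))) (.g (nat_lit 5) .nil .nil)))) (.nd (nat_lit 5) 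
(.lf (nat_lit 20946) (.g (nat_lit 1251) (.e (nat_lit 1181) (nat_lit 87) (.e (nat_lit 57872) (nat_lit 264) (.e (nat_lit 1221) (nat_lit 90) (.e (nat_lit 81962) (nat_lit 25) .nil)))) .nil)) 
(.lf (nat_lit 20978) (.g (nat_lit 4004) (.e (nat_lit 1182) (nat_lit 87) (.e (nat_lit 57465) (nat_lit 23) (.e (nat_lit 516146) (nat_lit 9) (.e (nat_lit 426428) (nat_lit 17) (.e (nat_lit 90174) (nat_lit 14) (.e (nat_lit 180243) (nat_lit 5) (.e (nat_lit 532501) (nat_lit 1) (.e (nat_lit 57754) (nat_lit 209) .nil)))))))) (.g (nat_lit 7) .nil .nil))))) (.nd (nat_lit 4) (.nd (nat_lit 5) 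
(.lf (nat_lit 20938) (.g (nat_lit 2683) (.e (nat_lit 1181) (nat_lit 87) (.e (nat_lit 57872) (nat_lit 264) (.e (nat_lit 1221) (nat_lit 90) (.e (nat_lit 81956) (nat_lit 23) (.e (nat_lit 98321) (nat_lit 17) .nil))))) .nil)) 
(.lf (nat_lit 20970) (.g (nat_lit 2851) (.e (nat_lit 1181) (nat_lit 87) (.e (nat_lit 57931) (nat_lit 282) (.e (nat_lit 163874) (nat_lit 3) (.e (nat_lit 204863) (nat_lit 27) (.e (nat_lit 344117) (nat_lit 21) (.e (nat_lit 516130) (nat_lit 3) (.e (nat_lit 221212) (nat_lit 22) (.e (nat_lit 196635) (nat_lit 9) .nil)))))))) (.g (nat_lit 4) .nil .nil)))) (.nd (nat_lit 5) 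
(.lf (nat_lit 20954) (.g (nat_lit 2342) (.e (nat_lit 1181) (nat_lit 87) (.e (nat_lit 57929) (nat_lit 282) (.e (nat_lit 163874) (nat_lit 3) (.e (nat_lit 204872) (nat_lit 30) (.e (nat_lit 368676) (nat_lit 21) (.e (nat_lit 516131) (nat_lit 3) (.e (nat_lit 221212) (nat_lit 22) (.e (nat_lit 196635) (nat_lit 9) .nil)))))))) (.g (nat_lit 5) .nil .nil))) 
(.lf (nat_lit 20986) (.g (nat_lit 2466) (.e (nat_lit 1182) (nat_lit 87) (.e (nat_lit 57478) (nat_lit 28) (.e (nat_lit 557097) (nat_lit 13) (.e (nat_lit 172115) (nat_lit 10) (.e (nat_lit 434244) (nat_lit 28) (.e (nat_lit 573450) (nat_lit 9) (.e (nat_lit 452) (nat_lit 33) (.e (nat_lit 434209) (nat_lit 18) (.e (nat_lit 4607) (nat_lit 269) .nil))))))))) (.g (nat_lit 4) .nil .nil)))))) 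
(.nd (nat_lit 3) (.nd (nat_lit 4) (.nd (nat_lit 5) 
(.lf (nat_lit 20934) (.g (nat_lit 4157) (.e (nat_lit 1181) (nat_lit 87) (.e (nat_lit 57872) (nat_lit 264) (.e (nat_lit 1221) (nat_lit 90) (.e (nat_lit 81956) (nat_lit 23) (.e (nat_lit 106240) (nat_lit 10) (.e (nat_lit 344161) (nat_lit 37) (.e (nat_lit 647195) (nat_lit 9) .nil))))))) (.g (nat_lit 4) .nil .nil))) 
(.lf (nat_lit 20966) (.g (nat_lit 2575) (.e (nat_lit 1181) (nat_lit 87) (.e (nat_lit 57931) (nat_lit 282) (.e (nat_lit 163869) (nat_lit 2) (.e (nat_lit 196670) (nat_lit 14) (.e (nat_lit 73746) (nat_lit 3) (.e (nat_lit 516131) (nat_lit 3) (.e (nat_lit 221211) (nat_lit 22) (.e (nat_lit 196617) (nat_lit 9) .nil)))))))) (.g (nat_lit 4) .nil .nil)))) (.nd (nat_lit 5) 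
(.lf (nat_lit 20950) (.g (nat_lit 4071) (.e (nat_lit 1181) (nat_lit 87) (.e (nat_lit 57924) (nat_lit 282) (.e (nat_lit 163867) (nat_lit 2) (.e (nat_lit 196670) (nat_lit 14) (.e (nat_lit 73746) (nat_lit 3) (.e (nat_lit 516131) (nat_lit 3) (.e (nat_lit 221212) (nat_lit 22) (.e (nat_lit 196635) (nat_lit 9) .nil)))))))) (.g (nat_lit 7) .nil .nil))) 
(.lf (nat_lit 20982) (.g (nat_lit 1632) (.e (nat_lit 1182) (nat_lit 87) (.e (nat_lit 57478) (nat_lit 28) (.e (nat_lit 557095) (nat_lit 13) (.e (nat_lit 172115) (nat_lit 10) (.e (nat_lit 434231) (nat_lit 23) (.e (nat_lit 532543) (nat_lit 10) (.e (nat_lit 344097) (nat_lit 18) (.e (nat_lit 5906) (nat_lit 320) .nil)))))))) (.g (nat_lit 4) .nil .nil))))) (.nd (nat_lit 4) (.nd (nat_lit 5) 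
(.lf (nat_lit 20942) (.g (nat_lit 3817) (.e (nat_lit 1181) (nat_lit 87) (.e (nat_lit 57872) (nat_lit 264) (.e (nat_lit 1221) (nat_lit 90) (.e (nat_lit 81959) (nat_lit 24) (.e (nat_lit 123182) (nat_lit 264) (.e (nat_lit 1214) (nat_lit 89) (.e (nat_lit 81664) (nat_lit 40) .nil))))))) (.g (nat_lit 6) .nil .nil))) 
(.lf (nat_lit 20974) (.g (nat_lit 3964) (.e (nat_lit 1182) (nat_lit 87) (.e (nat_lit 57465) (nat_lit 23) (.e (nat_lit 516129) (nat_lit 3) (.e (nat_lit 221210) (nat_lit 22) (.e (nat_lit 196670) (nat_lit 14) (.e (nat_lit 73746) (nat_lit 3) (.e (nat_lit 516117) (nat_lit 1) (.e (nat_lit 164166) (nat_lit 152) .nil)))))))) (.g (nat_lit 8) .nil .nil)))) (.nd (nat_lit 5) 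
(.lf (nat_lit 20958) (.g (nat_lit 4349) (.e (nat_lit 1181) (nat_lit 87) (.e (nat_lit 57930) (nat_lit 282) (.e (nat_lit 163867) (nat_lit 2) (.e (nat_lit 196670) (nat_lit 14) (.e (nat_lit 73746) (nat_lit 3) (.e (nat_lit 516131) (nat_lit 3) (.e (nat_lit 221212) (nat_lit 22) (.e (nat_lit 196635) (nat_lit 9) .nil)))))))) (.g (nat_lit 7) .nil .nil))) 
(.lf (nat_lit 20990) (.g (nat_lit 4180) (.e (nat_lit 1182) (nat_lit 87) (.e (nat_lit 57478) (nat_lit 28) (.e (nat_lit 557098) (nat_lit 13) (.e (nat_lit 172097) (nat_lit 9) (.e (nat_lit 426125) (nat_lit 2) (.e (nat_lit 196666) (nat_lit 13) (.e (nat_lit 65563) (nat_lit 1) (.e (nat_lit 57870) (nat_lit 264) .nil)))))))) (.g (nat_lit 0) .nil .nil)))))))) 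
(.nd (nat_lit 1) (.nd (nat_lit 2) (.nd (nat_lit 3) (.nd (nat_lit 4) (.nd (nat_lit 5) 
(.lf (nat_lit 20929) (.g (nat_lit 3381) (.e (nat_lit 1181) (nat_lit 87) (.e (nat_lit 57872) (nat_lit 264) (.e (nat_lit 1221) (nat_lit 90) (.e (nat_lit 81954) (nat_lit 23) (.e (nat_lit 98321) (nat_lit 17) (.e (nat_lit 7936) (nat_lit 220) (.e (nat_lit 720948) (nat_lit 24) (.e (nat_lit 106517) (nat_lit 9) .nil)))))))) (.g (nat_lit 5) .nil .nil))) 
(.lf (nat_lit 20961) (.g (nat_lit 2302) (.e (nat_lit 1181) (nat_lit 87) (.e (nat_lit 57931) (nat_lit 282) (.e (nat_lit 163866) (nat_lit 2) (.e (nat_lit 196670) (nat_lit 14) (.e (nat_lit 73746) (nat_lit 3) (.e (nat_lit 516131) (nat_lit 3) (.e (nat_lit 221212) (nat_lit 22) (.e (nat_lit 196635) (nat_lit 9) .nil)))))))) (.g (nat_lit 4) .nil .nil)))) (.nd (nat_lit 5) 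
(.lf (nat_lit 20945) (.g (nat_lit 4518) (.e (nat_lit 1181) (nat_lit 87) (.e (nat_lit 57872) (nat_lit 264) (.e (nat_lit 1221) (nat_lit 90) (.e (nat_lit 81959) (nat_lit 24) (.e (nat_lit 123195) (nat_lit 266) (.e (nat_lit 57422) (nat_lit 13) (.e (nat_lit 352000) (nat_lit 8) .nil))))))) (.g (nat_lit 6) .nil .nil))) 
(.lf (nat_lit 20977) (.g (nat_lit 2783) (.e (nat_lit 1182) (nat_lit 87) (.e (nat_lit 57465) (nat_lit 23) (.e (nat_lit 516131) (nat_lit 3) (.e (nat_lit 221212) (nat_lit 22) (.e (nat_lit 196670) (nat_lit 14) (.e (nat_lit 73746) (nat_lit 3) (.e (nat_lit 516120) (nat_lit 1) (.e (nat_lit 164166) (nat_lit 152) .nil)))))))) (.g (nat_lit 7) .nil .nil))))) (.nd (nat_lit 4) (.nd (nat_lit 5) 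
(.lf (nat_lit 20937) (.g (nat_lit 4335) (.e (nat_lit 1181) (nat_lit 87) (.e (nat_lit 57872) (nat_lit 264) (.e (nat_lit 1221) (nat_lit 90) (.e (nat_lit 81956) (nat_lit 23) (.e (nat_lit 106240) (nat_lit 10) (.e (nat_lit 344164) (nat_lit 37) (.e (nat_lit 647194) (nat_lit 9) .nil))))))) (.g (nat_lit 4) .nil .nil))) 
(.lf (nat_lit 20969) (.g (nat_lit 2998) (.e (nat_lit 1181) (nat_lit 87) (.e (nat_lit 57931) (nat_lit 282) (.e (nat_lit 163874) (nat_lit 3) (.e (nat_lit 204862) (nat_lit 27) (.e (nat_lit 344117) (nat_lit 21) (.e (nat_lit 516130) (nat_lit 3) (.e (nat_lit 221212) (nat_lit 22) (.e (nat_lit 196635) (nat_lit 9) .nil)))))))) (.g (nat_lit 4) .nil .nil)))) (.nd (nat_lit 5) 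
(.lf (nat_lit 20953) (.g (nat_lit 2146) (.e (nat_lit 1181) (nat_lit 87) (.e (nat_lit 57929) (nat_lit 282) (.e (nat_lit 163869) (nat_lit 2) (.e (nat_lit 196670) (nat_lit 14) (.e (nat_lit 73746) (nat_lit 3) (.e (nat_lit 516131) (nat_lit 3) (.e (nat_lit 221212) (nat_lit 22) (.e (nat_lit 196617) (nat_lit 9) .nil)))))))) (.g (nat_lit 4) .nil .nil))) 
(.lf (nat_lit 20985) (.g (nat_lit 2827) (.e (nat_lit 1182) (nat_lit 87) (.e (nat_lit 57478) (nat_lit 28) (.e (nat_lit 557097) (nat_lit 13) (.e (nat_lit 172115) (nat_lit 10) (.e (nat_lit 434244) (nat_lit 28) (.e (nat_lit 573450) (nat_lit 9) (.e (nat_lit 452) (nat_lit 33) (.e (nat_lit 434209) (nat_lit 18) (.e (nat_lit 4605) (nat_lit 269) .nil))))))))) (.g (nat_lit 4) .nil .nil)))))) 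
(.nd (nat_lit 3) (.nd (nat_lit 4) (.nd (nat_lit 5) 
(.lf (nat_lit 20933) (.g (nat_lit 3229) (.e (nat_lit 1181) (nat_lit 87) (.e (nat_lit 57872) (nat_lit 264) (.e (nat_lit 1221) (nat_lit 90) (.e (nat_lit 81956) (nat_lit 23) (.e (nat_lit 106240) (nat_lit 10) .nil))))) .nil)) 
(.lf (nat_lit 20965) (.g (nat_lit 3394) (.e (nat_lit 1181) (nat_lit 87) (.e (nat_lit 57931) (nat_lit 282) (.e (nat_lit 163869) (nat_lit 2) (.e (nat_lit 196670) (nat_lit 14) (.e (nat_lit 73746) (nat_lit 3) (.e (nat_lit 516129) (nat_lit 3) (.e (nat_lit 221210) (nat_lit 22) (.e (nat_lit 196635) (nat_lit 9) .nil)))))))) (.g (nat_lit 5) .nil .nil)))) (.nd (nat_lit 5) 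
(.lf (nat_lit 20949) (.g (nat_lit 2584) (.e (nat_lit 1181) (nat_lit 87) (.e (nat_lit 57924) (nat_lit 282) (.e (nat_lit 163867) (nat_lit 2) (.e (nat_lit 196670) (nat_lit 14) (.e (nat_lit 73746) (nat_lit 3) (.e (nat_lit 516131) (nat_lit 3) (.e (nat_lit 221212) (nat_lit 22) (.e (nat_lit 196617) (nat_lit 9) .nil)))))))) (.g (nat_lit 5) .nil .nil))) 
(.lf (nat_lit 20981) (.g (nat_lit 1643) (.e (nat_lit 1182) (nat_lit 87) (.e (nat_lit 57465) (nat_lit 23) (.e (nat_lit 516176) (nat_lit 14) (.e (nat_lit 466981) (nat_lit 23) (.e (nat_lit 204861) (nat_lit 26) .nil))))) .nil)))) (.nd (nat_lit 4) (.nd (nat_lit 5) 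
(.lf (nat_lit 20941) (.g (nat_lit 3597) (.e (nat_lit 1181) (nat_lit 87) (.e (nat_lit 57872) (nat_lit 264) (.e (nat_lit 1221) (nat_lit 90) (.e (nat_lit 81959) (nat_lit 24) (.e (nat_lit 123182) (nat_lit 264) (.e (nat_lit 1212) (nat_lit 89) (.e (nat_lit 81664) (nat_lit 40) .nil))))))) (.g (nat_lit 5) .nil .nil))) 
(.lf (nat_lit 20973) (.g (nat_lit 3586) (.e (nat_lit 1182) (nat_lit 87) (.e (nat_lit 57465) (nat_lit 23) (.e (nat_lit 516129) (nat_lit 3) (.e (nat_lit 221210) (nat_lit 22) (.e (nat_lit 196668) (nat_lit 14) (.e (nat_lit 73746) (nat_lit 3) (.e (nat_lit 516117) (nat_lit 1) (.e (nat_lit 164166) (nat_lit 152) .nil)))))))) (.g (nat_lit 7) .nil .nil)))) (.nd (nat_lit 5) 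
(.lf (nat_lit 20957) (.g (nat_lit 2862) (.e (nat_lit 1181) (nat_lit 87) (.e (nat_lit 57930) (nat_lit 282) (.e (nat_lit 163867) (nat_lit 2) (.e (nat_lit 196670) (nat_lit 14) (.e (nat_lit 73746) (nat_lit 3) (.e (nat_lit 516131) (nat_lit 3) (.e (nat_lit 221212) (nat_lit 22) (.e (nat_lit 196617) (nat_lit 9) .nil)))))))) (.g (nat_lit 5) .nil .nil))) 
(.lf (nat_lit 20989) (.g (nat_lit 3334) (.e (nat_lit 1182) (nat_lit 87) (.e (nat_lit 57478) (nat_lit 28) (.e (nat_lit 557098) (nat_lit 13) (.e (nat_lit 172097) (nat_lit 9) (.e (nat_lit 426125) (nat_lit 2) (.e (nat_lit 196666) (nat_lit 13) (.e (nat_lit 65553) (nat_lit 0) (.e (nat_lit 1023) (nat_lit 81) (.e (nat_lit 5906) (nat_lit 320) .nil))))))))) (.g (nat_lit 6) .nil .nil))))))) 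
(.nd (nat_lit 2) (.nd (nat_lit 3) (.nd (nat_lit 4) (.nd (nat_lit 5) 
(.lf (nat_lit 20931) (.g (nat_lit 3427) (.e (nat_lit 1181) (nat_lit 87) (.e (nat_lit 57872) (nat_lit 264) (.e (nat_lit 1221) (nat_lit 90) (.e (nat_lit 81954) (nat_lit 23) (.e (nat_lit 98321) (nat_lit 17) (.e (nat_lit 7936) (nat_lit 220) (.e (nat_lit 720952) (nat_lit 24) (.e (nat_lit 106526) (nat_lit 9) .nil)))))))) (.g (nat_lit 5) .nil .nil))) 
(.lf (nat_lit 20963) (.g (nat_lit 2841) (.e (nat_lit 1181) (nat_lit 87) (.e (nat_lit 57931) (nat_lit 282) (.e (nat_lit 163867) (nat_lit 2) (.e (nat_lit 196670) (nat_lit 14) (.e (nat_lit 73746) (nat_lit 3) (.e (nat_lit 516131) (nat_lit 3) (.e (nat_lit 221212) (nat_lit 22) (.e (nat_lit 196617) (nat_lit 9) .nil)))))))) (.g (nat_lit 4) .nil .nil)))) (.nd (nat_lit 5) 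
(.lf (nat_lit 20947) (.g (nat_lit 2054) (.e (nat_lit 1181) (nat_lit 87) (.e (nat_lit 57924) (nat_lit 282) (.e (nat_lit 163867) (nat_lit 2) (.e (nat_lit 196670) (nat_lit 14) (.e (nat_lit 73746) (nat_lit 3) (.e (nat_lit 516129) (nat_lit 3) (.e (nat_lit 221210) (nat_lit 22) (.e (nat_lit 196617) (nat_lit 9) .nil)))))))) (.g (nat_lit 4) .nil .nil))) 
(.lf (nat_lit 20979) (.g (nat_lit 3501) (.e (nat_lit 1182) (nat_lit 87) (.e (nat_lit 57465) (nat_lit 23) (.e (nat_lit 516146) (nat_lit 9) (.e (nat_lit 426438) (nat_lit 18) (.e (nat_lit 98358) (nat_lit 26) (.e (nat_lit 426131) (nat_lit 3) (.e (nat_lit 204830) (nat_lit 18) (.e (nat_lit 57754) (nat_lit 209) .nil)))))))) (.g (nat_lit 7) .nil .nil))))) (.nd (nat_lit 4) (.nd (nat_lit 5) 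
(.lf (nat_lit 20939) (.g (nat_lit 4382) (.e (nat_lit 1181) (nat_lit 87) (.e (nat_lit 57872) (nat_lit 264) (.e (nat_lit 1221) (nat_lit 90) (.e (nat_lit 81956) (nat_lit 23) (.e (nat_lit 98321) (nat_lit 17) (.e (nat_lit 7936) (nat_lit 220) (.e (nat_lit 720952) (nat_lit 24) (.e (nat_lit 106526) (nat_lit 9) .nil)))))))) (.g (nat_lit 5) .nil .nil))) 
(.lf (nat_lit 20971) (.g (nat_lit 4082) (.e (nat_lit 1181) (nat_lit 87) (.e (nat_lit 57931) (nat_lit 282) (.e (nat_lit 163874) (nat_lit 3) (.e (nat_lit 204864) (nat_lit 27) (.e (nat_lit 344132) (nat_lit 26) (.e (nat_lit 557105) (nat_lit 14) (.e (nat_lit 180252) (nat_lit 10) (.e (nat_lit 573459) (nat_lit 9) .nil)))))))) (.g (nat_lit 5) .nil .nil)))) (.nd (nat_lit 5) 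
(.lf (nat_lit 20955) (.g (nat_lit 2332) (.e (nat_lit 1181) (nat_lit 87) (.e (nat_lit 57930) (nat_lit 282) (.e (nat_lit 163867) (nat_lit 2) (.e (nat_lit 196670) (nat_lit 14) (.e (nat_lit 73746) (nat_lit 3) (.e (nat_lit 516129) (nat_lit 3) (.e (nat_lit 221210) (nat_lit 22) (.e (nat_lit 196617) (nat_lit 9) .nil)))))))) (.g (nat_lit 4) .nil .nil))) 
(.lf (nat_lit 20987) (.g (nat_lit 1849) (.e (nat_lit 1182) (nat_lit 87) (.e (nat_lit 57478) (nat_lit 28) (.e (nat_lit 557098) (nat_lit 13) (.e (nat_lit 172097) (nat_lit 9) (.e (nat_lit 426125) (nat_lit 2) (.e (nat_lit 196666) (nat_lit 13) (.e (nat_lit 65546) (nat_lit 0) (.e (nat_lit 1023) (nat_lit 81) (.e (nat_lit 5902) (nat_lit 320) .nil))))))))) (.g (nat_lit 4) .nil .nil)))))) 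
(.nd (nat_lit 3) (.nd (nat_lit 4) (.nd (nat_lit 5) 
(.lf (nat_lit 20935) (.g (nat_lit 3685) (.e (nat_lit 1181) (nat_lit 87) (.e (nat_lit 57872) (nat_lit 264) (.e (nat_lit 1221) (nat_lit 90) (.e (nat_lit 81956) (nat_lit 23) (.e (nat_lit 106240) (nat_lit 10) (.e (nat_lit 344163) (nat_lit 37) (.e (nat_lit 647194) (nat_lit 9) .nil))))))) (.g (nat_lit 4) .nil .nil))) 
(.lf (nat_lit 20967) (.g (nat_lit 3374) (.e (nat_lit 1181) (nat_lit 87) (.e (nat_lit 57931) (nat_lit 282) (.e (nat_lit 163869) (nat_lit 2) (.e (nat_lit 196670) (nat_lit 14) (.e (nat_lit 73746) (nat_lit 3) (.e (nat_lit 516131) (nat_lit 3) (.e (nat_lit 221212) (nat_lit 22) (.e (nat_lit 196617) (nat_lit 9) .nil)))))))) (.g (nat_lit 5) .nil .nil)))) (.nd (nat_lit 5) 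
(.lf (nat_lit 20951) (.g (nat_lit 2085) (.e (nat_lit 1181) (nat_lit 87) (.e (nat_lit 57929) (nat_lit 282) (.e (nat_lit 163867) (nat_lit 2) (.e (nat_lit 196670) (nat_lit 14) (.e (nat_lit 73746) (nat_lit 3) (.e (nat_lit 516131) (nat_lit 3) (.e (nat_lit 221212) (nat_lit 22) (.e (nat_lit 196635) (nat_lit 9) .nil)))))))) (.g (nat_lit 4) .nil .nil))) 
(.lf (nat_lit 20983) (.g (nat_lit 567) (.e (nat_lit 1182) (nat_lit 87) (.e (nat_lit 57478) (nat_lit 28) (.e (nat_lit 557096) (nat_lit 13) .nil))) .nil)))) (.nd (nat_lit 4) (.nd (nat_lit 5) 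
(.lf (nat_lit 20943) (.g (nat_lit 4863) (.e (nat_lit 1181) (nat_lit 87) (.e (nat_lit 57872) (nat_lit 264) (.e (nat_lit 1221) (nat_lit 90) (.e (nat_lit 81959) (nat_lit 24) (.e (nat_lit 123195) (nat_lit 266) (.e (nat_lit 57420) (nat_lit 13) (.e (nat_lit 352000) (nat_lit 8) .nil))))))) (.g (nat_lit 6) .nil .nil))) 
(.lf (nat_lit 20975) (.g (nat_lit 3751) (.e (nat_lit 1182) (nat_lit 87) (.e (nat_lit 57465) (nat_lit 23) (.e (nat_lit 516129) (nat_lit 3) (.e (nat_lit 221210) (nat_lit 22) (.e (nat_lit 196670) (nat_lit 14) (.e (nat_lit 73746) (nat_lit 3) (.e (nat_lit 516120) (nat_lit 1) (.e (nat_lit 164166) (nat_lit 152) .nil)))))))) (.g (nat_lit 7) .nil .nil)))) (.nd (nat_lit 5) 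
(.lf (nat_lit 20959) (.g (nat_lit 2563) (.e (nat_lit 1181) (nat_lit 87) (.e (nat_lit 57930) (nat_lit 282) (.e (nat_lit 163869) (nat_lit 2) (.e (nat_lit 196670) (nat_lit 14) (.e (nat_lit 73746) (nat_lit 3) (.e (nat_lit 516131) (nat_lit 3) (.e (nat_lit 221212) (nat_lit 22) (.e (nat_lit 196617) (nat_lit 9) .nil)))))))) (.g (nat_lit 4) .nil .nil))) 
(.lf (nat_lit 20991) (.g (nat_lit 4020) (.e (nat_lit 1182) (nat_lit 87) (.e (nat_lit 57478) (nat_lit 28) (.e (nat_lit 557098) (nat_lit 13) (.e (nat_lit 172097) (nat_lit 9) (.e (nat_lit 426125) (nat_lit 2) (.e (nat_lit 196666) (nat_lit 13) (.e (nat_lit 65563) (nat_lit 1) (.e (nat_lit 57871) (nat_lit 264) .nil)))))))) (.g (nat_lit 8) .nil .nil)))))))))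

noncomputable def tv293 : DT := (.nd (nat_lit 0) (.nd (nat_lit 1) (.nd (nat_lit 2) (.nd (nat_lit 3) (.nd (nat_lit 4) 
(.lf (nat_lit 20992) (.g (nat_lit 4240) (.e (nat_lit 1182) (nat_lit 87) (.e (nat_lit 57478) (nat_lit 28) (.e (nat_lit 557098) (nat_lit 13) (.e (nat_lit 172097) (nat_lit 9) (.e (nat_lit 426125) (nat_lit 2) (.e (nat_lit 196666) (nat_lit 13) (.e (nat_lit 65563) (nat_lit 1) (.e (nat_lit 57872) (nat_lit 264) .nil)))))))) (.g (nat_lit 0) .nil .nil))) 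
(.lf (nat_lit 21008) (.g (nat_lit 3941) (.e (nat_lit 1182) (nat_lit 87) (.e (nat_lit 57478) (nat_lit 28) (.e (nat_lit 557098) (nat_lit 13) (.e (nat_lit 172115) (nat_lit 10) (.e (nat_lit 434231) (nat_lit 23) (.e (nat_lit 532535) (nat_lit 9) (.e (nat_lit 335985) (nat_lit 1) (.e (nat_lit 57871) (nat_lit 264) .nil)))))))) (.g (nat_lit 8) .nil .nil)))) (.nd (nat_lit 4) 
(.lf (nat_lit 21000) (.g (nat_lit 3754) (.e (nat_lit 1182) (nat_lit 87) (.e (nat_lit 57478) (nat_lit 28) (.e (nat_lit 557098) (nat_lit 13) (.e (nat_lit 172097) (nat_lit 9) (.e (nat_lit 426140) (nat_lit 3) (.e (nat_lit 204855) (nat_lit 26) (.e (nat_lit 335985) (nat_lit 1) (.e (nat_lit 57870) (nat_lit 264) .nil)))))))) (.g (nat_lit 0) .nil .nil))) 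
(.lf (nat_lit 21016) (.g (nat_lit 4600) (.e (nat_lit 1182) (nat_lit 87) (.e (nat_lit 57478) (nat_lit 28) (.e (nat_lit 557098) (nat_lit 13) (.e (nat_lit 172115) (nat_lit 10) (.e (nat_lit 434231) (nat_lit 23) (.e (nat_lit 532554) (nat_lit 13) (.e (nat_lit 368662) (nat_lit 18) (.e (nat_lit 5907) (nat_lit 320) .nil)))))))) (.g (nat_lit 8) .nil .nil))))) (.nd (nat_lit 3) (.nd (nat_lit 4) 
(.lf (nat_lit 20996) (.g (nat_lit 3738) (.e (nat_lit 1182) (nat_lit 87) (.e (nat_lit 57478) (nat_lit 28) (.e (nat_lit 557098) (nat_lit 13) (.e (nat_lit 172097) (nat_lit 9) (.e (nat_lit 426140) (nat_lit 3) (.e (nat_lit 204850) (nat_lit 26) (.e (nat_lit 335997) (nat_lit 1) (.e (nat_lit 57870) (nat_lit 264) .nil)))))))) (.g (nat_lit 0) .nil .nil))) 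
(.lf (nat_lit 21012) (.g (nat_lit 3897) (.e (nat_lit 1182) (nat_lit 87) (.e (nat_lit 57478) (nat_lit 28) (.e (nat_lit 557098) (nat_lit 13) (.e (nat_lit 172115) (nat_lit 10) (.e (nat_lit 434231) (nat_lit 23) (.e (nat_lit 532543) (nat_lit 10) (.e (nat_lit 344090) (nat_lit 18) (.e (nat_lit 5896) (nat_lit 320) .nil)))))))) (.g (nat_lit 6) .nil .nil)))) (.nd (nat_lit 4) 
(.lf (nat_lit 21004) (.g (nat_lit 4036) (.e (nat_lit 1182) (nat_lit 87) (.e (nat_lit 57478) (nat_lit 28) (.e (nat_lit 557098) (nat_lit 13) (.e (nat_lit 172115) (nat_lit 10) (.e (nat_lit 434231) (nat_lit 23) (.e (nat_lit 532527) (nat_lit 9) (.e (nat_lit 335997) (nat_lit 1) (.e (nat_lit 57870) (nat_lit 264) .nil)))))))) (.g (nat_lit 0) .nil .nil))) 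
(.lf (nat_lit 21020) (.g (nat_lit 4248) (.e (nat_lit 1182) (nat_lit 87) (.e (nat_lit 57478) (nat_lit 28) (.e (nat_lit 557100) (nat_lit 13) (.e (nat_lit 172106) (nat_lit 10) (.e (nat_lit 434231) (nat_lit 23) (.e (nat_lit 532527) (nat_lit 9) (.e (nat_lit 335997) (nat_lit 1) (.e (nat_lit 57871) (nat_lit 264) .nil)))))))) (.g (nat_lit 8) .nil .nil)))))) 
(.nd (nat_lit 2) (.nd (nat_lit 3) (.nd (nat_lit 4) 
(.lf (nat_lit 20994) (.g (nat_lit 3922) (.e (nat_lit 1182) (nat_lit 87) (.e (nat_lit 57478) (nat_lit 28) (.e (nat_lit 557098) (nat_lit 13) (.e (nat_lit 172097) (nat_lit 9) (.e (nat_lit 426125) (nat_lit 2) (.e (nat_lit 196666) (nat_lit 13) (.e (nat_lit 65565) (nat_lit 1) (.e (nat_lit 57871) (nat_lit 264) .nil)))))))) (.g (nat_lit 8) .nil .nil))) 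
(.lf (nat_lit 21010) (.g (nat_lit 5195) (.e (nat_lit 1182) (nat_lit 87) (.e (nat_lit 57478) (nat_lit 28) (.e (nat_lit 557098) (nat_lit 13) (.e (nat_lit 172115) (nat_lit 10) (.e (nat_lit 434231) (nat_lit 23) (.e (nat_lit 532535) (nat_lit 9) (.e (nat_lit 335992) (nat_lit 1) (.e (nat_lit 57870) (nat_lit 264) .nil)))))))) (.g (nat_lit 0) .nil .nil)))) (.nd (nat_lit 4) 
(.lf (nat_lit 21002) (.g (nat_lit 3823) (.e (nat_lit 1182) (nat_lit 87) (.e (nat_lit 57478) (nat_lit 28) (.e (nat_lit 557098) (nat_lit 13) (.e (nat_lit 172097) (nat_lit 9) (.e (nat_lit 426140) (nat_lit 3) (.e (nat_lit 204855) (nat_lit 26) (.e (nat_lit 335985) (nat_lit 1) (.e (nat_lit 57872) (nat_lit 264) .nil)))))))) (.g (nat_lit 0) .nil .nil))) 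
(.lf (nat_lit 21018) (.g (nat_lit 4197) (.e (nat_lit 1182) (nat_lit 87) (.e (nat_lit 57478) (nat_lit 28) (.e (nat_lit 557098) (nat_lit 13) (.e (nat_lit 172115) (nat_lit 10) (.e (nat_lit 434244) (nat_lit 28) (.e (nat_lit 573471) (nat_lit 11) (.e (nat_lit 16405) (nat_lit 1) (.e (nat_lit 164424) (nat_lit 272) .nil)))))))) (.g (nat_lit 8) .nil .nil))))) (.nd (nat_lit 3) (.nd (nat_lit 4) 
(.lf (nat_lit 20998) (.g (nat_lit 3863) (.e (nat_lit 1182) (nat_lit 87) (.e (nat_lit 57478) (nat_lit 28) (.e (nat_lit 557098) (nat_lit 13) (.e (nat_lit 172097) (nat_lit 9) (.e (nat_lit 426140) (nat_lit 3) (.e (nat_lit 204850) (nat_lit 26) (.e (nat_lit 335997) (nat_lit 1) (.e (nat_lit 57872) (nat_lit 264) .nil)))))))) (.g (nat_lit 0) .nil .nil))) 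
(.lf (nat_lit 21014) (.g (nat_lit 3654) (.e (nat_lit 1182) (nat_lit 87) (.e (nat_lit 57478) (nat_lit 28) (.e (nat_lit 557098) (nat_lit 13) (.e (nat_lit 172115) (nat_lit 10) (.e (nat_lit 434231) (nat_lit 23) (.e (nat_lit 532553) (nat_lit 13) (.e (nat_lit 368662) (nat_lit 18) (.e (nat_lit 5907) (nat_lit 320) .nil)))))))) (.g (nat_lit 6) .nil .nil)))) (.nd (nat_lit 4) 
(.lf (nat_lit 21006) (.g (nat_lit 4162) (.e (nat_lit 1182) (nat_lit 87) (.e (nat_lit 57478) (nat_lit 28) (.e (nat_lit 557098) (nat_lit 13) (.e (nat_lit 172115) (nat_lit 10) (.e (nat_lit 434231) (nat_lit 23) (.e (nat_lit 532527) (nat_lit 9) (.e (nat_lit 335997) (nat_lit 1) (.e (nat_lit 57872) (nat_lit 264) .nil)))))))) (.g (nat_lit 0) .nil .nil))) 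
(.lf (nat_lit 21022) (.g (nat_lit 3437) (.e (nat_lit 1182) (nat_lit 87) (.e (nat_lit 57478) (nat_lit 28) (.e (nat_lit 557100) (nat_lit 13) (.e (nat_lit 172106) (nat_lit 10) (.e (nat_lit 434231) (nat_lit 23) (.e (nat_lit 532535) (nat_lit 9) (.e (nat_lit 335925) (nat_lit 0) (.e (nat_lit 1023) (nat_lit 81) (.e (nat_lit 5906) (nat_lit 320) .nil))))))))) (.g (nat_lit 5) .nil .nil))))))) 
(.nd (nat_lit 1) (.nd (nat_lit 2) (.nd (nat_lit 3) (.nd (nat_lit 4) 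
(.lf (nat_lit 20993) (.g (nat_lit 4101) (.e (nat_lit 1182) (nat_lit 87) (.e (nat_lit 57478) (nat_lit 28) (.e (nat_lit 557098) (nat_lit 13) (.e (nat_lit 172097) (nat_lit 9) (.e (nat_lit 426125) (nat_lit 2) (.e (nat_lit 196666) (nat_lit 13) (.e (nat_lit 65565) (nat_lit 1) (.e (nat_lit 57870) (nat_lit 264) .nil)))))))) (.g (nat_lit 0) .nil .nil))) 
(.lf (nat_lit 21009) (.g (nat_lit 4215) (.e (nat_lit 1182) (nat_lit 87) (.e (nat_lit 57478) (nat_lit 28) (.e (nat_lit 557098) (nat_lit 13) (.e (nat_lit 172115) (nat_lit 10) (.e (nat_lit 434231) (nat_lit 23) (.e (nat_lit 532535) (nat_lit 9) (.e (nat_lit 335985) (nat_lit 1) (.e (nat_lit 57872) (nat_lit 264) .nil)))))))) (.g (nat_lit 0) .nil .nil)))) (.nd (nat_lit 4) 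
(.lf (nat_lit 21001) (.g (nat_lit 3546) (.e (nat_lit 1182) (nat_lit 87) (.e (nat_lit 57478) (nat_lit 28) (.e (nat_lit 557098) (nat_lit 13) (.e (nat_lit 172097) (nat_lit 9) (.e (nat_lit 426140) (nat_lit 3) (.e (nat_lit 204855) (nat_lit 26) (.e (nat_lit 335985) (nat_lit 1) (.e (nat_lit 57871) (nat_lit 264) .nil)))))))) (.g (nat_lit 8) .nil .nil))) 
(.lf (nat_lit 21017) (.g (nat_lit 4352) (.e (nat_lit 1182) (nat_lit 87) (.e (nat_lit 57478) (nat_lit 28) (.e (nat_lit 557098) (nat_lit 13) (.e (nat_lit 172115) (nat_lit 10) (.e (nat_lit 434244) (nat_lit 28) (.e (nat_lit 573471) (nat_lit 11) (.e (nat_lit 16405) (nat_lit 1) (.e (nat_lit 164422) (nat_lit 272) .nil)))))))) (.g (nat_lit 8) .nil .nil))))) (.nd (nat_lit 3) (.nd (nat_lit 4) 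
(.lf (nat_lit 20997) (.g (nat_lit 3543) (.e (nat_lit 1182) (nat_lit 87) (.e (nat_lit 57478) (nat_lit 28) (.e (nat_lit 557098) (nat_lit 13) (.e (nat_lit 172097) (nat_lit 9) (.e (nat_lit 426140) (nat_lit 3) (.e (nat_lit 204850) (nat_lit 26) (.e (nat_lit 335997) (nat_lit 1) (.e (nat_lit 57871) (nat_lit 264) .nil)))))))) (.g (nat_lit 8) .nil .nil))) 
(.lf (nat_lit 21013) (.g (nat_lit 3488) (.e (nat_lit 1182) (nat_lit 87) (.e (nat_lit 57478) (nat_lit 28) (.e (nat_lit 557098) (nat_lit 13) (.e (nat_lit 172115) (nat_lit 10) (.e (nat_lit 434231) (nat_lit 23) (.e (nat_lit 532553) (nat_lit 13) (.e (nat_lit 368662) (nat_lit 18) (.e (nat_lit 5906) (nat_lit 320) .nil)))))))) (.g (nat_lit 6) .nil .nil)))) (.nd (nat_lit 4) 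
(.lf (nat_lit 21005) (.g (nat_lit 3849) (.e (nat_lit 1182) (nat_lit 87) (.e (nat_lit 57478) (nat_lit 28) (.e (nat_lit 557098) (nat_lit 13) (.e (nat_lit 172115) (nat_lit 10) (.e (nat_lit 434231) (nat_lit 23) (.e (nat_lit 532527) (nat_lit 9) (.e (nat_lit 335997) (nat_lit 1) (.e (nat_lit 57871) (nat_lit 264) .nil)))))))) (.g (nat_lit 8) .nil .nil))) 
(.lf (nat_lit 21021) (.g (nat_lit 3719) (.e (nat_lit 1182) (nat_lit 87) (.e (nat_lit 57478) (nat_lit 28) (.e (nat_lit 557100) (nat_lit 13) (.e (nat_lit 172106) (nat_lit 10) (.e (nat_lit 434231) (nat_lit 23) (.e (nat_lit 532529) (nat_lit 9) (.e (nat_lit 343808) (nat_lit 1) (.e (nat_lit 57873) (nat_lit 264) .nil)))))))) (.g (nat_lit 6) .nil .nil)))))) 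
(.nd (nat_lit 2) (.nd (nat_lit 3) (.nd (nat_lit 4) 
(.lf (nat_lit 20995) (.g (nat_lit 4176) (.e (nat_lit 1182) (nat_lit 87) (.e (nat_lit 57478) (nat_lit 28) (.e (nat_lit 557098) (nat_lit 13) (.e (nat_lit 172097) (nat_lit 9) (.e (nat_lit 426125) (nat_lit 2) (.e (nat_lit 196666) (nat_lit 13) (.e (nat_lit 65565) (nat_lit 1) (.e (nat_lit 57872) (nat_lit 264) .nil)))))))) (.g (nat_lit 0) .nil .nil))) 
(.lf (nat_lit 21011) (.g (nat_lit 2943) (.e (nat_lit 1182) (nat_lit 87) (.e (nat_lit 57478) (nat_lit 28) (.e (nat_lit 557098) (nat_lit 13) (.e (nat_lit 172115) (nat_lit 10) (.e (nat_lit 434231) (nat_lit 23) (.e (nat_lit 532536) (nat_lit 9) (.e (nat_lit 335997) (nat_lit 1) (.e (nat_lit 57872) (nat_lit 264) .nil)))))))) (.g (nat_lit 5) .nil .nil)))) (.nd (nat_lit 4) 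
(.lf (nat_lit 21003) (.g (nat_lit 3807) (.e (nat_lit 1182) (nat_lit 87) (.e (nat_lit 57478) (nat_lit 28) (.e (nat_lit 557098) (nat_lit 13) (.e (nat_lit 172097) (nat_lit 9) (.e (nat_lit 426140) (nat_lit 3) (.e (nat_lit 204855) (nat_lit 26) (.e (nat_lit 335992) (nat_lit 1) (.e (nat_lit 57870) (nat_lit 264) .nil)))))))) (.g (nat_lit 8) .nil .nil))) 
(.lf (nat_lit 21019) (.g (nat_lit 4441) (.e (nat_lit 1182) (nat_lit 87) (.e (nat_lit 57478) (nat_lit 28) (.e (nat_lit 557100) (nat_lit 13) (.e (nat_lit 172106) (nat_lit 10) (.e (nat_lit 434231) (nat_lit 23) (.e (nat_lit 532527) (nat_lit 9) (.e (nat_lit 335997) (nat_lit 1) (.e (nat_lit 57870) (nat_lit 264) .nil)))))))) (.g (nat_lit 0) .nil .nil))))) (.nd (nat_lit 3) (.nd (nat_lit 4) 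
(.lf (nat_lit 20999) (.g (nat_lit 3318) (.e (nat_lit 1182) (nat_lit 87) (.e (nat_lit 57478) (nat_lit 28) (.e (nat_lit 557098) (nat_lit 13) (.e (nat_lit 172097) (nat_lit 9) (.e (nat_lit 426140) (nat_lit 3) (.e (nat_lit 204855) (nat_lit 26) (.e (nat_lit 335923) (nat_lit 0) (.e (nat_lit 1023) (nat_lit 81) (.e (nat_lit 5906) (nat_lit 320) .nil))))))))) (.g (nat_lit 6) .nil .nil))) 
(.lf (nat_lit 21015) (.g (nat_lit 4612) (.e (nat_lit 1182) (nat_lit 87) (.e (nat_lit 57478) (nat_lit 28) (.e (nat_lit 557098) (nat_lit 13) (.e (nat_lit 172115) (nat_lit 10) (.e (nat_lit 434231) (nat_lit 23) (.e (nat_lit 532554) (nat_lit 13) (.e (nat_lit 368662) (nat_lit 18) (.e (nat_lit 5906) (nat_lit 320) .nil)))))))) (.g (nat_lit 8) .nil .nil)))) (.nd (nat_lit 4) 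
(.lf (nat_lit 21007) (.g (nat_lit 4163) (.e (nat_lit 1182) (nat_lit 87) (.e (nat_lit 57478) (nat_lit 28) (.e (nat_lit 557098) (nat_lit 13) (.e (nat_lit 172115) (nat_lit 10) (.e (nat_lit 434231) (nat_lit 23) (.e (nat_lit 532535) (nat_lit 9) (.e (nat_lit 335985) (nat_lit 1) (.e (nat_lit 57870) (nat_lit 264) .nil)))))))) (.g (nat_lit 0) .nil .nil))) 
(.lf (nat_lit 21023) (.g (nat_lit 4397) (.e (nat_lit 1182) (nat_lit 87) (.e (nat_lit 57478) (nat_lit 28) (.e (nat_lit 557100) (nat_lit 13) (.e (nat_lit 172106) (nat_lit 10) (.e (nat_lit 434231) (nat_lit 23) (.e (nat_lit 532535) (nat_lit 9) (.e (nat_lit 335985) (nat_lit 1) (.e (nat_lit 57870) (nat_lit 264) .nil)))))))) (.g (nat_lit 0) .nil .nil))))))))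

noncomputable def tv294 : DT := (.nd (nat_lit 0) (.nd (nat_lit 1) (.nd (nat_lit 2) (.nd (nat_lit 3) (.nd (nat_lit 4) 
(.lf (nat_lit 21024) (.g (nat_lit 4463) (.e (nat_lit 1182) (nat_lit 87) (.e (nat_lit 57478) (nat_lit 28) (.e (nat_lit 557100) (nat_lit 13) (.e (nat_lit 172106) (nat_lit 10) (.e (nat_lit 434231) (nat_lit 23) (.e (nat_lit 532535) (nat_lit 9) (.e (nat_lit 335992) (nat_lit 1) (.e (nat_lit 57870) (nat_lit 264) .nil)))))))) (.g (nat_lit 6) .nil .nil))) 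
(.lf (nat_lit 21040) (.g (nat_lit 3969) (.e (nat_lit 1182) (nat_lit 87) (.e (nat_lit 57478) (nat_lit 28) (.e (nat_lit 557101) (nat_lit 13) (.e (nat_lit 172097) (nat_lit 9) (.e (nat_lit 426125) (nat_lit 2) (.e (nat_lit 196666) (nat_lit 13) (.e (nat_lit 65565) (nat_lit 1) (.e (nat_lit 57870) (nat_lit 264) .nil)))))))) (.g (nat_lit 0) .nil .nil)))) (.nd (nat_lit 4) 
(.lf (nat_lit 21032) (.g (nat_lit 4163) (.e (nat_lit 1182) (nat_lit 87) (.e (nat_lit 57478) (nat_lit 28) (.e (nat_lit 557100) (nat_lit 13) (.e (nat_lit 172106) (nat_lit 10) (.e (nat_lit 434231) (nat_lit 23) (.e (nat_lit 532554) (nat_lit 13) (.e (nat_lit 368662) (nat_lit 18) (.e (nat_lit 5907) (nat_lit 320) .nil)))))))) (.g (nat_lit 8) .nil .nil))) 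
(.lf (nat_lit 21048) (.g (nat_lit 1496) (.e (nat_lit 1182) (nat_lit 87) (.e (nat_lit 57478) (nat_lit 28) (.e (nat_lit 557101) (nat_lit 13) (.e (nat_lit 172115) (nat_lit 10) (.e (nat_lit 434231) (nat_lit 23) .nil))))) .nil)))) (.nd (nat_lit 3) (.nd (nat_lit 4) 
(.lf (nat_lit 21028) (.g (nat_lit 3385) (.e (nat_lit 1182) (nat_lit 87) (.e (nat_lit 57478) (nat_lit 28) (.e (nat_lit 557100) (nat_lit 13) (.e (nat_lit 172106) (nat_lit 10) (.e (nat_lit 434231) (nat_lit 23) (.e (nat_lit 532544) (nat_lit 10) (.e (nat_lit 344090) (nat_lit 18) (.e (nat_lit 5896) (nat_lit 320) .nil)))))))) (.g (nat_lit 5) .nil .nil))) 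
(.lf (nat_lit 21044) (.g (nat_lit 3188) (.e (nat_lit 1182) (nat_lit 87) (.e (nat_lit 57478) (nat_lit 28) (.e (nat_lit 557101) (nat_lit 13) (.e (nat_lit 172097) (nat_lit 9) (.e (nat_lit 426140) (nat_lit 3) (.e (nat_lit 204855) (nat_lit 26) (.e (nat_lit 335923) (nat_lit 0) (.e (nat_lit 1023) (nat_lit 81) (.e (nat_lit 5906) (nat_lit 320) .nil))))))))) (.g (nat_lit 6) .nil .nil)))) (.nd (nat_lit 4) 
(.lf (nat_lit 21036) (.g (nat_lit 3884) (.e (nat_lit 1182) (nat_lit 87) (.e (nat_lit 57478) (nat_lit 28) (.e (nat_lit 557101) (nat_lit 13) (.e (nat_lit 172097) (nat_lit 9) (.e (nat_lit 426125) (nat_lit 2) (.e (nat_lit 196666) (nat_lit 13) (.e (nat_lit 65550) (nat_lit 0) (.e (nat_lit 1023) (nat_lit 81) (.e (nat_lit 5907) (nat_lit 320) .nil))))))))) (.g (nat_lit 6) .nil .nil))) 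
(.lf (nat_lit 21052) (.g (nat_lit 4006) (.e (nat_lit 1182) (nat_lit 87) (.e (nat_lit 57478) (nat_lit 28) (.e (nat_lit 557101) (nat_lit 13) (.e (nat_lit 172115) (nat_lit 10) (.e (nat_lit 434231) (nat_lit 23) (.e (nat_lit 532535) (nat_lit 9) (.e (nat_lit 335985) (nat_lit 1) (.e (nat_lit 57870) (nat_lit 264) .nil)))))))) (.g (nat_lit 0) .nil .nil)))))) 
(.nd (nat_lit 2) (.nd (nat_lit 3) (.nd (nat_lit 4) 
(.lf (nat_lit 21026) (.g (nat_lit 3432) (.e (nat_lit 1182) (nat_lit 87) (.e (nat_lit 57478) (nat_lit 28) (.e (nat_lit 557100) (nat_lit 13) (.e (nat_lit 172106) (nat_lit 10) (.e (nat_lit 434231) (nat_lit 23) (.e (nat_lit 532535) (nat_lit 9) (.e (nat_lit 335992) (nat_lit 1) (.e (nat_lit 57873) (nat_lit 264) .nil)))))))) (.g (nat_lit 5) .nil .nil))) 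
(.lf (nat_lit 21042) (.g (nat_lit 3619) (.e (nat_lit 1182) (nat_lit 87) (.e (nat_lit 57478) (nat_lit 28) (.e (nat_lit 557101) (nat_lit 13) (.e (nat_lit 172097) (nat_lit 9) (.e (nat_lit 426140) (nat_lit 3) (.e (nat_lit 204850) (nat_lit 26) (.e (nat_lit 335997) (nat_lit 1) (.e (nat_lit 57870) (nat_lit 264) .nil)))))))) (.g (nat_lit 0) .nil .nil)))) (.nd (nat_lit 4) 
(.lf (nat_lit 21034) (.g (nat_lit 2982) (.e (nat_lit 1182) (nat_lit 87) (.e (nat_lit 57478) (nat_lit 28) (.e (nat_lit 557100) (nat_lit 13) (.e (nat_lit 172113) (nat_lit 10) (.e (nat_lit 434245) (nat_lit 28) (.e (nat_lit 573471) (nat_lit 11) (.e (nat_lit 16406) (nat_lit 1) (.e (nat_lit 164421) (nat_lit 272) .nil)))))))) (.g (nat_lit 4) .nil .nil))) 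
(.lf (nat_lit 21050) (.g (nat_lit 3911) (.e (nat_lit 1182) (nat_lit 87) (.e (nat_lit 57478) (nat_lit 28) (.e (nat_lit 557101) (nat_lit 13) (.e (nat_lit 172115) (nat_lit 10) (.e (nat_lit 434231) (nat_lit 23) (.e (nat_lit 532527) (nat_lit 9) (.e (nat_lit 335997) (nat_lit 1) (.e (nat_lit 57870) (nat_lit 264) .nil)))))))) (.g (nat_lit 0) .nil .nil))))) (.nd (nat_lit 3) (.nd (nat_lit 4) 
(.lf (nat_lit 21030) (.g (nat_lit 3425) (.e (nat_lit 1182) (nat_lit 87) (.e (nat_lit 57478) (nat_lit 28) (.e (nat_lit 557100) (nat_lit 13) (.e (nat_lit 172106) (nat_lit 10) (.e (nat_lit 434231) (nat_lit 23) (.e (nat_lit 532553) (nat_lit 13) (.e (nat_lit 368662) (nat_lit 18) (.e (nat_lit 5907) (nat_lit 320) .nil)))))))) (.g (nat_lit 6) .nil .nil))) 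
(.lf (nat_lit 21046) (.g (nat_lit 3408) (.e (nat_lit 1182) (nat_lit 87) (.e (nat_lit 57478) (nat_lit 28) (.e (nat_lit 557101) (nat_lit 13) (.e (nat_lit 172097) (nat_lit 9) (.e (nat_lit 426140) (nat_lit 3) (.e (nat_lit 204855) (nat_lit 26) (.e (nat_lit 335985) (nat_lit 1) (.e (nat_lit 57871) (nat_lit 264) .nil)))))))) (.g (nat_lit 8) .nil .nil)))) (.nd (nat_lit 4) 
(.lf (nat_lit 21038) (.g (nat_lit 4048) (.e (nat_lit 1182) (nat_lit 87) (.e (nat_lit 57478) (nat_lit 28) (.e (nat_lit 557101) (nat_lit 13) (.e (nat_lit 172097) (nat_lit 9) (.e (nat_lit 426125) (nat_lit 2) (.e (nat_lit 196666) (nat_lit 13) (.e (nat_lit 65563) (nat_lit 1) (.e (nat_lit 57870) (nat_lit 264) .nil)))))))) (.g (nat_lit 0) .nil .nil))) 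
(.lf (nat_lit 21054) (.g (nat_lit 5038) (.e (nat_lit 1182) (nat_lit 87) (.e (nat_lit 57478) (nat_lit 28) (.e (nat_lit 557101) (nat_lit 13) (.e (nat_lit 172115) (nat_lit 10) (.e (nat_lit 434231) (nat_lit 23) (.e (nat_lit 532535) (nat_lit 9) (.e (nat_lit 335992) (nat_lit 1) (.e (nat_lit 57870) (nat_lit 264) .nil)))))))) (.g (nat_lit 0) .nil .nil))))))) 
(.nd (nat_lit 1) (.nd (nat_lit 2) (.nd (nat_lit 3) (.nd (nat_lit 4) 
(.lf (nat_lit 21025) (.g (nat_lit 3429) (.e (nat_lit 1182) (nat_lit 87) (.e (nat_lit 57478) (nat_lit 28) (.e (nat_lit 557100) (nat_lit 13) (.e (nat_lit 172106) (nat_lit 10) (.e (nat_lit 434231) (nat_lit 23) (.e (nat_lit 532535) (nat_lit 9) (.e (nat_lit 335992) (nat_lit 1) (.e (nat_lit 57872) (nat_lit 264) .nil)))))))) (.g (nat_lit 5) .nil .nil))) 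
(.lf (nat_lit 21041) (.g (nat_lit 3777) (.e (nat_lit 1182) (nat_lit 87) (.e (nat_lit 57478) (nat_lit 28) (.e (nat_lit 557101) (nat_lit 13) (.e (nat_lit 172097) (nat_lit 9) (.e (nat_lit 426125) (nat_lit 2) (.e (nat_lit 196666) (nat_lit 13) (.e (nat_lit 65565) (nat_lit 1) (.e (nat_lit 57871) (nat_lit 264) .nil)))))))) (.g (nat_lit 8) .nil .nil)))) (.nd (nat_lit 4) 
(.lf (nat_lit 21033) (.g (nat_lit 2974) (.e (nat_lit 1182) (nat_lit 87) (.e (nat_lit 57478) (nat_lit 28) (.e (nat_lit 557100) (nat_lit 13) (.e (nat_lit 172113) (nat_lit 10) (.e (nat_lit 434245) (nat_lit 28) .nil))))) .nil)) 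
(.lf (nat_lit 21049) (.g (nat_lit 2286) (.e (nat_lit 1182) (nat_lit 87) (.e (nat_lit 57478) (nat_lit 28) (.e (nat_lit 557101) (nat_lit 13) (.e (nat_lit 172115) (nat_lit 10) (.e (nat_lit 434231) (nat_lit 23) (.e (nat_lit 532490) (nat_lit 0) (.e (nat_lit 7936) (nat_lit 343) (.e (nat_lit 1181) (nat_lit 87) (.e (nat_lit 57872) (nat_lit 264) .nil))))))))) (.g (nat_lit 5) .nil .nil))))) 
(.nd (nat_lit 3) (.nd (nat_lit 4) 
(.lf (nat_lit 21029) (.g (nat_lit 4667) (.e (nat_lit 1182) (nat_lit 87) (.e (nat_lit 57478) (nat_lit 28) (.e (nat_lit 557100) (nat_lit 13) (.e (nat_lit 172106) (nat_lit 10) (.e (nat_lit 434231) (nat_lit 23) (.e (nat_lit 532544) (nat_lit 10) (.e (nat_lit 344097) (nat_lit 18) (.e (nat_lit 5905) (nat_lit 320) .nil)))))))) (.g (nat_lit 7) .nil .nil))) 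
(.lf (nat_lit 21045) (.g (nat_lit 3629) (.e (nat_lit 1182) (nat_lit 87) (.e (nat_lit 57478) (nat_lit 28) (.e (nat_lit 557101) (nat_lit 13) (.e (nat_lit 172097) (nat_lit 9) (.e (nat_lit 426140) (nat_lit 3) (.e (nat_lit 204855) (nat_lit 26) (.e (nat_lit 335985) (nat_lit 1) (.e (nat_lit 57870) (nat_lit 264) .nil)))))))) (.g (nat_lit 0) .nil .nil)))) (.nd (nat_lit 4) 
(.lf (nat_lit 21037) (.g (nat_lit 3197) (.e (nat_lit 1182) (nat_lit 87) (.e (nat_lit 57478) (nat_lit 28) (.e (nat_lit 557101) (nat_lit 13) (.e (nat_lit 172097) (nat_lit 9) (.e (nat_lit 426125) (nat_lit 2) (.e (nat_lit 196666) (nat_lit 13) (.e (nat_lit 65553) (nat_lit 0) (.e (nat_lit 1023) (nat_lit 81) (.e (nat_lit 5906) (nat_lit 320) .nil))))))))) (.g (nat_lit 6) .nil .nil))) 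
(.lf (nat_lit 21053) (.g (nat_lit 3771) (.e (nat_lit 1182) (nat_lit 87) (.e (nat_lit 57478) (nat_lit 28) (.e (nat_lit 557101) (nat_lit 13) (.e (nat_lit 172115) (nat_lit 10) (.e (nat_lit 434231) (nat_lit 23) (.e (nat_lit 532535) (nat_lit 9) (.e (nat_lit 335985) (nat_lit 1) (.e (nat_lit 57871) (nat_lit 264) .nil)))))))) (.g (nat_lit 8) .nil .nil)))))) 
(.nd (nat_lit 2) (.nd (nat_lit 3) (.nd (nat_lit 4) 
(.lf (nat_lit 21027) (.g (nat_lit 4304) (.e (nat_lit 1182) (nat_lit 87) (.e (nat_lit 57478) (nat_lit 28) (.e (nat_lit 557100) (nat_lit 13) (.e (nat_lit 172106) (nat_lit 10) (.e (nat_lit 434231) (nat_lit 23) (.e (nat_lit 532543) (nat_lit 10) (.e (nat_lit 344097) (nat_lit 18) (.e (nat_lit 5905) (nat_lit 320) .nil)))))))) (.g (nat_lit 7) .nil .nil))) 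
(.lf (nat_lit 21043) (.g (nat_lit 3411) (.e (nat_lit 1182) (nat_lit 87) (.e (nat_lit 57478) (nat_lit 28) (.e (nat_lit 557101) (nat_lit 13) (.e (nat_lit 172097) (nat_lit 9) (.e (nat_lit 426140) (nat_lit 3) (.e (nat_lit 204850) (nat_lit 26) (.e (nat_lit 335997) (nat_lit 1) (.e (nat_lit 57871) (nat_lit 264) .nil)))))))) (.g (nat_lit 8) .nil .nil)))) (.nd (nat_lit 4) 
(.lf (nat_lit 21035) (.g (nat_lit 1704) (.e (nat_lit 1182) (nat_lit 87) (.e (nat_lit 57478) (nat_lit 28) (.e (nat_lit 557101) (nat_lit 13) (.e (nat_lit 172097) (nat_lit 9) (.e (nat_lit 426125) (nat_lit 2) (.e (nat_lit 196666) (nat_lit 13) (.e (nat_lit 65546) (nat_lit 0) (.e (nat_lit 1023) (nat_lit 81) (.e (nat_lit 5902) (nat_lit 320) .nil))))))))) (.g (nat_lit 4) .nil .nil))) 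
(.lf (nat_lit 21051) (.g (nat_lit 3711) (.e (nat_lit 1182) (nat_lit 87) (.e (nat_lit 57478) (nat_lit 28) (.e (nat_lit 557101) (nat_lit 13) (.e (nat_lit 172115) (nat_lit 10) (.e (nat_lit 434231) (nat_lit 23) (.e (nat_lit 532527) (nat_lit 9) (.e (nat_lit 335997) (nat_lit 1) (.e (nat_lit 57871) (nat_lit 264) .nil)))))))) (.g (nat_lit 8) .nil .nil))))) (.nd (nat_lit 3) (.nd (nat_lit 4) 
(.lf (nat_lit 21031) (.g (nat_lit 4190) (.e (nat_lit 1182) (nat_lit 87) (.e (nat_lit 57478) (nat_lit 28) (.e (nat_lit 557100) (nat_lit 13) (.e (nat_lit 172106) (nat_lit 10) (.e (nat_lit 434231) (nat_lit 23) (.e (nat_lit 532554) (nat_lit 13) (.e (nat_lit 368662) (nat_lit 18) (.e (nat_lit 5906) (nat_lit 320) .nil)))))))) (.g (nat_lit 7) .nil .nil))) 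
(.lf (nat_lit 21047) (.g (nat_lit 3682) (.e (nat_lit 1182) (nat_lit 87) (.e (nat_lit 57478) (nat_lit 28) (.e (nat_lit 557101) (nat_lit 13) (.e (nat_lit 172097) (nat_lit 9) (.e (nat_lit 426140) (nat_lit 3) (.e (nat_lit 204855) (nat_lit 26) (.e (nat_lit 335992) (nat_lit 1) (.e (nat_lit 57870) (nat_lit 264) .nil)))))))) (.g (nat_lit 8) .nil .nil)))) (.nd (nat_lit 4) 
(.lf (nat_lit 21039) (.g (nat_lit 3875) (.e (nat_lit 1182) (nat_lit 87) (.e (nat_lit 57478) (nat_lit 28) (.e (nat_lit 557101) (nat_lit 13) (.e (nat_lit 172097) (nat_lit 9) (.e (nat_lit 426125) (nat_lit 2) (.e (nat_lit 196666) (nat_lit 13) (.e (nat_lit 65563) (nat_lit 1) (.e (nat_lit 57871) (nat_lit 264) .nil)))))))) (.g (nat_lit 8) .nil .nil))) 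
(.lf (nat_lit 21055) (.g (nat_lit 3749) (.e (nat_lit 1182) (nat_lit 87) (.e (nat_lit 57478) (nat_lit 28) (.e (nat_lit 557101) (nat_lit 13) (.e (nat_lit 172115) (nat_lit 10) (.e (nat_lit 434231) (nat_lit 23) (.e (nat_lit 532543) (nat_lit 10) (.e (nat_lit 344090) (nat_lit 18) (.e (nat_lit 5896) (nat_lit 320) .nil)))))))) (.g (nat_lit 6) .nil .nil))))))))

noncomputable def tv295 : DT := (.nd (nat_lit 0) (.nd (nat_lit 1) (.nd (nat_lit 2) (.nd (nat_lit 3) (.nd (nat_lit 4) (.nd (nat_lit 5) 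
(.lf (nat_lit 21056) (.g (nat_lit 3477) (.e (nat_lit 1182) (nat_lit 87) (.e (nat_lit 57478) (nat_lit 28) (.e (nat_lit 557101) (nat_lit 13) (.e (nat_lit 172115) (nat_lit 10) (.e (nat_lit 434231) (nat_lit 23) (.e (nat_lit 532553) (nat_lit 13) (.e (nat_lit 368662) (nat_lit 18) (.e (nat_lit 5907) (nat_lit 320) .nil)))))))) (.g (nat_lit 6) .nil .nil))) 
(.lf (nat_lit 21088) (.g (nat_lit 2369) (.e (nat_lit 1182) (nat_lit 87) (.e (nat_lit 57478) (nat_lit 28) (.e (nat_lit 557107) (nat_lit 15) (.e (nat_lit 188447) (nat_lit 22) (.e (nat_lit 196681) (nat_lit 17) .nil))))) .nil))) (.nd (nat_lit 5) 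
(.lf (nat_lit 21072) (.g (nat_lit 2857) (.e (nat_lit 1182) (nat_lit 87) (.e (nat_lit 57478) (nat_lit 28) (.e (nat_lit 557107) (nat_lit 15) (.e (nat_lit 188439) (nat_lit 20) (.e (nat_lit 3272) (nat_lit 199) (.e (nat_lit 548913) (nat_lit 18) (.e (nat_lit 172061) (nat_lit 1) (.e (nat_lit 164422) (nat_lit 272) .nil)))))))) (.g (nat_lit 6) .nil .nil))) 
(.lf (nat_lit 21104) (.g (nat_lit 2931) (.e (nat_lit 1182) (nat_lit 87) (.e (nat_lit 57478) (nat_lit 28) (.e (nat_lit 557107) (nat_lit 15) (.e (nat_lit 188450) (nat_lit 23) (.e (nat_lit 204855) (nat_lit 26) (.e (nat_lit 335985) (nat_lit 1) (.e (nat_lit 57871) (nat_lit 264) .nil))))))) (.g (nat_lit 7) .nil .nil))))) (.nd (nat_lit 4) (.nd (nat_lit 5) 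
(.lf (nat_lit 21064) (.g (nat_lit 2304) (.e (nat_lit 1182) (nat_lit 87) (.e (nat_lit 57478) (nat_lit 28) (.e (nat_lit 557105) (nat_lit 14) (.e (nat_lit 180252) (nat_lit 10) (.e (nat_lit 573480) (nat_lit 13) .nil))))) .nil)) 
(.lf (nat_lit 21096) (.g (nat_lit 1678) (.e (nat_lit 1182) (nat_lit 87) (.e (nat_lit 57478) (nat_lit 28) (.e (nat_lit 557107) (nat_lit 15) (.e (nat_lit 188450) (nat_lit 23) (.e (nat_lit 204817) (nat_lit 17) .nil))))) .nil))) (.nd (nat_lit 5) 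
(.lf (nat_lit 21080) (.g (nat_lit 3608) (.e (nat_lit 1182) (nat_lit 87) (.e (nat_lit 57478) (nat_lit 28) (.e (nat_lit 557107) (nat_lit 15) (.e (nat_lit 188447) (nat_lit 22) (.e (nat_lit 196666) (nat_lit 13) (.e (nat_lit 65563) (nat_lit 1) (.e (nat_lit 57870) (nat_lit 264) .nil))))))) (.g (nat_lit 0) .nil .nil))) 
(.lf (nat_lit 21112) (.g (nat_lit 1843) (.e (nat_lit 1182) (nat_lit 87) (.e (nat_lit 57478) (nat_lit 28) (.e (nat_lit 557107) (nat_lit 15) (.e (nat_lit 188450) (nat_lit 23) (.e (nat_lit 204861) (nat_lit 26) .nil))))) .nil))))) (.nd (nat_lit 3) (.nd (nat_lit 4) (.nd (nat_lit 5) 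
(.lf (nat_lit 21060) (.g (nat_lit 4111) (.e (nat_lit 1182) (nat_lit 87) (.e (nat_lit 57478) (nat_lit 28) (.e (nat_lit 557101) (nat_lit 13) (.e (nat_lit 172115) (nat_lit 10) (.e (nat_lit 434244) (nat_lit 28) (.e (nat_lit 573471) (nat_lit 11) (.e (nat_lit 16405) (nat_lit 1) (.e (nat_lit 164424) (nat_lit 272) .nil)))))))) (.g (nat_lit 8) .nil .nil))) 
(.lf (nat_lit 21092) (.g (nat_lit 3832) (.e (nat_lit 1182) (nat_lit 87) (.e (nat_lit 57478) (nat_lit 28) (.e (nat_lit 557107) (nat_lit 15) (.e (nat_lit 188447) (nat_lit 22) (.e (nat_lit 196681) (nat_lit 17) (.e (nat_lit 131088) (nat_lit 1) (.e (nat_lit 57872) (nat_lit 264) .nil))))))) (.g (nat_lit 7) .nil .nil)))) (.nd (nat_lit 5) 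
(.lf (nat_lit 21076) (.g (nat_lit 2049) (.e (nat_lit 1182) (nat_lit 87) (.e (nat_lit 57478) (nat_lit 28) (.e (nat_lit 557107) (nat_lit 15) (.e (nat_lit 188447) (nat_lit 22) (.e (nat_lit 196630) (nat_lit 9) (.e (nat_lit 1499) (nat_lit 108) (.e (nat_lit 335995) (nat_lit 1) (.e (nat_lit 57872) (nat_lit 264) .nil)))))))) (.g (nat_lit 4) .nil .nil))) 
(.lf (nat_lit 21108) (.g (nat_lit 2172) (.e (nat_lit 1182) (nat_lit 87) (.e (nat_lit 57478) (nat_lit 28) (.e (nat_lit 557107) (nat_lit 15) (.e (nat_lit 188450) (nat_lit 23) (.e (nat_lit 204856) (nat_lit 26) (.e (nat_lit 335997) (nat_lit 1) (.e (nat_lit 57872) (nat_lit 264) .nil))))))) (.g (nat_lit 4) .nil .nil))))) (.nd (nat_lit 4) (.nd (nat_lit 5) 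
(.lf (nat_lit 21068) (.g (nat_lit 2418) (.e (nat_lit 1182) (nat_lit 87) (.e (nat_lit 57478) (nat_lit 28) (.e (nat_lit 557105) (nat_lit 14) (.e (nat_lit 180252) (nat_lit 10) (.e (nat_lit 573488) (nat_lit 14) (.e (nat_lit 73747) (nat_lit 3) (.e (nat_lit 516119) (nat_lit 1) (.e (nat_lit 164167) (nat_lit 152) .nil)))))))) (.g (nat_lit 4) .nil .nil))) 
(.lf (nat_lit 21100) (.g (nat_lit 1844) (.e (nat_lit 1182) (nat_lit 87) (.e (nat_lit 57478) (nat_lit 28) (.e (nat_lit 557107) (nat_lit 15) (.e (nat_lit 188450) (nat_lit 23) (.e (nat_lit 204852) (nat_lit 26) (.e (nat_lit 343808) (nat_lit 1) (.e (nat_lit 57870) (nat_lit 264) .nil))))))) (.g (nat_lit 4) .nil .nil)))) (.nd (nat_lit 5) 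
(.lf (nat_lit 21084) (.g (nat_lit 3332) (.e (nat_lit 1182) (nat_lit 87) (.e (nat_lit 57478) (nat_lit 28) (.e (nat_lit 557107) (nat_lit 15) (.e (nat_lit 188447) (nat_lit 22) (.e (nat_lit 196668) (nat_lit 14) (.e (nat_lit 73733) (nat_lit 0) (.e (nat_lit 5905) (nat_lit 320) .nil))))))) (.g (nat_lit 5) .nil .nil))) 
(.lf (nat_lit 21116) (.g (nat_lit 4189) (.e (nat_lit 1182) (nat_lit 87) (.e (nat_lit 57478) (nat_lit 28) (.e (nat_lit 557107) (nat_lit 15) (.e (nat_lit 188450) (nat_lit 23) (.e (nat_lit 204863) (nat_lit 27) (.e (nat_lit 344097) (nat_lit 18) (.e (nat_lit 5906) (nat_lit 320) .nil))))))) (.g (nat_lit 0) .nil .nil))))))) (.nd (nat_lit 2) (.nd (nat_lit 3) (.nd (nat_lit 4) (.nd (nat_lit 5) 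
(.lf (nat_lit 21058) (.g (nat_lit 4425) (.e (nat_lit 1182) (nat_lit 87) (.e (nat_lit 57478) (nat_lit 28) (.e (nat_lit 557101) (nat_lit 13) (.e (nat_lit 172115) (nat_lit 10) (.e (nat_lit 434231) (nat_lit 23) (.e (nat_lit 532554) (nat_lit 13) (.e (nat_lit 368662) (nat_lit 18) (.e (nat_lit 5907) (nat_lit 320) .nil)))))))) (.g (nat_lit 8) .nil .nil))) 
(.lf (nat_lit 21090) (.g (nat_lit 3655) (.e (nat_lit 1182) (nat_lit 87) (.e (nat_lit 57478) (nat_lit 28) (.e (nat_lit 557107) (nat_lit 15) (.e (nat_lit 188447) (nat_lit 22) (.e (nat_lit 196681) (nat_lit 17) (.e (nat_lit 131086) (nat_lit 1) (.e (nat_lit 57872) (nat_lit 264) .nil))))))) (.g (nat_lit 5) .nil .nil)))) (.nd (nat_lit 5) 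
(.lf (nat_lit 21074) (.g (nat_lit 2249) (.e (nat_lit 1182) (nat_lit 87) (.e (nat_lit 57478) (nat_lit 28) (.e (nat_lit 557107) (nat_lit 15) (.e (nat_lit 188440) (nat_lit 20) (.e (nat_lit 3272) (nat_lit 199) .nil))))) .nil)) 
(.lf (nat_lit 21106) (.g (nat_lit 1888) (.e (nat_lit 1182) (nat_lit 87) (.e (nat_lit 57478) (nat_lit 28) (.e (nat_lit 557107) (nat_lit 15) (.e (nat_lit 188450) (nat_lit 23) (.e (nat_lit 204856) (nat_lit 26) .nil))))) .nil)))) (.nd (nat_lit 4) (.nd (nat_lit 5) 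
(.lf (nat_lit 21066) (.g (nat_lit 2412) (.e (nat_lit 1182) (nat_lit 87) (.e (nat_lit 57478) (nat_lit 28) (.e (nat_lit 557105) (nat_lit 14) (.e (nat_lit 180252) (nat_lit 10) (.e (nat_lit 573488) (nat_lit 14) (.e (nat_lit 73746) (nat_lit 3) (.e (nat_lit 516120) (nat_lit 1) (.e (nat_lit 164166) (nat_lit 152) .nil)))))))) (.g (nat_lit 4) .nil .nil))) 
(.lf (nat_lit 21098) (.g (nat_lit 3080) (.e (nat_lit 1182) (nat_lit 87) (.e (nat_lit 57478) (nat_lit 28) (.e (nat_lit 557107) (nat_lit 15) (.e (nat_lit 188450) (nat_lit 23) (.e (nat_lit 204850) (nat_lit 26) (.e (nat_lit 335997) (nat_lit 1) (.e (nat_lit 57870) (nat_lit 264) .nil))))))) (.g (nat_lit 0) .nil .nil)))) (.nd (nat_lit 5) 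
(.lf (nat_lit 21082) (.g (nat_lit 3636) (.e (nat_lit 1182) (nat_lit 87) (.e (nat_lit 57478) (nat_lit 28) (.e (nat_lit 557107) (nat_lit 15) (.e (nat_lit 188447) (nat_lit 22) (.e (nat_lit 196666) (nat_lit 13) (.e (nat_lit 65565) (nat_lit 1) (.e (nat_lit 57870) (nat_lit 264) .nil))))))) (.g (nat_lit 0) .nil .nil))) 
(.lf (nat_lit 21114) (.g (nat_lit 3093) (.e (nat_lit 1182) (nat_lit 87) (.e (nat_lit 57478) (nat_lit 28) (.e (nat_lit 557107) (nat_lit 15) (.e (nat_lit 188450) (nat_lit 23) (.e (nat_lit 204862) (nat_lit 27) (.e (nat_lit 344097) (nat_lit 18) (.e (nat_lit 5905) (nat_lit 320) .nil))))))) (.g (nat_lit 6) .nil .nil)))))) (.nd (nat_lit 3) (.nd (nat_lit 4) (.nd (nat_lit 5) 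
(.lf (nat_lit 21062) (.g (nat_lit 2529) (.e (nat_lit 1182) (nat_lit 87) (.e (nat_lit 57478) (nat_lit 28) (.e (nat_lit 557103) (nat_lit 14) (.e (nat_lit 180250) (nat_lit 10) (.e (nat_lit 573487) (nat_lit 14) (.e (nat_lit 73746) (nat_lit 3) (.e (nat_lit 516117) (nat_lit 1) (.e (nat_lit 164164) (nat_lit 152) .nil)))))))) (.g (nat_lit 4) .nil .nil))) 
(.lf (nat_lit 21094) (.g (nat_lit 3757) (.e (nat_lit 1182) (nat_lit 87) (.e (nat_lit 57478) (nat_lit 28) (.e (nat_lit 557107) (nat_lit 15) (.e (nat_lit 188447) (nat_lit 22) (.e (nat_lit 196681) (nat_lit 17) (.e (nat_lit 131089) (nat_lit 1) (.e (nat_lit 57870) (nat_lit 264) .nil))))))) (.g (nat_lit 6) .nil .nil)))) (.nd (nat_lit 5) 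
(.lf (nat_lit 21078) (.g (nat_lit 3128) (.e (nat_lit 1182) (nat_lit 87) (.e (nat_lit 57478) (nat_lit 28) (.e (nat_lit 557107) (nat_lit 15) (.e (nat_lit 188447) (nat_lit 22) (.e (nat_lit 196666) (nat_lit 13) (.e (nat_lit 65550) (nat_lit 0) (.e (nat_lit 1040) (nat_lit 81) (.e (nat_lit 5907) (nat_lit 320) .nil)))))))) (.g (nat_lit 5) .nil .nil))) 
(.lf (nat_lit 21110) (.g (nat_lit 2022) (.e (nat_lit 1182) (nat_lit 87) (.e (nat_lit 57478) (nat_lit 28) (.e (nat_lit 557107) (nat_lit 15) (.e (nat_lit 188450) (nat_lit 23) (.e (nat_lit 204858) (nat_lit 26) .nil))))) .nil)))) (.nd (nat_lit 4) (.nd (nat_lit 5) 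
(.lf (nat_lit 21070) (.g (nat_lit 1626) (.e (nat_lit 1182) (nat_lit 87) (.e (nat_lit 57478) (nat_lit 28) (.e (nat_lit 557107) (nat_lit 15) (.e (nat_lit 188439) (nat_lit 20) (.e (nat_lit 3270) (nat_lit 199) (.e (nat_lit 548898) (nat_lit 14) (.e (nat_lit 2964) (nat_lit 185) (.e (nat_lit 434202) (nat_lit 18) (.e (nat_lit 4598) (nat_lit 269) .nil))))))))) (.g (nat_lit 4) .nil .nil))) 
(.lf (nat_lit 21102) (.g (nat_lit 2765) (.e (nat_lit 1182) (nat_lit 87) (.e (nat_lit 57478) (nat_lit 28) (.e (nat_lit 557107) (nat_lit 15) (.e (nat_lit 188450) (nat_lit 23) (.e (nat_lit 204855) (nat_lit 26) (.e (nat_lit 335923) (nat_lit 0) (.e (nat_lit 1023) (nat_lit 81) (.e (nat_lit 5905) (nat_lit 320) .nil)))))))) (.g (nat_lit 5) .nil .nil)))) (.nd (nat_lit 5) 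
(.lf (nat_lit 21086) (.g (nat_lit 4557) (.e (nat_lit 1182) (nat_lit 87) (.e (nat_lit 57478) (nat_lit 28) (.e (nat_lit 557107) (nat_lit 15) (.e (nat_lit 188447) (nat_lit 22) (.e (nat_lit 196668) (nat_lit 14) (.e (nat_lit 73733) (nat_lit 0) (.e (nat_lit 5907) (nat_lit 320) .nil))))))) (.g (nat_lit 7) .nil .nil))) 
(.lf (nat_lit 21118) (.g (nat_lit 2404) (.e (nat_lit 1182) (nat_lit 87) (.e (nat_lit 57478) (nat_lit 28) (.e (nat_lit 557107) (nat_lit 15) (.e (nat_lit 188450) (nat_lit 23) (.e (nat_lit 204864) (nat_lit 27) (.e (nat_lit 344097) (nat_lit 18) (.e (nat_lit 5907) (nat_lit 320) .nil))))))) (.g (nat_lit 4) .nil .nil)))))))) 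
(.nd (nat_lit 1) (.nd (nat_lit 2) (.nd (nat_lit 3) (.nd (nat_lit 4) (.nd (nat_lit 5) 
(.lf (nat_lit 21057) (.g (nat_lit 4447) (.e (nat_lit 1182) (nat_lit 87) (.e (nat_lit 57478) (nat_lit 28) (.e (nat_lit 557101) (nat_lit 13) (.e (nat_lit 172115) (nat_lit 10) (.e (nat_lit 434231) (nat_lit 23) (.e (nat_lit 532554) (nat_lit 13) (.e (nat_lit 368662) (nat_lit 18) (.e (nat_lit 5906) (nat_lit 320) .nil)))))))) (.g (nat_lit 8) .nil .nil))) 
(.lf (nat_lit 21089) (.g (nat_lit 3382) (.e (nat_lit 1182) (nat_lit 87) (.e (nat_lit 57478) (nat_lit 28) (.e (nat_lit 557107) (nat_lit 15) (.e (nat_lit 188447) (nat_lit 22) (.e (nat_lit 196681) (nat_lit 17) (.e (nat_lit 131086) (nat_lit 1) (.e (nat_lit 57870) (nat_lit 264) .nil))))))) (.g (nat_lit 5) .nil .nil)))) (.nd (nat_lit 5) 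
(.lf (nat_lit 21073) (.g (nat_lit 1679) (.e (nat_lit 1182) (nat_lit 87) (.e (nat_lit 57478) (nat_lit 28) (.e (nat_lit 557107) (nat_lit 15) (.e (nat_lit 188440) (nat_lit 20) .nil)))) .nil)) 
(.lf (nat_lit 21105) (.g (nat_lit 3485) (.e (nat_lit 1182) (nat_lit 87) (.e (nat_lit 57478) (nat_lit 28) (.e (nat_lit 557107) (nat_lit 15) (.e (nat_lit 188450) (nat_lit 23) (.e (nat_lit 204855) (nat_lit 26) (.e (nat_lit 335992) (nat_lit 1) (.e (nat_lit 57870) (nat_lit 264) .nil))))))) (.g (nat_lit 7) .nil .nil))))) (.nd (nat_lit 4) (.nd (nat_lit 5) 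
(.lf (nat_lit 21065) (.g (nat_lit 2689) (.e (nat_lit 1182) (nat_lit 87) (.e (nat_lit 57478) (nat_lit 28) (.e (nat_lit 557105) (nat_lit 14) (.e (nat_lit 180252) (nat_lit 10) (.e (nat_lit 573481) (nat_lit 13) (.e (nat_lit 65571) (nat_lit 3) (.e (nat_lit 98334) (nat_lit 18) (.e (nat_lit 164166) (nat_lit 152) .nil)))))))) (.g (nat_lit 5) .nil .nil))) 
(.lf (nat_lit 21097) (.g (nat_lit 1935) (.e (nat_lit 1182) (nat_lit 87) (.e (nat_lit 57478) (nat_lit 28) (.e (nat_lit 557107) (nat_lit 15) (.e (nat_lit 188450) (nat_lit 23) (.e (nat_lit 204817) (nat_lit 17) (.e (nat_lit 7936) (nat_lit 343) (.e (nat_lit 1183) (nat_lit 87) (.e (nat_lit 57872) (nat_lit 264) .nil)))))))) (.g (nat_lit 4) .nil .nil)))) (.nd (nat_lit 5) 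
(.lf (nat_lit 21081) (.g (nat_lit 3448) (.e (nat_lit 1182) (nat_lit 87) (.e (nat_lit 57478) (nat_lit 28) (.e (nat_lit 557107) (nat_lit 15) (.e (nat_lit 188447) (nat_lit 22) (.e (nat_lit 196666) (nat_lit 13) (.e (nat_lit 65563) (nat_lit 1) (.e (nat_lit 57871) (nat_lit 264) .nil))))))) (.g (nat_lit 7) .nil .nil))) 
(.lf (nat_lit 21113) (.g (nat_lit 1862) (.e (nat_lit 1182) (nat_lit 87) (.e (nat_lit 57478) (nat_lit 28) (.e (nat_lit 557107) (nat_lit 15) (.e (nat_lit 188450) (nat_lit 23) (.e (nat_lit 212736) (nat_lit 26) .nil))))) .nil))))) (.nd (nat_lit 3) (.nd (nat_lit 4) (.nd (nat_lit 5) 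
(.lf (nat_lit 21061) (.g (nat_lit 2219) (.e (nat_lit 1182) (nat_lit 87) (.e (nat_lit 57478) (nat_lit 28) (.e (nat_lit 557103) (nat_lit 14) (.e (nat_lit 180250) (nat_lit 10) (.e (nat_lit 573485) (nat_lit 13) .nil))))) .nil)) 
(.lf (nat_lit 21093) (.g (nat_lit 3679) (.e (nat_lit 1182) (nat_lit 87) (.e (nat_lit 57478) (nat_lit 28) (.e (nat_lit 557107) (nat_lit 15) (.e (nat_lit 188447) (nat_lit 22) (.e (nat_lit 196681) (nat_lit 17) (.e (nat_lit 131088) (nat_lit 1) (.e (nat_lit 57873) (nat_lit 264) .nil))))))) (.g (nat_lit 6) .nil .nil)))) (.nd (nat_lit 5) 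
(.lf (nat_lit 21077) (.g (nat_lit 3349) (.e (nat_lit 1182) (nat_lit 87) (.e (nat_lit 57478) (nat_lit 28) (.e (nat_lit 557107) (nat_lit 15) (.e (nat_lit 188447) (nat_lit 22) (.e (nat_lit 196666) (nat_lit 13) (.e (nat_lit 65550) (nat_lit 0) (.e (nat_lit 1023) (nat_lit 81) (.e (nat_lit 5907) (nat_lit 320) .nil)))))))) (.g (nat_lit 5) .nil .nil))) 
(.lf (nat_lit 21109) (.g (nat_lit 2167) (.e (nat_lit 1182) (nat_lit 87) (.e (nat_lit 57478) (nat_lit 28) (.e (nat_lit 557107) (nat_lit 15) (.e (nat_lit 188450) (nat_lit 23) (.e (nat_lit 204857) (nat_lit 26) .nil))))) .nil)))) (.nd (nat_lit 4) (.nd (nat_lit 5) 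
(.lf (nat_lit 21069) (.g (nat_lit 1045) (.e (nat_lit 1182) (nat_lit 87) (.e (nat_lit 57478) (nat_lit 28) (.e (nat_lit 557107) (nat_lit 15) (.e (nat_lit 188439) (nat_lit 20) .nil)))) .nil)) 
(.lf (nat_lit 21101) (.g (nat_lit 1602) (.e (nat_lit 1182) (nat_lit 87) (.e (nat_lit 57478) (nat_lit 28) (.e (nat_lit 557107) (nat_lit 15) (.e (nat_lit 188450) (nat_lit 23) (.e (nat_lit 204855) (nat_lit 26) .nil))))) .nil))) (.nd (nat_lit 5) 
(.lf (nat_lit 21085) (.g (nat_lit 3415) (.e (nat_lit 1182) (nat_lit 87) (.e (nat_lit 57478) (nat_lit 28) (.e (nat_lit 557107) (nat_lit 15) (.e (nat_lit 188447) (nat_lit 22) (.e (nat_lit 196668) (nat_lit 14) (.e (nat_lit 73733) (nat_lit 0) (.e (nat_lit 5906) (nat_lit 320) .nil))))))) (.g (nat_lit 5) .nil .nil))) 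
(.lf (nat_lit 21117) (.g (nat_lit 2040) (.e (nat_lit 1182) (nat_lit 87) (.e (nat_lit 57478) (nat_lit 28) (.e (nat_lit 557107) (nat_lit 15) (.e (nat_lit 188450) (nat_lit 23) (.e (nat_lit 204864) (nat_lit 27) .nil))))) .nil)))))) (.nd (nat_lit 2) (.nd (nat_lit 3) (.nd (nat_lit 4) (.nd (nat_lit 5) 
(.lf (nat_lit 21059) (.g (nat_lit 4266) (.e (nat_lit 1182) (nat_lit 87) (.e (nat_lit 57478) (nat_lit 28) (.e (nat_lit 557101) (nat_lit 13) (.e (nat_lit 172115) (nat_lit 10) (.e (nat_lit 434244) (nat_lit 28) (.e (nat_lit 573471) (nat_lit 11) (.e (nat_lit 16405) (nat_lit 1) (.e (nat_lit 164422) (nat_lit 272) .nil)))))))) (.g (nat_lit 8) .nil .nil))) 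
(.lf (nat_lit 21091) (.g (nat_lit 3470) (.e (nat_lit 1182) (nat_lit 87) (.e (nat_lit 57478) (nat_lit 28) (.e (nat_lit 557107) (nat_lit 15) (.e (nat_lit 188447) (nat_lit 22) (.e (nat_lit 196681) (nat_lit 17) (.e (nat_lit 131088) (nat_lit 1) (.e (nat_lit 57870) (nat_lit 264) .nil))))))) (.g (nat_lit 5) .nil .nil)))) (.nd (nat_lit 5) 
(.lf (nat_lit 21075) (.g (nat_lit 1826) (.e (nat_lit 1182) (nat_lit 87) (.e (nat_lit 57478) (nat_lit 28) (.e (nat_lit 557107) (nat_lit 15) (.e (nat_lit 188441) (nat_lit 20) (.e (nat_lit 3272) (nat_lit 199) .nil))))) .nil)) 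
(.lf (nat_lit 21107) (.g (nat_lit 2098) (.e (nat_lit 1182) (nat_lit 87) (.e (nat_lit 57478) (nat_lit 28) (.e (nat_lit 557107) (nat_lit 15) (.e (nat_lit 188450) (nat_lit 23) (.e (nat_lit 204856) (nat_lit 26) (.e (nat_lit 335997) (nat_lit 1) (.e (nat_lit 57870) (nat_lit 264) .nil))))))) (.g (nat_lit 4) .nil .nil))))) (.nd (nat_lit 4) (.nd (nat_lit 5) 
(.lf (nat_lit 21067) (.g (nat_lit 2948) (.e (nat_lit 1182) (nat_lit 87) (.e (nat_lit 57478) (nat_lit 28) (.e (nat_lit 557105) (nat_lit 14) (.e (nat_lit 180252) (nat_lit 10) (.e (nat_lit 573488) (nat_lit 14) (.e (nat_lit 73747) (nat_lit 3) (.e (nat_lit 516119) (nat_lit 1) (.e (nat_lit 164147) (nat_lit 152) .nil)))))))) (.g (nat_lit 5) .nil .nil))) 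
(.lf (nat_lit 21099) (.g (nat_lit 2889) (.e (nat_lit 1182) (nat_lit 87) (.e (nat_lit 57478) (nat_lit 28) (.e (nat_lit 557107) (nat_lit 15) (.e (nat_lit 188450) (nat_lit 23) (.e (nat_lit 204850) (nat_lit 26) (.e (nat_lit 335997) (nat_lit 1) (.e (nat_lit 57871) (nat_lit 264) .nil))))))) (.g (nat_lit 7) .nil .nil)))) (.nd (nat_lit 5) 
(.lf (nat_lit 21083) (.g (nat_lit 3462) (.e (nat_lit 1182) (nat_lit 87) (.e (nat_lit 57478) (nat_lit 28) (.e (nat_lit 557107) (nat_lit 15) (.e (nat_lit 188447) (nat_lit 22) (.e (nat_lit 196666) (nat_lit 13) (.e (nat_lit 65565) (nat_lit 1) (.e (nat_lit 57871) (nat_lit 264) .nil))))))) (.g (nat_lit 7) .nil .nil))) 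
(.lf (nat_lit 21115) (.g (nat_lit 3596) (.e (nat_lit 1182) (nat_lit 87) (.e (nat_lit 57478) (nat_lit 28) (.e (nat_lit 557107) (nat_lit 15) (.e (nat_lit 188450) (nat_lit 23) (.e (nat_lit 204863) (nat_lit 27) (.e (nat_lit 344097) (nat_lit 18) (.e (nat_lit 5905) (nat_lit 320) .nil))))))) (.g (nat_lit 6) .nil .nil)))))) (.nd (nat_lit 3) (.nd (nat_lit 4) (.nd (nat_lit 5) 
(.lf (nat_lit 21063) (.g (nat_lit 955) (.e (nat_lit 1182) (nat_lit 87) (.e (nat_lit 57478) (nat_lit 28) (.e (nat_lit 557103) (nat_lit 14) (.e (nat_lit 180285) (nat_lit 45) .nil)))) .nil)) 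
(.lf (nat_lit 21095) (.g (nat_lit 1041) (.e (nat_lit 1182) (nat_lit 87) (.e (nat_lit 57478) (nat_lit 28) (.e (nat_lit 557107) (nat_lit 15) (.e (nat_lit 188450) (nat_lit 23) .nil)))) .nil))) (.nd (nat_lit 5) 
(.lf (nat_lit 21079) (.g (nat_lit 2736) (.e (nat_lit 1182) (nat_lit 87) (.e (nat_lit 57478) (nat_lit 28) (.e (nat_lit 557107) (nat_lit 15) (.e (nat_lit 188447) (nat_lit 22) (.e (nat_lit 196666) (nat_lit 13) (.e (nat_lit 65553) (nat_lit 0) (.e (nat_lit 1023) (nat_lit 81) (.e (nat_lit 5906) (nat_lit 320) .nil)))))))) (.g (nat_lit 5) .nil .nil))) 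
(.lf (nat_lit 21111) (.g (nat_lit 2704) (.e (nat_lit 1182) (nat_lit 87) (.e (nat_lit 57478) (nat_lit 28) (.e (nat_lit 557107) (nat_lit 15) (.e (nat_lit 188450) (nat_lit 23) (.e (nat_lit 204859) (nat_lit 26) (.e (nat_lit 335998) (nat_lit 1) (.e (nat_lit 57873) (nat_lit 264) .nil))))))) (.g (nat_lit 5) .nil .nil))))) (.nd (nat_lit 4) (.nd (nat_lit 5) 
(.lf (nat_lit 21071) (.g (nat_lit 2025) (.e (nat_lit 1182) (nat_lit 87) (.e (nat_lit 57478) (nat_lit 28) (.e (nat_lit 557107) (nat_lit 15) (.e (nat_lit 188439) (nat_lit 20) (.e (nat_lit 3271) (nat_lit 199) (.e (nat_lit 548913) (nat_lit 18) (.e (nat_lit 172061) (nat_lit 1) (.e (nat_lit 164424) (nat_lit 272) .nil)))))))) (.g (nat_lit 6) .nil .nil))) 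
(.lf (nat_lit 21103) (.g (nat_lit 3143) (.e (nat_lit 1182) (nat_lit 87) (.e (nat_lit 57478) (nat_lit 28) (.e (nat_lit 557107) (nat_lit 15) (.e (nat_lit 188450) (nat_lit 23) (.e (nat_lit 204855) (nat_lit 26) (.e (nat_lit 335985) (nat_lit 1) (.e (nat_lit 57870) (nat_lit 264) .nil))))))) (.g (nat_lit 0) .nil .nil)))) (.nd (nat_lit 5) 
(.lf (nat_lit 21087) (.g (nat_lit 2411) (.e (nat_lit 1182) (nat_lit 87) (.e (nat_lit 57478) (nat_lit 28) (.e (nat_lit 557107) (nat_lit 15) (.e (nat_lit 188447) (nat_lit 22) (.e (nat_lit 196670) (nat_lit 14) (.e (nat_lit 73732) (nat_lit 0) (.e (nat_lit 5905) (nat_lit 320) .nil))))))) (.g (nat_lit 4) .nil .nil))) 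
(.lf (nat_lit 21119) (.g (nat_lit 1677) (.e (nat_lit 1182) (nat_lit 87) (.e (nat_lit 57478) (nat_lit 28) (.e (nat_lit 557107) (nat_lit 15) (.e (nat_lit 188450) (nat_lit 23) (.e (nat_lit 204872) (nat_lit 30) .nil))))) .nil))))))))

noncomputable def tv296 : DT := (.nd (nat_lit 0) (.nd (nat_lit 1) (.nd (nat_lit 2) (.nd (nat_lit 3) (.nd (nat_lit 4) (.nd (nat_lit 5) 
(.lf (nat_lit 21120) (.g (nat_lit 1720) (.e (nat_lit 1182) (nat_lit 87) (.e (nat_lit 57478) (nat_lit 28) (.e (nat_lit 557107) (nat_lit 15) (.e (nat_lit 188450) (nat_lit 23) (.e (nat_lit 204873) (nat_lit 30) .nil))))) .nil)) 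
(.lf (nat_lit 21152) (.g (nat_lit 4413) (.e (nat_lit 1182) (nat_lit 87) (.e (nat_lit 57478) (nat_lit 28) (.e (nat_lit 557108) (nat_lit 15) (.e (nat_lit 188452) (nat_lit 23) (.e (nat_lit 204872) (nat_lit 30) (.e (nat_lit 368662) (nat_lit 18) (.e (nat_lit 5906) (nat_lit 320) .nil))))))) (.g (nat_lit 7) .nil .nil)))) (.nd (nat_lit 5) 
(.lf (nat_lit 21136) (.g (nat_lit 2086) (.e (nat_lit 1182) (nat_lit 87) (.e (nat_lit 57478) (nat_lit 28) (.e (nat_lit 557108) (nat_lit 15) (.e (nat_lit 188452) (nat_lit 23) (.e (nat_lit 204816) (nat_lit 17) (.e (nat_lit 6712) (nat_lit 360) (.e (nat_lit 163850) (nat_lit 0) (.e (nat_lit 4606) (nat_lit 269) .nil)))))))) (.g (nat_lit 4) .nil .nil))) 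
(.lf (nat_lit 21168) (.g (nat_lit 3375) (.e (nat_lit 1182) (nat_lit 87) (.e (nat_lit 57478) (nat_lit 28) (.e (nat_lit 557109) (nat_lit 15) (.e (nat_lit 188434) (nat_lit 20) (.e (nat_lit 3271) (nat_lit 199) .nil))))) .nil)))) (.nd (nat_lit 4) (.nd (nat_lit 5) 
(.lf (nat_lit 21128) (.g (nat_lit 1335) (.e (nat_lit 1182) (nat_lit 87) (.e (nat_lit 57478) (nat_lit 28) (.e (nat_lit 557107) (nat_lit 15) (.e (nat_lit 188452) (nat_lit 23) .nil)))) .nil)) 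
(.lf (nat_lit 21160) (.g (nat_lit 2046) (.e (nat_lit 1182) (nat_lit 87) (.e (nat_lit 57478) (nat_lit 28) (.e (nat_lit 557108) (nat_lit 15) (.e (nat_lit 188452) (nat_lit 23) (.e (nat_lit 204885) (nat_lit 33) .nil))))) .nil))) (.nd (nat_lit 5) 
(.lf (nat_lit 21144) (.g (nat_lit 2918) (.e (nat_lit 1182) (nat_lit 87) (.e (nat_lit 57478) (nat_lit 28) (.e (nat_lit 557108) (nat_lit 15) (.e (nat_lit 188452) (nat_lit 23) (.e (nat_lit 204850) (nat_lit 26) .nil))))) .nil)) 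
(.lf (nat_lit 21176) (.g (nat_lit 2176) (.e (nat_lit 1182) (nat_lit 87) (.e (nat_lit 57478) (nat_lit 28) (.e (nat_lit 557109) (nat_lit 15) (.e (nat_lit 188441) (nat_lit 20) .nil)))) .nil))))) (.nd (nat_lit 3) (.nd (nat_lit 4) (.nd (nat_lit 5) 
(.lf (nat_lit 21124) (.g (nat_lit 3468) (.e (nat_lit 1182) (nat_lit 87) (.e (nat_lit 57478) (nat_lit 28) (.e (nat_lit 557107) (nat_lit 15) (.e (nat_lit 188450) (nat_lit 23) (.e (nat_lit 204873) (nat_lit 30) (.e (nat_lit 368662) (nat_lit 18) (.e (nat_lit 5907) (nat_lit 320) .nil))))))) (.g (nat_lit 0) .nil .nil))) 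
(.lf (nat_lit 21156) (.g (nat_lit 4566) (.e (nat_lit 1182) (nat_lit 87) (.e (nat_lit 57478) (nat_lit 28) (.e (nat_lit 557108) (nat_lit 15) (.e (nat_lit 188452) (nat_lit 23) (.e (nat_lit 204873) (nat_lit 30) (.e (nat_lit 368662) (nat_lit 18) (.e (nat_lit 5906) (nat_lit 320) .nil))))))) (.g (nat_lit 7) .nil .nil)))) (.nd (nat_lit 5) 
(.lf (nat_lit 21140) (.g (nat_lit 2210) (.e (nat_lit 1182) (nat_lit 87) (.e (nat_lit 57478) (nat_lit 28) (.e (nat_lit 557108) (nat_lit 15) (.e (nat_lit 188452) (nat_lit 23) (.e (nat_lit 204816) (nat_lit 17) (.e (nat_lit 6714) (nat_lit 360) (.e (nat_lit 163850) (nat_lit 0) (.e (nat_lit 4606) (nat_lit 269) .nil)))))))) (.g (nat_lit 4) .nil .nil))) 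
(.lf (nat_lit 21172) (.g (nat_lit 3626) (.e (nat_lit 1182) (nat_lit 87) (.e (nat_lit 57478) (nat_lit 28) (.e (nat_lit 557109) (nat_lit 15) (.e (nat_lit 188434) (nat_lit 20) (.e (nat_lit 3272) (nat_lit 199) (.e (nat_lit 548898) (nat_lit 14) (.e (nat_lit 2964) (nat_lit 185) (.e (nat_lit 434209) (nat_lit 18) (.e (nat_lit 4605) (nat_lit 269) .nil))))))))) (.g (nat_lit 4) .nil .nil))))) 
(.nd (nat_lit 4) (.nd (nat_lit 5) 
(.lf (nat_lit 21132) (.g (nat_lit 2964) (.e (nat_lit 1182) (nat_lit 87) (.e (nat_lit 57478) (nat_lit 28) (.e (nat_lit 557108) (nat_lit 15) (.e (nat_lit 188452) (nat_lit 23) (.e (nat_lit 204816) (nat_lit 17) (.e (nat_lit 6486) (nat_lit 343) (.e (nat_lit 1181) (nat_lit 87) (.e (nat_lit 57872) (nat_lit 264) .nil)))))))) (.g (nat_lit 5) .nil .nil))) 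
(.lf (nat_lit 21164) (.g (nat_lit 2273) (.e (nat_lit 1182) (nat_lit 87) (.e (nat_lit 57478) (nat_lit 28) (.e (nat_lit 557108) (nat_lit 15) (.e (nat_lit 188452) (nat_lit 23) (.e (nat_lit 204885) (nat_lit 33) (.e (nat_lit 401414) (nat_lit 0) (.e (nat_lit 2458) (nat_lit 157) (.e (nat_lit 4606) (nat_lit 269) .nil)))))))) (.g (nat_lit 4) .nil .nil)))) (.nd (nat_lit 5) 
(.lf (nat_lit 21148) (.g (nat_lit 2643) (.e (nat_lit 1182) (nat_lit 87) (.e (nat_lit 57478) (nat_lit 28) (.e (nat_lit 557108) (nat_lit 15) (.e (nat_lit 188452) (nat_lit 23) (.e (nat_lit 212736) (nat_lit 26) .nil))))) .nil)) 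
(.lf (nat_lit 21180) (.g (nat_lit 3399) (.e (nat_lit 1182) (nat_lit 87) (.e (nat_lit 57478) (nat_lit 28) (.e (nat_lit 557109) (nat_lit 15) (.e (nat_lit 188447) (nat_lit 22) (.e (nat_lit 196666) (nat_lit 13) .nil))))) .nil)))))) (.nd (nat_lit 2) (.nd (nat_lit 3) (.nd (nat_lit 4) (.nd (nat_lit 5) 
(.lf (nat_lit 21122) (.g (nat_lit 2208) (.e (nat_lit 1182) (nat_lit 87) (.e (nat_lit 57478) (nat_lit 28) (.e (nat_lit 557107) (nat_lit 15) (.e (nat_lit 188450) (nat_lit 23) (.e (nat_lit 204873) (nat_lit 30) (.e (nat_lit 368662) (nat_lit 18) (.e (nat_lit 5905) (nat_lit 320) .nil))))))) (.g (nat_lit 5) .nil .nil))) 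
(.lf (nat_lit 21154) (.g (nat_lit 3288) (.e (nat_lit 1182) (nat_lit 87) (.e (nat_lit 57478) (nat_lit 28) (.e (nat_lit 557108) (nat_lit 15) (.e (nat_lit 188452) (nat_lit 23) (.e (nat_lit 204873) (nat_lit 30) (.e (nat_lit 368662) (nat_lit 18) (.e (nat_lit 5902) (nat_lit 320) .nil))))))) (.g (nat_lit 4) .nil .nil)))) (.nd (nat_lit 5) 
(.lf (nat_lit 21138) (.g (nat_lit 2993) (.e (nat_lit 1182) (nat_lit 87) (.e (nat_lit 57478) (nat_lit 28) (.e (nat_lit 557108) (nat_lit 15) (.e (nat_lit 188452) (nat_lit 23) (.e (nat_lit 204816) (nat_lit 17) (.e (nat_lit 6714) (nat_lit 360) (.e (nat_lit 163843) (nat_lit 0) (.e (nat_lit 4598) (nat_lit 269) .nil)))))))) (.g (nat_lit 5) .nil .nil))) 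
(.lf (nat_lit 21170) (.g (nat_lit 4291) (.e (nat_lit 1182) (nat_lit 87) (.e (nat_lit 57478) (nat_lit 28) (.e (nat_lit 557109) (nat_lit 15) (.e (nat_lit 188434) (nat_lit 20) (.e (nat_lit 3271) (nat_lit 199) (.e (nat_lit 548913) (nat_lit 18) (.e (nat_lit 172061) (nat_lit 1) (.e (nat_lit 164424) (nat_lit 272) .nil)))))))) (.g (nat_lit 6) .nil .nil))))) (.nd (nat_lit 4) (.nd (nat_lit 5) 
(.lf (nat_lit 21130) (.g (nat_lit 2740) (.e (nat_lit 1182) (nat_lit 87) (.e (nat_lit 57478) (nat_lit 28) (.e (nat_lit 557108) (nat_lit 15) (.e (nat_lit 188452) (nat_lit 23) (.e (nat_lit 204816) (nat_lit 17) (.e (nat_lit 6436) (nat_lit 343) (.e (nat_lit 1183) (nat_lit 87) (.e (nat_lit 57872) (nat_lit 264) .nil)))))))) (.g (nat_lit 5) .nil .nil))) 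
(.lf (nat_lit 21162) (.g (nat_lit 2345) (.e (nat_lit 1182) (nat_lit 87) (.e (nat_lit 57478) (nat_lit 28) (.e (nat_lit 557108) (nat_lit 15) (.e (nat_lit 188452) (nat_lit 23) (.e (nat_lit 204885) (nat_lit 33) (.e (nat_lit 401414) (nat_lit 0) (.e (nat_lit 2425) (nat_lit 157) (.e (nat_lit 4616) (nat_lit 269) .nil)))))))) (.g (nat_lit 4) .nil .nil)))) (.nd (nat_lit 5) 
(.lf (nat_lit 21146) (.g (nat_lit 4123) (.e (nat_lit 1182) (nat_lit 87) (.e (nat_lit 57478) (nat_lit 28) (.e (nat_lit 557108) (nat_lit 15) (.e (nat_lit 188452) (nat_lit 23) (.e (nat_lit 204852) (nat_lit 26) (.e (nat_lit 343808) (nat_lit 1) (.e (nat_lit 57872) (nat_lit 264) .nil))))))) (.g (nat_lit 5) .nil .nil))) 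
(.lf (nat_lit 21178) (.g (nat_lit 2898) (.e (nat_lit 1182) (nat_lit 87) (.e (nat_lit 57478) (nat_lit 28) (.e (nat_lit 557109) (nat_lit 15) (.e (nat_lit 188441) (nat_lit 20) (.e (nat_lit 3272) (nat_lit 199) (.e (nat_lit 548913) (nat_lit 18) (.e (nat_lit 172061) (nat_lit 1) (.e (nat_lit 164422) (nat_lit 272) .nil)))))))) (.g (nat_lit 4) .nil .nil)))))) 
(.nd (nat_lit 3) (.nd (nat_lit 4) (.nd (nat_lit 5) 
(.lf (nat_lit 21126) (.g (nat_lit 2809) (.e (nat_lit 1182) (nat_lit 87) (.e (nat_lit 57478) (nat_lit 28) (.e (nat_lit 557107) (nat_lit 15) (.e (nat_lit 188450) (nat_lit 23) (.e (nat_lit 204874) (nat_lit 30) (.e (nat_lit 368662) (nat_lit 18) (.e (nat_lit 5906) (nat_lit 320) .nil))))))) (.g (nat_lit 6) .nil .nil))) 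
(.lf (nat_lit 21158) (.g (nat_lit 4544) (.e (nat_lit 1182) (nat_lit 87) (.e (nat_lit 57478) (nat_lit 28) (.e (nat_lit 557108) (nat_lit 15) (.e (nat_lit 188452) (nat_lit 23) (.e (nat_lit 204874) (nat_lit 30) (.e (nat_lit 368662) (nat_lit 18) (.e (nat_lit 5906) (nat_lit 320) .nil))))))) (.g (nat_lit 0) .nil .nil)))) (.nd (nat_lit 5) 
(.lf (nat_lit 21142) (.g (nat_lit 2275) (.e (nat_lit 1182) (nat_lit 87) (.e (nat_lit 57478) (nat_lit 28) (.e (nat_lit 557108) (nat_lit 15) (.e (nat_lit 188452) (nat_lit 23) (.e (nat_lit 204817) (nat_lit 17) .nil))))) .nil)) 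
(.lf (nat_lit 21174) (.g (nat_lit 3963) (.e (nat_lit 1182) (nat_lit 87) (.e (nat_lit 57478) (nat_lit 28) (.e (nat_lit 557109) (nat_lit 15) (.e (nat_lit 188434) (nat_lit 20) (.e (nat_lit 3272) (nat_lit 199) (.e (nat_lit 548913) (nat_lit 18) (.e (nat_lit 172061) (nat_lit 1) (.e (nat_lit 164423) (nat_lit 272) .nil)))))))) (.g (nat_lit 5) .nil .nil))))) (.nd (nat_lit 4) (.nd (nat_lit 5) 
(.lf (nat_lit 21134) (.g (nat_lit 2240) (.e (nat_lit 1182) (nat_lit 87) (.e (nat_lit 57478) (nat_lit 28) (.e (nat_lit 557108) (nat_lit 15) (.e (nat_lit 188452) (nat_lit 23) (.e (nat_lit 204816) (nat_lit 17) (.e (nat_lit 6712) (nat_lit 360) (.e (nat_lit 163849) (nat_lit 0) (.e (nat_lit 4598) (nat_lit 269) .nil)))))))) (.g (nat_lit 4) .nil .nil))) 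
(.lf (nat_lit 21166) (.g (nat_lit 2378) (.e (nat_lit 1182) (nat_lit 87) (.e (nat_lit 57478) (nat_lit 28) (.e (nat_lit 557108) (nat_lit 15) (.e (nat_lit 188452) (nat_lit 23) (.e (nat_lit 204885) (nat_lit 33) (.e (nat_lit 401414) (nat_lit 0) (.e (nat_lit 2478) (nat_lit 157) (.e (nat_lit 4607) (nat_lit 269) .nil)))))))) (.g (nat_lit 4) .nil .nil)))) (.nd (nat_lit 5) 
(.lf (nat_lit 21150) (.g (nat_lit 2909) (.e (nat_lit 1182) (nat_lit 87) (.e (nat_lit 57478) (nat_lit 28) (.e (nat_lit 557108) (nat_lit 15) (.e (nat_lit 188452) (nat_lit 23) (.e (nat_lit 204872) (nat_lit 30) .nil))))) .nil)) 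
(.lf (nat_lit 21182) (.g (nat_lit 3539) (.e (nat_lit 1182) (nat_lit 87) (.e (nat_lit 57478) (nat_lit 28) (.e (nat_lit 557109) (nat_lit 15) (.e (nat_lit 188447) (nat_lit 22) (.e (nat_lit 196666) (nat_lit 13) (.e (nat_lit 65550) (nat_lit 0) (.e (nat_lit 1023) (nat_lit 81) (.e (nat_lit 5907) (nat_lit 320) .nil)))))))) (.g (nat_lit 4) .nil .nil)))))))) 
(.nd (nat_lit 1) (.nd (nat_lit 2) (.nd (nat_lit 3) (.nd (nat_lit 4) (.nd (nat_lit 5) 
(.lf (nat_lit 21121) (.g (nat_lit 2260) (.e (nat_lit 1182) (nat_lit 87) (.e (nat_lit 57478) (nat_lit 28) (.e (nat_lit 557107) (nat_lit 15) (.e (nat_lit 188450) (nat_lit 23) (.e (nat_lit 204873) (nat_lit 30) (.e (nat_lit 368662) (nat_lit 18) (.e (nat_lit 5902) (nat_lit 320) .nil))))))) (.g (nat_lit 5) .nil .nil))) 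
(.lf (nat_lit 21153) (.g (nat_lit 2923) (.e (nat_lit 1182) (nat_lit 87) (.e (nat_lit 57478) (nat_lit 28) (.e (nat_lit 557108) (nat_lit 15) (.e (nat_lit 188452) (nat_lit 23) (.e (nat_lit 204873) (nat_lit 30) .nil))))) .nil))) (.nd (nat_lit 5) 
(.lf (nat_lit 21137) (.g (nat_lit 2086) (.e (nat_lit 1182) (nat_lit 87) (.e (nat_lit 57478) (nat_lit 28) (.e (nat_lit 557108) (nat_lit 15) (.e (nat_lit 188452) (nat_lit 23) (.e (nat_lit 204816) (nat_lit 17) (.e (nat_lit 6712) (nat_lit 360) (.e (nat_lit 163850) (nat_lit 0) (.e (nat_lit 4607) (nat_lit 269) .nil)))))))) (.g (nat_lit 4) .nil .nil))) 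
(.lf (nat_lit 21169) (.g (nat_lit 4196) (.e (nat_lit 1182) (nat_lit 87) (.e (nat_lit 57478) (nat_lit 28) (.e (nat_lit 557109) (nat_lit 15) (.e (nat_lit 188434) (nat_lit 20) (.e (nat_lit 3271) (nat_lit 199) (.e (nat_lit 548913) (nat_lit 18) (.e (nat_lit 172061) (nat_lit 1) (.e (nat_lit 164422) (nat_lit 272) .nil)))))))) (.g (nat_lit 6) .nil .nil))))) (.nd (nat_lit 4) (.nd (nat_lit 5) 
(.lf (nat_lit 21129) (.g (nat_lit 2371) (.e (nat_lit 1182) (nat_lit 87) (.e (nat_lit 57478) (nat_lit 28) (.e (nat_lit 557108) (nat_lit 15) (.e (nat_lit 188452) (nat_lit 23) (.e (nat_lit 204816) (nat_lit 17) (.e (nat_lit 6436) (nat_lit 343) (.e (nat_lit 1183) (nat_lit 87) (.e (nat_lit 57871) (nat_lit 264) .nil)))))))) (.g (nat_lit 4) .nil .nil))) 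
(.lf (nat_lit 21161) (.g (nat_lit 2334) (.e (nat_lit 1182) (nat_lit 87) (.e (nat_lit 57478) (nat_lit 28) (.e (nat_lit 557108) (nat_lit 15) (.e (nat_lit 188452) (nat_lit 23) (.e (nat_lit 204885) (nat_lit 33) (.e (nat_lit 401414) (nat_lit 0) (.e (nat_lit 2424) (nat_lit 157) (.e (nat_lit 4616) (nat_lit 269) .nil)))))))) (.g (nat_lit 4) .nil .nil)))) (.nd (nat_lit 5) 
(.lf (nat_lit 21145) (.g (nat_lit 3328) (.e (nat_lit 1182) (nat_lit 87) (.e (nat_lit 57478) (nat_lit 28) (.e (nat_lit 557108) (nat_lit 15) (.e (nat_lit 188452) (nat_lit 23) (.e (nat_lit 204852) (nat_lit 26) (.e (nat_lit 343808) (nat_lit 1) (.e (nat_lit 57871) (nat_lit 264) .nil))))))) (.g (nat_lit 4) .nil .nil))) 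
(.lf (nat_lit 21177) (.g (nat_lit 2846) (.e (nat_lit 1182) (nat_lit 87) (.e (nat_lit 57478) (nat_lit 28) (.e (nat_lit 557109) (nat_lit 15) (.e (nat_lit 188441) (nat_lit 20) (.e (nat_lit 3272) (nat_lit 199) .nil))))) .nil))))) (.nd (nat_lit 3) (.nd (nat_lit 4) (.nd (nat_lit 5) 
(.lf (nat_lit 21125) (.g (nat_lit 1889) (.e (nat_lit 1182) (nat_lit 87) (.e (nat_lit 57478) (nat_lit 28) (.e (nat_lit 557107) (nat_lit 15) (.e (nat_lit 188450) (nat_lit 23) (.e (nat_lit 204874) (nat_lit 30) .nil))))) .nil)) 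
(.lf (nat_lit 21157) (.g (nat_lit 4340) (.e (nat_lit 1182) (nat_lit 87) (.e (nat_lit 57478) (nat_lit 28) (.e (nat_lit 557108) (nat_lit 15) (.e (nat_lit 188452) (nat_lit 23) (.e (nat_lit 204873) (nat_lit 30) (.e (nat_lit 368662) (nat_lit 18) (.e (nat_lit 5907) (nat_lit 320) .nil))))))) (.g (nat_lit 7) .nil .nil)))) (.nd (nat_lit 5) 
(.lf (nat_lit 21141) (.g (nat_lit 2269) (.e (nat_lit 1182) (nat_lit 87) (.e (nat_lit 57478) (nat_lit 28) (.e (nat_lit 557108) (nat_lit 15) (.e (nat_lit 188452) (nat_lit 23) (.e (nat_lit 204816) (nat_lit 17) (.e (nat_lit 6714) (nat_lit 360) (.e (nat_lit 163850) (nat_lit 0) (.e (nat_lit 4607) (nat_lit 269) .nil)))))))) (.g (nat_lit 4) .nil .nil))) 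
(.lf (nat_lit 21173) (.g (nat_lit 4967) (.e (nat_lit 1182) (nat_lit 87) (.e (nat_lit 57478) (nat_lit 28) (.e (nat_lit 557109) (nat_lit 15) (.e (nat_lit 188434) (nat_lit 20) (.e (nat_lit 3272) (nat_lit 199) (.e (nat_lit 548913) (nat_lit 18) (.e (nat_lit 172061) (nat_lit 1) (.e (nat_lit 164422) (nat_lit 272) .nil)))))))) (.g (nat_lit 6) .nil .nil))))) (.nd (nat_lit 4) (.nd (nat_lit 5) 
(.lf (nat_lit 21133) (.g (nat_lit 3027) (.e (nat_lit 1182) (nat_lit 87) (.e (nat_lit 57478) (nat_lit 28) (.e (nat_lit 557108) (nat_lit 15) (.e (nat_lit 188452) (nat_lit 23) (.e (nat_lit 204816) (nat_lit 17) (.e (nat_lit 6712) (nat_lit 360) (.e (nat_lit 163843) (nat_lit 0) (.e (nat_lit 4598) (nat_lit 269) .nil)))))))) (.g (nat_lit 5) .nil .nil))) 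
(.lf (nat_lit 21165) (.g (nat_lit 2360) (.e (nat_lit 1182) (nat_lit 87) (.e (nat_lit 57478) (nat_lit 28) (.e (nat_lit 557108) (nat_lit 15) (.e (nat_lit 188452) (nat_lit 23) (.e (nat_lit 204885) (nat_lit 33) (.e (nat_lit 401414) (nat_lit 0) (.e (nat_lit 2458) (nat_lit 157) (.e (nat_lit 4607) (nat_lit 269) .nil)))))))) (.g (nat_lit 4) .nil .nil)))) (.nd (nat_lit 5) 
(.lf (nat_lit 21149) (.g (nat_lit 3010) (.e (nat_lit 1182) (nat_lit 87) (.e (nat_lit 57478) (nat_lit 28) (.e (nat_lit 557108) (nat_lit 15) (.e (nat_lit 188452) (nat_lit 23) (.e (nat_lit 212736) (nat_lit 26) (.e (nat_lit 335995) (nat_lit 1) (.e (nat_lit 57872) (nat_lit 264) .nil))))))) (.g (nat_lit 4) .nil .nil))) 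
(.lf (nat_lit 21181) (.g (nat_lit 3740) (.e (nat_lit 1182) (nat_lit 87) (.e (nat_lit 57478) (nat_lit 28) (.e (nat_lit 557109) (nat_lit 15) (.e (nat_lit 188447) (nat_lit 22) (.e (nat_lit 196666) (nat_lit 13) (.e (nat_lit 65546) (nat_lit 0) (.e (nat_lit 1023) (nat_lit 81) (.e (nat_lit 5906) (nat_lit 320) .nil)))))))) (.g (nat_lit 4) .nil .nil))))))) 
(.nd (nat_lit 2) (.nd (nat_lit 3) (.nd (nat_lit 4) (.nd (nat_lit 5) 
(.lf (nat_lit 21123) (.g (nat_lit 3531) (.e (nat_lit 1182) (nat_lit 87) (.e (nat_lit 57478) (nat_lit 28) (.e (nat_lit 557107) (nat_lit 15) (.e (nat_lit 188450) (nat_lit 23) (.e (nat_lit 204873) (nat_lit 30) (.e (nat_lit 368662) (nat_lit 18) (.e (nat_lit 5906) (nat_lit 320) .nil))))))) (.g (nat_lit 7) .nil .nil))) 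
(.lf (nat_lit 21155) (.g (nat_lit 3236) (.e (nat_lit 1182) (nat_lit 87) (.e (nat_lit 57478) (nat_lit 28) (.e (nat_lit 557108) (nat_lit 15) (.e (nat_lit 188452) (nat_lit 23) (.e (nat_lit 204873) (nat_lit 30) (.e (nat_lit 368662) (nat_lit 18) (.e (nat_lit 5905) (nat_lit 320) .nil))))))) (.g (nat_lit 4) .nil .nil)))) (.nd (nat_lit 5) 
(.lf (nat_lit 21139) (.g (nat_lit 2478) (.e (nat_lit 1182) (nat_lit 87) (.e (nat_lit 57478) (nat_lit 28) (.e (nat_lit 557108) (nat_lit 15) (.e (nat_lit 188452) (nat_lit 23) (.e (nat_lit 204816) (nat_lit 17) (.e (nat_lit 6714) (nat_lit 360) (.e (nat_lit 163850) (nat_lit 0) (.e (nat_lit 4605) (nat_lit 269) .nil)))))))) (.g (nat_lit 4) .nil .nil))) 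
(.lf (nat_lit 21171) (.g (nat_lit 3372) (.e (nat_lit 1182) (nat_lit 87) (.e (nat_lit 57478) (nat_lit 28) (.e (nat_lit 557109) (nat_lit 15) (.e (nat_lit 188434) (nat_lit 20) (.e (nat_lit 3272) (nat_lit 199) .nil))))) .nil)))) (.nd (nat_lit 4) (.nd (nat_lit 5) 
(.lf (nat_lit 21131) (.g (nat_lit 3072) (.e (nat_lit 1182) (nat_lit 87) (.e (nat_lit 57478) (nat_lit 28) (.e (nat_lit 557108) (nat_lit 15) (.e (nat_lit 188452) (nat_lit 23) (.e (nat_lit 204816) (nat_lit 17) (.e (nat_lit 6479) (nat_lit 343) (.e (nat_lit 1181) (nat_lit 87) (.e (nat_lit 57872) (nat_lit 264) .nil)))))))) (.g (nat_lit 5) .nil .nil))) 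
(.lf (nat_lit 21163) (.g (nat_lit 2167) (.e (nat_lit 1182) (nat_lit 87) (.e (nat_lit 57478) (nat_lit 28) (.e (nat_lit 557108) (nat_lit 15) (.e (nat_lit 188452) (nat_lit 23) (.e (nat_lit 204885) (nat_lit 33) (.e (nat_lit 401414) (nat_lit 0) (.e (nat_lit 2426) (nat_lit 157) (.e (nat_lit 4598) (nat_lit 269) .nil)))))))) (.g (nat_lit 4) .nil .nil)))) (.nd (nat_lit 5) 
(.lf (nat_lit 21147) (.g (nat_lit 4561) (.e (nat_lit 1182) (nat_lit 87) (.e (nat_lit 57478) (nat_lit 28) (.e (nat_lit 557108) (nat_lit 15) (.e (nat_lit 188452) (nat_lit 23) (.e (nat_lit 204859) (nat_lit 26) (.e (nat_lit 335998) (nat_lit 1) (.e (nat_lit 57873) (nat_lit 264) .nil))))))) (.g (nat_lit 4) .nil .nil))) 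
(.lf (nat_lit 21179) (.g (nat_lit 2993) (.e (nat_lit 1182) (nat_lit 87) (.e (nat_lit 57478) (nat_lit 28) (.e (nat_lit 557109) (nat_lit 15) (.e (nat_lit 188441) (nat_lit 20) (.e (nat_lit 3272) (nat_lit 199) (.e (nat_lit 548913) (nat_lit 18) (.e (nat_lit 172061) (nat_lit 1) (.e (nat_lit 164424) (nat_lit 272) .nil)))))))) (.g (nat_lit 4) .nil .nil)))))) 
(.nd (nat_lit 3) (.nd (nat_lit 4) (.nd (nat_lit 5) 
(.lf (nat_lit 21127) (.g (nat_lit 2700) (.e (nat_lit 1182) (nat_lit 87) (.e (nat_lit 57478) (nat_lit 28) (.e (nat_lit 557107) (nat_lit 15) (.e (nat_lit 188450) (nat_lit 23) (.e (nat_lit 204874) (nat_lit 30) (.e (nat_lit 368662) (nat_lit 18) (.e (nat_lit 5907) (nat_lit 320) .nil))))))) (.g (nat_lit 6) .nil .nil))) 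
(.lf (nat_lit 21159) (.g (nat_lit 4238) (.e (nat_lit 1182) (nat_lit 87) (.e (nat_lit 57478) (nat_lit 28) (.e (nat_lit 557108) (nat_lit 15) (.e (nat_lit 188452) (nat_lit 23) (.e (nat_lit 204874) (nat_lit 30) (.e (nat_lit 368662) (nat_lit 18) (.e (nat_lit 5907) (nat_lit 320) .nil))))))) (.g (nat_lit 7) .nil .nil)))) (.nd (nat_lit 5) 
(.lf (nat_lit 21143) (.g (nat_lit 2861) (.e (nat_lit 1182) (nat_lit 87) (.e (nat_lit 57478) (nat_lit 28) (.e (nat_lit 557108) (nat_lit 15) (.e (nat_lit 188452) (nat_lit 23) (.e (nat_lit 204849) (nat_lit 25) (.e (nat_lit 327692) (nat_lit 1) (.e (nat_lit 8439) (nat_lit 138) .nil))))))) (.g (nat_lit 4) .nil .nil))) 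
(.lf (nat_lit 21175) (.g (nat_lit 2222) (.e (nat_lit 1182) (nat_lit 87) (.e (nat_lit 57478) (nat_lit 28) (.e (nat_lit 557109) (nat_lit 15) (.e (nat_lit 188435) (nat_lit 20) .nil)))) .nil)))) (.nd (nat_lit 4) (.nd (nat_lit 5) 
(.lf (nat_lit 21135) (.g (nat_lit 2375) (.e (nat_lit 1182) (nat_lit 87) (.e (nat_lit 57478) (nat_lit 28) (.e (nat_lit 557108) (nat_lit 15) (.e (nat_lit 188452) (nat_lit 23) (.e (nat_lit 204816) (nat_lit 17) (.e (nat_lit 6712) (nat_lit 360) (.e (nat_lit 163850) (nat_lit 0) (.e (nat_lit 4605) (nat_lit 269) .nil)))))))) (.g (nat_lit 4) .nil .nil))) 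
(.lf (nat_lit 21167) (.g (nat_lit 275) (.e (nat_lit 1182) (nat_lit 87) (.e (nat_lit 57478) (nat_lit 28) (.e (nat_lit 557109) (nat_lit 15) .nil))) .nil))) (.nd (nat_lit 5) 
(.lf (nat_lit 21151) (.g (nat_lit 2959) (.e (nat_lit 1182) (nat_lit 87) (.e (nat_lit 57478) (nat_lit 28) (.e (nat_lit 557108) (nat_lit 15) (.e (nat_lit 188452) (nat_lit 23) (.e (nat_lit 204872) (nat_lit 30) (.e (nat_lit 368662) (nat_lit 18) (.e (nat_lit 5902) (nat_lit 320) .nil))))))) (.g (nat_lit 4) .nil .nil))) 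
(.lf (nat_lit 21183) (.g (nat_lit 4118) (.e (nat_lit 1182) (nat_lit 87) (.e (nat_lit 57478) (nat_lit 28) (.e (nat_lit 557109) (nat_lit 15) (.e (nat_lit 188447) (nat_lit 22) (.e (nat_lit 196668) (nat_lit 14) (.e (nat_lit 73733) (nat_lit 0) (.e (nat_lit 5905) (nat_lit 320) .nil))))))) (.g (nat_lit 5) .nil .nil)))))))))

noncomputable def tv297 : DT := (.nd (nat_lit 0) (.nd (nat_lit 1) (.nd (nat_lit 2) (.nd (nat_lit 3) (.nd (nat_lit 4) (.nd (nat_lit 5) 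
(.lf (nat_lit 21184) (.g (nat_lit 4202) (.e (nat_lit 1182) (nat_lit 87) (.e (nat_lit 57478) (nat_lit 28) (.e (nat_lit 557109) (nat_lit 15) (.e (nat_lit 188447) (nat_lit 22) (.e (nat_lit 196668) (nat_lit 14) (.e (nat_lit 73733) (nat_lit 0) (.e (nat_lit 5906) (nat_lit 320) .nil))))))) (.g (nat_lit 5) .nil .nil))) 
(.lf (nat_lit 21216) (.g (nat_lit 5593) (.e (nat_lit 1182) (nat_lit 87) (.e (nat_lit 57478) (nat_lit 28) (.e (nat_lit 557109) (nat_lit 15) (.e (nat_lit 188449) (nat_lit 22) (.e (nat_lit 196670) (nat_lit 14) (.e (nat_lit 73732) (nat_lit 0) (.e (nat_lit 5907) (nat_lit 320) .nil))))))) (.g (nat_lit 0) .nil .nil)))) (.nd (nat_lit 5) 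
(.lf (nat_lit 21200) (.g (nat_lit 3092) (.e (nat_lit 1182) (nat_lit 87) (.e (nat_lit 57478) (nat_lit 28) (.e (nat_lit 557109) (nat_lit 15) (.e (nat_lit 188449) (nat_lit 22) (.e (nat_lit 196666) (nat_lit 13) (.e (nat_lit 65553) (nat_lit 0) (.e (nat_lit 1023) (nat_lit 81) (.e (nat_lit 5906) (nat_lit 320) .nil)))))))) (.g (nat_lit 5) .nil .nil))) 
(.lf (nat_lit 21232) (.g (nat_lit 3640) (.e (nat_lit 1182) (nat_lit 87) (.e (nat_lit 57478) (nat_lit 28) (.e (nat_lit 557109) (nat_lit 15) (.e (nat_lit 188450) (nat_lit 23) (.e (nat_lit 204861) (nat_lit 26) .nil))))) .nil)))) (.nd (nat_lit 4) (.nd (nat_lit 5) 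
(.lf (nat_lit 21192) (.g (nat_lit 4310) (.e (nat_lit 1182) (nat_lit 87) (.e (nat_lit 57478) (nat_lit 28) (.e (nat_lit 557109) (nat_lit 15) (.e (nat_lit 188449) (nat_lit 22) (.e (nat_lit 196630) (nat_lit 9) (.e (nat_lit 1462) (nat_lit 108) (.e (nat_lit 335997) (nat_lit 1) (.e (nat_lit 57870) (nat_lit 264) .nil)))))))) (.g (nat_lit 5) .nil .nil))) 
(.lf (nat_lit 21224) (.g (nat_lit 1920) (.e (nat_lit 1182) (nat_lit 87) (.e (nat_lit 57478) (nat_lit 28) (.e (nat_lit 557109) (nat_lit 15) (.e (nat_lit 188450) (nat_lit 23) .nil)))) .nil))) (.nd (nat_lit 5) 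
(.lf (nat_lit 21208) (.g (nat_lit 4250) (.e (nat_lit 1182) (nat_lit 87) (.e (nat_lit 57478) (nat_lit 28) (.e (nat_lit 557109) (nat_lit 15) (.e (nat_lit 188449) (nat_lit 22) (.e (nat_lit 196667) (nat_lit 14) .nil))))) .nil)) 
(.lf (nat_lit 21240) (.g (nat_lit 4540) (.e (nat_lit 1182) (nat_lit 87) (.e (nat_lit 57478) (nat_lit 28) (.e (nat_lit 557109) (nat_lit 15) (.e (nat_lit 188452) (nat_lit 23) (.e (nat_lit 204815) (nat_lit 17) .nil))))) .nil))))) (.nd (nat_lit 3) (.nd (nat_lit 4) (.nd (nat_lit 5) 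
(.lf (nat_lit 21188) (.g (nat_lit 5554) (.e (nat_lit 1182) (nat_lit 87) (.e (nat_lit 57478) (nat_lit 28) (.e (nat_lit 557109) (nat_lit 15) (.e (nat_lit 188449) (nat_lit 22) (.e (nat_lit 196621) (nat_lit 9) .nil))))) .nil)) 
(.lf (nat_lit 21220) (.g (nat_lit 6436) (.e (nat_lit 1182) (nat_lit 87) (.e (nat_lit 57478) (nat_lit 28) (.e (nat_lit 557109) (nat_lit 15) (.e (nat_lit 188449) (nat_lit 22) (.e (nat_lit 196681) (nat_lit 17) (.e (nat_lit 131086) (nat_lit 1) (.e (nat_lit 57873) (nat_lit 264) .nil))))))) (.g (nat_lit 7) .nil .nil)))) (.nd (nat_lit 5) 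
(.lf (nat_lit 21204) (.g (nat_lit 4053) (.e (nat_lit 1182) (nat_lit 87) (.e (nat_lit 57478) (nat_lit 28) (.e (nat_lit 557109) (nat_lit 15) (.e (nat_lit 188449) (nat_lit 22) (.e (nat_lit 196666) (nat_lit 13) (.e (nat_lit 65563) (nat_lit 1) (.e (nat_lit 57872) (nat_lit 264) .nil))))))) (.g (nat_lit 0) .nil .nil))) 
(.lf (nat_lit 21236) (.g (nat_lit 3344) (.e (nat_lit 1182) (nat_lit 87) (.e (nat_lit 57478) (nat_lit 28) (.e (nat_lit 557109) (nat_lit 15) (.e (nat_lit 188450) (nat_lit 23) (.e (nat_lit 204863) (nat_lit 27) .nil))))) .nil)))) (.nd (nat_lit 4) (.nd (nat_lit 5) 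
(.lf (nat_lit 21196) (.g (nat_lit 2042) (.e (nat_lit 1182) (nat_lit 87) (.e (nat_lit 57478) (nat_lit 28) (.e (nat_lit 557109) (nat_lit 15) (.e (nat_lit 188449) (nat_lit 22) (.e (nat_lit 196666) (nat_lit 13) .nil))))) .nil)) 
(.lf (nat_lit 21228) (.g (nat_lit 3707) (.e (nat_lit 1182) (nat_lit 87) (.e (nat_lit 57478) (nat_lit 28) (.e (nat_lit 557109) (nat_lit 15) (.e (nat_lit 188450) (nat_lit 23) (.e (nat_lit 204855) (nat_lit 26) (.e (nat_lit 335985) (nat_lit 1) (.e (nat_lit 57870) (nat_lit 264) .nil))))))) (.g (nat_lit 4) .nil .nil)))) (.nd (nat_lit 5) 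
(.lf (nat_lit 21212) (.g (nat_lit 3995) (.e (nat_lit 1182) (nat_lit 87) (.e (nat_lit 57478) (nat_lit 28) (.e (nat_lit 557109) (nat_lit 15) (.e (nat_lit 188449) (nat_lit 22) (.e (nat_lit 196668) (nat_lit 14) (.e (nat_lit 73733) (nat_lit 0) (.e (nat_lit 5906) (nat_lit 320) .nil))))))) (.g (nat_lit 5) .nil .nil))) 
(.lf (nat_lit 21244) (.g (nat_lit 5917) (.e (nat_lit 1182) (nat_lit 87) (.e (nat_lit 57478) (nat_lit 28) (.e (nat_lit 557109) (nat_lit 15) (.e (nat_lit 188452) (nat_lit 23) (.e (nat_lit 204816) (nat_lit 17) (.e (nat_lit 6712) (nat_lit 360) (.e (nat_lit 163843) (nat_lit 0) (.e (nat_lit 4598) (nat_lit 269) .nil)))))))) (.g (nat_lit 4) .nil .nil))))))) 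
(.nd (nat_lit 2) (.nd (nat_lit 3) (.nd (nat_lit 4) (.nd (nat_lit 5) 
(.lf (nat_lit 21186) (.g (nat_lit 3752) (.e (nat_lit 1182) (nat_lit 87) (.e (nat_lit 57478) (nat_lit 28) (.e (nat_lit 557109) (nat_lit 15) (.e (nat_lit 188447) (nat_lit 22) (.e (nat_lit 196670) (nat_lit 14) .nil))))) .nil)) 
(.lf (nat_lit 21218) (.g (nat_lit 5817) (.e (nat_lit 1182) (nat_lit 87) (.e (nat_lit 57478) (nat_lit 28) (.e (nat_lit 557109) (nat_lit 15) (.e (nat_lit 188449) (nat_lit 22) (.e (nat_lit 196681) (nat_lit 17) (.e (nat_lit 131086) (nat_lit 1) (.e (nat_lit 57870) (nat_lit 264) .nil))))))) (.g (nat_lit 6) .nil .nil)))) (.nd (nat_lit 5) 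
(.lf (nat_lit 21202) (.g (nat_lit 3987) (.e (nat_lit 1182) (nat_lit 87) (.e (nat_lit 57478) (nat_lit 28) (.e (nat_lit 557109) (nat_lit 15) (.e (nat_lit 188449) (nat_lit 22) (.e (nat_lit 196666) (nat_lit 13) (.e (nat_lit 65563) (nat_lit 1) (.e (nat_lit 57870) (nat_lit 264) .nil))))))) (.g (nat_lit 0) .nil .nil))) 
(.lf (nat_lit 21234) (.g (nat_lit 3341) (.e (nat_lit 1182) (nat_lit 87) (.e (nat_lit 57478) (nat_lit 28) (.e (nat_lit 557109) (nat_lit 15) (.e (nat_lit 188450) (nat_lit 23) (.e (nat_lit 204862) (nat_lit 27) .nil))))) .nil)))) (.nd (nat_lit 4) (.nd (nat_lit 5) 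
(.lf (nat_lit 21194) (.g (nat_lit 4115) (.e (nat_lit 1182) (nat_lit 87) (.e (nat_lit 57478) (nat_lit 28) (.e (nat_lit 557109) (nat_lit 15) (.e (nat_lit 188449) (nat_lit 22) (.e (nat_lit 196630) (nat_lit 9) (.e (nat_lit 1549) (nat_lit 109) (.e (nat_lit 344097) (nat_lit 18) (.e (nat_lit 5906) (nat_lit 320) .nil)))))))) (.g (nat_lit 5) .nil .nil))) 
(.lf (nat_lit 21226) (.g (nat_lit 4187) (.e (nat_lit 1182) (nat_lit 87) (.e (nat_lit 57478) (nat_lit 28) (.e (nat_lit 557109) (nat_lit 15) (.e (nat_lit 188450) (nat_lit 23) (.e (nat_lit 204850) (nat_lit 26) (.e (nat_lit 335997) (nat_lit 1) (.e (nat_lit 57872) (nat_lit 264) .nil))))))) (.g (nat_lit 5) .nil .nil)))) (.nd (nat_lit 5) 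
(.lf (nat_lit 21210) (.g (nat_lit 4519) (.e (nat_lit 1182) (nat_lit 87) (.e (nat_lit 57478) (nat_lit 28) (.e (nat_lit 557109) (nat_lit 15) (.e (nat_lit 188449) (nat_lit 22) (.e (nat_lit 196667) (nat_lit 14) (.e (nat_lit 73733) (nat_lit 0) (.e (nat_lit 5907) (nat_lit 320) .nil))))))) (.g (nat_lit 4) .nil .nil))) 
(.lf (nat_lit 21242) (.g (nat_lit 5989) (.e (nat_lit 1182) (nat_lit 87) (.e (nat_lit 57478) (nat_lit 28) (.e (nat_lit 557109) (nat_lit 15) (.e (nat_lit 188452) (nat_lit 23) (.e (nat_lit 204816) (nat_lit 17) (.e (nat_lit 6479) (nat_lit 343) (.e (nat_lit 1181) (nat_lit 87) (.e (nat_lit 57872) (nat_lit 264) .nil)))))))) (.g (nat_lit 4) .nil .nil)))))) 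
(.nd (nat_lit 3) (.nd (nat_lit 4) (.nd (nat_lit 5) 
(.lf (nat_lit 21190) (.g (nat_lit 2941) (.e (nat_lit 1182) (nat_lit 87) (.e (nat_lit 57478) (nat_lit 28) (.e (nat_lit 557109) (nat_lit 15) (.e (nat_lit 188449) (nat_lit 22) (.e (nat_lit 196628) (nat_lit 9) .nil))))) .nil)) 
(.lf (nat_lit 21222) (.g (nat_lit 6081) (.e (nat_lit 1182) (nat_lit 87) (.e (nat_lit 57478) (nat_lit 28) (.e (nat_lit 557109) (nat_lit 15) (.e (nat_lit 188449) (nat_lit 22) (.e (nat_lit 196681) (nat_lit 17) (.e (nat_lit 131088) (nat_lit 1) (.e (nat_lit 57872) (nat_lit 264) .nil))))))) (.g (nat_lit 7) .nil .nil)))) (.nd (nat_lit 5) 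
(.lf (nat_lit 21206) (.g (nat_lit 3822) (.e (nat_lit 1182) (nat_lit 87) (.e (nat_lit 57478) (nat_lit 28) (.e (nat_lit 557109) (nat_lit 15) (.e (nat_lit 188449) (nat_lit 22) (.e (nat_lit 196666) (nat_lit 13) (.e (nat_lit 65565) (nat_lit 1) (.e (nat_lit 57871) (nat_lit 264) .nil))))))) (.g (nat_lit 7) .nil .nil))) 
(.lf (nat_lit 21238) (.g (nat_lit 3604) (.e (nat_lit 1182) (nat_lit 87) (.e (nat_lit 57478) (nat_lit 28) (.e (nat_lit 557109) (nat_lit 15) (.e (nat_lit 188450) (nat_lit 23) (.e (nat_lit 204872) (nat_lit 30) .nil))))) .nil)))) (.nd (nat_lit 4) (.nd (nat_lit 5) 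
(.lf (nat_lit 21198) (.g (nat_lit 3840) (.e (nat_lit 1182) (nat_lit 87) (.e (nat_lit 57478) (nat_lit 28) (.e (nat_lit 557109) (nat_lit 15) (.e (nat_lit 188449) (nat_lit 22) (.e (nat_lit 196666) (nat_lit 13) (.e (nat_lit 65550) (nat_lit 0) (.e (nat_lit 1023) (nat_lit 81) (.e (nat_lit 5907) (nat_lit 320) .nil)))))))) (.g (nat_lit 5) .nil .nil))) 
(.lf (nat_lit 21230) (.g (nat_lit 3609) (.e (nat_lit 1182) (nat_lit 87) (.e (nat_lit 57478) (nat_lit 28) (.e (nat_lit 557109) (nat_lit 15) (.e (nat_lit 188450) (nat_lit 23) (.e (nat_lit 204859) (nat_lit 26) .nil))))) .nil))) (.nd (nat_lit 5) 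
(.lf (nat_lit 21214) (.g (nat_lit 3289) (.e (nat_lit 1182) (nat_lit 87) (.e (nat_lit 57478) (nat_lit 28) (.e (nat_lit 557109) (nat_lit 15) (.e (nat_lit 188449) (nat_lit 22) (.e (nat_lit 196670) (nat_lit 14) .nil))))) .nil)) 
(.lf (nat_lit 21246) (.g (nat_lit 3589) (.e (nat_lit 1182) (nat_lit 87) (.e (nat_lit 57478) (nat_lit 28) (.e (nat_lit 557109) (nat_lit 15) (.e (nat_lit 188452) (nat_lit 23) (.e (nat_lit 204817) (nat_lit 17) .nil))))) .nil))))))) (.nd (nat_lit 1) (.nd (nat_lit 2) (.nd (nat_lit 3) (.nd (nat_lit 4) (.nd (nat_lit 5) 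
(.lf (nat_lit 21185) (.g (nat_lit 5343) (.e (nat_lit 1182) (nat_lit 87) (.e (nat_lit 57478) (nat_lit 28) (.e (nat_lit 557109) (nat_lit 15) (.e (nat_lit 188447) (nat_lit 22) (.e (nat_lit 196668) (nat_lit 14) (.e (nat_lit 73733) (nat_lit 0) (.e (nat_lit 5907) (nat_lit 320) .nil))))))) (.g (nat_lit 7) .nil .nil))) 
(.lf (nat_lit 21217) (.g (nat_lit 4891) (.e (nat_lit 1182) (nat_lit 87) (.e (nat_lit 57478) (nat_lit 28) (.e (nat_lit 557109) (nat_lit 15) (.e (nat_lit 188449) (nat_lit 22) (.e (nat_lit 196680) (nat_lit 17) .nil))))) .nil))) (.nd (nat_lit 5) 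
(.lf (nat_lit 21201) (.g (nat_lit 2367) (.e (nat_lit 1182) (nat_lit 87) (.e (nat_lit 57478) (nat_lit 28) (.e (nat_lit 557109) (nat_lit 15) (.e (nat_lit 188449) (nat_lit 22) (.e (nat_lit 196666) (nat_lit 13) (.e (nat_lit 65553) (nat_lit 0) (.e (nat_lit 1023) (nat_lit 81) (.e (nat_lit 5907) (nat_lit 320) .nil)))))))) (.g (nat_lit 4) .nil .nil))) 
(.lf (nat_lit 21233) (.g (nat_lit 4982) (.e (nat_lit 1182) (nat_lit 87) (.e (nat_lit 57478) (nat_lit 28) (.e (nat_lit 557109) (nat_lit 15) (.e (nat_lit 188450) (nat_lit 23) (.e (nat_lit 204861) (nat_lit 26) (.e (nat_lit 335995) (nat_lit 1) (.e (nat_lit 57872) (nat_lit 264) .nil))))))) (.g (nat_lit 5) .nil .nil))))) (.nd (nat_lit 4) (.nd (nat_lit 5) 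
(.lf (nat_lit 21193) (.g (nat_lit 4183) (.e (nat_lit 1182) (nat_lit 87) (.e (nat_lit 57478) (nat_lit 28) (.e (nat_lit 557109) (nat_lit 15) (.e (nat_lit 188449) (nat_lit 22) (.e (nat_lit 196630) (nat_lit 9) (.e (nat_lit 1462) (nat_lit 108) (.e (nat_lit 335997) (nat_lit 1) (.e (nat_lit 57872) (nat_lit 264) .nil)))))))) (.g (nat_lit 5) .nil .nil))) 
(.lf (nat_lit 21225) (.g (nat_lit 4064) (.e (nat_lit 1182) (nat_lit 87) (.e (nat_lit 57478) (nat_lit 28) (.e (nat_lit 557109) (nat_lit 15) (.e (nat_lit 188450) (nat_lit 23) (.e (nat_lit 204850) (nat_lit 26) (.e (nat_lit 335997) (nat_lit 1) (.e (nat_lit 57870) (nat_lit 264) .nil))))))) (.g (nat_lit 5) .nil .nil)))) (.nd (nat_lit 5) 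
(.lf (nat_lit 21209) (.g (nat_lit 4651) (.e (nat_lit 1182) (nat_lit 87) (.e (nat_lit 57478) (nat_lit 28) (.e (nat_lit 557109) (nat_lit 15) (.e (nat_lit 188449) (nat_lit 22) (.e (nat_lit 196667) (nat_lit 14) (.e (nat_lit 73732) (nat_lit 0) (.e (nat_lit 5907) (nat_lit 320) .nil))))))) (.g (nat_lit 5) .nil .nil))) 
(.lf (nat_lit 21241) (.g (nat_lit 5661) (.e (nat_lit 1182) (nat_lit 87) (.e (nat_lit 57478) (nat_lit 28) (.e (nat_lit 557109) (nat_lit 15) (.e (nat_lit 188452) (nat_lit 23) (.e (nat_lit 204816) (nat_lit 17) .nil))))) .nil))))) (.nd (nat_lit 3) (.nd (nat_lit 4) (.nd (nat_lit 5) 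
(.lf (nat_lit 21189) (.g (nat_lit 4747) (.e (nat_lit 1182) (nat_lit 87) (.e (nat_lit 57478) (nat_lit 28) (.e (nat_lit 557109) (nat_lit 15) (.e (nat_lit 188449) (nat_lit 22) (.e (nat_lit 196622) (nat_lit 9) .nil))))) .nil)) 
(.lf (nat_lit 21221) (.g (nat_lit 5739) (.e (nat_lit 1182) (nat_lit 87) (.e (nat_lit 57478) (nat_lit 28) (.e (nat_lit 557109) (nat_lit 15) (.e (nat_lit 188449) (nat_lit 22) (.e (nat_lit 196681) (nat_lit 17) (.e (nat_lit 131088) (nat_lit 1) (.e (nat_lit 57870) (nat_lit 264) .nil))))))) (.g (nat_lit 6) .nil .nil)))) (.nd (nat_lit 5) 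
(.lf (nat_lit 21205) (.g (nat_lit 4002) (.e (nat_lit 1182) (nat_lit 87) (.e (nat_lit 57478) (nat_lit 28) (.e (nat_lit 557109) (nat_lit 15) (.e (nat_lit 188449) (nat_lit 22) (.e (nat_lit 196666) (nat_lit 13) (.e (nat_lit 65565) (nat_lit 1) (.e (nat_lit 57870) (nat_lit 264) .nil))))))) (.g (nat_lit 0) .nil .nil))) 
(.lf (nat_lit 21237) (.g (nat_lit 4920) (.e (nat_lit 1182) (nat_lit 87) (.e (nat_lit 57478) (nat_lit 28) (.e (nat_lit 557109) (nat_lit 15) (.e (nat_lit 188450) (nat_lit 23) (.e (nat_lit 204863) (nat_lit 27) (.e (nat_lit 344097) (nat_lit 18) (.e (nat_lit 5906) (nat_lit 320) .nil))))))) (.g (nat_lit 5) .nil .nil))))) (.nd (nat_lit 4) (.nd (nat_lit 5) 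
(.lf (nat_lit 21197) (.g (nat_lit 2225) (.e (nat_lit 1182) (nat_lit 87) (.e (nat_lit 57478) (nat_lit 28) (.e (nat_lit 557109) (nat_lit 15) (.e (nat_lit 188449) (nat_lit 22) (.e (nat_lit 196666) (nat_lit 13) (.e (nat_lit 65546) (nat_lit 0) (.e (nat_lit 1040) (nat_lit 81) (.e (nat_lit 5907) (nat_lit 320) .nil)))))))) (.g (nat_lit 4) .nil .nil))) 
(.lf (nat_lit 21229) (.g (nat_lit 3489) (.e (nat_lit 1182) (nat_lit 87) (.e (nat_lit 57478) (nat_lit 28) (.e (nat_lit 557109) (nat_lit 15) (.e (nat_lit 188450) (nat_lit 23) (.e (nat_lit 204855) (nat_lit 26) (.e (nat_lit 335985) (nat_lit 1) (.e (nat_lit 57871) (nat_lit 264) .nil))))))) (.g (nat_lit 4) .nil .nil)))) (.nd (nat_lit 5) 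
(.lf (nat_lit 21213) (.g (nat_lit 5126) (.e (nat_lit 1182) (nat_lit 87) (.e (nat_lit 57478) (nat_lit 28) (.e (nat_lit 557109) (nat_lit 15) (.e (nat_lit 188449) (nat_lit 22) (.e (nat_lit 196668) (nat_lit 14) (.e (nat_lit 73733) (nat_lit 0) (.e (nat_lit 5907) (nat_lit 320) .nil))))))) (.g (nat_lit 7) .nil .nil))) 
(.lf (nat_lit 21245) (.g (nat_lit 5858) (.e (nat_lit 1182) (nat_lit 87) (.e (nat_lit 57478) (nat_lit 28) (.e (nat_lit 557109) (nat_lit 15) (.e (nat_lit 188452) (nat_lit 23) (.e (nat_lit 204816) (nat_lit 17) (.e (nat_lit 6714) (nat_lit 360) (.e (nat_lit 163843) (nat_lit 0) (.e (nat_lit 4598) (nat_lit 269) .nil)))))))) (.g (nat_lit 4) .nil .nil))))))) 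
(.nd (nat_lit 2) (.nd (nat_lit 3) (.nd (nat_lit 4) (.nd (nat_lit 5) 
(.lf (nat_lit 21187) (.g (nat_lit 3989) (.e (nat_lit 1182) (nat_lit 87) (.e (nat_lit 57478) (nat_lit 28) (.e (nat_lit 557109) (nat_lit 15) (.e (nat_lit 188447) (nat_lit 22) (.e (nat_lit 196681) (nat_lit 17) (.e (nat_lit 131086) (nat_lit 1) (.e (nat_lit 57870) (nat_lit 264) .nil))))))) (.g (nat_lit 4) .nil .nil))) 
(.lf (nat_lit 21219) (.g (nat_lit 6086) (.e (nat_lit 1182) (nat_lit 87) (.e (nat_lit 57478) (nat_lit 28) (.e (nat_lit 557109) (nat_lit 15) (.e (nat_lit 188449) (nat_lit 22) (.e (nat_lit 196681) (nat_lit 17) (.e (nat_lit 131086) (nat_lit 1) (.e (nat_lit 57872) (nat_lit 264) .nil))))))) (.g (nat_lit 7) .nil .nil)))) (.nd (nat_lit 5) 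
(.lf (nat_lit 21203) (.g (nat_lit 3822) (.e (nat_lit 1182) (nat_lit 87) (.e (nat_lit 57478) (nat_lit 28) (.e (nat_lit 557109) (nat_lit 15) (.e (nat_lit 188449) (nat_lit 22) (.e (nat_lit 196666) (nat_lit 13) (.e (nat_lit 65563) (nat_lit 1) (.e (nat_lit 57871) (nat_lit 264) .nil))))))) (.g (nat_lit 7) .nil .nil))) 
(.lf (nat_lit 21235) (.g (nat_lit 4096) (.e (nat_lit 1182) (nat_lit 87) (.e (nat_lit 57478) (nat_lit 28) (.e (nat_lit 557109) (nat_lit 15) (.e (nat_lit 188450) (nat_lit 23) (.e (nat_lit 204862) (nat_lit 27) (.e (nat_lit 344097) (nat_lit 18) (.e (nat_lit 5907) (nat_lit 320) .nil))))))) (.g (nat_lit 5) .nil .nil))))) (.nd (nat_lit 4) (.nd (nat_lit 5) 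
(.lf (nat_lit 21195) (.g (nat_lit 3809) (.e (nat_lit 1182) (nat_lit 87) (.e (nat_lit 57478) (nat_lit 28) (.e (nat_lit 557109) (nat_lit 15) (.e (nat_lit 188449) (nat_lit 22) (.e (nat_lit 196661) (nat_lit 12) .nil))))) .nil)) 
(.lf (nat_lit 21227) (.g (nat_lit 3376) (.e (nat_lit 1182) (nat_lit 87) (.e (nat_lit 57478) (nat_lit 28) (.e (nat_lit 557109) (nat_lit 15) (.e (nat_lit 188450) (nat_lit 23) (.e (nat_lit 204855) (nat_lit 26) .nil))))) .nil))) (.nd (nat_lit 5) 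
(.lf (nat_lit 21211) (.g (nat_lit 3911) (.e (nat_lit 1182) (nat_lit 87) (.e (nat_lit 57478) (nat_lit 28) (.e (nat_lit 557109) (nat_lit 15) (.e (nat_lit 188449) (nat_lit 22) (.e (nat_lit 196668) (nat_lit 14) (.e (nat_lit 73733) (nat_lit 0) (.e (nat_lit 5905) (nat_lit 320) .nil))))))) (.g (nat_lit 5) .nil .nil))) 
(.lf (nat_lit 21243) (.g (nat_lit 5881) (.e (nat_lit 1182) (nat_lit 87) (.e (nat_lit 57478) (nat_lit 28) (.e (nat_lit 557109) (nat_lit 15) (.e (nat_lit 188452) (nat_lit 23) (.e (nat_lit 204816) (nat_lit 17) (.e (nat_lit 6486) (nat_lit 343) (.e (nat_lit 1181) (nat_lit 87) (.e (nat_lit 57872) (nat_lit 264) .nil)))))))) (.g (nat_lit 4) .nil .nil)))))) 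
(.nd (nat_lit 3) (.nd (nat_lit 4) (.nd (nat_lit 5) 
(.lf (nat_lit 21191) (.g (nat_lit 3093) (.e (nat_lit 1182) (nat_lit 87) (.e (nat_lit 57478) (nat_lit 28) (.e (nat_lit 557109) (nat_lit 15) (.e (nat_lit 188449) (nat_lit 22) (.e (nat_lit 196630) (nat_lit 9) .nil))))) .nil)) 
(.lf (nat_lit 21223) (.g (nat_lit 6164) (.e (nat_lit 1182) (nat_lit 87) (.e (nat_lit 57478) (nat_lit 28) (.e (nat_lit 557109) (nat_lit 15) (.e (nat_lit 188449) (nat_lit 22) (.e (nat_lit 196681) (nat_lit 17) (.e (nat_lit 131089) (nat_lit 1) (.e (nat_lit 57870) (nat_lit 264) .nil))))))) (.g (nat_lit 7) .nil .nil)))) (.nd (nat_lit 5) 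
(.lf (nat_lit 21207) (.g (nat_lit 4077) (.e (nat_lit 1182) (nat_lit 87) (.e (nat_lit 57478) (nat_lit 28) (.e (nat_lit 557109) (nat_lit 15) (.e (nat_lit 188449) (nat_lit 22) (.e (nat_lit 196666) (nat_lit 13) (.e (nat_lit 65565) (nat_lit 1) (.e (nat_lit 57872) (nat_lit 264) .nil))))))) (.g (nat_lit 0) .nil .nil))) 
(.lf (nat_lit 21239) (.g (nat_lit 3563) (.e (nat_lit 1182) (nat_lit 87) (.e (nat_lit 57478) (nat_lit 28) (.e (nat_lit 557109) (nat_lit 15) (.e (nat_lit 188450) (nat_lit 23) (.e (nat_lit 204873) (nat_lit 30) .nil))))) .nil)))) (.nd (nat_lit 4) (.nd (nat_lit 5) 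
(.lf (nat_lit 21199) (.g (nat_lit 3606) (.e (nat_lit 1182) (nat_lit 87) (.e (nat_lit 57478) (nat_lit 28) (.e (nat_lit 557109) (nat_lit 15) (.e (nat_lit 188449) (nat_lit 22) (.e (nat_lit 196666) (nat_lit 13) (.e (nat_lit 65550) (nat_lit 0) (.e (nat_lit 1040) (nat_lit 81) (.e (nat_lit 5907) (nat_lit 320) .nil)))))))) (.g (nat_lit 5) .nil .nil))) 
(.lf (nat_lit 21231) (.g (nat_lit 3598) (.e (nat_lit 1182) (nat_lit 87) (.e (nat_lit 57478) (nat_lit 28) (.e (nat_lit 557109) (nat_lit 15) (.e (nat_lit 188450) (nat_lit 23) (.e (nat_lit 204860) (nat_lit 26) .nil))))) .nil))) (.nd (nat_lit 5) 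
(.lf (nat_lit 21215) (.g (nat_lit 4747) (.e (nat_lit 1182) (nat_lit 87) (.e (nat_lit 57478) (nat_lit 28) (.e (nat_lit 557109) (nat_lit 15) (.e (nat_lit 188449) (nat_lit 22) (.e (nat_lit 196670) (nat_lit 14) (.e (nat_lit 73732) (nat_lit 0) (.e (nat_lit 5902) (nat_lit 320) .nil))))))) (.g (nat_lit 6) .nil .nil))) 
(.lf (nat_lit 21247) (.g (nat_lit 3804) (.e (nat_lit 1182) (nat_lit 87) (.e (nat_lit 57478) (nat_lit 28) (.e (nat_lit 557109) (nat_lit 15) (.e (nat_lit 188452) (nat_lit 23) (.e (nat_lit 204817) (nat_lit 17) (.e (nat_lit 6481) (nat_lit 343) (.e (nat_lit 1181) (nat_lit 87) (.e (nat_lit 57872) (nat_lit 264) .nil)))))))) (.g (nat_lit 4) .nil .nil)))))))))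

noncomputable def tv298 : DT := (.nd (nat_lit 0) (.nd (nat_lit 1) (.nd (nat_lit 2) (.nd (nat_lit 3) (.nd (nat_lit 4) (.nd (nat_lit 5) 
(.lf (nat_lit 21248) (.g (nat_lit 3604) (.e (nat_lit 1182) (nat_lit 87) (.e (nat_lit 57478) (nat_lit 28) (.e (nat_lit 557109) (nat_lit 15) (.e (nat_lit 188452) (nat_lit 23) (.e (nat_lit 204817) (nat_lit 17) (.e (nat_lit 7936) (nat_lit 343) (.e (nat_lit 1183) (nat_lit 87) (.e (nat_lit 57870) (nat_lit 264) .nil)))))))) (.g (nat_lit 4) .nil .nil))) 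
(.lf (nat_lit 21280) (.g (nat_lit 6858) (.e (nat_lit 1182) (nat_lit 87) (.e (nat_lit 57478) (nat_lit 28) (.e (nat_lit 557109) (nat_lit 15) (.e (nat_lit 188452) (nat_lit 23) (.e (nat_lit 204861) (nat_lit 26) (.e (nat_lit 335995) (nat_lit 1) (.e (nat_lit 57872) (nat_lit 264) .nil))))))) (.g (nat_lit 7) .nil .nil)))) (.nd (nat_lit 5) 
(.lf (nat_lit 21264) (.g (nat_lit 2549) (.e (nat_lit 1182) (nat_lit 87) (.e (nat_lit 57478) (nat_lit 28) (.e (nat_lit 557109) (nat_lit 15) (.e (nat_lit 188452) (nat_lit 23) (.e (nat_lit 204855) (nat_lit 26) (.e (nat_lit 335925) (nat_lit 0) (.e (nat_lit 1023) (nat_lit 81) (.e (nat_lit 5906) (nat_lit 320) .nil)))))))) (.g (nat_lit 4) .nil .nil))) 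
(.lf (nat_lit 21296) (.g (nat_lit 5500) (.e (nat_lit 1182) (nat_lit 87) (.e (nat_lit 57478) (nat_lit 28) (.e (nat_lit 557109) (nat_lit 15) (.e (nat_lit 188452) (nat_lit 23) (.e (nat_lit 204864) (nat_lit 27) (.e (nat_lit 344097) (nat_lit 18) (.e (nat_lit 5907) (nat_lit 320) .nil))))))) (.g (nat_lit 0) .nil .nil))))) (.nd (nat_lit 4) (.nd (nat_lit 5) 
(.lf (nat_lit 21256) (.g (nat_lit 3914) (.e (nat_lit 1182) (nat_lit 87) (.e (nat_lit 57478) (nat_lit 28) (.e (nat_lit 557109) (nat_lit 15) (.e (nat_lit 188452) (nat_lit 23) (.e (nat_lit 204850) (nat_lit 26) (.e (nat_lit 335997) (nat_lit 1) (.e (nat_lit 57870) (nat_lit 264) .nil))))))) (.g (nat_lit 0) .nil .nil))) 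
(.lf (nat_lit 21288) (.g (nat_lit 4139) (.e (nat_lit 1182) (nat_lit 87) (.e (nat_lit 57478) (nat_lit 28) (.e (nat_lit 557109) (nat_lit 15) (.e (nat_lit 188452) (nat_lit 23) (.e (nat_lit 204863) (nat_lit 27) (.e (nat_lit 344097) (nat_lit 18) (.e (nat_lit 5905) (nat_lit 320) .nil))))))) (.g (nat_lit 6) .nil .nil)))) (.nd (nat_lit 5) 
(.lf (nat_lit 21272) (.g (nat_lit 4284) (.e (nat_lit 1182) (nat_lit 87) (.e (nat_lit 57478) (nat_lit 28) (.e (nat_lit 557109) (nat_lit 15) (.e (nat_lit 188452) (nat_lit 23) (.e (nat_lit 204857) (nat_lit 26) (.e (nat_lit 335997) (nat_lit 1) (.e (nat_lit 57871) (nat_lit 264) .nil))))))) (.g (nat_lit 4) .nil .nil))) 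
(.lf (nat_lit 21304) (.g (nat_lit 3462) (.e (nat_lit 1182) (nat_lit 87) (.e (nat_lit 57478) (nat_lit 28) (.e (nat_lit 557109) (nat_lit 15) (.e (nat_lit 188452) (nat_lit 23) (.e (nat_lit 204873) (nat_lit 30) (.e (nat_lit 368662) (nat_lit 18) (.e (nat_lit 5905) (nat_lit 320) .nil))))))) (.g (nat_lit 5) .nil .nil)))))) (.nd (nat_lit 3) (.nd (nat_lit 4) (.nd (nat_lit 5) 
(.lf (nat_lit 21252) (.g (nat_lit 3679) (.e (nat_lit 1182) (nat_lit 87) (.e (nat_lit 57478) (nat_lit 28) (.e (nat_lit 557109) (nat_lit 15) (.e (nat_lit 188452) (nat_lit 23) (.e (nat_lit 204845) (nat_lit 24) .nil))))) .nil)) 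
(.lf (nat_lit 21284) (.g (nat_lit 4161) (.e (nat_lit 1182) (nat_lit 87) (.e (nat_lit 57478) (nat_lit 28) (.e (nat_lit 557109) (nat_lit 15) (.e (nat_lit 188452) (nat_lit 23) (.e (nat_lit 204862) (nat_lit 27) (.e (nat_lit 344090) (nat_lit 18) (.e (nat_lit 5896) (nat_lit 320) .nil))))))) (.g (nat_lit 6) .nil .nil)))) (.nd (nat_lit 5) 
(.lf (nat_lit 21268) (.g (nat_lit 4754) (.e (nat_lit 1182) (nat_lit 87) (.e (nat_lit 57478) (nat_lit 28) (.e (nat_lit 557109) (nat_lit 15) (.e (nat_lit 188452) (nat_lit 23) (.e (nat_lit 204856) (nat_lit 26) (.e (nat_lit 335997) (nat_lit 1) (.e (nat_lit 57870) (nat_lit 264) .nil))))))) (.g (nat_lit 7) .nil .nil))) 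
(.lf (nat_lit 21300) (.g (nat_lit 2729) (.e (nat_lit 1182) (nat_lit 87) (.e (nat_lit 57478) (nat_lit 28) (.e (nat_lit 557109) (nat_lit 15) (.e (nat_lit 188452) (nat_lit 23) (.e (nat_lit 204872) (nat_lit 30) (.e (nat_lit 368662) (nat_lit 18) (.e (nat_lit 5905) (nat_lit 320) .nil))))))) (.g (nat_lit 4) .nil .nil))))) (.nd (nat_lit 4) (.nd (nat_lit 5) 
(.lf (nat_lit 21260) (.g (nat_lit 2830) (.e (nat_lit 1182) (nat_lit 87) (.e (nat_lit 57478) (nat_lit 28) (.e (nat_lit 557109) (nat_lit 15) (.e (nat_lit 188452) (nat_lit 23) (.e (nat_lit 204852) (nat_lit 26) (.e (nat_lit 343808) (nat_lit 1) (.e (nat_lit 57870) (nat_lit 264) .nil))))))) (.g (nat_lit 4) .nil .nil))) 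
(.lf (nat_lit 21292) (.g (nat_lit 3534) (.e (nat_lit 1182) (nat_lit 87) (.e (nat_lit 57478) (nat_lit 28) (.e (nat_lit 557109) (nat_lit 15) (.e (nat_lit 188452) (nat_lit 23) (.e (nat_lit 204864) (nat_lit 27) (.e (nat_lit 344093) (nat_lit 18) (.e (nat_lit 5902) (nat_lit 320) .nil))))))) (.g (nat_lit 5) .nil .nil)))) (.nd (nat_lit 5) 
(.lf (nat_lit 21276) (.g (nat_lit 4611) (.e (nat_lit 1182) (nat_lit 87) (.e (nat_lit 57478) (nat_lit 28) (.e (nat_lit 557109) (nat_lit 15) (.e (nat_lit 188452) (nat_lit 23) (.e (nat_lit 204858) (nat_lit 26) (.e (nat_lit 335997) (nat_lit 1) (.e (nat_lit 57870) (nat_lit 264) .nil))))))) (.g (nat_lit 4) .nil .nil))) 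
(.lf (nat_lit 21308) (.g (nat_lit 5315) (.e (nat_lit 1182) (nat_lit 87) (.e (nat_lit 57478) (nat_lit 28) (.e (nat_lit 557109) (nat_lit 15) (.e (nat_lit 188452) (nat_lit 23) (.e (nat_lit 204874) (nat_lit 30) (.e (nat_lit 368662) (nat_lit 18) (.e (nat_lit 5906) (nat_lit 320) .nil))))))) (.g (nat_lit 0) .nil .nil))))))) (.nd (nat_lit 2) (.nd (nat_lit 3) (.nd (nat_lit 4) (.nd (nat_lit 5) 
(.lf (nat_lit 21250) (.g (nat_lit 3745) (.e (nat_lit 1182) (nat_lit 87) (.e (nat_lit 57478) (nat_lit 28) (.e (nat_lit 557109) (nat_lit 15) (.e (nat_lit 188452) (nat_lit 23) (.e (nat_lit 204821) (nat_lit 17) (.e (nat_lit 7936) (nat_lit 343) (.e (nat_lit 1183) (nat_lit 87) (.e (nat_lit 57871) (nat_lit 264) .nil)))))))) (.g (nat_lit 4) .nil .nil))) 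
(.lf (nat_lit 21282) (.g (nat_lit 4528) (.e (nat_lit 1182) (nat_lit 87) (.e (nat_lit 57478) (nat_lit 28) (.e (nat_lit 557109) (nat_lit 15) (.e (nat_lit 188452) (nat_lit 23) (.e (nat_lit 212736) (nat_lit 26) (.e (nat_lit 335995) (nat_lit 1) (.e (nat_lit 57872) (nat_lit 264) .nil))))))) (.g (nat_lit 6) .nil .nil)))) (.nd (nat_lit 5) 
(.lf (nat_lit 21266) (.g (nat_lit 3777) (.e (nat_lit 1182) (nat_lit 87) (.e (nat_lit 57478) (nat_lit 28) (.e (nat_lit 557109) (nat_lit 15) (.e (nat_lit 188452) (nat_lit 23) (.e (nat_lit 204855) (nat_lit 26) (.e (nat_lit 335985) (nat_lit 1) (.e (nat_lit 57871) (nat_lit 264) .nil))))))) (.g (nat_lit 7) .nil .nil))) 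
(.lf (nat_lit 21298) (.g (nat_lit 4627) (.e (nat_lit 1182) (nat_lit 87) (.e (nat_lit 57478) (nat_lit 28) (.e (nat_lit 557109) (nat_lit 15) (.e (nat_lit 188452) (nat_lit 23) (.e (nat_lit 204871) (nat_lit 30) .nil))))) .nil)))) (.nd (nat_lit 4) (.nd (nat_lit 5) 
(.lf (nat_lit 21258) (.g (nat_lit 4037) (.e (nat_lit 1182) (nat_lit 87) (.e (nat_lit 57478) (nat_lit 28) (.e (nat_lit 557109) (nat_lit 15) (.e (nat_lit 188452) (nat_lit 23) (.e (nat_lit 204850) (nat_lit 26) (.e (nat_lit 335997) (nat_lit 1) (.e (nat_lit 57872) (nat_lit 264) .nil))))))) (.g (nat_lit 0) .nil .nil))) 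
(.lf (nat_lit 21290) (.g (nat_lit 4832) (.e (nat_lit 1182) (nat_lit 87) (.e (nat_lit 57478) (nat_lit 28) (.e (nat_lit 557109) (nat_lit 15) (.e (nat_lit 188452) (nat_lit 23) (.e (nat_lit 204864) (nat_lit 27) (.e (nat_lit 344090) (nat_lit 18) (.e (nat_lit 5896) (nat_lit 320) .nil))))))) (.g (nat_lit 7) .nil .nil)))) (.nd (nat_lit 5) 
(.lf (nat_lit 21274) (.g (nat_lit 4273) (.e (nat_lit 1182) (nat_lit 87) (.e (nat_lit 57478) (nat_lit 28) (.e (nat_lit 557109) (nat_lit 15) (.e (nat_lit 188452) (nat_lit 23) (.e (nat_lit 204858) (nat_lit 26) .nil))))) .nil)) 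
(.lf (nat_lit 21306) (.g (nat_lit 4707) (.e (nat_lit 1182) (nat_lit 87) (.e (nat_lit 57478) (nat_lit 28) (.e (nat_lit 557109) (nat_lit 15) (.e (nat_lit 188452) (nat_lit 23) (.e (nat_lit 204873) (nat_lit 30) (.e (nat_lit 368662) (nat_lit 18) (.e (nat_lit 5907) (nat_lit 320) .nil))))))) (.g (nat_lit 0) .nil .nil)))))) (.nd (nat_lit 3) (.nd (nat_lit 4) (.nd (nat_lit 5) 
(.lf (nat_lit 21254) (.g (nat_lit 4652) (.e (nat_lit 1182) (nat_lit 87) (.e (nat_lit 57478) (nat_lit 28) (.e (nat_lit 557109) (nat_lit 15) (.e (nat_lit 188452) (nat_lit 23) (.e (nat_lit 204848) (nat_lit 25) (.e (nat_lit 327692) (nat_lit 1) (.e (nat_lit 8439) (nat_lit 138) .nil))))))) (.g (nat_lit 4) .nil .nil))) 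
(.lf (nat_lit 21286) (.g (nat_lit 2229) (.e (nat_lit 1182) (nat_lit 87) (.e (nat_lit 57478) (nat_lit 28) (.e (nat_lit 557109) (nat_lit 15) (.e (nat_lit 188452) (nat_lit 23) (.e (nat_lit 204863) (nat_lit 27) .nil))))) .nil))) (.nd (nat_lit 5) 
(.lf (nat_lit 21270) (.g (nat_lit 4838) (.e (nat_lit 1182) (nat_lit 87) (.e (nat_lit 57478) (nat_lit 28) (.e (nat_lit 557109) (nat_lit 15) (.e (nat_lit 188452) (nat_lit 23) (.e (nat_lit 204856) (nat_lit 26) (.e (nat_lit 335997) (nat_lit 1) (.e (nat_lit 57872) (nat_lit 264) .nil))))))) (.g (nat_lit 0) .nil .nil))) 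
(.lf (nat_lit 21302) (.g (nat_lit 2830) (.e (nat_lit 1182) (nat_lit 87) (.e (nat_lit 57478) (nat_lit 28) (.e (nat_lit 557109) (nat_lit 15) (.e (nat_lit 188452) (nat_lit 23) (.e (nat_lit 204873) (nat_lit 30) .nil))))) .nil)))) (.nd (nat_lit 4) (.nd (nat_lit 5) 
(.lf (nat_lit 21262) (.g (nat_lit 3900) (.e (nat_lit 1182) (nat_lit 87) (.e (nat_lit 57478) (nat_lit 28) (.e (nat_lit 557109) (nat_lit 15) (.e (nat_lit 188452) (nat_lit 23) (.e (nat_lit 204855) (nat_lit 26) (.e (nat_lit 335901) (nat_lit 0) (.e (nat_lit 1095) (nat_lit 81) (.e (nat_lit 5902) (nat_lit 320) .nil)))))))) (.g (nat_lit 5) .nil .nil))) 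
(.lf (nat_lit 21294) (.g (nat_lit 4100) (.e (nat_lit 1182) (nat_lit 87) (.e (nat_lit 57478) (nat_lit 28) (.e (nat_lit 557109) (nat_lit 15) (.e (nat_lit 188452) (nat_lit 23) (.e (nat_lit 204864) (nat_lit 27) (.e (nat_lit 344095) (nat_lit 18) (.e (nat_lit 5896) (nat_lit 320) .nil))))))) (.g (nat_lit 6) .nil .nil)))) (.nd (nat_lit 5) 
(.lf (nat_lit 21278) (.g (nat_lit 4714) (.e (nat_lit 1182) (nat_lit 87) (.e (nat_lit 57478) (nat_lit 28) (.e (nat_lit 557109) (nat_lit 15) (.e (nat_lit 188452) (nat_lit 23) (.e (nat_lit 204858) (nat_lit 26) (.e (nat_lit 335997) (nat_lit 1) (.e (nat_lit 57872) (nat_lit 264) .nil))))))) (.g (nat_lit 5) .nil .nil))) 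
(.lf (nat_lit 21310) (.g (nat_lit 3307) (.e (nat_lit 1182) (nat_lit 87) (.e (nat_lit 57478) (nat_lit 28) (.e (nat_lit 557109) (nat_lit 15) (.e (nat_lit 188458) (nat_lit 25) (.e (nat_lit 245782) (nat_lit 9) .nil))))) .nil))))))) (.nd (nat_lit 1) (.nd (nat_lit 2) (.nd (nat_lit 3) (.nd (nat_lit 4) (.nd (nat_lit 5) 
(.lf (nat_lit 21249) (.g (nat_lit 3805) (.e (nat_lit 1182) (nat_lit 87) (.e (nat_lit 57478) (nat_lit 28) (.e (nat_lit 557109) (nat_lit 15) (.e (nat_lit 188452) (nat_lit 23) (.e (nat_lit 204821) (nat_lit 17) (.e (nat_lit 7936) (nat_lit 343) (.e (nat_lit 1181) (nat_lit 87) (.e (nat_lit 57870) (nat_lit 264) .nil)))))))) (.g (nat_lit 4) .nil .nil))) 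
(.lf (nat_lit 21281) (.g (nat_lit 3727) (.e (nat_lit 1182) (nat_lit 87) (.e (nat_lit 57478) (nat_lit 28) (.e (nat_lit 557109) (nat_lit 15) (.e (nat_lit 188452) (nat_lit 23) (.e (nat_lit 212736) (nat_lit 26) (.e (nat_lit 335995) (nat_lit 1) (.e (nat_lit 57870) (nat_lit 264) .nil))))))) (.g (nat_lit 4) .nil .nil)))) (.nd (nat_lit 5) 
(.lf (nat_lit 21265) (.g (nat_lit 3986) (.e (nat_lit 1182) (nat_lit 87) (.e (nat_lit 57478) (nat_lit 28) (.e (nat_lit 557109) (nat_lit 15) (.e (nat_lit 188452) (nat_lit 23) (.e (nat_lit 204855) (nat_lit 26) (.e (nat_lit 335985) (nat_lit 1) (.e (nat_lit 57870) (nat_lit 264) .nil))))))) (.g (nat_lit 0) .nil .nil))) 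
(.lf (nat_lit 21297) (.g (nat_lit 3535) (.e (nat_lit 1182) (nat_lit 87) (.e (nat_lit 57478) (nat_lit 28) (.e (nat_lit 557109) (nat_lit 15) (.e (nat_lit 188452) (nat_lit 23) (.e (nat_lit 204864) (nat_lit 27) (.e (nat_lit 344100) (nat_lit 18) (.e (nat_lit 5906) (nat_lit 320) .nil))))))) (.g (nat_lit 5) .nil .nil))))) (.nd (nat_lit 4) (.nd (nat_lit 5) 
(.lf (nat_lit 21257) (.g (nat_lit 3718) (.e (nat_lit 1182) (nat_lit 87) (.e (nat_lit 57478) (nat_lit 28) (.e (nat_lit 557109) (nat_lit 15) (.e (nat_lit 188452) (nat_lit 23) (.e (nat_lit 204850) (nat_lit 26) (.e (nat_lit 335997) (nat_lit 1) (.e (nat_lit 57871) (nat_lit 264) .nil))))))) (.g (nat_lit 7) .nil .nil))) 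
(.lf (nat_lit 21289) (.g (nat_lit 2354) (.e (nat_lit 1182) (nat_lit 87) (.e (nat_lit 57478) (nat_lit 28) (.e (nat_lit 557109) (nat_lit 15) (.e (nat_lit 188452) (nat_lit 23) (.e (nat_lit 204864) (nat_lit 27) .nil))))) .nil))) (.nd (nat_lit 5) 
(.lf (nat_lit 21273) (.g (nat_lit 4711) (.e (nat_lit 1182) (nat_lit 87) (.e (nat_lit 57478) (nat_lit 28) (.e (nat_lit 557109) (nat_lit 15) (.e (nat_lit 188452) (nat_lit 23) (.e (nat_lit 204857) (nat_lit 26) (.e (nat_lit 335997) (nat_lit 1) (.e (nat_lit 57872) (nat_lit 264) .nil))))))) (.g (nat_lit 6) .nil .nil))) 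
(.lf (nat_lit 21305) (.g (nat_lit 4775) (.e (nat_lit 1182) (nat_lit 87) (.e (nat_lit 57478) (nat_lit 28) (.e (nat_lit 557109) (nat_lit 15) (.e (nat_lit 188452) (nat_lit 23) (.e (nat_lit 204873) (nat_lit 30) (.e (nat_lit 368662) (nat_lit 18) (.e (nat_lit 5906) (nat_lit 320) .nil))))))) (.g (nat_lit 7) .nil .nil)))))) (.nd (nat_lit 3) (.nd (nat_lit 4) (.nd (nat_lit 5) 
(.lf (nat_lit 21253) (.g (nat_lit 5065) (.e (nat_lit 1182) (nat_lit 87) (.e (nat_lit 57478) (nat_lit 28) (.e (nat_lit 557109) (nat_lit 15) (.e (nat_lit 188452) (nat_lit 23) (.e (nat_lit 204846) (nat_lit 24) (.e (nat_lit 319516) (nat_lit 11) (.e (nat_lit 8484) (nat_lit 168) .nil))))))) (.g (nat_lit 7) .nil .nil))) 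
(.lf (nat_lit 21285) (.g (nat_lit 3991) (.e (nat_lit 1182) (nat_lit 87) (.e (nat_lit 57478) (nat_lit 28) (.e (nat_lit 557109) (nat_lit 15) (.e (nat_lit 188452) (nat_lit 23) (.e (nat_lit 204862) (nat_lit 27) (.e (nat_lit 344097) (nat_lit 18) (.e (nat_lit 5905) (nat_lit 320) .nil))))))) (.g (nat_lit 6) .nil .nil)))) (.nd (nat_lit 5) 
(.lf (nat_lit 21269) (.g (nat_lit 4470) (.e (nat_lit 1182) (nat_lit 87) (.e (nat_lit 57478) (nat_lit 28) (.e (nat_lit 557109) (nat_lit 15) (.e (nat_lit 188452) (nat_lit 23) (.e (nat_lit 204856) (nat_lit 26) (.e (nat_lit 335997) (nat_lit 1) (.e (nat_lit 57871) (nat_lit 264) .nil))))))) (.g (nat_lit 7) .nil .nil))) 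
(.lf (nat_lit 21301) (.g (nat_lit 4219) (.e (nat_lit 1182) (nat_lit 87) (.e (nat_lit 57478) (nat_lit 28) (.e (nat_lit 557109) (nat_lit 15) (.e (nat_lit 188452) (nat_lit 23) (.e (nat_lit 204872) (nat_lit 30) (.e (nat_lit 368662) (nat_lit 18) (.e (nat_lit 5906) (nat_lit 320) .nil))))))) (.g (nat_lit 7) .nil .nil))))) (.nd (nat_lit 4) (.nd (nat_lit 5) 
(.lf (nat_lit 21261) (.g (nat_lit 2290) (.e (nat_lit 1182) (nat_lit 87) (.e (nat_lit 57478) (nat_lit 28) (.e (nat_lit 557109) (nat_lit 15) (.e (nat_lit 188452) (nat_lit 23) (.e (nat_lit 204855) (nat_lit 26) .nil))))) .nil)) 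
(.lf (nat_lit 21293) (.g (nat_lit 3914) (.e (nat_lit 1182) (nat_lit 87) (.e (nat_lit 57478) (nat_lit 28) (.e (nat_lit 557109) (nat_lit 15) (.e (nat_lit 188452) (nat_lit 23) (.e (nat_lit 204864) (nat_lit 27) (.e (nat_lit 344093) (nat_lit 18) (.e (nat_lit 5903) (nat_lit 320) .nil))))))) (.g (nat_lit 6) .nil .nil)))) (.nd (nat_lit 5) 
(.lf (nat_lit 21277) (.g (nat_lit 4287) (.e (nat_lit 1182) (nat_lit 87) (.e (nat_lit 57478) (nat_lit 28) (.e (nat_lit 557109) (nat_lit 15) (.e (nat_lit 188452) (nat_lit 23) (.e (nat_lit 204858) (nat_lit 26) (.e (nat_lit 335997) (nat_lit 1) (.e (nat_lit 57871) (nat_lit 264) .nil))))))) (.g (nat_lit 4) .nil .nil))) 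
(.lf (nat_lit 21309) (.g (nat_lit 5167) (.e (nat_lit 1182) (nat_lit 87) (.e (nat_lit 57478) (nat_lit 28) (.e (nat_lit 557109) (nat_lit 15) (.e (nat_lit 188452) (nat_lit 23) (.e (nat_lit 204874) (nat_lit 30) (.e (nat_lit 368662) (nat_lit 18) (.e (nat_lit 5907) (nat_lit 320) .nil))))))) (.g (nat_lit 0) .nil .nil))))))) (.nd (nat_lit 2) (.nd (nat_lit 3) (.nd (nat_lit 4) (.nd (nat_lit 5) 
(.lf (nat_lit 21251) (.g (nat_lit 4247) (.e (nat_lit 1182) (nat_lit 87) (.e (nat_lit 57478) (nat_lit 28) (.e (nat_lit 557109) (nat_lit 15) (.e (nat_lit 188452) (nat_lit 23) (.e (nat_lit 204821) (nat_lit 17) (.e (nat_lit 7936) (nat_lit 343) (.e (nat_lit 1183) (nat_lit 87) (.e (nat_lit 57872) (nat_lit 264) .nil)))))))) (.g (nat_lit 5) .nil .nil))) 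
(.lf (nat_lit 21283) (.g (nat_lit 2285) (.e (nat_lit 1182) (nat_lit 87) (.e (nat_lit 57478) (nat_lit 28) (.e (nat_lit 557109) (nat_lit 15) (.e (nat_lit 188452) (nat_lit 23) (.e (nat_lit 204862) (nat_lit 27) .nil))))) .nil))) (.nd (nat_lit 5) 
(.lf (nat_lit 21267) (.g (nat_lit 4057) (.e (nat_lit 1182) (nat_lit 87) (.e (nat_lit 57478) (nat_lit 28) (.e (nat_lit 557109) (nat_lit 15) (.e (nat_lit 188452) (nat_lit 23) (.e (nat_lit 204855) (nat_lit 26) (.e (nat_lit 335985) (nat_lit 1) (.e (nat_lit 57872) (nat_lit 264) .nil))))))) (.g (nat_lit 0) .nil .nil))) 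
(.lf (nat_lit 21299) (.g (nat_lit 2782) (.e (nat_lit 1182) (nat_lit 87) (.e (nat_lit 57478) (nat_lit 28) (.e (nat_lit 557109) (nat_lit 15) (.e (nat_lit 188452) (nat_lit 23) (.e (nat_lit 204872) (nat_lit 30) (.e (nat_lit 368662) (nat_lit 18) (.e (nat_lit 5902) (nat_lit 320) .nil))))))) (.g (nat_lit 4) .nil .nil))))) (.nd (nat_lit 4) (.nd (nat_lit 5) 
(.lf (nat_lit 21259) (.g (nat_lit 2568) (.e (nat_lit 1182) (nat_lit 87) (.e (nat_lit 57478) (nat_lit 28) (.e (nat_lit 557109) (nat_lit 15) (.e (nat_lit 188452) (nat_lit 23) (.e (nat_lit 204852) (nat_lit 26) .nil))))) .nil)) 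
(.lf (nat_lit 21291) (.g (nat_lit 4398) (.e (nat_lit 1182) (nat_lit 87) (.e (nat_lit 57478) (nat_lit 28) (.e (nat_lit 557109) (nat_lit 15) (.e (nat_lit 188452) (nat_lit 23) (.e (nat_lit 204864) (nat_lit 27) (.e (nat_lit 344091) (nat_lit 18) (.e (nat_lit 5896) (nat_lit 320) .nil))))))) (.g (nat_lit 6) .nil .nil)))) (.nd (nat_lit 5) 
(.lf (nat_lit 21275) (.g (nat_lit 4851) (.e (nat_lit 1182) (nat_lit 87) (.e (nat_lit 57478) (nat_lit 28) (.e (nat_lit 557109) (nat_lit 15) (.e (nat_lit 188452) (nat_lit 23) (.e (nat_lit 204858) (nat_lit 26) (.e (nat_lit 335991) (nat_lit 1) (.e (nat_lit 57873) (nat_lit 264) .nil))))))) (.g (nat_lit 5) .nil .nil))) 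
(.lf (nat_lit 21307) (.g (nat_lit 3296) (.e (nat_lit 1182) (nat_lit 87) (.e (nat_lit 57478) (nat_lit 28) (.e (nat_lit 557109) (nat_lit 15) (.e (nat_lit 188452) (nat_lit 23) (.e (nat_lit 204874) (nat_lit 30) .nil))))) .nil))))) (.nd (nat_lit 3) (.nd (nat_lit 4) (.nd (nat_lit 5) 
(.lf (nat_lit 21255) (.g (nat_lit 5417) (.e (nat_lit 1182) (nat_lit 87) (.e (nat_lit 57478) (nat_lit 28) (.e (nat_lit 557109) (nat_lit 15) (.e (nat_lit 188452) (nat_lit 23) (.e (nat_lit 204849) (nat_lit 25) (.e (nat_lit 327692) (nat_lit 1) (.e (nat_lit 8439) (nat_lit 138) .nil))))))) (.g (nat_lit 6) .nil .nil))) 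
(.lf (nat_lit 21287) (.g (nat_lit 4945) (.e (nat_lit 1182) (nat_lit 87) (.e (nat_lit 57478) (nat_lit 28) (.e (nat_lit 557109) (nat_lit 15) (.e (nat_lit 188452) (nat_lit 23) (.e (nat_lit 204863) (nat_lit 27) (.e (nat_lit 344090) (nat_lit 18) (.e (nat_lit 5896) (nat_lit 320) .nil))))))) (.g (nat_lit 7) .nil .nil)))) (.nd (nat_lit 5) 
(.lf (nat_lit 21271) (.g (nat_lit 4815) (.e (nat_lit 1182) (nat_lit 87) (.e (nat_lit 57478) (nat_lit 28) (.e (nat_lit 557109) (nat_lit 15) (.e (nat_lit 188452) (nat_lit 23) (.e (nat_lit 204857) (nat_lit 26) (.e (nat_lit 335997) (nat_lit 1) (.e (nat_lit 57870) (nat_lit 264) .nil))))))) (.g (nat_lit 6) .nil .nil))) 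
(.lf (nat_lit 21303) (.g (nat_lit 3514) (.e (nat_lit 1182) (nat_lit 87) (.e (nat_lit 57478) (nat_lit 28) (.e (nat_lit 557109) (nat_lit 15) (.e (nat_lit 188452) (nat_lit 23) (.e (nat_lit 204873) (nat_lit 30) (.e (nat_lit 368662) (nat_lit 18) (.e (nat_lit 5902) (nat_lit 320) .nil))))))) (.g (nat_lit 5) .nil .nil))))) (.nd (nat_lit 4) (.nd (nat_lit 5) 
(.lf (nat_lit 21263) (.g (nat_lit 3884) (.e (nat_lit 1182) (nat_lit 87) (.e (nat_lit 57478) (nat_lit 28) (.e (nat_lit 557109) (nat_lit 15) (.e (nat_lit 188452) (nat_lit 23) (.e (nat_lit 204855) (nat_lit 26) (.e (nat_lit 335923) (nat_lit 0) (.e (nat_lit 1023) (nat_lit 81) (.e (nat_lit 5905) (nat_lit 320) .nil)))))))) (.g (nat_lit 5) .nil .nil))) 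
(.lf (nat_lit 21295) (.g (nat_lit 5248) (.e (nat_lit 1182) (nat_lit 87) (.e (nat_lit 57478) (nat_lit 28) (.e (nat_lit 557109) (nat_lit 15) (.e (nat_lit 188452) (nat_lit 23) (.e (nat_lit 204864) (nat_lit 27) (.e (nat_lit 344097) (nat_lit 18) (.e (nat_lit 5906) (nat_lit 320) .nil))))))) (.g (nat_lit 7) .nil .nil)))) (.nd (nat_lit 5) 
(.lf (nat_lit 21279) (.g (nat_lit 4532) (.e (nat_lit 1182) (nat_lit 87) (.e (nat_lit 57478) (nat_lit 28) (.e (nat_lit 557109) (nat_lit 15) (.e (nat_lit 188452) (nat_lit 23) (.e (nat_lit 204860) (nat_lit 26) (.e (nat_lit 335995) (nat_lit 1) (.e (nat_lit 57870) (nat_lit 264) .nil))))))) (.g (nat_lit 4) .nil .nil))) 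
(.lf (nat_lit 21311) (.g (nat_lit 3017) (.e (nat_lit 1182) (nat_lit 87) (.e (nat_lit 57478) (nat_lit 28) (.e (nat_lit 557109) (nat_lit 15) (.e (nat_lit 188458) (nat_lit 25) (.e (nat_lit 245784) (nat_lit 9) .nil))))) .nil))))))))

noncomputable def tv299 : DT := (.nd (nat_lit 0) (.nd (nat_lit 1) (.nd (nat_lit 2) (.nd (nat_lit 3) (.nd (nat_lit 4) (.nd (nat_lit 5) 
(.lf (nat_lit 21312) (.g (nat_lit 3190) (.e (nat_lit 1182) (nat_lit 87) (.e (nat_lit 57478) (nat_lit 28) (.e (nat_lit 557109) (nat_lit 15) (.e (nat_lit 188458) (nat_lit 25) (.e (nat_lit 245791) (nat_lit 14) .nil))))) .nil)) 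
(.lf (nat_lit 21344) (.g (nat_lit 4564) (.e (nat_lit 1182) (nat_lit 87) (.e (nat_lit 57479) (nat_lit 28) (.e (nat_lit 557095) (nat_lit 13) (.e (nat_lit 172115) (nat_lit 10) (.e (nat_lit 434231) (nat_lit 23) (.e (nat_lit 532543) (nat_lit 10) (.e (nat_lit 344097) (nat_lit 18) (.e (nat_lit 5906) (nat_lit 320) .nil)))))))) (.g (nat_lit 7) .nil .nil)))) (.nd (nat_lit 5) 
(.lf (nat_lit 21328) (.g (nat_lit 3079) (.e (nat_lit 1182) (nat_lit 87) (.e (nat_lit 57479) (nat_lit 28) (.e (nat_lit 557095) (nat_lit 13) (.e (nat_lit 172097) (nat_lit 9) (.e (nat_lit 426140) (nat_lit 3) (.e (nat_lit 204863) (nat_lit 27) (.e (nat_lit 344097) (nat_lit 18) (.e (nat_lit 5905) (nat_lit 320) .nil)))))))) (.g (nat_lit 4) .nil .nil))) 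
(.lf (nat_lit 21360) (.g (nat_lit 2885) (.e (nat_lit 1182) (nat_lit 87) (.e (nat_lit 57479) (nat_lit 28) (.e (nat_lit 557095) (nat_lit 13) (.e (nat_lit 172115) (nat_lit 10) (.e (nat_lit 434244) (nat_lit 28) (.e (nat_lit 573450) (nat_lit 9) (.e (nat_lit 375) (nat_lit 32) (.e (nat_lit 426109) (nat_lit 1) (.e (nat_lit 164423) (nat_lit 272) .nil))))))))) (.g (nat_lit 4) .nil .nil))))) 
(.nd (nat_lit 4) (.nd (nat_lit 5) 
(.lf (nat_lit 21320) (.g (nat_lit 3581) (.e (nat_lit 1182) (nat_lit 87) (.e (nat_lit 57479) (nat_lit 28) (.e (nat_lit 557095) (nat_lit 13) (.e (nat_lit 172097) (nat_lit 9) (.e (nat_lit 426125) (nat_lit 2) (.e (nat_lit 196666) (nat_lit 13) (.e (nat_lit 65565) (nat_lit 1) (.e (nat_lit 57872) (nat_lit 264) .nil)))))))) (.g (nat_lit 5) .nil .nil))) 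
(.lf (nat_lit 21352) (.g (nat_lit 4252) (.e (nat_lit 1182) (nat_lit 87) (.e (nat_lit 57479) (nat_lit 28) (.e (nat_lit 557095) (nat_lit 13) (.e (nat_lit 172115) (nat_lit 10) (.e (nat_lit 434231) (nat_lit 23) (.e (nat_lit 532553) (nat_lit 13) (.e (nat_lit 368662) (nat_lit 18) (.e (nat_lit 5907) (nat_lit 320) .nil)))))))) (.g (nat_lit 6) .nil .nil)))) (.nd (nat_lit 5) 
(.lf (nat_lit 21336) (.g (nat_lit 4605) (.e (nat_lit 1182) (nat_lit 87) (.e (nat_lit 57479) (nat_lit 28) (.e (nat_lit 557095) (nat_lit 13) (.e (nat_lit 172115) (nat_lit 10) (.e (nat_lit 434231) (nat_lit 23) (.e (nat_lit 532527) (nat_lit 9) (.e (nat_lit 335997) (nat_lit 1) (.e (nat_lit 57872) (nat_lit 264) .nil)))))))) (.g (nat_lit 7) .nil .nil))) 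
(.lf (nat_lit 21368) (.g (nat_lit 3621) (.e (nat_lit 1182) (nat_lit 87) (.e (nat_lit 57479) (nat_lit 28) (.e (nat_lit 557100) (nat_lit 13) (.e (nat_lit 172106) (nat_lit 10) (.e (nat_lit 434231) (nat_lit 23) (.e (nat_lit 532529) (nat_lit 9) (.e (nat_lit 343808) (nat_lit 1) (.e (nat_lit 57873) (nat_lit 264) .nil)))))))) (.g (nat_lit 5) .nil .nil)))))) 
(.nd (nat_lit 3) (.nd (nat_lit 4) (.nd (nat_lit 5) 
(.lf (nat_lit 21316) (.g (nat_lit 3301) (.e (nat_lit 1182) (nat_lit 87) (.e (nat_lit 57479) (nat_lit 28) (.e (nat_lit 557095) (nat_lit 13) (.e (nat_lit 172097) (nat_lit 9) (.e (nat_lit 426125) (nat_lit 2) (.e (nat_lit 196666) (nat_lit 13) (.e (nat_lit 65563) (nat_lit 1) (.e (nat_lit 57871) (nat_lit 264) .nil)))))))) (.g (nat_lit 4) .nil .nil))) 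
(.lf (nat_lit 21348) (.g (nat_lit 4881) (.e (nat_lit 1182) (nat_lit 87) (.e (nat_lit 57479) (nat_lit 28) (.e (nat_lit 557095) (nat_lit 13) (.e (nat_lit 172115) (nat_lit 10) (.e (nat_lit 434231) (nat_lit 23) (.e (nat_lit 532544) (nat_lit 10) (.e (nat_lit 344097) (nat_lit 18) (.e (nat_lit 5906) (nat_lit 320) .nil)))))))) (.g (nat_lit 7) .nil .nil)))) (.nd (nat_lit 5) 
(.lf (nat_lit 21332) (.g (nat_lit 2072) (.e (nat_lit 1182) (nat_lit 87) (.e (nat_lit 57479) (nat_lit 28) (.e (nat_lit 557095) (nat_lit 13) (.e (nat_lit 172115) (nat_lit 10) .nil)))) .nil)) 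
(.lf (nat_lit 21364) (.g (nat_lit 4194) (.e (nat_lit 1182) (nat_lit 87) (.e (nat_lit 57479) (nat_lit 28) (.e (nat_lit 557100) (nat_lit 13) (.e (nat_lit 172106) (nat_lit 10) (.e (nat_lit 434231) (nat_lit 23) (.e (nat_lit 532527) (nat_lit 9) (.e (nat_lit 335997) (nat_lit 1) (.e (nat_lit 57870) (nat_lit 264) .nil)))))))) (.g (nat_lit 7) .nil .nil))))) (.nd (nat_lit 4) (.nd (nat_lit 5) 
(.lf (nat_lit 21324) (.g (nat_lit 2973) (.e (nat_lit 1182) (nat_lit 87) (.e (nat_lit 57479) (nat_lit 28) (.e (nat_lit 557095) (nat_lit 13) (.e (nat_lit 172097) (nat_lit 9) (.e (nat_lit 426140) (nat_lit 3) (.e (nat_lit 204855) (nat_lit 26) (.e (nat_lit 335985) (nat_lit 1) (.e (nat_lit 57872) (nat_lit 264) .nil)))))))) (.g (nat_lit 4) .nil .nil))) 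
(.lf (nat_lit 21356) (.g (nat_lit 3858) (.e (nat_lit 1182) (nat_lit 87) (.e (nat_lit 57479) (nat_lit 28) (.e (nat_lit 557095) (nat_lit 13) (.e (nat_lit 172115) (nat_lit 10) (.e (nat_lit 434231) (nat_lit 23) (.e (nat_lit 532555) (nat_lit 13) (.e (nat_lit 368662) (nat_lit 18) (.e (nat_lit 5907) (nat_lit 320) .nil)))))))) (.g (nat_lit 5) .nil .nil)))) (.nd (nat_lit 5) 
(.lf (nat_lit 21340) (.g (nat_lit 4530) (.e (nat_lit 1182) (nat_lit 87) (.e (nat_lit 57479) (nat_lit 28) (.e (nat_lit 557095) (nat_lit 13) (.e (nat_lit 172115) (nat_lit 10) (.e (nat_lit 434231) (nat_lit 23) (.e (nat_lit 532535) (nat_lit 9) (.e (nat_lit 335985) (nat_lit 1) (.e (nat_lit 57872) (nat_lit 264) .nil)))))))) (.g (nat_lit 6) .nil .nil))) 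
(.lf (nat_lit 21372) (.g (nat_lit 4203) (.e (nat_lit 1182) (nat_lit 87) (.e (nat_lit 57479) (nat_lit 28) (.e (nat_lit 557100) (nat_lit 13) (.e (nat_lit 172106) (nat_lit 10) (.e (nat_lit 434231) (nat_lit 23) (.e (nat_lit 532535) (nat_lit 9) (.e (nat_lit 335992) (nat_lit 1) (.e (nat_lit 57870) (nat_lit 264) .nil)))))))) (.g (nat_lit 6) .nil .nil))))))) 
(.nd (nat_lit 2) (.nd (nat_lit 3) (.nd (nat_lit 4) (.nd (nat_lit 5) 
(.lf (nat_lit 21314) (.g (nat_lit 2780) (.e (nat_lit 1182) (nat_lit 87) (.e (nat_lit 57479) (nat_lit 28) (.e (nat_lit 557095) (nat_lit 13) (.e (nat_lit 172097) (nat_lit 9) (.e (nat_lit 426125) (nat_lit 2) .nil))))) .nil)) 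
(.lf (nat_lit 21346) (.g (nat_lit 2779) (.e (nat_lit 1182) (nat_lit 87) (.e (nat_lit 57479) (nat_lit 28) (.e (nat_lit 557095) (nat_lit 13) (.e (nat_lit 172115) (nat_lit 10) (.e (nat_lit 434231) (nat_lit 23) (.e (nat_lit 532543) (nat_lit 10) (.e (nat_lit 344100) (nat_lit 18) (.e (nat_lit 5907) (nat_lit 320) .nil)))))))) (.g (nat_lit 4) .nil .nil)))) (.nd (nat_lit 5) 
(.lf (nat_lit 21330) (.g (nat_lit 4117) (.e (nat_lit 1182) (nat_lit 87) (.e (nat_lit 57479) (nat_lit 28) (.e (nat_lit 557095) (nat_lit 13) (.e (nat_lit 172097) (nat_lit 9) (.e (nat_lit 426140) (nat_lit 3) (.e (nat_lit 204863) (nat_lit 27) (.e (nat_lit 344097) (nat_lit 18) (.e (nat_lit 5907) (nat_lit 320) .nil)))))))) (.g (nat_lit 6) .nil .nil))) 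
(.lf (nat_lit 21362) (.g (nat_lit 3604) (.e (nat_lit 1182) (nat_lit 87) (.e (nat_lit 57479) (nat_lit 28) (.e (nat_lit 557095) (nat_lit 13) (.e (nat_lit 172115) (nat_lit 10) (.e (nat_lit 434244) (nat_lit 28) (.e (nat_lit 573471) (nat_lit 11) (.e (nat_lit 16405) (nat_lit 1) (.e (nat_lit 164422) (nat_lit 272) .nil)))))))) (.g (nat_lit 5) .nil .nil))))) (.nd (nat_lit 4) (.nd (nat_lit 5) 
(.lf (nat_lit 21322) (.g (nat_lit 2688) (.e (nat_lit 1182) (nat_lit 87) (.e (nat_lit 57479) (nat_lit 28) (.e (nat_lit 557095) (nat_lit 13) (.e (nat_lit 172097) (nat_lit 9) (.e (nat_lit 426140) (nat_lit 3) .nil))))) .nil)) 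
(.lf (nat_lit 21354) (.g (nat_lit 4997) (.e (nat_lit 1182) (nat_lit 87) (.e (nat_lit 57479) (nat_lit 28) (.e (nat_lit 557095) (nat_lit 13) (.e (nat_lit 172115) (nat_lit 10) (.e (nat_lit 434231) (nat_lit 23) (.e (nat_lit 532554) (nat_lit 13) (.e (nat_lit 368662) (nat_lit 18) (.e (nat_lit 5906) (nat_lit 320) .nil)))))))) (.g (nat_lit 7) .nil .nil)))) (.nd (nat_lit 5) 
(.lf (nat_lit 21338) (.g (nat_lit 4465) (.e (nat_lit 1182) (nat_lit 87) (.e (nat_lit 57479) (nat_lit 28) (.e (nat_lit 557095) (nat_lit 13) (.e (nat_lit 172115) (nat_lit 10) (.e (nat_lit 434231) (nat_lit 23) (.e (nat_lit 532535) (nat_lit 9) (.e (nat_lit 335985) (nat_lit 1) (.e (nat_lit 57870) (nat_lit 264) .nil)))))))) (.g (nat_lit 6) .nil .nil))) 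
(.lf (nat_lit 21370) (.g (nat_lit 4146) (.e (nat_lit 1182) (nat_lit 87) (.e (nat_lit 57479) (nat_lit 28) (.e (nat_lit 557100) (nat_lit 13) (.e (nat_lit 172106) (nat_lit 10) (.e (nat_lit 434231) (nat_lit 23) (.e (nat_lit 532535) (nat_lit 9) (.e (nat_lit 335985) (nat_lit 1) (.e (nat_lit 57870) (nat_lit 264) .nil)))))))) (.g (nat_lit 7) .nil .nil)))))) 
(.nd (nat_lit 3) (.nd (nat_lit 4) (.nd (nat_lit 5) 
(.lf (nat_lit 21318) (.g (nat_lit 3497) (.e (nat_lit 1182) (nat_lit 87) (.e (nat_lit 57479) (nat_lit 28) (.e (nat_lit 557095) (nat_lit 13) (.e (nat_lit 172097) (nat_lit 9) (.e (nat_lit 426125) (nat_lit 2) (.e (nat_lit 196666) (nat_lit 13) (.e (nat_lit 65565) (nat_lit 1) (.e (nat_lit 57870) (nat_lit 264) .nil)))))))) (.g (nat_lit 5) .nil .nil))) 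
(.lf (nat_lit 21350) (.g (nat_lit 2817) (.e (nat_lit 1182) (nat_lit 87) (.e (nat_lit 57479) (nat_lit 28) (.e (nat_lit 557095) (nat_lit 13) (.e (nat_lit 172115) (nat_lit 10) (.e (nat_lit 434231) (nat_lit 23) (.e (nat_lit 532552) (nat_lit 13) (.e (nat_lit 368662) (nat_lit 18) (.e (nat_lit 5907) (nat_lit 320) .nil)))))))) (.g (nat_lit 4) .nil .nil)))) (.nd (nat_lit 5) 
(.lf (nat_lit 21334) (.g (nat_lit 4475) (.e (nat_lit 1182) (nat_lit 87) (.e (nat_lit 57479) (nat_lit 28) (.e (nat_lit 557095) (nat_lit 13) (.e (nat_lit 172115) (nat_lit 10) (.e (nat_lit 434231) (nat_lit 23) (.e (nat_lit 532527) (nat_lit 9) (.e (nat_lit 335997) (nat_lit 1) (.e (nat_lit 57870) (nat_lit 264) .nil)))))))) (.g (nat_lit 7) .nil .nil))) 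
(.lf (nat_lit 21366) (.g (nat_lit 4324) (.e (nat_lit 1182) (nat_lit 87) (.e (nat_lit 57479) (nat_lit 28) (.e (nat_lit 557100) (nat_lit 13) (.e (nat_lit 172106) (nat_lit 10) (.e (nat_lit 434231) (nat_lit 23) (.e (nat_lit 532527) (nat_lit 9) (.e (nat_lit 335997) (nat_lit 1) (.e (nat_lit 57872) (nat_lit 264) .nil)))))))) (.g (nat_lit 8) .nil .nil))))) (.nd (nat_lit 4) (.nd (nat_lit 5) 
(.lf (nat_lit 21326) (.g (nat_lit 3556) (.e (nat_lit 1182) (nat_lit 87) (.e (nat_lit 57479) (nat_lit 28) (.e (nat_lit 557095) (nat_lit 13) (.e (nat_lit 172097) (nat_lit 9) (.e (nat_lit 426140) (nat_lit 3) (.e (nat_lit 204862) (nat_lit 27) (.e (nat_lit 344097) (nat_lit 18) (.e (nat_lit 5906) (nat_lit 320) .nil)))))))) (.g (nat_lit 5) .nil .nil))) 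
(.lf (nat_lit 21358) (.g (nat_lit 2705) (.e (nat_lit 1182) (nat_lit 87) (.e (nat_lit 57479) (nat_lit 28) (.e (nat_lit 557095) (nat_lit 13) (.e (nat_lit 172115) (nat_lit 10) (.e (nat_lit 434244) (nat_lit 28) .nil))))) .nil))) (.nd (nat_lit 5) 
(.lf (nat_lit 21342) (.g (nat_lit 3180) (.e (nat_lit 1182) (nat_lit 87) (.e (nat_lit 57479) (nat_lit 28) (.e (nat_lit 557095) (nat_lit 13) (.e (nat_lit 172115) (nat_lit 10) (.e (nat_lit 434231) (nat_lit 23) (.e (nat_lit 532535) (nat_lit 9) (.e (nat_lit 335992) (nat_lit 1) (.e (nat_lit 57871) (nat_lit 264) .nil)))))))) (.g (nat_lit 5) .nil .nil))) 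
(.lf (nat_lit 21374) (.g (nat_lit 3161) (.e (nat_lit 1182) (nat_lit 87) (.e (nat_lit 57479) (nat_lit 28) (.e (nat_lit 557100) (nat_lit 13) (.e (nat_lit 172106) (nat_lit 10) (.e (nat_lit 434231) (nat_lit 23) (.e (nat_lit 532535) (nat_lit 9) (.e (nat_lit 335992) (nat_lit 1) (.e (nat_lit 57872) (nat_lit 264) .nil)))))))) (.g (nat_lit 5) .nil .nil)))))))) 
(.nd (nat_lit 1) (.nd (nat_lit 2) (.nd (nat_lit 3) (.nd (nat_lit 4) (.nd (nat_lit 5) 
(.lf (nat_lit 21313) (.g (nat_lit 3053) (.e (nat_lit 1182) (nat_lit 87) (.e (nat_lit 57478) (nat_lit 28) (.e (nat_lit 557109) (nat_lit 15) (.e (nat_lit 188458) (nat_lit 25) (.e (nat_lit 245794) (nat_lit 17) .nil))))) .nil)) 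
(.lf (nat_lit 21345) (.g (nat_lit 5012) (.e (nat_lit 1182) (nat_lit 87) (.e (nat_lit 57479) (nat_lit 28) (.e (nat_lit 557095) (nat_lit 13) (.e (nat_lit 172115) (nat_lit 10) (.e (nat_lit 434231) (nat_lit 23) (.e (nat_lit 532543) (nat_lit 10) (.e (nat_lit 344097) (nat_lit 18) (.e (nat_lit 5907) (nat_lit 320) .nil)))))))) (.g (nat_lit 8) .nil .nil)))) (.nd (nat_lit 5) 
(.lf (nat_lit 21329) (.g (nat_lit 3689) (.e (nat_lit 1182) (nat_lit 87) (.e (nat_lit 57479) (nat_lit 28) (.e (nat_lit 557095) (nat_lit 13) (.e (nat_lit 172097) (nat_lit 9) (.e (nat_lit 426140) (nat_lit 3) (.e (nat_lit 204863) (nat_lit 27) (.e (nat_lit 344097) (nat_lit 18) (.e (nat_lit 5906) (nat_lit 320) .nil)))))))) (.g (nat_lit 5) .nil .nil))) 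
(.lf (nat_lit 21361) (.g (nat_lit 4645) (.e (nat_lit 1182) (nat_lit 87) (.e (nat_lit 57479) (nat_lit 28) (.e (nat_lit 557095) (nat_lit 13) (.e (nat_lit 172115) (nat_lit 10) (.e (nat_lit 434244) (nat_lit 28) (.e (nat_lit 573450) (nat_lit 9) (.e (nat_lit 452) (nat_lit 33) (.e (nat_lit 434209) (nat_lit 18) (.e (nat_lit 4605) (nat_lit 269) .nil))))))))) (.g (nat_lit 6) .nil .nil))))) 
(.nd (nat_lit 4) (.nd (nat_lit 5) 
(.lf (nat_lit 21321) (.g (nat_lit 3978) (.e (nat_lit 1182) (nat_lit 87) (.e (nat_lit 57479) (nat_lit 28) (.e (nat_lit 557095) (nat_lit 13) (.e (nat_lit 172097) (nat_lit 9) (.e (nat_lit 426125) (nat_lit 2) (.e (nat_lit 196666) (nat_lit 13) (.e (nat_lit 65565) (nat_lit 1) (.e (nat_lit 57873) (nat_lit 264) .nil)))))))) (.g (nat_lit 5) .nil .nil))) 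
(.lf (nat_lit 21353) (.g (nat_lit 3462) (.e (nat_lit 1182) (nat_lit 87) (.e (nat_lit 57479) (nat_lit 28) (.e (nat_lit 557095) (nat_lit 13) (.e (nat_lit 172115) (nat_lit 10) (.e (nat_lit 434231) (nat_lit 23) (.e (nat_lit 532554) (nat_lit 13) (.e (nat_lit 368662) (nat_lit 18) (.e (nat_lit 5905) (nat_lit 320) .nil)))))))) (.g (nat_lit 5) .nil .nil)))) (.nd (nat_lit 5) 
(.lf (nat_lit 21337) (.g (nat_lit 3754) (.e (nat_lit 1182) (nat_lit 87) (.e (nat_lit 57479) (nat_lit 28) (.e (nat_lit 557095) (nat_lit 13) (.e (nat_lit 172115) (nat_lit 10) (.e (nat_lit 434231) (nat_lit 23) (.e (nat_lit 532529) (nat_lit 9) (.e (nat_lit 343808) (nat_lit 1) (.e (nat_lit 57873) (nat_lit 264) .nil)))))))) (.g (nat_lit 5) .nil .nil))) 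
(.lf (nat_lit 21369) (.g (nat_lit 3137) (.e (nat_lit 1182) (nat_lit 87) (.e (nat_lit 57479) (nat_lit 28) (.e (nat_lit 557100) (nat_lit 13) (.e (nat_lit 172106) (nat_lit 10) (.e (nat_lit 434231) (nat_lit 23) (.e (nat_lit 532535) (nat_lit 9) (.e (nat_lit 335925) (nat_lit 0) (.e (nat_lit 1023) (nat_lit 81) (.e (nat_lit 5906) (nat_lit 320) .nil))))))))) (.g (nat_lit 5) .nil .nil)))))) 
(.nd (nat_lit 3) (.nd (nat_lit 4) (.nd (nat_lit 5) 
(.lf (nat_lit 21317) (.g (nat_lit 3649) (.e (nat_lit 1182) (nat_lit 87) (.e (nat_lit 57479) (nat_lit 28) (.e (nat_lit 557095) (nat_lit 13) (.e (nat_lit 172097) (nat_lit 9) (.e (nat_lit 426125) (nat_lit 2) (.e (nat_lit 196666) (nat_lit 13) (.e (nat_lit 65563) (nat_lit 1) (.e (nat_lit 57872) (nat_lit 264) .nil)))))))) (.g (nat_lit 5) .nil .nil))) 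
(.lf (nat_lit 21349) (.g (nat_lit 5295) (.e (nat_lit 1182) (nat_lit 87) (.e (nat_lit 57479) (nat_lit 28) (.e (nat_lit 557095) (nat_lit 13) (.e (nat_lit 172115) (nat_lit 10) (.e (nat_lit 434231) (nat_lit 23) (.e (nat_lit 532544) (nat_lit 10) (.e (nat_lit 344097) (nat_lit 18) (.e (nat_lit 5907) (nat_lit 320) .nil)))))))) (.g (nat_lit 8) .nil .nil)))) (.nd (nat_lit 5) 
(.lf (nat_lit 21333) (.g (nat_lit 4458) (.e (nat_lit 1182) (nat_lit 87) (.e (nat_lit 57479) (nat_lit 28) (.e (nat_lit 557095) (nat_lit 13) (.e (nat_lit 172115) (nat_lit 10) (.e (nat_lit 434231) (nat_lit 23) (.e (nat_lit 532481) (nat_lit 0) (.e (nat_lit 6481) (nat_lit 343) (.e (nat_lit 1181) (nat_lit 87) (.e (nat_lit 57872) (nat_lit 264) .nil))))))))) (.g (nat_lit 6) .nil .nil))) 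
(.lf (nat_lit 21365) (.g (nat_lit 3888) (.e (nat_lit 1182) (nat_lit 87) (.e (nat_lit 57479) (nat_lit 28) (.e (nat_lit 557100) (nat_lit 13) (.e (nat_lit 172106) (nat_lit 10) (.e (nat_lit 434231) (nat_lit 23) (.e (nat_lit 532527) (nat_lit 9) (.e (nat_lit 335997) (nat_lit 1) (.e (nat_lit 57871) (nat_lit 264) .nil)))))))) (.g (nat_lit 6) .nil .nil))))) (.nd (nat_lit 4) (.nd (nat_lit 5) 
(.lf (nat_lit 21325) (.g (nat_lit 2955) (.e (nat_lit 1182) (nat_lit 87) (.e (nat_lit 57479) (nat_lit 28) (.e (nat_lit 557095) (nat_lit 13) (.e (nat_lit 172097) (nat_lit 9) (.e (nat_lit 426140) (nat_lit 3) (.e (nat_lit 204862) (nat_lit 27) (.e (nat_lit 344097) (nat_lit 18) (.e (nat_lit 5905) (nat_lit 320) .nil)))))))) (.g (nat_lit 4) .nil .nil))) 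
(.lf (nat_lit 21357) (.g (nat_lit 3062) (.e (nat_lit 1182) (nat_lit 87) (.e (nat_lit 57479) (nat_lit 28) (.e (nat_lit 557095) (nat_lit 13) (.e (nat_lit 172115) (nat_lit 10) (.e (nat_lit 434238) (nat_lit 25) (.e (nat_lit 548898) (nat_lit 14) (.e (nat_lit 2964) (nat_lit 185) (.e (nat_lit 434202) (nat_lit 18) (.e (nat_lit 4598) (nat_lit 269) .nil))))))))) (.g (nat_lit 4) .nil .nil)))) 
(.nd (nat_lit 5) 
(.lf (nat_lit 21341) (.g (nat_lit 5488) (.e (nat_lit 1182) (nat_lit 87) (.e (nat_lit 57479) (nat_lit 28) (.e (nat_lit 557095) (nat_lit 13) (.e (nat_lit 172115) (nat_lit 10) (.e (nat_lit 434231) (nat_lit 23) (.e (nat_lit 532535) (nat_lit 9) (.e (nat_lit 335992) (nat_lit 1) (.e (nat_lit 57870) (nat_lit 264) .nil)))))))) (.g (nat_lit 6) .nil .nil))) 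
(.lf (nat_lit 21373) (.g (nat_lit 1895) (.e (nat_lit 1182) (nat_lit 87) (.e (nat_lit 57479) (nat_lit 28) (.e (nat_lit 557100) (nat_lit 13) (.e (nat_lit 172106) (nat_lit 10) (.e (nat_lit 434231) (nat_lit 23) (.e (nat_lit 532535) (nat_lit 9) (.e (nat_lit 335992) (nat_lit 1) (.e (nat_lit 57871) (nat_lit 264) .nil)))))))) (.g (nat_lit 4) .nil .nil))))))) 
(.nd (nat_lit 2) (.nd (nat_lit 3) (.nd (nat_lit 4) (.nd (nat_lit 5) 
(.lf (nat_lit 21315) (.g (nat_lit 3577) (.e (nat_lit 1182) (nat_lit 87) (.e (nat_lit 57479) (nat_lit 28) (.e (nat_lit 557095) (nat_lit 13) (.e (nat_lit 172097) (nat_lit 9) (.e (nat_lit 426125) (nat_lit 2) (.e (nat_lit 196666) (nat_lit 13) (.e (nat_lit 65563) (nat_lit 1) (.e (nat_lit 57870) (nat_lit 264) .nil)))))))) (.g (nat_lit 5) .nil .nil))) 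
(.lf (nat_lit 21347) (.g (nat_lit 4190) (.e (nat_lit 1182) (nat_lit 87) (.e (nat_lit 57479) (nat_lit 28) (.e (nat_lit 557095) (nat_lit 13) (.e (nat_lit 172115) (nat_lit 10) (.e (nat_lit 434231) (nat_lit 23) (.e (nat_lit 532544) (nat_lit 10) (.e (nat_lit 344097) (nat_lit 18) (.e (nat_lit 5905) (nat_lit 320) .nil)))))))) (.g (nat_lit 6) .nil .nil)))) (.nd (nat_lit 5) 
(.lf (nat_lit 21331) (.g (nat_lit 2291) (.e (nat_lit 1182) (nat_lit 87) (.e (nat_lit 57479) (nat_lit 28) (.e (nat_lit 557095) (nat_lit 13) (.e (nat_lit 172106) (nat_lit 10) .nil)))) .nil)) 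
(.lf (nat_lit 21363) (.g (nat_lit 3430) (.e (nat_lit 1182) (nat_lit 87) (.e (nat_lit 57479) (nat_lit 28) (.e (nat_lit 557095) (nat_lit 13) (.e (nat_lit 172115) (nat_lit 10) (.e (nat_lit 434244) (nat_lit 28) (.e (nat_lit 573471) (nat_lit 11) (.e (nat_lit 16405) (nat_lit 1) (.e (nat_lit 164424) (nat_lit 272) .nil)))))))) (.g (nat_lit 5) .nil .nil))))) (.nd (nat_lit 4) (.nd (nat_lit 5) 
(.lf (nat_lit 21323) (.g (nat_lit 3045) (.e (nat_lit 1182) (nat_lit 87) (.e (nat_lit 57479) (nat_lit 28) (.e (nat_lit 557095) (nat_lit 13) (.e (nat_lit 172097) (nat_lit 9) (.e (nat_lit 426140) (nat_lit 3) (.e (nat_lit 204850) (nat_lit 26) (.e (nat_lit 335997) (nat_lit 1) (.e (nat_lit 57872) (nat_lit 264) .nil)))))))) (.g (nat_lit 4) .nil .nil))) 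
(.lf (nat_lit 21355) (.g (nat_lit 3532) (.e (nat_lit 1182) (nat_lit 87) (.e (nat_lit 57479) (nat_lit 28) (.e (nat_lit 557095) (nat_lit 13) (.e (nat_lit 172115) (nat_lit 10) (.e (nat_lit 434231) (nat_lit 23) (.e (nat_lit 532555) (nat_lit 13) (.e (nat_lit 368662) (nat_lit 18) (.e (nat_lit 5906) (nat_lit 320) .nil)))))))) (.g (nat_lit 5) .nil .nil)))) (.nd (nat_lit 5) 
(.lf (nat_lit 21339) (.g (nat_lit 4128) (.e (nat_lit 1182) (nat_lit 87) (.e (nat_lit 57479) (nat_lit 28) (.e (nat_lit 557095) (nat_lit 13) (.e (nat_lit 172115) (nat_lit 10) (.e (nat_lit 434231) (nat_lit 23) (.e (nat_lit 532535) (nat_lit 9) (.e (nat_lit 335985) (nat_lit 1) (.e (nat_lit 57871) (nat_lit 264) .nil)))))))) (.g (nat_lit 6) .nil .nil))) 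
(.lf (nat_lit 21371) (.g (nat_lit 3809) (.e (nat_lit 1182) (nat_lit 87) (.e (nat_lit 57479) (nat_lit 28) (.e (nat_lit 557100) (nat_lit 13) (.e (nat_lit 172106) (nat_lit 10) (.e (nat_lit 434231) (nat_lit 23) (.e (nat_lit 532535) (nat_lit 9) (.e (nat_lit 335985) (nat_lit 1) (.e (nat_lit 57871) (nat_lit 264) .nil)))))))) (.g (nat_lit 6) .nil .nil)))))) 
(.nd (nat_lit 3) (.nd (nat_lit 4) (.nd (nat_lit 5) 
(.lf (nat_lit 21319) (.g (nat_lit 3203) (.e (nat_lit 1182) (nat_lit 87) (.e (nat_lit 57479) (nat_lit 28) (.e (nat_lit 557095) (nat_lit 13) (.e (nat_lit 172097) (nat_lit 9) (.e (nat_lit 426125) (nat_lit 2) (.e (nat_lit 196666) (nat_lit 13) (.e (nat_lit 65565) (nat_lit 1) (.e (nat_lit 57871) (nat_lit 264) .nil)))))))) (.g (nat_lit 4) .nil .nil))) 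
(.lf (nat_lit 21351) (.g (nat_lit 3912) (.e (nat_lit 1182) (nat_lit 87) (.e (nat_lit 57479) (nat_lit 28) (.e (nat_lit 557095) (nat_lit 13) (.e (nat_lit 172115) (nat_lit 10) (.e (nat_lit 434231) (nat_lit 23) (.e (nat_lit 532553) (nat_lit 13) (.e (nat_lit 368662) (nat_lit 18) (.e (nat_lit 5906) (nat_lit 320) .nil)))))))) (.g (nat_lit 5) .nil .nil)))) (.nd (nat_lit 5) 
(.lf (nat_lit 21335) (.g (nat_lit 4169) (.e (nat_lit 1182) (nat_lit 87) (.e (nat_lit 57479) (nat_lit 28) (.e (nat_lit 557095) (nat_lit 13) (.e (nat_lit 172115) (nat_lit 10) (.e (nat_lit 434231) (nat_lit 23) (.e (nat_lit 532527) (nat_lit 9) (.e (nat_lit 335997) (nat_lit 1) (.e (nat_lit 57871) (nat_lit 264) .nil)))))))) (.g (nat_lit 6) .nil .nil))) 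
(.lf (nat_lit 21367) (.g (nat_lit 2161) (.e (nat_lit 1182) (nat_lit 87) (.e (nat_lit 57479) (nat_lit 28) (.e (nat_lit 557100) (nat_lit 13) (.e (nat_lit 172106) (nat_lit 10) (.e (nat_lit 434231) (nat_lit 23) (.e (nat_lit 532529) (nat_lit 9) (.e (nat_lit 343808) (nat_lit 1) (.e (nat_lit 57870) (nat_lit 264) .nil)))))))) (.g (nat_lit 4) .nil .nil))))) (.nd (nat_lit 4) (.nd (nat_lit 5) 
(.lf (nat_lit 21327) (.g (nat_lit 3995) (.e (nat_lit 1182) (nat_lit 87) (.e (nat_lit 57479) (nat_lit 28) (.e (nat_lit 557095) (nat_lit 13) (.e (nat_lit 172097) (nat_lit 9) (.e (nat_lit 426140) (nat_lit 3) (.e (nat_lit 204862) (nat_lit 27) (.e (nat_lit 344097) (nat_lit 18) (.e (nat_lit 5907) (nat_lit 320) .nil)))))))) (.g (nat_lit 5) .nil .nil))) 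
(.lf (nat_lit 21359) (.g (nat_lit 3246) (.e (nat_lit 1182) (nat_lit 87) (.e (nat_lit 57479) (nat_lit 28) (.e (nat_lit 557095) (nat_lit 13) (.e (nat_lit 172115) (nat_lit 10) (.e (nat_lit 434244) (nat_lit 28) (.e (nat_lit 573450) (nat_lit 9) (.e (nat_lit 375) (nat_lit 32) (.e (nat_lit 426109) (nat_lit 1) (.e (nat_lit 164422) (nat_lit 272) .nil))))))))) (.g (nat_lit 4) .nil .nil)))) (.nd (nat_lit 5) 
(.lf (nat_lit 21343) (.g (nat_lit 2798) (.e (nat_lit 1182) (nat_lit 87) (.e (nat_lit 57479) (nat_lit 28) (.e (nat_lit 557095) (nat_lit 13) (.e (nat_lit 172115) (nat_lit 10) (.e (nat_lit 434231) (nat_lit 23) (.e (nat_lit 532536) (nat_lit 9) (.e (nat_lit 335997) (nat_lit 1) (.e (nat_lit 57871) (nat_lit 264) .nil)))))))) (.g (nat_lit 4) .nil .nil))) 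
(.lf (nat_lit 21375) (.g (nat_lit 3319) (.e (nat_lit 1182) (nat_lit 87) (.e (nat_lit 57479) (nat_lit 28) (.e (nat_lit 557100) (nat_lit 13) (.e (nat_lit 172106) (nat_lit 10) (.e (nat_lit 434231) (nat_lit 23) (.e (nat_lit 532535) (nat_lit 9) (.e (nat_lit 335992) (nat_lit 1) (.e (nat_lit 57873) (nat_lit 264) .nil)))))))) (.g (nat_lit 5) .nil .nil)))))))))

noncomputable def tv300 : DT := (.nd (nat_lit 0) (.nd (nat_lit 1) (.nd (nat_lit 2) (.nd (nat_lit 3) (.nd (nat_lit 4) (.nd (nat_lit 5) 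
(.lf (nat_lit 21376) (.g (nat_lit 3308) (.e (nat_lit 1182) (nat_lit 87) (.e (nat_lit 57479) (nat_lit 28) (.e (nat_lit 557100) (nat_lit 13) (.e (nat_lit 172106) (nat_lit 10) (.e (nat_lit 434231) (nat_lit 23) (.e (nat_lit 532543) (nat_lit 10) (.e (nat_lit 344090) (nat_lit 18) (.e (nat_lit 5896) (nat_lit 320) .nil)))))))) (.g (nat_lit 5) .nil .nil))) 
(.lf (nat_lit 21408) (.g (nat_lit 4346) (.e (nat_lit 1182) (nat_lit 87) (.e (nat_lit 57479) (nat_lit 28) (.e (nat_lit 557101) (nat_lit 13) (.e (nat_lit 172097) (nat_lit 9) (.e (nat_lit 426125) (nat_lit 2) (.e (nat_lit 196666) (nat_lit 13) (.e (nat_lit 65565) (nat_lit 1) (.e (nat_lit 57871) (nat_lit 264) .nil)))))))) (.g (nat_lit 7) .nil .nil)))) (.nd (nat_lit 5) 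
(.lf (nat_lit 21392) (.g (nat_lit 4275) (.e (nat_lit 1182) (nat_lit 87) (.e (nat_lit 57479) (nat_lit 28) (.e (nat_lit 557100) (nat_lit 13) (.e (nat_lit 172113) (nat_lit 10) (.e (nat_lit 434245) (nat_lit 28) (.e (nat_lit 573471) (nat_lit 11) (.e (nat_lit 16406) (nat_lit 1) (.e (nat_lit 164421) (nat_lit 272) .nil)))))))) (.g (nat_lit 4) .nil .nil))) 
(.lf (nat_lit 21424) (.g (nat_lit 2510) (.e (nat_lit 1182) (nat_lit 87) (.e (nat_lit 57479) (nat_lit 28) (.e (nat_lit 557101) (nat_lit 13) (.e (nat_lit 172097) (nat_lit 9) (.e (nat_lit 426140) (nat_lit 3) (.e (nat_lit 204859) (nat_lit 26) (.e (nat_lit 335998) (nat_lit 1) (.e (nat_lit 57873) (nat_lit 264) .nil)))))))) (.g (nat_lit 4) .nil .nil))))) (.nd (nat_lit 4) (.nd (nat_lit 5) 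
(.lf (nat_lit 21384) (.g (nat_lit 2994) (.e (nat_lit 1182) (nat_lit 87) (.e (nat_lit 57479) (nat_lit 28) (.e (nat_lit 557100) (nat_lit 13) (.e (nat_lit 172106) (nat_lit 10) (.e (nat_lit 434231) (nat_lit 23) (.e (nat_lit 532553) (nat_lit 13) (.e (nat_lit 368662) (nat_lit 18) (.e (nat_lit 5906) (nat_lit 320) .nil)))))))) (.g (nat_lit 5) .nil .nil))) 
(.lf (nat_lit 21416) (.g (nat_lit 2506) (.e (nat_lit 1182) (nat_lit 87) (.e (nat_lit 57479) (nat_lit 28) (.e (nat_lit 557101) (nat_lit 13) (.e (nat_lit 172097) (nat_lit 9) (.e (nat_lit 426140) (nat_lit 3) (.e (nat_lit 204855) (nat_lit 26) (.e (nat_lit 335925) (nat_lit 0) (.e (nat_lit 1023) (nat_lit 81) (.e (nat_lit 5906) (nat_lit 320) .nil))))))))) (.g (nat_lit 4) .nil .nil)))) (.nd (nat_lit 5) 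
(.lf (nat_lit 21400) (.g (nat_lit 4737) (.e (nat_lit 1182) (nat_lit 87) (.e (nat_lit 57479) (nat_lit 28) (.e (nat_lit 557101) (nat_lit 13) (.e (nat_lit 172097) (nat_lit 9) (.e (nat_lit 426125) (nat_lit 2) (.e (nat_lit 196666) (nat_lit 13) (.e (nat_lit 65550) (nat_lit 0) (.e (nat_lit 1023) (nat_lit 81) (.e (nat_lit 5905) (nat_lit 320) .nil))))))))) (.g (nat_lit 6) .nil .nil))) 
(.lf (nat_lit 21432) (.g (nat_lit 5299) (.e (nat_lit 1182) (nat_lit 87) (.e (nat_lit 57479) (nat_lit 28) (.e (nat_lit 557101) (nat_lit 13) (.e (nat_lit 172097) (nat_lit 9) (.e (nat_lit 426140) (nat_lit 3) (.e (nat_lit 204862) (nat_lit 27) (.e (nat_lit 344097) (nat_lit 18) (.e (nat_lit 5907) (nat_lit 320) .nil)))))))) (.g (nat_lit 8) .nil .nil)))))) 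
(.nd (nat_lit 3) (.nd (nat_lit 4) (.nd (nat_lit 5) 
(.lf (nat_lit 21380) (.g (nat_lit 2209) (.e (nat_lit 1182) (nat_lit 87) (.e (nat_lit 57479) (nat_lit 28) (.e (nat_lit 557100) (nat_lit 13) (.e (nat_lit 172106) (nat_lit 10) (.e (nat_lit 434231) (nat_lit 23) (.e (nat_lit 532543) (nat_lit 10) (.e (nat_lit 344100) (nat_lit 18) (.e (nat_lit 5907) (nat_lit 320) .nil)))))))) (.g (nat_lit 4) .nil .nil))) 
(.lf (nat_lit 21412) (.g (nat_lit 4299) (.e (nat_lit 1182) (nat_lit 87) (.e (nat_lit 57479) (nat_lit 28) (.e (nat_lit 557101) (nat_lit 13) (.e (nat_lit 172097) (nat_lit 9) (.e (nat_lit 426140) (nat_lit 3) (.e (nat_lit 204850) (nat_lit 26) (.e (nat_lit 335997) (nat_lit 1) (.e (nat_lit 57870) (nat_lit 264) .nil)))))))) (.g (nat_lit 8) .nil .nil)))) (.nd (nat_lit 5) 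
(.lf (nat_lit 21396) (.g (nat_lit 2318) (.e (nat_lit 1182) (nat_lit 87) (.e (nat_lit 57479) (nat_lit 28) (.e (nat_lit 557101) (nat_lit 13) (.e (nat_lit 172097) (nat_lit 9) (.e (nat_lit 426125) (nat_lit 2) (.e (nat_lit 196630) (nat_lit 9) (.e (nat_lit 1549) (nat_lit 109) (.e (nat_lit 344097) (nat_lit 18) (.e (nat_lit 5907) (nat_lit 320) .nil))))))))) (.g (nat_lit 4) .nil .nil))) 
(.lf (nat_lit 21428) (.g (nat_lit 4121) (.e (nat_lit 1182) (nat_lit 87) (.e (nat_lit 57479) (nat_lit 28) (.e (nat_lit 557101) (nat_lit 13) (.e (nat_lit 172097) (nat_lit 9) (.e (nat_lit 426140) (nat_lit 3) (.e (nat_lit 204862) (nat_lit 27) (.e (nat_lit 344090) (nat_lit 18) (.e (nat_lit 5896) (nat_lit 320) .nil)))))))) (.g (nat_lit 6) .nil .nil))))) (.nd (nat_lit 4) (.nd (nat_lit 5) 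
(.lf (nat_lit 21388) (.g (nat_lit 4072) (.e (nat_lit 1182) (nat_lit 87) (.e (nat_lit 57479) (nat_lit 28) (.e (nat_lit 557100) (nat_lit 13) (.e (nat_lit 172106) (nat_lit 10) (.e (nat_lit 434231) (nat_lit 23) (.e (nat_lit 532554) (nat_lit 13) (.e (nat_lit 368662) (nat_lit 18) (.e (nat_lit 5907) (nat_lit 320) .nil)))))))) (.g (nat_lit 7) .nil .nil))) 
(.lf (nat_lit 21420) (.g (nat_lit 3290) (.e (nat_lit 1182) (nat_lit 87) (.e (nat_lit 57479) (nat_lit 28) (.e (nat_lit 557101) (nat_lit 13) (.e (nat_lit 172097) (nat_lit 9) (.e (nat_lit 426140) (nat_lit 3) (.e (nat_lit 204855) (nat_lit 26) (.e (nat_lit 335992) (nat_lit 1) (.e (nat_lit 57872) (nat_lit 264) .nil)))))))) (.g (nat_lit 5) .nil .nil)))) (.nd (nat_lit 5) 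
(.lf (nat_lit 21404) (.g (nat_lit 4720) (.e (nat_lit 1182) (nat_lit 87) (.e (nat_lit 57479) (nat_lit 28) (.e (nat_lit 557101) (nat_lit 13) (.e (nat_lit 172097) (nat_lit 9) (.e (nat_lit 426125) (nat_lit 2) (.e (nat_lit 196666) (nat_lit 13) (.e (nat_lit 65563) (nat_lit 1) (.e (nat_lit 57870) (nat_lit 264) .nil)))))))) (.g (nat_lit 8) .nil .nil))) 
(.lf (nat_lit 21436) (.g (nat_lit 5042) (.e (nat_lit 1182) (nat_lit 87) (.e (nat_lit 57479) (nat_lit 28) (.e (nat_lit 557101) (nat_lit 13) (.e (nat_lit 172097) (nat_lit 9) (.e (nat_lit 426140) (nat_lit 3) (.e (nat_lit 204863) (nat_lit 27) (.e (nat_lit 344097) (nat_lit 18) (.e (nat_lit 5906) (nat_lit 320) .nil)))))))) (.g (nat_lit 8) .nil .nil))))))) 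
(.nd (nat_lit 2) (.nd (nat_lit 3) (.nd (nat_lit 4) (.nd (nat_lit 5) 
(.lf (nat_lit 21378) (.g (nat_lit 4589) (.e (nat_lit 1182) (nat_lit 87) (.e (nat_lit 57479) (nat_lit 28) (.e (nat_lit 557100) (nat_lit 13) (.e (nat_lit 172106) (nat_lit 10) (.e (nat_lit 434231) (nat_lit 23) (.e (nat_lit 532543) (nat_lit 10) (.e (nat_lit 344097) (nat_lit 18) (.e (nat_lit 5906) (nat_lit 320) .nil)))))))) (.g (nat_lit 7) .nil .nil))) 
(.lf (nat_lit 21410) (.g (nat_lit 2150) (.e (nat_lit 1182) (nat_lit 87) (.e (nat_lit 57479) (nat_lit 28) (.e (nat_lit 557101) (nat_lit 13) (.e (nat_lit 172097) (nat_lit 9) (.e (nat_lit 426140) (nat_lit 3) .nil))))) .nil))) (.nd (nat_lit 5) 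
(.lf (nat_lit 21394) (.g (nat_lit 2597) (.e (nat_lit 1182) (nat_lit 87) (.e (nat_lit 57479) (nat_lit 28) (.e (nat_lit 557101) (nat_lit 13) (.e (nat_lit 172097) (nat_lit 9) (.e (nat_lit 426125) (nat_lit 2) (.e (nat_lit 196630) (nat_lit 9) (.e (nat_lit 1485) (nat_lit 108) (.e (nat_lit 335995) (nat_lit 1) (.e (nat_lit 57872) (nat_lit 264) .nil))))))))) (.g (nat_lit 4) .nil .nil))) 
(.lf (nat_lit 21426) (.g (nat_lit 3718) (.e (nat_lit 1182) (nat_lit 87) (.e (nat_lit 57479) (nat_lit 28) (.e (nat_lit 557101) (nat_lit 13) (.e (nat_lit 172097) (nat_lit 9) (.e (nat_lit 426140) (nat_lit 3) (.e (nat_lit 204861) (nat_lit 26) (.e (nat_lit 335995) (nat_lit 1) (.e (nat_lit 57872) (nat_lit 264) .nil)))))))) (.g (nat_lit 5) .nil .nil))))) (.nd (nat_lit 4) (.nd (nat_lit 5) 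
(.lf (nat_lit 21386) (.g (nat_lit 2125) (.e (nat_lit 1182) (nat_lit 87) (.e (nat_lit 57479) (nat_lit 28) (.e (nat_lit 557100) (nat_lit 13) (.e (nat_lit 172106) (nat_lit 10) (.e (nat_lit 434231) (nat_lit 23) (.e (nat_lit 532554) (nat_lit 13) (.e (nat_lit 368662) (nat_lit 18) (.e (nat_lit 5902) (nat_lit 320) .nil)))))))) (.g (nat_lit 4) .nil .nil))) 
(.lf (nat_lit 21418) (.g (nat_lit 2938) (.e (nat_lit 1182) (nat_lit 87) (.e (nat_lit 57479) (nat_lit 28) (.e (nat_lit 557101) (nat_lit 13) (.e (nat_lit 172097) (nat_lit 9) (.e (nat_lit 426140) (nat_lit 3) (.e (nat_lit 204855) (nat_lit 26) (.e (nat_lit 335991) (nat_lit 1) (.e (nat_lit 57873) (nat_lit 264) .nil)))))))) (.g (nat_lit 5) .nil .nil)))) (.nd (nat_lit 5) 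
(.lf (nat_lit 21402) (.g (nat_lit 4427) (.e (nat_lit 1182) (nat_lit 87) (.e (nat_lit 57479) (nat_lit 28) (.e (nat_lit 557101) (nat_lit 13) (.e (nat_lit 172097) (nat_lit 9) (.e (nat_lit 426125) (nat_lit 2) (.e (nat_lit 196666) (nat_lit 13) (.e (nat_lit 65550) (nat_lit 0) (.e (nat_lit 1040) (nat_lit 81) (.e (nat_lit 5907) (nat_lit 320) .nil))))))))) (.g (nat_lit 6) .nil .nil))) 
(.lf (nat_lit 21434) (.g (nat_lit 2240) (.e (nat_lit 1182) (nat_lit 87) (.e (nat_lit 57479) (nat_lit 28) (.e (nat_lit 557101) (nat_lit 13) (.e (nat_lit 172097) (nat_lit 9) (.e (nat_lit 426140) (nat_lit 3) (.e (nat_lit 204863) (nat_lit 27) (.e (nat_lit 344091) (nat_lit 18) (.e (nat_lit 5896) (nat_lit 320) .nil)))))))) (.g (nat_lit 4) .nil .nil)))))) 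
(.nd (nat_lit 3) (.nd (nat_lit 4) (.nd (nat_lit 5) 
(.lf (nat_lit 21382) (.g (nat_lit 5031) (.e (nat_lit 1182) (nat_lit 87) (.e (nat_lit 57479) (nat_lit 28) (.e (nat_lit 557100) (nat_lit 13) (.e (nat_lit 172106) (nat_lit 10) (.e (nat_lit 434231) (nat_lit 23) (.e (nat_lit 532544) (nat_lit 10) (.e (nat_lit 344097) (nat_lit 18) (.e (nat_lit 5906) (nat_lit 320) .nil)))))))) (.g (nat_lit 7) .nil .nil))) 
(.lf (nat_lit 21414) (.g (nat_lit 4428) (.e (nat_lit 1182) (nat_lit 87) (.e (nat_lit 57479) (nat_lit 28) (.e (nat_lit 557101) (nat_lit 13) (.e (nat_lit 172097) (nat_lit 9) (.e (nat_lit 426140) (nat_lit 3) (.e (nat_lit 204850) (nat_lit 26) (.e (nat_lit 335997) (nat_lit 1) (.e (nat_lit 57872) (nat_lit 264) .nil)))))))) (.g (nat_lit 8) .nil .nil)))) (.nd (nat_lit 5) 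
(.lf (nat_lit 21398) (.g (nat_lit 4072) (.e (nat_lit 1182) (nat_lit 87) (.e (nat_lit 57479) (nat_lit 28) (.e (nat_lit 557101) (nat_lit 13) (.e (nat_lit 172097) (nat_lit 9) (.e (nat_lit 426125) (nat_lit 2) (.e (nat_lit 196666) (nat_lit 13) (.e (nat_lit 65546) (nat_lit 0) (.e (nat_lit 1023) (nat_lit 81) (.e (nat_lit 5907) (nat_lit 320) .nil))))))))) (.g (nat_lit 6) .nil .nil))) 
(.lf (nat_lit 21430) (.g (nat_lit 4259) (.e (nat_lit 1182) (nat_lit 87) (.e (nat_lit 57479) (nat_lit 28) (.e (nat_lit 557101) (nat_lit 13) (.e (nat_lit 172097) (nat_lit 9) (.e (nat_lit 426140) (nat_lit 3) (.e (nat_lit 204862) (nat_lit 27) (.e (nat_lit 344097) (nat_lit 18) (.e (nat_lit 5905) (nat_lit 320) .nil)))))))) (.g (nat_lit 7) .nil .nil))))) (.nd (nat_lit 4) (.nd (nat_lit 5) 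
(.lf (nat_lit 21390) (.g (nat_lit 3016) (.e (nat_lit 1182) (nat_lit 87) (.e (nat_lit 57479) (nat_lit 28) (.e (nat_lit 557100) (nat_lit 13) (.e (nat_lit 172113) (nat_lit 10) .nil)))) .nil)) 
(.lf (nat_lit 21422) (.g (nat_lit 2209) (.e (nat_lit 1182) (nat_lit 87) (.e (nat_lit 57479) (nat_lit 28) (.e (nat_lit 557101) (nat_lit 13) (.e (nat_lit 172097) (nat_lit 9) (.e (nat_lit 426140) (nat_lit 3) (.e (nat_lit 204855) (nat_lit 26) (.e (nat_lit 343808) (nat_lit 1) (.e (nat_lit 57873) (nat_lit 264) .nil)))))))) (.g (nat_lit 4) .nil .nil)))) (.nd (nat_lit 5) 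
(.lf (nat_lit 21406) (.g (nat_lit 4792) (.e (nat_lit 1182) (nat_lit 87) (.e (nat_lit 57479) (nat_lit 28) (.e (nat_lit 557101) (nat_lit 13) (.e (nat_lit 172097) (nat_lit 9) (.e (nat_lit 426125) (nat_lit 2) (.e (nat_lit 196666) (nat_lit 13) (.e (nat_lit 65563) (nat_lit 1) (.e (nat_lit 57872) (nat_lit 264) .nil)))))))) (.g (nat_lit 8) .nil .nil))) 
(.lf (nat_lit 21438) (.g (nat_lit 2299) (.e (nat_lit 1182) (nat_lit 87) (.e (nat_lit 57479) (nat_lit 28) (.e (nat_lit 557101) (nat_lit 13) (.e (nat_lit 172097) (nat_lit 9) (.e (nat_lit 426140) (nat_lit 3) (.e (nat_lit 204863) (nat_lit 27) (.e (nat_lit 344101) (nat_lit 18) (.e (nat_lit 5907) (nat_lit 320) .nil)))))))) (.g (nat_lit 4) .nil .nil)))))))) 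
(.nd (nat_lit 1) (.nd (nat_lit 2) (.nd (nat_lit 3) (.nd (nat_lit 4) (.nd (nat_lit 5) 
(.lf (nat_lit 21377) (.g (nat_lit 3977) (.e (nat_lit 1182) (nat_lit 87) (.e (nat_lit 57479) (nat_lit 28) (.e (nat_lit 557100) (nat_lit 13) (.e (nat_lit 172106) (nat_lit 10) (.e (nat_lit 434231) (nat_lit 23) (.e (nat_lit 532543) (nat_lit 10) (.e (nat_lit 344097) (nat_lit 18) (.e (nat_lit 5905) (nat_lit 320) .nil)))))))) (.g (nat_lit 6) .nil .nil))) 
(.lf (nat_lit 21409) (.g (nat_lit 4724) (.e (nat_lit 1182) (nat_lit 87) (.e (nat_lit 57479) (nat_lit 28) (.e (nat_lit 557101) (nat_lit 13) (.e (nat_lit 172097) (nat_lit 9) (.e (nat_lit 426125) (nat_lit 2) (.e (nat_lit 196666) (nat_lit 13) (.e (nat_lit 65565) (nat_lit 1) (.e (nat_lit 57872) (nat_lit 264) .nil)))))))) (.g (nat_lit 8) .nil .nil)))) (.nd (nat_lit 5) 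
(.lf (nat_lit 21393) (.g (nat_lit 2151) (.e (nat_lit 1182) (nat_lit 87) (.e (nat_lit 57479) (nat_lit 28) (.e (nat_lit 557101) (nat_lit 13) (.e (nat_lit 172097) (nat_lit 9) (.e (nat_lit 426125) (nat_lit 2) .nil))))) .nil)) 
(.lf (nat_lit 21425) (.g (nat_lit 2395) (.e (nat_lit 1182) (nat_lit 87) (.e (nat_lit 57479) (nat_lit 28) (.e (nat_lit 557101) (nat_lit 13) (.e (nat_lit 172097) (nat_lit 9) (.e (nat_lit 426140) (nat_lit 3) (.e (nat_lit 204860) (nat_lit 26) (.e (nat_lit 335995) (nat_lit 1) (.e (nat_lit 57872) (nat_lit 264) .nil)))))))) (.g (nat_lit 4) .nil .nil))))) (.nd (nat_lit 4) (.nd (nat_lit 5) 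
(.lf (nat_lit 21385) (.g (nat_lit 3334) (.e (nat_lit 1182) (nat_lit 87) (.e (nat_lit 57479) (nat_lit 28) (.e (nat_lit 557100) (nat_lit 13) (.e (nat_lit 172106) (nat_lit 10) (.e (nat_lit 434231) (nat_lit 23) (.e (nat_lit 532553) (nat_lit 13) (.e (nat_lit 368662) (nat_lit 18) (.e (nat_lit 5907) (nat_lit 320) .nil)))))))) (.g (nat_lit 5) .nil .nil))) 
(.lf (nat_lit 21417) (.g (nat_lit 3982) (.e (nat_lit 1182) (nat_lit 87) (.e (nat_lit 57479) (nat_lit 28) (.e (nat_lit 557101) (nat_lit 13) (.e (nat_lit 172097) (nat_lit 9) (.e (nat_lit 426140) (nat_lit 3) (.e (nat_lit 204855) (nat_lit 26) (.e (nat_lit 335985) (nat_lit 1) (.e (nat_lit 57871) (nat_lit 264) .nil)))))))) (.g (nat_lit 6) .nil .nil)))) (.nd (nat_lit 5) 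
(.lf (nat_lit 21401) (.g (nat_lit 4665) (.e (nat_lit 1182) (nat_lit 87) (.e (nat_lit 57479) (nat_lit 28) (.e (nat_lit 557101) (nat_lit 13) (.e (nat_lit 172097) (nat_lit 9) (.e (nat_lit 426125) (nat_lit 2) (.e (nat_lit 196666) (nat_lit 13) (.e (nat_lit 65550) (nat_lit 0) (.e (nat_lit 1023) (nat_lit 81) (.e (nat_lit 5907) (nat_lit 320) .nil))))))))) (.g (nat_lit 6) .nil .nil))) 
(.lf (nat_lit 21433) (.g (nat_lit 4105) (.e (nat_lit 1182) (nat_lit 87) (.e (nat_lit 57479) (nat_lit 28) (.e (nat_lit 557101) (nat_lit 13) (.e (nat_lit 172097) (nat_lit 9) (.e (nat_lit 426140) (nat_lit 3) (.e (nat_lit 204863) (nat_lit 27) (.e (nat_lit 344090) (nat_lit 18) (.e (nat_lit 5896) (nat_lit 320) .nil)))))))) (.g (nat_lit 6) .nil .nil)))))) 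
(.nd (nat_lit 3) (.nd (nat_lit 4) (.nd (nat_lit 5) 
(.lf (nat_lit 21381) (.g (nat_lit 4340) (.e (nat_lit 1182) (nat_lit 87) (.e (nat_lit 57479) (nat_lit 28) (.e (nat_lit 557100) (nat_lit 13) (.e (nat_lit 172106) (nat_lit 10) (.e (nat_lit 434231) (nat_lit 23) (.e (nat_lit 532544) (nat_lit 10) (.e (nat_lit 344097) (nat_lit 18) (.e (nat_lit 5905) (nat_lit 320) .nil)))))))) (.g (nat_lit 6) .nil .nil))) 
(.lf (nat_lit 21413) (.g (nat_lit 3985) (.e (nat_lit 1182) (nat_lit 87) (.e (nat_lit 57479) (nat_lit 28) (.e (nat_lit 557101) (nat_lit 13) (.e (nat_lit 172097) (nat_lit 9) (.e (nat_lit 426140) (nat_lit 3) (.e (nat_lit 204850) (nat_lit 26) (.e (nat_lit 335997) (nat_lit 1) (.e (nat_lit 57871) (nat_lit 264) .nil)))))))) (.g (nat_lit 7) .nil .nil)))) (.nd (nat_lit 5) 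
(.lf (nat_lit 21397) (.g (nat_lit 2271) (.e (nat_lit 1182) (nat_lit 87) (.e (nat_lit 57479) (nat_lit 28) (.e (nat_lit 557101) (nat_lit 13) (.e (nat_lit 172097) (nat_lit 9) (.e (nat_lit 426125) (nat_lit 2) (.e (nat_lit 196666) (nat_lit 13) (.e (nat_lit 65546) (nat_lit 0) (.e (nat_lit 1023) (nat_lit 81) (.e (nat_lit 5902) (nat_lit 320) .nil))))))))) (.g (nat_lit 4) .nil .nil))) 
(.lf (nat_lit 21429) (.g (nat_lit 2195) (.e (nat_lit 1182) (nat_lit 87) (.e (nat_lit 57479) (nat_lit 28) (.e (nat_lit 557101) (nat_lit 13) (.e (nat_lit 172097) (nat_lit 9) (.e (nat_lit 426140) (nat_lit 3) (.e (nat_lit 204862) (nat_lit 27) (.e (nat_lit 344097) (nat_lit 18) (.e (nat_lit 5902) (nat_lit 320) .nil)))))))) (.g (nat_lit 4) .nil .nil))))) (.nd (nat_lit 4) (.nd (nat_lit 5) 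
(.lf (nat_lit 21389) (.g (nat_lit 2833) (.e (nat_lit 1182) (nat_lit 87) (.e (nat_lit 57479) (nat_lit 28) (.e (nat_lit 557100) (nat_lit 13) (.e (nat_lit 172106) (nat_lit 10) (.e (nat_lit 434244) (nat_lit 28) .nil))))) .nil)) 
(.lf (nat_lit 21421) (.g (nat_lit 3460) (.e (nat_lit 1182) (nat_lit 87) (.e (nat_lit 57479) (nat_lit 28) (.e (nat_lit 557101) (nat_lit 13) (.e (nat_lit 172097) (nat_lit 9) (.e (nat_lit 426140) (nat_lit 3) (.e (nat_lit 204855) (nat_lit 26) (.e (nat_lit 335992) (nat_lit 1) (.e (nat_lit 57873) (nat_lit 264) .nil)))))))) (.g (nat_lit 5) .nil .nil)))) (.nd (nat_lit 5) 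
(.lf (nat_lit 21405) (.g (nat_lit 4444) (.e (nat_lit 1182) (nat_lit 87) (.e (nat_lit 57479) (nat_lit 28) (.e (nat_lit 557101) (nat_lit 13) (.e (nat_lit 172097) (nat_lit 9) (.e (nat_lit 426125) (nat_lit 2) (.e (nat_lit 196666) (nat_lit 13) (.e (nat_lit 65563) (nat_lit 1) (.e (nat_lit 57871) (nat_lit 264) .nil)))))))) (.g (nat_lit 7) .nil .nil))) 
(.lf (nat_lit 21437) (.g (nat_lit 5470) (.e (nat_lit 1182) (nat_lit 87) (.e (nat_lit 57479) (nat_lit 28) (.e (nat_lit 557101) (nat_lit 13) (.e (nat_lit 172097) (nat_lit 9) (.e (nat_lit 426140) (nat_lit 3) (.e (nat_lit 204863) (nat_lit 27) (.e (nat_lit 344097) (nat_lit 18) (.e (nat_lit 5907) (nat_lit 320) .nil)))))))) (.g (nat_lit 8) .nil .nil))))))) 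
(.nd (nat_lit 2) (.nd (nat_lit 3) (.nd (nat_lit 4) (.nd (nat_lit 5) 
(.lf (nat_lit 21379) (.g (nat_lit 5037) (.e (nat_lit 1182) (nat_lit 87) (.e (nat_lit 57479) (nat_lit 28) (.e (nat_lit 557100) (nat_lit 13) (.e (nat_lit 172106) (nat_lit 10) (.e (nat_lit 434231) (nat_lit 23) (.e (nat_lit 532543) (nat_lit 10) (.e (nat_lit 344097) (nat_lit 18) (.e (nat_lit 5907) (nat_lit 320) .nil)))))))) (.g (nat_lit 8) .nil .nil))) 
(.lf (nat_lit 21411) (.g (nat_lit 2669) (.e (nat_lit 1182) (nat_lit 87) (.e (nat_lit 57479) (nat_lit 28) (.e (nat_lit 557101) (nat_lit 13) (.e (nat_lit 172097) (nat_lit 9) (.e (nat_lit 426140) (nat_lit 3) (.e (nat_lit 204821) (nat_lit 17) (.e (nat_lit 7936) (nat_lit 343) (.e (nat_lit 1181) (nat_lit 87) (.e (nat_lit 57872) (nat_lit 264) .nil))))))))) (.g (nat_lit 4) .nil .nil)))) (.nd (nat_lit 5) 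
(.lf (nat_lit 21395) (.g (nat_lit 3232) (.e (nat_lit 1182) (nat_lit 87) (.e (nat_lit 57479) (nat_lit 28) (.e (nat_lit 557101) (nat_lit 13) (.e (nat_lit 172097) (nat_lit 9) (.e (nat_lit 426125) (nat_lit 2) (.e (nat_lit 196630) (nat_lit 9) (.e (nat_lit 1499) (nat_lit 108) (.e (nat_lit 335995) (nat_lit 1) (.e (nat_lit 57872) (nat_lit 264) .nil))))))))) (.g (nat_lit 5) .nil .nil))) 
(.lf (nat_lit 21427) (.g (nat_lit 2732) (.e (nat_lit 1182) (nat_lit 87) (.e (nat_lit 57479) (nat_lit 28) (.e (nat_lit 557101) (nat_lit 13) (.e (nat_lit 172097) (nat_lit 9) (.e (nat_lit 426140) (nat_lit 3) (.e (nat_lit 212736) (nat_lit 26) (.e (nat_lit 335995) (nat_lit 1) (.e (nat_lit 57872) (nat_lit 264) .nil)))))))) (.g (nat_lit 4) .nil .nil))))) (.nd (nat_lit 4) (.nd (nat_lit 5) 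
(.lf (nat_lit 21387) (.g (nat_lit 2375) (.e (nat_lit 1182) (nat_lit 87) (.e (nat_lit 57479) (nat_lit 28) (.e (nat_lit 557100) (nat_lit 13) (.e (nat_lit 172106) (nat_lit 10) (.e (nat_lit 434231) (nat_lit 23) (.e (nat_lit 532554) (nat_lit 13) (.e (nat_lit 368662) (nat_lit 18) (.e (nat_lit 5905) (nat_lit 320) .nil)))))))) (.g (nat_lit 4) .nil .nil))) 
(.lf (nat_lit 21419) (.g (nat_lit 4349) (.e (nat_lit 1182) (nat_lit 87) (.e (nat_lit 57479) (nat_lit 28) (.e (nat_lit 557101) (nat_lit 13) (.e (nat_lit 172097) (nat_lit 9) (.e (nat_lit 426140) (nat_lit 3) (.e (nat_lit 204855) (nat_lit 26) (.e (nat_lit 335992) (nat_lit 1) (.e (nat_lit 57870) (nat_lit 264) .nil)))))))) (.g (nat_lit 7) .nil .nil)))) (.nd (nat_lit 5) 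
(.lf (nat_lit 21403) (.g (nat_lit 3827) (.e (nat_lit 1182) (nat_lit 87) (.e (nat_lit 57479) (nat_lit 28) (.e (nat_lit 557101) (nat_lit 13) (.e (nat_lit 172097) (nat_lit 9) (.e (nat_lit 426125) (nat_lit 2) (.e (nat_lit 196666) (nat_lit 13) (.e (nat_lit 65553) (nat_lit 0) (.e (nat_lit 1023) (nat_lit 81) (.e (nat_lit 5906) (nat_lit 320) .nil))))))))) (.g (nat_lit 6) .nil .nil))) 
(.lf (nat_lit 21435) (.g (nat_lit 4432) (.e (nat_lit 1182) (nat_lit 87) (.e (nat_lit 57479) (nat_lit 28) (.e (nat_lit 557101) (nat_lit 13) (.e (nat_lit 172097) (nat_lit 9) (.e (nat_lit 426140) (nat_lit 3) (.e (nat_lit 204863) (nat_lit 27) (.e (nat_lit 344097) (nat_lit 18) (.e (nat_lit 5905) (nat_lit 320) .nil)))))))) (.g (nat_lit 7) .nil .nil)))))) 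
(.nd (nat_lit 3) (.nd (nat_lit 4) (.nd (nat_lit 5) 
(.lf (nat_lit 21383) (.g (nat_lit 5445) (.e (nat_lit 1182) (nat_lit 87) (.e (nat_lit 57479) (nat_lit 28) (.e (nat_lit 557100) (nat_lit 13) (.e (nat_lit 172106) (nat_lit 10) (.e (nat_lit 434231) (nat_lit 23) (.e (nat_lit 532544) (nat_lit 10) (.e (nat_lit 344097) (nat_lit 18) (.e (nat_lit 5907) (nat_lit 320) .nil)))))))) (.g (nat_lit 8) .nil .nil))) 
(.lf (nat_lit 21415) (.g (nat_lit 2766) (.e (nat_lit 1182) (nat_lit 87) (.e (nat_lit 57479) (nat_lit 28) (.e (nat_lit 557101) (nat_lit 13) (.e (nat_lit 172097) (nat_lit 9) (.e (nat_lit 426140) (nat_lit 3) (.e (nat_lit 204855) (nat_lit 26) (.e (nat_lit 335901) (nat_lit 0) (.e (nat_lit 1095) (nat_lit 81) (.e (nat_lit 5902) (nat_lit 320) .nil))))))))) (.g (nat_lit 4) .nil .nil)))) (.nd (nat_lit 5) 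
(.lf (nat_lit 21399) (.g (nat_lit 2494) (.e (nat_lit 1182) (nat_lit 87) (.e (nat_lit 57479) (nat_lit 28) (.e (nat_lit 557101) (nat_lit 13) (.e (nat_lit 172097) (nat_lit 9) (.e (nat_lit 426125) (nat_lit 2) (.e (nat_lit 196666) (nat_lit 13) (.e (nat_lit 65550) (nat_lit 0) (.e (nat_lit 992) (nat_lit 81) (.e (nat_lit 5896) (nat_lit 320) .nil))))))))) (.g (nat_lit 4) .nil .nil))) 
(.lf (nat_lit 21431) (.g (nat_lit 4860) (.e (nat_lit 1182) (nat_lit 87) (.e (nat_lit 57479) (nat_lit 28) (.e (nat_lit 557101) (nat_lit 13) (.e (nat_lit 172097) (nat_lit 9) (.e (nat_lit 426140) (nat_lit 3) (.e (nat_lit 204862) (nat_lit 27) (.e (nat_lit 344097) (nat_lit 18) (.e (nat_lit 5906) (nat_lit 320) .nil)))))))) (.g (nat_lit 8) .nil .nil))))) (.nd (nat_lit 4) (.nd (nat_lit 5) 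
(.lf (nat_lit 21391) (.g (nat_lit 3875) (.e (nat_lit 1182) (nat_lit 87) (.e (nat_lit 57479) (nat_lit 28) (.e (nat_lit 557100) (nat_lit 13) (.e (nat_lit 172113) (nat_lit 10) (.e (nat_lit 434245) (nat_lit 28) .nil))))) .nil)) 
(.lf (nat_lit 21423) (.g (nat_lit 2776) (.e (nat_lit 1182) (nat_lit 87) (.e (nat_lit 57479) (nat_lit 28) (.e (nat_lit 557101) (nat_lit 13) (.e (nat_lit 172097) (nat_lit 9) (.e (nat_lit 426140) (nat_lit 3) (.e (nat_lit 204857) (nat_lit 26) (.e (nat_lit 335997) (nat_lit 1) (.e (nat_lit 57872) (nat_lit 264) .nil)))))))) (.g (nat_lit 4) .nil .nil)))) (.nd (nat_lit 5) 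
(.lf (nat_lit 21407) (.g (nat_lit 4640) (.e (nat_lit 1182) (nat_lit 87) (.e (nat_lit 57479) (nat_lit 28) (.e (nat_lit 557101) (nat_lit 13) (.e (nat_lit 172097) (nat_lit 9) (.e (nat_lit 426125) (nat_lit 2) (.e (nat_lit 196666) (nat_lit 13) (.e (nat_lit 65565) (nat_lit 1) (.e (nat_lit 57870) (nat_lit 264) .nil)))))))) (.g (nat_lit 8) .nil .nil))) 
(.lf (nat_lit 21439) (.g (nat_lit 2416) (.e (nat_lit 1182) (nat_lit 87) (.e (nat_lit 57479) (nat_lit 28) (.e (nat_lit 557101) (nat_lit 13) (.e (nat_lit 172097) (nat_lit 9) (.e (nat_lit 426140) (nat_lit 3) (.e (nat_lit 204872) (nat_lit 30) (.e (nat_lit 368662) (nat_lit 18) (.e (nat_lit 5907) (nat_lit 320) .nil)))))))) (.g (nat_lit 4) .nil .nil)))))))))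

noncomputable def tv301 : DT := (.nd (nat_lit 0) (.nd (nat_lit 1) (.nd (nat_lit 2) (.nd (nat_lit 3) (.nd (nat_lit 4) (.nd (nat_lit 5) 
(.lf (nat_lit 21440) (.g (nat_lit 2147) (.e (nat_lit 1182) (nat_lit 87) (.e (nat_lit 57479) (nat_lit 28) (.e (nat_lit 557101) (nat_lit 13) (.e (nat_lit 172115) (nat_lit 10) (.e (nat_lit 434231) (nat_lit 23) .nil))))) .nil)) 
(.lf (nat_lit 21472) (.g (nat_lit 2220) (.e (nat_lit 1182) (nat_lit 87) (.e (nat_lit 57479) (nat_lit 28) (.e (nat_lit 557101) (nat_lit 13) (.e (nat_lit 172115) (nat_lit 10) (.e (nat_lit 434238) (nat_lit 25) .nil))))) .nil))) (.nd (nat_lit 5) 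
(.lf (nat_lit 21456) (.g (nat_lit 4393) (.e (nat_lit 1182) (nat_lit 87) (.e (nat_lit 57479) (nat_lit 28) (.e (nat_lit 557101) (nat_lit 13) (.e (nat_lit 172115) (nat_lit 10) (.e (nat_lit 434231) (nat_lit 23) (.e (nat_lit 532544) (nat_lit 10) (.e (nat_lit 344097) (nat_lit 18) (.e (nat_lit 5905) (nat_lit 320) .nil)))))))) (.g (nat_lit 6) .nil .nil))) 
(.lf (nat_lit 21488) (.g (nat_lit 2638) (.e (nat_lit 1182) (nat_lit 87) (.e (nat_lit 57479) (nat_lit 28) (.e (nat_lit 557103) (nat_lit 14) (.e (nat_lit 180250) (nat_lit 10) (.e (nat_lit 573484) (nat_lit 13) (.e (nat_lit 65571) (nat_lit 3) (.e (nat_lit 98334) (nat_lit 18) (.e (nat_lit 164164) (nat_lit 152) .nil)))))))) (.g (nat_lit 4) .nil .nil))))) (.nd (nat_lit 4) (.nd (nat_lit 5) 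
(.lf (nat_lit 21448) (.g (nat_lit 3337) (.e (nat_lit 1182) (nat_lit 87) (.e (nat_lit 57479) (nat_lit 28) (.e (nat_lit 557101) (nat_lit 13) (.e (nat_lit 172115) (nat_lit 10) (.e (nat_lit 434231) (nat_lit 23) (.e (nat_lit 532536) (nat_lit 9) (.e (nat_lit 335997) (nat_lit 1) (.e (nat_lit 57870) (nat_lit 264) .nil)))))))) (.g (nat_lit 5) .nil .nil))) 
(.lf (nat_lit 21480) (.g (nat_lit 1449) (.e (nat_lit 1182) (nat_lit 87) (.e (nat_lit 57479) (nat_lit 28) (.e (nat_lit 557103) (nat_lit 14) (.e (nat_lit 180250) (nat_lit 10) .nil)))) .nil))) (.nd (nat_lit 5) 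
(.lf (nat_lit 21464) (.g (nat_lit 3278) (.e (nat_lit 1182) (nat_lit 87) (.e (nat_lit 57479) (nat_lit 28) (.e (nat_lit 557101) (nat_lit 13) (.e (nat_lit 172115) (nat_lit 10) (.e (nat_lit 434231) (nat_lit 23) (.e (nat_lit 532554) (nat_lit 13) (.e (nat_lit 368662) (nat_lit 18) (.e (nat_lit 5902) (nat_lit 320) .nil)))))))) (.g (nat_lit 5) .nil .nil))) 
(.lf (nat_lit 21496) (.g (nat_lit 5563) (.e (nat_lit 1182) (nat_lit 87) (.e (nat_lit 57479) (nat_lit 28) (.e (nat_lit 557103) (nat_lit 14) (.e (nat_lit 180250) (nat_lit 10) (.e (nat_lit 573487) (nat_lit 14) (.e (nat_lit 73746) (nat_lit 3) (.e (nat_lit 516117) (nat_lit 1) (.e (nat_lit 164166) (nat_lit 152) .nil)))))))) (.g (nat_lit 0) .nil .nil)))))) 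
(.nd (nat_lit 3) (.nd (nat_lit 4) (.nd (nat_lit 5) 
(.lf (nat_lit 21444) (.g (nat_lit 4682) (.e (nat_lit 1182) (nat_lit 87) (.e (nat_lit 57479) (nat_lit 28) (.e (nat_lit 557101) (nat_lit 13) (.e (nat_lit 172115) (nat_lit 10) (.e (nat_lit 434231) (nat_lit 23) (.e (nat_lit 532527) (nat_lit 9) (.e (nat_lit 335997) (nat_lit 1) (.e (nat_lit 57872) (nat_lit 264) .nil)))))))) (.g (nat_lit 8) .nil .nil))) 
(.lf (nat_lit 21476) (.g (nat_lit 4608) (.e (nat_lit 1182) (nat_lit 87) (.e (nat_lit 57479) (nat_lit 28) (.e (nat_lit 557101) (nat_lit 13) (.e (nat_lit 172115) (nat_lit 10) (.e (nat_lit 434244) (nat_lit 28) (.e (nat_lit 573450) (nat_lit 9) (.e (nat_lit 452) (nat_lit 33) (.e (nat_lit 434209) (nat_lit 18) (.e (nat_lit 4606) (nat_lit 269) .nil))))))))) (.g (nat_lit 7) .nil .nil)))) (.nd (nat_lit 5) 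
(.lf (nat_lit 21460) (.g (nat_lit 2581) (.e (nat_lit 1182) (nat_lit 87) (.e (nat_lit 57479) (nat_lit 28) (.e (nat_lit 557101) (nat_lit 13) (.e (nat_lit 172115) (nat_lit 10) (.e (nat_lit 434231) (nat_lit 23) (.e (nat_lit 532552) (nat_lit 13) (.e (nat_lit 368662) (nat_lit 18) (.e (nat_lit 5906) (nat_lit 320) .nil)))))))) (.g (nat_lit 4) .nil .nil))) 
(.lf (nat_lit 21492) (.g (nat_lit 3213) (.e (nat_lit 1182) (nat_lit 87) (.e (nat_lit 57479) (nat_lit 28) (.e (nat_lit 557103) (nat_lit 14) (.e (nat_lit 180250) (nat_lit 10) (.e (nat_lit 573485) (nat_lit 13) (.e (nat_lit 65570) (nat_lit 3) (.e (nat_lit 98334) (nat_lit 18) (.e (nat_lit 164166) (nat_lit 152) .nil)))))))) (.g (nat_lit 5) .nil .nil))))) (.nd (nat_lit 4) (.nd (nat_lit 5) 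
(.lf (nat_lit 21452) (.g (nat_lit 4301) (.e (nat_lit 1182) (nat_lit 87) (.e (nat_lit 57479) (nat_lit 28) (.e (nat_lit 557101) (nat_lit 13) (.e (nat_lit 172115) (nat_lit 10) (.e (nat_lit 434231) (nat_lit 23) (.e (nat_lit 532543) (nat_lit 10) (.e (nat_lit 344090) (nat_lit 18) (.e (nat_lit 5896) (nat_lit 320) .nil)))))))) (.g (nat_lit 6) .nil .nil))) 
(.lf (nat_lit 21484) (.g (nat_lit 3275) (.e (nat_lit 1182) (nat_lit 87) (.e (nat_lit 57479) (nat_lit 28) (.e (nat_lit 557103) (nat_lit 14) (.e (nat_lit 180250) (nat_lit 10) (.e (nat_lit 573482) (nat_lit 13) (.e (nat_lit 65570) (nat_lit 3) (.e (nat_lit 98334) (nat_lit 18) (.e (nat_lit 164166) (nat_lit 152) .nil)))))))) (.g (nat_lit 5) .nil .nil)))) (.nd (nat_lit 5) 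
(.lf (nat_lit 21468) (.g (nat_lit 2262) (.e (nat_lit 1182) (nat_lit 87) (.e (nat_lit 57479) (nat_lit 28) (.e (nat_lit 557101) (nat_lit 13) (.e (nat_lit 172115) (nat_lit 10) (.e (nat_lit 434231) (nat_lit 23) (.e (nat_lit 532555) (nat_lit 13) (.e (nat_lit 368662) (nat_lit 18) (.e (nat_lit 5905) (nat_lit 320) .nil)))))))) (.g (nat_lit 4) .nil .nil))) 
(.lf (nat_lit 21500) (.g (nat_lit 2417) (.e (nat_lit 1182) (nat_lit 87) (.e (nat_lit 57479) (nat_lit 28) (.e (nat_lit 557105) (nat_lit 14) (.e (nat_lit 180250) (nat_lit 10) (.e (nat_lit 573484) (nat_lit 13) .nil))))) .nil)))))) (.nd (nat_lit 2) (.nd (nat_lit 3) (.nd (nat_lit 4) (.nd (nat_lit 5) 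
(.lf (nat_lit 21442) (.g (nat_lit 4552) (.e (nat_lit 1182) (nat_lit 87) (.e (nat_lit 57479) (nat_lit 28) (.e (nat_lit 557101) (nat_lit 13) (.e (nat_lit 172115) (nat_lit 10) (.e (nat_lit 434231) (nat_lit 23) (.e (nat_lit 532527) (nat_lit 9) (.e (nat_lit 335997) (nat_lit 1) (.e (nat_lit 57870) (nat_lit 264) .nil)))))))) (.g (nat_lit 7) .nil .nil))) 
(.lf (nat_lit 21474) (.g (nat_lit 2330) (.e (nat_lit 1182) (nat_lit 87) (.e (nat_lit 57479) (nat_lit 28) (.e (nat_lit 557101) (nat_lit 13) (.e (nat_lit 172115) (nat_lit 10) (.e (nat_lit 434244) (nat_lit 28) (.e (nat_lit 573450) (nat_lit 9) (.e (nat_lit 450) (nat_lit 33) (.e (nat_lit 434209) (nat_lit 18) (.e (nat_lit 4607) (nat_lit 269) .nil))))))))) (.g (nat_lit 4) .nil .nil)))) (.nd (nat_lit 5) 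
(.lf (nat_lit 21458) (.g (nat_lit 5498) (.e (nat_lit 1182) (nat_lit 87) (.e (nat_lit 57479) (nat_lit 28) (.e (nat_lit 557101) (nat_lit 13) (.e (nat_lit 172115) (nat_lit 10) (.e (nat_lit 434231) (nat_lit 23) (.e (nat_lit 532544) (nat_lit 10) (.e (nat_lit 344097) (nat_lit 18) (.e (nat_lit 5907) (nat_lit 320) .nil)))))))) (.g (nat_lit 8) .nil .nil))) 
(.lf (nat_lit 21490) (.g (nat_lit 2981) (.e (nat_lit 1182) (nat_lit 87) (.e (nat_lit 57479) (nat_lit 28) (.e (nat_lit 557103) (nat_lit 14) (.e (nat_lit 180250) (nat_lit 10) (.e (nat_lit 573485) (nat_lit 13) (.e (nat_lit 65569) (nat_lit 3) (.e (nat_lit 98334) (nat_lit 18) (.e (nat_lit 164164) (nat_lit 152) .nil)))))))) (.g (nat_lit 4) .nil .nil))))) (.nd (nat_lit 4) (.nd (nat_lit 5) 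
(.lf (nat_lit 21450) (.g (nat_lit 2460) (.e (nat_lit 1182) (nat_lit 87) (.e (nat_lit 57479) (nat_lit 28) (.e (nat_lit 557101) (nat_lit 13) (.e (nat_lit 172115) (nat_lit 10) (.e (nat_lit 434231) (nat_lit 23) (.e (nat_lit 532537) (nat_lit 9) (.e (nat_lit 335997) (nat_lit 1) (.e (nat_lit 57871) (nat_lit 264) .nil)))))))) (.g (nat_lit 4) .nil .nil))) 
(.lf (nat_lit 21482) (.g (nat_lit 3289) (.e (nat_lit 1182) (nat_lit 87) (.e (nat_lit 57479) (nat_lit 28) (.e (nat_lit 557103) (nat_lit 14) (.e (nat_lit 180250) (nat_lit 10) (.e (nat_lit 573482) (nat_lit 13) (.e (nat_lit 65569) (nat_lit 3) (.e (nat_lit 98334) (nat_lit 18) (.e (nat_lit 164164) (nat_lit 152) .nil)))))))) (.g (nat_lit 5) .nil .nil)))) (.nd (nat_lit 5) 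
(.lf (nat_lit 21466) (.g (nat_lit 5063) (.e (nat_lit 1182) (nat_lit 87) (.e (nat_lit 57479) (nat_lit 28) (.e (nat_lit 557101) (nat_lit 13) (.e (nat_lit 172115) (nat_lit 10) (.e (nat_lit 434231) (nat_lit 23) (.e (nat_lit 532554) (nat_lit 13) (.e (nat_lit 368662) (nat_lit 18) (.e (nat_lit 5906) (nat_lit 320) .nil)))))))) (.g (nat_lit 7) .nil .nil))) 
(.lf (nat_lit 21498) (.g (nat_lit 3778) (.e (nat_lit 1182) (nat_lit 87) (.e (nat_lit 57479) (nat_lit 28) (.e (nat_lit 557103) (nat_lit 14) (.e (nat_lit 180250) (nat_lit 10) (.e (nat_lit 573487) (nat_lit 14) (.e (nat_lit 73746) (nat_lit 3) (.e (nat_lit 516120) (nat_lit 1) (.e (nat_lit 164167) (nat_lit 152) .nil)))))))) (.g (nat_lit 5) .nil .nil)))))) 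
(.nd (nat_lit 3) (.nd (nat_lit 4) (.nd (nat_lit 5) 
(.lf (nat_lit 21446) (.g (nat_lit 4306) (.e (nat_lit 1182) (nat_lit 87) (.e (nat_lit 57479) (nat_lit 28) (.e (nat_lit 557101) (nat_lit 13) (.e (nat_lit 172115) (nat_lit 10) (.e (nat_lit 434231) (nat_lit 23) (.e (nat_lit 532535) (nat_lit 9) (.e (nat_lit 335985) (nat_lit 1) (.e (nat_lit 57871) (nat_lit 264) .nil)))))))) (.g (nat_lit 6) .nil .nil))) 
(.lf (nat_lit 21478) (.g (nat_lit 4634) (.e (nat_lit 1182) (nat_lit 87) (.e (nat_lit 57479) (nat_lit 28) (.e (nat_lit 557101) (nat_lit 13) (.e (nat_lit 172115) (nat_lit 10) (.e (nat_lit 434244) (nat_lit 28) (.e (nat_lit 573471) (nat_lit 11) (.e (nat_lit 16405) (nat_lit 1) (.e (nat_lit 164424) (nat_lit 272) .nil)))))))) (.g (nat_lit 6) .nil .nil)))) (.nd (nat_lit 5) 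
(.lf (nat_lit 21462) (.g (nat_lit 2472) (.e (nat_lit 1182) (nat_lit 87) (.e (nat_lit 57479) (nat_lit 28) (.e (nat_lit 557101) (nat_lit 13) (.e (nat_lit 172115) (nat_lit 10) (.e (nat_lit 434231) (nat_lit 23) (.e (nat_lit 532553) (nat_lit 13) (.e (nat_lit 368662) (nat_lit 18) (.e (nat_lit 5905) (nat_lit 320) .nil)))))))) (.g (nat_lit 4) .nil .nil))) 
(.lf (nat_lit 21494) (.g (nat_lit 3210) (.e (nat_lit 1182) (nat_lit 87) (.e (nat_lit 57479) (nat_lit 28) (.e (nat_lit 557103) (nat_lit 14) (.e (nat_lit 180250) (nat_lit 10) (.e (nat_lit 573487) (nat_lit 14) (.e (nat_lit 73746) (nat_lit 3) (.e (nat_lit 516117) (nat_lit 1) (.e (nat_lit 164147) (nat_lit 152) .nil)))))))) (.g (nat_lit 5) .nil .nil))))) (.nd (nat_lit 4) (.nd (nat_lit 5) 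
(.lf (nat_lit 21454) (.g (nat_lit 4770) (.e (nat_lit 1182) (nat_lit 87) (.e (nat_lit 57479) (nat_lit 28) (.e (nat_lit 557101) (nat_lit 13) (.e (nat_lit 172115) (nat_lit 10) (.e (nat_lit 434231) (nat_lit 23) (.e (nat_lit 532543) (nat_lit 10) (.e (nat_lit 344097) (nat_lit 18) (.e (nat_lit 5906) (nat_lit 320) .nil)))))))) (.g (nat_lit 8) .nil .nil))) 
(.lf (nat_lit 21486) (.g (nat_lit 4017) (.e (nat_lit 1182) (nat_lit 87) (.e (nat_lit 57479) (nat_lit 28) (.e (nat_lit 557103) (nat_lit 14) (.e (nat_lit 180250) (nat_lit 10) (.e (nat_lit 573484) (nat_lit 13) (.e (nat_lit 65569) (nat_lit 3) (.e (nat_lit 98334) (nat_lit 18) (.e (nat_lit 164164) (nat_lit 152) .nil)))))))) (.g (nat_lit 5) .nil .nil)))) (.nd (nat_lit 5) 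
(.lf (nat_lit 21470) (.g (nat_lit 2538) (.e (nat_lit 1182) (nat_lit 87) (.e (nat_lit 57479) (nat_lit 28) (.e (nat_lit 557101) (nat_lit 13) (.e (nat_lit 172115) (nat_lit 10) (.e (nat_lit 434231) (nat_lit 23) (.e (nat_lit 532556) (nat_lit 13) (.e (nat_lit 368662) (nat_lit 18) (.e (nat_lit 5906) (nat_lit 320) .nil)))))))) (.g (nat_lit 4) .nil .nil))) 
(.lf (nat_lit 21502) (.g (nat_lit 4536) (.e (nat_lit 1182) (nat_lit 87) (.e (nat_lit 57479) (nat_lit 28) (.e (nat_lit 557105) (nat_lit 14) (.e (nat_lit 180251) (nat_lit 10) (.e (nat_lit 573484) (nat_lit 13) (.e (nat_lit 65569) (nat_lit 3) (.e (nat_lit 98334) (nat_lit 18) (.e (nat_lit 164164) (nat_lit 152) .nil)))))))) (.g (nat_lit 6) .nil .nil)))))))) 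
(.nd (nat_lit 1) (.nd (nat_lit 2) (.nd (nat_lit 3) (.nd (nat_lit 4) (.nd (nat_lit 5) 
(.lf (nat_lit 21441) (.g (nat_lit 2267) (.e (nat_lit 1182) (nat_lit 87) (.e (nat_lit 57479) (nat_lit 28) (.e (nat_lit 557101) (nat_lit 13) (.e (nat_lit 172115) (nat_lit 10) (.e (nat_lit 434231) (nat_lit 23) (.e (nat_lit 532481) (nat_lit 0) (.e (nat_lit 6481) (nat_lit 343) (.e (nat_lit 1181) (nat_lit 87) (.e (nat_lit 57870) (nat_lit 264) .nil))))))))) (.g (nat_lit 4) .nil .nil))) 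
(.lf (nat_lit 21473) (.g (nat_lit 2505) (.e (nat_lit 1182) (nat_lit 87) (.e (nat_lit 57479) (nat_lit 28) (.e (nat_lit 557101) (nat_lit 13) (.e (nat_lit 172115) (nat_lit 10) (.e (nat_lit 434238) (nat_lit 25) (.e (nat_lit 548898) (nat_lit 14) (.e (nat_lit 2964) (nat_lit 185) (.e (nat_lit 434209) (nat_lit 18) (.e (nat_lit 4605) (nat_lit 269) .nil))))))))) (.g (nat_lit 4) .nil .nil)))) 
(.nd (nat_lit 5) 
(.lf (nat_lit 21457) (.g (nat_lit 5084) (.e (nat_lit 1182) (nat_lit 87) (.e (nat_lit 57479) (nat_lit 28) (.e (nat_lit 557101) (nat_lit 13) (.e (nat_lit 172115) (nat_lit 10) (.e (nat_lit 434231) (nat_lit 23) (.e (nat_lit 532544) (nat_lit 10) (.e (nat_lit 344097) (nat_lit 18) (.e (nat_lit 5906) (nat_lit 320) .nil)))))))) (.g (nat_lit 8) .nil .nil))) 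
(.lf (nat_lit 21489) (.g (nat_lit 3787) (.e (nat_lit 1182) (nat_lit 87) (.e (nat_lit 57479) (nat_lit 28) (.e (nat_lit 557103) (nat_lit 14) (.e (nat_lit 180250) (nat_lit 10) (.e (nat_lit 573484) (nat_lit 13) (.e (nat_lit 65571) (nat_lit 3) (.e (nat_lit 98334) (nat_lit 18) (.e (nat_lit 164166) (nat_lit 152) .nil)))))))) (.g (nat_lit 5) .nil .nil))))) (.nd (nat_lit 4) (.nd (nat_lit 5) 
(.lf (nat_lit 21449) (.g (nat_lit 3406) (.e (nat_lit 1182) (nat_lit 87) (.e (nat_lit 57479) (nat_lit 28) (.e (nat_lit 557101) (nat_lit 13) (.e (nat_lit 172115) (nat_lit 10) (.e (nat_lit 434231) (nat_lit 23) (.e (nat_lit 532536) (nat_lit 9) (.e (nat_lit 335997) (nat_lit 1) (.e (nat_lit 57872) (nat_lit 264) .nil)))))))) (.g (nat_lit 5) .nil .nil))) 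
(.lf (nat_lit 21481) (.g (nat_lit 2166) (.e (nat_lit 1182) (nat_lit 87) (.e (nat_lit 57479) (nat_lit 28) (.e (nat_lit 557103) (nat_lit 14) (.e (nat_lit 180250) (nat_lit 10) (.e (nat_lit 573481) (nat_lit 13) (.e (nat_lit 65569) (nat_lit 3) (.e (nat_lit 98334) (nat_lit 18) (.e (nat_lit 164166) (nat_lit 152) .nil)))))))) (.g (nat_lit 4) .nil .nil)))) (.nd (nat_lit 5) 
(.lf (nat_lit 21465) (.g (nat_lit 3528) (.e (nat_lit 1182) (nat_lit 87) (.e (nat_lit 57479) (nat_lit 28) (.e (nat_lit 557101) (nat_lit 13) (.e (nat_lit 172115) (nat_lit 10) (.e (nat_lit 434231) (nat_lit 23) (.e (nat_lit 532554) (nat_lit 13) (.e (nat_lit 368662) (nat_lit 18) (.e (nat_lit 5905) (nat_lit 320) .nil)))))))) (.g (nat_lit 5) .nil .nil))) 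
(.lf (nat_lit 21497) (.g (nat_lit 5527) (.e (nat_lit 1182) (nat_lit 87) (.e (nat_lit 57479) (nat_lit 28) (.e (nat_lit 557103) (nat_lit 14) (.e (nat_lit 180250) (nat_lit 10) (.e (nat_lit 573487) (nat_lit 14) (.e (nat_lit 73746) (nat_lit 3) (.e (nat_lit 516120) (nat_lit 1) (.e (nat_lit 164166) (nat_lit 152) .nil)))))))) (.g (nat_lit 8) .nil .nil)))))) 
(.nd (nat_lit 3) (.nd (nat_lit 4) (.nd (nat_lit 5) 
(.lf (nat_lit 21445) (.g (nat_lit 2687) (.e (nat_lit 1182) (nat_lit 87) (.e (nat_lit 57479) (nat_lit 28) (.e (nat_lit 557101) (nat_lit 13) (.e (nat_lit 172115) (nat_lit 10) (.e (nat_lit 434231) (nat_lit 23) (.e (nat_lit 532535) (nat_lit 9) (.e (nat_lit 335928) (nat_lit 0) (.e (nat_lit 1023) (nat_lit 81) (.e (nat_lit 5906) (nat_lit 320) .nil))))))))) (.g (nat_lit 4) .nil .nil))) 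
(.lf (nat_lit 21477) (.g (nat_lit 4808) (.e (nat_lit 1182) (nat_lit 87) (.e (nat_lit 57479) (nat_lit 28) (.e (nat_lit 557101) (nat_lit 13) (.e (nat_lit 172115) (nat_lit 10) (.e (nat_lit 434244) (nat_lit 28) (.e (nat_lit 573471) (nat_lit 11) (.e (nat_lit 16405) (nat_lit 1) (.e (nat_lit 164422) (nat_lit 272) .nil)))))))) (.g (nat_lit 7) .nil .nil)))) (.nd (nat_lit 5) 
(.lf (nat_lit 21461) (.g (nat_lit 2345) (.e (nat_lit 1182) (nat_lit 87) (.e (nat_lit 57479) (nat_lit 28) (.e (nat_lit 557101) (nat_lit 13) (.e (nat_lit 172115) (nat_lit 10) (.e (nat_lit 434231) (nat_lit 23) (.e (nat_lit 532553) (nat_lit 13) (.e (nat_lit 368662) (nat_lit 18) (.e (nat_lit 5902) (nat_lit 320) .nil)))))))) (.g (nat_lit 4) .nil .nil))) 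
(.lf (nat_lit 21493) (.g (nat_lit 3195) (.e (nat_lit 1182) (nat_lit 87) (.e (nat_lit 57479) (nat_lit 28) (.e (nat_lit 557103) (nat_lit 14) (.e (nat_lit 180250) (nat_lit 10) (.e (nat_lit 573485) (nat_lit 13) (.e (nat_lit 65571) (nat_lit 3) (.e (nat_lit 98334) (nat_lit 18) (.e (nat_lit 164166) (nat_lit 152) .nil)))))))) (.g (nat_lit 5) .nil .nil))))) (.nd (nat_lit 4) (.nd (nat_lit 5) 
(.lf (nat_lit 21453) (.g (nat_lit 4158) (.e (nat_lit 1182) (nat_lit 87) (.e (nat_lit 57479) (nat_lit 28) (.e (nat_lit 557101) (nat_lit 13) (.e (nat_lit 172115) (nat_lit 10) (.e (nat_lit 434231) (nat_lit 23) (.e (nat_lit 532543) (nat_lit 10) (.e (nat_lit 344097) (nat_lit 18) (.e (nat_lit 5905) (nat_lit 320) .nil)))))))) (.g (nat_lit 6) .nil .nil))) 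
(.lf (nat_lit 21485) (.g (nat_lit 3464) (.e (nat_lit 1182) (nat_lit 87) (.e (nat_lit 57479) (nat_lit 28) (.e (nat_lit 557103) (nat_lit 14) (.e (nat_lit 180250) (nat_lit 10) (.e (nat_lit 573482) (nat_lit 13) (.e (nat_lit 65571) (nat_lit 3) (.e (nat_lit 98334) (nat_lit 18) (.e (nat_lit 164166) (nat_lit 152) .nil)))))))) (.g (nat_lit 5) .nil .nil)))) (.nd (nat_lit 5) 
(.lf (nat_lit 21469) (.g (nat_lit 3681) (.e (nat_lit 1182) (nat_lit 87) (.e (nat_lit 57479) (nat_lit 28) (.e (nat_lit 557101) (nat_lit 13) (.e (nat_lit 172115) (nat_lit 10) (.e (nat_lit 434231) (nat_lit 23) (.e (nat_lit 532555) (nat_lit 13) (.e (nat_lit 368662) (nat_lit 18) (.e (nat_lit 5906) (nat_lit 320) .nil)))))))) (.g (nat_lit 5) .nil .nil))) 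
(.lf (nat_lit 21501) (.g (nat_lit 2055) (.e (nat_lit 1182) (nat_lit 87) (.e (nat_lit 57479) (nat_lit 28) (.e (nat_lit 557105) (nat_lit 14) (.e (nat_lit 180251) (nat_lit 10) (.e (nat_lit 573479) (nat_lit 13) (.e (nat_lit 65569) (nat_lit 3) (.e (nat_lit 98334) (nat_lit 18) (.e (nat_lit 164164) (nat_lit 152) .nil)))))))) (.g (nat_lit 4) .nil .nil))))))) 
(.nd (nat_lit 2) (.nd (nat_lit 3) (.nd (nat_lit 4) (.nd (nat_lit 5) 
(.lf (nat_lit 21443) (.g (nat_lit 4246) (.e (nat_lit 1182) (nat_lit 87) (.e (nat_lit 57479) (nat_lit 28) (.e (nat_lit 557101) (nat_lit 13) (.e (nat_lit 172115) (nat_lit 10) (.e (nat_lit 434231) (nat_lit 23) (.e (nat_lit 532527) (nat_lit 9) (.e (nat_lit 335997) (nat_lit 1) (.e (nat_lit 57871) (nat_lit 264) .nil)))))))) (.g (nat_lit 7) .nil .nil))) 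
(.lf (nat_lit 21475) (.g (nat_lit 2303) (.e (nat_lit 1182) (nat_lit 87) (.e (nat_lit 57479) (nat_lit 28) (.e (nat_lit 557101) (nat_lit 13) (.e (nat_lit 172115) (nat_lit 10) (.e (nat_lit 434244) (nat_lit 28) (.e (nat_lit 573450) (nat_lit 9) (.e (nat_lit 452) (nat_lit 33) (.e (nat_lit 434200) (nat_lit 18) (.e (nat_lit 4598) (nat_lit 269) .nil))))))))) (.g (nat_lit 4) .nil .nil)))) (.nd (nat_lit 5) 
(.lf (nat_lit 21459) (.g (nat_lit 3463) (.e (nat_lit 1182) (nat_lit 87) (.e (nat_lit 57479) (nat_lit 28) (.e (nat_lit 557101) (nat_lit 13) (.e (nat_lit 172115) (nat_lit 10) (.e (nat_lit 434231) (nat_lit 23) (.e (nat_lit 532545) (nat_lit 10) (.e (nat_lit 344097) (nat_lit 18) (.e (nat_lit 5907) (nat_lit 320) .nil)))))))) (.g (nat_lit 5) .nil .nil))) 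
(.lf (nat_lit 21491) (.g (nat_lit 3837) (.e (nat_lit 1182) (nat_lit 87) (.e (nat_lit 57479) (nat_lit 28) (.e (nat_lit 557103) (nat_lit 14) (.e (nat_lit 180250) (nat_lit 10) (.e (nat_lit 573485) (nat_lit 13) (.e (nat_lit 65569) (nat_lit 3) (.e (nat_lit 98334) (nat_lit 18) (.e (nat_lit 164166) (nat_lit 152) .nil)))))))) (.g (nat_lit 6) .nil .nil))))) (.nd (nat_lit 4) (.nd (nat_lit 5) 
(.lf (nat_lit 21451) (.g (nat_lit 2544) (.e (nat_lit 1182) (nat_lit 87) (.e (nat_lit 57479) (nat_lit 28) (.e (nat_lit 557101) (nat_lit 13) (.e (nat_lit 172115) (nat_lit 10) (.e (nat_lit 434231) (nat_lit 23) (.e (nat_lit 540416) (nat_lit 9) (.e (nat_lit 335995) (nat_lit 1) (.e (nat_lit 57872) (nat_lit 264) .nil)))))))) (.g (nat_lit 4) .nil .nil))) 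
(.lf (nat_lit 21483) (.g (nat_lit 4145) (.e (nat_lit 1182) (nat_lit 87) (.e (nat_lit 57479) (nat_lit 28) (.e (nat_lit 557103) (nat_lit 14) (.e (nat_lit 180250) (nat_lit 10) (.e (nat_lit 573482) (nat_lit 13) (.e (nat_lit 65569) (nat_lit 3) (.e (nat_lit 98334) (nat_lit 18) (.e (nat_lit 164166) (nat_lit 152) .nil)))))))) (.g (nat_lit 6) .nil .nil)))) (.nd (nat_lit 5) 
(.lf (nat_lit 21467) (.g (nat_lit 5225) (.e (nat_lit 1182) (nat_lit 87) (.e (nat_lit 57479) (nat_lit 28) (.e (nat_lit 557101) (nat_lit 13) (.e (nat_lit 172115) (nat_lit 10) (.e (nat_lit 434231) (nat_lit 23) (.e (nat_lit 532554) (nat_lit 13) (.e (nat_lit 368662) (nat_lit 18) (.e (nat_lit 5907) (nat_lit 320) .nil)))))))) (.g (nat_lit 8) .nil .nil))) 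
(.lf (nat_lit 21499) (.g (nat_lit 2591) (.e (nat_lit 1182) (nat_lit 87) (.e (nat_lit 57479) (nat_lit 28) (.e (nat_lit 557103) (nat_lit 14) (.e (nat_lit 180285) (nat_lit 45) .nil)))) .nil))))) (.nd (nat_lit 3) (.nd (nat_lit 4) (.nd (nat_lit 5) 
(.lf (nat_lit 21447) (.g (nat_lit 2162) (.e (nat_lit 1182) (nat_lit 87) (.e (nat_lit 57479) (nat_lit 28) (.e (nat_lit 557101) (nat_lit 13) (.e (nat_lit 172115) (nat_lit 10) (.e (nat_lit 434231) (nat_lit 23) (.e (nat_lit 532535) (nat_lit 9) (.e (nat_lit 343808) (nat_lit 1) (.e (nat_lit 57873) (nat_lit 264) .nil)))))))) (.g (nat_lit 4) .nil .nil))) 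
(.lf (nat_lit 21479) (.g (nat_lit 774) (.e (nat_lit 1182) (nat_lit 87) (.e (nat_lit 57479) (nat_lit 28) (.e (nat_lit 557103) (nat_lit 14) .nil))) .nil))) (.nd (nat_lit 5) 
(.lf (nat_lit 21463) (.g (nat_lit 4277) (.e (nat_lit 1182) (nat_lit 87) (.e (nat_lit 57479) (nat_lit 28) (.e (nat_lit 557101) (nat_lit 13) (.e (nat_lit 172115) (nat_lit 10) (.e (nat_lit 434231) (nat_lit 23) (.e (nat_lit 532553) (nat_lit 13) (.e (nat_lit 368662) (nat_lit 18) (.e (nat_lit 5907) (nat_lit 320) .nil)))))))) (.g (nat_lit 6) .nil .nil))) 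
(.lf (nat_lit 21495) (.g (nat_lit 4264) (.e (nat_lit 1182) (nat_lit 87) (.e (nat_lit 57479) (nat_lit 28) (.e (nat_lit 557103) (nat_lit 14) (.e (nat_lit 180250) (nat_lit 10) (.e (nat_lit 573487) (nat_lit 14) (.e (nat_lit 73746) (nat_lit 3) (.e (nat_lit 516117) (nat_lit 1) (.e (nat_lit 164164) (nat_lit 152) .nil)))))))) (.g (nat_lit 6) .nil .nil))))) (.nd (nat_lit 4) (.nd (nat_lit 5) 
(.lf (nat_lit 21455) (.g (nat_lit 5218) (.e (nat_lit 1182) (nat_lit 87) (.e (nat_lit 57479) (nat_lit 28) (.e (nat_lit 557101) (nat_lit 13) (.e (nat_lit 172115) (nat_lit 10) (.e (nat_lit 434231) (nat_lit 23) (.e (nat_lit 532543) (nat_lit 10) (.e (nat_lit 344097) (nat_lit 18) (.e (nat_lit 5907) (nat_lit 320) .nil)))))))) (.g (nat_lit 8) .nil .nil))) 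
(.lf (nat_lit 21487) (.g (nat_lit 4872) (.e (nat_lit 1182) (nat_lit 87) (.e (nat_lit 57479) (nat_lit 28) (.e (nat_lit 557103) (nat_lit 14) (.e (nat_lit 180250) (nat_lit 10) (.e (nat_lit 573484) (nat_lit 13) (.e (nat_lit 65569) (nat_lit 3) (.e (nat_lit 98334) (nat_lit 18) (.e (nat_lit 164166) (nat_lit 152) .nil)))))))) (.g (nat_lit 6) .nil .nil)))) (.nd (nat_lit 5) 
(.lf (nat_lit 21471) (.g (nat_lit 2465) (.e (nat_lit 1182) (nat_lit 87) (.e (nat_lit 57479) (nat_lit 28) (.e (nat_lit 557101) (nat_lit 13) (.e (nat_lit 172115) (nat_lit 10) (.e (nat_lit 434231) (nat_lit 23) (.e (nat_lit 532556) (nat_lit 13) (.e (nat_lit 368662) (nat_lit 18) (.e (nat_lit 5907) (nat_lit 320) .nil)))))))) (.g (nat_lit 4) .nil .nil))) 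
(.lf (nat_lit 21503) (.g (nat_lit 5113) (.e (nat_lit 1182) (nat_lit 87) (.e (nat_lit 57479) (nat_lit 28) (.e (nat_lit 557105) (nat_lit 14) (.e (nat_lit 180251) (nat_lit 10) (.e (nat_lit 573484) (nat_lit 13) (.e (nat_lit 65569) (nat_lit 3) (.e (nat_lit 98334) (nat_lit 18) (.e (nat_lit 164166) (nat_lit 152) .nil)))))))) (.g (nat_lit 0) .nil .nil)))))))))

noncomputable def tv302 : DT := (.nd (nat_lit 0) (.nd (nat_lit 1) (.nd (nat_lit 2) (.nd (nat_lit 3) (.nd (nat_lit 4) (.nd (nat_lit 5) 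
(.lf (nat_lit 21504) (.g (nat_lit 1660) (.e (nat_lit 1182) (nat_lit 87) (.e (nat_lit 57479) (nat_lit 28) (.e (nat_lit 557105) (nat_lit 14) (.e (nat_lit 180251) (nat_lit 10) (.e (nat_lit 573485) (nat_lit 13) .nil))))) .nil)) 
(.lf (nat_lit 21536) (.g (nat_lit 5272) (.e (nat_lit 1182) (nat_lit 87) (.e (nat_lit 57479) (nat_lit 28) (.e (nat_lit 557105) (nat_lit 14) (.e (nat_lit 180252) (nat_lit 10) (.e (nat_lit 573487) (nat_lit 14) (.e (nat_lit 73747) (nat_lit 3) (.e (nat_lit 516119) (nat_lit 1) (.e (nat_lit 164164) (nat_lit 152) .nil)))))))) (.g (nat_lit 8) .nil .nil)))) (.nd (nat_lit 5) 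
(.lf (nat_lit 21520) (.g (nat_lit 2789) (.e (nat_lit 1182) (nat_lit 87) (.e (nat_lit 57479) (nat_lit 28) (.e (nat_lit 557105) (nat_lit 14) (.e (nat_lit 180252) (nat_lit 10) (.e (nat_lit 573481) (nat_lit 13) (.e (nat_lit 65568) (nat_lit 2) (.e (nat_lit 90165) (nat_lit 12) (.e (nat_lit 163853) (nat_lit 0) (.e (nat_lit 6315) (nat_lit 337) .nil))))))))) (.g (nat_lit 4) .nil .nil))) 
(.lf (nat_lit 21552) (.g (nat_lit 5785) (.e (nat_lit 1182) (nat_lit 87) (.e (nat_lit 57479) (nat_lit 28) (.e (nat_lit 557105) (nat_lit 14) (.e (nat_lit 180252) (nat_lit 10) (.e (nat_lit 573488) (nat_lit 14) (.e (nat_lit 73747) (nat_lit 3) (.e (nat_lit 516120) (nat_lit 1) (.e (nat_lit 164166) (nat_lit 152) .nil)))))))) (.g (nat_lit 8) .nil .nil))))) (.nd (nat_lit 4) (.nd (nat_lit 5) 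
(.lf (nat_lit 21512) (.g (nat_lit 2232) (.e (nat_lit 1182) (nat_lit 87) (.e (nat_lit 57479) (nat_lit 28) (.e (nat_lit 557105) (nat_lit 14) (.e (nat_lit 180252) (nat_lit 10) (.e (nat_lit 573480) (nat_lit 13) (.e (nat_lit 65568) (nat_lit 2) (.e (nat_lit 90165) (nat_lit 12) (.e (nat_lit 163853) (nat_lit 0) (.e (nat_lit 6314) (nat_lit 337) .nil))))))))) (.g (nat_lit 4) .nil .nil))) 
(.lf (nat_lit 21544) (.g (nat_lit 2193) (.e (nat_lit 1182) (nat_lit 87) (.e (nat_lit 57479) (nat_lit 28) (.e (nat_lit 557105) (nat_lit 14) (.e (nat_lit 180252) (nat_lit 10) (.e (nat_lit 573487) (nat_lit 14) (.e (nat_lit 73753) (nat_lit 8) (.e (nat_lit 557084) (nat_lit 10) (.e (nat_lit 8292) (nat_lit 51) (.e (nat_lit 6322) (nat_lit 337) .nil))))))))) (.g (nat_lit 4) .nil .nil)))) (.nd (nat_lit 5) 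
(.lf (nat_lit 21528) (.g (nat_lit 3181) (.e (nat_lit 1182) (nat_lit 87) (.e (nat_lit 57479) (nat_lit 28) (.e (nat_lit 557105) (nat_lit 14) (.e (nat_lit 180252) (nat_lit 10) (.e (nat_lit 573487) (nat_lit 14) (.e (nat_lit 73747) (nat_lit 3) (.e (nat_lit 516100) (nat_lit 0) (.e (nat_lit 2464) (nat_lit 157) (.e (nat_lit 6313) (nat_lit 337) .nil))))))))) (.g (nat_lit 5) .nil .nil))) 
(.lf (nat_lit 21560) (.g (nat_lit 4031) (.e (nat_lit 1182) (nat_lit 87) (.e (nat_lit 57479) (nat_lit 28) (.e (nat_lit 557105) (nat_lit 14) (.e (nat_lit 180252) (nat_lit 10) (.e (nat_lit 573489) (nat_lit 14) (.e (nat_lit 73748) (nat_lit 3) (.e (nat_lit 516119) (nat_lit 1) (.e (nat_lit 164163) (nat_lit 152) .nil)))))))) (.g (nat_lit 7) .nil .nil)))))) 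
(.nd (nat_lit 3) (.nd (nat_lit 4) (.nd (nat_lit 5) 
(.lf (nat_lit 21508) (.g (nat_lit 2059) (.e (nat_lit 1182) (nat_lit 87) (.e (nat_lit 57479) (nat_lit 28) (.e (nat_lit 557105) (nat_lit 14) (.e (nat_lit 180251) (nat_lit 10) (.e (nat_lit 573486) (nat_lit 14) (.e (nat_lit 73746) (nat_lit 3) (.e (nat_lit 516120) (nat_lit 1) (.e (nat_lit 164166) (nat_lit 152) .nil)))))))) (.g (nat_lit 4) .nil .nil))) 
(.lf (nat_lit 21540) (.g (nat_lit 5168) (.e (nat_lit 1182) (nat_lit 87) (.e (nat_lit 57479) (nat_lit 28) (.e (nat_lit 557105) (nat_lit 14) (.e (nat_lit 180252) (nat_lit 10) (.e (nat_lit 573487) (nat_lit 14) (.e (nat_lit 73747) (nat_lit 3) (.e (nat_lit 516120) (nat_lit 1) (.e (nat_lit 164167) (nat_lit 152) .nil)))))))) (.g (nat_lit 7) .nil .nil)))) (.nd (nat_lit 5) 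
(.lf (nat_lit 21524) (.g (nat_lit 2753) (.e (nat_lit 1182) (nat_lit 87) (.e (nat_lit 57479) (nat_lit 28) (.e (nat_lit 557105) (nat_lit 14) (.e (nat_lit 180252) (nat_lit 10) (.e (nat_lit 573481) (nat_lit 13) (.e (nat_lit 65571) (nat_lit 3) (.e (nat_lit 98333) (nat_lit 18) (.e (nat_lit 164165) (nat_lit 152) .nil)))))))) (.g (nat_lit 4) .nil .nil))) 
(.lf (nat_lit 21556) (.g (nat_lit 4516) (.e (nat_lit 1182) (nat_lit 87) (.e (nat_lit 57479) (nat_lit 28) (.e (nat_lit 557105) (nat_lit 14) (.e (nat_lit 180252) (nat_lit 10) (.e (nat_lit 573489) (nat_lit 14) (.e (nat_lit 73747) (nat_lit 3) (.e (nat_lit 516120) (nat_lit 1) (.e (nat_lit 164166) (nat_lit 152) .nil)))))))) (.g (nat_lit 8) .nil .nil))))) (.nd (nat_lit 4) (.nd (nat_lit 5) 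
(.lf (nat_lit 21516) (.g (nat_lit 2124) (.e (nat_lit 1182) (nat_lit 87) (.e (nat_lit 57479) (nat_lit 28) (.e (nat_lit 557105) (nat_lit 14) (.e (nat_lit 180252) (nat_lit 10) (.e (nat_lit 573480) (nat_lit 13) (.e (nat_lit 65571) (nat_lit 3) (.e (nat_lit 98325) (nat_lit 17) (.e (nat_lit 2478) (nat_lit 157) (.e (nat_lit 6314) (nat_lit 337) .nil))))))))) (.g (nat_lit 4) .nil .nil))) 
(.lf (nat_lit 21548) (.g (nat_lit 5418) (.e (nat_lit 1182) (nat_lit 87) (.e (nat_lit 57479) (nat_lit 28) (.e (nat_lit 557105) (nat_lit 14) (.e (nat_lit 180252) (nat_lit 10) (.e (nat_lit 573488) (nat_lit 14) (.e (nat_lit 73747) (nat_lit 3) (.e (nat_lit 516119) (nat_lit 1) (.e (nat_lit 164163) (nat_lit 152) .nil)))))))) (.g (nat_lit 8) .nil .nil)))) (.nd (nat_lit 5) 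
(.lf (nat_lit 21532) (.g (nat_lit 5289) (.e (nat_lit 1182) (nat_lit 87) (.e (nat_lit 57479) (nat_lit 28) (.e (nat_lit 557105) (nat_lit 14) (.e (nat_lit 180252) (nat_lit 10) (.e (nat_lit 573487) (nat_lit 14) (.e (nat_lit 73747) (nat_lit 3) (.e (nat_lit 516115) (nat_lit 1) (.e (nat_lit 164167) (nat_lit 152) .nil)))))))) (.g (nat_lit 7) .nil .nil))) 
(.lf (nat_lit 21564) (.g (nat_lit 4048) (.e (nat_lit 1182) (nat_lit 87) (.e (nat_lit 57479) (nat_lit 28) (.e (nat_lit 557105) (nat_lit 14) (.e (nat_lit 180252) (nat_lit 10) (.e (nat_lit 573489) (nat_lit 14) (.e (nat_lit 73748) (nat_lit 3) (.e (nat_lit 516120) (nat_lit 1) (.e (nat_lit 164167) (nat_lit 152) .nil)))))))) (.g (nat_lit 7) .nil .nil))))))) 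
(.nd (nat_lit 2) (.nd (nat_lit 3) (.nd (nat_lit 4) (.nd (nat_lit 5) 
(.lf (nat_lit 21506) (.g (nat_lit 1913) (.e (nat_lit 1182) (nat_lit 87) (.e (nat_lit 57479) (nat_lit 28) (.e (nat_lit 557105) (nat_lit 14) (.e (nat_lit 180251) (nat_lit 10) (.e (nat_lit 573485) (nat_lit 13) (.e (nat_lit 65570) (nat_lit 3) (.e (nat_lit 98325) (nat_lit 17) (.e (nat_lit 2458) (nat_lit 157) (.e (nat_lit 6313) (nat_lit 337) .nil))))))))) (.g (nat_lit 4) .nil .nil))) 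
(.lf (nat_lit 21538) (.g (nat_lit 2699) (.e (nat_lit 1182) (nat_lit 87) (.e (nat_lit 57479) (nat_lit 28) (.e (nat_lit 557105) (nat_lit 14) (.e (nat_lit 180252) (nat_lit 10) (.e (nat_lit 573487) (nat_lit 14) (.e (nat_lit 73747) (nat_lit 3) (.e (nat_lit 516119) (nat_lit 1) (.e (nat_lit 171776) (nat_lit 152) .nil)))))))) (.g (nat_lit 4) .nil .nil)))) (.nd (nat_lit 5) 
(.lf (nat_lit 21522) (.g (nat_lit 3866) (.e (nat_lit 1182) (nat_lit 87) (.e (nat_lit 57479) (nat_lit 28) (.e (nat_lit 557105) (nat_lit 14) (.e (nat_lit 180252) (nat_lit 10) (.e (nat_lit 573481) (nat_lit 13) (.e (nat_lit 65570) (nat_lit 3) (.e (nat_lit 98333) (nat_lit 18) (.e (nat_lit 164167) (nat_lit 152) .nil)))))))) (.g (nat_lit 5) .nil .nil))) 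
(.lf (nat_lit 21554) (.g (nat_lit 2888) (.e (nat_lit 1182) (nat_lit 87) (.e (nat_lit 57479) (nat_lit 28) (.e (nat_lit 557105) (nat_lit 14) (.e (nat_lit 180252) (nat_lit 10) (.e (nat_lit 573489) (nat_lit 14) (.e (nat_lit 73745) (nat_lit 3) (.e (nat_lit 516119) (nat_lit 1) (.e (nat_lit 164164) (nat_lit 152) .nil)))))))) (.g (nat_lit 5) .nil .nil))))) (.nd (nat_lit 4) (.nd (nat_lit 5) 
(.lf (nat_lit 21514) (.g (nat_lit 2660) (.e (nat_lit 1182) (nat_lit 87) (.e (nat_lit 57479) (nat_lit 28) (.e (nat_lit 557105) (nat_lit 14) (.e (nat_lit 180252) (nat_lit 10) (.e (nat_lit 573480) (nat_lit 13) (.e (nat_lit 65569) (nat_lit 3) (.e (nat_lit 98334) (nat_lit 18) (.e (nat_lit 164164) (nat_lit 152) .nil)))))))) (.g (nat_lit 5) .nil .nil))) 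
(.lf (nat_lit 21546) (.g (nat_lit 4838) (.e (nat_lit 1182) (nat_lit 87) (.e (nat_lit 57479) (nat_lit 28) (.e (nat_lit 557105) (nat_lit 14) (.e (nat_lit 180252) (nat_lit 10) (.e (nat_lit 573488) (nat_lit 14) (.e (nat_lit 73746) (nat_lit 3) (.e (nat_lit 516117) (nat_lit 1) (.e (nat_lit 164166) (nat_lit 152) .nil)))))))) (.g (nat_lit 8) .nil .nil)))) (.nd (nat_lit 5) 
(.lf (nat_lit 21530) (.g (nat_lit 2395) (.e (nat_lit 1182) (nat_lit 87) (.e (nat_lit 57479) (nat_lit 28) (.e (nat_lit 557105) (nat_lit 14) (.e (nat_lit 180252) (nat_lit 10) (.e (nat_lit 573487) (nat_lit 14) (.e (nat_lit 73747) (nat_lit 3) (.e (nat_lit 516106) (nat_lit 0) (.e (nat_lit 2478) (nat_lit 157) (.e (nat_lit 6315) (nat_lit 337) .nil))))))))) (.g (nat_lit 4) .nil .nil))) 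
(.lf (nat_lit 21562) (.g (nat_lit 3904) (.e (nat_lit 1182) (nat_lit 87) (.e (nat_lit 57479) (nat_lit 28) (.e (nat_lit 557105) (nat_lit 14) (.e (nat_lit 180252) (nat_lit 10) (.e (nat_lit 573489) (nat_lit 14) (.e (nat_lit 73748) (nat_lit 3) (.e (nat_lit 516119) (nat_lit 1) (.e (nat_lit 164167) (nat_lit 152) .nil)))))))) (.g (nat_lit 7) .nil .nil)))))) 
(.nd (nat_lit 3) (.nd (nat_lit 4) (.nd (nat_lit 5) 
(.lf (nat_lit 21510) (.g (nat_lit 2800) (.e (nat_lit 1182) (nat_lit 87) (.e (nat_lit 57479) (nat_lit 28) (.e (nat_lit 557105) (nat_lit 14) (.e (nat_lit 180251) (nat_lit 10) (.e (nat_lit 573487) (nat_lit 14) (.e (nat_lit 73746) (nat_lit 3) (.e (nat_lit 516120) (nat_lit 1) (.e (nat_lit 164147) (nat_lit 152) .nil)))))))) (.g (nat_lit 4) .nil .nil))) 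
(.lf (nat_lit 21542) (.g (nat_lit 2195) (.e (nat_lit 1182) (nat_lit 87) (.e (nat_lit 57479) (nat_lit 28) (.e (nat_lit 557105) (nat_lit 14) (.e (nat_lit 180252) (nat_lit 10) (.e (nat_lit 573487) (nat_lit 14) (.e (nat_lit 73753) (nat_lit 8) (.e (nat_lit 557084) (nat_lit 10) (.e (nat_lit 8285) (nat_lit 51) (.e (nat_lit 6322) (nat_lit 337) .nil))))))))) (.g (nat_lit 4) .nil .nil)))) (.nd (nat_lit 5) 
(.lf (nat_lit 21526) (.g (nat_lit 2144) (.e (nat_lit 1182) (nat_lit 87) (.e (nat_lit 57479) (nat_lit 28) (.e (nat_lit 557105) (nat_lit 14) (.e (nat_lit 180252) (nat_lit 10) (.e (nat_lit 573487) (nat_lit 14) .nil))))) .nil)) 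
(.lf (nat_lit 21558) (.g (nat_lit 2257) (.e (nat_lit 1182) (nat_lit 87) (.e (nat_lit 57479) (nat_lit 28) (.e (nat_lit 557105) (nat_lit 14) (.e (nat_lit 180252) (nat_lit 10) (.e (nat_lit 573489) (nat_lit 14) (.e (nat_lit 73748) (nat_lit 3) (.e (nat_lit 516115) (nat_lit 1) (.e (nat_lit 171776) (nat_lit 152) .nil)))))))) (.g (nat_lit 5) .nil .nil))))) (.nd (nat_lit 4) (.nd (nat_lit 5) 
(.lf (nat_lit 21518) (.g (nat_lit 4594) (.e (nat_lit 1182) (nat_lit 87) (.e (nat_lit 57479) (nat_lit 28) (.e (nat_lit 557105) (nat_lit 14) (.e (nat_lit 180252) (nat_lit 10) (.e (nat_lit 573480) (nat_lit 13) (.e (nat_lit 65571) (nat_lit 3) (.e (nat_lit 98334) (nat_lit 18) (.e (nat_lit 164166) (nat_lit 152) .nil)))))))) (.g (nat_lit 8) .nil .nil))) 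
(.lf (nat_lit 21550) (.g (nat_lit 5210) (.e (nat_lit 1182) (nat_lit 87) (.e (nat_lit 57479) (nat_lit 28) (.e (nat_lit 557105) (nat_lit 14) (.e (nat_lit 180252) (nat_lit 10) (.e (nat_lit 573488) (nat_lit 14) (.e (nat_lit 73747) (nat_lit 3) (.e (nat_lit 516119) (nat_lit 1) (.e (nat_lit 164167) (nat_lit 152) .nil)))))))) (.g (nat_lit 7) .nil .nil)))) (.nd (nat_lit 5) 
(.lf (nat_lit 21534) (.g (nat_lit 5229) (.e (nat_lit 1182) (nat_lit 87) (.e (nat_lit 57479) (nat_lit 28) (.e (nat_lit 557105) (nat_lit 14) (.e (nat_lit 180252) (nat_lit 10) (.e (nat_lit 573487) (nat_lit 14) (.e (nat_lit 73747) (nat_lit 3) (.e (nat_lit 516119) (nat_lit 1) (.e (nat_lit 164147) (nat_lit 152) .nil)))))))) (.g (nat_lit 8) .nil .nil))) 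
(.lf (nat_lit 21566) (.g (nat_lit 4863) (.e (nat_lit 1182) (nat_lit 87) (.e (nat_lit 57479) (nat_lit 28) (.e (nat_lit 557105) (nat_lit 14) (.e (nat_lit 180252) (nat_lit 10) (.e (nat_lit 573489) (nat_lit 14) (.e (nat_lit 73755) (nat_lit 8) (.e (nat_lit 557067) (nat_lit 9) (.e (nat_lit 2715) (nat_lit 171) (.e (nat_lit 229632) (nat_lit 226) .nil))))))))) (.g (nat_lit 9) .nil .nil)))))))) 
(.nd (nat_lit 1) (.nd (nat_lit 2) (.nd (nat_lit 3) (.nd (nat_lit 4) (.nd (nat_lit 5) 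
(.lf (nat_lit 21505) (.g (nat_lit 4134) (.e (nat_lit 1182) (nat_lit 87) (.e (nat_lit 57479) (nat_lit 28) (.e (nat_lit 557105) (nat_lit 14) (.e (nat_lit 180251) (nat_lit 10) (.e (nat_lit 573485) (nat_lit 13) (.e (nat_lit 65569) (nat_lit 3) (.e (nat_lit 98334) (nat_lit 18) (.e (nat_lit 164166) (nat_lit 152) .nil)))))))) (.g (nat_lit 8) .nil .nil))) 
(.lf (nat_lit 21537) (.g (nat_lit 5079) (.e (nat_lit 1182) (nat_lit 87) (.e (nat_lit 57479) (nat_lit 28) (.e (nat_lit 557105) (nat_lit 14) (.e (nat_lit 180252) (nat_lit 10) (.e (nat_lit 573487) (nat_lit 14) (.e (nat_lit 73747) (nat_lit 3) (.e (nat_lit 516119) (nat_lit 1) (.e (nat_lit 164167) (nat_lit 152) .nil)))))))) (.g (nat_lit 7) .nil .nil)))) (.nd (nat_lit 5) 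
(.lf (nat_lit 21521) (.g (nat_lit 4992) (.e (nat_lit 1182) (nat_lit 87) (.e (nat_lit 57479) (nat_lit 28) (.e (nat_lit 557105) (nat_lit 14) (.e (nat_lit 180252) (nat_lit 10) (.e (nat_lit 573481) (nat_lit 13) (.e (nat_lit 65569) (nat_lit 3) (.e (nat_lit 98334) (nat_lit 18) (.e (nat_lit 164166) (nat_lit 152) .nil)))))))) (.g (nat_lit 8) .nil .nil))) 
(.lf (nat_lit 21553) (.g (nat_lit 5475) (.e (nat_lit 1182) (nat_lit 87) (.e (nat_lit 57479) (nat_lit 28) (.e (nat_lit 557105) (nat_lit 14) (.e (nat_lit 180252) (nat_lit 10) (.e (nat_lit 573488) (nat_lit 14) (.e (nat_lit 73747) (nat_lit 3) (.e (nat_lit 516120) (nat_lit 1) (.e (nat_lit 164167) (nat_lit 152) .nil)))))))) (.g (nat_lit 7) .nil .nil))))) (.nd (nat_lit 4) (.nd (nat_lit 5) 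
(.lf (nat_lit 21513) (.g (nat_lit 2228) (.e (nat_lit 1182) (nat_lit 87) (.e (nat_lit 57479) (nat_lit 28) (.e (nat_lit 557105) (nat_lit 14) (.e (nat_lit 180252) (nat_lit 10) (.e (nat_lit 573480) (nat_lit 13) (.e (nat_lit 65568) (nat_lit 2) (.e (nat_lit 90165) (nat_lit 12) (.e (nat_lit 163853) (nat_lit 0) (.e (nat_lit 6315) (nat_lit 337) .nil))))))))) (.g (nat_lit 4) .nil .nil))) 
(.lf (nat_lit 21545) (.g (nat_lit 3890) (.e (nat_lit 1182) (nat_lit 87) (.e (nat_lit 57479) (nat_lit 28) (.e (nat_lit 557105) (nat_lit 14) (.e (nat_lit 180252) (nat_lit 10) (.e (nat_lit 573488) (nat_lit 14) (.e (nat_lit 73745) (nat_lit 3) (.e (nat_lit 516116) (nat_lit 1) (.e (nat_lit 164164) (nat_lit 152) .nil)))))))) (.g (nat_lit 5) .nil .nil)))) (.nd (nat_lit 5) 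
(.lf (nat_lit 21529) (.g (nat_lit 2427) (.e (nat_lit 1182) (nat_lit 87) (.e (nat_lit 57479) (nat_lit 28) (.e (nat_lit 557105) (nat_lit 14) (.e (nat_lit 180252) (nat_lit 10) (.e (nat_lit 573487) (nat_lit 14) (.e (nat_lit 73747) (nat_lit 3) (.e (nat_lit 516106) (nat_lit 0) (.e (nat_lit 2478) (nat_lit 157) (.e (nat_lit 6314) (nat_lit 337) .nil))))))))) (.g (nat_lit 4) .nil .nil))) 
(.lf (nat_lit 21561) (.g (nat_lit 4391) (.e (nat_lit 1182) (nat_lit 87) (.e (nat_lit 57479) (nat_lit 28) (.e (nat_lit 557105) (nat_lit 14) (.e (nat_lit 180252) (nat_lit 10) (.e (nat_lit 573489) (nat_lit 14) (.e (nat_lit 73748) (nat_lit 3) (.e (nat_lit 516119) (nat_lit 1) (.e (nat_lit 164164) (nat_lit 152) .nil)))))))) (.g (nat_lit 8) .nil .nil)))))) 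
(.nd (nat_lit 3) (.nd (nat_lit 4) (.nd (nat_lit 5) 
(.lf (nat_lit 21509) (.g (nat_lit 5181) (.e (nat_lit 1182) (nat_lit 87) (.e (nat_lit 57479) (nat_lit 28) (.e (nat_lit 557105) (nat_lit 14) (.e (nat_lit 180251) (nat_lit 10) (.e (nat_lit 573487) (nat_lit 14) (.e (nat_lit 73746) (nat_lit 3) (.e (nat_lit 516117) (nat_lit 1) (.e (nat_lit 164166) (nat_lit 152) .nil)))))))) (.g (nat_lit 8) .nil .nil))) 
(.lf (nat_lit 21541) (.g (nat_lit 2432) (.e (nat_lit 1182) (nat_lit 87) (.e (nat_lit 57479) (nat_lit 28) (.e (nat_lit 557105) (nat_lit 14) (.e (nat_lit 180252) (nat_lit 10) (.e (nat_lit 573487) (nat_lit 14) (.e (nat_lit 73753) (nat_lit 8) (.e (nat_lit 557084) (nat_lit 10) (.e (nat_lit 8285) (nat_lit 51) (.e (nat_lit 6320) (nat_lit 337) .nil))))))))) (.g (nat_lit 4) .nil .nil)))) (.nd (nat_lit 5) 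
(.lf (nat_lit 21525) (.g (nat_lit 5416) (.e (nat_lit 1182) (nat_lit 87) (.e (nat_lit 57479) (nat_lit 28) (.e (nat_lit 557105) (nat_lit 14) (.e (nat_lit 180252) (nat_lit 10) (.e (nat_lit 573482) (nat_lit 13) (.e (nat_lit 65569) (nat_lit 3) (.e (nat_lit 98334) (nat_lit 18) (.e (nat_lit 164166) (nat_lit 152) .nil)))))))) (.g (nat_lit 8) .nil .nil))) 
(.lf (nat_lit 21557) (.g (nat_lit 4258) (.e (nat_lit 1182) (nat_lit 87) (.e (nat_lit 57479) (nat_lit 28) (.e (nat_lit 557105) (nat_lit 14) (.e (nat_lit 180252) (nat_lit 10) (.e (nat_lit 573489) (nat_lit 14) (.e (nat_lit 73748) (nat_lit 3) (.e (nat_lit 516115) (nat_lit 1) (.e (nat_lit 164167) (nat_lit 152) .nil)))))))) (.g (nat_lit 8) .nil .nil))))) (.nd (nat_lit 4) (.nd (nat_lit 5) 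
(.lf (nat_lit 21517) (.g (nat_lit 2092) (.e (nat_lit 1182) (nat_lit 87) (.e (nat_lit 57479) (nat_lit 28) (.e (nat_lit 557105) (nat_lit 14) (.e (nat_lit 180252) (nat_lit 10) (.e (nat_lit 573480) (nat_lit 13) (.e (nat_lit 65571) (nat_lit 3) (.e (nat_lit 98325) (nat_lit 17) (.e (nat_lit 2478) (nat_lit 157) (.e (nat_lit 6315) (nat_lit 337) .nil))))))))) (.g (nat_lit 4) .nil .nil))) 
(.lf (nat_lit 21549) (.g (nat_lit 5424) (.e (nat_lit 1182) (nat_lit 87) (.e (nat_lit 57479) (nat_lit 28) (.e (nat_lit 557105) (nat_lit 14) (.e (nat_lit 180252) (nat_lit 10) (.e (nat_lit 573488) (nat_lit 14) (.e (nat_lit 73747) (nat_lit 3) (.e (nat_lit 516119) (nat_lit 1) (.e (nat_lit 164164) (nat_lit 152) .nil)))))))) (.g (nat_lit 8) .nil .nil)))) (.nd (nat_lit 5) 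
(.lf (nat_lit 21533) (.g (nat_lit 5047) (.e (nat_lit 1182) (nat_lit 87) (.e (nat_lit 57479) (nat_lit 28) (.e (nat_lit 557105) (nat_lit 14) (.e (nat_lit 180252) (nat_lit 10) (.e (nat_lit 573487) (nat_lit 14) (.e (nat_lit 73747) (nat_lit 3) (.e (nat_lit 516117) (nat_lit 1) (.e (nat_lit 164164) (nat_lit 152) .nil)))))))) (.g (nat_lit 7) .nil .nil))) 
(.lf (nat_lit 21565) (.g (nat_lit 4548) (.e (nat_lit 1182) (nat_lit 87) (.e (nat_lit 57479) (nat_lit 28) (.e (nat_lit 557105) (nat_lit 14) (.e (nat_lit 180252) (nat_lit 10) (.e (nat_lit 573489) (nat_lit 14) (.e (nat_lit 73755) (nat_lit 8) (.e (nat_lit 557067) (nat_lit 9) (.e (nat_lit 128) (nat_lit 6) (.e (nat_lit 130816) (nat_lit 181) .nil))))))))) (.g (nat_lit 8) .nil .nil))))))) 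
(.nd (nat_lit 2) (.nd (nat_lit 3) (.nd (nat_lit 4) (.nd (nat_lit 5) 
(.lf (nat_lit 21507) (.g (nat_lit 2122) (.e (nat_lit 1182) (nat_lit 87) (.e (nat_lit 57479) (nat_lit 28) (.e (nat_lit 557105) (nat_lit 14) (.e (nat_lit 180251) (nat_lit 10) (.e (nat_lit 573486) (nat_lit 14) (.e (nat_lit 73746) (nat_lit 3) (.e (nat_lit 516117) (nat_lit 1) (.e (nat_lit 164166) (nat_lit 152) .nil)))))))) (.g (nat_lit 5) .nil .nil))) 
(.lf (nat_lit 21539) (.g (nat_lit 5418) (.e (nat_lit 1182) (nat_lit 87) (.e (nat_lit 57479) (nat_lit 28) (.e (nat_lit 557105) (nat_lit 14) (.e (nat_lit 180252) (nat_lit 10) (.e (nat_lit 573487) (nat_lit 14) (.e (nat_lit 73747) (nat_lit 3) (.e (nat_lit 516120) (nat_lit 1) (.e (nat_lit 164166) (nat_lit 152) .nil)))))))) (.g (nat_lit 8) .nil .nil)))) (.nd (nat_lit 5) 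
(.lf (nat_lit 21523) (.g (nat_lit 2951) (.e (nat_lit 1182) (nat_lit 87) (.e (nat_lit 57479) (nat_lit 28) (.e (nat_lit 557105) (nat_lit 14) (.e (nat_lit 180252) (nat_lit 10) (.e (nat_lit 573481) (nat_lit 13) (.e (nat_lit 65571) (nat_lit 3) (.e (nat_lit 98325) (nat_lit 17) (.e (nat_lit 2478) (nat_lit 157) (.e (nat_lit 6306) (nat_lit 337) .nil))))))))) (.g (nat_lit 4) .nil .nil))) 
(.lf (nat_lit 21555) (.g (nat_lit 4601) (.e (nat_lit 1182) (nat_lit 87) (.e (nat_lit 57479) (nat_lit 28) (.e (nat_lit 557105) (nat_lit 14) (.e (nat_lit 180252) (nat_lit 10) (.e (nat_lit 573489) (nat_lit 14) (.e (nat_lit 73746) (nat_lit 3) (.e (nat_lit 516120) (nat_lit 1) (.e (nat_lit 164166) (nat_lit 152) .nil)))))))) (.g (nat_lit 8) .nil .nil))))) (.nd (nat_lit 4) (.nd (nat_lit 5) 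
(.lf (nat_lit 21515) (.g (nat_lit 2457) (.e (nat_lit 1182) (nat_lit 87) (.e (nat_lit 57479) (nat_lit 28) (.e (nat_lit 557105) (nat_lit 14) (.e (nat_lit 180252) (nat_lit 10) (.e (nat_lit 573480) (nat_lit 13) (.e (nat_lit 65571) (nat_lit 3) (.e (nat_lit 98325) (nat_lit 17) (.e (nat_lit 2458) (nat_lit 157) (.e (nat_lit 6313) (nat_lit 337) .nil))))))))) (.g (nat_lit 4) .nil .nil))) 
(.lf (nat_lit 21547) (.g (nat_lit 5407) (.e (nat_lit 1182) (nat_lit 87) (.e (nat_lit 57479) (nat_lit 28) (.e (nat_lit 557105) (nat_lit 14) (.e (nat_lit 180252) (nat_lit 10) (.e (nat_lit 573488) (nat_lit 14) (.e (nat_lit 73747) (nat_lit 3) (.e (nat_lit 516119) (nat_lit 1) (.e (nat_lit 164147) (nat_lit 152) .nil)))))))) (.g (nat_lit 8) .nil .nil)))) (.nd (nat_lit 5) 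
(.lf (nat_lit 21531) (.g (nat_lit 5137) (.e (nat_lit 1182) (nat_lit 87) (.e (nat_lit 57479) (nat_lit 28) (.e (nat_lit 557105) (nat_lit 14) (.e (nat_lit 180252) (nat_lit 10) (.e (nat_lit 573487) (nat_lit 14) (.e (nat_lit 73747) (nat_lit 3) (.e (nat_lit 516115) (nat_lit 1) (.e (nat_lit 164165) (nat_lit 152) .nil)))))))) (.g (nat_lit 7) .nil .nil))) 
(.lf (nat_lit 21563) (.g (nat_lit 4342) (.e (nat_lit 1182) (nat_lit 87) (.e (nat_lit 57479) (nat_lit 28) (.e (nat_lit 557105) (nat_lit 14) (.e (nat_lit 180252) (nat_lit 10) (.e (nat_lit 573489) (nat_lit 14) (.e (nat_lit 73748) (nat_lit 3) (.e (nat_lit 516120) (nat_lit 1) (.e (nat_lit 164166) (nat_lit 152) .nil)))))))) (.g (nat_lit 8) .nil .nil)))))) 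
(.nd (nat_lit 3) (.nd (nat_lit 4) (.nd (nat_lit 5) 
(.lf (nat_lit 21511) (.g (nat_lit 5143) (.e (nat_lit 1182) (nat_lit 87) (.e (nat_lit 57479) (nat_lit 28) (.e (nat_lit 557105) (nat_lit 14) (.e (nat_lit 180251) (nat_lit 10) (.e (nat_lit 573487) (nat_lit 14) (.e (nat_lit 73746) (nat_lit 3) (.e (nat_lit 516120) (nat_lit 1) (.e (nat_lit 164166) (nat_lit 152) .nil)))))))) (.g (nat_lit 8) .nil .nil))) 
(.lf (nat_lit 21543) (.g (nat_lit 2189) (.e (nat_lit 1182) (nat_lit 87) (.e (nat_lit 57479) (nat_lit 28) (.e (nat_lit 557105) (nat_lit 14) (.e (nat_lit 180252) (nat_lit 10) (.e (nat_lit 573487) (nat_lit 14) (.e (nat_lit 73753) (nat_lit 8) (.e (nat_lit 557084) (nat_lit 10) (.e (nat_lit 8290) (nat_lit 51) (.e (nat_lit 6320) (nat_lit 337) .nil))))))))) (.g (nat_lit 4) .nil .nil)))) (.nd (nat_lit 5) 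
(.lf (nat_lit 21527) (.g (nat_lit 5697) (.e (nat_lit 1182) (nat_lit 87) (.e (nat_lit 57479) (nat_lit 28) (.e (nat_lit 557105) (nat_lit 14) (.e (nat_lit 180252) (nat_lit 10) (.e (nat_lit 573487) (nat_lit 14) (.e (nat_lit 73746) (nat_lit 3) (.e (nat_lit 516120) (nat_lit 1) (.e (nat_lit 164166) (nat_lit 152) .nil)))))))) (.g (nat_lit 8) .nil .nil))) 
(.lf (nat_lit 21559) (.g (nat_lit 4386) (.e (nat_lit 1182) (nat_lit 87) (.e (nat_lit 57479) (nat_lit 28) (.e (nat_lit 557105) (nat_lit 14) (.e (nat_lit 180252) (nat_lit 10) (.e (nat_lit 573489) (nat_lit 14) (.e (nat_lit 73748) (nat_lit 3) (.e (nat_lit 516119) (nat_lit 1) (.e (nat_lit 164147) (nat_lit 152) .nil)))))))) (.g (nat_lit 8) .nil .nil))))) (.nd (nat_lit 4) (.nd (nat_lit 5) 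
(.lf (nat_lit 21519) (.g (nat_lit 2793) (.e (nat_lit 1182) (nat_lit 87) (.e (nat_lit 57479) (nat_lit 28) (.e (nat_lit 557105) (nat_lit 14) (.e (nat_lit 180252) (nat_lit 10) (.e (nat_lit 573481) (nat_lit 13) (.e (nat_lit 65568) (nat_lit 2) (.e (nat_lit 90165) (nat_lit 12) (.e (nat_lit 163853) (nat_lit 0) (.e (nat_lit 6314) (nat_lit 337) .nil))))))))) (.g (nat_lit 4) .nil .nil))) 
(.lf (nat_lit 21551) (.g (nat_lit 2986) (.e (nat_lit 1182) (nat_lit 87) (.e (nat_lit 57479) (nat_lit 28) (.e (nat_lit 557105) (nat_lit 14) (.e (nat_lit 180252) (nat_lit 10) (.e (nat_lit 573488) (nat_lit 14) (.e (nat_lit 73747) (nat_lit 3) (.e (nat_lit 516120) (nat_lit 1) (.e (nat_lit 164164) (nat_lit 152) .nil)))))))) (.g (nat_lit 4) .nil .nil)))) (.nd (nat_lit 5) 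
(.lf (nat_lit 21535) (.g (nat_lit 5243) (.e (nat_lit 1182) (nat_lit 87) (.e (nat_lit 57479) (nat_lit 28) (.e (nat_lit 557105) (nat_lit 14) (.e (nat_lit 180252) (nat_lit 10) (.e (nat_lit 573487) (nat_lit 14) (.e (nat_lit 73747) (nat_lit 3) (.e (nat_lit 516119) (nat_lit 1) (.e (nat_lit 164163) (nat_lit 152) .nil)))))))) (.g (nat_lit 8) .nil .nil))) 
(.lf (nat_lit 21567) (.g (nat_lit 4412) (.e (nat_lit 1182) (nat_lit 87) (.e (nat_lit 57479) (nat_lit 28) (.e (nat_lit 557105) (nat_lit 14) (.e (nat_lit 180252) (nat_lit 10) (.e (nat_lit 573489) (nat_lit 14) (.e (nat_lit 73755) (nat_lit 8) (.e (nat_lit 557067) (nat_lit 9) (.e (nat_lit 2719) (nat_lit 171) (.e (nat_lit 229632) (nat_lit 226) .nil))))))))) (.g (nat_lit 8) .nil .nil)))))))))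

noncomputable def tv303 : DT := (.nd (nat_lit 0) (.nd (nat_lit 1) (.nd (nat_lit 2) (.nd (nat_lit 3) (.nd (nat_lit 4) 
(.lf (nat_lit 21568) (.g (nat_lit 3610) (.e (nat_lit 1182) (nat_lit 87) (.e (nat_lit 57479) (nat_lit 28) (.e (nat_lit 557105) (nat_lit 14) (.e (nat_lit 180252) (nat_lit 10) (.e (nat_lit 573489) (nat_lit 14) (.e (nat_lit 73755) (nat_lit 8) (.e (nat_lit 557068) (nat_lit 9) (.e (nat_lit 128) (nat_lit 6) (.e (nat_lit 123083) (nat_lit 181) .nil))))))))) (.g (nat_lit 7) .nil .nil))) 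
(.lf (nat_lit 21584) (.g (nat_lit 3023) (.e (nat_lit 1182) (nat_lit 87) (.e (nat_lit 57479) (nat_lit 28) (.e (nat_lit 557105) (nat_lit 14) (.e (nat_lit 180252) (nat_lit 10) (.e (nat_lit 573489) (nat_lit 14) (.e (nat_lit 73755) (nat_lit 8) (.e (nat_lit 557083) (nat_lit 10) (.e (nat_lit 8292) (nat_lit 51) (.e (nat_lit 6321) (nat_lit 337) .nil))))))))) (.g (nat_lit 6) .nil .nil)))) (.nd (nat_lit 4) 
(.lf (nat_lit 21576) (.g (nat_lit 3408) (.e (nat_lit 1182) (nat_lit 87) (.e (nat_lit 57479) (nat_lit 28) (.e (nat_lit 557105) (nat_lit 14) (.e (nat_lit 180252) (nat_lit 10) (.e (nat_lit 573489) (nat_lit 14) (.e (nat_lit 73755) (nat_lit 8) (.e (nat_lit 557083) (nat_lit 10) (.e (nat_lit 8290) (nat_lit 51) (.e (nat_lit 6320) (nat_lit 337) .nil))))))))) (.g (nat_lit 7) .nil .nil))) 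
(.lf (nat_lit 21592) (.g (nat_lit 3808) (.e (nat_lit 1182) (nat_lit 87) (.e (nat_lit 57479) (nat_lit 28) (.e (nat_lit 557105) (nat_lit 14) (.e (nat_lit 180252) (nat_lit 10) (.e (nat_lit 573489) (nat_lit 14) (.e (nat_lit 73755) (nat_lit 8) (.e (nat_lit 557084) (nat_lit 10) (.e (nat_lit 8285) (nat_lit 51) (.e (nat_lit 6300) (nat_lit 337) .nil))))))))) (.g (nat_lit 7) .nil .nil))))) 
(.nd (nat_lit 3) (.nd (nat_lit 4) 
(.lf (nat_lit 21572) (.g (nat_lit 2998) (.e (nat_lit 1182) (nat_lit 87) (.e (nat_lit 57479) (nat_lit 28) (.e (nat_lit 557105) (nat_lit 14) (.e (nat_lit 180252) (nat_lit 10) (.e (nat_lit 573489) (nat_lit 14) (.e (nat_lit 73755) (nat_lit 8) (.e (nat_lit 557083) (nat_lit 10) (.e (nat_lit 8285) (nat_lit 51) (.e (nat_lit 6321) (nat_lit 337) .nil))))))))) (.g (nat_lit 6) .nil .nil))) 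
(.lf (nat_lit 21588) (.g (nat_lit 2886) (.e (nat_lit 1182) (nat_lit 87) (.e (nat_lit 57479) (nat_lit 28) (.e (nat_lit 557105) (nat_lit 14) (.e (nat_lit 180252) (nat_lit 10) (.e (nat_lit 573489) (nat_lit 14) (.e (nat_lit 73755) (nat_lit 8) (.e (nat_lit 557083) (nat_lit 10) (.e (nat_lit 8293) (nat_lit 51) (.e (nat_lit 6319) (nat_lit 337) .nil))))))))) (.g (nat_lit 6) .nil .nil)))) (.nd (nat_lit 4) 
(.lf (nat_lit 21580) (.g (nat_lit 3479) (.e (nat_lit 1182) (nat_lit 87) (.e (nat_lit 57479) (nat_lit 28) (.e (nat_lit 557105) (nat_lit 14) (.e (nat_lit 180252) (nat_lit 10) (.e (nat_lit 573489) (nat_lit 14) (.e (nat_lit 73755) (nat_lit 8) (.e (nat_lit 557083) (nat_lit 10) (.e (nat_lit 8291) (nat_lit 51) (.e (nat_lit 6320) (nat_lit 337) .nil))))))))) (.g (nat_lit 7) .nil .nil))) 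
(.lf (nat_lit 21596) (.g (nat_lit 3938) (.e (nat_lit 1182) (nat_lit 87) (.e (nat_lit 57479) (nat_lit 28) (.e (nat_lit 557105) (nat_lit 14) (.e (nat_lit 180252) (nat_lit 10) (.e (nat_lit 573489) (nat_lit 14) (.e (nat_lit 73755) (nat_lit 8) (.e (nat_lit 557084) (nat_lit 10) (.e (nat_lit 8285) (nat_lit 51) (.e (nat_lit 6308) (nat_lit 337) .nil))))))))) (.g (nat_lit 7) .nil .nil)))))) 
(.nd (nat_lit 2) (.nd (nat_lit 3) (.nd (nat_lit 4) 
(.lf (nat_lit 21570) (.g (nat_lit 3432) (.e (nat_lit 1182) (nat_lit 87) (.e (nat_lit 57479) (nat_lit 28) (.e (nat_lit 557105) (nat_lit 14) (.e (nat_lit 180252) (nat_lit 10) (.e (nat_lit 573489) (nat_lit 14) (.e (nat_lit 73755) (nat_lit 8) (.e (nat_lit 557068) (nat_lit 9) (.e (nat_lit 128) (nat_lit 6) (.e (nat_lit 130816) (nat_lit 181) .nil))))))))) (.g (nat_lit 7) .nil .nil))) 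
(.lf (nat_lit 21586) (.g (nat_lit 3603) (.e (nat_lit 1182) (nat_lit 87) (.e (nat_lit 57479) (nat_lit 28) (.e (nat_lit 557105) (nat_lit 14) (.e (nat_lit 180252) (nat_lit 10) (.e (nat_lit 573489) (nat_lit 14) (.e (nat_lit 73755) (nat_lit 8) (.e (nat_lit 557083) (nat_lit 10) (.e (nat_lit 8293) (nat_lit 51) (.e (nat_lit 6264) (nat_lit 337) .nil))))))))) (.g (nat_lit 7) .nil .nil)))) (.nd (nat_lit 4) 
(.lf (nat_lit 21578) (.g (nat_lit 2814) (.e (nat_lit 1182) (nat_lit 87) (.e (nat_lit 57479) (nat_lit 28) (.e (nat_lit 557105) (nat_lit 14) (.e (nat_lit 180252) (nat_lit 10) (.e (nat_lit 573489) (nat_lit 14) (.e (nat_lit 73755) (nat_lit 8) (.e (nat_lit 557083) (nat_lit 10) (.e (nat_lit 8291) (nat_lit 51) (.e (nat_lit 6264) (nat_lit 337) .nil))))))))) (.g (nat_lit 6) .nil .nil))) 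
(.lf (nat_lit 21594) (.g (nat_lit 3745) (.e (nat_lit 1182) (nat_lit 87) (.e (nat_lit 57479) (nat_lit 28) (.e (nat_lit 557105) (nat_lit 14) (.e (nat_lit 180252) (nat_lit 10) (.e (nat_lit 573489) (nat_lit 14) (.e (nat_lit 73755) (nat_lit 8) (.e (nat_lit 557084) (nat_lit 10) (.e (nat_lit 8285) (nat_lit 51) (.e (nat_lit 6304) (nat_lit 337) .nil))))))))) (.g (nat_lit 7) .nil .nil))))) 
(.nd (nat_lit 3) (.nd (nat_lit 4) 
(.lf (nat_lit 21574) (.g (nat_lit 2832) (.e (nat_lit 1182) (nat_lit 87) (.e (nat_lit 57479) (nat_lit 28) (.e (nat_lit 557105) (nat_lit 14) (.e (nat_lit 180252) (nat_lit 10) (.e (nat_lit 573489) (nat_lit 14) (.e (nat_lit 73755) (nat_lit 8) (.e (nat_lit 557083) (nat_lit 10) (.e (nat_lit 8290) (nat_lit 51) (.e (nat_lit 6264) (nat_lit 337) .nil))))))))) (.g (nat_lit 6) .nil .nil))) 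
(.lf (nat_lit 21590) (.g (nat_lit 3922) (.e (nat_lit 1182) (nat_lit 87) (.e (nat_lit 57479) (nat_lit 28) (.e (nat_lit 557105) (nat_lit 14) (.e (nat_lit 180252) (nat_lit 10) (.e (nat_lit 573489) (nat_lit 14) (.e (nat_lit 73755) (nat_lit 8) (.e (nat_lit 557083) (nat_lit 10) (.e (nat_lit 8293) (nat_lit 51) (.e (nat_lit 6322) (nat_lit 337) .nil))))))))) (.g (nat_lit 9) .nil .nil)))) (.nd (nat_lit 4) 
(.lf (nat_lit 21582) (.g (nat_lit 3011) (.e (nat_lit 1182) (nat_lit 87) (.e (nat_lit 57479) (nat_lit 28) (.e (nat_lit 557105) (nat_lit 14) (.e (nat_lit 180252) (nat_lit 10) (.e (nat_lit 573489) (nat_lit 14) (.e (nat_lit 73755) (nat_lit 8) (.e (nat_lit 557083) (nat_lit 10) (.e (nat_lit 8292) (nat_lit 51) (.e (nat_lit 6264) (nat_lit 337) .nil))))))))) (.g (nat_lit 6) .nil .nil))) 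
(.lf (nat_lit 21598) (.g (nat_lit 3745) (.e (nat_lit 1182) (nat_lit 87) (.e (nat_lit 57479) (nat_lit 28) (.e (nat_lit 557105) (nat_lit 14) (.e (nat_lit 180252) (nat_lit 10) (.e (nat_lit 573489) (nat_lit 14) (.e (nat_lit 73755) (nat_lit 8) (.e (nat_lit 557084) (nat_lit 10) (.e (nat_lit 8285) (nat_lit 51) (.e (nat_lit 6317) (nat_lit 337) .nil))))))))) (.g (nat_lit 7) .nil .nil))))))) 
(.nd (nat_lit 1) (.nd (nat_lit 2) (.nd (nat_lit 3) (.nd (nat_lit 4) 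
(.lf (nat_lit 21569) (.g (nat_lit 3588) (.e (nat_lit 1182) (nat_lit 87) (.e (nat_lit 57479) (nat_lit 28) (.e (nat_lit 557105) (nat_lit 14) (.e (nat_lit 180252) (nat_lit 10) (.e (nat_lit 573489) (nat_lit 14) (.e (nat_lit 73755) (nat_lit 8) (.e (nat_lit 557068) (nat_lit 9) (.e (nat_lit 128) (nat_lit 6) (.e (nat_lit 123085) (nat_lit 181) .nil))))))))) (.g (nat_lit 7) .nil .nil))) 
(.lf (nat_lit 21585) (.g (nat_lit 3093) (.e (nat_lit 1182) (nat_lit 87) (.e (nat_lit 57479) (nat_lit 28) (.e (nat_lit 557105) (nat_lit 14) (.e (nat_lit 180252) (nat_lit 10) (.e (nat_lit 573489) (nat_lit 14) (.e (nat_lit 73755) (nat_lit 8) (.e (nat_lit 557083) (nat_lit 10) (.e (nat_lit 8292) (nat_lit 51) (.e (nat_lit 6322) (nat_lit 337) .nil))))))))) (.g (nat_lit 6) .nil .nil)))) (.nd (nat_lit 4) 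
(.lf (nat_lit 21577) (.g (nat_lit 3083) (.e (nat_lit 1182) (nat_lit 87) (.e (nat_lit 57479) (nat_lit 28) (.e (nat_lit 557105) (nat_lit 14) (.e (nat_lit 180252) (nat_lit 10) (.e (nat_lit 573489) (nat_lit 14) (.e (nat_lit 73755) (nat_lit 8) (.e (nat_lit 557083) (nat_lit 10) (.e (nat_lit 8290) (nat_lit 51) (.e (nat_lit 6321) (nat_lit 337) .nil))))))))) (.g (nat_lit 6) .nil .nil))) 
(.lf (nat_lit 21593) (.g (nat_lit 3805) (.e (nat_lit 1182) (nat_lit 87) (.e (nat_lit 57479) (nat_lit 28) (.e (nat_lit 557105) (nat_lit 14) (.e (nat_lit 180252) (nat_lit 10) (.e (nat_lit 573489) (nat_lit 14) (.e (nat_lit 73755) (nat_lit 8) (.e (nat_lit 557084) (nat_lit 10) (.e (nat_lit 8285) (nat_lit 51) (.e (nat_lit 6301) (nat_lit 337) .nil))))))))) (.g (nat_lit 7) .nil .nil))))) 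
(.nd (nat_lit 3) (.nd (nat_lit 4) 
(.lf (nat_lit 21573) (.g (nat_lit 3062) (.e (nat_lit 1182) (nat_lit 87) (.e (nat_lit 57479) (nat_lit 28) (.e (nat_lit 557105) (nat_lit 14) (.e (nat_lit 180252) (nat_lit 10) (.e (nat_lit 573489) (nat_lit 14) (.e (nat_lit 73755) (nat_lit 8) (.e (nat_lit 557083) (nat_lit 10) (.e (nat_lit 8285) (nat_lit 51) (.e (nat_lit 6322) (nat_lit 337) .nil))))))))) (.g (nat_lit 6) .nil .nil))) 
(.lf (nat_lit 21589) (.g (nat_lit 3867) (.e (nat_lit 1182) (nat_lit 87) (.e (nat_lit 57479) (nat_lit 28) (.e (nat_lit 557105) (nat_lit 14) (.e (nat_lit 180252) (nat_lit 10) (.e (nat_lit 573489) (nat_lit 14) (.e (nat_lit 73755) (nat_lit 8) (.e (nat_lit 557083) (nat_lit 10) (.e (nat_lit 8293) (nat_lit 51) (.e (nat_lit 6321) (nat_lit 337) .nil))))))))) (.g (nat_lit 8) .nil .nil)))) (.nd (nat_lit 4) 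
(.lf (nat_lit 21581) (.g (nat_lit 3160) (.e (nat_lit 1182) (nat_lit 87) (.e (nat_lit 57479) (nat_lit 28) (.e (nat_lit 557105) (nat_lit 14) (.e (nat_lit 180252) (nat_lit 10) (.e (nat_lit 573489) (nat_lit 14) (.e (nat_lit 73755) (nat_lit 8) (.e (nat_lit 557083) (nat_lit 10) (.e (nat_lit 8291) (nat_lit 51) (.e (nat_lit 6321) (nat_lit 337) .nil))))))))) (.g (nat_lit 6) .nil .nil))) 
(.lf (nat_lit 21597) (.g (nat_lit 3742) (.e (nat_lit 1182) (nat_lit 87) (.e (nat_lit 57479) (nat_lit 28) (.e (nat_lit 557105) (nat_lit 14) (.e (nat_lit 180252) (nat_lit 10) (.e (nat_lit 573489) (nat_lit 14) (.e (nat_lit 73755) (nat_lit 8) (.e (nat_lit 557084) (nat_lit 10) (.e (nat_lit 8285) (nat_lit 51) (.e (nat_lit 6309) (nat_lit 337) .nil))))))))) (.g (nat_lit 7) .nil .nil)))))) 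
(.nd (nat_lit 2) (.nd (nat_lit 3) (.nd (nat_lit 4) 
(.lf (nat_lit 21571) (.g (nat_lit 3295) (.e (nat_lit 1182) (nat_lit 87) (.e (nat_lit 57479) (nat_lit 28) (.e (nat_lit 557105) (nat_lit 14) (.e (nat_lit 180252) (nat_lit 10) (.e (nat_lit 573489) (nat_lit 14) (.e (nat_lit 73755) (nat_lit 8) (.e (nat_lit 557083) (nat_lit 10) (.e (nat_lit 8285) (nat_lit 51) (.e (nat_lit 6320) (nat_lit 337) .nil))))))))) (.g (nat_lit 7) .nil .nil))) 
(.lf (nat_lit 21587) (.g (nat_lit 3849) (.e (nat_lit 1182) (nat_lit 87) (.e (nat_lit 57479) (nat_lit 28) (.e (nat_lit 557105) (nat_lit 14) (.e (nat_lit 180252) (nat_lit 10) (.e (nat_lit 573489) (nat_lit 14) (.e (nat_lit 73755) (nat_lit 8) (.e (nat_lit 557083) (nat_lit 10) (.e (nat_lit 8293) (nat_lit 51) (.e (nat_lit 6308) (nat_lit 337) .nil))))))))) (.g (nat_lit 8) .nil .nil)))) (.nd (nat_lit 4) 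
(.lf (nat_lit 21579) (.g (nat_lit 3084) (.e (nat_lit 1182) (nat_lit 87) (.e (nat_lit 57479) (nat_lit 28) (.e (nat_lit 557105) (nat_lit 14) (.e (nat_lit 180252) (nat_lit 10) (.e (nat_lit 573489) (nat_lit 14) (.e (nat_lit 73755) (nat_lit 8) (.e (nat_lit 557083) (nat_lit 10) (.e (nat_lit 8291) (nat_lit 51) (.e (nat_lit 6308) (nat_lit 337) .nil))))))))) (.g (nat_lit 6) .nil .nil))) 
(.lf (nat_lit 21595) (.g (nat_lit 3758) (.e (nat_lit 1182) (nat_lit 87) (.e (nat_lit 57479) (nat_lit 28) (.e (nat_lit 557105) (nat_lit 14) (.e (nat_lit 180252) (nat_lit 10) (.e (nat_lit 573489) (nat_lit 14) (.e (nat_lit 73755) (nat_lit 8) (.e (nat_lit 557084) (nat_lit 10) (.e (nat_lit 8285) (nat_lit 51) (.e (nat_lit 6305) (nat_lit 337) .nil))))))))) (.g (nat_lit 7) .nil .nil))))) 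
(.nd (nat_lit 3) (.nd (nat_lit 4) 
(.lf (nat_lit 21575) (.g (nat_lit 2847) (.e (nat_lit 1182) (nat_lit 87) (.e (nat_lit 57479) (nat_lit 28) (.e (nat_lit 557105) (nat_lit 14) (.e (nat_lit 180252) (nat_lit 10) (.e (nat_lit 573489) (nat_lit 14) (.e (nat_lit 73755) (nat_lit 8) (.e (nat_lit 557083) (nat_lit 10) (.e (nat_lit 8290) (nat_lit 51) (.e (nat_lit 6308) (nat_lit 337) .nil))))))))) (.g (nat_lit 6) .nil .nil))) 
(.lf (nat_lit 21591) (.g (nat_lit 3871) (.e (nat_lit 1182) (nat_lit 87) (.e (nat_lit 57479) (nat_lit 28) (.e (nat_lit 557105) (nat_lit 14) (.e (nat_lit 180252) (nat_lit 10) (.e (nat_lit 573489) (nat_lit 14) (.e (nat_lit 73755) (nat_lit 8) (.e (nat_lit 557084) (nat_lit 10) (.e (nat_lit 8285) (nat_lit 51) (.e (nat_lit 6264) (nat_lit 337) .nil))))))))) (.g (nat_lit 7) .nil .nil)))) (.nd (nat_lit 4) 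
(.lf (nat_lit 21583) (.g (nat_lit 3022) (.e (nat_lit 1182) (nat_lit 87) (.e (nat_lit 57479) (nat_lit 28) (.e (nat_lit 557105) (nat_lit 14) (.e (nat_lit 180252) (nat_lit 10) (.e (nat_lit 573489) (nat_lit 14) (.e (nat_lit 73755) (nat_lit 8) (.e (nat_lit 557083) (nat_lit 10) (.e (nat_lit 8292) (nat_lit 51) (.e (nat_lit 6308) (nat_lit 337) .nil))))))))) (.g (nat_lit 6) .nil .nil))) 
(.lf (nat_lit 21599) (.g (nat_lit 4017) (.e (nat_lit 1182) (nat_lit 87) (.e (nat_lit 57479) (nat_lit 28) (.e (nat_lit 557105) (nat_lit 14) (.e (nat_lit 180252) (nat_lit 10) (.e (nat_lit 573489) (nat_lit 14) (.e (nat_lit 73755) (nat_lit 8) (.e (nat_lit 557084) (nat_lit 10) (.e (nat_lit 8285) (nat_lit 51) (.e (nat_lit 6318) (nat_lit 337) .nil))))))))) (.g (nat_lit 7) .nil .nil))))))))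

noncomputable def tv304 : DT := (.nd (nat_lit 0) (.nd (nat_lit 1) (.nd (nat_lit 2) (.nd (nat_lit 3) (.nd (nat_lit 4) 
(.lf (nat_lit 21600) (.g (nat_lit 4675) (.e (nat_lit 1182) (nat_lit 87) (.e (nat_lit 57479) (nat_lit 28) (.e (nat_lit 557105) (nat_lit 14) (.e (nat_lit 180252) (nat_lit 10) (.e (nat_lit 573489) (nat_lit 14) (.e (nat_lit 73755) (nat_lit 8) (.e (nat_lit 557084) (nat_lit 10) (.e (nat_lit 8285) (nat_lit 51) (.e (nat_lit 6321) (nat_lit 337) .nil))))))))) (.g (nat_lit 9) .nil .nil))) 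
(.lf (nat_lit 21616) (.g (nat_lit 4252) (.e (nat_lit 1182) (nat_lit 87) (.e (nat_lit 57479) (nat_lit 28) (.e (nat_lit 557105) (nat_lit 14) (.e (nat_lit 180252) (nat_lit 10) (.e (nat_lit 573489) (nat_lit 14) (.e (nat_lit 73755) (nat_lit 8) (.e (nat_lit 557084) (nat_lit 10) (.e (nat_lit 8293) (nat_lit 51) (.e (nat_lit 6321) (nat_lit 337) .nil))))))))) (.g (nat_lit 7) .nil .nil)))) (.nd (nat_lit 4) 
(.lf (nat_lit 21608) (.g (nat_lit 3882) (.e (nat_lit 1182) (nat_lit 87) (.e (nat_lit 57479) (nat_lit 28) (.e (nat_lit 557105) (nat_lit 14) (.e (nat_lit 180252) (nat_lit 10) (.e (nat_lit 573489) (nat_lit 14) (.e (nat_lit 73755) (nat_lit 8) (.e (nat_lit 557084) (nat_lit 10) (.e (nat_lit 8291) (nat_lit 51) (.e (nat_lit 6321) (nat_lit 337) .nil))))))))) (.g (nat_lit 7) .nil .nil))) 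
(.lf (nat_lit 21624) (.g (nat_lit 770) (.e (nat_lit 1182) (nat_lit 87) (.e (nat_lit 57479) (nat_lit 28) (.e (nat_lit 557106) (nat_lit 15) .nil))) .nil)))) (.nd (nat_lit 3) (.nd (nat_lit 4) 
(.lf (nat_lit 21604) (.g (nat_lit 4184) (.e (nat_lit 1182) (nat_lit 87) (.e (nat_lit 57479) (nat_lit 28) (.e (nat_lit 557105) (nat_lit 14) (.e (nat_lit 180252) (nat_lit 10) (.e (nat_lit 573489) (nat_lit 14) (.e (nat_lit 73755) (nat_lit 8) (.e (nat_lit 557084) (nat_lit 10) (.e (nat_lit 8290) (nat_lit 51) (.e (nat_lit 6308) (nat_lit 337) .nil))))))))) (.g (nat_lit 7) .nil .nil))) 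
(.lf (nat_lit 21620) (.g (nat_lit 1932) (.e (nat_lit 1182) (nat_lit 87) (.e (nat_lit 57479) (nat_lit 28) (.e (nat_lit 557105) (nat_lit 14) (.e (nat_lit 180252) (nat_lit 10) (.e (nat_lit 573489) (nat_lit 14) (.e (nat_lit 73755) (nat_lit 8) (.e (nat_lit 557090) (nat_lit 12) (.e (nat_lit 163843) (nat_lit 0) (.e (nat_lit 7936) (nat_lit 292) .nil))))))))) (.g (nat_lit 5) .nil .nil)))) (.nd (nat_lit 4) 
(.lf (nat_lit 21612) (.g (nat_lit 4385) (.e (nat_lit 1182) (nat_lit 87) (.e (nat_lit 57479) (nat_lit 28) (.e (nat_lit 557105) (nat_lit 14) (.e (nat_lit 180252) (nat_lit 10) (.e (nat_lit 573489) (nat_lit 14) (.e (nat_lit 73755) (nat_lit 8) (.e (nat_lit 557084) (nat_lit 10) (.e (nat_lit 8292) (nat_lit 51) (.e (nat_lit 6321) (nat_lit 337) .nil))))))))) (.g (nat_lit 8) .nil .nil))) 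
(.lf (nat_lit 21628) (.g (nat_lit 4297) (.e (nat_lit 1182) (nat_lit 87) (.e (nat_lit 57479) (nat_lit 28) (.e (nat_lit 557106) (nat_lit 15) (.e (nat_lit 188452) (nat_lit 23) (.e (nat_lit 204859) (nat_lit 26) .nil))))) .nil))))) (.nd (nat_lit 2) (.nd (nat_lit 3) (.nd (nat_lit 4) 
(.lf (nat_lit 21602) (.g (nat_lit 3789) (.e (nat_lit 1182) (nat_lit 87) (.e (nat_lit 57479) (nat_lit 28) (.e (nat_lit 557105) (nat_lit 14) (.e (nat_lit 180252) (nat_lit 10) (.e (nat_lit 573489) (nat_lit 14) (.e (nat_lit 73755) (nat_lit 8) (.e (nat_lit 557084) (nat_lit 10) (.e (nat_lit 8285) (nat_lit 51) (.e (nat_lit 6323) (nat_lit 337) .nil))))))))) (.g (nat_lit 7) .nil .nil))) 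
(.lf (nat_lit 21618) (.g (nat_lit 2613) (.e (nat_lit 1182) (nat_lit 87) (.e (nat_lit 57479) (nat_lit 28) (.e (nat_lit 557105) (nat_lit 14) (.e (nat_lit 180252) (nat_lit 10) (.e (nat_lit 573489) (nat_lit 14) (.e (nat_lit 73755) (nat_lit 8) (.e (nat_lit 557090) (nat_lit 12) (.e (nat_lit 163841) (nat_lit 0) (.e (nat_lit 5108) (nat_lit 292) .nil))))))))) (.g (nat_lit 6) .nil .nil)))) (.nd (nat_lit 4) 
(.lf (nat_lit 21610) (.g (nat_lit 4357) (.e (nat_lit 1182) (nat_lit 87) (.e (nat_lit 57479) (nat_lit 28) (.e (nat_lit 557105) (nat_lit 14) (.e (nat_lit 180252) (nat_lit 10) (.e (nat_lit 573489) (nat_lit 14) (.e (nat_lit 73755) (nat_lit 8) (.e (nat_lit 557084) (nat_lit 10) (.e (nat_lit 8292) (nat_lit 51) (.e (nat_lit 6308) (nat_lit 337) .nil))))))))) (.g (nat_lit 8) .nil .nil))) 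
(.lf (nat_lit 21626) (.g (nat_lit 2121) (.e (nat_lit 1182) (nat_lit 87) (.e (nat_lit 57479) (nat_lit 28) (.e (nat_lit 557106) (nat_lit 15) (.e (nat_lit 188452) (nat_lit 23) .nil)))) .nil)))) (.nd (nat_lit 3) (.nd (nat_lit 4) 
(.lf (nat_lit 21606) (.g (nat_lit 3806) (.e (nat_lit 1182) (nat_lit 87) (.e (nat_lit 57479) (nat_lit 28) (.e (nat_lit 557105) (nat_lit 14) (.e (nat_lit 180252) (nat_lit 10) (.e (nat_lit 573489) (nat_lit 14) (.e (nat_lit 73755) (nat_lit 8) (.e (nat_lit 557084) (nat_lit 10) (.e (nat_lit 8291) (nat_lit 51) (.e (nat_lit 6308) (nat_lit 337) .nil))))))))) (.g (nat_lit 7) .nil .nil))) 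
(.lf (nat_lit 21622) (.g (nat_lit 2997) (.e (nat_lit 1182) (nat_lit 87) (.e (nat_lit 57479) (nat_lit 28) (.e (nat_lit 557105) (nat_lit 14) (.e (nat_lit 180252) (nat_lit 10) (.e (nat_lit 573489) (nat_lit 14) (.e (nat_lit 73755) (nat_lit 8) (.e (nat_lit 557090) (nat_lit 12) (.e (nat_lit 171776) (nat_lit 0) (.e (nat_lit 5107) (nat_lit 292) .nil))))))))) (.g (nat_lit 7) .nil .nil)))) (.nd (nat_lit 4) 
(.lf (nat_lit 21614) (.g (nat_lit 3967) (.e (nat_lit 1182) (nat_lit 87) (.e (nat_lit 57479) (nat_lit 28) (.e (nat_lit 557105) (nat_lit 14) (.e (nat_lit 180252) (nat_lit 10) (.e (nat_lit 573489) (nat_lit 14) (.e (nat_lit 73755) (nat_lit 8) (.e (nat_lit 557084) (nat_lit 10) (.e (nat_lit 8293) (nat_lit 51) (.e (nat_lit 6264) (nat_lit 337) .nil))))))))) (.g (nat_lit 7) .nil .nil))) 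
(.lf (nat_lit 21630) (.g (nat_lit 3777) (.e (nat_lit 1182) (nat_lit 87) (.e (nat_lit 57479) (nat_lit 28) (.e (nat_lit 557106) (nat_lit 15) (.e (nat_lit 188452) (nat_lit 23) (.e (nat_lit 204873) (nat_lit 30) .nil))))) .nil)))))) (.nd (nat_lit 1) (.nd (nat_lit 2) (.nd (nat_lit 3) (.nd (nat_lit 4) 
(.lf (nat_lit 21601) (.g (nat_lit 4733) (.e (nat_lit 1182) (nat_lit 87) (.e (nat_lit 57479) (nat_lit 28) (.e (nat_lit 557105) (nat_lit 14) (.e (nat_lit 180252) (nat_lit 10) (.e (nat_lit 573489) (nat_lit 14) (.e (nat_lit 73755) (nat_lit 8) (.e (nat_lit 557084) (nat_lit 10) (.e (nat_lit 8285) (nat_lit 51) (.e (nat_lit 6322) (nat_lit 337) .nil))))))))) (.g (nat_lit 9) .nil .nil))) 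
(.lf (nat_lit 21617) (.g (nat_lit 4289) (.e (nat_lit 1182) (nat_lit 87) (.e (nat_lit 57479) (nat_lit 28) (.e (nat_lit 557105) (nat_lit 14) (.e (nat_lit 180252) (nat_lit 10) (.e (nat_lit 573489) (nat_lit 14) (.e (nat_lit 73755) (nat_lit 8) (.e (nat_lit 557084) (nat_lit 10) (.e (nat_lit 8293) (nat_lit 51) (.e (nat_lit 6322) (nat_lit 337) .nil))))))))) (.g (nat_lit 7) .nil .nil)))) (.nd (nat_lit 4) 
(.lf (nat_lit 21609) (.g (nat_lit 4386) (.e (nat_lit 1182) (nat_lit 87) (.e (nat_lit 57479) (nat_lit 28) (.e (nat_lit 557105) (nat_lit 14) (.e (nat_lit 180252) (nat_lit 10) (.e (nat_lit 573489) (nat_lit 14) (.e (nat_lit 73755) (nat_lit 8) (.e (nat_lit 557084) (nat_lit 10) (.e (nat_lit 8292) (nat_lit 51) (.e (nat_lit 6264) (nat_lit 337) .nil))))))))) (.g (nat_lit 8) .nil .nil))) 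
(.lf (nat_lit 21625) (.g (nat_lit 3971) (.e (nat_lit 1182) (nat_lit 87) (.e (nat_lit 57479) (nat_lit 28) (.e (nat_lit 557106) (nat_lit 15) (.e (nat_lit 188449) (nat_lit 22) (.e (nat_lit 196668) (nat_lit 14) .nil))))) .nil)))) (.nd (nat_lit 3) (.nd (nat_lit 4) 
(.lf (nat_lit 21605) (.g (nat_lit 4420) (.e (nat_lit 1182) (nat_lit 87) (.e (nat_lit 57479) (nat_lit 28) (.e (nat_lit 557105) (nat_lit 14) (.e (nat_lit 180252) (nat_lit 10) (.e (nat_lit 573489) (nat_lit 14) (.e (nat_lit 73755) (nat_lit 8) (.e (nat_lit 557084) (nat_lit 10) (.e (nat_lit 8290) (nat_lit 51) (.e (nat_lit 6321) (nat_lit 337) .nil))))))))) (.g (nat_lit 8) .nil .nil))) 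
(.lf (nat_lit 21621) (.g (nat_lit 2209) (.e (nat_lit 1182) (nat_lit 87) (.e (nat_lit 57479) (nat_lit 28) (.e (nat_lit 557105) (nat_lit 14) (.e (nat_lit 180252) (nat_lit 10) (.e (nat_lit 573489) (nat_lit 14) (.e (nat_lit 73755) (nat_lit 8) (.e (nat_lit 557090) (nat_lit 12) (.e (nat_lit 163844) (nat_lit 0) (.e (nat_lit 7936) (nat_lit 292) .nil))))))))) (.g (nat_lit 6) .nil .nil)))) (.nd (nat_lit 4) 
(.lf (nat_lit 21613) (.g (nat_lit 4447) (.e (nat_lit 1182) (nat_lit 87) (.e (nat_lit 57479) (nat_lit 28) (.e (nat_lit 557105) (nat_lit 14) (.e (nat_lit 180252) (nat_lit 10) (.e (nat_lit 573489) (nat_lit 14) (.e (nat_lit 73755) (nat_lit 8) (.e (nat_lit 557084) (nat_lit 10) (.e (nat_lit 8292) (nat_lit 51) (.e (nat_lit 6322) (nat_lit 337) .nil))))))))) (.g (nat_lit 9) .nil .nil))) 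
(.lf (nat_lit 21629) (.g (nat_lit 3777) (.e (nat_lit 1182) (nat_lit 87) (.e (nat_lit 57479) (nat_lit 28) (.e (nat_lit 557106) (nat_lit 15) (.e (nat_lit 188452) (nat_lit 23) (.e (nat_lit 204872) (nat_lit 30) .nil))))) .nil))))) (.nd (nat_lit 2) (.nd (nat_lit 3) (.nd (nat_lit 4) 
(.lf (nat_lit 21603) (.g (nat_lit 4169) (.e (nat_lit 1182) (nat_lit 87) (.e (nat_lit 57479) (nat_lit 28) (.e (nat_lit 557105) (nat_lit 14) (.e (nat_lit 180252) (nat_lit 10) (.e (nat_lit 573489) (nat_lit 14) (.e (nat_lit 73755) (nat_lit 8) (.e (nat_lit 557084) (nat_lit 10) (.e (nat_lit 8290) (nat_lit 51) (.e (nat_lit 6264) (nat_lit 337) .nil))))))))) (.g (nat_lit 7) .nil .nil))) 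
(.lf (nat_lit 21619) (.g (nat_lit 3341) (.e (nat_lit 1182) (nat_lit 87) (.e (nat_lit 57479) (nat_lit 28) (.e (nat_lit 557105) (nat_lit 14) (.e (nat_lit 180252) (nat_lit 10) (.e (nat_lit 573489) (nat_lit 14) (.e (nat_lit 73755) (nat_lit 8) (.e (nat_lit 557090) (nat_lit 12) (.e (nat_lit 163841) (nat_lit 0) (.e (nat_lit 5148) (nat_lit 292) .nil))))))))) (.g (nat_lit 7) .nil .nil)))) (.nd (nat_lit 4) 
(.lf (nat_lit 21611) (.g (nat_lit 3765) (.e (nat_lit 1182) (nat_lit 87) (.e (nat_lit 57479) (nat_lit 28) (.e (nat_lit 557105) (nat_lit 14) (.e (nat_lit 180252) (nat_lit 10) (.e (nat_lit 573489) (nat_lit 14) (.e (nat_lit 73755) (nat_lit 8) (.e (nat_lit 557084) (nat_lit 10) (.e (nat_lit 8292) (nat_lit 51) (.e (nat_lit 6319) (nat_lit 337) .nil))))))))) (.g (nat_lit 7) .nil .nil))) 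
(.lf (nat_lit 21627) (.g (nat_lit 3702) (.e (nat_lit 1182) (nat_lit 87) (.e (nat_lit 57479) (nat_lit 28) (.e (nat_lit 557106) (nat_lit 15) (.e (nat_lit 188452) (nat_lit 23) (.e (nat_lit 204852) (nat_lit 26) .nil))))) .nil)))) (.nd (nat_lit 3) (.nd (nat_lit 4) 
(.lf (nat_lit 21607) (.g (nat_lit 4201) (.e (nat_lit 1182) (nat_lit 87) (.e (nat_lit 57479) (nat_lit 28) (.e (nat_lit 557105) (nat_lit 14) (.e (nat_lit 180252) (nat_lit 10) (.e (nat_lit 573489) (nat_lit 14) (.e (nat_lit 73755) (nat_lit 8) (.e (nat_lit 557084) (nat_lit 10) (.e (nat_lit 8291) (nat_lit 51) (.e (nat_lit 6320) (nat_lit 337) .nil))))))))) (.g (nat_lit 7) .nil .nil))) 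
(.lf (nat_lit 21623) (.g (nat_lit 3439) (.e (nat_lit 1182) (nat_lit 87) (.e (nat_lit 57479) (nat_lit 28) (.e (nat_lit 557105) (nat_lit 14) (.e (nat_lit 180252) (nat_lit 10) (.e (nat_lit 573489) (nat_lit 14) (.e (nat_lit 73755) (nat_lit 8) (.e (nat_lit 557090) (nat_lit 12) (.e (nat_lit 171776) (nat_lit 0) (.e (nat_lit 5116) (nat_lit 292) .nil))))))))) (.g (nat_lit 7) .nil .nil)))) (.nd (nat_lit 4) 
(.lf (nat_lit 21615) (.g (nat_lit 4213) (.e (nat_lit 1182) (nat_lit 87) (.e (nat_lit 57479) (nat_lit 28) (.e (nat_lit 557105) (nat_lit 14) (.e (nat_lit 180252) (nat_lit 10) (.e (nat_lit 573489) (nat_lit 14) (.e (nat_lit 73755) (nat_lit 8) (.e (nat_lit 557084) (nat_lit 10) (.e (nat_lit 8293) (nat_lit 51) (.e (nat_lit 6308) (nat_lit 337) .nil))))))))) (.g (nat_lit 7) .nil .nil))) 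
(.lf (nat_lit 21631) (.g (nat_lit 4191) (.e (nat_lit 1182) (nat_lit 87) (.e (nat_lit 57479) (nat_lit 28) (.e (nat_lit 557106) (nat_lit 15) (.e (nat_lit 188452) (nat_lit 23) (.e (nat_lit 204874) (nat_lit 30) .nil))))) .nil)))))))

noncomputable def tv305 : DT := (.nd (nat_lit 0) (.nd (nat_lit 1) (.nd (nat_lit 2) (.nd (nat_lit 3) (.nd (nat_lit 4) (.nd (nat_lit 5) 
(.lf (nat_lit 21632) (.g (nat_lit 776) (.e (nat_lit 1182) (nat_lit 87) (.e (nat_lit 57479) (nat_lit 28) (.e (nat_lit 557107) (nat_lit 15) .nil))) .nil)) 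
(.lf (nat_lit 21664) (.g (nat_lit 3292) (.e (nat_lit 1182) (nat_lit 87) (.e (nat_lit 57479) (nat_lit 28) (.e (nat_lit 557109) (nat_lit 15) (.e (nat_lit 196352) (nat_lit 18) (.e (nat_lit 393234) (nat_lit 17) (.e (nat_lit 2411) (nat_lit 157) (.e (nat_lit 5155) (nat_lit 292) .nil))))))) (.g (nat_lit 6) .nil .nil)))) (.nd (nat_lit 5) 
(.lf (nat_lit 21648) (.g (nat_lit 816) (.e (nat_lit 1182) (nat_lit 87) (.e (nat_lit 57479) (nat_lit 28) (.e (nat_lit 557109) (nat_lit 15) .nil))) .nil)) 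
(.lf (nat_lit 21680) (.g (nat_lit 3826) (.e (nat_lit 1182) (nat_lit 87) (.e (nat_lit 57479) (nat_lit 28) (.e (nat_lit 557109) (nat_lit 15) (.e (nat_lit 188452) (nat_lit 23) (.e (nat_lit 204816) (nat_lit 17) (.e (nat_lit 6154) (nat_lit 332) (.e (nat_lit 2544) (nat_lit 158) (.e (nat_lit 8439) (nat_lit 138) .nil)))))))) (.g (nat_lit 4) .nil .nil))))) (.nd (nat_lit 4) (.nd (nat_lit 5) 
(.lf (nat_lit 21640) (.g (nat_lit 5179) (.e (nat_lit 1182) (nat_lit 87) (.e (nat_lit 57479) (nat_lit 28) (.e (nat_lit 557107) (nat_lit 15) (.e (nat_lit 188439) (nat_lit 20) (.e (nat_lit 3272) (nat_lit 199) (.e (nat_lit 548913) (nat_lit 18) (.e (nat_lit 172061) (nat_lit 1) (.e (nat_lit 164424) (nat_lit 272) .nil)))))))) (.g (nat_lit 4) .nil .nil))) 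
(.lf (nat_lit 21672) (.g (nat_lit 3692) (.e (nat_lit 1182) (nat_lit 87) (.e (nat_lit 57479) (nat_lit 28) (.e (nat_lit 557109) (nat_lit 15) (.e (nat_lit 188439) (nat_lit 20) .nil)))) .nil))) (.nd (nat_lit 5) 
(.lf (nat_lit 21656) (.g (nat_lit 3136) (.e (nat_lit 1182) (nat_lit 87) (.e (nat_lit 57479) (nat_lit 28) (.e (nat_lit 557109) (nat_lit 15) (.e (nat_lit 196352) (nat_lit 18) (.e (nat_lit 393232) (nat_lit 17) (.e (nat_lit 2401) (nat_lit 157) (.e (nat_lit 5153) (nat_lit 292) .nil))))))) (.g (nat_lit 5) .nil .nil))) 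
(.lf (nat_lit 21688) (.g (nat_lit 3509) (.e (nat_lit 1182) (nat_lit 87) (.e (nat_lit 57479) (nat_lit 28) (.e (nat_lit 557109) (nat_lit 15) (.e (nat_lit 188452) (nat_lit 23) (.e (nat_lit 204816) (nat_lit 17) (.e (nat_lit 6444) (nat_lit 343) (.e (nat_lit 1181) (nat_lit 87) (.e (nat_lit 57872) (nat_lit 264) .nil)))))))) (.g (nat_lit 4) .nil .nil)))))) 
(.nd (nat_lit 3) (.nd (nat_lit 4) (.nd (nat_lit 5) 
(.lf (nat_lit 21636) (.g (nat_lit 4804) (.e (nat_lit 1182) (nat_lit 87) (.e (nat_lit 57479) (nat_lit 28) (.e (nat_lit 557107) (nat_lit 15) (.e (nat_lit 188439) (nat_lit 20) (.e (nat_lit 3271) (nat_lit 199) .nil))))) .nil)) 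
(.lf (nat_lit 21668) (.g (nat_lit 4849) (.e (nat_lit 1182) (nat_lit 87) (.e (nat_lit 57479) (nat_lit 28) (.e (nat_lit 557109) (nat_lit 15) (.e (nat_lit 188434) (nat_lit 20) (.e (nat_lit 3272) (nat_lit 199) (.e (nat_lit 548898) (nat_lit 14) (.e (nat_lit 2964) (nat_lit 185) (.e (nat_lit 434202) (nat_lit 18) (.e (nat_lit 4598) (nat_lit 269) .nil))))))))) (.g (nat_lit 4) .nil .nil)))) 
(.nd (nat_lit 5) 
(.lf (nat_lit 21652) (.g (nat_lit 3457) (.e (nat_lit 1182) (nat_lit 87) (.e (nat_lit 57479) (nat_lit 28) (.e (nat_lit 557109) (nat_lit 15) (.e (nat_lit 188419) (nat_lit 0) (.e (nat_lit 1856) (nat_lit 124) (.e (nat_lit 557105) (nat_lit 14) (.e (nat_lit 180227) (nat_lit 0) (.e (nat_lit 4598) (nat_lit 269) .nil)))))))) (.g (nat_lit 4) .nil .nil))) 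
(.lf (nat_lit 21684) (.g (nat_lit 3597) (.e (nat_lit 1182) (nat_lit 87) (.e (nat_lit 57479) (nat_lit 28) (.e (nat_lit 557109) (nat_lit 15) (.e (nat_lit 188452) (nat_lit 23) (.e (nat_lit 204816) (nat_lit 17) (.e (nat_lit 6434) (nat_lit 343) (.e (nat_lit 1183) (nat_lit 87) (.e (nat_lit 57872) (nat_lit 264) .nil)))))))) (.g (nat_lit 4) .nil .nil))))) (.nd (nat_lit 4) (.nd (nat_lit 5) 
(.lf (nat_lit 21644) (.g (nat_lit 3471) (.e (nat_lit 1182) (nat_lit 87) (.e (nat_lit 57479) (nat_lit 28) (.e (nat_lit 557107) (nat_lit 15) (.e (nat_lit 188441) (nat_lit 20) .nil)))) .nil)) 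
(.lf (nat_lit 21676) (.g (nat_lit 2457) (.e (nat_lit 1182) (nat_lit 87) (.e (nat_lit 57479) (nat_lit 28) (.e (nat_lit 557109) (nat_lit 15) (.e (nat_lit 188452) (nat_lit 23) .nil)))) .nil))) (.nd (nat_lit 5) 
(.lf (nat_lit 21660) (.g (nat_lit 2917) (.e (nat_lit 1182) (nat_lit 87) (.e (nat_lit 57479) (nat_lit 28) (.e (nat_lit 557109) (nat_lit 15) (.e (nat_lit 196352) (nat_lit 18) (.e (nat_lit 393234) (nat_lit 17) (.e (nat_lit 2398) (nat_lit 157) (.e (nat_lit 5155) (nat_lit 292) .nil))))))) (.g (nat_lit 5) .nil .nil))) 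
(.lf (nat_lit 21692) (.g (nat_lit 4233) (.e (nat_lit 1182) (nat_lit 87) (.e (nat_lit 57479) (nat_lit 28) (.e (nat_lit 557109) (nat_lit 15) (.e (nat_lit 188452) (nat_lit 23) (.e (nat_lit 204816) (nat_lit 17) (.e (nat_lit 6514) (nat_lit 346) (.e (nat_lit 57354) (nat_lit 0) (.e (nat_lit 5906) (nat_lit 320) .nil)))))))) (.g (nat_lit 5) .nil .nil))))))) 
(.nd (nat_lit 2) (.nd (nat_lit 3) (.nd (nat_lit 4) (.nd (nat_lit 5) 
(.lf (nat_lit 21634) (.g (nat_lit 3812) (.e (nat_lit 1182) (nat_lit 87) (.e (nat_lit 57479) (nat_lit 28) (.e (nat_lit 557107) (nat_lit 15) (.e (nat_lit 188434) (nat_lit 20) .nil)))) .nil)) 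
(.lf (nat_lit 21666) (.g (nat_lit 4893) (.e (nat_lit 1182) (nat_lit 87) (.e (nat_lit 57479) (nat_lit 28) (.e (nat_lit 557109) (nat_lit 15) (.e (nat_lit 188434) (nat_lit 20) (.e (nat_lit 3271) (nat_lit 199) .nil))))) .nil))) (.nd (nat_lit 5) 
(.lf (nat_lit 21650) (.g (nat_lit 2257) (.e (nat_lit 1182) (nat_lit 87) (.e (nat_lit 57479) (nat_lit 28) (.e (nat_lit 557109) (nat_lit 15) (.e (nat_lit 188419) (nat_lit 0) .nil)))) .nil)) 
(.lf (nat_lit 21682) (.g (nat_lit 3540) (.e (nat_lit 1182) (nat_lit 87) (.e (nat_lit 57479) (nat_lit 28) (.e (nat_lit 557109) (nat_lit 15) (.e (nat_lit 188452) (nat_lit 23) (.e (nat_lit 204816) (nat_lit 17) (.e (nat_lit 6155) (nat_lit 332) (.e (nat_lit 2546) (nat_lit 158) (.e (nat_lit 8439) (nat_lit 138) .nil)))))))) (.g (nat_lit 4) .nil .nil))))) (.nd (nat_lit 4) (.nd (nat_lit 5) 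
(.lf (nat_lit 21642) (.g (nat_lit 3565) (.e (nat_lit 1182) (nat_lit 87) (.e (nat_lit 57479) (nat_lit 28) (.e (nat_lit 557107) (nat_lit 15) (.e (nat_lit 188440) (nat_lit 20) (.e (nat_lit 3271) (nat_lit 199) .nil))))) .nil)) 
(.lf (nat_lit 21674) (.g (nat_lit 2230) (.e (nat_lit 1182) (nat_lit 87) (.e (nat_lit 57479) (nat_lit 28) (.e (nat_lit 557109) (nat_lit 15) (.e (nat_lit 188449) (nat_lit 22) .nil)))) .nil))) (.nd (nat_lit 5) 
(.lf (nat_lit 21658) (.g (nat_lit 2758) (.e (nat_lit 1182) (nat_lit 87) (.e (nat_lit 57479) (nat_lit 28) (.e (nat_lit 557109) (nat_lit 15) (.e (nat_lit 196352) (nat_lit 18) (.e (nat_lit 393232) (nat_lit 17) (.e (nat_lit 2412) (nat_lit 157) (.e (nat_lit 5155) (nat_lit 292) .nil))))))) (.g (nat_lit 5) .nil .nil))) 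
(.lf (nat_lit 21690) (.g (nat_lit 3539) (.e (nat_lit 1182) (nat_lit 87) (.e (nat_lit 57479) (nat_lit 28) (.e (nat_lit 557109) (nat_lit 15) (.e (nat_lit 188452) (nat_lit 23) (.e (nat_lit 204816) (nat_lit 17) (.e (nat_lit 6513) (nat_lit 346) (.e (nat_lit 57354) (nat_lit 0) (.e (nat_lit 5907) (nat_lit 320) .nil)))))))) (.g (nat_lit 4) .nil .nil)))))) 
(.nd (nat_lit 3) (.nd (nat_lit 4) (.nd (nat_lit 5) 
(.lf (nat_lit 21638) (.g (nat_lit 4970) (.e (nat_lit 1182) (nat_lit 87) (.e (nat_lit 57479) (nat_lit 28) (.e (nat_lit 557107) (nat_lit 15) (.e (nat_lit 188439) (nat_lit 20) (.e (nat_lit 3272) (nat_lit 199) (.e (nat_lit 548898) (nat_lit 14) (.e (nat_lit 2964) (nat_lit 185) (.e (nat_lit 434202) (nat_lit 18) (.e (nat_lit 4598) (nat_lit 269) .nil))))))))) (.g (nat_lit 4) .nil .nil))) 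
(.lf (nat_lit 21670) (.g (nat_lit 5317) (.e (nat_lit 1182) (nat_lit 87) (.e (nat_lit 57479) (nat_lit 28) (.e (nat_lit 557109) (nat_lit 15) (.e (nat_lit 188434) (nat_lit 20) (.e (nat_lit 3272) (nat_lit 199) (.e (nat_lit 548913) (nat_lit 18) (.e (nat_lit 172061) (nat_lit 1) (.e (nat_lit 164424) (nat_lit 272) .nil)))))))) (.g (nat_lit 4) .nil .nil)))) (.nd (nat_lit 5) 
(.lf (nat_lit 21654) (.g (nat_lit 1855) (.e (nat_lit 1182) (nat_lit 87) (.e (nat_lit 57479) (nat_lit 28) (.e (nat_lit 557109) (nat_lit 15) (.e (nat_lit 196352) (nat_lit 18) .nil)))) .nil)) 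
(.lf (nat_lit 21686) (.g (nat_lit 4847) (.e (nat_lit 1182) (nat_lit 87) (.e (nat_lit 57479) (nat_lit 28) (.e (nat_lit 557109) (nat_lit 15) (.e (nat_lit 188452) (nat_lit 23) (.e (nat_lit 204816) (nat_lit 17) (.e (nat_lit 6436) (nat_lit 343) (.e (nat_lit 1183) (nat_lit 87) (.e (nat_lit 57871) (nat_lit 264) .nil)))))))) (.g (nat_lit 6) .nil .nil))))) (.nd (nat_lit 4) (.nd (nat_lit 5) 
(.lf (nat_lit 21646) (.g (nat_lit 3554) (.e (nat_lit 1182) (nat_lit 87) (.e (nat_lit 57479) (nat_lit 28) (.e (nat_lit 557107) (nat_lit 15) (.e (nat_lit 188448) (nat_lit 22) .nil)))) .nil)) 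
(.lf (nat_lit 21678) (.g (nat_lit 3797) (.e (nat_lit 1182) (nat_lit 87) (.e (nat_lit 57479) (nat_lit 28) (.e (nat_lit 557109) (nat_lit 15) (.e (nat_lit 188452) (nat_lit 23) (.e (nat_lit 204816) (nat_lit 17) (.e (nat_lit 6152) (nat_lit 332) (.e (nat_lit 2544) (nat_lit 158) (.e (nat_lit 8439) (nat_lit 138) .nil)))))))) (.g (nat_lit 4) .nil .nil)))) (.nd (nat_lit 5) 
(.lf (nat_lit 21662) (.g (nat_lit 2868) (.e (nat_lit 1182) (nat_lit 87) (.e (nat_lit 57479) (nat_lit 28) (.e (nat_lit 557109) (nat_lit 15) (.e (nat_lit 196352) (nat_lit 18) (.e (nat_lit 393234) (nat_lit 17) (.e (nat_lit 2411) (nat_lit 157) (.e (nat_lit 5116) (nat_lit 292) .nil))))))) (.g (nat_lit 5) .nil .nil))) 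
(.lf (nat_lit 21694) (.g (nat_lit 3475) (.e (nat_lit 1182) (nat_lit 87) (.e (nat_lit 57479) (nat_lit 28) (.e (nat_lit 557109) (nat_lit 15) (.e (nat_lit 188452) (nat_lit 23) (.e (nat_lit 204816) (nat_lit 17) (.e (nat_lit 6712) (nat_lit 360) (.e (nat_lit 163841) (nat_lit 0) (.e (nat_lit 4598) (nat_lit 269) .nil)))))))) (.g (nat_lit 4) .nil .nil)))))))) 
(.nd (nat_lit 1) (.nd (nat_lit 2) (.nd (nat_lit 3) (.nd (nat_lit 4) (.nd (nat_lit 5) 
(.lf (nat_lit 21633) (.g (nat_lit 1341) (.e (nat_lit 1182) (nat_lit 87) (.e (nat_lit 57479) (nat_lit 28) (.e (nat_lit 557107) (nat_lit 15) (.e (nat_lit 196352) (nat_lit 18) .nil)))) .nil)) 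
(.lf (nat_lit 21665) (.g (nat_lit 2751) (.e (nat_lit 1182) (nat_lit 87) (.e (nat_lit 57479) (nat_lit 28) (.e (nat_lit 557109) (nat_lit 15) (.e (nat_lit 196352) (nat_lit 18) (.e (nat_lit 393234) (nat_lit 17) (.e (nat_lit 2411) (nat_lit 157) (.e (nat_lit 5156) (nat_lit 292) .nil))))))) (.g (nat_lit 5) .nil .nil)))) (.nd (nat_lit 5) 
(.lf (nat_lit 21649) (.g (nat_lit 3537) (.e (nat_lit 1182) (nat_lit 87) (.e (nat_lit 57479) (nat_lit 28) (.e (nat_lit 557109) (nat_lit 15) (.e (nat_lit 188418) (nat_lit 0) .nil)))) .nil)) 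
(.lf (nat_lit 21681) (.g (nat_lit 3604) (.e (nat_lit 1182) (nat_lit 87) (.e (nat_lit 57479) (nat_lit 28) (.e (nat_lit 557109) (nat_lit 15) (.e (nat_lit 188452) (nat_lit 23) (.e (nat_lit 204816) (nat_lit 17) (.e (nat_lit 6155) (nat_lit 332) (.e (nat_lit 2544) (nat_lit 158) (.e (nat_lit 8439) (nat_lit 138) .nil)))))))) (.g (nat_lit 4) .nil .nil))))) (.nd (nat_lit 4) (.nd (nat_lit 5) 
(.lf (nat_lit 21641) (.g (nat_lit 2412) (.e (nat_lit 1182) (nat_lit 87) (.e (nat_lit 57479) (nat_lit 28) (.e (nat_lit 557107) (nat_lit 15) (.e (nat_lit 188440) (nat_lit 20) .nil)))) .nil)) 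
(.lf (nat_lit 21673) (.g (nat_lit 5635) (.e (nat_lit 1182) (nat_lit 87) (.e (nat_lit 57479) (nat_lit 28) (.e (nat_lit 557109) (nat_lit 15) (.e (nat_lit 188441) (nat_lit 20) (.e (nat_lit 3272) (nat_lit 199) .nil))))) .nil))) (.nd (nat_lit 5) 
(.lf (nat_lit 21657) (.g (nat_lit 3125) (.e (nat_lit 1182) (nat_lit 87) (.e (nat_lit 57479) (nat_lit 28) (.e (nat_lit 557109) (nat_lit 15) (.e (nat_lit 196352) (nat_lit 18) (.e (nat_lit 393232) (nat_lit 17) (.e (nat_lit 2401) (nat_lit 157) (.e (nat_lit 5155) (nat_lit 292) .nil))))))) (.g (nat_lit 6) .nil .nil))) 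
(.lf (nat_lit 21689) (.g (nat_lit 3655) (.e (nat_lit 1182) (nat_lit 87) (.e (nat_lit 57479) (nat_lit 28) (.e (nat_lit 557109) (nat_lit 15) (.e (nat_lit 188452) (nat_lit 23) (.e (nat_lit 204816) (nat_lit 17) (.e (nat_lit 6513) (nat_lit 346) (.e (nat_lit 57354) (nat_lit 0) (.e (nat_lit 5906) (nat_lit 320) .nil)))))))) (.g (nat_lit 4) .nil .nil)))))) 
(.nd (nat_lit 3) (.nd (nat_lit 4) (.nd (nat_lit 5) 
(.lf (nat_lit 21637) (.g (nat_lit 4809) (.e (nat_lit 1182) (nat_lit 87) (.e (nat_lit 57479) (nat_lit 28) (.e (nat_lit 557107) (nat_lit 15) (.e (nat_lit 188439) (nat_lit 20) (.e (nat_lit 3272) (nat_lit 199) .nil))))) .nil)) 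
(.lf (nat_lit 21669) (.g (nat_lit 5236) (.e (nat_lit 1182) (nat_lit 87) (.e (nat_lit 57479) (nat_lit 28) (.e (nat_lit 557109) (nat_lit 15) (.e (nat_lit 188434) (nat_lit 20) (.e (nat_lit 3272) (nat_lit 199) (.e (nat_lit 548913) (nat_lit 18) (.e (nat_lit 172061) (nat_lit 1) (.e (nat_lit 164422) (nat_lit 272) .nil)))))))) (.g (nat_lit 4) .nil .nil)))) (.nd (nat_lit 5) 
(.lf (nat_lit 21653) (.g (nat_lit 1855) (.e (nat_lit 1182) (nat_lit 87) (.e (nat_lit 57479) (nat_lit 28) (.e (nat_lit 557109) (nat_lit 15) (.e (nat_lit 196352) (nat_lit 11) .nil)))) .nil)) 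
(.lf (nat_lit 21685) (.g (nat_lit 3563) (.e (nat_lit 1182) (nat_lit 87) (.e (nat_lit 57479) (nat_lit 28) (.e (nat_lit 557109) (nat_lit 15) (.e (nat_lit 188452) (nat_lit 23) (.e (nat_lit 204816) (nat_lit 17) (.e (nat_lit 6436) (nat_lit 343) (.e (nat_lit 1183) (nat_lit 87) (.e (nat_lit 57870) (nat_lit 264) .nil)))))))) (.g (nat_lit 4) .nil .nil))))) (.nd (nat_lit 4) (.nd (nat_lit 5) 
(.lf (nat_lit 21645) (.g (nat_lit 5043) (.e (nat_lit 1182) (nat_lit 87) (.e (nat_lit 57479) (nat_lit 28) (.e (nat_lit 557107) (nat_lit 15) (.e (nat_lit 188441) (nat_lit 20) (.e (nat_lit 3272) (nat_lit 199) .nil))))) .nil)) 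
(.lf (nat_lit 21677) (.g (nat_lit 3238) (.e (nat_lit 1182) (nat_lit 87) (.e (nat_lit 57479) (nat_lit 28) (.e (nat_lit 557109) (nat_lit 15) (.e (nat_lit 188452) (nat_lit 23) (.e (nat_lit 204816) (nat_lit 17) .nil))))) .nil))) (.nd (nat_lit 5) 
(.lf (nat_lit 21661) (.g (nat_lit 3127) (.e (nat_lit 1182) (nat_lit 87) (.e (nat_lit 57479) (nat_lit 28) (.e (nat_lit 557109) (nat_lit 15) (.e (nat_lit 196352) (nat_lit 18) (.e (nat_lit 393234) (nat_lit 17) (.e (nat_lit 2405) (nat_lit 157) (.e (nat_lit 5152) (nat_lit 292) .nil))))))) (.g (nat_lit 5) .nil .nil))) 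
(.lf (nat_lit 21693) (.g (nat_lit 4265) (.e (nat_lit 1182) (nat_lit 87) (.e (nat_lit 57479) (nat_lit 28) (.e (nat_lit 557109) (nat_lit 15) (.e (nat_lit 188452) (nat_lit 23) (.e (nat_lit 204816) (nat_lit 17) (.e (nat_lit 6514) (nat_lit 346) (.e (nat_lit 57354) (nat_lit 0) (.e (nat_lit 5907) (nat_lit 320) .nil)))))))) (.g (nat_lit 5) .nil .nil))))))) 
(.nd (nat_lit 2) (.nd (nat_lit 3) (.nd (nat_lit 4) (.nd (nat_lit 5) 
(.lf (nat_lit 21635) (.g (nat_lit 4833) (.e (nat_lit 1182) (nat_lit 87) (.e (nat_lit 57479) (nat_lit 28) (.e (nat_lit 557107) (nat_lit 15) (.e (nat_lit 188439) (nat_lit 20) (.e (nat_lit 3270) (nat_lit 199) .nil))))) .nil)) 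
(.lf (nat_lit 21667) (.g (nat_lit 4776) (.e (nat_lit 1182) (nat_lit 87) (.e (nat_lit 57479) (nat_lit 28) (.e (nat_lit 557109) (nat_lit 15) (.e (nat_lit 188434) (nat_lit 20) (.e (nat_lit 3272) (nat_lit 199) .nil))))) .nil))) (.nd (nat_lit 5) 
(.lf (nat_lit 21651) (.g (nat_lit 3155) (.e (nat_lit 1182) (nat_lit 87) (.e (nat_lit 57479) (nat_lit 28) (.e (nat_lit 557109) (nat_lit 15) (.e (nat_lit 188419) (nat_lit 0) (.e (nat_lit 1856) (nat_lit 124) .nil))))) .nil)) 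
(.lf (nat_lit 21683) (.g (nat_lit 3652) (.e (nat_lit 1182) (nat_lit 87) (.e (nat_lit 57479) (nat_lit 28) (.e (nat_lit 557109) (nat_lit 15) (.e (nat_lit 188452) (nat_lit 23) (.e (nat_lit 204816) (nat_lit 17) (.e (nat_lit 6203) (nat_lit 332) (.e (nat_lit 2544) (nat_lit 158) (.e (nat_lit 8439) (nat_lit 138) .nil)))))))) (.g (nat_lit 4) .nil .nil))))) (.nd (nat_lit 4) (.nd (nat_lit 5) 
(.lf (nat_lit 21643) (.g (nat_lit 3558) (.e (nat_lit 1182) (nat_lit 87) (.e (nat_lit 57479) (nat_lit 28) (.e (nat_lit 557107) (nat_lit 15) (.e (nat_lit 188440) (nat_lit 20) (.e (nat_lit 3272) (nat_lit 199) .nil))))) .nil)) 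
(.lf (nat_lit 21675) (.g (nat_lit 2557) (.e (nat_lit 1182) (nat_lit 87) (.e (nat_lit 57479) (nat_lit 28) (.e (nat_lit 557109) (nat_lit 15) (.e (nat_lit 188450) (nat_lit 23) .nil)))) .nil))) (.nd (nat_lit 5) 
(.lf (nat_lit 21659) (.g (nat_lit 3045) (.e (nat_lit 1182) (nat_lit 87) (.e (nat_lit 57479) (nat_lit 28) (.e (nat_lit 557109) (nat_lit 15) (.e (nat_lit 196352) (nat_lit 18) (.e (nat_lit 393233) (nat_lit 17) (.e (nat_lit 2398) (nat_lit 157) (.e (nat_lit 5155) (nat_lit 292) .nil))))))) (.g (nat_lit 6) .nil .nil))) 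
(.lf (nat_lit 21691) (.g (nat_lit 3704) (.e (nat_lit 1182) (nat_lit 87) (.e (nat_lit 57479) (nat_lit 28) (.e (nat_lit 557109) (nat_lit 15) (.e (nat_lit 188452) (nat_lit 23) (.e (nat_lit 204816) (nat_lit 17) (.e (nat_lit 6514) (nat_lit 346) (.e (nat_lit 57354) (nat_lit 0) (.e (nat_lit 5905) (nat_lit 320) .nil)))))))) (.g (nat_lit 4) .nil .nil)))))) 
(.nd (nat_lit 3) (.nd (nat_lit 4) (.nd (nat_lit 5) 
(.lf (nat_lit 21639) (.g (nat_lit 5098) (.e (nat_lit 1182) (nat_lit 87) (.e (nat_lit 57479) (nat_lit 28) (.e (nat_lit 557107) (nat_lit 15) (.e (nat_lit 188439) (nat_lit 20) (.e (nat_lit 3272) (nat_lit 199) (.e (nat_lit 548913) (nat_lit 18) (.e (nat_lit 172061) (nat_lit 1) (.e (nat_lit 164422) (nat_lit 272) .nil)))))))) (.g (nat_lit 4) .nil .nil))) 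
(.lf (nat_lit 21671) (.g (nat_lit 3663) (.e (nat_lit 1182) (nat_lit 87) (.e (nat_lit 57479) (nat_lit 28) (.e (nat_lit 557109) (nat_lit 15) (.e (nat_lit 188435) (nat_lit 20) .nil)))) .nil))) (.nd (nat_lit 5) 
(.lf (nat_lit 21655) (.g (nat_lit 2789) (.e (nat_lit 1182) (nat_lit 87) (.e (nat_lit 57479) (nat_lit 28) (.e (nat_lit 557109) (nat_lit 15) (.e (nat_lit 196352) (nat_lit 18) (.e (nat_lit 393217) (nat_lit 0) (.e (nat_lit 1017) (nat_lit 81) (.e (nat_lit 6321) (nat_lit 337) .nil))))))) (.g (nat_lit 6) .nil .nil))) 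
(.lf (nat_lit 21687) (.g (nat_lit 5288) (.e (nat_lit 1182) (nat_lit 87) (.e (nat_lit 57479) (nat_lit 28) (.e (nat_lit 557109) (nat_lit 15) (.e (nat_lit 188452) (nat_lit 23) (.e (nat_lit 204816) (nat_lit 17) (.e (nat_lit 6436) (nat_lit 343) (.e (nat_lit 1183) (nat_lit 87) (.e (nat_lit 57872) (nat_lit 264) .nil)))))))) (.g (nat_lit 7) .nil .nil))))) (.nd (nat_lit 4) (.nd (nat_lit 5) 
(.lf (nat_lit 21647) (.g (nat_lit 2400) (.e (nat_lit 1182) (nat_lit 87) (.e (nat_lit 57479) (nat_lit 28) (.e (nat_lit 557107) (nat_lit 15) (.e (nat_lit 188456) (nat_lit 25) .nil)))) .nil)) 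
(.lf (nat_lit 21679) (.g (nat_lit 3561) (.e (nat_lit 1182) (nat_lit 87) (.e (nat_lit 57479) (nat_lit 28) (.e (nat_lit 557109) (nat_lit 15) (.e (nat_lit 188452) (nat_lit 23) (.e (nat_lit 204816) (nat_lit 17) (.e (nat_lit 6152) (nat_lit 332) (.e (nat_lit 2546) (nat_lit 158) (.e (nat_lit 8439) (nat_lit 138) .nil)))))))) (.g (nat_lit 4) .nil .nil)))) (.nd (nat_lit 5) 
(.lf (nat_lit 21663) (.g (nat_lit 3070) (.e (nat_lit 1182) (nat_lit 87) (.e (nat_lit 57479) (nat_lit 28) (.e (nat_lit 557109) (nat_lit 15) (.e (nat_lit 196352) (nat_lit 18) (.e (nat_lit 393234) (nat_lit 17) (.e (nat_lit 2411) (nat_lit 157) (.e (nat_lit 5153) (nat_lit 292) .nil))))))) (.g (nat_lit 5) .nil .nil))) 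
(.lf (nat_lit 21695) (.g (nat_lit 5484) (.e (nat_lit 1182) (nat_lit 87) (.e (nat_lit 57479) (nat_lit 28) (.e (nat_lit 557109) (nat_lit 15) (.e (nat_lit 188452) (nat_lit 23) (.e (nat_lit 204816) (nat_lit 17) (.e (nat_lit 6712) (nat_lit 360) (.e (nat_lit 163843) (nat_lit 0) (.e (nat_lit 4598) (nat_lit 269) .nil)))))))) (.g (nat_lit 7) .nil .nil)))))))))

noncomputable def tv306 : DT := (.nd (nat_lit 0) (.nd (nat_lit 1) (.nd (nat_lit 2) (.nd (nat_lit 3) (.nd (nat_lit 4) (.nd (nat_lit 5) 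
(.lf (nat_lit 21696) (.g (nat_lit 4976) (.e (nat_lit 1182) (nat_lit 87) (.e (nat_lit 57479) (nat_lit 28) (.e (nat_lit 557109) (nat_lit 15) (.e (nat_lit 188452) (nat_lit 23) (.e (nat_lit 204816) (nat_lit 17) (.e (nat_lit 6712) (nat_lit 360) (.e (nat_lit 163844) (nat_lit 0) (.e (nat_lit 4598) (nat_lit 269) .nil)))))))) (.g (nat_lit 6) .nil .nil))) 
(.lf (nat_lit 21728) (.g (nat_lit 3540) (.e (nat_lit 1182) (nat_lit 87) (.e (nat_lit 57479) (nat_lit 28) (.e (nat_lit 557109) (nat_lit 15) (.e (nat_lit 188452) (nat_lit 23) (.e (nat_lit 204885) (nat_lit 33) (.e (nat_lit 401414) (nat_lit 0) (.e (nat_lit 2458) (nat_lit 157) (.e (nat_lit 4602) (nat_lit 269) .nil)))))))) (.g (nat_lit 4) .nil .nil)))) (.nd (nat_lit 5) 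
(.lf (nat_lit 21712) (.g (nat_lit 6285) (.e (nat_lit 1182) (nat_lit 87) (.e (nat_lit 57479) (nat_lit 28) (.e (nat_lit 557109) (nat_lit 15) (.e (nat_lit 188452) (nat_lit 23) (.e (nat_lit 204861) (nat_lit 26) .nil))))) .nil)) 
(.lf (nat_lit 21744) (.g (nat_lit 2126) (.e (nat_lit 1182) (nat_lit 87) (.e (nat_lit 57479) (nat_lit 28) (.e (nat_lit 557109) (nat_lit 15) (.e (nat_lit 188458) (nat_lit 25) .nil)))) .nil)))) (.nd (nat_lit 4) (.nd (nat_lit 5) 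
(.lf (nat_lit 21704) (.g (nat_lit 4883) (.e (nat_lit 1182) (nat_lit 87) (.e (nat_lit 57479) (nat_lit 28) (.e (nat_lit 557109) (nat_lit 15) (.e (nat_lit 188452) (nat_lit 23) (.e (nat_lit 204816) (nat_lit 17) (.e (nat_lit 6714) (nat_lit 360) (.e (nat_lit 163850) (nat_lit 0) (.e (nat_lit 4605) (nat_lit 269) .nil)))))))) (.g (nat_lit 6) .nil .nil))) 
(.lf (nat_lit 21736) (.g (nat_lit 3692) (.e (nat_lit 1182) (nat_lit 87) (.e (nat_lit 57479) (nat_lit 28) (.e (nat_lit 557109) (nat_lit 15) (.e (nat_lit 188452) (nat_lit 23) (.e (nat_lit 204885) (nat_lit 33) (.e (nat_lit 401418) (nat_lit 0) (.e (nat_lit 2475) (nat_lit 157) (.e (nat_lit 4607) (nat_lit 269) .nil)))))))) (.g (nat_lit 4) .nil .nil)))) (.nd (nat_lit 5) 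
(.lf (nat_lit 21720) (.g (nat_lit 5227) (.e (nat_lit 1182) (nat_lit 87) (.e (nat_lit 57479) (nat_lit 28) (.e (nat_lit 557109) (nat_lit 15) (.e (nat_lit 188452) (nat_lit 23) (.e (nat_lit 204874) (nat_lit 30) (.e (nat_lit 368662) (nat_lit 18) (.e (nat_lit 5907) (nat_lit 320) .nil))))))) (.g (nat_lit 4) .nil .nil))) 
(.lf (nat_lit 21752) (.g (nat_lit 3268) (.e (nat_lit 1182) (nat_lit 87) (.e (nat_lit 57479) (nat_lit 28) (.e (nat_lit 557109) (nat_lit 15) (.e (nat_lit 188458) (nat_lit 25) (.e (nat_lit 245794) (nat_lit 17) .nil))))) .nil))))) (.nd (nat_lit 3) (.nd (nat_lit 4) (.nd (nat_lit 5) 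
(.lf (nat_lit 21700) (.g (nat_lit 4514) (.e (nat_lit 1182) (nat_lit 87) (.e (nat_lit 57479) (nat_lit 28) (.e (nat_lit 557109) (nat_lit 15) (.e (nat_lit 188452) (nat_lit 23) (.e (nat_lit 204816) (nat_lit 17) (.e (nat_lit 6712) (nat_lit 360) (.e (nat_lit 163850) (nat_lit 0) (.e (nat_lit 4607) (nat_lit 269) .nil)))))))) (.g (nat_lit 5) .nil .nil))) 
(.lf (nat_lit 21732) (.g (nat_lit 3613) (.e (nat_lit 1182) (nat_lit 87) (.e (nat_lit 57479) (nat_lit 28) (.e (nat_lit 557109) (nat_lit 15) (.e (nat_lit 188452) (nat_lit 23) (.e (nat_lit 204885) (nat_lit 33) (.e (nat_lit 401418) (nat_lit 0) (.e (nat_lit 2452) (nat_lit 157) (.e (nat_lit 4605) (nat_lit 269) .nil)))))))) (.g (nat_lit 4) .nil .nil)))) (.nd (nat_lit 5) 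
(.lf (nat_lit 21716) (.g (nat_lit 4640) (.e (nat_lit 1182) (nat_lit 87) (.e (nat_lit 57479) (nat_lit 28) (.e (nat_lit 557109) (nat_lit 15) (.e (nat_lit 188452) (nat_lit 23) (.e (nat_lit 204872) (nat_lit 30) (.e (nat_lit 368662) (nat_lit 18) (.e (nat_lit 5907) (nat_lit 320) .nil))))))) (.g (nat_lit 4) .nil .nil))) 
(.lf (nat_lit 21748) (.g (nat_lit 2520) (.e (nat_lit 1182) (nat_lit 87) (.e (nat_lit 57479) (nat_lit 28) (.e (nat_lit 557109) (nat_lit 15) (.e (nat_lit 188458) (nat_lit 25) (.e (nat_lit 245784) (nat_lit 9) .nil))))) .nil)))) (.nd (nat_lit 4) (.nd (nat_lit 5) 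
(.lf (nat_lit 21708) (.g (nat_lit 5465) (.e (nat_lit 1182) (nat_lit 87) (.e (nat_lit 57479) (nat_lit 28) (.e (nat_lit 557109) (nat_lit 15) (.e (nat_lit 188452) (nat_lit 23) (.e (nat_lit 204849) (nat_lit 25) (.e (nat_lit 327692) (nat_lit 1) (.e (nat_lit 8439) (nat_lit 138) .nil))))))) (.g (nat_lit 7) .nil .nil))) 
(.lf (nat_lit 21740) (.g (nat_lit 4092) (.e (nat_lit 1182) (nat_lit 87) (.e (nat_lit 57479) (nat_lit 28) (.e (nat_lit 557109) (nat_lit 15) (.e (nat_lit 188452) (nat_lit 23) (.e (nat_lit 204885) (nat_lit 33) (.e (nat_lit 401422) (nat_lit 1) (.e (nat_lit 164422) (nat_lit 272) .nil))))))) (.g (nat_lit 5) .nil .nil)))) (.nd (nat_lit 5) 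
(.lf (nat_lit 21724) (.g (nat_lit 3820) (.e (nat_lit 1182) (nat_lit 87) (.e (nat_lit 57479) (nat_lit 28) (.e (nat_lit 557109) (nat_lit 15) (.e (nat_lit 188452) (nat_lit 23) (.e (nat_lit 204885) (nat_lit 33) (.e (nat_lit 401414) (nat_lit 0) (.e (nat_lit 2422) (nat_lit 157) (.e (nat_lit 4598) (nat_lit 269) .nil)))))))) (.g (nat_lit 4) .nil .nil))) 
(.lf (nat_lit 21756) (.g (nat_lit 3194) (.e (nat_lit 1182) (nat_lit 87) (.e (nat_lit 57479) (nat_lit 28) (.e (nat_lit 557109) (nat_lit 15) (.e (nat_lit 188461) (nat_lit 26) (.e (nat_lit 261888) (nat_lit 0) .nil))))) .nil)))))) (.nd (nat_lit 2) (.nd (nat_lit 3) (.nd (nat_lit 4) (.nd (nat_lit 5) 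
(.lf (nat_lit 21698) (.g (nat_lit 4805) (.e (nat_lit 1182) (nat_lit 87) (.e (nat_lit 57479) (nat_lit 28) (.e (nat_lit 557109) (nat_lit 15) (.e (nat_lit 188452) (nat_lit 23) (.e (nat_lit 204816) (nat_lit 17) (.e (nat_lit 6712) (nat_lit 360) (.e (nat_lit 163850) (nat_lit 0) (.e (nat_lit 4605) (nat_lit 269) .nil)))))))) (.g (nat_lit 6) .nil .nil))) 
(.lf (nat_lit 21730) (.g (nat_lit 4361) (.e (nat_lit 1182) (nat_lit 87) (.e (nat_lit 57479) (nat_lit 28) (.e (nat_lit 557109) (nat_lit 15) (.e (nat_lit 188452) (nat_lit 23) (.e (nat_lit 204885) (nat_lit 33) (.e (nat_lit 401414) (nat_lit 0) (.e (nat_lit 2458) (nat_lit 157) (.e (nat_lit 4606) (nat_lit 269) .nil)))))))) (.g (nat_lit 5) .nil .nil)))) (.nd (nat_lit 5) 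
(.lf (nat_lit 21714) (.g (nat_lit 4103) (.e (nat_lit 1182) (nat_lit 87) (.e (nat_lit 57479) (nat_lit 28) (.e (nat_lit 557109) (nat_lit 15) (.e (nat_lit 188452) (nat_lit 23) (.e (nat_lit 204872) (nat_lit 30) .nil))))) .nil)) 
(.lf (nat_lit 21746) (.g (nat_lit 3391) (.e (nat_lit 1182) (nat_lit 87) (.e (nat_lit 57479) (nat_lit 28) (.e (nat_lit 557109) (nat_lit 15) (.e (nat_lit 188458) (nat_lit 25) (.e (nat_lit 245782) (nat_lit 9) (.e (nat_lit 1413) (nat_lit 108) (.e (nat_lit 335997) (nat_lit 1) (.e (nat_lit 57870) (nat_lit 264) .nil)))))))) (.g (nat_lit 4) .nil .nil))))) (.nd (nat_lit 4) (.nd (nat_lit 5) 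
(.lf (nat_lit 21706) (.g (nat_lit 4672) (.e (nat_lit 1182) (nat_lit 87) (.e (nat_lit 57479) (nat_lit 28) (.e (nat_lit 557109) (nat_lit 15) (.e (nat_lit 188452) (nat_lit 23) (.e (nat_lit 204816) (nat_lit 17) (.e (nat_lit 6714) (nat_lit 360) (.e (nat_lit 163850) (nat_lit 0) (.e (nat_lit 4607) (nat_lit 269) .nil)))))))) (.g (nat_lit 5) .nil .nil))) 
(.lf (nat_lit 21738) (.g (nat_lit 4255) (.e (nat_lit 1182) (nat_lit 87) (.e (nat_lit 57479) (nat_lit 28) (.e (nat_lit 557109) (nat_lit 15) (.e (nat_lit 188452) (nat_lit 23) (.e (nat_lit 204885) (nat_lit 33) (.e (nat_lit 401421) (nat_lit 1) (.e (nat_lit 164422) (nat_lit 272) .nil))))))) (.g (nat_lit 5) .nil .nil)))) (.nd (nat_lit 5) 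
(.lf (nat_lit 21722) (.g (nat_lit 3430) (.e (nat_lit 1182) (nat_lit 87) (.e (nat_lit 57479) (nat_lit 28) (.e (nat_lit 557109) (nat_lit 15) (.e (nat_lit 188452) (nat_lit 23) (.e (nat_lit 204884) (nat_lit 33) .nil))))) .nil)) 
(.lf (nat_lit 21754) (.g (nat_lit 2055) (.e (nat_lit 1182) (nat_lit 87) (.e (nat_lit 57479) (nat_lit 28) (.e (nat_lit 557109) (nat_lit 15) (.e (nat_lit 188461) (nat_lit 26) .nil)))) .nil))))) (.nd (nat_lit 3) (.nd (nat_lit 4) (.nd (nat_lit 5) 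
(.lf (nat_lit 21702) (.g (nat_lit 3491) (.e (nat_lit 1182) (nat_lit 87) (.e (nat_lit 57479) (nat_lit 28) (.e (nat_lit 557109) (nat_lit 15) (.e (nat_lit 188452) (nat_lit 23) (.e (nat_lit 204816) (nat_lit 17) (.e (nat_lit 6714) (nat_lit 360) (.e (nat_lit 163841) (nat_lit 0) (.e (nat_lit 4598) (nat_lit 269) .nil)))))))) (.g (nat_lit 4) .nil .nil))) 
(.lf (nat_lit 21734) (.g (nat_lit 3854) (.e (nat_lit 1182) (nat_lit 87) (.e (nat_lit 57479) (nat_lit 28) (.e (nat_lit 557109) (nat_lit 15) (.e (nat_lit 188452) (nat_lit 23) (.e (nat_lit 204885) (nat_lit 33) (.e (nat_lit 401418) (nat_lit 0) (.e (nat_lit 2453) (nat_lit 157) (.e (nat_lit 4606) (nat_lit 269) .nil)))))))) (.g (nat_lit 4) .nil .nil)))) (.nd (nat_lit 5) 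
(.lf (nat_lit 21718) (.g (nat_lit 4977) (.e (nat_lit 1182) (nat_lit 87) (.e (nat_lit 57479) (nat_lit 28) (.e (nat_lit 557109) (nat_lit 15) (.e (nat_lit 188452) (nat_lit 23) (.e (nat_lit 204874) (nat_lit 30) .nil))))) .nil)) 
(.lf (nat_lit 21750) (.g (nat_lit 2635) (.e (nat_lit 1182) (nat_lit 87) (.e (nat_lit 57479) (nat_lit 28) (.e (nat_lit 557109) (nat_lit 15) (.e (nat_lit 188458) (nat_lit 25) (.e (nat_lit 245791) (nat_lit 14) .nil))))) .nil)))) (.nd (nat_lit 4) (.nd (nat_lit 5) 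
(.lf (nat_lit 21710) (.g (nat_lit 6404) (.e (nat_lit 1182) (nat_lit 87) (.e (nat_lit 57479) (nat_lit 28) (.e (nat_lit 557109) (nat_lit 15) (.e (nat_lit 188452) (nat_lit 23) (.e (nat_lit 204859) (nat_lit 26) .nil))))) .nil)) 
(.lf (nat_lit 21742) (.g (nat_lit 2059) (.e (nat_lit 1182) (nat_lit 87) (.e (nat_lit 57479) (nat_lit 28) (.e (nat_lit 557109) (nat_lit 15) (.e (nat_lit 188455) (nat_lit 24) .nil)))) .nil))) (.nd (nat_lit 5) 
(.lf (nat_lit 21726) (.g (nat_lit 4284) (.e (nat_lit 1182) (nat_lit 87) (.e (nat_lit 57479) (nat_lit 28) (.e (nat_lit 557109) (nat_lit 15) (.e (nat_lit 188452) (nat_lit 23) (.e (nat_lit 204885) (nat_lit 33) (.e (nat_lit 401414) (nat_lit 0) (.e (nat_lit 2426) (nat_lit 157) (.e (nat_lit 4598) (nat_lit 269) .nil)))))))) (.g (nat_lit 5) .nil .nil))) 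
(.lf (nat_lit 21758) (.g (nat_lit 848) (.e (nat_lit 1182) (nat_lit 87) (.e (nat_lit 57480) (nat_lit 28) (.e (nat_lit 557096) (nat_lit 13) .nil))) .nil))))))) (.nd (nat_lit 1) (.nd (nat_lit 2) (.nd (nat_lit 3) (.nd (nat_lit 4) (.nd (nat_lit 5) 
(.lf (nat_lit 21697) (.g (nat_lit 4697) (.e (nat_lit 1182) (nat_lit 87) (.e (nat_lit 57479) (nat_lit 28) (.e (nat_lit 557109) (nat_lit 15) (.e (nat_lit 188452) (nat_lit 23) (.e (nat_lit 204816) (nat_lit 17) (.e (nat_lit 6712) (nat_lit 360) (.e (nat_lit 163849) (nat_lit 0) (.e (nat_lit 4598) (nat_lit 269) .nil)))))))) (.g (nat_lit 5) .nil .nil))) 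
(.lf (nat_lit 21729) (.g (nat_lit 4727) (.e (nat_lit 1182) (nat_lit 87) (.e (nat_lit 57479) (nat_lit 28) (.e (nat_lit 557109) (nat_lit 15) (.e (nat_lit 188452) (nat_lit 23) (.e (nat_lit 204885) (nat_lit 33) (.e (nat_lit 401414) (nat_lit 0) (.e (nat_lit 2458) (nat_lit 157) (.e (nat_lit 4605) (nat_lit 269) .nil)))))))) (.g (nat_lit 6) .nil .nil)))) (.nd (nat_lit 5) 
(.lf (nat_lit 21713) (.g (nat_lit 5268) (.e (nat_lit 1182) (nat_lit 87) (.e (nat_lit 57479) (nat_lit 28) (.e (nat_lit 557109) (nat_lit 15) (.e (nat_lit 188452) (nat_lit 23) (.e (nat_lit 212736) (nat_lit 26) .nil))))) .nil)) 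
(.lf (nat_lit 21745) (.g (nat_lit 3203) (.e (nat_lit 1182) (nat_lit 87) (.e (nat_lit 57479) (nat_lit 28) (.e (nat_lit 557109) (nat_lit 15) (.e (nat_lit 188458) (nat_lit 25) (.e (nat_lit 245782) (nat_lit 9) .nil))))) .nil)))) (.nd (nat_lit 4) (.nd (nat_lit 5) 
(.lf (nat_lit 21705) (.g (nat_lit 4613) (.e (nat_lit 1182) (nat_lit 87) (.e (nat_lit 57479) (nat_lit 28) (.e (nat_lit 557109) (nat_lit 15) (.e (nat_lit 188452) (nat_lit 23) (.e (nat_lit 204816) (nat_lit 17) (.e (nat_lit 6714) (nat_lit 360) (.e (nat_lit 163850) (nat_lit 0) (.e (nat_lit 4606) (nat_lit 269) .nil)))))))) (.g (nat_lit 5) .nil .nil))) 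
(.lf (nat_lit 21737) (.g (nat_lit 3973) (.e (nat_lit 1182) (nat_lit 87) (.e (nat_lit 57479) (nat_lit 28) (.e (nat_lit 557109) (nat_lit 15) (.e (nat_lit 188452) (nat_lit 23) (.e (nat_lit 204885) (nat_lit 33) (.e (nat_lit 401420) (nat_lit 1) (.e (nat_lit 164422) (nat_lit 272) .nil))))))) (.g (nat_lit 4) .nil .nil)))) (.nd (nat_lit 5) 
(.lf (nat_lit 21721) (.g (nat_lit 5350) (.e (nat_lit 1182) (nat_lit 87) (.e (nat_lit 57479) (nat_lit 28) (.e (nat_lit 557109) (nat_lit 15) (.e (nat_lit 188452) (nat_lit 23) (.e (nat_lit 204880) (nat_lit 32) .nil))))) .nil)) 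
(.lf (nat_lit 21753) (.g (nat_lit 3335) (.e (nat_lit 1182) (nat_lit 87) (.e (nat_lit 57479) (nat_lit 28) (.e (nat_lit 557109) (nat_lit 15) (.e (nat_lit 188458) (nat_lit 25) (.e (nat_lit 245794) (nat_lit 17) (.e (nat_lit 131089) (nat_lit 1) (.e (nat_lit 57870) (nat_lit 264) .nil))))))) (.g (nat_lit 4) .nil .nil)))))) (.nd (nat_lit 3) (.nd (nat_lit 4) (.nd (nat_lit 5) 
(.lf (nat_lit 21701) (.g (nat_lit 3713) (.e (nat_lit 1182) (nat_lit 87) (.e (nat_lit 57479) (nat_lit 28) (.e (nat_lit 557109) (nat_lit 15) (.e (nat_lit 188452) (nat_lit 23) (.e (nat_lit 204816) (nat_lit 17) (.e (nat_lit 6712) (nat_lit 360) (.e (nat_lit 163853) (nat_lit 0) (.e (nat_lit 4607) (nat_lit 269) .nil)))))))) (.g (nat_lit 4) .nil .nil))) 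
(.lf (nat_lit 21733) (.g (nat_lit 3314) (.e (nat_lit 1182) (nat_lit 87) (.e (nat_lit 57479) (nat_lit 28) (.e (nat_lit 557109) (nat_lit 15) (.e (nat_lit 188452) (nat_lit 23) (.e (nat_lit 204885) (nat_lit 33) (.e (nat_lit 401418) (nat_lit 0) (.e (nat_lit 2452) (nat_lit 157) (.e (nat_lit 4607) (nat_lit 269) .nil)))))))) (.g (nat_lit 4) .nil .nil)))) (.nd (nat_lit 5) 
(.lf (nat_lit 21717) (.g (nat_lit 5322) (.e (nat_lit 1182) (nat_lit 87) (.e (nat_lit 57479) (nat_lit 28) (.e (nat_lit 557109) (nat_lit 15) (.e (nat_lit 188452) (nat_lit 23) (.e (nat_lit 204873) (nat_lit 30) .nil))))) .nil)) 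
(.lf (nat_lit 21749) (.g (nat_lit 3213) (.e (nat_lit 1182) (nat_lit 87) (.e (nat_lit 57479) (nat_lit 28) (.e (nat_lit 557109) (nat_lit 15) (.e (nat_lit 188458) (nat_lit 25) (.e (nat_lit 245784) (nat_lit 9) (.e (nat_lit 1413) (nat_lit 108) (.e (nat_lit 335997) (nat_lit 1) (.e (nat_lit 57871) (nat_lit 264) .nil)))))))) (.g (nat_lit 4) .nil .nil))))) (.nd (nat_lit 4) (.nd (nat_lit 5) 
(.lf (nat_lit 21709) (.g (nat_lit 3576) (.e (nat_lit 1182) (nat_lit 87) (.e (nat_lit 57479) (nat_lit 28) (.e (nat_lit 557109) (nat_lit 15) (.e (nat_lit 188452) (nat_lit 23) (.e (nat_lit 204852) (nat_lit 26) .nil))))) .nil)) 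
(.lf (nat_lit 21741) (.g (nat_lit 3442) (.e (nat_lit 1182) (nat_lit 87) (.e (nat_lit 57479) (nat_lit 28) (.e (nat_lit 557109) (nat_lit 15) (.e (nat_lit 188452) (nat_lit 23) (.e (nat_lit 204885) (nat_lit 33) (.e (nat_lit 401463) (nat_lit 15) (.e (nat_lit 1014) (nat_lit 81) (.e (nat_lit 7454) (nat_lit 396) .nil)))))))) (.g (nat_lit 4) .nil .nil)))) (.nd (nat_lit 5) 
(.lf (nat_lit 21725) (.g (nat_lit 4422) (.e (nat_lit 1182) (nat_lit 87) (.e (nat_lit 57479) (nat_lit 28) (.e (nat_lit 557109) (nat_lit 15) (.e (nat_lit 188452) (nat_lit 23) (.e (nat_lit 204885) (nat_lit 33) (.e (nat_lit 401414) (nat_lit 0) (.e (nat_lit 2424) (nat_lit 157) (.e (nat_lit 4616) (nat_lit 269) .nil)))))))) (.g (nat_lit 5) .nil .nil))) 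
(.lf (nat_lit 21757) (.g (nat_lit 3194) (.e (nat_lit 1182) (nat_lit 87) (.e (nat_lit 57479) (nat_lit 28) (.e (nat_lit 557109) (nat_lit 15) (.e (nat_lit 188461) (nat_lit 26) (.e (nat_lit 261888) (nat_lit 4) .nil))))) .nil)))))) (.nd (nat_lit 2) (.nd (nat_lit 3) (.nd (nat_lit 4) (.nd (nat_lit 5) 
(.lf (nat_lit 21699) (.g (nat_lit 4514) (.e (nat_lit 1182) (nat_lit 87) (.e (nat_lit 57479) (nat_lit 28) (.e (nat_lit 557109) (nat_lit 15) (.e (nat_lit 188452) (nat_lit 23) (.e (nat_lit 204816) (nat_lit 17) (.e (nat_lit 6712) (nat_lit 360) (.e (nat_lit 163850) (nat_lit 0) (.e (nat_lit 4606) (nat_lit 269) .nil)))))))) (.g (nat_lit 5) .nil .nil))) 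
(.lf (nat_lit 21731) (.g (nat_lit 3894) (.e (nat_lit 1182) (nat_lit 87) (.e (nat_lit 57479) (nat_lit 28) (.e (nat_lit 557109) (nat_lit 15) (.e (nat_lit 188452) (nat_lit 23) (.e (nat_lit 204885) (nat_lit 33) (.e (nat_lit 401414) (nat_lit 0) (.e (nat_lit 2478) (nat_lit 157) (.e (nat_lit 4605) (nat_lit 269) .nil)))))))) (.g (nat_lit 4) .nil .nil)))) (.nd (nat_lit 5) 
(.lf (nat_lit 21715) (.g (nat_lit 4493) (.e (nat_lit 1182) (nat_lit 87) (.e (nat_lit 57479) (nat_lit 28) (.e (nat_lit 557109) (nat_lit 15) (.e (nat_lit 188452) (nat_lit 23) (.e (nat_lit 204872) (nat_lit 30) (.e (nat_lit 368662) (nat_lit 18) (.e (nat_lit 5906) (nat_lit 320) .nil))))))) (.g (nat_lit 4) .nil .nil))) 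
(.lf (nat_lit 21747) (.g (nat_lit 3400) (.e (nat_lit 1182) (nat_lit 87) (.e (nat_lit 57479) (nat_lit 28) (.e (nat_lit 557109) (nat_lit 15) (.e (nat_lit 188458) (nat_lit 25) (.e (nat_lit 245782) (nat_lit 9) (.e (nat_lit 1413) (nat_lit 108) (.e (nat_lit 335997) (nat_lit 1) (.e (nat_lit 57872) (nat_lit 264) .nil)))))))) (.g (nat_lit 4) .nil .nil))))) (.nd (nat_lit 4) (.nd (nat_lit 5) 
(.lf (nat_lit 21707) (.g (nat_lit 3539) (.e (nat_lit 1182) (nat_lit 87) (.e (nat_lit 57479) (nat_lit 28) (.e (nat_lit 557109) (nat_lit 15) (.e (nat_lit 188452) (nat_lit 23) (.e (nat_lit 204849) (nat_lit 25) .nil))))) .nil)) 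
(.lf (nat_lit 21739) (.g (nat_lit 3308) (.e (nat_lit 1182) (nat_lit 87) (.e (nat_lit 57479) (nat_lit 28) (.e (nat_lit 557109) (nat_lit 15) (.e (nat_lit 188452) (nat_lit 23) (.e (nat_lit 204885) (nat_lit 33) (.e (nat_lit 401421) (nat_lit 1) (.e (nat_lit 164424) (nat_lit 272) .nil))))))) (.g (nat_lit 4) .nil .nil)))) (.nd (nat_lit 5) 
(.lf (nat_lit 21723) (.g (nat_lit 3195) (.e (nat_lit 1182) (nat_lit 87) (.e (nat_lit 57479) (nat_lit 28) (.e (nat_lit 557109) (nat_lit 15) (.e (nat_lit 188452) (nat_lit 23) (.e (nat_lit 204885) (nat_lit 33) .nil))))) .nil)) 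
(.lf (nat_lit 21755) (.g (nat_lit 3324) (.e (nat_lit 1182) (nat_lit 87) (.e (nat_lit 57479) (nat_lit 28) (.e (nat_lit 557109) (nat_lit 15) (.e (nat_lit 188461) (nat_lit 26) (.e (nat_lit 253954) (nat_lit 0) .nil))))) .nil))))) (.nd (nat_lit 3) (.nd (nat_lit 4) (.nd (nat_lit 5) 
(.lf (nat_lit 21703) (.g (nat_lit 5425) (.e (nat_lit 1182) (nat_lit 87) (.e (nat_lit 57479) (nat_lit 28) (.e (nat_lit 557109) (nat_lit 15) (.e (nat_lit 188452) (nat_lit 23) (.e (nat_lit 204816) (nat_lit 17) (.e (nat_lit 6714) (nat_lit 360) (.e (nat_lit 163843) (nat_lit 0) (.e (nat_lit 4598) (nat_lit 269) .nil)))))))) (.g (nat_lit 7) .nil .nil))) 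
(.lf (nat_lit 21735) (.g (nat_lit 3780) (.e (nat_lit 1182) (nat_lit 87) (.e (nat_lit 57479) (nat_lit 28) (.e (nat_lit 557109) (nat_lit 15) (.e (nat_lit 188452) (nat_lit 23) (.e (nat_lit 204885) (nat_lit 33) (.e (nat_lit 401418) (nat_lit 0) (.e (nat_lit 2471) (nat_lit 157) (.e (nat_lit 4605) (nat_lit 269) .nil)))))))) (.g (nat_lit 4) .nil .nil)))) (.nd (nat_lit 5) 
(.lf (nat_lit 21719) (.g (nat_lit 5202) (.e (nat_lit 1182) (nat_lit 87) (.e (nat_lit 57479) (nat_lit 28) (.e (nat_lit 557109) (nat_lit 15) (.e (nat_lit 188452) (nat_lit 23) (.e (nat_lit 204874) (nat_lit 30) (.e (nat_lit 368662) (nat_lit 18) (.e (nat_lit 5906) (nat_lit 320) .nil))))))) (.g (nat_lit 4) .nil .nil))) 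
(.lf (nat_lit 21751) (.g (nat_lit 3177) (.e (nat_lit 1182) (nat_lit 87) (.e (nat_lit 57479) (nat_lit 28) (.e (nat_lit 557109) (nat_lit 15) (.e (nat_lit 188458) (nat_lit 25) (.e (nat_lit 245791) (nat_lit 14) (.e (nat_lit 73733) (nat_lit 0) (.e (nat_lit 5907) (nat_lit 320) .nil))))))) (.g (nat_lit 4) .nil .nil))))) (.nd (nat_lit 4) (.nd (nat_lit 5) 
(.lf (nat_lit 21711) (.g (nat_lit 6863) (.e (nat_lit 1182) (nat_lit 87) (.e (nat_lit 57479) (nat_lit 28) (.e (nat_lit 557109) (nat_lit 15) (.e (nat_lit 188452) (nat_lit 23) (.e (nat_lit 204860) (nat_lit 26) .nil))))) .nil)) 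
(.lf (nat_lit 21743) (.g (nat_lit 2470) (.e (nat_lit 1182) (nat_lit 87) (.e (nat_lit 57479) (nat_lit 28) (.e (nat_lit 557109) (nat_lit 15) (.e (nat_lit 188457) (nat_lit 25) .nil)))) .nil))) (.nd (nat_lit 5) 
(.lf (nat_lit 21727) (.g (nat_lit 3465) (.e (nat_lit 1182) (nat_lit 87) (.e (nat_lit 57479) (nat_lit 28) (.e (nat_lit 557109) (nat_lit 15) (.e (nat_lit 188452) (nat_lit 23) (.e (nat_lit 204885) (nat_lit 33) (.e (nat_lit 401414) (nat_lit 0) (.e (nat_lit 2438) (nat_lit 157) (.e (nat_lit 4602) (nat_lit 269) .nil)))))))) (.g (nat_lit 4) .nil .nil))) 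
(.lf (nat_lit 21759) (.g (nat_lit 2493) (.e (nat_lit 1182) (nat_lit 87) (.e (nat_lit 57480) (nat_lit 28) (.e (nat_lit 557097) (nat_lit 13) (.e (nat_lit 172097) (nat_lit 9) (.e (nat_lit 426140) (nat_lit 3) .nil))))) .nil))))))))

noncomputable def tv307 : DT := (.nd (nat_lit 0) (.nd (nat_lit 1) (.nd (nat_lit 2) (.nd (nat_lit 3) (.nd (nat_lit 4) (.nd (nat_lit 5) 
(.lf (nat_lit 21760) (.g (nat_lit 2742) (.e (nat_lit 1182) (nat_lit 87) (.e (nat_lit 57480) (nat_lit 28) (.e (nat_lit 557097) (nat_lit 13) (.e (nat_lit 172115) (nat_lit 10) (.e (nat_lit 434244) (nat_lit 28) .nil))))) .nil)) 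
(.lf (nat_lit 21792) (.g (nat_lit 4964) (.e (nat_lit 1182) (nat_lit 87) (.e (nat_lit 57480) (nat_lit 28) (.e (nat_lit 557098) (nat_lit 13) (.e (nat_lit 172097) (nat_lit 9) (.e (nat_lit 426140) (nat_lit 3) (.e (nat_lit 204863) (nat_lit 27) (.e (nat_lit 344097) (nat_lit 18) (.e (nat_lit 5907) (nat_lit 320) .nil)))))))) (.g (nat_lit 8) .nil .nil)))) (.nd (nat_lit 5) 
(.lf (nat_lit 21776) (.g (nat_lit 3909) (.e (nat_lit 1182) (nat_lit 87) (.e (nat_lit 57480) (nat_lit 28) (.e (nat_lit 557098) (nat_lit 13) (.e (nat_lit 172097) (nat_lit 9) (.e (nat_lit 426140) (nat_lit 3) (.e (nat_lit 204850) (nat_lit 26) (.e (nat_lit 335997) (nat_lit 1) (.e (nat_lit 57870) (nat_lit 264) .nil)))))))) (.g (nat_lit 7) .nil .nil))) 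
(.lf (nat_lit 21808) (.g (nat_lit 3848) (.e (nat_lit 1182) (nat_lit 87) (.e (nat_lit 57480) (nat_lit 28) (.e (nat_lit 557098) (nat_lit 13) (.e (nat_lit 172115) (nat_lit 10) (.e (nat_lit 434231) (nat_lit 23) (.e (nat_lit 532553) (nat_lit 13) (.e (nat_lit 368662) (nat_lit 18) (.e (nat_lit 5907) (nat_lit 320) .nil)))))))) (.g (nat_lit 6) .nil .nil))))) (.nd (nat_lit 4) (.nd (nat_lit 5) 
(.lf (nat_lit 21768) (.g (nat_lit 4352) (.e (nat_lit 1182) (nat_lit 87) (.e (nat_lit 57480) (nat_lit 28) (.e (nat_lit 557098) (nat_lit 13) (.e (nat_lit 172097) (nat_lit 9) (.e (nat_lit 426125) (nat_lit 2) (.e (nat_lit 196666) (nat_lit 13) (.e (nat_lit 65563) (nat_lit 1) (.e (nat_lit 57870) (nat_lit 264) .nil)))))))) (.g (nat_lit 7) .nil .nil))) 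
(.lf (nat_lit 21800) (.g (nat_lit 5397) (.e (nat_lit 1182) (nat_lit 87) (.e (nat_lit 57480) (nat_lit 28) (.e (nat_lit 557098) (nat_lit 13) (.e (nat_lit 172115) (nat_lit 10) (.e (nat_lit 434231) (nat_lit 23) (.e (nat_lit 532535) (nat_lit 9) (.e (nat_lit 335992) (nat_lit 1) (.e (nat_lit 57870) (nat_lit 264) .nil)))))))) (.g (nat_lit 8) .nil .nil)))) (.nd (nat_lit 5) 
(.lf (nat_lit 21784) (.g (nat_lit 2995) (.e (nat_lit 1182) (nat_lit 87) (.e (nat_lit 57480) (nat_lit 28) (.e (nat_lit 557098) (nat_lit 13) (.e (nat_lit 172097) (nat_lit 9) (.e (nat_lit 426140) (nat_lit 3) (.e (nat_lit 204855) (nat_lit 26) (.e (nat_lit 335992) (nat_lit 1) (.e (nat_lit 57873) (nat_lit 264) .nil)))))))) (.g (nat_lit 5) .nil .nil))) 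
(.lf (nat_lit 21816) (.g (nat_lit 4478) (.e (nat_lit 1182) (nat_lit 87) (.e (nat_lit 57480) (nat_lit 28) (.e (nat_lit 557098) (nat_lit 13) (.e (nat_lit 172115) (nat_lit 10) (.e (nat_lit 434244) (nat_lit 28) (.e (nat_lit 573471) (nat_lit 11) (.e (nat_lit 16405) (nat_lit 1) (.e (nat_lit 164422) (nat_lit 272) .nil)))))))) (.g (nat_lit 8) .nil .nil)))))) 
(.nd (nat_lit 3) (.nd (nat_lit 4) (.nd (nat_lit 5) 
(.lf (nat_lit 21764) (.g (nat_lit 2205) (.e (nat_lit 1182) (nat_lit 87) (.e (nat_lit 57480) (nat_lit 28) (.e (nat_lit 557098) (nat_lit 13) (.e (nat_lit 172097) (nat_lit 9) (.e (nat_lit 426125) (nat_lit 2) (.e (nat_lit 196630) (nat_lit 9) (.e (nat_lit 1485) (nat_lit 108) (.e (nat_lit 335995) (nat_lit 1) (.e (nat_lit 57872) (nat_lit 264) .nil))))))))) (.g (nat_lit 4) .nil .nil))) 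
(.lf (nat_lit 21796) (.g (nat_lit 4374) (.e (nat_lit 1182) (nat_lit 87) (.e (nat_lit 57480) (nat_lit 28) (.e (nat_lit 557098) (nat_lit 13) (.e (nat_lit 172115) (nat_lit 10) (.e (nat_lit 434231) (nat_lit 23) (.e (nat_lit 532535) (nat_lit 9) (.e (nat_lit 335985) (nat_lit 1) (.e (nat_lit 57870) (nat_lit 264) .nil)))))))) (.g (nat_lit 8) .nil .nil)))) (.nd (nat_lit 5) 
(.lf (nat_lit 21780) (.g (nat_lit 3599) (.e (nat_lit 1182) (nat_lit 87) (.e (nat_lit 57480) (nat_lit 28) (.e (nat_lit 557098) (nat_lit 13) (.e (nat_lit 172097) (nat_lit 9) (.e (nat_lit 426140) (nat_lit 3) (.e (nat_lit 204855) (nat_lit 26) (.e (nat_lit 335985) (nat_lit 1) (.e (nat_lit 57871) (nat_lit 264) .nil)))))))) (.g (nat_lit 6) .nil .nil))) 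
(.lf (nat_lit 21812) (.g (nat_lit 4794) (.e (nat_lit 1182) (nat_lit 87) (.e (nat_lit 57480) (nat_lit 28) (.e (nat_lit 557098) (nat_lit 13) (.e (nat_lit 172115) (nat_lit 10) (.e (nat_lit 434231) (nat_lit 23) (.e (nat_lit 532554) (nat_lit 13) (.e (nat_lit 368662) (nat_lit 18) (.e (nat_lit 5907) (nat_lit 320) .nil)))))))) (.g (nat_lit 8) .nil .nil))))) (.nd (nat_lit 4) (.nd (nat_lit 5) 
(.lf (nat_lit 21772) (.g (nat_lit 3978) (.e (nat_lit 1182) (nat_lit 87) (.e (nat_lit 57480) (nat_lit 28) (.e (nat_lit 557098) (nat_lit 13) (.e (nat_lit 172097) (nat_lit 9) (.e (nat_lit 426125) (nat_lit 2) (.e (nat_lit 196666) (nat_lit 13) (.e (nat_lit 65565) (nat_lit 1) (.e (nat_lit 57871) (nat_lit 264) .nil)))))))) (.g (nat_lit 7) .nil .nil))) 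
(.lf (nat_lit 21804) (.g (nat_lit 4478) (.e (nat_lit 1182) (nat_lit 87) (.e (nat_lit 57480) (nat_lit 28) (.e (nat_lit 557098) (nat_lit 13) (.e (nat_lit 172115) (nat_lit 10) (.e (nat_lit 434231) (nat_lit 23) (.e (nat_lit 532543) (nat_lit 10) (.e (nat_lit 344097) (nat_lit 18) (.e (nat_lit 5906) (nat_lit 320) .nil)))))))) (.g (nat_lit 8) .nil .nil)))) (.nd (nat_lit 5) 
(.lf (nat_lit 21788) (.g (nat_lit 4469) (.e (nat_lit 1182) (nat_lit 87) (.e (nat_lit 57480) (nat_lit 28) (.e (nat_lit 557098) (nat_lit 13) (.e (nat_lit 172097) (nat_lit 9) (.e (nat_lit 426140) (nat_lit 3) (.e (nat_lit 204862) (nat_lit 27) (.e (nat_lit 344097) (nat_lit 18) (.e (nat_lit 5906) (nat_lit 320) .nil)))))))) (.g (nat_lit 7) .nil .nil))) 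
(.lf (nat_lit 21820) (.g (nat_lit 2504) (.e (nat_lit 1182) (nat_lit 87) (.e (nat_lit 57480) (nat_lit 28) (.e (nat_lit 557103) (nat_lit 14) (.e (nat_lit 180250) (nat_lit 10) (.e (nat_lit 573485) (nat_lit 13) .nil))))) .nil)))))) (.nd (nat_lit 2) (.nd (nat_lit 3) (.nd (nat_lit 4) (.nd (nat_lit 5) 
(.lf (nat_lit 21762) (.g (nat_lit 1211) (.e (nat_lit 1182) (nat_lit 87) (.e (nat_lit 57480) (nat_lit 28) (.e (nat_lit 557098) (nat_lit 13) (.e (nat_lit 172097) (nat_lit 9) .nil)))) .nil)) 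
(.lf (nat_lit 21794) (.g (nat_lit 3945) (.e (nat_lit 1182) (nat_lit 87) (.e (nat_lit 57480) (nat_lit 28) (.e (nat_lit 557098) (nat_lit 13) (.e (nat_lit 172115) (nat_lit 10) (.e (nat_lit 434231) (nat_lit 23) (.e (nat_lit 532527) (nat_lit 9) (.e (nat_lit 335997) (nat_lit 1) (.e (nat_lit 57871) (nat_lit 264) .nil)))))))) (.g (nat_lit 7) .nil .nil)))) (.nd (nat_lit 5) 
(.lf (nat_lit 21778) (.g (nat_lit 2383) (.e (nat_lit 1182) (nat_lit 87) (.e (nat_lit 57480) (nat_lit 28) (.e (nat_lit 557098) (nat_lit 13) (.e (nat_lit 172097) (nat_lit 9) (.e (nat_lit 426140) (nat_lit 3) (.e (nat_lit 204855) (nat_lit 26) (.e (nat_lit 335901) (nat_lit 0) (.e (nat_lit 1095) (nat_lit 81) (.e (nat_lit 5902) (nat_lit 320) .nil))))))))) (.g (nat_lit 4) .nil .nil))) 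
(.lf (nat_lit 21810) (.g (nat_lit 3262) (.e (nat_lit 1182) (nat_lit 87) (.e (nat_lit 57480) (nat_lit 28) (.e (nat_lit 557098) (nat_lit 13) (.e (nat_lit 172115) (nat_lit 10) (.e (nat_lit 434231) (nat_lit 23) (.e (nat_lit 532554) (nat_lit 13) (.e (nat_lit 368662) (nat_lit 18) (.e (nat_lit 5905) (nat_lit 320) .nil)))))))) (.g (nat_lit 5) .nil .nil))))) (.nd (nat_lit 4) (.nd (nat_lit 5) 
(.lf (nat_lit 21770) (.g (nat_lit 4726) (.e (nat_lit 1182) (nat_lit 87) (.e (nat_lit 57480) (nat_lit 28) (.e (nat_lit 557098) (nat_lit 13) (.e (nat_lit 172097) (nat_lit 9) (.e (nat_lit 426125) (nat_lit 2) (.e (nat_lit 196666) (nat_lit 13) (.e (nat_lit 65563) (nat_lit 1) (.e (nat_lit 57873) (nat_lit 264) .nil)))))))) (.g (nat_lit 8) .nil .nil))) 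
(.lf (nat_lit 21802) (.g (nat_lit 3160) (.e (nat_lit 1182) (nat_lit 87) (.e (nat_lit 57480) (nat_lit 28) (.e (nat_lit 557098) (nat_lit 13) (.e (nat_lit 172115) (nat_lit 10) (.e (nat_lit 434231) (nat_lit 23) (.e (nat_lit 532536) (nat_lit 9) (.e (nat_lit 335997) (nat_lit 1) (.e (nat_lit 57872) (nat_lit 264) .nil)))))))) (.g (nat_lit 5) .nil .nil)))) (.nd (nat_lit 5) 
(.lf (nat_lit 21786) (.g (nat_lit 2406) (.e (nat_lit 1182) (nat_lit 87) (.e (nat_lit 57480) (nat_lit 28) (.e (nat_lit 557098) (nat_lit 13) (.e (nat_lit 172097) (nat_lit 9) (.e (nat_lit 426140) (nat_lit 3) (.e (nat_lit 212736) (nat_lit 26) (.e (nat_lit 335995) (nat_lit 1) (.e (nat_lit 57872) (nat_lit 264) .nil)))))))) (.g (nat_lit 4) .nil .nil))) 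
(.lf (nat_lit 21818) (.g (nat_lit 667) (.e (nat_lit 1182) (nat_lit 87) (.e (nat_lit 57480) (nat_lit 28) (.e (nat_lit 557103) (nat_lit 14) .nil))) .nil))))) (.nd (nat_lit 3) (.nd (nat_lit 4) (.nd (nat_lit 5) 
(.lf (nat_lit 21766) (.g (nat_lit 4369) (.e (nat_lit 1182) (nat_lit 87) (.e (nat_lit 57480) (nat_lit 28) (.e (nat_lit 557098) (nat_lit 13) (.e (nat_lit 172097) (nat_lit 9) (.e (nat_lit 426125) (nat_lit 2) (.e (nat_lit 196666) (nat_lit 13) (.e (nat_lit 65550) (nat_lit 0) (.e (nat_lit 1023) (nat_lit 81) (.e (nat_lit 5905) (nat_lit 320) .nil))))))))) (.g (nat_lit 6) .nil .nil))) 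
(.lf (nat_lit 21798) (.g (nat_lit 4437) (.e (nat_lit 1182) (nat_lit 87) (.e (nat_lit 57480) (nat_lit 28) (.e (nat_lit 557098) (nat_lit 13) (.e (nat_lit 172115) (nat_lit 10) (.e (nat_lit 434231) (nat_lit 23) (.e (nat_lit 532535) (nat_lit 9) (.e (nat_lit 335985) (nat_lit 1) (.e (nat_lit 57872) (nat_lit 264) .nil)))))))) (.g (nat_lit 8) .nil .nil)))) (.nd (nat_lit 5) 
(.lf (nat_lit 21782) (.g (nat_lit 3966) (.e (nat_lit 1182) (nat_lit 87) (.e (nat_lit 57480) (nat_lit 28) (.e (nat_lit 557098) (nat_lit 13) (.e (nat_lit 172097) (nat_lit 9) (.e (nat_lit 426140) (nat_lit 3) (.e (nat_lit 204855) (nat_lit 26) (.e (nat_lit 335992) (nat_lit 1) (.e (nat_lit 57870) (nat_lit 264) .nil)))))))) (.g (nat_lit 7) .nil .nil))) 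
(.lf (nat_lit 21814) (.g (nat_lit 4284) (.e (nat_lit 1182) (nat_lit 87) (.e (nat_lit 57480) (nat_lit 28) (.e (nat_lit 557098) (nat_lit 13) (.e (nat_lit 172115) (nat_lit 10) (.e (nat_lit 434244) (nat_lit 28) (.e (nat_lit 573450) (nat_lit 9) (.e (nat_lit 452) (nat_lit 33) (.e (nat_lit 434209) (nat_lit 18) (.e (nat_lit 4606) (nat_lit 269) .nil))))))))) (.g (nat_lit 7) .nil .nil))))) 
(.nd (nat_lit 4) (.nd (nat_lit 5) 
(.lf (nat_lit 21774) (.g (nat_lit 4681) (.e (nat_lit 1182) (nat_lit 87) (.e (nat_lit 57480) (nat_lit 28) (.e (nat_lit 557098) (nat_lit 13) (.e (nat_lit 172097) (nat_lit 9) (.e (nat_lit 426125) (nat_lit 2) (.e (nat_lit 196666) (nat_lit 13) (.e (nat_lit 65565) (nat_lit 1) (.e (nat_lit 57873) (nat_lit 264) .nil)))))))) (.g (nat_lit 8) .nil .nil))) 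
(.lf (nat_lit 21806) (.g (nat_lit 4791) (.e (nat_lit 1182) (nat_lit 87) (.e (nat_lit 57480) (nat_lit 28) (.e (nat_lit 557098) (nat_lit 13) (.e (nat_lit 172115) (nat_lit 10) (.e (nat_lit 434231) (nat_lit 23) (.e (nat_lit 532544) (nat_lit 10) (.e (nat_lit 344097) (nat_lit 18) (.e (nat_lit 5906) (nat_lit 320) .nil)))))))) (.g (nat_lit 8) .nil .nil)))) (.nd (nat_lit 5) 
(.lf (nat_lit 21790) (.g (nat_lit 3714) (.e (nat_lit 1182) (nat_lit 87) (.e (nat_lit 57480) (nat_lit 28) (.e (nat_lit 557098) (nat_lit 13) (.e (nat_lit 172097) (nat_lit 9) (.e (nat_lit 426140) (nat_lit 3) (.e (nat_lit 204863) (nat_lit 27) (.e (nat_lit 344090) (nat_lit 18) (.e (nat_lit 5896) (nat_lit 320) .nil)))))))) (.g (nat_lit 6) .nil .nil))) 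
(.lf (nat_lit 21822) (.g (nat_lit 3675) (.e (nat_lit 1182) (nat_lit 87) (.e (nat_lit 57480) (nat_lit 28) (.e (nat_lit 557103) (nat_lit 14) (.e (nat_lit 180250) (nat_lit 10) (.e (nat_lit 573487) (nat_lit 14) (.e (nat_lit 73746) (nat_lit 3) (.e (nat_lit 516120) (nat_lit 1) (.e (nat_lit 164166) (nat_lit 152) .nil)))))))) (.g (nat_lit 5) .nil .nil)))))))) 
(.nd (nat_lit 1) (.nd (nat_lit 2) (.nd (nat_lit 3) (.nd (nat_lit 4) (.nd (nat_lit 5) 
(.lf (nat_lit 21761) (.g (nat_lit 1975) (.e (nat_lit 1182) (nat_lit 87) (.e (nat_lit 57480) (nat_lit 28) (.e (nat_lit 557098) (nat_lit 13) (.e (nat_lit 172086) (nat_lit 9) .nil)))) .nil)) 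
(.lf (nat_lit 21793) (.g (nat_lit 4250) (.e (nat_lit 1182) (nat_lit 87) (.e (nat_lit 57480) (nat_lit 28) (.e (nat_lit 557098) (nat_lit 13) (.e (nat_lit 172115) (nat_lit 10) (.e (nat_lit 434231) (nat_lit 23) (.e (nat_lit 532527) (nat_lit 9) (.e (nat_lit 335997) (nat_lit 1) (.e (nat_lit 57870) (nat_lit 264) .nil)))))))) (.g (nat_lit 8) .nil .nil)))) (.nd (nat_lit 5) 
(.lf (nat_lit 21777) (.g (nat_lit 3596) (.e (nat_lit 1182) (nat_lit 87) (.e (nat_lit 57480) (nat_lit 28) (.e (nat_lit 557098) (nat_lit 13) (.e (nat_lit 172097) (nat_lit 9) (.e (nat_lit 426140) (nat_lit 3) (.e (nat_lit 204850) (nat_lit 26) (.e (nat_lit 335997) (nat_lit 1) (.e (nat_lit 57871) (nat_lit 264) .nil)))))))) (.g (nat_lit 7) .nil .nil))) 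
(.lf (nat_lit 21809) (.g (nat_lit 3012) (.e (nat_lit 1182) (nat_lit 87) (.e (nat_lit 57480) (nat_lit 28) (.e (nat_lit 557098) (nat_lit 13) (.e (nat_lit 172115) (nat_lit 10) (.e (nat_lit 434231) (nat_lit 23) (.e (nat_lit 532554) (nat_lit 13) (.e (nat_lit 368662) (nat_lit 18) (.e (nat_lit 5902) (nat_lit 320) .nil)))))))) (.g (nat_lit 5) .nil .nil))))) (.nd (nat_lit 4) (.nd (nat_lit 5) 
(.lf (nat_lit 21769) (.g (nat_lit 4076) (.e (nat_lit 1182) (nat_lit 87) (.e (nat_lit 57480) (nat_lit 28) (.e (nat_lit 557098) (nat_lit 13) (.e (nat_lit 172097) (nat_lit 9) (.e (nat_lit 426125) (nat_lit 2) (.e (nat_lit 196666) (nat_lit 13) (.e (nat_lit 65563) (nat_lit 1) (.e (nat_lit 57871) (nat_lit 264) .nil)))))))) (.g (nat_lit 6) .nil .nil))) 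
(.lf (nat_lit 21801) (.g (nat_lit 3092) (.e (nat_lit 1182) (nat_lit 87) (.e (nat_lit 57480) (nat_lit 28) (.e (nat_lit 557098) (nat_lit 13) (.e (nat_lit 172115) (nat_lit 10) (.e (nat_lit 434231) (nat_lit 23) (.e (nat_lit 532536) (nat_lit 9) (.e (nat_lit 335997) (nat_lit 1) (.e (nat_lit 57870) (nat_lit 264) .nil)))))))) (.g (nat_lit 5) .nil .nil)))) (.nd (nat_lit 5) 
(.lf (nat_lit 21785) (.g (nat_lit 2424) (.e (nat_lit 1182) (nat_lit 87) (.e (nat_lit 57480) (nat_lit 28) (.e (nat_lit 557098) (nat_lit 13) (.e (nat_lit 172097) (nat_lit 9) (.e (nat_lit 426140) (nat_lit 3) (.e (nat_lit 204857) (nat_lit 26) (.e (nat_lit 335997) (nat_lit 1) (.e (nat_lit 57872) (nat_lit 264) .nil)))))))) (.g (nat_lit 4) .nil .nil))) 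
(.lf (nat_lit 21817) (.g (nat_lit 4304) (.e (nat_lit 1182) (nat_lit 87) (.e (nat_lit 57480) (nat_lit 28) (.e (nat_lit 557098) (nat_lit 13) (.e (nat_lit 172115) (nat_lit 10) (.e (nat_lit 434244) (nat_lit 28) (.e (nat_lit 573471) (nat_lit 11) (.e (nat_lit 16405) (nat_lit 1) (.e (nat_lit 164424) (nat_lit 272) .nil)))))))) (.g (nat_lit 7) .nil .nil)))))) 
(.nd (nat_lit 3) (.nd (nat_lit 4) (.nd (nat_lit 5) 
(.lf (nat_lit 21765) (.g (nat_lit 3585) (.e (nat_lit 1182) (nat_lit 87) (.e (nat_lit 57480) (nat_lit 28) (.e (nat_lit 557098) (nat_lit 13) (.e (nat_lit 172097) (nat_lit 9) (.e (nat_lit 426125) (nat_lit 2) (.e (nat_lit 196666) (nat_lit 13) (.e (nat_lit 65546) (nat_lit 0) (.e (nat_lit 1023) (nat_lit 81) (.e (nat_lit 5907) (nat_lit 320) .nil))))))))) (.g (nat_lit 6) .nil .nil))) 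
(.lf (nat_lit 21797) (.g (nat_lit 4037) (.e (nat_lit 1182) (nat_lit 87) (.e (nat_lit 57480) (nat_lit 28) (.e (nat_lit 557098) (nat_lit 13) (.e (nat_lit 172115) (nat_lit 10) (.e (nat_lit 434231) (nat_lit 23) (.e (nat_lit 532535) (nat_lit 9) (.e (nat_lit 335985) (nat_lit 1) (.e (nat_lit 57871) (nat_lit 264) .nil)))))))) (.g (nat_lit 7) .nil .nil)))) (.nd (nat_lit 5) 
(.lf (nat_lit 21781) (.g (nat_lit 4327) (.e (nat_lit 1182) (nat_lit 87) (.e (nat_lit 57480) (nat_lit 28) (.e (nat_lit 557098) (nat_lit 13) (.e (nat_lit 172097) (nat_lit 9) (.e (nat_lit 426140) (nat_lit 3) (.e (nat_lit 204855) (nat_lit 26) (.e (nat_lit 335985) (nat_lit 1) (.e (nat_lit 57873) (nat_lit 264) .nil)))))))) (.g (nat_lit 8) .nil .nil))) 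
(.lf (nat_lit 21813) (.g (nat_lit 2116) (.e (nat_lit 1182) (nat_lit 87) (.e (nat_lit 57480) (nat_lit 28) (.e (nat_lit 557098) (nat_lit 13) (.e (nat_lit 172115) (nat_lit 10) (.e (nat_lit 434238) (nat_lit 25) (.e (nat_lit 548898) (nat_lit 14) (.e (nat_lit 2964) (nat_lit 185) (.e (nat_lit 434209) (nat_lit 18) (.e (nat_lit 4605) (nat_lit 269) .nil))))))))) (.g (nat_lit 4) .nil .nil))))) 
(.nd (nat_lit 4) (.nd (nat_lit 5) 
(.lf (nat_lit 21773) (.g (nat_lit 4354) (.e (nat_lit 1182) (nat_lit 87) (.e (nat_lit 57480) (nat_lit 28) (.e (nat_lit 557098) (nat_lit 13) (.e (nat_lit 172097) (nat_lit 9) (.e (nat_lit 426125) (nat_lit 2) (.e (nat_lit 196666) (nat_lit 13) (.e (nat_lit 65565) (nat_lit 1) (.e (nat_lit 57872) (nat_lit 264) .nil)))))))) (.g (nat_lit 8) .nil .nil))) 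
(.lf (nat_lit 21805) (.g (nat_lit 4812) (.e (nat_lit 1182) (nat_lit 87) (.e (nat_lit 57480) (nat_lit 28) (.e (nat_lit 557098) (nat_lit 13) (.e (nat_lit 172115) (nat_lit 10) (.e (nat_lit 434231) (nat_lit 23) (.e (nat_lit 532543) (nat_lit 10) (.e (nat_lit 344097) (nat_lit 18) (.e (nat_lit 5907) (nat_lit 320) .nil)))))))) (.g (nat_lit 0) .nil .nil)))) (.nd (nat_lit 5) 
(.lf (nat_lit 21789) (.g (nat_lit 4794) (.e (nat_lit 1182) (nat_lit 87) (.e (nat_lit 57480) (nat_lit 28) (.e (nat_lit 557098) (nat_lit 13) (.e (nat_lit 172097) (nat_lit 9) (.e (nat_lit 426140) (nat_lit 3) (.e (nat_lit 204862) (nat_lit 27) (.e (nat_lit 344097) (nat_lit 18) (.e (nat_lit 5907) (nat_lit 320) .nil)))))))) (.g (nat_lit 8) .nil .nil))) 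
(.lf (nat_lit 21821) (.g (nat_lit 3705) (.e (nat_lit 1182) (nat_lit 87) (.e (nat_lit 57480) (nat_lit 28) (.e (nat_lit 557103) (nat_lit 14) (.e (nat_lit 180250) (nat_lit 10) (.e (nat_lit 573487) (nat_lit 14) (.e (nat_lit 73746) (nat_lit 3) (.e (nat_lit 516117) (nat_lit 1) (.e (nat_lit 164166) (nat_lit 152) .nil)))))))) (.g (nat_lit 5) .nil .nil))))))) 
(.nd (nat_lit 2) (.nd (nat_lit 3) (.nd (nat_lit 4) (.nd (nat_lit 5) 
(.lf (nat_lit 21763) (.g (nat_lit 1980) (.e (nat_lit 1182) (nat_lit 87) (.e (nat_lit 57480) (nat_lit 28) (.e (nat_lit 557098) (nat_lit 13) (.e (nat_lit 172097) (nat_lit 9) (.e (nat_lit 426125) (nat_lit 2) .nil))))) .nil)) 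
(.lf (nat_lit 21795) (.g (nat_lit 4379) (.e (nat_lit 1182) (nat_lit 87) (.e (nat_lit 57480) (nat_lit 28) (.e (nat_lit 557098) (nat_lit 13) (.e (nat_lit 172115) (nat_lit 10) (.e (nat_lit 434231) (nat_lit 23) (.e (nat_lit 532527) (nat_lit 9) (.e (nat_lit 335997) (nat_lit 1) (.e (nat_lit 57872) (nat_lit 264) .nil)))))))) (.g (nat_lit 8) .nil .nil)))) (.nd (nat_lit 5) 
(.lf (nat_lit 21779) (.g (nat_lit 3922) (.e (nat_lit 1182) (nat_lit 87) (.e (nat_lit 57480) (nat_lit 28) (.e (nat_lit 557098) (nat_lit 13) (.e (nat_lit 172097) (nat_lit 9) (.e (nat_lit 426140) (nat_lit 3) (.e (nat_lit 204855) (nat_lit 26) (.e (nat_lit 335985) (nat_lit 1) (.e (nat_lit 57870) (nat_lit 264) .nil)))))))) (.g (nat_lit 7) .nil .nil))) 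
(.lf (nat_lit 21811) (.g (nat_lit 4787) (.e (nat_lit 1182) (nat_lit 87) (.e (nat_lit 57480) (nat_lit 28) (.e (nat_lit 557098) (nat_lit 13) (.e (nat_lit 172115) (nat_lit 10) (.e (nat_lit 434231) (nat_lit 23) (.e (nat_lit 532554) (nat_lit 13) (.e (nat_lit 368662) (nat_lit 18) (.e (nat_lit 5906) (nat_lit 320) .nil)))))))) (.g (nat_lit 8) .nil .nil))))) (.nd (nat_lit 4) (.nd (nat_lit 5) 
(.lf (nat_lit 21771) (.g (nat_lit 4272) (.e (nat_lit 1182) (nat_lit 87) (.e (nat_lit 57480) (nat_lit 28) (.e (nat_lit 557098) (nat_lit 13) (.e (nat_lit 172097) (nat_lit 9) (.e (nat_lit 426125) (nat_lit 2) (.e (nat_lit 196666) (nat_lit 13) (.e (nat_lit 65565) (nat_lit 1) (.e (nat_lit 57870) (nat_lit 264) .nil)))))))) (.g (nat_lit 7) .nil .nil))) 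
(.lf (nat_lit 21803) (.g (nat_lit 4010) (.e (nat_lit 1182) (nat_lit 87) (.e (nat_lit 57480) (nat_lit 28) (.e (nat_lit 557098) (nat_lit 13) (.e (nat_lit 172115) (nat_lit 10) (.e (nat_lit 434231) (nat_lit 23) (.e (nat_lit 532543) (nat_lit 10) (.e (nat_lit 344090) (nat_lit 18) (.e (nat_lit 5896) (nat_lit 320) .nil)))))))) (.g (nat_lit 6) .nil .nil)))) (.nd (nat_lit 5) 
(.lf (nat_lit 21787) (.g (nat_lit 3731) (.e (nat_lit 1182) (nat_lit 87) (.e (nat_lit 57480) (nat_lit 28) (.e (nat_lit 557098) (nat_lit 13) (.e (nat_lit 172097) (nat_lit 9) (.e (nat_lit 426140) (nat_lit 3) (.e (nat_lit 204862) (nat_lit 27) (.e (nat_lit 344090) (nat_lit 18) (.e (nat_lit 5896) (nat_lit 320) .nil)))))))) (.g (nat_lit 6) .nil .nil))) 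
(.lf (nat_lit 21819) (.g (nat_lit 2408) (.e (nat_lit 1182) (nat_lit 87) (.e (nat_lit 57480) (nat_lit 28) (.e (nat_lit 557103) (nat_lit 14) (.e (nat_lit 180250) (nat_lit 10) (.e (nat_lit 573482) (nat_lit 13) .nil))))) .nil))))) (.nd (nat_lit 3) (.nd (nat_lit 4) (.nd (nat_lit 5) 
(.lf (nat_lit 21767) (.g (nat_lit 4178) (.e (nat_lit 1182) (nat_lit 87) (.e (nat_lit 57480) (nat_lit 28) (.e (nat_lit 557098) (nat_lit 13) (.e (nat_lit 172097) (nat_lit 9) (.e (nat_lit 426125) (nat_lit 2) (.e (nat_lit 196666) (nat_lit 13) (.e (nat_lit 65550) (nat_lit 0) (.e (nat_lit 1023) (nat_lit 81) (.e (nat_lit 5907) (nat_lit 320) .nil))))))))) (.g (nat_lit 6) .nil .nil))) 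
(.lf (nat_lit 21799) (.g (nat_lit 4748) (.e (nat_lit 1182) (nat_lit 87) (.e (nat_lit 57480) (nat_lit 28) (.e (nat_lit 557098) (nat_lit 13) (.e (nat_lit 172115) (nat_lit 10) (.e (nat_lit 434231) (nat_lit 23) (.e (nat_lit 532535) (nat_lit 9) (.e (nat_lit 335985) (nat_lit 1) (.e (nat_lit 57873) (nat_lit 264) .nil)))))))) (.g (nat_lit 0) .nil .nil)))) (.nd (nat_lit 5) 
(.lf (nat_lit 21783) (.g (nat_lit 2905) (.e (nat_lit 1182) (nat_lit 87) (.e (nat_lit 57480) (nat_lit 28) (.e (nat_lit 557098) (nat_lit 13) (.e (nat_lit 172097) (nat_lit 9) (.e (nat_lit 426140) (nat_lit 3) (.e (nat_lit 204855) (nat_lit 26) (.e (nat_lit 335992) (nat_lit 1) (.e (nat_lit 57872) (nat_lit 264) .nil)))))))) (.g (nat_lit 5) .nil .nil))) 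
(.lf (nat_lit 21815) (.g (nat_lit 5056) (.e (nat_lit 1182) (nat_lit 87) (.e (nat_lit 57480) (nat_lit 28) (.e (nat_lit 557098) (nat_lit 13) (.e (nat_lit 172115) (nat_lit 10) (.e (nat_lit 434244) (nat_lit 28) (.e (nat_lit 573450) (nat_lit 9) (.e (nat_lit 452) (nat_lit 33) (.e (nat_lit 434209) (nat_lit 18) (.e (nat_lit 4607) (nat_lit 269) .nil))))))))) (.g (nat_lit 8) .nil .nil))))) 
(.nd (nat_lit 4) (.nd (nat_lit 5) 
(.lf (nat_lit 21775) (.g (nat_lit 2286) (.e (nat_lit 1182) (nat_lit 87) (.e (nat_lit 57480) (nat_lit 28) (.e (nat_lit 557098) (nat_lit 13) (.e (nat_lit 172097) (nat_lit 9) (.e (nat_lit 426140) (nat_lit 3) (.e (nat_lit 204821) (nat_lit 17) (.e (nat_lit 7936) (nat_lit 343) (.e (nat_lit 1181) (nat_lit 87) (.e (nat_lit 57872) (nat_lit 264) .nil))))))))) (.g (nat_lit 4) .nil .nil))) 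
(.lf (nat_lit 21807) (.g (nat_lit 5091) (.e (nat_lit 1182) (nat_lit 87) (.e (nat_lit 57480) (nat_lit 28) (.e (nat_lit 557098) (nat_lit 13) (.e (nat_lit 172115) (nat_lit 10) (.e (nat_lit 434231) (nat_lit 23) (.e (nat_lit 532544) (nat_lit 10) (.e (nat_lit 344097) (nat_lit 18) (.e (nat_lit 5907) (nat_lit 320) .nil)))))))) (.g (nat_lit 0) .nil .nil)))) (.nd (nat_lit 5) 
(.lf (nat_lit 21791) (.g (nat_lit 4650) (.e (nat_lit 1182) (nat_lit 87) (.e (nat_lit 57480) (nat_lit 28) (.e (nat_lit 557098) (nat_lit 13) (.e (nat_lit 172097) (nat_lit 9) (.e (nat_lit 426140) (nat_lit 3) (.e (nat_lit 204863) (nat_lit 27) (.e (nat_lit 344097) (nat_lit 18) (.e (nat_lit 5906) (nat_lit 320) .nil)))))))) (.g (nat_lit 8) .nil .nil))) 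
(.lf (nat_lit 21823) (.g (nat_lit 3049) (.e (nat_lit 1182) (nat_lit 87) (.e (nat_lit 57480) (nat_lit 28) (.e (nat_lit 557105) (nat_lit 14) (.e (nat_lit 180251) (nat_lit 10) (.e (nat_lit 573484) (nat_lit 13) (.e (nat_lit 65569) (nat_lit 3) (.e (nat_lit 98334) (nat_lit 18) (.e (nat_lit 164166) (nat_lit 152) .nil)))))))) (.g (nat_lit 4) .nil .nil)))))))))

noncomputable def tv308 : DT := (.nd (nat_lit 0) (.nd (nat_lit 1) (.nd (nat_lit 2) (.nd (nat_lit 3) (.nd (nat_lit 4) (.nd (nat_lit 5) 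
(.lf (nat_lit 21824) (.g (nat_lit 2715) (.e (nat_lit 1182) (nat_lit 87) (.e (nat_lit 57480) (nat_lit 28) (.e (nat_lit 557105) (nat_lit 14) (.e (nat_lit 180251) (nat_lit 10) (.e (nat_lit 573485) (nat_lit 13) .nil))))) .nil)) 
(.lf (nat_lit 21856) (.g (nat_lit 3746) (.e (nat_lit 1182) (nat_lit 87) (.e (nat_lit 57480) (nat_lit 28) (.e (nat_lit 557107) (nat_lit 15) (.e (nat_lit 188447) (nat_lit 22) (.e (nat_lit 196666) (nat_lit 13) (.e (nat_lit 65565) (nat_lit 1) (.e (nat_lit 57873) (nat_lit 264) .nil))))))) (.g (nat_lit 6) .nil .nil)))) (.nd (nat_lit 5) 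
(.lf (nat_lit 21840) (.g (nat_lit 4017) (.e (nat_lit 1182) (nat_lit 87) (.e (nat_lit 57480) (nat_lit 28) (.e (nat_lit 557105) (nat_lit 14) (.e (nat_lit 180252) (nat_lit 10) (.e (nat_lit 573488) (nat_lit 14) (.e (nat_lit 73747) (nat_lit 3) (.e (nat_lit 516117) (nat_lit 1) (.e (nat_lit 164166) (nat_lit 152) .nil)))))))) (.g (nat_lit 6) .nil .nil))) 
(.lf (nat_lit 21872) (.g (nat_lit 3165) (.e (nat_lit 1182) (nat_lit 87) (.e (nat_lit 57480) (nat_lit 28) (.e (nat_lit 557107) (nat_lit 15) (.e (nat_lit 188450) (nat_lit 23) (.e (nat_lit 204855) (nat_lit 26) (.e (nat_lit 335992) (nat_lit 1) (.e (nat_lit 57870) (nat_lit 264) .nil))))))) (.g (nat_lit 5) .nil .nil))))) (.nd (nat_lit 4) (.nd (nat_lit 5) 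
(.lf (nat_lit 21832) (.g (nat_lit 2569) (.e (nat_lit 1182) (nat_lit 87) (.e (nat_lit 57480) (nat_lit 28) (.e (nat_lit 557105) (nat_lit 14) (.e (nat_lit 180252) (nat_lit 10) (.e (nat_lit 573487) (nat_lit 14) .nil))))) .nil)) 
(.lf (nat_lit 21864) (.g (nat_lit 1433) (.e (nat_lit 1182) (nat_lit 87) (.e (nat_lit 57480) (nat_lit 28) (.e (nat_lit 557107) (nat_lit 15) (.e (nat_lit 188450) (nat_lit 23) .nil)))) .nil))) (.nd (nat_lit 5) 
(.lf (nat_lit 21848) (.g (nat_lit 3290) (.e (nat_lit 1182) (nat_lit 87) (.e (nat_lit 57480) (nat_lit 28) (.e (nat_lit 557107) (nat_lit 15) (.e (nat_lit 188447) (nat_lit 22) (.e (nat_lit 196666) (nat_lit 13) (.e (nat_lit 65546) (nat_lit 0) (.e (nat_lit 1023) (nat_lit 81) (.e (nat_lit 5906) (nat_lit 320) .nil)))))))) (.g (nat_lit 5) .nil .nil))) 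
(.lf (nat_lit 21880) (.g (nat_lit 2373) (.e (nat_lit 1182) (nat_lit 87) (.e (nat_lit 57480) (nat_lit 28) (.e (nat_lit 557107) (nat_lit 15) (.e (nat_lit 188450) (nat_lit 23) (.e (nat_lit 204862) (nat_lit 27) (.e (nat_lit 344090) (nat_lit 18) (.e (nat_lit 5896) (nat_lit 320) .nil))))))) (.g (nat_lit 4) .nil .nil)))))) (.nd (nat_lit 3) (.nd (nat_lit 4) (.nd (nat_lit 5) 
(.lf (nat_lit 21828) (.g (nat_lit 2977) (.e (nat_lit 1182) (nat_lit 87) (.e (nat_lit 57480) (nat_lit 28) (.e (nat_lit 557105) (nat_lit 14) (.e (nat_lit 180252) (nat_lit 10) (.e (nat_lit 573481) (nat_lit 13) (.e (nat_lit 65569) (nat_lit 3) (.e (nat_lit 98334) (nat_lit 18) (.e (nat_lit 164166) (nat_lit 152) .nil)))))))) (.g (nat_lit 5) .nil .nil))) 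
(.lf (nat_lit 21860) (.g (nat_lit 2769) (.e (nat_lit 1182) (nat_lit 87) (.e (nat_lit 57480) (nat_lit 28) (.e (nat_lit 557107) (nat_lit 15) (.e (nat_lit 188447) (nat_lit 22) (.e (nat_lit 196670) (nat_lit 14) .nil))))) .nil))) (.nd (nat_lit 5) 
(.lf (nat_lit 21844) (.g (nat_lit 2685) (.e (nat_lit 1182) (nat_lit 87) (.e (nat_lit 57480) (nat_lit 28) (.e (nat_lit 557105) (nat_lit 14) (.e (nat_lit 180252) (nat_lit 10) (.e (nat_lit 573488) (nat_lit 14) (.e (nat_lit 73747) (nat_lit 3) (.e (nat_lit 516119) (nat_lit 1) (.e (nat_lit 164167) (nat_lit 152) .nil)))))))) (.g (nat_lit 4) .nil .nil))) 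
(.lf (nat_lit 21876) (.g (nat_lit 2187) (.e (nat_lit 1182) (nat_lit 87) (.e (nat_lit 57480) (nat_lit 28) (.e (nat_lit 557107) (nat_lit 15) (.e (nat_lit 188450) (nat_lit 23) (.e (nat_lit 204859) (nat_lit 26) .nil))))) .nil)))) (.nd (nat_lit 4) (.nd (nat_lit 5) 
(.lf (nat_lit 21836) (.g (nat_lit 2615) (.e (nat_lit 1182) (nat_lit 87) (.e (nat_lit 57480) (nat_lit 28) (.e (nat_lit 557105) (nat_lit 14) (.e (nat_lit 180252) (nat_lit 10) (.e (nat_lit 573487) (nat_lit 14) (.e (nat_lit 73747) (nat_lit 3) (.e (nat_lit 516120) (nat_lit 1) (.e (nat_lit 164166) (nat_lit 152) .nil)))))))) (.g (nat_lit 4) .nil .nil))) 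
(.lf (nat_lit 21868) (.g (nat_lit 2811) (.e (nat_lit 1182) (nat_lit 87) (.e (nat_lit 57480) (nat_lit 28) (.e (nat_lit 557107) (nat_lit 15) (.e (nat_lit 188450) (nat_lit 23) (.e (nat_lit 204852) (nat_lit 26) (.e (nat_lit 343808) (nat_lit 1) (.e (nat_lit 57873) (nat_lit 264) .nil))))))) (.g (nat_lit 5) .nil .nil)))) (.nd (nat_lit 5) 
(.lf (nat_lit 21852) (.g (nat_lit 3699) (.e (nat_lit 1182) (nat_lit 87) (.e (nat_lit 57480) (nat_lit 28) (.e (nat_lit 557107) (nat_lit 15) (.e (nat_lit 188447) (nat_lit 22) (.e (nat_lit 196666) (nat_lit 13) (.e (nat_lit 65563) (nat_lit 1) (.e (nat_lit 57873) (nat_lit 264) .nil))))))) (.g (nat_lit 6) .nil .nil))) 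
(.lf (nat_lit 21884) (.g (nat_lit 2338) (.e (nat_lit 1182) (nat_lit 87) (.e (nat_lit 57480) (nat_lit 28) (.e (nat_lit 557107) (nat_lit 15) (.e (nat_lit 188450) (nat_lit 23) (.e (nat_lit 204863) (nat_lit 27) (.e (nat_lit 344096) (nat_lit 18) (.e (nat_lit 5896) (nat_lit 320) .nil))))))) (.g (nat_lit 4) .nil .nil))))))) (.nd (nat_lit 2) (.nd (nat_lit 3) (.nd (nat_lit 4) (.nd (nat_lit 5) 
(.lf (nat_lit 21826) (.g (nat_lit 3006) (.e (nat_lit 1182) (nat_lit 87) (.e (nat_lit 57480) (nat_lit 28) (.e (nat_lit 557105) (nat_lit 14) (.e (nat_lit 180252) (nat_lit 10) (.e (nat_lit 573480) (nat_lit 13) .nil))))) .nil)) 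
(.lf (nat_lit 21858) (.g (nat_lit 2829) (.e (nat_lit 1182) (nat_lit 87) (.e (nat_lit 57480) (nat_lit 28) (.e (nat_lit 557107) (nat_lit 15) (.e (nat_lit 188447) (nat_lit 22) (.e (nat_lit 196668) (nat_lit 14) (.e (nat_lit 73733) (nat_lit 0) (.e (nat_lit 5906) (nat_lit 320) .nil))))))) (.g (nat_lit 4) .nil .nil)))) (.nd (nat_lit 5) 
(.lf (nat_lit 21842) (.g (nat_lit 2918) (.e (nat_lit 1182) (nat_lit 87) (.e (nat_lit 57480) (nat_lit 28) (.e (nat_lit 557105) (nat_lit 14) (.e (nat_lit 180252) (nat_lit 10) (.e (nat_lit 573488) (nat_lit 14) (.e (nat_lit 73747) (nat_lit 3) (.e (nat_lit 516119) (nat_lit 1) (.e (nat_lit 164163) (nat_lit 152) .nil)))))))) (.g (nat_lit 5) .nil .nil))) 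
(.lf (nat_lit 21874) (.g (nat_lit 2194) (.e (nat_lit 1182) (nat_lit 87) (.e (nat_lit 57480) (nat_lit 28) (.e (nat_lit 557107) (nat_lit 15) (.e (nat_lit 188450) (nat_lit 23) (.e (nat_lit 204855) (nat_lit 26) (.e (nat_lit 335992) (nat_lit 1) (.e (nat_lit 57873) (nat_lit 264) .nil))))))) (.g (nat_lit 4) .nil .nil))))) (.nd (nat_lit 4) (.nd (nat_lit 5) 
(.lf (nat_lit 21834) (.g (nat_lit 2894) (.e (nat_lit 1182) (nat_lit 87) (.e (nat_lit 57480) (nat_lit 28) (.e (nat_lit 557105) (nat_lit 14) (.e (nat_lit 180252) (nat_lit 10) (.e (nat_lit 573487) (nat_lit 14) (.e (nat_lit 73746) (nat_lit 3) (.e (nat_lit 516120) (nat_lit 1) (.e (nat_lit 164166) (nat_lit 152) .nil)))))))) (.g (nat_lit 4) .nil .nil))) 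
(.lf (nat_lit 21866) (.g (nat_lit 2455) (.e (nat_lit 1182) (nat_lit 87) (.e (nat_lit 57480) (nat_lit 28) (.e (nat_lit 557107) (nat_lit 15) (.e (nat_lit 188450) (nat_lit 23) (.e (nat_lit 204850) (nat_lit 26) (.e (nat_lit 335997) (nat_lit 1) (.e (nat_lit 57871) (nat_lit 264) .nil))))))) (.g (nat_lit 4) .nil .nil)))) (.nd (nat_lit 5) 
(.lf (nat_lit 21850) (.g (nat_lit 3309) (.e (nat_lit 1182) (nat_lit 87) (.e (nat_lit 57480) (nat_lit 28) (.e (nat_lit 557107) (nat_lit 15) (.e (nat_lit 188447) (nat_lit 22) (.e (nat_lit 196666) (nat_lit 13) (.e (nat_lit 65563) (nat_lit 1) (.e (nat_lit 57870) (nat_lit 264) .nil))))))) (.g (nat_lit 5) .nil .nil))) 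
(.lf (nat_lit 21882) (.g (nat_lit 3620) (.e (nat_lit 1182) (nat_lit 87) (.e (nat_lit 57480) (nat_lit 28) (.e (nat_lit 557107) (nat_lit 15) (.e (nat_lit 188450) (nat_lit 23) (.e (nat_lit 204862) (nat_lit 27) (.e (nat_lit 344097) (nat_lit 18) (.e (nat_lit 5907) (nat_lit 320) .nil))))))) (.g (nat_lit 6) .nil .nil)))))) (.nd (nat_lit 3) (.nd (nat_lit 4) (.nd (nat_lit 5) 
(.lf (nat_lit 21830) (.g (nat_lit 3105) (.e (nat_lit 1182) (nat_lit 87) (.e (nat_lit 57480) (nat_lit 28) (.e (nat_lit 557105) (nat_lit 14) (.e (nat_lit 180252) (nat_lit 10) (.e (nat_lit 573482) (nat_lit 13) .nil))))) .nil)) 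
(.lf (nat_lit 21862) (.g (nat_lit 3750) (.e (nat_lit 1182) (nat_lit 87) (.e (nat_lit 57480) (nat_lit 28) (.e (nat_lit 557107) (nat_lit 15) (.e (nat_lit 188447) (nat_lit 22) (.e (nat_lit 196681) (nat_lit 17) (.e (nat_lit 131086) (nat_lit 1) (.e (nat_lit 57873) (nat_lit 264) .nil))))))) (.g (nat_lit 5) .nil .nil)))) (.nd (nat_lit 5) 
(.lf (nat_lit 21846) (.g (nat_lit 1992) (.e (nat_lit 1182) (nat_lit 87) (.e (nat_lit 57480) (nat_lit 28) (.e (nat_lit 557107) (nat_lit 15) (.e (nat_lit 188440) (nat_lit 20) .nil)))) .nil)) 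
(.lf (nat_lit 21878) (.g (nat_lit 2306) (.e (nat_lit 1182) (nat_lit 87) (.e (nat_lit 57480) (nat_lit 28) (.e (nat_lit 557107) (nat_lit 15) (.e (nat_lit 188450) (nat_lit 23) (.e (nat_lit 204861) (nat_lit 26) (.e (nat_lit 335986) (nat_lit 1) (.e (nat_lit 57873) (nat_lit 264) .nil))))))) (.g (nat_lit 4) .nil .nil))))) (.nd (nat_lit 4) (.nd (nat_lit 5) 
(.lf (nat_lit 21838) (.g (nat_lit 2872) (.e (nat_lit 1182) (nat_lit 87) (.e (nat_lit 57480) (nat_lit 28) (.e (nat_lit 557105) (nat_lit 14) (.e (nat_lit 180252) (nat_lit 10) (.e (nat_lit 573488) (nat_lit 14) (.e (nat_lit 73747) (nat_lit 3) (.e (nat_lit 516116) (nat_lit 1) (.e (nat_lit 164166) (nat_lit 152) .nil)))))))) (.g (nat_lit 5) .nil .nil))) 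
(.lf (nat_lit 21870) (.g (nat_lit 2903) (.e (nat_lit 1182) (nat_lit 87) (.e (nat_lit 57480) (nat_lit 28) (.e (nat_lit 557107) (nat_lit 15) (.e (nat_lit 188450) (nat_lit 23) (.e (nat_lit 204855) (nat_lit 26) (.e (nat_lit 335985) (nat_lit 1) (.e (nat_lit 57872) (nat_lit 264) .nil))))))) (.g (nat_lit 5) .nil .nil)))) (.nd (nat_lit 5) 
(.lf (nat_lit 21854) (.g (nat_lit 3042) (.e (nat_lit 1182) (nat_lit 87) (.e (nat_lit 57480) (nat_lit 28) (.e (nat_lit 557107) (nat_lit 15) (.e (nat_lit 188447) (nat_lit 22) (.e (nat_lit 196666) (nat_lit 13) (.e (nat_lit 65565) (nat_lit 1) (.e (nat_lit 57871) (nat_lit 264) .nil))))))) (.g (nat_lit 5) .nil .nil))) 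
(.lf (nat_lit 21886) (.g (nat_lit 4124) (.e (nat_lit 1182) (nat_lit 87) (.e (nat_lit 57480) (nat_lit 28) (.e (nat_lit 557107) (nat_lit 15) (.e (nat_lit 188450) (nat_lit 23) (.e (nat_lit 204863) (nat_lit 27) (.e (nat_lit 344097) (nat_lit 18) (.e (nat_lit 5907) (nat_lit 320) .nil))))))) (.g (nat_lit 6) .nil .nil)))))))) 
(.nd (nat_lit 1) (.nd (nat_lit 2) (.nd (nat_lit 3) (.nd (nat_lit 4) (.nd (nat_lit 5) 
(.lf (nat_lit 21825) (.g (nat_lit 3577) (.e (nat_lit 1182) (nat_lit 87) (.e (nat_lit 57480) (nat_lit 28) (.e (nat_lit 557105) (nat_lit 14) (.e (nat_lit 180251) (nat_lit 10) (.e (nat_lit 573487) (nat_lit 14) .nil))))) .nil)) 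
(.lf (nat_lit 21857) (.g (nat_lit 2719) (.e (nat_lit 1182) (nat_lit 87) (.e (nat_lit 57480) (nat_lit 28) (.e (nat_lit 557107) (nat_lit 15) (.e (nat_lit 188447) (nat_lit 22) (.e (nat_lit 196668) (nat_lit 14) .nil))))) .nil))) (.nd (nat_lit 5) 
(.lf (nat_lit 21841) (.g (nat_lit 3222) (.e (nat_lit 1182) (nat_lit 87) (.e (nat_lit 57480) (nat_lit 28) (.e (nat_lit 557105) (nat_lit 14) (.e (nat_lit 180252) (nat_lit 10) (.e (nat_lit 573488) (nat_lit 14) (.e (nat_lit 73747) (nat_lit 3) (.e (nat_lit 516119) (nat_lit 1) (.e (nat_lit 164147) (nat_lit 152) .nil)))))))) (.g (nat_lit 5) .nil .nil))) 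
(.lf (nat_lit 21873) (.g (nat_lit 2104) (.e (nat_lit 1182) (nat_lit 87) (.e (nat_lit 57480) (nat_lit 28) (.e (nat_lit 557107) (nat_lit 15) (.e (nat_lit 188450) (nat_lit 23) (.e (nat_lit 204855) (nat_lit 26) (.e (nat_lit 335992) (nat_lit 1) (.e (nat_lit 57872) (nat_lit 264) .nil))))))) (.g (nat_lit 4) .nil .nil))))) (.nd (nat_lit 4) (.nd (nat_lit 5) 
(.lf (nat_lit 21833) (.g (nat_lit 2922) (.e (nat_lit 1182) (nat_lit 87) (.e (nat_lit 57480) (nat_lit 28) (.e (nat_lit 557105) (nat_lit 14) (.e (nat_lit 180252) (nat_lit 10) (.e (nat_lit 573487) (nat_lit 14) (.e (nat_lit 73746) (nat_lit 3) (.e (nat_lit 516117) (nat_lit 1) (.e (nat_lit 164166) (nat_lit 152) .nil)))))))) (.g (nat_lit 4) .nil .nil))) 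
(.lf (nat_lit 21865) (.g (nat_lit 2769) (.e (nat_lit 1182) (nat_lit 87) (.e (nat_lit 57480) (nat_lit 28) (.e (nat_lit 557107) (nat_lit 15) (.e (nat_lit 188450) (nat_lit 23) (.e (nat_lit 204850) (nat_lit 26) (.e (nat_lit 335997) (nat_lit 1) (.e (nat_lit 57870) (nat_lit 264) .nil))))))) (.g (nat_lit 5) .nil .nil)))) (.nd (nat_lit 5) 
(.lf (nat_lit 21849) (.g (nat_lit 3717) (.e (nat_lit 1182) (nat_lit 87) (.e (nat_lit 57480) (nat_lit 28) (.e (nat_lit 557107) (nat_lit 15) (.e (nat_lit 188447) (nat_lit 22) (.e (nat_lit 196666) (nat_lit 13) (.e (nat_lit 65550) (nat_lit 0) (.e (nat_lit 1023) (nat_lit 81) (.e (nat_lit 5906) (nat_lit 320) .nil)))))))) (.g (nat_lit 5) .nil .nil))) 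
(.lf (nat_lit 21881) (.g (nat_lit 2695) (.e (nat_lit 1182) (nat_lit 87) (.e (nat_lit 57480) (nat_lit 28) (.e (nat_lit 557107) (nat_lit 15) (.e (nat_lit 188450) (nat_lit 23) (.e (nat_lit 204862) (nat_lit 27) (.e (nat_lit 344097) (nat_lit 18) (.e (nat_lit 5905) (nat_lit 320) .nil))))))) (.g (nat_lit 5) .nil .nil)))))) (.nd (nat_lit 3) (.nd (nat_lit 4) (.nd (nat_lit 5) 
(.lf (nat_lit 21829) (.g (nat_lit 3009) (.e (nat_lit 1182) (nat_lit 87) (.e (nat_lit 57480) (nat_lit 28) (.e (nat_lit 557105) (nat_lit 14) (.e (nat_lit 180252) (nat_lit 10) (.e (nat_lit 573481) (nat_lit 13) (.e (nat_lit 65571) (nat_lit 3) (.e (nat_lit 98334) (nat_lit 18) (.e (nat_lit 164166) (nat_lit 152) .nil)))))))) (.g (nat_lit 5) .nil .nil))) 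
(.lf (nat_lit 21861) (.g (nat_lit 3049) (.e (nat_lit 1182) (nat_lit 87) (.e (nat_lit 57480) (nat_lit 28) (.e (nat_lit 557107) (nat_lit 15) (.e (nat_lit 188447) (nat_lit 22) (.e (nat_lit 196681) (nat_lit 17) (.e (nat_lit 131086) (nat_lit 1) (.e (nat_lit 57870) (nat_lit 264) .nil))))))) (.g (nat_lit 4) .nil .nil)))) (.nd (nat_lit 5) 
(.lf (nat_lit 21845) (.g (nat_lit 1407) (.e (nat_lit 1182) (nat_lit 87) (.e (nat_lit 57480) (nat_lit 28) (.e (nat_lit 557107) (nat_lit 15) (.e (nat_lit 188439) (nat_lit 20) .nil)))) .nil)) 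
(.lf (nat_lit 21877) (.g (nat_lit 2741) (.e (nat_lit 1182) (nat_lit 87) (.e (nat_lit 57480) (nat_lit 28) (.e (nat_lit 557107) (nat_lit 15) (.e (nat_lit 188450) (nat_lit 23) (.e (nat_lit 204860) (nat_lit 26) (.e (nat_lit 335995) (nat_lit 1) (.e (nat_lit 57872) (nat_lit 264) .nil))))))) (.g (nat_lit 4) .nil .nil))))) (.nd (nat_lit 4) (.nd (nat_lit 5) 
(.lf (nat_lit 21837) (.g (nat_lit 2186) (.e (nat_lit 1182) (nat_lit 87) (.e (nat_lit 57480) (nat_lit 28) (.e (nat_lit 557105) (nat_lit 14) (.e (nat_lit 180252) (nat_lit 10) (.e (nat_lit 573488) (nat_lit 14) .nil))))) .nil)) 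
(.lf (nat_lit 21869) (.g (nat_lit 2832) (.e (nat_lit 1182) (nat_lit 87) (.e (nat_lit 57480) (nat_lit 28) (.e (nat_lit 557107) (nat_lit 15) (.e (nat_lit 188450) (nat_lit 23) (.e (nat_lit 204855) (nat_lit 26) (.e (nat_lit 335985) (nat_lit 1) (.e (nat_lit 57870) (nat_lit 264) .nil))))))) (.g (nat_lit 5) .nil .nil)))) (.nd (nat_lit 5) 
(.lf (nat_lit 21853) (.g (nat_lit 3336) (.e (nat_lit 1182) (nat_lit 87) (.e (nat_lit 57480) (nat_lit 28) (.e (nat_lit 557107) (nat_lit 15) (.e (nat_lit 188447) (nat_lit 22) (.e (nat_lit 196666) (nat_lit 13) (.e (nat_lit 65565) (nat_lit 1) (.e (nat_lit 57870) (nat_lit 264) .nil))))))) (.g (nat_lit 5) .nil .nil))) 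
(.lf (nat_lit 21885) (.g (nat_lit 3198) (.e (nat_lit 1182) (nat_lit 87) (.e (nat_lit 57480) (nat_lit 28) (.e (nat_lit 557107) (nat_lit 15) (.e (nat_lit 188450) (nat_lit 23) (.e (nat_lit 204863) (nat_lit 27) (.e (nat_lit 344097) (nat_lit 18) (.e (nat_lit 5905) (nat_lit 320) .nil))))))) (.g (nat_lit 5) .nil .nil))))))) (.nd (nat_lit 2) (.nd (nat_lit 3) (.nd (nat_lit 4) (.nd (nat_lit 5) 
(.lf (nat_lit 21827) (.g (nat_lit 2213) (.e (nat_lit 1182) (nat_lit 87) (.e (nat_lit 57480) (nat_lit 28) (.e (nat_lit 557105) (nat_lit 14) (.e (nat_lit 180252) (nat_lit 10) (.e (nat_lit 573481) (nat_lit 13) .nil))))) .nil)) 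
(.lf (nat_lit 21859) (.g (nat_lit 4028) (.e (nat_lit 1182) (nat_lit 87) (.e (nat_lit 57480) (nat_lit 28) (.e (nat_lit 557107) (nat_lit 15) (.e (nat_lit 188447) (nat_lit 22) (.e (nat_lit 196668) (nat_lit 14) (.e (nat_lit 73733) (nat_lit 0) (.e (nat_lit 5907) (nat_lit 320) .nil))))))) (.g (nat_lit 5) .nil .nil)))) (.nd (nat_lit 5) 
(.lf (nat_lit 21843) (.g (nat_lit 2940) (.e (nat_lit 1182) (nat_lit 87) (.e (nat_lit 57480) (nat_lit 28) (.e (nat_lit 557105) (nat_lit 14) (.e (nat_lit 180252) (nat_lit 10) (.e (nat_lit 573488) (nat_lit 14) (.e (nat_lit 73747) (nat_lit 3) (.e (nat_lit 516119) (nat_lit 1) (.e (nat_lit 164164) (nat_lit 152) .nil)))))))) (.g (nat_lit 5) .nil .nil))) 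
(.lf (nat_lit 21875) (.g (nat_lit 2412) (.e (nat_lit 1182) (nat_lit 87) (.e (nat_lit 57480) (nat_lit 28) (.e (nat_lit 557107) (nat_lit 15) (.e (nat_lit 188450) (nat_lit 23) (.e (nat_lit 204858) (nat_lit 26) .nil))))) .nil)))) (.nd (nat_lit 4) (.nd (nat_lit 5) 
(.lf (nat_lit 21835) (.g (nat_lit 2762) (.e (nat_lit 1182) (nat_lit 87) (.e (nat_lit 57480) (nat_lit 28) (.e (nat_lit 557105) (nat_lit 14) (.e (nat_lit 180252) (nat_lit 10) (.e (nat_lit 573487) (nat_lit 14) (.e (nat_lit 73747) (nat_lit 3) (.e (nat_lit 516117) (nat_lit 1) (.e (nat_lit 164166) (nat_lit 152) .nil)))))))) (.g (nat_lit 4) .nil .nil))) 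
(.lf (nat_lit 21867) (.g (nat_lit 2896) (.e (nat_lit 1182) (nat_lit 87) (.e (nat_lit 57480) (nat_lit 28) (.e (nat_lit 557107) (nat_lit 15) (.e (nat_lit 188450) (nat_lit 23) (.e (nat_lit 204850) (nat_lit 26) (.e (nat_lit 335997) (nat_lit 1) (.e (nat_lit 57872) (nat_lit 264) .nil))))))) (.g (nat_lit 6) .nil .nil)))) (.nd (nat_lit 5) 
(.lf (nat_lit 21851) (.g (nat_lit 3386) (.e (nat_lit 1182) (nat_lit 87) (.e (nat_lit 57480) (nat_lit 28) (.e (nat_lit 557107) (nat_lit 15) (.e (nat_lit 188447) (nat_lit 22) (.e (nat_lit 196666) (nat_lit 13) (.e (nat_lit 65563) (nat_lit 1) (.e (nat_lit 57872) (nat_lit 264) .nil))))))) (.g (nat_lit 5) .nil .nil))) 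
(.lf (nat_lit 21883) (.g (nat_lit 3493) (.e (nat_lit 1182) (nat_lit 87) (.e (nat_lit 57480) (nat_lit 28) (.e (nat_lit 557107) (nat_lit 15) (.e (nat_lit 188450) (nat_lit 23) (.e (nat_lit 204863) (nat_lit 27) (.e (nat_lit 344090) (nat_lit 18) (.e (nat_lit 5896) (nat_lit 320) .nil))))))) (.g (nat_lit 5) .nil .nil)))))) (.nd (nat_lit 3) (.nd (nat_lit 4) (.nd (nat_lit 5) 
(.lf (nat_lit 21831) (.g (nat_lit 3178) (.e (nat_lit 1182) (nat_lit 87) (.e (nat_lit 57480) (nat_lit 28) (.e (nat_lit 557105) (nat_lit 14) (.e (nat_lit 180252) (nat_lit 10) (.e (nat_lit 573482) (nat_lit 13) (.e (nat_lit 65569) (nat_lit 3) (.e (nat_lit 98334) (nat_lit 18) (.e (nat_lit 164166) (nat_lit 152) .nil)))))))) (.g (nat_lit 4) .nil .nil))) 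
(.lf (nat_lit 21863) (.g (nat_lit 3139) (.e (nat_lit 1182) (nat_lit 87) (.e (nat_lit 57480) (nat_lit 28) (.e (nat_lit 557107) (nat_lit 15) (.e (nat_lit 188447) (nat_lit 22) (.e (nat_lit 196681) (nat_lit 17) (.e (nat_lit 131088) (nat_lit 1) (.e (nat_lit 57870) (nat_lit 264) .nil))))))) (.g (nat_lit 4) .nil .nil)))) (.nd (nat_lit 5) 
(.lf (nat_lit 21847) (.g (nat_lit 2159) (.e (nat_lit 1182) (nat_lit 87) (.e (nat_lit 57480) (nat_lit 28) (.e (nat_lit 557107) (nat_lit 15) (.e (nat_lit 188447) (nat_lit 22) (.e (nat_lit 196666) (nat_lit 13) .nil))))) .nil)) 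
(.lf (nat_lit 21879) (.g (nat_lit 2361) (.e (nat_lit 1182) (nat_lit 87) (.e (nat_lit 57480) (nat_lit 28) (.e (nat_lit 557107) (nat_lit 15) (.e (nat_lit 188450) (nat_lit 23) (.e (nat_lit 204861) (nat_lit 26) (.e (nat_lit 335995) (nat_lit 1) (.e (nat_lit 57870) (nat_lit 264) .nil))))))) (.g (nat_lit 4) .nil .nil))))) (.nd (nat_lit 4) (.nd (nat_lit 5) 
(.lf (nat_lit 21839) (.g (nat_lit 2492) (.e (nat_lit 1182) (nat_lit 87) (.e (nat_lit 57480) (nat_lit 28) (.e (nat_lit 557105) (nat_lit 14) (.e (nat_lit 180252) (nat_lit 10) (.e (nat_lit 573488) (nat_lit 14) (.e (nat_lit 73747) (nat_lit 3) (.e (nat_lit 516117) (nat_lit 1) (.e (nat_lit 164147) (nat_lit 152) .nil)))))))) (.g (nat_lit 4) .nil .nil))) 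
(.lf (nat_lit 21871) (.g (nat_lit 3228) (.e (nat_lit 1182) (nat_lit 87) (.e (nat_lit 57480) (nat_lit 28) (.e (nat_lit 557107) (nat_lit 15) (.e (nat_lit 188450) (nat_lit 23) (.e (nat_lit 204855) (nat_lit 26) (.e (nat_lit 335985) (nat_lit 1) (.e (nat_lit 57873) (nat_lit 264) .nil))))))) (.g (nat_lit 6) .nil .nil)))) (.nd (nat_lit 5) 
(.lf (nat_lit 21855) (.g (nat_lit 3418) (.e (nat_lit 1182) (nat_lit 87) (.e (nat_lit 57480) (nat_lit 28) (.e (nat_lit 557107) (nat_lit 15) (.e (nat_lit 188447) (nat_lit 22) (.e (nat_lit 196666) (nat_lit 13) (.e (nat_lit 65565) (nat_lit 1) (.e (nat_lit 57872) (nat_lit 264) .nil))))))) (.g (nat_lit 5) .nil .nil))) 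
(.lf (nat_lit 21887) (.g (nat_lit 2439) (.e (nat_lit 1182) (nat_lit 87) (.e (nat_lit 57480) (nat_lit 28) (.e (nat_lit 557107) (nat_lit 15) (.e (nat_lit 188450) (nat_lit 23) (.e (nat_lit 204864) (nat_lit 27) .nil))))) .nil))))))))

noncomputable def tv309 : DT := (.nd (nat_lit 0) (.nd (nat_lit 1) (.nd (nat_lit 2) (.nd (nat_lit 3) (.nd (nat_lit 4) (.nd (nat_lit 5) 
(.lf (nat_lit 21888) (.g (nat_lit 2112) (.e (nat_lit 1182) (nat_lit 87) (.e (nat_lit 57480) (nat_lit 28) (.e (nat_lit 557107) (nat_lit 15) (.e (nat_lit 188450) (nat_lit 23) (.e (nat_lit 204873) (nat_lit 30) .nil))))) .nil)) 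
(.lf (nat_lit 21920) (.g (nat_lit 1761) (.e (nat_lit 1182) (nat_lit 87) (.e (nat_lit 57480) (nat_lit 28) (.e (nat_lit 557108) (nat_lit 15) (.e (nat_lit 188452) (nat_lit 23) (.e (nat_lit 204885) (nat_lit 33) .nil))))) .nil))) (.nd (nat_lit 5) 
(.lf (nat_lit 21904) (.g (nat_lit 3592) (.e (nat_lit 1182) (nat_lit 87) (.e (nat_lit 57480) (nat_lit 28) (.e (nat_lit 557108) (nat_lit 15) (.e (nat_lit 188452) (nat_lit 23) (.e (nat_lit 204817) (nat_lit 17) .nil))))) .nil)) 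
(.lf (nat_lit 21936) (.g (nat_lit 3236) (.e (nat_lit 1182) (nat_lit 87) (.e (nat_lit 57480) (nat_lit 28) (.e (nat_lit 557109) (nat_lit 15) (.e (nat_lit 188441) (nat_lit 20) (.e (nat_lit 3272) (nat_lit 199) (.e (nat_lit 548898) (nat_lit 14) (.e (nat_lit 2964) (nat_lit 185) (.e (nat_lit 434202) (nat_lit 18) (.e (nat_lit 4598) (nat_lit 269) .nil))))))))) (.g (nat_lit 4) .nil .nil))))) 
(.nd (nat_lit 4) (.nd (nat_lit 5) 
(.lf (nat_lit 21896) (.g (nat_lit 3242) (.e (nat_lit 1182) (nat_lit 87) (.e (nat_lit 57480) (nat_lit 28) (.e (nat_lit 557108) (nat_lit 15) (.e (nat_lit 188452) (nat_lit 23) (.e (nat_lit 204816) (nat_lit 17) (.e (nat_lit 6436) (nat_lit 343) (.e (nat_lit 1183) (nat_lit 87) (.e (nat_lit 57872) (nat_lit 264) .nil)))))))) (.g (nat_lit 5) .nil .nil))) 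
(.lf (nat_lit 21928) (.g (nat_lit 3219) (.e (nat_lit 1182) (nat_lit 87) (.e (nat_lit 57480) (nat_lit 28) (.e (nat_lit 557109) (nat_lit 15) (.e (nat_lit 188434) (nat_lit 20) (.e (nat_lit 3272) (nat_lit 199) .nil))))) .nil))) (.nd (nat_lit 5) 
(.lf (nat_lit 21912) (.g (nat_lit 3712) (.e (nat_lit 1182) (nat_lit 87) (.e (nat_lit 57480) (nat_lit 28) (.e (nat_lit 557108) (nat_lit 15) (.e (nat_lit 188452) (nat_lit 23) (.e (nat_lit 212736) (nat_lit 26) .nil))))) .nil)) 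
(.lf (nat_lit 21944) (.g (nat_lit 4044) (.e (nat_lit 1182) (nat_lit 87) (.e (nat_lit 57480) (nat_lit 28) (.e (nat_lit 557109) (nat_lit 15) (.e (nat_lit 188447) (nat_lit 22) (.e (nat_lit 196666) (nat_lit 13) (.e (nat_lit 65565) (nat_lit 1) (.e (nat_lit 57872) (nat_lit 264) .nil))))))) (.g (nat_lit 4) .nil .nil)))))) (.nd (nat_lit 3) (.nd (nat_lit 4) (.nd (nat_lit 5) 
(.lf (nat_lit 21892) (.g (nat_lit 2367) (.e (nat_lit 1182) (nat_lit 87) (.e (nat_lit 57480) (nat_lit 28) (.e (nat_lit 557107) (nat_lit 15) (.e (nat_lit 188450) (nat_lit 23) (.e (nat_lit 204874) (nat_lit 30) (.e (nat_lit 368662) (nat_lit 18) (.e (nat_lit 5907) (nat_lit 320) .nil))))))) (.g (nat_lit 4) .nil .nil))) 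
(.lf (nat_lit 21924) (.g (nat_lit 2316) (.e (nat_lit 1182) (nat_lit 87) (.e (nat_lit 57480) (nat_lit 28) (.e (nat_lit 557109) (nat_lit 15) (.e (nat_lit 188434) (nat_lit 20) .nil)))) .nil))) (.nd (nat_lit 5) 
(.lf (nat_lit 21908) (.g (nat_lit 2999) (.e (nat_lit 1182) (nat_lit 87) (.e (nat_lit 57480) (nat_lit 28) (.e (nat_lit 557108) (nat_lit 15) (.e (nat_lit 188452) (nat_lit 23) (.e (nat_lit 204852) (nat_lit 26) .nil))))) .nil)) 
(.lf (nat_lit 21940) (.g (nat_lit 3789) (.e (nat_lit 1182) (nat_lit 87) (.e (nat_lit 57480) (nat_lit 28) (.e (nat_lit 557109) (nat_lit 15) (.e (nat_lit 188447) (nat_lit 22) (.e (nat_lit 196666) (nat_lit 13) (.e (nat_lit 65563) (nat_lit 1) (.e (nat_lit 57870) (nat_lit 264) .nil))))))) (.g (nat_lit 4) .nil .nil))))) (.nd (nat_lit 4) (.nd (nat_lit 5) 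
(.lf (nat_lit 21900) (.g (nat_lit 2516) (.e (nat_lit 1182) (nat_lit 87) (.e (nat_lit 57480) (nat_lit 28) (.e (nat_lit 557108) (nat_lit 15) (.e (nat_lit 188452) (nat_lit 23) (.e (nat_lit 204816) (nat_lit 17) (.e (nat_lit 6712) (nat_lit 360) (.e (nat_lit 163850) (nat_lit 0) (.e (nat_lit 4607) (nat_lit 269) .nil)))))))) (.g (nat_lit 4) .nil .nil))) 
(.lf (nat_lit 21932) (.g (nat_lit 4736) (.e (nat_lit 1182) (nat_lit 87) (.e (nat_lit 57480) (nat_lit 28) (.e (nat_lit 557109) (nat_lit 15) (.e (nat_lit 188434) (nat_lit 20) (.e (nat_lit 3272) (nat_lit 199) (.e (nat_lit 548913) (nat_lit 18) (.e (nat_lit 172061) (nat_lit 1) (.e (nat_lit 164424) (nat_lit 272) .nil)))))))) (.g (nat_lit 6) .nil .nil)))) (.nd (nat_lit 5) 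
(.lf (nat_lit 21916) (.g (nat_lit 3063) (.e (nat_lit 1182) (nat_lit 87) (.e (nat_lit 57480) (nat_lit 28) (.e (nat_lit 557108) (nat_lit 15) (.e (nat_lit 188452) (nat_lit 23) (.e (nat_lit 204873) (nat_lit 30) (.e (nat_lit 368662) (nat_lit 18) (.e (nat_lit 5902) (nat_lit 320) .nil))))))) (.g (nat_lit 4) .nil .nil))) 
(.lf (nat_lit 21948) (.g (nat_lit 4953) (.e (nat_lit 1182) (nat_lit 87) (.e (nat_lit 57480) (nat_lit 28) (.e (nat_lit 557109) (nat_lit 15) (.e (nat_lit 188447) (nat_lit 22) (.e (nat_lit 196668) (nat_lit 14) (.e (nat_lit 73733) (nat_lit 0) (.e (nat_lit 5907) (nat_lit 320) .nil))))))) (.g (nat_lit 6) .nil .nil))))))) (.nd (nat_lit 2) (.nd (nat_lit 3) (.nd (nat_lit 4) (.nd (nat_lit 5) 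
(.lf (nat_lit 21890) (.g (nat_lit 3123) (.e (nat_lit 1182) (nat_lit 87) (.e (nat_lit 57480) (nat_lit 28) (.e (nat_lit 557107) (nat_lit 15) (.e (nat_lit 188450) (nat_lit 23) (.e (nat_lit 204873) (nat_lit 30) (.e (nat_lit 368662) (nat_lit 18) (.e (nat_lit 5907) (nat_lit 320) .nil))))))) (.g (nat_lit 6) .nil .nil))) 
(.lf (nat_lit 21922) (.g (nat_lit 2244) (.e (nat_lit 1182) (nat_lit 87) (.e (nat_lit 57480) (nat_lit 28) (.e (nat_lit 557108) (nat_lit 15) (.e (nat_lit 188452) (nat_lit 23) (.e (nat_lit 204885) (nat_lit 33) (.e (nat_lit 401414) (nat_lit 0) (.e (nat_lit 2458) (nat_lit 157) (.e (nat_lit 4606) (nat_lit 269) .nil)))))))) (.g (nat_lit 4) .nil .nil)))) (.nd (nat_lit 5) 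
(.lf (nat_lit 21906) (.g (nat_lit 3293) (.e (nat_lit 1182) (nat_lit 87) (.e (nat_lit 57480) (nat_lit 28) (.e (nat_lit 557108) (nat_lit 15) (.e (nat_lit 188452) (nat_lit 23) (.e (nat_lit 204849) (nat_lit 25) (.e (nat_lit 327692) (nat_lit 1) (.e (nat_lit 8439) (nat_lit 138) .nil))))))) (.g (nat_lit 4) .nil .nil))) 
(.lf (nat_lit 21938) (.g (nat_lit 3638) (.e (nat_lit 1182) (nat_lit 87) (.e (nat_lit 57480) (nat_lit 28) (.e (nat_lit 557109) (nat_lit 15) (.e (nat_lit 188447) (nat_lit 22) (.e (nat_lit 196666) (nat_lit 13) .nil))))) .nil)))) (.nd (nat_lit 4) (.nd (nat_lit 5) 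
(.lf (nat_lit 21898) (.g (nat_lit 2699) (.e (nat_lit 1182) (nat_lit 87) (.e (nat_lit 57480) (nat_lit 28) (.e (nat_lit 557108) (nat_lit 15) (.e (nat_lit 188452) (nat_lit 23) (.e (nat_lit 204816) (nat_lit 17) (.e (nat_lit 6712) (nat_lit 360) (.e (nat_lit 163849) (nat_lit 0) (.e (nat_lit 4598) (nat_lit 269) .nil)))))))) (.g (nat_lit 4) .nil .nil))) 
(.lf (nat_lit 21930) (.g (nat_lit 4655) (.e (nat_lit 1182) (nat_lit 87) (.e (nat_lit 57480) (nat_lit 28) (.e (nat_lit 557109) (nat_lit 15) (.e (nat_lit 188434) (nat_lit 20) (.e (nat_lit 3272) (nat_lit 199) (.e (nat_lit 548913) (nat_lit 18) (.e (nat_lit 172061) (nat_lit 1) (.e (nat_lit 164422) (nat_lit 272) .nil)))))))) (.g (nat_lit 6) .nil .nil)))) (.nd (nat_lit 5) 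
(.lf (nat_lit 21914) (.g (nat_lit 2677) (.e (nat_lit 1182) (nat_lit 87) (.e (nat_lit 57480) (nat_lit 28) (.e (nat_lit 557108) (nat_lit 15) (.e (nat_lit 188452) (nat_lit 23) (.e (nat_lit 204872) (nat_lit 30) (.e (nat_lit 368662) (nat_lit 18) (.e (nat_lit 5905) (nat_lit 320) .nil))))))) (.g (nat_lit 4) .nil .nil))) 
(.lf (nat_lit 21946) (.g (nat_lit 3607) (.e (nat_lit 1182) (nat_lit 87) (.e (nat_lit 57480) (nat_lit 28) (.e (nat_lit 557109) (nat_lit 15) (.e (nat_lit 188447) (nat_lit 22) (.e (nat_lit 196668) (nat_lit 14) (.e (nat_lit 73733) (nat_lit 0) (.e (nat_lit 5905) (nat_lit 320) .nil))))))) (.g (nat_lit 4) .nil .nil)))))) (.nd (nat_lit 3) (.nd (nat_lit 4) (.nd (nat_lit 5) 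
(.lf (nat_lit 21894) (.g (nat_lit 1519) (.e (nat_lit 1182) (nat_lit 87) (.e (nat_lit 57480) (nat_lit 28) (.e (nat_lit 557108) (nat_lit 15) (.e (nat_lit 188452) (nat_lit 23) .nil)))) .nil)) 
(.lf (nat_lit 21926) (.g (nat_lit 3722) (.e (nat_lit 1182) (nat_lit 87) (.e (nat_lit 57480) (nat_lit 28) (.e (nat_lit 557109) (nat_lit 15) (.e (nat_lit 188434) (nat_lit 20) (.e (nat_lit 3271) (nat_lit 199) (.e (nat_lit 548898) (nat_lit 14) (.e (nat_lit 2964) (nat_lit 185) (.e (nat_lit 434202) (nat_lit 18) (.e (nat_lit 4598) (nat_lit 269) .nil))))))))) (.g (nat_lit 5) .nil .nil)))) 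
(.nd (nat_lit 5) 
(.lf (nat_lit 21910) (.g (nat_lit 3920) (.e (nat_lit 1182) (nat_lit 87) (.e (nat_lit 57480) (nat_lit 28) (.e (nat_lit 557108) (nat_lit 15) (.e (nat_lit 188452) (nat_lit 23) (.e (nat_lit 204852) (nat_lit 26) (.e (nat_lit 343808) (nat_lit 1) (.e (nat_lit 57872) (nat_lit 264) .nil))))))) (.g (nat_lit 5) .nil .nil))) 
(.lf (nat_lit 21942) (.g (nat_lit 3962) (.e (nat_lit 1182) (nat_lit 87) (.e (nat_lit 57480) (nat_lit 28) (.e (nat_lit 557109) (nat_lit 15) (.e (nat_lit 188447) (nat_lit 22) (.e (nat_lit 196666) (nat_lit 13) (.e (nat_lit 65565) (nat_lit 1) (.e (nat_lit 57870) (nat_lit 264) .nil))))))) (.g (nat_lit 4) .nil .nil))))) (.nd (nat_lit 4) (.nd (nat_lit 5) 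
(.lf (nat_lit 21902) (.g (nat_lit 2640) (.e (nat_lit 1182) (nat_lit 87) (.e (nat_lit 57480) (nat_lit 28) (.e (nat_lit 557108) (nat_lit 15) (.e (nat_lit 188452) (nat_lit 23) (.e (nat_lit 204816) (nat_lit 17) (.e (nat_lit 6714) (nat_lit 360) (.e (nat_lit 163850) (nat_lit 0) (.e (nat_lit 4606) (nat_lit 269) .nil)))))))) (.g (nat_lit 4) .nil .nil))) 
(.lf (nat_lit 21934) (.g (nat_lit 2460) (.e (nat_lit 1182) (nat_lit 87) (.e (nat_lit 57480) (nat_lit 28) (.e (nat_lit 557109) (nat_lit 15) (.e (nat_lit 188441) (nat_lit 20) .nil)))) .nil))) (.nd (nat_lit 5) 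
(.lf (nat_lit 21918) (.g (nat_lit 3292) (.e (nat_lit 1182) (nat_lit 87) (.e (nat_lit 57480) (nat_lit 28) (.e (nat_lit 557108) (nat_lit 15) (.e (nat_lit 188452) (nat_lit 23) (.e (nat_lit 204874) (nat_lit 30) (.e (nat_lit 368662) (nat_lit 18) (.e (nat_lit 5902) (nat_lit 320) .nil))))))) (.g (nat_lit 4) .nil .nil))) 
(.lf (nat_lit 21950) (.g (nat_lit 4001) (.e (nat_lit 1182) (nat_lit 87) (.e (nat_lit 57480) (nat_lit 28) (.e (nat_lit 557109) (nat_lit 15) (.e (nat_lit 188447) (nat_lit 22) (.e (nat_lit 196681) (nat_lit 17) .nil))))) .nil))))))) (.nd (nat_lit 1) (.nd (nat_lit 2) (.nd (nat_lit 3) (.nd (nat_lit 4) (.nd (nat_lit 5) 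
(.lf (nat_lit 21889) (.g (nat_lit 3169) (.e (nat_lit 1182) (nat_lit 87) (.e (nat_lit 57480) (nat_lit 28) (.e (nat_lit 557107) (nat_lit 15) (.e (nat_lit 188450) (nat_lit 23) (.e (nat_lit 204873) (nat_lit 30) (.e (nat_lit 368662) (nat_lit 18) (.e (nat_lit 5906) (nat_lit 320) .nil))))))) (.g (nat_lit 6) .nil .nil))) 
(.lf (nat_lit 21921) (.g (nat_lit 2610) (.e (nat_lit 1182) (nat_lit 87) (.e (nat_lit 57480) (nat_lit 28) (.e (nat_lit 557108) (nat_lit 15) (.e (nat_lit 188452) (nat_lit 23) (.e (nat_lit 204885) (nat_lit 33) (.e (nat_lit 401414) (nat_lit 0) (.e (nat_lit 2458) (nat_lit 157) (.e (nat_lit 4605) (nat_lit 269) .nil)))))))) (.g (nat_lit 5) .nil .nil)))) (.nd (nat_lit 5) 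
(.lf (nat_lit 21905) (.g (nat_lit 3686) (.e (nat_lit 1182) (nat_lit 87) (.e (nat_lit 57480) (nat_lit 28) (.e (nat_lit 557108) (nat_lit 15) (.e (nat_lit 188452) (nat_lit 23) (.e (nat_lit 204817) (nat_lit 17) (.e (nat_lit 7936) (nat_lit 343) (.e (nat_lit 1183) (nat_lit 87) (.e (nat_lit 57872) (nat_lit 264) .nil)))))))) (.g (nat_lit 4) .nil .nil))) 
(.lf (nat_lit 21937) (.g (nat_lit 2251) (.e (nat_lit 1182) (nat_lit 87) (.e (nat_lit 57480) (nat_lit 28) (.e (nat_lit 557109) (nat_lit 15) (.e (nat_lit 188447) (nat_lit 22) .nil)))) .nil)))) (.nd (nat_lit 4) (.nd (nat_lit 5) 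
(.lf (nat_lit 21897) (.g (nat_lit 2978) (.e (nat_lit 1182) (nat_lit 87) (.e (nat_lit 57480) (nat_lit 28) (.e (nat_lit 557108) (nat_lit 15) (.e (nat_lit 188452) (nat_lit 23) (.e (nat_lit 204816) (nat_lit 17) (.e (nat_lit 6712) (nat_lit 360) (.e (nat_lit 163844) (nat_lit 0) (.e (nat_lit 4598) (nat_lit 269) .nil)))))))) (.g (nat_lit 5) .nil .nil))) 
(.lf (nat_lit 21929) (.g (nat_lit 3296) (.e (nat_lit 1182) (nat_lit 87) (.e (nat_lit 57480) (nat_lit 28) (.e (nat_lit 557109) (nat_lit 15) (.e (nat_lit 188434) (nat_lit 20) (.e (nat_lit 3272) (nat_lit 199) (.e (nat_lit 548898) (nat_lit 14) (.e (nat_lit 2964) (nat_lit 185) (.e (nat_lit 434209) (nat_lit 18) (.e (nat_lit 4605) (nat_lit 269) .nil))))))))) (.g (nat_lit 4) .nil .nil)))) 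
(.nd (nat_lit 5) 
(.lf (nat_lit 21913) (.g (nat_lit 2728) (.e (nat_lit 1182) (nat_lit 87) (.e (nat_lit 57480) (nat_lit 28) (.e (nat_lit 557108) (nat_lit 15) (.e (nat_lit 188452) (nat_lit 23) (.e (nat_lit 204872) (nat_lit 30) (.e (nat_lit 368662) (nat_lit 18) (.e (nat_lit 5902) (nat_lit 320) .nil))))))) (.g (nat_lit 4) .nil .nil))) 
(.lf (nat_lit 21945) (.g (nat_lit 3424) (.e (nat_lit 1182) (nat_lit 87) (.e (nat_lit 57480) (nat_lit 28) (.e (nat_lit 557109) (nat_lit 15) (.e (nat_lit 188447) (nat_lit 22) (.e (nat_lit 196668) (nat_lit 14) (.e (nat_lit 73733) (nat_lit 0) (.e (nat_lit 5902) (nat_lit 320) .nil))))))) (.g (nat_lit 4) .nil .nil)))))) (.nd (nat_lit 3) (.nd (nat_lit 4) (.nd (nat_lit 5) 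
(.lf (nat_lit 21893) (.g (nat_lit 1968) (.e (nat_lit 1182) (nat_lit 87) (.e (nat_lit 57480) (nat_lit 28) (.e (nat_lit 557107) (nat_lit 15) (.e (nat_lit 188451) (nat_lit 23) .nil)))) .nil)) 
(.lf (nat_lit 21925) (.g (nat_lit 3222) (.e (nat_lit 1182) (nat_lit 87) (.e (nat_lit 57480) (nat_lit 28) (.e (nat_lit 557109) (nat_lit 15) (.e (nat_lit 188434) (nat_lit 20) (.e (nat_lit 3271) (nat_lit 199) .nil))))) .nil))) (.nd (nat_lit 5) 
(.lf (nat_lit 21909) (.g (nat_lit 3032) (.e (nat_lit 1182) (nat_lit 87) (.e (nat_lit 57480) (nat_lit 28) (.e (nat_lit 557108) (nat_lit 15) (.e (nat_lit 188452) (nat_lit 23) (.e (nat_lit 204852) (nat_lit 26) (.e (nat_lit 343808) (nat_lit 1) (.e (nat_lit 57871) (nat_lit 264) .nil))))))) (.g (nat_lit 4) .nil .nil))) 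
(.lf (nat_lit 21941) (.g (nat_lit 3866) (.e (nat_lit 1182) (nat_lit 87) (.e (nat_lit 57480) (nat_lit 28) (.e (nat_lit 557109) (nat_lit 15) (.e (nat_lit 188447) (nat_lit 22) (.e (nat_lit 196666) (nat_lit 13) (.e (nat_lit 65563) (nat_lit 1) (.e (nat_lit 57872) (nat_lit 264) .nil))))))) (.g (nat_lit 4) .nil .nil))))) (.nd (nat_lit 4) (.nd (nat_lit 5) 
(.lf (nat_lit 21901) (.g (nat_lit 3452) (.e (nat_lit 1182) (nat_lit 87) (.e (nat_lit 57480) (nat_lit 28) (.e (nat_lit 557108) (nat_lit 15) (.e (nat_lit 188452) (nat_lit 23) (.e (nat_lit 204816) (nat_lit 17) (.e (nat_lit 6714) (nat_lit 360) (.e (nat_lit 163843) (nat_lit 0) (.e (nat_lit 4598) (nat_lit 269) .nil)))))))) (.g (nat_lit 5) .nil .nil))) 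
(.lf (nat_lit 21933) (.g (nat_lit 2594) (.e (nat_lit 1182) (nat_lit 87) (.e (nat_lit 57480) (nat_lit 28) (.e (nat_lit 557109) (nat_lit 15) (.e (nat_lit 188435) (nat_lit 20) .nil)))) .nil))) (.nd (nat_lit 5) 
(.lf (nat_lit 21917) (.g (nat_lit 3014) (.e (nat_lit 1182) (nat_lit 87) (.e (nat_lit 57480) (nat_lit 28) (.e (nat_lit 557108) (nat_lit 15) (.e (nat_lit 188452) (nat_lit 23) (.e (nat_lit 204874) (nat_lit 30) .nil))))) .nil)) 
(.lf (nat_lit 21949) (.g (nat_lit 4090) (.e (nat_lit 1182) (nat_lit 87) (.e (nat_lit 57480) (nat_lit 28) (.e (nat_lit 557109) (nat_lit 15) (.e (nat_lit 188447) (nat_lit 22) (.e (nat_lit 196670) (nat_lit 14) .nil))))) .nil)))))) (.nd (nat_lit 2) (.nd (nat_lit 3) (.nd (nat_lit 4) (.nd (nat_lit 5) 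
(.lf (nat_lit 21891) (.g (nat_lit 2459) (.e (nat_lit 1182) (nat_lit 87) (.e (nat_lit 57480) (nat_lit 28) (.e (nat_lit 557107) (nat_lit 15) (.e (nat_lit 188450) (nat_lit 23) (.e (nat_lit 204874) (nat_lit 30) (.e (nat_lit 368662) (nat_lit 18) (.e (nat_lit 5906) (nat_lit 320) .nil))))))) (.g (nat_lit 4) .nil .nil))) 
(.lf (nat_lit 21923) (.g (nat_lit 406) (.e (nat_lit 1182) (nat_lit 87) (.e (nat_lit 57480) (nat_lit 28) (.e (nat_lit 557109) (nat_lit 15) .nil))) .nil))) (.nd (nat_lit 5) 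
(.lf (nat_lit 21907) (.g (nat_lit 3173) (.e (nat_lit 1182) (nat_lit 87) (.e (nat_lit 57480) (nat_lit 28) (.e (nat_lit 557108) (nat_lit 15) (.e (nat_lit 188452) (nat_lit 23) (.e (nat_lit 204850) (nat_lit 26) .nil))))) .nil)) 
(.lf (nat_lit 21939) (.g (nat_lit 3914) (.e (nat_lit 1182) (nat_lit 87) (.e (nat_lit 57480) (nat_lit 28) (.e (nat_lit 557109) (nat_lit 15) (.e (nat_lit 188447) (nat_lit 22) (.e (nat_lit 196666) (nat_lit 13) (.e (nat_lit 65550) (nat_lit 0) (.e (nat_lit 1023) (nat_lit 81) (.e (nat_lit 5906) (nat_lit 320) .nil)))))))) (.g (nat_lit 4) .nil .nil))))) (.nd (nat_lit 4) (.nd (nat_lit 5) 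
(.lf (nat_lit 21899) (.g (nat_lit 2516) (.e (nat_lit 1182) (nat_lit 87) (.e (nat_lit 57480) (nat_lit 28) (.e (nat_lit 557108) (nat_lit 15) (.e (nat_lit 188452) (nat_lit 23) (.e (nat_lit 204816) (nat_lit 17) (.e (nat_lit 6712) (nat_lit 360) (.e (nat_lit 163850) (nat_lit 0) (.e (nat_lit 4606) (nat_lit 269) .nil)))))))) (.g (nat_lit 4) .nil .nil))) 
(.lf (nat_lit 21931) (.g (nat_lit 3631) (.e (nat_lit 1182) (nat_lit 87) (.e (nat_lit 57480) (nat_lit 28) (.e (nat_lit 557109) (nat_lit 15) (.e (nat_lit 188434) (nat_lit 20) (.e (nat_lit 3272) (nat_lit 199) (.e (nat_lit 548913) (nat_lit 18) (.e (nat_lit 172061) (nat_lit 1) (.e (nat_lit 164423) (nat_lit 272) .nil)))))))) (.g (nat_lit 4) .nil .nil)))) (.nd (nat_lit 5) 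
(.lf (nat_lit 21915) (.g (nat_lit 3047) (.e (nat_lit 1182) (nat_lit 87) (.e (nat_lit 57480) (nat_lit 28) (.e (nat_lit 557108) (nat_lit 15) (.e (nat_lit 188452) (nat_lit 23) (.e (nat_lit 204873) (nat_lit 30) .nil))))) .nil)) 
(.lf (nat_lit 21947) (.g (nat_lit 3753) (.e (nat_lit 1182) (nat_lit 87) (.e (nat_lit 57480) (nat_lit 28) (.e (nat_lit 557109) (nat_lit 15) (.e (nat_lit 188447) (nat_lit 22) (.e (nat_lit 196668) (nat_lit 14) (.e (nat_lit 73733) (nat_lit 0) (.e (nat_lit 5906) (nat_lit 320) .nil))))))) (.g (nat_lit 4) .nil .nil)))))) (.nd (nat_lit 3) (.nd (nat_lit 4) (.nd (nat_lit 5) 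
(.lf (nat_lit 21895) (.g (nat_lit 2236) (.e (nat_lit 1182) (nat_lit 87) (.e (nat_lit 57480) (nat_lit 28) (.e (nat_lit 557108) (nat_lit 15) (.e (nat_lit 188452) (nat_lit 23) (.e (nat_lit 204816) (nat_lit 17) .nil))))) .nil)) 
(.lf (nat_lit 21927) (.g (nat_lit 3965) (.e (nat_lit 1182) (nat_lit 87) (.e (nat_lit 57480) (nat_lit 28) (.e (nat_lit 557109) (nat_lit 15) (.e (nat_lit 188434) (nat_lit 20) (.e (nat_lit 3271) (nat_lit 199) (.e (nat_lit 548913) (nat_lit 18) (.e (nat_lit 172061) (nat_lit 1) (.e (nat_lit 164424) (nat_lit 272) .nil)))))))) (.g (nat_lit 6) .nil .nil)))) (.nd (nat_lit 5) 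
(.lf (nat_lit 21911) (.g (nat_lit 5046) (.e (nat_lit 1182) (nat_lit 87) (.e (nat_lit 57480) (nat_lit 28) (.e (nat_lit 557108) (nat_lit 15) (.e (nat_lit 188452) (nat_lit 23) (.e (nat_lit 204859) (nat_lit 26) .nil))))) .nil)) 
(.lf (nat_lit 21943) (.g (nat_lit 3668) (.e (nat_lit 1182) (nat_lit 87) (.e (nat_lit 57480) (nat_lit 28) (.e (nat_lit 557109) (nat_lit 15) (.e (nat_lit 188447) (nat_lit 22) (.e (nat_lit 196666) (nat_lit 13) (.e (nat_lit 65565) (nat_lit 1) (.e (nat_lit 57871) (nat_lit 264) .nil))))))) (.g (nat_lit 4) .nil .nil))))) (.nd (nat_lit 4) (.nd (nat_lit 5) 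
(.lf (nat_lit 21903) (.g (nat_lit 2699) (.e (nat_lit 1182) (nat_lit 87) (.e (nat_lit 57480) (nat_lit 28) (.e (nat_lit 557108) (nat_lit 15) (.e (nat_lit 188452) (nat_lit 23) (.e (nat_lit 204816) (nat_lit 17) (.e (nat_lit 6714) (nat_lit 360) (.e (nat_lit 163850) (nat_lit 0) (.e (nat_lit 4607) (nat_lit 269) .nil)))))))) (.g (nat_lit 4) .nil .nil))) 
(.lf (nat_lit 21935) (.g (nat_lit 3189) (.e (nat_lit 1182) (nat_lit 87) (.e (nat_lit 57480) (nat_lit 28) (.e (nat_lit 557109) (nat_lit 15) (.e (nat_lit 188441) (nat_lit 20) (.e (nat_lit 3272) (nat_lit 199) .nil))))) .nil))) (.nd (nat_lit 5) 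
(.lf (nat_lit 21919) (.g (nat_lit 3294) (.e (nat_lit 1182) (nat_lit 87) (.e (nat_lit 57480) (nat_lit 28) (.e (nat_lit 557108) (nat_lit 15) (.e (nat_lit 188452) (nat_lit 23) (.e (nat_lit 204874) (nat_lit 30) (.e (nat_lit 368662) (nat_lit 18) (.e (nat_lit 5905) (nat_lit 320) .nil))))))) (.g (nat_lit 4) .nil .nil))) 
(.lf (nat_lit 21951) (.g (nat_lit 4390) (.e (nat_lit 1182) (nat_lit 87) (.e (nat_lit 57480) (nat_lit 28) (.e (nat_lit 557109) (nat_lit 15) (.e (nat_lit 188447) (nat_lit 22) (.e (nat_lit 196681) (nat_lit 17) (.e (nat_lit 131086) (nat_lit 1) (.e (nat_lit 57873) (nat_lit 264) .nil))))))) (.g (nat_lit 4) .nil .nil)))))))))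

noncomputable def tv310 : DT := (.nd (nat_lit 0) (.nd (nat_lit 1) (.nd (nat_lit 2) (.nd (nat_lit 3) (.nd (nat_lit 4) (.nd (nat_lit 5) 
(.lf (nat_lit 21952) (.g (nat_lit 4279) (.e (nat_lit 1182) (nat_lit 87) (.e (nat_lit 57480) (nat_lit 28) (.e (nat_lit 557109) (nat_lit 15) (.e (nat_lit 188447) (nat_lit 22) (.e (nat_lit 196681) (nat_lit 17) (.e (nat_lit 131088) (nat_lit 1) (.e (nat_lit 57872) (nat_lit 264) .nil))))))) (.g (nat_lit 4) .nil .nil))) 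
(.lf (nat_lit 21984) (.g (nat_lit 2204) (.e (nat_lit 1182) (nat_lit 87) (.e (nat_lit 57480) (nat_lit 28) (.e (nat_lit 557109) (nat_lit 15) (.e (nat_lit 188450) (nat_lit 23) .nil)))) .nil))) (.nd (nat_lit 5) 
(.lf (nat_lit 21968) (.g (nat_lit 4063) (.e (nat_lit 1182) (nat_lit 87) (.e (nat_lit 57480) (nat_lit 28) (.e (nat_lit 557109) (nat_lit 15) (.e (nat_lit 188449) (nat_lit 22) (.e (nat_lit 196666) (nat_lit 13) (.e (nat_lit 65565) (nat_lit 1) (.e (nat_lit 57872) (nat_lit 264) .nil))))))) (.g (nat_lit 6) .nil .nil))) 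
(.lf (nat_lit 22000) (.g (nat_lit 3686) (.e (nat_lit 1182) (nat_lit 87) (.e (nat_lit 57480) (nat_lit 28) (.e (nat_lit 557109) (nat_lit 15) (.e (nat_lit 188450) (nat_lit 23) (.e (nat_lit 204863) (nat_lit 27) .nil))))) .nil)))) (.nd (nat_lit 4) (.nd (nat_lit 5) 
(.lf (nat_lit 21960) (.g (nat_lit 3986) (.e (nat_lit 1182) (nat_lit 87) (.e (nat_lit 57480) (nat_lit 28) (.e (nat_lit 557109) (nat_lit 15) (.e (nat_lit 188449) (nat_lit 22) (.e (nat_lit 196666) (nat_lit 13) (.e (nat_lit 65550) (nat_lit 0) (.e (nat_lit 1023) (nat_lit 81) (.e (nat_lit 5905) (nat_lit 320) .nil)))))))) (.g (nat_lit 5) .nil .nil))) 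
(.lf (nat_lit 21992) (.g (nat_lit 4139) (.e (nat_lit 1182) (nat_lit 87) (.e (nat_lit 57480) (nat_lit 28) (.e (nat_lit 557109) (nat_lit 15) (.e (nat_lit 188450) (nat_lit 23) (.e (nat_lit 204855) (nat_lit 26) (.e (nat_lit 335985) (nat_lit 1) (.e (nat_lit 57873) (nat_lit 264) .nil))))))) (.g (nat_lit 4) .nil .nil)))) (.nd (nat_lit 5) 
(.lf (nat_lit 21976) (.g (nat_lit 4188) (.e (nat_lit 1182) (nat_lit 87) (.e (nat_lit 57480) (nat_lit 28) (.e (nat_lit 557109) (nat_lit 15) (.e (nat_lit 188449) (nat_lit 22) (.e (nat_lit 196670) (nat_lit 14) (.e (nat_lit 73732) (nat_lit 0) (.e (nat_lit 5902) (nat_lit 320) .nil))))))) (.g (nat_lit 5) .nil .nil))) 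
(.lf (nat_lit 22008) (.g (nat_lit 4612) (.e (nat_lit 1182) (nat_lit 87) (.e (nat_lit 57480) (nat_lit 28) (.e (nat_lit 557109) (nat_lit 15) (.e (nat_lit 188452) (nat_lit 23) (.e (nat_lit 204817) (nat_lit 17) (.e (nat_lit 7936) (nat_lit 343) (.e (nat_lit 1183) (nat_lit 87) (.e (nat_lit 57871) (nat_lit 264) .nil)))))))) (.g (nat_lit 5) .nil .nil)))))) 
(.nd (nat_lit 3) (.nd (nat_lit 4) (.nd (nat_lit 5) 
(.lf (nat_lit 21956) (.g (nat_lit 4712) (.e (nat_lit 1182) (nat_lit 87) (.e (nat_lit 57480) (nat_lit 28) (.e (nat_lit 557109) (nat_lit 15) (.e (nat_lit 188449) (nat_lit 22) (.e (nat_lit 196622) (nat_lit 9) .nil))))) .nil)) 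
(.lf (nat_lit 21988) (.g (nat_lit 3789) (.e (nat_lit 1182) (nat_lit 87) (.e (nat_lit 57480) (nat_lit 28) (.e (nat_lit 557109) (nat_lit 15) (.e (nat_lit 188450) (nat_lit 23) (.e (nat_lit 204852) (nat_lit 26) .nil))))) .nil))) (.nd (nat_lit 5) 
(.lf (nat_lit 21972) (.g (nat_lit 3558) (.e (nat_lit 1182) (nat_lit 87) (.e (nat_lit 57480) (nat_lit 28) (.e (nat_lit 557109) (nat_lit 15) (.e (nat_lit 188449) (nat_lit 22) (.e (nat_lit 196668) (nat_lit 14) (.e (nat_lit 73733) (nat_lit 0) (.e (nat_lit 5905) (nat_lit 320) .nil))))))) (.g (nat_lit 4) .nil .nil))) 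
(.lf (nat_lit 22004) (.g (nat_lit 3906) (.e (nat_lit 1182) (nat_lit 87) (.e (nat_lit 57480) (nat_lit 28) (.e (nat_lit 557109) (nat_lit 15) (.e (nat_lit 188450) (nat_lit 23) (.e (nat_lit 204873) (nat_lit 30) .nil))))) .nil)))) (.nd (nat_lit 4) (.nd (nat_lit 5) 
(.lf (nat_lit 21964) (.g (nat_lit 4043) (.e (nat_lit 1182) (nat_lit 87) (.e (nat_lit 57480) (nat_lit 28) (.e (nat_lit 557109) (nat_lit 15) (.e (nat_lit 188449) (nat_lit 22) (.e (nat_lit 196666) (nat_lit 13) (.e (nat_lit 65563) (nat_lit 1) (.e (nat_lit 57872) (nat_lit 264) .nil))))))) (.g (nat_lit 6) .nil .nil))) 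
(.lf (nat_lit 21996) (.g (nat_lit 3982) (.e (nat_lit 1182) (nat_lit 87) (.e (nat_lit 57480) (nat_lit 28) (.e (nat_lit 557109) (nat_lit 15) (.e (nat_lit 188450) (nat_lit 23) (.e (nat_lit 204861) (nat_lit 26) .nil))))) .nil))) (.nd (nat_lit 5) 
(.lf (nat_lit 21980) (.g (nat_lit 5691) (.e (nat_lit 1182) (nat_lit 87) (.e (nat_lit 57480) (nat_lit 28) (.e (nat_lit 557109) (nat_lit 15) (.e (nat_lit 188449) (nat_lit 22) (.e (nat_lit 196681) (nat_lit 17) (.e (nat_lit 131088) (nat_lit 1) (.e (nat_lit 57870) (nat_lit 264) .nil))))))) (.g (nat_lit 5) .nil .nil))) 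
(.lf (nat_lit 22012) (.g (nat_lit 4552) (.e (nat_lit 1182) (nat_lit 87) (.e (nat_lit 57480) (nat_lit 28) (.e (nat_lit 557109) (nat_lit 15) (.e (nat_lit 188452) (nat_lit 23) (.e (nat_lit 204849) (nat_lit 25) (.e (nat_lit 327692) (nat_lit 1) (.e (nat_lit 8439) (nat_lit 138) .nil))))))) (.g (nat_lit 4) .nil .nil))))))) (.nd (nat_lit 2) (.nd (nat_lit 3) (.nd (nat_lit 4) (.nd (nat_lit 5) 
(.lf (nat_lit 21954) (.g (nat_lit 4062) (.e (nat_lit 1182) (nat_lit 87) (.e (nat_lit 57480) (nat_lit 28) (.e (nat_lit 557109) (nat_lit 15) (.e (nat_lit 188447) (nat_lit 22) (.e (nat_lit 196681) (nat_lit 17) (.e (nat_lit 131089) (nat_lit 1) (.e (nat_lit 57870) (nat_lit 264) .nil))))))) (.g (nat_lit 4) .nil .nil))) 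
(.lf (nat_lit 21986) (.g (nat_lit 4101) (.e (nat_lit 1182) (nat_lit 87) (.e (nat_lit 57480) (nat_lit 28) (.e (nat_lit 557109) (nat_lit 15) (.e (nat_lit 188450) (nat_lit 23) (.e (nat_lit 204850) (nat_lit 26) (.e (nat_lit 335997) (nat_lit 1) (.e (nat_lit 57870) (nat_lit 264) .nil))))))) (.g (nat_lit 4) .nil .nil)))) (.nd (nat_lit 5) 
(.lf (nat_lit 21970) (.g (nat_lit 3952) (.e (nat_lit 1182) (nat_lit 87) (.e (nat_lit 57480) (nat_lit 28) (.e (nat_lit 557109) (nat_lit 15) (.e (nat_lit 188449) (nat_lit 22) (.e (nat_lit 196667) (nat_lit 14) .nil))))) .nil)) 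
(.lf (nat_lit 22002) (.g (nat_lit 5205) (.e (nat_lit 1182) (nat_lit 87) (.e (nat_lit 57480) (nat_lit 28) (.e (nat_lit 557109) (nat_lit 15) (.e (nat_lit 188450) (nat_lit 23) (.e (nat_lit 204863) (nat_lit 27) (.e (nat_lit 344097) (nat_lit 18) (.e (nat_lit 5907) (nat_lit 320) .nil))))))) (.g (nat_lit 5) .nil .nil))))) (.nd (nat_lit 4) (.nd (nat_lit 5) 
(.lf (nat_lit 21962) (.g (nat_lit 3966) (.e (nat_lit 1182) (nat_lit 87) (.e (nat_lit 57480) (nat_lit 28) (.e (nat_lit 557109) (nat_lit 15) (.e (nat_lit 188449) (nat_lit 22) (.e (nat_lit 196666) (nat_lit 13) (.e (nat_lit 65563) (nat_lit 1) (.e (nat_lit 57870) (nat_lit 264) .nil))))))) (.g (nat_lit 6) .nil .nil))) 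
(.lf (nat_lit 21994) (.g (nat_lit 3952) (.e (nat_lit 1182) (nat_lit 87) (.e (nat_lit 57480) (nat_lit 28) (.e (nat_lit 557109) (nat_lit 15) (.e (nat_lit 188450) (nat_lit 23) (.e (nat_lit 204859) (nat_lit 26) .nil))))) .nil))) (.nd (nat_lit 5) 
(.lf (nat_lit 21978) (.g (nat_lit 5767) (.e (nat_lit 1182) (nat_lit 87) (.e (nat_lit 57480) (nat_lit 28) (.e (nat_lit 557109) (nat_lit 15) (.e (nat_lit 188449) (nat_lit 22) (.e (nat_lit 196681) (nat_lit 17) (.e (nat_lit 131086) (nat_lit 1) (.e (nat_lit 57870) (nat_lit 264) .nil))))))) (.g (nat_lit 5) .nil .nil))) 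
(.lf (nat_lit 22010) (.g (nat_lit 4218) (.e (nat_lit 1182) (nat_lit 87) (.e (nat_lit 57480) (nat_lit 28) (.e (nat_lit 557109) (nat_lit 15) (.e (nat_lit 188452) (nat_lit 23) (.e (nat_lit 204821) (nat_lit 17) (.e (nat_lit 7936) (nat_lit 343) (.e (nat_lit 1183) (nat_lit 87) (.e (nat_lit 57872) (nat_lit 264) .nil)))))))) (.g (nat_lit 4) .nil .nil)))))) 
(.nd (nat_lit 3) (.nd (nat_lit 4) (.nd (nat_lit 5) 
(.lf (nat_lit 21958) (.g (nat_lit 3886) (.e (nat_lit 1182) (nat_lit 87) (.e (nat_lit 57480) (nat_lit 28) (.e (nat_lit 557109) (nat_lit 15) (.e (nat_lit 188449) (nat_lit 22) (.e (nat_lit 196661) (nat_lit 12) .nil))))) .nil)) 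
(.lf (nat_lit 21990) (.g (nat_lit 3743) (.e (nat_lit 1182) (nat_lit 87) (.e (nat_lit 57480) (nat_lit 28) (.e (nat_lit 557109) (nat_lit 15) (.e (nat_lit 188450) (nat_lit 23) (.e (nat_lit 204855) (nat_lit 26) (.e (nat_lit 335985) (nat_lit 1) (.e (nat_lit 57870) (nat_lit 264) .nil))))))) (.g (nat_lit 4) .nil .nil)))) (.nd (nat_lit 5) 
(.lf (nat_lit 21974) (.g (nat_lit 4894) (.e (nat_lit 1182) (nat_lit 87) (.e (nat_lit 57480) (nat_lit 28) (.e (nat_lit 557109) (nat_lit 15) (.e (nat_lit 188449) (nat_lit 22) (.e (nat_lit 196668) (nat_lit 14) (.e (nat_lit 73733) (nat_lit 0) (.e (nat_lit 5907) (nat_lit 320) .nil))))))) (.g (nat_lit 6) .nil .nil))) 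
(.lf (nat_lit 22006) (.g (nat_lit 3987) (.e (nat_lit 1182) (nat_lit 87) (.e (nat_lit 57480) (nat_lit 28) (.e (nat_lit 557109) (nat_lit 15) (.e (nat_lit 188452) (nat_lit 23) (.e (nat_lit 204817) (nat_lit 17) (.e (nat_lit 6198) (nat_lit 332) (.e (nat_lit 2544) (nat_lit 158) (.e (nat_lit 8439) (nat_lit 138) .nil)))))))) (.g (nat_lit 4) .nil .nil))))) (.nd (nat_lit 4) (.nd (nat_lit 5) 
(.lf (nat_lit 21966) (.g (nat_lit 3980) (.e (nat_lit 1182) (nat_lit 87) (.e (nat_lit 57480) (nat_lit 28) (.e (nat_lit 557109) (nat_lit 15) (.e (nat_lit 188449) (nat_lit 22) (.e (nat_lit 196666) (nat_lit 13) (.e (nat_lit 65565) (nat_lit 1) (.e (nat_lit 57870) (nat_lit 264) .nil))))))) (.g (nat_lit 6) .nil .nil))) 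
(.lf (nat_lit 21998) (.g (nat_lit 3684) (.e (nat_lit 1182) (nat_lit 87) (.e (nat_lit 57480) (nat_lit 28) (.e (nat_lit 557109) (nat_lit 15) (.e (nat_lit 188450) (nat_lit 23) (.e (nat_lit 204862) (nat_lit 27) .nil))))) .nil))) (.nd (nat_lit 5) 
(.lf (nat_lit 21982) (.g (nat_lit 5942) (.e (nat_lit 1182) (nat_lit 87) (.e (nat_lit 57480) (nat_lit 28) (.e (nat_lit 557109) (nat_lit 15) (.e (nat_lit 188449) (nat_lit 22) (.e (nat_lit 196681) (nat_lit 17) (.e (nat_lit 131088) (nat_lit 1) (.e (nat_lit 57873) (nat_lit 264) .nil))))))) (.g (nat_lit 5) .nil .nil))) 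
(.lf (nat_lit 22014) (.g (nat_lit 3500) (.e (nat_lit 1182) (nat_lit 87) (.e (nat_lit 57480) (nat_lit 28) (.e (nat_lit 557109) (nat_lit 15) (.e (nat_lit 188452) (nat_lit 23) (.e (nat_lit 204850) (nat_lit 26) (.e (nat_lit 335997) (nat_lit 1) (.e (nat_lit 57871) (nat_lit 264) .nil))))))) (.g (nat_lit 6) .nil .nil)))))))) 
(.nd (nat_lit 1) (.nd (nat_lit 2) (.nd (nat_lit 3) (.nd (nat_lit 4) (.nd (nat_lit 5) 
(.lf (nat_lit 21953) (.g (nat_lit 4186) (.e (nat_lit 1182) (nat_lit 87) (.e (nat_lit 57480) (nat_lit 28) (.e (nat_lit 557109) (nat_lit 15) (.e (nat_lit 188447) (nat_lit 22) (.e (nat_lit 196681) (nat_lit 17) (.e (nat_lit 131088) (nat_lit 1) (.e (nat_lit 57873) (nat_lit 264) .nil))))))) (.g (nat_lit 4) .nil .nil))) 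
(.lf (nat_lit 21985) (.g (nat_lit 3820) (.e (nat_lit 1182) (nat_lit 87) (.e (nat_lit 57480) (nat_lit 28) (.e (nat_lit 557109) (nat_lit 15) (.e (nat_lit 188450) (nat_lit 23) (.e (nat_lit 204850) (nat_lit 26) .nil))))) .nil))) (.nd (nat_lit 5) 
(.lf (nat_lit 21969) (.g (nat_lit 4390) (.e (nat_lit 1182) (nat_lit 87) (.e (nat_lit 57480) (nat_lit 28) (.e (nat_lit 557109) (nat_lit 15) (.e (nat_lit 188449) (nat_lit 22) (.e (nat_lit 196666) (nat_lit 13) (.e (nat_lit 65565) (nat_lit 1) (.e (nat_lit 57873) (nat_lit 264) .nil))))))) (.g (nat_lit 7) .nil .nil))) 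
(.lf (nat_lit 22001) (.g (nat_lit 4000) (.e (nat_lit 1182) (nat_lit 87) (.e (nat_lit 57480) (nat_lit 28) (.e (nat_lit 557109) (nat_lit 15) (.e (nat_lit 188450) (nat_lit 23) (.e (nat_lit 204863) (nat_lit 27) (.e (nat_lit 344090) (nat_lit 18) (.e (nat_lit 5896) (nat_lit 320) .nil))))))) (.g (nat_lit 4) .nil .nil))))) (.nd (nat_lit 4) (.nd (nat_lit 5) 
(.lf (nat_lit 21961) (.g (nat_lit 2599) (.e (nat_lit 1182) (nat_lit 87) (.e (nat_lit 57480) (nat_lit 28) (.e (nat_lit 557109) (nat_lit 15) (.e (nat_lit 188449) (nat_lit 22) (.e (nat_lit 196666) (nat_lit 13) (.e (nat_lit 65553) (nat_lit 0) (.e (nat_lit 1023) (nat_lit 81) (.e (nat_lit 5905) (nat_lit 320) .nil)))))))) (.g (nat_lit 4) .nil .nil))) 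
(.lf (nat_lit 21993) (.g (nat_lit 3858) (.e (nat_lit 1182) (nat_lit 87) (.e (nat_lit 57480) (nat_lit 28) (.e (nat_lit 557109) (nat_lit 15) (.e (nat_lit 188450) (nat_lit 23) (.e (nat_lit 204855) (nat_lit 26) (.e (nat_lit 335992) (nat_lit 1) (.e (nat_lit 57870) (nat_lit 264) .nil))))))) (.g (nat_lit 4) .nil .nil)))) (.nd (nat_lit 5) 
(.lf (nat_lit 21977) (.g (nat_lit 4538) (.e (nat_lit 1182) (nat_lit 87) (.e (nat_lit 57480) (nat_lit 28) (.e (nat_lit 557109) (nat_lit 15) (.e (nat_lit 188449) (nat_lit 22) (.e (nat_lit 196670) (nat_lit 14) (.e (nat_lit 73732) (nat_lit 0) (.e (nat_lit 5906) (nat_lit 320) .nil))))))) (.g (nat_lit 5) .nil .nil))) 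
(.lf (nat_lit 22009) (.g (nat_lit 3967) (.e (nat_lit 1182) (nat_lit 87) (.e (nat_lit 57480) (nat_lit 28) (.e (nat_lit 557109) (nat_lit 15) (.e (nat_lit 188452) (nat_lit 23) (.e (nat_lit 204821) (nat_lit 17) .nil))))) .nil))))) (.nd (nat_lit 3) (.nd (nat_lit 4) (.nd (nat_lit 5) 
(.lf (nat_lit 21957) (.g (nat_lit 2506) (.e (nat_lit 1182) (nat_lit 87) (.e (nat_lit 57480) (nat_lit 28) (.e (nat_lit 557109) (nat_lit 15) (.e (nat_lit 188449) (nat_lit 22) (.e (nat_lit 196630) (nat_lit 9) (.e (nat_lit 1485) (nat_lit 108) (.e (nat_lit 335995) (nat_lit 1) (.e (nat_lit 57872) (nat_lit 264) .nil)))))))) (.g (nat_lit 4) .nil .nil))) 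
(.lf (nat_lit 21989) (.g (nat_lit 3720) (.e (nat_lit 1182) (nat_lit 87) (.e (nat_lit 57480) (nat_lit 28) (.e (nat_lit 557109) (nat_lit 15) (.e (nat_lit 188450) (nat_lit 23) (.e (nat_lit 204855) (nat_lit 26) .nil))))) .nil))) (.nd (nat_lit 5) 
(.lf (nat_lit 21973) (.g (nat_lit 3704) (.e (nat_lit 1182) (nat_lit 87) (.e (nat_lit 57480) (nat_lit 28) (.e (nat_lit 557109) (nat_lit 15) (.e (nat_lit 188449) (nat_lit 22) (.e (nat_lit 196668) (nat_lit 14) (.e (nat_lit 73733) (nat_lit 0) (.e (nat_lit 5906) (nat_lit 320) .nil))))))) (.g (nat_lit 4) .nil .nil))) 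
(.lf (nat_lit 22005) (.g (nat_lit 3919) (.e (nat_lit 1182) (nat_lit 87) (.e (nat_lit 57480) (nat_lit 28) (.e (nat_lit 557109) (nat_lit 15) (.e (nat_lit 188452) (nat_lit 23) (.e (nat_lit 204817) (nat_lit 17) .nil))))) .nil)))) (.nd (nat_lit 4) (.nd (nat_lit 5) 
(.lf (nat_lit 21965) (.g (nat_lit 4359) (.e (nat_lit 1182) (nat_lit 87) (.e (nat_lit 57480) (nat_lit 28) (.e (nat_lit 557109) (nat_lit 15) (.e (nat_lit 188449) (nat_lit 22) (.e (nat_lit 196666) (nat_lit 13) (.e (nat_lit 65563) (nat_lit 1) (.e (nat_lit 57873) (nat_lit 264) .nil))))))) (.g (nat_lit 7) .nil .nil))) 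
(.lf (nat_lit 21997) (.g (nat_lit 4455) (.e (nat_lit 1182) (nat_lit 87) (.e (nat_lit 57480) (nat_lit 28) (.e (nat_lit 557109) (nat_lit 15) (.e (nat_lit 188450) (nat_lit 23) (.e (nat_lit 204861) (nat_lit 26) (.e (nat_lit 335996) (nat_lit 1) (.e (nat_lit 57870) (nat_lit 264) .nil))))))) (.g (nat_lit 4) .nil .nil)))) (.nd (nat_lit 5) 
(.lf (nat_lit 21981) (.g (nat_lit 6023) (.e (nat_lit 1182) (nat_lit 87) (.e (nat_lit 57480) (nat_lit 28) (.e (nat_lit 557109) (nat_lit 15) (.e (nat_lit 188449) (nat_lit 22) (.e (nat_lit 196681) (nat_lit 17) (.e (nat_lit 131088) (nat_lit 1) (.e (nat_lit 57872) (nat_lit 264) .nil))))))) (.g (nat_lit 6) .nil .nil))) 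
(.lf (nat_lit 22013) (.g (nat_lit 3813) (.e (nat_lit 1182) (nat_lit 87) (.e (nat_lit 57480) (nat_lit 28) (.e (nat_lit 557109) (nat_lit 15) (.e (nat_lit 188452) (nat_lit 23) (.e (nat_lit 204850) (nat_lit 26) (.e (nat_lit 335997) (nat_lit 1) (.e (nat_lit 57870) (nat_lit 264) .nil))))))) (.g (nat_lit 6) .nil .nil))))))) (.nd (nat_lit 2) (.nd (nat_lit 3) (.nd (nat_lit 4) (.nd (nat_lit 5) 
(.lf (nat_lit 21955) (.g (nat_lit 5895) (.e (nat_lit 1182) (nat_lit 87) (.e (nat_lit 57480) (nat_lit 28) (.e (nat_lit 557109) (nat_lit 15) (.e (nat_lit 188449) (nat_lit 22) (.e (nat_lit 196621) (nat_lit 9) .nil))))) .nil)) 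
(.lf (nat_lit 21987) (.g (nat_lit 4228) (.e (nat_lit 1182) (nat_lit 87) (.e (nat_lit 57480) (nat_lit 28) (.e (nat_lit 557109) (nat_lit 15) (.e (nat_lit 188450) (nat_lit 23) (.e (nat_lit 204850) (nat_lit 26) (.e (nat_lit 335997) (nat_lit 1) (.e (nat_lit 57872) (nat_lit 264) .nil))))))) (.g (nat_lit 4) .nil .nil)))) (.nd (nat_lit 5) 
(.lf (nat_lit 21971) (.g (nat_lit 3411) (.e (nat_lit 1182) (nat_lit 87) (.e (nat_lit 57480) (nat_lit 28) (.e (nat_lit 557109) (nat_lit 15) (.e (nat_lit 188449) (nat_lit 22) (.e (nat_lit 196668) (nat_lit 14) .nil))))) .nil)) 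
(.lf (nat_lit 22003) (.g (nat_lit 3947) (.e (nat_lit 1182) (nat_lit 87) (.e (nat_lit 57480) (nat_lit 28) (.e (nat_lit 557109) (nat_lit 15) (.e (nat_lit 188450) (nat_lit 23) (.e (nat_lit 204872) (nat_lit 30) .nil))))) .nil)))) (.nd (nat_lit 4) (.nd (nat_lit 5) 
(.lf (nat_lit 21963) (.g (nat_lit 3686) (.e (nat_lit 1182) (nat_lit 87) (.e (nat_lit 57480) (nat_lit 28) (.e (nat_lit 557109) (nat_lit 15) (.e (nat_lit 188449) (nat_lit 22) (.e (nat_lit 196666) (nat_lit 13) (.e (nat_lit 65563) (nat_lit 1) (.e (nat_lit 57871) (nat_lit 264) .nil))))))) (.g (nat_lit 5) .nil .nil))) 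
(.lf (nat_lit 21995) (.g (nat_lit 3940) (.e (nat_lit 1182) (nat_lit 87) (.e (nat_lit 57480) (nat_lit 28) (.e (nat_lit 557109) (nat_lit 15) (.e (nat_lit 188450) (nat_lit 23) (.e (nat_lit 204860) (nat_lit 26) .nil))))) .nil))) (.nd (nat_lit 5) 
(.lf (nat_lit 21979) (.g (nat_lit 6027) (.e (nat_lit 1182) (nat_lit 87) (.e (nat_lit 57480) (nat_lit 28) (.e (nat_lit 557109) (nat_lit 15) (.e (nat_lit 188449) (nat_lit 22) (.e (nat_lit 196681) (nat_lit 17) (.e (nat_lit 131086) (nat_lit 1) (.e (nat_lit 57872) (nat_lit 264) .nil))))))) (.g (nat_lit 5) .nil .nil))) 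
(.lf (nat_lit 22011) (.g (nat_lit 4966) (.e (nat_lit 1182) (nat_lit 87) (.e (nat_lit 57480) (nat_lit 28) (.e (nat_lit 557109) (nat_lit 15) (.e (nat_lit 188452) (nat_lit 23) (.e (nat_lit 204846) (nat_lit 24) (.e (nat_lit 319516) (nat_lit 11) (.e (nat_lit 8484) (nat_lit 168) .nil))))))) (.g (nat_lit 5) .nil .nil)))))) (.nd (nat_lit 3) (.nd (nat_lit 4) (.nd (nat_lit 5) 
(.lf (nat_lit 21959) (.g (nat_lit 2353) (.e (nat_lit 1182) (nat_lit 87) (.e (nat_lit 57480) (nat_lit 28) (.e (nat_lit 557109) (nat_lit 15) (.e (nat_lit 188449) (nat_lit 22) (.e (nat_lit 196666) (nat_lit 13) .nil))))) .nil)) 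
(.lf (nat_lit 21991) (.g (nat_lit 3814) (.e (nat_lit 1182) (nat_lit 87) (.e (nat_lit 57480) (nat_lit 28) (.e (nat_lit 557109) (nat_lit 15) (.e (nat_lit 188450) (nat_lit 23) (.e (nat_lit 204855) (nat_lit 26) (.e (nat_lit 335985) (nat_lit 1) (.e (nat_lit 57872) (nat_lit 264) .nil))))))) (.g (nat_lit 4) .nil .nil)))) (.nd (nat_lit 5) 
(.lf (nat_lit 21975) (.g (nat_lit 3631) (.e (nat_lit 1182) (nat_lit 87) (.e (nat_lit 57480) (nat_lit 28) (.e (nat_lit 557109) (nat_lit 15) (.e (nat_lit 188449) (nat_lit 22) (.e (nat_lit 196670) (nat_lit 14) (.e (nat_lit 73729) (nat_lit 0) (.e (nat_lit 5896) (nat_lit 320) .nil))))))) (.g (nat_lit 4) .nil .nil))) 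
(.lf (nat_lit 22007) (.g (nat_lit 4315) (.e (nat_lit 1182) (nat_lit 87) (.e (nat_lit 57480) (nat_lit 28) (.e (nat_lit 557109) (nat_lit 15) (.e (nat_lit 188452) (nat_lit 23) (.e (nat_lit 204817) (nat_lit 17) (.e (nat_lit 7936) (nat_lit 343) (.e (nat_lit 1181) (nat_lit 87) (.e (nat_lit 57872) (nat_lit 264) .nil)))))))) (.g (nat_lit 4) .nil .nil))))) (.nd (nat_lit 4) (.nd (nat_lit 5) 
(.lf (nat_lit 21967) (.g (nat_lit 3686) (.e (nat_lit 1182) (nat_lit 87) (.e (nat_lit 57480) (nat_lit 28) (.e (nat_lit 557109) (nat_lit 15) (.e (nat_lit 188449) (nat_lit 22) (.e (nat_lit 196666) (nat_lit 13) (.e (nat_lit 65565) (nat_lit 1) (.e (nat_lit 57871) (nat_lit 264) .nil))))))) (.g (nat_lit 5) .nil .nil))) 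
(.lf (nat_lit 21999) (.g (nat_lit 3803) (.e (nat_lit 1182) (nat_lit 87) (.e (nat_lit 57480) (nat_lit 28) (.e (nat_lit 557109) (nat_lit 15) (.e (nat_lit 188450) (nat_lit 23) (.e (nat_lit 204862) (nat_lit 27) (.e (nat_lit 344097) (nat_lit 18) (.e (nat_lit 5906) (nat_lit 320) .nil))))))) (.g (nat_lit 4) .nil .nil)))) (.nd (nat_lit 5) 
(.lf (nat_lit 21983) (.g (nat_lit 6114) (.e (nat_lit 1182) (nat_lit 87) (.e (nat_lit 57480) (nat_lit 28) (.e (nat_lit 557109) (nat_lit 15) (.e (nat_lit 188449) (nat_lit 22) (.e (nat_lit 196681) (nat_lit 17) (.e (nat_lit 131089) (nat_lit 1) (.e (nat_lit 57870) (nat_lit 264) .nil))))))) (.g (nat_lit 6) .nil .nil))) 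
(.lf (nat_lit 22015) (.g (nat_lit 3940) (.e (nat_lit 1182) (nat_lit 87) (.e (nat_lit 57480) (nat_lit 28) (.e (nat_lit 557109) (nat_lit 15) (.e (nat_lit 188452) (nat_lit 23) (.e (nat_lit 204850) (nat_lit 26) (.e (nat_lit 335997) (nat_lit 1) (.e (nat_lit 57872) (nat_lit 264) .nil))))))) (.g (nat_lit 6) .nil .nil)))))))))

noncomputable def tv311 : DT := (.nd (nat_lit 0) (.nd (nat_lit 1) (.nd (nat_lit 2) (.nd (nat_lit 3) (.nd (nat_lit 4) (.nd (nat_lit 5) 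
(.lf (nat_lit 22016) (.g (nat_lit 2815) (.e (nat_lit 1182) (nat_lit 87) (.e (nat_lit 57480) (nat_lit 28) (.e (nat_lit 557109) (nat_lit 15) (.e (nat_lit 188452) (nat_lit 23) (.e (nat_lit 204852) (nat_lit 26) .nil))))) .nil)) 
(.lf (nat_lit 22048) (.g (nat_lit 2664) (.e (nat_lit 1182) (nat_lit 87) (.e (nat_lit 57480) (nat_lit 28) (.e (nat_lit 557109) (nat_lit 15) (.e (nat_lit 188452) (nat_lit 23) (.e (nat_lit 204864) (nat_lit 27) .nil))))) .nil))) (.nd (nat_lit 5) 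
(.lf (nat_lit 22032) (.g (nat_lit 4487) (.e (nat_lit 1182) (nat_lit 87) (.e (nat_lit 57480) (nat_lit 28) (.e (nat_lit 557109) (nat_lit 15) (.e (nat_lit 188452) (nat_lit 23) (.e (nat_lit 204858) (nat_lit 26) .nil))))) .nil)) 
(.lf (nat_lit 22064) (.g (nat_lit 3237) (.e (nat_lit 1182) (nat_lit 87) (.e (nat_lit 57480) (nat_lit 28) (.e (nat_lit 557109) (nat_lit 15) (.e (nat_lit 188458) (nat_lit 25) (.e (nat_lit 245784) (nat_lit 9) .nil))))) .nil)))) (.nd (nat_lit 4) (.nd (nat_lit 5) 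
(.lf (nat_lit 22024) (.g (nat_lit 3560) (.e (nat_lit 1182) (nat_lit 87) (.e (nat_lit 57480) (nat_lit 28) (.e (nat_lit 557109) (nat_lit 15) (.e (nat_lit 188452) (nat_lit 23) (.e (nat_lit 204855) (nat_lit 26) (.e (nat_lit 335985) (nat_lit 1) (.e (nat_lit 57871) (nat_lit 264) .nil))))))) (.g (nat_lit 5) .nil .nil))) 
(.lf (nat_lit 22056) (.g (nat_lit 3057) (.e (nat_lit 1182) (nat_lit 87) (.e (nat_lit 57480) (nat_lit 28) (.e (nat_lit 557109) (nat_lit 15) (.e (nat_lit 188452) (nat_lit 23) (.e (nat_lit 204873) (nat_lit 30) .nil))))) .nil))) (.nd (nat_lit 5) 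
(.lf (nat_lit 22040) (.g (nat_lit 3959) (.e (nat_lit 1182) (nat_lit 87) (.e (nat_lit 57480) (nat_lit 28) (.e (nat_lit 557109) (nat_lit 15) (.e (nat_lit 188452) (nat_lit 23) (.e (nat_lit 204862) (nat_lit 27) (.e (nat_lit 344090) (nat_lit 18) (.e (nat_lit 5896) (nat_lit 320) .nil))))))) (.g (nat_lit 5) .nil .nil))) 
(.lf (nat_lit 22072) (.g (nat_lit 2298) (.e (nat_lit 1182) (nat_lit 87) (.e (nat_lit 57520) (nat_lit 44) (.e (nat_lit 688177) (nat_lit 16) (.e (nat_lit 65583) (nat_lit 7) (.e (nat_lit 319530) (nat_lit 16) (.e (nat_lit 286751) (nat_lit 10) (.e (nat_lit 344097) (nat_lit 18) (.e (nat_lit 5907) (nat_lit 320) .nil)))))))) (.g (nat_lit 5) .nil .nil)))))) 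
(.nd (nat_lit 3) (.nd (nat_lit 4) (.nd (nat_lit 5) 
(.lf (nat_lit 22020) (.g (nat_lit 2470) (.e (nat_lit 1182) (nat_lit 87) (.e (nat_lit 57480) (nat_lit 28) (.e (nat_lit 557109) (nat_lit 15) (.e (nat_lit 188452) (nat_lit 23) (.e (nat_lit 204855) (nat_lit 26) .nil))))) .nil)) 
(.lf (nat_lit 22052) (.g (nat_lit 4153) (.e (nat_lit 1182) (nat_lit 87) (.e (nat_lit 57480) (nat_lit 28) (.e (nat_lit 557109) (nat_lit 15) (.e (nat_lit 188452) (nat_lit 23) (.e (nat_lit 204864) (nat_lit 27) (.e (nat_lit 344097) (nat_lit 18) (.e (nat_lit 5905) (nat_lit 320) .nil))))))) (.g (nat_lit 5) .nil .nil)))) (.nd (nat_lit 5) 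
(.lf (nat_lit 22036) (.g (nat_lit 4643) (.e (nat_lit 1182) (nat_lit 87) (.e (nat_lit 57480) (nat_lit 28) (.e (nat_lit 557109) (nat_lit 15) (.e (nat_lit 188452) (nat_lit 23) (.e (nat_lit 204860) (nat_lit 26) .nil))))) .nil)) 
(.lf (nat_lit 22068) (.g (nat_lit 3679) (.e (nat_lit 1182) (nat_lit 87) (.e (nat_lit 57480) (nat_lit 28) (.e (nat_lit 557109) (nat_lit 15) (.e (nat_lit 188458) (nat_lit 25) (.e (nat_lit 245794) (nat_lit 17) .nil))))) .nil)))) (.nd (nat_lit 4) (.nd (nat_lit 5) 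
(.lf (nat_lit 22028) (.g (nat_lit 4757) (.e (nat_lit 1182) (nat_lit 87) (.e (nat_lit 57480) (nat_lit 28) (.e (nat_lit 557109) (nat_lit 15) (.e (nat_lit 188452) (nat_lit 23) (.e (nat_lit 204856) (nat_lit 26) (.e (nat_lit 335997) (nat_lit 1) (.e (nat_lit 57872) (nat_lit 264) .nil))))))) (.g (nat_lit 6) .nil .nil))) 
(.lf (nat_lit 22060) (.g (nat_lit 3554) (.e (nat_lit 1182) (nat_lit 87) (.e (nat_lit 57480) (nat_lit 28) (.e (nat_lit 557109) (nat_lit 15) (.e (nat_lit 188452) (nat_lit 23) (.e (nat_lit 204874) (nat_lit 30) .nil))))) .nil))) (.nd (nat_lit 5) 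
(.lf (nat_lit 22044) (.g (nat_lit 2403) (.e (nat_lit 1182) (nat_lit 87) (.e (nat_lit 57480) (nat_lit 28) (.e (nat_lit 557109) (nat_lit 15) (.e (nat_lit 188452) (nat_lit 23) (.e (nat_lit 204863) (nat_lit 27) .nil))))) .nil)) 
(.lf (nat_lit 22076) (.g (nat_lit 2294) (.e (nat_lit 1182) (nat_lit 87) (.e (nat_lit 57520) (nat_lit 44) (.e (nat_lit 688177) (nat_lit 16) (.e (nat_lit 65586) (nat_lit 7) (.e (nat_lit 319531) (nat_lit 16) (.e (nat_lit 286748) (nat_lit 9) (.e (nat_lit 335997) (nat_lit 1) (.e (nat_lit 57870) (nat_lit 264) .nil)))))))) (.g (nat_lit 5) .nil .nil))))))) 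
(.nd (nat_lit 2) (.nd (nat_lit 3) (.nd (nat_lit 4) (.nd (nat_lit 5) 
(.lf (nat_lit 22018) (.g (nat_lit 3803) (.e (nat_lit 1182) (nat_lit 87) (.e (nat_lit 57480) (nat_lit 28) (.e (nat_lit 557109) (nat_lit 15) (.e (nat_lit 188452) (nat_lit 23) (.e (nat_lit 204852) (nat_lit 26) (.e (nat_lit 343808) (nat_lit 1) (.e (nat_lit 57872) (nat_lit 264) .nil))))))) (.g (nat_lit 5) .nil .nil))) 
(.lf (nat_lit 22050) (.g (nat_lit 4625) (.e (nat_lit 1182) (nat_lit 87) (.e (nat_lit 57480) (nat_lit 28) (.e (nat_lit 557109) (nat_lit 15) (.e (nat_lit 188452) (nat_lit 23) (.e (nat_lit 204864) (nat_lit 27) (.e (nat_lit 344090) (nat_lit 18) (.e (nat_lit 5896) (nat_lit 320) .nil))))))) (.g (nat_lit 6) .nil .nil)))) (.nd (nat_lit 5) 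
(.lf (nat_lit 22034) (.g (nat_lit 4514) (.e (nat_lit 1182) (nat_lit 87) (.e (nat_lit 57480) (nat_lit 28) (.e (nat_lit 557109) (nat_lit 15) (.e (nat_lit 188452) (nat_lit 23) (.e (nat_lit 204858) (nat_lit 26) (.e (nat_lit 335997) (nat_lit 1) (.e (nat_lit 57872) (nat_lit 264) .nil))))))) (.g (nat_lit 4) .nil .nil))) 
(.lf (nat_lit 22066) (.g (nat_lit 3619) (.e (nat_lit 1182) (nat_lit 87) (.e (nat_lit 57480) (nat_lit 28) (.e (nat_lit 557109) (nat_lit 15) (.e (nat_lit 188458) (nat_lit 25) (.e (nat_lit 245791) (nat_lit 14) .nil))))) .nil)))) (.nd (nat_lit 4) (.nd (nat_lit 5) 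
(.lf (nat_lit 22026) (.g (nat_lit 4669) (.e (nat_lit 1182) (nat_lit 87) (.e (nat_lit 57480) (nat_lit 28) (.e (nat_lit 557109) (nat_lit 15) (.e (nat_lit 188452) (nat_lit 23) (.e (nat_lit 204856) (nat_lit 26) (.e (nat_lit 335997) (nat_lit 1) (.e (nat_lit 57870) (nat_lit 264) .nil))))))) (.g (nat_lit 6) .nil .nil))) 
(.lf (nat_lit 22058) (.g (nat_lit 3239) (.e (nat_lit 1182) (nat_lit 87) (.e (nat_lit 57480) (nat_lit 28) (.e (nat_lit 557109) (nat_lit 15) (.e (nat_lit 188452) (nat_lit 23) (.e (nat_lit 204873) (nat_lit 30) (.e (nat_lit 368662) (nat_lit 18) (.e (nat_lit 5905) (nat_lit 320) .nil))))))) (.g (nat_lit 4) .nil .nil)))) (.nd (nat_lit 5) 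
(.lf (nat_lit 22042) (.g (nat_lit 4404) (.e (nat_lit 1182) (nat_lit 87) (.e (nat_lit 57480) (nat_lit 28) (.e (nat_lit 557109) (nat_lit 15) (.e (nat_lit 188452) (nat_lit 23) (.e (nat_lit 204862) (nat_lit 27) (.e (nat_lit 344097) (nat_lit 18) (.e (nat_lit 5906) (nat_lit 320) .nil))))))) (.g (nat_lit 6) .nil .nil))) 
(.lf (nat_lit 22074) (.g (nat_lit 3409) (.e (nat_lit 1182) (nat_lit 87) (.e (nat_lit 57520) (nat_lit 44) (.e (nat_lit 688177) (nat_lit 16) (.e (nat_lit 65583) (nat_lit 7) (.e (nat_lit 319530) (nat_lit 16) (.e (nat_lit 286759) (nat_lit 12) (.e (nat_lit 385045) (nat_lit 21) (.e (nat_lit 7450) (nat_lit 396) .nil)))))))) (.g (nat_lit 6) .nil .nil)))))) 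
(.nd (nat_lit 3) (.nd (nat_lit 4) (.nd (nat_lit 5) 
(.lf (nat_lit 22022) (.g (nat_lit 4086) (.e (nat_lit 1182) (nat_lit 87) (.e (nat_lit 57480) (nat_lit 28) (.e (nat_lit 557109) (nat_lit 15) (.e (nat_lit 188452) (nat_lit 23) (.e (nat_lit 204855) (nat_lit 26) (.e (nat_lit 335923) (nat_lit 0) (.e (nat_lit 1023) (nat_lit 81) (.e (nat_lit 5906) (nat_lit 320) .nil)))))))) (.g (nat_lit 5) .nil .nil))) 
(.lf (nat_lit 22054) (.g (nat_lit 4318) (.e (nat_lit 1182) (nat_lit 87) (.e (nat_lit 57480) (nat_lit 28) (.e (nat_lit 557109) (nat_lit 15) (.e (nat_lit 188452) (nat_lit 23) (.e (nat_lit 204864) (nat_lit 27) (.e (nat_lit 344100) (nat_lit 18) (.e (nat_lit 5907) (nat_lit 320) .nil))))))) (.g (nat_lit 6) .nil .nil)))) (.nd (nat_lit 5) 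
(.lf (nat_lit 22038) (.g (nat_lit 6635) (.e (nat_lit 1182) (nat_lit 87) (.e (nat_lit 57480) (nat_lit 28) (.e (nat_lit 557109) (nat_lit 15) (.e (nat_lit 188452) (nat_lit 23) (.e (nat_lit 204861) (nat_lit 26) (.e (nat_lit 335995) (nat_lit 1) (.e (nat_lit 57872) (nat_lit 264) .nil))))))) (.g (nat_lit 6) .nil .nil))) 
(.lf (nat_lit 22070) (.g (nat_lit 1328) (.e (nat_lit 1182) (nat_lit 87) (.e (nat_lit 57520) (nat_lit 44) (.e (nat_lit 688177) (nat_lit 16) (.e (nat_lit 65583) (nat_lit 7) (.e (nat_lit 319530) (nat_lit 16) .nil))))) .nil)))) (.nd (nat_lit 4) (.nd (nat_lit 5) 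
(.lf (nat_lit 22030) (.g (nat_lit 4458) (.e (nat_lit 1182) (nat_lit 87) (.e (nat_lit 57480) (nat_lit 28) (.e (nat_lit 557109) (nat_lit 15) (.e (nat_lit 188452) (nat_lit 23) (.e (nat_lit 204857) (nat_lit 26) (.e (nat_lit 335997) (nat_lit 1) (.e (nat_lit 57870) (nat_lit 264) .nil))))))) (.g (nat_lit 4) .nil .nil))) 
(.lf (nat_lit 22062) (.g (nat_lit 3959) (.e (nat_lit 1182) (nat_lit 87) (.e (nat_lit 57480) (nat_lit 28) (.e (nat_lit 557109) (nat_lit 15) (.e (nat_lit 188452) (nat_lit 23) (.e (nat_lit 204874) (nat_lit 30) (.e (nat_lit 368662) (nat_lit 18) (.e (nat_lit 5905) (nat_lit 320) .nil))))))) (.g (nat_lit 4) .nil .nil)))) (.nd (nat_lit 5) 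
(.lf (nat_lit 22046) (.g (nat_lit 4878) (.e (nat_lit 1182) (nat_lit 87) (.e (nat_lit 57480) (nat_lit 28) (.e (nat_lit 557109) (nat_lit 15) (.e (nat_lit 188452) (nat_lit 23) (.e (nat_lit 204863) (nat_lit 27) (.e (nat_lit 344097) (nat_lit 18) (.e (nat_lit 5907) (nat_lit 320) .nil))))))) (.g (nat_lit 7) .nil .nil))) 
(.lf (nat_lit 22078) (.g (nat_lit 1760) (.e (nat_lit 1182) (nat_lit 87) (.e (nat_lit 57520) (nat_lit 44) (.e (nat_lit 688177) (nat_lit 16) (.e (nat_lit 65586) (nat_lit 7) (.e (nat_lit 319533) (nat_lit 16) (.e (nat_lit 286753) (nat_lit 10) (.e (nat_lit 344097) (nat_lit 18) (.e (nat_lit 5906) (nat_lit 320) .nil)))))))) (.g (nat_lit 4) .nil .nil)))))))) 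
(.nd (nat_lit 1) (.nd (nat_lit 2) (.nd (nat_lit 3) (.nd (nat_lit 4) (.nd (nat_lit 5) 
(.lf (nat_lit 22017) (.g (nat_lit 2915) (.e (nat_lit 1182) (nat_lit 87) (.e (nat_lit 57480) (nat_lit 28) (.e (nat_lit 557109) (nat_lit 15) (.e (nat_lit 188452) (nat_lit 23) (.e (nat_lit 204852) (nat_lit 26) (.e (nat_lit 343808) (nat_lit 1) (.e (nat_lit 57871) (nat_lit 264) .nil))))))) (.g (nat_lit 4) .nil .nil))) 
(.lf (nat_lit 22049) (.g (nat_lit 2954) (.e (nat_lit 1182) (nat_lit 87) (.e (nat_lit 57480) (nat_lit 28) (.e (nat_lit 557109) (nat_lit 15) (.e (nat_lit 188452) (nat_lit 23) (.e (nat_lit 204864) (nat_lit 27) (.e (nat_lit 344088) (nat_lit 18) (.e (nat_lit 5896) (nat_lit 320) .nil))))))) (.g (nat_lit 4) .nil .nil)))) (.nd (nat_lit 5) 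
(.lf (nat_lit 22033) (.g (nat_lit 4690) (.e (nat_lit 1182) (nat_lit 87) (.e (nat_lit 57480) (nat_lit 28) (.e (nat_lit 557109) (nat_lit 15) (.e (nat_lit 188452) (nat_lit 23) (.e (nat_lit 204858) (nat_lit 26) (.e (nat_lit 335991) (nat_lit 1) (.e (nat_lit 57873) (nat_lit 264) .nil))))))) (.g (nat_lit 4) .nil .nil))) 
(.lf (nat_lit 22065) (.g (nat_lit 3845) (.e (nat_lit 1182) (nat_lit 87) (.e (nat_lit 57480) (nat_lit 28) (.e (nat_lit 557109) (nat_lit 15) (.e (nat_lit 188458) (nat_lit 25) (.e (nat_lit 245784) (nat_lit 9) (.e (nat_lit 1413) (nat_lit 108) (.e (nat_lit 335997) (nat_lit 1) (.e (nat_lit 57871) (nat_lit 264) .nil)))))))) (.g (nat_lit 5) .nil .nil))))) (.nd (nat_lit 4) (.nd (nat_lit 5) 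
(.lf (nat_lit 22025) (.g (nat_lit 3966) (.e (nat_lit 1182) (nat_lit 87) (.e (nat_lit 57480) (nat_lit 28) (.e (nat_lit 557109) (nat_lit 15) (.e (nat_lit 188452) (nat_lit 23) (.e (nat_lit 204855) (nat_lit 26) (.e (nat_lit 335985) (nat_lit 1) (.e (nat_lit 57872) (nat_lit 264) .nil))))))) (.g (nat_lit 6) .nil .nil))) 
(.lf (nat_lit 22057) (.g (nat_lit 3289) (.e (nat_lit 1182) (nat_lit 87) (.e (nat_lit 57480) (nat_lit 28) (.e (nat_lit 557109) (nat_lit 15) (.e (nat_lit 188452) (nat_lit 23) (.e (nat_lit 204873) (nat_lit 30) (.e (nat_lit 368662) (nat_lit 18) (.e (nat_lit 5902) (nat_lit 320) .nil))))))) (.g (nat_lit 4) .nil .nil)))) (.nd (nat_lit 5) 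
(.lf (nat_lit 22041) (.g (nat_lit 3805) (.e (nat_lit 1182) (nat_lit 87) (.e (nat_lit 57480) (nat_lit 28) (.e (nat_lit 557109) (nat_lit 15) (.e (nat_lit 188452) (nat_lit 23) (.e (nat_lit 204862) (nat_lit 27) (.e (nat_lit 344097) (nat_lit 18) (.e (nat_lit 5905) (nat_lit 320) .nil))))))) (.g (nat_lit 5) .nil .nil))) 
(.lf (nat_lit 22073) (.g (nat_lit 2328) (.e (nat_lit 1182) (nat_lit 87) (.e (nat_lit 57520) (nat_lit 44) (.e (nat_lit 688177) (nat_lit 16) (.e (nat_lit 65583) (nat_lit 7) (.e (nat_lit 319530) (nat_lit 16) (.e (nat_lit 286756) (nat_lit 10) (.e (nat_lit 344097) (nat_lit 18) (.e (nat_lit 5906) (nat_lit 320) .nil)))))))) (.g (nat_lit 5) .nil .nil)))))) 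
(.nd (nat_lit 3) (.nd (nat_lit 4) (.nd (nat_lit 5) 
(.lf (nat_lit 22021) (.g (nat_lit 2910) (.e (nat_lit 1182) (nat_lit 87) (.e (nat_lit 57480) (nat_lit 28) (.e (nat_lit 557109) (nat_lit 15) (.e (nat_lit 188452) (nat_lit 23) (.e (nat_lit 204855) (nat_lit 26) (.e (nat_lit 335901) (nat_lit 0) (.e (nat_lit 1095) (nat_lit 81) (.e (nat_lit 5906) (nat_lit 320) .nil)))))))) (.g (nat_lit 4) .nil .nil))) 
(.lf (nat_lit 22053) (.g (nat_lit 2898) (.e (nat_lit 1182) (nat_lit 87) (.e (nat_lit 57480) (nat_lit 28) (.e (nat_lit 557109) (nat_lit 15) (.e (nat_lit 188452) (nat_lit 23) (.e (nat_lit 204864) (nat_lit 27) (.e (nat_lit 344100) (nat_lit 18) (.e (nat_lit 5902) (nat_lit 320) .nil))))))) (.g (nat_lit 4) .nil .nil)))) (.nd (nat_lit 5) 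
(.lf (nat_lit 22037) (.g (nat_lit 5906) (.e (nat_lit 1182) (nat_lit 87) (.e (nat_lit 57480) (nat_lit 28) (.e (nat_lit 557109) (nat_lit 15) (.e (nat_lit 188452) (nat_lit 23) (.e (nat_lit 204860) (nat_lit 26) (.e (nat_lit 335995) (nat_lit 1) (.e (nat_lit 57872) (nat_lit 264) .nil))))))) (.g (nat_lit 6) .nil .nil))) 
(.lf (nat_lit 22069) (.g (nat_lit 1369) (.e (nat_lit 1182) (nat_lit 87) (.e (nat_lit 57520) (nat_lit 44) (.e (nat_lit 688177) (nat_lit 16) (.e (nat_lit 65581) (nat_lit 7) .nil)))) .nil)))) (.nd (nat_lit 4) (.nd (nat_lit 5) 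
(.lf (nat_lit 22029) (.g (nat_lit 4116) (.e (nat_lit 1182) (nat_lit 87) (.e (nat_lit 57480) (nat_lit 28) (.e (nat_lit 557109) (nat_lit 15) (.e (nat_lit 188452) (nat_lit 23) (.e (nat_lit 204857) (nat_lit 26) .nil))))) .nil)) 
(.lf (nat_lit 22061) (.g (nat_lit 3957) (.e (nat_lit 1182) (nat_lit 87) (.e (nat_lit 57480) (nat_lit 28) (.e (nat_lit 557109) (nat_lit 15) (.e (nat_lit 188452) (nat_lit 23) (.e (nat_lit 204874) (nat_lit 30) (.e (nat_lit 368662) (nat_lit 18) (.e (nat_lit 5902) (nat_lit 320) .nil))))))) (.g (nat_lit 4) .nil .nil)))) (.nd (nat_lit 5) 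
(.lf (nat_lit 22045) (.g (nat_lit 4568) (.e (nat_lit 1182) (nat_lit 87) (.e (nat_lit 57480) (nat_lit 28) (.e (nat_lit 557109) (nat_lit 15) (.e (nat_lit 188452) (nat_lit 23) (.e (nat_lit 204863) (nat_lit 27) (.e (nat_lit 344097) (nat_lit 18) (.e (nat_lit 5906) (nat_lit 320) .nil))))))) (.g (nat_lit 6) .nil .nil))) 
(.lf (nat_lit 22077) (.g (nat_lit 3350) (.e (nat_lit 1182) (nat_lit 87) (.e (nat_lit 57520) (nat_lit 44) (.e (nat_lit 688177) (nat_lit 16) (.e (nat_lit 65586) (nat_lit 7) (.e (nat_lit 319531) (nat_lit 16) (.e (nat_lit 286759) (nat_lit 12) (.e (nat_lit 385045) (nat_lit 21) (.e (nat_lit 7450) (nat_lit 396) .nil)))))))) (.g (nat_lit 6) .nil .nil))))))) 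
(.nd (nat_lit 2) (.nd (nat_lit 3) (.nd (nat_lit 4) (.nd (nat_lit 5) 
(.lf (nat_lit 22019) (.g (nat_lit 3970) (.e (nat_lit 1182) (nat_lit 87) (.e (nat_lit 57480) (nat_lit 28) (.e (nat_lit 557109) (nat_lit 15) (.e (nat_lit 188452) (nat_lit 23) (.e (nat_lit 204852) (nat_lit 26) (.e (nat_lit 343808) (nat_lit 1) (.e (nat_lit 57873) (nat_lit 264) .nil))))))) (.g (nat_lit 5) .nil .nil))) 
(.lf (nat_lit 22051) (.g (nat_lit 3893) (.e (nat_lit 1182) (nat_lit 87) (.e (nat_lit 57480) (nat_lit 28) (.e (nat_lit 557109) (nat_lit 15) (.e (nat_lit 188452) (nat_lit 23) (.e (nat_lit 204864) (nat_lit 27) (.e (nat_lit 344095) (nat_lit 18) (.e (nat_lit 5896) (nat_lit 320) .nil))))))) (.g (nat_lit 5) .nil .nil)))) (.nd (nat_lit 5) 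
(.lf (nat_lit 22035) (.g (nat_lit 4711) (.e (nat_lit 1182) (nat_lit 87) (.e (nat_lit 57480) (nat_lit 28) (.e (nat_lit 557109) (nat_lit 15) (.e (nat_lit 188452) (nat_lit 23) (.e (nat_lit 204859) (nat_lit 26) (.e (nat_lit 335998) (nat_lit 1) (.e (nat_lit 57873) (nat_lit 264) .nil))))))) (.g (nat_lit 6) .nil .nil))) 
(.lf (nat_lit 22067) (.g (nat_lit 4067) (.e (nat_lit 1182) (nat_lit 87) (.e (nat_lit 57480) (nat_lit 28) (.e (nat_lit 557109) (nat_lit 15) (.e (nat_lit 188458) (nat_lit 25) (.e (nat_lit 245791) (nat_lit 14) (.e (nat_lit 73733) (nat_lit 0) (.e (nat_lit 5907) (nat_lit 320) .nil))))))) (.g (nat_lit 5) .nil .nil))))) (.nd (nat_lit 4) (.nd (nat_lit 5) 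
(.lf (nat_lit 22027) (.g (nat_lit 4268) (.e (nat_lit 1182) (nat_lit 87) (.e (nat_lit 57480) (nat_lit 28) (.e (nat_lit 557109) (nat_lit 15) (.e (nat_lit 188452) (nat_lit 23) (.e (nat_lit 204856) (nat_lit 26) (.e (nat_lit 335997) (nat_lit 1) (.e (nat_lit 57871) (nat_lit 264) .nil))))))) (.g (nat_lit 5) .nil .nil))) 
(.lf (nat_lit 22059) (.g (nat_lit 4582) (.e (nat_lit 1182) (nat_lit 87) (.e (nat_lit 57480) (nat_lit 28) (.e (nat_lit 557109) (nat_lit 15) (.e (nat_lit 188452) (nat_lit 23) (.e (nat_lit 204873) (nat_lit 30) (.e (nat_lit 368662) (nat_lit 18) (.e (nat_lit 5907) (nat_lit 320) .nil))))))) (.g (nat_lit 7) .nil .nil)))) (.nd (nat_lit 5) 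
(.lf (nat_lit 22043) (.g (nat_lit 4732) (.e (nat_lit 1182) (nat_lit 87) (.e (nat_lit 57480) (nat_lit 28) (.e (nat_lit 557109) (nat_lit 15) (.e (nat_lit 188452) (nat_lit 23) (.e (nat_lit 204862) (nat_lit 27) (.e (nat_lit 344097) (nat_lit 18) (.e (nat_lit 5907) (nat_lit 320) .nil))))))) (.g (nat_lit 7) .nil .nil))) 
(.lf (nat_lit 22075) (.g (nat_lit 2939) (.e (nat_lit 1182) (nat_lit 87) (.e (nat_lit 57520) (nat_lit 44) (.e (nat_lit 688177) (nat_lit 16) (.e (nat_lit 65583) (nat_lit 7) (.e (nat_lit 319533) (nat_lit 16) (.e (nat_lit 286753) (nat_lit 10) (.e (nat_lit 344097) (nat_lit 18) (.e (nat_lit 5907) (nat_lit 320) .nil)))))))) (.g (nat_lit 5) .nil .nil)))))) 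
(.nd (nat_lit 3) (.nd (nat_lit 4) (.nd (nat_lit 5) 
(.lf (nat_lit 22023) (.g (nat_lit 3883) (.e (nat_lit 1182) (nat_lit 87) (.e (nat_lit 57480) (nat_lit 28) (.e (nat_lit 557109) (nat_lit 15) (.e (nat_lit 188452) (nat_lit 23) (.e (nat_lit 204855) (nat_lit 26) (.e (nat_lit 335985) (nat_lit 1) (.e (nat_lit 57870) (nat_lit 264) .nil))))))) (.g (nat_lit 6) .nil .nil))) 
(.lf (nat_lit 22055) (.g (nat_lit 2871) (.e (nat_lit 1182) (nat_lit 87) (.e (nat_lit 57480) (nat_lit 28) (.e (nat_lit 557109) (nat_lit 15) (.e (nat_lit 188452) (nat_lit 23) (.e (nat_lit 204872) (nat_lit 30) .nil))))) .nil))) (.nd (nat_lit 5) 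
(.lf (nat_lit 22039) (.g (nat_lit 3225) (.e (nat_lit 1182) (nat_lit 87) (.e (nat_lit 57480) (nat_lit 28) (.e (nat_lit 557109) (nat_lit 15) (.e (nat_lit 188452) (nat_lit 23) (.e (nat_lit 212736) (nat_lit 26) .nil))))) .nil)) 
(.lf (nat_lit 22071) (.g (nat_lit 2305) (.e (nat_lit 1182) (nat_lit 87) (.e (nat_lit 57520) (nat_lit 44) (.e (nat_lit 688177) (nat_lit 16) (.e (nat_lit 65583) (nat_lit 7) (.e (nat_lit 319530) (nat_lit 16) (.e (nat_lit 286748) (nat_lit 9) (.e (nat_lit 335997) (nat_lit 1) (.e (nat_lit 57872) (nat_lit 264) .nil)))))))) (.g (nat_lit 5) .nil .nil))))) (.nd (nat_lit 4) (.nd (nat_lit 5) 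
(.lf (nat_lit 22031) (.g (nat_lit 4358) (.e (nat_lit 1182) (nat_lit 87) (.e (nat_lit 57480) (nat_lit 28) (.e (nat_lit 557109) (nat_lit 15) (.e (nat_lit 188452) (nat_lit 23) (.e (nat_lit 204857) (nat_lit 26) (.e (nat_lit 335997) (nat_lit 1) (.e (nat_lit 57872) (nat_lit 264) .nil))))))) (.g (nat_lit 4) .nil .nil))) 
(.lf (nat_lit 22063) (.g (nat_lit 3711) (.e (nat_lit 1182) (nat_lit 87) (.e (nat_lit 57480) (nat_lit 28) (.e (nat_lit 557109) (nat_lit 15) (.e (nat_lit 188458) (nat_lit 25) (.e (nat_lit 245782) (nat_lit 9) .nil))))) .nil))) (.nd (nat_lit 5) 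
(.lf (nat_lit 22047) (.g (nat_lit 2845) (.e (nat_lit 1182) (nat_lit 87) (.e (nat_lit 57480) (nat_lit 28) (.e (nat_lit 557109) (nat_lit 15) (.e (nat_lit 188452) (nat_lit 23) (.e (nat_lit 204863) (nat_lit 27) (.e (nat_lit 344099) (nat_lit 18) (.e (nat_lit 5902) (nat_lit 320) .nil))))))) (.g (nat_lit 4) .nil .nil))) 
(.lf (nat_lit 22079) (.g (nat_lit 2298) (.e (nat_lit 1182) (nat_lit 87) (.e (nat_lit 57520) (nat_lit 44) (.e (nat_lit 688177) (nat_lit 16) (.e (nat_lit 65586) (nat_lit 7) (.e (nat_lit 319533) (nat_lit 16) (.e (nat_lit 286753) (nat_lit 10) (.e (nat_lit 344097) (nat_lit 18) (.e (nat_lit 5907) (nat_lit 320) .nil)))))))) (.g (nat_lit 5) .nil .nil)))))))))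

noncomputable def tv312 : DT := (.nd (nat_lit 0) (.nd (nat_lit 1) (.nd (nat_lit 2) (.nd (nat_lit 3) (.nd (nat_lit 4) (.nd (nat_lit 5) 
(.lf (nat_lit 22080) (.g (nat_lit 1279) (.e (nat_lit 1182) (nat_lit 87) (.e (nat_lit 57691) (nat_lit 156) (.e (nat_lit 163907) (nat_lit 12) (.e (nat_lit 426131) (nat_lit 3) .nil)))) .nil)) 
(.lf (nat_lit 22112) (.g (nat_lit 2412) (.e (nat_lit 1182) (nat_lit 87) (.e (nat_lit 57854) (nat_lit 252) (.e (nat_lit 57409) (nat_lit 12) (.e (nat_lit 336211) (nat_lit 13) (.e (nat_lit 393268) (nat_lit 23) (.e (nat_lit 426444) (nat_lit 19) (.e (nat_lit 106517) (nat_lit 9) .nil))))))) (.g (nat_lit 4) .nil .nil)))) (.nd (nat_lit 5) 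
(.lf (nat_lit 22096) (.g (nat_lit 4357) (.e (nat_lit 1182) (nat_lit 87) (.e (nat_lit 57854) (nat_lit 252) (.e (nat_lit 57364) (nat_lit 1) (.e (nat_lit 57851) (nat_lit 252) (.e (nat_lit 57354) (nat_lit 0) (.e (nat_lit 1855) (nat_lit 124) (.e (nat_lit 557109) (nat_lit 15) (.e (nat_lit 188461) (nat_lit 26) (.e (nat_lit 253959) (nat_lit 9) .nil))))))))) (.g (nat_lit 7) .nil .nil))) 
(.lf (nat_lit 22128) (.g (nat_lit 3519) (.e (nat_lit 1182) (nat_lit 87) (.e (nat_lit 57854) (nat_lit 252) (.e (nat_lit 57435) (nat_lit 17) (.e (nat_lit 376842) (nat_lit 11) (.e (nat_lit 426306) (nat_lit 12) (.e (nat_lit 475201) (nat_lit 40) (.e (nat_lit 704620) (nat_lit 9) .nil))))))) (.g (nat_lit 7) .nil .nil))))) (.nd (nat_lit 4) (.nd (nat_lit 5) 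
(.lf (nat_lit 22088) (.g (nat_lit 4011) (.e (nat_lit 1182) (nat_lit 87) (.e (nat_lit 57724) (nat_lit 181) (.e (nat_lit 1200) (nat_lit 88) (.e (nat_lit 65581) (nat_lit 7) (.e (nat_lit 319533) (nat_lit 16) (.e (nat_lit 286753) (nat_lit 10) (.e (nat_lit 344169) (nat_lit 40) (.e (nat_lit 671751) (nat_lit 0) .nil)))))))) (.g (nat_lit 0) .nil .nil))) 
(.lf (nat_lit 22120) (.g (nat_lit 3145) (.e (nat_lit 1182) (nat_lit 87) (.e (nat_lit 57854) (nat_lit 252) (.e (nat_lit 57435) (nat_lit 17) (.e (nat_lit 376842) (nat_lit 11) (.e (nat_lit 426188) (nat_lit 9) (.e (nat_lit 426442) (nat_lit 19) (.e (nat_lit 106517) (nat_lit 9) .nil))))))) (.g (nat_lit 5) .nil .nil)))) (.nd (nat_lit 5) 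
(.lf (nat_lit 22104) (.g (nat_lit 3534) (.e (nat_lit 1182) (nat_lit 87) (.e (nat_lit 57854) (nat_lit 252) (.e (nat_lit 57373) (nat_lit 2) (.e (nat_lit 90160) (nat_lit 11) (.e (nat_lit 24608) (nat_lit 3) (.e (nat_lit 98342) (nat_lit 20) (.e (nat_lit 221212) (nat_lit 22) (.e (nat_lit 196635) (nat_lit 9) .nil)))))))) (.g (nat_lit 4) .nil .nil))) 
(.lf (nat_lit 22136) (.g (nat_lit 1459) (.e (nat_lit 1182) (nat_lit 87) (.e (nat_lit 57854) (nat_lit 252) (.e (nat_lit 57436) (nat_lit 17) (.e (nat_lit 376842) (nat_lit 11) (.e (nat_lit 426298) (nat_lit 11) .nil))))) .nil))))) (.nd (nat_lit 3) (.nd (nat_lit 4) (.nd (nat_lit 5) 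
(.lf (nat_lit 22084) (.g (nat_lit 4030) (.e (nat_lit 1182) (nat_lit 87) (.e (nat_lit 57724) (nat_lit 181) (.e (nat_lit 1199) (nat_lit 88) (.e (nat_lit 65586) (nat_lit 7) (.e (nat_lit 319531) (nat_lit 16) (.e (nat_lit 286756) (nat_lit 10) (.e (nat_lit 344169) (nat_lit 40) (.e (nat_lit 671751) (nat_lit 0) .nil)))))))) (.g (nat_lit 7) .nil .nil))) 
(.lf (nat_lit 22116) (.g (nat_lit 1152) (.e (nat_lit 1182) (nat_lit 87) (.e (nat_lit 57854) (nat_lit 252) (.e (nat_lit 57409) (nat_lit 12) (.e (nat_lit 336456) (nat_lit 34) .nil)))) .nil))) (.nd (nat_lit 5) 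
(.lf (nat_lit 22100) (.g (nat_lit 2649) (.e (nat_lit 1182) (nat_lit 87) (.e (nat_lit 57854) (nat_lit 252) (.e (nat_lit 57373) (nat_lit 2) (.e (nat_lit 90133) (nat_lit 9) .nil)))) .nil)) 
(.lf (nat_lit 22132) (.g (nat_lit 1038) (.e (nat_lit 1182) (nat_lit 87) (.e (nat_lit 57854) (nat_lit 252) (.e (nat_lit 57435) (nat_lit 17) (.e (nat_lit 384768) (nat_lit 14) .nil)))) .nil)))) (.nd (nat_lit 4) (.nd (nat_lit 5) 
(.lf (nat_lit 22092) (.g (nat_lit 2024) (.e (nat_lit 1182) (nat_lit 87) (.e (nat_lit 57852) (nat_lit 252) (.e (nat_lit 57435) (nat_lit 17) (.e (nat_lit 376842) (nat_lit 11) (.e (nat_lit 426188) (nat_lit 9) .nil))))) .nil)) 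
(.lf (nat_lit 22124) (.g (nat_lit 1695) (.e (nat_lit 1182) (nat_lit 87) (.e (nat_lit 57854) (nat_lit 252) (.e (nat_lit 57435) (nat_lit 17) (.e (nat_lit 376842) (nat_lit 11) (.e (nat_lit 426298) (nat_lit 11) (.e (nat_lit 458804) (nat_lit 38) (.e (nat_lit 655383) (nat_lit 9) .nil))))))) (.g (nat_lit 4) .nil .nil)))) (.nd (nat_lit 5) 
(.lf (nat_lit 22108) (.g (nat_lit 1715) (.e (nat_lit 1182) (nat_lit 87) (.e (nat_lit 57854) (nat_lit 252) (.e (nat_lit 57409) (nat_lit 12) (.e (nat_lit 336115) (nat_lit 9) .nil)))) .nil)) 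
(.lf (nat_lit 22140) (.g (nat_lit 1924) (.e (nat_lit 1182) (nat_lit 87) (.e (nat_lit 57854) (nat_lit 252) (.e (nat_lit 57436) (nat_lit 17) (.e (nat_lit 376842) (nat_lit 11) (.e (nat_lit 426306) (nat_lit 12) (.e (nat_lit 475201) (nat_lit 40) (.e (nat_lit 704664) (nat_lit 9) .nil))))))) (.g (nat_lit 4) .nil .nil))))))) (.nd (nat_lit 2) (.nd (nat_lit 3) (.nd (nat_lit 4) (.nd (nat_lit 5) 
(.lf (nat_lit 22082) (.g (nat_lit 1924) (.e (nat_lit 1182) (nat_lit 87) (.e (nat_lit 57692) (nat_lit 156) (.e (nat_lit 163907) (nat_lit 12) (.e (nat_lit 426131) (nat_lit 3) (.e (nat_lit 204876) (nat_lit 31) .nil))))) .nil)) 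
(.lf (nat_lit 22114) (.g (nat_lit 2092) (.e (nat_lit 1182) (nat_lit 87) (.e (nat_lit 57854) (nat_lit 252) (.e (nat_lit 57409) (nat_lit 12) (.e (nat_lit 336211) (nat_lit 13) (.e (nat_lit 393291) (nat_lit 26) (.e (nat_lit 475201) (nat_lit 40) (.e (nat_lit 704655) (nat_lit 9) .nil))))))) (.g (nat_lit 4) .nil .nil)))) (.nd (nat_lit 5) 
(.lf (nat_lit 22098) (.g (nat_lit 2095) (.e (nat_lit 1182) (nat_lit 87) (.e (nat_lit 57854) (nat_lit 252) (.e (nat_lit 57373) (nat_lit 2) (.e (nat_lit 90128) (nat_lit 9) .nil)))) .nil)) 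
(.lf (nat_lit 22130) (.g (nat_lit 1852) (.e (nat_lit 1182) (nat_lit 87) (.e (nat_lit 57854) (nat_lit 252) (.e (nat_lit 57435) (nat_lit 17) (.e (nat_lit 376842) (nat_lit 11) (.e (nat_lit 426306) (nat_lit 12) (.e (nat_lit 475201) (nat_lit 40) (.e (nat_lit 704658) (nat_lit 9) .nil))))))) (.g (nat_lit 4) .nil .nil))))) (.nd (nat_lit 4) (.nd (nat_lit 5) 
(.lf (nat_lit 22090) (.g (nat_lit 4131) (.e (nat_lit 1182) (nat_lit 87) (.e (nat_lit 57724) (nat_lit 181) (.e (nat_lit 1200) (nat_lit 88) (.e (nat_lit 65581) (nat_lit 7) (.e (nat_lit 319534) (nat_lit 16) (.e (nat_lit 286756) (nat_lit 10) (.e (nat_lit 344169) (nat_lit 40) (.e (nat_lit 671751) (nat_lit 0) .nil)))))))) (.g (nat_lit 8) .nil .nil))) 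
(.lf (nat_lit 22122) (.g (nat_lit 3242) (.e (nat_lit 1182) (nat_lit 87) (.e (nat_lit 57854) (nat_lit 252) (.e (nat_lit 57435) (nat_lit 17) (.e (nat_lit 376842) (nat_lit 11) (.e (nat_lit 426188) (nat_lit 9) (.e (nat_lit 426444) (nat_lit 19) (.e (nat_lit 106517) (nat_lit 9) .nil))))))) (.g (nat_lit 6) .nil .nil)))) (.nd (nat_lit 5) 
(.lf (nat_lit 22106) (.g (nat_lit 1285) (.e (nat_lit 1182) (nat_lit 87) (.e (nat_lit 57854) (nat_lit 252) (.e (nat_lit 57406) (nat_lit 12) (.e (nat_lit 336454) (nat_lit 34) .nil)))) .nil)) 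
(.lf (nat_lit 22138) (.g (nat_lit 3153) (.e (nat_lit 1182) (nat_lit 87) (.e (nat_lit 57854) (nat_lit 252) (.e (nat_lit 57436) (nat_lit 17) (.e (nat_lit 376842) (nat_lit 11) (.e (nat_lit 426306) (nat_lit 12) (.e (nat_lit 475201) (nat_lit 40) (.e (nat_lit 704620) (nat_lit 9) .nil))))))) (.g (nat_lit 6) .nil .nil)))))) (.nd (nat_lit 3) (.nd (nat_lit 4) (.nd (nat_lit 5) 
(.lf (nat_lit 22086) (.g (nat_lit 4719) (.e (nat_lit 1182) (nat_lit 87) (.e (nat_lit 57724) (nat_lit 181) (.e (nat_lit 1199) (nat_lit 88) (.e (nat_lit 65586) (nat_lit 7) (.e (nat_lit 319534) (nat_lit 16) (.e (nat_lit 286756) (nat_lit 10) (.e (nat_lit 344169) (nat_lit 40) (.e (nat_lit 671751) (nat_lit 0) .nil)))))))) (.g (nat_lit 8) .nil .nil))) 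
(.lf (nat_lit 22118) (.g (nat_lit 1610) (.e (nat_lit 1182) (nat_lit 87) (.e (nat_lit 57854) (nat_lit 252) (.e (nat_lit 57431) (nat_lit 16) (.e (nat_lit 368676) (nat_lit 21) (.e (nat_lit 516169) (nat_lit 13) .nil))))) .nil))) (.nd (nat_lit 5) 
(.lf (nat_lit 22102) (.g (nat_lit 2377) (.e (nat_lit 1182) (nat_lit 87) (.e (nat_lit 57854) (nat_lit 252) (.e (nat_lit 57373) (nat_lit 2) (.e (nat_lit 90160) (nat_lit 11) .nil)))) .nil)) 
(.lf (nat_lit 22134) (.g (nat_lit 3059) (.e (nat_lit 1182) (nat_lit 87) (.e (nat_lit 57854) (nat_lit 252) (.e (nat_lit 57436) (nat_lit 17) (.e (nat_lit 376842) (nat_lit 11) (.e (nat_lit 426188) (nat_lit 9) (.e (nat_lit 426444) (nat_lit 19) (.e (nat_lit 106504) (nat_lit 9) .nil))))))) (.g (nat_lit 5) .nil .nil))))) (.nd (nat_lit 4) (.nd (nat_lit 5) 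
(.lf (nat_lit 22094) (.g (nat_lit 750) (.e (nat_lit 1182) (nat_lit 87) (.e (nat_lit 57852) (nat_lit 252) (.e (nat_lit 57436) (nat_lit 17) .nil))) .nil)) 
(.lf (nat_lit 22126) (.g (nat_lit 2162) (.e (nat_lit 1182) (nat_lit 87) (.e (nat_lit 57854) (nat_lit 252) (.e (nat_lit 57435) (nat_lit 17) (.e (nat_lit 376842) (nat_lit 11) (.e (nat_lit 426298) (nat_lit 11) (.e (nat_lit 458804) (nat_lit 38) (.e (nat_lit 655390) (nat_lit 9) .nil))))))) (.g (nat_lit 5) .nil .nil)))) (.nd (nat_lit 5) 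
(.lf (nat_lit 22110) (.g (nat_lit 1477) (.e (nat_lit 1182) (nat_lit 87) (.e (nat_lit 57854) (nat_lit 252) (.e (nat_lit 57409) (nat_lit 12) (.e (nat_lit 336211) (nat_lit 13) .nil)))) .nil)) 
(.lf (nat_lit 22142) (.g (nat_lit 1259) (.e (nat_lit 1182) (nat_lit 87) (.e (nat_lit 57854) (nat_lit 252) (.e (nat_lit 57445) (nat_lit 19) (.e (nat_lit 393229) (nat_lit 9) .nil)))) .nil))))))) (.nd (nat_lit 1) (.nd (nat_lit 2) (.nd (nat_lit 3) (.nd (nat_lit 4) (.nd (nat_lit 5) 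
(.lf (nat_lit 22081) (.g (nat_lit 2920) (.e (nat_lit 1182) (nat_lit 87) (.e (nat_lit 57691) (nat_lit 156) (.e (nat_lit 163907) (nat_lit 12) (.e (nat_lit 426131) (nat_lit 3) (.e (nat_lit 204877) (nat_lit 31) (.e (nat_lit 376855) (nat_lit 20) (.e (nat_lit 1855) (nat_lit 124) (.e (nat_lit 564992) (nat_lit 0) .nil)))))))) (.g (nat_lit 6) .nil .nil))) 
(.lf (nat_lit 22113) (.g (nat_lit 1994) (.e (nat_lit 1182) (nat_lit 87) (.e (nat_lit 57854) (nat_lit 252) (.e (nat_lit 57409) (nat_lit 12) (.e (nat_lit 336211) (nat_lit 13) (.e (nat_lit 393273) (nat_lit 23) .nil))))) .nil))) (.nd (nat_lit 5) 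
(.lf (nat_lit 22097) (.g (nat_lit 2412) (.e (nat_lit 1182) (nat_lit 87) (.e (nat_lit 57854) (nat_lit 252) (.e (nat_lit 57366) (nat_lit 1) (.e (nat_lit 57847) (nat_lit 252) (.e (nat_lit 57355) (nat_lit 0) (.e (nat_lit 1858) (nat_lit 124) (.e (nat_lit 557109) (nat_lit 15) (.e (nat_lit 188461) (nat_lit 26) (.e (nat_lit 253959) (nat_lit 9) .nil))))))))) (.g (nat_lit 4) .nil .nil))) 
(.lf (nat_lit 22129) (.g (nat_lit 2228) (.e (nat_lit 1182) (nat_lit 87) (.e (nat_lit 57854) (nat_lit 252) (.e (nat_lit 57435) (nat_lit 17) (.e (nat_lit 376842) (nat_lit 11) (.e (nat_lit 426306) (nat_lit 12) (.e (nat_lit 475201) (nat_lit 40) (.e (nat_lit 704655) (nat_lit 9) .nil))))))) (.g (nat_lit 5) .nil .nil))))) (.nd (nat_lit 4) (.nd (nat_lit 5) 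
(.lf (nat_lit 22089) (.g (nat_lit 4266) (.e (nat_lit 1182) (nat_lit 87) (.e (nat_lit 57724) (nat_lit 181) (.e (nat_lit 1200) (nat_lit 88) (.e (nat_lit 65581) (nat_lit 7) (.e (nat_lit 319534) (nat_lit 16) (.e (nat_lit 286756) (nat_lit 10) (.e (nat_lit 344168) (nat_lit 40) (.e (nat_lit 671751) (nat_lit 0) .nil)))))))) (.g (nat_lit 8) .nil .nil))) 
(.lf (nat_lit 22121) (.g (nat_lit 3435) (.e (nat_lit 1182) (nat_lit 87) (.e (nat_lit 57854) (nat_lit 252) (.e (nat_lit 57435) (nat_lit 17) (.e (nat_lit 376842) (nat_lit 11) (.e (nat_lit 426188) (nat_lit 9) (.e (nat_lit 426444) (nat_lit 19) (.e (nat_lit 106504) (nat_lit 9) .nil))))))) (.g (nat_lit 6) .nil .nil)))) (.nd (nat_lit 5) 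
(.lf (nat_lit 22105) (.g (nat_lit 1776) (.e (nat_lit 1182) (nat_lit 87) (.e (nat_lit 57854) (nat_lit 252) (.e (nat_lit 57378) (nat_lit 3) (.e (nat_lit 106240) (nat_lit 10) .nil)))) .nil)) 
(.lf (nat_lit 22137) (.g (nat_lit 1789) (.e (nat_lit 1182) (nat_lit 87) (.e (nat_lit 57854) (nat_lit 252) (.e (nat_lit 57436) (nat_lit 17) (.e (nat_lit 376842) (nat_lit 11) (.e (nat_lit 426298) (nat_lit 11) (.e (nat_lit 458804) (nat_lit 38) (.e (nat_lit 655390) (nat_lit 9) .nil))))))) (.g (nat_lit 4) .nil .nil)))))) (.nd (nat_lit 3) (.nd (nat_lit 4) (.nd (nat_lit 5) 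
(.lf (nat_lit 22085) (.g (nat_lit 4859) (.e (nat_lit 1182) (nat_lit 87) (.e (nat_lit 57724) (nat_lit 181) (.e (nat_lit 1199) (nat_lit 88) (.e (nat_lit 65586) (nat_lit 7) (.e (nat_lit 319534) (nat_lit 16) (.e (nat_lit 286756) (nat_lit 10) (.e (nat_lit 344168) (nat_lit 40) (.e (nat_lit 671751) (nat_lit 0) .nil)))))))) (.g (nat_lit 8) .nil .nil))) 
(.lf (nat_lit 22117) (.g (nat_lit 2142) (.e (nat_lit 1182) (nat_lit 87) (.e (nat_lit 57854) (nat_lit 252) (.e (nat_lit 57430) (nat_lit 16) (.e (nat_lit 368676) (nat_lit 21) (.e (nat_lit 516176) (nat_lit 14) (.e (nat_lit 466967) (nat_lit 20) (.e (nat_lit 3266) (nat_lit 199) (.e (nat_lit 548878) (nat_lit 5) .nil)))))))) (.g (nat_lit 4) .nil .nil)))) (.nd (nat_lit 5) 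
(.lf (nat_lit 22101) (.g (nat_lit 2561) (.e (nat_lit 1182) (nat_lit 87) (.e (nat_lit 57854) (nat_lit 252) (.e (nat_lit 57373) (nat_lit 2) (.e (nat_lit 90158) (nat_lit 11) .nil)))) .nil)) 
(.lf (nat_lit 22133) (.g (nat_lit 1049) (.e (nat_lit 1182) (nat_lit 87) (.e (nat_lit 57854) (nat_lit 252) (.e (nat_lit 57436) (nat_lit 17) (.e (nat_lit 376842) (nat_lit 11) .nil)))) .nil)))) (.nd (nat_lit 4) (.nd (nat_lit 5) 
(.lf (nat_lit 22093) (.g (nat_lit 2105) (.e (nat_lit 1182) (nat_lit 87) (.e (nat_lit 57852) (nat_lit 252) (.e (nat_lit 57435) (nat_lit 17) (.e (nat_lit 376842) (nat_lit 11) (.e (nat_lit 426306) (nat_lit 12) (.e (nat_lit 475201) (nat_lit 40) (.e (nat_lit 704620) (nat_lit 9) .nil))))))) (.g (nat_lit 4) .nil .nil))) 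
(.lf (nat_lit 22125) (.g (nat_lit 1943) (.e (nat_lit 1182) (nat_lit 87) (.e (nat_lit 57854) (nat_lit 252) (.e (nat_lit 57435) (nat_lit 17) (.e (nat_lit 376842) (nat_lit 11) (.e (nat_lit 426298) (nat_lit 11) (.e (nat_lit 458804) (nat_lit 38) (.e (nat_lit 655389) (nat_lit 9) .nil))))))) (.g (nat_lit 4) .nil .nil)))) (.nd (nat_lit 5) 
(.lf (nat_lit 22109) (.g (nat_lit 2198) (.e (nat_lit 1182) (nat_lit 87) (.e (nat_lit 57854) (nat_lit 252) (.e (nat_lit 57409) (nat_lit 12) (.e (nat_lit 336115) (nat_lit 9) (.e (nat_lit 336432) (nat_lit 30) .nil))))) .nil)) 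
(.lf (nat_lit 22141) (.g (nat_lit 1098) (.e (nat_lit 1182) (nat_lit 87) (.e (nat_lit 57854) (nat_lit 252) (.e (nat_lit 57436) (nat_lit 17) (.e (nat_lit 384768) (nat_lit 14) .nil)))) .nil)))))) (.nd (nat_lit 2) (.nd (nat_lit 3) (.nd (nat_lit 4) (.nd (nat_lit 5) 
(.lf (nat_lit 22083) (.g (nat_lit 4223) (.e (nat_lit 1182) (nat_lit 87) (.e (nat_lit 57724) (nat_lit 181) (.e (nat_lit 1199) (nat_lit 88) (.e (nat_lit 65586) (nat_lit 7) (.e (nat_lit 319531) (nat_lit 16) (.e (nat_lit 286756) (nat_lit 10) (.e (nat_lit 344168) (nat_lit 40) (.e (nat_lit 671751) (nat_lit 0) .nil)))))))) (.g (nat_lit 8) .nil .nil))) 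
(.lf (nat_lit 22115) (.g (nat_lit 2180) (.e (nat_lit 1182) (nat_lit 87) (.e (nat_lit 57854) (nat_lit 252) (.e (nat_lit 57409) (nat_lit 12) (.e (nat_lit 336211) (nat_lit 13) (.e (nat_lit 393291) (nat_lit 26) (.e (nat_lit 475201) (nat_lit 40) (.e (nat_lit 704664) (nat_lit 9) .nil))))))) (.g (nat_lit 4) .nil .nil)))) (.nd (nat_lit 5) 
(.lf (nat_lit 22099) (.g (nat_lit 3296) (.e (nat_lit 1182) (nat_lit 87) (.e (nat_lit 57854) (nat_lit 252) (.e (nat_lit 57373) (nat_lit 2) (.e (nat_lit 90128) (nat_lit 9) (.e (nat_lit 297) (nat_lit 22) (.e (nat_lit 344119) (nat_lit 21) (.e (nat_lit 516131) (nat_lit 3) (.e (nat_lit 221212) (nat_lit 22) (.e (nat_lit 196635) (nat_lit 9) .nil))))))))) (.g (nat_lit 4) .nil .nil))) 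
(.lf (nat_lit 22131) (.g (nat_lit 2296) (.e (nat_lit 1182) (nat_lit 87) (.e (nat_lit 57854) (nat_lit 252) (.e (nat_lit 57435) (nat_lit 17) (.e (nat_lit 376842) (nat_lit 11) (.e (nat_lit 426306) (nat_lit 12) (.e (nat_lit 475201) (nat_lit 40) (.e (nat_lit 704664) (nat_lit 9) .nil))))))) (.g (nat_lit 5) .nil .nil))))) (.nd (nat_lit 4) (.nd (nat_lit 5) 
(.lf (nat_lit 22091) (.g (nat_lit 777) (.e (nat_lit 1182) (nat_lit 87) (.e (nat_lit 57852) (nat_lit 252) (.e (nat_lit 57409) (nat_lit 12) .nil))) .nil)) 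
(.lf (nat_lit 22123) (.g (nat_lit 1757) (.e (nat_lit 1182) (nat_lit 87) (.e (nat_lit 57854) (nat_lit 252) (.e (nat_lit 57435) (nat_lit 17) (.e (nat_lit 376842) (nat_lit 11) (.e (nat_lit 426198) (nat_lit 9) .nil))))) .nil))) (.nd (nat_lit 5) 
(.lf (nat_lit 22107) (.g (nat_lit 536) (.e (nat_lit 1182) (nat_lit 87) (.e (nat_lit 57854) (nat_lit 252) (.e (nat_lit 57409) (nat_lit 12) .nil))) .nil)) 
(.lf (nat_lit 22139) (.g (nat_lit 1856) (.e (nat_lit 1182) (nat_lit 87) (.e (nat_lit 57854) (nat_lit 252) (.e (nat_lit 57436) (nat_lit 17) (.e (nat_lit 376842) (nat_lit 11) (.e (nat_lit 426306) (nat_lit 12) (.e (nat_lit 475201) (nat_lit 40) (.e (nat_lit 704655) (nat_lit 9) .nil))))))) (.g (nat_lit 4) .nil .nil)))))) (.nd (nat_lit 3) (.nd (nat_lit 4) (.nd (nat_lit 5) 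
(.lf (nat_lit 22087) (.g (nat_lit 3344) (.e (nat_lit 1182) (nat_lit 87) (.e (nat_lit 57724) (nat_lit 181) (.e (nat_lit 1200) (nat_lit 88) (.e (nat_lit 65581) (nat_lit 7) (.e (nat_lit 319533) (nat_lit 16) (.e (nat_lit 286753) (nat_lit 10) (.e (nat_lit 344168) (nat_lit 40) (.e (nat_lit 671751) (nat_lit 0) .nil)))))))) (.g (nat_lit 8) .nil .nil))) 
(.lf (nat_lit 22119) (.g (nat_lit 986) (.e (nat_lit 1182) (nat_lit 87) (.e (nat_lit 57854) (nat_lit 252) (.e (nat_lit 57435) (nat_lit 17) (.e (nat_lit 376842) (nat_lit 11) .nil)))) .nil))) (.nd (nat_lit 5) 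
(.lf (nat_lit 22103) (.g (nat_lit 3646) (.e (nat_lit 1182) (nat_lit 87) (.e (nat_lit 57854) (nat_lit 252) (.e (nat_lit 57373) (nat_lit 2) (.e (nat_lit 90160) (nat_lit 11) (.e (nat_lit 24607) (nat_lit 3) .nil))))) .nil)) 
(.lf (nat_lit 22135) (.g (nat_lit 2866) (.e (nat_lit 1182) (nat_lit 87) (.e (nat_lit 57854) (nat_lit 252) (.e (nat_lit 57436) (nat_lit 17) (.e (nat_lit 376842) (nat_lit 11) (.e (nat_lit 426188) (nat_lit 9) (.e (nat_lit 426444) (nat_lit 19) (.e (nat_lit 106517) (nat_lit 9) .nil))))))) (.g (nat_lit 5) .nil .nil))))) (.nd (nat_lit 4) (.nd (nat_lit 5) 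
(.lf (nat_lit 22095) (.g (nat_lit 1926) (.e (nat_lit 1182) (nat_lit 87) (.e (nat_lit 57852) (nat_lit 252) (.e (nat_lit 57436) (nat_lit 17) (.e (nat_lit 376842) (nat_lit 11) (.e (nat_lit 426306) (nat_lit 12) (.e (nat_lit 475201) (nat_lit 40) (.e (nat_lit 704620) (nat_lit 9) .nil))))))) (.g (nat_lit 4) .nil .nil))) 
(.lf (nat_lit 22127) (.g (nat_lit 1592) (.e (nat_lit 1182) (nat_lit 87) (.e (nat_lit 57854) (nat_lit 252) (.e (nat_lit 57435) (nat_lit 17) (.e (nat_lit 376842) (nat_lit 11) (.e (nat_lit 426306) (nat_lit 12) .nil))))) .nil))) (.nd (nat_lit 5) 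
(.lf (nat_lit 22111) (.g (nat_lit 2432) (.e (nat_lit 1182) (nat_lit 87) (.e (nat_lit 57854) (nat_lit 252) (.e (nat_lit 57409) (nat_lit 12) (.e (nat_lit 336211) (nat_lit 13) (.e (nat_lit 393268) (nat_lit 23) (.e (nat_lit 426444) (nat_lit 19) (.e (nat_lit 106504) (nat_lit 9) .nil))))))) (.g (nat_lit 4) .nil .nil))) 
(.lf (nat_lit 22143) (.g (nat_lit 630) (.e (nat_lit 1182) (nat_lit 87) (.e (nat_lit 57854) (nat_lit 252) (.e (nat_lit 57447) (nat_lit 19) .nil))) .nil))))))))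

noncomputable def tv313 : DT := (.nd (nat_lit 0) (.nd (nat_lit 1) (.nd (nat_lit 2) (.nd (nat_lit 3) (.nd (nat_lit 4) (.nd (nat_lit 5) 
(.lf (nat_lit 22144) (.g (nat_lit 1504) (.e (nat_lit 1182) (nat_lit 87) (.e (nat_lit 57854) (nat_lit 252) (.e (nat_lit 57447) (nat_lit 19) (.e (nat_lit 393225) (nat_lit 9) .nil)))) .nil)) 
(.lf (nat_lit 22176) (.g (nat_lit 1733) (.e (nat_lit 1183) (nat_lit 87) (.e (nat_lit 57466) (nat_lit 23) (.e (nat_lit 516129) (nat_lit 3) (.e (nat_lit 221210) (nat_lit 22) (.e (nat_lit 196664) (nat_lit 13) (.e (nat_lit 65637) (nat_lit 15) (.e (nat_lit 3253) (nat_lit 197) (.e (nat_lit 532501) (nat_lit 1) (.e (nat_lit 57830) (nat_lit 250) .nil))))))))) (.g (nat_lit 4) .nil .nil)))) (.nd (nat_lit 5) 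
(.lf (nat_lit 22160) (.g (nat_lit 4408) (.e (nat_lit 1182) (nat_lit 87) (.e (nat_lit 57931) (nat_lit 282) (.e (nat_lit 163867) (nat_lit 2) (.e (nat_lit 196670) (nat_lit 14) (.e (nat_lit 73746) (nat_lit 3) (.e (nat_lit 516131) (nat_lit 3) (.e (nat_lit 221212) (nat_lit 22) (.e (nat_lit 196635) (nat_lit 9) .nil)))))))) (.g (nat_lit 7) .nil .nil))) 
(.lf (nat_lit 22192) (.g (nat_lit 3308) (.e (nat_lit 1183) (nat_lit 87) (.e (nat_lit 57466) (nat_lit 23) (.e (nat_lit 516129) (nat_lit 3) (.e (nat_lit 221215) (nat_lit 23) (.e (nat_lit 204880) (nat_lit 32) (.e (nat_lit 385066) (nat_lit 26) (.e (nat_lit 532504) (nat_lit 1) (.e (nat_lit 57830) (nat_lit 250) .nil)))))))) (.g (nat_lit 6) .nil .nil))))) (.nd (nat_lit 4) (.nd (nat_lit 5) 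
(.lf (nat_lit 22152) (.g (nat_lit 4643) (.e (nat_lit 1182) (nat_lit 87) (.e (nat_lit 57930) (nat_lit 282) (.e (nat_lit 163867) (nat_lit 2) (.e (nat_lit 196670) (nat_lit 14) (.e (nat_lit 73746) (nat_lit 3) (.e (nat_lit 516131) (nat_lit 3) (.e (nat_lit 221212) (nat_lit 22) (.e (nat_lit 196635) (nat_lit 9) .nil)))))))) (.g (nat_lit 8) .nil .nil))) 
(.lf (nat_lit 22184) (.g (nat_lit 4305) (.e (nat_lit 1183) (nat_lit 87) (.e (nat_lit 57466) (nat_lit 23) (.e (nat_lit 516129) (nat_lit 3) (.e (nat_lit 221210) (nat_lit 22) (.e (nat_lit 196668) (nat_lit 14) (.e (nat_lit 73747) (nat_lit 3) (.e (nat_lit 516119) (nat_lit 1) (.e (nat_lit 164155) (nat_lit 152) .nil)))))))) (.g (nat_lit 7) .nil .nil)))) (.nd (nat_lit 5) 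
(.lf (nat_lit 22168) (.g (nat_lit 2306) (.e (nat_lit 1183) (nat_lit 87) (.e (nat_lit 57463) (nat_lit 23) (.e (nat_lit 516130) (nat_lit 3) (.e (nat_lit 221215) (nat_lit 23) (.e (nat_lit 204852) (nat_lit 26) (.e (nat_lit 336326) (nat_lit 18) (.e (nat_lit 204831) (nat_lit 18) (.e (nat_lit 57830) (nat_lit 250) .nil)))))))) (.g (nat_lit 5) .nil .nil))) 
(.lf (nat_lit 22200) (.g (nat_lit 3683) (.e (nat_lit 1183) (nat_lit 87) (.e (nat_lit 57466) (nat_lit 23) (.e (nat_lit 516131) (nat_lit 3) (.e (nat_lit 221212) (nat_lit 22) (.e (nat_lit 196668) (nat_lit 14) (.e (nat_lit 73747) (nat_lit 3) (.e (nat_lit 516117) (nat_lit 1) (.e (nat_lit 164159) (nat_lit 152) .nil)))))))) (.g (nat_lit 8) .nil .nil)))))) 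
(.nd (nat_lit 3) (.nd (nat_lit 4) (.nd (nat_lit 5) 
(.lf (nat_lit 22148) (.g (nat_lit 2083) (.e (nat_lit 1182) (nat_lit 87) (.e (nat_lit 57929) (nat_lit 282) (.e (nat_lit 163869) (nat_lit 2) (.e (nat_lit 196670) (nat_lit 14) (.e (nat_lit 73746) (nat_lit 3) (.e (nat_lit 516129) (nat_lit 3) (.e (nat_lit 221210) (nat_lit 22) (.e (nat_lit 196635) (nat_lit 9) .nil)))))))) (.g (nat_lit 4) .nil .nil))) 
(.lf (nat_lit 22180) (.g (nat_lit 4524) (.e (nat_lit 1183) (nat_lit 87) (.e (nat_lit 57466) (nat_lit 23) (.e (nat_lit 516129) (nat_lit 3) (.e (nat_lit 221210) (nat_lit 22) (.e (nat_lit 196666) (nat_lit 13) (.e (nat_lit 65569) (nat_lit 3) (.e (nat_lit 98334) (nat_lit 18) (.e (nat_lit 164159) (nat_lit 152) .nil)))))))) (.g (nat_lit 7) .nil .nil)))) (.nd (nat_lit 5) 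
(.lf (nat_lit 22164) (.g (nat_lit 3793) (.e (nat_lit 1182) (nat_lit 87) (.e (nat_lit 57931) (nat_lit 282) (.e (nat_lit 163869) (nat_lit 2) (.e (nat_lit 196670) (nat_lit 14) (.e (nat_lit 73746) (nat_lit 3) (.e (nat_lit 516131) (nat_lit 3) (.e (nat_lit 221212) (nat_lit 22) (.e (nat_lit 196617) (nat_lit 9) .nil)))))))) (.g (nat_lit 6) .nil .nil))) 
(.lf (nat_lit 22196) (.g (nat_lit 3941) (.e (nat_lit 1183) (nat_lit 87) (.e (nat_lit 57466) (nat_lit 23) (.e (nat_lit 516131) (nat_lit 3) (.e (nat_lit 221212) (nat_lit 22) (.e (nat_lit 196665) (nat_lit 13) (.e (nat_lit 65637) (nat_lit 15) (.e (nat_lit 3253) (nat_lit 197) (.e (nat_lit 532504) (nat_lit 1) (.e (nat_lit 57829) (nat_lit 250) .nil))))))))) (.g (nat_lit 0) .nil .nil))))) 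
(.nd (nat_lit 4) (.nd (nat_lit 5) 
(.lf (nat_lit 22156) (.g (nat_lit 1957) (.e (nat_lit 1182) (nat_lit 87) (.e (nat_lit 57930) (nat_lit 282) (.e (nat_lit 163873) (nat_lit 3) (.e (nat_lit 204872) (nat_lit 30) (.e (nat_lit 368676) (nat_lit 21) (.e (nat_lit 516131) (nat_lit 3) (.e (nat_lit 221212) (nat_lit 22) (.e (nat_lit 196635) (nat_lit 9) .nil)))))))) (.g (nat_lit 4) .nil .nil))) 
(.lf (nat_lit 22188) (.g (nat_lit 4797) (.e (nat_lit 1183) (nat_lit 87) (.e (nat_lit 57466) (nat_lit 23) (.e (nat_lit 516129) (nat_lit 3) (.e (nat_lit 221214) (nat_lit 23) (.e (nat_lit 204852) (nat_lit 26) (.e (nat_lit 336324) (nat_lit 18) (.e (nat_lit 204831) (nat_lit 18) (.e (nat_lit 57830) (nat_lit 250) .nil)))))))) (.g (nat_lit 7) .nil .nil)))) (.nd (nat_lit 5) 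
(.lf (nat_lit 22172) (.g (nat_lit 2015) (.e (nat_lit 1183) (nat_lit 87) (.e (nat_lit 57465) (nat_lit 23) (.e (nat_lit 516129) (nat_lit 3) (.e (nat_lit 221210) (nat_lit 22) (.e (nat_lit 196665) (nat_lit 13) (.e (nat_lit 65637) (nat_lit 15) (.e (nat_lit 3253) (nat_lit 197) (.e (nat_lit 532504) (nat_lit 1) (.e (nat_lit 57830) (nat_lit 250) .nil))))))))) (.g (nat_lit 4) .nil .nil))) 
(.lf (nat_lit 22204) (.g (nat_lit 4264) (.e (nat_lit 1183) (nat_lit 87) (.e (nat_lit 57466) (nat_lit 23) (.e (nat_lit 516131) (nat_lit 3) (.e (nat_lit 221215) (nat_lit 23) (.e (nat_lit 204852) (nat_lit 26) (.e (nat_lit 336326) (nat_lit 18) (.e (nat_lit 204831) (nat_lit 18) (.e (nat_lit 57830) (nat_lit 250) .nil)))))))) (.g (nat_lit 0) .nil .nil))))))) 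
(.nd (nat_lit 2) (.nd (nat_lit 3) (.nd (nat_lit 4) (.nd (nat_lit 5) 
(.lf (nat_lit 22146) (.g (nat_lit 3150) (.e (nat_lit 1182) (nat_lit 87) (.e (nat_lit 57924) (nat_lit 282) (.e (nat_lit 163867) (nat_lit 2) (.e (nat_lit 196670) (nat_lit 14) (.e (nat_lit 73746) (nat_lit 3) (.e (nat_lit 516131) (nat_lit 3) (.e (nat_lit 221212) (nat_lit 22) (.e (nat_lit 196617) (nat_lit 9) .nil)))))))) (.g (nat_lit 6) .nil .nil))) 
(.lf (nat_lit 22178) (.g (nat_lit 4290) (.e (nat_lit 1183) (nat_lit 87) (.e (nat_lit 57466) (nat_lit 23) (.e (nat_lit 516129) (nat_lit 3) (.e (nat_lit 221210) (nat_lit 22) (.e (nat_lit 196665) (nat_lit 13) (.e (nat_lit 65637) (nat_lit 15) (.e (nat_lit 3253) (nat_lit 197) (.e (nat_lit 532501) (nat_lit 1) (.e (nat_lit 57829) (nat_lit 250) .nil))))))))) (.g (nat_lit 8) .nil .nil)))) (.nd (nat_lit 5) 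
(.lf (nat_lit 22162) (.g (nat_lit 3281) (.e (nat_lit 1182) (nat_lit 87) (.e (nat_lit 57931) (nat_lit 282) (.e (nat_lit 163869) (nat_lit 2) (.e (nat_lit 196670) (nat_lit 14) (.e (nat_lit 73746) (nat_lit 3) (.e (nat_lit 516129) (nat_lit 3) (.e (nat_lit 221210) (nat_lit 22) (.e (nat_lit 196617) (nat_lit 9) .nil)))))))) (.g (nat_lit 5) .nil .nil))) 
(.lf (nat_lit 22194) (.g (nat_lit 3151) (.e (nat_lit 1183) (nat_lit 87) (.e (nat_lit 57466) (nat_lit 23) (.e (nat_lit 516131) (nat_lit 3) (.e (nat_lit 221211) (nat_lit 22) (.e (nat_lit 196666) (nat_lit 13) (.e (nat_lit 65571) (nat_lit 3) (.e (nat_lit 98334) (nat_lit 18) (.e (nat_lit 164159) (nat_lit 152) .nil)))))))) (.g (nat_lit 6) .nil .nil))))) (.nd (nat_lit 4) (.nd (nat_lit 5) 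
(.lf (nat_lit 22154) (.g (nat_lit 3194) (.e (nat_lit 1182) (nat_lit 87) (.e (nat_lit 57930) (nat_lit 282) (.e (nat_lit 163869) (nat_lit 2) (.e (nat_lit 196670) (nat_lit 14) (.e (nat_lit 73746) (nat_lit 3) (.e (nat_lit 516131) (nat_lit 3) (.e (nat_lit 221212) (nat_lit 22) (.e (nat_lit 196617) (nat_lit 9) .nil)))))))) (.g (nat_lit 6) .nil .nil))) 
(.lf (nat_lit 22186) (.g (nat_lit 4348) (.e (nat_lit 1183) (nat_lit 87) (.e (nat_lit 57466) (nat_lit 23) (.e (nat_lit 516129) (nat_lit 3) (.e (nat_lit 221210) (nat_lit 22) (.e (nat_lit 196670) (nat_lit 14) (.e (nat_lit 73746) (nat_lit 3) (.e (nat_lit 516117) (nat_lit 1) (.e (nat_lit 164159) (nat_lit 152) .nil)))))))) (.g (nat_lit 7) .nil .nil)))) (.nd (nat_lit 5) 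
(.lf (nat_lit 22170) (.g (nat_lit 2368) (.e (nat_lit 1183) (nat_lit 87) (.e (nat_lit 57465) (nat_lit 23) (.e (nat_lit 516129) (nat_lit 3) (.e (nat_lit 221210) (nat_lit 22) (.e (nat_lit 196665) (nat_lit 13) (.e (nat_lit 65637) (nat_lit 15) (.e (nat_lit 3253) (nat_lit 197) (.e (nat_lit 532501) (nat_lit 1) (.e (nat_lit 57830) (nat_lit 250) .nil))))))))) (.g (nat_lit 5) .nil .nil))) 
(.lf (nat_lit 22202) (.g (nat_lit 4035) (.e (nat_lit 1183) (nat_lit 87) (.e (nat_lit 57466) (nat_lit 23) (.e (nat_lit 516131) (nat_lit 3) (.e (nat_lit 221212) (nat_lit 22) (.e (nat_lit 196670) (nat_lit 14) (.e (nat_lit 73746) (nat_lit 3) (.e (nat_lit 516120) (nat_lit 1) (.e (nat_lit 164159) (nat_lit 152) .nil)))))))) (.g (nat_lit 8) .nil .nil)))))) 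
(.nd (nat_lit 3) (.nd (nat_lit 4) (.nd (nat_lit 5) 
(.lf (nat_lit 22150) (.g (nat_lit 2694) (.e (nat_lit 1182) (nat_lit 87) (.e (nat_lit 57930) (nat_lit 282) (.e (nat_lit 163867) (nat_lit 2) (.e (nat_lit 196670) (nat_lit 14) (.e (nat_lit 73746) (nat_lit 3) (.e (nat_lit 516131) (nat_lit 3) (.e (nat_lit 221211) (nat_lit 22) (.e (nat_lit 196617) (nat_lit 9) .nil)))))))) (.g (nat_lit 5) .nil .nil))) 
(.lf (nat_lit 22182) (.g (nat_lit 4336) (.e (nat_lit 1183) (nat_lit 87) (.e (nat_lit 57466) (nat_lit 23) (.e (nat_lit 516129) (nat_lit 3) (.e (nat_lit 221210) (nat_lit 22) (.e (nat_lit 196668) (nat_lit 14) (.e (nat_lit 73746) (nat_lit 3) (.e (nat_lit 516120) (nat_lit 1) (.e (nat_lit 164159) (nat_lit 152) .nil)))))))) (.g (nat_lit 7) .nil .nil)))) (.nd (nat_lit 5) 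
(.lf (nat_lit 22166) (.g (nat_lit 2440) (.e (nat_lit 1182) (nat_lit 87) (.e (nat_lit 57931) (nat_lit 282) (.e (nat_lit 163874) (nat_lit 3) (.e (nat_lit 204872) (nat_lit 30) (.e (nat_lit 368676) (nat_lit 21) (.e (nat_lit 516131) (nat_lit 3) (.e (nat_lit 221212) (nat_lit 22) (.e (nat_lit 196617) (nat_lit 9) .nil)))))))) (.g (nat_lit 5) .nil .nil))) 
(.lf (nat_lit 22198) (.g (nat_lit 3522) (.e (nat_lit 1183) (nat_lit 87) (.e (nat_lit 57466) (nat_lit 23) (.e (nat_lit 516131) (nat_lit 3) (.e (nat_lit 221212) (nat_lit 22) (.e (nat_lit 196668) (nat_lit 14) (.e (nat_lit 73747) (nat_lit 3) (.e (nat_lit 516115) (nat_lit 1) (.e (nat_lit 164155) (nat_lit 152) .nil)))))))) (.g (nat_lit 7) .nil .nil))))) (.nd (nat_lit 4) (.nd (nat_lit 5) 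
(.lf (nat_lit 22158) (.g (nat_lit 2477) (.e (nat_lit 1182) (nat_lit 87) (.e (nat_lit 57931) (nat_lit 282) (.e (nat_lit 163867) (nat_lit 2) (.e (nat_lit 196670) (nat_lit 14) (.e (nat_lit 73746) (nat_lit 3) (.e (nat_lit 516131) (nat_lit 3) (.e (nat_lit 221211) (nat_lit 22) (.e (nat_lit 196617) (nat_lit 9) .nil)))))))) (.g (nat_lit 4) .nil .nil))) 
(.lf (nat_lit 22190) (.g (nat_lit 3625) (.e (nat_lit 1183) (nat_lit 87) (.e (nat_lit 57466) (nat_lit 23) (.e (nat_lit 516129) (nat_lit 3) (.e (nat_lit 221214) (nat_lit 23) (.e (nat_lit 204880) (nat_lit 32) (.e (nat_lit 385066) (nat_lit 26) (.e (nat_lit 532504) (nat_lit 1) (.e (nat_lit 57829) (nat_lit 250) .nil)))))))) (.g (nat_lit 6) .nil .nil)))) (.nd (nat_lit 5) 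
(.lf (nat_lit 22174) (.g (nat_lit 2339) (.e (nat_lit 1183) (nat_lit 87) (.e (nat_lit 57465) (nat_lit 23) (.e (nat_lit 516129) (nat_lit 3) (.e (nat_lit 221214) (nat_lit 23) (.e (nat_lit 204880) (nat_lit 32) (.e (nat_lit 385066) (nat_lit 26) (.e (nat_lit 532504) (nat_lit 1) (.e (nat_lit 57830) (nat_lit 250) .nil)))))))) (.g (nat_lit 4) .nil .nil))) 
(.lf (nat_lit 22206) (.g (nat_lit 4716) (.e (nat_lit 1183) (nat_lit 87) (.e (nat_lit 57466) (nat_lit 23) (.e (nat_lit 516131) (nat_lit 3) (.e (nat_lit 221215) (nat_lit 23) (.e (nat_lit 204880) (nat_lit 32) (.e (nat_lit 385068) (nat_lit 26) (.e (nat_lit 532501) (nat_lit 1) (.e (nat_lit 57829) (nat_lit 250) .nil)))))))) (.g (nat_lit 7) .nil .nil)))))))) 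
(.nd (nat_lit 1) (.nd (nat_lit 2) (.nd (nat_lit 3) (.nd (nat_lit 4) (.nd (nat_lit 5) 
(.lf (nat_lit 22145) (.g (nat_lit 1476) (.e (nat_lit 1182) (nat_lit 87) (.e (nat_lit 57854) (nat_lit 252) (.e (nat_lit 57447) (nat_lit 19) (.e (nat_lit 393229) (nat_lit 9) .nil)))) .nil)) 
(.lf (nat_lit 22177) (.g (nat_lit 2345) (.e (nat_lit 1183) (nat_lit 87) (.e (nat_lit 57466) (nat_lit 23) (.e (nat_lit 516129) (nat_lit 3) (.e (nat_lit 221210) (nat_lit 22) (.e (nat_lit 196664) (nat_lit 13) (.e (nat_lit 73472) (nat_lit 18) (.e (nat_lit 204831) (nat_lit 18) (.e (nat_lit 57830) (nat_lit 250) .nil)))))))) (.g (nat_lit 5) .nil .nil)))) (.nd (nat_lit 5) 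
(.lf (nat_lit 22161) (.g (nat_lit 2345) (.e (nat_lit 1182) (nat_lit 87) (.e (nat_lit 57931) (nat_lit 282) (.e (nat_lit 163869) (nat_lit 2) (.e (nat_lit 196670) (nat_lit 14) (.e (nat_lit 73746) (nat_lit 3) .nil))))) .nil)) 
(.lf (nat_lit 22193) (.g (nat_lit 3775) (.e (nat_lit 1183) (nat_lit 87) (.e (nat_lit 57466) (nat_lit 23) (.e (nat_lit 516131) (nat_lit 3) (.e (nat_lit 221211) (nat_lit 22) (.e (nat_lit 196666) (nat_lit 13) (.e (nat_lit 65569) (nat_lit 3) (.e (nat_lit 98334) (nat_lit 18) (.e (nat_lit 164159) (nat_lit 152) .nil)))))))) (.g (nat_lit 7) .nil .nil))))) (.nd (nat_lit 4) (.nd (nat_lit 5) 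
(.lf (nat_lit 22153) (.g (nat_lit 2155) (.e (nat_lit 1182) (nat_lit 87) (.e (nat_lit 57930) (nat_lit 282) (.e (nat_lit 163867) (nat_lit 2) (.e (nat_lit 196670) (nat_lit 14) (.e (nat_lit 73748) (nat_lit 3) .nil))))) .nil)) 
(.lf (nat_lit 22185) (.g (nat_lit 4257) (.e (nat_lit 1183) (nat_lit 87) (.e (nat_lit 57466) (nat_lit 23) (.e (nat_lit 516129) (nat_lit 3) (.e (nat_lit 221210) (nat_lit 22) (.e (nat_lit 196668) (nat_lit 14) (.e (nat_lit 73747) (nat_lit 3) (.e (nat_lit 516120) (nat_lit 1) (.e (nat_lit 164159) (nat_lit 152) .nil)))))))) (.g (nat_lit 7) .nil .nil)))) (.nd (nat_lit 5) 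
(.lf (nat_lit 22169) (.g (nat_lit 2196) (.e (nat_lit 1183) (nat_lit 87) (.e (nat_lit 57465) (nat_lit 23) (.e (nat_lit 516129) (nat_lit 3) (.e (nat_lit 221210) (nat_lit 22) (.e (nat_lit 196665) (nat_lit 13) (.e (nat_lit 65637) (nat_lit 15) (.e (nat_lit 3253) (nat_lit 197) (.e (nat_lit 532501) (nat_lit 1) (.e (nat_lit 57829) (nat_lit 250) .nil))))))))) (.g (nat_lit 4) .nil .nil))) 
(.lf (nat_lit 22201) (.g (nat_lit 3432) (.e (nat_lit 1183) (nat_lit 87) (.e (nat_lit 57466) (nat_lit 23) (.e (nat_lit 516131) (nat_lit 3) (.e (nat_lit 221212) (nat_lit 22) (.e (nat_lit 196670) (nat_lit 14) (.e (nat_lit 73746) (nat_lit 3) (.e (nat_lit 516115) (nat_lit 1) (.e (nat_lit 164155) (nat_lit 152) .nil)))))))) (.g (nat_lit 7) .nil .nil)))))) 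
(.nd (nat_lit 3) (.nd (nat_lit 4) (.nd (nat_lit 5) 
(.lf (nat_lit 22149) (.g (nat_lit 2963) (.e (nat_lit 1182) (nat_lit 87) (.e (nat_lit 57930) (nat_lit 282) (.e (nat_lit 163867) (nat_lit 2) (.e (nat_lit 196670) (nat_lit 14) (.e (nat_lit 73746) (nat_lit 3) (.e (nat_lit 516129) (nat_lit 3) (.e (nat_lit 221210) (nat_lit 22) (.e (nat_lit 196617) (nat_lit 9) .nil)))))))) (.g (nat_lit 5) .nil .nil))) 
(.lf (nat_lit 22181) (.g (nat_lit 4269) (.e (nat_lit 1183) (nat_lit 87) (.e (nat_lit 57466) (nat_lit 23) (.e (nat_lit 516129) (nat_lit 3) (.e (nat_lit 221210) (nat_lit 22) (.e (nat_lit 196668) (nat_lit 14) (.e (nat_lit 73746) (nat_lit 3) (.e (nat_lit 516117) (nat_lit 1) (.e (nat_lit 164159) (nat_lit 152) .nil)))))))) (.g (nat_lit 7) .nil .nil)))) (.nd (nat_lit 5) 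
(.lf (nat_lit 22165) (.g (nat_lit 4687) (.e (nat_lit 1182) (nat_lit 87) (.e (nat_lit 57931) (nat_lit 282) (.e (nat_lit 163869) (nat_lit 2) (.e (nat_lit 196670) (nat_lit 14) (.e (nat_lit 73746) (nat_lit 3) (.e (nat_lit 516131) (nat_lit 3) (.e (nat_lit 221212) (nat_lit 22) (.e (nat_lit 196635) (nat_lit 9) .nil)))))))) (.g (nat_lit 7) .nil .nil))) 
(.lf (nat_lit 22197) (.g (nat_lit 3570) (.e (nat_lit 1183) (nat_lit 87) (.e (nat_lit 57466) (nat_lit 23) (.e (nat_lit 516131) (nat_lit 3) (.e (nat_lit 221212) (nat_lit 22) (.e (nat_lit 196665) (nat_lit 13) (.e (nat_lit 65637) (nat_lit 15) (.e (nat_lit 3253) (nat_lit 197) (.e (nat_lit 532504) (nat_lit 1) (.e (nat_lit 57830) (nat_lit 250) .nil))))))))) (.g (nat_lit 8) .nil .nil))))) 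
(.nd (nat_lit 4) (.nd (nat_lit 5) 
(.lf (nat_lit 22157) (.g (nat_lit 3171) (.e (nat_lit 1182) (nat_lit 87) (.e (nat_lit 57931) (nat_lit 282) (.e (nat_lit 163867) (nat_lit 2) (.e (nat_lit 196670) (nat_lit 14) (.e (nat_lit 73746) (nat_lit 3) (.e (nat_lit 516129) (nat_lit 3) (.e (nat_lit 221210) (nat_lit 22) (.e (nat_lit 196635) (nat_lit 9) .nil)))))))) (.g (nat_lit 5) .nil .nil))) 
(.lf (nat_lit 22189) (.g (nat_lit 3994) (.e (nat_lit 1183) (nat_lit 87) (.e (nat_lit 57466) (nat_lit 23) (.e (nat_lit 516129) (nat_lit 3) (.e (nat_lit 221214) (nat_lit 23) (.e (nat_lit 204880) (nat_lit 32) (.e (nat_lit 385066) (nat_lit 26) (.e (nat_lit 532501) (nat_lit 1) (.e (nat_lit 57830) (nat_lit 250) .nil)))))))) (.g (nat_lit 7) .nil .nil)))) (.nd (nat_lit 5) 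
(.lf (nat_lit 22173) (.g (nat_lit 3044) (.e (nat_lit 1183) (nat_lit 87) (.e (nat_lit 57465) (nat_lit 23) (.e (nat_lit 516129) (nat_lit 3) (.e (nat_lit 221210) (nat_lit 22) (.e (nat_lit 196666) (nat_lit 13) (.e (nat_lit 65569) (nat_lit 3) (.e (nat_lit 98334) (nat_lit 18) (.e (nat_lit 164159) (nat_lit 152) .nil)))))))) (.g (nat_lit 5) .nil .nil))) 
(.lf (nat_lit 22205) (.g (nat_lit 3674) (.e (nat_lit 1183) (nat_lit 87) (.e (nat_lit 57466) (nat_lit 23) (.e (nat_lit 516131) (nat_lit 3) (.e (nat_lit 221215) (nat_lit 23) (.e (nat_lit 204880) (nat_lit 32) (.e (nat_lit 385066) (nat_lit 26) (.e (nat_lit 532501) (nat_lit 1) (.e (nat_lit 57830) (nat_lit 250) .nil)))))))) (.g (nat_lit 7) .nil .nil))))))) 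
(.nd (nat_lit 2) (.nd (nat_lit 3) (.nd (nat_lit 4) (.nd (nat_lit 5) 
(.lf (nat_lit 22147) (.g (nat_lit 4270) (.e (nat_lit 1182) (nat_lit 87) (.e (nat_lit 57924) (nat_lit 282) (.e (nat_lit 163867) (nat_lit 2) (.e (nat_lit 196670) (nat_lit 14) (.e (nat_lit 73746) (nat_lit 3) (.e (nat_lit 516131) (nat_lit 3) (.e (nat_lit 221212) (nat_lit 22) (.e (nat_lit 196635) (nat_lit 9) .nil)))))))) (.g (nat_lit 8) .nil .nil))) 
(.lf (nat_lit 22179) (.g (nat_lit 4408) (.e (nat_lit 1183) (nat_lit 87) (.e (nat_lit 57466) (nat_lit 23) (.e (nat_lit 516129) (nat_lit 3) (.e (nat_lit 221210) (nat_lit 22) (.e (nat_lit 196665) (nat_lit 13) (.e (nat_lit 65637) (nat_lit 15) (.e (nat_lit 3253) (nat_lit 197) (.e (nat_lit 532504) (nat_lit 1) (.e (nat_lit 57829) (nat_lit 250) .nil))))))))) (.g (nat_lit 8) .nil .nil)))) (.nd (nat_lit 5) 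
(.lf (nat_lit 22163) (.g (nat_lit 2994) (.e (nat_lit 1182) (nat_lit 87) (.e (nat_lit 57931) (nat_lit 282) (.e (nat_lit 163869) (nat_lit 2) (.e (nat_lit 196670) (nat_lit 14) (.e (nat_lit 73746) (nat_lit 3) (.e (nat_lit 516131) (nat_lit 3) (.e (nat_lit 221211) (nat_lit 22) (.e (nat_lit 196617) (nat_lit 9) .nil)))))))) (.g (nat_lit 5) .nil .nil))) 
(.lf (nat_lit 22195) (.g (nat_lit 3823) (.e (nat_lit 1183) (nat_lit 87) (.e (nat_lit 57466) (nat_lit 23) (.e (nat_lit 516131) (nat_lit 3) (.e (nat_lit 221212) (nat_lit 22) (.e (nat_lit 196665) (nat_lit 13) (.e (nat_lit 65637) (nat_lit 15) (.e (nat_lit 3253) (nat_lit 197) (.e (nat_lit 532501) (nat_lit 1) (.e (nat_lit 57829) (nat_lit 250) .nil))))))))) (.g (nat_lit 0) .nil .nil))))) 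
(.nd (nat_lit 4) (.nd (nat_lit 5) 
(.lf (nat_lit 22155) (.g (nat_lit 4343) (.e (nat_lit 1182) (nat_lit 87) (.e (nat_lit 57930) (nat_lit 282) (.e (nat_lit 163869) (nat_lit 2) (.e (nat_lit 196670) (nat_lit 14) (.e (nat_lit 73746) (nat_lit 3) (.e (nat_lit 516131) (nat_lit 3) (.e (nat_lit 221212) (nat_lit 22) (.e (nat_lit 196635) (nat_lit 9) .nil)))))))) (.g (nat_lit 8) .nil .nil))) 
(.lf (nat_lit 22187) (.g (nat_lit 4338) (.e (nat_lit 1183) (nat_lit 87) (.e (nat_lit 57466) (nat_lit 23) (.e (nat_lit 516129) (nat_lit 3) (.e (nat_lit 221210) (nat_lit 22) (.e (nat_lit 196670) (nat_lit 14) (.e (nat_lit 73746) (nat_lit 3) (.e (nat_lit 516120) (nat_lit 1) (.e (nat_lit 164159) (nat_lit 152) .nil)))))))) (.g (nat_lit 7) .nil .nil)))) (.nd (nat_lit 5) 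
(.lf (nat_lit 22171) (.g (nat_lit 2322) (.e (nat_lit 1183) (nat_lit 87) (.e (nat_lit 57465) (nat_lit 23) (.e (nat_lit 516129) (nat_lit 3) (.e (nat_lit 221210) (nat_lit 22) (.e (nat_lit 196665) (nat_lit 13) (.e (nat_lit 65637) (nat_lit 15) (.e (nat_lit 3253) (nat_lit 197) (.e (nat_lit 532504) (nat_lit 1) (.e (nat_lit 57829) (nat_lit 250) .nil))))))))) (.g (nat_lit 5) .nil .nil))) 
(.lf (nat_lit 22203) (.g (nat_lit 4804) (.e (nat_lit 1183) (nat_lit 87) (.e (nat_lit 57466) (nat_lit 23) (.e (nat_lit 516131) (nat_lit 3) (.e (nat_lit 221215) (nat_lit 23) (.e (nat_lit 204852) (nat_lit 26) (.e (nat_lit 336324) (nat_lit 18) (.e (nat_lit 204831) (nat_lit 18) (.e (nat_lit 57830) (nat_lit 250) .nil)))))))) (.g (nat_lit 7) .nil .nil)))))) 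
(.nd (nat_lit 3) (.nd (nat_lit 4) (.nd (nat_lit 5) 
(.lf (nat_lit 22151) (.g (nat_lit 3493) (.e (nat_lit 1182) (nat_lit 87) (.e (nat_lit 57930) (nat_lit 282) (.e (nat_lit 163867) (nat_lit 2) (.e (nat_lit 196670) (nat_lit 14) (.e (nat_lit 73746) (nat_lit 3) (.e (nat_lit 516131) (nat_lit 3) (.e (nat_lit 221212) (nat_lit 22) (.e (nat_lit 196617) (nat_lit 9) .nil)))))))) (.g (nat_lit 6) .nil .nil))) 
(.lf (nat_lit 22183) (.g (nat_lit 4374) (.e (nat_lit 1183) (nat_lit 87) (.e (nat_lit 57466) (nat_lit 23) (.e (nat_lit 516129) (nat_lit 3) (.e (nat_lit 221210) (nat_lit 22) (.e (nat_lit 196668) (nat_lit 14) (.e (nat_lit 73747) (nat_lit 3) (.e (nat_lit 516115) (nat_lit 1) (.e (nat_lit 164155) (nat_lit 152) .nil)))))))) (.g (nat_lit 7) .nil .nil)))) (.nd (nat_lit 5) 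
(.lf (nat_lit 22167) (.g (nat_lit 528) (.e (nat_lit 1182) (nat_lit 87) (.e (nat_lit 57931) (nat_lit 282) (.e (nat_lit 171776) (nat_lit 79) .nil))) .nil)) 
(.lf (nat_lit 22199) (.g (nat_lit 1908) (.e (nat_lit 1183) (nat_lit 87) (.e (nat_lit 57466) (nat_lit 23) (.e (nat_lit 516131) (nat_lit 3) (.e (nat_lit 221212) (nat_lit 22) (.e (nat_lit 196668) (nat_lit 14) (.e (nat_lit 73747) (nat_lit 3) (.e (nat_lit 516115) (nat_lit 1) (.e (nat_lit 171776) (nat_lit 152) .nil)))))))) (.g (nat_lit 5) .nil .nil))))) (.nd (nat_lit 4) (.nd (nat_lit 5) 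
(.lf (nat_lit 22159) (.g (nat_lit 3276) (.e (nat_lit 1182) (nat_lit 87) (.e (nat_lit 57931) (nat_lit 282) (.e (nat_lit 163867) (nat_lit 2) (.e (nat_lit 196670) (nat_lit 14) (.e (nat_lit 73746) (nat_lit 3) (.e (nat_lit 516131) (nat_lit 3) (.e (nat_lit 221212) (nat_lit 22) (.e (nat_lit 196617) (nat_lit 9) .nil)))))))) (.g (nat_lit 5) .nil .nil))) 
(.lf (nat_lit 22191) (.g (nat_lit 4106) (.e (nat_lit 1183) (nat_lit 87) (.e (nat_lit 57466) (nat_lit 23) (.e (nat_lit 516129) (nat_lit 3) (.e (nat_lit 221214) (nat_lit 23) (.e (nat_lit 204880) (nat_lit 32) (.e (nat_lit 385066) (nat_lit 26) (.e (nat_lit 532504) (nat_lit 1) (.e (nat_lit 57830) (nat_lit 250) .nil)))))))) (.g (nat_lit 7) .nil .nil)))) (.nd (nat_lit 5) 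
(.lf (nat_lit 22175) (.g (nat_lit 2254) (.e (nat_lit 1183) (nat_lit 87) (.e (nat_lit 57466) (nat_lit 23) (.e (nat_lit 516129) (nat_lit 3) (.e (nat_lit 221210) (nat_lit 22) (.e (nat_lit 196663) (nat_lit 13) (.e (nat_lit 73472) (nat_lit 18) (.e (nat_lit 204830) (nat_lit 18) (.e (nat_lit 57830) (nat_lit 250) .nil)))))))) (.g (nat_lit 5) .nil .nil))) 
(.lf (nat_lit 22207) (.g (nat_lit 4591) (.e (nat_lit 1183) (nat_lit 87) (.e (nat_lit 57466) (nat_lit 23) (.e (nat_lit 516131) (nat_lit 3) (.e (nat_lit 221215) (nat_lit 23) (.e (nat_lit 204880) (nat_lit 32) (.e (nat_lit 385068) (nat_lit 26) (.e (nat_lit 532504) (nat_lit 1) (.e (nat_lit 57829) (nat_lit 250) .nil)))))))) (.g (nat_lit 7) .nil .nil)))))))))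

noncomputable def tv314 : DT := (.nd (nat_lit 0) (.nd (nat_lit 1) (.nd (nat_lit 2) (.nd (nat_lit 3) (.nd (nat_lit 4) (.nd (nat_lit 5) 
(.lf (nat_lit 22208) (.g (nat_lit 2453) (.e (nat_lit 1183) (nat_lit 87) (.e (nat_lit 57466) (nat_lit 23) (.e (nat_lit 516146) (nat_lit 9) (.e (nat_lit 426131) (nat_lit 3) (.e (nat_lit 204838) (nat_lit 20) (.e (nat_lit 114718) (nat_lit 23) (.e (nat_lit 98334) (nat_lit 18) (.e (nat_lit 164383) (nat_lit 254) .nil)))))))) (.g (nat_lit 4) .nil .nil))) 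
(.lf (nat_lit 22240) (.g (nat_lit 2642) (.e (nat_lit 1183) (nat_lit 87) (.e (nat_lit 57478) (nat_lit 28) (.e (nat_lit 557103) (nat_lit 14) (.e (nat_lit 180250) (nat_lit 10) (.e (nat_lit 573480) (nat_lit 13) (.e (nat_lit 65637) (nat_lit 15) (.e (nat_lit 3253) (nat_lit 197) (.e (nat_lit 532504) (nat_lit 1) (.e (nat_lit 57830) (nat_lit 250) .nil))))))))) (.g (nat_lit 4) .nil .nil)))) 
(.nd (nat_lit 5) 
(.lf (nat_lit 22224) (.g (nat_lit 4733) (.e (nat_lit 1183) (nat_lit 87) (.e (nat_lit 57478) (nat_lit 28) (.e (nat_lit 557100) (nat_lit 13) (.e (nat_lit 172106) (nat_lit 10) (.e (nat_lit 434231) (nat_lit 23) (.e (nat_lit 532535) (nat_lit 9) (.e (nat_lit 336030) (nat_lit 4) (.e (nat_lit 123182) (nat_lit 264) .nil)))))))) (.g (nat_lit 6) .nil .nil))) 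
(.lf (nat_lit 22256) (.g (nat_lit 3518) (.e (nat_lit 1183) (nat_lit 87) (.e (nat_lit 57478) (nat_lit 28) (.e (nat_lit 557105) (nat_lit 14) (.e (nat_lit 180252) (nat_lit 10) (.e (nat_lit 573480) (nat_lit 13) (.e (nat_lit 65637) (nat_lit 15) (.e (nat_lit 3253) (nat_lit 197) (.e (nat_lit 532501) (nat_lit 1) (.e (nat_lit 57830) (nat_lit 250) .nil))))))))) (.g (nat_lit 5) .nil .nil))))) 
(.nd (nat_lit 4) (.nd (nat_lit 5) 
(.lf (nat_lit 22216) (.g (nat_lit 3519) (.e (nat_lit 1183) (nat_lit 87) (.e (nat_lit 57478) (nat_lit 28) (.e (nat_lit 557098) (nat_lit 13) (.e (nat_lit 172097) (nat_lit 9) (.e (nat_lit 426125) (nat_lit 2) (.e (nat_lit 196666) (nat_lit 13) (.e (nat_lit 65574) (nat_lit 4) (.e (nat_lit 123184) (nat_lit 264) .nil)))))))) (.g (nat_lit 6) .nil .nil))) 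
(.lf (nat_lit 22248) (.g (nat_lit 3447) (.e (nat_lit 1183) (nat_lit 87) (.e (nat_lit 57478) (nat_lit 28) (.e (nat_lit 557103) (nat_lit 14) (.e (nat_lit 180250) (nat_lit 10) (.e (nat_lit 573482) (nat_lit 13) (.e (nat_lit 65637) (nat_lit 15) (.e (nat_lit 3253) (nat_lit 197) (.e (nat_lit 532501) (nat_lit 1) (.e (nat_lit 57830) (nat_lit 250) .nil))))))))) (.g (nat_lit 5) .nil .nil)))) 
(.nd (nat_lit 5) 
(.lf (nat_lit 22232) (.g (nat_lit 3928) (.e (nat_lit 1183) (nat_lit 87) (.e (nat_lit 57478) (nat_lit 28) (.e (nat_lit 557101) (nat_lit 13) (.e (nat_lit 172115) (nat_lit 10) (.e (nat_lit 434231) (nat_lit 23) (.e (nat_lit 532527) (nat_lit 9) (.e (nat_lit 336032) (nat_lit 4) (.e (nat_lit 123182) (nat_lit 264) .nil)))))))) (.g (nat_lit 6) .nil .nil))) 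
(.lf (nat_lit 22264) (.g (nat_lit 2647) (.e (nat_lit 1183) (nat_lit 87) (.e (nat_lit 57478) (nat_lit 28) (.e (nat_lit 557105) (nat_lit 14) (.e (nat_lit 180252) (nat_lit 10) (.e (nat_lit 573488) (nat_lit 14) (.e (nat_lit 73747) (nat_lit 3) (.e (nat_lit 516119) (nat_lit 1) (.e (nat_lit 164155) (nat_lit 152) .nil)))))))) (.g (nat_lit 4) .nil .nil)))))) 
(.nd (nat_lit 3) (.nd (nat_lit 4) (.nd (nat_lit 5) 
(.lf (nat_lit 22212) (.g (nat_lit 2317) (.e (nat_lit 1183) (nat_lit 87) (.e (nat_lit 57478) (nat_lit 28) (.e (nat_lit 557097) (nat_lit 13) (.e (nat_lit 172097) (nat_lit 9) (.e (nat_lit 426140) (nat_lit 3) (.e (nat_lit 204855) (nat_lit 26) (.e (nat_lit 336030) (nat_lit 4) (.e (nat_lit 123182) (nat_lit 264) .nil)))))))) (.g (nat_lit 4) .nil .nil))) 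
(.lf (nat_lit 22244) (.g (nat_lit 2072) (.e (nat_lit 1183) (nat_lit 87) (.e (nat_lit 57478) (nat_lit 28) (.e (nat_lit 557103) (nat_lit 14) (.e (nat_lit 180250) (nat_lit 10) (.e (nat_lit 573481) (nat_lit 13) (.e (nat_lit 73472) (nat_lit 18) (.e (nat_lit 204830) (nat_lit 18) (.e (nat_lit 57830) (nat_lit 250) .nil)))))))) (.g (nat_lit 4) .nil .nil)))) (.nd (nat_lit 5) 
(.lf (nat_lit 22228) (.g (nat_lit 1878) (.e (nat_lit 1183) (nat_lit 87) (.e (nat_lit 57478) (nat_lit 28) (.e (nat_lit 557101) (nat_lit 13) (.e (nat_lit 172097) (nat_lit 9) (.e (nat_lit 426125) (nat_lit 2) (.e (nat_lit 196666) (nat_lit 13) (.e (nat_lit 65574) (nat_lit 4) (.e (nat_lit 123183) (nat_lit 264) .nil)))))))) (.g (nat_lit 4) .nil .nil))) 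
(.lf (nat_lit 22260) (.g (nat_lit 3903) (.e (nat_lit 1183) (nat_lit 87) (.e (nat_lit 57478) (nat_lit 28) (.e (nat_lit 557105) (nat_lit 14) (.e (nat_lit 180252) (nat_lit 10) (.e (nat_lit 573482) (nat_lit 13) (.e (nat_lit 65637) (nat_lit 15) (.e (nat_lit 3253) (nat_lit 197) (.e (nat_lit 532504) (nat_lit 1) (.e (nat_lit 57829) (nat_lit 250) .nil))))))))) (.g (nat_lit 5) .nil .nil))))) 
(.nd (nat_lit 4) (.nd (nat_lit 5) 
(.lf (nat_lit 22220) (.g (nat_lit 3188) (.e (nat_lit 1183) (nat_lit 87) (.e (nat_lit 57478) (nat_lit 28) (.e (nat_lit 557098) (nat_lit 13) (.e (nat_lit 172115) (nat_lit 10) (.e (nat_lit 434231) (nat_lit 23) (.e (nat_lit 532535) (nat_lit 9) (.e (nat_lit 336030) (nat_lit 4) (.e (nat_lit 123184) (nat_lit 264) .nil)))))))) (.g (nat_lit 5) .nil .nil))) 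
(.lf (nat_lit 22252) (.g (nat_lit 1160) (.e (nat_lit 1183) (nat_lit 87) (.e (nat_lit 57478) (nat_lit 28) (.e (nat_lit 557105) (nat_lit 14) (.e (nat_lit 180252) (nat_lit 10) .nil)))) .nil))) (.nd (nat_lit 5) 
(.lf (nat_lit 22236) (.g (nat_lit 2444) (.e (nat_lit 1183) (nat_lit 87) (.e (nat_lit 57478) (nat_lit 28) (.e (nat_lit 557103) (nat_lit 14) (.e (nat_lit 180243) (nat_lit 5) (.e (nat_lit 532508) (nat_lit 2) .nil))))) .nil)) 
(.lf (nat_lit 22268) (.g (nat_lit 3733) (.e (nat_lit 1183) (nat_lit 87) (.e (nat_lit 57478) (nat_lit 28) (.e (nat_lit 557107) (nat_lit 15) (.e (nat_lit 188447) (nat_lit 22) (.e (nat_lit 196666) (nat_lit 13) (.e (nat_lit 65572) (nat_lit 4) (.e (nat_lit 123185) (nat_lit 264) .nil))))))) (.g (nat_lit 0) .nil .nil))))))) (.nd (nat_lit 2) (.nd (nat_lit 3) (.nd (nat_lit 4) (.nd (nat_lit 5) 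
(.lf (nat_lit 22210) (.g (nat_lit 2203) (.e (nat_lit 1183) (nat_lit 87) (.e (nat_lit 57467) (nat_lit 23) (.e (nat_lit 516129) (nat_lit 3) (.e (nat_lit 221210) (nat_lit 22) (.e (nat_lit 196665) (nat_lit 13) (.e (nat_lit 65637) (nat_lit 15) (.e (nat_lit 3253) (nat_lit 197) (.e (nat_lit 532504) (nat_lit 1) (.e (nat_lit 57829) (nat_lit 250) .nil))))))))) (.g (nat_lit 4) .nil .nil))) 
(.lf (nat_lit 22242) (.g (nat_lit 3357) (.e (nat_lit 1183) (nat_lit 87) (.e (nat_lit 57478) (nat_lit 28) (.e (nat_lit 557103) (nat_lit 14) (.e (nat_lit 180250) (nat_lit 10) (.e (nat_lit 573480) (nat_lit 13) (.e (nat_lit 73472) (nat_lit 18) (.e (nat_lit 204831) (nat_lit 18) (.e (nat_lit 57830) (nat_lit 250) .nil)))))))) (.g (nat_lit 5) .nil .nil)))) (.nd (nat_lit 5) 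
(.lf (nat_lit 22226) (.g (nat_lit 2326) (.e (nat_lit 1183) (nat_lit 87) (.e (nat_lit 57478) (nat_lit 28) (.e (nat_lit 557100) (nat_lit 13) (.e (nat_lit 172106) (nat_lit 10) (.e (nat_lit 434231) (nat_lit 23) (.e (nat_lit 532543) (nat_lit 10) (.e (nat_lit 344104) (nat_lit 18) (.e (nat_lit 5818) (nat_lit 320) .nil)))))))) (.g (nat_lit 4) .nil .nil))) 
(.lf (nat_lit 22258) (.g (nat_lit 3167) (.e (nat_lit 1183) (nat_lit 87) (.e (nat_lit 57478) (nat_lit 28) (.e (nat_lit 557105) (nat_lit 14) (.e (nat_lit 180252) (nat_lit 10) (.e (nat_lit 573480) (nat_lit 13) (.e (nat_lit 65637) (nat_lit 15) (.e (nat_lit 3253) (nat_lit 197) (.e (nat_lit 532504) (nat_lit 1) (.e (nat_lit 57830) (nat_lit 250) .nil))))))))) (.g (nat_lit 5) .nil .nil))))) 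
(.nd (nat_lit 4) (.nd (nat_lit 5) 
(.lf (nat_lit 22218) (.g (nat_lit 2495) (.e (nat_lit 1183) (nat_lit 87) (.e (nat_lit 57478) (nat_lit 28) (.e (nat_lit 557098) (nat_lit 13) (.e (nat_lit 172097) (nat_lit 9) (.e (nat_lit 426140) (nat_lit 3) (.e (nat_lit 204863) (nat_lit 27) (.e (nat_lit 344103) (nat_lit 18) (.e (nat_lit 5818) (nat_lit 320) .nil)))))))) (.g (nat_lit 4) .nil .nil))) 
(.lf (nat_lit 22250) (.g (nat_lit 2427) (.e (nat_lit 1183) (nat_lit 87) (.e (nat_lit 57478) (nat_lit 28) (.e (nat_lit 557105) (nat_lit 14) (.e (nat_lit 180251) (nat_lit 10) (.e (nat_lit 573479) (nat_lit 13) .nil))))) .nil))) (.nd (nat_lit 5) 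
(.lf (nat_lit 22234) (.g (nat_lit 4265) (.e (nat_lit 1183) (nat_lit 87) (.e (nat_lit 57478) (nat_lit 28) (.e (nat_lit 557101) (nat_lit 13) (.e (nat_lit 172115) (nat_lit 10) (.e (nat_lit 434231) (nat_lit 23) (.e (nat_lit 532535) (nat_lit 9) (.e (nat_lit 336030) (nat_lit 4) (.e (nat_lit 123185) (nat_lit 264) .nil)))))))) (.g (nat_lit 0) .nil .nil))) 
(.lf (nat_lit 22266) (.g (nat_lit 2749) (.e (nat_lit 1183) (nat_lit 87) (.e (nat_lit 57478) (nat_lit 28) (.e (nat_lit 557107) (nat_lit 15) (.e (nat_lit 188447) (nat_lit 22) (.e (nat_lit 196663) (nat_lit 13) (.e (nat_lit 65574) (nat_lit 4) (.e (nat_lit 123182) (nat_lit 264) .nil))))))) (.g (nat_lit 4) .nil .nil)))))) (.nd (nat_lit 3) (.nd (nat_lit 4) (.nd (nat_lit 5) 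
(.lf (nat_lit 22214) (.g (nat_lit 4543) (.e (nat_lit 1183) (nat_lit 87) (.e (nat_lit 57478) (nat_lit 28) (.e (nat_lit 557098) (nat_lit 13) (.e (nat_lit 172097) (nat_lit 9) (.e (nat_lit 426125) (nat_lit 2) (.e (nat_lit 196666) (nat_lit 13) (.e (nat_lit 65572) (nat_lit 4) (.e (nat_lit 123185) (nat_lit 264) .nil)))))))) (.g (nat_lit 0) .nil .nil))) 
(.lf (nat_lit 22246) (.g (nat_lit 2181) (.e (nat_lit 1183) (nat_lit 87) (.e (nat_lit 57478) (nat_lit 28) (.e (nat_lit 557103) (nat_lit 14) (.e (nat_lit 180250) (nat_lit 10) (.e (nat_lit 573482) (nat_lit 13) .nil))))) .nil))) (.nd (nat_lit 5) 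
(.lf (nat_lit 22230) (.g (nat_lit 2732) (.e (nat_lit 1183) (nat_lit 87) (.e (nat_lit 57478) (nat_lit 28) (.e (nat_lit 557101) (nat_lit 13) (.e (nat_lit 172097) (nat_lit 9) (.e (nat_lit 426140) (nat_lit 3) (.e (nat_lit 204855) (nat_lit 26) (.e (nat_lit 336030) (nat_lit 4) (.e (nat_lit 123184) (nat_lit 264) .nil)))))))) (.g (nat_lit 5) .nil .nil))) 
(.lf (nat_lit 22262) (.g (nat_lit 3991) (.e (nat_lit 1183) (nat_lit 87) (.e (nat_lit 57478) (nat_lit 28) (.e (nat_lit 557105) (nat_lit 14) (.e (nat_lit 180252) (nat_lit 10) (.e (nat_lit 573482) (nat_lit 13) (.e (nat_lit 73472) (nat_lit 18) (.e (nat_lit 204831) (nat_lit 18) (.e (nat_lit 57830) (nat_lit 250) .nil)))))))) (.g (nat_lit 5) .nil .nil))))) (.nd (nat_lit 4) (.nd (nat_lit 5) 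
(.lf (nat_lit 22222) (.g (nat_lit 3315) (.e (nat_lit 1183) (nat_lit 87) (.e (nat_lit 57478) (nat_lit 28) (.e (nat_lit 557098) (nat_lit 13) (.e (nat_lit 172115) (nat_lit 10) (.e (nat_lit 434231) (nat_lit 23) (.e (nat_lit 532536) (nat_lit 9) (.e (nat_lit 336032) (nat_lit 4) (.e (nat_lit 123182) (nat_lit 264) .nil)))))))) (.g (nat_lit 5) .nil .nil))) 
(.lf (nat_lit 22254) (.g (nat_lit 2974) (.e (nat_lit 1183) (nat_lit 87) (.e (nat_lit 57478) (nat_lit 28) (.e (nat_lit 557105) (nat_lit 14) (.e (nat_lit 180252) (nat_lit 10) (.e (nat_lit 573451) (nat_lit 9) (.e (nat_lit 1626) (nat_lit 114) (.e (nat_lit 385068) (nat_lit 26) (.e (nat_lit 532504) (nat_lit 1) (.e (nat_lit 57829) (nat_lit 250) .nil))))))))) (.g (nat_lit 4) .nil .nil)))) 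
(.nd (nat_lit 5) 
(.lf (nat_lit 22238) (.g (nat_lit 2993) (.e (nat_lit 1183) (nat_lit 87) (.e (nat_lit 57478) (nat_lit 28) (.e (nat_lit 557103) (nat_lit 14) (.e (nat_lit 180250) (nat_lit 10) (.e (nat_lit 573480) (nat_lit 13) (.e (nat_lit 65637) (nat_lit 15) (.e (nat_lit 3253) (nat_lit 197) (.e (nat_lit 532501) (nat_lit 1) (.e (nat_lit 57830) (nat_lit 250) .nil))))))))) (.g (nat_lit 5) .nil .nil))) 
(.lf (nat_lit 22270) (.g (nat_lit 2999) (.e (nat_lit 1183) (nat_lit 87) (.e (nat_lit 57478) (nat_lit 28) (.e (nat_lit 557107) (nat_lit 15) (.e (nat_lit 188447) (nat_lit 22) (.e (nat_lit 196668) (nat_lit 14) (.e (nat_lit 73736) (nat_lit 0) (.e (nat_lit 5818) (nat_lit 320) .nil))))))) (.g (nat_lit 4) .nil .nil)))))))) 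
(.nd (nat_lit 1) (.nd (nat_lit 2) (.nd (nat_lit 3) (.nd (nat_lit 4) (.nd (nat_lit 5) 
(.lf (nat_lit 22209) (.g (nat_lit 2077) (.e (nat_lit 1183) (nat_lit 87) (.e (nat_lit 57467) (nat_lit 23) (.e (nat_lit 516129) (nat_lit 3) (.e (nat_lit 221210) (nat_lit 22) (.e (nat_lit 196665) (nat_lit 13) (.e (nat_lit 65637) (nat_lit 15) (.e (nat_lit 3253) (nat_lit 197) (.e (nat_lit 532501) (nat_lit 1) (.e (nat_lit 57829) (nat_lit 250) .nil))))))))) (.g (nat_lit 4) .nil .nil))) 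
(.lf (nat_lit 22241) (.g (nat_lit 3284) (.e (nat_lit 1183) (nat_lit 87) (.e (nat_lit 57478) (nat_lit 28) (.e (nat_lit 557103) (nat_lit 14) (.e (nat_lit 180250) (nat_lit 10) (.e (nat_lit 573480) (nat_lit 13) (.e (nat_lit 73472) (nat_lit 18) (.e (nat_lit 204830) (nat_lit 18) (.e (nat_lit 57830) (nat_lit 250) .nil)))))))) (.g (nat_lit 5) .nil .nil)))) (.nd (nat_lit 5) 
(.lf (nat_lit 22225) (.g (nat_lit 2378) (.e (nat_lit 1183) (nat_lit 87) (.e (nat_lit 57478) (nat_lit 28) (.e (nat_lit 557100) (nat_lit 13) (.e (nat_lit 172106) (nat_lit 10) (.e (nat_lit 434231) (nat_lit 23) (.e (nat_lit 532543) (nat_lit 10) (.e (nat_lit 344103) (nat_lit 18) (.e (nat_lit 5818) (nat_lit 320) .nil)))))))) (.g (nat_lit 4) .nil .nil))) 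
(.lf (nat_lit 22257) (.g (nat_lit 3802) (.e (nat_lit 1183) (nat_lit 87) (.e (nat_lit 57478) (nat_lit 28) (.e (nat_lit 557105) (nat_lit 14) (.e (nat_lit 180252) (nat_lit 10) (.e (nat_lit 573480) (nat_lit 13) (.e (nat_lit 65637) (nat_lit 15) (.e (nat_lit 3253) (nat_lit 197) (.e (nat_lit 532504) (nat_lit 1) (.e (nat_lit 57829) (nat_lit 250) .nil))))))))) (.g (nat_lit 6) .nil .nil))))) 
(.nd (nat_lit 4) (.nd (nat_lit 5) 
(.lf (nat_lit 22217) (.g (nat_lit 2948) (.e (nat_lit 1183) (nat_lit 87) (.e (nat_lit 57478) (nat_lit 28) (.e (nat_lit 557098) (nat_lit 13) (.e (nat_lit 172097) (nat_lit 9) (.e (nat_lit 426140) (nat_lit 3) (.e (nat_lit 204855) (nat_lit 26) (.e (nat_lit 336030) (nat_lit 4) (.e (nat_lit 123184) (nat_lit 264) .nil)))))))) (.g (nat_lit 5) .nil .nil))) 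
(.lf (nat_lit 22249) (.g (nat_lit 3089) (.e (nat_lit 1183) (nat_lit 87) (.e (nat_lit 57478) (nat_lit 28) (.e (nat_lit 557103) (nat_lit 14) (.e (nat_lit 180250) (nat_lit 10) (.e (nat_lit 573482) (nat_lit 13) (.e (nat_lit 65637) (nat_lit 15) (.e (nat_lit 3253) (nat_lit 197) (.e (nat_lit 532504) (nat_lit 1) (.e (nat_lit 57830) (nat_lit 250) .nil))))))))) (.g (nat_lit 5) .nil .nil)))) 
(.nd (nat_lit 5) 
(.lf (nat_lit 22233) (.g (nat_lit 3017) (.e (nat_lit 1183) (nat_lit 87) (.e (nat_lit 57478) (nat_lit 28) (.e (nat_lit 557101) (nat_lit 13) (.e (nat_lit 172115) (nat_lit 10) (.e (nat_lit 434231) (nat_lit 23) (.e (nat_lit 532535) (nat_lit 9) (.e (nat_lit 336030) (nat_lit 4) (.e (nat_lit 123184) (nat_lit 264) .nil)))))))) (.g (nat_lit 5) .nil .nil))) 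
(.lf (nat_lit 22265) (.g (nat_lit 2692) (.e (nat_lit 1183) (nat_lit 87) (.e (nat_lit 57478) (nat_lit 28) (.e (nat_lit 557105) (nat_lit 14) (.e (nat_lit 180252) (nat_lit 10) (.e (nat_lit 573488) (nat_lit 14) (.e (nat_lit 73747) (nat_lit 3) (.e (nat_lit 516120) (nat_lit 1) (.e (nat_lit 164159) (nat_lit 152) .nil)))))))) (.g (nat_lit 4) .nil .nil)))))) 
(.nd (nat_lit 3) (.nd (nat_lit 4) (.nd (nat_lit 5) 
(.lf (nat_lit 22213) (.g (nat_lit 2031) (.e (nat_lit 1183) (nat_lit 87) (.e (nat_lit 57478) (nat_lit 28) (.e (nat_lit 557098) (nat_lit 13) (.e (nat_lit 172097) (nat_lit 9) (.e (nat_lit 426125) (nat_lit 2) (.e (nat_lit 196666) (nat_lit 13) (.e (nat_lit 65572) (nat_lit 4) (.e (nat_lit 123183) (nat_lit 264) .nil)))))))) (.g (nat_lit 4) .nil .nil))) 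
(.lf (nat_lit 22245) (.g (nat_lit 2195) (.e (nat_lit 1183) (nat_lit 87) (.e (nat_lit 57478) (nat_lit 28) (.e (nat_lit 557103) (nat_lit 14) (.e (nat_lit 180250) (nat_lit 10) (.e (nat_lit 573481) (nat_lit 13) (.e (nat_lit 73472) (nat_lit 18) (.e (nat_lit 204831) (nat_lit 18) (.e (nat_lit 57830) (nat_lit 250) .nil)))))))) (.g (nat_lit 4) .nil .nil)))) (.nd (nat_lit 5) 
(.lf (nat_lit 22229) (.g (nat_lit 3296) (.e (nat_lit 1183) (nat_lit 87) (.e (nat_lit 57478) (nat_lit 28) (.e (nat_lit 557101) (nat_lit 13) (.e (nat_lit 172097) (nat_lit 9) (.e (nat_lit 426125) (nat_lit 2) (.e (nat_lit 196666) (nat_lit 13) (.e (nat_lit 65574) (nat_lit 4) (.e (nat_lit 123184) (nat_lit 264) .nil)))))))) (.g (nat_lit 6) .nil .nil))) 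
(.lf (nat_lit 22261) (.g (nat_lit 3268) (.e (nat_lit 1183) (nat_lit 87) (.e (nat_lit 57478) (nat_lit 28) (.e (nat_lit 557105) (nat_lit 14) (.e (nat_lit 180252) (nat_lit 10) (.e (nat_lit 573482) (nat_lit 13) (.e (nat_lit 65637) (nat_lit 15) (.e (nat_lit 3253) (nat_lit 197) (.e (nat_lit 532504) (nat_lit 1) (.e (nat_lit 57830) (nat_lit 250) .nil))))))))) (.g (nat_lit 4) .nil .nil))))) 
(.nd (nat_lit 4) (.nd (nat_lit 5) 
(.lf (nat_lit 22221) (.g (nat_lit 4431) (.e (nat_lit 1183) (nat_lit 87) (.e (nat_lit 57478) (nat_lit 28) (.e (nat_lit 557098) (nat_lit 13) (.e (nat_lit 172115) (nat_lit 10) (.e (nat_lit 434231) (nat_lit 23) (.e (nat_lit 532535) (nat_lit 9) (.e (nat_lit 336030) (nat_lit 4) (.e (nat_lit 123185) (nat_lit 264) .nil)))))))) (.g (nat_lit 0) .nil .nil))) 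
(.lf (nat_lit 22253) (.g (nat_lit 2448) (.e (nat_lit 1183) (nat_lit 87) (.e (nat_lit 57478) (nat_lit 28) (.e (nat_lit 557105) (nat_lit 14) (.e (nat_lit 180252) (nat_lit 10) (.e (nat_lit 573451) (nat_lit 9) .nil))))) .nil))) (.nd (nat_lit 5) 
(.lf (nat_lit 22237) (.g (nat_lit 3097) (.e (nat_lit 1183) (nat_lit 87) (.e (nat_lit 57478) (nat_lit 28) (.e (nat_lit 557103) (nat_lit 14) (.e (nat_lit 180250) (nat_lit 10) (.e (nat_lit 573480) (nat_lit 13) (.e (nat_lit 65637) (nat_lit 15) (.e (nat_lit 3253) (nat_lit 197) (.e (nat_lit 532501) (nat_lit 1) (.e (nat_lit 57829) (nat_lit 250) .nil))))))))) (.g (nat_lit 5) .nil .nil))) 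
(.lf (nat_lit 22269) (.g (nat_lit 2899) (.e (nat_lit 1183) (nat_lit 87) (.e (nat_lit 57478) (nat_lit 28) (.e (nat_lit 557107) (nat_lit 15) (.e (nat_lit 188447) (nat_lit 22) (.e (nat_lit 196666) (nat_lit 13) (.e (nat_lit 65574) (nat_lit 4) (.e (nat_lit 123184) (nat_lit 264) .nil))))))) (.g (nat_lit 5) .nil .nil))))))) (.nd (nat_lit 2) (.nd (nat_lit 3) (.nd (nat_lit 4) (.nd (nat_lit 5) 
(.lf (nat_lit 22211) (.g (nat_lit 2996) (.e (nat_lit 1183) (nat_lit 87) (.e (nat_lit 57474) (nat_lit 28) (.e (nat_lit 557108) (nat_lit 15) (.e (nat_lit 188452) (nat_lit 23) (.e (nat_lit 204855) (nat_lit 26) .nil))))) .nil)) 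
(.lf (nat_lit 22243) (.g (nat_lit 2083) (.e (nat_lit 1183) (nat_lit 87) (.e (nat_lit 57478) (nat_lit 28) (.e (nat_lit 557103) (nat_lit 14) (.e (nat_lit 180250) (nat_lit 10) (.e (nat_lit 573481) (nat_lit 13) (.e (nat_lit 65637) (nat_lit 15) (.e (nat_lit 3253) (nat_lit 197) (.e (nat_lit 532504) (nat_lit 1) (.e (nat_lit 57829) (nat_lit 250) .nil))))))))) (.g (nat_lit 4) .nil .nil)))) 
(.nd (nat_lit 5) 
(.lf (nat_lit 22227) (.g (nat_lit 4325) (.e (nat_lit 1183) (nat_lit 87) (.e (nat_lit 57478) (nat_lit 28) (.e (nat_lit 557101) (nat_lit 13) (.e (nat_lit 172097) (nat_lit 9) (.e (nat_lit 426125) (nat_lit 2) (.e (nat_lit 196666) (nat_lit 13) (.e (nat_lit 65572) (nat_lit 4) (.e (nat_lit 123185) (nat_lit 264) .nil)))))))) (.g (nat_lit 0) .nil .nil))) 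
(.lf (nat_lit 22259) (.g (nat_lit 2718) (.e (nat_lit 1183) (nat_lit 87) (.e (nat_lit 57478) (nat_lit 28) (.e (nat_lit 557105) (nat_lit 14) (.e (nat_lit 180252) (nat_lit 10) (.e (nat_lit 573481) (nat_lit 13) (.e (nat_lit 65636) (nat_lit 15) (.e (nat_lit 3249) (nat_lit 197) (.e (nat_lit 532504) (nat_lit 1) (.e (nat_lit 57829) (nat_lit 250) .nil))))))))) (.g (nat_lit 4) .nil .nil))))) 
(.nd (nat_lit 4) (.nd (nat_lit 5) 
(.lf (nat_lit 22219) (.g (nat_lit 4067) (.e (nat_lit 1183) (nat_lit 87) (.e (nat_lit 57478) (nat_lit 28) (.e (nat_lit 557098) (nat_lit 13) (.e (nat_lit 172115) (nat_lit 10) (.e (nat_lit 434231) (nat_lit 23) (.e (nat_lit 532527) (nat_lit 9) (.e (nat_lit 336032) (nat_lit 4) (.e (nat_lit 123182) (nat_lit 264) .nil)))))))) (.g (nat_lit 6) .nil .nil))) 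
(.lf (nat_lit 22251) (.g (nat_lit 2973) (.e (nat_lit 1183) (nat_lit 87) (.e (nat_lit 57478) (nat_lit 28) (.e (nat_lit 557105) (nat_lit 14) (.e (nat_lit 180251) (nat_lit 10) (.e (nat_lit 573479) (nat_lit 13) (.e (nat_lit 73472) (nat_lit 18) (.e (nat_lit 204831) (nat_lit 18) (.e (nat_lit 57830) (nat_lit 250) .nil)))))))) (.g (nat_lit 4) .nil .nil)))) (.nd (nat_lit 5) 
(.lf (nat_lit 22235) (.g (nat_lit 3119) (.e (nat_lit 1183) (nat_lit 87) (.e (nat_lit 57478) (nat_lit 28) (.e (nat_lit 557101) (nat_lit 13) (.e (nat_lit 172115) (nat_lit 10) (.e (nat_lit 434231) (nat_lit 23) (.e (nat_lit 532536) (nat_lit 9) (.e (nat_lit 336032) (nat_lit 4) (.e (nat_lit 123182) (nat_lit 264) .nil)))))))) (.g (nat_lit 5) .nil .nil))) 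
(.lf (nat_lit 22267) (.g (nat_lit 2479) (.e (nat_lit 1183) (nat_lit 87) (.e (nat_lit 57478) (nat_lit 28) (.e (nat_lit 557107) (nat_lit 15) (.e (nat_lit 188447) (nat_lit 22) (.e (nat_lit 196666) (nat_lit 13) (.e (nat_lit 65572) (nat_lit 4) (.e (nat_lit 123184) (nat_lit 264) .nil))))))) (.g (nat_lit 4) .nil .nil)))))) (.nd (nat_lit 3) (.nd (nat_lit 4) (.nd (nat_lit 5) 
(.lf (nat_lit 22215) (.g (nat_lit 2101) (.e (nat_lit 1183) (nat_lit 87) (.e (nat_lit 57478) (nat_lit 28) (.e (nat_lit 557098) (nat_lit 13) (.e (nat_lit 172097) (nat_lit 9) (.e (nat_lit 426125) (nat_lit 2) (.e (nat_lit 196666) (nat_lit 13) (.e (nat_lit 65574) (nat_lit 4) (.e (nat_lit 123183) (nat_lit 264) .nil)))))))) (.g (nat_lit 4) .nil .nil))) 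
(.lf (nat_lit 22247) (.g (nat_lit 3551) (.e (nat_lit 1183) (nat_lit 87) (.e (nat_lit 57478) (nat_lit 28) (.e (nat_lit 557103) (nat_lit 14) (.e (nat_lit 180250) (nat_lit 10) (.e (nat_lit 573482) (nat_lit 13) (.e (nat_lit 65637) (nat_lit 15) (.e (nat_lit 3253) (nat_lit 197) (.e (nat_lit 532501) (nat_lit 1) (.e (nat_lit 57829) (nat_lit 250) .nil))))))))) (.g (nat_lit 5) .nil .nil)))) 
(.nd (nat_lit 5) 
(.lf (nat_lit 22231) (.g (nat_lit 2287) (.e (nat_lit 1183) (nat_lit 87) (.e (nat_lit 57478) (nat_lit 28) (.e (nat_lit 557101) (nat_lit 13) (.e (nat_lit 172097) (nat_lit 9) (.e (nat_lit 426140) (nat_lit 3) (.e (nat_lit 204863) (nat_lit 27) (.e (nat_lit 344103) (nat_lit 18) (.e (nat_lit 5818) (nat_lit 320) .nil)))))))) (.g (nat_lit 4) .nil .nil))) 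
(.lf (nat_lit 22263) (.g (nat_lit 2661) (.e (nat_lit 1183) (nat_lit 87) (.e (nat_lit 57478) (nat_lit 28) (.e (nat_lit 557105) (nat_lit 14) (.e (nat_lit 180252) (nat_lit 10) (.e (nat_lit 573488) (nat_lit 14) (.e (nat_lit 73747) (nat_lit 3) (.e (nat_lit 516117) (nat_lit 1) (.e (nat_lit 164159) (nat_lit 152) .nil)))))))) (.g (nat_lit 4) .nil .nil))))) (.nd (nat_lit 4) (.nd (nat_lit 5) 
(.lf (nat_lit 22223) (.g (nat_lit 3756) (.e (nat_lit 1183) (nat_lit 87) (.e (nat_lit 57478) (nat_lit 28) (.e (nat_lit 557100) (nat_lit 13) (.e (nat_lit 172106) (nat_lit 10) (.e (nat_lit 434231) (nat_lit 23) (.e (nat_lit 532527) (nat_lit 9) (.e (nat_lit 336032) (nat_lit 4) (.e (nat_lit 123182) (nat_lit 264) .nil)))))))) (.g (nat_lit 6) .nil .nil))) 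
(.lf (nat_lit 22255) (.g (nat_lit 3674) (.e (nat_lit 1183) (nat_lit 87) (.e (nat_lit 57478) (nat_lit 28) (.e (nat_lit 557105) (nat_lit 14) (.e (nat_lit 180252) (nat_lit 10) (.e (nat_lit 573480) (nat_lit 13) (.e (nat_lit 65637) (nat_lit 15) (.e (nat_lit 3253) (nat_lit 197) (.e (nat_lit 532501) (nat_lit 1) (.e (nat_lit 57829) (nat_lit 250) .nil))))))))) (.g (nat_lit 6) .nil .nil)))) 
(.nd (nat_lit 5) 
(.lf (nat_lit 22239) (.g (nat_lit 3225) (.e (nat_lit 1183) (nat_lit 87) (.e (nat_lit 57478) (nat_lit 28) (.e (nat_lit 557103) (nat_lit 14) (.e (nat_lit 180250) (nat_lit 10) (.e (nat_lit 573480) (nat_lit 13) (.e (nat_lit 65637) (nat_lit 15) (.e (nat_lit 3253) (nat_lit 197) (.e (nat_lit 532504) (nat_lit 1) (.e (nat_lit 57829) (nat_lit 250) .nil))))))))) (.g (nat_lit 5) .nil .nil))) 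
(.lf (nat_lit 22271) (.g (nat_lit 3831) (.e (nat_lit 1183) (nat_lit 87) (.e (nat_lit 57478) (nat_lit 28) (.e (nat_lit 557107) (nat_lit 15) (.e (nat_lit 188447) (nat_lit 22) (.e (nat_lit 196668) (nat_lit 14) (.e (nat_lit 73737) (nat_lit 0) (.e (nat_lit 5818) (nat_lit 320) .nil))))))) (.g (nat_lit 6) .nil .nil)))))))))

noncomputable def tv315 : DT := (.nd (nat_lit 0) (.nd (nat_lit 1) (.nd (nat_lit 2) (.nd (nat_lit 3) (.nd (nat_lit 4) (.nd (nat_lit 5) 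
(.lf (nat_lit 22272) (.g (nat_lit 2466) (.e (nat_lit 1183) (nat_lit 87) (.e (nat_lit 57478) (nat_lit 28) (.e (nat_lit 557107) (nat_lit 15) (.e (nat_lit 188447) (nat_lit 22) (.e (nat_lit 196670) (nat_lit 14) .nil))))) .nil)) 
(.lf (nat_lit 22304) (.g (nat_lit 3561) (.e (nat_lit 1183) (nat_lit 87) (.e (nat_lit 57478) (nat_lit 28) (.e (nat_lit 557109) (nat_lit 15) (.e (nat_lit 188447) (nat_lit 22) (.e (nat_lit 196666) (nat_lit 13) .nil))))) .nil))) (.nd (nat_lit 5) 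
(.lf (nat_lit 22288) (.g (nat_lit 3175) (.e (nat_lit 1183) (nat_lit 87) (.e (nat_lit 57478) (nat_lit 28) (.e (nat_lit 557108) (nat_lit 15) (.e (nat_lit 188452) (nat_lit 23) (.e (nat_lit 204849) (nat_lit 25) (.e (nat_lit 327692) (nat_lit 1) (.e (nat_lit 8433) (nat_lit 138) .nil))))))) (.g (nat_lit 4) .nil .nil))) 
(.lf (nat_lit 22320) (.g (nat_lit 3552) (.e (nat_lit 1183) (nat_lit 87) (.e (nat_lit 57478) (nat_lit 28) (.e (nat_lit 557109) (nat_lit 15) (.e (nat_lit 188449) (nat_lit 22) (.e (nat_lit 196668) (nat_lit 14) (.e (nat_lit 73736) (nat_lit 0) (.e (nat_lit 5818) (nat_lit 320) .nil))))))) (.g (nat_lit 4) .nil .nil))))) (.nd (nat_lit 4) (.nd (nat_lit 5) 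
(.lf (nat_lit 22280) (.g (nat_lit 2497) (.e (nat_lit 1183) (nat_lit 87) (.e (nat_lit 57478) (nat_lit 28) (.e (nat_lit 557107) (nat_lit 15) (.e (nat_lit 188450) (nat_lit 23) (.e (nat_lit 204858) (nat_lit 26) (.e (nat_lit 336031) (nat_lit 4) (.e (nat_lit 123182) (nat_lit 264) .nil))))))) (.g (nat_lit 4) .nil .nil))) 
(.lf (nat_lit 22312) (.g (nat_lit 3350) (.e (nat_lit 1183) (nat_lit 87) (.e (nat_lit 57478) (nat_lit 28) (.e (nat_lit 557109) (nat_lit 15) (.e (nat_lit 188449) (nat_lit 22) (.e (nat_lit 196630) (nat_lit 9) (.e (nat_lit 1462) (nat_lit 108) (.e (nat_lit 336032) (nat_lit 4) (.e (nat_lit 123182) (nat_lit 264) .nil)))))))) (.g (nat_lit 4) .nil .nil)))) (.nd (nat_lit 5) 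
(.lf (nat_lit 22296) (.g (nat_lit 4753) (.e (nat_lit 1183) (nat_lit 87) (.e (nat_lit 57478) (nat_lit 28) (.e (nat_lit 557108) (nat_lit 15) (.e (nat_lit 188452) (nat_lit 23) (.e (nat_lit 204855) (nat_lit 26) .nil))))) .nil)) 
(.lf (nat_lit 22328) (.g (nat_lit 3836) (.e (nat_lit 1183) (nat_lit 87) (.e (nat_lit 57478) (nat_lit 28) (.e (nat_lit 557109) (nat_lit 15) (.e (nat_lit 188450) (nat_lit 23) (.e (nat_lit 204861) (nat_lit 26) (.e (nat_lit 336033) (nat_lit 4) (.e (nat_lit 123182) (nat_lit 264) .nil))))))) (.g (nat_lit 4) .nil .nil)))))) (.nd (nat_lit 3) (.nd (nat_lit 4) (.nd (nat_lit 5) 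
(.lf (nat_lit 22276) (.g (nat_lit 2234) (.e (nat_lit 1183) (nat_lit 87) (.e (nat_lit 57478) (nat_lit 28) (.e (nat_lit 557107) (nat_lit 15) (.e (nat_lit 188450) (nat_lit 23) (.e (nat_lit 204852) (nat_lit 26) (.e (nat_lit 343808) (nat_lit 4) (.e (nat_lit 123182) (nat_lit 264) .nil))))))) (.g (nat_lit 4) .nil .nil))) 
(.lf (nat_lit 22308) (.g (nat_lit 3832) (.e (nat_lit 1183) (nat_lit 87) (.e (nat_lit 57478) (nat_lit 28) (.e (nat_lit 557109) (nat_lit 15) (.e (nat_lit 188447) (nat_lit 22) (.e (nat_lit 196668) (nat_lit 14) (.e (nat_lit 73736) (nat_lit 0) (.e (nat_lit 5818) (nat_lit 320) .nil))))))) (.g (nat_lit 4) .nil .nil)))) (.nd (nat_lit 5) 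
(.lf (nat_lit 22292) (.g (nat_lit 3617) (.e (nat_lit 1183) (nat_lit 87) (.e (nat_lit 57478) (nat_lit 28) (.e (nat_lit 557108) (nat_lit 15) (.e (nat_lit 188452) (nat_lit 23) (.e (nat_lit 204852) (nat_lit 26) (.e (nat_lit 336036) (nat_lit 4) (.e (nat_lit 123185) (nat_lit 264) .nil))))))) (.g (nat_lit 4) .nil .nil))) 
(.lf (nat_lit 22324) (.g (nat_lit 1967) (.e (nat_lit 1183) (nat_lit 87) (.e (nat_lit 57478) (nat_lit 28) (.e (nat_lit 557109) (nat_lit 15) (.e (nat_lit 188450) (nat_lit 23) .nil)))) .nil)))) (.nd (nat_lit 4) (.nd (nat_lit 5) 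
(.lf (nat_lit 22284) (.g (nat_lit 6070) (.e (nat_lit 1183) (nat_lit 87) (.e (nat_lit 57478) (nat_lit 28) (.e (nat_lit 557108) (nat_lit 15) (.e (nat_lit 188449) (nat_lit 22) (.e (nat_lit 196668) (nat_lit 14) .nil))))) .nil)) 
(.lf (nat_lit 22316) (.g (nat_lit 2174) (.e (nat_lit 1183) (nat_lit 87) (.e (nat_lit 57478) (nat_lit 28) (.e (nat_lit 557109) (nat_lit 15) (.e (nat_lit 188449) (nat_lit 22) (.e (nat_lit 196666) (nat_lit 13) .nil))))) .nil))) (.nd (nat_lit 5) 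
(.lf (nat_lit 22300) (.g (nat_lit 3032) (.e (nat_lit 1183) (nat_lit 87) (.e (nat_lit 57478) (nat_lit 28) (.e (nat_lit 557108) (nat_lit 15) (.e (nat_lit 188452) (nat_lit 23) (.e (nat_lit 204874) (nat_lit 30) .nil))))) .nil)) 
(.lf (nat_lit 22332) (.g (nat_lit 2928) (.e (nat_lit 1183) (nat_lit 87) (.e (nat_lit 57478) (nat_lit 28) (.e (nat_lit 557109) (nat_lit 15) (.e (nat_lit 188452) (nat_lit 23) (.e (nat_lit 204855) (nat_lit 26) (.e (nat_lit 336030) (nat_lit 4) (.e (nat_lit 123184) (nat_lit 264) .nil))))))) (.g (nat_lit 4) .nil .nil))))))) (.nd (nat_lit 2) (.nd (nat_lit 3) (.nd (nat_lit 4) (.nd (nat_lit 5) 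
(.lf (nat_lit 22274) (.g (nat_lit 1120) (.e (nat_lit 1183) (nat_lit 87) (.e (nat_lit 57478) (nat_lit 28) (.e (nat_lit 557107) (nat_lit 15) (.e (nat_lit 188450) (nat_lit 23) .nil)))) .nil)) 
(.lf (nat_lit 22306) (.g (nat_lit 5722) (.e (nat_lit 1183) (nat_lit 87) (.e (nat_lit 57478) (nat_lit 28) (.e (nat_lit 557109) (nat_lit 15) (.e (nat_lit 188447) (nat_lit 22) (.e (nat_lit 196666) (nat_lit 13) (.e (nat_lit 65574) (nat_lit 4) (.e (nat_lit 123182) (nat_lit 264) .nil))))))) (.g (nat_lit 6) .nil .nil)))) (.nd (nat_lit 5) 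
(.lf (nat_lit 22290) (.g (nat_lit 3108) (.e (nat_lit 1183) (nat_lit 87) (.e (nat_lit 57478) (nat_lit 28) (.e (nat_lit 557108) (nat_lit 15) (.e (nat_lit 188452) (nat_lit 23) (.e (nat_lit 204851) (nat_lit 26) (.e (nat_lit 336036) (nat_lit 4) (.e (nat_lit 123185) (nat_lit 264) .nil))))))) (.g (nat_lit 4) .nil .nil))) 
(.lf (nat_lit 22322) (.g (nat_lit 1679) (.e (nat_lit 1183) (nat_lit 87) (.e (nat_lit 57478) (nat_lit 28) (.e (nat_lit 557109) (nat_lit 15) (.e (nat_lit 188449) (nat_lit 22) (.e (nat_lit 204544) (nat_lit 14) (.e (nat_lit 73736) (nat_lit 0) (.e (nat_lit 5818) (nat_lit 320) .nil))))))) (.g (nat_lit 4) .nil .nil))))) (.nd (nat_lit 4) (.nd (nat_lit 5) 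
(.lf (nat_lit 22282) (.g (nat_lit 2977) (.e (nat_lit 1183) (nat_lit 87) (.e (nat_lit 57478) (nat_lit 28) (.e (nat_lit 557107) (nat_lit 15) (.e (nat_lit 188450) (nat_lit 23) (.e (nat_lit 204863) (nat_lit 27) (.e (nat_lit 344103) (nat_lit 18) (.e (nat_lit 5818) (nat_lit 320) .nil))))))) (.g (nat_lit 5) .nil .nil))) 
(.lf (nat_lit 22314) (.g (nat_lit 4297) (.e (nat_lit 1183) (nat_lit 87) (.e (nat_lit 57478) (nat_lit 28) (.e (nat_lit 557109) (nat_lit 15) (.e (nat_lit 188449) (nat_lit 22) (.e (nat_lit 196662) (nat_lit 13) (.e (nat_lit 65574) (nat_lit 4) (.e (nat_lit 123182) (nat_lit 264) .nil))))))) (.g (nat_lit 4) .nil .nil)))) (.nd (nat_lit 5) 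
(.lf (nat_lit 22298) (.g (nat_lit 3030) (.e (nat_lit 1183) (nat_lit 87) (.e (nat_lit 57478) (nat_lit 28) (.e (nat_lit 557108) (nat_lit 15) (.e (nat_lit 188452) (nat_lit 23) (.e (nat_lit 212736) (nat_lit 26) (.e (nat_lit 336032) (nat_lit 4) (.e (nat_lit 123182) (nat_lit 264) .nil))))))) (.g (nat_lit 4) .nil .nil))) 
(.lf (nat_lit 22330) (.g (nat_lit 3729) (.e (nat_lit 1183) (nat_lit 87) (.e (nat_lit 57478) (nat_lit 28) (.e (nat_lit 557109) (nat_lit 15) (.e (nat_lit 188452) (nat_lit 23) (.e (nat_lit 204817) (nat_lit 17) .nil))))) .nil))))) (.nd (nat_lit 3) (.nd (nat_lit 4) (.nd (nat_lit 5) 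
(.lf (nat_lit 22278) (.g (nat_lit 3354) (.e (nat_lit 1183) (nat_lit 87) (.e (nat_lit 57478) (nat_lit 28) (.e (nat_lit 557107) (nat_lit 15) (.e (nat_lit 188450) (nat_lit 23) (.e (nat_lit 204855) (nat_lit 26) (.e (nat_lit 336030) (nat_lit 4) (.e (nat_lit 123185) (nat_lit 264) .nil))))))) (.g (nat_lit 0) .nil .nil))) 
(.lf (nat_lit 22310) (.g (nat_lit 4132) (.e (nat_lit 1183) (nat_lit 87) (.e (nat_lit 57478) (nat_lit 28) (.e (nat_lit 557109) (nat_lit 15) (.e (nat_lit 188447) (nat_lit 22) (.e (nat_lit 196681) (nat_lit 17) (.e (nat_lit 131099) (nat_lit 4) (.e (nat_lit 123182) (nat_lit 264) .nil))))))) (.g (nat_lit 4) .nil .nil)))) (.nd (nat_lit 5) 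
(.lf (nat_lit 22294) (.g (nat_lit 3081) (.e (nat_lit 1183) (nat_lit 87) (.e (nat_lit 57478) (nat_lit 28) (.e (nat_lit 557108) (nat_lit 15) (.e (nat_lit 188452) (nat_lit 23) (.e (nat_lit 204853) (nat_lit 26) (.e (nat_lit 336029) (nat_lit 4) (.e (nat_lit 123182) (nat_lit 264) .nil))))))) (.g (nat_lit 4) .nil .nil))) 
(.lf (nat_lit 22326) (.g (nat_lit 4874) (.e (nat_lit 1183) (nat_lit 87) (.e (nat_lit 57478) (nat_lit 28) (.e (nat_lit 557109) (nat_lit 15) (.e (nat_lit 188450) (nat_lit 23) (.e (nat_lit 204855) (nat_lit 26) (.e (nat_lit 336030) (nat_lit 4) (.e (nat_lit 123182) (nat_lit 264) .nil))))))) (.g (nat_lit 5) .nil .nil))))) (.nd (nat_lit 4) (.nd (nat_lit 5) 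
(.lf (nat_lit 22286) (.g (nat_lit 2819) (.e (nat_lit 1183) (nat_lit 87) (.e (nat_lit 57478) (nat_lit 28) (.e (nat_lit 557108) (nat_lit 15) (.e (nat_lit 188452) (nat_lit 23) (.e (nat_lit 204848) (nat_lit 25) .nil))))) .nil)) 
(.lf (nat_lit 22318) (.g (nat_lit 3247) (.e (nat_lit 1183) (nat_lit 87) (.e (nat_lit 57478) (nat_lit 28) (.e (nat_lit 557109) (nat_lit 15) (.e (nat_lit 188449) (nat_lit 22) (.e (nat_lit 196666) (nat_lit 13) (.e (nat_lit 65574) (nat_lit 4) (.e (nat_lit 123184) (nat_lit 264) .nil))))))) (.g (nat_lit 5) .nil .nil)))) (.nd (nat_lit 5) 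
(.lf (nat_lit 22302) (.g (nat_lit 2439) (.e (nat_lit 1183) (nat_lit 87) (.e (nat_lit 57478) (nat_lit 28) (.e (nat_lit 557109) (nat_lit 15) (.e (nat_lit 188421) (nat_lit 11) .nil)))) .nil)) 
(.lf (nat_lit 22334) (.g (nat_lit 3728) (.e (nat_lit 1183) (nat_lit 87) (.e (nat_lit 57478) (nat_lit 28) (.e (nat_lit 557109) (nat_lit 15) (.e (nat_lit 188452) (nat_lit 23) (.e (nat_lit 204856) (nat_lit 26) (.e (nat_lit 336030) (nat_lit 4) (.e (nat_lit 123182) (nat_lit 264) .nil))))))) (.g (nat_lit 5) .nil .nil)))))))) 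
(.nd (nat_lit 1) (.nd (nat_lit 2) (.nd (nat_lit 3) (.nd (nat_lit 4) (.nd (nat_lit 5) 
(.lf (nat_lit 22273) (.g (nat_lit 1323) (.e (nat_lit 1183) (nat_lit 87) (.e (nat_lit 57478) (nat_lit 28) (.e (nat_lit 557107) (nat_lit 15) (.e (nat_lit 188449) (nat_lit 22) .nil)))) .nil)) 
(.lf (nat_lit 22305) (.g (nat_lit 5382) (.e (nat_lit 1183) (nat_lit 87) (.e (nat_lit 57478) (nat_lit 28) (.e (nat_lit 557109) (nat_lit 15) (.e (nat_lit 188447) (nat_lit 22) (.e (nat_lit 196666) (nat_lit 13) (.e (nat_lit 65573) (nat_lit 4) (.e (nat_lit 123182) (nat_lit 264) .nil))))))) (.g (nat_lit 5) .nil .nil)))) (.nd (nat_lit 5) 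
(.lf (nat_lit 22289) (.g (nat_lit 3452) (.e (nat_lit 1183) (nat_lit 87) (.e (nat_lit 57478) (nat_lit 28) (.e (nat_lit 557108) (nat_lit 15) (.e (nat_lit 188452) (nat_lit 23) (.e (nat_lit 204851) (nat_lit 26) (.e (nat_lit 336029) (nat_lit 4) (.e (nat_lit 123185) (nat_lit 264) .nil))))))) (.g (nat_lit 5) .nil .nil))) 
(.lf (nat_lit 22321) (.g (nat_lit 4386) (.e (nat_lit 1183) (nat_lit 87) (.e (nat_lit 57478) (nat_lit 28) (.e (nat_lit 557109) (nat_lit 15) (.e (nat_lit 188449) (nat_lit 22) (.e (nat_lit 196668) (nat_lit 14) (.e (nat_lit 73737) (nat_lit 0) (.e (nat_lit 5818) (nat_lit 320) .nil))))))) (.g (nat_lit 5) .nil .nil))))) (.nd (nat_lit 4) (.nd (nat_lit 5) 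
(.lf (nat_lit 22281) (.g (nat_lit 2359) (.e (nat_lit 1183) (nat_lit 87) (.e (nat_lit 57478) (nat_lit 28) (.e (nat_lit 557107) (nat_lit 15) (.e (nat_lit 188450) (nat_lit 23) (.e (nat_lit 204858) (nat_lit 26) (.e (nat_lit 336032) (nat_lit 4) (.e (nat_lit 123182) (nat_lit 264) .nil))))))) (.g (nat_lit 4) .nil .nil))) 
(.lf (nat_lit 22313) (.g (nat_lit 4116) (.e (nat_lit 1183) (nat_lit 87) (.e (nat_lit 57478) (nat_lit 28) (.e (nat_lit 557109) (nat_lit 15) (.e (nat_lit 188449) (nat_lit 22) (.e (nat_lit 196662) (nat_lit 13) (.e (nat_lit 65573) (nat_lit 4) (.e (nat_lit 123182) (nat_lit 264) .nil))))))) (.g (nat_lit 4) .nil .nil)))) (.nd (nat_lit 5) 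
(.lf (nat_lit 22297) (.g (nat_lit 5042) (.e (nat_lit 1183) (nat_lit 87) (.e (nat_lit 57478) (nat_lit 28) (.e (nat_lit 557108) (nat_lit 15) (.e (nat_lit 188452) (nat_lit 23) (.e (nat_lit 204861) (nat_lit 26) (.e (nat_lit 336033) (nat_lit 4) (.e (nat_lit 123182) (nat_lit 264) .nil))))))) (.g (nat_lit 4) .nil .nil))) 
(.lf (nat_lit 22329) (.g (nat_lit 5795) (.e (nat_lit 1183) (nat_lit 87) (.e (nat_lit 57478) (nat_lit 28) (.e (nat_lit 557109) (nat_lit 15) (.e (nat_lit 188452) (nat_lit 23) (.e (nat_lit 204816) (nat_lit 17) .nil))))) .nil))))) (.nd (nat_lit 3) (.nd (nat_lit 4) (.nd (nat_lit 5) 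
(.lf (nat_lit 22277) (.g (nat_lit 2110) (.e (nat_lit 1183) (nat_lit 87) (.e (nat_lit 57478) (nat_lit 28) (.e (nat_lit 557107) (nat_lit 15) (.e (nat_lit 188450) (nat_lit 23) (.e (nat_lit 204855) (nat_lit 26) (.e (nat_lit 336030) (nat_lit 4) (.e (nat_lit 123184) (nat_lit 264) .nil))))))) (.g (nat_lit 4) .nil .nil))) 
(.lf (nat_lit 22309) (.g (nat_lit 4712) (.e (nat_lit 1183) (nat_lit 87) (.e (nat_lit 57478) (nat_lit 28) (.e (nat_lit 557109) (nat_lit 15) (.e (nat_lit 188447) (nat_lit 22) (.e (nat_lit 196668) (nat_lit 14) (.e (nat_lit 73737) (nat_lit 0) (.e (nat_lit 5818) (nat_lit 320) .nil))))))) (.g (nat_lit 6) .nil .nil)))) (.nd (nat_lit 5) 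
(.lf (nat_lit 22293) (.g (nat_lit 3381) (.e (nat_lit 1183) (nat_lit 87) (.e (nat_lit 57478) (nat_lit 28) (.e (nat_lit 557108) (nat_lit 15) (.e (nat_lit 188452) (nat_lit 23) (.e (nat_lit 204852) (nat_lit 26) (.e (nat_lit 343808) (nat_lit 4) (.e (nat_lit 123185) (nat_lit 264) .nil))))))) (.g (nat_lit 4) .nil .nil))) 
(.lf (nat_lit 22325) (.g (nat_lit 3537) (.e (nat_lit 1183) (nat_lit 87) (.e (nat_lit 57478) (nat_lit 28) (.e (nat_lit 557109) (nat_lit 15) (.e (nat_lit 188450) (nat_lit 23) (.e (nat_lit 204855) (nat_lit 26) .nil))))) .nil)))) (.nd (nat_lit 4) (.nd (nat_lit 5) 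
(.lf (nat_lit 22285) (.g (nat_lit 2599) (.e (nat_lit 1183) (nat_lit 87) (.e (nat_lit 57478) (nat_lit 28) (.e (nat_lit 557108) (nat_lit 15) (.e (nat_lit 188452) (nat_lit 23) (.e (nat_lit 204816) (nat_lit 17) (.e (nat_lit 6436) (nat_lit 343) (.e (nat_lit 1288) (nat_lit 95) (.e (nat_lit 123182) (nat_lit 264) .nil)))))))) (.g (nat_lit 4) .nil .nil))) 
(.lf (nat_lit 22317) (.g (nat_lit 4164) (.e (nat_lit 1183) (nat_lit 87) (.e (nat_lit 57478) (nat_lit 28) (.e (nat_lit 557109) (nat_lit 15) (.e (nat_lit 188449) (nat_lit 22) (.e (nat_lit 196666) (nat_lit 13) (.e (nat_lit 65572) (nat_lit 4) (.e (nat_lit 123185) (nat_lit 264) .nil))))))) (.g (nat_lit 0) .nil .nil)))) (.nd (nat_lit 5) 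
(.lf (nat_lit 22301) (.g (nat_lit 3402) (.e (nat_lit 1183) (nat_lit 87) (.e (nat_lit 57478) (nat_lit 28) (.e (nat_lit 557108) (nat_lit 15) (.e (nat_lit 188452) (nat_lit 23) (.e (nat_lit 204874) (nat_lit 30) (.e (nat_lit 368666) (nat_lit 18) (.e (nat_lit 5818) (nat_lit 320) .nil))))))) (.g (nat_lit 4) .nil .nil))) 
(.lf (nat_lit 22333) (.g (nat_lit 3729) (.e (nat_lit 1183) (nat_lit 87) (.e (nat_lit 57478) (nat_lit 28) (.e (nat_lit 557109) (nat_lit 15) (.e (nat_lit 188452) (nat_lit 23) (.e (nat_lit 204855) (nat_lit 26) (.e (nat_lit 336034) (nat_lit 4) (.e (nat_lit 123182) (nat_lit 264) .nil))))))) (.g (nat_lit 5) .nil .nil))))))) (.nd (nat_lit 2) (.nd (nat_lit 3) (.nd (nat_lit 4) (.nd (nat_lit 5) 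
(.lf (nat_lit 22275) (.g (nat_lit 3203) (.e (nat_lit 1183) (nat_lit 87) (.e (nat_lit 57478) (nat_lit 28) (.e (nat_lit 557107) (nat_lit 15) (.e (nat_lit 188450) (nat_lit 23) (.e (nat_lit 204852) (nat_lit 26) (.e (nat_lit 336036) (nat_lit 4) (.e (nat_lit 123182) (nat_lit 264) .nil))))))) (.g (nat_lit 5) .nil .nil))) 
(.lf (nat_lit 22307) (.g (nat_lit 3752) (.e (nat_lit 1183) (nat_lit 87) (.e (nat_lit 57478) (nat_lit 28) (.e (nat_lit 557109) (nat_lit 15) (.e (nat_lit 188447) (nat_lit 22) (.e (nat_lit 196666) (nat_lit 13) (.e (nat_lit 65574) (nat_lit 4) (.e (nat_lit 123184) (nat_lit 264) .nil))))))) (.g (nat_lit 4) .nil .nil)))) (.nd (nat_lit 5) 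
(.lf (nat_lit 22291) (.g (nat_lit 3330) (.e (nat_lit 1183) (nat_lit 87) (.e (nat_lit 57478) (nat_lit 28) (.e (nat_lit 557108) (nat_lit 15) (.e (nat_lit 188452) (nat_lit 23) (.e (nat_lit 204852) (nat_lit 26) .nil))))) .nil)) 
(.lf (nat_lit 22323) (.g (nat_lit 5069) (.e (nat_lit 1183) (nat_lit 87) (.e (nat_lit 57478) (nat_lit 28) (.e (nat_lit 557109) (nat_lit 15) (.e (nat_lit 188449) (nat_lit 22) (.e (nat_lit 196680) (nat_lit 17) .nil))))) .nil)))) (.nd (nat_lit 4) (.nd (nat_lit 5) 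
(.lf (nat_lit 22283) (.g (nat_lit 4782) (.e (nat_lit 1183) (nat_lit 87) (.e (nat_lit 57478) (nat_lit 28) (.e (nat_lit 557108) (nat_lit 15) (.e (nat_lit 188449) (nat_lit 22) (.e (nat_lit 196666) (nat_lit 13) .nil))))) .nil)) 
(.lf (nat_lit 22315) (.g (nat_lit 4949) (.e (nat_lit 1183) (nat_lit 87) (.e (nat_lit 57478) (nat_lit 28) (.e (nat_lit 557109) (nat_lit 15) (.e (nat_lit 188449) (nat_lit 22) (.e (nat_lit 196663) (nat_lit 13) (.e (nat_lit 65574) (nat_lit 4) (.e (nat_lit 123185) (nat_lit 264) .nil))))))) (.g (nat_lit 4) .nil .nil)))) (.nd (nat_lit 5) 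
(.lf (nat_lit 22299) (.g (nat_lit 3123) (.e (nat_lit 1183) (nat_lit 87) (.e (nat_lit 57478) (nat_lit 28) (.e (nat_lit 557108) (nat_lit 15) (.e (nat_lit 188452) (nat_lit 23) (.e (nat_lit 204873) (nat_lit 30) .nil))))) .nil)) 
(.lf (nat_lit 22331) (.g (nat_lit 2667) (.e (nat_lit 1183) (nat_lit 87) (.e (nat_lit 57478) (nat_lit 28) (.e (nat_lit 557109) (nat_lit 15) (.e (nat_lit 188452) (nat_lit 23) (.e (nat_lit 204852) (nat_lit 26) .nil))))) .nil))))) (.nd (nat_lit 3) (.nd (nat_lit 4) (.nd (nat_lit 5) 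
(.lf (nat_lit 22279) (.g (nat_lit 2395) (.e (nat_lit 1183) (nat_lit 87) (.e (nat_lit 57478) (nat_lit 28) (.e (nat_lit 557107) (nat_lit 15) (.e (nat_lit 188450) (nat_lit 23) (.e (nat_lit 204857) (nat_lit 26) (.e (nat_lit 336032) (nat_lit 4) (.e (nat_lit 123182) (nat_lit 264) .nil))))))) (.g (nat_lit 4) .nil .nil))) 
(.lf (nat_lit 22311) (.g (nat_lit 3270) (.e (nat_lit 1183) (nat_lit 87) (.e (nat_lit 57478) (nat_lit 28) (.e (nat_lit 557109) (nat_lit 15) (.e (nat_lit 188449) (nat_lit 22) (.e (nat_lit 196630) (nat_lit 9) .nil))))) .nil))) (.nd (nat_lit 5) 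
(.lf (nat_lit 22295) (.g (nat_lit 3016) (.e (nat_lit 1183) (nat_lit 87) (.e (nat_lit 57478) (nat_lit 28) (.e (nat_lit 557108) (nat_lit 15) (.e (nat_lit 188452) (nat_lit 23) (.e (nat_lit 204853) (nat_lit 26) (.e (nat_lit 336036) (nat_lit 4) (.e (nat_lit 123182) (nat_lit 264) .nil))))))) (.g (nat_lit 4) .nil .nil))) 
(.lf (nat_lit 22327) (.g (nat_lit 3920) (.e (nat_lit 1183) (nat_lit 87) (.e (nat_lit 57478) (nat_lit 28) (.e (nat_lit 557109) (nat_lit 15) (.e (nat_lit 188450) (nat_lit 23) (.e (nat_lit 204855) (nat_lit 26) (.e (nat_lit 336030) (nat_lit 4) (.e (nat_lit 123185) (nat_lit 264) .nil))))))) (.g (nat_lit 4) .nil .nil))))) (.nd (nat_lit 4) (.nd (nat_lit 5) 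
(.lf (nat_lit 22287) (.g (nat_lit 2673) (.e (nat_lit 1183) (nat_lit 87) (.e (nat_lit 57478) (nat_lit 28) (.e (nat_lit 557108) (nat_lit 15) (.e (nat_lit 188452) (nat_lit 23) (.e (nat_lit 204849) (nat_lit 25) .nil))))) .nil)) 
(.lf (nat_lit 22319) (.g (nat_lit 5004) (.e (nat_lit 1183) (nat_lit 87) (.e (nat_lit 57478) (nat_lit 28) (.e (nat_lit 557109) (nat_lit 15) (.e (nat_lit 188449) (nat_lit 22) (.e (nat_lit 196667) (nat_lit 14) (.e (nat_lit 73737) (nat_lit 0) (.e (nat_lit 5818) (nat_lit 320) .nil))))))) (.g (nat_lit 4) .nil .nil)))) (.nd (nat_lit 5) 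
(.lf (nat_lit 22303) (.g (nat_lit 2004) (.e (nat_lit 1183) (nat_lit 87) (.e (nat_lit 57478) (nat_lit 28) (.e (nat_lit 557109) (nat_lit 15) (.e (nat_lit 188447) (nat_lit 22) .nil)))) .nil)) 
(.lf (nat_lit 22335) (.g (nat_lit 3186) (.e (nat_lit 1183) (nat_lit 87) (.e (nat_lit 57478) (nat_lit 28) (.e (nat_lit 557109) (nat_lit 15) (.e (nat_lit 188452) (nat_lit 23) (.e (nat_lit 204856) (nat_lit 26) (.e (nat_lit 336032) (nat_lit 4) (.e (nat_lit 123184) (nat_lit 264) .nil))))))) (.g (nat_lit 4) .nil .nil)))))))))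

noncomputable def tv316 : DT := (.nd (nat_lit 0) (.nd (nat_lit 1) (.nd (nat_lit 2) (.nd (nat_lit 3) (.nd (nat_lit 4) (.nd (nat_lit 5) 
(.lf (nat_lit 22336) (.g (nat_lit 4535) (.e (nat_lit 1183) (nat_lit 87) (.e (nat_lit 57478) (nat_lit 28) (.e (nat_lit 557109) (nat_lit 15) (.e (nat_lit 188452) (nat_lit 23) (.e (nat_lit 204858) (nat_lit 26) (.e (nat_lit 336030) (nat_lit 4) (.e (nat_lit 123182) (nat_lit 264) .nil))))))) (.g (nat_lit 4) .nil .nil))) 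
(.lf (nat_lit 22368) (.g (nat_lit 4359) (.e (nat_lit 1183) (nat_lit 87) (.e (nat_lit 57479) (nat_lit 28) (.e (nat_lit 557100) (nat_lit 13) (.e (nat_lit 172106) (nat_lit 10) (.e (nat_lit 434231) (nat_lit 23) (.e (nat_lit 532529) (nat_lit 9) (.e (nat_lit 343808) (nat_lit 4) (.e (nat_lit 123182) (nat_lit 264) .nil)))))))) (.g (nat_lit 6) .nil .nil)))) (.nd (nat_lit 5) 
(.lf (nat_lit 22352) (.g (nat_lit 2788) (.e (nat_lit 1183) (nat_lit 87) (.e (nat_lit 57478) (nat_lit 28) (.e (nat_lit 557109) (nat_lit 15) (.e (nat_lit 188461) (nat_lit 26) (.e (nat_lit 253959) (nat_lit 9) .nil))))) .nil)) 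
(.lf (nat_lit 22384) (.g (nat_lit 6261) (.e (nat_lit 1183) (nat_lit 87) (.e (nat_lit 57479) (nat_lit 28) (.e (nat_lit 557101) (nat_lit 13) (.e (nat_lit 172097) (nat_lit 9) (.e (nat_lit 426125) (nat_lit 2) (.e (nat_lit 196666) (nat_lit 13) (.e (nat_lit 65573) (nat_lit 4) (.e (nat_lit 123182) (nat_lit 264) .nil)))))))) (.g (nat_lit 0) .nil .nil))))) (.nd (nat_lit 4) (.nd (nat_lit 5) 
(.lf (nat_lit 22344) (.g (nat_lit 3018) (.e (nat_lit 1183) (nat_lit 87) (.e (nat_lit 57478) (nat_lit 28) (.e (nat_lit 557109) (nat_lit 15) (.e (nat_lit 188458) (nat_lit 25) (.e (nat_lit 245784) (nat_lit 9) .nil))))) .nil)) 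
(.lf (nat_lit 22376) (.g (nat_lit 4390) (.e (nat_lit 1183) (nat_lit 87) (.e (nat_lit 57479) (nat_lit 28) (.e (nat_lit 557100) (nat_lit 13) (.e (nat_lit 172106) (nat_lit 10) (.e (nat_lit 434231) (nat_lit 23) (.e (nat_lit 532543) (nat_lit 10) (.e (nat_lit 344103) (nat_lit 18) (.e (nat_lit 5818) (nat_lit 320) .nil)))))))) (.g (nat_lit 6) .nil .nil)))) (.nd (nat_lit 5) 
(.lf (nat_lit 22360) (.g (nat_lit 2556) (.e (nat_lit 1183) (nat_lit 87) (.e (nat_lit 57479) (nat_lit 28) (.e (nat_lit 557100) (nat_lit 13) (.e (nat_lit 172097) (nat_lit 9) .nil)))) .nil)) 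
(.lf (nat_lit 22392) (.g (nat_lit 3125) (.e (nat_lit 1183) (nat_lit 87) (.e (nat_lit 57479) (nat_lit 28) (.e (nat_lit 557101) (nat_lit 13) (.e (nat_lit 172097) (nat_lit 9) (.e (nat_lit 426140) (nat_lit 3) (.e (nat_lit 204855) (nat_lit 26) (.e (nat_lit 336030) (nat_lit 4) (.e (nat_lit 123183) (nat_lit 264) .nil)))))))) (.g (nat_lit 5) .nil .nil)))))) 
(.nd (nat_lit 3) (.nd (nat_lit 4) (.nd (nat_lit 5) 
(.lf (nat_lit 22340) (.g (nat_lit 2385) (.e (nat_lit 1183) (nat_lit 87) (.e (nat_lit 57478) (nat_lit 28) (.e (nat_lit 557109) (nat_lit 15) (.e (nat_lit 188452) (nat_lit 23) (.e (nat_lit 204862) (nat_lit 27) .nil))))) .nil)) 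
(.lf (nat_lit 22372) (.g (nat_lit 5130) (.e (nat_lit 1183) (nat_lit 87) (.e (nat_lit 57479) (nat_lit 28) (.e (nat_lit 557100) (nat_lit 13) (.e (nat_lit 172106) (nat_lit 10) (.e (nat_lit 434231) (nat_lit 23) (.e (nat_lit 532535) (nat_lit 9) (.e (nat_lit 336030) (nat_lit 4) (.e (nat_lit 123185) (nat_lit 264) .nil)))))))) (.g (nat_lit 6) .nil .nil)))) (.nd (nat_lit 5) 
(.lf (nat_lit 22356) (.g (nat_lit 3501) (.e (nat_lit 1183) (nat_lit 87) (.e (nat_lit 57479) (nat_lit 28) (.e (nat_lit 557095) (nat_lit 13) (.e (nat_lit 172097) (nat_lit 9) (.e (nat_lit 426125) (nat_lit 2) (.e (nat_lit 196666) (nat_lit 13) (.e (nat_lit 65574) (nat_lit 4) (.e (nat_lit 123185) (nat_lit 264) .nil)))))))) (.g (nat_lit 5) .nil .nil))) 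
(.lf (nat_lit 22388) (.g (nat_lit 3567) (.e (nat_lit 1183) (nat_lit 87) (.e (nat_lit 57479) (nat_lit 28) (.e (nat_lit 557101) (nat_lit 13) (.e (nat_lit 172097) (nat_lit 9) (.e (nat_lit 426125) (nat_lit 2) (.e (nat_lit 196666) (nat_lit 13) (.e (nat_lit 65574) (nat_lit 4) (.e (nat_lit 123183) (nat_lit 264) .nil)))))))) (.g (nat_lit 6) .nil .nil))))) (.nd (nat_lit 4) (.nd (nat_lit 5) 
(.lf (nat_lit 22348) (.g (nat_lit 3168) (.e (nat_lit 1183) (nat_lit 87) (.e (nat_lit 57478) (nat_lit 28) (.e (nat_lit 557109) (nat_lit 15) (.e (nat_lit 188458) (nat_lit 25) (.e (nat_lit 245791) (nat_lit 14) .nil))))) .nil)) 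
(.lf (nat_lit 22380) (.g (nat_lit 3881) (.e (nat_lit 1183) (nat_lit 87) (.e (nat_lit 57479) (nat_lit 28) (.e (nat_lit 557100) (nat_lit 13) (.e (nat_lit 172113) (nat_lit 10) (.e (nat_lit 434231) (nat_lit 23) (.e (nat_lit 532535) (nat_lit 9) (.e (nat_lit 336030) (nat_lit 4) (.e (nat_lit 123182) (nat_lit 264) .nil)))))))) (.g (nat_lit 4) .nil .nil)))) (.nd (nat_lit 5) 
(.lf (nat_lit 22364) (.g (nat_lit 4136) (.e (nat_lit 1183) (nat_lit 87) (.e (nat_lit 57479) (nat_lit 28) (.e (nat_lit 557100) (nat_lit 13) (.e (nat_lit 172106) (nat_lit 10) (.e (nat_lit 434231) (nat_lit 23) (.e (nat_lit 532527) (nat_lit 9) (.e (nat_lit 336031) (nat_lit 4) (.e (nat_lit 123182) (nat_lit 264) .nil)))))))) (.g (nat_lit 6) .nil .nil))) 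
(.lf (nat_lit 22396) (.g (nat_lit 3129) (.e (nat_lit 1183) (nat_lit 87) (.e (nat_lit 57479) (nat_lit 28) (.e (nat_lit 557101) (nat_lit 13) (.e (nat_lit 172097) (nat_lit 9) (.e (nat_lit 426140) (nat_lit 3) (.e (nat_lit 204862) (nat_lit 27) (.e (nat_lit 344103) (nat_lit 18) (.e (nat_lit 5818) (nat_lit 320) .nil)))))))) (.g (nat_lit 5) .nil .nil))))))) 
(.nd (nat_lit 2) (.nd (nat_lit 3) (.nd (nat_lit 4) (.nd (nat_lit 5) 
(.lf (nat_lit 22338) (.g (nat_lit 3862) (.e (nat_lit 1183) (nat_lit 87) (.e (nat_lit 57478) (nat_lit 28) (.e (nat_lit 557109) (nat_lit 15) (.e (nat_lit 188452) (nat_lit 23) (.e (nat_lit 204859) (nat_lit 26) (.e (nat_lit 336035) (nat_lit 4) (.e (nat_lit 123185) (nat_lit 264) .nil))))))) (.g (nat_lit 5) .nil .nil))) 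
(.lf (nat_lit 22370) (.g (nat_lit 3313) (.e (nat_lit 1183) (nat_lit 87) (.e (nat_lit 57479) (nat_lit 28) (.e (nat_lit 557100) (nat_lit 13) (.e (nat_lit 172106) (nat_lit 10) (.e (nat_lit 434231) (nat_lit 23) (.e (nat_lit 532535) (nat_lit 9) (.e (nat_lit 336030) (nat_lit 4) (.e (nat_lit 123183) (nat_lit 264) .nil)))))))) (.g (nat_lit 5) .nil .nil)))) (.nd (nat_lit 5) 
(.lf (nat_lit 22354) (.g (nat_lit 3462) (.e (nat_lit 1183) (nat_lit 87) (.e (nat_lit 57479) (nat_lit 28) (.e (nat_lit 557095) (nat_lit 13) (.e (nat_lit 172097) (nat_lit 9) (.e (nat_lit 426125) (nat_lit 2) (.e (nat_lit 196666) (nat_lit 13) (.e (nat_lit 65572) (nat_lit 4) (.e (nat_lit 123185) (nat_lit 264) .nil)))))))) (.g (nat_lit 5) .nil .nil))) 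
(.lf (nat_lit 22386) (.g (nat_lit 3365) (.e (nat_lit 1183) (nat_lit 87) (.e (nat_lit 57479) (nat_lit 28) (.e (nat_lit 557101) (nat_lit 13) (.e (nat_lit 172097) (nat_lit 9) (.e (nat_lit 426125) (nat_lit 2) (.e (nat_lit 196666) (nat_lit 13) (.e (nat_lit 65573) (nat_lit 4) (.e (nat_lit 123185) (nat_lit 264) .nil)))))))) (.g (nat_lit 5) .nil .nil))))) (.nd (nat_lit 4) (.nd (nat_lit 5) 
(.lf (nat_lit 22346) (.g (nat_lit 3130) (.e (nat_lit 1183) (nat_lit 87) (.e (nat_lit 57478) (nat_lit 28) (.e (nat_lit 557109) (nat_lit 15) (.e (nat_lit 188458) (nat_lit 25) (.e (nat_lit 245784) (nat_lit 9) (.e (nat_lit 1440) (nat_lit 108) (.e (nat_lit 336030) (nat_lit 4) (.e (nat_lit 123182) (nat_lit 264) .nil)))))))) (.g (nat_lit 4) .nil .nil))) 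
(.lf (nat_lit 22378) (.g (nat_lit 4565) (.e (nat_lit 1183) (nat_lit 87) (.e (nat_lit 57479) (nat_lit 28) (.e (nat_lit 557100) (nat_lit 13) (.e (nat_lit 172106) (nat_lit 10) (.e (nat_lit 434231) (nat_lit 23) (.e (nat_lit 532544) (nat_lit 10) (.e (nat_lit 344103) (nat_lit 18) (.e (nat_lit 5818) (nat_lit 320) .nil)))))))) (.g (nat_lit 6) .nil .nil)))) (.nd (nat_lit 5) 
(.lf (nat_lit 22362) (.g (nat_lit 3267) (.e (nat_lit 1183) (nat_lit 87) (.e (nat_lit 57479) (nat_lit 28) (.e (nat_lit 557100) (nat_lit 13) (.e (nat_lit 172106) (nat_lit 10) (.e (nat_lit 434231) (nat_lit 23) (.e (nat_lit 532527) (nat_lit 9) (.e (nat_lit 336030) (nat_lit 4) (.e (nat_lit 123182) (nat_lit 264) .nil)))))))) (.g (nat_lit 5) .nil .nil))) 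
(.lf (nat_lit 22394) (.g (nat_lit 2716) (.e (nat_lit 1183) (nat_lit 87) (.e (nat_lit 57479) (nat_lit 28) (.e (nat_lit 557101) (nat_lit 13) (.e (nat_lit 172097) (nat_lit 9) (.e (nat_lit 426140) (nat_lit 3) (.e (nat_lit 204856) (nat_lit 26) (.e (nat_lit 336032) (nat_lit 4) (.e (nat_lit 123182) (nat_lit 264) .nil)))))))) (.g (nat_lit 4) .nil .nil)))))) 
(.nd (nat_lit 3) (.nd (nat_lit 4) (.nd (nat_lit 5) 
(.lf (nat_lit 22342) (.g (nat_lit 4235) (.e (nat_lit 1183) (nat_lit 87) (.e (nat_lit 57478) (nat_lit 28) (.e (nat_lit 557109) (nat_lit 15) (.e (nat_lit 188452) (nat_lit 23) (.e (nat_lit 204864) (nat_lit 27) (.e (nat_lit 344103) (nat_lit 18) (.e (nat_lit 5818) (nat_lit 320) .nil))))))) (.g (nat_lit 6) .nil .nil))) 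
(.lf (nat_lit 22374) (.g (nat_lit 3710) (.e (nat_lit 1183) (nat_lit 87) (.e (nat_lit 57479) (nat_lit 28) (.e (nat_lit 557100) (nat_lit 13) (.e (nat_lit 172106) (nat_lit 10) (.e (nat_lit 434231) (nat_lit 23) (.e (nat_lit 532536) (nat_lit 9) (.e (nat_lit 336032) (nat_lit 4) (.e (nat_lit 123182) (nat_lit 264) .nil)))))))) (.g (nat_lit 5) .nil .nil)))) (.nd (nat_lit 5) 
(.lf (nat_lit 22358) (.g (nat_lit 3689) (.e (nat_lit 1183) (nat_lit 87) (.e (nat_lit 57479) (nat_lit 28) (.e (nat_lit 557095) (nat_lit 13) (.e (nat_lit 172115) (nat_lit 10) (.e (nat_lit 434231) (nat_lit 23) (.e (nat_lit 532535) (nat_lit 9) (.e (nat_lit 336030) (nat_lit 4) (.e (nat_lit 123184) (nat_lit 264) .nil)))))))) (.g (nat_lit 6) .nil .nil))) 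
(.lf (nat_lit 22390) (.g (nat_lit 2528) (.e (nat_lit 1183) (nat_lit 87) (.e (nat_lit 57479) (nat_lit 28) (.e (nat_lit 557101) (nat_lit 13) (.e (nat_lit 172097) (nat_lit 9) (.e (nat_lit 426140) (nat_lit 3) (.e (nat_lit 204855) (nat_lit 26) (.e (nat_lit 335923) (nat_lit 0) (.e (nat_lit 1086) (nat_lit 81) (.e (nat_lit 5818) (nat_lit 320) .nil))))))))) (.g (nat_lit 4) .nil .nil))))) 
(.nd (nat_lit 4) (.nd (nat_lit 5) 
(.lf (nat_lit 22350) (.g (nat_lit 3030) (.e (nat_lit 1183) (nat_lit 87) (.e (nat_lit 57478) (nat_lit 28) (.e (nat_lit 557109) (nat_lit 15) (.e (nat_lit 188458) (nat_lit 25) (.e (nat_lit 245794) (nat_lit 17) .nil))))) .nil)) 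
(.lf (nat_lit 22382) (.g (nat_lit 5860) (.e (nat_lit 1183) (nat_lit 87) (.e (nat_lit 57479) (nat_lit 28) (.e (nat_lit 557101) (nat_lit 13) (.e (nat_lit 172097) (nat_lit 9) (.e (nat_lit 426125) (nat_lit 2) (.e (nat_lit 196666) (nat_lit 13) (.e (nat_lit 65572) (nat_lit 4) (.e (nat_lit 123182) (nat_lit 264) .nil)))))))) (.g (nat_lit 0) .nil .nil)))) (.nd (nat_lit 5) 
(.lf (nat_lit 22366) (.g (nat_lit 2667) (.e (nat_lit 1183) (nat_lit 87) (.e (nat_lit 57479) (nat_lit 28) (.e (nat_lit 557100) (nat_lit 13) (.e (nat_lit 172106) (nat_lit 10) (.e (nat_lit 434231) (nat_lit 23) (.e (nat_lit 532527) (nat_lit 9) (.e (nat_lit 336032) (nat_lit 4) (.e (nat_lit 123185) (nat_lit 264) .nil)))))))) (.g (nat_lit 4) .nil .nil))) 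
(.lf (nat_lit 22398) (.g (nat_lit 3928) (.e (nat_lit 1183) (nat_lit 87) (.e (nat_lit 57479) (nat_lit 28) (.e (nat_lit 557101) (nat_lit 13) (.e (nat_lit 172097) (nat_lit 9) (.e (nat_lit 426140) (nat_lit 3) (.e (nat_lit 204863) (nat_lit 27) (.e (nat_lit 344103) (nat_lit 18) (.e (nat_lit 5818) (nat_lit 320) .nil)))))))) (.g (nat_lit 6) .nil .nil)))))))) 
(.nd (nat_lit 1) (.nd (nat_lit 2) (.nd (nat_lit 3) (.nd (nat_lit 4) (.nd (nat_lit 5) 
(.lf (nat_lit 22337) (.g (nat_lit 5284) (.e (nat_lit 1183) (nat_lit 87) (.e (nat_lit 57478) (nat_lit 28) (.e (nat_lit 557109) (nat_lit 15) (.e (nat_lit 188452) (nat_lit 23) (.e (nat_lit 204858) (nat_lit 26) (.e (nat_lit 336032) (nat_lit 4) (.e (nat_lit 123182) (nat_lit 264) .nil))))))) (.g (nat_lit 5) .nil .nil))) 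
(.lf (nat_lit 22369) (.g (nat_lit 2740) (.e (nat_lit 1183) (nat_lit 87) (.e (nat_lit 57479) (nat_lit 28) (.e (nat_lit 557100) (nat_lit 13) (.e (nat_lit 172106) (nat_lit 10) (.e (nat_lit 434231) (nat_lit 23) (.e (nat_lit 532529) (nat_lit 9) (.e (nat_lit 343808) (nat_lit 4) (.e (nat_lit 123185) (nat_lit 264) .nil)))))))) (.g (nat_lit 4) .nil .nil)))) (.nd (nat_lit 5) 
(.lf (nat_lit 22353) (.g (nat_lit 2808) (.e (nat_lit 1183) (nat_lit 87) (.e (nat_lit 57479) (nat_lit 28) (.e (nat_lit 557095) (nat_lit 13) (.e (nat_lit 172097) (nat_lit 9) (.e (nat_lit 426125) (nat_lit 2) (.e (nat_lit 196666) (nat_lit 13) (.e (nat_lit 65572) (nat_lit 4) (.e (nat_lit 123184) (nat_lit 264) .nil)))))))) (.g (nat_lit 4) .nil .nil))) 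
(.lf (nat_lit 22385) (.g (nat_lit 3636) (.e (nat_lit 1183) (nat_lit 87) (.e (nat_lit 57479) (nat_lit 28) (.e (nat_lit 557101) (nat_lit 13) (.e (nat_lit 172097) (nat_lit 9) (.e (nat_lit 426125) (nat_lit 2) (.e (nat_lit 196666) (nat_lit 13) (.e (nat_lit 65573) (nat_lit 4) (.e (nat_lit 123183) (nat_lit 264) .nil)))))))) (.g (nat_lit 6) .nil .nil))))) (.nd (nat_lit 4) (.nd (nat_lit 5) 
(.lf (nat_lit 22345) (.g (nat_lit 3656) (.e (nat_lit 1183) (nat_lit 87) (.e (nat_lit 57478) (nat_lit 28) (.e (nat_lit 557109) (nat_lit 15) (.e (nat_lit 188458) (nat_lit 25) (.e (nat_lit 245784) (nat_lit 9) (.e (nat_lit 1413) (nat_lit 108) (.e (nat_lit 336032) (nat_lit 4) (.e (nat_lit 123182) (nat_lit 264) .nil)))))))) (.g (nat_lit 5) .nil .nil))) 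
(.lf (nat_lit 22377) (.g (nat_lit 4339) (.e (nat_lit 1183) (nat_lit 87) (.e (nat_lit 57479) (nat_lit 28) (.e (nat_lit 557100) (nat_lit 13) (.e (nat_lit 172106) (nat_lit 10) (.e (nat_lit 434231) (nat_lit 23) (.e (nat_lit 532543) (nat_lit 10) (.e (nat_lit 344104) (nat_lit 18) (.e (nat_lit 5818) (nat_lit 320) .nil)))))))) (.g (nat_lit 6) .nil .nil)))) (.nd (nat_lit 5) 
(.lf (nat_lit 22361) (.g (nat_lit 2490) (.e (nat_lit 1183) (nat_lit 87) (.e (nat_lit 57479) (nat_lit 28) (.e (nat_lit 557100) (nat_lit 13) (.e (nat_lit 179968) (nat_lit 9) .nil)))) .nil)) 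
(.lf (nat_lit 22393) (.g (nat_lit 3412) (.e (nat_lit 1183) (nat_lit 87) (.e (nat_lit 57479) (nat_lit 28) (.e (nat_lit 557101) (nat_lit 13) (.e (nat_lit 172097) (nat_lit 9) (.e (nat_lit 426140) (nat_lit 3) (.e (nat_lit 204855) (nat_lit 26) (.e (nat_lit 336034) (nat_lit 4) (.e (nat_lit 123182) (nat_lit 264) .nil)))))))) (.g (nat_lit 5) .nil .nil)))))) 
(.nd (nat_lit 3) (.nd (nat_lit 4) (.nd (nat_lit 5) 
(.lf (nat_lit 22341) (.g (nat_lit 3651) (.e (nat_lit 1183) (nat_lit 87) (.e (nat_lit 57478) (nat_lit 28) (.e (nat_lit 557109) (nat_lit 15) (.e (nat_lit 188452) (nat_lit 23) (.e (nat_lit 204863) (nat_lit 27) (.e (nat_lit 344103) (nat_lit 18) (.e (nat_lit 5818) (nat_lit 320) .nil))))))) (.g (nat_lit 5) .nil .nil))) 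
(.lf (nat_lit 22373) (.g (nat_lit 3720) (.e (nat_lit 1183) (nat_lit 87) (.e (nat_lit 57479) (nat_lit 28) (.e (nat_lit 557100) (nat_lit 13) (.e (nat_lit 172106) (nat_lit 10) (.e (nat_lit 434231) (nat_lit 23) (.e (nat_lit 532535) (nat_lit 9) (.e (nat_lit 336034) (nat_lit 4) (.e (nat_lit 123182) (nat_lit 264) .nil)))))))) (.g (nat_lit 5) .nil .nil)))) (.nd (nat_lit 5) 
(.lf (nat_lit 22357) (.g (nat_lit 2858) (.e (nat_lit 1183) (nat_lit 87) (.e (nat_lit 57479) (nat_lit 28) (.e (nat_lit 557095) (nat_lit 13) (.e (nat_lit 172097) (nat_lit 9) (.e (nat_lit 426140) (nat_lit 3) (.e (nat_lit 204855) (nat_lit 26) (.e (nat_lit 336030) (nat_lit 4) (.e (nat_lit 123185) (nat_lit 264) .nil)))))))) (.g (nat_lit 4) .nil .nil))) 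
(.lf (nat_lit 22389) (.g (nat_lit 4954) (.e (nat_lit 1183) (nat_lit 87) (.e (nat_lit 57479) (nat_lit 28) (.e (nat_lit 557101) (nat_lit 13) (.e (nat_lit 172097) (nat_lit 9) (.e (nat_lit 426125) (nat_lit 2) (.e (nat_lit 196666) (nat_lit 13) (.e (nat_lit 65574) (nat_lit 4) (.e (nat_lit 123184) (nat_lit 264) .nil)))))))) (.g (nat_lit 8) .nil .nil))))) (.nd (nat_lit 4) (.nd (nat_lit 5) 
(.lf (nat_lit 22349) (.g (nat_lit 4045) (.e (nat_lit 1183) (nat_lit 87) (.e (nat_lit 57478) (nat_lit 28) (.e (nat_lit 557109) (nat_lit 15) (.e (nat_lit 188458) (nat_lit 25) (.e (nat_lit 245791) (nat_lit 14) (.e (nat_lit 73736) (nat_lit 0) (.e (nat_lit 5818) (nat_lit 320) .nil))))))) (.g (nat_lit 5) .nil .nil))) 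
(.lf (nat_lit 22381) (.g (nat_lit 2405) (.e (nat_lit 1183) (nat_lit 87) (.e (nat_lit 57479) (nat_lit 28) (.e (nat_lit 557100) (nat_lit 13) (.e (nat_lit 172121) (nat_lit 13) .nil)))) .nil))) (.nd (nat_lit 5) 
(.lf (nat_lit 22365) (.g (nat_lit 3607) (.e (nat_lit 1183) (nat_lit 87) (.e (nat_lit 57479) (nat_lit 28) (.e (nat_lit 557100) (nat_lit 13) (.e (nat_lit 172106) (nat_lit 10) (.e (nat_lit 434231) (nat_lit 23) (.e (nat_lit 532527) (nat_lit 9) (.e (nat_lit 336032) (nat_lit 4) (.e (nat_lit 123184) (nat_lit 264) .nil)))))))) (.g (nat_lit 5) .nil .nil))) 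
(.lf (nat_lit 22397) (.g (nat_lit 3124) (.e (nat_lit 1183) (nat_lit 87) (.e (nat_lit 57479) (nat_lit 28) (.e (nat_lit 557101) (nat_lit 13) (.e (nat_lit 172097) (nat_lit 9) (.e (nat_lit 426140) (nat_lit 3) (.e (nat_lit 204862) (nat_lit 27) (.e (nat_lit 344104) (nat_lit 18) (.e (nat_lit 5818) (nat_lit 320) .nil)))))))) (.g (nat_lit 5) .nil .nil))))))) 
(.nd (nat_lit 2) (.nd (nat_lit 3) (.nd (nat_lit 4) (.nd (nat_lit 5) 
(.lf (nat_lit 22339) (.g (nat_lit 4466) (.e (nat_lit 1183) (nat_lit 87) (.e (nat_lit 57478) (nat_lit 28) (.e (nat_lit 557109) (nat_lit 15) (.e (nat_lit 188452) (nat_lit 23) (.e (nat_lit 204861) (nat_lit 26) .nil))))) .nil)) 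
(.lf (nat_lit 22371) (.g (nat_lit 4568) (.e (nat_lit 1183) (nat_lit 87) (.e (nat_lit 57479) (nat_lit 28) (.e (nat_lit 557100) (nat_lit 13) (.e (nat_lit 172106) (nat_lit 10) (.e (nat_lit 434231) (nat_lit 23) (.e (nat_lit 532535) (nat_lit 9) (.e (nat_lit 336030) (nat_lit 4) (.e (nat_lit 123184) (nat_lit 264) .nil)))))))) (.g (nat_lit 6) .nil .nil)))) (.nd (nat_lit 5) 
(.lf (nat_lit 22355) (.g (nat_lit 4499) (.e (nat_lit 1183) (nat_lit 87) (.e (nat_lit 57479) (nat_lit 28) (.e (nat_lit 557095) (nat_lit 13) (.e (nat_lit 172097) (nat_lit 9) (.e (nat_lit 426125) (nat_lit 2) (.e (nat_lit 196666) (nat_lit 13) (.e (nat_lit 65573) (nat_lit 4) (.e (nat_lit 123182) (nat_lit 264) .nil)))))))) (.g (nat_lit 6) .nil .nil))) 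
(.lf (nat_lit 22387) (.g (nat_lit 6039) (.e (nat_lit 1183) (nat_lit 87) (.e (nat_lit 57479) (nat_lit 28) (.e (nat_lit 557101) (nat_lit 13) (.e (nat_lit 172097) (nat_lit 9) (.e (nat_lit 426125) (nat_lit 2) (.e (nat_lit 196666) (nat_lit 13) (.e (nat_lit 65574) (nat_lit 4) (.e (nat_lit 123182) (nat_lit 264) .nil)))))))) (.g (nat_lit 0) .nil .nil))))) (.nd (nat_lit 4) (.nd (nat_lit 5) 
(.lf (nat_lit 22347) (.g (nat_lit 3267) (.e (nat_lit 1183) (nat_lit 87) (.e (nat_lit 57478) (nat_lit 28) (.e (nat_lit 557109) (nat_lit 15) (.e (nat_lit 188458) (nat_lit 25) (.e (nat_lit 245790) (nat_lit 13) .nil))))) .nil)) 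
(.lf (nat_lit 22379) (.g (nat_lit 2672) (.e (nat_lit 1183) (nat_lit 87) (.e (nat_lit 57479) (nat_lit 28) (.e (nat_lit 557100) (nat_lit 13) (.e (nat_lit 172113) (nat_lit 10) .nil)))) .nil))) (.nd (nat_lit 5) 
(.lf (nat_lit 22363) (.g (nat_lit 2340) (.e (nat_lit 1183) (nat_lit 87) (.e (nat_lit 57479) (nat_lit 28) (.e (nat_lit 557100) (nat_lit 13) (.e (nat_lit 172106) (nat_lit 10) (.e (nat_lit 434231) (nat_lit 23) (.e (nat_lit 532527) (nat_lit 9) (.e (nat_lit 336030) (nat_lit 4) (.e (nat_lit 123185) (nat_lit 264) .nil)))))))) (.g (nat_lit 4) .nil .nil))) 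
(.lf (nat_lit 22395) (.g (nat_lit 3455) (.e (nat_lit 1183) (nat_lit 87) (.e (nat_lit 57479) (nat_lit 28) (.e (nat_lit 557101) (nat_lit 13) (.e (nat_lit 172097) (nat_lit 9) (.e (nat_lit 426140) (nat_lit 3) (.e (nat_lit 204857) (nat_lit 26) (.e (nat_lit 336032) (nat_lit 4) (.e (nat_lit 123182) (nat_lit 264) .nil)))))))) (.g (nat_lit 5) .nil .nil)))))) 
(.nd (nat_lit 3) (.nd (nat_lit 4) (.nd (nat_lit 5) 
(.lf (nat_lit 22343) (.g (nat_lit 4359) (.e (nat_lit 1183) (nat_lit 87) (.e (nat_lit 57478) (nat_lit 28) (.e (nat_lit 557109) (nat_lit 15) (.e (nat_lit 188452) (nat_lit 23) (.e (nat_lit 204864) (nat_lit 27) (.e (nat_lit 344104) (nat_lit 18) (.e (nat_lit 5818) (nat_lit 320) .nil))))))) (.g (nat_lit 6) .nil .nil))) 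
(.lf (nat_lit 22375) (.g (nat_lit 3631) (.e (nat_lit 1183) (nat_lit 87) (.e (nat_lit 57479) (nat_lit 28) (.e (nat_lit 557100) (nat_lit 13) (.e (nat_lit 172106) (nat_lit 10) (.e (nat_lit 434231) (nat_lit 23) (.e (nat_lit 532537) (nat_lit 9) (.e (nat_lit 336032) (nat_lit 4) (.e (nat_lit 123182) (nat_lit 264) .nil)))))))) (.g (nat_lit 5) .nil .nil)))) (.nd (nat_lit 5) 
(.lf (nat_lit 22359) (.g (nat_lit 2220) (.e (nat_lit 1183) (nat_lit 87) (.e (nat_lit 57479) (nat_lit 28) (.e (nat_lit 557100) (nat_lit 13) (.e (nat_lit 172065) (nat_lit 3) .nil)))) .nil)) 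
(.lf (nat_lit 22391) (.g (nat_lit 5619) (.e (nat_lit 1183) (nat_lit 87) (.e (nat_lit 57479) (nat_lit 28) (.e (nat_lit 557101) (nat_lit 13) (.e (nat_lit 172097) (nat_lit 9) (.e (nat_lit 426140) (nat_lit 3) (.e (nat_lit 204855) (nat_lit 26) (.e (nat_lit 336030) (nat_lit 4) (.e (nat_lit 123182) (nat_lit 264) .nil)))))))) (.g (nat_lit 0) .nil .nil))))) (.nd (nat_lit 4) (.nd (nat_lit 5) 
(.lf (nat_lit 22351) (.g (nat_lit 1784) (.e (nat_lit 1183) (nat_lit 87) (.e (nat_lit 57478) (nat_lit 28) (.e (nat_lit 557109) (nat_lit 15) (.e (nat_lit 188461) (nat_lit 26) .nil)))) .nil)) 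
(.lf (nat_lit 22383) (.g (nat_lit 3497) (.e (nat_lit 1183) (nat_lit 87) (.e (nat_lit 57479) (nat_lit 28) (.e (nat_lit 557101) (nat_lit 13) (.e (nat_lit 172097) (nat_lit 9) (.e (nat_lit 426125) (nat_lit 2) (.e (nat_lit 196666) (nat_lit 13) (.e (nat_lit 65572) (nat_lit 4) (.e (nat_lit 123183) (nat_lit 264) .nil)))))))) (.g (nat_lit 6) .nil .nil)))) (.nd (nat_lit 5) 
(.lf (nat_lit 22367) (.g (nat_lit 4614) (.e (nat_lit 1183) (nat_lit 87) (.e (nat_lit 57479) (nat_lit 28) (.e (nat_lit 557100) (nat_lit 13) (.e (nat_lit 172106) (nat_lit 10) (.e (nat_lit 434231) (nat_lit 23) (.e (nat_lit 532529) (nat_lit 9) (.e (nat_lit 336036) (nat_lit 4) (.e (nat_lit 123182) (nat_lit 264) .nil)))))))) (.g (nat_lit 6) .nil .nil))) 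
(.lf (nat_lit 22399) (.g (nat_lit 1924) (.e (nat_lit 1183) (nat_lit 87) (.e (nat_lit 57479) (nat_lit 28) (.e (nat_lit 557101) (nat_lit 13) (.e (nat_lit 172115) (nat_lit 10) (.e (nat_lit 434231) (nat_lit 23) (.e (nat_lit 532525) (nat_lit 8) (.e (nat_lit 327692) (nat_lit 1) (.e (nat_lit 8433) (nat_lit 138) .nil)))))))) (.g (nat_lit 4) .nil .nil)))))))))

noncomputable def tv317 : DT := (.nd (nat_lit 0) (.nd (nat_lit 1) (.nd (nat_lit 2) (.nd (nat_lit 3) (.nd (nat_lit 4) (.nd (nat_lit 5) 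
(.lf (nat_lit 22400) (.g (nat_lit 2715) (.e (nat_lit 1183) (nat_lit 87) (.e (nat_lit 57479) (nat_lit 28) (.e (nat_lit 557101) (nat_lit 13) (.e (nat_lit 172115) (nat_lit 10) (.e (nat_lit 434231) (nat_lit 23) (.e (nat_lit 532527) (nat_lit 9) (.e (nat_lit 336030) (nat_lit 4) (.e (nat_lit 123182) (nat_lit 264) .nil)))))))) (.g (nat_lit 4) .nil .nil))) 
(.lf (nat_lit 22432) (.g (nat_lit 2848) (.e (nat_lit 1183) (nat_lit 87) (.e (nat_lit 57479) (nat_lit 28) (.e (nat_lit 557103) (nat_lit 14) (.e (nat_lit 180250) (nat_lit 10) (.e (nat_lit 573482) (nat_lit 13) (.e (nat_lit 65635) (nat_lit 15) (.e (nat_lit 3253) (nat_lit 197) (.e (nat_lit 532501) (nat_lit 1) (.e (nat_lit 57829) (nat_lit 250) .nil))))))))) (.g (nat_lit 4) .nil .nil)))) 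
(.nd (nat_lit 5) 
(.lf (nat_lit 22416) (.g (nat_lit 3877) (.e (nat_lit 1183) (nat_lit 87) (.e (nat_lit 57479) (nat_lit 28) (.e (nat_lit 557103) (nat_lit 14) (.e (nat_lit 180243) (nat_lit 5) (.e (nat_lit 532508) (nat_lit 2) (.e (nat_lit 114432) (nat_lit 3) (.e (nat_lit 163962) (nat_lit 25) (.e (nat_lit 532500) (nat_lit 1) (.e (nat_lit 57830) (nat_lit 250) .nil))))))))) (.g (nat_lit 4) .nil .nil))) 
(.lf (nat_lit 22448) (.g (nat_lit 2886) (.e (nat_lit 1183) (nat_lit 87) (.e (nat_lit 57479) (nat_lit 28) (.e (nat_lit 557103) (nat_lit 14) (.e (nat_lit 180250) (nat_lit 10) (.e (nat_lit 573482) (nat_lit 13) (.e (nat_lit 73472) (nat_lit 18) (.e (nat_lit 204830) (nat_lit 18) (.e (nat_lit 57829) (nat_lit 250) .nil)))))))) (.g (nat_lit 4) .nil .nil))))) (.nd (nat_lit 4) (.nd (nat_lit 5) 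
(.lf (nat_lit 22408) (.g (nat_lit 3491) (.e (nat_lit 1183) (nat_lit 87) (.e (nat_lit 57479) (nat_lit 28) (.e (nat_lit 557101) (nat_lit 13) (.e (nat_lit 172115) (nat_lit 10) (.e (nat_lit 434231) (nat_lit 23) (.e (nat_lit 532537) (nat_lit 9) (.e (nat_lit 336032) (nat_lit 4) (.e (nat_lit 123182) (nat_lit 264) .nil)))))))) (.g (nat_lit 5) .nil .nil))) 
(.lf (nat_lit 22440) (.g (nat_lit 3593) (.e (nat_lit 1183) (nat_lit 87) (.e (nat_lit 57479) (nat_lit 28) (.e (nat_lit 557103) (nat_lit 14) (.e (nat_lit 180250) (nat_lit 10) (.e (nat_lit 573482) (nat_lit 13) (.e (nat_lit 65640) (nat_lit 15) (.e (nat_lit 3253) (nat_lit 197) (.e (nat_lit 532504) (nat_lit 1) (.e (nat_lit 57829) (nat_lit 250) .nil))))))))) (.g (nat_lit 5) .nil .nil)))) 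
(.nd (nat_lit 5) 
(.lf (nat_lit 22424) (.g (nat_lit 3672) (.e (nat_lit 1183) (nat_lit 87) (.e (nat_lit 57479) (nat_lit 28) (.e (nat_lit 557103) (nat_lit 14) (.e (nat_lit 180250) (nat_lit 10) (.e (nat_lit 573481) (nat_lit 13) (.e (nat_lit 65637) (nat_lit 15) (.e (nat_lit 3253) (nat_lit 197) (.e (nat_lit 532501) (nat_lit 1) (.e (nat_lit 57829) (nat_lit 250) .nil))))))))) (.g (nat_lit 5) .nil .nil))) 
(.lf (nat_lit 22456) (.g (nat_lit 2773) (.e (nat_lit 1183) (nat_lit 87) (.e (nat_lit 57479) (nat_lit 28) (.e (nat_lit 557103) (nat_lit 14) (.e (nat_lit 180250) (nat_lit 10) (.e (nat_lit 573485) (nat_lit 13) (.e (nat_lit 65570) (nat_lit 3) (.e (nat_lit 98333) (nat_lit 18) (.e (nat_lit 164155) (nat_lit 152) .nil)))))))) (.g (nat_lit 4) .nil .nil)))))) 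
(.nd (nat_lit 3) (.nd (nat_lit 4) (.nd (nat_lit 5) 
(.lf (nat_lit 22404) (.g (nat_lit 5893) (.e (nat_lit 1183) (nat_lit 87) (.e (nat_lit 57479) (nat_lit 28) (.e (nat_lit 557101) (nat_lit 13) (.e (nat_lit 172115) (nat_lit 10) (.e (nat_lit 434231) (nat_lit 23) (.e (nat_lit 532535) (nat_lit 9) (.e (nat_lit 336030) (nat_lit 4) (.e (nat_lit 123182) (nat_lit 264) .nil)))))))) (.g (nat_lit 0) .nil .nil))) 
(.lf (nat_lit 22436) (.g (nat_lit 5484) (.e (nat_lit 1183) (nat_lit 87) (.e (nat_lit 57479) (nat_lit 28) (.e (nat_lit 557103) (nat_lit 14) (.e (nat_lit 180250) (nat_lit 10) (.e (nat_lit 573482) (nat_lit 13) (.e (nat_lit 65637) (nat_lit 15) (.e (nat_lit 3253) (nat_lit 197) (.e (nat_lit 532504) (nat_lit 1) (.e (nat_lit 57829) (nat_lit 250) .nil))))))))) (.g (nat_lit 7) .nil .nil)))) 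
(.nd (nat_lit 5) 
(.lf (nat_lit 22420) (.g (nat_lit 4819) (.e (nat_lit 1183) (nat_lit 87) (.e (nat_lit 57479) (nat_lit 28) (.e (nat_lit 557103) (nat_lit 14) (.e (nat_lit 180250) (nat_lit 10) (.e (nat_lit 573480) (nat_lit 13) (.e (nat_lit 65637) (nat_lit 15) (.e (nat_lit 3253) (nat_lit 197) (.e (nat_lit 532501) (nat_lit 1) (.e (nat_lit 57829) (nat_lit 250) .nil))))))))) (.g (nat_lit 7) .nil .nil))) 
(.lf (nat_lit 22452) (.g (nat_lit 3292) (.e (nat_lit 1183) (nat_lit 87) (.e (nat_lit 57479) (nat_lit 28) (.e (nat_lit 557103) (nat_lit 14) (.e (nat_lit 180250) (nat_lit 10) (.e (nat_lit 573484) (nat_lit 13) (.e (nat_lit 65642) (nat_lit 15) (.e (nat_lit 3253) (nat_lit 197) (.e (nat_lit 532504) (nat_lit 1) (.e (nat_lit 57830) (nat_lit 250) .nil))))))))) (.g (nat_lit 4) .nil .nil))))) 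
(.nd (nat_lit 4) (.nd (nat_lit 5) 
(.lf (nat_lit 22412) (.g (nat_lit 3065) (.e (nat_lit 1183) (nat_lit 87) (.e (nat_lit 57479) (nat_lit 28) (.e (nat_lit 557101) (nat_lit 13) (.e (nat_lit 172115) (nat_lit 10) (.e (nat_lit 434231) (nat_lit 23) (.e (nat_lit 532545) (nat_lit 10) (.e (nat_lit 344103) (nat_lit 18) (.e (nat_lit 5818) (nat_lit 320) .nil)))))))) (.g (nat_lit 5) .nil .nil))) 
(.lf (nat_lit 22444) (.g (nat_lit 3879) (.e (nat_lit 1183) (nat_lit 87) (.e (nat_lit 57479) (nat_lit 28) (.e (nat_lit 557103) (nat_lit 14) (.e (nat_lit 180250) (nat_lit 10) (.e (nat_lit 573482) (nat_lit 13) (.e (nat_lit 73472) (nat_lit 15) (.e (nat_lit 3253) (nat_lit 197) (.e (nat_lit 532504) (nat_lit 1) (.e (nat_lit 57829) (nat_lit 250) .nil))))))))) (.g (nat_lit 5) .nil .nil)))) 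
(.nd (nat_lit 5) 
(.lf (nat_lit 22428) (.g (nat_lit 3976) (.e (nat_lit 1183) (nat_lit 87) (.e (nat_lit 57479) (nat_lit 28) (.e (nat_lit 557103) (nat_lit 14) (.e (nat_lit 180250) (nat_lit 10) (.e (nat_lit 573481) (nat_lit 13) (.e (nat_lit 73472) (nat_lit 18) (.e (nat_lit 204831) (nat_lit 18) (.e (nat_lit 57830) (nat_lit 250) .nil)))))))) (.g (nat_lit 5) .nil .nil))) 
(.lf (nat_lit 22460) (.g (nat_lit 3179) (.e (nat_lit 1183) (nat_lit 87) (.e (nat_lit 57479) (nat_lit 28) (.e (nat_lit 557103) (nat_lit 14) (.e (nat_lit 180250) (nat_lit 10) (.e (nat_lit 573485) (nat_lit 13) (.e (nat_lit 65640) (nat_lit 15) (.e (nat_lit 3253) (nat_lit 197) (.e (nat_lit 532504) (nat_lit 1) (.e (nat_lit 57830) (nat_lit 250) .nil))))))))) (.g (nat_lit 4) .nil .nil))))))) 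
(.nd (nat_lit 2) (.nd (nat_lit 3) (.nd (nat_lit 4) (.nd (nat_lit 5) 
(.lf (nat_lit 22402) (.g (nat_lit 4725) (.e (nat_lit 1183) (nat_lit 87) (.e (nat_lit 57479) (nat_lit 28) (.e (nat_lit 557101) (nat_lit 13) (.e (nat_lit 172115) (nat_lit 10) (.e (nat_lit 434231) (nat_lit 23) (.e (nat_lit 532527) (nat_lit 9) (.e (nat_lit 336032) (nat_lit 4) (.e (nat_lit 123182) (nat_lit 264) .nil)))))))) (.g (nat_lit 6) .nil .nil))) 
(.lf (nat_lit 22434) (.g (nat_lit 5356) (.e (nat_lit 1183) (nat_lit 87) (.e (nat_lit 57479) (nat_lit 28) (.e (nat_lit 557103) (nat_lit 14) (.e (nat_lit 180250) (nat_lit 10) (.e (nat_lit 573482) (nat_lit 13) (.e (nat_lit 65637) (nat_lit 15) (.e (nat_lit 3253) (nat_lit 197) (.e (nat_lit 532501) (nat_lit 1) (.e (nat_lit 57829) (nat_lit 250) .nil))))))))) (.g (nat_lit 7) .nil .nil)))) 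
(.nd (nat_lit 5) 
(.lf (nat_lit 22418) (.g (nat_lit 2800) (.e (nat_lit 1183) (nat_lit 87) (.e (nat_lit 57479) (nat_lit 28) (.e (nat_lit 557103) (nat_lit 14) (.e (nat_lit 180250) (nat_lit 10) (.e (nat_lit 573480) (nat_lit 13) (.e (nat_lit 65571) (nat_lit 3) (.e (nat_lit 98334) (nat_lit 18) (.e (nat_lit 164159) (nat_lit 152) .nil)))))))) (.g (nat_lit 4) .nil .nil))) 
(.lf (nat_lit 22450) (.g (nat_lit 3621) (.e (nat_lit 1183) (nat_lit 87) (.e (nat_lit 57479) (nat_lit 28) (.e (nat_lit 557103) (nat_lit 14) (.e (nat_lit 180250) (nat_lit 10) (.e (nat_lit 573484) (nat_lit 13) (.e (nat_lit 65571) (nat_lit 3) (.e (nat_lit 98334) (nat_lit 18) (.e (nat_lit 164159) (nat_lit 152) .nil)))))))) (.g (nat_lit 5) .nil .nil))))) (.nd (nat_lit 4) (.nd (nat_lit 5) 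
(.lf (nat_lit 22410) (.g (nat_lit 3634) (.e (nat_lit 1183) (nat_lit 87) (.e (nat_lit 57479) (nat_lit 28) (.e (nat_lit 557101) (nat_lit 13) (.e (nat_lit 172115) (nat_lit 10) (.e (nat_lit 434231) (nat_lit 23) (.e (nat_lit 532543) (nat_lit 10) (.e (nat_lit 344104) (nat_lit 18) (.e (nat_lit 5818) (nat_lit 320) .nil)))))))) (.g (nat_lit 5) .nil .nil))) 
(.lf (nat_lit 22442) (.g (nat_lit 3871) (.e (nat_lit 1183) (nat_lit 87) (.e (nat_lit 57479) (nat_lit 28) (.e (nat_lit 557103) (nat_lit 14) (.e (nat_lit 180250) (nat_lit 10) (.e (nat_lit 573482) (nat_lit 13) (.e (nat_lit 73472) (nat_lit 15) (.e (nat_lit 3253) (nat_lit 197) (.e (nat_lit 532501) (nat_lit 1) (.e (nat_lit 57829) (nat_lit 250) .nil))))))))) (.g (nat_lit 5) .nil .nil)))) 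
(.nd (nat_lit 5) 
(.lf (nat_lit 22426) (.g (nat_lit 3328) (.e (nat_lit 1183) (nat_lit 87) (.e (nat_lit 57479) (nat_lit 28) (.e (nat_lit 557103) (nat_lit 14) (.e (nat_lit 180250) (nat_lit 10) (.e (nat_lit 573481) (nat_lit 13) (.e (nat_lit 65637) (nat_lit 15) (.e (nat_lit 3253) (nat_lit 197) (.e (nat_lit 532504) (nat_lit 1) (.e (nat_lit 57830) (nat_lit 250) .nil))))))))) (.g (nat_lit 4) .nil .nil))) 
(.lf (nat_lit 22458) (.g (nat_lit 3658) (.e (nat_lit 1183) (nat_lit 87) (.e (nat_lit 57479) (nat_lit 28) (.e (nat_lit 557103) (nat_lit 14) (.e (nat_lit 180250) (nat_lit 10) (.e (nat_lit 573485) (nat_lit 13) (.e (nat_lit 65640) (nat_lit 15) (.e (nat_lit 3253) (nat_lit 197) (.e (nat_lit 532501) (nat_lit 1) (.e (nat_lit 57830) (nat_lit 250) .nil))))))))) (.g (nat_lit 4) .nil .nil)))))) 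
(.nd (nat_lit 3) (.nd (nat_lit 4) (.nd (nat_lit 5) 
(.lf (nat_lit 22406) (.g (nat_lit 3916) (.e (nat_lit 1183) (nat_lit 87) (.e (nat_lit 57479) (nat_lit 28) (.e (nat_lit 557101) (nat_lit 13) (.e (nat_lit 172115) (nat_lit 10) (.e (nat_lit 434231) (nat_lit 23) (.e (nat_lit 532536) (nat_lit 9) (.e (nat_lit 336032) (nat_lit 4) (.e (nat_lit 123182) (nat_lit 264) .nil)))))))) (.g (nat_lit 5) .nil .nil))) 
(.lf (nat_lit 22438) (.g (nat_lit 3532) (.e (nat_lit 1183) (nat_lit 87) (.e (nat_lit 57479) (nat_lit 28) (.e (nat_lit 557103) (nat_lit 14) (.e (nat_lit 180250) (nat_lit 10) (.e (nat_lit 573482) (nat_lit 13) (.e (nat_lit 65640) (nat_lit 15) (.e (nat_lit 3253) (nat_lit 197) (.e (nat_lit 532501) (nat_lit 1) (.e (nat_lit 57829) (nat_lit 250) .nil))))))))) (.g (nat_lit 5) .nil .nil)))) 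
(.nd (nat_lit 5) 
(.lf (nat_lit 22422) (.g (nat_lit 4954) (.e (nat_lit 1183) (nat_lit 87) (.e (nat_lit 57479) (nat_lit 28) (.e (nat_lit 557103) (nat_lit 14) (.e (nat_lit 180250) (nat_lit 10) (.e (nat_lit 573480) (nat_lit 13) (.e (nat_lit 65637) (nat_lit 15) (.e (nat_lit 3253) (nat_lit 197) (.e (nat_lit 532504) (nat_lit 1) (.e (nat_lit 57829) (nat_lit 250) .nil))))))))) (.g (nat_lit 7) .nil .nil))) 
(.lf (nat_lit 22454) (.g (nat_lit 2998) (.e (nat_lit 1183) (nat_lit 87) (.e (nat_lit 57479) (nat_lit 28) (.e (nat_lit 557103) (nat_lit 14) (.e (nat_lit 180250) (nat_lit 10) (.e (nat_lit 573484) (nat_lit 13) (.e (nat_lit 73472) (nat_lit 15) (.e (nat_lit 3253) (nat_lit 197) (.e (nat_lit 532504) (nat_lit 1) (.e (nat_lit 57829) (nat_lit 250) .nil))))))))) (.g (nat_lit 4) .nil .nil))))) 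
(.nd (nat_lit 4) (.nd (nat_lit 5) 
(.lf (nat_lit 22414) (.g (nat_lit 3573) (.e (nat_lit 1183) (nat_lit 87) (.e (nat_lit 57479) (nat_lit 28) (.e (nat_lit 557103) (nat_lit 14) (.e (nat_lit 180243) (nat_lit 5) (.e (nat_lit 532508) (nat_lit 2) .nil))))) .nil)) 
(.lf (nat_lit 22446) (.g (nat_lit 3133) (.e (nat_lit 1183) (nat_lit 87) (.e (nat_lit 57479) (nat_lit 28) (.e (nat_lit 557103) (nat_lit 14) (.e (nat_lit 180250) (nat_lit 10) (.e (nat_lit 573482) (nat_lit 13) (.e (nat_lit 73472) (nat_lit 18) (.e (nat_lit 204829) (nat_lit 18) (.e (nat_lit 57829) (nat_lit 250) .nil)))))))) (.g (nat_lit 4) .nil .nil)))) (.nd (nat_lit 5) 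
(.lf (nat_lit 22430) (.g (nat_lit 2842) (.e (nat_lit 1183) (nat_lit 87) (.e (nat_lit 57479) (nat_lit 28) (.e (nat_lit 557103) (nat_lit 14) (.e (nat_lit 180250) (nat_lit 10) (.e (nat_lit 573482) (nat_lit 13) (.e (nat_lit 65570) (nat_lit 3) (.e (nat_lit 98333) (nat_lit 18) (.e (nat_lit 164155) (nat_lit 152) .nil)))))))) (.g (nat_lit 4) .nil .nil))) 
(.lf (nat_lit 22462) (.g (nat_lit 2961) (.e (nat_lit 1183) (nat_lit 87) (.e (nat_lit 57479) (nat_lit 28) (.e (nat_lit 557103) (nat_lit 14) (.e (nat_lit 180250) (nat_lit 10) (.e (nat_lit 573485) (nat_lit 13) (.e (nat_lit 73472) (nat_lit 15) (.e (nat_lit 3253) (nat_lit 197) (.e (nat_lit 532504) (nat_lit 1) (.e (nat_lit 57829) (nat_lit 250) .nil))))))))) (.g (nat_lit 4) .nil .nil)))))))) 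
(.nd (nat_lit 1) (.nd (nat_lit 2) (.nd (nat_lit 3) (.nd (nat_lit 4) (.nd (nat_lit 5) 
(.lf (nat_lit 22401) (.g (nat_lit 3584) (.e (nat_lit 1183) (nat_lit 87) (.e (nat_lit 57479) (nat_lit 28) (.e (nat_lit 557101) (nat_lit 13) (.e (nat_lit 172115) (nat_lit 10) (.e (nat_lit 434231) (nat_lit 23) (.e (nat_lit 532527) (nat_lit 9) (.e (nat_lit 336031) (nat_lit 4) (.e (nat_lit 123182) (nat_lit 264) .nil)))))))) (.g (nat_lit 5) .nil .nil))) 
(.lf (nat_lit 22433) (.g (nat_lit 2909) (.e (nat_lit 1183) (nat_lit 87) (.e (nat_lit 57479) (nat_lit 28) (.e (nat_lit 557103) (nat_lit 14) (.e (nat_lit 180250) (nat_lit 10) (.e (nat_lit 573482) (nat_lit 13) (.e (nat_lit 65635) (nat_lit 15) (.e (nat_lit 3253) (nat_lit 197) (.e (nat_lit 532504) (nat_lit 1) (.e (nat_lit 57829) (nat_lit 250) .nil))))))))) (.g (nat_lit 4) .nil .nil)))) 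
(.nd (nat_lit 5) 
(.lf (nat_lit 22417) (.g (nat_lit 2464) (.e (nat_lit 1183) (nat_lit 87) (.e (nat_lit 57479) (nat_lit 28) (.e (nat_lit 557103) (nat_lit 14) (.e (nat_lit 180244) (nat_lit 5) .nil)))) .nil)) 
(.lf (nat_lit 22449) (.g (nat_lit 4864) (.e (nat_lit 1183) (nat_lit 87) (.e (nat_lit 57479) (nat_lit 28) (.e (nat_lit 557103) (nat_lit 14) (.e (nat_lit 180250) (nat_lit 10) (.e (nat_lit 573484) (nat_lit 13) (.e (nat_lit 65569) (nat_lit 3) (.e (nat_lit 98334) (nat_lit 18) (.e (nat_lit 164159) (nat_lit 152) .nil)))))))) (.g (nat_lit 6) .nil .nil))))) (.nd (nat_lit 4) (.nd (nat_lit 5) 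
(.lf (nat_lit 22409) (.g (nat_lit 3478) (.e (nat_lit 1183) (nat_lit 87) (.e (nat_lit 57479) (nat_lit 28) (.e (nat_lit 557101) (nat_lit 13) (.e (nat_lit 172115) (nat_lit 10) (.e (nat_lit 434231) (nat_lit 23) (.e (nat_lit 532543) (nat_lit 10) (.e (nat_lit 344103) (nat_lit 18) (.e (nat_lit 5818) (nat_lit 320) .nil)))))))) (.g (nat_lit 5) .nil .nil))) 
(.lf (nat_lit 22441) (.g (nat_lit 3094) (.e (nat_lit 1183) (nat_lit 87) (.e (nat_lit 57479) (nat_lit 28) (.e (nat_lit 557103) (nat_lit 14) (.e (nat_lit 180250) (nat_lit 10) (.e (nat_lit 573482) (nat_lit 13) (.e (nat_lit 65640) (nat_lit 15) (.e (nat_lit 3253) (nat_lit 197) (.e (nat_lit 532504) (nat_lit 1) (.e (nat_lit 57830) (nat_lit 250) .nil))))))))) (.g (nat_lit 4) .nil .nil)))) 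
(.nd (nat_lit 5) 
(.lf (nat_lit 22425) (.g (nat_lit 3812) (.e (nat_lit 1183) (nat_lit 87) (.e (nat_lit 57479) (nat_lit 28) (.e (nat_lit 557103) (nat_lit 14) (.e (nat_lit 180250) (nat_lit 10) (.e (nat_lit 573481) (nat_lit 13) (.e (nat_lit 65637) (nat_lit 15) (.e (nat_lit 3253) (nat_lit 197) (.e (nat_lit 532504) (nat_lit 1) (.e (nat_lit 57829) (nat_lit 250) .nil))))))))) (.g (nat_lit 5) .nil .nil))) 
(.lf (nat_lit 22457) (.g (nat_lit 3617) (.e (nat_lit 1183) (nat_lit 87) (.e (nat_lit 57479) (nat_lit 28) (.e (nat_lit 557103) (nat_lit 14) (.e (nat_lit 180250) (nat_lit 10) (.e (nat_lit 573485) (nat_lit 13) (.e (nat_lit 65640) (nat_lit 15) (.e (nat_lit 3253) (nat_lit 197) (.e (nat_lit 532501) (nat_lit 1) (.e (nat_lit 57829) (nat_lit 250) .nil))))))))) (.g (nat_lit 5) .nil .nil)))))) 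
(.nd (nat_lit 3) (.nd (nat_lit 4) (.nd (nat_lit 5) 
(.lf (nat_lit 22405) (.g (nat_lit 3412) (.e (nat_lit 1183) (nat_lit 87) (.e (nat_lit 57479) (nat_lit 28) (.e (nat_lit 557101) (nat_lit 13) (.e (nat_lit 172115) (nat_lit 10) (.e (nat_lit 434231) (nat_lit 23) (.e (nat_lit 532535) (nat_lit 9) (.e (nat_lit 336030) (nat_lit 4) (.e (nat_lit 123183) (nat_lit 264) .nil)))))))) (.g (nat_lit 5) .nil .nil))) 
(.lf (nat_lit 22437) (.g (nat_lit 5000) (.e (nat_lit 1183) (nat_lit 87) (.e (nat_lit 57479) (nat_lit 28) (.e (nat_lit 557103) (nat_lit 14) (.e (nat_lit 180250) (nat_lit 10) (.e (nat_lit 573482) (nat_lit 13) (.e (nat_lit 65637) (nat_lit 15) (.e (nat_lit 3253) (nat_lit 197) (.e (nat_lit 532504) (nat_lit 1) (.e (nat_lit 57830) (nat_lit 250) .nil))))))))) (.g (nat_lit 6) .nil .nil)))) 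
(.nd (nat_lit 5) 
(.lf (nat_lit 22421) (.g (nat_lit 4821) (.e (nat_lit 1183) (nat_lit 87) (.e (nat_lit 57479) (nat_lit 28) (.e (nat_lit 557103) (nat_lit 14) (.e (nat_lit 180250) (nat_lit 10) (.e (nat_lit 573480) (nat_lit 13) (.e (nat_lit 65637) (nat_lit 15) (.e (nat_lit 3253) (nat_lit 197) (.e (nat_lit 532501) (nat_lit 1) (.e (nat_lit 57830) (nat_lit 250) .nil))))))))) (.g (nat_lit 6) .nil .nil))) 
(.lf (nat_lit 22453) (.g (nat_lit 2990) (.e (nat_lit 1183) (nat_lit 87) (.e (nat_lit 57479) (nat_lit 28) (.e (nat_lit 557103) (nat_lit 14) (.e (nat_lit 180250) (nat_lit 10) (.e (nat_lit 573484) (nat_lit 13) (.e (nat_lit 73472) (nat_lit 15) (.e (nat_lit 3253) (nat_lit 197) (.e (nat_lit 532501) (nat_lit 1) (.e (nat_lit 57829) (nat_lit 250) .nil))))))))) (.g (nat_lit 4) .nil .nil))))) 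
(.nd (nat_lit 4) (.nd (nat_lit 5) 
(.lf (nat_lit 22413) (.g (nat_lit 2703) (.e (nat_lit 1183) (nat_lit 87) (.e (nat_lit 57479) (nat_lit 28) (.e (nat_lit 557101) (nat_lit 13) (.e (nat_lit 172115) (nat_lit 10) (.e (nat_lit 434231) (nat_lit 23) (.e (nat_lit 532545) (nat_lit 10) (.e (nat_lit 344104) (nat_lit 18) (.e (nat_lit 5818) (nat_lit 320) .nil)))))))) (.g (nat_lit 4) .nil .nil))) 
(.lf (nat_lit 22445) (.g (nat_lit 3380) (.e (nat_lit 1183) (nat_lit 87) (.e (nat_lit 57479) (nat_lit 28) (.e (nat_lit 557103) (nat_lit 14) (.e (nat_lit 180250) (nat_lit 10) (.e (nat_lit 573482) (nat_lit 13) (.e (nat_lit 73472) (nat_lit 15) (.e (nat_lit 3253) (nat_lit 197) (.e (nat_lit 532504) (nat_lit 1) (.e (nat_lit 57830) (nat_lit 250) .nil))))))))) (.g (nat_lit 4) .nil .nil)))) 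
(.nd (nat_lit 5) 
(.lf (nat_lit 22429) (.g (nat_lit 4147) (.e (nat_lit 1183) (nat_lit 87) (.e (nat_lit 57479) (nat_lit 28) (.e (nat_lit 557103) (nat_lit 14) (.e (nat_lit 180250) (nat_lit 10) (.e (nat_lit 573482) (nat_lit 13) (.e (nat_lit 65569) (nat_lit 3) (.e (nat_lit 98334) (nat_lit 18) (.e (nat_lit 164159) (nat_lit 152) .nil)))))))) (.g (nat_lit 6) .nil .nil))) 
(.lf (nat_lit 22461) (.g (nat_lit 2953) (.e (nat_lit 1183) (nat_lit 87) (.e (nat_lit 57479) (nat_lit 28) (.e (nat_lit 557103) (nat_lit 14) (.e (nat_lit 180250) (nat_lit 10) (.e (nat_lit 573485) (nat_lit 13) (.e (nat_lit 73472) (nat_lit 15) (.e (nat_lit 3253) (nat_lit 197) (.e (nat_lit 532501) (nat_lit 1) (.e (nat_lit 57829) (nat_lit 250) .nil))))))))) (.g (nat_lit 4) .nil .nil))))))) 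
(.nd (nat_lit 2) (.nd (nat_lit 3) (.nd (nat_lit 4) (.nd (nat_lit 5) 
(.lf (nat_lit 22403) (.g (nat_lit 3395) (.e (nat_lit 1183) (nat_lit 87) (.e (nat_lit 57479) (nat_lit 28) (.e (nat_lit 557101) (nat_lit 13) (.e (nat_lit 172115) (nat_lit 10) (.e (nat_lit 434231) (nat_lit 23) (.e (nat_lit 532527) (nat_lit 9) (.e (nat_lit 336032) (nat_lit 4) (.e (nat_lit 123184) (nat_lit 264) .nil)))))))) (.g (nat_lit 5) .nil .nil))) 
(.lf (nat_lit 22435) (.g (nat_lit 5358) (.e (nat_lit 1183) (nat_lit 87) (.e (nat_lit 57479) (nat_lit 28) (.e (nat_lit 557103) (nat_lit 14) (.e (nat_lit 180250) (nat_lit 10) (.e (nat_lit 573482) (nat_lit 13) (.e (nat_lit 65637) (nat_lit 15) (.e (nat_lit 3253) (nat_lit 197) (.e (nat_lit 532501) (nat_lit 1) (.e (nat_lit 57830) (nat_lit 250) .nil))))))))) (.g (nat_lit 6) .nil .nil)))) 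
(.nd (nat_lit 5) 
(.lf (nat_lit 22419) (.g (nat_lit 3289) (.e (nat_lit 1183) (nat_lit 87) (.e (nat_lit 57479) (nat_lit 28) (.e (nat_lit 557103) (nat_lit 14) (.e (nat_lit 180250) (nat_lit 10) (.e (nat_lit 573480) (nat_lit 13) (.e (nat_lit 65636) (nat_lit 15) (.e (nat_lit 3249) (nat_lit 197) (.e (nat_lit 532504) (nat_lit 1) (.e (nat_lit 57829) (nat_lit 250) .nil))))))))) (.g (nat_lit 4) .nil .nil))) 
(.lf (nat_lit 22451) (.g (nat_lit 3695) (.e (nat_lit 1183) (nat_lit 87) (.e (nat_lit 57479) (nat_lit 28) (.e (nat_lit 557103) (nat_lit 14) (.e (nat_lit 180250) (nat_lit 10) (.e (nat_lit 573484) (nat_lit 13) (.e (nat_lit 65642) (nat_lit 15) (.e (nat_lit 3253) (nat_lit 197) (.e (nat_lit 532501) (nat_lit 1) (.e (nat_lit 57830) (nat_lit 250) .nil))))))))) (.g (nat_lit 4) .nil .nil))))) 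
(.nd (nat_lit 4) (.nd (nat_lit 5) 
(.lf (nat_lit 22411) (.g (nat_lit 3635) (.e (nat_lit 1183) (nat_lit 87) (.e (nat_lit 57479) (nat_lit 28) (.e (nat_lit 557101) (nat_lit 13) (.e (nat_lit 172115) (nat_lit 10) (.e (nat_lit 434231) (nat_lit 23) (.e (nat_lit 532544) (nat_lit 10) (.e (nat_lit 344103) (nat_lit 18) (.e (nat_lit 5818) (nat_lit 320) .nil)))))))) (.g (nat_lit 5) .nil .nil))) 
(.lf (nat_lit 22443) (.g (nat_lit 3912) (.e (nat_lit 1183) (nat_lit 87) (.e (nat_lit 57479) (nat_lit 28) (.e (nat_lit 557103) (nat_lit 14) (.e (nat_lit 180250) (nat_lit 10) (.e (nat_lit 573482) (nat_lit 13) (.e (nat_lit 73472) (nat_lit 15) (.e (nat_lit 3253) (nat_lit 197) (.e (nat_lit 532501) (nat_lit 1) (.e (nat_lit 57830) (nat_lit 250) .nil))))))))) (.g (nat_lit 5) .nil .nil)))) 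
(.nd (nat_lit 5) 
(.lf (nat_lit 22427) (.g (nat_lit 3838) (.e (nat_lit 1183) (nat_lit 87) (.e (nat_lit 57479) (nat_lit 28) (.e (nat_lit 557103) (nat_lit 14) (.e (nat_lit 180250) (nat_lit 10) (.e (nat_lit 573481) (nat_lit 13) (.e (nat_lit 73472) (nat_lit 18) (.e (nat_lit 204830) (nat_lit 18) (.e (nat_lit 57830) (nat_lit 250) .nil)))))))) (.g (nat_lit 5) .nil .nil))) 
(.lf (nat_lit 22459) (.g (nat_lit 3678) (.e (nat_lit 1183) (nat_lit 87) (.e (nat_lit 57479) (nat_lit 28) (.e (nat_lit 557103) (nat_lit 14) (.e (nat_lit 180250) (nat_lit 10) (.e (nat_lit 573485) (nat_lit 13) (.e (nat_lit 65640) (nat_lit 15) (.e (nat_lit 3253) (nat_lit 197) (.e (nat_lit 532504) (nat_lit 1) (.e (nat_lit 57829) (nat_lit 250) .nil))))))))) (.g (nat_lit 5) .nil .nil)))))) 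
(.nd (nat_lit 3) (.nd (nat_lit 4) (.nd (nat_lit 5) 
(.lf (nat_lit 22407) (.g (nat_lit 2586) (.e (nat_lit 1183) (nat_lit 87) (.e (nat_lit 57479) (nat_lit 28) (.e (nat_lit 557101) (nat_lit 13) (.e (nat_lit 172115) (nat_lit 10) (.e (nat_lit 434231) (nat_lit 23) (.e (nat_lit 532536) (nat_lit 9) (.e (nat_lit 336032) (nat_lit 4) (.e (nat_lit 123184) (nat_lit 264) .nil)))))))) (.g (nat_lit 4) .nil .nil))) 
(.lf (nat_lit 22439) (.g (nat_lit 3573) (.e (nat_lit 1183) (nat_lit 87) (.e (nat_lit 57479) (nat_lit 28) (.e (nat_lit 557103) (nat_lit 14) (.e (nat_lit 180250) (nat_lit 10) (.e (nat_lit 573482) (nat_lit 13) (.e (nat_lit 65640) (nat_lit 15) (.e (nat_lit 3253) (nat_lit 197) (.e (nat_lit 532501) (nat_lit 1) (.e (nat_lit 57830) (nat_lit 250) .nil))))))))) (.g (nat_lit 4) .nil .nil)))) 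
(.nd (nat_lit 5) 
(.lf (nat_lit 22423) (.g (nat_lit 4470) (.e (nat_lit 1183) (nat_lit 87) (.e (nat_lit 57479) (nat_lit 28) (.e (nat_lit 557103) (nat_lit 14) (.e (nat_lit 180250) (nat_lit 10) (.e (nat_lit 573480) (nat_lit 13) (.e (nat_lit 65637) (nat_lit 15) (.e (nat_lit 3253) (nat_lit 197) (.e (nat_lit 532504) (nat_lit 1) (.e (nat_lit 57830) (nat_lit 250) .nil))))))))) (.g (nat_lit 5) .nil .nil))) 
(.lf (nat_lit 22455) (.g (nat_lit 3839) (.e (nat_lit 1183) (nat_lit 87) (.e (nat_lit 57479) (nat_lit 28) (.e (nat_lit 557103) (nat_lit 14) (.e (nat_lit 180250) (nat_lit 10) (.e (nat_lit 573485) (nat_lit 13) (.e (nat_lit 65569) (nat_lit 3) (.e (nat_lit 98334) (nat_lit 18) (.e (nat_lit 164159) (nat_lit 152) .nil)))))))) (.g (nat_lit 6) .nil .nil))))) (.nd (nat_lit 4) (.nd (nat_lit 5) 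
(.lf (nat_lit 22415) (.g (nat_lit 3917) (.e (nat_lit 1183) (nat_lit 87) (.e (nat_lit 57479) (nat_lit 28) (.e (nat_lit 557103) (nat_lit 14) (.e (nat_lit 180243) (nat_lit 5) (.e (nat_lit 532508) (nat_lit 2) (.e (nat_lit 114432) (nat_lit 3) (.e (nat_lit 163962) (nat_lit 25) (.e (nat_lit 532500) (nat_lit 1) (.e (nat_lit 57829) (nat_lit 250) .nil))))))))) (.g (nat_lit 4) .nil .nil))) 
(.lf (nat_lit 22447) (.g (nat_lit 3314) (.e (nat_lit 1183) (nat_lit 87) (.e (nat_lit 57479) (nat_lit 28) (.e (nat_lit 557103) (nat_lit 14) (.e (nat_lit 180250) (nat_lit 10) (.e (nat_lit 573482) (nat_lit 13) (.e (nat_lit 73472) (nat_lit 18) (.e (nat_lit 204829) (nat_lit 18) (.e (nat_lit 57830) (nat_lit 250) .nil)))))))) (.g (nat_lit 4) .nil .nil)))) (.nd (nat_lit 5) 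
(.lf (nat_lit 22431) (.g (nat_lit 3217) (.e (nat_lit 1183) (nat_lit 87) (.e (nat_lit 57479) (nat_lit 28) (.e (nat_lit 557103) (nat_lit 14) (.e (nat_lit 180250) (nat_lit 10) (.e (nat_lit 573482) (nat_lit 13) (.e (nat_lit 65570) (nat_lit 3) (.e (nat_lit 98334) (nat_lit 18) (.e (nat_lit 164159) (nat_lit 152) .nil)))))))) (.g (nat_lit 5) .nil .nil))) 
(.lf (nat_lit 22463) (.g (nat_lit 2728) (.e (nat_lit 1183) (nat_lit 87) (.e (nat_lit 57479) (nat_lit 28) (.e (nat_lit 557103) (nat_lit 14) (.e (nat_lit 180250) (nat_lit 10) (.e (nat_lit 573487) (nat_lit 14) (.e (nat_lit 73746) (nat_lit 3) (.e (nat_lit 516119) (nat_lit 1) (.e (nat_lit 164155) (nat_lit 152) .nil)))))))) (.g (nat_lit 4) .nil .nil)))))))))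

noncomputable def tv318 : DT := (.nd (nat_lit 0) (.nd (nat_lit 1) (.nd (nat_lit 2) (.nd (nat_lit 3) (.nd (nat_lit 4) (.nd (nat_lit 5) 
(.lf (nat_lit 22464) (.g (nat_lit 3299) (.e (nat_lit 1183) (nat_lit 87) (.e (nat_lit 57479) (nat_lit 28) (.e (nat_lit 557103) (nat_lit 14) (.e (nat_lit 180250) (nat_lit 10) (.e (nat_lit 573487) (nat_lit 14) (.e (nat_lit 73747) (nat_lit 3) (.e (nat_lit 516115) (nat_lit 1) (.e (nat_lit 164155) (nat_lit 152) .nil)))))))) (.g (nat_lit 5) .nil .nil))) 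
(.lf (nat_lit 22496) (.g (nat_lit 3548) (.e (nat_lit 1183) (nat_lit 87) (.e (nat_lit 57479) (nat_lit 28) (.e (nat_lit 557105) (nat_lit 14) (.e (nat_lit 180252) (nat_lit 10) (.e (nat_lit 573451) (nat_lit 9) (.e (nat_lit 1634) (nat_lit 114) (.e (nat_lit 385068) (nat_lit 26) (.e (nat_lit 532501) (nat_lit 1) (.e (nat_lit 57830) (nat_lit 250) .nil))))))))) (.g (nat_lit 4) .nil .nil)))) 
(.nd (nat_lit 5) 
(.lf (nat_lit 22480) (.g (nat_lit 4379) (.e (nat_lit 1183) (nat_lit 87) (.e (nat_lit 57479) (nat_lit 28) (.e (nat_lit 557105) (nat_lit 14) (.e (nat_lit 180251) (nat_lit 10) (.e (nat_lit 573485) (nat_lit 13) (.e (nat_lit 65640) (nat_lit 15) (.e (nat_lit 3253) (nat_lit 197) (.e (nat_lit 532501) (nat_lit 1) (.e (nat_lit 57829) (nat_lit 250) .nil))))))))) (.g (nat_lit 7) .nil .nil))) 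
(.lf (nat_lit 22512) (.g (nat_lit 2856) (.e (nat_lit 1183) (nat_lit 87) (.e (nat_lit 57479) (nat_lit 28) (.e (nat_lit 557105) (nat_lit 14) (.e (nat_lit 180252) (nat_lit 10) (.e (nat_lit 573480) (nat_lit 13) (.e (nat_lit 73472) (nat_lit 18) (.e (nat_lit 204831) (nat_lit 18) (.e (nat_lit 57829) (nat_lit 250) .nil)))))))) (.g (nat_lit 4) .nil .nil))))) (.nd (nat_lit 4) (.nd (nat_lit 5) 
(.lf (nat_lit 22472) (.g (nat_lit 2711) (.e (nat_lit 1183) (nat_lit 87) (.e (nat_lit 57479) (nat_lit 28) (.e (nat_lit 557105) (nat_lit 14) (.e (nat_lit 180251) (nat_lit 10) (.e (nat_lit 573479) (nat_lit 13) (.e (nat_lit 65637) (nat_lit 15) (.e (nat_lit 3253) (nat_lit 197) (.e (nat_lit 532504) (nat_lit 1) (.e (nat_lit 57830) (nat_lit 250) .nil))))))))) (.g (nat_lit 4) .nil .nil))) 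
(.lf (nat_lit 22504) (.g (nat_lit 6309) (.e (nat_lit 1183) (nat_lit 87) (.e (nat_lit 57479) (nat_lit 28) (.e (nat_lit 557105) (nat_lit 14) (.e (nat_lit 180252) (nat_lit 10) (.e (nat_lit 573480) (nat_lit 13) (.e (nat_lit 65637) (nat_lit 15) (.e (nat_lit 3253) (nat_lit 197) (.e (nat_lit 532504) (nat_lit 1) (.e (nat_lit 57829) (nat_lit 250) .nil))))))))) (.g (nat_lit 9) .nil .nil)))) 
(.nd (nat_lit 5) 
(.lf (nat_lit 22488) (.g (nat_lit 3315) (.e (nat_lit 1183) (nat_lit 87) (.e (nat_lit 57479) (nat_lit 28) (.e (nat_lit 557105) (nat_lit 14) (.e (nat_lit 180252) (nat_lit 10) (.e (nat_lit 573449) (nat_lit 9) (.e (nat_lit 1642) (nat_lit 114) (.e (nat_lit 385068) (nat_lit 26) (.e (nat_lit 532504) (nat_lit 1) (.e (nat_lit 57829) (nat_lit 250) .nil))))))))) (.g (nat_lit 4) .nil .nil))) 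
(.lf (nat_lit 22520) (.g (nat_lit 5335) (.e (nat_lit 1183) (nat_lit 87) (.e (nat_lit 57479) (nat_lit 28) (.e (nat_lit 557105) (nat_lit 14) (.e (nat_lit 180252) (nat_lit 10) (.e (nat_lit 573481) (nat_lit 13) (.e (nat_lit 65637) (nat_lit 15) (.e (nat_lit 3253) (nat_lit 197) (.e (nat_lit 532504) (nat_lit 1) (.e (nat_lit 57830) (nat_lit 250) .nil))))))))) (.g (nat_lit 7) .nil .nil)))))) 
(.nd (nat_lit 3) (.nd (nat_lit 4) (.nd (nat_lit 5) 
(.lf (nat_lit 22468) (.g (nat_lit 2346) (.e (nat_lit 1183) (nat_lit 87) (.e (nat_lit 57479) (nat_lit 28) (.e (nat_lit 557105) (nat_lit 14) (.e (nat_lit 180251) (nat_lit 10) (.e (nat_lit 573479) (nat_lit 13) (.e (nat_lit 65571) (nat_lit 3) (.e (nat_lit 98334) (nat_lit 18) (.e (nat_lit 164159) (nat_lit 152) .nil)))))))) (.g (nat_lit 4) .nil .nil))) 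
(.lf (nat_lit 22500) (.g (nat_lit 4126) (.e (nat_lit 1183) (nat_lit 87) (.e (nat_lit 57479) (nat_lit 28) (.e (nat_lit 557105) (nat_lit 14) (.e (nat_lit 180252) (nat_lit 10) (.e (nat_lit 573480) (nat_lit 13) (.e (nat_lit 65571) (nat_lit 3) (.e (nat_lit 98334) (nat_lit 18) (.e (nat_lit 164159) (nat_lit 152) .nil)))))))) (.g (nat_lit 6) .nil .nil)))) (.nd (nat_lit 5) 
(.lf (nat_lit 22484) (.g (nat_lit 3351) (.e (nat_lit 1183) (nat_lit 87) (.e (nat_lit 57479) (nat_lit 28) (.e (nat_lit 557105) (nat_lit 14) (.e (nat_lit 180251) (nat_lit 10) (.e (nat_lit 573485) (nat_lit 13) (.e (nat_lit 73472) (nat_lit 15) (.e (nat_lit 3253) (nat_lit 197) (.e (nat_lit 532501) (nat_lit 1) (.e (nat_lit 57829) (nat_lit 250) .nil))))))))) (.g (nat_lit 5) .nil .nil))) 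
(.lf (nat_lit 22516) (.g (nat_lit 3470) (.e (nat_lit 1183) (nat_lit 87) (.e (nat_lit 57479) (nat_lit 28) (.e (nat_lit 557105) (nat_lit 14) (.e (nat_lit 180252) (nat_lit 10) (.e (nat_lit 573481) (nat_lit 13) (.e (nat_lit 65635) (nat_lit 15) (.e (nat_lit 3253) (nat_lit 197) (.e (nat_lit 532501) (nat_lit 1) (.e (nat_lit 57829) (nat_lit 250) .nil))))))))) (.g (nat_lit 4) .nil .nil))))) 
(.nd (nat_lit 4) (.nd (nat_lit 5) 
(.lf (nat_lit 22476) (.g (nat_lit 3452) (.e (nat_lit 1183) (nat_lit 87) (.e (nat_lit 57479) (nat_lit 28) (.e (nat_lit 557105) (nat_lit 14) (.e (nat_lit 180251) (nat_lit 10) (.e (nat_lit 573484) (nat_lit 13) (.e (nat_lit 65642) (nat_lit 15) (.e (nat_lit 3253) (nat_lit 197) (.e (nat_lit 532504) (nat_lit 1) (.e (nat_lit 57830) (nat_lit 250) .nil))))))))) (.g (nat_lit 4) .nil .nil))) 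
(.lf (nat_lit 22508) (.g (nat_lit 3098) (.e (nat_lit 1183) (nat_lit 87) (.e (nat_lit 57479) (nat_lit 28) (.e (nat_lit 557105) (nat_lit 14) (.e (nat_lit 180252) (nat_lit 10) (.e (nat_lit 573480) (nat_lit 13) (.e (nat_lit 73472) (nat_lit 15) (.e (nat_lit 3253) (nat_lit 197) (.e (nat_lit 532504) (nat_lit 1) (.e (nat_lit 57829) (nat_lit 250) .nil))))))))) (.g (nat_lit 4) .nil .nil)))) 
(.nd (nat_lit 5) 
(.lf (nat_lit 22492) (.g (nat_lit 3640) (.e (nat_lit 1183) (nat_lit 87) (.e (nat_lit 57479) (nat_lit 28) (.e (nat_lit 557105) (nat_lit 14) (.e (nat_lit 180252) (nat_lit 10) (.e (nat_lit 573451) (nat_lit 9) (.e (nat_lit 1630) (nat_lit 114) (.e (nat_lit 385068) (nat_lit 26) (.e (nat_lit 532501) (nat_lit 1) (.e (nat_lit 57829) (nat_lit 250) .nil))))))))) (.g (nat_lit 4) .nil .nil))) 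
(.lf (nat_lit 22524) (.g (nat_lit 3784) (.e (nat_lit 1183) (nat_lit 87) (.e (nat_lit 57479) (nat_lit 28) (.e (nat_lit 557105) (nat_lit 14) (.e (nat_lit 180252) (nat_lit 10) (.e (nat_lit 573481) (nat_lit 13) (.e (nat_lit 73472) (nat_lit 15) (.e (nat_lit 3253) (nat_lit 197) (.e (nat_lit 532504) (nat_lit 1) (.e (nat_lit 57829) (nat_lit 250) .nil))))))))) (.g (nat_lit 4) .nil .nil))))))) 
(.nd (nat_lit 2) (.nd (nat_lit 3) (.nd (nat_lit 4) (.nd (nat_lit 5) 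
(.lf (nat_lit 22466) (.g (nat_lit 3517) (.e (nat_lit 1183) (nat_lit 87) (.e (nat_lit 57479) (nat_lit 28) (.e (nat_lit 557103) (nat_lit 14) (.e (nat_lit 180250) (nat_lit 10) (.e (nat_lit 573487) (nat_lit 14) (.e (nat_lit 73747) (nat_lit 3) (.e (nat_lit 516119) (nat_lit 1) (.e (nat_lit 164155) (nat_lit 152) .nil)))))))) (.g (nat_lit 5) .nil .nil))) 
(.lf (nat_lit 22498) (.g (nat_lit 3629) (.e (nat_lit 1183) (nat_lit 87) (.e (nat_lit 57479) (nat_lit 28) (.e (nat_lit 557105) (nat_lit 14) (.e (nat_lit 180252) (nat_lit 10) (.e (nat_lit 573452) (nat_lit 9) (.e (nat_lit 1626) (nat_lit 114) (.e (nat_lit 385068) (nat_lit 26) (.e (nat_lit 532501) (nat_lit 1) (.e (nat_lit 57829) (nat_lit 250) .nil))))))))) (.g (nat_lit 4) .nil .nil)))) 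
(.nd (nat_lit 5) 
(.lf (nat_lit 22482) (.g (nat_lit 4440) (.e (nat_lit 1183) (nat_lit 87) (.e (nat_lit 57479) (nat_lit 28) (.e (nat_lit 557105) (nat_lit 14) (.e (nat_lit 180251) (nat_lit 10) (.e (nat_lit 573485) (nat_lit 13) (.e (nat_lit 65640) (nat_lit 15) (.e (nat_lit 3253) (nat_lit 197) (.e (nat_lit 532504) (nat_lit 1) (.e (nat_lit 57829) (nat_lit 250) .nil))))))))) (.g (nat_lit 7) .nil .nil))) 
(.lf (nat_lit 22514) (.g (nat_lit 3986) (.e (nat_lit 1183) (nat_lit 87) (.e (nat_lit 57479) (nat_lit 28) (.e (nat_lit 557105) (nat_lit 14) (.e (nat_lit 180252) (nat_lit 10) (.e (nat_lit 573481) (nat_lit 13) (.e (nat_lit 65570) (nat_lit 3) (.e (nat_lit 98333) (nat_lit 18) (.e (nat_lit 164155) (nat_lit 152) .nil)))))))) (.g (nat_lit 5) .nil .nil))))) (.nd (nat_lit 4) (.nd (nat_lit 5) 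
(.lf (nat_lit 22474) (.g (nat_lit 4800) (.e (nat_lit 1183) (nat_lit 87) (.e (nat_lit 57479) (nat_lit 28) (.e (nat_lit 557105) (nat_lit 14) (.e (nat_lit 180251) (nat_lit 10) (.e (nat_lit 573484) (nat_lit 13) (.e (nat_lit 65642) (nat_lit 15) (.e (nat_lit 3253) (nat_lit 197) (.e (nat_lit 532501) (nat_lit 1) (.e (nat_lit 57829) (nat_lit 250) .nil))))))))) (.g (nat_lit 5) .nil .nil))) 
(.lf (nat_lit 22506) (.g (nat_lit 2718) (.e (nat_lit 1183) (nat_lit 87) (.e (nat_lit 57479) (nat_lit 28) (.e (nat_lit 557105) (nat_lit 14) (.e (nat_lit 180252) (nat_lit 10) (.e (nat_lit 573480) (nat_lit 13) (.e (nat_lit 65642) (nat_lit 15) (.e (nat_lit 3253) (nat_lit 197) (.e (nat_lit 532504) (nat_lit 1) (.e (nat_lit 57829) (nat_lit 250) .nil))))))))) (.g (nat_lit 4) .nil .nil)))) 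
(.nd (nat_lit 5) 
(.lf (nat_lit 22490) (.g (nat_lit 4614) (.e (nat_lit 1183) (nat_lit 87) (.e (nat_lit 57479) (nat_lit 28) (.e (nat_lit 557105) (nat_lit 14) (.e (nat_lit 180252) (nat_lit 10) (.e (nat_lit 573451) (nat_lit 9) (.e (nat_lit 1626) (nat_lit 114) (.e (nat_lit 385068) (nat_lit 26) (.e (nat_lit 532501) (nat_lit 1) (.e (nat_lit 57830) (nat_lit 250) .nil))))))))) (.g (nat_lit 5) .nil .nil))) 
(.lf (nat_lit 22522) (.g (nat_lit 3901) (.e (nat_lit 1183) (nat_lit 87) (.e (nat_lit 57479) (nat_lit 28) (.e (nat_lit 557105) (nat_lit 14) (.e (nat_lit 180252) (nat_lit 10) (.e (nat_lit 573481) (nat_lit 13) (.e (nat_lit 65640) (nat_lit 15) (.e (nat_lit 3253) (nat_lit 197) (.e (nat_lit 532504) (nat_lit 1) (.e (nat_lit 57829) (nat_lit 250) .nil))))))))) (.g (nat_lit 4) .nil .nil)))))) 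
(.nd (nat_lit 3) (.nd (nat_lit 4) (.nd (nat_lit 5) 
(.lf (nat_lit 22470) (.g (nat_lit 3057) (.e (nat_lit 1183) (nat_lit 87) (.e (nat_lit 57479) (nat_lit 28) (.e (nat_lit 557105) (nat_lit 14) (.e (nat_lit 180251) (nat_lit 10) (.e (nat_lit 573479) (nat_lit 13) (.e (nat_lit 65637) (nat_lit 15) (.e (nat_lit 3253) (nat_lit 197) (.e (nat_lit 532501) (nat_lit 1) (.e (nat_lit 57830) (nat_lit 250) .nil))))))))) (.g (nat_lit 4) .nil .nil))) 
(.lf (nat_lit 22502) (.g (nat_lit 3170) (.e (nat_lit 1183) (nat_lit 87) (.e (nat_lit 57479) (nat_lit 28) (.e (nat_lit 557105) (nat_lit 14) (.e (nat_lit 180252) (nat_lit 10) (.e (nat_lit 573480) (nat_lit 13) (.e (nat_lit 65635) (nat_lit 15) (.e (nat_lit 3253) (nat_lit 197) (.e (nat_lit 532504) (nat_lit 1) (.e (nat_lit 57829) (nat_lit 250) .nil))))))))) (.g (nat_lit 4) .nil .nil)))) 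
(.nd (nat_lit 5) 
(.lf (nat_lit 22486) (.g (nat_lit 1432) (.e (nat_lit 1183) (nat_lit 87) (.e (nat_lit 57479) (nat_lit 28) (.e (nat_lit 557105) (nat_lit 14) (.e (nat_lit 180252) (nat_lit 10) .nil)))) .nil)) 
(.lf (nat_lit 22518) (.g (nat_lit 6665) (.e (nat_lit 1183) (nat_lit 87) (.e (nat_lit 57479) (nat_lit 28) (.e (nat_lit 557105) (nat_lit 14) (.e (nat_lit 180252) (nat_lit 10) (.e (nat_lit 573481) (nat_lit 13) (.e (nat_lit 65637) (nat_lit 15) (.e (nat_lit 3253) (nat_lit 197) (.e (nat_lit 532501) (nat_lit 1) (.e (nat_lit 57829) (nat_lit 250) .nil))))))))) (.g (nat_lit 9) .nil .nil))))) 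
(.nd (nat_lit 4) (.nd (nat_lit 5) 
(.lf (nat_lit 22478) (.g (nat_lit 3186) (.e (nat_lit 1183) (nat_lit 87) (.e (nat_lit 57479) (nat_lit 28) (.e (nat_lit 557105) (nat_lit 14) (.e (nat_lit 180251) (nat_lit 10) (.e (nat_lit 573485) (nat_lit 13) (.e (nat_lit 65570) (nat_lit 3) (.e (nat_lit 98333) (nat_lit 18) (.e (nat_lit 164155) (nat_lit 152) .nil)))))))) (.g (nat_lit 5) .nil .nil))) 
(.lf (nat_lit 22510) (.g (nat_lit 2692) (.e (nat_lit 1183) (nat_lit 87) (.e (nat_lit 57479) (nat_lit 28) (.e (nat_lit 557105) (nat_lit 14) (.e (nat_lit 180252) (nat_lit 10) (.e (nat_lit 573480) (nat_lit 13) (.e (nat_lit 73472) (nat_lit 18) (.e (nat_lit 204829) (nat_lit 18) (.e (nat_lit 57830) (nat_lit 250) .nil)))))))) (.g (nat_lit 4) .nil .nil)))) (.nd (nat_lit 5) 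
(.lf (nat_lit 22494) (.g (nat_lit 3808) (.e (nat_lit 1183) (nat_lit 87) (.e (nat_lit 57479) (nat_lit 28) (.e (nat_lit 557105) (nat_lit 14) (.e (nat_lit 180252) (nat_lit 10) (.e (nat_lit 573451) (nat_lit 9) (.e (nat_lit 1632) (nat_lit 114) (.e (nat_lit 385068) (nat_lit 26) (.e (nat_lit 532504) (nat_lit 1) (.e (nat_lit 57829) (nat_lit 250) .nil))))))))) (.g (nat_lit 4) .nil .nil))) 
(.lf (nat_lit 22526) (.g (nat_lit 3378) (.e (nat_lit 1183) (nat_lit 87) (.e (nat_lit 57479) (nat_lit 28) (.e (nat_lit 557105) (nat_lit 14) (.e (nat_lit 180252) (nat_lit 10) (.e (nat_lit 573481) (nat_lit 13) (.e (nat_lit 73472) (nat_lit 18) (.e (nat_lit 204829) (nat_lit 18) (.e (nat_lit 57830) (nat_lit 250) .nil)))))))) (.g (nat_lit 4) .nil .nil)))))))) 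
(.nd (nat_lit 1) (.nd (nat_lit 2) (.nd (nat_lit 3) (.nd (nat_lit 4) (.nd (nat_lit 5) 
(.lf (nat_lit 22465) (.g (nat_lit 3329) (.e (nat_lit 1183) (nat_lit 87) (.e (nat_lit 57479) (nat_lit 28) (.e (nat_lit 557103) (nat_lit 14) (.e (nat_lit 180250) (nat_lit 10) (.e (nat_lit 573487) (nat_lit 14) (.e (nat_lit 73747) (nat_lit 3) (.e (nat_lit 516117) (nat_lit 1) (.e (nat_lit 164159) (nat_lit 152) .nil)))))))) (.g (nat_lit 5) .nil .nil))) 
(.lf (nat_lit 22497) (.g (nat_lit 4527) (.e (nat_lit 1183) (nat_lit 87) (.e (nat_lit 57479) (nat_lit 28) (.e (nat_lit 557105) (nat_lit 14) (.e (nat_lit 180252) (nat_lit 10) (.e (nat_lit 573451) (nat_lit 9) (.e (nat_lit 1634) (nat_lit 114) (.e (nat_lit 385068) (nat_lit 26) (.e (nat_lit 532504) (nat_lit 1) (.e (nat_lit 57829) (nat_lit 250) .nil))))))))) (.g (nat_lit 5) .nil .nil)))) 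
(.nd (nat_lit 5) 
(.lf (nat_lit 22481) (.g (nat_lit 3434) (.e (nat_lit 1183) (nat_lit 87) (.e (nat_lit 57479) (nat_lit 28) (.e (nat_lit 557105) (nat_lit 14) (.e (nat_lit 180251) (nat_lit 10) (.e (nat_lit 573485) (nat_lit 13) (.e (nat_lit 65640) (nat_lit 15) (.e (nat_lit 3253) (nat_lit 197) (.e (nat_lit 532501) (nat_lit 1) (.e (nat_lit 57830) (nat_lit 250) .nil))))))))) (.g (nat_lit 5) .nil .nil))) 
(.lf (nat_lit 22513) (.g (nat_lit 4692) (.e (nat_lit 1183) (nat_lit 87) (.e (nat_lit 57479) (nat_lit 28) (.e (nat_lit 557105) (nat_lit 14) (.e (nat_lit 180252) (nat_lit 10) (.e (nat_lit 573481) (nat_lit 13) (.e (nat_lit 65569) (nat_lit 3) (.e (nat_lit 98334) (nat_lit 18) (.e (nat_lit 164159) (nat_lit 152) .nil)))))))) (.g (nat_lit 6) .nil .nil))))) (.nd (nat_lit 4) (.nd (nat_lit 5) 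
(.lf (nat_lit 22473) (.g (nat_lit 3633) (.e (nat_lit 1183) (nat_lit 87) (.e (nat_lit 57479) (nat_lit 28) (.e (nat_lit 557105) (nat_lit 14) (.e (nat_lit 180251) (nat_lit 10) (.e (nat_lit 573479) (nat_lit 13) (.e (nat_lit 73472) (nat_lit 18) (.e (nat_lit 204830) (nat_lit 18) (.e (nat_lit 57830) (nat_lit 250) .nil)))))))) (.g (nat_lit 5) .nil .nil))) 
(.lf (nat_lit 22505) (.g (nat_lit 4839) (.e (nat_lit 1183) (nat_lit 87) (.e (nat_lit 57479) (nat_lit 28) (.e (nat_lit 557105) (nat_lit 14) (.e (nat_lit 180252) (nat_lit 10) (.e (nat_lit 573480) (nat_lit 13) (.e (nat_lit 65637) (nat_lit 15) (.e (nat_lit 3253) (nat_lit 197) (.e (nat_lit 532504) (nat_lit 1) (.e (nat_lit 57830) (nat_lit 250) .nil))))))))) (.g (nat_lit 7) .nil .nil)))) 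
(.nd (nat_lit 5) 
(.lf (nat_lit 22489) (.g (nat_lit 2909) (.e (nat_lit 1183) (nat_lit 87) (.e (nat_lit 57479) (nat_lit 28) (.e (nat_lit 557105) (nat_lit 14) (.e (nat_lit 180252) (nat_lit 10) (.e (nat_lit 573451) (nat_lit 9) .nil))))) .nil)) 
(.lf (nat_lit 22521) (.g (nat_lit 3840) (.e (nat_lit 1183) (nat_lit 87) (.e (nat_lit 57479) (nat_lit 28) (.e (nat_lit 557105) (nat_lit 14) (.e (nat_lit 180252) (nat_lit 10) (.e (nat_lit 573481) (nat_lit 13) (.e (nat_lit 65640) (nat_lit 15) (.e (nat_lit 3253) (nat_lit 197) (.e (nat_lit 532501) (nat_lit 1) (.e (nat_lit 57829) (nat_lit 250) .nil))))))))) (.g (nat_lit 4) .nil .nil)))))) 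
(.nd (nat_lit 3) (.nd (nat_lit 4) (.nd (nat_lit 5) 
(.lf (nat_lit 22469) (.g (nat_lit 4041) (.e (nat_lit 1183) (nat_lit 87) (.e (nat_lit 57479) (nat_lit 28) (.e (nat_lit 557105) (nat_lit 14) (.e (nat_lit 180251) (nat_lit 10) (.e (nat_lit 573479) (nat_lit 13) (.e (nat_lit 65637) (nat_lit 15) (.e (nat_lit 3253) (nat_lit 197) (.e (nat_lit 532501) (nat_lit 1) (.e (nat_lit 57829) (nat_lit 250) .nil))))))))) (.g (nat_lit 6) .nil .nil))) 
(.lf (nat_lit 22501) (.g (nat_lit 3109) (.e (nat_lit 1183) (nat_lit 87) (.e (nat_lit 57479) (nat_lit 28) (.e (nat_lit 557105) (nat_lit 14) (.e (nat_lit 180252) (nat_lit 10) (.e (nat_lit 573480) (nat_lit 13) (.e (nat_lit 65635) (nat_lit 15) (.e (nat_lit 3253) (nat_lit 197) (.e (nat_lit 532501) (nat_lit 1) (.e (nat_lit 57829) (nat_lit 250) .nil))))))))) (.g (nat_lit 4) .nil .nil)))) 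
(.nd (nat_lit 5) 
(.lf (nat_lit 22485) (.g (nat_lit 3359) (.e (nat_lit 1183) (nat_lit 87) (.e (nat_lit 57479) (nat_lit 28) (.e (nat_lit 557105) (nat_lit 14) (.e (nat_lit 180251) (nat_lit 10) (.e (nat_lit 573485) (nat_lit 13) (.e (nat_lit 73472) (nat_lit 15) (.e (nat_lit 3253) (nat_lit 197) (.e (nat_lit 532504) (nat_lit 1) (.e (nat_lit 57829) (nat_lit 250) .nil))))))))) (.g (nat_lit 5) .nil .nil))) 
(.lf (nat_lit 22517) (.g (nat_lit 3531) (.e (nat_lit 1183) (nat_lit 87) (.e (nat_lit 57479) (nat_lit 28) (.e (nat_lit 557105) (nat_lit 14) (.e (nat_lit 180252) (nat_lit 10) (.e (nat_lit 573481) (nat_lit 13) (.e (nat_lit 65635) (nat_lit 15) (.e (nat_lit 3253) (nat_lit 197) (.e (nat_lit 532504) (nat_lit 1) (.e (nat_lit 57829) (nat_lit 250) .nil))))))))) (.g (nat_lit 4) .nil .nil))))) 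
(.nd (nat_lit 4) (.nd (nat_lit 5) 
(.lf (nat_lit 22477) (.g (nat_lit 3427) (.e (nat_lit 1183) (nat_lit 87) (.e (nat_lit 57479) (nat_lit 28) (.e (nat_lit 557105) (nat_lit 14) (.e (nat_lit 180251) (nat_lit 10) (.e (nat_lit 573484) (nat_lit 13) (.e (nat_lit 73472) (nat_lit 15) (.e (nat_lit 3253) (nat_lit 197) (.e (nat_lit 532501) (nat_lit 1) (.e (nat_lit 57829) (nat_lit 250) .nil))))))))) (.g (nat_lit 4) .nil .nil))) 
(.lf (nat_lit 22509) (.g (nat_lit 3497) (.e (nat_lit 1183) (nat_lit 87) (.e (nat_lit 57479) (nat_lit 28) (.e (nat_lit 557105) (nat_lit 14) (.e (nat_lit 180252) (nat_lit 10) (.e (nat_lit 573480) (nat_lit 13) (.e (nat_lit 73472) (nat_lit 18) (.e (nat_lit 204829) (nat_lit 18) (.e (nat_lit 57829) (nat_lit 250) .nil)))))))) (.g (nat_lit 4) .nil .nil)))) (.nd (nat_lit 5) 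
(.lf (nat_lit 22493) (.g (nat_lit 3362) (.e (nat_lit 1183) (nat_lit 87) (.e (nat_lit 57479) (nat_lit 28) (.e (nat_lit 557105) (nat_lit 14) (.e (nat_lit 180252) (nat_lit 10) (.e (nat_lit 573451) (nat_lit 9) (.e (nat_lit 1630) (nat_lit 114) (.e (nat_lit 385068) (nat_lit 26) (.e (nat_lit 532504) (nat_lit 1) (.e (nat_lit 57829) (nat_lit 250) .nil))))))))) (.g (nat_lit 4) .nil .nil))) 
(.lf (nat_lit 22525) (.g (nat_lit 4183) (.e (nat_lit 1183) (nat_lit 87) (.e (nat_lit 57479) (nat_lit 28) (.e (nat_lit 557105) (nat_lit 14) (.e (nat_lit 180252) (nat_lit 10) (.e (nat_lit 573481) (nat_lit 13) (.e (nat_lit 73472) (nat_lit 18) (.e (nat_lit 204829) (nat_lit 18) (.e (nat_lit 57829) (nat_lit 250) .nil)))))))) (.g (nat_lit 5) .nil .nil))))))) 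
(.nd (nat_lit 2) (.nd (nat_lit 3) (.nd (nat_lit 4) (.nd (nat_lit 5) 
(.lf (nat_lit 22467) (.g (nat_lit 2412) (.e (nat_lit 1183) (nat_lit 87) (.e (nat_lit 57479) (nat_lit 28) (.e (nat_lit 557105) (nat_lit 14) (.e (nat_lit 180251) (nat_lit 10) (.e (nat_lit 573479) (nat_lit 13) (.e (nat_lit 65569) (nat_lit 3) (.e (nat_lit 98334) (nat_lit 18) (.e (nat_lit 164159) (nat_lit 152) .nil)))))))) (.g (nat_lit 4) .nil .nil))) 
(.lf (nat_lit 22499) (.g (nat_lit 3351) (.e (nat_lit 1183) (nat_lit 87) (.e (nat_lit 57479) (nat_lit 28) (.e (nat_lit 557105) (nat_lit 14) (.e (nat_lit 180252) (nat_lit 10) (.e (nat_lit 573452) (nat_lit 9) (.e (nat_lit 1626) (nat_lit 114) (.e (nat_lit 385068) (nat_lit 26) (.e (nat_lit 532504) (nat_lit 1) (.e (nat_lit 57829) (nat_lit 250) .nil))))))))) (.g (nat_lit 4) .nil .nil)))) 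
(.nd (nat_lit 5) 
(.lf (nat_lit 22483) (.g (nat_lit 2955) (.e (nat_lit 1183) (nat_lit 87) (.e (nat_lit 57479) (nat_lit 28) (.e (nat_lit 557105) (nat_lit 14) (.e (nat_lit 180251) (nat_lit 10) (.e (nat_lit 573485) (nat_lit 13) (.e (nat_lit 65640) (nat_lit 15) (.e (nat_lit 3253) (nat_lit 197) (.e (nat_lit 532504) (nat_lit 1) (.e (nat_lit 57830) (nat_lit 250) .nil))))))))) (.g (nat_lit 4) .nil .nil))) 
(.lf (nat_lit 22515) (.g (nat_lit 3519) (.e (nat_lit 1183) (nat_lit 87) (.e (nat_lit 57479) (nat_lit 28) (.e (nat_lit 557105) (nat_lit 14) (.e (nat_lit 180252) (nat_lit 10) (.e (nat_lit 573481) (nat_lit 13) (.e (nat_lit 65571) (nat_lit 3) (.e (nat_lit 98333) (nat_lit 18) (.e (nat_lit 164155) (nat_lit 152) .nil)))))))) (.g (nat_lit 4) .nil .nil))))) (.nd (nat_lit 4) (.nd (nat_lit 5) 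
(.lf (nat_lit 22475) (.g (nat_lit 4937) (.e (nat_lit 1183) (nat_lit 87) (.e (nat_lit 57479) (nat_lit 28) (.e (nat_lit 557105) (nat_lit 14) (.e (nat_lit 180251) (nat_lit 10) (.e (nat_lit 573484) (nat_lit 13) (.e (nat_lit 65642) (nat_lit 15) (.e (nat_lit 3253) (nat_lit 197) (.e (nat_lit 532504) (nat_lit 1) (.e (nat_lit 57829) (nat_lit 250) .nil))))))))) (.g (nat_lit 5) .nil .nil))) 
(.lf (nat_lit 22507) (.g (nat_lit 3090) (.e (nat_lit 1183) (nat_lit 87) (.e (nat_lit 57479) (nat_lit 28) (.e (nat_lit 557105) (nat_lit 14) (.e (nat_lit 180252) (nat_lit 10) (.e (nat_lit 573480) (nat_lit 13) (.e (nat_lit 73472) (nat_lit 15) (.e (nat_lit 3253) (nat_lit 197) (.e (nat_lit 532501) (nat_lit 1) (.e (nat_lit 57829) (nat_lit 250) .nil))))))))) (.g (nat_lit 4) .nil .nil)))) 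
(.nd (nat_lit 5) 
(.lf (nat_lit 22491) (.g (nat_lit 3741) (.e (nat_lit 1183) (nat_lit 87) (.e (nat_lit 57479) (nat_lit 28) (.e (nat_lit 557105) (nat_lit 14) (.e (nat_lit 180252) (nat_lit 10) (.e (nat_lit 573451) (nat_lit 9) (.e (nat_lit 1626) (nat_lit 114) (.e (nat_lit 385068) (nat_lit 26) (.e (nat_lit 532504) (nat_lit 1) (.e (nat_lit 57830) (nat_lit 250) .nil))))))))) (.g (nat_lit 4) .nil .nil))) 
(.lf (nat_lit 22523) (.g (nat_lit 3776) (.e (nat_lit 1183) (nat_lit 87) (.e (nat_lit 57479) (nat_lit 28) (.e (nat_lit 557105) (nat_lit 14) (.e (nat_lit 180252) (nat_lit 10) (.e (nat_lit 573481) (nat_lit 13) (.e (nat_lit 73472) (nat_lit 15) (.e (nat_lit 3253) (nat_lit 197) (.e (nat_lit 532501) (nat_lit 1) (.e (nat_lit 57829) (nat_lit 250) .nil))))))))) (.g (nat_lit 4) .nil .nil)))))) 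
(.nd (nat_lit 3) (.nd (nat_lit 4) (.nd (nat_lit 5) 
(.lf (nat_lit 22471) (.g (nat_lit 4181) (.e (nat_lit 1183) (nat_lit 87) (.e (nat_lit 57479) (nat_lit 28) (.e (nat_lit 557105) (nat_lit 14) (.e (nat_lit 180251) (nat_lit 10) (.e (nat_lit 573479) (nat_lit 13) (.e (nat_lit 65637) (nat_lit 15) (.e (nat_lit 3253) (nat_lit 197) (.e (nat_lit 532504) (nat_lit 1) (.e (nat_lit 57829) (nat_lit 250) .nil))))))))) (.g (nat_lit 7) .nil .nil))) 
(.lf (nat_lit 22503) (.g (nat_lit 6174) (.e (nat_lit 1183) (nat_lit 87) (.e (nat_lit 57479) (nat_lit 28) (.e (nat_lit 557105) (nat_lit 14) (.e (nat_lit 180252) (nat_lit 10) (.e (nat_lit 573480) (nat_lit 13) (.e (nat_lit 65637) (nat_lit 15) (.e (nat_lit 3253) (nat_lit 197) (.e (nat_lit 532501) (nat_lit 1) (.e (nat_lit 57829) (nat_lit 250) .nil))))))))) (.g (nat_lit 9) .nil .nil)))) 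
(.nd (nat_lit 5) 
(.lf (nat_lit 22487) (.g (nat_lit 3593) (.e (nat_lit 1183) (nat_lit 87) (.e (nat_lit 57479) (nat_lit 28) (.e (nat_lit 557105) (nat_lit 14) (.e (nat_lit 180252) (nat_lit 10) (.e (nat_lit 573449) (nat_lit 9) (.e (nat_lit 1642) (nat_lit 114) (.e (nat_lit 385068) (nat_lit 26) (.e (nat_lit 532501) (nat_lit 1) (.e (nat_lit 57829) (nat_lit 250) .nil))))))))) (.g (nat_lit 4) .nil .nil))) 
(.lf (nat_lit 22519) (.g (nat_lit 6805) (.e (nat_lit 1183) (nat_lit 87) (.e (nat_lit 57479) (nat_lit 28) (.e (nat_lit 557105) (nat_lit 14) (.e (nat_lit 180252) (nat_lit 10) (.e (nat_lit 573481) (nat_lit 13) (.e (nat_lit 65637) (nat_lit 15) (.e (nat_lit 3253) (nat_lit 197) (.e (nat_lit 532504) (nat_lit 1) (.e (nat_lit 57829) (nat_lit 250) .nil))))))))) (.g (nat_lit 0) .nil .nil))))) 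
(.nd (nat_lit 4) (.nd (nat_lit 5) 
(.lf (nat_lit 22479) (.g (nat_lit 3568) (.e (nat_lit 1183) (nat_lit 87) (.e (nat_lit 57479) (nat_lit 28) (.e (nat_lit 557105) (nat_lit 14) (.e (nat_lit 180251) (nat_lit 10) (.e (nat_lit 573485) (nat_lit 13) (.e (nat_lit 65570) (nat_lit 3) (.e (nat_lit 98334) (nat_lit 18) (.e (nat_lit 164159) (nat_lit 152) .nil)))))))) (.g (nat_lit 6) .nil .nil))) 
(.lf (nat_lit 22511) (.g (nat_lit 3707) (.e (nat_lit 1183) (nat_lit 87) (.e (nat_lit 57479) (nat_lit 28) (.e (nat_lit 557105) (nat_lit 14) (.e (nat_lit 180252) (nat_lit 10) (.e (nat_lit 573480) (nat_lit 13) (.e (nat_lit 73472) (nat_lit 18) (.e (nat_lit 204830) (nat_lit 18) (.e (nat_lit 57829) (nat_lit 250) .nil)))))))) (.g (nat_lit 5) .nil .nil)))) (.nd (nat_lit 5) 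
(.lf (nat_lit 22495) (.g (nat_lit 4805) (.e (nat_lit 1183) (nat_lit 87) (.e (nat_lit 57479) (nat_lit 28) (.e (nat_lit 557105) (nat_lit 14) (.e (nat_lit 180252) (nat_lit 10) (.e (nat_lit 573451) (nat_lit 9) (.e (nat_lit 1634) (nat_lit 114) (.e (nat_lit 385068) (nat_lit 26) (.e (nat_lit 532501) (nat_lit 1) (.e (nat_lit 57829) (nat_lit 250) .nil))))))))) (.g (nat_lit 5) .nil .nil))) 
(.lf (nat_lit 22527) (.g (nat_lit 3985) (.e (nat_lit 1183) (nat_lit 87) (.e (nat_lit 57479) (nat_lit 28) (.e (nat_lit 557105) (nat_lit 14) (.e (nat_lit 180252) (nat_lit 10) (.e (nat_lit 573481) (nat_lit 13) (.e (nat_lit 73472) (nat_lit 18) (.e (nat_lit 204830) (nat_lit 18) (.e (nat_lit 57829) (nat_lit 250) .nil)))))))) (.g (nat_lit 4) .nil .nil)))))))))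

noncomputable def tv319 : DT := (.nd (nat_lit 0) (.nd (nat_lit 1) (.nd (nat_lit 2) (.nd (nat_lit 3) (.nd (nat_lit 4) (.nd (nat_lit 5) 
(.lf (nat_lit 22528) (.g (nat_lit 3184) (.e (nat_lit 1183) (nat_lit 87) (.e (nat_lit 57479) (nat_lit 28) (.e (nat_lit 557105) (nat_lit 14) (.e (nat_lit 180252) (nat_lit 10) (.e (nat_lit 573481) (nat_lit 13) (.e (nat_lit 73472) (nat_lit 18) (.e (nat_lit 204831) (nat_lit 18) (.e (nat_lit 57829) (nat_lit 250) .nil)))))))) (.g (nat_lit 4) .nil .nil))) 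
(.lf (nat_lit 22560) (.g (nat_lit 5211) (.e (nat_lit 1183) (nat_lit 87) (.e (nat_lit 57479) (nat_lit 28) (.e (nat_lit 557105) (nat_lit 14) (.e (nat_lit 180252) (nat_lit 10) (.e (nat_lit 573487) (nat_lit 14) (.e (nat_lit 73747) (nat_lit 3) (.e (nat_lit 516119) (nat_lit 1) (.e (nat_lit 164155) (nat_lit 152) .nil)))))))) (.g (nat_lit 7) .nil .nil)))) (.nd (nat_lit 5) 
(.lf (nat_lit 22544) (.g (nat_lit 5677) (.e (nat_lit 1183) (nat_lit 87) (.e (nat_lit 57479) (nat_lit 28) (.e (nat_lit 557105) (nat_lit 14) (.e (nat_lit 180252) (nat_lit 10) (.e (nat_lit 573482) (nat_lit 13) (.e (nat_lit 65640) (nat_lit 15) (.e (nat_lit 3253) (nat_lit 197) (.e (nat_lit 532504) (nat_lit 1) (.e (nat_lit 57829) (nat_lit 250) .nil))))))))) (.g (nat_lit 8) .nil .nil))) 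
(.lf (nat_lit 22576) (.g (nat_lit 3460) (.e (nat_lit 1183) (nat_lit 87) (.e (nat_lit 57479) (nat_lit 28) (.e (nat_lit 557105) (nat_lit 14) (.e (nat_lit 180252) (nat_lit 10) (.e (nat_lit 573489) (nat_lit 14) (.e (nat_lit 73755) (nat_lit 8) (.e (nat_lit 557089) (nat_lit 12) (.e (nat_lit 163846) (nat_lit 0) (.e (nat_lit 5071) (nat_lit 292) .nil))))))))) (.g (nat_lit 6) .nil .nil))))) 
(.nd (nat_lit 4) (.nd (nat_lit 5) 
(.lf (nat_lit 22536) (.g (nat_lit 3197) (.e (nat_lit 1183) (nat_lit 87) (.e (nat_lit 57479) (nat_lit 28) (.e (nat_lit 557105) (nat_lit 14) (.e (nat_lit 180252) (nat_lit 10) (.e (nat_lit 573482) (nat_lit 13) (.e (nat_lit 65636) (nat_lit 15) (.e (nat_lit 3249) (nat_lit 197) (.e (nat_lit 532504) (nat_lit 1) (.e (nat_lit 57830) (nat_lit 250) .nil))))))))) (.g (nat_lit 4) .nil .nil))) 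
(.lf (nat_lit 22568) (.g (nat_lit 3118) (.e (nat_lit 1183) (nat_lit 87) (.e (nat_lit 57479) (nat_lit 28) (.e (nat_lit 557105) (nat_lit 14) (.e (nat_lit 180252) (nat_lit 10) (.e (nat_lit 573489) (nat_lit 14) (.e (nat_lit 73748) (nat_lit 3) (.e (nat_lit 516115) (nat_lit 1) (.e (nat_lit 164148) (nat_lit 152) .nil)))))))) (.g (nat_lit 5) .nil .nil)))) (.nd (nat_lit 5) 
(.lf (nat_lit 22552) (.g (nat_lit 4263) (.e (nat_lit 1183) (nat_lit 87) (.e (nat_lit 57479) (nat_lit 28) (.e (nat_lit 557105) (nat_lit 14) (.e (nat_lit 180252) (nat_lit 10) (.e (nat_lit 573482) (nat_lit 13) (.e (nat_lit 73472) (nat_lit 18) (.e (nat_lit 204830) (nat_lit 18) (.e (nat_lit 57829) (nat_lit 250) .nil)))))))) (.g (nat_lit 5) .nil .nil))) 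
(.lf (nat_lit 22584) (.g (nat_lit 2439) (.e (nat_lit 1183) (nat_lit 87) (.e (nat_lit 57479) (nat_lit 28) (.e (nat_lit 557105) (nat_lit 14) (.e (nat_lit 180252) (nat_lit 10) (.e (nat_lit 573489) (nat_lit 14) (.e (nat_lit 73755) (nat_lit 8) (.e (nat_lit 557090) (nat_lit 12) (.e (nat_lit 163841) (nat_lit 0) (.e (nat_lit 5109) (nat_lit 292) .nil))))))))) (.g (nat_lit 4) .nil .nil)))))) 
(.nd (nat_lit 3) (.nd (nat_lit 4) (.nd (nat_lit 5) 
(.lf (nat_lit 22532) (.g (nat_lit 3402) (.e (nat_lit 1183) (nat_lit 87) (.e (nat_lit 57479) (nat_lit 28) (.e (nat_lit 557105) (nat_lit 14) (.e (nat_lit 180252) (nat_lit 10) (.e (nat_lit 573482) (nat_lit 13) (.e (nat_lit 65635) (nat_lit 15) (.e (nat_lit 3234) (nat_lit 197) (.e (nat_lit 532501) (nat_lit 1) (.e (nat_lit 57829) (nat_lit 250) .nil))))))))) (.g (nat_lit 4) .nil .nil))) 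
(.lf (nat_lit 22564) (.g (nat_lit 3816) (.e (nat_lit 1183) (nat_lit 87) (.e (nat_lit 57479) (nat_lit 28) (.e (nat_lit 557105) (nat_lit 14) (.e (nat_lit 180252) (nat_lit 10) (.e (nat_lit 573488) (nat_lit 14) (.e (nat_lit 73747) (nat_lit 3) (.e (nat_lit 516119) (nat_lit 1) (.e (nat_lit 164148) (nat_lit 152) .nil)))))))) (.g (nat_lit 4) .nil .nil)))) (.nd (nat_lit 5) 
(.lf (nat_lit 22548) (.g (nat_lit 4303) (.e (nat_lit 1183) (nat_lit 87) (.e (nat_lit 57479) (nat_lit 28) (.e (nat_lit 557105) (nat_lit 14) (.e (nat_lit 180252) (nat_lit 10) (.e (nat_lit 573482) (nat_lit 13) (.e (nat_lit 73472) (nat_lit 15) (.e (nat_lit 3253) (nat_lit 197) (.e (nat_lit 532501) (nat_lit 1) (.e (nat_lit 57830) (nat_lit 250) .nil))))))))) (.g (nat_lit 5) .nil .nil))) 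
(.lf (nat_lit 22580) (.g (nat_lit 4067) (.e (nat_lit 1183) (nat_lit 87) (.e (nat_lit 57479) (nat_lit 28) (.e (nat_lit 557105) (nat_lit 14) (.e (nat_lit 180252) (nat_lit 10) (.e (nat_lit 573489) (nat_lit 14) (.e (nat_lit 73755) (nat_lit 8) (.e (nat_lit 557090) (nat_lit 12) (.e (nat_lit 163840) (nat_lit 0) (.e (nat_lit 5062) (nat_lit 292) .nil))))))))) (.g (nat_lit 7) .nil .nil))))) 
(.nd (nat_lit 4) (.nd (nat_lit 5) 
(.lf (nat_lit 22540) (.g (nat_lit 5428) (.e (nat_lit 1183) (nat_lit 87) (.e (nat_lit 57479) (nat_lit 28) (.e (nat_lit 557105) (nat_lit 14) (.e (nat_lit 180252) (nat_lit 10) (.e (nat_lit 573482) (nat_lit 13) (.e (nat_lit 65637) (nat_lit 15) (.e (nat_lit 3253) (nat_lit 197) (.e (nat_lit 532504) (nat_lit 1) (.e (nat_lit 57830) (nat_lit 250) .nil))))))))) (.g (nat_lit 7) .nil .nil))) 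
(.lf (nat_lit 22572) (.g (nat_lit 3922) (.e (nat_lit 1183) (nat_lit 87) (.e (nat_lit 57479) (nat_lit 28) (.e (nat_lit 557105) (nat_lit 14) (.e (nat_lit 180252) (nat_lit 10) (.e (nat_lit 573489) (nat_lit 14) (.e (nat_lit 73755) (nat_lit 8) (.e (nat_lit 557065) (nat_lit 9) (.e (nat_lit 2612) (nat_lit 163) (.e (nat_lit 164297) (nat_lit 226) .nil))))))))) (.g (nat_lit 7) .nil .nil)))) 
(.nd (nat_lit 5) 
(.lf (nat_lit 22556) (.g (nat_lit 3038) (.e (nat_lit 1183) (nat_lit 87) (.e (nat_lit 57479) (nat_lit 28) (.e (nat_lit 557105) (nat_lit 14) (.e (nat_lit 180252) (nat_lit 10) (.e (nat_lit 573487) (nat_lit 14) (.e (nat_lit 73747) (nat_lit 3) (.e (nat_lit 516115) (nat_lit 1) (.e (nat_lit 171776) (nat_lit 152) .nil)))))))) (.g (nat_lit 4) .nil .nil))) 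
(.lf (nat_lit 22588) (.g (nat_lit 4170) (.e (nat_lit 1183) (nat_lit 87) (.e (nat_lit 57479) (nat_lit 28) (.e (nat_lit 557105) (nat_lit 14) (.e (nat_lit 180252) (nat_lit 10) (.e (nat_lit 573489) (nat_lit 14) (.e (nat_lit 73755) (nat_lit 8) (.e (nat_lit 557090) (nat_lit 12) (.e (nat_lit 163846) (nat_lit 0) (.e (nat_lit 5063) (nat_lit 292) .nil))))))))) (.g (nat_lit 7) .nil .nil))))))) 
(.nd (nat_lit 2) (.nd (nat_lit 3) (.nd (nat_lit 4) (.nd (nat_lit 5) 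
(.lf (nat_lit 22530) (.g (nat_lit 3093) (.e (nat_lit 1183) (nat_lit 87) (.e (nat_lit 57479) (nat_lit 28) (.e (nat_lit 557105) (nat_lit 14) (.e (nat_lit 180252) (nat_lit 10) (.e (nat_lit 573482) (nat_lit 13) (.e (nat_lit 65570) (nat_lit 3) (.e (nat_lit 98335) (nat_lit 18) (.e (nat_lit 164155) (nat_lit 152) .nil)))))))) (.g (nat_lit 4) .nil .nil))) 
(.lf (nat_lit 22562) (.g (nat_lit 4526) (.e (nat_lit 1183) (nat_lit 87) (.e (nat_lit 57479) (nat_lit 28) (.e (nat_lit 557105) (nat_lit 14) (.e (nat_lit 180252) (nat_lit 10) (.e (nat_lit 573488) (nat_lit 14) (.e (nat_lit 73747) (nat_lit 3) (.e (nat_lit 516115) (nat_lit 1) (.e (nat_lit 164148) (nat_lit 152) .nil)))))))) (.g (nat_lit 5) .nil .nil)))) (.nd (nat_lit 5) 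
(.lf (nat_lit 22546) (.g (nat_lit 3167) (.e (nat_lit 1183) (nat_lit 87) (.e (nat_lit 57479) (nat_lit 28) (.e (nat_lit 557105) (nat_lit 14) (.e (nat_lit 180252) (nat_lit 10) (.e (nat_lit 573482) (nat_lit 13) (.e (nat_lit 65641) (nat_lit 15) (.e (nat_lit 3253) (nat_lit 197) (.e (nat_lit 532504) (nat_lit 1) (.e (nat_lit 57829) (nat_lit 250) .nil))))))))) (.g (nat_lit 4) .nil .nil))) 
(.lf (nat_lit 22578) (.g (nat_lit 2420) (.e (nat_lit 1183) (nat_lit 87) (.e (nat_lit 57479) (nat_lit 28) (.e (nat_lit 557105) (nat_lit 14) (.e (nat_lit 180252) (nat_lit 10) (.e (nat_lit 573489) (nat_lit 14) (.e (nat_lit 73755) (nat_lit 8) (.e (nat_lit 557090) (nat_lit 12) (.e (nat_lit 163840) (nat_lit 0) (.e (nat_lit 5045) (nat_lit 292) .nil))))))))) (.g (nat_lit 4) .nil .nil))))) 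
(.nd (nat_lit 4) (.nd (nat_lit 5) 
(.lf (nat_lit 22538) (.g (nat_lit 5786) (.e (nat_lit 1183) (nat_lit 87) (.e (nat_lit 57479) (nat_lit 28) (.e (nat_lit 557105) (nat_lit 14) (.e (nat_lit 180252) (nat_lit 10) (.e (nat_lit 573482) (nat_lit 13) (.e (nat_lit 65637) (nat_lit 15) (.e (nat_lit 3253) (nat_lit 197) (.e (nat_lit 532501) (nat_lit 1) (.e (nat_lit 57830) (nat_lit 250) .nil))))))))) (.g (nat_lit 8) .nil .nil))) 
(.lf (nat_lit 22570) (.g (nat_lit 2274) (.e (nat_lit 1183) (nat_lit 87) (.e (nat_lit 57479) (nat_lit 28) (.e (nat_lit 557105) (nat_lit 14) (.e (nat_lit 180252) (nat_lit 10) (.e (nat_lit 573489) (nat_lit 14) (.e (nat_lit 73748) (nat_lit 3) (.e (nat_lit 516118) (nat_lit 1) (.e (nat_lit 164155) (nat_lit 152) .nil)))))))) (.g (nat_lit 4) .nil .nil)))) (.nd (nat_lit 5) 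
(.lf (nat_lit 22554) (.g (nat_lit 2826) (.e (nat_lit 1183) (nat_lit 87) (.e (nat_lit 57479) (nat_lit 28) (.e (nat_lit 557105) (nat_lit 14) (.e (nat_lit 180252) (nat_lit 10) (.e (nat_lit 573487) (nat_lit 14) .nil))))) .nil)) 
(.lf (nat_lit 22586) (.g (nat_lit 2404) (.e (nat_lit 1183) (nat_lit 87) (.e (nat_lit 57479) (nat_lit 28) (.e (nat_lit 557105) (nat_lit 14) (.e (nat_lit 180252) (nat_lit 10) (.e (nat_lit 573489) (nat_lit 14) (.e (nat_lit 73755) (nat_lit 8) (.e (nat_lit 557090) (nat_lit 12) (.e (nat_lit 163846) (nat_lit 0) (.e (nat_lit 5060) (nat_lit 292) .nil))))))))) (.g (nat_lit 4) .nil .nil)))))) 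
(.nd (nat_lit 3) (.nd (nat_lit 4) (.nd (nat_lit 5) 
(.lf (nat_lit 22534) (.g (nat_lit 4196) (.e (nat_lit 1183) (nat_lit 87) (.e (nat_lit 57479) (nat_lit 28) (.e (nat_lit 557105) (nat_lit 14) (.e (nat_lit 180252) (nat_lit 10) (.e (nat_lit 573482) (nat_lit 13) (.e (nat_lit 65635) (nat_lit 15) (.e (nat_lit 3253) (nat_lit 197) (.e (nat_lit 532501) (nat_lit 1) (.e (nat_lit 57830) (nat_lit 250) .nil))))))))) (.g (nat_lit 5) .nil .nil))) 
(.lf (nat_lit 22566) (.g (nat_lit 5343) (.e (nat_lit 1183) (nat_lit 87) (.e (nat_lit 57479) (nat_lit 28) (.e (nat_lit 557105) (nat_lit 14) (.e (nat_lit 180252) (nat_lit 10) (.e (nat_lit 573488) (nat_lit 14) (.e (nat_lit 73747) (nat_lit 3) (.e (nat_lit 516119) (nat_lit 1) (.e (nat_lit 164155) (nat_lit 152) .nil)))))))) (.g (nat_lit 7) .nil .nil)))) (.nd (nat_lit 5) 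
(.lf (nat_lit 22550) (.g (nat_lit 4510) (.e (nat_lit 1183) (nat_lit 87) (.e (nat_lit 57479) (nat_lit 28) (.e (nat_lit 557105) (nat_lit 14) (.e (nat_lit 180252) (nat_lit 10) (.e (nat_lit 573482) (nat_lit 13) (.e (nat_lit 73472) (nat_lit 18) (.e (nat_lit 204829) (nat_lit 18) (.e (nat_lit 57829) (nat_lit 250) .nil)))))))) (.g (nat_lit 5) .nil .nil))) 
(.lf (nat_lit 22582) (.g (nat_lit 4537) (.e (nat_lit 1183) (nat_lit 87) (.e (nat_lit 57479) (nat_lit 28) (.e (nat_lit 557105) (nat_lit 14) (.e (nat_lit 180252) (nat_lit 10) (.e (nat_lit 573489) (nat_lit 14) (.e (nat_lit 73755) (nat_lit 8) (.e (nat_lit 557090) (nat_lit 12) (.e (nat_lit 163840) (nat_lit 0) (.e (nat_lit 5071) (nat_lit 292) .nil))))))))) (.g (nat_lit 8) .nil .nil))))) 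
(.nd (nat_lit 4) (.nd (nat_lit 5) 
(.lf (nat_lit 22542) (.g (nat_lit 3205) (.e (nat_lit 1183) (nat_lit 87) (.e (nat_lit 57479) (nat_lit 28) (.e (nat_lit 557105) (nat_lit 14) (.e (nat_lit 180252) (nat_lit 10) (.e (nat_lit 573482) (nat_lit 13) (.e (nat_lit 65640) (nat_lit 15) (.e (nat_lit 3251) (nat_lit 197) (.e (nat_lit 532504) (nat_lit 1) (.e (nat_lit 57829) (nat_lit 250) .nil))))))))) (.g (nat_lit 4) .nil .nil))) 
(.lf (nat_lit 22574) (.g (nat_lit 3277) (.e (nat_lit 1183) (nat_lit 87) (.e (nat_lit 57479) (nat_lit 28) (.e (nat_lit 557105) (nat_lit 14) (.e (nat_lit 180252) (nat_lit 10) (.e (nat_lit 573489) (nat_lit 14) (.e (nat_lit 73755) (nat_lit 8) (.e (nat_lit 557089) (nat_lit 12) (.e (nat_lit 163846) (nat_lit 0) (.e (nat_lit 5062) (nat_lit 292) .nil))))))))) (.g (nat_lit 6) .nil .nil)))) (.nd (nat_lit 5) 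
(.lf (nat_lit 22558) (.g (nat_lit 3684) (.e (nat_lit 1183) (nat_lit 87) (.e (nat_lit 57479) (nat_lit 28) (.e (nat_lit 557105) (nat_lit 14) (.e (nat_lit 180252) (nat_lit 10) (.e (nat_lit 573487) (nat_lit 14) (.e (nat_lit 73747) (nat_lit 3) (.e (nat_lit 516119) (nat_lit 1) (.e (nat_lit 164148) (nat_lit 152) .nil)))))))) (.g (nat_lit 4) .nil .nil))) 
(.lf (nat_lit 22590) (.g (nat_lit 4156) (.e (nat_lit 1183) (nat_lit 87) (.e (nat_lit 57479) (nat_lit 28) (.e (nat_lit 557105) (nat_lit 14) (.e (nat_lit 180252) (nat_lit 10) (.e (nat_lit 573489) (nat_lit 14) (.e (nat_lit 73755) (nat_lit 8) (.e (nat_lit 557090) (nat_lit 12) (.e (nat_lit 163846) (nat_lit 0) (.e (nat_lit 5077) (nat_lit 292) .nil))))))))) (.g (nat_lit 7) .nil .nil)))))))) 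
(.nd (nat_lit 1) (.nd (nat_lit 2) (.nd (nat_lit 3) (.nd (nat_lit 4) (.nd (nat_lit 5) 
(.lf (nat_lit 22529) (.g (nat_lit 4061) (.e (nat_lit 1183) (nat_lit 87) (.e (nat_lit 57479) (nat_lit 28) (.e (nat_lit 557105) (nat_lit 14) (.e (nat_lit 180252) (nat_lit 10) (.e (nat_lit 573482) (nat_lit 13) (.e (nat_lit 65570) (nat_lit 3) (.e (nat_lit 98333) (nat_lit 18) (.e (nat_lit 164155) (nat_lit 152) .nil)))))))) (.g (nat_lit 5) .nil .nil))) 
(.lf (nat_lit 22561) (.g (nat_lit 2987) (.e (nat_lit 1183) (nat_lit 87) (.e (nat_lit 57479) (nat_lit 28) (.e (nat_lit 557105) (nat_lit 14) (.e (nat_lit 180252) (nat_lit 10) (.e (nat_lit 573487) (nat_lit 14) (.e (nat_lit 73747) (nat_lit 3) (.e (nat_lit 516119) (nat_lit 1) (.e (nat_lit 164157) (nat_lit 152) .nil)))))))) (.g (nat_lit 4) .nil .nil)))) (.nd (nat_lit 5) 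
(.lf (nat_lit 22545) (.g (nat_lit 4192) (.e (nat_lit 1183) (nat_lit 87) (.e (nat_lit 57479) (nat_lit 28) (.e (nat_lit 557105) (nat_lit 14) (.e (nat_lit 180252) (nat_lit 10) (.e (nat_lit 573482) (nat_lit 13) (.e (nat_lit 65640) (nat_lit 15) (.e (nat_lit 3253) (nat_lit 197) (.e (nat_lit 532504) (nat_lit 1) (.e (nat_lit 57830) (nat_lit 250) .nil))))))))) (.g (nat_lit 5) .nil .nil))) 
(.lf (nat_lit 22577) (.g (nat_lit 2896) (.e (nat_lit 1183) (nat_lit 87) (.e (nat_lit 57479) (nat_lit 28) (.e (nat_lit 557105) (nat_lit 14) (.e (nat_lit 180252) (nat_lit 10) (.e (nat_lit 573489) (nat_lit 14) (.e (nat_lit 73755) (nat_lit 8) (.e (nat_lit 557089) (nat_lit 12) (.e (nat_lit 163846) (nat_lit 0) (.e (nat_lit 5077) (nat_lit 292) .nil))))))))) (.g (nat_lit 5) .nil .nil))))) 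
(.nd (nat_lit 4) (.nd (nat_lit 5) 
(.lf (nat_lit 22537) (.g (nat_lit 6770) (.e (nat_lit 1183) (nat_lit 87) (.e (nat_lit 57479) (nat_lit 28) (.e (nat_lit 557105) (nat_lit 14) (.e (nat_lit 180252) (nat_lit 10) (.e (nat_lit 573482) (nat_lit 13) (.e (nat_lit 65637) (nat_lit 15) (.e (nat_lit 3253) (nat_lit 197) (.e (nat_lit 532501) (nat_lit 1) (.e (nat_lit 57829) (nat_lit 250) .nil))))))))) (.g (nat_lit 9) .nil .nil))) 
(.lf (nat_lit 22569) (.g (nat_lit 4443) (.e (nat_lit 1183) (nat_lit 87) (.e (nat_lit 57479) (nat_lit 28) (.e (nat_lit 557105) (nat_lit 14) (.e (nat_lit 180252) (nat_lit 10) (.e (nat_lit 573489) (nat_lit 14) (.e (nat_lit 73748) (nat_lit 3) (.e (nat_lit 516115) (nat_lit 1) (.e (nat_lit 164155) (nat_lit 152) .nil)))))))) (.g (nat_lit 7) .nil .nil)))) (.nd (nat_lit 5) 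
(.lf (nat_lit 22553) (.g (nat_lit 3509) (.e (nat_lit 1183) (nat_lit 87) (.e (nat_lit 57479) (nat_lit 28) (.e (nat_lit 557105) (nat_lit 14) (.e (nat_lit 180252) (nat_lit 10) (.e (nat_lit 573482) (nat_lit 13) (.e (nat_lit 73472) (nat_lit 18) (.e (nat_lit 204831) (nat_lit 18) (.e (nat_lit 57829) (nat_lit 250) .nil)))))))) (.g (nat_lit 4) .nil .nil))) 
(.lf (nat_lit 22585) (.g (nat_lit 4871) (.e (nat_lit 1183) (nat_lit 87) (.e (nat_lit 57479) (nat_lit 28) (.e (nat_lit 557105) (nat_lit 14) (.e (nat_lit 180252) (nat_lit 10) (.e (nat_lit 573489) (nat_lit 14) (.e (nat_lit 73755) (nat_lit 8) (.e (nat_lit 557090) (nat_lit 12) (.e (nat_lit 163842) (nat_lit 0) (.e (nat_lit 5109) (nat_lit 292) .nil))))))))) (.g (nat_lit 9) .nil .nil)))))) 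
(.nd (nat_lit 3) (.nd (nat_lit 4) (.nd (nat_lit 5) 
(.lf (nat_lit 22533) (.g (nat_lit 5141) (.e (nat_lit 1183) (nat_lit 87) (.e (nat_lit 57479) (nat_lit 28) (.e (nat_lit 557105) (nat_lit 14) (.e (nat_lit 180252) (nat_lit 10) (.e (nat_lit 573482) (nat_lit 13) (.e (nat_lit 65635) (nat_lit 15) (.e (nat_lit 3253) (nat_lit 197) (.e (nat_lit 532501) (nat_lit 1) (.e (nat_lit 57829) (nat_lit 250) .nil))))))))) (.g (nat_lit 6) .nil .nil))) 
(.lf (nat_lit 22565) (.g (nat_lit 3428) (.e (nat_lit 1183) (nat_lit 87) (.e (nat_lit 57479) (nat_lit 28) (.e (nat_lit 557105) (nat_lit 14) (.e (nat_lit 180252) (nat_lit 10) (.e (nat_lit 573488) (nat_lit 14) (.e (nat_lit 73747) (nat_lit 3) (.e (nat_lit 516119) (nat_lit 1) (.e (nat_lit 164154) (nat_lit 152) .nil)))))))) (.g (nat_lit 4) .nil .nil)))) (.nd (nat_lit 5) 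
(.lf (nat_lit 22549) (.g (nat_lit 3771) (.e (nat_lit 1183) (nat_lit 87) (.e (nat_lit 57479) (nat_lit 28) (.e (nat_lit 557105) (nat_lit 14) (.e (nat_lit 180252) (nat_lit 10) (.e (nat_lit 573482) (nat_lit 13) (.e (nat_lit 73472) (nat_lit 15) (.e (nat_lit 3253) (nat_lit 197) (.e (nat_lit 532504) (nat_lit 1) (.e (nat_lit 57830) (nat_lit 250) .nil))))))))) (.g (nat_lit 5) .nil .nil))) 
(.lf (nat_lit 22581) (.g (nat_lit 3896) (.e (nat_lit 1183) (nat_lit 87) (.e (nat_lit 57479) (nat_lit 28) (.e (nat_lit 557105) (nat_lit 14) (.e (nat_lit 180252) (nat_lit 10) (.e (nat_lit 573489) (nat_lit 14) (.e (nat_lit 73755) (nat_lit 8) (.e (nat_lit 557090) (nat_lit 12) (.e (nat_lit 163840) (nat_lit 0) (.e (nat_lit 5063) (nat_lit 292) .nil))))))))) (.g (nat_lit 7) .nil .nil))))) 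
(.nd (nat_lit 4) (.nd (nat_lit 5) 
(.lf (nat_lit 22541) (.g (nat_lit 2913) (.e (nat_lit 1183) (nat_lit 87) (.e (nat_lit 57479) (nat_lit 28) (.e (nat_lit 557105) (nat_lit 14) (.e (nat_lit 180252) (nat_lit 10) (.e (nat_lit 573482) (nat_lit 13) (.e (nat_lit 65640) (nat_lit 15) (.e (nat_lit 3234) (nat_lit 197) (.e (nat_lit 532501) (nat_lit 1) (.e (nat_lit 57829) (nat_lit 250) .nil))))))))) (.g (nat_lit 4) .nil .nil))) 
(.lf (nat_lit 22573) (.g (nat_lit 3172) (.e (nat_lit 1183) (nat_lit 87) (.e (nat_lit 57479) (nat_lit 28) (.e (nat_lit 557105) (nat_lit 14) (.e (nat_lit 180252) (nat_lit 10) (.e (nat_lit 573489) (nat_lit 14) (.e (nat_lit 73755) (nat_lit 8) (.e (nat_lit 557067) (nat_lit 9) (.e (nat_lit 2606) (nat_lit 163) (.e (nat_lit 164297) (nat_lit 226) .nil))))))))) (.g (nat_lit 6) .nil .nil)))) 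
(.nd (nat_lit 5) 
(.lf (nat_lit 22557) (.g (nat_lit 2854) (.e (nat_lit 1183) (nat_lit 87) (.e (nat_lit 57479) (nat_lit 28) (.e (nat_lit 557105) (nat_lit 14) (.e (nat_lit 180252) (nat_lit 10) (.e (nat_lit 573487) (nat_lit 14) (.e (nat_lit 73747) (nat_lit 3) (.e (nat_lit 516116) (nat_lit 1) (.e (nat_lit 164159) (nat_lit 152) .nil)))))))) (.g (nat_lit 4) .nil .nil))) 
(.lf (nat_lit 22589) (.g (nat_lit 4722) (.e (nat_lit 1183) (nat_lit 87) (.e (nat_lit 57479) (nat_lit 28) (.e (nat_lit 557105) (nat_lit 14) (.e (nat_lit 180252) (nat_lit 10) (.e (nat_lit 573489) (nat_lit 14) (.e (nat_lit 73755) (nat_lit 8) (.e (nat_lit 557090) (nat_lit 12) (.e (nat_lit 163846) (nat_lit 0) (.e (nat_lit 5071) (nat_lit 292) .nil))))))))) (.g (nat_lit 8) .nil .nil))))))) 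
(.nd (nat_lit 2) (.nd (nat_lit 3) (.nd (nat_lit 4) (.nd (nat_lit 5) 
(.lf (nat_lit 22531) (.g (nat_lit 4694) (.e (nat_lit 1183) (nat_lit 87) (.e (nat_lit 57479) (nat_lit 28) (.e (nat_lit 557105) (nat_lit 14) (.e (nat_lit 180252) (nat_lit 10) (.e (nat_lit 573482) (nat_lit 13) (.e (nat_lit 65571) (nat_lit 3) (.e (nat_lit 98334) (nat_lit 18) (.e (nat_lit 164159) (nat_lit 152) .nil)))))))) (.g (nat_lit 6) .nil .nil))) 
(.lf (nat_lit 22563) (.g (nat_lit 3472) (.e (nat_lit 1183) (nat_lit 87) (.e (nat_lit 57479) (nat_lit 28) (.e (nat_lit 557105) (nat_lit 14) (.e (nat_lit 180252) (nat_lit 10) (.e (nat_lit 573488) (nat_lit 14) (.e (nat_lit 73747) (nat_lit 3) (.e (nat_lit 516115) (nat_lit 1) (.e (nat_lit 171776) (nat_lit 152) .nil)))))))) (.g (nat_lit 4) .nil .nil)))) (.nd (nat_lit 5) 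
(.lf (nat_lit 22547) (.g (nat_lit 2746) (.e (nat_lit 1183) (nat_lit 87) (.e (nat_lit 57479) (nat_lit 28) (.e (nat_lit 557105) (nat_lit 14) (.e (nat_lit 180252) (nat_lit 10) (.e (nat_lit 573482) (nat_lit 13) (.e (nat_lit 73472) (nat_lit 15) (.e (nat_lit 3249) (nat_lit 197) (.e (nat_lit 532504) (nat_lit 1) (.e (nat_lit 57829) (nat_lit 250) .nil))))))))) (.g (nat_lit 4) .nil .nil))) 
(.lf (nat_lit 22579) (.g (nat_lit 2575) (.e (nat_lit 1183) (nat_lit 87) (.e (nat_lit 57479) (nat_lit 28) (.e (nat_lit 557105) (nat_lit 14) (.e (nat_lit 180252) (nat_lit 10) (.e (nat_lit 573489) (nat_lit 14) (.e (nat_lit 73755) (nat_lit 8) (.e (nat_lit 557090) (nat_lit 12) (.e (nat_lit 163840) (nat_lit 0) (.e (nat_lit 5060) (nat_lit 292) .nil))))))))) (.g (nat_lit 4) .nil .nil))))) 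
(.nd (nat_lit 4) (.nd (nat_lit 5) 
(.lf (nat_lit 22539) (.g (nat_lit 6898) (.e (nat_lit 1183) (nat_lit 87) (.e (nat_lit 57479) (nat_lit 28) (.e (nat_lit 557105) (nat_lit 14) (.e (nat_lit 180252) (nat_lit 10) (.e (nat_lit 573482) (nat_lit 13) (.e (nat_lit 65637) (nat_lit 15) (.e (nat_lit 3253) (nat_lit 197) (.e (nat_lit 532504) (nat_lit 1) (.e (nat_lit 57829) (nat_lit 250) .nil))))))))) (.g (nat_lit 9) .nil .nil))) 
(.lf (nat_lit 22571) (.g (nat_lit 2429) (.e (nat_lit 1183) (nat_lit 87) (.e (nat_lit 57479) (nat_lit 28) (.e (nat_lit 557105) (nat_lit 14) (.e (nat_lit 180252) (nat_lit 10) (.e (nat_lit 573489) (nat_lit 14) (.e (nat_lit 73748) (nat_lit 3) (.e (nat_lit 516119) (nat_lit 1) (.e (nat_lit 164148) (nat_lit 152) .nil)))))))) (.g (nat_lit 4) .nil .nil)))) (.nd (nat_lit 5) 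
(.lf (nat_lit 22555) (.g (nat_lit 3388) (.e (nat_lit 1183) (nat_lit 87) (.e (nat_lit 57479) (nat_lit 28) (.e (nat_lit 557105) (nat_lit 14) (.e (nat_lit 180252) (nat_lit 10) (.e (nat_lit 573487) (nat_lit 14) (.e (nat_lit 73747) (nat_lit 3) (.e (nat_lit 516115) (nat_lit 1) (.e (nat_lit 164159) (nat_lit 152) .nil)))))))) (.g (nat_lit 5) .nil .nil))) 
(.lf (nat_lit 22587) (.g (nat_lit 4550) (.e (nat_lit 1183) (nat_lit 87) (.e (nat_lit 57479) (nat_lit 28) (.e (nat_lit 557105) (nat_lit 14) (.e (nat_lit 180252) (nat_lit 10) (.e (nat_lit 573489) (nat_lit 14) (.e (nat_lit 73755) (nat_lit 8) (.e (nat_lit 557090) (nat_lit 12) (.e (nat_lit 163846) (nat_lit 0) (.e (nat_lit 5062) (nat_lit 292) .nil))))))))) (.g (nat_lit 7) .nil .nil)))))) 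
(.nd (nat_lit 3) (.nd (nat_lit 4) (.nd (nat_lit 5) 
(.lf (nat_lit 22535) (.g (nat_lit 5202) (.e (nat_lit 1183) (nat_lit 87) (.e (nat_lit 57479) (nat_lit 28) (.e (nat_lit 557105) (nat_lit 14) (.e (nat_lit 180252) (nat_lit 10) (.e (nat_lit 573482) (nat_lit 13) (.e (nat_lit 65635) (nat_lit 15) (.e (nat_lit 3253) (nat_lit 197) (.e (nat_lit 532504) (nat_lit 1) (.e (nat_lit 57829) (nat_lit 250) .nil))))))))) (.g (nat_lit 6) .nil .nil))) 
(.lf (nat_lit 22567) (.g (nat_lit 3240) (.e (nat_lit 1183) (nat_lit 87) (.e (nat_lit 57479) (nat_lit 28) (.e (nat_lit 557105) (nat_lit 14) (.e (nat_lit 180252) (nat_lit 10) (.e (nat_lit 573488) (nat_lit 14) (.e (nat_lit 73748) (nat_lit 3) (.e (nat_lit 516115) (nat_lit 1) (.e (nat_lit 164155) (nat_lit 152) .nil)))))))) (.g (nat_lit 4) .nil .nil)))) (.nd (nat_lit 5) 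
(.lf (nat_lit 22551) (.g (nat_lit 3705) (.e (nat_lit 1183) (nat_lit 87) (.e (nat_lit 57479) (nat_lit 28) (.e (nat_lit 557105) (nat_lit 14) (.e (nat_lit 180252) (nat_lit 10) (.e (nat_lit 573482) (nat_lit 13) (.e (nat_lit 73472) (nat_lit 18) (.e (nat_lit 204829) (nat_lit 18) (.e (nat_lit 57830) (nat_lit 250) .nil)))))))) (.g (nat_lit 5) .nil .nil))) 
(.lf (nat_lit 22583) (.g (nat_lit 3903) (.e (nat_lit 1183) (nat_lit 87) (.e (nat_lit 57479) (nat_lit 28) (.e (nat_lit 557105) (nat_lit 14) (.e (nat_lit 180252) (nat_lit 10) (.e (nat_lit 573489) (nat_lit 14) (.e (nat_lit 73755) (nat_lit 8) (.e (nat_lit 557090) (nat_lit 12) (.e (nat_lit 163840) (nat_lit 0) (.e (nat_lit 5077) (nat_lit 292) .nil))))))))) (.g (nat_lit 7) .nil .nil))))) 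
(.nd (nat_lit 4) (.nd (nat_lit 5) 
(.lf (nat_lit 22543) (.g (nat_lit 5616) (.e (nat_lit 1183) (nat_lit 87) (.e (nat_lit 57479) (nat_lit 28) (.e (nat_lit 557105) (nat_lit 14) (.e (nat_lit 180252) (nat_lit 10) (.e (nat_lit 573482) (nat_lit 13) (.e (nat_lit 65640) (nat_lit 15) (.e (nat_lit 3253) (nat_lit 197) (.e (nat_lit 532501) (nat_lit 1) (.e (nat_lit 57829) (nat_lit 250) .nil))))))))) (.g (nat_lit 8) .nil .nil))) 
(.lf (nat_lit 22575) (.g (nat_lit 2915) (.e (nat_lit 1183) (nat_lit 87) (.e (nat_lit 57479) (nat_lit 28) (.e (nat_lit 557105) (nat_lit 14) (.e (nat_lit 180252) (nat_lit 10) (.e (nat_lit 573489) (nat_lit 14) (.e (nat_lit 73755) (nat_lit 8) (.e (nat_lit 557089) (nat_lit 12) (.e (nat_lit 163846) (nat_lit 0) (.e (nat_lit 5063) (nat_lit 292) .nil))))))))) (.g (nat_lit 5) .nil .nil)))) (.nd (nat_lit 5) 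
(.lf (nat_lit 22559) (.g (nat_lit 3289) (.e (nat_lit 1183) (nat_lit 87) (.e (nat_lit 57479) (nat_lit 28) (.e (nat_lit 557105) (nat_lit 14) (.e (nat_lit 180252) (nat_lit 10) (.e (nat_lit 573487) (nat_lit 14) (.e (nat_lit 73747) (nat_lit 3) (.e (nat_lit 516119) (nat_lit 1) (.e (nat_lit 164154) (nat_lit 152) .nil)))))))) (.g (nat_lit 4) .nil .nil))) 
(.lf (nat_lit 22591) (.g (nat_lit 2489) (.e (nat_lit 1183) (nat_lit 87) (.e (nat_lit 57479) (nat_lit 28) (.e (nat_lit 557105) (nat_lit 14) (.e (nat_lit 180252) (nat_lit 10) (.e (nat_lit 573489) (nat_lit 14) (.e (nat_lit 73755) (nat_lit 8) (.e (nat_lit 557090) (nat_lit 12) (.e (nat_lit 163850) (nat_lit 0) (.e (nat_lit 5045) (nat_lit 292) .nil))))))))) (.g (nat_lit 4) .nil .nil)))))))))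

noncomputable def tv320 : DT := (.nd (nat_lit 0) (.nd (nat_lit 1) (.nd (nat_lit 2) (.nd (nat_lit 3) (.nd (nat_lit 4) (.nd (nat_lit 5) 
(.lf (nat_lit 22592) (.g (nat_lit 3425) (.e (nat_lit 1183) (nat_lit 87) (.e (nat_lit 57479) (nat_lit 28) (.e (nat_lit 557105) (nat_lit 14) (.e (nat_lit 180252) (nat_lit 10) (.e (nat_lit 573489) (nat_lit 14) (.e (nat_lit 73755) (nat_lit 8) (.e (nat_lit 557090) (nat_lit 12) (.e (nat_lit 163852) (nat_lit 0) (.e (nat_lit 5045) (nat_lit 292) .nil))))))))) (.g (nat_lit 6) .nil .nil))) 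
(.lf (nat_lit 22624) (.g (nat_lit 5609) (.e (nat_lit 1183) (nat_lit 87) (.e (nat_lit 57480) (nat_lit 28) (.e (nat_lit 557098) (nat_lit 13) (.e (nat_lit 172097) (nat_lit 9) (.e (nat_lit 426140) (nat_lit 3) (.e (nat_lit 204855) (nat_lit 26) (.e (nat_lit 336030) (nat_lit 4) (.e (nat_lit 123182) (nat_lit 264) .nil)))))))) (.g (nat_lit 0) .nil .nil)))) (.nd (nat_lit 5) 
(.lf (nat_lit 22608) (.g (nat_lit 2646) (.e (nat_lit 1183) (nat_lit 87) (.e (nat_lit 57479) (nat_lit 28) (.e (nat_lit 557109) (nat_lit 15) (.e (nat_lit 188458) (nat_lit 25) (.e (nat_lit 245784) (nat_lit 9) .nil))))) .nil)) 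
(.lf (nat_lit 22640) (.g (nat_lit 2457) (.e (nat_lit 1183) (nat_lit 87) (.e (nat_lit 57480) (nat_lit 28) (.e (nat_lit 557098) (nat_lit 13) (.e (nat_lit 172115) (nat_lit 10) (.e (nat_lit 434231) (nat_lit 23) (.e (nat_lit 532536) (nat_lit 9) (.e (nat_lit 336032) (nat_lit 4) (.e (nat_lit 123184) (nat_lit 264) .nil)))))))) (.g (nat_lit 4) .nil .nil))))) (.nd (nat_lit 4) (.nd (nat_lit 5) 
(.lf (nat_lit 22600) (.g (nat_lit 1952) (.e (nat_lit 1183) (nat_lit 87) (.e (nat_lit 57479) (nat_lit 28) (.e (nat_lit 557109) (nat_lit 15) (.e (nat_lit 196352) (nat_lit 18) .nil)))) .nil)) 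
(.lf (nat_lit 22632) (.g (nat_lit 2766) (.e (nat_lit 1183) (nat_lit 87) (.e (nat_lit 57480) (nat_lit 28) (.e (nat_lit 557098) (nat_lit 13) (.e (nat_lit 172115) (nat_lit 10) (.e (nat_lit 434231) (nat_lit 23) (.e (nat_lit 532527) (nat_lit 9) (.e (nat_lit 336030) (nat_lit 4) (.e (nat_lit 123182) (nat_lit 264) .nil)))))))) (.g (nat_lit 4) .nil .nil)))) (.nd (nat_lit 5) 
(.lf (nat_lit 22616) (.g (nat_lit 1952) (.e (nat_lit 1183) (nat_lit 87) (.e (nat_lit 57480) (nat_lit 28) (.e (nat_lit 557098) (nat_lit 13) (.e (nat_lit 172085) (nat_lit 9) .nil)))) .nil)) 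
(.lf (nat_lit 22648) (.g (nat_lit 3815) (.e (nat_lit 1183) (nat_lit 87) (.e (nat_lit 57480) (nat_lit 28) (.e (nat_lit 557103) (nat_lit 14) (.e (nat_lit 180243) (nat_lit 5) (.e (nat_lit 532508) (nat_lit 2) (.e (nat_lit 114432) (nat_lit 3) (.e (nat_lit 163962) (nat_lit 25) (.e (nat_lit 532500) (nat_lit 1) (.e (nat_lit 57830) (nat_lit 250) .nil))))))))) (.g (nat_lit 5) .nil .nil)))))) 
(.nd (nat_lit 3) (.nd (nat_lit 4) (.nd (nat_lit 5) 
(.lf (nat_lit 22596) (.g (nat_lit 910) (.e (nat_lit 1183) (nat_lit 87) (.e (nat_lit 57479) (nat_lit 28) (.e (nat_lit 557107) (nat_lit 15) .nil))) .nil)) 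
(.lf (nat_lit 22628) (.g (nat_lit 3434) (.e (nat_lit 1183) (nat_lit 87) (.e (nat_lit 57480) (nat_lit 28) (.e (nat_lit 557098) (nat_lit 13) (.e (nat_lit 172097) (nat_lit 9) (.e (nat_lit 426140) (nat_lit 3) (.e (nat_lit 204857) (nat_lit 26) (.e (nat_lit 336032) (nat_lit 4) (.e (nat_lit 123182) (nat_lit 264) .nil)))))))) (.g (nat_lit 5) .nil .nil)))) (.nd (nat_lit 5) 
(.lf (nat_lit 22612) (.g (nat_lit 4047) (.e (nat_lit 1183) (nat_lit 87) (.e (nat_lit 57479) (nat_lit 28) (.e (nat_lit 557109) (nat_lit 15) (.e (nat_lit 188461) (nat_lit 26) (.e (nat_lit 253959) (nat_lit 9) (.e (nat_lit 1181) (nat_lit 87) (.e (nat_lit 57848) (nat_lit 252) (.e (nat_lit 57365) (nat_lit 1) (.e (nat_lit 57829) (nat_lit 250) .nil))))))))) (.g (nat_lit 4) .nil .nil))) 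
(.lf (nat_lit 22644) (.g (nat_lit 2508) (.e (nat_lit 1183) (nat_lit 87) (.e (nat_lit 57480) (nat_lit 28) (.e (nat_lit 557098) (nat_lit 13) (.e (nat_lit 172115) (nat_lit 10) (.e (nat_lit 434231) (nat_lit 23) (.e (nat_lit 532545) (nat_lit 10) (.e (nat_lit 344103) (nat_lit 18) (.e (nat_lit 5818) (nat_lit 320) .nil)))))))) (.g (nat_lit 4) .nil .nil))))) (.nd (nat_lit 4) (.nd (nat_lit 5) 
(.lf (nat_lit 22604) (.g (nat_lit 3661) (.e (nat_lit 1183) (nat_lit 87) (.e (nat_lit 57479) (nat_lit 28) (.e (nat_lit 557109) (nat_lit 15) (.e (nat_lit 188452) (nat_lit 23) (.e (nat_lit 204849) (nat_lit 25) .nil))))) .nil)) 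
(.lf (nat_lit 22636) (.g (nat_lit 5976) (.e (nat_lit 1183) (nat_lit 87) (.e (nat_lit 57480) (nat_lit 28) (.e (nat_lit 557098) (nat_lit 13) (.e (nat_lit 172115) (nat_lit 10) (.e (nat_lit 434231) (nat_lit 23) (.e (nat_lit 532535) (nat_lit 9) (.e (nat_lit 336030) (nat_lit 4) (.e (nat_lit 123182) (nat_lit 264) .nil)))))))) (.g (nat_lit 0) .nil .nil)))) (.nd (nat_lit 5) 
(.lf (nat_lit 22620) (.g (nat_lit 3296) (.e (nat_lit 1183) (nat_lit 87) (.e (nat_lit 57480) (nat_lit 28) (.e (nat_lit 557098) (nat_lit 13) (.e (nat_lit 172097) (nat_lit 9) (.e (nat_lit 426125) (nat_lit 2) (.e (nat_lit 196666) (nat_lit 13) (.e (nat_lit 65573) (nat_lit 4) (.e (nat_lit 123185) (nat_lit 264) .nil)))))))) (.g (nat_lit 5) .nil .nil))) 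
(.lf (nat_lit 22652) (.g (nat_lit 3929) (.e (nat_lit 1183) (nat_lit 87) (.e (nat_lit 57480) (nat_lit 28) (.e (nat_lit 557103) (nat_lit 14) (.e (nat_lit 180250) (nat_lit 10) (.e (nat_lit 573480) (nat_lit 13) (.e (nat_lit 65637) (nat_lit 15) (.e (nat_lit 3253) (nat_lit 197) (.e (nat_lit 532504) (nat_lit 1) (.e (nat_lit 57829) (nat_lit 250) .nil))))))))) (.g (nat_lit 5) .nil .nil))))))) 
(.nd (nat_lit 2) (.nd (nat_lit 3) (.nd (nat_lit 4) (.nd (nat_lit 5) 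
(.lf (nat_lit 22594) (.g (nat_lit 3746) (.e (nat_lit 1183) (nat_lit 87) (.e (nat_lit 57479) (nat_lit 28) (.e (nat_lit 557105) (nat_lit 14) (.e (nat_lit 180252) (nat_lit 10) (.e (nat_lit 573497) (nat_lit 17) .nil))))) .nil)) 
(.lf (nat_lit 22626) (.g (nat_lit 3358) (.e (nat_lit 1183) (nat_lit 87) (.e (nat_lit 57480) (nat_lit 28) (.e (nat_lit 557098) (nat_lit 13) (.e (nat_lit 172097) (nat_lit 9) (.e (nat_lit 426140) (nat_lit 3) (.e (nat_lit 204855) (nat_lit 26) (.e (nat_lit 336034) (nat_lit 4) (.e (nat_lit 123182) (nat_lit 264) .nil)))))))) (.g (nat_lit 5) .nil .nil)))) (.nd (nat_lit 5) 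
(.lf (nat_lit 22610) (.g (nat_lit 2181) (.e (nat_lit 1183) (nat_lit 87) (.e (nat_lit 57479) (nat_lit 28) (.e (nat_lit 557109) (nat_lit 15) (.e (nat_lit 188461) (nat_lit 26) .nil)))) .nil)) 
(.lf (nat_lit 22642) (.g (nat_lit 2933) (.e (nat_lit 1183) (nat_lit 87) (.e (nat_lit 57480) (nat_lit 28) (.e (nat_lit 557098) (nat_lit 13) (.e (nat_lit 172115) (nat_lit 10) (.e (nat_lit 434231) (nat_lit 23) (.e (nat_lit 532543) (nat_lit 10) (.e (nat_lit 344103) (nat_lit 18) (.e (nat_lit 5818) (nat_lit 320) .nil)))))))) (.g (nat_lit 4) .nil .nil))))) (.nd (nat_lit 4) (.nd (nat_lit 5) 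
(.lf (nat_lit 22602) (.g (nat_lit 3359) (.e (nat_lit 1183) (nat_lit 87) (.e (nat_lit 57479) (nat_lit 28) (.e (nat_lit 557109) (nat_lit 15) (.e (nat_lit 188452) (nat_lit 23) (.e (nat_lit 204816) (nat_lit 17) .nil))))) .nil)) 
(.lf (nat_lit 22634) (.g (nat_lit 4732) (.e (nat_lit 1183) (nat_lit 87) (.e (nat_lit 57480) (nat_lit 28) (.e (nat_lit 557098) (nat_lit 13) (.e (nat_lit 172115) (nat_lit 10) (.e (nat_lit 434231) (nat_lit 23) (.e (nat_lit 532527) (nat_lit 9) (.e (nat_lit 336032) (nat_lit 4) (.e (nat_lit 123182) (nat_lit 264) .nil)))))))) (.g (nat_lit 6) .nil .nil)))) (.nd (nat_lit 5) 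
(.lf (nat_lit 22618) (.g (nat_lit 5862) (.e (nat_lit 1183) (nat_lit 87) (.e (nat_lit 57480) (nat_lit 28) (.e (nat_lit 557098) (nat_lit 13) (.e (nat_lit 172097) (nat_lit 9) (.e (nat_lit 426125) (nat_lit 2) (.e (nat_lit 196666) (nat_lit 13) (.e (nat_lit 65572) (nat_lit 4) (.e (nat_lit 123182) (nat_lit 264) .nil)))))))) (.g (nat_lit 0) .nil .nil))) 
(.lf (nat_lit 22650) (.g (nat_lit 3801) (.e (nat_lit 1183) (nat_lit 87) (.e (nat_lit 57480) (nat_lit 28) (.e (nat_lit 557103) (nat_lit 14) (.e (nat_lit 180250) (nat_lit 10) (.e (nat_lit 573480) (nat_lit 13) (.e (nat_lit 65637) (nat_lit 15) (.e (nat_lit 3253) (nat_lit 197) (.e (nat_lit 532501) (nat_lit 1) (.e (nat_lit 57829) (nat_lit 250) .nil))))))))) (.g (nat_lit 5) .nil .nil)))))) 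
(.nd (nat_lit 3) (.nd (nat_lit 4) (.nd (nat_lit 5) 
(.lf (nat_lit 22598) (.g (nat_lit 3074) (.e (nat_lit 1183) (nat_lit 87) (.e (nat_lit 57479) (nat_lit 28) (.e (nat_lit 557107) (nat_lit 15) (.e (nat_lit 188459) (nat_lit 26) .nil)))) .nil)) 
(.lf (nat_lit 22630) (.g (nat_lit 2499) (.e (nat_lit 1183) (nat_lit 87) (.e (nat_lit 57480) (nat_lit 28) (.e (nat_lit 557098) (nat_lit 13) (.e (nat_lit 172097) (nat_lit 9) (.e (nat_lit 426140) (nat_lit 3) (.e (nat_lit 204862) (nat_lit 27) (.e (nat_lit 344104) (nat_lit 18) (.e (nat_lit 5818) (nat_lit 320) .nil)))))))) (.g (nat_lit 4) .nil .nil)))) (.nd (nat_lit 5) 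
(.lf (nat_lit 22614) (.g (nat_lit 3670) (.e (nat_lit 1183) (nat_lit 87) (.e (nat_lit 57479) (nat_lit 28) (.e (nat_lit 557109) (nat_lit 15) (.e (nat_lit 188461) (nat_lit 26) (.e (nat_lit 253959) (nat_lit 9) (.e (nat_lit 1182) (nat_lit 87) (.e (nat_lit 57854) (nat_lit 252) (.e (nat_lit 57364) (nat_lit 1) (.e (nat_lit 57829) (nat_lit 250) .nil))))))))) (.g (nat_lit 4) .nil .nil))) 
(.lf (nat_lit 22646) (.g (nat_lit 3160) (.e (nat_lit 1183) (nat_lit 87) (.e (nat_lit 57480) (nat_lit 28) (.e (nat_lit 557103) (nat_lit 14) (.e (nat_lit 180243) (nat_lit 5) (.e (nat_lit 532508) (nat_lit 2) (.e (nat_lit 106500) (nat_lit 0) (.e (nat_lit 2679) (nat_lit 168) (.e (nat_lit 204830) (nat_lit 18) (.e (nat_lit 57830) (nat_lit 250) .nil))))))))) (.g (nat_lit 4) .nil .nil))))) 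
(.nd (nat_lit 4) (.nd (nat_lit 5) 
(.lf (nat_lit 22606) (.g (nat_lit 2596) (.e (nat_lit 1183) (nat_lit 87) (.e (nat_lit 57479) (nat_lit 28) (.e (nat_lit 557109) (nat_lit 15) (.e (nat_lit 188457) (nat_lit 25) .nil)))) .nil)) 
(.lf (nat_lit 22638) (.g (nat_lit 2692) (.e (nat_lit 1183) (nat_lit 87) (.e (nat_lit 57480) (nat_lit 28) (.e (nat_lit 557098) (nat_lit 13) (.e (nat_lit 172115) (nat_lit 10) (.e (nat_lit 434231) (nat_lit 23) (.e (nat_lit 532536) (nat_lit 9) (.e (nat_lit 336031) (nat_lit 4) (.e (nat_lit 123182) (nat_lit 264) .nil)))))))) (.g (nat_lit 4) .nil .nil)))) (.nd (nat_lit 5) 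
(.lf (nat_lit 22622) (.g (nat_lit 3322) (.e (nat_lit 1183) (nat_lit 87) (.e (nat_lit 57480) (nat_lit 28) (.e (nat_lit 557098) (nat_lit 13) (.e (nat_lit 172097) (nat_lit 9) (.e (nat_lit 426125) (nat_lit 2) (.e (nat_lit 196666) (nat_lit 13) (.e (nat_lit 65574) (nat_lit 4) (.e (nat_lit 123183) (nat_lit 264) .nil)))))))) (.g (nat_lit 6) .nil .nil))) 
(.lf (nat_lit 22654) (.g (nat_lit 2654) (.e (nat_lit 1183) (nat_lit 87) (.e (nat_lit 57480) (nat_lit 28) (.e (nat_lit 557103) (nat_lit 14) (.e (nat_lit 180250) (nat_lit 10) (.e (nat_lit 573481) (nat_lit 13) (.e (nat_lit 65637) (nat_lit 15) (.e (nat_lit 3253) (nat_lit 197) (.e (nat_lit 532501) (nat_lit 1) (.e (nat_lit 57829) (nat_lit 250) .nil))))))))) (.g (nat_lit 4) .nil .nil)))))))) 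
(.nd (nat_lit 1) (.nd (nat_lit 2) (.nd (nat_lit 3) (.nd (nat_lit 4) (.nd (nat_lit 5) 
(.lf (nat_lit 22593) (.g (nat_lit 4584) (.e (nat_lit 1183) (nat_lit 87) (.e (nat_lit 57479) (nat_lit 28) (.e (nat_lit 557105) (nat_lit 14) (.e (nat_lit 180252) (nat_lit 10) (.e (nat_lit 573489) (nat_lit 14) (.e (nat_lit 73755) (nat_lit 8) (.e (nat_lit 557090) (nat_lit 12) (.e (nat_lit 163856) (nat_lit 0) (.e (nat_lit 5072) (nat_lit 292) .nil))))))))) (.g (nat_lit 7) .nil .nil))) 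
(.lf (nat_lit 22625) (.g (nat_lit 2865) (.e (nat_lit 1183) (nat_lit 87) (.e (nat_lit 57480) (nat_lit 28) (.e (nat_lit 557098) (nat_lit 13) (.e (nat_lit 172097) (nat_lit 9) (.e (nat_lit 426140) (nat_lit 3) (.e (nat_lit 204855) (nat_lit 26) (.e (nat_lit 336030) (nat_lit 4) (.e (nat_lit 123183) (nat_lit 264) .nil)))))))) (.g (nat_lit 5) .nil .nil)))) (.nd (nat_lit 5) 
(.lf (nat_lit 22609) (.g (nat_lit 3394) (.e (nat_lit 1183) (nat_lit 87) (.e (nat_lit 57479) (nat_lit 28) (.e (nat_lit 557109) (nat_lit 15) (.e (nat_lit 188458) (nat_lit 25) (.e (nat_lit 245794) (nat_lit 17) .nil))))) .nil)) 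
(.lf (nat_lit 22641) (.g (nat_lit 3556) (.e (nat_lit 1183) (nat_lit 87) (.e (nat_lit 57480) (nat_lit 28) (.e (nat_lit 557098) (nat_lit 13) (.e (nat_lit 172115) (nat_lit 10) (.e (nat_lit 434231) (nat_lit 23) (.e (nat_lit 532537) (nat_lit 9) (.e (nat_lit 336032) (nat_lit 4) (.e (nat_lit 123182) (nat_lit 264) .nil)))))))) (.g (nat_lit 5) .nil .nil))))) (.nd (nat_lit 4) (.nd (nat_lit 5) 
(.lf (nat_lit 22601) (.g (nat_lit 3184) (.e (nat_lit 1183) (nat_lit 87) (.e (nat_lit 57479) (nat_lit 28) (.e (nat_lit 557109) (nat_lit 15) (.e (nat_lit 196352) (nat_lit 18) (.e (nat_lit 393252) (nat_lit 18) (.e (nat_lit 164297) (nat_lit 226) .nil)))))) (.g (nat_lit 5) .nil .nil))) 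
(.lf (nat_lit 22633) (.g (nat_lit 3591) (.e (nat_lit 1183) (nat_lit 87) (.e (nat_lit 57480) (nat_lit 28) (.e (nat_lit 557098) (nat_lit 13) (.e (nat_lit 172115) (nat_lit 10) (.e (nat_lit 434231) (nat_lit 23) (.e (nat_lit 532527) (nat_lit 9) (.e (nat_lit 336031) (nat_lit 4) (.e (nat_lit 123182) (nat_lit 264) .nil)))))))) (.g (nat_lit 5) .nil .nil)))) (.nd (nat_lit 5) 
(.lf (nat_lit 22617) (.g (nat_lit 1952) (.e (nat_lit 1183) (nat_lit 87) (.e (nat_lit 57480) (nat_lit 28) (.e (nat_lit 557098) (nat_lit 13) (.e (nat_lit 172086) (nat_lit 9) .nil)))) .nil)) 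
(.lf (nat_lit 22649) (.g (nat_lit 2739) (.e (nat_lit 1183) (nat_lit 87) (.e (nat_lit 57480) (nat_lit 28) (.e (nat_lit 557103) (nat_lit 14) (.e (nat_lit 180244) (nat_lit 5) (.e (nat_lit 532508) (nat_lit 2) .nil))))) .nil))))) (.nd (nat_lit 3) (.nd (nat_lit 4) (.nd (nat_lit 5) 
(.lf (nat_lit 22597) (.g (nat_lit 3888) (.e (nat_lit 1183) (nat_lit 87) (.e (nat_lit 57479) (nat_lit 28) (.e (nat_lit 557107) (nat_lit 15) (.e (nat_lit 188423) (nat_lit 11) .nil)))) .nil)) 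
(.lf (nat_lit 22629) (.g (nat_lit 2506) (.e (nat_lit 1183) (nat_lit 87) (.e (nat_lit 57480) (nat_lit 28) (.e (nat_lit 557098) (nat_lit 13) (.e (nat_lit 172097) (nat_lit 9) (.e (nat_lit 426140) (nat_lit 3) (.e (nat_lit 204862) (nat_lit 27) (.e (nat_lit 344103) (nat_lit 18) (.e (nat_lit 5818) (nat_lit 320) .nil)))))))) (.g (nat_lit 4) .nil .nil)))) (.nd (nat_lit 5) 
(.lf (nat_lit 22613) (.g (nat_lit 3986) (.e (nat_lit 1183) (nat_lit 87) (.e (nat_lit 57479) (nat_lit 28) (.e (nat_lit 557109) (nat_lit 15) (.e (nat_lit 188461) (nat_lit 26) (.e (nat_lit 253959) (nat_lit 9) (.e (nat_lit 1181) (nat_lit 87) (.e (nat_lit 57848) (nat_lit 252) (.e (nat_lit 57368) (nat_lit 1) (.e (nat_lit 57829) (nat_lit 250) .nil))))))))) (.g (nat_lit 4) .nil .nil))) 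
(.lf (nat_lit 22645) (.g (nat_lit 2827) (.e (nat_lit 1183) (nat_lit 87) (.e (nat_lit 57480) (nat_lit 28) (.e (nat_lit 557103) (nat_lit 14) (.e (nat_lit 180243) (nat_lit 5) (.e (nat_lit 532508) (nat_lit 2) .nil))))) .nil)))) (.nd (nat_lit 4) (.nd (nat_lit 5) 
(.lf (nat_lit 22605) (.g (nat_lit 4067) (.e (nat_lit 1183) (nat_lit 87) (.e (nat_lit 57479) (nat_lit 28) (.e (nat_lit 557109) (nat_lit 15) (.e (nat_lit 188452) (nat_lit 23) (.e (nat_lit 204849) (nat_lit 25) (.e (nat_lit 327692) (nat_lit 1) (.e (nat_lit 8433) (nat_lit 138) .nil))))))) (.g (nat_lit 4) .nil .nil))) 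
(.lf (nat_lit 22637) (.g (nat_lit 3245) (.e (nat_lit 1183) (nat_lit 87) (.e (nat_lit 57480) (nat_lit 28) (.e (nat_lit 557098) (nat_lit 13) (.e (nat_lit 172115) (nat_lit 10) (.e (nat_lit 434231) (nat_lit 23) (.e (nat_lit 532535) (nat_lit 9) (.e (nat_lit 336030) (nat_lit 4) (.e (nat_lit 123183) (nat_lit 264) .nil)))))))) (.g (nat_lit 5) .nil .nil)))) (.nd (nat_lit 5) 
(.lf (nat_lit 22621) (.g (nat_lit 5972) (.e (nat_lit 1183) (nat_lit 87) (.e (nat_lit 57480) (nat_lit 28) (.e (nat_lit 557098) (nat_lit 13) (.e (nat_lit 172097) (nat_lit 9) (.e (nat_lit 426125) (nat_lit 2) (.e (nat_lit 196666) (nat_lit 13) (.e (nat_lit 65574) (nat_lit 4) (.e (nat_lit 123182) (nat_lit 264) .nil)))))))) (.g (nat_lit 0) .nil .nil))) 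
(.lf (nat_lit 22653) (.g (nat_lit 3513) (.e (nat_lit 1183) (nat_lit 87) (.e (nat_lit 57480) (nat_lit 28) (.e (nat_lit 557103) (nat_lit 14) (.e (nat_lit 180250) (nat_lit 10) (.e (nat_lit 573480) (nat_lit 13) (.e (nat_lit 65637) (nat_lit 15) (.e (nat_lit 3253) (nat_lit 197) (.e (nat_lit 532504) (nat_lit 1) (.e (nat_lit 57830) (nat_lit 250) .nil))))))))) (.g (nat_lit 5) .nil .nil))))))) 
(.nd (nat_lit 2) (.nd (nat_lit 3) (.nd (nat_lit 4) (.nd (nat_lit 5) 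
(.lf (nat_lit 22595) (.g (nat_lit 3162) (.e (nat_lit 1183) (nat_lit 87) (.e (nat_lit 57479) (nat_lit 28) (.e (nat_lit 557106) (nat_lit 15) (.e (nat_lit 188449) (nat_lit 22) (.e (nat_lit 196670) (nat_lit 14) .nil))))) .nil)) 
(.lf (nat_lit 22627) (.g (nat_lit 2688) (.e (nat_lit 1183) (nat_lit 87) (.e (nat_lit 57480) (nat_lit 28) (.e (nat_lit 557098) (nat_lit 13) (.e (nat_lit 172097) (nat_lit 9) (.e (nat_lit 426140) (nat_lit 3) (.e (nat_lit 204856) (nat_lit 26) (.e (nat_lit 336032) (nat_lit 4) (.e (nat_lit 123182) (nat_lit 264) .nil)))))))) (.g (nat_lit 4) .nil .nil)))) (.nd (nat_lit 5) 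
(.lf (nat_lit 22611) (.g (nat_lit 3547) (.e (nat_lit 1183) (nat_lit 87) (.e (nat_lit 57479) (nat_lit 28) (.e (nat_lit 557109) (nat_lit 15) (.e (nat_lit 188461) (nat_lit 26) (.e (nat_lit 261888) (nat_lit 4) (.e (nat_lit 172070) (nat_lit 4) (.e (nat_lit 229629) (nat_lit 226) .nil))))))) (.g (nat_lit 4) .nil .nil))) 
(.lf (nat_lit 22643) (.g (nat_lit 3087) (.e (nat_lit 1183) (nat_lit 87) (.e (nat_lit 57480) (nat_lit 28) (.e (nat_lit 557098) (nat_lit 13) (.e (nat_lit 172115) (nat_lit 10) (.e (nat_lit 434231) (nat_lit 23) (.e (nat_lit 532543) (nat_lit 10) (.e (nat_lit 344104) (nat_lit 18) (.e (nat_lit 5818) (nat_lit 320) .nil)))))))) (.g (nat_lit 5) .nil .nil))))) (.nd (nat_lit 4) (.nd (nat_lit 5) 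
(.lf (nat_lit 22603) (.g (nat_lit 4151) (.e (nat_lit 1183) (nat_lit 87) (.e (nat_lit 57479) (nat_lit 28) (.e (nat_lit 557109) (nat_lit 15) (.e (nat_lit 188452) (nat_lit 23) (.e (nat_lit 204816) (nat_lit 17) (.e (nat_lit 6434) (nat_lit 343) (.e (nat_lit 1288) (nat_lit 95) (.e (nat_lit 123182) (nat_lit 264) .nil)))))))) (.g (nat_lit 4) .nil .nil))) 
(.lf (nat_lit 22635) (.g (nat_lit 3209) (.e (nat_lit 1183) (nat_lit 87) (.e (nat_lit 57480) (nat_lit 28) (.e (nat_lit 557098) (nat_lit 13) (.e (nat_lit 172115) (nat_lit 10) (.e (nat_lit 434231) (nat_lit 23) (.e (nat_lit 532527) (nat_lit 9) (.e (nat_lit 336032) (nat_lit 4) (.e (nat_lit 123184) (nat_lit 264) .nil)))))))) (.g (nat_lit 5) .nil .nil)))) (.nd (nat_lit 5) 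
(.lf (nat_lit 22619) (.g (nat_lit 3252) (.e (nat_lit 1183) (nat_lit 87) (.e (nat_lit 57480) (nat_lit 28) (.e (nat_lit 557098) (nat_lit 13) (.e (nat_lit 172097) (nat_lit 9) (.e (nat_lit 426125) (nat_lit 2) (.e (nat_lit 196666) (nat_lit 13) (.e (nat_lit 65572) (nat_lit 4) (.e (nat_lit 123183) (nat_lit 264) .nil)))))))) (.g (nat_lit 5) .nil .nil))) 
(.lf (nat_lit 22651) (.g (nat_lit 3864) (.e (nat_lit 1183) (nat_lit 87) (.e (nat_lit 57480) (nat_lit 28) (.e (nat_lit 557103) (nat_lit 14) (.e (nat_lit 180250) (nat_lit 10) (.e (nat_lit 573480) (nat_lit 13) (.e (nat_lit 65637) (nat_lit 15) (.e (nat_lit 3253) (nat_lit 197) (.e (nat_lit 532501) (nat_lit 1) (.e (nat_lit 57830) (nat_lit 250) .nil))))))))) (.g (nat_lit 5) .nil .nil)))))) 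
(.nd (nat_lit 3) (.nd (nat_lit 4) (.nd (nat_lit 5) 
(.lf (nat_lit 22599) (.g (nat_lit 750) (.e (nat_lit 1183) (nat_lit 87) (.e (nat_lit 57479) (nat_lit 28) (.e (nat_lit 557109) (nat_lit 15) .nil))) .nil)) 
(.lf (nat_lit 22631) (.g (nat_lit 3304) (.e (nat_lit 1183) (nat_lit 87) (.e (nat_lit 57480) (nat_lit 28) (.e (nat_lit 557098) (nat_lit 13) (.e (nat_lit 172097) (nat_lit 9) (.e (nat_lit 426140) (nat_lit 3) (.e (nat_lit 204863) (nat_lit 27) (.e (nat_lit 344103) (nat_lit 18) (.e (nat_lit 5818) (nat_lit 320) .nil)))))))) (.g (nat_lit 5) .nil .nil)))) (.nd (nat_lit 5) 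
(.lf (nat_lit 22615) (.g (nat_lit 4562) (.e (nat_lit 1183) (nat_lit 87) (.e (nat_lit 57479) (nat_lit 28) (.e (nat_lit 557109) (nat_lit 15) (.e (nat_lit 188461) (nat_lit 26) (.e (nat_lit 253959) (nat_lit 9) (.e (nat_lit 1182) (nat_lit 87) (.e (nat_lit 57854) (nat_lit 252) (.e (nat_lit 57366) (nat_lit 1) (.e (nat_lit 57830) (nat_lit 250) .nil))))))))) (.g (nat_lit 4) .nil .nil))) 
(.lf (nat_lit 22647) (.g (nat_lit 3775) (.e (nat_lit 1183) (nat_lit 87) (.e (nat_lit 57480) (nat_lit 28) (.e (nat_lit 557103) (nat_lit 14) (.e (nat_lit 180243) (nat_lit 5) (.e (nat_lit 532508) (nat_lit 2) (.e (nat_lit 114432) (nat_lit 3) (.e (nat_lit 163962) (nat_lit 25) (.e (nat_lit 532500) (nat_lit 1) (.e (nat_lit 57829) (nat_lit 250) .nil))))))))) (.g (nat_lit 4) .nil .nil))))) 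
(.nd (nat_lit 4) (.nd (nat_lit 5) 
(.lf (nat_lit 22607) (.g (nat_lit 2252) (.e (nat_lit 1183) (nat_lit 87) (.e (nat_lit 57479) (nat_lit 28) (.e (nat_lit 557109) (nat_lit 15) (.e (nat_lit 188458) (nat_lit 25) .nil)))) .nil)) 
(.lf (nat_lit 22639) (.g (nat_lit 3980) (.e (nat_lit 1183) (nat_lit 87) (.e (nat_lit 57480) (nat_lit 28) (.e (nat_lit 557098) (nat_lit 13) (.e (nat_lit 172115) (nat_lit 10) (.e (nat_lit 434231) (nat_lit 23) (.e (nat_lit 532536) (nat_lit 9) (.e (nat_lit 336032) (nat_lit 4) (.e (nat_lit 123182) (nat_lit 264) .nil)))))))) (.g (nat_lit 5) .nil .nil)))) (.nd (nat_lit 5) 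
(.lf (nat_lit 22623) (.g (nat_lit 4722) (.e (nat_lit 1183) (nat_lit 87) (.e (nat_lit 57480) (nat_lit 28) (.e (nat_lit 557098) (nat_lit 13) (.e (nat_lit 172097) (nat_lit 9) (.e (nat_lit 426125) (nat_lit 2) (.e (nat_lit 196666) (nat_lit 13) (.e (nat_lit 65574) (nat_lit 4) (.e (nat_lit 123184) (nat_lit 264) .nil)))))))) (.g (nat_lit 8) .nil .nil))) 
(.lf (nat_lit 22655) (.g (nat_lit 2717) (.e (nat_lit 1183) (nat_lit 87) (.e (nat_lit 57480) (nat_lit 28) (.e (nat_lit 557103) (nat_lit 14) (.e (nat_lit 180250) (nat_lit 10) (.e (nat_lit 573481) (nat_lit 13) (.e (nat_lit 65637) (nat_lit 15) (.e (nat_lit 3253) (nat_lit 197) (.e (nat_lit 532501) (nat_lit 1) (.e (nat_lit 57830) (nat_lit 250) .nil))))))))) (.g (nat_lit 4) .nil .nil)))))))))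

noncomputable def tv321 : DT := (.nd (nat_lit 0) (.nd (nat_lit 1) (.nd (nat_lit 2) (.nd (nat_lit 3) (.nd (nat_lit 4) (.nd (nat_lit 5) 
(.lf (nat_lit 22656) (.g (nat_lit 2787) (.e (nat_lit 1183) (nat_lit 87) (.e (nat_lit 57480) (nat_lit 28) (.e (nat_lit 557103) (nat_lit 14) (.e (nat_lit 180250) (nat_lit 10) (.e (nat_lit 573481) (nat_lit 13) (.e (nat_lit 65637) (nat_lit 15) (.e (nat_lit 3253) (nat_lit 197) (.e (nat_lit 532504) (nat_lit 1) (.e (nat_lit 57829) (nat_lit 250) .nil))))))))) (.g (nat_lit 4) .nil .nil))) 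
(.lf (nat_lit 22688) (.g (nat_lit 3255) (.e (nat_lit 1183) (nat_lit 87) (.e (nat_lit 57480) (nat_lit 28) (.e (nat_lit 557105) (nat_lit 14) (.e (nat_lit 180252) (nat_lit 10) (.e (nat_lit 573451) (nat_lit 9) (.e (nat_lit 1626) (nat_lit 114) (.e (nat_lit 385068) (nat_lit 26) (.e (nat_lit 532501) (nat_lit 1) (.e (nat_lit 57830) (nat_lit 250) .nil))))))))) (.g (nat_lit 4) .nil .nil)))) 
(.nd (nat_lit 5) 
(.lf (nat_lit 22672) (.g (nat_lit 2732) (.e (nat_lit 1183) (nat_lit 87) (.e (nat_lit 57480) (nat_lit 28) (.e (nat_lit 557103) (nat_lit 14) (.e (nat_lit 180250) (nat_lit 10) (.e (nat_lit 573487) (nat_lit 14) (.e (nat_lit 73746) (nat_lit 3) (.e (nat_lit 516117) (nat_lit 1) (.e (nat_lit 164159) (nat_lit 152) .nil)))))))) (.g (nat_lit 4) .nil .nil))) 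
(.lf (nat_lit 22704) (.g (nat_lit 3528) (.e (nat_lit 1183) (nat_lit 87) (.e (nat_lit 57480) (nat_lit 28) (.e (nat_lit 557105) (nat_lit 14) (.e (nat_lit 180252) (nat_lit 10) (.e (nat_lit 573482) (nat_lit 13) (.e (nat_lit 65640) (nat_lit 15) (.e (nat_lit 3253) (nat_lit 197) (.e (nat_lit 532504) (nat_lit 1) (.e (nat_lit 57829) (nat_lit 250) .nil))))))))) (.g (nat_lit 4) .nil .nil))))) 
(.nd (nat_lit 4) (.nd (nat_lit 5) 
(.lf (nat_lit 22664) (.g (nat_lit 4043) (.e (nat_lit 1183) (nat_lit 87) (.e (nat_lit 57480) (nat_lit 28) (.e (nat_lit 557103) (nat_lit 14) (.e (nat_lit 180250) (nat_lit 10) (.e (nat_lit 573482) (nat_lit 13) (.e (nat_lit 65637) (nat_lit 15) (.e (nat_lit 3253) (nat_lit 197) (.e (nat_lit 532504) (nat_lit 1) (.e (nat_lit 57830) (nat_lit 250) .nil))))))))) (.g (nat_lit 5) .nil .nil))) 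
(.lf (nat_lit 22696) (.g (nat_lit 4632) (.e (nat_lit 1183) (nat_lit 87) (.e (nat_lit 57480) (nat_lit 28) (.e (nat_lit 557105) (nat_lit 14) (.e (nat_lit 180252) (nat_lit 10) (.e (nat_lit 573481) (nat_lit 13) (.e (nat_lit 65637) (nat_lit 15) (.e (nat_lit 3253) (nat_lit 197) (.e (nat_lit 532501) (nat_lit 1) (.e (nat_lit 57830) (nat_lit 250) .nil))))))))) (.g (nat_lit 7) .nil .nil)))) 
(.nd (nat_lit 5) 
(.lf (nat_lit 22680) (.g (nat_lit 3197) (.e (nat_lit 1183) (nat_lit 87) (.e (nat_lit 57480) (nat_lit 28) (.e (nat_lit 557104) (nat_lit 14) (.e (nat_lit 180252) (nat_lit 10) (.e (nat_lit 573482) (nat_lit 13) (.e (nat_lit 65637) (nat_lit 15) (.e (nat_lit 3253) (nat_lit 197) (.e (nat_lit 532501) (nat_lit 1) (.e (nat_lit 57830) (nat_lit 250) .nil))))))))) (.g (nat_lit 4) .nil .nil))) 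
(.lf (nat_lit 22712) (.g (nat_lit 2956) (.e (nat_lit 1183) (nat_lit 87) (.e (nat_lit 57480) (nat_lit 28) (.e (nat_lit 557105) (nat_lit 14) (.e (nat_lit 180252) (nat_lit 10) (.e (nat_lit 573488) (nat_lit 14) (.e (nat_lit 73747) (nat_lit 3) (.e (nat_lit 516120) (nat_lit 1) (.e (nat_lit 164159) (nat_lit 152) .nil)))))))) (.g (nat_lit 4) .nil .nil)))))) 
(.nd (nat_lit 3) (.nd (nat_lit 4) (.nd (nat_lit 5) 
(.lf (nat_lit 22660) (.g (nat_lit 2598) (.e (nat_lit 1183) (nat_lit 87) (.e (nat_lit 57480) (nat_lit 28) (.e (nat_lit 557103) (nat_lit 14) (.e (nat_lit 180250) (nat_lit 10) (.e (nat_lit 573482) (nat_lit 13) (.e (nat_lit 65636) (nat_lit 15) (.e (nat_lit 3249) (nat_lit 197) (.e (nat_lit 532504) (nat_lit 1) (.e (nat_lit 57829) (nat_lit 250) .nil))))))))) (.g (nat_lit 4) .nil .nil))) 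
(.lf (nat_lit 22692) (.g (nat_lit 4185) (.e (nat_lit 1183) (nat_lit 87) (.e (nat_lit 57480) (nat_lit 28) (.e (nat_lit 557105) (nat_lit 14) (.e (nat_lit 180252) (nat_lit 10) (.e (nat_lit 573480) (nat_lit 13) (.e (nat_lit 65637) (nat_lit 15) (.e (nat_lit 3253) (nat_lit 197) (.e (nat_lit 532504) (nat_lit 1) (.e (nat_lit 57829) (nat_lit 250) .nil))))))))) (.g (nat_lit 5) .nil .nil)))) 
(.nd (nat_lit 5) 
(.lf (nat_lit 22676) (.g (nat_lit 2840) (.e (nat_lit 1183) (nat_lit 87) (.e (nat_lit 57480) (nat_lit 28) (.e (nat_lit 557104) (nat_lit 14) (.e (nat_lit 180252) (nat_lit 10) (.e (nat_lit 573481) (nat_lit 13) (.e (nat_lit 65637) (nat_lit 15) (.e (nat_lit 3253) (nat_lit 197) (.e (nat_lit 532504) (nat_lit 1) (.e (nat_lit 57829) (nat_lit 250) .nil))))))))) (.g (nat_lit 4) .nil .nil))) 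
(.lf (nat_lit 22708) (.g (nat_lit 4715) (.e (nat_lit 1183) (nat_lit 87) (.e (nat_lit 57480) (nat_lit 28) (.e (nat_lit 557105) (nat_lit 14) (.e (nat_lit 180252) (nat_lit 10) (.e (nat_lit 573482) (nat_lit 13) (.e (nat_lit 73472) (nat_lit 18) (.e (nat_lit 204830) (nat_lit 18) (.e (nat_lit 57830) (nat_lit 250) .nil)))))))) (.g (nat_lit 5) .nil .nil))))) (.nd (nat_lit 4) (.nd (nat_lit 5) 
(.lf (nat_lit 22668) (.g (nat_lit 2854) (.e (nat_lit 1183) (nat_lit 87) (.e (nat_lit 57480) (nat_lit 28) (.e (nat_lit 557103) (nat_lit 14) (.e (nat_lit 180250) (nat_lit 10) (.e (nat_lit 573482) (nat_lit 13) (.e (nat_lit 73472) (nat_lit 15) (.e (nat_lit 3253) (nat_lit 197) (.e (nat_lit 532504) (nat_lit 1) (.e (nat_lit 57829) (nat_lit 250) .nil))))))))) (.g (nat_lit 4) .nil .nil))) 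
(.lf (nat_lit 22700) (.g (nat_lit 4749) (.e (nat_lit 1183) (nat_lit 87) (.e (nat_lit 57480) (nat_lit 28) (.e (nat_lit 557105) (nat_lit 14) (.e (nat_lit 180252) (nat_lit 10) (.e (nat_lit 573482) (nat_lit 13) (.e (nat_lit 65637) (nat_lit 15) (.e (nat_lit 3253) (nat_lit 197) (.e (nat_lit 532504) (nat_lit 1) (.e (nat_lit 57829) (nat_lit 250) .nil))))))))) (.g (nat_lit 5) .nil .nil)))) 
(.nd (nat_lit 5) 
(.lf (nat_lit 22684) (.g (nat_lit 3498) (.e (nat_lit 1183) (nat_lit 87) (.e (nat_lit 57480) (nat_lit 28) (.e (nat_lit 557105) (nat_lit 14) (.e (nat_lit 180251) (nat_lit 10) (.e (nat_lit 573479) (nat_lit 13) (.e (nat_lit 73472) (nat_lit 18) (.e (nat_lit 204831) (nat_lit 18) (.e (nat_lit 57830) (nat_lit 250) .nil)))))))) (.g (nat_lit 4) .nil .nil))) 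
(.lf (nat_lit 22716) (.g (nat_lit 3814) (.e (nat_lit 1183) (nat_lit 87) (.e (nat_lit 57480) (nat_lit 28) (.e (nat_lit 557107) (nat_lit 15) (.e (nat_lit 188447) (nat_lit 22) (.e (nat_lit 196666) (nat_lit 13) (.e (nat_lit 65572) (nat_lit 4) (.e (nat_lit 123185) (nat_lit 264) .nil))))))) (.g (nat_lit 5) .nil .nil))))))) (.nd (nat_lit 2) (.nd (nat_lit 3) (.nd (nat_lit 4) (.nd (nat_lit 5) 
(.lf (nat_lit 22658) (.g (nat_lit 3103) (.e (nat_lit 1183) (nat_lit 87) (.e (nat_lit 57480) (nat_lit 28) (.e (nat_lit 557103) (nat_lit 14) (.e (nat_lit 180250) (nat_lit 10) (.e (nat_lit 573481) (nat_lit 13) (.e (nat_lit 73472) (nat_lit 18) (.e (nat_lit 204831) (nat_lit 18) (.e (nat_lit 57830) (nat_lit 250) .nil)))))))) (.g (nat_lit 5) .nil .nil))) 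
(.lf (nat_lit 22690) (.g (nat_lit 4057) (.e (nat_lit 1183) (nat_lit 87) (.e (nat_lit 57480) (nat_lit 28) (.e (nat_lit 557105) (nat_lit 14) (.e (nat_lit 180252) (nat_lit 10) (.e (nat_lit 573480) (nat_lit 13) (.e (nat_lit 65637) (nat_lit 15) (.e (nat_lit 3253) (nat_lit 197) (.e (nat_lit 532501) (nat_lit 1) (.e (nat_lit 57829) (nat_lit 250) .nil))))))))) (.g (nat_lit 5) .nil .nil)))) 
(.nd (nat_lit 5) 
(.lf (nat_lit 22674) (.g (nat_lit 2707) (.e (nat_lit 1183) (nat_lit 87) (.e (nat_lit 57480) (nat_lit 28) (.e (nat_lit 557104) (nat_lit 14) (.e (nat_lit 180252) (nat_lit 10) (.e (nat_lit 573481) (nat_lit 13) (.e (nat_lit 65637) (nat_lit 15) (.e (nat_lit 3253) (nat_lit 197) (.e (nat_lit 532501) (nat_lit 1) (.e (nat_lit 57829) (nat_lit 250) .nil))))))))) (.g (nat_lit 4) .nil .nil))) 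
(.lf (nat_lit 22706) (.g (nat_lit 3031) (.e (nat_lit 1183) (nat_lit 87) (.e (nat_lit 57480) (nat_lit 28) (.e (nat_lit 557105) (nat_lit 14) (.e (nat_lit 180252) (nat_lit 10) (.e (nat_lit 573482) (nat_lit 13) (.e (nat_lit 73472) (nat_lit 15) (.e (nat_lit 3253) (nat_lit 197) (.e (nat_lit 532501) (nat_lit 1) (.e (nat_lit 57830) (nat_lit 250) .nil))))))))) (.g (nat_lit 4) .nil .nil))))) 
(.nd (nat_lit 4) (.nd (nat_lit 5) 
(.lf (nat_lit 22666) (.g (nat_lit 2853) (.e (nat_lit 1183) (nat_lit 87) (.e (nat_lit 57480) (nat_lit 28) (.e (nat_lit 557103) (nat_lit 14) (.e (nat_lit 180250) (nat_lit 10) (.e (nat_lit 573482) (nat_lit 13) (.e (nat_lit 73472) (nat_lit 15) (.e (nat_lit 3253) (nat_lit 197) (.e (nat_lit 532501) (nat_lit 1) (.e (nat_lit 57829) (nat_lit 250) .nil))))))))) (.g (nat_lit 4) .nil .nil))) 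
(.lf (nat_lit 22698) (.g (nat_lit 4628) (.e (nat_lit 1183) (nat_lit 87) (.e (nat_lit 57480) (nat_lit 28) (.e (nat_lit 557105) (nat_lit 14) (.e (nat_lit 180252) (nat_lit 10) (.e (nat_lit 573482) (nat_lit 13) (.e (nat_lit 65637) (nat_lit 15) (.e (nat_lit 3253) (nat_lit 197) (.e (nat_lit 532501) (nat_lit 1) (.e (nat_lit 57829) (nat_lit 250) .nil))))))))) (.g (nat_lit 5) .nil .nil)))) 
(.nd (nat_lit 5) 
(.lf (nat_lit 22682) (.g (nat_lit 2839) (.e (nat_lit 1183) (nat_lit 87) (.e (nat_lit 57480) (nat_lit 28) (.e (nat_lit 557104) (nat_lit 14) (.e (nat_lit 180252) (nat_lit 10) (.e (nat_lit 573482) (nat_lit 13) (.e (nat_lit 65637) (nat_lit 15) (.e (nat_lit 3253) (nat_lit 197) (.e (nat_lit 532504) (nat_lit 1) (.e (nat_lit 57830) (nat_lit 250) .nil))))))))) (.g (nat_lit 4) .nil .nil))) 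
(.lf (nat_lit 22714) (.g (nat_lit 2159) (.e (nat_lit 1183) (nat_lit 87) (.e (nat_lit 57480) (nat_lit 28) (.e (nat_lit 557107) (nat_lit 15) (.e (nat_lit 188447) (nat_lit 22) (.e (nat_lit 196666) (nat_lit 13) .nil))))) .nil))))) (.nd (nat_lit 3) (.nd (nat_lit 4) (.nd (nat_lit 5) 
(.lf (nat_lit 22662) (.g (nat_lit 4401) (.e (nat_lit 1183) (nat_lit 87) (.e (nat_lit 57480) (nat_lit 28) (.e (nat_lit 557103) (nat_lit 14) (.e (nat_lit 180250) (nat_lit 10) (.e (nat_lit 573482) (nat_lit 13) (.e (nat_lit 65637) (nat_lit 15) (.e (nat_lit 3253) (nat_lit 197) (.e (nat_lit 532501) (nat_lit 1) (.e (nat_lit 57830) (nat_lit 250) .nil))))))))) (.g (nat_lit 6) .nil .nil))) 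
(.lf (nat_lit 22694) (.g (nat_lit 2991) (.e (nat_lit 1183) (nat_lit 87) (.e (nat_lit 57480) (nat_lit 28) (.e (nat_lit 557105) (nat_lit 14) (.e (nat_lit 180252) (nat_lit 10) (.e (nat_lit 573481) (nat_lit 13) (.e (nat_lit 65636) (nat_lit 15) (.e (nat_lit 3249) (nat_lit 197) (.e (nat_lit 532504) (nat_lit 1) (.e (nat_lit 57829) (nat_lit 250) .nil))))))))) (.g (nat_lit 4) .nil .nil)))) 
(.nd (nat_lit 5) 
(.lf (nat_lit 22678) (.g (nat_lit 2986) (.e (nat_lit 1183) (nat_lit 87) (.e (nat_lit 57480) (nat_lit 28) (.e (nat_lit 557104) (nat_lit 14) (.e (nat_lit 180252) (nat_lit 10) (.e (nat_lit 573481) (nat_lit 13) (.e (nat_lit 73472) (nat_lit 18) (.e (nat_lit 204831) (nat_lit 18) (.e (nat_lit 57830) (nat_lit 250) .nil)))))))) (.g (nat_lit 4) .nil .nil))) 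
(.lf (nat_lit 22710) (.g (nat_lit 2925) (.e (nat_lit 1183) (nat_lit 87) (.e (nat_lit 57480) (nat_lit 28) (.e (nat_lit 557105) (nat_lit 14) (.e (nat_lit 180252) (nat_lit 10) (.e (nat_lit 573488) (nat_lit 14) (.e (nat_lit 73747) (nat_lit 3) (.e (nat_lit 516117) (nat_lit 1) (.e (nat_lit 164159) (nat_lit 152) .nil)))))))) (.g (nat_lit 4) .nil .nil))))) (.nd (nat_lit 4) (.nd (nat_lit 5) 
(.lf (nat_lit 22670) (.g (nat_lit 2701) (.e (nat_lit 1183) (nat_lit 87) (.e (nat_lit 57480) (nat_lit 28) (.e (nat_lit 557103) (nat_lit 14) (.e (nat_lit 180250) (nat_lit 10) (.e (nat_lit 573485) (nat_lit 13) (.e (nat_lit 65640) (nat_lit 15) (.e (nat_lit 3253) (nat_lit 197) (.e (nat_lit 532501) (nat_lit 1) (.e (nat_lit 57830) (nat_lit 250) .nil))))))))) (.g (nat_lit 4) .nil .nil))) 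
(.lf (nat_lit 22702) (.g (nat_lit 3474) (.e (nat_lit 1183) (nat_lit 87) (.e (nat_lit 57480) (nat_lit 28) (.e (nat_lit 557105) (nat_lit 14) (.e (nat_lit 180252) (nat_lit 10) (.e (nat_lit 573482) (nat_lit 13) (.e (nat_lit 65640) (nat_lit 15) (.e (nat_lit 3253) (nat_lit 197) (.e (nat_lit 532501) (nat_lit 1) (.e (nat_lit 57829) (nat_lit 250) .nil))))))))) (.g (nat_lit 4) .nil .nil)))) 
(.nd (nat_lit 5) 
(.lf (nat_lit 22686) (.g (nat_lit 2952) (.e (nat_lit 1183) (nat_lit 87) (.e (nat_lit 57480) (nat_lit 28) (.e (nat_lit 557105) (nat_lit 14) (.e (nat_lit 180252) (nat_lit 10) (.e (nat_lit 573451) (nat_lit 9) .nil))))) .nil)) 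
(.lf (nat_lit 22718) (.g (nat_lit 4033) (.e (nat_lit 1183) (nat_lit 87) (.e (nat_lit 57480) (nat_lit 28) (.e (nat_lit 557107) (nat_lit 15) (.e (nat_lit 188447) (nat_lit 22) (.e (nat_lit 196666) (nat_lit 13) (.e (nat_lit 65574) (nat_lit 4) (.e (nat_lit 123185) (nat_lit 264) .nil))))))) (.g (nat_lit 6) .nil .nil)))))))) 
(.nd (nat_lit 1) (.nd (nat_lit 2) (.nd (nat_lit 3) (.nd (nat_lit 4) (.nd (nat_lit 5) 
(.lf (nat_lit 22657) (.g (nat_lit 2949) (.e (nat_lit 1183) (nat_lit 87) (.e (nat_lit 57480) (nat_lit 28) (.e (nat_lit 557103) (nat_lit 14) (.e (nat_lit 180250) (nat_lit 10) (.e (nat_lit 573481) (nat_lit 13) (.e (nat_lit 73472) (nat_lit 18) (.e (nat_lit 204830) (nat_lit 18) (.e (nat_lit 57830) (nat_lit 250) .nil)))))))) (.g (nat_lit 4) .nil .nil))) 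
(.lf (nat_lit 22689) (.g (nat_lit 3357) (.e (nat_lit 1183) (nat_lit 87) (.e (nat_lit 57480) (nat_lit 28) (.e (nat_lit 557105) (nat_lit 14) (.e (nat_lit 180252) (nat_lit 10) (.e (nat_lit 573451) (nat_lit 9) (.e (nat_lit 1626) (nat_lit 114) (.e (nat_lit 385068) (nat_lit 26) (.e (nat_lit 532504) (nat_lit 1) (.e (nat_lit 57829) (nat_lit 250) .nil))))))))) (.g (nat_lit 4) .nil .nil)))) 
(.nd (nat_lit 5) 
(.lf (nat_lit 22673) (.g (nat_lit 2699) (.e (nat_lit 1183) (nat_lit 87) (.e (nat_lit 57480) (nat_lit 28) (.e (nat_lit 557103) (nat_lit 14) (.e (nat_lit 180250) (nat_lit 10) (.e (nat_lit 573487) (nat_lit 14) (.e (nat_lit 73746) (nat_lit 3) (.e (nat_lit 516120) (nat_lit 1) (.e (nat_lit 164159) (nat_lit 152) .nil)))))))) (.g (nat_lit 4) .nil .nil))) 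
(.lf (nat_lit 22705) (.g (nat_lit 3106) (.e (nat_lit 1183) (nat_lit 87) (.e (nat_lit 57480) (nat_lit 28) (.e (nat_lit 557105) (nat_lit 14) (.e (nat_lit 180252) (nat_lit 10) (.e (nat_lit 573482) (nat_lit 13) (.e (nat_lit 73472) (nat_lit 15) (.e (nat_lit 3253) (nat_lit 197) (.e (nat_lit 532501) (nat_lit 1) (.e (nat_lit 57829) (nat_lit 250) .nil))))))))) (.g (nat_lit 4) .nil .nil))))) 
(.nd (nat_lit 4) (.nd (nat_lit 5) 
(.lf (nat_lit 22665) (.g (nat_lit 2616) (.e (nat_lit 1183) (nat_lit 87) (.e (nat_lit 57480) (nat_lit 28) (.e (nat_lit 557103) (nat_lit 14) (.e (nat_lit 180250) (nat_lit 10) (.e (nat_lit 573482) (nat_lit 13) (.e (nat_lit 65640) (nat_lit 15) (.e (nat_lit 3253) (nat_lit 197) (.e (nat_lit 532501) (nat_lit 1) (.e (nat_lit 57830) (nat_lit 250) .nil))))))))) (.g (nat_lit 4) .nil .nil))) 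
(.lf (nat_lit 22697) (.g (nat_lit 3402) (.e (nat_lit 1183) (nat_lit 87) (.e (nat_lit 57480) (nat_lit 28) (.e (nat_lit 557105) (nat_lit 14) (.e (nat_lit 180252) (nat_lit 10) (.e (nat_lit 573482) (nat_lit 13) (.e (nat_lit 65636) (nat_lit 15) (.e (nat_lit 3249) (nat_lit 197) (.e (nat_lit 532504) (nat_lit 1) (.e (nat_lit 57829) (nat_lit 250) .nil))))))))) (.g (nat_lit 4) .nil .nil)))) 
(.nd (nat_lit 5) 
(.lf (nat_lit 22681) (.g (nat_lit 3255) (.e (nat_lit 1183) (nat_lit 87) (.e (nat_lit 57480) (nat_lit 28) (.e (nat_lit 557104) (nat_lit 14) (.e (nat_lit 180252) (nat_lit 10) (.e (nat_lit 573482) (nat_lit 13) (.e (nat_lit 65637) (nat_lit 15) (.e (nat_lit 3253) (nat_lit 197) (.e (nat_lit 532504) (nat_lit 1) (.e (nat_lit 57829) (nat_lit 250) .nil))))))))) (.g (nat_lit 4) .nil .nil))) 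
(.lf (nat_lit 22713) (.g (nat_lit 555) (.e (nat_lit 1183) (nat_lit 87) (.e (nat_lit 57480) (nat_lit 28) (.e (nat_lit 557107) (nat_lit 15) .nil))) .nil))))) (.nd (nat_lit 3) (.nd (nat_lit 4) (.nd (nat_lit 5) 
(.lf (nat_lit 22661) (.g (nat_lit 4338) (.e (nat_lit 1183) (nat_lit 87) (.e (nat_lit 57480) (nat_lit 28) (.e (nat_lit 557103) (nat_lit 14) (.e (nat_lit 180250) (nat_lit 10) (.e (nat_lit 573482) (nat_lit 13) (.e (nat_lit 65637) (nat_lit 15) (.e (nat_lit 3253) (nat_lit 197) (.e (nat_lit 532501) (nat_lit 1) (.e (nat_lit 57829) (nat_lit 250) .nil))))))))) (.g (nat_lit 6) .nil .nil))) 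
(.lf (nat_lit 22693) (.g (nat_lit 3592) (.e (nat_lit 1183) (nat_lit 87) (.e (nat_lit 57480) (nat_lit 28) (.e (nat_lit 557105) (nat_lit 14) (.e (nat_lit 180252) (nat_lit 10) (.e (nat_lit 573480) (nat_lit 13) (.e (nat_lit 65637) (nat_lit 15) (.e (nat_lit 3253) (nat_lit 197) (.e (nat_lit 532504) (nat_lit 1) (.e (nat_lit 57830) (nat_lit 250) .nil))))))))) (.g (nat_lit 4) .nil .nil)))) 
(.nd (nat_lit 5) 
(.lf (nat_lit 22677) (.g (nat_lit 2832) (.e (nat_lit 1183) (nat_lit 87) (.e (nat_lit 57480) (nat_lit 28) (.e (nat_lit 557104) (nat_lit 14) (.e (nat_lit 180252) (nat_lit 10) (.e (nat_lit 573481) (nat_lit 13) (.e (nat_lit 73472) (nat_lit 18) (.e (nat_lit 204830) (nat_lit 18) (.e (nat_lit 57830) (nat_lit 250) .nil)))))))) (.g (nat_lit 4) .nil .nil))) 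
(.lf (nat_lit 22709) (.g (nat_lit 3038) (.e (nat_lit 1183) (nat_lit 87) (.e (nat_lit 57480) (nat_lit 28) (.e (nat_lit 557105) (nat_lit 14) (.e (nat_lit 180252) (nat_lit 10) (.e (nat_lit 573488) (nat_lit 14) (.e (nat_lit 73747) (nat_lit 3) (.e (nat_lit 516115) (nat_lit 1) (.e (nat_lit 164155) (nat_lit 152) .nil)))))))) (.g (nat_lit 4) .nil .nil))))) (.nd (nat_lit 4) (.nd (nat_lit 5) 
(.lf (nat_lit 22669) (.g (nat_lit 2599) (.e (nat_lit 1183) (nat_lit 87) (.e (nat_lit 57480) (nat_lit 28) (.e (nat_lit 557103) (nat_lit 14) (.e (nat_lit 180250) (nat_lit 10) (.e (nat_lit 573485) (nat_lit 13) (.e (nat_lit 65640) (nat_lit 15) (.e (nat_lit 3253) (nat_lit 197) (.e (nat_lit 532501) (nat_lit 1) (.e (nat_lit 57829) (nat_lit 250) .nil))))))))) (.g (nat_lit 4) .nil .nil))) 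
(.lf (nat_lit 22701) (.g (nat_lit 4156) (.e (nat_lit 1183) (nat_lit 87) (.e (nat_lit 57480) (nat_lit 28) (.e (nat_lit 557105) (nat_lit 14) (.e (nat_lit 180252) (nat_lit 10) (.e (nat_lit 573482) (nat_lit 13) (.e (nat_lit 65637) (nat_lit 15) (.e (nat_lit 3253) (nat_lit 197) (.e (nat_lit 532504) (nat_lit 1) (.e (nat_lit 57830) (nat_lit 250) .nil))))))))) (.g (nat_lit 5) .nil .nil)))) 
(.nd (nat_lit 5) 
(.lf (nat_lit 22685) (.g (nat_lit 1540) (.e (nat_lit 1183) (nat_lit 87) (.e (nat_lit 57480) (nat_lit 28) (.e (nat_lit 557105) (nat_lit 14) (.e (nat_lit 180252) (nat_lit 10) .nil)))) .nil)) 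
(.lf (nat_lit 22717) (.g (nat_lit 3633) (.e (nat_lit 1183) (nat_lit 87) (.e (nat_lit 57480) (nat_lit 28) (.e (nat_lit 557107) (nat_lit 15) (.e (nat_lit 188447) (nat_lit 22) (.e (nat_lit 196666) (nat_lit 13) (.e (nat_lit 65574) (nat_lit 4) (.e (nat_lit 123184) (nat_lit 264) .nil))))))) (.g (nat_lit 5) .nil .nil))))))) (.nd (nat_lit 2) (.nd (nat_lit 3) (.nd (nat_lit 4) (.nd (nat_lit 5) 
(.lf (nat_lit 22659) (.g (nat_lit 2712) (.e (nat_lit 1183) (nat_lit 87) (.e (nat_lit 57480) (nat_lit 28) (.e (nat_lit 557103) (nat_lit 14) (.e (nat_lit 180250) (nat_lit 10) (.e (nat_lit 573482) (nat_lit 13) (.e (nat_lit 65569) (nat_lit 3) (.e (nat_lit 98334) (nat_lit 18) (.e (nat_lit 164159) (nat_lit 152) .nil)))))))) (.g (nat_lit 4) .nil .nil))) 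
(.lf (nat_lit 22691) (.g (nat_lit 3943) (.e (nat_lit 1183) (nat_lit 87) (.e (nat_lit 57480) (nat_lit 28) (.e (nat_lit 557105) (nat_lit 14) (.e (nat_lit 180252) (nat_lit 10) (.e (nat_lit 573480) (nat_lit 13) (.e (nat_lit 65637) (nat_lit 15) (.e (nat_lit 3253) (nat_lit 197) (.e (nat_lit 532501) (nat_lit 1) (.e (nat_lit 57830) (nat_lit 250) .nil))))))))) (.g (nat_lit 5) .nil .nil)))) 
(.nd (nat_lit 5) 
(.lf (nat_lit 22675) (.g (nat_lit 2770) (.e (nat_lit 1183) (nat_lit 87) (.e (nat_lit 57480) (nat_lit 28) (.e (nat_lit 557104) (nat_lit 14) (.e (nat_lit 180252) (nat_lit 10) (.e (nat_lit 573481) (nat_lit 13) (.e (nat_lit 65637) (nat_lit 15) (.e (nat_lit 3253) (nat_lit 197) (.e (nat_lit 532501) (nat_lit 1) (.e (nat_lit 57830) (nat_lit 250) .nil))))))))) (.g (nat_lit 4) .nil .nil))) 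
(.lf (nat_lit 22707) (.g (nat_lit 3107) (.e (nat_lit 1183) (nat_lit 87) (.e (nat_lit 57480) (nat_lit 28) (.e (nat_lit 557105) (nat_lit 14) (.e (nat_lit 180252) (nat_lit 10) (.e (nat_lit 573482) (nat_lit 13) (.e (nat_lit 73472) (nat_lit 15) (.e (nat_lit 3253) (nat_lit 197) (.e (nat_lit 532504) (nat_lit 1) (.e (nat_lit 57829) (nat_lit 250) .nil))))))))) (.g (nat_lit 4) .nil .nil))))) 
(.nd (nat_lit 4) (.nd (nat_lit 5) 
(.lf (nat_lit 22667) (.g (nat_lit 2955) (.e (nat_lit 1183) (nat_lit 87) (.e (nat_lit 57480) (nat_lit 28) (.e (nat_lit 557103) (nat_lit 14) (.e (nat_lit 180250) (nat_lit 10) (.e (nat_lit 573482) (nat_lit 13) (.e (nat_lit 73472) (nat_lit 15) (.e (nat_lit 3253) (nat_lit 197) (.e (nat_lit 532501) (nat_lit 1) (.e (nat_lit 57830) (nat_lit 250) .nil))))))))) (.g (nat_lit 4) .nil .nil))) 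
(.lf (nat_lit 22699) (.g (nat_lit 4514) (.e (nat_lit 1183) (nat_lit 87) (.e (nat_lit 57480) (nat_lit 28) (.e (nat_lit 557105) (nat_lit 14) (.e (nat_lit 180252) (nat_lit 10) (.e (nat_lit 573482) (nat_lit 13) (.e (nat_lit 65637) (nat_lit 15) (.e (nat_lit 3253) (nat_lit 197) (.e (nat_lit 532501) (nat_lit 1) (.e (nat_lit 57830) (nat_lit 250) .nil))))))))) (.g (nat_lit 5) .nil .nil)))) 
(.nd (nat_lit 5) 
(.lf (nat_lit 22683) (.g (nat_lit 3543) (.e (nat_lit 1183) (nat_lit 87) (.e (nat_lit 57480) (nat_lit 28) (.e (nat_lit 557104) (nat_lit 14) (.e (nat_lit 180252) (nat_lit 10) (.e (nat_lit 573482) (nat_lit 13) (.e (nat_lit 73472) (nat_lit 18) (.e (nat_lit 204830) (nat_lit 18) (.e (nat_lit 57830) (nat_lit 250) .nil)))))))) (.g (nat_lit 4) .nil .nil))) 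
(.lf (nat_lit 22715) (.g (nat_lit 3213) (.e (nat_lit 1183) (nat_lit 87) (.e (nat_lit 57480) (nat_lit 28) (.e (nat_lit 557107) (nat_lit 15) (.e (nat_lit 188447) (nat_lit 22) (.e (nat_lit 196666) (nat_lit 13) (.e (nat_lit 65572) (nat_lit 4) (.e (nat_lit 123184) (nat_lit 264) .nil))))))) (.g (nat_lit 5) .nil .nil)))))) (.nd (nat_lit 3) (.nd (nat_lit 4) (.nd (nat_lit 5) 
(.lf (nat_lit 22663) (.g (nat_lit 4459) (.e (nat_lit 1183) (nat_lit 87) (.e (nat_lit 57480) (nat_lit 28) (.e (nat_lit 557103) (nat_lit 14) (.e (nat_lit 180250) (nat_lit 10) (.e (nat_lit 573482) (nat_lit 13) (.e (nat_lit 65637) (nat_lit 15) (.e (nat_lit 3253) (nat_lit 197) (.e (nat_lit 532504) (nat_lit 1) (.e (nat_lit 57829) (nat_lit 250) .nil))))))))) (.g (nat_lit 6) .nil .nil))) 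
(.lf (nat_lit 22695) (.g (nat_lit 4746) (.e (nat_lit 1183) (nat_lit 87) (.e (nat_lit 57480) (nat_lit 28) (.e (nat_lit 557105) (nat_lit 14) (.e (nat_lit 180252) (nat_lit 10) (.e (nat_lit 573481) (nat_lit 13) (.e (nat_lit 65637) (nat_lit 15) (.e (nat_lit 3253) (nat_lit 197) (.e (nat_lit 532501) (nat_lit 1) (.e (nat_lit 57829) (nat_lit 250) .nil))))))))) (.g (nat_lit 7) .nil .nil)))) 
(.nd (nat_lit 5) 
(.lf (nat_lit 22679) (.g (nat_lit 3134) (.e (nat_lit 1183) (nat_lit 87) (.e (nat_lit 57480) (nat_lit 28) (.e (nat_lit 557104) (nat_lit 14) (.e (nat_lit 180252) (nat_lit 10) (.e (nat_lit 573482) (nat_lit 13) (.e (nat_lit 65637) (nat_lit 15) (.e (nat_lit 3253) (nat_lit 197) (.e (nat_lit 532501) (nat_lit 1) (.e (nat_lit 57829) (nat_lit 250) .nil))))))))) (.g (nat_lit 4) .nil .nil))) 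
(.lf (nat_lit 22711) (.g (nat_lit 2911) (.e (nat_lit 1183) (nat_lit 87) (.e (nat_lit 57480) (nat_lit 28) (.e (nat_lit 557105) (nat_lit 14) (.e (nat_lit 180252) (nat_lit 10) (.e (nat_lit 573488) (nat_lit 14) (.e (nat_lit 73747) (nat_lit 3) (.e (nat_lit 516119) (nat_lit 1) (.e (nat_lit 164155) (nat_lit 152) .nil)))))))) (.g (nat_lit 4) .nil .nil))))) (.nd (nat_lit 4) (.nd (nat_lit 5) 
(.lf (nat_lit 22671) (.g (nat_lit 2653) (.e (nat_lit 1183) (nat_lit 87) (.e (nat_lit 57480) (nat_lit 28) (.e (nat_lit 557103) (nat_lit 14) (.e (nat_lit 180250) (nat_lit 10) (.e (nat_lit 573485) (nat_lit 13) (.e (nat_lit 65640) (nat_lit 15) (.e (nat_lit 3253) (nat_lit 197) (.e (nat_lit 532504) (nat_lit 1) (.e (nat_lit 57829) (nat_lit 250) .nil))))))))) (.g (nat_lit 4) .nil .nil))) 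
(.lf (nat_lit 22703) (.g (nat_lit 3399) (.e (nat_lit 1183) (nat_lit 87) (.e (nat_lit 57480) (nat_lit 28) (.e (nat_lit 557105) (nat_lit 14) (.e (nat_lit 180252) (nat_lit 10) (.e (nat_lit 573482) (nat_lit 13) (.e (nat_lit 65640) (nat_lit 15) (.e (nat_lit 3253) (nat_lit 197) (.e (nat_lit 532501) (nat_lit 1) (.e (nat_lit 57830) (nat_lit 250) .nil))))))))) (.g (nat_lit 4) .nil .nil)))) 
(.nd (nat_lit 5) 
(.lf (nat_lit 22687) (.g (nat_lit 3642) (.e (nat_lit 1183) (nat_lit 87) (.e (nat_lit 57480) (nat_lit 28) (.e (nat_lit 557105) (nat_lit 14) (.e (nat_lit 180252) (nat_lit 10) (.e (nat_lit 573451) (nat_lit 9) (.e (nat_lit 1626) (nat_lit 114) (.e (nat_lit 385068) (nat_lit 26) (.e (nat_lit 532501) (nat_lit 1) (.e (nat_lit 57829) (nat_lit 250) .nil))))))))) (.g (nat_lit 4) .nil .nil))) 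
(.lf (nat_lit 22719) (.g (nat_lit 3111) (.e (nat_lit 1183) (nat_lit 87) (.e (nat_lit 57480) (nat_lit 28) (.e (nat_lit 557107) (nat_lit 15) (.e (nat_lit 188447) (nat_lit 22) (.e (nat_lit 196668) (nat_lit 14) (.e (nat_lit 73736) (nat_lit 0) (.e (nat_lit 5818) (nat_lit 320) .nil))))))) (.g (nat_lit 4) .nil .nil)))))))))

noncomputable def tv322 : DT := (.nd (nat_lit 0) (.nd (nat_lit 1) (.nd (nat_lit 2) (.nd (nat_lit 3) (.nd (nat_lit 4) (.nd (nat_lit 5) 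
(.lf (nat_lit 22720) (.g (nat_lit 3941) (.e (nat_lit 1183) (nat_lit 87) (.e (nat_lit 57480) (nat_lit 28) (.e (nat_lit 557107) (nat_lit 15) (.e (nat_lit 188447) (nat_lit 22) (.e (nat_lit 196668) (nat_lit 14) (.e (nat_lit 73737) (nat_lit 0) (.e (nat_lit 5818) (nat_lit 320) .nil))))))) (.g (nat_lit 5) .nil .nil))) 
(.lf (nat_lit 22752) (.g (nat_lit 3875) (.e (nat_lit 1183) (nat_lit 87) (.e (nat_lit 57480) (nat_lit 28) (.e (nat_lit 557108) (nat_lit 15) (.e (nat_lit 188452) (nat_lit 23) (.e (nat_lit 204856) (nat_lit 26) (.e (nat_lit 336032) (nat_lit 4) (.e (nat_lit 123184) (nat_lit 264) .nil))))))) (.g (nat_lit 4) .nil .nil)))) (.nd (nat_lit 5) 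
(.lf (nat_lit 22736) (.g (nat_lit 3358) (.e (nat_lit 1183) (nat_lit 87) (.e (nat_lit 57480) (nat_lit 28) (.e (nat_lit 557108) (nat_lit 15) (.e (nat_lit 188452) (nat_lit 23) (.e (nat_lit 204848) (nat_lit 25) (.e (nat_lit 327692) (nat_lit 1) (.e (nat_lit 8432) (nat_lit 138) .nil))))))) (.g (nat_lit 4) .nil .nil))) 
(.lf (nat_lit 22768) (.g (nat_lit 5414) (.e (nat_lit 1183) (nat_lit 87) (.e (nat_lit 57480) (nat_lit 28) (.e (nat_lit 557109) (nat_lit 15) (.e (nat_lit 188447) (nat_lit 22) (.e (nat_lit 196666) (nat_lit 13) (.e (nat_lit 65572) (nat_lit 4) (.e (nat_lit 123182) (nat_lit 264) .nil))))))) (.g (nat_lit 5) .nil .nil))))) (.nd (nat_lit 4) (.nd (nat_lit 5) 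
(.lf (nat_lit 22728) (.g (nat_lit 1532) (.e (nat_lit 1183) (nat_lit 87) (.e (nat_lit 57480) (nat_lit 28) (.e (nat_lit 557107) (nat_lit 15) (.e (nat_lit 188459) (nat_lit 26) .nil)))) .nil)) 
(.lf (nat_lit 22760) (.g (nat_lit 2820) (.e (nat_lit 1183) (nat_lit 87) (.e (nat_lit 57480) (nat_lit 28) (.e (nat_lit 557108) (nat_lit 15) (.e (nat_lit 188452) (nat_lit 23) (.e (nat_lit 204873) (nat_lit 30) .nil))))) .nil))) (.nd (nat_lit 5) 
(.lf (nat_lit 22744) (.g (nat_lit 2593) (.e (nat_lit 1183) (nat_lit 87) (.e (nat_lit 57480) (nat_lit 28) (.e (nat_lit 557108) (nat_lit 15) (.e (nat_lit 188452) (nat_lit 23) (.e (nat_lit 204851) (nat_lit 26) (.e (nat_lit 336036) (nat_lit 4) (.e (nat_lit 123184) (nat_lit 264) .nil))))))) (.g (nat_lit 4) .nil .nil))) 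
(.lf (nat_lit 22776) (.g (nat_lit 3717) (.e (nat_lit 1183) (nat_lit 87) (.e (nat_lit 57480) (nat_lit 28) (.e (nat_lit 557109) (nat_lit 15) (.e (nat_lit 188449) (nat_lit 22) (.e (nat_lit 196662) (nat_lit 13) (.e (nat_lit 65574) (nat_lit 4) (.e (nat_lit 123182) (nat_lit 264) .nil))))))) (.g (nat_lit 4) .nil .nil)))))) (.nd (nat_lit 3) (.nd (nat_lit 4) (.nd (nat_lit 5) 
(.lf (nat_lit 22724) (.g (nat_lit 2958) (.e (nat_lit 1183) (nat_lit 87) (.e (nat_lit 57480) (nat_lit 28) (.e (nat_lit 557107) (nat_lit 15) (.e (nat_lit 188450) (nat_lit 23) (.e (nat_lit 204855) (nat_lit 26) (.e (nat_lit 336030) (nat_lit 4) (.e (nat_lit 123184) (nat_lit 264) .nil))))))) (.g (nat_lit 4) .nil .nil))) 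
(.lf (nat_lit 22756) (.g (nat_lit 3864) (.e (nat_lit 1183) (nat_lit 87) (.e (nat_lit 57480) (nat_lit 28) (.e (nat_lit 557108) (nat_lit 15) (.e (nat_lit 188452) (nat_lit 23) (.e (nat_lit 212736) (nat_lit 26) (.e (nat_lit 336032) (nat_lit 4) (.e (nat_lit 123182) (nat_lit 264) .nil))))))) (.g (nat_lit 4) .nil .nil)))) (.nd (nat_lit 5) 
(.lf (nat_lit 22740) (.g (nat_lit 4434) (.e (nat_lit 1183) (nat_lit 87) (.e (nat_lit 57480) (nat_lit 28) (.e (nat_lit 557108) (nat_lit 15) (.e (nat_lit 188452) (nat_lit 23) (.e (nat_lit 204849) (nat_lit 25) (.e (nat_lit 327692) (nat_lit 1) (.e (nat_lit 8432) (nat_lit 138) .nil))))))) (.g (nat_lit 6) .nil .nil))) 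
(.lf (nat_lit 22772) (.g (nat_lit 4848) (.e (nat_lit 1183) (nat_lit 87) (.e (nat_lit 57480) (nat_lit 28) (.e (nat_lit 557109) (nat_lit 15) (.e (nat_lit 188447) (nat_lit 22) (.e (nat_lit 196666) (nat_lit 13) (.e (nat_lit 65574) (nat_lit 4) (.e (nat_lit 123185) (nat_lit 264) .nil))))))) (.g (nat_lit 5) .nil .nil))))) (.nd (nat_lit 4) (.nd (nat_lit 5) 
(.lf (nat_lit 22732) (.g (nat_lit 2009) (.e (nat_lit 1183) (nat_lit 87) (.e (nat_lit 57480) (nat_lit 28) (.e (nat_lit 557108) (nat_lit 15) (.e (nat_lit 188452) (nat_lit 23) (.e (nat_lit 204816) (nat_lit 17) .nil))))) .nil)) 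
(.lf (nat_lit 22764) (.g (nat_lit 3363) (.e (nat_lit 1183) (nat_lit 87) (.e (nat_lit 57480) (nat_lit 28) (.e (nat_lit 557108) (nat_lit 15) (.e (nat_lit 188452) (nat_lit 23) (.e (nat_lit 204874) (nat_lit 30) (.e (nat_lit 368664) (nat_lit 18) (.e (nat_lit 5818) (nat_lit 320) .nil))))))) (.g (nat_lit 4) .nil .nil)))) (.nd (nat_lit 5) 
(.lf (nat_lit 22748) (.g (nat_lit 3983) (.e (nat_lit 1183) (nat_lit 87) (.e (nat_lit 57480) (nat_lit 28) (.e (nat_lit 557108) (nat_lit 15) (.e (nat_lit 188452) (nat_lit 23) (.e (nat_lit 204852) (nat_lit 26) (.e (nat_lit 336036) (nat_lit 4) (.e (nat_lit 123185) (nat_lit 264) .nil))))))) (.g (nat_lit 5) .nil .nil))) 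
(.lf (nat_lit 22780) (.g (nat_lit 2766) (.e (nat_lit 1183) (nat_lit 87) (.e (nat_lit 57480) (nat_lit 28) (.e (nat_lit 557109) (nat_lit 15) (.e (nat_lit 188449) (nat_lit 22) (.e (nat_lit 196666) (nat_lit 13) (.e (nat_lit 65572) (nat_lit 4) (.e (nat_lit 123183) (nat_lit 264) .nil))))))) (.g (nat_lit 4) .nil .nil))))))) (.nd (nat_lit 2) (.nd (nat_lit 3) (.nd (nat_lit 4) (.nd (nat_lit 5) 
(.lf (nat_lit 22722) (.g (nat_lit 3582) (.e (nat_lit 1183) (nat_lit 87) (.e (nat_lit 57480) (nat_lit 28) (.e (nat_lit 557107) (nat_lit 15) (.e (nat_lit 188447) (nat_lit 22) (.e (nat_lit 196681) (nat_lit 17) (.e (nat_lit 131099) (nat_lit 4) (.e (nat_lit 123182) (nat_lit 264) .nil))))))) (.g (nat_lit 4) .nil .nil))) 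
(.lf (nat_lit 22754) (.g (nat_lit 5231) (.e (nat_lit 1183) (nat_lit 87) (.e (nat_lit 57480) (nat_lit 28) (.e (nat_lit 557108) (nat_lit 15) (.e (nat_lit 188452) (nat_lit 23) (.e (nat_lit 204859) (nat_lit 26) (.e (nat_lit 336035) (nat_lit 4) (.e (nat_lit 123185) (nat_lit 264) .nil))))))) (.g (nat_lit 4) .nil .nil)))) (.nd (nat_lit 5) 
(.lf (nat_lit 22738) (.g (nat_lit 3394) (.e (nat_lit 1183) (nat_lit 87) (.e (nat_lit 57480) (nat_lit 28) (.e (nat_lit 557108) (nat_lit 15) (.e (nat_lit 188452) (nat_lit 23) (.e (nat_lit 204849) (nat_lit 25) (.e (nat_lit 327692) (nat_lit 1) (.e (nat_lit 8430) (nat_lit 138) .nil))))))) (.g (nat_lit 4) .nil .nil))) 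
(.lf (nat_lit 22770) (.g (nat_lit 5461) (.e (nat_lit 1183) (nat_lit 87) (.e (nat_lit 57480) (nat_lit 28) (.e (nat_lit 557109) (nat_lit 15) (.e (nat_lit 188447) (nat_lit 22) (.e (nat_lit 196666) (nat_lit 13) (.e (nat_lit 65573) (nat_lit 4) (.e (nat_lit 123182) (nat_lit 264) .nil))))))) (.g (nat_lit 5) .nil .nil))))) (.nd (nat_lit 4) (.nd (nat_lit 5) 
(.lf (nat_lit 22730) (.g (nat_lit 2286) (.e (nat_lit 1183) (nat_lit 87) (.e (nat_lit 57480) (nat_lit 28) (.e (nat_lit 557108) (nat_lit 15) (.e (nat_lit 188447) (nat_lit 22) .nil)))) .nil)) 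
(.lf (nat_lit 22762) (.g (nat_lit 2787) (.e (nat_lit 1183) (nat_lit 87) (.e (nat_lit 57480) (nat_lit 28) (.e (nat_lit 557108) (nat_lit 15) (.e (nat_lit 188452) (nat_lit 23) (.e (nat_lit 204874) (nat_lit 30) .nil))))) .nil))) (.nd (nat_lit 5) 
(.lf (nat_lit 22746) (.g (nat_lit 2772) (.e (nat_lit 1183) (nat_lit 87) (.e (nat_lit 57480) (nat_lit 28) (.e (nat_lit 557108) (nat_lit 15) (.e (nat_lit 188452) (nat_lit 23) (.e (nat_lit 204852) (nat_lit 26) .nil))))) .nil)) 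
(.lf (nat_lit 22778) (.g (nat_lit 4632) (.e (nat_lit 1183) (nat_lit 87) (.e (nat_lit 57480) (nat_lit 28) (.e (nat_lit 557109) (nat_lit 15) (.e (nat_lit 188449) (nat_lit 22) (.e (nat_lit 196663) (nat_lit 13) (.e (nat_lit 65574) (nat_lit 4) (.e (nat_lit 123185) (nat_lit 264) .nil))))))) (.g (nat_lit 4) .nil .nil)))))) (.nd (nat_lit 3) (.nd (nat_lit 4) (.nd (nat_lit 5) 
(.lf (nat_lit 22726) (.g (nat_lit 2809) (.e (nat_lit 1183) (nat_lit 87) (.e (nat_lit 57480) (nat_lit 28) (.e (nat_lit 557107) (nat_lit 15) (.e (nat_lit 188450) (nat_lit 23) (.e (nat_lit 204856) (nat_lit 26) (.e (nat_lit 336032) (nat_lit 4) (.e (nat_lit 123182) (nat_lit 264) .nil))))))) (.g (nat_lit 4) .nil .nil))) 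
(.lf (nat_lit 22758) (.g (nat_lit 2447) (.e (nat_lit 1183) (nat_lit 87) (.e (nat_lit 57480) (nat_lit 28) (.e (nat_lit 557108) (nat_lit 15) (.e (nat_lit 188452) (nat_lit 23) (.e (nat_lit 204872) (nat_lit 30) .nil))))) .nil))) (.nd (nat_lit 5) 
(.lf (nat_lit 22742) (.g (nat_lit 3298) (.e (nat_lit 1183) (nat_lit 87) (.e (nat_lit 57480) (nat_lit 28) (.e (nat_lit 557108) (nat_lit 15) (.e (nat_lit 188452) (nat_lit 23) (.e (nat_lit 204850) (nat_lit 26) (.e (nat_lit 336032) (nat_lit 4) (.e (nat_lit 123182) (nat_lit 264) .nil))))))) (.g (nat_lit 4) .nil .nil))) 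
(.lf (nat_lit 22774) (.g (nat_lit 4222) (.e (nat_lit 1183) (nat_lit 87) (.e (nat_lit 57480) (nat_lit 28) (.e (nat_lit 557109) (nat_lit 15) (.e (nat_lit 188447) (nat_lit 22) (.e (nat_lit 196681) (nat_lit 17) (.e (nat_lit 131099) (nat_lit 4) (.e (nat_lit 123182) (nat_lit 264) .nil))))))) (.g (nat_lit 4) .nil .nil))))) (.nd (nat_lit 4) (.nd (nat_lit 5) 
(.lf (nat_lit 22734) (.g (nat_lit 4298) (.e (nat_lit 1183) (nat_lit 87) (.e (nat_lit 57480) (nat_lit 28) (.e (nat_lit 557108) (nat_lit 15) (.e (nat_lit 188452) (nat_lit 23) (.e (nat_lit 204817) (nat_lit 17) (.e (nat_lit 7936) (nat_lit 343) (.e (nat_lit 1288) (nat_lit 95) (.e (nat_lit 123182) (nat_lit 264) .nil)))))))) (.g (nat_lit 4) .nil .nil))) 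
(.lf (nat_lit 22766) (.g (nat_lit 3271) (.e (nat_lit 1183) (nat_lit 87) (.e (nat_lit 57480) (nat_lit 28) (.e (nat_lit 557109) (nat_lit 15) (.e (nat_lit 188421) (nat_lit 11) (.e (nat_lit 336387) (nat_lit 27) (.e (nat_lit 426108) (nat_lit 1) (.e (nat_lit 164297) (nat_lit 226) .nil))))))) (.g (nat_lit 4) .nil .nil)))) (.nd (nat_lit 5) 
(.lf (nat_lit 22750) (.g (nat_lit 3771) (.e (nat_lit 1183) (nat_lit 87) (.e (nat_lit 57480) (nat_lit 28) (.e (nat_lit 557108) (nat_lit 15) (.e (nat_lit 188452) (nat_lit 23) (.e (nat_lit 204852) (nat_lit 26) (.e (nat_lit 343808) (nat_lit 4) (.e (nat_lit 123185) (nat_lit 264) .nil))))))) (.g (nat_lit 5) .nil .nil))) 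
(.lf (nat_lit 22782) (.g (nat_lit 2440) (.e (nat_lit 1183) (nat_lit 87) (.e (nat_lit 57480) (nat_lit 28) (.e (nat_lit 557109) (nat_lit 15) (.e (nat_lit 188449) (nat_lit 22) (.e (nat_lit 196666) (nat_lit 13) (.e (nat_lit 65573) (nat_lit 4) (.e (nat_lit 123184) (nat_lit 264) .nil))))))) (.g (nat_lit 4) .nil .nil)))))))) 
(.nd (nat_lit 1) (.nd (nat_lit 2) (.nd (nat_lit 3) (.nd (nat_lit 4) (.nd (nat_lit 5) 
(.lf (nat_lit 22721) (.g (nat_lit 2769) (.e (nat_lit 1183) (nat_lit 87) (.e (nat_lit 57480) (nat_lit 28) (.e (nat_lit 557107) (nat_lit 15) (.e (nat_lit 188447) (nat_lit 22) (.e (nat_lit 196670) (nat_lit 14) .nil))))) .nil)) 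
(.lf (nat_lit 22753) (.g (nat_lit 5207) (.e (nat_lit 1183) (nat_lit 87) (.e (nat_lit 57480) (nat_lit 28) (.e (nat_lit 557108) (nat_lit 15) (.e (nat_lit 188452) (nat_lit 23) (.e (nat_lit 204858) (nat_lit 26) (.e (nat_lit 336031) (nat_lit 4) (.e (nat_lit 123182) (nat_lit 264) .nil))))))) (.g (nat_lit 4) .nil .nil)))) (.nd (nat_lit 5) 
(.lf (nat_lit 22737) (.g (nat_lit 3762) (.e (nat_lit 1183) (nat_lit 87) (.e (nat_lit 57480) (nat_lit 28) (.e (nat_lit 557108) (nat_lit 15) (.e (nat_lit 188452) (nat_lit 23) (.e (nat_lit 204848) (nat_lit 25) (.e (nat_lit 327692) (nat_lit 1) (.e (nat_lit 8433) (nat_lit 138) .nil))))))) (.g (nat_lit 4) .nil .nil))) 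
(.lf (nat_lit 22769) (.g (nat_lit 4057) (.e (nat_lit 1183) (nat_lit 87) (.e (nat_lit 57480) (nat_lit 28) (.e (nat_lit 557109) (nat_lit 15) (.e (nat_lit 188447) (nat_lit 22) (.e (nat_lit 196666) (nat_lit 13) (.e (nat_lit 65572) (nat_lit 4) (.e (nat_lit 123184) (nat_lit 264) .nil))))))) (.g (nat_lit 4) .nil .nil))))) (.nd (nat_lit 4) (.nd (nat_lit 5) 
(.lf (nat_lit 22729) (.g (nat_lit 1333) (.e (nat_lit 1183) (nat_lit 87) (.e (nat_lit 57480) (nat_lit 28) (.e (nat_lit 557108) (nat_lit 15) (.e (nat_lit 196352) (nat_lit 18) .nil)))) .nil)) 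
(.lf (nat_lit 22761) (.g (nat_lit 3679) (.e (nat_lit 1183) (nat_lit 87) (.e (nat_lit 57480) (nat_lit 28) (.e (nat_lit 557108) (nat_lit 15) (.e (nat_lit 188452) (nat_lit 23) (.e (nat_lit 204873) (nat_lit 30) (.e (nat_lit 368666) (nat_lit 18) (.e (nat_lit 5818) (nat_lit 320) .nil))))))) (.g (nat_lit 4) .nil .nil)))) (.nd (nat_lit 5) 
(.lf (nat_lit 22745) (.g (nat_lit 3492) (.e (nat_lit 1183) (nat_lit 87) (.e (nat_lit 57480) (nat_lit 28) (.e (nat_lit 557108) (nat_lit 15) (.e (nat_lit 188452) (nat_lit 23) (.e (nat_lit 204851) (nat_lit 26) (.e (nat_lit 336036) (nat_lit 4) (.e (nat_lit 123185) (nat_lit 264) .nil))))))) (.g (nat_lit 5) .nil .nil))) 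
(.lf (nat_lit 22777) (.g (nat_lit 4452) (.e (nat_lit 1183) (nat_lit 87) (.e (nat_lit 57480) (nat_lit 28) (.e (nat_lit 557109) (nat_lit 15) (.e (nat_lit 188449) (nat_lit 22) (.e (nat_lit 196663) (nat_lit 13) (.e (nat_lit 65574) (nat_lit 4) (.e (nat_lit 123184) (nat_lit 264) .nil))))))) (.g (nat_lit 4) .nil .nil)))))) (.nd (nat_lit 3) (.nd (nat_lit 4) (.nd (nat_lit 5) 
(.lf (nat_lit 22725) (.g (nat_lit 3565) (.e (nat_lit 1183) (nat_lit 87) (.e (nat_lit 57480) (nat_lit 28) (.e (nat_lit 557107) (nat_lit 15) (.e (nat_lit 188450) (nat_lit 23) (.e (nat_lit 204855) (nat_lit 26) (.e (nat_lit 336030) (nat_lit 4) (.e (nat_lit 123185) (nat_lit 264) .nil))))))) (.g (nat_lit 5) .nil .nil))) 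
(.lf (nat_lit 22757) (.g (nat_lit 4255) (.e (nat_lit 1183) (nat_lit 87) (.e (nat_lit 57480) (nat_lit 28) (.e (nat_lit 557108) (nat_lit 15) (.e (nat_lit 188452) (nat_lit 23) (.e (nat_lit 212736) (nat_lit 26) (.e (nat_lit 336035) (nat_lit 4) (.e (nat_lit 123185) (nat_lit 264) .nil))))))) (.g (nat_lit 4) .nil .nil)))) (.nd (nat_lit 5) 
(.lf (nat_lit 22741) (.g (nat_lit 4843) (.e (nat_lit 1183) (nat_lit 87) (.e (nat_lit 57480) (nat_lit 28) (.e (nat_lit 557108) (nat_lit 15) (.e (nat_lit 188452) (nat_lit 23) (.e (nat_lit 204849) (nat_lit 25) (.e (nat_lit 327692) (nat_lit 1) (.e (nat_lit 8433) (nat_lit 138) .nil))))))) (.g (nat_lit 0) .nil .nil))) 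
(.lf (nat_lit 22773) (.g (nat_lit 3789) (.e (nat_lit 1183) (nat_lit 87) (.e (nat_lit 57480) (nat_lit 28) (.e (nat_lit 557109) (nat_lit 15) (.e (nat_lit 188447) (nat_lit 22) (.e (nat_lit 196670) (nat_lit 14) .nil))))) .nil)))) (.nd (nat_lit 4) (.nd (nat_lit 5) 
(.lf (nat_lit 22733) (.g (nat_lit 2641) (.e (nat_lit 1183) (nat_lit 87) (.e (nat_lit 57480) (nat_lit 28) (.e (nat_lit 557108) (nat_lit 15) (.e (nat_lit 188452) (nat_lit 23) (.e (nat_lit 204816) (nat_lit 17) (.e (nat_lit 6434) (nat_lit 343) (.e (nat_lit 1288) (nat_lit 95) (.e (nat_lit 123184) (nat_lit 264) .nil)))))))) (.g (nat_lit 4) .nil .nil))) 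
(.lf (nat_lit 22765) (.g (nat_lit 2137) (.e (nat_lit 1183) (nat_lit 87) (.e (nat_lit 57480) (nat_lit 28) (.e (nat_lit 557108) (nat_lit 15) (.e (nat_lit 188458) (nat_lit 25) .nil)))) .nil))) (.nd (nat_lit 5) 
(.lf (nat_lit 22749) (.g (nat_lit 3730) (.e (nat_lit 1183) (nat_lit 87) (.e (nat_lit 57480) (nat_lit 28) (.e (nat_lit 557108) (nat_lit 15) (.e (nat_lit 188452) (nat_lit 23) (.e (nat_lit 204852) (nat_lit 26) (.e (nat_lit 343808) (nat_lit 4) (.e (nat_lit 123184) (nat_lit 264) .nil))))))) (.g (nat_lit 5) .nil .nil))) 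
(.lf (nat_lit 22781) (.g (nat_lit 2577) (.e (nat_lit 1183) (nat_lit 87) (.e (nat_lit 57480) (nat_lit 28) (.e (nat_lit 557109) (nat_lit 15) (.e (nat_lit 188449) (nat_lit 22) (.e (nat_lit 196666) (nat_lit 13) (.e (nat_lit 65573) (nat_lit 4) (.e (nat_lit 123183) (nat_lit 264) .nil))))))) (.g (nat_lit 4) .nil .nil))))))) (.nd (nat_lit 2) (.nd (nat_lit 3) (.nd (nat_lit 4) (.nd (nat_lit 5) 
(.lf (nat_lit 22723) (.g (nat_lit 1499) (.e (nat_lit 1183) (nat_lit 87) (.e (nat_lit 57480) (nat_lit 28) (.e (nat_lit 557107) (nat_lit 15) (.e (nat_lit 188450) (nat_lit 23) .nil)))) .nil)) 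
(.lf (nat_lit 22755) (.g (nat_lit 5918) (.e (nat_lit 1183) (nat_lit 87) (.e (nat_lit 57480) (nat_lit 28) (.e (nat_lit 557108) (nat_lit 15) (.e (nat_lit 188452) (nat_lit 23) (.e (nat_lit 204861) (nat_lit 26) (.e (nat_lit 336033) (nat_lit 4) (.e (nat_lit 123182) (nat_lit 264) .nil))))))) (.g (nat_lit 4) .nil .nil)))) (.nd (nat_lit 5) 
(.lf (nat_lit 22739) (.g (nat_lit 3941) (.e (nat_lit 1183) (nat_lit 87) (.e (nat_lit 57480) (nat_lit 28) (.e (nat_lit 557108) (nat_lit 15) (.e (nat_lit 188452) (nat_lit 23) (.e (nat_lit 204849) (nat_lit 25) (.e (nat_lit 327692) (nat_lit 1) (.e (nat_lit 8431) (nat_lit 138) .nil))))))) (.g (nat_lit 5) .nil .nil))) 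
(.lf (nat_lit 22771) (.g (nat_lit 5747) (.e (nat_lit 1183) (nat_lit 87) (.e (nat_lit 57480) (nat_lit 28) (.e (nat_lit 557109) (nat_lit 15) (.e (nat_lit 188447) (nat_lit 22) (.e (nat_lit 196666) (nat_lit 13) (.e (nat_lit 65574) (nat_lit 4) (.e (nat_lit 123182) (nat_lit 264) .nil))))))) (.g (nat_lit 6) .nil .nil))))) (.nd (nat_lit 4) (.nd (nat_lit 5) 
(.lf (nat_lit 22731) (.g (nat_lit 1292) (.e (nat_lit 1183) (nat_lit 87) (.e (nat_lit 57480) (nat_lit 28) (.e (nat_lit 557108) (nat_lit 15) (.e (nat_lit 188452) (nat_lit 23) .nil)))) .nil)) 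
(.lf (nat_lit 22763) (.g (nat_lit 3165) (.e (nat_lit 1183) (nat_lit 87) (.e (nat_lit 57480) (nat_lit 28) (.e (nat_lit 557108) (nat_lit 15) (.e (nat_lit 188452) (nat_lit 23) (.e (nat_lit 204874) (nat_lit 30) (.e (nat_lit 368664) (nat_lit 18) (.e (nat_lit 5817) (nat_lit 320) .nil))))))) (.g (nat_lit 4) .nil .nil)))) (.nd (nat_lit 5) 
(.lf (nat_lit 22747) (.g (nat_lit 3175) (.e (nat_lit 1183) (nat_lit 87) (.e (nat_lit 57480) (nat_lit 28) (.e (nat_lit 557108) (nat_lit 15) (.e (nat_lit 188452) (nat_lit 23) (.e (nat_lit 204852) (nat_lit 26) (.e (nat_lit 336036) (nat_lit 4) (.e (nat_lit 123184) (nat_lit 264) .nil))))))) (.g (nat_lit 4) .nil .nil))) 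
(.lf (nat_lit 22779) (.g (nat_lit 5369) (.e (nat_lit 1183) (nat_lit 87) (.e (nat_lit 57480) (nat_lit 28) (.e (nat_lit 557109) (nat_lit 15) (.e (nat_lit 188449) (nat_lit 22) (.e (nat_lit 196666) (nat_lit 13) (.e (nat_lit 65572) (nat_lit 4) (.e (nat_lit 123182) (nat_lit 264) .nil))))))) (.g (nat_lit 0) .nil .nil)))))) (.nd (nat_lit 3) (.nd (nat_lit 4) (.nd (nat_lit 5) 
(.lf (nat_lit 22727) (.g (nat_lit 3434) (.e (nat_lit 1183) (nat_lit 87) (.e (nat_lit 57480) (nat_lit 28) (.e (nat_lit 557107) (nat_lit 15) (.e (nat_lit 188450) (nat_lit 23) (.e (nat_lit 204863) (nat_lit 27) (.e (nat_lit 344103) (nat_lit 18) (.e (nat_lit 5818) (nat_lit 320) .nil))))))) (.g (nat_lit 5) .nil .nil))) 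
(.lf (nat_lit 22759) (.g (nat_lit 2984) (.e (nat_lit 1183) (nat_lit 87) (.e (nat_lit 57480) (nat_lit 28) (.e (nat_lit 557108) (nat_lit 15) (.e (nat_lit 188452) (nat_lit 23) (.e (nat_lit 204872) (nat_lit 30) (.e (nat_lit 368666) (nat_lit 18) (.e (nat_lit 5818) (nat_lit 320) .nil))))))) (.g (nat_lit 4) .nil .nil)))) (.nd (nat_lit 5) 
(.lf (nat_lit 22743) (.g (nat_lit 2928) (.e (nat_lit 1183) (nat_lit 87) (.e (nat_lit 57480) (nat_lit 28) (.e (nat_lit 557108) (nat_lit 15) (.e (nat_lit 188452) (nat_lit 23) (.e (nat_lit 204851) (nat_lit 26) (.e (nat_lit 336029) (nat_lit 4) (.e (nat_lit 123184) (nat_lit 264) .nil))))))) (.g (nat_lit 4) .nil .nil))) 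
(.lf (nat_lit 22775) (.g (nat_lit 3590) (.e (nat_lit 1183) (nat_lit 87) (.e (nat_lit 57480) (nat_lit 28) (.e (nat_lit 557109) (nat_lit 15) (.e (nat_lit 188449) (nat_lit 22) (.e (nat_lit 196662) (nat_lit 13) (.e (nat_lit 65573) (nat_lit 4) (.e (nat_lit 123182) (nat_lit 264) .nil))))))) (.g (nat_lit 4) .nil .nil))))) (.nd (nat_lit 4) (.nd (nat_lit 5) 
(.lf (nat_lit 22735) (.g (nat_lit 2949) (.e (nat_lit 1183) (nat_lit 87) (.e (nat_lit 57480) (nat_lit 28) (.e (nat_lit 557108) (nat_lit 15) (.e (nat_lit 188452) (nat_lit 23) (.e (nat_lit 204848) (nat_lit 25) .nil))))) .nil)) 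
(.lf (nat_lit 22767) (.g (nat_lit 2139) (.e (nat_lit 1183) (nat_lit 87) (.e (nat_lit 57480) (nat_lit 28) (.e (nat_lit 557109) (nat_lit 15) (.e (nat_lit 196352) (nat_lit 18) .nil)))) .nil))) (.nd (nat_lit 5) 
(.lf (nat_lit 22751) (.g (nat_lit 4349) (.e (nat_lit 1183) (nat_lit 87) (.e (nat_lit 57480) (nat_lit 28) (.e (nat_lit 557108) (nat_lit 15) (.e (nat_lit 188452) (nat_lit 23) (.e (nat_lit 204856) (nat_lit 26) (.e (nat_lit 336031) (nat_lit 4) (.e (nat_lit 123182) (nat_lit 264) .nil))))))) (.g (nat_lit 4) .nil .nil))) 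
(.lf (nat_lit 22783) (.g (nat_lit 2473) (.e (nat_lit 1183) (nat_lit 87) (.e (nat_lit 57480) (nat_lit 28) (.e (nat_lit 557109) (nat_lit 15) (.e (nat_lit 188449) (nat_lit 22) (.e (nat_lit 196666) (nat_lit 13) (.e (nat_lit 65573) (nat_lit 4) (.e (nat_lit 123185) (nat_lit 264) .nil))))))) (.g (nat_lit 4) .nil .nil)))))))))

noncomputable def tv323 : DT := (.nd (nat_lit 0) (.nd (nat_lit 1) (.nd (nat_lit 2) (.nd (nat_lit 3) (.nd (nat_lit 4) (.nd (nat_lit 5) 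
(.lf (nat_lit 22784) (.g (nat_lit 5596) (.e (nat_lit 1183) (nat_lit 87) (.e (nat_lit 57480) (nat_lit 28) (.e (nat_lit 557109) (nat_lit 15) (.e (nat_lit 188449) (nat_lit 22) (.e (nat_lit 196666) (nat_lit 13) (.e (nat_lit 65574) (nat_lit 4) (.e (nat_lit 123182) (nat_lit 264) .nil))))))) (.g (nat_lit 0) .nil .nil))) 
(.lf (nat_lit 22816) (.g (nat_lit 4265) (.e (nat_lit 1183) (nat_lit 87) (.e (nat_lit 57480) (nat_lit 28) (.e (nat_lit 557109) (nat_lit 15) (.e (nat_lit 188452) (nat_lit 23) (.e (nat_lit 204857) (nat_lit 26) (.e (nat_lit 336031) (nat_lit 4) (.e (nat_lit 123182) (nat_lit 264) .nil))))))) (.g (nat_lit 4) .nil .nil)))) (.nd (nat_lit 5) 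
(.lf (nat_lit 22800) (.g (nat_lit 4150) (.e (nat_lit 1183) (nat_lit 87) (.e (nat_lit 57480) (nat_lit 28) (.e (nat_lit 557109) (nat_lit 15) (.e (nat_lit 188452) (nat_lit 23) (.e (nat_lit 204817) (nat_lit 17) (.e (nat_lit 7936) (nat_lit 343) (.e (nat_lit 1288) (nat_lit 95) (.e (nat_lit 123182) (nat_lit 264) .nil)))))))) (.g (nat_lit 4) .nil .nil))) 
(.lf (nat_lit 22832) (.g (nat_lit 3931) (.e (nat_lit 1183) (nat_lit 87) (.e (nat_lit 57480) (nat_lit 28) (.e (nat_lit 557109) (nat_lit 15) (.e (nat_lit 188458) (nat_lit 25) (.e (nat_lit 245784) (nat_lit 9) (.e (nat_lit 1456) (nat_lit 108) (.e (nat_lit 336032) (nat_lit 4) (.e (nat_lit 123182) (nat_lit 264) .nil)))))))) (.g (nat_lit 4) .nil .nil))))) (.nd (nat_lit 4) (.nd (nat_lit 5) 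
(.lf (nat_lit 22792) (.g (nat_lit 4802) (.e (nat_lit 1183) (nat_lit 87) (.e (nat_lit 57480) (nat_lit 28) (.e (nat_lit 557109) (nat_lit 15) (.e (nat_lit 188449) (nat_lit 22) (.e (nat_lit 196680) (nat_lit 17) .nil))))) .nil)) 
(.lf (nat_lit 22824) (.g (nat_lit 5095) (.e (nat_lit 1183) (nat_lit 87) (.e (nat_lit 57480) (nat_lit 28) (.e (nat_lit 557109) (nat_lit 15) (.e (nat_lit 188452) (nat_lit 23) (.e (nat_lit 204864) (nat_lit 27) (.e (nat_lit 344104) (nat_lit 18) (.e (nat_lit 5818) (nat_lit 320) .nil))))))) (.g (nat_lit 0) .nil .nil)))) (.nd (nat_lit 5) 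
(.lf (nat_lit 22808) (.g (nat_lit 5526) (.e (nat_lit 1183) (nat_lit 87) (.e (nat_lit 57480) (nat_lit 28) (.e (nat_lit 557109) (nat_lit 15) (.e (nat_lit 188452) (nat_lit 23) (.e (nat_lit 204855) (nat_lit 26) (.e (nat_lit 336030) (nat_lit 4) (.e (nat_lit 123182) (nat_lit 264) .nil))))))) (.g (nat_lit 0) .nil .nil))) 
(.lf (nat_lit 22840) (.g (nat_lit 3196) (.e (nat_lit 1183) (nat_lit 87) (.e (nat_lit 57480) (nat_lit 28) (.e (nat_lit 557109) (nat_lit 15) (.e (nat_lit 188461) (nat_lit 26) (.e (nat_lit 253959) (nat_lit 9) .nil))))) .nil))))) (.nd (nat_lit 3) (.nd (nat_lit 4) (.nd (nat_lit 5) 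
(.lf (nat_lit 22788) (.g (nat_lit 4536) (.e (nat_lit 1183) (nat_lit 87) (.e (nat_lit 57480) (nat_lit 28) (.e (nat_lit 557109) (nat_lit 15) (.e (nat_lit 188449) (nat_lit 22) (.e (nat_lit 196667) (nat_lit 14) (.e (nat_lit 73737) (nat_lit 0) (.e (nat_lit 5818) (nat_lit 320) .nil))))))) (.g (nat_lit 4) .nil .nil))) 
(.lf (nat_lit 22820) (.g (nat_lit 3724) (.e (nat_lit 1183) (nat_lit 87) (.e (nat_lit 57480) (nat_lit 28) (.e (nat_lit 557109) (nat_lit 15) (.e (nat_lit 188452) (nat_lit 23) (.e (nat_lit 204859) (nat_lit 26) (.e (nat_lit 336035) (nat_lit 4) (.e (nat_lit 123185) (nat_lit 264) .nil))))))) (.g (nat_lit 4) .nil .nil)))) (.nd (nat_lit 5) 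
(.lf (nat_lit 22804) (.g (nat_lit 3111) (.e (nat_lit 1183) (nat_lit 87) (.e (nat_lit 57480) (nat_lit 28) (.e (nat_lit 557109) (nat_lit 15) (.e (nat_lit 188452) (nat_lit 23) (.e (nat_lit 204851) (nat_lit 26) (.e (nat_lit 336029) (nat_lit 4) (.e (nat_lit 123182) (nat_lit 264) .nil))))))) (.g (nat_lit 4) .nil .nil))) 
(.lf (nat_lit 22836) (.g (nat_lit 4423) (.e (nat_lit 1183) (nat_lit 87) (.e (nat_lit 57480) (nat_lit 28) (.e (nat_lit 557109) (nat_lit 15) (.e (nat_lit 188458) (nat_lit 25) (.e (nat_lit 245791) (nat_lit 14) (.e (nat_lit 73736) (nat_lit 0) (.e (nat_lit 5818) (nat_lit 320) .nil))))))) (.g (nat_lit 5) .nil .nil))))) (.nd (nat_lit 4) (.nd (nat_lit 5) 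
(.lf (nat_lit 22796) (.g (nat_lit 3847) (.e (nat_lit 1183) (nat_lit 87) (.e (nat_lit 57480) (nat_lit 28) (.e (nat_lit 557109) (nat_lit 15) (.e (nat_lit 188450) (nat_lit 23) (.e (nat_lit 204855) (nat_lit 26) (.e (nat_lit 336030) (nat_lit 4) (.e (nat_lit 123184) (nat_lit 264) .nil))))))) (.g (nat_lit 4) .nil .nil))) 
(.lf (nat_lit 22828) (.g (nat_lit 3531) (.e (nat_lit 1183) (nat_lit 87) (.e (nat_lit 57480) (nat_lit 28) (.e (nat_lit 557109) (nat_lit 15) (.e (nat_lit 188458) (nat_lit 25) (.e (nat_lit 245782) (nat_lit 9) .nil))))) .nil))) (.nd (nat_lit 5) 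
(.lf (nat_lit 22812) (.g (nat_lit 3143) (.e (nat_lit 1183) (nat_lit 87) (.e (nat_lit 57480) (nat_lit 28) (.e (nat_lit 557109) (nat_lit 15) (.e (nat_lit 188452) (nat_lit 23) (.e (nat_lit 204856) (nat_lit 26) (.e (nat_lit 336030) (nat_lit 4) (.e (nat_lit 123185) (nat_lit 264) .nil))))))) (.g (nat_lit 4) .nil .nil))) 
(.lf (nat_lit 22844) (.g (nat_lit 3530) (.e (nat_lit 1183) (nat_lit 87) (.e (nat_lit 57480) (nat_lit 28) (.e (nat_lit 557109) (nat_lit 15) (.e (nat_lit 188461) (nat_lit 26) (.e (nat_lit 253967) (nat_lit 9) .nil))))) .nil)))))) (.nd (nat_lit 2) (.nd (nat_lit 3) (.nd (nat_lit 4) (.nd (nat_lit 5) 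
(.lf (nat_lit 22786) (.g (nat_lit 4349) (.e (nat_lit 1183) (nat_lit 87) (.e (nat_lit 57480) (nat_lit 28) (.e (nat_lit 557109) (nat_lit 15) (.e (nat_lit 188449) (nat_lit 22) (.e (nat_lit 196666) (nat_lit 13) (.e (nat_lit 65574) (nat_lit 4) (.e (nat_lit 123184) (nat_lit 264) .nil))))))) (.g (nat_lit 7) .nil .nil))) 
(.lf (nat_lit 22818) (.g (nat_lit 4831) (.e (nat_lit 1183) (nat_lit 87) (.e (nat_lit 57480) (nat_lit 28) (.e (nat_lit 557109) (nat_lit 15) (.e (nat_lit 188452) (nat_lit 23) (.e (nat_lit 204858) (nat_lit 26) (.e (nat_lit 336030) (nat_lit 4) (.e (nat_lit 123182) (nat_lit 264) .nil))))))) (.g (nat_lit 4) .nil .nil)))) (.nd (nat_lit 5) 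
(.lf (nat_lit 22802) (.g (nat_lit 4401) (.e (nat_lit 1183) (nat_lit 87) (.e (nat_lit 57480) (nat_lit 28) (.e (nat_lit 557109) (nat_lit 15) (.e (nat_lit 188452) (nat_lit 23) (.e (nat_lit 204849) (nat_lit 25) (.e (nat_lit 327692) (nat_lit 1) (.e (nat_lit 8433) (nat_lit 138) .nil))))))) (.g (nat_lit 4) .nil .nil))) 
(.lf (nat_lit 22834) (.g (nat_lit 3757) (.e (nat_lit 1183) (nat_lit 87) (.e (nat_lit 57480) (nat_lit 28) (.e (nat_lit 557109) (nat_lit 15) (.e (nat_lit 188458) (nat_lit 25) (.e (nat_lit 245784) (nat_lit 9) (.e (nat_lit 1512) (nat_lit 108) (.e (nat_lit 336035) (nat_lit 4) (.e (nat_lit 123185) (nat_lit 264) .nil)))))))) (.g (nat_lit 4) .nil .nil))))) (.nd (nat_lit 4) (.nd (nat_lit 5) 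
(.lf (nat_lit 22794) (.g (nat_lit 3460) (.e (nat_lit 1183) (nat_lit 87) (.e (nat_lit 57480) (nat_lit 28) (.e (nat_lit 557109) (nat_lit 15) (.e (nat_lit 188450) (nat_lit 23) (.e (nat_lit 204855) (nat_lit 26) .nil))))) .nil)) 
(.lf (nat_lit 22826) (.g (nat_lit 3317) (.e (nat_lit 1183) (nat_lit 87) (.e (nat_lit 57480) (nat_lit 28) (.e (nat_lit 557109) (nat_lit 15) (.e (nat_lit 188452) (nat_lit 23) (.e (nat_lit 204874) (nat_lit 30) .nil))))) .nil))) (.nd (nat_lit 5) 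
(.lf (nat_lit 22810) (.g (nat_lit 4205) (.e (nat_lit 1183) (nat_lit 87) (.e (nat_lit 57480) (nat_lit 28) (.e (nat_lit 557109) (nat_lit 15) (.e (nat_lit 188452) (nat_lit 23) (.e (nat_lit 204855) (nat_lit 26) (.e (nat_lit 336034) (nat_lit 4) (.e (nat_lit 123182) (nat_lit 264) .nil))))))) (.g (nat_lit 5) .nil .nil))) 
(.lf (nat_lit 22842) (.g (nat_lit 3457) (.e (nat_lit 1183) (nat_lit 87) (.e (nat_lit 57480) (nat_lit 28) (.e (nat_lit 557109) (nat_lit 15) (.e (nat_lit 188461) (nat_lit 26) (.e (nat_lit 253959) (nat_lit 9) (.e (nat_lit 1181) (nat_lit 87) (.e (nat_lit 57848) (nat_lit 252) (.e (nat_lit 57365) (nat_lit 1) (.e (nat_lit 57830) (nat_lit 250) .nil))))))))) (.g (nat_lit 4) .nil .nil)))))) 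
(.nd (nat_lit 3) (.nd (nat_lit 4) (.nd (nat_lit 5) 
(.lf (nat_lit 22790) (.g (nat_lit 4869) (.e (nat_lit 1183) (nat_lit 87) (.e (nat_lit 57480) (nat_lit 28) (.e (nat_lit 557109) (nat_lit 15) (.e (nat_lit 188449) (nat_lit 22) (.e (nat_lit 196668) (nat_lit 14) (.e (nat_lit 73737) (nat_lit 0) (.e (nat_lit 5818) (nat_lit 320) .nil))))))) (.g (nat_lit 6) .nil .nil))) 
(.lf (nat_lit 22822) (.g (nat_lit 2817) (.e (nat_lit 1183) (nat_lit 87) (.e (nat_lit 57480) (nat_lit 28) (.e (nat_lit 557109) (nat_lit 15) (.e (nat_lit 188452) (nat_lit 23) (.e (nat_lit 204862) (nat_lit 27) (.e (nat_lit 344103) (nat_lit 18) (.e (nat_lit 5818) (nat_lit 320) .nil))))))) (.g (nat_lit 4) .nil .nil)))) (.nd (nat_lit 5) 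
(.lf (nat_lit 22806) (.g (nat_lit 4258) (.e (nat_lit 1183) (nat_lit 87) (.e (nat_lit 57480) (nat_lit 28) (.e (nat_lit 557109) (nat_lit 15) (.e (nat_lit 188452) (nat_lit 23) (.e (nat_lit 204852) (nat_lit 26) (.e (nat_lit 336036) (nat_lit 4) (.e (nat_lit 123182) (nat_lit 264) .nil))))))) (.g (nat_lit 5) .nil .nil))) 
(.lf (nat_lit 22838) (.g (nat_lit 3499) (.e (nat_lit 1183) (nat_lit 87) (.e (nat_lit 57480) (nat_lit 28) (.e (nat_lit 557109) (nat_lit 15) (.e (nat_lit 188458) (nat_lit 25) (.e (nat_lit 245794) (nat_lit 17) .nil))))) .nil)))) (.nd (nat_lit 4) (.nd (nat_lit 5) 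
(.lf (nat_lit 22798) (.g (nat_lit 4338) (.e (nat_lit 1183) (nat_lit 87) (.e (nat_lit 57480) (nat_lit 28) (.e (nat_lit 557109) (nat_lit 15) (.e (nat_lit 188450) (nat_lit 23) (.e (nat_lit 204861) (nat_lit 26) (.e (nat_lit 336033) (nat_lit 4) (.e (nat_lit 123182) (nat_lit 264) .nil))))))) (.g (nat_lit 4) .nil .nil))) 
(.lf (nat_lit 22830) (.g (nat_lit 3519) (.e (nat_lit 1183) (nat_lit 87) (.e (nat_lit 57480) (nat_lit 28) (.e (nat_lit 557109) (nat_lit 15) (.e (nat_lit 188458) (nat_lit 25) (.e (nat_lit 245784) (nat_lit 9) (.e (nat_lit 1413) (nat_lit 108) (.e (nat_lit 336032) (nat_lit 4) (.e (nat_lit 123182) (nat_lit 264) .nil)))))))) (.g (nat_lit 4) .nil .nil)))) (.nd (nat_lit 5) 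
(.lf (nat_lit 22814) (.g (nat_lit 3383) (.e (nat_lit 1183) (nat_lit 87) (.e (nat_lit 57480) (nat_lit 28) (.e (nat_lit 557109) (nat_lit 15) (.e (nat_lit 188452) (nat_lit 23) (.e (nat_lit 204856) (nat_lit 26) (.e (nat_lit 336032) (nat_lit 4) (.e (nat_lit 123185) (nat_lit 264) .nil))))))) (.g (nat_lit 4) .nil .nil))) 
(.lf (nat_lit 22846) (.g (nat_lit 1887) (.e (nat_lit 1183) (nat_lit 87) (.e (nat_lit 57520) (nat_lit 44) (.e (nat_lit 688177) (nat_lit 16) (.e (nat_lit 65583) (nat_lit 7) (.e (nat_lit 319530) (nat_lit 16) (.e (nat_lit 286742) (nat_lit 9) (.e (nat_lit 336032) (nat_lit 4) (.e (nat_lit 123185) (nat_lit 264) .nil)))))))) (.g (nat_lit 4) .nil .nil)))))))) 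
(.nd (nat_lit 1) (.nd (nat_lit 2) (.nd (nat_lit 3) (.nd (nat_lit 4) (.nd (nat_lit 5) 
(.lf (nat_lit 22785) (.g (nat_lit 2949) (.e (nat_lit 1183) (nat_lit 87) (.e (nat_lit 57480) (nat_lit 28) (.e (nat_lit 557109) (nat_lit 15) (.e (nat_lit 188449) (nat_lit 22) (.e (nat_lit 196666) (nat_lit 13) (.e (nat_lit 65574) (nat_lit 4) (.e (nat_lit 123183) (nat_lit 264) .nil))))))) (.g (nat_lit 5) .nil .nil))) 
(.lf (nat_lit 22817) (.g (nat_lit 4250) (.e (nat_lit 1183) (nat_lit 87) (.e (nat_lit 57480) (nat_lit 28) (.e (nat_lit 557109) (nat_lit 15) (.e (nat_lit 188452) (nat_lit 23) (.e (nat_lit 204858) (nat_lit 26) .nil))))) .nil))) (.nd (nat_lit 5) 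
(.lf (nat_lit 22801) (.g (nat_lit 3992) (.e (nat_lit 1183) (nat_lit 87) (.e (nat_lit 57480) (nat_lit 28) (.e (nat_lit 557109) (nat_lit 15) (.e (nat_lit 188452) (nat_lit 23) (.e (nat_lit 204849) (nat_lit 25) (.e (nat_lit 327692) (nat_lit 1) (.e (nat_lit 8432) (nat_lit 138) .nil))))))) (.g (nat_lit 4) .nil .nil))) 
(.lf (nat_lit 22833) (.g (nat_lit 3897) (.e (nat_lit 1183) (nat_lit 87) (.e (nat_lit 57480) (nat_lit 28) (.e (nat_lit 557109) (nat_lit 15) (.e (nat_lit 188458) (nat_lit 25) (.e (nat_lit 245784) (nat_lit 9) (.e (nat_lit 1459) (nat_lit 108) (.e (nat_lit 336032) (nat_lit 4) (.e (nat_lit 123182) (nat_lit 264) .nil)))))))) (.g (nat_lit 4) .nil .nil))))) (.nd (nat_lit 4) (.nd (nat_lit 5) 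
(.lf (nat_lit 22793) (.g (nat_lit 6354) (.e (nat_lit 1183) (nat_lit 87) (.e (nat_lit 57480) (nat_lit 28) (.e (nat_lit 557109) (nat_lit 15) (.e (nat_lit 188449) (nat_lit 22) (.e (nat_lit 196681) (nat_lit 17) (.e (nat_lit 131099) (nat_lit 4) (.e (nat_lit 123182) (nat_lit 264) .nil))))))) (.g (nat_lit 5) .nil .nil))) 
(.lf (nat_lit 22825) (.g (nat_lit 2820) (.e (nat_lit 1183) (nat_lit 87) (.e (nat_lit 57480) (nat_lit 28) (.e (nat_lit 557109) (nat_lit 15) (.e (nat_lit 188452) (nat_lit 23) (.e (nat_lit 204873) (nat_lit 30) .nil))))) .nil))) (.nd (nat_lit 5) 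
(.lf (nat_lit 22809) (.g (nat_lit 2789) (.e (nat_lit 1183) (nat_lit 87) (.e (nat_lit 57480) (nat_lit 28) (.e (nat_lit 557109) (nat_lit 15) (.e (nat_lit 188452) (nat_lit 23) (.e (nat_lit 204855) (nat_lit 26) (.e (nat_lit 336030) (nat_lit 4) (.e (nat_lit 123183) (nat_lit 264) .nil))))))) (.g (nat_lit 4) .nil .nil))) 
(.lf (nat_lit 22841) (.g (nat_lit 3674) (.e (nat_lit 1183) (nat_lit 87) (.e (nat_lit 57480) (nat_lit 28) (.e (nat_lit 557109) (nat_lit 15) (.e (nat_lit 188461) (nat_lit 26) (.e (nat_lit 253959) (nat_lit 9) (.e (nat_lit 1181) (nat_lit 87) (.e (nat_lit 57848) (nat_lit 252) (.e (nat_lit 57365) (nat_lit 1) (.e (nat_lit 57829) (nat_lit 250) .nil))))))))) (.g (nat_lit 4) .nil .nil)))))) 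
(.nd (nat_lit 3) (.nd (nat_lit 4) (.nd (nat_lit 5) 
(.lf (nat_lit 22789) (.g (nat_lit 4037) (.e (nat_lit 1183) (nat_lit 87) (.e (nat_lit 57480) (nat_lit 28) (.e (nat_lit 557109) (nat_lit 15) (.e (nat_lit 188449) (nat_lit 22) (.e (nat_lit 196668) (nat_lit 14) (.e (nat_lit 73736) (nat_lit 0) (.e (nat_lit 5818) (nat_lit 320) .nil))))))) (.g (nat_lit 5) .nil .nil))) 
(.lf (nat_lit 22821) (.g (nat_lit 6082) (.e (nat_lit 1183) (nat_lit 87) (.e (nat_lit 57480) (nat_lit 28) (.e (nat_lit 557109) (nat_lit 15) (.e (nat_lit 188452) (nat_lit 23) (.e (nat_lit 204861) (nat_lit 26) (.e (nat_lit 336033) (nat_lit 4) (.e (nat_lit 123182) (nat_lit 264) .nil))))))) (.g (nat_lit 5) .nil .nil)))) (.nd (nat_lit 5) 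
(.lf (nat_lit 22805) (.g (nat_lit 3153) (.e (nat_lit 1183) (nat_lit 87) (.e (nat_lit 57480) (nat_lit 28) (.e (nat_lit 557109) (nat_lit 15) (.e (nat_lit 188452) (nat_lit 23) (.e (nat_lit 204851) (nat_lit 26) (.e (nat_lit 336036) (nat_lit 4) (.e (nat_lit 123182) (nat_lit 264) .nil))))))) (.g (nat_lit 4) .nil .nil))) 
(.lf (nat_lit 22837) (.g (nat_lit 3503) (.e (nat_lit 1183) (nat_lit 87) (.e (nat_lit 57480) (nat_lit 28) (.e (nat_lit 557109) (nat_lit 15) (.e (nat_lit 188458) (nat_lit 25) (.e (nat_lit 245791) (nat_lit 14) (.e (nat_lit 73737) (nat_lit 0) (.e (nat_lit 5818) (nat_lit 320) .nil))))))) (.g (nat_lit 4) .nil .nil))))) (.nd (nat_lit 4) (.nd (nat_lit 5) 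
(.lf (nat_lit 22797) (.g (nat_lit 4404) (.e (nat_lit 1183) (nat_lit 87) (.e (nat_lit 57480) (nat_lit 28) (.e (nat_lit 557109) (nat_lit 15) (.e (nat_lit 188450) (nat_lit 23) (.e (nat_lit 204855) (nat_lit 26) (.e (nat_lit 336030) (nat_lit 4) (.e (nat_lit 123185) (nat_lit 264) .nil))))))) (.g (nat_lit 4) .nil .nil))) 
(.lf (nat_lit 22829) (.g (nat_lit 3056) (.e (nat_lit 1183) (nat_lit 87) (.e (nat_lit 57480) (nat_lit 28) (.e (nat_lit 557109) (nat_lit 15) (.e (nat_lit 188458) (nat_lit 25) (.e (nat_lit 245784) (nat_lit 9) .nil))))) .nil))) (.nd (nat_lit 5) 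
(.lf (nat_lit 22813) (.g (nat_lit 4344) (.e (nat_lit 1183) (nat_lit 87) (.e (nat_lit 57480) (nat_lit 28) (.e (nat_lit 557109) (nat_lit 15) (.e (nat_lit 188452) (nat_lit 23) (.e (nat_lit 204856) (nat_lit 26) (.e (nat_lit 336032) (nat_lit 4) (.e (nat_lit 123184) (nat_lit 264) .nil))))))) (.g (nat_lit 5) .nil .nil))) 
(.lf (nat_lit 22845) (.g (nat_lit 1261) (.e (nat_lit 1183) (nat_lit 87) (.e (nat_lit 57520) (nat_lit 44) (.e (nat_lit 688177) (nat_lit 16) (.e (nat_lit 65583) (nat_lit 7) .nil)))) .nil)))))) (.nd (nat_lit 2) (.nd (nat_lit 3) (.nd (nat_lit 4) (.nd (nat_lit 5) 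
(.lf (nat_lit 22787) (.g (nat_lit 2833) (.e (nat_lit 1183) (nat_lit 87) (.e (nat_lit 57480) (nat_lit 28) (.e (nat_lit 557109) (nat_lit 15) (.e (nat_lit 188449) (nat_lit 22) (.e (nat_lit 196666) (nat_lit 13) (.e (nat_lit 73472) (nat_lit 4) (.e (nat_lit 123182) (nat_lit 264) .nil))))))) (.g (nat_lit 4) .nil .nil))) 
(.lf (nat_lit 22819) (.g (nat_lit 5656) (.e (nat_lit 1183) (nat_lit 87) (.e (nat_lit 57480) (nat_lit 28) (.e (nat_lit 557109) (nat_lit 15) (.e (nat_lit 188452) (nat_lit 23) (.e (nat_lit 204858) (nat_lit 26) (.e (nat_lit 336032) (nat_lit 4) (.e (nat_lit 123182) (nat_lit 264) .nil))))))) (.g (nat_lit 5) .nil .nil)))) (.nd (nat_lit 5) 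
(.lf (nat_lit 22803) (.g (nat_lit 2744) (.e (nat_lit 1183) (nat_lit 87) (.e (nat_lit 57480) (nat_lit 28) (.e (nat_lit 557109) (nat_lit 15) (.e (nat_lit 188452) (nat_lit 23) (.e (nat_lit 204850) (nat_lit 26) (.e (nat_lit 336032) (nat_lit 4) (.e (nat_lit 123182) (nat_lit 264) .nil))))))) (.g (nat_lit 4) .nil .nil))) 
(.lf (nat_lit 22835) (.g (nat_lit 3557) (.e (nat_lit 1183) (nat_lit 87) (.e (nat_lit 57480) (nat_lit 28) (.e (nat_lit 557109) (nat_lit 15) (.e (nat_lit 188458) (nat_lit 25) (.e (nat_lit 245790) (nat_lit 13) .nil))))) .nil)))) (.nd (nat_lit 4) (.nd (nat_lit 5) 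
(.lf (nat_lit 22795) (.g (nat_lit 5302) (.e (nat_lit 1183) (nat_lit 87) (.e (nat_lit 57480) (nat_lit 28) (.e (nat_lit 557109) (nat_lit 15) (.e (nat_lit 188450) (nat_lit 23) (.e (nat_lit 204855) (nat_lit 26) (.e (nat_lit 336030) (nat_lit 4) (.e (nat_lit 123182) (nat_lit 264) .nil))))))) (.g (nat_lit 5) .nil .nil))) 
(.lf (nat_lit 22827) (.g (nat_lit 2348) (.e (nat_lit 1183) (nat_lit 87) (.e (nat_lit 57480) (nat_lit 28) (.e (nat_lit 557109) (nat_lit 15) (.e (nat_lit 188457) (nat_lit 25) .nil)))) .nil))) (.nd (nat_lit 5) 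
(.lf (nat_lit 22811) (.g (nat_lit 4143) (.e (nat_lit 1183) (nat_lit 87) (.e (nat_lit 57480) (nat_lit 28) (.e (nat_lit 557109) (nat_lit 15) (.e (nat_lit 188452) (nat_lit 23) (.e (nat_lit 204856) (nat_lit 26) (.e (nat_lit 336030) (nat_lit 4) (.e (nat_lit 123182) (nat_lit 264) .nil))))))) (.g (nat_lit 5) .nil .nil))) 
(.lf (nat_lit 22843) (.g (nat_lit 3613) (.e (nat_lit 1183) (nat_lit 87) (.e (nat_lit 57480) (nat_lit 28) (.e (nat_lit 557109) (nat_lit 15) (.e (nat_lit 188461) (nat_lit 26) (.e (nat_lit 253959) (nat_lit 9) (.e (nat_lit 1181) (nat_lit 87) (.e (nat_lit 57848) (nat_lit 252) (.e (nat_lit 57368) (nat_lit 1) (.e (nat_lit 57829) (nat_lit 250) .nil))))))))) (.g (nat_lit 4) .nil .nil)))))) 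
(.nd (nat_lit 3) (.nd (nat_lit 4) (.nd (nat_lit 5) 
(.lf (nat_lit 22791) (.g (nat_lit 4488) (.e (nat_lit 1183) (nat_lit 87) (.e (nat_lit 57480) (nat_lit 28) (.e (nat_lit 557109) (nat_lit 15) (.e (nat_lit 188449) (nat_lit 22) (.e (nat_lit 196669) (nat_lit 14) (.e (nat_lit 73737) (nat_lit 0) (.e (nat_lit 5818) (nat_lit 320) .nil))))))) (.g (nat_lit 4) .nil .nil))) 
(.lf (nat_lit 22823) (.g (nat_lit 2785) (.e (nat_lit 1183) (nat_lit 87) (.e (nat_lit 57480) (nat_lit 28) (.e (nat_lit 557109) (nat_lit 15) (.e (nat_lit 188452) (nat_lit 23) (.e (nat_lit 204862) (nat_lit 27) (.e (nat_lit 344104) (nat_lit 18) (.e (nat_lit 5818) (nat_lit 320) .nil))))))) (.g (nat_lit 4) .nil .nil)))) (.nd (nat_lit 5) 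
(.lf (nat_lit 22807) (.g (nat_lit 3637) (.e (nat_lit 1183) (nat_lit 87) (.e (nat_lit 57480) (nat_lit 28) (.e (nat_lit 557109) (nat_lit 15) (.e (nat_lit 188452) (nat_lit 23) (.e (nat_lit 204852) (nat_lit 26) (.e (nat_lit 343808) (nat_lit 4) (.e (nat_lit 123182) (nat_lit 264) .nil))))))) (.g (nat_lit 5) .nil .nil))) 
(.lf (nat_lit 22839) (.g (nat_lit 2264) (.e (nat_lit 1183) (nat_lit 87) (.e (nat_lit 57480) (nat_lit 28) (.e (nat_lit 557109) (nat_lit 15) (.e (nat_lit 188461) (nat_lit 26) .nil)))) .nil)))) (.nd (nat_lit 4) (.nd (nat_lit 5) 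
(.lf (nat_lit 22799) (.g (nat_lit 4126) (.e (nat_lit 1183) (nat_lit 87) (.e (nat_lit 57480) (nat_lit 28) (.e (nat_lit 557109) (nat_lit 15) (.e (nat_lit 188450) (nat_lit 23) (.e (nat_lit 204863) (nat_lit 27) (.e (nat_lit 344103) (nat_lit 18) (.e (nat_lit 5818) (nat_lit 320) .nil))))))) (.g (nat_lit 4) .nil .nil))) 
(.lf (nat_lit 22831) (.g (nat_lit 3918) (.e (nat_lit 1183) (nat_lit 87) (.e (nat_lit 57480) (nat_lit 28) (.e (nat_lit 557109) (nat_lit 15) (.e (nat_lit 188458) (nat_lit 25) (.e (nat_lit 245784) (nat_lit 9) (.e (nat_lit 1450) (nat_lit 108) (.e (nat_lit 336032) (nat_lit 4) (.e (nat_lit 123182) (nat_lit 264) .nil)))))))) (.g (nat_lit 4) .nil .nil)))) (.nd (nat_lit 5) 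
(.lf (nat_lit 22815) (.g (nat_lit 3106) (.e (nat_lit 1183) (nat_lit 87) (.e (nat_lit 57480) (nat_lit 28) (.e (nat_lit 557109) (nat_lit 15) (.e (nat_lit 188452) (nat_lit 23) (.e (nat_lit 204856) (nat_lit 26) (.e (nat_lit 336034) (nat_lit 4) (.e (nat_lit 123182) (nat_lit 264) .nil))))))) (.g (nat_lit 4) .nil .nil))) 
(.lf (nat_lit 22847) (.g (nat_lit 3268) (.e (nat_lit 1183) (nat_lit 87) (.e (nat_lit 57520) (nat_lit 44) (.e (nat_lit 688177) (nat_lit 16) (.e (nat_lit 65583) (nat_lit 7) (.e (nat_lit 319530) (nat_lit 16) (.e (nat_lit 286747) (nat_lit 9) (.e (nat_lit 336032) (nat_lit 4) (.e (nat_lit 123182) (nat_lit 264) .nil)))))))) (.g (nat_lit 5) .nil .nil)))))))))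

noncomputable def tv324 : DT := (.nd (nat_lit 0) (.nd (nat_lit 1) (.nd (nat_lit 2) (.nd (nat_lit 3) (.nd (nat_lit 4) (.nd (nat_lit 5) 
(.lf (nat_lit 22848) (.g (nat_lit 2081) (.e (nat_lit 1183) (nat_lit 87) (.e (nat_lit 57520) (nat_lit 44) (.e (nat_lit 688177) (nat_lit 16) (.e (nat_lit 65583) (nat_lit 7) (.e (nat_lit 319530) (nat_lit 16) (.e (nat_lit 286748) (nat_lit 9) (.e (nat_lit 336030) (nat_lit 4) (.e (nat_lit 123185) (nat_lit 264) .nil)))))))) (.g (nat_lit 4) .nil .nil))) 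
(.lf (nat_lit 22880) (.g (nat_lit 1726) (.e (nat_lit 1183) (nat_lit 87) (.e (nat_lit 57681) (nat_lit 155) (.e (nat_lit 122919) (nat_lit 15) (.e (nat_lit 360451) (nat_lit 0) (.e (nat_lit 7119) (nat_lit 382) .nil))))) .nil))) (.nd (nat_lit 5) 
(.lf (nat_lit 22864) (.g (nat_lit 2945) (.e (nat_lit 1183) (nat_lit 87) (.e (nat_lit 57575) (nat_lit 55) (.e (nat_lit 778362) (nat_lit 9) (.e (nat_lit 232) (nat_lit 21) (.e (nat_lit 336060) (nat_lit 7) (.e (nat_lit 319534) (nat_lit 16) (.e (nat_lit 286756) (nat_lit 10) (.e (nat_lit 344088) (nat_lit 18) (.e (nat_lit 5455) (nat_lit 306) .nil))))))))) (.g (nat_lit 4) .nil .nil))) 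
(.lf (nat_lit 22896) (.g (nat_lit 2272) (.e (nat_lit 1183) (nat_lit 87) (.e (nat_lit 57712) (nat_lit 176) (.e (nat_lit 1370) (nat_lit 103) (.e (nat_lit 294939) (nat_lit 9) .nil)))) .nil)))) (.nd (nat_lit 4) (.nd (nat_lit 5) 
(.lf (nat_lit 22856) (.g (nat_lit 2079) (.e (nat_lit 1183) (nat_lit 87) (.e (nat_lit 57538) (nat_lit 46) (.e (nat_lit 704741) (nat_lit 11) (.e (nat_lit 16466) (nat_lit 13) (.e (nat_lit 483393) (nat_lit 23) (.e (nat_lit 335987) (nat_lit 1) (.e (nat_lit 57830) (nat_lit 250) .nil))))))) (.g (nat_lit 5) .nil .nil))) 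
(.lf (nat_lit 22888) (.g (nat_lit 2419) (.e (nat_lit 1183) (nat_lit 87) (.e (nat_lit 57681) (nat_lit 155) (.e (nat_lit 122919) (nat_lit 15) (.e (nat_lit 360491) (nat_lit 22) (.e (nat_lit 778466) (nat_lit 11) (.e (nat_lit 24584) (nat_lit 0) (.e (nat_lit 7936) (nat_lit 343) .nil))))))) (.g (nat_lit 4) .nil .nil)))) (.nd (nat_lit 5) 
(.lf (nat_lit 22872) (.g (nat_lit 5403) (.e (nat_lit 1183) (nat_lit 87) (.e (nat_lit 57681) (nat_lit 155) (.e (nat_lit 122911) (nat_lit 13) (.e (nat_lit 344117) (nat_lit 21) (.e (nat_lit 516166) (nat_lit 12) (.e (nat_lit 450588) (nat_lit 10) (.e (nat_lit 573453) (nat_lit 9) .nil))))))) (.g (nat_lit 6) .nil .nil))) 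
(.lf (nat_lit 22904) (.g (nat_lit 1789) (.e (nat_lit 1183) (nat_lit 87) (.e (nat_lit 57712) (nat_lit 176) (.e (nat_lit 1370) (nat_lit 103) (.e (nat_lit 294960) (nat_lit 13) (.e (nat_lit 393282) (nat_lit 24) (.e (nat_lit 434216) (nat_lit 18) (.e (nat_lit 5815) (nat_lit 320) .nil))))))) (.g (nat_lit 5) .nil .nil)))))) (.nd (nat_lit 3) (.nd (nat_lit 4) (.nd (nat_lit 5) 
(.lf (nat_lit 22852) (.g (nat_lit 2531) (.e (nat_lit 1183) (nat_lit 87) (.e (nat_lit 57520) (nat_lit 44) (.e (nat_lit 688177) (nat_lit 16) (.e (nat_lit 65586) (nat_lit 7) (.e (nat_lit 319531) (nat_lit 16) (.e (nat_lit 286748) (nat_lit 9) (.e (nat_lit 336030) (nat_lit 4) (.e (nat_lit 123185) (nat_lit 264) .nil)))))))) (.g (nat_lit 4) .nil .nil))) 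
(.lf (nat_lit 22884) (.g (nat_lit 1908) (.e (nat_lit 1183) (nat_lit 87) (.e (nat_lit 57681) (nat_lit 155) (.e (nat_lit 122919) (nat_lit 15) (.e (nat_lit 360453) (nat_lit 0) .nil)))) .nil))) (.nd (nat_lit 5) 
(.lf (nat_lit 22868) (.g (nat_lit 5200) (.e (nat_lit 1183) (nat_lit 87) (.e (nat_lit 57681) (nat_lit 155) (.e (nat_lit 122911) (nat_lit 13) (.e (nat_lit 344117) (nat_lit 21) (.e (nat_lit 516151) (nat_lit 9) (.e (nat_lit 426286) (nat_lit 10) (.e (nat_lit 434245) (nat_lit 28) (.e (nat_lit 573449) (nat_lit 9) .nil)))))))) (.g (nat_lit 0) .nil .nil))) 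
(.lf (nat_lit 22900) (.g (nat_lit 2288) (.e (nat_lit 1183) (nat_lit 87) (.e (nat_lit 57712) (nat_lit 176) (.e (nat_lit 1370) (nat_lit 103) (.e (nat_lit 294941) (nat_lit 9) (.e (nat_lit 336432) (nat_lit 30) (.e (nat_lit 450569) (nat_lit 0) (.e (nat_lit 5816) (nat_lit 320) .nil))))))) (.g (nat_lit 6) .nil .nil))))) (.nd (nat_lit 4) (.nd (nat_lit 5) 
(.lf (nat_lit 22860) (.g (nat_lit 2519) (.e (nat_lit 1183) (nat_lit 87) (.e (nat_lit 57575) (nat_lit 55) (.e (nat_lit 778362) (nat_lit 9) (.e (nat_lit 232) (nat_lit 21) (.e (nat_lit 336060) (nat_lit 7) (.e (nat_lit 319533) (nat_lit 16) (.e (nat_lit 286753) (nat_lit 10) (.e (nat_lit 344088) (nat_lit 18) (.e (nat_lit 5456) (nat_lit 306) .nil))))))))) (.g (nat_lit 4) .nil .nil))) 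
(.lf (nat_lit 22892) (.g (nat_lit 1472) (.e (nat_lit 1183) (nat_lit 87) (.e (nat_lit 57681) (nat_lit 155) (.e (nat_lit 122925) (nat_lit 19) (.e (nat_lit 401152) (nat_lit 11) (.e (nat_lit 352321) (nat_lit 25) (.e (nat_lit 139264) (nat_lit 0) .nil)))))) (.g (nat_lit 5) .nil .nil)))) (.nd (nat_lit 5) 
(.lf (nat_lit 22876) (.g (nat_lit 1754) (.e (nat_lit 1183) (nat_lit 87) (.e (nat_lit 57681) (nat_lit 155) (.e (nat_lit 122913) (nat_lit 13) (.e (nat_lit 344177) (nat_lit 43) (.e (nat_lit 770091) (nat_lit 18) .nil))))) .nil)) 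
(.lf (nat_lit 22908) (.g (nat_lit 1891) (.e (nat_lit 1183) (nat_lit 87) (.e (nat_lit 57712) (nat_lit 176) (.e (nat_lit 1370) (nat_lit 103) (.e (nat_lit 294960) (nat_lit 13) (.e (nat_lit 393283) (nat_lit 24) (.e (nat_lit 434211) (nat_lit 18) (.e (nat_lit 5815) (nat_lit 320) .nil))))))) (.g (nat_lit 5) .nil .nil))))))) (.nd (nat_lit 2) (.nd (nat_lit 3) (.nd (nat_lit 4) (.nd (nat_lit 5) 
(.lf (nat_lit 22850) (.g (nat_lit 2567) (.e (nat_lit 1183) (nat_lit 87) (.e (nat_lit 57520) (nat_lit 44) (.e (nat_lit 688177) (nat_lit 16) (.e (nat_lit 65586) (nat_lit 7) (.e (nat_lit 319531) (nat_lit 16) (.e (nat_lit 286742) (nat_lit 9) (.e (nat_lit 336032) (nat_lit 4) (.e (nat_lit 123184) (nat_lit 264) .nil)))))))) (.g (nat_lit 4) .nil .nil))) 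
(.lf (nat_lit 22882) (.g (nat_lit 2612) (.e (nat_lit 1183) (nat_lit 87) (.e (nat_lit 57681) (nat_lit 155) (.e (nat_lit 122919) (nat_lit 15) (.e (nat_lit 360451) (nat_lit 0) (.e (nat_lit 7124) (nat_lit 382) (.e (nat_lit 1214) (nat_lit 89) (.e (nat_lit 81664) (nat_lit 40) .nil))))))) (.g (nat_lit 5) .nil .nil)))) (.nd (nat_lit 5) 
(.lf (nat_lit 22866) (.g (nat_lit 2391) (.e (nat_lit 1183) (nat_lit 87) (.e (nat_lit 57575) (nat_lit 55) (.e (nat_lit 778362) (nat_lit 9) (.e (nat_lit 232) (nat_lit 21) (.e (nat_lit 336060) (nat_lit 7) (.e (nat_lit 319534) (nat_lit 16) (.e (nat_lit 286756) (nat_lit 10) (.e (nat_lit 344102) (nat_lit 18) (.e (nat_lit 5454) (nat_lit 306) .nil))))))))) (.g (nat_lit 4) .nil .nil))) 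
(.lf (nat_lit 22898) (.g (nat_lit 1577) (.e (nat_lit 1183) (nat_lit 87) (.e (nat_lit 57712) (nat_lit 176) (.e (nat_lit 1370) (nat_lit 103) (.e (nat_lit 294941) (nat_lit 9) (.e (nat_lit 336432) (nat_lit 30) (.e (nat_lit 450568) (nat_lit 0) (.e (nat_lit 5818) (nat_lit 320) .nil))))))) (.g (nat_lit 4) .nil .nil))))) (.nd (nat_lit 4) (.nd (nat_lit 5) 
(.lf (nat_lit 22858) (.g (nat_lit 2226) (.e (nat_lit 1183) (nat_lit 87) (.e (nat_lit 57575) (nat_lit 55) (.e (nat_lit 778362) (nat_lit 9) (.e (nat_lit 232) (nat_lit 21) (.e (nat_lit 336060) (nat_lit 7) .nil))))) .nil)) 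
(.lf (nat_lit 22890) (.g (nat_lit 2044) (.e (nat_lit 1183) (nat_lit 87) (.e (nat_lit 57681) (nat_lit 155) (.e (nat_lit 122919) (nat_lit 15) (.e (nat_lit 368384) (nat_lit 25) (.e (nat_lit 802827) (nat_lit 12) (.e (nat_lit 352000) (nat_lit 8) .nil)))))) (.g (nat_lit 5) .nil .nil)))) (.nd (nat_lit 5) 
(.lf (nat_lit 22874) (.g (nat_lit 4181) (.e (nat_lit 1183) (nat_lit 87) (.e (nat_lit 57681) (nat_lit 155) (.e (nat_lit 122913) (nat_lit 13) (.e (nat_lit 344117) (nat_lit 21) (.e (nat_lit 516151) (nat_lit 9) (.e (nat_lit 426286) (nat_lit 10) (.e (nat_lit 434245) (nat_lit 28) (.e (nat_lit 573453) (nat_lit 9) .nil)))))))) (.g (nat_lit 8) .nil .nil))) 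
(.lf (nat_lit 22906) (.g (nat_lit 792) (.e (nat_lit 1183) (nat_lit 87) (.e (nat_lit 57712) (nat_lit 176) (.e (nat_lit 1370) (nat_lit 103) (.e (nat_lit 294960) (nat_lit 13) (.e (nat_lit 393283) (nat_lit 24) .nil))))) .nil))))) (.nd (nat_lit 3) (.nd (nat_lit 4) (.nd (nat_lit 5) 
(.lf (nat_lit 22854) (.g (nat_lit 3217) (.e (nat_lit 1183) (nat_lit 87) (.e (nat_lit 57520) (nat_lit 44) (.e (nat_lit 688177) (nat_lit 16) (.e (nat_lit 65586) (nat_lit 7) (.e (nat_lit 319531) (nat_lit 16) (.e (nat_lit 286748) (nat_lit 9) (.e (nat_lit 336032) (nat_lit 4) (.e (nat_lit 123185) (nat_lit 264) .nil)))))))) (.g (nat_lit 5) .nil .nil))) 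
(.lf (nat_lit 22886) (.g (nat_lit 2744) (.e (nat_lit 1183) (nat_lit 87) (.e (nat_lit 57681) (nat_lit 155) (.e (nat_lit 122919) (nat_lit 15) (.e (nat_lit 360489) (nat_lit 21) (.e (nat_lit 770073) (nat_lit 9) (.e (nat_lit 81664) (nat_lit 40) .nil)))))) (.g (nat_lit 4) .nil .nil)))) (.nd (nat_lit 5) 
(.lf (nat_lit 22870) (.g (nat_lit 5491) (.e (nat_lit 1183) (nat_lit 87) (.e (nat_lit 57681) (nat_lit 155) (.e (nat_lit 122911) (nat_lit 13) (.e (nat_lit 344117) (nat_lit 21) (.e (nat_lit 516151) (nat_lit 9) (.e (nat_lit 426286) (nat_lit 10) (.e (nat_lit 434248) (nat_lit 28) (.e (nat_lit 573449) (nat_lit 9) .nil)))))))) (.g (nat_lit 0) .nil .nil))) 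
(.lf (nat_lit 22902) (.g (nat_lit 2280) (.e (nat_lit 1183) (nat_lit 87) (.e (nat_lit 57712) (nat_lit 176) (.e (nat_lit 1370) (nat_lit 103) (.e (nat_lit 294958) (nat_lit 13) .nil)))) .nil)))) (.nd (nat_lit 4) (.nd (nat_lit 5) 
(.lf (nat_lit 22862) (.g (nat_lit 2774) (.e (nat_lit 1183) (nat_lit 87) (.e (nat_lit 57575) (nat_lit 55) (.e (nat_lit 778362) (nat_lit 9) (.e (nat_lit 232) (nat_lit 21) (.e (nat_lit 336060) (nat_lit 7) (.e (nat_lit 319534) (nat_lit 16) (.e (nat_lit 286756) (nat_lit 10) (.e (nat_lit 344088) (nat_lit 18) (.e (nat_lit 5441) (nat_lit 306) .nil))))))))) (.g (nat_lit 4) .nil .nil))) 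
(.lf (nat_lit 22894) (.g (nat_lit 1193) (.e (nat_lit 1183) (nat_lit 87) (.e (nat_lit 57712) (nat_lit 176) (.e (nat_lit 1361) (nat_lit 102) (.e (nat_lit 286761) (nat_lit 13) (.e (nat_lit 393265) (nat_lit 22) (.e (nat_lit 417804) (nat_lit 1) (.e (nat_lit 8433) (nat_lit 138) .nil))))))) (.g (nat_lit 4) .nil .nil)))) (.nd (nat_lit 5) 
(.lf (nat_lit 22878) (.g (nat_lit 1370) (.e (nat_lit 1183) (nat_lit 87) (.e (nat_lit 57681) (nat_lit 155) (.e (nat_lit 122917) (nat_lit 15) (.e (nat_lit 360492) (nat_lit 22) (.e (nat_lit 778362) (nat_lit 9) (.e (nat_lit 297) (nat_lit 22) (.e (nat_lit 352000) (nat_lit 8) .nil))))))) (.g (nat_lit 4) .nil .nil))) 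
(.lf (nat_lit 22910) (.g (nat_lit 1343) (.e (nat_lit 1183) (nat_lit 87) (.e (nat_lit 57712) (nat_lit 176) (.e (nat_lit 1370) (nat_lit 103) (.e (nat_lit 294960) (nat_lit 13) (.e (nat_lit 393283) (nat_lit 24) (.e (nat_lit 434213) (nat_lit 18) (.e (nat_lit 5820) (nat_lit 320) .nil))))))) (.g (nat_lit 4) .nil .nil)))))))) 
(.nd (nat_lit 1) (.nd (nat_lit 2) (.nd (nat_lit 3) (.nd (nat_lit 4) (.nd (nat_lit 5) 
(.lf (nat_lit 22849) (.g (nat_lit 2680) (.e (nat_lit 1183) (nat_lit 87) (.e (nat_lit 57520) (nat_lit 44) (.e (nat_lit 688177) (nat_lit 16) (.e (nat_lit 65583) (nat_lit 7) (.e (nat_lit 319530) (nat_lit 16) (.e (nat_lit 286748) (nat_lit 9) (.e (nat_lit 336032) (nat_lit 4) (.e (nat_lit 123185) (nat_lit 264) .nil)))))))) (.g (nat_lit 5) .nil .nil))) 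
(.lf (nat_lit 22881) (.g (nat_lit 3004) (.e (nat_lit 1183) (nat_lit 87) (.e (nat_lit 57681) (nat_lit 155) (.e (nat_lit 122919) (nat_lit 15) (.e (nat_lit 360451) (nat_lit 0) (.e (nat_lit 7124) (nat_lit 382) (.e (nat_lit 1212) (nat_lit 89) (.e (nat_lit 81664) (nat_lit 40) .nil))))))) (.g (nat_lit 6) .nil .nil)))) (.nd (nat_lit 5) 
(.lf (nat_lit 22865) (.g (nat_lit 3162) (.e (nat_lit 1183) (nat_lit 87) (.e (nat_lit 57575) (nat_lit 55) (.e (nat_lit 778362) (nat_lit 9) (.e (nat_lit 232) (nat_lit 21) (.e (nat_lit 336060) (nat_lit 7) (.e (nat_lit 319534) (nat_lit 16) (.e (nat_lit 286756) (nat_lit 10) (.e (nat_lit 344090) (nat_lit 18) (.e (nat_lit 5455) (nat_lit 306) .nil))))))))) (.g (nat_lit 5) .nil .nil))) 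
(.lf (nat_lit 22897) (.g (nat_lit 2333) (.e (nat_lit 1183) (nat_lit 87) (.e (nat_lit 57712) (nat_lit 176) (.e (nat_lit 1370) (nat_lit 103) (.e (nat_lit 294941) (nat_lit 9) (.e (nat_lit 336430) (nat_lit 29) (.e (nat_lit 442430) (nat_lit 24) (.e (nat_lit 229699) (nat_lit 254) .nil))))))) (.g (nat_lit 5) .nil .nil))))) (.nd (nat_lit 4) (.nd (nat_lit 5) 
(.lf (nat_lit 22857) (.g (nat_lit 1894) (.e (nat_lit 1183) (nat_lit 87) (.e (nat_lit 57574) (nat_lit 55) (.e (nat_lit 778362) (nat_lit 9) (.e (nat_lit 232) (nat_lit 21) (.e (nat_lit 336060) (nat_lit 7) .nil))))) .nil)) 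
(.lf (nat_lit 22889) (.g (nat_lit 3513) (.e (nat_lit 1183) (nat_lit 87) (.e (nat_lit 57681) (nat_lit 155) (.e (nat_lit 122919) (nat_lit 15) (.e (nat_lit 360492) (nat_lit 22) (.e (nat_lit 778362) (nat_lit 9) (.e (nat_lit 297) (nat_lit 22) (.e (nat_lit 352000) (nat_lit 8) .nil))))))) (.g (nat_lit 6) .nil .nil)))) (.nd (nat_lit 5) 
(.lf (nat_lit 22873) (.g (nat_lit 385) (.e (nat_lit 1183) (nat_lit 87) (.e (nat_lit 57681) (nat_lit 155) (.e (nat_lit 122913) (nat_lit 13) .nil))) .nil)) 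
(.lf (nat_lit 22905) (.g (nat_lit 1333) (.e (nat_lit 1183) (nat_lit 87) (.e (nat_lit 57712) (nat_lit 176) (.e (nat_lit 1370) (nat_lit 103) (.e (nat_lit 294960) (nat_lit 13) (.e (nat_lit 393282) (nat_lit 24) (.e (nat_lit 434216) (nat_lit 18) (.e (nat_lit 5817) (nat_lit 320) .nil))))))) (.g (nat_lit 4) .nil .nil)))))) (.nd (nat_lit 3) (.nd (nat_lit 4) (.nd (nat_lit 5) 
(.lf (nat_lit 22853) (.g (nat_lit 3007) (.e (nat_lit 1183) (nat_lit 87) (.e (nat_lit 57520) (nat_lit 44) (.e (nat_lit 688177) (nat_lit 16) (.e (nat_lit 65586) (nat_lit 7) (.e (nat_lit 319531) (nat_lit 16) (.e (nat_lit 286748) (nat_lit 9) (.e (nat_lit 336032) (nat_lit 4) (.e (nat_lit 123184) (nat_lit 264) .nil)))))))) (.g (nat_lit 5) .nil .nil))) 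
(.lf (nat_lit 22885) (.g (nat_lit 1494) (.e (nat_lit 1183) (nat_lit 87) (.e (nat_lit 57681) (nat_lit 155) (.e (nat_lit 122919) (nat_lit 15) (.e (nat_lit 360454) (nat_lit 0) .nil)))) .nil))) (.nd (nat_lit 5) 
(.lf (nat_lit 22869) (.g (nat_lit 4416) (.e (nat_lit 1183) (nat_lit 87) (.e (nat_lit 57681) (nat_lit 155) (.e (nat_lit 122911) (nat_lit 13) (.e (nat_lit 344117) (nat_lit 21) (.e (nat_lit 516151) (nat_lit 9) (.e (nat_lit 426286) (nat_lit 10) (.e (nat_lit 434245) (nat_lit 28) (.e (nat_lit 573453) (nat_lit 9) .nil)))))))) (.g (nat_lit 8) .nil .nil))) 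
(.lf (nat_lit 22901) (.g (nat_lit 1071) (.e (nat_lit 1183) (nat_lit 87) (.e (nat_lit 57712) (nat_lit 176) (.e (nat_lit 1370) (nat_lit 103) (.e (nat_lit 294941) (nat_lit 9) (.e (nat_lit 336434) (nat_lit 30) .nil))))) .nil)))) (.nd (nat_lit 4) (.nd (nat_lit 5) 
(.lf (nat_lit 22861) (.g (nat_lit 2378) (.e (nat_lit 1183) (nat_lit 87) (.e (nat_lit 57575) (nat_lit 55) (.e (nat_lit 778362) (nat_lit 9) (.e (nat_lit 232) (nat_lit 21) (.e (nat_lit 336060) (nat_lit 7) (.e (nat_lit 319534) (nat_lit 16) (.e (nat_lit 286756) (nat_lit 10) (.e (nat_lit 344088) (nat_lit 18) (.e (nat_lit 5439) (nat_lit 306) .nil))))))))) (.g (nat_lit 4) .nil .nil))) 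
(.lf (nat_lit 22893) (.g (nat_lit 2999) (.e (nat_lit 1183) (nat_lit 87) (.e (nat_lit 57711) (nat_lit 176) (.e (nat_lit 2777) (nat_lit 178) (.e (nat_lit 286731) (nat_lit 1) (.e (nat_lit 57681) (nat_lit 155) (.e (nat_lit 122919) (nat_lit 15) (.e (nat_lit 360451) (nat_lit 0) (.e (nat_lit 7124) (nat_lit 382) .nil)))))))) (.g (nat_lit 5) .nil .nil)))) (.nd (nat_lit 5) 
(.lf (nat_lit 22877) (.g (nat_lit 476) (.e (nat_lit 1183) (nat_lit 87) (.e (nat_lit 57681) (nat_lit 155) (.e (nat_lit 122916) (nat_lit 14) .nil))) .nil)) 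
(.lf (nat_lit 22909) (.g (nat_lit 2355) (.e (nat_lit 1183) (nat_lit 87) (.e (nat_lit 57712) (nat_lit 176) (.e (nat_lit 1370) (nat_lit 103) (.e (nat_lit 294960) (nat_lit 13) (.e (nat_lit 393283) (nat_lit 24) (.e (nat_lit 434213) (nat_lit 18) (.e (nat_lit 5815) (nat_lit 320) .nil))))))) (.g (nat_lit 7) .nil .nil))))))) (.nd (nat_lit 2) (.nd (nat_lit 3) (.nd (nat_lit 4) (.nd (nat_lit 5) 
(.lf (nat_lit 22851) (.g (nat_lit 3934) (.e (nat_lit 1183) (nat_lit 87) (.e (nat_lit 57520) (nat_lit 44) (.e (nat_lit 688177) (nat_lit 16) (.e (nat_lit 65586) (nat_lit 7) (.e (nat_lit 319531) (nat_lit 16) (.e (nat_lit 286747) (nat_lit 9) (.e (nat_lit 336032) (nat_lit 4) (.e (nat_lit 123182) (nat_lit 264) .nil)))))))) (.g (nat_lit 6) .nil .nil))) 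
(.lf (nat_lit 22883) (.g (nat_lit 2255) (.e (nat_lit 1183) (nat_lit 87) (.e (nat_lit 57681) (nat_lit 155) (.e (nat_lit 122919) (nat_lit 15) (.e (nat_lit 360451) (nat_lit 0) (.e (nat_lit 7124) (nat_lit 382) (.e (nat_lit 7936) (nat_lit 89) (.e (nat_lit 81664) (nat_lit 40) .nil))))))) (.g (nat_lit 5) .nil .nil)))) (.nd (nat_lit 5) 
(.lf (nat_lit 22867) (.g (nat_lit 547) (.e (nat_lit 1183) (nat_lit 87) (.e (nat_lit 57681) (nat_lit 155) (.e (nat_lit 122903) (nat_lit 12) .nil))) .nil)) 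
(.lf (nat_lit 22899) (.g (nat_lit 2911) (.e (nat_lit 1183) (nat_lit 87) (.e (nat_lit 57712) (nat_lit 176) (.e (nat_lit 1370) (nat_lit 103) (.e (nat_lit 294941) (nat_lit 9) (.e (nat_lit 336432) (nat_lit 30) (.e (nat_lit 450569) (nat_lit 0) (.e (nat_lit 5815) (nat_lit 320) .nil))))))) (.g (nat_lit 0) .nil .nil))))) (.nd (nat_lit 4) (.nd (nat_lit 5) 
(.lf (nat_lit 22859) (.g (nat_lit 2365) (.e (nat_lit 1183) (nat_lit 87) (.e (nat_lit 57575) (nat_lit 55) (.e (nat_lit 778362) (nat_lit 9) (.e (nat_lit 232) (nat_lit 21) (.e (nat_lit 336060) (nat_lit 7) (.e (nat_lit 319533) (nat_lit 16) (.e (nat_lit 286753) (nat_lit 10) (.e (nat_lit 344088) (nat_lit 18) (.e (nat_lit 5455) (nat_lit 306) .nil))))))))) (.g (nat_lit 4) .nil .nil))) 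
(.lf (nat_lit 22891) (.g (nat_lit 560) (.e (nat_lit 1183) (nat_lit 87) (.e (nat_lit 57681) (nat_lit 155) (.e (nat_lit 122925) (nat_lit 19) .nil))) .nil))) (.nd (nat_lit 5) 
(.lf (nat_lit 22875) (.g (nat_lit 5257) (.e (nat_lit 1183) (nat_lit 87) (.e (nat_lit 57681) (nat_lit 155) (.e (nat_lit 122913) (nat_lit 13) (.e (nat_lit 344117) (nat_lit 21) (.e (nat_lit 516151) (nat_lit 9) (.e (nat_lit 426286) (nat_lit 10) (.e (nat_lit 434248) (nat_lit 28) (.e (nat_lit 573449) (nat_lit 9) .nil)))))))) (.g (nat_lit 0) .nil .nil))) 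
(.lf (nat_lit 22907) (.g (nat_lit 2840) (.e (nat_lit 1183) (nat_lit 87) (.e (nat_lit 57712) (nat_lit 176) (.e (nat_lit 1370) (nat_lit 103) (.e (nat_lit 294960) (nat_lit 13) (.e (nat_lit 393283) (nat_lit 24) (.e (nat_lit 434208) (nat_lit 18) (.e (nat_lit 5814) (nat_lit 320) .nil))))))) (.g (nat_lit 7) .nil .nil)))))) (.nd (nat_lit 3) (.nd (nat_lit 4) (.nd (nat_lit 5) 
(.lf (nat_lit 22855) (.g (nat_lit 4004) (.e (nat_lit 1183) (nat_lit 87) (.e (nat_lit 57520) (nat_lit 44) (.e (nat_lit 688177) (nat_lit 16) (.e (nat_lit 65586) (nat_lit 7) (.e (nat_lit 319531) (nat_lit 16) (.e (nat_lit 286748) (nat_lit 9) (.e (nat_lit 336034) (nat_lit 4) (.e (nat_lit 123182) (nat_lit 264) .nil)))))))) (.g (nat_lit 6) .nil .nil))) 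
(.lf (nat_lit 22887) (.g (nat_lit 3333) (.e (nat_lit 1183) (nat_lit 87) (.e (nat_lit 57681) (nat_lit 155) (.e (nat_lit 122919) (nat_lit 15) (.e (nat_lit 360491) (nat_lit 22) (.e (nat_lit 778362) (nat_lit 9) (.e (nat_lit 297) (nat_lit 22) (.e (nat_lit 352000) (nat_lit 8) .nil))))))) (.g (nat_lit 6) .nil .nil)))) (.nd (nat_lit 5) 
(.lf (nat_lit 22871) (.g (nat_lit 5421) (.e (nat_lit 1183) (nat_lit 87) (.e (nat_lit 57681) (nat_lit 155) (.e (nat_lit 122911) (nat_lit 13) (.e (nat_lit 344117) (nat_lit 21) (.e (nat_lit 516166) (nat_lit 12) (.e (nat_lit 450588) (nat_lit 10) (.e (nat_lit 573449) (nat_lit 9) .nil))))))) (.g (nat_lit 0) .nil .nil))) 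
(.lf (nat_lit 22903) (.g (nat_lit 2657) (.e (nat_lit 1183) (nat_lit 87) (.e (nat_lit 57712) (nat_lit 176) (.e (nat_lit 1370) (nat_lit 103) (.e (nat_lit 294960) (nat_lit 13) (.e (nat_lit 393282) (nat_lit 24) (.e (nat_lit 434209) (nat_lit 18) (.e (nat_lit 5820) (nat_lit 320) .nil))))))) (.g (nat_lit 6) .nil .nil))))) (.nd (nat_lit 4) (.nd (nat_lit 5) 
(.lf (nat_lit 22863) (.g (nat_lit 2587) (.e (nat_lit 1183) (nat_lit 87) (.e (nat_lit 57575) (nat_lit 55) (.e (nat_lit 778362) (nat_lit 9) (.e (nat_lit 232) (nat_lit 21) (.e (nat_lit 336060) (nat_lit 7) (.e (nat_lit 319534) (nat_lit 16) (.e (nat_lit 286756) (nat_lit 10) (.e (nat_lit 344088) (nat_lit 18) (.e (nat_lit 5442) (nat_lit 306) .nil))))))))) (.g (nat_lit 4) .nil .nil))) 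
(.lf (nat_lit 22895) (.g (nat_lit 2279) (.e (nat_lit 1183) (nat_lit 87) (.e (nat_lit 57712) (nat_lit 176) (.e (nat_lit 1370) (nat_lit 103) (.e (nat_lit 294938) (nat_lit 9) .nil)))) .nil))) (.nd (nat_lit 5) 
(.lf (nat_lit 22879) (.g (nat_lit 692) (.e (nat_lit 1183) (nat_lit 87) (.e (nat_lit 57681) (nat_lit 155) (.e (nat_lit 122917) (nat_lit 15) (.e (nat_lit 368384) (nat_lit 25) .nil)))) .nil)) 
(.lf (nat_lit 22911) (.g (nat_lit 2357) (.e (nat_lit 1183) (nat_lit 87) (.e (nat_lit 57712) (nat_lit 176) (.e (nat_lit 1370) (nat_lit 103) (.e (nat_lit 294960) (nat_lit 13) (.e (nat_lit 393286) (nat_lit 25) (.e (nat_lit 458774) (nat_lit 18) (.e (nat_lit 5820) (nat_lit 320) .nil))))))) (.g (nat_lit 6) .nil .nil)))))))))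

noncomputable def tv325 : DT := (.nd (nat_lit 0) (.nd (nat_lit 1) (.nd (nat_lit 2) (.nd (nat_lit 3) (.nd (nat_lit 4) (.nd (nat_lit 5) 
(.lf (nat_lit 22912) (.g (nat_lit 795) (.e (nat_lit 1183) (nat_lit 87) (.e (nat_lit 57712) (nat_lit 176) (.e (nat_lit 1370) (nat_lit 103) (.e (nat_lit 294960) (nat_lit 13) (.e (nat_lit 393287) (nat_lit 25) .nil))))) .nil)) 
(.lf (nat_lit 22944) (.g (nat_lit 1509) (.e (nat_lit 1183) (nat_lit 87) (.e (nat_lit 57847) (nat_lit 252) (.e (nat_lit 57411) (nat_lit 12) (.e (nat_lit 336211) (nat_lit 13) .nil)))) .nil))) (.nd (nat_lit 5) 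
(.lf (nat_lit 22928) (.g (nat_lit 3087) (.e (nat_lit 1183) (nat_lit 87) (.e (nat_lit 57741) (nat_lit 187) (.e (nat_lit 1658) (nat_lit 115) (.e (nat_lit 393301) (nat_lit 27) (.e (nat_lit 491559) (nat_lit 10) (.e (nat_lit 344095) (nat_lit 18) (.e (nat_lit 7122) (nat_lit 382) .nil))))))) (.g (nat_lit 5) .nil .nil))) 
(.lf (nat_lit 22960) (.g (nat_lit 1368) (.e (nat_lit 1183) (nat_lit 87) (.e (nat_lit 57847) (nat_lit 252) (.e (nat_lit 57446) (nat_lit 19) (.e (nat_lit 393229) (nat_lit 9) .nil)))) .nil)))) (.nd (nat_lit 4) (.nd (nat_lit 5) 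
(.lf (nat_lit 22920) (.g (nat_lit 2525) (.e (nat_lit 1183) (nat_lit 87) (.e (nat_lit 57730) (nat_lit 181) (.e (nat_lit 1199) (nat_lit 88) (.e (nat_lit 65586) (nat_lit 7) (.e (nat_lit 319531) (nat_lit 16) (.e (nat_lit 286759) (nat_lit 12) (.e (nat_lit 385094) (nat_lit 49) (.e (nat_lit 778246) (nat_lit 0) .nil)))))))) (.g (nat_lit 5) .nil .nil))) 
(.lf (nat_lit 22952) (.g (nat_lit 1997) (.e (nat_lit 1183) (nat_lit 87) (.e (nat_lit 57847) (nat_lit 252) (.e (nat_lit 57437) (nat_lit 17) (.e (nat_lit 376842) (nat_lit 11) (.e (nat_lit 426298) (nat_lit 11) (.e (nat_lit 458804) (nat_lit 38) (.e (nat_lit 655384) (nat_lit 9) .nil))))))) (.g (nat_lit 4) .nil .nil)))) (.nd (nat_lit 5) 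
(.lf (nat_lit 22936) (.g (nat_lit 3219) (.e (nat_lit 1183) (nat_lit 87) (.e (nat_lit 57741) (nat_lit 187) (.e (nat_lit 1659) (nat_lit 115) (.e (nat_lit 393301) (nat_lit 27) (.e (nat_lit 491560) (nat_lit 10) (.e (nat_lit 344087) (nat_lit 18) (.e (nat_lit 7125) (nat_lit 382) .nil))))))) (.g (nat_lit 5) .nil .nil))) 
(.lf (nat_lit 22968) (.g (nat_lit 2002) (.e (nat_lit 1183) (nat_lit 87) (.e (nat_lit 57848) (nat_lit 252) (.e (nat_lit 57372) (nat_lit 2) (.e (nat_lit 90128) (nat_lit 9) (.e (nat_lit 297) (nat_lit 22) (.e (nat_lit 344119) (nat_lit 21) (.e (nat_lit 516131) (nat_lit 3) (.e (nat_lit 221212) (nat_lit 22) (.e (nat_lit 196623) (nat_lit 9) .nil))))))))) (.g (nat_lit 4) .nil .nil)))))) 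
(.nd (nat_lit 3) (.nd (nat_lit 4) (.nd (nat_lit 5) 
(.lf (nat_lit 22916) (.g (nat_lit 2941) (.e (nat_lit 1183) (nat_lit 87) (.e (nat_lit 57712) (nat_lit 176) (.e (nat_lit 2777) (nat_lit 178) (.e (nat_lit 286731) (nat_lit 1) (.e (nat_lit 57681) (nat_lit 155) (.e (nat_lit 122919) (nat_lit 15) (.e (nat_lit 360451) (nat_lit 0) (.e (nat_lit 7124) (nat_lit 382) .nil)))))))) (.g (nat_lit 5) .nil .nil))) 
(.lf (nat_lit 22948) (.g (nat_lit 2149) (.e (nat_lit 1183) (nat_lit 87) (.e (nat_lit 57847) (nat_lit 252) (.e (nat_lit 57435) (nat_lit 17) (.e (nat_lit 376842) (nat_lit 11) (.e (nat_lit 426306) (nat_lit 12) (.e (nat_lit 475201) (nat_lit 40) (.e (nat_lit 704620) (nat_lit 9) .nil))))))) (.g (nat_lit 4) .nil .nil)))) (.nd (nat_lit 5) 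
(.lf (nat_lit 22932) (.g (nat_lit 3344) (.e (nat_lit 1183) (nat_lit 87) (.e (nat_lit 57741) (nat_lit 187) (.e (nat_lit 1659) (nat_lit 115) (.e (nat_lit 393301) (nat_lit 27) (.e (nat_lit 491559) (nat_lit 10) (.e (nat_lit 344090) (nat_lit 18) (.e (nat_lit 7125) (nat_lit 382) .nil))))))) (.g (nat_lit 5) .nil .nil))) 
(.lf (nat_lit 22964) (.g (nat_lit 4256) (.e (nat_lit 1183) (nat_lit 87) (.e (nat_lit 57848) (nat_lit 252) (.e (nat_lit 57368) (nat_lit 1) (.e (nat_lit 57851) (nat_lit 252) (.e (nat_lit 57354) (nat_lit 0) (.e (nat_lit 1855) (nat_lit 124) (.e (nat_lit 557109) (nat_lit 15) (.e (nat_lit 188461) (nat_lit 26) (.e (nat_lit 253967) (nat_lit 9) .nil))))))))) (.g (nat_lit 7) .nil .nil))))) 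
(.nd (nat_lit 4) (.nd (nat_lit 5) 
(.lf (nat_lit 22924) (.g (nat_lit 3275) (.e (nat_lit 1183) (nat_lit 87) (.e (nat_lit 57740) (nat_lit 187) (.e (nat_lit 1659) (nat_lit 115) (.e (nat_lit 393301) (nat_lit 27) (.e (nat_lit 491559) (nat_lit 10) (.e (nat_lit 344095) (nat_lit 18) (.e (nat_lit 7122) (nat_lit 382) .nil))))))) (.g (nat_lit 5) .nil .nil))) 
(.lf (nat_lit 22956) (.g (nat_lit 2076) (.e (nat_lit 1183) (nat_lit 87) (.e (nat_lit 57847) (nat_lit 252) (.e (nat_lit 57437) (nat_lit 17) (.e (nat_lit 376842) (nat_lit 11) (.e (nat_lit 426306) (nat_lit 12) (.e (nat_lit 475201) (nat_lit 40) (.e (nat_lit 704638) (nat_lit 9) .nil))))))) (.g (nat_lit 4) .nil .nil)))) (.nd (nat_lit 5) 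
(.lf (nat_lit 22940) (.g (nat_lit 5624) (.e (nat_lit 1183) (nat_lit 87) (.e (nat_lit 57741) (nat_lit 187) (.e (nat_lit 1659) (nat_lit 115) (.e (nat_lit 393301) (nat_lit 27) (.e (nat_lit 491560) (nat_lit 10) (.e (nat_lit 344096) (nat_lit 18) (.e (nat_lit 7122) (nat_lit 382) .nil))))))) (.g (nat_lit 7) .nil .nil))) 
(.lf (nat_lit 22972) (.g (nat_lit 1689) (.e (nat_lit 1183) (nat_lit 87) (.e (nat_lit 57848) (nat_lit 252) (.e (nat_lit 57372) (nat_lit 2) (.e (nat_lit 90133) (nat_lit 9) (.e (nat_lit 296) (nat_lit 22) .nil))))) .nil)))))) (.nd (nat_lit 2) (.nd (nat_lit 3) (.nd (nat_lit 4) (.nd (nat_lit 5) 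
(.lf (nat_lit 22914) (.g (nat_lit 2539) (.e (nat_lit 1183) (nat_lit 87) (.e (nat_lit 57712) (nat_lit 176) (.e (nat_lit 1370) (nat_lit 103) (.e (nat_lit 294960) (nat_lit 13) (.e (nat_lit 393287) (nat_lit 25) (.e (nat_lit 458774) (nat_lit 18) (.e (nat_lit 5820) (nat_lit 320) .nil))))))) (.g (nat_lit 6) .nil .nil))) 
(.lf (nat_lit 22946) (.g (nat_lit 2087) (.e (nat_lit 1183) (nat_lit 87) (.e (nat_lit 57847) (nat_lit 252) (.e (nat_lit 57435) (nat_lit 17) (.e (nat_lit 376842) (nat_lit 11) (.e (nat_lit 426298) (nat_lit 11) (.e (nat_lit 458804) (nat_lit 38) (.e (nat_lit 655386) (nat_lit 9) .nil))))))) (.g (nat_lit 4) .nil .nil)))) (.nd (nat_lit 5) 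
(.lf (nat_lit 22930) (.g (nat_lit 4614) (.e (nat_lit 1183) (nat_lit 87) (.e (nat_lit 57741) (nat_lit 187) (.e (nat_lit 1659) (nat_lit 115) (.e (nat_lit 393301) (nat_lit 27) (.e (nat_lit 491558) (nat_lit 10) (.e (nat_lit 344096) (nat_lit 18) (.e (nat_lit 7122) (nat_lit 382) .nil))))))) (.g (nat_lit 7) .nil .nil))) 
(.lf (nat_lit 22962) (.g (nat_lit 1629) (.e (nat_lit 1183) (nat_lit 87) (.e (nat_lit 57848) (nat_lit 252) (.e (nat_lit 57365) (nat_lit 1) (.e (nat_lit 57851) (nat_lit 252) (.e (nat_lit 57354) (nat_lit 0) (.e (nat_lit 1857) (nat_lit 124) (.e (nat_lit 557107) (nat_lit 15) (.e (nat_lit 188459) (nat_lit 26) (.e (nat_lit 253967) (nat_lit 9) .nil))))))))) (.g (nat_lit 4) .nil .nil))))) 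
(.nd (nat_lit 4) (.nd (nat_lit 5) 
(.lf (nat_lit 22922) (.g (nat_lit 3007) (.e (nat_lit 1183) (nat_lit 87) (.e (nat_lit 57740) (nat_lit 187) (.e (nat_lit 1659) (nat_lit 115) (.e (nat_lit 393301) (nat_lit 27) (.e (nat_lit 491558) (nat_lit 10) (.e (nat_lit 344091) (nat_lit 18) (.e (nat_lit 7125) (nat_lit 382) .nil))))))) (.g (nat_lit 5) .nil .nil))) 
(.lf (nat_lit 22954) (.g (nat_lit 1889) (.e (nat_lit 1183) (nat_lit 87) (.e (nat_lit 57847) (nat_lit 252) (.e (nat_lit 57437) (nat_lit 17) (.e (nat_lit 376842) (nat_lit 11) (.e (nat_lit 426306) (nat_lit 12) .nil))))) .nil))) (.nd (nat_lit 5) 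
(.lf (nat_lit 22938) (.g (nat_lit 4260) (.e (nat_lit 1183) (nat_lit 87) (.e (nat_lit 57741) (nat_lit 187) (.e (nat_lit 1659) (nat_lit 115) (.e (nat_lit 393301) (nat_lit 27) (.e (nat_lit 491560) (nat_lit 10) (.e (nat_lit 344091) (nat_lit 18) (.e (nat_lit 7122) (nat_lit 382) .nil))))))) (.g (nat_lit 6) .nil .nil))) 
(.lf (nat_lit 22970) (.g (nat_lit 2335) (.e (nat_lit 1183) (nat_lit 87) (.e (nat_lit 57848) (nat_lit 252) (.e (nat_lit 57372) (nat_lit 2) (.e (nat_lit 90128) (nat_lit 9) (.e (nat_lit 304) (nat_lit 22) .nil))))) .nil))))) (.nd (nat_lit 3) (.nd (nat_lit 4) (.nd (nat_lit 5) 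
(.lf (nat_lit 22918) (.g (nat_lit 2673) (.e (nat_lit 1183) (nat_lit 87) (.e (nat_lit 57724) (nat_lit 181) (.e (nat_lit 1199) (nat_lit 88) (.e (nat_lit 65586) (nat_lit 7) (.e (nat_lit 319531) (nat_lit 16) (.e (nat_lit 286759) (nat_lit 12) (.e (nat_lit 385094) (nat_lit 49) (.e (nat_lit 778241) (nat_lit 0) .nil)))))))) (.g (nat_lit 5) .nil .nil))) 
(.lf (nat_lit 22950) (.g (nat_lit 961) (.e (nat_lit 1183) (nat_lit 87) (.e (nat_lit 57847) (nat_lit 252) (.e (nat_lit 57435) (nat_lit 17) (.e (nat_lit 384768) (nat_lit 14) .nil)))) .nil))) (.nd (nat_lit 5) 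
(.lf (nat_lit 22934) (.g (nat_lit 3931) (.e (nat_lit 1183) (nat_lit 87) (.e (nat_lit 57741) (nat_lit 187) (.e (nat_lit 1659) (nat_lit 115) (.e (nat_lit 393301) (nat_lit 27) (.e (nat_lit 491559) (nat_lit 10) (.e (nat_lit 344095) (nat_lit 18) (.e (nat_lit 7122) (nat_lit 382) .nil))))))) (.g (nat_lit 6) .nil .nil))) 
(.lf (nat_lit 22966) (.g (nat_lit 1629) (.e (nat_lit 1183) (nat_lit 87) (.e (nat_lit 57848) (nat_lit 252) (.e (nat_lit 57368) (nat_lit 1) (.e (nat_lit 57851) (nat_lit 252) (.e (nat_lit 57354) (nat_lit 0) (.e (nat_lit 2177) (nat_lit 143) (.e (nat_lit 712753) (nat_lit 30) (.e (nat_lit 450586) (nat_lit 10) (.e (nat_lit 573453) (nat_lit 9) .nil))))))))) (.g (nat_lit 4) .nil .nil))))) 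
(.nd (nat_lit 4) (.nd (nat_lit 5) 
(.lf (nat_lit 22926) (.g (nat_lit 3316) (.e (nat_lit 1183) (nat_lit 87) (.e (nat_lit 57740) (nat_lit 187) (.e (nat_lit 1659) (nat_lit 115) (.e (nat_lit 393301) (nat_lit 27) (.e (nat_lit 491560) (nat_lit 10) (.e (nat_lit 344091) (nat_lit 18) (.e (nat_lit 7125) (nat_lit 382) .nil))))))) (.g (nat_lit 5) .nil .nil))) 
(.lf (nat_lit 22958) (.g (nat_lit 1939) (.e (nat_lit 1183) (nat_lit 87) (.e (nat_lit 57847) (nat_lit 252) (.e (nat_lit 57437) (nat_lit 17) (.e (nat_lit 376842) (nat_lit 11) (.e (nat_lit 426315) (nat_lit 12) .nil))))) .nil))) (.nd (nat_lit 5) 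
(.lf (nat_lit 22942) (.g (nat_lit 794) (.e (nat_lit 1183) (nat_lit 87) (.e (nat_lit 57847) (nat_lit 252) (.e (nat_lit 57408) (nat_lit 12) .nil))) .nil)) 
(.lf (nat_lit 22974) (.g (nat_lit 4504) (.e (nat_lit 1183) (nat_lit 87) (.e (nat_lit 57848) (nat_lit 252) (.e (nat_lit 57372) (nat_lit 2) (.e (nat_lit 90160) (nat_lit 11) (.e (nat_lit 24607) (nat_lit 3) (.e (nat_lit 98342) (nat_lit 20) (.e (nat_lit 221212) (nat_lit 22) (.e (nat_lit 196626) (nat_lit 9) .nil)))))))) (.g (nat_lit 5) .nil .nil)))))))) 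
(.nd (nat_lit 1) (.nd (nat_lit 2) (.nd (nat_lit 3) (.nd (nat_lit 4) (.nd (nat_lit 5) 
(.lf (nat_lit 22913) (.g (nat_lit 1030) (.e (nat_lit 1183) (nat_lit 87) (.e (nat_lit 57712) (nat_lit 176) (.e (nat_lit 1370) (nat_lit 103) (.e (nat_lit 294960) (nat_lit 13) (.e (nat_lit 393287) (nat_lit 25) (.e (nat_lit 458771) (nat_lit 18) (.e (nat_lit 5815) (nat_lit 320) .nil))))))) (.g (nat_lit 4) .nil .nil))) 
(.lf (nat_lit 22945) (.g (nat_lit 1698) (.e (nat_lit 1183) (nat_lit 87) (.e (nat_lit 57847) (nat_lit 252) (.e (nat_lit 57435) (nat_lit 17) (.e (nat_lit 376842) (nat_lit 11) (.e (nat_lit 426298) (nat_lit 11) .nil))))) .nil))) (.nd (nat_lit 5) 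
(.lf (nat_lit 22929) (.g (nat_lit 3759) (.e (nat_lit 1183) (nat_lit 87) (.e (nat_lit 57741) (nat_lit 187) (.e (nat_lit 1659) (nat_lit 115) (.e (nat_lit 393301) (nat_lit 27) (.e (nat_lit 491558) (nat_lit 10) (.e (nat_lit 344091) (nat_lit 18) (.e (nat_lit 7125) (nat_lit 382) .nil))))))) (.g (nat_lit 6) .nil .nil))) 
(.lf (nat_lit 22961) (.g (nat_lit 4256) (.e (nat_lit 1183) (nat_lit 87) (.e (nat_lit 57848) (nat_lit 252) (.e (nat_lit 57365) (nat_lit 1) (.e (nat_lit 57851) (nat_lit 252) (.e (nat_lit 57354) (nat_lit 0) (.e (nat_lit 1855) (nat_lit 124) (.e (nat_lit 557109) (nat_lit 15) (.e (nat_lit 188461) (nat_lit 26) (.e (nat_lit 253967) (nat_lit 9) .nil))))))))) (.g (nat_lit 7) .nil .nil))))) 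
(.nd (nat_lit 4) (.nd (nat_lit 5) 
(.lf (nat_lit 22921) (.g (nat_lit 2612) (.e (nat_lit 1183) (nat_lit 87) (.e (nat_lit 57740) (nat_lit 187) (.e (nat_lit 1659) (nat_lit 115) (.e (nat_lit 393301) (nat_lit 27) (.e (nat_lit 491558) (nat_lit 10) (.e (nat_lit 344090) (nat_lit 18) (.e (nat_lit 7122) (nat_lit 382) .nil))))))) (.g (nat_lit 5) .nil .nil))) 
(.lf (nat_lit 22953) (.g (nat_lit 2389) (.e (nat_lit 1183) (nat_lit 87) (.e (nat_lit 57847) (nat_lit 252) (.e (nat_lit 57437) (nat_lit 17) (.e (nat_lit 376842) (nat_lit 11) (.e (nat_lit 426298) (nat_lit 11) (.e (nat_lit 458804) (nat_lit 38) (.e (nat_lit 655386) (nat_lit 9) .nil))))))) (.g (nat_lit 4) .nil .nil)))) (.nd (nat_lit 5) 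
(.lf (nat_lit 22937) (.g (nat_lit 4691) (.e (nat_lit 1183) (nat_lit 87) (.e (nat_lit 57741) (nat_lit 187) (.e (nat_lit 1659) (nat_lit 115) (.e (nat_lit 393301) (nat_lit 27) (.e (nat_lit 491560) (nat_lit 10) (.e (nat_lit 344090) (nat_lit 18) (.e (nat_lit 7125) (nat_lit 382) .nil))))))) (.g (nat_lit 7) .nil .nil))) 
(.lf (nat_lit 22969) (.g (nat_lit 2305) (.e (nat_lit 1183) (nat_lit 87) (.e (nat_lit 57848) (nat_lit 252) (.e (nat_lit 57372) (nat_lit 2) (.e (nat_lit 90128) (nat_lit 9) (.e (nat_lit 297) (nat_lit 22) (.e (nat_lit 344120) (nat_lit 21) (.e (nat_lit 516131) (nat_lit 3) (.e (nat_lit 221212) (nat_lit 22) (.e (nat_lit 196626) (nat_lit 9) .nil))))))))) (.g (nat_lit 4) .nil .nil)))))) 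
(.nd (nat_lit 3) (.nd (nat_lit 4) (.nd (nat_lit 5) 
(.lf (nat_lit 22917) (.g (nat_lit 4397) (.e (nat_lit 1183) (nat_lit 87) (.e (nat_lit 57724) (nat_lit 181) (.e (nat_lit 1199) (nat_lit 88) (.e (nat_lit 65586) (nat_lit 7) (.e (nat_lit 319531) (nat_lit 16) (.e (nat_lit 286748) (nat_lit 9) (.e (nat_lit 336295) (nat_lit 15) (.e (nat_lit 3632) (nat_lit 227) (.e (nat_lit 778246) (nat_lit 0) .nil))))))))) (.g (nat_lit 8) .nil .nil))) 
(.lf (nat_lit 22949) (.g (nat_lit 2110) (.e (nat_lit 1183) (nat_lit 87) (.e (nat_lit 57847) (nat_lit 252) (.e (nat_lit 57435) (nat_lit 17) (.e (nat_lit 376842) (nat_lit 11) (.e (nat_lit 426306) (nat_lit 12) (.e (nat_lit 475201) (nat_lit 40) (.e (nat_lit 704643) (nat_lit 9) .nil))))))) (.g (nat_lit 4) .nil .nil)))) (.nd (nat_lit 5) 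
(.lf (nat_lit 22933) (.g (nat_lit 4137) (.e (nat_lit 1183) (nat_lit 87) (.e (nat_lit 57741) (nat_lit 187) (.e (nat_lit 1659) (nat_lit 115) (.e (nat_lit 393301) (nat_lit 27) (.e (nat_lit 491559) (nat_lit 10) (.e (nat_lit 344091) (nat_lit 18) (.e (nat_lit 7125) (nat_lit 382) .nil))))))) (.g (nat_lit 6) .nil .nil))) 
(.lf (nat_lit 22965) (.g (nat_lit 1629) (.e (nat_lit 1183) (nat_lit 87) (.e (nat_lit 57848) (nat_lit 252) (.e (nat_lit 57368) (nat_lit 1) (.e (nat_lit 57851) (nat_lit 252) (.e (nat_lit 57354) (nat_lit 0) (.e (nat_lit 1857) (nat_lit 124) (.e (nat_lit 557107) (nat_lit 15) (.e (nat_lit 188459) (nat_lit 26) (.e (nat_lit 253967) (nat_lit 9) .nil))))))))) (.g (nat_lit 4) .nil .nil))))) 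
(.nd (nat_lit 4) (.nd (nat_lit 5) 
(.lf (nat_lit 22925) (.g (nat_lit 3640) (.e (nat_lit 1183) (nat_lit 87) (.e (nat_lit 57740) (nat_lit 187) (.e (nat_lit 1659) (nat_lit 115) (.e (nat_lit 393301) (nat_lit 27) (.e (nat_lit 491560) (nat_lit 10) (.e (nat_lit 344087) (nat_lit 18) (.e (nat_lit 7122) (nat_lit 382) .nil))))))) (.g (nat_lit 5) .nil .nil))) 
(.lf (nat_lit 22957) (.g (nat_lit 2335) (.e (nat_lit 1183) (nat_lit 87) (.e (nat_lit 57847) (nat_lit 252) (.e (nat_lit 57437) (nat_lit 17) (.e (nat_lit 376842) (nat_lit 11) (.e (nat_lit 426306) (nat_lit 12) (.e (nat_lit 475201) (nat_lit 40) (.e (nat_lit 704643) (nat_lit 9) .nil))))))) (.g (nat_lit 4) .nil .nil)))) (.nd (nat_lit 5) 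
(.lf (nat_lit 22941) (.g (nat_lit 2423) (.e (nat_lit 1183) (nat_lit 87) (.e (nat_lit 57844) (nat_lit 252) (.e (nat_lit 57371) (nat_lit 2) (.e (nat_lit 90128) (nat_lit 9) (.e (nat_lit 297) (nat_lit 22) (.e (nat_lit 344119) (nat_lit 21) (.e (nat_lit 516131) (nat_lit 3) (.e (nat_lit 221212) (nat_lit 22) (.e (nat_lit 196626) (nat_lit 9) .nil))))))))) (.g (nat_lit 4) .nil .nil))) 
(.lf (nat_lit 22973) (.g (nat_lit 2900) (.e (nat_lit 1183) (nat_lit 87) (.e (nat_lit 57848) (nat_lit 252) (.e (nat_lit 57372) (nat_lit 2) (.e (nat_lit 90158) (nat_lit 11) (.e (nat_lit 24608) (nat_lit 3) .nil))))) .nil)))))) (.nd (nat_lit 2) (.nd (nat_lit 3) (.nd (nat_lit 4) (.nd (nat_lit 5) 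
(.lf (nat_lit 22915) (.g (nat_lit 1483) (.e (nat_lit 1183) (nat_lit 87) (.e (nat_lit 57712) (nat_lit 176) (.e (nat_lit 1370) (nat_lit 103) (.e (nat_lit 294960) (nat_lit 13) (.e (nat_lit 393287) (nat_lit 25) (.e (nat_lit 458775) (nat_lit 18) (.e (nat_lit 5815) (nat_lit 320) .nil))))))) (.g (nat_lit 5) .nil .nil))) 
(.lf (nat_lit 22947) (.g (nat_lit 1888) (.e (nat_lit 1183) (nat_lit 87) (.e (nat_lit 57847) (nat_lit 252) (.e (nat_lit 57435) (nat_lit 17) (.e (nat_lit 376842) (nat_lit 11) (.e (nat_lit 426306) (nat_lit 12) .nil))))) .nil))) (.nd (nat_lit 5) 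
(.lf (nat_lit 22931) (.g (nat_lit 3525) (.e (nat_lit 1183) (nat_lit 87) (.e (nat_lit 57741) (nat_lit 187) (.e (nat_lit 1659) (nat_lit 115) (.e (nat_lit 393301) (nat_lit 27) (.e (nat_lit 491559) (nat_lit 10) (.e (nat_lit 344090) (nat_lit 18) (.e (nat_lit 7124) (nat_lit 382) .nil))))))) (.g (nat_lit 5) .nil .nil))) 
(.lf (nat_lit 22963) (.g (nat_lit 1629) (.e (nat_lit 1183) (nat_lit 87) (.e (nat_lit 57848) (nat_lit 252) (.e (nat_lit 57365) (nat_lit 1) (.e (nat_lit 57851) (nat_lit 252) (.e (nat_lit 57354) (nat_lit 0) (.e (nat_lit 2177) (nat_lit 143) (.e (nat_lit 712753) (nat_lit 30) (.e (nat_lit 450586) (nat_lit 10) (.e (nat_lit 573453) (nat_lit 9) .nil))))))))) (.g (nat_lit 4) .nil .nil))))) 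
(.nd (nat_lit 4) (.nd (nat_lit 5) 
(.lf (nat_lit 22923) (.g (nat_lit 3376) (.e (nat_lit 1183) (nat_lit 87) (.e (nat_lit 57740) (nat_lit 187) (.e (nat_lit 1659) (nat_lit 115) (.e (nat_lit 393301) (nat_lit 27) (.e (nat_lit 491559) (nat_lit 10) (.e (nat_lit 344091) (nat_lit 18) (.e (nat_lit 7125) (nat_lit 382) .nil))))))) (.g (nat_lit 5) .nil .nil))) 
(.lf (nat_lit 22955) (.g (nat_lit 2451) (.e (nat_lit 1183) (nat_lit 87) (.e (nat_lit 57847) (nat_lit 252) (.e (nat_lit 57437) (nat_lit 17) (.e (nat_lit 376842) (nat_lit 11) (.e (nat_lit 426306) (nat_lit 12) (.e (nat_lit 475201) (nat_lit 40) (.e (nat_lit 704620) (nat_lit 9) .nil))))))) (.g (nat_lit 4) .nil .nil)))) (.nd (nat_lit 5) 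
(.lf (nat_lit 22939) (.g (nat_lit 3967) (.e (nat_lit 1183) (nat_lit 87) (.e (nat_lit 57741) (nat_lit 187) (.e (nat_lit 1659) (nat_lit 115) (.e (nat_lit 393301) (nat_lit 27) (.e (nat_lit 491560) (nat_lit 10) (.e (nat_lit 344091) (nat_lit 18) (.e (nat_lit 7125) (nat_lit 382) .nil))))))) (.g (nat_lit 6) .nil .nil))) 
(.lf (nat_lit 22971) (.g (nat_lit 2200) (.e (nat_lit 1183) (nat_lit 87) (.e (nat_lit 57848) (nat_lit 252) (.e (nat_lit 57372) (nat_lit 2) (.e (nat_lit 90132) (nat_lit 9) .nil)))) .nil))))) (.nd (nat_lit 3) (.nd (nat_lit 4) (.nd (nat_lit 5) 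
(.lf (nat_lit 22919) (.g (nat_lit 4450) (.e (nat_lit 1183) (nat_lit 87) (.e (nat_lit 57724) (nat_lit 181) (.e (nat_lit 1199) (nat_lit 88) (.e (nat_lit 65586) (nat_lit 7) (.e (nat_lit 319531) (nat_lit 16) (.e (nat_lit 286759) (nat_lit 12) (.e (nat_lit 385094) (nat_lit 49) (.e (nat_lit 778246) (nat_lit 0) .nil)))))))) (.g (nat_lit 0) .nil .nil))) 
(.lf (nat_lit 22951) (.g (nat_lit 1890) (.e (nat_lit 1183) (nat_lit 87) (.e (nat_lit 57847) (nat_lit 252) (.e (nat_lit 57437) (nat_lit 17) (.e (nat_lit 376842) (nat_lit 11) (.e (nat_lit 426298) (nat_lit 11) .nil))))) .nil))) (.nd (nat_lit 5) 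
(.lf (nat_lit 22935) (.g (nat_lit 4745) (.e (nat_lit 1183) (nat_lit 87) (.e (nat_lit 57741) (nat_lit 187) (.e (nat_lit 1659) (nat_lit 115) (.e (nat_lit 393301) (nat_lit 27) (.e (nat_lit 491560) (nat_lit 10) (.e (nat_lit 344087) (nat_lit 18) (.e (nat_lit 7124) (nat_lit 382) .nil))))))) (.g (nat_lit 7) .nil .nil))) 
(.lf (nat_lit 22967) (.g (nat_lit 1878) (.e (nat_lit 1183) (nat_lit 87) (.e (nat_lit 57848) (nat_lit 252) (.e (nat_lit 57372) (nat_lit 2) (.e (nat_lit 90128) (nat_lit 9) (.e (nat_lit 297) (nat_lit 22) .nil))))) .nil)))) (.nd (nat_lit 4) (.nd (nat_lit 5) 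
(.lf (nat_lit 22927) (.g (nat_lit 2721) (.e (nat_lit 1183) (nat_lit 87) (.e (nat_lit 57741) (nat_lit 187) (.e (nat_lit 1658) (nat_lit 115) (.e (nat_lit 393301) (nat_lit 27) (.e (nat_lit 491558) (nat_lit 10) (.e (nat_lit 344090) (nat_lit 18) (.e (nat_lit 7125) (nat_lit 382) .nil))))))) (.g (nat_lit 5) .nil .nil))) 
(.lf (nat_lit 22959) (.g (nat_lit 1210) (.e (nat_lit 1183) (nat_lit 87) (.e (nat_lit 57847) (nat_lit 252) (.e (nat_lit 57437) (nat_lit 17) (.e (nat_lit 384768) (nat_lit 14) .nil)))) .nil))) (.nd (nat_lit 5) 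
(.lf (nat_lit 22943) (.g (nat_lit 1238) (.e (nat_lit 1183) (nat_lit 87) (.e (nat_lit 57847) (nat_lit 252) (.e (nat_lit 57410) (nat_lit 12) (.e (nat_lit 336211) (nat_lit 13) .nil)))) .nil)) 
(.lf (nat_lit 22975) (.g (nat_lit 3112) (.e (nat_lit 1183) (nat_lit 87) (.e (nat_lit 57848) (nat_lit 252) (.e (nat_lit 57372) (nat_lit 2) (.e (nat_lit 90160) (nat_lit 11) (.e (nat_lit 24608) (nat_lit 3) .nil))))) .nil))))))))

noncomputable def tv326 : DT := (.nd (nat_lit 0) (.nd (nat_lit 1) (.nd (nat_lit 2) (.nd (nat_lit 3) (.nd (nat_lit 4) (.nd (nat_lit 5) 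
(.lf (nat_lit 22976) (.g (nat_lit 3433) (.e (nat_lit 1183) (nat_lit 87) (.e (nat_lit 57848) (nat_lit 252) (.e (nat_lit 57372) (nat_lit 2) (.e (nat_lit 90160) (nat_lit 11) (.e (nat_lit 24608) (nat_lit 3) (.e (nat_lit 98341) (nat_lit 20) (.e (nat_lit 221210) (nat_lit 22) (.e (nat_lit 196626) (nat_lit 9) .nil)))))))) (.g (nat_lit 4) .nil .nil))) 
(.lf (nat_lit 23008) (.g (nat_lit 2213) (.e (nat_lit 1183) (nat_lit 87) (.e (nat_lit 57848) (nat_lit 252) (.e (nat_lit 57407) (nat_lit 12) (.e (nat_lit 336316) (nat_lit 17) (.e (nat_lit 196666) (nat_lit 13) (.e (nat_lit 65617) (nat_lit 10) (.e (nat_lit 344091) (nat_lit 18) (.e (nat_lit 7605) (nat_lit 410) (.e (nat_lit 999) (nat_lit 81) .nil))))))))) (.g (nat_lit 4) .nil .nil)))) (.nd (nat_lit 5) 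
(.lf (nat_lit 22992) (.g (nat_lit 3271) (.e (nat_lit 1183) (nat_lit 87) (.e (nat_lit 57848) (nat_lit 252) (.e (nat_lit 57375) (nat_lit 2) (.e (nat_lit 90160) (nat_lit 11) (.e (nat_lit 24608) (nat_lit 3) .nil))))) .nil)) 
(.lf (nat_lit 23024) (.g (nat_lit 4321) (.e (nat_lit 1183) (nat_lit 87) (.e (nat_lit 57848) (nat_lit 252) (.e (nat_lit 57407) (nat_lit 12) (.e (nat_lit 336456) (nat_lit 34) (.e (nat_lit 483383) (nat_lit 23) (.e (nat_lit 336316) (nat_lit 17) (.e (nat_lit 196630) (nat_lit 9) .nil))))))) (.g (nat_lit 0) .nil .nil))))) (.nd (nat_lit 4) (.nd (nat_lit 5) 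
(.lf (nat_lit 22984) (.g (nat_lit 2024) (.e (nat_lit 1183) (nat_lit 87) (.e (nat_lit 57848) (nat_lit 252) (.e (nat_lit 57375) (nat_lit 2) (.e (nat_lit 90121) (nat_lit 9) (.e (nat_lit 296) (nat_lit 22) .nil))))) .nil)) 
(.lf (nat_lit 23016) (.g (nat_lit 3804) (.e (nat_lit 1183) (nat_lit 87) (.e (nat_lit 57848) (nat_lit 252) (.e (nat_lit 57407) (nat_lit 12) (.e (nat_lit 336454) (nat_lit 34) (.e (nat_lit 483380) (nat_lit 23) (.e (nat_lit 336316) (nat_lit 17) (.e (nat_lit 196630) (nat_lit 9) .nil))))))) (.g (nat_lit 6) .nil .nil)))) (.nd (nat_lit 5) 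
(.lf (nat_lit 23000) (.g (nat_lit 2814) (.e (nat_lit 1183) (nat_lit 87) (.e (nat_lit 57848) (nat_lit 252) (.e (nat_lit 57375) (nat_lit 2) (.e (nat_lit 90181) (nat_lit 16) (.e (nat_lit 237312) (nat_lit 48) .nil))))) .nil)) 
(.lf (nat_lit 23032) (.g (nat_lit 2712) (.e (nat_lit 1183) (nat_lit 87) (.e (nat_lit 57848) (nat_lit 252) (.e (nat_lit 57432) (nat_lit 16) (.e (nat_lit 368676) (nat_lit 21) (.e (nat_lit 516174) (nat_lit 14) (.e (nat_lit 466967) (nat_lit 20) (.e (nat_lit 3266) (nat_lit 199) (.e (nat_lit 548874) (nat_lit 5) .nil)))))))) (.g (nat_lit 5) .nil .nil)))))) 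
(.nd (nat_lit 3) (.nd (nat_lit 4) (.nd (nat_lit 5) 
(.lf (nat_lit 22980) (.g (nat_lit 1651) (.e (nat_lit 1183) (nat_lit 87) (.e (nat_lit 57848) (nat_lit 252) (.e (nat_lit 57374) (nat_lit 2) (.e (nat_lit 90121) (nat_lit 9) .nil)))) .nil)) 
(.lf (nat_lit 23012) (.g (nat_lit 3209) (.e (nat_lit 1183) (nat_lit 87) (.e (nat_lit 57848) (nat_lit 252) (.e (nat_lit 57407) (nat_lit 12) (.e (nat_lit 336326) (nat_lit 18) (.e (nat_lit 204869) (nat_lit 29) (.e (nat_lit 360493) (nat_lit 27) (.e (nat_lit 819227) (nat_lit 9) .nil))))))) (.g (nat_lit 6) .nil .nil)))) (.nd (nat_lit 5) 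
(.lf (nat_lit 22996) (.g (nat_lit 2435) (.e (nat_lit 1183) (nat_lit 87) (.e (nat_lit 57848) (nat_lit 252) (.e (nat_lit 57375) (nat_lit 2) (.e (nat_lit 90165) (nat_lit 12) .nil)))) .nil)) 
(.lf (nat_lit 23028) (.g (nat_lit 2266) (.e (nat_lit 1183) (nat_lit 87) (.e (nat_lit 57848) (nat_lit 252) (.e (nat_lit 57408) (nat_lit 12) (.e (nat_lit 336454) (nat_lit 34) (.e (nat_lit 483383) (nat_lit 23) (.e (nat_lit 336316) (nat_lit 17) (.e (nat_lit 196626) (nat_lit 9) .nil))))))) (.g (nat_lit 5) .nil .nil))))) (.nd (nat_lit 4) (.nd (nat_lit 5) 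
(.lf (nat_lit 22988) (.g (nat_lit 3124) (.e (nat_lit 1183) (nat_lit 87) (.e (nat_lit 57848) (nat_lit 252) (.e (nat_lit 57375) (nat_lit 2) (.e (nat_lit 90128) (nat_lit 9) (.e (nat_lit 307) (nat_lit 22) (.e (nat_lit 344117) (nat_lit 21) (.e (nat_lit 516130) (nat_lit 3) (.e (nat_lit 221212) (nat_lit 22) (.e (nat_lit 196626) (nat_lit 9) .nil))))))))) (.g (nat_lit 4) .nil .nil))) 
(.lf (nat_lit 23020) (.g (nat_lit 3997) (.e (nat_lit 1183) (nat_lit 87) (.e (nat_lit 57848) (nat_lit 252) (.e (nat_lit 57407) (nat_lit 12) (.e (nat_lit 336455) (nat_lit 34) (.e (nat_lit 483380) (nat_lit 23) (.e (nat_lit 336316) (nat_lit 17) (.e (nat_lit 196626) (nat_lit 9) .nil))))))) (.g (nat_lit 6) .nil .nil)))) (.nd (nat_lit 5) 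
(.lf (nat_lit 23004) (.g (nat_lit 4463) (.e (nat_lit 1183) (nat_lit 87) (.e (nat_lit 57848) (nat_lit 252) (.e (nat_lit 57377) (nat_lit 3) (.e (nat_lit 98317) (nat_lit 9) (.e (nat_lit 336027) (nat_lit 3) (.e (nat_lit 98341) (nat_lit 20) (.e (nat_lit 221212) (nat_lit 22) (.e (nat_lit 196626) (nat_lit 9) .nil)))))))) (.g (nat_lit 4) .nil .nil))) 
(.lf (nat_lit 23036) (.g (nat_lit 1710) (.e (nat_lit 1183) (nat_lit 87) (.e (nat_lit 57848) (nat_lit 252) (.e (nat_lit 57435) (nat_lit 17) (.e (nat_lit 376842) (nat_lit 11) (.e (nat_lit 426298) (nat_lit 11) (.e (nat_lit 458804) (nat_lit 38) (.e (nat_lit 655384) (nat_lit 9) .nil))))))) (.g (nat_lit 4) .nil .nil))))))) (.nd (nat_lit 2) (.nd (nat_lit 3) (.nd (nat_lit 4) (.nd (nat_lit 5) 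
(.lf (nat_lit 22978) (.g (nat_lit 4683) (.e (nat_lit 1183) (nat_lit 87) (.e (nat_lit 57848) (nat_lit 252) (.e (nat_lit 57372) (nat_lit 2) (.e (nat_lit 90160) (nat_lit 11) (.e (nat_lit 24608) (nat_lit 3) (.e (nat_lit 98342) (nat_lit 20) (.e (nat_lit 221212) (nat_lit 22) (.e (nat_lit 196626) (nat_lit 9) .nil)))))))) (.g (nat_lit 5) .nil .nil))) 
(.lf (nat_lit 23010) (.g (nat_lit 1998) (.e (nat_lit 1183) (nat_lit 87) (.e (nat_lit 57848) (nat_lit 252) (.e (nat_lit 57407) (nat_lit 12) (.e (nat_lit 336316) (nat_lit 17) (.e (nat_lit 196666) (nat_lit 13) (.e (nat_lit 65617) (nat_lit 10) (.e (nat_lit 344183) (nat_lit 49) (.e (nat_lit 819228) (nat_lit 9) .nil)))))))) (.g (nat_lit 4) .nil .nil)))) (.nd (nat_lit 5) 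
(.lf (nat_lit 22994) (.g (nat_lit 3497) (.e (nat_lit 1183) (nat_lit 87) (.e (nat_lit 57848) (nat_lit 252) (.e (nat_lit 57375) (nat_lit 2) (.e (nat_lit 90160) (nat_lit 11) (.e (nat_lit 24608) (nat_lit 3) (.e (nat_lit 98341) (nat_lit 20) (.e (nat_lit 221212) (nat_lit 22) (.e (nat_lit 196626) (nat_lit 9) .nil)))))))) (.g (nat_lit 4) .nil .nil))) 
(.lf (nat_lit 23026) (.g (nat_lit 2145) (.e (nat_lit 1183) (nat_lit 87) (.e (nat_lit 57848) (nat_lit 252) (.e (nat_lit 57407) (nat_lit 12) (.e (nat_lit 336456) (nat_lit 34) (.e (nat_lit 483391) (nat_lit 23) (.e (nat_lit 336317) (nat_lit 17) (.e (nat_lit 196630) (nat_lit 9) .nil))))))) (.g (nat_lit 5) .nil .nil))))) (.nd (nat_lit 4) (.nd (nat_lit 5) 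
(.lf (nat_lit 22986) (.g (nat_lit 2038) (.e (nat_lit 1183) (nat_lit 87) (.e (nat_lit 57848) (nat_lit 252) (.e (nat_lit 57375) (nat_lit 2) (.e (nat_lit 90128) (nat_lit 9) (.e (nat_lit 297) (nat_lit 22) .nil))))) .nil)) 
(.lf (nat_lit 23018) (.g (nat_lit 3839) (.e (nat_lit 1183) (nat_lit 87) (.e (nat_lit 57848) (nat_lit 252) (.e (nat_lit 57407) (nat_lit 12) (.e (nat_lit 336454) (nat_lit 34) (.e (nat_lit 483383) (nat_lit 23) (.e (nat_lit 336316) (nat_lit 17) (.e (nat_lit 196630) (nat_lit 9) .nil))))))) (.g (nat_lit 6) .nil .nil)))) (.nd (nat_lit 5) 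
(.lf (nat_lit 23002) (.g (nat_lit 3716) (.e (nat_lit 1183) (nat_lit 87) (.e (nat_lit 57848) (nat_lit 252) (.e (nat_lit 57377) (nat_lit 3) (.e (nat_lit 98317) (nat_lit 9) (.e (nat_lit 335899) (nat_lit 0) .nil))))) .nil)) 
(.lf (nat_lit 23034) (.g (nat_lit 875) (.e (nat_lit 1183) (nat_lit 87) (.e (nat_lit 57848) (nat_lit 252) (.e (nat_lit 57435) (nat_lit 17) (.e (nat_lit 376842) (nat_lit 11) .nil)))) .nil))))) (.nd (nat_lit 3) (.nd (nat_lit 4) (.nd (nat_lit 5) 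
(.lf (nat_lit 22982) (.g (nat_lit 1223) (.e (nat_lit 1183) (nat_lit 87) (.e (nat_lit 57848) (nat_lit 252) (.e (nat_lit 57374) (nat_lit 2) (.e (nat_lit 90165) (nat_lit 12) .nil)))) .nil)) 
(.lf (nat_lit 23014) (.g (nat_lit 955) (.e (nat_lit 1183) (nat_lit 87) (.e (nat_lit 57848) (nat_lit 252) (.e (nat_lit 57407) (nat_lit 12) (.e (nat_lit 336454) (nat_lit 34) .nil)))) .nil))) (.nd (nat_lit 5) 
(.lf (nat_lit 22998) (.g (nat_lit 3185) (.e (nat_lit 1183) (nat_lit 87) (.e (nat_lit 57848) (nat_lit 252) (.e (nat_lit 57375) (nat_lit 2) (.e (nat_lit 90165) (nat_lit 12) (.e (nat_lit 171776) (nat_lit 48) (.e (nat_lit 720945) (nat_lit 23) (.e (nat_lit 98366) (nat_lit 27) (.e (nat_lit 434244) (nat_lit 28) (.e (nat_lit 573449) (nat_lit 9) .nil))))))))) (.g (nat_lit 4) .nil .nil))) 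
(.lf (nat_lit 23030) (.g (nat_lit 1973) (.e (nat_lit 1183) (nat_lit 87) (.e (nat_lit 57848) (nat_lit 252) (.e (nat_lit 57411) (nat_lit 12) (.e (nat_lit 336211) (nat_lit 13) (.e (nat_lit 393291) (nat_lit 26) .nil))))) .nil)))) (.nd (nat_lit 4) (.nd (nat_lit 5) 
(.lf (nat_lit 22990) (.g (nat_lit 1334) (.e (nat_lit 1183) (nat_lit 87) (.e (nat_lit 57848) (nat_lit 252) (.e (nat_lit 57375) (nat_lit 2) (.e (nat_lit 90159) (nat_lit 11) (.e (nat_lit 24592) (nat_lit 0) (.e (nat_lit 1802) (nat_lit 119) (.e (nat_lit 516131) (nat_lit 3) (.e (nat_lit 221212) (nat_lit 22) (.e (nat_lit 196626) (nat_lit 9) .nil))))))))) (.g (nat_lit 4) .nil .nil))) 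
(.lf (nat_lit 23022) (.g (nat_lit 1787) (.e (nat_lit 1183) (nat_lit 87) (.e (nat_lit 57848) (nat_lit 252) (.e (nat_lit 57407) (nat_lit 12) (.e (nat_lit 336456) (nat_lit 34) (.e (nat_lit 483379) (nat_lit 23) (.e (nat_lit 336318) (nat_lit 17) (.e (nat_lit 196626) (nat_lit 9) .nil))))))) (.g (nat_lit 4) .nil .nil)))) (.nd (nat_lit 5) 
(.lf (nat_lit 23006) (.g (nat_lit 1975) (.e (nat_lit 1183) (nat_lit 87) (.e (nat_lit 57848) (nat_lit 252) (.e (nat_lit 57379) (nat_lit 3) (.e (nat_lit 98313) (nat_lit 9) (.e (nat_lit 336027) (nat_lit 3) (.e (nat_lit 98342) (nat_lit 20) (.e (nat_lit 221212) (nat_lit 22) (.e (nat_lit 196626) (nat_lit 9) .nil)))))))) (.g (nat_lit 4) .nil .nil))) 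
(.lf (nat_lit 23038) (.g (nat_lit 2357) (.e (nat_lit 1183) (nat_lit 87) (.e (nat_lit 57848) (nat_lit 252) (.e (nat_lit 57435) (nat_lit 17) (.e (nat_lit 376842) (nat_lit 11) (.e (nat_lit 426306) (nat_lit 12) (.e (nat_lit 475201) (nat_lit 40) (.e (nat_lit 704620) (nat_lit 9) .nil))))))) (.g (nat_lit 4) .nil .nil)))))))) 
(.nd (nat_lit 1) (.nd (nat_lit 2) (.nd (nat_lit 3) (.nd (nat_lit 4) (.nd (nat_lit 5) 
(.lf (nat_lit 22977) (.g (nat_lit 3599) (.e (nat_lit 1183) (nat_lit 87) (.e (nat_lit 57848) (nat_lit 252) (.e (nat_lit 57372) (nat_lit 2) (.e (nat_lit 90160) (nat_lit 11) (.e (nat_lit 24608) (nat_lit 3) (.e (nat_lit 98341) (nat_lit 20) (.e (nat_lit 221212) (nat_lit 22) (.e (nat_lit 196626) (nat_lit 9) .nil)))))))) (.g (nat_lit 4) .nil .nil))) 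
(.lf (nat_lit 23009) (.g (nat_lit 3258) (.e (nat_lit 1183) (nat_lit 87) (.e (nat_lit 57848) (nat_lit 252) (.e (nat_lit 57407) (nat_lit 12) (.e (nat_lit 336316) (nat_lit 17) (.e (nat_lit 196666) (nat_lit 13) (.e (nat_lit 65617) (nat_lit 10) (.e (nat_lit 344091) (nat_lit 18) (.e (nat_lit 7609) (nat_lit 410) (.e (nat_lit 999) (nat_lit 81) .nil))))))))) (.g (nat_lit 5) .nil .nil)))) (.nd (nat_lit 5) 
(.lf (nat_lit 22993) (.g (nat_lit 3331) (.e (nat_lit 1183) (nat_lit 87) (.e (nat_lit 57848) (nat_lit 252) (.e (nat_lit 57375) (nat_lit 2) (.e (nat_lit 90160) (nat_lit 11) (.e (nat_lit 24608) (nat_lit 3) (.e (nat_lit 98341) (nat_lit 20) (.e (nat_lit 221210) (nat_lit 22) (.e (nat_lit 196626) (nat_lit 9) .nil)))))))) (.g (nat_lit 4) .nil .nil))) 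
(.lf (nat_lit 23025) (.g (nat_lit 1695) (.e (nat_lit 1183) (nat_lit 87) (.e (nat_lit 57848) (nat_lit 252) (.e (nat_lit 57407) (nat_lit 12) (.e (nat_lit 336456) (nat_lit 34) (.e (nat_lit 483391) (nat_lit 23) (.e (nat_lit 336317) (nat_lit 17) (.e (nat_lit 196626) (nat_lit 9) .nil))))))) (.g (nat_lit 4) .nil .nil))))) (.nd (nat_lit 4) (.nd (nat_lit 5) 
(.lf (nat_lit 22985) (.g (nat_lit 1407) (.e (nat_lit 1183) (nat_lit 87) (.e (nat_lit 57848) (nat_lit 252) (.e (nat_lit 57375) (nat_lit 2) (.e (nat_lit 90128) (nat_lit 9) .nil)))) .nil)) 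
(.lf (nat_lit 23017) (.g (nat_lit 3652) (.e (nat_lit 1183) (nat_lit 87) (.e (nat_lit 57848) (nat_lit 252) (.e (nat_lit 57407) (nat_lit 12) (.e (nat_lit 336454) (nat_lit 34) (.e (nat_lit 483383) (nat_lit 23) (.e (nat_lit 336316) (nat_lit 17) (.e (nat_lit 196626) (nat_lit 9) .nil))))))) (.g (nat_lit 6) .nil .nil)))) (.nd (nat_lit 5) 
(.lf (nat_lit 23001) (.g (nat_lit 3263) (.e (nat_lit 1183) (nat_lit 87) (.e (nat_lit 57848) (nat_lit 252) (.e (nat_lit 57375) (nat_lit 2) (.e (nat_lit 90181) (nat_lit 16) (.e (nat_lit 237312) (nat_lit 48) (.e (nat_lit 720941) (nat_lit 22) (.e (nat_lit 90172) (nat_lit 14) (.e (nat_lit 180250) (nat_lit 10) (.e (nat_lit 573449) (nat_lit 9) .nil))))))))) (.g (nat_lit 4) .nil .nil))) 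
(.lf (nat_lit 23033) (.g (nat_lit 4101) (.e (nat_lit 1183) (nat_lit 87) (.e (nat_lit 57848) (nat_lit 252) (.e (nat_lit 57432) (nat_lit 16) (.e (nat_lit 368676) (nat_lit 21) (.e (nat_lit 516176) (nat_lit 14) (.e (nat_lit 466967) (nat_lit 20) (.e (nat_lit 3266) (nat_lit 199) (.e (nat_lit 548874) (nat_lit 5) .nil)))))))) (.g (nat_lit 8) .nil .nil)))))) 
(.nd (nat_lit 3) (.nd (nat_lit 4) (.nd (nat_lit 5) 
(.lf (nat_lit 22981) (.g (nat_lit 2049) (.e (nat_lit 1183) (nat_lit 87) (.e (nat_lit 57848) (nat_lit 252) (.e (nat_lit 57374) (nat_lit 2) (.e (nat_lit 90133) (nat_lit 9) (.e (nat_lit 296) (nat_lit 22) .nil))))) .nil)) 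
(.lf (nat_lit 23013) (.g (nat_lit 3576) (.e (nat_lit 1183) (nat_lit 87) (.e (nat_lit 57848) (nat_lit 252) (.e (nat_lit 57407) (nat_lit 12) (.e (nat_lit 336326) (nat_lit 18) (.e (nat_lit 204869) (nat_lit 29) (.e (nat_lit 360493) (nat_lit 27) (.e (nat_lit 819228) (nat_lit 9) .nil))))))) (.g (nat_lit 0) .nil .nil)))) (.nd (nat_lit 5) 
(.lf (nat_lit 22997) (.g (nat_lit 3220) (.e (nat_lit 1183) (nat_lit 87) (.e (nat_lit 57848) (nat_lit 252) (.e (nat_lit 57375) (nat_lit 2) (.e (nat_lit 90165) (nat_lit 12) (.e (nat_lit 171776) (nat_lit 48) (.e (nat_lit 720941) (nat_lit 22) (.e (nat_lit 90172) (nat_lit 14) (.e (nat_lit 180250) (nat_lit 10) (.e (nat_lit 573453) (nat_lit 9) .nil))))))))) (.g (nat_lit 4) .nil .nil))) 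
(.lf (nat_lit 23029) (.g (nat_lit 1440) (.e (nat_lit 1183) (nat_lit 87) (.e (nat_lit 57848) (nat_lit 252) (.e (nat_lit 57411) (nat_lit 12) (.e (nat_lit 336211) (nat_lit 13) .nil)))) .nil)))) (.nd (nat_lit 4) (.nd (nat_lit 5) 
(.lf (nat_lit 22989) (.g (nat_lit 2632) (.e (nat_lit 1183) (nat_lit 87) (.e (nat_lit 57848) (nat_lit 252) (.e (nat_lit 57375) (nat_lit 2) (.e (nat_lit 90133) (nat_lit 9) (.e (nat_lit 296) (nat_lit 22) .nil))))) .nil)) 
(.lf (nat_lit 23021) (.g (nat_lit 4106) (.e (nat_lit 1183) (nat_lit 87) (.e (nat_lit 57848) (nat_lit 252) (.e (nat_lit 57407) (nat_lit 12) (.e (nat_lit 336455) (nat_lit 34) (.e (nat_lit 483380) (nat_lit 23) (.e (nat_lit 336316) (nat_lit 17) (.e (nat_lit 196630) (nat_lit 9) .nil))))))) (.g (nat_lit 6) .nil .nil)))) (.nd (nat_lit 5) 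
(.lf (nat_lit 23005) (.g (nat_lit 4980) (.e (nat_lit 1183) (nat_lit 87) (.e (nat_lit 57848) (nat_lit 252) (.e (nat_lit 57377) (nat_lit 3) (.e (nat_lit 98317) (nat_lit 9) (.e (nat_lit 336027) (nat_lit 3) (.e (nat_lit 98342) (nat_lit 20) (.e (nat_lit 221212) (nat_lit 22) (.e (nat_lit 196626) (nat_lit 9) .nil)))))))) (.g (nat_lit 5) .nil .nil))) 
(.lf (nat_lit 23037) (.g (nat_lit 2103) (.e (nat_lit 1183) (nat_lit 87) (.e (nat_lit 57848) (nat_lit 252) (.e (nat_lit 57435) (nat_lit 17) (.e (nat_lit 376842) (nat_lit 11) (.e (nat_lit 426298) (nat_lit 11) (.e (nat_lit 458804) (nat_lit 38) (.e (nat_lit 655386) (nat_lit 9) .nil))))))) (.g (nat_lit 4) .nil .nil))))))) (.nd (nat_lit 2) (.nd (nat_lit 3) (.nd (nat_lit 4) (.nd (nat_lit 5) 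
(.lf (nat_lit 22979) (.g (nat_lit 3568) (.e (nat_lit 1183) (nat_lit 87) (.e (nat_lit 57848) (nat_lit 252) (.e (nat_lit 57372) (nat_lit 2) (.e (nat_lit 90160) (nat_lit 11) (.e (nat_lit 24609) (nat_lit 3) .nil))))) .nil)) 
(.lf (nat_lit 23011) (.g (nat_lit 1712) (.e (nat_lit 1183) (nat_lit 87) (.e (nat_lit 57848) (nat_lit 252) (.e (nat_lit 57407) (nat_lit 12) (.e (nat_lit 336326) (nat_lit 18) (.e (nat_lit 204868) (nat_lit 29) (.e (nat_lit 360493) (nat_lit 27) (.e (nat_lit 819228) (nat_lit 9) .nil))))))) (.g (nat_lit 4) .nil .nil)))) (.nd (nat_lit 5) 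
(.lf (nat_lit 22995) (.g (nat_lit 4582) (.e (nat_lit 1183) (nat_lit 87) (.e (nat_lit 57848) (nat_lit 252) (.e (nat_lit 57375) (nat_lit 2) (.e (nat_lit 90160) (nat_lit 11) (.e (nat_lit 24608) (nat_lit 3) (.e (nat_lit 98342) (nat_lit 20) (.e (nat_lit 221212) (nat_lit 22) (.e (nat_lit 196626) (nat_lit 9) .nil)))))))) (.g (nat_lit 5) .nil .nil))) 
(.lf (nat_lit 23027) (.g (nat_lit 2786) (.e (nat_lit 1183) (nat_lit 87) (.e (nat_lit 57848) (nat_lit 252) (.e (nat_lit 57408) (nat_lit 12) (.e (nat_lit 336454) (nat_lit 34) (.e (nat_lit 483380) (nat_lit 23) (.e (nat_lit 336316) (nat_lit 17) (.e (nat_lit 196626) (nat_lit 9) .nil))))))) (.g (nat_lit 6) .nil .nil))))) (.nd (nat_lit 4) (.nd (nat_lit 5) 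
(.lf (nat_lit 22987) (.g (nat_lit 2620) (.e (nat_lit 1183) (nat_lit 87) (.e (nat_lit 57848) (nat_lit 252) (.e (nat_lit 57375) (nat_lit 2) (.e (nat_lit 90128) (nat_lit 9) (.e (nat_lit 304) (nat_lit 22) .nil))))) .nil)) 
(.lf (nat_lit 23019) (.g (nat_lit 1984) (.e (nat_lit 1183) (nat_lit 87) (.e (nat_lit 57848) (nat_lit 252) (.e (nat_lit 57407) (nat_lit 12) (.e (nat_lit 336454) (nat_lit 34) (.e (nat_lit 483408) (nat_lit 26) .nil))))) .nil))) (.nd (nat_lit 5) 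
(.lf (nat_lit 23003) (.g (nat_lit 3273) (.e (nat_lit 1183) (nat_lit 87) (.e (nat_lit 57848) (nat_lit 252) (.e (nat_lit 57377) (nat_lit 3) (.e (nat_lit 98317) (nat_lit 9) (.e (nat_lit 336021) (nat_lit 3) (.e (nat_lit 98342) (nat_lit 20) (.e (nat_lit 221212) (nat_lit 22) (.e (nat_lit 196626) (nat_lit 9) .nil)))))))) (.g (nat_lit 5) .nil .nil))) 
(.lf (nat_lit 23035) (.g (nat_lit 1518) (.e (nat_lit 1183) (nat_lit 87) (.e (nat_lit 57848) (nat_lit 252) (.e (nat_lit 57435) (nat_lit 17) (.e (nat_lit 376842) (nat_lit 11) (.e (nat_lit 426298) (nat_lit 11) .nil))))) .nil))))) (.nd (nat_lit 3) (.nd (nat_lit 4) (.nd (nat_lit 5) 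
(.lf (nat_lit 22983) (.g (nat_lit 2774) (.e (nat_lit 1183) (nat_lit 87) (.e (nat_lit 57848) (nat_lit 252) (.e (nat_lit 57374) (nat_lit 2) (.e (nat_lit 90165) (nat_lit 12) (.e (nat_lit 171776) (nat_lit 48) (.e (nat_lit 720941) (nat_lit 22) (.e (nat_lit 90172) (nat_lit 14) (.e (nat_lit 180249) (nat_lit 10) (.e (nat_lit 573453) (nat_lit 9) .nil))))))))) (.g (nat_lit 7) .nil .nil))) 
(.lf (nat_lit 23015) (.g (nat_lit 3714) (.e (nat_lit 1183) (nat_lit 87) (.e (nat_lit 57848) (nat_lit 252) (.e (nat_lit 57407) (nat_lit 12) (.e (nat_lit 336454) (nat_lit 34) (.e (nat_lit 483380) (nat_lit 23) (.e (nat_lit 336316) (nat_lit 17) (.e (nat_lit 196626) (nat_lit 9) .nil))))))) (.g (nat_lit 6) .nil .nil)))) (.nd (nat_lit 5) 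
(.lf (nat_lit 22999) (.g (nat_lit 2451) (.e (nat_lit 1183) (nat_lit 87) (.e (nat_lit 57848) (nat_lit 252) (.e (nat_lit 57375) (nat_lit 2) (.e (nat_lit 90181) (nat_lit 16) .nil)))) .nil)) 
(.lf (nat_lit 23031) (.g (nat_lit 2237) (.e (nat_lit 1183) (nat_lit 87) (.e (nat_lit 57848) (nat_lit 252) (.e (nat_lit 57430) (nat_lit 16) (.e (nat_lit 368676) (nat_lit 21) (.e (nat_lit 516174) (nat_lit 14) (.e (nat_lit 466967) (nat_lit 20) (.e (nat_lit 3266) (nat_lit 199) (.e (nat_lit 548874) (nat_lit 5) .nil)))))))) (.g (nat_lit 5) .nil .nil))))) (.nd (nat_lit 4) (.nd (nat_lit 5) 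
(.lf (nat_lit 22991) (.g (nat_lit 1402) (.e (nat_lit 1183) (nat_lit 87) (.e (nat_lit 57848) (nat_lit 252) (.e (nat_lit 57375) (nat_lit 2) (.e (nat_lit 90160) (nat_lit 11) .nil)))) .nil)) 
(.lf (nat_lit 23023) (.g (nat_lit 4296) (.e (nat_lit 1183) (nat_lit 87) (.e (nat_lit 57848) (nat_lit 252) (.e (nat_lit 57407) (nat_lit 12) (.e (nat_lit 336456) (nat_lit 34) (.e (nat_lit 483380) (nat_lit 23) (.e (nat_lit 336316) (nat_lit 17) (.e (nat_lit 196630) (nat_lit 9) .nil))))))) (.g (nat_lit 0) .nil .nil)))) (.nd (nat_lit 5) 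
(.lf (nat_lit 23007) (.g (nat_lit 2604) (.e (nat_lit 1183) (nat_lit 87) (.e (nat_lit 57848) (nat_lit 252) (.e (nat_lit 57407) (nat_lit 12) (.e (nat_lit 336316) (nat_lit 17) (.e (nat_lit 196666) (nat_lit 13) (.e (nat_lit 65586) (nat_lit 7) (.e (nat_lit 319521) (nat_lit 13) (.e (nat_lit 49167) (nat_lit 9) .nil)))))))) (.g (nat_lit 4) .nil .nil))) 
(.lf (nat_lit 23039) (.g (nat_lit 1769) (.e (nat_lit 1183) (nat_lit 87) (.e (nat_lit 57848) (nat_lit 252) (.e (nat_lit 57435) (nat_lit 17) (.e (nat_lit 376842) (nat_lit 11) (.e (nat_lit 426306) (nat_lit 12) (.e (nat_lit 475201) (nat_lit 40) (.e (nat_lit 704634) (nat_lit 9) .nil))))))) (.g (nat_lit 4) .nil .nil)))))))))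

noncomputable def tv327 : DT := (.nd (nat_lit 0) (.nd (nat_lit 1) (.nd (nat_lit 2) (.nd (nat_lit 3) (.nd (nat_lit 4) (.nd (nat_lit 5) 
(.lf (nat_lit 23040) (.g (nat_lit 1966) (.e (nat_lit 1183) (nat_lit 87) (.e (nat_lit 57848) (nat_lit 252) (.e (nat_lit 57435) (nat_lit 17) (.e (nat_lit 376842) (nat_lit 11) (.e (nat_lit 426306) (nat_lit 12) (.e (nat_lit 475201) (nat_lit 40) (.e (nat_lit 704638) (nat_lit 9) .nil))))))) (.g (nat_lit 4) .nil .nil))) 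
(.lf (nat_lit 23072) (.g (nat_lit 3740) (.e (nat_lit 1183) (nat_lit 87) (.e (nat_lit 57849) (nat_lit 252) (.e (nat_lit 57375) (nat_lit 2) (.e (nat_lit 90160) (nat_lit 11) (.e (nat_lit 24608) (nat_lit 3) (.e (nat_lit 98342) (nat_lit 20) (.e (nat_lit 221212) (nat_lit 22) (.e (nat_lit 196626) (nat_lit 9) .nil)))))))) (.g (nat_lit 4) .nil .nil)))) (.nd (nat_lit 5) 
(.lf (nat_lit 23056) (.g (nat_lit 3075) (.e (nat_lit 1183) (nat_lit 87) (.e (nat_lit 57848) (nat_lit 252) (.e (nat_lit 57445) (nat_lit 19) (.e (nat_lit 393229) (nat_lit 9) (.e (nat_lit 336088) (nat_lit 9) (.e (nat_lit 336316) (nat_lit 17) (.e (nat_lit 196626) (nat_lit 9) .nil))))))) (.g (nat_lit 6) .nil .nil))) 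
(.lf (nat_lit 23088) (.g (nat_lit 2113) (.e (nat_lit 1183) (nat_lit 87) (.e (nat_lit 57849) (nat_lit 252) (.e (nat_lit 57379) (nat_lit 3) (.e (nat_lit 98317) (nat_lit 9) (.e (nat_lit 336027) (nat_lit 3) (.e (nat_lit 98342) (nat_lit 20) (.e (nat_lit 221212) (nat_lit 22) (.e (nat_lit 196626) (nat_lit 9) .nil)))))))) (.g (nat_lit 4) .nil .nil))))) (.nd (nat_lit 4) (.nd (nat_lit 5) 
(.lf (nat_lit 23048) (.g (nat_lit 1918) (.e (nat_lit 1183) (nat_lit 87) (.e (nat_lit 57848) (nat_lit 252) (.e (nat_lit 57437) (nat_lit 17) (.e (nat_lit 376842) (nat_lit 11) (.e (nat_lit 426306) (nat_lit 12) (.e (nat_lit 475201) (nat_lit 40) (.e (nat_lit 704638) (nat_lit 9) .nil))))))) (.g (nat_lit 4) .nil .nil))) 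
(.lf (nat_lit 23080) (.g (nat_lit 5369) (.e (nat_lit 1183) (nat_lit 87) (.e (nat_lit 57849) (nat_lit 252) (.e (nat_lit 57377) (nat_lit 3) (.e (nat_lit 98317) (nat_lit 9) (.e (nat_lit 335934) (nat_lit 0) .nil))))) .nil))) (.nd (nat_lit 5) 
(.lf (nat_lit 23064) (.g (nat_lit 3593) (.e (nat_lit 1183) (nat_lit 87) (.e (nat_lit 57849) (nat_lit 252) (.e (nat_lit 57372) (nat_lit 2) (.e (nat_lit 90160) (nat_lit 11) (.e (nat_lit 24607) (nat_lit 3) (.e (nat_lit 98342) (nat_lit 20) (.e (nat_lit 221212) (nat_lit 22) (.e (nat_lit 196626) (nat_lit 9) .nil)))))))) (.g (nat_lit 4) .nil .nil))) 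
(.lf (nat_lit 23096) (.g (nat_lit 2262) (.e (nat_lit 1183) (nat_lit 87) (.e (nat_lit 57849) (nat_lit 252) (.e (nat_lit 57435) (nat_lit 17) (.e (nat_lit 376842) (nat_lit 11) (.e (nat_lit 426298) (nat_lit 11) .nil))))) .nil))))) (.nd (nat_lit 3) (.nd (nat_lit 4) (.nd (nat_lit 5) 
(.lf (nat_lit 23044) (.g (nat_lit 966) (.e (nat_lit 1183) (nat_lit 87) (.e (nat_lit 57848) (nat_lit 252) (.e (nat_lit 57437) (nat_lit 17) (.e (nat_lit 376842) (nat_lit 11) .nil)))) .nil)) 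
(.lf (nat_lit 23076) (.g (nat_lit 5354) (.e (nat_lit 1183) (nat_lit 87) (.e (nat_lit 57849) (nat_lit 252) (.e (nat_lit 57377) (nat_lit 3) (.e (nat_lit 98317) (nat_lit 9) (.e (nat_lit 335892) (nat_lit 0) .nil))))) .nil))) (.nd (nat_lit 5) 
(.lf (nat_lit 23060) (.g (nat_lit 1706) (.e (nat_lit 1183) (nat_lit 87) (.e (nat_lit 57849) (nat_lit 252) (.e (nat_lit 57372) (nat_lit 2) (.e (nat_lit 90128) (nat_lit 9) .nil)))) .nil)) 
(.lf (nat_lit 23092) (.g (nat_lit 1132) (.e (nat_lit 1183) (nat_lit 87) (.e (nat_lit 57849) (nat_lit 252) (.e (nat_lit 57410) (nat_lit 12) (.e (nat_lit 336211) (nat_lit 13) .nil)))) .nil)))) (.nd (nat_lit 4) (.nd (nat_lit 5) 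
(.lf (nat_lit 23052) (.g (nat_lit 1946) (.e (nat_lit 1183) (nat_lit 87) (.e (nat_lit 57848) (nat_lit 252) (.e (nat_lit 57445) (nat_lit 19) (.e (nat_lit 393225) (nat_lit 9) (.e (nat_lit 336088) (nat_lit 9) .nil))))) .nil)) 
(.lf (nat_lit 23084) (.g (nat_lit 1871) (.e (nat_lit 1183) (nat_lit 87) (.e (nat_lit 57849) (nat_lit 252) (.e (nat_lit 57377) (nat_lit 3) (.e (nat_lit 106240) (nat_lit 10) .nil)))) .nil))) (.nd (nat_lit 5) 
(.lf (nat_lit 23068) (.g (nat_lit 1904) (.e (nat_lit 1183) (nat_lit 87) (.e (nat_lit 57849) (nat_lit 252) (.e (nat_lit 57375) (nat_lit 2) (.e (nat_lit 90158) (nat_lit 11) (.e (nat_lit 24608) (nat_lit 3) .nil))))) .nil)) 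
(.lf (nat_lit 23100) (.g (nat_lit 1754) (.e (nat_lit 1183) (nat_lit 87) (.e (nat_lit 57849) (nat_lit 252) (.e (nat_lit 57437) (nat_lit 17) (.e (nat_lit 376842) (nat_lit 11) .nil)))) .nil)))))) (.nd (nat_lit 2) (.nd (nat_lit 3) (.nd (nat_lit 4) (.nd (nat_lit 5) 
(.lf (nat_lit 23042) (.g (nat_lit 1705) (.e (nat_lit 1183) (nat_lit 87) (.e (nat_lit 57848) (nat_lit 252) (.e (nat_lit 57435) (nat_lit 17) (.e (nat_lit 376842) (nat_lit 11) (.e (nat_lit 426315) (nat_lit 12) .nil))))) .nil)) 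
(.lf (nat_lit 23074) (.g (nat_lit 3038) (.e (nat_lit 1183) (nat_lit 87) (.e (nat_lit 57849) (nat_lit 252) (.e (nat_lit 57377) (nat_lit 3) (.e (nat_lit 98313) (nat_lit 9) (.e (nat_lit 336027) (nat_lit 3) (.e (nat_lit 98341) (nat_lit 20) (.e (nat_lit 221212) (nat_lit 22) (.e (nat_lit 196626) (nat_lit 9) .nil)))))))) (.g (nat_lit 5) .nil .nil)))) (.nd (nat_lit 5) 
(.lf (nat_lit 23058) (.g (nat_lit 2516) (.e (nat_lit 1183) (nat_lit 87) (.e (nat_lit 57848) (nat_lit 252) (.e (nat_lit 57446) (nat_lit 19) (.e (nat_lit 393229) (nat_lit 9) (.e (nat_lit 336076) (nat_lit 9) (.e (nat_lit 336316) (nat_lit 17) (.e (nat_lit 196626) (nat_lit 9) .nil))))))) (.g (nat_lit 5) .nil .nil))) 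
(.lf (nat_lit 23090) (.g (nat_lit 1491) (.e (nat_lit 1183) (nat_lit 87) (.e (nat_lit 57849) (nat_lit 252) (.e (nat_lit 57407) (nat_lit 12) (.e (nat_lit 336211) (nat_lit 13) .nil)))) .nil)))) (.nd (nat_lit 4) (.nd (nat_lit 5) 
(.lf (nat_lit 23050) (.g (nat_lit 2093) (.e (nat_lit 1183) (nat_lit 87) (.e (nat_lit 57848) (nat_lit 252) (.e (nat_lit 57445) (nat_lit 19) (.e (nat_lit 393225) (nat_lit 9) (.e (nat_lit 336076) (nat_lit 9) (.e (nat_lit 336316) (nat_lit 17) (.e (nat_lit 196626) (nat_lit 9) .nil))))))) (.g (nat_lit 4) .nil .nil))) 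
(.lf (nat_lit 23082) (.g (nat_lit 4793) (.e (nat_lit 1183) (nat_lit 87) (.e (nat_lit 57849) (nat_lit 252) (.e (nat_lit 57377) (nat_lit 3) (.e (nat_lit 98317) (nat_lit 9) (.e (nat_lit 336026) (nat_lit 3) .nil))))) .nil))) (.nd (nat_lit 5) 
(.lf (nat_lit 23066) (.g (nat_lit 1777) (.e (nat_lit 1183) (nat_lit 87) (.e (nat_lit 57849) (nat_lit 252) (.e (nat_lit 57375) (nat_lit 2) (.e (nat_lit 90128) (nat_lit 9) .nil)))) .nil)) 
(.lf (nat_lit 23098) (.g (nat_lit 2692) (.e (nat_lit 1183) (nat_lit 87) (.e (nat_lit 57849) (nat_lit 252) (.e (nat_lit 57435) (nat_lit 17) (.e (nat_lit 376842) (nat_lit 11) (.e (nat_lit 426306) (nat_lit 12) (.e (nat_lit 475205) (nat_lit 40) (.e (nat_lit 704606) (nat_lit 9) .nil))))))) (.g (nat_lit 4) .nil .nil)))))) (.nd (nat_lit 3) (.nd (nat_lit 4) (.nd (nat_lit 5) 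
(.lf (nat_lit 23046) (.g (nat_lit 2142) (.e (nat_lit 1183) (nat_lit 87) (.e (nat_lit 57848) (nat_lit 252) (.e (nat_lit 57437) (nat_lit 17) (.e (nat_lit 376842) (nat_lit 11) (.e (nat_lit 426298) (nat_lit 11) (.e (nat_lit 458804) (nat_lit 38) (.e (nat_lit 655386) (nat_lit 9) .nil))))))) (.g (nat_lit 4) .nil .nil))) 
(.lf (nat_lit 23078) (.g (nat_lit 5370) (.e (nat_lit 1183) (nat_lit 87) (.e (nat_lit 57849) (nat_lit 252) (.e (nat_lit 57377) (nat_lit 3) (.e (nat_lit 98317) (nat_lit 9) (.e (nat_lit 335926) (nat_lit 0) .nil))))) .nil))) (.nd (nat_lit 5) 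
(.lf (nat_lit 23062) (.g (nat_lit 2054) (.e (nat_lit 1183) (nat_lit 87) (.e (nat_lit 57849) (nat_lit 252) (.e (nat_lit 57372) (nat_lit 2) (.e (nat_lit 90133) (nat_lit 9) .nil)))) .nil)) 
(.lf (nat_lit 23094) (.g (nat_lit 880) (.e (nat_lit 1183) (nat_lit 87) (.e (nat_lit 57849) (nat_lit 252) (.e (nat_lit 57435) (nat_lit 17) .nil))) .nil)))) (.nd (nat_lit 4) (.nd (nat_lit 5) 
(.lf (nat_lit 23054) (.g (nat_lit 2969) (.e (nat_lit 1183) (nat_lit 87) (.e (nat_lit 57848) (nat_lit 252) (.e (nat_lit 57445) (nat_lit 19) (.e (nat_lit 393229) (nat_lit 9) (.e (nat_lit 336076) (nat_lit 9) (.e (nat_lit 336316) (nat_lit 17) (.e (nat_lit 196626) (nat_lit 9) .nil))))))) (.g (nat_lit 5) .nil .nil))) 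
(.lf (nat_lit 23086) (.g (nat_lit 3107) (.e (nat_lit 1183) (nat_lit 87) (.e (nat_lit 57849) (nat_lit 252) (.e (nat_lit 57379) (nat_lit 3) (.e (nat_lit 98313) (nat_lit 9) (.e (nat_lit 336027) (nat_lit 3) (.e (nat_lit 98341) (nat_lit 20) (.e (nat_lit 221212) (nat_lit 22) (.e (nat_lit 196626) (nat_lit 9) .nil)))))))) (.g (nat_lit 5) .nil .nil)))) (.nd (nat_lit 5) 
(.lf (nat_lit 23070) (.g (nat_lit 3839) (.e (nat_lit 1183) (nat_lit 87) (.e (nat_lit 57849) (nat_lit 252) (.e (nat_lit 57375) (nat_lit 2) (.e (nat_lit 90160) (nat_lit 11) (.e (nat_lit 24607) (nat_lit 3) .nil))))) .nil)) 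
(.lf (nat_lit 23102) (.g (nat_lit 2570) (.e (nat_lit 1183) (nat_lit 87) (.e (nat_lit 57849) (nat_lit 252) (.e (nat_lit 57437) (nat_lit 17) (.e (nat_lit 376842) (nat_lit 11) (.e (nat_lit 426306) (nat_lit 12) .nil))))) .nil))))))) (.nd (nat_lit 1) (.nd (nat_lit 2) (.nd (nat_lit 3) (.nd (nat_lit 4) (.nd (nat_lit 5) 
(.lf (nat_lit 23041) (.g (nat_lit 2254) (.e (nat_lit 1183) (nat_lit 87) (.e (nat_lit 57848) (nat_lit 252) (.e (nat_lit 57435) (nat_lit 17) (.e (nat_lit 376842) (nat_lit 11) (.e (nat_lit 426306) (nat_lit 12) (.e (nat_lit 475201) (nat_lit 40) (.e (nat_lit 704643) (nat_lit 9) .nil))))))) (.g (nat_lit 4) .nil .nil))) 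
(.lf (nat_lit 23073) (.g (nat_lit 1833) (.e (nat_lit 1183) (nat_lit 87) (.e (nat_lit 57849) (nat_lit 252) (.e (nat_lit 57377) (nat_lit 3) (.e (nat_lit 98313) (nat_lit 9) .nil)))) .nil))) (.nd (nat_lit 5) 
(.lf (nat_lit 23057) (.g (nat_lit 3259) (.e (nat_lit 1183) (nat_lit 87) (.e (nat_lit 57848) (nat_lit 252) (.e (nat_lit 57445) (nat_lit 19) (.e (nat_lit 393229) (nat_lit 9) (.e (nat_lit 336088) (nat_lit 9) (.e (nat_lit 336316) (nat_lit 17) (.e (nat_lit 196630) (nat_lit 9) .nil))))))) (.g (nat_lit 6) .nil .nil))) 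
(.lf (nat_lit 23089) (.g (nat_lit 1746) (.e (nat_lit 1183) (nat_lit 87) (.e (nat_lit 57849) (nat_lit 252) (.e (nat_lit 57379) (nat_lit 3) (.e (nat_lit 106240) (nat_lit 10) .nil)))) .nil)))) (.nd (nat_lit 4) (.nd (nat_lit 5) 
(.lf (nat_lit 23049) (.g (nat_lit 2206) (.e (nat_lit 1183) (nat_lit 87) (.e (nat_lit 57848) (nat_lit 252) (.e (nat_lit 57437) (nat_lit 17) (.e (nat_lit 376842) (nat_lit 11) (.e (nat_lit 426306) (nat_lit 12) (.e (nat_lit 475201) (nat_lit 40) (.e (nat_lit 704643) (nat_lit 9) .nil))))))) (.g (nat_lit 4) .nil .nil))) 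
(.lf (nat_lit 23081) (.g (nat_lit 5264) (.e (nat_lit 1183) (nat_lit 87) (.e (nat_lit 57849) (nat_lit 252) (.e (nat_lit 57377) (nat_lit 3) (.e (nat_lit 98317) (nat_lit 9) (.e (nat_lit 336020) (nat_lit 3) .nil))))) .nil))) (.nd (nat_lit 5) 
(.lf (nat_lit 23065) (.g (nat_lit 2788) (.e (nat_lit 1183) (nat_lit 87) (.e (nat_lit 57849) (nat_lit 252) (.e (nat_lit 57372) (nat_lit 2) (.e (nat_lit 90160) (nat_lit 11) (.e (nat_lit 24608) (nat_lit 3) .nil))))) .nil)) 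
(.lf (nat_lit 23097) (.g (nat_lit 2404) (.e (nat_lit 1183) (nat_lit 87) (.e (nat_lit 57849) (nat_lit 252) (.e (nat_lit 57435) (nat_lit 17) (.e (nat_lit 376842) (nat_lit 11) (.e (nat_lit 426306) (nat_lit 12) .nil))))) .nil))))) (.nd (nat_lit 3) (.nd (nat_lit 4) (.nd (nat_lit 5) 
(.lf (nat_lit 23045) (.g (nat_lit 1732) (.e (nat_lit 1183) (nat_lit 87) (.e (nat_lit 57848) (nat_lit 252) (.e (nat_lit 57437) (nat_lit 17) (.e (nat_lit 376842) (nat_lit 11) (.e (nat_lit 426298) (nat_lit 11) .nil))))) .nil)) 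
(.lf (nat_lit 23077) (.g (nat_lit 5332) (.e (nat_lit 1183) (nat_lit 87) (.e (nat_lit 57849) (nat_lit 252) (.e (nat_lit 57377) (nat_lit 3) (.e (nat_lit 98317) (nat_lit 9) (.e (nat_lit 335899) (nat_lit 0) .nil))))) .nil))) (.nd (nat_lit 5) 
(.lf (nat_lit 23061) (.g (nat_lit 2185) (.e (nat_lit 1183) (nat_lit 87) (.e (nat_lit 57849) (nat_lit 252) (.e (nat_lit 57372) (nat_lit 2) (.e (nat_lit 90128) (nat_lit 9) (.e (nat_lit 297) (nat_lit 22) .nil))))) .nil)) 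
(.lf (nat_lit 23093) (.g (nat_lit 2254) (.e (nat_lit 1183) (nat_lit 87) (.e (nat_lit 57849) (nat_lit 252) (.e (nat_lit 57411) (nat_lit 12) (.e (nat_lit 336211) (nat_lit 13) (.e (nat_lit 393291) (nat_lit 26) .nil))))) .nil)))) (.nd (nat_lit 4) (.nd (nat_lit 5) 
(.lf (nat_lit 23053) (.g (nat_lit 2080) (.e (nat_lit 1183) (nat_lit 87) (.e (nat_lit 57848) (nat_lit 252) (.e (nat_lit 57445) (nat_lit 19) (.e (nat_lit 393225) (nat_lit 9) (.e (nat_lit 336088) (nat_lit 9) (.e (nat_lit 336316) (nat_lit 17) (.e (nat_lit 196630) (nat_lit 9) .nil))))))) (.g (nat_lit 4) .nil .nil))) 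
(.lf (nat_lit 23085) (.g (nat_lit 2252) (.e (nat_lit 1183) (nat_lit 87) (.e (nat_lit 57849) (nat_lit 252) (.e (nat_lit 57379) (nat_lit 3) (.e (nat_lit 98313) (nat_lit 9) (.e (nat_lit 336027) (nat_lit 3) .nil))))) .nil))) (.nd (nat_lit 5) 
(.lf (nat_lit 23069) (.g (nat_lit 1555) (.e (nat_lit 1183) (nat_lit 87) (.e (nat_lit 57849) (nat_lit 252) (.e (nat_lit 57375) (nat_lit 2) (.e (nat_lit 90160) (nat_lit 11) .nil)))) .nil)) 
(.lf (nat_lit 23101) (.g (nat_lit 2589) (.e (nat_lit 1183) (nat_lit 87) (.e (nat_lit 57849) (nat_lit 252) (.e (nat_lit 57437) (nat_lit 17) (.e (nat_lit 376842) (nat_lit 11) (.e (nat_lit 426298) (nat_lit 11) .nil))))) .nil)))))) (.nd (nat_lit 2) (.nd (nat_lit 3) (.nd (nat_lit 4) (.nd (nat_lit 5) 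
(.lf (nat_lit 23043) (.g (nat_lit 1128) (.e (nat_lit 1183) (nat_lit 87) (.e (nat_lit 57848) (nat_lit 252) (.e (nat_lit 57436) (nat_lit 17) (.e (nat_lit 376842) (nat_lit 11) .nil)))) .nil)) 
(.lf (nat_lit 23075) (.g (nat_lit 3736) (.e (nat_lit 1183) (nat_lit 87) (.e (nat_lit 57849) (nat_lit 252) (.e (nat_lit 57377) (nat_lit 3) (.e (nat_lit 98313) (nat_lit 9) (.e (nat_lit 336027) (nat_lit 3) (.e (nat_lit 98342) (nat_lit 20) (.e (nat_lit 221212) (nat_lit 22) (.e (nat_lit 196626) (nat_lit 9) .nil)))))))) (.g (nat_lit 6) .nil .nil)))) (.nd (nat_lit 5) 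
(.lf (nat_lit 23059) (.g (nat_lit 2679) (.e (nat_lit 1183) (nat_lit 87) (.e (nat_lit 57848) (nat_lit 252) (.e (nat_lit 57446) (nat_lit 19) (.e (nat_lit 393229) (nat_lit 9) (.e (nat_lit 336076) (nat_lit 9) (.e (nat_lit 336316) (nat_lit 17) (.e (nat_lit 196630) (nat_lit 9) .nil))))))) (.g (nat_lit 5) .nil .nil))) 
(.lf (nat_lit 23091) (.g (nat_lit 2196) (.e (nat_lit 1183) (nat_lit 87) (.e (nat_lit 57849) (nat_lit 252) (.e (nat_lit 57407) (nat_lit 12) (.e (nat_lit 336455) (nat_lit 34) .nil)))) .nil)))) (.nd (nat_lit 4) (.nd (nat_lit 5) 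
(.lf (nat_lit 23051) (.g (nat_lit 2256) (.e (nat_lit 1183) (nat_lit 87) (.e (nat_lit 57848) (nat_lit 252) (.e (nat_lit 57445) (nat_lit 19) (.e (nat_lit 393225) (nat_lit 9) (.e (nat_lit 336076) (nat_lit 9) (.e (nat_lit 336316) (nat_lit 17) (.e (nat_lit 196630) (nat_lit 9) .nil))))))) (.g (nat_lit 4) .nil .nil))) 
(.lf (nat_lit 23083) (.g (nat_lit 3559) (.e (nat_lit 1183) (nat_lit 87) (.e (nat_lit 57849) (nat_lit 252) (.e (nat_lit 57377) (nat_lit 3) (.e (nat_lit 98317) (nat_lit 9) (.e (nat_lit 336027) (nat_lit 3) (.e (nat_lit 98341) (nat_lit 20) (.e (nat_lit 221212) (nat_lit 22) (.e (nat_lit 196626) (nat_lit 9) .nil)))))))) (.g (nat_lit 4) .nil .nil)))) (.nd (nat_lit 5) 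
(.lf (nat_lit 23067) (.g (nat_lit 2773) (.e (nat_lit 1183) (nat_lit 87) (.e (nat_lit 57849) (nat_lit 252) (.e (nat_lit 57375) (nat_lit 2) (.e (nat_lit 90128) (nat_lit 9) (.e (nat_lit 297) (nat_lit 22) (.e (nat_lit 344119) (nat_lit 21) (.e (nat_lit 516129) (nat_lit 3) (.e (nat_lit 221210) (nat_lit 22) (.e (nat_lit 196626) (nat_lit 9) .nil))))))))) (.g (nat_lit 4) .nil .nil))) 
(.lf (nat_lit 23099) (.g (nat_lit 873) (.e (nat_lit 1183) (nat_lit 87) (.e (nat_lit 57849) (nat_lit 252) (.e (nat_lit 57437) (nat_lit 17) .nil))) .nil))))) (.nd (nat_lit 3) (.nd (nat_lit 4) (.nd (nat_lit 5) 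
(.lf (nat_lit 23047) (.g (nat_lit 2309) (.e (nat_lit 1183) (nat_lit 87) (.e (nat_lit 57848) (nat_lit 252) (.e (nat_lit 57437) (nat_lit 17) (.e (nat_lit 376842) (nat_lit 11) (.e (nat_lit 426306) (nat_lit 12) (.e (nat_lit 475201) (nat_lit 40) (.e (nat_lit 704620) (nat_lit 9) .nil))))))) (.g (nat_lit 4) .nil .nil))) 
(.lf (nat_lit 23079) (.g (nat_lit 5370) (.e (nat_lit 1183) (nat_lit 87) (.e (nat_lit 57849) (nat_lit 252) (.e (nat_lit 57377) (nat_lit 3) (.e (nat_lit 98317) (nat_lit 9) (.e (nat_lit 335933) (nat_lit 0) .nil))))) .nil))) (.nd (nat_lit 5) 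
(.lf (nat_lit 23063) (.g (nat_lit 1813) (.e (nat_lit 1183) (nat_lit 87) (.e (nat_lit 57849) (nat_lit 252) (.e (nat_lit 57372) (nat_lit 2) (.e (nat_lit 90160) (nat_lit 11) .nil)))) .nil)) 
(.lf (nat_lit 23095) (.g (nat_lit 1577) (.e (nat_lit 1183) (nat_lit 87) (.e (nat_lit 57849) (nat_lit 252) (.e (nat_lit 57435) (nat_lit 17) (.e (nat_lit 376842) (nat_lit 11) .nil)))) .nil)))) (.nd (nat_lit 4) (.nd (nat_lit 5) 
(.lf (nat_lit 23055) (.g (nat_lit 2574) (.e (nat_lit 1183) (nat_lit 87) (.e (nat_lit 57848) (nat_lit 252) (.e (nat_lit 57445) (nat_lit 19) (.e (nat_lit 393229) (nat_lit 9) (.e (nat_lit 336085) (nat_lit 9) .nil))))) .nil)) 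
(.lf (nat_lit 23087) (.g (nat_lit 3787) (.e (nat_lit 1183) (nat_lit 87) (.e (nat_lit 57849) (nat_lit 252) (.e (nat_lit 57379) (nat_lit 3) (.e (nat_lit 98313) (nat_lit 9) (.e (nat_lit 336027) (nat_lit 3) (.e (nat_lit 98342) (nat_lit 20) (.e (nat_lit 221212) (nat_lit 22) (.e (nat_lit 196626) (nat_lit 9) .nil)))))))) (.g (nat_lit 6) .nil .nil)))) (.nd (nat_lit 5) 
(.lf (nat_lit 23071) (.g (nat_lit 3321) (.e (nat_lit 1183) (nat_lit 87) (.e (nat_lit 57849) (nat_lit 252) (.e (nat_lit 57375) (nat_lit 2) (.e (nat_lit 90160) (nat_lit 11) (.e (nat_lit 24608) (nat_lit 3) .nil))))) .nil)) 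
(.lf (nat_lit 23103) (.g (nat_lit 2648) (.e (nat_lit 1183) (nat_lit 87) (.e (nat_lit 57849) (nat_lit 252) (.e (nat_lit 57437) (nat_lit 17) (.e (nat_lit 376842) (nat_lit 11) (.e (nat_lit 426306) (nat_lit 12) (.e (nat_lit 475201) (nat_lit 40) (.e (nat_lit 704620) (nat_lit 9) .nil))))))) (.g (nat_lit 4) .nil .nil)))))))))

noncomputable def tv328 : DT := (.nd (nat_lit 0) (.nd (nat_lit 1) (.nd (nat_lit 2) (.nd (nat_lit 3) (.nd (nat_lit 4) (.nd (nat_lit 5) 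
(.lf (nat_lit 23104) (.g (nat_lit 2936) (.e (nat_lit 1183) (nat_lit 87) (.e (nat_lit 57849) (nat_lit 252) (.e (nat_lit 57437) (nat_lit 17) (.e (nat_lit 376842) (nat_lit 11) (.e (nat_lit 426306) (nat_lit 12) (.e (nat_lit 475205) (nat_lit 40) (.e (nat_lit 704606) (nat_lit 9) .nil))))))) (.g (nat_lit 4) .nil .nil))) 
(.lf (nat_lit 23136) (.g (nat_lit 3261) (.e (nat_lit 1183) (nat_lit 87) (.e (nat_lit 57871) (nat_lit 264) (.e (nat_lit 1189) (nat_lit 88) (.e (nat_lit 65628) (nat_lit 14) (.e (nat_lit 401459) (nat_lit 13) (.e (nat_lit 483354) (nat_lit 17) (.e (nat_lit 7936) (nat_lit 343) .nil))))))) (.g (nat_lit 6) .nil .nil)))) (.nd (nat_lit 5) 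
(.lf (nat_lit 23120) (.g (nat_lit 5219) (.e (nat_lit 1183) (nat_lit 87) (.e (nat_lit 57871) (nat_lit 264) (.e (nat_lit 1181) (nat_lit 87) (.e (nat_lit 57480) (nat_lit 28) (.e (nat_lit 557109) (nat_lit 15) (.e (nat_lit 188452) (nat_lit 23) (.e (nat_lit 204817) (nat_lit 17) (.e (nat_lit 7936) (nat_lit 343) .nil)))))))) (.g (nat_lit 6) .nil .nil))) 
(.lf (nat_lit 23152) (.g (nat_lit 4888) (.e (nat_lit 1183) (nat_lit 87) (.e (nat_lit 57871) (nat_lit 264) (.e (nat_lit 1190) (nat_lit 88) (.e (nat_lit 65630) (nat_lit 14) (.e (nat_lit 401459) (nat_lit 13) (.e (nat_lit 483344) (nat_lit 17) (.e (nat_lit 6436) (nat_lit 343) .nil))))))) (.g (nat_lit 6) .nil .nil))))) (.nd (nat_lit 4) (.nd (nat_lit 5) 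
(.lf (nat_lit 23112) (.g (nat_lit 2364) (.e (nat_lit 1183) (nat_lit 87) (.e (nat_lit 57854) (nat_lit 252) (.e (nat_lit 57373) (nat_lit 2) (.e (nat_lit 90160) (nat_lit 11) .nil)))) .nil)) 
(.lf (nat_lit 23144) (.g (nat_lit 2150) (.e (nat_lit 1183) (nat_lit 87) (.e (nat_lit 57871) (nat_lit 264) (.e (nat_lit 1190) (nat_lit 88) (.e (nat_lit 65628) (nat_lit 14) (.e (nat_lit 401437) (nat_lit 9) (.e (nat_lit 426533) (nat_lit 28) (.e (nat_lit 352000) (nat_lit 8) .nil))))))) (.g (nat_lit 4) .nil .nil)))) (.nd (nat_lit 5) 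
(.lf (nat_lit 23128) (.g (nat_lit 4399) (.e (nat_lit 1183) (nat_lit 87) (.e (nat_lit 57871) (nat_lit 264) (.e (nat_lit 1188) (nat_lit 88) (.e (nat_lit 65630) (nat_lit 14) (.e (nat_lit 401459) (nat_lit 13) (.e (nat_lit 483350) (nat_lit 17) (.e (nat_lit 7936) (nat_lit 343) .nil))))))) (.g (nat_lit 6) .nil .nil))) 
(.lf (nat_lit 23160) (.g (nat_lit 4158) (.e (nat_lit 1183) (nat_lit 87) (.e (nat_lit 57871) (nat_lit 264) (.e (nat_lit 1199) (nat_lit 88) (.e (nat_lit 65630) (nat_lit 14) (.e (nat_lit 401459) (nat_lit 13) (.e (nat_lit 483343) (nat_lit 17) (.e (nat_lit 6436) (nat_lit 343) .nil))))))) (.g (nat_lit 6) .nil .nil)))))) (.nd (nat_lit 3) (.nd (nat_lit 4) (.nd (nat_lit 5) 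
(.lf (nat_lit 23108) (.g (nat_lit 738) (.e (nat_lit 1183) (nat_lit 87) (.e (nat_lit 57852) (nat_lit 252) (.e (nat_lit 57445) (nat_lit 19) .nil))) .nil)) 
(.lf (nat_lit 23140) (.g (nat_lit 3585) (.e (nat_lit 1183) (nat_lit 87) (.e (nat_lit 57871) (nat_lit 264) (.e (nat_lit 1189) (nat_lit 88) (.e (nat_lit 65629) (nat_lit 14) (.e (nat_lit 401459) (nat_lit 13) (.e (nat_lit 483354) (nat_lit 17) (.e (nat_lit 7936) (nat_lit 343) .nil))))))) (.g (nat_lit 5) .nil .nil)))) (.nd (nat_lit 5) 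
(.lf (nat_lit 23124) (.g (nat_lit 3962) (.e (nat_lit 1183) (nat_lit 87) (.e (nat_lit 57871) (nat_lit 264) (.e (nat_lit 1188) (nat_lit 88) (.e (nat_lit 65630) (nat_lit 14) (.e (nat_lit 401459) (nat_lit 13) (.e (nat_lit 483343) (nat_lit 17) (.e (nat_lit 6436) (nat_lit 343) .nil))))))) (.g (nat_lit 7) .nil .nil))) 
(.lf (nat_lit 23156) (.g (nat_lit 3259) (.e (nat_lit 1183) (nat_lit 87) (.e (nat_lit 57871) (nat_lit 264) (.e (nat_lit 1199) (nat_lit 88) (.e (nat_lit 65628) (nat_lit 14) (.e (nat_lit 401459) (nat_lit 13) (.e (nat_lit 483344) (nat_lit 17) (.e (nat_lit 6436) (nat_lit 343) .nil))))))) (.g (nat_lit 6) .nil .nil))))) (.nd (nat_lit 4) (.nd (nat_lit 5) 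
(.lf (nat_lit 23116) (.g (nat_lit 991) (.e (nat_lit 1183) (nat_lit 87) (.e (nat_lit 57857) (nat_lit 254) (.e (nat_lit 163902) (nat_lit 12) (.e (nat_lit 426438) (nat_lit 18) .nil)))) .nil)) 
(.lf (nat_lit 23148) (.g (nat_lit 4134) (.e (nat_lit 1183) (nat_lit 87) (.e (nat_lit 57871) (nat_lit 264) (.e (nat_lit 1190) (nat_lit 88) (.e (nat_lit 65628) (nat_lit 14) (.e (nat_lit 401459) (nat_lit 13) (.e (nat_lit 483350) (nat_lit 17) (.e (nat_lit 7936) (nat_lit 343) .nil))))))) (.g (nat_lit 6) .nil .nil)))) (.nd (nat_lit 5) 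
(.lf (nat_lit 23132) (.g (nat_lit 3661) (.e (nat_lit 1183) (nat_lit 87) (.e (nat_lit 57871) (nat_lit 264) (.e (nat_lit 1189) (nat_lit 88) (.e (nat_lit 65628) (nat_lit 14) (.e (nat_lit 401459) (nat_lit 13) (.e (nat_lit 483344) (nat_lit 17) (.e (nat_lit 6436) (nat_lit 343) .nil))))))) (.g (nat_lit 6) .nil .nil))) 
(.lf (nat_lit 23164) (.g (nat_lit 3915) (.e (nat_lit 1183) (nat_lit 87) (.e (nat_lit 57871) (nat_lit 264) (.e (nat_lit 1199) (nat_lit 88) (.e (nat_lit 65630) (nat_lit 14) (.e (nat_lit 401459) (nat_lit 13) (.e (nat_lit 483354) (nat_lit 17) (.e (nat_lit 7936) (nat_lit 343) .nil))))))) (.g (nat_lit 5) .nil .nil))))))) (.nd (nat_lit 2) (.nd (nat_lit 3) (.nd (nat_lit 4) (.nd (nat_lit 5) 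
(.lf (nat_lit 23106) (.g (nat_lit 1643) (.e (nat_lit 1183) (nat_lit 87) (.e (nat_lit 57849) (nat_lit 252) (.e (nat_lit 57437) (nat_lit 17) (.e (nat_lit 384768) (nat_lit 14) .nil)))) .nil)) 
(.lf (nat_lit 23138) (.g (nat_lit 3709) (.e (nat_lit 1183) (nat_lit 87) (.e (nat_lit 57871) (nat_lit 264) (.e (nat_lit 1189) (nat_lit 88) (.e (nat_lit 65629) (nat_lit 14) (.e (nat_lit 401459) (nat_lit 13) (.e (nat_lit 483347) (nat_lit 17) (.e (nat_lit 7936) (nat_lit 343) .nil))))))) (.g (nat_lit 6) .nil .nil)))) (.nd (nat_lit 5) 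
(.lf (nat_lit 23122) (.g (nat_lit 4781) (.e (nat_lit 1183) (nat_lit 87) (.e (nat_lit 57871) (nat_lit 264) (.e (nat_lit 1182) (nat_lit 87) (.e (nat_lit 57478) (nat_lit 28) (.e (nat_lit 557109) (nat_lit 15) (.e (nat_lit 188452) (nat_lit 23) (.e (nat_lit 204817) (nat_lit 17) (.e (nat_lit 7936) (nat_lit 343) .nil)))))))) (.g (nat_lit 6) .nil .nil))) 
(.lf (nat_lit 23154) (.g (nat_lit 1522) (.e (nat_lit 1183) (nat_lit 87) (.e (nat_lit 57871) (nat_lit 264) (.e (nat_lit 1199) (nat_lit 88) (.e (nat_lit 65628) (nat_lit 14) (.e (nat_lit 401437) (nat_lit 9) (.e (nat_lit 426533) (nat_lit 28) (.e (nat_lit 352000) (nat_lit 8) .nil))))))) (.g (nat_lit 4) .nil .nil))))) (.nd (nat_lit 4) (.nd (nat_lit 5) 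
(.lf (nat_lit 23114) (.g (nat_lit 1794) (.e (nat_lit 1183) (nat_lit 87) (.e (nat_lit 57854) (nat_lit 252) (.e (nat_lit 57409) (nat_lit 12) (.e (nat_lit 336456) (nat_lit 34) (.e (nat_lit 483383) (nat_lit 23) .nil))))) .nil)) 
(.lf (nat_lit 23146) (.g (nat_lit 3788) (.e (nat_lit 1183) (nat_lit 87) (.e (nat_lit 57871) (nat_lit 264) (.e (nat_lit 1190) (nat_lit 88) (.e (nat_lit 65628) (nat_lit 14) (.e (nat_lit 401459) (nat_lit 13) (.e (nat_lit 483344) (nat_lit 17) (.e (nat_lit 6436) (nat_lit 343) .nil))))))) (.g (nat_lit 6) .nil .nil)))) (.nd (nat_lit 5) 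
(.lf (nat_lit 23130) (.g (nat_lit 2045) (.e (nat_lit 1183) (nat_lit 87) (.e (nat_lit 57871) (nat_lit 264) (.e (nat_lit 1189) (nat_lit 88) (.e (nat_lit 65628) (nat_lit 14) (.e (nat_lit 401437) (nat_lit 9) (.e (nat_lit 426533) (nat_lit 28) (.e (nat_lit 352000) (nat_lit 8) .nil))))))) (.g (nat_lit 5) .nil .nil))) 
(.lf (nat_lit 23162) (.g (nat_lit 3775) (.e (nat_lit 1183) (nat_lit 87) (.e (nat_lit 57871) (nat_lit 264) (.e (nat_lit 1199) (nat_lit 88) (.e (nat_lit 65630) (nat_lit 14) (.e (nat_lit 401459) (nat_lit 13) (.e (nat_lit 483347) (nat_lit 17) (.e (nat_lit 7936) (nat_lit 343) .nil))))))) (.g (nat_lit 5) .nil .nil)))))) (.nd (nat_lit 3) (.nd (nat_lit 4) (.nd (nat_lit 5) 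
(.lf (nat_lit 23110) (.g (nat_lit 1182) (.e (nat_lit 1183) (nat_lit 87) (.e (nat_lit 57854) (nat_lit 252) (.e (nat_lit 57371) (nat_lit 2) (.e (nat_lit 90128) (nat_lit 9) .nil)))) .nil)) 
(.lf (nat_lit 23142) (.g (nat_lit 3852) (.e (nat_lit 1183) (nat_lit 87) (.e (nat_lit 57871) (nat_lit 264) (.e (nat_lit 1189) (nat_lit 88) (.e (nat_lit 65630) (nat_lit 14) (.e (nat_lit 401459) (nat_lit 13) (.e (nat_lit 483344) (nat_lit 17) (.e (nat_lit 7936) (nat_lit 343) .nil))))))) (.g (nat_lit 6) .nil .nil)))) (.nd (nat_lit 5) 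
(.lf (nat_lit 23126) (.g (nat_lit 3866) (.e (nat_lit 1183) (nat_lit 87) (.e (nat_lit 57871) (nat_lit 264) (.e (nat_lit 1188) (nat_lit 88) (.e (nat_lit 65630) (nat_lit 14) (.e (nat_lit 401459) (nat_lit 13) (.e (nat_lit 483344) (nat_lit 17) (.e (nat_lit 7936) (nat_lit 343) .nil))))))) (.g (nat_lit 6) .nil .nil))) 
(.lf (nat_lit 23158) (.g (nat_lit 2869) (.e (nat_lit 1183) (nat_lit 87) (.e (nat_lit 57871) (nat_lit 264) (.e (nat_lit 1199) (nat_lit 88) (.e (nat_lit 65628) (nat_lit 14) (.e (nat_lit 401459) (nat_lit 13) (.e (nat_lit 483354) (nat_lit 17) (.e (nat_lit 7936) (nat_lit 343) .nil))))))) (.g (nat_lit 5) .nil .nil))))) (.nd (nat_lit 4) (.nd (nat_lit 5) 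
(.lf (nat_lit 23118) (.g (nat_lit 4612) (.e (nat_lit 1183) (nat_lit 87) (.e (nat_lit 57871) (nat_lit 264) (.e (nat_lit 1171) (nat_lit 87) (.e (nat_lit 57476) (nat_lit 28) (.e (nat_lit 557108) (nat_lit 15) (.e (nat_lit 188452) (nat_lit 23) (.e (nat_lit 204817) (nat_lit 17) (.e (nat_lit 7936) (nat_lit 343) .nil)))))))) (.g (nat_lit 7) .nil .nil))) 
(.lf (nat_lit 23150) (.g (nat_lit 1752) (.e (nat_lit 1183) (nat_lit 87) (.e (nat_lit 57871) (nat_lit 264) (.e (nat_lit 1190) (nat_lit 88) (.e (nat_lit 65630) (nat_lit 14) (.e (nat_lit 401437) (nat_lit 9) (.e (nat_lit 426533) (nat_lit 28) (.e (nat_lit 352000) (nat_lit 8) .nil))))))) (.g (nat_lit 4) .nil .nil)))) (.nd (nat_lit 5) 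
(.lf (nat_lit 23134) (.g (nat_lit 3352) (.e (nat_lit 1183) (nat_lit 87) (.e (nat_lit 57871) (nat_lit 264) (.e (nat_lit 1189) (nat_lit 88) (.e (nat_lit 65628) (nat_lit 14) (.e (nat_lit 401459) (nat_lit 13) (.e (nat_lit 483347) (nat_lit 17) (.e (nat_lit 7936) (nat_lit 343) .nil))))))) (.g (nat_lit 6) .nil .nil))) 
(.lf (nat_lit 23166) (.g (nat_lit 3750) (.e (nat_lit 1183) (nat_lit 87) (.e (nat_lit 57871) (nat_lit 264) (.e (nat_lit 1200) (nat_lit 88) (.e (nat_lit 65628) (nat_lit 14) (.e (nat_lit 401459) (nat_lit 13) (.e (nat_lit 483343) (nat_lit 17) (.e (nat_lit 6436) (nat_lit 343) .nil))))))) (.g (nat_lit 6) .nil .nil)))))))) 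
(.nd (nat_lit 1) (.nd (nat_lit 2) (.nd (nat_lit 3) (.nd (nat_lit 4) (.nd (nat_lit 5) 
(.lf (nat_lit 23105) (.g (nat_lit 2587) (.e (nat_lit 1183) (nat_lit 87) (.e (nat_lit 57849) (nat_lit 252) (.e (nat_lit 57437) (nat_lit 17) (.e (nat_lit 376842) (nat_lit 11) (.e (nat_lit 426316) (nat_lit 12) .nil))))) .nil)) 
(.lf (nat_lit 23137) (.g (nat_lit 3392) (.e (nat_lit 1183) (nat_lit 87) (.e (nat_lit 57871) (nat_lit 264) (.e (nat_lit 1189) (nat_lit 88) (.e (nat_lit 65629) (nat_lit 14) (.e (nat_lit 401459) (nat_lit 13) (.e (nat_lit 483343) (nat_lit 17) (.e (nat_lit 6436) (nat_lit 343) .nil))))))) (.g (nat_lit 5) .nil .nil)))) (.nd (nat_lit 5) 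
(.lf (nat_lit 23121) (.g (nat_lit 3067) (.e (nat_lit 1183) (nat_lit 87) (.e (nat_lit 57871) (nat_lit 264) (.e (nat_lit 1182) (nat_lit 87) (.e (nat_lit 57478) (nat_lit 28) (.e (nat_lit 557108) (nat_lit 15) (.e (nat_lit 188452) (nat_lit 23) (.e (nat_lit 204817) (nat_lit 17) (.e (nat_lit 7936) (nat_lit 343) .nil)))))))) (.g (nat_lit 6) .nil .nil))) 
(.lf (nat_lit 23153) (.g (nat_lit 3810) (.e (nat_lit 1183) (nat_lit 87) (.e (nat_lit 57871) (nat_lit 264) (.e (nat_lit 1190) (nat_lit 88) (.e (nat_lit 65630) (nat_lit 14) (.e (nat_lit 401459) (nat_lit 13) (.e (nat_lit 483344) (nat_lit 17) (.e (nat_lit 7936) (nat_lit 343) .nil))))))) (.g (nat_lit 5) .nil .nil))))) (.nd (nat_lit 4) (.nd (nat_lit 5) 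
(.lf (nat_lit 23113) (.g (nat_lit 3132) (.e (nat_lit 1183) (nat_lit 87) (.e (nat_lit 57854) (nat_lit 252) (.e (nat_lit 57373) (nat_lit 2) (.e (nat_lit 90160) (nat_lit 11) (.e (nat_lit 24608) (nat_lit 3) .nil))))) .nil)) 
(.lf (nat_lit 23145) (.g (nat_lit 3593) (.e (nat_lit 1183) (nat_lit 87) (.e (nat_lit 57871) (nat_lit 264) (.e (nat_lit 1190) (nat_lit 88) (.e (nat_lit 65628) (nat_lit 14) (.e (nat_lit 401459) (nat_lit 13) (.e (nat_lit 483343) (nat_lit 17) (.e (nat_lit 6436) (nat_lit 343) .nil))))))) (.g (nat_lit 6) .nil .nil)))) (.nd (nat_lit 5) 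
(.lf (nat_lit 23129) (.g (nat_lit 3715) (.e (nat_lit 1183) (nat_lit 87) (.e (nat_lit 57871) (nat_lit 264) (.e (nat_lit 1188) (nat_lit 88) (.e (nat_lit 65630) (nat_lit 14) (.e (nat_lit 401459) (nat_lit 13) (.e (nat_lit 483354) (nat_lit 17) (.e (nat_lit 7936) (nat_lit 343) .nil))))))) (.g (nat_lit 6) .nil .nil))) 
(.lf (nat_lit 23161) (.g (nat_lit 4670) (.e (nat_lit 1183) (nat_lit 87) (.e (nat_lit 57871) (nat_lit 264) (.e (nat_lit 1199) (nat_lit 88) (.e (nat_lit 65630) (nat_lit 14) (.e (nat_lit 401459) (nat_lit 13) (.e (nat_lit 483344) (nat_lit 17) (.e (nat_lit 6436) (nat_lit 343) .nil))))))) (.g (nat_lit 7) .nil .nil)))))) (.nd (nat_lit 3) (.nd (nat_lit 4) (.nd (nat_lit 5) 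
(.lf (nat_lit 23109) (.g (nat_lit 1658) (.e (nat_lit 1183) (nat_lit 87) (.e (nat_lit 57852) (nat_lit 252) (.e (nat_lit 57445) (nat_lit 19) (.e (nat_lit 393229) (nat_lit 9) .nil)))) .nil)) 
(.lf (nat_lit 23141) (.g (nat_lit 3071) (.e (nat_lit 1183) (nat_lit 87) (.e (nat_lit 57871) (nat_lit 264) (.e (nat_lit 1189) (nat_lit 88) (.e (nat_lit 65630) (nat_lit 14) (.e (nat_lit 401459) (nat_lit 13) (.e (nat_lit 483343) (nat_lit 17) (.e (nat_lit 6436) (nat_lit 343) .nil))))))) (.g (nat_lit 5) .nil .nil)))) (.nd (nat_lit 5) 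
(.lf (nat_lit 23125) (.g (nat_lit 4940) (.e (nat_lit 1183) (nat_lit 87) (.e (nat_lit 57871) (nat_lit 264) (.e (nat_lit 1188) (nat_lit 88) (.e (nat_lit 65630) (nat_lit 14) (.e (nat_lit 401459) (nat_lit 13) (.e (nat_lit 483344) (nat_lit 17) (.e (nat_lit 6436) (nat_lit 343) .nil))))))) (.g (nat_lit 0) .nil .nil))) 
(.lf (nat_lit 23157) (.g (nat_lit 2951) (.e (nat_lit 1183) (nat_lit 87) (.e (nat_lit 57871) (nat_lit 264) (.e (nat_lit 1199) (nat_lit 88) (.e (nat_lit 65628) (nat_lit 14) (.e (nat_lit 401459) (nat_lit 13) (.e (nat_lit 483347) (nat_lit 17) (.e (nat_lit 7936) (nat_lit 343) .nil))))))) (.g (nat_lit 5) .nil .nil))))) (.nd (nat_lit 4) (.nd (nat_lit 5) 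
(.lf (nat_lit 23117) (.g (nat_lit 4503) (.e (nat_lit 1183) (nat_lit 87) (.e (nat_lit 57871) (nat_lit 264) (.e (nat_lit 1170) (nat_lit 87) (.e (nat_lit 57477) (nat_lit 28) (.e (nat_lit 557108) (nat_lit 15) (.e (nat_lit 188452) (nat_lit 23) (.e (nat_lit 204817) (nat_lit 17) (.e (nat_lit 7936) (nat_lit 343) .nil)))))))) (.g (nat_lit 7) .nil .nil))) 
(.lf (nat_lit 23149) (.g (nat_lit 3404) (.e (nat_lit 1183) (nat_lit 87) (.e (nat_lit 57871) (nat_lit 264) (.e (nat_lit 1190) (nat_lit 88) (.e (nat_lit 65628) (nat_lit 14) (.e (nat_lit 401459) (nat_lit 13) (.e (nat_lit 483354) (nat_lit 17) (.e (nat_lit 7936) (nat_lit 343) .nil))))))) (.g (nat_lit 5) .nil .nil)))) (.nd (nat_lit 5) 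
(.lf (nat_lit 23133) (.g (nat_lit 2851) (.e (nat_lit 1183) (nat_lit 87) (.e (nat_lit 57871) (nat_lit 264) (.e (nat_lit 1189) (nat_lit 88) (.e (nat_lit 65628) (nat_lit 14) (.e (nat_lit 401459) (nat_lit 13) (.e (nat_lit 483344) (nat_lit 17) (.e (nat_lit 7936) (nat_lit 343) .nil))))))) (.g (nat_lit 6) .nil .nil))) 
(.lf (nat_lit 23165) (.g (nat_lit 2330) (.e (nat_lit 1183) (nat_lit 87) (.e (nat_lit 57871) (nat_lit 264) (.e (nat_lit 1200) (nat_lit 88) (.e (nat_lit 65628) (nat_lit 14) (.e (nat_lit 401437) (nat_lit 9) (.e (nat_lit 426533) (nat_lit 28) (.e (nat_lit 352000) (nat_lit 8) .nil))))))) (.g (nat_lit 5) .nil .nil))))))) (.nd (nat_lit 2) (.nd (nat_lit 3) (.nd (nat_lit 4) (.nd (nat_lit 5) 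
(.lf (nat_lit 23107) (.g (nat_lit 1369) (.e (nat_lit 1183) (nat_lit 87) (.e (nat_lit 57852) (nat_lit 252) (.e (nat_lit 57406) (nat_lit 12) (.e (nat_lit 336454) (nat_lit 34) .nil)))) .nil)) 
(.lf (nat_lit 23139) (.g (nat_lit 5127) (.e (nat_lit 1183) (nat_lit 87) (.e (nat_lit 57871) (nat_lit 264) (.e (nat_lit 1189) (nat_lit 88) (.e (nat_lit 65629) (nat_lit 14) (.e (nat_lit 401459) (nat_lit 13) (.e (nat_lit 483350) (nat_lit 17) (.e (nat_lit 7936) (nat_lit 343) .nil))))))) (.g (nat_lit 6) .nil .nil)))) (.nd (nat_lit 5) 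
(.lf (nat_lit 23123) (.g (nat_lit 1762) (.e (nat_lit 1183) (nat_lit 87) (.e (nat_lit 57871) (nat_lit 264) (.e (nat_lit 1188) (nat_lit 88) (.e (nat_lit 65630) (nat_lit 14) (.e (nat_lit 401437) (nat_lit 9) (.e (nat_lit 426533) (nat_lit 28) (.e (nat_lit 352000) (nat_lit 8) .nil))))))) (.g (nat_lit 4) .nil .nil))) 
(.lf (nat_lit 23155) (.g (nat_lit 3052) (.e (nat_lit 1183) (nat_lit 87) (.e (nat_lit 57871) (nat_lit 264) (.e (nat_lit 1199) (nat_lit 88) (.e (nat_lit 65628) (nat_lit 14) (.e (nat_lit 401459) (nat_lit 13) (.e (nat_lit 483343) (nat_lit 17) (.e (nat_lit 6436) (nat_lit 343) .nil))))))) (.g (nat_lit 5) .nil .nil))))) (.nd (nat_lit 4) (.nd (nat_lit 5) 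
(.lf (nat_lit 23115) (.g (nat_lit 620) (.e (nat_lit 1183) (nat_lit 87) (.e (nat_lit 57854) (nat_lit 252) (.e (nat_lit 57447) (nat_lit 19) .nil))) .nil)) 
(.lf (nat_lit 23147) (.g (nat_lit 3492) (.e (nat_lit 1183) (nat_lit 87) (.e (nat_lit 57871) (nat_lit 264) (.e (nat_lit 1190) (nat_lit 88) (.e (nat_lit 65628) (nat_lit 14) (.e (nat_lit 401459) (nat_lit 13) (.e (nat_lit 483347) (nat_lit 17) (.e (nat_lit 7936) (nat_lit 343) .nil))))))) (.g (nat_lit 5) .nil .nil)))) (.nd (nat_lit 5) 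
(.lf (nat_lit 23131) (.g (nat_lit 3454) (.e (nat_lit 1183) (nat_lit 87) (.e (nat_lit 57871) (nat_lit 264) (.e (nat_lit 1189) (nat_lit 88) (.e (nat_lit 65628) (nat_lit 14) (.e (nat_lit 401459) (nat_lit 13) (.e (nat_lit 483343) (nat_lit 17) (.e (nat_lit 6436) (nat_lit 343) .nil))))))) (.g (nat_lit 7) .nil .nil))) 
(.lf (nat_lit 23163) (.g (nat_lit 4171) (.e (nat_lit 1183) (nat_lit 87) (.e (nat_lit 57871) (nat_lit 264) (.e (nat_lit 1199) (nat_lit 88) (.e (nat_lit 65630) (nat_lit 14) (.e (nat_lit 401459) (nat_lit 13) (.e (nat_lit 483350) (nat_lit 17) (.e (nat_lit 7936) (nat_lit 343) .nil))))))) (.g (nat_lit 6) .nil .nil)))))) (.nd (nat_lit 3) (.nd (nat_lit 4) (.nd (nat_lit 5) 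
(.lf (nat_lit 23111) (.g (nat_lit 2696) (.e (nat_lit 1183) (nat_lit 87) (.e (nat_lit 57854) (nat_lit 252) (.e (nat_lit 57373) (nat_lit 2) (.e (nat_lit 90128) (nat_lit 9) (.e (nat_lit 297) (nat_lit 22) .nil))))) .nil)) 
(.lf (nat_lit 23143) (.g (nat_lit 2190) (.e (nat_lit 1183) (nat_lit 87) (.e (nat_lit 57871) (nat_lit 264) (.e (nat_lit 1190) (nat_lit 88) (.e (nat_lit 65624) (nat_lit 12) (.e (nat_lit 385093) (nat_lit 49) (.e (nat_lit 778323) (nat_lit 5) (.e (nat_lit 81664) (nat_lit 40) .nil))))))) (.g (nat_lit 4) .nil .nil)))) (.nd (nat_lit 5) 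
(.lf (nat_lit 23127) (.g (nat_lit 3589) (.e (nat_lit 1183) (nat_lit 87) (.e (nat_lit 57871) (nat_lit 264) (.e (nat_lit 1188) (nat_lit 88) (.e (nat_lit 65630) (nat_lit 14) (.e (nat_lit 401459) (nat_lit 13) (.e (nat_lit 483347) (nat_lit 17) (.e (nat_lit 7936) (nat_lit 343) .nil))))))) (.g (nat_lit 6) .nil .nil))) 
(.lf (nat_lit 23159) (.g (nat_lit 1984) (.e (nat_lit 1183) (nat_lit 87) (.e (nat_lit 57871) (nat_lit 264) (.e (nat_lit 1199) (nat_lit 88) (.e (nat_lit 65630) (nat_lit 14) (.e (nat_lit 401437) (nat_lit 9) (.e (nat_lit 426533) (nat_lit 28) (.e (nat_lit 352000) (nat_lit 8) .nil))))))) (.g (nat_lit 5) .nil .nil))))) (.nd (nat_lit 4) (.nd (nat_lit 5) 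
(.lf (nat_lit 23119) (.g (nat_lit 4026) (.e (nat_lit 1183) (nat_lit 87) (.e (nat_lit 57871) (nat_lit 264) (.e (nat_lit 1171) (nat_lit 87) (.e (nat_lit 57478) (nat_lit 28) (.e (nat_lit 557108) (nat_lit 15) (.e (nat_lit 188452) (nat_lit 23) (.e (nat_lit 204817) (nat_lit 17) (.e (nat_lit 7936) (nat_lit 343) .nil)))))))) (.g (nat_lit 7) .nil .nil))) 
(.lf (nat_lit 23151) (.g (nat_lit 3500) (.e (nat_lit 1183) (nat_lit 87) (.e (nat_lit 57871) (nat_lit 264) (.e (nat_lit 1190) (nat_lit 88) (.e (nat_lit 65630) (nat_lit 14) (.e (nat_lit 401459) (nat_lit 13) (.e (nat_lit 483343) (nat_lit 17) (.e (nat_lit 6436) (nat_lit 343) .nil))))))) (.g (nat_lit 5) .nil .nil)))) (.nd (nat_lit 5) 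
(.lf (nat_lit 23135) (.g (nat_lit 3999) (.e (nat_lit 1183) (nat_lit 87) (.e (nat_lit 57871) (nat_lit 264) (.e (nat_lit 1189) (nat_lit 88) (.e (nat_lit 65628) (nat_lit 14) (.e (nat_lit 401459) (nat_lit 13) (.e (nat_lit 483350) (nat_lit 17) (.e (nat_lit 7936) (nat_lit 343) .nil))))))) (.g (nat_lit 6) .nil .nil))) 
(.lf (nat_lit 23167) (.g (nat_lit 3878) (.e (nat_lit 1183) (nat_lit 87) (.e (nat_lit 57871) (nat_lit 264) (.e (nat_lit 1200) (nat_lit 88) (.e (nat_lit 65628) (nat_lit 14) (.e (nat_lit 401459) (nat_lit 13) (.e (nat_lit 483344) (nat_lit 17) (.e (nat_lit 6436) (nat_lit 343) .nil))))))) (.g (nat_lit 6) .nil .nil)))))))))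

noncomputable def tv329 : DT := (.nd (nat_lit 0) (.nd (nat_lit 1) (.nd (nat_lit 2) (.nd (nat_lit 3) (.nd (nat_lit 4) (.nd (nat_lit 5) 
(.lf (nat_lit 23168) (.g (nat_lit 3649) (.e (nat_lit 1183) (nat_lit 87) (.e (nat_lit 57871) (nat_lit 264) (.e (nat_lit 1200) (nat_lit 88) (.e (nat_lit 65628) (nat_lit 14) (.e (nat_lit 401459) (nat_lit 13) (.e (nat_lit 483347) (nat_lit 17) (.e (nat_lit 7936) (nat_lit 343) .nil))))))) (.g (nat_lit 6) .nil .nil))) 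
(.lf (nat_lit 23200) (.g (nat_lit 3947) (.e (nat_lit 1183) (nat_lit 87) (.e (nat_lit 57872) (nat_lit 264) (.e (nat_lit 1188) (nat_lit 88) (.e (nat_lit 65630) (nat_lit 14) (.e (nat_lit 401459) (nat_lit 13) (.e (nat_lit 483343) (nat_lit 17) (.e (nat_lit 6436) (nat_lit 343) .nil))))))) (.g (nat_lit 7) .nil .nil)))) (.nd (nat_lit 5) 
(.lf (nat_lit 23184) (.g (nat_lit 2563) (.e (nat_lit 1183) (nat_lit 87) (.e (nat_lit 57871) (nat_lit 264) (.e (nat_lit 1210) (nat_lit 89) (.e (nat_lit 73781) (nat_lit 32) (.e (nat_lit 3090) (nat_lit 191) (.e (nat_lit 483350) (nat_lit 17) (.e (nat_lit 7936) (nat_lit 343) .nil))))))) (.g (nat_lit 6) .nil .nil))) 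
(.lf (nat_lit 23216) (.g (nat_lit 3781) (.e (nat_lit 1183) (nat_lit 87) (.e (nat_lit 57872) (nat_lit 264) (.e (nat_lit 1190) (nat_lit 88) (.e (nat_lit 65630) (nat_lit 14) (.e (nat_lit 401459) (nat_lit 13) (.e (nat_lit 483343) (nat_lit 17) (.e (nat_lit 6436) (nat_lit 343) .nil))))))) (.g (nat_lit 5) .nil .nil))))) (.nd (nat_lit 4) (.nd (nat_lit 5) 
(.lf (nat_lit 23176) (.g (nat_lit 1963) (.e (nat_lit 1183) (nat_lit 87) (.e (nat_lit 57871) (nat_lit 264) (.e (nat_lit 1200) (nat_lit 88) (.e (nat_lit 65630) (nat_lit 14) (.e (nat_lit 401437) (nat_lit 9) (.e (nat_lit 426533) (nat_lit 28) (.e (nat_lit 352000) (nat_lit 8) .nil))))))) (.g (nat_lit 4) .nil .nil))) 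
(.lf (nat_lit 23208) (.g (nat_lit 2621) (.e (nat_lit 1183) (nat_lit 87) (.e (nat_lit 57872) (nat_lit 264) (.e (nat_lit 1190) (nat_lit 88) (.e (nat_lit 65628) (nat_lit 14) (.e (nat_lit 401437) (nat_lit 9) (.e (nat_lit 426533) (nat_lit 28) (.e (nat_lit 352000) (nat_lit 8) .nil))))))) (.g (nat_lit 5) .nil .nil)))) (.nd (nat_lit 5) 
(.lf (nat_lit 23192) (.g (nat_lit 5162) (.e (nat_lit 1183) (nat_lit 87) (.e (nat_lit 57872) (nat_lit 264) (.e (nat_lit 1172) (nat_lit 87) (.e (nat_lit 57478) (nat_lit 28) (.e (nat_lit 557109) (nat_lit 15) (.e (nat_lit 188452) (nat_lit 23) (.e (nat_lit 204817) (nat_lit 17) (.e (nat_lit 7936) (nat_lit 343) .nil)))))))) (.g (nat_lit 7) .nil .nil))) 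
(.lf (nat_lit 23224) (.g (nat_lit 1948) (.e (nat_lit 1183) (nat_lit 87) (.e (nat_lit 57872) (nat_lit 264) (.e (nat_lit 1199) (nat_lit 88) (.e (nat_lit 65628) (nat_lit 14) (.e (nat_lit 401437) (nat_lit 9) (.e (nat_lit 426533) (nat_lit 28) (.e (nat_lit 352000) (nat_lit 8) .nil))))))) (.g (nat_lit 4) .nil .nil)))))) (.nd (nat_lit 3) (.nd (nat_lit 4) (.nd (nat_lit 5) 
(.lf (nat_lit 23172) (.g (nat_lit 4294) (.e (nat_lit 1183) (nat_lit 87) (.e (nat_lit 57871) (nat_lit 264) (.e (nat_lit 1200) (nat_lit 88) (.e (nat_lit 65629) (nat_lit 14) (.e (nat_lit 401459) (nat_lit 13) (.e (nat_lit 483344) (nat_lit 17) (.e (nat_lit 6436) (nat_lit 343) .nil))))))) (.g (nat_lit 6) .nil .nil))) 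
(.lf (nat_lit 23204) (.g (nat_lit 3755) (.e (nat_lit 1183) (nat_lit 87) (.e (nat_lit 57872) (nat_lit 264) (.e (nat_lit 1188) (nat_lit 88) (.e (nat_lit 65630) (nat_lit 14) (.e (nat_lit 401459) (nat_lit 13) (.e (nat_lit 483347) (nat_lit 17) (.e (nat_lit 7936) (nat_lit 343) .nil))))))) (.g (nat_lit 6) .nil .nil)))) (.nd (nat_lit 5) 
(.lf (nat_lit 23188) (.g (nat_lit 1685) (.e (nat_lit 1183) (nat_lit 87) (.e (nat_lit 57872) (nat_lit 264) (.e (nat_lit 1170) (nat_lit 87) (.e (nat_lit 57521) (nat_lit 44) (.e (nat_lit 688171) (nat_lit 15) (.e (nat_lit 57478) (nat_lit 28) (.e (nat_lit 557107) (nat_lit 15) (.e (nat_lit 188459) (nat_lit 26) (.e (nat_lit 253967) (nat_lit 9) .nil))))))))) (.g (nat_lit 4) .nil .nil))) 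
(.lf (nat_lit 23220) (.g (nat_lit 3614) (.e (nat_lit 1183) (nat_lit 87) (.e (nat_lit 57872) (nat_lit 264) (.e (nat_lit 1190) (nat_lit 88) (.e (nat_lit 65630) (nat_lit 14) (.e (nat_lit 401459) (nat_lit 13) (.e (nat_lit 483347) (nat_lit 17) (.e (nat_lit 7936) (nat_lit 343) .nil))))))) (.g (nat_lit 5) .nil .nil))))) (.nd (nat_lit 4) (.nd (nat_lit 5) 
(.lf (nat_lit 23180) (.g (nat_lit 2953) (.e (nat_lit 1183) (nat_lit 87) (.e (nat_lit 57871) (nat_lit 264) (.e (nat_lit 1209) (nat_lit 89) (.e (nat_lit 73781) (nat_lit 32) (.e (nat_lit 2856) (nat_lit 184) (.e (nat_lit 426533) (nat_lit 28) (.e (nat_lit 352000) (nat_lit 8) .nil))))))) (.g (nat_lit 6) .nil .nil))) 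
(.lf (nat_lit 23212) (.g (nat_lit 3948) (.e (nat_lit 1183) (nat_lit 87) (.e (nat_lit 57872) (nat_lit 264) (.e (nat_lit 1190) (nat_lit 88) (.e (nat_lit 65628) (nat_lit 14) (.e (nat_lit 401459) (nat_lit 13) (.e (nat_lit 483347) (nat_lit 17) (.e (nat_lit 7936) (nat_lit 343) .nil))))))) (.g (nat_lit 6) .nil .nil)))) (.nd (nat_lit 5) 
(.lf (nat_lit 23196) (.g (nat_lit 3588) (.e (nat_lit 1183) (nat_lit 87) (.e (nat_lit 57872) (nat_lit 264) (.e (nat_lit 1182) (nat_lit 87) (.e (nat_lit 57478) (nat_lit 28) (.e (nat_lit 557108) (nat_lit 15) (.e (nat_lit 188452) (nat_lit 23) (.e (nat_lit 204817) (nat_lit 17) (.e (nat_lit 7936) (nat_lit 343) .nil)))))))) (.g (nat_lit 6) .nil .nil))) 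
(.lf (nat_lit 23228) (.g (nat_lit 4099) (.e (nat_lit 1183) (nat_lit 87) (.e (nat_lit 57872) (nat_lit 264) (.e (nat_lit 1199) (nat_lit 88) (.e (nat_lit 65628) (nat_lit 14) (.e (nat_lit 401459) (nat_lit 13) (.e (nat_lit 483350) (nat_lit 17) (.e (nat_lit 7936) (nat_lit 343) .nil))))))) (.g (nat_lit 6) .nil .nil))))))) (.nd (nat_lit 2) (.nd (nat_lit 3) (.nd (nat_lit 4) (.nd (nat_lit 5) 
(.lf (nat_lit 23170) (.g (nat_lit 3565) (.e (nat_lit 1183) (nat_lit 87) (.e (nat_lit 57871) (nat_lit 264) (.e (nat_lit 1200) (nat_lit 88) (.e (nat_lit 65628) (nat_lit 14) (.e (nat_lit 401459) (nat_lit 13) (.e (nat_lit 483354) (nat_lit 17) (.e (nat_lit 7936) (nat_lit 343) .nil))))))) (.g (nat_lit 6) .nil .nil))) 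
(.lf (nat_lit 23202) (.g (nat_lit 4932) (.e (nat_lit 1183) (nat_lit 87) (.e (nat_lit 57872) (nat_lit 264) (.e (nat_lit 1188) (nat_lit 88) (.e (nat_lit 65630) (nat_lit 14) (.e (nat_lit 401459) (nat_lit 13) (.e (nat_lit 483344) (nat_lit 17) (.e (nat_lit 6436) (nat_lit 343) .nil))))))) (.g (nat_lit 0) .nil .nil)))) (.nd (nat_lit 5) 
(.lf (nat_lit 23186) (.g (nat_lit 4763) (.e (nat_lit 1183) (nat_lit 87) (.e (nat_lit 57872) (nat_lit 264) (.e (nat_lit 1170) (nat_lit 87) (.e (nat_lit 57477) (nat_lit 28) (.e (nat_lit 557108) (nat_lit 15) (.e (nat_lit 188452) (nat_lit 23) (.e (nat_lit 204817) (nat_lit 17) (.e (nat_lit 7936) (nat_lit 343) .nil)))))))) (.g (nat_lit 7) .nil .nil))) 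
(.lf (nat_lit 23218) (.g (nat_lit 5176) (.e (nat_lit 1183) (nat_lit 87) (.e (nat_lit 57872) (nat_lit 264) (.e (nat_lit 1190) (nat_lit 88) (.e (nat_lit 65630) (nat_lit 14) (.e (nat_lit 401459) (nat_lit 13) (.e (nat_lit 483344) (nat_lit 17) (.e (nat_lit 6436) (nat_lit 343) .nil))))))) (.g (nat_lit 7) .nil .nil))))) (.nd (nat_lit 4) (.nd (nat_lit 5) 
(.lf (nat_lit 23178) (.g (nat_lit 4098) (.e (nat_lit 1183) (nat_lit 87) (.e (nat_lit 57871) (nat_lit 264) (.e (nat_lit 1200) (nat_lit 88) (.e (nat_lit 65630) (nat_lit 14) (.e (nat_lit 401459) (nat_lit 13) (.e (nat_lit 483344) (nat_lit 17) (.e (nat_lit 6436) (nat_lit 343) .nil))))))) (.g (nat_lit 6) .nil .nil))) 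
(.lf (nat_lit 23210) (.g (nat_lit 4114) (.e (nat_lit 1183) (nat_lit 87) (.e (nat_lit 57872) (nat_lit 264) (.e (nat_lit 1190) (nat_lit 88) (.e (nat_lit 65628) (nat_lit 14) (.e (nat_lit 401459) (nat_lit 13) (.e (nat_lit 483344) (nat_lit 17) (.e (nat_lit 6436) (nat_lit 343) .nil))))))) (.g (nat_lit 6) .nil .nil)))) (.nd (nat_lit 5) 
(.lf (nat_lit 23194) (.g (nat_lit 5102) (.e (nat_lit 1183) (nat_lit 87) (.e (nat_lit 57872) (nat_lit 264) (.e (nat_lit 1181) (nat_lit 87) (.e (nat_lit 57479) (nat_lit 28) (.e (nat_lit 557109) (nat_lit 15) (.e (nat_lit 188452) (nat_lit 23) (.e (nat_lit 204816) (nat_lit 17) (.e (nat_lit 6436) (nat_lit 343) .nil)))))))) (.g (nat_lit 6) .nil .nil))) 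
(.lf (nat_lit 23226) (.g (nat_lit 3560) (.e (nat_lit 1183) (nat_lit 87) (.e (nat_lit 57872) (nat_lit 264) (.e (nat_lit 1199) (nat_lit 88) (.e (nat_lit 65628) (nat_lit 14) (.e (nat_lit 401459) (nat_lit 13) (.e (nat_lit 483344) (nat_lit 17) (.e (nat_lit 6436) (nat_lit 343) .nil))))))) (.g (nat_lit 6) .nil .nil)))))) (.nd (nat_lit 3) (.nd (nat_lit 4) (.nd (nat_lit 5) 
(.lf (nat_lit 23174) (.g (nat_lit 5805) (.e (nat_lit 1183) (nat_lit 87) (.e (nat_lit 57871) (nat_lit 264) (.e (nat_lit 1200) (nat_lit 88) (.e (nat_lit 65629) (nat_lit 14) (.e (nat_lit 401459) (nat_lit 13) (.e (nat_lit 483350) (nat_lit 17) (.e (nat_lit 7936) (nat_lit 343) .nil))))))) (.g (nat_lit 6) .nil .nil))) 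
(.lf (nat_lit 23206) (.g (nat_lit 3881) (.e (nat_lit 1183) (nat_lit 87) (.e (nat_lit 57872) (nat_lit 264) (.e (nat_lit 1188) (nat_lit 88) (.e (nat_lit 65630) (nat_lit 14) (.e (nat_lit 401459) (nat_lit 13) (.e (nat_lit 483354) (nat_lit 17) (.e (nat_lit 7936) (nat_lit 343) .nil))))))) (.g (nat_lit 6) .nil .nil)))) (.nd (nat_lit 5) 
(.lf (nat_lit 23190) (.g (nat_lit 4618) (.e (nat_lit 1183) (nat_lit 87) (.e (nat_lit 57872) (nat_lit 264) (.e (nat_lit 1172) (nat_lit 87) (.e (nat_lit 57477) (nat_lit 28) (.e (nat_lit 557108) (nat_lit 15) (.e (nat_lit 188452) (nat_lit 23) (.e (nat_lit 204817) (nat_lit 17) (.e (nat_lit 7936) (nat_lit 343) .nil)))))))) (.g (nat_lit 6) .nil .nil))) 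
(.lf (nat_lit 23222) (.g (nat_lit 3769) (.e (nat_lit 1183) (nat_lit 87) (.e (nat_lit 57872) (nat_lit 264) (.e (nat_lit 1190) (nat_lit 88) (.e (nat_lit 65630) (nat_lit 14) (.e (nat_lit 401459) (nat_lit 13) (.e (nat_lit 483354) (nat_lit 17) (.e (nat_lit 7936) (nat_lit 343) .nil))))))) (.g (nat_lit 5) .nil .nil))))) (.nd (nat_lit 4) (.nd (nat_lit 5) 
(.lf (nat_lit 23182) (.g (nat_lit 2757) (.e (nat_lit 1183) (nat_lit 87) (.e (nat_lit 57871) (nat_lit 264) (.e (nat_lit 1209) (nat_lit 89) (.e (nat_lit 73782) (nat_lit 32) (.e (nat_lit 2856) (nat_lit 184) (.e (nat_lit 426533) (nat_lit 28) (.e (nat_lit 352000) (nat_lit 8) .nil))))))) (.g (nat_lit 6) .nil .nil))) 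
(.lf (nat_lit 23214) (.g (nat_lit 3860) (.e (nat_lit 1183) (nat_lit 87) (.e (nat_lit 57872) (nat_lit 264) (.e (nat_lit 1190) (nat_lit 88) (.e (nat_lit 65628) (nat_lit 14) (.e (nat_lit 401459) (nat_lit 13) (.e (nat_lit 483354) (nat_lit 17) (.e (nat_lit 7936) (nat_lit 343) .nil))))))) (.g (nat_lit 6) .nil .nil)))) (.nd (nat_lit 5) 
(.lf (nat_lit 23198) (.g (nat_lit 5203) (.e (nat_lit 1183) (nat_lit 87) (.e (nat_lit 57872) (nat_lit 264) (.e (nat_lit 1182) (nat_lit 87) (.e (nat_lit 57480) (nat_lit 28) (.e (nat_lit 557109) (nat_lit 15) (.e (nat_lit 188452) (nat_lit 23) (.e (nat_lit 204817) (nat_lit 17) (.e (nat_lit 7936) (nat_lit 343) .nil)))))))) (.g (nat_lit 6) .nil .nil))) 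
(.lf (nat_lit 23230) (.g (nat_lit 3204) (.e (nat_lit 1183) (nat_lit 87) (.e (nat_lit 57872) (nat_lit 264) (.e (nat_lit 1199) (nat_lit 88) (.e (nat_lit 65629) (nat_lit 14) (.e (nat_lit 401459) (nat_lit 13) (.e (nat_lit 483343) (nat_lit 17) (.e (nat_lit 6436) (nat_lit 343) .nil))))))) (.g (nat_lit 5) .nil .nil)))))))) 
(.nd (nat_lit 1) (.nd (nat_lit 2) (.nd (nat_lit 3) (.nd (nat_lit 4) (.nd (nat_lit 5) 
(.lf (nat_lit 23169) (.g (nat_lit 4302) (.e (nat_lit 1183) (nat_lit 87) (.e (nat_lit 57871) (nat_lit 264) (.e (nat_lit 1200) (nat_lit 88) (.e (nat_lit 65628) (nat_lit 14) (.e (nat_lit 401459) (nat_lit 13) (.e (nat_lit 483350) (nat_lit 17) (.e (nat_lit 7936) (nat_lit 343) .nil))))))) (.g (nat_lit 6) .nil .nil))) 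
(.lf (nat_lit 23201) (.g (nat_lit 3979) (.e (nat_lit 1183) (nat_lit 87) (.e (nat_lit 57872) (nat_lit 264) (.e (nat_lit 1188) (nat_lit 88) (.e (nat_lit 65630) (nat_lit 14) (.e (nat_lit 401459) (nat_lit 13) (.e (nat_lit 483344) (nat_lit 17) (.e (nat_lit 6434) (nat_lit 343) .nil))))))) (.g (nat_lit 6) .nil .nil)))) (.nd (nat_lit 5) 
(.lf (nat_lit 23185) (.g (nat_lit 2072) (.e (nat_lit 1183) (nat_lit 87) (.e (nat_lit 57871) (nat_lit 264) (.e (nat_lit 1210) (nat_lit 89) (.e (nat_lit 73782) (nat_lit 32) (.e (nat_lit 2856) (nat_lit 184) (.e (nat_lit 426533) (nat_lit 28) (.e (nat_lit 352000) (nat_lit 8) .nil))))))) (.g (nat_lit 5) .nil .nil))) 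
(.lf (nat_lit 23217) (.g (nat_lit 4174) (.e (nat_lit 1183) (nat_lit 87) (.e (nat_lit 57872) (nat_lit 264) (.e (nat_lit 1190) (nat_lit 88) (.e (nat_lit 65630) (nat_lit 14) (.e (nat_lit 401459) (nat_lit 13) (.e (nat_lit 483344) (nat_lit 17) (.e (nat_lit 6434) (nat_lit 343) .nil))))))) (.g (nat_lit 6) .nil .nil))))) (.nd (nat_lit 4) (.nd (nat_lit 5) 
(.lf (nat_lit 23177) (.g (nat_lit 3370) (.e (nat_lit 1183) (nat_lit 87) (.e (nat_lit 57871) (nat_lit 264) (.e (nat_lit 1200) (nat_lit 88) (.e (nat_lit 65630) (nat_lit 14) (.e (nat_lit 401459) (nat_lit 13) (.e (nat_lit 483343) (nat_lit 17) (.e (nat_lit 6436) (nat_lit 343) .nil))))))) (.g (nat_lit 5) .nil .nil))) 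
(.lf (nat_lit 23209) (.g (nat_lit 3912) (.e (nat_lit 1183) (nat_lit 87) (.e (nat_lit 57872) (nat_lit 264) (.e (nat_lit 1190) (nat_lit 88) (.e (nat_lit 65628) (nat_lit 14) (.e (nat_lit 401459) (nat_lit 13) (.e (nat_lit 483343) (nat_lit 17) (.e (nat_lit 6436) (nat_lit 343) .nil))))))) (.g (nat_lit 7) .nil .nil)))) (.nd (nat_lit 5) 
(.lf (nat_lit 23193) (.g (nat_lit 3662) (.e (nat_lit 1183) (nat_lit 87) (.e (nat_lit 57872) (nat_lit 264) (.e (nat_lit 1181) (nat_lit 87) (.e (nat_lit 57478) (nat_lit 28) (.e (nat_lit 557108) (nat_lit 15) (.e (nat_lit 188452) (nat_lit 23) (.e (nat_lit 204817) (nat_lit 17) (.e (nat_lit 7936) (nat_lit 343) .nil)))))))) (.g (nat_lit 6) .nil .nil))) 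
(.lf (nat_lit 23225) (.g (nat_lit 3346) (.e (nat_lit 1183) (nat_lit 87) (.e (nat_lit 57872) (nat_lit 264) (.e (nat_lit 1199) (nat_lit 88) (.e (nat_lit 65628) (nat_lit 14) (.e (nat_lit 401459) (nat_lit 13) (.e (nat_lit 483343) (nat_lit 17) (.e (nat_lit 6436) (nat_lit 343) .nil))))))) (.g (nat_lit 5) .nil .nil)))))) (.nd (nat_lit 3) (.nd (nat_lit 4) (.nd (nat_lit 5) 
(.lf (nat_lit 23173) (.g (nat_lit 4394) (.e (nat_lit 1183) (nat_lit 87) (.e (nat_lit 57871) (nat_lit 264) (.e (nat_lit 1200) (nat_lit 88) (.e (nat_lit 65629) (nat_lit 14) (.e (nat_lit 401459) (nat_lit 13) (.e (nat_lit 483347) (nat_lit 17) (.e (nat_lit 7936) (nat_lit 343) .nil))))))) (.g (nat_lit 6) .nil .nil))) 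
(.lf (nat_lit 23205) (.g (nat_lit 4565) (.e (nat_lit 1183) (nat_lit 87) (.e (nat_lit 57872) (nat_lit 264) (.e (nat_lit 1188) (nat_lit 88) (.e (nat_lit 65630) (nat_lit 14) (.e (nat_lit 401459) (nat_lit 13) (.e (nat_lit 483350) (nat_lit 17) (.e (nat_lit 7936) (nat_lit 343) .nil))))))) (.g (nat_lit 6) .nil .nil)))) (.nd (nat_lit 5) 
(.lf (nat_lit 23189) (.g (nat_lit 4866) (.e (nat_lit 1183) (nat_lit 87) (.e (nat_lit 57872) (nat_lit 264) (.e (nat_lit 1172) (nat_lit 87) (.e (nat_lit 57476) (nat_lit 28) (.e (nat_lit 557108) (nat_lit 15) (.e (nat_lit 188452) (nat_lit 23) (.e (nat_lit 204817) (nat_lit 17) (.e (nat_lit 7936) (nat_lit 343) .nil)))))))) (.g (nat_lit 7) .nil .nil))) 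
(.lf (nat_lit 23221) (.g (nat_lit 4612) (.e (nat_lit 1183) (nat_lit 87) (.e (nat_lit 57872) (nat_lit 264) (.e (nat_lit 1190) (nat_lit 88) (.e (nat_lit 65630) (nat_lit 14) (.e (nat_lit 401459) (nat_lit 13) (.e (nat_lit 483350) (nat_lit 17) (.e (nat_lit 7936) (nat_lit 343) .nil))))))) (.g (nat_lit 6) .nil .nil))))) (.nd (nat_lit 4) (.nd (nat_lit 5) 
(.lf (nat_lit 23181) (.g (nat_lit 2855) (.e (nat_lit 1183) (nat_lit 87) (.e (nat_lit 57871) (nat_lit 264) (.e (nat_lit 1209) (nat_lit 89) (.e (nat_lit 73781) (nat_lit 32) (.e (nat_lit 3090) (nat_lit 191) (.e (nat_lit 483350) (nat_lit 17) (.e (nat_lit 7936) (nat_lit 343) .nil))))))) (.g (nat_lit 6) .nil .nil))) 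
(.lf (nat_lit 23213) (.g (nat_lit 4590) (.e (nat_lit 1183) (nat_lit 87) (.e (nat_lit 57872) (nat_lit 264) (.e (nat_lit 1190) (nat_lit 88) (.e (nat_lit 65628) (nat_lit 14) (.e (nat_lit 401459) (nat_lit 13) (.e (nat_lit 483350) (nat_lit 17) (.e (nat_lit 7936) (nat_lit 343) .nil))))))) (.g (nat_lit 6) .nil .nil)))) (.nd (nat_lit 5) 
(.lf (nat_lit 23197) (.g (nat_lit 5283) (.e (nat_lit 1183) (nat_lit 87) (.e (nat_lit 57872) (nat_lit 264) (.e (nat_lit 1182) (nat_lit 87) (.e (nat_lit 57478) (nat_lit 28) (.e (nat_lit 557109) (nat_lit 15) (.e (nat_lit 188452) (nat_lit 23) (.e (nat_lit 204817) (nat_lit 17) (.e (nat_lit 7936) (nat_lit 343) .nil)))))))) (.g (nat_lit 7) .nil .nil))) 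
(.lf (nat_lit 23229) (.g (nat_lit 3293) (.e (nat_lit 1183) (nat_lit 87) (.e (nat_lit 57872) (nat_lit 264) (.e (nat_lit 1199) (nat_lit 88) (.e (nat_lit 65628) (nat_lit 14) (.e (nat_lit 401459) (nat_lit 13) (.e (nat_lit 483354) (nat_lit 17) (.e (nat_lit 7936) (nat_lit 343) .nil))))))) (.g (nat_lit 5) .nil .nil))))))) (.nd (nat_lit 2) (.nd (nat_lit 3) (.nd (nat_lit 4) (.nd (nat_lit 5) 
(.lf (nat_lit 23171) (.g (nat_lit 4092) (.e (nat_lit 1183) (nat_lit 87) (.e (nat_lit 57871) (nat_lit 264) (.e (nat_lit 1200) (nat_lit 88) (.e (nat_lit 65629) (nat_lit 14) (.e (nat_lit 401459) (nat_lit 13) (.e (nat_lit 483343) (nat_lit 17) (.e (nat_lit 6436) (nat_lit 343) .nil))))))) (.g (nat_lit 6) .nil .nil))) 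
(.lf (nat_lit 23203) (.g (nat_lit 4032) (.e (nat_lit 1183) (nat_lit 87) (.e (nat_lit 57872) (nat_lit 264) (.e (nat_lit 1188) (nat_lit 88) (.e (nat_lit 65630) (nat_lit 14) (.e (nat_lit 401459) (nat_lit 13) (.e (nat_lit 483344) (nat_lit 17) (.e (nat_lit 7936) (nat_lit 343) .nil))))))) (.g (nat_lit 6) .nil .nil)))) (.nd (nat_lit 5) 
(.lf (nat_lit 23187) (.g (nat_lit 5078) (.e (nat_lit 1183) (nat_lit 87) (.e (nat_lit 57872) (nat_lit 264) (.e (nat_lit 1170) (nat_lit 87) (.e (nat_lit 57480) (nat_lit 28) (.e (nat_lit 557109) (nat_lit 15) (.e (nat_lit 188452) (nat_lit 23) (.e (nat_lit 204817) (nat_lit 17) (.e (nat_lit 7936) (nat_lit 343) .nil)))))))) (.g (nat_lit 7) .nil .nil))) 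
(.lf (nat_lit 23219) (.g (nat_lit 4228) (.e (nat_lit 1183) (nat_lit 87) (.e (nat_lit 57872) (nat_lit 264) (.e (nat_lit 1190) (nat_lit 88) (.e (nat_lit 65630) (nat_lit 14) (.e (nat_lit 401459) (nat_lit 13) (.e (nat_lit 483344) (nat_lit 17) (.e (nat_lit 7936) (nat_lit 343) .nil))))))) (.g (nat_lit 6) .nil .nil))))) (.nd (nat_lit 4) (.nd (nat_lit 5) 
(.lf (nat_lit 23179) (.g (nat_lit 3962) (.e (nat_lit 1183) (nat_lit 87) (.e (nat_lit 57871) (nat_lit 264) (.e (nat_lit 1200) (nat_lit 88) (.e (nat_lit 65630) (nat_lit 14) (.e (nat_lit 401459) (nat_lit 13) (.e (nat_lit 483350) (nat_lit 17) (.e (nat_lit 7936) (nat_lit 343) .nil))))))) (.g (nat_lit 6) .nil .nil))) 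
(.lf (nat_lit 23211) (.g (nat_lit 3435) (.e (nat_lit 1183) (nat_lit 87) (.e (nat_lit 57872) (nat_lit 264) (.e (nat_lit 1190) (nat_lit 88) (.e (nat_lit 65628) (nat_lit 14) (.e (nat_lit 401459) (nat_lit 13) (.e (nat_lit 483344) (nat_lit 17) (.e (nat_lit 7936) (nat_lit 343) .nil))))))) (.g (nat_lit 6) .nil .nil)))) (.nd (nat_lit 5) 
(.lf (nat_lit 23195) (.g (nat_lit 5895) (.e (nat_lit 1183) (nat_lit 87) (.e (nat_lit 57872) (nat_lit 264) (.e (nat_lit 1181) (nat_lit 87) (.e (nat_lit 57480) (nat_lit 28) (.e (nat_lit 557109) (nat_lit 15) (.e (nat_lit 188452) (nat_lit 23) (.e (nat_lit 204817) (nat_lit 17) (.e (nat_lit 7936) (nat_lit 343) .nil)))))))) (.g (nat_lit 7) .nil .nil))) 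
(.lf (nat_lit 23227) (.g (nat_lit 3375) (.e (nat_lit 1183) (nat_lit 87) (.e (nat_lit 57872) (nat_lit 264) (.e (nat_lit 1199) (nat_lit 88) (.e (nat_lit 65628) (nat_lit 14) (.e (nat_lit 401459) (nat_lit 13) (.e (nat_lit 483347) (nat_lit 17) (.e (nat_lit 7936) (nat_lit 343) .nil))))))) (.g (nat_lit 5) .nil .nil)))))) (.nd (nat_lit 3) (.nd (nat_lit 4) (.nd (nat_lit 5) 
(.lf (nat_lit 23175) (.g (nat_lit 4248) (.e (nat_lit 1183) (nat_lit 87) (.e (nat_lit 57871) (nat_lit 264) (.e (nat_lit 1200) (nat_lit 88) (.e (nat_lit 65629) (nat_lit 14) (.e (nat_lit 401459) (nat_lit 13) (.e (nat_lit 483354) (nat_lit 17) (.e (nat_lit 7936) (nat_lit 343) .nil))))))) (.g (nat_lit 5) .nil .nil))) 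
(.lf (nat_lit 23207) (.g (nat_lit 2454) (.e (nat_lit 1183) (nat_lit 87) (.e (nat_lit 57872) (nat_lit 264) (.e (nat_lit 1190) (nat_lit 88) (.e (nat_lit 65624) (nat_lit 12) (.e (nat_lit 385093) (nat_lit 49) (.e (nat_lit 778323) (nat_lit 5) (.e (nat_lit 81664) (nat_lit 40) .nil))))))) (.g (nat_lit 5) .nil .nil)))) (.nd (nat_lit 5) 
(.lf (nat_lit 23191) (.g (nat_lit 3546) (.e (nat_lit 1183) (nat_lit 87) (.e (nat_lit 57872) (nat_lit 264) (.e (nat_lit 1172) (nat_lit 87) (.e (nat_lit 57478) (nat_lit 28) (.e (nat_lit 557108) (nat_lit 15) (.e (nat_lit 188452) (nat_lit 23) (.e (nat_lit 204817) (nat_lit 17) (.e (nat_lit 7936) (nat_lit 343) .nil)))))))) (.g (nat_lit 6) .nil .nil))) 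
(.lf (nat_lit 23223) (.g (nat_lit 2377) (.e (nat_lit 1183) (nat_lit 87) (.e (nat_lit 57872) (nat_lit 264) (.e (nat_lit 1199) (nat_lit 88) (.e (nat_lit 65624) (nat_lit 12) (.e (nat_lit 385093) (nat_lit 49) (.e (nat_lit 778323) (nat_lit 5) (.e (nat_lit 81664) (nat_lit 40) .nil))))))) (.g (nat_lit 5) .nil .nil))))) (.nd (nat_lit 4) (.nd (nat_lit 5) 
(.lf (nat_lit 23183) (.g (nat_lit 2653) (.e (nat_lit 1183) (nat_lit 87) (.e (nat_lit 57871) (nat_lit 264) (.e (nat_lit 1210) (nat_lit 89) (.e (nat_lit 73781) (nat_lit 32) (.e (nat_lit 2856) (nat_lit 184) (.e (nat_lit 426533) (nat_lit 28) (.e (nat_lit 352000) (nat_lit 8) .nil))))))) (.g (nat_lit 6) .nil .nil))) 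
(.lf (nat_lit 23215) (.g (nat_lit 2175) (.e (nat_lit 1183) (nat_lit 87) (.e (nat_lit 57872) (nat_lit 264) (.e (nat_lit 1190) (nat_lit 88) (.e (nat_lit 65630) (nat_lit 14) (.e (nat_lit 401437) (nat_lit 9) (.e (nat_lit 426533) (nat_lit 28) (.e (nat_lit 352000) (nat_lit 8) .nil))))))) (.g (nat_lit 4) .nil .nil)))) (.nd (nat_lit 5) 
(.lf (nat_lit 23199) (.g (nat_lit 1927) (.e (nat_lit 1183) (nat_lit 87) (.e (nat_lit 57872) (nat_lit 264) (.e (nat_lit 1188) (nat_lit 88) (.e (nat_lit 65630) (nat_lit 14) (.e (nat_lit 401437) (nat_lit 9) (.e (nat_lit 426533) (nat_lit 28) (.e (nat_lit 352000) (nat_lit 8) .nil))))))) (.g (nat_lit 4) .nil .nil))) 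
(.lf (nat_lit 23231) (.g (nat_lit 3414) (.e (nat_lit 1183) (nat_lit 87) (.e (nat_lit 57872) (nat_lit 264) (.e (nat_lit 1199) (nat_lit 88) (.e (nat_lit 65629) (nat_lit 14) (.e (nat_lit 401459) (nat_lit 13) (.e (nat_lit 483344) (nat_lit 17) (.e (nat_lit 6436) (nat_lit 343) .nil))))))) (.g (nat_lit 5) .nil .nil)))))))))

noncomputable def tv330 : DT := (.nd (nat_lit 0) (.nd (nat_lit 1) (.nd (nat_lit 2) (.nd (nat_lit 3) (.nd (nat_lit 4) (.nd (nat_lit 5) 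
(.lf (nat_lit 23232) (.g (nat_lit 3652) (.e (nat_lit 1183) (nat_lit 87) (.e (nat_lit 57872) (nat_lit 264) (.e (nat_lit 1199) (nat_lit 88) (.e (nat_lit 65629) (nat_lit 14) (.e (nat_lit 401459) (nat_lit 13) (.e (nat_lit 483347) (nat_lit 17) (.e (nat_lit 7936) (nat_lit 343) .nil))))))) (.g (nat_lit 5) .nil .nil))) 
(.lf (nat_lit 23264) (.g (nat_lit 3360) (.e (nat_lit 1183) (nat_lit 87) (.e (nat_lit 57872) (nat_lit 264) (.e (nat_lit 1221) (nat_lit 90) (.e (nat_lit 81956) (nat_lit 23) (.e (nat_lit 98346) (nat_lit 22) .nil))))) .nil))) (.nd (nat_lit 5) 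
(.lf (nat_lit 23248) (.g (nat_lit 3984) (.e (nat_lit 1183) (nat_lit 87) (.e (nat_lit 57872) (nat_lit 264) (.e (nat_lit 1200) (nat_lit 88) (.e (nat_lit 65629) (nat_lit 14) (.e (nat_lit 401459) (nat_lit 13) (.e (nat_lit 483343) (nat_lit 17) (.e (nat_lit 6436) (nat_lit 343) .nil))))))) (.g (nat_lit 6) .nil .nil))) 
(.lf (nat_lit 23280) (.g (nat_lit 4429) (.e (nat_lit 1183) (nat_lit 87) (.e (nat_lit 57931) (nat_lit 282) (.e (nat_lit 163867) (nat_lit 2) (.e (nat_lit 196670) (nat_lit 14) (.e (nat_lit 73746) (nat_lit 3) (.e (nat_lit 516131) (nat_lit 3) (.e (nat_lit 221212) (nat_lit 22) (.e (nat_lit 196626) (nat_lit 9) .nil)))))))) (.g (nat_lit 7) .nil .nil))))) (.nd (nat_lit 4) (.nd (nat_lit 5) 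
(.lf (nat_lit 23240) (.g (nat_lit 4425) (.e (nat_lit 1183) (nat_lit 87) (.e (nat_lit 57872) (nat_lit 264) (.e (nat_lit 1199) (nat_lit 88) (.e (nat_lit 65630) (nat_lit 14) (.e (nat_lit 401459) (nat_lit 13) (.e (nat_lit 483354) (nat_lit 17) (.e (nat_lit 7936) (nat_lit 343) .nil))))))) (.g (nat_lit 6) .nil .nil))) 
(.lf (nat_lit 23272) (.g (nat_lit 2390) (.e (nat_lit 1183) (nat_lit 87) (.e (nat_lit 57930) (nat_lit 282) (.e (nat_lit 163867) (nat_lit 2) (.e (nat_lit 196670) (nat_lit 14) (.e (nat_lit 73753) (nat_lit 8) (.e (nat_lit 557105) (nat_lit 14) (.e (nat_lit 180252) (nat_lit 10) (.e (nat_lit 573449) (nat_lit 9) .nil)))))))) (.g (nat_lit 4) .nil .nil)))) (.nd (nat_lit 5) 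
(.lf (nat_lit 23256) (.g (nat_lit 4106) (.e (nat_lit 1183) (nat_lit 87) (.e (nat_lit 57872) (nat_lit 264) (.e (nat_lit 1200) (nat_lit 88) (.e (nat_lit 65630) (nat_lit 14) (.e (nat_lit 401459) (nat_lit 13) (.e (nat_lit 483344) (nat_lit 17) (.e (nat_lit 6436) (nat_lit 343) .nil))))))) (.g (nat_lit 6) .nil .nil))) 
(.lf (nat_lit 23288) (.g (nat_lit 1793) (.e (nat_lit 1183) (nat_lit 87) (.e (nat_lit 57931) (nat_lit 282) (.e (nat_lit 163873) (nat_lit 3) (.e (nat_lit 204853) (nat_lit 26) .nil)))) .nil))))) (.nd (nat_lit 3) (.nd (nat_lit 4) (.nd (nat_lit 5) 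
(.lf (nat_lit 23236) (.g (nat_lit 5057) (.e (nat_lit 1183) (nat_lit 87) (.e (nat_lit 57872) (nat_lit 264) (.e (nat_lit 1199) (nat_lit 88) (.e (nat_lit 65630) (nat_lit 14) (.e (nat_lit 401459) (nat_lit 13) (.e (nat_lit 483344) (nat_lit 17) (.e (nat_lit 6436) (nat_lit 343) .nil))))))) (.g (nat_lit 0) .nil .nil))) 
(.lf (nat_lit 23268) (.g (nat_lit 3912) (.e (nat_lit 1183) (nat_lit 87) (.e (nat_lit 57924) (nat_lit 282) (.e (nat_lit 163867) (nat_lit 2) (.e (nat_lit 196670) (nat_lit 14) (.e (nat_lit 73746) (nat_lit 3) (.e (nat_lit 516129) (nat_lit 3) (.e (nat_lit 221210) (nat_lit 22) (.e (nat_lit 196626) (nat_lit 9) .nil)))))))) (.g (nat_lit 7) .nil .nil)))) (.nd (nat_lit 5) 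
(.lf (nat_lit 23252) (.g (nat_lit 5769) (.e (nat_lit 1183) (nat_lit 87) (.e (nat_lit 57872) (nat_lit 264) (.e (nat_lit 1200) (nat_lit 88) (.e (nat_lit 65629) (nat_lit 14) (.e (nat_lit 401459) (nat_lit 13) (.e (nat_lit 483350) (nat_lit 17) (.e (nat_lit 7936) (nat_lit 343) .nil))))))) (.g (nat_lit 6) .nil .nil))) 
(.lf (nat_lit 23284) (.g (nat_lit 3166) (.e (nat_lit 1183) (nat_lit 87) (.e (nat_lit 57931) (nat_lit 282) (.e (nat_lit 163869) (nat_lit 2) (.e (nat_lit 196670) (nat_lit 14) (.e (nat_lit 73746) (nat_lit 3) (.e (nat_lit 516129) (nat_lit 3) (.e (nat_lit 221210) (nat_lit 22) (.e (nat_lit 196630) (nat_lit 9) .nil)))))))) (.g (nat_lit 4) .nil .nil))))) (.nd (nat_lit 4) (.nd (nat_lit 5) 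
(.lf (nat_lit 23244) (.g (nat_lit 3904) (.e (nat_lit 1183) (nat_lit 87) (.e (nat_lit 57872) (nat_lit 264) (.e (nat_lit 1200) (nat_lit 88) (.e (nat_lit 65628) (nat_lit 14) (.e (nat_lit 401459) (nat_lit 13) (.e (nat_lit 483344) (nat_lit 17) (.e (nat_lit 6436) (nat_lit 343) .nil))))))) (.g (nat_lit 6) .nil .nil))) 
(.lf (nat_lit 23276) (.g (nat_lit 2411) (.e (nat_lit 1183) (nat_lit 87) (.e (nat_lit 57931) (nat_lit 282) (.e (nat_lit 163867) (nat_lit 2) (.e (nat_lit 196669) (nat_lit 14) (.e (nat_lit 73755) (nat_lit 8) (.e (nat_lit 557105) (nat_lit 14) (.e (nat_lit 180252) (nat_lit 10) (.e (nat_lit 573449) (nat_lit 9) .nil)))))))) (.g (nat_lit 4) .nil .nil)))) (.nd (nat_lit 5) 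
(.lf (nat_lit 23260) (.g (nat_lit 3046) (.e (nat_lit 1183) (nat_lit 87) (.e (nat_lit 57872) (nat_lit 264) (.e (nat_lit 1209) (nat_lit 89) (.e (nat_lit 73782) (nat_lit 32) (.e (nat_lit 2856) (nat_lit 184) (.e (nat_lit 426533) (nat_lit 28) (.e (nat_lit 352000) (nat_lit 8) .nil))))))) (.g (nat_lit 6) .nil .nil))) 
(.lf (nat_lit 23292) (.g (nat_lit 3222) (.e (nat_lit 1183) (nat_lit 87) (.e (nat_lit 57931) (nat_lit 282) (.e (nat_lit 163874) (nat_lit 3) (.e (nat_lit 204864) (nat_lit 27) (.e (nat_lit 344130) (nat_lit 26) (.e (nat_lit 557104) (nat_lit 14) (.e (nat_lit 180252) (nat_lit 10) (.e (nat_lit 573449) (nat_lit 9) .nil)))))))) (.g (nat_lit 4) .nil .nil))))))) 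
(.nd (nat_lit 2) (.nd (nat_lit 3) (.nd (nat_lit 4) (.nd (nat_lit 5) 
(.lf (nat_lit 23234) (.g (nat_lit 4538) (.e (nat_lit 1183) (nat_lit 87) (.e (nat_lit 57872) (nat_lit 264) (.e (nat_lit 1199) (nat_lit 88) (.e (nat_lit 65630) (nat_lit 14) (.e (nat_lit 401459) (nat_lit 13) (.e (nat_lit 483343) (nat_lit 17) (.e (nat_lit 6436) (nat_lit 343) .nil))))))) (.g (nat_lit 7) .nil .nil))) 
(.lf (nat_lit 23266) (.g (nat_lit 2903) (.e (nat_lit 1183) (nat_lit 87) (.e (nat_lit 57872) (nat_lit 264) (.e (nat_lit 1221) (nat_lit 90) (.e (nat_lit 81959) (nat_lit 24) (.e (nat_lit 123182) (nat_lit 264) (.e (nat_lit 1214) (nat_lit 89) (.e (nat_lit 81664) (nat_lit 40) .nil))))))) (.g (nat_lit 6) .nil .nil)))) (.nd (nat_lit 5) 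
(.lf (nat_lit 23250) (.g (nat_lit 3341) (.e (nat_lit 1183) (nat_lit 87) (.e (nat_lit 57872) (nat_lit 264) (.e (nat_lit 1200) (nat_lit 88) (.e (nat_lit 65629) (nat_lit 14) (.e (nat_lit 401459) (nat_lit 13) (.e (nat_lit 483344) (nat_lit 17) (.e (nat_lit 7936) (nat_lit 343) .nil))))))) (.g (nat_lit 5) .nil .nil))) 
(.lf (nat_lit 23282) (.g (nat_lit 2466) (.e (nat_lit 1183) (nat_lit 87) (.e (nat_lit 57931) (nat_lit 282) (.e (nat_lit 163869) (nat_lit 2) (.e (nat_lit 196670) (nat_lit 14) (.e (nat_lit 73746) (nat_lit 3) .nil))))) .nil)))) (.nd (nat_lit 4) (.nd (nat_lit 5) 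
(.lf (nat_lit 23242) (.g (nat_lit 3769) (.e (nat_lit 1183) (nat_lit 87) (.e (nat_lit 57872) (nat_lit 264) (.e (nat_lit 1200) (nat_lit 88) (.e (nat_lit 65628) (nat_lit 14) (.e (nat_lit 401459) (nat_lit 13) (.e (nat_lit 483343) (nat_lit 17) (.e (nat_lit 6436) (nat_lit 343) .nil))))))) (.g (nat_lit 7) .nil .nil))) 
(.lf (nat_lit 23274) (.g (nat_lit 2056) (.e (nat_lit 1183) (nat_lit 87) (.e (nat_lit 57931) (nat_lit 282) (.e (nat_lit 163866) (nat_lit 2) (.e (nat_lit 196670) (nat_lit 14) (.e (nat_lit 73746) (nat_lit 3) (.e (nat_lit 516129) (nat_lit 3) (.e (nat_lit 221210) (nat_lit 22) (.e (nat_lit 196626) (nat_lit 9) .nil)))))))) (.g (nat_lit 4) .nil .nil)))) (.nd (nat_lit 5) 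
(.lf (nat_lit 23258) (.g (nat_lit 3327) (.e (nat_lit 1183) (nat_lit 87) (.e (nat_lit 57872) (nat_lit 264) (.e (nat_lit 1209) (nat_lit 89) (.e (nat_lit 73781) (nat_lit 32) (.e (nat_lit 2856) (nat_lit 184) (.e (nat_lit 426533) (nat_lit 28) (.e (nat_lit 352000) (nat_lit 8) .nil))))))) (.g (nat_lit 6) .nil .nil))) 
(.lf (nat_lit 23290) (.g (nat_lit 2865) (.e (nat_lit 1183) (nat_lit 87) (.e (nat_lit 57931) (nat_lit 282) (.e (nat_lit 163874) (nat_lit 3) (.e (nat_lit 204862) (nat_lit 27) (.e (nat_lit 344117) (nat_lit 21) (.e (nat_lit 516130) (nat_lit 3) (.e (nat_lit 221212) (nat_lit 22) (.e (nat_lit 196626) (nat_lit 9) .nil)))))))) (.g (nat_lit 4) .nil .nil)))))) 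
(.nd (nat_lit 3) (.nd (nat_lit 4) (.nd (nat_lit 5) 
(.lf (nat_lit 23238) (.g (nat_lit 4285) (.e (nat_lit 1183) (nat_lit 87) (.e (nat_lit 57872) (nat_lit 264) (.e (nat_lit 1199) (nat_lit 88) (.e (nat_lit 65630) (nat_lit 14) (.e (nat_lit 401459) (nat_lit 13) (.e (nat_lit 483347) (nat_lit 17) (.e (nat_lit 7936) (nat_lit 343) .nil))))))) (.g (nat_lit 6) .nil .nil))) 
(.lf (nat_lit 23270) (.g (nat_lit 3620) (.e (nat_lit 1183) (nat_lit 87) (.e (nat_lit 57930) (nat_lit 282) (.e (nat_lit 163867) (nat_lit 2) (.e (nat_lit 196670) (nat_lit 14) (.e (nat_lit 73746) (nat_lit 3) (.e (nat_lit 516129) (nat_lit 3) (.e (nat_lit 221210) (nat_lit 22) (.e (nat_lit 196626) (nat_lit 9) .nil)))))))) (.g (nat_lit 6) .nil .nil)))) (.nd (nat_lit 5) 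
(.lf (nat_lit 23254) (.g (nat_lit 2017) (.e (nat_lit 1183) (nat_lit 87) (.e (nat_lit 57872) (nat_lit 264) (.e (nat_lit 1200) (nat_lit 88) (.e (nat_lit 65630) (nat_lit 14) (.e (nat_lit 401437) (nat_lit 9) (.e (nat_lit 426533) (nat_lit 28) (.e (nat_lit 352000) (nat_lit 8) .nil))))))) (.g (nat_lit 5) .nil .nil))) 
(.lf (nat_lit 23286) (.g (nat_lit 5150) (.e (nat_lit 1183) (nat_lit 87) (.e (nat_lit 57931) (nat_lit 282) (.e (nat_lit 163869) (nat_lit 2) (.e (nat_lit 196670) (nat_lit 14) (.e (nat_lit 73746) (nat_lit 3) (.e (nat_lit 516131) (nat_lit 3) (.e (nat_lit 221212) (nat_lit 22) (.e (nat_lit 196626) (nat_lit 9) .nil)))))))) (.g (nat_lit 0) .nil .nil))))) (.nd (nat_lit 4) (.nd (nat_lit 5) 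
(.lf (nat_lit 23246) (.g (nat_lit 4393) (.e (nat_lit 1183) (nat_lit 87) (.e (nat_lit 57872) (nat_lit 264) (.e (nat_lit 1200) (nat_lit 88) (.e (nat_lit 65628) (nat_lit 14) (.e (nat_lit 401459) (nat_lit 13) (.e (nat_lit 483350) (nat_lit 17) (.e (nat_lit 7936) (nat_lit 343) .nil))))))) (.g (nat_lit 6) .nil .nil))) 
(.lf (nat_lit 23278) (.g (nat_lit 4004) (.e (nat_lit 1183) (nat_lit 87) (.e (nat_lit 57931) (nat_lit 282) (.e (nat_lit 163867) (nat_lit 2) (.e (nat_lit 196670) (nat_lit 14) (.e (nat_lit 73746) (nat_lit 3) (.e (nat_lit 516129) (nat_lit 3) (.e (nat_lit 221210) (nat_lit 22) (.e (nat_lit 196626) (nat_lit 9) .nil)))))))) (.g (nat_lit 6) .nil .nil)))) (.nd (nat_lit 5) 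
(.lf (nat_lit 23262) (.g (nat_lit 2680) (.e (nat_lit 1183) (nat_lit 87) (.e (nat_lit 57872) (nat_lit 264) (.e (nat_lit 1211) (nat_lit 89) (.e (nat_lit 73781) (nat_lit 32) (.e (nat_lit 3090) (nat_lit 191) (.e (nat_lit 483350) (nat_lit 17) (.e (nat_lit 7936) (nat_lit 343) .nil))))))) (.g (nat_lit 6) .nil .nil))) 
(.lf (nat_lit 23294) (.g (nat_lit 3440) (.e (nat_lit 1183) (nat_lit 87) (.e (nat_lit 57931) (nat_lit 282) (.e (nat_lit 163874) (nat_lit 3) (.e (nat_lit 204872) (nat_lit 30) (.e (nat_lit 368676) (nat_lit 21) (.e (nat_lit 516131) (nat_lit 3) (.e (nat_lit 221212) (nat_lit 22) (.e (nat_lit 196626) (nat_lit 9) .nil)))))))) (.g (nat_lit 6) .nil .nil)))))))) 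
(.nd (nat_lit 1) (.nd (nat_lit 2) (.nd (nat_lit 3) (.nd (nat_lit 4) (.nd (nat_lit 5) 
(.lf (nat_lit 23233) (.g (nat_lit 2480) (.e (nat_lit 1183) (nat_lit 87) (.e (nat_lit 57872) (nat_lit 264) (.e (nat_lit 1199) (nat_lit 88) (.e (nat_lit 65630) (nat_lit 14) (.e (nat_lit 401437) (nat_lit 9) (.e (nat_lit 426533) (nat_lit 28) (.e (nat_lit 352000) (nat_lit 8) .nil))))))) (.g (nat_lit 6) .nil .nil))) 
(.lf (nat_lit 23265) (.g (nat_lit 2681) (.e (nat_lit 1183) (nat_lit 87) (.e (nat_lit 57872) (nat_lit 264) (.e (nat_lit 1221) (nat_lit 90) (.e (nat_lit 81959) (nat_lit 24) (.e (nat_lit 123182) (nat_lit 264) (.e (nat_lit 1212) (nat_lit 89) (.e (nat_lit 81664) (nat_lit 40) .nil))))))) (.g (nat_lit 5) .nil .nil)))) (.nd (nat_lit 5) 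
(.lf (nat_lit 23249) (.g (nat_lit 4193) (.e (nat_lit 1183) (nat_lit 87) (.e (nat_lit 57872) (nat_lit 264) (.e (nat_lit 1200) (nat_lit 88) (.e (nat_lit 65629) (nat_lit 14) (.e (nat_lit 401459) (nat_lit 13) (.e (nat_lit 483344) (nat_lit 17) (.e (nat_lit 6436) (nat_lit 343) .nil))))))) (.g (nat_lit 6) .nil .nil))) 
(.lf (nat_lit 23281) (.g (nat_lit 3246) (.e (nat_lit 1183) (nat_lit 87) (.e (nat_lit 57931) (nat_lit 282) (.e (nat_lit 163867) (nat_lit 2) (.e (nat_lit 196670) (nat_lit 14) (.e (nat_lit 73753) (nat_lit 8) (.e (nat_lit 557105) (nat_lit 14) (.e (nat_lit 180252) (nat_lit 10) (.e (nat_lit 573449) (nat_lit 9) .nil)))))))) (.g (nat_lit 5) .nil .nil))))) (.nd (nat_lit 4) (.nd (nat_lit 5) 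
(.lf (nat_lit 23241) (.g (nat_lit 2438) (.e (nat_lit 1183) (nat_lit 87) (.e (nat_lit 57872) (nat_lit 264) (.e (nat_lit 1200) (nat_lit 88) (.e (nat_lit 65628) (nat_lit 14) (.e (nat_lit 401437) (nat_lit 9) (.e (nat_lit 426533) (nat_lit 28) (.e (nat_lit 352000) (nat_lit 8) .nil))))))) (.g (nat_lit 5) .nil .nil))) 
(.lf (nat_lit 23273) (.g (nat_lit 3746) (.e (nat_lit 1183) (nat_lit 87) (.e (nat_lit 57930) (nat_lit 282) (.e (nat_lit 163869) (nat_lit 2) (.e (nat_lit 196670) (nat_lit 14) (.e (nat_lit 73746) (nat_lit 3) (.e (nat_lit 516131) (nat_lit 3) (.e (nat_lit 221212) (nat_lit 22) (.e (nat_lit 196626) (nat_lit 9) .nil)))))))) (.g (nat_lit 7) .nil .nil)))) (.nd (nat_lit 5) 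
(.lf (nat_lit 23257) (.g (nat_lit 4035) (.e (nat_lit 1183) (nat_lit 87) (.e (nat_lit 57872) (nat_lit 264) (.e (nat_lit 1200) (nat_lit 88) (.e (nat_lit 65630) (nat_lit 14) (.e (nat_lit 401459) (nat_lit 13) (.e (nat_lit 483350) (nat_lit 17) (.e (nat_lit 7936) (nat_lit 343) .nil))))))) (.g (nat_lit 6) .nil .nil))) 
(.lf (nat_lit 23289) (.g (nat_lit 1883) (.e (nat_lit 1183) (nat_lit 87) (.e (nat_lit 57931) (nat_lit 282) (.e (nat_lit 163873) (nat_lit 3) (.e (nat_lit 204872) (nat_lit 30) .nil)))) .nil))))) (.nd (nat_lit 3) (.nd (nat_lit 4) (.nd (nat_lit 5) 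
(.lf (nat_lit 23237) (.g (nat_lit 4102) (.e (nat_lit 1183) (nat_lit 87) (.e (nat_lit 57872) (nat_lit 264) (.e (nat_lit 1199) (nat_lit 88) (.e (nat_lit 65630) (nat_lit 14) (.e (nat_lit 401459) (nat_lit 13) (.e (nat_lit 483344) (nat_lit 17) (.e (nat_lit 7936) (nat_lit 343) .nil))))))) (.g (nat_lit 6) .nil .nil))) 
(.lf (nat_lit 23269) (.g (nat_lit 2942) (.e (nat_lit 1183) (nat_lit 87) (.e (nat_lit 57929) (nat_lit 282) (.e (nat_lit 163869) (nat_lit 2) (.e (nat_lit 196670) (nat_lit 14) (.e (nat_lit 73746) (nat_lit 3) (.e (nat_lit 516131) (nat_lit 3) (.e (nat_lit 221212) (nat_lit 22) (.e (nat_lit 196626) (nat_lit 9) .nil)))))))) (.g (nat_lit 6) .nil .nil)))) (.nd (nat_lit 5) 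
(.lf (nat_lit 23253) (.g (nat_lit 4212) (.e (nat_lit 1183) (nat_lit 87) (.e (nat_lit 57872) (nat_lit 264) (.e (nat_lit 1200) (nat_lit 88) (.e (nat_lit 65629) (nat_lit 14) (.e (nat_lit 401459) (nat_lit 13) (.e (nat_lit 483354) (nat_lit 17) (.e (nat_lit 7936) (nat_lit 343) .nil))))))) (.g (nat_lit 5) .nil .nil))) 
(.lf (nat_lit 23285) (.g (nat_lit 2486) (.e (nat_lit 1183) (nat_lit 87) (.e (nat_lit 57931) (nat_lit 282) (.e (nat_lit 163869) (nat_lit 2) (.e (nat_lit 196670) (nat_lit 14) (.e (nat_lit 73746) (nat_lit 3) (.e (nat_lit 516131) (nat_lit 3) (.e (nat_lit 221212) (nat_lit 22) (.e (nat_lit 196623) (nat_lit 9) .nil)))))))) (.g (nat_lit 4) .nil .nil))))) (.nd (nat_lit 4) (.nd (nat_lit 5) 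
(.lf (nat_lit 23245) (.g (nat_lit 3740) (.e (nat_lit 1183) (nat_lit 87) (.e (nat_lit 57872) (nat_lit 264) (.e (nat_lit 1200) (nat_lit 88) (.e (nat_lit 65628) (nat_lit 14) (.e (nat_lit 401459) (nat_lit 13) (.e (nat_lit 483347) (nat_lit 17) (.e (nat_lit 7936) (nat_lit 343) .nil))))))) (.g (nat_lit 6) .nil .nil))) 
(.lf (nat_lit 23277) (.g (nat_lit 2166) (.e (nat_lit 1183) (nat_lit 87) (.e (nat_lit 57931) (nat_lit 282) (.e (nat_lit 163867) (nat_lit 2) (.e (nat_lit 196670) (nat_lit 14) (.e (nat_lit 73746) (nat_lit 3) .nil))))) .nil))) (.nd (nat_lit 5) 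
(.lf (nat_lit 23261) (.g (nat_lit 2761) (.e (nat_lit 1183) (nat_lit 87) (.e (nat_lit 57872) (nat_lit 264) (.e (nat_lit 1211) (nat_lit 89) (.e (nat_lit 73781) (nat_lit 32) (.e (nat_lit 2856) (nat_lit 184) (.e (nat_lit 426533) (nat_lit 28) (.e (nat_lit 352000) (nat_lit 8) .nil))))))) (.g (nat_lit 6) .nil .nil))) 
(.lf (nat_lit 23293) (.g (nat_lit 4316) (.e (nat_lit 1183) (nat_lit 87) (.e (nat_lit 57931) (nat_lit 282) (.e (nat_lit 163874) (nat_lit 3) (.e (nat_lit 204864) (nat_lit 27) (.e (nat_lit 344132) (nat_lit 26) (.e (nat_lit 557105) (nat_lit 14) (.e (nat_lit 180252) (nat_lit 10) (.e (nat_lit 573449) (nat_lit 9) .nil)))))))) (.g (nat_lit 6) .nil .nil))))))) 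
(.nd (nat_lit 2) (.nd (nat_lit 3) (.nd (nat_lit 4) (.nd (nat_lit 5) 
(.lf (nat_lit 23235) (.g (nat_lit 4055) (.e (nat_lit 1183) (nat_lit 87) (.e (nat_lit 57872) (nat_lit 264) (.e (nat_lit 1199) (nat_lit 88) (.e (nat_lit 65630) (nat_lit 14) (.e (nat_lit 401459) (nat_lit 13) (.e (nat_lit 483344) (nat_lit 17) (.e (nat_lit 6434) (nat_lit 343) .nil))))))) (.g (nat_lit 6) .nil .nil))) 
(.lf (nat_lit 23267) (.g (nat_lit 5770) (.e (nat_lit 1183) (nat_lit 87) (.e (nat_lit 57872) (nat_lit 264) (.e (nat_lit 1221) (nat_lit 90) (.e (nat_lit 81959) (nat_lit 24) (.e (nat_lit 123195) (nat_lit 266) (.e (nat_lit 57400) (nat_lit 10) (.e (nat_lit 319490) (nat_lit 0) (.e (nat_lit 5270) (nat_lit 298) .nil)))))))) (.g (nat_lit 8) .nil .nil)))) (.nd (nat_lit 5) 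
(.lf (nat_lit 23251) (.g (nat_lit 4358) (.e (nat_lit 1183) (nat_lit 87) (.e (nat_lit 57872) (nat_lit 264) (.e (nat_lit 1200) (nat_lit 88) (.e (nat_lit 65629) (nat_lit 14) (.e (nat_lit 401459) (nat_lit 13) (.e (nat_lit 483347) (nat_lit 17) (.e (nat_lit 7936) (nat_lit 343) .nil))))))) (.g (nat_lit 6) .nil .nil))) 
(.lf (nat_lit 23283) (.g (nat_lit 4743) (.e (nat_lit 1183) (nat_lit 87) (.e (nat_lit 57931) (nat_lit 282) (.e (nat_lit 163869) (nat_lit 2) (.e (nat_lit 196670) (nat_lit 14) (.e (nat_lit 73746) (nat_lit 3) (.e (nat_lit 516129) (nat_lit 3) (.e (nat_lit 221210) (nat_lit 22) (.e (nat_lit 196626) (nat_lit 9) .nil)))))))) (.g (nat_lit 7) .nil .nil))))) (.nd (nat_lit 4) (.nd (nat_lit 5) 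
(.lf (nat_lit 23243) (.g (nat_lit 2903) (.e (nat_lit 1183) (nat_lit 87) (.e (nat_lit 57872) (nat_lit 264) (.e (nat_lit 1200) (nat_lit 88) (.e (nat_lit 65628) (nat_lit 14) (.e (nat_lit 401459) (nat_lit 13) (.e (nat_lit 483344) (nat_lit 17) (.e (nat_lit 6434) (nat_lit 343) .nil))))))) (.g (nat_lit 5) .nil .nil))) 
(.lf (nat_lit 23275) (.g (nat_lit 2460) (.e (nat_lit 1183) (nat_lit 87) (.e (nat_lit 57931) (nat_lit 282) (.e (nat_lit 163866) (nat_lit 2) (.e (nat_lit 196670) (nat_lit 14) (.e (nat_lit 73746) (nat_lit 3) (.e (nat_lit 516131) (nat_lit 3) (.e (nat_lit 221212) (nat_lit 22) (.e (nat_lit 196626) (nat_lit 9) .nil)))))))) (.g (nat_lit 5) .nil .nil)))) (.nd (nat_lit 5) 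
(.lf (nat_lit 23259) (.g (nat_lit 3228) (.e (nat_lit 1183) (nat_lit 87) (.e (nat_lit 57872) (nat_lit 264) (.e (nat_lit 1209) (nat_lit 89) (.e (nat_lit 73781) (nat_lit 32) (.e (nat_lit 3090) (nat_lit 191) (.e (nat_lit 483350) (nat_lit 17) (.e (nat_lit 7936) (nat_lit 343) .nil))))))) (.g (nat_lit 6) .nil .nil))) 
(.lf (nat_lit 23291) (.g (nat_lit 2718) (.e (nat_lit 1183) (nat_lit 87) (.e (nat_lit 57931) (nat_lit 282) (.e (nat_lit 163874) (nat_lit 3) (.e (nat_lit 204863) (nat_lit 27) (.e (nat_lit 344117) (nat_lit 21) (.e (nat_lit 516130) (nat_lit 3) (.e (nat_lit 221212) (nat_lit 22) (.e (nat_lit 196626) (nat_lit 9) .nil)))))))) (.g (nat_lit 4) .nil .nil)))))) 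
(.nd (nat_lit 3) (.nd (nat_lit 4) (.nd (nat_lit 5) 
(.lf (nat_lit 23239) (.g (nat_lit 4681) (.e (nat_lit 1183) (nat_lit 87) (.e (nat_lit 57872) (nat_lit 264) (.e (nat_lit 1199) (nat_lit 88) (.e (nat_lit 65630) (nat_lit 14) (.e (nat_lit 401459) (nat_lit 13) (.e (nat_lit 483350) (nat_lit 17) (.e (nat_lit 7936) (nat_lit 343) .nil))))))) (.g (nat_lit 6) .nil .nil))) 
(.lf (nat_lit 23271) (.g (nat_lit 4045) (.e (nat_lit 1183) (nat_lit 87) (.e (nat_lit 57930) (nat_lit 282) (.e (nat_lit 163867) (nat_lit 2) (.e (nat_lit 196670) (nat_lit 14) (.e (nat_lit 73746) (nat_lit 3) (.e (nat_lit 516131) (nat_lit 3) (.e (nat_lit 221212) (nat_lit 22) (.e (nat_lit 196626) (nat_lit 9) .nil)))))))) (.g (nat_lit 7) .nil .nil)))) (.nd (nat_lit 5) 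
(.lf (nat_lit 23255) (.g (nat_lit 3371) (.e (nat_lit 1183) (nat_lit 87) (.e (nat_lit 57872) (nat_lit 264) (.e (nat_lit 1200) (nat_lit 88) (.e (nat_lit 65630) (nat_lit 14) (.e (nat_lit 401459) (nat_lit 13) (.e (nat_lit 483343) (nat_lit 17) (.e (nat_lit 6436) (nat_lit 343) .nil))))))) (.g (nat_lit 5) .nil .nil))) 
(.lf (nat_lit 23287) (.g (nat_lit 3505) (.e (nat_lit 1183) (nat_lit 87) (.e (nat_lit 57931) (nat_lit 282) (.e (nat_lit 163869) (nat_lit 2) (.e (nat_lit 196670) (nat_lit 14) (.e (nat_lit 73753) (nat_lit 8) (.e (nat_lit 557105) (nat_lit 14) (.e (nat_lit 180252) (nat_lit 10) (.e (nat_lit 573449) (nat_lit 9) .nil)))))))) (.g (nat_lit 5) .nil .nil))))) (.nd (nat_lit 4) (.nd (nat_lit 5) 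
(.lf (nat_lit 23247) (.g (nat_lit 3656) (.e (nat_lit 1183) (nat_lit 87) (.e (nat_lit 57872) (nat_lit 264) (.e (nat_lit 1200) (nat_lit 88) (.e (nat_lit 65628) (nat_lit 14) (.e (nat_lit 401459) (nat_lit 13) (.e (nat_lit 483354) (nat_lit 17) (.e (nat_lit 7936) (nat_lit 343) .nil))))))) (.g (nat_lit 6) .nil .nil))) 
(.lf (nat_lit 23279) (.g (nat_lit 2434) (.e (nat_lit 1183) (nat_lit 87) (.e (nat_lit 57931) (nat_lit 282) (.e (nat_lit 163867) (nat_lit 2) (.e (nat_lit 196670) (nat_lit 14) (.e (nat_lit 73746) (nat_lit 3) (.e (nat_lit 516129) (nat_lit 3) (.e (nat_lit 221210) (nat_lit 22) (.e (nat_lit 196630) (nat_lit 9) .nil)))))))) (.g (nat_lit 4) .nil .nil)))) (.nd (nat_lit 5) 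
(.lf (nat_lit 23263) (.g (nat_lit 1986) (.e (nat_lit 1183) (nat_lit 87) (.e (nat_lit 57872) (nat_lit 264) (.e (nat_lit 1211) (nat_lit 89) (.e (nat_lit 73782) (nat_lit 32) (.e (nat_lit 2856) (nat_lit 184) (.e (nat_lit 426533) (nat_lit 28) (.e (nat_lit 352000) (nat_lit 8) .nil))))))) (.g (nat_lit 5) .nil .nil))) 
(.lf (nat_lit 23295) (.g (nat_lit 3444) (.e (nat_lit 1184) (nat_lit 87) (.e (nat_lit 57464) (nat_lit 23) (.e (nat_lit 516130) (nat_lit 3) (.e (nat_lit 221212) (nat_lit 22) (.e (nat_lit 196670) (nat_lit 14) (.e (nat_lit 73746) (nat_lit 3) (.e (nat_lit 516115) (nat_lit 1) (.e (nat_lit 164156) (nat_lit 152) .nil)))))))) (.g (nat_lit 0) .nil .nil)))))))))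

noncomputable def tv331 : DT := (.nd (nat_lit 0) (.nd (nat_lit 1) (.nd (nat_lit 2) (.nd (nat_lit 3) (.nd (nat_lit 4) (.nd (nat_lit 5) 
(.lf (nat_lit 23296) (.g (nat_lit 1749) (.e (nat_lit 1184) (nat_lit 87) (.e (nat_lit 57477) (nat_lit 28) (.e (nat_lit 557108) (nat_lit 15) (.e (nat_lit 188446) (nat_lit 21) .nil)))) .nil)) 
(.lf (nat_lit 23328) (.g (nat_lit 2218) (.e (nat_lit 1185) (nat_lit 87) (.e (nat_lit 57477) (nat_lit 28) (.e (nat_lit 557108) (nat_lit 15) (.e (nat_lit 188446) (nat_lit 21) (.e (nat_lit 164177) (nat_lit 154) .nil))))) .nil))) (.nd (nat_lit 5) 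
(.lf (nat_lit 23312) (.g (nat_lit 2603) (.e (nat_lit 1184) (nat_lit 87) (.e (nat_lit 57931) (nat_lit 282) (.e (nat_lit 163869) (nat_lit 2) (.e (nat_lit 196670) (nat_lit 14) (.e (nat_lit 73746) (nat_lit 3) .nil))))) .nil)) 
(.lf (nat_lit 23344) (.g (nat_lit 5178) (.e (nat_lit 1185) (nat_lit 87) (.e (nat_lit 57479) (nat_lit 28) (.e (nat_lit 557105) (nat_lit 14) (.e (nat_lit 180252) (nat_lit 10) (.e (nat_lit 573488) (nat_lit 14) (.e (nat_lit 73747) (nat_lit 3) (.e (nat_lit 516115) (nat_lit 1) (.e (nat_lit 164151) (nat_lit 152) .nil)))))))) (.g (nat_lit 6) .nil .nil))))) (.nd (nat_lit 4) (.nd (nat_lit 5) 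
(.lf (nat_lit 23304) (.g (nat_lit 2299) (.e (nat_lit 1184) (nat_lit 87) (.e (nat_lit 57849) (nat_lit 252) (.e (nat_lit 57372) (nat_lit 2) (.e (nat_lit 90128) (nat_lit 9) (.e (nat_lit 297) (nat_lit 22) .nil))))) .nil)) 
(.lf (nat_lit 23336) (.g (nat_lit 2645) (.e (nat_lit 1185) (nat_lit 87) (.e (nat_lit 57479) (nat_lit 28) (.e (nat_lit 557105) (nat_lit 14) (.e (nat_lit 180251) (nat_lit 10) (.e (nat_lit 573485) (nat_lit 13) (.e (nat_lit 65570) (nat_lit 3) (.e (nat_lit 98333) (nat_lit 18) (.e (nat_lit 164151) (nat_lit 152) .nil)))))))) (.g (nat_lit 4) .nil .nil)))) (.nd (nat_lit 5) 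
(.lf (nat_lit 23320) (.g (nat_lit 2738) (.e (nat_lit 1185) (nat_lit 87) (.e (nat_lit 57476) (nat_lit 28) (.e (nat_lit 557108) (nat_lit 15) (.e (nat_lit 188446) (nat_lit 21) (.e (nat_lit 164177) (nat_lit 154) (.e (nat_lit 57390) (nat_lit 5) (.e (nat_lit 114711) (nat_lit 21) (.e (nat_lit 57653) (nat_lit 152) .nil)))))))) (.g (nat_lit 5) .nil .nil))) 
(.lf (nat_lit 23352) (.g (nat_lit 1660) (.e (nat_lit 1185) (nat_lit 87) (.e (nat_lit 57480) (nat_lit 28) (.e (nat_lit 557105) (nat_lit 14) (.e (nat_lit 180250) (nat_lit 10) .nil)))) .nil))))) (.nd (nat_lit 3) (.nd (nat_lit 4) (.nd (nat_lit 5) 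
(.lf (nat_lit 23300) (.g (nat_lit 2048) (.e (nat_lit 1184) (nat_lit 87) (.e (nat_lit 57480) (nat_lit 28) (.e (nat_lit 557108) (nat_lit 15) (.e (nat_lit 188446) (nat_lit 21) .nil)))) .nil)) 
(.lf (nat_lit 23332) (.g (nat_lit 2411) (.e (nat_lit 1185) (nat_lit 87) (.e (nat_lit 57477) (nat_lit 28) (.e (nat_lit 557108) (nat_lit 15) (.e (nat_lit 188446) (nat_lit 21) (.e (nat_lit 164179) (nat_lit 154) .nil))))) .nil))) (.nd (nat_lit 5) 
(.lf (nat_lit 23316) (.g (nat_lit 2688) (.e (nat_lit 1185) (nat_lit 87) (.e (nat_lit 57476) (nat_lit 28) (.e (nat_lit 557108) (nat_lit 15) (.e (nat_lit 188446) (nat_lit 21) (.e (nat_lit 164176) (nat_lit 154) .nil))))) .nil)) 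
(.lf (nat_lit 23348) (.g (nat_lit 2692) (.e (nat_lit 1185) (nat_lit 87) (.e (nat_lit 57479) (nat_lit 28) (.e (nat_lit 557109) (nat_lit 15) (.e (nat_lit 188446) (nat_lit 21) .nil)))) .nil)))) (.nd (nat_lit 4) (.nd (nat_lit 5) 
(.lf (nat_lit 23308) (.g (nat_lit 2105) (.e (nat_lit 1184) (nat_lit 87) (.e (nat_lit 57849) (nat_lit 252) (.e (nat_lit 57411) (nat_lit 12) (.e (nat_lit 336211) (nat_lit 13) (.e (nat_lit 393291) (nat_lit 26) .nil))))) .nil)) 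
(.lf (nat_lit 23340) (.g (nat_lit 3957) (.e (nat_lit 1185) (nat_lit 87) (.e (nat_lit 57479) (nat_lit 28) (.e (nat_lit 557105) (nat_lit 14) (.e (nat_lit 180252) (nat_lit 10) (.e (nat_lit 573487) (nat_lit 14) (.e (nat_lit 81664) (nat_lit 5) (.e (nat_lit 532490) (nat_lit 0) (.e (nat_lit 1040) (nat_lit 81) (.e (nat_lit 7147) (nat_lit 382) .nil))))))))) (.g (nat_lit 5) .nil .nil)))) (.nd (nat_lit 5) 
(.lf (nat_lit 23324) (.g (nat_lit 2733) (.e (nat_lit 1185) (nat_lit 87) (.e (nat_lit 57477) (nat_lit 28) (.e (nat_lit 557103) (nat_lit 14) (.e (nat_lit 180250) (nat_lit 10) (.e (nat_lit 573487) (nat_lit 14) (.e (nat_lit 81664) (nat_lit 5) (.e (nat_lit 532490) (nat_lit 0) (.e (nat_lit 1040) (nat_lit 81) (.e (nat_lit 7147) (nat_lit 382) .nil))))))))) (.g (nat_lit 5) .nil .nil))) 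
(.lf (nat_lit 23356) (.g (nat_lit 4200) (.e (nat_lit 1185) (nat_lit 87) (.e (nat_lit 57480) (nat_lit 28) (.e (nat_lit 557105) (nat_lit 14) (.e (nat_lit 180252) (nat_lit 10) (.e (nat_lit 573488) (nat_lit 14) (.e (nat_lit 73747) (nat_lit 3) (.e (nat_lit 516119) (nat_lit 1) (.e (nat_lit 164149) (nat_lit 152) .nil)))))))) (.g (nat_lit 8) .nil .nil))))))) 
(.nd (nat_lit 2) (.nd (nat_lit 3) (.nd (nat_lit 4) (.nd (nat_lit 5) 
(.lf (nat_lit 23298) (.g (nat_lit 3956) (.e (nat_lit 1184) (nat_lit 87) (.e (nat_lit 57479) (nat_lit 28) (.e (nat_lit 557105) (nat_lit 14) (.e (nat_lit 180252) (nat_lit 10) (.e (nat_lit 573489) (nat_lit 14) (.e (nat_lit 73755) (nat_lit 8) (.e (nat_lit 557090) (nat_lit 12) (.e (nat_lit 163844) (nat_lit 0) (.e (nat_lit 5117) (nat_lit 292) .nil))))))))) (.g (nat_lit 9) .nil .nil))) 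
(.lf (nat_lit 23330) (.g (nat_lit 2359) (.e (nat_lit 1185) (nat_lit 87) (.e (nat_lit 57477) (nat_lit 28) (.e (nat_lit 557108) (nat_lit 15) (.e (nat_lit 188446) (nat_lit 21) (.e (nat_lit 164178) (nat_lit 154) .nil))))) .nil))) (.nd (nat_lit 5) 
(.lf (nat_lit 23314) (.g (nat_lit 3747) (.e (nat_lit 1185) (nat_lit 87) (.e (nat_lit 57476) (nat_lit 28) (.e (nat_lit 557103) (nat_lit 14) (.e (nat_lit 180250) (nat_lit 10) (.e (nat_lit 573487) (nat_lit 14) (.e (nat_lit 81664) (nat_lit 5) (.e (nat_lit 532499) (nat_lit 1) (.e (nat_lit 57655) (nat_lit 152) .nil)))))))) (.g (nat_lit 7) .nil .nil))) 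
(.lf (nat_lit 23346) (.g (nat_lit 1668) (.e (nat_lit 1185) (nat_lit 87) (.e (nat_lit 57479) (nat_lit 28) (.e (nat_lit 557107) (nat_lit 15) (.e (nat_lit 196352) (nat_lit 18) .nil)))) .nil)))) (.nd (nat_lit 4) (.nd (nat_lit 5) 
(.lf (nat_lit 23306) (.g (nat_lit 1129) (.e (nat_lit 1184) (nat_lit 87) (.e (nat_lit 57849) (nat_lit 252) (.e (nat_lit 57410) (nat_lit 12) (.e (nat_lit 336211) (nat_lit 13) .nil)))) .nil)) 
(.lf (nat_lit 23338) (.g (nat_lit 3140) (.e (nat_lit 1185) (nat_lit 87) (.e (nat_lit 57479) (nat_lit 28) (.e (nat_lit 557105) (nat_lit 14) (.e (nat_lit 180252) (nat_lit 10) (.e (nat_lit 573487) (nat_lit 14) .nil))))) .nil))) (.nd (nat_lit 5) 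
(.lf (nat_lit 23322) (.g (nat_lit 4877) (.e (nat_lit 1185) (nat_lit 87) (.e (nat_lit 57476) (nat_lit 28) (.e (nat_lit 557108) (nat_lit 15) (.e (nat_lit 188446) (nat_lit 21) (.e (nat_lit 164178) (nat_lit 154) (.e (nat_lit 57390) (nat_lit 5) (.e (nat_lit 114711) (nat_lit 21) (.e (nat_lit 57655) (nat_lit 152) .nil)))))))) (.g (nat_lit 0) .nil .nil))) 
(.lf (nat_lit 23354) (.g (nat_lit 2291) (.e (nat_lit 1185) (nat_lit 87) (.e (nat_lit 57480) (nat_lit 28) (.e (nat_lit 557105) (nat_lit 14) (.e (nat_lit 180252) (nat_lit 10) (.e (nat_lit 573481) (nat_lit 13) (.e (nat_lit 65571) (nat_lit 3) (.e (nat_lit 98325) (nat_lit 17) (.e (nat_lit 2478) (nat_lit 157) (.e (nat_lit 6273) (nat_lit 337) .nil))))))))) (.g (nat_lit 4) .nil .nil)))))) 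
(.nd (nat_lit 3) (.nd (nat_lit 4) (.nd (nat_lit 5) 
(.lf (nat_lit 23302) (.g (nat_lit 3579) (.e (nat_lit 1184) (nat_lit 87) (.e (nat_lit 57480) (nat_lit 28) (.e (nat_lit 557108) (nat_lit 15) (.e (nat_lit 188446) (nat_lit 21) (.e (nat_lit 164177) (nat_lit 154) .nil))))) .nil)) 
(.lf (nat_lit 23334) (.g (nat_lit 2185) (.e (nat_lit 1185) (nat_lit 87) (.e (nat_lit 57479) (nat_lit 28) (.e (nat_lit 557103) (nat_lit 14) (.e (nat_lit 180250) (nat_lit 10) (.e (nat_lit 573487) (nat_lit 14) (.e (nat_lit 81664) (nat_lit 5) (.e (nat_lit 532499) (nat_lit 1) (.e (nat_lit 57655) (nat_lit 152) .nil)))))))) (.g (nat_lit 4) .nil .nil)))) (.nd (nat_lit 5) 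
(.lf (nat_lit 23318) (.g (nat_lit 3717) (.e (nat_lit 1185) (nat_lit 87) (.e (nat_lit 57476) (nat_lit 28) (.e (nat_lit 557108) (nat_lit 15) (.e (nat_lit 188446) (nat_lit 21) (.e (nat_lit 164177) (nat_lit 154) (.e (nat_lit 57388) (nat_lit 5) (.e (nat_lit 114710) (nat_lit 21) (.e (nat_lit 57655) (nat_lit 152) .nil)))))))) (.g (nat_lit 6) .nil .nil))) 
(.lf (nat_lit 23350) (.g (nat_lit 1449) (.e (nat_lit 1185) (nat_lit 87) (.e (nat_lit 57480) (nat_lit 28) (.e (nat_lit 557103) (nat_lit 14) (.e (nat_lit 180250) (nat_lit 10) .nil)))) .nil)))) (.nd (nat_lit 4) (.nd (nat_lit 5) 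
(.lf (nat_lit 23310) (.g (nat_lit 2326) (.e (nat_lit 1184) (nat_lit 87) (.e (nat_lit 57849) (nat_lit 252) (.e (nat_lit 57437) (nat_lit 17) (.e (nat_lit 376842) (nat_lit 11) (.e (nat_lit 426306) (nat_lit 12) .nil))))) .nil)) 
(.lf (nat_lit 23342) (.g (nat_lit 4375) (.e (nat_lit 1185) (nat_lit 87) (.e (nat_lit 57479) (nat_lit 28) (.e (nat_lit 557105) (nat_lit 14) (.e (nat_lit 180252) (nat_lit 10) (.e (nat_lit 573488) (nat_lit 14) (.e (nat_lit 73747) (nat_lit 3) (.e (nat_lit 516115) (nat_lit 1) (.e (nat_lit 164148) (nat_lit 152) .nil)))))))) (.g (nat_lit 5) .nil .nil)))) (.nd (nat_lit 5) 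
(.lf (nat_lit 23326) (.g (nat_lit 3154) (.e (nat_lit 1185) (nat_lit 87) (.e (nat_lit 57477) (nat_lit 28) (.e (nat_lit 557105) (nat_lit 14) (.e (nat_lit 180252) (nat_lit 10) (.e (nat_lit 573488) (nat_lit 14) .nil))))) .nil)) 
(.lf (nat_lit 23358) (.g (nat_lit 2079) (.e (nat_lit 1185) (nat_lit 87) (.e (nat_lit 57480) (nat_lit 28) (.e (nat_lit 557105) (nat_lit 14) (.e (nat_lit 180252) (nat_lit 10) (.e (nat_lit 573488) (nat_lit 14) (.e (nat_lit 81664) (nat_lit 5) (.e (nat_lit 532490) (nat_lit 0) (.e (nat_lit 1023) (nat_lit 81) (.e (nat_lit 7147) (nat_lit 382) .nil))))))))) (.g (nat_lit 4) .nil .nil)))))))) 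
(.nd (nat_lit 1) (.nd (nat_lit 2) (.nd (nat_lit 3) (.nd (nat_lit 4) (.nd (nat_lit 5) 
(.lf (nat_lit 23297) (.g (nat_lit 3399) (.e (nat_lit 1184) (nat_lit 87) (.e (nat_lit 57479) (nat_lit 28) (.e (nat_lit 557105) (nat_lit 14) (.e (nat_lit 180252) (nat_lit 10) (.e (nat_lit 573481) (nat_lit 13) .nil))))) .nil)) 
(.lf (nat_lit 23329) (.g (nat_lit 3395) (.e (nat_lit 1185) (nat_lit 87) (.e (nat_lit 57477) (nat_lit 28) (.e (nat_lit 557108) (nat_lit 15) (.e (nat_lit 188446) (nat_lit 21) (.e (nat_lit 164177) (nat_lit 154) (.e (nat_lit 57388) (nat_lit 5) (.e (nat_lit 114710) (nat_lit 21) (.e (nat_lit 57655) (nat_lit 152) .nil)))))))) (.g (nat_lit 6) .nil .nil)))) (.nd (nat_lit 5) 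
(.lf (nat_lit 23313) (.g (nat_lit 1731) (.e (nat_lit 1185) (nat_lit 87) (.e (nat_lit 57476) (nat_lit 28) (.e (nat_lit 557067) (nat_lit 9) (.e (nat_lit 2998) (nat_lit 186) .nil)))) .nil)) 
(.lf (nat_lit 23345) (.g (nat_lit 2069) (.e (nat_lit 1185) (nat_lit 87) (.e (nat_lit 57479) (nat_lit 28) (.e (nat_lit 557105) (nat_lit 14) (.e (nat_lit 180252) (nat_lit 10) (.e (nat_lit 573489) (nat_lit 14) .nil))))) .nil)))) (.nd (nat_lit 4) (.nd (nat_lit 5) 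
(.lf (nat_lit 23305) (.g (nat_lit 1491) (.e (nat_lit 1184) (nat_lit 87) (.e (nat_lit 57849) (nat_lit 252) (.e (nat_lit 57407) (nat_lit 12) (.e (nat_lit 336211) (nat_lit 13) .nil)))) .nil)) 
(.lf (nat_lit 23337) (.g (nat_lit 3407) (.e (nat_lit 1185) (nat_lit 87) (.e (nat_lit 57479) (nat_lit 28) (.e (nat_lit 557105) (nat_lit 14) (.e (nat_lit 180252) (nat_lit 10) (.e (nat_lit 573481) (nat_lit 13) .nil))))) .nil))) (.nd (nat_lit 5) 
(.lf (nat_lit 23321) (.g (nat_lit 2636) (.e (nat_lit 1185) (nat_lit 87) (.e (nat_lit 57476) (nat_lit 28) (.e (nat_lit 557108) (nat_lit 15) (.e (nat_lit 188446) (nat_lit 21) (.e (nat_lit 164178) (nat_lit 154) .nil))))) .nil)) 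
(.lf (nat_lit 23353) (.g (nat_lit 1661) (.e (nat_lit 1185) (nat_lit 87) (.e (nat_lit 57480) (nat_lit 28) (.e (nat_lit 557105) (nat_lit 14) (.e (nat_lit 180251) (nat_lit 10) .nil)))) .nil))))) (.nd (nat_lit 3) (.nd (nat_lit 4) (.nd (nat_lit 5) 
(.lf (nat_lit 23301) (.g (nat_lit 3780) (.e (nat_lit 1184) (nat_lit 87) (.e (nat_lit 57480) (nat_lit 28) (.e (nat_lit 557108) (nat_lit 15) (.e (nat_lit 188446) (nat_lit 21) (.e (nat_lit 164176) (nat_lit 154) .nil))))) .nil)) 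
(.lf (nat_lit 23333) (.g (nat_lit 2260) (.e (nat_lit 1185) (nat_lit 87) (.e (nat_lit 57479) (nat_lit 28) (.e (nat_lit 557103) (nat_lit 14) (.e (nat_lit 180250) (nat_lit 10) (.e (nat_lit 573487) (nat_lit 14) (.e (nat_lit 73747) (nat_lit 3) (.e (nat_lit 516115) (nat_lit 1) (.e (nat_lit 164151) (nat_lit 152) .nil)))))))) (.g (nat_lit 4) .nil .nil)))) (.nd (nat_lit 5) 
(.lf (nat_lit 23317) (.g (nat_lit 2495) (.e (nat_lit 1185) (nat_lit 87) (.e (nat_lit 57476) (nat_lit 28) (.e (nat_lit 557108) (nat_lit 15) (.e (nat_lit 188446) (nat_lit 21) (.e (nat_lit 164177) (nat_lit 154) .nil))))) .nil)) 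
(.lf (nat_lit 23349) (.g (nat_lit 4100) (.e (nat_lit 1185) (nat_lit 87) (.e (nat_lit 57479) (nat_lit 28) (.e (nat_lit 557109) (nat_lit 15) (.e (nat_lit 188446) (nat_lit 21) (.e (nat_lit 164178) (nat_lit 154) .nil))))) .nil)))) (.nd (nat_lit 4) (.nd (nat_lit 5) 
(.lf (nat_lit 23309) (.g (nat_lit 2164) (.e (nat_lit 1184) (nat_lit 87) (.e (nat_lit 57849) (nat_lit 252) (.e (nat_lit 57435) (nat_lit 17) (.e (nat_lit 376842) (nat_lit 11) (.e (nat_lit 426306) (nat_lit 12) .nil))))) .nil)) 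
(.lf (nat_lit 23341) (.g (nat_lit 3469) (.e (nat_lit 1185) (nat_lit 87) (.e (nat_lit 57479) (nat_lit 28) (.e (nat_lit 557105) (nat_lit 14) (.e (nat_lit 180252) (nat_lit 10) (.e (nat_lit 573488) (nat_lit 14) .nil))))) .nil))) (.nd (nat_lit 5) 
(.lf (nat_lit 23325) (.g (nat_lit 3103) (.e (nat_lit 1185) (nat_lit 87) (.e (nat_lit 57477) (nat_lit 28) (.e (nat_lit 557104) (nat_lit 14) (.e (nat_lit 180252) (nat_lit 10) (.e (nat_lit 573488) (nat_lit 14) (.e (nat_lit 73747) (nat_lit 3) (.e (nat_lit 516119) (nat_lit 1) (.e (nat_lit 164149) (nat_lit 152) .nil)))))))) (.g (nat_lit 7) .nil .nil))) 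
(.lf (nat_lit 23357) (.g (nat_lit 4197) (.e (nat_lit 1185) (nat_lit 87) (.e (nat_lit 57480) (nat_lit 28) (.e (nat_lit 557105) (nat_lit 14) (.e (nat_lit 180252) (nat_lit 10) (.e (nat_lit 573488) (nat_lit 14) (.e (nat_lit 73747) (nat_lit 3) (.e (nat_lit 516119) (nat_lit 1) (.e (nat_lit 164151) (nat_lit 152) .nil)))))))) (.g (nat_lit 7) .nil .nil))))))) 
(.nd (nat_lit 2) (.nd (nat_lit 3) (.nd (nat_lit 4) (.nd (nat_lit 5) 
(.lf (nat_lit 23299) (.g (nat_lit 2673) (.e (nat_lit 1184) (nat_lit 87) (.e (nat_lit 57480) (nat_lit 28) (.e (nat_lit 557105) (nat_lit 14) (.e (nat_lit 180251) (nat_lit 10) (.e (nat_lit 573485) (nat_lit 13) .nil))))) .nil)) 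
(.lf (nat_lit 23331) (.g (nat_lit 4551) (.e (nat_lit 1185) (nat_lit 87) (.e (nat_lit 57477) (nat_lit 28) (.e (nat_lit 557108) (nat_lit 15) (.e (nat_lit 188446) (nat_lit 21) (.e (nat_lit 164178) (nat_lit 154) (.e (nat_lit 57390) (nat_lit 5) (.e (nat_lit 114711) (nat_lit 21) (.e (nat_lit 57655) (nat_lit 152) .nil)))))))) (.g (nat_lit 0) .nil .nil)))) (.nd (nat_lit 5) 
(.lf (nat_lit 23315) (.g (nat_lit 1725) (.e (nat_lit 1185) (nat_lit 87) (.e (nat_lit 57476) (nat_lit 28) (.e (nat_lit 557108) (nat_lit 15) (.e (nat_lit 196352) (nat_lit 18) .nil)))) .nil)) 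
(.lf (nat_lit 23347) (.g (nat_lit 913) (.e (nat_lit 1185) (nat_lit 87) (.e (nat_lit 57479) (nat_lit 28) (.e (nat_lit 557109) (nat_lit 15) .nil))) .nil)))) (.nd (nat_lit 4) (.nd (nat_lit 5) 
(.lf (nat_lit 23307) (.g (nat_lit 1568) (.e (nat_lit 1184) (nat_lit 87) (.e (nat_lit 57849) (nat_lit 252) (.e (nat_lit 57411) (nat_lit 12) (.e (nat_lit 336211) (nat_lit 13) .nil)))) .nil)) 
(.lf (nat_lit 23339) (.g (nat_lit 3668) (.e (nat_lit 1185) (nat_lit 87) (.e (nat_lit 57479) (nat_lit 28) (.e (nat_lit 557105) (nat_lit 14) (.e (nat_lit 180252) (nat_lit 10) (.e (nat_lit 573487) (nat_lit 14) (.e (nat_lit 73747) (nat_lit 3) (.e (nat_lit 516119) (nat_lit 1) (.e (nat_lit 164150) (nat_lit 152) .nil)))))))) (.g (nat_lit 5) .nil .nil)))) (.nd (nat_lit 5) 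
(.lf (nat_lit 23323) (.g (nat_lit 2688) (.e (nat_lit 1185) (nat_lit 87) (.e (nat_lit 57476) (nat_lit 28) (.e (nat_lit 557108) (nat_lit 15) (.e (nat_lit 188446) (nat_lit 21) (.e (nat_lit 164179) (nat_lit 154) .nil))))) .nil)) 
(.lf (nat_lit 23355) (.g (nat_lit 2073) (.e (nat_lit 1185) (nat_lit 87) (.e (nat_lit 57480) (nat_lit 28) (.e (nat_lit 557105) (nat_lit 14) (.e (nat_lit 180252) (nat_lit 10) (.e (nat_lit 573488) (nat_lit 14) .nil))))) .nil))))) (.nd (nat_lit 3) (.nd (nat_lit 4) (.nd (nat_lit 5) 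
(.lf (nat_lit 23303) (.g (nat_lit 2049) (.e (nat_lit 1184) (nat_lit 87) (.e (nat_lit 57480) (nat_lit 28) (.e (nat_lit 557109) (nat_lit 15) (.e (nat_lit 188446) (nat_lit 21) .nil)))) .nil)) 
(.lf (nat_lit 23335) (.g (nat_lit 1692) (.e (nat_lit 1185) (nat_lit 87) (.e (nat_lit 57479) (nat_lit 28) (.e (nat_lit 557105) (nat_lit 14) (.e (nat_lit 180251) (nat_lit 10) .nil)))) .nil))) (.nd (nat_lit 5) 
(.lf (nat_lit 23319) (.g (nat_lit 2792) (.e (nat_lit 1185) (nat_lit 87) (.e (nat_lit 57476) (nat_lit 28) (.e (nat_lit 557108) (nat_lit 15) (.e (nat_lit 188446) (nat_lit 21) (.e (nat_lit 164177) (nat_lit 154) (.e (nat_lit 57388) (nat_lit 5) (.e (nat_lit 114711) (nat_lit 21) (.e (nat_lit 57655) (nat_lit 152) .nil)))))))) (.g (nat_lit 5) .nil .nil))) 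
(.lf (nat_lit 23351) (.g (nat_lit 2963) (.e (nat_lit 1185) (nat_lit 87) (.e (nat_lit 57480) (nat_lit 28) (.e (nat_lit 557104) (nat_lit 14) (.e (nat_lit 180252) (nat_lit 10) (.e (nat_lit 573488) (nat_lit 14) .nil))))) .nil)))) (.nd (nat_lit 4) (.nd (nat_lit 5) 
(.lf (nat_lit 23311) (.g (nat_lit 2327) (.e (nat_lit 1184) (nat_lit 87) (.e (nat_lit 57849) (nat_lit 252) (.e (nat_lit 57437) (nat_lit 17) (.e (nat_lit 376842) (nat_lit 11) (.e (nat_lit 426306) (nat_lit 12) (.e (nat_lit 475201) (nat_lit 40) (.e (nat_lit 704642) (nat_lit 9) .nil))))))) (.g (nat_lit 4) .nil .nil))) 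
(.lf (nat_lit 23343) (.g (nat_lit 3627) (.e (nat_lit 1185) (nat_lit 87) (.e (nat_lit 57479) (nat_lit 28) (.e (nat_lit 557105) (nat_lit 14) (.e (nat_lit 180252) (nat_lit 10) (.e (nat_lit 573488) (nat_lit 14) (.e (nat_lit 73747) (nat_lit 3) (.e (nat_lit 516115) (nat_lit 1) (.e (nat_lit 164150) (nat_lit 152) .nil)))))))) (.g (nat_lit 4) .nil .nil)))) (.nd (nat_lit 5) 
(.lf (nat_lit 23327) (.g (nat_lit 2411) (.e (nat_lit 1185) (nat_lit 87) (.e (nat_lit 57477) (nat_lit 28) (.e (nat_lit 557108) (nat_lit 15) (.e (nat_lit 188446) (nat_lit 21) (.e (nat_lit 164176) (nat_lit 154) .nil))))) .nil)) 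
(.lf (nat_lit 23359) (.g (nat_lit 2110) (.e (nat_lit 1185) (nat_lit 87) (.e (nat_lit 57480) (nat_lit 28) (.e (nat_lit 557105) (nat_lit 14) (.e (nat_lit 180252) (nat_lit 10) (.e (nat_lit 573488) (nat_lit 14) (.e (nat_lit 81664) (nat_lit 5) (.e (nat_lit 532498) (nat_lit 1) (.e (nat_lit 57655) (nat_lit 152) .nil)))))))) (.g (nat_lit 4) .nil .nil)))))))))

noncomputable def tv332 : DT := (.nd (nat_lit 0) (.nd (nat_lit 1) (.nd (nat_lit 2) (.nd (nat_lit 3) (.nd (nat_lit 4) (.nd (nat_lit 5) 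
(.lf (nat_lit 23360) (.g (nat_lit 2407) (.e (nat_lit 1185) (nat_lit 87) (.e (nat_lit 57480) (nat_lit 28) (.e (nat_lit 557105) (nat_lit 14) (.e (nat_lit 180252) (nat_lit 10) (.e (nat_lit 573489) (nat_lit 14) .nil))))) .nil)) 
(.lf (nat_lit 23392) (.g (nat_lit 1775) (.e (nat_lit 1186) (nat_lit 87) (.e (nat_lit 57476) (nat_lit 28) (.e (nat_lit 557067) (nat_lit 9) (.e (nat_lit 2998) (nat_lit 186) .nil)))) .nil))) (.nd (nat_lit 5) 
(.lf (nat_lit 23376) (.g (nat_lit 2891) (.e (nat_lit 1185) (nat_lit 87) (.e (nat_lit 57480) (nat_lit 28) (.e (nat_lit 557109) (nat_lit 15) (.e (nat_lit 188446) (nat_lit 21) (.e (nat_lit 164177) (nat_lit 154) .nil))))) .nil)) 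
(.lf (nat_lit 23408) (.g (nat_lit 2983) (.e (nat_lit 1186) (nat_lit 87) (.e (nat_lit 57476) (nat_lit 28) (.e (nat_lit 557108) (nat_lit 15) (.e (nat_lit 188446) (nat_lit 21) (.e (nat_lit 164178) (nat_lit 154) (.e (nat_lit 57390) (nat_lit 5) (.e (nat_lit 114711) (nat_lit 21) (.e (nat_lit 57651) (nat_lit 152) .nil)))))))) (.g (nat_lit 4) .nil .nil))))) (.nd (nat_lit 4) (.nd (nat_lit 5) 
(.lf (nat_lit 23368) (.g (nat_lit 3593) (.e (nat_lit 1185) (nat_lit 87) (.e (nat_lit 57480) (nat_lit 28) (.e (nat_lit 557108) (nat_lit 15) (.e (nat_lit 188446) (nat_lit 21) (.e (nat_lit 164178) (nat_lit 154) .nil))))) .nil)) 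
(.lf (nat_lit 23400) (.g (nat_lit 2757) (.e (nat_lit 1186) (nat_lit 87) (.e (nat_lit 57476) (nat_lit 28) (.e (nat_lit 557104) (nat_lit 14) (.e (nat_lit 180252) (nat_lit 10) (.e (nat_lit 573488) (nat_lit 14) (.e (nat_lit 81664) (nat_lit 5) (.e (nat_lit 532499) (nat_lit 1) (.e (nat_lit 57655) (nat_lit 152) .nil)))))))) (.g (nat_lit 5) .nil .nil)))) (.nd (nat_lit 5) 
(.lf (nat_lit 23384) (.g (nat_lit 3723) (.e (nat_lit 1186) (nat_lit 87) (.e (nat_lit 57464) (nat_lit 23) (.e (nat_lit 516130) (nat_lit 3) (.e (nat_lit 221212) (nat_lit 22) (.e (nat_lit 196668) (nat_lit 14) (.e (nat_lit 73747) (nat_lit 3) (.e (nat_lit 516119) (nat_lit 1) (.e (nat_lit 164149) (nat_lit 152) .nil)))))))) (.g (nat_lit 8) .nil .nil))) 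
(.lf (nat_lit 23416) (.g (nat_lit 3797) (.e (nat_lit 1186) (nat_lit 87) (.e (nat_lit 57849) (nat_lit 252) (.e (nat_lit 57375) (nat_lit 2) (.e (nat_lit 90160) (nat_lit 11) (.e (nat_lit 24607) (nat_lit 3) .nil))))) .nil))))) (.nd (nat_lit 3) (.nd (nat_lit 4) (.nd (nat_lit 5) 
(.lf (nat_lit 23364) (.g (nat_lit 3342) (.e (nat_lit 1185) (nat_lit 87) (.e (nat_lit 57480) (nat_lit 28) (.e (nat_lit 557108) (nat_lit 15) (.e (nat_lit 188446) (nat_lit 21) (.e (nat_lit 164177) (nat_lit 154) .nil))))) .nil)) 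
(.lf (nat_lit 23396) (.g (nat_lit 2763) (.e (nat_lit 1186) (nat_lit 87) (.e (nat_lit 57476) (nat_lit 28) (.e (nat_lit 557104) (nat_lit 14) (.e (nat_lit 180252) (nat_lit 10) (.e (nat_lit 573481) (nat_lit 13) (.e (nat_lit 65570) (nat_lit 3) (.e (nat_lit 98333) (nat_lit 18) (.e (nat_lit 164151) (nat_lit 152) .nil)))))))) (.g (nat_lit 5) .nil .nil)))) (.nd (nat_lit 5) 
(.lf (nat_lit 23380) (.g (nat_lit 4826) (.e (nat_lit 1186) (nat_lit 87) (.e (nat_lit 57464) (nat_lit 23) (.e (nat_lit 516129) (nat_lit 3) (.e (nat_lit 221210) (nat_lit 22) (.e (nat_lit 196668) (nat_lit 14) (.e (nat_lit 73747) (nat_lit 3) (.e (nat_lit 516115) (nat_lit 1) (.e (nat_lit 164151) (nat_lit 152) .nil)))))))) (.g (nat_lit 0) .nil .nil))) 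
(.lf (nat_lit 23412) (.g (nat_lit 2065) (.e (nat_lit 1186) (nat_lit 87) (.e (nat_lit 57849) (nat_lit 252) (.e (nat_lit 57372) (nat_lit 2) (.e (nat_lit 90133) (nat_lit 9) .nil)))) .nil)))) (.nd (nat_lit 4) (.nd (nat_lit 5) 
(.lf (nat_lit 23372) (.g (nat_lit 2505) (.e (nat_lit 1185) (nat_lit 87) (.e (nat_lit 57480) (nat_lit 28) (.e (nat_lit 557109) (nat_lit 15) (.e (nat_lit 188422) (nat_lit 11) .nil)))) .nil)) 
(.lf (nat_lit 23404) (.g (nat_lit 2733) (.e (nat_lit 1186) (nat_lit 87) (.e (nat_lit 57476) (nat_lit 28) (.e (nat_lit 557108) (nat_lit 15) (.e (nat_lit 188446) (nat_lit 21) (.e (nat_lit 164177) (nat_lit 154) (.e (nat_lit 57389) (nat_lit 5) (.e (nat_lit 114710) (nat_lit 21) (.e (nat_lit 57655) (nat_lit 152) .nil)))))))) (.g (nat_lit 4) .nil .nil)))) (.nd (nat_lit 5) 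
(.lf (nat_lit 23388) (.g (nat_lit 3263) (.e (nat_lit 1186) (nat_lit 87) (.e (nat_lit 57464) (nat_lit 23) (.e (nat_lit 516130) (nat_lit 3) (.e (nat_lit 221212) (nat_lit 22) (.e (nat_lit 196670) (nat_lit 14) (.e (nat_lit 73746) (nat_lit 3) (.e (nat_lit 516117) (nat_lit 1) (.e (nat_lit 164147) (nat_lit 152) .nil)))))))) (.g (nat_lit 8) .nil .nil))) 
(.lf (nat_lit 23420) (.g (nat_lit 3327) (.e (nat_lit 1186) (nat_lit 87) (.e (nat_lit 57849) (nat_lit 252) (.e (nat_lit 57377) (nat_lit 3) (.e (nat_lit 98313) (nat_lit 9) (.e (nat_lit 336027) (nat_lit 3) (.e (nat_lit 98342) (nat_lit 20) (.e (nat_lit 221212) (nat_lit 22) (.e (nat_lit 196624) (nat_lit 9) .nil)))))))) (.g (nat_lit 6) .nil .nil))))))) 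
(.nd (nat_lit 2) (.nd (nat_lit 3) (.nd (nat_lit 4) (.nd (nat_lit 5) 
(.lf (nat_lit 23362) (.g (nat_lit 2110) (.e (nat_lit 1185) (nat_lit 87) (.e (nat_lit 57480) (nat_lit 28) (.e (nat_lit 557108) (nat_lit 15) (.e (nat_lit 196352) (nat_lit 18) .nil)))) .nil)) 
(.lf (nat_lit 23394) (.g (nat_lit 1749) (.e (nat_lit 1186) (nat_lit 87) (.e (nat_lit 57476) (nat_lit 28) (.e (nat_lit 557103) (nat_lit 14) (.e (nat_lit 180250) (nat_lit 10) (.e (nat_lit 573489) (nat_lit 14) .nil))))) .nil))) (.nd (nat_lit 5) 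
(.lf (nat_lit 23378) (.g (nat_lit 3038) (.e (nat_lit 1185) (nat_lit 87) (.e (nat_lit 57480) (nat_lit 28) (.e (nat_lit 557109) (nat_lit 15) (.e (nat_lit 188446) (nat_lit 21) (.e (nat_lit 164178) (nat_lit 154) (.e (nat_lit 57390) (nat_lit 5) (.e (nat_lit 114711) (nat_lit 21) (.e (nat_lit 57653) (nat_lit 152) .nil)))))))) (.g (nat_lit 4) .nil .nil))) 
(.lf (nat_lit 23410) (.g (nat_lit 3608) (.e (nat_lit 1186) (nat_lit 87) (.e (nat_lit 57476) (nat_lit 28) (.e (nat_lit 557108) (nat_lit 15) (.e (nat_lit 188446) (nat_lit 21) (.e (nat_lit 164178) (nat_lit 154) (.e (nat_lit 57390) (nat_lit 5) (.e (nat_lit 114711) (nat_lit 21) (.e (nat_lit 57655) (nat_lit 152) .nil)))))))) (.g (nat_lit 6) .nil .nil))))) (.nd (nat_lit 4) (.nd (nat_lit 5) 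
(.lf (nat_lit 23370) (.g (nat_lit 3543) (.e (nat_lit 1185) (nat_lit 87) (.e (nat_lit 57480) (nat_lit 28) (.e (nat_lit 557108) (nat_lit 15) (.e (nat_lit 188446) (nat_lit 21) (.e (nat_lit 164179) (nat_lit 154) .nil))))) .nil)) 
(.lf (nat_lit 23402) (.g (nat_lit 1919) (.e (nat_lit 1186) (nat_lit 87) (.e (nat_lit 57476) (nat_lit 28) (.e (nat_lit 557108) (nat_lit 15) (.e (nat_lit 188446) (nat_lit 21) .nil)))) .nil))) (.nd (nat_lit 5) 
(.lf (nat_lit 23386) (.g (nat_lit 3881) (.e (nat_lit 1186) (nat_lit 87) (.e (nat_lit 57464) (nat_lit 23) (.e (nat_lit 516130) (nat_lit 3) (.e (nat_lit 221212) (nat_lit 22) (.e (nat_lit 196670) (nat_lit 14) (.e (nat_lit 73746) (nat_lit 3) (.e (nat_lit 516115) (nat_lit 1) (.e (nat_lit 164150) (nat_lit 152) .nil)))))))) (.g (nat_lit 0) .nil .nil))) 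
(.lf (nat_lit 23418) (.g (nat_lit 606) (.e (nat_lit 1186) (nat_lit 87) (.e (nat_lit 57849) (nat_lit 252) (.e (nat_lit 57377) (nat_lit 3) .nil))) .nil))))) (.nd (nat_lit 3) (.nd (nat_lit 4) (.nd (nat_lit 5) 
(.lf (nat_lit 23366) (.g (nat_lit 3626) (.e (nat_lit 1185) (nat_lit 87) (.e (nat_lit 57480) (nat_lit 28) (.e (nat_lit 557108) (nat_lit 15) (.e (nat_lit 188446) (nat_lit 21) (.e (nat_lit 164177) (nat_lit 154) (.e (nat_lit 57388) (nat_lit 5) (.e (nat_lit 114711) (nat_lit 21) (.e (nat_lit 57655) (nat_lit 152) .nil)))))))) (.g (nat_lit 5) .nil .nil))) 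
(.lf (nat_lit 23398) (.g (nat_lit 4222) (.e (nat_lit 1186) (nat_lit 87) (.e (nat_lit 57476) (nat_lit 28) (.e (nat_lit 557104) (nat_lit 14) (.e (nat_lit 180252) (nat_lit 10) (.e (nat_lit 573488) (nat_lit 14) (.e (nat_lit 73747) (nat_lit 3) (.e (nat_lit 516119) (nat_lit 1) (.e (nat_lit 164149) (nat_lit 152) .nil)))))))) (.g (nat_lit 0) .nil .nil)))) (.nd (nat_lit 5) 
(.lf (nat_lit 23382) (.g (nat_lit 4790) (.e (nat_lit 1186) (nat_lit 87) (.e (nat_lit 57464) (nat_lit 23) (.e (nat_lit 516129) (nat_lit 3) (.e (nat_lit 221210) (nat_lit 22) (.e (nat_lit 196668) (nat_lit 14) (.e (nat_lit 73747) (nat_lit 3) (.e (nat_lit 516119) (nat_lit 1) (.e (nat_lit 164150) (nat_lit 152) .nil)))))))) (.g (nat_lit 8) .nil .nil))) 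
(.lf (nat_lit 23414) (.g (nat_lit 2799) (.e (nat_lit 1186) (nat_lit 87) (.e (nat_lit 57849) (nat_lit 252) (.e (nat_lit 57372) (nat_lit 2) (.e (nat_lit 90160) (nat_lit 11) (.e (nat_lit 24608) (nat_lit 3) .nil))))) .nil)))) (.nd (nat_lit 4) (.nd (nat_lit 5) 
(.lf (nat_lit 23374) (.g (nat_lit 2670) (.e (nat_lit 1185) (nat_lit 87) (.e (nat_lit 57480) (nat_lit 28) (.e (nat_lit 557109) (nat_lit 15) (.e (nat_lit 188444) (nat_lit 21) .nil)))) .nil)) 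
(.lf (nat_lit 23406) (.g (nat_lit 2544) (.e (nat_lit 1186) (nat_lit 87) (.e (nat_lit 57476) (nat_lit 28) (.e (nat_lit 557108) (nat_lit 15) (.e (nat_lit 188446) (nat_lit 21) (.e (nat_lit 164177) (nat_lit 154) (.e (nat_lit 57390) (nat_lit 5) (.e (nat_lit 114711) (nat_lit 21) (.e (nat_lit 57655) (nat_lit 152) .nil)))))))) (.g (nat_lit 4) .nil .nil)))) (.nd (nat_lit 5) 
(.lf (nat_lit 23390) (.g (nat_lit 3886) (.e (nat_lit 1186) (nat_lit 87) (.e (nat_lit 57464) (nat_lit 23) (.e (nat_lit 516130) (nat_lit 3) (.e (nat_lit 221212) (nat_lit 22) (.e (nat_lit 196670) (nat_lit 14) (.e (nat_lit 73746) (nat_lit 3) (.e (nat_lit 516119) (nat_lit 1) (.e (nat_lit 164150) (nat_lit 152) .nil)))))))) (.g (nat_lit 8) .nil .nil))) 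
(.lf (nat_lit 23422) (.g (nat_lit 4635) (.e (nat_lit 1186) (nat_lit 87) (.e (nat_lit 57849) (nat_lit 252) (.e (nat_lit 57377) (nat_lit 3) (.e (nat_lit 98317) (nat_lit 9) (.e (nat_lit 336026) (nat_lit 3) .nil))))) .nil))))))) (.nd (nat_lit 1) (.nd (nat_lit 2) (.nd (nat_lit 3) (.nd (nat_lit 4) (.nd (nat_lit 5) 
(.lf (nat_lit 23361) (.g (nat_lit 566) (.e (nat_lit 1185) (nat_lit 87) (.e (nat_lit 57480) (nat_lit 28) (.e (nat_lit 557107) (nat_lit 15) .nil))) .nil)) 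
(.lf (nat_lit 23393) (.g (nat_lit 3824) (.e (nat_lit 1186) (nat_lit 87) (.e (nat_lit 57476) (nat_lit 28) (.e (nat_lit 557103) (nat_lit 14) (.e (nat_lit 180250) (nat_lit 10) (.e (nat_lit 573487) (nat_lit 14) (.e (nat_lit 73747) (nat_lit 3) (.e (nat_lit 516119) (nat_lit 1) (.e (nat_lit 164149) (nat_lit 152) .nil)))))))) (.g (nat_lit 6) .nil .nil)))) (.nd (nat_lit 5) 
(.lf (nat_lit 23377) (.g (nat_lit 2986) (.e (nat_lit 1185) (nat_lit 87) (.e (nat_lit 57480) (nat_lit 28) (.e (nat_lit 557109) (nat_lit 15) (.e (nat_lit 188446) (nat_lit 21) (.e (nat_lit 164178) (nat_lit 154) .nil))))) .nil)) 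
(.lf (nat_lit 23409) (.g (nat_lit 3192) (.e (nat_lit 1186) (nat_lit 87) (.e (nat_lit 57476) (nat_lit 28) (.e (nat_lit 557108) (nat_lit 15) (.e (nat_lit 188446) (nat_lit 21) (.e (nat_lit 164178) (nat_lit 154) (.e (nat_lit 57390) (nat_lit 5) (.e (nat_lit 114711) (nat_lit 21) (.e (nat_lit 57653) (nat_lit 152) .nil)))))))) (.g (nat_lit 5) .nil .nil))))) (.nd (nat_lit 4) (.nd (nat_lit 5) 
(.lf (nat_lit 23369) (.g (nat_lit 5706) (.e (nat_lit 1185) (nat_lit 87) (.e (nat_lit 57480) (nat_lit 28) (.e (nat_lit 557108) (nat_lit 15) (.e (nat_lit 188446) (nat_lit 21) (.e (nat_lit 164178) (nat_lit 154) (.e (nat_lit 57390) (nat_lit 5) (.e (nat_lit 114711) (nat_lit 21) (.e (nat_lit 57655) (nat_lit 152) .nil)))))))) (.g (nat_lit 0) .nil .nil))) 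
(.lf (nat_lit 23401) (.g (nat_lit 1739) (.e (nat_lit 1186) (nat_lit 87) (.e (nat_lit 57476) (nat_lit 28) (.e (nat_lit 557108) (nat_lit 15) (.e (nat_lit 196352) (nat_lit 18) .nil)))) .nil))) (.nd (nat_lit 5) 
(.lf (nat_lit 23385) (.g (nat_lit 3928) (.e (nat_lit 1186) (nat_lit 87) (.e (nat_lit 57464) (nat_lit 23) (.e (nat_lit 516130) (nat_lit 3) (.e (nat_lit 221212) (nat_lit 22) (.e (nat_lit 196668) (nat_lit 14) (.e (nat_lit 73747) (nat_lit 3) (.e (nat_lit 516119) (nat_lit 1) (.e (nat_lit 164150) (nat_lit 152) .nil)))))))) (.g (nat_lit 8) .nil .nil))) 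
(.lf (nat_lit 23417) (.g (nat_lit 3272) (.e (nat_lit 1186) (nat_lit 87) (.e (nat_lit 57849) (nat_lit 252) (.e (nat_lit 57375) (nat_lit 2) (.e (nat_lit 90160) (nat_lit 11) (.e (nat_lit 24608) (nat_lit 3) .nil))))) .nil))))) (.nd (nat_lit 3) (.nd (nat_lit 4) (.nd (nat_lit 5) 
(.lf (nat_lit 23365) (.g (nat_lit 4548) (.e (nat_lit 1185) (nat_lit 87) (.e (nat_lit 57480) (nat_lit 28) (.e (nat_lit 557108) (nat_lit 15) (.e (nat_lit 188446) (nat_lit 21) (.e (nat_lit 164177) (nat_lit 154) (.e (nat_lit 57388) (nat_lit 5) (.e (nat_lit 114710) (nat_lit 21) (.e (nat_lit 57655) (nat_lit 152) .nil)))))))) (.g (nat_lit 6) .nil .nil))) 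
(.lf (nat_lit 23397) (.g (nat_lit 2625) (.e (nat_lit 1186) (nat_lit 87) (.e (nat_lit 57476) (nat_lit 28) (.e (nat_lit 557104) (nat_lit 14) (.e (nat_lit 180252) (nat_lit 10) (.e (nat_lit 573488) (nat_lit 14) (.e (nat_lit 73747) (nat_lit 3) (.e (nat_lit 516119) (nat_lit 1) (.e (nat_lit 164147) (nat_lit 152) .nil)))))))) (.g (nat_lit 5) .nil .nil)))) (.nd (nat_lit 5) 
(.lf (nat_lit 23381) (.g (nat_lit 4575) (.e (nat_lit 1186) (nat_lit 87) (.e (nat_lit 57464) (nat_lit 23) (.e (nat_lit 516129) (nat_lit 3) (.e (nat_lit 221210) (nat_lit 22) (.e (nat_lit 196668) (nat_lit 14) (.e (nat_lit 73747) (nat_lit 3) (.e (nat_lit 516119) (nat_lit 1) (.e (nat_lit 164149) (nat_lit 152) .nil)))))))) (.g (nat_lit 0) .nil .nil))) 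
(.lf (nat_lit 23413) (.g (nat_lit 1824) (.e (nat_lit 1186) (nat_lit 87) (.e (nat_lit 57849) (nat_lit 252) (.e (nat_lit 57372) (nat_lit 2) (.e (nat_lit 90160) (nat_lit 11) .nil)))) .nil)))) (.nd (nat_lit 4) (.nd (nat_lit 5) 
(.lf (nat_lit 23373) (.g (nat_lit 2327) (.e (nat_lit 1185) (nat_lit 87) (.e (nat_lit 57480) (nat_lit 28) (.e (nat_lit 557109) (nat_lit 15) (.e (nat_lit 196352) (nat_lit 18) .nil)))) .nil)) 
(.lf (nat_lit 23405) (.g (nat_lit 2743) (.e (nat_lit 1186) (nat_lit 87) (.e (nat_lit 57476) (nat_lit 28) (.e (nat_lit 557108) (nat_lit 15) (.e (nat_lit 188446) (nat_lit 21) (.e (nat_lit 164177) (nat_lit 154) (.e (nat_lit 57389) (nat_lit 5) (.e (nat_lit 114711) (nat_lit 21) (.e (nat_lit 57655) (nat_lit 152) .nil)))))))) (.g (nat_lit 4) .nil .nil)))) (.nd (nat_lit 5) 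
(.lf (nat_lit 23389) (.g (nat_lit 3466) (.e (nat_lit 1186) (nat_lit 87) (.e (nat_lit 57464) (nat_lit 23) (.e (nat_lit 516130) (nat_lit 3) (.e (nat_lit 221212) (nat_lit 22) (.e (nat_lit 196670) (nat_lit 14) (.e (nat_lit 73746) (nat_lit 3) (.e (nat_lit 516119) (nat_lit 1) (.e (nat_lit 164149) (nat_lit 152) .nil)))))))) (.g (nat_lit 8) .nil .nil))) 
(.lf (nat_lit 23421) (.g (nat_lit 5106) (.e (nat_lit 1186) (nat_lit 87) (.e (nat_lit 57849) (nat_lit 252) (.e (nat_lit 57377) (nat_lit 3) (.e (nat_lit 98317) (nat_lit 9) (.e (nat_lit 336020) (nat_lit 3) .nil))))) .nil)))))) (.nd (nat_lit 2) (.nd (nat_lit 3) (.nd (nat_lit 4) (.nd (nat_lit 5) 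
(.lf (nat_lit 23363) (.g (nat_lit 3543) (.e (nat_lit 1185) (nat_lit 87) (.e (nat_lit 57480) (nat_lit 28) (.e (nat_lit 557108) (nat_lit 15) (.e (nat_lit 188446) (nat_lit 21) (.e (nat_lit 164176) (nat_lit 154) .nil))))) .nil)) 
(.lf (nat_lit 23395) (.g (nat_lit 1306) (.e (nat_lit 1186) (nat_lit 87) (.e (nat_lit 57476) (nat_lit 28) (.e (nat_lit 557104) (nat_lit 14) (.e (nat_lit 180250) (nat_lit 10) .nil)))) .nil))) (.nd (nat_lit 5) 
(.lf (nat_lit 23379) (.g (nat_lit 4593) (.e (nat_lit 1186) (nat_lit 87) (.e (nat_lit 57464) (nat_lit 23) (.e (nat_lit 516129) (nat_lit 3) (.e (nat_lit 221210) (nat_lit 22) (.e (nat_lit 196668) (nat_lit 14) (.e (nat_lit 73747) (nat_lit 3) (.e (nat_lit 516115) (nat_lit 1) (.e (nat_lit 164150) (nat_lit 152) .nil)))))))) (.g (nat_lit 8) .nil .nil))) 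
(.lf (nat_lit 23411) (.g (nat_lit 1718) (.e (nat_lit 1186) (nat_lit 87) (.e (nat_lit 57849) (nat_lit 252) (.e (nat_lit 57372) (nat_lit 2) (.e (nat_lit 90128) (nat_lit 9) .nil)))) .nil)))) (.nd (nat_lit 4) (.nd (nat_lit 5) 
(.lf (nat_lit 23371) (.g (nat_lit 2716) (.e (nat_lit 1185) (nat_lit 87) (.e (nat_lit 57480) (nat_lit 28) (.e (nat_lit 557109) (nat_lit 15) (.e (nat_lit 188421) (nat_lit 11) .nil)))) .nil)) 
(.lf (nat_lit 23403) (.g (nat_lit 2511) (.e (nat_lit 1186) (nat_lit 87) (.e (nat_lit 57476) (nat_lit 28) (.e (nat_lit 557108) (nat_lit 15) (.e (nat_lit 188446) (nat_lit 21) (.e (nat_lit 164177) (nat_lit 154) .nil))))) .nil))) (.nd (nat_lit 5) 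
(.lf (nat_lit 23387) (.g (nat_lit 4270) (.e (nat_lit 1186) (nat_lit 87) (.e (nat_lit 57464) (nat_lit 23) (.e (nat_lit 516130) (nat_lit 3) (.e (nat_lit 221212) (nat_lit 22) (.e (nat_lit 196670) (nat_lit 14) (.e (nat_lit 73746) (nat_lit 3) (.e (nat_lit 516115) (nat_lit 1) (.e (nat_lit 164151) (nat_lit 152) .nil)))))))) (.g (nat_lit 0) .nil .nil))) 
(.lf (nat_lit 23419) (.g (nat_lit 2158) (.e (nat_lit 1186) (nat_lit 87) (.e (nat_lit 57849) (nat_lit 252) (.e (nat_lit 57377) (nat_lit 3) (.e (nat_lit 98313) (nat_lit 9) (.e (nat_lit 336027) (nat_lit 3) (.e (nat_lit 98341) (nat_lit 20) (.e (nat_lit 221212) (nat_lit 22) (.e (nat_lit 196624) (nat_lit 9) .nil)))))))) (.g (nat_lit 4) .nil .nil)))))) (.nd (nat_lit 3) (.nd (nat_lit 4) (.nd (nat_lit 5) 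
(.lf (nat_lit 23367) (.g (nat_lit 3587) (.e (nat_lit 1185) (nat_lit 87) (.e (nat_lit 57480) (nat_lit 28) (.e (nat_lit 557108) (nat_lit 15) (.e (nat_lit 188446) (nat_lit 21) (.e (nat_lit 164177) (nat_lit 154) (.e (nat_lit 57390) (nat_lit 5) (.e (nat_lit 114711) (nat_lit 21) (.e (nat_lit 57653) (nat_lit 152) .nil)))))))) (.g (nat_lit 5) .nil .nil))) 
(.lf (nat_lit 23399) (.g (nat_lit 4366) (.e (nat_lit 1186) (nat_lit 87) (.e (nat_lit 57476) (nat_lit 28) (.e (nat_lit 557104) (nat_lit 14) (.e (nat_lit 180252) (nat_lit 10) (.e (nat_lit 573488) (nat_lit 14) (.e (nat_lit 73747) (nat_lit 3) (.e (nat_lit 516119) (nat_lit 1) (.e (nat_lit 164150) (nat_lit 152) .nil)))))))) (.g (nat_lit 8) .nil .nil)))) (.nd (nat_lit 5) 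
(.lf (nat_lit 23383) (.g (nat_lit 3713) (.e (nat_lit 1186) (nat_lit 87) (.e (nat_lit 57464) (nat_lit 23) (.e (nat_lit 516130) (nat_lit 3) (.e (nat_lit 221212) (nat_lit 22) (.e (nat_lit 196668) (nat_lit 14) (.e (nat_lit 73747) (nat_lit 3) (.e (nat_lit 516115) (nat_lit 1) (.e (nat_lit 164150) (nat_lit 152) .nil)))))))) (.g (nat_lit 0) .nil .nil))) 
(.lf (nat_lit 23415) (.g (nat_lit 643) (.e (nat_lit 1186) (nat_lit 87) (.e (nat_lit 57849) (nat_lit 252) (.e (nat_lit 57375) (nat_lit 2) .nil))) .nil)))) (.nd (nat_lit 4) (.nd (nat_lit 5) 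
(.lf (nat_lit 23375) (.g (nat_lit 2074) (.e (nat_lit 1185) (nat_lit 87) (.e (nat_lit 57480) (nat_lit 28) (.e (nat_lit 557109) (nat_lit 15) (.e (nat_lit 188446) (nat_lit 21) .nil)))) .nil)) 
(.lf (nat_lit 23407) (.g (nat_lit 3177) (.e (nat_lit 1186) (nat_lit 87) (.e (nat_lit 57476) (nat_lit 28) (.e (nat_lit 557108) (nat_lit 15) (.e (nat_lit 188446) (nat_lit 21) (.e (nat_lit 164178) (nat_lit 154) (.e (nat_lit 57390) (nat_lit 5) (.e (nat_lit 114710) (nat_lit 21) (.e (nat_lit 57655) (nat_lit 152) .nil)))))))) (.g (nat_lit 5) .nil .nil)))) (.nd (nat_lit 5) 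
(.lf (nat_lit 23391) (.g (nat_lit 3044) (.e (nat_lit 1186) (nat_lit 87) (.e (nat_lit 57464) (nat_lit 23) (.e (nat_lit 516130) (nat_lit 3) (.e (nat_lit 221212) (nat_lit 22) (.e (nat_lit 196670) (nat_lit 14) (.e (nat_lit 73746) (nat_lit 3) (.e (nat_lit 516120) (nat_lit 1) (.e (nat_lit 164147) (nat_lit 152) .nil)))))))) (.g (nat_lit 7) .nil .nil))) 
(.lf (nat_lit 23423) (.g (nat_lit 1676) (.e (nat_lit 1186) (nat_lit 87) (.e (nat_lit 57849) (nat_lit 252) (.e (nat_lit 57377) (nat_lit 3) (.e (nat_lit 106240) (nat_lit 10) .nil)))) .nil))))))))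

noncomputable def tv333 : DT := (.nd (nat_lit 0) (.nd (nat_lit 1) (.nd (nat_lit 2) (.nd (nat_lit 3) (.nd (nat_lit 4) (.nd (nat_lit 5) (.nd (nat_lit 6) 
(.lf (nat_lit 23424) (.g (nat_lit 622) (.e (nat_lit 1186) (nat_lit 87) (.e (nat_lit 57849) (nat_lit 252) (.e (nat_lit 57379) (nat_lit 3) .nil))) .nil)) 
(.lf (nat_lit 23488) (.g (nat_lit 1811) (.e (nat_lit 1187) (nat_lit 88) (.e (nat_lit 65586) (nat_lit 7) (.e (nat_lit 319531) (nat_lit 16) (.e (nat_lit 286759) (nat_lit 12) (.e (nat_lit 385094) (nat_lit 49) .nil))))) .nil))) (.nd (nat_lit 6) 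
(.lf (nat_lit 23456) (.g (nat_lit 2747) (.e (nat_lit 7936) (nat_lit 87) (.e (nat_lit 57479) (nat_lit 28) (.e (nat_lit 557105) (nat_lit 14) (.e (nat_lit 180252) (nat_lit 10) (.e (nat_lit 573480) (nat_lit 13) .nil))))) .nil)) 
(.lf (nat_lit 23520) (.g (nat_lit 1309) (.e (nat_lit 1187) (nat_lit 88) (.e (nat_lit 65619) (nat_lit 10) (.e (nat_lit 344097) (nat_lit 18) (.e (nat_lit 5907) (nat_lit 320) .nil)))) .nil)))) (.nd (nat_lit 5) (.nd (nat_lit 6) 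
(.lf (nat_lit 23440) (.g (nat_lit 2154) (.e (nat_lit 7936) (nat_lit 87) (.e (nat_lit 57464) (nat_lit 23) (.e (nat_lit 516151) (nat_lit 9) (.e (nat_lit 426195) (nat_lit 9) .nil)))) .nil)) 
(.lf (nat_lit 23504) (.g (nat_lit 2986) (.e (nat_lit 1187) (nat_lit 88) (.e (nat_lit 65586) (nat_lit 7) (.e (nat_lit 319534) (nat_lit 16) (.e (nat_lit 286756) (nat_lit 10) (.e (nat_lit 344169) (nat_lit 40) (.e (nat_lit 671751) (nat_lit 0) (.e (nat_lit 1182) (nat_lit 87) (.e (nat_lit 57728) (nat_lit 181) .nil)))))))) (.g (nat_lit 4) .nil .nil)))) (.nd (nat_lit 6) 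
(.lf (nat_lit 23472) (.g (nat_lit 1740) (.e (nat_lit 7936) (nat_lit 87) (.e (nat_lit 57480) (nat_lit 28) (.e (nat_lit 557109) (nat_lit 15) (.e (nat_lit 196352) (nat_lit 18) .nil)))) .nil)) 
(.lf (nat_lit 23536) (.g (nat_lit 2252) (.e (nat_lit 1187) (nat_lit 88) (.e (nat_lit 65619) (nat_lit 10) (.e (nat_lit 344129) (nat_lit 26) (.e (nat_lit 557087) (nat_lit 11) (.e (nat_lit 24617) (nat_lit 7) (.e (nat_lit 319514) (nat_lit 11) (.e (nat_lit 8384) (nat_lit 108) .nil))))))) (.g (nat_lit 4) .nil .nil)))))) (.nd (nat_lit 4) (.nd (nat_lit 5) (.nd (nat_lit 6) 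
(.lf (nat_lit 23432) (.g (nat_lit 2089) (.e (nat_lit 1186) (nat_lit 87) (.e (nat_lit 57849) (nat_lit 252) (.e (nat_lit 57411) (nat_lit 12) (.e (nat_lit 336211) (nat_lit 13) (.e (nat_lit 393291) (nat_lit 26) (.e (nat_lit 475204) (nat_lit 40) (.e (nat_lit 704629) (nat_lit 9) .nil))))))) (.g (nat_lit 4) .nil .nil))) 
(.lf (nat_lit 23496) (.g (nat_lit 2155) (.e (nat_lit 1187) (nat_lit 88) (.e (nat_lit 65586) (nat_lit 7) (.e (nat_lit 319534) (nat_lit 16) (.e (nat_lit 286749) (nat_lit 9) .nil)))) .nil))) (.nd (nat_lit 6) 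
(.lf (nat_lit 23464) (.g (nat_lit 2049) (.e (nat_lit 7936) (nat_lit 87) (.e (nat_lit 57480) (nat_lit 28) (.e (nat_lit 557098) (nat_lit 13) (.e (nat_lit 172122) (nat_lit 13) (.e (nat_lit 483337) (nat_lit 9) .nil))))) .nil)) 
(.lf (nat_lit 23528) (.g (nat_lit 1926) (.e (nat_lit 1187) (nat_lit 88) (.e (nat_lit 65619) (nat_lit 10) (.e (nat_lit 344117) (nat_lit 21) (.e (nat_lit 516195) (nat_lit 26) (.e (nat_lit 335986) (nat_lit 1) .nil))))) .nil)))) (.nd (nat_lit 5) (.nd (nat_lit 6) 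
(.lf (nat_lit 23448) (.g (nat_lit 1528) (.e (nat_lit 7936) (nat_lit 87) (.e (nat_lit 57478) (nat_lit 28) (.e (nat_lit 557107) (nat_lit 15) (.e (nat_lit 188421) (nat_lit 11) (.e (nat_lit 336387) (nat_lit 27) .nil))))) .nil)) 
(.lf (nat_lit 23512) (.g (nat_lit 523) (.e (nat_lit 1187) (nat_lit 88) (.e (nat_lit 65619) (nat_lit 10) (.e (nat_lit 344090) (nat_lit 18) .nil))) .nil))) (.nd (nat_lit 6) 
(.lf (nat_lit 23480) (.g (nat_lit 1221) (.e (nat_lit 1187) (nat_lit 88) (.e (nat_lit 65583) (nat_lit 7) (.e (nat_lit 319530) (nat_lit 16) (.e (nat_lit 286767) (nat_lit 27) .nil)))) .nil)) 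
(.lf (nat_lit 23544) (.g (nat_lit 1740) (.e (nat_lit 1187) (nat_lit 88) (.e (nat_lit 65624) (nat_lit 12) (.e (nat_lit 385094) (nat_lit 49) (.e (nat_lit 778327) (nat_lit 6) .nil)))) .nil)))))) (.nd (nat_lit 3) (.nd (nat_lit 4) (.nd (nat_lit 5) (.nd (nat_lit 6) 
(.lf (nat_lit 23428) (.g (nat_lit 1749) (.e (nat_lit 1186) (nat_lit 87) (.e (nat_lit 57849) (nat_lit 252) (.e (nat_lit 57407) (nat_lit 12) (.e (nat_lit 336454) (nat_lit 34) .nil)))) .nil)) 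
(.lf (nat_lit 23492) (.g (nat_lit 4027) (.e (nat_lit 1187) (nat_lit 88) (.e (nat_lit 65586) (nat_lit 7) (.e (nat_lit 319531) (nat_lit 16) (.e (nat_lit 286767) (nat_lit 27) (.e (nat_lit 426098) (nat_lit 1) (.e (nat_lit 164325) (nat_lit 230) (.e (nat_lit 163861) (nat_lit 1) (.e (nat_lit 164381) (nat_lit 254) .nil)))))))) (.g (nat_lit 6) .nil .nil)))) (.nd (nat_lit 6) 
(.lf (nat_lit 23460) (.g (nat_lit 1895) (.e (nat_lit 7936) (nat_lit 87) (.e (nat_lit 57479) (nat_lit 28) (.e (nat_lit 557105) (nat_lit 14) (.e (nat_lit 180252) (nat_lit 10) (.e (nat_lit 573489) (nat_lit 14) .nil))))) .nil)) 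
(.lf (nat_lit 23524) (.g (nat_lit 2092) (.e (nat_lit 1187) (nat_lit 88) (.e (nat_lit 65619) (nat_lit 10) (.e (nat_lit 344097) (nat_lit 18) (.e (nat_lit 7270) (nat_lit 385) (.e (nat_lit 122917) (nat_lit 15) .nil))))) .nil)))) (.nd (nat_lit 5) (.nd (nat_lit 6) 
(.lf (nat_lit 23444) (.g (nat_lit 1034) (.e (nat_lit 7936) (nat_lit 87) (.e (nat_lit 57476) (nat_lit 28) (.e (nat_lit 557107) (nat_lit 15) (.e (nat_lit 196352) (nat_lit 18) .nil)))) .nil)) 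
(.lf (nat_lit 23508) (.g (nat_lit 1944) (.e (nat_lit 1187) (nat_lit 88) (.e (nat_lit 65604) (nat_lit 9) (.e (nat_lit 335997) (nat_lit 1) (.e (nat_lit 57681) (nat_lit 155) (.e (nat_lit 122919) (nat_lit 15) .nil))))) .nil))) (.nd (nat_lit 6) 
(.lf (nat_lit 23476) (.g (nat_lit 2909) (.e (nat_lit 1187) (nat_lit 88) (.e (nat_lit 65570) (nat_lit 3) (.e (nat_lit 98373) (nat_lit 29) (.e (nat_lit 450588) (nat_lit 10) (.e (nat_lit 573473) (nat_lit 12) .nil))))) .nil)) 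
(.lf (nat_lit 23540) (.g (nat_lit 1130) (.e (nat_lit 1187) (nat_lit 88) (.e (nat_lit 65619) (nat_lit 10) (.e (nat_lit 344177) (nat_lit 43) (.e (nat_lit 770071) (nat_lit 8) .nil)))) .nil))))) (.nd (nat_lit 4) (.nd (nat_lit 5) (.nd (nat_lit 6) 
(.lf (nat_lit 23436) (.g (nat_lit 1305) (.e (nat_lit 1186) (nat_lit 87) (.e (nat_lit 57849) (nat_lit 252) (.e (nat_lit 57437) (nat_lit 17) (.e (nat_lit 384768) (nat_lit 13) .nil)))) .nil)) 
(.lf (nat_lit 23500) (.g (nat_lit 3126) (.e (nat_lit 1187) (nat_lit 88) (.e (nat_lit 65586) (nat_lit 7) (.e (nat_lit 319534) (nat_lit 16) (.e (nat_lit 286756) (nat_lit 10) (.e (nat_lit 344168) (nat_lit 40) (.e (nat_lit 671751) (nat_lit 0) (.e (nat_lit 1182) (nat_lit 87) (.e (nat_lit 57728) (nat_lit 181) .nil)))))))) (.g (nat_lit 4) .nil .nil)))) (.nd (nat_lit 6) 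
(.lf (nat_lit 23468) (.g (nat_lit 1695) (.e (nat_lit 7936) (nat_lit 87) (.e (nat_lit 57480) (nat_lit 28) (.e (nat_lit 557107) (nat_lit 15) (.e (nat_lit 188450) (nat_lit 23) (.e (nat_lit 204863) (nat_lit 27) .nil))))) .nil)) 
(.lf (nat_lit 23532) (.g (nat_lit 1958) (.e (nat_lit 1187) (nat_lit 88) (.e (nat_lit 65619) (nat_lit 10) (.e (nat_lit 344117) (nat_lit 21) (.e (nat_lit 516195) (nat_lit 26) (.e (nat_lit 335996) (nat_lit 1) .nil))))) .nil)))) (.nd (nat_lit 5) (.nd (nat_lit 6) 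
(.lf (nat_lit 23452) (.g (nat_lit 1646) (.e (nat_lit 7936) (nat_lit 87) (.e (nat_lit 57478) (nat_lit 28) (.e (nat_lit 557109) (nat_lit 15) (.e (nat_lit 188422) (nat_lit 11) .nil)))) .nil)) 
(.lf (nat_lit 23516) (.g (nat_lit 1271) (.e (nat_lit 1187) (nat_lit 88) (.e (nat_lit 65619) (nat_lit 10) (.e (nat_lit 344097) (nat_lit 18) (.e (nat_lit 5905) (nat_lit 320) .nil)))) .nil))) (.nd (nat_lit 6) 
(.lf (nat_lit 23484) (.g (nat_lit 1926) (.e (nat_lit 1187) (nat_lit 88) (.e (nat_lit 65585) (nat_lit 7) (.e (nat_lit 319533) (nat_lit 16) (.e (nat_lit 286753) (nat_lit 10) (.e (nat_lit 344097) (nat_lit 18) (.e (nat_lit 5195) (nat_lit 294) (.e (nat_lit 57363) (nat_lit 1) (.e (nat_lit 57825) (nat_lit 250) .nil)))))))) (.g (nat_lit 5) .nil .nil))) 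
(.lf (nat_lit 23548) (.g (nat_lit 2568) (.e (nat_lit 1187) (nat_lit 88) (.e (nat_lit 65624) (nat_lit 12) (.e (nat_lit 385105) (nat_lit 50) (.e (nat_lit 786483) (nat_lit 30) (.e (nat_lit 360450) (nat_lit 0) (.e (nat_lit 5898) (nat_lit 320) .nil)))))) (.g (nat_lit 4) .nil .nil)))))))) (.nd (nat_lit 2) (.nd (nat_lit 3) (.nd (nat_lit 4) (.nd (nat_lit 5) (.nd (nat_lit 6) 
(.lf (nat_lit 23426) (.g (nat_lit 1967) (.e (nat_lit 1186) (nat_lit 87) (.e (nat_lit 57849) (nat_lit 252) (.e (nat_lit 57407) (nat_lit 12) (.e (nat_lit 336211) (nat_lit 13) (.e (nat_lit 393291) (nat_lit 26) .nil))))) .nil)) 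
(.lf (nat_lit 23490) (.g (nat_lit 2052) (.e (nat_lit 1187) (nat_lit 88) (.e (nat_lit 65586) (nat_lit 7) (.e (nat_lit 319531) (nat_lit 16) (.e (nat_lit 286767) (nat_lit 27) .nil)))) .nil))) (.nd (nat_lit 6) 
(.lf (nat_lit 23458) (.g (nat_lit 2966) (.e (nat_lit 7936) (nat_lit 87) (.e (nat_lit 57479) (nat_lit 28) (.e (nat_lit 557105) (nat_lit 14) (.e (nat_lit 180252) (nat_lit 10) (.e (nat_lit 573487) (nat_lit 14) .nil))))) .nil)) 
(.lf (nat_lit 23522) (.g (nat_lit 1887) (.e (nat_lit 1187) (nat_lit 88) (.e (nat_lit 65619) (nat_lit 10) (.e (nat_lit 344097) (nat_lit 18) (.e (nat_lit 5907) (nat_lit 320) (.e (nat_lit 1199) (nat_lit 88) .nil))))) .nil)))) (.nd (nat_lit 5) (.nd (nat_lit 6) 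
(.lf (nat_lit 23442) (.g (nat_lit 1317) (.e (nat_lit 7936) (nat_lit 87) (.e (nat_lit 57464) (nat_lit 23) (.e (nat_lit 516179) (nat_lit 15) (.e (nat_lit 475177) (nat_lit 24) .nil)))) .nil)) 
(.lf (nat_lit 23506) (.g (nat_lit 2361) (.e (nat_lit 1187) (nat_lit 88) (.e (nat_lit 65586) (nat_lit 7) (.e (nat_lit 319534) (nat_lit 16) (.e (nat_lit 286767) (nat_lit 27) .nil)))) .nil))) (.nd (nat_lit 6) 
(.lf (nat_lit 23474) (.g (nat_lit 2176) (.e (nat_lit 7936) (nat_lit 87) (.e (nat_lit 57480) (nat_lit 28) (.e (nat_lit 557109) (nat_lit 15) (.e (nat_lit 188452) (nat_lit 23) (.e (nat_lit 204863) (nat_lit 27) .nil))))) .nil)) 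
(.lf (nat_lit 23538) (.g (nat_lit 790) (.e (nat_lit 1187) (nat_lit 88) (.e (nat_lit 65619) (nat_lit 10) (.e (nat_lit 344157) (nat_lit 36) (.e (nat_lit 638986) (nat_lit 5) .nil)))) .nil))))) (.nd (nat_lit 4) (.nd (nat_lit 5) (.nd (nat_lit 6) 
(.lf (nat_lit 23434) (.g (nat_lit 1407) (.e (nat_lit 1186) (nat_lit 87) (.e (nat_lit 57849) (nat_lit 252) (.e (nat_lit 57437) (nat_lit 17) (.e (nat_lit 376842) (nat_lit 11) .nil)))) .nil)) 
(.lf (nat_lit 23498) (.g (nat_lit 2912) (.e (nat_lit 1187) (nat_lit 88) (.e (nat_lit 65586) (nat_lit 7) (.e (nat_lit 319534) (nat_lit 16) (.e (nat_lit 286756) (nat_lit 10) (.e (nat_lit 344168) (nat_lit 40) .nil))))) .nil))) (.nd (nat_lit 6) 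
(.lf (nat_lit 23466) (.g (nat_lit 1351) (.e (nat_lit 7936) (nat_lit 87) (.e (nat_lit 57480) (nat_lit 28) (.e (nat_lit 557107) (nat_lit 15) (.e (nat_lit 188423) (nat_lit 11) .nil)))) .nil)) 
(.lf (nat_lit 23530) (.g (nat_lit 1952) (.e (nat_lit 1187) (nat_lit 88) (.e (nat_lit 65619) (nat_lit 10) (.e (nat_lit 344117) (nat_lit 21) (.e (nat_lit 516195) (nat_lit 26) (.e (nat_lit 335995) (nat_lit 1) .nil))))) .nil)))) (.nd (nat_lit 5) (.nd (nat_lit 6) 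
(.lf (nat_lit 23450) (.g (nat_lit 1367) (.e (nat_lit 7936) (nat_lit 87) (.e (nat_lit 57478) (nat_lit 28) (.e (nat_lit 557107) (nat_lit 15) (.e (nat_lit 196352) (nat_lit 18) .nil)))) .nil)) 
(.lf (nat_lit 23514) (.g (nat_lit 486) (.e (nat_lit 1187) (nat_lit 88) (.e (nat_lit 65619) (nat_lit 10) (.e (nat_lit 344097) (nat_lit 18) .nil))) .nil))) (.nd (nat_lit 6) 
(.lf (nat_lit 23482) (.g (nat_lit 2970) (.e (nat_lit 1187) (nat_lit 88) (.e (nat_lit 65583) (nat_lit 7) (.e (nat_lit 319530) (nat_lit 16) (.e (nat_lit 286767) (nat_lit 27) (.e (nat_lit 426107) (nat_lit 1) (.e (nat_lit 164325) (nat_lit 230) (.e (nat_lit 163861) (nat_lit 1) (.e (nat_lit 164381) (nat_lit 254) .nil)))))))) (.g (nat_lit 6) .nil .nil))) 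
(.lf (nat_lit 23546) (.g (nat_lit 1614) (.e (nat_lit 1187) (nat_lit 88) (.e (nat_lit 65624) (nat_lit 12) (.e (nat_lit 385105) (nat_lit 50) (.e (nat_lit 786481) (nat_lit 30) .nil)))) .nil)))))) (.nd (nat_lit 3) (.nd (nat_lit 4) (.nd (nat_lit 5) (.nd (nat_lit 6) 
(.lf (nat_lit 23430) (.g (nat_lit 1400) (.e (nat_lit 1186) (nat_lit 87) (.e (nat_lit 57849) (nat_lit 252) (.e (nat_lit 57411) (nat_lit 12) (.e (nat_lit 336211) (nat_lit 13) .nil)))) .nil)) 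
(.lf (nat_lit 23494) (.g (nat_lit 3894) (.e (nat_lit 1187) (nat_lit 88) (.e (nat_lit 65586) (nat_lit 7) (.e (nat_lit 319531) (nat_lit 16) (.e (nat_lit 286767) (nat_lit 27) (.e (nat_lit 426107) (nat_lit 1) (.e (nat_lit 164325) (nat_lit 230) (.e (nat_lit 163861) (nat_lit 1) (.e (nat_lit 164380) (nat_lit 254) .nil)))))))) (.g (nat_lit 6) .nil .nil)))) (.nd (nat_lit 6) 
(.lf (nat_lit 23462) (.g (nat_lit 1457) (.e (nat_lit 7936) (nat_lit 87) (.e (nat_lit 57479) (nat_lit 28) (.e (nat_lit 557107) (nat_lit 15) (.e (nat_lit 196352) (nat_lit 18) .nil)))) .nil)) 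
(.lf (nat_lit 23526) (.g (nat_lit 1455) (.e (nat_lit 1187) (nat_lit 88) (.e (nat_lit 65619) (nat_lit 10) (.e (nat_lit 344100) (nat_lit 18) (.e (nat_lit 7270) (nat_lit 385) (.e (nat_lit 122919) (nat_lit 15) .nil))))) .nil)))) (.nd (nat_lit 5) (.nd (nat_lit 6) 
(.lf (nat_lit 23446) (.g (nat_lit 1353) (.e (nat_lit 7936) (nat_lit 87) (.e (nat_lit 57477) (nat_lit 28) (.e (nat_lit 557108) (nat_lit 15) (.e (nat_lit 196352) (nat_lit 18) .nil)))) .nil)) 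
(.lf (nat_lit 23510) (.g (nat_lit 2669) (.e (nat_lit 1187) (nat_lit 88) (.e (nat_lit 65610) (nat_lit 10) (.e (nat_lit 344097) (nat_lit 18) (.e (nat_lit 5906) (nat_lit 320) (.e (nat_lit 1221) (nat_lit 90) (.e (nat_lit 81959) (nat_lit 24) (.e (nat_lit 123182) (nat_lit 264) .nil))))))) (.g (nat_lit 5) .nil .nil)))) (.nd (nat_lit 6) 
(.lf (nat_lit 23478) (.g (nat_lit 3051) (.e (nat_lit 1187) (nat_lit 88) (.e (nat_lit 65570) (nat_lit 3) (.e (nat_lit 98373) (nat_lit 29) (.e (nat_lit 450588) (nat_lit 10) (.e (nat_lit 573475) (nat_lit 12) (.e (nat_lit 57347) (nat_lit 0) (.e (nat_lit 7119) (nat_lit 382) .nil))))))) (.g (nat_lit 4) .nil .nil))) 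
(.lf (nat_lit 23542) (.g (nat_lit 1721) (.e (nat_lit 1187) (nat_lit 88) (.e (nat_lit 65624) (nat_lit 12) (.e (nat_lit 385093) (nat_lit 49) (.e (nat_lit 778327) (nat_lit 6) .nil)))) .nil))))) (.nd (nat_lit 4) (.nd (nat_lit 5) (.nd (nat_lit 6) 
(.lf (nat_lit 23438) (.g (nat_lit 2110) (.e (nat_lit 7936) (nat_lit 87) (.e (nat_lit 57464) (nat_lit 23) (.e (nat_lit 516151) (nat_lit 9) (.e (nat_lit 426132) (nat_lit 3) .nil)))) .nil)) 
(.lf (nat_lit 23502) (.g (nat_lit 2825) (.e (nat_lit 1187) (nat_lit 88) (.e (nat_lit 65586) (nat_lit 7) (.e (nat_lit 319534) (nat_lit 16) (.e (nat_lit 286756) (nat_lit 10) (.e (nat_lit 344169) (nat_lit 40) .nil))))) .nil))) (.nd (nat_lit 6) 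
(.lf (nat_lit 23470) (.g (nat_lit 2734) (.e (nat_lit 7936) (nat_lit 87) (.e (nat_lit 57480) (nat_lit 28) (.e (nat_lit 557109) (nat_lit 15) (.e (nat_lit 188421) (nat_lit 11) (.e (nat_lit 336387) (nat_lit 27) .nil))))) .nil)) 
(.lf (nat_lit 23534) (.g (nat_lit 2123) (.e (nat_lit 1187) (nat_lit 88) (.e (nat_lit 65619) (nat_lit 10) (.e (nat_lit 344117) (nat_lit 21) (.e (nat_lit 516195) (nat_lit 26) (.e (nat_lit 335996) (nat_lit 1) (.e (nat_lit 57854) (nat_lit 252) (.e (nat_lit 57363) (nat_lit 1) (.e (nat_lit 57754) (nat_lit 209) .nil)))))))) (.g (nat_lit 5) .nil .nil))))) (.nd (nat_lit 5) (.nd (nat_lit 6) 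
(.lf (nat_lit 23454) (.g (nat_lit 2018) (.e (nat_lit 7936) (nat_lit 87) (.e (nat_lit 57479) (nat_lit 28) (.e (nat_lit 557101) (nat_lit 13) (.e (nat_lit 172097) (nat_lit 9) (.e (nat_lit 426140) (nat_lit 3) .nil))))) .nil)) 
(.lf (nat_lit 23518) (.g (nat_lit 1308) (.e (nat_lit 1187) (nat_lit 88) (.e (nat_lit 65619) (nat_lit 10) (.e (nat_lit 344097) (nat_lit 18) (.e (nat_lit 5906) (nat_lit 320) .nil)))) .nil))) (.nd (nat_lit 6) 
(.lf (nat_lit 23486) (.g (nat_lit 2346) (.e (nat_lit 1187) (nat_lit 88) (.e (nat_lit 65586) (nat_lit 7) (.e (nat_lit 319531) (nat_lit 16) (.e (nat_lit 286756) (nat_lit 10) (.e (nat_lit 344168) (nat_lit 40) .nil))))) .nil)) 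
(.lf (nat_lit 23550) (.g (nat_lit 1532) (.e (nat_lit 1187) (nat_lit 88) (.e (nat_lit 65624) (nat_lit 12) (.e (nat_lit 385106) (nat_lit 50) (.e (nat_lit 786481) (nat_lit 30) .nil)))) .nil)))))))) (.nd (nat_lit 1) (.nd (nat_lit 2) (.nd (nat_lit 3) (.nd (nat_lit 4) (.nd (nat_lit 5) (.nd (nat_lit 6) 
(.lf (nat_lit 23425) (.g (nat_lit 2273) (.e (nat_lit 1186) (nat_lit 87) (.e (nat_lit 57849) (nat_lit 252) (.e (nat_lit 57379) (nat_lit 3) (.e (nat_lit 98313) (nat_lit 9) (.e (nat_lit 336027) (nat_lit 3) (.e (nat_lit 98341) (nat_lit 20) (.e (nat_lit 221212) (nat_lit 22) (.e (nat_lit 196624) (nat_lit 9) .nil)))))))) (.g (nat_lit 4) .nil .nil))) 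
(.lf (nat_lit 23489) (.g (nat_lit 1905) (.e (nat_lit 1187) (nat_lit 88) (.e (nat_lit 65586) (nat_lit 7) (.e (nat_lit 319531) (nat_lit 16) (.e (nat_lit 286759) (nat_lit 12) (.e (nat_lit 385094) (nat_lit 49) (.e (nat_lit 778246) (nat_lit 0) (.e (nat_lit 1183) (nat_lit 87) (.e (nat_lit 57726) (nat_lit 181) .nil)))))))) (.g (nat_lit 4) .nil .nil)))) (.nd (nat_lit 6) 
(.lf (nat_lit 23457) (.g (nat_lit 3233) (.e (nat_lit 7936) (nat_lit 87) (.e (nat_lit 57479) (nat_lit 28) (.e (nat_lit 557105) (nat_lit 14) (.e (nat_lit 180252) (nat_lit 10) (.e (nat_lit 573481) (nat_lit 13) .nil))))) .nil)) 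
(.lf (nat_lit 23521) (.g (nat_lit 1984) (.e (nat_lit 1187) (nat_lit 88) (.e (nat_lit 65619) (nat_lit 10) (.e (nat_lit 344097) (nat_lit 18) (.e (nat_lit 5907) (nat_lit 320) (.e (nat_lit 1190) (nat_lit 88) (.e (nat_lit 65619) (nat_lit 10) (.e (nat_lit 344097) (nat_lit 18) (.e (nat_lit 5906) (nat_lit 320) .nil)))))))) (.g (nat_lit 4) .nil .nil))))) (.nd (nat_lit 5) (.nd (nat_lit 6) 
(.lf (nat_lit 23441) (.g (nat_lit 2026) (.e (nat_lit 7936) (nat_lit 87) (.e (nat_lit 57464) (nat_lit 23) (.e (nat_lit 516151) (nat_lit 9) (.e (nat_lit 426331) (nat_lit 13) (.e (nat_lit 483337) (nat_lit 9) .nil))))) .nil)) 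
(.lf (nat_lit 23505) (.g (nat_lit 2904) (.e (nat_lit 1187) (nat_lit 88) (.e (nat_lit 65586) (nat_lit 7) (.e (nat_lit 319534) (nat_lit 16) (.e (nat_lit 286756) (nat_lit 10) (.e (nat_lit 344169) (nat_lit 40) (.e (nat_lit 671751) (nat_lit 0) (.e (nat_lit 1182) (nat_lit 87) (.e (nat_lit 57731) (nat_lit 181) .nil)))))))) (.g (nat_lit 4) .nil .nil)))) (.nd (nat_lit 6) 
(.lf (nat_lit 23473) (.g (nat_lit 3075) (.e (nat_lit 7936) (nat_lit 87) (.e (nat_lit 57480) (nat_lit 28) (.e (nat_lit 557109) (nat_lit 15) (.e (nat_lit 188450) (nat_lit 23) (.e (nat_lit 204863) (nat_lit 27) .nil))))) .nil)) 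
(.lf (nat_lit 23537) (.g (nat_lit 877) (.e (nat_lit 1187) (nat_lit 88) (.e (nat_lit 65619) (nat_lit 10) (.e (nat_lit 344157) (nat_lit 36) (.e (nat_lit 638985) (nat_lit 5) .nil)))) .nil))))) (.nd (nat_lit 4) (.nd (nat_lit 5) (.nd (nat_lit 6) 
(.lf (nat_lit 23433) (.g (nat_lit 552) (.e (nat_lit 1186) (nat_lit 87) (.e (nat_lit 57849) (nat_lit 252) (.e (nat_lit 57435) (nat_lit 17) .nil))) .nil)) 
(.lf (nat_lit 23497) (.g (nat_lit 2855) (.e (nat_lit 1187) (nat_lit 88) (.e (nat_lit 65586) (nat_lit 7) (.e (nat_lit 319534) (nat_lit 16) (.e (nat_lit 286756) (nat_lit 10) (.e (nat_lit 344097) (nat_lit 18) .nil))))) .nil))) (.nd (nat_lit 6) 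
(.lf (nat_lit 23465) (.g (nat_lit 1747) (.e (nat_lit 7936) (nat_lit 87) (.e (nat_lit 57480) (nat_lit 28) (.e (nat_lit 557107) (nat_lit 15) (.e (nat_lit 188421) (nat_lit 11) (.e (nat_lit 336387) (nat_lit 27) .nil))))) .nil)) 
(.lf (nat_lit 23529) (.g (nat_lit 2147) (.e (nat_lit 1187) (nat_lit 88) (.e (nat_lit 65619) (nat_lit 10) (.e (nat_lit 344117) (nat_lit 21) (.e (nat_lit 516195) (nat_lit 26) (.e (nat_lit 335986) (nat_lit 1) (.e (nat_lit 57847) (nat_lit 252) (.e (nat_lit 57365) (nat_lit 1) (.e (nat_lit 57753) (nat_lit 209) .nil)))))))) (.g (nat_lit 5) .nil .nil))))) (.nd (nat_lit 5) (.nd (nat_lit 6) 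
(.lf (nat_lit 23449) (.g (nat_lit 1303) (.e (nat_lit 7936) (nat_lit 87) (.e (nat_lit 57478) (nat_lit 28) (.e (nat_lit 557107) (nat_lit 15) (.e (nat_lit 188423) (nat_lit 11) (.e (nat_lit 336387) (nat_lit 27) .nil))))) .nil)) 
(.lf (nat_lit 23513) (.g (nat_lit 988) (.e (nat_lit 1187) (nat_lit 88) (.e (nat_lit 65619) (nat_lit 10) (.e (nat_lit 344090) (nat_lit 18) (.e (nat_lit 7266) (nat_lit 384) .nil)))) .nil))) (.nd (nat_lit 6) 
(.lf (nat_lit 23481) (.g (nat_lit 3509) (.e (nat_lit 1187) (nat_lit 88) (.e (nat_lit 65583) (nat_lit 7) (.e (nat_lit 319530) (nat_lit 16) (.e (nat_lit 286767) (nat_lit 27) (.e (nat_lit 426098) (nat_lit 1) (.e (nat_lit 164325) (nat_lit 230) (.e (nat_lit 163861) (nat_lit 1) (.e (nat_lit 164380) (nat_lit 254) .nil)))))))) (.g (nat_lit 7) .nil .nil))) 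
(.lf (nat_lit 23545) (.g (nat_lit 2145) (.e (nat_lit 1187) (nat_lit 88) (.e (nat_lit 65624) (nat_lit 12) (.e (nat_lit 385094) (nat_lit 49) (.e (nat_lit 778327) (nat_lit 6) (.e (nat_lit 81957) (nat_lit 24) (.e (nat_lit 123182) (nat_lit 264) .nil)))))) (.g (nat_lit 4) .nil .nil))))))) (.nd (nat_lit 3) (.nd (nat_lit 4) (.nd (nat_lit 5) (.nd (nat_lit 6) 
(.lf (nat_lit 23429) (.g (nat_lit 2020) (.e (nat_lit 1186) (nat_lit 87) (.e (nat_lit 57849) (nat_lit 252) (.e (nat_lit 57410) (nat_lit 12) (.e (nat_lit 336211) (nat_lit 13) (.e (nat_lit 393291) (nat_lit 26) (.e (nat_lit 475201) (nat_lit 40) (.e (nat_lit 704635) (nat_lit 9) .nil))))))) (.g (nat_lit 5) .nil .nil))) 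
(.lf (nat_lit 23493) (.g (nat_lit 2318) (.e (nat_lit 1187) (nat_lit 88) (.e (nat_lit 65586) (nat_lit 7) (.e (nat_lit 319531) (nat_lit 16) (.e (nat_lit 286767) (nat_lit 27) (.e (nat_lit 426107) (nat_lit 1) .nil))))) .nil))) (.nd (nat_lit 6) 
(.lf (nat_lit 23461) (.g (nat_lit 2717) (.e (nat_lit 7936) (nat_lit 87) (.e (nat_lit 57479) (nat_lit 28) (.e (nat_lit 557107) (nat_lit 15) (.e (nat_lit 188421) (nat_lit 11) .nil)))) .nil)) 
(.lf (nat_lit 23525) (.g (nat_lit 1200) (.e (nat_lit 1187) (nat_lit 88) (.e (nat_lit 65619) (nat_lit 10) (.e (nat_lit 344097) (nat_lit 18) (.e (nat_lit 7273) (nat_lit 385) (.e (nat_lit 122919) (nat_lit 15) .nil))))) .nil)))) (.nd (nat_lit 5) (.nd (nat_lit 6) 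
(.lf (nat_lit 23445) (.g (nat_lit 1714) (.e (nat_lit 7936) (nat_lit 87) (.e (nat_lit 57476) (nat_lit 28) (.e (nat_lit 557108) (nat_lit 15) (.e (nat_lit 196352) (nat_lit 18) .nil)))) .nil)) 
(.lf (nat_lit 23509) (.g (nat_lit 1911) (.e (nat_lit 1187) (nat_lit 88) (.e (nat_lit 65610) (nat_lit 10) (.e (nat_lit 344097) (nat_lit 18) (.e (nat_lit 5906) (nat_lit 320) (.e (nat_lit 1221) (nat_lit 90) .nil))))) .nil))) (.nd (nat_lit 6) 
(.lf (nat_lit 23477) (.g (nat_lit 2920) (.e (nat_lit 1187) (nat_lit 88) (.e (nat_lit 65570) (nat_lit 3) (.e (nat_lit 98373) (nat_lit 29) (.e (nat_lit 450588) (nat_lit 10) (.e (nat_lit 573475) (nat_lit 12) .nil))))) .nil)) 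
(.lf (nat_lit 23541) (.g (nat_lit 650) (.e (nat_lit 1187) (nat_lit 88) (.e (nat_lit 65624) (nat_lit 12) (.e (nat_lit 385093) (nat_lit 49) .nil))) .nil))))) (.nd (nat_lit 4) (.nd (nat_lit 5) (.nd (nat_lit 6) 
(.lf (nat_lit 23437) (.g (nat_lit 1641) (.e (nat_lit 1186) (nat_lit 87) (.e (nat_lit 57849) (nat_lit 252) (.e (nat_lit 57445) (nat_lit 19) (.e (nat_lit 393229) (nat_lit 9) (.e (nat_lit 336086) (nat_lit 9) .nil))))) .nil)) 
(.lf (nat_lit 23501) (.g (nat_lit 3044) (.e (nat_lit 1187) (nat_lit 88) (.e (nat_lit 65586) (nat_lit 7) (.e (nat_lit 319534) (nat_lit 16) (.e (nat_lit 286756) (nat_lit 10) (.e (nat_lit 344168) (nat_lit 40) (.e (nat_lit 671751) (nat_lit 0) (.e (nat_lit 1182) (nat_lit 87) (.e (nat_lit 57731) (nat_lit 181) .nil)))))))) (.g (nat_lit 4) .nil .nil)))) (.nd (nat_lit 6) 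
(.lf (nat_lit 23469) (.g (nat_lit 343) (.e (nat_lit 7936) (nat_lit 87) (.e (nat_lit 57480) (nat_lit 28) (.e (nat_lit 557108) (nat_lit 15) .nil))) .nil)) 
(.lf (nat_lit 23533) (.g (nat_lit 2090) (.e (nat_lit 1187) (nat_lit 88) (.e (nat_lit 65619) (nat_lit 10) (.e (nat_lit 344117) (nat_lit 21) (.e (nat_lit 516195) (nat_lit 26) (.e (nat_lit 335996) (nat_lit 1) (.e (nat_lit 57851) (nat_lit 252) (.e (nat_lit 57364) (nat_lit 1) (.e (nat_lit 57754) (nat_lit 209) .nil)))))))) (.g (nat_lit 4) .nil .nil))))) (.nd (nat_lit 5) (.nd (nat_lit 6) 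
(.lf (nat_lit 23453) (.g (nat_lit 1549) (.e (nat_lit 7936) (nat_lit 87) (.e (nat_lit 57478) (nat_lit 28) (.e (nat_lit 557109) (nat_lit 15) (.e (nat_lit 196352) (nat_lit 18) .nil)))) .nil)) 
(.lf (nat_lit 23517) (.g (nat_lit 2117) (.e (nat_lit 1187) (nat_lit 88) (.e (nat_lit 65619) (nat_lit 10) (.e (nat_lit 344097) (nat_lit 18) (.e (nat_lit 5905) (nat_lit 320) (.e (nat_lit 1190) (nat_lit 88) (.e (nat_lit 65619) (nat_lit 10) (.e (nat_lit 344097) (nat_lit 18) (.e (nat_lit 5906) (nat_lit 320) .nil)))))))) (.g (nat_lit 4) .nil .nil)))) (.nd (nat_lit 6) 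
(.lf (nat_lit 23485) (.g (nat_lit 2523) (.e (nat_lit 1187) (nat_lit 88) (.e (nat_lit 65586) (nat_lit 7) (.e (nat_lit 319531) (nat_lit 16) (.e (nat_lit 286756) (nat_lit 10) (.e (nat_lit 344097) (nat_lit 18) .nil))))) .nil)) 
(.lf (nat_lit 23549) (.g (nat_lit 665) (.e (nat_lit 1187) (nat_lit 88) (.e (nat_lit 65624) (nat_lit 12) (.e (nat_lit 385106) (nat_lit 50) .nil))) .nil))))))) (.nd (nat_lit 2) (.nd (nat_lit 3) (.nd (nat_lit 4) (.nd (nat_lit 5) (.nd (nat_lit 6) 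
(.lf (nat_lit 23427) (.g (nat_lit 2062) (.e (nat_lit 1186) (nat_lit 87) (.e (nat_lit 57849) (nat_lit 252) (.e (nat_lit 57407) (nat_lit 12) (.e (nat_lit 336211) (nat_lit 13) (.e (nat_lit 393291) (nat_lit 26) (.e (nat_lit 475205) (nat_lit 40) (.e (nat_lit 704606) (nat_lit 9) .nil))))))) (.g (nat_lit 4) .nil .nil))) 
(.lf (nat_lit 23491) (.g (nat_lit 3194) (.e (nat_lit 1187) (nat_lit 88) (.e (nat_lit 65586) (nat_lit 7) (.e (nat_lit 319531) (nat_lit 16) (.e (nat_lit 286767) (nat_lit 27) (.e (nat_lit 426098) (nat_lit 1) (.e (nat_lit 164325) (nat_lit 230) (.e (nat_lit 163861) (nat_lit 1) (.e (nat_lit 164379) (nat_lit 254) .nil)))))))) (.g (nat_lit 5) .nil .nil)))) (.nd (nat_lit 6) 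
(.lf (nat_lit 23459) (.g (nat_lit 3294) (.e (nat_lit 7936) (nat_lit 87) (.e (nat_lit 57479) (nat_lit 28) (.e (nat_lit 557105) (nat_lit 14) (.e (nat_lit 180252) (nat_lit 10) (.e (nat_lit 573488) (nat_lit 14) .nil))))) .nil)) 
(.lf (nat_lit 23523) (.g (nat_lit 1879) (.e (nat_lit 1187) (nat_lit 88) (.e (nat_lit 65619) (nat_lit 10) (.e (nat_lit 344097) (nat_lit 18) (.e (nat_lit 5907) (nat_lit 320) (.e (nat_lit 1200) (nat_lit 88) .nil))))) .nil)))) (.nd (nat_lit 5) (.nd (nat_lit 6) 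
(.lf (nat_lit 23443) (.g (nat_lit 1492) (.e (nat_lit 7936) (nat_lit 87) (.e (nat_lit 57476) (nat_lit 28) (.e (nat_lit 557107) (nat_lit 15) (.e (nat_lit 188421) (nat_lit 11) (.e (nat_lit 336387) (nat_lit 27) .nil))))) .nil)) 
(.lf (nat_lit 23507) (.g (nat_lit 2378) (.e (nat_lit 1187) (nat_lit 88) (.e (nat_lit 65598) (nat_lit 9) (.e (nat_lit 335997) (nat_lit 1) (.e (nat_lit 57681) (nat_lit 155) (.e (nat_lit 122919) (nat_lit 15) .nil))))) .nil))) (.nd (nat_lit 6) 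
(.lf (nat_lit 23475) (.g (nat_lit 2342) (.e (nat_lit 7936) (nat_lit 87) (.e (nat_lit 57927) (nat_lit 282) (.e (nat_lit 163874) (nat_lit 3) (.e (nat_lit 204864) (nat_lit 27) (.e (nat_lit 344130) (nat_lit 26) .nil))))) .nil)) 
(.lf (nat_lit 23539) (.g (nat_lit 1205) (.e (nat_lit 1187) (nat_lit 88) (.e (nat_lit 65619) (nat_lit 10) (.e (nat_lit 344160) (nat_lit 37) (.e (nat_lit 647195) (nat_lit 9) .nil)))) .nil))))) (.nd (nat_lit 4) (.nd (nat_lit 5) (.nd (nat_lit 6) 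
(.lf (nat_lit 23435) (.g (nat_lit 3437) (.e (nat_lit 1186) (nat_lit 87) (.e (nat_lit 57849) (nat_lit 252) (.e (nat_lit 57437) (nat_lit 17) (.e (nat_lit 376842) (nat_lit 11) (.e (nat_lit 426306) (nat_lit 12) (.e (nat_lit 475201) (nat_lit 40) (.e (nat_lit 704635) (nat_lit 9) .nil))))))) (.g (nat_lit 6) .nil .nil))) 
(.lf (nat_lit 23499) (.g (nat_lit 3056) (.e (nat_lit 1187) (nat_lit 88) (.e (nat_lit 65586) (nat_lit 7) (.e (nat_lit 319534) (nat_lit 16) (.e (nat_lit 286756) (nat_lit 10) (.e (nat_lit 344168) (nat_lit 40) (.e (nat_lit 671751) (nat_lit 0) (.e (nat_lit 1182) (nat_lit 87) (.e (nat_lit 57724) (nat_lit 181) .nil)))))))) (.g (nat_lit 4) .nil .nil)))) (.nd (nat_lit 6) 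
(.lf (nat_lit 23467) (.g (nat_lit 1384) (.e (nat_lit 7936) (nat_lit 87) (.e (nat_lit 57480) (nat_lit 28) (.e (nat_lit 557107) (nat_lit 15) (.e (nat_lit 196352) (nat_lit 18) .nil)))) .nil)) 
(.lf (nat_lit 23531) (.g (nat_lit 1992) (.e (nat_lit 1187) (nat_lit 88) (.e (nat_lit 65619) (nat_lit 10) (.e (nat_lit 344117) (nat_lit 21) (.e (nat_lit 516195) (nat_lit 26) (.e (nat_lit 335995) (nat_lit 1) (.e (nat_lit 57847) (nat_lit 252) (.e (nat_lit 57365) (nat_lit 1) (.e (nat_lit 57753) (nat_lit 209) .nil)))))))) (.g (nat_lit 4) .nil .nil))))) (.nd (nat_lit 5) (.nd (nat_lit 6) 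
(.lf (nat_lit 23451) (.g (nat_lit 2677) (.e (nat_lit 7936) (nat_lit 87) (.e (nat_lit 57478) (nat_lit 28) (.e (nat_lit 557109) (nat_lit 15) (.e (nat_lit 188421) (nat_lit 11) (.e (nat_lit 336387) (nat_lit 27) .nil))))) .nil)) 
(.lf (nat_lit 23515) (.g (nat_lit 1410) (.e (nat_lit 1187) (nat_lit 88) (.e (nat_lit 65619) (nat_lit 10) (.e (nat_lit 344097) (nat_lit 18) (.e (nat_lit 5243) (nat_lit 297) .nil)))) .nil))) (.nd (nat_lit 6) 
(.lf (nat_lit 23483) (.g (nat_lit 1551) (.e (nat_lit 1187) (nat_lit 88) (.e (nat_lit 65583) (nat_lit 7) (.e (nat_lit 319530) (nat_lit 16) (.e (nat_lit 286767) (nat_lit 27) (.e (nat_lit 426107) (nat_lit 1) (.e (nat_lit 164326) (nat_lit 230) (.e (nat_lit 163861) (nat_lit 1) (.e (nat_lit 164381) (nat_lit 254) .nil)))))))) (.g (nat_lit 4) .nil .nil))) 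
(.lf (nat_lit 23547) (.g (nat_lit 1642) (.e (nat_lit 1187) (nat_lit 88) (.e (nat_lit 65624) (nat_lit 12) (.e (nat_lit 385105) (nat_lit 50) (.e (nat_lit 786483) (nat_lit 30) .nil)))) .nil)))))) (.nd (nat_lit 3) (.nd (nat_lit 4) (.nd (nat_lit 5) (.nd (nat_lit 6) 
(.lf (nat_lit 23431) (.g (nat_lit 2443) (.e (nat_lit 1186) (nat_lit 87) (.e (nat_lit 57849) (nat_lit 252) (.e (nat_lit 57411) (nat_lit 12) (.e (nat_lit 336211) (nat_lit 13) (.e (nat_lit 393291) (nat_lit 26) (.e (nat_lit 475201) (nat_lit 40) (.e (nat_lit 704635) (nat_lit 9) .nil))))))) (.g (nat_lit 5) .nil .nil))) 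
(.lf (nat_lit 23495) (.g (nat_lit 2475) (.e (nat_lit 1187) (nat_lit 88) (.e (nat_lit 65586) (nat_lit 7) (.e (nat_lit 319531) (nat_lit 16) (.e (nat_lit 286767) (nat_lit 27) (.e (nat_lit 426107) (nat_lit 1) (.e (nat_lit 164326) (nat_lit 230) (.e (nat_lit 163861) (nat_lit 1) (.e (nat_lit 164380) (nat_lit 254) .nil)))))))) (.g (nat_lit 4) .nil .nil)))) (.nd (nat_lit 6) 
(.lf (nat_lit 23463) (.g (nat_lit 1959) (.e (nat_lit 7936) (nat_lit 87) (.e (nat_lit 57479) (nat_lit 28) (.e (nat_lit 557109) (nat_lit 15) (.e (nat_lit 196352) (nat_lit 18) .nil)))) .nil)) 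
(.lf (nat_lit 23527) (.g (nat_lit 441) (.e (nat_lit 1187) (nat_lit 88) (.e (nat_lit 65619) (nat_lit 10) (.e (nat_lit 344117) (nat_lit 21) .nil))) .nil)))) (.nd (nat_lit 5) (.nd (nat_lit 6) 
(.lf (nat_lit 23447) (.g (nat_lit 1983) (.e (nat_lit 7936) (nat_lit 87) (.e (nat_lit 57478) (nat_lit 28) (.e (nat_lit 557105) (nat_lit 14) (.e (nat_lit 180251) (nat_lit 10) (.e (nat_lit 573485) (nat_lit 13) .nil))))) .nil)) 
(.lf (nat_lit 23511) (.g (nat_lit 2041) (.e (nat_lit 1187) (nat_lit 88) (.e (nat_lit 65610) (nat_lit 10) (.e (nat_lit 344117) (nat_lit 21) (.e (nat_lit 516195) (nat_lit 26) .nil)))) .nil))) (.nd (nat_lit 6) 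
(.lf (nat_lit 23479) (.g (nat_lit 2533) (.e (nat_lit 1187) (nat_lit 88) (.e (nat_lit 65571) (nat_lit 3) (.e (nat_lit 98372) (nat_lit 29) (.e (nat_lit 450579) (nat_lit 5) (.e (nat_lit 532501) (nat_lit 1) .nil))))) .nil)) 
(.lf (nat_lit 23543) (.g (nat_lit 1753) (.e (nat_lit 1187) (nat_lit 88) (.e (nat_lit 65624) (nat_lit 12) (.e (nat_lit 385094) (nat_lit 49) (.e (nat_lit 778326) (nat_lit 6) .nil)))) .nil))))) (.nd (nat_lit 4) (.nd (nat_lit 5) (.nd (nat_lit 6) 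
(.lf (nat_lit 23439) (.g (nat_lit 1754) (.e (nat_lit 7936) (nat_lit 87) (.e (nat_lit 57464) (nat_lit 23) (.e (nat_lit 516151) (nat_lit 9) (.e (nat_lit 426185) (nat_lit 9) .nil)))) .nil)) 
(.lf (nat_lit 23503) (.g (nat_lit 2916) (.e (nat_lit 1187) (nat_lit 88) (.e (nat_lit 65586) (nat_lit 7) (.e (nat_lit 319534) (nat_lit 16) (.e (nat_lit 286756) (nat_lit 10) (.e (nat_lit 344169) (nat_lit 40) (.e (nat_lit 671751) (nat_lit 0) (.e (nat_lit 1182) (nat_lit 87) (.e (nat_lit 57724) (nat_lit 181) .nil)))))))) (.g (nat_lit 4) .nil .nil)))) (.nd (nat_lit 6) 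
(.lf (nat_lit 23471) (.g (nat_lit 2595) (.e (nat_lit 7936) (nat_lit 87) (.e (nat_lit 57480) (nat_lit 28) (.e (nat_lit 557109) (nat_lit 15) (.e (nat_lit 188422) (nat_lit 11) (.e (nat_lit 336387) (nat_lit 27) .nil))))) .nil)) 
(.lf (nat_lit 23535) (.g (nat_lit 610) (.e (nat_lit 1187) (nat_lit 88) (.e (nat_lit 65619) (nat_lit 10) (.e (nat_lit 344129) (nat_lit 26) .nil))) .nil)))) (.nd (nat_lit 5) (.nd (nat_lit 6) 
(.lf (nat_lit 23455) (.g (nat_lit 2344) (.e (nat_lit 7936) (nat_lit 87) (.e (nat_lit 57479) (nat_lit 28) (.e (nat_lit 557105) (nat_lit 14) (.e (nat_lit 180251) (nat_lit 10) (.e (nat_lit 573485) (nat_lit 13) .nil))))) .nil)) 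
(.lf (nat_lit 23519) (.g (nat_lit 3378) (.e (nat_lit 1187) (nat_lit 88) (.e (nat_lit 65619) (nat_lit 10) (.e (nat_lit 344097) (nat_lit 18) (.e (nat_lit 5906) (nat_lit 320) (.e (nat_lit 1221) (nat_lit 90) (.e (nat_lit 81959) (nat_lit 24) (.e (nat_lit 123181) (nat_lit 264) .nil))))))) (.g (nat_lit 6) .nil .nil)))) (.nd (nat_lit 6) 
(.lf (nat_lit 23487) (.g (nat_lit 1341) (.e (nat_lit 1187) (nat_lit 88) (.e (nat_lit 65586) (nat_lit 7) (.e (nat_lit 319531) (nat_lit 16) (.e (nat_lit 286759) (nat_lit 12) .nil)))) .nil)) 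
(.lf (nat_lit 23551) (.g (nat_lit 1750) (.e (nat_lit 1187) (nat_lit 88) (.e (nat_lit 65624) (nat_lit 12) (.e (nat_lit 385106) (nat_lit 50) (.e (nat_lit 786483) (nat_lit 30) .nil)))) .nil)))))))))

noncomputable def tv334 : DT := (.nd (nat_lit 0) (.nd (nat_lit 1) (.nd (nat_lit 2) (.nd (nat_lit 3) (.nd (nat_lit 4) (.nd (nat_lit 5) (.nd (nat_lit 6) 
(.lf (nat_lit 23552) (.g (nat_lit 680) (.e (nat_lit 1187) (nat_lit 88) (.e (nat_lit 65628) (nat_lit 14) (.e (nat_lit 401437) (nat_lit 9) .nil))) .nil)) 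
(.lf (nat_lit 23616) (.g (nat_lit 2945) (.e (nat_lit 1187) (nat_lit 88) (.e (nat_lit 65630) (nat_lit 14) (.e (nat_lit 401459) (nat_lit 13) (.e (nat_lit 483344) (nat_lit 17) (.e (nat_lit 6152) (nat_lit 332) .nil))))) .nil))) (.nd (nat_lit 6) 
(.lf (nat_lit 23584) (.g (nat_lit 1947) (.e (nat_lit 1187) (nat_lit 88) (.e (nat_lit 65630) (nat_lit 14) (.e (nat_lit 401437) (nat_lit 9) (.e (nat_lit 426546) (nat_lit 30) .nil)))) .nil)) 
(.lf (nat_lit 23648) (.g (nat_lit 3225) (.e (nat_lit 1187) (nat_lit 88) (.e (nat_lit 65630) (nat_lit 14) (.e (nat_lit 401459) (nat_lit 13) (.e (nat_lit 483344) (nat_lit 17) (.e (nat_lit 6714) (nat_lit 360) (.e (nat_lit 163841) (nat_lit 0) (.e (nat_lit 4598) (nat_lit 269) .nil))))))) (.g (nat_lit 5) .nil .nil))))) (.nd (nat_lit 5) (.nd (nat_lit 6) 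
(.lf (nat_lit 23568) (.g (nat_lit 2151) (.e (nat_lit 1187) (nat_lit 88) (.e (nat_lit 65630) (nat_lit 14) (.e (nat_lit 401428) (nat_lit 3) (.e (nat_lit 204866) (nat_lit 28) (.e (nat_lit 352318) (nat_lit 24) .nil))))) .nil)) 
(.lf (nat_lit 23632) (.g (nat_lit 3073) (.e (nat_lit 1187) (nat_lit 88) (.e (nat_lit 65630) (nat_lit 14) (.e (nat_lit 401459) (nat_lit 13) (.e (nat_lit 483344) (nat_lit 17) (.e (nat_lit 7936) (nat_lit 343) (.e (nat_lit 1183) (nat_lit 87) (.e (nat_lit 57872) (nat_lit 264) .nil))))))) (.g (nat_lit 4) .nil .nil)))) (.nd (nat_lit 6) 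
(.lf (nat_lit 23600) (.g (nat_lit 2121) (.e (nat_lit 1187) (nat_lit 88) (.e (nat_lit 65630) (nat_lit 14) (.e (nat_lit 401454) (nat_lit 12) (.e (nat_lit 475212) (nat_lit 42) .nil)))) .nil)) 
(.lf (nat_lit 23664) (.g (nat_lit 2520) (.e (nat_lit 1187) (nat_lit 88) (.e (nat_lit 65630) (nat_lit 14) (.e (nat_lit 401459) (nat_lit 13) (.e (nat_lit 483374) (nat_lit 22) .nil)))) .nil))))) (.nd (nat_lit 4) (.nd (nat_lit 5) (.nd (nat_lit 6) 
(.lf (nat_lit 23560) (.g (nat_lit 2214) (.e (nat_lit 1187) (nat_lit 88) (.e (nat_lit 65629) (nat_lit 14) (.e (nat_lit 401459) (nat_lit 13) (.e (nat_lit 483411) (nat_lit 27) .nil)))) .nil)) 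
(.lf (nat_lit 23624) (.g (nat_lit 3229) (.e (nat_lit 1187) (nat_lit 88) (.e (nat_lit 65630) (nat_lit 14) (.e (nat_lit 401459) (nat_lit 13) (.e (nat_lit 483344) (nat_lit 17) (.e (nat_lit 6230) (nat_lit 335) (.e (nat_lit 164080) (nat_lit 61) (.e (nat_lit 5803) (nat_lit 320) .nil))))))) (.g (nat_lit 5) .nil .nil)))) (.nd (nat_lit 6) 
(.lf (nat_lit 23592) (.g (nat_lit 1579) (.e (nat_lit 1187) (nat_lit 88) (.e (nat_lit 65630) (nat_lit 14) (.e (nat_lit 401438) (nat_lit 9) (.e (nat_lit 426544) (nat_lit 30) .nil)))) .nil)) 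
(.lf (nat_lit 23656) (.g (nat_lit 3697) (.e (nat_lit 1187) (nat_lit 88) (.e (nat_lit 65630) (nat_lit 14) (.e (nat_lit 401459) (nat_lit 13) (.e (nat_lit 483350) (nat_lit 17) (.e (nat_lit 7936) (nat_lit 343) .nil))))) .nil)))) (.nd (nat_lit 5) (.nd (nat_lit 6) 
(.lf (nat_lit 23576) (.g (nat_lit 1457) (.e (nat_lit 1187) (nat_lit 88) (.e (nat_lit 65630) (nat_lit 14) (.e (nat_lit 401436) (nat_lit 9) (.e (nat_lit 426555) (nat_lit 32) .nil)))) .nil)) 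
(.lf (nat_lit 23640) (.g (nat_lit 2977) (.e (nat_lit 1187) (nat_lit 88) (.e (nat_lit 65630) (nat_lit 14) (.e (nat_lit 401459) (nat_lit 13) (.e (nat_lit 483344) (nat_lit 17) (.e (nat_lit 6712) (nat_lit 360) (.e (nat_lit 163843) (nat_lit 0) (.e (nat_lit 4588) (nat_lit 269) .nil))))))) (.g (nat_lit 4) .nil .nil)))) (.nd (nat_lit 6) 
(.lf (nat_lit 23608) (.g (nat_lit 1554) (.e (nat_lit 1187) (nat_lit 88) (.e (nat_lit 65630) (nat_lit 14) (.e (nat_lit 401458) (nat_lit 13) (.e (nat_lit 483395) (nat_lit 24) .nil)))) .nil)) 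
(.lf (nat_lit 23672) (.g (nat_lit 3812) (.e (nat_lit 1187) (nat_lit 88) (.e (nat_lit 65630) (nat_lit 14) (.e (nat_lit 401459) (nat_lit 13) (.e (nat_lit 483380) (nat_lit 23) (.e (nat_lit 335973) (nat_lit 0) .nil))))) .nil)))))) (.nd (nat_lit 3) (.nd (nat_lit 4) (.nd (nat_lit 5) (.nd (nat_lit 6) 
(.lf (nat_lit 23556) (.g (nat_lit 490) (.e (nat_lit 1187) (nat_lit 88) (.e (nat_lit 65629) (nat_lit 14) (.e (nat_lit 401459) (nat_lit 13) .nil))) .nil)) 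
(.lf (nat_lit 23620) (.g (nat_lit 2905) (.e (nat_lit 1187) (nat_lit 88) (.e (nat_lit 65630) (nat_lit 14) (.e (nat_lit 401459) (nat_lit 13) (.e (nat_lit 483344) (nat_lit 17) (.e (nat_lit 6155) (nat_lit 332) .nil))))) .nil))) (.nd (nat_lit 6) 
(.lf (nat_lit 23588) (.g (nat_lit 2575) (.e (nat_lit 1187) (nat_lit 88) (.e (nat_lit 65630) (nat_lit 14) (.e (nat_lit 401438) (nat_lit 9) (.e (nat_lit 426542) (nat_lit 29) (.e (nat_lit 352307) (nat_lit 21) (.e (nat_lit 57872) (nat_lit 264) .nil)))))) (.g (nat_lit 5) .nil .nil))) 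
(.lf (nat_lit 23652) (.g (nat_lit 2258) (.e (nat_lit 1187) (nat_lit 88) (.e (nat_lit 65630) (nat_lit 14) (.e (nat_lit 401459) (nat_lit 13) (.e (nat_lit 483347) (nat_lit 17) .nil)))) .nil)))) (.nd (nat_lit 5) (.nd (nat_lit 6) 
(.lf (nat_lit 23572) (.g (nat_lit 4839) (.e (nat_lit 1187) (nat_lit 88) (.e (nat_lit 65630) (nat_lit 14) (.e (nat_lit 401428) (nat_lit 3) (.e (nat_lit 204869) (nat_lit 29) (.e (nat_lit 360450) (nat_lit 0) (.e (nat_lit 3950) (nat_lit 239) .nil)))))) (.g (nat_lit 0) .nil .nil))) 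
(.lf (nat_lit 23636) (.g (nat_lit 2912) (.e (nat_lit 1187) (nat_lit 88) (.e (nat_lit 65630) (nat_lit 14) (.e (nat_lit 401459) (nat_lit 13) (.e (nat_lit 483344) (nat_lit 17) (.e (nat_lit 7936) (nat_lit 346) .nil))))) .nil))) (.nd (nat_lit 6) 
(.lf (nat_lit 23604) (.g (nat_lit 1253) (.e (nat_lit 1187) (nat_lit 88) (.e (nat_lit 65630) (nat_lit 14) (.e (nat_lit 401457) (nat_lit 13) (.e (nat_lit 491264) (nat_lit 23) .nil)))) .nil)) 
(.lf (nat_lit 23668) (.g (nat_lit 3287) (.e (nat_lit 1187) (nat_lit 88) (.e (nat_lit 65630) (nat_lit 14) (.e (nat_lit 401459) (nat_lit 13) (.e (nat_lit 483375) (nat_lit 22) (.e (nat_lit 327692) (nat_lit 1) (.e (nat_lit 8435) (nat_lit 138) .nil)))))) (.g (nat_lit 5) .nil .nil)))))) (.nd (nat_lit 4) (.nd (nat_lit 5) (.nd (nat_lit 6) 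
(.lf (nat_lit 23564) (.g (nat_lit 1955) (.e (nat_lit 1187) (nat_lit 88) (.e (nat_lit 65630) (nat_lit 14) (.e (nat_lit 401425) (nat_lit 2) (.e (nat_lit 196666) (nat_lit 13) (.e (nat_lit 65617) (nat_lit 10) (.e (nat_lit 344096) (nat_lit 18) (.e (nat_lit 3959) (nat_lit 239) .nil))))))) (.g (nat_lit 4) .nil .nil))) 
(.lf (nat_lit 23628) (.g (nat_lit 3134) (.e (nat_lit 1187) (nat_lit 88) (.e (nat_lit 65630) (nat_lit 14) (.e (nat_lit 401459) (nat_lit 13) (.e (nat_lit 483344) (nat_lit 17) (.e (nat_lit 6436) (nat_lit 343) .nil))))) .nil))) (.nd (nat_lit 6) 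
(.lf (nat_lit 23596) (.g (nat_lit 1707) (.e (nat_lit 1187) (nat_lit 88) (.e (nat_lit 65630) (nat_lit 14) (.e (nat_lit 401438) (nat_lit 9) (.e (nat_lit 426555) (nat_lit 32) .nil)))) .nil)) 
(.lf (nat_lit 23660) (.g (nat_lit 3663) (.e (nat_lit 1187) (nat_lit 88) (.e (nat_lit 65630) (nat_lit 14) (.e (nat_lit 401459) (nat_lit 13) (.e (nat_lit 483372) (nat_lit 21) (.e (nat_lit 327424) (nat_lit 0) .nil))))) .nil)))) (.nd (nat_lit 5) (.nd (nat_lit 6) 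
(.lf (nat_lit 23580) (.g (nat_lit 2437) (.e (nat_lit 1187) (nat_lit 88) (.e (nat_lit 65630) (nat_lit 14) (.e (nat_lit 401437) (nat_lit 9) (.e (nat_lit 426542) (nat_lit 29) (.e (nat_lit 352307) (nat_lit 21) .nil))))) .nil)) 
(.lf (nat_lit 23644) (.g (nat_lit 3742) (.e (nat_lit 1187) (nat_lit 88) (.e (nat_lit 65630) (nat_lit 14) (.e (nat_lit 401459) (nat_lit 13) (.e (nat_lit 483344) (nat_lit 17) (.e (nat_lit 6712) (nat_lit 360) (.e (nat_lit 163850) (nat_lit 0) (.e (nat_lit 4607) (nat_lit 269) .nil))))))) (.g (nat_lit 5) .nil .nil)))) (.nd (nat_lit 6) 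
(.lf (nat_lit 23612) (.g (nat_lit 2662) (.e (nat_lit 1187) (nat_lit 88) (.e (nat_lit 65630) (nat_lit 14) (.e (nat_lit 401459) (nat_lit 13) (.e (nat_lit 483342) (nat_lit 17) .nil)))) .nil)) 
(.lf (nat_lit 23676) (.g (nat_lit 2647) (.e (nat_lit 1187) (nat_lit 88) (.e (nat_lit 65630) (nat_lit 14) (.e (nat_lit 401459) (nat_lit 13) (.e (nat_lit 483383) (nat_lit 23) .nil)))) .nil))))))) (.nd (nat_lit 2) (.nd (nat_lit 3) (.nd (nat_lit 4) (.nd (nat_lit 5) (.nd (nat_lit 6) 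
(.lf (nat_lit 23554) (.g (nat_lit 606) (.e (nat_lit 1187) (nat_lit 88) (.e (nat_lit 65628) (nat_lit 14) (.e (nat_lit 401459) (nat_lit 13) .nil))) .nil)) 
(.lf (nat_lit 23618) (.g (nat_lit 2963) (.e (nat_lit 1187) (nat_lit 88) (.e (nat_lit 65630) (nat_lit 14) (.e (nat_lit 401459) (nat_lit 13) (.e (nat_lit 483344) (nat_lit 17) (.e (nat_lit 6154) (nat_lit 332) .nil))))) .nil))) (.nd (nat_lit 6) 
(.lf (nat_lit 23586) (.g (nat_lit 1536) (.e (nat_lit 1187) (nat_lit 88) (.e (nat_lit 65630) (nat_lit 14) (.e (nat_lit 401438) (nat_lit 9) (.e (nat_lit 426542) (nat_lit 29) .nil)))) .nil)) 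
(.lf (nat_lit 23650) (.g (nat_lit 4486) (.e (nat_lit 1187) (nat_lit 88) (.e (nat_lit 65630) (nat_lit 14) (.e (nat_lit 401459) (nat_lit 13) (.e (nat_lit 483344) (nat_lit 17) (.e (nat_lit 6714) (nat_lit 360) (.e (nat_lit 163850) (nat_lit 0) (.e (nat_lit 4606) (nat_lit 269) .nil))))))) (.g (nat_lit 7) .nil .nil))))) (.nd (nat_lit 5) (.nd (nat_lit 6) 
(.lf (nat_lit 23570) (.g (nat_lit 1145) (.e (nat_lit 1187) (nat_lit 88) (.e (nat_lit 65630) (nat_lit 14) (.e (nat_lit 401428) (nat_lit 3) (.e (nat_lit 204869) (nat_lit 29) .nil)))) .nil)) 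
(.lf (nat_lit 23634) (.g (nat_lit 4745) (.e (nat_lit 1187) (nat_lit 88) (.e (nat_lit 65630) (nat_lit 14) (.e (nat_lit 401459) (nat_lit 13) (.e (nat_lit 483344) (nat_lit 17) (.e (nat_lit 6514) (nat_lit 346) (.e (nat_lit 57354) (nat_lit 0) (.e (nat_lit 5906) (nat_lit 320) .nil))))))) (.g (nat_lit 7) .nil .nil)))) (.nd (nat_lit 6) 
(.lf (nat_lit 23602) (.g (nat_lit 859) (.e (nat_lit 1187) (nat_lit 88) (.e (nat_lit 65630) (nat_lit 14) (.e (nat_lit 401456) (nat_lit 13) .nil))) .nil)) 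
(.lf (nat_lit 23666) (.g (nat_lit 2150) (.e (nat_lit 1187) (nat_lit 88) (.e (nat_lit 65630) (nat_lit 14) (.e (nat_lit 401459) (nat_lit 13) (.e (nat_lit 483375) (nat_lit 22) .nil)))) .nil))))) (.nd (nat_lit 4) (.nd (nat_lit 5) (.nd (nat_lit 6) 
(.lf (nat_lit 23562) (.g (nat_lit 2028) (.e (nat_lit 1187) (nat_lit 88) (.e (nat_lit 65630) (nat_lit 14) (.e (nat_lit 401425) (nat_lit 2) (.e (nat_lit 196666) (nat_lit 13) (.e (nat_lit 65617) (nat_lit 10) (.e (nat_lit 344091) (nat_lit 18) (.e (nat_lit 3950) (nat_lit 239) .nil))))))) (.g (nat_lit 4) .nil .nil))) 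
(.lf (nat_lit 23626) (.g (nat_lit 2944) (.e (nat_lit 1187) (nat_lit 88) (.e (nat_lit 65630) (nat_lit 14) (.e (nat_lit 401459) (nat_lit 13) (.e (nat_lit 483344) (nat_lit 17) (.e (nat_lit 6434) (nat_lit 343) .nil))))) .nil))) (.nd (nat_lit 6) 
(.lf (nat_lit 23594) (.g (nat_lit 1578) (.e (nat_lit 1187) (nat_lit 88) (.e (nat_lit 65630) (nat_lit 14) (.e (nat_lit 401438) (nat_lit 9) (.e (nat_lit 426546) (nat_lit 30) .nil)))) .nil)) 
(.lf (nat_lit 23658) (.g (nat_lit 2374) (.e (nat_lit 1187) (nat_lit 88) (.e (nat_lit 65630) (nat_lit 14) (.e (nat_lit 401459) (nat_lit 13) (.e (nat_lit 483354) (nat_lit 17) .nil)))) .nil)))) (.nd (nat_lit 5) (.nd (nat_lit 6) 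
(.lf (nat_lit 23578) (.g (nat_lit 1940) (.e (nat_lit 1187) (nat_lit 88) (.e (nat_lit 65630) (nat_lit 14) (.e (nat_lit 401437) (nat_lit 9) (.e (nat_lit 426538) (nat_lit 29) .nil)))) .nil)) 
(.lf (nat_lit 23642) (.g (nat_lit 4295) (.e (nat_lit 1187) (nat_lit 88) (.e (nat_lit 65630) (nat_lit 14) (.e (nat_lit 401459) (nat_lit 13) (.e (nat_lit 483344) (nat_lit 17) (.e (nat_lit 6712) (nat_lit 360) (.e (nat_lit 163844) (nat_lit 0) (.e (nat_lit 4598) (nat_lit 269) .nil))))))) (.g (nat_lit 6) .nil .nil)))) (.nd (nat_lit 6) 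
(.lf (nat_lit 23610) (.g (nat_lit 1495) (.e (nat_lit 1187) (nat_lit 88) (.e (nat_lit 65630) (nat_lit 14) (.e (nat_lit 401458) (nat_lit 13) (.e (nat_lit 483399) (nat_lit 25) .nil)))) .nil)) 
(.lf (nat_lit 23674) (.g (nat_lit 3090) (.e (nat_lit 1187) (nat_lit 88) (.e (nat_lit 65630) (nat_lit 14) (.e (nat_lit 401459) (nat_lit 13) (.e (nat_lit 483380) (nat_lit 23) (.e (nat_lit 336310) (nat_lit 16) .nil))))) .nil)))))) (.nd (nat_lit 3) (.nd (nat_lit 4) (.nd (nat_lit 5) (.nd (nat_lit 6) 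
(.lf (nat_lit 23558) (.g (nat_lit 2915) (.e (nat_lit 1187) (nat_lit 88) (.e (nat_lit 65629) (nat_lit 14) (.e (nat_lit 401459) (nat_lit 13) (.e (nat_lit 483350) (nat_lit 17) .nil)))) .nil)) 
(.lf (nat_lit 23622) (.g (nat_lit 3146) (.e (nat_lit 1187) (nat_lit 88) (.e (nat_lit 65630) (nat_lit 14) (.e (nat_lit 401459) (nat_lit 13) (.e (nat_lit 483344) (nat_lit 17) (.e (nat_lit 6203) (nat_lit 332) (.e (nat_lit 2544) (nat_lit 158) (.e (nat_lit 8439) (nat_lit 138) .nil))))))) (.g (nat_lit 4) .nil .nil)))) (.nd (nat_lit 6) 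
(.lf (nat_lit 23590) (.g (nat_lit 2234) (.e (nat_lit 1187) (nat_lit 88) (.e (nat_lit 65630) (nat_lit 14) (.e (nat_lit 401438) (nat_lit 9) (.e (nat_lit 426542) (nat_lit 29) (.e (nat_lit 352316) (nat_lit 24) (.e (nat_lit 123182) (nat_lit 264) .nil)))))) (.g (nat_lit 4) .nil .nil))) 
(.lf (nat_lit 23654) (.g (nat_lit 3323) (.e (nat_lit 1187) (nat_lit 88) (.e (nat_lit 65630) (nat_lit 14) (.e (nat_lit 401459) (nat_lit 13) (.e (nat_lit 483350) (nat_lit 17) (.e (nat_lit 6113) (nat_lit 332) .nil))))) .nil)))) (.nd (nat_lit 5) (.nd (nat_lit 6) 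
(.lf (nat_lit 23574) (.g (nat_lit 698) (.e (nat_lit 1187) (nat_lit 88) (.e (nat_lit 65630) (nat_lit 14) (.e (nat_lit 401436) (nat_lit 9) .nil))) .nil)) 
(.lf (nat_lit 23638) (.g (nat_lit 3837) (.e (nat_lit 1187) (nat_lit 88) (.e (nat_lit 65630) (nat_lit 14) (.e (nat_lit 401459) (nat_lit 13) (.e (nat_lit 483344) (nat_lit 17) (.e (nat_lit 6619) (nat_lit 357) (.e (nat_lit 2612) (nat_lit 163) (.e (nat_lit 164423) (nat_lit 272) .nil))))))) (.g (nat_lit 7) .nil .nil)))) (.nd (nat_lit 6) 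
(.lf (nat_lit 23606) (.g (nat_lit 1461) (.e (nat_lit 1187) (nat_lit 88) (.e (nat_lit 65630) (nat_lit 14) (.e (nat_lit 401458) (nat_lit 13) (.e (nat_lit 483383) (nat_lit 23) .nil)))) .nil)) 
(.lf (nat_lit 23670) (.g (nat_lit 2626) (.e (nat_lit 1187) (nat_lit 88) (.e (nat_lit 65630) (nat_lit 14) (.e (nat_lit 401459) (nat_lit 13) (.e (nat_lit 483378) (nat_lit 23) (.e (nat_lit 335997) (nat_lit 1) (.e (nat_lit 57872) (nat_lit 264) .nil)))))) (.g (nat_lit 4) .nil .nil)))))) (.nd (nat_lit 4) (.nd (nat_lit 5) (.nd (nat_lit 6) 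
(.lf (nat_lit 23566) (.g (nat_lit 2436) (.e (nat_lit 1187) (nat_lit 88) (.e (nat_lit 65630) (nat_lit 14) (.e (nat_lit 401425) (nat_lit 2) (.e (nat_lit 196674) (nat_lit 15) .nil)))) .nil)) 
(.lf (nat_lit 23630) (.g (nat_lit 3234) (.e (nat_lit 1187) (nat_lit 88) (.e (nat_lit 65630) (nat_lit 14) (.e (nat_lit 401459) (nat_lit 13) (.e (nat_lit 483344) (nat_lit 17) (.e (nat_lit 6479) (nat_lit 343) .nil))))) .nil))) (.nd (nat_lit 6) 
(.lf (nat_lit 23598) (.g (nat_lit 2374) (.e (nat_lit 1187) (nat_lit 88) (.e (nat_lit 65630) (nat_lit 14) (.e (nat_lit 401438) (nat_lit 9) (.e (nat_lit 426555) (nat_lit 32) (.e (nat_lit 376859) (nat_lit 21) .nil))))) .nil)) 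
(.lf (nat_lit 23662) (.g (nat_lit 4942) (.e (nat_lit 1187) (nat_lit 88) (.e (nat_lit 65630) (nat_lit 14) (.e (nat_lit 401459) (nat_lit 13) (.e (nat_lit 483372) (nat_lit 21) (.e (nat_lit 319514) (nat_lit 11) .nil))))) .nil)))) (.nd (nat_lit 5) (.nd (nat_lit 6) 
(.lf (nat_lit 23582) (.g (nat_lit 2468) (.e (nat_lit 1187) (nat_lit 88) (.e (nat_lit 65630) (nat_lit 14) (.e (nat_lit 401437) (nat_lit 9) (.e (nat_lit 426542) (nat_lit 29) (.e (nat_lit 352318) (nat_lit 24) .nil))))) .nil)) 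
(.lf (nat_lit 23646) (.g (nat_lit 2729) (.e (nat_lit 1187) (nat_lit 88) (.e (nat_lit 65630) (nat_lit 14) (.e (nat_lit 401459) (nat_lit 13) (.e (nat_lit 483344) (nat_lit 17) (.e (nat_lit 6714) (nat_lit 360) .nil))))) .nil))) (.nd (nat_lit 6) 
(.lf (nat_lit 23614) (.g (nat_lit 2612) (.e (nat_lit 1187) (nat_lit 88) (.e (nat_lit 65630) (nat_lit 14) (.e (nat_lit 401459) (nat_lit 13) (.e (nat_lit 483343) (nat_lit 17) (.e (nat_lit 6514) (nat_lit 346) (.e (nat_lit 57354) (nat_lit 0) (.e (nat_lit 5906) (nat_lit 320) .nil))))))) (.g (nat_lit 4) .nil .nil))) 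
(.lf (nat_lit 23678) (.g (nat_lit 2511) (.e (nat_lit 1187) (nat_lit 88) (.e (nat_lit 65630) (nat_lit 14) (.e (nat_lit 401459) (nat_lit 13) (.e (nat_lit 483386) (nat_lit 23) (.e (nat_lit 336030) (nat_lit 4) .nil))))) .nil)))))))) (.nd (nat_lit 1) (.nd (nat_lit 2) (.nd (nat_lit 3) (.nd (nat_lit 4) (.nd (nat_lit 5) (.nd (nat_lit 6) 
(.lf (nat_lit 23553) (.g (nat_lit 671) (.e (nat_lit 1187) (nat_lit 88) (.e (nat_lit 65628) (nat_lit 14) (.e (nat_lit 401458) (nat_lit 13) .nil))) .nil)) 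
(.lf (nat_lit 23617) (.g (nat_lit 3766) (.e (nat_lit 1187) (nat_lit 88) (.e (nat_lit 65630) (nat_lit 14) (.e (nat_lit 401459) (nat_lit 13) (.e (nat_lit 483344) (nat_lit 17) (.e (nat_lit 6152) (nat_lit 332) (.e (nat_lit 2545) (nat_lit 158) (.e (nat_lit 8435) (nat_lit 138) .nil))))))) (.g (nat_lit 7) .nil .nil)))) (.nd (nat_lit 6) 
(.lf (nat_lit 23585) (.g (nat_lit 1802) (.e (nat_lit 1187) (nat_lit 88) (.e (nat_lit 65630) (nat_lit 14) (.e (nat_lit 401437) (nat_lit 9) (.e (nat_lit 426555) (nat_lit 32) .nil)))) .nil)) 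
(.lf (nat_lit 23649) (.g (nat_lit 4361) (.e (nat_lit 1187) (nat_lit 88) (.e (nat_lit 65630) (nat_lit 14) (.e (nat_lit 401459) (nat_lit 13) (.e (nat_lit 483344) (nat_lit 17) (.e (nat_lit 6714) (nat_lit 360) (.e (nat_lit 163850) (nat_lit 0) (.e (nat_lit 4605) (nat_lit 269) .nil))))))) (.g (nat_lit 7) .nil .nil))))) (.nd (nat_lit 5) (.nd (nat_lit 6) 
(.lf (nat_lit 23569) (.g (nat_lit 2726) (.e (nat_lit 1187) (nat_lit 88) (.e (nat_lit 65630) (nat_lit 14) (.e (nat_lit 401428) (nat_lit 3) (.e (nat_lit 204868) (nat_lit 29) (.e (nat_lit 360452) (nat_lit 0) (.e (nat_lit 3946) (nat_lit 239) .nil)))))) (.g (nat_lit 5) .nil .nil))) 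
(.lf (nat_lit 23633) (.g (nat_lit 2838) (.e (nat_lit 1187) (nat_lit 88) (.e (nat_lit 65630) (nat_lit 14) (.e (nat_lit 401459) (nat_lit 13) (.e (nat_lit 483344) (nat_lit 17) (.e (nat_lit 6513) (nat_lit 346) .nil))))) .nil))) (.nd (nat_lit 6) 
(.lf (nat_lit 23601) (.g (nat_lit 2883) (.e (nat_lit 1187) (nat_lit 88) (.e (nat_lit 65630) (nat_lit 14) (.e (nat_lit 401454) (nat_lit 12) (.e (nat_lit 475213) (nat_lit 42) .nil)))) .nil)) 
(.lf (nat_lit 23665) (.g (nat_lit 2869) (.e (nat_lit 1187) (nat_lit 88) (.e (nat_lit 65630) (nat_lit 14) (.e (nat_lit 401459) (nat_lit 13) (.e (nat_lit 483374) (nat_lit 22) (.e (nat_lit 327684) (nat_lit 0) (.e (nat_lit 81) (nat_lit 0) (.e (nat_lit 5827) (nat_lit 320) .nil))))))) (.g (nat_lit 4) .nil .nil)))))) (.nd (nat_lit 4) (.nd (nat_lit 5) (.nd (nat_lit 6) 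
(.lf (nat_lit 23561) (.g (nat_lit 1440) (.e (nat_lit 1187) (nat_lit 88) (.e (nat_lit 65630) (nat_lit 14) (.e (nat_lit 401425) (nat_lit 2) (.e (nat_lit 196666) (nat_lit 13) .nil)))) .nil)) 
(.lf (nat_lit 23625) (.g (nat_lit 2840) (.e (nat_lit 1187) (nat_lit 88) (.e (nat_lit 65630) (nat_lit 14) (.e (nat_lit 401459) (nat_lit 13) (.e (nat_lit 483344) (nat_lit 17) (.e (nat_lit 6235) (nat_lit 335) .nil))))) .nil))) (.nd (nat_lit 6) 
(.lf (nat_lit 23593) (.g (nat_lit 1915) (.e (nat_lit 1187) (nat_lit 88) (.e (nat_lit 65630) (nat_lit 14) (.e (nat_lit 401438) (nat_lit 9) (.e (nat_lit 426544) (nat_lit 30) (.e (nat_lit 360453) (nat_lit 0) .nil))))) .nil)) 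
(.lf (nat_lit 23657) (.g (nat_lit 3697) (.e (nat_lit 1187) (nat_lit 88) (.e (nat_lit 65630) (nat_lit 14) (.e (nat_lit 401459) (nat_lit 13) (.e (nat_lit 483350) (nat_lit 17) (.e (nat_lit 7936) (nat_lit 346) .nil))))) .nil)))) (.nd (nat_lit 5) (.nd (nat_lit 6) 
(.lf (nat_lit 23577) (.g (nat_lit 611) (.e (nat_lit 1187) (nat_lit 88) (.e (nat_lit 65630) (nat_lit 14) (.e (nat_lit 401437) (nat_lit 9) .nil))) .nil)) 
(.lf (nat_lit 23641) (.g (nat_lit 3025) (.e (nat_lit 1187) (nat_lit 88) (.e (nat_lit 65630) (nat_lit 14) (.e (nat_lit 401459) (nat_lit 13) (.e (nat_lit 483344) (nat_lit 17) (.e (nat_lit 6712) (nat_lit 360) (.e (nat_lit 163844) (nat_lit 0) (.e (nat_lit 4588) (nat_lit 269) .nil))))))) (.g (nat_lit 4) .nil .nil)))) (.nd (nat_lit 6) 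
(.lf (nat_lit 23609) (.g (nat_lit 1501) (.e (nat_lit 1187) (nat_lit 88) (.e (nat_lit 65630) (nat_lit 14) (.e (nat_lit 401458) (nat_lit 13) (.e (nat_lit 483398) (nat_lit 25) .nil)))) .nil)) 
(.lf (nat_lit 23673) (.g (nat_lit 3027) (.e (nat_lit 1187) (nat_lit 88) (.e (nat_lit 65630) (nat_lit 14) (.e (nat_lit 401459) (nat_lit 13) (.e (nat_lit 483380) (nat_lit 23) (.e (nat_lit 336258) (nat_lit 15) .nil))))) .nil)))))) (.nd (nat_lit 3) (.nd (nat_lit 4) (.nd (nat_lit 5) (.nd (nat_lit 6) 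
(.lf (nat_lit 23557) (.g (nat_lit 1806) (.e (nat_lit 1187) (nat_lit 88) (.e (nat_lit 65629) (nat_lit 14) (.e (nat_lit 401459) (nat_lit 13) (.e (nat_lit 483344) (nat_lit 17) .nil)))) .nil)) 
(.lf (nat_lit 23621) (.g (nat_lit 2971) (.e (nat_lit 1187) (nat_lit 88) (.e (nat_lit 65630) (nat_lit 14) (.e (nat_lit 401459) (nat_lit 13) (.e (nat_lit 483344) (nat_lit 17) (.e (nat_lit 6203) (nat_lit 332) .nil))))) .nil))) (.nd (nat_lit 6) 
(.lf (nat_lit 23589) (.g (nat_lit 2083) (.e (nat_lit 1187) (nat_lit 88) (.e (nat_lit 65630) (nat_lit 14) (.e (nat_lit 401438) (nat_lit 9) (.e (nat_lit 426542) (nat_lit 29) (.e (nat_lit 352307) (nat_lit 21) (.e (nat_lit 57873) (nat_lit 264) .nil)))))) (.g (nat_lit 4) .nil .nil))) 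
(.lf (nat_lit 23653) (.g (nat_lit 2574) (.e (nat_lit 1187) (nat_lit 88) (.e (nat_lit 65630) (nat_lit 14) (.e (nat_lit 401459) (nat_lit 13) (.e (nat_lit 483350) (nat_lit 17) .nil)))) .nil)))) (.nd (nat_lit 5) (.nd (nat_lit 6) 
(.lf (nat_lit 23573) (.g (nat_lit 5118) (.e (nat_lit 1187) (nat_lit 88) (.e (nat_lit 65630) (nat_lit 14) (.e (nat_lit 401428) (nat_lit 3) (.e (nat_lit 204869) (nat_lit 29) (.e (nat_lit 360451) (nat_lit 0) (.e (nat_lit 3950) (nat_lit 239) .nil)))))) (.g (nat_lit 0) .nil .nil))) 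
(.lf (nat_lit 23637) (.g (nat_lit 2850) (.e (nat_lit 1187) (nat_lit 88) (.e (nat_lit 65630) (nat_lit 14) (.e (nat_lit 401459) (nat_lit 13) (.e (nat_lit 483344) (nat_lit 17) (.e (nat_lit 6522) (nat_lit 349) .nil))))) .nil))) (.nd (nat_lit 6) 
(.lf (nat_lit 23605) (.g (nat_lit 640) (.e (nat_lit 1187) (nat_lit 88) (.e (nat_lit 65630) (nat_lit 14) (.e (nat_lit 401458) (nat_lit 13) .nil))) .nil)) 
(.lf (nat_lit 23669) (.g (nat_lit 2213) (.e (nat_lit 1187) (nat_lit 88) (.e (nat_lit 65630) (nat_lit 14) (.e (nat_lit 401459) (nat_lit 13) (.e (nat_lit 483378) (nat_lit 23) .nil)))) .nil))))) (.nd (nat_lit 4) (.nd (nat_lit 5) (.nd (nat_lit 6) 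
(.lf (nat_lit 23565) (.g (nat_lit 2286) (.e (nat_lit 1187) (nat_lit 88) (.e (nat_lit 65630) (nat_lit 14) (.e (nat_lit 401425) (nat_lit 2) (.e (nat_lit 196672) (nat_lit 15) .nil)))) .nil)) 
(.lf (nat_lit 23629) (.g (nat_lit 2832) (.e (nat_lit 1187) (nat_lit 88) (.e (nat_lit 65630) (nat_lit 14) (.e (nat_lit 401459) (nat_lit 13) (.e (nat_lit 483344) (nat_lit 17) (.e (nat_lit 6440) (nat_lit 343) .nil))))) .nil))) (.nd (nat_lit 6) 
(.lf (nat_lit 23597) (.g (nat_lit 2403) (.e (nat_lit 1187) (nat_lit 88) (.e (nat_lit 65630) (nat_lit 14) (.e (nat_lit 401438) (nat_lit 9) (.e (nat_lit 426555) (nat_lit 32) (.e (nat_lit 376857) (nat_lit 21) .nil))))) .nil)) 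
(.lf (nat_lit 23661) (.g (nat_lit 3663) (.e (nat_lit 1187) (nat_lit 88) (.e (nat_lit 65630) (nat_lit 14) (.e (nat_lit 401459) (nat_lit 13) (.e (nat_lit 483372) (nat_lit 21) (.e (nat_lit 327424) (nat_lit 1) .nil))))) .nil)))) (.nd (nat_lit 5) (.nd (nat_lit 6) 
(.lf (nat_lit 23581) (.g (nat_lit 2468) (.e (nat_lit 1187) (nat_lit 88) (.e (nat_lit 65630) (nat_lit 14) (.e (nat_lit 401437) (nat_lit 9) (.e (nat_lit 426542) (nat_lit 29) (.e (nat_lit 352309) (nat_lit 21) .nil))))) .nil)) 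
(.lf (nat_lit 23645) (.g (nat_lit 2945) (.e (nat_lit 1187) (nat_lit 88) (.e (nat_lit 65630) (nat_lit 14) (.e (nat_lit 401459) (nat_lit 13) (.e (nat_lit 483344) (nat_lit 17) (.e (nat_lit 6712) (nat_lit 360) (.e (nat_lit 163853) (nat_lit 0) (.e (nat_lit 4607) (nat_lit 269) .nil))))))) (.g (nat_lit 4) .nil .nil)))) (.nd (nat_lit 6) 
(.lf (nat_lit 23613) (.g (nat_lit 2176) (.e (nat_lit 1187) (nat_lit 88) (.e (nat_lit 65630) (nat_lit 14) (.e (nat_lit 401459) (nat_lit 13) (.e (nat_lit 483343) (nat_lit 17) .nil)))) .nil)) 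
(.lf (nat_lit 23677) (.g (nat_lit 2077) (.e (nat_lit 1187) (nat_lit 88) (.e (nat_lit 65630) (nat_lit 14) (.e (nat_lit 401459) (nat_lit 13) (.e (nat_lit 483386) (nat_lit 23) .nil)))) .nil))))))) (.nd (nat_lit 2) (.nd (nat_lit 3) (.nd (nat_lit 4) (.nd (nat_lit 5) (.nd (nat_lit 6) 
(.lf (nat_lit 23555) (.g (nat_lit 1464) (.e (nat_lit 1187) (nat_lit 88) (.e (nat_lit 65628) (nat_lit 14) (.e (nat_lit 401459) (nat_lit 13) (.e (nat_lit 483344) (nat_lit 17) .nil)))) .nil)) 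
(.lf (nat_lit 23619) (.g (nat_lit 3473) (.e (nat_lit 1187) (nat_lit 88) (.e (nat_lit 65630) (nat_lit 14) (.e (nat_lit 401459) (nat_lit 13) (.e (nat_lit 483344) (nat_lit 17) (.e (nat_lit 6154) (nat_lit 332) (.e (nat_lit 2545) (nat_lit 158) (.e (nat_lit 8435) (nat_lit 138) .nil))))))) (.g (nat_lit 5) .nil .nil)))) (.nd (nat_lit 6) 
(.lf (nat_lit 23587) (.g (nat_lit 2070) (.e (nat_lit 1187) (nat_lit 88) (.e (nat_lit 65630) (nat_lit 14) (.e (nat_lit 401438) (nat_lit 9) (.e (nat_lit 426542) (nat_lit 29) (.e (nat_lit 352307) (nat_lit 21) .nil))))) .nil)) 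
(.lf (nat_lit 23651) (.g (nat_lit 4237) (.e (nat_lit 1187) (nat_lit 88) (.e (nat_lit 65630) (nat_lit 14) (.e (nat_lit 401459) (nat_lit 13) (.e (nat_lit 483344) (nat_lit 17) (.e (nat_lit 6714) (nat_lit 360) (.e (nat_lit 163850) (nat_lit 0) (.e (nat_lit 4607) (nat_lit 269) .nil))))))) (.g (nat_lit 7) .nil .nil))))) (.nd (nat_lit 5) (.nd (nat_lit 6) 
(.lf (nat_lit 23571) (.g (nat_lit 2289) (.e (nat_lit 1187) (nat_lit 88) (.e (nat_lit 65630) (nat_lit 14) (.e (nat_lit 401428) (nat_lit 3) (.e (nat_lit 204869) (nat_lit 29) (.e (nat_lit 360448) (nat_lit 0) .nil))))) .nil)) 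
(.lf (nat_lit 23635) (.g (nat_lit 3219) (.e (nat_lit 1187) (nat_lit 88) (.e (nat_lit 65630) (nat_lit 14) (.e (nat_lit 401459) (nat_lit 13) (.e (nat_lit 483344) (nat_lit 17) (.e (nat_lit 6514) (nat_lit 346) (.e (nat_lit 57354) (nat_lit 0) (.e (nat_lit 5907) (nat_lit 320) .nil))))))) (.g (nat_lit 5) .nil .nil)))) (.nd (nat_lit 6) 
(.lf (nat_lit 23603) (.g (nat_lit 678) (.e (nat_lit 1187) (nat_lit 88) (.e (nat_lit 65630) (nat_lit 14) (.e (nat_lit 401457) (nat_lit 13) .nil))) .nil)) 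
(.lf (nat_lit 23667) (.g (nat_lit 2953) (.e (nat_lit 1187) (nat_lit 88) (.e (nat_lit 65630) (nat_lit 14) (.e (nat_lit 401459) (nat_lit 13) (.e (nat_lit 483375) (nat_lit 22) (.e (nat_lit 327692) (nat_lit 1) .nil))))) .nil))))) (.nd (nat_lit 4) (.nd (nat_lit 5) (.nd (nat_lit 6) 
(.lf (nat_lit 23563) (.g (nat_lit 2032) (.e (nat_lit 1187) (nat_lit 88) (.e (nat_lit 65630) (nat_lit 14) (.e (nat_lit 401425) (nat_lit 2) (.e (nat_lit 196666) (nat_lit 13) (.e (nat_lit 65617) (nat_lit 10) (.e (nat_lit 344096) (nat_lit 18) (.e (nat_lit 3957) (nat_lit 239) .nil))))))) (.g (nat_lit 4) .nil .nil))) 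
(.lf (nat_lit 23627) (.g (nat_lit 3004) (.e (nat_lit 1187) (nat_lit 88) (.e (nat_lit 65630) (nat_lit 14) (.e (nat_lit 401459) (nat_lit 13) (.e (nat_lit 483344) (nat_lit 17) (.e (nat_lit 6434) (nat_lit 343) (.e (nat_lit 1183) (nat_lit 87) (.e (nat_lit 57872) (nat_lit 264) .nil))))))) (.g (nat_lit 4) .nil .nil)))) (.nd (nat_lit 6) 
(.lf (nat_lit 23595) (.g (nat_lit 1903) (.e (nat_lit 1187) (nat_lit 88) (.e (nat_lit 65630) (nat_lit 14) (.e (nat_lit 401438) (nat_lit 9) (.e (nat_lit 426546) (nat_lit 30) (.e (nat_lit 360452) (nat_lit 0) (.e (nat_lit 5907) (nat_lit 320) .nil)))))) (.g (nat_lit 4) .nil .nil))) 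
(.lf (nat_lit 23659) (.g (nat_lit 3527) (.e (nat_lit 1187) (nat_lit 88) (.e (nat_lit 65630) (nat_lit 14) (.e (nat_lit 401459) (nat_lit 13) (.e (nat_lit 483371) (nat_lit 21) (.e (nat_lit 319516) (nat_lit 11) .nil))))) .nil)))) (.nd (nat_lit 5) (.nd (nat_lit 6) 
(.lf (nat_lit 23579) (.g (nat_lit 1733) (.e (nat_lit 1187) (nat_lit 88) (.e (nat_lit 65630) (nat_lit 14) (.e (nat_lit 401437) (nat_lit 9) (.e (nat_lit 426542) (nat_lit 29) .nil)))) .nil)) 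
(.lf (nat_lit 23643) (.g (nat_lit 4059) (.e (nat_lit 1187) (nat_lit 88) (.e (nat_lit 65630) (nat_lit 14) (.e (nat_lit 401459) (nat_lit 13) (.e (nat_lit 483344) (nat_lit 17) (.e (nat_lit 6712) (nat_lit 360) (.e (nat_lit 163849) (nat_lit 0) (.e (nat_lit 4598) (nat_lit 269) .nil))))))) (.g (nat_lit 6) .nil .nil)))) (.nd (nat_lit 6) 
(.lf (nat_lit 23611) (.g (nat_lit 553) (.e (nat_lit 1187) (nat_lit 88) (.e (nat_lit 65630) (nat_lit 14) (.e (nat_lit 401459) (nat_lit 13) .nil))) .nil)) 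
(.lf (nat_lit 23675) (.g (nat_lit 3472) (.e (nat_lit 1187) (nat_lit 88) (.e (nat_lit 65630) (nat_lit 14) (.e (nat_lit 401459) (nat_lit 13) (.e (nat_lit 483380) (nat_lit 23) (.e (nat_lit 336310) (nat_lit 16) (.e (nat_lit 164253) (nat_lit 209) .nil)))))) (.g (nat_lit 5) .nil .nil))))))) (.nd (nat_lit 3) (.nd (nat_lit 4) (.nd (nat_lit 5) (.nd (nat_lit 6) 
(.lf (nat_lit 23559) (.g (nat_lit 2384) (.e (nat_lit 1187) (nat_lit 88) (.e (nat_lit 65629) (nat_lit 14) (.e (nat_lit 401459) (nat_lit 13) (.e (nat_lit 483375) (nat_lit 22) .nil)))) .nil)) 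
(.lf (nat_lit 23623) (.g (nat_lit 2972) (.e (nat_lit 1187) (nat_lit 88) (.e (nat_lit 65630) (nat_lit 14) (.e (nat_lit 401459) (nat_lit 13) (.e (nat_lit 483344) (nat_lit 17) (.e (nat_lit 6230) (nat_lit 335) .nil))))) .nil))) (.nd (nat_lit 6) 
(.lf (nat_lit 23591) (.g (nat_lit 2301) (.e (nat_lit 1187) (nat_lit 88) (.e (nat_lit 65630) (nat_lit 14) (.e (nat_lit 401438) (nat_lit 9) (.e (nat_lit 426542) (nat_lit 29) (.e (nat_lit 352318) (nat_lit 24) (.e (nat_lit 123182) (nat_lit 264) .nil)))))) (.g (nat_lit 4) .nil .nil))) 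
(.lf (nat_lit 23655) (.g (nat_lit 3672) (.e (nat_lit 1187) (nat_lit 88) (.e (nat_lit 65630) (nat_lit 14) (.e (nat_lit 401459) (nat_lit 13) (.e (nat_lit 483350) (nat_lit 17) (.e (nat_lit 6490) (nat_lit 343) .nil))))) .nil)))) (.nd (nat_lit 5) (.nd (nat_lit 6) 
(.lf (nat_lit 23575) (.g (nat_lit 1318) (.e (nat_lit 1187) (nat_lit 88) (.e (nat_lit 65630) (nat_lit 14) (.e (nat_lit 401436) (nat_lit 9) (.e (nat_lit 426542) (nat_lit 29) .nil)))) .nil)) 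
(.lf (nat_lit 23639) (.g (nat_lit 2837) (.e (nat_lit 1187) (nat_lit 88) (.e (nat_lit 65630) (nat_lit 14) (.e (nat_lit 401459) (nat_lit 13) (.e (nat_lit 483344) (nat_lit 17) (.e (nat_lit 6712) (nat_lit 360) .nil))))) .nil))) (.nd (nat_lit 6) 
(.lf (nat_lit 23607) (.g (nat_lit 1525) (.e (nat_lit 1187) (nat_lit 88) (.e (nat_lit 65630) (nat_lit 14) (.e (nat_lit 401458) (nat_lit 13) (.e (nat_lit 483394) (nat_lit 24) .nil)))) .nil)) 
(.lf (nat_lit 23671) (.g (nat_lit 2218) (.e (nat_lit 1187) (nat_lit 88) (.e (nat_lit 65630) (nat_lit 14) (.e (nat_lit 401459) (nat_lit 13) (.e (nat_lit 483380) (nat_lit 23) .nil)))) .nil))))) (.nd (nat_lit 4) (.nd (nat_lit 5) (.nd (nat_lit 6) 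
(.lf (nat_lit 23567) (.g (nat_lit 654) (.e (nat_lit 1187) (nat_lit 88) (.e (nat_lit 65630) (nat_lit 14) (.e (nat_lit 401428) (nat_lit 3) .nil))) .nil)) 
(.lf (nat_lit 23631) (.g (nat_lit 2912) (.e (nat_lit 1187) (nat_lit 88) (.e (nat_lit 65630) (nat_lit 14) (.e (nat_lit 401459) (nat_lit 13) (.e (nat_lit 483344) (nat_lit 17) (.e (nat_lit 7936) (nat_lit 343) .nil))))) .nil))) (.nd (nat_lit 6) 
(.lf (nat_lit 23599) (.g (nat_lit 730) (.e (nat_lit 1187) (nat_lit 88) (.e (nat_lit 65630) (nat_lit 14) (.e (nat_lit 401454) (nat_lit 12) .nil))) .nil)) 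
(.lf (nat_lit 23663) (.g (nat_lit 4548) (.e (nat_lit 1187) (nat_lit 88) (.e (nat_lit 65630) (nat_lit 14) (.e (nat_lit 401459) (nat_lit 13) (.e (nat_lit 483372) (nat_lit 21) (.e (nat_lit 319516) (nat_lit 11) .nil))))) .nil)))) (.nd (nat_lit 5) (.nd (nat_lit 6) 
(.lf (nat_lit 23583) (.g (nat_lit 1942) (.e (nat_lit 1187) (nat_lit 88) (.e (nat_lit 65630) (nat_lit 14) (.e (nat_lit 401437) (nat_lit 9) (.e (nat_lit 426544) (nat_lit 30) .nil)))) .nil)) 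
(.lf (nat_lit 23647) (.g (nat_lit 2837) (.e (nat_lit 1187) (nat_lit 88) (.e (nat_lit 65630) (nat_lit 14) (.e (nat_lit 401459) (nat_lit 13) (.e (nat_lit 483344) (nat_lit 17) (.e (nat_lit 6714) (nat_lit 360) (.e (nat_lit 163841) (nat_lit 0) (.e (nat_lit 4588) (nat_lit 269) .nil))))))) (.g (nat_lit 4) .nil .nil)))) (.nd (nat_lit 6) 
(.lf (nat_lit 23615) (.g (nat_lit 2008) (.e (nat_lit 1187) (nat_lit 88) (.e (nat_lit 65630) (nat_lit 14) (.e (nat_lit 401459) (nat_lit 13) (.e (nat_lit 483344) (nat_lit 17) .nil)))) .nil)) 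
(.lf (nat_lit 23679) (.g (nat_lit 2618) (.e (nat_lit 1187) (nat_lit 88) (.e (nat_lit 65630) (nat_lit 14) (.e (nat_lit 401459) (nat_lit 13) (.e (nat_lit 483387) (nat_lit 23) .nil)))) .nil)))))))))

noncomputable def tv335 : DT := (.nd (nat_lit 0) (.nd (nat_lit 1) (.nd (nat_lit 2) (.nd (nat_lit 3) (.nd (nat_lit 4) (.nd (nat_lit 5) (.nd (nat_lit 6) 
(.lf (nat_lit 23680) (.g (nat_lit 2738) (.e (nat_lit 1187) (nat_lit 88) (.e (nat_lit 65630) (nat_lit 14) (.e (nat_lit 401459) (nat_lit 13) (.e (nat_lit 483388) (nat_lit 23) .nil)))) .nil)) 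
(.lf (nat_lit 23744) (.g (nat_lit 1316) (.e (nat_lit 1188) (nat_lit 88) (.e (nat_lit 65624) (nat_lit 12) (.e (nat_lit 385092) (nat_lit 49) (.e (nat_lit 778327) (nat_lit 6) .nil)))) .nil))) (.nd (nat_lit 6) 
(.lf (nat_lit 23712) (.g (nat_lit 3666) (.e (nat_lit 1187) (nat_lit 88) (.e (nat_lit 65630) (nat_lit 14) (.e (nat_lit 401459) (nat_lit 13) (.e (nat_lit 483411) (nat_lit 27) (.e (nat_lit 401414) (nat_lit 0) (.e (nat_lit 2458) (nat_lit 157) (.e (nat_lit 4605) (nat_lit 269) .nil))))))) (.g (nat_lit 5) .nil .nil))) 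
(.lf (nat_lit 23776) (.g (nat_lit 1485) (.e (nat_lit 1188) (nat_lit 88) (.e (nat_lit 65624) (nat_lit 12) (.e (nat_lit 385105) (nat_lit 50) (.e (nat_lit 786481) (nat_lit 30) .nil)))) .nil)))) (.nd (nat_lit 5) (.nd (nat_lit 6) 
(.lf (nat_lit 23696) (.g (nat_lit 2326) (.e (nat_lit 1187) (nat_lit 88) (.e (nat_lit 65630) (nat_lit 14) (.e (nat_lit 401459) (nat_lit 13) (.e (nat_lit 483398) (nat_lit 25) .nil)))) .nil)) 
(.lf (nat_lit 23760) (.g (nat_lit 3023) (.e (nat_lit 1188) (nat_lit 88) (.e (nat_lit 65624) (nat_lit 12) (.e (nat_lit 385094) (nat_lit 49) (.e (nat_lit 778326) (nat_lit 6) (.e (nat_lit 81948) (nat_lit 21) (.e (nat_lit 57873) (nat_lit 264) .nil)))))) (.g (nat_lit 0) .nil .nil)))) (.nd (nat_lit 6) 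
(.lf (nat_lit 23728) (.g (nat_lit 3192) (.e (nat_lit 1188) (nat_lit 88) (.e (nat_lit 65571) (nat_lit 3) (.e (nat_lit 98372) (nat_lit 29) (.e (nat_lit 450579) (nat_lit 5) (.e (nat_lit 532504) (nat_lit 1) (.e (nat_lit 65280) (nat_lit 221) .nil)))))) (.g (nat_lit 5) .nil .nil))) 
(.lf (nat_lit 23792) (.g (nat_lit 2149) (.e (nat_lit 1188) (nat_lit 88) (.e (nat_lit 65624) (nat_lit 12) (.e (nat_lit 385106) (nat_lit 50) (.e (nat_lit 786479) (nat_lit 29) (.e (nat_lit 352309) (nat_lit 21) (.e (nat_lit 57871) (nat_lit 264) .nil)))))) (.g (nat_lit 4) .nil .nil)))))) (.nd (nat_lit 4) (.nd (nat_lit 5) (.nd (nat_lit 6) 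
(.lf (nat_lit 23688) (.g (nat_lit 2949) (.e (nat_lit 1187) (nat_lit 88) (.e (nat_lit 65630) (nat_lit 14) (.e (nat_lit 401459) (nat_lit 13) (.e (nat_lit 483394) (nat_lit 24) (.e (nat_lit 344097) (nat_lit 18) (.e (nat_lit 5905) (nat_lit 320) .nil)))))) (.g (nat_lit 4) .nil .nil))) 
(.lf (nat_lit 23752) (.g (nat_lit 1654) (.e (nat_lit 1188) (nat_lit 88) (.e (nat_lit 65624) (nat_lit 12) (.e (nat_lit 385093) (nat_lit 49) (.e (nat_lit 778327) (nat_lit 6) .nil)))) .nil))) (.nd (nat_lit 6) 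
(.lf (nat_lit 23720) (.g (nat_lit 4120) (.e (nat_lit 1188) (nat_lit 88) (.e (nat_lit 65566) (nat_lit 2) (.e (nat_lit 90170) (nat_lit 13) (.e (nat_lit 172106) (nat_lit 10) (.e (nat_lit 434231) (nat_lit 23) (.e (nat_lit 532500) (nat_lit 1) (.e (nat_lit 65280) (nat_lit 221) .nil))))))) (.g (nat_lit 6) .nil .nil))) 
(.lf (nat_lit 23784) (.g (nat_lit 3070) (.e (nat_lit 1188) (nat_lit 88) (.e (nat_lit 65624) (nat_lit 12) (.e (nat_lit 385105) (nat_lit 50) (.e (nat_lit 786483) (nat_lit 30) (.e (nat_lit 360454) (nat_lit 0) (.e (nat_lit 5907) (nat_lit 320) .nil)))))) (.g (nat_lit 5) .nil .nil))))) (.nd (nat_lit 5) (.nd (nat_lit 6) 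
(.lf (nat_lit 23704) (.g (nat_lit 2730) (.e (nat_lit 1187) (nat_lit 88) (.e (nat_lit 65630) (nat_lit 14) (.e (nat_lit 401459) (nat_lit 13) (.e (nat_lit 483410) (nat_lit 27) (.e (nat_lit 401414) (nat_lit 0) .nil))))) .nil)) 
(.lf (nat_lit 23768) (.g (nat_lit 2475) (.e (nat_lit 1188) (nat_lit 88) (.e (nat_lit 65624) (nat_lit 12) (.e (nat_lit 385094) (nat_lit 49) (.e (nat_lit 778327) (nat_lit 6) (.e (nat_lit 81949) (nat_lit 21) (.e (nat_lit 57870) (nat_lit 264) .nil)))))) (.g (nat_lit 5) .nil .nil)))) (.nd (nat_lit 6) 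
(.lf (nat_lit 23736) (.g (nat_lit 2198) (.e (nat_lit 1188) (nat_lit 88) (.e (nat_lit 65586) (nat_lit 7) (.e (nat_lit 319534) (nat_lit 16) (.e (nat_lit 286756) (nat_lit 10) .nil)))) .nil)) 
(.lf (nat_lit 23800) (.g (nat_lit 2513) (.e (nat_lit 1188) (nat_lit 88) (.e (nat_lit 65624) (nat_lit 12) (.e (nat_lit 385106) (nat_lit 50) (.e (nat_lit 786483) (nat_lit 30) (.e (nat_lit 360451) (nat_lit 0) .nil))))) .nil)))))) (.nd (nat_lit 3) (.nd (nat_lit 4) (.nd (nat_lit 5) (.nd (nat_lit 6) 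
(.lf (nat_lit 23684) (.g (nat_lit 2618) (.e (nat_lit 1187) (nat_lit 88) (.e (nat_lit 65630) (nat_lit 14) (.e (nat_lit 401459) (nat_lit 13) (.e (nat_lit 483393) (nat_lit 23) .nil)))) .nil)) 
(.lf (nat_lit 23748) (.g (nat_lit 2281) (.e (nat_lit 1188) (nat_lit 88) (.e (nat_lit 65624) (nat_lit 12) (.e (nat_lit 385093) (nat_lit 49) (.e (nat_lit 778326) (nat_lit 6) (.e (nat_lit 81948) (nat_lit 21) (.e (nat_lit 57871) (nat_lit 264) .nil)))))) (.g (nat_lit 5) .nil .nil)))) (.nd (nat_lit 6) 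
(.lf (nat_lit 23716) (.g (nat_lit 2920) (.e (nat_lit 1187) (nat_lit 88) (.e (nat_lit 65630) (nat_lit 14) (.e (nat_lit 401459) (nat_lit 13) (.e (nat_lit 483411) (nat_lit 27) (.e (nat_lit 401420) (nat_lit 1) .nil))))) .nil)) 
(.lf (nat_lit 23780) (.g (nat_lit 2111) (.e (nat_lit 1188) (nat_lit 88) (.e (nat_lit 65624) (nat_lit 12) (.e (nat_lit 385105) (nat_lit 50) (.e (nat_lit 786481) (nat_lit 30) (.e (nat_lit 368384) (nat_lit 0) (.e (nat_lit 5906) (nat_lit 320) .nil)))))) (.g (nat_lit 4) .nil .nil))))) (.nd (nat_lit 5) (.nd (nat_lit 6) 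
(.lf (nat_lit 23700) (.g (nat_lit 3279) (.e (nat_lit 1187) (nat_lit 88) (.e (nat_lit 65630) (nat_lit 14) (.e (nat_lit 401459) (nat_lit 13) (.e (nat_lit 483400) (nat_lit 25) (.e (nat_lit 368662) (nat_lit 18) (.e (nat_lit 5906) (nat_lit 320) .nil)))))) (.g (nat_lit 5) .nil .nil))) 
(.lf (nat_lit 23764) (.g (nat_lit 3111) (.e (nat_lit 1188) (nat_lit 88) (.e (nat_lit 65624) (nat_lit 12) (.e (nat_lit 385094) (nat_lit 49) (.e (nat_lit 778326) (nat_lit 6) (.e (nat_lit 81950) (nat_lit 21) (.e (nat_lit 57873) (nat_lit 264) .nil)))))) (.g (nat_lit 0) .nil .nil)))) (.nd (nat_lit 6) 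
(.lf (nat_lit 23732) (.g (nat_lit 2995) (.e (nat_lit 1188) (nat_lit 88) (.e (nat_lit 65571) (nat_lit 3) (.e (nat_lit 98373) (nat_lit 29) (.e (nat_lit 450588) (nat_lit 10) (.e (nat_lit 573475) (nat_lit 12) .nil))))) .nil)) 
(.lf (nat_lit 23796) (.g (nat_lit 2277) (.e (nat_lit 1188) (nat_lit 88) (.e (nat_lit 65624) (nat_lit 12) (.e (nat_lit 385106) (nat_lit 50) (.e (nat_lit 786481) (nat_lit 30) (.e (nat_lit 368384) (nat_lit 0) (.e (nat_lit 5902) (nat_lit 320) .nil)))))) (.g (nat_lit 4) .nil .nil)))))) (.nd (nat_lit 4) (.nd (nat_lit 5) (.nd (nat_lit 6) 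
(.lf (nat_lit 23692) (.g (nat_lit 2746) (.e (nat_lit 1187) (nat_lit 88) (.e (nat_lit 65630) (nat_lit 14) (.e (nat_lit 401459) (nat_lit 13) (.e (nat_lit 483395) (nat_lit 24) (.e (nat_lit 344097) (nat_lit 18) .nil))))) .nil)) 
(.lf (nat_lit 23756) (.g (nat_lit 2662) (.e (nat_lit 1188) (nat_lit 88) (.e (nat_lit 65624) (nat_lit 12) (.e (nat_lit 385093) (nat_lit 49) (.e (nat_lit 778327) (nat_lit 6) (.e (nat_lit 81950) (nat_lit 21) (.e (nat_lit 57872) (nat_lit 264) .nil)))))) (.g (nat_lit 5) .nil .nil)))) (.nd (nat_lit 6) 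
(.lf (nat_lit 23724) (.g (nat_lit 2920) (.e (nat_lit 1188) (nat_lit 88) (.e (nat_lit 65570) (nat_lit 3) (.e (nat_lit 98373) (nat_lit 29) (.e (nat_lit 450588) (nat_lit 10) (.e (nat_lit 573475) (nat_lit 12) .nil))))) .nil)) 
(.lf (nat_lit 23788) (.g (nat_lit 2246) (.e (nat_lit 1188) (nat_lit 88) (.e (nat_lit 65624) (nat_lit 12) (.e (nat_lit 385106) (nat_lit 50) (.e (nat_lit 786478) (nat_lit 29) (.e (nat_lit 352309) (nat_lit 21) .nil))))) .nil)))) (.nd (nat_lit 5) (.nd (nat_lit 6) 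
(.lf (nat_lit 23708) (.g (nat_lit 2987) (.e (nat_lit 1187) (nat_lit 88) (.e (nat_lit 65630) (nat_lit 14) (.e (nat_lit 401459) (nat_lit 13) (.e (nat_lit 483411) (nat_lit 27) (.e (nat_lit 401408) (nat_lit 0) .nil))))) .nil)) 
(.lf (nat_lit 23772) (.g (nat_lit 2576) (.e (nat_lit 1188) (nat_lit 88) (.e (nat_lit 65624) (nat_lit 12) (.e (nat_lit 385104) (nat_lit 50) (.e (nat_lit 786480) (nat_lit 29) (.e (nat_lit 352309) (nat_lit 21) (.e (nat_lit 57872) (nat_lit 264) .nil)))))) (.g (nat_lit 5) .nil .nil)))) (.nd (nat_lit 6) 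
(.lf (nat_lit 23740) (.g (nat_lit 3174) (.e (nat_lit 1188) (nat_lit 88) (.e (nat_lit 65610) (nat_lit 10) (.e (nat_lit 344117) (nat_lit 21) (.e (nat_lit 516099) (nat_lit 0) .nil)))) .nil)) 
(.lf (nat_lit 23804) (.g (nat_lit 2688) (.e (nat_lit 1188) (nat_lit 88) (.e (nat_lit 65624) (nat_lit 12) (.e (nat_lit 385106) (nat_lit 50) (.e (nat_lit 786483) (nat_lit 30) (.e (nat_lit 368384) (nat_lit 0) (.e (nat_lit 5902) (nat_lit 320) .nil)))))) (.g (nat_lit 4) .nil .nil)))))))) (.nd (nat_lit 2) (.nd (nat_lit 3) (.nd (nat_lit 4) (.nd (nat_lit 5) (.nd (nat_lit 6) 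
(.lf (nat_lit 23682) (.g (nat_lit 2695) (.e (nat_lit 1187) (nat_lit 88) (.e (nat_lit 65630) (nat_lit 14) (.e (nat_lit 401459) (nat_lit 13) (.e (nat_lit 483391) (nat_lit 23) .nil)))) .nil)) 
(.lf (nat_lit 23746) (.g (nat_lit 1777) (.e (nat_lit 1188) (nat_lit 88) (.e (nat_lit 65624) (nat_lit 12) (.e (nat_lit 385093) (nat_lit 49) (.e (nat_lit 778323) (nat_lit 5) (.e (nat_lit 81664) (nat_lit 40) .nil))))) .nil))) (.nd (nat_lit 6) 
(.lf (nat_lit 23714) (.g (nat_lit 3552) (.e (nat_lit 1187) (nat_lit 88) (.e (nat_lit 65630) (nat_lit 14) (.e (nat_lit 401459) (nat_lit 13) (.e (nat_lit 483411) (nat_lit 27) (.e (nat_lit 401416) (nat_lit 0) .nil))))) .nil)) 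
(.lf (nat_lit 23778) (.g (nat_lit 2309) (.e (nat_lit 1188) (nat_lit 88) (.e (nat_lit 65624) (nat_lit 12) (.e (nat_lit 385105) (nat_lit 50) (.e (nat_lit 786481) (nat_lit 30) (.e (nat_lit 368384) (nat_lit 0) (.e (nat_lit 5902) (nat_lit 320) .nil)))))) (.g (nat_lit 4) .nil .nil))))) (.nd (nat_lit 5) (.nd (nat_lit 6) 
(.lf (nat_lit 23698) (.g (nat_lit 2727) (.e (nat_lit 1187) (nat_lit 88) (.e (nat_lit 65630) (nat_lit 14) (.e (nat_lit 401459) (nat_lit 13) (.e (nat_lit 483399) (nat_lit 25) (.e (nat_lit 368662) (nat_lit 18) (.e (nat_lit 5907) (nat_lit 320) .nil)))))) (.g (nat_lit 4) .nil .nil))) 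
(.lf (nat_lit 23762) (.g (nat_lit 2752) (.e (nat_lit 1188) (nat_lit 88) (.e (nat_lit 65624) (nat_lit 12) (.e (nat_lit 385094) (nat_lit 49) (.e (nat_lit 778326) (nat_lit 6) (.e (nat_lit 81950) (nat_lit 21) (.e (nat_lit 57871) (nat_lit 264) .nil)))))) (.g (nat_lit 6) .nil .nil)))) (.nd (nat_lit 6) 
(.lf (nat_lit 23730) (.g (nat_lit 2886) (.e (nat_lit 1188) (nat_lit 88) (.e (nat_lit 65571) (nat_lit 3) (.e (nat_lit 98373) (nat_lit 29) (.e (nat_lit 450587) (nat_lit 10) (.e (nat_lit 573478) (nat_lit 12) .nil))))) .nil)) 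
(.lf (nat_lit 23794) (.g (nat_lit 1429) (.e (nat_lit 1188) (nat_lit 88) (.e (nat_lit 65624) (nat_lit 12) (.e (nat_lit 385106) (nat_lit 50) (.e (nat_lit 786481) (nat_lit 30) .nil)))) .nil))))) (.nd (nat_lit 4) (.nd (nat_lit 5) (.nd (nat_lit 6) 
(.lf (nat_lit 23690) (.g (nat_lit 2022) (.e (nat_lit 1187) (nat_lit 88) (.e (nat_lit 65630) (nat_lit 14) (.e (nat_lit 401459) (nat_lit 13) (.e (nat_lit 483395) (nat_lit 24) .nil)))) .nil)) 
(.lf (nat_lit 23754) (.g (nat_lit 2253) (.e (nat_lit 1188) (nat_lit 88) (.e (nat_lit 65624) (nat_lit 12) (.e (nat_lit 385093) (nat_lit 49) (.e (nat_lit 778327) (nat_lit 6) (.e (nat_lit 81949) (nat_lit 21) (.e (nat_lit 57870) (nat_lit 264) .nil)))))) (.g (nat_lit 4) .nil .nil)))) (.nd (nat_lit 6) 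
(.lf (nat_lit 23722) (.g (nat_lit 4607) (.e (nat_lit 1188) (nat_lit 88) (.e (nat_lit 65568) (nat_lit 2) (.e (nat_lit 90170) (nat_lit 13) (.e (nat_lit 172106) (nat_lit 10) (.e (nat_lit 434231) (nat_lit 23) (.e (nat_lit 532500) (nat_lit 1) (.e (nat_lit 65280) (nat_lit 221) .nil))))))) (.g (nat_lit 6) .nil .nil))) 
(.lf (nat_lit 23786) (.g (nat_lit 2532) (.e (nat_lit 1188) (nat_lit 88) (.e (nat_lit 65624) (nat_lit 12) (.e (nat_lit 385105) (nat_lit 50) (.e (nat_lit 786483) (nat_lit 30) (.e (nat_lit 368384) (nat_lit 0) (.e (nat_lit 5902) (nat_lit 320) .nil)))))) (.g (nat_lit 4) .nil .nil))))) (.nd (nat_lit 5) (.nd (nat_lit 6) 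
(.lf (nat_lit 23706) (.g (nat_lit 2883) (.e (nat_lit 1187) (nat_lit 88) (.e (nat_lit 65630) (nat_lit 14) (.e (nat_lit 401459) (nat_lit 13) (.e (nat_lit 483410) (nat_lit 27) (.e (nat_lit 401422) (nat_lit 1) .nil))))) .nil)) 
(.lf (nat_lit 23770) (.g (nat_lit 1835) (.e (nat_lit 1188) (nat_lit 88) (.e (nat_lit 65624) (nat_lit 12) (.e (nat_lit 385104) (nat_lit 50) (.e (nat_lit 786480) (nat_lit 29) (.e (nat_lit 352309) (nat_lit 21) .nil))))) .nil))) (.nd (nat_lit 6) 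
(.lf (nat_lit 23738) (.g (nat_lit 2834) (.e (nat_lit 1188) (nat_lit 88) (.e (nat_lit 65586) (nat_lit 7) (.e (nat_lit 319534) (nat_lit 16) (.e (nat_lit 286756) (nat_lit 10) (.e (nat_lit 344169) (nat_lit 40) .nil))))) .nil)) 
(.lf (nat_lit 23802) (.g (nat_lit 2868) (.e (nat_lit 1188) (nat_lit 88) (.e (nat_lit 65624) (nat_lit 12) (.e (nat_lit 385106) (nat_lit 50) (.e (nat_lit 786483) (nat_lit 30) (.e (nat_lit 360453) (nat_lit 0) (.e (nat_lit 5907) (nat_lit 320) .nil)))))) (.g (nat_lit 4) .nil .nil))))))) (.nd (nat_lit 3) (.nd (nat_lit 4) (.nd (nat_lit 5) (.nd (nat_lit 6) 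
(.lf (nat_lit 23686) (.g (nat_lit 2155) (.e (nat_lit 1187) (nat_lit 88) (.e (nat_lit 65630) (nat_lit 14) (.e (nat_lit 401459) (nat_lit 13) (.e (nat_lit 491264) (nat_lit 23) .nil)))) .nil)) 
(.lf (nat_lit 23750) (.g (nat_lit 2449) (.e (nat_lit 1188) (nat_lit 88) (.e (nat_lit 65624) (nat_lit 12) (.e (nat_lit 385093) (nat_lit 49) (.e (nat_lit 778326) (nat_lit 6) (.e (nat_lit 81950) (nat_lit 21) (.e (nat_lit 57870) (nat_lit 264) .nil)))))) (.g (nat_lit 5) .nil .nil)))) (.nd (nat_lit 6) 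
(.lf (nat_lit 23718) (.g (nat_lit 3107) (.e (nat_lit 1187) (nat_lit 88) (.e (nat_lit 65630) (nat_lit 14) (.e (nat_lit 401459) (nat_lit 13) (.e (nat_lit 483411) (nat_lit 27) (.e (nat_lit 401422) (nat_lit 1) .nil))))) .nil)) 
(.lf (nat_lit 23782) (.g (nat_lit 2651) (.e (nat_lit 1188) (nat_lit 88) (.e (nat_lit 65624) (nat_lit 12) (.e (nat_lit 385105) (nat_lit 50) (.e (nat_lit 786483) (nat_lit 30) (.e (nat_lit 360452) (nat_lit 0) .nil))))) .nil)))) (.nd (nat_lit 5) (.nd (nat_lit 6) 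
(.lf (nat_lit 23702) (.g (nat_lit 3099) (.e (nat_lit 1187) (nat_lit 88) (.e (nat_lit 65630) (nat_lit 14) (.e (nat_lit 401459) (nat_lit 13) (.e (nat_lit 483403) (nat_lit 26) (.e (nat_lit 385049) (nat_lit 21) .nil))))) .nil)) 
(.lf (nat_lit 23766) (.g (nat_lit 2139) (.e (nat_lit 1188) (nat_lit 88) (.e (nat_lit 65624) (nat_lit 12) (.e (nat_lit 385094) (nat_lit 49) (.e (nat_lit 778327) (nat_lit 6) (.e (nat_lit 81948) (nat_lit 21) (.e (nat_lit 57872) (nat_lit 264) .nil)))))) (.g (nat_lit 4) .nil .nil)))) (.nd (nat_lit 6) 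
(.lf (nat_lit 23734) (.g (nat_lit 3346) (.e (nat_lit 1188) (nat_lit 88) (.e (nat_lit 65586) (nat_lit 7) (.e (nat_lit 319531) (nat_lit 16) (.e (nat_lit 286748) (nat_lit 9) (.e (nat_lit 336295) (nat_lit 15) (.e (nat_lit 3632) (nat_lit 227) (.e (nat_lit 778246) (nat_lit 0) (.e (nat_lit 1183) (nat_lit 87) (.e (nat_lit 57727) (nat_lit 181) .nil))))))))) (.g (nat_lit 6) .nil .nil))) 
(.lf (nat_lit 23798) (.g (nat_lit 2122) (.e (nat_lit 1188) (nat_lit 88) (.e (nat_lit 65624) (nat_lit 12) (.e (nat_lit 385106) (nat_lit 50) (.e (nat_lit 786481) (nat_lit 30) (.e (nat_lit 368384) (nat_lit 0) (.e (nat_lit 5906) (nat_lit 320) .nil)))))) (.g (nat_lit 4) .nil .nil)))))) (.nd (nat_lit 4) (.nd (nat_lit 5) (.nd (nat_lit 6) 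
(.lf (nat_lit 23694) (.g (nat_lit 3183) (.e (nat_lit 1187) (nat_lit 88) (.e (nat_lit 65630) (nat_lit 14) (.e (nat_lit 401459) (nat_lit 13) (.e (nat_lit 483396) (nat_lit 24) (.e (nat_lit 344093) (nat_lit 18) .nil))))) .nil)) 
(.lf (nat_lit 23758) (.g (nat_lit 1971) (.e (nat_lit 1188) (nat_lit 88) (.e (nat_lit 65624) (nat_lit 12) (.e (nat_lit 385094) (nat_lit 49) (.e (nat_lit 778253) (nat_lit 0) .nil)))) .nil))) (.nd (nat_lit 6) 
(.lf (nat_lit 23726) (.g (nat_lit 2643) (.e (nat_lit 1188) (nat_lit 88) (.e (nat_lit 65571) (nat_lit 3) (.e (nat_lit 98372) (nat_lit 29) (.e (nat_lit 450579) (nat_lit 5) (.e (nat_lit 532499) (nat_lit 1) (.e (nat_lit 65280) (nat_lit 221) .nil)))))) (.g (nat_lit 5) .nil .nil))) 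
(.lf (nat_lit 23790) (.g (nat_lit 2869) (.e (nat_lit 1188) (nat_lit 88) (.e (nat_lit 65624) (nat_lit 12) (.e (nat_lit 385106) (nat_lit 50) (.e (nat_lit 786478) (nat_lit 29) (.e (nat_lit 352309) (nat_lit 21) (.e (nat_lit 57872) (nat_lit 264) .nil)))))) (.g (nat_lit 5) .nil .nil))))) (.nd (nat_lit 5) (.nd (nat_lit 6) 
(.lf (nat_lit 23710) (.g (nat_lit 3683) (.e (nat_lit 1187) (nat_lit 88) (.e (nat_lit 65630) (nat_lit 14) (.e (nat_lit 401459) (nat_lit 13) (.e (nat_lit 483411) (nat_lit 27) (.e (nat_lit 401414) (nat_lit 0) (.e (nat_lit 2426) (nat_lit 157) (.e (nat_lit 4586) (nat_lit 269) .nil))))))) (.g (nat_lit 5) .nil .nil))) 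
(.lf (nat_lit 23774) (.g (nat_lit 1584) (.e (nat_lit 1188) (nat_lit 88) (.e (nat_lit 65624) (nat_lit 12) (.e (nat_lit 385105) (nat_lit 50) (.e (nat_lit 786479) (nat_lit 29) .nil)))) .nil))) (.nd (nat_lit 6) 
(.lf (nat_lit 23742) (.g (nat_lit 937) (.e (nat_lit 1188) (nat_lit 88) (.e (nat_lit 65622) (nat_lit 12) (.e (nat_lit 385106) (nat_lit 50) (.e (nat_lit 786480) (nat_lit 29) .nil)))) .nil)) 
(.lf (nat_lit 23806) (.g (nat_lit 2400) (.e (nat_lit 1188) (nat_lit 88) (.e (nat_lit 65624) (nat_lit 12) (.e (nat_lit 385106) (nat_lit 50) (.e (nat_lit 786483) (nat_lit 30) (.e (nat_lit 368384) (nat_lit 0) (.e (nat_lit 5906) (nat_lit 320) .nil)))))) (.g (nat_lit 4) .nil .nil))))))))) (.nd (nat_lit 1) (.nd (nat_lit 2) (.nd (nat_lit 3) (.nd (nat_lit 4) (.nd (nat_lit 5) (.nd (nat_lit 6) 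
(.lf (nat_lit 23681) (.g (nat_lit 2704) (.e (nat_lit 1187) (nat_lit 88) (.e (nat_lit 65630) (nat_lit 14) (.e (nat_lit 401459) (nat_lit 13) (.e (nat_lit 483389) (nat_lit 23) .nil)))) .nil)) 
(.lf (nat_lit 23745) (.g (nat_lit 2417) (.e (nat_lit 1188) (nat_lit 88) (.e (nat_lit 65624) (nat_lit 12) (.e (nat_lit 385093) (nat_lit 49) (.e (nat_lit 778290) (nat_lit 0) .nil)))) .nil))) (.nd (nat_lit 6) 
(.lf (nat_lit 23713) (.g (nat_lit 3682) (.e (nat_lit 1187) (nat_lit 88) (.e (nat_lit 65630) (nat_lit 14) (.e (nat_lit 401459) (nat_lit 13) (.e (nat_lit 483411) (nat_lit 27) (.e (nat_lit 401414) (nat_lit 0) (.e (nat_lit 2458) (nat_lit 157) (.e (nat_lit 4606) (nat_lit 269) .nil))))))) (.g (nat_lit 5) .nil .nil))) 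
(.lf (nat_lit 23777) (.g (nat_lit 2668) (.e (nat_lit 1188) (nat_lit 88) (.e (nat_lit 65624) (nat_lit 12) (.e (nat_lit 385105) (nat_lit 50) (.e (nat_lit 786481) (nat_lit 30) (.e (nat_lit 360452) (nat_lit 0) (.e (nat_lit 5905) (nat_lit 320) .nil)))))) (.g (nat_lit 5) .nil .nil))))) (.nd (nat_lit 5) (.nd (nat_lit 6) 
(.lf (nat_lit 23697) (.g (nat_lit 2362) (.e (nat_lit 1187) (nat_lit 88) (.e (nat_lit 65630) (nat_lit 14) (.e (nat_lit 401459) (nat_lit 13) (.e (nat_lit 483399) (nat_lit 25) .nil)))) .nil)) 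
(.lf (nat_lit 23761) (.g (nat_lit 2775) (.e (nat_lit 1188) (nat_lit 88) (.e (nat_lit 65624) (nat_lit 12) (.e (nat_lit 385094) (nat_lit 49) (.e (nat_lit 778326) (nat_lit 6) (.e (nat_lit 81950) (nat_lit 21) (.e (nat_lit 57870) (nat_lit 264) .nil)))))) (.g (nat_lit 6) .nil .nil)))) (.nd (nat_lit 6) 
(.lf (nat_lit 23729) (.g (nat_lit 1721) (.e (nat_lit 1188) (nat_lit 88) (.e (nat_lit 65571) (nat_lit 3) (.e (nat_lit 98373) (nat_lit 29) (.e (nat_lit 450587) (nat_lit 10) .nil)))) .nil)) 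
(.lf (nat_lit 23793) (.g (nat_lit 3227) (.e (nat_lit 1188) (nat_lit 88) (.e (nat_lit 65624) (nat_lit 12) (.e (nat_lit 385106) (nat_lit 50) (.e (nat_lit 786480) (nat_lit 29) (.e (nat_lit 352309) (nat_lit 21) (.e (nat_lit 57871) (nat_lit 264) .nil)))))) (.g (nat_lit 5) .nil .nil)))))) (.nd (nat_lit 4) (.nd (nat_lit 5) (.nd (nat_lit 6) 
(.lf (nat_lit 23689) (.g (nat_lit 2888) (.e (nat_lit 1187) (nat_lit 88) (.e (nat_lit 65630) (nat_lit 14) (.e (nat_lit 401459) (nat_lit 13) (.e (nat_lit 483394) (nat_lit 24) (.e (nat_lit 344097) (nat_lit 18) (.e (nat_lit 5907) (nat_lit 320) .nil)))))) (.g (nat_lit 4) .nil .nil))) 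
(.lf (nat_lit 23753) (.g (nat_lit 2186) (.e (nat_lit 1188) (nat_lit 88) (.e (nat_lit 65624) (nat_lit 12) (.e (nat_lit 385093) (nat_lit 49) (.e (nat_lit 778327) (nat_lit 6) (.e (nat_lit 81949) (nat_lit 21) .nil))))) .nil))) (.nd (nat_lit 6) 
(.lf (nat_lit 23721) (.g (nat_lit 3540) (.e (nat_lit 1188) (nat_lit 88) (.e (nat_lit 65568) (nat_lit 2) (.e (nat_lit 90170) (nat_lit 13) (.e (nat_lit 172106) (nat_lit 10) (.e (nat_lit 434231) (nat_lit 23) (.e (nat_lit 532490) (nat_lit 0) (.e (nat_lit 991) (nat_lit 81) (.e (nat_lit 4500) (nat_lit 263) .nil)))))))) (.g (nat_lit 6) .nil .nil))) 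
(.lf (nat_lit 23785) (.g (nat_lit 2309) (.e (nat_lit 1188) (nat_lit 88) (.e (nat_lit 65624) (nat_lit 12) (.e (nat_lit 385105) (nat_lit 50) (.e (nat_lit 786483) (nat_lit 30) (.e (nat_lit 368384) (nat_lit 0) .nil))))) .nil)))) (.nd (nat_lit 5) (.nd (nat_lit 6) 
(.lf (nat_lit 23705) (.g (nat_lit 3068) (.e (nat_lit 1187) (nat_lit 88) (.e (nat_lit 65630) (nat_lit 14) (.e (nat_lit 401459) (nat_lit 13) (.e (nat_lit 483410) (nat_lit 27) (.e (nat_lit 401418) (nat_lit 0) .nil))))) .nil)) 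
(.lf (nat_lit 23769) (.g (nat_lit 2320) (.e (nat_lit 1188) (nat_lit 88) (.e (nat_lit 65624) (nat_lit 12) (.e (nat_lit 385094) (nat_lit 49) (.e (nat_lit 778327) (nat_lit 6) (.e (nat_lit 81950) (nat_lit 21) (.e (nat_lit 57871) (nat_lit 264) .nil)))))) (.g (nat_lit 4) .nil .nil)))) (.nd (nat_lit 6) 
(.lf (nat_lit 23737) (.g (nat_lit 3022) (.e (nat_lit 1188) (nat_lit 88) (.e (nat_lit 65586) (nat_lit 7) (.e (nat_lit 319534) (nat_lit 16) (.e (nat_lit 286756) (nat_lit 10) (.e (nat_lit 344168) (nat_lit 40) (.e (nat_lit 671751) (nat_lit 0) (.e (nat_lit 1182) (nat_lit 87) (.e (nat_lit 57730) (nat_lit 181) .nil)))))))) (.g (nat_lit 4) .nil .nil))) 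
(.lf (nat_lit 23801) (.g (nat_lit 2607) (.e (nat_lit 1188) (nat_lit 88) (.e (nat_lit 65624) (nat_lit 12) (.e (nat_lit 385106) (nat_lit 50) (.e (nat_lit 786483) (nat_lit 30) (.e (nat_lit 360452) (nat_lit 0) .nil))))) .nil)))))) (.nd (nat_lit 3) (.nd (nat_lit 4) (.nd (nat_lit 5) (.nd (nat_lit 6) 
(.lf (nat_lit 23685) (.g (nat_lit 3041) (.e (nat_lit 1187) (nat_lit 88) (.e (nat_lit 65630) (nat_lit 14) (.e (nat_lit 401459) (nat_lit 13) (.e (nat_lit 483393) (nat_lit 23) (.e (nat_lit 335996) (nat_lit 1) .nil))))) .nil)) 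
(.lf (nat_lit 23749) (.g (nat_lit 2871) (.e (nat_lit 1188) (nat_lit 88) (.e (nat_lit 65624) (nat_lit 12) (.e (nat_lit 385093) (nat_lit 49) (.e (nat_lit 778326) (nat_lit 6) (.e (nat_lit 81948) (nat_lit 21) (.e (nat_lit 57872) (nat_lit 264) .nil)))))) (.g (nat_lit 6) .nil .nil)))) (.nd (nat_lit 6) 
(.lf (nat_lit 23717) (.g (nat_lit 3175) (.e (nat_lit 1187) (nat_lit 88) (.e (nat_lit 65630) (nat_lit 14) (.e (nat_lit 401459) (nat_lit 13) (.e (nat_lit 483411) (nat_lit 27) (.e (nat_lit 401421) (nat_lit 1) .nil))))) .nil)) 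
(.lf (nat_lit 23781) (.g (nat_lit 2273) (.e (nat_lit 1188) (nat_lit 88) (.e (nat_lit 65624) (nat_lit 12) (.e (nat_lit 385105) (nat_lit 50) (.e (nat_lit 786483) (nat_lit 30) (.e (nat_lit 360451) (nat_lit 0) .nil))))) .nil)))) (.nd (nat_lit 5) (.nd (nat_lit 6) 
(.lf (nat_lit 23701) (.g (nat_lit 2122) (.e (nat_lit 1187) (nat_lit 88) (.e (nat_lit 65630) (nat_lit 14) (.e (nat_lit 401459) (nat_lit 13) (.e (nat_lit 483403) (nat_lit 26) .nil)))) .nil)) 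
(.lf (nat_lit 23765) (.g (nat_lit 2039) (.e (nat_lit 1188) (nat_lit 88) (.e (nat_lit 65624) (nat_lit 12) (.e (nat_lit 385094) (nat_lit 49) (.e (nat_lit 778327) (nat_lit 6) (.e (nat_lit 81948) (nat_lit 21) .nil))))) .nil))) (.nd (nat_lit 6) 
(.lf (nat_lit 23733) (.g (nat_lit 3112) (.e (nat_lit 1188) (nat_lit 88) (.e (nat_lit 65571) (nat_lit 3) (.e (nat_lit 98373) (nat_lit 29) (.e (nat_lit 450588) (nat_lit 10) (.e (nat_lit 573475) (nat_lit 12) (.e (nat_lit 57346) (nat_lit 0) (.e (nat_lit 7233) (nat_lit 382) .nil))))))) (.g (nat_lit 4) .nil .nil))) 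
(.lf (nat_lit 23797) (.g (nat_lit 2284) (.e (nat_lit 1188) (nat_lit 88) (.e (nat_lit 65624) (nat_lit 12) (.e (nat_lit 385106) (nat_lit 50) (.e (nat_lit 786481) (nat_lit 30) (.e (nat_lit 368384) (nat_lit 0) (.e (nat_lit 5905) (nat_lit 320) .nil)))))) (.g (nat_lit 4) .nil .nil)))))) (.nd (nat_lit 4) (.nd (nat_lit 5) (.nd (nat_lit 6) 
(.lf (nat_lit 23693) (.g (nat_lit 2396) (.e (nat_lit 1187) (nat_lit 88) (.e (nat_lit 65630) (nat_lit 14) (.e (nat_lit 401459) (nat_lit 13) (.e (nat_lit 483396) (nat_lit 24) .nil)))) .nil)) 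
(.lf (nat_lit 23757) (.g (nat_lit 2205) (.e (nat_lit 1188) (nat_lit 88) (.e (nat_lit 65624) (nat_lit 12) (.e (nat_lit 385093) (nat_lit 49) (.e (nat_lit 778327) (nat_lit 6) (.e (nat_lit 81950) (nat_lit 21) (.e (nat_lit 57873) (nat_lit 264) .nil)))))) (.g (nat_lit 4) .nil .nil)))) (.nd (nat_lit 6) 
(.lf (nat_lit 23725) (.g (nat_lit 1369) (.e (nat_lit 1188) (nat_lit 88) (.e (nat_lit 65571) (nat_lit 3) (.e (nat_lit 98367) (nat_lit 27) (.e (nat_lit 442112) (nat_lit 1) .nil)))) .nil)) 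
(.lf (nat_lit 23789) (.g (nat_lit 2303) (.e (nat_lit 1188) (nat_lit 88) (.e (nat_lit 65624) (nat_lit 12) (.e (nat_lit 385106) (nat_lit 50) (.e (nat_lit 786478) (nat_lit 29) (.e (nat_lit 352309) (nat_lit 21) (.e (nat_lit 57871) (nat_lit 264) .nil)))))) (.g (nat_lit 4) .nil .nil))))) (.nd (nat_lit 5) (.nd (nat_lit 6) 
(.lf (nat_lit 23709) (.g (nat_lit 3046) (.e (nat_lit 1187) (nat_lit 88) (.e (nat_lit 65630) (nat_lit 14) (.e (nat_lit 401459) (nat_lit 13) (.e (nat_lit 483411) (nat_lit 27) (.e (nat_lit 401414) (nat_lit 0) .nil))))) .nil)) 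
(.lf (nat_lit 23773) (.g (nat_lit 2265) (.e (nat_lit 1188) (nat_lit 88) (.e (nat_lit 65624) (nat_lit 12) (.e (nat_lit 385105) (nat_lit 50) (.e (nat_lit 786478) (nat_lit 29) (.e (nat_lit 352309) (nat_lit 21) (.e (nat_lit 57870) (nat_lit 264) .nil)))))) (.g (nat_lit 4) .nil .nil)))) (.nd (nat_lit 6) 
(.lf (nat_lit 23741) (.g (nat_lit 1051) (.e (nat_lit 1188) (nat_lit 88) (.e (nat_lit 65622) (nat_lit 12) (.e (nat_lit 385105) (nat_lit 50) (.e (nat_lit 786480) (nat_lit 29) .nil)))) .nil)) 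
(.lf (nat_lit 23805) (.g (nat_lit 2675) (.e (nat_lit 1188) (nat_lit 88) (.e (nat_lit 65624) (nat_lit 12) (.e (nat_lit 385106) (nat_lit 50) (.e (nat_lit 786483) (nat_lit 30) (.e (nat_lit 368384) (nat_lit 0) (.e (nat_lit 5905) (nat_lit 320) .nil)))))) (.g (nat_lit 4) .nil .nil)))))))) (.nd (nat_lit 2) (.nd (nat_lit 3) (.nd (nat_lit 4) (.nd (nat_lit 5) (.nd (nat_lit 6) 
(.lf (nat_lit 23683) (.g (nat_lit 2807) (.e (nat_lit 1187) (nat_lit 88) (.e (nat_lit 65630) (nat_lit 14) (.e (nat_lit 401459) (nat_lit 13) (.e (nat_lit 483392) (nat_lit 23) .nil)))) .nil)) 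
(.lf (nat_lit 23747) (.g (nat_lit 2315) (.e (nat_lit 1188) (nat_lit 88) (.e (nat_lit 65624) (nat_lit 12) (.e (nat_lit 385093) (nat_lit 49) (.e (nat_lit 778326) (nat_lit 6) (.e (nat_lit 81948) (nat_lit 21) (.e (nat_lit 57870) (nat_lit 264) .nil)))))) (.g (nat_lit 5) .nil .nil)))) (.nd (nat_lit 6) 
(.lf (nat_lit 23715) (.g (nat_lit 3447) (.e (nat_lit 1187) (nat_lit 88) (.e (nat_lit 65630) (nat_lit 14) (.e (nat_lit 401459) (nat_lit 13) (.e (nat_lit 483411) (nat_lit 27) (.e (nat_lit 401418) (nat_lit 0) .nil))))) .nil)) 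
(.lf (nat_lit 23779) (.g (nat_lit 2209) (.e (nat_lit 1188) (nat_lit 88) (.e (nat_lit 65624) (nat_lit 12) (.e (nat_lit 385105) (nat_lit 50) (.e (nat_lit 786481) (nat_lit 30) (.e (nat_lit 368384) (nat_lit 0) (.e (nat_lit 5905) (nat_lit 320) .nil)))))) (.g (nat_lit 4) .nil .nil))))) (.nd (nat_lit 5) (.nd (nat_lit 6) 
(.lf (nat_lit 23699) (.g (nat_lit 2512) (.e (nat_lit 1187) (nat_lit 88) (.e (nat_lit 65630) (nat_lit 14) (.e (nat_lit 401459) (nat_lit 13) (.e (nat_lit 483400) (nat_lit 25) .nil)))) .nil)) 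
(.lf (nat_lit 23763) (.g (nat_lit 3161) (.e (nat_lit 1188) (nat_lit 88) (.e (nat_lit 65624) (nat_lit 12) (.e (nat_lit 385094) (nat_lit 49) (.e (nat_lit 778326) (nat_lit 6) (.e (nat_lit 81950) (nat_lit 21) (.e (nat_lit 57872) (nat_lit 264) .nil)))))) (.g (nat_lit 6) .nil .nil)))) (.nd (nat_lit 6) 
(.lf (nat_lit 23731) (.g (nat_lit 2975) (.e (nat_lit 1188) (nat_lit 88) (.e (nat_lit 65571) (nat_lit 3) (.e (nat_lit 98373) (nat_lit 29) (.e (nat_lit 450588) (nat_lit 10) (.e (nat_lit 573473) (nat_lit 12) .nil))))) .nil)) 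
(.lf (nat_lit 23795) (.g (nat_lit 2736) (.e (nat_lit 1188) (nat_lit 88) (.e (nat_lit 65624) (nat_lit 12) (.e (nat_lit 385106) (nat_lit 50) (.e (nat_lit 786481) (nat_lit 30) (.e (nat_lit 360452) (nat_lit 0) (.e (nat_lit 5905) (nat_lit 320) .nil)))))) (.g (nat_lit 5) .nil .nil)))))) (.nd (nat_lit 4) (.nd (nat_lit 5) (.nd (nat_lit 6) 
(.lf (nat_lit 23691) (.g (nat_lit 2919) (.e (nat_lit 1187) (nat_lit 88) (.e (nat_lit 65630) (nat_lit 14) (.e (nat_lit 401459) (nat_lit 13) (.e (nat_lit 483395) (nat_lit 24) (.e (nat_lit 344090) (nat_lit 18) .nil))))) .nil)) 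
(.lf (nat_lit 23755) (.g (nat_lit 2100) (.e (nat_lit 1188) (nat_lit 88) (.e (nat_lit 65624) (nat_lit 12) (.e (nat_lit 385093) (nat_lit 49) (.e (nat_lit 778327) (nat_lit 6) (.e (nat_lit 81950) (nat_lit 21) .nil))))) .nil))) (.nd (nat_lit 6) 
(.lf (nat_lit 23723) (.g (nat_lit 1567) (.e (nat_lit 1188) (nat_lit 88) (.e (nat_lit 65568) (nat_lit 2) (.e (nat_lit 90172) (nat_lit 14) (.e (nat_lit 188160) (nat_lit 33) .nil)))) .nil)) 
(.lf (nat_lit 23787) (.g (nat_lit 2412) (.e (nat_lit 1188) (nat_lit 88) (.e (nat_lit 65624) (nat_lit 12) (.e (nat_lit 385105) (nat_lit 50) (.e (nat_lit 786483) (nat_lit 30) (.e (nat_lit 368384) (nat_lit 0) (.e (nat_lit 5905) (nat_lit 320) .nil)))))) (.g (nat_lit 4) .nil .nil))))) (.nd (nat_lit 5) (.nd (nat_lit 6) 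
(.lf (nat_lit 23707) (.g (nat_lit 3107) (.e (nat_lit 1187) (nat_lit 88) (.e (nat_lit 65630) (nat_lit 14) (.e (nat_lit 401459) (nat_lit 13) (.e (nat_lit 483410) (nat_lit 27) (.e (nat_lit 401422) (nat_lit 1) (.e (nat_lit 164421) (nat_lit 272) .nil)))))) (.g (nat_lit 4) .nil .nil))) 
(.lf (nat_lit 23771) (.g (nat_lit 2183) (.e (nat_lit 1188) (nat_lit 88) (.e (nat_lit 65624) (nat_lit 12) (.e (nat_lit 385104) (nat_lit 50) (.e (nat_lit 786480) (nat_lit 29) (.e (nat_lit 352309) (nat_lit 21) (.e (nat_lit 57871) (nat_lit 264) .nil)))))) (.g (nat_lit 4) .nil .nil)))) (.nd (nat_lit 6) 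
(.lf (nat_lit 23739) (.g (nat_lit 2882) (.e (nat_lit 1188) (nat_lit 88) (.e (nat_lit 65586) (nat_lit 7) (.e (nat_lit 319534) (nat_lit 16) (.e (nat_lit 286756) (nat_lit 10) (.e (nat_lit 344169) (nat_lit 40) (.e (nat_lit 671751) (nat_lit 0) (.e (nat_lit 1182) (nat_lit 87) (.e (nat_lit 57730) (nat_lit 181) .nil)))))))) (.g (nat_lit 4) .nil .nil))) 
(.lf (nat_lit 23803) (.g (nat_lit 3030) (.e (nat_lit 1188) (nat_lit 88) (.e (nat_lit 65624) (nat_lit 12) (.e (nat_lit 385106) (nat_lit 50) (.e (nat_lit 786483) (nat_lit 30) (.e (nat_lit 360454) (nat_lit 0) (.e (nat_lit 5907) (nat_lit 320) .nil)))))) (.g (nat_lit 5) .nil .nil))))))) (.nd (nat_lit 3) (.nd (nat_lit 4) (.nd (nat_lit 5) (.nd (nat_lit 6) 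
(.lf (nat_lit 23687) (.g (nat_lit 2110) (.e (nat_lit 1187) (nat_lit 88) (.e (nat_lit 65630) (nat_lit 14) (.e (nat_lit 401459) (nat_lit 13) (.e (nat_lit 483394) (nat_lit 24) .nil)))) .nil)) 
(.lf (nat_lit 23751) (.g (nat_lit 2424) (.e (nat_lit 1188) (nat_lit 88) (.e (nat_lit 65624) (nat_lit 12) (.e (nat_lit 385093) (nat_lit 49) (.e (nat_lit 778326) (nat_lit 6) (.e (nat_lit 81950) (nat_lit 21) (.e (nat_lit 57871) (nat_lit 264) .nil)))))) (.g (nat_lit 5) .nil .nil)))) (.nd (nat_lit 6) 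
(.lf (nat_lit 23719) (.g (nat_lit 3420) (.e (nat_lit 1187) (nat_lit 88) (.e (nat_lit 65630) (nat_lit 14) (.e (nat_lit 401459) (nat_lit 13) (.e (nat_lit 483411) (nat_lit 27) (.e (nat_lit 401429) (nat_lit 4) .nil))))) .nil)) 
(.lf (nat_lit 23783) (.g (nat_lit 3267) (.e (nat_lit 1188) (nat_lit 88) (.e (nat_lit 65624) (nat_lit 12) (.e (nat_lit 385105) (nat_lit 50) (.e (nat_lit 786483) (nat_lit 30) (.e (nat_lit 360452) (nat_lit 0) (.e (nat_lit 5907) (nat_lit 320) .nil)))))) (.g (nat_lit 5) .nil .nil))))) (.nd (nat_lit 5) (.nd (nat_lit 6) 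
(.lf (nat_lit 23703) (.g (nat_lit 1929) (.e (nat_lit 1187) (nat_lit 88) (.e (nat_lit 65630) (nat_lit 14) (.e (nat_lit 401459) (nat_lit 13) (.e (nat_lit 483410) (nat_lit 27) .nil)))) .nil)) 
(.lf (nat_lit 23767) (.g (nat_lit 2055) (.e (nat_lit 1188) (nat_lit 88) (.e (nat_lit 65624) (nat_lit 12) (.e (nat_lit 385094) (nat_lit 49) (.e (nat_lit 778327) (nat_lit 6) (.e (nat_lit 81949) (nat_lit 21) .nil))))) .nil))) (.nd (nat_lit 6) 
(.lf (nat_lit 23735) (.g (nat_lit 1719) (.e (nat_lit 1188) (nat_lit 88) (.e (nat_lit 65586) (nat_lit 7) (.e (nat_lit 319531) (nat_lit 16) (.e (nat_lit 286759) (nat_lit 12) (.e (nat_lit 385094) (nat_lit 49) .nil))))) .nil)) 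
(.lf (nat_lit 23799) (.g (nat_lit 1636) (.e (nat_lit 1188) (nat_lit 88) (.e (nat_lit 65624) (nat_lit 12) (.e (nat_lit 385106) (nat_lit 50) (.e (nat_lit 786483) (nat_lit 30) .nil)))) .nil))))) (.nd (nat_lit 4) (.nd (nat_lit 5) (.nd (nat_lit 6) 
(.lf (nat_lit 23695) (.g (nat_lit 2768) (.e (nat_lit 1187) (nat_lit 88) (.e (nat_lit 65630) (nat_lit 14) (.e (nat_lit 401459) (nat_lit 13) (.e (nat_lit 483397) (nat_lit 25) .nil)))) .nil)) 
(.lf (nat_lit 23759) (.g (nat_lit 3059) (.e (nat_lit 1188) (nat_lit 88) (.e (nat_lit 65624) (nat_lit 12) (.e (nat_lit 385094) (nat_lit 49) (.e (nat_lit 778326) (nat_lit 6) (.e (nat_lit 81948) (nat_lit 21) (.e (nat_lit 57872) (nat_lit 264) .nil)))))) (.g (nat_lit 0) .nil .nil)))) (.nd (nat_lit 6) 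
(.lf (nat_lit 23727) (.g (nat_lit 3260) (.e (nat_lit 1188) (nat_lit 88) (.e (nat_lit 65571) (nat_lit 3) (.e (nat_lit 98372) (nat_lit 29) (.e (nat_lit 450579) (nat_lit 5) (.e (nat_lit 532501) (nat_lit 1) (.e (nat_lit 65280) (nat_lit 221) .nil)))))) (.g (nat_lit 5) .nil .nil))) 
(.lf (nat_lit 23791) (.g (nat_lit 1739) (.e (nat_lit 1188) (nat_lit 88) (.e (nat_lit 65624) (nat_lit 12) (.e (nat_lit 385106) (nat_lit 50) (.e (nat_lit 786479) (nat_lit 29) .nil)))) .nil)))) (.nd (nat_lit 5) (.nd (nat_lit 6) 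
(.lf (nat_lit 23711) (.g (nat_lit 3162) (.e (nat_lit 1187) (nat_lit 88) (.e (nat_lit 65630) (nat_lit 14) (.e (nat_lit 401459) (nat_lit 13) (.e (nat_lit 483411) (nat_lit 27) (.e (nat_lit 401414) (nat_lit 0) (.e (nat_lit 2458) (nat_lit 157) (.e (nat_lit 4602) (nat_lit 269) .nil))))))) (.g (nat_lit 4) .nil .nil))) 
(.lf (nat_lit 23775) (.g (nat_lit 3342) (.e (nat_lit 1188) (nat_lit 88) (.e (nat_lit 65624) (nat_lit 12) (.e (nat_lit 385105) (nat_lit 50) (.e (nat_lit 786480) (nat_lit 29) (.e (nat_lit 352309) (nat_lit 21) (.e (nat_lit 57871) (nat_lit 264) .nil)))))) (.g (nat_lit 5) .nil .nil)))) (.nd (nat_lit 6) 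
(.lf (nat_lit 23743) (.g (nat_lit 1865) (.e (nat_lit 1188) (nat_lit 88) (.e (nat_lit 65624) (nat_lit 12) (.e (nat_lit 385092) (nat_lit 49) (.e (nat_lit 778326) (nat_lit 6) (.e (nat_lit 81950) (nat_lit 21) (.e (nat_lit 57870) (nat_lit 264) .nil)))))) (.g (nat_lit 5) .nil .nil))) 
(.lf (nat_lit 23807) (.g (nat_lit 370) (.e (nat_lit 1188) (nat_lit 88) (.e (nat_lit 65627) (nat_lit 13) (.e (nat_lit 393260) (nat_lit 21) .nil))) .nil)))))))))


end

end Pool.Agent.Lib.MP_5854e1_co.Cz
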